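import Pool.Agent.Lib.MP_5854e1_co.DtD

/-!
# Windows and cells of the rings
-/

set_option autoImplicit false
set_option maxRecDepth 100000
set_option deprecated.oldSectionVars true

namespace Pool.Agent.Lib.MP_5854e1_co.Cz

open Pool.Agent.Lib.MP_5854e1_co

noncomputable section

noncomputable def tv1892 : DT := (.nd (nat_lit 0) (.nd (nat_lit 1) (.nd (nat_lit 2) (.nd (nat_lit 3) (.nd (nat_lit 4) (.nd (nat_lit 5) (.nd (nat_lit 6) 
(.lf (nat_lit 142592) (.g (nat_lit 1673) (.e (nat_lit 40996) (nat_lit 11) (.e (nat_lit 24654) (nat_lit 13) (.e (nat_lit 393260) (nat_lit 21) (.e (nat_lit 409636) (nat_lit 14) (.e (nat_lit 270348) (nat_lit 3) .nil))))) .nil)) 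
(.lf (nat_lit 142656) (.g (nat_lit 1309) (.e (nat_lit 40996) (nat_lit 11) (.e (nat_lit 24660) (nat_lit 13) (.e (nat_lit 393260) (nat_lit 21) (.e (nat_lit 409616) (nat_lit 10) .nil)))) .nil))) (.nd (nat_lit 6) 
(.lf (nat_lit 142624) (.g (nat_lit 1953) (.e (nat_lit 40996) (nat_lit 11) (.e (nat_lit 24658) (nat_lit 13) (.e (nat_lit 393260) (nat_lit 21) (.e (nat_lit 409614) (nat_lit 10) .nil)))) .nil)) 
(.lf (nat_lit 142688) (.g (nat_lit 1679) (.e (nat_lit 40997) (nat_lit 11) (.e (nat_lit 24604) (nat_lit 2) (.e (nat_lit 90170) (nat_lit 13) (.e (nat_lit 172120) (nat_lit 12) .nil)))) .nil)))) (.nd (nat_lit 5) (.nd (nat_lit 6) 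
(.lf (nat_lit 142608) (.g (nat_lit 1496) (.e (nat_lit 40996) (nat_lit 11) (.e (nat_lit 24658) (nat_lit 13) (.e (nat_lit 393234) (nat_lit 17) .nil))) .nil)) 
(.lf (nat_lit 142672) (.g (nat_lit 2714) (.e (nat_lit 40996) (nat_lit 11) (.e (nat_lit 24665) (nat_lit 14) (.e (nat_lit 401448) (nat_lit 10) (.e (nat_lit 434275) (nat_lit 39) .nil)))) .nil))) (.nd (nat_lit 6) 
(.lf (nat_lit 142640) (.g (nat_lit 837) (.e (nat_lit 40996) (nat_lit 11) (.e (nat_lit 24658) (nat_lit 13) (.e (nat_lit 393262) (nat_lit 22) .nil))) .nil)) 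
(.lf (nat_lit 142704) (.g (nat_lit 1509) (.e (nat_lit 40997) (nat_lit 11) (.e (nat_lit 24608) (nat_lit 3) (.e (nat_lit 98372) (nat_lit 29) .nil))) .nil))))) (.nd (nat_lit 4) (.nd (nat_lit 5) (.nd (nat_lit 6) 
(.lf (nat_lit 142600) (.g (nat_lit 945) (.e (nat_lit 40996) (nat_lit 11) (.e (nat_lit 24655) (nat_lit 13) (.e (nat_lit 393263) (nat_lit 22) .nil))) .nil)) 
(.lf (nat_lit 142664) (.g (nat_lit 1439) (.e (nat_lit 40996) (nat_lit 11) (.e (nat_lit 24660) (nat_lit 13) (.e (nat_lit 393260) (nat_lit 21) (.e (nat_lit 409636) (nat_lit 14) .nil)))) .nil))) (.nd (nat_lit 6) 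
(.lf (nat_lit 142632) (.g (nat_lit 1538) (.e (nat_lit 40996) (nat_lit 11) (.e (nat_lit 24658) (nat_lit 13) (.e (nat_lit 393260) (nat_lit 21) (.e (nat_lit 409617) (nat_lit 10) .nil)))) .nil)) 
(.lf (nat_lit 142696) (.g (nat_lit 1969) (.e (nat_lit 40997) (nat_lit 11) (.e (nat_lit 24604) (nat_lit 2) (.e (nat_lit 90176) (nat_lit 15) (.e (nat_lit 188431) (nat_lit 20) (.e (nat_lit 2403) (nat_lit 157) (.e (nat_lit 4132) (nat_lit 246) (.e (nat_lit 8299) (nat_lit 54) .nil))))))) (.g (nat_lit 4) .nil .nil))))) (.nd (nat_lit 5) (.nd (nat_lit 6) 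
(.lf (nat_lit 142616) (.g (nat_lit 2525) (.e (nat_lit 40996) (nat_lit 11) (.e (nat_lit 24658) (nat_lit 13) (.e (nat_lit 393238) (nat_lit 17) (.e (nat_lit 7107) (nat_lit 380) (.e (nat_lit 164261) (nat_lit 221) .nil))))) .nil)) 
(.lf (nat_lit 142680) (.g (nat_lit 1180) (.e (nat_lit 40997) (nat_lit 11) (.e (nat_lit 24584) (nat_lit 0) (.e (nat_lit 6113) (nat_lit 332) (.e (nat_lit 2584) (nat_lit 161) (.e (nat_lit 40997) (nat_lit 11) .nil))))) .nil))) (.nd (nat_lit 6) 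
(.lf (nat_lit 142648) (.g (nat_lit 838) (.e (nat_lit 40996) (nat_lit 11) (.e (nat_lit 24658) (nat_lit 13) (.e (nat_lit 393283) (nat_lit 24) .nil))) .nil)) 
(.lf (nat_lit 142712) (.g (nat_lit 1169) (.e (nat_lit 40997) (nat_lit 11) (.e (nat_lit 24616) (nat_lit 7) (.e (nat_lit 319531) (nat_lit 16) (.e (nat_lit 286759) (nat_lit 12) .nil)))) .nil)))))) (.nd (nat_lit 3) (.nd (nat_lit 4) (.nd (nat_lit 5) (.nd (nat_lit 6) 
(.lf (nat_lit 142596) (.g (nat_lit 1222) (.e (nat_lit 40996) (nat_lit 11) (.e (nat_lit 24654) (nat_lit 13) (.e (nat_lit 393263) (nat_lit 22) (.e (nat_lit 417817) (nat_lit 10) (.e (nat_lit 4859) (nat_lit 287) (.e (nat_lit 2575) (nat_lit 161) .nil)))))) (.g (nat_lit 4) .nil .nil))) 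
(.lf (nat_lit 142660) (.g (nat_lit 2538) (.e (nat_lit 40996) (nat_lit 11) (.e (nat_lit 24660) (nat_lit 13) (.e (nat_lit 393260) (nat_lit 21) (.e (nat_lit 409616) (nat_lit 10) (.e (nat_lit 4978) (nat_lit 287) .nil))))) .nil))) (.nd (nat_lit 6) 
(.lf (nat_lit 142628) (.g (nat_lit 3281) (.e (nat_lit 40996) (nat_lit 11) (.e (nat_lit 24658) (nat_lit 13) (.e (nat_lit 393260) (nat_lit 21) (.e (nat_lit 409616) (nat_lit 10) (.e (nat_lit 4934) (nat_lit 287) .nil))))) .nil)) 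
(.lf (nat_lit 142692) (.g (nat_lit 1326) (.e (nat_lit 40997) (nat_lit 11) (.e (nat_lit 24604) (nat_lit 2) (.e (nat_lit 90176) (nat_lit 15) (.e (nat_lit 196352) (nat_lit 0) .nil)))) .nil)))) (.nd (nat_lit 5) (.nd (nat_lit 6) 
(.lf (nat_lit 142612) (.g (nat_lit 1665) (.e (nat_lit 40996) (nat_lit 11) (.e (nat_lit 24658) (nat_lit 13) (.e (nat_lit 393238) (nat_lit 17) (.e (nat_lit 7099) (nat_lit 380) .nil)))) .nil)) 
(.lf (nat_lit 142676) (.g (nat_lit 2749) (.e (nat_lit 40996) (nat_lit 11) (.e (nat_lit 24665) (nat_lit 14) (.e (nat_lit 401448) (nat_lit 10) (.e (nat_lit 434276) (nat_lit 39) .nil)))) .nil))) (.nd (nat_lit 6) 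
(.lf (nat_lit 142644) (.g (nat_lit 838) (.e (nat_lit 40996) (nat_lit 11) (.e (nat_lit 24658) (nat_lit 13) (.e (nat_lit 393265) (nat_lit 22) .nil))) .nil)) 
(.lf (nat_lit 142708) (.g (nat_lit 1573) (.e (nat_lit 40997) (nat_lit 11) (.e (nat_lit 24616) (nat_lit 7) (.e (nat_lit 319530) (nat_lit 16) (.e (nat_lit 286759) (nat_lit 12) (.e (nat_lit 385094) (nat_lit 49) .nil))))) .nil))))) (.nd (nat_lit 4) (.nd (nat_lit 5) (.nd (nat_lit 6) 
(.lf (nat_lit 142604) (.g (nat_lit 872) (.e (nat_lit 40996) (nat_lit 11) (.e (nat_lit 24657) (nat_lit 13) (.e (nat_lit 393260) (nat_lit 21) .nil))) .nil)) 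
(.lf (nat_lit 142668) (.g (nat_lit 962) (.e (nat_lit 40996) (nat_lit 11) (.e (nat_lit 24665) (nat_lit 14) (.e (nat_lit 401414) (nat_lit 0) .nil))) .nil))) (.nd (nat_lit 6) 
(.lf (nat_lit 142636) (.g (nat_lit 2560) (.e (nat_lit 40996) (nat_lit 11) (.e (nat_lit 24658) (nat_lit 13) (.e (nat_lit 393260) (nat_lit 21) (.e (nat_lit 409635) (nat_lit 14) .nil)))) .nil)) 
(.lf (nat_lit 142700) (.g (nat_lit 1268) (.e (nat_lit 40997) (nat_lit 11) (.e (nat_lit 24604) (nat_lit 2) (.e (nat_lit 90177) (nat_lit 15) (.e (nat_lit 188455) (nat_lit 24) .nil)))) .nil)))) (.nd (nat_lit 5) (.nd (nat_lit 6) 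
(.lf (nat_lit 142620) (.g (nat_lit 2655) (.e (nat_lit 40996) (nat_lit 11) (.e (nat_lit 24658) (nat_lit 13) (.e (nat_lit 393238) (nat_lit 17) (.e (nat_lit 7107) (nat_lit 380) (.e (nat_lit 164269) (nat_lit 221) .nil))))) .nil)) 
(.lf (nat_lit 142684) (.g (nat_lit 3136) (.e (nat_lit 40997) (nat_lit 11) (.e (nat_lit 24604) (nat_lit 2) (.e (nat_lit 90170) (nat_lit 13) (.e (nat_lit 172106) (nat_lit 10) (.e (nat_lit 434241) (nat_lit 27) .nil))))) .nil))) (.nd (nat_lit 6) 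
(.lf (nat_lit 142652) (.g (nat_lit 4142) (.e (nat_lit 40996) (nat_lit 11) (.e (nat_lit 24658) (nat_lit 13) (.e (nat_lit 393301) (nat_lit 27) (.e (nat_lit 491544) (nat_lit 7) (.e (nat_lit 327424) (nat_lit 3) .nil))))) (.g (nat_lit 4) .nil .nil))) 
(.lf (nat_lit 142716) (.g (nat_lit 2858) (.e (nat_lit 40997) (nat_lit 11) (.e (nat_lit 24617) (nat_lit 7) (.e (nat_lit 319511) (nat_lit 10) (.e (nat_lit 5293) (nat_lit 298) (.e (nat_lit 1633) (nat_lit 114) (.e (nat_lit 385115) (nat_lit 53) (.e (nat_lit 811045) (nat_lit 14) .nil))))))) (.g (nat_lit 0) .nil .nil)))))))) 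
(.nd (nat_lit 2) (.nd (nat_lit 3) (.nd (nat_lit 4) (.nd (nat_lit 5) (.nd (nat_lit 6) 
(.lf (nat_lit 142594) (.g (nat_lit 1187) (.e (nat_lit 40996) (nat_lit 11) (.e (nat_lit 24654) (nat_lit 13) (.e (nat_lit 393263) (nat_lit 22) (.e (nat_lit 417817) (nat_lit 10) (.e (nat_lit 4855) (nat_lit 287) .nil))))) .nil)) 
(.lf (nat_lit 142658) (.g (nat_lit 2477) (.e (nat_lit 40996) (nat_lit 11) (.e (nat_lit 24660) (nat_lit 13) (.e (nat_lit 393260) (nat_lit 21) (.e (nat_lit 409616) (nat_lit 10) (.e (nat_lit 4931) (nat_lit 287) .nil))))) .nil))) (.nd (nat_lit 6) 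
(.lf (nat_lit 142626) (.g (nat_lit 3156) (.e (nat_lit 40996) (nat_lit 11) (.e (nat_lit 24658) (nat_lit 13) (.e (nat_lit 393260) (nat_lit 21) (.e (nat_lit 409616) (nat_lit 10) (.e (nat_lit 4931) (nat_lit 287) .nil))))) .nil)) 
(.lf (nat_lit 142690) (.g (nat_lit 1654) (.e (nat_lit 40997) (nat_lit 11) (.e (nat_lit 24604) (nat_lit 2) (.e (nat_lit 90172) (nat_lit 14) (.e (nat_lit 180285) (nat_lit 45) .nil)))) .nil)))) (.nd (nat_lit 5) (.nd (nat_lit 6) 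
(.lf (nat_lit 142610) (.g (nat_lit 1552) (.e (nat_lit 40996) (nat_lit 11) (.e (nat_lit 24658) (nat_lit 13) (.e (nat_lit 393238) (nat_lit 17) (.e (nat_lit 6983) (nat_lit 377) .nil)))) .nil)) 
(.lf (nat_lit 142674) (.g (nat_lit 3344) (.e (nat_lit 40996) (nat_lit 11) (.e (nat_lit 24665) (nat_lit 14) (.e (nat_lit 401448) (nat_lit 10) (.e (nat_lit 434275) (nat_lit 39) (.e (nat_lit 663589) (nat_lit 14) .nil))))) .nil))) (.nd (nat_lit 6) 
(.lf (nat_lit 142642) (.g (nat_lit 837) (.e (nat_lit 40996) (nat_lit 11) (.e (nat_lit 24658) (nat_lit 13) (.e (nat_lit 393264) (nat_lit 22) .nil))) .nil)) 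
(.lf (nat_lit 142706) (.g (nat_lit 2068) (.e (nat_lit 40997) (nat_lit 11) (.e (nat_lit 24608) (nat_lit 3) (.e (nat_lit 98373) (nat_lit 29) (.e (nat_lit 450587) (nat_lit 10) .nil)))) .nil))))) (.nd (nat_lit 4) (.nd (nat_lit 5) (.nd (nat_lit 6) 
(.lf (nat_lit 142602) (.g (nat_lit 915) (.e (nat_lit 40996) (nat_lit 11) (.e (nat_lit 24657) (nat_lit 13) (.e (nat_lit 393259) (nat_lit 21) .nil))) .nil)) 
(.lf (nat_lit 142666) (.g (nat_lit 2354) (.e (nat_lit 40996) (nat_lit 11) (.e (nat_lit 24660) (nat_lit 13) (.e (nat_lit 393260) (nat_lit 21) (.e (nat_lit 409638) (nat_lit 15) (.e (nat_lit 278541) (nat_lit 3) .nil))))) .nil))) (.nd (nat_lit 6) 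
(.lf (nat_lit 142634) (.g (nat_lit 1561) (.e (nat_lit 40996) (nat_lit 11) (.e (nat_lit 24658) (nat_lit 13) (.e (nat_lit 393260) (nat_lit 21) (.e (nat_lit 409618) (nat_lit 10) .nil)))) .nil)) 
(.lf (nat_lit 142698) (.g (nat_lit 1448) (.e (nat_lit 40997) (nat_lit 11) (.e (nat_lit 24604) (nat_lit 2) (.e (nat_lit 90176) (nat_lit 15) (.e (nat_lit 188444) (nat_lit 21) .nil)))) .nil)))) (.nd (nat_lit 5) (.nd (nat_lit 6) 
(.lf (nat_lit 142618) (.g (nat_lit 2726) (.e (nat_lit 40996) (nat_lit 11) (.e (nat_lit 24658) (nat_lit 13) (.e (nat_lit 393238) (nat_lit 17) (.e (nat_lit 7107) (nat_lit 380) (.e (nat_lit 164266) (nat_lit 221) .nil))))) .nil)) 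
(.lf (nat_lit 142682) (.g (nat_lit 619) (.e (nat_lit 40997) (nat_lit 11) (.e (nat_lit 24604) (nat_lit 2) (.e (nat_lit 90170) (nat_lit 13) .nil))) .nil))) (.nd (nat_lit 6) 
(.lf (nat_lit 142650) (.g (nat_lit 1178) (.e (nat_lit 40996) (nat_lit 11) (.e (nat_lit 24658) (nat_lit 13) (.e (nat_lit 393301) (nat_lit 27) .nil))) .nil)) 
(.lf (nat_lit 142714) (.g (nat_lit 1893) (.e (nat_lit 40997) (nat_lit 11) (.e (nat_lit 24617) (nat_lit 7) (.e (nat_lit 319505) (nat_lit 10) (.e (nat_lit 720) (nat_lit 64) .nil)))) .nil)))))) (.nd (nat_lit 3) (.nd (nat_lit 4) (.nd (nat_lit 5) (.nd (nat_lit 6) 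
(.lf (nat_lit 142598) (.g (nat_lit 1204) (.e (nat_lit 40996) (nat_lit 11) (.e (nat_lit 24654) (nat_lit 13) (.e (nat_lit 393263) (nat_lit 22) (.e (nat_lit 417817) (nat_lit 10) (.e (nat_lit 4875) (nat_lit 287) (.e (nat_lit 2576) (nat_lit 161) .nil)))))) (.g (nat_lit 4) .nil .nil))) 
(.lf (nat_lit 142662) (.g (nat_lit 1035) (.e (nat_lit 40996) (nat_lit 11) (.e (nat_lit 24660) (nat_lit 13) (.e (nat_lit 393260) (nat_lit 21) (.e (nat_lit 409617) (nat_lit 10) .nil)))) .nil))) (.nd (nat_lit 6) 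
(.lf (nat_lit 142630) (.g (nat_lit 3168) (.e (nat_lit 40996) (nat_lit 11) (.e (nat_lit 24658) (nat_lit 13) (.e (nat_lit 393260) (nat_lit 21) (.e (nat_lit 409616) (nat_lit 10) (.e (nat_lit 4978) (nat_lit 287) .nil))))) .nil)) 
(.lf (nat_lit 142694) (.g (nat_lit 2224) (.e (nat_lit 40997) (nat_lit 11) (.e (nat_lit 24604) (nat_lit 2) (.e (nat_lit 90176) (nat_lit 15) (.e (nat_lit 188431) (nat_lit 20) (.e (nat_lit 2402) (nat_lit 157) (.e (nat_lit 4132) (nat_lit 246) (.e (nat_lit 8299) (nat_lit 54) .nil))))))) (.g (nat_lit 5) .nil .nil))))) (.nd (nat_lit 5) (.nd (nat_lit 6) 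
(.lf (nat_lit 142614) (.g (nat_lit 2068) (.e (nat_lit 40996) (nat_lit 11) (.e (nat_lit 24658) (nat_lit 13) (.e (nat_lit 393238) (nat_lit 17) (.e (nat_lit 7101) (nat_lit 380) (.e (nat_lit 164266) (nat_lit 221) .nil))))) .nil)) 
(.lf (nat_lit 142678) (.g (nat_lit 754) (.e (nat_lit 40997) (nat_lit 11) (.e (nat_lit 24584) (nat_lit 0) (.e (nat_lit 2290) (nat_lit 151) .nil))) .nil))) (.nd (nat_lit 6) 
(.lf (nat_lit 142646) (.g (nat_lit 2304) (.e (nat_lit 40996) (nat_lit 11) (.e (nat_lit 24658) (nat_lit 13) (.e (nat_lit 393281) (nat_lit 23) (.e (nat_lit 426098) (nat_lit 1) (.e (nat_lit 164318) (nat_lit 227) (.e (nat_lit 8299) (nat_lit 54) .nil)))))) (.g (nat_lit 4) .nil .nil))) 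
(.lf (nat_lit 142710) (.g (nat_lit 1776) (.e (nat_lit 40997) (nat_lit 11) (.e (nat_lit 24616) (nat_lit 7) (.e (nat_lit 319530) (nat_lit 16) (.e (nat_lit 286759) (nat_lit 12) (.e (nat_lit 385111) (nat_lit 53) .nil))))) .nil))))) (.nd (nat_lit 4) (.nd (nat_lit 5) (.nd (nat_lit 6) 
(.lf (nat_lit 142606) (.g (nat_lit 1266) (.e (nat_lit 40996) (nat_lit 11) (.e (nat_lit 24657) (nat_lit 13) (.e (nat_lit 393283) (nat_lit 24) (.e (nat_lit 434268) (nat_lit 36) .nil)))) .nil)) 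
(.lf (nat_lit 142670) (.g (nat_lit 2820) (.e (nat_lit 40996) (nat_lit 11) (.e (nat_lit 24665) (nat_lit 14) (.e (nat_lit 401448) (nat_lit 10) (.e (nat_lit 434271) (nat_lit 38) (.e (nat_lit 655398) (nat_lit 12) .nil))))) .nil))) (.nd (nat_lit 6) 
(.lf (nat_lit 142638) (.g (nat_lit 2366) (.e (nat_lit 40996) (nat_lit 11) (.e (nat_lit 24658) (nat_lit 13) (.e (nat_lit 393260) (nat_lit 21) (.e (nat_lit 409638) (nat_lit 15) .nil)))) .nil)) 
(.lf (nat_lit 142702) (.g (nat_lit 2560) (.e (nat_lit 40997) (nat_lit 11) (.e (nat_lit 24604) (nat_lit 2) (.e (nat_lit 90178) (nat_lit 15) (.e (nat_lit 188440) (nat_lit 20) (.e (nat_lit 3307) (nat_lit 202) .nil))))) .nil)))) (.nd (nat_lit 5) (.nd (nat_lit 6) 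
(.lf (nat_lit 142622) (.g (nat_lit 837) (.e (nat_lit 40996) (nat_lit 11) (.e (nat_lit 24658) (nat_lit 13) (.e (nat_lit 393259) (nat_lit 21) .nil))) .nil)) 
(.lf (nat_lit 142686) (.g (nat_lit 2299) (.e (nat_lit 40997) (nat_lit 11) (.e (nat_lit 24604) (nat_lit 2) (.e (nat_lit 90170) (nat_lit 13) (.e (nat_lit 172106) (nat_lit 10) (.e (nat_lit 434244) (nat_lit 28) (.e (nat_lit 573503) (nat_lit 18) (.e (nat_lit 7936) (nat_lit 161) .nil))))))) (.g (nat_lit 4) .nil .nil)))) (.nd (nat_lit 6) 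
(.lf (nat_lit 142654) (.g (nat_lit 516) (.e (nat_lit 40996) (nat_lit 11) (.e (nat_lit 24660) (nat_lit 13) (.e (nat_lit 393238) (nat_lit 17) .nil))) .nil)) 
(.lf (nat_lit 142718) (.g (nat_lit 905) (.e (nat_lit 40997) (nat_lit 11) (.e (nat_lit 24617) (nat_lit 7) (.e (nat_lit 319511) (nat_lit 10) (.e (nat_lit 5404) (nat_lit 302) .nil)))) .nil)))))))) (.nd (nat_lit 1) (.nd (nat_lit 2) (.nd (nat_lit 3) (.nd (nat_lit 4) (.nd (nat_lit 5) (.nd (nat_lit 6) 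
(.lf (nat_lit 142593) (.g (nat_lit 1933) (.e (nat_lit 40996) (nat_lit 11) (.e (nat_lit 24654) (nat_lit 13) (.e (nat_lit 393260) (nat_lit 21) (.e (nat_lit 409639) (nat_lit 15) .nil)))) .nil)) 
(.lf (nat_lit 142657) (.g (nat_lit 2499) (.e (nat_lit 40996) (nat_lit 11) (.e (nat_lit 24660) (nat_lit 13) (.e (nat_lit 393260) (nat_lit 21) (.e (nat_lit 409616) (nat_lit 10) (.e (nat_lit 4926) (nat_lit 287) .nil))))) .nil))) (.nd (nat_lit 6) 
(.lf (nat_lit 142625) (.g (nat_lit 3166) (.e (nat_lit 40996) (nat_lit 11) (.e (nat_lit 24658) (nat_lit 13) (.e (nat_lit 393260) (nat_lit 21) (.e (nat_lit 409616) (nat_lit 10) (.e (nat_lit 4926) (nat_lit 287) .nil))))) .nil)) 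
(.lf (nat_lit 142689) (.g (nat_lit 1727) (.e (nat_lit 40997) (nat_lit 11) (.e (nat_lit 24604) (nat_lit 2) (.e (nat_lit 90172) (nat_lit 14) (.e (nat_lit 188160) (nat_lit 33) .nil)))) .nil)))) (.nd (nat_lit 5) (.nd (nat_lit 6) 
(.lf (nat_lit 142609) (.g (nat_lit 2699) (.e (nat_lit 40996) (nat_lit 11) (.e (nat_lit 24658) (nat_lit 13) (.e (nat_lit 393234) (nat_lit 17) (.e (nat_lit 7110) (nat_lit 380) .nil)))) .nil)) 
(.lf (nat_lit 142673) (.g (nat_lit 3351) (.e (nat_lit 40996) (nat_lit 11) (.e (nat_lit 24665) (nat_lit 14) (.e (nat_lit 401448) (nat_lit 10) (.e (nat_lit 434275) (nat_lit 39) (.e (nat_lit 663580) (nat_lit 9) .nil))))) .nil))) (.nd (nat_lit 6) 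
(.lf (nat_lit 142641) (.g (nat_lit 837) (.e (nat_lit 40996) (nat_lit 11) (.e (nat_lit 24658) (nat_lit 13) (.e (nat_lit 393263) (nat_lit 22) .nil))) .nil)) 
(.lf (nat_lit 142705) (.g (nat_lit 3094) (.e (nat_lit 40997) (nat_lit 11) (.e (nat_lit 24608) (nat_lit 3) (.e (nat_lit 98372) (nat_lit 29) (.e (nat_lit 450588) (nat_lit 10) .nil)))) .nil))))) (.nd (nat_lit 4) (.nd (nat_lit 5) (.nd (nat_lit 6) 
(.lf (nat_lit 142601) (.g (nat_lit 582) (.e (nat_lit 40996) (nat_lit 11) (.e (nat_lit 24657) (nat_lit 13) (.e (nat_lit 401152) (nat_lit 17) .nil))) .nil)) 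
(.lf (nat_lit 142665) (.g (nat_lit 2256) (.e (nat_lit 40996) (nat_lit 11) (.e (nat_lit 24660) (nat_lit 13) (.e (nat_lit 393260) (nat_lit 21) (.e (nat_lit 409637) (nat_lit 15) .nil)))) .nil))) (.nd (nat_lit 6) 
(.lf (nat_lit 142633) (.g (nat_lit 2685) (.e (nat_lit 40996) (nat_lit 11) (.e (nat_lit 24658) (nat_lit 13) (.e (nat_lit 393260) (nat_lit 21) (.e (nat_lit 409617) (nat_lit 10) (.e (nat_lit 4926) (nat_lit 287) .nil))))) .nil)) 
(.lf (nat_lit 142697) (.g (nat_lit 1737) (.e (nat_lit 40997) (nat_lit 11) (.e (nat_lit 24604) (nat_lit 2) (.e (nat_lit 90176) (nat_lit 15) (.e (nat_lit 188431) (nat_lit 20) (.e (nat_lit 3282) (nat_lit 200) .nil))))) .nil)))) (.nd (nat_lit 5) (.nd (nat_lit 6) 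
(.lf (nat_lit 142617) (.g (nat_lit 2665) (.e (nat_lit 40996) (nat_lit 11) (.e (nat_lit 24658) (nat_lit 13) (.e (nat_lit 393238) (nat_lit 17) (.e (nat_lit 7107) (nat_lit 380) (.e (nat_lit 164265) (nat_lit 221) .nil))))) .nil)) 
(.lf (nat_lit 142681) (.g (nat_lit 666) (.e (nat_lit 40997) (nat_lit 11) (.e (nat_lit 24603) (nat_lit 2) (.e (nat_lit 90176) (nat_lit 15) (.e (nat_lit 188431) (nat_lit 20) .nil)))) .nil))) (.nd (nat_lit 6) 
(.lf (nat_lit 142649) (.g (nat_lit 802) (.e (nat_lit 40996) (nat_lit 11) (.e (nat_lit 24658) (nat_lit 13) (.e (nat_lit 393300) (nat_lit 27) .nil))) .nil)) 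
(.lf (nat_lit 142713) (.g (nat_lit 804) (.e (nat_lit 40997) (nat_lit 11) (.e (nat_lit 24617) (nat_lit 7) (.e (nat_lit 327424) (nat_lit 3) (.e (nat_lit 40997) (nat_lit 11) (.e (nat_lit 24617) (nat_lit 7) (.e (nat_lit 327424) (nat_lit 3) .nil)))))) (.g (nat_lit 5) .nil .nil))))))) (.nd (nat_lit 3) (.nd (nat_lit 4) (.nd (nat_lit 5) (.nd (nat_lit 6) 
(.lf (nat_lit 142597) (.g (nat_lit 1401) (.e (nat_lit 40996) (nat_lit 11) (.e (nat_lit 24654) (nat_lit 13) (.e (nat_lit 393263) (nat_lit 22) (.e (nat_lit 417817) (nat_lit 10) (.e (nat_lit 4874) (nat_lit 287) (.e (nat_lit 2576) (nat_lit 161) .nil)))))) (.g (nat_lit 4) .nil .nil))) 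
(.lf (nat_lit 142661) (.g (nat_lit 2597) (.e (nat_lit 40996) (nat_lit 11) (.e (nat_lit 24660) (nat_lit 13) (.e (nat_lit 393260) (nat_lit 21) (.e (nat_lit 409616) (nat_lit 10) (.e (nat_lit 4979) (nat_lit 287) .nil))))) .nil))) (.nd (nat_lit 6) 
(.lf (nat_lit 142629) (.g (nat_lit 3349) (.e (nat_lit 40996) (nat_lit 11) (.e (nat_lit 24658) (nat_lit 13) (.e (nat_lit 393260) (nat_lit 21) (.e (nat_lit 409616) (nat_lit 10) (.e (nat_lit 4977) (nat_lit 287) .nil))))) .nil)) 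
(.lf (nat_lit 142693) (.g (nat_lit 1326) (.e (nat_lit 40997) (nat_lit 11) (.e (nat_lit 24604) (nat_lit 2) (.e (nat_lit 90176) (nat_lit 15) (.e (nat_lit 196352) (nat_lit 7) .nil)))) .nil)))) (.nd (nat_lit 5) (.nd (nat_lit 6) 
(.lf (nat_lit 142613) (.g (nat_lit 1590) (.e (nat_lit 40996) (nat_lit 11) (.e (nat_lit 24658) (nat_lit 13) (.e (nat_lit 393238) (nat_lit 17) (.e (nat_lit 7100) (nat_lit 380) .nil)))) .nil)) 
(.lf (nat_lit 142677) (.g (nat_lit 994) (.e (nat_lit 40996) (nat_lit 11) (.e (nat_lit 24665) (nat_lit 14) (.e (nat_lit 409344) (nat_lit 25) .nil))) .nil))) (.nd (nat_lit 6) 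
(.lf (nat_lit 142645) (.g (nat_lit 1196) (.e (nat_lit 40996) (nat_lit 11) (.e (nat_lit 24658) (nat_lit 13) (.e (nat_lit 393265) (nat_lit 22) (.e (nat_lit 417817) (nat_lit 10) .nil)))) .nil)) 
(.lf (nat_lit 142709) (.g (nat_lit 2507) (.e (nat_lit 40997) (nat_lit 11) (.e (nat_lit 24616) (nat_lit 7) (.e (nat_lit 319530) (nat_lit 16) (.e (nat_lit 286759) (nat_lit 12) (.e (nat_lit 385094) (nat_lit 49) (.e (nat_lit 778548) (nat_lit 14) (.e (nat_lit 1150) (nat_lit 85) .nil))))))) (.g (nat_lit 5) .nil .nil)))))) (.nd (nat_lit 4) (.nd (nat_lit 5) (.nd (nat_lit 6) 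
(.lf (nat_lit 142605) (.g (nat_lit 1047) (.e (nat_lit 40996) (nat_lit 11) (.e (nat_lit 24657) (nat_lit 13) (.e (nat_lit 393263) (nat_lit 22) .nil))) .nil)) 
(.lf (nat_lit 142669) (.g (nat_lit 811) (.e (nat_lit 40996) (nat_lit 11) (.e (nat_lit 24665) (nat_lit 14) (.e (nat_lit 401448) (nat_lit 10) .nil))) .nil))) (.nd (nat_lit 6) 
(.lf (nat_lit 142637) (.g (nat_lit 2733) (.e (nat_lit 40996) (nat_lit 11) (.e (nat_lit 24658) (nat_lit 13) (.e (nat_lit 393260) (nat_lit 21) (.e (nat_lit 409637) (nat_lit 15) (.e (nat_lit 278541) (nat_lit 3) .nil))))) .nil)) 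
(.lf (nat_lit 142701) (.g (nat_lit 1385) (.e (nat_lit 40997) (nat_lit 11) (.e (nat_lit 24604) (nat_lit 2) (.e (nat_lit 90178) (nat_lit 15) (.e (nat_lit 196352) (nat_lit 7) .nil)))) .nil)))) (.nd (nat_lit 5) (.nd (nat_lit 6) 
(.lf (nat_lit 142621) (.g (nat_lit 2737) (.e (nat_lit 40996) (nat_lit 11) (.e (nat_lit 24658) (nat_lit 13) (.e (nat_lit 393238) (nat_lit 17) (.e (nat_lit 7107) (nat_lit 380) (.e (nat_lit 164270) (nat_lit 221) .nil))))) .nil)) 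
(.lf (nat_lit 142685) (.g (nat_lit 2259) (.e (nat_lit 40997) (nat_lit 11) (.e (nat_lit 24604) (nat_lit 2) (.e (nat_lit 90170) (nat_lit 13) (.e (nat_lit 172106) (nat_lit 10) (.e (nat_lit 434244) (nat_lit 28) .nil))))) .nil))) (.nd (nat_lit 6) 
(.lf (nat_lit 142653) (.g (nat_lit 3194) (.e (nat_lit 40996) (nat_lit 11) (.e (nat_lit 24658) (nat_lit 13) (.e (nat_lit 393301) (nat_lit 27) (.e (nat_lit 491545) (nat_lit 8) (.e (nat_lit 327694) (nat_lit 3) .nil))))) .nil)) 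
(.lf (nat_lit 142717) (.g (nat_lit 2185) (.e (nat_lit 40997) (nat_lit 11) (.e (nat_lit 24617) (nat_lit 7) (.e (nat_lit 319511) (nat_lit 10) (.e (nat_lit 5293) (nat_lit 298) (.e (nat_lit 1633) (nat_lit 114) (.e (nat_lit 385115) (nat_lit 53) (.e (nat_lit 818944) (nat_lit 14) .nil))))))) (.g (nat_lit 5) .nil .nil)))))))) 
(.nd (nat_lit 2) (.nd (nat_lit 3) (.nd (nat_lit 4) (.nd (nat_lit 5) (.nd (nat_lit 6) 
(.lf (nat_lit 142595) (.g (nat_lit 1194) (.e (nat_lit 40996) (nat_lit 11) (.e (nat_lit 24654) (nat_lit 13) (.e (nat_lit 393263) (nat_lit 22) (.e (nat_lit 417817) (nat_lit 10) (.e (nat_lit 4858) (nat_lit 287) (.e (nat_lit 2576) (nat_lit 161) .nil)))))) (.g (nat_lit 4) .nil .nil))) 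
(.lf (nat_lit 142659) (.g (nat_lit 2668) (.e (nat_lit 40996) (nat_lit 11) (.e (nat_lit 24660) (nat_lit 13) (.e (nat_lit 393260) (nat_lit 21) (.e (nat_lit 409616) (nat_lit 10) (.e (nat_lit 4934) (nat_lit 287) .nil))))) .nil))) (.nd (nat_lit 6) 
(.lf (nat_lit 142627) (.g (nat_lit 3304) (.e (nat_lit 40996) (nat_lit 11) (.e (nat_lit 24658) (nat_lit 13) (.e (nat_lit 393260) (nat_lit 21) (.e (nat_lit 409616) (nat_lit 10) (.e (nat_lit 4932) (nat_lit 287) .nil))))) .nil)) 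
(.lf (nat_lit 142691) (.g (nat_lit 588) (.e (nat_lit 40997) (nat_lit 11) (.e (nat_lit 24604) (nat_lit 2) (.e (nat_lit 90176) (nat_lit 15) .nil))) .nil)))) (.nd (nat_lit 5) (.nd (nat_lit 6) 
(.lf (nat_lit 142611) (.g (nat_lit 2548) (.e (nat_lit 40996) (nat_lit 11) (.e (nat_lit 24658) (nat_lit 13) (.e (nat_lit 393238) (nat_lit 17) (.e (nat_lit 6989) (nat_lit 377) (.e (nat_lit 2764) (nat_lit 177) .nil))))) .nil)) 
(.lf (nat_lit 142675) (.g (nat_lit 3370) (.e (nat_lit 40996) (nat_lit 11) (.e (nat_lit 24665) (nat_lit 14) (.e (nat_lit 401448) (nat_lit 10) (.e (nat_lit 434275) (nat_lit 39) (.e (nat_lit 663589) (nat_lit 14) (.e (nat_lit 2578) (nat_lit 161) (.e (nat_lit 41008) (nat_lit 14) (.e (nat_lit 1146) (nat_lit 85) .nil)))))))) (.g (nat_lit 4) .nil .nil)))) (.nd (nat_lit 6) 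
(.lf (nat_lit 142643) (.g (nat_lit 990) (.e (nat_lit 40996) (nat_lit 11) (.e (nat_lit 24658) (nat_lit 13) (.e (nat_lit 393264) (nat_lit 22) (.e (nat_lit 417826) (nat_lit 15) .nil)))) .nil)) 
(.lf (nat_lit 142707) (.g (nat_lit 5391) (.e (nat_lit 40997) (nat_lit 11) (.e (nat_lit 24608) (nat_lit 3) (.e (nat_lit 98373) (nat_lit 29) (.e (nat_lit 450588) (nat_lit 10) (.e (nat_lit 573503) (nat_lit 18) .nil))))) .nil))))) (.nd (nat_lit 4) (.nd (nat_lit 5) (.nd (nat_lit 6) 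
(.lf (nat_lit 142603) (.g (nat_lit 1456) (.e (nat_lit 40996) (nat_lit 11) (.e (nat_lit 24657) (nat_lit 13) (.e (nat_lit 393259) (nat_lit 21) (.e (nat_lit 409639) (nat_lit 15) .nil)))) .nil)) 
(.lf (nat_lit 142667) (.g (nat_lit 1882) (.e (nat_lit 40996) (nat_lit 11) (.e (nat_lit 24660) (nat_lit 13) (.e (nat_lit 393260) (nat_lit 21) (.e (nat_lit 409639) (nat_lit 15) .nil)))) .nil))) (.nd (nat_lit 6) 
(.lf (nat_lit 142635) (.g (nat_lit 2700) (.e (nat_lit 40996) (nat_lit 11) (.e (nat_lit 24658) (nat_lit 13) (.e (nat_lit 393260) (nat_lit 21) (.e (nat_lit 409618) (nat_lit 10) (.e (nat_lit 4859) (nat_lit 287) .nil))))) .nil)) 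
(.lf (nat_lit 142699) (.g (nat_lit 2146) (.e (nat_lit 40997) (nat_lit 11) (.e (nat_lit 24604) (nat_lit 2) (.e (nat_lit 90176) (nat_lit 15) (.e (nat_lit 188453) (nat_lit 24) (.e (nat_lit 229518) (nat_lit 123) .nil))))) .nil)))) (.nd (nat_lit 5) (.nd (nat_lit 6) 
(.lf (nat_lit 142619) (.g (nat_lit 2736) (.e (nat_lit 40996) (nat_lit 11) (.e (nat_lit 24658) (nat_lit 13) (.e (nat_lit 393238) (nat_lit 17) (.e (nat_lit 7107) (nat_lit 380) (.e (nat_lit 164267) (nat_lit 221) .nil))))) .nil)) 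
(.lf (nat_lit 142683) (.g (nat_lit 3060) (.e (nat_lit 40997) (nat_lit 11) (.e (nat_lit 24604) (nat_lit 2) (.e (nat_lit 90170) (nat_lit 13) (.e (nat_lit 172106) (nat_lit 10) (.e (nat_lit 434202) (nat_lit 18) .nil))))) .nil))) (.nd (nat_lit 6) 
(.lf (nat_lit 142651) (.g (nat_lit 3865) (.e (nat_lit 40996) (nat_lit 11) (.e (nat_lit 24658) (nat_lit 13) (.e (nat_lit 393301) (nat_lit 27) (.e (nat_lit 491526) (nat_lit 0) (.e (nat_lit 6114) (nat_lit 332) .nil))))) .nil)) 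
(.lf (nat_lit 142715) (.g (nat_lit 3091) (.e (nat_lit 40997) (nat_lit 11) (.e (nat_lit 24617) (nat_lit 7) (.e (nat_lit 319511) (nat_lit 10) (.e (nat_lit 5293) (nat_lit 298) (.e (nat_lit 1633) (nat_lit 114) (.e (nat_lit 385093) (nat_lit 49) (.e (nat_lit 778510) (nat_lit 14) (.e (nat_lit 1149) (nat_lit 85) .nil)))))))) (.g (nat_lit 6) .nil .nil))))))) 
(.nd (nat_lit 3) (.nd (nat_lit 4) (.nd (nat_lit 5) (.nd (nat_lit 6) 
(.lf (nat_lit 142599) (.g (nat_lit 294) (.e (nat_lit 40996) (nat_lit 11) (.e (nat_lit 24654) (nat_lit 13) (.e (nat_lit 393264) (nat_lit 22) .nil))) .nil)) 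
(.lf (nat_lit 142663) (.g (nat_lit 2042) (.e (nat_lit 40996) (nat_lit 11) (.e (nat_lit 24660) (nat_lit 13) (.e (nat_lit 393260) (nat_lit 21) (.e (nat_lit 409617) (nat_lit 10) (.e (nat_lit 4926) (nat_lit 287) .nil))))) .nil))) (.nd (nat_lit 6) 
(.lf (nat_lit 142631) (.g (nat_lit 3228) (.e (nat_lit 40996) (nat_lit 11) (.e (nat_lit 24658) (nat_lit 13) (.e (nat_lit 393260) (nat_lit 21) (.e (nat_lit 409616) (nat_lit 10) (.e (nat_lit 4979) (nat_lit 287) .nil))))) .nil)) 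
(.lf (nat_lit 142695) (.g (nat_lit 1938) (.e (nat_lit 40997) (nat_lit 11) (.e (nat_lit 24604) (nat_lit 2) (.e (nat_lit 90176) (nat_lit 15) (.e (nat_lit 188431) (nat_lit 20) (.e (nat_lit 2403) (nat_lit 157) (.e (nat_lit 4131) (nat_lit 246) (.e (nat_lit 8299) (nat_lit 54) .nil))))))) (.g (nat_lit 4) .nil .nil))))) (.nd (nat_lit 5) (.nd (nat_lit 6) 
(.lf (nat_lit 142615) (.g (nat_lit 2068) (.e (nat_lit 40996) (nat_lit 11) (.e (nat_lit 24658) (nat_lit 13) (.e (nat_lit 393238) (nat_lit 17) (.e (nat_lit 7101) (nat_lit 380) (.e (nat_lit 164278) (nat_lit 221) .nil))))) .nil)) 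
(.lf (nat_lit 142679) (.g (nat_lit 1486) (.e (nat_lit 40997) (nat_lit 11) (.e (nat_lit 24584) (nat_lit 0) (.e (nat_lit 6097) (nat_lit 332) (.e (nat_lit 2584) (nat_lit 161) (.e (nat_lit 40997) (nat_lit 11) (.e (nat_lit 24617) (nat_lit 7) (.e (nat_lit 327424) (nat_lit 3) .nil))))))) (.g (nat_lit 6) .nil .nil)))) (.nd (nat_lit 6) 
(.lf (nat_lit 142647) (.g (nat_lit 2502) (.e (nat_lit 40996) (nat_lit 11) (.e (nat_lit 24658) (nat_lit 13) (.e (nat_lit 393281) (nat_lit 23) (.e (nat_lit 426100) (nat_lit 1) (.e (nat_lit 164317) (nat_lit 227) .nil))))) .nil)) 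
(.lf (nat_lit 142711) (.g (nat_lit 2405) (.e (nat_lit 40997) (nat_lit 11) (.e (nat_lit 24616) (nat_lit 7) (.e (nat_lit 319530) (nat_lit 16) (.e (nat_lit 286759) (nat_lit 12) (.e (nat_lit 385115) (nat_lit 53) (.e (nat_lit 818944) (nat_lit 14) .nil)))))) (.g (nat_lit 5) .nil .nil)))))) (.nd (nat_lit 4) (.nd (nat_lit 5) (.nd (nat_lit 6) 
(.lf (nat_lit 142607) (.g (nat_lit 2005) (.e (nat_lit 40996) (nat_lit 11) (.e (nat_lit 24657) (nat_lit 13) (.e (nat_lit 393283) (nat_lit 24) (.e (nat_lit 434268) (nat_lit 36) (.e (nat_lit 638978) (nat_lit 0) .nil))))) .nil)) 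
(.lf (nat_lit 142671) (.g (nat_lit 2376) (.e (nat_lit 40996) (nat_lit 11) (.e (nat_lit 24665) (nat_lit 14) (.e (nat_lit 401448) (nat_lit 10) (.e (nat_lit 434272) (nat_lit 38) .nil)))) .nil))) (.nd (nat_lit 6) 
(.lf (nat_lit 142639) (.g (nat_lit 2425) (.e (nat_lit 40996) (nat_lit 11) (.e (nat_lit 24658) (nat_lit 13) (.e (nat_lit 393260) (nat_lit 21) (.e (nat_lit 409639) (nat_lit 15) .nil)))) .nil)) 
(.lf (nat_lit 142703) (.g (nat_lit 1222) (.e (nat_lit 40997) (nat_lit 11) (.e (nat_lit 24608) (nat_lit 3) (.e (nat_lit 98370) (nat_lit 28) .nil))) .nil)))) (.nd (nat_lit 5) (.nd (nat_lit 6) 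
(.lf (nat_lit 142623) (.g (nat_lit 1481) (.e (nat_lit 40996) (nat_lit 11) (.e (nat_lit 24658) (nat_lit 13) (.e (nat_lit 393259) (nat_lit 21) (.e (nat_lit 409639) (nat_lit 15) (.e (nat_lit 278541) (nat_lit 3) .nil))))) .nil)) 
(.lf (nat_lit 142687) (.g (nat_lit 4020) (.e (nat_lit 40997) (nat_lit 11) (.e (nat_lit 24604) (nat_lit 2) (.e (nat_lit 90170) (nat_lit 13) (.e (nat_lit 172113) (nat_lit 10) .nil)))) .nil))) (.nd (nat_lit 6) 
(.lf (nat_lit 142655) (.g (nat_lit 558) (.e (nat_lit 40996) (nat_lit 11) (.e (nat_lit 24660) (nat_lit 13) (.e (nat_lit 393259) (nat_lit 21) .nil))) .nil)) 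
(.lf (nat_lit 142719) (.g (nat_lit 1760) (.e (nat_lit 40997) (nat_lit 11) (.e (nat_lit 24617) (nat_lit 7) (.e (nat_lit 319528) (nat_lit 16) (.e (nat_lit 286759) (nat_lit 12) (.e (nat_lit 385092) (nat_lit 49) .nil))))) .nil)))))))))

noncomputable def tv1893 : DT := (.nd (nat_lit 0) (.nd (nat_lit 1) (.nd (nat_lit 2) (.nd (nat_lit 3) (.nd (nat_lit 4) (.nd (nat_lit 5) 
(.lf (nat_lit 142720) (.g (nat_lit 1795) (.e (nat_lit 40997) (nat_lit 11) (.e (nat_lit 24617) (nat_lit 7) (.e (nat_lit 319528) (nat_lit 16) (.e (nat_lit 286759) (nat_lit 12) (.e (nat_lit 385092) (nat_lit 49) (.e (nat_lit 778500) (nat_lit 14) (.e (nat_lit 1153) (nat_lit 85) .nil))))))) (.g (nat_lit 4) .nil .nil))) 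
(.lf (nat_lit 142752) (.g (nat_lit 1988) (.e (nat_lit 40997) (nat_lit 11) (.e (nat_lit 24617) (nat_lit 7) (.e (nat_lit 319530) (nat_lit 16) (.e (nat_lit 286759) (nat_lit 12) (.e (nat_lit 385092) (nat_lit 49) (.e (nat_lit 778510) (nat_lit 14) (.e (nat_lit 1149) (nat_lit 85) .nil))))))) (.g (nat_lit 4) .nil .nil)))) (.nd (nat_lit 5) 
(.lf (nat_lit 142736) (.g (nat_lit 2686) (.e (nat_lit 40997) (nat_lit 11) (.e (nat_lit 24617) (nat_lit 7) (.e (nat_lit 319528) (nat_lit 16) (.e (nat_lit 286759) (nat_lit 12) (.e (nat_lit 385115) (nat_lit 53) (.e (nat_lit 818944) (nat_lit 14) .nil)))))) (.g (nat_lit 5) .nil .nil))) 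
(.lf (nat_lit 142768) (.g (nat_lit 2219) (.e (nat_lit 40997) (nat_lit 11) (.e (nat_lit 24617) (nat_lit 7) (.e (nat_lit 319531) (nat_lit 16) (.e (nat_lit 286759) (nat_lit 12) (.e (nat_lit 385092) (nat_lit 49) (.e (nat_lit 778506) (nat_lit 14) (.e (nat_lit 1150) (nat_lit 85) .nil))))))) (.g (nat_lit 4) .nil .nil))))) (.nd (nat_lit 4) (.nd (nat_lit 5) 
(.lf (nat_lit 142728) (.g (nat_lit 1454) (.e (nat_lit 40997) (nat_lit 11) (.e (nat_lit 24617) (nat_lit 7) (.e (nat_lit 319528) (nat_lit 16) (.e (nat_lit 286759) (nat_lit 12) (.e (nat_lit 385094) (nat_lit 49) .nil))))) .nil)) 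
(.lf (nat_lit 142760) (.g (nat_lit 2876) (.e (nat_lit 40997) (nat_lit 11) (.e (nat_lit 24617) (nat_lit 7) (.e (nat_lit 319530) (nat_lit 16) (.e (nat_lit 286759) (nat_lit 12) (.e (nat_lit 385094) (nat_lit 49) (.e (nat_lit 778510) (nat_lit 14) (.e (nat_lit 1150) (nat_lit 85) .nil))))))) (.g (nat_lit 5) .nil .nil)))) (.nd (nat_lit 5) 
(.lf (nat_lit 142744) (.g (nat_lit 2789) (.e (nat_lit 40997) (nat_lit 11) (.e (nat_lit 24617) (nat_lit 7) (.e (nat_lit 319529) (nat_lit 16) (.e (nat_lit 286759) (nat_lit 12) (.e (nat_lit 385115) (nat_lit 53) (.e (nat_lit 818944) (nat_lit 14) .nil)))))) (.g (nat_lit 5) .nil .nil))) 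
(.lf (nat_lit 142776) (.g (nat_lit 1479) (.e (nat_lit 40997) (nat_lit 11) (.e (nat_lit 24617) (nat_lit 7) (.e (nat_lit 319531) (nat_lit 16) (.e (nat_lit 286759) (nat_lit 12) (.e (nat_lit 385094) (nat_lit 49) .nil))))) .nil))))) (.nd (nat_lit 3) (.nd (nat_lit 4) (.nd (nat_lit 5) 
(.lf (nat_lit 142724) (.g (nat_lit 2697) (.e (nat_lit 40997) (nat_lit 11) (.e (nat_lit 24617) (nat_lit 7) (.e (nat_lit 319528) (nat_lit 16) (.e (nat_lit 286759) (nat_lit 12) (.e (nat_lit 385092) (nat_lit 49) (.e (nat_lit 778510) (nat_lit 14) (.e (nat_lit 1146) (nat_lit 85) .nil))))))) (.g (nat_lit 5) .nil .nil))) 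
(.lf (nat_lit 142756) (.g (nat_lit 3498) (.e (nat_lit 40997) (nat_lit 11) (.e (nat_lit 24617) (nat_lit 7) (.e (nat_lit 319530) (nat_lit 16) (.e (nat_lit 286759) (nat_lit 12) (.e (nat_lit 385093) (nat_lit 49) (.e (nat_lit 778510) (nat_lit 14) (.e (nat_lit 1149) (nat_lit 85) .nil))))))) (.g (nat_lit 5) .nil .nil)))) (.nd (nat_lit 5) 
(.lf (nat_lit 142740) (.g (nat_lit 3088) (.e (nat_lit 40997) (nat_lit 11) (.e (nat_lit 24617) (nat_lit 7) (.e (nat_lit 319529) (nat_lit 16) (.e (nat_lit 286759) (nat_lit 12) (.e (nat_lit 385093) (nat_lit 49) (.e (nat_lit 778510) (nat_lit 14) (.e (nat_lit 1150) (nat_lit 85) .nil))))))) (.g (nat_lit 5) .nil .nil))) 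
(.lf (nat_lit 142772) (.g (nat_lit 1851) (.e (nat_lit 40997) (nat_lit 11) (.e (nat_lit 24617) (nat_lit 7) (.e (nat_lit 319531) (nat_lit 16) (.e (nat_lit 286759) (nat_lit 12) (.e (nat_lit 385092) (nat_lit 49) (.e (nat_lit 778510) (nat_lit 14) (.e (nat_lit 1149) (nat_lit 85) .nil))))))) (.g (nat_lit 4) .nil .nil))))) (.nd (nat_lit 4) (.nd (nat_lit 5) 
(.lf (nat_lit 142732) (.g (nat_lit 2960) (.e (nat_lit 40997) (nat_lit 11) (.e (nat_lit 24617) (nat_lit 7) (.e (nat_lit 319528) (nat_lit 16) (.e (nat_lit 286759) (nat_lit 12) (.e (nat_lit 385094) (nat_lit 49) (.e (nat_lit 778510) (nat_lit 14) (.e (nat_lit 1150) (nat_lit 85) .nil))))))) (.g (nat_lit 5) .nil .nil))) 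
(.lf (nat_lit 142764) (.g (nat_lit 3278) (.e (nat_lit 40997) (nat_lit 11) (.e (nat_lit 24617) (nat_lit 7) (.e (nat_lit 319530) (nat_lit 16) (.e (nat_lit 286759) (nat_lit 12) (.e (nat_lit 385094) (nat_lit 49) (.e (nat_lit 778548) (nat_lit 14) (.e (nat_lit 1150) (nat_lit 85) .nil))))))) (.g (nat_lit 5) .nil .nil)))) (.nd (nat_lit 5) 
(.lf (nat_lit 142748) (.g (nat_lit 2492) (.e (nat_lit 40997) (nat_lit 11) (.e (nat_lit 24617) (nat_lit 7) (.e (nat_lit 319530) (nat_lit 16) (.e (nat_lit 286759) (nat_lit 12) (.e (nat_lit 385092) (nat_lit 49) (.e (nat_lit 778506) (nat_lit 14) (.e (nat_lit 1150) (nat_lit 85) .nil))))))) (.g (nat_lit 4) .nil .nil))) 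
(.lf (nat_lit 142780) (.g (nat_lit 2384) (.e (nat_lit 40997) (nat_lit 11) (.e (nat_lit 24617) (nat_lit 7) (.e (nat_lit 319531) (nat_lit 16) (.e (nat_lit 286759) (nat_lit 12) (.e (nat_lit 385094) (nat_lit 49) (.e (nat_lit 778506) (nat_lit 14) (.e (nat_lit 1151) (nat_lit 85) .nil))))))) (.g (nat_lit 4) .nil .nil))))))) (.nd (nat_lit 2) (.nd (nat_lit 3) (.nd (nat_lit 4) (.nd (nat_lit 5) 
(.lf (nat_lit 142722) (.g (nat_lit 2451) (.e (nat_lit 40997) (nat_lit 11) (.e (nat_lit 24617) (nat_lit 7) (.e (nat_lit 319528) (nat_lit 16) (.e (nat_lit 286759) (nat_lit 12) (.e (nat_lit 385092) (nat_lit 49) (.e (nat_lit 778506) (nat_lit 14) (.e (nat_lit 1151) (nat_lit 85) .nil))))))) (.g (nat_lit 4) .nil .nil))) 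
(.lf (nat_lit 142754) (.g (nat_lit 2747) (.e (nat_lit 40997) (nat_lit 11) (.e (nat_lit 24617) (nat_lit 7) (.e (nat_lit 319530) (nat_lit 16) (.e (nat_lit 286759) (nat_lit 12) (.e (nat_lit 385092) (nat_lit 49) (.e (nat_lit 778510) (nat_lit 14) (.e (nat_lit 1151) (nat_lit 85) .nil))))))) (.g (nat_lit 4) .nil .nil)))) (.nd (nat_lit 5) 
(.lf (nat_lit 142738) (.g (nat_lit 3016) (.e (nat_lit 40997) (nat_lit 11) (.e (nat_lit 24617) (nat_lit 7) (.e (nat_lit 319529) (nat_lit 16) (.e (nat_lit 286759) (nat_lit 12) (.e (nat_lit 385093) (nat_lit 49) (.e (nat_lit 778510) (nat_lit 14) (.e (nat_lit 1146) (nat_lit 85) .nil))))))) (.g (nat_lit 5) .nil .nil))) 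
(.lf (nat_lit 142770) (.g (nat_lit 1983) (.e (nat_lit 40997) (nat_lit 11) (.e (nat_lit 24617) (nat_lit 7) (.e (nat_lit 319531) (nat_lit 16) (.e (nat_lit 286759) (nat_lit 12) (.e (nat_lit 385092) (nat_lit 49) (.e (nat_lit 778508) (nat_lit 14) (.e (nat_lit 1150) (nat_lit 85) .nil))))))) (.g (nat_lit 4) .nil .nil))))) (.nd (nat_lit 4) (.nd (nat_lit 5) 
(.lf (nat_lit 142730) (.g (nat_lit 2187) (.e (nat_lit 40997) (nat_lit 11) (.e (nat_lit 24617) (nat_lit 7) (.e (nat_lit 319528) (nat_lit 16) (.e (nat_lit 286759) (nat_lit 12) (.e (nat_lit 385094) (nat_lit 49) (.e (nat_lit 778506) (nat_lit 14) (.e (nat_lit 1151) (nat_lit 85) .nil))))))) (.g (nat_lit 4) .nil .nil))) 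
(.lf (nat_lit 142762) (.g (nat_lit 2813) (.e (nat_lit 40997) (nat_lit 11) (.e (nat_lit 24617) (nat_lit 7) (.e (nat_lit 319530) (nat_lit 16) (.e (nat_lit 286759) (nat_lit 12) (.e (nat_lit 385094) (nat_lit 49) (.e (nat_lit 778548) (nat_lit 14) (.e (nat_lit 1146) (nat_lit 85) .nil))))))) (.g (nat_lit 5) .nil .nil)))) (.nd (nat_lit 5) 
(.lf (nat_lit 142746) (.g (nat_lit 1964) (.e (nat_lit 40997) (nat_lit 11) (.e (nat_lit 24617) (nat_lit 7) (.e (nat_lit 319530) (nat_lit 16) (.e (nat_lit 286759) (nat_lit 12) (.e (nat_lit 385092) (nat_lit 49) .nil))))) .nil)) 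
(.lf (nat_lit 142778) (.g (nat_lit 2382) (.e (nat_lit 40997) (nat_lit 11) (.e (nat_lit 24617) (nat_lit 7) (.e (nat_lit 319531) (nat_lit 16) (.e (nat_lit 286759) (nat_lit 12) (.e (nat_lit 385094) (nat_lit 49) (.e (nat_lit 778500) (nat_lit 14) (.e (nat_lit 1154) (nat_lit 85) .nil))))))) (.g (nat_lit 4) .nil .nil)))))) (.nd (nat_lit 3) (.nd (nat_lit 4) (.nd (nat_lit 5) 
(.lf (nat_lit 142726) (.g (nat_lit 1597) (.e (nat_lit 40997) (nat_lit 11) (.e (nat_lit 24617) (nat_lit 7) (.e (nat_lit 319528) (nat_lit 16) (.e (nat_lit 286759) (nat_lit 12) (.e (nat_lit 385093) (nat_lit 49) .nil))))) .nil)) 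
(.lf (nat_lit 142758) (.g (nat_lit 2903) (.e (nat_lit 40997) (nat_lit 11) (.e (nat_lit 24617) (nat_lit 7) (.e (nat_lit 319530) (nat_lit 16) (.e (nat_lit 286759) (nat_lit 12) (.e (nat_lit 385094) (nat_lit 49) (.e (nat_lit 778510) (nat_lit 14) (.e (nat_lit 1146) (nat_lit 85) .nil))))))) (.g (nat_lit 5) .nil .nil)))) (.nd (nat_lit 5) 
(.lf (nat_lit 142742) (.g (nat_lit 1489) (.e (nat_lit 40997) (nat_lit 11) (.e (nat_lit 24617) (nat_lit 7) (.e (nat_lit 319529) (nat_lit 16) (.e (nat_lit 286759) (nat_lit 12) (.e (nat_lit 385094) (nat_lit 49) .nil))))) .nil)) 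
(.lf (nat_lit 142774) (.g (nat_lit 2605) (.e (nat_lit 40997) (nat_lit 11) (.e (nat_lit 24617) (nat_lit 7) (.e (nat_lit 319531) (nat_lit 16) (.e (nat_lit 286759) (nat_lit 12) (.e (nat_lit 385092) (nat_lit 49) (.e (nat_lit 778510) (nat_lit 14) (.e (nat_lit 1151) (nat_lit 85) .nil))))))) (.g (nat_lit 4) .nil .nil))))) (.nd (nat_lit 4) (.nd (nat_lit 5) 
(.lf (nat_lit 142734) (.g (nat_lit 2773) (.e (nat_lit 40997) (nat_lit 11) (.e (nat_lit 24617) (nat_lit 7) (.e (nat_lit 319528) (nat_lit 16) (.e (nat_lit 286759) (nat_lit 12) (.e (nat_lit 385094) (nat_lit 49) (.e (nat_lit 778548) (nat_lit 14) (.e (nat_lit 1146) (nat_lit 85) .nil))))))) (.g (nat_lit 5) .nil .nil))) 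
(.lf (nat_lit 142766) (.g (nat_lit 1771) (.e (nat_lit 40997) (nat_lit 11) (.e (nat_lit 24617) (nat_lit 7) (.e (nat_lit 319531) (nat_lit 16) (.e (nat_lit 286759) (nat_lit 12) (.e (nat_lit 385092) (nat_lit 49) .nil))))) .nil))) (.nd (nat_lit 5) 
(.lf (nat_lit 142750) (.g (nat_lit 2256) (.e (nat_lit 40997) (nat_lit 11) (.e (nat_lit 24617) (nat_lit 7) (.e (nat_lit 319530) (nat_lit 16) (.e (nat_lit 286759) (nat_lit 12) (.e (nat_lit 385092) (nat_lit 49) (.e (nat_lit 778508) (nat_lit 14) (.e (nat_lit 1150) (nat_lit 85) .nil))))))) (.g (nat_lit 4) .nil .nil))) 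
(.lf (nat_lit 142782) (.g (nat_lit 2429) (.e (nat_lit 40997) (nat_lit 11) (.e (nat_lit 24617) (nat_lit 7) (.e (nat_lit 319531) (nat_lit 16) (.e (nat_lit 286759) (nat_lit 12) (.e (nat_lit 385094) (nat_lit 49) (.e (nat_lit 778510) (nat_lit 14) (.e (nat_lit 1149) (nat_lit 85) .nil))))))) (.g (nat_lit 4) .nil .nil)))))))) 
(.nd (nat_lit 1) (.nd (nat_lit 2) (.nd (nat_lit 3) (.nd (nat_lit 4) (.nd (nat_lit 5) 
(.lf (nat_lit 142721) (.g (nat_lit 2339) (.e (nat_lit 40997) (nat_lit 11) (.e (nat_lit 24617) (nat_lit 7) (.e (nat_lit 319528) (nat_lit 16) (.e (nat_lit 286759) (nat_lit 12) (.e (nat_lit 385092) (nat_lit 49) (.e (nat_lit 778500) (nat_lit 14) (.e (nat_lit 1154) (nat_lit 85) .nil))))))) (.g (nat_lit 4) .nil .nil))) 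
(.lf (nat_lit 142753) (.g (nat_lit 2601) (.e (nat_lit 40997) (nat_lit 11) (.e (nat_lit 24617) (nat_lit 7) (.e (nat_lit 319530) (nat_lit 16) (.e (nat_lit 286759) (nat_lit 12) (.e (nat_lit 385092) (nat_lit 49) (.e (nat_lit 778510) (nat_lit 14) (.e (nat_lit 1150) (nat_lit 85) .nil))))))) (.g (nat_lit 4) .nil .nil)))) (.nd (nat_lit 5) 
(.lf (nat_lit 142737) (.g (nat_lit 1689) (.e (nat_lit 40997) (nat_lit 11) (.e (nat_lit 24617) (nat_lit 7) (.e (nat_lit 319529) (nat_lit 16) (.e (nat_lit 286759) (nat_lit 12) (.e (nat_lit 385092) (nat_lit 49) .nil))))) .nil)) 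
(.lf (nat_lit 142769) (.g (nat_lit 2311) (.e (nat_lit 40997) (nat_lit 11) (.e (nat_lit 24617) (nat_lit 7) (.e (nat_lit 319531) (nat_lit 16) (.e (nat_lit 286759) (nat_lit 12) (.e (nat_lit 385092) (nat_lit 49) (.e (nat_lit 778506) (nat_lit 14) (.e (nat_lit 1151) (nat_lit 85) .nil))))))) (.g (nat_lit 4) .nil .nil))))) (.nd (nat_lit 4) (.nd (nat_lit 5) 
(.lf (nat_lit 142729) (.g (nat_lit 3438) (.e (nat_lit 40997) (nat_lit 11) (.e (nat_lit 24617) (nat_lit 7) (.e (nat_lit 319528) (nat_lit 16) (.e (nat_lit 286759) (nat_lit 12) (.e (nat_lit 385094) (nat_lit 49) (.e (nat_lit 778498) (nat_lit 14) (.e (nat_lit 7936) (nat_lit 85) .nil))))))) (.g (nat_lit 5) .nil .nil))) 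
(.lf (nat_lit 142761) (.g (nat_lit 3007) (.e (nat_lit 40997) (nat_lit 11) (.e (nat_lit 24617) (nat_lit 7) (.e (nat_lit 319530) (nat_lit 16) (.e (nat_lit 286759) (nat_lit 12) (.e (nat_lit 385094) (nat_lit 49) (.e (nat_lit 778510) (nat_lit 14) (.e (nat_lit 1151) (nat_lit 85) .nil))))))) (.g (nat_lit 5) .nil .nil)))) (.nd (nat_lit 5) 
(.lf (nat_lit 142745) (.g (nat_lit 422) (.e (nat_lit 40997) (nat_lit 11) (.e (nat_lit 24617) (nat_lit 7) (.e (nat_lit 319530) (nat_lit 16) .nil))) .nil)) 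
(.lf (nat_lit 142777) (.g (nat_lit 3461) (.e (nat_lit 40997) (nat_lit 11) (.e (nat_lit 24617) (nat_lit 7) (.e (nat_lit 319531) (nat_lit 16) (.e (nat_lit 286759) (nat_lit 12) (.e (nat_lit 385094) (nat_lit 49) (.e (nat_lit 778498) (nat_lit 14) (.e (nat_lit 7936) (nat_lit 85) .nil))))))) (.g (nat_lit 5) .nil .nil)))))) (.nd (nat_lit 3) (.nd (nat_lit 4) (.nd (nat_lit 5) 
(.lf (nat_lit 142725) (.g (nat_lit 2024) (.e (nat_lit 40997) (nat_lit 11) (.e (nat_lit 24617) (nat_lit 7) (.e (nat_lit 319528) (nat_lit 16) (.e (nat_lit 286759) (nat_lit 12) (.e (nat_lit 385092) (nat_lit 49) (.e (nat_lit 778510) (nat_lit 14) (.e (nat_lit 1149) (nat_lit 85) .nil))))))) (.g (nat_lit 4) .nil .nil))) 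
(.lf (nat_lit 142757) (.g (nat_lit 1738) (.e (nat_lit 40997) (nat_lit 11) (.e (nat_lit 24617) (nat_lit 7) (.e (nat_lit 319530) (nat_lit 16) (.e (nat_lit 286759) (nat_lit 12) (.e (nat_lit 385094) (nat_lit 49) .nil))))) .nil))) (.nd (nat_lit 5) 
(.lf (nat_lit 142741) (.g (nat_lit 3173) (.e (nat_lit 40997) (nat_lit 11) (.e (nat_lit 24617) (nat_lit 7) (.e (nat_lit 319529) (nat_lit 16) (.e (nat_lit 286759) (nat_lit 12) (.e (nat_lit 385093) (nat_lit 49) (.e (nat_lit 778510) (nat_lit 14) (.e (nat_lit 1151) (nat_lit 85) .nil))))))) (.g (nat_lit 5) .nil .nil))) 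
(.lf (nat_lit 142773) (.g (nat_lit 2328) (.e (nat_lit 40997) (nat_lit 11) (.e (nat_lit 24617) (nat_lit 7) (.e (nat_lit 319531) (nat_lit 16) (.e (nat_lit 286759) (nat_lit 12) (.e (nat_lit 385092) (nat_lit 49) (.e (nat_lit 778510) (nat_lit 14) (.e (nat_lit 1150) (nat_lit 85) .nil))))))) (.g (nat_lit 4) .nil .nil))))) (.nd (nat_lit 4) (.nd (nat_lit 5) 
(.lf (nat_lit 142733) (.g (nat_lit 3075) (.e (nat_lit 40997) (nat_lit 11) (.e (nat_lit 24617) (nat_lit 7) (.e (nat_lit 319528) (nat_lit 16) (.e (nat_lit 286759) (nat_lit 12) (.e (nat_lit 385094) (nat_lit 49) (.e (nat_lit 778510) (nat_lit 14) (.e (nat_lit 1151) (nat_lit 85) .nil))))))) (.g (nat_lit 5) .nil .nil))) 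
(.lf (nat_lit 142765) (.g (nat_lit 3166) (.e (nat_lit 40997) (nat_lit 11) (.e (nat_lit 24617) (nat_lit 7) (.e (nat_lit 319530) (nat_lit 16) (.e (nat_lit 286759) (nat_lit 12) (.e (nat_lit 385115) (nat_lit 53) (.e (nat_lit 818944) (nat_lit 14) .nil)))))) (.g (nat_lit 5) .nil .nil)))) (.nd (nat_lit 5) 
(.lf (nat_lit 142749) (.g (nat_lit 2453) (.e (nat_lit 40997) (nat_lit 11) (.e (nat_lit 24617) (nat_lit 7) (.e (nat_lit 319530) (nat_lit 16) (.e (nat_lit 286759) (nat_lit 12) (.e (nat_lit 385092) (nat_lit 49) (.e (nat_lit 778506) (nat_lit 14) (.e (nat_lit 1151) (nat_lit 85) .nil))))))) (.g (nat_lit 4) .nil .nil))) 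
(.lf (nat_lit 142781) (.g (nat_lit 3058) (.e (nat_lit 40997) (nat_lit 11) (.e (nat_lit 24617) (nat_lit 7) (.e (nat_lit 319531) (nat_lit 16) (.e (nat_lit 286759) (nat_lit 12) (.e (nat_lit 385094) (nat_lit 49) (.e (nat_lit 778510) (nat_lit 14) (.e (nat_lit 1146) (nat_lit 85) .nil))))))) (.g (nat_lit 5) .nil .nil))))))) (.nd (nat_lit 2) (.nd (nat_lit 3) (.nd (nat_lit 4) (.nd (nat_lit 5) 
(.lf (nat_lit 142723) (.g (nat_lit 2270) (.e (nat_lit 40997) (nat_lit 11) (.e (nat_lit 24617) (nat_lit 7) (.e (nat_lit 319528) (nat_lit 16) (.e (nat_lit 286759) (nat_lit 12) (.e (nat_lit 385092) (nat_lit 49) (.e (nat_lit 778508) (nat_lit 14) (.e (nat_lit 1150) (nat_lit 85) .nil))))))) (.g (nat_lit 4) .nil .nil))) 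
(.lf (nat_lit 142755) (.g (nat_lit 2064) (.e (nat_lit 40997) (nat_lit 11) (.e (nat_lit 24617) (nat_lit 7) (.e (nat_lit 319530) (nat_lit 16) (.e (nat_lit 286759) (nat_lit 12) (.e (nat_lit 385093) (nat_lit 49) .nil))))) .nil))) (.nd (nat_lit 5) 
(.lf (nat_lit 142739) (.g (nat_lit 2489) (.e (nat_lit 40997) (nat_lit 11) (.e (nat_lit 24617) (nat_lit 7) (.e (nat_lit 319529) (nat_lit 16) (.e (nat_lit 286759) (nat_lit 12) (.e (nat_lit 385093) (nat_lit 49) (.e (nat_lit 778510) (nat_lit 14) (.e (nat_lit 1149) (nat_lit 85) .nil))))))) (.g (nat_lit 4) .nil .nil))) 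
(.lf (nat_lit 142771) (.g (nat_lit 2575) (.e (nat_lit 40997) (nat_lit 11) (.e (nat_lit 24617) (nat_lit 7) (.e (nat_lit 319531) (nat_lit 16) (.e (nat_lit 286759) (nat_lit 12) (.e (nat_lit 385092) (nat_lit 49) (.e (nat_lit 778510) (nat_lit 14) (.e (nat_lit 1146) (nat_lit 85) .nil))))))) (.g (nat_lit 4) .nil .nil))))) (.nd (nat_lit 4) (.nd (nat_lit 5) 
(.lf (nat_lit 142731) (.g (nat_lit 2947) (.e (nat_lit 40997) (nat_lit 11) (.e (nat_lit 24617) (nat_lit 7) (.e (nat_lit 319528) (nat_lit 16) (.e (nat_lit 286759) (nat_lit 12) (.e (nat_lit 385094) (nat_lit 49) (.e (nat_lit 778510) (nat_lit 14) (.e (nat_lit 1146) (nat_lit 85) .nil))))))) (.g (nat_lit 5) .nil .nil))) 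
(.lf (nat_lit 142763) (.g (nat_lit 2863) (.e (nat_lit 40997) (nat_lit 11) (.e (nat_lit 24617) (nat_lit 7) (.e (nat_lit 319530) (nat_lit 16) (.e (nat_lit 286759) (nat_lit 12) (.e (nat_lit 385094) (nat_lit 49) (.e (nat_lit 778548) (nat_lit 14) (.e (nat_lit 1149) (nat_lit 85) .nil))))))) (.g (nat_lit 5) .nil .nil)))) (.nd (nat_lit 5) 
(.lf (nat_lit 142747) (.g (nat_lit 2210) (.e (nat_lit 40997) (nat_lit 11) (.e (nat_lit 24617) (nat_lit 7) (.e (nat_lit 319530) (nat_lit 16) (.e (nat_lit 286759) (nat_lit 12) (.e (nat_lit 385092) (nat_lit 49) (.e (nat_lit 778500) (nat_lit 14) (.e (nat_lit 1154) (nat_lit 85) .nil))))))) (.g (nat_lit 4) .nil .nil))) 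
(.lf (nat_lit 142779) (.g (nat_lit 3046) (.e (nat_lit 40997) (nat_lit 11) (.e (nat_lit 24617) (nat_lit 7) (.e (nat_lit 319531) (nat_lit 16) (.e (nat_lit 286759) (nat_lit 12) (.e (nat_lit 385094) (nat_lit 49) (.e (nat_lit 778503) (nat_lit 14) (.e (nat_lit 1146) (nat_lit 85) .nil))))))) (.g (nat_lit 5) .nil .nil)))))) (.nd (nat_lit 3) (.nd (nat_lit 4) (.nd (nat_lit 5) 
(.lf (nat_lit 142727) (.g (nat_lit 3026) (.e (nat_lit 40997) (nat_lit 11) (.e (nat_lit 24617) (nat_lit 7) (.e (nat_lit 319528) (nat_lit 16) (.e (nat_lit 286759) (nat_lit 12) (.e (nat_lit 385093) (nat_lit 49) (.e (nat_lit 778510) (nat_lit 14) (.e (nat_lit 1149) (nat_lit 85) .nil))))))) (.g (nat_lit 5) .nil .nil))) 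
(.lf (nat_lit 142759) (.g (nat_lit 2263) (.e (nat_lit 40997) (nat_lit 11) (.e (nat_lit 24617) (nat_lit 7) (.e (nat_lit 319530) (nat_lit 16) (.e (nat_lit 286759) (nat_lit 12) (.e (nat_lit 385094) (nat_lit 49) (.e (nat_lit 778510) (nat_lit 14) (.e (nat_lit 1149) (nat_lit 85) .nil))))))) (.g (nat_lit 4) .nil .nil)))) (.nd (nat_lit 5) 
(.lf (nat_lit 142743) (.g (nat_lit 2295) (.e (nat_lit 40997) (nat_lit 11) (.e (nat_lit 24617) (nat_lit 7) (.e (nat_lit 319529) (nat_lit 16) (.e (nat_lit 286759) (nat_lit 12) (.e (nat_lit 385114) (nat_lit 53) (.e (nat_lit 811045) (nat_lit 14) .nil)))))) (.g (nat_lit 4) .nil .nil))) 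
(.lf (nat_lit 142775) (.g (nat_lit 3310) (.e (nat_lit 40997) (nat_lit 11) (.e (nat_lit 24617) (nat_lit 7) (.e (nat_lit 319531) (nat_lit 16) (.e (nat_lit 286759) (nat_lit 12) (.e (nat_lit 385093) (nat_lit 49) (.e (nat_lit 778510) (nat_lit 14) (.e (nat_lit 1149) (nat_lit 85) .nil))))))) (.g (nat_lit 5) .nil .nil))))) (.nd (nat_lit 4) (.nd (nat_lit 5) 
(.lf (nat_lit 142735) (.g (nat_lit 2885) (.e (nat_lit 40997) (nat_lit 11) (.e (nat_lit 24617) (nat_lit 7) (.e (nat_lit 319528) (nat_lit 16) (.e (nat_lit 286759) (nat_lit 12) (.e (nat_lit 385094) (nat_lit 49) (.e (nat_lit 778548) (nat_lit 14) (.e (nat_lit 1149) (nat_lit 85) .nil))))))) (.g (nat_lit 5) .nil .nil))) 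
(.lf (nat_lit 142767) (.g (nat_lit 2207) (.e (nat_lit 40997) (nat_lit 11) (.e (nat_lit 24617) (nat_lit 7) (.e (nat_lit 319531) (nat_lit 16) (.e (nat_lit 286759) (nat_lit 12) (.e (nat_lit 385092) (nat_lit 49) (.e (nat_lit 778500) (nat_lit 14) (.e (nat_lit 1154) (nat_lit 85) .nil))))))) (.g (nat_lit 4) .nil .nil)))) (.nd (nat_lit 5) 
(.lf (nat_lit 142751) (.g (nat_lit 2723) (.e (nat_lit 40997) (nat_lit 11) (.e (nat_lit 24617) (nat_lit 7) (.e (nat_lit 319530) (nat_lit 16) (.e (nat_lit 286759) (nat_lit 12) (.e (nat_lit 385092) (nat_lit 49) (.e (nat_lit 778510) (nat_lit 14) (.e (nat_lit 1146) (nat_lit 85) .nil))))))) (.g (nat_lit 4) .nil .nil))) 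
(.lf (nat_lit 142783) (.g (nat_lit 2906) (.e (nat_lit 40997) (nat_lit 11) (.e (nat_lit 24617) (nat_lit 7) (.e (nat_lit 319531) (nat_lit 16) (.e (nat_lit 286759) (nat_lit 12) (.e (nat_lit 385094) (nat_lit 49) (.e (nat_lit 778510) (nat_lit 14) (.e (nat_lit 1150) (nat_lit 85) .nil))))))) (.g (nat_lit 5) .nil .nil)))))))))

noncomputable def tv1894 : DT := (.nd (nat_lit 0) (.nd (nat_lit 1) (.nd (nat_lit 2) (.nd (nat_lit 3) (.nd (nat_lit 4) (.nd (nat_lit 5) 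
(.lf (nat_lit 142784) (.g (nat_lit 3168) (.e (nat_lit 40997) (nat_lit 11) (.e (nat_lit 24617) (nat_lit 7) (.e (nat_lit 319531) (nat_lit 16) (.e (nat_lit 286759) (nat_lit 12) (.e (nat_lit 385094) (nat_lit 49) (.e (nat_lit 778510) (nat_lit 14) (.e (nat_lit 1151) (nat_lit 85) .nil))))))) (.g (nat_lit 5) .nil .nil))) 
(.lf (nat_lit 142816) (.g (nat_lit 2043) (.e (nat_lit 40997) (nat_lit 11) (.e (nat_lit 24617) (nat_lit 7) (.e (nat_lit 319533) (nat_lit 16) (.e (nat_lit 286753) (nat_lit 10) (.e (nat_lit 344160) (nat_lit 37) (.e (nat_lit 655104) (nat_lit 14) (.e (nat_lit 2577) (nat_lit 161) .nil))))))) (.g (nat_lit 4) .nil .nil)))) (.nd (nat_lit 5) 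
(.lf (nat_lit 142800) (.g (nat_lit 3329) (.e (nat_lit 40997) (nat_lit 11) (.e (nat_lit 24617) (nat_lit 7) (.e (nat_lit 319532) (nat_lit 16) (.e (nat_lit 286759) (nat_lit 12) (.e (nat_lit 385094) (nat_lit 49) (.e (nat_lit 778510) (nat_lit 14) (.e (nat_lit 1151) (nat_lit 85) .nil))))))) (.g (nat_lit 5) .nil .nil))) 
(.lf (nat_lit 142832) (.g (nat_lit 2771) (.e (nat_lit 40997) (nat_lit 11) (.e (nat_lit 24617) (nat_lit 7) (.e (nat_lit 319533) (nat_lit 16) (.e (nat_lit 286753) (nat_lit 10) (.e (nat_lit 344169) (nat_lit 40) (.e (nat_lit 679680) (nat_lit 14) (.e (nat_lit 1145) (nat_lit 85) .nil))))))) (.g (nat_lit 5) .nil .nil))))) (.nd (nat_lit 4) (.nd (nat_lit 5) 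
(.lf (nat_lit 142792) (.g (nat_lit 2360) (.e (nat_lit 40997) (nat_lit 11) (.e (nat_lit 24617) (nat_lit 7) (.e (nat_lit 319532) (nat_lit 16) (.e (nat_lit 286759) (nat_lit 12) (.e (nat_lit 385092) (nat_lit 49) (.e (nat_lit 778510) (nat_lit 14) (.e (nat_lit 1146) (nat_lit 85) .nil))))))) (.g (nat_lit 4) .nil .nil))) 
(.lf (nat_lit 142824) (.g (nat_lit 2109) (.e (nat_lit 40997) (nat_lit 11) (.e (nat_lit 24617) (nat_lit 7) (.e (nat_lit 319533) (nat_lit 16) (.e (nat_lit 286753) (nat_lit 10) (.e (nat_lit 344168) (nat_lit 40) (.e (nat_lit 679680) (nat_lit 14) (.e (nat_lit 1145) (nat_lit 85) .nil))))))) (.g (nat_lit 4) .nil .nil)))) (.nd (nat_lit 5) 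
(.lf (nat_lit 142808) (.g (nat_lit 2833) (.e (nat_lit 40997) (nat_lit 11) (.e (nat_lit 24617) (nat_lit 7) (.e (nat_lit 319533) (nat_lit 16) (.e (nat_lit 286748) (nat_lit 9) (.e (nat_lit 336295) (nat_lit 15) (.e (nat_lit 3806) (nat_lit 231) (.e (nat_lit 811045) (nat_lit 14) .nil))))))) (.g (nat_lit 4) .nil .nil))) 
(.lf (nat_lit 142840) (.g (nat_lit 1549) (.e (nat_lit 40997) (nat_lit 11) (.e (nat_lit 24617) (nat_lit 7) (.e (nat_lit 319533) (nat_lit 16) (.e (nat_lit 286758) (nat_lit 12) (.e (nat_lit 385094) (nat_lit 49) .nil))))) .nil))))) (.nd (nat_lit 3) (.nd (nat_lit 4) (.nd (nat_lit 5) 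
(.lf (nat_lit 142788) (.g (nat_lit 1675) (.e (nat_lit 40997) (nat_lit 11) (.e (nat_lit 24617) (nat_lit 7) (.e (nat_lit 319532) (nat_lit 16) (.e (nat_lit 286759) (nat_lit 12) (.e (nat_lit 385092) (nat_lit 49) .nil))))) .nil)) 
(.lf (nat_lit 142820) (.g (nat_lit 1661) (.e (nat_lit 40997) (nat_lit 11) (.e (nat_lit 24617) (nat_lit 7) (.e (nat_lit 319533) (nat_lit 16) (.e (nat_lit 286753) (nat_lit 10) (.e (nat_lit 344168) (nat_lit 40) .nil))))) .nil))) (.nd (nat_lit 5) 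
(.lf (nat_lit 142804) (.g (nat_lit 1667) (.e (nat_lit 40997) (nat_lit 11) (.e (nat_lit 24617) (nat_lit 7) (.e (nat_lit 319532) (nat_lit 16) (.e (nat_lit 286759) (nat_lit 12) (.e (nat_lit 385111) (nat_lit 53) .nil))))) .nil)) 
(.lf (nat_lit 142836) (.g (nat_lit 2311) (.e (nat_lit 40997) (nat_lit 11) (.e (nat_lit 24617) (nat_lit 7) (.e (nat_lit 319533) (nat_lit 16) (.e (nat_lit 286753) (nat_lit 10) (.e (nat_lit 344169) (nat_lit 40) (.e (nat_lit 679680) (nat_lit 14) (.e (nat_lit 1155) (nat_lit 85) .nil))))))) (.g (nat_lit 4) .nil .nil))))) (.nd (nat_lit 4) (.nd (nat_lit 5) 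
(.lf (nat_lit 142796) (.g (nat_lit 3047) (.e (nat_lit 40997) (nat_lit 11) (.e (nat_lit 24617) (nat_lit 7) (.e (nat_lit 319532) (nat_lit 16) (.e (nat_lit 286759) (nat_lit 12) (.e (nat_lit 385093) (nat_lit 49) (.e (nat_lit 778510) (nat_lit 14) (.e (nat_lit 1149) (nat_lit 85) .nil))))))) (.g (nat_lit 5) .nil .nil))) 
(.lf (nat_lit 142828) (.g (nat_lit 1785) (.e (nat_lit 40997) (nat_lit 11) (.e (nat_lit 24617) (nat_lit 7) (.e (nat_lit 319533) (nat_lit 16) (.e (nat_lit 286753) (nat_lit 10) (.e (nat_lit 344169) (nat_lit 40) .nil))))) .nil))) (.nd (nat_lit 5) 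
(.lf (nat_lit 142812) (.g (nat_lit 1504) (.e (nat_lit 40997) (nat_lit 11) (.e (nat_lit 24617) (nat_lit 7) (.e (nat_lit 319533) (nat_lit 16) (.e (nat_lit 286753) (nat_lit 10) (.e (nat_lit 344160) (nat_lit 37) .nil))))) .nil)) 
(.lf (nat_lit 142844) (.g (nat_lit 2405) (.e (nat_lit 40997) (nat_lit 11) (.e (nat_lit 24617) (nat_lit 7) (.e (nat_lit 319533) (nat_lit 16) (.e (nat_lit 286758) (nat_lit 12) (.e (nat_lit 385115) (nat_lit 53) (.e (nat_lit 818944) (nat_lit 14) .nil)))))) (.g (nat_lit 5) .nil .nil))))))) (.nd (nat_lit 2) (.nd (nat_lit 3) (.nd (nat_lit 4) (.nd (nat_lit 5) 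
(.lf (nat_lit 142786) (.g (nat_lit 3082) (.e (nat_lit 40997) (nat_lit 11) (.e (nat_lit 24617) (nat_lit 7) (.e (nat_lit 319531) (nat_lit 16) (.e (nat_lit 286759) (nat_lit 12) (.e (nat_lit 385094) (nat_lit 49) (.e (nat_lit 778548) (nat_lit 14) (.e (nat_lit 1149) (nat_lit 85) .nil))))))) (.g (nat_lit 6) .nil .nil))) 
(.lf (nat_lit 142818) (.g (nat_lit 2802) (.e (nat_lit 40997) (nat_lit 11) (.e (nat_lit 24617) (nat_lit 7) (.e (nat_lit 319533) (nat_lit 16) (.e (nat_lit 286753) (nat_lit 10) (.e (nat_lit 344160) (nat_lit 37) (.e (nat_lit 655104) (nat_lit 14) (.e (nat_lit 2584) (nat_lit 161) .nil))))))) (.g (nat_lit 5) .nil .nil)))) (.nd (nat_lit 5) 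
(.lf (nat_lit 142802) (.g (nat_lit 3009) (.e (nat_lit 40997) (nat_lit 11) (.e (nat_lit 24617) (nat_lit 7) (.e (nat_lit 319532) (nat_lit 16) (.e (nat_lit 286759) (nat_lit 12) (.e (nat_lit 385094) (nat_lit 49) (.e (nat_lit 778548) (nat_lit 14) (.e (nat_lit 1149) (nat_lit 85) .nil))))))) (.g (nat_lit 5) .nil .nil))) 
(.lf (nat_lit 142834) (.g (nat_lit 2234) (.e (nat_lit 40997) (nat_lit 11) (.e (nat_lit 24617) (nat_lit 7) (.e (nat_lit 319533) (nat_lit 16) (.e (nat_lit 286753) (nat_lit 10) (.e (nat_lit 344169) (nat_lit 40) (.e (nat_lit 679680) (nat_lit 14) (.e (nat_lit 1153) (nat_lit 85) .nil))))))) (.g (nat_lit 4) .nil .nil))))) (.nd (nat_lit 4) (.nd (nat_lit 5) 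
(.lf (nat_lit 142794) (.g (nat_lit 2342) (.e (nat_lit 40997) (nat_lit 11) (.e (nat_lit 24617) (nat_lit 7) (.e (nat_lit 319532) (nat_lit 16) (.e (nat_lit 286759) (nat_lit 12) (.e (nat_lit 385092) (nat_lit 49) (.e (nat_lit 778510) (nat_lit 14) (.e (nat_lit 1151) (nat_lit 85) .nil))))))) (.g (nat_lit 4) .nil .nil))) 
(.lf (nat_lit 142826) (.g (nat_lit 2830) (.e (nat_lit 40997) (nat_lit 11) (.e (nat_lit 24617) (nat_lit 7) (.e (nat_lit 319533) (nat_lit 16) (.e (nat_lit 286753) (nat_lit 10) (.e (nat_lit 344168) (nat_lit 40) (.e (nat_lit 679680) (nat_lit 14) (.e (nat_lit 1150) (nat_lit 85) .nil))))))) (.g (nat_lit 5) .nil .nil)))) (.nd (nat_lit 5) 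
(.lf (nat_lit 142810) (.g (nat_lit 1097) (.e (nat_lit 40997) (nat_lit 11) (.e (nat_lit 24617) (nat_lit 7) (.e (nat_lit 319533) (nat_lit 16) (.e (nat_lit 286753) (nat_lit 10) .nil)))) .nil)) 
(.lf (nat_lit 142842) (.g (nat_lit 2810) (.e (nat_lit 40997) (nat_lit 11) (.e (nat_lit 24617) (nat_lit 7) (.e (nat_lit 319533) (nat_lit 16) (.e (nat_lit 286758) (nat_lit 12) (.e (nat_lit 385094) (nat_lit 49) (.e (nat_lit 778548) (nat_lit 14) (.e (nat_lit 1149) (nat_lit 85) .nil))))))) (.g (nat_lit 5) .nil .nil)))))) (.nd (nat_lit 3) (.nd (nat_lit 4) (.nd (nat_lit 5) 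
(.lf (nat_lit 142790) (.g (nat_lit 2088) (.e (nat_lit 40997) (nat_lit 11) (.e (nat_lit 24617) (nat_lit 7) (.e (nat_lit 319532) (nat_lit 16) (.e (nat_lit 286759) (nat_lit 12) (.e (nat_lit 385092) (nat_lit 49) (.e (nat_lit 778506) (nat_lit 14) (.e (nat_lit 1150) (nat_lit 85) .nil))))))) (.g (nat_lit 4) .nil .nil))) 
(.lf (nat_lit 142822) (.g (nat_lit 2660) (.e (nat_lit 40997) (nat_lit 11) (.e (nat_lit 24617) (nat_lit 7) (.e (nat_lit 319533) (nat_lit 16) (.e (nat_lit 286753) (nat_lit 10) (.e (nat_lit 344168) (nat_lit 40) (.e (nat_lit 671786) (nat_lit 14) (.e (nat_lit 1146) (nat_lit 85) .nil))))))) (.g (nat_lit 5) .nil .nil)))) (.nd (nat_lit 5) 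
(.lf (nat_lit 142806) (.g (nat_lit 2789) (.e (nat_lit 40997) (nat_lit 11) (.e (nat_lit 24617) (nat_lit 7) (.e (nat_lit 319532) (nat_lit 16) (.e (nat_lit 286759) (nat_lit 12) (.e (nat_lit 385115) (nat_lit 53) (.e (nat_lit 818944) (nat_lit 14) .nil)))))) (.g (nat_lit 5) .nil .nil))) 
(.lf (nat_lit 142838) (.g (nat_lit 1582) (.e (nat_lit 40997) (nat_lit 11) (.e (nat_lit 24617) (nat_lit 7) (.e (nat_lit 319533) (nat_lit 16) (.e (nat_lit 286758) (nat_lit 12) (.e (nat_lit 385092) (nat_lit 49) .nil))))) .nil)))) (.nd (nat_lit 4) (.nd (nat_lit 5) 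
(.lf (nat_lit 142798) (.g (nat_lit 2662) (.e (nat_lit 40997) (nat_lit 11) (.e (nat_lit 24617) (nat_lit 7) (.e (nat_lit 319532) (nat_lit 16) (.e (nat_lit 286759) (nat_lit 12) (.e (nat_lit 385094) (nat_lit 49) (.e (nat_lit 778510) (nat_lit 14) (.e (nat_lit 1149) (nat_lit 85) .nil))))))) (.g (nat_lit 5) .nil .nil))) 
(.lf (nat_lit 142830) (.g (nat_lit 2925) (.e (nat_lit 40997) (nat_lit 11) (.e (nat_lit 24617) (nat_lit 7) (.e (nat_lit 319533) (nat_lit 16) (.e (nat_lit 286753) (nat_lit 10) (.e (nat_lit 344169) (nat_lit 40) (.e (nat_lit 671786) (nat_lit 14) (.e (nat_lit 1149) (nat_lit 85) .nil))))))) (.g (nat_lit 5) .nil .nil)))) (.nd (nat_lit 5) 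
(.lf (nat_lit 142814) (.g (nat_lit 2808) (.e (nat_lit 40997) (nat_lit 11) (.e (nat_lit 24617) (nat_lit 7) (.e (nat_lit 319533) (nat_lit 16) (.e (nat_lit 286753) (nat_lit 10) (.e (nat_lit 344160) (nat_lit 37) (.e (nat_lit 655104) (nat_lit 14) (.e (nat_lit 2574) (nat_lit 161) .nil))))))) (.g (nat_lit 5) .nil .nil))) 
(.lf (nat_lit 142846) (.g (nat_lit 2018) (.e (nat_lit 40997) (nat_lit 11) (.e (nat_lit 24617) (nat_lit 7) (.e (nat_lit 319533) (nat_lit 16) (.e (nat_lit 286759) (nat_lit 12) (.e (nat_lit 385093) (nat_lit 49) .nil))))) .nil))))))) (.nd (nat_lit 1) (.nd (nat_lit 2) (.nd (nat_lit 3) (.nd (nat_lit 4) (.nd (nat_lit 5) 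
(.lf (nat_lit 142785) (.g (nat_lit 2801) (.e (nat_lit 40997) (nat_lit 11) (.e (nat_lit 24617) (nat_lit 7) (.e (nat_lit 319531) (nat_lit 16) (.e (nat_lit 286759) (nat_lit 12) (.e (nat_lit 385094) (nat_lit 49) (.e (nat_lit 778538) (nat_lit 14) (.e (nat_lit 1146) (nat_lit 85) .nil))))))) (.g (nat_lit 5) .nil .nil))) 
(.lf (nat_lit 142817) (.g (nat_lit 3006) (.e (nat_lit 40997) (nat_lit 11) (.e (nat_lit 24617) (nat_lit 7) (.e (nat_lit 319533) (nat_lit 16) (.e (nat_lit 286753) (nat_lit 10) (.e (nat_lit 344160) (nat_lit 37) (.e (nat_lit 655104) (nat_lit 14) (.e (nat_lit 2583) (nat_lit 161) .nil))))))) (.g (nat_lit 5) .nil .nil)))) (.nd (nat_lit 5) 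
(.lf (nat_lit 142801) (.g (nat_lit 2924) (.e (nat_lit 40997) (nat_lit 11) (.e (nat_lit 24617) (nat_lit 7) (.e (nat_lit 319532) (nat_lit 16) (.e (nat_lit 286759) (nat_lit 12) (.e (nat_lit 385094) (nat_lit 49) (.e (nat_lit 778548) (nat_lit 14) (.e (nat_lit 1146) (nat_lit 85) .nil))))))) (.g (nat_lit 5) .nil .nil))) 
(.lf (nat_lit 142833) (.g (nat_lit 2166) (.e (nat_lit 40997) (nat_lit 11) (.e (nat_lit 24617) (nat_lit 7) (.e (nat_lit 319533) (nat_lit 16) (.e (nat_lit 286753) (nat_lit 10) (.e (nat_lit 344169) (nat_lit 40) (.e (nat_lit 679680) (nat_lit 14) (.e (nat_lit 1148) (nat_lit 85) .nil))))))) (.g (nat_lit 4) .nil .nil))))) (.nd (nat_lit 4) (.nd (nat_lit 5) 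
(.lf (nat_lit 142793) (.g (nat_lit 2197) (.e (nat_lit 40997) (nat_lit 11) (.e (nat_lit 24617) (nat_lit 7) (.e (nat_lit 319532) (nat_lit 16) (.e (nat_lit 286759) (nat_lit 12) (.e (nat_lit 385092) (nat_lit 49) (.e (nat_lit 778510) (nat_lit 14) (.e (nat_lit 1150) (nat_lit 85) .nil))))))) (.g (nat_lit 4) .nil .nil))) 
(.lf (nat_lit 142825) (.g (nat_lit 1842) (.e (nat_lit 40997) (nat_lit 11) (.e (nat_lit 24617) (nat_lit 7) (.e (nat_lit 319533) (nat_lit 16) (.e (nat_lit 286753) (nat_lit 10) (.e (nat_lit 344168) (nat_lit 40) (.e (nat_lit 679680) (nat_lit 14) (.e (nat_lit 1146) (nat_lit 85) .nil))))))) (.g (nat_lit 4) .nil .nil)))) (.nd (nat_lit 5) 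
(.lf (nat_lit 142809) (.g (nat_lit 1581) (.e (nat_lit 40997) (nat_lit 11) (.e (nat_lit 24617) (nat_lit 7) (.e (nat_lit 319533) (nat_lit 16) (.e (nat_lit 286752) (nat_lit 10) (.e (nat_lit 344169) (nat_lit 40) .nil))))) .nil)) 
(.lf (nat_lit 142841) (.g (nat_lit 2686) (.e (nat_lit 40997) (nat_lit 11) (.e (nat_lit 24617) (nat_lit 7) (.e (nat_lit 319533) (nat_lit 16) (.e (nat_lit 286758) (nat_lit 12) (.e (nat_lit 385094) (nat_lit 49) (.e (nat_lit 778510) (nat_lit 14) (.e (nat_lit 1149) (nat_lit 85) .nil))))))) (.g (nat_lit 5) .nil .nil)))))) (.nd (nat_lit 3) (.nd (nat_lit 4) (.nd (nat_lit 5) 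
(.lf (nat_lit 142789) (.g (nat_lit 1898) (.e (nat_lit 40997) (nat_lit 11) (.e (nat_lit 24617) (nat_lit 7) (.e (nat_lit 319532) (nat_lit 16) (.e (nat_lit 286759) (nat_lit 12) (.e (nat_lit 385092) (nat_lit 49) (.e (nat_lit 778500) (nat_lit 14) (.e (nat_lit 1154) (nat_lit 85) .nil))))))) (.g (nat_lit 4) .nil .nil))) 
(.lf (nat_lit 142821) (.g (nat_lit 2454) (.e (nat_lit 40997) (nat_lit 11) (.e (nat_lit 24617) (nat_lit 7) (.e (nat_lit 319533) (nat_lit 16) (.e (nat_lit 286753) (nat_lit 10) (.e (nat_lit 344168) (nat_lit 40) (.e (nat_lit 671784) (nat_lit 14) (.e (nat_lit 1146) (nat_lit 85) .nil))))))) (.g (nat_lit 5) .nil .nil)))) (.nd (nat_lit 5) 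
(.lf (nat_lit 142805) (.g (nat_lit 2987) (.e (nat_lit 40997) (nat_lit 11) (.e (nat_lit 24617) (nat_lit 7) (.e (nat_lit 319532) (nat_lit 16) (.e (nat_lit 286759) (nat_lit 12) (.e (nat_lit 385115) (nat_lit 53) (.e (nat_lit 811045) (nat_lit 14) .nil)))))) (.g (nat_lit 0) .nil .nil))) 
(.lf (nat_lit 142837) (.g (nat_lit 1299) (.e (nat_lit 40997) (nat_lit 11) (.e (nat_lit 24617) (nat_lit 7) (.e (nat_lit 319533) (nat_lit 16) (.e (nat_lit 286758) (nat_lit 12) .nil)))) .nil)))) (.nd (nat_lit 4) (.nd (nat_lit 5) 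
(.lf (nat_lit 142797) (.g (nat_lit 3267) (.e (nat_lit 40997) (nat_lit 11) (.e (nat_lit 24617) (nat_lit 7) (.e (nat_lit 319532) (nat_lit 16) (.e (nat_lit 286759) (nat_lit 12) (.e (nat_lit 385094) (nat_lit 49) (.e (nat_lit 778510) (nat_lit 14) (.e (nat_lit 1146) (nat_lit 85) .nil))))))) (.g (nat_lit 5) .nil .nil))) 
(.lf (nat_lit 142829) (.g (nat_lit 3086) (.e (nat_lit 40997) (nat_lit 11) (.e (nat_lit 24617) (nat_lit 7) (.e (nat_lit 319533) (nat_lit 16) (.e (nat_lit 286753) (nat_lit 10) (.e (nat_lit 344169) (nat_lit 40) (.e (nat_lit 671785) (nat_lit 14) (.e (nat_lit 1146) (nat_lit 85) .nil))))))) (.g (nat_lit 5) .nil .nil)))) (.nd (nat_lit 5) 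
(.lf (nat_lit 142813) (.g (nat_lit 3068) (.e (nat_lit 40997) (nat_lit 11) (.e (nat_lit 24617) (nat_lit 7) (.e (nat_lit 319533) (nat_lit 16) (.e (nat_lit 286753) (nat_lit 10) (.e (nat_lit 344160) (nat_lit 37) (.e (nat_lit 647203) (nat_lit 14) (.e (nat_lit 7936) (nat_lit 161) .nil))))))) (.g (nat_lit 6) .nil .nil))) 
(.lf (nat_lit 142845) (.g (nat_lit 2080) (.e (nat_lit 40997) (nat_lit 11) (.e (nat_lit 24617) (nat_lit 7) (.e (nat_lit 319533) (nat_lit 16) (.e (nat_lit 286759) (nat_lit 12) (.e (nat_lit 385092) (nat_lit 49) .nil))))) .nil)))))) (.nd (nat_lit 2) (.nd (nat_lit 3) (.nd (nat_lit 4) (.nd (nat_lit 5) 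
(.lf (nat_lit 142787) (.g (nat_lit 2833) (.e (nat_lit 40997) (nat_lit 11) (.e (nat_lit 24617) (nat_lit 7) (.e (nat_lit 319531) (nat_lit 16) (.e (nat_lit 286759) (nat_lit 12) (.e (nat_lit 385115) (nat_lit 53) (.e (nat_lit 818944) (nat_lit 14) .nil)))))) (.g (nat_lit 5) .nil .nil))) 
(.lf (nat_lit 142819) (.g (nat_lit 2850) (.e (nat_lit 40997) (nat_lit 11) (.e (nat_lit 24617) (nat_lit 7) (.e (nat_lit 319533) (nat_lit 16) (.e (nat_lit 286753) (nat_lit 10) (.e (nat_lit 344160) (nat_lit 37) (.e (nat_lit 655104) (nat_lit 14) (.e (nat_lit 2585) (nat_lit 161) .nil))))))) (.g (nat_lit 5) .nil .nil)))) (.nd (nat_lit 5) 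
(.lf (nat_lit 142803) (.g (nat_lit 3348) (.e (nat_lit 40997) (nat_lit 11) (.e (nat_lit 24617) (nat_lit 7) (.e (nat_lit 319532) (nat_lit 16) (.e (nat_lit 286759) (nat_lit 12) (.e (nat_lit 385094) (nat_lit 49) (.e (nat_lit 778548) (nat_lit 14) (.e (nat_lit 1150) (nat_lit 85) .nil))))))) (.g (nat_lit 5) .nil .nil))) 
(.lf (nat_lit 142835) (.g (nat_lit 2109) (.e (nat_lit 40997) (nat_lit 11) (.e (nat_lit 24617) (nat_lit 7) (.e (nat_lit 319533) (nat_lit 16) (.e (nat_lit 286753) (nat_lit 10) (.e (nat_lit 344169) (nat_lit 40) (.e (nat_lit 679680) (nat_lit 14) (.e (nat_lit 1154) (nat_lit 85) .nil))))))) (.g (nat_lit 4) .nil .nil))))) (.nd (nat_lit 4) (.nd (nat_lit 5) 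
(.lf (nat_lit 142795) (.g (nat_lit 1644) (.e (nat_lit 40997) (nat_lit 11) (.e (nat_lit 24617) (nat_lit 7) (.e (nat_lit 319532) (nat_lit 16) (.e (nat_lit 286759) (nat_lit 12) (.e (nat_lit 385093) (nat_lit 49) .nil))))) .nil)) 
(.lf (nat_lit 142827) (.g (nat_lit 2610) (.e (nat_lit 40997) (nat_lit 11) (.e (nat_lit 24617) (nat_lit 7) (.e (nat_lit 319533) (nat_lit 16) (.e (nat_lit 286753) (nat_lit 10) (.e (nat_lit 344168) (nat_lit 40) (.e (nat_lit 679680) (nat_lit 14) (.e (nat_lit 1156) (nat_lit 85) .nil))))))) (.g (nat_lit 5) .nil .nil)))) (.nd (nat_lit 5) 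
(.lf (nat_lit 142811) (.g (nat_lit 1935) (.e (nat_lit 40997) (nat_lit 11) (.e (nat_lit 24617) (nat_lit 7) (.e (nat_lit 319533) (nat_lit 16) (.e (nat_lit 286753) (nat_lit 10) (.e (nat_lit 344088) (nat_lit 18) (.e (nat_lit 5560) (nat_lit 307) (.e (nat_lit 8206) (nat_lit 3) .nil))))))) (.g (nat_lit 4) .nil .nil))) 
(.lf (nat_lit 142843) (.g (nat_lit 3077) (.e (nat_lit 40997) (nat_lit 11) (.e (nat_lit 24617) (nat_lit 7) (.e (nat_lit 319533) (nat_lit 16) (.e (nat_lit 286758) (nat_lit 12) (.e (nat_lit 385094) (nat_lit 49) (.e (nat_lit 778548) (nat_lit 14) (.e (nat_lit 1150) (nat_lit 85) .nil))))))) (.g (nat_lit 5) .nil .nil)))))) (.nd (nat_lit 3) (.nd (nat_lit 4) (.nd (nat_lit 5) 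
(.lf (nat_lit 142791) (.g (nat_lit 2048) (.e (nat_lit 40997) (nat_lit 11) (.e (nat_lit 24617) (nat_lit 7) (.e (nat_lit 319532) (nat_lit 16) (.e (nat_lit 286759) (nat_lit 12) (.e (nat_lit 385092) (nat_lit 49) (.e (nat_lit 778506) (nat_lit 14) (.e (nat_lit 1151) (nat_lit 85) .nil))))))) (.g (nat_lit 4) .nil .nil))) 
(.lf (nat_lit 142823) (.g (nat_lit 2477) (.e (nat_lit 40997) (nat_lit 11) (.e (nat_lit 24617) (nat_lit 7) (.e (nat_lit 319533) (nat_lit 16) (.e (nat_lit 286753) (nat_lit 10) (.e (nat_lit 344168) (nat_lit 40) (.e (nat_lit 671786) (nat_lit 14) (.e (nat_lit 1149) (nat_lit 85) .nil))))))) (.g (nat_lit 5) .nil .nil)))) (.nd (nat_lit 5) 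
(.lf (nat_lit 142807) (.g (nat_lit 1659) (.e (nat_lit 40997) (nat_lit 11) (.e (nat_lit 24617) (nat_lit 7) (.e (nat_lit 319533) (nat_lit 16) (.e (nat_lit 286746) (nat_lit 9) .nil)))) .nil)) 
(.lf (nat_lit 142839) (.g (nat_lit 3084) (.e (nat_lit 40997) (nat_lit 11) (.e (nat_lit 24617) (nat_lit 7) (.e (nat_lit 319533) (nat_lit 16) (.e (nat_lit 286758) (nat_lit 12) (.e (nat_lit 385093) (nat_lit 49) (.e (nat_lit 778510) (nat_lit 14) (.e (nat_lit 1149) (nat_lit 85) .nil))))))) (.g (nat_lit 5) .nil .nil))))) (.nd (nat_lit 4) (.nd (nat_lit 5) 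
(.lf (nat_lit 142799) (.g (nat_lit 3199) (.e (nat_lit 40997) (nat_lit 11) (.e (nat_lit 24617) (nat_lit 7) (.e (nat_lit 319532) (nat_lit 16) (.e (nat_lit 286759) (nat_lit 12) (.e (nat_lit 385094) (nat_lit 49) (.e (nat_lit 778510) (nat_lit 14) (.e (nat_lit 1150) (nat_lit 85) .nil))))))) (.g (nat_lit 5) .nil .nil))) 
(.lf (nat_lit 142831) (.g (nat_lit 3022) (.e (nat_lit 40997) (nat_lit 11) (.e (nat_lit 24617) (nat_lit 7) (.e (nat_lit 319533) (nat_lit 16) (.e (nat_lit 286753) (nat_lit 10) (.e (nat_lit 344169) (nat_lit 40) (.e (nat_lit 671789) (nat_lit 14) (.e (nat_lit 1146) (nat_lit 85) .nil))))))) (.g (nat_lit 5) .nil .nil)))) (.nd (nat_lit 5) 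
(.lf (nat_lit 142815) (.g (nat_lit 3092) (.e (nat_lit 40997) (nat_lit 11) (.e (nat_lit 24617) (nat_lit 7) (.e (nat_lit 319533) (nat_lit 16) (.e (nat_lit 286753) (nat_lit 10) (.e (nat_lit 344160) (nat_lit 37) (.e (nat_lit 655104) (nat_lit 14) (.e (nat_lit 2576) (nat_lit 161) .nil))))))) (.g (nat_lit 5) .nil .nil))) 
(.lf (nat_lit 142847) (.g (nat_lit 3416) (.e (nat_lit 40997) (nat_lit 11) (.e (nat_lit 24617) (nat_lit 7) (.e (nat_lit 319533) (nat_lit 16) (.e (nat_lit 286759) (nat_lit 12) (.e (nat_lit 385093) (nat_lit 49) (.e (nat_lit 778510) (nat_lit 14) (.e (nat_lit 1146) (nat_lit 85) .nil))))))) (.g (nat_lit 5) .nil .nil)))))))))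

noncomputable def tv1895 : DT := (.nd (nat_lit 0) (.nd (nat_lit 1) (.nd (nat_lit 2) (.nd (nat_lit 3) (.nd (nat_lit 4) (.nd (nat_lit 5) (.nd (nat_lit 6) 
(.lf (nat_lit 142848) (.g (nat_lit 3043) (.e (nat_lit 40997) (nat_lit 11) (.e (nat_lit 24617) (nat_lit 7) (.e (nat_lit 319533) (nat_lit 16) (.e (nat_lit 286759) (nat_lit 12) (.e (nat_lit 385093) (nat_lit 49) (.e (nat_lit 778510) (nat_lit 14) (.e (nat_lit 1149) (nat_lit 85) .nil))))))) (.g (nat_lit 5) .nil .nil))) 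
(.lf (nat_lit 142912) (.g (nat_lit 1487) (.e (nat_lit 40997) (nat_lit 11) (.e (nat_lit 24628) (nat_lit 9) (.e (nat_lit 336438) (nat_lit 31) (.e (nat_lit 458769) (nat_lit 16) (.e (nat_lit 164271) (nat_lit 221) (.e (nat_lit 7936) (nat_lit 161) .nil)))))) (.g (nat_lit 5) .nil .nil)))) (.nd (nat_lit 6) 
(.lf (nat_lit 142880) (.g (nat_lit 2385) (.e (nat_lit 40997) (nat_lit 11) (.e (nat_lit 24617) (nat_lit 7) (.e (nat_lit 319534) (nat_lit 16) (.e (nat_lit 286759) (nat_lit 12) (.e (nat_lit 385092) (nat_lit 49) (.e (nat_lit 778500) (nat_lit 14) (.e (nat_lit 1154) (nat_lit 85) .nil))))))) (.g (nat_lit 4) .nil .nil))) 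
(.lf (nat_lit 142944) (.g (nat_lit 851) (.e (nat_lit 40997) (nat_lit 11) (.e (nat_lit 24661) (nat_lit 14) (.e (nat_lit 401454) (nat_lit 12) .nil))) .nil)))) (.nd (nat_lit 5) (.nd (nat_lit 6) 
(.lf (nat_lit 142864) (.g (nat_lit 2538) (.e (nat_lit 40997) (nat_lit 11) (.e (nat_lit 24617) (nat_lit 7) (.e (nat_lit 319534) (nat_lit 16) (.e (nat_lit 286756) (nat_lit 10) (.e (nat_lit 344160) (nat_lit 37) (.e (nat_lit 655104) (nat_lit 14) (.e (nat_lit 2585) (nat_lit 161) .nil))))))) (.g (nat_lit 5) .nil .nil))) 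
(.lf (nat_lit 142928) (.g (nat_lit 956) (.e (nat_lit 40997) (nat_lit 11) (.e (nat_lit 24655) (nat_lit 13) (.e (nat_lit 393283) (nat_lit 24) .nil))) .nil))) (.nd (nat_lit 6) 
(.lf (nat_lit 142896) (.g (nat_lit 2044) (.e (nat_lit 40997) (nat_lit 11) (.e (nat_lit 24623) (nat_lit 9) (.e (nat_lit 336048) (nat_lit 6) (.e (nat_lit 147496) (nat_lit 11) (.e (nat_lit 24584) (nat_lit 0) (.e (nat_lit 6113) (nat_lit 332) (.e (nat_lit 2584) (nat_lit 161) .nil))))))) (.g (nat_lit 4) .nil .nil))) 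
(.lf (nat_lit 142960) (.g (nat_lit 707) (.e (nat_lit 49156) (nat_lit 0) (.e (nat_lit 3011) (nat_lit 187) (.e (nat_lit 458496) (nat_lit 9) (.e (nat_lit 565268) (nat_lit 5) (.e (nat_lit 73789) (nat_lit 45) (.e (nat_lit 1163) (nat_lit 86) .nil)))))) (.g (nat_lit 5) .nil .nil)))))) (.nd (nat_lit 4) (.nd (nat_lit 5) (.nd (nat_lit 6) 
(.lf (nat_lit 142856) (.g (nat_lit 1999) (.e (nat_lit 40997) (nat_lit 11) (.e (nat_lit 24617) (nat_lit 7) (.e (nat_lit 319534) (nat_lit 16) (.e (nat_lit 286749) (nat_lit 9) (.e (nat_lit 335997) (nat_lit 1) .nil))))) .nil)) 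
(.lf (nat_lit 142920) (.g (nat_lit 1532) (.e (nat_lit 40997) (nat_lit 11) (.e (nat_lit 24640) (nat_lit 10) (.e (nat_lit 344177) (nat_lit 43) (.e (nat_lit 770072) (nat_lit 8) .nil)))) .nil))) (.nd (nat_lit 6) 
(.lf (nat_lit 142888) (.g (nat_lit 3108) (.e (nat_lit 40997) (nat_lit 11) (.e (nat_lit 24617) (nat_lit 7) (.e (nat_lit 319534) (nat_lit 16) (.e (nat_lit 286759) (nat_lit 12) (.e (nat_lit 385094) (nat_lit 49) (.e (nat_lit 778503) (nat_lit 14) (.e (nat_lit 1146) (nat_lit 85) .nil))))))) (.g (nat_lit 5) .nil .nil))) 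
(.lf (nat_lit 142952) (.g (nat_lit 2055) (.e (nat_lit 41000) (nat_lit 12) (.e (nat_lit 163975) (nat_lit 30) (.e (nat_lit 573471) (nat_lit 11) (.e (nat_lit 16466) (nat_lit 13) .nil)))) .nil)))) (.nd (nat_lit 5) (.nd (nat_lit 6) 
(.lf (nat_lit 142872) (.g (nat_lit 2204) (.e (nat_lit 40997) (nat_lit 11) (.e (nat_lit 24617) (nat_lit 7) (.e (nat_lit 319534) (nat_lit 16) (.e (nat_lit 286756) (nat_lit 10) (.e (nat_lit 344169) (nat_lit 40) (.e (nat_lit 671786) (nat_lit 14) (.e (nat_lit 1146) (nat_lit 85) .nil))))))) (.g (nat_lit 4) .nil .nil))) 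
(.lf (nat_lit 142936) (.g (nat_lit 1918) (.e (nat_lit 40997) (nat_lit 11) (.e (nat_lit 24658) (nat_lit 13) (.e (nat_lit 393260) (nat_lit 21) (.e (nat_lit 409616) (nat_lit 10) .nil)))) .nil))) (.nd (nat_lit 6) 
(.lf (nat_lit 142904) (.g (nat_lit 899) (.e (nat_lit 40997) (nat_lit 11) (.e (nat_lit 24624) (nat_lit 9) (.e (nat_lit 336438) (nat_lit 31) (.e (nat_lit 458769) (nat_lit 16) (.e (nat_lit 164271) (nat_lit 221) .nil))))) .nil)) 
(.lf (nat_lit 142968) (.g (nat_lit 842) (.e (nat_lit 57088) (nat_lit 0) (.e (nat_lit 352) (nat_lit 28) (.e (nat_lit 393301) (nat_lit 27) (.e (nat_lit 491560) (nat_lit 10) .nil)))) .nil)))))) (.nd (nat_lit 3) (.nd (nat_lit 4) (.nd (nat_lit 5) (.nd (nat_lit 6) 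
(.lf (nat_lit 142852) (.g (nat_lit 2072) (.e (nat_lit 40997) (nat_lit 11) (.e (nat_lit 24617) (nat_lit 7) (.e (nat_lit 319533) (nat_lit 16) (.e (nat_lit 286759) (nat_lit 12) (.e (nat_lit 385111) (nat_lit 53) .nil))))) .nil)) 
(.lf (nat_lit 142916) (.g (nat_lit 2082) (.e (nat_lit 40997) (nat_lit 11) (.e (nat_lit 24632) (nat_lit 9) (.e (nat_lit 336048) (nat_lit 6) (.e (nat_lit 147496) (nat_lit 11) (.e (nat_lit 24584) (nat_lit 0) (.e (nat_lit 6097) (nat_lit 332) (.e (nat_lit 2584) (nat_lit 161) .nil))))))) (.g (nat_lit 5) .nil .nil)))) (.nd (nat_lit 6) 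
(.lf (nat_lit 142884) (.g (nat_lit 1681) (.e (nat_lit 40997) (nat_lit 11) (.e (nat_lit 24617) (nat_lit 7) (.e (nat_lit 319534) (nat_lit 16) (.e (nat_lit 286759) (nat_lit 12) (.e (nat_lit 385093) (nat_lit 49) .nil))))) .nil)) 
(.lf (nat_lit 142948) (.g (nat_lit 2312) (.e (nat_lit 40999) (nat_lit 12) (.e (nat_lit 163962) (nat_lit 25) (.e (nat_lit 532567) (nat_lit 16) (.e (nat_lit 401459) (nat_lit 13) (.e (nat_lit 483354) (nat_lit 17) .nil))))) .nil)))) (.nd (nat_lit 5) (.nd (nat_lit 6) 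
(.lf (nat_lit 142868) (.g (nat_lit 2023) (.e (nat_lit 40997) (nat_lit 11) (.e (nat_lit 24617) (nat_lit 7) (.e (nat_lit 319534) (nat_lit 16) (.e (nat_lit 286756) (nat_lit 10) (.e (nat_lit 344168) (nat_lit 40) (.e (nat_lit 679680) (nat_lit 14) (.e (nat_lit 1150) (nat_lit 85) .nil))))))) (.g (nat_lit 4) .nil .nil))) 
(.lf (nat_lit 142932) (.g (nat_lit 874) (.e (nat_lit 40997) (nat_lit 11) (.e (nat_lit 24655) (nat_lit 13) (.e (nat_lit 393301) (nat_lit 27) .nil))) .nil))) (.nd (nat_lit 6) 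
(.lf (nat_lit 142900) (.g (nat_lit 2316) (.e (nat_lit 40997) (nat_lit 11) (.e (nat_lit 24623) (nat_lit 9) (.e (nat_lit 336369) (nat_lit 27) (.e (nat_lit 426173) (nat_lit 7) (.e (nat_lit 409617) (nat_lit 10) (.e (nat_lit 4926) (nat_lit 287) (.e (nat_lit 2584) (nat_lit 161) .nil))))))) (.g (nat_lit 4) .nil .nil))) 
(.lf (nat_lit 142964) (.g (nat_lit 1423) (.e (nat_lit 49157) (nat_lit 0) (.e (nat_lit 3011) (nat_lit 187) (.e (nat_lit 450584) (nat_lit 9) (.e (nat_lit 565268) (nat_lit 5) (.e (nat_lit 73792) (nat_lit 45) (.e (nat_lit 1162) (nat_lit 86) .nil)))))) (.g (nat_lit 0) .nil .nil)))))) (.nd (nat_lit 4) (.nd (nat_lit 5) (.nd (nat_lit 6) 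
(.lf (nat_lit 142860) (.g (nat_lit 2494) (.e (nat_lit 40997) (nat_lit 11) (.e (nat_lit 24617) (nat_lit 7) (.e (nat_lit 319534) (nat_lit 16) (.e (nat_lit 286756) (nat_lit 10) (.e (nat_lit 344160) (nat_lit 37) (.e (nat_lit 655104) (nat_lit 14) (.e (nat_lit 2574) (nat_lit 161) .nil))))))) (.g (nat_lit 5) .nil .nil))) 
(.lf (nat_lit 142924) (.g (nat_lit 1755) (.e (nat_lit 40997) (nat_lit 11) (.e (nat_lit 24654) (nat_lit 13) (.e (nat_lit 393260) (nat_lit 21) (.e (nat_lit 409636) (nat_lit 14) (.e (nat_lit 270348) (nat_lit 3) .nil))))) .nil))) (.nd (nat_lit 6) 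
(.lf (nat_lit 142892) (.g (nat_lit 2943) (.e (nat_lit 40997) (nat_lit 11) (.e (nat_lit 24617) (nat_lit 7) (.e (nat_lit 319534) (nat_lit 16) (.e (nat_lit 286759) (nat_lit 12) (.e (nat_lit 385094) (nat_lit 49) (.e (nat_lit 778548) (nat_lit 14) (.e (nat_lit 1149) (nat_lit 85) .nil))))))) (.g (nat_lit 6) .nil .nil))) 
(.lf (nat_lit 142956) (.g (nat_lit 1668) (.e (nat_lit 49155) (nat_lit 0) (.e (nat_lit 3062) (nat_lit 190) (.e (nat_lit 475157) (nat_lit 21) (.e (nat_lit 7261) (nat_lit 384) (.e (nat_lit 57371) (nat_lit 2) .nil))))) .nil)))) (.nd (nat_lit 5) (.nd (nat_lit 6) 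
(.lf (nat_lit 142876) (.g (nat_lit 2183) (.e (nat_lit 40997) (nat_lit 11) (.e (nat_lit 24617) (nat_lit 7) (.e (nat_lit 319534) (nat_lit 16) (.e (nat_lit 286756) (nat_lit 10) (.e (nat_lit 344169) (nat_lit 40) (.e (nat_lit 679680) (nat_lit 14) (.e (nat_lit 1156) (nat_lit 85) .nil))))))) (.g (nat_lit 4) .nil .nil))) 
(.lf (nat_lit 142940) (.g (nat_lit 1865) (.e (nat_lit 40997) (nat_lit 11) (.e (nat_lit 24658) (nat_lit 13) (.e (nat_lit 393260) (nat_lit 21) (.e (nat_lit 409636) (nat_lit 14) .nil)))) .nil))) (.nd (nat_lit 6) 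
(.lf (nat_lit 142908) (.g (nat_lit 1635) (.e (nat_lit 40997) (nat_lit 11) (.e (nat_lit 24628) (nat_lit 9) (.e (nat_lit 336369) (nat_lit 27) (.e (nat_lit 426173) (nat_lit 7) .nil)))) .nil)) 
(.lf (nat_lit 142972) (.g (nat_lit 298) (.e (nat_lit 57088) (nat_lit 6) (.e (nat_lit 188431) (nat_lit 20) (.e (nat_lit 3282) (nat_lit 200) .nil))) .nil))))))) (.nd (nat_lit 2) (.nd (nat_lit 3) (.nd (nat_lit 4) (.nd (nat_lit 5) (.nd (nat_lit 6) 
(.lf (nat_lit 142850) (.g (nat_lit 3454) (.e (nat_lit 40997) (nat_lit 11) (.e (nat_lit 24617) (nat_lit 7) (.e (nat_lit 319533) (nat_lit 16) (.e (nat_lit 286759) (nat_lit 12) (.e (nat_lit 385093) (nat_lit 49) (.e (nat_lit 778510) (nat_lit 14) (.e (nat_lit 1151) (nat_lit 85) .nil))))))) (.g (nat_lit 5) .nil .nil))) 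
(.lf (nat_lit 142914) (.g (nat_lit 2340) (.e (nat_lit 40997) (nat_lit 11) (.e (nat_lit 24631) (nat_lit 9) (.e (nat_lit 336046) (nat_lit 6) (.e (nat_lit 147496) (nat_lit 11) (.e (nat_lit 24584) (nat_lit 0) (.e (nat_lit 6113) (nat_lit 332) (.e (nat_lit 2584) (nat_lit 161) .nil))))))) (.g (nat_lit 5) .nil .nil)))) (.nd (nat_lit 6) 
(.lf (nat_lit 142882) (.g (nat_lit 2825) (.e (nat_lit 40997) (nat_lit 11) (.e (nat_lit 24617) (nat_lit 7) (.e (nat_lit 319534) (nat_lit 16) (.e (nat_lit 286759) (nat_lit 12) (.e (nat_lit 385092) (nat_lit 49) (.e (nat_lit 778510) (nat_lit 14) (.e (nat_lit 1146) (nat_lit 85) .nil))))))) (.g (nat_lit 5) .nil .nil))) 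
(.lf (nat_lit 142946) (.g (nat_lit 2963) (.e (nat_lit 48896) (nat_lit 11) (.e (nat_lit 24660) (nat_lit 13) (.e (nat_lit 393260) (nat_lit 21) (.e (nat_lit 409616) (nat_lit 10) (.e (nat_lit 4978) (nat_lit 287) .nil))))) .nil)))) (.nd (nat_lit 5) (.nd (nat_lit 6) 
(.lf (nat_lit 142866) (.g (nat_lit 2005) (.e (nat_lit 40997) (nat_lit 11) (.e (nat_lit 24617) (nat_lit 7) (.e (nat_lit 319534) (nat_lit 16) (.e (nat_lit 286756) (nat_lit 10) (.e (nat_lit 344168) (nat_lit 40) (.e (nat_lit 671786) (nat_lit 14) (.e (nat_lit 1146) (nat_lit 85) .nil))))))) (.g (nat_lit 4) .nil .nil))) 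
(.lf (nat_lit 142930) (.g (nat_lit 2121) (.e (nat_lit 40997) (nat_lit 11) (.e (nat_lit 24655) (nat_lit 13) (.e (nat_lit 393299) (nat_lit 27) (.e (nat_lit 491544) (nat_lit 7) .nil)))) .nil))) (.nd (nat_lit 6) 
(.lf (nat_lit 142898) (.g (nat_lit 1421) (.e (nat_lit 40997) (nat_lit 11) (.e (nat_lit 24623) (nat_lit 9) (.e (nat_lit 336369) (nat_lit 27) (.e (nat_lit 426173) (nat_lit 7) .nil)))) .nil)) 
(.lf (nat_lit 142962) (.g (nat_lit 1042) (.e (nat_lit 49157) (nat_lit 0) (.e (nat_lit 3011) (nat_lit 187) (.e (nat_lit 450584) (nat_lit 9) (.e (nat_lit 565268) (nat_lit 5) (.e (nat_lit 73789) (nat_lit 45) (.e (nat_lit 1160) (nat_lit 86) .nil)))))) (.g (nat_lit 4) .nil .nil)))))) (.nd (nat_lit 4) (.nd (nat_lit 5) (.nd (nat_lit 6) 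
(.lf (nat_lit 142858) (.g (nat_lit 1688) (.e (nat_lit 40997) (nat_lit 11) (.e (nat_lit 24617) (nat_lit 7) (.e (nat_lit 319534) (nat_lit 16) (.e (nat_lit 286756) (nat_lit 10) (.e (nat_lit 344160) (nat_lit 37) .nil))))) .nil)) 
(.lf (nat_lit 142922) (.g (nat_lit 1886) (.e (nat_lit 40997) (nat_lit 11) (.e (nat_lit 24640) (nat_lit 10) (.e (nat_lit 344177) (nat_lit 43) (.e (nat_lit 770073) (nat_lit 9) .nil)))) .nil))) (.nd (nat_lit 6) 
(.lf (nat_lit 142890) (.g (nat_lit 2532) (.e (nat_lit 40997) (nat_lit 11) (.e (nat_lit 24617) (nat_lit 7) (.e (nat_lit 319534) (nat_lit 16) (.e (nat_lit 286759) (nat_lit 12) (.e (nat_lit 385094) (nat_lit 49) (.e (nat_lit 778510) (nat_lit 14) (.e (nat_lit 1149) (nat_lit 85) .nil))))))) (.g (nat_lit 5) .nil .nil))) 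
(.lf (nat_lit 142954) (.g (nat_lit 1585) (.e (nat_lit 49155) (nat_lit 0) (.e (nat_lit 2887) (nat_lit 184) (.e (nat_lit 426285) (nat_lit 10) (.e (nat_lit 434241) (nat_lit 27) (.e (nat_lit 565268) (nat_lit 5) .nil))))) .nil)))) (.nd (nat_lit 5) (.nd (nat_lit 6) 
(.lf (nat_lit 142874) (.g (nat_lit 2622) (.e (nat_lit 40997) (nat_lit 11) (.e (nat_lit 24617) (nat_lit 7) (.e (nat_lit 319534) (nat_lit 16) (.e (nat_lit 286756) (nat_lit 10) (.e (nat_lit 344169) (nat_lit 40) (.e (nat_lit 671786) (nat_lit 14) (.e (nat_lit 1150) (nat_lit 85) .nil))))))) (.g (nat_lit 5) .nil .nil))) 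
(.lf (nat_lit 142938) (.g (nat_lit 2775) (.e (nat_lit 40997) (nat_lit 11) (.e (nat_lit 24658) (nat_lit 13) (.e (nat_lit 393260) (nat_lit 21) (.e (nat_lit 409617) (nat_lit 10) (.e (nat_lit 4926) (nat_lit 287) .nil))))) .nil))) (.nd (nat_lit 6) 
(.lf (nat_lit 142906) (.g (nat_lit 2106) (.e (nat_lit 40997) (nat_lit 11) (.e (nat_lit 24626) (nat_lit 9) (.e (nat_lit 336369) (nat_lit 27) (.e (nat_lit 426173) (nat_lit 7) (.e (nat_lit 409617) (nat_lit 10) .nil))))) .nil)) 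
(.lf (nat_lit 142970) (.g (nat_lit 161) (.e (nat_lit 57088) (nat_lit 6) (.e (nat_lit 188427) (nat_lit 20) (.e (nat_lit 3282) (nat_lit 200) .nil))) .nil)))))) (.nd (nat_lit 3) (.nd (nat_lit 4) (.nd (nat_lit 5) (.nd (nat_lit 6) 
(.lf (nat_lit 142854) (.g (nat_lit 2902) (.e (nat_lit 40997) (nat_lit 11) (.e (nat_lit 24617) (nat_lit 7) (.e (nat_lit 319533) (nat_lit 16) (.e (nat_lit 286759) (nat_lit 12) (.e (nat_lit 385114) (nat_lit 53) (.e (nat_lit 811045) (nat_lit 14) .nil)))))) (.g (nat_lit 5) .nil .nil))) 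
(.lf (nat_lit 142918) (.g (nat_lit 651) (.e (nat_lit 40997) (nat_lit 11) (.e (nat_lit 24640) (nat_lit 10) (.e (nat_lit 344176) (nat_lit 43) .nil))) .nil))) (.nd (nat_lit 6) 
(.lf (nat_lit 142886) (.g (nat_lit 1412) (.e (nat_lit 40997) (nat_lit 11) (.e (nat_lit 24617) (nat_lit 7) (.e (nat_lit 319534) (nat_lit 16) (.e (nat_lit 286759) (nat_lit 12) (.e (nat_lit 385094) (nat_lit 49) .nil))))) .nil)) 
(.lf (nat_lit 142950) (.g (nat_lit 3361) (.e (nat_lit 40999) (nat_lit 12) (.e (nat_lit 164034) (nat_lit 54) (.e (nat_lit 770071) (nat_lit 8) (.e (nat_lit 65630) (nat_lit 14) (.e (nat_lit 401454) (nat_lit 12) (.e (nat_lit 475218) (nat_lit 44) (.e (nat_lit 737294) (nat_lit 3) .nil))))))) (.g (nat_lit 5) .nil .nil))))) (.nd (nat_lit 5) (.nd (nat_lit 6) 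
(.lf (nat_lit 142870) (.g (nat_lit 1658) (.e (nat_lit 40997) (nat_lit 11) (.e (nat_lit 24617) (nat_lit 7) (.e (nat_lit 319534) (nat_lit 16) (.e (nat_lit 286756) (nat_lit 10) (.e (nat_lit 344169) (nat_lit 40) .nil))))) .nil)) 
(.lf (nat_lit 142934) (.g (nat_lit 1714) (.e (nat_lit 40997) (nat_lit 11) (.e (nat_lit 24658) (nat_lit 13) (.e (nat_lit 393238) (nat_lit 17) (.e (nat_lit 6983) (nat_lit 377) .nil)))) .nil))) (.nd (nat_lit 6) 
(.lf (nat_lit 142902) (.g (nat_lit 1317) (.e (nat_lit 40997) (nat_lit 11) (.e (nat_lit 24623) (nat_lit 9) (.e (nat_lit 336438) (nat_lit 31) (.e (nat_lit 458769) (nat_lit 16) .nil)))) .nil)) 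
(.lf (nat_lit 142966) (.g (nat_lit 2081) (.e (nat_lit 49159) (nat_lit 0) (.e (nat_lit 2682) (nat_lit 168) (.e (nat_lit 204863) (nat_lit 27) (.e (nat_lit 344130) (nat_lit 26) .nil)))) .nil))))) (.nd (nat_lit 4) (.nd (nat_lit 5) (.nd (nat_lit 6) 
(.lf (nat_lit 142862) (.g (nat_lit 1796) (.e (nat_lit 40997) (nat_lit 11) (.e (nat_lit 24617) (nat_lit 7) (.e (nat_lit 319534) (nat_lit 16) (.e (nat_lit 286756) (nat_lit 10) (.e (nat_lit 344160) (nat_lit 37) (.e (nat_lit 655104) (nat_lit 14) (.e (nat_lit 2577) (nat_lit 161) .nil))))))) (.g (nat_lit 4) .nil .nil))) 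
(.lf (nat_lit 142926) (.g (nat_lit 955) (.e (nat_lit 40997) (nat_lit 11) (.e (nat_lit 24655) (nat_lit 13) (.e (nat_lit 393260) (nat_lit 21) .nil))) .nil))) (.nd (nat_lit 6) 
(.lf (nat_lit 142894) (.g (nat_lit 792) (.e (nat_lit 40997) (nat_lit 11) (.e (nat_lit 24617) (nat_lit 7) (.e (nat_lit 319535) (nat_lit 17) .nil))) .nil)) 
(.lf (nat_lit 142958) (.g (nat_lit 504) (.e (nat_lit 49156) (nat_lit 0) (.e (nat_lit 3011) (nat_lit 187) (.e (nat_lit 458496) (nat_lit 9) (.e (nat_lit 565268) (nat_lit 5) (.e (nat_lit 73788) (nat_lit 45) (.e (nat_lit 1163) (nat_lit 86) .nil)))))) (.g (nat_lit 4) .nil .nil))))) (.nd (nat_lit 5) (.nd (nat_lit 6) 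
(.lf (nat_lit 142878) (.g (nat_lit 1858) (.e (nat_lit 40997) (nat_lit 11) (.e (nat_lit 24617) (nat_lit 7) (.e (nat_lit 319534) (nat_lit 16) (.e (nat_lit 286759) (nat_lit 12) (.e (nat_lit 385092) (nat_lit 49) .nil))))) .nil)) 
(.lf (nat_lit 142942) (.g (nat_lit 2940) (.e (nat_lit 40997) (nat_lit 11) (.e (nat_lit 24658) (nat_lit 13) (.e (nat_lit 393301) (nat_lit 27) (.e (nat_lit 491544) (nat_lit 7) .nil)))) .nil))) (.nd (nat_lit 6) 
(.lf (nat_lit 142910) (.g (nat_lit 2418) (.e (nat_lit 40997) (nat_lit 11) (.e (nat_lit 24628) (nat_lit 9) (.e (nat_lit 336369) (nat_lit 27) (.e (nat_lit 426173) (nat_lit 7) (.e (nat_lit 409617) (nat_lit 10) (.e (nat_lit 4926) (nat_lit 287) (.e (nat_lit 2584) (nat_lit 161) .nil))))))) (.g (nat_lit 4) .nil .nil))) 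
(.lf (nat_lit 142974) (.g (nat_lit 1926) (.e (nat_lit 49167) (nat_lit 9) (.e (nat_lit 1183) (nat_lit 87) (.e (nat_lit 57848) (nat_lit 252) (.e (nat_lit 57407) (nat_lit 12) (.e (nat_lit 336316) (nat_lit 17) .nil))))) .nil)))))))) (.nd (nat_lit 1) (.nd (nat_lit 2) (.nd (nat_lit 3) (.nd (nat_lit 4) (.nd (nat_lit 5) (.nd (nat_lit 6) 
(.lf (nat_lit 142849) (.g (nat_lit 3513) (.e (nat_lit 40997) (nat_lit 11) (.e (nat_lit 24617) (nat_lit 7) (.e (nat_lit 319533) (nat_lit 16) (.e (nat_lit 286759) (nat_lit 12) (.e (nat_lit 385093) (nat_lit 49) (.e (nat_lit 778510) (nat_lit 14) (.e (nat_lit 1150) (nat_lit 85) .nil))))))) (.g (nat_lit 5) .nil .nil))) 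
(.lf (nat_lit 142913) (.g (nat_lit 2531) (.e (nat_lit 40997) (nat_lit 11) (.e (nat_lit 24631) (nat_lit 9) (.e (nat_lit 336046) (nat_lit 6) (.e (nat_lit 147496) (nat_lit 11) (.e (nat_lit 24584) (nat_lit 0) (.e (nat_lit 6097) (nat_lit 332) (.e (nat_lit 2584) (nat_lit 161) .nil))))))) (.g (nat_lit 5) .nil .nil)))) (.nd (nat_lit 6) 
(.lf (nat_lit 142881) (.g (nat_lit 2318) (.e (nat_lit 40997) (nat_lit 11) (.e (nat_lit 24617) (nat_lit 7) (.e (nat_lit 319534) (nat_lit 16) (.e (nat_lit 286759) (nat_lit 12) (.e (nat_lit 385092) (nat_lit 49) (.e (nat_lit 778508) (nat_lit 14) (.e (nat_lit 1150) (nat_lit 85) .nil))))))) (.g (nat_lit 4) .nil .nil))) 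
(.lf (nat_lit 142945) (.g (nat_lit 2895) (.e (nat_lit 48896) (nat_lit 11) (.e (nat_lit 24660) (nat_lit 13) (.e (nat_lit 393260) (nat_lit 21) (.e (nat_lit 409616) (nat_lit 10) (.e (nat_lit 4929) (nat_lit 287) .nil))))) .nil)))) (.nd (nat_lit 5) (.nd (nat_lit 6) 
(.lf (nat_lit 142865) (.g (nat_lit 1879) (.e (nat_lit 40997) (nat_lit 11) (.e (nat_lit 24617) (nat_lit 7) (.e (nat_lit 319534) (nat_lit 16) (.e (nat_lit 286756) (nat_lit 10) (.e (nat_lit 344168) (nat_lit 40) .nil))))) .nil)) 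
(.lf (nat_lit 142929) (.g (nat_lit 889) (.e (nat_lit 40997) (nat_lit 11) (.e (nat_lit 24655) (nat_lit 13) (.e (nat_lit 393299) (nat_lit 27) .nil))) .nil))) (.nd (nat_lit 6) 
(.lf (nat_lit 142897) (.g (nat_lit 1566) (.e (nat_lit 40997) (nat_lit 11) (.e (nat_lit 24623) (nat_lit 9) (.e (nat_lit 336048) (nat_lit 6) (.e (nat_lit 147496) (nat_lit 11) (.e (nat_lit 24617) (nat_lit 7) .nil))))) .nil)) 
(.lf (nat_lit 142961) (.g (nat_lit 651) (.e (nat_lit 49156) (nat_lit 0) (.e (nat_lit 3011) (nat_lit 187) (.e (nat_lit 458496) (nat_lit 9) (.e (nat_lit 565268) (nat_lit 5) (.e (nat_lit 73792) (nat_lit 45) (.e (nat_lit 1163) (nat_lit 86) .nil)))))) (.g (nat_lit 5) .nil .nil)))))) (.nd (nat_lit 4) (.nd (nat_lit 5) (.nd (nat_lit 6) 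
(.lf (nat_lit 142857) (.g (nat_lit 1967) (.e (nat_lit 40997) (nat_lit 11) (.e (nat_lit 24617) (nat_lit 7) (.e (nat_lit 319534) (nat_lit 16) (.e (nat_lit 286756) (nat_lit 10) (.e (nat_lit 344102) (nat_lit 18) (.e (nat_lit 5813) (nat_lit 320) (.e (nat_lit 11) (nat_lit 0) (.e (nat_lit 1151) (nat_lit 85) .nil)))))))) (.g (nat_lit 4) .nil .nil))) 
(.lf (nat_lit 142921) (.g (nat_lit 2303) (.e (nat_lit 40997) (nat_lit 11) (.e (nat_lit 24640) (nat_lit 10) (.e (nat_lit 344177) (nat_lit 43) (.e (nat_lit 770072) (nat_lit 8) (.e (nat_lit 65583) (nat_lit 7) .nil))))) .nil))) (.nd (nat_lit 6) 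
(.lf (nat_lit 142889) (.g (nat_lit 2996) (.e (nat_lit 40997) (nat_lit 11) (.e (nat_lit 24617) (nat_lit 7) (.e (nat_lit 319534) (nat_lit 16) (.e (nat_lit 286759) (nat_lit 12) (.e (nat_lit 385094) (nat_lit 49) (.e (nat_lit 778506) (nat_lit 14) (.e (nat_lit 1150) (nat_lit 85) .nil))))))) (.g (nat_lit 5) .nil .nil))) 
(.lf (nat_lit 142953) (.g (nat_lit 179) (.e (nat_lit 41009) (nat_lit 14) (.e (nat_lit 2783) (nat_lit 179) (.e (nat_lit 294954) (nat_lit 12) (.e (nat_lit 392960) (nat_lit 24) .nil)))) .nil)))) (.nd (nat_lit 5) (.nd (nat_lit 6) 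
(.lf (nat_lit 142873) (.g (nat_lit 1860) (.e (nat_lit 40997) (nat_lit 11) (.e (nat_lit 24617) (nat_lit 7) (.e (nat_lit 319534) (nat_lit 16) (.e (nat_lit 286756) (nat_lit 10) (.e (nat_lit 344169) (nat_lit 40) (.e (nat_lit 671786) (nat_lit 14) (.e (nat_lit 1149) (nat_lit 85) .nil))))))) (.g (nat_lit 4) .nil .nil))) 
(.lf (nat_lit 142937) (.g (nat_lit 3249) (.e (nat_lit 40997) (nat_lit 11) (.e (nat_lit 24658) (nat_lit 13) (.e (nat_lit 393260) (nat_lit 21) (.e (nat_lit 409616) (nat_lit 10) (.e (nat_lit 4926) (nat_lit 287) .nil))))) .nil))) (.nd (nat_lit 6) 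
(.lf (nat_lit 142905) (.g (nat_lit 1774) (.e (nat_lit 40997) (nat_lit 11) (.e (nat_lit 24625) (nat_lit 9) (.e (nat_lit 336369) (nat_lit 27) (.e (nat_lit 426173) (nat_lit 7) .nil)))) .nil)) 
(.lf (nat_lit 142969) (.g (nat_lit 374) (.e (nat_lit 57088) (nat_lit 6) (.e (nat_lit 188427) (nat_lit 20) (.e (nat_lit 3279) (nat_lit 200) (.e (nat_lit 564992) (nat_lit 5) .nil)))) .nil)))))) (.nd (nat_lit 3) (.nd (nat_lit 4) (.nd (nat_lit 5) (.nd (nat_lit 6) 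
(.lf (nat_lit 142853) (.g (nat_lit 2577) (.e (nat_lit 40997) (nat_lit 11) (.e (nat_lit 24617) (nat_lit 7) (.e (nat_lit 319533) (nat_lit 16) (.e (nat_lit 286759) (nat_lit 12) (.e (nat_lit 385113) (nat_lit 53) (.e (nat_lit 811045) (nat_lit 14) .nil)))))) (.g (nat_lit 4) .nil .nil))) 
(.lf (nat_lit 142917) (.g (nat_lit 649) (.e (nat_lit 40997) (nat_lit 11) (.e (nat_lit 24640) (nat_lit 10) (.e (nat_lit 344174) (nat_lit 42) .nil))) .nil))) (.nd (nat_lit 6) 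
(.lf (nat_lit 142885) (.g (nat_lit 3114) (.e (nat_lit 40997) (nat_lit 11) (.e (nat_lit 24617) (nat_lit 7) (.e (nat_lit 319534) (nat_lit 16) (.e (nat_lit 286759) (nat_lit 12) (.e (nat_lit 385093) (nat_lit 49) (.e (nat_lit 778510) (nat_lit 14) (.e (nat_lit 1149) (nat_lit 85) .nil))))))) (.g (nat_lit 5) .nil .nil))) 
(.lf (nat_lit 142949) (.g (nat_lit 3181) (.e (nat_lit 40999) (nat_lit 12) (.e (nat_lit 163975) (nat_lit 30) (.e (nat_lit 573471) (nat_lit 11) (.e (nat_lit 16463) (nat_lit 13) (.e (nat_lit 483370) (nat_lit 20) .nil))))) .nil)))) (.nd (nat_lit 5) (.nd (nat_lit 6) 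
(.lf (nat_lit 142869) (.g (nat_lit 2022) (.e (nat_lit 40997) (nat_lit 11) (.e (nat_lit 24617) (nat_lit 7) (.e (nat_lit 319534) (nat_lit 16) (.e (nat_lit 286756) (nat_lit 10) (.e (nat_lit 344168) (nat_lit 40) (.e (nat_lit 679680) (nat_lit 14) (.e (nat_lit 1156) (nat_lit 85) .nil))))))) (.g (nat_lit 4) .nil .nil))) 
(.lf (nat_lit 142933) (.g (nat_lit 1367) (.e (nat_lit 40997) (nat_lit 11) (.e (nat_lit 24658) (nat_lit 13) (.e (nat_lit 393234) (nat_lit 17) .nil))) .nil))) (.nd (nat_lit 6) 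
(.lf (nat_lit 142901) (.g (nat_lit 2838) (.e (nat_lit 40997) (nat_lit 11) (.e (nat_lit 24623) (nat_lit 9) (.e (nat_lit 336369) (nat_lit 27) (.e (nat_lit 426173) (nat_lit 7) (.e (nat_lit 409617) (nat_lit 10) (.e (nat_lit 4934) (nat_lit 287) (.e (nat_lit 2577) (nat_lit 161) .nil))))))) (.g (nat_lit 5) .nil .nil))) 
(.lf (nat_lit 142965) (.g (nat_lit 1369) (.e (nat_lit 49157) (nat_lit 0) (.e (nat_lit 3011) (nat_lit 187) (.e (nat_lit 450584) (nat_lit 9) (.e (nat_lit 565268) (nat_lit 5) (.e (nat_lit 73792) (nat_lit 45) (.e (nat_lit 1163) (nat_lit 86) .nil)))))) (.g (nat_lit 0) .nil .nil)))))) (.nd (nat_lit 4) (.nd (nat_lit 5) (.nd (nat_lit 6) 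
(.lf (nat_lit 142861) (.g (nat_lit 2859) (.e (nat_lit 40997) (nat_lit 11) (.e (nat_lit 24617) (nat_lit 7) (.e (nat_lit 319534) (nat_lit 16) (.e (nat_lit 286756) (nat_lit 10) (.e (nat_lit 344160) (nat_lit 37) (.e (nat_lit 655104) (nat_lit 14) (.e (nat_lit 2576) (nat_lit 161) .nil))))))) (.g (nat_lit 5) .nil .nil))) 
(.lf (nat_lit 142925) (.g (nat_lit 673) (.e (nat_lit 40997) (nat_lit 11) (.e (nat_lit 24655) (nat_lit 13) (.e (nat_lit 401152) (nat_lit 17) .nil))) .nil))) (.nd (nat_lit 6) 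
(.lf (nat_lit 142893) (.g (nat_lit 2833) (.e (nat_lit 40997) (nat_lit 11) (.e (nat_lit 24617) (nat_lit 7) (.e (nat_lit 319534) (nat_lit 16) (.e (nat_lit 286759) (nat_lit 12) (.e (nat_lit 385115) (nat_lit 53) (.e (nat_lit 818944) (nat_lit 14) .nil)))))) (.g (nat_lit 5) .nil .nil))) 
(.lf (nat_lit 142957) (.g (nat_lit 754) (.e (nat_lit 49155) (nat_lit 0) (.e (nat_lit 3062) (nat_lit 190) (.e (nat_lit 475220) (nat_lit 44) .nil))) .nil)))) (.nd (nat_lit 5) (.nd (nat_lit 6) 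
(.lf (nat_lit 142877) (.g (nat_lit 1924) (.e (nat_lit 40997) (nat_lit 11) (.e (nat_lit 24617) (nat_lit 7) (.e (nat_lit 319534) (nat_lit 16) (.e (nat_lit 286758) (nat_lit 12) .nil)))) .nil)) 
(.lf (nat_lit 142941) (.g (nat_lit 2882) (.e (nat_lit 40997) (nat_lit 11) (.e (nat_lit 24658) (nat_lit 13) (.e (nat_lit 393301) (nat_lit 27) (.e (nat_lit 491526) (nat_lit 0) .nil)))) .nil))) (.nd (nat_lit 6) 
(.lf (nat_lit 142909) (.g (nat_lit 2197) (.e (nat_lit 40997) (nat_lit 11) (.e (nat_lit 24628) (nat_lit 9) (.e (nat_lit 336369) (nat_lit 27) (.e (nat_lit 426173) (nat_lit 7) (.e (nat_lit 409617) (nat_lit 10) .nil))))) .nil)) 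
(.lf (nat_lit 142973) (.g (nat_lit 612) (.e (nat_lit 57088) (nat_lit 6) (.e (nat_lit 188434) (nat_lit 20) (.e (nat_lit 3289) (nat_lit 201) (.e (nat_lit 565268) (nat_lit 5) .nil)))) .nil))))))) (.nd (nat_lit 2) (.nd (nat_lit 3) (.nd (nat_lit 4) (.nd (nat_lit 5) (.nd (nat_lit 6) 
(.lf (nat_lit 142851) (.g (nat_lit 1950) (.e (nat_lit 40997) (nat_lit 11) (.e (nat_lit 24617) (nat_lit 7) (.e (nat_lit 319533) (nat_lit 16) (.e (nat_lit 286759) (nat_lit 12) (.e (nat_lit 385094) (nat_lit 49) .nil))))) .nil)) 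
(.lf (nat_lit 142915) (.g (nat_lit 770) (.e (nat_lit 40997) (nat_lit 11) (.e (nat_lit 24632) (nat_lit 9) (.e (nat_lit 336048) (nat_lit 6) (.e (nat_lit 147494) (nat_lit 11) (.e (nat_lit 24621) (nat_lit 8) .nil))))) .nil))) (.nd (nat_lit 6) 
(.lf (nat_lit 142883) (.g (nat_lit 2172) (.e (nat_lit 40997) (nat_lit 11) (.e (nat_lit 24617) (nat_lit 7) (.e (nat_lit 319534) (nat_lit 16) (.e (nat_lit 286759) (nat_lit 12) (.e (nat_lit 385092) (nat_lit 49) (.e (nat_lit 778510) (nat_lit 14) (.e (nat_lit 1149) (nat_lit 85) .nil))))))) (.g (nat_lit 4) .nil .nil))) 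
(.lf (nat_lit 142947) (.g (nat_lit 3022) (.e (nat_lit 48896) (nat_lit 11) (.e (nat_lit 24660) (nat_lit 13) (.e (nat_lit 393260) (nat_lit 21) (.e (nat_lit 409616) (nat_lit 10) (.e (nat_lit 4979) (nat_lit 287) .nil))))) .nil)))) (.nd (nat_lit 5) (.nd (nat_lit 6) 
(.lf (nat_lit 142867) (.g (nat_lit 2460) (.e (nat_lit 40997) (nat_lit 11) (.e (nat_lit 24617) (nat_lit 7) (.e (nat_lit 319534) (nat_lit 16) (.e (nat_lit 286756) (nat_lit 10) (.e (nat_lit 344168) (nat_lit 40) (.e (nat_lit 671786) (nat_lit 14) (.e (nat_lit 1150) (nat_lit 85) .nil))))))) (.g (nat_lit 4) .nil .nil))) 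
(.lf (nat_lit 142931) (.g (nat_lit 1746) (.e (nat_lit 40997) (nat_lit 11) (.e (nat_lit 24655) (nat_lit 13) (.e (nat_lit 393300) (nat_lit 27) (.e (nat_lit 491544) (nat_lit 7) .nil)))) .nil))) (.nd (nat_lit 6) 
(.lf (nat_lit 142899) (.g (nat_lit 2083) (.e (nat_lit 40997) (nat_lit 11) (.e (nat_lit 24623) (nat_lit 9) (.e (nat_lit 336369) (nat_lit 27) (.e (nat_lit 426173) (nat_lit 7) (.e (nat_lit 409617) (nat_lit 10) .nil))))) .nil)) 
(.lf (nat_lit 142963) (.g (nat_lit 1307) (.e (nat_lit 49157) (nat_lit 0) (.e (nat_lit 3011) (nat_lit 187) (.e (nat_lit 450584) (nat_lit 9) (.e (nat_lit 565268) (nat_lit 5) (.e (nat_lit 73791) (nat_lit 45) (.e (nat_lit 1162) (nat_lit 86) .nil)))))) (.g (nat_lit 0) .nil .nil)))))) (.nd (nat_lit 4) (.nd (nat_lit 5) (.nd (nat_lit 6) 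
(.lf (nat_lit 142859) (.g (nat_lit 3027) (.e (nat_lit 40997) (nat_lit 11) (.e (nat_lit 24617) (nat_lit 7) (.e (nat_lit 319534) (nat_lit 16) (.e (nat_lit 286756) (nat_lit 10) (.e (nat_lit 344160) (nat_lit 37) (.e (nat_lit 647204) (nat_lit 14) (.e (nat_lit 2574) (nat_lit 161) .nil))))))) (.g (nat_lit 5) .nil .nil))) 
(.lf (nat_lit 142923) (.g (nat_lit 2182) (.e (nat_lit 40997) (nat_lit 11) (.e (nat_lit 24640) (nat_lit 10) (.e (nat_lit 344179) (nat_lit 44) (.e (nat_lit 778466) (nat_lit 11) (.e (nat_lit 24584) (nat_lit 0) .nil))))) .nil))) (.nd (nat_lit 6) 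
(.lf (nat_lit 142891) (.g (nat_lit 2898) (.e (nat_lit 40997) (nat_lit 11) (.e (nat_lit 24617) (nat_lit 7) (.e (nat_lit 319534) (nat_lit 16) (.e (nat_lit 286759) (nat_lit 12) (.e (nat_lit 385094) (nat_lit 49) (.e (nat_lit 778538) (nat_lit 14) (.e (nat_lit 1146) (nat_lit 85) .nil))))))) (.g (nat_lit 5) .nil .nil))) 
(.lf (nat_lit 142955) (.g (nat_lit 1641) (.e (nat_lit 49155) (nat_lit 0) (.e (nat_lit 2887) (nat_lit 184) (.e (nat_lit 426285) (nat_lit 10) (.e (nat_lit 434241) (nat_lit 27) (.e (nat_lit 565268) (nat_lit 5) (.e (nat_lit 73792) (nat_lit 45) (.e (nat_lit 1162) (nat_lit 86) .nil))))))) (.g (nat_lit 4) .nil .nil))))) (.nd (nat_lit 5) (.nd (nat_lit 6) 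
(.lf (nat_lit 142875) (.g (nat_lit 2183) (.e (nat_lit 40997) (nat_lit 11) (.e (nat_lit 24617) (nat_lit 7) (.e (nat_lit 319534) (nat_lit 16) (.e (nat_lit 286756) (nat_lit 10) (.e (nat_lit 344169) (nat_lit 40) (.e (nat_lit 679680) (nat_lit 14) (.e (nat_lit 1150) (nat_lit 85) .nil))))))) (.g (nat_lit 4) .nil .nil))) 
(.lf (nat_lit 142939) (.g (nat_lit 2800) (.e (nat_lit 40997) (nat_lit 11) (.e (nat_lit 24658) (nat_lit 13) (.e (nat_lit 393260) (nat_lit 21) (.e (nat_lit 409617) (nat_lit 10) (.e (nat_lit 4934) (nat_lit 287) .nil))))) .nil))) (.nd (nat_lit 6) 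
(.lf (nat_lit 142907) (.g (nat_lit 263) (.e (nat_lit 40997) (nat_lit 11) (.e (nat_lit 24626) (nat_lit 9) (.e (nat_lit 336438) (nat_lit 31) .nil))) .nil)) 
(.lf (nat_lit 142971) (.g (nat_lit 347) (.e (nat_lit 57088) (nat_lit 6) (.e (nat_lit 188431) (nat_lit 20) (.e (nat_lit 3281) (nat_lit 200) .nil))) .nil)))))) (.nd (nat_lit 3) (.nd (nat_lit 4) (.nd (nat_lit 5) (.nd (nat_lit 6) 
(.lf (nat_lit 142855) (.g (nat_lit 3166) (.e (nat_lit 40997) (nat_lit 11) (.e (nat_lit 24617) (nat_lit 7) (.e (nat_lit 319533) (nat_lit 16) (.e (nat_lit 286759) (nat_lit 12) (.e (nat_lit 385115) (nat_lit 53) (.e (nat_lit 818944) (nat_lit 14) .nil)))))) (.g (nat_lit 5) .nil .nil))) 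
(.lf (nat_lit 142919) (.g (nat_lit 792) (.e (nat_lit 40997) (nat_lit 11) (.e (nat_lit 24640) (nat_lit 10) (.e (nat_lit 344177) (nat_lit 43) .nil))) .nil))) (.nd (nat_lit 6) 
(.lf (nat_lit 142887) (.g (nat_lit 3697) (.e (nat_lit 40997) (nat_lit 11) (.e (nat_lit 24617) (nat_lit 7) (.e (nat_lit 319534) (nat_lit 16) (.e (nat_lit 286759) (nat_lit 12) (.e (nat_lit 385094) (nat_lit 49) (.e (nat_lit 778498) (nat_lit 14) (.e (nat_lit 7936) (nat_lit 85) .nil))))))) (.g (nat_lit 5) .nil .nil))) 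
(.lf (nat_lit 142951) (.g (nat_lit 3181) (.e (nat_lit 41000) (nat_lit 12) (.e (nat_lit 163975) (nat_lit 30) (.e (nat_lit 573471) (nat_lit 11) (.e (nat_lit 16463) (nat_lit 13) (.e (nat_lit 483370) (nat_lit 20) .nil))))) .nil)))) (.nd (nat_lit 5) (.nd (nat_lit 6) 
(.lf (nat_lit 142871) (.g (nat_lit 2461) (.e (nat_lit 40997) (nat_lit 11) (.e (nat_lit 24617) (nat_lit 7) (.e (nat_lit 319534) (nat_lit 16) (.e (nat_lit 286756) (nat_lit 10) (.e (nat_lit 344169) (nat_lit 40) (.e (nat_lit 671784) (nat_lit 14) (.e (nat_lit 1146) (nat_lit 85) .nil))))))) (.g (nat_lit 5) .nil .nil))) 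
(.lf (nat_lit 142935) (.g (nat_lit 685) (.e (nat_lit 40997) (nat_lit 11) (.e (nat_lit 24658) (nat_lit 13) (.e (nat_lit 393260) (nat_lit 21) .nil))) .nil))) (.nd (nat_lit 6) 
(.lf (nat_lit 142903) (.g (nat_lit 2282) (.e (nat_lit 40997) (nat_lit 11) (.e (nat_lit 24624) (nat_lit 9) (.e (nat_lit 336369) (nat_lit 27) (.e (nat_lit 426173) (nat_lit 7) (.e (nat_lit 409617) (nat_lit 10) (.e (nat_lit 4934) (nat_lit 287) (.e (nat_lit 2577) (nat_lit 161) .nil))))))) (.g (nat_lit 4) .nil .nil))) 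
(.lf (nat_lit 142967) (.g (nat_lit 1136) (.e (nat_lit 57088) (nat_lit 0) (.e (nat_lit 351) (nat_lit 28) (.e (nat_lit 393301) (nat_lit 27) (.e (nat_lit 491560) (nat_lit 10) .nil)))) .nil))))) (.nd (nat_lit 4) (.nd (nat_lit 5) (.nd (nat_lit 6) 
(.lf (nat_lit 142863) (.g (nat_lit 2701) (.e (nat_lit 40997) (nat_lit 11) (.e (nat_lit 24617) (nat_lit 7) (.e (nat_lit 319534) (nat_lit 16) (.e (nat_lit 286756) (nat_lit 10) (.e (nat_lit 344160) (nat_lit 37) (.e (nat_lit 655104) (nat_lit 14) (.e (nat_lit 2583) (nat_lit 161) .nil))))))) (.g (nat_lit 5) .nil .nil))) 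
(.lf (nat_lit 142927) (.g (nat_lit 955) (.e (nat_lit 40997) (nat_lit 11) (.e (nat_lit 24655) (nat_lit 13) (.e (nat_lit 393264) (nat_lit 22) .nil))) .nil))) (.nd (nat_lit 6) 
(.lf (nat_lit 142895) (.g (nat_lit 984) (.e (nat_lit 40997) (nat_lit 11) (.e (nat_lit 24623) (nat_lit 9) (.e (nat_lit 336048) (nat_lit 6) (.e (nat_lit 147494) (nat_lit 11) .nil)))) .nil)) 
(.lf (nat_lit 142959) (.g (nat_lit 762) (.e (nat_lit 49156) (nat_lit 0) (.e (nat_lit 3011) (nat_lit 187) (.e (nat_lit 458496) (nat_lit 9) (.e (nat_lit 565268) (nat_lit 5) (.e (nat_lit 73789) (nat_lit 45) (.e (nat_lit 1162) (nat_lit 86) .nil)))))) (.g (nat_lit 5) .nil .nil))))) (.nd (nat_lit 5) (.nd (nat_lit 6) 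
(.lf (nat_lit 142879) (.g (nat_lit 1867) (.e (nat_lit 40997) (nat_lit 11) (.e (nat_lit 24617) (nat_lit 7) (.e (nat_lit 319534) (nat_lit 16) (.e (nat_lit 286759) (nat_lit 12) (.e (nat_lit 385092) (nat_lit 49) (.e (nat_lit 778500) (nat_lit 14) (.e (nat_lit 1153) (nat_lit 85) .nil))))))) (.g (nat_lit 4) .nil .nil))) 
(.lf (nat_lit 142943) (.g (nat_lit 3226) (.e (nat_lit 40997) (nat_lit 11) (.e (nat_lit 24658) (nat_lit 13) (.e (nat_lit 393301) (nat_lit 27) (.e (nat_lit 491545) (nat_lit 8) .nil)))) .nil))) (.nd (nat_lit 6) 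
(.lf (nat_lit 142911) (.g (nat_lit 2955) (.e (nat_lit 40997) (nat_lit 11) (.e (nat_lit 24628) (nat_lit 9) (.e (nat_lit 336369) (nat_lit 27) (.e (nat_lit 426173) (nat_lit 7) (.e (nat_lit 409617) (nat_lit 10) (.e (nat_lit 4934) (nat_lit 287) (.e (nat_lit 2577) (nat_lit 161) .nil))))))) (.g (nat_lit 5) .nil .nil))) 
(.lf (nat_lit 142975) (.g (nat_lit 64) (.e (nat_lit 49179) (nat_lit 9) (.e (nat_lit 444) (nat_lit 33) (.e (nat_lit 442112) (nat_lit 26) .nil))) .nil)))))))))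

noncomputable def tv1896 : DT := (.nd (nat_lit 0) (.nd (nat_lit 1) (.nd (nat_lit 2) (.nd (nat_lit 3) (.nd (nat_lit 4) (.nd (nat_lit 5) (.nd (nat_lit 6) 
(.lf (nat_lit 142976) (.g (nat_lit 1920) (.e (nat_lit 49179) (nat_lit 9) (.e (nat_lit 1234) (nat_lit 91) (.e (nat_lit 90185) (nat_lit 17) (.e (nat_lit 237594) (nat_lit 3) .nil)))) .nil)) 
(.lf (nat_lit 143040) (.g (nat_lit 808) (.e (nat_lit 49189) (nat_lit 11) (.e (nat_lit 16392) (nat_lit 0) (.e (nat_lit 6989) (nat_lit 377) (.e (nat_lit 2810) (nat_lit 180) .nil)))) .nil))) (.nd (nat_lit 6) 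
(.lf (nat_lit 143008) (.g (nat_lit 530) (.e (nat_lit 49188) (nat_lit 11) (.e (nat_lit 16435) (nat_lit 9) (.e (nat_lit 426533) (nat_lit 28) .nil))) .nil)) 
(.lf (nat_lit 143072) (.g (nat_lit 1627) (.e (nat_lit 57345) (nat_lit 0) (.e (nat_lit 1860) (nat_lit 124) (.e (nat_lit 557100) (nat_lit 13) (.e (nat_lit 172106) (nat_lit 10) (.e (nat_lit 434231) (nat_lit 23) .nil))))) .nil)))) (.nd (nat_lit 5) (.nd (nat_lit 6) 
(.lf (nat_lit 142992) (.g (nat_lit 480) (.e (nat_lit 49185) (nat_lit 11) (.e (nat_lit 16465) (nat_lit 13) (.e (nat_lit 483372) (nat_lit 21) .nil))) .nil)) 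
(.lf (nat_lit 143056) (.g (nat_lit 4087) (.e (nat_lit 57344) (nat_lit 0) (.e (nat_lit 1858) (nat_lit 124) (.e (nat_lit 557105) (nat_lit 14) (.e (nat_lit 180252) (nat_lit 10) (.e (nat_lit 573482) (nat_lit 13) (.e (nat_lit 73472) (nat_lit 18) (.e (nat_lit 204830) (nat_lit 18) (.e (nat_lit 57852) (nat_lit 252) .nil)))))))) (.g (nat_lit 5) .nil .nil)))) (.nd (nat_lit 6) 
(.lf (nat_lit 143024) (.g (nat_lit 1960) (.e (nat_lit 49188) (nat_lit 11) (.e (nat_lit 16473) (nat_lit 14) (.e (nat_lit 491584) (nat_lit 28) (.e (nat_lit 434267) (nat_lit 36) .nil)))) .nil)) 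
(.lf (nat_lit 143088) (.g (nat_lit 3015) (.e (nat_lit 57347) (nat_lit 0) (.e (nat_lit 2029) (nat_lit 140) (.e (nat_lit 688182) (nat_lit 17) (.e (nat_lit 73755) (nat_lit 8) (.e (nat_lit 557098) (nat_lit 13) (.e (nat_lit 179968) (nat_lit 20) (.e (nat_lit 114710) (nat_lit 21) (.e (nat_lit 57851) (nat_lit 252) .nil)))))))) (.g (nat_lit 5) .nil .nil)))))) 
(.nd (nat_lit 4) (.nd (nat_lit 5) (.nd (nat_lit 6) 
(.lf (nat_lit 142984) (.g (nat_lit 1625) (.e (nat_lit 49185) (nat_lit 11) (.e (nat_lit 16436) (nat_lit 9) (.e (nat_lit 426550) (nat_lit 31) (.e (nat_lit 368656) (nat_lit 14) (.e (nat_lit 57796) (nat_lit 245) (.e (nat_lit 1165) (nat_lit 86) .nil)))))) (.g (nat_lit 6) .nil .nil))) 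
(.lf (nat_lit 143048) (.g (nat_lit 2089) (.e (nat_lit 49192) (nat_lit 12) (.e (nat_lit 57476) (nat_lit 28) (.e (nat_lit 557087) (nat_lit 11) (.e (nat_lit 24660) (nat_lit 13) .nil)))) .nil))) (.nd (nat_lit 6) 
(.lf (nat_lit 143016) (.g (nat_lit 637) (.e (nat_lit 49188) (nat_lit 11) (.e (nat_lit 16466) (nat_lit 13) (.e (nat_lit 483372) (nat_lit 21) .nil))) .nil)) 
(.lf (nat_lit 143080) (.g (nat_lit 2171) (.e (nat_lit 57345) (nat_lit 0) (.e (nat_lit 5584) (nat_lit 310) (.e (nat_lit 163868) (nat_lit 2) (.e (nat_lit 196669) (nat_lit 14) (.e (nat_lit 73755) (nat_lit 8) .nil))))) .nil)))) (.nd (nat_lit 5) (.nd (nat_lit 6) 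
(.lf (nat_lit 143000) (.g (nat_lit 3857) (.e (nat_lit 49186) (nat_lit 11) (.e (nat_lit 16473) (nat_lit 14) (.e (nat_lit 491572) (nat_lit 14) (.e (nat_lit 401454) (nat_lit 12) (.e (nat_lit 475219) (nat_lit 44) .nil))))) .nil)) 
(.lf (nat_lit 143064) (.g (nat_lit 2018) (.e (nat_lit 57344) (nat_lit 0) (.e (nat_lit 5589) (nat_lit 310) (.e (nat_lit 163868) (nat_lit 2) (.e (nat_lit 196668) (nat_lit 14) (.e (nat_lit 73754) (nat_lit 8) .nil))))) .nil))) (.nd (nat_lit 6) 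
(.lf (nat_lit 143032) (.g (nat_lit 502) (.e (nat_lit 49189) (nat_lit 11) (.e (nat_lit 16392) (nat_lit 0) (.e (nat_lit 3281) (nat_lit 200) .nil))) .nil)) 
(.lf (nat_lit 143096) (.g (nat_lit 1305) (.e (nat_lit 57347) (nat_lit 0) (.e (nat_lit 2031) (nat_lit 140) (.e (nat_lit 688177) (nat_lit 16) (.e (nat_lit 65586) (nat_lit 7) .nil)))) .nil)))))) (.nd (nat_lit 3) (.nd (nat_lit 4) (.nd (nat_lit 5) (.nd (nat_lit 6) 
(.lf (nat_lit 142980) (.g (nat_lit 2383) (.e (nat_lit 49185) (nat_lit 11) (.e (nat_lit 16392) (nat_lit 0) (.e (nat_lit 3281) (nat_lit 200) (.e (nat_lit 557108) (nat_lit 15) (.e (nat_lit 196352) (nat_lit 9) .nil))))) .nil)) 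
(.lf (nat_lit 143044) (.g (nat_lit 2349) (.e (nat_lit 49189) (nat_lit 11) (.e (nat_lit 16425) (nat_lit 7) (.e (nat_lit 409649) (nat_lit 18) (.e (nat_lit 303140) (nat_lit 10) (.e (nat_lit 434275) (nat_lit 39) (.e (nat_lit 671488) (nat_lit 14) (.e (nat_lit 1164) (nat_lit 86) .nil))))))) (.g (nat_lit 4) .nil .nil)))) (.nd (nat_lit 6) 
(.lf (nat_lit 143012) (.g (nat_lit 757) (.e (nat_lit 49188) (nat_lit 11) (.e (nat_lit 16466) (nat_lit 13) (.e (nat_lit 483350) (nat_lit 17) .nil))) .nil)) 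
(.lf (nat_lit 143076) (.g (nat_lit 1696) (.e (nat_lit 57345) (nat_lit 0) (.e (nat_lit 2031) (nat_lit 140) (.e (nat_lit 688177) (nat_lit 16) (.e (nat_lit 65583) (nat_lit 7) (.e (nat_lit 319530) (nat_lit 16) .nil))))) .nil)))) (.nd (nat_lit 5) (.nd (nat_lit 6) 
(.lf (nat_lit 142996) (.g (nat_lit 2084) (.e (nat_lit 49185) (nat_lit 11) (.e (nat_lit 16465) (nat_lit 13) (.e (nat_lit 483395) (nat_lit 24) (.e (nat_lit 344156) (nat_lit 36) (.e (nat_lit 638980) (nat_lit 0) (.e (nat_lit 2590) (nat_lit 162) .nil)))))) (.g (nat_lit 4) .nil .nil))) 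
(.lf (nat_lit 143060) (.g (nat_lit 1964) (.e (nat_lit 57344) (nat_lit 0) (.e (nat_lit 1858) (nat_lit 124) (.e (nat_lit 557109) (nat_lit 15) (.e (nat_lit 188461) (nat_lit 26) .nil)))) .nil))) (.nd (nat_lit 6) 
(.lf (nat_lit 143028) (.g (nat_lit 1132) (.e (nat_lit 49189) (nat_lit 11) (.e (nat_lit 16392) (nat_lit 0) (.e (nat_lit 3277) (nat_lit 200) (.e (nat_lit 557109) (nat_lit 15) (.e (nat_lit 196352) (nat_lit 10) .nil))))) .nil)) 
(.lf (nat_lit 143092) (.g (nat_lit 1619) (.e (nat_lit 57347) (nat_lit 0) (.e (nat_lit 2031) (nat_lit 140) (.e (nat_lit 688177) (nat_lit 16) (.e (nat_lit 65583) (nat_lit 7) (.e (nat_lit 319530) (nat_lit 16) .nil))))) .nil))))) (.nd (nat_lit 4) (.nd (nat_lit 5) (.nd (nat_lit 6) 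
(.lf (nat_lit 142988) (.g (nat_lit 881) (.e (nat_lit 49185) (nat_lit 11) (.e (nat_lit 16465) (nat_lit 13) (.e (nat_lit 491264) (nat_lit 17) (.e (nat_lit 6207) (nat_lit 333) (.e (nat_lit 57789) (nat_lit 245) .nil))))) .nil)) 
(.lf (nat_lit 143052) (.g (nat_lit 2450) (.e (nat_lit 57344) (nat_lit 0) (.e (nat_lit 1858) (nat_lit 124) (.e (nat_lit 557105) (nat_lit 14) (.e (nat_lit 180251) (nat_lit 10) (.e (nat_lit 573485) (nat_lit 13) .nil))))) .nil))) (.nd (nat_lit 6) 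
(.lf (nat_lit 143020) (.g (nat_lit 1472) (.e (nat_lit 49188) (nat_lit 11) (.e (nat_lit 16466) (nat_lit 13) (.e (nat_lit 483372) (nat_lit 21) (.e (nat_lit 327424) (nat_lit 10) .nil)))) .nil)) 
(.lf (nat_lit 143084) (.g (nat_lit 2024) (.e (nat_lit 57345) (nat_lit 0) (.e (nat_lit 7125) (nat_lit 382) (.e (nat_lit 1201) (nat_lit 88) (.e (nat_lit 65569) (nat_lit 3) (.e (nat_lit 98372) (nat_lit 29) .nil))))) .nil)))) (.nd (nat_lit 5) (.nd (nat_lit 6) 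
(.lf (nat_lit 143004) (.g (nat_lit 3537) (.e (nat_lit 49187) (nat_lit 11) (.e (nat_lit 16473) (nat_lit 14) (.e (nat_lit 491560) (nat_lit 10) (.e (nat_lit 344160) (nat_lit 37) (.e (nat_lit 647190) (nat_lit 9) (.e (nat_lit 1005) (nat_lit 81) (.e (nat_lit 2384) (nat_lit 155) (.e (nat_lit 811046) (nat_lit 15) .nil)))))))) (.g (nat_lit 4) .nil .nil))) 
(.lf (nat_lit 143068) (.g (nat_lit 1967) (.e (nat_lit 57344) (nat_lit 0) (.e (nat_lit 7125) (nat_lit 382) (.e (nat_lit 1201) (nat_lit 88) (.e (nat_lit 65569) (nat_lit 3) (.e (nat_lit 98359) (nat_lit 26) .nil))))) .nil))) (.nd (nat_lit 6) 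
(.lf (nat_lit 143036) (.g (nat_lit 2330) (.e (nat_lit 49189) (nat_lit 11) (.e (nat_lit 16392) (nat_lit 0) (.e (nat_lit 3281) (nat_lit 200) (.e (nat_lit 557108) (nat_lit 15) (.e (nat_lit 196352) (nat_lit 10) (.e (nat_lit 327712) (nat_lit 13) .nil)))))) (.g (nat_lit 4) .nil .nil))) 
(.lf (nat_lit 143100) (.g (nat_lit 4111) (.e (nat_lit 57347) (nat_lit 0) (.e (nat_lit 2031) (nat_lit 140) (.e (nat_lit 688177) (nat_lit 16) (.e (nat_lit 65586) (nat_lit 7) (.e (nat_lit 319531) (nat_lit 16) (.e (nat_lit 286748) (nat_lit 9) (.e (nat_lit 335886) (nat_lit 0) (.e (nat_lit 970) (nat_lit 81) (.e (nat_lit 5954) (nat_lit 322) .nil))))))))) (.g (nat_lit 6) .nil .nil)))))))) 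
(.nd (nat_lit 2) (.nd (nat_lit 3) (.nd (nat_lit 4) (.nd (nat_lit 5) (.nd (nat_lit 6) 
(.lf (nat_lit 142978) (.g (nat_lit 1499) (.e (nat_lit 49185) (nat_lit 11) (.e (nat_lit 16392) (nat_lit 0) (.e (nat_lit 3279) (nat_lit 200) (.e (nat_lit 557107) (nat_lit 15) (.e (nat_lit 196352) (nat_lit 9) .nil))))) .nil)) 
(.lf (nat_lit 143042) (.g (nat_lit 2592) (.e (nat_lit 49189) (nat_lit 11) (.e (nat_lit 16425) (nat_lit 7) (.e (nat_lit 409648) (nat_lit 18) (.e (nat_lit 303137) (nat_lit 10) (.e (nat_lit 434275) (nat_lit 39) (.e (nat_lit 671488) (nat_lit 14) (.e (nat_lit 1164) (nat_lit 86) .nil))))))) (.g (nat_lit 5) .nil .nil)))) (.nd (nat_lit 6) 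
(.lf (nat_lit 143010) (.g (nat_lit 1375) (.e (nat_lit 49188) (nat_lit 11) (.e (nat_lit 16462) (nat_lit 13) (.e (nat_lit 483372) (nat_lit 21) (.e (nat_lit 319504) (nat_lit 10) .nil)))) .nil)) 
(.lf (nat_lit 143074) (.g (nat_lit 1095) (.e (nat_lit 57345) (nat_lit 0) (.e (nat_lit 1860) (nat_lit 124) (.e (nat_lit 557109) (nat_lit 15) (.e (nat_lit 188461) (nat_lit 26) .nil)))) .nil)))) (.nd (nat_lit 5) (.nd (nat_lit 6) 
(.lf (nat_lit 142994) (.g (nat_lit 822) (.e (nat_lit 49185) (nat_lit 11) (.e (nat_lit 16465) (nat_lit 13) (.e (nat_lit 483375) (nat_lit 22) .nil))) .nil)) 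
(.lf (nat_lit 143058) (.g (nat_lit 3131) (.e (nat_lit 57344) (nat_lit 0) (.e (nat_lit 1858) (nat_lit 124) (.e (nat_lit 557105) (nat_lit 14) (.e (nat_lit 180252) (nat_lit 10) (.e (nat_lit 573488) (nat_lit 14) .nil))))) .nil))) (.nd (nat_lit 6) 
(.lf (nat_lit 143026) (.g (nat_lit 464) (.e (nat_lit 49189) (nat_lit 11) (.e (nat_lit 16392) (nat_lit 0) (.e (nat_lit 3277) (nat_lit 200) .nil))) .nil)) 
(.lf (nat_lit 143090) (.g (nat_lit 1555) (.e (nat_lit 57347) (nat_lit 0) (.e (nat_lit 2031) (nat_lit 140) (.e (nat_lit 688177) (nat_lit 16) (.e (nat_lit 65553) (nat_lit 0) .nil)))) .nil))))) (.nd (nat_lit 4) (.nd (nat_lit 5) (.nd (nat_lit 6) 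
(.lf (nat_lit 142986) (.g (nat_lit 822) (.e (nat_lit 49185) (nat_lit 11) (.e (nat_lit 16465) (nat_lit 13) (.e (nat_lit 483350) (nat_lit 17) .nil))) .nil)) 
(.lf (nat_lit 143050) (.g (nat_lit 1671) (.e (nat_lit 57344) (nat_lit 0) (.e (nat_lit 1858) (nat_lit 124) (.e (nat_lit 557100) (nat_lit 13) (.e (nat_lit 172106) (nat_lit 10) .nil)))) .nil))) (.nd (nat_lit 6) 
(.lf (nat_lit 143018) (.g (nat_lit 3298) (.e (nat_lit 49188) (nat_lit 11) (.e (nat_lit 16466) (nat_lit 13) (.e (nat_lit 483372) (nat_lit 21) (.e (nat_lit 319504) (nat_lit 10) (.e (nat_lit 4963) (nat_lit 287) (.e (nat_lit 1160) (nat_lit 86) .nil)))))) (.g (nat_lit 4) .nil .nil))) 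
(.lf (nat_lit 143082) (.g (nat_lit 3225) (.e (nat_lit 57345) (nat_lit 0) (.e (nat_lit 6938) (nat_lit 375) (.e (nat_lit 163946) (nat_lit 20) (.e (nat_lit 491540) (nat_lit 3) (.e (nat_lit 98373) (nat_lit 29) (.e (nat_lit 450587) (nat_lit 10) (.e (nat_lit 573475) (nat_lit 12) .nil))))))) (.g (nat_lit 7) .nil .nil))))) (.nd (nat_lit 5) (.nd (nat_lit 6) 
(.lf (nat_lit 143002) (.g (nat_lit 1377) (.e (nat_lit 49187) (nat_lit 11) (.e (nat_lit 16435) (nat_lit 9) (.e (nat_lit 426550) (nat_lit 31) (.e (nat_lit 368656) (nat_lit 14) (.e (nat_lit 57794) (nat_lit 245) (.e (nat_lit 1159) (nat_lit 86) .nil)))))) (.g (nat_lit 0) .nil .nil))) 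
(.lf (nat_lit 143066) (.g (nat_lit 1281) (.e (nat_lit 57344) (nat_lit 0) (.e (nat_lit 6113) (nat_lit 332) (.e (nat_lit 1361) (nat_lit 102) (.e (nat_lit 286743) (nat_lit 9) .nil)))) .nil))) (.nd (nat_lit 6) 
(.lf (nat_lit 143034) (.g (nat_lit 1408) (.e (nat_lit 49189) (nat_lit 11) (.e (nat_lit 16392) (nat_lit 0) (.e (nat_lit 3281) (nat_lit 200) (.e (nat_lit 557107) (nat_lit 15) (.e (nat_lit 196352) (nat_lit 10) (.e (nat_lit 327712) (nat_lit 13) .nil)))))) (.g (nat_lit 4) .nil .nil))) 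
(.lf (nat_lit 143098) (.g (nat_lit 3771) (.e (nat_lit 57347) (nat_lit 0) (.e (nat_lit 2031) (nat_lit 140) (.e (nat_lit 688177) (nat_lit 16) (.e (nat_lit 65586) (nat_lit 7) (.e (nat_lit 319531) (nat_lit 16) (.e (nat_lit 286742) (nat_lit 9) (.e (nat_lit 336032) (nat_lit 4) (.e (nat_lit 123195) (nat_lit 266) .nil)))))))) (.g (nat_lit 5) .nil .nil))))))) 
(.nd (nat_lit 3) (.nd (nat_lit 4) (.nd (nat_lit 5) (.nd (nat_lit 6) 
(.lf (nat_lit 142982) (.g (nat_lit 634) (.e (nat_lit 49185) (nat_lit 11) (.e (nat_lit 16435) (nat_lit 9) (.e (nat_lit 426550) (nat_lit 31) .nil))) .nil)) 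
(.lf (nat_lit 143046) (.g (nat_lit 1207) (.e (nat_lit 49189) (nat_lit 11) (.e (nat_lit 24320) (nat_lit 17) (.e (nat_lit 90178) (nat_lit 15) (.e (nat_lit 188416) (nat_lit 0) (.e (nat_lit 6112) (nat_lit 332) (.e (nat_lit 1167) (nat_lit 86) .nil)))))) (.g (nat_lit 5) .nil .nil)))) (.nd (nat_lit 6) 
(.lf (nat_lit 143014) (.g (nat_lit 1379) (.e (nat_lit 49188) (nat_lit 11) (.e (nat_lit 16466) (nat_lit 13) (.e (nat_lit 483350) (nat_lit 17) (.e (nat_lit 6218) (nat_lit 333) .nil)))) .nil)) 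
(.lf (nat_lit 143078) (.g (nat_lit 2612) (.e (nat_lit 57345) (nat_lit 0) (.e (nat_lit 2031) (nat_lit 140) (.e (nat_lit 688177) (nat_lit 16) (.e (nat_lit 65586) (nat_lit 7) (.e (nat_lit 319531) (nat_lit 16) (.e (nat_lit 286748) (nat_lit 9) (.e (nat_lit 335905) (nat_lit 0) (.e (nat_lit 977) (nat_lit 81) (.e (nat_lit 5944) (nat_lit 322) .nil))))))))) (.g (nat_lit 5) .nil .nil))))) 
(.nd (nat_lit 5) (.nd (nat_lit 6) 
(.lf (nat_lit 142998) (.g (nat_lit 2654) (.e (nat_lit 49186) (nat_lit 11) (.e (nat_lit 16473) (nat_lit 14) (.e (nat_lit 491572) (nat_lit 14) (.e (nat_lit 401454) (nat_lit 12) .nil)))) .nil)) 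
(.lf (nat_lit 143062) (.g (nat_lit 2155) (.e (nat_lit 57344) (nat_lit 0) (.e (nat_lit 2031) (nat_lit 140) (.e (nat_lit 688177) (nat_lit 16) (.e (nat_lit 65586) (nat_lit 7) (.e (nat_lit 319531) (nat_lit 16) .nil))))) .nil))) (.nd (nat_lit 6) 
(.lf (nat_lit 143030) (.g (nat_lit 2232) (.e (nat_lit 49189) (nat_lit 11) (.e (nat_lit 16392) (nat_lit 0) (.e (nat_lit 3279) (nat_lit 200) (.e (nat_lit 557108) (nat_lit 15) (.e (nat_lit 196352) (nat_lit 10) (.e (nat_lit 327712) (nat_lit 13) .nil)))))) (.g (nat_lit 4) .nil .nil))) 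
(.lf (nat_lit 143094) (.g (nat_lit 3555) (.e (nat_lit 57347) (nat_lit 0) (.e (nat_lit 2031) (nat_lit 140) (.e (nat_lit 688177) (nat_lit 16) (.e (nat_lit 65583) (nat_lit 7) (.e (nat_lit 319530) (nat_lit 16) (.e (nat_lit 286748) (nat_lit 9) (.e (nat_lit 336034) (nat_lit 4) (.e (nat_lit 123196) (nat_lit 266) .nil)))))))) (.g (nat_lit 6) .nil .nil)))))) 
(.nd (nat_lit 4) (.nd (nat_lit 5) (.nd (nat_lit 6) 
(.lf (nat_lit 142990) (.g (nat_lit 1789) (.e (nat_lit 49185) (nat_lit 11) (.e (nat_lit 16465) (nat_lit 13) (.e (nat_lit 483371) (nat_lit 21) (.e (nat_lit 319524) (nat_lit 14) (.e (nat_lit 270368) (nat_lit 13) .nil))))) (.g (nat_lit 5) .nil .nil))) 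
(.lf (nat_lit 143054) (.g (nat_lit 2889) (.e (nat_lit 57344) (nat_lit 0) (.e (nat_lit 1858) (nat_lit 124) (.e (nat_lit 557105) (nat_lit 14) (.e (nat_lit 180252) (nat_lit 10) (.e (nat_lit 573481) (nat_lit 13) .nil))))) .nil))) (.nd (nat_lit 6) 
(.lf (nat_lit 143022) (.g (nat_lit 1704) (.e (nat_lit 49188) (nat_lit 11) (.e (nat_lit 16473) (nat_lit 14) (.e (nat_lit 491572) (nat_lit 14) (.e (nat_lit 401454) (nat_lit 12) .nil)))) .nil)) 
(.lf (nat_lit 143086) (.g (nat_lit 948) (.e (nat_lit 57346) (nat_lit 0) (.e (nat_lit 6203) (nat_lit 332) (.e (nat_lit 2798) (nat_lit 180) (.e (nat_lit 303145) (nat_lit 13) .nil)))) .nil)))) (.nd (nat_lit 5) (.nd (nat_lit 6) 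
(.lf (nat_lit 143006) (.g (nat_lit 4411) (.e (nat_lit 49187) (nat_lit 11) (.e (nat_lit 16473) (nat_lit 14) (.e (nat_lit 491572) (nat_lit 14) (.e (nat_lit 401454) (nat_lit 12) (.e (nat_lit 475217) (nat_lit 44) .nil))))) .nil)) 
(.lf (nat_lit 143070) (.g (nat_lit 4511) (.e (nat_lit 57344) (nat_lit 0) (.e (nat_lit 7251) (nat_lit 383) (.e (nat_lit 8210) (nat_lit 8) (.e (nat_lit 294931) (nat_lit 3) (.e (nat_lit 98373) (nat_lit 29) (.e (nat_lit 450587) (nat_lit 10) (.e (nat_lit 573475) (nat_lit 12) .nil))))))) (.g (nat_lit 7) .nil .nil)))) (.nd (nat_lit 6) 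
(.lf (nat_lit 143038) (.g (nat_lit 853) (.e (nat_lit 49189) (nat_lit 11) (.e (nat_lit 16392) (nat_lit 0) (.e (nat_lit 7936) (nat_lit 200) (.e (nat_lit 557107) (nat_lit 15) (.e (nat_lit 196352) (nat_lit 9) .nil))))) .nil)) 
(.lf (nat_lit 143102) (.g (nat_lit 2472) (.e (nat_lit 57347) (nat_lit 0) (.e (nat_lit 2031) (nat_lit 140) (.e (nat_lit 688177) (nat_lit 16) (.e (nat_lit 65586) (nat_lit 7) (.e (nat_lit 319531) (nat_lit 16) (.e (nat_lit 286748) (nat_lit 9) (.e (nat_lit 335888) (nat_lit 0) (.e (nat_lit 1051) (nat_lit 81) (.e (nat_lit 5950) (nat_lit 322) .nil))))))))) (.g (nat_lit 4) .nil .nil))))))))) 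
(.nd (nat_lit 1) (.nd (nat_lit 2) (.nd (nat_lit 3) (.nd (nat_lit 4) (.nd (nat_lit 5) 
(.nd (nat_lit 6) 
(.lf (nat_lit 142977) (.g (nat_lit 1672) (.e (nat_lit 49185) (nat_lit 11) (.e (nat_lit 16388) (nat_lit 0) (.e (nat_lit 3276) (nat_lit 200) (.e (nat_lit 557109) (nat_lit 15) (.e (nat_lit 196352) (nat_lit 9) (.e (nat_lit 319522) (nat_lit 13) .nil)))))) (.g (nat_lit 4) .nil .nil))) 
(.lf (nat_lit 143041) (.g (nat_lit 2715) (.e (nat_lit 49189) (nat_lit 11) (.e (nat_lit 16425) (nat_lit 7) (.e (nat_lit 409648) (nat_lit 18) (.e (nat_lit 303137) (nat_lit 10) (.e (nat_lit 434275) (nat_lit 39) (.e (nat_lit 671488) (nat_lit 14) (.e (nat_lit 1158) (nat_lit 86) .nil))))))) (.g (nat_lit 5) .nil .nil)))) (.nd (nat_lit 6) 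
(.lf (nat_lit 143009) (.g (nat_lit 592) (.e (nat_lit 49188) (nat_lit 11) (.e (nat_lit 16437) (nat_lit 9) (.e (nat_lit 426533) (nat_lit 28) (.e (nat_lit 344084) (nat_lit 14) (.e (nat_lit 57791) (nat_lit 245) .nil))))) .nil)) 
(.lf (nat_lit 143073) (.g (nat_lit 2562) (.e (nat_lit 57345) (nat_lit 0) (.e (nat_lit 1860) (nat_lit 124) (.e (nat_lit 557105) (nat_lit 14) (.e (nat_lit 180252) (nat_lit 10) (.e (nat_lit 573482) (nat_lit 13) .nil))))) .nil)))) (.nd (nat_lit 5) (.nd (nat_lit 6) 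
(.lf (nat_lit 142993) (.g (nat_lit 2545) (.e (nat_lit 49185) (nat_lit 11) (.e (nat_lit 16465) (nat_lit 13) (.e (nat_lit 483372) (nat_lit 21) (.e (nat_lit 319505) (nat_lit 10) (.e (nat_lit 4925) (nat_lit 287) (.e (nat_lit 1163) (nat_lit 86) .nil)))))) (.g (nat_lit 4) .nil .nil))) 
(.lf (nat_lit 143057) (.g (nat_lit 2915) (.e (nat_lit 57344) (nat_lit 0) (.e (nat_lit 1858) (nat_lit 124) (.e (nat_lit 557105) (nat_lit 14) (.e (nat_lit 180252) (nat_lit 10) (.e (nat_lit 573487) (nat_lit 14) .nil))))) .nil))) (.nd (nat_lit 6) 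
(.lf (nat_lit 143025) (.g (nat_lit 1512) (.e (nat_lit 49188) (nat_lit 11) (.e (nat_lit 24320) (nat_lit 18) (.e (nat_lit 98365) (nat_lit 26) (.e (nat_lit 426306) (nat_lit 12) (.e (nat_lit 475145) (nat_lit 16) (.e (nat_lit 1159) (nat_lit 86) .nil)))))) (.g (nat_lit 4) .nil .nil))) 
(.lf (nat_lit 143089) (.g (nat_lit 340) (.e (nat_lit 57347) (nat_lit 0) (.e (nat_lit 2031) (nat_lit 140) (.e (nat_lit 688177) (nat_lit 16) .nil))) .nil))))) (.nd (nat_lit 4) (.nd (nat_lit 5) (.nd (nat_lit 6) 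
(.lf (nat_lit 142985) (.g (nat_lit 1496) (.e (nat_lit 49185) (nat_lit 11) (.e (nat_lit 16436) (nat_lit 9) (.e (nat_lit 426550) (nat_lit 31) (.e (nat_lit 368656) (nat_lit 14) (.e (nat_lit 57796) (nat_lit 245) (.e (nat_lit 7936) (nat_lit 86) .nil)))))) (.g (nat_lit 5) .nil .nil))) 
(.lf (nat_lit 143049) (.g (nat_lit 720) (.e (nat_lit 49199) (nat_lit 14) (.e (nat_lit 1356) (nat_lit 102) (.e (nat_lit 286747) (nat_lit 9) (.e (nat_lit 336013) (nat_lit 2) (.e (nat_lit 98048) (nat_lit 2) .nil))))) .nil))) (.nd (nat_lit 6) 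
(.lf (nat_lit 143017) (.g (nat_lit 1835) (.e (nat_lit 49188) (nat_lit 11) (.e (nat_lit 16466) (nat_lit 13) (.e (nat_lit 483372) (nat_lit 21) (.e (nat_lit 319504) (nat_lit 10) .nil)))) .nil)) 
(.lf (nat_lit 143081) (.g (nat_lit 1838) (.e (nat_lit 57345) (nat_lit 0) (.e (nat_lit 5592) (nat_lit 310) (.e (nat_lit 163871) (nat_lit 2) (.e (nat_lit 196668) (nat_lit 14) (.e (nat_lit 73754) (nat_lit 8) .nil))))) .nil)))) (.nd (nat_lit 5) (.nd (nat_lit 6) 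
(.lf (nat_lit 143001) (.g (nat_lit 533) (.e (nat_lit 49187) (nat_lit 11) (.e (nat_lit 16435) (nat_lit 9) (.e (nat_lit 426533) (nat_lit 28) .nil))) .nil)) 
(.lf (nat_lit 143065) (.g (nat_lit 1966) (.e (nat_lit 57344) (nat_lit 0) (.e (nat_lit 5593) (nat_lit 310) (.e (nat_lit 163871) (nat_lit 2) (.e (nat_lit 196669) (nat_lit 14) (.e (nat_lit 73755) (nat_lit 8) .nil))))) .nil))) (.nd (nat_lit 6) 
(.lf (nat_lit 143033) (.g (nat_lit 1466) (.e (nat_lit 49189) (nat_lit 11) (.e (nat_lit 16392) (nat_lit 0) (.e (nat_lit 3281) (nat_lit 200) (.e (nat_lit 557107) (nat_lit 15) (.e (nat_lit 196352) (nat_lit 9) (.e (nat_lit 319520) (nat_lit 13) .nil)))))) (.g (nat_lit 4) .nil .nil))) 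
(.lf (nat_lit 143097) (.g (nat_lit 3552) (.e (nat_lit 57347) (nat_lit 0) (.e (nat_lit 2031) (nat_lit 140) (.e (nat_lit 688177) (nat_lit 16) (.e (nat_lit 65586) (nat_lit 7) (.e (nat_lit 319531) (nat_lit 16) (.e (nat_lit 286742) (nat_lit 9) (.e (nat_lit 336032) (nat_lit 4) (.e (nat_lit 123194) (nat_lit 266) .nil)))))))) (.g (nat_lit 5) .nil .nil))))))) 
(.nd (nat_lit 3) (.nd (nat_lit 4) (.nd (nat_lit 5) (.nd (nat_lit 6) 
(.lf (nat_lit 142981) (.g (nat_lit 1015) (.e (nat_lit 49185) (nat_lit 11) (.e (nat_lit 16433) (nat_lit 9) (.e (nat_lit 426550) (nat_lit 31) .nil))) .nil)) 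
(.lf (nat_lit 143045) (.g (nat_lit 1454) (.e (nat_lit 49189) (nat_lit 11) (.e (nat_lit 16433) (nat_lit 9) (.e (nat_lit 426550) (nat_lit 31) (.e (nat_lit 368656) (nat_lit 14) (.e (nat_lit 57796) (nat_lit 245) (.e (nat_lit 7936) (nat_lit 86) .nil)))))) (.g (nat_lit 4) .nil .nil)))) (.nd (nat_lit 6) 
(.lf (nat_lit 143013) (.g (nat_lit 2230) (.e (nat_lit 49188) (nat_lit 11) (.e (nat_lit 16466) (nat_lit 13) (.e (nat_lit 483350) (nat_lit 17) (.e (nat_lit 6109) (nat_lit 332) (.e (nat_lit 1333) (nat_lit 100) (.e (nat_lit 270368) (nat_lit 13) .nil)))))) (.g (nat_lit 4) .nil .nil))) 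
(.lf (nat_lit 143077) (.g (nat_lit 1778) (.e (nat_lit 57345) (nat_lit 0) (.e (nat_lit 2031) (nat_lit 140) (.e (nat_lit 688177) (nat_lit 16) (.e (nat_lit 65586) (nat_lit 7) (.e (nat_lit 319531) (nat_lit 16) .nil))))) .nil)))) (.nd (nat_lit 5) (.nd (nat_lit 6) 
(.lf (nat_lit 142997) (.g (nat_lit 1370) (.e (nat_lit 49185) (nat_lit 11) (.e (nat_lit 16473) (nat_lit 14) (.e (nat_lit 491572) (nat_lit 14) .nil))) .nil)) 
(.lf (nat_lit 143061) (.g (nat_lit 2422) (.e (nat_lit 57344) (nat_lit 0) (.e (nat_lit 1859) (nat_lit 124) (.e (nat_lit 557105) (nat_lit 14) (.e (nat_lit 180252) (nat_lit 10) (.e (nat_lit 573481) (nat_lit 13) .nil))))) .nil))) (.nd (nat_lit 6) 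
(.lf (nat_lit 143029) (.g (nat_lit 2208) (.e (nat_lit 49189) (nat_lit 11) (.e (nat_lit 16392) (nat_lit 0) (.e (nat_lit 3279) (nat_lit 200) (.e (nat_lit 557108) (nat_lit 15) (.e (nat_lit 196352) (nat_lit 9) (.e (nat_lit 319520) (nat_lit 13) .nil)))))) (.g (nat_lit 4) .nil .nil))) 
(.lf (nat_lit 143093) (.g (nat_lit 3454) (.e (nat_lit 57347) (nat_lit 0) (.e (nat_lit 2031) (nat_lit 140) (.e (nat_lit 688177) (nat_lit 16) (.e (nat_lit 65583) (nat_lit 7) (.e (nat_lit 319530) (nat_lit 16) (.e (nat_lit 286745) (nat_lit 9) (.e (nat_lit 335907) (nat_lit 0) (.e (nat_lit 970) (nat_lit 81) (.e (nat_lit 5954) (nat_lit 322) .nil))))))))) (.g (nat_lit 5) .nil .nil)))))) 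
(.nd (nat_lit 4) (.nd (nat_lit 5) (.nd (nat_lit 6) 
(.lf (nat_lit 142989) (.g (nat_lit 779) (.e (nat_lit 49185) (nat_lit 11) (.e (nat_lit 16465) (nat_lit 13) (.e (nat_lit 483371) (nat_lit 21) .nil))) .nil)) 
(.lf (nat_lit 143053) (.g (nat_lit 1780) (.e (nat_lit 57344) (nat_lit 0) (.e (nat_lit 1858) (nat_lit 124) (.e (nat_lit 557105) (nat_lit 14) (.e (nat_lit 180252) (nat_lit 10) .nil)))) .nil))) (.nd (nat_lit 6) 
(.lf (nat_lit 143021) (.g (nat_lit 2749) (.e (nat_lit 49188) (nat_lit 11) (.e (nat_lit 16473) (nat_lit 14) (.e (nat_lit 491560) (nat_lit 10) (.e (nat_lit 344167) (nat_lit 40) .nil)))) .nil)) 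
(.lf (nat_lit 143085) (.g (nat_lit 2070) (.e (nat_lit 57345) (nat_lit 0) (.e (nat_lit 7125) (nat_lit 382) (.e (nat_lit 1201) (nat_lit 88) (.e (nat_lit 65571) (nat_lit 3) (.e (nat_lit 98359) (nat_lit 26) .nil))))) .nil)))) (.nd (nat_lit 5) (.nd (nat_lit 6) 
(.lf (nat_lit 143005) (.g (nat_lit 1230) (.e (nat_lit 49187) (nat_lit 11) (.e (nat_lit 16473) (nat_lit 14) (.e (nat_lit 491572) (nat_lit 14) .nil))) .nil)) 
(.lf (nat_lit 143069) (.g (nat_lit 2150) (.e (nat_lit 57344) (nat_lit 0) (.e (nat_lit 7237) (nat_lit 382) (.e (nat_lit 1190) (nat_lit 88) (.e (nat_lit 65571) (nat_lit 3) (.e (nat_lit 98359) (nat_lit 26) .nil))))) .nil))) (.nd (nat_lit 6) 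
(.lf (nat_lit 143037) (.g (nat_lit 383) (.e (nat_lit 49189) (nat_lit 11) (.e (nat_lit 16392) (nat_lit 0) (.e (nat_lit 7936) (nat_lit 200) .nil))) .nil)) 
(.lf (nat_lit 143101) (.g (nat_lit 4045) (.e (nat_lit 57347) (nat_lit 0) (.e (nat_lit 2031) (nat_lit 140) (.e (nat_lit 688177) (nat_lit 16) (.e (nat_lit 65586) (nat_lit 7) (.e (nat_lit 319531) (nat_lit 16) (.e (nat_lit 286748) (nat_lit 9) (.e (nat_lit 335887) (nat_lit 0) (.e (nat_lit 970) (nat_lit 81) (.e (nat_lit 5954) (nat_lit 322) .nil))))))))) (.g (nat_lit 6) .nil .nil)))))))) 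
(.nd (nat_lit 2) (.nd (nat_lit 3) (.nd (nat_lit 4) (.nd (nat_lit 5) (.nd (nat_lit 6) 
(.lf (nat_lit 142979) (.g (nat_lit 1387) (.e (nat_lit 49185) (nat_lit 11) (.e (nat_lit 16392) (nat_lit 0) (.e (nat_lit 3281) (nat_lit 200) (.e (nat_lit 557107) (nat_lit 15) (.e (nat_lit 196352) (nat_lit 9) .nil))))) .nil)) 
(.lf (nat_lit 143043) (.g (nat_lit 2381) (.e (nat_lit 49189) (nat_lit 11) (.e (nat_lit 16425) (nat_lit 7) (.e (nat_lit 409649) (nat_lit 18) (.e (nat_lit 303140) (nat_lit 10) (.e (nat_lit 434275) (nat_lit 39) (.e (nat_lit 671488) (nat_lit 14) (.e (nat_lit 1158) (nat_lit 86) .nil))))))) (.g (nat_lit 4) .nil .nil)))) (.nd (nat_lit 6) 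
(.lf (nat_lit 143011) (.g (nat_lit 3578) (.e (nat_lit 49188) (nat_lit 11) (.e (nat_lit 16466) (nat_lit 13) (.e (nat_lit 483346) (nat_lit 17) (.e (nat_lit 6221) (nat_lit 333) (.e (nat_lit 57791) (nat_lit 245) (.e (nat_lit 1159) (nat_lit 86) .nil)))))) (.g (nat_lit 4) .nil .nil))) 
(.lf (nat_lit 143075) (.g (nat_lit 1738) (.e (nat_lit 57345) (nat_lit 0) (.e (nat_lit 2031) (nat_lit 140) (.e (nat_lit 688177) (nat_lit 16) (.e (nat_lit 65563) (nat_lit 1) .nil)))) .nil)))) (.nd (nat_lit 5) (.nd (nat_lit 6) 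
(.lf (nat_lit 142995) (.g (nat_lit 1220) (.e (nat_lit 49185) (nat_lit 11) (.e (nat_lit 16465) (nat_lit 13) (.e (nat_lit 483375) (nat_lit 22) (.e (nat_lit 327705) (nat_lit 10) .nil)))) .nil)) 
(.lf (nat_lit 143059) (.g (nat_lit 2575) (.e (nat_lit 57344) (nat_lit 0) (.e (nat_lit 1858) (nat_lit 124) (.e (nat_lit 557105) (nat_lit 14) (.e (nat_lit 180252) (nat_lit 10) (.e (nat_lit 573489) (nat_lit 14) .nil))))) .nil))) (.nd (nat_lit 6) 
(.lf (nat_lit 143027) (.g (nat_lit 1132) (.e (nat_lit 49189) (nat_lit 11) (.e (nat_lit 16392) (nat_lit 0) (.e (nat_lit 3277) (nat_lit 200) (.e (nat_lit 557109) (nat_lit 15) (.e (nat_lit 196352) (nat_lit 9) .nil))))) .nil)) 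
(.lf (nat_lit 143091) (.g (nat_lit 2122) (.e (nat_lit 57347) (nat_lit 0) (.e (nat_lit 2031) (nat_lit 140) (.e (nat_lit 688177) (nat_lit 16) (.e (nat_lit 65565) (nat_lit 1) (.e (nat_lit 57694) (nat_lit 157) .nil))))) .nil))))) (.nd (nat_lit 4) (.nd (nat_lit 5) (.nd (nat_lit 6) 
(.lf (nat_lit 142987) (.g (nat_lit 471) (.e (nat_lit 49185) (nat_lit 11) (.e (nat_lit 16465) (nat_lit 13) (.e (nat_lit 491264) (nat_lit 17) .nil))) .nil)) 
(.lf (nat_lit 143051) (.g (nat_lit 2583) (.e (nat_lit 57344) (nat_lit 0) (.e (nat_lit 1858) (nat_lit 124) (.e (nat_lit 557105) (nat_lit 14) (.e (nat_lit 180251) (nat_lit 10) (.e (nat_lit 573479) (nat_lit 13) .nil))))) .nil))) (.nd (nat_lit 6) 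
(.lf (nat_lit 143019) (.g (nat_lit 3078) (.e (nat_lit 49188) (nat_lit 11) (.e (nat_lit 16466) (nat_lit 13) (.e (nat_lit 483372) (nat_lit 21) (.e (nat_lit 319505) (nat_lit 10) (.e (nat_lit 4916) (nat_lit 287) (.e (nat_lit 1160) (nat_lit 86) .nil)))))) (.g (nat_lit 4) .nil .nil))) 
(.lf (nat_lit 143083) (.g (nat_lit 2011) (.e (nat_lit 57345) (nat_lit 0) (.e (nat_lit 7125) (nat_lit 382) (.e (nat_lit 1201) (nat_lit 88) (.e (nat_lit 65569) (nat_lit 3) (.e (nat_lit 98359) (nat_lit 26) .nil))))) .nil)))) (.nd (nat_lit 5) (.nd (nat_lit 6) 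
(.lf (nat_lit 143003) (.g (nat_lit 460) (.e (nat_lit 49187) (nat_lit 11) (.e (nat_lit 16438) (nat_lit 9) (.e (nat_lit 426533) (nat_lit 28) .nil))) .nil)) 
(.lf (nat_lit 143067) (.g (nat_lit 1993) (.e (nat_lit 57344) (nat_lit 0) (.e (nat_lit 6113) (nat_lit 332) (.e (nat_lit 1361) (nat_lit 102) (.e (nat_lit 286761) (nat_lit 13) (.e (nat_lit 393289) (nat_lit 25) .nil))))) .nil))) (.nd (nat_lit 6) 
(.lf (nat_lit 143035) (.g (nat_lit 2306) (.e (nat_lit 49189) (nat_lit 11) (.e (nat_lit 16392) (nat_lit 0) (.e (nat_lit 3281) (nat_lit 200) (.e (nat_lit 557108) (nat_lit 15) (.e (nat_lit 196352) (nat_lit 9) (.e (nat_lit 319520) (nat_lit 13) .nil)))))) (.g (nat_lit 4) .nil .nil))) 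
(.lf (nat_lit 143099) (.g (nat_lit 3521) (.e (nat_lit 57347) (nat_lit 0) (.e (nat_lit 2031) (nat_lit 140) (.e (nat_lit 688177) (nat_lit 16) (.e (nat_lit 65586) (nat_lit 7) (.e (nat_lit 319531) (nat_lit 16) (.e (nat_lit 286747) (nat_lit 9) (.e (nat_lit 336032) (nat_lit 4) (.e (nat_lit 123197) (nat_lit 266) .nil)))))))) (.g (nat_lit 5) .nil .nil))))))) 
(.nd (nat_lit 3) (.nd (nat_lit 4) (.nd (nat_lit 5) (.nd (nat_lit 6) 
(.lf (nat_lit 142983) (.g (nat_lit 1371) (.e (nat_lit 49185) (nat_lit 11) (.e (nat_lit 16435) (nat_lit 9) (.e (nat_lit 426550) (nat_lit 31) (.e (nat_lit 368656) (nat_lit 14) (.e (nat_lit 57796) (nat_lit 245) (.e (nat_lit 1165) (nat_lit 86) .nil)))))) (.g (nat_lit 4) .nil .nil))) 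
(.lf (nat_lit 143047) (.g (nat_lit 1735) (.e (nat_lit 57088) (nat_lit 11) (.e (nat_lit 16468) (nat_lit 13) (.e (nat_lit 483372) (nat_lit 21) (.e (nat_lit 319504) (nat_lit 10) .nil)))) .nil))) (.nd (nat_lit 6) 
(.lf (nat_lit 143015) (.g (nat_lit 2769) (.e (nat_lit 49188) (nat_lit 11) (.e (nat_lit 16466) (nat_lit 13) (.e (nat_lit 483350) (nat_lit 17) (.e (nat_lit 6218) (nat_lit 333) (.e (nat_lit 57786) (nat_lit 245) (.e (nat_lit 1159) (nat_lit 86) .nil)))))) (.g (nat_lit 4) .nil .nil))) 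
(.lf (nat_lit 143079) (.g (nat_lit 1938) (.e (nat_lit 57345) (nat_lit 0) (.e (nat_lit 2031) (nat_lit 140) (.e (nat_lit 688182) (nat_lit 17) (.e (nat_lit 73755) (nat_lit 8) (.e (nat_lit 557096) (nat_lit 13) .nil))))) .nil)))) (.nd (nat_lit 5) (.nd (nat_lit 6) 
(.lf (nat_lit 142999) (.g (nat_lit 4411) (.e (nat_lit 49186) (nat_lit 11) (.e (nat_lit 16473) (nat_lit 14) (.e (nat_lit 491572) (nat_lit 14) (.e (nat_lit 401454) (nat_lit 12) (.e (nat_lit 475218) (nat_lit 44) .nil))))) .nil)) 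
(.lf (nat_lit 143063) (.g (nat_lit 1834) (.e (nat_lit 57344) (nat_lit 0) (.e (nat_lit 5587) (nat_lit 310) (.e (nat_lit 163873) (nat_lit 3) (.e (nat_lit 204864) (nat_lit 27) (.e (nat_lit 344133) (nat_lit 26) .nil))))) .nil))) (.nd (nat_lit 6) 
(.lf (nat_lit 143031) (.g (nat_lit 3495) (.e (nat_lit 49189) (nat_lit 11) (.e (nat_lit 16392) (nat_lit 0) (.e (nat_lit 3279) (nat_lit 200) (.e (nat_lit 557108) (nat_lit 15) (.e (nat_lit 188446) (nat_lit 21) (.e (nat_lit 164175) (nat_lit 153) (.e (nat_lit 8207) (nat_lit 4) .nil))))))) (.g (nat_lit 6) .nil .nil))) 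
(.lf (nat_lit 143095) (.g (nat_lit 3017) (.e (nat_lit 57347) (nat_lit 0) (.e (nat_lit 2031) (nat_lit 140) (.e (nat_lit 688177) (nat_lit 16) (.e (nat_lit 65583) (nat_lit 7) (.e (nat_lit 319530) (nat_lit 16) (.e (nat_lit 286755) (nat_lit 10) (.e (nat_lit 344104) (nat_lit 18) (.e (nat_lit 5947) (nat_lit 322) .nil)))))))) (.g (nat_lit 5) .nil .nil)))))) 
(.nd (nat_lit 4) (.nd (nat_lit 5) (.nd (nat_lit 6) 
(.lf (nat_lit 142991) (.g (nat_lit 1676) (.e (nat_lit 49185) (nat_lit 11) (.e (nat_lit 16465) (nat_lit 13) (.e (nat_lit 483371) (nat_lit 21) (.e (nat_lit 319527) (nat_lit 15) (.e (nat_lit 278562) (nat_lit 13) .nil))))) (.g (nat_lit 4) .nil .nil))) 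
(.lf (nat_lit 143055) (.g (nat_lit 2894) (.e (nat_lit 57344) (nat_lit 0) (.e (nat_lit 1858) (nat_lit 124) (.e (nat_lit 557105) (nat_lit 14) (.e (nat_lit 180252) (nat_lit 10) (.e (nat_lit 573482) (nat_lit 13) .nil))))) .nil))) (.nd (nat_lit 6) 
(.lf (nat_lit 143023) (.g (nat_lit 3857) (.e (nat_lit 49188) (nat_lit 11) (.e (nat_lit 16473) (nat_lit 14) (.e (nat_lit 491572) (nat_lit 14) (.e (nat_lit 401454) (nat_lit 12) (.e (nat_lit 475217) (nat_lit 44) .nil))))) .nil)) 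
(.lf (nat_lit 143087) (.g (nat_lit 1731) (.e (nat_lit 57347) (nat_lit 0) (.e (nat_lit 2029) (nat_lit 140) (.e (nat_lit 688182) (nat_lit 17) (.e (nat_lit 73755) (nat_lit 8) (.e (nat_lit 557089) (nat_lit 12) (.e (nat_lit 171776) (nat_lit 192) (.e (nat_lit 73731) (nat_lit 0) (.e (nat_lit 7261) (nat_lit 384) .nil)))))))) (.g (nat_lit 4) .nil .nil))))) (.nd (nat_lit 5) (.nd (nat_lit 6) 
(.lf (nat_lit 143007) (.g (nat_lit 1650) (.e (nat_lit 49188) (nat_lit 11) (.e (nat_lit 16388) (nat_lit 0) (.e (nat_lit 3276) (nat_lit 200) (.e (nat_lit 557109) (nat_lit 15) (.e (nat_lit 196352) (nat_lit 9) .nil))))) .nil)) 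
(.lf (nat_lit 143071) (.g (nat_lit 2112) (.e (nat_lit 57345) (nat_lit 0) (.e (nat_lit 1860) (nat_lit 124) (.e (nat_lit 557100) (nat_lit 13) (.e (nat_lit 172065) (nat_lit 3) (.e (nat_lit 204834) (nat_lit 19) .nil))))) .nil))) (.nd (nat_lit 6) 
(.lf (nat_lit 143039) (.g (nat_lit 853) (.e (nat_lit 49189) (nat_lit 11) (.e (nat_lit 16392) (nat_lit 0) (.e (nat_lit 7936) (nat_lit 200) (.e (nat_lit 557107) (nat_lit 15) (.e (nat_lit 196352) (nat_lit 10) .nil))))) .nil)) 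
(.lf (nat_lit 143103) (.g (nat_lit 2370) (.e (nat_lit 57347) (nat_lit 0) (.e (nat_lit 2031) (nat_lit 140) (.e (nat_lit 688177) (nat_lit 16) (.e (nat_lit 65586) (nat_lit 7) (.e (nat_lit 319531) (nat_lit 16) (.e (nat_lit 286748) (nat_lit 9) (.e (nat_lit 335888) (nat_lit 0) (.e (nat_lit 1053) (nat_lit 81) (.e (nat_lit 5950) (nat_lit 322) .nil))))))))) (.g (nat_lit 4) .nil .nil))))))))))

noncomputable def tv1897 : DT := (.nd (nat_lit 0) (.nd (nat_lit 1) (.nd (nat_lit 2) (.nd (nat_lit 3) (.nd (nat_lit 4) (.nd (nat_lit 5) 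
(.lf (nat_lit 143104) (.g (nat_lit 3753) (.e (nat_lit 57347) (nat_lit 0) (.e (nat_lit 2031) (nat_lit 140) (.e (nat_lit 688177) (nat_lit 16) (.e (nat_lit 65586) (nat_lit 7) (.e (nat_lit 319531) (nat_lit 16) (.e (nat_lit 286748) (nat_lit 9) (.e (nat_lit 335889) (nat_lit 0) (.e (nat_lit 1055) (nat_lit 81) (.e (nat_lit 5947) (nat_lit 322) .nil))))))))) (.g (nat_lit 6) .nil .nil))) 
(.lf (nat_lit 143136) (.g (nat_lit 2245) (.e (nat_lit 57348) (nat_lit 0) (.e (nat_lit 1795) (nat_lit 119) (.e (nat_lit 516150) (nat_lit 9) (.e (nat_lit 426131) (nat_lit 3) (.e (nat_lit 204838) (nat_lit 20) .nil))))) .nil))) (.nd (nat_lit 5) 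
(.lf (nat_lit 143120) (.g (nat_lit 3049) (.e (nat_lit 57347) (nat_lit 0) (.e (nat_lit 6450) (nat_lit 343) (.e (nat_lit 1253) (nat_lit 92) (.e (nat_lit 98373) (nat_lit 29) (.e (nat_lit 450587) (nat_lit 10) (.e (nat_lit 573473) (nat_lit 12) (.e (nat_lit 57353) (nat_lit 0) (.e (nat_lit 7265) (nat_lit 384) .nil)))))))) (.g (nat_lit 5) .nil .nil))) 
(.lf (nat_lit 143152) (.g (nat_lit 3054) (.e (nat_lit 57348) (nat_lit 0) (.e (nat_lit 2031) (nat_lit 140) (.e (nat_lit 688181) (nat_lit 17) (.e (nat_lit 73755) (nat_lit 8) (.e (nat_lit 557098) (nat_lit 13) (.e (nat_lit 179968) (nat_lit 20) (.e (nat_lit 114710) (nat_lit 21) (.e (nat_lit 57847) (nat_lit 252) .nil)))))))) (.g (nat_lit 5) .nil .nil))))) (.nd (nat_lit 4) (.nd (nat_lit 5) 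
(.lf (nat_lit 143112) (.g (nat_lit 4241) (.e (nat_lit 57347) (nat_lit 0) (.e (nat_lit 2031) (nat_lit 140) (.e (nat_lit 688177) (nat_lit 16) (.e (nat_lit 65586) (nat_lit 7) (.e (nat_lit 319534) (nat_lit 16) (.e (nat_lit 286756) (nat_lit 10) (.e (nat_lit 344104) (nat_lit 18) (.e (nat_lit 5947) (nat_lit 322) .nil)))))))) (.g (nat_lit 6) .nil .nil))) 
(.lf (nat_lit 143144) (.g (nat_lit 1858) (.e (nat_lit 57348) (nat_lit 0) (.e (nat_lit 2031) (nat_lit 140) (.e (nat_lit 688177) (nat_lit 16) (.e (nat_lit 65591) (nat_lit 9) .nil)))) .nil))) (.nd (nat_lit 5) 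
(.lf (nat_lit 143128) (.g (nat_lit 4666) (.e (nat_lit 57347) (nat_lit 0) (.e (nat_lit 7265) (nat_lit 384) (.e (nat_lit 57421) (nat_lit 13) (.e (nat_lit 344117) (nat_lit 21) (.e (nat_lit 516166) (nat_lit 12) (.e (nat_lit 450588) (nat_lit 10) (.e (nat_lit 573475) (nat_lit 12) .nil))))))) (.g (nat_lit 0) .nil .nil))) 
(.lf (nat_lit 143160) (.g (nat_lit 2057) (.e (nat_lit 57348) (nat_lit 0) (.e (nat_lit 2283) (nat_lit 150) (.e (nat_lit 770072) (nat_lit 8) (.e (nat_lit 65583) (nat_lit 7) (.e (nat_lit 319530) (nat_lit 16) (.e (nat_lit 286748) (nat_lit 9) (.e (nat_lit 335925) (nat_lit 0) (.e (nat_lit 1008) (nat_lit 81) (.e (nat_lit 5570) (nat_lit 308) .nil))))))))) (.g (nat_lit 4) .nil .nil)))))) 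
(.nd (nat_lit 3) (.nd (nat_lit 4) (.nd (nat_lit 5) 
(.lf (nat_lit 143108) (.g (nat_lit 3201) (.e (nat_lit 57347) (nat_lit 0) (.e (nat_lit 2031) (nat_lit 140) (.e (nat_lit 688177) (nat_lit 16) (.e (nat_lit 65586) (nat_lit 7) (.e (nat_lit 319531) (nat_lit 16) (.e (nat_lit 286748) (nat_lit 9) (.e (nat_lit 335905) (nat_lit 0) (.e (nat_lit 977) (nat_lit 81) (.e (nat_lit 5944) (nat_lit 322) .nil))))))))) (.g (nat_lit 5) .nil .nil))) 
(.lf (nat_lit 143140) (.g (nat_lit 3015) (.e (nat_lit 57348) (nat_lit 0) (.e (nat_lit 2031) (nat_lit 140) (.e (nat_lit 688177) (nat_lit 16) (.e (nat_lit 65586) (nat_lit 7) (.e (nat_lit 319531) (nat_lit 16) (.e (nat_lit 286748) (nat_lit 9) (.e (nat_lit 335891) (nat_lit 0) (.e (nat_lit 1105) (nat_lit 81) (.e (nat_lit 5938) (nat_lit 322) .nil))))))))) (.g (nat_lit 6) .nil .nil)))) (.nd (nat_lit 5) 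
(.lf (nat_lit 143124) (.g (nat_lit 1072) (.e (nat_lit 57347) (nat_lit 0) (.e (nat_lit 7261) (nat_lit 384) (.e (nat_lit 57445) (nat_lit 19) (.e (nat_lit 401152) (nat_lit 11) .nil)))) .nil)) 
(.lf (nat_lit 143156) (.g (nat_lit 1983) (.e (nat_lit 57348) (nat_lit 0) (.e (nat_lit 2283) (nat_lit 150) (.e (nat_lit 770072) (nat_lit 8) (.e (nat_lit 65583) (nat_lit 7) (.e (nat_lit 319530) (nat_lit 16) (.e (nat_lit 286748) (nat_lit 9) (.e (nat_lit 335915) (nat_lit 0) (.e (nat_lit 1016) (nat_lit 81) (.e (nat_lit 5568) (nat_lit 308) .nil))))))))) (.g (nat_lit 4) .nil .nil))))) 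
(.nd (nat_lit 4) (.nd (nat_lit 5) 
(.lf (nat_lit 143116) (.g (nat_lit 3091) (.e (nat_lit 57347) (nat_lit 0) (.e (nat_lit 2032) (nat_lit 140) (.e (nat_lit 688182) (nat_lit 17) (.e (nat_lit 73755) (nat_lit 8) (.e (nat_lit 557098) (nat_lit 13) (.e (nat_lit 179968) (nat_lit 20) (.e (nat_lit 114710) (nat_lit 21) (.e (nat_lit 57851) (nat_lit 252) .nil)))))))) (.g (nat_lit 5) .nil .nil))) 
(.lf (nat_lit 143148) (.g (nat_lit 1279) (.e (nat_lit 57348) (nat_lit 0) (.e (nat_lit 2031) (nat_lit 140) (.e (nat_lit 688178) (nat_lit 16) (.e (nat_lit 65589) (nat_lit 9) .nil)))) .nil))) (.nd (nat_lit 5) 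
(.lf (nat_lit 143132) (.g (nat_lit 1660) (.e (nat_lit 57347) (nat_lit 0) (.e (nat_lit 7695) (nat_lit 412) (.e (nat_lit 57375) (nat_lit 2) (.e (nat_lit 90185) (nat_lit 17) (.e (nat_lit 237592) (nat_lit 3) .nil))))) .nil)) 
(.lf (nat_lit 143164) (.g (nat_lit 2796) (.e (nat_lit 57348) (nat_lit 0) (.e (nat_lit 2283) (nat_lit 150) (.e (nat_lit 770072) (nat_lit 8) (.e (nat_lit 65583) (nat_lit 7) (.e (nat_lit 319530) (nat_lit 16) (.e (nat_lit 286751) (nat_lit 10) (.e (nat_lit 344091) (nat_lit 18) (.e (nat_lit 5567) (nat_lit 308) .nil)))))))) (.g (nat_lit 5) .nil .nil))))))) 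
(.nd (nat_lit 2) (.nd (nat_lit 3) (.nd (nat_lit 4) (.nd (nat_lit 5) 
(.lf (nat_lit 143106) (.g (nat_lit 3099) (.e (nat_lit 57347) (nat_lit 0) (.e (nat_lit 2031) (nat_lit 140) (.e (nat_lit 688177) (nat_lit 16) (.e (nat_lit 65586) (nat_lit 7) (.e (nat_lit 319531) (nat_lit 16) (.e (nat_lit 286748) (nat_lit 9) (.e (nat_lit 335891) (nat_lit 0) (.e (nat_lit 1105) (nat_lit 81) (.e (nat_lit 5953) (nat_lit 322) .nil))))))))) (.g (nat_lit 5) .nil .nil))) 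
(.lf (nat_lit 143138) (.g (nat_lit 2907) (.e (nat_lit 57348) (nat_lit 0) (.e (nat_lit 2031) (nat_lit 140) (.e (nat_lit 688177) (nat_lit 16) (.e (nat_lit 65583) (nat_lit 7) (.e (nat_lit 319530) (nat_lit 16) (.e (nat_lit 286748) (nat_lit 9) (.e (nat_lit 335891) (nat_lit 0) (.e (nat_lit 1105) (nat_lit 81) (.e (nat_lit 5937) (nat_lit 322) .nil))))))))) (.g (nat_lit 5) .nil .nil)))) (.nd (nat_lit 5) 
(.lf (nat_lit 143122) (.g (nat_lit 5091) (.e (nat_lit 57347) (nat_lit 0) (.e (nat_lit 7124) (nat_lit 382) (.e (nat_lit 1201) (nat_lit 88) (.e (nat_lit 65569) (nat_lit 3) (.e (nat_lit 98373) (nat_lit 29) (.e (nat_lit 450588) (nat_lit 10) (.e (nat_lit 573475) (nat_lit 12) .nil))))))) (.g (nat_lit 0) .nil .nil))) 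
(.lf (nat_lit 143154) (.g (nat_lit 3316) (.e (nat_lit 57348) (nat_lit 0) (.e (nat_lit 2283) (nat_lit 150) (.e (nat_lit 770071) (nat_lit 8) (.e (nat_lit 65586) (nat_lit 7) (.e (nat_lit 319531) (nat_lit 16) (.e (nat_lit 286748) (nat_lit 9) (.e (nat_lit 335925) (nat_lit 0) (.e (nat_lit 1013) (nat_lit 81) (.e (nat_lit 5567) (nat_lit 308) .nil))))))))) (.g (nat_lit 6) .nil .nil))))) 
(.nd (nat_lit 4) (.nd (nat_lit 5) 
(.lf (nat_lit 143114) (.g (nat_lit 3544) (.e (nat_lit 57347) (nat_lit 0) (.e (nat_lit 2031) (nat_lit 140) (.e (nat_lit 688182) (nat_lit 17) (.e (nat_lit 73755) (nat_lit 8) (.e (nat_lit 557098) (nat_lit 13) (.e (nat_lit 179968) (nat_lit 20) (.e (nat_lit 114710) (nat_lit 21) (.e (nat_lit 57851) (nat_lit 252) .nil)))))))) (.g (nat_lit 5) .nil .nil))) 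
(.lf (nat_lit 143146) (.g (nat_lit 1604) (.e (nat_lit 57348) (nat_lit 0) (.e (nat_lit 2031) (nat_lit 140) (.e (nat_lit 688177) (nat_lit 16) (.e (nat_lit 65627) (nat_lit 13) .nil)))) .nil))) (.nd (nat_lit 5) 
(.lf (nat_lit 143130) (.g (nat_lit 2136) (.e (nat_lit 57347) (nat_lit 0) (.e (nat_lit 7266) (nat_lit 384) (.e (nat_lit 57419) (nat_lit 12) (.e (nat_lit 336021) (nat_lit 3) (.e (nat_lit 98372) (nat_lit 29) .nil))))) .nil)) 
(.lf (nat_lit 143162) (.g (nat_lit 2836) (.e (nat_lit 57348) (nat_lit 0) (.e (nat_lit 2283) (nat_lit 150) (.e (nat_lit 770072) (nat_lit 8) (.e (nat_lit 65583) (nat_lit 7) (.e (nat_lit 319530) (nat_lit 16) (.e (nat_lit 286748) (nat_lit 9) (.e (nat_lit 335925) (nat_lit 0) (.e (nat_lit 1015) (nat_lit 81) (.e (nat_lit 5567) (nat_lit 308) .nil))))))))) (.g (nat_lit 5) .nil .nil)))))) 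
(.nd (nat_lit 3) (.nd (nat_lit 4) (.nd (nat_lit 5) 
(.lf (nat_lit 143110) (.g (nat_lit 2932) (.e (nat_lit 57347) (nat_lit 0) (.e (nat_lit 2031) (nat_lit 140) (.e (nat_lit 688177) (nat_lit 16) (.e (nat_lit 65586) (nat_lit 7) (.e (nat_lit 319531) (nat_lit 16) (.e (nat_lit 286748) (nat_lit 9) (.e (nat_lit 335915) (nat_lit 0) (.e (nat_lit 1063) (nat_lit 81) (.e (nat_lit 5947) (nat_lit 322) .nil))))))))) (.g (nat_lit 5) .nil .nil))) 
(.lf (nat_lit 143142) (.g (nat_lit 1865) (.e (nat_lit 57348) (nat_lit 0) (.e (nat_lit 2031) (nat_lit 140) (.e (nat_lit 688177) (nat_lit 16) (.e (nat_lit 65589) (nat_lit 9) .nil)))) .nil))) (.nd (nat_lit 5) 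
(.lf (nat_lit 143126) (.g (nat_lit 4618) (.e (nat_lit 57347) (nat_lit 0) (.e (nat_lit 7265) (nat_lit 384) (.e (nat_lit 57412) (nat_lit 12) (.e (nat_lit 336020) (nat_lit 3) (.e (nat_lit 98373) (nat_lit 29) (.e (nat_lit 450588) (nat_lit 10) (.e (nat_lit 573475) (nat_lit 12) .nil))))))) (.g (nat_lit 0) .nil .nil))) 
(.lf (nat_lit 143158) (.g (nat_lit 2062) (.e (nat_lit 57348) (nat_lit 0) (.e (nat_lit 2283) (nat_lit 150) (.e (nat_lit 770072) (nat_lit 8) (.e (nat_lit 65583) (nat_lit 7) (.e (nat_lit 319530) (nat_lit 16) (.e (nat_lit 286748) (nat_lit 9) (.e (nat_lit 335925) (nat_lit 0) (.e (nat_lit 995) (nat_lit 81) (.e (nat_lit 5568) (nat_lit 308) .nil))))))))) (.g (nat_lit 4) .nil .nil))))) 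
(.nd (nat_lit 4) (.nd (nat_lit 5) 
(.lf (nat_lit 143118) (.g (nat_lit 2869) (.e (nat_lit 57347) (nat_lit 0) (.e (nat_lit 2160) (nat_lit 143) (.e (nat_lit 712755) (nat_lit 30) (.e (nat_lit 450588) (nat_lit 10) (.e (nat_lit 573453) (nat_lit 9) (.e (nat_lit 1183) (nat_lit 87) (.e (nat_lit 57848) (nat_lit 252) (.e (nat_lit 57368) (nat_lit 1) (.e (nat_lit 57851) (nat_lit 252) .nil))))))))) (.g (nat_lit 4) .nil .nil))) 
(.lf (nat_lit 143150) (.g (nat_lit 1228) (.e (nat_lit 57348) (nat_lit 0) (.e (nat_lit 2031) (nat_lit 140) (.e (nat_lit 688178) (nat_lit 16) (.e (nat_lit 65626) (nat_lit 13) .nil)))) .nil))) (.nd (nat_lit 5) 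
(.lf (nat_lit 143134) (.g (nat_lit 1810) (.e (nat_lit 57347) (nat_lit 0) (.e (nat_lit 7710) (nat_lit 414) (.e (nat_lit 163874) (nat_lit 3) (.e (nat_lit 204864) (nat_lit 27) .nil)))) .nil)) 
(.lf (nat_lit 143166) (.g (nat_lit 1995) (.e (nat_lit 57348) (nat_lit 0) (.e (nat_lit 5590) (nat_lit 310) (.e (nat_lit 163875) (nat_lit 3) (.e (nat_lit 204863) (nat_lit 27) (.e (nat_lit 344127) (nat_lit 26) .nil))))) .nil))))))) (.nd (nat_lit 1) (.nd (nat_lit 2) (.nd (nat_lit 3) (.nd (nat_lit 4) (.nd (nat_lit 5) 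
(.lf (nat_lit 143105) (.g (nat_lit 3139) (.e (nat_lit 57347) (nat_lit 0) (.e (nat_lit 2031) (nat_lit 140) (.e (nat_lit 688177) (nat_lit 16) (.e (nat_lit 65586) (nat_lit 7) (.e (nat_lit 319531) (nat_lit 16) (.e (nat_lit 286748) (nat_lit 9) (.e (nat_lit 335891) (nat_lit 0) (.e (nat_lit 1105) (nat_lit 81) (.e (nat_lit 5937) (nat_lit 322) .nil))))))))) (.g (nat_lit 5) .nil .nil))) 
(.lf (nat_lit 143137) (.g (nat_lit 1971) (.e (nat_lit 57348) (nat_lit 0) (.e (nat_lit 2031) (nat_lit 140) (.e (nat_lit 688177) (nat_lit 16) (.e (nat_lit 65583) (nat_lit 7) (.e (nat_lit 319530) (nat_lit 16) .nil))))) .nil))) (.nd (nat_lit 5) 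
(.lf (nat_lit 143121) (.g (nat_lit 1901) (.e (nat_lit 57347) (nat_lit 0) (.e (nat_lit 7122) (nat_lit 382) (.e (nat_lit 1201) (nat_lit 88) (.e (nat_lit 65569) (nat_lit 3) (.e (nat_lit 98372) (nat_lit 29) .nil))))) .nil)) 
(.lf (nat_lit 143153) (.g (nat_lit 3323) (.e (nat_lit 57348) (nat_lit 0) (.e (nat_lit 2283) (nat_lit 150) (.e (nat_lit 770071) (nat_lit 8) (.e (nat_lit 65586) (nat_lit 7) (.e (nat_lit 319531) (nat_lit 16) (.e (nat_lit 286748) (nat_lit 9) (.e (nat_lit 335925) (nat_lit 0) (.e (nat_lit 993) (nat_lit 81) (.e (nat_lit 5567) (nat_lit 308) .nil))))))))) (.g (nat_lit 6) .nil .nil))))) 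
(.nd (nat_lit 4) (.nd (nat_lit 5) 
(.lf (nat_lit 143113) (.g (nat_lit 3534) (.e (nat_lit 57347) (nat_lit 0) (.e (nat_lit 2031) (nat_lit 140) (.e (nat_lit 688180) (nat_lit 17) (.e (nat_lit 73753) (nat_lit 8) (.e (nat_lit 557100) (nat_lit 13) (.e (nat_lit 179968) (nat_lit 20) (.e (nat_lit 114710) (nat_lit 21) (.e (nat_lit 57851) (nat_lit 252) .nil)))))))) (.g (nat_lit 5) .nil .nil))) 
(.lf (nat_lit 143145) (.g (nat_lit 1707) (.e (nat_lit 57348) (nat_lit 0) (.e (nat_lit 2031) (nat_lit 140) (.e (nat_lit 688177) (nat_lit 16) (.e (nat_lit 65625) (nat_lit 13) .nil)))) .nil))) (.nd (nat_lit 5) 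
(.lf (nat_lit 143129) (.g (nat_lit 1023) (.e (nat_lit 57347) (nat_lit 0) (.e (nat_lit 7265) (nat_lit 384) (.e (nat_lit 57445) (nat_lit 19) (.e (nat_lit 401152) (nat_lit 11) .nil)))) .nil)) 
(.lf (nat_lit 143161) (.g (nat_lit 2801) (.e (nat_lit 57348) (nat_lit 0) (.e (nat_lit 2283) (nat_lit 150) (.e (nat_lit 770072) (nat_lit 8) (.e (nat_lit 65583) (nat_lit 7) (.e (nat_lit 319530) (nat_lit 16) (.e (nat_lit 286748) (nat_lit 9) (.e (nat_lit 335925) (nat_lit 0) (.e (nat_lit 1012) (nat_lit 81) (.e (nat_lit 5567) (nat_lit 308) .nil))))))))) (.g (nat_lit 5) .nil .nil)))))) 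
(.nd (nat_lit 3) (.nd (nat_lit 4) (.nd (nat_lit 5) 
(.lf (nat_lit 143109) (.g (nat_lit 3184) (.e (nat_lit 57347) (nat_lit 0) (.e (nat_lit 2031) (nat_lit 140) (.e (nat_lit 688177) (nat_lit 16) (.e (nat_lit 65586) (nat_lit 7) (.e (nat_lit 319531) (nat_lit 16) (.e (nat_lit 286748) (nat_lit 9) (.e (nat_lit 335905) (nat_lit 0) (.e (nat_lit 1076) (nat_lit 81) (.e (nat_lit 5944) (nat_lit 322) .nil))))))))) (.g (nat_lit 5) .nil .nil))) 
(.lf (nat_lit 143141) (.g (nat_lit 3419) (.e (nat_lit 57348) (nat_lit 0) (.e (nat_lit 2031) (nat_lit 140) (.e (nat_lit 688177) (nat_lit 16) (.e (nat_lit 65586) (nat_lit 7) (.e (nat_lit 319531) (nat_lit 16) (.e (nat_lit 286748) (nat_lit 9) (.e (nat_lit 336034) (nat_lit 4) (.e (nat_lit 123194) (nat_lit 266) .nil)))))))) (.g (nat_lit 6) .nil .nil)))) (.nd (nat_lit 5) 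
(.lf (nat_lit 143125) (.g (nat_lit 4620) (.e (nat_lit 57347) (nat_lit 0) (.e (nat_lit 7265) (nat_lit 384) (.e (nat_lit 57404) (nat_lit 12) (.e (nat_lit 336028) (nat_lit 3) (.e (nat_lit 98373) (nat_lit 29) (.e (nat_lit 450588) (nat_lit 10) (.e (nat_lit 573475) (nat_lit 12) .nil))))))) (.g (nat_lit 0) .nil .nil))) 
(.lf (nat_lit 143157) (.g (nat_lit 2833) (.e (nat_lit 57348) (nat_lit 0) (.e (nat_lit 2283) (nat_lit 150) (.e (nat_lit 770072) (nat_lit 8) (.e (nat_lit 65583) (nat_lit 7) (.e (nat_lit 319530) (nat_lit 16) (.e (nat_lit 286748) (nat_lit 9) (.e (nat_lit 335925) (nat_lit 0) (.e (nat_lit 994) (nat_lit 81) (.e (nat_lit 5567) (nat_lit 308) .nil))))))))) (.g (nat_lit 5) .nil .nil))))) 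
(.nd (nat_lit 4) (.nd (nat_lit 5) 
(.lf (nat_lit 143117) (.g (nat_lit 2866) (.e (nat_lit 57347) (nat_lit 0) (.e (nat_lit 2160) (nat_lit 143) (.e (nat_lit 712755) (nat_lit 30) (.e (nat_lit 450588) (nat_lit 10) (.e (nat_lit 573453) (nat_lit 9) (.e (nat_lit 1183) (nat_lit 87) (.e (nat_lit 57848) (nat_lit 252) (.e (nat_lit 57365) (nat_lit 1) (.e (nat_lit 57851) (nat_lit 252) .nil))))))))) (.g (nat_lit 4) .nil .nil))) 
(.lf (nat_lit 143149) (.g (nat_lit 1264) (.e (nat_lit 57348) (nat_lit 0) (.e (nat_lit 2031) (nat_lit 140) (.e (nat_lit 688178) (nat_lit 16) (.e (nat_lit 65590) (nat_lit 9) .nil)))) .nil))) (.nd (nat_lit 5) 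
(.lf (nat_lit 143133) (.g (nat_lit 2445) (.e (nat_lit 57347) (nat_lit 0) (.e (nat_lit 7695) (nat_lit 412) (.e (nat_lit 57379) (nat_lit 3) (.e (nat_lit 98365) (nat_lit 26) (.e (nat_lit 426133) (nat_lit 3) (.e (nat_lit 204809) (nat_lit 9) (.e (nat_lit 426124) (nat_lit 2) (.e (nat_lit 196660) (nat_lit 12) .nil)))))))) (.g (nat_lit 4) .nil .nil))) 
(.lf (nat_lit 143165) (.g (nat_lit 1791) (.e (nat_lit 57348) (nat_lit 0) (.e (nat_lit 2283) (nat_lit 150) (.e (nat_lit 770072) (nat_lit 8) (.e (nat_lit 65586) (nat_lit 7) (.e (nat_lit 319531) (nat_lit 16) (.e (nat_lit 286748) (nat_lit 9) (.e (nat_lit 335928) (nat_lit 0) (.e (nat_lit 1014) (nat_lit 81) (.e (nat_lit 5567) (nat_lit 308) .nil))))))))) (.g (nat_lit 4) .nil .nil))))))) 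
(.nd (nat_lit 2) (.nd (nat_lit 3) (.nd (nat_lit 4) (.nd (nat_lit 5) 
(.lf (nat_lit 143107) (.g (nat_lit 2451) (.e (nat_lit 57347) (nat_lit 0) (.e (nat_lit 2031) (nat_lit 140) (.e (nat_lit 688177) (nat_lit 16) (.e (nat_lit 65586) (nat_lit 7) (.e (nat_lit 319531) (nat_lit 16) (.e (nat_lit 286748) (nat_lit 9) (.e (nat_lit 335901) (nat_lit 0) (.e (nat_lit 1056) (nat_lit 81) (.e (nat_lit 5947) (nat_lit 322) .nil))))))))) (.g (nat_lit 4) .nil .nil))) 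
(.lf (nat_lit 143139) (.g (nat_lit 3173) (.e (nat_lit 57348) (nat_lit 0) (.e (nat_lit 2031) (nat_lit 140) (.e (nat_lit 688177) (nat_lit 16) (.e (nat_lit 65586) (nat_lit 7) (.e (nat_lit 319531) (nat_lit 16) (.e (nat_lit 286748) (nat_lit 9) (.e (nat_lit 335891) (nat_lit 0) (.e (nat_lit 1105) (nat_lit 81) (.e (nat_lit 5935) (nat_lit 322) .nil))))))))) (.g (nat_lit 6) .nil .nil)))) (.nd (nat_lit 5) 
(.lf (nat_lit 143123) (.g (nat_lit 5259) (.e (nat_lit 57347) (nat_lit 0) (.e (nat_lit 7124) (nat_lit 382) (.e (nat_lit 1201) (nat_lit 88) (.e (nat_lit 65571) (nat_lit 3) (.e (nat_lit 98373) (nat_lit 29) (.e (nat_lit 450588) (nat_lit 10) (.e (nat_lit 573475) (nat_lit 12) .nil))))))) (.g (nat_lit 0) .nil .nil))) 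
(.lf (nat_lit 143155) (.g (nat_lit 1941) (.e (nat_lit 57348) (nat_lit 0) (.e (nat_lit 2283) (nat_lit 150) (.e (nat_lit 770072) (nat_lit 8) (.e (nat_lit 65583) (nat_lit 7) (.e (nat_lit 319530) (nat_lit 16) (.e (nat_lit 286748) (nat_lit 9) (.e (nat_lit 335915) (nat_lit 0) (.e (nat_lit 1007) (nat_lit 81) (.e (nat_lit 5568) (nat_lit 308) .nil))))))))) (.g (nat_lit 4) .nil .nil))))) 
(.nd (nat_lit 4) (.nd (nat_lit 5) 
(.lf (nat_lit 143115) (.g (nat_lit 1331) (.e (nat_lit 57347) (nat_lit 0) (.e (nat_lit 2032) (nat_lit 140) (.e (nat_lit 688182) (nat_lit 17) (.e (nat_lit 73755) (nat_lit 8) (.e (nat_lit 557096) (nat_lit 13) .nil))))) .nil)) 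
(.lf (nat_lit 143147) (.g (nat_lit 1709) (.e (nat_lit 57348) (nat_lit 0) (.e (nat_lit 2031) (nat_lit 140) (.e (nat_lit 688177) (nat_lit 16) (.e (nat_lit 65630) (nat_lit 14) .nil)))) .nil))) (.nd (nat_lit 5) 
(.lf (nat_lit 143131) (.g (nat_lit 1438) (.e (nat_lit 57347) (nat_lit 0) (.e (nat_lit 7266) (nat_lit 384) (.e (nat_lit 57447) (nat_lit 19) (.e (nat_lit 401152) (nat_lit 11) .nil)))) .nil)) 
(.lf (nat_lit 143163) (.g (nat_lit 1992) (.e (nat_lit 57348) (nat_lit 0) (.e (nat_lit 2283) (nat_lit 150) (.e (nat_lit 770072) (nat_lit 8) (.e (nat_lit 65583) (nat_lit 7) (.e (nat_lit 319530) (nat_lit 16) (.e (nat_lit 286748) (nat_lit 9) (.e (nat_lit 335928) (nat_lit 0) (.e (nat_lit 995) (nat_lit 81) (.e (nat_lit 5567) (nat_lit 308) .nil))))))))) (.g (nat_lit 4) .nil .nil)))))) 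
(.nd (nat_lit 3) (.nd (nat_lit 4) (.nd (nat_lit 5) 
(.lf (nat_lit 143111) (.g (nat_lit 3776) (.e (nat_lit 57347) (nat_lit 0) (.e (nat_lit 2031) (nat_lit 140) (.e (nat_lit 688177) (nat_lit 16) (.e (nat_lit 65586) (nat_lit 7) (.e (nat_lit 319531) (nat_lit 16) (.e (nat_lit 286748) (nat_lit 9) (.e (nat_lit 335938) (nat_lit 0) (.e (nat_lit 1086) (nat_lit 81) (.e (nat_lit 5947) (nat_lit 322) .nil))))))))) (.g (nat_lit 6) .nil .nil))) 
(.lf (nat_lit 143143) (.g (nat_lit 1858) (.e (nat_lit 57348) (nat_lit 0) (.e (nat_lit 2031) (nat_lit 140) (.e (nat_lit 688177) (nat_lit 16) (.e (nat_lit 65590) (nat_lit 9) .nil)))) .nil))) (.nd (nat_lit 5) 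
(.lf (nat_lit 143127) (.g (nat_lit 4628) (.e (nat_lit 57347) (nat_lit 0) (.e (nat_lit 7265) (nat_lit 384) (.e (nat_lit 57420) (nat_lit 13) (.e (nat_lit 344117) (nat_lit 21) (.e (nat_lit 516166) (nat_lit 12) (.e (nat_lit 450588) (nat_lit 10) (.e (nat_lit 573475) (nat_lit 12) .nil))))))) (.g (nat_lit 0) .nil .nil))) 
(.lf (nat_lit 143159) (.g (nat_lit 2007) (.e (nat_lit 57348) (nat_lit 0) (.e (nat_lit 2283) (nat_lit 150) (.e (nat_lit 770072) (nat_lit 8) (.e (nat_lit 65583) (nat_lit 7) (.e (nat_lit 319530) (nat_lit 16) (.e (nat_lit 286748) (nat_lit 9) (.e (nat_lit 335925) (nat_lit 0) (.e (nat_lit 1008) (nat_lit 81) (.e (nat_lit 5568) (nat_lit 308) .nil))))))))) (.g (nat_lit 4) .nil .nil))))) 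
(.nd (nat_lit 4) (.nd (nat_lit 5) 
(.lf (nat_lit 143119) (.g (nat_lit 2173) (.e (nat_lit 57347) (nat_lit 0) (.e (nat_lit 5590) (nat_lit 310) (.e (nat_lit 163868) (nat_lit 2) (.e (nat_lit 196669) (nat_lit 14) (.e (nat_lit 73755) (nat_lit 8) .nil))))) .nil)) 
(.lf (nat_lit 143151) (.g (nat_lit 1232) (.e (nat_lit 57348) (nat_lit 0) (.e (nat_lit 2031) (nat_lit 140) (.e (nat_lit 688180) (nat_lit 17) (.e (nat_lit 73753) (nat_lit 8) (.e (nat_lit 557096) (nat_lit 13) .nil))))) .nil))) (.nd (nat_lit 5) 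
(.lf (nat_lit 143135) (.g (nat_lit 2321) (.e (nat_lit 57347) (nat_lit 0) (.e (nat_lit 7710) (nat_lit 414) (.e (nat_lit 163874) (nat_lit 3) (.e (nat_lit 204864) (nat_lit 27) (.e (nat_lit 344130) (nat_lit 26) .nil))))) .nil)) 
(.lf (nat_lit 143167) (.g (nat_lit 4759) (.e (nat_lit 57348) (nat_lit 0) (.e (nat_lit 5593) (nat_lit 310) (.e (nat_lit 163870) (nat_lit 2) (.e (nat_lit 196670) (nat_lit 14) (.e (nat_lit 73753) (nat_lit 8) (.e (nat_lit 557105) (nat_lit 14) (.e (nat_lit 180252) (nat_lit 10) (.e (nat_lit 573474) (nat_lit 12) .nil)))))))) (.g (nat_lit 8) .nil .nil)))))))))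

noncomputable def tv1898 : DT := (.nd (nat_lit 0) (.nd (nat_lit 1) (.nd (nat_lit 2) (.nd (nat_lit 3) (.nd (nat_lit 4) (.nd (nat_lit 5) 
(.lf (nat_lit 143168) (.g (nat_lit 5731) (.e (nat_lit 57348) (nat_lit 0) (.e (nat_lit 5593) (nat_lit 310) (.e (nat_lit 163871) (nat_lit 2) (.e (nat_lit 196668) (nat_lit 14) (.e (nat_lit 73753) (nat_lit 8) (.e (nat_lit 557105) (nat_lit 14) (.e (nat_lit 180252) (nat_lit 10) (.e (nat_lit 573474) (nat_lit 12) .nil)))))))) (.g (nat_lit 8) .nil .nil))) 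
(.lf (nat_lit 143200) (.g (nat_lit 535) (.e (nat_lit 57350) (nat_lit 0) (.e (nat_lit 6218) (nat_lit 333) (.e (nat_lit 57819) (nat_lit 248) .nil))) .nil))) (.nd (nat_lit 5) 
(.lf (nat_lit 143184) (.g (nat_lit 2556) (.e (nat_lit 57349) (nat_lit 0) (.e (nat_lit 1860) (nat_lit 124) (.e (nat_lit 557105) (nat_lit 14) (.e (nat_lit 180252) (nat_lit 10) (.e (nat_lit 573482) (nat_lit 13) .nil))))) .nil)) 
(.lf (nat_lit 143216) (.g (nat_lit 3822) (.e (nat_lit 57351) (nat_lit 0) (.e (nat_lit 7125) (nat_lit 382) (.e (nat_lit 1201) (nat_lit 88) (.e (nat_lit 65569) (nat_lit 3) (.e (nat_lit 98372) (nat_lit 29) (.e (nat_lit 450586) (nat_lit 10) (.e (nat_lit 573475) (nat_lit 12) .nil))))))) (.g (nat_lit 0) .nil .nil))))) (.nd (nat_lit 4) (.nd (nat_lit 5) 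
(.lf (nat_lit 143176) (.g (nat_lit 1537) (.e (nat_lit 57348) (nat_lit 0) (.e (nat_lit 7122) (nat_lit 382) (.e (nat_lit 1201) (nat_lit 88) (.e (nat_lit 65581) (nat_lit 7) .nil)))) .nil)) 
(.lf (nat_lit 143208) (.g (nat_lit 4185) (.e (nat_lit 57351) (nat_lit 0) (.e (nat_lit 7122) (nat_lit 382) (.e (nat_lit 1201) (nat_lit 88) (.e (nat_lit 65586) (nat_lit 7) (.e (nat_lit 319534) (nat_lit 16) (.e (nat_lit 286756) (nat_lit 10) (.e (nat_lit 344160) (nat_lit 37) (.e (nat_lit 647201) (nat_lit 12) .nil)))))))) (.g (nat_lit 7) .nil .nil)))) (.nd (nat_lit 5) 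
(.lf (nat_lit 143192) (.g (nat_lit 954) (.e (nat_lit 57350) (nat_lit 0) (.e (nat_lit 6113) (nat_lit 332) (.e (nat_lit 1361) (nat_lit 102) (.e (nat_lit 286743) (nat_lit 9) (.e (nat_lit 336432) (nat_lit 30) .nil))))) .nil)) 
(.lf (nat_lit 143224) (.g (nat_lit 1203) (.e (nat_lit 57351) (nat_lit 0) (.e (nat_lit 7265) (nat_lit 384) (.e (nat_lit 57347) (nat_lit 0) (.e (nat_lit 7936) (nat_lit 343) .nil)))) .nil))))) (.nd (nat_lit 3) (.nd (nat_lit 4) (.nd (nat_lit 5) 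
(.lf (nat_lit 143172) (.g (nat_lit 6091) (.e (nat_lit 57348) (nat_lit 0) (.e (nat_lit 5593) (nat_lit 310) (.e (nat_lit 163871) (nat_lit 2) (.e (nat_lit 196670) (nat_lit 14) (.e (nat_lit 73754) (nat_lit 8) (.e (nat_lit 557105) (nat_lit 14) (.e (nat_lit 180252) (nat_lit 10) (.e (nat_lit 573474) (nat_lit 12) .nil)))))))) (.g (nat_lit 8) .nil .nil))) 
(.lf (nat_lit 143204) (.g (nat_lit 1723) (.e (nat_lit 57351) (nat_lit 0) (.e (nat_lit 5570) (nat_lit 308) (.e (nat_lit 57375) (nat_lit 2) (.e (nat_lit 90185) (nat_lit 17) (.e (nat_lit 237592) (nat_lit 3) .nil))))) .nil))) (.nd (nat_lit 5) 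
(.lf (nat_lit 143188) (.g (nat_lit 3601) (.e (nat_lit 57349) (nat_lit 0) (.e (nat_lit 2031) (nat_lit 140) (.e (nat_lit 688177) (nat_lit 16) (.e (nat_lit 65586) (nat_lit 7) (.e (nat_lit 319531) (nat_lit 16) (.e (nat_lit 286748) (nat_lit 9) (.e (nat_lit 335908) (nat_lit 0) (.e (nat_lit 970) (nat_lit 81) (.e (nat_lit 5954) (nat_lit 322) .nil))))))))) (.g (nat_lit 6) .nil .nil))) 
(.lf (nat_lit 143220) (.g (nat_lit 4898) (.e (nat_lit 57351) (nat_lit 0) (.e (nat_lit 7125) (nat_lit 382) (.e (nat_lit 1201) (nat_lit 88) (.e (nat_lit 65571) (nat_lit 3) (.e (nat_lit 98359) (nat_lit 26) (.e (nat_lit 426286) (nat_lit 10) (.e (nat_lit 434248) (nat_lit 28) (.e (nat_lit 573475) (nat_lit 12) .nil)))))))) (.g (nat_lit 0) .nil .nil))))) (.nd (nat_lit 4) (.nd (nat_lit 5) 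
(.lf (nat_lit 143180) (.g (nat_lit 2037) (.e (nat_lit 57348) (nat_lit 0) (.e (nat_lit 7695) (nat_lit 412) (.e (nat_lit 57372) (nat_lit 2) (.e (nat_lit 90172) (nat_lit 14) (.e (nat_lit 180244) (nat_lit 5) .nil))))) .nil)) 
(.lf (nat_lit 143212) (.g (nat_lit 5145) (.e (nat_lit 57351) (nat_lit 0) (.e (nat_lit 7124) (nat_lit 382) (.e (nat_lit 1296) (nat_lit 96) (.e (nat_lit 131097) (nat_lit 3) (.e (nat_lit 98373) (nat_lit 29) (.e (nat_lit 450588) (nat_lit 10) (.e (nat_lit 573475) (nat_lit 12) .nil))))))) (.g (nat_lit 7) .nil .nil)))) (.nd (nat_lit 5) 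
(.lf (nat_lit 143196) (.g (nat_lit 1434) (.e (nat_lit 57350) (nat_lit 0) (.e (nat_lit 6113) (nat_lit 332) (.e (nat_lit 2777) (nat_lit 178) (.e (nat_lit 286771) (nat_lit 29) .nil)))) .nil)) 
(.lf (nat_lit 143228) (.g (nat_lit 1269) (.e (nat_lit 57351) (nat_lit 0) (.e (nat_lit 7265) (nat_lit 384) (.e (nat_lit 57406) (nat_lit 12) (.e (nat_lit 336019) (nat_lit 3) .nil)))) .nil)))))) (.nd (nat_lit 2) (.nd (nat_lit 3) (.nd (nat_lit 4) (.nd (nat_lit 5) 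
(.lf (nat_lit 143170) (.g (nat_lit 5571) (.e (nat_lit 57348) (nat_lit 0) (.e (nat_lit 5593) (nat_lit 310) (.e (nat_lit 163871) (nat_lit 2) (.e (nat_lit 196670) (nat_lit 14) (.e (nat_lit 73753) (nat_lit 8) (.e (nat_lit 557105) (nat_lit 14) (.e (nat_lit 180252) (nat_lit 10) (.e (nat_lit 573474) (nat_lit 12) .nil)))))))) (.g (nat_lit 8) .nil .nil))) 
(.lf (nat_lit 143202) (.g (nat_lit 2511) (.e (nat_lit 57351) (nat_lit 0) (.e (nat_lit 1860) (nat_lit 124) (.e (nat_lit 557105) (nat_lit 14) (.e (nat_lit 180252) (nat_lit 10) (.e (nat_lit 573481) (nat_lit 13) .nil))))) .nil))) (.nd (nat_lit 5) 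
(.lf (nat_lit 143186) (.g (nat_lit 2067) (.e (nat_lit 57349) (nat_lit 0) (.e (nat_lit 2031) (nat_lit 140) (.e (nat_lit 688177) (nat_lit 16) (.e (nat_lit 65583) (nat_lit 7) (.e (nat_lit 319530) (nat_lit 16) .nil))))) .nil)) 
(.lf (nat_lit 143218) (.g (nat_lit 2071) (.e (nat_lit 57351) (nat_lit 0) (.e (nat_lit 7125) (nat_lit 382) (.e (nat_lit 1201) (nat_lit 88) (.e (nat_lit 65570) (nat_lit 3) (.e (nat_lit 98372) (nat_lit 29) .nil))))) .nil)))) (.nd (nat_lit 4) (.nd (nat_lit 5) 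
(.lf (nat_lit 143178) (.g (nat_lit 4538) (.e (nat_lit 57348) (nat_lit 0) (.e (nat_lit 7124) (nat_lit 382) (.e (nat_lit 1201) (nat_lit 88) (.e (nat_lit 65569) (nat_lit 3) (.e (nat_lit 98373) (nat_lit 29) (.e (nat_lit 450588) (nat_lit 10) (.e (nat_lit 573473) (nat_lit 12) .nil))))))) (.g (nat_lit 0) .nil .nil))) 
(.lf (nat_lit 143210) (.g (nat_lit 4057) (.e (nat_lit 57351) (nat_lit 0) (.e (nat_lit 7124) (nat_lit 382) (.e (nat_lit 1201) (nat_lit 88) (.e (nat_lit 65586) (nat_lit 7) (.e (nat_lit 319534) (nat_lit 16) (.e (nat_lit 286756) (nat_lit 10) (.e (nat_lit 344160) (nat_lit 37) (.e (nat_lit 647201) (nat_lit 12) .nil)))))))) (.g (nat_lit 7) .nil .nil)))) (.nd (nat_lit 5) 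
(.lf (nat_lit 143194) (.g (nat_lit 1329) (.e (nat_lit 57350) (nat_lit 0) (.e (nat_lit 6113) (nat_lit 332) (.e (nat_lit 1361) (nat_lit 102) (.e (nat_lit 286761) (nat_lit 13) (.e (nat_lit 393289) (nat_lit 25) .nil))))) .nil)) 
(.lf (nat_lit 143226) (.g (nat_lit 1425) (.e (nat_lit 57351) (nat_lit 0) (.e (nat_lit 7265) (nat_lit 384) (.e (nat_lit 57406) (nat_lit 12) (.e (nat_lit 335878) (nat_lit 0) .nil)))) .nil))))) (.nd (nat_lit 3) (.nd (nat_lit 4) (.nd (nat_lit 5) 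
(.lf (nat_lit 143174) (.g (nat_lit 5162) (.e (nat_lit 57348) (nat_lit 0) (.e (nat_lit 5593) (nat_lit 310) (.e (nat_lit 163875) (nat_lit 3) (.e (nat_lit 204863) (nat_lit 27) (.e (nat_lit 344133) (nat_lit 26) (.e (nat_lit 557105) (nat_lit 14) (.e (nat_lit 180252) (nat_lit 10) (.e (nat_lit 573474) (nat_lit 12) .nil)))))))) (.g (nat_lit 8) .nil .nil))) 
(.lf (nat_lit 143206) (.g (nat_lit 4722) (.e (nat_lit 57351) (nat_lit 0) (.e (nat_lit 7122) (nat_lit 382) (.e (nat_lit 1201) (nat_lit 88) (.e (nat_lit 65571) (nat_lit 3) (.e (nat_lit 98373) (nat_lit 29) (.e (nat_lit 450588) (nat_lit 10) (.e (nat_lit 573475) (nat_lit 12) .nil))))))) (.g (nat_lit 0) .nil .nil)))) (.nd (nat_lit 5) 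
(.lf (nat_lit 143190) (.g (nat_lit 1350) (.e (nat_lit 57350) (nat_lit 0) (.e (nat_lit 2151) (nat_lit 142) (.e (nat_lit 704738) (nat_lit 11) (.e (nat_lit 16466) (nat_lit 13) .nil)))) .nil)) 
(.lf (nat_lit 143222) (.g (nat_lit 1240) (.e (nat_lit 57351) (nat_lit 0) (.e (nat_lit 7125) (nat_lit 382) (.e (nat_lit 1296) (nat_lit 96) (.e (nat_lit 131102) (nat_lit 7) .nil)))) .nil)))) (.nd (nat_lit 4) (.nd (nat_lit 5) 
(.lf (nat_lit 143182) (.g (nat_lit 1569) (.e (nat_lit 57349) (nat_lit 0) (.e (nat_lit 1860) (nat_lit 124) (.e (nat_lit 557100) (nat_lit 13) (.e (nat_lit 172106) (nat_lit 10) (.e (nat_lit 434231) (nat_lit 23) .nil))))) .nil)) 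
(.lf (nat_lit 143214) (.g (nat_lit 5018) (.e (nat_lit 57351) (nat_lit 0) (.e (nat_lit 7125) (nat_lit 382) (.e (nat_lit 1201) (nat_lit 88) (.e (nat_lit 65568) (nat_lit 2) (.e (nat_lit 90170) (nat_lit 13) (.e (nat_lit 172113) (nat_lit 10) (.e (nat_lit 434248) (nat_lit 28) (.e (nat_lit 573475) (nat_lit 12) .nil)))))))) (.g (nat_lit 0) .nil .nil)))) (.nd (nat_lit 5) 
(.lf (nat_lit 143198) (.g (nat_lit 1480) (.e (nat_lit 57350) (nat_lit 0) (.e (nat_lit 6113) (nat_lit 332) (.e (nat_lit 2810) (nat_lit 180) (.e (nat_lit 303145) (nat_lit 13) (.e (nat_lit 483382) (nat_lit 23) .nil))))) .nil)) 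
(.lf (nat_lit 143230) (.g (nat_lit 3828) (.e (nat_lit 57351) (nat_lit 0) (.e (nat_lit 7265) (nat_lit 384) (.e (nat_lit 57412) (nat_lit 12) (.e (nat_lit 336020) (nat_lit 3) (.e (nat_lit 98373) (nat_lit 29) (.e (nat_lit 450588) (nat_lit 10) (.e (nat_lit 573475) (nat_lit 12) .nil))))))) (.g (nat_lit 0) .nil .nil)))))))) 
(.nd (nat_lit 1) (.nd (nat_lit 2) (.nd (nat_lit 3) (.nd (nat_lit 4) (.nd (nat_lit 5) 
(.lf (nat_lit 143169) (.g (nat_lit 4664) (.e (nat_lit 57348) (nat_lit 0) (.e (nat_lit 5593) (nat_lit 310) (.e (nat_lit 163871) (nat_lit 2) (.e (nat_lit 196668) (nat_lit 14) (.e (nat_lit 73755) (nat_lit 8) (.e (nat_lit 557105) (nat_lit 14) (.e (nat_lit 180252) (nat_lit 10) (.e (nat_lit 573474) (nat_lit 12) .nil)))))))) (.g (nat_lit 8) .nil .nil))) 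
(.lf (nat_lit 143201) (.g (nat_lit 1244) (.e (nat_lit 57351) (nat_lit 0) (.e (nat_lit 1860) (nat_lit 124) (.e (nat_lit 557100) (nat_lit 13) (.e (nat_lit 172106) (nat_lit 10) .nil)))) .nil))) (.nd (nat_lit 5) 
(.lf (nat_lit 143185) (.g (nat_lit 2491) (.e (nat_lit 57349) (nat_lit 0) (.e (nat_lit 1860) (nat_lit 124) (.e (nat_lit 557105) (nat_lit 14) (.e (nat_lit 180252) (nat_lit 10) (.e (nat_lit 573487) (nat_lit 14) .nil))))) .nil)) 
(.lf (nat_lit 143217) (.g (nat_lit 4607) (.e (nat_lit 57351) (nat_lit 0) (.e (nat_lit 7125) (nat_lit 382) (.e (nat_lit 1201) (nat_lit 88) (.e (nat_lit 65569) (nat_lit 3) (.e (nat_lit 98373) (nat_lit 29) (.e (nat_lit 450588) (nat_lit 10) (.e (nat_lit 573475) (nat_lit 12) .nil))))))) (.g (nat_lit 0) .nil .nil))))) (.nd (nat_lit 4) (.nd (nat_lit 5) 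
(.lf (nat_lit 143177) (.g (nat_lit 1959) (.e (nat_lit 57348) (nat_lit 0) (.e (nat_lit 7122) (nat_lit 382) (.e (nat_lit 1201) (nat_lit 88) (.e (nat_lit 65586) (nat_lit 7) (.e (nat_lit 319533) (nat_lit 16) .nil))))) .nil)) 
(.lf (nat_lit 143209) (.g (nat_lit 4852) (.e (nat_lit 57351) (nat_lit 0) (.e (nat_lit 7122) (nat_lit 382) (.e (nat_lit 1212) (nat_lit 89) (.e (nat_lit 73747) (nat_lit 3) (.e (nat_lit 516166) (nat_lit 12) (.e (nat_lit 450587) (nat_lit 10) (.e (nat_lit 573478) (nat_lit 12) .nil))))))) (.g (nat_lit 7) .nil .nil)))) (.nd (nat_lit 5) 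
(.lf (nat_lit 143193) (.g (nat_lit 1674) (.e (nat_lit 57350) (nat_lit 0) (.e (nat_lit 6113) (nat_lit 332) (.e (nat_lit 1361) (nat_lit 102) (.e (nat_lit 286761) (nat_lit 13) (.e (nat_lit 393281) (nat_lit 23) .nil))))) .nil)) 
(.lf (nat_lit 143225) (.g (nat_lit 3846) (.e (nat_lit 57351) (nat_lit 0) (.e (nat_lit 7265) (nat_lit 384) (.e (nat_lit 57404) (nat_lit 12) (.e (nat_lit 336028) (nat_lit 3) (.e (nat_lit 98373) (nat_lit 29) (.e (nat_lit 450588) (nat_lit 10) (.e (nat_lit 573475) (nat_lit 12) .nil))))))) (.g (nat_lit 0) .nil .nil)))))) (.nd (nat_lit 3) (.nd (nat_lit 4) (.nd (nat_lit 5) 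
(.lf (nat_lit 143173) (.g (nat_lit 5024) (.e (nat_lit 57348) (nat_lit 0) (.e (nat_lit 5593) (nat_lit 310) (.e (nat_lit 163875) (nat_lit 3) (.e (nat_lit 204863) (nat_lit 27) (.e (nat_lit 344132) (nat_lit 26) (.e (nat_lit 557105) (nat_lit 14) (.e (nat_lit 180252) (nat_lit 10) (.e (nat_lit 573474) (nat_lit 12) .nil)))))))) (.g (nat_lit 8) .nil .nil))) 
(.lf (nat_lit 143205) (.g (nat_lit 2668) (.e (nat_lit 57351) (nat_lit 0) (.e (nat_lit 5584) (nat_lit 310) (.e (nat_lit 163869) (nat_lit 2) (.e (nat_lit 196670) (nat_lit 14) (.e (nat_lit 73754) (nat_lit 8) .nil))))) .nil))) (.nd (nat_lit 5) 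
(.lf (nat_lit 143189) (.g (nat_lit 1456) (.e (nat_lit 57350) (nat_lit 0) (.e (nat_lit 2143) (nat_lit 142) (.e (nat_lit 704741) (nat_lit 11) (.e (nat_lit 16465) (nat_lit 13) (.e (nat_lit 483393) (nat_lit 23) .nil))))) .nil)) 
(.lf (nat_lit 143221) (.g (nat_lit 2939) (.e (nat_lit 57351) (nat_lit 0) (.e (nat_lit 7125) (nat_lit 382) (.e (nat_lit 1296) (nat_lit 96) (.e (nat_lit 131096) (nat_lit 3) (.e (nat_lit 98372) (nat_lit 29) (.e (nat_lit 450586) (nat_lit 10) (.e (nat_lit 573475) (nat_lit 12) .nil))))))) (.g (nat_lit 0) .nil .nil))))) (.nd (nat_lit 4) (.nd (nat_lit 5) 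
(.lf (nat_lit 143181) (.g (nat_lit 2108) (.e (nat_lit 57349) (nat_lit 0) (.e (nat_lit 1860) (nat_lit 124) (.e (nat_lit 557100) (nat_lit 13) (.e (nat_lit 172065) (nat_lit 3) (.e (nat_lit 204834) (nat_lit 19) .nil))))) .nil)) 
(.lf (nat_lit 143213) (.g (nat_lit 4740) (.e (nat_lit 57351) (nat_lit 0) (.e (nat_lit 7125) (nat_lit 382) (.e (nat_lit 1201) (nat_lit 88) (.e (nat_lit 65566) (nat_lit 2) (.e (nat_lit 90170) (nat_lit 13) (.e (nat_lit 172113) (nat_lit 10) (.e (nat_lit 434248) (nat_lit 28) (.e (nat_lit 573475) (nat_lit 12) .nil)))))))) (.g (nat_lit 0) .nil .nil)))) (.nd (nat_lit 5) 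
(.lf (nat_lit 143197) (.g (nat_lit 337) (.e (nat_lit 57350) (nat_lit 0) (.e (nat_lit 6113) (nat_lit 332) (.e (nat_lit 2810) (nat_lit 180) .nil))) .nil)) 
(.lf (nat_lit 143229) (.g (nat_lit 1762) (.e (nat_lit 57351) (nat_lit 0) (.e (nat_lit 7265) (nat_lit 384) (.e (nat_lit 57406) (nat_lit 12) (.e (nat_lit 336310) (nat_lit 16) (.e (nat_lit 164184) (nat_lit 155) .nil))))) .nil)))))) (.nd (nat_lit 2) (.nd (nat_lit 3) (.nd (nat_lit 4) (.nd (nat_lit 5) 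
(.lf (nat_lit 143171) (.g (nat_lit 2354) (.e (nat_lit 57348) (nat_lit 0) (.e (nat_lit 5593) (nat_lit 310) (.e (nat_lit 163871) (nat_lit 2) (.e (nat_lit 196670) (nat_lit 14) (.e (nat_lit 73754) (nat_lit 8) .nil))))) .nil)) 
(.lf (nat_lit 143203) (.g (nat_lit 2814) (.e (nat_lit 57351) (nat_lit 0) (.e (nat_lit 2032) (nat_lit 140) (.e (nat_lit 688182) (nat_lit 17) (.e (nat_lit 73755) (nat_lit 8) (.e (nat_lit 557098) (nat_lit 13) (.e (nat_lit 179968) (nat_lit 20) (.e (nat_lit 114712) (nat_lit 21) (.e (nat_lit 57852) (nat_lit 252) .nil)))))))) (.g (nat_lit 5) .nil .nil)))) (.nd (nat_lit 5) 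
(.lf (nat_lit 143187) (.g (nat_lit 1845) (.e (nat_lit 57349) (nat_lit 0) (.e (nat_lit 2031) (nat_lit 140) (.e (nat_lit 688177) (nat_lit 16) (.e (nat_lit 65586) (nat_lit 7) (.e (nat_lit 319531) (nat_lit 16) .nil))))) .nil)) 
(.lf (nat_lit 143219) (.g (nat_lit 5257) (.e (nat_lit 57351) (nat_lit 0) (.e (nat_lit 7125) (nat_lit 382) (.e (nat_lit 1201) (nat_lit 88) (.e (nat_lit 65570) (nat_lit 3) (.e (nat_lit 98373) (nat_lit 29) (.e (nat_lit 450588) (nat_lit 10) (.e (nat_lit 573475) (nat_lit 12) .nil))))))) (.g (nat_lit 7) .nil .nil))))) (.nd (nat_lit 4) (.nd (nat_lit 5) 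
(.lf (nat_lit 143179) (.g (nat_lit 1219) (.e (nat_lit 57348) (nat_lit 0) (.e (nat_lit 7265) (nat_lit 384) (.e (nat_lit 57347) (nat_lit 0) (.e (nat_lit 7936) (nat_lit 343) .nil)))) .nil)) 
(.lf (nat_lit 143211) (.g (nat_lit 4209) (.e (nat_lit 57351) (nat_lit 0) (.e (nat_lit 7124) (nat_lit 382) (.e (nat_lit 1296) (nat_lit 96) (.e (nat_lit 131093) (nat_lit 2) (.e (nat_lit 90170) (nat_lit 13) (.e (nat_lit 172113) (nat_lit 10) (.e (nat_lit 434247) (nat_lit 28) (.e (nat_lit 573478) (nat_lit 12) .nil)))))))) (.g (nat_lit 7) .nil .nil)))) (.nd (nat_lit 5) 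
(.lf (nat_lit 143195) (.g (nat_lit 2186) (.e (nat_lit 57350) (nat_lit 0) (.e (nat_lit 6113) (nat_lit 332) (.e (nat_lit 1361) (nat_lit 102) (.e (nat_lit 286761) (nat_lit 13) (.e (nat_lit 393289) (nat_lit 25) (.e (nat_lit 458774) (nat_lit 18) (.e (nat_lit 5936) (nat_lit 322) .nil))))))) (.g (nat_lit 6) .nil .nil))) 
(.lf (nat_lit 143227) (.g (nat_lit 1545) (.e (nat_lit 57351) (nat_lit 0) (.e (nat_lit 7265) (nat_lit 384) (.e (nat_lit 57406) (nat_lit 12) (.e (nat_lit 335971) (nat_lit 0) .nil)))) .nil))))) (.nd (nat_lit 3) (.nd (nat_lit 4) (.nd (nat_lit 5) 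
(.lf (nat_lit 143175) (.g (nat_lit 3466) (.e (nat_lit 57348) (nat_lit 0) (.e (nat_lit 6942) (nat_lit 375) (.e (nat_lit 163908) (nat_lit 12) (.e (nat_lit 426412) (nat_lit 15) (.e (nat_lit 1856) (nat_lit 124) (.e (nat_lit 557100) (nat_lit 13) (.e (nat_lit 172113) (nat_lit 10) (.e (nat_lit 434245) (nat_lit 28) (.e (nat_lit 573473) (nat_lit 12) .nil))))))))) (.g (nat_lit 6) .nil .nil))) 
(.lf (nat_lit 143207) (.g (nat_lit 3578) (.e (nat_lit 57351) (nat_lit 0) (.e (nat_lit 7122) (nat_lit 382) (.e (nat_lit 1201) (nat_lit 88) (.e (nat_lit 65581) (nat_lit 7) (.e (nat_lit 319534) (nat_lit 16) (.e (nat_lit 286756) (nat_lit 10) (.e (nat_lit 344160) (nat_lit 37) (.e (nat_lit 647201) (nat_lit 12) .nil)))))))) (.g (nat_lit 6) .nil .nil)))) (.nd (nat_lit 5) 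
(.lf (nat_lit 143191) (.g (nat_lit 331) (.e (nat_lit 57350) (nat_lit 0) (.e (nat_lit 6113) (nat_lit 332) (.e (nat_lit 1361) (nat_lit 102) .nil))) .nil)) 
(.lf (nat_lit 143223) (.g (nat_lit 1955) (.e (nat_lit 57351) (nat_lit 0) (.e (nat_lit 7263) (nat_lit 384) (.e (nat_lit 57409) (nat_lit 12) (.e (nat_lit 336019) (nat_lit 3) (.e (nat_lit 98372) (nat_lit 29) .nil))))) .nil)))) (.nd (nat_lit 4) (.nd (nat_lit 5) 
(.lf (nat_lit 143183) (.g (nat_lit 2516) (.e (nat_lit 57349) (nat_lit 0) (.e (nat_lit 1860) (nat_lit 124) (.e (nat_lit 557105) (nat_lit 14) (.e (nat_lit 180252) (nat_lit 10) (.e (nat_lit 573481) (nat_lit 13) .nil))))) .nil)) 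
(.lf (nat_lit 143215) (.g (nat_lit 4731) (.e (nat_lit 57351) (nat_lit 0) (.e (nat_lit 7125) (nat_lit 382) (.e (nat_lit 1201) (nat_lit 88) (.e (nat_lit 65569) (nat_lit 3) (.e (nat_lit 98359) (nat_lit 26) (.e (nat_lit 426286) (nat_lit 10) (.e (nat_lit 434248) (nat_lit 28) (.e (nat_lit 573475) (nat_lit 12) .nil)))))))) (.g (nat_lit 0) .nil .nil)))) (.nd (nat_lit 5) 
(.lf (nat_lit 143199) (.g (nat_lit 1312) (.e (nat_lit 57350) (nat_lit 0) (.e (nat_lit 6113) (nat_lit 332) (.e (nat_lit 2810) (nat_lit 180) (.e (nat_lit 303145) (nat_lit 13) (.e (nat_lit 483401) (nat_lit 25) .nil))))) .nil)) 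
(.lf (nat_lit 143231) (.g (nat_lit 3856) (.e (nat_lit 57351) (nat_lit 0) (.e (nat_lit 7265) (nat_lit 384) (.e (nat_lit 57420) (nat_lit 13) (.e (nat_lit 344117) (nat_lit 21) (.e (nat_lit 516166) (nat_lit 12) (.e (nat_lit 450588) (nat_lit 10) (.e (nat_lit 573475) (nat_lit 12) .nil))))))) (.g (nat_lit 0) .nil .nil)))))))))

noncomputable def tv1899 : DT := (.nd (nat_lit 0) (.nd (nat_lit 1) (.nd (nat_lit 2) (.nd (nat_lit 3) (.nd (nat_lit 4) (.nd (nat_lit 5) 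
(.lf (nat_lit 143232) (.g (nat_lit 3882) (.e (nat_lit 57351) (nat_lit 0) (.e (nat_lit 7265) (nat_lit 384) (.e (nat_lit 57421) (nat_lit 13) (.e (nat_lit 344117) (nat_lit 21) (.e (nat_lit 516166) (nat_lit 12) (.e (nat_lit 450588) (nat_lit 10) (.e (nat_lit 573475) (nat_lit 12) .nil))))))) (.g (nat_lit 0) .nil .nil))) 
(.lf (nat_lit 143264) (.g (nat_lit 4160) (.e (nat_lit 57353) (nat_lit 0) (.e (nat_lit 7125) (nat_lit 382) (.e (nat_lit 1201) (nat_lit 88) (.e (nat_lit 65571) (nat_lit 3) (.e (nat_lit 98373) (nat_lit 29) (.e (nat_lit 450587) (nat_lit 10) (.e (nat_lit 573478) (nat_lit 12) .nil))))))) (.g (nat_lit 7) .nil .nil)))) (.nd (nat_lit 5) 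
(.lf (nat_lit 143248) (.g (nat_lit 1681) (.e (nat_lit 57352) (nat_lit 0) (.e (nat_lit 7125) (nat_lit 382) (.e (nat_lit 1201) (nat_lit 88) (.e (nat_lit 65570) (nat_lit 3) .nil)))) .nil)) 
(.lf (nat_lit 143280) (.g (nat_lit 1210) (.e (nat_lit 57353) (nat_lit 0) (.e (nat_lit 7265) (nat_lit 384) (.e (nat_lit 57347) (nat_lit 0) (.e (nat_lit 7936) (nat_lit 343) .nil)))) .nil)))) (.nd (nat_lit 4) (.nd (nat_lit 5) 
(.lf (nat_lit 143240) (.g (nat_lit 4310) (.e (nat_lit 57352) (nat_lit 0) (.e (nat_lit 7122) (nat_lit 382) (.e (nat_lit 1201) (nat_lit 88) (.e (nat_lit 65569) (nat_lit 3) (.e (nat_lit 98359) (nat_lit 26) (.e (nat_lit 426286) (nat_lit 10) (.e (nat_lit 434248) (nat_lit 28) (.e (nat_lit 573473) (nat_lit 12) .nil)))))))) (.g (nat_lit 0) .nil .nil))) 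
(.lf (nat_lit 143272) (.g (nat_lit 4442) (.e (nat_lit 57353) (nat_lit 0) (.e (nat_lit 7261) (nat_lit 384) (.e (nat_lit 57371) (nat_lit 2) (.e (nat_lit 90128) (nat_lit 9) (.e (nat_lit 297) (nat_lit 22) (.e (nat_lit 344132) (nat_lit 26) (.e (nat_lit 557101) (nat_lit 13) (.e (nat_lit 172064) (nat_lit 2) (.e (nat_lit 196661) (nat_lit 12) .nil))))))))) (.g (nat_lit 8) .nil .nil)))) (.nd (nat_lit 5) 
(.lf (nat_lit 143256) (.g (nat_lit 707) (.e (nat_lit 57353) (nat_lit 0) (.e (nat_lit 2160) (nat_lit 143) (.e (nat_lit 712755) (nat_lit 30) (.e (nat_lit 450588) (nat_lit 10) .nil)))) .nil)) 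
(.lf (nat_lit 143288) (.g (nat_lit 1457) (.e (nat_lit 57353) (nat_lit 0) (.e (nat_lit 7265) (nat_lit 384) (.e (nat_lit 57406) (nat_lit 12) (.e (nat_lit 336456) (nat_lit 34) (.e (nat_lit 483387) (nat_lit 23) .nil))))) .nil))))) (.nd (nat_lit 3) (.nd (nat_lit 4) (.nd (nat_lit 5) 
(.lf (nat_lit 143236) (.g (nat_lit 4866) (.e (nat_lit 57352) (nat_lit 0) (.e (nat_lit 7122) (nat_lit 382) (.e (nat_lit 1201) (nat_lit 88) (.e (nat_lit 65566) (nat_lit 2) (.e (nat_lit 90170) (nat_lit 13) (.e (nat_lit 172106) (nat_lit 10) (.e (nat_lit 434244) (nat_lit 28) (.e (nat_lit 573473) (nat_lit 12) .nil)))))))) (.g (nat_lit 0) .nil .nil))) 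
(.lf (nat_lit 143268) (.g (nat_lit 3448) (.e (nat_lit 57353) (nat_lit 0) (.e (nat_lit 7125) (nat_lit 382) (.e (nat_lit 1214) (nat_lit 89) (.e (nat_lit 73746) (nat_lit 3) (.e (nat_lit 516165) (nat_lit 12) (.e (nat_lit 450587) (nat_lit 10) (.e (nat_lit 573477) (nat_lit 12) .nil))))))) (.g (nat_lit 6) .nil .nil)))) (.nd (nat_lit 5) 
(.lf (nat_lit 143252) (.g (nat_lit 1945) (.e (nat_lit 57352) (nat_lit 0) (.e (nat_lit 7261) (nat_lit 384) (.e (nat_lit 57371) (nat_lit 2) (.e (nat_lit 90128) (nat_lit 9) (.e (nat_lit 304) (nat_lit 22) .nil))))) .nil)) 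
(.lf (nat_lit 143284) (.g (nat_lit 3965) (.e (nat_lit 57353) (nat_lit 0) (.e (nat_lit 7265) (nat_lit 384) (.e (nat_lit 57404) (nat_lit 12) (.e (nat_lit 336028) (nat_lit 3) (.e (nat_lit 98373) (nat_lit 29) (.e (nat_lit 450588) (nat_lit 10) (.e (nat_lit 573473) (nat_lit 12) .nil))))))) (.g (nat_lit 0) .nil .nil))))) (.nd (nat_lit 4) (.nd (nat_lit 5) 
(.lf (nat_lit 143244) (.g (nat_lit 4405) (.e (nat_lit 57352) (nat_lit 0) (.e (nat_lit 7122) (nat_lit 382) (.e (nat_lit 1212) (nat_lit 89) (.e (nat_lit 73747) (nat_lit 3) (.e (nat_lit 516166) (nat_lit 12) (.e (nat_lit 450587) (nat_lit 10) (.e (nat_lit 573478) (nat_lit 12) .nil))))))) (.g (nat_lit 6) .nil .nil))) 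
(.lf (nat_lit 143276) (.g (nat_lit 1150) (.e (nat_lit 57353) (nat_lit 0) (.e (nat_lit 7261) (nat_lit 384) (.e (nat_lit 57377) (nat_lit 3) (.e (nat_lit 106240) (nat_lit 10) .nil)))) .nil))) (.nd (nat_lit 5) 
(.lf (nat_lit 143260) (.g (nat_lit 4459) (.e (nat_lit 57353) (nat_lit 0) (.e (nat_lit 7124) (nat_lit 382) (.e (nat_lit 1201) (nat_lit 88) (.e (nat_lit 65569) (nat_lit 3) (.e (nat_lit 98373) (nat_lit 29) (.e (nat_lit 450588) (nat_lit 10) (.e (nat_lit 573473) (nat_lit 12) .nil))))))) (.g (nat_lit 0) .nil .nil))) 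
(.lf (nat_lit 143292) (.g (nat_lit 1863) (.e (nat_lit 57353) (nat_lit 0) (.e (nat_lit 7266) (nat_lit 384) (.e (nat_lit 57417) (nat_lit 12) (.e (nat_lit 336017) (nat_lit 3) (.e (nat_lit 98372) (nat_lit 29) .nil))))) .nil)))))) (.nd (nat_lit 2) (.nd (nat_lit 3) (.nd (nat_lit 4) (.nd (nat_lit 5) 
(.lf (nat_lit 143234) (.g (nat_lit 1484) (.e (nat_lit 57351) (nat_lit 0) (.e (nat_lit 7266) (nat_lit 384) (.e (nat_lit 57417) (nat_lit 12) (.e (nat_lit 336017) (nat_lit 3) .nil)))) .nil)) 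
(.lf (nat_lit 143266) (.g (nat_lit 4501) (.e (nat_lit 57353) (nat_lit 0) (.e (nat_lit 7125) (nat_lit 382) (.e (nat_lit 1212) (nat_lit 89) (.e (nat_lit 73747) (nat_lit 3) (.e (nat_lit 516166) (nat_lit 12) (.e (nat_lit 450587) (nat_lit 10) (.e (nat_lit 573478) (nat_lit 12) .nil))))))) (.g (nat_lit 6) .nil .nil)))) (.nd (nat_lit 5) 
(.lf (nat_lit 143250) (.g (nat_lit 463) (.e (nat_lit 57352) (nat_lit 0) (.e (nat_lit 7125) (nat_lit 382) (.e (nat_lit 1296) (nat_lit 96) .nil))) .nil)) 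
(.lf (nat_lit 143282) (.g (nat_lit 1930) (.e (nat_lit 57353) (nat_lit 0) (.e (nat_lit 7265) (nat_lit 384) (.e (nat_lit 57371) (nat_lit 2) (.e (nat_lit 90128) (nat_lit 9) (.e (nat_lit 7936) (nat_lit 22) .nil))))) .nil)))) (.nd (nat_lit 4) (.nd (nat_lit 5) 
(.lf (nat_lit 143242) (.g (nat_lit 4501) (.e (nat_lit 57352) (nat_lit 0) (.e (nat_lit 7122) (nat_lit 382) (.e (nat_lit 1201) (nat_lit 88) (.e (nat_lit 65571) (nat_lit 3) (.e (nat_lit 98359) (nat_lit 26) (.e (nat_lit 426286) (nat_lit 10) (.e (nat_lit 434248) (nat_lit 28) (.e (nat_lit 573473) (nat_lit 12) .nil)))))))) (.g (nat_lit 0) .nil .nil))) 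
(.lf (nat_lit 143274) (.g (nat_lit 1624) (.e (nat_lit 57353) (nat_lit 0) (.e (nat_lit 7261) (nat_lit 384) (.e (nat_lit 57371) (nat_lit 2) (.e (nat_lit 90133) (nat_lit 9) (.e (nat_lit 296) (nat_lit 22) .nil))))) .nil))) (.nd (nat_lit 5) 
(.lf (nat_lit 143258) (.g (nat_lit 2067) (.e (nat_lit 57353) (nat_lit 0) (.e (nat_lit 5584) (nat_lit 310) (.e (nat_lit 163869) (nat_lit 2) (.e (nat_lit 196670) (nat_lit 14) (.e (nat_lit 73746) (nat_lit 3) .nil))))) .nil)) 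
(.lf (nat_lit 143290) (.g (nat_lit 4093) (.e (nat_lit 57353) (nat_lit 0) (.e (nat_lit 7266) (nat_lit 384) (.e (nat_lit 57404) (nat_lit 12) (.e (nat_lit 336013) (nat_lit 2) (.e (nat_lit 90170) (nat_lit 13) (.e (nat_lit 172113) (nat_lit 10) (.e (nat_lit 434247) (nat_lit 28) (.e (nat_lit 573478) (nat_lit 12) .nil)))))))) (.g (nat_lit 8) .nil .nil)))))) 
(.nd (nat_lit 3) (.nd (nat_lit 4) (.nd (nat_lit 5) 
(.lf (nat_lit 143238) (.g (nat_lit 5238) (.e (nat_lit 57352) (nat_lit 0) (.e (nat_lit 7122) (nat_lit 382) (.e (nat_lit 1201) (nat_lit 88) (.e (nat_lit 65568) (nat_lit 2) (.e (nat_lit 90170) (nat_lit 13) (.e (nat_lit 172106) (nat_lit 10) (.e (nat_lit 434244) (nat_lit 28) (.e (nat_lit 573473) (nat_lit 12) .nil)))))))) (.g (nat_lit 0) .nil .nil))) 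
(.lf (nat_lit 143270) (.g (nat_lit 1359) (.e (nat_lit 57353) (nat_lit 0) (.e (nat_lit 7125) (nat_lit 382) (.e (nat_lit 1214) (nat_lit 89) (.e (nat_lit 73749) (nat_lit 4) .nil)))) .nil))) (.nd (nat_lit 5) 
(.lf (nat_lit 143254) (.g (nat_lit 3882) (.e (nat_lit 57352) (nat_lit 0) (.e (nat_lit 7261) (nat_lit 384) (.e (nat_lit 57430) (nat_lit 16) (.e (nat_lit 368676) (nat_lit 21) (.e (nat_lit 516176) (nat_lit 14) (.e (nat_lit 466967) (nat_lit 20) (.e (nat_lit 3305) (nat_lit 202) (.e (nat_lit 573477) (nat_lit 12) .nil)))))))) (.g (nat_lit 8) .nil .nil))) 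
(.lf (nat_lit 143286) (.g (nat_lit 1283) (.e (nat_lit 57353) (nat_lit 0) (.e (nat_lit 7265) (nat_lit 384) (.e (nat_lit 57406) (nat_lit 12) (.e (nat_lit 336019) (nat_lit 3) .nil)))) .nil)))) (.nd (nat_lit 4) (.nd (nat_lit 5) 
(.lf (nat_lit 143246) (.g (nat_lit 1543) (.e (nat_lit 57352) (nat_lit 0) (.e (nat_lit 7124) (nat_lit 382) (.e (nat_lit 1201) (nat_lit 88) (.e (nat_lit 65569) (nat_lit 3) (.e (nat_lit 98372) (nat_lit 29) .nil))))) .nil)) 
(.lf (nat_lit 143278) (.g (nat_lit 3865) (.e (nat_lit 57353) (nat_lit 0) (.e (nat_lit 7261) (nat_lit 384) (.e (nat_lit 57430) (nat_lit 16) (.e (nat_lit 368676) (nat_lit 21) (.e (nat_lit 516176) (nat_lit 14) (.e (nat_lit 466967) (nat_lit 20) (.e (nat_lit 3305) (nat_lit 202) (.e (nat_lit 573477) (nat_lit 12) .nil)))))))) (.g (nat_lit 8) .nil .nil)))) (.nd (nat_lit 5) 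
(.lf (nat_lit 143262) (.g (nat_lit 3841) (.e (nat_lit 57353) (nat_lit 0) (.e (nat_lit 7125) (nat_lit 382) (.e (nat_lit 1201) (nat_lit 88) (.e (nat_lit 65569) (nat_lit 3) (.e (nat_lit 98373) (nat_lit 29) (.e (nat_lit 450587) (nat_lit 10) (.e (nat_lit 573478) (nat_lit 12) .nil))))))) (.g (nat_lit 7) .nil .nil))) 
(.lf (nat_lit 143294) (.g (nat_lit 1955) (.e (nat_lit 57353) (nat_lit 0) (.e (nat_lit 7695) (nat_lit 412) (.e (nat_lit 57373) (nat_lit 2) (.e (nat_lit 90185) (nat_lit 17) (.e (nat_lit 237592) (nat_lit 3) .nil))))) .nil))))))) (.nd (nat_lit 1) (.nd (nat_lit 2) (.nd (nat_lit 3) (.nd (nat_lit 4) (.nd (nat_lit 5) 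
(.lf (nat_lit 143233) (.g (nat_lit 3649) (.e (nat_lit 57351) (nat_lit 0) (.e (nat_lit 7265) (nat_lit 384) (.e (nat_lit 57431) (nat_lit 16) (.e (nat_lit 368676) (nat_lit 21) (.e (nat_lit 516176) (nat_lit 14) (.e (nat_lit 466967) (nat_lit 20) (.e (nat_lit 3305) (nat_lit 202) (.e (nat_lit 573477) (nat_lit 12) .nil)))))))) (.g (nat_lit 8) .nil .nil))) 
(.lf (nat_lit 143265) (.g (nat_lit 1666) (.e (nat_lit 57353) (nat_lit 0) (.e (nat_lit 7125) (nat_lit 382) (.e (nat_lit 1201) (nat_lit 88) (.e (nat_lit 65581) (nat_lit 7) (.e (nat_lit 319533) (nat_lit 16) .nil))))) .nil))) (.nd (nat_lit 5) 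
(.lf (nat_lit 143249) (.g (nat_lit 1867) (.e (nat_lit 57352) (nat_lit 0) (.e (nat_lit 7125) (nat_lit 382) (.e (nat_lit 1201) (nat_lit 88) (.e (nat_lit 65586) (nat_lit 7) (.e (nat_lit 319531) (nat_lit 16) .nil))))) .nil)) 
(.lf (nat_lit 143281) (.g (nat_lit 2495) (.e (nat_lit 57353) (nat_lit 0) (.e (nat_lit 7265) (nat_lit 384) (.e (nat_lit 57371) (nat_lit 2) (.e (nat_lit 90128) (nat_lit 9) (.e (nat_lit 304) (nat_lit 22) (.e (nat_lit 344130) (nat_lit 26) (.e (nat_lit 557097) (nat_lit 13) (.e (nat_lit 172064) (nat_lit 2) (.e (nat_lit 196661) (nat_lit 12) .nil))))))))) (.g (nat_lit 4) .nil .nil))))) 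
(.nd (nat_lit 4) (.nd (nat_lit 5) 
(.lf (nat_lit 143241) (.g (nat_lit 4517) (.e (nat_lit 57352) (nat_lit 0) (.e (nat_lit 7122) (nat_lit 382) (.e (nat_lit 1201) (nat_lit 88) (.e (nat_lit 65569) (nat_lit 3) (.e (nat_lit 98373) (nat_lit 29) (.e (nat_lit 450588) (nat_lit 10) (.e (nat_lit 573473) (nat_lit 12) .nil))))))) (.g (nat_lit 0) .nil .nil))) 
(.lf (nat_lit 143273) (.g (nat_lit 1590) (.e (nat_lit 57353) (nat_lit 0) (.e (nat_lit 7261) (nat_lit 384) (.e (nat_lit 57371) (nat_lit 2) (.e (nat_lit 90128) (nat_lit 9) (.e (nat_lit 7936) (nat_lit 22) .nil))))) .nil))) (.nd (nat_lit 5) 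
(.lf (nat_lit 143257) (.g (nat_lit 714) (.e (nat_lit 57353) (nat_lit 0) (.e (nat_lit 4411) (nat_lit 259) (.e (nat_lit 57447) (nat_lit 19) (.e (nat_lit 393301) (nat_lit 27) .nil)))) .nil)) 
(.lf (nat_lit 143289) (.g (nat_lit 3956) (.e (nat_lit 57353) (nat_lit 0) (.e (nat_lit 7265) (nat_lit 384) (.e (nat_lit 57430) (nat_lit 16) (.e (nat_lit 368676) (nat_lit 21) (.e (nat_lit 516176) (nat_lit 14) (.e (nat_lit 466967) (nat_lit 20) (.e (nat_lit 3305) (nat_lit 202) (.e (nat_lit 573477) (nat_lit 12) .nil)))))))) (.g (nat_lit 8) .nil .nil)))))) 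
(.nd (nat_lit 3) (.nd (nat_lit 4) (.nd (nat_lit 5) 
(.lf (nat_lit 143237) (.g (nat_lit 4269) (.e (nat_lit 57352) (nat_lit 0) (.e (nat_lit 7122) (nat_lit 382) (.e (nat_lit 1201) (nat_lit 88) (.e (nat_lit 65566) (nat_lit 2) (.e (nat_lit 90170) (nat_lit 13) (.e (nat_lit 172113) (nat_lit 10) (.e (nat_lit 434248) (nat_lit 28) (.e (nat_lit 573473) (nat_lit 12) .nil)))))))) (.g (nat_lit 0) .nil .nil))) 
(.lf (nat_lit 143269) (.g (nat_lit 4404) (.e (nat_lit 57353) (nat_lit 0) (.e (nat_lit 7125) (nat_lit 382) (.e (nat_lit 1214) (nat_lit 89) (.e (nat_lit 73746) (nat_lit 3) (.e (nat_lit 516166) (nat_lit 12) (.e (nat_lit 450587) (nat_lit 10) (.e (nat_lit 573478) (nat_lit 12) .nil))))))) (.g (nat_lit 6) .nil .nil)))) (.nd (nat_lit 5) 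
(.lf (nat_lit 143253) (.g (nat_lit 1150) (.e (nat_lit 57352) (nat_lit 0) (.e (nat_lit 7261) (nat_lit 384) (.e (nat_lit 57377) (nat_lit 3) (.e (nat_lit 106240) (nat_lit 10) .nil)))) .nil)) 
(.lf (nat_lit 143285) (.g (nat_lit 1579) (.e (nat_lit 57353) (nat_lit 0) (.e (nat_lit 7265) (nat_lit 384) (.e (nat_lit 57406) (nat_lit 12) (.e (nat_lit 335971) (nat_lit 0) .nil)))) .nil)))) (.nd (nat_lit 4) (.nd (nat_lit 5) 
(.lf (nat_lit 143245) (.g (nat_lit 5541) (.e (nat_lit 57352) (nat_lit 0) (.e (nat_lit 7122) (nat_lit 382) (.e (nat_lit 1212) (nat_lit 89) (.e (nat_lit 73747) (nat_lit 3) (.e (nat_lit 516166) (nat_lit 12) (.e (nat_lit 450588) (nat_lit 10) (.e (nat_lit 573473) (nat_lit 12) .nil))))))) (.g (nat_lit 7) .nil .nil))) 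
(.lf (nat_lit 143277) (.g (nat_lit 3870) (.e (nat_lit 57353) (nat_lit 0) (.e (nat_lit 7261) (nat_lit 384) (.e (nat_lit 57404) (nat_lit 12) (.e (nat_lit 336028) (nat_lit 3) (.e (nat_lit 98373) (nat_lit 29) (.e (nat_lit 450588) (nat_lit 10) (.e (nat_lit 573473) (nat_lit 12) .nil))))))) (.g (nat_lit 0) .nil .nil)))) (.nd (nat_lit 5) 
(.lf (nat_lit 143261) (.g (nat_lit 4344) (.e (nat_lit 57353) (nat_lit 0) (.e (nat_lit 7124) (nat_lit 382) (.e (nat_lit 1212) (nat_lit 89) (.e (nat_lit 73747) (nat_lit 3) (.e (nat_lit 516166) (nat_lit 12) (.e (nat_lit 450587) (nat_lit 10) (.e (nat_lit 573477) (nat_lit 12) .nil))))))) (.g (nat_lit 6) .nil .nil))) 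
(.lf (nat_lit 143293) (.g (nat_lit 4280) (.e (nat_lit 57353) (nat_lit 0) (.e (nat_lit 7266) (nat_lit 384) (.e (nat_lit 57430) (nat_lit 16) (.e (nat_lit 368676) (nat_lit 21) (.e (nat_lit 516176) (nat_lit 14) (.e (nat_lit 466967) (nat_lit 20) (.e (nat_lit 3305) (nat_lit 202) (.e (nat_lit 573477) (nat_lit 12) .nil)))))))) (.g (nat_lit 8) .nil .nil))))))) 
(.nd (nat_lit 2) (.nd (nat_lit 3) (.nd (nat_lit 4) (.nd (nat_lit 5) 
(.lf (nat_lit 143235) (.g (nat_lit 1054) (.e (nat_lit 57351) (nat_lit 0) (.e (nat_lit 7695) (nat_lit 412) (.e (nat_lit 57389) (nat_lit 5) (.e (nat_lit 114711) (nat_lit 21) .nil)))) .nil)) 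
(.lf (nat_lit 143267) (.g (nat_lit 1122) (.e (nat_lit 57353) (nat_lit 0) (.e (nat_lit 7125) (nat_lit 382) (.e (nat_lit 1214) (nat_lit 89) (.e (nat_lit 73746) (nat_lit 3) .nil)))) .nil))) (.nd (nat_lit 5) 
(.lf (nat_lit 143251) (.g (nat_lit 1259) (.e (nat_lit 57352) (nat_lit 0) (.e (nat_lit 7125) (nat_lit 382) (.e (nat_lit 1296) (nat_lit 96) (.e (nat_lit 131097) (nat_lit 3) .nil)))) .nil)) 
(.lf (nat_lit 143283) (.g (nat_lit 1220) (.e (nat_lit 57353) (nat_lit 0) (.e (nat_lit 7265) (nat_lit 384) (.e (nat_lit 57377) (nat_lit 3) (.e (nat_lit 106240) (nat_lit 10) .nil)))) .nil)))) (.nd (nat_lit 4) (.nd (nat_lit 5) 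
(.lf (nat_lit 143243) (.g (nat_lit 4684) (.e (nat_lit 57352) (nat_lit 0) (.e (nat_lit 7122) (nat_lit 382) (.e (nat_lit 1201) (nat_lit 88) (.e (nat_lit 65571) (nat_lit 3) (.e (nat_lit 98373) (nat_lit 29) (.e (nat_lit 450588) (nat_lit 10) (.e (nat_lit 573473) (nat_lit 12) .nil))))))) (.g (nat_lit 0) .nil .nil))) 
(.lf (nat_lit 143275) (.g (nat_lit 1068) (.e (nat_lit 57353) (nat_lit 0) (.e (nat_lit 7261) (nat_lit 384) (.e (nat_lit 57371) (nat_lit 2) (.e (nat_lit 90162) (nat_lit 12) .nil)))) .nil))) (.nd (nat_lit 5) 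
(.lf (nat_lit 143259) (.g (nat_lit 2029) (.e (nat_lit 57353) (nat_lit 0) (.e (nat_lit 7122) (nat_lit 382) (.e (nat_lit 1201) (nat_lit 88) (.e (nat_lit 65570) (nat_lit 3) (.e (nat_lit 98373) (nat_lit 29) .nil))))) .nil)) 
(.lf (nat_lit 143291) (.g (nat_lit 4344) (.e (nat_lit 57353) (nat_lit 0) (.e (nat_lit 7266) (nat_lit 384) (.e (nat_lit 57404) (nat_lit 12) (.e (nat_lit 336013) (nat_lit 2) (.e (nat_lit 90170) (nat_lit 13) (.e (nat_lit 172113) (nat_lit 10) (.e (nat_lit 434248) (nat_lit 28) (.e (nat_lit 573475) (nat_lit 12) .nil)))))))) (.g (nat_lit 8) .nil .nil)))))) 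
(.nd (nat_lit 3) (.nd (nat_lit 4) (.nd (nat_lit 5) 
(.lf (nat_lit 143239) (.g (nat_lit 4512) (.e (nat_lit 57352) (nat_lit 0) (.e (nat_lit 7122) (nat_lit 382) (.e (nat_lit 1201) (nat_lit 88) (.e (nat_lit 65568) (nat_lit 2) (.e (nat_lit 90170) (nat_lit 13) (.e (nat_lit 172113) (nat_lit 10) (.e (nat_lit 434248) (nat_lit 28) (.e (nat_lit 573473) (nat_lit 12) .nil)))))))) (.g (nat_lit 0) .nil .nil))) 
(.lf (nat_lit 143271) (.g (nat_lit 4866) (.e (nat_lit 57353) (nat_lit 0) (.e (nat_lit 7261) (nat_lit 384) (.e (nat_lit 57371) (nat_lit 2) (.e (nat_lit 90128) (nat_lit 9) (.e (nat_lit 297) (nat_lit 22) (.e (nat_lit 344132) (nat_lit 26) (.e (nat_lit 557100) (nat_lit 13) (.e (nat_lit 172062) (nat_lit 2) (.e (nat_lit 196661) (nat_lit 12) .nil))))))))) (.g (nat_lit 8) .nil .nil)))) (.nd (nat_lit 5) 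
(.lf (nat_lit 143255) (.g (nat_lit 3885) (.e (nat_lit 57352) (nat_lit 0) (.e (nat_lit 7261) (nat_lit 384) (.e (nat_lit 57432) (nat_lit 16) (.e (nat_lit 368676) (nat_lit 21) (.e (nat_lit 516176) (nat_lit 14) (.e (nat_lit 466967) (nat_lit 20) (.e (nat_lit 3305) (nat_lit 202) (.e (nat_lit 573477) (nat_lit 12) .nil)))))))) (.g (nat_lit 8) .nil .nil))) 
(.lf (nat_lit 143287) (.g (nat_lit 1954) (.e (nat_lit 57353) (nat_lit 0) (.e (nat_lit 7265) (nat_lit 384) (.e (nat_lit 57406) (nat_lit 12) (.e (nat_lit 336019) (nat_lit 3) (.e (nat_lit 98373) (nat_lit 29) .nil))))) .nil)))) (.nd (nat_lit 4) (.nd (nat_lit 5) 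
(.lf (nat_lit 143247) (.g (nat_lit 1990) (.e (nat_lit 57352) (nat_lit 0) (.e (nat_lit 7125) (nat_lit 382) (.e (nat_lit 1201) (nat_lit 88) (.e (nat_lit 65569) (nat_lit 3) (.e (nat_lit 98372) (nat_lit 29) .nil))))) .nil)) 
(.lf (nat_lit 143279) (.g (nat_lit 3907) (.e (nat_lit 57353) (nat_lit 0) (.e (nat_lit 7261) (nat_lit 384) (.e (nat_lit 57432) (nat_lit 16) (.e (nat_lit 368676) (nat_lit 21) (.e (nat_lit 516176) (nat_lit 14) (.e (nat_lit 466967) (nat_lit 20) (.e (nat_lit 3305) (nat_lit 202) (.e (nat_lit 573477) (nat_lit 12) .nil)))))))) (.g (nat_lit 8) .nil .nil)))) (.nd (nat_lit 5) 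
(.lf (nat_lit 143263) (.g (nat_lit 2056) (.e (nat_lit 57353) (nat_lit 0) (.e (nat_lit 7125) (nat_lit 382) (.e (nat_lit 1201) (nat_lit 88) (.e (nat_lit 65570) (nat_lit 3) (.e (nat_lit 98372) (nat_lit 29) .nil))))) .nil)) 
(.lf (nat_lit 143295) (.g (nat_lit 3649) (.e (nat_lit 57353) (nat_lit 0) (.e (nat_lit 7695) (nat_lit 412) (.e (nat_lit 57375) (nat_lit 2) (.e (nat_lit 90172) (nat_lit 14) (.e (nat_lit 180244) (nat_lit 5) (.e (nat_lit 532579) (nat_lit 26) (.e (nat_lit 426123) (nat_lit 2) (.e (nat_lit 196661) (nat_lit 12) .nil)))))))) (.g (nat_lit 6) .nil .nil)))))))))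

noncomputable def tv1900 : DT := (.nd (nat_lit 0) (.nd (nat_lit 1) (.nd (nat_lit 2) (.nd (nat_lit 3) (.nd (nat_lit 4) (.nd (nat_lit 5) 
(.lf (nat_lit 143296) (.g (nat_lit 2451) (.e (nat_lit 57354) (nat_lit 0) (.e (nat_lit 1788) (nat_lit 119) (.e (nat_lit 516129) (nat_lit 3) (.e (nat_lit 221210) (nat_lit 22) (.e (nat_lit 196665) (nat_lit 13) .nil))))) .nil)) 
(.lf (nat_lit 143328) (.g (nat_lit 4198) (.e (nat_lit 57354) (nat_lit 0) (.e (nat_lit 1855) (nat_lit 124) (.e (nat_lit 557105) (nat_lit 14) (.e (nat_lit 180252) (nat_lit 10) (.e (nat_lit 573489) (nat_lit 14) (.e (nat_lit 73755) (nat_lit 8) (.e (nat_lit 557090) (nat_lit 12) (.e (nat_lit 163846) (nat_lit 0) (.e (nat_lit 5200) (nat_lit 294) .nil))))))))) (.g (nat_lit 7) .nil .nil)))) 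
(.nd (nat_lit 5) 
(.lf (nat_lit 143312) (.g (nat_lit 2687) (.e (nat_lit 57354) (nat_lit 0) (.e (nat_lit 1855) (nat_lit 124) (.e (nat_lit 557100) (nat_lit 13) (.e (nat_lit 172067) (nat_lit 3) (.e (nat_lit 204834) (nat_lit 19) .nil))))) .nil)) 
(.lf (nat_lit 143344) (.g (nat_lit 3064) (.e (nat_lit 57354) (nat_lit 0) (.e (nat_lit 1855) (nat_lit 124) (.e (nat_lit 557109) (nat_lit 15) (.e (nat_lit 188461) (nat_lit 26) (.e (nat_lit 253966) (nat_lit 9) (.e (nat_lit 1183) (nat_lit 87) (.e (nat_lit 57848) (nat_lit 252) (.e (nat_lit 57368) (nat_lit 1) (.e (nat_lit 57851) (nat_lit 252) .nil))))))))) (.g (nat_lit 4) .nil .nil))))) 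
(.nd (nat_lit 4) (.nd (nat_lit 5) 
(.lf (nat_lit 143304) (.g (nat_lit 1147) (.e (nat_lit 57354) (nat_lit 0) (.e (nat_lit 1788) (nat_lit 119) (.e (nat_lit 516195) (nat_lit 26) (.e (nat_lit 336213) (nat_lit 13) .nil)))) .nil)) 
(.lf (nat_lit 143336) (.g (nat_lit 1630) (.e (nat_lit 57354) (nat_lit 0) (.e (nat_lit 1855) (nat_lit 124) (.e (nat_lit 557109) (nat_lit 15) (.e (nat_lit 188447) (nat_lit 22) .nil)))) .nil))) (.nd (nat_lit 5) 
(.lf (nat_lit 143320) (.g (nat_lit 2354) (.e (nat_lit 57354) (nat_lit 0) (.e (nat_lit 1855) (nat_lit 124) (.e (nat_lit 557105) (nat_lit 14) (.e (nat_lit 180252) (nat_lit 10) (.e (nat_lit 573481) (nat_lit 13) .nil))))) .nil)) 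
(.lf (nat_lit 143352) (.g (nat_lit 1721) (.e (nat_lit 57354) (nat_lit 0) (.e (nat_lit 1857) (nat_lit 124) (.e (nat_lit 557107) (nat_lit 15) (.e (nat_lit 188450) (nat_lit 23) (.e (nat_lit 204855) (nat_lit 26) .nil))))) .nil))))) (.nd (nat_lit 3) (.nd (nat_lit 4) (.nd (nat_lit 5) 
(.lf (nat_lit 143300) (.g (nat_lit 2275) (.e (nat_lit 57354) (nat_lit 0) (.e (nat_lit 1788) (nat_lit 119) (.e (nat_lit 516151) (nat_lit 9) (.e (nat_lit 426331) (nat_lit 13) .nil)))) .nil)) 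
(.lf (nat_lit 143332) (.g (nat_lit 2179) (.e (nat_lit 57354) (nat_lit 0) (.e (nat_lit 1855) (nat_lit 124) (.e (nat_lit 557107) (nat_lit 15) (.e (nat_lit 188447) (nat_lit 22) (.e (nat_lit 196666) (nat_lit 13) .nil))))) .nil))) (.nd (nat_lit 5) 
(.lf (nat_lit 143316) (.g (nat_lit 3362) (.e (nat_lit 57354) (nat_lit 0) (.e (nat_lit 1855) (nat_lit 124) (.e (nat_lit 557100) (nat_lit 13) (.e (nat_lit 172106) (nat_lit 10) (.e (nat_lit 434231) (nat_lit 23) (.e (nat_lit 532535) (nat_lit 9) (.e (nat_lit 336030) (nat_lit 4) (.e (nat_lit 123198) (nat_lit 266) .nil)))))))) (.g (nat_lit 6) .nil .nil))) 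
(.lf (nat_lit 143348) (.g (nat_lit 3074) (.e (nat_lit 57354) (nat_lit 0) (.e (nat_lit 1855) (nat_lit 124) (.e (nat_lit 557109) (nat_lit 15) (.e (nat_lit 188461) (nat_lit 26) (.e (nat_lit 253975) (nat_lit 9) (.e (nat_lit 1181) (nat_lit 87) (.e (nat_lit 57848) (nat_lit 252) (.e (nat_lit 57368) (nat_lit 1) (.e (nat_lit 57851) (nat_lit 252) .nil))))))))) (.g (nat_lit 4) .nil .nil))))) 
(.nd (nat_lit 4) (.nd (nat_lit 5) 
(.lf (nat_lit 143308) (.g (nat_lit 2589) (.e (nat_lit 57354) (nat_lit 0) (.e (nat_lit 1848) (nat_lit 124) (.e (nat_lit 557103) (nat_lit 14) (.e (nat_lit 180243) (nat_lit 5) (.e (nat_lit 532508) (nat_lit 2) .nil))))) .nil)) 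
(.lf (nat_lit 143340) (.g (nat_lit 4372) (.e (nat_lit 57354) (nat_lit 0) (.e (nat_lit 1855) (nat_lit 124) (.e (nat_lit 557109) (nat_lit 15) (.e (nat_lit 188449) (nat_lit 22) (.e (nat_lit 196666) (nat_lit 13) (.e (nat_lit 65574) (nat_lit 4) (.e (nat_lit 123196) (nat_lit 266) .nil))))))) (.g (nat_lit 5) .nil .nil)))) (.nd (nat_lit 5) 
(.lf (nat_lit 143324) (.g (nat_lit 2391) (.e (nat_lit 57354) (nat_lit 0) (.e (nat_lit 1855) (nat_lit 124) (.e (nat_lit 557105) (nat_lit 14) (.e (nat_lit 180252) (nat_lit 10) (.e (nat_lit 573488) (nat_lit 14) .nil))))) .nil)) 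
(.lf (nat_lit 143356) (.g (nat_lit 551) (.e (nat_lit 57354) (nat_lit 0) (.e (nat_lit 1960) (nat_lit 134) (.e (nat_lit 638998) (nat_lit 8) (.e (nat_lit 172123) (nat_lit 13) .nil)))) .nil)))))) (.nd (nat_lit 2) (.nd (nat_lit 3) (.nd (nat_lit 4) (.nd (nat_lit 5) 
(.lf (nat_lit 143298) (.g (nat_lit 468) (.e (nat_lit 57354) (nat_lit 0) (.e (nat_lit 1788) (nat_lit 119) (.e (nat_lit 516130) (nat_lit 3) .nil))) .nil)) 
(.lf (nat_lit 143330) (.g (nat_lit 2454) (.e (nat_lit 57354) (nat_lit 0) (.e (nat_lit 1855) (nat_lit 124) (.e (nat_lit 557105) (nat_lit 14) (.e (nat_lit 180252) (nat_lit 10) (.e (nat_lit 573489) (nat_lit 14) (.e (nat_lit 73755) (nat_lit 8) (.e (nat_lit 557090) (nat_lit 12) (.e (nat_lit 171776) (nat_lit 0) (.e (nat_lit 5199) (nat_lit 294) .nil))))))))) (.g (nat_lit 4) .nil .nil)))) 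
(.nd (nat_lit 5) 
(.lf (nat_lit 143314) (.g (nat_lit 1876) (.e (nat_lit 57354) (nat_lit 0) (.e (nat_lit 1855) (nat_lit 124) (.e (nat_lit 557100) (nat_lit 13) (.e (nat_lit 172106) (nat_lit 10) (.e (nat_lit 434231) (nat_lit 23) .nil))))) .nil)) 
(.lf (nat_lit 143346) (.g (nat_lit 3205) (.e (nat_lit 57354) (nat_lit 0) (.e (nat_lit 1855) (nat_lit 124) (.e (nat_lit 557109) (nat_lit 15) (.e (nat_lit 188461) (nat_lit 26) (.e (nat_lit 253975) (nat_lit 9) (.e (nat_lit 1170) (nat_lit 87) (.e (nat_lit 57847) (nat_lit 252) (.e (nat_lit 57365) (nat_lit 1) (.e (nat_lit 57851) (nat_lit 252) .nil))))))))) (.g (nat_lit 4) .nil .nil))))) 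
(.nd (nat_lit 4) (.nd (nat_lit 5) 
(.lf (nat_lit 143306) (.g (nat_lit 3102) (.e (nat_lit 57354) (nat_lit 0) (.e (nat_lit 1788) (nat_lit 119) (.e (nat_lit 516195) (nat_lit 26) (.e (nat_lit 336223) (nat_lit 13) (.e (nat_lit 393228) (nat_lit 9) .nil))))) .nil)) 
(.lf (nat_lit 143338) (.g (nat_lit 5346) (.e (nat_lit 57354) (nat_lit 0) (.e (nat_lit 1855) (nat_lit 124) (.e (nat_lit 557109) (nat_lit 15) (.e (nat_lit 188447) (nat_lit 22) (.e (nat_lit 196666) (nat_lit 13) (.e (nat_lit 65572) (nat_lit 4) (.e (nat_lit 123195) (nat_lit 266) .nil))))))) (.g (nat_lit 5) .nil .nil)))) (.nd (nat_lit 5) 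
(.lf (nat_lit 143322) (.g (nat_lit 3144) (.e (nat_lit 57354) (nat_lit 0) (.e (nat_lit 1855) (nat_lit 124) (.e (nat_lit 557105) (nat_lit 14) (.e (nat_lit 180252) (nat_lit 10) (.e (nat_lit 573481) (nat_lit 13) (.e (nat_lit 73472) (nat_lit 18) (.e (nat_lit 204830) (nat_lit 18) (.e (nat_lit 57851) (nat_lit 252) .nil)))))))) (.g (nat_lit 4) .nil .nil))) 
(.lf (nat_lit 143354) (.g (nat_lit 2869) (.e (nat_lit 57354) (nat_lit 0) (.e (nat_lit 1857) (nat_lit 124) (.e (nat_lit 557109) (nat_lit 15) (.e (nat_lit 188461) (nat_lit 26) (.e (nat_lit 253959) (nat_lit 9) (.e (nat_lit 1181) (nat_lit 87) (.e (nat_lit 57848) (nat_lit 252) (.e (nat_lit 57365) (nat_lit 1) (.e (nat_lit 57851) (nat_lit 252) .nil))))))))) (.g (nat_lit 4) .nil .nil)))))) 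
(.nd (nat_lit 3) (.nd (nat_lit 4) (.nd (nat_lit 5) 
(.lf (nat_lit 143302) (.g (nat_lit 1465) (.e (nat_lit 57354) (nat_lit 0) (.e (nat_lit 1788) (nat_lit 119) (.e (nat_lit 516163) (nat_lit 11) (.e (nat_lit 450304) (nat_lit 18) .nil)))) .nil)) 
(.lf (nat_lit 143334) (.g (nat_lit 2284) (.e (nat_lit 57354) (nat_lit 0) (.e (nat_lit 1855) (nat_lit 124) (.e (nat_lit 557107) (nat_lit 15) (.e (nat_lit 188450) (nat_lit 23) (.e (nat_lit 204861) (nat_lit 26) .nil))))) .nil))) (.nd (nat_lit 5) 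
(.lf (nat_lit 143318) (.g (nat_lit 1827) (.e (nat_lit 57354) (nat_lit 0) (.e (nat_lit 1855) (nat_lit 124) (.e (nat_lit 557103) (nat_lit 14) (.e (nat_lit 180243) (nat_lit 5) (.e (nat_lit 532508) (nat_lit 2) .nil))))) .nil)) 
(.lf (nat_lit 143350) (.g (nat_lit 1739) (.e (nat_lit 57354) (nat_lit 0) (.e (nat_lit 1857) (nat_lit 124) (.e (nat_lit 557100) (nat_lit 13) (.e (nat_lit 172106) (nat_lit 10) (.e (nat_lit 434231) (nat_lit 23) .nil))))) .nil)))) (.nd (nat_lit 4) (.nd (nat_lit 5) 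
(.lf (nat_lit 143310) (.g (nat_lit 437) (.e (nat_lit 57354) (nat_lit 0) (.e (nat_lit 1855) (nat_lit 124) (.e (nat_lit 564992) (nat_lit 0) .nil))) .nil)) 
(.lf (nat_lit 143342) (.g (nat_lit 1344) (.e (nat_lit 57354) (nat_lit 0) (.e (nat_lit 1855) (nat_lit 124) (.e (nat_lit 557109) (nat_lit 15) (.e (nat_lit 188461) (nat_lit 26) .nil)))) .nil))) (.nd (nat_lit 5) 
(.lf (nat_lit 143326) (.g (nat_lit 2488) (.e (nat_lit 57354) (nat_lit 0) (.e (nat_lit 1855) (nat_lit 124) (.e (nat_lit 557105) (nat_lit 14) (.e (nat_lit 180252) (nat_lit 10) (.e (nat_lit 573489) (nat_lit 14) (.e (nat_lit 73755) (nat_lit 8) (.e (nat_lit 557090) (nat_lit 12) (.e (nat_lit 163840) (nat_lit 0) (.e (nat_lit 5190) (nat_lit 294) .nil))))))))) (.g (nat_lit 4) .nil .nil))) 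
(.lf (nat_lit 143358) (.g (nat_lit 2203) (.e (nat_lit 57354) (nat_lit 0) (.e (nat_lit 2030) (nat_lit 140) (.e (nat_lit 688177) (nat_lit 16) (.e (nat_lit 65586) (nat_lit 7) (.e (nat_lit 319531) (nat_lit 16) .nil))))) .nil))))))) (.nd (nat_lit 1) (.nd (nat_lit 2) (.nd (nat_lit 3) (.nd (nat_lit 4) (.nd (nat_lit 5) 
(.lf (nat_lit 143297) (.g (nat_lit 2262) (.e (nat_lit 57354) (nat_lit 0) (.e (nat_lit 1788) (nat_lit 119) (.e (nat_lit 516129) (nat_lit 3) (.e (nat_lit 221210) (nat_lit 22) (.e (nat_lit 196668) (nat_lit 14) .nil))))) .nil)) 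
(.lf (nat_lit 143329) (.g (nat_lit 2382) (.e (nat_lit 57354) (nat_lit 0) (.e (nat_lit 1855) (nat_lit 124) (.e (nat_lit 557105) (nat_lit 14) (.e (nat_lit 180252) (nat_lit 10) (.e (nat_lit 573489) (nat_lit 14) (.e (nat_lit 73755) (nat_lit 8) (.e (nat_lit 557090) (nat_lit 12) (.e (nat_lit 163856) (nat_lit 0) (.e (nat_lit 5201) (nat_lit 294) .nil))))))))) (.g (nat_lit 4) .nil .nil)))) 
(.nd (nat_lit 5) 
(.lf (nat_lit 143313) (.g (nat_lit 1574) (.e (nat_lit 57354) (nat_lit 0) (.e (nat_lit 1855) (nat_lit 124) (.e (nat_lit 557100) (nat_lit 13) (.e (nat_lit 172097) (nat_lit 9) .nil)))) .nil)) 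
(.lf (nat_lit 143345) (.g (nat_lit 2411) (.e (nat_lit 57354) (nat_lit 0) (.e (nat_lit 1855) (nat_lit 124) (.e (nat_lit 557109) (nat_lit 15) (.e (nat_lit 188461) (nat_lit 26) (.e (nat_lit 253975) (nat_lit 9) .nil))))) .nil)))) (.nd (nat_lit 4) (.nd (nat_lit 5) 
(.lf (nat_lit 143305) (.g (nat_lit 1078) (.e (nat_lit 57354) (nat_lit 0) (.e (nat_lit 1788) (nat_lit 119) (.e (nat_lit 516195) (nat_lit 26) (.e (nat_lit 336223) (nat_lit 13) .nil)))) .nil)) 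
(.lf (nat_lit 143337) (.g (nat_lit 3446) (.e (nat_lit 57354) (nat_lit 0) (.e (nat_lit 1855) (nat_lit 124) (.e (nat_lit 557109) (nat_lit 15) (.e (nat_lit 188447) (nat_lit 22) (.e (nat_lit 196666) (nat_lit 13) .nil))))) .nil))) (.nd (nat_lit 5) 
(.lf (nat_lit 143321) (.g (nat_lit 3076) (.e (nat_lit 57354) (nat_lit 0) (.e (nat_lit 1855) (nat_lit 124) (.e (nat_lit 557105) (nat_lit 14) (.e (nat_lit 180252) (nat_lit 10) (.e (nat_lit 573481) (nat_lit 13) (.e (nat_lit 73472) (nat_lit 18) (.e (nat_lit 204829) (nat_lit 18) (.e (nat_lit 57851) (nat_lit 252) .nil)))))))) (.g (nat_lit 4) .nil .nil))) 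
(.lf (nat_lit 143353) (.g (nat_lit 3439) (.e (nat_lit 57354) (nat_lit 0) (.e (nat_lit 1857) (nat_lit 124) (.e (nat_lit 557109) (nat_lit 15) (.e (nat_lit 188449) (nat_lit 22) (.e (nat_lit 196666) (nat_lit 13) .nil))))) .nil))))) (.nd (nat_lit 3) (.nd (nat_lit 4) (.nd (nat_lit 5) 
(.lf (nat_lit 143301) (.g (nat_lit 557) (.e (nat_lit 57354) (nat_lit 0) (.e (nat_lit 1788) (nat_lit 119) (.e (nat_lit 516162) (nat_lit 11) .nil))) .nil)) 
(.lf (nat_lit 143333) (.g (nat_lit 3340) (.e (nat_lit 57354) (nat_lit 0) (.e (nat_lit 1855) (nat_lit 124) (.e (nat_lit 557107) (nat_lit 15) (.e (nat_lit 188447) (nat_lit 22) (.e (nat_lit 196666) (nat_lit 13) (.e (nat_lit 65574) (nat_lit 4) (.e (nat_lit 123196) (nat_lit 266) .nil))))))) (.g (nat_lit 5) .nil .nil)))) (.nd (nat_lit 5) 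
(.lf (nat_lit 143317) (.g (nat_lit 1406) (.e (nat_lit 57354) (nat_lit 0) (.e (nat_lit 1855) (nat_lit 124) (.e (nat_lit 557100) (nat_lit 13) (.e (nat_lit 172121) (nat_lit 13) .nil)))) .nil)) 
(.lf (nat_lit 143349) (.g (nat_lit 2333) (.e (nat_lit 57354) (nat_lit 0) (.e (nat_lit 1857) (nat_lit 124) (.e (nat_lit 557100) (nat_lit 13) (.e (nat_lit 172065) (nat_lit 3) (.e (nat_lit 204834) (nat_lit 19) (.e (nat_lit 114432) (nat_lit 3) (.e (nat_lit 163962) (nat_lit 25) (.e (nat_lit 532500) (nat_lit 1) (.e (nat_lit 57851) (nat_lit 252) .nil))))))))) (.g (nat_lit 4) .nil .nil))))) 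
(.nd (nat_lit 4) (.nd (nat_lit 5) 
(.lf (nat_lit 143309) (.g (nat_lit 1768) (.e (nat_lit 57354) (nat_lit 0) (.e (nat_lit 1848) (nat_lit 124) (.e (nat_lit 557107) (nat_lit 15) (.e (nat_lit 188447) (nat_lit 22) (.e (nat_lit 196666) (nat_lit 13) .nil))))) .nil)) 
(.lf (nat_lit 143341) (.g (nat_lit 2627) (.e (nat_lit 57354) (nat_lit 0) (.e (nat_lit 1855) (nat_lit 124) (.e (nat_lit 557109) (nat_lit 15) (.e (nat_lit 188458) (nat_lit 25) (.e (nat_lit 245791) (nat_lit 14) .nil))))) .nil))) (.nd (nat_lit 5) 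
(.lf (nat_lit 143325) (.g (nat_lit 4467) (.e (nat_lit 57354) (nat_lit 0) (.e (nat_lit 1855) (nat_lit 124) (.e (nat_lit 557105) (nat_lit 14) (.e (nat_lit 180252) (nat_lit 10) (.e (nat_lit 573489) (nat_lit 14) (.e (nat_lit 73755) (nat_lit 8) (.e (nat_lit 557069) (nat_lit 9) (.e (nat_lit 2612) (nat_lit 163) (.e (nat_lit 164319) (nat_lit 228) .nil))))))))) (.g (nat_lit 6) .nil .nil))) 
(.lf (nat_lit 143357) (.g (nat_lit 1302) (.e (nat_lit 57354) (nat_lit 0) (.e (nat_lit 1962) (nat_lit 134) (.e (nat_lit 638998) (nat_lit 8) (.e (nat_lit 172123) (nat_lit 13) (.e (nat_lit 483400) (nat_lit 25) .nil))))) .nil)))))) (.nd (nat_lit 2) (.nd (nat_lit 3) (.nd (nat_lit 4) (.nd (nat_lit 5) 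
(.lf (nat_lit 143299) (.g (nat_lit 2618) (.e (nat_lit 57354) (nat_lit 0) (.e (nat_lit 1788) (nat_lit 119) (.e (nat_lit 516151) (nat_lit 9) (.e (nat_lit 426185) (nat_lit 9) .nil)))) .nil)) 
(.lf (nat_lit 143331) (.g (nat_lit 943) (.e (nat_lit 57354) (nat_lit 0) (.e (nat_lit 1855) (nat_lit 124) (.e (nat_lit 557107) (nat_lit 15) (.e (nat_lit 196352) (nat_lit 18) .nil)))) .nil))) (.nd (nat_lit 5) 
(.lf (nat_lit 143315) (.g (nat_lit 2765) (.e (nat_lit 57354) (nat_lit 0) (.e (nat_lit 1855) (nat_lit 124) (.e (nat_lit 557100) (nat_lit 13) (.e (nat_lit 172106) (nat_lit 10) (.e (nat_lit 434231) (nat_lit 23) (.e (nat_lit 532535) (nat_lit 9) (.e (nat_lit 336030) (nat_lit 4) (.e (nat_lit 123197) (nat_lit 266) .nil)))))))) (.g (nat_lit 4) .nil .nil))) 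
(.lf (nat_lit 143347) (.g (nat_lit 3077) (.e (nat_lit 57354) (nat_lit 0) (.e (nat_lit 1855) (nat_lit 124) (.e (nat_lit 557109) (nat_lit 15) (.e (nat_lit 188461) (nat_lit 26) (.e (nat_lit 253975) (nat_lit 9) (.e (nat_lit 1181) (nat_lit 87) (.e (nat_lit 57848) (nat_lit 252) (.e (nat_lit 57365) (nat_lit 1) (.e (nat_lit 57851) (nat_lit 252) .nil))))))))) (.g (nat_lit 4) .nil .nil))))) 
(.nd (nat_lit 4) (.nd (nat_lit 5) 
(.lf (nat_lit 143307) (.g (nat_lit 1644) (.e (nat_lit 57354) (nat_lit 0) (.e (nat_lit 1842) (nat_lit 123) (.e (nat_lit 548889) (nat_lit 9) (.e (nat_lit 65627) (nat_lit 13) .nil)))) .nil)) 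
(.lf (nat_lit 143339) (.g (nat_lit 5339) (.e (nat_lit 57354) (nat_lit 0) (.e (nat_lit 1855) (nat_lit 124) (.e (nat_lit 557109) (nat_lit 15) (.e (nat_lit 188447) (nat_lit 22) (.e (nat_lit 196666) (nat_lit 13) (.e (nat_lit 65574) (nat_lit 4) (.e (nat_lit 123195) (nat_lit 266) .nil))))))) (.g (nat_lit 5) .nil .nil)))) (.nd (nat_lit 5) 
(.lf (nat_lit 143323) (.g (nat_lit 2406) (.e (nat_lit 57354) (nat_lit 0) (.e (nat_lit 1855) (nat_lit 124) (.e (nat_lit 557105) (nat_lit 14) (.e (nat_lit 180252) (nat_lit 10) (.e (nat_lit 573482) (nat_lit 13) .nil))))) .nil)) 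
(.lf (nat_lit 143355) (.g (nat_lit 2866) (.e (nat_lit 57354) (nat_lit 0) (.e (nat_lit 1857) (nat_lit 124) (.e (nat_lit 557109) (nat_lit 15) (.e (nat_lit 188461) (nat_lit 26) (.e (nat_lit 253959) (nat_lit 9) (.e (nat_lit 1181) (nat_lit 87) (.e (nat_lit 57848) (nat_lit 252) (.e (nat_lit 57368) (nat_lit 1) (.e (nat_lit 57851) (nat_lit 252) .nil))))))))) (.g (nat_lit 4) .nil .nil)))))) 
(.nd (nat_lit 3) (.nd (nat_lit 4) (.nd (nat_lit 5) 
(.lf (nat_lit 143303) (.g (nat_lit 498) (.e (nat_lit 57354) (nat_lit 0) (.e (nat_lit 1788) (nat_lit 119) (.e (nat_lit 516195) (nat_lit 26) .nil))) .nil)) 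
(.lf (nat_lit 143335) (.g (nat_lit 1275) (.e (nat_lit 57354) (nat_lit 0) (.e (nat_lit 1855) (nat_lit 124) (.e (nat_lit 557109) (nat_lit 15) (.e (nat_lit 196352) (nat_lit 18) .nil)))) .nil))) (.nd (nat_lit 5) 
(.lf (nat_lit 143319) (.g (nat_lit 3321) (.e (nat_lit 57354) (nat_lit 0) (.e (nat_lit 1855) (nat_lit 124) (.e (nat_lit 557103) (nat_lit 14) (.e (nat_lit 180244) (nat_lit 5) (.e (nat_lit 532508) (nat_lit 2) (.e (nat_lit 114432) (nat_lit 3) (.e (nat_lit 163962) (nat_lit 25) (.e (nat_lit 532500) (nat_lit 1) (.e (nat_lit 57851) (nat_lit 252) .nil))))))))) (.g (nat_lit 4) .nil .nil))) 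
(.lf (nat_lit 143351) (.g (nat_lit 3168) (.e (nat_lit 57354) (nat_lit 0) (.e (nat_lit 1857) (nat_lit 124) (.e (nat_lit 557105) (nat_lit 14) (.e (nat_lit 180252) (nat_lit 10) (.e (nat_lit 573481) (nat_lit 13) (.e (nat_lit 73472) (nat_lit 18) (.e (nat_lit 204830) (nat_lit 18) (.e (nat_lit 57852) (nat_lit 252) .nil)))))))) (.g (nat_lit 4) .nil .nil))))) (.nd (nat_lit 4) (.nd (nat_lit 5) 
(.lf (nat_lit 143311) (.g (nat_lit 4294) (.e (nat_lit 57354) (nat_lit 0) (.e (nat_lit 1855) (nat_lit 124) (.e (nat_lit 557098) (nat_lit 13) (.e (nat_lit 172097) (nat_lit 9) (.e (nat_lit 426125) (nat_lit 2) (.e (nat_lit 196666) (nat_lit 13) (.e (nat_lit 65574) (nat_lit 4) (.e (nat_lit 123196) (nat_lit 266) .nil)))))))) (.g (nat_lit 6) .nil .nil))) 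
(.lf (nat_lit 143343) (.g (nat_lit 3064) (.e (nat_lit 57354) (nat_lit 0) (.e (nat_lit 1855) (nat_lit 124) (.e (nat_lit 557109) (nat_lit 15) (.e (nat_lit 188461) (nat_lit 26) (.e (nat_lit 253966) (nat_lit 9) (.e (nat_lit 1183) (nat_lit 87) (.e (nat_lit 57848) (nat_lit 252) (.e (nat_lit 57365) (nat_lit 1) (.e (nat_lit 57851) (nat_lit 252) .nil))))))))) (.g (nat_lit 4) .nil .nil)))) (.nd (nat_lit 5) 
(.lf (nat_lit 143327) (.g (nat_lit 3884) (.e (nat_lit 57354) (nat_lit 0) (.e (nat_lit 1855) (nat_lit 124) (.e (nat_lit 557105) (nat_lit 14) (.e (nat_lit 180252) (nat_lit 10) (.e (nat_lit 573489) (nat_lit 14) (.e (nat_lit 73755) (nat_lit 8) (.e (nat_lit 557090) (nat_lit 12) (.e (nat_lit 163840) (nat_lit 0) (.e (nat_lit 5200) (nat_lit 294) .nil))))))))) (.g (nat_lit 7) .nil .nil))) 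
(.lf (nat_lit 143359) (.g (nat_lit 3601) (.e (nat_lit 57354) (nat_lit 0) (.e (nat_lit 2281) (nat_lit 150) (.e (nat_lit 770069) (nat_lit 7) (.e (nat_lit 57479) (nat_lit 28) (.e (nat_lit 557105) (nat_lit 14) (.e (nat_lit 180252) (nat_lit 10) (.e (nat_lit 573489) (nat_lit 14) (.e (nat_lit 73731) (nat_lit 0) (.e (nat_lit 7936) (nat_lit 235) .nil))))))))) (.g (nat_lit 7) .nil .nil)))))))))

noncomputable def tv1901 : DT := (.nd (nat_lit 0) (.nd (nat_lit 1) (.nd (nat_lit 2) (.nd (nat_lit 3) (.nd (nat_lit 4) (.nd (nat_lit 5) 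
(.lf (nat_lit 143360) (.g (nat_lit 1966) (.e (nat_lit 57354) (nat_lit 0) (.e (nat_lit 2342) (nat_lit 151) (.e (nat_lit 778362) (nat_lit 9) (.e (nat_lit 232) (nat_lit 21) (.e (nat_lit 336060) (nat_lit 7) (.e (nat_lit 319534) (nat_lit 16) (.e (nat_lit 286756) (nat_lit 10) (.e (nat_lit 344090) (nat_lit 18) (.e (nat_lit 5566) (nat_lit 308) .nil))))))))) (.g (nat_lit 4) .nil .nil))) 
(.lf (nat_lit 143392) (.g (nat_lit 4766) (.e (nat_lit 57354) (nat_lit 0) (.e (nat_lit 5195) (nat_lit 294) (.e (nat_lit 57377) (nat_lit 3) (.e (nat_lit 98317) (nat_lit 9) (.e (nat_lit 335934) (nat_lit 0) (.e (nat_lit 1802) (nat_lit 119) (.e (nat_lit 516131) (nat_lit 3) (.e (nat_lit 221212) (nat_lit 22) (.e (nat_lit 196660) (nat_lit 12) .nil))))))))) (.g (nat_lit 4) .nil .nil)))) (.nd (nat_lit 5) 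
(.lf (nat_lit 143376) (.g (nat_lit 2461) (.e (nat_lit 57354) (nat_lit 0) (.e (nat_lit 5194) (nat_lit 294) (.e (nat_lit 57372) (nat_lit 2) (.e (nat_lit 90160) (nat_lit 11) (.e (nat_lit 24607) (nat_lit 3) .nil))))) .nil)) 
(.lf (nat_lit 143408) (.g (nat_lit 3154) (.e (nat_lit 57354) (nat_lit 0) (.e (nat_lit 5195) (nat_lit 294) (.e (nat_lit 57435) (nat_lit 17) (.e (nat_lit 376842) (nat_lit 11) (.e (nat_lit 426306) (nat_lit 12) (.e (nat_lit 475201) (nat_lit 40) (.e (nat_lit 704749) (nat_lit 12) .nil))))))) (.g (nat_lit 5) .nil .nil))))) (.nd (nat_lit 4) (.nd (nat_lit 5) 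
(.lf (nat_lit 143368) (.g (nat_lit 2472) (.e (nat_lit 57354) (nat_lit 0) (.e (nat_lit 2346) (nat_lit 151) (.e (nat_lit 778362) (nat_lit 9) (.e (nat_lit 232) (nat_lit 21) (.e (nat_lit 336060) (nat_lit 7) (.e (nat_lit 319534) (nat_lit 16) (.e (nat_lit 286756) (nat_lit 10) (.e (nat_lit 344090) (nat_lit 18) (.e (nat_lit 5570) (nat_lit 308) .nil))))))))) (.g (nat_lit 4) .nil .nil))) 
(.lf (nat_lit 143400) (.g (nat_lit 1062) (.e (nat_lit 57354) (nat_lit 0) (.e (nat_lit 5195) (nat_lit 294) (.e (nat_lit 57407) (nat_lit 12) (.e (nat_lit 336454) (nat_lit 34) .nil)))) .nil))) (.nd (nat_lit 5) 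
(.lf (nat_lit 143384) (.g (nat_lit 2634) (.e (nat_lit 57354) (nat_lit 0) (.e (nat_lit 5195) (nat_lit 294) (.e (nat_lit 57377) (nat_lit 3) (.e (nat_lit 98313) (nat_lit 9) (.e (nat_lit 336027) (nat_lit 3) (.e (nat_lit 98338) (nat_lit 19) (.e (nat_lit 213013) (nat_lit 9) (.e (nat_lit 2667) (nat_lit 167) (.e (nat_lit 196660) (nat_lit 12) .nil))))))))) (.g (nat_lit 5) .nil .nil))) 
(.lf (nat_lit 143416) (.g (nat_lit 4509) (.e (nat_lit 57354) (nat_lit 0) (.e (nat_lit 5905) (nat_lit 320) (.e (nat_lit 1188) (nat_lit 88) (.e (nat_lit 65630) (nat_lit 14) (.e (nat_lit 401459) (nat_lit 13) (.e (nat_lit 483344) (nat_lit 17) (.e (nat_lit 6513) (nat_lit 346) .nil))))))) (.g (nat_lit 6) .nil .nil)))))) (.nd (nat_lit 3) (.nd (nat_lit 4) (.nd (nat_lit 5) 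
(.lf (nat_lit 143364) (.g (nat_lit 2076) (.e (nat_lit 57354) (nat_lit 0) (.e (nat_lit 2346) (nat_lit 151) (.e (nat_lit 778362) (nat_lit 9) (.e (nat_lit 232) (nat_lit 21) (.e (nat_lit 336060) (nat_lit 7) (.e (nat_lit 319534) (nat_lit 16) (.e (nat_lit 286756) (nat_lit 10) (.e (nat_lit 344087) (nat_lit 18) (.e (nat_lit 5566) (nat_lit 308) .nil))))))))) (.g (nat_lit 4) .nil .nil))) 
(.lf (nat_lit 143396) (.g (nat_lit 4281) (.e (nat_lit 57354) (nat_lit 0) (.e (nat_lit 5195) (nat_lit 294) (.e (nat_lit 57379) (nat_lit 3) (.e (nat_lit 98313) (nat_lit 9) (.e (nat_lit 336027) (nat_lit 3) (.e (nat_lit 98341) (nat_lit 20) (.e (nat_lit 221210) (nat_lit 22) (.e (nat_lit 196660) (nat_lit 12) .nil)))))))) (.g (nat_lit 7) .nil .nil)))) (.nd (nat_lit 5) 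
(.lf (nat_lit 143380) (.g (nat_lit 1280) (.e (nat_lit 57354) (nat_lit 0) (.e (nat_lit 5194) (nat_lit 294) (.e (nat_lit 57407) (nat_lit 12) (.e (nat_lit 336454) (nat_lit 34) .nil)))) .nil)) 
(.lf (nat_lit 143412) (.g (nat_lit 2720) (.e (nat_lit 57354) (nat_lit 0) (.e (nat_lit 5195) (nat_lit 294) (.e (nat_lit 57445) (nat_lit 19) (.e (nat_lit 393229) (nat_lit 9) (.e (nat_lit 336088) (nat_lit 9) .nil))))) .nil)))) (.nd (nat_lit 4) (.nd (nat_lit 5) 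
(.lf (nat_lit 143372) (.g (nat_lit 4408) (.e (nat_lit 57354) (nat_lit 0) (.e (nat_lit 5194) (nat_lit 294) (.e (nat_lit 57372) (nat_lit 2) (.e (nat_lit 90128) (nat_lit 9) (.e (nat_lit 297) (nat_lit 22) (.e (nat_lit 344119) (nat_lit 21) (.e (nat_lit 516129) (nat_lit 3) (.e (nat_lit 221210) (nat_lit 22) (.e (nat_lit 196660) (nat_lit 12) .nil))))))))) (.g (nat_lit 8) .nil .nil))) 
(.lf (nat_lit 143404) (.g (nat_lit 2653) (.e (nat_lit 57354) (nat_lit 0) (.e (nat_lit 5195) (nat_lit 294) (.e (nat_lit 57411) (nat_lit 12) (.e (nat_lit 336211) (nat_lit 13) (.e (nat_lit 393291) (nat_lit 26) (.e (nat_lit 475201) (nat_lit 40) (.e (nat_lit 704743) (nat_lit 12) .nil))))))) (.g (nat_lit 5) .nil .nil)))) (.nd (nat_lit 5) 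
(.lf (nat_lit 143388) (.g (nat_lit 4758) (.e (nat_lit 57354) (nat_lit 0) (.e (nat_lit 5195) (nat_lit 294) (.e (nat_lit 57377) (nat_lit 3) (.e (nat_lit 98317) (nat_lit 9) (.e (nat_lit 335926) (nat_lit 0) (.e (nat_lit 1802) (nat_lit 119) (.e (nat_lit 516131) (nat_lit 3) (.e (nat_lit 221212) (nat_lit 22) (.e (nat_lit 196660) (nat_lit 12) .nil))))))))) (.g (nat_lit 4) .nil .nil))) 
(.lf (nat_lit 143420) (.g (nat_lit 3852) (.e (nat_lit 57354) (nat_lit 0) (.e (nat_lit 5905) (nat_lit 320) (.e (nat_lit 1189) (nat_lit 88) (.e (nat_lit 65630) (nat_lit 14) (.e (nat_lit 401459) (nat_lit 13) (.e (nat_lit 483344) (nat_lit 17) (.e (nat_lit 7936) (nat_lit 346) .nil))))))) (.g (nat_lit 5) .nil .nil))))))) (.nd (nat_lit 2) (.nd (nat_lit 3) (.nd (nat_lit 4) (.nd (nat_lit 5) 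
(.lf (nat_lit 143362) (.g (nat_lit 2221) (.e (nat_lit 57354) (nat_lit 0) (.e (nat_lit 2346) (nat_lit 151) (.e (nat_lit 778362) (nat_lit 9) (.e (nat_lit 232) (nat_lit 21) (.e (nat_lit 336060) (nat_lit 7) (.e (nat_lit 319533) (nat_lit 16) (.e (nat_lit 286753) (nat_lit 10) (.e (nat_lit 344088) (nat_lit 18) (.e (nat_lit 5572) (nat_lit 308) .nil))))))))) (.g (nat_lit 4) .nil .nil))) 
(.lf (nat_lit 143394) (.g (nat_lit 2511) (.e (nat_lit 57354) (nat_lit 0) (.e (nat_lit 5195) (nat_lit 294) (.e (nat_lit 57379) (nat_lit 3) (.e (nat_lit 98313) (nat_lit 9) (.e (nat_lit 336027) (nat_lit 3) (.e (nat_lit 98321) (nat_lit 17) (.e (nat_lit 3771) (nat_lit 229) (.e (nat_lit 794669) (nat_lit 22) (.e (nat_lit 196660) (nat_lit 12) .nil))))))))) (.g (nat_lit 5) .nil .nil)))) (.nd (nat_lit 5) 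
(.lf (nat_lit 143378) (.g (nat_lit 4290) (.e (nat_lit 57354) (nat_lit 0) (.e (nat_lit 5194) (nat_lit 294) (.e (nat_lit 57375) (nat_lit 2) (.e (nat_lit 90128) (nat_lit 9) (.e (nat_lit 297) (nat_lit 22) (.e (nat_lit 344119) (nat_lit 21) (.e (nat_lit 516129) (nat_lit 3) (.e (nat_lit 221210) (nat_lit 22) (.e (nat_lit 196660) (nat_lit 12) .nil))))))))) (.g (nat_lit 8) .nil .nil))) 
(.lf (nat_lit 143410) (.g (nat_lit 1868) (.e (nat_lit 57354) (nat_lit 0) (.e (nat_lit 5195) (nat_lit 294) (.e (nat_lit 57435) (nat_lit 17) (.e (nat_lit 376842) (nat_lit 11) (.e (nat_lit 426315) (nat_lit 12) .nil))))) .nil)))) (.nd (nat_lit 4) (.nd (nat_lit 5) 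
(.lf (nat_lit 143370) (.g (nat_lit 2017) (.e (nat_lit 57354) (nat_lit 0) (.e (nat_lit 2346) (nat_lit 151) (.e (nat_lit 778362) (nat_lit 9) (.e (nat_lit 232) (nat_lit 21) (.e (nat_lit 336060) (nat_lit 7) (.e (nat_lit 319534) (nat_lit 16) (.e (nat_lit 286756) (nat_lit 10) (.e (nat_lit 344092) (nat_lit 18) (.e (nat_lit 5572) (nat_lit 308) .nil))))))))) (.g (nat_lit 4) .nil .nil))) 
(.lf (nat_lit 143402) (.g (nat_lit 1922) (.e (nat_lit 57354) (nat_lit 0) (.e (nat_lit 5195) (nat_lit 294) (.e (nat_lit 57410) (nat_lit 12) (.e (nat_lit 336211) (nat_lit 13) (.e (nat_lit 393291) (nat_lit 26) (.e (nat_lit 475201) (nat_lit 40) (.e (nat_lit 704749) (nat_lit 12) .nil))))))) (.g (nat_lit 4) .nil .nil)))) (.nd (nat_lit 5) 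
(.lf (nat_lit 143386) (.g (nat_lit 3499) (.e (nat_lit 57354) (nat_lit 0) (.e (nat_lit 5195) (nat_lit 294) (.e (nat_lit 57377) (nat_lit 3) (.e (nat_lit 98313) (nat_lit 9) (.e (nat_lit 336027) (nat_lit 3) (.e (nat_lit 98341) (nat_lit 20) (.e (nat_lit 221212) (nat_lit 22) (.e (nat_lit 196660) (nat_lit 12) .nil)))))))) (.g (nat_lit 6) .nil .nil))) 
(.lf (nat_lit 143418) (.g (nat_lit 4022) (.e (nat_lit 57354) (nat_lit 0) (.e (nat_lit 5905) (nat_lit 320) (.e (nat_lit 1189) (nat_lit 88) (.e (nat_lit 65628) (nat_lit 14) (.e (nat_lit 401459) (nat_lit 13) (.e (nat_lit 483344) (nat_lit 17) (.e (nat_lit 6514) (nat_lit 346) .nil))))))) (.g (nat_lit 6) .nil .nil)))))) (.nd (nat_lit 3) (.nd (nat_lit 4) (.nd (nat_lit 5) 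
(.lf (nat_lit 143366) (.g (nat_lit 2233) (.e (nat_lit 57354) (nat_lit 0) (.e (nat_lit 2346) (nat_lit 151) (.e (nat_lit 778362) (nat_lit 9) (.e (nat_lit 232) (nat_lit 21) (.e (nat_lit 336060) (nat_lit 7) (.e (nat_lit 319534) (nat_lit 16) (.e (nat_lit 286756) (nat_lit 10) (.e (nat_lit 344088) (nat_lit 18) (.e (nat_lit 5567) (nat_lit 308) .nil))))))))) (.g (nat_lit 4) .nil .nil))) 
(.lf (nat_lit 143398) (.g (nat_lit 3982) (.e (nat_lit 57354) (nat_lit 0) (.e (nat_lit 5195) (nat_lit 294) (.e (nat_lit 57379) (nat_lit 3) (.e (nat_lit 98313) (nat_lit 9) (.e (nat_lit 336027) (nat_lit 3) (.e (nat_lit 98342) (nat_lit 20) (.e (nat_lit 221210) (nat_lit 22) (.e (nat_lit 196660) (nat_lit 12) .nil)))))))) (.g (nat_lit 7) .nil .nil)))) (.nd (nat_lit 5) 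
(.lf (nat_lit 143382) (.g (nat_lit 2077) (.e (nat_lit 57354) (nat_lit 0) (.e (nat_lit 5195) (nat_lit 294) (.e (nat_lit 57375) (nat_lit 2) (.e (nat_lit 90128) (nat_lit 9) (.e (nat_lit 297) (nat_lit 22) (.e (nat_lit 344120) (nat_lit 21) (.e (nat_lit 516131) (nat_lit 3) (.e (nat_lit 221212) (nat_lit 22) (.e (nat_lit 196660) (nat_lit 12) .nil))))))))) (.g (nat_lit 4) .nil .nil))) 
(.lf (nat_lit 143414) (.g (nat_lit 3377) (.e (nat_lit 57354) (nat_lit 0) (.e (nat_lit 5589) (nat_lit 310) (.e (nat_lit 163871) (nat_lit 2) (.e (nat_lit 196670) (nat_lit 14) (.e (nat_lit 73746) (nat_lit 3) (.e (nat_lit 516131) (nat_lit 3) (.e (nat_lit 221212) (nat_lit 22) (.e (nat_lit 196659) (nat_lit 12) .nil)))))))) (.g (nat_lit 7) .nil .nil))))) (.nd (nat_lit 4) (.nd (nat_lit 5) 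
(.lf (nat_lit 143374) (.g (nat_lit 2249) (.e (nat_lit 57354) (nat_lit 0) (.e (nat_lit 5194) (nat_lit 294) (.e (nat_lit 57372) (nat_lit 2) (.e (nat_lit 90133) (nat_lit 9) (.e (nat_lit 296) (nat_lit 22) .nil))))) .nil)) 
(.lf (nat_lit 143406) (.g (nat_lit 385) (.e (nat_lit 57354) (nat_lit 0) (.e (nat_lit 5195) (nat_lit 294) (.e (nat_lit 57435) (nat_lit 17) .nil))) .nil))) (.nd (nat_lit 5) 
(.lf (nat_lit 143390) (.g (nat_lit 4768) (.e (nat_lit 57354) (nat_lit 0) (.e (nat_lit 5195) (nat_lit 294) (.e (nat_lit 57377) (nat_lit 3) (.e (nat_lit 98317) (nat_lit 9) (.e (nat_lit 335933) (nat_lit 0) (.e (nat_lit 1802) (nat_lit 119) (.e (nat_lit 516131) (nat_lit 3) (.e (nat_lit 221212) (nat_lit 22) (.e (nat_lit 196660) (nat_lit 12) .nil))))))))) (.g (nat_lit 4) .nil .nil))) 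
(.lf (nat_lit 143422) (.g (nat_lit 3968) (.e (nat_lit 57354) (nat_lit 0) (.e (nat_lit 5905) (nat_lit 320) (.e (nat_lit 1190) (nat_lit 88) (.e (nat_lit 65628) (nat_lit 14) (.e (nat_lit 401459) (nat_lit 13) (.e (nat_lit 483344) (nat_lit 17) (.e (nat_lit 6513) (nat_lit 346) .nil))))))) (.g (nat_lit 6) .nil .nil)))))))) 
(.nd (nat_lit 1) (.nd (nat_lit 2) (.nd (nat_lit 3) (.nd (nat_lit 4) (.nd (nat_lit 5) 
(.lf (nat_lit 143361) (.g (nat_lit 1930) (.e (nat_lit 57354) (nat_lit 0) (.e (nat_lit 2346) (nat_lit 151) (.e (nat_lit 778362) (nat_lit 9) (.e (nat_lit 232) (nat_lit 21) (.e (nat_lit 336060) (nat_lit 7) .nil))))) .nil)) 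
(.lf (nat_lit 143393) (.g (nat_lit 4816) (.e (nat_lit 57354) (nat_lit 0) (.e (nat_lit 5195) (nat_lit 294) (.e (nat_lit 57377) (nat_lit 3) (.e (nat_lit 98317) (nat_lit 9) (.e (nat_lit 335934) (nat_lit 0) (.e (nat_lit 1858) (nat_lit 124) (.e (nat_lit 557105) (nat_lit 14) (.e (nat_lit 180252) (nat_lit 10) (.e (nat_lit 573474) (nat_lit 12) .nil))))))))) (.g (nat_lit 4) .nil .nil)))) (.nd (nat_lit 5) 
(.lf (nat_lit 143377) (.g (nat_lit 892) (.e (nat_lit 57354) (nat_lit 0) (.e (nat_lit 5194) (nat_lit 294) (.e (nat_lit 57374) (nat_lit 2) (.e (nat_lit 90165) (nat_lit 12) .nil)))) .nil)) 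
(.lf (nat_lit 143409) (.g (nat_lit 3525) (.e (nat_lit 57354) (nat_lit 0) (.e (nat_lit 5195) (nat_lit 294) (.e (nat_lit 57435) (nat_lit 17) (.e (nat_lit 376842) (nat_lit 11) (.e (nat_lit 426306) (nat_lit 12) (.e (nat_lit 475205) (nat_lit 40) (.e (nat_lit 704756) (nat_lit 12) .nil))))))) (.g (nat_lit 5) .nil .nil))))) (.nd (nat_lit 4) (.nd (nat_lit 5) 
(.lf (nat_lit 143369) (.g (nat_lit 2603) (.e (nat_lit 57354) (nat_lit 0) (.e (nat_lit 2346) (nat_lit 151) (.e (nat_lit 778362) (nat_lit 9) (.e (nat_lit 232) (nat_lit 21) (.e (nat_lit 336060) (nat_lit 7) (.e (nat_lit 319534) (nat_lit 16) (.e (nat_lit 286756) (nat_lit 10) (.e (nat_lit 344090) (nat_lit 18) (.e (nat_lit 5572) (nat_lit 308) .nil))))))))) (.g (nat_lit 4) .nil .nil))) 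
(.lf (nat_lit 143401) (.g (nat_lit 1956) (.e (nat_lit 57354) (nat_lit 0) (.e (nat_lit 5195) (nat_lit 294) (.e (nat_lit 57407) (nat_lit 12) (.e (nat_lit 336454) (nat_lit 34) (.e (nat_lit 483383) (nat_lit 23) .nil))))) .nil))) (.nd (nat_lit 5) 
(.lf (nat_lit 143385) (.g (nat_lit 4082) (.e (nat_lit 57354) (nat_lit 0) (.e (nat_lit 5195) (nat_lit 294) (.e (nat_lit 57377) (nat_lit 3) (.e (nat_lit 98313) (nat_lit 9) (.e (nat_lit 336027) (nat_lit 3) (.e (nat_lit 98341) (nat_lit 20) (.e (nat_lit 221210) (nat_lit 22) (.e (nat_lit 196660) (nat_lit 12) .nil)))))))) (.g (nat_lit 7) .nil .nil))) 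
(.lf (nat_lit 143417) (.g (nat_lit 3154) (.e (nat_lit 57354) (nat_lit 0) (.e (nat_lit 5905) (nat_lit 320) (.e (nat_lit 1189) (nat_lit 88) (.e (nat_lit 65628) (nat_lit 14) (.e (nat_lit 401459) (nat_lit 13) (.e (nat_lit 483343) (nat_lit 17) (.e (nat_lit 6514) (nat_lit 346) .nil))))))) (.g (nat_lit 5) .nil .nil)))))) (.nd (nat_lit 3) (.nd (nat_lit 4) (.nd (nat_lit 5) 
(.lf (nat_lit 143365) (.g (nat_lit 2185) (.e (nat_lit 57354) (nat_lit 0) (.e (nat_lit 2346) (nat_lit 151) (.e (nat_lit 778362) (nat_lit 9) (.e (nat_lit 232) (nat_lit 21) (.e (nat_lit 336060) (nat_lit 7) (.e (nat_lit 319534) (nat_lit 16) (.e (nat_lit 286756) (nat_lit 10) (.e (nat_lit 344087) (nat_lit 18) (.e (nat_lit 5572) (nat_lit 308) .nil))))))))) (.g (nat_lit 4) .nil .nil))) 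
(.lf (nat_lit 143397) (.g (nat_lit 3698) (.e (nat_lit 57354) (nat_lit 0) (.e (nat_lit 5195) (nat_lit 294) (.e (nat_lit 57379) (nat_lit 3) (.e (nat_lit 98313) (nat_lit 9) (.e (nat_lit 336027) (nat_lit 3) (.e (nat_lit 98341) (nat_lit 20) (.e (nat_lit 221212) (nat_lit 22) (.e (nat_lit 196660) (nat_lit 12) .nil)))))))) (.g (nat_lit 6) .nil .nil)))) (.nd (nat_lit 5) 
(.lf (nat_lit 143381) (.g (nat_lit 2909) (.e (nat_lit 57354) (nat_lit 0) (.e (nat_lit 5195) (nat_lit 294) (.e (nat_lit 57375) (nat_lit 2) (.e (nat_lit 90128) (nat_lit 9) (.e (nat_lit 297) (nat_lit 22) (.e (nat_lit 344119) (nat_lit 21) (.e (nat_lit 516131) (nat_lit 3) (.e (nat_lit 221212) (nat_lit 22) (.e (nat_lit 196659) (nat_lit 12) .nil))))))))) (.g (nat_lit 6) .nil .nil))) 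
(.lf (nat_lit 143413) (.g (nat_lit 2186) (.e (nat_lit 57354) (nat_lit 0) (.e (nat_lit 5589) (nat_lit 310) (.e (nat_lit 163869) (nat_lit 2) (.e (nat_lit 196670) (nat_lit 14) (.e (nat_lit 73746) (nat_lit 3) .nil))))) .nil)))) (.nd (nat_lit 4) (.nd (nat_lit 5) 
(.lf (nat_lit 143373) (.g (nat_lit 2900) (.e (nat_lit 57354) (nat_lit 0) (.e (nat_lit 5194) (nat_lit 294) (.e (nat_lit 57372) (nat_lit 2) (.e (nat_lit 90128) (nat_lit 9) (.e (nat_lit 297) (nat_lit 22) (.e (nat_lit 344119) (nat_lit 21) (.e (nat_lit 516131) (nat_lit 3) (.e (nat_lit 221212) (nat_lit 22) (.e (nat_lit 196659) (nat_lit 12) .nil))))))))) (.g (nat_lit 6) .nil .nil))) 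
(.lf (nat_lit 143405) (.g (nat_lit 2684) (.e (nat_lit 57354) (nat_lit 0) (.e (nat_lit 5195) (nat_lit 294) (.e (nat_lit 57411) (nat_lit 12) (.e (nat_lit 336211) (nat_lit 13) (.e (nat_lit 393291) (nat_lit 26) (.e (nat_lit 483072) (nat_lit 40) (.e (nat_lit 704746) (nat_lit 12) .nil))))))) (.g (nat_lit 5) .nil .nil)))) (.nd (nat_lit 5) 
(.lf (nat_lit 143389) (.g (nat_lit 4546) (.e (nat_lit 57354) (nat_lit 0) (.e (nat_lit 5195) (nat_lit 294) (.e (nat_lit 57377) (nat_lit 3) (.e (nat_lit 98317) (nat_lit 9) (.e (nat_lit 335926) (nat_lit 0) (.e (nat_lit 1858) (nat_lit 124) (.e (nat_lit 557105) (nat_lit 14) (.e (nat_lit 180252) (nat_lit 10) (.e (nat_lit 573474) (nat_lit 12) .nil))))))))) (.g (nat_lit 4) .nil .nil))) 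
(.lf (nat_lit 143421) (.g (nat_lit 3758) (.e (nat_lit 57354) (nat_lit 0) (.e (nat_lit 5905) (nat_lit 320) (.e (nat_lit 1190) (nat_lit 88) (.e (nat_lit 65628) (nat_lit 14) (.e (nat_lit 401459) (nat_lit 13) (.e (nat_lit 483343) (nat_lit 17) (.e (nat_lit 6514) (nat_lit 346) .nil))))))) (.g (nat_lit 5) .nil .nil))))))) (.nd (nat_lit 2) (.nd (nat_lit 3) (.nd (nat_lit 4) (.nd (nat_lit 5) 
(.lf (nat_lit 143363) (.g (nat_lit 2244) (.e (nat_lit 57354) (nat_lit 0) (.e (nat_lit 2346) (nat_lit 151) (.e (nat_lit 778362) (nat_lit 9) (.e (nat_lit 232) (nat_lit 21) (.e (nat_lit 336060) (nat_lit 7) (.e (nat_lit 319533) (nat_lit 16) (.e (nat_lit 286753) (nat_lit 10) (.e (nat_lit 344088) (nat_lit 18) (.e (nat_lit 5573) (nat_lit 308) .nil))))))))) (.g (nat_lit 4) .nil .nil))) 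
(.lf (nat_lit 143395) (.g (nat_lit 2828) (.e (nat_lit 57354) (nat_lit 0) (.e (nat_lit 5195) (nat_lit 294) (.e (nat_lit 57379) (nat_lit 3) (.e (nat_lit 98313) (nat_lit 9) (.e (nat_lit 336027) (nat_lit 3) (.e (nat_lit 98338) (nat_lit 19) (.e (nat_lit 213013) (nat_lit 9) (.e (nat_lit 2667) (nat_lit 167) (.e (nat_lit 196660) (nat_lit 12) .nil))))))))) (.g (nat_lit 5) .nil .nil)))) (.nd (nat_lit 5) 
(.lf (nat_lit 143379) (.g (nat_lit 2774) (.e (nat_lit 57354) (nat_lit 0) (.e (nat_lit 5194) (nat_lit 294) (.e (nat_lit 57375) (nat_lit 2) (.e (nat_lit 90128) (nat_lit 9) (.e (nat_lit 297) (nat_lit 22) (.e (nat_lit 344119) (nat_lit 21) (.e (nat_lit 516131) (nat_lit 3) (.e (nat_lit 221212) (nat_lit 22) (.e (nat_lit 196659) (nat_lit 12) .nil))))))))) (.g (nat_lit 6) .nil .nil))) 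
(.lf (nat_lit 143411) (.g (nat_lit 2860) (.e (nat_lit 57354) (nat_lit 0) (.e (nat_lit 5195) (nat_lit 294) (.e (nat_lit 57445) (nat_lit 19) (.e (nat_lit 393229) (nat_lit 9) (.e (nat_lit 336076) (nat_lit 9) .nil))))) .nil)))) (.nd (nat_lit 4) (.nd (nat_lit 5) 
(.lf (nat_lit 143371) (.g (nat_lit 3346) (.e (nat_lit 57354) (nat_lit 0) (.e (nat_lit 2346) (nat_lit 151) (.e (nat_lit 778362) (nat_lit 9) (.e (nat_lit 232) (nat_lit 21) (.e (nat_lit 336060) (nat_lit 7) (.e (nat_lit 319534) (nat_lit 16) (.e (nat_lit 286756) (nat_lit 10) (.e (nat_lit 344094) (nat_lit 18) (.e (nat_lit 5572) (nat_lit 308) .nil))))))))) (.g (nat_lit 6) .nil .nil))) 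
(.lf (nat_lit 143403) (.g (nat_lit 2047) (.e (nat_lit 57354) (nat_lit 0) (.e (nat_lit 5195) (nat_lit 294) (.e (nat_lit 57411) (nat_lit 12) (.e (nat_lit 336211) (nat_lit 13) (.e (nat_lit 393273) (nat_lit 23) (.e (nat_lit 426364) (nat_lit 15) (.e (nat_lit 2155) (nat_lit 142) (.e (nat_lit 704746) (nat_lit 12) .nil)))))))) (.g (nat_lit 4) .nil .nil)))) (.nd (nat_lit 5) 
(.lf (nat_lit 143387) (.g (nat_lit 4948) (.e (nat_lit 57354) (nat_lit 0) (.e (nat_lit 5195) (nat_lit 294) (.e (nat_lit 57377) (nat_lit 3) (.e (nat_lit 98317) (nat_lit 9) (.e (nat_lit 335886) (nat_lit 0) (.e (nat_lit 1858) (nat_lit 124) (.e (nat_lit 557105) (nat_lit 14) (.e (nat_lit 180252) (nat_lit 10) (.e (nat_lit 573474) (nat_lit 12) .nil))))))))) (.g (nat_lit 4) .nil .nil))) 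
(.lf (nat_lit 143419) (.g (nat_lit 2802) (.e (nat_lit 57354) (nat_lit 0) (.e (nat_lit 5905) (nat_lit 320) (.e (nat_lit 1189) (nat_lit 88) (.e (nat_lit 65628) (nat_lit 14) (.e (nat_lit 401459) (nat_lit 13) (.e (nat_lit 483354) (nat_lit 17) (.e (nat_lit 7936) (nat_lit 346) .nil))))))) (.g (nat_lit 5) .nil .nil)))))) (.nd (nat_lit 3) (.nd (nat_lit 4) (.nd (nat_lit 5) 
(.lf (nat_lit 143367) (.g (nat_lit 2161) (.e (nat_lit 57354) (nat_lit 0) (.e (nat_lit 2346) (nat_lit 151) (.e (nat_lit 778362) (nat_lit 9) (.e (nat_lit 232) (nat_lit 21) (.e (nat_lit 336060) (nat_lit 7) (.e (nat_lit 319534) (nat_lit 16) (.e (nat_lit 286756) (nat_lit 10) (.e (nat_lit 344088) (nat_lit 18) (.e (nat_lit 5568) (nat_lit 308) .nil))))))))) (.g (nat_lit 4) .nil .nil))) 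
(.lf (nat_lit 143399) (.g (nat_lit 2892) (.e (nat_lit 57354) (nat_lit 0) (.e (nat_lit 5195) (nat_lit 294) (.e (nat_lit 57407) (nat_lit 12) (.e (nat_lit 336316) (nat_lit 17) (.e (nat_lit 196666) (nat_lit 13) (.e (nat_lit 65617) (nat_lit 10) (.e (nat_lit 344091) (nat_lit 18) (.e (nat_lit 7609) (nat_lit 410) (.e (nat_lit 1175) (nat_lit 87) .nil))))))))) (.g (nat_lit 4) .nil .nil)))) (.nd (nat_lit 5) 
(.lf (nat_lit 143383) (.g (nat_lit 2289) (.e (nat_lit 57354) (nat_lit 0) (.e (nat_lit 5195) (nat_lit 294) (.e (nat_lit 57375) (nat_lit 2) (.e (nat_lit 90160) (nat_lit 11) (.e (nat_lit 24606) (nat_lit 3) .nil))))) .nil)) 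
(.lf (nat_lit 143415) (.g (nat_lit 3561) (.e (nat_lit 57354) (nat_lit 0) (.e (nat_lit 5905) (nat_lit 320) (.e (nat_lit 1188) (nat_lit 88) (.e (nat_lit 65630) (nat_lit 14) (.e (nat_lit 401459) (nat_lit 13) (.e (nat_lit 483343) (nat_lit 17) (.e (nat_lit 6514) (nat_lit 346) .nil))))))) (.g (nat_lit 5) .nil .nil))))) (.nd (nat_lit 4) (.nd (nat_lit 5) 
(.lf (nat_lit 143375) (.g (nat_lit 809) (.e (nat_lit 57354) (nat_lit 0) (.e (nat_lit 5194) (nat_lit 294) (.e (nat_lit 57372) (nat_lit 2) (.e (nat_lit 90160) (nat_lit 11) .nil)))) .nil)) 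
(.lf (nat_lit 143407) (.g (nat_lit 2543) (.e (nat_lit 57354) (nat_lit 0) (.e (nat_lit 5195) (nat_lit 294) (.e (nat_lit 57435) (nat_lit 17) (.e (nat_lit 376842) (nat_lit 11) (.e (nat_lit 426306) (nat_lit 12) (.e (nat_lit 475201) (nat_lit 40) (.e (nat_lit 704748) (nat_lit 12) .nil))))))) (.g (nat_lit 4) .nil .nil)))) (.nd (nat_lit 5) 
(.lf (nat_lit 143391) (.g (nat_lit 4862) (.e (nat_lit 57354) (nat_lit 0) (.e (nat_lit 5195) (nat_lit 294) (.e (nat_lit 57377) (nat_lit 3) (.e (nat_lit 98317) (nat_lit 9) (.e (nat_lit 335933) (nat_lit 0) (.e (nat_lit 1858) (nat_lit 124) (.e (nat_lit 557105) (nat_lit 14) (.e (nat_lit 180252) (nat_lit 10) (.e (nat_lit 573474) (nat_lit 12) .nil))))))))) (.g (nat_lit 4) .nil .nil))) 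
(.lf (nat_lit 143423) (.g (nat_lit 3410) (.e (nat_lit 57354) (nat_lit 0) (.e (nat_lit 5905) (nat_lit 320) (.e (nat_lit 1190) (nat_lit 88) (.e (nat_lit 65628) (nat_lit 14) (.e (nat_lit 401459) (nat_lit 13) (.e (nat_lit 483354) (nat_lit 17) (.e (nat_lit 7936) (nat_lit 346) .nil))))))) (.g (nat_lit 5) .nil .nil)))))))))

noncomputable def tv1902 : DT := (.nd (nat_lit 0) (.nd (nat_lit 1) (.nd (nat_lit 2) (.nd (nat_lit 3) (.nd (nat_lit 4) (.nd (nat_lit 5) 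
(.lf (nat_lit 143424) (.g (nat_lit 1454) (.e (nat_lit 57354) (nat_lit 0) (.e (nat_lit 5905) (nat_lit 320) (.e (nat_lit 1190) (nat_lit 88) (.e (nat_lit 65630) (nat_lit 14) .nil)))) .nil)) 
(.lf (nat_lit 143456) (.g (nat_lit 4084) (.e (nat_lit 57354) (nat_lit 0) (.e (nat_lit 5906) (nat_lit 320) (.e (nat_lit 1200) (nat_lit 88) (.e (nat_lit 65628) (nat_lit 14) (.e (nat_lit 401459) (nat_lit 13) (.e (nat_lit 483344) (nat_lit 17) (.e (nat_lit 6514) (nat_lit 346) .nil))))))) (.g (nat_lit 6) .nil .nil)))) (.nd (nat_lit 5) 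
(.lf (nat_lit 143440) (.g (nat_lit 3334) (.e (nat_lit 57354) (nat_lit 0) (.e (nat_lit 5906) (nat_lit 320) (.e (nat_lit 1188) (nat_lit 88) (.e (nat_lit 65630) (nat_lit 14) (.e (nat_lit 401459) (nat_lit 13) (.e (nat_lit 483343) (nat_lit 17) (.e (nat_lit 6514) (nat_lit 346) .nil))))))) (.g (nat_lit 5) .nil .nil))) 
(.lf (nat_lit 143472) (.g (nat_lit 1267) (.e (nat_lit 57354) (nat_lit 0) (.e (nat_lit 5907) (nat_lit 320) (.e (nat_lit 1209) (nat_lit 89) (.e (nat_lit 73782) (nat_lit 32) .nil)))) .nil)))) (.nd (nat_lit 4) (.nd (nat_lit 5) 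
(.lf (nat_lit 143432) (.g (nat_lit 4172) (.e (nat_lit 57354) (nat_lit 0) (.e (nat_lit 5905) (nat_lit 320) (.e (nat_lit 1200) (nat_lit 88) (.e (nat_lit 65628) (nat_lit 14) (.e (nat_lit 401459) (nat_lit 13) (.e (nat_lit 483344) (nat_lit 17) (.e (nat_lit 6514) (nat_lit 346) .nil))))))) (.g (nat_lit 6) .nil .nil))) 
(.lf (nat_lit 143464) (.g (nat_lit 3042) (.e (nat_lit 57354) (nat_lit 0) (.e (nat_lit 5907) (nat_lit 320) (.e (nat_lit 1190) (nat_lit 88) (.e (nat_lit 65628) (nat_lit 14) (.e (nat_lit 401459) (nat_lit 13) (.e (nat_lit 483344) (nat_lit 17) (.e (nat_lit 6513) (nat_lit 346) .nil))))))) (.g (nat_lit 5) .nil .nil)))) (.nd (nat_lit 5) 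
(.lf (nat_lit 143448) (.g (nat_lit 1043) (.e (nat_lit 57354) (nat_lit 0) (.e (nat_lit 5906) (nat_lit 320) (.e (nat_lit 1199) (nat_lit 88) (.e (nat_lit 65628) (nat_lit 14) .nil)))) .nil)) 
(.lf (nat_lit 143480) (.g (nat_lit 1698) (.e (nat_lit 57354) (nat_lit 0) (.e (nat_lit 6114) (nat_lit 332) (.e (nat_lit 1370) (nat_lit 103) (.e (nat_lit 294941) (nat_lit 9) .nil)))) .nil))))) (.nd (nat_lit 3) (.nd (nat_lit 4) (.nd (nat_lit 5) 
(.lf (nat_lit 143428) (.g (nat_lit 4530) (.e (nat_lit 57354) (nat_lit 0) (.e (nat_lit 5905) (nat_lit 320) (.e (nat_lit 1199) (nat_lit 88) (.e (nat_lit 65630) (nat_lit 14) (.e (nat_lit 401459) (nat_lit 13) (.e (nat_lit 483344) (nat_lit 17) (.e (nat_lit 6514) (nat_lit 346) .nil))))))) (.g (nat_lit 6) .nil .nil))) 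
(.lf (nat_lit 143460) (.g (nat_lit 3261) (.e (nat_lit 57354) (nat_lit 0) (.e (nat_lit 5906) (nat_lit 320) (.e (nat_lit 1200) (nat_lit 88) (.e (nat_lit 65629) (nat_lit 14) (.e (nat_lit 401459) (nat_lit 13) (.e (nat_lit 483344) (nat_lit 17) (.e (nat_lit 7936) (nat_lit 346) .nil))))))) (.g (nat_lit 5) .nil .nil)))) (.nd (nat_lit 5) 
(.lf (nat_lit 143444) (.g (nat_lit 4283) (.e (nat_lit 57354) (nat_lit 0) (.e (nat_lit 5906) (nat_lit 320) (.e (nat_lit 1190) (nat_lit 88) (.e (nat_lit 65628) (nat_lit 14) (.e (nat_lit 401459) (nat_lit 13) (.e (nat_lit 483344) (nat_lit 17) (.e (nat_lit 6514) (nat_lit 346) .nil))))))) (.g (nat_lit 6) .nil .nil))) 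
(.lf (nat_lit 143476) (.g (nat_lit 3531) (.e (nat_lit 57354) (nat_lit 0) (.e (nat_lit 6114) (nat_lit 332) (.e (nat_lit 1370) (nat_lit 103) (.e (nat_lit 294937) (nat_lit 9) .nil)))) .nil)))) (.nd (nat_lit 4) (.nd (nat_lit 5) 
(.lf (nat_lit 143436) (.g (nat_lit 2131) (.e (nat_lit 57354) (nat_lit 0) (.e (nat_lit 5905) (nat_lit 320) (.e (nat_lit 1209) (nat_lit 89) (.e (nat_lit 73782) (nat_lit 32) (.e (nat_lit 2856) (nat_lit 184) .nil))))) .nil)) 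
(.lf (nat_lit 143468) (.g (nat_lit 3297) (.e (nat_lit 57354) (nat_lit 0) (.e (nat_lit 5907) (nat_lit 320) (.e (nat_lit 1199) (nat_lit 88) (.e (nat_lit 65630) (nat_lit 14) (.e (nat_lit 401459) (nat_lit 13) (.e (nat_lit 483344) (nat_lit 17) (.e (nat_lit 7936) (nat_lit 346) .nil))))))) (.g (nat_lit 5) .nil .nil)))) (.nd (nat_lit 5) 
(.lf (nat_lit 143452) (.g (nat_lit 4038) (.e (nat_lit 57354) (nat_lit 0) (.e (nat_lit 5906) (nat_lit 320) (.e (nat_lit 1199) (nat_lit 88) (.e (nat_lit 65630) (nat_lit 14) (.e (nat_lit 401459) (nat_lit 13) (.e (nat_lit 483343) (nat_lit 17) (.e (nat_lit 6514) (nat_lit 346) .nil))))))) (.g (nat_lit 5) .nil .nil))) 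
(.lf (nat_lit 143484) (.g (nat_lit 2162) (.e (nat_lit 57354) (nat_lit 0) (.e (nat_lit 6114) (nat_lit 332) (.e (nat_lit 1370) (nat_lit 103) (.e (nat_lit 294941) (nat_lit 9) (.e (nat_lit 336434) (nat_lit 30) .nil))))) .nil)))))) (.nd (nat_lit 2) (.nd (nat_lit 3) (.nd (nat_lit 4) (.nd (nat_lit 5) 
(.lf (nat_lit 143426) (.g (nat_lit 4336) (.e (nat_lit 57354) (nat_lit 0) (.e (nat_lit 5905) (nat_lit 320) (.e (nat_lit 1190) (nat_lit 88) (.e (nat_lit 65630) (nat_lit 14) (.e (nat_lit 401459) (nat_lit 13) (.e (nat_lit 483344) (nat_lit 17) (.e (nat_lit 7936) (nat_lit 346) .nil))))))) (.g (nat_lit 5) .nil .nil))) 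
(.lf (nat_lit 143458) (.g (nat_lit 3002) (.e (nat_lit 57354) (nat_lit 0) (.e (nat_lit 5906) (nat_lit 320) (.e (nat_lit 1200) (nat_lit 88) (.e (nat_lit 65628) (nat_lit 14) (.e (nat_lit 401459) (nat_lit 13) (.e (nat_lit 483354) (nat_lit 17) (.e (nat_lit 7936) (nat_lit 346) .nil))))))) (.g (nat_lit 5) .nil .nil)))) (.nd (nat_lit 5) 
(.lf (nat_lit 143442) (.g (nat_lit 3436) (.e (nat_lit 57354) (nat_lit 0) (.e (nat_lit 5906) (nat_lit 320) (.e (nat_lit 1190) (nat_lit 88) (.e (nat_lit 65628) (nat_lit 14) (.e (nat_lit 401459) (nat_lit 13) (.e (nat_lit 483343) (nat_lit 17) (.e (nat_lit 6514) (nat_lit 346) .nil))))))) (.g (nat_lit 5) .nil .nil))) 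
(.lf (nat_lit 143474) (.g (nat_lit 952) (.e (nat_lit 57354) (nat_lit 0) (.e (nat_lit 6114) (nat_lit 332) (.e (nat_lit 1361) (nat_lit 102) .nil))) .nil)))) (.nd (nat_lit 4) (.nd (nat_lit 5) 
(.lf (nat_lit 143434) (.g (nat_lit 3818) (.e (nat_lit 57354) (nat_lit 0) (.e (nat_lit 5905) (nat_lit 320) (.e (nat_lit 1200) (nat_lit 88) (.e (nat_lit 65629) (nat_lit 14) (.e (nat_lit 401459) (nat_lit 13) (.e (nat_lit 483344) (nat_lit 17) (.e (nat_lit 6513) (nat_lit 346) .nil))))))) (.g (nat_lit 5) .nil .nil))) 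
(.lf (nat_lit 143466) (.g (nat_lit 3725) (.e (nat_lit 57354) (nat_lit 0) (.e (nat_lit 5907) (nat_lit 320) (.e (nat_lit 1190) (nat_lit 88) (.e (nat_lit 65630) (nat_lit 14) (.e (nat_lit 401459) (nat_lit 13) (.e (nat_lit 483344) (nat_lit 17) (.e (nat_lit 7936) (nat_lit 346) .nil))))))) (.g (nat_lit 5) .nil .nil)))) (.nd (nat_lit 5) 
(.lf (nat_lit 143450) (.g (nat_lit 2646) (.e (nat_lit 57354) (nat_lit 0) (.e (nat_lit 5906) (nat_lit 320) (.e (nat_lit 1199) (nat_lit 88) (.e (nat_lit 65628) (nat_lit 14) (.e (nat_lit 401459) (nat_lit 13) (.e (nat_lit 483344) (nat_lit 17) (.e (nat_lit 7936) (nat_lit 346) .nil))))))) (.g (nat_lit 5) .nil .nil))) 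
(.lf (nat_lit 143482) (.g (nat_lit 2832) (.e (nat_lit 57354) (nat_lit 0) (.e (nat_lit 6114) (nat_lit 332) (.e (nat_lit 1370) (nat_lit 103) (.e (nat_lit 294941) (nat_lit 9) (.e (nat_lit 336430) (nat_lit 29) (.e (nat_lit 442428) (nat_lit 24) (.e (nat_lit 229708) (nat_lit 256) .nil))))))) (.g (nat_lit 4) .nil .nil)))))) (.nd (nat_lit 3) (.nd (nat_lit 4) (.nd (nat_lit 5) 
(.lf (nat_lit 143430) (.g (nat_lit 3383) (.e (nat_lit 57354) (nat_lit 0) (.e (nat_lit 5905) (nat_lit 320) (.e (nat_lit 1200) (nat_lit 88) (.e (nat_lit 65628) (nat_lit 14) (.e (nat_lit 401459) (nat_lit 13) (.e (nat_lit 483343) (nat_lit 17) (.e (nat_lit 6514) (nat_lit 346) .nil))))))) (.g (nat_lit 5) .nil .nil))) 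
(.lf (nat_lit 143462) (.g (nat_lit 3081) (.e (nat_lit 57354) (nat_lit 0) (.e (nat_lit 5907) (nat_lit 320) (.e (nat_lit 1188) (nat_lit 88) (.e (nat_lit 65630) (nat_lit 14) (.e (nat_lit 401459) (nat_lit 13) (.e (nat_lit 483343) (nat_lit 17) (.e (nat_lit 6514) (nat_lit 346) .nil))))))) (.g (nat_lit 5) .nil .nil)))) (.nd (nat_lit 5) 
(.lf (nat_lit 143446) (.g (nat_lit 1258) (.e (nat_lit 57354) (nat_lit 0) (.e (nat_lit 5906) (nat_lit 320) (.e (nat_lit 1190) (nat_lit 88) (.e (nat_lit 65630) (nat_lit 14) .nil)))) .nil)) 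
(.lf (nat_lit 143478) (.g (nat_lit 3534) (.e (nat_lit 57354) (nat_lit 0) (.e (nat_lit 6114) (nat_lit 332) (.e (nat_lit 1370) (nat_lit 103) (.e (nat_lit 294939) (nat_lit 9) .nil)))) .nil)))) (.nd (nat_lit 4) (.nd (nat_lit 5) 
(.lf (nat_lit 143438) (.g (nat_lit 2499) (.e (nat_lit 57354) (nat_lit 0) (.e (nat_lit 5905) (nat_lit 320) (.e (nat_lit 1221) (nat_lit 90) (.e (nat_lit 81959) (nat_lit 24) (.e (nat_lit 123195) (nat_lit 266) .nil))))) .nil)) 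
(.lf (nat_lit 143470) (.g (nat_lit 2970) (.e (nat_lit 57354) (nat_lit 0) (.e (nat_lit 5907) (nat_lit 320) (.e (nat_lit 1200) (nat_lit 88) (.e (nat_lit 65628) (nat_lit 14) (.e (nat_lit 401459) (nat_lit 13) (.e (nat_lit 483343) (nat_lit 17) (.e (nat_lit 6514) (nat_lit 346) .nil))))))) (.g (nat_lit 5) .nil .nil)))) (.nd (nat_lit 5) 
(.lf (nat_lit 143454) (.g (nat_lit 3672) (.e (nat_lit 57354) (nat_lit 0) (.e (nat_lit 5906) (nat_lit 320) (.e (nat_lit 1199) (nat_lit 88) (.e (nat_lit 65630) (nat_lit 14) (.e (nat_lit 401459) (nat_lit 13) (.e (nat_lit 483354) (nat_lit 17) (.e (nat_lit 7936) (nat_lit 346) .nil))))))) (.g (nat_lit 5) .nil .nil))) 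
(.lf (nat_lit 143486) (.g (nat_lit 3530) (.e (nat_lit 57354) (nat_lit 0) (.e (nat_lit 6114) (nat_lit 332) (.e (nat_lit 1370) (nat_lit 103) (.e (nat_lit 294959) (nat_lit 13) .nil)))) .nil))))))) (.nd (nat_lit 1) (.nd (nat_lit 2) (.nd (nat_lit 3) (.nd (nat_lit 4) (.nd (nat_lit 5) 
(.lf (nat_lit 143425) (.g (nat_lit 5079) (.e (nat_lit 57354) (nat_lit 0) (.e (nat_lit 5905) (nat_lit 320) (.e (nat_lit 1190) (nat_lit 88) (.e (nat_lit 65630) (nat_lit 14) (.e (nat_lit 401459) (nat_lit 13) (.e (nat_lit 483344) (nat_lit 17) (.e (nat_lit 6513) (nat_lit 346) .nil))))))) (.g (nat_lit 6) .nil .nil))) 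
(.lf (nat_lit 143457) (.g (nat_lit 2970) (.e (nat_lit 57354) (nat_lit 0) (.e (nat_lit 5906) (nat_lit 320) (.e (nat_lit 1200) (nat_lit 88) (.e (nat_lit 65628) (nat_lit 14) (.e (nat_lit 401459) (nat_lit 13) (.e (nat_lit 483344) (nat_lit 17) (.e (nat_lit 7936) (nat_lit 346) .nil))))))) (.g (nat_lit 5) .nil .nil)))) (.nd (nat_lit 5) 
(.lf (nat_lit 143441) (.g (nat_lit 4321) (.e (nat_lit 57354) (nat_lit 0) (.e (nat_lit 5906) (nat_lit 320) (.e (nat_lit 1188) (nat_lit 88) (.e (nat_lit 65630) (nat_lit 14) (.e (nat_lit 401459) (nat_lit 13) (.e (nat_lit 483344) (nat_lit 17) (.e (nat_lit 6513) (nat_lit 346) .nil))))))) (.g (nat_lit 6) .nil .nil))) 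
(.lf (nat_lit 143473) (.g (nat_lit 1482) (.e (nat_lit 57354) (nat_lit 0) (.e (nat_lit 5907) (nat_lit 320) (.e (nat_lit 1221) (nat_lit 90) (.e (nat_lit 81959) (nat_lit 24) .nil)))) .nil)))) (.nd (nat_lit 4) (.nd (nat_lit 5) 
(.lf (nat_lit 143433) (.g (nat_lit 3631) (.e (nat_lit 57354) (nat_lit 0) (.e (nat_lit 5905) (nat_lit 320) (.e (nat_lit 1200) (nat_lit 88) (.e (nat_lit 65629) (nat_lit 14) (.e (nat_lit 401459) (nat_lit 13) (.e (nat_lit 483343) (nat_lit 17) (.e (nat_lit 6514) (nat_lit 346) .nil))))))) (.g (nat_lit 5) .nil .nil))) 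
(.lf (nat_lit 143465) (.g (nat_lit 5119) (.e (nat_lit 57354) (nat_lit 0) (.e (nat_lit 5907) (nat_lit 320) (.e (nat_lit 1190) (nat_lit 88) (.e (nat_lit 65630) (nat_lit 14) (.e (nat_lit 401459) (nat_lit 13) (.e (nat_lit 483344) (nat_lit 17) (.e (nat_lit 6514) (nat_lit 346) .nil))))))) (.g (nat_lit 6) .nil .nil)))) (.nd (nat_lit 5) 
(.lf (nat_lit 143449) (.g (nat_lit 2901) (.e (nat_lit 57354) (nat_lit 0) (.e (nat_lit 5906) (nat_lit 320) (.e (nat_lit 1199) (nat_lit 88) (.e (nat_lit 65628) (nat_lit 14) (.e (nat_lit 401459) (nat_lit 13) (.e (nat_lit 483343) (nat_lit 17) (.e (nat_lit 6514) (nat_lit 346) .nil))))))) (.g (nat_lit 5) .nil .nil))) 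
(.lf (nat_lit 143481) (.g (nat_lit 2160) (.e (nat_lit 57354) (nat_lit 0) (.e (nat_lit 6114) (nat_lit 332) (.e (nat_lit 1370) (nat_lit 103) (.e (nat_lit 294941) (nat_lit 9) (.e (nat_lit 336426) (nat_lit 29) .nil))))) .nil))))) (.nd (nat_lit 3) (.nd (nat_lit 4) (.nd (nat_lit 5) 
(.lf (nat_lit 143429) (.g (nat_lit 3241) (.e (nat_lit 57354) (nat_lit 0) (.e (nat_lit 5905) (nat_lit 320) (.e (nat_lit 1199) (nat_lit 88) (.e (nat_lit 65630) (nat_lit 14) (.e (nat_lit 401459) (nat_lit 13) (.e (nat_lit 483344) (nat_lit 17) (.e (nat_lit 7936) (nat_lit 346) .nil))))))) (.g (nat_lit 5) .nil .nil))) 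
(.lf (nat_lit 143461) (.g (nat_lit 1934) (.e (nat_lit 57354) (nat_lit 0) (.e (nat_lit 5906) (nat_lit 320) (.e (nat_lit 1209) (nat_lit 89) (.e (nat_lit 73782) (nat_lit 32) (.e (nat_lit 2856) (nat_lit 184) .nil))))) .nil))) (.nd (nat_lit 5) 
(.lf (nat_lit 143445) (.g (nat_lit 3130) (.e (nat_lit 57354) (nat_lit 0) (.e (nat_lit 5906) (nat_lit 320) (.e (nat_lit 1190) (nat_lit 88) (.e (nat_lit 65628) (nat_lit 14) (.e (nat_lit 401459) (nat_lit 13) (.e (nat_lit 483354) (nat_lit 17) (.e (nat_lit 7936) (nat_lit 346) .nil))))))) (.g (nat_lit 5) .nil .nil))) 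
(.lf (nat_lit 143477) (.g (nat_lit 3534) (.e (nat_lit 57354) (nat_lit 0) (.e (nat_lit 6114) (nat_lit 332) (.e (nat_lit 1370) (nat_lit 103) (.e (nat_lit 294938) (nat_lit 9) .nil)))) .nil)))) (.nd (nat_lit 4) (.nd (nat_lit 5) 
(.lf (nat_lit 143437) (.g (nat_lit 1226) (.e (nat_lit 57354) (nat_lit 0) (.e (nat_lit 5905) (nat_lit 320) (.e (nat_lit 1210) (nat_lit 89) (.e (nat_lit 73781) (nat_lit 32) (.e (nat_lit 3090) (nat_lit 191) .nil))))) .nil)) 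
(.lf (nat_lit 143469) (.g (nat_lit 796) (.e (nat_lit 57354) (nat_lit 0) (.e (nat_lit 5907) (nat_lit 320) (.e (nat_lit 1200) (nat_lit 88) (.e (nat_lit 65628) (nat_lit 14) .nil)))) .nil))) (.nd (nat_lit 5) 
(.lf (nat_lit 143453) (.g (nat_lit 4554) (.e (nat_lit 57354) (nat_lit 0) (.e (nat_lit 5906) (nat_lit 320) (.e (nat_lit 1199) (nat_lit 88) (.e (nat_lit 65630) (nat_lit 14) (.e (nat_lit 401459) (nat_lit 13) (.e (nat_lit 483344) (nat_lit 17) (.e (nat_lit 6513) (nat_lit 346) .nil))))))) (.g (nat_lit 6) .nil .nil))) 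
(.lf (nat_lit 143485) (.g (nat_lit 3529) (.e (nat_lit 57354) (nat_lit 0) (.e (nat_lit 6114) (nat_lit 332) (.e (nat_lit 1370) (nat_lit 103) (.e (nat_lit 294958) (nat_lit 13) .nil)))) .nil)))))) (.nd (nat_lit 2) (.nd (nat_lit 3) (.nd (nat_lit 4) (.nd (nat_lit 5) 
(.lf (nat_lit 143427) (.g (nat_lit 3259) (.e (nat_lit 57354) (nat_lit 0) (.e (nat_lit 5905) (nat_lit 320) (.e (nat_lit 1199) (nat_lit 88) (.e (nat_lit 65628) (nat_lit 14) (.e (nat_lit 401459) (nat_lit 13) (.e (nat_lit 483344) (nat_lit 17) (.e (nat_lit 6514) (nat_lit 346) .nil))))))) (.g (nat_lit 5) .nil .nil))) 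
(.lf (nat_lit 143459) (.g (nat_lit 3629) (.e (nat_lit 57354) (nat_lit 0) (.e (nat_lit 5906) (nat_lit 320) (.e (nat_lit 1200) (nat_lit 88) (.e (nat_lit 65629) (nat_lit 14) (.e (nat_lit 401459) (nat_lit 13) (.e (nat_lit 483343) (nat_lit 17) (.e (nat_lit 6514) (nat_lit 346) .nil))))))) (.g (nat_lit 5) .nil .nil)))) (.nd (nat_lit 5) 
(.lf (nat_lit 143443) (.g (nat_lit 3686) (.e (nat_lit 57354) (nat_lit 0) (.e (nat_lit 5906) (nat_lit 320) (.e (nat_lit 1190) (nat_lit 88) (.e (nat_lit 65628) (nat_lit 14) (.e (nat_lit 401459) (nat_lit 13) (.e (nat_lit 483344) (nat_lit 17) (.e (nat_lit 6513) (nat_lit 346) .nil))))))) (.g (nat_lit 6) .nil .nil))) 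
(.lf (nat_lit 143475) (.g (nat_lit 580) (.e (nat_lit 57354) (nat_lit 0) (.e (nat_lit 6114) (nat_lit 332) (.e (nat_lit 1370) (nat_lit 103) .nil))) .nil)))) (.nd (nat_lit 4) (.nd (nat_lit 5) 
(.lf (nat_lit 143435) (.g (nat_lit 3714) (.e (nat_lit 57354) (nat_lit 0) (.e (nat_lit 5905) (nat_lit 320) (.e (nat_lit 1200) (nat_lit 88) (.e (nat_lit 65630) (nat_lit 14) (.e (nat_lit 401459) (nat_lit 13) (.e (nat_lit 483344) (nat_lit 17) (.e (nat_lit 6513) (nat_lit 346) .nil))))))) (.g (nat_lit 5) .nil .nil))) 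
(.lf (nat_lit 143467) (.g (nat_lit 3670) (.e (nat_lit 57354) (nat_lit 0) (.e (nat_lit 5907) (nat_lit 320) (.e (nat_lit 1199) (nat_lit 88) (.e (nat_lit 65630) (nat_lit 14) (.e (nat_lit 401459) (nat_lit 13) (.e (nat_lit 483343) (nat_lit 17) (.e (nat_lit 6514) (nat_lit 346) .nil))))))) (.g (nat_lit 5) .nil .nil)))) (.nd (nat_lit 5) 
(.lf (nat_lit 143451) (.g (nat_lit 1646) (.e (nat_lit 57354) (nat_lit 0) (.e (nat_lit 5906) (nat_lit 320) (.e (nat_lit 1199) (nat_lit 88) (.e (nat_lit 65630) (nat_lit 14) (.e (nat_lit 401437) (nat_lit 9) .nil))))) .nil)) 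
(.lf (nat_lit 143483) (.g (nat_lit 3383) (.e (nat_lit 57354) (nat_lit 0) (.e (nat_lit 6114) (nat_lit 332) (.e (nat_lit 1370) (nat_lit 103) (.e (nat_lit 294941) (nat_lit 9) (.e (nat_lit 336430) (nat_lit 29) (.e (nat_lit 442430) (nat_lit 24) (.e (nat_lit 229708) (nat_lit 256) .nil))))))) (.g (nat_lit 5) .nil .nil)))))) (.nd (nat_lit 3) (.nd (nat_lit 4) (.nd (nat_lit 5) 
(.lf (nat_lit 143431) (.g (nat_lit 3525) (.e (nat_lit 57354) (nat_lit 0) (.e (nat_lit 5905) (nat_lit 320) (.e (nat_lit 1200) (nat_lit 88) (.e (nat_lit 65628) (nat_lit 14) (.e (nat_lit 401459) (nat_lit 13) (.e (nat_lit 483344) (nat_lit 17) (.e (nat_lit 6513) (nat_lit 346) .nil))))))) (.g (nat_lit 5) .nil .nil))) 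
(.lf (nat_lit 143463) (.g (nat_lit 3174) (.e (nat_lit 57354) (nat_lit 0) (.e (nat_lit 5907) (nat_lit 320) (.e (nat_lit 1188) (nat_lit 88) (.e (nat_lit 65630) (nat_lit 14) (.e (nat_lit 401459) (nat_lit 13) (.e (nat_lit 483344) (nat_lit 17) (.e (nat_lit 7936) (nat_lit 346) .nil))))))) (.g (nat_lit 5) .nil .nil)))) (.nd (nat_lit 5) 
(.lf (nat_lit 143447) (.g (nat_lit 4890) (.e (nat_lit 57354) (nat_lit 0) (.e (nat_lit 5906) (nat_lit 320) (.e (nat_lit 1190) (nat_lit 88) (.e (nat_lit 65630) (nat_lit 14) (.e (nat_lit 401459) (nat_lit 13) (.e (nat_lit 483344) (nat_lit 17) (.e (nat_lit 6513) (nat_lit 346) .nil))))))) (.g (nat_lit 6) .nil .nil))) 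
(.lf (nat_lit 143479) (.g (nat_lit 3527) (.e (nat_lit 57354) (nat_lit 0) (.e (nat_lit 6114) (nat_lit 332) (.e (nat_lit 1370) (nat_lit 103) (.e (nat_lit 294940) (nat_lit 9) .nil)))) .nil)))) (.nd (nat_lit 4) (.nd (nat_lit 5) 
(.lf (nat_lit 143439) (.g (nat_lit 3509) (.e (nat_lit 57354) (nat_lit 0) (.e (nat_lit 5906) (nat_lit 320) (.e (nat_lit 1187) (nat_lit 88) (.e (nat_lit 65630) (nat_lit 14) (.e (nat_lit 401459) (nat_lit 13) (.e (nat_lit 483344) (nat_lit 17) (.e (nat_lit 7936) (nat_lit 346) .nil))))))) (.g (nat_lit 5) .nil .nil))) 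
(.lf (nat_lit 143471) (.g (nat_lit 3294) (.e (nat_lit 57354) (nat_lit 0) (.e (nat_lit 5907) (nat_lit 320) (.e (nat_lit 1200) (nat_lit 88) (.e (nat_lit 65629) (nat_lit 14) (.e (nat_lit 401459) (nat_lit 13) (.e (nat_lit 483343) (nat_lit 17) (.e (nat_lit 6514) (nat_lit 346) .nil))))))) (.g (nat_lit 5) .nil .nil)))) (.nd (nat_lit 5) 
(.lf (nat_lit 143455) (.g (nat_lit 3304) (.e (nat_lit 57354) (nat_lit 0) (.e (nat_lit 5906) (nat_lit 320) (.e (nat_lit 1200) (nat_lit 88) (.e (nat_lit 65628) (nat_lit 14) (.e (nat_lit 401459) (nat_lit 13) (.e (nat_lit 483343) (nat_lit 17) (.e (nat_lit 6514) (nat_lit 346) .nil))))))) (.g (nat_lit 5) .nil .nil))) 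
(.lf (nat_lit 143487) (.g (nat_lit 1090) (.e (nat_lit 57354) (nat_lit 0) (.e (nat_lit 6114) (nat_lit 332) (.e (nat_lit 1370) (nat_lit 103) (.e (nat_lit 294960) (nat_lit 13) .nil)))) .nil))))))))

noncomputable def tv1903 : DT := (.nd (nat_lit 0) (.nd (nat_lit 1) (.nd (nat_lit 2) (.nd (nat_lit 3) (.nd (nat_lit 4) (.nd (nat_lit 5) 
(.lf (nat_lit 143488) (.g (nat_lit 1519) (.e (nat_lit 57354) (nat_lit 0) (.e (nat_lit 6114) (nat_lit 332) (.e (nat_lit 1370) (nat_lit 103) (.e (nat_lit 294960) (nat_lit 13) (.e (nat_lit 393283) (nat_lit 24) .nil))))) .nil)) 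
(.lf (nat_lit 143520) (.g (nat_lit 2007) (.e (nat_lit 57355) (nat_lit 0) (.e (nat_lit 1858) (nat_lit 124) (.e (nat_lit 557109) (nat_lit 15) (.e (nat_lit 188461) (nat_lit 26) (.e (nat_lit 253959) (nat_lit 9) .nil))))) .nil))) (.nd (nat_lit 5) 
(.lf (nat_lit 143504) (.g (nat_lit 637) (.e (nat_lit 57354) (nat_lit 0) (.e (nat_lit 7270) (nat_lit 385) (.e (nat_lit 122925) (nat_lit 19) .nil))) .nil)) 
(.lf (nat_lit 143536) (.g (nat_lit 3687) (.e (nat_lit 57356) (nat_lit 0) (.e (nat_lit 7271) (nat_lit 385) (.e (nat_lit 122913) (nat_lit 13) (.e (nat_lit 344117) (nat_lit 21) (.e (nat_lit 516165) (nat_lit 12) (.e (nat_lit 450586) (nat_lit 10) (.e (nat_lit 573475) (nat_lit 12) .nil))))))) (.g (nat_lit 7) .nil .nil))))) (.nd (nat_lit 4) (.nd (nat_lit 5) 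
(.lf (nat_lit 143496) (.g (nat_lit 5483) (.e (nat_lit 57354) (nat_lit 0) (.e (nat_lit 7270) (nat_lit 385) (.e (nat_lit 122913) (nat_lit 13) (.e (nat_lit 344117) (nat_lit 21) (.e (nat_lit 516151) (nat_lit 9) (.e (nat_lit 426286) (nat_lit 10) (.e (nat_lit 434248) (nat_lit 28) (.e (nat_lit 573473) (nat_lit 12) .nil)))))))) (.g (nat_lit 8) .nil .nil))) 
(.lf (nat_lit 143528) (.g (nat_lit 1208) (.e (nat_lit 57356) (nat_lit 0) (.e (nat_lit 5195) (nat_lit 294) (.e (nat_lit 57377) (nat_lit 3) (.e (nat_lit 106240) (nat_lit 10) .nil)))) .nil))) (.nd (nat_lit 5) 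
(.lf (nat_lit 143512) (.g (nat_lit 2608) (.e (nat_lit 57355) (nat_lit 0) (.e (nat_lit 1858) (nat_lit 124) (.e (nat_lit 557105) (nat_lit 14) (.e (nat_lit 180252) (nat_lit 10) (.e (nat_lit 573482) (nat_lit 13) .nil))))) .nil)) 
(.lf (nat_lit 143544) (.g (nat_lit 3135) (.e (nat_lit 57356) (nat_lit 0) (.e (nat_lit 7273) (nat_lit 385) (.e (nat_lit 122913) (nat_lit 13) (.e (nat_lit 344117) (nat_lit 21) (.e (nat_lit 516151) (nat_lit 9) (.e (nat_lit 426286) (nat_lit 10) (.e (nat_lit 434247) (nat_lit 28) (.e (nat_lit 573478) (nat_lit 12) .nil)))))))) (.g (nat_lit 8) .nil .nil)))))) 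
(.nd (nat_lit 3) (.nd (nat_lit 4) (.nd (nat_lit 5) 
(.lf (nat_lit 143492) (.g (nat_lit 3595) (.e (nat_lit 57354) (nat_lit 0) (.e (nat_lit 6493) (nat_lit 343) (.e (nat_lit 1659) (nat_lit 115) (.e (nat_lit 393301) (nat_lit 27) (.e (nat_lit 491559) (nat_lit 10) (.e (nat_lit 344095) (nat_lit 18) (.e (nat_lit 7263) (nat_lit 384) .nil))))))) (.g (nat_lit 5) .nil .nil))) 
(.lf (nat_lit 143524) (.g (nat_lit 3009) (.e (nat_lit 57356) (nat_lit 0) (.e (nat_lit 1858) (nat_lit 124) (.e (nat_lit 557105) (nat_lit 14) (.e (nat_lit 180252) (nat_lit 10) (.e (nat_lit 573487) (nat_lit 14) .nil))))) .nil))) (.nd (nat_lit 5) 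
(.lf (nat_lit 143508) (.g (nat_lit 1480) (.e (nat_lit 57355) (nat_lit 0) (.e (nat_lit 1858) (nat_lit 124) (.e (nat_lit 557105) (nat_lit 14) (.e (nat_lit 180251) (nat_lit 10) .nil)))) .nil)) 
(.lf (nat_lit 143540) (.g (nat_lit 4506) (.e (nat_lit 57356) (nat_lit 0) (.e (nat_lit 7272) (nat_lit 385) (.e (nat_lit 122913) (nat_lit 13) (.e (nat_lit 344117) (nat_lit 21) (.e (nat_lit 516151) (nat_lit 9) (.e (nat_lit 426286) (nat_lit 10) (.e (nat_lit 434248) (nat_lit 28) (.e (nat_lit 573475) (nat_lit 12) .nil)))))))) (.g (nat_lit 8) .nil .nil))))) (.nd (nat_lit 4) (.nd (nat_lit 5) 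
(.lf (nat_lit 143500) (.g (nat_lit 1216) (.e (nat_lit 57354) (nat_lit 0) (.e (nat_lit 7270) (nat_lit 385) (.e (nat_lit 122913) (nat_lit 13) (.e (nat_lit 344177) (nat_lit 43) .nil)))) .nil)) 
(.lf (nat_lit 143532) (.g (nat_lit 3662) (.e (nat_lit 57356) (nat_lit 0) (.e (nat_lit 7271) (nat_lit 385) (.e (nat_lit 122912) (nat_lit 13) (.e (nat_lit 344117) (nat_lit 21) (.e (nat_lit 516151) (nat_lit 9) (.e (nat_lit 426286) (nat_lit 10) (.e (nat_lit 434247) (nat_lit 28) (.e (nat_lit 573478) (nat_lit 12) .nil)))))))) (.g (nat_lit 8) .nil .nil)))) (.nd (nat_lit 5) 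
(.lf (nat_lit 143516) (.g (nat_lit 1651) (.e (nat_lit 57355) (nat_lit 0) (.e (nat_lit 1858) (nat_lit 124) (.e (nat_lit 557109) (nat_lit 15) (.e (nat_lit 188449) (nat_lit 22) .nil)))) .nil)) 
(.lf (nat_lit 143548) (.g (nat_lit 3525) (.e (nat_lit 57356) (nat_lit 0) (.e (nat_lit 7273) (nat_lit 385) (.e (nat_lit 122913) (nat_lit 13) (.e (nat_lit 344117) (nat_lit 21) (.e (nat_lit 516166) (nat_lit 12) (.e (nat_lit 450588) (nat_lit 10) (.e (nat_lit 573475) (nat_lit 12) .nil))))))) (.g (nat_lit 7) .nil .nil))))))) (.nd (nat_lit 2) (.nd (nat_lit 3) (.nd (nat_lit 4) (.nd (nat_lit 5) 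
(.lf (nat_lit 143490) (.g (nat_lit 2322) (.e (nat_lit 57354) (nat_lit 0) (.e (nat_lit 6114) (nat_lit 332) (.e (nat_lit 2777) (nat_lit 178) (.e (nat_lit 286731) (nat_lit 1) .nil)))) .nil)) 
(.lf (nat_lit 143522) (.g (nat_lit 2048) (.e (nat_lit 57355) (nat_lit 0) (.e (nat_lit 2030) (nat_lit 140) (.e (nat_lit 688177) (nat_lit 16) (.e (nat_lit 65583) (nat_lit 7) (.e (nat_lit 319530) (nat_lit 16) .nil))))) .nil))) (.nd (nat_lit 5) 
(.lf (nat_lit 143506) (.g (nat_lit 2151) (.e (nat_lit 57355) (nat_lit 0) (.e (nat_lit 1858) (nat_lit 124) (.e (nat_lit 557101) (nat_lit 13) (.e (nat_lit 172097) (nat_lit 9) (.e (nat_lit 426125) (nat_lit 2) .nil))))) .nil)) 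
(.lf (nat_lit 143538) (.g (nat_lit 3120) (.e (nat_lit 57356) (nat_lit 0) (.e (nat_lit 7271) (nat_lit 385) (.e (nat_lit 122913) (nat_lit 13) (.e (nat_lit 344117) (nat_lit 21) (.e (nat_lit 516166) (nat_lit 12) (.e (nat_lit 450587) (nat_lit 10) (.e (nat_lit 573478) (nat_lit 12) .nil))))))) (.g (nat_lit 7) .nil .nil))))) (.nd (nat_lit 4) (.nd (nat_lit 5) 
(.lf (nat_lit 143498) (.g (nat_lit 5215) (.e (nat_lit 57354) (nat_lit 0) (.e (nat_lit 7270) (nat_lit 385) (.e (nat_lit 122913) (nat_lit 13) (.e (nat_lit 344117) (nat_lit 21) (.e (nat_lit 516166) (nat_lit 12) (.e (nat_lit 450588) (nat_lit 10) (.e (nat_lit 573473) (nat_lit 12) .nil))))))) (.g (nat_lit 7) .nil .nil))) 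
(.lf (nat_lit 143530) (.g (nat_lit 3188) (.e (nat_lit 57356) (nat_lit 0) (.e (nat_lit 7270) (nat_lit 385) (.e (nat_lit 122913) (nat_lit 13) (.e (nat_lit 344117) (nat_lit 21) (.e (nat_lit 516166) (nat_lit 12) (.e (nat_lit 450587) (nat_lit 10) (.e (nat_lit 573478) (nat_lit 12) .nil))))))) (.g (nat_lit 7) .nil .nil)))) (.nd (nat_lit 5) 
(.lf (nat_lit 143514) (.g (nat_lit 2289) (.e (nat_lit 57355) (nat_lit 0) (.e (nat_lit 1858) (nat_lit 124) (.e (nat_lit 557105) (nat_lit 14) (.e (nat_lit 180252) (nat_lit 10) (.e (nat_lit 573489) (nat_lit 14) .nil))))) .nil)) 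
(.lf (nat_lit 143546) (.g (nat_lit 3281) (.e (nat_lit 57356) (nat_lit 0) (.e (nat_lit 7273) (nat_lit 385) (.e (nat_lit 122913) (nat_lit 13) (.e (nat_lit 344117) (nat_lit 21) (.e (nat_lit 516165) (nat_lit 12) (.e (nat_lit 450586) (nat_lit 10) (.e (nat_lit 573475) (nat_lit 12) .nil))))))) (.g (nat_lit 7) .nil .nil)))))) (.nd (nat_lit 3) (.nd (nat_lit 4) (.nd (nat_lit 5) 
(.lf (nat_lit 143494) (.g (nat_lit 265) (.e (nat_lit 57354) (nat_lit 0) (.e (nat_lit 7147) (nat_lit 382) (.e (nat_lit 1206) (nat_lit 89) .nil))) .nil)) 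
(.lf (nat_lit 143526) (.g (nat_lit 2071) (.e (nat_lit 57356) (nat_lit 0) (.e (nat_lit 2346) (nat_lit 151) (.e (nat_lit 778362) (nat_lit 9) (.e (nat_lit 232) (nat_lit 21) (.e (nat_lit 336060) (nat_lit 7) (.e (nat_lit 319534) (nat_lit 16) (.e (nat_lit 286756) (nat_lit 10) (.e (nat_lit 344088) (nat_lit 18) (.e (nat_lit 5573) (nat_lit 308) .nil))))))))) (.g (nat_lit 4) .nil .nil)))) (.nd (nat_lit 5) 
(.lf (nat_lit 143510) (.g (nat_lit 2692) (.e (nat_lit 57355) (nat_lit 0) (.e (nat_lit 1858) (nat_lit 124) (.e (nat_lit 557105) (nat_lit 14) (.e (nat_lit 180252) (nat_lit 10) (.e (nat_lit 573480) (nat_lit 13) .nil))))) .nil)) 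
(.lf (nat_lit 143542) (.g (nat_lit 2709) (.e (nat_lit 57356) (nat_lit 0) (.e (nat_lit 7273) (nat_lit 385) (.e (nat_lit 122903) (nat_lit 12) (.e (nat_lit 336028) (nat_lit 3) (.e (nat_lit 98373) (nat_lit 29) (.e (nat_lit 450587) (nat_lit 10) (.e (nat_lit 573478) (nat_lit 12) .nil))))))) (.g (nat_lit 0) .nil .nil))))) (.nd (nat_lit 4) (.nd (nat_lit 5) 
(.lf (nat_lit 143502) (.g (nat_lit 2403) (.e (nat_lit 57354) (nat_lit 0) (.e (nat_lit 7270) (nat_lit 385) (.e (nat_lit 122919) (nat_lit 15) (.e (nat_lit 360492) (nat_lit 22) (.e (nat_lit 778362) (nat_lit 9) .nil))))) .nil)) 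
(.lf (nat_lit 143534) (.g (nat_lit 3553) (.e (nat_lit 57356) (nat_lit 0) (.e (nat_lit 7271) (nat_lit 385) (.e (nat_lit 122913) (nat_lit 13) (.e (nat_lit 344117) (nat_lit 21) (.e (nat_lit 516151) (nat_lit 9) (.e (nat_lit 426286) (nat_lit 10) (.e (nat_lit 434247) (nat_lit 28) (.e (nat_lit 573478) (nat_lit 12) .nil)))))))) (.g (nat_lit 8) .nil .nil)))) (.nd (nat_lit 5) 
(.lf (nat_lit 143518) (.g (nat_lit 1526) (.e (nat_lit 57355) (nat_lit 0) (.e (nat_lit 1858) (nat_lit 124) (.e (nat_lit 557109) (nat_lit 15) (.e (nat_lit 188458) (nat_lit 25) .nil)))) .nil)) 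
(.lf (nat_lit 143550) (.g (nat_lit 1996) (.e (nat_lit 57357) (nat_lit 0) (.e (nat_lit 1858) (nat_lit 124) (.e (nat_lit 557100) (nat_lit 13) (.e (nat_lit 172106) (nat_lit 10) (.e (nat_lit 434231) (nat_lit 23) .nil))))) .nil))))))) (.nd (nat_lit 1) (.nd (nat_lit 2) (.nd (nat_lit 3) (.nd (nat_lit 4) (.nd (nat_lit 5) 
(.lf (nat_lit 143489) (.g (nat_lit 2321) (.e (nat_lit 57354) (nat_lit 0) (.e (nat_lit 6114) (nat_lit 332) (.e (nat_lit 1370) (nat_lit 103) (.e (nat_lit 294960) (nat_lit 13) (.e (nat_lit 393283) (nat_lit 24) (.e (nat_lit 434207) (nat_lit 18) (.e (nat_lit 5945) (nat_lit 322) .nil))))))) (.g (nat_lit 4) .nil .nil))) 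
(.lf (nat_lit 143521) (.g (nat_lit 2318) (.e (nat_lit 57355) (nat_lit 0) (.e (nat_lit 1858) (nat_lit 124) (.e (nat_lit 557109) (nat_lit 15) (.e (nat_lit 188461) (nat_lit 26) (.e (nat_lit 253967) (nat_lit 9) .nil))))) .nil))) (.nd (nat_lit 5) 
(.lf (nat_lit 143505) (.g (nat_lit 1644) (.e (nat_lit 57355) (nat_lit 0) (.e (nat_lit 1858) (nat_lit 124) (.e (nat_lit 557100) (nat_lit 13) (.e (nat_lit 172106) (nat_lit 10) .nil)))) .nil)) 
(.lf (nat_lit 143537) (.g (nat_lit 3134) (.e (nat_lit 57356) (nat_lit 0) (.e (nat_lit 7271) (nat_lit 385) (.e (nat_lit 122913) (nat_lit 13) (.e (nat_lit 344117) (nat_lit 21) (.e (nat_lit 516165) (nat_lit 12) (.e (nat_lit 450586) (nat_lit 10) (.e (nat_lit 573478) (nat_lit 12) .nil))))))) (.g (nat_lit 7) .nil .nil))))) (.nd (nat_lit 4) (.nd (nat_lit 5) 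
(.lf (nat_lit 143497) (.g (nat_lit 4869) (.e (nat_lit 57354) (nat_lit 0) (.e (nat_lit 7270) (nat_lit 385) (.e (nat_lit 122913) (nat_lit 13) (.e (nat_lit 344117) (nat_lit 21) (.e (nat_lit 516165) (nat_lit 12) (.e (nat_lit 450586) (nat_lit 10) (.e (nat_lit 573473) (nat_lit 12) .nil))))))) (.g (nat_lit 7) .nil .nil))) 
(.lf (nat_lit 143529) (.g (nat_lit 3623) (.e (nat_lit 57356) (nat_lit 0) (.e (nat_lit 7270) (nat_lit 385) (.e (nat_lit 122913) (nat_lit 13) (.e (nat_lit 344117) (nat_lit 21) (.e (nat_lit 516151) (nat_lit 9) (.e (nat_lit 426286) (nat_lit 10) (.e (nat_lit 434247) (nat_lit 28) (.e (nat_lit 573478) (nat_lit 12) .nil)))))))) (.g (nat_lit 8) .nil .nil)))) (.nd (nat_lit 5) 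
(.lf (nat_lit 143513) (.g (nat_lit 2629) (.e (nat_lit 57355) (nat_lit 0) (.e (nat_lit 1858) (nat_lit 124) (.e (nat_lit 557105) (nat_lit 14) (.e (nat_lit 180252) (nat_lit 10) (.e (nat_lit 573487) (nat_lit 14) .nil))))) .nil)) 
(.lf (nat_lit 143545) (.g (nat_lit 3925) (.e (nat_lit 57356) (nat_lit 0) (.e (nat_lit 7273) (nat_lit 385) (.e (nat_lit 122913) (nat_lit 13) (.e (nat_lit 344117) (nat_lit 21) (.e (nat_lit 516151) (nat_lit 9) (.e (nat_lit 426286) (nat_lit 10) (.e (nat_lit 434248) (nat_lit 28) (.e (nat_lit 573475) (nat_lit 12) .nil)))))))) (.g (nat_lit 8) .nil .nil)))))) 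
(.nd (nat_lit 3) (.nd (nat_lit 4) (.nd (nat_lit 5) 
(.lf (nat_lit 143493) (.g (nat_lit 4006) (.e (nat_lit 57354) (nat_lit 0) (.e (nat_lit 6493) (nat_lit 343) (.e (nat_lit 1659) (nat_lit 115) (.e (nat_lit 393301) (nat_lit 27) (.e (nat_lit 491560) (nat_lit 10) (.e (nat_lit 344087) (nat_lit 18) (.e (nat_lit 7265) (nat_lit 384) .nil))))))) (.g (nat_lit 5) .nil .nil))) 
(.lf (nat_lit 143525) (.g (nat_lit 3225) (.e (nat_lit 57356) (nat_lit 0) (.e (nat_lit 1858) (nat_lit 124) (.e (nat_lit 557105) (nat_lit 14) (.e (nat_lit 180252) (nat_lit 10) (.e (nat_lit 573488) (nat_lit 14) .nil))))) .nil))) (.nd (nat_lit 5) 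
(.lf (nat_lit 143509) (.g (nat_lit 2296) (.e (nat_lit 57355) (nat_lit 0) (.e (nat_lit 1858) (nat_lit 124) (.e (nat_lit 557105) (nat_lit 14) (.e (nat_lit 180251) (nat_lit 10) (.e (nat_lit 573479) (nat_lit 13) .nil))))) .nil)) 
(.lf (nat_lit 143541) (.g (nat_lit 4105) (.e (nat_lit 57356) (nat_lit 0) (.e (nat_lit 7272) (nat_lit 385) (.e (nat_lit 122913) (nat_lit 13) (.e (nat_lit 344117) (nat_lit 21) (.e (nat_lit 516166) (nat_lit 12) (.e (nat_lit 450588) (nat_lit 10) (.e (nat_lit 573475) (nat_lit 12) .nil))))))) (.g (nat_lit 0) .nil .nil))))) (.nd (nat_lit 4) (.nd (nat_lit 5) 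
(.lf (nat_lit 143501) (.g (nat_lit 2393) (.e (nat_lit 57354) (nat_lit 0) (.e (nat_lit 7270) (nat_lit 385) (.e (nat_lit 122919) (nat_lit 15) (.e (nat_lit 360491) (nat_lit 22) (.e (nat_lit 778362) (nat_lit 9) .nil))))) .nil)) 
(.lf (nat_lit 143533) (.g (nat_lit 4442) (.e (nat_lit 57356) (nat_lit 0) (.e (nat_lit 7271) (nat_lit 385) (.e (nat_lit 122912) (nat_lit 13) (.e (nat_lit 344117) (nat_lit 21) (.e (nat_lit 516151) (nat_lit 9) (.e (nat_lit 426286) (nat_lit 10) (.e (nat_lit 434248) (nat_lit 28) (.e (nat_lit 573475) (nat_lit 12) .nil)))))))) (.g (nat_lit 8) .nil .nil)))) (.nd (nat_lit 5) 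
(.lf (nat_lit 143517) (.g (nat_lit 4412) (.e (nat_lit 57355) (nat_lit 0) (.e (nat_lit 1858) (nat_lit 124) (.e (nat_lit 557109) (nat_lit 15) (.e (nat_lit 188449) (nat_lit 22) (.e (nat_lit 196666) (nat_lit 13) .nil))))) .nil)) 
(.lf (nat_lit 143549) (.g (nat_lit 2536) (.e (nat_lit 57357) (nat_lit 0) (.e (nat_lit 1855) (nat_lit 124) (.e (nat_lit 557105) (nat_lit 14) (.e (nat_lit 180252) (nat_lit 10) (.e (nat_lit 573487) (nat_lit 14) .nil))))) .nil)))))) (.nd (nat_lit 2) (.nd (nat_lit 3) (.nd (nat_lit 4) (.nd (nat_lit 5) 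
(.lf (nat_lit 143491) (.g (nat_lit 3592) (.e (nat_lit 57354) (nat_lit 0) (.e (nat_lit 6489) (nat_lit 343) (.e (nat_lit 1659) (nat_lit 115) (.e (nat_lit 393301) (nat_lit 27) (.e (nat_lit 491560) (nat_lit 10) (.e (nat_lit 344094) (nat_lit 18) (.e (nat_lit 7263) (nat_lit 384) .nil))))))) (.g (nat_lit 5) .nil .nil))) 
(.lf (nat_lit 143523) (.g (nat_lit 1862) (.e (nat_lit 57356) (nat_lit 0) (.e (nat_lit 1858) (nat_lit 124) (.e (nat_lit 557105) (nat_lit 14) (.e (nat_lit 180251) (nat_lit 10) .nil)))) .nil))) (.nd (nat_lit 5) 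
(.lf (nat_lit 143507) (.g (nat_lit 2226) (.e (nat_lit 57355) (nat_lit 0) (.e (nat_lit 1858) (nat_lit 124) (.e (nat_lit 557101) (nat_lit 13) (.e (nat_lit 172115) (nat_lit 10) (.e (nat_lit 434231) (nat_lit 23) .nil))))) .nil)) 
(.lf (nat_lit 143539) (.g (nat_lit 3932) (.e (nat_lit 57356) (nat_lit 0) (.e (nat_lit 7271) (nat_lit 385) (.e (nat_lit 122913) (nat_lit 13) (.e (nat_lit 344117) (nat_lit 21) (.e (nat_lit 516166) (nat_lit 12) (.e (nat_lit 450588) (nat_lit 10) (.e (nat_lit 573475) (nat_lit 12) .nil))))))) (.g (nat_lit 7) .nil .nil))))) (.nd (nat_lit 4) (.nd (nat_lit 5) 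
(.lf (nat_lit 143499) (.g (nat_lit 2344) (.e (nat_lit 57354) (nat_lit 0) (.e (nat_lit 7270) (nat_lit 385) (.e (nat_lit 122913) (nat_lit 13) (.e (nat_lit 344130) (nat_lit 26) (.e (nat_lit 557097) (nat_lit 13) (.e (nat_lit 172133) (nat_lit 15) (.e (nat_lit 2233) (nat_lit 146) (.e (nat_lit 737290) (nat_lit 0) (.e (nat_lit 5394) (nat_lit 301) .nil))))))))) (.g (nat_lit 4) .nil .nil))) 
(.lf (nat_lit 143531) (.g (nat_lit 3998) (.e (nat_lit 57356) (nat_lit 0) (.e (nat_lit 7270) (nat_lit 385) (.e (nat_lit 122913) (nat_lit 13) (.e (nat_lit 344117) (nat_lit 21) (.e (nat_lit 516166) (nat_lit 12) (.e (nat_lit 450588) (nat_lit 10) (.e (nat_lit 573475) (nat_lit 12) .nil))))))) (.g (nat_lit 7) .nil .nil)))) (.nd (nat_lit 5) 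
(.lf (nat_lit 143515) (.g (nat_lit 4592) (.e (nat_lit 57355) (nat_lit 0) (.e (nat_lit 1858) (nat_lit 124) (.e (nat_lit 557105) (nat_lit 14) (.e (nat_lit 180252) (nat_lit 10) (.e (nat_lit 573489) (nat_lit 14) (.e (nat_lit 73755) (nat_lit 8) (.e (nat_lit 557090) (nat_lit 12) (.e (nat_lit 171776) (nat_lit 0) (.e (nat_lit 5199) (nat_lit 294) .nil))))))))) (.g (nat_lit 7) .nil .nil))) 
(.lf (nat_lit 143547) (.g (nat_lit 2716) (.e (nat_lit 57356) (nat_lit 0) (.e (nat_lit 7273) (nat_lit 385) (.e (nat_lit 122913) (nat_lit 13) (.e (nat_lit 344117) (nat_lit 21) (.e (nat_lit 516165) (nat_lit 12) (.e (nat_lit 450586) (nat_lit 10) (.e (nat_lit 573478) (nat_lit 12) .nil))))))) (.g (nat_lit 7) .nil .nil)))))) (.nd (nat_lit 3) (.nd (nat_lit 4) (.nd (nat_lit 5) 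
(.lf (nat_lit 143495) (.g (nat_lit 5260) (.e (nat_lit 57354) (nat_lit 0) (.e (nat_lit 7270) (nat_lit 385) (.e (nat_lit 122913) (nat_lit 13) (.e (nat_lit 344117) (nat_lit 21) (.e (nat_lit 516151) (nat_lit 9) (.e (nat_lit 426286) (nat_lit 10) (.e (nat_lit 434245) (nat_lit 28) (.e (nat_lit 573473) (nat_lit 12) .nil)))))))) (.g (nat_lit 8) .nil .nil))) 
(.lf (nat_lit 143527) (.g (nat_lit 2072) (.e (nat_lit 57356) (nat_lit 0) (.e (nat_lit 2346) (nat_lit 151) (.e (nat_lit 778362) (nat_lit 9) (.e (nat_lit 232) (nat_lit 21) (.e (nat_lit 336060) (nat_lit 7) (.e (nat_lit 319534) (nat_lit 16) (.e (nat_lit 286756) (nat_lit 10) (.e (nat_lit 344090) (nat_lit 18) (.e (nat_lit 5570) (nat_lit 308) .nil))))))))) (.g (nat_lit 4) .nil .nil)))) (.nd (nat_lit 5) 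
(.lf (nat_lit 143511) (.g (nat_lit 2603) (.e (nat_lit 57355) (nat_lit 0) (.e (nat_lit 1858) (nat_lit 124) (.e (nat_lit 557105) (nat_lit 14) (.e (nat_lit 180252) (nat_lit 10) (.e (nat_lit 573481) (nat_lit 13) .nil))))) .nil)) 
(.lf (nat_lit 143543) (.g (nat_lit 2543) (.e (nat_lit 57356) (nat_lit 0) (.e (nat_lit 7273) (nat_lit 385) (.e (nat_lit 122911) (nat_lit 13) (.e (nat_lit 344117) (nat_lit 21) (.e (nat_lit 516166) (nat_lit 12) (.e (nat_lit 450587) (nat_lit 10) (.e (nat_lit 573478) (nat_lit 12) .nil))))))) (.g (nat_lit 0) .nil .nil))))) (.nd (nat_lit 4) (.nd (nat_lit 5) 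
(.lf (nat_lit 143503) (.g (nat_lit 1989) (.e (nat_lit 57354) (nat_lit 0) (.e (nat_lit 7270) (nat_lit 385) (.e (nat_lit 122919) (nat_lit 15) (.e (nat_lit 368384) (nat_lit 25) .nil)))) .nil)) 
(.lf (nat_lit 143535) (.g (nat_lit 4332) (.e (nat_lit 57356) (nat_lit 0) (.e (nat_lit 7271) (nat_lit 385) (.e (nat_lit 122913) (nat_lit 13) (.e (nat_lit 344117) (nat_lit 21) (.e (nat_lit 516151) (nat_lit 9) (.e (nat_lit 426286) (nat_lit 10) (.e (nat_lit 434248) (nat_lit 28) (.e (nat_lit 573475) (nat_lit 12) .nil)))))))) (.g (nat_lit 8) .nil .nil)))) (.nd (nat_lit 5) 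
(.lf (nat_lit 143519) (.g (nat_lit 1551) (.e (nat_lit 57355) (nat_lit 0) (.e (nat_lit 1858) (nat_lit 124) (.e (nat_lit 557109) (nat_lit 15) (.e (nat_lit 188461) (nat_lit 26) .nil)))) .nil)) 
(.lf (nat_lit 143551) (.g (nat_lit 723) (.e (nat_lit 57357) (nat_lit 0) (.e (nat_lit 1858) (nat_lit 124) (.e (nat_lit 557105) (nat_lit 14) .nil))) .nil))))))))

noncomputable def tv1904 : DT := (.nd (nat_lit 0) (.nd (nat_lit 1) (.nd (nat_lit 2) (.nd (nat_lit 3) (.nd (nat_lit 4) (.nd (nat_lit 5) 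
(.lf (nat_lit 143552) (.g (nat_lit 2571) (.e (nat_lit 57357) (nat_lit 0) (.e (nat_lit 1858) (nat_lit 124) (.e (nat_lit 557105) (nat_lit 14) (.e (nat_lit 180251) (nat_lit 10) (.e (nat_lit 573479) (nat_lit 13) .nil))))) .nil)) 
(.lf (nat_lit 143584) (.g (nat_lit 2981) (.e (nat_lit 57358) (nat_lit 0) (.e (nat_lit 1858) (nat_lit 124) (.e (nat_lit 557105) (nat_lit 14) (.e (nat_lit 180252) (nat_lit 10) (.e (nat_lit 573482) (nat_lit 13) .nil))))) .nil))) (.nd (nat_lit 5) 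
(.lf (nat_lit 143568) (.g (nat_lit 2341) (.e (nat_lit 57357) (nat_lit 0) (.e (nat_lit 5195) (nat_lit 294) (.e (nat_lit 57379) (nat_lit 3) (.e (nat_lit 98341) (nat_lit 20) (.e (nat_lit 221215) (nat_lit 23) .nil))))) .nil)) 
(.lf (nat_lit 143600) (.g (nat_lit 2391) (.e (nat_lit 57361) (nat_lit 0) (.e (nat_lit 1855) (nat_lit 124) (.e (nat_lit 557107) (nat_lit 15) (.e (nat_lit 188447) (nat_lit 22) (.e (nat_lit 196666) (nat_lit 13) .nil))))) .nil)))) (.nd (nat_lit 4) (.nd (nat_lit 5) 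
(.lf (nat_lit 143560) (.g (nat_lit 1859) (.e (nat_lit 57357) (nat_lit 0) (.e (nat_lit 1858) (nat_lit 124) (.e (nat_lit 557109) (nat_lit 15) (.e (nat_lit 188461) (nat_lit 26) .nil)))) .nil)) 
(.lf (nat_lit 143592) (.g (nat_lit 1936) (.e (nat_lit 57361) (nat_lit 0) (.e (nat_lit 1800) (nat_lit 119) (.e (nat_lit 516129) (nat_lit 3) (.e (nat_lit 221210) (nat_lit 22) (.e (nat_lit 196668) (nat_lit 14) .nil))))) .nil))) (.nd (nat_lit 5) 
(.lf (nat_lit 143576) (.g (nat_lit 4034) (.e (nat_lit 57357) (nat_lit 0) (.e (nat_lit 5603) (nat_lit 310) (.e (nat_lit 163869) (nat_lit 2) (.e (nat_lit 196670) (nat_lit 14) (.e (nat_lit 73746) (nat_lit 3) (.e (nat_lit 516129) (nat_lit 3) (.e (nat_lit 221210) (nat_lit 22) (.e (nat_lit 196661) (nat_lit 12) .nil)))))))) (.g (nat_lit 8) .nil .nil))) 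
(.lf (nat_lit 143608) (.g (nat_lit 1515) (.e (nat_lit 57361) (nat_lit 0) (.e (nat_lit 5598) (nat_lit 310) (.e (nat_lit 163873) (nat_lit 3) (.e (nat_lit 204872) (nat_lit 30) (.e (nat_lit 368676) (nat_lit 21) .nil))))) .nil))))) (.nd (nat_lit 3) (.nd (nat_lit 4) (.nd (nat_lit 5) 
(.lf (nat_lit 143556) (.g (nat_lit 2902) (.e (nat_lit 57357) (nat_lit 0) (.e (nat_lit 1858) (nat_lit 124) (.e (nat_lit 557105) (nat_lit 14) (.e (nat_lit 180252) (nat_lit 10) (.e (nat_lit 573487) (nat_lit 14) .nil))))) .nil)) 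
(.lf (nat_lit 143588) (.g (nat_lit 967) (.e (nat_lit 57358) (nat_lit 0) (.e (nat_lit 6114) (nat_lit 332) (.e (nat_lit 1370) (nat_lit 103) .nil))) .nil))) (.nd (nat_lit 5) 
(.lf (nat_lit 143572) (.g (nat_lit 2238) (.e (nat_lit 57357) (nat_lit 0) (.e (nat_lit 5195) (nat_lit 294) (.e (nat_lit 57407) (nat_lit 12) (.e (nat_lit 336456) (nat_lit 34) (.e (nat_lit 483383) (nat_lit 23) .nil))))) .nil)) 
(.lf (nat_lit 143604) (.g (nat_lit 1388) (.e (nat_lit 57361) (nat_lit 0) (.e (nat_lit 1856) (nat_lit 124) (.e (nat_lit 557109) (nat_lit 15) (.e (nat_lit 188449) (nat_lit 22) .nil)))) .nil)))) (.nd (nat_lit 4) (.nd (nat_lit 5) 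
(.lf (nat_lit 143564) (.g (nat_lit 3083) (.e (nat_lit 57357) (nat_lit 0) (.e (nat_lit 5195) (nat_lit 294) (.e (nat_lit 57375) (nat_lit 2) (.e (nat_lit 90158) (nat_lit 11) (.e (nat_lit 24608) (nat_lit 3) (.e (nat_lit 98321) (nat_lit 17) (.e (nat_lit 3771) (nat_lit 229) (.e (nat_lit 794668) (nat_lit 22) (.e (nat_lit 196661) (nat_lit 12) .nil))))))))) (.g (nat_lit 5) .nil .nil))) 
(.lf (nat_lit 143596) (.g (nat_lit 1735) (.e (nat_lit 57361) (nat_lit 0) (.e (nat_lit 1800) (nat_lit 119) (.e (nat_lit 516194) (nat_lit 26) (.e (nat_lit 336078) (nat_lit 9) (.e (nat_lit 336454) (nat_lit 34) .nil))))) .nil))) (.nd (nat_lit 5) 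
(.lf (nat_lit 143580) (.g (nat_lit 2539) (.e (nat_lit 57358) (nat_lit 0) (.e (nat_lit 1858) (nat_lit 124) (.e (nat_lit 557105) (nat_lit 14) (.e (nat_lit 180251) (nat_lit 10) (.e (nat_lit 573485) (nat_lit 13) .nil))))) .nil)) 
(.lf (nat_lit 143612) (.g (nat_lit 1608) (.e (nat_lit 65280) (nat_lit 0) (.e (nat_lit 5228) (nat_lit 296) (.e (nat_lit 163903) (nat_lit 12) (.e (nat_lit 426479) (nat_lit 27) (.e (nat_lit 336434) (nat_lit 30) .nil))))) .nil)))))) (.nd (nat_lit 2) (.nd (nat_lit 3) (.nd (nat_lit 4) (.nd (nat_lit 5) 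
(.lf (nat_lit 143554) (.g (nat_lit 2876) (.e (nat_lit 57357) (nat_lit 0) (.e (nat_lit 1858) (nat_lit 124) (.e (nat_lit 557105) (nat_lit 14) (.e (nat_lit 180252) (nat_lit 10) (.e (nat_lit 573481) (nat_lit 13) .nil))))) .nil)) 
(.lf (nat_lit 143586) (.g (nat_lit 3218) (.e (nat_lit 57358) (nat_lit 0) (.e (nat_lit 1858) (nat_lit 124) (.e (nat_lit 557105) (nat_lit 14) (.e (nat_lit 180252) (nat_lit 10) (.e (nat_lit 573488) (nat_lit 14) .nil))))) .nil))) (.nd (nat_lit 5) 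
(.lf (nat_lit 143570) (.g (nat_lit 1022) (.e (nat_lit 57357) (nat_lit 0) (.e (nat_lit 5195) (nat_lit 294) (.e (nat_lit 57407) (nat_lit 12) (.e (nat_lit 336454) (nat_lit 34) .nil)))) .nil)) 
(.lf (nat_lit 143602) (.g (nat_lit 3361) (.e (nat_lit 57361) (nat_lit 0) (.e (nat_lit 1856) (nat_lit 124) (.e (nat_lit 557105) (nat_lit 14) (.e (nat_lit 180252) (nat_lit 10) (.e (nat_lit 573481) (nat_lit 13) (.e (nat_lit 65637) (nat_lit 15) (.e (nat_lit 3253) (nat_lit 197) (.e (nat_lit 532504) (nat_lit 1) (.e (nat_lit 57852) (nat_lit 252) .nil))))))))) (.g (nat_lit 4) .nil .nil))))) 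
(.nd (nat_lit 4) (.nd (nat_lit 5) 
(.lf (nat_lit 143562) (.g (nat_lit 1816) (.e (nat_lit 57357) (nat_lit 0) (.e (nat_lit 1859) (nat_lit 124) (.e (nat_lit 557109) (nat_lit 15) (.e (nat_lit 188458) (nat_lit 25) .nil)))) .nil)) 
(.lf (nat_lit 143594) (.g (nat_lit 1828) (.e (nat_lit 57361) (nat_lit 0) (.e (nat_lit 1800) (nat_lit 119) (.e (nat_lit 516131) (nat_lit 3) (.e (nat_lit 221212) (nat_lit 22) (.e (nat_lit 196668) (nat_lit 14) .nil))))) .nil))) (.nd (nat_lit 5) 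
(.lf (nat_lit 143578) (.g (nat_lit 1152) (.e (nat_lit 57357) (nat_lit 0) (.e (nat_lit 7270) (nat_lit 385) (.e (nat_lit 122913) (nat_lit 13) (.e (nat_lit 344091) (nat_lit 18) .nil)))) .nil)) 
(.lf (nat_lit 143610) (.g (nat_lit 2398) (.e (nat_lit 65280) (nat_lit 0) (.e (nat_lit 1858) (nat_lit 124) (.e (nat_lit 557105) (nat_lit 14) (.e (nat_lit 180252) (nat_lit 10) (.e (nat_lit 573487) (nat_lit 14) .nil))))) .nil))))) (.nd (nat_lit 3) (.nd (nat_lit 4) (.nd (nat_lit 5) 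
(.lf (nat_lit 143558) (.g (nat_lit 2562) (.e (nat_lit 57357) (nat_lit 0) (.e (nat_lit 1858) (nat_lit 124) (.e (nat_lit 557105) (nat_lit 14) (.e (nat_lit 180252) (nat_lit 10) (.e (nat_lit 573489) (nat_lit 14) .nil))))) .nil)) 
(.lf (nat_lit 143590) (.g (nat_lit 1440) (.e (nat_lit 57359) (nat_lit 0) (.e (nat_lit 1853) (nat_lit 124) (.e (nat_lit 557105) (nat_lit 14) (.e (nat_lit 180252) (nat_lit 10) .nil)))) .nil))) (.nd (nat_lit 5) 
(.lf (nat_lit 143574) (.g (nat_lit 2764) (.e (nat_lit 57357) (nat_lit 0) (.e (nat_lit 5195) (nat_lit 294) (.e (nat_lit 57445) (nat_lit 19) (.e (nat_lit 393229) (nat_lit 9) (.e (nat_lit 336085) (nat_lit 9) .nil))))) .nil)) 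
(.lf (nat_lit 143606) (.g (nat_lit 1836) (.e (nat_lit 57361) (nat_lit 0) (.e (nat_lit 2059) (nat_lit 142) (.e (nat_lit 704731) (nat_lit 11) (.e (nat_lit 16466) (nat_lit 13) (.e (nat_lit 483393) (nat_lit 23) .nil))))) .nil)))) (.nd (nat_lit 4) (.nd (nat_lit 5) 
(.lf (nat_lit 143566) (.g (nat_lit 1049) (.e (nat_lit 57357) (nat_lit 0) (.e (nat_lit 5195) (nat_lit 294) (.e (nat_lit 57377) (nat_lit 3) (.e (nat_lit 106240) (nat_lit 10) .nil)))) .nil)) 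
(.lf (nat_lit 143598) (.g (nat_lit 1350) (.e (nat_lit 57361) (nat_lit 0) (.e (nat_lit 1800) (nat_lit 119) (.e (nat_lit 516199) (nat_lit 26) (.e (nat_lit 336213) (nat_lit 13) .nil)))) .nil))) (.nd (nat_lit 5) 
(.lf (nat_lit 143582) (.g (nat_lit 3065) (.e (nat_lit 57358) (nat_lit 0) (.e (nat_lit 1858) (nat_lit 124) (.e (nat_lit 557105) (nat_lit 14) (.e (nat_lit 180252) (nat_lit 10) (.e (nat_lit 573480) (nat_lit 13) .nil))))) .nil)) 
(.lf (nat_lit 143614) (.g (nat_lit 2203) (.e (nat_lit 65280) (nat_lit 0) (.e (nat_lit 5587) (nat_lit 310) (.e (nat_lit 163873) (nat_lit 3) (.e (nat_lit 204863) (nat_lit 27) (.e (nat_lit 344132) (nat_lit 26) .nil))))) .nil))))))) (.nd (nat_lit 1) (.nd (nat_lit 2) (.nd (nat_lit 3) (.nd (nat_lit 4) (.nd (nat_lit 5) 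
(.lf (nat_lit 143553) (.g (nat_lit 1767) (.e (nat_lit 57357) (nat_lit 0) (.e (nat_lit 1858) (nat_lit 124) (.e (nat_lit 557105) (nat_lit 14) (.e (nat_lit 180252) (nat_lit 10) .nil)))) .nil)) 
(.lf (nat_lit 143585) (.g (nat_lit 3002) (.e (nat_lit 57358) (nat_lit 0) (.e (nat_lit 1858) (nat_lit 124) (.e (nat_lit 557105) (nat_lit 14) (.e (nat_lit 180252) (nat_lit 10) (.e (nat_lit 573487) (nat_lit 14) .nil))))) .nil))) (.nd (nat_lit 5) 
(.lf (nat_lit 143569) (.g (nat_lit 2261) (.e (nat_lit 57357) (nat_lit 0) (.e (nat_lit 5195) (nat_lit 294) (.e (nat_lit 57379) (nat_lit 3) (.e (nat_lit 98342) (nat_lit 20) (.e (nat_lit 221214) (nat_lit 23) .nil))))) .nil)) 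
(.lf (nat_lit 143601) (.g (nat_lit 1793) (.e (nat_lit 57361) (nat_lit 0) (.e (nat_lit 1856) (nat_lit 124) (.e (nat_lit 557100) (nat_lit 13) (.e (nat_lit 172106) (nat_lit 10) (.e (nat_lit 434231) (nat_lit 23) .nil))))) .nil)))) (.nd (nat_lit 4) (.nd (nat_lit 5) 
(.lf (nat_lit 143561) (.g (nat_lit 2206) (.e (nat_lit 57357) (nat_lit 0) (.e (nat_lit 1859) (nat_lit 124) (.e (nat_lit 557105) (nat_lit 14) (.e (nat_lit 180251) (nat_lit 10) (.e (nat_lit 573479) (nat_lit 13) .nil))))) .nil)) 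
(.lf (nat_lit 143593) (.g (nat_lit 1060) (.e (nat_lit 57361) (nat_lit 0) (.e (nat_lit 1800) (nat_lit 119) (.e (nat_lit 516131) (nat_lit 3) (.e (nat_lit 221212) (nat_lit 22) .nil)))) .nil))) (.nd (nat_lit 5) 
(.lf (nat_lit 143577) (.g (nat_lit 644) (.e (nat_lit 57357) (nat_lit 0) (.e (nat_lit 7270) (nat_lit 385) (.e (nat_lit 122908) (nat_lit 12) .nil))) .nil)) 
(.lf (nat_lit 143609) (.g (nat_lit 1933) (.e (nat_lit 65280) (nat_lit 0) (.e (nat_lit 1858) (nat_lit 124) (.e (nat_lit 557105) (nat_lit 14) (.e (nat_lit 180251) (nat_lit 10) (.e (nat_lit 573485) (nat_lit 13) .nil))))) .nil))))) (.nd (nat_lit 3) (.nd (nat_lit 4) (.nd (nat_lit 5) 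
(.lf (nat_lit 143557) (.g (nat_lit 3119) (.e (nat_lit 57357) (nat_lit 0) (.e (nat_lit 1858) (nat_lit 124) (.e (nat_lit 557105) (nat_lit 14) (.e (nat_lit 180252) (nat_lit 10) (.e (nat_lit 573488) (nat_lit 14) .nil))))) .nil)) 
(.lf (nat_lit 143589) (.g (nat_lit 1458) (.e (nat_lit 57359) (nat_lit 0) (.e (nat_lit 1796) (nat_lit 119) (.e (nat_lit 516131) (nat_lit 3) (.e (nat_lit 221212) (nat_lit 22) (.e (nat_lit 196681) (nat_lit 17) .nil))))) .nil))) (.nd (nat_lit 5) 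
(.lf (nat_lit 143573) (.g (nat_lit 1176) (.e (nat_lit 57357) (nat_lit 0) (.e (nat_lit 5195) (nat_lit 294) (.e (nat_lit 57445) (nat_lit 19) (.e (nat_lit 393225) (nat_lit 9) .nil)))) .nil)) 
(.lf (nat_lit 143605) (.g (nat_lit 1881) (.e (nat_lit 57361) (nat_lit 0) (.e (nat_lit 2059) (nat_lit 142) (.e (nat_lit 704731) (nat_lit 11) (.e (nat_lit 16436) (nat_lit 9) (.e (nat_lit 426555) (nat_lit 32) .nil))))) .nil)))) (.nd (nat_lit 4) (.nd (nat_lit 5) 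
(.lf (nat_lit 143565) (.g (nat_lit 3803) (.e (nat_lit 57357) (nat_lit 0) (.e (nat_lit 5195) (nat_lit 294) (.e (nat_lit 57377) (nat_lit 3) (.e (nat_lit 98317) (nat_lit 9) (.e (nat_lit 336026) (nat_lit 3) .nil))))) .nil)) 
(.lf (nat_lit 143597) (.g (nat_lit 1294) (.e (nat_lit 57361) (nat_lit 0) (.e (nat_lit 1800) (nat_lit 119) (.e (nat_lit 516199) (nat_lit 26) (.e (nat_lit 336078) (nat_lit 9) .nil)))) .nil))) (.nd (nat_lit 5) 
(.lf (nat_lit 143581) (.g (nat_lit 1867) (.e (nat_lit 57358) (nat_lit 0) (.e (nat_lit 1858) (nat_lit 124) (.e (nat_lit 557105) (nat_lit 14) (.e (nat_lit 180252) (nat_lit 10) .nil)))) .nil)) 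
(.lf (nat_lit 143613) (.g (nat_lit 2213) (.e (nat_lit 65280) (nat_lit 0) (.e (nat_lit 5587) (nat_lit 310) (.e (nat_lit 163868) (nat_lit 2) (.e (nat_lit 196670) (nat_lit 14) (.e (nat_lit 73754) (nat_lit 8) .nil))))) .nil)))))) (.nd (nat_lit 2) (.nd (nat_lit 3) (.nd (nat_lit 4) (.nd (nat_lit 5) 
(.lf (nat_lit 143555) (.g (nat_lit 2881) (.e (nat_lit 57357) (nat_lit 0) (.e (nat_lit 1858) (nat_lit 124) (.e (nat_lit 557105) (nat_lit 14) (.e (nat_lit 180252) (nat_lit 10) (.e (nat_lit 573482) (nat_lit 13) .nil))))) .nil)) 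
(.lf (nat_lit 143587) (.g (nat_lit 2662) (.e (nat_lit 57358) (nat_lit 0) (.e (nat_lit 1858) (nat_lit 124) (.e (nat_lit 557105) (nat_lit 14) (.e (nat_lit 180252) (nat_lit 10) (.e (nat_lit 573489) (nat_lit 14) .nil))))) .nil))) (.nd (nat_lit 5) 
(.lf (nat_lit 143571) (.g (nat_lit 1367) (.e (nat_lit 57357) (nat_lit 0) (.e (nat_lit 5195) (nat_lit 294) (.e (nat_lit 57407) (nat_lit 12) (.e (nat_lit 336456) (nat_lit 34) .nil)))) .nil)) 
(.lf (nat_lit 143603) (.g (nat_lit 3100) (.e (nat_lit 57361) (nat_lit 0) (.e (nat_lit 1856) (nat_lit 124) (.e (nat_lit 557105) (nat_lit 14) (.e (nat_lit 180252) (nat_lit 10) (.e (nat_lit 573482) (nat_lit 13) .nil))))) .nil)))) (.nd (nat_lit 4) (.nd (nat_lit 5) 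
(.lf (nat_lit 143563) (.g (nat_lit 1756) (.e (nat_lit 57357) (nat_lit 0) (.e (nat_lit 5195) (nat_lit 294) (.e (nat_lit 57372) (nat_lit 2) (.e (nat_lit 90128) (nat_lit 9) (.e (nat_lit 297) (nat_lit 22) .nil))))) .nil)) 
(.lf (nat_lit 143595) (.g (nat_lit 1876) (.e (nat_lit 57361) (nat_lit 0) (.e (nat_lit 1800) (nat_lit 119) (.e (nat_lit 516131) (nat_lit 3) (.e (nat_lit 221215) (nat_lit 23) (.e (nat_lit 204852) (nat_lit 26) .nil))))) .nil))) (.nd (nat_lit 5) 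
(.lf (nat_lit 143579) (.g (nat_lit 3348) (.e (nat_lit 57357) (nat_lit 0) (.e (nat_lit 7270) (nat_lit 385) (.e (nat_lit 122920) (nat_lit 16) (.e (nat_lit 368676) (nat_lit 21) (.e (nat_lit 516176) (nat_lit 14) (.e (nat_lit 466967) (nat_lit 20) (.e (nat_lit 3305) (nat_lit 202) (.e (nat_lit 573477) (nat_lit 12) .nil)))))))) (.g (nat_lit 5) .nil .nil))) 
(.lf (nat_lit 143611) (.g (nat_lit 2037) (.e (nat_lit 65280) (nat_lit 0) (.e (nat_lit 5224) (nat_lit 296) (.e (nat_lit 163903) (nat_lit 12) (.e (nat_lit 426479) (nat_lit 27) (.e (nat_lit 336434) (nat_lit 30) .nil))))) .nil))))) (.nd (nat_lit 3) (.nd (nat_lit 4) (.nd (nat_lit 5) 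
(.lf (nat_lit 143559) (.g (nat_lit 1960) (.e (nat_lit 57357) (nat_lit 0) (.e (nat_lit 1858) (nat_lit 124) (.e (nat_lit 557109) (nat_lit 15) (.e (nat_lit 188449) (nat_lit 22) .nil)))) .nil)) 
(.lf (nat_lit 143591) (.g (nat_lit 1225) (.e (nat_lit 57360) (nat_lit 0) (.e (nat_lit 5949) (nat_lit 322) (.e (nat_lit 57373) (nat_lit 2) (.e (nat_lit 98048) (nat_lit 5) .nil)))) .nil))) (.nd (nat_lit 5) 
(.lf (nat_lit 143575) (.g (nat_lit 1779) (.e (nat_lit 57357) (nat_lit 0) (.e (nat_lit 5195) (nat_lit 294) (.e (nat_lit 57448) (nat_lit 19) (.e (nat_lit 393229) (nat_lit 9) (.e (nat_lit 336076) (nat_lit 9) .nil))))) .nil)) 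
(.lf (nat_lit 143607) (.g (nat_lit 1001) (.e (nat_lit 57361) (nat_lit 0) (.e (nat_lit 5597) (nat_lit 310) (.e (nat_lit 163843) (nat_lit 0) (.e (nat_lit 3114) (nat_lit 193) .nil)))) .nil)))) (.nd (nat_lit 4) (.nd (nat_lit 5) 
(.lf (nat_lit 143567) (.g (nat_lit 2402) (.e (nat_lit 57357) (nat_lit 0) (.e (nat_lit 5195) (nat_lit 294) (.e (nat_lit 57379) (nat_lit 3) (.e (nat_lit 98341) (nat_lit 20) (.e (nat_lit 221214) (nat_lit 23) .nil))))) .nil)) 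
(.lf (nat_lit 143599) (.g (nat_lit 2578) (.e (nat_lit 57361) (nat_lit 0) (.e (nat_lit 1855) (nat_lit 124) (.e (nat_lit 557105) (nat_lit 14) (.e (nat_lit 180252) (nat_lit 10) (.e (nat_lit 573481) (nat_lit 13) .nil))))) .nil))) (.nd (nat_lit 5) 
(.lf (nat_lit 143583) (.g (nat_lit 2976) (.e (nat_lit 57358) (nat_lit 0) (.e (nat_lit 1858) (nat_lit 124) (.e (nat_lit 557105) (nat_lit 14) (.e (nat_lit 180252) (nat_lit 10) (.e (nat_lit 573481) (nat_lit 13) .nil))))) .nil)) 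
(.lf (nat_lit 143615) (.g (nat_lit 3765) (.e (nat_lit 57363) (nat_lit 1) (.e (nat_lit 57755) (nat_lit 209) (.e (nat_lit 1220) (nat_lit 90) (.e (nat_lit 81953) (nat_lit 22) (.e (nat_lit 90160) (nat_lit 11) .nil))))) .nil))))))))

noncomputable def tv1905 : DT := (.nd (nat_lit 0) (.nd (nat_lit 1) (.nd (nat_lit 2) (.nd (nat_lit 3) (.nd (nat_lit 4) (.nd (nat_lit 5) (.nd (nat_lit 6) 
(.lf (nat_lit 143616) (.g (nat_lit 1661) (.e (nat_lit 57363) (nat_lit 1) (.e (nat_lit 57847) (nat_lit 252) (.e (nat_lit 57377) (nat_lit 3) (.e (nat_lit 98313) (nat_lit 9) (.e (nat_lit 336223) (nat_lit 13) .nil))))) .nil)) 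
(.lf (nat_lit 143680) (.g (nat_lit 1909) (.e (nat_lit 57363) (nat_lit 1) (.e (nat_lit 57849) (nat_lit 252) (.e (nat_lit 57414) (nat_lit 12) (.e (nat_lit 336060) (nat_lit 7) (.e (nat_lit 319534) (nat_lit 16) .nil))))) .nil))) (.nd (nat_lit 6) 
(.lf (nat_lit 143648) (.g (nat_lit 3078) (.e (nat_lit 57363) (nat_lit 1) (.e (nat_lit 57847) (nat_lit 252) (.e (nat_lit 57413) (nat_lit 12) (.e (nat_lit 336056) (nat_lit 7) (.e (nat_lit 319533) (nat_lit 16) (.e (nat_lit 286753) (nat_lit 10) (.e (nat_lit 344097) (nat_lit 18) (.e (nat_lit 5195) (nat_lit 294) .nil)))))))) (.g (nat_lit 6) .nil .nil))) 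
(.lf (nat_lit 143712) (.g (nat_lit 873) (.e (nat_lit 57364) (nat_lit 1) (.e (nat_lit 57852) (nat_lit 252) (.e (nat_lit 57427) (nat_lit 15) .nil))) .nil)))) (.nd (nat_lit 5) (.nd (nat_lit 6) 
(.lf (nat_lit 143632) (.g (nat_lit 3183) (.e (nat_lit 57363) (nat_lit 1) (.e (nat_lit 57847) (nat_lit 252) (.e (nat_lit 57407) (nat_lit 12) (.e (nat_lit 336450) (nat_lit 33) (.e (nat_lit 475212) (nat_lit 42) .nil))))) .nil)) 
(.lf (nat_lit 143696) (.g (nat_lit 3130) (.e (nat_lit 57364) (nat_lit 1) (.e (nat_lit 57852) (nat_lit 252) (.e (nat_lit 57406) (nat_lit 12) (.e (nat_lit 336310) (nat_lit 16) (.e (nat_lit 164179) (nat_lit 154) (.e (nat_lit 57437) (nat_lit 17) (.e (nat_lit 376860) (nat_lit 21) (.e (nat_lit 57854) (nat_lit 252) .nil)))))))) (.g (nat_lit 5) .nil .nil)))) (.nd (nat_lit 6) 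
(.lf (nat_lit 143664) (.g (nat_lit 1251) (.e (nat_lit 57363) (nat_lit 1) (.e (nat_lit 57847) (nat_lit 252) (.e (nat_lit 57448) (nat_lit 19) (.e (nat_lit 393234) (nat_lit 17) .nil)))) .nil)) 
(.lf (nat_lit 143728) (.g (nat_lit 1513) (.e (nat_lit 57364) (nat_lit 1) (.e (nat_lit 57854) (nat_lit 252) (.e (nat_lit 57406) (nat_lit 12) (.e (nat_lit 336446) (nat_lit 33) .nil)))) .nil))))) (.nd (nat_lit 4) (.nd (nat_lit 5) (.nd (nat_lit 6) 
(.lf (nat_lit 143624) (.g (nat_lit 2588) (.e (nat_lit 57363) (nat_lit 1) (.e (nat_lit 57847) (nat_lit 252) (.e (nat_lit 57407) (nat_lit 12) (.e (nat_lit 336310) (nat_lit 16) (.e (nat_lit 164179) (nat_lit 154) (.e (nat_lit 57437) (nat_lit 17) (.e (nat_lit 376860) (nat_lit 21) (.e (nat_lit 57854) (nat_lit 252) .nil)))))))) (.g (nat_lit 4) .nil .nil))) 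
(.lf (nat_lit 143688) (.g (nat_lit 2596) (.e (nat_lit 57364) (nat_lit 1) (.e (nat_lit 57851) (nat_lit 252) (.e (nat_lit 57406) (nat_lit 12) (.e (nat_lit 336326) (nat_lit 18) (.e (nat_lit 204868) (nat_lit 29) (.e (nat_lit 360456) (nat_lit 0) (.e (nat_lit 7936) (nat_lit 412) .nil))))))) (.g (nat_lit 6) .nil .nil)))) (.nd (nat_lit 6) 
(.lf (nat_lit 143656) (.g (nat_lit 432) (.e (nat_lit 57363) (nat_lit 1) (.e (nat_lit 57847) (nat_lit 252) (.e (nat_lit 57437) (nat_lit 17) .nil))) .nil)) 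
(.lf (nat_lit 143720) (.g (nat_lit 1926) (.e (nat_lit 57364) (nat_lit 1) (.e (nat_lit 57854) (nat_lit 252) (.e (nat_lit 57378) (nat_lit 3) (.e (nat_lit 98341) (nat_lit 20) (.e (nat_lit 229120) (nat_lit 18) (.e (nat_lit 393254) (nat_lit 18) (.e (nat_lit 164179) (nat_lit 154) .nil))))))) (.g (nat_lit 4) .nil .nil))))) (.nd (nat_lit 5) (.nd (nat_lit 6) 
(.lf (nat_lit 143640) (.g (nat_lit 2328) (.e (nat_lit 57363) (nat_lit 1) (.e (nat_lit 57847) (nat_lit 252) (.e (nat_lit 57412) (nat_lit 12) (.e (nat_lit 336054) (nat_lit 7) (.e (nat_lit 319533) (nat_lit 16) (.e (nat_lit 286753) (nat_lit 10) (.e (nat_lit 344097) (nat_lit 18) (.e (nat_lit 5195) (nat_lit 294) .nil)))))))) (.g (nat_lit 5) .nil .nil))) 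
(.lf (nat_lit 143704) (.g (nat_lit 2263) (.e (nat_lit 57364) (nat_lit 1) (.e (nat_lit 57852) (nat_lit 252) (.e (nat_lit 57406) (nat_lit 12) (.e (nat_lit 336446) (nat_lit 33) (.e (nat_lit 475214) (nat_lit 42) (.e (nat_lit 720956) (nat_lit 25) (.e (nat_lit 114712) (nat_lit 21) (.e (nat_lit 57851) (nat_lit 252) .nil)))))))) (.g (nat_lit 4) .nil .nil)))) (.nd (nat_lit 6) 
(.lf (nat_lit 143672) (.g (nat_lit 2461) (.e (nat_lit 57363) (nat_lit 1) (.e (nat_lit 57849) (nat_lit 252) (.e (nat_lit 57407) (nat_lit 12) (.e (nat_lit 336445) (nat_lit 33) .nil)))) .nil)) 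
(.lf (nat_lit 143736) (.g (nat_lit 2045) (.e (nat_lit 57364) (nat_lit 1) (.e (nat_lit 57854) (nat_lit 252) (.e (nat_lit 57409) (nat_lit 12) (.e (nat_lit 336446) (nat_lit 33) (.e (nat_lit 475212) (nat_lit 42) .nil))))) .nil)))))) (.nd (nat_lit 3) (.nd (nat_lit 4) (.nd (nat_lit 5) (.nd (nat_lit 6) 
(.lf (nat_lit 143620) (.g (nat_lit 3254) (.e (nat_lit 57363) (nat_lit 1) (.e (nat_lit 57847) (nat_lit 252) (.e (nat_lit 57404) (nat_lit 12) (.e (nat_lit 336056) (nat_lit 7) (.e (nat_lit 319534) (nat_lit 16) (.e (nat_lit 286756) (nat_lit 10) (.e (nat_lit 344097) (nat_lit 18) (.e (nat_lit 5195) (nat_lit 294) .nil)))))))) (.g (nat_lit 6) .nil .nil))) 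
(.lf (nat_lit 143684) (.g (nat_lit 2573) (.e (nat_lit 57363) (nat_lit 1) (.e (nat_lit 57854) (nat_lit 252) (.e (nat_lit 57404) (nat_lit 12) (.e (nat_lit 336060) (nat_lit 7) (.e (nat_lit 319534) (nat_lit 16) (.e (nat_lit 286756) (nat_lit 10) (.e (nat_lit 344097) (nat_lit 18) (.e (nat_lit 5195) (nat_lit 294) .nil)))))))) (.g (nat_lit 5) .nil .nil)))) (.nd (nat_lit 6) 
(.lf (nat_lit 143652) (.g (nat_lit 3777) (.e (nat_lit 57363) (nat_lit 1) (.e (nat_lit 57847) (nat_lit 252) (.e (nat_lit 57414) (nat_lit 12) (.e (nat_lit 336060) (nat_lit 7) (.e (nat_lit 319534) (nat_lit 16) (.e (nat_lit 286756) (nat_lit 10) (.e (nat_lit 344097) (nat_lit 18) (.e (nat_lit 5195) (nat_lit 294) .nil)))))))) (.g (nat_lit 8) .nil .nil))) 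
(.lf (nat_lit 143716) (.g (nat_lit 740) (.e (nat_lit 57364) (nat_lit 1) (.e (nat_lit 57852) (nat_lit 252) (.e (nat_lit 57445) (nat_lit 19) .nil))) .nil)))) (.nd (nat_lit 5) (.nd (nat_lit 6) 
(.lf (nat_lit 143636) (.g (nat_lit 2229) (.e (nat_lit 57363) (nat_lit 1) (.e (nat_lit 57847) (nat_lit 252) (.e (nat_lit 57411) (nat_lit 12) (.e (nat_lit 336240) (nat_lit 15) (.e (nat_lit 3453) (nat_lit 216) .nil))))) .nil)) 
(.lf (nat_lit 143700) (.g (nat_lit 2721) (.e (nat_lit 57364) (nat_lit 1) (.e (nat_lit 57852) (nat_lit 252) (.e (nat_lit 57406) (nat_lit 12) (.e (nat_lit 336326) (nat_lit 18) (.e (nat_lit 204868) (nat_lit 29) .nil))))) .nil))) (.nd (nat_lit 6) 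
(.lf (nat_lit 143668) (.g (nat_lit 1467) (.e (nat_lit 57363) (nat_lit 1) (.e (nat_lit 57849) (nat_lit 252) (.e (nat_lit 57390) (nat_lit 5) (.e (nat_lit 114722) (nat_lit 24) .nil)))) .nil)) 
(.lf (nat_lit 143732) (.g (nat_lit 2120) (.e (nat_lit 57364) (nat_lit 1) (.e (nat_lit 57854) (nat_lit 252) (.e (nat_lit 57409) (nat_lit 12) (.e (nat_lit 336314) (nat_lit 16) .nil)))) .nil))))) (.nd (nat_lit 4) (.nd (nat_lit 5) (.nd (nat_lit 6) 
(.lf (nat_lit 143628) (.g (nat_lit 1879) (.e (nat_lit 57363) (nat_lit 1) (.e (nat_lit 57847) (nat_lit 252) (.e (nat_lit 57407) (nat_lit 12) (.e (nat_lit 336446) (nat_lit 33) (.e (nat_lit 475214) (nat_lit 42) (.e (nat_lit 720956) (nat_lit 25) (.e (nat_lit 114712) (nat_lit 21) (.e (nat_lit 57852) (nat_lit 252) .nil)))))))) (.g (nat_lit 4) .nil .nil))) 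
(.lf (nat_lit 143692) (.g (nat_lit 2375) (.e (nat_lit 57364) (nat_lit 1) (.e (nat_lit 57851) (nat_lit 252) (.e (nat_lit 57412) (nat_lit 12) (.e (nat_lit 336061) (nat_lit 7) (.e (nat_lit 319531) (nat_lit 16) (.e (nat_lit 286747) (nat_lit 9) (.e (nat_lit 335997) (nat_lit 1) (.e (nat_lit 57844) (nat_lit 252) .nil)))))))) (.g (nat_lit 5) .nil .nil)))) (.nd (nat_lit 6) 
(.lf (nat_lit 143660) (.g (nat_lit 1879) (.e (nat_lit 57363) (nat_lit 1) (.e (nat_lit 57847) (nat_lit 252) (.e (nat_lit 57445) (nat_lit 19) (.e (nat_lit 393222) (nat_lit 0) .nil)))) .nil)) 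
(.lf (nat_lit 143724) (.g (nat_lit 2209) (.e (nat_lit 57364) (nat_lit 1) (.e (nat_lit 57854) (nat_lit 252) (.e (nat_lit 57406) (nat_lit 12) (.e (nat_lit 336326) (nat_lit 18) (.e (nat_lit 204868) (nat_lit 29) (.e (nat_lit 360456) (nat_lit 0) (.e (nat_lit 7936) (nat_lit 412) .nil))))))) (.g (nat_lit 4) .nil .nil))))) (.nd (nat_lit 5) (.nd (nat_lit 6) 
(.lf (nat_lit 143644) (.g (nat_lit 3954) (.e (nat_lit 57363) (nat_lit 1) (.e (nat_lit 57847) (nat_lit 252) (.e (nat_lit 57412) (nat_lit 12) (.e (nat_lit 336060) (nat_lit 7) (.e (nat_lit 319534) (nat_lit 16) (.e (nat_lit 286756) (nat_lit 10) (.e (nat_lit 344097) (nat_lit 18) (.e (nat_lit 5195) (nat_lit 294) .nil)))))))) (.g (nat_lit 8) .nil .nil))) 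
(.lf (nat_lit 143708) (.g (nat_lit 2008) (.e (nat_lit 57364) (nat_lit 1) (.e (nat_lit 57852) (nat_lit 252) (.e (nat_lit 57413) (nat_lit 12) (.e (nat_lit 336060) (nat_lit 7) (.e (nat_lit 319534) (nat_lit 16) (.e (nat_lit 286749) (nat_lit 9) (.e (nat_lit 335997) (nat_lit 1) (.e (nat_lit 57844) (nat_lit 252) .nil)))))))) (.g (nat_lit 4) .nil .nil)))) (.nd (nat_lit 6) 
(.lf (nat_lit 143676) (.g (nat_lit 1168) (.e (nat_lit 57363) (nat_lit 1) (.e (nat_lit 57849) (nat_lit 252) (.e (nat_lit 57412) (nat_lit 12) .nil))) .nil)) 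
(.lf (nat_lit 143740) (.g (nat_lit 965) (.e (nat_lit 57364) (nat_lit 1) (.e (nat_lit 57854) (nat_lit 252) (.e (nat_lit 57427) (nat_lit 15) .nil))) .nil))))))) (.nd (nat_lit 2) (.nd (nat_lit 3) (.nd (nat_lit 4) (.nd (nat_lit 5) (.nd (nat_lit 6) 
(.lf (nat_lit 143618) (.g (nat_lit 2299) (.e (nat_lit 57363) (nat_lit 1) (.e (nat_lit 57847) (nat_lit 252) (.e (nat_lit 57404) (nat_lit 12) (.e (nat_lit 336054) (nat_lit 7) (.e (nat_lit 319533) (nat_lit 16) (.e (nat_lit 286753) (nat_lit 10) (.e (nat_lit 344097) (nat_lit 18) (.e (nat_lit 5195) (nat_lit 294) .nil)))))))) (.g (nat_lit 6) .nil .nil))) 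
(.lf (nat_lit 143682) (.g (nat_lit 816) (.e (nat_lit 57363) (nat_lit 1) (.e (nat_lit 57849) (nat_lit 252) (.e (nat_lit 57448) (nat_lit 19) .nil))) .nil))) (.nd (nat_lit 6) 
(.lf (nat_lit 143650) (.g (nat_lit 2627) (.e (nat_lit 57363) (nat_lit 1) (.e (nat_lit 57847) (nat_lit 252) (.e (nat_lit 57414) (nat_lit 12) (.e (nat_lit 336054) (nat_lit 7) (.e (nat_lit 319533) (nat_lit 16) (.e (nat_lit 286753) (nat_lit 10) (.e (nat_lit 344097) (nat_lit 18) (.e (nat_lit 5195) (nat_lit 294) .nil)))))))) (.g (nat_lit 7) .nil .nil))) 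
(.lf (nat_lit 143714) (.g (nat_lit 1860) (.e (nat_lit 57364) (nat_lit 1) (.e (nat_lit 57852) (nat_lit 252) (.e (nat_lit 57427) (nat_lit 15) (.e (nat_lit 360483) (nat_lit 15) (.e (nat_lit 647179) (nat_lit 2) .nil))))) .nil)))) (.nd (nat_lit 5) (.nd (nat_lit 6) 
(.lf (nat_lit 143634) (.g (nat_lit 1939) (.e (nat_lit 57363) (nat_lit 1) (.e (nat_lit 57847) (nat_lit 252) (.e (nat_lit 57411) (nat_lit 12) (.e (nat_lit 335878) (nat_lit 0) (.e (nat_lit 1912) (nat_lit 129) .nil))))) .nil)) 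
(.lf (nat_lit 143698) (.g (nat_lit 3070) (.e (nat_lit 57364) (nat_lit 1) (.e (nat_lit 57852) (nat_lit 252) (.e (nat_lit 57406) (nat_lit 12) (.e (nat_lit 336324) (nat_lit 18) (.e (nat_lit 204868) (nat_lit 29) .nil))))) .nil))) (.nd (nat_lit 6) 
(.lf (nat_lit 143666) (.g (nat_lit 2403) (.e (nat_lit 57363) (nat_lit 1) (.e (nat_lit 57847) (nat_lit 252) (.e (nat_lit 57448) (nat_lit 19) (.e (nat_lit 393234) (nat_lit 17) (.e (nat_lit 2405) (nat_lit 157) .nil))))) .nil)) 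
(.lf (nat_lit 143730) (.g (nat_lit 603) (.e (nat_lit 57364) (nat_lit 1) (.e (nat_lit 57854) (nat_lit 252) (.e (nat_lit 57409) (nat_lit 12) .nil))) .nil))))) (.nd (nat_lit 4) (.nd (nat_lit 5) (.nd (nat_lit 6) 
(.lf (nat_lit 143626) (.g (nat_lit 1541) (.e (nat_lit 57363) (nat_lit 1) (.e (nat_lit 57847) (nat_lit 252) (.e (nat_lit 57407) (nat_lit 12) (.e (nat_lit 336446) (nat_lit 33) .nil)))) .nil)) 
(.lf (nat_lit 143690) (.g (nat_lit 3450) (.e (nat_lit 57364) (nat_lit 1) (.e (nat_lit 57851) (nat_lit 252) (.e (nat_lit 57406) (nat_lit 12) (.e (nat_lit 336326) (nat_lit 18) (.e (nat_lit 204869) (nat_lit 29) (.e (nat_lit 360456) (nat_lit 0) (.e (nat_lit 7936) (nat_lit 412) .nil))))))) (.g (nat_lit 6) .nil .nil)))) (.nd (nat_lit 6) 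
(.lf (nat_lit 143658) (.g (nat_lit 2007) (.e (nat_lit 57363) (nat_lit 1) (.e (nat_lit 57847) (nat_lit 252) (.e (nat_lit 57437) (nat_lit 17) (.e (nat_lit 376860) (nat_lit 21) (.e (nat_lit 57930) (nat_lit 282) .nil))))) .nil)) 
(.lf (nat_lit 143722) (.g (nat_lit 1329) (.e (nat_lit 57364) (nat_lit 1) (.e (nat_lit 57854) (nat_lit 252) (.e (nat_lit 57389) (nat_lit 5) (.e (nat_lit 114723) (nat_lit 24) (.e (nat_lit 106536) (nat_lit 11) .nil))))) .nil)))) (.nd (nat_lit 5) (.nd (nat_lit 6) 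
(.lf (nat_lit 143642) (.g (nat_lit 3743) (.e (nat_lit 57363) (nat_lit 1) (.e (nat_lit 57847) (nat_lit 252) (.e (nat_lit 57412) (nat_lit 12) (.e (nat_lit 336058) (nat_lit 7) (.e (nat_lit 319534) (nat_lit 16) (.e (nat_lit 286756) (nat_lit 10) (.e (nat_lit 344097) (nat_lit 18) (.e (nat_lit 5195) (nat_lit 294) .nil)))))))) (.g (nat_lit 6) .nil .nil))) 
(.lf (nat_lit 143706) (.g (nat_lit 2580) (.e (nat_lit 57364) (nat_lit 1) (.e (nat_lit 57852) (nat_lit 252) (.e (nat_lit 57406) (nat_lit 12) (.e (nat_lit 336450) (nat_lit 33) (.e (nat_lit 475212) (nat_lit 42) .nil))))) .nil))) (.nd (nat_lit 6) 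
(.lf (nat_lit 143674) (.g (nat_lit 2705) (.e (nat_lit 57363) (nat_lit 1) (.e (nat_lit 57849) (nat_lit 252) (.e (nat_lit 57407) (nat_lit 12) (.e (nat_lit 336446) (nat_lit 33) (.e (nat_lit 475214) (nat_lit 42) (.e (nat_lit 720956) (nat_lit 25) (.e (nat_lit 114711) (nat_lit 21) (.e (nat_lit 57847) (nat_lit 252) .nil)))))))) (.g (nat_lit 4) .nil .nil))) 
(.lf (nat_lit 143738) (.g (nat_lit 1927) (.e (nat_lit 57364) (nat_lit 1) (.e (nat_lit 57854) (nat_lit 252) (.e (nat_lit 57409) (nat_lit 12) (.e (nat_lit 336450) (nat_lit 33) .nil)))) .nil)))))) (.nd (nat_lit 3) (.nd (nat_lit 4) (.nd (nat_lit 5) (.nd (nat_lit 6) 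
(.lf (nat_lit 143622) (.g (nat_lit 2489) (.e (nat_lit 57363) (nat_lit 1) (.e (nat_lit 57847) (nat_lit 252) (.e (nat_lit 57407) (nat_lit 12) (.e (nat_lit 336240) (nat_lit 15) .nil)))) .nil)) 
(.lf (nat_lit 143686) (.g (nat_lit 3274) (.e (nat_lit 57364) (nat_lit 1) (.e (nat_lit 57830) (nat_lit 250) (.e (nat_lit 1201) (nat_lit 88) (.e (nat_lit 65585) (nat_lit 7) (.e (nat_lit 319534) (nat_lit 16) (.e (nat_lit 286749) (nat_lit 9) (.e (nat_lit 335997) (nat_lit 1) (.e (nat_lit 57844) (nat_lit 252) .nil)))))))) (.g (nat_lit 6) .nil .nil)))) (.nd (nat_lit 6) 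
(.lf (nat_lit 143654) (.g (nat_lit 1631) (.e (nat_lit 57363) (nat_lit 1) (.e (nat_lit 57847) (nat_lit 252) (.e (nat_lit 57427) (nat_lit 15) (.e (nat_lit 360478) (nat_lit 12) .nil)))) .nil)) 
(.lf (nat_lit 143718) (.g (nat_lit 2870) (.e (nat_lit 57364) (nat_lit 1) (.e (nat_lit 57854) (nat_lit 252) (.e (nat_lit 57373) (nat_lit 2) (.e (nat_lit 98048) (nat_lit 6) .nil)))) .nil)))) (.nd (nat_lit 5) (.nd (nat_lit 6) 
(.lf (nat_lit 143638) (.g (nat_lit 1961) (.e (nat_lit 57363) (nat_lit 1) (.e (nat_lit 57847) (nat_lit 252) (.e (nat_lit 57411) (nat_lit 12) (.e (nat_lit 336446) (nat_lit 33) (.e (nat_lit 475213) (nat_lit 42) .nil))))) .nil)) 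
(.lf (nat_lit 143702) (.g (nat_lit 1723) (.e (nat_lit 57364) (nat_lit 1) (.e (nat_lit 57852) (nat_lit 252) (.e (nat_lit 57406) (nat_lit 12) (.e (nat_lit 336446) (nat_lit 33) .nil)))) .nil))) (.nd (nat_lit 6) 
(.lf (nat_lit 143670) (.g (nat_lit 2461) (.e (nat_lit 57363) (nat_lit 1) (.e (nat_lit 57849) (nat_lit 252) (.e (nat_lit 57407) (nat_lit 12) (.e (nat_lit 336310) (nat_lit 16) .nil)))) .nil)) 
(.lf (nat_lit 143734) (.g (nat_lit 1565) (.e (nat_lit 57364) (nat_lit 1) (.e (nat_lit 57854) (nat_lit 252) (.e (nat_lit 57409) (nat_lit 12) (.e (nat_lit 336326) (nat_lit 18) (.e (nat_lit 204870) (nat_lit 29) .nil))))) .nil))))) (.nd (nat_lit 4) (.nd (nat_lit 5) (.nd (nat_lit 6) 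
(.lf (nat_lit 143630) (.g (nat_lit 2489) (.e (nat_lit 57363) (nat_lit 1) (.e (nat_lit 57847) (nat_lit 252) (.e (nat_lit 57407) (nat_lit 12) (.e (nat_lit 336448) (nat_lit 33) .nil)))) .nil)) 
(.lf (nat_lit 143694) (.g (nat_lit 2475) (.e (nat_lit 57364) (nat_lit 1) (.e (nat_lit 57852) (nat_lit 252) (.e (nat_lit 57404) (nat_lit 12) (.e (nat_lit 336060) (nat_lit 7) (.e (nat_lit 319534) (nat_lit 16) (.e (nat_lit 286749) (nat_lit 9) (.e (nat_lit 335997) (nat_lit 1) (.e (nat_lit 57844) (nat_lit 252) .nil)))))))) (.g (nat_lit 5) .nil .nil)))) (.nd (nat_lit 6) 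
(.lf (nat_lit 143662) (.g (nat_lit 1929) (.e (nat_lit 57363) (nat_lit 1) (.e (nat_lit 57847) (nat_lit 252) (.e (nat_lit 57445) (nat_lit 19) (.e (nat_lit 393223) (nat_lit 0) (.e (nat_lit 2184) (nat_lit 144) .nil))))) .nil)) 
(.lf (nat_lit 143726) (.g (nat_lit 3100) (.e (nat_lit 57364) (nat_lit 1) (.e (nat_lit 57854) (nat_lit 252) (.e (nat_lit 57406) (nat_lit 12) (.e (nat_lit 336360) (nat_lit 25) (.e (nat_lit 409649) (nat_lit 18) (.e (nat_lit 303132) (nat_lit 9) (.e (nat_lit 426109) (nat_lit 1) (.e (nat_lit 164177) (nat_lit 154) .nil)))))))) (.g (nat_lit 5) .nil .nil))))) (.nd (nat_lit 5) (.nd (nat_lit 6) 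
(.lf (nat_lit 143646) (.g (nat_lit 2299) (.e (nat_lit 57363) (nat_lit 1) (.e (nat_lit 57847) (nat_lit 252) (.e (nat_lit 57413) (nat_lit 12) (.e (nat_lit 336054) (nat_lit 7) (.e (nat_lit 319533) (nat_lit 16) (.e (nat_lit 286753) (nat_lit 10) (.e (nat_lit 344097) (nat_lit 18) (.e (nat_lit 5195) (nat_lit 294) .nil)))))))) (.g (nat_lit 6) .nil .nil))) 
(.lf (nat_lit 143710) (.g (nat_lit 895) (.e (nat_lit 57364) (nat_lit 1) (.e (nat_lit 57852) (nat_lit 252) (.e (nat_lit 57420) (nat_lit 13) .nil))) .nil))) (.nd (nat_lit 6) 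
(.lf (nat_lit 143678) (.g (nat_lit 2785) (.e (nat_lit 57363) (nat_lit 1) (.e (nat_lit 57849) (nat_lit 252) (.e (nat_lit 57413) (nat_lit 12) (.e (nat_lit 336054) (nat_lit 7) (.e (nat_lit 319534) (nat_lit 16) (.e (nat_lit 286756) (nat_lit 10) (.e (nat_lit 344097) (nat_lit 18) (.e (nat_lit 5195) (nat_lit 294) .nil)))))))) (.g (nat_lit 5) .nil .nil))) 
(.lf (nat_lit 143742) (.g (nat_lit 2382) (.e (nat_lit 57364) (nat_lit 1) (.e (nat_lit 57854) (nat_lit 252) (.e (nat_lit 57440) (nat_lit 18) (.e (nat_lit 385068) (nat_lit 26) (.e (nat_lit 532551) (nat_lit 12) .nil))))) .nil)))))))) (.nd (nat_lit 1) (.nd (nat_lit 2) (.nd (nat_lit 3) (.nd (nat_lit 4) (.nd (nat_lit 5) (.nd (nat_lit 6) 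
(.lf (nat_lit 143617) (.g (nat_lit 1074) (.e (nat_lit 57363) (nat_lit 1) (.e (nat_lit 57847) (nat_lit 252) (.e (nat_lit 57390) (nat_lit 5) (.e (nat_lit 114723) (nat_lit 24) .nil)))) .nil)) 
(.lf (nat_lit 143681) (.g (nat_lit 2682) (.e (nat_lit 57363) (nat_lit 1) (.e (nat_lit 57849) (nat_lit 252) (.e (nat_lit 57415) (nat_lit 12) (.e (nat_lit 336060) (nat_lit 7) (.e (nat_lit 319533) (nat_lit 16) (.e (nat_lit 286753) (nat_lit 10) (.e (nat_lit 344097) (nat_lit 18) (.e (nat_lit 5195) (nat_lit 294) .nil)))))))) (.g (nat_lit 5) .nil .nil)))) (.nd (nat_lit 6) 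
(.lf (nat_lit 143649) (.g (nat_lit 3535) (.e (nat_lit 57363) (nat_lit 1) (.e (nat_lit 57847) (nat_lit 252) (.e (nat_lit 57413) (nat_lit 12) (.e (nat_lit 336056) (nat_lit 7) (.e (nat_lit 319534) (nat_lit 16) (.e (nat_lit 286756) (nat_lit 10) (.e (nat_lit 344097) (nat_lit 18) (.e (nat_lit 5195) (nat_lit 294) .nil)))))))) (.g (nat_lit 6) .nil .nil))) 
(.lf (nat_lit 143713) (.g (nat_lit 1556) (.e (nat_lit 57364) (nat_lit 1) (.e (nat_lit 57852) (nat_lit 252) (.e (nat_lit 57427) (nat_lit 15) (.e (nat_lit 360483) (nat_lit 15) .nil)))) .nil)))) (.nd (nat_lit 5) (.nd (nat_lit 6) 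
(.lf (nat_lit 143633) (.g (nat_lit 404) (.e (nat_lit 57363) (nat_lit 1) (.e (nat_lit 57847) (nat_lit 252) (.e (nat_lit 57411) (nat_lit 12) .nil))) .nil)) 
(.lf (nat_lit 143697) (.g (nat_lit 2603) (.e (nat_lit 57364) (nat_lit 1) (.e (nat_lit 57852) (nat_lit 252) (.e (nat_lit 57406) (nat_lit 12) (.e (nat_lit 336316) (nat_lit 17) (.e (nat_lit 196666) (nat_lit 13) .nil))))) .nil))) (.nd (nat_lit 6) 
(.lf (nat_lit 143665) (.g (nat_lit 2407) (.e (nat_lit 57363) (nat_lit 1) (.e (nat_lit 57847) (nat_lit 252) (.e (nat_lit 57448) (nat_lit 19) (.e (nat_lit 393234) (nat_lit 17) (.e (nat_lit 2398) (nat_lit 157) .nil))))) .nil)) 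
(.lf (nat_lit 143729) (.g (nat_lit 1680) (.e (nat_lit 57364) (nat_lit 1) (.e (nat_lit 57854) (nat_lit 252) (.e (nat_lit 57406) (nat_lit 12) (.e (nat_lit 336450) (nat_lit 33) .nil)))) .nil))))) (.nd (nat_lit 4) (.nd (nat_lit 5) (.nd (nat_lit 6) 
(.lf (nat_lit 143625) (.g (nat_lit 2339) (.e (nat_lit 57363) (nat_lit 1) (.e (nat_lit 57847) (nat_lit 252) (.e (nat_lit 57407) (nat_lit 12) (.e (nat_lit 336445) (nat_lit 33) .nil)))) .nil)) 
(.lf (nat_lit 143689) (.g (nat_lit 4382) (.e (nat_lit 57364) (nat_lit 1) (.e (nat_lit 57851) (nat_lit 252) (.e (nat_lit 57406) (nat_lit 12) (.e (nat_lit 336326) (nat_lit 18) (.e (nat_lit 204869) (nat_lit 29) (.e (nat_lit 360451) (nat_lit 0) (.e (nat_lit 7695) (nat_lit 412) .nil))))))) (.g (nat_lit 6) .nil .nil)))) (.nd (nat_lit 6) 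
(.lf (nat_lit 143657) (.g (nat_lit 974) (.e (nat_lit 57363) (nat_lit 1) (.e (nat_lit 57847) (nat_lit 252) (.e (nat_lit 57437) (nat_lit 17) (.e (nat_lit 384768) (nat_lit 13) .nil)))) .nil)) 
(.lf (nat_lit 143721) (.g (nat_lit 582) (.e (nat_lit 57364) (nat_lit 1) (.e (nat_lit 57854) (nat_lit 252) (.e (nat_lit 57389) (nat_lit 5) .nil))) .nil)))) (.nd (nat_lit 5) (.nd (nat_lit 6) 
(.lf (nat_lit 143641) (.g (nat_lit 3160) (.e (nat_lit 57363) (nat_lit 1) (.e (nat_lit 57847) (nat_lit 252) (.e (nat_lit 57412) (nat_lit 12) (.e (nat_lit 336058) (nat_lit 7) (.e (nat_lit 319533) (nat_lit 16) (.e (nat_lit 286753) (nat_lit 10) (.e (nat_lit 344097) (nat_lit 18) (.e (nat_lit 5195) (nat_lit 294) .nil)))))))) (.g (nat_lit 6) .nil .nil))) 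
(.lf (nat_lit 143705) (.g (nat_lit 1681) (.e (nat_lit 57364) (nat_lit 1) (.e (nat_lit 57852) (nat_lit 252) (.e (nat_lit 57406) (nat_lit 12) (.e (nat_lit 336448) (nat_lit 33) .nil)))) .nil))) (.nd (nat_lit 6) 
(.lf (nat_lit 143673) (.g (nat_lit 2309) (.e (nat_lit 57363) (nat_lit 1) (.e (nat_lit 57849) (nat_lit 252) (.e (nat_lit 57407) (nat_lit 12) (.e (nat_lit 336446) (nat_lit 33) .nil)))) .nil)) 
(.lf (nat_lit 143737) (.g (nat_lit 2042) (.e (nat_lit 57364) (nat_lit 1) (.e (nat_lit 57854) (nat_lit 252) (.e (nat_lit 57409) (nat_lit 12) (.e (nat_lit 336448) (nat_lit 33) .nil)))) .nil)))))) (.nd (nat_lit 3) (.nd (nat_lit 4) (.nd (nat_lit 5) (.nd (nat_lit 6) 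
(.lf (nat_lit 143621) (.g (nat_lit 3357) (.e (nat_lit 57363) (nat_lit 1) (.e (nat_lit 57847) (nat_lit 252) (.e (nat_lit 57404) (nat_lit 12) (.e (nat_lit 336060) (nat_lit 7) (.e (nat_lit 319533) (nat_lit 16) (.e (nat_lit 286753) (nat_lit 10) (.e (nat_lit 344097) (nat_lit 18) (.e (nat_lit 5195) (nat_lit 294) .nil)))))))) (.g (nat_lit 8) .nil .nil))) 
(.lf (nat_lit 143685) (.g (nat_lit 2045) (.e (nat_lit 57363) (nat_lit 1) (.e (nat_lit 57854) (nat_lit 252) (.e (nat_lit 57409) (nat_lit 12) (.e (nat_lit 336240) (nat_lit 15) .nil)))) .nil))) (.nd (nat_lit 6) 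
(.lf (nat_lit 143653) (.g (nat_lit 3011) (.e (nat_lit 57363) (nat_lit 1) (.e (nat_lit 57847) (nat_lit 252) (.e (nat_lit 57416) (nat_lit 12) (.e (nat_lit 336056) (nat_lit 7) (.e (nat_lit 319533) (nat_lit 16) (.e (nat_lit 286753) (nat_lit 10) (.e (nat_lit 344097) (nat_lit 18) (.e (nat_lit 5195) (nat_lit 294) .nil)))))))) (.g (nat_lit 6) .nil .nil))) 
(.lf (nat_lit 143717) (.g (nat_lit 1883) (.e (nat_lit 57364) (nat_lit 1) (.e (nat_lit 57852) (nat_lit 252) (.e (nat_lit 57445) (nat_lit 19) (.e (nat_lit 393217) (nat_lit 0) .nil)))) .nil)))) (.nd (nat_lit 5) (.nd (nat_lit 6) 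
(.lf (nat_lit 143637) (.g (nat_lit 1470) (.e (nat_lit 57363) (nat_lit 1) (.e (nat_lit 57847) (nat_lit 252) (.e (nat_lit 57411) (nat_lit 12) (.e (nat_lit 336446) (nat_lit 33) .nil)))) .nil)) 
(.lf (nat_lit 143701) (.g (nat_lit 3371) (.e (nat_lit 57364) (nat_lit 1) (.e (nat_lit 57852) (nat_lit 252) (.e (nat_lit 57406) (nat_lit 12) (.e (nat_lit 336360) (nat_lit 25) (.e (nat_lit 409649) (nat_lit 18) (.e (nat_lit 303132) (nat_lit 9) (.e (nat_lit 426109) (nat_lit 1) (.e (nat_lit 164177) (nat_lit 154) .nil)))))))) (.g (nat_lit 5) .nil .nil)))) (.nd (nat_lit 6) 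
(.lf (nat_lit 143669) (.g (nat_lit 1458) (.e (nat_lit 57363) (nat_lit 1) (.e (nat_lit 57849) (nat_lit 252) (.e (nat_lit 57390) (nat_lit 5) (.e (nat_lit 114723) (nat_lit 24) .nil)))) .nil)) 
(.lf (nat_lit 143733) (.g (nat_lit 3327) (.e (nat_lit 57364) (nat_lit 1) (.e (nat_lit 57854) (nat_lit 252) (.e (nat_lit 57409) (nat_lit 12) (.e (nat_lit 336324) (nat_lit 18) (.e (nat_lit 204868) (nat_lit 29) .nil))))) .nil))))) (.nd (nat_lit 4) (.nd (nat_lit 5) (.nd (nat_lit 6) 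
(.lf (nat_lit 143629) (.g (nat_lit 1882) (.e (nat_lit 57363) (nat_lit 1) (.e (nat_lit 57847) (nat_lit 252) (.e (nat_lit 57407) (nat_lit 12) (.e (nat_lit 336446) (nat_lit 33) (.e (nat_lit 475214) (nat_lit 42) (.e (nat_lit 720956) (nat_lit 25) (.e (nat_lit 114712) (nat_lit 21) (.e (nat_lit 57853) (nat_lit 252) .nil)))))))) (.g (nat_lit 4) .nil .nil))) 
(.lf (nat_lit 143693) (.g (nat_lit 1523) (.e (nat_lit 57364) (nat_lit 1) (.e (nat_lit 57851) (nat_lit 252) (.e (nat_lit 57427) (nat_lit 15) (.e (nat_lit 360483) (nat_lit 15) (.e (nat_lit 647179) (nat_lit 2) .nil))))) .nil))) (.nd (nat_lit 6) 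
(.lf (nat_lit 143661) (.g (nat_lit 1879) (.e (nat_lit 57363) (nat_lit 1) (.e (nat_lit 57847) (nat_lit 252) (.e (nat_lit 57445) (nat_lit 19) (.e (nat_lit 393223) (nat_lit 0) .nil)))) .nil)) 
(.lf (nat_lit 143725) (.g (nat_lit 2030) (.e (nat_lit 57364) (nat_lit 1) (.e (nat_lit 57854) (nat_lit 252) (.e (nat_lit 57406) (nat_lit 12) (.e (nat_lit 336326) (nat_lit 18) (.e (nat_lit 204870) (nat_lit 29) .nil))))) .nil)))) (.nd (nat_lit 5) (.nd (nat_lit 6) 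
(.lf (nat_lit 143645) (.g (nat_lit 4162) (.e (nat_lit 57363) (nat_lit 1) (.e (nat_lit 57847) (nat_lit 252) (.e (nat_lit 57412) (nat_lit 12) (.e (nat_lit 336061) (nat_lit 7) (.e (nat_lit 319534) (nat_lit 16) (.e (nat_lit 286756) (nat_lit 10) (.e (nat_lit 344097) (nat_lit 18) (.e (nat_lit 5195) (nat_lit 294) .nil)))))))) (.g (nat_lit 6) .nil .nil))) 
(.lf (nat_lit 143709) (.g (nat_lit 2373) (.e (nat_lit 57364) (nat_lit 1) (.e (nat_lit 57852) (nat_lit 252) (.e (nat_lit 57415) (nat_lit 12) (.e (nat_lit 336060) (nat_lit 7) (.e (nat_lit 319534) (nat_lit 16) (.e (nat_lit 286749) (nat_lit 9) (.e (nat_lit 335997) (nat_lit 1) (.e (nat_lit 57844) (nat_lit 252) .nil)))))))) (.g (nat_lit 5) .nil .nil)))) (.nd (nat_lit 6) 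
(.lf (nat_lit 143677) (.g (nat_lit 2567) (.e (nat_lit 57363) (nat_lit 1) (.e (nat_lit 57849) (nat_lit 252) (.e (nat_lit 57412) (nat_lit 12) (.e (nat_lit 336061) (nat_lit 7) (.e (nat_lit 319534) (nat_lit 16) .nil))))) .nil)) 
(.lf (nat_lit 143741) (.g (nat_lit 1873) (.e (nat_lit 57364) (nat_lit 1) (.e (nat_lit 57854) (nat_lit 252) (.e (nat_lit 57427) (nat_lit 15) (.e (nat_lit 360483) (nat_lit 15) .nil)))) .nil))))))) (.nd (nat_lit 2) (.nd (nat_lit 3) (.nd (nat_lit 4) (.nd (nat_lit 5) (.nd (nat_lit 6) 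
(.lf (nat_lit 143619) (.g (nat_lit 3017) (.e (nat_lit 57363) (nat_lit 1) (.e (nat_lit 57847) (nat_lit 252) (.e (nat_lit 57404) (nat_lit 12) (.e (nat_lit 336054) (nat_lit 7) (.e (nat_lit 319534) (nat_lit 16) (.e (nat_lit 286756) (nat_lit 10) (.e (nat_lit 344097) (nat_lit 18) (.e (nat_lit 5195) (nat_lit 294) .nil)))))))) (.g (nat_lit 6) .nil .nil))) 
(.lf (nat_lit 143683) (.g (nat_lit 2878) (.e (nat_lit 57363) (nat_lit 1) (.e (nat_lit 57854) (nat_lit 252) (.e (nat_lit 57373) (nat_lit 2) (.e (nat_lit 98048) (nat_lit 6) .nil)))) .nil))) (.nd (nat_lit 6) 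
(.lf (nat_lit 143651) (.g (nat_lit 3409) (.e (nat_lit 57363) (nat_lit 1) (.e (nat_lit 57847) (nat_lit 252) (.e (nat_lit 57414) (nat_lit 12) (.e (nat_lit 336060) (nat_lit 7) (.e (nat_lit 319533) (nat_lit 16) (.e (nat_lit 286753) (nat_lit 10) (.e (nat_lit 344097) (nat_lit 18) (.e (nat_lit 5195) (nat_lit 294) .nil)))))))) (.g (nat_lit 8) .nil .nil))) 
(.lf (nat_lit 143715) (.g (nat_lit 1718) (.e (nat_lit 57364) (nat_lit 1) (.e (nat_lit 57852) (nat_lit 252) (.e (nat_lit 57427) (nat_lit 15) (.e (nat_lit 360484) (nat_lit 15) .nil)))) .nil)))) (.nd (nat_lit 5) (.nd (nat_lit 6) 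
(.lf (nat_lit 143635) (.g (nat_lit 1440) (.e (nat_lit 57363) (nat_lit 1) (.e (nat_lit 57847) (nat_lit 252) (.e (nat_lit 57411) (nat_lit 12) (.e (nat_lit 336182) (nat_lit 11) (.e (nat_lit 368689) (nat_lit 34) .nil))))) .nil)) 
(.lf (nat_lit 143699) (.g (nat_lit 1722) (.e (nat_lit 57364) (nat_lit 1) (.e (nat_lit 57852) (nat_lit 252) (.e (nat_lit 57406) (nat_lit 12) (.e (nat_lit 336326) (nat_lit 18) .nil)))) .nil))) (.nd (nat_lit 6) 
(.lf (nat_lit 143667) (.g (nat_lit 2244) (.e (nat_lit 57363) (nat_lit 1) (.e (nat_lit 57847) (nat_lit 252) (.e (nat_lit 57448) (nat_lit 19) (.e (nat_lit 393234) (nat_lit 17) (.e (nat_lit 2411) (nat_lit 157) .nil))))) .nil)) 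
(.lf (nat_lit 143731) (.g (nat_lit 2022) (.e (nat_lit 57364) (nat_lit 1) (.e (nat_lit 57854) (nat_lit 252) (.e (nat_lit 57409) (nat_lit 12) (.e (nat_lit 336240) (nat_lit 15) .nil)))) .nil))))) (.nd (nat_lit 4) (.nd (nat_lit 5) (.nd (nat_lit 6) 
(.lf (nat_lit 143627) (.g (nat_lit 1858) (.e (nat_lit 57363) (nat_lit 1) (.e (nat_lit 57847) (nat_lit 252) (.e (nat_lit 57407) (nat_lit 12) (.e (nat_lit 336446) (nat_lit 33) (.e (nat_lit 475212) (nat_lit 42) .nil))))) .nil)) 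
(.lf (nat_lit 143691) (.g (nat_lit 3403) (.e (nat_lit 57364) (nat_lit 1) (.e (nat_lit 57851) (nat_lit 252) (.e (nat_lit 57406) (nat_lit 12) (.e (nat_lit 336360) (nat_lit 25) (.e (nat_lit 409649) (nat_lit 18) (.e (nat_lit 303132) (nat_lit 9) (.e (nat_lit 426109) (nat_lit 1) (.e (nat_lit 164177) (nat_lit 154) .nil)))))))) (.g (nat_lit 6) .nil .nil)))) (.nd (nat_lit 6) 
(.lf (nat_lit 143659) (.g (nat_lit 1879) (.e (nat_lit 57363) (nat_lit 1) (.e (nat_lit 57847) (nat_lit 252) (.e (nat_lit 57445) (nat_lit 19) (.e (nat_lit 393217) (nat_lit 0) .nil)))) .nil)) 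
(.lf (nat_lit 143723) (.g (nat_lit 2198) (.e (nat_lit 57364) (nat_lit 1) (.e (nat_lit 57854) (nat_lit 252) (.e (nat_lit 57406) (nat_lit 12) (.e (nat_lit 336326) (nat_lit 18) (.e (nat_lit 204868) (nat_lit 29) (.e (nat_lit 360452) (nat_lit 0) (.e (nat_lit 7936) (nat_lit 412) .nil))))))) (.g (nat_lit 4) .nil .nil))))) (.nd (nat_lit 5) (.nd (nat_lit 6) 
(.lf (nat_lit 143643) (.g (nat_lit 3637) (.e (nat_lit 57363) (nat_lit 1) (.e (nat_lit 57847) (nat_lit 252) (.e (nat_lit 57412) (nat_lit 12) (.e (nat_lit 336060) (nat_lit 7) (.e (nat_lit 319533) (nat_lit 16) (.e (nat_lit 286753) (nat_lit 10) (.e (nat_lit 344097) (nat_lit 18) (.e (nat_lit 5195) (nat_lit 294) .nil)))))))) (.g (nat_lit 8) .nil .nil))) 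
(.lf (nat_lit 143707) (.g (nat_lit 2049) (.e (nat_lit 57364) (nat_lit 1) (.e (nat_lit 57852) (nat_lit 252) (.e (nat_lit 57412) (nat_lit 12) (.e (nat_lit 336060) (nat_lit 7) (.e (nat_lit 319534) (nat_lit 16) (.e (nat_lit 286749) (nat_lit 9) (.e (nat_lit 335997) (nat_lit 1) (.e (nat_lit 57844) (nat_lit 252) .nil)))))))) (.g (nat_lit 4) .nil .nil)))) (.nd (nat_lit 6) 
(.lf (nat_lit 143675) (.g (nat_lit 2460) (.e (nat_lit 57363) (nat_lit 1) (.e (nat_lit 57849) (nat_lit 252) (.e (nat_lit 57407) (nat_lit 12) (.e (nat_lit 336450) (nat_lit 33) .nil)))) .nil)) 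
(.lf (nat_lit 143739) (.g (nat_lit 2726) (.e (nat_lit 57364) (nat_lit 1) (.e (nat_lit 57854) (nat_lit 252) (.e (nat_lit 57409) (nat_lit 12) (.e (nat_lit 336450) (nat_lit 33) (.e (nat_lit 475212) (nat_lit 42) .nil))))) .nil)))))) (.nd (nat_lit 3) (.nd (nat_lit 4) (.nd (nat_lit 5) (.nd (nat_lit 6) 
(.lf (nat_lit 143623) (.g (nat_lit 2207) (.e (nat_lit 57363) (nat_lit 1) (.e (nat_lit 57847) (nat_lit 252) (.e (nat_lit 57407) (nat_lit 12) (.e (nat_lit 336310) (nat_lit 16) .nil)))) .nil)) 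
(.lf (nat_lit 143687) (.g (nat_lit 1009) (.e (nat_lit 57364) (nat_lit 1) (.e (nat_lit 57830) (nat_lit 250) (.e (nat_lit 1201) (nat_lit 88) (.e (nat_lit 65617) (nat_lit 10) .nil)))) .nil))) (.nd (nat_lit 6) 
(.lf (nat_lit 143655) (.g (nat_lit 422) (.e (nat_lit 57363) (nat_lit 1) (.e (nat_lit 57847) (nat_lit 252) (.e (nat_lit 57435) (nat_lit 17) .nil))) .nil)) 
(.lf (nat_lit 143719) (.g (nat_lit 1413) (.e (nat_lit 57364) (nat_lit 1) (.e (nat_lit 57854) (nat_lit 252) (.e (nat_lit 57378) (nat_lit 3) (.e (nat_lit 98341) (nat_lit 20) .nil)))) .nil)))) (.nd (nat_lit 5) (.nd (nat_lit 6) 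
(.lf (nat_lit 143639) (.g (nat_lit 1609) (.e (nat_lit 57363) (nat_lit 1) (.e (nat_lit 57847) (nat_lit 252) (.e (nat_lit 57411) (nat_lit 12) (.e (nat_lit 336448) (nat_lit 33) .nil)))) .nil)) 
(.lf (nat_lit 143703) (.g (nat_lit 2251) (.e (nat_lit 57364) (nat_lit 1) (.e (nat_lit 57852) (nat_lit 252) (.e (nat_lit 57406) (nat_lit 12) (.e (nat_lit 336446) (nat_lit 33) (.e (nat_lit 475212) (nat_lit 42) (.e (nat_lit 720956) (nat_lit 25) (.e (nat_lit 114712) (nat_lit 21) (.e (nat_lit 57851) (nat_lit 252) .nil)))))))) (.g (nat_lit 4) .nil .nil)))) (.nd (nat_lit 6) 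
(.lf (nat_lit 143671) (.g (nat_lit 2730) (.e (nat_lit 57363) (nat_lit 1) (.e (nat_lit 57849) (nat_lit 252) (.e (nat_lit 57407) (nat_lit 12) (.e (nat_lit 336316) (nat_lit 17) .nil)))) .nil)) 
(.lf (nat_lit 143735) (.g (nat_lit 2034) (.e (nat_lit 57364) (nat_lit 1) (.e (nat_lit 57854) (nat_lit 252) (.e (nat_lit 57409) (nat_lit 12) (.e (nat_lit 336445) (nat_lit 33) .nil)))) .nil))))) (.nd (nat_lit 4) (.nd (nat_lit 5) (.nd (nat_lit 6) 
(.lf (nat_lit 143631) (.g (nat_lit 2489) (.e (nat_lit 57363) (nat_lit 1) (.e (nat_lit 57847) (nat_lit 252) (.e (nat_lit 57407) (nat_lit 12) (.e (nat_lit 336450) (nat_lit 33) .nil)))) .nil)) 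
(.lf (nat_lit 143695) (.g (nat_lit 2547) (.e (nat_lit 57364) (nat_lit 1) (.e (nat_lit 57852) (nat_lit 252) (.e (nat_lit 57406) (nat_lit 12) (.e (nat_lit 336310) (nat_lit 16) (.e (nat_lit 164178) (nat_lit 154) (.e (nat_lit 57437) (nat_lit 17) (.e (nat_lit 376860) (nat_lit 21) (.e (nat_lit 57854) (nat_lit 252) .nil)))))))) (.g (nat_lit 5) .nil .nil)))) (.nd (nat_lit 6) 
(.lf (nat_lit 143663) (.g (nat_lit 426) (.e (nat_lit 57363) (nat_lit 1) (.e (nat_lit 57847) (nat_lit 252) (.e (nat_lit 57446) (nat_lit 19) .nil))) .nil)) 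
(.lf (nat_lit 143727) (.g (nat_lit 1700) (.e (nat_lit 57364) (nat_lit 1) (.e (nat_lit 57854) (nat_lit 252) (.e (nat_lit 57406) (nat_lit 12) (.e (nat_lit 336445) (nat_lit 33) .nil)))) .nil)))) (.nd (nat_lit 5) (.nd (nat_lit 6) 
(.lf (nat_lit 143647) (.g (nat_lit 3017) (.e (nat_lit 57363) (nat_lit 1) (.e (nat_lit 57847) (nat_lit 252) (.e (nat_lit 57413) (nat_lit 12) (.e (nat_lit 336054) (nat_lit 7) (.e (nat_lit 319534) (nat_lit 16) (.e (nat_lit 286756) (nat_lit 10) (.e (nat_lit 344097) (nat_lit 18) (.e (nat_lit 5195) (nat_lit 294) .nil)))))))) (.g (nat_lit 6) .nil .nil))) 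
(.lf (nat_lit 143711) (.g (nat_lit 830) (.e (nat_lit 57364) (nat_lit 1) (.e (nat_lit 57852) (nat_lit 252) (.e (nat_lit 57421) (nat_lit 13) .nil))) .nil))) (.nd (nat_lit 6) 
(.lf (nat_lit 143679) (.g (nat_lit 3906) (.e (nat_lit 57363) (nat_lit 1) (.e (nat_lit 57849) (nat_lit 252) (.e (nat_lit 57413) (nat_lit 12) (.e (nat_lit 336060) (nat_lit 7) (.e (nat_lit 319534) (nat_lit 16) (.e (nat_lit 286756) (nat_lit 10) (.e (nat_lit 344097) (nat_lit 18) (.e (nat_lit 5195) (nat_lit 294) .nil)))))))) (.g (nat_lit 7) .nil .nil))) 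
(.lf (nat_lit 143743) (.g (nat_lit 619) (.e (nat_lit 57364) (nat_lit 1) (.e (nat_lit 57854) (nat_lit 252) (.e (nat_lit 57447) (nat_lit 19) .nil))) .nil)))))))))

noncomputable def tv1906 : DT := (.nd (nat_lit 0) (.nd (nat_lit 1) (.nd (nat_lit 2) (.nd (nat_lit 3) (.nd (nat_lit 4) (.nd (nat_lit 5) 
(.lf (nat_lit 143744) (.g (nat_lit 1922) (.e (nat_lit 57364) (nat_lit 1) (.e (nat_lit 57854) (nat_lit 252) (.e (nat_lit 57447) (nat_lit 19) (.e (nat_lit 393217) (nat_lit 0) .nil)))) .nil)) 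
(.lf (nat_lit 143776) (.g (nat_lit 3263) (.e (nat_lit 57365) (nat_lit 1) (.e (nat_lit 57851) (nat_lit 252) (.e (nat_lit 57412) (nat_lit 12) (.e (nat_lit 336061) (nat_lit 7) (.e (nat_lit 319531) (nat_lit 16) (.e (nat_lit 286753) (nat_lit 10) (.e (nat_lit 344097) (nat_lit 18) (.e (nat_lit 5194) (nat_lit 294) .nil)))))))) (.g (nat_lit 6) .nil .nil)))) (.nd (nat_lit 5) 
(.lf (nat_lit 143760) (.g (nat_lit 1593) (.e (nat_lit 57365) (nat_lit 1) (.e (nat_lit 57851) (nat_lit 252) (.e (nat_lit 57406) (nat_lit 12) (.e (nat_lit 336445) (nat_lit 33) .nil)))) .nil)) 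
(.lf (nat_lit 143792) (.g (nat_lit 1753) (.e (nat_lit 57365) (nat_lit 1) (.e (nat_lit 57852) (nat_lit 252) (.e (nat_lit 57412) (nat_lit 12) (.e (nat_lit 336054) (nat_lit 7) .nil)))) .nil)))) (.nd (nat_lit 4) (.nd (nat_lit 5) 
(.lf (nat_lit 143752) (.g (nat_lit 2495) (.e (nat_lit 57365) (nat_lit 1) (.e (nat_lit 57830) (nat_lit 250) (.e (nat_lit 1201) (nat_lit 88) (.e (nat_lit 65583) (nat_lit 7) (.e (nat_lit 319530) (nat_lit 16) (.e (nat_lit 286748) (nat_lit 9) (.e (nat_lit 335925) (nat_lit 0) (.e (nat_lit 1023) (nat_lit 81) (.e (nat_lit 5195) (nat_lit 294) .nil))))))))) (.g (nat_lit 6) .nil .nil))) 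
(.lf (nat_lit 143784) (.g (nat_lit 2428) (.e (nat_lit 57365) (nat_lit 1) (.e (nat_lit 57852) (nat_lit 252) (.e (nat_lit 57404) (nat_lit 12) (.e (nat_lit 336054) (nat_lit 7) (.e (nat_lit 319534) (nat_lit 16) (.e (nat_lit 286749) (nat_lit 9) (.e (nat_lit 335997) (nat_lit 1) (.e (nat_lit 57848) (nat_lit 252) .nil)))))))) (.g (nat_lit 5) .nil .nil)))) (.nd (nat_lit 5) 
(.lf (nat_lit 143768) (.g (nat_lit 2567) (.e (nat_lit 57365) (nat_lit 1) (.e (nat_lit 57851) (nat_lit 252) (.e (nat_lit 57412) (nat_lit 12) (.e (nat_lit 336061) (nat_lit 7) (.e (nat_lit 319531) (nat_lit 16) (.e (nat_lit 286742) (nat_lit 9) (.e (nat_lit 335992) (nat_lit 1) (.e (nat_lit 57849) (nat_lit 252) .nil)))))))) (.g (nat_lit 5) .nil .nil))) 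
(.lf (nat_lit 143800) (.g (nat_lit 2768) (.e (nat_lit 57365) (nat_lit 1) (.e (nat_lit 57852) (nat_lit 252) (.e (nat_lit 57413) (nat_lit 12) (.e (nat_lit 336060) (nat_lit 7) (.e (nat_lit 319534) (nat_lit 16) (.e (nat_lit 286749) (nat_lit 9) (.e (nat_lit 335997) (nat_lit 1) (.e (nat_lit 57848) (nat_lit 252) .nil)))))))) (.g (nat_lit 5) .nil .nil)))))) 
(.nd (nat_lit 3) (.nd (nat_lit 4) (.nd (nat_lit 5) 
(.lf (nat_lit 143748) (.g (nat_lit 2227) (.e (nat_lit 57365) (nat_lit 1) (.e (nat_lit 57724) (nat_lit 181) (.e (nat_lit 1211) (nat_lit 89) (.e (nat_lit 73755) (nat_lit 8) (.e (nat_lit 557097) (nat_lit 13) (.e (nat_lit 179968) (nat_lit 20) (.e (nat_lit 114710) (nat_lit 21) (.e (nat_lit 57847) (nat_lit 252) .nil)))))))) (.g (nat_lit 5) .nil .nil))) 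
(.lf (nat_lit 143780) (.g (nat_lit 1366) (.e (nat_lit 57365) (nat_lit 1) (.e (nat_lit 57851) (nat_lit 252) (.e (nat_lit 57427) (nat_lit 15) (.e (nat_lit 360478) (nat_lit 12) .nil)))) .nil))) (.nd (nat_lit 5) 
(.lf (nat_lit 143764) (.g (nat_lit 2389) (.e (nat_lit 57365) (nat_lit 1) (.e (nat_lit 57851) (nat_lit 252) (.e (nat_lit 57412) (nat_lit 12) (.e (nat_lit 336060) (nat_lit 7) (.e (nat_lit 319534) (nat_lit 16) (.e (nat_lit 286749) (nat_lit 9) (.e (nat_lit 335997) (nat_lit 1) (.e (nat_lit 57846) (nat_lit 252) .nil)))))))) (.g (nat_lit 5) .nil .nil))) 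
(.lf (nat_lit 143796) (.g (nat_lit 2317) (.e (nat_lit 57365) (nat_lit 1) (.e (nat_lit 57852) (nat_lit 252) (.e (nat_lit 57412) (nat_lit 12) (.e (nat_lit 336061) (nat_lit 7) (.e (nat_lit 319534) (nat_lit 16) (.e (nat_lit 286749) (nat_lit 9) (.e (nat_lit 335997) (nat_lit 1) (.e (nat_lit 57848) (nat_lit 252) .nil)))))))) (.g (nat_lit 4) .nil .nil))))) (.nd (nat_lit 4) (.nd (nat_lit 5) 
(.lf (nat_lit 143756) (.g (nat_lit 1633) (.e (nat_lit 57365) (nat_lit 1) (.e (nat_lit 57851) (nat_lit 252) (.e (nat_lit 57347) (nat_lit 0) (.e (nat_lit 2160) (nat_lit 143) (.e (nat_lit 712755) (nat_lit 30) .nil))))) .nil)) 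
(.lf (nat_lit 143788) (.g (nat_lit 2528) (.e (nat_lit 57365) (nat_lit 1) (.e (nat_lit 57852) (nat_lit 252) (.e (nat_lit 57406) (nat_lit 12) (.e (nat_lit 336240) (nat_lit 15) (.e (nat_lit 3453) (nat_lit 216) .nil))))) .nil))) (.nd (nat_lit 5) 
(.lf (nat_lit 143772) (.g (nat_lit 3804) (.e (nat_lit 57365) (nat_lit 1) (.e (nat_lit 57851) (nat_lit 252) (.e (nat_lit 57412) (nat_lit 12) (.e (nat_lit 336061) (nat_lit 7) (.e (nat_lit 319531) (nat_lit 16) (.e (nat_lit 286747) (nat_lit 9) (.e (nat_lit 335997) (nat_lit 1) (.e (nat_lit 57848) (nat_lit 252) .nil)))))))) (.g (nat_lit 0) .nil .nil))) 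
(.lf (nat_lit 143804) (.g (nat_lit 848) (.e (nat_lit 57365) (nat_lit 1) (.e (nat_lit 57852) (nat_lit 252) (.e (nat_lit 57427) (nat_lit 15) .nil))) .nil)))))) (.nd (nat_lit 2) (.nd (nat_lit 3) (.nd (nat_lit 4) (.nd (nat_lit 5) 
(.lf (nat_lit 143746) (.g (nat_lit 2833) (.e (nat_lit 57364) (nat_lit 1) (.e (nat_lit 57927) (nat_lit 282) (.e (nat_lit 163874) (nat_lit 3) (.e (nat_lit 204829) (nat_lit 18) (.e (nat_lit 57847) (nat_lit 252) (.e (nat_lit 57448) (nat_lit 19) (.e (nat_lit 393251) (nat_lit 18) (.e (nat_lit 164179) (nat_lit 154) .nil)))))))) (.g (nat_lit 4) .nil .nil))) 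
(.lf (nat_lit 143778) (.g (nat_lit 4405) (.e (nat_lit 57365) (nat_lit 1) (.e (nat_lit 57851) (nat_lit 252) (.e (nat_lit 57412) (nat_lit 12) (.e (nat_lit 336061) (nat_lit 7) (.e (nat_lit 319534) (nat_lit 16) (.e (nat_lit 286749) (nat_lit 9) (.e (nat_lit 335997) (nat_lit 1) (.e (nat_lit 57848) (nat_lit 252) .nil)))))))) (.g (nat_lit 0) .nil .nil)))) (.nd (nat_lit 5) 
(.lf (nat_lit 143762) (.g (nat_lit 3788) (.e (nat_lit 57365) (nat_lit 1) (.e (nat_lit 57851) (nat_lit 252) (.e (nat_lit 57412) (nat_lit 12) (.e (nat_lit 336054) (nat_lit 7) (.e (nat_lit 319534) (nat_lit 16) (.e (nat_lit 286749) (nat_lit 9) (.e (nat_lit 335997) (nat_lit 1) (.e (nat_lit 57848) (nat_lit 252) .nil)))))))) (.g (nat_lit 0) .nil .nil))) 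
(.lf (nat_lit 143794) (.g (nat_lit 2780) (.e (nat_lit 57365) (nat_lit 1) (.e (nat_lit 57852) (nat_lit 252) (.e (nat_lit 57412) (nat_lit 12) (.e (nat_lit 336060) (nat_lit 7) (.e (nat_lit 319534) (nat_lit 16) (.e (nat_lit 286749) (nat_lit 9) (.e (nat_lit 335997) (nat_lit 1) (.e (nat_lit 57848) (nat_lit 252) .nil)))))))) (.g (nat_lit 5) .nil .nil))))) (.nd (nat_lit 4) (.nd (nat_lit 5) 
(.lf (nat_lit 143754) (.g (nat_lit 2967) (.e (nat_lit 57365) (nat_lit 1) (.e (nat_lit 57830) (nat_lit 250) (.e (nat_lit 1201) (nat_lit 88) (.e (nat_lit 65586) (nat_lit 7) (.e (nat_lit 319531) (nat_lit 16) (.e (nat_lit 286748) (nat_lit 9) (.e (nat_lit 335938) (nat_lit 0) (.e (nat_lit 1023) (nat_lit 81) (.e (nat_lit 5195) (nat_lit 294) .nil))))))))) (.g (nat_lit 6) .nil .nil))) 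
(.lf (nat_lit 143786) (.g (nat_lit 2705) (.e (nat_lit 57365) (nat_lit 1) (.e (nat_lit 57852) (nat_lit 252) (.e (nat_lit 57404) (nat_lit 12) (.e (nat_lit 336056) (nat_lit 7) (.e (nat_lit 319534) (nat_lit 16) (.e (nat_lit 286756) (nat_lit 10) (.e (nat_lit 344097) (nat_lit 18) (.e (nat_lit 5194) (nat_lit 294) .nil)))))))) (.g (nat_lit 5) .nil .nil)))) (.nd (nat_lit 5) 
(.lf (nat_lit 143770) (.g (nat_lit 3788) (.e (nat_lit 57365) (nat_lit 1) (.e (nat_lit 57851) (nat_lit 252) (.e (nat_lit 57412) (nat_lit 12) (.e (nat_lit 336061) (nat_lit 7) (.e (nat_lit 319531) (nat_lit 16) (.e (nat_lit 286742) (nat_lit 9) (.e (nat_lit 335997) (nat_lit 1) (.e (nat_lit 57848) (nat_lit 252) .nil)))))))) (.g (nat_lit 0) .nil .nil))) 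
(.lf (nat_lit 143802) (.g (nat_lit 3003) (.e (nat_lit 57365) (nat_lit 1) (.e (nat_lit 57852) (nat_lit 252) (.e (nat_lit 57415) (nat_lit 12) (.e (nat_lit 336060) (nat_lit 7) (.e (nat_lit 319534) (nat_lit 16) (.e (nat_lit 286749) (nat_lit 9) (.e (nat_lit 335997) (nat_lit 1) (.e (nat_lit 57848) (nat_lit 252) .nil)))))))) (.g (nat_lit 7) .nil .nil)))))) 
(.nd (nat_lit 3) (.nd (nat_lit 4) (.nd (nat_lit 5) 
(.lf (nat_lit 143750) (.g (nat_lit 967) (.e (nat_lit 57365) (nat_lit 1) (.e (nat_lit 57754) (nat_lit 209) (.e (nat_lit 1199) (nat_lit 88) (.e (nat_lit 65619) (nat_lit 10) .nil)))) .nil)) 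
(.lf (nat_lit 143782) (.g (nat_lit 370) (.e (nat_lit 57365) (nat_lit 1) (.e (nat_lit 57851) (nat_lit 252) (.e (nat_lit 57445) (nat_lit 19) .nil))) .nil))) (.nd (nat_lit 5) 
(.lf (nat_lit 143766) (.g (nat_lit 743) (.e (nat_lit 57365) (nat_lit 1) (.e (nat_lit 57851) (nat_lit 252) (.e (nat_lit 57412) (nat_lit 12) (.e (nat_lit 336061) (nat_lit 7) .nil)))) .nil)) 
(.lf (nat_lit 143798) (.g (nat_lit 2507) (.e (nat_lit 57365) (nat_lit 1) (.e (nat_lit 57852) (nat_lit 252) (.e (nat_lit 57413) (nat_lit 12) (.e (nat_lit 336060) (nat_lit 7) (.e (nat_lit 319533) (nat_lit 16) (.e (nat_lit 286753) (nat_lit 10) (.e (nat_lit 344097) (nat_lit 18) (.e (nat_lit 5194) (nat_lit 294) .nil)))))))) (.g (nat_lit 5) .nil .nil))))) (.nd (nat_lit 4) (.nd (nat_lit 5) 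
(.lf (nat_lit 143758) (.g (nat_lit 2114) (.e (nat_lit 57365) (nat_lit 1) (.e (nat_lit 57851) (nat_lit 252) (.e (nat_lit 57406) (nat_lit 12) (.e (nat_lit 336240) (nat_lit 15) (.e (nat_lit 3453) (nat_lit 216) .nil))))) .nil)) 
(.lf (nat_lit 143790) (.g (nat_lit 3465) (.e (nat_lit 57365) (nat_lit 1) (.e (nat_lit 57852) (nat_lit 252) (.e (nat_lit 57406) (nat_lit 12) (.e (nat_lit 336360) (nat_lit 25) (.e (nat_lit 409649) (nat_lit 18) (.e (nat_lit 303132) (nat_lit 9) (.e (nat_lit 426109) (nat_lit 1) (.e (nat_lit 164177) (nat_lit 154) .nil)))))))) (.g (nat_lit 5) .nil .nil)))) (.nd (nat_lit 5) 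
(.lf (nat_lit 143774) (.g (nat_lit 3392) (.e (nat_lit 57365) (nat_lit 1) (.e (nat_lit 57851) (nat_lit 252) (.e (nat_lit 57412) (nat_lit 12) (.e (nat_lit 336061) (nat_lit 7) (.e (nat_lit 319531) (nat_lit 16) (.e (nat_lit 286748) (nat_lit 9) (.e (nat_lit 335997) (nat_lit 1) (.e (nat_lit 57848) (nat_lit 252) .nil)))))))) (.g (nat_lit 0) .nil .nil))) 
(.lf (nat_lit 143806) (.g (nat_lit 2718) (.e (nat_lit 57365) (nat_lit 1) (.e (nat_lit 57854) (nat_lit 252) (.e (nat_lit 57373) (nat_lit 2) (.e (nat_lit 98048) (nat_lit 6) .nil)))) .nil))))))) (.nd (nat_lit 1) (.nd (nat_lit 2) (.nd (nat_lit 3) (.nd (nat_lit 4) (.nd (nat_lit 5) 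
(.lf (nat_lit 143745) (.g (nat_lit 2174) (.e (nat_lit 57364) (nat_lit 1) (.e (nat_lit 57927) (nat_lit 282) (.e (nat_lit 163874) (nat_lit 3) (.e (nat_lit 204829) (nat_lit 18) .nil)))) .nil)) 
(.lf (nat_lit 143777) (.g (nat_lit 3317) (.e (nat_lit 57365) (nat_lit 1) (.e (nat_lit 57851) (nat_lit 252) (.e (nat_lit 57412) (nat_lit 12) (.e (nat_lit 336061) (nat_lit 7) (.e (nat_lit 319531) (nat_lit 16) (.e (nat_lit 286755) (nat_lit 10) (.e (nat_lit 344097) (nat_lit 18) (.e (nat_lit 5194) (nat_lit 294) .nil)))))))) (.g (nat_lit 7) .nil .nil)))) (.nd (nat_lit 5) 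
(.lf (nat_lit 143761) (.g (nat_lit 2977) (.e (nat_lit 57365) (nat_lit 1) (.e (nat_lit 57851) (nat_lit 252) (.e (nat_lit 57406) (nat_lit 12) (.e (nat_lit 336446) (nat_lit 33) (.e (nat_lit 475214) (nat_lit 42) (.e (nat_lit 720955) (nat_lit 25) (.e (nat_lit 114711) (nat_lit 21) (.e (nat_lit 57847) (nat_lit 252) .nil)))))))) (.g (nat_lit 6) .nil .nil))) 
(.lf (nat_lit 143793) (.g (nat_lit 2813) (.e (nat_lit 57365) (nat_lit 1) (.e (nat_lit 57852) (nat_lit 252) (.e (nat_lit 57412) (nat_lit 12) (.e (nat_lit 336060) (nat_lit 7) (.e (nat_lit 319533) (nat_lit 16) (.e (nat_lit 286753) (nat_lit 10) (.e (nat_lit 344097) (nat_lit 18) (.e (nat_lit 5194) (nat_lit 294) .nil)))))))) (.g (nat_lit 5) .nil .nil))))) (.nd (nat_lit 4) (.nd (nat_lit 5) 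
(.lf (nat_lit 143753) (.g (nat_lit 3356) (.e (nat_lit 57365) (nat_lit 1) (.e (nat_lit 57830) (nat_lit 250) (.e (nat_lit 1201) (nat_lit 88) (.e (nat_lit 65585) (nat_lit 7) (.e (nat_lit 319534) (nat_lit 16) (.e (nat_lit 286749) (nat_lit 9) (.e (nat_lit 335997) (nat_lit 1) (.e (nat_lit 57848) (nat_lit 252) .nil)))))))) (.g (nat_lit 6) .nil .nil))) 
(.lf (nat_lit 143785) (.g (nat_lit 2468) (.e (nat_lit 57365) (nat_lit 1) (.e (nat_lit 57852) (nat_lit 252) (.e (nat_lit 57404) (nat_lit 12) (.e (nat_lit 336054) (nat_lit 7) (.e (nat_lit 319534) (nat_lit 16) (.e (nat_lit 286756) (nat_lit 10) (.e (nat_lit 344097) (nat_lit 18) (.e (nat_lit 5194) (nat_lit 294) .nil)))))))) (.g (nat_lit 5) .nil .nil)))) (.nd (nat_lit 5) 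
(.lf (nat_lit 143769) (.g (nat_lit 2574) (.e (nat_lit 57365) (nat_lit 1) (.e (nat_lit 57851) (nat_lit 252) (.e (nat_lit 57412) (nat_lit 12) (.e (nat_lit 336061) (nat_lit 7) (.e (nat_lit 319531) (nat_lit 16) (.e (nat_lit 286742) (nat_lit 9) (.e (nat_lit 335997) (nat_lit 1) (.e (nat_lit 57846) (nat_lit 252) .nil)))))))) (.g (nat_lit 5) .nil .nil))) 
(.lf (nat_lit 143801) (.g (nat_lit 2783) (.e (nat_lit 57365) (nat_lit 1) (.e (nat_lit 57852) (nat_lit 252) (.e (nat_lit 57413) (nat_lit 12) (.e (nat_lit 336060) (nat_lit 7) (.e (nat_lit 319534) (nat_lit 16) (.e (nat_lit 286756) (nat_lit 10) (.e (nat_lit 344097) (nat_lit 18) (.e (nat_lit 5194) (nat_lit 294) .nil)))))))) (.g (nat_lit 5) .nil .nil)))))) 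
(.nd (nat_lit 3) (.nd (nat_lit 4) (.nd (nat_lit 5) 
(.lf (nat_lit 143749) (.g (nat_lit 2207) (.e (nat_lit 57365) (nat_lit 1) (.e (nat_lit 57731) (nat_lit 181) (.e (nat_lit 1211) (nat_lit 89) (.e (nat_lit 73755) (nat_lit 8) (.e (nat_lit 557097) (nat_lit 13) (.e (nat_lit 179968) (nat_lit 20) (.e (nat_lit 114710) (nat_lit 21) (.e (nat_lit 57847) (nat_lit 252) .nil)))))))) (.g (nat_lit 5) .nil .nil))) 
(.lf (nat_lit 143781) (.g (nat_lit 1735) (.e (nat_lit 57365) (nat_lit 1) (.e (nat_lit 57851) (nat_lit 252) (.e (nat_lit 57427) (nat_lit 15) (.e (nat_lit 360484) (nat_lit 15) (.e (nat_lit 647179) (nat_lit 2) .nil))))) .nil))) (.nd (nat_lit 5) 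
(.lf (nat_lit 143765) (.g (nat_lit 3400) (.e (nat_lit 57365) (nat_lit 1) (.e (nat_lit 57851) (nat_lit 252) (.e (nat_lit 57412) (nat_lit 12) (.e (nat_lit 336060) (nat_lit 7) (.e (nat_lit 319534) (nat_lit 16) (.e (nat_lit 286749) (nat_lit 9) (.e (nat_lit 335997) (nat_lit 1) (.e (nat_lit 57848) (nat_lit 252) .nil)))))))) (.g (nat_lit 0) .nil .nil))) 
(.lf (nat_lit 143797) (.g (nat_lit 2570) (.e (nat_lit 57365) (nat_lit 1) (.e (nat_lit 57852) (nat_lit 252) (.e (nat_lit 57412) (nat_lit 12) (.e (nat_lit 336061) (nat_lit 7) (.e (nat_lit 319534) (nat_lit 16) (.e (nat_lit 286756) (nat_lit 10) (.e (nat_lit 344097) (nat_lit 18) (.e (nat_lit 5194) (nat_lit 294) .nil)))))))) (.g (nat_lit 4) .nil .nil))))) (.nd (nat_lit 4) (.nd (nat_lit 5) 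
(.lf (nat_lit 143757) (.g (nat_lit 917) (.e (nat_lit 57365) (nat_lit 1) (.e (nat_lit 57851) (nat_lit 252) (.e (nat_lit 57389) (nat_lit 5) (.e (nat_lit 114723) (nat_lit 24) .nil)))) .nil)) 
(.lf (nat_lit 143789) (.g (nat_lit 2295) (.e (nat_lit 57365) (nat_lit 1) (.e (nat_lit 57852) (nat_lit 252) (.e (nat_lit 57406) (nat_lit 12) (.e (nat_lit 336360) (nat_lit 25) (.e (nat_lit 409648) (nat_lit 18) .nil))))) .nil))) (.nd (nat_lit 5) 
(.lf (nat_lit 143773) (.g (nat_lit 3711) (.e (nat_lit 57365) (nat_lit 1) (.e (nat_lit 57851) (nat_lit 252) (.e (nat_lit 57412) (nat_lit 12) (.e (nat_lit 336061) (nat_lit 7) (.e (nat_lit 319531) (nat_lit 16) (.e (nat_lit 286748) (nat_lit 9) (.e (nat_lit 335991) (nat_lit 1) (.e (nat_lit 57849) (nat_lit 252) .nil)))))))) (.g (nat_lit 8) .nil .nil))) 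
(.lf (nat_lit 143805) (.g (nat_lit 2191) (.e (nat_lit 57365) (nat_lit 1) (.e (nat_lit 57852) (nat_lit 252) (.e (nat_lit 57427) (nat_lit 15) (.e (nat_lit 360484) (nat_lit 15) (.e (nat_lit 647179) (nat_lit 2) .nil))))) .nil)))))) (.nd (nat_lit 2) (.nd (nat_lit 3) (.nd (nat_lit 4) (.nd (nat_lit 5) 
(.lf (nat_lit 143747) (.g (nat_lit 1616) (.e (nat_lit 57364) (nat_lit 1) (.e (nat_lit 57927) (nat_lit 282) (.e (nat_lit 163943) (nat_lit 19) (.e (nat_lit 483350) (nat_lit 17) .nil)))) .nil)) 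
(.lf (nat_lit 143779) (.g (nat_lit 2060) (.e (nat_lit 57365) (nat_lit 1) (.e (nat_lit 57851) (nat_lit 252) (.e (nat_lit 57413) (nat_lit 12) (.e (nat_lit 336060) (nat_lit 7) (.e (nat_lit 319534) (nat_lit 16) (.e (nat_lit 286749) (nat_lit 9) (.e (nat_lit 335997) (nat_lit 1) (.e (nat_lit 57848) (nat_lit 252) .nil)))))))) (.g (nat_lit 5) .nil .nil)))) (.nd (nat_lit 5) 
(.lf (nat_lit 143763) (.g (nat_lit 3800) (.e (nat_lit 57365) (nat_lit 1) (.e (nat_lit 57851) (nat_lit 252) (.e (nat_lit 57412) (nat_lit 12) (.e (nat_lit 336058) (nat_lit 7) (.e (nat_lit 319534) (nat_lit 16) (.e (nat_lit 286749) (nat_lit 9) (.e (nat_lit 335997) (nat_lit 1) (.e (nat_lit 57848) (nat_lit 252) .nil)))))))) (.g (nat_lit 0) .nil .nil))) 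
(.lf (nat_lit 143795) (.g (nat_lit 1959) (.e (nat_lit 57365) (nat_lit 1) (.e (nat_lit 57852) (nat_lit 252) (.e (nat_lit 57412) (nat_lit 12) (.e (nat_lit 336061) (nat_lit 7) (.e (nat_lit 319531) (nat_lit 16) .nil))))) .nil)))) (.nd (nat_lit 4) (.nd (nat_lit 5) 
(.lf (nat_lit 143755) (.g (nat_lit 1261) (.e (nat_lit 57365) (nat_lit 1) (.e (nat_lit 57830) (nat_lit 250) (.e (nat_lit 1201) (nat_lit 88) (.e (nat_lit 65617) (nat_lit 10) (.e (nat_lit 344164) (nat_lit 37) .nil))))) .nil)) 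
(.lf (nat_lit 143787) (.g (nat_lit 3235) (.e (nat_lit 57365) (nat_lit 1) (.e (nat_lit 57852) (nat_lit 252) (.e (nat_lit 57404) (nat_lit 12) (.e (nat_lit 336060) (nat_lit 7) (.e (nat_lit 319534) (nat_lit 16) (.e (nat_lit 286749) (nat_lit 9) (.e (nat_lit 335997) (nat_lit 1) (.e (nat_lit 57848) (nat_lit 252) .nil)))))))) (.g (nat_lit 7) .nil .nil)))) (.nd (nat_lit 5) 
(.lf (nat_lit 143771) (.g (nat_lit 2872) (.e (nat_lit 57365) (nat_lit 1) (.e (nat_lit 57851) (nat_lit 252) (.e (nat_lit 57412) (nat_lit 12) (.e (nat_lit 336061) (nat_lit 7) (.e (nat_lit 319531) (nat_lit 16) (.e (nat_lit 286745) (nat_lit 9) (.e (nat_lit 335992) (nat_lit 1) (.e (nat_lit 57849) (nat_lit 252) .nil)))))))) (.g (nat_lit 5) .nil .nil))) 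
(.lf (nat_lit 143803) (.g (nat_lit 2910) (.e (nat_lit 57365) (nat_lit 1) (.e (nat_lit 57852) (nat_lit 252) (.e (nat_lit 57419) (nat_lit 12) (.e (nat_lit 336059) (nat_lit 7) (.e (nat_lit 319533) (nat_lit 16) (.e (nat_lit 286753) (nat_lit 10) (.e (nat_lit 344097) (nat_lit 18) (.e (nat_lit 5194) (nat_lit 294) .nil)))))))) (.g (nat_lit 6) .nil .nil)))))) 
(.nd (nat_lit 3) (.nd (nat_lit 4) (.nd (nat_lit 5) 
(.lf (nat_lit 143751) (.g (nat_lit 2683) (.e (nat_lit 57365) (nat_lit 1) (.e (nat_lit 57829) (nat_lit 250) (.e (nat_lit 1201) (nat_lit 88) (.e (nat_lit 65586) (nat_lit 7) (.e (nat_lit 319531) (nat_lit 16) (.e (nat_lit 286748) (nat_lit 9) (.e (nat_lit 335938) (nat_lit 0) (.e (nat_lit 1023) (nat_lit 81) (.e (nat_lit 5195) (nat_lit 294) .nil))))))))) (.g (nat_lit 6) .nil .nil))) 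
(.lf (nat_lit 143783) (.g (nat_lit 1919) (.e (nat_lit 57365) (nat_lit 1) (.e (nat_lit 57852) (nat_lit 252) (.e (nat_lit 57373) (nat_lit 2) (.e (nat_lit 98048) (nat_lit 6) .nil)))) .nil))) (.nd (nat_lit 5) 
(.lf (nat_lit 143767) (.g (nat_lit 1622) (.e (nat_lit 57365) (nat_lit 1) (.e (nat_lit 57851) (nat_lit 252) (.e (nat_lit 57412) (nat_lit 12) (.e (nat_lit 336061) (nat_lit 7) (.e (nat_lit 319528) (nat_lit 16) (.e (nat_lit 286749) (nat_lit 9) (.e (nat_lit 335997) (nat_lit 1) (.e (nat_lit 57848) (nat_lit 252) .nil)))))))) (.g (nat_lit 4) .nil .nil))) 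
(.lf (nat_lit 143799) (.g (nat_lit 1748) (.e (nat_lit 57365) (nat_lit 1) (.e (nat_lit 57852) (nat_lit 252) (.e (nat_lit 57413) (nat_lit 12) (.e (nat_lit 336060) (nat_lit 7) (.e (nat_lit 319534) (nat_lit 16) .nil))))) .nil)))) (.nd (nat_lit 4) (.nd (nat_lit 5) 
(.lf (nat_lit 143759) (.g (nat_lit 4302) (.e (nat_lit 57365) (nat_lit 1) (.e (nat_lit 57851) (nat_lit 252) (.e (nat_lit 57406) (nat_lit 12) (.e (nat_lit 336326) (nat_lit 18) (.e (nat_lit 204869) (nat_lit 29) (.e (nat_lit 360451) (nat_lit 0) (.e (nat_lit 7695) (nat_lit 412) .nil))))))) (.g (nat_lit 6) .nil .nil))) 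
(.lf (nat_lit 143791) (.g (nat_lit 1864) (.e (nat_lit 57365) (nat_lit 1) (.e (nat_lit 57852) (nat_lit 252) (.e (nat_lit 57406) (nat_lit 12) (.e (nat_lit 336445) (nat_lit 33) .nil)))) .nil))) (.nd (nat_lit 5) 
(.lf (nat_lit 143775) (.g (nat_lit 4405) (.e (nat_lit 57365) (nat_lit 1) (.e (nat_lit 57851) (nat_lit 252) (.e (nat_lit 57412) (nat_lit 12) (.e (nat_lit 336061) (nat_lit 7) (.e (nat_lit 319531) (nat_lit 16) (.e (nat_lit 286749) (nat_lit 9) (.e (nat_lit 335997) (nat_lit 1) (.e (nat_lit 57848) (nat_lit 252) .nil)))))))) (.g (nat_lit 0) .nil .nil))) 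
(.lf (nat_lit 143807) (.g (nat_lit 2991) (.e (nat_lit 57365) (nat_lit 1) (.e (nat_lit 57854) (nat_lit 252) (.e (nat_lit 57373) (nat_lit 2) (.e (nat_lit 90162) (nat_lit 12) .nil)))) .nil))))))))

noncomputable def tv1907 : DT := (.nd (nat_lit 0) (.nd (nat_lit 1) (.nd (nat_lit 2) (.nd (nat_lit 3) (.nd (nat_lit 4) (.nd (nat_lit 5) 
(.lf (nat_lit 143808) (.g (nat_lit 1228) (.e (nat_lit 57365) (nat_lit 1) (.e (nat_lit 57854) (nat_lit 252) (.e (nat_lit 57378) (nat_lit 3) (.e (nat_lit 98341) (nat_lit 20) .nil)))) .nil)) 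
(.lf (nat_lit 143840) (.g (nat_lit 2402) (.e (nat_lit 57365) (nat_lit 1) (.e (nat_lit 57854) (nat_lit 252) (.e (nat_lit 57412) (nat_lit 12) (.e (nat_lit 336060) (nat_lit 7) (.e (nat_lit 319534) (nat_lit 16) (.e (nat_lit 286749) (nat_lit 9) (.e (nat_lit 335997) (nat_lit 1) (.e (nat_lit 57848) (nat_lit 252) .nil)))))))) (.g (nat_lit 4) .nil .nil)))) (.nd (nat_lit 5) 
(.lf (nat_lit 143824) (.g (nat_lit 3375) (.e (nat_lit 57365) (nat_lit 1) (.e (nat_lit 57854) (nat_lit 252) (.e (nat_lit 57406) (nat_lit 12) (.e (nat_lit 336446) (nat_lit 33) (.e (nat_lit 475214) (nat_lit 42) (.e (nat_lit 720955) (nat_lit 25) (.e (nat_lit 114711) (nat_lit 21) (.e (nat_lit 57847) (nat_lit 252) .nil)))))))) (.g (nat_lit 6) .nil .nil))) 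
(.lf (nat_lit 143856) (.g (nat_lit 2353) (.e (nat_lit 57365) (nat_lit 1) (.e (nat_lit 57854) (nat_lit 252) (.e (nat_lit 57440) (nat_lit 18) (.e (nat_lit 385068) (nat_lit 26) (.e (nat_lit 532551) (nat_lit 12) .nil))))) .nil)))) (.nd (nat_lit 4) (.nd (nat_lit 5) 
(.lf (nat_lit 143816) (.g (nat_lit 1895) (.e (nat_lit 57365) (nat_lit 1) (.e (nat_lit 57854) (nat_lit 252) (.e (nat_lit 57404) (nat_lit 12) (.e (nat_lit 336054) (nat_lit 7) (.e (nat_lit 319533) (nat_lit 16) (.e (nat_lit 286753) (nat_lit 10) (.e (nat_lit 344097) (nat_lit 18) (.e (nat_lit 5195) (nat_lit 294) .nil)))))))) (.g (nat_lit 5) .nil .nil))) 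
(.lf (nat_lit 143848) (.g (nat_lit 2697) (.e (nat_lit 57365) (nat_lit 1) (.e (nat_lit 57854) (nat_lit 252) (.e (nat_lit 57414) (nat_lit 12) (.e (nat_lit 336060) (nat_lit 7) (.e (nat_lit 319534) (nat_lit 16) (.e (nat_lit 286749) (nat_lit 9) (.e (nat_lit 335997) (nat_lit 1) (.e (nat_lit 57848) (nat_lit 252) .nil)))))))) (.g (nat_lit 5) .nil .nil)))) (.nd (nat_lit 5) 
(.lf (nat_lit 143832) (.g (nat_lit 1293) (.e (nat_lit 57365) (nat_lit 1) (.e (nat_lit 57854) (nat_lit 252) (.e (nat_lit 57409) (nat_lit 12) (.e (nat_lit 336326) (nat_lit 18) (.e (nat_lit 204870) (nat_lit 29) .nil))))) .nil)) 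
(.lf (nat_lit 143864) (.g (nat_lit 2567) (.e (nat_lit 57365) (nat_lit 1) (.e (nat_lit 57854) (nat_lit 252) (.e (nat_lit 57447) (nat_lit 19) (.e (nat_lit 393234) (nat_lit 17) (.e (nat_lit 2412) (nat_lit 157) .nil))))) .nil))))) (.nd (nat_lit 3) (.nd (nat_lit 4) (.nd (nat_lit 5) 
(.lf (nat_lit 143812) (.g (nat_lit 2051) (.e (nat_lit 57365) (nat_lit 1) (.e (nat_lit 57854) (nat_lit 252) (.e (nat_lit 57378) (nat_lit 3) (.e (nat_lit 98342) (nat_lit 20) (.e (nat_lit 221207) (nat_lit 21) .nil))))) .nil)) 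
(.lf (nat_lit 143844) (.g (nat_lit 2914) (.e (nat_lit 57365) (nat_lit 1) (.e (nat_lit 57854) (nat_lit 252) (.e (nat_lit 57413) (nat_lit 12) (.e (nat_lit 336060) (nat_lit 7) (.e (nat_lit 319534) (nat_lit 16) (.e (nat_lit 286749) (nat_lit 9) (.e (nat_lit 335997) (nat_lit 1) (.e (nat_lit 57848) (nat_lit 252) .nil)))))))) (.g (nat_lit 5) .nil .nil)))) (.nd (nat_lit 5) 
(.lf (nat_lit 143828) (.g (nat_lit 1769) (.e (nat_lit 57365) (nat_lit 1) (.e (nat_lit 57854) (nat_lit 252) (.e (nat_lit 57409) (nat_lit 12) (.e (nat_lit 336182) (nat_lit 11) .nil)))) .nil)) 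
(.lf (nat_lit 143860) (.g (nat_lit 2553) (.e (nat_lit 57365) (nat_lit 1) (.e (nat_lit 57854) (nat_lit 252) (.e (nat_lit 57447) (nat_lit 19) (.e (nat_lit 393234) (nat_lit 17) (.e (nat_lit 2398) (nat_lit 157) .nil))))) .nil)))) (.nd (nat_lit 4) (.nd (nat_lit 5) 
(.lf (nat_lit 143820) (.g (nat_lit 1854) (.e (nat_lit 57365) (nat_lit 1) (.e (nat_lit 57854) (nat_lit 252) (.e (nat_lit 57406) (nat_lit 12) (.e (nat_lit 336326) (nat_lit 18) (.e (nat_lit 204870) (nat_lit 29) .nil))))) .nil)) 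
(.lf (nat_lit 143852) (.g (nat_lit 1585) (.e (nat_lit 57365) (nat_lit 1) (.e (nat_lit 57854) (nat_lit 252) (.e (nat_lit 57426) (nat_lit 15) (.e (nat_lit 360482) (nat_lit 15) .nil)))) .nil))) (.nd (nat_lit 5) 
(.lf (nat_lit 143836) (.g (nat_lit 3500) (.e (nat_lit 57365) (nat_lit 1) (.e (nat_lit 57854) (nat_lit 252) (.e (nat_lit 57409) (nat_lit 12) (.e (nat_lit 336446) (nat_lit 33) (.e (nat_lit 475214) (nat_lit 42) (.e (nat_lit 720955) (nat_lit 25) (.e (nat_lit 114711) (nat_lit 21) (.e (nat_lit 57847) (nat_lit 252) .nil)))))))) (.g (nat_lit 6) .nil .nil))) 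
(.lf (nat_lit 143868) (.g (nat_lit 3070) (.e (nat_lit 57366) (nat_lit 1) (.e (nat_lit 57830) (nat_lit 250) (.e (nat_lit 1201) (nat_lit 88) (.e (nat_lit 65586) (nat_lit 7) (.e (nat_lit 319531) (nat_lit 16) (.e (nat_lit 286748) (nat_lit 9) (.e (nat_lit 335925) (nat_lit 0) (.e (nat_lit 1043) (nat_lit 81) (.e (nat_lit 5205) (nat_lit 294) .nil))))))))) (.g (nat_lit 7) .nil .nil))))))) 
(.nd (nat_lit 2) (.nd (nat_lit 3) (.nd (nat_lit 4) (.nd (nat_lit 5) 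
(.lf (nat_lit 143810) (.g (nat_lit 2044) (.e (nat_lit 57365) (nat_lit 1) (.e (nat_lit 57854) (nat_lit 252) (.e (nat_lit 57378) (nat_lit 3) (.e (nat_lit 98341) (nat_lit 20) (.e (nat_lit 221206) (nat_lit 21) .nil))))) .nil)) 
(.lf (nat_lit 143842) (.g (nat_lit 2463) (.e (nat_lit 57365) (nat_lit 1) (.e (nat_lit 57854) (nat_lit 252) (.e (nat_lit 57412) (nat_lit 12) (.e (nat_lit 336061) (nat_lit 7) (.e (nat_lit 319534) (nat_lit 16) (.e (nat_lit 286756) (nat_lit 10) (.e (nat_lit 344097) (nat_lit 18) (.e (nat_lit 5194) (nat_lit 294) .nil)))))))) (.g (nat_lit 4) .nil .nil)))) (.nd (nat_lit 5) 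
(.lf (nat_lit 143826) (.g (nat_lit 1833) (.e (nat_lit 57365) (nat_lit 1) (.e (nat_lit 57854) (nat_lit 252) (.e (nat_lit 57409) (nat_lit 12) (.e (nat_lit 335878) (nat_lit 0) .nil)))) .nil)) 
(.lf (nat_lit 143858) (.g (nat_lit 1570) (.e (nat_lit 57365) (nat_lit 1) (.e (nat_lit 57854) (nat_lit 252) (.e (nat_lit 57445) (nat_lit 19) (.e (nat_lit 393223) (nat_lit 0) .nil)))) .nil)))) (.nd (nat_lit 4) (.nd (nat_lit 5) 
(.lf (nat_lit 143818) (.g (nat_lit 1393) (.e (nat_lit 57365) (nat_lit 1) (.e (nat_lit 57854) (nat_lit 252) (.e (nat_lit 57405) (nat_lit 12) (.e (nat_lit 336240) (nat_lit 15) (.e (nat_lit 3453) (nat_lit 216) .nil))))) .nil)) 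
(.lf (nat_lit 143850) (.g (nat_lit 905) (.e (nat_lit 57365) (nat_lit 1) (.e (nat_lit 57854) (nat_lit 252) (.e (nat_lit 57426) (nat_lit 15) .nil))) .nil))) (.nd (nat_lit 5) 
(.lf (nat_lit 143834) (.g (nat_lit 4558) (.e (nat_lit 57365) (nat_lit 1) (.e (nat_lit 57854) (nat_lit 252) (.e (nat_lit 57409) (nat_lit 12) (.e (nat_lit 336360) (nat_lit 25) (.e (nat_lit 409649) (nat_lit 18) (.e (nat_lit 303140) (nat_lit 10) (.e (nat_lit 434209) (nat_lit 18) (.e (nat_lit 6391) (nat_lit 339) .nil)))))))) (.g (nat_lit 7) .nil .nil))) 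
(.lf (nat_lit 143866) (.g (nat_lit 1717) (.e (nat_lit 57365) (nat_lit 1) (.e (nat_lit 57854) (nat_lit 252) (.e (nat_lit 57447) (nat_lit 19) (.e (nat_lit 393253) (nat_lit 18) .nil)))) .nil))))) (.nd (nat_lit 3) (.nd (nat_lit 4) (.nd (nat_lit 5) 
(.lf (nat_lit 143814) (.g (nat_lit 1749) (.e (nat_lit 57365) (nat_lit 1) (.e (nat_lit 57854) (nat_lit 252) (.e (nat_lit 57389) (nat_lit 5) (.e (nat_lit 114722) (nat_lit 24) (.e (nat_lit 106536) (nat_lit 11) .nil))))) .nil)) 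
(.lf (nat_lit 143846) (.g (nat_lit 2394) (.e (nat_lit 57365) (nat_lit 1) (.e (nat_lit 57854) (nat_lit 252) (.e (nat_lit 57414) (nat_lit 12) (.e (nat_lit 336054) (nat_lit 7) (.e (nat_lit 319534) (nat_lit 16) (.e (nat_lit 286749) (nat_lit 9) (.e (nat_lit 335997) (nat_lit 1) (.e (nat_lit 57848) (nat_lit 252) .nil)))))))) (.g (nat_lit 5) .nil .nil)))) (.nd (nat_lit 5) 
(.lf (nat_lit 143830) (.g (nat_lit 2288) (.e (nat_lit 57365) (nat_lit 1) (.e (nat_lit 57854) (nat_lit 252) (.e (nat_lit 57409) (nat_lit 12) (.e (nat_lit 336240) (nat_lit 15) (.e (nat_lit 3453) (nat_lit 216) .nil))))) .nil)) 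
(.lf (nat_lit 143862) (.g (nat_lit 2569) (.e (nat_lit 57365) (nat_lit 1) (.e (nat_lit 57854) (nat_lit 252) (.e (nat_lit 57447) (nat_lit 19) (.e (nat_lit 393234) (nat_lit 17) (.e (nat_lit 2407) (nat_lit 157) .nil))))) .nil)))) (.nd (nat_lit 4) (.nd (nat_lit 5) 
(.lf (nat_lit 143822) (.g (nat_lit 4471) (.e (nat_lit 57365) (nat_lit 1) (.e (nat_lit 57854) (nat_lit 252) (.e (nat_lit 57406) (nat_lit 12) (.e (nat_lit 336360) (nat_lit 25) (.e (nat_lit 409649) (nat_lit 18) (.e (nat_lit 303132) (nat_lit 9) (.e (nat_lit 426109) (nat_lit 1) (.e (nat_lit 164177) (nat_lit 154) .nil)))))))) (.g (nat_lit 7) .nil .nil))) 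
(.lf (nat_lit 143854) (.g (nat_lit 905) (.e (nat_lit 57365) (nat_lit 1) (.e (nat_lit 57854) (nat_lit 252) (.e (nat_lit 57428) (nat_lit 15) .nil))) .nil))) (.nd (nat_lit 5) 
(.lf (nat_lit 143838) (.g (nat_lit 1594) (.e (nat_lit 57365) (nat_lit 1) (.e (nat_lit 57854) (nat_lit 252) (.e (nat_lit 57412) (nat_lit 12) (.e (nat_lit 336060) (nat_lit 7) .nil)))) .nil)) 
(.lf (nat_lit 143870) (.g (nat_lit 1330) (.e (nat_lit 57366) (nat_lit 1) (.e (nat_lit 57847) (nat_lit 252) (.e (nat_lit 57407) (nat_lit 12) (.e (nat_lit 336446) (nat_lit 33) .nil)))) .nil))))))) (.nd (nat_lit 1) (.nd (nat_lit 2) (.nd (nat_lit 3) (.nd (nat_lit 4) (.nd (nat_lit 5) 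
(.lf (nat_lit 143809) (.g (nat_lit 1626) (.e (nat_lit 57365) (nat_lit 1) (.e (nat_lit 57854) (nat_lit 252) (.e (nat_lit 57378) (nat_lit 3) (.e (nat_lit 98341) (nat_lit 20) (.e (nat_lit 229120) (nat_lit 18) (.e (nat_lit 393251) (nat_lit 18) (.e (nat_lit 164179) (nat_lit 154) .nil))))))) (.g (nat_lit 4) .nil .nil))) 
(.lf (nat_lit 143841) (.g (nat_lit 1908) (.e (nat_lit 57365) (nat_lit 1) (.e (nat_lit 57854) (nat_lit 252) (.e (nat_lit 57412) (nat_lit 12) (.e (nat_lit 336061) (nat_lit 7) (.e (nat_lit 319531) (nat_lit 16) .nil))))) .nil))) (.nd (nat_lit 5) 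
(.lf (nat_lit 143825) (.g (nat_lit 475) (.e (nat_lit 57365) (nat_lit 1) (.e (nat_lit 57854) (nat_lit 252) (.e (nat_lit 57409) (nat_lit 12) .nil))) .nil)) 
(.lf (nat_lit 143857) (.g (nat_lit 1571) (.e (nat_lit 57365) (nat_lit 1) (.e (nat_lit 57854) (nat_lit 252) (.e (nat_lit 57445) (nat_lit 19) (.e (nat_lit 393222) (nat_lit 0) .nil)))) .nil)))) (.nd (nat_lit 4) (.nd (nat_lit 5) 
(.lf (nat_lit 143817) (.g (nat_lit 2702) (.e (nat_lit 57365) (nat_lit 1) (.e (nat_lit 57854) (nat_lit 252) (.e (nat_lit 57404) (nat_lit 12) (.e (nat_lit 336060) (nat_lit 7) (.e (nat_lit 319534) (nat_lit 16) (.e (nat_lit 286749) (nat_lit 9) (.e (nat_lit 335997) (nat_lit 1) (.e (nat_lit 57848) (nat_lit 252) .nil)))))))) (.g (nat_lit 6) .nil .nil))) 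
(.lf (nat_lit 143849) (.g (nat_lit 3321) (.e (nat_lit 57365) (nat_lit 1) (.e (nat_lit 57854) (nat_lit 252) (.e (nat_lit 57414) (nat_lit 12) (.e (nat_lit 336060) (nat_lit 7) (.e (nat_lit 319534) (nat_lit 16) (.e (nat_lit 286756) (nat_lit 10) (.e (nat_lit 344097) (nat_lit 18) (.e (nat_lit 5195) (nat_lit 294) .nil)))))))) (.g (nat_lit 7) .nil .nil)))) (.nd (nat_lit 5) 
(.lf (nat_lit 143833) (.g (nat_lit 4724) (.e (nat_lit 57365) (nat_lit 1) (.e (nat_lit 57854) (nat_lit 252) (.e (nat_lit 57409) (nat_lit 12) (.e (nat_lit 336360) (nat_lit 25) (.e (nat_lit 409649) (nat_lit 18) (.e (nat_lit 303132) (nat_lit 9) (.e (nat_lit 426109) (nat_lit 1) (.e (nat_lit 164177) (nat_lit 154) .nil)))))))) (.g (nat_lit 0) .nil .nil))) 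
(.lf (nat_lit 143865) (.g (nat_lit 2485) (.e (nat_lit 57365) (nat_lit 1) (.e (nat_lit 57854) (nat_lit 252) (.e (nat_lit 57447) (nat_lit 19) (.e (nat_lit 393238) (nat_lit 17) (.e (nat_lit 2400) (nat_lit 157) .nil))))) .nil))))) (.nd (nat_lit 3) (.nd (nat_lit 4) (.nd (nat_lit 5) 
(.lf (nat_lit 143813) (.g (nat_lit 1563) (.e (nat_lit 57365) (nat_lit 1) (.e (nat_lit 57854) (nat_lit 252) (.e (nat_lit 57389) (nat_lit 5) (.e (nat_lit 114722) (nat_lit 24) .nil)))) .nil)) 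
(.lf (nat_lit 143845) (.g (nat_lit 2235) (.e (nat_lit 57365) (nat_lit 1) (.e (nat_lit 57854) (nat_lit 252) (.e (nat_lit 57414) (nat_lit 12) (.e (nat_lit 336054) (nat_lit 7) (.e (nat_lit 319533) (nat_lit 16) (.e (nat_lit 286753) (nat_lit 10) (.e (nat_lit 344097) (nat_lit 18) (.e (nat_lit 5195) (nat_lit 294) .nil)))))))) (.g (nat_lit 6) .nil .nil)))) (.nd (nat_lit 5) 
(.lf (nat_lit 143829) (.g (nat_lit 1725) (.e (nat_lit 57365) (nat_lit 1) (.e (nat_lit 57854) (nat_lit 252) (.e (nat_lit 57409) (nat_lit 12) (.e (nat_lit 336240) (nat_lit 15) .nil)))) .nil)) 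
(.lf (nat_lit 143861) (.g (nat_lit 2578) (.e (nat_lit 57365) (nat_lit 1) (.e (nat_lit 57854) (nat_lit 252) (.e (nat_lit 57447) (nat_lit 19) (.e (nat_lit 393234) (nat_lit 17) (.e (nat_lit 2398) (nat_lit 157) (.e (nat_lit 5570) (nat_lit 308) (.e (nat_lit 57390) (nat_lit 5) (.e (nat_lit 114711) (nat_lit 21) (.e (nat_lit 57847) (nat_lit 252) .nil))))))))) (.g (nat_lit 4) .nil .nil))))) 
(.nd (nat_lit 4) (.nd (nat_lit 5) 
(.lf (nat_lit 143821) (.g (nat_lit 2887) (.e (nat_lit 57365) (nat_lit 1) (.e (nat_lit 57854) (nat_lit 252) (.e (nat_lit 57406) (nat_lit 12) (.e (nat_lit 336360) (nat_lit 25) (.e (nat_lit 409648) (nat_lit 18) (.e (nat_lit 303137) (nat_lit 10) (.e (nat_lit 434209) (nat_lit 18) (.e (nat_lit 6391) (nat_lit 339) .nil)))))))) (.g (nat_lit 6) .nil .nil))) 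
(.lf (nat_lit 143853) (.g (nat_lit 1585) (.e (nat_lit 57365) (nat_lit 1) (.e (nat_lit 57854) (nat_lit 252) (.e (nat_lit 57426) (nat_lit 15) (.e (nat_lit 360484) (nat_lit 15) .nil)))) .nil))) (.nd (nat_lit 5) 
(.lf (nat_lit 143837) (.g (nat_lit 1749) (.e (nat_lit 57365) (nat_lit 1) (.e (nat_lit 57854) (nat_lit 252) (.e (nat_lit 57409) (nat_lit 12) (.e (nat_lit 336448) (nat_lit 33) .nil)))) .nil)) 
(.lf (nat_lit 143869) (.g (nat_lit 636) (.e (nat_lit 57366) (nat_lit 1) (.e (nat_lit 57847) (nat_lit 252) (.e (nat_lit 57379) (nat_lit 3) .nil))) .nil)))))) (.nd (nat_lit 2) (.nd (nat_lit 3) (.nd (nat_lit 4) (.nd (nat_lit 5) 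
(.lf (nat_lit 143811) (.g (nat_lit 2162) (.e (nat_lit 57365) (nat_lit 1) (.e (nat_lit 57854) (nat_lit 252) (.e (nat_lit 57378) (nat_lit 3) (.e (nat_lit 98341) (nat_lit 20) (.e (nat_lit 221207) (nat_lit 21) (.e (nat_lit 164179) (nat_lit 154) (.e (nat_lit 57390) (nat_lit 5) (.e (nat_lit 114711) (nat_lit 21) (.e (nat_lit 57847) (nat_lit 252) .nil))))))))) (.g (nat_lit 4) .nil .nil))) 
(.lf (nat_lit 143843) (.g (nat_lit 2667) (.e (nat_lit 57365) (nat_lit 1) (.e (nat_lit 57854) (nat_lit 252) (.e (nat_lit 57413) (nat_lit 12) (.e (nat_lit 336060) (nat_lit 7) (.e (nat_lit 319533) (nat_lit 16) (.e (nat_lit 286753) (nat_lit 10) (.e (nat_lit 344097) (nat_lit 18) (.e (nat_lit 5194) (nat_lit 294) .nil)))))))) (.g (nat_lit 5) .nil .nil)))) (.nd (nat_lit 5) 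
(.lf (nat_lit 143827) (.g (nat_lit 3941) (.e (nat_lit 57365) (nat_lit 1) (.e (nat_lit 57854) (nat_lit 252) (.e (nat_lit 57409) (nat_lit 12) (.e (nat_lit 336053) (nat_lit 7) (.e (nat_lit 319534) (nat_lit 16) (.e (nat_lit 286749) (nat_lit 9) (.e (nat_lit 335997) (nat_lit 1) (.e (nat_lit 57848) (nat_lit 252) .nil)))))))) (.g (nat_lit 7) .nil .nil))) 
(.lf (nat_lit 143859) (.g (nat_lit 1727) (.e (nat_lit 57365) (nat_lit 1) (.e (nat_lit 57854) (nat_lit 252) (.e (nat_lit 57447) (nat_lit 19) (.e (nat_lit 393223) (nat_lit 0) .nil)))) .nil)))) (.nd (nat_lit 4) (.nd (nat_lit 5) 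
(.lf (nat_lit 143819) (.g (nat_lit 4846) (.e (nat_lit 57365) (nat_lit 1) (.e (nat_lit 57854) (nat_lit 252) (.e (nat_lit 57406) (nat_lit 12) (.e (nat_lit 336326) (nat_lit 18) (.e (nat_lit 204869) (nat_lit 29) (.e (nat_lit 360450) (nat_lit 0) (.e (nat_lit 7695) (nat_lit 412) .nil))))))) (.g (nat_lit 6) .nil .nil))) 
(.lf (nat_lit 143851) (.g (nat_lit 1585) (.e (nat_lit 57365) (nat_lit 1) (.e (nat_lit 57854) (nat_lit 252) (.e (nat_lit 57426) (nat_lit 15) (.e (nat_lit 360478) (nat_lit 12) .nil)))) .nil))) (.nd (nat_lit 5) 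
(.lf (nat_lit 143835) (.g (nat_lit 3385) (.e (nat_lit 57365) (nat_lit 1) (.e (nat_lit 57854) (nat_lit 252) (.e (nat_lit 57409) (nat_lit 12) (.e (nat_lit 336445) (nat_lit 33) (.e (nat_lit 475214) (nat_lit 42) (.e (nat_lit 720955) (nat_lit 25) (.e (nat_lit 114711) (nat_lit 21) (.e (nat_lit 57847) (nat_lit 252) .nil)))))))) (.g (nat_lit 5) .nil .nil))) 
(.lf (nat_lit 143867) (.g (nat_lit 1717) (.e (nat_lit 57365) (nat_lit 1) (.e (nat_lit 57854) (nat_lit 252) (.e (nat_lit 57447) (nat_lit 19) (.e (nat_lit 393255) (nat_lit 19) .nil)))) .nil))))) (.nd (nat_lit 3) (.nd (nat_lit 4) (.nd (nat_lit 5) 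
(.lf (nat_lit 143815) (.g (nat_lit 957) (.e (nat_lit 57365) (nat_lit 1) (.e (nat_lit 57854) (nat_lit 252) (.e (nat_lit 57389) (nat_lit 5) (.e (nat_lit 114723) (nat_lit 24) .nil)))) .nil)) 
(.lf (nat_lit 143847) (.g (nat_lit 2419) (.e (nat_lit 57365) (nat_lit 1) (.e (nat_lit 57854) (nat_lit 252) (.e (nat_lit 57414) (nat_lit 12) (.e (nat_lit 336056) (nat_lit 7) (.e (nat_lit 319533) (nat_lit 16) (.e (nat_lit 286753) (nat_lit 10) (.e (nat_lit 344097) (nat_lit 18) (.e (nat_lit 5194) (nat_lit 294) .nil)))))))) (.g (nat_lit 5) .nil .nil)))) (.nd (nat_lit 5) 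
(.lf (nat_lit 143831) (.g (nat_lit 2305) (.e (nat_lit 57365) (nat_lit 1) (.e (nat_lit 57854) (nat_lit 252) (.e (nat_lit 57409) (nat_lit 12) (.e (nat_lit 336240) (nat_lit 15) (.e (nat_lit 3455) (nat_lit 216) .nil))))) .nil)) 
(.lf (nat_lit 143863) (.g (nat_lit 2421) (.e (nat_lit 57365) (nat_lit 1) (.e (nat_lit 57854) (nat_lit 252) (.e (nat_lit 57447) (nat_lit 19) (.e (nat_lit 393234) (nat_lit 17) (.e (nat_lit 2411) (nat_lit 157) .nil))))) .nil)))) (.nd (nat_lit 4) (.nd (nat_lit 5) 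
(.lf (nat_lit 143823) (.g (nat_lit 3080) (.e (nat_lit 57365) (nat_lit 1) (.e (nat_lit 57854) (nat_lit 252) (.e (nat_lit 57406) (nat_lit 12) (.e (nat_lit 336445) (nat_lit 33) (.e (nat_lit 475214) (nat_lit 42) (.e (nat_lit 720955) (nat_lit 25) (.e (nat_lit 114711) (nat_lit 21) (.e (nat_lit 57847) (nat_lit 252) .nil)))))))) (.g (nat_lit 5) .nil .nil))) 
(.lf (nat_lit 143855) (.g (nat_lit 905) (.e (nat_lit 57365) (nat_lit 1) (.e (nat_lit 57854) (nat_lit 252) (.e (nat_lit 57433) (nat_lit 16) .nil))) .nil))) (.nd (nat_lit 5) 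
(.lf (nat_lit 143839) (.g (nat_lit 2823) (.e (nat_lit 57365) (nat_lit 1) (.e (nat_lit 57854) (nat_lit 252) (.e (nat_lit 57412) (nat_lit 12) (.e (nat_lit 336060) (nat_lit 7) (.e (nat_lit 319533) (nat_lit 16) (.e (nat_lit 286753) (nat_lit 10) (.e (nat_lit 344097) (nat_lit 18) (.e (nat_lit 5195) (nat_lit 294) .nil)))))))) (.g (nat_lit 5) .nil .nil))) 
(.lf (nat_lit 143871) (.g (nat_lit 2109) (.e (nat_lit 57366) (nat_lit 1) (.e (nat_lit 57847) (nat_lit 252) (.e (nat_lit 57411) (nat_lit 12) (.e (nat_lit 336310) (nat_lit 16) (.e (nat_lit 164179) (nat_lit 154) .nil))))) .nil))))))))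

noncomputable def tv1908 : DT := (.nd (nat_lit 0) (.nd (nat_lit 1) (.nd (nat_lit 2) (.nd (nat_lit 3) (.nd (nat_lit 4) (.nd (nat_lit 5) 
(.lf (nat_lit 143872) (.g (nat_lit 918) (.e (nat_lit 57366) (nat_lit 1) (.e (nat_lit 57847) (nat_lit 252) (.e (nat_lit 57435) (nat_lit 17) (.e (nat_lit 384768) (nat_lit 13) .nil)))) .nil)) 
(.lf (nat_lit 143904) (.g (nat_lit 4345) (.e (nat_lit 57367) (nat_lit 1) (.e (nat_lit 57844) (nat_lit 252) (.e (nat_lit 57412) (nat_lit 12) (.e (nat_lit 336058) (nat_lit 7) (.e (nat_lit 319534) (nat_lit 16) (.e (nat_lit 286756) (nat_lit 10) (.e (nat_lit 344097) (nat_lit 18) (.e (nat_lit 5195) (nat_lit 294) .nil)))))))) (.g (nat_lit 8) .nil .nil)))) (.nd (nat_lit 5) 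
(.lf (nat_lit 143888) (.g (nat_lit 2895) (.e (nat_lit 57366) (nat_lit 1) (.e (nat_lit 57854) (nat_lit 252) (.e (nat_lit 57373) (nat_lit 2) (.e (nat_lit 98048) (nat_lit 6) .nil)))) .nil)) 
(.lf (nat_lit 143920) (.g (nat_lit 3785) (.e (nat_lit 57367) (nat_lit 1) (.e (nat_lit 57847) (nat_lit 252) (.e (nat_lit 57404) (nat_lit 12) (.e (nat_lit 336060) (nat_lit 7) (.e (nat_lit 319534) (nat_lit 16) (.e (nat_lit 286756) (nat_lit 10) (.e (nat_lit 344097) (nat_lit 18) (.e (nat_lit 5195) (nat_lit 294) .nil)))))))) (.g (nat_lit 8) .nil .nil))))) (.nd (nat_lit 4) (.nd (nat_lit 5) 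
(.lf (nat_lit 143880) (.g (nat_lit 2575) (.e (nat_lit 57366) (nat_lit 1) (.e (nat_lit 57852) (nat_lit 252) (.e (nat_lit 57406) (nat_lit 12) (.e (nat_lit 336316) (nat_lit 17) (.e (nat_lit 196666) (nat_lit 13) .nil))))) .nil)) 
(.lf (nat_lit 143912) (.g (nat_lit 3688) (.e (nat_lit 57367) (nat_lit 1) (.e (nat_lit 57846) (nat_lit 252) (.e (nat_lit 57412) (nat_lit 12) (.e (nat_lit 336060) (nat_lit 7) (.e (nat_lit 319534) (nat_lit 16) (.e (nat_lit 286756) (nat_lit 10) (.e (nat_lit 344097) (nat_lit 18) (.e (nat_lit 5195) (nat_lit 294) .nil)))))))) (.g (nat_lit 7) .nil .nil)))) (.nd (nat_lit 5) 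
(.lf (nat_lit 143896) (.g (nat_lit 3373) (.e (nat_lit 57366) (nat_lit 1) (.e (nat_lit 57854) (nat_lit 252) (.e (nat_lit 57409) (nat_lit 12) (.e (nat_lit 336310) (nat_lit 16) (.e (nat_lit 164178) (nat_lit 154) (.e (nat_lit 57437) (nat_lit 17) (.e (nat_lit 376860) (nat_lit 21) (.e (nat_lit 57854) (nat_lit 252) .nil)))))))) (.g (nat_lit 6) .nil .nil))) 
(.lf (nat_lit 143928) (.g (nat_lit 2895) (.e (nat_lit 57367) (nat_lit 1) (.e (nat_lit 57847) (nat_lit 252) (.e (nat_lit 57407) (nat_lit 12) (.e (nat_lit 336360) (nat_lit 25) (.e (nat_lit 409649) (nat_lit 18) (.e (nat_lit 303132) (nat_lit 9) (.e (nat_lit 426109) (nat_lit 1) (.e (nat_lit 164177) (nat_lit 154) .nil)))))))) (.g (nat_lit 5) .nil .nil)))))) 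
(.nd (nat_lit 3) (.nd (nat_lit 4) (.nd (nat_lit 5) 
(.lf (nat_lit 143876) (.g (nat_lit 772) (.e (nat_lit 57366) (nat_lit 1) (.e (nat_lit 57847) (nat_lit 252) (.e (nat_lit 57446) (nat_lit 19) .nil))) .nil)) 
(.lf (nat_lit 143908) (.g (nat_lit 4395) (.e (nat_lit 57367) (nat_lit 1) (.e (nat_lit 57844) (nat_lit 252) (.e (nat_lit 57412) (nat_lit 12) (.e (nat_lit 336061) (nat_lit 7) (.e (nat_lit 319531) (nat_lit 16) (.e (nat_lit 286756) (nat_lit 10) (.e (nat_lit 344097) (nat_lit 18) (.e (nat_lit 5195) (nat_lit 294) .nil)))))))) (.g (nat_lit 8) .nil .nil)))) (.nd (nat_lit 5) 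
(.lf (nat_lit 143892) (.g (nat_lit 1894) (.e (nat_lit 57366) (nat_lit 1) (.e (nat_lit 57854) (nat_lit 252) (.e (nat_lit 57406) (nat_lit 12) (.e (nat_lit 336326) (nat_lit 18) (.e (nat_lit 204868) (nat_lit 29) .nil))))) .nil)) 
(.lf (nat_lit 143924) (.g (nat_lit 2898) (.e (nat_lit 57367) (nat_lit 1) (.e (nat_lit 57847) (nat_lit 252) (.e (nat_lit 57407) (nat_lit 12) (.e (nat_lit 336326) (nat_lit 18) (.e (nat_lit 204869) (nat_lit 29) (.e (nat_lit 360448) (nat_lit 0) (.e (nat_lit 7695) (nat_lit 412) .nil))))))) (.g (nat_lit 5) .nil .nil))))) (.nd (nat_lit 4) (.nd (nat_lit 5) 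
(.lf (nat_lit 143884) (.g (nat_lit 2205) (.e (nat_lit 57366) (nat_lit 1) (.e (nat_lit 57852) (nat_lit 252) (.e (nat_lit 57406) (nat_lit 12) (.e (nat_lit 336446) (nat_lit 33) (.e (nat_lit 475214) (nat_lit 42) .nil))))) .nil)) 
(.lf (nat_lit 143916) (.g (nat_lit 2234) (.e (nat_lit 57367) (nat_lit 1) (.e (nat_lit 57847) (nat_lit 252) (.e (nat_lit 57404) (nat_lit 12) (.e (nat_lit 336054) (nat_lit 7) (.e (nat_lit 319533) (nat_lit 16) (.e (nat_lit 286753) (nat_lit 10) (.e (nat_lit 344097) (nat_lit 18) (.e (nat_lit 5195) (nat_lit 294) .nil)))))))) (.g (nat_lit 6) .nil .nil)))) (.nd (nat_lit 5) 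
(.lf (nat_lit 143900) (.g (nat_lit 1906) (.e (nat_lit 57366) (nat_lit 1) (.e (nat_lit 57854) (nat_lit 252) (.e (nat_lit 57409) (nat_lit 12) (.e (nat_lit 336450) (nat_lit 33) .nil)))) .nil)) 
(.lf (nat_lit 143932) (.g (nat_lit 2306) (.e (nat_lit 57367) (nat_lit 1) (.e (nat_lit 57847) (nat_lit 252) (.e (nat_lit 57407) (nat_lit 12) (.e (nat_lit 336450) (nat_lit 33) .nil)))) .nil)))))) (.nd (nat_lit 2) (.nd (nat_lit 3) (.nd (nat_lit 4) (.nd (nat_lit 5) 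
(.lf (nat_lit 143874) (.g (nat_lit 1109) (.e (nat_lit 57366) (nat_lit 1) (.e (nat_lit 57847) (nat_lit 252) (.e (nat_lit 57437) (nat_lit 17) (.e (nat_lit 384768) (nat_lit 13) .nil)))) .nil)) 
(.lf (nat_lit 143906) (.g (nat_lit 2444) (.e (nat_lit 57367) (nat_lit 1) (.e (nat_lit 57844) (nat_lit 252) (.e (nat_lit 57412) (nat_lit 12) (.e (nat_lit 336061) (nat_lit 7) (.e (nat_lit 319531) (nat_lit 16) (.e (nat_lit 286751) (nat_lit 10) (.e (nat_lit 344097) (nat_lit 18) (.e (nat_lit 5194) (nat_lit 294) .nil)))))))) (.g (nat_lit 5) .nil .nil)))) (.nd (nat_lit 5) 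
(.lf (nat_lit 143890) (.g (nat_lit 1563) (.e (nat_lit 57366) (nat_lit 1) (.e (nat_lit 57854) (nat_lit 252) (.e (nat_lit 57406) (nat_lit 12) (.e (nat_lit 336322) (nat_lit 18) .nil)))) .nil)) 
(.lf (nat_lit 143922) (.g (nat_lit 3945) (.e (nat_lit 57367) (nat_lit 1) (.e (nat_lit 57847) (nat_lit 252) (.e (nat_lit 57405) (nat_lit 12) (.e (nat_lit 336053) (nat_lit 7) (.e (nat_lit 319534) (nat_lit 16) (.e (nat_lit 286756) (nat_lit 10) (.e (nat_lit 344097) (nat_lit 18) (.e (nat_lit 5195) (nat_lit 294) .nil)))))))) (.g (nat_lit 8) .nil .nil))))) (.nd (nat_lit 4) (.nd (nat_lit 5) 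
(.lf (nat_lit 143882) (.g (nat_lit 2693) (.e (nat_lit 57366) (nat_lit 1) (.e (nat_lit 57852) (nat_lit 252) (.e (nat_lit 57406) (nat_lit 12) (.e (nat_lit 336326) (nat_lit 18) (.e (nat_lit 204868) (nat_lit 29) .nil))))) .nil)) 
(.lf (nat_lit 143914) (.g (nat_lit 2698) (.e (nat_lit 57367) (nat_lit 1) (.e (nat_lit 57847) (nat_lit 252) (.e (nat_lit 57355) (nat_lit 0) (.e (nat_lit 1858) (nat_lit 124) (.e (nat_lit 557109) (nat_lit 15) (.e (nat_lit 188461) (nat_lit 26) (.e (nat_lit 253959) (nat_lit 9) (.e (nat_lit 1181) (nat_lit 87) (.e (nat_lit 57848) (nat_lit 252) .nil))))))))) (.g (nat_lit 5) .nil .nil)))) (.nd (nat_lit 5) 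
(.lf (nat_lit 143898) (.g (nat_lit 2013) (.e (nat_lit 57366) (nat_lit 1) (.e (nat_lit 57854) (nat_lit 252) (.e (nat_lit 57409) (nat_lit 12) (.e (nat_lit 336445) (nat_lit 33) .nil)))) .nil)) 
(.lf (nat_lit 143930) (.g (nat_lit 1358) (.e (nat_lit 57367) (nat_lit 1) (.e (nat_lit 57847) (nat_lit 252) (.e (nat_lit 57407) (nat_lit 12) (.e (nat_lit 336446) (nat_lit 33) .nil)))) .nil))))) (.nd (nat_lit 3) (.nd (nat_lit 4) (.nd (nat_lit 5) 
(.lf (nat_lit 143878) (.g (nat_lit 2766) (.e (nat_lit 57366) (nat_lit 1) (.e (nat_lit 57849) (nat_lit 252) (.e (nat_lit 57407) (nat_lit 12) (.e (nat_lit 336310) (nat_lit 16) (.e (nat_lit 164179) (nat_lit 154) .nil))))) .nil)) 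
(.lf (nat_lit 143910) (.g (nat_lit 1452) (.e (nat_lit 57367) (nat_lit 1) (.e (nat_lit 57846) (nat_lit 252) (.e (nat_lit 57412) (nat_lit 12) (.e (nat_lit 336054) (nat_lit 7) .nil)))) .nil))) (.nd (nat_lit 5) 
(.lf (nat_lit 143894) (.g (nat_lit 540) (.e (nat_lit 57366) (nat_lit 1) (.e (nat_lit 57854) (nat_lit 252) (.e (nat_lit 57409) (nat_lit 12) .nil))) .nil)) 
(.lf (nat_lit 143926) (.g (nat_lit 4668) (.e (nat_lit 57367) (nat_lit 1) (.e (nat_lit 57847) (nat_lit 252) (.e (nat_lit 57407) (nat_lit 12) (.e (nat_lit 336326) (nat_lit 18) (.e (nat_lit 204869) (nat_lit 29) (.e (nat_lit 360451) (nat_lit 0) (.e (nat_lit 7695) (nat_lit 412) .nil))))))) (.g (nat_lit 6) .nil .nil))))) (.nd (nat_lit 4) (.nd (nat_lit 5) 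
(.lf (nat_lit 143886) (.g (nat_lit 947) (.e (nat_lit 57366) (nat_lit 1) (.e (nat_lit 57852) (nat_lit 252) (.e (nat_lit 57427) (nat_lit 15) .nil))) .nil)) 
(.lf (nat_lit 143918) (.g (nat_lit 3236) (.e (nat_lit 57367) (nat_lit 1) (.e (nat_lit 57847) (nat_lit 252) (.e (nat_lit 57404) (nat_lit 12) (.e (nat_lit 336056) (nat_lit 7) (.e (nat_lit 319534) (nat_lit 16) (.e (nat_lit 286756) (nat_lit 10) (.e (nat_lit 344097) (nat_lit 18) (.e (nat_lit 5195) (nat_lit 294) .nil)))))))) (.g (nat_lit 6) .nil .nil)))) (.nd (nat_lit 5) 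
(.lf (nat_lit 143902) (.g (nat_lit 730) (.e (nat_lit 57366) (nat_lit 1) (.e (nat_lit 57854) (nat_lit 252) (.e (nat_lit 57442) (nat_lit 18) .nil))) .nil)) 
(.lf (nat_lit 143934) (.g (nat_lit 4138) (.e (nat_lit 57367) (nat_lit 1) (.e (nat_lit 57847) (nat_lit 252) (.e (nat_lit 57410) (nat_lit 12) (.e (nat_lit 336053) (nat_lit 7) (.e (nat_lit 319534) (nat_lit 16) (.e (nat_lit 286756) (nat_lit 10) (.e (nat_lit 344097) (nat_lit 18) (.e (nat_lit 5195) (nat_lit 294) .nil)))))))) (.g (nat_lit 8) .nil .nil)))))))) 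
(.nd (nat_lit 1) (.nd (nat_lit 2) (.nd (nat_lit 3) (.nd (nat_lit 4) (.nd (nat_lit 5) 
(.lf (nat_lit 143873) (.g (nat_lit 1888) (.e (nat_lit 57366) (nat_lit 1) (.e (nat_lit 57847) (nat_lit 252) (.e (nat_lit 57437) (nat_lit 17) (.e (nat_lit 376842) (nat_lit 11) (.e (nat_lit 426296) (nat_lit 11) .nil))))) .nil)) 
(.lf (nat_lit 143905) (.g (nat_lit 2047) (.e (nat_lit 57367) (nat_lit 1) (.e (nat_lit 57844) (nat_lit 252) (.e (nat_lit 57412) (nat_lit 12) (.e (nat_lit 336060) (nat_lit 7) (.e (nat_lit 319533) (nat_lit 16) (.e (nat_lit 286753) (nat_lit 10) (.e (nat_lit 344097) (nat_lit 18) (.e (nat_lit 5194) (nat_lit 294) .nil)))))))) (.g (nat_lit 5) .nil .nil)))) (.nd (nat_lit 5) 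
(.lf (nat_lit 143889) (.g (nat_lit 1890) (.e (nat_lit 57366) (nat_lit 1) (.e (nat_lit 57854) (nat_lit 252) (.e (nat_lit 57378) (nat_lit 3) (.e (nat_lit 98341) (nat_lit 20) (.e (nat_lit 229120) (nat_lit 18) (.e (nat_lit 393254) (nat_lit 18) (.e (nat_lit 164183) (nat_lit 154) .nil))))))) (.g (nat_lit 4) .nil .nil))) 
(.lf (nat_lit 143921) (.g (nat_lit 3545) (.e (nat_lit 57367) (nat_lit 1) (.e (nat_lit 57847) (nat_lit 252) (.e (nat_lit 57405) (nat_lit 12) (.e (nat_lit 336053) (nat_lit 7) (.e (nat_lit 319533) (nat_lit 16) (.e (nat_lit 286753) (nat_lit 10) (.e (nat_lit 344097) (nat_lit 18) (.e (nat_lit 5195) (nat_lit 294) .nil)))))))) (.g (nat_lit 8) .nil .nil))))) (.nd (nat_lit 4) (.nd (nat_lit 5) 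
(.lf (nat_lit 143881) (.g (nat_lit 1659) (.e (nat_lit 57366) (nat_lit 1) (.e (nat_lit 57852) (nat_lit 252) (.e (nat_lit 57406) (nat_lit 12) (.e (nat_lit 336322) (nat_lit 18) .nil)))) .nil)) 
(.lf (nat_lit 143913) (.g (nat_lit 627) (.e (nat_lit 57367) (nat_lit 1) (.e (nat_lit 57847) (nat_lit 252) (.e (nat_lit 57346) (nat_lit 0) .nil))) .nil))) (.nd (nat_lit 5) 
(.lf (nat_lit 143897) (.g (nat_lit 2099) (.e (nat_lit 57366) (nat_lit 1) (.e (nat_lit 57854) (nat_lit 252) (.e (nat_lit 57409) (nat_lit 12) (.e (nat_lit 336314) (nat_lit 16) .nil)))) .nil)) 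
(.lf (nat_lit 143929) (.g (nat_lit 2156) (.e (nat_lit 57367) (nat_lit 1) (.e (nat_lit 57847) (nat_lit 252) (.e (nat_lit 57407) (nat_lit 12) (.e (nat_lit 336445) (nat_lit 33) .nil)))) .nil))))) (.nd (nat_lit 3) (.nd (nat_lit 4) (.nd (nat_lit 5) 
(.lf (nat_lit 143877) (.g (nat_lit 2461) (.e (nat_lit 57366) (nat_lit 1) (.e (nat_lit 57849) (nat_lit 252) (.e (nat_lit 57407) (nat_lit 12) (.e (nat_lit 336310) (nat_lit 16) .nil)))) .nil)) 
(.lf (nat_lit 143909) (.g (nat_lit 2120) (.e (nat_lit 57367) (nat_lit 1) (.e (nat_lit 57846) (nat_lit 252) (.e (nat_lit 57404) (nat_lit 12) (.e (nat_lit 336060) (nat_lit 7) (.e (nat_lit 319533) (nat_lit 16) (.e (nat_lit 286753) (nat_lit 10) (.e (nat_lit 344097) (nat_lit 18) (.e (nat_lit 5195) (nat_lit 294) .nil)))))))) (.g (nat_lit 5) .nil .nil)))) (.nd (nat_lit 5) 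
(.lf (nat_lit 143893) (.g (nat_lit 4939) (.e (nat_lit 57366) (nat_lit 1) (.e (nat_lit 57854) (nat_lit 252) (.e (nat_lit 57406) (nat_lit 12) (.e (nat_lit 336326) (nat_lit 18) (.e (nat_lit 204869) (nat_lit 29) (.e (nat_lit 360450) (nat_lit 0) (.e (nat_lit 7695) (nat_lit 412) .nil))))))) (.g (nat_lit 6) .nil .nil))) 
(.lf (nat_lit 143925) (.g (nat_lit 4770) (.e (nat_lit 57367) (nat_lit 1) (.e (nat_lit 57847) (nat_lit 252) (.e (nat_lit 57407) (nat_lit 12) (.e (nat_lit 336326) (nat_lit 18) (.e (nat_lit 204869) (nat_lit 29) (.e (nat_lit 360450) (nat_lit 0) (.e (nat_lit 7695) (nat_lit 412) .nil))))))) (.g (nat_lit 6) .nil .nil))))) (.nd (nat_lit 4) (.nd (nat_lit 5) 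
(.lf (nat_lit 143885) (.g (nat_lit 1403) (.e (nat_lit 57366) (nat_lit 1) (.e (nat_lit 57852) (nat_lit 252) (.e (nat_lit 57421) (nat_lit 13) (.e (nat_lit 344144) (nat_lit 31) .nil)))) .nil)) 
(.lf (nat_lit 143917) (.g (nat_lit 2999) (.e (nat_lit 57367) (nat_lit 1) (.e (nat_lit 57847) (nat_lit 252) (.e (nat_lit 57404) (nat_lit 12) (.e (nat_lit 336054) (nat_lit 7) (.e (nat_lit 319534) (nat_lit 16) (.e (nat_lit 286756) (nat_lit 10) (.e (nat_lit 344097) (nat_lit 18) (.e (nat_lit 5195) (nat_lit 294) .nil)))))))) (.g (nat_lit 6) .nil .nil)))) (.nd (nat_lit 5) 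
(.lf (nat_lit 143901) (.g (nat_lit 2073) (.e (nat_lit 57366) (nat_lit 1) (.e (nat_lit 57854) (nat_lit 252) (.e (nat_lit 57427) (nat_lit 15) (.e (nat_lit 360478) (nat_lit 12) (.e (nat_lit 622605) (nat_lit 5) .nil))))) .nil)) 
(.lf (nat_lit 143933) (.g (nat_lit 3731) (.e (nat_lit 57367) (nat_lit 1) (.e (nat_lit 57847) (nat_lit 252) (.e (nat_lit 57410) (nat_lit 12) (.e (nat_lit 336053) (nat_lit 7) (.e (nat_lit 319533) (nat_lit 16) (.e (nat_lit 286753) (nat_lit 10) (.e (nat_lit 344097) (nat_lit 18) (.e (nat_lit 5195) (nat_lit 294) .nil)))))))) (.g (nat_lit 8) .nil .nil))))))) 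
(.nd (nat_lit 2) (.nd (nat_lit 3) (.nd (nat_lit 4) (.nd (nat_lit 5) 
(.lf (nat_lit 143875) (.g (nat_lit 2071) (.e (nat_lit 57366) (nat_lit 1) (.e (nat_lit 57847) (nat_lit 252) (.e (nat_lit 57440) (nat_lit 18) (.e (nat_lit 385068) (nat_lit 26) (.e (nat_lit 532551) (nat_lit 12) .nil))))) .nil)) 
(.lf (nat_lit 143907) (.g (nat_lit 3952) (.e (nat_lit 57367) (nat_lit 1) (.e (nat_lit 57844) (nat_lit 252) (.e (nat_lit 57412) (nat_lit 12) (.e (nat_lit 336061) (nat_lit 7) (.e (nat_lit 319531) (nat_lit 16) (.e (nat_lit 286751) (nat_lit 10) (.e (nat_lit 344097) (nat_lit 18) (.e (nat_lit 5195) (nat_lit 294) .nil)))))))) (.g (nat_lit 8) .nil .nil)))) (.nd (nat_lit 5) 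
(.lf (nat_lit 143891) (.g (nat_lit 1221) (.e (nat_lit 57366) (nat_lit 1) (.e (nat_lit 57854) (nat_lit 252) (.e (nat_lit 57406) (nat_lit 12) (.e (nat_lit 336326) (nat_lit 18) .nil)))) .nil)) 
(.lf (nat_lit 143923) (.g (nat_lit 2306) (.e (nat_lit 57367) (nat_lit 1) (.e (nat_lit 57847) (nat_lit 252) (.e (nat_lit 57407) (nat_lit 12) (.e (nat_lit 336240) (nat_lit 15) .nil)))) .nil)))) (.nd (nat_lit 4) (.nd (nat_lit 5) 
(.lf (nat_lit 143883) (.g (nat_lit 1696) (.e (nat_lit 57366) (nat_lit 1) (.e (nat_lit 57852) (nat_lit 252) (.e (nat_lit 57406) (nat_lit 12) (.e (nat_lit 336446) (nat_lit 33) .nil)))) .nil)) 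
(.lf (nat_lit 143915) (.g (nat_lit 433) (.e (nat_lit 57367) (nat_lit 1) (.e (nat_lit 57847) (nat_lit 252) (.e (nat_lit 57390) (nat_lit 5) .nil))) .nil))) (.nd (nat_lit 5) 
(.lf (nat_lit 143899) (.g (nat_lit 1527) (.e (nat_lit 57366) (nat_lit 1) (.e (nat_lit 57854) (nat_lit 252) (.e (nat_lit 57409) (nat_lit 12) (.e (nat_lit 336446) (nat_lit 33) .nil)))) .nil)) 
(.lf (nat_lit 143931) (.g (nat_lit 2734) (.e (nat_lit 57367) (nat_lit 1) (.e (nat_lit 57847) (nat_lit 252) (.e (nat_lit 57407) (nat_lit 12) (.e (nat_lit 336446) (nat_lit 33) (.e (nat_lit 475214) (nat_lit 42) (.e (nat_lit 720956) (nat_lit 25) (.e (nat_lit 114711) (nat_lit 21) (.e (nat_lit 57847) (nat_lit 252) .nil)))))))) (.g (nat_lit 5) .nil .nil)))))) 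
(.nd (nat_lit 3) (.nd (nat_lit 4) (.nd (nat_lit 5) 
(.lf (nat_lit 143879) (.g (nat_lit 3529) (.e (nat_lit 57366) (nat_lit 1) (.e (nat_lit 57849) (nat_lit 252) (.e (nat_lit 57407) (nat_lit 12) (.e (nat_lit 336316) (nat_lit 17) (.e (nat_lit 196666) (nat_lit 13) .nil))))) .nil)) 
(.lf (nat_lit 143911) (.g (nat_lit 2784) (.e (nat_lit 57367) (nat_lit 1) (.e (nat_lit 57846) (nat_lit 252) (.e (nat_lit 57412) (nat_lit 12) (.e (nat_lit 336058) (nat_lit 7) (.e (nat_lit 319534) (nat_lit 16) (.e (nat_lit 286756) (nat_lit 10) (.e (nat_lit 344097) (nat_lit 18) (.e (nat_lit 5195) (nat_lit 294) .nil)))))))) (.g (nat_lit 5) .nil .nil)))) (.nd (nat_lit 5) 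
(.lf (nat_lit 143895) (.g (nat_lit 2001) (.e (nat_lit 57366) (nat_lit 1) (.e (nat_lit 57854) (nat_lit 252) (.e (nat_lit 57409) (nat_lit 12) (.e (nat_lit 336240) (nat_lit 15) .nil)))) .nil)) 
(.lf (nat_lit 143927) (.g (nat_lit 1531) (.e (nat_lit 57367) (nat_lit 1) (.e (nat_lit 57847) (nat_lit 252) (.e (nat_lit 57407) (nat_lit 12) (.e (nat_lit 336326) (nat_lit 18) (.e (nat_lit 204870) (nat_lit 29) .nil))))) .nil)))) (.nd (nat_lit 4) (.nd (nat_lit 5) 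
(.lf (nat_lit 143887) (.g (nat_lit 1646) (.e (nat_lit 57366) (nat_lit 1) (.e (nat_lit 57852) (nat_lit 252) (.e (nat_lit 57427) (nat_lit 15) (.e (nat_lit 360483) (nat_lit 15) .nil)))) .nil)) 
(.lf (nat_lit 143919) (.g (nat_lit 3368) (.e (nat_lit 57367) (nat_lit 1) (.e (nat_lit 57847) (nat_lit 252) (.e (nat_lit 57404) (nat_lit 12) (.e (nat_lit 336060) (nat_lit 7) (.e (nat_lit 319533) (nat_lit 16) (.e (nat_lit 286753) (nat_lit 10) (.e (nat_lit 344097) (nat_lit 18) (.e (nat_lit 5195) (nat_lit 294) .nil)))))))) (.g (nat_lit 8) .nil .nil)))) (.nd (nat_lit 5) 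
(.lf (nat_lit 143903) (.g (nat_lit 3729) (.e (nat_lit 57367) (nat_lit 1) (.e (nat_lit 57844) (nat_lit 252) (.e (nat_lit 57412) (nat_lit 12) (.e (nat_lit 336058) (nat_lit 7) (.e (nat_lit 319533) (nat_lit 16) (.e (nat_lit 286753) (nat_lit 10) (.e (nat_lit 344097) (nat_lit 18) (.e (nat_lit 5195) (nat_lit 294) .nil)))))))) (.g (nat_lit 8) .nil .nil))) 
(.lf (nat_lit 143935) (.g (nat_lit 305) (.e (nat_lit 57367) (nat_lit 1) (.e (nat_lit 57847) (nat_lit 252) (.e (nat_lit 57411) (nat_lit 12) .nil))) .nil))))))))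

noncomputable def tv1909 : DT := (.nd (nat_lit 0) (.nd (nat_lit 1) (.nd (nat_lit 2) (.nd (nat_lit 3) (.nd (nat_lit 4) (.nd (nat_lit 5) 
(.lf (nat_lit 143936) (.g (nat_lit 1444) (.e (nat_lit 57367) (nat_lit 1) (.e (nat_lit 57847) (nat_lit 252) (.e (nat_lit 57411) (nat_lit 12) (.e (nat_lit 343808) (nat_lit 7) .nil)))) .nil)) 
(.lf (nat_lit 143968) (.g (nat_lit 2325) (.e (nat_lit 57367) (nat_lit 1) (.e (nat_lit 57847) (nat_lit 252) (.e (nat_lit 57437) (nat_lit 17) (.e (nat_lit 376859) (nat_lit 21) (.e (nat_lit 57931) (nat_lit 282) (.e (nat_lit 164084) (nat_lit 73) (.e (nat_lit 335995) (nat_lit 1) (.e (nat_lit 57849) (nat_lit 252) .nil)))))))) (.g (nat_lit 4) .nil .nil)))) (.nd (nat_lit 5) 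
(.lf (nat_lit 143952) (.g (nat_lit 3759) (.e (nat_lit 57367) (nat_lit 1) (.e (nat_lit 57847) (nat_lit 252) (.e (nat_lit 57414) (nat_lit 12) (.e (nat_lit 336060) (nat_lit 7) (.e (nat_lit 319534) (nat_lit 16) (.e (nat_lit 286756) (nat_lit 10) (.e (nat_lit 344097) (nat_lit 18) (.e (nat_lit 5195) (nat_lit 294) .nil)))))))) (.g (nat_lit 8) .nil .nil))) 
(.lf (nat_lit 143984) (.g (nat_lit 2961) (.e (nat_lit 57367) (nat_lit 1) (.e (nat_lit 57848) (nat_lit 252) (.e (nat_lit 57404) (nat_lit 12) (.e (nat_lit 336054) (nat_lit 7) (.e (nat_lit 319534) (nat_lit 16) (.e (nat_lit 286756) (nat_lit 10) (.e (nat_lit 344097) (nat_lit 18) (.e (nat_lit 5195) (nat_lit 294) .nil)))))))) (.g (nat_lit 6) .nil .nil))))) (.nd (nat_lit 4) (.nd (nat_lit 5) 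
(.lf (nat_lit 143944) (.g (nat_lit 1620) (.e (nat_lit 57367) (nat_lit 1) (.e (nat_lit 57847) (nat_lit 252) (.e (nat_lit 57412) (nat_lit 12) (.e (nat_lit 336061) (nat_lit 7) (.e (nat_lit 319531) (nat_lit 16) .nil))))) .nil)) 
(.lf (nat_lit 143976) (.g (nat_lit 2329) (.e (nat_lit 57367) (nat_lit 1) (.e (nat_lit 57847) (nat_lit 252) (.e (nat_lit 57440) (nat_lit 18) (.e (nat_lit 385068) (nat_lit 26) (.e (nat_lit 532551) (nat_lit 12) (.e (nat_lit 360457) (nat_lit 0) (.e (nat_lit 7936) (nat_lit 412) .nil))))))) (.g (nat_lit 4) .nil .nil)))) (.nd (nat_lit 5) 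
(.lf (nat_lit 143960) (.g (nat_lit 1684) (.e (nat_lit 57367) (nat_lit 1) (.e (nat_lit 57847) (nat_lit 252) (.e (nat_lit 57435) (nat_lit 17) (.e (nat_lit 376842) (nat_lit 11) (.e (nat_lit 426298) (nat_lit 11) (.e (nat_lit 458776) (nat_lit 18) (.e (nat_lit 5566) (nat_lit 308) .nil))))))) (.g (nat_lit 4) .nil .nil))) 
(.lf (nat_lit 143992) (.g (nat_lit 800) (.e (nat_lit 57367) (nat_lit 1) (.e (nat_lit 57849) (nat_lit 252) (.e (nat_lit 57379) (nat_lit 3) .nil))) .nil))))) (.nd (nat_lit 3) (.nd (nat_lit 4) (.nd (nat_lit 5) 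
(.lf (nat_lit 143940) (.g (nat_lit 1945) (.e (nat_lit 57367) (nat_lit 1) (.e (nat_lit 57847) (nat_lit 252) (.e (nat_lit 57412) (nat_lit 12) (.e (nat_lit 336060) (nat_lit 7) (.e (nat_lit 319533) (nat_lit 16) (.e (nat_lit 286753) (nat_lit 10) (.e (nat_lit 344097) (nat_lit 18) (.e (nat_lit 5194) (nat_lit 294) .nil)))))))) (.g (nat_lit 4) .nil .nil))) 
(.lf (nat_lit 143972) (.g (nat_lit 2547) (.e (nat_lit 57367) (nat_lit 1) (.e (nat_lit 57847) (nat_lit 252) (.e (nat_lit 57437) (nat_lit 17) (.e (nat_lit 376860) (nat_lit 21) (.e (nat_lit 57930) (nat_lit 282) (.e (nat_lit 164084) (nat_lit 73) (.e (nat_lit 335995) (nat_lit 1) (.e (nat_lit 57849) (nat_lit 252) .nil)))))))) (.g (nat_lit 5) .nil .nil)))) (.nd (nat_lit 5) 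
(.lf (nat_lit 143956) (.g (nat_lit 3684) (.e (nat_lit 57367) (nat_lit 1) (.e (nat_lit 57847) (nat_lit 252) (.e (nat_lit 57416) (nat_lit 12) (.e (nat_lit 336060) (nat_lit 7) (.e (nat_lit 319534) (nat_lit 16) (.e (nat_lit 286756) (nat_lit 10) (.e (nat_lit 344097) (nat_lit 18) (.e (nat_lit 5195) (nat_lit 294) .nil)))))))) (.g (nat_lit 8) .nil .nil))) 
(.lf (nat_lit 143988) (.g (nat_lit 2866) (.e (nat_lit 57367) (nat_lit 1) (.e (nat_lit 57848) (nat_lit 252) (.e (nat_lit 57412) (nat_lit 12) (.e (nat_lit 336060) (nat_lit 7) (.e (nat_lit 319533) (nat_lit 16) (.e (nat_lit 286753) (nat_lit 10) (.e (nat_lit 344097) (nat_lit 18) (.e (nat_lit 5195) (nat_lit 294) .nil)))))))) (.g (nat_lit 6) .nil .nil))))) (.nd (nat_lit 4) (.nd (nat_lit 5) 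
(.lf (nat_lit 143948) (.g (nat_lit 3334) (.e (nat_lit 57367) (nat_lit 1) (.e (nat_lit 57847) (nat_lit 252) (.e (nat_lit 57413) (nat_lit 12) (.e (nat_lit 336060) (nat_lit 7) (.e (nat_lit 319533) (nat_lit 16) (.e (nat_lit 286753) (nat_lit 10) (.e (nat_lit 344097) (nat_lit 18) (.e (nat_lit 5195) (nat_lit 294) .nil)))))))) (.g (nat_lit 8) .nil .nil))) 
(.lf (nat_lit 143980) (.g (nat_lit 1263) (.e (nat_lit 57367) (nat_lit 1) (.e (nat_lit 57847) (nat_lit 252) (.e (nat_lit 57448) (nat_lit 19) (.e (nat_lit 393234) (nat_lit 17) .nil)))) .nil))) (.nd (nat_lit 5) 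
(.lf (nat_lit 143964) (.g (nat_lit 1127) (.e (nat_lit 57367) (nat_lit 1) (.e (nat_lit 57847) (nat_lit 252) (.e (nat_lit 57437) (nat_lit 17) (.e (nat_lit 384768) (nat_lit 13) .nil)))) .nil)) 
(.lf (nat_lit 143996) (.g (nat_lit 2675) (.e (nat_lit 57367) (nat_lit 1) (.e (nat_lit 57849) (nat_lit 252) (.e (nat_lit 57412) (nat_lit 12) (.e (nat_lit 336060) (nat_lit 7) (.e (nat_lit 319533) (nat_lit 16) (.e (nat_lit 286753) (nat_lit 10) (.e (nat_lit 344097) (nat_lit 18) (.e (nat_lit 5195) (nat_lit 294) .nil)))))))) (.g (nat_lit 4) .nil .nil))))))) 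
(.nd (nat_lit 2) (.nd (nat_lit 3) (.nd (nat_lit 4) (.nd (nat_lit 5) 
(.lf (nat_lit 143938) (.g (nat_lit 2271) (.e (nat_lit 57367) (nat_lit 1) (.e (nat_lit 57847) (nat_lit 252) (.e (nat_lit 57412) (nat_lit 12) (.e (nat_lit 336054) (nat_lit 7) (.e (nat_lit 319533) (nat_lit 16) (.e (nat_lit 286753) (nat_lit 10) (.e (nat_lit 344097) (nat_lit 18) (.e (nat_lit 5195) (nat_lit 294) .nil)))))))) (.g (nat_lit 5) .nil .nil))) 
(.lf (nat_lit 143970) (.g (nat_lit 2128) (.e (nat_lit 57367) (nat_lit 1) (.e (nat_lit 57847) (nat_lit 252) (.e (nat_lit 57437) (nat_lit 17) (.e (nat_lit 376860) (nat_lit 21) (.e (nat_lit 57930) (nat_lit 282) (.e (nat_lit 164084) (nat_lit 73) (.e (nat_lit 335995) (nat_lit 1) (.e (nat_lit 57847) (nat_lit 252) .nil)))))))) (.g (nat_lit 4) .nil .nil)))) (.nd (nat_lit 5) 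
(.lf (nat_lit 143954) (.g (nat_lit 1582) (.e (nat_lit 57367) (nat_lit 1) (.e (nat_lit 57847) (nat_lit 252) (.e (nat_lit 57416) (nat_lit 12) (.e (nat_lit 336060) (nat_lit 7) (.e (nat_lit 319533) (nat_lit 16) (.e (nat_lit 286753) (nat_lit 10) (.e (nat_lit 344097) (nat_lit 18) (.e (nat_lit 5194) (nat_lit 294) .nil)))))))) (.g (nat_lit 4) .nil .nil))) 
(.lf (nat_lit 143986) (.g (nat_lit 2018) (.e (nat_lit 57367) (nat_lit 1) (.e (nat_lit 57848) (nat_lit 252) (.e (nat_lit 57407) (nat_lit 12) (.e (nat_lit 336316) (nat_lit 17) (.e (nat_lit 196666) (nat_lit 13) .nil))))) .nil)))) (.nd (nat_lit 4) (.nd (nat_lit 5) 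
(.lf (nat_lit 143946) (.g (nat_lit 3472) (.e (nat_lit 57367) (nat_lit 1) (.e (nat_lit 57847) (nat_lit 252) (.e (nat_lit 57413) (nat_lit 12) (.e (nat_lit 336056) (nat_lit 7) (.e (nat_lit 319534) (nat_lit 16) (.e (nat_lit 286756) (nat_lit 10) (.e (nat_lit 344097) (nat_lit 18) (.e (nat_lit 5195) (nat_lit 294) .nil)))))))) (.g (nat_lit 6) .nil .nil))) 
(.lf (nat_lit 143978) (.g (nat_lit 1625) (.e (nat_lit 57367) (nat_lit 1) (.e (nat_lit 57847) (nat_lit 252) (.e (nat_lit 57445) (nat_lit 19) (.e (nat_lit 393223) (nat_lit 0) .nil)))) .nil))) (.nd (nat_lit 5) 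
(.lf (nat_lit 143962) (.g (nat_lit 1957) (.e (nat_lit 57367) (nat_lit 1) (.e (nat_lit 57847) (nat_lit 252) (.e (nat_lit 57437) (nat_lit 17) (.e (nat_lit 376842) (nat_lit 11) (.e (nat_lit 426296) (nat_lit 11) (.e (nat_lit 458777) (nat_lit 18) (.e (nat_lit 5566) (nat_lit 308) .nil))))))) (.g (nat_lit 4) .nil .nil))) 
(.lf (nat_lit 143994) (.g (nat_lit 2309) (.e (nat_lit 57367) (nat_lit 1) (.e (nat_lit 57849) (nat_lit 252) (.e (nat_lit 57407) (nat_lit 12) (.e (nat_lit 336446) (nat_lit 33) .nil)))) .nil))))) (.nd (nat_lit 3) (.nd (nat_lit 4) (.nd (nat_lit 5) 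
(.lf (nat_lit 143942) (.g (nat_lit 1908) (.e (nat_lit 57367) (nat_lit 1) (.e (nat_lit 57847) (nat_lit 252) (.e (nat_lit 57412) (nat_lit 12) (.e (nat_lit 336060) (nat_lit 7) (.e (nat_lit 319534) (nat_lit 16) (.e (nat_lit 286749) (nat_lit 9) (.e (nat_lit 335997) (nat_lit 1) (.e (nat_lit 57848) (nat_lit 252) .nil)))))))) (.g (nat_lit 4) .nil .nil))) 
(.lf (nat_lit 143974) (.g (nat_lit 3130) (.e (nat_lit 57367) (nat_lit 1) (.e (nat_lit 57847) (nat_lit 252) (.e (nat_lit 57437) (nat_lit 17) (.e (nat_lit 376860) (nat_lit 21) (.e (nat_lit 57931) (nat_lit 282) (.e (nat_lit 164084) (nat_lit 73) (.e (nat_lit 335995) (nat_lit 1) (.e (nat_lit 57849) (nat_lit 252) .nil)))))))) (.g (nat_lit 5) .nil .nil)))) (.nd (nat_lit 5) 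
(.lf (nat_lit 143958) (.g (nat_lit 450) (.e (nat_lit 57367) (nat_lit 1) (.e (nat_lit 57847) (nat_lit 252) (.e (nat_lit 57435) (nat_lit 17) .nil))) .nil)) 
(.lf (nat_lit 143990) (.g (nat_lit 3383) (.e (nat_lit 57367) (nat_lit 1) (.e (nat_lit 57848) (nat_lit 252) (.e (nat_lit 57413) (nat_lit 12) (.e (nat_lit 336056) (nat_lit 7) (.e (nat_lit 319534) (nat_lit 16) (.e (nat_lit 286756) (nat_lit 10) (.e (nat_lit 344097) (nat_lit 18) (.e (nat_lit 5195) (nat_lit 294) .nil)))))))) (.g (nat_lit 6) .nil .nil))))) (.nd (nat_lit 4) (.nd (nat_lit 5) 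
(.lf (nat_lit 143950) (.g (nat_lit 1609) (.e (nat_lit 57367) (nat_lit 1) (.e (nat_lit 57847) (nat_lit 252) (.e (nat_lit 57414) (nat_lit 12) (.e (nat_lit 336060) (nat_lit 7) (.e (nat_lit 319533) (nat_lit 16) (.e (nat_lit 286753) (nat_lit 10) (.e (nat_lit 344097) (nat_lit 18) (.e (nat_lit 5194) (nat_lit 294) .nil)))))))) (.g (nat_lit 4) .nil .nil))) 
(.lf (nat_lit 143982) (.g (nat_lit 1859) (.e (nat_lit 57367) (nat_lit 1) (.e (nat_lit 57848) (nat_lit 252) (.e (nat_lit 57372) (nat_lit 2) (.e (nat_lit 98048) (nat_lit 6) .nil)))) .nil))) (.nd (nat_lit 5) 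
(.lf (nat_lit 143966) (.g (nat_lit 2580) (.e (nat_lit 57367) (nat_lit 1) (.e (nat_lit 57847) (nat_lit 252) (.e (nat_lit 57437) (nat_lit 17) (.e (nat_lit 376859) (nat_lit 21) (.e (nat_lit 57931) (nat_lit 282) (.e (nat_lit 164084) (nat_lit 73) (.e (nat_lit 335986) (nat_lit 1) (.e (nat_lit 57847) (nat_lit 252) .nil)))))))) (.g (nat_lit 4) .nil .nil))) 
(.lf (nat_lit 143998) (.g (nat_lit 2679) (.e (nat_lit 57367) (nat_lit 1) (.e (nat_lit 57849) (nat_lit 252) (.e (nat_lit 57413) (nat_lit 12) (.e (nat_lit 336054) (nat_lit 7) (.e (nat_lit 319534) (nat_lit 16) (.e (nat_lit 286756) (nat_lit 10) (.e (nat_lit 344097) (nat_lit 18) (.e (nat_lit 5195) (nat_lit 294) .nil)))))))) (.g (nat_lit 5) .nil .nil)))))))) 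
(.nd (nat_lit 1) (.nd (nat_lit 2) (.nd (nat_lit 3) (.nd (nat_lit 4) (.nd (nat_lit 5) 
(.lf (nat_lit 143937) (.g (nat_lit 2575) (.e (nat_lit 57367) (nat_lit 1) (.e (nat_lit 57847) (nat_lit 252) (.e (nat_lit 57411) (nat_lit 12) (.e (nat_lit 343808) (nat_lit 7) (.e (nat_lit 319533) (nat_lit 16) (.e (nat_lit 286753) (nat_lit 10) (.e (nat_lit 344097) (nat_lit 18) (.e (nat_lit 5195) (nat_lit 294) .nil)))))))) (.g (nat_lit 7) .nil .nil))) 
(.lf (nat_lit 143969) (.g (nat_lit 2901) (.e (nat_lit 57367) (nat_lit 1) (.e (nat_lit 57847) (nat_lit 252) (.e (nat_lit 57437) (nat_lit 17) (.e (nat_lit 376860) (nat_lit 21) (.e (nat_lit 57930) (nat_lit 282) (.e (nat_lit 164084) (nat_lit 73) (.e (nat_lit 335986) (nat_lit 1) (.e (nat_lit 57847) (nat_lit 252) .nil)))))))) (.g (nat_lit 5) .nil .nil)))) (.nd (nat_lit 5) 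
(.lf (nat_lit 143953) (.g (nat_lit 2924) (.e (nat_lit 57367) (nat_lit 1) (.e (nat_lit 57847) (nat_lit 252) (.e (nat_lit 57416) (nat_lit 12) (.e (nat_lit 336056) (nat_lit 7) (.e (nat_lit 319533) (nat_lit 16) (.e (nat_lit 286753) (nat_lit 10) (.e (nat_lit 344097) (nat_lit 18) (.e (nat_lit 5195) (nat_lit 294) .nil)))))))) (.g (nat_lit 6) .nil .nil))) 
(.lf (nat_lit 143985) (.g (nat_lit 3198) (.e (nat_lit 57367) (nat_lit 1) (.e (nat_lit 57848) (nat_lit 252) (.e (nat_lit 57404) (nat_lit 12) (.e (nat_lit 336056) (nat_lit 7) (.e (nat_lit 319534) (nat_lit 16) (.e (nat_lit 286756) (nat_lit 10) (.e (nat_lit 344097) (nat_lit 18) (.e (nat_lit 5195) (nat_lit 294) .nil)))))))) (.g (nat_lit 6) .nil .nil))))) (.nd (nat_lit 4) (.nd (nat_lit 5) 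
(.lf (nat_lit 143945) (.g (nat_lit 4152) (.e (nat_lit 57367) (nat_lit 1) (.e (nat_lit 57847) (nat_lit 252) (.e (nat_lit 57412) (nat_lit 12) (.e (nat_lit 336061) (nat_lit 7) (.e (nat_lit 319534) (nat_lit 16) (.e (nat_lit 286756) (nat_lit 10) (.e (nat_lit 344097) (nat_lit 18) (.e (nat_lit 5195) (nat_lit 294) .nil)))))))) (.g (nat_lit 6) .nil .nil))) 
(.lf (nat_lit 143977) (.g (nat_lit 1626) (.e (nat_lit 57367) (nat_lit 1) (.e (nat_lit 57847) (nat_lit 252) (.e (nat_lit 57445) (nat_lit 19) (.e (nat_lit 393217) (nat_lit 0) .nil)))) .nil))) (.nd (nat_lit 5) 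
(.lf (nat_lit 143961) (.g (nat_lit 1907) (.e (nat_lit 57367) (nat_lit 1) (.e (nat_lit 57847) (nat_lit 252) (.e (nat_lit 57437) (nat_lit 17) (.e (nat_lit 376842) (nat_lit 11) (.e (nat_lit 426296) (nat_lit 11) .nil))))) .nil)) 
(.lf (nat_lit 143993) (.g (nat_lit 3529) (.e (nat_lit 57367) (nat_lit 1) (.e (nat_lit 57849) (nat_lit 252) (.e (nat_lit 57407) (nat_lit 12) (.e (nat_lit 336316) (nat_lit 17) (.e (nat_lit 196666) (nat_lit 13) .nil))))) .nil))))) (.nd (nat_lit 3) (.nd (nat_lit 4) (.nd (nat_lit 5) 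
(.lf (nat_lit 143941) (.g (nat_lit 3664) (.e (nat_lit 57367) (nat_lit 1) (.e (nat_lit 57847) (nat_lit 252) (.e (nat_lit 57412) (nat_lit 12) (.e (nat_lit 336060) (nat_lit 7) (.e (nat_lit 319533) (nat_lit 16) (.e (nat_lit 286753) (nat_lit 10) (.e (nat_lit 344097) (nat_lit 18) (.e (nat_lit 5195) (nat_lit 294) .nil)))))))) (.g (nat_lit 8) .nil .nil))) 
(.lf (nat_lit 143973) (.g (nat_lit 3162) (.e (nat_lit 57367) (nat_lit 1) (.e (nat_lit 57847) (nat_lit 252) (.e (nat_lit 57437) (nat_lit 17) (.e (nat_lit 376860) (nat_lit 21) (.e (nat_lit 57931) (nat_lit 282) (.e (nat_lit 164084) (nat_lit 73) (.e (nat_lit 335995) (nat_lit 1) (.e (nat_lit 57848) (nat_lit 252) .nil)))))))) (.g (nat_lit 5) .nil .nil)))) (.nd (nat_lit 5) 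
(.lf (nat_lit 143957) (.g (nat_lit 1619) (.e (nat_lit 57367) (nat_lit 1) (.e (nat_lit 57847) (nat_lit 252) (.e (nat_lit 57427) (nat_lit 15) (.e (nat_lit 360478) (nat_lit 12) .nil)))) .nil)) 
(.lf (nat_lit 143989) (.g (nat_lit 1607) (.e (nat_lit 57367) (nat_lit 1) (.e (nat_lit 57848) (nat_lit 252) (.e (nat_lit 57412) (nat_lit 12) (.e (nat_lit 336060) (nat_lit 7) (.e (nat_lit 319534) (nat_lit 16) .nil))))) .nil)))) (.nd (nat_lit 4) (.nd (nat_lit 5) 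
(.lf (nat_lit 143949) (.g (nat_lit 3753) (.e (nat_lit 57367) (nat_lit 1) (.e (nat_lit 57847) (nat_lit 252) (.e (nat_lit 57413) (nat_lit 12) (.e (nat_lit 336060) (nat_lit 7) (.e (nat_lit 319534) (nat_lit 16) (.e (nat_lit 286756) (nat_lit 10) (.e (nat_lit 344097) (nat_lit 18) (.e (nat_lit 5195) (nat_lit 294) .nil)))))))) (.g (nat_lit 8) .nil .nil))) 
(.lf (nat_lit 143981) (.g (nat_lit 2418) (.e (nat_lit 57367) (nat_lit 1) (.e (nat_lit 57847) (nat_lit 252) (.e (nat_lit 57448) (nat_lit 19) (.e (nat_lit 393234) (nat_lit 17) (.e (nat_lit 2405) (nat_lit 157) .nil))))) .nil))) (.nd (nat_lit 5) 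
(.lf (nat_lit 143965) (.g (nat_lit 1666) (.e (nat_lit 57367) (nat_lit 1) (.e (nat_lit 57847) (nat_lit 252) (.e (nat_lit 57437) (nat_lit 17) (.e (nat_lit 384768) (nat_lit 13) (.e (nat_lit 442395) (nat_lit 20) (.e (nat_lit 2400) (nat_lit 157) (.e (nat_lit 5569) (nat_lit 308) .nil))))))) (.g (nat_lit 6) .nil .nil))) 
(.lf (nat_lit 143997) (.g (nat_lit 2556) (.e (nat_lit 57367) (nat_lit 1) (.e (nat_lit 57849) (nat_lit 252) (.e (nat_lit 57412) (nat_lit 12) (.e (nat_lit 336061) (nat_lit 7) (.e (nat_lit 319534) (nat_lit 16) .nil))))) .nil)))))) (.nd (nat_lit 2) (.nd (nat_lit 3) (.nd (nat_lit 4) (.nd (nat_lit 5) 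
(.lf (nat_lit 143939) (.g (nat_lit 3733) (.e (nat_lit 57367) (nat_lit 1) (.e (nat_lit 57847) (nat_lit 252) (.e (nat_lit 57412) (nat_lit 12) (.e (nat_lit 336058) (nat_lit 7) (.e (nat_lit 319534) (nat_lit 16) (.e (nat_lit 286756) (nat_lit 10) (.e (nat_lit 344097) (nat_lit 18) (.e (nat_lit 5195) (nat_lit 294) .nil)))))))) (.g (nat_lit 6) .nil .nil))) 
(.lf (nat_lit 143971) (.g (nat_lit 2579) (.e (nat_lit 57367) (nat_lit 1) (.e (nat_lit 57847) (nat_lit 252) (.e (nat_lit 57437) (nat_lit 17) (.e (nat_lit 376860) (nat_lit 21) (.e (nat_lit 57930) (nat_lit 282) (.e (nat_lit 164084) (nat_lit 73) (.e (nat_lit 335995) (nat_lit 1) (.e (nat_lit 57848) (nat_lit 252) .nil)))))))) (.g (nat_lit 5) .nil .nil)))) (.nd (nat_lit 5) 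
(.lf (nat_lit 143955) (.g (nat_lit 3306) (.e (nat_lit 57367) (nat_lit 1) (.e (nat_lit 57847) (nat_lit 252) (.e (nat_lit 57416) (nat_lit 12) (.e (nat_lit 336060) (nat_lit 7) (.e (nat_lit 319533) (nat_lit 16) (.e (nat_lit 286753) (nat_lit 10) (.e (nat_lit 344097) (nat_lit 18) (.e (nat_lit 5195) (nat_lit 294) .nil)))))))) (.g (nat_lit 8) .nil .nil))) 
(.lf (nat_lit 143987) (.g (nat_lit 1455) (.e (nat_lit 57367) (nat_lit 1) (.e (nat_lit 57848) (nat_lit 252) (.e (nat_lit 57412) (nat_lit 12) (.e (nat_lit 336054) (nat_lit 7) .nil)))) .nil)))) (.nd (nat_lit 4) (.nd (nat_lit 5) 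
(.lf (nat_lit 143947) (.g (nat_lit 1611) (.e (nat_lit 57367) (nat_lit 1) (.e (nat_lit 57847) (nat_lit 252) (.e (nat_lit 57413) (nat_lit 12) (.e (nat_lit 336060) (nat_lit 7) (.e (nat_lit 319533) (nat_lit 16) (.e (nat_lit 286753) (nat_lit 10) (.e (nat_lit 344097) (nat_lit 18) (.e (nat_lit 5194) (nat_lit 294) .nil)))))))) (.g (nat_lit 4) .nil .nil))) 
(.lf (nat_lit 143979) (.g (nat_lit 629) (.e (nat_lit 57367) (nat_lit 1) (.e (nat_lit 57847) (nat_lit 252) (.e (nat_lit 57446) (nat_lit 19) .nil))) .nil))) (.nd (nat_lit 5) 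
(.lf (nat_lit 143963) (.g (nat_lit 1950) (.e (nat_lit 57367) (nat_lit 1) (.e (nat_lit 57847) (nat_lit 252) (.e (nat_lit 57437) (nat_lit 17) (.e (nat_lit 376842) (nat_lit 11) (.e (nat_lit 426298) (nat_lit 11) (.e (nat_lit 458776) (nat_lit 18) (.e (nat_lit 5566) (nat_lit 308) .nil))))))) (.g (nat_lit 4) .nil .nil))) 
(.lf (nat_lit 143995) (.g (nat_lit 1164) (.e (nat_lit 57367) (nat_lit 1) (.e (nat_lit 57849) (nat_lit 252) (.e (nat_lit 57412) (nat_lit 12) .nil))) .nil))))) (.nd (nat_lit 3) (.nd (nat_lit 4) (.nd (nat_lit 5) 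
(.lf (nat_lit 143943) (.g (nat_lit 4028) (.e (nat_lit 57367) (nat_lit 1) (.e (nat_lit 57847) (nat_lit 252) (.e (nat_lit 57412) (nat_lit 12) (.e (nat_lit 336060) (nat_lit 7) (.e (nat_lit 319534) (nat_lit 16) (.e (nat_lit 286756) (nat_lit 10) (.e (nat_lit 344097) (nat_lit 18) (.e (nat_lit 5195) (nat_lit 294) .nil)))))))) (.g (nat_lit 8) .nil .nil))) 
(.lf (nat_lit 143975) (.g (nat_lit 2074) (.e (nat_lit 57367) (nat_lit 1) (.e (nat_lit 57847) (nat_lit 252) (.e (nat_lit 57440) (nat_lit 18) (.e (nat_lit 385068) (nat_lit 26) (.e (nat_lit 532551) (nat_lit 12) .nil))))) .nil))) (.nd (nat_lit 5) 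
(.lf (nat_lit 143959) (.g (nat_lit 1682) (.e (nat_lit 57367) (nat_lit 1) (.e (nat_lit 57847) (nat_lit 252) (.e (nat_lit 57435) (nat_lit 17) (.e (nat_lit 376842) (nat_lit 11) (.e (nat_lit 426296) (nat_lit 11) (.e (nat_lit 458777) (nat_lit 18) (.e (nat_lit 5566) (nat_lit 308) .nil))))))) (.g (nat_lit 4) .nil .nil))) 
(.lf (nat_lit 143991) (.g (nat_lit 2787) (.e (nat_lit 57367) (nat_lit 1) (.e (nat_lit 57848) (nat_lit 252) (.e (nat_lit 57416) (nat_lit 12) (.e (nat_lit 336056) (nat_lit 7) (.e (nat_lit 319533) (nat_lit 16) (.e (nat_lit 286753) (nat_lit 10) (.e (nat_lit 344097) (nat_lit 18) (.e (nat_lit 5195) (nat_lit 294) .nil)))))))) (.g (nat_lit 6) .nil .nil))))) (.nd (nat_lit 4) (.nd (nat_lit 5) 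
(.lf (nat_lit 143951) (.g (nat_lit 3344) (.e (nat_lit 57367) (nat_lit 1) (.e (nat_lit 57847) (nat_lit 252) (.e (nat_lit 57414) (nat_lit 12) (.e (nat_lit 336060) (nat_lit 7) (.e (nat_lit 319533) (nat_lit 16) (.e (nat_lit 286753) (nat_lit 10) (.e (nat_lit 344097) (nat_lit 18) (.e (nat_lit 5195) (nat_lit 294) .nil)))))))) (.g (nat_lit 8) .nil .nil))) 
(.lf (nat_lit 143983) (.g (nat_lit 2196) (.e (nat_lit 57367) (nat_lit 1) (.e (nat_lit 57848) (nat_lit 252) (.e (nat_lit 57404) (nat_lit 12) (.e (nat_lit 336054) (nat_lit 7) (.e (nat_lit 319533) (nat_lit 16) (.e (nat_lit 286753) (nat_lit 10) (.e (nat_lit 344097) (nat_lit 18) (.e (nat_lit 5195) (nat_lit 294) .nil)))))))) (.g (nat_lit 6) .nil .nil)))) (.nd (nat_lit 5) 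
(.lf (nat_lit 143967) (.g (nat_lit 2357) (.e (nat_lit 57367) (nat_lit 1) (.e (nat_lit 57847) (nat_lit 252) (.e (nat_lit 57437) (nat_lit 17) (.e (nat_lit 376859) (nat_lit 21) (.e (nat_lit 57931) (nat_lit 282) (.e (nat_lit 164084) (nat_lit 73) (.e (nat_lit 335995) (nat_lit 1) (.e (nat_lit 57848) (nat_lit 252) .nil)))))))) (.g (nat_lit 4) .nil .nil))) 
(.lf (nat_lit 143999) (.g (nat_lit 3197) (.e (nat_lit 57367) (nat_lit 1) (.e (nat_lit 57849) (nat_lit 252) (.e (nat_lit 57413) (nat_lit 12) (.e (nat_lit 336056) (nat_lit 7) (.e (nat_lit 319534) (nat_lit 16) (.e (nat_lit 286756) (nat_lit 10) (.e (nat_lit 344097) (nat_lit 18) (.e (nat_lit 5195) (nat_lit 294) .nil)))))))) (.g (nat_lit 5) .nil .nil)))))))))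

noncomputable def tv1910 : DT := (.nd (nat_lit 0) (.nd (nat_lit 1) (.nd (nat_lit 2) (.nd (nat_lit 3) (.nd (nat_lit 4) (.nd (nat_lit 5) 
(.lf (nat_lit 144000) (.g (nat_lit 3374) (.e (nat_lit 57367) (nat_lit 1) (.e (nat_lit 57849) (nat_lit 252) (.e (nat_lit 57413) (nat_lit 12) (.e (nat_lit 336060) (nat_lit 7) (.e (nat_lit 319533) (nat_lit 16) (.e (nat_lit 286753) (nat_lit 10) (.e (nat_lit 344097) (nat_lit 18) (.e (nat_lit 5195) (nat_lit 294) .nil)))))))) (.g (nat_lit 6) .nil .nil))) 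
(.lf (nat_lit 144032) (.g (nat_lit 2665) (.e (nat_lit 57368) (nat_lit 1) (.e (nat_lit 57851) (nat_lit 252) (.e (nat_lit 57406) (nat_lit 12) (.e (nat_lit 336446) (nat_lit 33) (.e (nat_lit 475214) (nat_lit 42) (.e (nat_lit 720956) (nat_lit 25) (.e (nat_lit 114711) (nat_lit 21) (.e (nat_lit 57847) (nat_lit 252) .nil)))))))) (.g (nat_lit 6) .nil .nil)))) (.nd (nat_lit 5) 
(.lf (nat_lit 144016) (.g (nat_lit 1499) (.e (nat_lit 57368) (nat_lit 1) (.e (nat_lit 57830) (nat_lit 250) (.e (nat_lit 1201) (nat_lit 88) (.e (nat_lit 65581) (nat_lit 7) .nil)))) .nil)) 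
(.lf (nat_lit 144048) (.g (nat_lit 2069) (.e (nat_lit 57368) (nat_lit 1) (.e (nat_lit 57851) (nat_lit 252) (.e (nat_lit 57413) (nat_lit 12) (.e (nat_lit 336060) (nat_lit 7) (.e (nat_lit 319533) (nat_lit 16) (.e (nat_lit 286753) (nat_lit 10) (.e (nat_lit 344097) (nat_lit 18) (.e (nat_lit 5195) (nat_lit 294) .nil)))))))) (.g (nat_lit 5) .nil .nil))))) (.nd (nat_lit 4) (.nd (nat_lit 5) 
(.lf (nat_lit 144008) (.g (nat_lit 2763) (.e (nat_lit 57367) (nat_lit 1) (.e (nat_lit 57870) (nat_lit 264) (.e (nat_lit 1220) (nat_lit 90) (.e (nat_lit 81956) (nat_lit 23) (.e (nat_lit 106240) (nat_lit 10) (.e (nat_lit 344094) (nat_lit 18) (.e (nat_lit 5570) (nat_lit 308) .nil))))))) (.g (nat_lit 4) .nil .nil))) 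
(.lf (nat_lit 144040) (.g (nat_lit 2394) (.e (nat_lit 57368) (nat_lit 1) (.e (nat_lit 57851) (nat_lit 252) (.e (nat_lit 57412) (nat_lit 12) (.e (nat_lit 336061) (nat_lit 7) (.e (nat_lit 319531) (nat_lit 16) (.e (nat_lit 286742) (nat_lit 9) (.e (nat_lit 335989) (nat_lit 1) (.e (nat_lit 57847) (nat_lit 252) .nil)))))))) (.g (nat_lit 5) .nil .nil)))) (.nd (nat_lit 5) 
(.lf (nat_lit 144024) (.g (nat_lit 3812) (.e (nat_lit 57368) (nat_lit 1) (.e (nat_lit 57830) (nat_lit 250) (.e (nat_lit 1201) (nat_lit 88) (.e (nat_lit 65586) (nat_lit 7) (.e (nat_lit 319531) (nat_lit 16) (.e (nat_lit 286753) (nat_lit 10) (.e (nat_lit 344097) (nat_lit 18) (.e (nat_lit 5195) (nat_lit 294) .nil)))))))) (.g (nat_lit 6) .nil .nil))) 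
(.lf (nat_lit 144056) (.g (nat_lit 3397) (.e (nat_lit 57368) (nat_lit 1) (.e (nat_lit 57852) (nat_lit 252) (.e (nat_lit 57404) (nat_lit 12) (.e (nat_lit 336054) (nat_lit 7) (.e (nat_lit 319534) (nat_lit 16) (.e (nat_lit 286756) (nat_lit 10) (.e (nat_lit 344097) (nat_lit 18) (.e (nat_lit 5195) (nat_lit 294) .nil)))))))) (.g (nat_lit 6) .nil .nil)))))) 
(.nd (nat_lit 3) (.nd (nat_lit 4) (.nd (nat_lit 5) 
(.lf (nat_lit 144004) (.g (nat_lit 1569) (.e (nat_lit 57367) (nat_lit 1) (.e (nat_lit 57853) (nat_lit 252) (.e (nat_lit 57412) (nat_lit 12) (.e (nat_lit 336060) (nat_lit 7) (.e (nat_lit 319533) (nat_lit 16) .nil))))) .nil)) 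
(.lf (nat_lit 144036) (.g (nat_lit 3804) (.e (nat_lit 57368) (nat_lit 1) (.e (nat_lit 57851) (nat_lit 252) (.e (nat_lit 57412) (nat_lit 12) (.e (nat_lit 336058) (nat_lit 7) (.e (nat_lit 319534) (nat_lit 16) (.e (nat_lit 286749) (nat_lit 9) (.e (nat_lit 335997) (nat_lit 1) (.e (nat_lit 57848) (nat_lit 252) .nil)))))))) (.g (nat_lit 0) .nil .nil)))) (.nd (nat_lit 5) 
(.lf (nat_lit 144020) (.g (nat_lit 3188) (.e (nat_lit 57368) (nat_lit 1) (.e (nat_lit 57830) (nat_lit 250) (.e (nat_lit 1201) (nat_lit 88) (.e (nat_lit 65585) (nat_lit 7) (.e (nat_lit 319533) (nat_lit 16) (.e (nat_lit 286753) (nat_lit 10) (.e (nat_lit 344097) (nat_lit 18) (.e (nat_lit 5195) (nat_lit 294) .nil)))))))) (.g (nat_lit 6) .nil .nil))) 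
(.lf (nat_lit 144052) (.g (nat_lit 973) (.e (nat_lit 57368) (nat_lit 1) (.e (nat_lit 57852) (nat_lit 252) (.e (nat_lit 57373) (nat_lit 2) .nil))) .nil)))) (.nd (nat_lit 4) (.nd (nat_lit 5) 
(.lf (nat_lit 144012) (.g (nat_lit 3028) (.e (nat_lit 57367) (nat_lit 1) (.e (nat_lit 57931) (nat_lit 282) (.e (nat_lit 163874) (nat_lit 3) (.e (nat_lit 204829) (nat_lit 18) (.e (nat_lit 57847) (nat_lit 252) .nil))))) .nil)) 
(.lf (nat_lit 144044) (.g (nat_lit 4405) (.e (nat_lit 57368) (nat_lit 1) (.e (nat_lit 57851) (nat_lit 252) (.e (nat_lit 57412) (nat_lit 12) (.e (nat_lit 336061) (nat_lit 7) (.e (nat_lit 319531) (nat_lit 16) (.e (nat_lit 286749) (nat_lit 9) (.e (nat_lit 335997) (nat_lit 1) (.e (nat_lit 57848) (nat_lit 252) .nil)))))))) (.g (nat_lit 0) .nil .nil)))) (.nd (nat_lit 5) 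
(.lf (nat_lit 144028) (.g (nat_lit 4410) (.e (nat_lit 57368) (nat_lit 1) (.e (nat_lit 57851) (nat_lit 252) (.e (nat_lit 57406) (nat_lit 12) (.e (nat_lit 336326) (nat_lit 18) (.e (nat_lit 204869) (nat_lit 29) (.e (nat_lit 360450) (nat_lit 0) (.e (nat_lit 7695) (nat_lit 412) .nil))))))) (.g (nat_lit 6) .nil .nil))) 
(.lf (nat_lit 144060) (.g (nat_lit 4017) (.e (nat_lit 57368) (nat_lit 1) (.e (nat_lit 57852) (nat_lit 252) (.e (nat_lit 57404) (nat_lit 12) (.e (nat_lit 336060) (nat_lit 7) (.e (nat_lit 319534) (nat_lit 16) (.e (nat_lit 286749) (nat_lit 9) (.e (nat_lit 335997) (nat_lit 1) (.e (nat_lit 57848) (nat_lit 252) .nil)))))))) (.g (nat_lit 8) .nil .nil))))))) 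
(.nd (nat_lit 2) (.nd (nat_lit 3) (.nd (nat_lit 4) (.nd (nat_lit 5) 
(.lf (nat_lit 144002) (.g (nat_lit 1164) (.e (nat_lit 57367) (nat_lit 1) (.e (nat_lit 57849) (nat_lit 252) (.e (nat_lit 57416) (nat_lit 12) .nil))) .nil)) 
(.lf (nat_lit 144034) (.g (nat_lit 3788) (.e (nat_lit 57368) (nat_lit 1) (.e (nat_lit 57851) (nat_lit 252) (.e (nat_lit 57412) (nat_lit 12) (.e (nat_lit 336054) (nat_lit 7) (.e (nat_lit 319534) (nat_lit 16) (.e (nat_lit 286749) (nat_lit 9) (.e (nat_lit 335997) (nat_lit 1) (.e (nat_lit 57848) (nat_lit 252) .nil)))))))) (.g (nat_lit 0) .nil .nil)))) (.nd (nat_lit 5) 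
(.lf (nat_lit 144018) (.g (nat_lit 3800) (.e (nat_lit 57368) (nat_lit 1) (.e (nat_lit 57830) (nat_lit 250) (.e (nat_lit 1201) (nat_lit 88) (.e (nat_lit 65583) (nat_lit 7) (.e (nat_lit 319534) (nat_lit 16) (.e (nat_lit 286756) (nat_lit 10) (.e (nat_lit 344097) (nat_lit 18) (.e (nat_lit 5195) (nat_lit 294) .nil)))))))) (.g (nat_lit 6) .nil .nil))) 
(.lf (nat_lit 144050) (.g (nat_lit 1794) (.e (nat_lit 57368) (nat_lit 1) (.e (nat_lit 57851) (nat_lit 252) (.e (nat_lit 57427) (nat_lit 15) (.e (nat_lit 360484) (nat_lit 15) (.e (nat_lit 647179) (nat_lit 2) .nil))))) .nil)))) (.nd (nat_lit 4) (.nd (nat_lit 5) 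
(.lf (nat_lit 144010) (.g (nat_lit 3049) (.e (nat_lit 57367) (nat_lit 1) (.e (nat_lit 57870) (nat_lit 264) (.e (nat_lit 1221) (nat_lit 90) (.e (nat_lit 81956) (nat_lit 23) (.e (nat_lit 106240) (nat_lit 10) (.e (nat_lit 344094) (nat_lit 18) (.e (nat_lit 5570) (nat_lit 308) .nil))))))) (.g (nat_lit 4) .nil .nil))) 
(.lf (nat_lit 144042) (.g (nat_lit 3800) (.e (nat_lit 57368) (nat_lit 1) (.e (nat_lit 57851) (nat_lit 252) (.e (nat_lit 57412) (nat_lit 12) (.e (nat_lit 336061) (nat_lit 7) (.e (nat_lit 319531) (nat_lit 16) (.e (nat_lit 286747) (nat_lit 9) (.e (nat_lit 335997) (nat_lit 1) (.e (nat_lit 57848) (nat_lit 252) .nil)))))))) (.g (nat_lit 0) .nil .nil)))) (.nd (nat_lit 5) 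
(.lf (nat_lit 144026) (.g (nat_lit 1014) (.e (nat_lit 57368) (nat_lit 1) (.e (nat_lit 57851) (nat_lit 252) (.e (nat_lit 57389) (nat_lit 5) (.e (nat_lit 114723) (nat_lit 24) .nil)))) .nil)) 
(.lf (nat_lit 144058) (.g (nat_lit 3634) (.e (nat_lit 57368) (nat_lit 1) (.e (nat_lit 57852) (nat_lit 252) (.e (nat_lit 57404) (nat_lit 12) (.e (nat_lit 336056) (nat_lit 7) (.e (nat_lit 319534) (nat_lit 16) (.e (nat_lit 286756) (nat_lit 10) (.e (nat_lit 344097) (nat_lit 18) (.e (nat_lit 5195) (nat_lit 294) .nil)))))))) (.g (nat_lit 6) .nil .nil)))))) 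
(.nd (nat_lit 3) (.nd (nat_lit 4) (.nd (nat_lit 5) 
(.lf (nat_lit 144006) (.g (nat_lit 1637) (.e (nat_lit 57367) (nat_lit 1) (.e (nat_lit 57870) (nat_lit 264) (.e (nat_lit 1219) (nat_lit 90) (.e (nat_lit 81954) (nat_lit 23) (.e (nat_lit 106240) (nat_lit 10) (.e (nat_lit 344096) (nat_lit 18) (.e (nat_lit 5568) (nat_lit 308) .nil))))))) (.g (nat_lit 4) .nil .nil))) 
(.lf (nat_lit 144038) (.g (nat_lit 681) (.e (nat_lit 57368) (nat_lit 1) (.e (nat_lit 57851) (nat_lit 252) (.e (nat_lit 57412) (nat_lit 12) (.e (nat_lit 336061) (nat_lit 7) .nil)))) .nil))) (.nd (nat_lit 5) 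
(.lf (nat_lit 144022) (.g (nat_lit 3746) (.e (nat_lit 57368) (nat_lit 1) (.e (nat_lit 57830) (nat_lit 250) (.e (nat_lit 1201) (nat_lit 88) (.e (nat_lit 65585) (nat_lit 7) (.e (nat_lit 319534) (nat_lit 16) (.e (nat_lit 286756) (nat_lit 10) (.e (nat_lit 344097) (nat_lit 18) (.e (nat_lit 5195) (nat_lit 294) .nil)))))))) (.g (nat_lit 6) .nil .nil))) 
(.lf (nat_lit 144054) (.g (nat_lit 2672) (.e (nat_lit 57368) (nat_lit 1) (.e (nat_lit 57852) (nat_lit 252) (.e (nat_lit 57404) (nat_lit 12) (.e (nat_lit 336054) (nat_lit 7) (.e (nat_lit 319533) (nat_lit 16) (.e (nat_lit 286753) (nat_lit 10) (.e (nat_lit 344097) (nat_lit 18) (.e (nat_lit 5195) (nat_lit 294) .nil)))))))) (.g (nat_lit 6) .nil .nil))))) (.nd (nat_lit 4) (.nd (nat_lit 5) 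
(.lf (nat_lit 144014) (.g (nat_lit 2733) (.e (nat_lit 57368) (nat_lit 1) (.e (nat_lit 57829) (nat_lit 250) (.e (nat_lit 1201) (nat_lit 88) (.e (nat_lit 65585) (nat_lit 7) (.e (nat_lit 319533) (nat_lit 16) (.e (nat_lit 286753) (nat_lit 10) (.e (nat_lit 344097) (nat_lit 18) (.e (nat_lit 5195) (nat_lit 294) .nil)))))))) (.g (nat_lit 6) .nil .nil))) 
(.lf (nat_lit 144046) (.g (nat_lit 3188) (.e (nat_lit 57368) (nat_lit 1) (.e (nat_lit 57851) (nat_lit 252) (.e (nat_lit 57412) (nat_lit 12) (.e (nat_lit 336061) (nat_lit 7) (.e (nat_lit 319531) (nat_lit 16) (.e (nat_lit 286753) (nat_lit 10) (.e (nat_lit 344097) (nat_lit 18) (.e (nat_lit 5195) (nat_lit 294) .nil)))))))) (.g (nat_lit 6) .nil .nil)))) (.nd (nat_lit 5) 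
(.lf (nat_lit 144030) (.g (nat_lit 2471) (.e (nat_lit 57368) (nat_lit 1) (.e (nat_lit 57851) (nat_lit 252) (.e (nat_lit 57406) (nat_lit 12) (.e (nat_lit 336446) (nat_lit 33) (.e (nat_lit 475212) (nat_lit 42) (.e (nat_lit 720956) (nat_lit 25) (.e (nat_lit 114711) (nat_lit 21) (.e (nat_lit 57847) (nat_lit 252) .nil)))))))) (.g (nat_lit 5) .nil .nil))) 
(.lf (nat_lit 144062) (.g (nat_lit 2248) (.e (nat_lit 57368) (nat_lit 1) (.e (nat_lit 57852) (nat_lit 252) (.e (nat_lit 57406) (nat_lit 12) (.e (nat_lit 336316) (nat_lit 17) (.e (nat_lit 196666) (nat_lit 13) .nil))))) .nil))))))) (.nd (nat_lit 1) (.nd (nat_lit 2) (.nd (nat_lit 3) (.nd (nat_lit 4) (.nd (nat_lit 5) 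
(.lf (nat_lit 144001) (.g (nat_lit 2962) (.e (nat_lit 57367) (nat_lit 1) (.e (nat_lit 57849) (nat_lit 252) (.e (nat_lit 57415) (nat_lit 12) (.e (nat_lit 336060) (nat_lit 7) (.e (nat_lit 319534) (nat_lit 16) (.e (nat_lit 286756) (nat_lit 10) (.e (nat_lit 344097) (nat_lit 18) (.e (nat_lit 5195) (nat_lit 294) .nil)))))))) (.g (nat_lit 5) .nil .nil))) 
(.lf (nat_lit 144033) (.g (nat_lit 2350) (.e (nat_lit 57368) (nat_lit 1) (.e (nat_lit 57851) (nat_lit 252) (.e (nat_lit 57406) (nat_lit 12) (.e (nat_lit 336450) (nat_lit 33) (.e (nat_lit 475212) (nat_lit 42) (.e (nat_lit 720956) (nat_lit 25) (.e (nat_lit 114711) (nat_lit 21) (.e (nat_lit 57847) (nat_lit 252) .nil)))))))) (.g (nat_lit 4) .nil .nil)))) (.nd (nat_lit 5) 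
(.lf (nat_lit 144017) (.g (nat_lit 3573) (.e (nat_lit 57368) (nat_lit 1) (.e (nat_lit 57830) (nat_lit 250) (.e (nat_lit 1201) (nat_lit 88) (.e (nat_lit 65583) (nat_lit 7) (.e (nat_lit 319534) (nat_lit 16) (.e (nat_lit 286749) (nat_lit 9) (.e (nat_lit 335997) (nat_lit 1) (.e (nat_lit 57848) (nat_lit 252) .nil)))))))) (.g (nat_lit 6) .nil .nil))) 
(.lf (nat_lit 144049) (.g (nat_lit 2114) (.e (nat_lit 57368) (nat_lit 1) (.e (nat_lit 57851) (nat_lit 252) (.e (nat_lit 57413) (nat_lit 12) (.e (nat_lit 336060) (nat_lit 7) (.e (nat_lit 319534) (nat_lit 16) (.e (nat_lit 286756) (nat_lit 10) (.e (nat_lit 344097) (nat_lit 18) (.e (nat_lit 5194) (nat_lit 294) .nil)))))))) (.g (nat_lit 5) .nil .nil))))) (.nd (nat_lit 4) (.nd (nat_lit 5) 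
(.lf (nat_lit 144009) (.g (nat_lit 2865) (.e (nat_lit 57367) (nat_lit 1) (.e (nat_lit 57870) (nat_lit 264) (.e (nat_lit 1221) (nat_lit 90) (.e (nat_lit 81956) (nat_lit 23) (.e (nat_lit 106240) (nat_lit 10) .nil))))) .nil)) 
(.lf (nat_lit 144041) (.g (nat_lit 3788) (.e (nat_lit 57368) (nat_lit 1) (.e (nat_lit 57851) (nat_lit 252) (.e (nat_lit 57412) (nat_lit 12) (.e (nat_lit 336061) (nat_lit 7) (.e (nat_lit 319531) (nat_lit 16) (.e (nat_lit 286742) (nat_lit 9) (.e (nat_lit 335997) (nat_lit 1) (.e (nat_lit 57848) (nat_lit 252) .nil)))))))) (.g (nat_lit 0) .nil .nil)))) (.nd (nat_lit 5) 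
(.lf (nat_lit 144025) (.g (nat_lit 3865) (.e (nat_lit 57368) (nat_lit 1) (.e (nat_lit 57830) (nat_lit 250) (.e (nat_lit 1201) (nat_lit 88) (.e (nat_lit 65586) (nat_lit 7) (.e (nat_lit 319533) (nat_lit 16) (.e (nat_lit 286753) (nat_lit 10) (.e (nat_lit 344097) (nat_lit 18) (.e (nat_lit 5194) (nat_lit 294) .nil)))))))) (.g (nat_lit 8) .nil .nil))) 
(.lf (nat_lit 144057) (.g (nat_lit 2874) (.e (nat_lit 57368) (nat_lit 1) (.e (nat_lit 57852) (nat_lit 252) (.e (nat_lit 57404) (nat_lit 12) (.e (nat_lit 336056) (nat_lit 7) (.e (nat_lit 319533) (nat_lit 16) (.e (nat_lit 286753) (nat_lit 10) (.e (nat_lit 344097) (nat_lit 18) (.e (nat_lit 5194) (nat_lit 294) .nil)))))))) (.g (nat_lit 5) .nil .nil)))))) 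
(.nd (nat_lit 3) (.nd (nat_lit 4) (.nd (nat_lit 5) 
(.lf (nat_lit 144005) (.g (nat_lit 1903) (.e (nat_lit 57367) (nat_lit 1) (.e (nat_lit 57853) (nat_lit 252) (.e (nat_lit 57412) (nat_lit 12) (.e (nat_lit 336060) (nat_lit 7) (.e (nat_lit 319534) (nat_lit 16) (.e (nat_lit 286756) (nat_lit 10) (.e (nat_lit 344097) (nat_lit 18) (.e (nat_lit 5195) (nat_lit 294) .nil)))))))) (.g (nat_lit 4) .nil .nil))) 
(.lf (nat_lit 144037) (.g (nat_lit 3392) (.e (nat_lit 57368) (nat_lit 1) (.e (nat_lit 57851) (nat_lit 252) (.e (nat_lit 57412) (nat_lit 12) (.e (nat_lit 336060) (nat_lit 7) (.e (nat_lit 319534) (nat_lit 16) (.e (nat_lit 286749) (nat_lit 9) (.e (nat_lit 335997) (nat_lit 1) (.e (nat_lit 57848) (nat_lit 252) .nil)))))))) (.g (nat_lit 0) .nil .nil)))) (.nd (nat_lit 5) 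
(.lf (nat_lit 144021) (.g (nat_lit 3537) (.e (nat_lit 57368) (nat_lit 1) (.e (nat_lit 57830) (nat_lit 250) (.e (nat_lit 1201) (nat_lit 88) (.e (nat_lit 65585) (nat_lit 7) (.e (nat_lit 319534) (nat_lit 16) (.e (nat_lit 286756) (nat_lit 10) (.e (nat_lit 344097) (nat_lit 18) (.e (nat_lit 5194) (nat_lit 294) .nil)))))))) (.g (nat_lit 6) .nil .nil))) 
(.lf (nat_lit 144053) (.g (nat_lit 2376) (.e (nat_lit 57368) (nat_lit 1) (.e (nat_lit 57852) (nat_lit 252) (.e (nat_lit 57404) (nat_lit 12) (.e (nat_lit 336054) (nat_lit 7) (.e (nat_lit 319533) (nat_lit 16) (.e (nat_lit 286753) (nat_lit 10) (.e (nat_lit 344097) (nat_lit 18) (.e (nat_lit 5194) (nat_lit 294) .nil)))))))) (.g (nat_lit 5) .nil .nil))))) (.nd (nat_lit 4) (.nd (nat_lit 5) 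
(.lf (nat_lit 144013) (.g (nat_lit 1921) (.e (nat_lit 57367) (nat_lit 1) (.e (nat_lit 57931) (nat_lit 282) (.e (nat_lit 163943) (nat_lit 19) (.e (nat_lit 483350) (nat_lit 17) .nil)))) .nil)) 
(.lf (nat_lit 144045) (.g (nat_lit 2552) (.e (nat_lit 57368) (nat_lit 1) (.e (nat_lit 57851) (nat_lit 252) (.e (nat_lit 57412) (nat_lit 12) (.e (nat_lit 336061) (nat_lit 7) (.e (nat_lit 319531) (nat_lit 16) (.e (nat_lit 286750) (nat_lit 9) (.e (nat_lit 335993) (nat_lit 1) (.e (nat_lit 57847) (nat_lit 252) .nil)))))))) (.g (nat_lit 5) .nil .nil)))) (.nd (nat_lit 5) 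
(.lf (nat_lit 144029) (.g (nat_lit 4322) (.e (nat_lit 57368) (nat_lit 1) (.e (nat_lit 57851) (nat_lit 252) (.e (nat_lit 57406) (nat_lit 12) (.e (nat_lit 336326) (nat_lit 18) (.e (nat_lit 204869) (nat_lit 29) (.e (nat_lit 360451) (nat_lit 0) (.e (nat_lit 7695) (nat_lit 412) .nil))))))) (.g (nat_lit 6) .nil .nil))) 
(.lf (nat_lit 144061) (.g (nat_lit 1997) (.e (nat_lit 57368) (nat_lit 1) (.e (nat_lit 57852) (nat_lit 252) (.e (nat_lit 57406) (nat_lit 12) (.e (nat_lit 336240) (nat_lit 15) (.e (nat_lit 3453) (nat_lit 216) .nil))))) .nil)))))) (.nd (nat_lit 2) (.nd (nat_lit 3) (.nd (nat_lit 4) (.nd (nat_lit 5) 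
(.lf (nat_lit 144003) (.g (nat_lit 2596) (.e (nat_lit 57367) (nat_lit 1) (.e (nat_lit 57849) (nat_lit 252) (.e (nat_lit 57416) (nat_lit 12) (.e (nat_lit 336060) (nat_lit 7) (.e (nat_lit 319533) (nat_lit 16) (.e (nat_lit 286753) (nat_lit 10) (.e (nat_lit 344097) (nat_lit 18) (.e (nat_lit 5195) (nat_lit 294) .nil)))))))) (.g (nat_lit 5) .nil .nil))) 
(.lf (nat_lit 144035) (.g (nat_lit 3878) (.e (nat_lit 57368) (nat_lit 1) (.e (nat_lit 57851) (nat_lit 252) (.e (nat_lit 57412) (nat_lit 12) (.e (nat_lit 336054) (nat_lit 7) (.e (nat_lit 319534) (nat_lit 16) (.e (nat_lit 286756) (nat_lit 10) (.e (nat_lit 344097) (nat_lit 18) (.e (nat_lit 5195) (nat_lit 294) .nil)))))))) (.g (nat_lit 8) .nil .nil)))) (.nd (nat_lit 5) 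
(.lf (nat_lit 144019) (.g (nat_lit 3101) (.e (nat_lit 57368) (nat_lit 1) (.e (nat_lit 57830) (nat_lit 250) (.e (nat_lit 1201) (nat_lit 88) (.e (nat_lit 65585) (nat_lit 7) (.e (nat_lit 319533) (nat_lit 16) (.e (nat_lit 286753) (nat_lit 10) (.e (nat_lit 344097) (nat_lit 18) (.e (nat_lit 5194) (nat_lit 294) .nil)))))))) (.g (nat_lit 6) .nil .nil))) 
(.lf (nat_lit 144051) (.g (nat_lit 1376) (.e (nat_lit 57368) (nat_lit 1) (.e (nat_lit 57851) (nat_lit 252) (.e (nat_lit 57445) (nat_lit 19) (.e (nat_lit 393217) (nat_lit 0) .nil)))) .nil)))) (.nd (nat_lit 4) (.nd (nat_lit 5) 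
(.lf (nat_lit 144011) (.g (nat_lit 3116) (.e (nat_lit 57367) (nat_lit 1) (.e (nat_lit 57872) (nat_lit 264) (.e (nat_lit 1221) (nat_lit 90) (.e (nat_lit 81956) (nat_lit 23) (.e (nat_lit 106240) (nat_lit 10) .nil))))) .nil)) 
(.lf (nat_lit 144043) (.g (nat_lit 3400) (.e (nat_lit 57368) (nat_lit 1) (.e (nat_lit 57851) (nat_lit 252) (.e (nat_lit 57412) (nat_lit 12) (.e (nat_lit 336061) (nat_lit 7) (.e (nat_lit 319531) (nat_lit 16) (.e (nat_lit 286748) (nat_lit 9) (.e (nat_lit 335997) (nat_lit 1) (.e (nat_lit 57848) (nat_lit 252) .nil)))))))) (.g (nat_lit 0) .nil .nil)))) (.nd (nat_lit 5) 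
(.lf (nat_lit 144027) (.g (nat_lit 1574) (.e (nat_lit 57368) (nat_lit 1) (.e (nat_lit 57851) (nat_lit 252) (.e (nat_lit 57406) (nat_lit 12) (.e (nat_lit 336240) (nat_lit 15) .nil)))) .nil)) 
(.lf (nat_lit 144059) (.g (nat_lit 3641) (.e (nat_lit 57368) (nat_lit 1) (.e (nat_lit 57852) (nat_lit 252) (.e (nat_lit 57404) (nat_lit 12) (.e (nat_lit 336060) (nat_lit 7) (.e (nat_lit 319533) (nat_lit 16) (.e (nat_lit 286753) (nat_lit 10) (.e (nat_lit 344097) (nat_lit 18) (.e (nat_lit 5194) (nat_lit 294) .nil)))))))) (.g (nat_lit 7) .nil .nil)))))) 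
(.nd (nat_lit 3) (.nd (nat_lit 4) (.nd (nat_lit 5) 
(.lf (nat_lit 144007) (.g (nat_lit 2588) (.e (nat_lit 57367) (nat_lit 1) (.e (nat_lit 57870) (nat_lit 264) (.e (nat_lit 1220) (nat_lit 90) (.e (nat_lit 81956) (nat_lit 23) (.e (nat_lit 106240) (nat_lit 10) .nil))))) .nil)) 
(.lf (nat_lit 144039) (.g (nat_lit 2428) (.e (nat_lit 57368) (nat_lit 1) (.e (nat_lit 57851) (nat_lit 252) (.e (nat_lit 57412) (nat_lit 12) (.e (nat_lit 336061) (nat_lit 7) (.e (nat_lit 319531) (nat_lit 16) (.e (nat_lit 286742) (nat_lit 9) (.e (nat_lit 335985) (nat_lit 1) (.e (nat_lit 57849) (nat_lit 252) .nil)))))))) (.g (nat_lit 5) .nil .nil)))) (.nd (nat_lit 5) 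
(.lf (nat_lit 144023) (.g (nat_lit 3735) (.e (nat_lit 57368) (nat_lit 1) (.e (nat_lit 57830) (nat_lit 250) (.e (nat_lit 1201) (nat_lit 88) (.e (nat_lit 65586) (nat_lit 7) (.e (nat_lit 319531) (nat_lit 16) (.e (nat_lit 286753) (nat_lit 10) (.e (nat_lit 344097) (nat_lit 18) (.e (nat_lit 5194) (nat_lit 294) .nil)))))))) (.g (nat_lit 6) .nil .nil))) 
(.lf (nat_lit 144055) (.g (nat_lit 3210) (.e (nat_lit 57368) (nat_lit 1) (.e (nat_lit 57852) (nat_lit 252) (.e (nat_lit 57404) (nat_lit 12) (.e (nat_lit 336054) (nat_lit 7) (.e (nat_lit 319534) (nat_lit 16) (.e (nat_lit 286749) (nat_lit 9) (.e (nat_lit 335997) (nat_lit 1) (.e (nat_lit 57848) (nat_lit 252) .nil)))))))) (.g (nat_lit 6) .nil .nil))))) (.nd (nat_lit 4) (.nd (nat_lit 5) 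
(.lf (nat_lit 144015) (.g (nat_lit 3684) (.e (nat_lit 57368) (nat_lit 1) (.e (nat_lit 57830) (nat_lit 250) (.e (nat_lit 1183) (nat_lit 87) (.e (nat_lit 57480) (nat_lit 28) (.e (nat_lit 557109) (nat_lit 15) (.e (nat_lit 188461) (nat_lit 26) (.e (nat_lit 253959) (nat_lit 9) (.e (nat_lit 1181) (nat_lit 87) (.e (nat_lit 57848) (nat_lit 252) .nil))))))))) (.g (nat_lit 5) .nil .nil))) 
(.lf (nat_lit 144047) (.g (nat_lit 4405) (.e (nat_lit 57368) (nat_lit 1) (.e (nat_lit 57851) (nat_lit 252) (.e (nat_lit 57412) (nat_lit 12) (.e (nat_lit 336061) (nat_lit 7) (.e (nat_lit 319534) (nat_lit 16) (.e (nat_lit 286749) (nat_lit 9) (.e (nat_lit 335997) (nat_lit 1) (.e (nat_lit 57848) (nat_lit 252) .nil)))))))) (.g (nat_lit 0) .nil .nil)))) (.nd (nat_lit 5) 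
(.lf (nat_lit 144031) (.g (nat_lit 1436) (.e (nat_lit 57368) (nat_lit 1) (.e (nat_lit 57851) (nat_lit 252) (.e (nat_lit 57406) (nat_lit 12) (.e (nat_lit 336446) (nat_lit 33) (.e (nat_lit 475213) (nat_lit 42) (.e (nat_lit 720956) (nat_lit 25) (.e (nat_lit 114711) (nat_lit 21) (.e (nat_lit 57847) (nat_lit 252) .nil)))))))) (.g (nat_lit 4) .nil .nil))) 
(.lf (nat_lit 144063) (.g (nat_lit 1368) (.e (nat_lit 57368) (nat_lit 1) (.e (nat_lit 57852) (nat_lit 252) (.e (nat_lit 57406) (nat_lit 12) (.e (nat_lit 336326) (nat_lit 18) .nil)))) .nil))))))))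

noncomputable def tv1911 : DT := (.nd (nat_lit 0) (.nd (nat_lit 1) (.nd (nat_lit 2) (.nd (nat_lit 3) (.nd (nat_lit 4) (.nd (nat_lit 5) 
(.lf (nat_lit 144064) (.g (nat_lit 2366) (.e (nat_lit 57368) (nat_lit 1) (.e (nat_lit 57852) (nat_lit 252) (.e (nat_lit 57406) (nat_lit 12) (.e (nat_lit 336326) (nat_lit 18) (.e (nat_lit 204868) (nat_lit 29) .nil))))) .nil)) 
(.lf (nat_lit 144096) (.g (nat_lit 3590) (.e (nat_lit 57368) (nat_lit 1) (.e (nat_lit 57853) (nat_lit 252) (.e (nat_lit 57412) (nat_lit 12) (.e (nat_lit 336058) (nat_lit 7) (.e (nat_lit 319534) (nat_lit 16) (.e (nat_lit 286756) (nat_lit 10) (.e (nat_lit 344097) (nat_lit 18) (.e (nat_lit 5195) (nat_lit 294) .nil)))))))) (.g (nat_lit 6) .nil .nil)))) (.nd (nat_lit 5) 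
(.lf (nat_lit 144080) (.g (nat_lit 3711) (.e (nat_lit 57368) (nat_lit 1) (.e (nat_lit 57852) (nat_lit 252) (.e (nat_lit 57415) (nat_lit 12) (.e (nat_lit 336060) (nat_lit 7) (.e (nat_lit 319534) (nat_lit 16) (.e (nat_lit 286749) (nat_lit 9) (.e (nat_lit 335997) (nat_lit 1) (.e (nat_lit 57848) (nat_lit 252) .nil)))))))) (.g (nat_lit 8) .nil .nil))) 
(.lf (nat_lit 144112) (.g (nat_lit 1833) (.e (nat_lit 57368) (nat_lit 1) (.e (nat_lit 57853) (nat_lit 252) (.e (nat_lit 57427) (nat_lit 15) (.e (nat_lit 360478) (nat_lit 12) (.e (nat_lit 622616) (nat_lit 9) .nil))))) .nil)))) (.nd (nat_lit 4) (.nd (nat_lit 5) 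
(.lf (nat_lit 144072) (.g (nat_lit 3220) (.e (nat_lit 57368) (nat_lit 1) (.e (nat_lit 57852) (nat_lit 252) (.e (nat_lit 57412) (nat_lit 12) (.e (nat_lit 336061) (nat_lit 7) (.e (nat_lit 319531) (nat_lit 16) (.e (nat_lit 286749) (nat_lit 9) (.e (nat_lit 335997) (nat_lit 1) (.e (nat_lit 57848) (nat_lit 252) .nil)))))))) (.g (nat_lit 5) .nil .nil))) 
(.lf (nat_lit 144104) (.g (nat_lit 3436) (.e (nat_lit 57368) (nat_lit 1) (.e (nat_lit 57853) (nat_lit 252) (.e (nat_lit 57412) (nat_lit 12) (.e (nat_lit 336061) (nat_lit 7) (.e (nat_lit 319534) (nat_lit 16) (.e (nat_lit 286749) (nat_lit 9) (.e (nat_lit 335997) (nat_lit 1) (.e (nat_lit 57848) (nat_lit 252) .nil)))))))) (.g (nat_lit 5) .nil .nil)))) (.nd (nat_lit 5) 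
(.lf (nat_lit 144088) (.g (nat_lit 1528) (.e (nat_lit 57368) (nat_lit 1) (.e (nat_lit 57852) (nat_lit 252) (.e (nat_lit 57427) (nat_lit 15) (.e (nat_lit 360483) (nat_lit 15) .nil)))) .nil)) 
(.lf (nat_lit 144120) (.g (nat_lit 3012) (.e (nat_lit 57368) (nat_lit 1) (.e (nat_lit 57854) (nat_lit 252) (.e (nat_lit 57373) (nat_lit 2) (.e (nat_lit 90162) (nat_lit 12) .nil)))) .nil))))) (.nd (nat_lit 3) (.nd (nat_lit 4) (.nd (nat_lit 5) 
(.lf (nat_lit 144068) (.g (nat_lit 2357) (.e (nat_lit 57368) (nat_lit 1) (.e (nat_lit 57852) (nat_lit 252) (.e (nat_lit 57412) (nat_lit 12) (.e (nat_lit 336058) (nat_lit 7) (.e (nat_lit 319533) (nat_lit 16) (.e (nat_lit 286753) (nat_lit 10) (.e (nat_lit 344097) (nat_lit 18) (.e (nat_lit 5194) (nat_lit 294) .nil)))))))) (.g (nat_lit 4) .nil .nil))) 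
(.lf (nat_lit 144100) (.g (nat_lit 2389) (.e (nat_lit 57368) (nat_lit 1) (.e (nat_lit 57853) (nat_lit 252) (.e (nat_lit 57412) (nat_lit 12) (.e (nat_lit 336061) (nat_lit 7) (.e (nat_lit 319531) (nat_lit 16) (.e (nat_lit 286748) (nat_lit 9) (.e (nat_lit 335997) (nat_lit 1) (.e (nat_lit 57848) (nat_lit 252) .nil)))))))) (.g (nat_lit 5) .nil .nil)))) (.nd (nat_lit 5) 
(.lf (nat_lit 144084) (.g (nat_lit 4222) (.e (nat_lit 57368) (nat_lit 1) (.e (nat_lit 57852) (nat_lit 252) (.e (nat_lit 57419) (nat_lit 12) (.e (nat_lit 336059) (nat_lit 7) (.e (nat_lit 319534) (nat_lit 16) (.e (nat_lit 286756) (nat_lit 10) (.e (nat_lit 344097) (nat_lit 18) (.e (nat_lit 5195) (nat_lit 294) .nil)))))))) (.g (nat_lit 7) .nil .nil))) 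
(.lf (nat_lit 144116) (.g (nat_lit 3216) (.e (nat_lit 57368) (nat_lit 1) (.e (nat_lit 57854) (nat_lit 252) (.e (nat_lit 57373) (nat_lit 2) (.e (nat_lit 90112) (nat_lit 0) (.e (nat_lit 1583) (nat_lit 111) .nil))))) .nil)))) (.nd (nat_lit 4) (.nd (nat_lit 5) 
(.lf (nat_lit 144076) (.g (nat_lit 2336) (.e (nat_lit 57368) (nat_lit 1) (.e (nat_lit 57852) (nat_lit 252) (.e (nat_lit 57413) (nat_lit 12) (.e (nat_lit 336054) (nat_lit 7) (.e (nat_lit 319534) (nat_lit 16) (.e (nat_lit 286756) (nat_lit 10) (.e (nat_lit 344097) (nat_lit 18) (.e (nat_lit 5194) (nat_lit 294) .nil)))))))) (.g (nat_lit 5) .nil .nil))) 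
(.lf (nat_lit 144108) (.g (nat_lit 3206) (.e (nat_lit 57368) (nat_lit 1) (.e (nat_lit 57853) (nat_lit 252) (.e (nat_lit 57413) (nat_lit 12) (.e (nat_lit 336060) (nat_lit 7) (.e (nat_lit 319533) (nat_lit 16) (.e (nat_lit 286753) (nat_lit 10) (.e (nat_lit 344097) (nat_lit 18) (.e (nat_lit 5195) (nat_lit 294) .nil)))))))) (.g (nat_lit 7) .nil .nil)))) (.nd (nat_lit 5) 
(.lf (nat_lit 144092) (.g (nat_lit 2168) (.e (nat_lit 57368) (nat_lit 1) (.e (nat_lit 57853) (nat_lit 252) (.e (nat_lit 57412) (nat_lit 12) (.e (nat_lit 336054) (nat_lit 7) (.e (nat_lit 319533) (nat_lit 16) (.e (nat_lit 286753) (nat_lit 10) (.e (nat_lit 344097) (nat_lit 18) (.e (nat_lit 5195) (nat_lit 294) .nil)))))))) (.g (nat_lit 5) .nil .nil))) 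
(.lf (nat_lit 144124) (.g (nat_lit 1951) (.e (nat_lit 57368) (nat_lit 1) (.e (nat_lit 57854) (nat_lit 252) (.e (nat_lit 57378) (nat_lit 3) (.e (nat_lit 98341) (nat_lit 20) (.e (nat_lit 229120) (nat_lit 18) (.e (nat_lit 393251) (nat_lit 18) (.e (nat_lit 164183) (nat_lit 154) .nil))))))) (.g (nat_lit 4) .nil .nil))))))) (.nd (nat_lit 2) (.nd (nat_lit 3) (.nd (nat_lit 4) (.nd (nat_lit 5) 
(.lf (nat_lit 144066) (.g (nat_lit 3497) (.e (nat_lit 57368) (nat_lit 1) (.e (nat_lit 57852) (nat_lit 252) (.e (nat_lit 57406) (nat_lit 12) (.e (nat_lit 336450) (nat_lit 33) (.e (nat_lit 475212) (nat_lit 42) (.e (nat_lit 720956) (nat_lit 25) (.e (nat_lit 114711) (nat_lit 21) (.e (nat_lit 57847) (nat_lit 252) .nil)))))))) (.g (nat_lit 6) .nil .nil))) 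
(.lf (nat_lit 144098) (.g (nat_lit 1558) (.e (nat_lit 57368) (nat_lit 1) (.e (nat_lit 57853) (nat_lit 252) (.e (nat_lit 57412) (nat_lit 12) (.e (nat_lit 336061) (nat_lit 7) (.e (nat_lit 319531) (nat_lit 16) .nil))))) .nil))) (.nd (nat_lit 5) 
(.lf (nat_lit 144082) (.g (nat_lit 3833) (.e (nat_lit 57368) (nat_lit 1) (.e (nat_lit 57852) (nat_lit 252) (.e (nat_lit 57419) (nat_lit 12) (.e (nat_lit 336059) (nat_lit 7) (.e (nat_lit 319534) (nat_lit 16) (.e (nat_lit 286749) (nat_lit 9) (.e (nat_lit 335997) (nat_lit 1) (.e (nat_lit 57848) (nat_lit 252) .nil)))))))) (.g (nat_lit 7) .nil .nil))) 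
(.lf (nat_lit 144114) (.g (nat_lit 1011) (.e (nat_lit 57368) (nat_lit 1) (.e (nat_lit 57853) (nat_lit 252) (.e (nat_lit 57445) (nat_lit 19) (.e (nat_lit 393229) (nat_lit 9) .nil)))) .nil)))) (.nd (nat_lit 4) (.nd (nat_lit 5) 
(.lf (nat_lit 144074) (.g (nat_lit 2038) (.e (nat_lit 57368) (nat_lit 1) (.e (nat_lit 57852) (nat_lit 252) (.e (nat_lit 57413) (nat_lit 12) (.e (nat_lit 336054) (nat_lit 7) (.e (nat_lit 319533) (nat_lit 16) (.e (nat_lit 286753) (nat_lit 10) (.e (nat_lit 344097) (nat_lit 18) (.e (nat_lit 5195) (nat_lit 294) .nil)))))))) (.g (nat_lit 5) .nil .nil))) 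
(.lf (nat_lit 144106) (.g (nat_lit 2525) (.e (nat_lit 57368) (nat_lit 1) (.e (nat_lit 57853) (nat_lit 252) (.e (nat_lit 57413) (nat_lit 12) (.e (nat_lit 336056) (nat_lit 7) (.e (nat_lit 319533) (nat_lit 16) (.e (nat_lit 286753) (nat_lit 10) (.e (nat_lit 344097) (nat_lit 18) (.e (nat_lit 5195) (nat_lit 294) .nil)))))))) (.g (nat_lit 5) .nil .nil)))) (.nd (nat_lit 5) 
(.lf (nat_lit 144090) (.g (nat_lit 445) (.e (nat_lit 57368) (nat_lit 1) (.e (nat_lit 57852) (nat_lit 252) (.e (nat_lit 57445) (nat_lit 19) .nil))) .nil)) 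
(.lf (nat_lit 144122) (.g (nat_lit 1310) (.e (nat_lit 57368) (nat_lit 1) (.e (nat_lit 57854) (nat_lit 252) (.e (nat_lit 57378) (nat_lit 3) (.e (nat_lit 98341) (nat_lit 20) .nil)))) .nil))))) (.nd (nat_lit 3) (.nd (nat_lit 4) (.nd (nat_lit 5) 
(.lf (nat_lit 144070) (.g (nat_lit 1889) (.e (nat_lit 57368) (nat_lit 1) (.e (nat_lit 57852) (nat_lit 252) (.e (nat_lit 57412) (nat_lit 12) (.e (nat_lit 336061) (nat_lit 7) (.e (nat_lit 319531) (nat_lit 16) .nil))))) .nil)) 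
(.lf (nat_lit 144102) (.g (nat_lit 3134) (.e (nat_lit 57368) (nat_lit 1) (.e (nat_lit 57853) (nat_lit 252) (.e (nat_lit 57412) (nat_lit 12) (.e (nat_lit 336061) (nat_lit 7) (.e (nat_lit 319531) (nat_lit 16) (.e (nat_lit 286756) (nat_lit 10) (.e (nat_lit 344097) (nat_lit 18) (.e (nat_lit 5194) (nat_lit 294) .nil)))))))) (.g (nat_lit 5) .nil .nil)))) (.nd (nat_lit 5) 
(.lf (nat_lit 144086) (.g (nat_lit 3553) (.e (nat_lit 57368) (nat_lit 1) (.e (nat_lit 57852) (nat_lit 252) (.e (nat_lit 57421) (nat_lit 13) (.e (nat_lit 344144) (nat_lit 31) (.e (nat_lit 598041) (nat_lit 10) (.e (nat_lit 81950) (nat_lit 21) (.e (nat_lit 57848) (nat_lit 252) .nil))))))) (.g (nat_lit 0) .nil .nil))) 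
(.lf (nat_lit 144118) (.g (nat_lit 2737) (.e (nat_lit 57368) (nat_lit 1) (.e (nat_lit 57854) (nat_lit 252) (.e (nat_lit 57373) (nat_lit 2) (.e (nat_lit 98048) (nat_lit 6) .nil)))) .nil)))) (.nd (nat_lit 4) (.nd (nat_lit 5) 
(.lf (nat_lit 144078) (.g (nat_lit 2872) (.e (nat_lit 57368) (nat_lit 1) (.e (nat_lit 57852) (nat_lit 252) (.e (nat_lit 57413) (nat_lit 12) (.e (nat_lit 336056) (nat_lit 7) (.e (nat_lit 319534) (nat_lit 16) (.e (nat_lit 286749) (nat_lit 9) (.e (nat_lit 335997) (nat_lit 1) (.e (nat_lit 57848) (nat_lit 252) .nil)))))))) (.g (nat_lit 5) .nil .nil))) 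
(.lf (nat_lit 144110) (.g (nat_lit 3012) (.e (nat_lit 57368) (nat_lit 1) (.e (nat_lit 57853) (nat_lit 252) (.e (nat_lit 57413) (nat_lit 12) (.e (nat_lit 336060) (nat_lit 7) (.e (nat_lit 319534) (nat_lit 16) (.e (nat_lit 286756) (nat_lit 10) (.e (nat_lit 344097) (nat_lit 18) (.e (nat_lit 5194) (nat_lit 294) .nil)))))))) (.g (nat_lit 6) .nil .nil)))) (.nd (nat_lit 5) 
(.lf (nat_lit 144094) (.g (nat_lit 2542) (.e (nat_lit 57368) (nat_lit 1) (.e (nat_lit 57853) (nat_lit 252) (.e (nat_lit 57412) (nat_lit 12) (.e (nat_lit 336058) (nat_lit 7) (.e (nat_lit 319533) (nat_lit 16) (.e (nat_lit 286753) (nat_lit 10) (.e (nat_lit 344097) (nat_lit 18) (.e (nat_lit 5194) (nat_lit 294) .nil)))))))) (.g (nat_lit 5) .nil .nil))) 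
(.lf (nat_lit 144126) (.g (nat_lit 2313) (.e (nat_lit 57368) (nat_lit 1) (.e (nat_lit 57854) (nat_lit 252) (.e (nat_lit 57404) (nat_lit 12) (.e (nat_lit 336054) (nat_lit 7) (.e (nat_lit 319533) (nat_lit 16) (.e (nat_lit 286753) (nat_lit 10) (.e (nat_lit 344097) (nat_lit 18) (.e (nat_lit 5194) (nat_lit 294) .nil)))))))) (.g (nat_lit 5) .nil .nil)))))))) 
(.nd (nat_lit 1) (.nd (nat_lit 2) (.nd (nat_lit 3) (.nd (nat_lit 4) (.nd (nat_lit 5) 
(.lf (nat_lit 144065) (.g (nat_lit 2014) (.e (nat_lit 57368) (nat_lit 1) (.e (nat_lit 57852) (nat_lit 252) (.e (nat_lit 57406) (nat_lit 12) (.e (nat_lit 336360) (nat_lit 25) (.e (nat_lit 409648) (nat_lit 18) (.e (nat_lit 303137) (nat_lit 10) (.e (nat_lit 434199) (nat_lit 18) (.e (nat_lit 6401) (nat_lit 339) .nil)))))))) (.g (nat_lit 4) .nil .nil))) 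
(.lf (nat_lit 144097) (.g (nat_lit 3631) (.e (nat_lit 57368) (nat_lit 1) (.e (nat_lit 57853) (nat_lit 252) (.e (nat_lit 57412) (nat_lit 12) (.e (nat_lit 336060) (nat_lit 7) (.e (nat_lit 319534) (nat_lit 16) (.e (nat_lit 286756) (nat_lit 10) (.e (nat_lit 344097) (nat_lit 18) (.e (nat_lit 5194) (nat_lit 294) .nil)))))))) (.g (nat_lit 7) .nil .nil)))) (.nd (nat_lit 5) 
(.lf (nat_lit 144081) (.g (nat_lit 3546) (.e (nat_lit 57368) (nat_lit 1) (.e (nat_lit 57852) (nat_lit 252) (.e (nat_lit 57419) (nat_lit 12) (.e (nat_lit 336059) (nat_lit 7) (.e (nat_lit 319533) (nat_lit 16) (.e (nat_lit 286753) (nat_lit 10) (.e (nat_lit 344097) (nat_lit 18) (.e (nat_lit 5194) (nat_lit 294) .nil)))))))) (.g (nat_lit 7) .nil .nil))) 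
(.lf (nat_lit 144113) (.g (nat_lit 1500) (.e (nat_lit 57368) (nat_lit 1) (.e (nat_lit 57853) (nat_lit 252) (.e (nat_lit 57427) (nat_lit 15) (.e (nat_lit 360483) (nat_lit 15) .nil)))) .nil)))) (.nd (nat_lit 4) (.nd (nat_lit 5) 
(.lf (nat_lit 144073) (.g (nat_lit 3376) (.e (nat_lit 57368) (nat_lit 1) (.e (nat_lit 57852) (nat_lit 252) (.e (nat_lit 57412) (nat_lit 12) (.e (nat_lit 336061) (nat_lit 7) (.e (nat_lit 319531) (nat_lit 16) (.e (nat_lit 286756) (nat_lit 10) (.e (nat_lit 344097) (nat_lit 18) (.e (nat_lit 5195) (nat_lit 294) .nil)))))))) (.g (nat_lit 5) .nil .nil))) 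
(.lf (nat_lit 144105) (.g (nat_lit 4009) (.e (nat_lit 57368) (nat_lit 1) (.e (nat_lit 57853) (nat_lit 252) (.e (nat_lit 57412) (nat_lit 12) (.e (nat_lit 336061) (nat_lit 7) (.e (nat_lit 319534) (nat_lit 16) (.e (nat_lit 286756) (nat_lit 10) (.e (nat_lit 344097) (nat_lit 18) (.e (nat_lit 5195) (nat_lit 294) .nil)))))))) (.g (nat_lit 6) .nil .nil)))) (.nd (nat_lit 5) 
(.lf (nat_lit 144089) (.g (nat_lit 1693) (.e (nat_lit 57368) (nat_lit 1) (.e (nat_lit 57852) (nat_lit 252) (.e (nat_lit 57427) (nat_lit 15) (.e (nat_lit 360484) (nat_lit 15) .nil)))) .nil)) 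
(.lf (nat_lit 144121) (.g (nat_lit 555) (.e (nat_lit 57368) (nat_lit 1) (.e (nat_lit 57854) (nat_lit 252) (.e (nat_lit 57378) (nat_lit 3) .nil))) .nil))))) (.nd (nat_lit 3) (.nd (nat_lit 4) (.nd (nat_lit 5) 
(.lf (nat_lit 144069) (.g (nat_lit 3725) (.e (nat_lit 57368) (nat_lit 1) (.e (nat_lit 57852) (nat_lit 252) (.e (nat_lit 57412) (nat_lit 12) (.e (nat_lit 336060) (nat_lit 7) (.e (nat_lit 319534) (nat_lit 16) (.e (nat_lit 286749) (nat_lit 9) (.e (nat_lit 335997) (nat_lit 1) (.e (nat_lit 57848) (nat_lit 252) .nil)))))))) (.g (nat_lit 7) .nil .nil))) 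
(.lf (nat_lit 144101) (.g (nat_lit 3293) (.e (nat_lit 57368) (nat_lit 1) (.e (nat_lit 57853) (nat_lit 252) (.e (nat_lit 57412) (nat_lit 12) (.e (nat_lit 336061) (nat_lit 7) (.e (nat_lit 319531) (nat_lit 16) (.e (nat_lit 286751) (nat_lit 10) (.e (nat_lit 344097) (nat_lit 18) (.e (nat_lit 5195) (nat_lit 294) .nil)))))))) (.g (nat_lit 5) .nil .nil)))) (.nd (nat_lit 5) 
(.lf (nat_lit 144085) (.g (nat_lit 922) (.e (nat_lit 57368) (nat_lit 1) (.e (nat_lit 57852) (nat_lit 252) (.e (nat_lit 57421) (nat_lit 13) .nil))) .nil)) 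
(.lf (nat_lit 144117) (.g (nat_lit 2737) (.e (nat_lit 57368) (nat_lit 1) (.e (nat_lit 57854) (nat_lit 252) (.e (nat_lit 57373) (nat_lit 2) (.e (nat_lit 98048) (nat_lit 4) .nil)))) .nil)))) (.nd (nat_lit 4) (.nd (nat_lit 5) 
(.lf (nat_lit 144077) (.g (nat_lit 2512) (.e (nat_lit 57368) (nat_lit 1) (.e (nat_lit 57852) (nat_lit 252) (.e (nat_lit 57413) (nat_lit 12) (.e (nat_lit 336056) (nat_lit 7) (.e (nat_lit 319533) (nat_lit 16) (.e (nat_lit 286753) (nat_lit 10) (.e (nat_lit 344097) (nat_lit 18) (.e (nat_lit 5194) (nat_lit 294) .nil)))))))) (.g (nat_lit 5) .nil .nil))) 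
(.lf (nat_lit 144109) (.g (nat_lit 3257) (.e (nat_lit 57368) (nat_lit 1) (.e (nat_lit 57853) (nat_lit 252) (.e (nat_lit 57413) (nat_lit 12) (.e (nat_lit 336060) (nat_lit 7) (.e (nat_lit 319534) (nat_lit 16) (.e (nat_lit 286749) (nat_lit 9) (.e (nat_lit 335997) (nat_lit 1) (.e (nat_lit 57848) (nat_lit 252) .nil)))))))) (.g (nat_lit 7) .nil .nil)))) (.nd (nat_lit 5) 
(.lf (nat_lit 144093) (.g (nat_lit 2574) (.e (nat_lit 57368) (nat_lit 1) (.e (nat_lit 57853) (nat_lit 252) (.e (nat_lit 57412) (nat_lit 12) (.e (nat_lit 336054) (nat_lit 7) (.e (nat_lit 319534) (nat_lit 16) (.e (nat_lit 286749) (nat_lit 9) (.e (nat_lit 335997) (nat_lit 1) (.e (nat_lit 57848) (nat_lit 252) .nil)))))))) (.g (nat_lit 5) .nil .nil))) 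
(.lf (nat_lit 144125) (.g (nat_lit 1038) (.e (nat_lit 57368) (nat_lit 1) (.e (nat_lit 57854) (nat_lit 252) (.e (nat_lit 57389) (nat_lit 5) (.e (nat_lit 114722) (nat_lit 24) .nil)))) .nil)))))) (.nd (nat_lit 2) (.nd (nat_lit 3) (.nd (nat_lit 4) (.nd (nat_lit 5) 
(.lf (nat_lit 144067) (.g (nat_lit 1882) (.e (nat_lit 57368) (nat_lit 1) (.e (nat_lit 57852) (nat_lit 252) (.e (nat_lit 57412) (nat_lit 12) (.e (nat_lit 336054) (nat_lit 7) (.e (nat_lit 319533) (nat_lit 16) .nil))))) .nil)) 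
(.lf (nat_lit 144099) (.g (nat_lit 1965) (.e (nat_lit 57368) (nat_lit 1) (.e (nat_lit 57853) (nat_lit 252) (.e (nat_lit 57412) (nat_lit 12) (.e (nat_lit 336061) (nat_lit 7) (.e (nat_lit 319531) (nat_lit 16) (.e (nat_lit 286748) (nat_lit 9) (.e (nat_lit 335991) (nat_lit 1) (.e (nat_lit 57849) (nat_lit 252) .nil)))))))) (.g (nat_lit 4) .nil .nil)))) (.nd (nat_lit 5) 
(.lf (nat_lit 144083) (.g (nat_lit 3800) (.e (nat_lit 57368) (nat_lit 1) (.e (nat_lit 57852) (nat_lit 252) (.e (nat_lit 57419) (nat_lit 12) (.e (nat_lit 336059) (nat_lit 7) (.e (nat_lit 319534) (nat_lit 16) (.e (nat_lit 286756) (nat_lit 10) (.e (nat_lit 344097) (nat_lit 18) (.e (nat_lit 5194) (nat_lit 294) .nil)))))))) (.g (nat_lit 6) .nil .nil))) 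
(.lf (nat_lit 144115) (.g (nat_lit 4390) (.e (nat_lit 57368) (nat_lit 1) (.e (nat_lit 57854) (nat_lit 252) (.e (nat_lit 57347) (nat_lit 0) (.e (nat_lit 2160) (nat_lit 143) (.e (nat_lit 712755) (nat_lit 30) (.e (nat_lit 450588) (nat_lit 10) (.e (nat_lit 573449) (nat_lit 9) (.e (nat_lit 1183) (nat_lit 87) (.e (nat_lit 57848) (nat_lit 252) .nil))))))))) (.g (nat_lit 7) .nil .nil))))) 
(.nd (nat_lit 4) (.nd (nat_lit 5) 
(.lf (nat_lit 144075) (.g (nat_lit 2567) (.e (nat_lit 57368) (nat_lit 1) (.e (nat_lit 57852) (nat_lit 252) (.e (nat_lit 57413) (nat_lit 12) (.e (nat_lit 336054) (nat_lit 7) (.e (nat_lit 319534) (nat_lit 16) (.e (nat_lit 286749) (nat_lit 9) (.e (nat_lit 335997) (nat_lit 1) (.e (nat_lit 57848) (nat_lit 252) .nil)))))))) (.g (nat_lit 5) .nil .nil))) 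
(.lf (nat_lit 144107) (.g (nat_lit 2748) (.e (nat_lit 57368) (nat_lit 1) (.e (nat_lit 57853) (nat_lit 252) (.e (nat_lit 57413) (nat_lit 12) (.e (nat_lit 336060) (nat_lit 7) (.e (nat_lit 319533) (nat_lit 16) (.e (nat_lit 286753) (nat_lit 10) (.e (nat_lit 344097) (nat_lit 18) (.e (nat_lit 5194) (nat_lit 294) .nil)))))))) (.g (nat_lit 6) .nil .nil)))) (.nd (nat_lit 5) 
(.lf (nat_lit 144091) (.g (nat_lit 2010) (.e (nat_lit 57368) (nat_lit 1) (.e (nat_lit 57853) (nat_lit 252) (.e (nat_lit 57406) (nat_lit 12) (.e (nat_lit 336450) (nat_lit 33) (.e (nat_lit 475212) (nat_lit 42) .nil))))) .nil)) 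
(.lf (nat_lit 144123) (.g (nat_lit 2056) (.e (nat_lit 57368) (nat_lit 1) (.e (nat_lit 57854) (nat_lit 252) (.e (nat_lit 57378) (nat_lit 3) (.e (nat_lit 98341) (nat_lit 20) (.e (nat_lit 229120) (nat_lit 18) (.e (nat_lit 393251) (nat_lit 18) (.e (nat_lit 164182) (nat_lit 154) .nil))))))) (.g (nat_lit 4) .nil .nil)))))) (.nd (nat_lit 3) (.nd (nat_lit 4) (.nd (nat_lit 5) 
(.lf (nat_lit 144071) (.g (nat_lit 2215) (.e (nat_lit 57368) (nat_lit 1) (.e (nat_lit 57852) (nat_lit 252) (.e (nat_lit 57412) (nat_lit 12) (.e (nat_lit 336061) (nat_lit 7) (.e (nat_lit 319531) (nat_lit 16) (.e (nat_lit 286748) (nat_lit 9) (.e (nat_lit 335997) (nat_lit 1) (.e (nat_lit 57848) (nat_lit 252) .nil)))))))) (.g (nat_lit 4) .nil .nil))) 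
(.lf (nat_lit 144103) (.g (nat_lit 3271) (.e (nat_lit 57368) (nat_lit 1) (.e (nat_lit 57853) (nat_lit 252) (.e (nat_lit 57412) (nat_lit 12) (.e (nat_lit 336061) (nat_lit 7) (.e (nat_lit 319533) (nat_lit 16) (.e (nat_lit 286753) (nat_lit 10) (.e (nat_lit 344097) (nat_lit 18) (.e (nat_lit 5194) (nat_lit 294) .nil)))))))) (.g (nat_lit 5) .nil .nil)))) (.nd (nat_lit 5) 
(.lf (nat_lit 144087) (.g (nat_lit 1748) (.e (nat_lit 57368) (nat_lit 1) (.e (nat_lit 57852) (nat_lit 252) (.e (nat_lit 57427) (nat_lit 15) (.e (nat_lit 360478) (nat_lit 12) .nil)))) .nil)) 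
(.lf (nat_lit 144119) (.g (nat_lit 3837) (.e (nat_lit 57368) (nat_lit 1) (.e (nat_lit 57854) (nat_lit 252) (.e (nat_lit 57373) (nat_lit 2) (.e (nat_lit 98048) (nat_lit 6) (.e (nat_lit 81953) (nat_lit 22) (.e (nat_lit 90165) (nat_lit 12) (.e (nat_lit 163849) (nat_lit 0) (.e (nat_lit 4527) (nat_lit 265) .nil)))))))) (.g (nat_lit 5) .nil .nil))))) (.nd (nat_lit 4) (.nd (nat_lit 5) 
(.lf (nat_lit 144079) (.g (nat_lit 2854) (.e (nat_lit 57368) (nat_lit 1) (.e (nat_lit 57852) (nat_lit 252) (.e (nat_lit 57413) (nat_lit 12) (.e (nat_lit 336056) (nat_lit 7) (.e (nat_lit 319534) (nat_lit 16) (.e (nat_lit 286756) (nat_lit 10) (.e (nat_lit 344097) (nat_lit 18) (.e (nat_lit 5194) (nat_lit 294) .nil)))))))) (.g (nat_lit 5) .nil .nil))) 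
(.lf (nat_lit 144111) (.g (nat_lit 634) (.e (nat_lit 57368) (nat_lit 1) (.e (nat_lit 57853) (nat_lit 252) (.e (nat_lit 57427) (nat_lit 15) .nil))) .nil))) (.nd (nat_lit 5) 
(.lf (nat_lit 144095) (.g (nat_lit 2843) (.e (nat_lit 57368) (nat_lit 1) (.e (nat_lit 57853) (nat_lit 252) (.e (nat_lit 57412) (nat_lit 12) (.e (nat_lit 336058) (nat_lit 7) (.e (nat_lit 319534) (nat_lit 16) (.e (nat_lit 286749) (nat_lit 9) (.e (nat_lit 335997) (nat_lit 1) (.e (nat_lit 57848) (nat_lit 252) .nil)))))))) (.g (nat_lit 5) .nil .nil))) 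
(.lf (nat_lit 144127) (.g (nat_lit 2730) (.e (nat_lit 57368) (nat_lit 1) (.e (nat_lit 57854) (nat_lit 252) (.e (nat_lit 57404) (nat_lit 12) (.e (nat_lit 336054) (nat_lit 7) (.e (nat_lit 319533) (nat_lit 16) (.e (nat_lit 286753) (nat_lit 10) (.e (nat_lit 344097) (nat_lit 18) (.e (nat_lit 5195) (nat_lit 294) .nil)))))))) (.g (nat_lit 6) .nil .nil)))))))))

noncomputable def tv1912 : DT := (.nd (nat_lit 0) (.nd (nat_lit 1) (.nd (nat_lit 2) (.nd (nat_lit 3) (.nd (nat_lit 4) (.nd (nat_lit 5) 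
(.lf (nat_lit 144128) (.g (nat_lit 3002) (.e (nat_lit 57368) (nat_lit 1) (.e (nat_lit 57854) (nat_lit 252) (.e (nat_lit 57404) (nat_lit 12) (.e (nat_lit 336054) (nat_lit 7) (.e (nat_lit 319534) (nat_lit 16) (.e (nat_lit 286749) (nat_lit 9) (.e (nat_lit 335997) (nat_lit 1) (.e (nat_lit 57848) (nat_lit 252) .nil)))))))) (.g (nat_lit 6) .nil .nil))) 
(.lf (nat_lit 144160) (.g (nat_lit 2383) (.e (nat_lit 57368) (nat_lit 1) (.e (nat_lit 57854) (nat_lit 252) (.e (nat_lit 57406) (nat_lit 12) (.e (nat_lit 336360) (nat_lit 25) (.e (nat_lit 409648) (nat_lit 18) (.e (nat_lit 303137) (nat_lit 10) (.e (nat_lit 434209) (nat_lit 18) (.e (nat_lit 6391) (nat_lit 339) .nil)))))))) (.g (nat_lit 5) .nil .nil)))) (.nd (nat_lit 5) 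
(.lf (nat_lit 144144) (.g (nat_lit 1068) (.e (nat_lit 57368) (nat_lit 1) (.e (nat_lit 57854) (nat_lit 252) (.e (nat_lit 57406) (nat_lit 12) (.e (nat_lit 336326) (nat_lit 18) .nil)))) .nil)) 
(.lf (nat_lit 144176) (.g (nat_lit 2420) (.e (nat_lit 57368) (nat_lit 1) (.e (nat_lit 57854) (nat_lit 252) (.e (nat_lit 57409) (nat_lit 12) (.e (nat_lit 336240) (nat_lit 15) (.e (nat_lit 3455) (nat_lit 216) .nil))))) .nil)))) (.nd (nat_lit 4) (.nd (nat_lit 5) 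
(.lf (nat_lit 144136) (.g (nat_lit 4172) (.e (nat_lit 57368) (nat_lit 1) (.e (nat_lit 57854) (nat_lit 252) (.e (nat_lit 57404) (nat_lit 12) (.e (nat_lit 336060) (nat_lit 7) (.e (nat_lit 319534) (nat_lit 16) (.e (nat_lit 286756) (nat_lit 10) (.e (nat_lit 344097) (nat_lit 18) (.e (nat_lit 5195) (nat_lit 294) .nil)))))))) (.g (nat_lit 8) .nil .nil))) 
(.lf (nat_lit 144168) (.g (nat_lit 1577) (.e (nat_lit 57368) (nat_lit 1) (.e (nat_lit 57854) (nat_lit 252) (.e (nat_lit 57409) (nat_lit 12) (.e (nat_lit 336053) (nat_lit 7) .nil)))) .nil))) (.nd (nat_lit 5) 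
(.lf (nat_lit 144152) (.g (nat_lit 5367) (.e (nat_lit 57368) (nat_lit 1) (.e (nat_lit 57854) (nat_lit 252) (.e (nat_lit 57406) (nat_lit 12) (.e (nat_lit 336326) (nat_lit 18) (.e (nat_lit 204869) (nat_lit 29) (.e (nat_lit 360450) (nat_lit 0) (.e (nat_lit 7695) (nat_lit 412) .nil))))))) (.g (nat_lit 6) .nil .nil))) 
(.lf (nat_lit 144184) (.g (nat_lit 2719) (.e (nat_lit 57368) (nat_lit 1) (.e (nat_lit 57854) (nat_lit 252) (.e (nat_lit 57409) (nat_lit 12) (.e (nat_lit 336360) (nat_lit 25) (.e (nat_lit 409648) (nat_lit 18) (.e (nat_lit 303137) (nat_lit 10) (.e (nat_lit 434209) (nat_lit 18) (.e (nat_lit 6391) (nat_lit 339) .nil)))))))) (.g (nat_lit 5) .nil .nil)))))) 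
(.nd (nat_lit 3) (.nd (nat_lit 4) (.nd (nat_lit 5) 
(.lf (nat_lit 144132) (.g (nat_lit 3026) (.e (nat_lit 57368) (nat_lit 1) (.e (nat_lit 57854) (nat_lit 252) (.e (nat_lit 57404) (nat_lit 12) (.e (nat_lit 336056) (nat_lit 7) (.e (nat_lit 319534) (nat_lit 16) (.e (nat_lit 286749) (nat_lit 9) (.e (nat_lit 335997) (nat_lit 1) (.e (nat_lit 57848) (nat_lit 252) .nil)))))))) (.g (nat_lit 5) .nil .nil))) 
(.lf (nat_lit 144164) (.g (nat_lit 3204) (.e (nat_lit 57368) (nat_lit 1) (.e (nat_lit 57854) (nat_lit 252) (.e (nat_lit 57406) (nat_lit 12) (.e (nat_lit 336448) (nat_lit 33) (.e (nat_lit 475214) (nat_lit 42) (.e (nat_lit 720956) (nat_lit 25) (.e (nat_lit 114711) (nat_lit 21) (.e (nat_lit 57847) (nat_lit 252) .nil)))))))) (.g (nat_lit 6) .nil .nil)))) (.nd (nat_lit 5) 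
(.lf (nat_lit 144148) (.g (nat_lit 3079) (.e (nat_lit 57368) (nat_lit 1) (.e (nat_lit 57854) (nat_lit 252) (.e (nat_lit 57406) (nat_lit 12) (.e (nat_lit 336326) (nat_lit 18) (.e (nat_lit 204868) (nat_lit 29) (.e (nat_lit 360456) (nat_lit 0) (.e (nat_lit 7936) (nat_lit 412) .nil))))))) (.g (nat_lit 5) .nil .nil))) 
(.lf (nat_lit 144180) (.g (nat_lit 3332) (.e (nat_lit 57368) (nat_lit 1) (.e (nat_lit 57854) (nat_lit 252) (.e (nat_lit 57409) (nat_lit 12) (.e (nat_lit 336324) (nat_lit 18) (.e (nat_lit 204868) (nat_lit 29) (.e (nat_lit 360456) (nat_lit 0) (.e (nat_lit 7936) (nat_lit 412) .nil))))))) (.g (nat_lit 4) .nil .nil))))) (.nd (nat_lit 4) (.nd (nat_lit 5) 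
(.lf (nat_lit 144140) (.g (nat_lit 4036) (.e (nat_lit 57368) (nat_lit 1) (.e (nat_lit 57854) (nat_lit 252) (.e (nat_lit 57405) (nat_lit 12) (.e (nat_lit 336053) (nat_lit 7) (.e (nat_lit 319534) (nat_lit 16) (.e (nat_lit 286756) (nat_lit 10) (.e (nat_lit 344097) (nat_lit 18) (.e (nat_lit 5195) (nat_lit 294) .nil)))))))) (.g (nat_lit 8) .nil .nil))) 
(.lf (nat_lit 144172) (.g (nat_lit 1987) (.e (nat_lit 57368) (nat_lit 1) (.e (nat_lit 57854) (nat_lit 252) (.e (nat_lit 57409) (nat_lit 12) (.e (nat_lit 336208) (nat_lit 12) .nil)))) .nil))) (.nd (nat_lit 5) 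
(.lf (nat_lit 144156) (.g (nat_lit 2701) (.e (nat_lit 57368) (nat_lit 1) (.e (nat_lit 57854) (nat_lit 252) (.e (nat_lit 57406) (nat_lit 12) (.e (nat_lit 336326) (nat_lit 18) (.e (nat_lit 204870) (nat_lit 29) (.e (nat_lit 360453) (nat_lit 0) (.e (nat_lit 7936) (nat_lit 412) .nil))))))) (.g (nat_lit 5) .nil .nil))) 
(.lf (nat_lit 144188) (.g (nat_lit 3246) (.e (nat_lit 57368) (nat_lit 1) (.e (nat_lit 57854) (nat_lit 252) (.e (nat_lit 57409) (nat_lit 12) (.e (nat_lit 336360) (nat_lit 25) (.e (nat_lit 409649) (nat_lit 18) (.e (nat_lit 303132) (nat_lit 9) (.e (nat_lit 426109) (nat_lit 1) (.e (nat_lit 164181) (nat_lit 154) .nil)))))))) (.g (nat_lit 5) .nil .nil))))))) 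
(.nd (nat_lit 2) (.nd (nat_lit 3) (.nd (nat_lit 4) (.nd (nat_lit 5) 
(.lf (nat_lit 144130) (.g (nat_lit 2811) (.e (nat_lit 57368) (nat_lit 1) (.e (nat_lit 57854) (nat_lit 252) (.e (nat_lit 57404) (nat_lit 12) (.e (nat_lit 336056) (nat_lit 7) (.e (nat_lit 319533) (nat_lit 16) (.e (nat_lit 286753) (nat_lit 10) (.e (nat_lit 344097) (nat_lit 18) (.e (nat_lit 5194) (nat_lit 294) .nil)))))))) (.g (nat_lit 5) .nil .nil))) 
(.lf (nat_lit 144162) (.g (nat_lit 3879) (.e (nat_lit 57368) (nat_lit 1) (.e (nat_lit 57854) (nat_lit 252) (.e (nat_lit 57406) (nat_lit 12) (.e (nat_lit 336360) (nat_lit 25) (.e (nat_lit 409649) (nat_lit 18) (.e (nat_lit 303132) (nat_lit 9) (.e (nat_lit 426109) (nat_lit 1) (.e (nat_lit 164183) (nat_lit 154) .nil)))))))) (.g (nat_lit 6) .nil .nil)))) (.nd (nat_lit 5) 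
(.lf (nat_lit 144146) (.g (nat_lit 2813) (.e (nat_lit 57368) (nat_lit 1) (.e (nat_lit 57854) (nat_lit 252) (.e (nat_lit 57406) (nat_lit 12) (.e (nat_lit 336326) (nat_lit 18) (.e (nat_lit 204868) (nat_lit 29) (.e (nat_lit 360449) (nat_lit 0) (.e (nat_lit 7695) (nat_lit 412) .nil))))))) (.g (nat_lit 5) .nil .nil))) 
(.lf (nat_lit 144178) (.g (nat_lit 1938) (.e (nat_lit 57368) (nat_lit 1) (.e (nat_lit 57854) (nat_lit 252) (.e (nat_lit 57409) (nat_lit 12) (.e (nat_lit 336314) (nat_lit 16) .nil)))) .nil)))) (.nd (nat_lit 4) (.nd (nat_lit 5) 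
(.lf (nat_lit 144138) (.g (nat_lit 3676) (.e (nat_lit 57368) (nat_lit 1) (.e (nat_lit 57854) (nat_lit 252) (.e (nat_lit 57405) (nat_lit 12) (.e (nat_lit 336053) (nat_lit 7) (.e (nat_lit 319533) (nat_lit 16) (.e (nat_lit 286753) (nat_lit 10) (.e (nat_lit 344097) (nat_lit 18) (.e (nat_lit 5195) (nat_lit 294) .nil)))))))) (.g (nat_lit 8) .nil .nil))) 
(.lf (nat_lit 144170) (.g (nat_lit 4465) (.e (nat_lit 57368) (nat_lit 1) (.e (nat_lit 57854) (nat_lit 252) (.e (nat_lit 57409) (nat_lit 12) (.e (nat_lit 336053) (nat_lit 7) (.e (nat_lit 319534) (nat_lit 16) (.e (nat_lit 286756) (nat_lit 10) (.e (nat_lit 344097) (nat_lit 18) (.e (nat_lit 5194) (nat_lit 294) .nil)))))))) (.g (nat_lit 6) .nil .nil)))) (.nd (nat_lit 5) 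
(.lf (nat_lit 144154) (.g (nat_lit 3922) (.e (nat_lit 57368) (nat_lit 1) (.e (nat_lit 57854) (nat_lit 252) (.e (nat_lit 57406) (nat_lit 12) (.e (nat_lit 336326) (nat_lit 18) (.e (nat_lit 204869) (nat_lit 29) (.e (nat_lit 360456) (nat_lit 0) (.e (nat_lit 7936) (nat_lit 412) .nil))))))) (.g (nat_lit 6) .nil .nil))) 
(.lf (nat_lit 144186) (.g (nat_lit 2053) (.e (nat_lit 57368) (nat_lit 1) (.e (nat_lit 57854) (nat_lit 252) (.e (nat_lit 57409) (nat_lit 12) (.e (nat_lit 336360) (nat_lit 25) (.e (nat_lit 409648) (nat_lit 18) (.e (nat_lit 303137) (nat_lit 10) (.e (nat_lit 434211) (nat_lit 18) (.e (nat_lit 6400) (nat_lit 339) .nil)))))))) (.g (nat_lit 4) .nil .nil)))))) 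
(.nd (nat_lit 3) (.nd (nat_lit 4) (.nd (nat_lit 5) 
(.lf (nat_lit 144134) (.g (nat_lit 3795) (.e (nat_lit 57368) (nat_lit 1) (.e (nat_lit 57854) (nat_lit 252) (.e (nat_lit 57404) (nat_lit 12) (.e (nat_lit 336060) (nat_lit 7) (.e (nat_lit 319533) (nat_lit 16) (.e (nat_lit 286753) (nat_lit 10) (.e (nat_lit 344097) (nat_lit 18) (.e (nat_lit 5195) (nat_lit 294) .nil)))))))) (.g (nat_lit 8) .nil .nil))) 
(.lf (nat_lit 144166) (.g (nat_lit 2765) (.e (nat_lit 57368) (nat_lit 1) (.e (nat_lit 57854) (nat_lit 252) (.e (nat_lit 57409) (nat_lit 12) (.e (nat_lit 336000) (nat_lit 1) (.e (nat_lit 57686) (nat_lit 156) (.e (nat_lit 163932) (nat_lit 17) (.e (nat_lit 466972) (nat_lit 21) (.e (nat_lit 164182) (nat_lit 154) .nil)))))))) (.g (nat_lit 4) .nil .nil)))) (.nd (nat_lit 5) 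
(.lf (nat_lit 144150) (.g (nat_lit 3092) (.e (nat_lit 57368) (nat_lit 1) (.e (nat_lit 57854) (nat_lit 252) (.e (nat_lit 57406) (nat_lit 12) (.e (nat_lit 336326) (nat_lit 18) (.e (nat_lit 204869) (nat_lit 29) (.e (nat_lit 360448) (nat_lit 0) (.e (nat_lit 7694) (nat_lit 412) .nil))))))) (.g (nat_lit 5) .nil .nil))) 
(.lf (nat_lit 144182) (.g (nat_lit 2473) (.e (nat_lit 57368) (nat_lit 1) (.e (nat_lit 57854) (nat_lit 252) (.e (nat_lit 57409) (nat_lit 12) (.e (nat_lit 336360) (nat_lit 25) (.e (nat_lit 409648) (nat_lit 18) (.e (nat_lit 303137) (nat_lit 10) (.e (nat_lit 434199) (nat_lit 18) (.e (nat_lit 6398) (nat_lit 339) .nil)))))))) (.g (nat_lit 5) .nil .nil))))) (.nd (nat_lit 4) (.nd (nat_lit 5) 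
(.lf (nat_lit 144142) (.g (nat_lit 1420) (.e (nat_lit 57368) (nat_lit 1) (.e (nat_lit 57854) (nat_lit 252) (.e (nat_lit 57406) (nat_lit 12) (.e (nat_lit 336324) (nat_lit 18) .nil)))) .nil)) 
(.lf (nat_lit 144174) (.g (nat_lit 1835) (.e (nat_lit 57368) (nat_lit 1) (.e (nat_lit 57854) (nat_lit 252) (.e (nat_lit 57409) (nat_lit 12) (.e (nat_lit 336240) (nat_lit 15) .nil)))) .nil))) (.nd (nat_lit 5) 
(.lf (nat_lit 144158) (.g (nat_lit 2137) (.e (nat_lit 57368) (nat_lit 1) (.e (nat_lit 57854) (nat_lit 252) (.e (nat_lit 57406) (nat_lit 12) (.e (nat_lit 336360) (nat_lit 25) (.e (nat_lit 409648) (nat_lit 18) (.e (nat_lit 303137) (nat_lit 10) (.e (nat_lit 434199) (nat_lit 18) (.e (nat_lit 6398) (nat_lit 339) .nil)))))))) (.g (nat_lit 4) .nil .nil))) 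
(.lf (nat_lit 144190) (.g (nat_lit 3194) (.e (nat_lit 57368) (nat_lit 1) (.e (nat_lit 57854) (nat_lit 252) (.e (nat_lit 57409) (nat_lit 12) (.e (nat_lit 336360) (nat_lit 25) (.e (nat_lit 409649) (nat_lit 18) (.e (nat_lit 303140) (nat_lit 10) (.e (nat_lit 434199) (nat_lit 18) (.e (nat_lit 6398) (nat_lit 339) .nil)))))))) (.g (nat_lit 5) .nil .nil)))))))) 
(.nd (nat_lit 1) (.nd (nat_lit 2) (.nd (nat_lit 3) (.nd (nat_lit 4) (.nd (nat_lit 5) 
(.lf (nat_lit 144129) (.g (nat_lit 3455) (.e (nat_lit 57368) (nat_lit 1) (.e (nat_lit 57854) (nat_lit 252) (.e (nat_lit 57404) (nat_lit 12) (.e (nat_lit 336054) (nat_lit 7) (.e (nat_lit 319534) (nat_lit 16) (.e (nat_lit 286756) (nat_lit 10) (.e (nat_lit 344097) (nat_lit 18) (.e (nat_lit 5195) (nat_lit 294) .nil)))))))) (.g (nat_lit 6) .nil .nil))) 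
(.lf (nat_lit 144161) (.g (nat_lit 2910) (.e (nat_lit 57368) (nat_lit 1) (.e (nat_lit 57854) (nat_lit 252) (.e (nat_lit 57406) (nat_lit 12) (.e (nat_lit 336360) (nat_lit 25) (.e (nat_lit 409649) (nat_lit 18) (.e (nat_lit 303132) (nat_lit 9) (.e (nat_lit 426109) (nat_lit 1) (.e (nat_lit 164181) (nat_lit 154) .nil)))))))) (.g (nat_lit 5) .nil .nil)))) (.nd (nat_lit 5) 
(.lf (nat_lit 144145) (.g (nat_lit 1740) (.e (nat_lit 57368) (nat_lit 1) (.e (nat_lit 57854) (nat_lit 252) (.e (nat_lit 57406) (nat_lit 12) (.e (nat_lit 336326) (nat_lit 18) (.e (nat_lit 204868) (nat_lit 29) .nil))))) .nil)) 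
(.lf (nat_lit 144177) (.g (nat_lit 1748) (.e (nat_lit 57368) (nat_lit 1) (.e (nat_lit 57854) (nat_lit 252) (.e (nat_lit 57409) (nat_lit 12) (.e (nat_lit 336258) (nat_lit 15) .nil)))) .nil)))) (.nd (nat_lit 4) (.nd (nat_lit 5) 
(.lf (nat_lit 144137) (.g (nat_lit 3218) (.e (nat_lit 57368) (nat_lit 1) (.e (nat_lit 57854) (nat_lit 252) (.e (nat_lit 57405) (nat_lit 12) (.e (nat_lit 336053) (nat_lit 7) (.e (nat_lit 319533) (nat_lit 16) (.e (nat_lit 286753) (nat_lit 10) (.e (nat_lit 344097) (nat_lit 18) (.e (nat_lit 5194) (nat_lit 294) .nil)))))))) (.g (nat_lit 6) .nil .nil))) 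
(.lf (nat_lit 144169) (.g (nat_lit 4807) (.e (nat_lit 57368) (nat_lit 1) (.e (nat_lit 57854) (nat_lit 252) (.e (nat_lit 57409) (nat_lit 12) (.e (nat_lit 336053) (nat_lit 7) (.e (nat_lit 319533) (nat_lit 16) (.e (nat_lit 286753) (nat_lit 10) (.e (nat_lit 344097) (nat_lit 18) (.e (nat_lit 5195) (nat_lit 294) .nil)))))))) (.g (nat_lit 8) .nil .nil)))) (.nd (nat_lit 5) 
(.lf (nat_lit 144153) (.g (nat_lit 5279) (.e (nat_lit 57368) (nat_lit 1) (.e (nat_lit 57854) (nat_lit 252) (.e (nat_lit 57406) (nat_lit 12) (.e (nat_lit 336326) (nat_lit 18) (.e (nat_lit 204869) (nat_lit 29) (.e (nat_lit 360451) (nat_lit 0) (.e (nat_lit 7695) (nat_lit 412) .nil))))))) (.g (nat_lit 6) .nil .nil))) 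
(.lf (nat_lit 144185) (.g (nat_lit 2267) (.e (nat_lit 57368) (nat_lit 1) (.e (nat_lit 57854) (nat_lit 252) (.e (nat_lit 57409) (nat_lit 12) (.e (nat_lit 336360) (nat_lit 25) (.e (nat_lit 409648) (nat_lit 18) (.e (nat_lit 303137) (nat_lit 10) (.e (nat_lit 434209) (nat_lit 18) (.e (nat_lit 6398) (nat_lit 339) .nil)))))))) (.g (nat_lit 5) .nil .nil)))))) 
(.nd (nat_lit 3) (.nd (nat_lit 4) (.nd (nat_lit 5) 
(.lf (nat_lit 144133) (.g (nat_lit 3692) (.e (nat_lit 57368) (nat_lit 1) (.e (nat_lit 57854) (nat_lit 252) (.e (nat_lit 57404) (nat_lit 12) (.e (nat_lit 336056) (nat_lit 7) (.e (nat_lit 319534) (nat_lit 16) (.e (nat_lit 286756) (nat_lit 10) (.e (nat_lit 344097) (nat_lit 18) (.e (nat_lit 5195) (nat_lit 294) .nil)))))))) (.g (nat_lit 6) .nil .nil))) 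
(.lf (nat_lit 144165) (.g (nat_lit 432) (.e (nat_lit 57368) (nat_lit 1) (.e (nat_lit 57854) (nat_lit 252) (.e (nat_lit 57409) (nat_lit 12) .nil))) .nil))) (.nd (nat_lit 5) 
(.lf (nat_lit 144149) (.g (nat_lit 3267) (.e (nat_lit 57368) (nat_lit 1) (.e (nat_lit 57854) (nat_lit 252) (.e (nat_lit 57406) (nat_lit 12) (.e (nat_lit 336326) (nat_lit 18) (.e (nat_lit 204869) (nat_lit 29) (.e (nat_lit 360448) (nat_lit 0) (.e (nat_lit 7693) (nat_lit 412) .nil))))))) (.g (nat_lit 5) .nil .nil))) 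
(.lf (nat_lit 144181) (.g (nat_lit 1529) (.e (nat_lit 57368) (nat_lit 1) (.e (nat_lit 57854) (nat_lit 252) (.e (nat_lit 57409) (nat_lit 12) (.e (nat_lit 336360) (nat_lit 25) (.e (nat_lit 409648) (nat_lit 18) .nil))))) .nil)))) (.nd (nat_lit 4) (.nd (nat_lit 5) 
(.lf (nat_lit 144141) (.g (nat_lit 1415) (.e (nat_lit 57368) (nat_lit 1) (.e (nat_lit 57854) (nat_lit 252) (.e (nat_lit 57406) (nat_lit 12) (.e (nat_lit 336322) (nat_lit 18) .nil)))) .nil)) 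
(.lf (nat_lit 144173) (.g (nat_lit 2967) (.e (nat_lit 57368) (nat_lit 1) (.e (nat_lit 57854) (nat_lit 252) (.e (nat_lit 57409) (nat_lit 12) (.e (nat_lit 336208) (nat_lit 12) (.e (nat_lit 385107) (nat_lit 51) .nil))))) .nil))) (.nd (nat_lit 5) 
(.lf (nat_lit 144157) (.g (nat_lit 2346) (.e (nat_lit 57368) (nat_lit 1) (.e (nat_lit 57854) (nat_lit 252) (.e (nat_lit 57406) (nat_lit 12) (.e (nat_lit 336326) (nat_lit 18) (.e (nat_lit 204870) (nat_lit 29) (.e (nat_lit 360457) (nat_lit 0) (.e (nat_lit 7936) (nat_lit 412) .nil))))))) (.g (nat_lit 4) .nil .nil))) 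
(.lf (nat_lit 144189) (.g (nat_lit 5392) (.e (nat_lit 57368) (nat_lit 1) (.e (nat_lit 57854) (nat_lit 252) (.e (nat_lit 57409) (nat_lit 12) (.e (nat_lit 336360) (nat_lit 25) (.e (nat_lit 409649) (nat_lit 18) (.e (nat_lit 303132) (nat_lit 9) (.e (nat_lit 426109) (nat_lit 1) (.e (nat_lit 164182) (nat_lit 154) .nil)))))))) (.g (nat_lit 8) .nil .nil))))))) 
(.nd (nat_lit 2) (.nd (nat_lit 3) (.nd (nat_lit 4) (.nd (nat_lit 5) 
(.lf (nat_lit 144131) (.g (nat_lit 3228) (.e (nat_lit 57368) (nat_lit 1) (.e (nat_lit 57854) (nat_lit 252) (.e (nat_lit 57404) (nat_lit 12) (.e (nat_lit 336056) (nat_lit 7) (.e (nat_lit 319533) (nat_lit 16) (.e (nat_lit 286753) (nat_lit 10) (.e (nat_lit 344097) (nat_lit 18) (.e (nat_lit 5195) (nat_lit 294) .nil)))))))) (.g (nat_lit 6) .nil .nil))) 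
(.lf (nat_lit 144163) (.g (nat_lit 3894) (.e (nat_lit 57368) (nat_lit 1) (.e (nat_lit 57854) (nat_lit 252) (.e (nat_lit 57406) (nat_lit 12) (.e (nat_lit 336360) (nat_lit 25) (.e (nat_lit 409649) (nat_lit 18) (.e (nat_lit 303140) (nat_lit 10) (.e (nat_lit 434199) (nat_lit 18) (.e (nat_lit 6400) (nat_lit 339) .nil)))))))) (.g (nat_lit 6) .nil .nil)))) (.nd (nat_lit 5) 
(.lf (nat_lit 144147) (.g (nat_lit 3068) (.e (nat_lit 57368) (nat_lit 1) (.e (nat_lit 57854) (nat_lit 252) (.e (nat_lit 57406) (nat_lit 12) (.e (nat_lit 336326) (nat_lit 18) (.e (nat_lit 204868) (nat_lit 29) (.e (nat_lit 360452) (nat_lit 0) (.e (nat_lit 7936) (nat_lit 412) .nil))))))) (.g (nat_lit 5) .nil .nil))) 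
(.lf (nat_lit 144179) (.g (nat_lit 3232) (.e (nat_lit 57368) (nat_lit 1) (.e (nat_lit 57854) (nat_lit 252) (.e (nat_lit 57409) (nat_lit 12) (.e (nat_lit 336324) (nat_lit 18) (.e (nat_lit 204868) (nat_lit 29) (.e (nat_lit 360452) (nat_lit 0) (.e (nat_lit 7936) (nat_lit 412) .nil))))))) (.g (nat_lit 4) .nil .nil))))) (.nd (nat_lit 4) (.nd (nat_lit 5) 
(.lf (nat_lit 144139) (.g (nat_lit 3456) (.e (nat_lit 57368) (nat_lit 1) (.e (nat_lit 57854) (nat_lit 252) (.e (nat_lit 57405) (nat_lit 12) (.e (nat_lit 336053) (nat_lit 7) (.e (nat_lit 319534) (nat_lit 16) (.e (nat_lit 286756) (nat_lit 10) (.e (nat_lit 344097) (nat_lit 18) (.e (nat_lit 5194) (nat_lit 294) .nil)))))))) (.g (nat_lit 6) .nil .nil))) 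
(.lf (nat_lit 144171) (.g (nat_lit 5020) (.e (nat_lit 57368) (nat_lit 1) (.e (nat_lit 57854) (nat_lit 252) (.e (nat_lit 57409) (nat_lit 12) (.e (nat_lit 336053) (nat_lit 7) (.e (nat_lit 319534) (nat_lit 16) (.e (nat_lit 286756) (nat_lit 10) (.e (nat_lit 344097) (nat_lit 18) (.e (nat_lit 5195) (nat_lit 294) .nil)))))))) (.g (nat_lit 8) .nil .nil)))) (.nd (nat_lit 5) 
(.lf (nat_lit 144155) (.g (nat_lit 2221) (.e (nat_lit 57368) (nat_lit 1) (.e (nat_lit 57854) (nat_lit 252) (.e (nat_lit 57406) (nat_lit 12) (.e (nat_lit 336326) (nat_lit 18) (.e (nat_lit 204869) (nat_lit 29) (.e (nat_lit 368384) (nat_lit 0) (.e (nat_lit 7696) (nat_lit 412) .nil))))))) (.g (nat_lit 4) .nil .nil))) 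
(.lf (nat_lit 144187) (.g (nat_lit 3824) (.e (nat_lit 57368) (nat_lit 1) (.e (nat_lit 57854) (nat_lit 252) (.e (nat_lit 57409) (nat_lit 12) (.e (nat_lit 336360) (nat_lit 25) (.e (nat_lit 409649) (nat_lit 18) (.e (nat_lit 303132) (nat_lit 9) (.e (nat_lit 426109) (nat_lit 1) (.e (nat_lit 164177) (nat_lit 154) .nil)))))))) (.g (nat_lit 6) .nil .nil)))))) 
(.nd (nat_lit 3) (.nd (nat_lit 4) (.nd (nat_lit 5) 
(.lf (nat_lit 144135) (.g (nat_lit 3599) (.e (nat_lit 57368) (nat_lit 1) (.e (nat_lit 57854) (nat_lit 252) (.e (nat_lit 57404) (nat_lit 12) (.e (nat_lit 336060) (nat_lit 7) (.e (nat_lit 319534) (nat_lit 16) (.e (nat_lit 286749) (nat_lit 9) (.e (nat_lit 335997) (nat_lit 1) (.e (nat_lit 57848) (nat_lit 252) .nil)))))))) (.g (nat_lit 7) .nil .nil))) 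
(.lf (nat_lit 144167) (.g (nat_lit 2240) (.e (nat_lit 57368) (nat_lit 1) (.e (nat_lit 57854) (nat_lit 252) (.e (nat_lit 57409) (nat_lit 12) (.e (nat_lit 336019) (nat_lit 3) .nil)))) .nil))) (.nd (nat_lit 5) 
(.lf (nat_lit 144151) (.g (nat_lit 3529) (.e (nat_lit 57368) (nat_lit 1) (.e (nat_lit 57854) (nat_lit 252) (.e (nat_lit 57406) (nat_lit 12) (.e (nat_lit 336326) (nat_lit 18) (.e (nat_lit 204869) (nat_lit 29) (.e (nat_lit 360448) (nat_lit 0) (.e (nat_lit 7695) (nat_lit 412) .nil))))))) (.g (nat_lit 5) .nil .nil))) 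
(.lf (nat_lit 144183) (.g (nat_lit 3306) (.e (nat_lit 57368) (nat_lit 1) (.e (nat_lit 57854) (nat_lit 252) (.e (nat_lit 57409) (nat_lit 12) (.e (nat_lit 336360) (nat_lit 25) (.e (nat_lit 409648) (nat_lit 18) (.e (nat_lit 303137) (nat_lit 10) (.e (nat_lit 434199) (nat_lit 18) (.e (nat_lit 6401) (nat_lit 339) .nil)))))))) (.g (nat_lit 6) .nil .nil))))) (.nd (nat_lit 4) (.nd (nat_lit 5) 
(.lf (nat_lit 144143) (.g (nat_lit 2709) (.e (nat_lit 57368) (nat_lit 1) (.e (nat_lit 57854) (nat_lit 252) (.e (nat_lit 57406) (nat_lit 12) (.e (nat_lit 336324) (nat_lit 18) (.e (nat_lit 204868) (nat_lit 29) .nil))))) .nil)) 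
(.lf (nat_lit 144175) (.g (nat_lit 2403) (.e (nat_lit 57368) (nat_lit 1) (.e (nat_lit 57854) (nat_lit 252) (.e (nat_lit 57409) (nat_lit 12) (.e (nat_lit 336240) (nat_lit 15) (.e (nat_lit 3453) (nat_lit 216) .nil))))) .nil))) (.nd (nat_lit 5) 
(.lf (nat_lit 144159) (.g (nat_lit 3173) (.e (nat_lit 57368) (nat_lit 1) (.e (nat_lit 57854) (nat_lit 252) (.e (nat_lit 57406) (nat_lit 12) (.e (nat_lit 336360) (nat_lit 25) (.e (nat_lit 409648) (nat_lit 18) (.e (nat_lit 303137) (nat_lit 10) (.e (nat_lit 434199) (nat_lit 18) (.e (nat_lit 6400) (nat_lit 339) .nil)))))))) (.g (nat_lit 6) .nil .nil))) 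
(.lf (nat_lit 144191) (.g (nat_lit 4230) (.e (nat_lit 57368) (nat_lit 1) (.e (nat_lit 57854) (nat_lit 252) (.e (nat_lit 57409) (nat_lit 12) (.e (nat_lit 336360) (nat_lit 25) (.e (nat_lit 409649) (nat_lit 18) (.e (nat_lit 303140) (nat_lit 10) (.e (nat_lit 434199) (nat_lit 18) (.e (nat_lit 6400) (nat_lit 339) .nil)))))))) (.g (nat_lit 6) .nil .nil)))))))))

noncomputable def tv1913 : DT := (.nd (nat_lit 0) (.nd (nat_lit 1) (.nd (nat_lit 2) (.nd (nat_lit 3) (.nd (nat_lit 4) (.nd (nat_lit 5) 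
(.lf (nat_lit 144192) (.g (nat_lit 4027) (.e (nat_lit 57368) (nat_lit 1) (.e (nat_lit 57854) (nat_lit 252) (.e (nat_lit 57409) (nat_lit 12) (.e (nat_lit 336360) (nat_lit 25) (.e (nat_lit 409649) (nat_lit 18) (.e (nat_lit 303140) (nat_lit 10) (.e (nat_lit 434199) (nat_lit 18) (.e (nat_lit 6401) (nat_lit 339) .nil)))))))) (.g (nat_lit 6) .nil .nil))) 
(.lf (nat_lit 144224) (.g (nat_lit 3206) (.e (nat_lit 57368) (nat_lit 1) (.e (nat_lit 57854) (nat_lit 252) (.e (nat_lit 57413) (nat_lit 12) (.e (nat_lit 336056) (nat_lit 7) (.e (nat_lit 319534) (nat_lit 16) (.e (nat_lit 286749) (nat_lit 9) (.e (nat_lit 335997) (nat_lit 1) (.e (nat_lit 57848) (nat_lit 252) .nil)))))))) (.g (nat_lit 5) .nil .nil)))) (.nd (nat_lit 5) 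
(.lf (nat_lit 144208) (.g (nat_lit 4396) (.e (nat_lit 57368) (nat_lit 1) (.e (nat_lit 57854) (nat_lit 252) (.e (nat_lit 57412) (nat_lit 12) (.e (nat_lit 336060) (nat_lit 7) (.e (nat_lit 319534) (nat_lit 16) (.e (nat_lit 286756) (nat_lit 10) (.e (nat_lit 344097) (nat_lit 18) (.e (nat_lit 5195) (nat_lit 294) .nil)))))))) (.g (nat_lit 8) .nil .nil))) 
(.lf (nat_lit 144240) (.g (nat_lit 2499) (.e (nat_lit 57368) (nat_lit 1) (.e (nat_lit 57854) (nat_lit 252) (.e (nat_lit 57414) (nat_lit 12) (.e (nat_lit 336058) (nat_lit 7) (.e (nat_lit 319534) (nat_lit 16) (.e (nat_lit 286756) (nat_lit 10) (.e (nat_lit 344097) (nat_lit 18) (.e (nat_lit 5194) (nat_lit 294) .nil)))))))) (.g (nat_lit 5) .nil .nil))))) (.nd (nat_lit 4) (.nd (nat_lit 5) 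
(.lf (nat_lit 144200) (.g (nat_lit 2544) (.e (nat_lit 57368) (nat_lit 1) (.e (nat_lit 57854) (nat_lit 252) (.e (nat_lit 57409) (nat_lit 12) (.e (nat_lit 336450) (nat_lit 33) (.e (nat_lit 475212) (nat_lit 42) .nil))))) .nil)) 
(.lf (nat_lit 144232) (.g (nat_lit 3231) (.e (nat_lit 57368) (nat_lit 1) (.e (nat_lit 57854) (nat_lit 252) (.e (nat_lit 57414) (nat_lit 12) (.e (nat_lit 336054) (nat_lit 7) (.e (nat_lit 319534) (nat_lit 16) (.e (nat_lit 286756) (nat_lit 10) (.e (nat_lit 344097) (nat_lit 18) (.e (nat_lit 5194) (nat_lit 294) .nil)))))))) (.g (nat_lit 6) .nil .nil)))) (.nd (nat_lit 5) 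
(.lf (nat_lit 144216) (.g (nat_lit 3698) (.e (nat_lit 57368) (nat_lit 1) (.e (nat_lit 57854) (nat_lit 252) (.e (nat_lit 57412) (nat_lit 12) (.e (nat_lit 336061) (nat_lit 7) (.e (nat_lit 319534) (nat_lit 16) (.e (nat_lit 286756) (nat_lit 10) (.e (nat_lit 344097) (nat_lit 18) (.e (nat_lit 5194) (nat_lit 294) .nil)))))))) (.g (nat_lit 5) .nil .nil))) 
(.lf (nat_lit 144248) (.g (nat_lit 763) (.e (nat_lit 57368) (nat_lit 1) (.e (nat_lit 57854) (nat_lit 252) (.e (nat_lit 57426) (nat_lit 15) .nil))) .nil))))) (.nd (nat_lit 3) (.nd (nat_lit 4) (.nd (nat_lit 5) 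
(.lf (nat_lit 144196) (.g (nat_lit 1852) (.e (nat_lit 57368) (nat_lit 1) (.e (nat_lit 57854) (nat_lit 252) (.e (nat_lit 57409) (nat_lit 12) (.e (nat_lit 336445) (nat_lit 33) .nil)))) .nil)) 
(.lf (nat_lit 144228) (.g (nat_lit 3822) (.e (nat_lit 57368) (nat_lit 1) (.e (nat_lit 57854) (nat_lit 252) (.e (nat_lit 57413) (nat_lit 12) (.e (nat_lit 336060) (nat_lit 7) (.e (nat_lit 319534) (nat_lit 16) (.e (nat_lit 286749) (nat_lit 9) (.e (nat_lit 335997) (nat_lit 1) (.e (nat_lit 57848) (nat_lit 252) .nil)))))))) (.g (nat_lit 7) .nil .nil)))) (.nd (nat_lit 5) 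
(.lf (nat_lit 144212) (.g (nat_lit 3562) (.e (nat_lit 57368) (nat_lit 1) (.e (nat_lit 57854) (nat_lit 252) (.e (nat_lit 57412) (nat_lit 12) (.e (nat_lit 336061) (nat_lit 7) (.e (nat_lit 319531) (nat_lit 16) (.e (nat_lit 286751) (nat_lit 10) (.e (nat_lit 344097) (nat_lit 18) (.e (nat_lit 5195) (nat_lit 294) .nil)))))))) (.g (nat_lit 5) .nil .nil))) 
(.lf (nat_lit 144244) (.g (nat_lit 763) (.e (nat_lit 57368) (nat_lit 1) (.e (nat_lit 57854) (nat_lit 252) (.e (nat_lit 57420) (nat_lit 13) .nil))) .nil)))) (.nd (nat_lit 4) (.nd (nat_lit 5) 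
(.lf (nat_lit 144204) (.g (nat_lit 3859) (.e (nat_lit 57368) (nat_lit 1) (.e (nat_lit 57854) (nat_lit 252) (.e (nat_lit 57412) (nat_lit 12) (.e (nat_lit 336058) (nat_lit 7) (.e (nat_lit 319534) (nat_lit 16) (.e (nat_lit 286756) (nat_lit 10) (.e (nat_lit 344097) (nat_lit 18) (.e (nat_lit 5195) (nat_lit 294) .nil)))))))) (.g (nat_lit 6) .nil .nil))) 
(.lf (nat_lit 144236) (.g (nat_lit 3424) (.e (nat_lit 57368) (nat_lit 1) (.e (nat_lit 57854) (nat_lit 252) (.e (nat_lit 57414) (nat_lit 12) (.e (nat_lit 336056) (nat_lit 7) (.e (nat_lit 319534) (nat_lit 16) (.e (nat_lit 286749) (nat_lit 9) (.e (nat_lit 335997) (nat_lit 1) (.e (nat_lit 57848) (nat_lit 252) .nil)))))))) (.g (nat_lit 6) .nil .nil)))) (.nd (nat_lit 5) 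
(.lf (nat_lit 144220) (.g (nat_lit 3412) (.e (nat_lit 57368) (nat_lit 1) (.e (nat_lit 57854) (nat_lit 252) (.e (nat_lit 57413) (nat_lit 12) (.e (nat_lit 336054) (nat_lit 7) (.e (nat_lit 319534) (nat_lit 16) (.e (nat_lit 286756) (nat_lit 10) (.e (nat_lit 344097) (nat_lit 18) (.e (nat_lit 5195) (nat_lit 294) .nil)))))))) (.g (nat_lit 6) .nil .nil))) 
(.lf (nat_lit 144252) (.g (nat_lit 763) (.e (nat_lit 57368) (nat_lit 1) (.e (nat_lit 57854) (nat_lit 252) (.e (nat_lit 57427) (nat_lit 15) .nil))) .nil)))))) (.nd (nat_lit 2) (.nd (nat_lit 3) (.nd (nat_lit 4) (.nd (nat_lit 5) 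
(.lf (nat_lit 144194) (.g (nat_lit 3688) (.e (nat_lit 57368) (nat_lit 1) (.e (nat_lit 57854) (nat_lit 252) (.e (nat_lit 57409) (nat_lit 12) (.e (nat_lit 336360) (nat_lit 25) (.e (nat_lit 409649) (nat_lit 18) (.e (nat_lit 303140) (nat_lit 10) (.e (nat_lit 434209) (nat_lit 18) (.e (nat_lit 6398) (nat_lit 339) .nil)))))))) (.g (nat_lit 6) .nil .nil))) 
(.lf (nat_lit 144226) (.g (nat_lit 3473) (.e (nat_lit 57368) (nat_lit 1) (.e (nat_lit 57854) (nat_lit 252) (.e (nat_lit 57413) (nat_lit 12) (.e (nat_lit 336060) (nat_lit 7) (.e (nat_lit 319533) (nat_lit 16) (.e (nat_lit 286753) (nat_lit 10) (.e (nat_lit 344097) (nat_lit 18) (.e (nat_lit 5194) (nat_lit 294) .nil)))))))) (.g (nat_lit 6) .nil .nil)))) (.nd (nat_lit 5) 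
(.lf (nat_lit 144210) (.g (nat_lit 2234) (.e (nat_lit 57368) (nat_lit 1) (.e (nat_lit 57854) (nat_lit 252) (.e (nat_lit 57412) (nat_lit 12) (.e (nat_lit 336061) (nat_lit 7) (.e (nat_lit 319531) (nat_lit 16) (.e (nat_lit 286748) (nat_lit 9) (.e (nat_lit 335991) (nat_lit 1) (.e (nat_lit 57849) (nat_lit 252) .nil)))))))) (.g (nat_lit 4) .nil .nil))) 
(.lf (nat_lit 144242) (.g (nat_lit 3568) (.e (nat_lit 57368) (nat_lit 1) (.e (nat_lit 57854) (nat_lit 252) (.e (nat_lit 57414) (nat_lit 12) (.e (nat_lit 336060) (nat_lit 7) (.e (nat_lit 319534) (nat_lit 16) (.e (nat_lit 286749) (nat_lit 9) (.e (nat_lit 335997) (nat_lit 1) (.e (nat_lit 57848) (nat_lit 252) .nil)))))))) (.g (nat_lit 7) .nil .nil))))) (.nd (nat_lit 4) (.nd (nat_lit 5) 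
(.lf (nat_lit 144202) (.g (nat_lit 2978) (.e (nat_lit 57368) (nat_lit 1) (.e (nat_lit 57854) (nat_lit 252) (.e (nat_lit 57412) (nat_lit 12) (.e (nat_lit 336058) (nat_lit 7) (.e (nat_lit 319534) (nat_lit 16) (.e (nat_lit 286749) (nat_lit 9) (.e (nat_lit 335997) (nat_lit 1) (.e (nat_lit 57848) (nat_lit 252) .nil)))))))) (.g (nat_lit 5) .nil .nil))) 
(.lf (nat_lit 144234) (.g (nat_lit 3222) (.e (nat_lit 57368) (nat_lit 1) (.e (nat_lit 57854) (nat_lit 252) (.e (nat_lit 57414) (nat_lit 12) (.e (nat_lit 336056) (nat_lit 7) (.e (nat_lit 319533) (nat_lit 16) (.e (nat_lit 286753) (nat_lit 10) (.e (nat_lit 344097) (nat_lit 18) (.e (nat_lit 5194) (nat_lit 294) .nil)))))))) (.g (nat_lit 6) .nil .nil)))) (.nd (nat_lit 5) 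
(.lf (nat_lit 144218) (.g (nat_lit 2901) (.e (nat_lit 57368) (nat_lit 1) (.e (nat_lit 57854) (nat_lit 252) (.e (nat_lit 57413) (nat_lit 12) (.e (nat_lit 336054) (nat_lit 7) (.e (nat_lit 319534) (nat_lit 16) (.e (nat_lit 286749) (nat_lit 9) (.e (nat_lit 335997) (nat_lit 1) (.e (nat_lit 57848) (nat_lit 252) .nil)))))))) (.g (nat_lit 5) .nil .nil))) 
(.lf (nat_lit 144250) (.g (nat_lit 1404) (.e (nat_lit 57368) (nat_lit 1) (.e (nat_lit 57854) (nat_lit 252) (.e (nat_lit 57426) (nat_lit 15) (.e (nat_lit 360480) (nat_lit 14) .nil)))) .nil))))) (.nd (nat_lit 3) (.nd (nat_lit 4) (.nd (nat_lit 5) 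
(.lf (nat_lit 144198) (.g (nat_lit 1864) (.e (nat_lit 57368) (nat_lit 1) (.e (nat_lit 57854) (nat_lit 252) (.e (nat_lit 57409) (nat_lit 12) (.e (nat_lit 336446) (nat_lit 33) (.e (nat_lit 475212) (nat_lit 42) .nil))))) .nil)) 
(.lf (nat_lit 144230) (.g (nat_lit 2628) (.e (nat_lit 57368) (nat_lit 1) (.e (nat_lit 57854) (nat_lit 252) (.e (nat_lit 57414) (nat_lit 12) (.e (nat_lit 336054) (nat_lit 7) (.e (nat_lit 319533) (nat_lit 16) (.e (nat_lit 286753) (nat_lit 10) (.e (nat_lit 344097) (nat_lit 18) (.e (nat_lit 5194) (nat_lit 294) .nil)))))))) (.g (nat_lit 6) .nil .nil)))) (.nd (nat_lit 5) 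
(.lf (nat_lit 144214) (.g (nat_lit 3540) (.e (nat_lit 57368) (nat_lit 1) (.e (nat_lit 57854) (nat_lit 252) (.e (nat_lit 57412) (nat_lit 12) (.e (nat_lit 336061) (nat_lit 7) (.e (nat_lit 319533) (nat_lit 16) (.e (nat_lit 286753) (nat_lit 10) (.e (nat_lit 344097) (nat_lit 18) (.e (nat_lit 5194) (nat_lit 294) .nil)))))))) (.g (nat_lit 5) .nil .nil))) 
(.lf (nat_lit 144246) (.g (nat_lit 3649) (.e (nat_lit 57368) (nat_lit 1) (.e (nat_lit 57854) (nat_lit 252) (.e (nat_lit 57420) (nat_lit 13) (.e (nat_lit 344117) (nat_lit 21) (.e (nat_lit 516151) (nat_lit 9) (.e (nat_lit 426286) (nat_lit 10) (.e (nat_lit 434203) (nat_lit 18) (.e (nat_lit 4000) (nat_lit 241) .nil)))))))) (.g (nat_lit 6) .nil .nil))))) (.nd (nat_lit 4) (.nd (nat_lit 5) 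
(.lf (nat_lit 144206) (.g (nat_lit 4079) (.e (nat_lit 57368) (nat_lit 1) (.e (nat_lit 57854) (nat_lit 252) (.e (nat_lit 57412) (nat_lit 12) (.e (nat_lit 336060) (nat_lit 7) (.e (nat_lit 319533) (nat_lit 16) (.e (nat_lit 286753) (nat_lit 10) (.e (nat_lit 344097) (nat_lit 18) (.e (nat_lit 5195) (nat_lit 294) .nil)))))))) (.g (nat_lit 8) .nil .nil))) 
(.lf (nat_lit 144238) (.g (nat_lit 4113) (.e (nat_lit 57368) (nat_lit 1) (.e (nat_lit 57854) (nat_lit 252) (.e (nat_lit 57414) (nat_lit 12) (.e (nat_lit 336056) (nat_lit 7) (.e (nat_lit 319534) (nat_lit 16) (.e (nat_lit 286756) (nat_lit 10) (.e (nat_lit 344097) (nat_lit 18) (.e (nat_lit 5195) (nat_lit 294) .nil)))))))) (.g (nat_lit 7) .nil .nil)))) (.nd (nat_lit 5) 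
(.lf (nat_lit 144222) (.g (nat_lit 3009) (.e (nat_lit 57368) (nat_lit 1) (.e (nat_lit 57854) (nat_lit 252) (.e (nat_lit 57413) (nat_lit 12) (.e (nat_lit 336056) (nat_lit 7) (.e (nat_lit 319533) (nat_lit 16) (.e (nat_lit 286753) (nat_lit 10) (.e (nat_lit 344097) (nat_lit 18) (.e (nat_lit 5194) (nat_lit 294) .nil)))))))) (.g (nat_lit 5) .nil .nil))) 
(.lf (nat_lit 144254) (.g (nat_lit 2849) (.e (nat_lit 57368) (nat_lit 1) (.e (nat_lit 57854) (nat_lit 252) (.e (nat_lit 57430) (nat_lit 16) (.e (nat_lit 368676) (nat_lit 21) (.e (nat_lit 516176) (nat_lit 14) (.e (nat_lit 466967) (nat_lit 20) (.e (nat_lit 2442) (nat_lit 157) (.e (nat_lit 4000) (nat_lit 241) .nil)))))))) (.g (nat_lit 5) .nil .nil)))))))) 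
(.nd (nat_lit 1) (.nd (nat_lit 2) (.nd (nat_lit 3) (.nd (nat_lit 4) (.nd (nat_lit 5) 
(.lf (nat_lit 144193) (.g (nat_lit 4137) (.e (nat_lit 57368) (nat_lit 1) (.e (nat_lit 57854) (nat_lit 252) (.e (nat_lit 57409) (nat_lit 12) (.e (nat_lit 336360) (nat_lit 25) (.e (nat_lit 409649) (nat_lit 18) (.e (nat_lit 303140) (nat_lit 10) (.e (nat_lit 434209) (nat_lit 18) (.e (nat_lit 6391) (nat_lit 339) .nil)))))))) (.g (nat_lit 6) .nil .nil))) 
(.lf (nat_lit 144225) (.g (nat_lit 3930) (.e (nat_lit 57368) (nat_lit 1) (.e (nat_lit 57854) (nat_lit 252) (.e (nat_lit 57413) (nat_lit 12) (.e (nat_lit 336056) (nat_lit 7) (.e (nat_lit 319534) (nat_lit 16) (.e (nat_lit 286756) (nat_lit 10) (.e (nat_lit 344097) (nat_lit 18) (.e (nat_lit 5195) (nat_lit 294) .nil)))))))) (.g (nat_lit 6) .nil .nil)))) (.nd (nat_lit 5) 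
(.lf (nat_lit 144209) (.g (nat_lit 2466) (.e (nat_lit 57368) (nat_lit 1) (.e (nat_lit 57854) (nat_lit 252) (.e (nat_lit 57412) (nat_lit 12) (.e (nat_lit 336061) (nat_lit 7) (.e (nat_lit 319531) (nat_lit 16) (.e (nat_lit 286748) (nat_lit 9) (.e (nat_lit 335985) (nat_lit 1) (.e (nat_lit 57849) (nat_lit 252) .nil)))))))) (.g (nat_lit 4) .nil .nil))) 
(.lf (nat_lit 144241) (.g (nat_lit 3726) (.e (nat_lit 57368) (nat_lit 1) (.e (nat_lit 57854) (nat_lit 252) (.e (nat_lit 57414) (nat_lit 12) (.e (nat_lit 336060) (nat_lit 7) (.e (nat_lit 319533) (nat_lit 16) (.e (nat_lit 286753) (nat_lit 10) (.e (nat_lit 344097) (nat_lit 18) (.e (nat_lit 5195) (nat_lit 294) .nil)))))))) (.g (nat_lit 8) .nil .nil))))) (.nd (nat_lit 4) (.nd (nat_lit 5) 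
(.lf (nat_lit 144201) (.g (nat_lit 2811) (.e (nat_lit 57368) (nat_lit 1) (.e (nat_lit 57854) (nat_lit 252) (.e (nat_lit 57412) (nat_lit 12) (.e (nat_lit 336058) (nat_lit 7) (.e (nat_lit 319533) (nat_lit 16) (.e (nat_lit 286753) (nat_lit 10) (.e (nat_lit 344097) (nat_lit 18) (.e (nat_lit 5194) (nat_lit 294) .nil)))))))) (.g (nat_lit 5) .nil .nil))) 
(.lf (nat_lit 144233) (.g (nat_lit 3780) (.e (nat_lit 57368) (nat_lit 1) (.e (nat_lit 57854) (nat_lit 252) (.e (nat_lit 57414) (nat_lit 12) (.e (nat_lit 336054) (nat_lit 7) (.e (nat_lit 319534) (nat_lit 16) (.e (nat_lit 286756) (nat_lit 10) (.e (nat_lit 344097) (nat_lit 18) (.e (nat_lit 5195) (nat_lit 294) .nil)))))))) (.g (nat_lit 7) .nil .nil)))) (.nd (nat_lit 5) 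
(.lf (nat_lit 144217) (.g (nat_lit 4278) (.e (nat_lit 57368) (nat_lit 1) (.e (nat_lit 57854) (nat_lit 252) (.e (nat_lit 57412) (nat_lit 12) (.e (nat_lit 336061) (nat_lit 7) (.e (nat_lit 319534) (nat_lit 16) (.e (nat_lit 286756) (nat_lit 10) (.e (nat_lit 344097) (nat_lit 18) (.e (nat_lit 5195) (nat_lit 294) .nil)))))))) (.g (nat_lit 6) .nil .nil))) 
(.lf (nat_lit 144249) (.g (nat_lit 2175) (.e (nat_lit 57368) (nat_lit 1) (.e (nat_lit 57854) (nat_lit 252) (.e (nat_lit 57426) (nat_lit 15) (.e (nat_lit 360478) (nat_lit 12) (.e (nat_lit 622616) (nat_lit 9) (.e (nat_lit 65565) (nat_lit 1) (.e (nat_lit 57848) (nat_lit 252) .nil))))))) (.g (nat_lit 4) .nil .nil)))))) (.nd (nat_lit 3) (.nd (nat_lit 4) (.nd (nat_lit 5) 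
(.lf (nat_lit 144197) (.g (nat_lit 1992) (.e (nat_lit 57368) (nat_lit 1) (.e (nat_lit 57854) (nat_lit 252) (.e (nat_lit 57409) (nat_lit 12) (.e (nat_lit 336445) (nat_lit 33) (.e (nat_lit 475213) (nat_lit 42) .nil))))) .nil)) 
(.lf (nat_lit 144229) (.g (nat_lit 4308) (.e (nat_lit 57368) (nat_lit 1) (.e (nat_lit 57854) (nat_lit 252) (.e (nat_lit 57413) (nat_lit 12) (.e (nat_lit 336060) (nat_lit 7) (.e (nat_lit 319534) (nat_lit 16) (.e (nat_lit 286756) (nat_lit 10) (.e (nat_lit 344097) (nat_lit 18) (.e (nat_lit 5195) (nat_lit 294) .nil)))))))) (.g (nat_lit 8) .nil .nil)))) (.nd (nat_lit 5) 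
(.lf (nat_lit 144213) (.g (nat_lit 3403) (.e (nat_lit 57368) (nat_lit 1) (.e (nat_lit 57854) (nat_lit 252) (.e (nat_lit 57412) (nat_lit 12) (.e (nat_lit 336061) (nat_lit 7) (.e (nat_lit 319531) (nat_lit 16) (.e (nat_lit 286756) (nat_lit 10) (.e (nat_lit 344097) (nat_lit 18) (.e (nat_lit 5194) (nat_lit 294) .nil)))))))) (.g (nat_lit 5) .nil .nil))) 
(.lf (nat_lit 144245) (.g (nat_lit 2910) (.e (nat_lit 57368) (nat_lit 1) (.e (nat_lit 57854) (nat_lit 252) (.e (nat_lit 57420) (nat_lit 13) (.e (nat_lit 344117) (nat_lit 21) (.e (nat_lit 516151) (nat_lit 9) (.e (nat_lit 426286) (nat_lit 10) (.e (nat_lit 434200) (nat_lit 18) (.e (nat_lit 4000) (nat_lit 241) .nil)))))))) (.g (nat_lit 5) .nil .nil))))) (.nd (nat_lit 4) (.nd (nat_lit 5) 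
(.lf (nat_lit 144205) (.g (nat_lit 3621) (.e (nat_lit 57368) (nat_lit 1) (.e (nat_lit 57854) (nat_lit 252) (.e (nat_lit 57412) (nat_lit 12) (.e (nat_lit 336060) (nat_lit 7) (.e (nat_lit 319533) (nat_lit 16) (.e (nat_lit 286753) (nat_lit 10) (.e (nat_lit 344097) (nat_lit 18) (.e (nat_lit 5194) (nat_lit 294) .nil)))))))) (.g (nat_lit 6) .nil .nil))) 
(.lf (nat_lit 144237) (.g (nat_lit 3564) (.e (nat_lit 57368) (nat_lit 1) (.e (nat_lit 57854) (nat_lit 252) (.e (nat_lit 57414) (nat_lit 12) (.e (nat_lit 336056) (nat_lit 7) (.e (nat_lit 319534) (nat_lit 16) (.e (nat_lit 286756) (nat_lit 10) (.e (nat_lit 344097) (nat_lit 18) (.e (nat_lit 5194) (nat_lit 294) .nil)))))))) (.g (nat_lit 6) .nil .nil)))) (.nd (nat_lit 5) 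
(.lf (nat_lit 144221) (.g (nat_lit 2672) (.e (nat_lit 57368) (nat_lit 1) (.e (nat_lit 57854) (nat_lit 252) (.e (nat_lit 57413) (nat_lit 12) (.e (nat_lit 336055) (nat_lit 7) (.e (nat_lit 319534) (nat_lit 16) (.e (nat_lit 286756) (nat_lit 10) (.e (nat_lit 344097) (nat_lit 18) (.e (nat_lit 5194) (nat_lit 294) .nil)))))))) (.g (nat_lit 5) .nil .nil))) 
(.lf (nat_lit 144253) (.g (nat_lit 1442) (.e (nat_lit 57368) (nat_lit 1) (.e (nat_lit 57854) (nat_lit 252) (.e (nat_lit 57428) (nat_lit 15) (.e (nat_lit 360478) (nat_lit 12) .nil)))) .nil)))))) (.nd (nat_lit 2) (.nd (nat_lit 3) (.nd (nat_lit 4) (.nd (nat_lit 5) 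
(.lf (nat_lit 144195) (.g (nat_lit 3837) (.e (nat_lit 57368) (nat_lit 1) (.e (nat_lit 57854) (nat_lit 252) (.e (nat_lit 57409) (nat_lit 12) (.e (nat_lit 336360) (nat_lit 25) (.e (nat_lit 409649) (nat_lit 18) (.e (nat_lit 303140) (nat_lit 10) (.e (nat_lit 434211) (nat_lit 18) (.e (nat_lit 6401) (nat_lit 339) .nil)))))))) (.g (nat_lit 6) .nil .nil))) 
(.lf (nat_lit 144227) (.g (nat_lit 3930) (.e (nat_lit 57368) (nat_lit 1) (.e (nat_lit 57854) (nat_lit 252) (.e (nat_lit 57413) (nat_lit 12) (.e (nat_lit 336060) (nat_lit 7) (.e (nat_lit 319533) (nat_lit 16) (.e (nat_lit 286753) (nat_lit 10) (.e (nat_lit 344097) (nat_lit 18) (.e (nat_lit 5195) (nat_lit 294) .nil)))))))) (.g (nat_lit 8) .nil .nil)))) (.nd (nat_lit 5) 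
(.lf (nat_lit 144211) (.g (nat_lit 3529) (.e (nat_lit 57368) (nat_lit 1) (.e (nat_lit 57854) (nat_lit 252) (.e (nat_lit 57412) (nat_lit 12) (.e (nat_lit 336061) (nat_lit 7) (.e (nat_lit 319531) (nat_lit 16) (.e (nat_lit 286749) (nat_lit 9) (.e (nat_lit 335997) (nat_lit 1) (.e (nat_lit 57848) (nat_lit 252) .nil)))))))) (.g (nat_lit 5) .nil .nil))) 
(.lf (nat_lit 144243) (.g (nat_lit 4090) (.e (nat_lit 57368) (nat_lit 1) (.e (nat_lit 57854) (nat_lit 252) (.e (nat_lit 57414) (nat_lit 12) (.e (nat_lit 336060) (nat_lit 7) (.e (nat_lit 319534) (nat_lit 16) (.e (nat_lit 286756) (nat_lit 10) (.e (nat_lit 344097) (nat_lit 18) (.e (nat_lit 5195) (nat_lit 294) .nil)))))))) (.g (nat_lit 8) .nil .nil))))) (.nd (nat_lit 4) (.nd (nat_lit 5) 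
(.lf (nat_lit 144203) (.g (nat_lit 3279) (.e (nat_lit 57368) (nat_lit 1) (.e (nat_lit 57854) (nat_lit 252) (.e (nat_lit 57412) (nat_lit 12) (.e (nat_lit 336058) (nat_lit 7) (.e (nat_lit 319534) (nat_lit 16) (.e (nat_lit 286756) (nat_lit 10) (.e (nat_lit 344097) (nat_lit 18) (.e (nat_lit 5194) (nat_lit 294) .nil)))))))) (.g (nat_lit 5) .nil .nil))) 
(.lf (nat_lit 144235) (.g (nat_lit 3649) (.e (nat_lit 57368) (nat_lit 1) (.e (nat_lit 57854) (nat_lit 252) (.e (nat_lit 57414) (nat_lit 12) (.e (nat_lit 336056) (nat_lit 7) (.e (nat_lit 319533) (nat_lit 16) (.e (nat_lit 286753) (nat_lit 10) (.e (nat_lit 344097) (nat_lit 18) (.e (nat_lit 5195) (nat_lit 294) .nil)))))))) (.g (nat_lit 7) .nil .nil)))) (.nd (nat_lit 5) 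
(.lf (nat_lit 144219) (.g (nat_lit 2833) (.e (nat_lit 57368) (nat_lit 1) (.e (nat_lit 57854) (nat_lit 252) (.e (nat_lit 57413) (nat_lit 12) (.e (nat_lit 336054) (nat_lit 7) (.e (nat_lit 319534) (nat_lit 16) (.e (nat_lit 286756) (nat_lit 10) (.e (nat_lit 344097) (nat_lit 18) (.e (nat_lit 5194) (nat_lit 294) .nil)))))))) (.g (nat_lit 5) .nil .nil))) 
(.lf (nat_lit 144251) (.g (nat_lit 1815) (.e (nat_lit 57368) (nat_lit 1) (.e (nat_lit 57854) (nat_lit 252) (.e (nat_lit 57426) (nat_lit 15) (.e (nat_lit 360482) (nat_lit 15) (.e (nat_lit 647179) (nat_lit 2) .nil))))) .nil))))) (.nd (nat_lit 3) (.nd (nat_lit 4) (.nd (nat_lit 5) 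
(.lf (nat_lit 144199) (.g (nat_lit 3301) (.e (nat_lit 57368) (nat_lit 1) (.e (nat_lit 57854) (nat_lit 252) (.e (nat_lit 57409) (nat_lit 12) (.e (nat_lit 336448) (nat_lit 33) (.e (nat_lit 475212) (nat_lit 42) (.e (nat_lit 720956) (nat_lit 25) (.e (nat_lit 114711) (nat_lit 21) (.e (nat_lit 57847) (nat_lit 252) .nil)))))))) (.g (nat_lit 5) .nil .nil))) 
(.lf (nat_lit 144231) (.g (nat_lit 3304) (.e (nat_lit 57368) (nat_lit 1) (.e (nat_lit 57854) (nat_lit 252) (.e (nat_lit 57414) (nat_lit 12) (.e (nat_lit 336054) (nat_lit 7) (.e (nat_lit 319534) (nat_lit 16) (.e (nat_lit 286749) (nat_lit 9) (.e (nat_lit 335997) (nat_lit 1) (.e (nat_lit 57848) (nat_lit 252) .nil)))))))) (.g (nat_lit 6) .nil .nil)))) (.nd (nat_lit 5) 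
(.lf (nat_lit 144215) (.g (nat_lit 3571) (.e (nat_lit 57368) (nat_lit 1) (.e (nat_lit 57854) (nat_lit 252) (.e (nat_lit 57412) (nat_lit 12) (.e (nat_lit 336061) (nat_lit 7) (.e (nat_lit 319534) (nat_lit 16) (.e (nat_lit 286749) (nat_lit 9) (.e (nat_lit 335997) (nat_lit 1) (.e (nat_lit 57848) (nat_lit 252) .nil)))))))) (.g (nat_lit 5) .nil .nil))) 
(.lf (nat_lit 144247) (.g (nat_lit 3781) (.e (nat_lit 57368) (nat_lit 1) (.e (nat_lit 57854) (nat_lit 252) (.e (nat_lit 57420) (nat_lit 13) (.e (nat_lit 344117) (nat_lit 21) (.e (nat_lit 516166) (nat_lit 12) (.e (nat_lit 450563) (nat_lit 0) (.e (nat_lit 4000) (nat_lit 241) .nil))))))) (.g (nat_lit 5) .nil .nil))))) (.nd (nat_lit 4) (.nd (nat_lit 5) 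
(.lf (nat_lit 144207) (.g (nat_lit 3816) (.e (nat_lit 57368) (nat_lit 1) (.e (nat_lit 57854) (nat_lit 252) (.e (nat_lit 57412) (nat_lit 12) (.e (nat_lit 336060) (nat_lit 7) (.e (nat_lit 319534) (nat_lit 16) (.e (nat_lit 286756) (nat_lit 10) (.e (nat_lit 344097) (nat_lit 18) (.e (nat_lit 5194) (nat_lit 294) .nil)))))))) (.g (nat_lit 6) .nil .nil))) 
(.lf (nat_lit 144239) (.g (nat_lit 2450) (.e (nat_lit 57368) (nat_lit 1) (.e (nat_lit 57854) (nat_lit 252) (.e (nat_lit 57414) (nat_lit 12) (.e (nat_lit 336058) (nat_lit 7) (.e (nat_lit 319533) (nat_lit 16) (.e (nat_lit 286753) (nat_lit 10) (.e (nat_lit 344097) (nat_lit 18) (.e (nat_lit 5195) (nat_lit 294) .nil)))))))) (.g (nat_lit 5) .nil .nil)))) (.nd (nat_lit 5) 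
(.lf (nat_lit 144223) (.g (nat_lit 3466) (.e (nat_lit 57368) (nat_lit 1) (.e (nat_lit 57854) (nat_lit 252) (.e (nat_lit 57413) (nat_lit 12) (.e (nat_lit 336056) (nat_lit 7) (.e (nat_lit 319533) (nat_lit 16) (.e (nat_lit 286753) (nat_lit 10) (.e (nat_lit 344097) (nat_lit 18) (.e (nat_lit 5195) (nat_lit 294) .nil)))))))) (.g (nat_lit 6) .nil .nil))) 
(.lf (nat_lit 144255) (.g (nat_lit 2924) (.e (nat_lit 57368) (nat_lit 1) (.e (nat_lit 57854) (nat_lit 252) (.e (nat_lit 57430) (nat_lit 16) (.e (nat_lit 368676) (nat_lit 21) (.e (nat_lit 516176) (nat_lit 14) (.e (nat_lit 466967) (nat_lit 20) (.e (nat_lit 2443) (nat_lit 157) (.e (nat_lit 4000) (nat_lit 241) .nil)))))))) (.g (nat_lit 5) .nil .nil)))))))))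

noncomputable def tv1914 : DT := (.nd (nat_lit 0) (.nd (nat_lit 1) (.nd (nat_lit 2) (.nd (nat_lit 3) (.nd (nat_lit 4) (.nd (nat_lit 5) (.nd (nat_lit 6) 
(.lf (nat_lit 144256) (.g (nat_lit 1495) (.e (nat_lit 57368) (nat_lit 1) (.e (nat_lit 57854) (nat_lit 252) (.e (nat_lit 57431) (nat_lit 16) (.e (nat_lit 368676) (nat_lit 21) (.e (nat_lit 516174) (nat_lit 14) (.e (nat_lit 466967) (nat_lit 20) (.e (nat_lit 2442) (nat_lit 157) (.e (nat_lit 4000) (nat_lit 241) .nil)))))))) (.g (nat_lit 4) .nil .nil))) 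
(.lf (nat_lit 144320) (.g (nat_lit 2232) (.e (nat_lit 57370) (nat_lit 2) (.e (nat_lit 90158) (nat_lit 11) (.e (nat_lit 24630) (nat_lit 9) (.e (nat_lit 336369) (nat_lit 27) (.e (nat_lit 426497) (nat_lit 27) .nil))))) .nil))) (.nd (nat_lit 6) 
(.lf (nat_lit 144288) (.g (nat_lit 414) (.e (nat_lit 57369) (nat_lit 2) (.e (nat_lit 90158) (nat_lit 11) (.e (nat_lit 24655) (nat_lit 13) .nil))) .nil)) 
(.lf (nat_lit 144352) (.g (nat_lit 2259) (.e (nat_lit 57370) (nat_lit 2) (.e (nat_lit 90169) (nat_lit 13) (.e (nat_lit 172122) (nat_lit 13) (.e (nat_lit 483337) (nat_lit 9) (.e (nat_lit 426108) (nat_lit 1) (.e (nat_lit 164401) (nat_lit 256) .nil)))))) (.g (nat_lit 5) .nil .nil))))) (.nd (nat_lit 5) (.nd (nat_lit 6) 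
(.lf (nat_lit 144272) (.g (nat_lit 2276) (.e (nat_lit 57368) (nat_lit 1) (.e (nat_lit 57854) (nat_lit 252) (.e (nat_lit 57442) (nat_lit 18) (.e (nat_lit 385068) (nat_lit 26) (.e (nat_lit 532551) (nat_lit 12) .nil))))) .nil)) 
(.lf (nat_lit 144336) (.g (nat_lit 1599) (.e (nat_lit 57370) (nat_lit 2) (.e (nat_lit 90158) (nat_lit 11) (.e (nat_lit 24658) (nat_lit 13) (.e (nat_lit 393228) (nat_lit 9) .nil)))) .nil))) (.nd (nat_lit 6) 
(.lf (nat_lit 144304) (.g (nat_lit 788) (.e (nat_lit 57370) (nat_lit 2) (.e (nat_lit 90157) (nat_lit 11) (.e (nat_lit 24656) (nat_lit 13) (.e (nat_lit 393229) (nat_lit 9) .nil)))) .nil)) 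
(.lf (nat_lit 144368) (.g (nat_lit 3992) (.e (nat_lit 57370) (nat_lit 2) (.e (nat_lit 90170) (nat_lit 13) (.e (nat_lit 172065) (nat_lit 3) (.e (nat_lit 204838) (nat_lit 20) (.e (nat_lit 114718) (nat_lit 23) (.e (nat_lit 98334) (nat_lit 18) (.e (nat_lit 164399) (nat_lit 256) .nil))))))) (.g (nat_lit 6) .nil .nil)))))) (.nd (nat_lit 4) (.nd (nat_lit 5) (.nd (nat_lit 6) 
(.lf (nat_lit 144264) (.g (nat_lit 2349) (.e (nat_lit 57368) (nat_lit 1) (.e (nat_lit 57854) (nat_lit 252) (.e (nat_lit 57436) (nat_lit 17) (.e (nat_lit 376860) (nat_lit 21) (.e (nat_lit 57930) (nat_lit 282) (.e (nat_lit 164084) (nat_lit 73) (.e (nat_lit 335986) (nat_lit 1) (.e (nat_lit 57847) (nat_lit 252) .nil)))))))) (.g (nat_lit 4) .nil .nil))) 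
(.lf (nat_lit 144328) (.g (nat_lit 2084) (.e (nat_lit 57370) (nat_lit 2) (.e (nat_lit 90158) (nat_lit 11) (.e (nat_lit 24655) (nat_lit 13) (.e (nat_lit 393229) (nat_lit 9) (.e (nat_lit 335993) (nat_lit 1) .nil))))) .nil))) (.nd (nat_lit 6) 
(.lf (nat_lit 144296) (.g (nat_lit 1037) (.e (nat_lit 57369) (nat_lit 2) (.e (nat_lit 90170) (nat_lit 13) (.e (nat_lit 172123) (nat_lit 13) (.e (nat_lit 483337) (nat_lit 9) .nil)))) .nil)) 
(.lf (nat_lit 144360) (.g (nat_lit 2396) (.e (nat_lit 57370) (nat_lit 2) (.e (nat_lit 90170) (nat_lit 13) (.e (nat_lit 172065) (nat_lit 3) (.e (nat_lit 204838) (nat_lit 20) (.e (nat_lit 114708) (nat_lit 20) .nil))))) .nil)))) (.nd (nat_lit 5) (.nd (nat_lit 6) 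
(.lf (nat_lit 144280) (.g (nat_lit 3170) (.e (nat_lit 57368) (nat_lit 1) (.e (nat_lit 57854) (nat_lit 252) (.e (nat_lit 57447) (nat_lit 19) (.e (nat_lit 393234) (nat_lit 17) (.e (nat_lit 2405) (nat_lit 157) (.e (nat_lit 5566) (nat_lit 308) (.e (nat_lit 57390) (nat_lit 5) (.e (nat_lit 114711) (nat_lit 21) (.e (nat_lit 57847) (nat_lit 252) .nil))))))))) (.g (nat_lit 4) .nil .nil))) 
(.lf (nat_lit 144344) (.g (nat_lit 1581) (.e (nat_lit 57370) (nat_lit 2) (.e (nat_lit 90159) (nat_lit 11) (.e (nat_lit 24657) (nat_lit 13) (.e (nat_lit 393229) (nat_lit 9) (.e (nat_lit 335995) (nat_lit 1) .nil))))) .nil))) (.nd (nat_lit 6) 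
(.lf (nat_lit 144312) (.g (nat_lit 1583) (.e (nat_lit 57370) (nat_lit 2) (.e (nat_lit 90158) (nat_lit 11) (.e (nat_lit 24625) (nat_lit 9) (.e (nat_lit 336370) (nat_lit 27) .nil)))) .nil)) 
(.lf (nat_lit 144376) (.g (nat_lit 3325) (.e (nat_lit 57370) (nat_lit 2) (.e (nat_lit 90170) (nat_lit 13) (.e (nat_lit 172067) (nat_lit 3) (.e (nat_lit 204837) (nat_lit 20) (.e (nat_lit 114718) (nat_lit 23) (.e (nat_lit 98333) (nat_lit 18) (.e (nat_lit 164399) (nat_lit 256) .nil))))))) (.g (nat_lit 5) .nil .nil))))))) (.nd (nat_lit 3) (.nd (nat_lit 4) (.nd (nat_lit 5) (.nd (nat_lit 6) 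
(.lf (nat_lit 144260) (.g (nat_lit 2716) (.e (nat_lit 57368) (nat_lit 1) (.e (nat_lit 57854) (nat_lit 252) (.e (nat_lit 57431) (nat_lit 16) (.e (nat_lit 368676) (nat_lit 21) (.e (nat_lit 516176) (nat_lit 14) (.e (nat_lit 466972) (nat_lit 21) (.e (nat_lit 171776) (nat_lit 136) .nil))))))) (.g (nat_lit 5) .nil .nil))) 
(.lf (nat_lit 144324) (.g (nat_lit 2182) (.e (nat_lit 57370) (nat_lit 2) (.e (nat_lit 90158) (nat_lit 11) (.e (nat_lit 24655) (nat_lit 13) (.e (nat_lit 393224) (nat_lit 9) .nil)))) .nil))) (.nd (nat_lit 6) 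
(.lf (nat_lit 144292) (.g (nat_lit 1033) (.e (nat_lit 57369) (nat_lit 2) (.e (nat_lit 90160) (nat_lit 11) (.e (nat_lit 24657) (nat_lit 13) .nil))) .nil)) 
(.lf (nat_lit 144356) (.g (nat_lit 3106) (.e (nat_lit 57370) (nat_lit 2) (.e (nat_lit 90170) (nat_lit 13) (.e (nat_lit 172065) (nat_lit 3) (.e (nat_lit 204837) (nat_lit 20) (.e (nat_lit 114718) (nat_lit 23) (.e (nat_lit 98334) (nat_lit 18) (.e (nat_lit 164399) (nat_lit 256) .nil))))))) (.g (nat_lit 4) .nil .nil))))) (.nd (nat_lit 5) (.nd (nat_lit 6) 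
(.lf (nat_lit 144276) (.g (nat_lit 1008) (.e (nat_lit 57368) (nat_lit 1) (.e (nat_lit 57854) (nat_lit 252) (.e (nat_lit 57445) (nat_lit 19) (.e (nat_lit 401152) (nat_lit 12) .nil)))) .nil)) 
(.lf (nat_lit 144340) (.g (nat_lit 1670) (.e (nat_lit 57370) (nat_lit 2) (.e (nat_lit 90158) (nat_lit 11) (.e (nat_lit 24658) (nat_lit 13) (.e (nat_lit 393229) (nat_lit 9) (.e (nat_lit 335993) (nat_lit 1) .nil))))) .nil))) (.nd (nat_lit 6) 
(.lf (nat_lit 144308) (.g (nat_lit 1770) (.e (nat_lit 57370) (nat_lit 2) (.e (nat_lit 90158) (nat_lit 11) (.e (nat_lit 24608) (nat_lit 3) (.e (nat_lit 98338) (nat_lit 19) .nil)))) .nil)) 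
(.lf (nat_lit 144372) (.g (nat_lit 2690) (.e (nat_lit 57370) (nat_lit 2) (.e (nat_lit 90170) (nat_lit 13) (.e (nat_lit 172065) (nat_lit 3) (.e (nat_lit 204838) (nat_lit 20) (.e (nat_lit 114719) (nat_lit 23) (.e (nat_lit 98334) (nat_lit 18) (.e (nat_lit 164398) (nat_lit 256) .nil))))))) (.g (nat_lit 4) .nil .nil)))))) (.nd (nat_lit 4) (.nd (nat_lit 5) (.nd (nat_lit 6) 
(.lf (nat_lit 144268) (.g (nat_lit 2071) (.e (nat_lit 57368) (nat_lit 1) (.e (nat_lit 57854) (nat_lit 252) (.e (nat_lit 57440) (nat_lit 18) (.e (nat_lit 385068) (nat_lit 26) (.e (nat_lit 532551) (nat_lit 12) .nil))))) .nil)) 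
(.lf (nat_lit 144332) (.g (nat_lit 3579) (.e (nat_lit 57370) (nat_lit 2) (.e (nat_lit 90158) (nat_lit 11) (.e (nat_lit 24657) (nat_lit 13) (.e (nat_lit 393229) (nat_lit 9) (.e (nat_lit 335996) (nat_lit 1) (.e (nat_lit 57852) (nat_lit 252) .nil)))))) (.g (nat_lit 6) .nil .nil)))) (.nd (nat_lit 6) 
(.lf (nat_lit 144300) (.g (nat_lit 919) (.e (nat_lit 57369) (nat_lit 2) (.e (nat_lit 90185) (nat_lit 17) (.e (nat_lit 237605) (nat_lit 9) .nil))) .nil)) 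
(.lf (nat_lit 144364) (.g (nat_lit 2369) (.e (nat_lit 57370) (nat_lit 2) (.e (nat_lit 90170) (nat_lit 13) (.e (nat_lit 172065) (nat_lit 3) (.e (nat_lit 204838) (nat_lit 20) (.e (nat_lit 114718) (nat_lit 23) .nil))))) .nil)))) (.nd (nat_lit 5) (.nd (nat_lit 6) 
(.lf (nat_lit 144284) (.g (nat_lit 2592) (.e (nat_lit 57368) (nat_lit 1) (.e (nat_lit 57854) (nat_lit 252) (.e (nat_lit 57447) (nat_lit 19) (.e (nat_lit 393238) (nat_lit 17) (.e (nat_lit 2400) (nat_lit 157) .nil))))) .nil)) 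
(.lf (nat_lit 144348) (.g (nat_lit 1934) (.e (nat_lit 57370) (nat_lit 2) (.e (nat_lit 90167) (nat_lit 13) (.e (nat_lit 172067) (nat_lit 3) (.e (nat_lit 204838) (nat_lit 20) (.e (nat_lit 114717) (nat_lit 23) .nil))))) .nil))) (.nd (nat_lit 6) 
(.lf (nat_lit 144316) (.g (nat_lit 384) (.e (nat_lit 57370) (nat_lit 2) (.e (nat_lit 90158) (nat_lit 11) (.e (nat_lit 24628) (nat_lit 9) .nil))) .nil)) 
(.lf (nat_lit 144380) (.g (nat_lit 2945) (.e (nat_lit 57370) (nat_lit 2) (.e (nat_lit 90170) (nat_lit 13) (.e (nat_lit 172067) (nat_lit 3) (.e (nat_lit 204837) (nat_lit 20) (.e (nat_lit 114719) (nat_lit 23) (.e (nat_lit 98333) (nat_lit 18) (.e (nat_lit 164399) (nat_lit 256) .nil))))))) (.g (nat_lit 5) .nil .nil)))))))) 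
(.nd (nat_lit 2) (.nd (nat_lit 3) (.nd (nat_lit 4) (.nd (nat_lit 5) (.nd (nat_lit 6) 
(.lf (nat_lit 144258) (.g (nat_lit 2169) (.e (nat_lit 57368) (nat_lit 1) (.e (nat_lit 57854) (nat_lit 252) (.e (nat_lit 57431) (nat_lit 16) (.e (nat_lit 368676) (nat_lit 21) (.e (nat_lit 516176) (nat_lit 14) (.e (nat_lit 466967) (nat_lit 20) (.e (nat_lit 2416) (nat_lit 157) (.e (nat_lit 4002) (nat_lit 241) .nil)))))))) (.g (nat_lit 5) .nil .nil))) 
(.lf (nat_lit 144322) (.g (nat_lit 472) (.e (nat_lit 57370) (nat_lit 2) (.e (nat_lit 90158) (nat_lit 11) (.e (nat_lit 24654) (nat_lit 13) .nil))) .nil))) (.nd (nat_lit 6) 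
(.lf (nat_lit 144290) (.g (nat_lit 2463) (.e (nat_lit 57369) (nat_lit 2) (.e (nat_lit 90158) (nat_lit 11) (.e (nat_lit 24655) (nat_lit 13) (.e (nat_lit 393229) (nat_lit 9) (.e (nat_lit 335995) (nat_lit 1) .nil))))) .nil)) 
(.lf (nat_lit 144354) (.g (nat_lit 2516) (.e (nat_lit 57370) (nat_lit 2) (.e (nat_lit 90170) (nat_lit 13) (.e (nat_lit 172065) (nat_lit 3) (.e (nat_lit 204837) (nat_lit 20) (.e (nat_lit 114717) (nat_lit 23) (.e (nat_lit 98333) (nat_lit 18) (.e (nat_lit 164399) (nat_lit 256) .nil))))))) (.g (nat_lit 4) .nil .nil))))) (.nd (nat_lit 5) (.nd (nat_lit 6) 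
(.lf (nat_lit 144274) (.g (nat_lit 1539) (.e (nat_lit 57368) (nat_lit 1) (.e (nat_lit 57854) (nat_lit 252) (.e (nat_lit 57445) (nat_lit 19) (.e (nat_lit 393217) (nat_lit 0) (.e (nat_lit 2189) (nat_lit 144) .nil))))) .nil)) 
(.lf (nat_lit 144338) (.g (nat_lit 1804) (.e (nat_lit 57370) (nat_lit 2) (.e (nat_lit 90158) (nat_lit 11) (.e (nat_lit 24658) (nat_lit 13) (.e (nat_lit 393228) (nat_lit 9) (.e (nat_lit 335996) (nat_lit 1) .nil))))) .nil))) (.nd (nat_lit 6) 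
(.lf (nat_lit 144306) (.g (nat_lit 2479) (.e (nat_lit 57370) (nat_lit 2) (.e (nat_lit 90158) (nat_lit 11) (.e (nat_lit 24608) (nat_lit 3) (.e (nat_lit 98321) (nat_lit 17) (.e (nat_lit 3771) (nat_lit 229) .nil))))) .nil)) 
(.lf (nat_lit 144370) (.g (nat_lit 3028) (.e (nat_lit 57370) (nat_lit 2) (.e (nat_lit 90170) (nat_lit 13) (.e (nat_lit 172065) (nat_lit 3) (.e (nat_lit 204838) (nat_lit 20) (.e (nat_lit 114718) (nat_lit 23) (.e (nat_lit 98334) (nat_lit 18) (.e (nat_lit 164403) (nat_lit 256) .nil))))))) (.g (nat_lit 4) .nil .nil)))))) (.nd (nat_lit 4) (.nd (nat_lit 5) (.nd (nat_lit 6) 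
(.lf (nat_lit 144266) (.g (nat_lit 426) (.e (nat_lit 57368) (nat_lit 1) (.e (nat_lit 57854) (nat_lit 252) (.e (nat_lit 57440) (nat_lit 18) .nil))) .nil)) 
(.lf (nat_lit 144330) (.g (nat_lit 950) (.e (nat_lit 57370) (nat_lit 2) (.e (nat_lit 90158) (nat_lit 11) (.e (nat_lit 24656) (nat_lit 13) (.e (nat_lit 393224) (nat_lit 9) .nil)))) .nil))) (.nd (nat_lit 6) 
(.lf (nat_lit 144298) (.g (nat_lit 1351) (.e (nat_lit 57369) (nat_lit 2) (.e (nat_lit 90174) (nat_lit 14) (.e (nat_lit 180243) (nat_lit 5) (.e (nat_lit 532508) (nat_lit 2) .nil)))) .nil)) 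
(.lf (nat_lit 144362) (.g (nat_lit 2671) (.e (nat_lit 57370) (nat_lit 2) (.e (nat_lit 90170) (nat_lit 13) (.e (nat_lit 172065) (nat_lit 3) (.e (nat_lit 204838) (nat_lit 20) (.e (nat_lit 114717) (nat_lit 23) (.e (nat_lit 98333) (nat_lit 18) (.e (nat_lit 164403) (nat_lit 256) .nil))))))) (.g (nat_lit 4) .nil .nil))))) (.nd (nat_lit 5) (.nd (nat_lit 6) 
(.lf (nat_lit 144282) (.g (nat_lit 2484) (.e (nat_lit 57368) (nat_lit 1) (.e (nat_lit 57854) (nat_lit 252) (.e (nat_lit 57447) (nat_lit 19) (.e (nat_lit 393234) (nat_lit 17) (.e (nat_lit 2411) (nat_lit 157) .nil))))) .nil)) 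
(.lf (nat_lit 144346) (.g (nat_lit 1929) (.e (nat_lit 57370) (nat_lit 2) (.e (nat_lit 90160) (nat_lit 11) (.e (nat_lit 24657) (nat_lit 13) (.e (nat_lit 393229) (nat_lit 9) .nil)))) .nil))) (.nd (nat_lit 6) 
(.lf (nat_lit 144314) (.g (nat_lit 3206) (.e (nat_lit 57370) (nat_lit 2) (.e (nat_lit 90158) (nat_lit 11) (.e (nat_lit 24625) (nat_lit 9) (.e (nat_lit 336456) (nat_lit 34) (.e (nat_lit 483364) (nat_lit 18) (.e (nat_lit 57854) (nat_lit 252) .nil)))))) (.g (nat_lit 0) .nil .nil))) 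
(.lf (nat_lit 144378) (.g (nat_lit 3282) (.e (nat_lit 57370) (nat_lit 2) (.e (nat_lit 90170) (nat_lit 13) (.e (nat_lit 172067) (nat_lit 3) (.e (nat_lit 204837) (nat_lit 20) (.e (nat_lit 114718) (nat_lit 23) (.e (nat_lit 98334) (nat_lit 18) (.e (nat_lit 164399) (nat_lit 256) .nil))))))) (.g (nat_lit 5) .nil .nil))))))) (.nd (nat_lit 3) (.nd (nat_lit 4) (.nd (nat_lit 5) (.nd (nat_lit 6) 
(.lf (nat_lit 144262) (.g (nat_lit 524) (.e (nat_lit 57368) (nat_lit 1) (.e (nat_lit 57854) (nat_lit 252) (.e (nat_lit 57435) (nat_lit 17) .nil))) .nil)) 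
(.lf (nat_lit 144326) (.g (nat_lit 2182) (.e (nat_lit 57370) (nat_lit 2) (.e (nat_lit 90158) (nat_lit 11) (.e (nat_lit 24655) (nat_lit 13) (.e (nat_lit 393228) (nat_lit 9) .nil)))) .nil))) (.nd (nat_lit 6) 
(.lf (nat_lit 144294) (.g (nat_lit 2110) (.e (nat_lit 57369) (nat_lit 2) (.e (nat_lit 90170) (nat_lit 13) (.e (nat_lit 172106) (nat_lit 10) (.e (nat_lit 434231) (nat_lit 23) .nil)))) .nil)) 
(.lf (nat_lit 144358) (.g (nat_lit 2861) (.e (nat_lit 57370) (nat_lit 2) (.e (nat_lit 90170) (nat_lit 13) (.e (nat_lit 172065) (nat_lit 3) (.e (nat_lit 204837) (nat_lit 20) (.e (nat_lit 114719) (nat_lit 23) (.e (nat_lit 98334) (nat_lit 18) (.e (nat_lit 164399) (nat_lit 256) .nil))))))) (.g (nat_lit 4) .nil .nil))))) (.nd (nat_lit 5) (.nd (nat_lit 6) 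
(.lf (nat_lit 144278) (.g (nat_lit 629) (.e (nat_lit 57368) (nat_lit 1) (.e (nat_lit 57854) (nat_lit 252) (.e (nat_lit 57447) (nat_lit 19) .nil))) .nil)) 
(.lf (nat_lit 144342) (.g (nat_lit 1540) (.e (nat_lit 57370) (nat_lit 2) (.e (nat_lit 90158) (nat_lit 11) (.e (nat_lit 24659) (nat_lit 13) (.e (nat_lit 393225) (nat_lit 9) (.e (nat_lit 335988) (nat_lit 1) .nil))))) .nil))) (.nd (nat_lit 6) 
(.lf (nat_lit 144310) (.g (nat_lit 1583) (.e (nat_lit 57370) (nat_lit 2) (.e (nat_lit 90158) (nat_lit 11) (.e (nat_lit 24625) (nat_lit 9) (.e (nat_lit 336366) (nat_lit 27) .nil)))) .nil)) 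
(.lf (nat_lit 144374) (.g (nat_lit 1778) (.e (nat_lit 57370) (nat_lit 2) (.e (nat_lit 90170) (nat_lit 13) (.e (nat_lit 172067) (nat_lit 3) (.e (nat_lit 204837) (nat_lit 20) .nil)))) .nil))))) (.nd (nat_lit 4) (.nd (nat_lit 5) (.nd (nat_lit 6) 
(.lf (nat_lit 144270) (.g (nat_lit 3324) (.e (nat_lit 57368) (nat_lit 1) (.e (nat_lit 57854) (nat_lit 252) (.e (nat_lit 57440) (nat_lit 18) (.e (nat_lit 385068) (nat_lit 26) (.e (nat_lit 532551) (nat_lit 12) (.e (nat_lit 360457) (nat_lit 0) (.e (nat_lit 7936) (nat_lit 412) .nil))))))) (.g (nat_lit 6) .nil .nil))) 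
(.lf (nat_lit 144334) (.g (nat_lit 416) (.e (nat_lit 57370) (nat_lit 2) (.e (nat_lit 90158) (nat_lit 11) (.e (nat_lit 24658) (nat_lit 13) .nil))) .nil))) (.nd (nat_lit 6) 
(.lf (nat_lit 144302) (.g (nat_lit 1527) (.e (nat_lit 57370) (nat_lit 2) (.e (nat_lit 98048) (nat_lit 5) (.e (nat_lit 73755) (nat_lit 8) (.e (nat_lit 557098) (nat_lit 13) (.e (nat_lit 179968) (nat_lit 18) (.e (nat_lit 98333) (nat_lit 18) (.e (nat_lit 164399) (nat_lit 256) .nil))))))) (.g (nat_lit 4) .nil .nil))) 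
(.lf (nat_lit 144366) (.g (nat_lit 3519) (.e (nat_lit 57370) (nat_lit 2) (.e (nat_lit 90170) (nat_lit 13) (.e (nat_lit 172065) (nat_lit 3) (.e (nat_lit 204838) (nat_lit 20) (.e (nat_lit 114718) (nat_lit 23) (.e (nat_lit 98333) (nat_lit 18) (.e (nat_lit 164403) (nat_lit 256) .nil))))))) (.g (nat_lit 5) .nil .nil))))) (.nd (nat_lit 5) (.nd (nat_lit 6) 
(.lf (nat_lit 144286) (.g (nat_lit 1915) (.e (nat_lit 57369) (nat_lit 2) (.e (nat_lit 90158) (nat_lit 11) (.e (nat_lit 24625) (nat_lit 9) (.e (nat_lit 336454) (nat_lit 34) (.e (nat_lit 483366) (nat_lit 18) (.e (nat_lit 57848) (nat_lit 252) .nil)))))) (.g (nat_lit 4) .nil .nil))) 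
(.lf (nat_lit 144350) (.g (nat_lit 2300) (.e (nat_lit 57370) (nat_lit 2) (.e (nat_lit 90168) (nat_lit 13) (.e (nat_lit 172067) (nat_lit 3) (.e (nat_lit 204837) (nat_lit 20) (.e (nat_lit 114718) (nat_lit 23) (.e (nat_lit 98334) (nat_lit 18) (.e (nat_lit 164399) (nat_lit 256) .nil))))))) (.g (nat_lit 4) .nil .nil)))) (.nd (nat_lit 6) 
(.lf (nat_lit 144318) (.g (nat_lit 1486) (.e (nat_lit 57370) (nat_lit 2) (.e (nat_lit 90158) (nat_lit 11) (.e (nat_lit 24628) (nat_lit 9) (.e (nat_lit 336377) (nat_lit 27) .nil)))) .nil)) 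
(.lf (nat_lit 144382) (.g (nat_lit 1804) (.e (nat_lit 57370) (nat_lit 2) (.e (nat_lit 90170) (nat_lit 13) (.e (nat_lit 172067) (nat_lit 3) (.e (nat_lit 204838) (nat_lit 20) .nil)))) .nil)))))))) (.nd (nat_lit 1) (.nd (nat_lit 2) (.nd (nat_lit 3) (.nd (nat_lit 4) (.nd (nat_lit 5) (.nd (nat_lit 6) 
(.lf (nat_lit 144257) (.g (nat_lit 1570) (.e (nat_lit 57368) (nat_lit 1) (.e (nat_lit 57854) (nat_lit 252) (.e (nat_lit 57431) (nat_lit 16) (.e (nat_lit 368676) (nat_lit 21) (.e (nat_lit 516174) (nat_lit 14) (.e (nat_lit 466967) (nat_lit 20) (.e (nat_lit 2443) (nat_lit 157) (.e (nat_lit 4000) (nat_lit 241) .nil)))))))) (.g (nat_lit 4) .nil .nil))) 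
(.lf (nat_lit 144321) (.g (nat_lit 2232) (.e (nat_lit 57370) (nat_lit 2) (.e (nat_lit 90158) (nat_lit 11) (.e (nat_lit 24630) (nat_lit 9) (.e (nat_lit 336369) (nat_lit 27) (.e (nat_lit 426501) (nat_lit 27) .nil))))) .nil))) (.nd (nat_lit 6) 
(.lf (nat_lit 144289) (.g (nat_lit 2465) (.e (nat_lit 57369) (nat_lit 2) (.e (nat_lit 90158) (nat_lit 11) (.e (nat_lit 24655) (nat_lit 13) (.e (nat_lit 393229) (nat_lit 9) (.e (nat_lit 335994) (nat_lit 1) .nil))))) .nil)) 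
(.lf (nat_lit 144353) (.g (nat_lit 2527) (.e (nat_lit 57370) (nat_lit 2) (.e (nat_lit 90170) (nat_lit 13) (.e (nat_lit 172065) (nat_lit 3) (.e (nat_lit 204834) (nat_lit 19) (.e (nat_lit 106539) (nat_lit 12) (.e (nat_lit 57467) (nat_lit 23) (.e (nat_lit 516115) (nat_lit 1) (.e (nat_lit 164399) (nat_lit 256) .nil)))))))) (.g (nat_lit 4) .nil .nil))))) (.nd (nat_lit 5) (.nd (nat_lit 6) 
(.lf (nat_lit 144273) (.g (nat_lit 2863) (.e (nat_lit 57368) (nat_lit 1) (.e (nat_lit 57854) (nat_lit 252) (.e (nat_lit 57442) (nat_lit 18) (.e (nat_lit 385068) (nat_lit 26) (.e (nat_lit 532551) (nat_lit 12) (.e (nat_lit 360457) (nat_lit 0) (.e (nat_lit 7936) (nat_lit 412) .nil))))))) (.g (nat_lit 4) .nil .nil))) 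
(.lf (nat_lit 144337) (.g (nat_lit 1804) (.e (nat_lit 57370) (nat_lit 2) (.e (nat_lit 90158) (nat_lit 11) (.e (nat_lit 24658) (nat_lit 13) (.e (nat_lit 393228) (nat_lit 9) (.e (nat_lit 335993) (nat_lit 1) .nil))))) .nil))) (.nd (nat_lit 6) 
(.lf (nat_lit 144305) (.g (nat_lit 343) (.e (nat_lit 57370) (nat_lit 2) (.e (nat_lit 90157) (nat_lit 11) (.e (nat_lit 24657) (nat_lit 13) .nil))) .nil)) 
(.lf (nat_lit 144369) (.g (nat_lit 2756) (.e (nat_lit 57370) (nat_lit 2) (.e (nat_lit 90170) (nat_lit 13) (.e (nat_lit 172065) (nat_lit 3) (.e (nat_lit 204838) (nat_lit 20) (.e (nat_lit 114718) (nat_lit 23) (.e (nat_lit 98334) (nat_lit 18) (.e (nat_lit 164401) (nat_lit 256) .nil))))))) (.g (nat_lit 4) .nil .nil)))))) (.nd (nat_lit 4) (.nd (nat_lit 5) (.nd (nat_lit 6) 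
(.lf (nat_lit 144265) (.g (nat_lit 2410) (.e (nat_lit 57368) (nat_lit 1) (.e (nat_lit 57854) (nat_lit 252) (.e (nat_lit 57436) (nat_lit 17) (.e (nat_lit 376860) (nat_lit 21) (.e (nat_lit 57930) (nat_lit 282) (.e (nat_lit 164088) (nat_lit 73) (.e (nat_lit 335986) (nat_lit 1) (.e (nat_lit 57847) (nat_lit 252) .nil)))))))) (.g (nat_lit 4) .nil .nil))) 
(.lf (nat_lit 144329) (.g (nat_lit 486) (.e (nat_lit 57370) (nat_lit 2) (.e (nat_lit 90158) (nat_lit 11) (.e (nat_lit 24656) (nat_lit 13) .nil))) .nil))) (.nd (nat_lit 6) 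
(.lf (nat_lit 144297) (.g (nat_lit 1149) (.e (nat_lit 57369) (nat_lit 2) (.e (nat_lit 90172) (nat_lit 14) (.e (nat_lit 180244) (nat_lit 5) (.e (nat_lit 532515) (nat_lit 3) .nil)))) .nil)) 
(.lf (nat_lit 144361) (.g (nat_lit 3236) (.e (nat_lit 57370) (nat_lit 2) (.e (nat_lit 90170) (nat_lit 13) (.e (nat_lit 172065) (nat_lit 3) (.e (nat_lit 204838) (nat_lit 20) (.e (nat_lit 114708) (nat_lit 20) (.e (nat_lit 1800) (nat_lit 119) (.e (nat_lit 516117) (nat_lit 1) (.e (nat_lit 164399) (nat_lit 256) .nil)))))))) (.g (nat_lit 4) .nil .nil))))) (.nd (nat_lit 5) (.nd (nat_lit 6) 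
(.lf (nat_lit 144281) (.g (nat_lit 2632) (.e (nat_lit 57368) (nat_lit 1) (.e (nat_lit 57854) (nat_lit 252) (.e (nat_lit 57447) (nat_lit 19) (.e (nat_lit 393234) (nat_lit 17) (.e (nat_lit 2407) (nat_lit 157) .nil))))) .nil)) 
(.lf (nat_lit 144345) (.g (nat_lit 2600) (.e (nat_lit 57370) (nat_lit 2) (.e (nat_lit 90160) (nat_lit 11) (.e (nat_lit 24627) (nat_lit 9) (.e (nat_lit 336454) (nat_lit 34) (.e (nat_lit 483363) (nat_lit 18) .nil))))) .nil))) (.nd (nat_lit 6) 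
(.lf (nat_lit 144313) (.g (nat_lit 2063) (.e (nat_lit 57370) (nat_lit 2) (.e (nat_lit 90158) (nat_lit 11) (.e (nat_lit 24625) (nat_lit 9) (.e (nat_lit 336456) (nat_lit 34) (.e (nat_lit 483362) (nat_lit 18) .nil))))) .nil)) 
(.lf (nat_lit 144377) (.g (nat_lit 2625) (.e (nat_lit 57370) (nat_lit 2) (.e (nat_lit 90170) (nat_lit 13) (.e (nat_lit 172067) (nat_lit 3) (.e (nat_lit 204837) (nat_lit 20) (.e (nat_lit 114718) (nat_lit 23) (.e (nat_lit 98333) (nat_lit 18) (.e (nat_lit 164403) (nat_lit 256) .nil))))))) (.g (nat_lit 4) .nil .nil))))))) (.nd (nat_lit 3) (.nd (nat_lit 4) (.nd (nat_lit 5) (.nd (nat_lit 6) 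
(.lf (nat_lit 144261) (.g (nat_lit 762) (.e (nat_lit 57368) (nat_lit 1) (.e (nat_lit 57854) (nat_lit 252) (.e (nat_lit 57433) (nat_lit 16) .nil))) .nil)) 
(.lf (nat_lit 144325) (.g (nat_lit 2338) (.e (nat_lit 57370) (nat_lit 2) (.e (nat_lit 90158) (nat_lit 11) (.e (nat_lit 24655) (nat_lit 13) (.e (nat_lit 393224) (nat_lit 9) (.e (nat_lit 335996) (nat_lit 1) .nil))))) .nil))) (.nd (nat_lit 6) 
(.lf (nat_lit 144293) (.g (nat_lit 1382) (.e (nat_lit 57369) (nat_lit 2) (.e (nat_lit 90170) (nat_lit 13) (.e (nat_lit 172065) (nat_lit 3) (.e (nat_lit 204838) (nat_lit 20) .nil)))) .nil)) 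
(.lf (nat_lit 144357) (.g (nat_lit 2885) (.e (nat_lit 57370) (nat_lit 2) (.e (nat_lit 90170) (nat_lit 13) (.e (nat_lit 172065) (nat_lit 3) (.e (nat_lit 204837) (nat_lit 20) (.e (nat_lit 114719) (nat_lit 23) (.e (nat_lit 98333) (nat_lit 18) (.e (nat_lit 164399) (nat_lit 256) .nil))))))) (.g (nat_lit 4) .nil .nil))))) (.nd (nat_lit 5) (.nd (nat_lit 6) 
(.lf (nat_lit 144277) (.g (nat_lit 550) (.e (nat_lit 57368) (nat_lit 1) (.e (nat_lit 57854) (nat_lit 252) (.e (nat_lit 57446) (nat_lit 19) .nil))) .nil)) 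
(.lf (nat_lit 144341) (.g (nat_lit 469) (.e (nat_lit 57370) (nat_lit 2) (.e (nat_lit 90158) (nat_lit 11) (.e (nat_lit 24659) (nat_lit 13) .nil))) .nil))) (.nd (nat_lit 6) 
(.lf (nat_lit 144309) (.g (nat_lit 2183) (.e (nat_lit 57370) (nat_lit 2) (.e (nat_lit 90158) (nat_lit 11) (.e (nat_lit 24608) (nat_lit 3) (.e (nat_lit 98339) (nat_lit 19) .nil)))) .nil)) 
(.lf (nat_lit 144373) (.g (nat_lit 2528) (.e (nat_lit 57370) (nat_lit 2) (.e (nat_lit 90170) (nat_lit 13) (.e (nat_lit 172065) (nat_lit 3) (.e (nat_lit 204838) (nat_lit 20) (.e (nat_lit 114719) (nat_lit 23) (.e (nat_lit 98334) (nat_lit 18) (.e (nat_lit 164401) (nat_lit 256) .nil))))))) (.g (nat_lit 4) .nil .nil)))))) (.nd (nat_lit 4) (.nd (nat_lit 5) (.nd (nat_lit 6) 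
(.lf (nat_lit 144269) (.g (nat_lit 2633) (.e (nat_lit 57368) (nat_lit 1) (.e (nat_lit 57854) (nat_lit 252) (.e (nat_lit 57440) (nat_lit 18) (.e (nat_lit 385068) (nat_lit 26) (.e (nat_lit 532551) (nat_lit 12) (.e (nat_lit 360453) (nat_lit 0) (.e (nat_lit 7936) (nat_lit 412) .nil))))))) (.g (nat_lit 5) .nil .nil))) 
(.lf (nat_lit 144333) (.g (nat_lit 3445) (.e (nat_lit 57370) (nat_lit 2) (.e (nat_lit 90158) (nat_lit 11) (.e (nat_lit 24657) (nat_lit 13) (.e (nat_lit 393229) (nat_lit 9) (.e (nat_lit 335996) (nat_lit 1) (.e (nat_lit 57854) (nat_lit 252) .nil)))))) (.g (nat_lit 6) .nil .nil)))) (.nd (nat_lit 6) 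
(.lf (nat_lit 144301) (.g (nat_lit 3202) (.e (nat_lit 57370) (nat_lit 2) (.e (nat_lit 98048) (nat_lit 5) (.e (nat_lit 73754) (nat_lit 8) (.e (nat_lit 557105) (nat_lit 14) (.e (nat_lit 180252) (nat_lit 10) (.e (nat_lit 573475) (nat_lit 12) (.e (nat_lit 57360) (nat_lit 0) (.e (nat_lit 5949) (nat_lit 322) .nil)))))))) (.g (nat_lit 6) .nil .nil))) 
(.lf (nat_lit 144365) (.g (nat_lit 4206) (.e (nat_lit 57370) (nat_lit 2) (.e (nat_lit 90170) (nat_lit 13) (.e (nat_lit 172065) (nat_lit 3) (.e (nat_lit 204838) (nat_lit 20) (.e (nat_lit 114718) (nat_lit 23) (.e (nat_lit 98333) (nat_lit 18) (.e (nat_lit 164399) (nat_lit 256) .nil))))))) (.g (nat_lit 6) .nil .nil))))) (.nd (nat_lit 5) (.nd (nat_lit 6) 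
(.lf (nat_lit 144285) (.g (nat_lit 1824) (.e (nat_lit 57368) (nat_lit 1) (.e (nat_lit 57854) (nat_lit 252) (.e (nat_lit 57447) (nat_lit 19) (.e (nat_lit 393253) (nat_lit 18) .nil)))) .nil)) 
(.lf (nat_lit 144349) (.g (nat_lit 2081) (.e (nat_lit 57370) (nat_lit 2) (.e (nat_lit 90167) (nat_lit 13) (.e (nat_lit 172067) (nat_lit 3) (.e (nat_lit 204838) (nat_lit 20) (.e (nat_lit 114719) (nat_lit 23) (.e (nat_lit 98334) (nat_lit 18) (.e (nat_lit 164399) (nat_lit 256) .nil))))))) (.g (nat_lit 4) .nil .nil)))) (.nd (nat_lit 6) 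
(.lf (nat_lit 144317) (.g (nat_lit 1770) (.e (nat_lit 57370) (nat_lit 2) (.e (nat_lit 90158) (nat_lit 11) (.e (nat_lit 24628) (nat_lit 9) (.e (nat_lit 336370) (nat_lit 27) (.e (nat_lit 426501) (nat_lit 27) .nil))))) .nil)) 
(.lf (nat_lit 144381) (.g (nat_lit 2529) (.e (nat_lit 57370) (nat_lit 2) (.e (nat_lit 90170) (nat_lit 13) (.e (nat_lit 172067) (nat_lit 3) (.e (nat_lit 204837) (nat_lit 20) (.e (nat_lit 114719) (nat_lit 23) (.e (nat_lit 98335) (nat_lit 18) (.e (nat_lit 164403) (nat_lit 256) .nil))))))) (.g (nat_lit 4) .nil .nil)))))))) 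
(.nd (nat_lit 2) (.nd (nat_lit 3) (.nd (nat_lit 4) (.nd (nat_lit 5) (.nd (nat_lit 6) 
(.lf (nat_lit 144259) (.g (nat_lit 2863) (.e (nat_lit 57368) (nat_lit 1) (.e (nat_lit 57854) (nat_lit 252) (.e (nat_lit 57431) (nat_lit 16) (.e (nat_lit 368676) (nat_lit 21) (.e (nat_lit 516176) (nat_lit 14) (.e (nat_lit 466967) (nat_lit 20) (.e (nat_lit 2442) (nat_lit 157) (.e (nat_lit 4000) (nat_lit 241) .nil)))))))) (.g (nat_lit 6) .nil .nil))) 
(.lf (nat_lit 144323) (.g (nat_lit 926) (.e (nat_lit 57370) (nat_lit 2) (.e (nat_lit 90158) (nat_lit 11) (.e (nat_lit 24654) (nat_lit 13) (.e (nat_lit 393225) (nat_lit 9) .nil)))) .nil))) (.nd (nat_lit 6) 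
(.lf (nat_lit 144291) (.g (nat_lit 944) (.e (nat_lit 57369) (nat_lit 2) (.e (nat_lit 90159) (nat_lit 11) (.e (nat_lit 24657) (nat_lit 13) (.e (nat_lit 393229) (nat_lit 9) .nil)))) .nil)) 
(.lf (nat_lit 144355) (.g (nat_lit 3149) (.e (nat_lit 57370) (nat_lit 2) (.e (nat_lit 90170) (nat_lit 13) (.e (nat_lit 172065) (nat_lit 3) (.e (nat_lit 204837) (nat_lit 20) (.e (nat_lit 114718) (nat_lit 23) (.e (nat_lit 98333) (nat_lit 18) (.e (nat_lit 164399) (nat_lit 256) .nil))))))) (.g (nat_lit 4) .nil .nil))))) (.nd (nat_lit 5) (.nd (nat_lit 6) 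
(.lf (nat_lit 144275) (.g (nat_lit 1961) (.e (nat_lit 57368) (nat_lit 1) (.e (nat_lit 57854) (nat_lit 252) (.e (nat_lit 57445) (nat_lit 19) (.e (nat_lit 401152) (nat_lit 11) (.e (nat_lit 352316) (nat_lit 24) (.e (nat_lit 123023) (nat_lit 124) .nil)))))) (.g (nat_lit 5) .nil .nil))) 
(.lf (nat_lit 144339) (.g (nat_lit 1937) (.e (nat_lit 57370) (nat_lit 2) (.e (nat_lit 90158) (nat_lit 11) (.e (nat_lit 24658) (nat_lit 13) (.e (nat_lit 393229) (nat_lit 9) (.e (nat_lit 335987) (nat_lit 1) .nil))))) .nil))) (.nd (nat_lit 6) 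
(.lf (nat_lit 144307) (.g (nat_lit 1677) (.e (nat_lit 57370) (nat_lit 2) (.e (nat_lit 90158) (nat_lit 11) (.e (nat_lit 24608) (nat_lit 3) (.e (nat_lit 98337) (nat_lit 19) .nil)))) .nil)) 
(.lf (nat_lit 144371) (.g (nat_lit 3712) (.e (nat_lit 57370) (nat_lit 2) (.e (nat_lit 90170) (nat_lit 13) (.e (nat_lit 172065) (nat_lit 3) (.e (nat_lit 204838) (nat_lit 20) (.e (nat_lit 114718) (nat_lit 23) (.e (nat_lit 98335) (nat_lit 18) (.e (nat_lit 164403) (nat_lit 256) .nil))))))) (.g (nat_lit 5) .nil .nil)))))) (.nd (nat_lit 4) (.nd (nat_lit 5) (.nd (nat_lit 6) 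
(.lf (nat_lit 144267) (.g (nat_lit 2194) (.e (nat_lit 57368) (nat_lit 1) (.e (nat_lit 57854) (nat_lit 252) (.e (nat_lit 57440) (nat_lit 18) (.e (nat_lit 385068) (nat_lit 26) (.e (nat_lit 532549) (nat_lit 12) .nil))))) .nil)) 
(.lf (nat_lit 144331) (.g (nat_lit 1832) (.e (nat_lit 57370) (nat_lit 2) (.e (nat_lit 90158) (nat_lit 11) (.e (nat_lit 24656) (nat_lit 13) (.e (nat_lit 393225) (nat_lit 9) (.e (nat_lit 335996) (nat_lit 1) .nil))))) .nil))) (.nd (nat_lit 6) 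
(.lf (nat_lit 144299) (.g (nat_lit 366) (.e (nat_lit 57369) (nat_lit 2) (.e (nat_lit 90176) (nat_lit 15) (.e (nat_lit 196352) (nat_lit 18) .nil))) .nil)) 
(.lf (nat_lit 144363) (.g (nat_lit 3196) (.e (nat_lit 57370) (nat_lit 2) (.e (nat_lit 90170) (nat_lit 13) (.e (nat_lit 172065) (nat_lit 3) (.e (nat_lit 204838) (nat_lit 20) (.e (nat_lit 114717) (nat_lit 23) (.e (nat_lit 98334) (nat_lit 18) (.e (nat_lit 164399) (nat_lit 256) .nil))))))) (.g (nat_lit 4) .nil .nil))))) (.nd (nat_lit 5) (.nd (nat_lit 6) 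
(.lf (nat_lit 144283) (.g (nat_lit 2631) (.e (nat_lit 57368) (nat_lit 1) (.e (nat_lit 57854) (nat_lit 252) (.e (nat_lit 57447) (nat_lit 19) (.e (nat_lit 393234) (nat_lit 17) (.e (nat_lit 2412) (nat_lit 157) .nil))))) .nil)) 
(.lf (nat_lit 144347) (.g (nat_lit 1972) (.e (nat_lit 57370) (nat_lit 2) (.e (nat_lit 90167) (nat_lit 13) (.e (nat_lit 172067) (nat_lit 3) (.e (nat_lit 204837) (nat_lit 20) (.e (nat_lit 114708) (nat_lit 20) .nil))))) .nil))) (.nd (nat_lit 6) 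
(.lf (nat_lit 144315) (.g (nat_lit 3227) (.e (nat_lit 57370) (nat_lit 2) (.e (nat_lit 90158) (nat_lit 11) (.e (nat_lit 24627) (nat_lit 9) (.e (nat_lit 336454) (nat_lit 34) (.e (nat_lit 483365) (nat_lit 18) (.e (nat_lit 57852) (nat_lit 252) .nil)))))) (.g (nat_lit 6) .nil .nil))) 
(.lf (nat_lit 144379) (.g (nat_lit 2534) (.e (nat_lit 57370) (nat_lit 2) (.e (nat_lit 90170) (nat_lit 13) (.e (nat_lit 172067) (nat_lit 3) (.e (nat_lit 204837) (nat_lit 20) (.e (nat_lit 114718) (nat_lit 23) (.e (nat_lit 98335) (nat_lit 18) (.e (nat_lit 164403) (nat_lit 256) .nil))))))) (.g (nat_lit 4) .nil .nil))))))) (.nd (nat_lit 3) (.nd (nat_lit 4) (.nd (nat_lit 5) (.nd (nat_lit 6) 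
(.lf (nat_lit 144263) (.g (nat_lit 1041) (.e (nat_lit 57368) (nat_lit 1) (.e (nat_lit 57854) (nat_lit 252) (.e (nat_lit 57436) (nat_lit 17) (.e (nat_lit 384768) (nat_lit 13) .nil)))) .nil)) 
(.lf (nat_lit 144327) (.g (nat_lit 2286) (.e (nat_lit 57370) (nat_lit 2) (.e (nat_lit 90158) (nat_lit 11) (.e (nat_lit 24655) (nat_lit 13) (.e (nat_lit 393229) (nat_lit 9) (.e (nat_lit 335987) (nat_lit 1) .nil))))) .nil))) (.nd (nat_lit 6) 
(.lf (nat_lit 144295) (.g (nat_lit 3181) (.e (nat_lit 57369) (nat_lit 2) (.e (nat_lit 90170) (nat_lit 13) (.e (nat_lit 172106) (nat_lit 10) (.e (nat_lit 434231) (nat_lit 23) (.e (nat_lit 532529) (nat_lit 9) .nil))))) .nil)) 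
(.lf (nat_lit 144359) (.g (nat_lit 2469) (.e (nat_lit 57370) (nat_lit 2) (.e (nat_lit 90170) (nat_lit 13) (.e (nat_lit 172065) (nat_lit 3) (.e (nat_lit 204837) (nat_lit 20) (.e (nat_lit 114719) (nat_lit 23) (.e (nat_lit 98335) (nat_lit 18) (.e (nat_lit 164403) (nat_lit 256) .nil))))))) (.g (nat_lit 4) .nil .nil))))) (.nd (nat_lit 5) (.nd (nat_lit 6) 
(.lf (nat_lit 144279) (.g (nat_lit 2259) (.e (nat_lit 57368) (nat_lit 1) (.e (nat_lit 57854) (nat_lit 252) (.e (nat_lit 57447) (nat_lit 19) (.e (nat_lit 401152) (nat_lit 11) (.e (nat_lit 352316) (nat_lit 24) (.e (nat_lit 123023) (nat_lit 124) .nil)))))) (.g (nat_lit 5) .nil .nil))) 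
(.lf (nat_lit 144343) (.g (nat_lit 1463) (.e (nat_lit 57370) (nat_lit 2) (.e (nat_lit 90159) (nat_lit 11) (.e (nat_lit 24657) (nat_lit 13) (.e (nat_lit 393229) (nat_lit 9) (.e (nat_lit 335988) (nat_lit 1) .nil))))) .nil))) (.nd (nat_lit 6) 
(.lf (nat_lit 144311) (.g (nat_lit 1410) (.e (nat_lit 57370) (nat_lit 2) (.e (nat_lit 90158) (nat_lit 11) (.e (nat_lit 24625) (nat_lit 9) (.e (nat_lit 336367) (nat_lit 27) .nil)))) .nil)) 
(.lf (nat_lit 144375) (.g (nat_lit 2696) (.e (nat_lit 57370) (nat_lit 2) (.e (nat_lit 90170) (nat_lit 13) (.e (nat_lit 172067) (nat_lit 3) (.e (nat_lit 204837) (nat_lit 20) (.e (nat_lit 114717) (nat_lit 23) (.e (nat_lit 98333) (nat_lit 18) (.e (nat_lit 164399) (nat_lit 256) .nil))))))) (.g (nat_lit 4) .nil .nil)))))) (.nd (nat_lit 4) (.nd (nat_lit 5) (.nd (nat_lit 6) 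
(.lf (nat_lit 144271) (.g (nat_lit 669) (.e (nat_lit 57368) (nat_lit 1) (.e (nat_lit 57854) (nat_lit 252) (.e (nat_lit 57442) (nat_lit 18) .nil))) .nil)) 
(.lf (nat_lit 144335) (.g (nat_lit 1615) (.e (nat_lit 57370) (nat_lit 2) (.e (nat_lit 90158) (nat_lit 11) (.e (nat_lit 24658) (nat_lit 13) (.e (nat_lit 393224) (nat_lit 9) .nil)))) .nil))) (.nd (nat_lit 6) 
(.lf (nat_lit 144303) (.g (nat_lit 454) (.e (nat_lit 57370) (nat_lit 2) (.e (nat_lit 90134) (nat_lit 9) (.e (nat_lit 290) (nat_lit 21) .nil))) .nil)) 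
(.lf (nat_lit 144367) (.g (nat_lit 2955) (.e (nat_lit 57370) (nat_lit 2) (.e (nat_lit 90170) (nat_lit 13) (.e (nat_lit 172065) (nat_lit 3) (.e (nat_lit 204838) (nat_lit 20) (.e (nat_lit 114718) (nat_lit 23) (.e (nat_lit 98334) (nat_lit 18) (.e (nat_lit 164398) (nat_lit 256) .nil))))))) (.g (nat_lit 4) .nil .nil))))) (.nd (nat_lit 5) (.nd (nat_lit 6) 
(.lf (nat_lit 144287) (.g (nat_lit 1809) (.e (nat_lit 57369) (nat_lit 2) (.e (nat_lit 90158) (nat_lit 11) (.e (nat_lit 24625) (nat_lit 9) (.e (nat_lit 336456) (nat_lit 34) .nil)))) .nil)) 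
(.lf (nat_lit 144351) (.g (nat_lit 1717) (.e (nat_lit 57370) (nat_lit 2) (.e (nat_lit 90169) (nat_lit 13) (.e (nat_lit 172121) (nat_lit 13) (.e (nat_lit 483341) (nat_lit 9) (.e (nat_lit 426107) (nat_lit 1) (.e (nat_lit 164403) (nat_lit 256) .nil)))))) (.g (nat_lit 4) .nil .nil)))) (.nd (nat_lit 6) 
(.lf (nat_lit 144319) (.g (nat_lit 1486) (.e (nat_lit 57370) (nat_lit 2) (.e (nat_lit 90158) (nat_lit 11) (.e (nat_lit 24629) (nat_lit 9) (.e (nat_lit 336456) (nat_lit 34) (.e (nat_lit 483365) (nat_lit 18) .nil))))) .nil)) 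
(.lf (nat_lit 144383) (.g (nat_lit 2690) (.e (nat_lit 57370) (nat_lit 2) (.e (nat_lit 90170) (nat_lit 13) (.e (nat_lit 172067) (nat_lit 3) (.e (nat_lit 204838) (nat_lit 20) (.e (nat_lit 114708) (nat_lit 20) .nil))))) .nil)))))))))

noncomputable def tv1915 : DT := (.nd (nat_lit 0) (.nd (nat_lit 1) (.nd (nat_lit 2) (.nd (nat_lit 3) (.nd (nat_lit 4) (.nd (nat_lit 5) 
(.lf (nat_lit 144384) (.g (nat_lit 2924) (.e (nat_lit 57370) (nat_lit 2) (.e (nat_lit 90170) (nat_lit 13) (.e (nat_lit 172067) (nat_lit 3) (.e (nat_lit 204838) (nat_lit 20) (.e (nat_lit 114717) (nat_lit 23) (.e (nat_lit 98333) (nat_lit 18) (.e (nat_lit 164399) (nat_lit 256) .nil))))))) (.g (nat_lit 4) .nil .nil))) 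
(.lf (nat_lit 144416) (.g (nat_lit 1915) (.e (nat_lit 57370) (nat_lit 2) (.e (nat_lit 90172) (nat_lit 14) (.e (nat_lit 180244) (nat_lit 5) (.e (nat_lit 532506) (nat_lit 2) (.e (nat_lit 106540) (nat_lit 13) (.e (nat_lit 122936) (nat_lit 23) (.e (nat_lit 516115) (nat_lit 1) (.e (nat_lit 164399) (nat_lit 256) .nil)))))))) (.g (nat_lit 4) .nil .nil)))) (.nd (nat_lit 5) 
(.lf (nat_lit 144400) (.g (nat_lit 3307) (.e (nat_lit 57370) (nat_lit 2) (.e (nat_lit 90170) (nat_lit 13) (.e (nat_lit 172106) (nat_lit 10) (.e (nat_lit 434231) (nat_lit 23) (.e (nat_lit 532529) (nat_lit 9) .nil))))) .nil)) 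
(.lf (nat_lit 144432) (.g (nat_lit 2139) (.e (nat_lit 57370) (nat_lit 2) (.e (nat_lit 90172) (nat_lit 14) (.e (nat_lit 180244) (nat_lit 5) (.e (nat_lit 532513) (nat_lit 3) (.e (nat_lit 114719) (nat_lit 23) (.e (nat_lit 98333) (nat_lit 18) (.e (nat_lit 164398) (nat_lit 256) .nil))))))) (.g (nat_lit 4) .nil .nil))))) (.nd (nat_lit 4) (.nd (nat_lit 5) 
(.lf (nat_lit 144392) (.g (nat_lit 2688) (.e (nat_lit 57370) (nat_lit 2) (.e (nat_lit 90170) (nat_lit 13) (.e (nat_lit 172067) (nat_lit 3) (.e (nat_lit 204838) (nat_lit 20) (.e (nat_lit 114719) (nat_lit 23) (.e (nat_lit 98333) (nat_lit 18) (.e (nat_lit 164403) (nat_lit 256) .nil))))))) (.g (nat_lit 4) .nil .nil))) 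
(.lf (nat_lit 144424) (.g (nat_lit 1947) (.e (nat_lit 57370) (nat_lit 2) (.e (nat_lit 90172) (nat_lit 14) (.e (nat_lit 180244) (nat_lit 5) (.e (nat_lit 532508) (nat_lit 2) (.e (nat_lit 106541) (nat_lit 13) (.e (nat_lit 122936) (nat_lit 23) (.e (nat_lit 516115) (nat_lit 1) (.e (nat_lit 164399) (nat_lit 256) .nil)))))))) (.g (nat_lit 4) .nil .nil)))) (.nd (nat_lit 5) 
(.lf (nat_lit 144408) (.g (nat_lit 1919) (.e (nat_lit 57370) (nat_lit 2) (.e (nat_lit 90170) (nat_lit 13) (.e (nat_lit 172121) (nat_lit 13) (.e (nat_lit 483341) (nat_lit 9) (.e (nat_lit 426100) (nat_lit 1) .nil))))) .nil)) 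
(.lf (nat_lit 144440) (.g (nat_lit 3836) (.e (nat_lit 57370) (nat_lit 2) (.e (nat_lit 90172) (nat_lit 14) (.e (nat_lit 180244) (nat_lit 5) (.e (nat_lit 532515) (nat_lit 3) (.e (nat_lit 114719) (nat_lit 23) (.e (nat_lit 98333) (nat_lit 18) (.e (nat_lit 164399) (nat_lit 256) .nil))))))) (.g (nat_lit 7) .nil .nil)))))) (.nd (nat_lit 3) (.nd (nat_lit 4) (.nd (nat_lit 5) 
(.lf (nat_lit 144388) (.g (nat_lit 3493) (.e (nat_lit 57370) (nat_lit 2) (.e (nat_lit 90170) (nat_lit 13) (.e (nat_lit 172067) (nat_lit 3) (.e (nat_lit 204838) (nat_lit 20) (.e (nat_lit 114718) (nat_lit 23) (.e (nat_lit 98334) (nat_lit 18) (.e (nat_lit 164399) (nat_lit 256) .nil))))))) (.g (nat_lit 5) .nil .nil))) 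
(.lf (nat_lit 144420) (.g (nat_lit 2159) (.e (nat_lit 57370) (nat_lit 2) (.e (nat_lit 90172) (nat_lit 14) (.e (nat_lit 180244) (nat_lit 5) (.e (nat_lit 532508) (nat_lit 2) (.e (nat_lit 106538) (nat_lit 12) (.e (nat_lit 57465) (nat_lit 23) (.e (nat_lit 516115) (nat_lit 1) (.e (nat_lit 164399) (nat_lit 256) .nil)))))))) (.g (nat_lit 4) .nil .nil)))) (.nd (nat_lit 5) 
(.lf (nat_lit 144404) (.g (nat_lit 2418) (.e (nat_lit 57370) (nat_lit 2) (.e (nat_lit 90170) (nat_lit 13) (.e (nat_lit 172121) (nat_lit 13) (.e (nat_lit 483337) (nat_lit 9) (.e (nat_lit 426100) (nat_lit 1) (.e (nat_lit 164399) (nat_lit 256) .nil)))))) (.g (nat_lit 4) .nil .nil))) 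
(.lf (nat_lit 144436) (.g (nat_lit 1099) (.e (nat_lit 57370) (nat_lit 2) (.e (nat_lit 90172) (nat_lit 14) (.e (nat_lit 180244) (nat_lit 5) (.e (nat_lit 532515) (nat_lit 3) .nil)))) .nil)))) (.nd (nat_lit 4) (.nd (nat_lit 5) 
(.lf (nat_lit 144396) (.g (nat_lit 939) (.e (nat_lit 57370) (nat_lit 2) (.e (nat_lit 90170) (nat_lit 13) (.e (nat_lit 172087) (nat_lit 9) .nil))) .nil)) 
(.lf (nat_lit 144428) (.g (nat_lit 2516) (.e (nat_lit 57370) (nat_lit 2) (.e (nat_lit 90172) (nat_lit 14) (.e (nat_lit 180244) (nat_lit 5) (.e (nat_lit 532513) (nat_lit 3) (.e (nat_lit 114699) (nat_lit 20) (.e (nat_lit 1799) (nat_lit 119) (.e (nat_lit 516115) (nat_lit 1) (.e (nat_lit 164399) (nat_lit 256) .nil)))))))) (.g (nat_lit 4) .nil .nil)))) (.nd (nat_lit 5) 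
(.lf (nat_lit 144412) (.g (nat_lit 2434) (.e (nat_lit 57370) (nat_lit 2) (.e (nat_lit 90172) (nat_lit 14) (.e (nat_lit 180243) (nat_lit 5) (.e (nat_lit 532515) (nat_lit 3) (.e (nat_lit 114719) (nat_lit 23) (.e (nat_lit 98333) (nat_lit 18) (.e (nat_lit 164399) (nat_lit 256) .nil))))))) (.g (nat_lit 4) .nil .nil))) 
(.lf (nat_lit 144444) (.g (nat_lit 1351) (.e (nat_lit 57370) (nat_lit 2) (.e (nat_lit 90174) (nat_lit 14) (.e (nat_lit 180243) (nat_lit 5) (.e (nat_lit 532508) (nat_lit 2) .nil)))) .nil)))))) (.nd (nat_lit 2) (.nd (nat_lit 3) (.nd (nat_lit 4) (.nd (nat_lit 5) 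
(.lf (nat_lit 144386) (.g (nat_lit 3706) (.e (nat_lit 57370) (nat_lit 2) (.e (nat_lit 90170) (nat_lit 13) (.e (nat_lit 172067) (nat_lit 3) (.e (nat_lit 204838) (nat_lit 20) (.e (nat_lit 114718) (nat_lit 23) (.e (nat_lit 98333) (nat_lit 18) (.e (nat_lit 164399) (nat_lit 256) .nil))))))) (.g (nat_lit 5) .nil .nil))) 
(.lf (nat_lit 144418) (.g (nat_lit 1438) (.e (nat_lit 57370) (nat_lit 2) (.e (nat_lit 90172) (nat_lit 14) (.e (nat_lit 180244) (nat_lit 5) (.e (nat_lit 532508) (nat_lit 2) .nil)))) .nil))) (.nd (nat_lit 5) 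
(.lf (nat_lit 144402) (.g (nat_lit 848) (.e (nat_lit 57370) (nat_lit 2) (.e (nat_lit 90170) (nat_lit 13) (.e (nat_lit 172121) (nat_lit 13) .nil))) .nil)) 
(.lf (nat_lit 144434) (.g (nat_lit 2910) (.e (nat_lit 57370) (nat_lit 2) (.e (nat_lit 90172) (nat_lit 14) (.e (nat_lit 180244) (nat_lit 5) (.e (nat_lit 532513) (nat_lit 3) (.e (nat_lit 114719) (nat_lit 23) (.e (nat_lit 98334) (nat_lit 18) (.e (nat_lit 164403) (nat_lit 256) .nil))))))) (.g (nat_lit 5) .nil .nil))))) (.nd (nat_lit 4) (.nd (nat_lit 5) 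
(.lf (nat_lit 144394) (.g (nat_lit 3320) (.e (nat_lit 57370) (nat_lit 2) (.e (nat_lit 90170) (nat_lit 13) (.e (nat_lit 172067) (nat_lit 3) (.e (nat_lit 204838) (nat_lit 20) (.e (nat_lit 114719) (nat_lit 23) (.e (nat_lit 98335) (nat_lit 18) (.e (nat_lit 164403) (nat_lit 256) .nil))))))) (.g (nat_lit 5) .nil .nil))) 
(.lf (nat_lit 144426) (.g (nat_lit 1233) (.e (nat_lit 57370) (nat_lit 2) (.e (nat_lit 90172) (nat_lit 14) (.e (nat_lit 180244) (nat_lit 5) (.e (nat_lit 532513) (nat_lit 3) .nil)))) .nil))) (.nd (nat_lit 5) 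
(.lf (nat_lit 144410) (.g (nat_lit 2339) (.e (nat_lit 57370) (nat_lit 2) (.e (nat_lit 90172) (nat_lit 14) (.e (nat_lit 180243) (nat_lit 5) (.e (nat_lit 532513) (nat_lit 3) (.e (nat_lit 114718) (nat_lit 23) (.e (nat_lit 98333) (nat_lit 18) (.e (nat_lit 164403) (nat_lit 256) .nil))))))) (.g (nat_lit 4) .nil .nil))) 
(.lf (nat_lit 144442) (.g (nat_lit 780) (.e (nat_lit 57370) (nat_lit 2) (.e (nat_lit 90172) (nat_lit 14) (.e (nat_lit 188160) (nat_lit 40) .nil))) .nil))))) (.nd (nat_lit 3) (.nd (nat_lit 4) (.nd (nat_lit 5) 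
(.lf (nat_lit 144390) (.g (nat_lit 2333) (.e (nat_lit 57370) (nat_lit 2) (.e (nat_lit 90170) (nat_lit 13) (.e (nat_lit 172067) (nat_lit 3) (.e (nat_lit 204838) (nat_lit 20) (.e (nat_lit 114719) (nat_lit 23) .nil))))) .nil)) 
(.lf (nat_lit 144422) (.g (nat_lit 1959) (.e (nat_lit 57370) (nat_lit 2) (.e (nat_lit 90172) (nat_lit 14) (.e (nat_lit 180244) (nat_lit 5) (.e (nat_lit 532508) (nat_lit 2) (.e (nat_lit 106539) (nat_lit 12) (.e (nat_lit 57467) (nat_lit 23) (.e (nat_lit 516115) (nat_lit 1) (.e (nat_lit 164399) (nat_lit 256) .nil)))))))) (.g (nat_lit 4) .nil .nil)))) (.nd (nat_lit 5) 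
(.lf (nat_lit 144406) (.g (nat_lit 3089) (.e (nat_lit 57370) (nat_lit 2) (.e (nat_lit 90170) (nat_lit 13) (.e (nat_lit 172121) (nat_lit 13) (.e (nat_lit 483337) (nat_lit 9) (.e (nat_lit 426107) (nat_lit 1) (.e (nat_lit 164403) (nat_lit 256) .nil)))))) (.g (nat_lit 5) .nil .nil))) 
(.lf (nat_lit 144438) (.g (nat_lit 1963) (.e (nat_lit 57370) (nat_lit 2) (.e (nat_lit 90172) (nat_lit 14) (.e (nat_lit 180244) (nat_lit 5) (.e (nat_lit 532515) (nat_lit 3) (.e (nat_lit 114718) (nat_lit 23) (.e (nat_lit 98334) (nat_lit 18) (.e (nat_lit 164401) (nat_lit 256) .nil))))))) (.g (nat_lit 4) .nil .nil))))) (.nd (nat_lit 4) (.nd (nat_lit 5) 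
(.lf (nat_lit 144398) (.g (nat_lit 891) (.e (nat_lit 57370) (nat_lit 2) (.e (nat_lit 90170) (nat_lit 13) (.e (nat_lit 172095) (nat_lit 9) .nil))) .nil)) 
(.lf (nat_lit 144430) (.g (nat_lit 4159) (.e (nat_lit 57370) (nat_lit 2) (.e (nat_lit 90172) (nat_lit 14) (.e (nat_lit 180244) (nat_lit 5) (.e (nat_lit 532513) (nat_lit 3) (.e (nat_lit 114718) (nat_lit 23) (.e (nat_lit 98334) (nat_lit 18) (.e (nat_lit 164399) (nat_lit 256) .nil))))))) (.g (nat_lit 6) .nil .nil)))) (.nd (nat_lit 5) 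
(.lf (nat_lit 144414) (.g (nat_lit 2140) (.e (nat_lit 57370) (nat_lit 2) (.e (nat_lit 90172) (nat_lit 14) (.e (nat_lit 180243) (nat_lit 5) (.e (nat_lit 532515) (nat_lit 3) (.e (nat_lit 114719) (nat_lit 23) (.e (nat_lit 98335) (nat_lit 18) (.e (nat_lit 164403) (nat_lit 256) .nil))))))) (.g (nat_lit 4) .nil .nil))) 
(.lf (nat_lit 144446) (.g (nat_lit 1911) (.e (nat_lit 57370) (nat_lit 2) (.e (nat_lit 90174) (nat_lit 14) (.e (nat_lit 180243) (nat_lit 5) (.e (nat_lit 532510) (nat_lit 2) (.e (nat_lit 106537) (nat_lit 12) (.e (nat_lit 57464) (nat_lit 23) (.e (nat_lit 516116) (nat_lit 1) (.e (nat_lit 164399) (nat_lit 256) .nil)))))))) (.g (nat_lit 4) .nil .nil)))))))) 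
(.nd (nat_lit 1) (.nd (nat_lit 2) (.nd (nat_lit 3) (.nd (nat_lit 4) (.nd (nat_lit 5) 
(.lf (nat_lit 144385) (.g (nat_lit 2590) (.e (nat_lit 57370) (nat_lit 2) (.e (nat_lit 90170) (nat_lit 13) (.e (nat_lit 172067) (nat_lit 3) (.e (nat_lit 204838) (nat_lit 20) (.e (nat_lit 114718) (nat_lit 23) .nil))))) .nil)) 
(.lf (nat_lit 144417) (.g (nat_lit 2036) (.e (nat_lit 57370) (nat_lit 2) (.e (nat_lit 90172) (nat_lit 14) (.e (nat_lit 180244) (nat_lit 5) (.e (nat_lit 532506) (nat_lit 2) (.e (nat_lit 106540) (nat_lit 13) (.e (nat_lit 122936) (nat_lit 23) (.e (nat_lit 516117) (nat_lit 1) (.e (nat_lit 164399) (nat_lit 256) .nil)))))))) (.g (nat_lit 4) .nil .nil)))) (.nd (nat_lit 5) 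
(.lf (nat_lit 144401) (.g (nat_lit 2583) (.e (nat_lit 57370) (nat_lit 2) (.e (nat_lit 90170) (nat_lit 13) (.e (nat_lit 172106) (nat_lit 10) (.e (nat_lit 434231) (nat_lit 23) (.e (nat_lit 532535) (nat_lit 9) .nil))))) .nil)) 
(.lf (nat_lit 144433) (.g (nat_lit 4215) (.e (nat_lit 57370) (nat_lit 2) (.e (nat_lit 90172) (nat_lit 14) (.e (nat_lit 180244) (nat_lit 5) (.e (nat_lit 532513) (nat_lit 3) (.e (nat_lit 114719) (nat_lit 23) (.e (nat_lit 98333) (nat_lit 18) (.e (nat_lit 164399) (nat_lit 256) .nil))))))) (.g (nat_lit 7) .nil .nil))))) (.nd (nat_lit 4) (.nd (nat_lit 5) 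
(.lf (nat_lit 144393) (.g (nat_lit 3216) (.e (nat_lit 57370) (nat_lit 2) (.e (nat_lit 90170) (nat_lit 13) (.e (nat_lit 172067) (nat_lit 3) (.e (nat_lit 204838) (nat_lit 20) (.e (nat_lit 114719) (nat_lit 23) (.e (nat_lit 98334) (nat_lit 18) (.e (nat_lit 164399) (nat_lit 256) .nil))))))) (.g (nat_lit 5) .nil .nil))) 
(.lf (nat_lit 144425) (.g (nat_lit 1911) (.e (nat_lit 57370) (nat_lit 2) (.e (nat_lit 90172) (nat_lit 14) (.e (nat_lit 180244) (nat_lit 5) (.e (nat_lit 532508) (nat_lit 2) (.e (nat_lit 106541) (nat_lit 13) (.e (nat_lit 122936) (nat_lit 23) (.e (nat_lit 516117) (nat_lit 1) (.e (nat_lit 164399) (nat_lit 256) .nil)))))))) (.g (nat_lit 4) .nil .nil)))) (.nd (nat_lit 5) 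
(.lf (nat_lit 144409) (.g (nat_lit 781) (.e (nat_lit 57370) (nat_lit 2) (.e (nat_lit 90172) (nat_lit 14) (.e (nat_lit 180243) (nat_lit 5) .nil))) .nil)) 
(.lf (nat_lit 144441) (.g (nat_lit 2616) (.e (nat_lit 57370) (nat_lit 2) (.e (nat_lit 90172) (nat_lit 14) (.e (nat_lit 180244) (nat_lit 5) (.e (nat_lit 532515) (nat_lit 3) (.e (nat_lit 114719) (nat_lit 23) (.e (nat_lit 98334) (nat_lit 18) (.e (nat_lit 164403) (nat_lit 256) .nil))))))) (.g (nat_lit 5) .nil .nil)))))) (.nd (nat_lit 3) (.nd (nat_lit 4) (.nd (nat_lit 5) 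
(.lf (nat_lit 144389) (.g (nat_lit 3212) (.e (nat_lit 57370) (nat_lit 2) (.e (nat_lit 90170) (nat_lit 13) (.e (nat_lit 172067) (nat_lit 3) (.e (nat_lit 204838) (nat_lit 20) (.e (nat_lit 114718) (nat_lit 23) (.e (nat_lit 98335) (nat_lit 18) (.e (nat_lit 164403) (nat_lit 256) .nil))))))) (.g (nat_lit 4) .nil .nil))) 
(.lf (nat_lit 144421) (.g (nat_lit 1905) (.e (nat_lit 57370) (nat_lit 2) (.e (nat_lit 90172) (nat_lit 14) (.e (nat_lit 180244) (nat_lit 5) (.e (nat_lit 532508) (nat_lit 2) (.e (nat_lit 106539) (nat_lit 12) (.e (nat_lit 57466) (nat_lit 23) (.e (nat_lit 516115) (nat_lit 1) (.e (nat_lit 164399) (nat_lit 256) .nil)))))))) (.g (nat_lit 4) .nil .nil)))) (.nd (nat_lit 5) 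
(.lf (nat_lit 144405) (.g (nat_lit 2284) (.e (nat_lit 57370) (nat_lit 2) (.e (nat_lit 90170) (nat_lit 13) (.e (nat_lit 172121) (nat_lit 13) (.e (nat_lit 483337) (nat_lit 9) (.e (nat_lit 426107) (nat_lit 1) (.e (nat_lit 164401) (nat_lit 256) .nil)))))) (.g (nat_lit 4) .nil .nil))) 
(.lf (nat_lit 144437) (.g (nat_lit 1475) (.e (nat_lit 57370) (nat_lit 2) (.e (nat_lit 90172) (nat_lit 14) (.e (nat_lit 180244) (nat_lit 5) (.e (nat_lit 532515) (nat_lit 3) (.e (nat_lit 114716) (nat_lit 22) .nil))))) .nil)))) (.nd (nat_lit 4) (.nd (nat_lit 5) 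
(.lf (nat_lit 144397) (.g (nat_lit 932) (.e (nat_lit 57370) (nat_lit 2) (.e (nat_lit 90170) (nat_lit 13) (.e (nat_lit 172092) (nat_lit 9) .nil))) .nil)) 
(.lf (nat_lit 144429) (.g (nat_lit 2216) (.e (nat_lit 57370) (nat_lit 2) (.e (nat_lit 90172) (nat_lit 14) (.e (nat_lit 180244) (nat_lit 5) (.e (nat_lit 532513) (nat_lit 3) (.e (nat_lit 114703) (nat_lit 20) .nil))))) .nil))) (.nd (nat_lit 5) 
(.lf (nat_lit 144413) (.g (nat_lit 2193) (.e (nat_lit 57370) (nat_lit 2) (.e (nat_lit 90172) (nat_lit 14) (.e (nat_lit 180243) (nat_lit 5) (.e (nat_lit 532515) (nat_lit 3) (.e (nat_lit 114719) (nat_lit 23) (.e (nat_lit 98334) (nat_lit 18) (.e (nat_lit 164399) (nat_lit 256) .nil))))))) (.g (nat_lit 4) .nil .nil))) 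
(.lf (nat_lit 144445) (.g (nat_lit 1905) (.e (nat_lit 57370) (nat_lit 2) (.e (nat_lit 90174) (nat_lit 14) (.e (nat_lit 180243) (nat_lit 5) (.e (nat_lit 532508) (nat_lit 2) (.e (nat_lit 106537) (nat_lit 12) (.e (nat_lit 57464) (nat_lit 23) (.e (nat_lit 516116) (nat_lit 1) (.e (nat_lit 164399) (nat_lit 256) .nil)))))))) (.g (nat_lit 4) .nil .nil))))))) 
(.nd (nat_lit 2) (.nd (nat_lit 3) (.nd (nat_lit 4) (.nd (nat_lit 5) 
(.lf (nat_lit 144387) (.g (nat_lit 3019) (.e (nat_lit 57370) (nat_lit 2) (.e (nat_lit 90170) (nat_lit 13) (.e (nat_lit 172067) (nat_lit 3) (.e (nat_lit 204838) (nat_lit 20) (.e (nat_lit 114718) (nat_lit 23) (.e (nat_lit 98333) (nat_lit 18) (.e (nat_lit 164403) (nat_lit 256) .nil))))))) (.g (nat_lit 4) .nil .nil))) 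
(.lf (nat_lit 144419) (.g (nat_lit 1731) (.e (nat_lit 57370) (nat_lit 2) (.e (nat_lit 90172) (nat_lit 14) (.e (nat_lit 180244) (nat_lit 5) (.e (nat_lit 532508) (nat_lit 2) (.e (nat_lit 106526) (nat_lit 9) .nil))))) .nil))) (.nd (nat_lit 5) 
(.lf (nat_lit 144403) (.g (nat_lit 2386) (.e (nat_lit 57370) (nat_lit 2) (.e (nat_lit 90170) (nat_lit 13) (.e (nat_lit 172121) (nat_lit 13) (.e (nat_lit 483337) (nat_lit 9) (.e (nat_lit 426098) (nat_lit 1) (.e (nat_lit 164399) (nat_lit 256) .nil)))))) (.g (nat_lit 4) .nil .nil))) 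
(.lf (nat_lit 144435) (.g (nat_lit 3921) (.e (nat_lit 57370) (nat_lit 2) (.e (nat_lit 90172) (nat_lit 14) (.e (nat_lit 180244) (nat_lit 5) (.e (nat_lit 532513) (nat_lit 3) (.e (nat_lit 114719) (nat_lit 23) (.e (nat_lit 98335) (nat_lit 18) (.e (nat_lit 164403) (nat_lit 256) .nil))))))) (.g (nat_lit 6) .nil .nil))))) (.nd (nat_lit 4) (.nd (nat_lit 5) 
(.lf (nat_lit 144395) (.g (nat_lit 1449) (.e (nat_lit 57370) (nat_lit 2) (.e (nat_lit 90170) (nat_lit 13) (.e (nat_lit 172085) (nat_lit 9) (.e (nat_lit 426568) (nat_lit 34) .nil)))) .nil)) 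
(.lf (nat_lit 144427) (.g (nat_lit 2178) (.e (nat_lit 57370) (nat_lit 2) (.e (nat_lit 90172) (nat_lit 14) (.e (nat_lit 180244) (nat_lit 5) (.e (nat_lit 532513) (nat_lit 3) (.e (nat_lit 114699) (nat_lit 20) .nil))))) .nil))) (.nd (nat_lit 5) 
(.lf (nat_lit 144411) (.g (nat_lit 2112) (.e (nat_lit 57370) (nat_lit 2) (.e (nat_lit 90172) (nat_lit 14) (.e (nat_lit 180243) (nat_lit 5) (.e (nat_lit 532515) (nat_lit 3) (.e (nat_lit 114718) (nat_lit 23) (.e (nat_lit 98333) (nat_lit 18) (.e (nat_lit 164399) (nat_lit 256) .nil))))))) (.g (nat_lit 4) .nil .nil))) 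
(.lf (nat_lit 144443) (.g (nat_lit 1878) (.e (nat_lit 57370) (nat_lit 2) (.e (nat_lit 90174) (nat_lit 14) (.e (nat_lit 180243) (nat_lit 5) (.e (nat_lit 532506) (nat_lit 2) (.e (nat_lit 106539) (nat_lit 12) (.e (nat_lit 57467) (nat_lit 23) (.e (nat_lit 516115) (nat_lit 1) (.e (nat_lit 164399) (nat_lit 256) .nil)))))))) (.g (nat_lit 4) .nil .nil)))))) 
(.nd (nat_lit 3) (.nd (nat_lit 4) (.nd (nat_lit 5) 
(.lf (nat_lit 144391) (.g (nat_lit 3386) (.e (nat_lit 57370) (nat_lit 2) (.e (nat_lit 90170) (nat_lit 13) (.e (nat_lit 172067) (nat_lit 3) (.e (nat_lit 204838) (nat_lit 20) (.e (nat_lit 114719) (nat_lit 23) (.e (nat_lit 98333) (nat_lit 18) (.e (nat_lit 164399) (nat_lit 256) .nil))))))) (.g (nat_lit 5) .nil .nil))) 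
(.lf (nat_lit 144423) (.g (nat_lit 2113) (.e (nat_lit 57370) (nat_lit 2) (.e (nat_lit 90172) (nat_lit 14) (.e (nat_lit 180244) (nat_lit 5) (.e (nat_lit 532508) (nat_lit 2) (.e (nat_lit 106540) (nat_lit 13) (.e (nat_lit 122936) (nat_lit 23) (.e (nat_lit 516115) (nat_lit 1) (.e (nat_lit 164399) (nat_lit 256) .nil)))))))) (.g (nat_lit 4) .nil .nil)))) (.nd (nat_lit 5) 
(.lf (nat_lit 144407) (.g (nat_lit 2457) (.e (nat_lit 57370) (nat_lit 2) (.e (nat_lit 90170) (nat_lit 13) (.e (nat_lit 172121) (nat_lit 13) (.e (nat_lit 483337) (nat_lit 9) (.e (nat_lit 426108) (nat_lit 1) (.e (nat_lit 164401) (nat_lit 256) .nil)))))) (.g (nat_lit 4) .nil .nil))) 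
(.lf (nat_lit 144439) (.g (nat_lit 2609) (.e (nat_lit 57370) (nat_lit 2) (.e (nat_lit 90172) (nat_lit 14) (.e (nat_lit 180244) (nat_lit 5) (.e (nat_lit 532515) (nat_lit 3) (.e (nat_lit 114719) (nat_lit 23) (.e (nat_lit 98332) (nat_lit 18) (.e (nat_lit 164399) (nat_lit 256) .nil))))))) (.g (nat_lit 6) .nil .nil))))) (.nd (nat_lit 4) (.nd (nat_lit 5) 
(.lf (nat_lit 144399) (.g (nat_lit 2236) (.e (nat_lit 57370) (nat_lit 2) (.e (nat_lit 90170) (nat_lit 13) (.e (nat_lit 172106) (nat_lit 10) (.e (nat_lit 434231) (nat_lit 23) .nil)))) .nil)) 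
(.lf (nat_lit 144431) (.g (nat_lit 3150) (.e (nat_lit 57370) (nat_lit 2) (.e (nat_lit 90172) (nat_lit 14) (.e (nat_lit 180244) (nat_lit 5) (.e (nat_lit 532513) (nat_lit 3) (.e (nat_lit 114718) (nat_lit 23) (.e (nat_lit 98334) (nat_lit 18) (.e (nat_lit 164403) (nat_lit 256) .nil))))))) (.g (nat_lit 5) .nil .nil)))) (.nd (nat_lit 5) 
(.lf (nat_lit 144415) (.g (nat_lit 1428) (.e (nat_lit 57370) (nat_lit 2) (.e (nat_lit 90172) (nat_lit 14) (.e (nat_lit 180244) (nat_lit 5) (.e (nat_lit 532506) (nat_lit 2) .nil)))) .nil)) 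
(.lf (nat_lit 144447) (.g (nat_lit 1999) (.e (nat_lit 57370) (nat_lit 2) (.e (nat_lit 90174) (nat_lit 14) (.e (nat_lit 180243) (nat_lit 5) (.e (nat_lit 532510) (nat_lit 2) (.e (nat_lit 106538) (nat_lit 12) (.e (nat_lit 57465) (nat_lit 23) (.e (nat_lit 516115) (nat_lit 1) (.e (nat_lit 164399) (nat_lit 256) .nil)))))))) (.g (nat_lit 4) .nil .nil)))))))))

noncomputable def tv1916 : DT := (.nd (nat_lit 0) (.nd (nat_lit 1) (.nd (nat_lit 2) (.nd (nat_lit 3) (.nd (nat_lit 4) (.nd (nat_lit 5) 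
(.lf (nat_lit 144448) (.g (nat_lit 1356) (.e (nat_lit 57370) (nat_lit 2) (.e (nat_lit 90174) (nat_lit 14) (.e (nat_lit 180243) (nat_lit 5) (.e (nat_lit 532511) (nat_lit 2) .nil)))) .nil)) 
(.lf (nat_lit 144480) (.g (nat_lit 416) (.e (nat_lit 57370) (nat_lit 2) (.e (nat_lit 90185) (nat_lit 17) (.e (nat_lit 237601) (nat_lit 9) .nil))) .nil))) (.nd (nat_lit 5) 
(.lf (nat_lit 144464) (.g (nat_lit 2909) (.e (nat_lit 57370) (nat_lit 2) (.e (nat_lit 90176) (nat_lit 15) (.e (nat_lit 188423) (nat_lit 11) (.e (nat_lit 336387) (nat_lit 27) (.e (nat_lit 426107) (nat_lit 1) (.e (nat_lit 164403) (nat_lit 256) .nil)))))) (.g (nat_lit 6) .nil .nil))) 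
(.lf (nat_lit 144496) (.g (nat_lit 912) (.e (nat_lit 57370) (nat_lit 2) (.e (nat_lit 90185) (nat_lit 17) (.e (nat_lit 237604) (nat_lit 9) .nil))) .nil)))) (.nd (nat_lit 4) (.nd (nat_lit 5) 
(.lf (nat_lit 144456) (.g (nat_lit 2969) (.e (nat_lit 57370) (nat_lit 2) (.e (nat_lit 90174) (nat_lit 14) (.e (nat_lit 180243) (nat_lit 5) (.e (nat_lit 532513) (nat_lit 3) (.e (nat_lit 114719) (nat_lit 23) (.e (nat_lit 98333) (nat_lit 18) (.e (nat_lit 164403) (nat_lit 256) .nil))))))) (.g (nat_lit 5) .nil .nil))) 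
(.lf (nat_lit 144488) (.g (nat_lit 2977) (.e (nat_lit 57370) (nat_lit 2) (.e (nat_lit 90185) (nat_lit 17) (.e (nat_lit 237601) (nat_lit 9) (.e (nat_lit 426566) (nat_lit 34) (.e (nat_lit 393252) (nat_lit 18) (.e (nat_lit 164403) (nat_lit 256) .nil)))))) (.g (nat_lit 0) .nil .nil)))) (.nd (nat_lit 5) 
(.lf (nat_lit 144472) (.g (nat_lit 2042) (.e (nat_lit 57370) (nat_lit 2) (.e (nat_lit 90185) (nat_lit 17) (.e (nat_lit 237592) (nat_lit 3) (.e (nat_lit 204838) (nat_lit 20) (.e (nat_lit 114719) (nat_lit 23) .nil))))) .nil)) 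
(.lf (nat_lit 144504) (.g (nat_lit 3151) (.e (nat_lit 57370) (nat_lit 2) (.e (nat_lit 90185) (nat_lit 17) (.e (nat_lit 237605) (nat_lit 9) (.e (nat_lit 426566) (nat_lit 34) (.e (nat_lit 393251) (nat_lit 18) (.e (nat_lit 164403) (nat_lit 256) .nil)))))) (.g (nat_lit 6) .nil .nil)))))) (.nd (nat_lit 3) (.nd (nat_lit 4) (.nd (nat_lit 5) 
(.lf (nat_lit 144452) (.g (nat_lit 2188) (.e (nat_lit 57370) (nat_lit 2) (.e (nat_lit 90174) (nat_lit 14) (.e (nat_lit 180243) (nat_lit 5) (.e (nat_lit 532513) (nat_lit 3) (.e (nat_lit 114703) (nat_lit 20) .nil))))) .nil)) 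
(.lf (nat_lit 144484) (.g (nat_lit 2792) (.e (nat_lit 57370) (nat_lit 2) (.e (nat_lit 90185) (nat_lit 17) (.e (nat_lit 237601) (nat_lit 9) (.e (nat_lit 426566) (nat_lit 34) (.e (nat_lit 393251) (nat_lit 18) (.e (nat_lit 164399) (nat_lit 256) .nil)))))) (.g (nat_lit 0) .nil .nil)))) (.nd (nat_lit 5) 
(.lf (nat_lit 144468) (.g (nat_lit 958) (.e (nat_lit 57370) (nat_lit 2) (.e (nat_lit 90185) (nat_lit 17) (.e (nat_lit 237592) (nat_lit 3) .nil))) .nil)) 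
(.lf (nat_lit 144500) (.g (nat_lit 402) (.e (nat_lit 57370) (nat_lit 2) (.e (nat_lit 90185) (nat_lit 17) (.e (nat_lit 237605) (nat_lit 9) .nil))) .nil)))) (.nd (nat_lit 4) (.nd (nat_lit 5) 
(.lf (nat_lit 144460) (.g (nat_lit 1885) (.e (nat_lit 57370) (nat_lit 2) (.e (nat_lit 90174) (nat_lit 14) (.e (nat_lit 180243) (nat_lit 5) (.e (nat_lit 532515) (nat_lit 3) (.e (nat_lit 114719) (nat_lit 23) (.e (nat_lit 98332) (nat_lit 18) (.e (nat_lit 164403) (nat_lit 256) .nil))))))) (.g (nat_lit 4) .nil .nil))) 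
(.lf (nat_lit 144492) (.g (nat_lit 2806) (.e (nat_lit 57370) (nat_lit 2) (.e (nat_lit 90185) (nat_lit 17) (.e (nat_lit 237601) (nat_lit 9) (.e (nat_lit 426568) (nat_lit 34) (.e (nat_lit 393253) (nat_lit 18) (.e (nat_lit 164403) (nat_lit 256) .nil)))))) (.g (nat_lit 0) .nil .nil)))) (.nd (nat_lit 5) 
(.lf (nat_lit 144476) (.g (nat_lit 2337) (.e (nat_lit 57370) (nat_lit 2) (.e (nat_lit 90185) (nat_lit 17) (.e (nat_lit 237594) (nat_lit 3) (.e (nat_lit 204838) (nat_lit 20) (.e (nat_lit 114718) (nat_lit 23) .nil))))) .nil)) 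
(.lf (nat_lit 144508) (.g (nat_lit 3146) (.e (nat_lit 57370) (nat_lit 2) (.e (nat_lit 90185) (nat_lit 17) (.e (nat_lit 237605) (nat_lit 9) (.e (nat_lit 426566) (nat_lit 34) (.e (nat_lit 393252) (nat_lit 18) (.e (nat_lit 164403) (nat_lit 256) .nil)))))) (.g (nat_lit 0) .nil .nil))))))) (.nd (nat_lit 2) (.nd (nat_lit 3) (.nd (nat_lit 4) (.nd (nat_lit 5) 
(.lf (nat_lit 144450) (.g (nat_lit 1919) (.e (nat_lit 57370) (nat_lit 2) (.e (nat_lit 90174) (nat_lit 14) (.e (nat_lit 180243) (nat_lit 5) (.e (nat_lit 532511) (nat_lit 2) (.e (nat_lit 106541) (nat_lit 13) (.e (nat_lit 122936) (nat_lit 23) (.e (nat_lit 516117) (nat_lit 1) (.e (nat_lit 164399) (nat_lit 256) .nil)))))))) (.g (nat_lit 4) .nil .nil))) 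
(.lf (nat_lit 144482) (.g (nat_lit 1586) (.e (nat_lit 57370) (nat_lit 2) (.e (nat_lit 90185) (nat_lit 17) (.e (nat_lit 237601) (nat_lit 9) (.e (nat_lit 426566) (nat_lit 34) (.e (nat_lit 393250) (nat_lit 18) (.e (nat_lit 164399) (nat_lit 256) .nil)))))) (.g (nat_lit 4) .nil .nil)))) (.nd (nat_lit 5) 
(.lf (nat_lit 144466) (.g (nat_lit 3082) (.e (nat_lit 57370) (nat_lit 2) (.e (nat_lit 90176) (nat_lit 15) (.e (nat_lit 188423) (nat_lit 11) (.e (nat_lit 336387) (nat_lit 27) (.e (nat_lit 426108) (nat_lit 1) (.e (nat_lit 164403) (nat_lit 256) .nil)))))) (.g (nat_lit 6) .nil .nil))) 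
(.lf (nat_lit 144498) (.g (nat_lit 1915) (.e (nat_lit 57370) (nat_lit 2) (.e (nat_lit 90185) (nat_lit 17) (.e (nat_lit 237604) (nat_lit 9) (.e (nat_lit 426568) (nat_lit 34) (.e (nat_lit 393252) (nat_lit 18) .nil))))) .nil)))) (.nd (nat_lit 4) (.nd (nat_lit 5) 
(.lf (nat_lit 144458) (.g (nat_lit 3408) (.e (nat_lit 57370) (nat_lit 2) (.e (nat_lit 90174) (nat_lit 14) (.e (nat_lit 180243) (nat_lit 5) (.e (nat_lit 532513) (nat_lit 3) (.e (nat_lit 114719) (nat_lit 23) (.e (nat_lit 98335) (nat_lit 18) (.e (nat_lit 164403) (nat_lit 256) .nil))))))) (.g (nat_lit 5) .nil .nil))) 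
(.lf (nat_lit 144490) (.g (nat_lit 2782) (.e (nat_lit 57370) (nat_lit 2) (.e (nat_lit 90185) (nat_lit 17) (.e (nat_lit 237601) (nat_lit 9) (.e (nat_lit 426566) (nat_lit 34) (.e (nat_lit 393254) (nat_lit 18) (.e (nat_lit 164403) (nat_lit 256) .nil)))))) (.g (nat_lit 0) .nil .nil)))) (.nd (nat_lit 5) 
(.lf (nat_lit 144474) (.g (nat_lit 1038) (.e (nat_lit 57370) (nat_lit 2) (.e (nat_lit 90185) (nat_lit 17) (.e (nat_lit 237594) (nat_lit 3) .nil))) .nil)) 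
(.lf (nat_lit 144506) (.g (nat_lit 2755) (.e (nat_lit 57370) (nat_lit 2) (.e (nat_lit 90185) (nat_lit 17) (.e (nat_lit 237605) (nat_lit 9) (.e (nat_lit 426566) (nat_lit 34) (.e (nat_lit 393252) (nat_lit 18) (.e (nat_lit 164399) (nat_lit 256) .nil)))))) (.g (nat_lit 0) .nil .nil)))))) (.nd (nat_lit 3) (.nd (nat_lit 4) (.nd (nat_lit 5) 
(.lf (nat_lit 144454) (.g (nat_lit 3734) (.e (nat_lit 57370) (nat_lit 2) (.e (nat_lit 90174) (nat_lit 14) (.e (nat_lit 180243) (nat_lit 5) (.e (nat_lit 532513) (nat_lit 3) (.e (nat_lit 114718) (nat_lit 23) (.e (nat_lit 98335) (nat_lit 18) (.e (nat_lit 164403) (nat_lit 256) .nil))))))) (.g (nat_lit 6) .nil .nil))) 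
(.lf (nat_lit 144486) (.g (nat_lit 2680) (.e (nat_lit 57370) (nat_lit 2) (.e (nat_lit 90185) (nat_lit 17) (.e (nat_lit 237601) (nat_lit 9) (.e (nat_lit 426566) (nat_lit 34) (.e (nat_lit 393252) (nat_lit 18) (.e (nat_lit 164398) (nat_lit 256) .nil)))))) (.g (nat_lit 6) .nil .nil)))) (.nd (nat_lit 5) 
(.lf (nat_lit 144470) (.g (nat_lit 1986) (.e (nat_lit 57370) (nat_lit 2) (.e (nat_lit 90185) (nat_lit 17) (.e (nat_lit 237592) (nat_lit 3) (.e (nat_lit 204837) (nat_lit 20) (.e (nat_lit 114718) (nat_lit 23) .nil))))) .nil)) 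
(.lf (nat_lit 144502) (.g (nat_lit 1405) (.e (nat_lit 57370) (nat_lit 2) (.e (nat_lit 90185) (nat_lit 17) (.e (nat_lit 237605) (nat_lit 9) (.e (nat_lit 426566) (nat_lit 34) (.e (nat_lit 393250) (nat_lit 18) .nil))))) .nil)))) (.nd (nat_lit 4) (.nd (nat_lit 5) 
(.lf (nat_lit 144462) (.g (nat_lit 2503) (.e (nat_lit 57370) (nat_lit 2) (.e (nat_lit 90176) (nat_lit 15) (.e (nat_lit 188423) (nat_lit 11) (.e (nat_lit 336387) (nat_lit 27) (.e (nat_lit 426098) (nat_lit 1) (.e (nat_lit 164399) (nat_lit 256) .nil)))))) (.g (nat_lit 6) .nil .nil))) 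
(.lf (nat_lit 144494) (.g (nat_lit 905) (.e (nat_lit 57370) (nat_lit 2) (.e (nat_lit 90185) (nat_lit 17) (.e (nat_lit 237603) (nat_lit 9) .nil))) .nil))) (.nd (nat_lit 5) 
(.lf (nat_lit 144478) (.g (nat_lit 2294) (.e (nat_lit 57370) (nat_lit 2) (.e (nat_lit 90185) (nat_lit 17) (.e (nat_lit 237594) (nat_lit 3) (.e (nat_lit 204838) (nat_lit 20) (.e (nat_lit 114719) (nat_lit 23) .nil))))) .nil)) 
(.lf (nat_lit 144510) (.g (nat_lit 2917) (.e (nat_lit 57370) (nat_lit 2) (.e (nat_lit 90185) (nat_lit 17) (.e (nat_lit 237605) (nat_lit 9) (.e (nat_lit 426566) (nat_lit 34) (.e (nat_lit 393254) (nat_lit 18) (.e (nat_lit 164403) (nat_lit 256) .nil)))))) (.g (nat_lit 0) .nil .nil)))))))) (.nd (nat_lit 1) (.nd (nat_lit 2) (.nd (nat_lit 3) (.nd (nat_lit 4) (.nd (nat_lit 5) 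
(.lf (nat_lit 144449) (.g (nat_lit 1955) (.e (nat_lit 57370) (nat_lit 2) (.e (nat_lit 90174) (nat_lit 14) (.e (nat_lit 180243) (nat_lit 5) (.e (nat_lit 532511) (nat_lit 2) (.e (nat_lit 106541) (nat_lit 13) (.e (nat_lit 122936) (nat_lit 23) (.e (nat_lit 516115) (nat_lit 1) (.e (nat_lit 164399) (nat_lit 256) .nil)))))))) (.g (nat_lit 4) .nil .nil))) 
(.lf (nat_lit 144481) (.g (nat_lit 1272) (.e (nat_lit 57370) (nat_lit 2) (.e (nat_lit 90185) (nat_lit 17) (.e (nat_lit 237601) (nat_lit 9) (.e (nat_lit 426566) (nat_lit 34) (.e (nat_lit 393250) (nat_lit 18) .nil))))) .nil))) (.nd (nat_lit 5) 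
(.lf (nat_lit 144465) (.g (nat_lit 1462) (.e (nat_lit 57370) (nat_lit 2) (.e (nat_lit 90176) (nat_lit 15) (.e (nat_lit 188423) (nat_lit 11) (.e (nat_lit 336387) (nat_lit 27) (.e (nat_lit 426108) (nat_lit 1) (.e (nat_lit 164401) (nat_lit 256) .nil)))))) (.g (nat_lit 4) .nil .nil))) 
(.lf (nat_lit 144497) (.g (nat_lit 2018) (.e (nat_lit 57370) (nat_lit 2) (.e (nat_lit 90185) (nat_lit 17) (.e (nat_lit 237604) (nat_lit 9) (.e (nat_lit 426568) (nat_lit 34) (.e (nat_lit 393251) (nat_lit 18) (.e (nat_lit 164399) (nat_lit 256) .nil)))))) (.g (nat_lit 4) .nil .nil))))) (.nd (nat_lit 4) (.nd (nat_lit 5) 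
(.lf (nat_lit 144457) (.g (nat_lit 2354) (.e (nat_lit 57370) (nat_lit 2) (.e (nat_lit 90174) (nat_lit 14) (.e (nat_lit 180243) (nat_lit 5) (.e (nat_lit 532513) (nat_lit 3) (.e (nat_lit 114719) (nat_lit 23) (.e (nat_lit 98334) (nat_lit 18) (.e (nat_lit 164403) (nat_lit 256) .nil))))))) (.g (nat_lit 4) .nil .nil))) 
(.lf (nat_lit 144489) (.g (nat_lit 3168) (.e (nat_lit 57370) (nat_lit 2) (.e (nat_lit 90185) (nat_lit 17) (.e (nat_lit 237601) (nat_lit 9) (.e (nat_lit 426566) (nat_lit 34) (.e (nat_lit 393253) (nat_lit 18) (.e (nat_lit 164403) (nat_lit 256) .nil)))))) (.g (nat_lit 0) .nil .nil)))) (.nd (nat_lit 5) 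
(.lf (nat_lit 144473) (.g (nat_lit 2140) (.e (nat_lit 57370) (nat_lit 2) (.e (nat_lit 90185) (nat_lit 17) (.e (nat_lit 237592) (nat_lit 3) (.e (nat_lit 204838) (nat_lit 20) (.e (nat_lit 114719) (nat_lit 23) (.e (nat_lit 98333) (nat_lit 18) (.e (nat_lit 164399) (nat_lit 256) .nil))))))) (.g (nat_lit 4) .nil .nil))) 
(.lf (nat_lit 144505) (.g (nat_lit 2769) (.e (nat_lit 57370) (nat_lit 2) (.e (nat_lit 90185) (nat_lit 17) (.e (nat_lit 237605) (nat_lit 9) (.e (nat_lit 426566) (nat_lit 34) (.e (nat_lit 393252) (nat_lit 18) (.e (nat_lit 164398) (nat_lit 256) .nil)))))) (.g (nat_lit 6) .nil .nil)))))) (.nd (nat_lit 3) (.nd (nat_lit 4) (.nd (nat_lit 5) 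
(.lf (nat_lit 144453) (.g (nat_lit 3204) (.e (nat_lit 57370) (nat_lit 2) (.e (nat_lit 90174) (nat_lit 14) (.e (nat_lit 180243) (nat_lit 5) (.e (nat_lit 532513) (nat_lit 3) (.e (nat_lit 114718) (nat_lit 23) (.e (nat_lit 98333) (nat_lit 18) (.e (nat_lit 164403) (nat_lit 256) .nil))))))) (.g (nat_lit 5) .nil .nil))) 
(.lf (nat_lit 144485) (.g (nat_lit 2992) (.e (nat_lit 57370) (nat_lit 2) (.e (nat_lit 90185) (nat_lit 17) (.e (nat_lit 237601) (nat_lit 9) (.e (nat_lit 426566) (nat_lit 34) (.e (nat_lit 393251) (nat_lit 18) (.e (nat_lit 164403) (nat_lit 256) .nil)))))) (.g (nat_lit 6) .nil .nil)))) (.nd (nat_lit 5) 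
(.lf (nat_lit 144469) (.g (nat_lit 1887) (.e (nat_lit 57370) (nat_lit 2) (.e (nat_lit 90185) (nat_lit 17) (.e (nat_lit 237592) (nat_lit 3) (.e (nat_lit 204837) (nat_lit 20) (.e (nat_lit 114708) (nat_lit 20) .nil))))) .nil)) 
(.lf (nat_lit 144501) (.g (nat_lit 1033) (.e (nat_lit 57370) (nat_lit 2) (.e (nat_lit 90185) (nat_lit 17) (.e (nat_lit 237605) (nat_lit 9) (.e (nat_lit 426564) (nat_lit 34) .nil)))) .nil)))) (.nd (nat_lit 4) (.nd (nat_lit 5) 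
(.lf (nat_lit 144461) (.g (nat_lit 936) (.e (nat_lit 57370) (nat_lit 2) (.e (nat_lit 90176) (nat_lit 15) (.e (nat_lit 188423) (nat_lit 11) (.e (nat_lit 336387) (nat_lit 27) .nil)))) .nil)) 
(.lf (nat_lit 144493) (.g (nat_lit 1069) (.e (nat_lit 57370) (nat_lit 2) (.e (nat_lit 90185) (nat_lit 17) (.e (nat_lit 237602) (nat_lit 9) .nil))) .nil))) (.nd (nat_lit 5) 
(.lf (nat_lit 144477) (.g (nat_lit 2346) (.e (nat_lit 57370) (nat_lit 2) (.e (nat_lit 90185) (nat_lit 17) (.e (nat_lit 237594) (nat_lit 3) (.e (nat_lit 204838) (nat_lit 20) (.e (nat_lit 114718) (nat_lit 23) (.e (nat_lit 98333) (nat_lit 18) (.e (nat_lit 164399) (nat_lit 256) .nil))))))) (.g (nat_lit 4) .nil .nil))) 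
(.lf (nat_lit 144509) (.g (nat_lit 3346) (.e (nat_lit 57370) (nat_lit 2) (.e (nat_lit 90185) (nat_lit 17) (.e (nat_lit 237605) (nat_lit 9) (.e (nat_lit 426566) (nat_lit 34) (.e (nat_lit 393253) (nat_lit 18) (.e (nat_lit 164403) (nat_lit 256) .nil)))))) (.g (nat_lit 0) .nil .nil))))))) (.nd (nat_lit 2) (.nd (nat_lit 3) (.nd (nat_lit 4) (.nd (nat_lit 5) 
(.lf (nat_lit 144451) (.g (nat_lit 2029) (.e (nat_lit 57370) (nat_lit 2) (.e (nat_lit 90174) (nat_lit 14) (.e (nat_lit 180243) (nat_lit 5) (.e (nat_lit 532511) (nat_lit 2) (.e (nat_lit 106542) (nat_lit 13) (.e (nat_lit 122937) (nat_lit 23) (.e (nat_lit 516115) (nat_lit 1) (.e (nat_lit 164399) (nat_lit 256) .nil)))))))) (.g (nat_lit 4) .nil .nil))) 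
(.lf (nat_lit 144483) (.g (nat_lit 3329) (.e (nat_lit 57370) (nat_lit 2) (.e (nat_lit 90185) (nat_lit 17) (.e (nat_lit 237601) (nat_lit 9) (.e (nat_lit 426566) (nat_lit 34) (.e (nat_lit 393251) (nat_lit 18) (.e (nat_lit 164398) (nat_lit 256) .nil)))))) (.g (nat_lit 0) .nil .nil)))) (.nd (nat_lit 5) 
(.lf (nat_lit 144467) (.g (nat_lit 728) (.e (nat_lit 57370) (nat_lit 2) (.e (nat_lit 90176) (nat_lit 15) (.e (nat_lit 188431) (nat_lit 20) .nil))) .nil)) 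
(.lf (nat_lit 144499) (.g (nat_lit 2287) (.e (nat_lit 57370) (nat_lit 2) (.e (nat_lit 90185) (nat_lit 17) (.e (nat_lit 237604) (nat_lit 9) (.e (nat_lit 426568) (nat_lit 34) (.e (nat_lit 393253) (nat_lit 18) (.e (nat_lit 164403) (nat_lit 256) .nil)))))) (.g (nat_lit 4) .nil .nil))))) (.nd (nat_lit 4) (.nd (nat_lit 5) 
(.lf (nat_lit 144459) (.g (nat_lit 3227) (.e (nat_lit 57370) (nat_lit 2) (.e (nat_lit 90174) (nat_lit 14) (.e (nat_lit 180243) (nat_lit 5) (.e (nat_lit 532515) (nat_lit 3) (.e (nat_lit 114718) (nat_lit 23) (.e (nat_lit 98333) (nat_lit 18) (.e (nat_lit 164399) (nat_lit 256) .nil))))))) (.g (nat_lit 6) .nil .nil))) 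
(.lf (nat_lit 144491) (.g (nat_lit 1670) (.e (nat_lit 57370) (nat_lit 2) (.e (nat_lit 90185) (nat_lit 17) (.e (nat_lit 237601) (nat_lit 9) (.e (nat_lit 426568) (nat_lit 34) (.e (nat_lit 393252) (nat_lit 18) (.e (nat_lit 164401) (nat_lit 256) .nil)))))) (.g (nat_lit 4) .nil .nil)))) (.nd (nat_lit 5) 
(.lf (nat_lit 144475) (.g (nat_lit 2238) (.e (nat_lit 57370) (nat_lit 2) (.e (nat_lit 90185) (nat_lit 17) (.e (nat_lit 237594) (nat_lit 3) (.e (nat_lit 204837) (nat_lit 20) (.e (nat_lit 114718) (nat_lit 23) .nil))))) .nil)) 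
(.lf (nat_lit 144507) (.g (nat_lit 2350) (.e (nat_lit 57370) (nat_lit 2) (.e (nat_lit 90185) (nat_lit 17) (.e (nat_lit 237605) (nat_lit 9) (.e (nat_lit 426566) (nat_lit 34) (.e (nat_lit 393252) (nat_lit 18) (.e (nat_lit 164401) (nat_lit 256) .nil)))))) (.g (nat_lit 6) .nil .nil)))))) (.nd (nat_lit 3) (.nd (nat_lit 4) (.nd (nat_lit 5) 
(.lf (nat_lit 144455) (.g (nat_lit 2075) (.e (nat_lit 57370) (nat_lit 2) (.e (nat_lit 90174) (nat_lit 14) (.e (nat_lit 180243) (nat_lit 5) (.e (nat_lit 532513) (nat_lit 3) (.e (nat_lit 114719) (nat_lit 23) .nil))))) .nil)) 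
(.lf (nat_lit 144487) (.g (nat_lit 2584) (.e (nat_lit 57370) (nat_lit 2) (.e (nat_lit 90185) (nat_lit 17) (.e (nat_lit 237601) (nat_lit 9) (.e (nat_lit 426566) (nat_lit 34) (.e (nat_lit 393252) (nat_lit 18) (.e (nat_lit 164399) (nat_lit 256) .nil)))))) (.g (nat_lit 0) .nil .nil)))) (.nd (nat_lit 5) 
(.lf (nat_lit 144471) (.g (nat_lit 2084) (.e (nat_lit 57370) (nat_lit 2) (.e (nat_lit 90185) (nat_lit 17) (.e (nat_lit 237592) (nat_lit 3) (.e (nat_lit 204838) (nat_lit 20) (.e (nat_lit 114718) (nat_lit 23) .nil))))) .nil)) 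
(.lf (nat_lit 144503) (.g (nat_lit 2957) (.e (nat_lit 57370) (nat_lit 2) (.e (nat_lit 90185) (nat_lit 17) (.e (nat_lit 237605) (nat_lit 9) (.e (nat_lit 426566) (nat_lit 34) (.e (nat_lit 393251) (nat_lit 18) (.e (nat_lit 164399) (nat_lit 256) .nil)))))) (.g (nat_lit 0) .nil .nil))))) (.nd (nat_lit 4) (.nd (nat_lit 5) 
(.lf (nat_lit 144463) (.g (nat_lit 2502) (.e (nat_lit 57370) (nat_lit 2) (.e (nat_lit 90176) (nat_lit 15) (.e (nat_lit 188423) (nat_lit 11) (.e (nat_lit 336387) (nat_lit 27) (.e (nat_lit 426100) (nat_lit 1) (.e (nat_lit 164399) (nat_lit 256) .nil)))))) (.g (nat_lit 6) .nil .nil))) 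
(.lf (nat_lit 144495) (.g (nat_lit 2097) (.e (nat_lit 57370) (nat_lit 2) (.e (nat_lit 90185) (nat_lit 17) (.e (nat_lit 237603) (nat_lit 9) (.e (nat_lit 426568) (nat_lit 34) (.e (nat_lit 393253) (nat_lit 18) (.e (nat_lit 164403) (nat_lit 256) .nil)))))) (.g (nat_lit 4) .nil .nil)))) (.nd (nat_lit 5) 
(.lf (nat_lit 144479) (.g (nat_lit 2332) (.e (nat_lit 57370) (nat_lit 2) (.e (nat_lit 90185) (nat_lit 17) (.e (nat_lit 237594) (nat_lit 3) (.e (nat_lit 204838) (nat_lit 20) (.e (nat_lit 114719) (nat_lit 23) (.e (nat_lit 98333) (nat_lit 18) (.e (nat_lit 164399) (nat_lit 256) .nil))))))) (.g (nat_lit 4) .nil .nil))) 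
(.lf (nat_lit 144511) (.g (nat_lit 1731) (.e (nat_lit 57370) (nat_lit 2) (.e (nat_lit 90185) (nat_lit 17) (.e (nat_lit 237605) (nat_lit 9) (.e (nat_lit 426568) (nat_lit 34) (.e (nat_lit 393252) (nat_lit 18) (.e (nat_lit 164401) (nat_lit 256) .nil)))))) (.g (nat_lit 4) .nil .nil)))))))))

noncomputable def tv1917 : DT := (.nd (nat_lit 0) (.nd (nat_lit 1) (.nd (nat_lit 2) (.nd (nat_lit 3) (.nd (nat_lit 4) (.nd (nat_lit 5) 
(.lf (nat_lit 144512) (.g (nat_lit 2947) (.e (nat_lit 57370) (nat_lit 2) (.e (nat_lit 90185) (nat_lit 17) (.e (nat_lit 237605) (nat_lit 9) (.e (nat_lit 426568) (nat_lit 34) (.e (nat_lit 393253) (nat_lit 18) (.e (nat_lit 164403) (nat_lit 256) .nil)))))) (.g (nat_lit 0) .nil .nil))) 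
(.lf (nat_lit 144544) (.g (nat_lit 656) (.e (nat_lit 57371) (nat_lit 2) (.e (nat_lit 90128) (nat_lit 9) (.e (nat_lit 246) (nat_lit 21) .nil))) .nil))) (.nd (nat_lit 5) 
(.lf (nat_lit 144528) (.g (nat_lit 617) (.e (nat_lit 57370) (nat_lit 2) (.e (nat_lit 90185) (nat_lit 17) (.e (nat_lit 237623) (nat_lit 13) .nil))) .nil)) 
(.lf (nat_lit 144560) (.g (nat_lit 4524) (.e (nat_lit 57371) (nat_lit 2) (.e (nat_lit 90128) (nat_lit 9) (.e (nat_lit 297) (nat_lit 22) (.e (nat_lit 344133) (nat_lit 26) (.e (nat_lit 557098) (nat_lit 13) (.e (nat_lit 172062) (nat_lit 2) (.e (nat_lit 196661) (nat_lit 12) (.e (nat_lit 57353) (nat_lit 0) (.e (nat_lit 7261) (nat_lit 384) .nil))))))))) (.g (nat_lit 7) .nil .nil))))) 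
(.nd (nat_lit 4) (.nd (nat_lit 5) 
(.lf (nat_lit 144520) (.g (nat_lit 3302) (.e (nat_lit 57370) (nat_lit 2) (.e (nat_lit 90185) (nat_lit 17) (.e (nat_lit 237621) (nat_lit 13) (.e (nat_lit 483337) (nat_lit 9) (.e (nat_lit 426107) (nat_lit 1) (.e (nat_lit 164403) (nat_lit 256) .nil)))))) (.g (nat_lit 0) .nil .nil))) 
(.lf (nat_lit 144552) (.g (nat_lit 4626) (.e (nat_lit 57371) (nat_lit 2) (.e (nat_lit 90128) (nat_lit 9) (.e (nat_lit 297) (nat_lit 22) (.e (nat_lit 344132) (nat_lit 26) (.e (nat_lit 557100) (nat_lit 13) (.e (nat_lit 172064) (nat_lit 2) (.e (nat_lit 196661) (nat_lit 12) (.e (nat_lit 57353) (nat_lit 0) (.e (nat_lit 7261) (nat_lit 384) .nil))))))))) (.g (nat_lit 7) .nil .nil)))) (.nd (nat_lit 5) 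
(.lf (nat_lit 144536) (.g (nat_lit 2533) (.e (nat_lit 57370) (nat_lit 2) (.e (nat_lit 90185) (nat_lit 17) (.e (nat_lit 237624) (nat_lit 13) (.e (nat_lit 483341) (nat_lit 9) (.e (nat_lit 426098) (nat_lit 1) (.e (nat_lit 164399) (nat_lit 256) .nil)))))) (.g (nat_lit 0) .nil .nil))) 
(.lf (nat_lit 144568) (.g (nat_lit 3826) (.e (nat_lit 57371) (nat_lit 2) (.e (nat_lit 90128) (nat_lit 9) (.e (nat_lit 307) (nat_lit 22) (.e (nat_lit 344129) (nat_lit 26) (.e (nat_lit 557097) (nat_lit 13) (.e (nat_lit 172064) (nat_lit 2) (.e (nat_lit 196661) (nat_lit 12) (.e (nat_lit 57353) (nat_lit 0) (.e (nat_lit 7261) (nat_lit 384) .nil))))))))) (.g (nat_lit 5) .nil .nil)))))) 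
(.nd (nat_lit 3) (.nd (nat_lit 4) (.nd (nat_lit 5) 
(.lf (nat_lit 144516) (.g (nat_lit 2715) (.e (nat_lit 57370) (nat_lit 2) (.e (nat_lit 90185) (nat_lit 17) (.e (nat_lit 237621) (nat_lit 13) (.e (nat_lit 483337) (nat_lit 9) (.e (nat_lit 426098) (nat_lit 1) (.e (nat_lit 164399) (nat_lit 256) .nil)))))) (.g (nat_lit 0) .nil .nil))) 
(.lf (nat_lit 144548) (.g (nat_lit 3928) (.e (nat_lit 57371) (nat_lit 2) (.e (nat_lit 90128) (nat_lit 9) (.e (nat_lit 297) (nat_lit 22) (.e (nat_lit 344131) (nat_lit 26) (.e (nat_lit 557098) (nat_lit 13) (.e (nat_lit 172064) (nat_lit 2) (.e (nat_lit 196661) (nat_lit 12) (.e (nat_lit 57353) (nat_lit 0) (.e (nat_lit 7265) (nat_lit 384) .nil))))))))) (.g (nat_lit 6) .nil .nil)))) (.nd (nat_lit 5) 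
(.lf (nat_lit 144532) (.g (nat_lit 1768) (.e (nat_lit 57370) (nat_lit 2) (.e (nat_lit 90185) (nat_lit 17) (.e (nat_lit 237624) (nat_lit 13) (.e (nat_lit 483337) (nat_lit 9) (.e (nat_lit 426099) (nat_lit 1) (.e (nat_lit 164399) (nat_lit 256) .nil)))))) (.g (nat_lit 5) .nil .nil))) 
(.lf (nat_lit 144564) (.g (nat_lit 3769) (.e (nat_lit 57371) (nat_lit 2) (.e (nat_lit 90128) (nat_lit 9) (.e (nat_lit 297) (nat_lit 22) (.e (nat_lit 344133) (nat_lit 26) (.e (nat_lit 557098) (nat_lit 13) (.e (nat_lit 172066) (nat_lit 3) (.e (nat_lit 204822) (nat_lit 17) (.e (nat_lit 1014) (nat_lit 81) (.e (nat_lit 7261) (nat_lit 384) .nil))))))))) (.g (nat_lit 5) .nil .nil))))) 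
(.nd (nat_lit 4) (.nd (nat_lit 5) 
(.lf (nat_lit 144524) (.g (nat_lit 2975) (.e (nat_lit 57370) (nat_lit 2) (.e (nat_lit 90185) (nat_lit 17) (.e (nat_lit 237621) (nat_lit 13) (.e (nat_lit 483341) (nat_lit 9) (.e (nat_lit 426107) (nat_lit 1) (.e (nat_lit 164403) (nat_lit 256) .nil)))))) (.g (nat_lit 0) .nil .nil))) 
(.lf (nat_lit 144556) (.g (nat_lit 3101) (.e (nat_lit 57371) (nat_lit 2) (.e (nat_lit 90128) (nat_lit 9) (.e (nat_lit 297) (nat_lit 22) (.e (nat_lit 344132) (nat_lit 26) (.e (nat_lit 557101) (nat_lit 13) (.e (nat_lit 172064) (nat_lit 2) (.e (nat_lit 196661) (nat_lit 12) (.e (nat_lit 57352) (nat_lit 0) (.e (nat_lit 7261) (nat_lit 384) .nil))))))))) (.g (nat_lit 5) .nil .nil)))) (.nd (nat_lit 5) 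
(.lf (nat_lit 144540) (.g (nat_lit 840) (.e (nat_lit 57370) (nat_lit 2) (.e (nat_lit 90185) (nat_lit 17) (.e (nat_lit 237624) (nat_lit 13) (.e (nat_lit 491264) (nat_lit 10) .nil)))) .nil)) 
(.lf (nat_lit 144572) (.g (nat_lit 457) (.e (nat_lit 57371) (nat_lit 2) (.e (nat_lit 90134) (nat_lit 9) (.e (nat_lit 290) (nat_lit 21) .nil))) .nil)))))) (.nd (nat_lit 2) (.nd (nat_lit 3) (.nd (nat_lit 4) (.nd (nat_lit 5) 
(.lf (nat_lit 144514) (.g (nat_lit 2731) (.e (nat_lit 57370) (nat_lit 2) (.e (nat_lit 90185) (nat_lit 17) (.e (nat_lit 237620) (nat_lit 13) (.e (nat_lit 483341) (nat_lit 9) (.e (nat_lit 426108) (nat_lit 1) (.e (nat_lit 164403) (nat_lit 256) .nil)))))) (.g (nat_lit 5) .nil .nil))) 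
(.lf (nat_lit 144546) (.g (nat_lit 870) (.e (nat_lit 57371) (nat_lit 2) (.e (nat_lit 90128) (nat_lit 9) (.e (nat_lit 293) (nat_lit 21) (.e (nat_lit 336119) (nat_lit 9) .nil)))) .nil))) (.nd (nat_lit 5) 
(.lf (nat_lit 144530) (.g (nat_lit 2813) (.e (nat_lit 57370) (nat_lit 2) (.e (nat_lit 90185) (nat_lit 17) (.e (nat_lit 237623) (nat_lit 13) (.e (nat_lit 483341) (nat_lit 9) (.e (nat_lit 426100) (nat_lit 1) (.e (nat_lit 164399) (nat_lit 256) .nil)))))) (.g (nat_lit 6) .nil .nil))) 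
(.lf (nat_lit 144562) (.g (nat_lit 3226) (.e (nat_lit 57371) (nat_lit 2) (.e (nat_lit 90128) (nat_lit 9) (.e (nat_lit 297) (nat_lit 22) (.e (nat_lit 344133) (nat_lit 26) (.e (nat_lit 557098) (nat_lit 13) (.e (nat_lit 172063) (nat_lit 2) (.e (nat_lit 196661) (nat_lit 12) (.e (nat_lit 57353) (nat_lit 0) (.e (nat_lit 7261) (nat_lit 384) .nil))))))))) (.g (nat_lit 5) .nil .nil))))) 
(.nd (nat_lit 4) (.nd (nat_lit 5) 
(.lf (nat_lit 144522) (.g (nat_lit 2527) (.e (nat_lit 57370) (nat_lit 2) (.e (nat_lit 90185) (nat_lit 17) (.e (nat_lit 237621) (nat_lit 13) (.e (nat_lit 483341) (nat_lit 9) (.e (nat_lit 426098) (nat_lit 1) (.e (nat_lit 164399) (nat_lit 256) .nil)))))) (.g (nat_lit 0) .nil .nil))) 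
(.lf (nat_lit 144554) (.g (nat_lit 2733) (.e (nat_lit 57371) (nat_lit 2) (.e (nat_lit 90128) (nat_lit 9) (.e (nat_lit 297) (nat_lit 22) (.e (nat_lit 344132) (nat_lit 26) (.e (nat_lit 557101) (nat_lit 13) (.e (nat_lit 172062) (nat_lit 2) (.e (nat_lit 196661) (nat_lit 12) (.e (nat_lit 57353) (nat_lit 0) (.e (nat_lit 7265) (nat_lit 384) .nil))))))))) (.g (nat_lit 4) .nil .nil)))) (.nd (nat_lit 5) 
(.lf (nat_lit 144538) (.g (nat_lit 2983) (.e (nat_lit 57370) (nat_lit 2) (.e (nat_lit 90185) (nat_lit 17) (.e (nat_lit 237624) (nat_lit 13) (.e (nat_lit 483341) (nat_lit 9) (.e (nat_lit 426107) (nat_lit 1) (.e (nat_lit 164403) (nat_lit 256) .nil)))))) (.g (nat_lit 0) .nil .nil))) 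
(.lf (nat_lit 144570) (.g (nat_lit 3990) (.e (nat_lit 57371) (nat_lit 2) (.e (nat_lit 90128) (nat_lit 9) (.e (nat_lit 7936) (nat_lit 22) (.e (nat_lit 344133) (nat_lit 26) (.e (nat_lit 557098) (nat_lit 13) (.e (nat_lit 172064) (nat_lit 2) (.e (nat_lit 196661) (nat_lit 12) (.e (nat_lit 57353) (nat_lit 0) (.e (nat_lit 7261) (nat_lit 384) .nil))))))))) (.g (nat_lit 7) .nil .nil)))))) 
(.nd (nat_lit 3) (.nd (nat_lit 4) (.nd (nat_lit 5) 
(.lf (nat_lit 144518) (.g (nat_lit 2807) (.e (nat_lit 57370) (nat_lit 2) (.e (nat_lit 90185) (nat_lit 17) (.e (nat_lit 237621) (nat_lit 13) (.e (nat_lit 483337) (nat_lit 9) (.e (nat_lit 426100) (nat_lit 1) (.e (nat_lit 164398) (nat_lit 256) .nil)))))) (.g (nat_lit 6) .nil .nil))) 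
(.lf (nat_lit 144550) (.g (nat_lit 3236) (.e (nat_lit 57371) (nat_lit 2) (.e (nat_lit 90128) (nat_lit 9) (.e (nat_lit 297) (nat_lit 22) (.e (nat_lit 344131) (nat_lit 26) (.e (nat_lit 557100) (nat_lit 13) (.e (nat_lit 172064) (nat_lit 2) (.e (nat_lit 196661) (nat_lit 12) (.e (nat_lit 57353) (nat_lit 0) (.e (nat_lit 7261) (nat_lit 384) .nil))))))))) (.g (nat_lit 5) .nil .nil)))) (.nd (nat_lit 5) 
(.lf (nat_lit 144534) (.g (nat_lit 3262) (.e (nat_lit 57370) (nat_lit 2) (.e (nat_lit 90185) (nat_lit 17) (.e (nat_lit 237624) (nat_lit 13) (.e (nat_lit 483337) (nat_lit 9) (.e (nat_lit 426107) (nat_lit 1) (.e (nat_lit 164403) (nat_lit 256) .nil)))))) (.g (nat_lit 0) .nil .nil))) 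
(.lf (nat_lit 144566) (.g (nat_lit 3278) (.e (nat_lit 57371) (nat_lit 2) (.e (nat_lit 90128) (nat_lit 9) (.e (nat_lit 297) (nat_lit 22) (.e (nat_lit 344133) (nat_lit 26) (.e (nat_lit 557098) (nat_lit 13) (.e (nat_lit 172066) (nat_lit 3) (.e (nat_lit 204824) (nat_lit 17) (.e (nat_lit 1015) (nat_lit 81) (.e (nat_lit 7261) (nat_lit 384) .nil))))))))) (.g (nat_lit 5) .nil .nil))))) 
(.nd (nat_lit 4) (.nd (nat_lit 5) 
(.lf (nat_lit 144526) (.g (nat_lit 1855) (.e (nat_lit 57370) (nat_lit 2) (.e (nat_lit 90185) (nat_lit 17) (.e (nat_lit 237622) (nat_lit 13) (.e (nat_lit 483341) (nat_lit 9) (.e (nat_lit 426098) (nat_lit 1) .nil))))) .nil)) 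
(.lf (nat_lit 144558) (.g (nat_lit 3742) (.e (nat_lit 57371) (nat_lit 2) (.e (nat_lit 90128) (nat_lit 9) (.e (nat_lit 297) (nat_lit 22) (.e (nat_lit 344132) (nat_lit 26) (.e (nat_lit 557101) (nat_lit 13) (.e (nat_lit 172066) (nat_lit 3) (.e (nat_lit 204824) (nat_lit 17) (.e (nat_lit 1014) (nat_lit 81) (.e (nat_lit 7261) (nat_lit 384) .nil))))))))) (.g (nat_lit 6) .nil .nil)))) (.nd (nat_lit 5) 
(.lf (nat_lit 144542) (.g (nat_lit 653) (.e (nat_lit 57371) (nat_lit 2) (.e (nat_lit 90128) (nat_lit 9) (.e (nat_lit 237) (nat_lit 21) .nil))) .nil)) 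
(.lf (nat_lit 144574) (.g (nat_lit 1703) (.e (nat_lit 57371) (nat_lit 2) (.e (nat_lit 90158) (nat_lit 11) (.e (nat_lit 24608) (nat_lit 3) (.e (nat_lit 98338) (nat_lit 19) .nil)))) .nil))))))) (.nd (nat_lit 1) (.nd (nat_lit 2) (.nd (nat_lit 3) (.nd (nat_lit 4) (.nd (nat_lit 5) 
(.lf (nat_lit 144513) (.g (nat_lit 712) (.e (nat_lit 57370) (nat_lit 2) (.e (nat_lit 90185) (nat_lit 17) (.e (nat_lit 237620) (nat_lit 13) .nil))) .nil)) 
(.lf (nat_lit 144545) (.g (nat_lit 656) (.e (nat_lit 57371) (nat_lit 2) (.e (nat_lit 90128) (nat_lit 9) (.e (nat_lit 276) (nat_lit 21) .nil))) .nil))) (.nd (nat_lit 5) 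
(.lf (nat_lit 144529) (.g (nat_lit 2741) (.e (nat_lit 57370) (nat_lit 2) (.e (nat_lit 90185) (nat_lit 17) (.e (nat_lit 237623) (nat_lit 13) (.e (nat_lit 483341) (nat_lit 9) (.e (nat_lit 426098) (nat_lit 1) (.e (nat_lit 164399) (nat_lit 256) .nil)))))) (.g (nat_lit 6) .nil .nil))) 
(.lf (nat_lit 144561) (.g (nat_lit 3818) (.e (nat_lit 57371) (nat_lit 2) (.e (nat_lit 90128) (nat_lit 9) (.e (nat_lit 297) (nat_lit 22) (.e (nat_lit 344133) (nat_lit 26) (.e (nat_lit 557098) (nat_lit 13) (.e (nat_lit 172062) (nat_lit 2) (.e (nat_lit 196661) (nat_lit 12) (.e (nat_lit 57353) (nat_lit 0) (.e (nat_lit 7265) (nat_lit 384) .nil))))))))) (.g (nat_lit 5) .nil .nil))))) 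
(.nd (nat_lit 4) (.nd (nat_lit 5) 
(.lf (nat_lit 144521) (.g (nat_lit 3041) (.e (nat_lit 57370) (nat_lit 2) (.e (nat_lit 90185) (nat_lit 17) (.e (nat_lit 237621) (nat_lit 13) (.e (nat_lit 483337) (nat_lit 9) (.e (nat_lit 426108) (nat_lit 1) (.e (nat_lit 164403) (nat_lit 256) .nil)))))) (.g (nat_lit 0) .nil .nil))) 
(.lf (nat_lit 144553) (.g (nat_lit 3439) (.e (nat_lit 57371) (nat_lit 2) (.e (nat_lit 90128) (nat_lit 9) (.e (nat_lit 297) (nat_lit 22) (.e (nat_lit 344132) (nat_lit 26) (.e (nat_lit 557101) (nat_lit 13) (.e (nat_lit 172062) (nat_lit 2) (.e (nat_lit 196661) (nat_lit 12) (.e (nat_lit 57353) (nat_lit 0) (.e (nat_lit 7261) (nat_lit 384) .nil))))))))) (.g (nat_lit 6) .nil .nil)))) (.nd (nat_lit 5) 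
(.lf (nat_lit 144537) (.g (nat_lit 2183) (.e (nat_lit 57370) (nat_lit 2) (.e (nat_lit 90185) (nat_lit 17) (.e (nat_lit 237624) (nat_lit 13) (.e (nat_lit 483341) (nat_lit 9) (.e (nat_lit 426099) (nat_lit 1) (.e (nat_lit 164399) (nat_lit 256) .nil)))))) (.g (nat_lit 5) .nil .nil))) 
(.lf (nat_lit 144569) (.g (nat_lit 2730) (.e (nat_lit 57371) (nat_lit 2) (.e (nat_lit 90128) (nat_lit 9) (.e (nat_lit 7936) (nat_lit 22) (.e (nat_lit 344133) (nat_lit 26) (.e (nat_lit 557098) (nat_lit 13) (.e (nat_lit 172062) (nat_lit 2) (.e (nat_lit 196661) (nat_lit 12) (.e (nat_lit 57353) (nat_lit 0) (.e (nat_lit 7261) (nat_lit 384) .nil))))))))) (.g (nat_lit 5) .nil .nil)))))) 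
(.nd (nat_lit 3) (.nd (nat_lit 4) (.nd (nat_lit 5) 
(.lf (nat_lit 144517) (.g (nat_lit 1822) (.e (nat_lit 57370) (nat_lit 2) (.e (nat_lit 90185) (nat_lit 17) (.e (nat_lit 237621) (nat_lit 13) (.e (nat_lit 483337) (nat_lit 9) (.e (nat_lit 426099) (nat_lit 1) (.e (nat_lit 164399) (nat_lit 256) .nil)))))) (.g (nat_lit 5) .nil .nil))) 
(.lf (nat_lit 144549) (.g (nat_lit 2710) (.e (nat_lit 57371) (nat_lit 2) (.e (nat_lit 90128) (nat_lit 9) (.e (nat_lit 297) (nat_lit 22) (.e (nat_lit 344131) (nat_lit 26) (.e (nat_lit 557098) (nat_lit 13) (.e (nat_lit 172066) (nat_lit 3) (.e (nat_lit 204824) (nat_lit 17) (.e (nat_lit 1014) (nat_lit 81) (.e (nat_lit 7261) (nat_lit 384) .nil))))))))) (.g (nat_lit 5) .nil .nil)))) (.nd (nat_lit 5) 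
(.lf (nat_lit 144533) (.g (nat_lit 2757) (.e (nat_lit 57370) (nat_lit 2) (.e (nat_lit 90185) (nat_lit 17) (.e (nat_lit 237624) (nat_lit 13) (.e (nat_lit 483337) (nat_lit 9) (.e (nat_lit 426100) (nat_lit 1) (.e (nat_lit 164398) (nat_lit 256) .nil)))))) (.g (nat_lit 6) .nil .nil))) 
(.lf (nat_lit 144565) (.g (nat_lit 4294) (.e (nat_lit 57371) (nat_lit 2) (.e (nat_lit 90128) (nat_lit 9) (.e (nat_lit 297) (nat_lit 22) (.e (nat_lit 344133) (nat_lit 26) (.e (nat_lit 557098) (nat_lit 13) (.e (nat_lit 172066) (nat_lit 3) (.e (nat_lit 204824) (nat_lit 17) (.e (nat_lit 1014) (nat_lit 81) (.e (nat_lit 7261) (nat_lit 384) .nil))))))))) (.g (nat_lit 6) .nil .nil))))) 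
(.nd (nat_lit 4) (.nd (nat_lit 5) 
(.lf (nat_lit 144525) (.g (nat_lit 731) (.e (nat_lit 57370) (nat_lit 2) (.e (nat_lit 90185) (nat_lit 17) (.e (nat_lit 237621) (nat_lit 13) (.e (nat_lit 491264) (nat_lit 10) .nil)))) .nil)) 
(.lf (nat_lit 144557) (.g (nat_lit 3217) (.e (nat_lit 57371) (nat_lit 2) (.e (nat_lit 90128) (nat_lit 9) (.e (nat_lit 297) (nat_lit 22) (.e (nat_lit 344132) (nat_lit 26) (.e (nat_lit 557101) (nat_lit 13) (.e (nat_lit 172066) (nat_lit 3) (.e (nat_lit 204822) (nat_lit 17) (.e (nat_lit 1014) (nat_lit 81) (.e (nat_lit 7261) (nat_lit 384) .nil))))))))) (.g (nat_lit 5) .nil .nil)))) (.nd (nat_lit 5) 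
(.lf (nat_lit 144541) (.g (nat_lit 656) (.e (nat_lit 57371) (nat_lit 2) (.e (nat_lit 90128) (nat_lit 9) (.e (nat_lit 227) (nat_lit 21) .nil))) .nil)) 
(.lf (nat_lit 144573) (.g (nat_lit 2357) (.e (nat_lit 57371) (nat_lit 2) (.e (nat_lit 90158) (nat_lit 11) (.e (nat_lit 24608) (nat_lit 3) (.e (nat_lit 98321) (nat_lit 17) (.e (nat_lit 3771) (nat_lit 229) .nil))))) .nil)))))) (.nd (nat_lit 2) (.nd (nat_lit 3) (.nd (nat_lit 4) (.nd (nat_lit 5) 
(.lf (nat_lit 144515) (.g (nat_lit 414) (.e (nat_lit 57370) (nat_lit 2) (.e (nat_lit 90185) (nat_lit 17) (.e (nat_lit 237621) (nat_lit 13) .nil))) .nil)) 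
(.lf (nat_lit 144547) (.g (nat_lit 2667) (.e (nat_lit 57371) (nat_lit 2) (.e (nat_lit 90128) (nat_lit 9) (.e (nat_lit 297) (nat_lit 22) (.e (nat_lit 344131) (nat_lit 26) (.e (nat_lit 557098) (nat_lit 13) (.e (nat_lit 172062) (nat_lit 2) (.e (nat_lit 196661) (nat_lit 12) (.e (nat_lit 57353) (nat_lit 0) (.e (nat_lit 7261) (nat_lit 384) .nil))))))))) (.g (nat_lit 5) .nil .nil)))) (.nd (nat_lit 5) 
(.lf (nat_lit 144531) (.g (nat_lit 408) (.e (nat_lit 57370) (nat_lit 2) (.e (nat_lit 90185) (nat_lit 17) (.e (nat_lit 237624) (nat_lit 13) .nil))) .nil)) 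
(.lf (nat_lit 144563) (.g (nat_lit 4329) (.e (nat_lit 57371) (nat_lit 2) (.e (nat_lit 90128) (nat_lit 9) (.e (nat_lit 297) (nat_lit 22) (.e (nat_lit 344133) (nat_lit 26) (.e (nat_lit 557098) (nat_lit 13) (.e (nat_lit 172064) (nat_lit 2) (.e (nat_lit 196661) (nat_lit 12) (.e (nat_lit 57352) (nat_lit 0) (.e (nat_lit 7261) (nat_lit 384) .nil))))))))) (.g (nat_lit 6) .nil .nil))))) 
(.nd (nat_lit 4) (.nd (nat_lit 5) 
(.lf (nat_lit 144523) (.g (nat_lit 2202) (.e (nat_lit 57370) (nat_lit 2) (.e (nat_lit 90185) (nat_lit 17) (.e (nat_lit 237621) (nat_lit 13) (.e (nat_lit 483341) (nat_lit 9) (.e (nat_lit 426099) (nat_lit 1) (.e (nat_lit 164399) (nat_lit 256) .nil)))))) (.g (nat_lit 5) .nil .nil))) 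
(.lf (nat_lit 144555) (.g (nat_lit 2462) (.e (nat_lit 57371) (nat_lit 2) (.e (nat_lit 90128) (nat_lit 9) (.e (nat_lit 297) (nat_lit 22) (.e (nat_lit 344132) (nat_lit 26) (.e (nat_lit 557101) (nat_lit 13) (.e (nat_lit 172064) (nat_lit 2) (.e (nat_lit 196661) (nat_lit 12) (.e (nat_lit 57351) (nat_lit 0) (.e (nat_lit 7261) (nat_lit 384) .nil))))))))) (.g (nat_lit 4) .nil .nil)))) (.nd (nat_lit 5) 
(.lf (nat_lit 144539) (.g (nat_lit 2968) (.e (nat_lit 57370) (nat_lit 2) (.e (nat_lit 90185) (nat_lit 17) (.e (nat_lit 237624) (nat_lit 13) (.e (nat_lit 483341) (nat_lit 9) (.e (nat_lit 426108) (nat_lit 1) (.e (nat_lit 164403) (nat_lit 256) .nil)))))) (.g (nat_lit 0) .nil .nil))) 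
(.lf (nat_lit 144571) (.g (nat_lit 2527) (.e (nat_lit 57371) (nat_lit 2) (.e (nat_lit 90128) (nat_lit 9) (.e (nat_lit 7936) (nat_lit 22) (.e (nat_lit 344133) (nat_lit 26) (.e (nat_lit 557098) (nat_lit 13) (.e (nat_lit 172066) (nat_lit 3) (.e (nat_lit 204824) (nat_lit 17) (.e (nat_lit 1014) (nat_lit 81) (.e (nat_lit 7261) (nat_lit 384) .nil))))))))) (.g (nat_lit 5) .nil .nil)))))) 
(.nd (nat_lit 3) (.nd (nat_lit 4) (.nd (nat_lit 5) 
(.lf (nat_lit 144519) (.g (nat_lit 2779) (.e (nat_lit 57370) (nat_lit 2) (.e (nat_lit 90185) (nat_lit 17) (.e (nat_lit 237621) (nat_lit 13) (.e (nat_lit 483337) (nat_lit 9) (.e (nat_lit 426100) (nat_lit 1) (.e (nat_lit 164399) (nat_lit 256) .nil)))))) (.g (nat_lit 0) .nil .nil))) 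
(.lf (nat_lit 144551) (.g (nat_lit 3285) (.e (nat_lit 57371) (nat_lit 2) (.e (nat_lit 90128) (nat_lit 9) (.e (nat_lit 297) (nat_lit 22) (.e (nat_lit 344132) (nat_lit 26) (.e (nat_lit 557100) (nat_lit 13) (.e (nat_lit 172064) (nat_lit 2) (.e (nat_lit 196661) (nat_lit 12) (.e (nat_lit 57352) (nat_lit 0) (.e (nat_lit 7261) (nat_lit 384) .nil))))))))) (.g (nat_lit 5) .nil .nil)))) (.nd (nat_lit 5) 
(.lf (nat_lit 144535) (.g (nat_lit 3001) (.e (nat_lit 57370) (nat_lit 2) (.e (nat_lit 90185) (nat_lit 17) (.e (nat_lit 237624) (nat_lit 13) (.e (nat_lit 483337) (nat_lit 9) (.e (nat_lit 426108) (nat_lit 1) (.e (nat_lit 164403) (nat_lit 256) .nil)))))) (.g (nat_lit 0) .nil .nil))) 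
(.lf (nat_lit 144567) (.g (nat_lit 1839) (.e (nat_lit 57371) (nat_lit 2) (.e (nat_lit 90128) (nat_lit 9) (.e (nat_lit 307) (nat_lit 22) (.e (nat_lit 344129) (nat_lit 26) (.e (nat_lit 557097) (nat_lit 13) .nil))))) .nil)))) (.nd (nat_lit 4) (.nd (nat_lit 5) 
(.lf (nat_lit 144527) (.g (nat_lit 1840) (.e (nat_lit 57370) (nat_lit 2) (.e (nat_lit 90185) (nat_lit 17) (.e (nat_lit 237622) (nat_lit 13) (.e (nat_lit 483341) (nat_lit 9) (.e (nat_lit 426100) (nat_lit 1) .nil))))) .nil)) 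
(.lf (nat_lit 144559) (.g (nat_lit 3578) (.e (nat_lit 57371) (nat_lit 2) (.e (nat_lit 90128) (nat_lit 9) (.e (nat_lit 297) (nat_lit 22) (.e (nat_lit 344133) (nat_lit 26) (.e (nat_lit 557096) (nat_lit 13) (.e (nat_lit 172064) (nat_lit 2) (.e (nat_lit 196661) (nat_lit 12) (.e (nat_lit 57353) (nat_lit 0) (.e (nat_lit 7265) (nat_lit 384) .nil))))))))) (.g (nat_lit 5) .nil .nil)))) (.nd (nat_lit 5) 
(.lf (nat_lit 144543) (.g (nat_lit 656) (.e (nat_lit 57371) (nat_lit 2) (.e (nat_lit 90128) (nat_lit 9) (.e (nat_lit 239) (nat_lit 21) .nil))) .nil)) 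
(.lf (nat_lit 144575) (.g (nat_lit 1749) (.e (nat_lit 57371) (nat_lit 2) (.e (nat_lit 90158) (nat_lit 11) (.e (nat_lit 24608) (nat_lit 3) (.e (nat_lit 98341) (nat_lit 20) (.e (nat_lit 229120) (nat_lit 3) .nil))))) .nil))))))))

noncomputable def tv1918 : DT := (.nd (nat_lit 0) (.nd (nat_lit 1) (.nd (nat_lit 2) (.nd (nat_lit 3) (.nd (nat_lit 4) (.nd (nat_lit 5) 
(.lf (nat_lit 144576) (.g (nat_lit 1442) (.e (nat_lit 57371) (nat_lit 2) (.e (nat_lit 90158) (nat_lit 11) (.e (nat_lit 24625) (nat_lit 9) (.e (nat_lit 336367) (nat_lit 27) .nil)))) .nil)) 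
(.lf (nat_lit 144608) (.g (nat_lit 1720) (.e (nat_lit 57371) (nat_lit 2) (.e (nat_lit 90160) (nat_lit 11) (.e (nat_lit 24608) (nat_lit 3) (.e (nat_lit 98338) (nat_lit 19) .nil)))) .nil))) (.nd (nat_lit 5) 
(.lf (nat_lit 144592) (.g (nat_lit 2220) (.e (nat_lit 57371) (nat_lit 2) (.e (nat_lit 90158) (nat_lit 11) (.e (nat_lit 24630) (nat_lit 9) (.e (nat_lit 336369) (nat_lit 27) (.e (nat_lit 426501) (nat_lit 27) .nil))))) .nil)) 
(.lf (nat_lit 144624) (.g (nat_lit 1188) (.e (nat_lit 57371) (nat_lit 2) (.e (nat_lit 90160) (nat_lit 11) (.e (nat_lit 24649) (nat_lit 12) (.e (nat_lit 392960) (nat_lit 10) .nil)))) .nil)))) (.nd (nat_lit 4) (.nd (nat_lit 5) 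
(.lf (nat_lit 144584) (.g (nat_lit 1862) (.e (nat_lit 57371) (nat_lit 2) (.e (nat_lit 90158) (nat_lit 11) (.e (nat_lit 24628) (nat_lit 9) (.e (nat_lit 336368) (nat_lit 27) (.e (nat_lit 426501) (nat_lit 27) .nil))))) .nil)) 
(.lf (nat_lit 144616) (.g (nat_lit 3231) (.e (nat_lit 57371) (nat_lit 2) (.e (nat_lit 90160) (nat_lit 11) (.e (nat_lit 24625) (nat_lit 9) (.e (nat_lit 336454) (nat_lit 34) (.e (nat_lit 483364) (nat_lit 18) (.e (nat_lit 57854) (nat_lit 252) .nil)))))) (.g (nat_lit 0) .nil .nil)))) (.nd (nat_lit 5) 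
(.lf (nat_lit 144600) (.g (nat_lit 201) (.e (nat_lit 57371) (nat_lit 2) (.e (nat_lit 90159) (nat_lit 11) (.e (nat_lit 24655) (nat_lit 13) .nil))) .nil)) 
(.lf (nat_lit 144632) (.g (nat_lit 4093) (.e (nat_lit 57371) (nat_lit 2) (.e (nat_lit 90160) (nat_lit 11) (.e (nat_lit 24655) (nat_lit 13) (.e (nat_lit 393225) (nat_lit 9) (.e (nat_lit 335996) (nat_lit 1) (.e (nat_lit 57854) (nat_lit 252) .nil)))))) (.g (nat_lit 6) .nil .nil)))))) (.nd (nat_lit 3) (.nd (nat_lit 4) (.nd (nat_lit 5) 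
(.lf (nat_lit 144580) (.g (nat_lit 3437) (.e (nat_lit 57371) (nat_lit 2) (.e (nat_lit 90158) (nat_lit 11) (.e (nat_lit 24625) (nat_lit 9) (.e (nat_lit 336456) (nat_lit 34) (.e (nat_lit 483364) (nat_lit 18) (.e (nat_lit 57854) (nat_lit 252) .nil)))))) (.g (nat_lit 0) .nil .nil))) 
(.lf (nat_lit 144612) (.g (nat_lit 3574) (.e (nat_lit 57371) (nat_lit 2) (.e (nat_lit 90160) (nat_lit 11) (.e (nat_lit 24608) (nat_lit 3) (.e (nat_lit 98342) (nat_lit 20) (.e (nat_lit 221213) (nat_lit 23) (.e (nat_lit 204830) (nat_lit 18) (.e (nat_lit 57852) (nat_lit 252) .nil))))))) (.g (nat_lit 4) .nil .nil)))) (.nd (nat_lit 5) 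
(.lf (nat_lit 144596) (.g (nat_lit 1446) (.e (nat_lit 57371) (nat_lit 2) (.e (nat_lit 90158) (nat_lit 11) (.e (nat_lit 24658) (nat_lit 13) (.e (nat_lit 393228) (nat_lit 9) .nil)))) .nil)) 
(.lf (nat_lit 144628) (.g (nat_lit 1333) (.e (nat_lit 57371) (nat_lit 2) (.e (nat_lit 90160) (nat_lit 11) (.e (nat_lit 24653) (nat_lit 12) (.e (nat_lit 385065) (nat_lit 26) .nil)))) .nil)))) (.nd (nat_lit 4) (.nd (nat_lit 5) 
(.lf (nat_lit 144588) (.g (nat_lit 1528) (.e (nat_lit 57371) (nat_lit 2) (.e (nat_lit 90158) (nat_lit 11) (.e (nat_lit 24628) (nat_lit 9) (.e (nat_lit 336375) (nat_lit 27) .nil)))) .nil)) 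
(.lf (nat_lit 144620) (.g (nat_lit 1559) (.e (nat_lit 57371) (nat_lit 2) (.e (nat_lit 90160) (nat_lit 11) (.e (nat_lit 24628) (nat_lit 9) (.e (nat_lit 336395) (nat_lit 27) .nil)))) .nil))) (.nd (nat_lit 5) 
(.lf (nat_lit 144604) (.g (nat_lit 785) (.e (nat_lit 57371) (nat_lit 2) (.e (nat_lit 90160) (nat_lit 11) (.e (nat_lit 24606) (nat_lit 3) .nil))) .nil)) 
(.lf (nat_lit 144636) (.g (nat_lit 2088) (.e (nat_lit 57371) (nat_lit 2) (.e (nat_lit 90160) (nat_lit 11) (.e (nat_lit 24656) (nat_lit 13) (.e (nat_lit 393225) (nat_lit 9) (.e (nat_lit 335988) (nat_lit 1) .nil))))) .nil)))))) (.nd (nat_lit 2) (.nd (nat_lit 3) (.nd (nat_lit 4) (.nd (nat_lit 5) 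
(.lf (nat_lit 144578) (.g (nat_lit 1102) (.e (nat_lit 57371) (nat_lit 2) (.e (nat_lit 90158) (nat_lit 11) (.e (nat_lit 24625) (nat_lit 9) (.e (nat_lit 336456) (nat_lit 34) .nil)))) .nil)) 
(.lf (nat_lit 144610) (.g (nat_lit 3630) (.e (nat_lit 57371) (nat_lit 2) (.e (nat_lit 90160) (nat_lit 11) (.e (nat_lit 24608) (nat_lit 3) (.e (nat_lit 98341) (nat_lit 20) (.e (nat_lit 221213) (nat_lit 23) (.e (nat_lit 204830) (nat_lit 18) (.e (nat_lit 57852) (nat_lit 252) .nil))))))) (.g (nat_lit 4) .nil .nil)))) (.nd (nat_lit 5) 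
(.lf (nat_lit 144594) (.g (nat_lit 2194) (.e (nat_lit 57371) (nat_lit 2) (.e (nat_lit 90158) (nat_lit 11) (.e (nat_lit 24655) (nat_lit 13) (.e (nat_lit 393228) (nat_lit 9) .nil)))) .nil)) 
(.lf (nat_lit 144626) (.g (nat_lit 913) (.e (nat_lit 57371) (nat_lit 2) (.e (nat_lit 90160) (nat_lit 11) (.e (nat_lit 24651) (nat_lit 12) .nil))) .nil)))) (.nd (nat_lit 4) (.nd (nat_lit 5) 
(.lf (nat_lit 144586) (.g (nat_lit 1600) (.e (nat_lit 57371) (nat_lit 2) (.e (nat_lit 90158) (nat_lit 11) (.e (nat_lit 24628) (nat_lit 9) (.e (nat_lit 336372) (nat_lit 27) .nil)))) .nil)) 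
(.lf (nat_lit 144618) (.g (nat_lit 3488) (.e (nat_lit 57371) (nat_lit 2) (.e (nat_lit 90160) (nat_lit 11) (.e (nat_lit 24625) (nat_lit 9) (.e (nat_lit 336456) (nat_lit 34) (.e (nat_lit 483364) (nat_lit 18) (.e (nat_lit 57854) (nat_lit 252) .nil)))))) (.g (nat_lit 0) .nil .nil)))) (.nd (nat_lit 5) 
(.lf (nat_lit 144602) (.g (nat_lit 933) (.e (nat_lit 57371) (nat_lit 2) (.e (nat_lit 90159) (nat_lit 11) (.e (nat_lit 24657) (nat_lit 13) (.e (nat_lit 401152) (nat_lit 9) .nil)))) .nil)) 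
(.lf (nat_lit 144634) (.g (nat_lit 2566) (.e (nat_lit 57371) (nat_lit 2) (.e (nat_lit 90160) (nat_lit 11) (.e (nat_lit 24655) (nat_lit 13) (.e (nat_lit 393229) (nat_lit 9) (.e (nat_lit 335993) (nat_lit 1) (.e (nat_lit 57854) (nat_lit 252) .nil)))))) (.g (nat_lit 4) .nil .nil)))))) (.nd (nat_lit 3) (.nd (nat_lit 4) (.nd (nat_lit 5) 
(.lf (nat_lit 144582) (.g (nat_lit 1989) (.e (nat_lit 57371) (nat_lit 2) (.e (nat_lit 90158) (nat_lit 11) (.e (nat_lit 24628) (nat_lit 9) (.e (nat_lit 336366) (nat_lit 27) (.e (nat_lit 426501) (nat_lit 27) .nil))))) .nil)) 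
(.lf (nat_lit 144614) (.g (nat_lit 913) (.e (nat_lit 57371) (nat_lit 2) (.e (nat_lit 90160) (nat_lit 11) (.e (nat_lit 24609) (nat_lit 3) .nil))) .nil))) (.nd (nat_lit 5) 
(.lf (nat_lit 144598) (.g (nat_lit 3754) (.e (nat_lit 57371) (nat_lit 2) (.e (nat_lit 90158) (nat_lit 11) (.e (nat_lit 24658) (nat_lit 13) (.e (nat_lit 393229) (nat_lit 9) (.e (nat_lit 335996) (nat_lit 1) (.e (nat_lit 57852) (nat_lit 252) .nil)))))) (.g (nat_lit 0) .nil .nil))) 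
(.lf (nat_lit 144630) (.g (nat_lit 2017) (.e (nat_lit 57371) (nat_lit 2) (.e (nat_lit 90160) (nat_lit 11) (.e (nat_lit 24654) (nat_lit 13) (.e (nat_lit 393229) (nat_lit 9) (.e (nat_lit 335994) (nat_lit 1) .nil))))) .nil)))) (.nd (nat_lit 4) (.nd (nat_lit 5) 
(.lf (nat_lit 144590) (.g (nat_lit 1251) (.e (nat_lit 57371) (nat_lit 2) (.e (nat_lit 90158) (nat_lit 11) (.e (nat_lit 24628) (nat_lit 9) (.e (nat_lit 336452) (nat_lit 34) .nil)))) .nil)) 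
(.lf (nat_lit 144622) (.g (nat_lit 1354) (.e (nat_lit 57371) (nat_lit 2) (.e (nat_lit 90160) (nat_lit 11) (.e (nat_lit 24648) (nat_lit 12) (.e (nat_lit 392960) (nat_lit 10) .nil)))) .nil))) (.nd (nat_lit 5) 
(.lf (nat_lit 144606) (.g (nat_lit 2676) (.e (nat_lit 57371) (nat_lit 2) (.e (nat_lit 90160) (nat_lit 11) (.e (nat_lit 24607) (nat_lit 3) (.e (nat_lit 98342) (nat_lit 20) (.e (nat_lit 221214) (nat_lit 23) .nil))))) .nil)) 
(.lf (nat_lit 144638) (.g (nat_lit 3722) (.e (nat_lit 57371) (nat_lit 2) (.e (nat_lit 90160) (nat_lit 11) (.e (nat_lit 24656) (nat_lit 13) (.e (nat_lit 393229) (nat_lit 9) (.e (nat_lit 335996) (nat_lit 1) (.e (nat_lit 57854) (nat_lit 252) .nil)))))) (.g (nat_lit 6) .nil .nil)))))))) (.nd (nat_lit 1) (.nd (nat_lit 2) (.nd (nat_lit 3) (.nd (nat_lit 4) (.nd (nat_lit 5) 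
(.lf (nat_lit 144577) (.g (nat_lit 1864) (.e (nat_lit 57371) (nat_lit 2) (.e (nat_lit 90158) (nat_lit 11) (.e (nat_lit 24625) (nat_lit 9) (.e (nat_lit 336370) (nat_lit 27) (.e (nat_lit 426501) (nat_lit 27) .nil))))) .nil)) 
(.lf (nat_lit 144609) (.g (nat_lit 2501) (.e (nat_lit 57371) (nat_lit 2) (.e (nat_lit 90160) (nat_lit 11) (.e (nat_lit 24608) (nat_lit 3) (.e (nat_lit 98339) (nat_lit 19) (.e (nat_lit 213035) (nat_lit 12) .nil))))) .nil))) (.nd (nat_lit 5) 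
(.lf (nat_lit 144593) (.g (nat_lit 2350) (.e (nat_lit 57371) (nat_lit 2) (.e (nat_lit 90158) (nat_lit 11) (.e (nat_lit 24655) (nat_lit 13) (.e (nat_lit 393224) (nat_lit 9) (.e (nat_lit 335996) (nat_lit 1) .nil))))) .nil)) 
(.lf (nat_lit 144625) (.g (nat_lit 1188) (.e (nat_lit 57371) (nat_lit 2) (.e (nat_lit 90160) (nat_lit 11) (.e (nat_lit 24649) (nat_lit 12) (.e (nat_lit 385066) (nat_lit 26) .nil)))) .nil)))) (.nd (nat_lit 4) (.nd (nat_lit 5) 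
(.lf (nat_lit 144585) (.g (nat_lit 1411) (.e (nat_lit 57371) (nat_lit 2) (.e (nat_lit 90158) (nat_lit 11) (.e (nat_lit 24628) (nat_lit 9) (.e (nat_lit 336370) (nat_lit 27) .nil)))) .nil)) 
(.lf (nat_lit 144617) (.g (nat_lit 1391) (.e (nat_lit 57371) (nat_lit 2) (.e (nat_lit 90160) (nat_lit 11) (.e (nat_lit 24625) (nat_lit 9) (.e (nat_lit 336455) (nat_lit 34) .nil)))) .nil))) (.nd (nat_lit 5) 
(.lf (nat_lit 144601) (.g (nat_lit 1448) (.e (nat_lit 57371) (nat_lit 2) (.e (nat_lit 90159) (nat_lit 11) (.e (nat_lit 24657) (nat_lit 13) (.e (nat_lit 393228) (nat_lit 9) .nil)))) .nil)) 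
(.lf (nat_lit 144633) (.g (nat_lit 3684) (.e (nat_lit 57371) (nat_lit 2) (.e (nat_lit 90160) (nat_lit 11) (.e (nat_lit 24655) (nat_lit 13) (.e (nat_lit 393229) (nat_lit 9) (.e (nat_lit 335988) (nat_lit 1) (.e (nat_lit 57854) (nat_lit 252) .nil)))))) (.g (nat_lit 0) .nil .nil)))))) (.nd (nat_lit 3) (.nd (nat_lit 4) (.nd (nat_lit 5) 
(.lf (nat_lit 144581) (.g (nat_lit 383) (.e (nat_lit 57371) (nat_lit 2) (.e (nat_lit 90158) (nat_lit 11) (.e (nat_lit 24628) (nat_lit 9) .nil))) .nil)) 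
(.lf (nat_lit 144613) (.g (nat_lit 2011) (.e (nat_lit 57371) (nat_lit 2) (.e (nat_lit 90160) (nat_lit 11) (.e (nat_lit 24608) (nat_lit 3) (.e (nat_lit 98348) (nat_lit 23) .nil)))) .nil))) (.nd (nat_lit 5) 
(.lf (nat_lit 144597) (.g (nat_lit 3263) (.e (nat_lit 57371) (nat_lit 2) (.e (nat_lit 90158) (nat_lit 11) (.e (nat_lit 24658) (nat_lit 13) (.e (nat_lit 393229) (nat_lit 9) (.e (nat_lit 335988) (nat_lit 1) (.e (nat_lit 57854) (nat_lit 252) .nil)))))) (.g (nat_lit 0) .nil .nil))) 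
(.lf (nat_lit 144629) (.g (nat_lit 3314) (.e (nat_lit 57371) (nat_lit 2) (.e (nat_lit 90160) (nat_lit 11) (.e (nat_lit 24654) (nat_lit 13) (.e (nat_lit 393229) (nat_lit 9) (.e (nat_lit 335988) (nat_lit 1) (.e (nat_lit 57854) (nat_lit 252) .nil)))))) (.g (nat_lit 6) .nil .nil))))) (.nd (nat_lit 4) (.nd (nat_lit 5) 
(.lf (nat_lit 144589) (.g (nat_lit 1523) (.e (nat_lit 57371) (nat_lit 2) (.e (nat_lit 90158) (nat_lit 11) (.e (nat_lit 24628) (nat_lit 9) (.e (nat_lit 336377) (nat_lit 27) .nil)))) .nil)) 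
(.lf (nat_lit 144621) (.g (nat_lit 2372) (.e (nat_lit 57371) (nat_lit 2) (.e (nat_lit 90160) (nat_lit 11) (.e (nat_lit 24631) (nat_lit 9) (.e (nat_lit 336389) (nat_lit 27) (.e (nat_lit 426500) (nat_lit 27) .nil))))) .nil))) (.nd (nat_lit 5) 
(.lf (nat_lit 144605) (.g (nat_lit 1751) (.e (nat_lit 57371) (nat_lit 2) (.e (nat_lit 90160) (nat_lit 11) (.e (nat_lit 24607) (nat_lit 3) (.e (nat_lit 98342) (nat_lit 20) .nil)))) .nil)) 
(.lf (nat_lit 144637) (.g (nat_lit 3324) (.e (nat_lit 57371) (nat_lit 2) (.e (nat_lit 90160) (nat_lit 11) (.e (nat_lit 24656) (nat_lit 13) (.e (nat_lit 393229) (nat_lit 9) (.e (nat_lit 335988) (nat_lit 1) (.e (nat_lit 57854) (nat_lit 252) .nil)))))) (.g (nat_lit 6) .nil .nil))))))) (.nd (nat_lit 2) (.nd (nat_lit 3) (.nd (nat_lit 4) (.nd (nat_lit 5) 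
(.lf (nat_lit 144579) (.g (nat_lit 3460) (.e (nat_lit 57371) (nat_lit 2) (.e (nat_lit 90158) (nat_lit 11) (.e (nat_lit 24625) (nat_lit 9) (.e (nat_lit 336456) (nat_lit 34) (.e (nat_lit 483364) (nat_lit 18) (.e (nat_lit 57852) (nat_lit 252) .nil)))))) (.g (nat_lit 0) .nil .nil))) 
(.lf (nat_lit 144611) (.g (nat_lit 1610) (.e (nat_lit 57371) (nat_lit 2) (.e (nat_lit 90160) (nat_lit 11) (.e (nat_lit 24608) (nat_lit 3) (.e (nat_lit 98342) (nat_lit 20) .nil)))) .nil))) (.nd (nat_lit 5) 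
(.lf (nat_lit 144595) (.g (nat_lit 2262) (.e (nat_lit 57371) (nat_lit 2) (.e (nat_lit 90158) (nat_lit 11) (.e (nat_lit 24655) (nat_lit 13) (.e (nat_lit 393229) (nat_lit 9) (.e (nat_lit 335987) (nat_lit 1) .nil))))) .nil)) 
(.lf (nat_lit 144627) (.g (nat_lit 917) (.e (nat_lit 57371) (nat_lit 2) (.e (nat_lit 90160) (nat_lit 11) (.e (nat_lit 24653) (nat_lit 12) .nil))) .nil)))) (.nd (nat_lit 4) (.nd (nat_lit 5) 
(.lf (nat_lit 144587) (.g (nat_lit 1090) (.e (nat_lit 57371) (nat_lit 2) (.e (nat_lit 90158) (nat_lit 11) (.e (nat_lit 24628) (nat_lit 9) (.e (nat_lit 336374) (nat_lit 27) .nil)))) .nil)) 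
(.lf (nat_lit 144619) (.g (nat_lit 3861) (.e (nat_lit 57371) (nat_lit 2) (.e (nat_lit 90160) (nat_lit 11) (.e (nat_lit 24626) (nat_lit 9) (.e (nat_lit 336454) (nat_lit 34) (.e (nat_lit 483365) (nat_lit 18) (.e (nat_lit 57854) (nat_lit 252) .nil)))))) (.g (nat_lit 6) .nil .nil)))) (.nd (nat_lit 5) 
(.lf (nat_lit 144603) (.g (nat_lit 913) (.e (nat_lit 57371) (nat_lit 2) (.e (nat_lit 90160) (nat_lit 11) (.e (nat_lit 24576) (nat_lit 0) .nil))) .nil)) 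
(.lf (nat_lit 144635) (.g (nat_lit 3051) (.e (nat_lit 57371) (nat_lit 2) (.e (nat_lit 90160) (nat_lit 11) (.e (nat_lit 24655) (nat_lit 13) (.e (nat_lit 393229) (nat_lit 9) (.e (nat_lit 335996) (nat_lit 1) (.e (nat_lit 57852) (nat_lit 252) .nil)))))) (.g (nat_lit 4) .nil .nil)))))) (.nd (nat_lit 3) (.nd (nat_lit 4) (.nd (nat_lit 5) 
(.lf (nat_lit 144583) (.g (nat_lit 1540) (.e (nat_lit 57371) (nat_lit 2) (.e (nat_lit 90158) (nat_lit 11) (.e (nat_lit 24628) (nat_lit 9) (.e (nat_lit 336368) (nat_lit 27) .nil)))) .nil)) 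
(.lf (nat_lit 144615) (.g (nat_lit 1587) (.e (nat_lit 57371) (nat_lit 2) (.e (nat_lit 90160) (nat_lit 11) (.e (nat_lit 24625) (nat_lit 9) (.e (nat_lit 336367) (nat_lit 27) (.e (nat_lit 426509) (nat_lit 27) .nil))))) .nil))) (.nd (nat_lit 5) 
(.lf (nat_lit 144599) (.g (nat_lit 3775) (.e (nat_lit 57371) (nat_lit 2) (.e (nat_lit 90158) (nat_lit 11) (.e (nat_lit 24658) (nat_lit 13) (.e (nat_lit 393229) (nat_lit 9) (.e (nat_lit 335996) (nat_lit 1) (.e (nat_lit 57853) (nat_lit 252) .nil)))))) (.g (nat_lit 0) .nil .nil))) 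
(.lf (nat_lit 144631) (.g (nat_lit 1680) (.e (nat_lit 57371) (nat_lit 2) (.e (nat_lit 90160) (nat_lit 11) (.e (nat_lit 24655) (nat_lit 13) (.e (nat_lit 393224) (nat_lit 9) .nil)))) .nil)))) (.nd (nat_lit 4) (.nd (nat_lit 5) 
(.lf (nat_lit 144591) (.g (nat_lit 405) (.e (nat_lit 57371) (nat_lit 2) (.e (nat_lit 90158) (nat_lit 11) (.e (nat_lit 24630) (nat_lit 9) .nil))) .nil)) 
(.lf (nat_lit 144623) (.g (nat_lit 2867) (.e (nat_lit 57371) (nat_lit 2) (.e (nat_lit 90160) (nat_lit 11) (.e (nat_lit 24648) (nat_lit 12) (.e (nat_lit 385066) (nat_lit 26) (.e (nat_lit 532515) (nat_lit 3) (.e (nat_lit 114711) (nat_lit 21) (.e (nat_lit 65280) (nat_lit 166) .nil))))))) (.g (nat_lit 4) .nil .nil)))) (.nd (nat_lit 5) 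
(.lf (nat_lit 144607) (.g (nat_lit 1643) (.e (nat_lit 57371) (nat_lit 2) (.e (nat_lit 90160) (nat_lit 11) (.e (nat_lit 24608) (nat_lit 3) (.e (nat_lit 98337) (nat_lit 19) .nil)))) .nil)) 
(.lf (nat_lit 144639) (.g (nat_lit 1848) (.e (nat_lit 57371) (nat_lit 2) (.e (nat_lit 90160) (nat_lit 11) (.e (nat_lit 24657) (nat_lit 13) (.e (nat_lit 393225) (nat_lit 9) (.e (nat_lit 335996) (nat_lit 1) .nil))))) .nil))))))))

noncomputable def tv1919 : DT := (.nd (nat_lit 0) (.nd (nat_lit 1) (.nd (nat_lit 2) (.nd (nat_lit 3) (.nd (nat_lit 4) (.nd (nat_lit 5) 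
(.lf (nat_lit 144640) (.g (nat_lit 1958) (.e (nat_lit 57371) (nat_lit 2) (.e (nat_lit 90160) (nat_lit 11) (.e (nat_lit 24657) (nat_lit 13) (.e (nat_lit 393228) (nat_lit 9) .nil)))) .nil)) 
(.lf (nat_lit 144672) (.g (nat_lit 2509) (.e (nat_lit 57371) (nat_lit 2) (.e (nat_lit 90167) (nat_lit 13) (.e (nat_lit 172067) (nat_lit 3) (.e (nat_lit 204838) (nat_lit 20) (.e (nat_lit 114718) (nat_lit 23) (.e (nat_lit 98325) (nat_lit 17) (.e (nat_lit 2515) (nat_lit 157) (.e (nat_lit 5948) (nat_lit 322) .nil)))))))) (.g (nat_lit 4) .nil .nil)))) (.nd (nat_lit 5) 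
(.lf (nat_lit 144656) (.g (nat_lit 3003) (.e (nat_lit 57371) (nat_lit 2) (.e (nat_lit 90167) (nat_lit 13) (.e (nat_lit 172065) (nat_lit 3) (.e (nat_lit 204838) (nat_lit 20) (.e (nat_lit 114719) (nat_lit 23) (.e (nat_lit 98335) (nat_lit 18) (.e (nat_lit 164403) (nat_lit 256) .nil))))))) (.g (nat_lit 5) .nil .nil))) 
(.lf (nat_lit 144688) (.g (nat_lit 2635) (.e (nat_lit 57371) (nat_lit 2) (.e (nat_lit 90168) (nat_lit 13) (.e (nat_lit 172067) (nat_lit 3) (.e (nat_lit 204837) (nat_lit 20) (.e (nat_lit 114718) (nat_lit 23) (.e (nat_lit 98334) (nat_lit 18) (.e (nat_lit 164403) (nat_lit 256) .nil))))))) (.g (nat_lit 4) .nil .nil))))) (.nd (nat_lit 4) (.nd (nat_lit 5) 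
(.lf (nat_lit 144648) (.g (nat_lit 3079) (.e (nat_lit 57371) (nat_lit 2) (.e (nat_lit 90160) (nat_lit 11) (.e (nat_lit 24660) (nat_lit 13) (.e (nat_lit 393225) (nat_lit 9) (.e (nat_lit 335988) (nat_lit 1) (.e (nat_lit 57854) (nat_lit 252) .nil)))))) (.g (nat_lit 6) .nil .nil))) 
(.lf (nat_lit 144680) (.g (nat_lit 2998) (.e (nat_lit 57371) (nat_lit 2) (.e (nat_lit 90167) (nat_lit 13) (.e (nat_lit 172067) (nat_lit 3) (.e (nat_lit 204838) (nat_lit 20) (.e (nat_lit 114719) (nat_lit 23) (.e (nat_lit 98325) (nat_lit 17) (.e (nat_lit 2515) (nat_lit 157) (.e (nat_lit 5947) (nat_lit 322) .nil)))))))) (.g (nat_lit 5) .nil .nil)))) (.nd (nat_lit 5) 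
(.lf (nat_lit 144664) (.g (nat_lit 1963) (.e (nat_lit 57371) (nat_lit 2) (.e (nat_lit 90167) (nat_lit 13) (.e (nat_lit 172067) (nat_lit 3) (.e (nat_lit 204837) (nat_lit 20) (.e (nat_lit 114719) (nat_lit 23) .nil))))) .nil)) 
(.lf (nat_lit 144696) (.g (nat_lit 2146) (.e (nat_lit 57371) (nat_lit 2) (.e (nat_lit 90169) (nat_lit 13) (.e (nat_lit 172065) (nat_lit 3) (.e (nat_lit 204838) (nat_lit 20) (.e (nat_lit 114719) (nat_lit 23) (.e (nat_lit 98335) (nat_lit 18) (.e (nat_lit 164403) (nat_lit 256) .nil))))))) (.g (nat_lit 4) .nil .nil)))))) (.nd (nat_lit 3) (.nd (nat_lit 4) (.nd (nat_lit 5) 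
(.lf (nat_lit 144644) (.g (nat_lit 1054) (.e (nat_lit 57371) (nat_lit 2) (.e (nat_lit 90160) (nat_lit 11) (.e (nat_lit 24658) (nat_lit 13) (.e (nat_lit 393229) (nat_lit 9) .nil)))) .nil)) 
(.lf (nat_lit 144676) (.g (nat_lit 2671) (.e (nat_lit 57371) (nat_lit 2) (.e (nat_lit 90167) (nat_lit 13) (.e (nat_lit 172067) (nat_lit 3) (.e (nat_lit 204838) (nat_lit 20) (.e (nat_lit 114718) (nat_lit 23) (.e (nat_lit 98334) (nat_lit 18) (.e (nat_lit 164397) (nat_lit 256) .nil))))))) (.g (nat_lit 4) .nil .nil)))) (.nd (nat_lit 5) 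
(.lf (nat_lit 144660) (.g (nat_lit 3288) (.e (nat_lit 57371) (nat_lit 2) (.e (nat_lit 90167) (nat_lit 13) (.e (nat_lit 172067) (nat_lit 3) (.e (nat_lit 204837) (nat_lit 20) (.e (nat_lit 114718) (nat_lit 23) (.e (nat_lit 98334) (nat_lit 18) (.e (nat_lit 164396) (nat_lit 256) .nil))))))) (.g (nat_lit 5) .nil .nil))) 
(.lf (nat_lit 144692) (.g (nat_lit 2361) (.e (nat_lit 57371) (nat_lit 2) (.e (nat_lit 90168) (nat_lit 13) (.e (nat_lit 172067) (nat_lit 3) (.e (nat_lit 204838) (nat_lit 20) (.e (nat_lit 114718) (nat_lit 23) (.e (nat_lit 98334) (nat_lit 18) (.e (nat_lit 164396) (nat_lit 256) .nil))))))) (.g (nat_lit 4) .nil .nil))))) (.nd (nat_lit 4) (.nd (nat_lit 5) 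
(.lf (nat_lit 144652) (.g (nat_lit 3162) (.e (nat_lit 57371) (nat_lit 2) (.e (nat_lit 90167) (nat_lit 13) (.e (nat_lit 172065) (nat_lit 3) (.e (nat_lit 204838) (nat_lit 20) (.e (nat_lit 114718) (nat_lit 23) (.e (nat_lit 98333) (nat_lit 18) (.e (nat_lit 164403) (nat_lit 256) .nil))))))) (.g (nat_lit 5) .nil .nil))) 
(.lf (nat_lit 144684) (.g (nat_lit 2325) (.e (nat_lit 57371) (nat_lit 2) (.e (nat_lit 90167) (nat_lit 13) (.e (nat_lit 172067) (nat_lit 3) (.e (nat_lit 204838) (nat_lit 20) (.e (nat_lit 114719) (nat_lit 23) (.e (nat_lit 98334) (nat_lit 18) (.e (nat_lit 164397) (nat_lit 256) .nil))))))) (.g (nat_lit 4) .nil .nil)))) (.nd (nat_lit 5) 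
(.lf (nat_lit 144668) (.g (nat_lit 1909) (.e (nat_lit 57371) (nat_lit 2) (.e (nat_lit 90167) (nat_lit 13) (.e (nat_lit 172067) (nat_lit 3) (.e (nat_lit 204838) (nat_lit 20) (.e (nat_lit 114717) (nat_lit 23) .nil))))) .nil)) 
(.lf (nat_lit 144700) (.g (nat_lit 866) (.e (nat_lit 57371) (nat_lit 2) (.e (nat_lit 90170) (nat_lit 13) (.e (nat_lit 172065) (nat_lit 3) .nil))) .nil)))))) (.nd (nat_lit 2) (.nd (nat_lit 3) (.nd (nat_lit 4) (.nd (nat_lit 5) 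
(.lf (nat_lit 144642) (.g (nat_lit 1308) (.e (nat_lit 57371) (nat_lit 2) (.e (nat_lit 90160) (nat_lit 11) (.e (nat_lit 24657) (nat_lit 13) (.e (nat_lit 401152) (nat_lit 10) .nil)))) .nil)) 
(.lf (nat_lit 144674) (.g (nat_lit 4411) (.e (nat_lit 57371) (nat_lit 2) (.e (nat_lit 90167) (nat_lit 13) (.e (nat_lit 172067) (nat_lit 3) (.e (nat_lit 204838) (nat_lit 20) (.e (nat_lit 114718) (nat_lit 23) (.e (nat_lit 98333) (nat_lit 18) (.e (nat_lit 164403) (nat_lit 256) .nil))))))) (.g (nat_lit 6) .nil .nil)))) (.nd (nat_lit 5) 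
(.lf (nat_lit 144658) (.g (nat_lit 2966) (.e (nat_lit 57371) (nat_lit 2) (.e (nat_lit 90167) (nat_lit 13) (.e (nat_lit 172067) (nat_lit 3) (.e (nat_lit 204837) (nat_lit 20) (.e (nat_lit 114700) (nat_lit 20) (.e (nat_lit 1781) (nat_lit 119) (.e (nat_lit 516119) (nat_lit 1) (.e (nat_lit 164403) (nat_lit 256) .nil)))))))) (.g (nat_lit 4) .nil .nil))) 
(.lf (nat_lit 144690) (.g (nat_lit 2505) (.e (nat_lit 57371) (nat_lit 2) (.e (nat_lit 90168) (nat_lit 13) (.e (nat_lit 172067) (nat_lit 3) (.e (nat_lit 204837) (nat_lit 20) (.e (nat_lit 114719) (nat_lit 23) (.e (nat_lit 98333) (nat_lit 18) (.e (nat_lit 164403) (nat_lit 256) .nil))))))) (.g (nat_lit 4) .nil .nil))))) (.nd (nat_lit 4) (.nd (nat_lit 5) 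
(.lf (nat_lit 144650) (.g (nat_lit 1571) (.e (nat_lit 57371) (nat_lit 2) (.e (nat_lit 90160) (nat_lit 11) (.e (nat_lit 24665) (nat_lit 14) (.e (nat_lit 401468) (nat_lit 27) .nil)))) .nil)) 
(.lf (nat_lit 144682) (.g (nat_lit 4060) (.e (nat_lit 57371) (nat_lit 2) (.e (nat_lit 90167) (nat_lit 13) (.e (nat_lit 172067) (nat_lit 3) (.e (nat_lit 204838) (nat_lit 20) (.e (nat_lit 114719) (nat_lit 23) (.e (nat_lit 98333) (nat_lit 18) (.e (nat_lit 164403) (nat_lit 256) .nil))))))) (.g (nat_lit 6) .nil .nil)))) (.nd (nat_lit 5) 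
(.lf (nat_lit 144666) (.g (nat_lit 3158) (.e (nat_lit 57371) (nat_lit 2) (.e (nat_lit 90167) (nat_lit 13) (.e (nat_lit 172067) (nat_lit 3) (.e (nat_lit 204837) (nat_lit 20) (.e (nat_lit 114719) (nat_lit 23) (.e (nat_lit 98334) (nat_lit 18) (.e (nat_lit 164403) (nat_lit 256) .nil))))))) (.g (nat_lit 5) .nil .nil))) 
(.lf (nat_lit 144698) (.g (nat_lit 3180) (.e (nat_lit 57371) (nat_lit 2) (.e (nat_lit 90169) (nat_lit 13) (.e (nat_lit 172122) (nat_lit 13) (.e (nat_lit 483337) (nat_lit 9) (.e (nat_lit 426107) (nat_lit 1) (.e (nat_lit 164396) (nat_lit 256) .nil)))))) (.g (nat_lit 6) .nil .nil)))))) (.nd (nat_lit 3) (.nd (nat_lit 4) (.nd (nat_lit 5) 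
(.lf (nat_lit 144646) (.g (nat_lit 2391) (.e (nat_lit 57371) (nat_lit 2) (.e (nat_lit 90160) (nat_lit 11) (.e (nat_lit 24659) (nat_lit 13) (.e (nat_lit 393225) (nat_lit 9) (.e (nat_lit 335988) (nat_lit 1) (.e (nat_lit 57854) (nat_lit 252) .nil)))))) (.g (nat_lit 4) .nil .nil))) 
(.lf (nat_lit 144678) (.g (nat_lit 3934) (.e (nat_lit 57371) (nat_lit 2) (.e (nat_lit 90167) (nat_lit 13) (.e (nat_lit 172067) (nat_lit 3) (.e (nat_lit 204838) (nat_lit 20) (.e (nat_lit 114718) (nat_lit 23) (.e (nat_lit 98334) (nat_lit 18) (.e (nat_lit 164403) (nat_lit 256) .nil))))))) (.g (nat_lit 6) .nil .nil)))) (.nd (nat_lit 5) 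
(.lf (nat_lit 144662) (.g (nat_lit 2609) (.e (nat_lit 57371) (nat_lit 2) (.e (nat_lit 90167) (nat_lit 13) (.e (nat_lit 172067) (nat_lit 3) (.e (nat_lit 204837) (nat_lit 20) (.e (nat_lit 114718) (nat_lit 23) (.e (nat_lit 98334) (nat_lit 18) (.e (nat_lit 164398) (nat_lit 256) .nil))))))) (.g (nat_lit 4) .nil .nil))) 
(.lf (nat_lit 144694) (.g (nat_lit 3283) (.e (nat_lit 57371) (nat_lit 2) (.e (nat_lit 90168) (nat_lit 13) (.e (nat_lit 172067) (nat_lit 3) (.e (nat_lit 204838) (nat_lit 20) (.e (nat_lit 114719) (nat_lit 23) (.e (nat_lit 98335) (nat_lit 18) (.e (nat_lit 164403) (nat_lit 256) .nil))))))) (.g (nat_lit 5) .nil .nil))))) (.nd (nat_lit 4) (.nd (nat_lit 5) 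
(.lf (nat_lit 144654) (.g (nat_lit 3078) (.e (nat_lit 57371) (nat_lit 2) (.e (nat_lit 90167) (nat_lit 13) (.e (nat_lit 172065) (nat_lit 3) (.e (nat_lit 204838) (nat_lit 20) (.e (nat_lit 114718) (nat_lit 23) (.e (nat_lit 98335) (nat_lit 18) (.e (nat_lit 164403) (nat_lit 256) .nil))))))) (.g (nat_lit 5) .nil .nil))) 
(.lf (nat_lit 144686) (.g (nat_lit 3661) (.e (nat_lit 57371) (nat_lit 2) (.e (nat_lit 90167) (nat_lit 13) (.e (nat_lit 172067) (nat_lit 3) (.e (nat_lit 204838) (nat_lit 20) (.e (nat_lit 114719) (nat_lit 23) (.e (nat_lit 98334) (nat_lit 18) (.e (nat_lit 164403) (nat_lit 256) .nil))))))) (.g (nat_lit 6) .nil .nil)))) (.nd (nat_lit 5) 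
(.lf (nat_lit 144670) (.g (nat_lit 2117) (.e (nat_lit 57371) (nat_lit 2) (.e (nat_lit 90167) (nat_lit 13) (.e (nat_lit 172067) (nat_lit 3) (.e (nat_lit 204838) (nat_lit 20) (.e (nat_lit 114717) (nat_lit 23) (.e (nat_lit 98335) (nat_lit 18) (.e (nat_lit 164403) (nat_lit 256) .nil))))))) (.g (nat_lit 4) .nil .nil))) 
(.lf (nat_lit 144702) (.g (nat_lit 2740) (.e (nat_lit 57371) (nat_lit 2) (.e (nat_lit 90170) (nat_lit 13) (.e (nat_lit 172106) (nat_lit 10) (.e (nat_lit 434231) (nat_lit 23) .nil)))) .nil))))))) (.nd (nat_lit 1) (.nd (nat_lit 2) (.nd (nat_lit 3) (.nd (nat_lit 4) (.nd (nat_lit 5) 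
(.lf (nat_lit 144641) (.g (nat_lit 1219) (.e (nat_lit 57371) (nat_lit 2) (.e (nat_lit 90160) (nat_lit 11) (.e (nat_lit 24657) (nat_lit 13) (.e (nat_lit 393229) (nat_lit 9) .nil)))) .nil)) 
(.lf (nat_lit 144673) (.g (nat_lit 2479) (.e (nat_lit 57371) (nat_lit 2) (.e (nat_lit 90167) (nat_lit 13) (.e (nat_lit 172067) (nat_lit 3) (.e (nat_lit 204838) (nat_lit 20) (.e (nat_lit 114718) (nat_lit 23) (.e (nat_lit 98333) (nat_lit 18) (.e (nat_lit 164396) (nat_lit 256) .nil))))))) (.g (nat_lit 4) .nil .nil)))) (.nd (nat_lit 5) 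
(.lf (nat_lit 144657) (.g (nat_lit 1466) (.e (nat_lit 57371) (nat_lit 2) (.e (nat_lit 90167) (nat_lit 13) (.e (nat_lit 172067) (nat_lit 3) (.e (nat_lit 204834) (nat_lit 19) .nil)))) .nil)) 
(.lf (nat_lit 144689) (.g (nat_lit 2655) (.e (nat_lit 57371) (nat_lit 2) (.e (nat_lit 90168) (nat_lit 13) (.e (nat_lit 172067) (nat_lit 3) (.e (nat_lit 204837) (nat_lit 20) (.e (nat_lit 114718) (nat_lit 23) (.e (nat_lit 98335) (nat_lit 18) (.e (nat_lit 164403) (nat_lit 256) .nil))))))) (.g (nat_lit 4) .nil .nil))))) (.nd (nat_lit 4) (.nd (nat_lit 5) 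
(.lf (nat_lit 144649) (.g (nat_lit 2377) (.e (nat_lit 57371) (nat_lit 2) (.e (nat_lit 90160) (nat_lit 11) (.e (nat_lit 24660) (nat_lit 13) (.e (nat_lit 393229) (nat_lit 9) (.e (nat_lit 335987) (nat_lit 1) (.e (nat_lit 57854) (nat_lit 252) .nil)))))) (.g (nat_lit 4) .nil .nil))) 
(.lf (nat_lit 144681) (.g (nat_lit 2207) (.e (nat_lit 57371) (nat_lit 2) (.e (nat_lit 90167) (nat_lit 13) (.e (nat_lit 172067) (nat_lit 3) (.e (nat_lit 204838) (nat_lit 20) (.e (nat_lit 114719) (nat_lit 23) (.e (nat_lit 98333) (nat_lit 18) (.e (nat_lit 164396) (nat_lit 256) .nil))))))) (.g (nat_lit 4) .nil .nil)))) (.nd (nat_lit 5) 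
(.lf (nat_lit 144665) (.g (nat_lit 3105) (.e (nat_lit 57371) (nat_lit 2) (.e (nat_lit 90167) (nat_lit 13) (.e (nat_lit 172067) (nat_lit 3) (.e (nat_lit 204837) (nat_lit 20) (.e (nat_lit 114719) (nat_lit 23) (.e (nat_lit 98334) (nat_lit 18) (.e (nat_lit 164396) (nat_lit 256) .nil))))))) (.g (nat_lit 5) .nil .nil))) 
(.lf (nat_lit 144697) (.g (nat_lit 1822) (.e (nat_lit 57371) (nat_lit 2) (.e (nat_lit 90169) (nat_lit 13) (.e (nat_lit 172121) (nat_lit 13) (.e (nat_lit 483337) (nat_lit 9) (.e (nat_lit 426108) (nat_lit 1) (.e (nat_lit 164396) (nat_lit 256) .nil)))))) (.g (nat_lit 4) .nil .nil)))))) (.nd (nat_lit 3) (.nd (nat_lit 4) (.nd (nat_lit 5) 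
(.lf (nat_lit 144645) (.g (nat_lit 3408) (.e (nat_lit 57371) (nat_lit 2) (.e (nat_lit 90160) (nat_lit 11) (.e (nat_lit 24658) (nat_lit 13) (.e (nat_lit 393229) (nat_lit 9) (.e (nat_lit 335988) (nat_lit 1) (.e (nat_lit 57854) (nat_lit 252) .nil)))))) (.g (nat_lit 0) .nil .nil))) 
(.lf (nat_lit 144677) (.g (nat_lit 2387) (.e (nat_lit 57371) (nat_lit 2) (.e (nat_lit 90167) (nat_lit 13) (.e (nat_lit 172067) (nat_lit 3) (.e (nat_lit 204838) (nat_lit 20) (.e (nat_lit 114718) (nat_lit 23) (.e (nat_lit 98334) (nat_lit 18) (.e (nat_lit 164401) (nat_lit 256) .nil))))))) (.g (nat_lit 4) .nil .nil)))) (.nd (nat_lit 5) 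
(.lf (nat_lit 144661) (.g (nat_lit 2432) (.e (nat_lit 57371) (nat_lit 2) (.e (nat_lit 90167) (nat_lit 13) (.e (nat_lit 172067) (nat_lit 3) (.e (nat_lit 204837) (nat_lit 20) (.e (nat_lit 114718) (nat_lit 23) (.e (nat_lit 98334) (nat_lit 18) (.e (nat_lit 164397) (nat_lit 256) .nil))))))) (.g (nat_lit 4) .nil .nil))) 
(.lf (nat_lit 144693) (.g (nat_lit 3298) (.e (nat_lit 57371) (nat_lit 2) (.e (nat_lit 90168) (nat_lit 13) (.e (nat_lit 172067) (nat_lit 3) (.e (nat_lit 204838) (nat_lit 20) (.e (nat_lit 114718) (nat_lit 23) (.e (nat_lit 98335) (nat_lit 18) (.e (nat_lit 164403) (nat_lit 256) .nil))))))) (.g (nat_lit 5) .nil .nil))))) (.nd (nat_lit 4) (.nd (nat_lit 5) 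
(.lf (nat_lit 144653) (.g (nat_lit 2557) (.e (nat_lit 57371) (nat_lit 2) (.e (nat_lit 90167) (nat_lit 13) (.e (nat_lit 172065) (nat_lit 3) (.e (nat_lit 204838) (nat_lit 20) (.e (nat_lit 114718) (nat_lit 23) (.e (nat_lit 98334) (nat_lit 18) (.e (nat_lit 164396) (nat_lit 256) .nil))))))) (.g (nat_lit 4) .nil .nil))) 
(.lf (nat_lit 144685) (.g (nat_lit 2288) (.e (nat_lit 57371) (nat_lit 2) (.e (nat_lit 90167) (nat_lit 13) (.e (nat_lit 172067) (nat_lit 3) (.e (nat_lit 204838) (nat_lit 20) (.e (nat_lit 114719) (nat_lit 23) (.e (nat_lit 98334) (nat_lit 18) (.e (nat_lit 164401) (nat_lit 256) .nil))))))) (.g (nat_lit 4) .nil .nil)))) (.nd (nat_lit 5) 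
(.lf (nat_lit 144669) (.g (nat_lit 2370) (.e (nat_lit 57371) (nat_lit 2) (.e (nat_lit 90167) (nat_lit 13) (.e (nat_lit 172067) (nat_lit 3) (.e (nat_lit 204838) (nat_lit 20) (.e (nat_lit 114717) (nat_lit 23) (.e (nat_lit 98334) (nat_lit 18) (.e (nat_lit 164396) (nat_lit 256) .nil))))))) (.g (nat_lit 4) .nil .nil))) 
(.lf (nat_lit 144701) (.g (nat_lit 976) (.e (nat_lit 57371) (nat_lit 2) (.e (nat_lit 90170) (nat_lit 13) (.e (nat_lit 172067) (nat_lit 3) .nil))) .nil)))))) (.nd (nat_lit 2) (.nd (nat_lit 3) (.nd (nat_lit 4) (.nd (nat_lit 5) 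
(.lf (nat_lit 144643) (.g (nat_lit 3617) (.e (nat_lit 57371) (nat_lit 2) (.e (nat_lit 90160) (nat_lit 11) (.e (nat_lit 24658) (nat_lit 13) (.e (nat_lit 393228) (nat_lit 9) (.e (nat_lit 335988) (nat_lit 1) (.e (nat_lit 57854) (nat_lit 252) .nil)))))) (.g (nat_lit 6) .nil .nil))) 
(.lf (nat_lit 144675) (.g (nat_lit 3807) (.e (nat_lit 57371) (nat_lit 2) (.e (nat_lit 90167) (nat_lit 13) (.e (nat_lit 172067) (nat_lit 3) (.e (nat_lit 204838) (nat_lit 20) (.e (nat_lit 114718) (nat_lit 23) (.e (nat_lit 98334) (nat_lit 18) (.e (nat_lit 164396) (nat_lit 256) .nil))))))) (.g (nat_lit 6) .nil .nil)))) (.nd (nat_lit 5) 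
(.lf (nat_lit 144659) (.g (nat_lit 2982) (.e (nat_lit 57371) (nat_lit 2) (.e (nat_lit 90167) (nat_lit 13) (.e (nat_lit 172067) (nat_lit 3) (.e (nat_lit 204837) (nat_lit 20) (.e (nat_lit 114700) (nat_lit 20) (.e (nat_lit 1795) (nat_lit 119) (.e (nat_lit 516119) (nat_lit 1) (.e (nat_lit 164403) (nat_lit 256) .nil)))))))) (.g (nat_lit 4) .nil .nil))) 
(.lf (nat_lit 144691) (.g (nat_lit 3382) (.e (nat_lit 57371) (nat_lit 2) (.e (nat_lit 90168) (nat_lit 13) (.e (nat_lit 172067) (nat_lit 3) (.e (nat_lit 204838) (nat_lit 20) (.e (nat_lit 114718) (nat_lit 23) (.e (nat_lit 98333) (nat_lit 18) (.e (nat_lit 164403) (nat_lit 256) .nil))))))) (.g (nat_lit 5) .nil .nil))))) (.nd (nat_lit 4) (.nd (nat_lit 5) 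
(.lf (nat_lit 144651) (.g (nat_lit 2143) (.e (nat_lit 57371) (nat_lit 2) (.e (nat_lit 90166) (nat_lit 13) (.e (nat_lit 172065) (nat_lit 3) (.e (nat_lit 204838) (nat_lit 20) (.e (nat_lit 114719) (nat_lit 23) (.e (nat_lit 98335) (nat_lit 18) (.e (nat_lit 164403) (nat_lit 256) .nil))))))) (.g (nat_lit 4) .nil .nil))) 
(.lf (nat_lit 144683) (.g (nat_lit 3348) (.e (nat_lit 57371) (nat_lit 2) (.e (nat_lit 90167) (nat_lit 13) (.e (nat_lit 172067) (nat_lit 3) (.e (nat_lit 204838) (nat_lit 20) (.e (nat_lit 114719) (nat_lit 23) (.e (nat_lit 98334) (nat_lit 18) (.e (nat_lit 164396) (nat_lit 256) .nil))))))) (.g (nat_lit 6) .nil .nil)))) (.nd (nat_lit 5) 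
(.lf (nat_lit 144667) (.g (nat_lit 3553) (.e (nat_lit 57371) (nat_lit 2) (.e (nat_lit 90167) (nat_lit 13) (.e (nat_lit 172067) (nat_lit 3) (.e (nat_lit 204837) (nat_lit 20) (.e (nat_lit 114719) (nat_lit 23) (.e (nat_lit 98335) (nat_lit 18) (.e (nat_lit 164403) (nat_lit 256) .nil))))))) (.g (nat_lit 5) .nil .nil))) 
(.lf (nat_lit 144699) (.g (nat_lit 2751) (.e (nat_lit 57371) (nat_lit 2) (.e (nat_lit 90169) (nat_lit 13) (.e (nat_lit 172122) (nat_lit 13) (.e (nat_lit 483337) (nat_lit 9) (.e (nat_lit 426108) (nat_lit 1) (.e (nat_lit 164396) (nat_lit 256) .nil)))))) (.g (nat_lit 5) .nil .nil)))))) (.nd (nat_lit 3) (.nd (nat_lit 4) (.nd (nat_lit 5) 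
(.lf (nat_lit 144647) (.g (nat_lit 2454) (.e (nat_lit 57371) (nat_lit 2) (.e (nat_lit 90160) (nat_lit 11) (.e (nat_lit 24659) (nat_lit 13) (.e (nat_lit 393229) (nat_lit 9) (.e (nat_lit 335988) (nat_lit 1) (.e (nat_lit 57854) (nat_lit 252) .nil)))))) (.g (nat_lit 4) .nil .nil))) 
(.lf (nat_lit 144679) (.g (nat_lit 4327) (.e (nat_lit 57371) (nat_lit 2) (.e (nat_lit 90167) (nat_lit 13) (.e (nat_lit 172067) (nat_lit 3) (.e (nat_lit 204838) (nat_lit 20) (.e (nat_lit 114718) (nat_lit 23) (.e (nat_lit 98335) (nat_lit 18) (.e (nat_lit 164403) (nat_lit 256) .nil))))))) (.g (nat_lit 6) .nil .nil)))) (.nd (nat_lit 5) 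
(.lf (nat_lit 144663) (.g (nat_lit 3611) (.e (nat_lit 57371) (nat_lit 2) (.e (nat_lit 90167) (nat_lit 13) (.e (nat_lit 172067) (nat_lit 3) (.e (nat_lit 204837) (nat_lit 20) (.e (nat_lit 114718) (nat_lit 23) (.e (nat_lit 98335) (nat_lit 18) (.e (nat_lit 164403) (nat_lit 256) .nil))))))) (.g (nat_lit 5) .nil .nil))) 
(.lf (nat_lit 144695) (.g (nat_lit 1939) (.e (nat_lit 57371) (nat_lit 2) (.e (nat_lit 90169) (nat_lit 13) (.e (nat_lit 172065) (nat_lit 3) (.e (nat_lit 204838) (nat_lit 20) (.e (nat_lit 114708) (nat_lit 20) .nil))))) .nil)))) (.nd (nat_lit 4) (.nd (nat_lit 5) 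
(.lf (nat_lit 144655) (.g (nat_lit 1998) (.e (nat_lit 57371) (nat_lit 2) (.e (nat_lit 90167) (nat_lit 13) (.e (nat_lit 172065) (nat_lit 3) (.e (nat_lit 204838) (nat_lit 20) (.e (nat_lit 114719) (nat_lit 23) (.e (nat_lit 98334) (nat_lit 18) (.e (nat_lit 164396) (nat_lit 256) .nil))))))) (.g (nat_lit 4) .nil .nil))) 
(.lf (nat_lit 144687) (.g (nat_lit 4312) (.e (nat_lit 57371) (nat_lit 2) (.e (nat_lit 90167) (nat_lit 13) (.e (nat_lit 172067) (nat_lit 3) (.e (nat_lit 204838) (nat_lit 20) (.e (nat_lit 114719) (nat_lit 23) (.e (nat_lit 98335) (nat_lit 18) (.e (nat_lit 164403) (nat_lit 256) .nil))))))) (.g (nat_lit 7) .nil .nil)))) (.nd (nat_lit 5) 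
(.lf (nat_lit 144671) (.g (nat_lit 2512) (.e (nat_lit 57371) (nat_lit 2) (.e (nat_lit 90167) (nat_lit 13) (.e (nat_lit 172067) (nat_lit 3) (.e (nat_lit 204838) (nat_lit 20) (.e (nat_lit 114718) (nat_lit 23) (.e (nat_lit 98325) (nat_lit 17) (.e (nat_lit 2515) (nat_lit 157) (.e (nat_lit 5947) (nat_lit 322) .nil)))))))) (.g (nat_lit 4) .nil .nil))) 
(.lf (nat_lit 144703) (.g (nat_lit 2842) (.e (nat_lit 57371) (nat_lit 2) (.e (nat_lit 90170) (nat_lit 13) (.e (nat_lit 172106) (nat_lit 10) (.e (nat_lit 434244) (nat_lit 28) .nil)))) .nil))))))))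

noncomputable def tv1920 : DT := (.nd (nat_lit 0) (.nd (nat_lit 1) (.nd (nat_lit 2) (.nd (nat_lit 3) (.nd (nat_lit 4) (.nd (nat_lit 5) 
(.lf (nat_lit 144704) (.g (nat_lit 2416) (.e (nat_lit 57371) (nat_lit 2) (.e (nat_lit 90171) (nat_lit 14) (.e (nat_lit 180243) (nat_lit 5) (.e (nat_lit 532513) (nat_lit 3) (.e (nat_lit 114718) (nat_lit 23) (.e (nat_lit 98335) (nat_lit 18) (.e (nat_lit 164403) (nat_lit 256) .nil))))))) (.g (nat_lit 4) .nil .nil))) 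
(.lf (nat_lit 144736) (.g (nat_lit 2573) (.e (nat_lit 57371) (nat_lit 2) (.e (nat_lit 90172) (nat_lit 14) (.e (nat_lit 180243) (nat_lit 5) (.e (nat_lit 532513) (nat_lit 3) (.e (nat_lit 114718) (nat_lit 23) (.e (nat_lit 98335) (nat_lit 18) (.e (nat_lit 164396) (nat_lit 256) .nil))))))) (.g (nat_lit 4) .nil .nil)))) (.nd (nat_lit 5) 
(.lf (nat_lit 144720) (.g (nat_lit 2548) (.e (nat_lit 57371) (nat_lit 2) (.e (nat_lit 90172) (nat_lit 14) (.e (nat_lit 180243) (nat_lit 5) (.e (nat_lit 532513) (nat_lit 3) (.e (nat_lit 114714) (nat_lit 22) (.e (nat_lit 90130) (nat_lit 9) (.e (nat_lit 2612) (nat_lit 163) (.e (nat_lit 164396) (nat_lit 256) .nil)))))))) (.g (nat_lit 4) .nil .nil))) 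
(.lf (nat_lit 144752) (.g (nat_lit 1974) (.e (nat_lit 57371) (nat_lit 2) (.e (nat_lit 90172) (nat_lit 14) (.e (nat_lit 180243) (nat_lit 5) (.e (nat_lit 532515) (nat_lit 3) (.e (nat_lit 114717) (nat_lit 23) (.e (nat_lit 98334) (nat_lit 18) (.e (nat_lit 164396) (nat_lit 256) .nil))))))) (.g (nat_lit 4) .nil .nil))))) (.nd (nat_lit 4) (.nd (nat_lit 5) 
(.lf (nat_lit 144712) (.g (nat_lit 2181) (.e (nat_lit 57371) (nat_lit 2) (.e (nat_lit 90172) (nat_lit 14) (.e (nat_lit 180243) (nat_lit 5) (.e (nat_lit 532508) (nat_lit 2) (.e (nat_lit 114432) (nat_lit 13) (.e (nat_lit 122936) (nat_lit 23) (.e (nat_lit 516117) (nat_lit 1) (.e (nat_lit 164396) (nat_lit 256) .nil)))))))) (.g (nat_lit 4) .nil .nil))) 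
(.lf (nat_lit 144744) (.g (nat_lit 3546) (.e (nat_lit 57371) (nat_lit 2) (.e (nat_lit 90172) (nat_lit 14) (.e (nat_lit 180243) (nat_lit 5) (.e (nat_lit 532513) (nat_lit 3) (.e (nat_lit 114719) (nat_lit 23) (.e (nat_lit 98334) (nat_lit 18) (.e (nat_lit 164396) (nat_lit 256) .nil))))))) (.g (nat_lit 6) .nil .nil)))) (.nd (nat_lit 5) 
(.lf (nat_lit 144728) (.g (nat_lit 2949) (.e (nat_lit 57371) (nat_lit 2) (.e (nat_lit 90172) (nat_lit 14) (.e (nat_lit 180243) (nat_lit 5) (.e (nat_lit 532513) (nat_lit 3) (.e (nat_lit 114718) (nat_lit 23) (.e (nat_lit 98333) (nat_lit 18) (.e (nat_lit 164397) (nat_lit 256) .nil))))))) (.g (nat_lit 4) .nil .nil))) 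
(.lf (nat_lit 144760) (.g (nat_lit 2217) (.e (nat_lit 57371) (nat_lit 2) (.e (nat_lit 90172) (nat_lit 14) (.e (nat_lit 180243) (nat_lit 5) (.e (nat_lit 532515) (nat_lit 3) (.e (nat_lit 114719) (nat_lit 23) (.e (nat_lit 98333) (nat_lit 18) (.e (nat_lit 164402) (nat_lit 256) .nil))))))) (.g (nat_lit 4) .nil .nil)))))) (.nd (nat_lit 3) (.nd (nat_lit 4) (.nd (nat_lit 5) 
(.lf (nat_lit 144708) (.g (nat_lit 2605) (.e (nat_lit 57371) (nat_lit 2) (.e (nat_lit 90172) (nat_lit 14) (.e (nat_lit 180243) (nat_lit 5) (.e (nat_lit 532508) (nat_lit 2) (.e (nat_lit 106538) (nat_lit 12) (.e (nat_lit 57465) (nat_lit 23) (.e (nat_lit 516119) (nat_lit 1) (.e (nat_lit 164403) (nat_lit 256) .nil)))))))) (.g (nat_lit 4) .nil .nil))) 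
(.lf (nat_lit 144740) (.g (nat_lit 2443) (.e (nat_lit 57371) (nat_lit 2) (.e (nat_lit 90172) (nat_lit 14) (.e (nat_lit 180243) (nat_lit 5) (.e (nat_lit 532513) (nat_lit 3) (.e (nat_lit 114719) (nat_lit 23) (.e (nat_lit 98333) (nat_lit 18) (.e (nat_lit 164398) (nat_lit 256) .nil))))))) (.g (nat_lit 4) .nil .nil)))) (.nd (nat_lit 5) 
(.lf (nat_lit 144724) (.g (nat_lit 3365) (.e (nat_lit 57371) (nat_lit 2) (.e (nat_lit 90172) (nat_lit 14) (.e (nat_lit 180243) (nat_lit 5) (.e (nat_lit 532513) (nat_lit 3) (.e (nat_lit 114714) (nat_lit 22) (.e (nat_lit 90165) (nat_lit 12) (.e (nat_lit 163857) (nat_lit 0) (.e (nat_lit 5947) (nat_lit 322) .nil)))))))) (.g (nat_lit 5) .nil .nil))) 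
(.lf (nat_lit 144756) (.g (nat_lit 2206) (.e (nat_lit 57371) (nat_lit 2) (.e (nat_lit 90172) (nat_lit 14) (.e (nat_lit 180243) (nat_lit 5) (.e (nat_lit 532515) (nat_lit 3) (.e (nat_lit 114719) (nat_lit 23) (.e (nat_lit 98332) (nat_lit 18) (.e (nat_lit 164396) (nat_lit 256) .nil))))))) (.g (nat_lit 4) .nil .nil))))) (.nd (nat_lit 4) (.nd (nat_lit 5) 
(.lf (nat_lit 144716) (.g (nat_lit 1072) (.e (nat_lit 57371) (nat_lit 2) (.e (nat_lit 90172) (nat_lit 14) (.e (nat_lit 180243) (nat_lit 5) (.e (nat_lit 532511) (nat_lit 2) .nil)))) .nil)) 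
(.lf (nat_lit 144748) (.g (nat_lit 4593) (.e (nat_lit 57371) (nat_lit 2) (.e (nat_lit 90172) (nat_lit 14) (.e (nat_lit 180243) (nat_lit 5) (.e (nat_lit 532513) (nat_lit 3) (.e (nat_lit 114719) (nat_lit 23) (.e (nat_lit 98335) (nat_lit 18) (.e (nat_lit 164403) (nat_lit 256) .nil))))))) (.g (nat_lit 6) .nil .nil)))) (.nd (nat_lit 5) 
(.lf (nat_lit 144732) (.g (nat_lit 3400) (.e (nat_lit 57371) (nat_lit 2) (.e (nat_lit 90172) (nat_lit 14) (.e (nat_lit 180243) (nat_lit 5) (.e (nat_lit 532513) (nat_lit 3) (.e (nat_lit 114718) (nat_lit 23) (.e (nat_lit 98334) (nat_lit 18) (.e (nat_lit 164397) (nat_lit 256) .nil))))))) (.g (nat_lit 5) .nil .nil))) 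
(.lf (nat_lit 144764) (.g (nat_lit 2451) (.e (nat_lit 57371) (nat_lit 2) (.e (nat_lit 90172) (nat_lit 14) (.e (nat_lit 180243) (nat_lit 5) (.e (nat_lit 532515) (nat_lit 3) (.e (nat_lit 114719) (nat_lit 23) (.e (nat_lit 98335) (nat_lit 18) (.e (nat_lit 164396) (nat_lit 256) .nil))))))) (.g (nat_lit 4) .nil .nil))))))) (.nd (nat_lit 2) (.nd (nat_lit 3) (.nd (nat_lit 4) (.nd (nat_lit 5) 
(.lf (nat_lit 144706) (.g (nat_lit 518) (.e (nat_lit 57371) (nat_lit 2) (.e (nat_lit 90172) (nat_lit 14) (.e (nat_lit 180243) (nat_lit 5) .nil))) .nil)) 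
(.lf (nat_lit 144738) (.g (nat_lit 2643) (.e (nat_lit 57371) (nat_lit 2) (.e (nat_lit 90172) (nat_lit 14) (.e (nat_lit 180243) (nat_lit 5) (.e (nat_lit 532513) (nat_lit 3) (.e (nat_lit 114719) (nat_lit 23) (.e (nat_lit 98333) (nat_lit 18) (.e (nat_lit 164396) (nat_lit 256) .nil))))))) (.g (nat_lit 4) .nil .nil)))) (.nd (nat_lit 5) 
(.lf (nat_lit 144722) (.g (nat_lit 2578) (.e (nat_lit 57371) (nat_lit 2) (.e (nat_lit 90172) (nat_lit 14) (.e (nat_lit 180243) (nat_lit 5) (.e (nat_lit 532513) (nat_lit 3) (.e (nat_lit 114714) (nat_lit 22) (.e (nat_lit 90165) (nat_lit 12) (.e (nat_lit 163855) (nat_lit 0) (.e (nat_lit 5944) (nat_lit 322) .nil)))))))) (.g (nat_lit 4) .nil .nil))) 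
(.lf (nat_lit 144754) (.g (nat_lit 2593) (.e (nat_lit 57371) (nat_lit 2) (.e (nat_lit 90172) (nat_lit 14) (.e (nat_lit 180243) (nat_lit 5) (.e (nat_lit 532515) (nat_lit 3) (.e (nat_lit 114718) (nat_lit 23) (.e (nat_lit 98334) (nat_lit 18) (.e (nat_lit 164397) (nat_lit 256) .nil))))))) (.g (nat_lit 4) .nil .nil))))) (.nd (nat_lit 4) (.nd (nat_lit 5) 
(.lf (nat_lit 144714) (.g (nat_lit 2571) (.e (nat_lit 57371) (nat_lit 2) (.e (nat_lit 90172) (nat_lit 14) (.e (nat_lit 180243) (nat_lit 5) (.e (nat_lit 532510) (nat_lit 2) (.e (nat_lit 106539) (nat_lit 12) (.e (nat_lit 57466) (nat_lit 23) (.e (nat_lit 516119) (nat_lit 1) (.e (nat_lit 164403) (nat_lit 256) .nil)))))))) (.g (nat_lit 4) .nil .nil))) 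
(.lf (nat_lit 144746) (.g (nat_lit 2515) (.e (nat_lit 57371) (nat_lit 2) (.e (nat_lit 90172) (nat_lit 14) (.e (nat_lit 180243) (nat_lit 5) (.e (nat_lit 532513) (nat_lit 3) (.e (nat_lit 114719) (nat_lit 23) (.e (nat_lit 98334) (nat_lit 18) (.e (nat_lit 164401) (nat_lit 256) .nil))))))) (.g (nat_lit 4) .nil .nil)))) (.nd (nat_lit 5) 
(.lf (nat_lit 144730) (.g (nat_lit 2954) (.e (nat_lit 57371) (nat_lit 2) (.e (nat_lit 90172) (nat_lit 14) (.e (nat_lit 180243) (nat_lit 5) (.e (nat_lit 532513) (nat_lit 3) (.e (nat_lit 114718) (nat_lit 23) (.e (nat_lit 98333) (nat_lit 18) (.e (nat_lit 164399) (nat_lit 256) .nil))))))) (.g (nat_lit 4) .nil .nil))) 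
(.lf (nat_lit 144762) (.g (nat_lit 2562) (.e (nat_lit 57371) (nat_lit 2) (.e (nat_lit 90172) (nat_lit 14) (.e (nat_lit 180243) (nat_lit 5) (.e (nat_lit 532515) (nat_lit 3) (.e (nat_lit 114719) (nat_lit 23) (.e (nat_lit 98334) (nat_lit 18) (.e (nat_lit 164397) (nat_lit 256) .nil))))))) (.g (nat_lit 4) .nil .nil)))))) (.nd (nat_lit 3) (.nd (nat_lit 4) (.nd (nat_lit 5) 
(.lf (nat_lit 144710) (.g (nat_lit 2640) (.e (nat_lit 57371) (nat_lit 2) (.e (nat_lit 90172) (nat_lit 14) (.e (nat_lit 180243) (nat_lit 5) (.e (nat_lit 532508) (nat_lit 2) (.e (nat_lit 106540) (nat_lit 13) (.e (nat_lit 122936) (nat_lit 23) (.e (nat_lit 516117) (nat_lit 1) (.e (nat_lit 164403) (nat_lit 256) .nil)))))))) (.g (nat_lit 4) .nil .nil))) 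
(.lf (nat_lit 144742) (.g (nat_lit 2673) (.e (nat_lit 57371) (nat_lit 2) (.e (nat_lit 90172) (nat_lit 14) (.e (nat_lit 180243) (nat_lit 5) (.e (nat_lit 532513) (nat_lit 3) (.e (nat_lit 114719) (nat_lit 23) (.e (nat_lit 98333) (nat_lit 18) (.e (nat_lit 164402) (nat_lit 256) .nil))))))) (.g (nat_lit 4) .nil .nil)))) (.nd (nat_lit 5) 
(.lf (nat_lit 144726) (.g (nat_lit 2285) (.e (nat_lit 57371) (nat_lit 2) (.e (nat_lit 90172) (nat_lit 14) (.e (nat_lit 180243) (nat_lit 5) (.e (nat_lit 532513) (nat_lit 3) (.e (nat_lit 114717) (nat_lit 23) (.e (nat_lit 98334) (nat_lit 18) (.e (nat_lit 164396) (nat_lit 256) .nil))))))) (.g (nat_lit 4) .nil .nil))) 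
(.lf (nat_lit 144758) (.g (nat_lit 3209) (.e (nat_lit 57371) (nat_lit 2) (.e (nat_lit 90172) (nat_lit 14) (.e (nat_lit 180243) (nat_lit 5) (.e (nat_lit 532515) (nat_lit 3) (.e (nat_lit 114719) (nat_lit 23) (.e (nat_lit 98332) (nat_lit 18) (.e (nat_lit 164403) (nat_lit 256) .nil))))))) (.g (nat_lit 5) .nil .nil))))) (.nd (nat_lit 4) (.nd (nat_lit 5) 
(.lf (nat_lit 144718) (.g (nat_lit 2134) (.e (nat_lit 57371) (nat_lit 2) (.e (nat_lit 90172) (nat_lit 14) (.e (nat_lit 180243) (nat_lit 5) (.e (nat_lit 532511) (nat_lit 2) (.e (nat_lit 106540) (nat_lit 13) (.e (nat_lit 122936) (nat_lit 23) (.e (nat_lit 516117) (nat_lit 1) (.e (nat_lit 164396) (nat_lit 256) .nil)))))))) (.g (nat_lit 4) .nil .nil))) 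
(.lf (nat_lit 144750) (.g (nat_lit 1722) (.e (nat_lit 57371) (nat_lit 2) (.e (nat_lit 90172) (nat_lit 14) (.e (nat_lit 180243) (nat_lit 5) (.e (nat_lit 532515) (nat_lit 3) (.e (nat_lit 114716) (nat_lit 22) .nil))))) .nil))) (.nd (nat_lit 5) 
(.lf (nat_lit 144734) (.g (nat_lit 2782) (.e (nat_lit 57371) (nat_lit 2) (.e (nat_lit 90172) (nat_lit 14) (.e (nat_lit 180243) (nat_lit 5) (.e (nat_lit 532513) (nat_lit 3) (.e (nat_lit 114718) (nat_lit 23) (.e (nat_lit 98334) (nat_lit 18) (.e (nat_lit 164401) (nat_lit 256) .nil))))))) (.g (nat_lit 4) .nil .nil))) 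
(.lf (nat_lit 144766) (.g (nat_lit 2342) (.e (nat_lit 57371) (nat_lit 2) (.e (nat_lit 90172) (nat_lit 14) (.e (nat_lit 180243) (nat_lit 5) (.e (nat_lit 532515) (nat_lit 3) (.e (nat_lit 114719) (nat_lit 23) (.e (nat_lit 98343) (nat_lit 21) (.e (nat_lit 229707) (nat_lit 256) .nil))))))) (.g (nat_lit 4) .nil .nil)))))))) 
(.nd (nat_lit 1) (.nd (nat_lit 2) (.nd (nat_lit 3) (.nd (nat_lit 4) (.nd (nat_lit 5) 
(.lf (nat_lit 144705) (.g (nat_lit 2769) (.e (nat_lit 57371) (nat_lit 2) (.e (nat_lit 90171) (nat_lit 14) (.e (nat_lit 180245) (nat_lit 5) (.e (nat_lit 532515) (nat_lit 3) (.e (nat_lit 114719) (nat_lit 23) (.e (nat_lit 98335) (nat_lit 18) (.e (nat_lit 164403) (nat_lit 256) .nil))))))) (.g (nat_lit 5) .nil .nil))) 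
(.lf (nat_lit 144737) (.g (nat_lit 5025) (.e (nat_lit 57371) (nat_lit 2) (.e (nat_lit 90172) (nat_lit 14) (.e (nat_lit 180243) (nat_lit 5) (.e (nat_lit 532513) (nat_lit 3) (.e (nat_lit 114718) (nat_lit 23) (.e (nat_lit 98335) (nat_lit 18) (.e (nat_lit 164403) (nat_lit 256) .nil))))))) (.g (nat_lit 7) .nil .nil)))) (.nd (nat_lit 5) 
(.lf (nat_lit 144721) (.g (nat_lit 2745) (.e (nat_lit 57371) (nat_lit 2) (.e (nat_lit 90172) (nat_lit 14) (.e (nat_lit 180243) (nat_lit 5) (.e (nat_lit 532513) (nat_lit 3) (.e (nat_lit 114714) (nat_lit 22) (.e (nat_lit 90165) (nat_lit 12) (.e (nat_lit 163853) (nat_lit 0) (.e (nat_lit 5950) (nat_lit 322) .nil)))))))) (.g (nat_lit 4) .nil .nil))) 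
(.lf (nat_lit 144753) (.g (nat_lit 2794) (.e (nat_lit 57371) (nat_lit 2) (.e (nat_lit 90172) (nat_lit 14) (.e (nat_lit 180243) (nat_lit 5) (.e (nat_lit 532515) (nat_lit 3) (.e (nat_lit 114718) (nat_lit 23) (.e (nat_lit 98334) (nat_lit 18) (.e (nat_lit 164396) (nat_lit 256) .nil))))))) (.g (nat_lit 5) .nil .nil))))) (.nd (nat_lit 4) (.nd (nat_lit 5) 
(.lf (nat_lit 144713) (.g (nat_lit 2647) (.e (nat_lit 57371) (nat_lit 2) (.e (nat_lit 90172) (nat_lit 14) (.e (nat_lit 180243) (nat_lit 5) (.e (nat_lit 532508) (nat_lit 2) (.e (nat_lit 114432) (nat_lit 13) (.e (nat_lit 122936) (nat_lit 23) (.e (nat_lit 516117) (nat_lit 1) (.e (nat_lit 164403) (nat_lit 256) .nil)))))))) (.g (nat_lit 4) .nil .nil))) 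
(.lf (nat_lit 144745) (.g (nat_lit 3394) (.e (nat_lit 57371) (nat_lit 2) (.e (nat_lit 90172) (nat_lit 14) (.e (nat_lit 180243) (nat_lit 5) (.e (nat_lit 532513) (nat_lit 3) (.e (nat_lit 114719) (nat_lit 23) (.e (nat_lit 98334) (nat_lit 18) (.e (nat_lit 164397) (nat_lit 256) .nil))))))) (.g (nat_lit 5) .nil .nil)))) (.nd (nat_lit 5) 
(.lf (nat_lit 144729) (.g (nat_lit 2621) (.e (nat_lit 57371) (nat_lit 2) (.e (nat_lit 90172) (nat_lit 14) (.e (nat_lit 180243) (nat_lit 5) (.e (nat_lit 532513) (nat_lit 3) (.e (nat_lit 114718) (nat_lit 23) (.e (nat_lit 98333) (nat_lit 18) (.e (nat_lit 164398) (nat_lit 256) .nil))))))) (.g (nat_lit 4) .nil .nil))) 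
(.lf (nat_lit 144761) (.g (nat_lit 3075) (.e (nat_lit 57371) (nat_lit 2) (.e (nat_lit 90172) (nat_lit 14) (.e (nat_lit 180243) (nat_lit 5) (.e (nat_lit 532515) (nat_lit 3) (.e (nat_lit 114719) (nat_lit 23) (.e (nat_lit 98334) (nat_lit 18) (.e (nat_lit 164396) (nat_lit 256) .nil))))))) (.g (nat_lit 5) .nil .nil)))))) (.nd (nat_lit 3) (.nd (nat_lit 4) (.nd (nat_lit 5) 
(.lf (nat_lit 144709) (.g (nat_lit 2174) (.e (nat_lit 57371) (nat_lit 2) (.e (nat_lit 90172) (nat_lit 14) (.e (nat_lit 180243) (nat_lit 5) (.e (nat_lit 532508) (nat_lit 2) (.e (nat_lit 106540) (nat_lit 13) (.e (nat_lit 122936) (nat_lit 23) (.e (nat_lit 516117) (nat_lit 1) (.e (nat_lit 164396) (nat_lit 256) .nil)))))))) (.g (nat_lit 4) .nil .nil))) 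
(.lf (nat_lit 144741) (.g (nat_lit 2737) (.e (nat_lit 57371) (nat_lit 2) (.e (nat_lit 90172) (nat_lit 14) (.e (nat_lit 180243) (nat_lit 5) (.e (nat_lit 532513) (nat_lit 3) (.e (nat_lit 114719) (nat_lit 23) (.e (nat_lit 98333) (nat_lit 18) (.e (nat_lit 164399) (nat_lit 256) .nil))))))) (.g (nat_lit 4) .nil .nil)))) (.nd (nat_lit 5) 
(.lf (nat_lit 144725) (.g (nat_lit 3795) (.e (nat_lit 57371) (nat_lit 2) (.e (nat_lit 90172) (nat_lit 14) (.e (nat_lit 180243) (nat_lit 5) (.e (nat_lit 532513) (nat_lit 3) (.e (nat_lit 114714) (nat_lit 22) (.e (nat_lit 90165) (nat_lit 12) (.e (nat_lit 163857) (nat_lit 0) (.e (nat_lit 5948) (nat_lit 322) .nil)))))))) (.g (nat_lit 5) .nil .nil))) 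
(.lf (nat_lit 144757) (.g (nat_lit 2158) (.e (nat_lit 57371) (nat_lit 2) (.e (nat_lit 90172) (nat_lit 14) (.e (nat_lit 180243) (nat_lit 5) (.e (nat_lit 532515) (nat_lit 3) (.e (nat_lit 114719) (nat_lit 23) (.e (nat_lit 98332) (nat_lit 18) (.e (nat_lit 164402) (nat_lit 256) .nil))))))) (.g (nat_lit 4) .nil .nil))))) (.nd (nat_lit 4) (.nd (nat_lit 5) 
(.lf (nat_lit 144717) (.g (nat_lit 2603) (.e (nat_lit 57371) (nat_lit 2) (.e (nat_lit 90172) (nat_lit 14) (.e (nat_lit 180243) (nat_lit 5) (.e (nat_lit 532511) (nat_lit 2) (.e (nat_lit 106539) (nat_lit 12) (.e (nat_lit 57466) (nat_lit 23) (.e (nat_lit 516119) (nat_lit 1) (.e (nat_lit 164403) (nat_lit 256) .nil)))))))) (.g (nat_lit 4) .nil .nil))) 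
(.lf (nat_lit 144749) (.g (nat_lit 2806) (.e (nat_lit 57371) (nat_lit 2) (.e (nat_lit 90172) (nat_lit 14) (.e (nat_lit 180243) (nat_lit 5) (.e (nat_lit 532515) (nat_lit 3) (.e (nat_lit 114715) (nat_lit 22) (.e (nat_lit 90165) (nat_lit 12) (.e (nat_lit 163857) (nat_lit 0) (.e (nat_lit 5948) (nat_lit 322) .nil)))))))) (.g (nat_lit 4) .nil .nil)))) (.nd (nat_lit 5) 
(.lf (nat_lit 144733) (.g (nat_lit 2557) (.e (nat_lit 57371) (nat_lit 2) (.e (nat_lit 90172) (nat_lit 14) (.e (nat_lit 180243) (nat_lit 5) (.e (nat_lit 532513) (nat_lit 3) (.e (nat_lit 114718) (nat_lit 23) (.e (nat_lit 98334) (nat_lit 18) (.e (nat_lit 164399) (nat_lit 256) .nil))))))) (.g (nat_lit 4) .nil .nil))) 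
(.lf (nat_lit 144765) (.g (nat_lit 4180) (.e (nat_lit 57371) (nat_lit 2) (.e (nat_lit 90172) (nat_lit 14) (.e (nat_lit 180243) (nat_lit 5) (.e (nat_lit 532515) (nat_lit 3) (.e (nat_lit 114719) (nat_lit 23) (.e (nat_lit 98335) (nat_lit 18) (.e (nat_lit 164403) (nat_lit 256) .nil))))))) (.g (nat_lit 6) .nil .nil))))))) (.nd (nat_lit 2) (.nd (nat_lit 3) (.nd (nat_lit 4) (.nd (nat_lit 5) 
(.lf (nat_lit 144707) (.g (nat_lit 1025) (.e (nat_lit 57371) (nat_lit 2) (.e (nat_lit 90172) (nat_lit 14) (.e (nat_lit 180243) (nat_lit 5) (.e (nat_lit 532508) (nat_lit 2) .nil)))) .nil)) 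
(.lf (nat_lit 144739) (.g (nat_lit 2842) (.e (nat_lit 57371) (nat_lit 2) (.e (nat_lit 90172) (nat_lit 14) (.e (nat_lit 180243) (nat_lit 5) (.e (nat_lit 532513) (nat_lit 3) (.e (nat_lit 114719) (nat_lit 23) (.e (nat_lit 98333) (nat_lit 18) (.e (nat_lit 164397) (nat_lit 256) .nil))))))) (.g (nat_lit 4) .nil .nil)))) (.nd (nat_lit 5) 
(.lf (nat_lit 144723) (.g (nat_lit 2753) (.e (nat_lit 57371) (nat_lit 2) (.e (nat_lit 90172) (nat_lit 14) (.e (nat_lit 180243) (nat_lit 5) (.e (nat_lit 532513) (nat_lit 3) (.e (nat_lit 114714) (nat_lit 22) (.e (nat_lit 90165) (nat_lit 12) (.e (nat_lit 163857) (nat_lit 0) (.e (nat_lit 5934) (nat_lit 322) .nil)))))))) (.g (nat_lit 4) .nil .nil))) 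
(.lf (nat_lit 144755) (.g (nat_lit 3761) (.e (nat_lit 57371) (nat_lit 2) (.e (nat_lit 90172) (nat_lit 14) (.e (nat_lit 180243) (nat_lit 5) (.e (nat_lit 532515) (nat_lit 3) (.e (nat_lit 114718) (nat_lit 23) (.e (nat_lit 98335) (nat_lit 18) (.e (nat_lit 164403) (nat_lit 256) .nil))))))) (.g (nat_lit 5) .nil .nil))))) (.nd (nat_lit 4) (.nd (nat_lit 5) 
(.lf (nat_lit 144715) (.g (nat_lit 2105) (.e (nat_lit 57371) (nat_lit 2) (.e (nat_lit 90172) (nat_lit 14) (.e (nat_lit 180243) (nat_lit 5) (.e (nat_lit 532510) (nat_lit 2) (.e (nat_lit 106540) (nat_lit 13) (.e (nat_lit 122936) (nat_lit 23) (.e (nat_lit 516117) (nat_lit 1) (.e (nat_lit 164396) (nat_lit 256) .nil)))))))) (.g (nat_lit 4) .nil .nil))) 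
(.lf (nat_lit 144747) (.g (nat_lit 2837) (.e (nat_lit 57371) (nat_lit 2) (.e (nat_lit 90172) (nat_lit 14) (.e (nat_lit 180243) (nat_lit 5) (.e (nat_lit 532513) (nat_lit 3) (.e (nat_lit 114719) (nat_lit 23) (.e (nat_lit 98335) (nat_lit 18) (.e (nat_lit 164396) (nat_lit 256) .nil))))))) (.g (nat_lit 4) .nil .nil)))) (.nd (nat_lit 5) 
(.lf (nat_lit 144731) (.g (nat_lit 4775) (.e (nat_lit 57371) (nat_lit 2) (.e (nat_lit 90172) (nat_lit 14) (.e (nat_lit 180243) (nat_lit 5) (.e (nat_lit 532513) (nat_lit 3) (.e (nat_lit 114718) (nat_lit 23) (.e (nat_lit 98333) (nat_lit 18) (.e (nat_lit 164403) (nat_lit 256) .nil))))))) (.g (nat_lit 6) .nil .nil))) 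
(.lf (nat_lit 144763) (.g (nat_lit 3546) (.e (nat_lit 57371) (nat_lit 2) (.e (nat_lit 90172) (nat_lit 14) (.e (nat_lit 180243) (nat_lit 5) (.e (nat_lit 532515) (nat_lit 3) (.e (nat_lit 114719) (nat_lit 23) (.e (nat_lit 98334) (nat_lit 18) (.e (nat_lit 164403) (nat_lit 256) .nil))))))) (.g (nat_lit 5) .nil .nil)))))) (.nd (nat_lit 3) (.nd (nat_lit 4) (.nd (nat_lit 5) 
(.lf (nat_lit 144711) (.g (nat_lit 1941) (.e (nat_lit 57371) (nat_lit 2) (.e (nat_lit 90172) (nat_lit 14) (.e (nat_lit 180243) (nat_lit 5) (.e (nat_lit 532508) (nat_lit 2) (.e (nat_lit 106541) (nat_lit 13) (.e (nat_lit 122936) (nat_lit 23) (.e (nat_lit 516117) (nat_lit 1) (.e (nat_lit 164396) (nat_lit 256) .nil)))))))) (.g (nat_lit 4) .nil .nil))) 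
(.lf (nat_lit 144743) (.g (nat_lit 4537) (.e (nat_lit 57371) (nat_lit 2) (.e (nat_lit 90172) (nat_lit 14) (.e (nat_lit 180243) (nat_lit 5) (.e (nat_lit 532513) (nat_lit 3) (.e (nat_lit 114719) (nat_lit 23) (.e (nat_lit 98333) (nat_lit 18) (.e (nat_lit 164403) (nat_lit 256) .nil))))))) (.g (nat_lit 6) .nil .nil)))) (.nd (nat_lit 5) 
(.lf (nat_lit 144727) (.g (nat_lit 2521) (.e (nat_lit 57371) (nat_lit 2) (.e (nat_lit 90172) (nat_lit 14) (.e (nat_lit 180243) (nat_lit 5) (.e (nat_lit 532513) (nat_lit 3) (.e (nat_lit 114718) (nat_lit 23) (.e (nat_lit 98325) (nat_lit 17) (.e (nat_lit 2515) (nat_lit 157) (.e (nat_lit 5934) (nat_lit 322) .nil)))))))) (.g (nat_lit 4) .nil .nil))) 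
(.lf (nat_lit 144759) (.g (nat_lit 2206) (.e (nat_lit 57371) (nat_lit 2) (.e (nat_lit 90172) (nat_lit 14) (.e (nat_lit 180243) (nat_lit 5) (.e (nat_lit 532515) (nat_lit 3) (.e (nat_lit 114719) (nat_lit 23) (.e (nat_lit 98333) (nat_lit 18) (.e (nat_lit 164397) (nat_lit 256) .nil))))))) (.g (nat_lit 4) .nil .nil))))) (.nd (nat_lit 4) (.nd (nat_lit 5) 
(.lf (nat_lit 144719) (.g (nat_lit 2600) (.e (nat_lit 57371) (nat_lit 2) (.e (nat_lit 90172) (nat_lit 14) (.e (nat_lit 180243) (nat_lit 5) (.e (nat_lit 532511) (nat_lit 2) (.e (nat_lit 106540) (nat_lit 13) (.e (nat_lit 122936) (nat_lit 23) (.e (nat_lit 516117) (nat_lit 1) (.e (nat_lit 164403) (nat_lit 256) .nil)))))))) (.g (nat_lit 4) .nil .nil))) 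
(.lf (nat_lit 144751) (.g (nat_lit 3411) (.e (nat_lit 57371) (nat_lit 2) (.e (nat_lit 90172) (nat_lit 14) (.e (nat_lit 180243) (nat_lit 5) (.e (nat_lit 532515) (nat_lit 3) (.e (nat_lit 114716) (nat_lit 22) (.e (nat_lit 90140) (nat_lit 9) (.e (nat_lit 2611) (nat_lit 163) (.e (nat_lit 164402) (nat_lit 256) .nil)))))))) (.g (nat_lit 5) .nil .nil)))) (.nd (nat_lit 5) 
(.lf (nat_lit 144735) (.g (nat_lit 4254) (.e (nat_lit 57371) (nat_lit 2) (.e (nat_lit 90172) (nat_lit 14) (.e (nat_lit 180243) (nat_lit 5) (.e (nat_lit 532513) (nat_lit 3) (.e (nat_lit 114718) (nat_lit 23) (.e (nat_lit 98334) (nat_lit 18) (.e (nat_lit 164403) (nat_lit 256) .nil))))))) (.g (nat_lit 6) .nil .nil))) 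
(.lf (nat_lit 144767) (.g (nat_lit 1276) (.e (nat_lit 57371) (nat_lit 2) (.e (nat_lit 90172) (nat_lit 14) (.e (nat_lit 180244) (nat_lit 5) (.e (nat_lit 532506) (nat_lit 2) .nil)))) .nil))))))))

noncomputable def tv1921 : DT := (.nd (nat_lit 0) (.nd (nat_lit 1) (.nd (nat_lit 2) (.nd (nat_lit 3) (.nd (nat_lit 4) (.nd (nat_lit 5) 
(.lf (nat_lit 144768) (.g (nat_lit 2310) (.e (nat_lit 57371) (nat_lit 2) (.e (nat_lit 90172) (nat_lit 14) (.e (nat_lit 180244) (nat_lit 5) (.e (nat_lit 532506) (nat_lit 2) (.e (nat_lit 106539) (nat_lit 12) (.e (nat_lit 57465) (nat_lit 23) (.e (nat_lit 516119) (nat_lit 1) (.e (nat_lit 164403) (nat_lit 256) .nil)))))))) (.g (nat_lit 4) .nil .nil))) 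
(.lf (nat_lit 144800) (.g (nat_lit 4494) (.e (nat_lit 57371) (nat_lit 2) (.e (nat_lit 90172) (nat_lit 14) (.e (nat_lit 180244) (nat_lit 5) (.e (nat_lit 532513) (nat_lit 3) (.e (nat_lit 114718) (nat_lit 23) (.e (nat_lit 98334) (nat_lit 18) (.e (nat_lit 164403) (nat_lit 256) .nil))))))) (.g (nat_lit 7) .nil .nil)))) (.nd (nat_lit 5) 
(.lf (nat_lit 144784) (.g (nat_lit 2881) (.e (nat_lit 57371) (nat_lit 2) (.e (nat_lit 90172) (nat_lit 14) (.e (nat_lit 180244) (nat_lit 5) (.e (nat_lit 532513) (nat_lit 3) (.e (nat_lit 114714) (nat_lit 22) (.e (nat_lit 90165) (nat_lit 12) (.e (nat_lit 163855) (nat_lit 0) (.e (nat_lit 5944) (nat_lit 322) .nil)))))))) (.g (nat_lit 4) .nil .nil))) 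
(.lf (nat_lit 144816) (.g (nat_lit 4856) (.e (nat_lit 57371) (nat_lit 2) (.e (nat_lit 90172) (nat_lit 14) (.e (nat_lit 180244) (nat_lit 5) (.e (nat_lit 532513) (nat_lit 3) (.e (nat_lit 114719) (nat_lit 23) (.e (nat_lit 98335) (nat_lit 18) (.e (nat_lit 164403) (nat_lit 256) .nil))))))) (.g (nat_lit 7) .nil .nil))))) (.nd (nat_lit 4) (.nd (nat_lit 5) 
(.lf (nat_lit 144776) (.g (nat_lit 2159) (.e (nat_lit 57371) (nat_lit 2) (.e (nat_lit 90172) (nat_lit 14) (.e (nat_lit 180244) (nat_lit 5) (.e (nat_lit 532508) (nat_lit 2) (.e (nat_lit 106541) (nat_lit 13) (.e (nat_lit 122936) (nat_lit 23) (.e (nat_lit 516117) (nat_lit 1) (.e (nat_lit 164403) (nat_lit 256) .nil)))))))) (.g (nat_lit 4) .nil .nil))) 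
(.lf (nat_lit 144808) (.g (nat_lit 3358) (.e (nat_lit 57371) (nat_lit 2) (.e (nat_lit 90172) (nat_lit 14) (.e (nat_lit 180244) (nat_lit 5) (.e (nat_lit 532513) (nat_lit 3) (.e (nat_lit 114719) (nat_lit 23) (.e (nat_lit 98333) (nat_lit 18) (.e (nat_lit 164398) (nat_lit 256) .nil))))))) (.g (nat_lit 5) .nil .nil)))) (.nd (nat_lit 5) 
(.lf (nat_lit 144792) (.g (nat_lit 2242) (.e (nat_lit 57371) (nat_lit 2) (.e (nat_lit 90172) (nat_lit 14) (.e (nat_lit 180244) (nat_lit 5) (.e (nat_lit 532513) (nat_lit 3) (.e (nat_lit 114718) (nat_lit 23) (.e (nat_lit 98332) (nat_lit 18) (.e (nat_lit 164396) (nat_lit 256) .nil))))))) (.g (nat_lit 4) .nil .nil))) 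
(.lf (nat_lit 144824) (.g (nat_lit 1016) (.e (nat_lit 57371) (nat_lit 2) (.e (nat_lit 90172) (nat_lit 14) (.e (nat_lit 180244) (nat_lit 5) (.e (nat_lit 532515) (nat_lit 3) .nil)))) .nil))))) (.nd (nat_lit 3) (.nd (nat_lit 4) (.nd (nat_lit 5) 
(.lf (nat_lit 144772) (.g (nat_lit 1653) (.e (nat_lit 57371) (nat_lit 2) (.e (nat_lit 90172) (nat_lit 14) (.e (nat_lit 180244) (nat_lit 5) (.e (nat_lit 532508) (nat_lit 2) (.e (nat_lit 106517) (nat_lit 9) .nil))))) .nil)) 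
(.lf (nat_lit 144804) (.g (nat_lit 3381) (.e (nat_lit 57371) (nat_lit 2) (.e (nat_lit 90172) (nat_lit 14) (.e (nat_lit 180244) (nat_lit 5) (.e (nat_lit 532513) (nat_lit 3) (.e (nat_lit 114719) (nat_lit 23) (.e (nat_lit 98325) (nat_lit 17) (.e (nat_lit 2515) (nat_lit 157) (.e (nat_lit 5934) (nat_lit 322) .nil)))))))) (.g (nat_lit 5) .nil .nil)))) (.nd (nat_lit 5) 
(.lf (nat_lit 144788) (.g (nat_lit 2553) (.e (nat_lit 57371) (nat_lit 2) (.e (nat_lit 90172) (nat_lit 14) (.e (nat_lit 180244) (nat_lit 5) (.e (nat_lit 532513) (nat_lit 3) (.e (nat_lit 114717) (nat_lit 23) (.e (nat_lit 98334) (nat_lit 18) (.e (nat_lit 164397) (nat_lit 256) .nil))))))) (.g (nat_lit 4) .nil .nil))) 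
(.lf (nat_lit 144820) (.g (nat_lit 2274) (.e (nat_lit 57371) (nat_lit 2) (.e (nat_lit 90172) (nat_lit 14) (.e (nat_lit 180244) (nat_lit 5) (.e (nat_lit 532514) (nat_lit 3) (.e (nat_lit 114718) (nat_lit 23) (.e (nat_lit 98334) (nat_lit 18) (.e (nat_lit 164397) (nat_lit 256) .nil))))))) (.g (nat_lit 4) .nil .nil))))) (.nd (nat_lit 4) (.nd (nat_lit 5) 
(.lf (nat_lit 144780) (.g (nat_lit 3521) (.e (nat_lit 57371) (nat_lit 2) (.e (nat_lit 90172) (nat_lit 14) (.e (nat_lit 180244) (nat_lit 5) (.e (nat_lit 532513) (nat_lit 3) (.e (nat_lit 114714) (nat_lit 22) (.e (nat_lit 90134) (nat_lit 9) (.e (nat_lit 2717) (nat_lit 171) (.e (nat_lit 229707) (nat_lit 256) .nil)))))))) (.g (nat_lit 5) .nil .nil))) 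
(.lf (nat_lit 144812) (.g (nat_lit 3438) (.e (nat_lit 57371) (nat_lit 2) (.e (nat_lit 90172) (nat_lit 14) (.e (nat_lit 180244) (nat_lit 5) (.e (nat_lit 532513) (nat_lit 3) (.e (nat_lit 114719) (nat_lit 23) (.e (nat_lit 98334) (nat_lit 18) (.e (nat_lit 164401) (nat_lit 256) .nil))))))) (.g (nat_lit 5) .nil .nil)))) (.nd (nat_lit 5) 
(.lf (nat_lit 144796) (.g (nat_lit 4981) (.e (nat_lit 57371) (nat_lit 2) (.e (nat_lit 90172) (nat_lit 14) (.e (nat_lit 180244) (nat_lit 5) (.e (nat_lit 532513) (nat_lit 3) (.e (nat_lit 114718) (nat_lit 23) (.e (nat_lit 98333) (nat_lit 18) (.e (nat_lit 164403) (nat_lit 256) .nil))))))) (.g (nat_lit 7) .nil .nil))) 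
(.lf (nat_lit 144828) (.g (nat_lit 2875) (.e (nat_lit 57371) (nat_lit 2) (.e (nat_lit 90172) (nat_lit 14) (.e (nat_lit 180244) (nat_lit 5) (.e (nat_lit 532515) (nat_lit 3) (.e (nat_lit 114716) (nat_lit 22) (.e (nat_lit 90181) (nat_lit 16) (.e (nat_lit 229376) (nat_lit 0) (.e (nat_lit 5950) (nat_lit 322) .nil)))))))) (.g (nat_lit 5) .nil .nil))))))) 
(.nd (nat_lit 2) (.nd (nat_lit 3) (.nd (nat_lit 4) (.nd (nat_lit 5) 
(.lf (nat_lit 144770) (.g (nat_lit 1278) (.e (nat_lit 57371) (nat_lit 2) (.e (nat_lit 90172) (nat_lit 14) (.e (nat_lit 180244) (nat_lit 5) (.e (nat_lit 532508) (nat_lit 2) .nil)))) .nil)) 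
(.lf (nat_lit 144802) (.g (nat_lit 2688) (.e (nat_lit 57371) (nat_lit 2) (.e (nat_lit 90172) (nat_lit 14) (.e (nat_lit 180244) (nat_lit 5) (.e (nat_lit 532513) (nat_lit 3) (.e (nat_lit 114718) (nat_lit 23) (.e (nat_lit 98343) (nat_lit 21) (.e (nat_lit 229707) (nat_lit 256) .nil))))))) (.g (nat_lit 4) .nil .nil)))) (.nd (nat_lit 5) 
(.lf (nat_lit 144786) (.g (nat_lit 2273) (.e (nat_lit 57371) (nat_lit 2) (.e (nat_lit 90172) (nat_lit 14) (.e (nat_lit 180244) (nat_lit 5) (.e (nat_lit 532513) (nat_lit 3) (.e (nat_lit 114714) (nat_lit 22) (.e (nat_lit 90181) (nat_lit 16) (.e (nat_lit 229376) (nat_lit 0) (.e (nat_lit 5950) (nat_lit 322) .nil)))))))) (.g (nat_lit 4) .nil .nil))) 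
(.lf (nat_lit 144818) (.g (nat_lit 1650) (.e (nat_lit 57371) (nat_lit 2) (.e (nat_lit 90172) (nat_lit 14) (.e (nat_lit 180244) (nat_lit 5) (.e (nat_lit 532514) (nat_lit 3) (.e (nat_lit 114718) (nat_lit 23) .nil))))) .nil)))) (.nd (nat_lit 4) (.nd (nat_lit 5) 
(.lf (nat_lit 144778) (.g (nat_lit 2091) (.e (nat_lit 57371) (nat_lit 2) (.e (nat_lit 90172) (nat_lit 14) (.e (nat_lit 180244) (nat_lit 5) (.e (nat_lit 532513) (nat_lit 3) (.e (nat_lit 114704) (nat_lit 20) .nil))))) .nil)) 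
(.lf (nat_lit 144810) (.g (nat_lit 4317) (.e (nat_lit 57371) (nat_lit 2) (.e (nat_lit 90172) (nat_lit 14) (.e (nat_lit 180244) (nat_lit 5) (.e (nat_lit 532513) (nat_lit 3) (.e (nat_lit 114719) (nat_lit 23) (.e (nat_lit 98334) (nat_lit 18) (.e (nat_lit 164397) (nat_lit 256) .nil))))))) (.g (nat_lit 6) .nil .nil)))) (.nd (nat_lit 5) 
(.lf (nat_lit 144794) (.g (nat_lit 3772) (.e (nat_lit 57371) (nat_lit 2) (.e (nat_lit 90172) (nat_lit 14) (.e (nat_lit 180244) (nat_lit 5) (.e (nat_lit 532513) (nat_lit 3) (.e (nat_lit 114718) (nat_lit 23) (.e (nat_lit 98333) (nat_lit 18) (.e (nat_lit 164397) (nat_lit 256) .nil))))))) (.g (nat_lit 6) .nil .nil))) 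
(.lf (nat_lit 144826) (.g (nat_lit 2932) (.e (nat_lit 57371) (nat_lit 2) (.e (nat_lit 90172) (nat_lit 14) (.e (nat_lit 180244) (nat_lit 5) (.e (nat_lit 532515) (nat_lit 3) (.e (nat_lit 114716) (nat_lit 22) (.e (nat_lit 90181) (nat_lit 16) (.e (nat_lit 229376) (nat_lit 0) (.e (nat_lit 5934) (nat_lit 322) .nil)))))))) (.g (nat_lit 5) .nil .nil)))))) 
(.nd (nat_lit 3) (.nd (nat_lit 4) (.nd (nat_lit 5) 
(.lf (nat_lit 144774) (.g (nat_lit 2485) (.e (nat_lit 57371) (nat_lit 2) (.e (nat_lit 90172) (nat_lit 14) (.e (nat_lit 180244) (nat_lit 5) (.e (nat_lit 532508) (nat_lit 2) (.e (nat_lit 106540) (nat_lit 13) (.e (nat_lit 122936) (nat_lit 23) (.e (nat_lit 516117) (nat_lit 1) (.e (nat_lit 164403) (nat_lit 256) .nil)))))))) (.g (nat_lit 4) .nil .nil))) 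
(.lf (nat_lit 144806) (.g (nat_lit 3423) (.e (nat_lit 57371) (nat_lit 2) (.e (nat_lit 90172) (nat_lit 14) (.e (nat_lit 180244) (nat_lit 5) (.e (nat_lit 532513) (nat_lit 3) (.e (nat_lit 114719) (nat_lit 23) (.e (nat_lit 98332) (nat_lit 18) (.e (nat_lit 164403) (nat_lit 256) .nil))))))) (.g (nat_lit 5) .nil .nil)))) (.nd (nat_lit 5) 
(.lf (nat_lit 144790) (.g (nat_lit 2287) (.e (nat_lit 57371) (nat_lit 2) (.e (nat_lit 90172) (nat_lit 14) (.e (nat_lit 180244) (nat_lit 5) (.e (nat_lit 532513) (nat_lit 3) (.e (nat_lit 114717) (nat_lit 23) (.e (nat_lit 98335) (nat_lit 18) (.e (nat_lit 164403) (nat_lit 256) .nil))))))) (.g (nat_lit 4) .nil .nil))) 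
(.lf (nat_lit 144822) (.g (nat_lit 2628) (.e (nat_lit 57371) (nat_lit 2) (.e (nat_lit 90172) (nat_lit 14) (.e (nat_lit 180244) (nat_lit 5) (.e (nat_lit 532514) (nat_lit 3) (.e (nat_lit 114719) (nat_lit 23) (.e (nat_lit 98334) (nat_lit 18) (.e (nat_lit 164396) (nat_lit 256) .nil))))))) (.g (nat_lit 5) .nil .nil))))) (.nd (nat_lit 4) (.nd (nat_lit 5) 
(.lf (nat_lit 144782) (.g (nat_lit 3481) (.e (nat_lit 57371) (nat_lit 2) (.e (nat_lit 90172) (nat_lit 14) (.e (nat_lit 180244) (nat_lit 5) (.e (nat_lit 532513) (nat_lit 3) (.e (nat_lit 114714) (nat_lit 22) (.e (nat_lit 90164) (nat_lit 12) (.e (nat_lit 163850) (nat_lit 0) (.e (nat_lit 5951) (nat_lit 322) .nil)))))))) (.g (nat_lit 5) .nil .nil))) 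
(.lf (nat_lit 144814) (.g (nat_lit 3694) (.e (nat_lit 57371) (nat_lit 2) (.e (nat_lit 90172) (nat_lit 14) (.e (nat_lit 180244) (nat_lit 5) (.e (nat_lit 532513) (nat_lit 3) (.e (nat_lit 114719) (nat_lit 23) (.e (nat_lit 98335) (nat_lit 18) (.e (nat_lit 164396) (nat_lit 256) .nil))))))) (.g (nat_lit 5) .nil .nil)))) (.nd (nat_lit 5) 
(.lf (nat_lit 144798) (.g (nat_lit 4257) (.e (nat_lit 57371) (nat_lit 2) (.e (nat_lit 90172) (nat_lit 14) (.e (nat_lit 180244) (nat_lit 5) (.e (nat_lit 532513) (nat_lit 3) (.e (nat_lit 114718) (nat_lit 23) (.e (nat_lit 98334) (nat_lit 18) (.e (nat_lit 164397) (nat_lit 256) .nil))))))) (.g (nat_lit 6) .nil .nil))) 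
(.lf (nat_lit 144830) (.g (nat_lit 2862) (.e (nat_lit 57371) (nat_lit 2) (.e (nat_lit 90172) (nat_lit 14) (.e (nat_lit 180244) (nat_lit 5) (.e (nat_lit 532515) (nat_lit 3) (.e (nat_lit 114716) (nat_lit 22) (.e (nat_lit 90181) (nat_lit 16) (.e (nat_lit 229381) (nat_lit 0) (.e (nat_lit 5947) (nat_lit 322) .nil)))))))) (.g (nat_lit 5) .nil .nil)))))))) 
(.nd (nat_lit 1) (.nd (nat_lit 2) (.nd (nat_lit 3) (.nd (nat_lit 4) (.nd (nat_lit 5) 
(.lf (nat_lit 144769) (.g (nat_lit 2284) (.e (nat_lit 57371) (nat_lit 2) (.e (nat_lit 90172) (nat_lit 14) (.e (nat_lit 180244) (nat_lit 5) (.e (nat_lit 532506) (nat_lit 2) (.e (nat_lit 106540) (nat_lit 13) (.e (nat_lit 122936) (nat_lit 23) (.e (nat_lit 516117) (nat_lit 1) (.e (nat_lit 164403) (nat_lit 256) .nil)))))))) (.g (nat_lit 4) .nil .nil))) 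
(.lf (nat_lit 144801) (.g (nat_lit 3334) (.e (nat_lit 57371) (nat_lit 2) (.e (nat_lit 90172) (nat_lit 14) (.e (nat_lit 180244) (nat_lit 5) (.e (nat_lit 532513) (nat_lit 3) (.e (nat_lit 114718) (nat_lit 23) (.e (nat_lit 98335) (nat_lit 18) (.e (nat_lit 164396) (nat_lit 256) .nil))))))) (.g (nat_lit 5) .nil .nil)))) (.nd (nat_lit 5) 
(.lf (nat_lit 144785) (.g (nat_lit 2959) (.e (nat_lit 57371) (nat_lit 2) (.e (nat_lit 90172) (nat_lit 14) (.e (nat_lit 180244) (nat_lit 5) (.e (nat_lit 532513) (nat_lit 3) (.e (nat_lit 114714) (nat_lit 22) (.e (nat_lit 90165) (nat_lit 12) (.e (nat_lit 163857) (nat_lit 0) (.e (nat_lit 5949) (nat_lit 322) .nil)))))))) (.g (nat_lit 4) .nil .nil))) 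
(.lf (nat_lit 144817) (.g (nat_lit 1263) (.e (nat_lit 57371) (nat_lit 2) (.e (nat_lit 90172) (nat_lit 14) (.e (nat_lit 180244) (nat_lit 5) (.e (nat_lit 532514) (nat_lit 3) .nil)))) .nil)))) (.nd (nat_lit 4) (.nd (nat_lit 5) 
(.lf (nat_lit 144777) (.g (nat_lit 1035) (.e (nat_lit 57371) (nat_lit 2) (.e (nat_lit 90172) (nat_lit 14) (.e (nat_lit 180244) (nat_lit 5) (.e (nat_lit 532513) (nat_lit 3) .nil)))) .nil)) 
(.lf (nat_lit 144809) (.g (nat_lit 4835) (.e (nat_lit 57371) (nat_lit 2) (.e (nat_lit 90172) (nat_lit 14) (.e (nat_lit 180244) (nat_lit 5) (.e (nat_lit 532513) (nat_lit 3) (.e (nat_lit 114719) (nat_lit 23) (.e (nat_lit 98333) (nat_lit 18) (.e (nat_lit 164403) (nat_lit 256) .nil))))))) (.g (nat_lit 7) .nil .nil)))) (.nd (nat_lit 5) 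
(.lf (nat_lit 144793) (.g (nat_lit 2207) (.e (nat_lit 57371) (nat_lit 2) (.e (nat_lit 90172) (nat_lit 14) (.e (nat_lit 180244) (nat_lit 5) (.e (nat_lit 532513) (nat_lit 3) (.e (nat_lit 114718) (nat_lit 23) (.e (nat_lit 98332) (nat_lit 18) (.e (nat_lit 164402) (nat_lit 256) .nil))))))) (.g (nat_lit 4) .nil .nil))) 
(.lf (nat_lit 144825) (.g (nat_lit 2736) (.e (nat_lit 57371) (nat_lit 2) (.e (nat_lit 90172) (nat_lit 14) (.e (nat_lit 180244) (nat_lit 5) (.e (nat_lit 532515) (nat_lit 3) (.e (nat_lit 114716) (nat_lit 22) (.e (nat_lit 90121) (nat_lit 9) (.e (nat_lit 2611) (nat_lit 163) (.e (nat_lit 164396) (nat_lit 256) .nil)))))))) (.g (nat_lit 5) .nil .nil)))))) 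
(.nd (nat_lit 3) (.nd (nat_lit 4) (.nd (nat_lit 5) 
(.lf (nat_lit 144773) (.g (nat_lit 2357) (.e (nat_lit 57371) (nat_lit 2) (.e (nat_lit 90172) (nat_lit 14) (.e (nat_lit 180244) (nat_lit 5) (.e (nat_lit 532508) (nat_lit 2) (.e (nat_lit 106538) (nat_lit 12) (.e (nat_lit 57465) (nat_lit 23) (.e (nat_lit 516119) (nat_lit 1) (.e (nat_lit 164403) (nat_lit 256) .nil)))))))) (.g (nat_lit 4) .nil .nil))) 
(.lf (nat_lit 144805) (.g (nat_lit 2739) (.e (nat_lit 57371) (nat_lit 2) (.e (nat_lit 90172) (nat_lit 14) (.e (nat_lit 180244) (nat_lit 5) (.e (nat_lit 532513) (nat_lit 3) (.e (nat_lit 114719) (nat_lit 23) (.e (nat_lit 98332) (nat_lit 18) (.e (nat_lit 164397) (nat_lit 256) .nil))))))) (.g (nat_lit 4) .nil .nil)))) (.nd (nat_lit 5) 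
(.lf (nat_lit 144789) (.g (nat_lit 2823) (.e (nat_lit 57371) (nat_lit 2) (.e (nat_lit 90172) (nat_lit 14) (.e (nat_lit 180244) (nat_lit 5) (.e (nat_lit 532513) (nat_lit 3) (.e (nat_lit 114717) (nat_lit 23) (.e (nat_lit 98334) (nat_lit 18) (.e (nat_lit 164398) (nat_lit 256) .nil))))))) (.g (nat_lit 4) .nil .nil))) 
(.lf (nat_lit 144821) (.g (nat_lit 2201) (.e (nat_lit 57371) (nat_lit 2) (.e (nat_lit 90172) (nat_lit 14) (.e (nat_lit 180244) (nat_lit 5) (.e (nat_lit 532514) (nat_lit 3) (.e (nat_lit 114718) (nat_lit 23) (.e (nat_lit 98334) (nat_lit 18) (.e (nat_lit 164403) (nat_lit 256) .nil))))))) (.g (nat_lit 4) .nil .nil))))) (.nd (nat_lit 4) (.nd (nat_lit 5) 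
(.lf (nat_lit 144781) (.g (nat_lit 3295) (.e (nat_lit 57371) (nat_lit 2) (.e (nat_lit 90172) (nat_lit 14) (.e (nat_lit 180244) (nat_lit 5) (.e (nat_lit 532513) (nat_lit 3) (.e (nat_lit 114714) (nat_lit 22) (.e (nat_lit 90162) (nat_lit 12) (.e (nat_lit 163849) (nat_lit 0) (.e (nat_lit 5934) (nat_lit 322) .nil)))))))) (.g (nat_lit 5) .nil .nil))) 
(.lf (nat_lit 144813) (.g (nat_lit 3956) (.e (nat_lit 57371) (nat_lit 2) (.e (nat_lit 90172) (nat_lit 14) (.e (nat_lit 180244) (nat_lit 5) (.e (nat_lit 532513) (nat_lit 3) (.e (nat_lit 114719) (nat_lit 23) (.e (nat_lit 98334) (nat_lit 18) (.e (nat_lit 164402) (nat_lit 256) .nil))))))) (.g (nat_lit 6) .nil .nil)))) (.nd (nat_lit 5) 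
(.lf (nat_lit 144797) (.g (nat_lit 4657) (.e (nat_lit 57371) (nat_lit 2) (.e (nat_lit 90172) (nat_lit 14) (.e (nat_lit 180244) (nat_lit 5) (.e (nat_lit 532513) (nat_lit 3) (.e (nat_lit 114718) (nat_lit 23) (.e (nat_lit 98334) (nat_lit 18) (.e (nat_lit 164396) (nat_lit 256) .nil))))))) (.g (nat_lit 7) .nil .nil))) 
(.lf (nat_lit 144829) (.g (nat_lit 2803) (.e (nat_lit 57371) (nat_lit 2) (.e (nat_lit 90172) (nat_lit 14) (.e (nat_lit 180244) (nat_lit 5) (.e (nat_lit 532515) (nat_lit 3) (.e (nat_lit 114716) (nat_lit 22) (.e (nat_lit 90181) (nat_lit 16) (.e (nat_lit 229380) (nat_lit 0) (.e (nat_lit 5950) (nat_lit 322) .nil)))))))) (.g (nat_lit 5) .nil .nil))))))) 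
(.nd (nat_lit 2) (.nd (nat_lit 3) (.nd (nat_lit 4) (.nd (nat_lit 5) 
(.lf (nat_lit 144771) (.g (nat_lit 1715) (.e (nat_lit 57371) (nat_lit 2) (.e (nat_lit 90172) (nat_lit 14) (.e (nat_lit 180244) (nat_lit 5) (.e (nat_lit 532508) (nat_lit 2) (.e (nat_lit 114432) (nat_lit 0) .nil))))) .nil)) 
(.lf (nat_lit 144803) (.g (nat_lit 2594) (.e (nat_lit 57371) (nat_lit 2) (.e (nat_lit 90172) (nat_lit 14) (.e (nat_lit 180244) (nat_lit 5) (.e (nat_lit 532513) (nat_lit 3) (.e (nat_lit 114719) (nat_lit 23) (.e (nat_lit 98325) (nat_lit 17) (.e (nat_lit 2478) (nat_lit 157) (.e (nat_lit 5950) (nat_lit 322) .nil)))))))) (.g (nat_lit 4) .nil .nil)))) (.nd (nat_lit 5) 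
(.lf (nat_lit 144787) (.g (nat_lit 1935) (.e (nat_lit 57371) (nat_lit 2) (.e (nat_lit 90172) (nat_lit 14) (.e (nat_lit 180244) (nat_lit 5) (.e (nat_lit 532513) (nat_lit 3) (.e (nat_lit 114717) (nat_lit 23) .nil))))) .nil)) 
(.lf (nat_lit 144819) (.g (nat_lit 2680) (.e (nat_lit 57371) (nat_lit 2) (.e (nat_lit 90172) (nat_lit 14) (.e (nat_lit 180244) (nat_lit 5) (.e (nat_lit 532514) (nat_lit 3) (.e (nat_lit 114718) (nat_lit 23) (.e (nat_lit 98334) (nat_lit 18) (.e (nat_lit 164396) (nat_lit 256) .nil))))))) (.g (nat_lit 5) .nil .nil))))) (.nd (nat_lit 4) (.nd (nat_lit 5) 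
(.lf (nat_lit 144779) (.g (nat_lit 2669) (.e (nat_lit 57371) (nat_lit 2) (.e (nat_lit 90172) (nat_lit 14) (.e (nat_lit 180244) (nat_lit 5) (.e (nat_lit 532513) (nat_lit 3) (.e (nat_lit 114708) (nat_lit 20) (.e (nat_lit 1800) (nat_lit 119) (.e (nat_lit 516117) (nat_lit 1) (.e (nat_lit 164397) (nat_lit 256) .nil)))))))) (.g (nat_lit 4) .nil .nil))) 
(.lf (nat_lit 144811) (.g (nat_lit 3347) (.e (nat_lit 57371) (nat_lit 2) (.e (nat_lit 90172) (nat_lit 14) (.e (nat_lit 180244) (nat_lit 5) (.e (nat_lit 532513) (nat_lit 3) (.e (nat_lit 114719) (nat_lit 23) (.e (nat_lit 98334) (nat_lit 18) (.e (nat_lit 164399) (nat_lit 256) .nil))))))) (.g (nat_lit 5) .nil .nil)))) (.nd (nat_lit 5) 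
(.lf (nat_lit 144795) (.g (nat_lit 3444) (.e (nat_lit 57371) (nat_lit 2) (.e (nat_lit 90172) (nat_lit 14) (.e (nat_lit 180244) (nat_lit 5) (.e (nat_lit 532513) (nat_lit 3) (.e (nat_lit 114718) (nat_lit 23) (.e (nat_lit 98333) (nat_lit 18) (.e (nat_lit 164398) (nat_lit 256) .nil))))))) (.g (nat_lit 5) .nil .nil))) 
(.lf (nat_lit 144827) (.g (nat_lit 2757) (.e (nat_lit 57371) (nat_lit 2) (.e (nat_lit 90172) (nat_lit 14) (.e (nat_lit 180244) (nat_lit 5) (.e (nat_lit 532515) (nat_lit 3) (.e (nat_lit 114716) (nat_lit 22) (.e (nat_lit 90181) (nat_lit 16) (.e (nat_lit 229376) (nat_lit 0) (.e (nat_lit 5935) (nat_lit 322) .nil)))))))) (.g (nat_lit 5) .nil .nil)))))) 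
(.nd (nat_lit 3) (.nd (nat_lit 4) (.nd (nat_lit 5) 
(.lf (nat_lit 144775) (.g (nat_lit 2287) (.e (nat_lit 57371) (nat_lit 2) (.e (nat_lit 90172) (nat_lit 14) (.e (nat_lit 180244) (nat_lit 5) (.e (nat_lit 532508) (nat_lit 2) (.e (nat_lit 106541) (nat_lit 13) (.e (nat_lit 122936) (nat_lit 23) (.e (nat_lit 516117) (nat_lit 1) (.e (nat_lit 164396) (nat_lit 256) .nil)))))))) (.g (nat_lit 4) .nil .nil))) 
(.lf (nat_lit 144807) (.g (nat_lit 3757) (.e (nat_lit 57371) (nat_lit 2) (.e (nat_lit 90172) (nat_lit 14) (.e (nat_lit 180244) (nat_lit 5) (.e (nat_lit 532513) (nat_lit 3) (.e (nat_lit 114719) (nat_lit 23) (.e (nat_lit 98333) (nat_lit 18) (.e (nat_lit 164397) (nat_lit 256) .nil))))))) (.g (nat_lit 6) .nil .nil)))) (.nd (nat_lit 5) 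
(.lf (nat_lit 144791) (.g (nat_lit 2497) (.e (nat_lit 57371) (nat_lit 2) (.e (nat_lit 90172) (nat_lit 14) (.e (nat_lit 180244) (nat_lit 5) (.e (nat_lit 532513) (nat_lit 3) (.e (nat_lit 114718) (nat_lit 23) (.e (nat_lit 98325) (nat_lit 17) (.e (nat_lit 2478) (nat_lit 157) (.e (nat_lit 5950) (nat_lit 322) .nil)))))))) (.g (nat_lit 4) .nil .nil))) 
(.lf (nat_lit 144823) (.g (nat_lit 2245) (.e (nat_lit 57371) (nat_lit 2) (.e (nat_lit 90172) (nat_lit 14) (.e (nat_lit 180244) (nat_lit 5) (.e (nat_lit 532514) (nat_lit 3) (.e (nat_lit 114719) (nat_lit 23) (.e (nat_lit 98334) (nat_lit 18) (.e (nat_lit 164397) (nat_lit 256) .nil))))))) (.g (nat_lit 4) .nil .nil))))) (.nd (nat_lit 4) (.nd (nat_lit 5) 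
(.lf (nat_lit 144783) (.g (nat_lit 3072) (.e (nat_lit 57371) (nat_lit 2) (.e (nat_lit 90172) (nat_lit 14) (.e (nat_lit 180244) (nat_lit 5) (.e (nat_lit 532513) (nat_lit 3) (.e (nat_lit 114714) (nat_lit 22) (.e (nat_lit 90165) (nat_lit 12) (.e (nat_lit 163853) (nat_lit 0) (.e (nat_lit 5950) (nat_lit 322) .nil)))))))) (.g (nat_lit 5) .nil .nil))) 
(.lf (nat_lit 144815) (.g (nat_lit 2536) (.e (nat_lit 57371) (nat_lit 2) (.e (nat_lit 90172) (nat_lit 14) (.e (nat_lit 180244) (nat_lit 5) (.e (nat_lit 532513) (nat_lit 3) (.e (nat_lit 114719) (nat_lit 23) (.e (nat_lit 98335) (nat_lit 18) (.e (nat_lit 164402) (nat_lit 256) .nil))))))) (.g (nat_lit 4) .nil .nil)))) (.nd (nat_lit 5) 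
(.lf (nat_lit 144799) (.g (nat_lit 3414) (.e (nat_lit 57371) (nat_lit 2) (.e (nat_lit 90172) (nat_lit 14) (.e (nat_lit 180244) (nat_lit 5) (.e (nat_lit 532513) (nat_lit 3) (.e (nat_lit 114718) (nat_lit 23) (.e (nat_lit 98334) (nat_lit 18) (.e (nat_lit 164399) (nat_lit 256) .nil))))))) (.g (nat_lit 5) .nil .nil))) 
(.lf (nat_lit 144831) (.g (nat_lit 2662) (.e (nat_lit 57371) (nat_lit 2) (.e (nat_lit 90172) (nat_lit 14) (.e (nat_lit 180244) (nat_lit 5) (.e (nat_lit 532515) (nat_lit 3) (.e (nat_lit 114717) (nat_lit 23) (.e (nat_lit 98333) (nat_lit 18) (.e (nat_lit 164399) (nat_lit 256) .nil))))))) (.g (nat_lit 4) .nil .nil)))))))))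

noncomputable def tv1922 : DT := (.nd (nat_lit 0) (.nd (nat_lit 1) (.nd (nat_lit 2) (.nd (nat_lit 3) (.nd (nat_lit 4) (.nd (nat_lit 5) 
(.lf (nat_lit 144832) (.g (nat_lit 2274) (.e (nat_lit 57371) (nat_lit 2) (.e (nat_lit 90172) (nat_lit 14) (.e (nat_lit 180244) (nat_lit 5) (.e (nat_lit 532515) (nat_lit 3) (.e (nat_lit 114717) (nat_lit 23) (.e (nat_lit 98334) (nat_lit 18) (.e (nat_lit 164401) (nat_lit 256) .nil))))))) (.g (nat_lit 4) .nil .nil))) 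
(.lf (nat_lit 144864) (.g (nat_lit 2770) (.e (nat_lit 57371) (nat_lit 2) (.e (nat_lit 90172) (nat_lit 14) (.e (nat_lit 180250) (nat_lit 10) (.e (nat_lit 573482) (nat_lit 13) (.e (nat_lit 73472) (nat_lit 18) (.e (nat_lit 204840) (nat_lit 21) (.e (nat_lit 123194) (nat_lit 266) .nil))))))) (.g (nat_lit 4) .nil .nil)))) (.nd (nat_lit 5) 
(.lf (nat_lit 144848) (.g (nat_lit 2473) (.e (nat_lit 57371) (nat_lit 2) (.e (nat_lit 90172) (nat_lit 14) (.e (nat_lit 180244) (nat_lit 5) (.e (nat_lit 532515) (nat_lit 3) (.e (nat_lit 114719) (nat_lit 23) (.e (nat_lit 98343) (nat_lit 21) (.e (nat_lit 229708) (nat_lit 256) .nil))))))) (.g (nat_lit 4) .nil .nil))) 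
(.lf (nat_lit 144880) (.g (nat_lit 2719) (.e (nat_lit 57371) (nat_lit 2) (.e (nat_lit 90172) (nat_lit 14) (.e (nat_lit 180250) (nat_lit 10) (.e (nat_lit 573488) (nat_lit 14) (.e (nat_lit 73755) (nat_lit 8) .nil))))) .nil)))) (.nd (nat_lit 4) (.nd (nat_lit 5) 
(.lf (nat_lit 144840) (.g (nat_lit 2978) (.e (nat_lit 57371) (nat_lit 2) (.e (nat_lit 90172) (nat_lit 14) (.e (nat_lit 180244) (nat_lit 5) (.e (nat_lit 532515) (nat_lit 3) (.e (nat_lit 114719) (nat_lit 23) (.e (nat_lit 98332) (nat_lit 18) (.e (nat_lit 164397) (nat_lit 256) .nil))))))) (.g (nat_lit 5) .nil .nil))) 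
(.lf (nat_lit 144872) (.g (nat_lit 4123) (.e (nat_lit 57371) (nat_lit 2) (.e (nat_lit 90172) (nat_lit 14) (.e (nat_lit 180250) (nat_lit 10) (.e (nat_lit 573487) (nat_lit 14) (.e (nat_lit 73746) (nat_lit 3) (.e (nat_lit 516115) (nat_lit 1) (.e (nat_lit 171776) (nat_lit 160) .nil))))))) (.g (nat_lit 5) .nil .nil)))) (.nd (nat_lit 5) 
(.lf (nat_lit 144856) (.g (nat_lit 3110) (.e (nat_lit 57371) (nat_lit 2) (.e (nat_lit 90172) (nat_lit 14) (.e (nat_lit 180250) (nat_lit 10) (.e (nat_lit 573481) (nat_lit 13) (.e (nat_lit 73472) (nat_lit 18) (.e (nat_lit 204840) (nat_lit 21) (.e (nat_lit 123195) (nat_lit 266) .nil))))))) (.g (nat_lit 4) .nil .nil))) 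
(.lf (nat_lit 144888) (.g (nat_lit 2686) (.e (nat_lit 57371) (nat_lit 2) (.e (nat_lit 90173) (nat_lit 14) (.e (nat_lit 180252) (nat_lit 10) (.e (nat_lit 573487) (nat_lit 14) (.e (nat_lit 73747) (nat_lit 3) (.e (nat_lit 516119) (nat_lit 1) (.e (nat_lit 171776) (nat_lit 160) .nil))))))) (.g (nat_lit 4) .nil .nil)))))) (.nd (nat_lit 3) (.nd (nat_lit 4) (.nd (nat_lit 5) 
(.lf (nat_lit 144836) (.g (nat_lit 3829) (.e (nat_lit 57371) (nat_lit 2) (.e (nat_lit 90172) (nat_lit 14) (.e (nat_lit 180244) (nat_lit 5) (.e (nat_lit 532515) (nat_lit 3) (.e (nat_lit 114718) (nat_lit 23) (.e (nat_lit 98334) (nat_lit 18) (.e (nat_lit 164397) (nat_lit 256) .nil))))))) (.g (nat_lit 6) .nil .nil))) 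
(.lf (nat_lit 144868) (.g (nat_lit 3051) (.e (nat_lit 57371) (nat_lit 2) (.e (nat_lit 90172) (nat_lit 14) (.e (nat_lit 180250) (nat_lit 10) (.e (nat_lit 573485) (nat_lit 13) (.e (nat_lit 65569) (nat_lit 3) (.e (nat_lit 98334) (nat_lit 18) (.e (nat_lit 171776) (nat_lit 160) .nil))))))) (.g (nat_lit 5) .nil .nil)))) (.nd (nat_lit 5) 
(.lf (nat_lit 144852) (.g (nat_lit 2688) (.e (nat_lit 57371) (nat_lit 2) (.e (nat_lit 90172) (nat_lit 14) (.e (nat_lit 180250) (nat_lit 10) (.e (nat_lit 573480) (nat_lit 13) (.e (nat_lit 73472) (nat_lit 18) (.e (nat_lit 204840) (nat_lit 21) (.e (nat_lit 123194) (nat_lit 266) .nil))))))) (.g (nat_lit 4) .nil .nil))) 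
(.lf (nat_lit 144884) (.g (nat_lit 2370) (.e (nat_lit 57371) (nat_lit 2) (.e (nat_lit 90173) (nat_lit 14) (.e (nat_lit 180252) (nat_lit 10) (.e (nat_lit 573481) (nat_lit 13) (.e (nat_lit 73472) (nat_lit 18) (.e (nat_lit 204840) (nat_lit 21) (.e (nat_lit 123195) (nat_lit 266) .nil))))))) (.g (nat_lit 4) .nil .nil))))) (.nd (nat_lit 4) (.nd (nat_lit 5) 
(.lf (nat_lit 144844) (.g (nat_lit 3640) (.e (nat_lit 57371) (nat_lit 2) (.e (nat_lit 90172) (nat_lit 14) (.e (nat_lit 180244) (nat_lit 5) (.e (nat_lit 532515) (nat_lit 3) (.e (nat_lit 114719) (nat_lit 23) (.e (nat_lit 98334) (nat_lit 18) (.e (nat_lit 164397) (nat_lit 256) .nil))))))) (.g (nat_lit 6) .nil .nil))) 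
(.lf (nat_lit 144876) (.g (nat_lit 4193) (.e (nat_lit 57371) (nat_lit 2) (.e (nat_lit 90172) (nat_lit 14) (.e (nat_lit 180250) (nat_lit 10) (.e (nat_lit 573487) (nat_lit 14) (.e (nat_lit 73747) (nat_lit 3) (.e (nat_lit 516119) (nat_lit 1) (.e (nat_lit 171776) (nat_lit 160) .nil))))))) (.g (nat_lit 5) .nil .nil)))) (.nd (nat_lit 5) 
(.lf (nat_lit 144860) (.g (nat_lit 3415) (.e (nat_lit 57371) (nat_lit 2) (.e (nat_lit 90172) (nat_lit 14) (.e (nat_lit 180250) (nat_lit 10) (.e (nat_lit 573482) (nat_lit 13) (.e (nat_lit 65571) (nat_lit 3) (.e (nat_lit 98319) (nat_lit 17) (.e (nat_lit 2399) (nat_lit 157) (.e (nat_lit 6830) (nat_lit 367) .nil)))))))) (.g (nat_lit 4) .nil .nil))) 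
(.lf (nat_lit 144892) (.g (nat_lit 1315) (.e (nat_lit 57371) (nat_lit 2) (.e (nat_lit 90174) (nat_lit 14) (.e (nat_lit 180243) (nat_lit 5) (.e (nat_lit 532506) (nat_lit 2) .nil)))) .nil)))))) (.nd (nat_lit 2) (.nd (nat_lit 3) (.nd (nat_lit 4) (.nd (nat_lit 5) 
(.lf (nat_lit 144834) (.g (nat_lit 3393) (.e (nat_lit 57371) (nat_lit 2) (.e (nat_lit 90172) (nat_lit 14) (.e (nat_lit 180244) (nat_lit 5) (.e (nat_lit 532515) (nat_lit 3) (.e (nat_lit 114718) (nat_lit 23) (.e (nat_lit 98325) (nat_lit 17) (.e (nat_lit 2515) (nat_lit 157) (.e (nat_lit 5948) (nat_lit 322) .nil)))))))) (.g (nat_lit 5) .nil .nil))) 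
(.lf (nat_lit 144866) (.g (nat_lit 3444) (.e (nat_lit 57371) (nat_lit 2) (.e (nat_lit 90172) (nat_lit 14) (.e (nat_lit 180250) (nat_lit 10) (.e (nat_lit 573484) (nat_lit 13) (.e (nat_lit 65566) (nat_lit 2) (.e (nat_lit 90165) (nat_lit 12) (.e (nat_lit 163849) (nat_lit 0) (.e (nat_lit 6830) (nat_lit 367) .nil)))))))) (.g (nat_lit 4) .nil .nil)))) (.nd (nat_lit 5) 
(.lf (nat_lit 144850) (.g (nat_lit 463) (.e (nat_lit 57371) (nat_lit 2) (.e (nat_lit 90172) (nat_lit 14) (.e (nat_lit 180250) (nat_lit 10) .nil))) .nil)) 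
(.lf (nat_lit 144882) (.g (nat_lit 420) (.e (nat_lit 57371) (nat_lit 2) (.e (nat_lit 90172) (nat_lit 14) (.e (nat_lit 188160) (nat_lit 42) .nil))) .nil)))) (.nd (nat_lit 4) (.nd (nat_lit 5) 
(.lf (nat_lit 144842) (.g (nat_lit 4453) (.e (nat_lit 57371) (nat_lit 2) (.e (nat_lit 90172) (nat_lit 14) (.e (nat_lit 180244) (nat_lit 5) (.e (nat_lit 532515) (nat_lit 3) (.e (nat_lit 114719) (nat_lit 23) (.e (nat_lit 98333) (nat_lit 18) (.e (nat_lit 164403) (nat_lit 256) .nil))))))) (.g (nat_lit 7) .nil .nil))) 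
(.lf (nat_lit 144874) (.g (nat_lit 3770) (.e (nat_lit 57371) (nat_lit 2) (.e (nat_lit 90172) (nat_lit 14) (.e (nat_lit 180250) (nat_lit 10) (.e (nat_lit 573487) (nat_lit 14) (.e (nat_lit 73746) (nat_lit 3) (.e (nat_lit 516119) (nat_lit 1) (.e (nat_lit 171776) (nat_lit 160) .nil))))))) (.g (nat_lit 5) .nil .nil)))) (.nd (nat_lit 5) 
(.lf (nat_lit 144858) (.g (nat_lit 3149) (.e (nat_lit 57371) (nat_lit 2) (.e (nat_lit 90172) (nat_lit 14) (.e (nat_lit 180250) (nat_lit 10) (.e (nat_lit 573482) (nat_lit 13) (.e (nat_lit 65569) (nat_lit 3) (.e (nat_lit 98334) (nat_lit 18) (.e (nat_lit 171776) (nat_lit 160) .nil))))))) (.g (nat_lit 5) .nil .nil))) 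
(.lf (nat_lit 144890) (.g (nat_lit 2853) (.e (nat_lit 57371) (nat_lit 2) (.e (nat_lit 90173) (nat_lit 14) (.e (nat_lit 180252) (nat_lit 10) (.e (nat_lit 573488) (nat_lit 14) (.e (nat_lit 73747) (nat_lit 3) (.e (nat_lit 516119) (nat_lit 1) (.e (nat_lit 171776) (nat_lit 160) .nil))))))) (.g (nat_lit 4) .nil .nil)))))) (.nd (nat_lit 3) (.nd (nat_lit 4) (.nd (nat_lit 5) 
(.lf (nat_lit 144838) (.g (nat_lit 2326) (.e (nat_lit 57371) (nat_lit 2) (.e (nat_lit 90172) (nat_lit 14) (.e (nat_lit 180244) (nat_lit 5) (.e (nat_lit 532515) (nat_lit 3) (.e (nat_lit 114719) (nat_lit 23) (.e (nat_lit 98325) (nat_lit 17) (.e (nat_lit 2478) (nat_lit 157) (.e (nat_lit 5950) (nat_lit 322) .nil)))))))) (.g (nat_lit 4) .nil .nil))) 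
(.lf (nat_lit 144870) (.g (nat_lit 2510) (.e (nat_lit 57371) (nat_lit 2) (.e (nat_lit 90172) (nat_lit 14) (.e (nat_lit 180250) (nat_lit 10) (.e (nat_lit 573485) (nat_lit 13) (.e (nat_lit 65570) (nat_lit 3) (.e (nat_lit 98334) (nat_lit 18) (.e (nat_lit 171776) (nat_lit 160) .nil))))))) (.g (nat_lit 4) .nil .nil)))) (.nd (nat_lit 5) 
(.lf (nat_lit 144854) (.g (nat_lit 2144) (.e (nat_lit 57371) (nat_lit 2) (.e (nat_lit 90172) (nat_lit 14) (.e (nat_lit 180250) (nat_lit 10) (.e (nat_lit 573481) (nat_lit 13) (.e (nat_lit 65568) (nat_lit 2) .nil))))) .nil)) 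
(.lf (nat_lit 144886) (.g (nat_lit 2533) (.e (nat_lit 57371) (nat_lit 2) (.e (nat_lit 90173) (nat_lit 14) (.e (nat_lit 180252) (nat_lit 10) (.e (nat_lit 573482) (nat_lit 13) (.e (nat_lit 73472) (nat_lit 18) (.e (nat_lit 204840) (nat_lit 21) (.e (nat_lit 123195) (nat_lit 266) .nil))))))) (.g (nat_lit 4) .nil .nil))))) (.nd (nat_lit 4) (.nd (nat_lit 5) 
(.lf (nat_lit 144846) (.g (nat_lit 3498) (.e (nat_lit 57371) (nat_lit 2) (.e (nat_lit 90172) (nat_lit 14) (.e (nat_lit 180244) (nat_lit 5) (.e (nat_lit 532515) (nat_lit 3) (.e (nat_lit 114719) (nat_lit 23) (.e (nat_lit 98335) (nat_lit 18) (.e (nat_lit 164396) (nat_lit 256) .nil))))))) (.g (nat_lit 6) .nil .nil))) 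
(.lf (nat_lit 144878) (.g (nat_lit 2445) (.e (nat_lit 57371) (nat_lit 2) (.e (nat_lit 90172) (nat_lit 14) (.e (nat_lit 180250) (nat_lit 10) (.e (nat_lit 573487) (nat_lit 14) (.e (nat_lit 73753) (nat_lit 8) .nil))))) .nil))) (.nd (nat_lit 5) 
(.lf (nat_lit 144862) (.g (nat_lit 3095) (.e (nat_lit 57371) (nat_lit 2) (.e (nat_lit 90172) (nat_lit 14) (.e (nat_lit 180250) (nat_lit 10) (.e (nat_lit 573482) (nat_lit 13) (.e (nat_lit 73472) (nat_lit 18) (.e (nat_lit 204839) (nat_lit 21) (.e (nat_lit 123195) (nat_lit 266) .nil))))))) (.g (nat_lit 4) .nil .nil))) 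
(.lf (nat_lit 144894) (.g (nat_lit 1844) (.e (nat_lit 57371) (nat_lit 2) (.e (nat_lit 90174) (nat_lit 14) (.e (nat_lit 180243) (nat_lit 5) (.e (nat_lit 532508) (nat_lit 2) (.e (nat_lit 106503) (nat_lit 0) .nil))))) .nil))))))) (.nd (nat_lit 1) (.nd (nat_lit 2) (.nd (nat_lit 3) (.nd (nat_lit 4) (.nd (nat_lit 5) 
(.lf (nat_lit 144833) (.g (nat_lit 3109) (.e (nat_lit 57371) (nat_lit 2) (.e (nat_lit 90172) (nat_lit 14) (.e (nat_lit 180244) (nat_lit 5) (.e (nat_lit 532515) (nat_lit 3) (.e (nat_lit 114718) (nat_lit 23) (.e (nat_lit 98325) (nat_lit 17) (.e (nat_lit 2515) (nat_lit 157) (.e (nat_lit 5947) (nat_lit 322) .nil)))))))) (.g (nat_lit 5) .nil .nil))) 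
(.lf (nat_lit 144865) (.g (nat_lit 1467) (.e (nat_lit 57371) (nat_lit 2) (.e (nat_lit 90172) (nat_lit 14) (.e (nat_lit 180250) (nat_lit 10) (.e (nat_lit 573484) (nat_lit 13) .nil)))) .nil))) (.nd (nat_lit 5) 
(.lf (nat_lit 144849) (.g (nat_lit 3372) (.e (nat_lit 57371) (nat_lit 2) (.e (nat_lit 90172) (nat_lit 14) (.e (nat_lit 180244) (nat_lit 5) (.e (nat_lit 532579) (nat_lit 26) (.e (nat_lit 426139) (nat_lit 3) (.e (nat_lit 204830) (nat_lit 18) (.e (nat_lit 65280) (nat_lit 166) .nil))))))) (.g (nat_lit 5) .nil .nil))) 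
(.lf (nat_lit 144881) (.g (nat_lit 2307) (.e (nat_lit 57371) (nat_lit 2) (.e (nat_lit 90172) (nat_lit 14) (.e (nat_lit 180252) (nat_lit 10) (.e (nat_lit 573489) (nat_lit 14) (.e (nat_lit 73755) (nat_lit 8) .nil))))) .nil)))) (.nd (nat_lit 4) (.nd (nat_lit 5) 
(.lf (nat_lit 144841) (.g (nat_lit 3278) (.e (nat_lit 57371) (nat_lit 2) (.e (nat_lit 90172) (nat_lit 14) (.e (nat_lit 180244) (nat_lit 5) (.e (nat_lit 532515) (nat_lit 3) (.e (nat_lit 114719) (nat_lit 23) (.e (nat_lit 98333) (nat_lit 18) (.e (nat_lit 164397) (nat_lit 256) .nil))))))) (.g (nat_lit 6) .nil .nil))) 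
(.lf (nat_lit 144873) (.g (nat_lit 3823) (.e (nat_lit 57371) (nat_lit 2) (.e (nat_lit 90172) (nat_lit 14) (.e (nat_lit 180250) (nat_lit 10) (.e (nat_lit 573487) (nat_lit 14) (.e (nat_lit 73746) (nat_lit 3) (.e (nat_lit 516117) (nat_lit 1) (.e (nat_lit 171776) (nat_lit 160) .nil))))))) (.g (nat_lit 5) .nil .nil)))) (.nd (nat_lit 5) 
(.lf (nat_lit 144857) (.g (nat_lit 3375) (.e (nat_lit 57371) (nat_lit 2) (.e (nat_lit 90172) (nat_lit 14) (.e (nat_lit 180250) (nat_lit 10) (.e (nat_lit 573482) (nat_lit 13) (.e (nat_lit 65568) (nat_lit 2) (.e (nat_lit 90165) (nat_lit 12) (.e (nat_lit 163849) (nat_lit 0) (.e (nat_lit 6830) (nat_lit 367) .nil)))))))) (.g (nat_lit 4) .nil .nil))) 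
(.lf (nat_lit 144889) (.g (nat_lit 3534) (.e (nat_lit 57371) (nat_lit 2) (.e (nat_lit 90173) (nat_lit 14) (.e (nat_lit 180252) (nat_lit 10) (.e (nat_lit 573488) (nat_lit 14) (.e (nat_lit 73747) (nat_lit 3) (.e (nat_lit 516115) (nat_lit 1) (.e (nat_lit 171776) (nat_lit 160) .nil))))))) (.g (nat_lit 5) .nil .nil)))))) (.nd (nat_lit 3) (.nd (nat_lit 4) (.nd (nat_lit 5) 
(.lf (nat_lit 144837) (.g (nat_lit 4242) (.e (nat_lit 57371) (nat_lit 2) (.e (nat_lit 90172) (nat_lit 14) (.e (nat_lit 180244) (nat_lit 5) (.e (nat_lit 532515) (nat_lit 3) (.e (nat_lit 114718) (nat_lit 23) (.e (nat_lit 98335) (nat_lit 18) (.e (nat_lit 164403) (nat_lit 256) .nil))))))) (.g (nat_lit 7) .nil .nil))) 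
(.lf (nat_lit 144869) (.g (nat_lit 2663) (.e (nat_lit 57371) (nat_lit 2) (.e (nat_lit 90172) (nat_lit 14) (.e (nat_lit 180250) (nat_lit 10) (.e (nat_lit 573485) (nat_lit 13) (.e (nat_lit 65570) (nat_lit 3) (.e (nat_lit 98333) (nat_lit 18) (.e (nat_lit 171776) (nat_lit 160) .nil))))))) (.g (nat_lit 4) .nil .nil)))) (.nd (nat_lit 5) 
(.lf (nat_lit 144853) (.g (nat_lit 1596) (.e (nat_lit 57371) (nat_lit 2) (.e (nat_lit 90172) (nat_lit 14) (.e (nat_lit 180250) (nat_lit 10) (.e (nat_lit 573481) (nat_lit 13) .nil)))) .nil)) 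
(.lf (nat_lit 144885) (.g (nat_lit 2462) (.e (nat_lit 57371) (nat_lit 2) (.e (nat_lit 90173) (nat_lit 14) (.e (nat_lit 180252) (nat_lit 10) (.e (nat_lit 573482) (nat_lit 13) (.e (nat_lit 73472) (nat_lit 18) (.e (nat_lit 204839) (nat_lit 21) (.e (nat_lit 123197) (nat_lit 266) .nil))))))) (.g (nat_lit 4) .nil .nil))))) (.nd (nat_lit 4) (.nd (nat_lit 5) 
(.lf (nat_lit 144845) (.g (nat_lit 3103) (.e (nat_lit 57371) (nat_lit 2) (.e (nat_lit 90172) (nat_lit 14) (.e (nat_lit 180244) (nat_lit 5) (.e (nat_lit 532515) (nat_lit 3) (.e (nat_lit 114719) (nat_lit 23) (.e (nat_lit 98334) (nat_lit 18) (.e (nat_lit 164401) (nat_lit 256) .nil))))))) (.g (nat_lit 5) .nil .nil))) 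
(.lf (nat_lit 144877) (.g (nat_lit 2977) (.e (nat_lit 57371) (nat_lit 2) (.e (nat_lit 90172) (nat_lit 14) (.e (nat_lit 180250) (nat_lit 10) (.e (nat_lit 573487) (nat_lit 14) (.e (nat_lit 73747) (nat_lit 3) (.e (nat_lit 516120) (nat_lit 1) (.e (nat_lit 171776) (nat_lit 160) .nil))))))) (.g (nat_lit 4) .nil .nil)))) (.nd (nat_lit 5) 
(.lf (nat_lit 144861) (.g (nat_lit 2228) (.e (nat_lit 57371) (nat_lit 2) (.e (nat_lit 90172) (nat_lit 14) (.e (nat_lit 180250) (nat_lit 10) (.e (nat_lit 573482) (nat_lit 13) (.e (nat_lit 73472) (nat_lit 18) .nil))))) .nil)) 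
(.lf (nat_lit 144893) (.g (nat_lit 1320) (.e (nat_lit 57371) (nat_lit 2) (.e (nat_lit 90174) (nat_lit 14) (.e (nat_lit 180243) (nat_lit 5) (.e (nat_lit 532508) (nat_lit 2) .nil)))) .nil)))))) (.nd (nat_lit 2) (.nd (nat_lit 3) (.nd (nat_lit 4) (.nd (nat_lit 5) 
(.lf (nat_lit 144835) (.g (nat_lit 4007) (.e (nat_lit 57371) (nat_lit 2) (.e (nat_lit 90172) (nat_lit 14) (.e (nat_lit 180244) (nat_lit 5) (.e (nat_lit 532515) (nat_lit 3) (.e (nat_lit 114718) (nat_lit 23) (.e (nat_lit 98334) (nat_lit 18) (.e (nat_lit 164396) (nat_lit 256) .nil))))))) (.g (nat_lit 7) .nil .nil))) 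
(.lf (nat_lit 144867) (.g (nat_lit 3045) (.e (nat_lit 57371) (nat_lit 2) (.e (nat_lit 90172) (nat_lit 14) (.e (nat_lit 180250) (nat_lit 10) (.e (nat_lit 573484) (nat_lit 13) (.e (nat_lit 65571) (nat_lit 3) (.e (nat_lit 98334) (nat_lit 18) (.e (nat_lit 171776) (nat_lit 160) .nil))))))) (.g (nat_lit 4) .nil .nil)))) (.nd (nat_lit 5) 
(.lf (nat_lit 144851) (.g (nat_lit 1565) (.e (nat_lit 57371) (nat_lit 2) (.e (nat_lit 90172) (nat_lit 14) (.e (nat_lit 180250) (nat_lit 10) (.e (nat_lit 573480) (nat_lit 13) .nil)))) .nil)) 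
(.lf (nat_lit 144883) (.g (nat_lit 1882) (.e (nat_lit 57371) (nat_lit 2) (.e (nat_lit 90173) (nat_lit 14) (.e (nat_lit 180252) (nat_lit 10) (.e (nat_lit 573481) (nat_lit 13) (.e (nat_lit 73472) (nat_lit 18) .nil))))) .nil)))) (.nd (nat_lit 4) (.nd (nat_lit 5) 
(.lf (nat_lit 144843) (.g (nat_lit 4130) (.e (nat_lit 57371) (nat_lit 2) (.e (nat_lit 90172) (nat_lit 14) (.e (nat_lit 180244) (nat_lit 5) (.e (nat_lit 532515) (nat_lit 3) (.e (nat_lit 114719) (nat_lit 23) (.e (nat_lit 98334) (nat_lit 18) (.e (nat_lit 164396) (nat_lit 256) .nil))))))) (.g (nat_lit 7) .nil .nil))) 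
(.lf (nat_lit 144875) (.g (nat_lit 3790) (.e (nat_lit 57371) (nat_lit 2) (.e (nat_lit 90172) (nat_lit 14) (.e (nat_lit 180250) (nat_lit 10) (.e (nat_lit 573487) (nat_lit 14) (.e (nat_lit 73746) (nat_lit 3) (.e (nat_lit 516120) (nat_lit 1) (.e (nat_lit 171776) (nat_lit 160) .nil))))))) (.g (nat_lit 5) .nil .nil)))) (.nd (nat_lit 5) 
(.lf (nat_lit 144859) (.g (nat_lit 2600) (.e (nat_lit 57371) (nat_lit 2) (.e (nat_lit 90172) (nat_lit 14) (.e (nat_lit 180250) (nat_lit 10) (.e (nat_lit 573482) (nat_lit 13) (.e (nat_lit 65570) (nat_lit 3) .nil))))) .nil)) 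
(.lf (nat_lit 144891) (.g (nat_lit 1716) (.e (nat_lit 57371) (nat_lit 2) (.e (nat_lit 90174) (nat_lit 14) (.e (nat_lit 180243) (nat_lit 5) (.e (nat_lit 532484) (nat_lit 0) (.e (nat_lit 2198) (nat_lit 144) .nil))))) .nil))))) (.nd (nat_lit 3) (.nd (nat_lit 4) (.nd (nat_lit 5) 
(.lf (nat_lit 144839) (.g (nat_lit 3110) (.e (nat_lit 57371) (nat_lit 2) (.e (nat_lit 90172) (nat_lit 14) (.e (nat_lit 180244) (nat_lit 5) (.e (nat_lit 532515) (nat_lit 3) (.e (nat_lit 114719) (nat_lit 23) (.e (nat_lit 98325) (nat_lit 17) (.e (nat_lit 2515) (nat_lit 157) (.e (nat_lit 5934) (nat_lit 322) .nil)))))))) (.g (nat_lit 5) .nil .nil))) 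
(.lf (nat_lit 144871) (.g (nat_lit 2392) (.e (nat_lit 57371) (nat_lit 2) (.e (nat_lit 90172) (nat_lit 14) (.e (nat_lit 180250) (nat_lit 10) (.e (nat_lit 573485) (nat_lit 13) (.e (nat_lit 65571) (nat_lit 3) (.e (nat_lit 98334) (nat_lit 18) (.e (nat_lit 171776) (nat_lit 160) .nil))))))) (.g (nat_lit 4) .nil .nil)))) (.nd (nat_lit 5) 
(.lf (nat_lit 144855) (.g (nat_lit 2176) (.e (nat_lit 57371) (nat_lit 2) (.e (nat_lit 90172) (nat_lit 14) (.e (nat_lit 180250) (nat_lit 10) (.e (nat_lit 573481) (nat_lit 13) (.e (nat_lit 73472) (nat_lit 18) .nil))))) .nil)) 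
(.lf (nat_lit 144887) (.g (nat_lit 3096) (.e (nat_lit 57371) (nat_lit 2) (.e (nat_lit 90173) (nat_lit 14) (.e (nat_lit 180252) (nat_lit 10) (.e (nat_lit 573487) (nat_lit 14) (.e (nat_lit 73747) (nat_lit 3) (.e (nat_lit 516115) (nat_lit 1) (.e (nat_lit 171776) (nat_lit 160) .nil))))))) (.g (nat_lit 4) .nil .nil))))) (.nd (nat_lit 4) (.nd (nat_lit 5) 
(.lf (nat_lit 144847) (.g (nat_lit 4633) (.e (nat_lit 57371) (nat_lit 2) (.e (nat_lit 90172) (nat_lit 14) (.e (nat_lit 180244) (nat_lit 5) (.e (nat_lit 532515) (nat_lit 3) (.e (nat_lit 114719) (nat_lit 23) (.e (nat_lit 98335) (nat_lit 18) (.e (nat_lit 164403) (nat_lit 256) .nil))))))) (.g (nat_lit 0) .nil .nil))) 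
(.lf (nat_lit 144879) (.g (nat_lit 2832) (.e (nat_lit 57371) (nat_lit 2) (.e (nat_lit 90172) (nat_lit 14) (.e (nat_lit 180250) (nat_lit 10) (.e (nat_lit 573488) (nat_lit 14) (.e (nat_lit 73747) (nat_lit 3) (.e (nat_lit 516115) (nat_lit 1) (.e (nat_lit 171776) (nat_lit 160) .nil))))))) (.g (nat_lit 4) .nil .nil)))) (.nd (nat_lit 5) 
(.lf (nat_lit 144863) (.g (nat_lit 2808) (.e (nat_lit 57371) (nat_lit 2) (.e (nat_lit 90172) (nat_lit 14) (.e (nat_lit 180250) (nat_lit 10) (.e (nat_lit 573482) (nat_lit 13) (.e (nat_lit 73472) (nat_lit 18) (.e (nat_lit 204839) (nat_lit 21) (.e (nat_lit 123198) (nat_lit 266) .nil))))))) (.g (nat_lit 4) .nil .nil))) 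
(.lf (nat_lit 144895) (.g (nat_lit 2777) (.e (nat_lit 57371) (nat_lit 2) (.e (nat_lit 90174) (nat_lit 14) (.e (nat_lit 180243) (nat_lit 5) (.e (nat_lit 532508) (nat_lit 2) (.e (nat_lit 114432) (nat_lit 0) (.e (nat_lit 2685) (nat_lit 168) (.e (nat_lit 204840) (nat_lit 21) (.e (nat_lit 123194) (nat_lit 266) .nil)))))))) (.g (nat_lit 4) .nil .nil)))))))))

noncomputable def tv1923 : DT := (.nd (nat_lit 0) (.nd (nat_lit 1) (.nd (nat_lit 2) (.nd (nat_lit 3) (.nd (nat_lit 4) (.nd (nat_lit 5) 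
(.lf (nat_lit 144896) (.g (nat_lit 2535) (.e (nat_lit 57371) (nat_lit 2) (.e (nat_lit 90174) (nat_lit 14) (.e (nat_lit 180243) (nat_lit 5) (.e (nat_lit 532508) (nat_lit 2) (.e (nat_lit 114432) (nat_lit 3) (.e (nat_lit 163962) (nat_lit 25) (.e (nat_lit 532517) (nat_lit 4) (.e (nat_lit 123194) (nat_lit 266) .nil)))))))) (.g (nat_lit 4) .nil .nil))) 
(.lf (nat_lit 144928) (.g (nat_lit 1345) (.e (nat_lit 57371) (nat_lit 2) (.e (nat_lit 90174) (nat_lit 14) (.e (nat_lit 180243) (nat_lit 5) (.e (nat_lit 532511) (nat_lit 2) .nil)))) .nil))) (.nd (nat_lit 5) 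
(.lf (nat_lit 144912) (.g (nat_lit 2608) (.e (nat_lit 57371) (nat_lit 2) (.e (nat_lit 90174) (nat_lit 14) (.e (nat_lit 180243) (nat_lit 5) (.e (nat_lit 532508) (nat_lit 2) (.e (nat_lit 114432) (nat_lit 13) (.e (nat_lit 122936) (nat_lit 23) (.e (nat_lit 516115) (nat_lit 1) (.e (nat_lit 164399) (nat_lit 256) .nil)))))))) (.g (nat_lit 4) .nil .nil))) 
(.lf (nat_lit 144944) (.g (nat_lit 2646) (.e (nat_lit 57371) (nat_lit 2) (.e (nat_lit 90174) (nat_lit 14) (.e (nat_lit 180243) (nat_lit 5) (.e (nat_lit 532513) (nat_lit 3) (.e (nat_lit 114701) (nat_lit 20) (.e (nat_lit 1781) (nat_lit 119) (.e (nat_lit 516119) (nat_lit 1) (.e (nat_lit 164396) (nat_lit 256) .nil)))))))) (.g (nat_lit 4) .nil .nil))))) (.nd (nat_lit 4) (.nd (nat_lit 5) 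
(.lf (nat_lit 144904) (.g (nat_lit 2433) (.e (nat_lit 57371) (nat_lit 2) (.e (nat_lit 90174) (nat_lit 14) (.e (nat_lit 180243) (nat_lit 5) (.e (nat_lit 532508) (nat_lit 2) (.e (nat_lit 106539) (nat_lit 12) (.e (nat_lit 57467) (nat_lit 23) (.e (nat_lit 516115) (nat_lit 1) (.e (nat_lit 164403) (nat_lit 256) .nil)))))))) (.g (nat_lit 4) .nil .nil))) 
(.lf (nat_lit 144936) (.g (nat_lit 1811) (.e (nat_lit 57371) (nat_lit 2) (.e (nat_lit 90174) (nat_lit 14) (.e (nat_lit 180243) (nat_lit 5) (.e (nat_lit 532511) (nat_lit 2) (.e (nat_lit 106542) (nat_lit 13) .nil))))) .nil))) (.nd (nat_lit 5) 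
(.lf (nat_lit 144920) (.g (nat_lit 2419) (.e (nat_lit 57371) (nat_lit 2) (.e (nat_lit 90174) (nat_lit 14) (.e (nat_lit 180243) (nat_lit 5) (.e (nat_lit 532510) (nat_lit 2) (.e (nat_lit 106539) (nat_lit 12) (.e (nat_lit 57466) (nat_lit 23) (.e (nat_lit 516115) (nat_lit 1) (.e (nat_lit 164403) (nat_lit 256) .nil)))))))) (.g (nat_lit 4) .nil .nil))) 
(.lf (nat_lit 144952) (.g (nat_lit 2946) (.e (nat_lit 57371) (nat_lit 2) (.e (nat_lit 90174) (nat_lit 14) (.e (nat_lit 180243) (nat_lit 5) (.e (nat_lit 532513) (nat_lit 3) (.e (nat_lit 114717) (nat_lit 23) (.e (nat_lit 98334) (nat_lit 18) (.e (nat_lit 164397) (nat_lit 256) .nil))))))) (.g (nat_lit 4) .nil .nil)))))) (.nd (nat_lit 3) (.nd (nat_lit 4) (.nd (nat_lit 5) 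
(.lf (nat_lit 144900) (.g (nat_lit 2116) (.e (nat_lit 57371) (nat_lit 2) (.e (nat_lit 90174) (nat_lit 14) (.e (nat_lit 180243) (nat_lit 5) (.e (nat_lit 532508) (nat_lit 2) (.e (nat_lit 106537) (nat_lit 12) (.e (nat_lit 57466) (nat_lit 23) (.e (nat_lit 516117) (nat_lit 1) (.e (nat_lit 164396) (nat_lit 256) .nil)))))))) (.g (nat_lit 4) .nil .nil))) 
(.lf (nat_lit 144932) (.g (nat_lit 2485) (.e (nat_lit 57371) (nat_lit 2) (.e (nat_lit 90174) (nat_lit 14) (.e (nat_lit 180243) (nat_lit 5) (.e (nat_lit 532511) (nat_lit 2) (.e (nat_lit 106539) (nat_lit 12) (.e (nat_lit 57467) (nat_lit 23) (.e (nat_lit 516115) (nat_lit 1) (.e (nat_lit 164403) (nat_lit 256) .nil)))))))) (.g (nat_lit 4) .nil .nil)))) (.nd (nat_lit 5) 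
(.lf (nat_lit 144916) (.g (nat_lit 1324) (.e (nat_lit 57371) (nat_lit 2) (.e (nat_lit 90174) (nat_lit 14) (.e (nat_lit 180243) (nat_lit 5) (.e (nat_lit 532510) (nat_lit 2) .nil)))) .nil)) 
(.lf (nat_lit 144948) (.g (nat_lit 4272) (.e (nat_lit 57371) (nat_lit 2) (.e (nat_lit 90174) (nat_lit 14) (.e (nat_lit 180243) (nat_lit 5) (.e (nat_lit 532513) (nat_lit 3) (.e (nat_lit 114714) (nat_lit 22) (.e (nat_lit 90134) (nat_lit 9) (.e (nat_lit 2717) (nat_lit 171) (.e (nat_lit 229707) (nat_lit 256) .nil)))))))) (.g (nat_lit 6) .nil .nil))))) (.nd (nat_lit 4) (.nd (nat_lit 5) 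
(.lf (nat_lit 144908) (.g (nat_lit 2377) (.e (nat_lit 57371) (nat_lit 2) (.e (nat_lit 90174) (nat_lit 14) (.e (nat_lit 180243) (nat_lit 5) (.e (nat_lit 532508) (nat_lit 2) (.e (nat_lit 106540) (nat_lit 13) (.e (nat_lit 122936) (nat_lit 23) (.e (nat_lit 516117) (nat_lit 1) (.e (nat_lit 164401) (nat_lit 256) .nil)))))))) (.g (nat_lit 4) .nil .nil))) 
(.lf (nat_lit 144940) (.g (nat_lit 2593) (.e (nat_lit 57371) (nat_lit 2) (.e (nat_lit 90174) (nat_lit 14) (.e (nat_lit 180243) (nat_lit 5) (.e (nat_lit 532511) (nat_lit 2) (.e (nat_lit 114432) (nat_lit 13) (.e (nat_lit 122936) (nat_lit 23) (.e (nat_lit 516117) (nat_lit 1) (.e (nat_lit 164398) (nat_lit 256) .nil)))))))) (.g (nat_lit 4) .nil .nil)))) (.nd (nat_lit 5) 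
(.lf (nat_lit 144924) (.g (nat_lit 2424) (.e (nat_lit 57371) (nat_lit 2) (.e (nat_lit 90174) (nat_lit 14) (.e (nat_lit 180243) (nat_lit 5) (.e (nat_lit 532510) (nat_lit 2) (.e (nat_lit 106540) (nat_lit 13) (.e (nat_lit 122936) (nat_lit 23) (.e (nat_lit 516117) (nat_lit 1) (.e (nat_lit 164401) (nat_lit 256) .nil)))))))) (.g (nat_lit 4) .nil .nil))) 
(.lf (nat_lit 144956) (.g (nat_lit 2506) (.e (nat_lit 57371) (nat_lit 2) (.e (nat_lit 90174) (nat_lit 14) (.e (nat_lit 180243) (nat_lit 5) (.e (nat_lit 532513) (nat_lit 3) (.e (nat_lit 114718) (nat_lit 23) (.e (nat_lit 98332) (nat_lit 18) (.e (nat_lit 164402) (nat_lit 256) .nil))))))) (.g (nat_lit 4) .nil .nil))))))) (.nd (nat_lit 2) (.nd (nat_lit 3) (.nd (nat_lit 4) (.nd (nat_lit 5) 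
(.lf (nat_lit 144898) (.g (nat_lit 1579) (.e (nat_lit 57371) (nat_lit 2) (.e (nat_lit 90174) (nat_lit 14) (.e (nat_lit 180243) (nat_lit 5) (.e (nat_lit 532508) (nat_lit 2) (.e (nat_lit 106526) (nat_lit 9) .nil))))) .nil)) 
(.lf (nat_lit 144930) (.g (nat_lit 2376) (.e (nat_lit 57371) (nat_lit 2) (.e (nat_lit 90174) (nat_lit 14) (.e (nat_lit 180243) (nat_lit 5) (.e (nat_lit 532511) (nat_lit 2) (.e (nat_lit 106537) (nat_lit 12) (.e (nat_lit 57466) (nat_lit 23) (.e (nat_lit 516119) (nat_lit 1) (.e (nat_lit 164403) (nat_lit 256) .nil)))))))) (.g (nat_lit 4) .nil .nil)))) (.nd (nat_lit 5) 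
(.lf (nat_lit 144914) (.g (nat_lit 2495) (.e (nat_lit 57371) (nat_lit 2) (.e (nat_lit 90174) (nat_lit 14) (.e (nat_lit 180243) (nat_lit 5) (.e (nat_lit 532508) (nat_lit 2) (.e (nat_lit 114432) (nat_lit 13) (.e (nat_lit 122936) (nat_lit 23) (.e (nat_lit 516117) (nat_lit 1) (.e (nat_lit 164399) (nat_lit 256) .nil)))))))) (.g (nat_lit 4) .nil .nil))) 
(.lf (nat_lit 144946) (.g (nat_lit 2866) (.e (nat_lit 57371) (nat_lit 2) (.e (nat_lit 90174) (nat_lit 14) (.e (nat_lit 180243) (nat_lit 5) (.e (nat_lit 532513) (nat_lit 3) (.e (nat_lit 114708) (nat_lit 20) (.e (nat_lit 1800) (nat_lit 119) (.e (nat_lit 516119) (nat_lit 1) (.e (nat_lit 164401) (nat_lit 256) .nil)))))))) (.g (nat_lit 4) .nil .nil))))) (.nd (nat_lit 4) (.nd (nat_lit 5) 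
(.lf (nat_lit 144906) (.g (nat_lit 2753) (.e (nat_lit 57371) (nat_lit 2) (.e (nat_lit 90174) (nat_lit 14) (.e (nat_lit 180243) (nat_lit 5) (.e (nat_lit 532508) (nat_lit 2) (.e (nat_lit 106540) (nat_lit 13) (.e (nat_lit 122936) (nat_lit 23) (.e (nat_lit 516117) (nat_lit 1) (.e (nat_lit 164398) (nat_lit 256) .nil)))))))) (.g (nat_lit 4) .nil .nil))) 
(.lf (nat_lit 144938) (.g (nat_lit 2445) (.e (nat_lit 57371) (nat_lit 2) (.e (nat_lit 90174) (nat_lit 14) (.e (nat_lit 180243) (nat_lit 5) (.e (nat_lit 532511) (nat_lit 2) (.e (nat_lit 114432) (nat_lit 13) (.e (nat_lit 122936) (nat_lit 23) (.e (nat_lit 516115) (nat_lit 1) (.e (nat_lit 164399) (nat_lit 256) .nil)))))))) (.g (nat_lit 4) .nil .nil)))) (.nd (nat_lit 5) 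
(.lf (nat_lit 144922) (.g (nat_lit 2484) (.e (nat_lit 57371) (nat_lit 2) (.e (nat_lit 90174) (nat_lit 14) (.e (nat_lit 180243) (nat_lit 5) (.e (nat_lit 532510) (nat_lit 2) (.e (nat_lit 106540) (nat_lit 13) (.e (nat_lit 122936) (nat_lit 23) (.e (nat_lit 516115) (nat_lit 1) (.e (nat_lit 164399) (nat_lit 256) .nil)))))))) (.g (nat_lit 4) .nil .nil))) 
(.lf (nat_lit 144954) (.g (nat_lit 2698) (.e (nat_lit 57371) (nat_lit 2) (.e (nat_lit 90174) (nat_lit 14) (.e (nat_lit 180243) (nat_lit 5) (.e (nat_lit 532513) (nat_lit 3) (.e (nat_lit 114717) (nat_lit 23) (.e (nat_lit 98335) (nat_lit 18) (.e (nat_lit 164403) (nat_lit 256) .nil))))))) (.g (nat_lit 4) .nil .nil)))))) (.nd (nat_lit 3) (.nd (nat_lit 4) (.nd (nat_lit 5) 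
(.lf (nat_lit 144902) (.g (nat_lit 2291) (.e (nat_lit 57371) (nat_lit 2) (.e (nat_lit 90174) (nat_lit 14) (.e (nat_lit 180243) (nat_lit 5) (.e (nat_lit 532508) (nat_lit 2) (.e (nat_lit 106538) (nat_lit 12) (.e (nat_lit 57465) (nat_lit 23) (.e (nat_lit 516117) (nat_lit 1) (.e (nat_lit 164396) (nat_lit 256) .nil)))))))) (.g (nat_lit 4) .nil .nil))) 
(.lf (nat_lit 144934) (.g (nat_lit 2572) (.e (nat_lit 57371) (nat_lit 2) (.e (nat_lit 90174) (nat_lit 14) (.e (nat_lit 180243) (nat_lit 5) (.e (nat_lit 532511) (nat_lit 2) (.e (nat_lit 106540) (nat_lit 13) (.e (nat_lit 122936) (nat_lit 23) (.e (nat_lit 516117) (nat_lit 1) (.e (nat_lit 164399) (nat_lit 256) .nil)))))))) (.g (nat_lit 4) .nil .nil)))) (.nd (nat_lit 5) 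
(.lf (nat_lit 144918) (.g (nat_lit 2408) (.e (nat_lit 57371) (nat_lit 2) (.e (nat_lit 90174) (nat_lit 14) (.e (nat_lit 180243) (nat_lit 5) (.e (nat_lit 532510) (nat_lit 2) (.e (nat_lit 106537) (nat_lit 12) (.e (nat_lit 57465) (nat_lit 23) (.e (nat_lit 516119) (nat_lit 1) (.e (nat_lit 164403) (nat_lit 256) .nil)))))))) (.g (nat_lit 4) .nil .nil))) 
(.lf (nat_lit 144950) (.g (nat_lit 2445) (.e (nat_lit 57371) (nat_lit 2) (.e (nat_lit 90174) (nat_lit 14) (.e (nat_lit 180243) (nat_lit 5) (.e (nat_lit 532513) (nat_lit 3) (.e (nat_lit 114717) (nat_lit 23) (.e (nat_lit 98333) (nat_lit 18) (.e (nat_lit 164397) (nat_lit 256) .nil))))))) (.g (nat_lit 4) .nil .nil))))) (.nd (nat_lit 4) (.nd (nat_lit 5) 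
(.lf (nat_lit 144910) (.g (nat_lit 2570) (.e (nat_lit 57371) (nat_lit 2) (.e (nat_lit 90174) (nat_lit 14) (.e (nat_lit 180243) (nat_lit 5) (.e (nat_lit 532508) (nat_lit 2) (.e (nat_lit 106541) (nat_lit 13) (.e (nat_lit 122936) (nat_lit 23) (.e (nat_lit 516117) (nat_lit 1) (.e (nat_lit 164398) (nat_lit 256) .nil)))))))) (.g (nat_lit 4) .nil .nil))) 
(.lf (nat_lit 144942) (.g (nat_lit 2490) (.e (nat_lit 57371) (nat_lit 2) (.e (nat_lit 90174) (nat_lit 14) (.e (nat_lit 180243) (nat_lit 5) (.e (nat_lit 532511) (nat_lit 2) (.e (nat_lit 114432) (nat_lit 13) (.e (nat_lit 122936) (nat_lit 23) (.e (nat_lit 516119) (nat_lit 1) (.e (nat_lit 164403) (nat_lit 256) .nil)))))))) (.g (nat_lit 4) .nil .nil)))) (.nd (nat_lit 5) 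
(.lf (nat_lit 144926) (.g (nat_lit 2381) (.e (nat_lit 57371) (nat_lit 2) (.e (nat_lit 90174) (nat_lit 14) (.e (nat_lit 180243) (nat_lit 5) (.e (nat_lit 532510) (nat_lit 2) (.e (nat_lit 106542) (nat_lit 13) (.e (nat_lit 122937) (nat_lit 23) (.e (nat_lit 516119) (nat_lit 1) (.e (nat_lit 164396) (nat_lit 256) .nil)))))))) (.g (nat_lit 4) .nil .nil))) 
(.lf (nat_lit 144958) (.g (nat_lit 3955) (.e (nat_lit 57371) (nat_lit 2) (.e (nat_lit 90174) (nat_lit 14) (.e (nat_lit 180243) (nat_lit 5) (.e (nat_lit 532513) (nat_lit 3) (.e (nat_lit 114718) (nat_lit 23) (.e (nat_lit 98333) (nat_lit 18) (.e (nat_lit 164397) (nat_lit 256) .nil))))))) (.g (nat_lit 6) .nil .nil)))))))) 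
(.nd (nat_lit 1) (.nd (nat_lit 2) (.nd (nat_lit 3) (.nd (nat_lit 4) (.nd (nat_lit 5) 
(.lf (nat_lit 144897) (.g (nat_lit 1741) (.e (nat_lit 57371) (nat_lit 2) (.e (nat_lit 90174) (nat_lit 14) (.e (nat_lit 180243) (nat_lit 5) (.e (nat_lit 532508) (nat_lit 2) (.e (nat_lit 106517) (nat_lit 9) .nil))))) .nil)) 
(.lf (nat_lit 144929) (.g (nat_lit 2434) (.e (nat_lit 57371) (nat_lit 2) (.e (nat_lit 90174) (nat_lit 14) (.e (nat_lit 180243) (nat_lit 5) (.e (nat_lit 532511) (nat_lit 2) (.e (nat_lit 106537) (nat_lit 12) (.e (nat_lit 57464) (nat_lit 23) (.e (nat_lit 516115) (nat_lit 1) (.e (nat_lit 164403) (nat_lit 256) .nil)))))))) (.g (nat_lit 4) .nil .nil)))) (.nd (nat_lit 5) 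
(.lf (nat_lit 144913) (.g (nat_lit 2756) (.e (nat_lit 57371) (nat_lit 2) (.e (nat_lit 90174) (nat_lit 14) (.e (nat_lit 180243) (nat_lit 5) (.e (nat_lit 532508) (nat_lit 2) (.e (nat_lit 114432) (nat_lit 13) (.e (nat_lit 122936) (nat_lit 23) (.e (nat_lit 516117) (nat_lit 1) (.e (nat_lit 164398) (nat_lit 256) .nil)))))))) (.g (nat_lit 4) .nil .nil))) 
(.lf (nat_lit 144945) (.g (nat_lit 2696) (.e (nat_lit 57371) (nat_lit 2) (.e (nat_lit 90174) (nat_lit 14) (.e (nat_lit 180243) (nat_lit 5) (.e (nat_lit 532513) (nat_lit 3) (.e (nat_lit 114706) (nat_lit 20) (.e (nat_lit 1796) (nat_lit 119) (.e (nat_lit 516119) (nat_lit 1) (.e (nat_lit 164396) (nat_lit 256) .nil)))))))) (.g (nat_lit 4) .nil .nil))))) (.nd (nat_lit 4) (.nd (nat_lit 5) 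
(.lf (nat_lit 144905) (.g (nat_lit 2435) (.e (nat_lit 57371) (nat_lit 2) (.e (nat_lit 90174) (nat_lit 14) (.e (nat_lit 180243) (nat_lit 5) (.e (nat_lit 532508) (nat_lit 2) (.e (nat_lit 106540) (nat_lit 13) (.e (nat_lit 122936) (nat_lit 23) (.e (nat_lit 516115) (nat_lit 1) (.e (nat_lit 164399) (nat_lit 256) .nil)))))))) (.g (nat_lit 4) .nil .nil))) 
(.lf (nat_lit 144937) (.g (nat_lit 2456) (.e (nat_lit 57371) (nat_lit 2) (.e (nat_lit 90174) (nat_lit 14) (.e (nat_lit 180243) (nat_lit 5) (.e (nat_lit 532511) (nat_lit 2) (.e (nat_lit 106542) (nat_lit 13) (.e (nat_lit 122937) (nat_lit 23) (.e (nat_lit 516120) (nat_lit 1) (.e (nat_lit 164396) (nat_lit 256) .nil)))))))) (.g (nat_lit 4) .nil .nil)))) (.nd (nat_lit 5) 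
(.lf (nat_lit 144921) (.g (nat_lit 2410) (.e (nat_lit 57371) (nat_lit 2) (.e (nat_lit 90174) (nat_lit 14) (.e (nat_lit 180243) (nat_lit 5) (.e (nat_lit 532510) (nat_lit 2) (.e (nat_lit 106539) (nat_lit 12) (.e (nat_lit 57467) (nat_lit 23) (.e (nat_lit 516115) (nat_lit 1) (.e (nat_lit 164403) (nat_lit 256) .nil)))))))) (.g (nat_lit 4) .nil .nil))) 
(.lf (nat_lit 144953) (.g (nat_lit 2234) (.e (nat_lit 57371) (nat_lit 2) (.e (nat_lit 90174) (nat_lit 14) (.e (nat_lit 180243) (nat_lit 5) (.e (nat_lit 532513) (nat_lit 3) (.e (nat_lit 114717) (nat_lit 23) (.e (nat_lit 98334) (nat_lit 18) (.e (nat_lit 164401) (nat_lit 256) .nil))))))) (.g (nat_lit 4) .nil .nil)))))) (.nd (nat_lit 3) (.nd (nat_lit 4) (.nd (nat_lit 5) 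
(.lf (nat_lit 144901) (.g (nat_lit 2624) (.e (nat_lit 57371) (nat_lit 2) (.e (nat_lit 90174) (nat_lit 14) (.e (nat_lit 180243) (nat_lit 5) (.e (nat_lit 532508) (nat_lit 2) (.e (nat_lit 106538) (nat_lit 12) (.e (nat_lit 57465) (nat_lit 23) (.e (nat_lit 516115) (nat_lit 1) (.e (nat_lit 164399) (nat_lit 256) .nil)))))))) (.g (nat_lit 4) .nil .nil))) 
(.lf (nat_lit 144933) (.g (nat_lit 2516) (.e (nat_lit 57371) (nat_lit 2) (.e (nat_lit 90174) (nat_lit 14) (.e (nat_lit 180243) (nat_lit 5) (.e (nat_lit 532511) (nat_lit 2) (.e (nat_lit 106540) (nat_lit 13) (.e (nat_lit 122936) (nat_lit 23) (.e (nat_lit 516115) (nat_lit 1) (.e (nat_lit 164399) (nat_lit 256) .nil)))))))) (.g (nat_lit 4) .nil .nil)))) (.nd (nat_lit 5) 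
(.lf (nat_lit 144917) (.g (nat_lit 2432) (.e (nat_lit 57371) (nat_lit 2) (.e (nat_lit 90174) (nat_lit 14) (.e (nat_lit 180243) (nat_lit 5) (.e (nat_lit 532510) (nat_lit 2) (.e (nat_lit 106537) (nat_lit 12) (.e (nat_lit 57464) (nat_lit 23) (.e (nat_lit 516115) (nat_lit 1) (.e (nat_lit 164399) (nat_lit 256) .nil)))))))) (.g (nat_lit 4) .nil .nil))) 
(.lf (nat_lit 144949) (.g (nat_lit 2610) (.e (nat_lit 57371) (nat_lit 2) (.e (nat_lit 90174) (nat_lit 14) (.e (nat_lit 180243) (nat_lit 5) (.e (nat_lit 532513) (nat_lit 3) (.e (nat_lit 114714) (nat_lit 22) (.e (nat_lit 90181) (nat_lit 16) (.e (nat_lit 229380) (nat_lit 0) (.e (nat_lit 5950) (nat_lit 322) .nil)))))))) (.g (nat_lit 4) .nil .nil))))) (.nd (nat_lit 4) (.nd (nat_lit 5) 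
(.lf (nat_lit 144909) (.g (nat_lit 2664) (.e (nat_lit 57371) (nat_lit 2) (.e (nat_lit 90174) (nat_lit 14) (.e (nat_lit 180243) (nat_lit 5) (.e (nat_lit 532508) (nat_lit 2) (.e (nat_lit 106541) (nat_lit 13) (.e (nat_lit 122936) (nat_lit 23) (.e (nat_lit 516117) (nat_lit 1) (.e (nat_lit 164397) (nat_lit 256) .nil)))))))) (.g (nat_lit 4) .nil .nil))) 
(.lf (nat_lit 144941) (.g (nat_lit 2226) (.e (nat_lit 57371) (nat_lit 2) (.e (nat_lit 90174) (nat_lit 14) (.e (nat_lit 180243) (nat_lit 5) (.e (nat_lit 532511) (nat_lit 2) (.e (nat_lit 114432) (nat_lit 13) (.e (nat_lit 122936) (nat_lit 23) (.e (nat_lit 516117) (nat_lit 1) (.e (nat_lit 164401) (nat_lit 256) .nil)))))))) (.g (nat_lit 4) .nil .nil)))) (.nd (nat_lit 5) 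
(.lf (nat_lit 144925) (.g (nat_lit 2281) (.e (nat_lit 57371) (nat_lit 2) (.e (nat_lit 90174) (nat_lit 14) (.e (nat_lit 180243) (nat_lit 5) (.e (nat_lit 532510) (nat_lit 2) (.e (nat_lit 106541) (nat_lit 13) (.e (nat_lit 122936) (nat_lit 23) (.e (nat_lit 516115) (nat_lit 1) (.e (nat_lit 164403) (nat_lit 256) .nil)))))))) (.g (nat_lit 4) .nil .nil))) 
(.lf (nat_lit 144957) (.g (nat_lit 4222) (.e (nat_lit 57371) (nat_lit 2) (.e (nat_lit 90174) (nat_lit 14) (.e (nat_lit 180243) (nat_lit 5) (.e (nat_lit 532513) (nat_lit 3) (.e (nat_lit 114718) (nat_lit 23) (.e (nat_lit 98333) (nat_lit 18) (.e (nat_lit 164396) (nat_lit 256) .nil))))))) (.g (nat_lit 6) .nil .nil))))))) (.nd (nat_lit 2) (.nd (nat_lit 3) (.nd (nat_lit 4) (.nd (nat_lit 5) 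
(.lf (nat_lit 144899) (.g (nat_lit 2397) (.e (nat_lit 57371) (nat_lit 2) (.e (nat_lit 90174) (nat_lit 14) (.e (nat_lit 180243) (nat_lit 5) (.e (nat_lit 532508) (nat_lit 2) (.e (nat_lit 106537) (nat_lit 12) (.e (nat_lit 57465) (nat_lit 23) (.e (nat_lit 516119) (nat_lit 1) (.e (nat_lit 164403) (nat_lit 256) .nil)))))))) (.g (nat_lit 4) .nil .nil))) 
(.lf (nat_lit 144931) (.g (nat_lit 2449) (.e (nat_lit 57371) (nat_lit 2) (.e (nat_lit 90174) (nat_lit 14) (.e (nat_lit 180243) (nat_lit 5) (.e (nat_lit 532511) (nat_lit 2) (.e (nat_lit 106539) (nat_lit 12) (.e (nat_lit 57466) (nat_lit 23) (.e (nat_lit 516115) (nat_lit 1) (.e (nat_lit 164403) (nat_lit 256) .nil)))))))) (.g (nat_lit 4) .nil .nil)))) (.nd (nat_lit 5) 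
(.lf (nat_lit 144915) (.g (nat_lit 2389) (.e (nat_lit 57371) (nat_lit 2) (.e (nat_lit 90174) (nat_lit 14) (.e (nat_lit 180243) (nat_lit 5) (.e (nat_lit 532508) (nat_lit 2) (.e (nat_lit 114432) (nat_lit 13) (.e (nat_lit 122936) (nat_lit 23) (.e (nat_lit 516117) (nat_lit 1) (.e (nat_lit 164401) (nat_lit 256) .nil)))))))) (.g (nat_lit 4) .nil .nil))) 
(.lf (nat_lit 144947) (.g (nat_lit 1816) (.e (nat_lit 57371) (nat_lit 2) (.e (nat_lit 90174) (nat_lit 14) (.e (nat_lit 180243) (nat_lit 5) (.e (nat_lit 532513) (nat_lit 3) (.e (nat_lit 114714) (nat_lit 22) .nil))))) .nil)))) (.nd (nat_lit 4) (.nd (nat_lit 5) 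
(.lf (nat_lit 144907) (.g (nat_lit 2493) (.e (nat_lit 57371) (nat_lit 2) (.e (nat_lit 90174) (nat_lit 14) (.e (nat_lit 180243) (nat_lit 5) (.e (nat_lit 532508) (nat_lit 2) (.e (nat_lit 106540) (nat_lit 13) (.e (nat_lit 122936) (nat_lit 23) (.e (nat_lit 516117) (nat_lit 1) (.e (nat_lit 164399) (nat_lit 256) .nil)))))))) (.g (nat_lit 4) .nil .nil))) 
(.lf (nat_lit 144939) (.g (nat_lit 2696) (.e (nat_lit 57371) (nat_lit 2) (.e (nat_lit 90174) (nat_lit 14) (.e (nat_lit 180243) (nat_lit 5) (.e (nat_lit 532511) (nat_lit 2) (.e (nat_lit 114432) (nat_lit 13) (.e (nat_lit 122936) (nat_lit 23) (.e (nat_lit 516117) (nat_lit 1) (.e (nat_lit 164397) (nat_lit 256) .nil)))))))) (.g (nat_lit 4) .nil .nil)))) (.nd (nat_lit 5) 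
(.lf (nat_lit 144923) (.g (nat_lit 2540) (.e (nat_lit 57371) (nat_lit 2) (.e (nat_lit 90174) (nat_lit 14) (.e (nat_lit 180243) (nat_lit 5) (.e (nat_lit 532510) (nat_lit 2) (.e (nat_lit 106540) (nat_lit 13) (.e (nat_lit 122936) (nat_lit 23) (.e (nat_lit 516117) (nat_lit 1) (.e (nat_lit 164399) (nat_lit 256) .nil)))))))) (.g (nat_lit 4) .nil .nil))) 
(.lf (nat_lit 144955) (.g (nat_lit 2219) (.e (nat_lit 57371) (nat_lit 2) (.e (nat_lit 90174) (nat_lit 14) (.e (nat_lit 180243) (nat_lit 5) (.e (nat_lit 532513) (nat_lit 3) (.e (nat_lit 114718) (nat_lit 23) (.e (nat_lit 98332) (nat_lit 18) (.e (nat_lit 164397) (nat_lit 256) .nil))))))) (.g (nat_lit 4) .nil .nil)))))) (.nd (nat_lit 3) (.nd (nat_lit 4) (.nd (nat_lit 5) 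
(.lf (nat_lit 144903) (.g (nat_lit 2539) (.e (nat_lit 57371) (nat_lit 2) (.e (nat_lit 90174) (nat_lit 14) (.e (nat_lit 180243) (nat_lit 5) (.e (nat_lit 532508) (nat_lit 2) (.e (nat_lit 106539) (nat_lit 12) (.e (nat_lit 57466) (nat_lit 23) (.e (nat_lit 516117) (nat_lit 1) (.e (nat_lit 164403) (nat_lit 256) .nil)))))))) (.g (nat_lit 4) .nil .nil))) 
(.lf (nat_lit 144935) (.g (nat_lit 2456) (.e (nat_lit 57371) (nat_lit 2) (.e (nat_lit 90174) (nat_lit 14) (.e (nat_lit 180243) (nat_lit 5) (.e (nat_lit 532511) (nat_lit 2) (.e (nat_lit 106540) (nat_lit 13) (.e (nat_lit 122936) (nat_lit 23) (.e (nat_lit 516117) (nat_lit 1) (.e (nat_lit 164401) (nat_lit 256) .nil)))))))) (.g (nat_lit 4) .nil .nil)))) (.nd (nat_lit 5) 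
(.lf (nat_lit 144919) (.g (nat_lit 2127) (.e (nat_lit 57371) (nat_lit 2) (.e (nat_lit 90174) (nat_lit 14) (.e (nat_lit 180243) (nat_lit 5) (.e (nat_lit 532510) (nat_lit 2) (.e (nat_lit 106537) (nat_lit 12) (.e (nat_lit 57466) (nat_lit 23) (.e (nat_lit 516117) (nat_lit 1) (.e (nat_lit 164396) (nat_lit 256) .nil)))))))) (.g (nat_lit 4) .nil .nil))) 
(.lf (nat_lit 144951) (.g (nat_lit 2896) (.e (nat_lit 57371) (nat_lit 2) (.e (nat_lit 90174) (nat_lit 14) (.e (nat_lit 180243) (nat_lit 5) (.e (nat_lit 532513) (nat_lit 3) (.e (nat_lit 114717) (nat_lit 23) (.e (nat_lit 98333) (nat_lit 18) (.e (nat_lit 164399) (nat_lit 256) .nil))))))) (.g (nat_lit 4) .nil .nil))))) (.nd (nat_lit 4) (.nd (nat_lit 5) 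
(.lf (nat_lit 144911) (.g (nat_lit 2457) (.e (nat_lit 57371) (nat_lit 2) (.e (nat_lit 90174) (nat_lit 14) (.e (nat_lit 180243) (nat_lit 5) (.e (nat_lit 532508) (nat_lit 2) (.e (nat_lit 106541) (nat_lit 13) (.e (nat_lit 122936) (nat_lit 23) (.e (nat_lit 516119) (nat_lit 1) (.e (nat_lit 164403) (nat_lit 256) .nil)))))))) (.g (nat_lit 4) .nil .nil))) 
(.lf (nat_lit 144943) (.g (nat_lit 1156) (.e (nat_lit 57371) (nat_lit 2) (.e (nat_lit 90174) (nat_lit 14) (.e (nat_lit 180243) (nat_lit 5) (.e (nat_lit 532513) (nat_lit 3) .nil)))) .nil))) (.nd (nat_lit 5) 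
(.lf (nat_lit 144927) (.g (nat_lit 2318) (.e (nat_lit 57371) (nat_lit 2) (.e (nat_lit 90174) (nat_lit 14) (.e (nat_lit 180243) (nat_lit 5) (.e (nat_lit 532510) (nat_lit 2) (.e (nat_lit 114432) (nat_lit 13) (.e (nat_lit 122936) (nat_lit 23) (.e (nat_lit 516117) (nat_lit 1) (.e (nat_lit 164403) (nat_lit 256) .nil)))))))) (.g (nat_lit 4) .nil .nil))) 
(.lf (nat_lit 144959) (.g (nat_lit 3627) (.e (nat_lit 57371) (nat_lit 2) (.e (nat_lit 90174) (nat_lit 14) (.e (nat_lit 180243) (nat_lit 5) (.e (nat_lit 532513) (nat_lit 3) (.e (nat_lit 114718) (nat_lit 23) (.e (nat_lit 98333) (nat_lit 18) (.e (nat_lit 164398) (nat_lit 256) .nil))))))) (.g (nat_lit 5) .nil .nil)))))))))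

noncomputable def tv1924 : DT := (.nd (nat_lit 0) (.nd (nat_lit 1) (.nd (nat_lit 2) (.nd (nat_lit 3) (.nd (nat_lit 4) (.nd (nat_lit 5) 
(.lf (nat_lit 144960) (.g (nat_lit 5197) (.e (nat_lit 57371) (nat_lit 2) (.e (nat_lit 90174) (nat_lit 14) (.e (nat_lit 180243) (nat_lit 5) (.e (nat_lit 532513) (nat_lit 3) (.e (nat_lit 114718) (nat_lit 23) (.e (nat_lit 98333) (nat_lit 18) (.e (nat_lit 164403) (nat_lit 256) .nil))))))) (.g (nat_lit 7) .nil .nil))) 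
(.lf (nat_lit 144992) (.g (nat_lit 2196) (.e (nat_lit 57371) (nat_lit 2) (.e (nat_lit 90174) (nat_lit 14) (.e (nat_lit 180243) (nat_lit 5) (.e (nat_lit 532515) (nat_lit 3) (.e (nat_lit 114717) (nat_lit 23) (.e (nat_lit 98334) (nat_lit 18) (.e (nat_lit 164401) (nat_lit 256) .nil))))))) (.g (nat_lit 4) .nil .nil)))) (.nd (nat_lit 5) 
(.lf (nat_lit 144976) (.g (nat_lit 4851) (.e (nat_lit 57371) (nat_lit 2) (.e (nat_lit 90174) (nat_lit 14) (.e (nat_lit 180243) (nat_lit 5) (.e (nat_lit 532513) (nat_lit 3) (.e (nat_lit 114719) (nat_lit 23) (.e (nat_lit 98334) (nat_lit 18) (.e (nat_lit 164396) (nat_lit 256) .nil))))))) (.g (nat_lit 0) .nil .nil))) 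
(.lf (nat_lit 145008) (.g (nat_lit 4584) (.e (nat_lit 57371) (nat_lit 2) (.e (nat_lit 90174) (nat_lit 14) (.e (nat_lit 180243) (nat_lit 5) (.e (nat_lit 532515) (nat_lit 3) (.e (nat_lit 114719) (nat_lit 23) (.e (nat_lit 98333) (nat_lit 18) (.e (nat_lit 164403) (nat_lit 256) .nil))))))) (.g (nat_lit 7) .nil .nil))))) (.nd (nat_lit 4) (.nd (nat_lit 5) 
(.lf (nat_lit 144968) (.g (nat_lit 3451) (.e (nat_lit 57371) (nat_lit 2) (.e (nat_lit 90174) (nat_lit 14) (.e (nat_lit 180243) (nat_lit 5) (.e (nat_lit 532513) (nat_lit 3) (.e (nat_lit 114719) (nat_lit 23) (.e (nat_lit 98332) (nat_lit 18) (.e (nat_lit 164396) (nat_lit 256) .nil))))))) (.g (nat_lit 5) .nil .nil))) 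
(.lf (nat_lit 145000) (.g (nat_lit 4446) (.e (nat_lit 57371) (nat_lit 2) (.e (nat_lit 90174) (nat_lit 14) (.e (nat_lit 180243) (nat_lit 5) (.e (nat_lit 532515) (nat_lit 3) (.e (nat_lit 114718) (nat_lit 23) (.e (nat_lit 98335) (nat_lit 18) (.e (nat_lit 164403) (nat_lit 256) .nil))))))) (.g (nat_lit 7) .nil .nil)))) (.nd (nat_lit 5) 
(.lf (nat_lit 144984) (.g (nat_lit 1211) (.e (nat_lit 57371) (nat_lit 2) (.e (nat_lit 90174) (nat_lit 14) (.e (nat_lit 180243) (nat_lit 5) (.e (nat_lit 532515) (nat_lit 3) .nil)))) .nil)) 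
(.lf (nat_lit 145016) (.g (nat_lit 2569) (.e (nat_lit 57371) (nat_lit 2) (.e (nat_lit 90174) (nat_lit 14) (.e (nat_lit 180243) (nat_lit 5) (.e (nat_lit 532515) (nat_lit 3) (.e (nat_lit 114719) (nat_lit 23) (.e (nat_lit 98343) (nat_lit 21) (.e (nat_lit 229708) (nat_lit 256) .nil))))))) (.g (nat_lit 4) .nil .nil)))))) (.nd (nat_lit 3) (.nd (nat_lit 4) (.nd (nat_lit 5) 
(.lf (nat_lit 144964) (.g (nat_lit 3563) (.e (nat_lit 57371) (nat_lit 2) (.e (nat_lit 90174) (nat_lit 14) (.e (nat_lit 180243) (nat_lit 5) (.e (nat_lit 532513) (nat_lit 3) (.e (nat_lit 114718) (nat_lit 23) (.e (nat_lit 98334) (nat_lit 18) (.e (nat_lit 164399) (nat_lit 256) .nil))))))) (.g (nat_lit 5) .nil .nil))) 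
(.lf (nat_lit 144996) (.g (nat_lit 2796) (.e (nat_lit 57371) (nat_lit 2) (.e (nat_lit 90174) (nat_lit 14) (.e (nat_lit 180243) (nat_lit 5) (.e (nat_lit 532515) (nat_lit 3) (.e (nat_lit 114718) (nat_lit 23) (.e (nat_lit 98334) (nat_lit 18) (.e (nat_lit 164399) (nat_lit 256) .nil))))))) (.g (nat_lit 4) .nil .nil)))) (.nd (nat_lit 5) 
(.lf (nat_lit 144980) (.g (nat_lit 3511) (.e (nat_lit 57371) (nat_lit 2) (.e (nat_lit 90174) (nat_lit 14) (.e (nat_lit 180243) (nat_lit 5) (.e (nat_lit 532513) (nat_lit 3) (.e (nat_lit 114719) (nat_lit 23) (.e (nat_lit 98334) (nat_lit 18) (.e (nat_lit 164401) (nat_lit 256) .nil))))))) (.g (nat_lit 5) .nil .nil))) 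
(.lf (nat_lit 145012) (.g (nat_lit 3195) (.e (nat_lit 57371) (nat_lit 2) (.e (nat_lit 90174) (nat_lit 14) (.e (nat_lit 180243) (nat_lit 5) (.e (nat_lit 532515) (nat_lit 3) (.e (nat_lit 114719) (nat_lit 23) (.e (nat_lit 98334) (nat_lit 18) (.e (nat_lit 164401) (nat_lit 256) .nil))))))) (.g (nat_lit 5) .nil .nil))))) (.nd (nat_lit 4) (.nd (nat_lit 5) 
(.lf (nat_lit 144972) (.g (nat_lit 3838) (.e (nat_lit 57371) (nat_lit 2) (.e (nat_lit 90174) (nat_lit 14) (.e (nat_lit 180243) (nat_lit 5) (.e (nat_lit 532513) (nat_lit 3) (.e (nat_lit 114719) (nat_lit 23) (.e (nat_lit 98333) (nat_lit 18) (.e (nat_lit 164397) (nat_lit 256) .nil))))))) (.g (nat_lit 6) .nil .nil))) 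
(.lf (nat_lit 145004) (.g (nat_lit 3568) (.e (nat_lit 57371) (nat_lit 2) (.e (nat_lit 90174) (nat_lit 14) (.e (nat_lit 180243) (nat_lit 5) (.e (nat_lit 532515) (nat_lit 3) (.e (nat_lit 114719) (nat_lit 23) (.e (nat_lit 98333) (nat_lit 18) (.e (nat_lit 164396) (nat_lit 256) .nil))))))) (.g (nat_lit 6) .nil .nil)))) (.nd (nat_lit 5) 
(.lf (nat_lit 144988) (.g (nat_lit 2594) (.e (nat_lit 57371) (nat_lit 2) (.e (nat_lit 90174) (nat_lit 14) (.e (nat_lit 180243) (nat_lit 5) (.e (nat_lit 532515) (nat_lit 3) (.e (nat_lit 114716) (nat_lit 22) (.e (nat_lit 90181) (nat_lit 16) (.e (nat_lit 229377) (nat_lit 0) (.e (nat_lit 5934) (nat_lit 322) .nil)))))))) (.g (nat_lit 4) .nil .nil))) 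
(.lf (nat_lit 145020) (.g (nat_lit 2528) (.e (nat_lit 57371) (nat_lit 2) (.e (nat_lit 90174) (nat_lit 14) (.e (nat_lit 180250) (nat_lit 10) (.e (nat_lit 573480) (nat_lit 13) (.e (nat_lit 73472) (nat_lit 18) (.e (nat_lit 204840) (nat_lit 21) (.e (nat_lit 123194) (nat_lit 266) .nil))))))) (.g (nat_lit 4) .nil .nil))))))) (.nd (nat_lit 2) (.nd (nat_lit 3) (.nd (nat_lit 4) (.nd (nat_lit 5) 
(.lf (nat_lit 144962) (.g (nat_lit 4406) (.e (nat_lit 57371) (nat_lit 2) (.e (nat_lit 90174) (nat_lit 14) (.e (nat_lit 180243) (nat_lit 5) (.e (nat_lit 532513) (nat_lit 3) (.e (nat_lit 114718) (nat_lit 23) (.e (nat_lit 98334) (nat_lit 18) (.e (nat_lit 164397) (nat_lit 256) .nil))))))) (.g (nat_lit 6) .nil .nil))) 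
(.lf (nat_lit 144994) (.g (nat_lit 3196) (.e (nat_lit 57371) (nat_lit 2) (.e (nat_lit 90174) (nat_lit 14) (.e (nat_lit 180243) (nat_lit 5) (.e (nat_lit 532515) (nat_lit 3) (.e (nat_lit 114718) (nat_lit 23) (.e (nat_lit 98333) (nat_lit 18) (.e (nat_lit 164399) (nat_lit 256) .nil))))))) (.g (nat_lit 5) .nil .nil)))) (.nd (nat_lit 5) 
(.lf (nat_lit 144978) (.g (nat_lit 4271) (.e (nat_lit 57371) (nat_lit 2) (.e (nat_lit 90174) (nat_lit 14) (.e (nat_lit 180243) (nat_lit 5) (.e (nat_lit 532513) (nat_lit 3) (.e (nat_lit 114719) (nat_lit 23) (.e (nat_lit 98334) (nat_lit 18) (.e (nat_lit 164398) (nat_lit 256) .nil))))))) (.g (nat_lit 6) .nil .nil))) 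
(.lf (nat_lit 145010) (.g (nat_lit 3732) (.e (nat_lit 57371) (nat_lit 2) (.e (nat_lit 90174) (nat_lit 14) (.e (nat_lit 180243) (nat_lit 5) (.e (nat_lit 532515) (nat_lit 3) (.e (nat_lit 114719) (nat_lit 23) (.e (nat_lit 98334) (nat_lit 18) (.e (nat_lit 164397) (nat_lit 256) .nil))))))) (.g (nat_lit 6) .nil .nil))))) (.nd (nat_lit 4) (.nd (nat_lit 5) 
(.lf (nat_lit 144970) (.g (nat_lit 3572) (.e (nat_lit 57371) (nat_lit 2) (.e (nat_lit 90174) (nat_lit 14) (.e (nat_lit 180243) (nat_lit 5) (.e (nat_lit 532513) (nat_lit 3) (.e (nat_lit 114719) (nat_lit 23) (.e (nat_lit 98332) (nat_lit 18) (.e (nat_lit 164403) (nat_lit 256) .nil))))))) (.g (nat_lit 5) .nil .nil))) 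
(.lf (nat_lit 145002) (.g (nat_lit 3091) (.e (nat_lit 57371) (nat_lit 2) (.e (nat_lit 90174) (nat_lit 14) (.e (nat_lit 180243) (nat_lit 5) (.e (nat_lit 532515) (nat_lit 3) (.e (nat_lit 114719) (nat_lit 23) (.e (nat_lit 98332) (nat_lit 18) (.e (nat_lit 164397) (nat_lit 256) .nil))))))) (.g (nat_lit 5) .nil .nil)))) (.nd (nat_lit 5) 
(.lf (nat_lit 144986) (.g (nat_lit 1650) (.e (nat_lit 57371) (nat_lit 2) (.e (nat_lit 90174) (nat_lit 14) (.e (nat_lit 180243) (nat_lit 5) (.e (nat_lit 532515) (nat_lit 3) (.e (nat_lit 114715) (nat_lit 22) .nil))))) .nil)) 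
(.lf (nat_lit 145018) (.g (nat_lit 1038) (.e (nat_lit 57371) (nat_lit 2) (.e (nat_lit 90174) (nat_lit 14) (.e (nat_lit 180245) (nat_lit 5) (.e (nat_lit 532515) (nat_lit 3) .nil)))) .nil))))) (.nd (nat_lit 3) (.nd (nat_lit 4) (.nd (nat_lit 5) 
(.lf (nat_lit 144966) (.g (nat_lit 2459) (.e (nat_lit 57371) (nat_lit 2) (.e (nat_lit 90174) (nat_lit 14) (.e (nat_lit 180243) (nat_lit 5) (.e (nat_lit 532513) (nat_lit 3) (.e (nat_lit 114718) (nat_lit 23) (.e (nat_lit 98335) (nat_lit 18) (.e (nat_lit 164402) (nat_lit 256) .nil))))))) (.g (nat_lit 4) .nil .nil))) 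
(.lf (nat_lit 144998) (.g (nat_lit 3921) (.e (nat_lit 57371) (nat_lit 2) (.e (nat_lit 90174) (nat_lit 14) (.e (nat_lit 180243) (nat_lit 5) (.e (nat_lit 532515) (nat_lit 3) (.e (nat_lit 114718) (nat_lit 23) (.e (nat_lit 98334) (nat_lit 18) (.e (nat_lit 164403) (nat_lit 256) .nil))))))) (.g (nat_lit 6) .nil .nil)))) (.nd (nat_lit 5) 
(.lf (nat_lit 144982) (.g (nat_lit 2713) (.e (nat_lit 57371) (nat_lit 2) (.e (nat_lit 90174) (nat_lit 14) (.e (nat_lit 180243) (nat_lit 5) (.e (nat_lit 532513) (nat_lit 3) (.e (nat_lit 114719) (nat_lit 23) (.e (nat_lit 98335) (nat_lit 18) (.e (nat_lit 164402) (nat_lit 256) .nil))))))) (.g (nat_lit 4) .nil .nil))) 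
(.lf (nat_lit 145014) (.g (nat_lit 3932) (.e (nat_lit 57371) (nat_lit 2) (.e (nat_lit 90174) (nat_lit 14) (.e (nat_lit 180243) (nat_lit 5) (.e (nat_lit 532515) (nat_lit 3) (.e (nat_lit 114719) (nat_lit 23) (.e (nat_lit 98335) (nat_lit 18) (.e (nat_lit 164396) (nat_lit 256) .nil))))))) (.g (nat_lit 6) .nil .nil))))) (.nd (nat_lit 4) (.nd (nat_lit 5) 
(.lf (nat_lit 144974) (.g (nat_lit 3733) (.e (nat_lit 57371) (nat_lit 2) (.e (nat_lit 90174) (nat_lit 14) (.e (nat_lit 180243) (nat_lit 5) (.e (nat_lit 532513) (nat_lit 3) (.e (nat_lit 114719) (nat_lit 23) (.e (nat_lit 98333) (nat_lit 18) (.e (nat_lit 164399) (nat_lit 256) .nil))))))) (.g (nat_lit 5) .nil .nil))) 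
(.lf (nat_lit 145006) (.g (nat_lit 3094) (.e (nat_lit 57371) (nat_lit 2) (.e (nat_lit 90174) (nat_lit 14) (.e (nat_lit 180243) (nat_lit 5) (.e (nat_lit 532515) (nat_lit 3) (.e (nat_lit 114719) (nat_lit 23) (.e (nat_lit 98333) (nat_lit 18) (.e (nat_lit 164398) (nat_lit 256) .nil))))))) (.g (nat_lit 5) .nil .nil)))) (.nd (nat_lit 5) 
(.lf (nat_lit 144990) (.g (nat_lit 2671) (.e (nat_lit 57371) (nat_lit 2) (.e (nat_lit 90174) (nat_lit 14) (.e (nat_lit 180243) (nat_lit 5) (.e (nat_lit 532515) (nat_lit 3) (.e (nat_lit 114716) (nat_lit 22) (.e (nat_lit 90181) (nat_lit 16) (.e (nat_lit 229380) (nat_lit 0) (.e (nat_lit 5934) (nat_lit 322) .nil)))))))) (.g (nat_lit 4) .nil .nil))) 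
(.lf (nat_lit 145022) (.g (nat_lit 2920) (.e (nat_lit 57371) (nat_lit 2) (.e (nat_lit 90174) (nat_lit 14) (.e (nat_lit 180250) (nat_lit 10) (.e (nat_lit 573481) (nat_lit 13) (.e (nat_lit 73472) (nat_lit 18) (.e (nat_lit 204840) (nat_lit 21) (.e (nat_lit 123195) (nat_lit 266) .nil))))))) (.g (nat_lit 4) .nil .nil)))))))) 
(.nd (nat_lit 1) (.nd (nat_lit 2) (.nd (nat_lit 3) (.nd (nat_lit 4) (.nd (nat_lit 5) 
(.lf (nat_lit 144961) (.g (nat_lit 5138) (.e (nat_lit 57371) (nat_lit 2) (.e (nat_lit 90174) (nat_lit 14) (.e (nat_lit 180243) (nat_lit 5) (.e (nat_lit 532513) (nat_lit 3) (.e (nat_lit 114718) (nat_lit 23) (.e (nat_lit 98334) (nat_lit 18) (.e (nat_lit 164396) (nat_lit 256) .nil))))))) (.g (nat_lit 0) .nil .nil))) 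
(.lf (nat_lit 144993) (.g (nat_lit 3156) (.e (nat_lit 57371) (nat_lit 2) (.e (nat_lit 90174) (nat_lit 14) (.e (nat_lit 180243) (nat_lit 5) (.e (nat_lit 532515) (nat_lit 3) (.e (nat_lit 114718) (nat_lit 23) (.e (nat_lit 98333) (nat_lit 18) (.e (nat_lit 164397) (nat_lit 256) .nil))))))) (.g (nat_lit 5) .nil .nil)))) (.nd (nat_lit 5) 
(.lf (nat_lit 144977) (.g (nat_lit 4390) (.e (nat_lit 57371) (nat_lit 2) (.e (nat_lit 90174) (nat_lit 14) (.e (nat_lit 180243) (nat_lit 5) (.e (nat_lit 532513) (nat_lit 3) (.e (nat_lit 114719) (nat_lit 23) (.e (nat_lit 98334) (nat_lit 18) (.e (nat_lit 164397) (nat_lit 256) .nil))))))) (.g (nat_lit 6) .nil .nil))) 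
(.lf (nat_lit 145009) (.g (nat_lit 4554) (.e (nat_lit 57371) (nat_lit 2) (.e (nat_lit 90174) (nat_lit 14) (.e (nat_lit 180243) (nat_lit 5) (.e (nat_lit 532515) (nat_lit 3) (.e (nat_lit 114719) (nat_lit 23) (.e (nat_lit 98334) (nat_lit 18) (.e (nat_lit 164396) (nat_lit 256) .nil))))))) (.g (nat_lit 0) .nil .nil))))) (.nd (nat_lit 4) (.nd (nat_lit 5) 
(.lf (nat_lit 144969) (.g (nat_lit 2855) (.e (nat_lit 57371) (nat_lit 2) (.e (nat_lit 90174) (nat_lit 14) (.e (nat_lit 180243) (nat_lit 5) (.e (nat_lit 532513) (nat_lit 3) (.e (nat_lit 114719) (nat_lit 23) (.e (nat_lit 98332) (nat_lit 18) (.e (nat_lit 164397) (nat_lit 256) .nil))))))) (.g (nat_lit 4) .nil .nil))) 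
(.lf (nat_lit 145001) (.g (nat_lit 3687) (.e (nat_lit 57371) (nat_lit 2) (.e (nat_lit 90174) (nat_lit 14) (.e (nat_lit 180243) (nat_lit 5) (.e (nat_lit 532515) (nat_lit 3) (.e (nat_lit 114719) (nat_lit 23) (.e (nat_lit 98332) (nat_lit 18) (.e (nat_lit 164396) (nat_lit 256) .nil))))))) (.g (nat_lit 0) .nil .nil)))) (.nd (nat_lit 5) 
(.lf (nat_lit 144985) (.g (nat_lit 2567) (.e (nat_lit 57371) (nat_lit 2) (.e (nat_lit 90174) (nat_lit 14) (.e (nat_lit 180243) (nat_lit 5) (.e (nat_lit 532515) (nat_lit 3) (.e (nat_lit 114701) (nat_lit 20) (.e (nat_lit 1781) (nat_lit 119) (.e (nat_lit 516119) (nat_lit 1) (.e (nat_lit 164396) (nat_lit 256) .nil)))))))) (.g (nat_lit 4) .nil .nil))) 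
(.lf (nat_lit 145017) (.g (nat_lit 504) (.e (nat_lit 57371) (nat_lit 2) (.e (nat_lit 90174) (nat_lit 14) (.e (nat_lit 180245) (nat_lit 5) .nil))) .nil))))) (.nd (nat_lit 3) (.nd (nat_lit 4) (.nd (nat_lit 5) 
(.lf (nat_lit 144965) (.g (nat_lit 3890) (.e (nat_lit 57371) (nat_lit 2) (.e (nat_lit 90174) (nat_lit 14) (.e (nat_lit 180243) (nat_lit 5) (.e (nat_lit 532513) (nat_lit 3) (.e (nat_lit 114718) (nat_lit 23) (.e (nat_lit 98335) (nat_lit 18) (.e (nat_lit 164396) (nat_lit 256) .nil))))))) (.g (nat_lit 6) .nil .nil))) 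
(.lf (nat_lit 144997) (.g (nat_lit 3012) (.e (nat_lit 57371) (nat_lit 2) (.e (nat_lit 90174) (nat_lit 14) (.e (nat_lit 180243) (nat_lit 5) (.e (nat_lit 532515) (nat_lit 3) (.e (nat_lit 114718) (nat_lit 23) (.e (nat_lit 98334) (nat_lit 18) (.e (nat_lit 164401) (nat_lit 256) .nil))))))) (.g (nat_lit 5) .nil .nil)))) (.nd (nat_lit 5) 
(.lf (nat_lit 144981) (.g (nat_lit 4144) (.e (nat_lit 57371) (nat_lit 2) (.e (nat_lit 90174) (nat_lit 14) (.e (nat_lit 180243) (nat_lit 5) (.e (nat_lit 532513) (nat_lit 3) (.e (nat_lit 114719) (nat_lit 23) (.e (nat_lit 98335) (nat_lit 18) (.e (nat_lit 164396) (nat_lit 256) .nil))))))) (.g (nat_lit 6) .nil .nil))) 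
(.lf (nat_lit 145013) (.g (nat_lit 4132) (.e (nat_lit 57371) (nat_lit 2) (.e (nat_lit 90174) (nat_lit 14) (.e (nat_lit 180243) (nat_lit 5) (.e (nat_lit 532515) (nat_lit 3) (.e (nat_lit 114719) (nat_lit 23) (.e (nat_lit 98334) (nat_lit 18) (.e (nat_lit 164403) (nat_lit 256) .nil))))))) (.g (nat_lit 6) .nil .nil))))) (.nd (nat_lit 4) (.nd (nat_lit 5) 
(.lf (nat_lit 144973) (.g (nat_lit 3439) (.e (nat_lit 57371) (nat_lit 2) (.e (nat_lit 90174) (nat_lit 14) (.e (nat_lit 180243) (nat_lit 5) (.e (nat_lit 532513) (nat_lit 3) (.e (nat_lit 114719) (nat_lit 23) (.e (nat_lit 98333) (nat_lit 18) (.e (nat_lit 164398) (nat_lit 256) .nil))))))) (.g (nat_lit 5) .nil .nil))) 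
(.lf (nat_lit 145005) (.g (nat_lit 3376) (.e (nat_lit 57371) (nat_lit 2) (.e (nat_lit 90174) (nat_lit 14) (.e (nat_lit 180243) (nat_lit 5) (.e (nat_lit 532515) (nat_lit 3) (.e (nat_lit 114719) (nat_lit 23) (.e (nat_lit 98333) (nat_lit 18) (.e (nat_lit 164397) (nat_lit 256) .nil))))))) (.g (nat_lit 5) .nil .nil)))) (.nd (nat_lit 5) 
(.lf (nat_lit 144989) (.g (nat_lit 2546) (.e (nat_lit 57371) (nat_lit 2) (.e (nat_lit 90174) (nat_lit 14) (.e (nat_lit 180243) (nat_lit 5) (.e (nat_lit 532515) (nat_lit 3) (.e (nat_lit 114716) (nat_lit 22) (.e (nat_lit 90181) (nat_lit 16) (.e (nat_lit 229378) (nat_lit 0) (.e (nat_lit 5935) (nat_lit 322) .nil)))))))) (.g (nat_lit 4) .nil .nil))) 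
(.lf (nat_lit 145021) (.g (nat_lit 1769) (.e (nat_lit 57371) (nat_lit 2) (.e (nat_lit 90174) (nat_lit 14) (.e (nat_lit 180250) (nat_lit 10) (.e (nat_lit 573481) (nat_lit 13) .nil)))) .nil)))))) (.nd (nat_lit 2) (.nd (nat_lit 3) (.nd (nat_lit 4) (.nd (nat_lit 5) 
(.lf (nat_lit 144963) (.g (nat_lit 4429) (.e (nat_lit 57371) (nat_lit 2) (.e (nat_lit 90174) (nat_lit 14) (.e (nat_lit 180243) (nat_lit 5) (.e (nat_lit 532513) (nat_lit 3) (.e (nat_lit 114718) (nat_lit 23) (.e (nat_lit 98334) (nat_lit 18) (.e (nat_lit 164398) (nat_lit 256) .nil))))))) (.g (nat_lit 6) .nil .nil))) 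
(.lf (nat_lit 144995) (.g (nat_lit 3877) (.e (nat_lit 57371) (nat_lit 2) (.e (nat_lit 90174) (nat_lit 14) (.e (nat_lit 180243) (nat_lit 5) (.e (nat_lit 532515) (nat_lit 3) (.e (nat_lit 114718) (nat_lit 23) (.e (nat_lit 98334) (nat_lit 18) (.e (nat_lit 164397) (nat_lit 256) .nil))))))) (.g (nat_lit 6) .nil .nil)))) (.nd (nat_lit 5) 
(.lf (nat_lit 144979) (.g (nat_lit 3420) (.e (nat_lit 57371) (nat_lit 2) (.e (nat_lit 90174) (nat_lit 14) (.e (nat_lit 180243) (nat_lit 5) (.e (nat_lit 532513) (nat_lit 3) (.e (nat_lit 114719) (nat_lit 23) (.e (nat_lit 98334) (nat_lit 18) (.e (nat_lit 164399) (nat_lit 256) .nil))))))) (.g (nat_lit 5) .nil .nil))) 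
(.lf (nat_lit 145011) (.g (nat_lit 2995) (.e (nat_lit 57371) (nat_lit 2) (.e (nat_lit 90174) (nat_lit 14) (.e (nat_lit 180243) (nat_lit 5) (.e (nat_lit 532515) (nat_lit 3) (.e (nat_lit 114719) (nat_lit 23) (.e (nat_lit 98334) (nat_lit 18) (.e (nat_lit 164399) (nat_lit 256) .nil))))))) (.g (nat_lit 5) .nil .nil))))) (.nd (nat_lit 4) (.nd (nat_lit 5) 
(.lf (nat_lit 144971) (.g (nat_lit 3950) (.e (nat_lit 57371) (nat_lit 2) (.e (nat_lit 90174) (nat_lit 14) (.e (nat_lit 180243) (nat_lit 5) (.e (nat_lit 532513) (nat_lit 3) (.e (nat_lit 114719) (nat_lit 23) (.e (nat_lit 98333) (nat_lit 18) (.e (nat_lit 164396) (nat_lit 256) .nil))))))) (.g (nat_lit 6) .nil .nil))) 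
(.lf (nat_lit 145003) (.g (nat_lit 2353) (.e (nat_lit 57371) (nat_lit 2) (.e (nat_lit 90174) (nat_lit 14) (.e (nat_lit 180243) (nat_lit 5) (.e (nat_lit 532515) (nat_lit 3) (.e (nat_lit 114719) (nat_lit 23) (.e (nat_lit 98332) (nat_lit 18) (.e (nat_lit 164398) (nat_lit 256) .nil))))))) (.g (nat_lit 4) .nil .nil)))) (.nd (nat_lit 5) 
(.lf (nat_lit 144987) (.g (nat_lit 1713) (.e (nat_lit 57371) (nat_lit 2) (.e (nat_lit 90174) (nat_lit 14) (.e (nat_lit 180243) (nat_lit 5) (.e (nat_lit 532515) (nat_lit 3) (.e (nat_lit 114716) (nat_lit 22) .nil))))) .nil)) 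
(.lf (nat_lit 145019) (.g (nat_lit 2061) (.e (nat_lit 57371) (nat_lit 2) (.e (nat_lit 90174) (nat_lit 14) (.e (nat_lit 180250) (nat_lit 10) (.e (nat_lit 573480) (nat_lit 13) (.e (nat_lit 73472) (nat_lit 18) .nil))))) .nil))))) (.nd (nat_lit 3) (.nd (nat_lit 4) (.nd (nat_lit 5) 
(.lf (nat_lit 144967) (.g (nat_lit 2837) (.e (nat_lit 57371) (nat_lit 2) (.e (nat_lit 90174) (nat_lit 14) (.e (nat_lit 180243) (nat_lit 5) (.e (nat_lit 532513) (nat_lit 3) (.e (nat_lit 114718) (nat_lit 23) (.e (nat_lit 98343) (nat_lit 21) (.e (nat_lit 229707) (nat_lit 256) .nil))))))) (.g (nat_lit 4) .nil .nil))) 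
(.lf (nat_lit 144999) (.g (nat_lit 2899) (.e (nat_lit 57371) (nat_lit 2) (.e (nat_lit 90174) (nat_lit 14) (.e (nat_lit 180243) (nat_lit 5) (.e (nat_lit 532515) (nat_lit 3) (.e (nat_lit 114718) (nat_lit 23) (.e (nat_lit 98335) (nat_lit 18) (.e (nat_lit 164396) (nat_lit 256) .nil))))))) (.g (nat_lit 5) .nil .nil)))) (.nd (nat_lit 5) 
(.lf (nat_lit 144983) (.g (nat_lit 4990) (.e (nat_lit 57371) (nat_lit 2) (.e (nat_lit 90174) (nat_lit 14) (.e (nat_lit 180243) (nat_lit 5) (.e (nat_lit 532513) (nat_lit 3) (.e (nat_lit 114719) (nat_lit 23) (.e (nat_lit 98335) (nat_lit 18) (.e (nat_lit 164403) (nat_lit 256) .nil))))))) (.g (nat_lit 7) .nil .nil))) 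
(.lf (nat_lit 145015) (.g (nat_lit 3417) (.e (nat_lit 57371) (nat_lit 2) (.e (nat_lit 90174) (nat_lit 14) (.e (nat_lit 180243) (nat_lit 5) (.e (nat_lit 532515) (nat_lit 3) (.e (nat_lit 114719) (nat_lit 23) (.e (nat_lit 98343) (nat_lit 21) (.e (nat_lit 229707) (nat_lit 256) .nil))))))) (.g (nat_lit 5) .nil .nil))))) (.nd (nat_lit 4) (.nd (nat_lit 5) 
(.lf (nat_lit 144975) (.g (nat_lit 4949) (.e (nat_lit 57371) (nat_lit 2) (.e (nat_lit 90174) (nat_lit 14) (.e (nat_lit 180243) (nat_lit 5) (.e (nat_lit 532513) (nat_lit 3) (.e (nat_lit 114719) (nat_lit 23) (.e (nat_lit 98333) (nat_lit 18) (.e (nat_lit 164403) (nat_lit 256) .nil))))))) (.g (nat_lit 7) .nil .nil))) 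
(.lf (nat_lit 145007) (.g (nat_lit 3418) (.e (nat_lit 57371) (nat_lit 2) (.e (nat_lit 90174) (nat_lit 14) (.e (nat_lit 180243) (nat_lit 5) (.e (nat_lit 532515) (nat_lit 3) (.e (nat_lit 114719) (nat_lit 23) (.e (nat_lit 98333) (nat_lit 18) (.e (nat_lit 164399) (nat_lit 256) .nil))))))) (.g (nat_lit 5) .nil .nil)))) (.nd (nat_lit 5) 
(.lf (nat_lit 144991) (.g (nat_lit 2672) (.e (nat_lit 57371) (nat_lit 2) (.e (nat_lit 90174) (nat_lit 14) (.e (nat_lit 180243) (nat_lit 5) (.e (nat_lit 532515) (nat_lit 3) (.e (nat_lit 114717) (nat_lit 23) (.e (nat_lit 98333) (nat_lit 18) (.e (nat_lit 164399) (nat_lit 256) .nil))))))) (.g (nat_lit 4) .nil .nil))) 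
(.lf (nat_lit 145023) (.g (nat_lit 3292) (.e (nat_lit 57371) (nat_lit 2) (.e (nat_lit 90174) (nat_lit 14) (.e (nat_lit 180250) (nat_lit 10) (.e (nat_lit 573482) (nat_lit 13) (.e (nat_lit 65569) (nat_lit 3) (.e (nat_lit 98334) (nat_lit 18) (.e (nat_lit 171776) (nat_lit 160) .nil))))))) (.g (nat_lit 5) .nil .nil)))))))))

noncomputable def tv1925 : DT := (.nd (nat_lit 0) (.nd (nat_lit 1) (.nd (nat_lit 2) (.nd (nat_lit 3) (.nd (nat_lit 4) (.nd (nat_lit 5) 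
(.lf (nat_lit 145024) (.g (nat_lit 2605) (.e (nat_lit 57371) (nat_lit 2) (.e (nat_lit 90174) (nat_lit 14) (.e (nat_lit 180250) (nat_lit 10) (.e (nat_lit 573482) (nat_lit 13) (.e (nat_lit 65570) (nat_lit 3) (.e (nat_lit 98333) (nat_lit 18) (.e (nat_lit 171776) (nat_lit 160) .nil))))))) (.g (nat_lit 4) .nil .nil))) 
(.lf (nat_lit 145056) (.g (nat_lit 2329) (.e (nat_lit 57371) (nat_lit 2) (.e (nat_lit 90174) (nat_lit 14) (.e (nat_lit 180250) (nat_lit 10) (.e (nat_lit 573489) (nat_lit 14) (.e (nat_lit 73754) (nat_lit 8) .nil))))) .nil))) (.nd (nat_lit 5) 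
(.lf (nat_lit 145040) (.g (nat_lit 4546) (.e (nat_lit 57371) (nat_lit 2) (.e (nat_lit 90174) (nat_lit 14) (.e (nat_lit 180250) (nat_lit 10) (.e (nat_lit 573487) (nat_lit 14) (.e (nat_lit 73746) (nat_lit 3) (.e (nat_lit 516115) (nat_lit 1) (.e (nat_lit 171776) (nat_lit 160) .nil))))))) (.g (nat_lit 6) .nil .nil))) 
(.lf (nat_lit 145072) (.g (nat_lit 2668) (.e (nat_lit 57371) (nat_lit 2) (.e (nat_lit 90176) (nat_lit 15) (.e (nat_lit 188423) (nat_lit 11) (.e (nat_lit 336387) (nat_lit 27) (.e (nat_lit 426098) (nat_lit 1) (.e (nat_lit 164399) (nat_lit 256) .nil)))))) (.g (nat_lit 0) .nil .nil))))) (.nd (nat_lit 4) (.nd (nat_lit 5) 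
(.lf (nat_lit 145032) (.g (nat_lit 2640) (.e (nat_lit 57371) (nat_lit 2) (.e (nat_lit 90174) (nat_lit 14) (.e (nat_lit 180250) (nat_lit 10) (.e (nat_lit 573482) (nat_lit 13) (.e (nat_lit 73472) (nat_lit 18) (.e (nat_lit 204840) (nat_lit 21) (.e (nat_lit 123196) (nat_lit 266) .nil))))))) (.g (nat_lit 4) .nil .nil))) 
(.lf (nat_lit 145064) (.g (nat_lit 3966) (.e (nat_lit 57371) (nat_lit 2) (.e (nat_lit 90174) (nat_lit 14) (.e (nat_lit 180251) (nat_lit 10) (.e (nat_lit 573489) (nat_lit 14) (.e (nat_lit 73755) (nat_lit 8) (.e (nat_lit 557068) (nat_lit 9) (.e (nat_lit 2719) (nat_lit 171) (.e (nat_lit 229707) (nat_lit 256) .nil)))))))) (.g (nat_lit 6) .nil .nil)))) (.nd (nat_lit 5) 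
(.lf (nat_lit 145048) (.g (nat_lit 2156) (.e (nat_lit 57371) (nat_lit 2) (.e (nat_lit 90174) (nat_lit 14) (.e (nat_lit 180250) (nat_lit 10) (.e (nat_lit 573487) (nat_lit 14) (.e (nat_lit 73753) (nat_lit 8) .nil))))) .nil)) 
(.lf (nat_lit 145080) (.g (nat_lit 451) (.e (nat_lit 57371) (nat_lit 2) (.e (nat_lit 90176) (nat_lit 15) (.e (nat_lit 196352) (nat_lit 19) .nil))) .nil))))) (.nd (nat_lit 3) (.nd (nat_lit 4) (.nd (nat_lit 5) 
(.lf (nat_lit 145028) (.g (nat_lit 2515) (.e (nat_lit 57371) (nat_lit 2) (.e (nat_lit 90174) (nat_lit 14) (.e (nat_lit 180250) (nat_lit 10) (.e (nat_lit 573482) (nat_lit 13) (.e (nat_lit 73472) (nat_lit 18) .nil))))) .nil)) 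
(.lf (nat_lit 145060) (.g (nat_lit 2478) (.e (nat_lit 57371) (nat_lit 2) (.e (nat_lit 90174) (nat_lit 14) (.e (nat_lit 180251) (nat_lit 10) (.e (nat_lit 573484) (nat_lit 13) (.e (nat_lit 65571) (nat_lit 3) .nil))))) .nil))) (.nd (nat_lit 5) 
(.lf (nat_lit 145044) (.g (nat_lit 2505) (.e (nat_lit 57371) (nat_lit 2) (.e (nat_lit 90174) (nat_lit 14) (.e (nat_lit 180250) (nat_lit 10) (.e (nat_lit 573487) (nat_lit 14) (.e (nat_lit 73747) (nat_lit 3) (.e (nat_lit 516097) (nat_lit 0) (.e (nat_lit 2430) (nat_lit 157) (.e (nat_lit 6828) (nat_lit 367) .nil)))))))) (.g (nat_lit 4) .nil .nil))) 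
(.lf (nat_lit 145076) (.g (nat_lit 3007) (.e (nat_lit 57371) (nat_lit 2) (.e (nat_lit 90176) (nat_lit 15) (.e (nat_lit 188423) (nat_lit 11) (.e (nat_lit 336387) (nat_lit 27) (.e (nat_lit 426108) (nat_lit 1) (.e (nat_lit 164396) (nat_lit 256) .nil)))))) (.g (nat_lit 0) .nil .nil))))) (.nd (nat_lit 4) (.nd (nat_lit 5) 
(.lf (nat_lit 145036) (.g (nat_lit 3167) (.e (nat_lit 57371) (nat_lit 2) (.e (nat_lit 90174) (nat_lit 14) (.e (nat_lit 180250) (nat_lit 10) (.e (nat_lit 573484) (nat_lit 13) (.e (nat_lit 65571) (nat_lit 3) (.e (nat_lit 98319) (nat_lit 17) (.e (nat_lit 2399) (nat_lit 157) (.e (nat_lit 6830) (nat_lit 367) .nil)))))))) (.g (nat_lit 4) .nil .nil))) 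
(.lf (nat_lit 145068) (.g (nat_lit 1774) (.e (nat_lit 57371) (nat_lit 2) (.e (nat_lit 90176) (nat_lit 15) (.e (nat_lit 188421) (nat_lit 11) (.e (nat_lit 336387) (nat_lit 27) (.e (nat_lit 426107) (nat_lit 1) (.e (nat_lit 164401) (nat_lit 256) .nil)))))) (.g (nat_lit 4) .nil .nil)))) (.nd (nat_lit 5) 
(.lf (nat_lit 145052) (.g (nat_lit 1234) (.e (nat_lit 57371) (nat_lit 2) (.e (nat_lit 90174) (nat_lit 14) (.e (nat_lit 180250) (nat_lit 10) (.e (nat_lit 573489) (nat_lit 14) .nil)))) .nil)) 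
(.lf (nat_lit 145084) (.g (nat_lit 2340) (.e (nat_lit 57371) (nat_lit 2) (.e (nat_lit 90176) (nat_lit 15) (.e (nat_lit 188447) (nat_lit 22) (.e (nat_lit 196666) (nat_lit 13) (.e (nat_lit 65539) (nat_lit 0) .nil))))) .nil)))))) (.nd (nat_lit 2) (.nd (nat_lit 3) (.nd (nat_lit 4) (.nd (nat_lit 5) 
(.lf (nat_lit 145026) (.g (nat_lit 2901) (.e (nat_lit 57371) (nat_lit 2) (.e (nat_lit 90174) (nat_lit 14) (.e (nat_lit 180250) (nat_lit 10) (.e (nat_lit 573482) (nat_lit 13) (.e (nat_lit 65571) (nat_lit 3) (.e (nat_lit 98319) (nat_lit 17) (.e (nat_lit 2399) (nat_lit 157) (.e (nat_lit 6828) (nat_lit 367) .nil)))))))) (.g (nat_lit 4) .nil .nil))) 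
(.lf (nat_lit 145058) (.g (nat_lit 2972) (.e (nat_lit 57371) (nat_lit 2) (.e (nat_lit 90174) (nat_lit 14) (.e (nat_lit 180251) (nat_lit 10) (.e (nat_lit 573484) (nat_lit 13) (.e (nat_lit 65566) (nat_lit 2) (.e (nat_lit 90165) (nat_lit 12) (.e (nat_lit 163849) (nat_lit 0) (.e (nat_lit 6830) (nat_lit 367) .nil)))))))) (.g (nat_lit 4) .nil .nil)))) (.nd (nat_lit 5) 
(.lf (nat_lit 145042) (.g (nat_lit 4193) (.e (nat_lit 57371) (nat_lit 2) (.e (nat_lit 90174) (nat_lit 14) (.e (nat_lit 180250) (nat_lit 10) (.e (nat_lit 573487) (nat_lit 14) (.e (nat_lit 73746) (nat_lit 3) (.e (nat_lit 516119) (nat_lit 1) (.e (nat_lit 171776) (nat_lit 160) .nil))))))) (.g (nat_lit 5) .nil .nil))) 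
(.lf (nat_lit 145074) (.g (nat_lit 2637) (.e (nat_lit 57371) (nat_lit 2) (.e (nat_lit 90176) (nat_lit 15) (.e (nat_lit 188423) (nat_lit 11) (.e (nat_lit 336387) (nat_lit 27) (.e (nat_lit 426100) (nat_lit 1) (.e (nat_lit 164399) (nat_lit 256) .nil)))))) (.g (nat_lit 0) .nil .nil))))) (.nd (nat_lit 4) (.nd (nat_lit 5) 
(.lf (nat_lit 145034) (.g (nat_lit 2890) (.e (nat_lit 57371) (nat_lit 2) (.e (nat_lit 90174) (nat_lit 14) (.e (nat_lit 180250) (nat_lit 10) (.e (nat_lit 573484) (nat_lit 13) (.e (nat_lit 65569) (nat_lit 3) .nil))))) .nil)) 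
(.lf (nat_lit 145066) (.g (nat_lit 2780) (.e (nat_lit 57371) (nat_lit 2) (.e (nat_lit 90174) (nat_lit 14) (.e (nat_lit 180252) (nat_lit 10) (.e (nat_lit 573487) (nat_lit 14) (.e (nat_lit 73747) (nat_lit 3) .nil))))) .nil))) (.nd (nat_lit 5) 
(.lf (nat_lit 145050) (.g (nat_lit 2563) (.e (nat_lit 57371) (nat_lit 2) (.e (nat_lit 90174) (nat_lit 14) (.e (nat_lit 180250) (nat_lit 10) (.e (nat_lit 573488) (nat_lit 14) (.e (nat_lit 73747) (nat_lit 3) .nil))))) .nil)) 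
(.lf (nat_lit 145082) (.g (nat_lit 2300) (.e (nat_lit 57371) (nat_lit 2) (.e (nat_lit 90176) (nat_lit 15) (.e (nat_lit 188439) (nat_lit 20) (.e (nat_lit 3272) (nat_lit 199) (.e (nat_lit 548913) (nat_lit 18) (.e (nat_lit 172070) (nat_lit 4) (.e (nat_lit 237312) (nat_lit 262) .nil))))))) (.g (nat_lit 5) .nil .nil)))))) (.nd (nat_lit 3) (.nd (nat_lit 4) (.nd (nat_lit 5) 
(.lf (nat_lit 145030) (.g (nat_lit 3182) (.e (nat_lit 57371) (nat_lit 2) (.e (nat_lit 90174) (nat_lit 14) (.e (nat_lit 180250) (nat_lit 10) (.e (nat_lit 573482) (nat_lit 13) (.e (nat_lit 73472) (nat_lit 18) (.e (nat_lit 204839) (nat_lit 21) (.e (nat_lit 123198) (nat_lit 266) .nil))))))) (.g (nat_lit 4) .nil .nil))) 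
(.lf (nat_lit 145062) (.g (nat_lit 1189) (.e (nat_lit 57371) (nat_lit 2) (.e (nat_lit 90174) (nat_lit 14) (.e (nat_lit 180251) (nat_lit 10) (.e (nat_lit 573487) (nat_lit 14) (.e (nat_lit 73753) (nat_lit 8) .nil))))) .nil))) (.nd (nat_lit 5) 
(.lf (nat_lit 145046) (.g (nat_lit 3798) (.e (nat_lit 57371) (nat_lit 2) (.e (nat_lit 90174) (nat_lit 14) (.e (nat_lit 180250) (nat_lit 10) (.e (nat_lit 573487) (nat_lit 14) (.e (nat_lit 73747) (nat_lit 3) (.e (nat_lit 516117) (nat_lit 1) (.e (nat_lit 171776) (nat_lit 160) .nil))))))) (.g (nat_lit 5) .nil .nil))) 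
(.lf (nat_lit 145078) (.g (nat_lit 702) (.e (nat_lit 57371) (nat_lit 2) (.e (nat_lit 90176) (nat_lit 15) (.e (nat_lit 196352) (nat_lit 11) (.e (nat_lit 336421) (nat_lit 28) (.e (nat_lit 434216) (nat_lit 18) .nil))))) .nil)))) (.nd (nat_lit 4) (.nd (nat_lit 5) 
(.lf (nat_lit 145038) (.g (nat_lit 2659) (.e (nat_lit 57371) (nat_lit 2) (.e (nat_lit 90174) (nat_lit 14) (.e (nat_lit 180250) (nat_lit 10) (.e (nat_lit 573485) (nat_lit 13) (.e (nat_lit 65569) (nat_lit 3) (.e (nat_lit 98334) (nat_lit 18) (.e (nat_lit 171776) (nat_lit 160) .nil))))))) (.g (nat_lit 4) .nil .nil))) 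
(.lf (nat_lit 145070) (.g (nat_lit 2935) (.e (nat_lit 57371) (nat_lit 2) (.e (nat_lit 90176) (nat_lit 15) (.e (nat_lit 188423) (nat_lit 11) (.e (nat_lit 336387) (nat_lit 27) (.e (nat_lit 426098) (nat_lit 1) (.e (nat_lit 164396) (nat_lit 256) .nil)))))) (.g (nat_lit 0) .nil .nil)))) (.nd (nat_lit 5) 
(.lf (nat_lit 145054) (.g (nat_lit 2953) (.e (nat_lit 57371) (nat_lit 2) (.e (nat_lit 90174) (nat_lit 14) (.e (nat_lit 180250) (nat_lit 10) (.e (nat_lit 573489) (nat_lit 14) (.e (nat_lit 73748) (nat_lit 3) (.e (nat_lit 516115) (nat_lit 1) (.e (nat_lit 171776) (nat_lit 160) .nil))))))) (.g (nat_lit 4) .nil .nil))) 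
(.lf (nat_lit 145086) (.g (nat_lit 2744) (.e (nat_lit 57371) (nat_lit 2) (.e (nat_lit 90176) (nat_lit 15) (.e (nat_lit 188447) (nat_lit 22) (.e (nat_lit 196666) (nat_lit 13) (.e (nat_lit 65546) (nat_lit 0) (.e (nat_lit 991) (nat_lit 81) (.e (nat_lit 7936) (nat_lit 283) .nil))))))) (.g (nat_lit 5) .nil .nil)))))))) 
(.nd (nat_lit 1) (.nd (nat_lit 2) (.nd (nat_lit 3) (.nd (nat_lit 4) (.nd (nat_lit 5) 
(.lf (nat_lit 145025) (.g (nat_lit 2445) (.e (nat_lit 57371) (nat_lit 2) (.e (nat_lit 90174) (nat_lit 14) (.e (nat_lit 180250) (nat_lit 10) (.e (nat_lit 573482) (nat_lit 13) (.e (nat_lit 65570) (nat_lit 3) (.e (nat_lit 98334) (nat_lit 18) (.e (nat_lit 171776) (nat_lit 160) .nil))))))) (.g (nat_lit 4) .nil .nil))) 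
(.lf (nat_lit 145057) (.g (nat_lit 3542) (.e (nat_lit 57371) (nat_lit 2) (.e (nat_lit 90174) (nat_lit 14) (.e (nat_lit 180250) (nat_lit 10) (.e (nat_lit 573489) (nat_lit 14) (.e (nat_lit 73755) (nat_lit 8) (.e (nat_lit 557067) (nat_lit 9) (.e (nat_lit 2715) (nat_lit 171) (.e (nat_lit 229707) (nat_lit 256) .nil)))))))) (.g (nat_lit 5) .nil .nil)))) (.nd (nat_lit 5) 
(.lf (nat_lit 145041) (.g (nat_lit 4246) (.e (nat_lit 57371) (nat_lit 2) (.e (nat_lit 90174) (nat_lit 14) (.e (nat_lit 180250) (nat_lit 10) (.e (nat_lit 573487) (nat_lit 14) (.e (nat_lit 73746) (nat_lit 3) (.e (nat_lit 516117) (nat_lit 1) (.e (nat_lit 171776) (nat_lit 160) .nil))))))) (.g (nat_lit 5) .nil .nil))) 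
(.lf (nat_lit 145073) (.g (nat_lit 3108) (.e (nat_lit 57371) (nat_lit 2) (.e (nat_lit 90176) (nat_lit 15) (.e (nat_lit 188423) (nat_lit 11) (.e (nat_lit 336387) (nat_lit 27) (.e (nat_lit 426100) (nat_lit 1) (.e (nat_lit 164398) (nat_lit 256) .nil)))))) (.g (nat_lit 0) .nil .nil))))) (.nd (nat_lit 4) (.nd (nat_lit 5) 
(.lf (nat_lit 145033) (.g (nat_lit 3440) (.e (nat_lit 57371) (nat_lit 2) (.e (nat_lit 90174) (nat_lit 14) (.e (nat_lit 180250) (nat_lit 10) (.e (nat_lit 573484) (nat_lit 13) (.e (nat_lit 65566) (nat_lit 2) (.e (nat_lit 90165) (nat_lit 12) (.e (nat_lit 163849) (nat_lit 0) (.e (nat_lit 6830) (nat_lit 367) .nil)))))))) (.g (nat_lit 4) .nil .nil))) 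
(.lf (nat_lit 145065) (.g (nat_lit 1439) (.e (nat_lit 57371) (nat_lit 2) (.e (nat_lit 90174) (nat_lit 14) (.e (nat_lit 180252) (nat_lit 10) (.e (nat_lit 573482) (nat_lit 13) .nil)))) .nil))) (.nd (nat_lit 5) 
(.lf (nat_lit 145049) (.g (nat_lit 2589) (.e (nat_lit 57371) (nat_lit 2) (.e (nat_lit 90174) (nat_lit 14) (.e (nat_lit 180250) (nat_lit 10) (.e (nat_lit 573487) (nat_lit 14) (.e (nat_lit 73753) (nat_lit 8) (.e (nat_lit 557068) (nat_lit 9) (.e (nat_lit 2719) (nat_lit 171) (.e (nat_lit 229707) (nat_lit 256) .nil)))))))) (.g (nat_lit 4) .nil .nil))) 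
(.lf (nat_lit 145081) (.g (nat_lit 365) (.e (nat_lit 57371) (nat_lit 2) (.e (nat_lit 90176) (nat_lit 15) (.e (nat_lit 188431) (nat_lit 20) .nil))) .nil))))) (.nd (nat_lit 3) (.nd (nat_lit 4) (.nd (nat_lit 5) 
(.lf (nat_lit 145029) (.g (nat_lit 3469) (.e (nat_lit 57371) (nat_lit 2) (.e (nat_lit 90174) (nat_lit 14) (.e (nat_lit 180250) (nat_lit 10) (.e (nat_lit 573482) (nat_lit 13) (.e (nat_lit 73472) (nat_lit 18) (.e (nat_lit 204839) (nat_lit 21) (.e (nat_lit 123195) (nat_lit 266) .nil))))))) (.g (nat_lit 4) .nil .nil))) 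
(.lf (nat_lit 145061) (.g (nat_lit 2781) (.e (nat_lit 57371) (nat_lit 2) (.e (nat_lit 90174) (nat_lit 14) (.e (nat_lit 180251) (nat_lit 10) (.e (nat_lit 573487) (nat_lit 14) (.e (nat_lit 73747) (nat_lit 3) (.e (nat_lit 516115) (nat_lit 1) (.e (nat_lit 171776) (nat_lit 160) .nil))))))) (.g (nat_lit 4) .nil .nil)))) (.nd (nat_lit 5) 
(.lf (nat_lit 145045) (.g (nat_lit 4921) (.e (nat_lit 57371) (nat_lit 2) (.e (nat_lit 90174) (nat_lit 14) (.e (nat_lit 180250) (nat_lit 10) (.e (nat_lit 573487) (nat_lit 14) (.e (nat_lit 73747) (nat_lit 3) (.e (nat_lit 516115) (nat_lit 1) (.e (nat_lit 171776) (nat_lit 160) .nil))))))) (.g (nat_lit 6) .nil .nil))) 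
(.lf (nat_lit 145077) (.g (nat_lit 451) (.e (nat_lit 57371) (nat_lit 2) (.e (nat_lit 90176) (nat_lit 15) (.e (nat_lit 196352) (nat_lit 11) .nil))) .nil)))) (.nd (nat_lit 4) (.nd (nat_lit 5) 
(.lf (nat_lit 145037) (.g (nat_lit 2994) (.e (nat_lit 57371) (nat_lit 2) (.e (nat_lit 90174) (nat_lit 14) (.e (nat_lit 180250) (nat_lit 10) (.e (nat_lit 573484) (nat_lit 13) (.e (nat_lit 65571) (nat_lit 3) (.e (nat_lit 98334) (nat_lit 18) (.e (nat_lit 171776) (nat_lit 160) .nil))))))) (.g (nat_lit 4) .nil .nil))) 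
(.lf (nat_lit 145069) (.g (nat_lit 240) (.e (nat_lit 57371) (nat_lit 2) (.e (nat_lit 90176) (nat_lit 15) (.e (nat_lit 188423) (nat_lit 11) .nil))) .nil))) (.nd (nat_lit 5) 
(.lf (nat_lit 145053) (.g (nat_lit 2676) (.e (nat_lit 57371) (nat_lit 2) (.e (nat_lit 90174) (nat_lit 14) (.e (nat_lit 180250) (nat_lit 10) (.e (nat_lit 573489) (nat_lit 14) (.e (nat_lit 73747) (nat_lit 3) .nil))))) .nil)) 
(.lf (nat_lit 145085) (.g (nat_lit 2090) (.e (nat_lit 57371) (nat_lit 2) (.e (nat_lit 90176) (nat_lit 15) (.e (nat_lit 188447) (nat_lit 22) (.e (nat_lit 196666) (nat_lit 13) (.e (nat_lit 65546) (nat_lit 0) (.e (nat_lit 990) (nat_lit 81) (.e (nat_lit 7936) (nat_lit 283) .nil))))))) (.g (nat_lit 4) .nil .nil))))))) (.nd (nat_lit 2) (.nd (nat_lit 3) (.nd (nat_lit 4) (.nd (nat_lit 5) 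
(.lf (nat_lit 145027) (.g (nat_lit 2565) (.e (nat_lit 57371) (nat_lit 2) (.e (nat_lit 90174) (nat_lit 14) (.e (nat_lit 180250) (nat_lit 10) (.e (nat_lit 573482) (nat_lit 13) (.e (nat_lit 65571) (nat_lit 3) (.e (nat_lit 98334) (nat_lit 18) (.e (nat_lit 171776) (nat_lit 160) .nil))))))) (.g (nat_lit 4) .nil .nil))) 
(.lf (nat_lit 145059) (.g (nat_lit 3333) (.e (nat_lit 57371) (nat_lit 2) (.e (nat_lit 90174) (nat_lit 14) (.e (nat_lit 180251) (nat_lit 10) (.e (nat_lit 573484) (nat_lit 13) (.e (nat_lit 65569) (nat_lit 3) (.e (nat_lit 98334) (nat_lit 18) (.e (nat_lit 171776) (nat_lit 160) .nil))))))) (.g (nat_lit 4) .nil .nil)))) (.nd (nat_lit 5) 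
(.lf (nat_lit 145043) (.g (nat_lit 4213) (.e (nat_lit 57371) (nat_lit 2) (.e (nat_lit 90174) (nat_lit 14) (.e (nat_lit 180250) (nat_lit 10) (.e (nat_lit 573487) (nat_lit 14) (.e (nat_lit 73746) (nat_lit 3) (.e (nat_lit 516120) (nat_lit 1) (.e (nat_lit 171776) (nat_lit 160) .nil))))))) (.g (nat_lit 5) .nil .nil))) 
(.lf (nat_lit 145075) (.g (nat_lit 2857) (.e (nat_lit 57371) (nat_lit 2) (.e (nat_lit 90176) (nat_lit 15) (.e (nat_lit 188423) (nat_lit 11) (.e (nat_lit 336387) (nat_lit 27) (.e (nat_lit 426107) (nat_lit 1) (.e (nat_lit 164396) (nat_lit 256) .nil)))))) (.g (nat_lit 0) .nil .nil))))) (.nd (nat_lit 4) (.nd (nat_lit 5) 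
(.lf (nat_lit 145035) (.g (nat_lit 4272) (.e (nat_lit 57371) (nat_lit 2) (.e (nat_lit 90174) (nat_lit 14) (.e (nat_lit 180250) (nat_lit 10) (.e (nat_lit 573484) (nat_lit 13) (.e (nat_lit 65569) (nat_lit 3) (.e (nat_lit 98334) (nat_lit 18) (.e (nat_lit 171776) (nat_lit 160) .nil))))))) (.g (nat_lit 5) .nil .nil))) 
(.lf (nat_lit 145067) (.g (nat_lit 2589) (.e (nat_lit 57371) (nat_lit 2) (.e (nat_lit 90174) (nat_lit 14) (.e (nat_lit 180252) (nat_lit 10) (.e (nat_lit 573489) (nat_lit 14) (.e (nat_lit 73755) (nat_lit 8) .nil))))) .nil))) (.nd (nat_lit 5) 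
(.lf (nat_lit 145051) (.g (nat_lit 3082) (.e (nat_lit 57371) (nat_lit 2) (.e (nat_lit 90174) (nat_lit 14) (.e (nat_lit 180250) (nat_lit 10) (.e (nat_lit 573488) (nat_lit 14) (.e (nat_lit 73747) (nat_lit 3) (.e (nat_lit 516115) (nat_lit 1) (.e (nat_lit 171776) (nat_lit 160) .nil))))))) (.g (nat_lit 4) .nil .nil))) 
(.lf (nat_lit 145083) (.g (nat_lit 2869) (.e (nat_lit 57371) (nat_lit 2) (.e (nat_lit 90176) (nat_lit 15) (.e (nat_lit 188447) (nat_lit 22) (.e (nat_lit 196666) (nat_lit 13) (.e (nat_lit 65538) (nat_lit 0) .nil))))) .nil))))) (.nd (nat_lit 3) (.nd (nat_lit 4) (.nd (nat_lit 5) 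
(.lf (nat_lit 145031) (.g (nat_lit 3144) (.e (nat_lit 57371) (nat_lit 2) (.e (nat_lit 90174) (nat_lit 14) (.e (nat_lit 180250) (nat_lit 10) (.e (nat_lit 573482) (nat_lit 13) (.e (nat_lit 73472) (nat_lit 18) (.e (nat_lit 204840) (nat_lit 21) (.e (nat_lit 123194) (nat_lit 266) .nil))))))) (.g (nat_lit 4) .nil .nil))) 
(.lf (nat_lit 145063) (.g (nat_lit 3120) (.e (nat_lit 57371) (nat_lit 2) (.e (nat_lit 90174) (nat_lit 14) (.e (nat_lit 180251) (nat_lit 10) (.e (nat_lit 573489) (nat_lit 14) (.e (nat_lit 73748) (nat_lit 3) (.e (nat_lit 516115) (nat_lit 1) (.e (nat_lit 171776) (nat_lit 160) .nil))))))) (.g (nat_lit 5) .nil .nil)))) (.nd (nat_lit 5) 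
(.lf (nat_lit 145047) (.g (nat_lit 4545) (.e (nat_lit 57371) (nat_lit 2) (.e (nat_lit 90174) (nat_lit 14) (.e (nat_lit 180250) (nat_lit 10) (.e (nat_lit 573487) (nat_lit 14) (.e (nat_lit 73747) (nat_lit 3) (.e (nat_lit 516119) (nat_lit 1) (.e (nat_lit 171776) (nat_lit 160) .nil))))))) (.g (nat_lit 6) .nil .nil))) 
(.lf (nat_lit 145079) (.g (nat_lit 451) (.e (nat_lit 57371) (nat_lit 2) (.e (nat_lit 90176) (nat_lit 15) (.e (nat_lit 196352) (nat_lit 18) .nil))) .nil)))) (.nd (nat_lit 4) (.nd (nat_lit 5) 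
(.lf (nat_lit 145039) (.g (nat_lit 2271) (.e (nat_lit 57371) (nat_lit 2) (.e (nat_lit 90174) (nat_lit 14) (.e (nat_lit 180250) (nat_lit 10) (.e (nat_lit 573485) (nat_lit 13) (.e (nat_lit 65570) (nat_lit 3) (.e (nat_lit 98333) (nat_lit 18) (.e (nat_lit 171776) (nat_lit 160) .nil))))))) (.g (nat_lit 4) .nil .nil))) 
(.lf (nat_lit 145071) (.g (nat_lit 3243) (.e (nat_lit 57371) (nat_lit 2) (.e (nat_lit 90176) (nat_lit 15) (.e (nat_lit 188423) (nat_lit 11) (.e (nat_lit 336387) (nat_lit 27) (.e (nat_lit 426098) (nat_lit 1) (.e (nat_lit 164398) (nat_lit 256) .nil)))))) (.g (nat_lit 0) .nil .nil)))) (.nd (nat_lit 5) 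
(.lf (nat_lit 145055) (.g (nat_lit 2686) (.e (nat_lit 57371) (nat_lit 2) (.e (nat_lit 90174) (nat_lit 14) (.e (nat_lit 180250) (nat_lit 10) (.e (nat_lit 573489) (nat_lit 14) (.e (nat_lit 73748) (nat_lit 3) (.e (nat_lit 516119) (nat_lit 1) (.e (nat_lit 171776) (nat_lit 160) .nil))))))) (.g (nat_lit 4) .nil .nil))) 
(.lf (nat_lit 145087) (.g (nat_lit 1899) (.e (nat_lit 57371) (nat_lit 2) (.e (nat_lit 90176) (nat_lit 15) (.e (nat_lit 188447) (nat_lit 22) (.e (nat_lit 196666) (nat_lit 13) (.e (nat_lit 65553) (nat_lit 0) .nil))))) .nil))))))))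

noncomputable def tv1926 : DT := (.nd (nat_lit 0) (.nd (nat_lit 1) (.nd (nat_lit 2) (.nd (nat_lit 3) (.nd (nat_lit 4) (.nd (nat_lit 5) 
(.lf (nat_lit 145088) (.g (nat_lit 2567) (.e (nat_lit 57371) (nat_lit 2) (.e (nat_lit 90176) (nat_lit 15) (.e (nat_lit 188447) (nat_lit 22) (.e (nat_lit 196666) (nat_lit 13) (.e (nat_lit 65553) (nat_lit 0) (.e (nat_lit 991) (nat_lit 81) (.e (nat_lit 7936) (nat_lit 283) .nil))))))) (.g (nat_lit 4) .nil .nil))) 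
(.lf (nat_lit 145120) (.g (nat_lit 2556) (.e (nat_lit 57371) (nat_lit 2) (.e (nat_lit 90176) (nat_lit 15) (.e (nat_lit 188450) (nat_lit 23) (.e (nat_lit 204852) (nat_lit 26) (.e (nat_lit 336257) (nat_lit 15) (.e (nat_lit 2431) (nat_lit 157) (.e (nat_lit 6931) (nat_lit 373) .nil))))))) (.g (nat_lit 4) .nil .nil)))) (.nd (nat_lit 5) 
(.lf (nat_lit 145104) (.g (nat_lit 2864) (.e (nat_lit 57371) (nat_lit 2) (.e (nat_lit 90176) (nat_lit 15) (.e (nat_lit 188450) (nat_lit 23) (.e (nat_lit 204852) (nat_lit 26) (.e (nat_lit 336240) (nat_lit 15) (.e (nat_lit 2418) (nat_lit 157) (.e (nat_lit 6932) (nat_lit 373) .nil))))))) (.g (nat_lit 4) .nil .nil))) 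
(.lf (nat_lit 145136) (.g (nat_lit 3205) (.e (nat_lit 57371) (nat_lit 2) (.e (nat_lit 90176) (nat_lit 15) (.e (nat_lit 188450) (nat_lit 23) (.e (nat_lit 204852) (nat_lit 26) (.e (nat_lit 336342) (nat_lit 21) (.e (nat_lit 237312) (nat_lit 172) .nil)))))) (.g (nat_lit 5) .nil .nil))))) (.nd (nat_lit 4) (.nd (nat_lit 5) 
(.lf (nat_lit 145096) (.g (nat_lit 3260) (.e (nat_lit 57371) (nat_lit 2) (.e (nat_lit 90176) (nat_lit 15) (.e (nat_lit 188447) (nat_lit 22) (.e (nat_lit 196668) (nat_lit 14) (.e (nat_lit 73733) (nat_lit 0) (.e (nat_lit 7936) (nat_lit 283) .nil)))))) (.g (nat_lit 5) .nil .nil))) 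
(.lf (nat_lit 145128) (.g (nat_lit 2347) (.e (nat_lit 57371) (nat_lit 2) (.e (nat_lit 90176) (nat_lit 15) (.e (nat_lit 188450) (nat_lit 23) (.e (nat_lit 204852) (nat_lit 26) (.e (nat_lit 336261) (nat_lit 15) (.e (nat_lit 2515) (nat_lit 157) (.e (nat_lit 7936) (nat_lit 373) .nil))))))) (.g (nat_lit 4) .nil .nil)))) (.nd (nat_lit 5) 
(.lf (nat_lit 145112) (.g (nat_lit 3048) (.e (nat_lit 57371) (nat_lit 2) (.e (nat_lit 90176) (nat_lit 15) (.e (nat_lit 188450) (nat_lit 23) (.e (nat_lit 204852) (nat_lit 26) (.e (nat_lit 336257) (nat_lit 15) (.e (nat_lit 2417) (nat_lit 157) (.e (nat_lit 6932) (nat_lit 373) .nil))))))) (.g (nat_lit 4) .nil .nil))) 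
(.lf (nat_lit 145144) (.g (nat_lit 2084) (.e (nat_lit 57371) (nat_lit 2) (.e (nat_lit 90176) (nat_lit 15) (.e (nat_lit 188450) (nat_lit 23) (.e (nat_lit 204862) (nat_lit 27) (.e (nat_lit 344089) (nat_lit 18) (.e (nat_lit 7936) (nat_lit 283) .nil)))))) (.g (nat_lit 4) .nil .nil)))))) (.nd (nat_lit 3) (.nd (nat_lit 4) (.nd (nat_lit 5) 
(.lf (nat_lit 145092) (.g (nat_lit 2629) (.e (nat_lit 57371) (nat_lit 2) (.e (nat_lit 90176) (nat_lit 15) (.e (nat_lit 188447) (nat_lit 22) (.e (nat_lit 196666) (nat_lit 13) (.e (nat_lit 65573) (nat_lit 4) .nil))))) .nil)) 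
(.lf (nat_lit 145124) (.g (nat_lit 2437) (.e (nat_lit 57371) (nat_lit 2) (.e (nat_lit 90176) (nat_lit 15) (.e (nat_lit 188450) (nat_lit 23) (.e (nat_lit 204852) (nat_lit 26) (.e (nat_lit 336258) (nat_lit 15) (.e (nat_lit 2418) (nat_lit 157) (.e (nat_lit 6931) (nat_lit 373) .nil))))))) (.g (nat_lit 4) .nil .nil)))) (.nd (nat_lit 5) 
(.lf (nat_lit 145108) (.g (nat_lit 2586) (.e (nat_lit 57371) (nat_lit 2) (.e (nat_lit 90176) (nat_lit 15) (.e (nat_lit 188450) (nat_lit 23) (.e (nat_lit 204852) (nat_lit 26) (.e (nat_lit 336257) (nat_lit 15) (.e (nat_lit 2397) (nat_lit 157) (.e (nat_lit 6931) (nat_lit 373) .nil))))))) (.g (nat_lit 4) .nil .nil))) 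
(.lf (nat_lit 145140) (.g (nat_lit 2487) (.e (nat_lit 57371) (nat_lit 2) (.e (nat_lit 90176) (nat_lit 15) (.e (nat_lit 188450) (nat_lit 23) (.e (nat_lit 204861) (nat_lit 26) (.e (nat_lit 335892) (nat_lit 0) .nil))))) .nil)))) (.nd (nat_lit 4) (.nd (nat_lit 5) 
(.lf (nat_lit 145100) (.g (nat_lit 3130) (.e (nat_lit 57371) (nat_lit 2) (.e (nat_lit 90176) (nat_lit 15) (.e (nat_lit 188447) (nat_lit 22) (.e (nat_lit 196681) (nat_lit 17) (.e (nat_lit 131089) (nat_lit 1) (.e (nat_lit 65280) (nat_lit 241) .nil)))))) (.g (nat_lit 5) .nil .nil))) 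
(.lf (nat_lit 145132) (.g (nat_lit 2352) (.e (nat_lit 57371) (nat_lit 2) (.e (nat_lit 90176) (nat_lit 15) (.e (nat_lit 188450) (nat_lit 23) (.e (nat_lit 204852) (nat_lit 26) (.e (nat_lit 336312) (nat_lit 16) .nil))))) .nil))) (.nd (nat_lit 5) 
(.lf (nat_lit 145116) (.g (nat_lit 2573) (.e (nat_lit 57371) (nat_lit 2) (.e (nat_lit 90176) (nat_lit 15) (.e (nat_lit 188450) (nat_lit 23) (.e (nat_lit 204852) (nat_lit 26) (.e (nat_lit 336257) (nat_lit 15) (.e (nat_lit 2424) (nat_lit 157) (.e (nat_lit 6931) (nat_lit 373) .nil))))))) (.g (nat_lit 4) .nil .nil))) 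
(.lf (nat_lit 145148) (.g (nat_lit 2788) (.e (nat_lit 57371) (nat_lit 2) (.e (nat_lit 90176) (nat_lit 15) (.e (nat_lit 188450) (nat_lit 23) (.e (nat_lit 204863) (nat_lit 27) (.e (nat_lit 344089) (nat_lit 18) (.e (nat_lit 7936) (nat_lit 283) .nil)))))) (.g (nat_lit 4) .nil .nil))))))) (.nd (nat_lit 2) (.nd (nat_lit 3) (.nd (nat_lit 4) (.nd (nat_lit 5) 
(.lf (nat_lit 145090) (.g (nat_lit 3050) (.e (nat_lit 57371) (nat_lit 2) (.e (nat_lit 90176) (nat_lit 15) (.e (nat_lit 188447) (nat_lit 22) (.e (nat_lit 196666) (nat_lit 13) (.e (nat_lit 65565) (nat_lit 1) (.e (nat_lit 65280) (nat_lit 241) .nil)))))) (.g (nat_lit 4) .nil .nil))) 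
(.lf (nat_lit 145122) (.g (nat_lit 2282) (.e (nat_lit 57371) (nat_lit 2) (.e (nat_lit 90176) (nat_lit 15) (.e (nat_lit 188450) (nat_lit 23) (.e (nat_lit 204852) (nat_lit 26) (.e (nat_lit 336258) (nat_lit 15) (.e (nat_lit 2416) (nat_lit 157) (.e (nat_lit 6931) (nat_lit 373) .nil))))))) (.g (nat_lit 4) .nil .nil)))) (.nd (nat_lit 5) 
(.lf (nat_lit 145106) (.g (nat_lit 2276) (.e (nat_lit 57371) (nat_lit 2) (.e (nat_lit 90176) (nat_lit 15) (.e (nat_lit 188450) (nat_lit 23) (.e (nat_lit 204852) (nat_lit 26) (.e (nat_lit 336240) (nat_lit 15) (.e (nat_lit 2439) (nat_lit 157) (.e (nat_lit 7936) (nat_lit 373) .nil))))))) (.g (nat_lit 4) .nil .nil))) 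
(.lf (nat_lit 145138) (.g (nat_lit 2258) (.e (nat_lit 57371) (nat_lit 2) (.e (nat_lit 90176) (nat_lit 15) (.e (nat_lit 188450) (nat_lit 23) (.e (nat_lit 204855) (nat_lit 26) (.e (nat_lit 335992) (nat_lit 1) .nil))))) .nil)))) (.nd (nat_lit 4) (.nd (nat_lit 5) 
(.lf (nat_lit 145098) (.g (nat_lit 3613) (.e (nat_lit 57371) (nat_lit 2) (.e (nat_lit 90176) (nat_lit 15) (.e (nat_lit 188447) (nat_lit 22) (.e (nat_lit 196670) (nat_lit 14) (.e (nat_lit 73729) (nat_lit 0) (.e (nat_lit 7936) (nat_lit 283) .nil)))))) (.g (nat_lit 5) .nil .nil))) 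
(.lf (nat_lit 145130) (.g (nat_lit 2619) (.e (nat_lit 57371) (nat_lit 2) (.e (nat_lit 90176) (nat_lit 15) (.e (nat_lit 188450) (nat_lit 23) (.e (nat_lit 204852) (nat_lit 26) (.e (nat_lit 336309) (nat_lit 16) (.e (nat_lit 171776) (nat_lit 172) .nil)))))) (.g (nat_lit 4) .nil .nil)))) (.nd (nat_lit 5) 
(.lf (nat_lit 145114) (.g (nat_lit 2562) (.e (nat_lit 57371) (nat_lit 2) (.e (nat_lit 90176) (nat_lit 15) (.e (nat_lit 188450) (nat_lit 23) (.e (nat_lit 204852) (nat_lit 26) (.e (nat_lit 336257) (nat_lit 15) (.e (nat_lit 2423) (nat_lit 157) (.e (nat_lit 6931) (nat_lit 373) .nil))))))) (.g (nat_lit 4) .nil .nil))) 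
(.lf (nat_lit 145146) (.g (nat_lit 2102) (.e (nat_lit 57371) (nat_lit 2) (.e (nat_lit 90176) (nat_lit 15) (.e (nat_lit 188450) (nat_lit 23) (.e (nat_lit 204862) (nat_lit 27) (.e (nat_lit 344097) (nat_lit 18) (.e (nat_lit 7936) (nat_lit 283) .nil)))))) (.g (nat_lit 4) .nil .nil)))))) (.nd (nat_lit 3) (.nd (nat_lit 4) (.nd (nat_lit 5) 
(.lf (nat_lit 145094) (.g (nat_lit 1177) (.e (nat_lit 57371) (nat_lit 2) (.e (nat_lit 90176) (nat_lit 15) (.e (nat_lit 188447) (nat_lit 22) (.e (nat_lit 196668) (nat_lit 14) .nil)))) .nil)) 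
(.lf (nat_lit 145126) (.g (nat_lit 2023) (.e (nat_lit 57371) (nat_lit 2) (.e (nat_lit 90176) (nat_lit 15) (.e (nat_lit 188450) (nat_lit 23) (.e (nat_lit 204852) (nat_lit 26) (.e (nat_lit 336259) (nat_lit 15) .nil))))) .nil))) (.nd (nat_lit 5) 
(.lf (nat_lit 145110) (.g (nat_lit 2275) (.e (nat_lit 57371) (nat_lit 2) (.e (nat_lit 90176) (nat_lit 15) (.e (nat_lit 188450) (nat_lit 23) (.e (nat_lit 204852) (nat_lit 26) (.e (nat_lit 336257) (nat_lit 15) (.e (nat_lit 2416) (nat_lit 157) (.e (nat_lit 6931) (nat_lit 373) .nil))))))) (.g (nat_lit 4) .nil .nil))) 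
(.lf (nat_lit 145142) (.g (nat_lit 2949) (.e (nat_lit 57371) (nat_lit 2) (.e (nat_lit 90176) (nat_lit 15) (.e (nat_lit 188450) (nat_lit 23) (.e (nat_lit 204861) (nat_lit 26) (.e (nat_lit 335987) (nat_lit 1) (.e (nat_lit 65280) (nat_lit 241) .nil)))))) (.g (nat_lit 4) .nil .nil))))) (.nd (nat_lit 4) (.nd (nat_lit 5) 
(.lf (nat_lit 145102) (.g (nat_lit 986) (.e (nat_lit 57371) (nat_lit 2) (.e (nat_lit 90176) (nat_lit 15) (.e (nat_lit 188450) (nat_lit 23) (.e (nat_lit 204852) (nat_lit 26) .nil)))) .nil)) 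
(.lf (nat_lit 145134) (.g (nat_lit 2563) (.e (nat_lit 57371) (nat_lit 2) (.e (nat_lit 90176) (nat_lit 15) (.e (nat_lit 188450) (nat_lit 23) (.e (nat_lit 204852) (nat_lit 26) (.e (nat_lit 336339) (nat_lit 21) (.e (nat_lit 237312) (nat_lit 172) .nil)))))) (.g (nat_lit 4) .nil .nil)))) (.nd (nat_lit 5) 
(.lf (nat_lit 145118) (.g (nat_lit 2544) (.e (nat_lit 57371) (nat_lit 2) (.e (nat_lit 90176) (nat_lit 15) (.e (nat_lit 188450) (nat_lit 23) (.e (nat_lit 204852) (nat_lit 26) (.e (nat_lit 336257) (nat_lit 15) (.e (nat_lit 2430) (nat_lit 157) (.e (nat_lit 6931) (nat_lit 373) .nil))))))) (.g (nat_lit 4) .nil .nil))) 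
(.lf (nat_lit 145150) (.g (nat_lit 2696) (.e (nat_lit 57371) (nat_lit 2) (.e (nat_lit 90176) (nat_lit 15) (.e (nat_lit 188450) (nat_lit 23) (.e (nat_lit 204863) (nat_lit 27) (.e (nat_lit 344091) (nat_lit 18) (.e (nat_lit 7936) (nat_lit 283) .nil)))))) (.g (nat_lit 4) .nil .nil)))))))) (.nd (nat_lit 1) (.nd (nat_lit 2) (.nd (nat_lit 3) (.nd (nat_lit 4) (.nd (nat_lit 5) 
(.lf (nat_lit 145089) (.g (nat_lit 2585) (.e (nat_lit 57371) (nat_lit 2) (.e (nat_lit 90176) (nat_lit 15) (.e (nat_lit 188447) (nat_lit 22) (.e (nat_lit 196666) (nat_lit 13) (.e (nat_lit 65563) (nat_lit 1) (.e (nat_lit 65280) (nat_lit 241) .nil)))))) (.g (nat_lit 4) .nil .nil))) 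
(.lf (nat_lit 145121) (.g (nat_lit 2512) (.e (nat_lit 57371) (nat_lit 2) (.e (nat_lit 90176) (nat_lit 15) (.e (nat_lit 188450) (nat_lit 23) (.e (nat_lit 204852) (nat_lit 26) (.e (nat_lit 336257) (nat_lit 15) (.e (nat_lit 2431) (nat_lit 157) (.e (nat_lit 6932) (nat_lit 373) .nil))))))) (.g (nat_lit 4) .nil .nil)))) (.nd (nat_lit 5) 
(.lf (nat_lit 145105) (.g (nat_lit 2919) (.e (nat_lit 57371) (nat_lit 2) (.e (nat_lit 90176) (nat_lit 15) (.e (nat_lit 188450) (nat_lit 23) (.e (nat_lit 204852) (nat_lit 26) (.e (nat_lit 336240) (nat_lit 15) (.e (nat_lit 2431) (nat_lit 157) (.e (nat_lit 6932) (nat_lit 373) .nil))))))) (.g (nat_lit 4) .nil .nil))) 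
(.lf (nat_lit 145137) (.g (nat_lit 1170) (.e (nat_lit 57371) (nat_lit 2) (.e (nat_lit 90176) (nat_lit 15) (.e (nat_lit 188450) (nat_lit 23) (.e (nat_lit 204855) (nat_lit 26) .nil)))) .nil)))) (.nd (nat_lit 4) (.nd (nat_lit 5) 
(.lf (nat_lit 145097) (.g (nat_lit 2662) (.e (nat_lit 57371) (nat_lit 2) (.e (nat_lit 90176) (nat_lit 15) (.e (nat_lit 188447) (nat_lit 22) (.e (nat_lit 196668) (nat_lit 14) (.e (nat_lit 73737) (nat_lit 0) (.e (nat_lit 7936) (nat_lit 283) .nil)))))) (.g (nat_lit 4) .nil .nil))) 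
(.lf (nat_lit 145129) (.g (nat_lit 1706) (.e (nat_lit 57371) (nat_lit 2) (.e (nat_lit 90176) (nat_lit 15) (.e (nat_lit 188450) (nat_lit 23) (.e (nat_lit 204852) (nat_lit 26) (.e (nat_lit 343808) (nat_lit 15) .nil))))) .nil))) (.nd (nat_lit 5) 
(.lf (nat_lit 145113) (.g (nat_lit 2609) (.e (nat_lit 57371) (nat_lit 2) (.e (nat_lit 90176) (nat_lit 15) (.e (nat_lit 188450) (nat_lit 23) (.e (nat_lit 204852) (nat_lit 26) (.e (nat_lit 336257) (nat_lit 15) (.e (nat_lit 2422) (nat_lit 157) (.e (nat_lit 6931) (nat_lit 373) .nil))))))) (.g (nat_lit 4) .nil .nil))) 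
(.lf (nat_lit 145145) (.g (nat_lit 2444) (.e (nat_lit 57371) (nat_lit 2) (.e (nat_lit 90176) (nat_lit 15) (.e (nat_lit 188450) (nat_lit 23) (.e (nat_lit 204862) (nat_lit 27) (.e (nat_lit 344090) (nat_lit 18) (.e (nat_lit 7936) (nat_lit 283) .nil)))))) (.g (nat_lit 4) .nil .nil)))))) (.nd (nat_lit 3) (.nd (nat_lit 4) (.nd (nat_lit 5) 
(.lf (nat_lit 145093) (.g (nat_lit 3066) (.e (nat_lit 57371) (nat_lit 2) (.e (nat_lit 90176) (nat_lit 15) (.e (nat_lit 188447) (nat_lit 22) (.e (nat_lit 196666) (nat_lit 13) (.e (nat_lit 65574) (nat_lit 4) (.e (nat_lit 130816) (nat_lit 241) .nil)))))) (.g (nat_lit 5) .nil .nil))) 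
(.lf (nat_lit 145125) (.g (nat_lit 2617) (.e (nat_lit 57371) (nat_lit 2) (.e (nat_lit 90176) (nat_lit 15) (.e (nat_lit 188450) (nat_lit 23) (.e (nat_lit 204852) (nat_lit 26) (.e (nat_lit 336258) (nat_lit 15) (.e (nat_lit 2450) (nat_lit 157) (.e (nat_lit 7936) (nat_lit 373) .nil))))))) (.g (nat_lit 4) .nil .nil)))) (.nd (nat_lit 5) 
(.lf (nat_lit 145109) (.g (nat_lit 2201) (.e (nat_lit 57371) (nat_lit 2) (.e (nat_lit 90176) (nat_lit 15) (.e (nat_lit 188450) (nat_lit 23) (.e (nat_lit 204852) (nat_lit 26) (.e (nat_lit 336257) (nat_lit 15) (.e (nat_lit 2400) (nat_lit 157) (.e (nat_lit 6930) (nat_lit 373) .nil))))))) (.g (nat_lit 4) .nil .nil))) 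
(.lf (nat_lit 145141) (.g (nat_lit 2952) (.e (nat_lit 57371) (nat_lit 2) (.e (nat_lit 90176) (nat_lit 15) (.e (nat_lit 188450) (nat_lit 23) (.e (nat_lit 204861) (nat_lit 26) (.e (nat_lit 335986) (nat_lit 1) (.e (nat_lit 65280) (nat_lit 241) .nil)))))) (.g (nat_lit 4) .nil .nil))))) (.nd (nat_lit 4) (.nd (nat_lit 5) 
(.lf (nat_lit 145101) (.g (nat_lit 1832) (.e (nat_lit 57371) (nat_lit 2) (.e (nat_lit 90176) (nat_lit 15) (.e (nat_lit 188450) (nat_lit 23) (.e (nat_lit 204849) (nat_lit 25) (.e (nat_lit 327692) (nat_lit 1) .nil))))) .nil)) 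
(.lf (nat_lit 145133) (.g (nat_lit 2110) (.e (nat_lit 57371) (nat_lit 2) (.e (nat_lit 90176) (nat_lit 15) (.e (nat_lit 188450) (nat_lit 23) (.e (nat_lit 204852) (nat_lit 26) (.e (nat_lit 336314) (nat_lit 16) (.e (nat_lit 171776) (nat_lit 172) .nil)))))) (.g (nat_lit 4) .nil .nil)))) (.nd (nat_lit 5) 
(.lf (nat_lit 145117) (.g (nat_lit 2580) (.e (nat_lit 57371) (nat_lit 2) (.e (nat_lit 90176) (nat_lit 15) (.e (nat_lit 188450) (nat_lit 23) (.e (nat_lit 204852) (nat_lit 26) (.e (nat_lit 336257) (nat_lit 15) (.e (nat_lit 2425) (nat_lit 157) (.e (nat_lit 6931) (nat_lit 373) .nil))))))) (.g (nat_lit 4) .nil .nil))) 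
(.lf (nat_lit 145149) (.g (nat_lit 2850) (.e (nat_lit 57371) (nat_lit 2) (.e (nat_lit 90176) (nat_lit 15) (.e (nat_lit 188450) (nat_lit 23) (.e (nat_lit 204863) (nat_lit 27) (.e (nat_lit 344090) (nat_lit 18) (.e (nat_lit 7936) (nat_lit 283) .nil)))))) (.g (nat_lit 4) .nil .nil))))))) (.nd (nat_lit 2) (.nd (nat_lit 3) (.nd (nat_lit 4) (.nd (nat_lit 5) 
(.lf (nat_lit 145091) (.g (nat_lit 2802) (.e (nat_lit 57371) (nat_lit 2) (.e (nat_lit 90176) (nat_lit 15) (.e (nat_lit 188447) (nat_lit 22) (.e (nat_lit 196666) (nat_lit 13) (.e (nat_lit 65572) (nat_lit 4) (.e (nat_lit 130816) (nat_lit 241) .nil)))))) (.g (nat_lit 4) .nil .nil))) 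
(.lf (nat_lit 145123) (.g (nat_lit 2454) (.e (nat_lit 57371) (nat_lit 2) (.e (nat_lit 90176) (nat_lit 15) (.e (nat_lit 188450) (nat_lit 23) (.e (nat_lit 204852) (nat_lit 26) (.e (nat_lit 336258) (nat_lit 15) (.e (nat_lit 2417) (nat_lit 157) (.e (nat_lit 6931) (nat_lit 373) .nil))))))) (.g (nat_lit 4) .nil .nil)))) (.nd (nat_lit 5) 
(.lf (nat_lit 145107) (.g (nat_lit 2075) (.e (nat_lit 57371) (nat_lit 2) (.e (nat_lit 90176) (nat_lit 15) (.e (nat_lit 188450) (nat_lit 23) (.e (nat_lit 204852) (nat_lit 26) (.e (nat_lit 336257) (nat_lit 15) .nil))))) .nil)) 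
(.lf (nat_lit 145139) (.g (nat_lit 2623) (.e (nat_lit 57371) (nat_lit 2) (.e (nat_lit 90176) (nat_lit 15) (.e (nat_lit 188450) (nat_lit 23) (.e (nat_lit 204855) (nat_lit 26) (.e (nat_lit 336030) (nat_lit 4) (.e (nat_lit 130816) (nat_lit 241) .nil)))))) (.g (nat_lit 4) .nil .nil))))) (.nd (nat_lit 4) (.nd (nat_lit 5) 
(.lf (nat_lit 145099) (.g (nat_lit 3232) (.e (nat_lit 57371) (nat_lit 2) (.e (nat_lit 90176) (nat_lit 15) (.e (nat_lit 188447) (nat_lit 22) (.e (nat_lit 196670) (nat_lit 14) (.e (nat_lit 73732) (nat_lit 0) (.e (nat_lit 7936) (nat_lit 283) .nil)))))) (.g (nat_lit 5) .nil .nil))) 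
(.lf (nat_lit 145131) (.g (nat_lit 2676) (.e (nat_lit 57371) (nat_lit 2) (.e (nat_lit 90176) (nat_lit 15) (.e (nat_lit 188450) (nat_lit 23) (.e (nat_lit 204852) (nat_lit 26) (.e (nat_lit 336310) (nat_lit 16) (.e (nat_lit 171776) (nat_lit 172) .nil)))))) (.g (nat_lit 4) .nil .nil)))) (.nd (nat_lit 5) 
(.lf (nat_lit 145115) (.g (nat_lit 2558) (.e (nat_lit 57371) (nat_lit 2) (.e (nat_lit 90176) (nat_lit 15) (.e (nat_lit 188450) (nat_lit 23) (.e (nat_lit 204852) (nat_lit 26) (.e (nat_lit 336257) (nat_lit 15) (.e (nat_lit 2423) (nat_lit 157) (.e (nat_lit 6932) (nat_lit 373) .nil))))))) (.g (nat_lit 4) .nil .nil))) 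
(.lf (nat_lit 145147) (.g (nat_lit 2555) (.e (nat_lit 57371) (nat_lit 2) (.e (nat_lit 90176) (nat_lit 15) (.e (nat_lit 188450) (nat_lit 23) (.e (nat_lit 204863) (nat_lit 27) (.e (nat_lit 344088) (nat_lit 18) (.e (nat_lit 7936) (nat_lit 283) .nil)))))) (.g (nat_lit 4) .nil .nil)))))) (.nd (nat_lit 3) (.nd (nat_lit 4) (.nd (nat_lit 5) 
(.lf (nat_lit 145095) (.g (nat_lit 3426) (.e (nat_lit 57371) (nat_lit 2) (.e (nat_lit 90176) (nat_lit 15) (.e (nat_lit 188447) (nat_lit 22) (.e (nat_lit 196668) (nat_lit 14) (.e (nat_lit 73729) (nat_lit 0) (.e (nat_lit 7936) (nat_lit 283) .nil)))))) (.g (nat_lit 5) .nil .nil))) 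
(.lf (nat_lit 145127) (.g (nat_lit 2099) (.e (nat_lit 57371) (nat_lit 2) (.e (nat_lit 90176) (nat_lit 15) (.e (nat_lit 188450) (nat_lit 23) (.e (nat_lit 204852) (nat_lit 26) (.e (nat_lit 336261) (nat_lit 15) (.e (nat_lit 2416) (nat_lit 157) (.e (nat_lit 6931) (nat_lit 373) .nil))))))) (.g (nat_lit 4) .nil .nil)))) (.nd (nat_lit 5) 
(.lf (nat_lit 145111) (.g (nat_lit 2472) (.e (nat_lit 57371) (nat_lit 2) (.e (nat_lit 90176) (nat_lit 15) (.e (nat_lit 188450) (nat_lit 23) (.e (nat_lit 204852) (nat_lit 26) (.e (nat_lit 336257) (nat_lit 15) (.e (nat_lit 2417) (nat_lit 157) (.e (nat_lit 6931) (nat_lit 373) .nil))))))) (.g (nat_lit 4) .nil .nil))) 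
(.lf (nat_lit 145143) (.g (nat_lit 3620) (.e (nat_lit 57371) (nat_lit 2) (.e (nat_lit 90176) (nat_lit 15) (.e (nat_lit 188450) (nat_lit 23) (.e (nat_lit 204861) (nat_lit 26) (.e (nat_lit 335988) (nat_lit 1) (.e (nat_lit 65280) (nat_lit 241) .nil)))))) (.g (nat_lit 5) .nil .nil))))) (.nd (nat_lit 4) (.nd (nat_lit 5) 
(.lf (nat_lit 145103) (.g (nat_lit 2441) (.e (nat_lit 57371) (nat_lit 2) (.e (nat_lit 90176) (nat_lit 15) (.e (nat_lit 188450) (nat_lit 23) (.e (nat_lit 204852) (nat_lit 26) (.e (nat_lit 336240) (nat_lit 15) (.e (nat_lit 2418) (nat_lit 157) (.e (nat_lit 6931) (nat_lit 373) .nil))))))) (.g (nat_lit 4) .nil .nil))) 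
(.lf (nat_lit 145135) (.g (nat_lit 2745) (.e (nat_lit 57371) (nat_lit 2) (.e (nat_lit 90176) (nat_lit 15) (.e (nat_lit 188450) (nat_lit 23) (.e (nat_lit 204852) (nat_lit 26) (.e (nat_lit 336340) (nat_lit 21) (.e (nat_lit 237312) (nat_lit 172) .nil)))))) (.g (nat_lit 5) .nil .nil)))) (.nd (nat_lit 5) 
(.lf (nat_lit 145119) (.g (nat_lit 2684) (.e (nat_lit 57371) (nat_lit 2) (.e (nat_lit 90176) (nat_lit 15) (.e (nat_lit 188450) (nat_lit 23) (.e (nat_lit 204852) (nat_lit 26) (.e (nat_lit 336257) (nat_lit 15) (.e (nat_lit 2430) (nat_lit 157) (.e (nat_lit 6932) (nat_lit 373) .nil))))))) (.g (nat_lit 4) .nil .nil))) 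
(.lf (nat_lit 145151) (.g (nat_lit 2634) (.e (nat_lit 57371) (nat_lit 2) (.e (nat_lit 90176) (nat_lit 15) (.e (nat_lit 188450) (nat_lit 23) (.e (nat_lit 204863) (nat_lit 27) (.e (nat_lit 344092) (nat_lit 18) (.e (nat_lit 7936) (nat_lit 283) .nil)))))) (.g (nat_lit 4) .nil .nil)))))))))

noncomputable def tv1927 : DT := (.nd (nat_lit 0) (.nd (nat_lit 1) (.nd (nat_lit 2) (.nd (nat_lit 3) (.nd (nat_lit 4) (.nd (nat_lit 5) 
(.lf (nat_lit 145152) (.g (nat_lit 2700) (.e (nat_lit 57371) (nat_lit 2) (.e (nat_lit 90176) (nat_lit 15) (.e (nat_lit 188450) (nat_lit 23) (.e (nat_lit 204863) (nat_lit 27) (.e (nat_lit 344093) (nat_lit 18) .nil))))) .nil)) 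
(.lf (nat_lit 145184) (.g (nat_lit 2570) (.e (nat_lit 57371) (nat_lit 2) (.e (nat_lit 90185) (nat_lit 17) (.e (nat_lit 237590) (nat_lit 2) (.e (nat_lit 196654) (nat_lit 11) (.e (nat_lit 16416) (nat_lit 3) (.e (nat_lit 204830) (nat_lit 18) (.e (nat_lit 65280) (nat_lit 166) .nil))))))) (.g (nat_lit 4) .nil .nil)))) (.nd (nat_lit 5) 
(.lf (nat_lit 145168) (.g (nat_lit 2412) (.e (nat_lit 57371) (nat_lit 2) (.e (nat_lit 90176) (nat_lit 15) (.e (nat_lit 188452) (nat_lit 23) (.e (nat_lit 204885) (nat_lit 33) .nil)))) .nil)) 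
(.lf (nat_lit 145200) (.g (nat_lit 2157) (.e (nat_lit 57371) (nat_lit 2) (.e (nat_lit 90185) (nat_lit 17) (.e (nat_lit 237605) (nat_lit 9) (.e (nat_lit 426566) (nat_lit 34) (.e (nat_lit 393252) (nat_lit 18) (.e (nat_lit 164401) (nat_lit 256) .nil)))))) (.g (nat_lit 5) .nil .nil))))) (.nd (nat_lit 4) (.nd (nat_lit 5) 
(.lf (nat_lit 145160) (.g (nat_lit 2909) (.e (nat_lit 57371) (nat_lit 2) (.e (nat_lit 90176) (nat_lit 15) (.e (nat_lit 188450) (nat_lit 23) (.e (nat_lit 204880) (nat_lit 32) (.e (nat_lit 385043) (nat_lit 21) (.e (nat_lit 6932) (nat_lit 373) .nil)))))) (.g (nat_lit 4) .nil .nil))) 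
(.lf (nat_lit 145192) (.g (nat_lit 2760) (.e (nat_lit 57371) (nat_lit 2) (.e (nat_lit 90185) (nat_lit 17) (.e (nat_lit 237601) (nat_lit 9) (.e (nat_lit 426566) (nat_lit 34) (.e (nat_lit 393254) (nat_lit 18) (.e (nat_lit 164403) (nat_lit 256) .nil)))))) (.g (nat_lit 0) .nil .nil)))) (.nd (nat_lit 5) 
(.lf (nat_lit 145176) (.g (nat_lit 3306) (.e (nat_lit 57371) (nat_lit 2) (.e (nat_lit 90178) (nat_lit 15) (.e (nat_lit 188421) (nat_lit 11) (.e (nat_lit 336387) (nat_lit 27) (.e (nat_lit 426108) (nat_lit 1) (.e (nat_lit 164403) (nat_lit 256) .nil)))))) (.g (nat_lit 0) .nil .nil))) 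
(.lf (nat_lit 145208) (.g (nat_lit 2536) (.e (nat_lit 57371) (nat_lit 2) (.e (nat_lit 90185) (nat_lit 17) (.e (nat_lit 237621) (nat_lit 13) (.e (nat_lit 483337) (nat_lit 9) (.e (nat_lit 426107) (nat_lit 1) (.e (nat_lit 164401) (nat_lit 256) .nil)))))) (.g (nat_lit 5) .nil .nil)))))) (.nd (nat_lit 3) (.nd (nat_lit 4) (.nd (nat_lit 5) 
(.lf (nat_lit 145156) (.g (nat_lit 2683) (.e (nat_lit 57371) (nat_lit 2) (.e (nat_lit 90176) (nat_lit 15) (.e (nat_lit 188450) (nat_lit 23) (.e (nat_lit 204863) (nat_lit 27) (.e (nat_lit 344101) (nat_lit 18) .nil))))) .nil)) 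
(.lf (nat_lit 145188) (.g (nat_lit 2439) (.e (nat_lit 57371) (nat_lit 2) (.e (nat_lit 90185) (nat_lit 17) (.e (nat_lit 237601) (nat_lit 9) (.e (nat_lit 426479) (nat_lit 27) (.e (nat_lit 336421) (nat_lit 28) (.e (nat_lit 434212) (nat_lit 18) (.e (nat_lit 5950) (nat_lit 322) .nil))))))) (.g (nat_lit 5) .nil .nil)))) (.nd (nat_lit 5) 
(.lf (nat_lit 145172) (.g (nat_lit 2534) (.e (nat_lit 57371) (nat_lit 2) (.e (nat_lit 90178) (nat_lit 15) (.e (nat_lit 188421) (nat_lit 11) (.e (nat_lit 336387) (nat_lit 27) (.e (nat_lit 426098) (nat_lit 1) (.e (nat_lit 164396) (nat_lit 256) .nil)))))) (.g (nat_lit 5) .nil .nil))) 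
(.lf (nat_lit 145204) (.g (nat_lit 3009) (.e (nat_lit 57371) (nat_lit 2) (.e (nat_lit 90185) (nat_lit 17) (.e (nat_lit 237605) (nat_lit 9) (.e (nat_lit 426568) (nat_lit 34) (.e (nat_lit 393253) (nat_lit 18) (.e (nat_lit 164403) (nat_lit 256) .nil)))))) (.g (nat_lit 0) .nil .nil))))) (.nd (nat_lit 4) (.nd (nat_lit 5) 
(.lf (nat_lit 145164) (.g (nat_lit 2709) (.e (nat_lit 57371) (nat_lit 2) (.e (nat_lit 90176) (nat_lit 15) (.e (nat_lit 188450) (nat_lit 23) (.e (nat_lit 204880) (nat_lit 32) (.e (nat_lit 385049) (nat_lit 21) (.e (nat_lit 7936) (nat_lit 373) .nil)))))) (.g (nat_lit 5) .nil .nil))) 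
(.lf (nat_lit 145196) (.g (nat_lit 1151) (.e (nat_lit 57371) (nat_lit 2) (.e (nat_lit 90185) (nat_lit 17) (.e (nat_lit 237605) (nat_lit 9) (.e (nat_lit 426479) (nat_lit 27) (.e (nat_lit 336421) (nat_lit 28) .nil))))) .nil))) (.nd (nat_lit 5) 
(.lf (nat_lit 145180) (.g (nat_lit 1013) (.e (nat_lit 57371) (nat_lit 2) (.e (nat_lit 90178) (nat_lit 15) (.e (nat_lit 188459) (nat_lit 26) (.e (nat_lit 261888) (nat_lit 5) .nil)))) .nil)) 
(.lf (nat_lit 145212) (.g (nat_lit 2340) (.e (nat_lit 57371) (nat_lit 2) (.e (nat_lit 90185) (nat_lit 17) (.e (nat_lit 237621) (nat_lit 13) (.e (nat_lit 483341) (nat_lit 9) (.e (nat_lit 426108) (nat_lit 1) (.e (nat_lit 164402) (nat_lit 256) .nil)))))) (.g (nat_lit 5) .nil .nil))))))) (.nd (nat_lit 2) (.nd (nat_lit 3) (.nd (nat_lit 4) (.nd (nat_lit 5) 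
(.lf (nat_lit 145154) (.g (nat_lit 2806) (.e (nat_lit 57371) (nat_lit 2) (.e (nat_lit 90176) (nat_lit 15) (.e (nat_lit 188450) (nat_lit 23) (.e (nat_lit 204863) (nat_lit 27) (.e (nat_lit 344095) (nat_lit 18) (.e (nat_lit 7936) (nat_lit 283) .nil)))))) (.g (nat_lit 4) .nil .nil))) 
(.lf (nat_lit 145186) (.g (nat_lit 401) (.e (nat_lit 57371) (nat_lit 2) (.e (nat_lit 90185) (nat_lit 17) (.e (nat_lit 237601) (nat_lit 9) .nil))) .nil))) (.nd (nat_lit 5) 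
(.lf (nat_lit 145170) (.g (nat_lit 1057) (.e (nat_lit 57371) (nat_lit 2) (.e (nat_lit 90176) (nat_lit 15) (.e (nat_lit 188461) (nat_lit 26) (.e (nat_lit 261888) (nat_lit 5) .nil)))) .nil)) 
(.lf (nat_lit 145202) (.g (nat_lit 2060) (.e (nat_lit 57371) (nat_lit 2) (.e (nat_lit 90185) (nat_lit 17) (.e (nat_lit 237605) (nat_lit 9) (.e (nat_lit 426566) (nat_lit 34) (.e (nat_lit 393254) (nat_lit 18) (.e (nat_lit 164401) (nat_lit 256) .nil)))))) (.g (nat_lit 5) .nil .nil))))) (.nd (nat_lit 4) (.nd (nat_lit 5) 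
(.lf (nat_lit 145162) (.g (nat_lit 3388) (.e (nat_lit 57371) (nat_lit 2) (.e (nat_lit 90176) (nat_lit 15) (.e (nat_lit 188450) (nat_lit 23) (.e (nat_lit 204880) (nat_lit 32) (.e (nat_lit 385046) (nat_lit 21) .nil))))) .nil)) 
(.lf (nat_lit 145194) (.g (nat_lit 399) (.e (nat_lit 57371) (nat_lit 2) (.e (nat_lit 90185) (nat_lit 17) (.e (nat_lit 237605) (nat_lit 9) .nil))) .nil))) (.nd (nat_lit 5) 
(.lf (nat_lit 145178) (.g (nat_lit 456) (.e (nat_lit 57371) (nat_lit 2) (.e (nat_lit 90178) (nat_lit 15) (.e (nat_lit 196352) (nat_lit 18) .nil))) .nil)) 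
(.lf (nat_lit 145210) (.g (nat_lit 3065) (.e (nat_lit 57371) (nat_lit 2) (.e (nat_lit 90185) (nat_lit 17) (.e (nat_lit 237621) (nat_lit 13) (.e (nat_lit 483337) (nat_lit 9) (.e (nat_lit 426108) (nat_lit 1) (.e (nat_lit 164403) (nat_lit 256) .nil)))))) (.g (nat_lit 0) .nil .nil)))))) (.nd (nat_lit 3) (.nd (nat_lit 4) (.nd (nat_lit 5) 
(.lf (nat_lit 145158) (.g (nat_lit 2520) (.e (nat_lit 57371) (nat_lit 2) (.e (nat_lit 90176) (nat_lit 15) (.e (nat_lit 188450) (nat_lit 23) (.e (nat_lit 204864) (nat_lit 27) (.e (nat_lit 344095) (nat_lit 18) (.e (nat_lit 7936) (nat_lit 283) .nil)))))) (.g (nat_lit 4) .nil .nil))) 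
(.lf (nat_lit 145190) (.g (nat_lit 3214) (.e (nat_lit 57371) (nat_lit 2) (.e (nat_lit 90185) (nat_lit 17) (.e (nat_lit 237601) (nat_lit 9) (.e (nat_lit 426566) (nat_lit 34) (.e (nat_lit 393253) (nat_lit 18) (.e (nat_lit 164403) (nat_lit 256) .nil)))))) (.g (nat_lit 0) .nil .nil)))) (.nd (nat_lit 5) 
(.lf (nat_lit 145174) (.g (nat_lit 2530) (.e (nat_lit 57371) (nat_lit 2) (.e (nat_lit 90178) (nat_lit 15) (.e (nat_lit 188421) (nat_lit 11) (.e (nat_lit 336387) (nat_lit 27) (.e (nat_lit 426108) (nat_lit 1) (.e (nat_lit 164396) (nat_lit 256) .nil)))))) (.g (nat_lit 5) .nil .nil))) 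
(.lf (nat_lit 145206) (.g (nat_lit 398) (.e (nat_lit 57371) (nat_lit 2) (.e (nat_lit 90185) (nat_lit 17) (.e (nat_lit 237621) (nat_lit 13) .nil))) .nil)))) (.nd (nat_lit 4) (.nd (nat_lit 5) 
(.lf (nat_lit 145166) (.g (nat_lit 2519) (.e (nat_lit 57371) (nat_lit 2) (.e (nat_lit 90176) (nat_lit 15) (.e (nat_lit 188450) (nat_lit 23) (.e (nat_lit 204885) (nat_lit 33) (.e (nat_lit 401414) (nat_lit 0) (.e (nat_lit 2424) (nat_lit 157) (.e (nat_lit 4415) (nat_lit 259) .nil))))))) (.g (nat_lit 4) .nil .nil))) 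
(.lf (nat_lit 145198) (.g (nat_lit 3389) (.e (nat_lit 57371) (nat_lit 2) (.e (nat_lit 90185) (nat_lit 17) (.e (nat_lit 237605) (nat_lit 9) (.e (nat_lit 426566) (nat_lit 34) (.e (nat_lit 393251) (nat_lit 18) (.e (nat_lit 164403) (nat_lit 256) .nil)))))) (.g (nat_lit 0) .nil .nil)))) (.nd (nat_lit 5) 
(.lf (nat_lit 145182) (.g (nat_lit 1325) (.e (nat_lit 57371) (nat_lit 2) (.e (nat_lit 90178) (nat_lit 15) (.e (nat_lit 188461) (nat_lit 26) (.e (nat_lit 261888) (nat_lit 5) .nil)))) .nil)) 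
(.lf (nat_lit 145214) (.g (nat_lit 2302) (.e (nat_lit 57371) (nat_lit 2) (.e (nat_lit 90185) (nat_lit 17) (.e (nat_lit 237621) (nat_lit 13) (.e (nat_lit 483341) (nat_lit 9) (.e (nat_lit 426145) (nat_lit 4) (.e (nat_lit 229707) (nat_lit 256) .nil)))))) (.g (nat_lit 4) .nil .nil)))))))) (.nd (nat_lit 1) (.nd (nat_lit 2) (.nd (nat_lit 3) (.nd (nat_lit 4) (.nd (nat_lit 5) 
(.lf (nat_lit 145153) (.g (nat_lit 2895) (.e (nat_lit 57371) (nat_lit 2) (.e (nat_lit 90176) (nat_lit 15) (.e (nat_lit 188450) (nat_lit 23) (.e (nat_lit 204863) (nat_lit 27) (.e (nat_lit 344094) (nat_lit 18) (.e (nat_lit 7936) (nat_lit 283) .nil)))))) (.g (nat_lit 4) .nil .nil))) 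
(.lf (nat_lit 145185) (.g (nat_lit 882) (.e (nat_lit 57371) (nat_lit 2) (.e (nat_lit 90185) (nat_lit 17) (.e (nat_lit 237594) (nat_lit 3) .nil))) .nil))) (.nd (nat_lit 5) 
(.lf (nat_lit 145169) (.g (nat_lit 1057) (.e (nat_lit 57371) (nat_lit 2) (.e (nat_lit 90176) (nat_lit 15) (.e (nat_lit 188461) (nat_lit 26) (.e (nat_lit 261888) (nat_lit 4) .nil)))) .nil)) 
(.lf (nat_lit 145201) (.g (nat_lit 3408) (.e (nat_lit 57371) (nat_lit 2) (.e (nat_lit 90185) (nat_lit 17) (.e (nat_lit 237605) (nat_lit 9) (.e (nat_lit 426566) (nat_lit 34) (.e (nat_lit 393253) (nat_lit 18) (.e (nat_lit 164403) (nat_lit 256) .nil)))))) (.g (nat_lit 0) .nil .nil))))) (.nd (nat_lit 4) (.nd (nat_lit 5) 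
(.lf (nat_lit 145161) (.g (nat_lit 3508) (.e (nat_lit 57371) (nat_lit 2) (.e (nat_lit 90176) (nat_lit 15) (.e (nat_lit 188450) (nat_lit 23) (.e (nat_lit 204880) (nat_lit 32) (.e (nat_lit 385044) (nat_lit 21) .nil))))) .nil)) 
(.lf (nat_lit 145193) (.g (nat_lit 2859) (.e (nat_lit 57371) (nat_lit 2) (.e (nat_lit 90185) (nat_lit 17) (.e (nat_lit 237601) (nat_lit 9) (.e (nat_lit 426568) (nat_lit 34) (.e (nat_lit 393253) (nat_lit 18) (.e (nat_lit 164403) (nat_lit 256) .nil)))))) (.g (nat_lit 0) .nil .nil)))) (.nd (nat_lit 5) 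
(.lf (nat_lit 145177) (.g (nat_lit 1131) (.e (nat_lit 57371) (nat_lit 2) (.e (nat_lit 90178) (nat_lit 15) (.e (nat_lit 188421) (nat_lit 11) (.e (nat_lit 336405) (nat_lit 27) .nil)))) .nil)) 
(.lf (nat_lit 145209) (.g (nat_lit 3315) (.e (nat_lit 57371) (nat_lit 2) (.e (nat_lit 90185) (nat_lit 17) (.e (nat_lit 237621) (nat_lit 13) (.e (nat_lit 483337) (nat_lit 9) (.e (nat_lit 426107) (nat_lit 1) (.e (nat_lit 164403) (nat_lit 256) .nil)))))) (.g (nat_lit 0) .nil .nil)))))) (.nd (nat_lit 3) (.nd (nat_lit 4) (.nd (nat_lit 5) 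
(.lf (nat_lit 145157) (.g (nat_lit 2725) (.e (nat_lit 57371) (nat_lit 2) (.e (nat_lit 90176) (nat_lit 15) (.e (nat_lit 188450) (nat_lit 23) (.e (nat_lit 204863) (nat_lit 27) (.e (nat_lit 344102) (nat_lit 18) (.e (nat_lit 7936) (nat_lit 283) .nil)))))) (.g (nat_lit 4) .nil .nil))) 
(.lf (nat_lit 145189) (.g (nat_lit 3214) (.e (nat_lit 57371) (nat_lit 2) (.e (nat_lit 90185) (nat_lit 17) (.e (nat_lit 237601) (nat_lit 9) (.e (nat_lit 426566) (nat_lit 34) (.e (nat_lit 393251) (nat_lit 18) (.e (nat_lit 164403) (nat_lit 256) .nil)))))) (.g (nat_lit 0) .nil .nil)))) (.nd (nat_lit 5) 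
(.lf (nat_lit 145173) (.g (nat_lit 2382) (.e (nat_lit 57371) (nat_lit 2) (.e (nat_lit 90178) (nat_lit 15) (.e (nat_lit 188421) (nat_lit 11) (.e (nat_lit 336387) (nat_lit 27) (.e (nat_lit 426107) (nat_lit 1) (.e (nat_lit 164396) (nat_lit 256) .nil)))))) (.g (nat_lit 5) .nil .nil))) 
(.lf (nat_lit 145205) (.g (nat_lit 951) (.e (nat_lit 57371) (nat_lit 2) (.e (nat_lit 90185) (nat_lit 17) (.e (nat_lit 237620) (nat_lit 13) .nil))) .nil)))) (.nd (nat_lit 4) (.nd (nat_lit 5) 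
(.lf (nat_lit 145165) (.g (nat_lit 1226) (.e (nat_lit 57371) (nat_lit 2) (.e (nat_lit 90176) (nat_lit 15) (.e (nat_lit 188450) (nat_lit 23) (.e (nat_lit 204881) (nat_lit 32) .nil)))) .nil)) 
(.lf (nat_lit 145197) (.g (nat_lit 2614) (.e (nat_lit 57371) (nat_lit 2) (.e (nat_lit 90185) (nat_lit 17) (.e (nat_lit 237605) (nat_lit 9) (.e (nat_lit 426479) (nat_lit 27) (.e (nat_lit 336421) (nat_lit 28) (.e (nat_lit 434212) (nat_lit 18) (.e (nat_lit 5950) (nat_lit 322) .nil))))))) (.g (nat_lit 5) .nil .nil)))) (.nd (nat_lit 5) 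
(.lf (nat_lit 145181) (.g (nat_lit 1325) (.e (nat_lit 57371) (nat_lit 2) (.e (nat_lit 90178) (nat_lit 15) (.e (nat_lit 188461) (nat_lit 26) (.e (nat_lit 261888) (nat_lit 4) .nil)))) .nil)) 
(.lf (nat_lit 145213) (.g (nat_lit 2982) (.e (nat_lit 57371) (nat_lit 2) (.e (nat_lit 90185) (nat_lit 17) (.e (nat_lit 237621) (nat_lit 13) (.e (nat_lit 483341) (nat_lit 9) (.e (nat_lit 426108) (nat_lit 1) (.e (nat_lit 164403) (nat_lit 256) .nil)))))) (.g (nat_lit 0) .nil .nil))))))) (.nd (nat_lit 2) (.nd (nat_lit 3) (.nd (nat_lit 4) (.nd (nat_lit 5) 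
(.lf (nat_lit 145155) (.g (nat_lit 3481) (.e (nat_lit 57371) (nat_lit 2) (.e (nat_lit 90176) (nat_lit 15) (.e (nat_lit 188450) (nat_lit 23) (.e (nat_lit 204863) (nat_lit 27) (.e (nat_lit 344096) (nat_lit 18) (.e (nat_lit 7936) (nat_lit 283) .nil)))))) (.g (nat_lit 5) .nil .nil))) 
(.lf (nat_lit 145187) (.g (nat_lit 929) (.e (nat_lit 57371) (nat_lit 2) (.e (nat_lit 90185) (nat_lit 17) (.e (nat_lit 237601) (nat_lit 9) (.e (nat_lit 426479) (nat_lit 27) (.e (nat_lit 336421) (nat_lit 28) .nil))))) .nil))) (.nd (nat_lit 5) 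
(.lf (nat_lit 145171) (.g (nat_lit 417) (.e (nat_lit 57371) (nat_lit 2) (.e (nat_lit 90178) (nat_lit 15) (.e (nat_lit 188421) (nat_lit 11) .nil))) .nil)) 
(.lf (nat_lit 145203) (.g (nat_lit 2911) (.e (nat_lit 57371) (nat_lit 2) (.e (nat_lit 90185) (nat_lit 17) (.e (nat_lit 237605) (nat_lit 9) (.e (nat_lit 426566) (nat_lit 34) (.e (nat_lit 393254) (nat_lit 18) (.e (nat_lit 164403) (nat_lit 256) .nil)))))) (.g (nat_lit 0) .nil .nil))))) (.nd (nat_lit 4) (.nd (nat_lit 5) 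
(.lf (nat_lit 145163) (.g (nat_lit 3484) (.e (nat_lit 57371) (nat_lit 2) (.e (nat_lit 90176) (nat_lit 15) (.e (nat_lit 188450) (nat_lit 23) (.e (nat_lit 204880) (nat_lit 32) (.e (nat_lit 385047) (nat_lit 21) (.e (nat_lit 7936) (nat_lit 373) .nil)))))) (.g (nat_lit 4) .nil .nil))) 
(.lf (nat_lit 145195) (.g (nat_lit 812) (.e (nat_lit 57371) (nat_lit 2) (.e (nat_lit 90185) (nat_lit 17) (.e (nat_lit 237605) (nat_lit 9) (.e (nat_lit 426479) (nat_lit 27) .nil)))) .nil))) (.nd (nat_lit 5) 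
(.lf (nat_lit 145179) (.g (nat_lit 626) (.e (nat_lit 57371) (nat_lit 2) (.e (nat_lit 90178) (nat_lit 15) (.e (nat_lit 188459) (nat_lit 26) .nil))) .nil)) 
(.lf (nat_lit 145211) (.g (nat_lit 2986) (.e (nat_lit 57371) (nat_lit 2) (.e (nat_lit 90185) (nat_lit 17) (.e (nat_lit 237621) (nat_lit 13) (.e (nat_lit 483341) (nat_lit 9) (.e (nat_lit 426107) (nat_lit 1) (.e (nat_lit 164403) (nat_lit 256) .nil)))))) (.g (nat_lit 0) .nil .nil)))))) (.nd (nat_lit 3) (.nd (nat_lit 4) (.nd (nat_lit 5) 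
(.lf (nat_lit 145159) (.g (nat_lit 2467) (.e (nat_lit 57371) (nat_lit 2) (.e (nat_lit 90176) (nat_lit 15) (.e (nat_lit 188450) (nat_lit 23) (.e (nat_lit 204880) (nat_lit 32) (.e (nat_lit 385043) (nat_lit 21) (.e (nat_lit 6931) (nat_lit 373) .nil)))))) (.g (nat_lit 4) .nil .nil))) 
(.lf (nat_lit 145191) (.g (nat_lit 1958) (.e (nat_lit 57371) (nat_lit 2) (.e (nat_lit 90185) (nat_lit 17) (.e (nat_lit 237601) (nat_lit 9) (.e (nat_lit 426566) (nat_lit 34) (.e (nat_lit 393254) (nat_lit 18) (.e (nat_lit 164401) (nat_lit 256) .nil)))))) (.g (nat_lit 5) .nil .nil)))) (.nd (nat_lit 5) 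
(.lf (nat_lit 145175) (.g (nat_lit 3455) (.e (nat_lit 57371) (nat_lit 2) (.e (nat_lit 90178) (nat_lit 15) (.e (nat_lit 188421) (nat_lit 11) (.e (nat_lit 336387) (nat_lit 27) (.e (nat_lit 426108) (nat_lit 1) (.e (nat_lit 164402) (nat_lit 256) .nil)))))) (.g (nat_lit 6) .nil .nil))) 
(.lf (nat_lit 145207) (.g (nat_lit 2115) (.e (nat_lit 57371) (nat_lit 2) (.e (nat_lit 90185) (nat_lit 17) (.e (nat_lit 237621) (nat_lit 13) (.e (nat_lit 483337) (nat_lit 9) (.e (nat_lit 426098) (nat_lit 1) (.e (nat_lit 164396) (nat_lit 256) .nil)))))) (.g (nat_lit 4) .nil .nil))))) (.nd (nat_lit 4) (.nd (nat_lit 5) 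
(.lf (nat_lit 145167) (.g (nat_lit 1661) (.e (nat_lit 57371) (nat_lit 2) (.e (nat_lit 90176) (nat_lit 15) (.e (nat_lit 188450) (nat_lit 23) (.e (nat_lit 204885) (nat_lit 33) (.e (nat_lit 401461) (nat_lit 15) .nil))))) .nil)) 
(.lf (nat_lit 145199) (.g (nat_lit 2553) (.e (nat_lit 57371) (nat_lit 2) (.e (nat_lit 90185) (nat_lit 17) (.e (nat_lit 237605) (nat_lit 9) (.e (nat_lit 426566) (nat_lit 34) (.e (nat_lit 393252) (nat_lit 18) (.e (nat_lit 164396) (nat_lit 256) .nil)))))) (.g (nat_lit 5) .nil .nil)))) (.nd (nat_lit 5) 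
(.lf (nat_lit 145183) (.g (nat_lit 2760) (.e (nat_lit 57371) (nat_lit 2) (.e (nat_lit 90185) (nat_lit 17) (.e (nat_lit 237587) (nat_lit 2) (.e (nat_lit 196654) (nat_lit 11) (.e (nat_lit 16416) (nat_lit 3) (.e (nat_lit 204830) (nat_lit 18) (.e (nat_lit 65280) (nat_lit 166) .nil))))))) (.g (nat_lit 4) .nil .nil))) 
(.lf (nat_lit 145215) (.g (nat_lit 861) (.e (nat_lit 57371) (nat_lit 2) (.e (nat_lit 90185) (nat_lit 17) (.e (nat_lit 237623) (nat_lit 13) .nil))) .nil))))))))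

noncomputable def tv1928 : DT := (.nd (nat_lit 0) (.nd (nat_lit 1) (.nd (nat_lit 2) (.nd (nat_lit 3) (.nd (nat_lit 4) (.nd (nat_lit 5) 
(.lf (nat_lit 145216) (.g (nat_lit 2020) (.e (nat_lit 57371) (nat_lit 2) (.e (nat_lit 90185) (nat_lit 17) (.e (nat_lit 237623) (nat_lit 13) (.e (nat_lit 483341) (nat_lit 9) (.e (nat_lit 426107) (nat_lit 1) (.e (nat_lit 164403) (nat_lit 256) .nil)))))) (.g (nat_lit 4) .nil .nil))) 
(.lf (nat_lit 145248) (.g (nat_lit 3088) (.e (nat_lit 57372) (nat_lit 2) (.e (nat_lit 90128) (nat_lit 9) (.e (nat_lit 334) (nat_lit 26) (.e (nat_lit 376867) (nat_lit 23) (.e (nat_lit 98365) (nat_lit 26) (.e (nat_lit 426009) (nat_lit 0) (.e (nat_lit 2398) (nat_lit 157) (.e (nat_lit 5570) (nat_lit 308) .nil)))))))) (.g (nat_lit 5) .nil .nil)))) (.nd (nat_lit 5) 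
(.lf (nat_lit 145232) (.g (nat_lit 1957) (.e (nat_lit 57372) (nat_lit 2) (.e (nat_lit 98048) (nat_lit 8) (.e (nat_lit 131116) (nat_lit 9) (.e (nat_lit 336004) (nat_lit 2) (.e (nat_lit 90172) (nat_lit 14) (.e (nat_lit 188160) (nat_lit 0) (.e (nat_lit 5195) (nat_lit 294) .nil))))))) (.g (nat_lit 5) .nil .nil))) 
(.lf (nat_lit 145264) (.g (nat_lit 2844) (.e (nat_lit 57372) (nat_lit 2) (.e (nat_lit 90158) (nat_lit 11) (.e (nat_lit 24608) (nat_lit 3) (.e (nat_lit 98341) (nat_lit 20) (.e (nat_lit 221212) (nat_lit 22) (.e (nat_lit 196660) (nat_lit 12) (.e (nat_lit 57354) (nat_lit 0) (.e (nat_lit 5195) (nat_lit 294) .nil)))))))) (.g (nat_lit 5) .nil .nil))))) (.nd (nat_lit 4) (.nd (nat_lit 5) 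
(.lf (nat_lit 145224) (.g (nat_lit 3022) (.e (nat_lit 57371) (nat_lit 2) (.e (nat_lit 90185) (nat_lit 17) (.e (nat_lit 237624) (nat_lit 13) (.e (nat_lit 483337) (nat_lit 9) (.e (nat_lit 426108) (nat_lit 1) (.e (nat_lit 164403) (nat_lit 256) .nil)))))) (.g (nat_lit 0) .nil .nil))) 
(.lf (nat_lit 145256) (.g (nat_lit 970) (.e (nat_lit 57372) (nat_lit 2) (.e (nat_lit 90157) (nat_lit 11) (.e (nat_lit 24657) (nat_lit 13) (.e (nat_lit 393227) (nat_lit 9) .nil)))) .nil))) (.nd (nat_lit 5) 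
(.lf (nat_lit 145240) (.g (nat_lit 336) (.e (nat_lit 57372) (nat_lit 2) (.e (nat_lit 90128) (nat_lit 9) (.e (nat_lit 297) (nat_lit 22) .nil))) .nil)) 
(.lf (nat_lit 145272) (.g (nat_lit 1600) (.e (nat_lit 57372) (nat_lit 2) (.e (nat_lit 90158) (nat_lit 11) (.e (nat_lit 24625) (nat_lit 9) (.e (nat_lit 336370) (nat_lit 27) .nil)))) .nil))))) (.nd (nat_lit 3) (.nd (nat_lit 4) (.nd (nat_lit 5) 
(.lf (nat_lit 145220) (.g (nat_lit 2151) (.e (nat_lit 57371) (nat_lit 2) (.e (nat_lit 90185) (nat_lit 17) (.e (nat_lit 237624) (nat_lit 13) (.e (nat_lit 483337) (nat_lit 9) (.e (nat_lit 426098) (nat_lit 1) (.e (nat_lit 164396) (nat_lit 256) .nil)))))) (.g (nat_lit 4) .nil .nil))) 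
(.lf (nat_lit 145252) (.g (nat_lit 664) (.e (nat_lit 57372) (nat_lit 2) (.e (nat_lit 90128) (nat_lit 9) (.e (nat_lit 336) (nat_lit 26) .nil))) .nil))) (.nd (nat_lit 5) 
(.lf (nat_lit 145236) (.g (nat_lit 2470) (.e (nat_lit 57372) (nat_lit 2) (.e (nat_lit 98048) (nat_lit 8) (.e (nat_lit 131116) (nat_lit 9) (.e (nat_lit 336012) (nat_lit 2) (.e (nat_lit 90172) (nat_lit 14) (.e (nat_lit 188160) (nat_lit 0) (.e (nat_lit 5199) (nat_lit 294) .nil))))))) (.g (nat_lit 5) .nil .nil))) 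
(.lf (nat_lit 145268) (.g (nat_lit 3207) (.e (nat_lit 57372) (nat_lit 2) (.e (nat_lit 90158) (nat_lit 11) (.e (nat_lit 24608) (nat_lit 3) (.e (nat_lit 98342) (nat_lit 20) (.e (nat_lit 221215) (nat_lit 23) (.e (nat_lit 204821) (nat_lit 17) (.e (nat_lit 1040) (nat_lit 81) (.e (nat_lit 5195) (nat_lit 294) .nil)))))))) (.g (nat_lit 5) .nil .nil))))) (.nd (nat_lit 4) (.nd (nat_lit 5) 
(.lf (nat_lit 145228) (.g (nat_lit 2283) (.e (nat_lit 57371) (nat_lit 2) (.e (nat_lit 90185) (nat_lit 17) (.e (nat_lit 237624) (nat_lit 13) (.e (nat_lit 483341) (nat_lit 9) (.e (nat_lit 426145) (nat_lit 4) (.e (nat_lit 229707) (nat_lit 256) .nil)))))) (.g (nat_lit 4) .nil .nil))) 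
(.lf (nat_lit 145260) (.g (nat_lit 1940) (.e (nat_lit 57372) (nat_lit 2) (.e (nat_lit 90158) (nat_lit 11) (.e (nat_lit 24608) (nat_lit 3) (.e (nat_lit 98341) (nat_lit 20) (.e (nat_lit 221210) (nat_lit 22) .nil))))) .nil))) (.nd (nat_lit 5) 
(.lf (nat_lit 145244) (.g (nat_lit 3452) (.e (nat_lit 57372) (nat_lit 2) (.e (nat_lit 90128) (nat_lit 9) (.e (nat_lit 314) (nat_lit 23) (.e (nat_lit 352275) (nat_lit 11) (.e (nat_lit 426500) (nat_lit 27) (.e (nat_lit 335995) (nat_lit 1) (.e (nat_lit 57847) (nat_lit 252) .nil))))))) (.g (nat_lit 0) .nil .nil))) 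
(.lf (nat_lit 145276) (.g (nat_lit 1506) (.e (nat_lit 57372) (nat_lit 2) (.e (nat_lit 90158) (nat_lit 11) (.e (nat_lit 24628) (nat_lit 9) (.e (nat_lit 336366) (nat_lit 27) .nil)))) .nil)))))) (.nd (nat_lit 2) (.nd (nat_lit 3) (.nd (nat_lit 4) (.nd (nat_lit 5) 
(.lf (nat_lit 145218) (.g (nat_lit 416) (.e (nat_lit 57371) (nat_lit 2) (.e (nat_lit 90185) (nat_lit 17) (.e (nat_lit 237624) (nat_lit 13) .nil))) .nil)) 
(.lf (nat_lit 145250) (.g (nat_lit 3231) (.e (nat_lit 57372) (nat_lit 2) (.e (nat_lit 90128) (nat_lit 9) (.e (nat_lit 334) (nat_lit 26) (.e (nat_lit 376869) (nat_lit 23) (.e (nat_lit 98365) (nat_lit 26) (.e (nat_lit 426009) (nat_lit 0) (.e (nat_lit 2398) (nat_lit 157) (.e (nat_lit 5570) (nat_lit 308) .nil)))))))) (.g (nat_lit 5) .nil .nil)))) (.nd (nat_lit 5) 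
(.lf (nat_lit 145234) (.g (nat_lit 2776) (.e (nat_lit 57372) (nat_lit 2) (.e (nat_lit 98048) (nat_lit 8) (.e (nat_lit 131116) (nat_lit 9) (.e (nat_lit 336012) (nat_lit 2) (.e (nat_lit 90172) (nat_lit 14) (.e (nat_lit 188160) (nat_lit 0) (.e (nat_lit 5194) (nat_lit 294) .nil))))))) (.g (nat_lit 5) .nil .nil))) 
(.lf (nat_lit 145266) (.g (nat_lit 1232) (.e (nat_lit 57372) (nat_lit 2) (.e (nat_lit 90158) (nat_lit 11) (.e (nat_lit 24608) (nat_lit 3) (.e (nat_lit 98342) (nat_lit 20) .nil)))) .nil)))) (.nd (nat_lit 4) (.nd (nat_lit 5) 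
(.lf (nat_lit 145226) (.g (nat_lit 2340) (.e (nat_lit 57371) (nat_lit 2) (.e (nat_lit 90185) (nat_lit 17) (.e (nat_lit 237624) (nat_lit 13) (.e (nat_lit 483341) (nat_lit 9) (.e (nat_lit 426108) (nat_lit 1) (.e (nat_lit 164402) (nat_lit 256) .nil)))))) (.g (nat_lit 5) .nil .nil))) 
(.lf (nat_lit 145258) (.g (nat_lit 1592) (.e (nat_lit 57372) (nat_lit 2) (.e (nat_lit 90158) (nat_lit 11) (.e (nat_lit 24608) (nat_lit 3) (.e (nat_lit 98337) (nat_lit 19) .nil)))) .nil))) (.nd (nat_lit 5) 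
(.lf (nat_lit 145242) (.g (nat_lit 665) (.e (nat_lit 57372) (nat_lit 2) (.e (nat_lit 90128) (nat_lit 9) (.e (nat_lit 304) (nat_lit 22) .nil))) .nil)) 
(.lf (nat_lit 145274) (.g (nat_lit 1840) (.e (nat_lit 57372) (nat_lit 2) (.e (nat_lit 90158) (nat_lit 11) (.e (nat_lit 24625) (nat_lit 9) (.e (nat_lit 336454) (nat_lit 34) (.e (nat_lit 483362) (nat_lit 18) .nil))))) .nil))))) (.nd (nat_lit 3) (.nd (nat_lit 4) (.nd (nat_lit 5) 
(.lf (nat_lit 145222) (.g (nat_lit 3272) (.e (nat_lit 57371) (nat_lit 2) (.e (nat_lit 90185) (nat_lit 17) (.e (nat_lit 237624) (nat_lit 13) (.e (nat_lit 483337) (nat_lit 9) (.e (nat_lit 426107) (nat_lit 1) (.e (nat_lit 164403) (nat_lit 256) .nil)))))) (.g (nat_lit 0) .nil .nil))) 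
(.lf (nat_lit 145254) (.g (nat_lit 2094) (.e (nat_lit 57372) (nat_lit 2) (.e (nat_lit 90140) (nat_lit 9) (.e (nat_lit 284) (nat_lit 21) (.e (nat_lit 336076) (nat_lit 9) (.e (nat_lit 336454) (nat_lit 34) (.e (nat_lit 483366) (nat_lit 18) (.e (nat_lit 57848) (nat_lit 252) .nil))))))) (.g (nat_lit 4) .nil .nil)))) (.nd (nat_lit 5) 
(.lf (nat_lit 145238) (.g (nat_lit 665) (.e (nat_lit 57372) (nat_lit 2) (.e (nat_lit 90128) (nat_lit 9) (.e (nat_lit 239) (nat_lit 21) .nil))) .nil)) 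
(.lf (nat_lit 145270) (.g (nat_lit 1813) (.e (nat_lit 57372) (nat_lit 2) (.e (nat_lit 90158) (nat_lit 11) (.e (nat_lit 24625) (nat_lit 9) (.e (nat_lit 336367) (nat_lit 27) (.e (nat_lit 426512) (nat_lit 27) .nil))))) .nil)))) (.nd (nat_lit 4) (.nd (nat_lit 5) 
(.lf (nat_lit 145230) (.g (nat_lit 1689) (.e (nat_lit 57372) (nat_lit 2) (.e (nat_lit 98048) (nat_lit 0) (.e (nat_lit 1615) (nat_lit 113) (.e (nat_lit 376865) (nat_lit 22) (.e (nat_lit 90172) (nat_lit 14) (.e (nat_lit 188160) (nat_lit 0) (.e (nat_lit 5199) (nat_lit 294) .nil))))))) (.g (nat_lit 4) .nil .nil))) 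
(.lf (nat_lit 145262) (.g (nat_lit 2039) (.e (nat_lit 57372) (nat_lit 2) (.e (nat_lit 90158) (nat_lit 11) (.e (nat_lit 24608) (nat_lit 3) (.e (nat_lit 98341) (nat_lit 20) (.e (nat_lit 221212) (nat_lit 22) .nil))))) .nil))) (.nd (nat_lit 5) 
(.lf (nat_lit 145246) (.g (nat_lit 665) (.e (nat_lit 57372) (nat_lit 2) (.e (nat_lit 90128) (nat_lit 9) (.e (nat_lit 332) (nat_lit 26) .nil))) .nil)) 
(.lf (nat_lit 145278) (.g (nat_lit 2634) (.e (nat_lit 57372) (nat_lit 2) (.e (nat_lit 90158) (nat_lit 11) (.e (nat_lit 24628) (nat_lit 9) (.e (nat_lit 336369) (nat_lit 27) (.e (nat_lit 426501) (nat_lit 27) .nil))))) .nil))))))) (.nd (nat_lit 1) (.nd (nat_lit 2) (.nd (nat_lit 3) (.nd (nat_lit 4) (.nd (nat_lit 5) 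
(.lf (nat_lit 145217) (.g (nat_lit 1915) (.e (nat_lit 57371) (nat_lit 2) (.e (nat_lit 90185) (nat_lit 17) (.e (nat_lit 237623) (nat_lit 13) (.e (nat_lit 483341) (nat_lit 9) (.e (nat_lit 426108) (nat_lit 1) (.e (nat_lit 164403) (nat_lit 256) .nil)))))) (.g (nat_lit 4) .nil .nil))) 
(.lf (nat_lit 145249) (.g (nat_lit 2635) (.e (nat_lit 57372) (nat_lit 2) (.e (nat_lit 90128) (nat_lit 9) (.e (nat_lit 334) (nat_lit 26) (.e (nat_lit 376867) (nat_lit 23) (.e (nat_lit 98365) (nat_lit 26) (.e (nat_lit 426009) (nat_lit 0) (.e (nat_lit 2411) (nat_lit 157) (.e (nat_lit 5570) (nat_lit 308) .nil)))))))) (.g (nat_lit 5) .nil .nil)))) (.nd (nat_lit 5) 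
(.lf (nat_lit 145233) (.g (nat_lit 2210) (.e (nat_lit 57372) (nat_lit 2) (.e (nat_lit 98048) (nat_lit 8) (.e (nat_lit 131116) (nat_lit 9) (.e (nat_lit 336004) (nat_lit 2) (.e (nat_lit 90172) (nat_lit 14) (.e (nat_lit 188160) (nat_lit 0) (.e (nat_lit 5199) (nat_lit 294) .nil))))))) (.g (nat_lit 5) .nil .nil))) 
(.lf (nat_lit 145265) (.g (nat_lit 2868) (.e (nat_lit 57372) (nat_lit 2) (.e (nat_lit 90158) (nat_lit 11) (.e (nat_lit 24608) (nat_lit 3) (.e (nat_lit 98341) (nat_lit 20) (.e (nat_lit 221214) (nat_lit 23) (.e (nat_lit 204821) (nat_lit 17) (.e (nat_lit 1040) (nat_lit 81) (.e (nat_lit 5195) (nat_lit 294) .nil)))))))) (.g (nat_lit 5) .nil .nil))))) (.nd (nat_lit 4) (.nd (nat_lit 5) 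
(.lf (nat_lit 145225) (.g (nat_lit 2991) (.e (nat_lit 57371) (nat_lit 2) (.e (nat_lit 90185) (nat_lit 17) (.e (nat_lit 237624) (nat_lit 13) (.e (nat_lit 483341) (nat_lit 9) (.e (nat_lit 426107) (nat_lit 1) (.e (nat_lit 164403) (nat_lit 256) .nil)))))) (.g (nat_lit 0) .nil .nil))) 
(.lf (nat_lit 145257) (.g (nat_lit 2339) (.e (nat_lit 57372) (nat_lit 2) (.e (nat_lit 90158) (nat_lit 11) (.e (nat_lit 24608) (nat_lit 3) (.e (nat_lit 98321) (nat_lit 17) (.e (nat_lit 3771) (nat_lit 229) .nil))))) .nil))) (.nd (nat_lit 5) 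
(.lf (nat_lit 145241) (.g (nat_lit 665) (.e (nat_lit 57372) (nat_lit 2) (.e (nat_lit 90128) (nat_lit 9) (.e (nat_lit 298) (nat_lit 22) .nil))) .nil)) 
(.lf (nat_lit 145273) (.g (nat_lit 1860) (.e (nat_lit 57372) (nat_lit 2) (.e (nat_lit 90158) (nat_lit 11) (.e (nat_lit 24625) (nat_lit 9) (.e (nat_lit 336452) (nat_lit 34) (.e (nat_lit 483363) (nat_lit 18) .nil))))) .nil))))) (.nd (nat_lit 3) (.nd (nat_lit 4) (.nd (nat_lit 5) 
(.lf (nat_lit 145221) (.g (nat_lit 2489) (.e (nat_lit 57371) (nat_lit 2) (.e (nat_lit 90185) (nat_lit 17) (.e (nat_lit 237624) (nat_lit 13) (.e (nat_lit 483337) (nat_lit 9) (.e (nat_lit 426107) (nat_lit 1) (.e (nat_lit 164401) (nat_lit 256) .nil)))))) (.g (nat_lit 5) .nil .nil))) 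
(.lf (nat_lit 145253) (.g (nat_lit 1625) (.e (nat_lit 57372) (nat_lit 2) (.e (nat_lit 90130) (nat_lit 9) (.e (nat_lit 251) (nat_lit 21) (.e (nat_lit 336213) (nat_lit 13) (.e (nat_lit 393229) (nat_lit 9) .nil))))) .nil))) (.nd (nat_lit 5) 
(.lf (nat_lit 145237) (.g (nat_lit 1520) (.e (nat_lit 57372) (nat_lit 2) (.e (nat_lit 90128) (nat_lit 9) (.e (nat_lit 234) (nat_lit 21) (.e (nat_lit 336211) (nat_lit 13) (.e (nat_lit 393225) (nat_lit 9) .nil))))) .nil)) 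
(.lf (nat_lit 145269) (.g (nat_lit 1351) (.e (nat_lit 57372) (nat_lit 2) (.e (nat_lit 90158) (nat_lit 11) (.e (nat_lit 24625) (nat_lit 9) (.e (nat_lit 336367) (nat_lit 27) .nil)))) .nil)))) (.nd (nat_lit 4) (.nd (nat_lit 5) 
(.lf (nat_lit 145229) (.g (nat_lit 1995) (.e (nat_lit 57372) (nat_lit 2) (.e (nat_lit 98048) (nat_lit 0) (.e (nat_lit 1615) (nat_lit 113) (.e (nat_lit 376865) (nat_lit 22) (.e (nat_lit 90172) (nat_lit 14) (.e (nat_lit 188160) (nat_lit 0) (.e (nat_lit 5194) (nat_lit 294) .nil))))))) (.g (nat_lit 4) .nil .nil))) 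
(.lf (nat_lit 145261) (.g (nat_lit 4106) (.e (nat_lit 57372) (nat_lit 2) (.e (nat_lit 90158) (nat_lit 11) (.e (nat_lit 24608) (nat_lit 3) (.e (nat_lit 98341) (nat_lit 20) (.e (nat_lit 221210) (nat_lit 22) (.e (nat_lit 196660) (nat_lit 12) (.e (nat_lit 57354) (nat_lit 0) (.e (nat_lit 5195) (nat_lit 294) .nil)))))))) (.g (nat_lit 7) .nil .nil)))) (.nd (nat_lit 5) 
(.lf (nat_lit 145245) (.g (nat_lit 1495) (.e (nat_lit 57372) (nat_lit 2) (.e (nat_lit 90128) (nat_lit 9) (.e (nat_lit 314) (nat_lit 23) (.e (nat_lit 352275) (nat_lit 11) (.e (nat_lit 426518) (nat_lit 27) .nil))))) .nil)) 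
(.lf (nat_lit 145277) (.g (nat_lit 1308) (.e (nat_lit 57372) (nat_lit 2) (.e (nat_lit 90158) (nat_lit 11) (.e (nat_lit 24628) (nat_lit 9) (.e (nat_lit 336367) (nat_lit 27) .nil)))) .nil)))))) (.nd (nat_lit 2) (.nd (nat_lit 3) (.nd (nat_lit 4) (.nd (nat_lit 5) 
(.lf (nat_lit 145219) (.g (nat_lit 884) (.e (nat_lit 57371) (nat_lit 2) (.e (nat_lit 90185) (nat_lit 17) (.e (nat_lit 237624) (nat_lit 13) (.e (nat_lit 483336) (nat_lit 9) .nil)))) .nil)) 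
(.lf (nat_lit 145251) (.g (nat_lit 2778) (.e (nat_lit 57372) (nat_lit 2) (.e (nat_lit 90128) (nat_lit 9) (.e (nat_lit 334) (nat_lit 26) (.e (nat_lit 376869) (nat_lit 23) (.e (nat_lit 98365) (nat_lit 26) (.e (nat_lit 426009) (nat_lit 0) (.e (nat_lit 2411) (nat_lit 157) (.e (nat_lit 5570) (nat_lit 308) .nil)))))))) (.g (nat_lit 5) .nil .nil)))) (.nd (nat_lit 5) 
(.lf (nat_lit 145235) (.g (nat_lit 2217) (.e (nat_lit 57372) (nat_lit 2) (.e (nat_lit 98048) (nat_lit 8) (.e (nat_lit 131116) (nat_lit 9) (.e (nat_lit 336012) (nat_lit 2) (.e (nat_lit 90172) (nat_lit 14) (.e (nat_lit 188160) (nat_lit 0) (.e (nat_lit 5195) (nat_lit 294) .nil))))))) (.g (nat_lit 5) .nil .nil))) 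
(.lf (nat_lit 145267) (.g (nat_lit 3316) (.e (nat_lit 57372) (nat_lit 2) (.e (nat_lit 90158) (nat_lit 11) (.e (nat_lit 24608) (nat_lit 3) (.e (nat_lit 98342) (nat_lit 20) (.e (nat_lit 221212) (nat_lit 22) (.e (nat_lit 196660) (nat_lit 12) (.e (nat_lit 57354) (nat_lit 0) (.e (nat_lit 5194) (nat_lit 294) .nil)))))))) (.g (nat_lit 5) .nil .nil))))) (.nd (nat_lit 4) (.nd (nat_lit 5) 
(.lf (nat_lit 145227) (.g (nat_lit 2992) (.e (nat_lit 57371) (nat_lit 2) (.e (nat_lit 90185) (nat_lit 17) (.e (nat_lit 237624) (nat_lit 13) (.e (nat_lit 483341) (nat_lit 9) (.e (nat_lit 426108) (nat_lit 1) (.e (nat_lit 164403) (nat_lit 256) .nil)))))) (.g (nat_lit 0) .nil .nil))) 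
(.lf (nat_lit 145259) (.g (nat_lit 1685) (.e (nat_lit 57372) (nat_lit 2) (.e (nat_lit 90158) (nat_lit 11) (.e (nat_lit 24608) (nat_lit 3) (.e (nat_lit 98338) (nat_lit 19) .nil)))) .nil))) (.nd (nat_lit 5) 
(.lf (nat_lit 145243) (.g (nat_lit 1496) (.e (nat_lit 57372) (nat_lit 2) (.e (nat_lit 90128) (nat_lit 9) (.e (nat_lit 314) (nat_lit 23) (.e (nat_lit 352273) (nat_lit 11) (.e (nat_lit 426500) (nat_lit 27) .nil))))) .nil)) 
(.lf (nat_lit 145275) (.g (nat_lit 3626) (.e (nat_lit 57372) (nat_lit 2) (.e (nat_lit 90158) (nat_lit 11) (.e (nat_lit 24625) (nat_lit 9) (.e (nat_lit 336456) (nat_lit 34) (.e (nat_lit 483365) (nat_lit 18) (.e (nat_lit 57849) (nat_lit 252) .nil)))))) (.g (nat_lit 6) .nil .nil)))))) (.nd (nat_lit 3) (.nd (nat_lit 4) (.nd (nat_lit 5) 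
(.lf (nat_lit 145223) (.g (nat_lit 2255) (.e (nat_lit 57371) (nat_lit 2) (.e (nat_lit 90185) (nat_lit 17) (.e (nat_lit 237624) (nat_lit 13) (.e (nat_lit 483337) (nat_lit 9) (.e (nat_lit 426108) (nat_lit 1) (.e (nat_lit 164396) (nat_lit 256) .nil)))))) (.g (nat_lit 4) .nil .nil))) 
(.lf (nat_lit 145255) (.g (nat_lit 2059) (.e (nat_lit 57372) (nat_lit 2) (.e (nat_lit 90157) (nat_lit 11) (.e (nat_lit 24655) (nat_lit 13) (.e (nat_lit 393229) (nat_lit 9) (.e (nat_lit 335994) (nat_lit 1) .nil))))) .nil))) (.nd (nat_lit 5) 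
(.lf (nat_lit 145239) (.g (nat_lit 1037) (.e (nat_lit 57372) (nat_lit 2) (.e (nat_lit 90128) (nat_lit 9) (.e (nat_lit 268) (nat_lit 21) (.e (nat_lit 336083) (nat_lit 9) .nil)))) .nil)) 
(.lf (nat_lit 145271) (.g (nat_lit 3333) (.e (nat_lit 57372) (nat_lit 2) (.e (nat_lit 90158) (nat_lit 11) (.e (nat_lit 24625) (nat_lit 9) (.e (nat_lit 336367) (nat_lit 27) (.e (nat_lit 426537) (nat_lit 28) (.e (nat_lit 344097) (nat_lit 18) (.e (nat_lit 5195) (nat_lit 294) .nil))))))) (.g (nat_lit 7) .nil .nil))))) (.nd (nat_lit 4) (.nd (nat_lit 5) 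
(.lf (nat_lit 145231) (.g (nat_lit 2516) (.e (nat_lit 57372) (nat_lit 2) (.e (nat_lit 98048) (nat_lit 8) (.e (nat_lit 131116) (nat_lit 9) (.e (nat_lit 336004) (nat_lit 2) (.e (nat_lit 90172) (nat_lit 14) (.e (nat_lit 188160) (nat_lit 0) (.e (nat_lit 5194) (nat_lit 294) .nil))))))) (.g (nat_lit 5) .nil .nil))) 
(.lf (nat_lit 145263) (.g (nat_lit 2374) (.e (nat_lit 57372) (nat_lit 2) (.e (nat_lit 90158) (nat_lit 11) (.e (nat_lit 24608) (nat_lit 3) (.e (nat_lit 98341) (nat_lit 20) (.e (nat_lit 221212) (nat_lit 22) (.e (nat_lit 196660) (nat_lit 12) (.e (nat_lit 57354) (nat_lit 0) (.e (nat_lit 5194) (nat_lit 294) .nil)))))))) (.g (nat_lit 4) .nil .nil)))) (.nd (nat_lit 5) 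
(.lf (nat_lit 145247) (.g (nat_lit 1095) (.e (nat_lit 57372) (nat_lit 2) (.e (nat_lit 90128) (nat_lit 9) (.e (nat_lit 334) (nat_lit 26) (.e (nat_lit 376838) (nat_lit 11) (.e (nat_lit 426500) (nat_lit 27) .nil))))) .nil)) 
(.lf (nat_lit 145279) (.g (nat_lit 1594) (.e (nat_lit 57372) (nat_lit 2) (.e (nat_lit 90158) (nat_lit 11) (.e (nat_lit 24628) (nat_lit 9) (.e (nat_lit 336372) (nat_lit 27) .nil)))) .nil))))))))

noncomputable def tv1929 : DT := (.nd (nat_lit 0) (.nd (nat_lit 1) (.nd (nat_lit 2) (.nd (nat_lit 3) (.nd (nat_lit 4) (.nd (nat_lit 5) (.nd (nat_lit 6) 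
(.lf (nat_lit 145280) (.g (nat_lit 1394) (.e (nat_lit 57372) (nat_lit 2) (.e (nat_lit 90158) (nat_lit 11) (.e (nat_lit 24628) (nat_lit 9) (.e (nat_lit 336374) (nat_lit 27) (.e (nat_lit 426536) (nat_lit 28) .nil))))) .nil)) 
(.lf (nat_lit 145344) (.g (nat_lit 3310) (.e (nat_lit 57372) (nat_lit 2) (.e (nat_lit 90160) (nat_lit 11) (.e (nat_lit 24630) (nat_lit 9) (.e (nat_lit 336369) (nat_lit 27) (.e (nat_lit 426501) (nat_lit 27) (.e (nat_lit 335995) (nat_lit 1) (.e (nat_lit 57848) (nat_lit 252) .nil))))))) (.g (nat_lit 4) .nil .nil)))) (.nd (nat_lit 6) 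
(.lf (nat_lit 145312) (.g (nat_lit 1089) (.e (nat_lit 57372) (nat_lit 2) (.e (nat_lit 90159) (nat_lit 11) (.e (nat_lit 24627) (nat_lit 9) (.e (nat_lit 336415) (nat_lit 27) (.e (nat_lit 426500) (nat_lit 27) .nil))))) .nil)) 
(.lf (nat_lit 145376) (.g (nat_lit 2199) (.e (nat_lit 57372) (nat_lit 2) (.e (nat_lit 90167) (nat_lit 13) (.e (nat_lit 172067) (nat_lit 3) (.e (nat_lit 204837) (nat_lit 20) (.e (nat_lit 114700) (nat_lit 20) .nil))))) .nil)))) (.nd (nat_lit 5) (.nd (nat_lit 6) 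
(.lf (nat_lit 145296) (.g (nat_lit 2235) (.e (nat_lit 57372) (nat_lit 2) (.e (nat_lit 90158) (nat_lit 11) (.e (nat_lit 24655) (nat_lit 13) (.e (nat_lit 393229) (nat_lit 9) (.e (nat_lit 335912) (nat_lit 0) .nil))))) .nil)) 
(.lf (nat_lit 145360) (.g (nat_lit 3551) (.e (nat_lit 57372) (nat_lit 2) (.e (nat_lit 90160) (nat_lit 11) (.e (nat_lit 24665) (nat_lit 14) (.e (nat_lit 401414) (nat_lit 0) (.e (nat_lit 3579) (nat_lit 223) (.e (nat_lit 745475) (nat_lit 0) (.e (nat_lit 1535) (nat_lit 109) (.e (nat_lit 344097) (nat_lit 18) (.e (nat_lit 5194) (nat_lit 294) .nil))))))))) (.g (nat_lit 4) .nil .nil)))) (.nd (nat_lit 6) 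
(.lf (nat_lit 145328) (.g (nat_lit 2378) (.e (nat_lit 57372) (nat_lit 2) (.e (nat_lit 90160) (nat_lit 11) (.e (nat_lit 24608) (nat_lit 3) (.e (nat_lit 98341) (nat_lit 20) (.e (nat_lit 221204) (nat_lit 20) .nil))))) .nil)) 
(.lf (nat_lit 145392) (.g (nat_lit 3274) (.e (nat_lit 57372) (nat_lit 2) (.e (nat_lit 90167) (nat_lit 13) (.e (nat_lit 172067) (nat_lit 3) (.e (nat_lit 204838) (nat_lit 20) (.e (nat_lit 114719) (nat_lit 23) (.e (nat_lit 98334) (nat_lit 18) (.e (nat_lit 164400) (nat_lit 256) .nil))))))) (.g (nat_lit 5) .nil .nil)))))) (.nd (nat_lit 4) (.nd (nat_lit 5) (.nd (nat_lit 6) 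
(.lf (nat_lit 145288) (.g (nat_lit 1557) (.e (nat_lit 57372) (nat_lit 2) (.e (nat_lit 90158) (nat_lit 11) (.e (nat_lit 24630) (nat_lit 9) (.e (nat_lit 336379) (nat_lit 27) (.e (nat_lit 426524) (nat_lit 27) .nil))))) .nil)) 
(.lf (nat_lit 145352) (.g (nat_lit 3919) (.e (nat_lit 57372) (nat_lit 2) (.e (nat_lit 90160) (nat_lit 11) (.e (nat_lit 24655) (nat_lit 13) (.e (nat_lit 393229) (nat_lit 9) (.e (nat_lit 335995) (nat_lit 1) (.e (nat_lit 57847) (nat_lit 252) .nil)))))) (.g (nat_lit 0) .nil .nil)))) (.nd (nat_lit 6) 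
(.lf (nat_lit 145320) (.g (nat_lit 4412) (.e (nat_lit 57372) (nat_lit 2) (.e (nat_lit 90160) (nat_lit 11) (.e (nat_lit 24607) (nat_lit 3) (.e (nat_lit 98342) (nat_lit 20) (.e (nat_lit 221212) (nat_lit 22) (.e (nat_lit 196660) (nat_lit 12) (.e (nat_lit 57354) (nat_lit 0) (.e (nat_lit 5194) (nat_lit 294) .nil)))))))) (.g (nat_lit 5) .nil .nil))) 
(.lf (nat_lit 145384) (.g (nat_lit 2930) (.e (nat_lit 57372) (nat_lit 2) (.e (nat_lit 90167) (nat_lit 13) (.e (nat_lit 172067) (nat_lit 3) (.e (nat_lit 204837) (nat_lit 20) (.e (nat_lit 114719) (nat_lit 23) (.e (nat_lit 98334) (nat_lit 18) (.e (nat_lit 164400) (nat_lit 256) .nil))))))) (.g (nat_lit 4) .nil .nil))))) (.nd (nat_lit 5) (.nd (nat_lit 6) 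
(.lf (nat_lit 145304) (.g (nat_lit 1256) (.e (nat_lit 57372) (nat_lit 2) (.e (nat_lit 90158) (nat_lit 11) (.e (nat_lit 24658) (nat_lit 13) (.e (nat_lit 393227) (nat_lit 9) (.e (nat_lit 335959) (nat_lit 0) .nil))))) .nil)) 
(.lf (nat_lit 145368) (.g (nat_lit 2074) (.e (nat_lit 57372) (nat_lit 2) (.e (nat_lit 90167) (nat_lit 13) (.e (nat_lit 172065) (nat_lit 3) (.e (nat_lit 204837) (nat_lit 20) (.e (nat_lit 114719) (nat_lit 23) (.e (nat_lit 98333) (nat_lit 18) (.e (nat_lit 164399) (nat_lit 256) .nil))))))) (.g (nat_lit 4) .nil .nil)))) (.nd (nat_lit 6) 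
(.lf (nat_lit 145336) (.g (nat_lit 1011) (.e (nat_lit 57372) (nat_lit 2) (.e (nat_lit 90160) (nat_lit 11) (.e (nat_lit 24617) (nat_lit 7) (.e (nat_lit 327424) (nat_lit 0) .nil)))) .nil)) 
(.lf (nat_lit 145400) (.g (nat_lit 2218) (.e (nat_lit 57372) (nat_lit 2) (.e (nat_lit 90169) (nat_lit 13) (.e (nat_lit 172065) (nat_lit 3) (.e (nat_lit 204838) (nat_lit 20) (.e (nat_lit 114718) (nat_lit 23) (.e (nat_lit 98334) (nat_lit 18) (.e (nat_lit 164399) (nat_lit 256) .nil))))))) (.g (nat_lit 4) .nil .nil))))))) (.nd (nat_lit 3) (.nd (nat_lit 4) (.nd (nat_lit 5) (.nd (nat_lit 6) 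
(.lf (nat_lit 145284) (.g (nat_lit 2090) (.e (nat_lit 57372) (nat_lit 2) (.e (nat_lit 90158) (nat_lit 11) (.e (nat_lit 24628) (nat_lit 9) (.e (nat_lit 336456) (nat_lit 34) (.e (nat_lit 483354) (nat_lit 17) .nil))))) .nil)) 
(.lf (nat_lit 145348) (.g (nat_lit 3693) (.e (nat_lit 57372) (nat_lit 2) (.e (nat_lit 90160) (nat_lit 11) (.e (nat_lit 24654) (nat_lit 13) (.e (nat_lit 393229) (nat_lit 9) (.e (nat_lit 335995) (nat_lit 1) (.e (nat_lit 57847) (nat_lit 252) .nil)))))) (.g (nat_lit 6) .nil .nil)))) (.nd (nat_lit 6) 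
(.lf (nat_lit 145316) (.g (nat_lit 707) (.e (nat_lit 57372) (nat_lit 2) (.e (nat_lit 90160) (nat_lit 11) (.e (nat_lit 24606) (nat_lit 3) .nil))) .nil)) 
(.lf (nat_lit 145380) (.g (nat_lit 2832) (.e (nat_lit 57372) (nat_lit 2) (.e (nat_lit 90167) (nat_lit 13) (.e (nat_lit 172067) (nat_lit 3) (.e (nat_lit 204837) (nat_lit 20) (.e (nat_lit 114718) (nat_lit 23) (.e (nat_lit 98333) (nat_lit 18) (.e (nat_lit 164400) (nat_lit 256) .nil))))))) (.g (nat_lit 4) .nil .nil))))) (.nd (nat_lit 5) (.nd (nat_lit 6) 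
(.lf (nat_lit 145300) (.g (nat_lit 1859) (.e (nat_lit 57372) (nat_lit 2) (.e (nat_lit 90158) (nat_lit 11) (.e (nat_lit 24656) (nat_lit 13) (.e (nat_lit 393229) (nat_lit 9) (.e (nat_lit 335985) (nat_lit 1) .nil))))) .nil)) 
(.lf (nat_lit 145364) (.g (nat_lit 3720) (.e (nat_lit 57372) (nat_lit 2) (.e (nat_lit 90160) (nat_lit 11) (.e (nat_lit 24665) (nat_lit 14) (.e (nat_lit 401414) (nat_lit 0) (.e (nat_lit 3579) (nat_lit 223) (.e (nat_lit 745476) (nat_lit 0) (.e (nat_lit 1551) (nat_lit 109) (.e (nat_lit 344097) (nat_lit 18) (.e (nat_lit 5194) (nat_lit 294) .nil))))))))) (.g (nat_lit 4) .nil .nil)))) (.nd (nat_lit 6) 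
(.lf (nat_lit 145332) (.g (nat_lit 3379) (.e (nat_lit 57372) (nat_lit 2) (.e (nat_lit 90160) (nat_lit 11) (.e (nat_lit 24608) (nat_lit 3) (.e (nat_lit 98342) (nat_lit 20) (.e (nat_lit 221210) (nat_lit 22) (.e (nat_lit 196660) (nat_lit 12) (.e (nat_lit 57354) (nat_lit 0) (.e (nat_lit 5195) (nat_lit 294) .nil)))))))) (.g (nat_lit 4) .nil .nil))) 
(.lf (nat_lit 145396) (.g (nat_lit 3210) (.e (nat_lit 57372) (nat_lit 2) (.e (nat_lit 90168) (nat_lit 13) (.e (nat_lit 172067) (nat_lit 3) (.e (nat_lit 204837) (nat_lit 20) (.e (nat_lit 114718) (nat_lit 23) (.e (nat_lit 98333) (nat_lit 18) (.e (nat_lit 164399) (nat_lit 256) .nil))))))) (.g (nat_lit 5) .nil .nil)))))) (.nd (nat_lit 4) (.nd (nat_lit 5) (.nd (nat_lit 6) 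
(.lf (nat_lit 145292) (.g (nat_lit 2169) (.e (nat_lit 57372) (nat_lit 2) (.e (nat_lit 90158) (nat_lit 11) (.e (nat_lit 24655) (nat_lit 13) (.e (nat_lit 393228) (nat_lit 9) .nil)))) .nil)) 
(.lf (nat_lit 145356) (.g (nat_lit 3086) (.e (nat_lit 57372) (nat_lit 2) (.e (nat_lit 90160) (nat_lit 11) (.e (nat_lit 24658) (nat_lit 13) (.e (nat_lit 393229) (nat_lit 9) (.e (nat_lit 335994) (nat_lit 1) (.e (nat_lit 57847) (nat_lit 252) .nil)))))) (.g (nat_lit 0) .nil .nil)))) (.nd (nat_lit 6) 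
(.lf (nat_lit 145324) (.g (nat_lit 2547) (.e (nat_lit 57372) (nat_lit 2) (.e (nat_lit 90160) (nat_lit 11) (.e (nat_lit 24608) (nat_lit 3) (.e (nat_lit 98321) (nat_lit 17) (.e (nat_lit 3771) (nat_lit 229) .nil))))) .nil)) 
(.lf (nat_lit 145388) (.g (nat_lit 1881) (.e (nat_lit 57372) (nat_lit 2) (.e (nat_lit 90167) (nat_lit 13) (.e (nat_lit 172067) (nat_lit 3) (.e (nat_lit 204838) (nat_lit 20) (.e (nat_lit 114718) (nat_lit 23) .nil))))) .nil)))) (.nd (nat_lit 5) (.nd (nat_lit 6) 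
(.lf (nat_lit 145308) (.g (nat_lit 2879) (.e (nat_lit 57372) (nat_lit 2) (.e (nat_lit 90158) (nat_lit 11) (.e (nat_lit 24658) (nat_lit 13) (.e (nat_lit 393229) (nat_lit 9) (.e (nat_lit 335985) (nat_lit 1) (.e (nat_lit 57849) (nat_lit 252) .nil)))))) (.g (nat_lit 6) .nil .nil))) 
(.lf (nat_lit 145372) (.g (nat_lit 3570) (.e (nat_lit 57372) (nat_lit 2) (.e (nat_lit 90167) (nat_lit 13) (.e (nat_lit 172065) (nat_lit 3) (.e (nat_lit 204838) (nat_lit 20) (.e (nat_lit 114718) (nat_lit 23) (.e (nat_lit 98334) (nat_lit 18) (.e (nat_lit 164399) (nat_lit 256) .nil))))))) (.g (nat_lit 6) .nil .nil)))) (.nd (nat_lit 6) 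
(.lf (nat_lit 145340) (.g (nat_lit 3125) (.e (nat_lit 57372) (nat_lit 2) (.e (nat_lit 90160) (nat_lit 11) (.e (nat_lit 24625) (nat_lit 9) (.e (nat_lit 336454) (nat_lit 34) (.e (nat_lit 483366) (nat_lit 18) (.e (nat_lit 57847) (nat_lit 252) .nil)))))) (.g (nat_lit 0) .nil .nil))) 
(.lf (nat_lit 145404) (.g (nat_lit 2599) (.e (nat_lit 57372) (nat_lit 2) (.e (nat_lit 90170) (nat_lit 13) (.e (nat_lit 172067) (nat_lit 3) (.e (nat_lit 204837) (nat_lit 20) (.e (nat_lit 114708) (nat_lit 20) .nil))))) .nil))))))) (.nd (nat_lit 2) (.nd (nat_lit 3) (.nd (nat_lit 4) (.nd (nat_lit 5) (.nd (nat_lit 6) 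
(.lf (nat_lit 145282) (.g (nat_lit 1513) (.e (nat_lit 57372) (nat_lit 2) (.e (nat_lit 90158) (nat_lit 11) (.e (nat_lit 24628) (nat_lit 9) (.e (nat_lit 336377) (nat_lit 27) .nil)))) .nil)) 
(.lf (nat_lit 145346) (.g (nat_lit 911) (.e (nat_lit 57372) (nat_lit 2) (.e (nat_lit 90160) (nat_lit 11) (.e (nat_lit 24651) (nat_lit 12) .nil))) .nil))) (.nd (nat_lit 6) 
(.lf (nat_lit 145314) (.g (nat_lit 5593) (.e (nat_lit 57372) (nat_lit 2) (.e (nat_lit 90160) (nat_lit 11) (.e (nat_lit 24576) (nat_lit 0) (.e (nat_lit 1858) (nat_lit 124) (.e (nat_lit 557105) (nat_lit 14) (.e (nat_lit 180252) (nat_lit 10) (.e (nat_lit 573474) (nat_lit 12) (.e (nat_lit 57354) (nat_lit 0) (.e (nat_lit 5194) (nat_lit 294) .nil))))))))) (.g (nat_lit 6) .nil .nil))) 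
(.lf (nat_lit 145378) (.g (nat_lit 2627) (.e (nat_lit 57372) (nat_lit 2) (.e (nat_lit 90167) (nat_lit 13) (.e (nat_lit 172067) (nat_lit 3) (.e (nat_lit 204837) (nat_lit 20) (.e (nat_lit 114706) (nat_lit 20) (.e (nat_lit 1796) (nat_lit 119) (.e (nat_lit 516115) (nat_lit 1) (.e (nat_lit 164399) (nat_lit 256) .nil)))))))) (.g (nat_lit 4) .nil .nil))))) (.nd (nat_lit 5) (.nd (nat_lit 6) 
(.lf (nat_lit 145298) (.g (nat_lit 3134) (.e (nat_lit 57372) (nat_lit 2) (.e (nat_lit 90158) (nat_lit 11) (.e (nat_lit 24655) (nat_lit 13) (.e (nat_lit 393229) (nat_lit 9) (.e (nat_lit 335985) (nat_lit 1) (.e (nat_lit 57849) (nat_lit 252) .nil)))))) (.g (nat_lit 6) .nil .nil))) 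
(.lf (nat_lit 145362) (.g (nat_lit 4018) (.e (nat_lit 57372) (nat_lit 2) (.e (nat_lit 90160) (nat_lit 11) (.e (nat_lit 24665) (nat_lit 14) (.e (nat_lit 401414) (nat_lit 0) (.e (nat_lit 3579) (nat_lit 223) (.e (nat_lit 745476) (nat_lit 0) (.e (nat_lit 1535) (nat_lit 109) (.e (nat_lit 344097) (nat_lit 18) (.e (nat_lit 5194) (nat_lit 294) .nil))))))))) (.g (nat_lit 4) .nil .nil)))) (.nd (nat_lit 6) 
(.lf (nat_lit 145330) (.g (nat_lit 1548) (.e (nat_lit 57372) (nat_lit 2) (.e (nat_lit 90160) (nat_lit 11) (.e (nat_lit 24608) (nat_lit 3) (.e (nat_lit 98342) (nat_lit 20) .nil)))) .nil)) 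
(.lf (nat_lit 145394) (.g (nat_lit 1786) (.e (nat_lit 57372) (nat_lit 2) (.e (nat_lit 90167) (nat_lit 13) (.e (nat_lit 172126) (nat_lit 14) (.e (nat_lit 491540) (nat_lit 3) (.e (nat_lit 98386) (nat_lit 32) .nil))))) .nil))))) (.nd (nat_lit 4) (.nd (nat_lit 5) (.nd (nat_lit 6) 
(.lf (nat_lit 145290) (.g (nat_lit 2449) (.e (nat_lit 57372) (nat_lit 2) (.e (nat_lit 90158) (nat_lit 11) (.e (nat_lit 24655) (nat_lit 13) (.e (nat_lit 393225) (nat_lit 9) (.e (nat_lit 335985) (nat_lit 1) .nil))))) .nil)) 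
(.lf (nat_lit 145354) (.g (nat_lit 1147) (.e (nat_lit 57372) (nat_lit 2) (.e (nat_lit 90160) (nat_lit 11) (.e (nat_lit 24658) (nat_lit 13) (.e (nat_lit 393228) (nat_lit 9) .nil)))) .nil))) (.nd (nat_lit 6) 
(.lf (nat_lit 145322) (.g (nat_lit 3187) (.e (nat_lit 57372) (nat_lit 2) (.e (nat_lit 90160) (nat_lit 11) (.e (nat_lit 24607) (nat_lit 3) (.e (nat_lit 98342) (nat_lit 20) (.e (nat_lit 221214) (nat_lit 23) (.e (nat_lit 204829) (nat_lit 18) (.e (nat_lit 57847) (nat_lit 252) .nil))))))) (.g (nat_lit 4) .nil .nil))) 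
(.lf (nat_lit 145386) (.g (nat_lit 2979) (.e (nat_lit 57372) (nat_lit 2) (.e (nat_lit 90167) (nat_lit 13) (.e (nat_lit 172067) (nat_lit 3) (.e (nat_lit 204838) (nat_lit 20) (.e (nat_lit 114708) (nat_lit 20) (.e (nat_lit 1800) (nat_lit 119) (.e (nat_lit 516117) (nat_lit 1) (.e (nat_lit 164400) (nat_lit 256) .nil)))))))) (.g (nat_lit 4) .nil .nil))))) (.nd (nat_lit 5) (.nd (nat_lit 6) 
(.lf (nat_lit 145306) (.g (nat_lit 2257) (.e (nat_lit 57372) (nat_lit 2) (.e (nat_lit 90158) (nat_lit 11) (.e (nat_lit 24658) (nat_lit 13) (.e (nat_lit 393229) (nat_lit 9) (.e (nat_lit 335886) (nat_lit 0) (.e (nat_lit 1023) (nat_lit 81) (.e (nat_lit 5195) (nat_lit 294) .nil))))))) (.g (nat_lit 4) .nil .nil))) 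
(.lf (nat_lit 145370) (.g (nat_lit 1802) (.e (nat_lit 57372) (nat_lit 2) (.e (nat_lit 90167) (nat_lit 13) (.e (nat_lit 172065) (nat_lit 3) (.e (nat_lit 204838) (nat_lit 20) (.e (nat_lit 114708) (nat_lit 20) .nil))))) .nil))) (.nd (nat_lit 6) 
(.lf (nat_lit 145338) (.g (nat_lit 3658) (.e (nat_lit 57372) (nat_lit 2) (.e (nat_lit 90160) (nat_lit 11) (.e (nat_lit 24625) (nat_lit 9) (.e (nat_lit 336454) (nat_lit 34) (.e (nat_lit 483363) (nat_lit 18) (.e (nat_lit 57847) (nat_lit 252) .nil)))))) (.g (nat_lit 0) .nil .nil))) 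
(.lf (nat_lit 145402) (.g (nat_lit 2147) (.e (nat_lit 57372) (nat_lit 2) (.e (nat_lit 90169) (nat_lit 13) (.e (nat_lit 172133) (nat_lit 15) (.e (nat_lit 2175) (nat_lit 143) (.e (nat_lit 712745) (nat_lit 27) (.e (nat_lit 426532) (nat_lit 28) (.e (nat_lit 344094) (nat_lit 18) (.e (nat_lit 5570) (nat_lit 308) .nil)))))))) (.g (nat_lit 4) .nil .nil))))))) 
(.nd (nat_lit 3) (.nd (nat_lit 4) (.nd (nat_lit 5) (.nd (nat_lit 6) 
(.lf (nat_lit 145286) (.g (nat_lit 2603) (.e (nat_lit 57372) (nat_lit 2) (.e (nat_lit 90158) (nat_lit 11) (.e (nat_lit 24630) (nat_lit 9) (.e (nat_lit 336369) (nat_lit 27) (.e (nat_lit 426501) (nat_lit 27) (.e (nat_lit 335985) (nat_lit 1) (.e (nat_lit 57849) (nat_lit 252) .nil))))))) (.g (nat_lit 4) .nil .nil))) 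
(.lf (nat_lit 145350) (.g (nat_lit 3619) (.e (nat_lit 57372) (nat_lit 2) (.e (nat_lit 90160) (nat_lit 11) (.e (nat_lit 24655) (nat_lit 13) (.e (nat_lit 393229) (nat_lit 9) (.e (nat_lit 335986) (nat_lit 1) (.e (nat_lit 57847) (nat_lit 252) .nil)))))) (.g (nat_lit 0) .nil .nil)))) (.nd (nat_lit 6) 
(.lf (nat_lit 145318) (.g (nat_lit 1748) (.e (nat_lit 57372) (nat_lit 2) (.e (nat_lit 90160) (nat_lit 11) (.e (nat_lit 24607) (nat_lit 3) (.e (nat_lit 98342) (nat_lit 20) .nil)))) .nil)) 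
(.lf (nat_lit 145382) (.g (nat_lit 3085) (.e (nat_lit 57372) (nat_lit 2) (.e (nat_lit 90167) (nat_lit 13) (.e (nat_lit 172067) (nat_lit 3) (.e (nat_lit 204837) (nat_lit 20) (.e (nat_lit 114719) (nat_lit 23) (.e (nat_lit 98333) (nat_lit 18) (.e (nat_lit 164398) (nat_lit 256) .nil))))))) (.g (nat_lit 5) .nil .nil))))) (.nd (nat_lit 5) (.nd (nat_lit 6) 
(.lf (nat_lit 145302) (.g (nat_lit 986) (.e (nat_lit 57372) (nat_lit 2) (.e (nat_lit 90158) (nat_lit 11) (.e (nat_lit 24657) (nat_lit 13) (.e (nat_lit 401152) (nat_lit 10) .nil)))) .nil)) 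
(.lf (nat_lit 145366) (.g (nat_lit 2215) (.e (nat_lit 57372) (nat_lit 2) (.e (nat_lit 90160) (nat_lit 11) (.e (nat_lit 24665) (nat_lit 14) (.e (nat_lit 401468) (nat_lit 27) (.e (nat_lit 336457) (nat_lit 35) .nil))))) .nil))) (.nd (nat_lit 6) 
(.lf (nat_lit 145334) (.g (nat_lit 3279) (.e (nat_lit 57372) (nat_lit 2) (.e (nat_lit 90160) (nat_lit 11) (.e (nat_lit 24608) (nat_lit 3) (.e (nat_lit 98342) (nat_lit 20) (.e (nat_lit 221215) (nat_lit 23) (.e (nat_lit 204821) (nat_lit 17) (.e (nat_lit 1040) (nat_lit 81) (.e (nat_lit 5195) (nat_lit 294) .nil)))))))) (.g (nat_lit 4) .nil .nil))) 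
(.lf (nat_lit 145398) (.g (nat_lit 2783) (.e (nat_lit 57372) (nat_lit 2) (.e (nat_lit 90168) (nat_lit 13) (.e (nat_lit 172067) (nat_lit 3) (.e (nat_lit 204838) (nat_lit 20) (.e (nat_lit 114717) (nat_lit 23) (.e (nat_lit 98333) (nat_lit 18) (.e (nat_lit 164399) (nat_lit 256) .nil))))))) (.g (nat_lit 5) .nil .nil)))))) (.nd (nat_lit 4) (.nd (nat_lit 5) (.nd (nat_lit 6) 
(.lf (nat_lit 145294) (.g (nat_lit 1075) (.e (nat_lit 57372) (nat_lit 2) (.e (nat_lit 90158) (nat_lit 11) (.e (nat_lit 24655) (nat_lit 13) (.e (nat_lit 393229) (nat_lit 9) .nil)))) .nil)) 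
(.lf (nat_lit 145358) (.g (nat_lit 1215) (.e (nat_lit 57372) (nat_lit 2) (.e (nat_lit 90160) (nat_lit 11) (.e (nat_lit 24658) (nat_lit 13) (.e (nat_lit 401152) (nat_lit 10) .nil)))) .nil))) (.nd (nat_lit 6) 
(.lf (nat_lit 145326) (.g (nat_lit 1811) (.e (nat_lit 57372) (nat_lit 2) (.e (nat_lit 90160) (nat_lit 11) (.e (nat_lit 24608) (nat_lit 3) (.e (nat_lit 98338) (nat_lit 19) .nil)))) .nil)) 
(.lf (nat_lit 145390) (.g (nat_lit 2246) (.e (nat_lit 57372) (nat_lit 2) (.e (nat_lit 90167) (nat_lit 13) (.e (nat_lit 172067) (nat_lit 3) (.e (nat_lit 204838) (nat_lit 20) (.e (nat_lit 114719) (nat_lit 23) (.e (nat_lit 98332) (nat_lit 18) (.e (nat_lit 164398) (nat_lit 256) .nil))))))) (.g (nat_lit 4) .nil .nil))))) (.nd (nat_lit 5) (.nd (nat_lit 6) 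
(.lf (nat_lit 145310) (.g (nat_lit 975) (.e (nat_lit 57372) (nat_lit 2) (.e (nat_lit 90158) (nat_lit 11) (.e (nat_lit 24658) (nat_lit 13) (.e (nat_lit 401152) (nat_lit 10) .nil)))) .nil)) 
(.lf (nat_lit 145374) (.g (nat_lit 1894) (.e (nat_lit 57372) (nat_lit 2) (.e (nat_lit 90167) (nat_lit 13) (.e (nat_lit 172065) (nat_lit 3) (.e (nat_lit 204838) (nat_lit 20) (.e (nat_lit 114719) (nat_lit 23) (.e (nat_lit 98332) (nat_lit 18) (.e (nat_lit 164399) (nat_lit 256) .nil))))))) (.g (nat_lit 4) .nil .nil)))) (.nd (nat_lit 6) 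
(.lf (nat_lit 145342) (.g (nat_lit 4121) (.e (nat_lit 57372) (nat_lit 2) (.e (nat_lit 90160) (nat_lit 11) (.e (nat_lit 24627) (nat_lit 9) (.e (nat_lit 336454) (nat_lit 34) (.e (nat_lit 483365) (nat_lit 18) (.e (nat_lit 57849) (nat_lit 252) .nil)))))) (.g (nat_lit 0) .nil .nil))) 
(.lf (nat_lit 145406) (.g (nat_lit 1036) (.e (nat_lit 57372) (nat_lit 2) (.e (nat_lit 90170) (nat_lit 13) (.e (nat_lit 172106) (nat_lit 10) .nil))) .nil)))))))) (.nd (nat_lit 1) (.nd (nat_lit 2) (.nd (nat_lit 3) (.nd (nat_lit 4) (.nd (nat_lit 5) (.nd (nat_lit 6) 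
(.lf (nat_lit 145281) (.g (nat_lit 1508) (.e (nat_lit 57372) (nat_lit 2) (.e (nat_lit 90158) (nat_lit 11) (.e (nat_lit 24628) (nat_lit 9) (.e (nat_lit 336375) (nat_lit 27) .nil)))) .nil)) 
(.lf (nat_lit 145345) (.g (nat_lit 825) (.e (nat_lit 57372) (nat_lit 2) (.e (nat_lit 90160) (nat_lit 11) (.e (nat_lit 24650) (nat_lit 12) .nil))) .nil))) (.nd (nat_lit 6) 
(.lf (nat_lit 145313) (.g (nat_lit 2227) (.e (nat_lit 57372) (nat_lit 2) (.e (nat_lit 90159) (nat_lit 11) (.e (nat_lit 24656) (nat_lit 13) (.e (nat_lit 393229) (nat_lit 9) (.e (nat_lit 335994) (nat_lit 1) (.e (nat_lit 57848) (nat_lit 252) .nil)))))) (.g (nat_lit 5) .nil .nil))) 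
(.lf (nat_lit 145377) (.g (nat_lit 2581) (.e (nat_lit 57372) (nat_lit 2) (.e (nat_lit 90167) (nat_lit 13) (.e (nat_lit 172067) (nat_lit 3) (.e (nat_lit 204837) (nat_lit 20) (.e (nat_lit 114703) (nat_lit 20) (.e (nat_lit 1799) (nat_lit 119) (.e (nat_lit 516115) (nat_lit 1) (.e (nat_lit 164399) (nat_lit 256) .nil)))))))) (.g (nat_lit 4) .nil .nil))))) (.nd (nat_lit 5) (.nd (nat_lit 6) 
(.lf (nat_lit 145297) (.g (nat_lit 2608) (.e (nat_lit 57372) (nat_lit 2) (.e (nat_lit 90158) (nat_lit 11) (.e (nat_lit 24655) (nat_lit 13) (.e (nat_lit 393229) (nat_lit 9) (.e (nat_lit 335917) (nat_lit 0) .nil))))) .nil)) 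
(.lf (nat_lit 145361) (.g (nat_lit 3867) (.e (nat_lit 57372) (nat_lit 2) (.e (nat_lit 90160) (nat_lit 11) (.e (nat_lit 24665) (nat_lit 14) (.e (nat_lit 401414) (nat_lit 0) (.e (nat_lit 3579) (nat_lit 223) (.e (nat_lit 745475) (nat_lit 0) (.e (nat_lit 1535) (nat_lit 109) (.e (nat_lit 344097) (nat_lit 18) (.e (nat_lit 5195) (nat_lit 294) .nil))))))))) (.g (nat_lit 4) .nil .nil)))) (.nd (nat_lit 6) 
(.lf (nat_lit 145329) (.g (nat_lit 3380) (.e (nat_lit 57372) (nat_lit 2) (.e (nat_lit 90160) (nat_lit 11) (.e (nat_lit 24608) (nat_lit 3) (.e (nat_lit 98341) (nat_lit 20) (.e (nat_lit 221212) (nat_lit 22) (.e (nat_lit 196660) (nat_lit 12) (.e (nat_lit 57354) (nat_lit 0) (.e (nat_lit 5194) (nat_lit 294) .nil)))))))) (.g (nat_lit 4) .nil .nil))) 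
(.lf (nat_lit 145393) (.g (nat_lit 1670) (.e (nat_lit 57372) (nat_lit 2) (.e (nat_lit 90167) (nat_lit 13) (.e (nat_lit 172087) (nat_lit 9) (.e (nat_lit 426568) (nat_lit 34) (.e (nat_lit 393251) (nat_lit 18) (.e (nat_lit 164399) (nat_lit 256) .nil)))))) (.g (nat_lit 4) .nil .nil)))))) (.nd (nat_lit 4) (.nd (nat_lit 5) (.nd (nat_lit 6) 
(.lf (nat_lit 145289) (.g (nat_lit 2169) (.e (nat_lit 57372) (nat_lit 2) (.e (nat_lit 90158) (nat_lit 11) (.e (nat_lit 24655) (nat_lit 13) (.e (nat_lit 393224) (nat_lit 9) .nil)))) .nil)) 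
(.lf (nat_lit 145353) (.g (nat_lit 1875) (.e (nat_lit 57372) (nat_lit 2) (.e (nat_lit 90160) (nat_lit 11) (.e (nat_lit 24657) (nat_lit 13) (.e (nat_lit 393226) (nat_lit 9) (.e (nat_lit 335998) (nat_lit 1) .nil))))) .nil))) (.nd (nat_lit 6) 
(.lf (nat_lit 145321) (.g (nat_lit 3659) (.e (nat_lit 57372) (nat_lit 2) (.e (nat_lit 90160) (nat_lit 11) (.e (nat_lit 24607) (nat_lit 3) (.e (nat_lit 98342) (nat_lit 20) (.e (nat_lit 221212) (nat_lit 22) (.e (nat_lit 196660) (nat_lit 12) (.e (nat_lit 57354) (nat_lit 0) (.e (nat_lit 5195) (nat_lit 294) .nil)))))))) (.g (nat_lit 4) .nil .nil))) 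
(.lf (nat_lit 145385) (.g (nat_lit 1955) (.e (nat_lit 57372) (nat_lit 2) (.e (nat_lit 90167) (nat_lit 13) (.e (nat_lit 172067) (nat_lit 3) (.e (nat_lit 204838) (nat_lit 20) (.e (nat_lit 114699) (nat_lit 20) .nil))))) .nil)))) (.nd (nat_lit 5) (.nd (nat_lit 6) 
(.lf (nat_lit 145305) (.g (nat_lit 1023) (.e (nat_lit 57372) (nat_lit 2) (.e (nat_lit 90158) (nat_lit 11) (.e (nat_lit 24658) (nat_lit 13) (.e (nat_lit 393229) (nat_lit 9) .nil)))) .nil)) 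
(.lf (nat_lit 145369) (.g (nat_lit 2216) (.e (nat_lit 57372) (nat_lit 2) (.e (nat_lit 90167) (nat_lit 13) (.e (nat_lit 172065) (nat_lit 3) (.e (nat_lit 204837) (nat_lit 20) (.e (nat_lit 114719) (nat_lit 23) (.e (nat_lit 98334) (nat_lit 18) (.e (nat_lit 164399) (nat_lit 256) .nil))))))) (.g (nat_lit 4) .nil .nil)))) (.nd (nat_lit 6) 
(.lf (nat_lit 145337) (.g (nat_lit 2261) (.e (nat_lit 57372) (nat_lit 2) (.e (nat_lit 90160) (nat_lit 11) (.e (nat_lit 24624) (nat_lit 9) (.e (nat_lit 336454) (nat_lit 34) (.e (nat_lit 483366) (nat_lit 18) .nil))))) .nil)) 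
(.lf (nat_lit 145401) (.g (nat_lit 1903) (.e (nat_lit 57372) (nat_lit 2) (.e (nat_lit 90169) (nat_lit 13) (.e (nat_lit 172065) (nat_lit 3) (.e (nat_lit 204838) (nat_lit 20) (.e (nat_lit 114719) (nat_lit 23) (.e (nat_lit 98333) (nat_lit 18) (.e (nat_lit 164399) (nat_lit 256) .nil))))))) (.g (nat_lit 4) .nil .nil))))))) (.nd (nat_lit 3) (.nd (nat_lit 4) (.nd (nat_lit 5) (.nd (nat_lit 6) 
(.lf (nat_lit 145285) (.g (nat_lit 1992) (.e (nat_lit 57372) (nat_lit 2) (.e (nat_lit 90158) (nat_lit 11) (.e (nat_lit 24630) (nat_lit 9) (.e (nat_lit 336367) (nat_lit 27) (.e (nat_lit 426537) (nat_lit 28) (.e (nat_lit 344097) (nat_lit 18) (.e (nat_lit 5195) (nat_lit 294) .nil))))))) (.g (nat_lit 4) .nil .nil))) 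
(.lf (nat_lit 145349) (.g (nat_lit 1685) (.e (nat_lit 57372) (nat_lit 2) (.e (nat_lit 90160) (nat_lit 11) (.e (nat_lit 24655) (nat_lit 13) (.e (nat_lit 393224) (nat_lit 9) .nil)))) .nil))) (.nd (nat_lit 6) 
(.lf (nat_lit 145317) (.g (nat_lit 2516) (.e (nat_lit 57372) (nat_lit 2) (.e (nat_lit 90160) (nat_lit 11) (.e (nat_lit 24607) (nat_lit 3) (.e (nat_lit 98341) (nat_lit 20) (.e (nat_lit 221215) (nat_lit 23) .nil))))) .nil)) 
(.lf (nat_lit 145381) (.g (nat_lit 3377) (.e (nat_lit 57372) (nat_lit 2) (.e (nat_lit 90167) (nat_lit 13) (.e (nat_lit 172067) (nat_lit 3) (.e (nat_lit 204837) (nat_lit 20) (.e (nat_lit 114718) (nat_lit 23) (.e (nat_lit 98334) (nat_lit 18) (.e (nat_lit 164400) (nat_lit 256) .nil))))))) (.g (nat_lit 5) .nil .nil))))) (.nd (nat_lit 5) (.nd (nat_lit 6) 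
(.lf (nat_lit 145301) (.g (nat_lit 1862) (.e (nat_lit 57372) (nat_lit 2) (.e (nat_lit 90158) (nat_lit 11) (.e (nat_lit 24656) (nat_lit 13) (.e (nat_lit 393229) (nat_lit 9) (.e (nat_lit 335993) (nat_lit 1) .nil))))) .nil)) 
(.lf (nat_lit 145365) (.g (nat_lit 4036) (.e (nat_lit 57372) (nat_lit 2) (.e (nat_lit 90160) (nat_lit 11) (.e (nat_lit 24665) (nat_lit 14) (.e (nat_lit 401414) (nat_lit 0) (.e (nat_lit 3579) (nat_lit 223) (.e (nat_lit 745476) (nat_lit 0) (.e (nat_lit 1551) (nat_lit 109) (.e (nat_lit 344097) (nat_lit 18) (.e (nat_lit 5195) (nat_lit 294) .nil))))))))) (.g (nat_lit 4) .nil .nil)))) (.nd (nat_lit 6) 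
(.lf (nat_lit 145333) (.g (nat_lit 3838) (.e (nat_lit 57372) (nat_lit 2) (.e (nat_lit 90160) (nat_lit 11) (.e (nat_lit 24608) (nat_lit 3) (.e (nat_lit 98342) (nat_lit 20) (.e (nat_lit 221212) (nat_lit 22) (.e (nat_lit 196660) (nat_lit 12) (.e (nat_lit 57354) (nat_lit 0) (.e (nat_lit 5195) (nat_lit 294) .nil)))))))) (.g (nat_lit 5) .nil .nil))) 
(.lf (nat_lit 145397) (.g (nat_lit 3296) (.e (nat_lit 57372) (nat_lit 2) (.e (nat_lit 90168) (nat_lit 13) (.e (nat_lit 172067) (nat_lit 3) (.e (nat_lit 204837) (nat_lit 20) (.e (nat_lit 114718) (nat_lit 23) (.e (nat_lit 98334) (nat_lit 18) (.e (nat_lit 164399) (nat_lit 256) .nil))))))) (.g (nat_lit 5) .nil .nil)))))) (.nd (nat_lit 4) (.nd (nat_lit 5) (.nd (nat_lit 6) 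
(.lf (nat_lit 145293) (.g (nat_lit 2464) (.e (nat_lit 57372) (nat_lit 2) (.e (nat_lit 90158) (nat_lit 11) (.e (nat_lit 24655) (nat_lit 13) (.e (nat_lit 393228) (nat_lit 9) (.e (nat_lit 335986) (nat_lit 1) .nil))))) .nil)) 
(.lf (nat_lit 145357) (.g (nat_lit 3677) (.e (nat_lit 57372) (nat_lit 2) (.e (nat_lit 90160) (nat_lit 11) (.e (nat_lit 24658) (nat_lit 13) (.e (nat_lit 393229) (nat_lit 9) (.e (nat_lit 335995) (nat_lit 1) (.e (nat_lit 57847) (nat_lit 252) .nil)))))) (.g (nat_lit 0) .nil .nil)))) (.nd (nat_lit 6) 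
(.lf (nat_lit 145325) (.g (nat_lit 1734) (.e (nat_lit 57372) (nat_lit 2) (.e (nat_lit 90160) (nat_lit 11) (.e (nat_lit 24608) (nat_lit 3) (.e (nat_lit 98337) (nat_lit 19) .nil)))) .nil)) 
(.lf (nat_lit 145389) (.g (nat_lit 2418) (.e (nat_lit 57372) (nat_lit 2) (.e (nat_lit 90167) (nat_lit 13) (.e (nat_lit 172067) (nat_lit 3) (.e (nat_lit 204838) (nat_lit 20) (.e (nat_lit 114718) (nat_lit 23) (.e (nat_lit 98334) (nat_lit 18) (.e (nat_lit 164396) (nat_lit 256) .nil))))))) (.g (nat_lit 4) .nil .nil))))) (.nd (nat_lit 5) (.nd (nat_lit 6) 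
(.lf (nat_lit 145309) (.g (nat_lit 3427) (.e (nat_lit 57372) (nat_lit 2) (.e (nat_lit 90158) (nat_lit 11) (.e (nat_lit 24658) (nat_lit 13) (.e (nat_lit 393229) (nat_lit 9) (.e (nat_lit 335986) (nat_lit 1) (.e (nat_lit 57849) (nat_lit 252) .nil)))))) (.g (nat_lit 0) .nil .nil))) 
(.lf (nat_lit 145373) (.g (nat_lit 2515) (.e (nat_lit 57372) (nat_lit 2) (.e (nat_lit 90167) (nat_lit 13) (.e (nat_lit 172065) (nat_lit 3) (.e (nat_lit 204838) (nat_lit 20) (.e (nat_lit 114718) (nat_lit 23) (.e (nat_lit 98334) (nat_lit 18) (.e (nat_lit 164400) (nat_lit 256) .nil))))))) (.g (nat_lit 4) .nil .nil)))) (.nd (nat_lit 6) 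
(.lf (nat_lit 145341) (.g (nat_lit 3546) (.e (nat_lit 57372) (nat_lit 2) (.e (nat_lit 90160) (nat_lit 11) (.e (nat_lit 24625) (nat_lit 9) (.e (nat_lit 336456) (nat_lit 34) (.e (nat_lit 483365) (nat_lit 18) (.e (nat_lit 57847) (nat_lit 252) .nil)))))) (.g (nat_lit 0) .nil .nil))) 
(.lf (nat_lit 145405) (.g (nat_lit 2677) (.e (nat_lit 57372) (nat_lit 2) (.e (nat_lit 90170) (nat_lit 13) (.e (nat_lit 172067) (nat_lit 3) (.e (nat_lit 204838) (nat_lit 20) (.e (nat_lit 114718) (nat_lit 23) .nil))))) .nil))))))) (.nd (nat_lit 2) (.nd (nat_lit 3) (.nd (nat_lit 4) (.nd (nat_lit 5) (.nd (nat_lit 6) 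
(.lf (nat_lit 145283) (.g (nat_lit 1607) (.e (nat_lit 57372) (nat_lit 2) (.e (nat_lit 90158) (nat_lit 11) (.e (nat_lit 24628) (nat_lit 9) (.e (nat_lit 336393) (nat_lit 27) .nil)))) .nil)) 
(.lf (nat_lit 145347) (.g (nat_lit 1953) (.e (nat_lit 57372) (nat_lit 2) (.e (nat_lit 90160) (nat_lit 11) (.e (nat_lit 24654) (nat_lit 13) (.e (nat_lit 393229) (nat_lit 9) (.e (nat_lit 335994) (nat_lit 1) .nil))))) .nil))) (.nd (nat_lit 6) 
(.lf (nat_lit 145315) (.g (nat_lit 911) (.e (nat_lit 57372) (nat_lit 2) (.e (nat_lit 90160) (nat_lit 11) (.e (nat_lit 24589) (nat_lit 0) .nil))) .nil)) 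
(.lf (nat_lit 145379) (.g (nat_lit 1969) (.e (nat_lit 57372) (nat_lit 2) (.e (nat_lit 90167) (nat_lit 13) (.e (nat_lit 172067) (nat_lit 3) (.e (nat_lit 204837) (nat_lit 20) (.e (nat_lit 114708) (nat_lit 20) .nil))))) .nil)))) (.nd (nat_lit 5) (.nd (nat_lit 6) 
(.lf (nat_lit 145299) (.g (nat_lit 1207) (.e (nat_lit 57372) (nat_lit 2) (.e (nat_lit 90158) (nat_lit 11) (.e (nat_lit 24655) (nat_lit 13) (.e (nat_lit 401152) (nat_lit 10) .nil)))) .nil)) 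
(.lf (nat_lit 145363) (.g (nat_lit 4334) (.e (nat_lit 57372) (nat_lit 2) (.e (nat_lit 90160) (nat_lit 11) (.e (nat_lit 24665) (nat_lit 14) (.e (nat_lit 401414) (nat_lit 0) (.e (nat_lit 3579) (nat_lit 223) (.e (nat_lit 745476) (nat_lit 0) (.e (nat_lit 1535) (nat_lit 109) (.e (nat_lit 344097) (nat_lit 18) (.e (nat_lit 5195) (nat_lit 294) .nil))))))))) (.g (nat_lit 4) .nil .nil)))) (.nd (nat_lit 6) 
(.lf (nat_lit 145331) (.g (nat_lit 4121) (.e (nat_lit 57372) (nat_lit 2) (.e (nat_lit 90160) (nat_lit 11) (.e (nat_lit 24608) (nat_lit 3) (.e (nat_lit 98342) (nat_lit 20) (.e (nat_lit 221210) (nat_lit 22) (.e (nat_lit 196660) (nat_lit 12) (.e (nat_lit 57354) (nat_lit 0) (.e (nat_lit 5194) (nat_lit 294) .nil)))))))) (.g (nat_lit 5) .nil .nil))) 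
(.lf (nat_lit 145395) (.g (nat_lit 2601) (.e (nat_lit 57372) (nat_lit 2) (.e (nat_lit 90168) (nat_lit 13) (.e (nat_lit 172067) (nat_lit 3) (.e (nat_lit 204837) (nat_lit 20) (.e (nat_lit 114717) (nat_lit 23) (.e (nat_lit 98333) (nat_lit 18) (.e (nat_lit 164399) (nat_lit 256) .nil))))))) (.g (nat_lit 4) .nil .nil)))))) (.nd (nat_lit 4) (.nd (nat_lit 5) (.nd (nat_lit 6) 
(.lf (nat_lit 145291) (.g (nat_lit 3249) (.e (nat_lit 57372) (nat_lit 2) (.e (nat_lit 90158) (nat_lit 11) (.e (nat_lit 24655) (nat_lit 13) (.e (nat_lit 393225) (nat_lit 9) (.e (nat_lit 335986) (nat_lit 1) (.e (nat_lit 57849) (nat_lit 252) .nil)))))) (.g (nat_lit 5) .nil .nil))) 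
(.lf (nat_lit 145355) (.g (nat_lit 3362) (.e (nat_lit 57372) (nat_lit 2) (.e (nat_lit 90160) (nat_lit 11) (.e (nat_lit 24658) (nat_lit 13) (.e (nat_lit 393229) (nat_lit 9) (.e (nat_lit 335986) (nat_lit 1) (.e (nat_lit 57847) (nat_lit 252) .nil)))))) (.g (nat_lit 0) .nil .nil)))) (.nd (nat_lit 6) 
(.lf (nat_lit 145323) (.g (nat_lit 3228) (.e (nat_lit 57372) (nat_lit 2) (.e (nat_lit 90160) (nat_lit 11) (.e (nat_lit 24607) (nat_lit 3) (.e (nat_lit 98342) (nat_lit 20) (.e (nat_lit 221215) (nat_lit 23) (.e (nat_lit 204829) (nat_lit 18) (.e (nat_lit 57847) (nat_lit 252) .nil))))))) (.g (nat_lit 4) .nil .nil))) 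
(.lf (nat_lit 145387) (.g (nat_lit 3607) (.e (nat_lit 57372) (nat_lit 2) (.e (nat_lit 90167) (nat_lit 13) (.e (nat_lit 172067) (nat_lit 3) (.e (nat_lit 204838) (nat_lit 20) (.e (nat_lit 114717) (nat_lit 23) (.e (nat_lit 98334) (nat_lit 18) (.e (nat_lit 164399) (nat_lit 256) .nil))))))) (.g (nat_lit 6) .nil .nil))))) (.nd (nat_lit 5) (.nd (nat_lit 6) 
(.lf (nat_lit 145307) (.g (nat_lit 2025) (.e (nat_lit 57372) (nat_lit 2) (.e (nat_lit 90158) (nat_lit 11) (.e (nat_lit 24658) (nat_lit 13) (.e (nat_lit 393229) (nat_lit 9) (.e (nat_lit 335917) (nat_lit 0) .nil))))) .nil)) 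
(.lf (nat_lit 145371) (.g (nat_lit 3607) (.e (nat_lit 57372) (nat_lit 2) (.e (nat_lit 90167) (nat_lit 13) (.e (nat_lit 172065) (nat_lit 3) (.e (nat_lit 204838) (nat_lit 20) (.e (nat_lit 114718) (nat_lit 23) (.e (nat_lit 98333) (nat_lit 18) (.e (nat_lit 164399) (nat_lit 256) .nil))))))) (.g (nat_lit 6) .nil .nil)))) (.nd (nat_lit 6) 
(.lf (nat_lit 145339) (.g (nat_lit 3683) (.e (nat_lit 57372) (nat_lit 2) (.e (nat_lit 90160) (nat_lit 11) (.e (nat_lit 24625) (nat_lit 9) (.e (nat_lit 336454) (nat_lit 34) (.e (nat_lit 483365) (nat_lit 18) (.e (nat_lit 57847) (nat_lit 252) .nil)))))) (.g (nat_lit 0) .nil .nil))) 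
(.lf (nat_lit 145403) (.g (nat_lit 3109) (.e (nat_lit 57372) (nat_lit 2) (.e (nat_lit 90170) (nat_lit 13) (.e (nat_lit 172065) (nat_lit 3) (.e (nat_lit 204838) (nat_lit 20) (.e (nat_lit 114718) (nat_lit 23) (.e (nat_lit 98333) (nat_lit 18) (.e (nat_lit 164399) (nat_lit 256) .nil))))))) (.g (nat_lit 4) .nil .nil))))))) (.nd (nat_lit 3) (.nd (nat_lit 4) (.nd (nat_lit 5) (.nd (nat_lit 6) 
(.lf (nat_lit 145287) (.g (nat_lit 1236) (.e (nat_lit 57372) (nat_lit 2) (.e (nat_lit 90158) (nat_lit 11) (.e (nat_lit 24630) (nat_lit 9) (.e (nat_lit 336377) (nat_lit 27) .nil)))) .nil)) 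
(.lf (nat_lit 145351) (.g (nat_lit 3332) (.e (nat_lit 57372) (nat_lit 2) (.e (nat_lit 90160) (nat_lit 11) (.e (nat_lit 24655) (nat_lit 13) (.e (nat_lit 393229) (nat_lit 9) (.e (nat_lit 335994) (nat_lit 1) (.e (nat_lit 57847) (nat_lit 252) .nil)))))) (.g (nat_lit 0) .nil .nil)))) (.nd (nat_lit 6) 
(.lf (nat_lit 145319) (.g (nat_lit 3306) (.e (nat_lit 57372) (nat_lit 2) (.e (nat_lit 90160) (nat_lit 11) (.e (nat_lit 24607) (nat_lit 3) (.e (nat_lit 98342) (nat_lit 20) (.e (nat_lit 221212) (nat_lit 22) (.e (nat_lit 196659) (nat_lit 12) (.e (nat_lit 57354) (nat_lit 0) (.e (nat_lit 5194) (nat_lit 294) .nil)))))))) (.g (nat_lit 4) .nil .nil))) 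
(.lf (nat_lit 145383) (.g (nat_lit 2415) (.e (nat_lit 57372) (nat_lit 2) (.e (nat_lit 90167) (nat_lit 13) (.e (nat_lit 172067) (nat_lit 3) (.e (nat_lit 204837) (nat_lit 20) (.e (nat_lit 114719) (nat_lit 23) (.e (nat_lit 98333) (nat_lit 18) (.e (nat_lit 164400) (nat_lit 256) .nil))))))) (.g (nat_lit 4) .nil .nil))))) (.nd (nat_lit 5) (.nd (nat_lit 6) 
(.lf (nat_lit 145303) (.g (nat_lit 1434) (.e (nat_lit 57372) (nat_lit 2) (.e (nat_lit 90158) (nat_lit 11) (.e (nat_lit 24658) (nat_lit 13) (.e (nat_lit 393224) (nat_lit 9) .nil)))) .nil)) 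
(.lf (nat_lit 145367) (.g (nat_lit 1747) (.e (nat_lit 57372) (nat_lit 2) (.e (nat_lit 90167) (nat_lit 13) (.e (nat_lit 172065) (nat_lit 3) (.e (nat_lit 204837) (nat_lit 20) (.e (nat_lit 114717) (nat_lit 23) .nil))))) .nil))) (.nd (nat_lit 6) 
(.lf (nat_lit 145335) (.g (nat_lit 2426) (.e (nat_lit 57372) (nat_lit 2) (.e (nat_lit 90160) (nat_lit 11) (.e (nat_lit 24609) (nat_lit 3) (.e (nat_lit 98342) (nat_lit 20) (.e (nat_lit 221212) (nat_lit 22) .nil))))) .nil)) 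
(.lf (nat_lit 145399) (.g (nat_lit 2303) (.e (nat_lit 57372) (nat_lit 2) (.e (nat_lit 90169) (nat_lit 13) (.e (nat_lit 172065) (nat_lit 3) (.e (nat_lit 204838) (nat_lit 20) (.e (nat_lit 114718) (nat_lit 23) (.e (nat_lit 98333) (nat_lit 18) (.e (nat_lit 164399) (nat_lit 256) .nil))))))) (.g (nat_lit 4) .nil .nil)))))) (.nd (nat_lit 4) (.nd (nat_lit 5) (.nd (nat_lit 6) 
(.lf (nat_lit 145295) (.g (nat_lit 3065) (.e (nat_lit 57372) (nat_lit 2) (.e (nat_lit 90158) (nat_lit 11) (.e (nat_lit 24655) (nat_lit 13) (.e (nat_lit 393229) (nat_lit 9) (.e (nat_lit 335886) (nat_lit 0) (.e (nat_lit 1023) (nat_lit 81) (.e (nat_lit 5195) (nat_lit 294) .nil))))))) (.g (nat_lit 4) .nil .nil))) 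
(.lf (nat_lit 145359) (.g (nat_lit 1792) (.e (nat_lit 57372) (nat_lit 2) (.e (nat_lit 90160) (nat_lit 11) (.e (nat_lit 24660) (nat_lit 13) (.e (nat_lit 393229) (nat_lit 9) (.e (nat_lit 335994) (nat_lit 1) .nil))))) .nil))) (.nd (nat_lit 6) 
(.lf (nat_lit 145327) (.g (nat_lit 1475) (.e (nat_lit 57372) (nat_lit 2) (.e (nat_lit 90160) (nat_lit 11) (.e (nat_lit 24608) (nat_lit 3) (.e (nat_lit 98341) (nat_lit 20) .nil)))) .nil)) 
(.lf (nat_lit 145391) (.g (nat_lit 2951) (.e (nat_lit 57372) (nat_lit 2) (.e (nat_lit 90167) (nat_lit 13) (.e (nat_lit 172067) (nat_lit 3) (.e (nat_lit 204838) (nat_lit 20) (.e (nat_lit 114719) (nat_lit 23) (.e (nat_lit 98332) (nat_lit 18) (.e (nat_lit 164399) (nat_lit 256) .nil))))))) (.g (nat_lit 5) .nil .nil))))) (.nd (nat_lit 5) (.nd (nat_lit 6) 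
(.lf (nat_lit 145311) (.g (nat_lit 1046) (.e (nat_lit 57372) (nat_lit 2) (.e (nat_lit 90159) (nat_lit 11) (.e (nat_lit 24627) (nat_lit 9) (.e (nat_lit 336381) (nat_lit 27) (.e (nat_lit 426500) (nat_lit 27) .nil))))) .nil)) 
(.lf (nat_lit 145375) (.g (nat_lit 3167) (.e (nat_lit 57372) (nat_lit 2) (.e (nat_lit 90167) (nat_lit 13) (.e (nat_lit 172065) (nat_lit 3) (.e (nat_lit 204838) (nat_lit 20) (.e (nat_lit 114719) (nat_lit 23) (.e (nat_lit 98334) (nat_lit 18) (.e (nat_lit 164399) (nat_lit 256) .nil))))))) (.g (nat_lit 6) .nil .nil)))) (.nd (nat_lit 6) 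
(.lf (nat_lit 145343) (.g (nat_lit 1662) (.e (nat_lit 57372) (nat_lit 2) (.e (nat_lit 90160) (nat_lit 11) (.e (nat_lit 24629) (nat_lit 9) (.e (nat_lit 336456) (nat_lit 34) (.e (nat_lit 483365) (nat_lit 18) .nil))))) .nil)) 
(.lf (nat_lit 145407) (.g (nat_lit 2740) (.e (nat_lit 57372) (nat_lit 2) (.e (nat_lit 90170) (nat_lit 13) (.e (nat_lit 172106) (nat_lit 10) (.e (nat_lit 434231) (nat_lit 23) .nil)))) .nil)))))))))

noncomputable def tv1930 : DT := (.nd (nat_lit 0) (.nd (nat_lit 1) (.nd (nat_lit 2) (.nd (nat_lit 3) (.nd (nat_lit 4) (.nd (nat_lit 5) 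
(.lf (nat_lit 145408) (.g (nat_lit 475) (.e (nat_lit 57372) (nat_lit 2) (.e (nat_lit 90172) (nat_lit 14) (.e (nat_lit 180243) (nat_lit 5) .nil))) .nil)) 
(.lf (nat_lit 145440) (.g (nat_lit 4825) (.e (nat_lit 57372) (nat_lit 2) (.e (nat_lit 90172) (nat_lit 14) (.e (nat_lit 180243) (nat_lit 5) (.e (nat_lit 532513) (nat_lit 3) (.e (nat_lit 114718) (nat_lit 23) (.e (nat_lit 98333) (nat_lit 18) (.e (nat_lit 164399) (nat_lit 256) .nil))))))) (.g (nat_lit 7) .nil .nil)))) (.nd (nat_lit 5) 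
(.lf (nat_lit 145424) (.g (nat_lit 2301) (.e (nat_lit 57372) (nat_lit 2) (.e (nat_lit 90172) (nat_lit 14) (.e (nat_lit 180243) (nat_lit 5) (.e (nat_lit 532513) (nat_lit 3) (.e (nat_lit 114714) (nat_lit 22) (.e (nat_lit 90165) (nat_lit 12) (.e (nat_lit 163853) (nat_lit 0) (.e (nat_lit 5934) (nat_lit 322) .nil)))))))) (.g (nat_lit 4) .nil .nil))) 
(.lf (nat_lit 145456) (.g (nat_lit 1669) (.e (nat_lit 57372) (nat_lit 2) (.e (nat_lit 90172) (nat_lit 14) (.e (nat_lit 180243) (nat_lit 5) (.e (nat_lit 532515) (nat_lit 3) (.e (nat_lit 114716) (nat_lit 22) .nil))))) .nil)))) (.nd (nat_lit 4) (.nd (nat_lit 5) 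
(.lf (nat_lit 145416) (.g (nat_lit 3464) (.e (nat_lit 57372) (nat_lit 2) (.e (nat_lit 90172) (nat_lit 14) (.e (nat_lit 180243) (nat_lit 5) (.e (nat_lit 532513) (nat_lit 3) (.e (nat_lit 114714) (nat_lit 22) (.e (nat_lit 90134) (nat_lit 9) (.e (nat_lit 2717) (nat_lit 171) (.e (nat_lit 229707) (nat_lit 256) .nil)))))))) (.g (nat_lit 5) .nil .nil))) 
(.lf (nat_lit 145448) (.g (nat_lit 2809) (.e (nat_lit 57372) (nat_lit 2) (.e (nat_lit 90172) (nat_lit 14) (.e (nat_lit 180243) (nat_lit 5) (.e (nat_lit 532513) (nat_lit 3) (.e (nat_lit 114719) (nat_lit 23) (.e (nat_lit 98333) (nat_lit 18) (.e (nat_lit 164397) (nat_lit 256) .nil))))))) (.g (nat_lit 4) .nil .nil)))) (.nd (nat_lit 5) 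
(.lf (nat_lit 145432) (.g (nat_lit 2981) (.e (nat_lit 57372) (nat_lit 2) (.e (nat_lit 90172) (nat_lit 14) (.e (nat_lit 180243) (nat_lit 5) (.e (nat_lit 532513) (nat_lit 3) (.e (nat_lit 114714) (nat_lit 22) (.e (nat_lit 90181) (nat_lit 16) (.e (nat_lit 229378) (nat_lit 0) (.e (nat_lit 5939) (nat_lit 322) .nil)))))))) (.g (nat_lit 4) .nil .nil))) 
(.lf (nat_lit 145464) (.g (nat_lit 2340) (.e (nat_lit 57372) (nat_lit 2) (.e (nat_lit 90172) (nat_lit 14) (.e (nat_lit 180243) (nat_lit 5) (.e (nat_lit 532515) (nat_lit 3) (.e (nat_lit 114716) (nat_lit 22) (.e (nat_lit 90181) (nat_lit 16) (.e (nat_lit 229377) (nat_lit 0) (.e (nat_lit 5934) (nat_lit 322) .nil)))))))) (.g (nat_lit 4) .nil .nil)))))) 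
(.nd (nat_lit 3) (.nd (nat_lit 4) (.nd (nat_lit 5) 
(.lf (nat_lit 145412) (.g (nat_lit 2481) (.e (nat_lit 57372) (nat_lit 2) (.e (nat_lit 90172) (nat_lit 14) (.e (nat_lit 180243) (nat_lit 5) (.e (nat_lit 532510) (nat_lit 2) (.e (nat_lit 106541) (nat_lit 13) (.e (nat_lit 122936) (nat_lit 23) (.e (nat_lit 516117) (nat_lit 1) (.e (nat_lit 164400) (nat_lit 256) .nil)))))))) (.g (nat_lit 4) .nil .nil))) 
(.lf (nat_lit 145444) (.g (nat_lit 4072) (.e (nat_lit 57372) (nat_lit 2) (.e (nat_lit 90172) (nat_lit 14) (.e (nat_lit 180243) (nat_lit 5) (.e (nat_lit 532513) (nat_lit 3) (.e (nat_lit 114718) (nat_lit 23) (.e (nat_lit 98334) (nat_lit 18) (.e (nat_lit 164400) (nat_lit 256) .nil))))))) (.g (nat_lit 6) .nil .nil)))) (.nd (nat_lit 5) 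
(.lf (nat_lit 145428) (.g (nat_lit 2640) (.e (nat_lit 57372) (nat_lit 2) (.e (nat_lit 90172) (nat_lit 14) (.e (nat_lit 180243) (nat_lit 5) (.e (nat_lit 532513) (nat_lit 3) (.e (nat_lit 114714) (nat_lit 22) (.e (nat_lit 90180) (nat_lit 16) (.e (nat_lit 229379) (nat_lit 0) (.e (nat_lit 5939) (nat_lit 322) .nil)))))))) (.g (nat_lit 4) .nil .nil))) 
(.lf (nat_lit 145460) (.g (nat_lit 2711) (.e (nat_lit 57372) (nat_lit 2) (.e (nat_lit 90172) (nat_lit 14) (.e (nat_lit 180243) (nat_lit 5) (.e (nat_lit 532515) (nat_lit 3) (.e (nat_lit 114716) (nat_lit 22) (.e (nat_lit 90179) (nat_lit 16) (.e (nat_lit 229379) (nat_lit 0) (.e (nat_lit 5939) (nat_lit 322) .nil)))))))) (.g (nat_lit 4) .nil .nil))))) (.nd (nat_lit 4) (.nd (nat_lit 5) 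
(.lf (nat_lit 145420) (.g (nat_lit 2681) (.e (nat_lit 57372) (nat_lit 2) (.e (nat_lit 90172) (nat_lit 14) (.e (nat_lit 180243) (nat_lit 5) (.e (nat_lit 532513) (nat_lit 3) (.e (nat_lit 114714) (nat_lit 22) (.e (nat_lit 90163) (nat_lit 12) (.e (nat_lit 163850) (nat_lit 0) (.e (nat_lit 5939) (nat_lit 322) .nil)))))))) (.g (nat_lit 4) .nil .nil))) 
(.lf (nat_lit 145452) (.g (nat_lit 2798) (.e (nat_lit 57372) (nat_lit 2) (.e (nat_lit 90172) (nat_lit 14) (.e (nat_lit 180243) (nat_lit 5) (.e (nat_lit 532513) (nat_lit 3) (.e (nat_lit 114719) (nat_lit 23) (.e (nat_lit 98334) (nat_lit 18) (.e (nat_lit 164396) (nat_lit 256) .nil))))))) (.g (nat_lit 4) .nil .nil)))) (.nd (nat_lit 5) 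
(.lf (nat_lit 145436) (.g (nat_lit 2418) (.e (nat_lit 57372) (nat_lit 2) (.e (nat_lit 90172) (nat_lit 14) (.e (nat_lit 180243) (nat_lit 5) (.e (nat_lit 532513) (nat_lit 3) (.e (nat_lit 114717) (nat_lit 23) (.e (nat_lit 98334) (nat_lit 18) (.e (nat_lit 164400) (nat_lit 256) .nil))))))) (.g (nat_lit 4) .nil .nil))) 
(.lf (nat_lit 145468) (.g (nat_lit 3782) (.e (nat_lit 57372) (nat_lit 2) (.e (nat_lit 90172) (nat_lit 14) (.e (nat_lit 180243) (nat_lit 5) (.e (nat_lit 532515) (nat_lit 3) (.e (nat_lit 114718) (nat_lit 23) (.e (nat_lit 98333) (nat_lit 18) (.e (nat_lit 164399) (nat_lit 256) .nil))))))) (.g (nat_lit 6) .nil .nil))))))) (.nd (nat_lit 2) (.nd (nat_lit 3) (.nd (nat_lit 4) (.nd (nat_lit 5) 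
(.lf (nat_lit 145410) (.g (nat_lit 2581) (.e (nat_lit 57372) (nat_lit 2) (.e (nat_lit 90172) (nat_lit 14) (.e (nat_lit 180243) (nat_lit 5) (.e (nat_lit 532510) (nat_lit 2) (.e (nat_lit 106537) (nat_lit 12) (.e (nat_lit 57464) (nat_lit 23) (.e (nat_lit 516116) (nat_lit 1) (.e (nat_lit 164398) (nat_lit 256) .nil)))))))) (.g (nat_lit 4) .nil .nil))) 
(.lf (nat_lit 145442) (.g (nat_lit 3077) (.e (nat_lit 57372) (nat_lit 2) (.e (nat_lit 90172) (nat_lit 14) (.e (nat_lit 180243) (nat_lit 5) (.e (nat_lit 532513) (nat_lit 3) (.e (nat_lit 114718) (nat_lit 23) (.e (nat_lit 98334) (nat_lit 18) (.e (nat_lit 164396) (nat_lit 256) .nil))))))) (.g (nat_lit 4) .nil .nil)))) (.nd (nat_lit 5) 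
(.lf (nat_lit 145426) (.g (nat_lit 3055) (.e (nat_lit 57372) (nat_lit 2) (.e (nat_lit 90172) (nat_lit 14) (.e (nat_lit 180243) (nat_lit 5) (.e (nat_lit 532513) (nat_lit 3) (.e (nat_lit 114714) (nat_lit 22) (.e (nat_lit 90165) (nat_lit 12) (.e (nat_lit 171776) (nat_lit 0) (.e (nat_lit 5936) (nat_lit 322) .nil)))))))) (.g (nat_lit 4) .nil .nil))) 
(.lf (nat_lit 145458) (.g (nat_lit 1829) (.e (nat_lit 57372) (nat_lit 2) (.e (nat_lit 90172) (nat_lit 14) (.e (nat_lit 180243) (nat_lit 5) (.e (nat_lit 532515) (nat_lit 3) (.e (nat_lit 114716) (nat_lit 22) (.e (nat_lit 90162) (nat_lit 12) (.e (nat_lit 163844) (nat_lit 0) (.e (nat_lit 5943) (nat_lit 322) .nil)))))))) (.g (nat_lit 4) .nil .nil))))) (.nd (nat_lit 4) (.nd (nat_lit 5) 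
(.lf (nat_lit 145418) (.g (nat_lit 3314) (.e (nat_lit 57372) (nat_lit 2) (.e (nat_lit 90172) (nat_lit 14) (.e (nat_lit 180243) (nat_lit 5) (.e (nat_lit 532513) (nat_lit 3) (.e (nat_lit 114714) (nat_lit 22) (.e (nat_lit 90162) (nat_lit 12) (.e (nat_lit 163849) (nat_lit 0) (.e (nat_lit 5934) (nat_lit 322) .nil)))))))) (.g (nat_lit 5) .nil .nil))) 
(.lf (nat_lit 145450) (.g (nat_lit 4586) (.e (nat_lit 57372) (nat_lit 2) (.e (nat_lit 90172) (nat_lit 14) (.e (nat_lit 180243) (nat_lit 5) (.e (nat_lit 532513) (nat_lit 3) (.e (nat_lit 114719) (nat_lit 23) (.e (nat_lit 98333) (nat_lit 18) (.e (nat_lit 164399) (nat_lit 256) .nil))))))) (.g (nat_lit 7) .nil .nil)))) (.nd (nat_lit 5) 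
(.lf (nat_lit 145434) (.g (nat_lit 2703) (.e (nat_lit 57372) (nat_lit 2) (.e (nat_lit 90172) (nat_lit 14) (.e (nat_lit 180243) (nat_lit 5) (.e (nat_lit 532513) (nat_lit 3) (.e (nat_lit 114714) (nat_lit 22) (.e (nat_lit 90182) (nat_lit 16) (.e (nat_lit 229379) (nat_lit 0) (.e (nat_lit 5939) (nat_lit 322) .nil)))))))) (.g (nat_lit 4) .nil .nil))) 
(.lf (nat_lit 145466) (.g (nat_lit 3027) (.e (nat_lit 57372) (nat_lit 2) (.e (nat_lit 90172) (nat_lit 14) (.e (nat_lit 180243) (nat_lit 5) (.e (nat_lit 532515) (nat_lit 3) (.e (nat_lit 114716) (nat_lit 22) (.e (nat_lit 90181) (nat_lit 16) (.e (nat_lit 237312) (nat_lit 0) (.e (nat_lit 5937) (nat_lit 322) .nil)))))))) (.g (nat_lit 4) .nil .nil)))))) 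
(.nd (nat_lit 3) (.nd (nat_lit 4) (.nd (nat_lit 5) 
(.lf (nat_lit 145414) (.g (nat_lit 2193) (.e (nat_lit 57372) (nat_lit 2) (.e (nat_lit 90172) (nat_lit 14) (.e (nat_lit 180243) (nat_lit 5) (.e (nat_lit 532511) (nat_lit 2) (.e (nat_lit 106539) (nat_lit 12) (.e (nat_lit 57466) (nat_lit 23) (.e (nat_lit 516117) (nat_lit 1) (.e (nat_lit 164400) (nat_lit 256) .nil)))))))) (.g (nat_lit 4) .nil .nil))) 
(.lf (nat_lit 145446) (.g (nat_lit 2978) (.e (nat_lit 57372) (nat_lit 2) (.e (nat_lit 90172) (nat_lit 14) (.e (nat_lit 180243) (nat_lit 5) (.e (nat_lit 532513) (nat_lit 3) (.e (nat_lit 114719) (nat_lit 23) (.e (nat_lit 98332) (nat_lit 18) (.e (nat_lit 164398) (nat_lit 256) .nil))))))) (.g (nat_lit 4) .nil .nil)))) (.nd (nat_lit 5) 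
(.lf (nat_lit 145430) (.g (nat_lit 3347) (.e (nat_lit 57372) (nat_lit 2) (.e (nat_lit 90172) (nat_lit 14) (.e (nat_lit 180243) (nat_lit 5) (.e (nat_lit 532513) (nat_lit 3) (.e (nat_lit 114714) (nat_lit 22) (.e (nat_lit 90181) (nat_lit 16) (.e (nat_lit 229376) (nat_lit 0) (.e (nat_lit 5939) (nat_lit 322) .nil)))))))) (.g (nat_lit 5) .nil .nil))) 
(.lf (nat_lit 145462) (.g (nat_lit 2207) (.e (nat_lit 57372) (nat_lit 2) (.e (nat_lit 90172) (nat_lit 14) (.e (nat_lit 180243) (nat_lit 5) (.e (nat_lit 532515) (nat_lit 3) (.e (nat_lit 114716) (nat_lit 22) (.e (nat_lit 90181) (nat_lit 16) (.e (nat_lit 229376) (nat_lit 0) (.e (nat_lit 5934) (nat_lit 322) .nil)))))))) (.g (nat_lit 4) .nil .nil))))) (.nd (nat_lit 4) (.nd (nat_lit 5) 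
(.lf (nat_lit 145422) (.g (nat_lit 4336) (.e (nat_lit 57372) (nat_lit 2) (.e (nat_lit 90172) (nat_lit 14) (.e (nat_lit 180243) (nat_lit 5) (.e (nat_lit 532513) (nat_lit 3) (.e (nat_lit 114714) (nat_lit 22) (.e (nat_lit 90164) (nat_lit 12) (.e (nat_lit 163850) (nat_lit 0) (.e (nat_lit 5939) (nat_lit 322) .nil)))))))) (.g (nat_lit 7) .nil .nil))) 
(.lf (nat_lit 145454) (.g (nat_lit 4720) (.e (nat_lit 57372) (nat_lit 2) (.e (nat_lit 90172) (nat_lit 14) (.e (nat_lit 180243) (nat_lit 5) (.e (nat_lit 532513) (nat_lit 3) (.e (nat_lit 114719) (nat_lit 23) (.e (nat_lit 98334) (nat_lit 18) (.e (nat_lit 164399) (nat_lit 256) .nil))))))) (.g (nat_lit 7) .nil .nil)))) (.nd (nat_lit 5) 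
(.lf (nat_lit 145438) (.g (nat_lit 2916) (.e (nat_lit 57372) (nat_lit 2) (.e (nat_lit 90172) (nat_lit 14) (.e (nat_lit 180243) (nat_lit 5) (.e (nat_lit 532513) (nat_lit 3) (.e (nat_lit 114718) (nat_lit 23) (.e (nat_lit 98333) (nat_lit 18) (.e (nat_lit 164397) (nat_lit 256) .nil))))))) (.g (nat_lit 4) .nil .nil))) 
(.lf (nat_lit 145470) (.g (nat_lit 2559) (.e (nat_lit 57372) (nat_lit 2) (.e (nat_lit 90172) (nat_lit 14) (.e (nat_lit 180243) (nat_lit 5) (.e (nat_lit 532515) (nat_lit 3) (.e (nat_lit 114718) (nat_lit 23) (.e (nat_lit 98334) (nat_lit 18) (.e (nat_lit 164397) (nat_lit 256) .nil))))))) (.g (nat_lit 4) .nil .nil)))))))) 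
(.nd (nat_lit 1) (.nd (nat_lit 2) (.nd (nat_lit 3) (.nd (nat_lit 4) (.nd (nat_lit 5) 
(.lf (nat_lit 145409) (.g (nat_lit 2279) (.e (nat_lit 57372) (nat_lit 2) (.e (nat_lit 90172) (nat_lit 14) (.e (nat_lit 180243) (nat_lit 5) (.e (nat_lit 532508) (nat_lit 2) (.e (nat_lit 106539) (nat_lit 12) (.e (nat_lit 57466) (nat_lit 23) (.e (nat_lit 516117) (nat_lit 1) (.e (nat_lit 164400) (nat_lit 256) .nil)))))))) (.g (nat_lit 4) .nil .nil))) 
(.lf (nat_lit 145441) (.g (nat_lit 3915) (.e (nat_lit 57372) (nat_lit 2) (.e (nat_lit 90172) (nat_lit 14) (.e (nat_lit 180243) (nat_lit 5) (.e (nat_lit 532513) (nat_lit 3) (.e (nat_lit 114718) (nat_lit 23) (.e (nat_lit 98333) (nat_lit 18) (.e (nat_lit 164400) (nat_lit 256) .nil))))))) (.g (nat_lit 6) .nil .nil)))) (.nd (nat_lit 5) 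
(.lf (nat_lit 145425) (.g (nat_lit 3027) (.e (nat_lit 57372) (nat_lit 2) (.e (nat_lit 90172) (nat_lit 14) (.e (nat_lit 180243) (nat_lit 5) (.e (nat_lit 532513) (nat_lit 3) (.e (nat_lit 114714) (nat_lit 22) (.e (nat_lit 90165) (nat_lit 12) (.e (nat_lit 163857) (nat_lit 0) (.e (nat_lit 5934) (nat_lit 322) .nil)))))))) (.g (nat_lit 5) .nil .nil))) 
(.lf (nat_lit 145457) (.g (nat_lit 2520) (.e (nat_lit 57372) (nat_lit 2) (.e (nat_lit 90172) (nat_lit 14) (.e (nat_lit 180243) (nat_lit 5) (.e (nat_lit 532515) (nat_lit 3) (.e (nat_lit 114716) (nat_lit 22) (.e (nat_lit 90130) (nat_lit 9) (.e (nat_lit 2717) (nat_lit 171) (.e (nat_lit 229707) (nat_lit 256) .nil)))))))) (.g (nat_lit 4) .nil .nil))))) (.nd (nat_lit 4) (.nd (nat_lit 5) 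
(.lf (nat_lit 145417) (.g (nat_lit 3529) (.e (nat_lit 57372) (nat_lit 2) (.e (nat_lit 90172) (nat_lit 14) (.e (nat_lit 180243) (nat_lit 5) (.e (nat_lit 532513) (nat_lit 3) (.e (nat_lit 114714) (nat_lit 22) (.e (nat_lit 90162) (nat_lit 12) (.e (nat_lit 163844) (nat_lit 0) (.e (nat_lit 5943) (nat_lit 322) .nil)))))))) (.g (nat_lit 6) .nil .nil))) 
(.lf (nat_lit 145449) (.g (nat_lit 4309) (.e (nat_lit 57372) (nat_lit 2) (.e (nat_lit 90172) (nat_lit 14) (.e (nat_lit 180243) (nat_lit 5) (.e (nat_lit 532513) (nat_lit 3) (.e (nat_lit 114719) (nat_lit 23) (.e (nat_lit 98333) (nat_lit 18) (.e (nat_lit 164398) (nat_lit 256) .nil))))))) (.g (nat_lit 6) .nil .nil)))) (.nd (nat_lit 5) 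
(.lf (nat_lit 145433) (.g (nat_lit 2269) (.e (nat_lit 57372) (nat_lit 2) (.e (nat_lit 90172) (nat_lit 14) (.e (nat_lit 180243) (nat_lit 5) (.e (nat_lit 532513) (nat_lit 3) (.e (nat_lit 114714) (nat_lit 22) (.e (nat_lit 90181) (nat_lit 16) (.e (nat_lit 229380) (nat_lit 0) (.e (nat_lit 5934) (nat_lit 322) .nil)))))))) (.g (nat_lit 4) .nil .nil))) 
(.lf (nat_lit 145465) (.g (nat_lit 2417) (.e (nat_lit 57372) (nat_lit 2) (.e (nat_lit 90172) (nat_lit 14) (.e (nat_lit 180243) (nat_lit 5) (.e (nat_lit 532515) (nat_lit 3) (.e (nat_lit 114716) (nat_lit 22) (.e (nat_lit 90181) (nat_lit 16) (.e (nat_lit 229380) (nat_lit 0) (.e (nat_lit 5934) (nat_lit 322) .nil)))))))) (.g (nat_lit 4) .nil .nil)))))) 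
(.nd (nat_lit 3) (.nd (nat_lit 4) (.nd (nat_lit 5) 
(.lf (nat_lit 145413) (.g (nat_lit 2336) (.e (nat_lit 57372) (nat_lit 2) (.e (nat_lit 90172) (nat_lit 14) (.e (nat_lit 180243) (nat_lit 5) (.e (nat_lit 532511) (nat_lit 2) (.e (nat_lit 106537) (nat_lit 12) (.e (nat_lit 57465) (nat_lit 23) (.e (nat_lit 516115) (nat_lit 1) (.e (nat_lit 164399) (nat_lit 256) .nil)))))))) (.g (nat_lit 4) .nil .nil))) 
(.lf (nat_lit 145445) (.g (nat_lit 2779) (.e (nat_lit 57372) (nat_lit 2) (.e (nat_lit 90172) (nat_lit 14) (.e (nat_lit 180243) (nat_lit 5) (.e (nat_lit 532513) (nat_lit 3) (.e (nat_lit 114719) (nat_lit 23) (.e (nat_lit 98325) (nat_lit 17) (.e (nat_lit 2515) (nat_lit 157) (.e (nat_lit 5934) (nat_lit 322) .nil)))))))) (.g (nat_lit 4) .nil .nil)))) (.nd (nat_lit 5) 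
(.lf (nat_lit 145429) (.g (nat_lit 2385) (.e (nat_lit 57372) (nat_lit 2) (.e (nat_lit 90172) (nat_lit 14) (.e (nat_lit 180243) (nat_lit 5) (.e (nat_lit 532513) (nat_lit 3) (.e (nat_lit 114714) (nat_lit 22) (.e (nat_lit 90181) (nat_lit 16) (.e (nat_lit 229376) (nat_lit 0) (.e (nat_lit 5934) (nat_lit 322) .nil)))))))) (.g (nat_lit 4) .nil .nil))) 
(.lf (nat_lit 145461) (.g (nat_lit 2725) (.e (nat_lit 57372) (nat_lit 2) (.e (nat_lit 90172) (nat_lit 14) (.e (nat_lit 180243) (nat_lit 5) (.e (nat_lit 532515) (nat_lit 3) (.e (nat_lit 114716) (nat_lit 22) (.e (nat_lit 90180) (nat_lit 16) (.e (nat_lit 229379) (nat_lit 0) (.e (nat_lit 5939) (nat_lit 322) .nil)))))))) (.g (nat_lit 4) .nil .nil))))) (.nd (nat_lit 4) (.nd (nat_lit 5) 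
(.lf (nat_lit 145421) (.g (nat_lit 2181) (.e (nat_lit 57372) (nat_lit 2) (.e (nat_lit 90172) (nat_lit 14) (.e (nat_lit 180243) (nat_lit 5) (.e (nat_lit 532513) (nat_lit 3) (.e (nat_lit 114714) (nat_lit 22) (.e (nat_lit 90164) (nat_lit 12) (.e (nat_lit 163850) (nat_lit 0) (.e (nat_lit 5938) (nat_lit 322) .nil)))))))) (.g (nat_lit 4) .nil .nil))) 
(.lf (nat_lit 145453) (.g (nat_lit 3361) (.e (nat_lit 57372) (nat_lit 2) (.e (nat_lit 90172) (nat_lit 14) (.e (nat_lit 180243) (nat_lit 5) (.e (nat_lit 532513) (nat_lit 3) (.e (nat_lit 114719) (nat_lit 23) (.e (nat_lit 98334) (nat_lit 18) (.e (nat_lit 164397) (nat_lit 256) .nil))))))) (.g (nat_lit 5) .nil .nil)))) (.nd (nat_lit 5) 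
(.lf (nat_lit 145437) (.g (nat_lit 2731) (.e (nat_lit 57372) (nat_lit 2) (.e (nat_lit 90172) (nat_lit 14) (.e (nat_lit 180243) (nat_lit 5) (.e (nat_lit 532513) (nat_lit 3) (.e (nat_lit 114718) (nat_lit 23) (.e (nat_lit 98332) (nat_lit 18) (.e (nat_lit 164399) (nat_lit 256) .nil))))))) (.g (nat_lit 4) .nil .nil))) 
(.lf (nat_lit 145469) (.g (nat_lit 2822) (.e (nat_lit 57372) (nat_lit 2) (.e (nat_lit 90172) (nat_lit 14) (.e (nat_lit 180243) (nat_lit 5) (.e (nat_lit 532515) (nat_lit 3) (.e (nat_lit 114718) (nat_lit 23) (.e (nat_lit 98333) (nat_lit 18) (.e (nat_lit 164400) (nat_lit 256) .nil))))))) (.g (nat_lit 5) .nil .nil))))))) (.nd (nat_lit 2) (.nd (nat_lit 3) (.nd (nat_lit 4) (.nd (nat_lit 5) 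
(.lf (nat_lit 145411) (.g (nat_lit 2161) (.e (nat_lit 57372) (nat_lit 2) (.e (nat_lit 90172) (nat_lit 14) (.e (nat_lit 180243) (nat_lit 5) (.e (nat_lit 532510) (nat_lit 2) (.e (nat_lit 106539) (nat_lit 12) (.e (nat_lit 57466) (nat_lit 23) (.e (nat_lit 516117) (nat_lit 1) (.e (nat_lit 164400) (nat_lit 256) .nil)))))))) (.g (nat_lit 4) .nil .nil))) 
(.lf (nat_lit 145443) (.g (nat_lit 4872) (.e (nat_lit 57372) (nat_lit 2) (.e (nat_lit 90172) (nat_lit 14) (.e (nat_lit 180243) (nat_lit 5) (.e (nat_lit 532513) (nat_lit 3) (.e (nat_lit 114718) (nat_lit 23) (.e (nat_lit 98334) (nat_lit 18) (.e (nat_lit 164399) (nat_lit 256) .nil))))))) (.g (nat_lit 7) .nil .nil)))) (.nd (nat_lit 5) 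
(.lf (nat_lit 145427) (.g (nat_lit 3612) (.e (nat_lit 57372) (nat_lit 2) (.e (nat_lit 90172) (nat_lit 14) (.e (nat_lit 180243) (nat_lit 5) (.e (nat_lit 532513) (nat_lit 3) (.e (nat_lit 114714) (nat_lit 22) (.e (nat_lit 90165) (nat_lit 12) (.e (nat_lit 171776) (nat_lit 0) (.e (nat_lit 5937) (nat_lit 322) .nil)))))))) (.g (nat_lit 5) .nil .nil))) 
(.lf (nat_lit 145459) (.g (nat_lit 3343) (.e (nat_lit 57372) (nat_lit 2) (.e (nat_lit 90172) (nat_lit 14) (.e (nat_lit 180243) (nat_lit 5) (.e (nat_lit 532515) (nat_lit 3) (.e (nat_lit 114716) (nat_lit 22) (.e (nat_lit 90164) (nat_lit 12) (.e (nat_lit 163850) (nat_lit 0) (.e (nat_lit 5939) (nat_lit 322) .nil)))))))) (.g (nat_lit 5) .nil .nil))))) (.nd (nat_lit 4) (.nd (nat_lit 5) 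
(.lf (nat_lit 145419) (.g (nat_lit 2837) (.e (nat_lit 57372) (nat_lit 2) (.e (nat_lit 90172) (nat_lit 14) (.e (nat_lit 180243) (nat_lit 5) (.e (nat_lit 532513) (nat_lit 3) (.e (nat_lit 114714) (nat_lit 22) (.e (nat_lit 90162) (nat_lit 12) (.e (nat_lit 163850) (nat_lit 0) (.e (nat_lit 5939) (nat_lit 322) .nil)))))))) (.g (nat_lit 4) .nil .nil))) 
(.lf (nat_lit 145451) (.g (nat_lit 3627) (.e (nat_lit 57372) (nat_lit 2) (.e (nat_lit 90172) (nat_lit 14) (.e (nat_lit 180243) (nat_lit 5) (.e (nat_lit 532513) (nat_lit 3) (.e (nat_lit 114719) (nat_lit 23) (.e (nat_lit 98333) (nat_lit 18) (.e (nat_lit 164400) (nat_lit 256) .nil))))))) (.g (nat_lit 5) .nil .nil)))) (.nd (nat_lit 5) 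
(.lf (nat_lit 145435) (.g (nat_lit 2256) (.e (nat_lit 57372) (nat_lit 2) (.e (nat_lit 90172) (nat_lit 14) (.e (nat_lit 180243) (nat_lit 5) (.e (nat_lit 532513) (nat_lit 3) (.e (nat_lit 114717) (nat_lit 23) (.e (nat_lit 98333) (nat_lit 18) (.e (nat_lit 164400) (nat_lit 256) .nil))))))) (.g (nat_lit 4) .nil .nil))) 
(.lf (nat_lit 145467) (.g (nat_lit 2106) (.e (nat_lit 57372) (nat_lit 2) (.e (nat_lit 90172) (nat_lit 14) (.e (nat_lit 180243) (nat_lit 5) (.e (nat_lit 532515) (nat_lit 3) (.e (nat_lit 114717) (nat_lit 23) (.e (nat_lit 98334) (nat_lit 18) (.e (nat_lit 164400) (nat_lit 256) .nil))))))) (.g (nat_lit 4) .nil .nil)))))) (.nd (nat_lit 3) (.nd (nat_lit 4) (.nd (nat_lit 5) 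
(.lf (nat_lit 145415) (.g (nat_lit 2303) (.e (nat_lit 57372) (nat_lit 2) (.e (nat_lit 90172) (nat_lit 14) (.e (nat_lit 180243) (nat_lit 5) (.e (nat_lit 532511) (nat_lit 2) (.e (nat_lit 106541) (nat_lit 13) (.e (nat_lit 122936) (nat_lit 23) (.e (nat_lit 516117) (nat_lit 1) (.e (nat_lit 164400) (nat_lit 256) .nil)))))))) (.g (nat_lit 4) .nil .nil))) 
(.lf (nat_lit 145447) (.g (nat_lit 3340) (.e (nat_lit 57372) (nat_lit 2) (.e (nat_lit 90172) (nat_lit 14) (.e (nat_lit 180243) (nat_lit 5) (.e (nat_lit 532513) (nat_lit 3) (.e (nat_lit 114719) (nat_lit 23) (.e (nat_lit 98332) (nat_lit 18) (.e (nat_lit 164399) (nat_lit 256) .nil))))))) (.g (nat_lit 5) .nil .nil)))) (.nd (nat_lit 5) 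
(.lf (nat_lit 145431) (.g (nat_lit 2387) (.e (nat_lit 57372) (nat_lit 2) (.e (nat_lit 90172) (nat_lit 14) (.e (nat_lit 180243) (nat_lit 5) (.e (nat_lit 532513) (nat_lit 3) (.e (nat_lit 114714) (nat_lit 22) (.e (nat_lit 90181) (nat_lit 16) (.e (nat_lit 229378) (nat_lit 0) (.e (nat_lit 5938) (nat_lit 322) .nil)))))))) (.g (nat_lit 4) .nil .nil))) 
(.lf (nat_lit 145463) (.g (nat_lit 3182) (.e (nat_lit 57372) (nat_lit 2) (.e (nat_lit 90172) (nat_lit 14) (.e (nat_lit 180243) (nat_lit 5) (.e (nat_lit 532515) (nat_lit 3) (.e (nat_lit 114716) (nat_lit 22) (.e (nat_lit 90181) (nat_lit 16) (.e (nat_lit 229376) (nat_lit 0) (.e (nat_lit 5936) (nat_lit 322) .nil)))))))) (.g (nat_lit 4) .nil .nil))))) (.nd (nat_lit 4) (.nd (nat_lit 5) 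
(.lf (nat_lit 145423) (.g (nat_lit 3185) (.e (nat_lit 57372) (nat_lit 2) (.e (nat_lit 90172) (nat_lit 14) (.e (nat_lit 180243) (nat_lit 5) (.e (nat_lit 532513) (nat_lit 3) (.e (nat_lit 114714) (nat_lit 22) (.e (nat_lit 90165) (nat_lit 12) (.e (nat_lit 163849) (nat_lit 0) (.e (nat_lit 5934) (nat_lit 322) .nil)))))))) (.g (nat_lit 5) .nil .nil))) 
(.lf (nat_lit 145455) (.g (nat_lit 3653) (.e (nat_lit 57372) (nat_lit 2) (.e (nat_lit 90172) (nat_lit 14) (.e (nat_lit 180243) (nat_lit 5) (.e (nat_lit 532513) (nat_lit 3) (.e (nat_lit 114719) (nat_lit 23) (.e (nat_lit 98334) (nat_lit 18) (.e (nat_lit 164400) (nat_lit 256) .nil))))))) (.g (nat_lit 6) .nil .nil)))) (.nd (nat_lit 5) 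
(.lf (nat_lit 145439) (.g (nat_lit 4501) (.e (nat_lit 57372) (nat_lit 2) (.e (nat_lit 90172) (nat_lit 14) (.e (nat_lit 180243) (nat_lit 5) (.e (nat_lit 532513) (nat_lit 3) (.e (nat_lit 114718) (nat_lit 23) (.e (nat_lit 98333) (nat_lit 18) (.e (nat_lit 164398) (nat_lit 256) .nil))))))) (.g (nat_lit 6) .nil .nil))) 
(.lf (nat_lit 145471) (.g (nat_lit 3826) (.e (nat_lit 57372) (nat_lit 2) (.e (nat_lit 90172) (nat_lit 14) (.e (nat_lit 180243) (nat_lit 5) (.e (nat_lit 532515) (nat_lit 3) (.e (nat_lit 114718) (nat_lit 23) (.e (nat_lit 98334) (nat_lit 18) (.e (nat_lit 164399) (nat_lit 256) .nil))))))) (.g (nat_lit 6) .nil .nil)))))))))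

noncomputable def tv1931 : DT := (.nd (nat_lit 0) (.nd (nat_lit 1) (.nd (nat_lit 2) (.nd (nat_lit 3) (.nd (nat_lit 4) (.nd (nat_lit 5) 
(.lf (nat_lit 145472) (.g (nat_lit 3048) (.e (nat_lit 57372) (nat_lit 2) (.e (nat_lit 90172) (nat_lit 14) (.e (nat_lit 180243) (nat_lit 5) (.e (nat_lit 532515) (nat_lit 3) (.e (nat_lit 114718) (nat_lit 23) (.e (nat_lit 98334) (nat_lit 18) (.e (nat_lit 164400) (nat_lit 256) .nil))))))) (.g (nat_lit 5) .nil .nil))) 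
(.lf (nat_lit 145504) (.g (nat_lit 3349) (.e (nat_lit 57372) (nat_lit 2) (.e (nat_lit 90172) (nat_lit 14) (.e (nat_lit 180244) (nat_lit 5) (.e (nat_lit 532513) (nat_lit 3) (.e (nat_lit 114714) (nat_lit 22) (.e (nat_lit 90165) (nat_lit 12) (.e (nat_lit 163849) (nat_lit 0) (.e (nat_lit 5934) (nat_lit 322) .nil)))))))) (.g (nat_lit 5) .nil .nil)))) (.nd (nat_lit 5) 
(.lf (nat_lit 145488) (.g (nat_lit 2329) (.e (nat_lit 57372) (nat_lit 2) (.e (nat_lit 90172) (nat_lit 14) (.e (nat_lit 180244) (nat_lit 5) (.e (nat_lit 532511) (nat_lit 2) (.e (nat_lit 106540) (nat_lit 13) (.e (nat_lit 122936) (nat_lit 23) (.e (nat_lit 516117) (nat_lit 1) (.e (nat_lit 164400) (nat_lit 256) .nil)))))))) (.g (nat_lit 4) .nil .nil))) 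
(.lf (nat_lit 145520) (.g (nat_lit 2699) (.e (nat_lit 57372) (nat_lit 2) (.e (nat_lit 90172) (nat_lit 14) (.e (nat_lit 180244) (nat_lit 5) (.e (nat_lit 532513) (nat_lit 3) (.e (nat_lit 114714) (nat_lit 22) (.e (nat_lit 90182) (nat_lit 16) (.e (nat_lit 229379) (nat_lit 0) (.e (nat_lit 5939) (nat_lit 322) .nil)))))))) (.g (nat_lit 4) .nil .nil))))) (.nd (nat_lit 4) (.nd (nat_lit 5) 
(.lf (nat_lit 145480) (.g (nat_lit 3215) (.e (nat_lit 57372) (nat_lit 2) (.e (nat_lit 90172) (nat_lit 14) (.e (nat_lit 180243) (nat_lit 5) (.e (nat_lit 532515) (nat_lit 3) (.e (nat_lit 114719) (nat_lit 23) (.e (nat_lit 98334) (nat_lit 18) (.e (nat_lit 164400) (nat_lit 256) .nil))))))) (.g (nat_lit 5) .nil .nil))) 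
(.lf (nat_lit 145512) (.g (nat_lit 3546) (.e (nat_lit 57372) (nat_lit 2) (.e (nat_lit 90172) (nat_lit 14) (.e (nat_lit 180244) (nat_lit 5) (.e (nat_lit 532513) (nat_lit 3) (.e (nat_lit 114714) (nat_lit 22) (.e (nat_lit 90181) (nat_lit 16) (.e (nat_lit 229376) (nat_lit 0) (.e (nat_lit 5936) (nat_lit 322) .nil)))))))) (.g (nat_lit 5) .nil .nil)))) (.nd (nat_lit 5) 
(.lf (nat_lit 145496) (.g (nat_lit 1802) (.e (nat_lit 57372) (nat_lit 2) (.e (nat_lit 90172) (nat_lit 14) (.e (nat_lit 180244) (nat_lit 5) (.e (nat_lit 532513) (nat_lit 3) (.e (nat_lit 114714) (nat_lit 22) .nil))))) .nil)) 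
(.lf (nat_lit 145528) (.g (nat_lit 3403) (.e (nat_lit 57372) (nat_lit 2) (.e (nat_lit 90172) (nat_lit 14) (.e (nat_lit 180244) (nat_lit 5) (.e (nat_lit 532513) (nat_lit 3) (.e (nat_lit 114718) (nat_lit 23) (.e (nat_lit 98325) (nat_lit 17) (.e (nat_lit 2515) (nat_lit 157) (.e (nat_lit 5934) (nat_lit 322) .nil)))))))) (.g (nat_lit 5) .nil .nil)))))) 
(.nd (nat_lit 3) (.nd (nat_lit 4) (.nd (nat_lit 5) 
(.lf (nat_lit 145476) (.g (nat_lit 3091) (.e (nat_lit 57372) (nat_lit 2) (.e (nat_lit 90172) (nat_lit 14) (.e (nat_lit 180243) (nat_lit 5) (.e (nat_lit 532515) (nat_lit 3) (.e (nat_lit 114719) (nat_lit 23) (.e (nat_lit 98333) (nat_lit 18) (.e (nat_lit 164400) (nat_lit 256) .nil))))))) (.g (nat_lit 5) .nil .nil))) 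
(.lf (nat_lit 145508) (.g (nat_lit 2308) (.e (nat_lit 57372) (nat_lit 2) (.e (nat_lit 90172) (nat_lit 14) (.e (nat_lit 180244) (nat_lit 5) (.e (nat_lit 532513) (nat_lit 3) (.e (nat_lit 114714) (nat_lit 22) (.e (nat_lit 90165) (nat_lit 12) (.e (nat_lit 171776) (nat_lit 0) (.e (nat_lit 5938) (nat_lit 322) .nil)))))))) (.g (nat_lit 4) .nil .nil)))) (.nd (nat_lit 5) 
(.lf (nat_lit 145492) (.g (nat_lit 2816) (.e (nat_lit 57372) (nat_lit 2) (.e (nat_lit 90172) (nat_lit 14) (.e (nat_lit 180244) (nat_lit 5) (.e (nat_lit 532513) (nat_lit 3) (.e (nat_lit 114708) (nat_lit 20) (.e (nat_lit 1800) (nat_lit 119) (.e (nat_lit 516115) (nat_lit 1) (.e (nat_lit 164400) (nat_lit 256) .nil)))))))) (.g (nat_lit 4) .nil .nil))) 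
(.lf (nat_lit 145524) (.g (nat_lit 2893) (.e (nat_lit 57372) (nat_lit 2) (.e (nat_lit 90172) (nat_lit 14) (.e (nat_lit 180244) (nat_lit 5) (.e (nat_lit 532513) (nat_lit 3) (.e (nat_lit 114717) (nat_lit 23) (.e (nat_lit 98334) (nat_lit 18) (.e (nat_lit 164400) (nat_lit 256) .nil))))))) (.g (nat_lit 5) .nil .nil))))) (.nd (nat_lit 4) (.nd (nat_lit 5) 
(.lf (nat_lit 145484) (.g (nat_lit 1245) (.e (nat_lit 57372) (nat_lit 2) (.e (nat_lit 90172) (nat_lit 14) (.e (nat_lit 180244) (nat_lit 5) (.e (nat_lit 532508) (nat_lit 2) .nil)))) .nil)) 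
(.lf (nat_lit 145516) (.g (nat_lit 2854) (.e (nat_lit 57372) (nat_lit 2) (.e (nat_lit 90172) (nat_lit 14) (.e (nat_lit 180244) (nat_lit 5) (.e (nat_lit 532513) (nat_lit 3) (.e (nat_lit 114714) (nat_lit 22) (.e (nat_lit 90181) (nat_lit 16) (.e (nat_lit 229376) (nat_lit 0) (.e (nat_lit 5943) (nat_lit 322) .nil)))))))) (.g (nat_lit 5) .nil .nil)))) (.nd (nat_lit 5) 
(.lf (nat_lit 145500) (.g (nat_lit 2869) (.e (nat_lit 57372) (nat_lit 2) (.e (nat_lit 90172) (nat_lit 14) (.e (nat_lit 180244) (nat_lit 5) (.e (nat_lit 532513) (nat_lit 3) (.e (nat_lit 114714) (nat_lit 22) (.e (nat_lit 90162) (nat_lit 12) (.e (nat_lit 163850) (nat_lit 0) (.e (nat_lit 5939) (nat_lit 322) .nil)))))))) (.g (nat_lit 4) .nil .nil))) 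
(.lf (nat_lit 145532) (.g (nat_lit 3702) (.e (nat_lit 57372) (nat_lit 2) (.e (nat_lit 90172) (nat_lit 14) (.e (nat_lit 180244) (nat_lit 5) (.e (nat_lit 532513) (nat_lit 3) (.e (nat_lit 114718) (nat_lit 23) (.e (nat_lit 98333) (nat_lit 18) (.e (nat_lit 164397) (nat_lit 256) .nil))))))) (.g (nat_lit 5) .nil .nil))))))) (.nd (nat_lit 2) (.nd (nat_lit 3) (.nd (nat_lit 4) (.nd (nat_lit 5) 
(.lf (nat_lit 145474) (.g (nat_lit 3039) (.e (nat_lit 57372) (nat_lit 2) (.e (nat_lit 90172) (nat_lit 14) (.e (nat_lit 180243) (nat_lit 5) (.e (nat_lit 532515) (nat_lit 3) (.e (nat_lit 114719) (nat_lit 23) (.e (nat_lit 98332) (nat_lit 18) (.e (nat_lit 164398) (nat_lit 256) .nil))))))) (.g (nat_lit 5) .nil .nil))) 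
(.lf (nat_lit 145506) (.g (nat_lit 3191) (.e (nat_lit 57372) (nat_lit 2) (.e (nat_lit 90172) (nat_lit 14) (.e (nat_lit 180244) (nat_lit 5) (.e (nat_lit 532513) (nat_lit 3) (.e (nat_lit 114714) (nat_lit 22) (.e (nat_lit 90165) (nat_lit 12) (.e (nat_lit 163857) (nat_lit 0) (.e (nat_lit 5934) (nat_lit 322) .nil)))))))) (.g (nat_lit 5) .nil .nil)))) (.nd (nat_lit 5) 
(.lf (nat_lit 145490) (.g (nat_lit 2289) (.e (nat_lit 57372) (nat_lit 2) (.e (nat_lit 90172) (nat_lit 14) (.e (nat_lit 180244) (nat_lit 5) (.e (nat_lit 532511) (nat_lit 2) (.e (nat_lit 114432) (nat_lit 13) (.e (nat_lit 122936) (nat_lit 23) (.e (nat_lit 516117) (nat_lit 1) (.e (nat_lit 164399) (nat_lit 256) .nil)))))))) (.g (nat_lit 4) .nil .nil))) 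
(.lf (nat_lit 145522) (.g (nat_lit 2483) (.e (nat_lit 57372) (nat_lit 2) (.e (nat_lit 90172) (nat_lit 14) (.e (nat_lit 180244) (nat_lit 5) (.e (nat_lit 532513) (nat_lit 3) (.e (nat_lit 114717) (nat_lit 23) (.e (nat_lit 98334) (nat_lit 18) (.e (nat_lit 164397) (nat_lit 256) .nil))))))) (.g (nat_lit 4) .nil .nil))))) (.nd (nat_lit 4) (.nd (nat_lit 5) 
(.lf (nat_lit 145482) (.g (nat_lit 2177) (.e (nat_lit 57372) (nat_lit 2) (.e (nat_lit 90172) (nat_lit 14) (.e (nat_lit 180244) (nat_lit 5) (.e (nat_lit 532506) (nat_lit 2) (.e (nat_lit 106537) (nat_lit 12) (.e (nat_lit 57464) (nat_lit 23) (.e (nat_lit 516116) (nat_lit 1) (.e (nat_lit 164399) (nat_lit 256) .nil)))))))) (.g (nat_lit 4) .nil .nil))) 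
(.lf (nat_lit 145514) (.g (nat_lit 2937) (.e (nat_lit 57372) (nat_lit 2) (.e (nat_lit 90172) (nat_lit 14) (.e (nat_lit 180244) (nat_lit 5) (.e (nat_lit 532513) (nat_lit 3) (.e (nat_lit 114714) (nat_lit 22) (.e (nat_lit 90181) (nat_lit 16) (.e (nat_lit 229376) (nat_lit 0) (.e (nat_lit 5938) (nat_lit 322) .nil)))))))) (.g (nat_lit 5) .nil .nil)))) (.nd (nat_lit 5) 
(.lf (nat_lit 145498) (.g (nat_lit 3751) (.e (nat_lit 57372) (nat_lit 2) (.e (nat_lit 90172) (nat_lit 14) (.e (nat_lit 180244) (nat_lit 5) (.e (nat_lit 532513) (nat_lit 3) (.e (nat_lit 114714) (nat_lit 22) (.e (nat_lit 90162) (nat_lit 12) (.e (nat_lit 163844) (nat_lit 0) (.e (nat_lit 5943) (nat_lit 322) .nil)))))))) (.g (nat_lit 7) .nil .nil))) 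
(.lf (nat_lit 145530) (.g (nat_lit 2613) (.e (nat_lit 57372) (nat_lit 2) (.e (nat_lit 90172) (nat_lit 14) (.e (nat_lit 180244) (nat_lit 5) (.e (nat_lit 532513) (nat_lit 3) (.e (nat_lit 114718) (nat_lit 23) (.e (nat_lit 98332) (nat_lit 18) (.e (nat_lit 164400) (nat_lit 256) .nil))))))) (.g (nat_lit 4) .nil .nil)))))) (.nd (nat_lit 3) (.nd (nat_lit 4) (.nd (nat_lit 5) 
(.lf (nat_lit 145478) (.g (nat_lit 2528) (.e (nat_lit 57372) (nat_lit 2) (.e (nat_lit 90172) (nat_lit 14) (.e (nat_lit 180243) (nat_lit 5) (.e (nat_lit 532515) (nat_lit 3) (.e (nat_lit 114719) (nat_lit 23) (.e (nat_lit 98334) (nat_lit 18) (.e (nat_lit 164397) (nat_lit 256) .nil))))))) (.g (nat_lit 4) .nil .nil))) 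
(.lf (nat_lit 145510) (.g (nat_lit 2636) (.e (nat_lit 57372) (nat_lit 2) (.e (nat_lit 90172) (nat_lit 14) (.e (nat_lit 180244) (nat_lit 5) (.e (nat_lit 532513) (nat_lit 3) (.e (nat_lit 114714) (nat_lit 22) (.e (nat_lit 90180) (nat_lit 16) (.e (nat_lit 229379) (nat_lit 0) (.e (nat_lit 5939) (nat_lit 322) .nil)))))))) (.g (nat_lit 4) .nil .nil)))) (.nd (nat_lit 5) 
(.lf (nat_lit 145494) (.g (nat_lit 2599) (.e (nat_lit 57372) (nat_lit 2) (.e (nat_lit 90172) (nat_lit 14) (.e (nat_lit 180244) (nat_lit 5) (.e (nat_lit 532513) (nat_lit 3) (.e (nat_lit 114708) (nat_lit 20) (.e (nat_lit 1800) (nat_lit 119) (.e (nat_lit 516117) (nat_lit 1) (.e (nat_lit 164397) (nat_lit 256) .nil)))))))) (.g (nat_lit 4) .nil .nil))) 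
(.lf (nat_lit 145526) (.g (nat_lit 2899) (.e (nat_lit 57372) (nat_lit 2) (.e (nat_lit 90172) (nat_lit 14) (.e (nat_lit 180244) (nat_lit 5) (.e (nat_lit 532513) (nat_lit 3) (.e (nat_lit 114718) (nat_lit 23) (.e (nat_lit 98325) (nat_lit 17) (.e (nat_lit 2458) (nat_lit 157) (.e (nat_lit 5939) (nat_lit 322) .nil)))))))) (.g (nat_lit 4) .nil .nil))))) (.nd (nat_lit 4) (.nd (nat_lit 5) 
(.lf (nat_lit 145486) (.g (nat_lit 2133) (.e (nat_lit 57372) (nat_lit 2) (.e (nat_lit 90172) (nat_lit 14) (.e (nat_lit 180244) (nat_lit 5) (.e (nat_lit 532511) (nat_lit 2) (.e (nat_lit 106539) (nat_lit 12) (.e (nat_lit 57467) (nat_lit 23) (.e (nat_lit 516115) (nat_lit 1) (.e (nat_lit 164399) (nat_lit 256) .nil)))))))) (.g (nat_lit 4) .nil .nil))) 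
(.lf (nat_lit 145518) (.g (nat_lit 2603) (.e (nat_lit 57372) (nat_lit 2) (.e (nat_lit 90172) (nat_lit 14) (.e (nat_lit 180244) (nat_lit 5) (.e (nat_lit 532513) (nat_lit 3) (.e (nat_lit 114714) (nat_lit 22) (.e (nat_lit 90181) (nat_lit 16) (.e (nat_lit 229378) (nat_lit 0) (.e (nat_lit 5936) (nat_lit 322) .nil)))))))) (.g (nat_lit 4) .nil .nil)))) (.nd (nat_lit 5) 
(.lf (nat_lit 145502) (.g (nat_lit 2359) (.e (nat_lit 57372) (nat_lit 2) (.e (nat_lit 90172) (nat_lit 14) (.e (nat_lit 180244) (nat_lit 5) (.e (nat_lit 532513) (nat_lit 3) (.e (nat_lit 114714) (nat_lit 22) (.e (nat_lit 90164) (nat_lit 12) (.e (nat_lit 163850) (nat_lit 0) (.e (nat_lit 5938) (nat_lit 322) .nil)))))))) (.g (nat_lit 4) .nil .nil))) 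
(.lf (nat_lit 145534) (.g (nat_lit 5026) (.e (nat_lit 57372) (nat_lit 2) (.e (nat_lit 90172) (nat_lit 14) (.e (nat_lit 180244) (nat_lit 5) (.e (nat_lit 532513) (nat_lit 3) (.e (nat_lit 114718) (nat_lit 23) (.e (nat_lit 98333) (nat_lit 18) (.e (nat_lit 164399) (nat_lit 256) .nil))))))) (.g (nat_lit 0) .nil .nil)))))))) 
(.nd (nat_lit 1) (.nd (nat_lit 2) (.nd (nat_lit 3) (.nd (nat_lit 4) (.nd (nat_lit 5) 
(.lf (nat_lit 145473) (.g (nat_lit 2306) (.e (nat_lit 57372) (nat_lit 2) (.e (nat_lit 90172) (nat_lit 14) (.e (nat_lit 180243) (nat_lit 5) (.e (nat_lit 532515) (nat_lit 3) (.e (nat_lit 114719) (nat_lit 23) (.e (nat_lit 98325) (nat_lit 17) (.e (nat_lit 2515) (nat_lit 157) (.e (nat_lit 5934) (nat_lit 322) .nil)))))))) (.g (nat_lit 4) .nil .nil))) 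
(.lf (nat_lit 145505) (.g (nat_lit 2465) (.e (nat_lit 57372) (nat_lit 2) (.e (nat_lit 90172) (nat_lit 14) (.e (nat_lit 180244) (nat_lit 5) (.e (nat_lit 532513) (nat_lit 3) (.e (nat_lit 114714) (nat_lit 22) (.e (nat_lit 90165) (nat_lit 12) (.e (nat_lit 163853) (nat_lit 0) (.e (nat_lit 5934) (nat_lit 322) .nil)))))))) (.g (nat_lit 4) .nil .nil)))) (.nd (nat_lit 5) 
(.lf (nat_lit 145489) (.g (nat_lit 2200) (.e (nat_lit 57372) (nat_lit 2) (.e (nat_lit 90172) (nat_lit 14) (.e (nat_lit 180244) (nat_lit 5) (.e (nat_lit 532511) (nat_lit 2) (.e (nat_lit 114432) (nat_lit 13) (.e (nat_lit 122936) (nat_lit 23) (.e (nat_lit 516115) (nat_lit 1) (.e (nat_lit 164399) (nat_lit 256) .nil)))))))) (.g (nat_lit 4) .nil .nil))) 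
(.lf (nat_lit 145521) (.g (nat_lit 2731) (.e (nat_lit 57372) (nat_lit 2) (.e (nat_lit 90172) (nat_lit 14) (.e (nat_lit 180244) (nat_lit 5) (.e (nat_lit 532513) (nat_lit 3) (.e (nat_lit 114717) (nat_lit 23) (.e (nat_lit 98333) (nat_lit 18) (.e (nat_lit 164400) (nat_lit 256) .nil))))))) (.g (nat_lit 4) .nil .nil))))) (.nd (nat_lit 4) (.nd (nat_lit 5) 
(.lf (nat_lit 145481) (.g (nat_lit 2451) (.e (nat_lit 57372) (nat_lit 2) (.e (nat_lit 90172) (nat_lit 14) (.e (nat_lit 180243) (nat_lit 5) (.e (nat_lit 532515) (nat_lit 3) (.e (nat_lit 114719) (nat_lit 23) (.e (nat_lit 98343) (nat_lit 21) (.e (nat_lit 229707) (nat_lit 256) .nil))))))) (.g (nat_lit 4) .nil .nil))) 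
(.lf (nat_lit 145513) (.g (nat_lit 3775) (.e (nat_lit 57372) (nat_lit 2) (.e (nat_lit 90172) (nat_lit 14) (.e (nat_lit 180244) (nat_lit 5) (.e (nat_lit 532513) (nat_lit 3) (.e (nat_lit 114714) (nat_lit 22) (.e (nat_lit 90181) (nat_lit 16) (.e (nat_lit 229376) (nat_lit 0) (.e (nat_lit 5937) (nat_lit 322) .nil)))))))) (.g (nat_lit 5) .nil .nil)))) (.nd (nat_lit 5) 
(.lf (nat_lit 145497) (.g (nat_lit 3588) (.e (nat_lit 57372) (nat_lit 2) (.e (nat_lit 90172) (nat_lit 14) (.e (nat_lit 180244) (nat_lit 5) (.e (nat_lit 532513) (nat_lit 3) (.e (nat_lit 114714) (nat_lit 22) (.e (nat_lit 90134) (nat_lit 9) (.e (nat_lit 2717) (nat_lit 171) (.e (nat_lit 229707) (nat_lit 256) .nil)))))))) (.g (nat_lit 5) .nil .nil))) 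
(.lf (nat_lit 145529) (.g (nat_lit 2630) (.e (nat_lit 57372) (nat_lit 2) (.e (nat_lit 90172) (nat_lit 14) (.e (nat_lit 180244) (nat_lit 5) (.e (nat_lit 532513) (nat_lit 3) (.e (nat_lit 114718) (nat_lit 23) (.e (nat_lit 98332) (nat_lit 18) (.e (nat_lit 164398) (nat_lit 256) .nil))))))) (.g (nat_lit 4) .nil .nil)))))) (.nd (nat_lit 3) (.nd (nat_lit 4) (.nd (nat_lit 5) 
(.lf (nat_lit 145477) (.g (nat_lit 2326) (.e (nat_lit 57372) (nat_lit 2) (.e (nat_lit 90172) (nat_lit 14) (.e (nat_lit 180243) (nat_lit 5) (.e (nat_lit 532515) (nat_lit 3) (.e (nat_lit 114719) (nat_lit 23) (.e (nat_lit 98334) (nat_lit 18) (.e (nat_lit 164396) (nat_lit 256) .nil))))))) (.g (nat_lit 4) .nil .nil))) 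
(.lf (nat_lit 145509) (.g (nat_lit 3364) (.e (nat_lit 57372) (nat_lit 2) (.e (nat_lit 90172) (nat_lit 14) (.e (nat_lit 180244) (nat_lit 5) (.e (nat_lit 532513) (nat_lit 3) (.e (nat_lit 114714) (nat_lit 22) (.e (nat_lit 90165) (nat_lit 12) (.e (nat_lit 171776) (nat_lit 0) (.e (nat_lit 5939) (nat_lit 322) .nil)))))))) (.g (nat_lit 5) .nil .nil)))) (.nd (nat_lit 5) 
(.lf (nat_lit 145493) (.g (nat_lit 2644) (.e (nat_lit 57372) (nat_lit 2) (.e (nat_lit 90172) (nat_lit 14) (.e (nat_lit 180244) (nat_lit 5) (.e (nat_lit 532513) (nat_lit 3) (.e (nat_lit 114708) (nat_lit 20) (.e (nat_lit 1800) (nat_lit 119) (.e (nat_lit 516117) (nat_lit 1) (.e (nat_lit 164396) (nat_lit 256) .nil)))))))) (.g (nat_lit 4) .nil .nil))) 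
(.lf (nat_lit 145525) (.g (nat_lit 2338) (.e (nat_lit 57372) (nat_lit 2) (.e (nat_lit 90172) (nat_lit 14) (.e (nat_lit 180244) (nat_lit 5) (.e (nat_lit 532513) (nat_lit 3) (.e (nat_lit 114718) (nat_lit 23) (.e (nat_lit 98325) (nat_lit 17) (.e (nat_lit 2458) (nat_lit 157) (.e (nat_lit 5938) (nat_lit 322) .nil)))))))) (.g (nat_lit 4) .nil .nil))))) (.nd (nat_lit 4) (.nd (nat_lit 5) 
(.lf (nat_lit 145485) (.g (nat_lit 2596) (.e (nat_lit 57372) (nat_lit 2) (.e (nat_lit 90172) (nat_lit 14) (.e (nat_lit 180244) (nat_lit 5) (.e (nat_lit 532508) (nat_lit 2) (.e (nat_lit 106539) (nat_lit 12) (.e (nat_lit 57466) (nat_lit 23) (.e (nat_lit 516117) (nat_lit 1) (.e (nat_lit 164400) (nat_lit 256) .nil)))))))) (.g (nat_lit 4) .nil .nil))) 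
(.lf (nat_lit 145517) (.g (nat_lit 2028) (.e (nat_lit 57372) (nat_lit 2) (.e (nat_lit 90172) (nat_lit 14) (.e (nat_lit 180244) (nat_lit 5) (.e (nat_lit 532513) (nat_lit 3) (.e (nat_lit 114714) (nat_lit 22) (.e (nat_lit 90181) (nat_lit 16) (.e (nat_lit 229377) (nat_lit 0) (.e (nat_lit 5934) (nat_lit 322) .nil)))))))) (.g (nat_lit 4) .nil .nil)))) (.nd (nat_lit 5) 
(.lf (nat_lit 145501) (.g (nat_lit 2677) (.e (nat_lit 57372) (nat_lit 2) (.e (nat_lit 90172) (nat_lit 14) (.e (nat_lit 180244) (nat_lit 5) (.e (nat_lit 532513) (nat_lit 3) (.e (nat_lit 114714) (nat_lit 22) (.e (nat_lit 90163) (nat_lit 12) (.e (nat_lit 163850) (nat_lit 0) (.e (nat_lit 5939) (nat_lit 322) .nil)))))))) (.g (nat_lit 4) .nil .nil))) 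
(.lf (nat_lit 145533) (.g (nat_lit 4790) (.e (nat_lit 57372) (nat_lit 2) (.e (nat_lit 90172) (nat_lit 14) (.e (nat_lit 180244) (nat_lit 5) (.e (nat_lit 532513) (nat_lit 3) (.e (nat_lit 114718) (nat_lit 23) (.e (nat_lit 98333) (nat_lit 18) (.e (nat_lit 164398) (nat_lit 256) .nil))))))) (.g (nat_lit 7) .nil .nil))))))) (.nd (nat_lit 2) (.nd (nat_lit 3) (.nd (nat_lit 4) (.nd (nat_lit 5) 
(.lf (nat_lit 145475) (.g (nat_lit 2721) (.e (nat_lit 57372) (nat_lit 2) (.e (nat_lit 90172) (nat_lit 14) (.e (nat_lit 180243) (nat_lit 5) (.e (nat_lit 532515) (nat_lit 3) (.e (nat_lit 114719) (nat_lit 23) (.e (nat_lit 98332) (nat_lit 18) (.e (nat_lit 164400) (nat_lit 256) .nil))))))) (.g (nat_lit 5) .nil .nil))) 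
(.lf (nat_lit 145507) (.g (nat_lit 3905) (.e (nat_lit 57372) (nat_lit 2) (.e (nat_lit 90172) (nat_lit 14) (.e (nat_lit 180244) (nat_lit 5) (.e (nat_lit 532513) (nat_lit 3) (.e (nat_lit 114714) (nat_lit 22) (.e (nat_lit 90165) (nat_lit 12) (.e (nat_lit 171776) (nat_lit 0) (.e (nat_lit 5937) (nat_lit 322) .nil)))))))) (.g (nat_lit 5) .nil .nil)))) (.nd (nat_lit 5) 
(.lf (nat_lit 145491) (.g (nat_lit 1000) (.e (nat_lit 57372) (nat_lit 2) (.e (nat_lit 90172) (nat_lit 14) (.e (nat_lit 180244) (nat_lit 5) (.e (nat_lit 532513) (nat_lit 3) .nil)))) .nil)) 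
(.lf (nat_lit 145523) (.g (nat_lit 3494) (.e (nat_lit 57372) (nat_lit 2) (.e (nat_lit 90172) (nat_lit 14) (.e (nat_lit 180244) (nat_lit 5) (.e (nat_lit 532513) (nat_lit 3) (.e (nat_lit 114717) (nat_lit 23) (.e (nat_lit 98334) (nat_lit 18) (.e (nat_lit 164399) (nat_lit 256) .nil))))))) (.g (nat_lit 6) .nil .nil))))) (.nd (nat_lit 4) (.nd (nat_lit 5) 
(.lf (nat_lit 145483) (.g (nat_lit 2333) (.e (nat_lit 57372) (nat_lit 2) (.e (nat_lit 90172) (nat_lit 14) (.e (nat_lit 180244) (nat_lit 5) (.e (nat_lit 532506) (nat_lit 2) (.e (nat_lit 106541) (nat_lit 13) (.e (nat_lit 122936) (nat_lit 23) (.e (nat_lit 516117) (nat_lit 1) (.e (nat_lit 164400) (nat_lit 256) .nil)))))))) (.g (nat_lit 4) .nil .nil))) 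
(.lf (nat_lit 145515) (.g (nat_lit 3343) (.e (nat_lit 57372) (nat_lit 2) (.e (nat_lit 90172) (nat_lit 14) (.e (nat_lit 180244) (nat_lit 5) (.e (nat_lit 532513) (nat_lit 3) (.e (nat_lit 114714) (nat_lit 22) (.e (nat_lit 90181) (nat_lit 16) (.e (nat_lit 229376) (nat_lit 0) (.e (nat_lit 5939) (nat_lit 322) .nil)))))))) (.g (nat_lit 5) .nil .nil)))) (.nd (nat_lit 5) 
(.lf (nat_lit 145499) (.g (nat_lit 3407) (.e (nat_lit 57372) (nat_lit 2) (.e (nat_lit 90172) (nat_lit 14) (.e (nat_lit 180244) (nat_lit 5) (.e (nat_lit 532513) (nat_lit 3) (.e (nat_lit 114714) (nat_lit 22) (.e (nat_lit 90162) (nat_lit 12) (.e (nat_lit 163849) (nat_lit 0) (.e (nat_lit 5934) (nat_lit 322) .nil)))))))) (.g (nat_lit 5) .nil .nil))) 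
(.lf (nat_lit 145531) (.g (nat_lit 2729) (.e (nat_lit 57372) (nat_lit 2) (.e (nat_lit 90172) (nat_lit 14) (.e (nat_lit 180244) (nat_lit 5) (.e (nat_lit 532513) (nat_lit 3) (.e (nat_lit 114718) (nat_lit 23) (.e (nat_lit 98333) (nat_lit 18) (.e (nat_lit 164396) (nat_lit 256) .nil))))))) (.g (nat_lit 4) .nil .nil)))))) (.nd (nat_lit 3) (.nd (nat_lit 4) (.nd (nat_lit 5) 
(.lf (nat_lit 145479) (.g (nat_lit 4120) (.e (nat_lit 57372) (nat_lit 2) (.e (nat_lit 90172) (nat_lit 14) (.e (nat_lit 180243) (nat_lit 5) (.e (nat_lit 532515) (nat_lit 3) (.e (nat_lit 114719) (nat_lit 23) (.e (nat_lit 98334) (nat_lit 18) (.e (nat_lit 164399) (nat_lit 256) .nil))))))) (.g (nat_lit 6) .nil .nil))) 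
(.lf (nat_lit 145511) (.g (nat_lit 2442) (.e (nat_lit 57372) (nat_lit 2) (.e (nat_lit 90172) (nat_lit 14) (.e (nat_lit 180244) (nat_lit 5) (.e (nat_lit 532513) (nat_lit 3) (.e (nat_lit 114714) (nat_lit 22) (.e (nat_lit 90181) (nat_lit 16) (.e (nat_lit 229376) (nat_lit 0) (.e (nat_lit 5934) (nat_lit 322) .nil)))))))) (.g (nat_lit 4) .nil .nil)))) (.nd (nat_lit 5) 
(.lf (nat_lit 145495) (.g (nat_lit 2844) (.e (nat_lit 57372) (nat_lit 2) (.e (nat_lit 90172) (nat_lit 14) (.e (nat_lit 180244) (nat_lit 5) (.e (nat_lit 532513) (nat_lit 3) (.e (nat_lit 114708) (nat_lit 20) (.e (nat_lit 1800) (nat_lit 119) (.e (nat_lit 516120) (nat_lit 1) (.e (nat_lit 164396) (nat_lit 256) .nil)))))))) (.g (nat_lit 4) .nil .nil))) 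
(.lf (nat_lit 145527) (.g (nat_lit 2297) (.e (nat_lit 57372) (nat_lit 2) (.e (nat_lit 90172) (nat_lit 14) (.e (nat_lit 180244) (nat_lit 5) (.e (nat_lit 532513) (nat_lit 3) (.e (nat_lit 114718) (nat_lit 23) (.e (nat_lit 98325) (nat_lit 17) (.e (nat_lit 2478) (nat_lit 157) (.e (nat_lit 5934) (nat_lit 322) .nil)))))))) (.g (nat_lit 4) .nil .nil))))) (.nd (nat_lit 4) (.nd (nat_lit 5) 
(.lf (nat_lit 145487) (.g (nat_lit 2297) (.e (nat_lit 57372) (nat_lit 2) (.e (nat_lit 90172) (nat_lit 14) (.e (nat_lit 180244) (nat_lit 5) (.e (nat_lit 532511) (nat_lit 2) (.e (nat_lit 106540) (nat_lit 13) (.e (nat_lit 122936) (nat_lit 23) (.e (nat_lit 516115) (nat_lit 1) (.e (nat_lit 164399) (nat_lit 256) .nil)))))))) (.g (nat_lit 4) .nil .nil))) 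
(.lf (nat_lit 145519) (.g (nat_lit 2326) (.e (nat_lit 57372) (nat_lit 2) (.e (nat_lit 90172) (nat_lit 14) (.e (nat_lit 180244) (nat_lit 5) (.e (nat_lit 532513) (nat_lit 3) (.e (nat_lit 114714) (nat_lit 22) (.e (nat_lit 90181) (nat_lit 16) (.e (nat_lit 229380) (nat_lit 0) (.e (nat_lit 5934) (nat_lit 322) .nil)))))))) (.g (nat_lit 4) .nil .nil)))) (.nd (nat_lit 5) 
(.lf (nat_lit 145503) (.g (nat_lit 4338) (.e (nat_lit 57372) (nat_lit 2) (.e (nat_lit 90172) (nat_lit 14) (.e (nat_lit 180244) (nat_lit 5) (.e (nat_lit 532513) (nat_lit 3) (.e (nat_lit 114714) (nat_lit 22) (.e (nat_lit 90164) (nat_lit 12) (.e (nat_lit 163850) (nat_lit 0) (.e (nat_lit 5939) (nat_lit 322) .nil)))))))) (.g (nat_lit 7) .nil .nil))) 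
(.lf (nat_lit 145535) (.g (nat_lit 4559) (.e (nat_lit 57372) (nat_lit 2) (.e (nat_lit 90172) (nat_lit 14) (.e (nat_lit 180244) (nat_lit 5) (.e (nat_lit 532513) (nat_lit 3) (.e (nat_lit 114718) (nat_lit 23) (.e (nat_lit 98333) (nat_lit 18) (.e (nat_lit 164400) (nat_lit 256) .nil))))))) (.g (nat_lit 6) .nil .nil)))))))))

noncomputable def tv1932 : DT := (.nd (nat_lit 0) (.nd (nat_lit 1) (.nd (nat_lit 2) (.nd (nat_lit 3) (.nd (nat_lit 4) (.nd (nat_lit 5) 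
(.lf (nat_lit 145536) (.g (nat_lit 3751) (.e (nat_lit 57372) (nat_lit 2) (.e (nat_lit 90172) (nat_lit 14) (.e (nat_lit 180244) (nat_lit 5) (.e (nat_lit 532513) (nat_lit 3) (.e (nat_lit 114718) (nat_lit 23) (.e (nat_lit 98334) (nat_lit 18) (.e (nat_lit 164396) (nat_lit 256) .nil))))))) (.g (nat_lit 5) .nil .nil))) 
(.lf (nat_lit 145568) (.g (nat_lit 2072) (.e (nat_lit 57372) (nat_lit 2) (.e (nat_lit 90172) (nat_lit 14) (.e (nat_lit 180244) (nat_lit 5) (.e (nat_lit 532515) (nat_lit 3) (.e (nat_lit 114715) (nat_lit 22) (.e (nat_lit 90165) (nat_lit 12) (.e (nat_lit 171776) (nat_lit 0) (.e (nat_lit 5938) (nat_lit 322) .nil)))))))) (.g (nat_lit 4) .nil .nil)))) (.nd (nat_lit 5) 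
(.lf (nat_lit 145552) (.g (nat_lit 4363) (.e (nat_lit 57372) (nat_lit 2) (.e (nat_lit 90172) (nat_lit 14) (.e (nat_lit 180244) (nat_lit 5) (.e (nat_lit 532513) (nat_lit 3) (.e (nat_lit 114719) (nat_lit 23) (.e (nat_lit 98333) (nat_lit 18) (.e (nat_lit 164400) (nat_lit 256) .nil))))))) (.g (nat_lit 6) .nil .nil))) 
(.lf (nat_lit 145584) (.g (nat_lit 2640) (.e (nat_lit 57372) (nat_lit 2) (.e (nat_lit 90172) (nat_lit 14) (.e (nat_lit 180244) (nat_lit 5) (.e (nat_lit 532515) (nat_lit 3) (.e (nat_lit 114716) (nat_lit 22) (.e (nat_lit 90181) (nat_lit 16) (.e (nat_lit 237312) (nat_lit 0) (.e (nat_lit 5936) (nat_lit 322) .nil)))))))) (.g (nat_lit 4) .nil .nil))))) (.nd (nat_lit 4) (.nd (nat_lit 5) 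
(.lf (nat_lit 145544) (.g (nat_lit 3493) (.e (nat_lit 57372) (nat_lit 2) (.e (nat_lit 90172) (nat_lit 14) (.e (nat_lit 180244) (nat_lit 5) (.e (nat_lit 532513) (nat_lit 3) (.e (nat_lit 114719) (nat_lit 23) (.e (nat_lit 98325) (nat_lit 17) (.e (nat_lit 2515) (nat_lit 157) (.e (nat_lit 5934) (nat_lit 322) .nil)))))))) (.g (nat_lit 5) .nil .nil))) 
(.lf (nat_lit 145576) (.g (nat_lit 2170) (.e (nat_lit 57372) (nat_lit 2) (.e (nat_lit 90172) (nat_lit 14) (.e (nat_lit 180244) (nat_lit 5) (.e (nat_lit 532515) (nat_lit 3) (.e (nat_lit 114716) (nat_lit 22) (.e (nat_lit 90179) (nat_lit 16) (.e (nat_lit 229379) (nat_lit 0) (.e (nat_lit 5938) (nat_lit 322) .nil)))))))) (.g (nat_lit 4) .nil .nil)))) (.nd (nat_lit 5) 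
(.lf (nat_lit 145560) (.g (nat_lit 2334) (.e (nat_lit 57372) (nat_lit 2) (.e (nat_lit 90172) (nat_lit 14) (.e (nat_lit 180244) (nat_lit 5) (.e (nat_lit 532514) (nat_lit 3) (.e (nat_lit 114718) (nat_lit 23) (.e (nat_lit 98333) (nat_lit 18) (.e (nat_lit 164400) (nat_lit 256) .nil))))))) (.g (nat_lit 4) .nil .nil))) 
(.lf (nat_lit 145592) (.g (nat_lit 3793) (.e (nat_lit 57372) (nat_lit 2) (.e (nat_lit 90172) (nat_lit 14) (.e (nat_lit 180244) (nat_lit 5) (.e (nat_lit 532515) (nat_lit 3) (.e (nat_lit 114718) (nat_lit 23) (.e (nat_lit 98334) (nat_lit 18) (.e (nat_lit 164397) (nat_lit 256) .nil))))))) (.g (nat_lit 6) .nil .nil)))))) (.nd (nat_lit 3) (.nd (nat_lit 4) (.nd (nat_lit 5) 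
(.lf (nat_lit 145540) (.g (nat_lit 2358) (.e (nat_lit 57372) (nat_lit 2) (.e (nat_lit 90172) (nat_lit 14) (.e (nat_lit 180244) (nat_lit 5) (.e (nat_lit 532513) (nat_lit 3) (.e (nat_lit 114718) (nat_lit 23) (.e (nat_lit 98335) (nat_lit 18) (.e (nat_lit 164396) (nat_lit 256) .nil))))))) (.g (nat_lit 4) .nil .nil))) 
(.lf (nat_lit 145572) (.g (nat_lit 2586) (.e (nat_lit 57372) (nat_lit 2) (.e (nat_lit 90172) (nat_lit 14) (.e (nat_lit 180244) (nat_lit 5) (.e (nat_lit 532515) (nat_lit 3) (.e (nat_lit 114716) (nat_lit 22) (.e (nat_lit 90129) (nat_lit 9) (.e (nat_lit 2604) (nat_lit 163) (.e (nat_lit 164397) (nat_lit 256) .nil)))))))) (.g (nat_lit 4) .nil .nil)))) (.nd (nat_lit 5) 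
(.lf (nat_lit 145556) (.g (nat_lit 2718) (.e (nat_lit 57372) (nat_lit 2) (.e (nat_lit 90172) (nat_lit 14) (.e (nat_lit 180244) (nat_lit 5) (.e (nat_lit 532513) (nat_lit 3) (.e (nat_lit 114719) (nat_lit 23) (.e (nat_lit 98335) (nat_lit 18) (.e (nat_lit 164396) (nat_lit 256) .nil))))))) (.g (nat_lit 4) .nil .nil))) 
(.lf (nat_lit 145588) (.g (nat_lit 3360) (.e (nat_lit 57372) (nat_lit 2) (.e (nat_lit 90172) (nat_lit 14) (.e (nat_lit 180244) (nat_lit 5) (.e (nat_lit 532515) (nat_lit 3) (.e (nat_lit 114717) (nat_lit 23) (.e (nat_lit 98334) (nat_lit 18) (.e (nat_lit 164400) (nat_lit 256) .nil))))))) (.g (nat_lit 6) .nil .nil))))) (.nd (nat_lit 4) (.nd (nat_lit 5) 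
(.lf (nat_lit 145548) (.g (nat_lit 3361) (.e (nat_lit 57372) (nat_lit 2) (.e (nat_lit 90172) (nat_lit 14) (.e (nat_lit 180244) (nat_lit 5) (.e (nat_lit 532513) (nat_lit 3) (.e (nat_lit 114719) (nat_lit 23) (.e (nat_lit 98332) (nat_lit 18) (.e (nat_lit 164400) (nat_lit 256) .nil))))))) (.g (nat_lit 5) .nil .nil))) 
(.lf (nat_lit 145580) (.g (nat_lit 4182) (.e (nat_lit 57372) (nat_lit 2) (.e (nat_lit 90172) (nat_lit 14) (.e (nat_lit 180244) (nat_lit 5) (.e (nat_lit 532515) (nat_lit 3) (.e (nat_lit 114716) (nat_lit 22) (.e (nat_lit 90181) (nat_lit 16) (.e (nat_lit 229376) (nat_lit 0) (.e (nat_lit 5936) (nat_lit 322) .nil)))))))) (.g (nat_lit 7) .nil .nil)))) (.nd (nat_lit 5) 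
(.lf (nat_lit 145564) (.g (nat_lit 2611) (.e (nat_lit 57372) (nat_lit 2) (.e (nat_lit 90172) (nat_lit 14) (.e (nat_lit 180244) (nat_lit 5) (.e (nat_lit 532514) (nat_lit 3) (.e (nat_lit 114719) (nat_lit 23) (.e (nat_lit 98334) (nat_lit 18) (.e (nat_lit 164400) (nat_lit 256) .nil))))))) (.g (nat_lit 5) .nil .nil))) 
(.lf (nat_lit 145596) (.g (nat_lit 2942) (.e (nat_lit 57372) (nat_lit 2) (.e (nat_lit 90172) (nat_lit 14) (.e (nat_lit 180244) (nat_lit 5) (.e (nat_lit 532515) (nat_lit 3) (.e (nat_lit 114719) (nat_lit 23) (.e (nat_lit 98332) (nat_lit 18) (.e (nat_lit 164397) (nat_lit 256) .nil))))))) (.g (nat_lit 5) .nil .nil))))))) (.nd (nat_lit 2) (.nd (nat_lit 3) (.nd (nat_lit 4) (.nd (nat_lit 5) 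
(.lf (nat_lit 145538) (.g (nat_lit 5220) (.e (nat_lit 57372) (nat_lit 2) (.e (nat_lit 90172) (nat_lit 14) (.e (nat_lit 180244) (nat_lit 5) (.e (nat_lit 532513) (nat_lit 3) (.e (nat_lit 114718) (nat_lit 23) (.e (nat_lit 98334) (nat_lit 18) (.e (nat_lit 164398) (nat_lit 256) .nil))))))) (.g (nat_lit 7) .nil .nil))) 
(.lf (nat_lit 145570) (.g (nat_lit 3492) (.e (nat_lit 57372) (nat_lit 2) (.e (nat_lit 90172) (nat_lit 14) (.e (nat_lit 180244) (nat_lit 5) (.e (nat_lit 532515) (nat_lit 3) (.e (nat_lit 114716) (nat_lit 22) (.e (nat_lit 90128) (nat_lit 9) (.e (nat_lit 2615) (nat_lit 163) (.e (nat_lit 164400) (nat_lit 256) .nil)))))))) (.g (nat_lit 6) .nil .nil)))) (.nd (nat_lit 5) 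
(.lf (nat_lit 145554) (.g (nat_lit 4247) (.e (nat_lit 57372) (nat_lit 2) (.e (nat_lit 90172) (nat_lit 14) (.e (nat_lit 180244) (nat_lit 5) (.e (nat_lit 532513) (nat_lit 3) (.e (nat_lit 114719) (nat_lit 23) (.e (nat_lit 98334) (nat_lit 18) (.e (nat_lit 164397) (nat_lit 256) .nil))))))) (.g (nat_lit 6) .nil .nil))) 
(.lf (nat_lit 145586) (.g (nat_lit 2440) (.e (nat_lit 57372) (nat_lit 2) (.e (nat_lit 90172) (nat_lit 14) (.e (nat_lit 180244) (nat_lit 5) (.e (nat_lit 532515) (nat_lit 3) (.e (nat_lit 114717) (nat_lit 23) (.e (nat_lit 98334) (nat_lit 18) (.e (nat_lit 164396) (nat_lit 256) .nil))))))) (.g (nat_lit 4) .nil .nil))))) (.nd (nat_lit 4) (.nd (nat_lit 5) 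
(.lf (nat_lit 145546) (.g (nat_lit 3324) (.e (nat_lit 57372) (nat_lit 2) (.e (nat_lit 90172) (nat_lit 14) (.e (nat_lit 180244) (nat_lit 5) (.e (nat_lit 532513) (nat_lit 3) (.e (nat_lit 114719) (nat_lit 23) (.e (nat_lit 98332) (nat_lit 18) (.e (nat_lit 164398) (nat_lit 256) .nil))))))) (.g (nat_lit 5) .nil .nil))) 
(.lf (nat_lit 145578) (.g (nat_lit 2182) (.e (nat_lit 57372) (nat_lit 2) (.e (nat_lit 90172) (nat_lit 14) (.e (nat_lit 180244) (nat_lit 5) (.e (nat_lit 532515) (nat_lit 3) (.e (nat_lit 114716) (nat_lit 22) (.e (nat_lit 90180) (nat_lit 16) (.e (nat_lit 229379) (nat_lit 0) (.e (nat_lit 5938) (nat_lit 322) .nil)))))))) (.g (nat_lit 4) .nil .nil)))) (.nd (nat_lit 5) 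
(.lf (nat_lit 145562) (.g (nat_lit 2899) (.e (nat_lit 57372) (nat_lit 2) (.e (nat_lit 90172) (nat_lit 14) (.e (nat_lit 180244) (nat_lit 5) (.e (nat_lit 532514) (nat_lit 3) (.e (nat_lit 114719) (nat_lit 23) (.e (nat_lit 98333) (nat_lit 18) (.e (nat_lit 164399) (nat_lit 256) .nil))))))) (.g (nat_lit 5) .nil .nil))) 
(.lf (nat_lit 145594) (.g (nat_lit 2762) (.e (nat_lit 57372) (nat_lit 2) (.e (nat_lit 90172) (nat_lit 14) (.e (nat_lit 180244) (nat_lit 5) (.e (nat_lit 532515) (nat_lit 3) (.e (nat_lit 114719) (nat_lit 23) (.e (nat_lit 98325) (nat_lit 17) (.e (nat_lit 2458) (nat_lit 157) (.e (nat_lit 5939) (nat_lit 322) .nil)))))))) (.g (nat_lit 5) .nil .nil)))))) 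
(.nd (nat_lit 3) (.nd (nat_lit 4) (.nd (nat_lit 5) 
(.lf (nat_lit 145542) (.g (nat_lit 2435) (.e (nat_lit 57372) (nat_lit 2) (.e (nat_lit 90172) (nat_lit 14) (.e (nat_lit 180244) (nat_lit 5) (.e (nat_lit 532513) (nat_lit 3) (.e (nat_lit 114719) (nat_lit 23) (.e (nat_lit 98325) (nat_lit 17) (.e (nat_lit 2458) (nat_lit 157) (.e (nat_lit 5938) (nat_lit 322) .nil)))))))) (.g (nat_lit 4) .nil .nil))) 
(.lf (nat_lit 145574) (.g (nat_lit 2265) (.e (nat_lit 57372) (nat_lit 2) (.e (nat_lit 90172) (nat_lit 14) (.e (nat_lit 180244) (nat_lit 5) (.e (nat_lit 532515) (nat_lit 3) (.e (nat_lit 114716) (nat_lit 22) (.e (nat_lit 90163) (nat_lit 12) (.e (nat_lit 163844) (nat_lit 0) (.e (nat_lit 5943) (nat_lit 322) .nil)))))))) (.g (nat_lit 5) .nil .nil)))) (.nd (nat_lit 5) 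
(.lf (nat_lit 145558) (.g (nat_lit 2006) (.e (nat_lit 57372) (nat_lit 2) (.e (nat_lit 90172) (nat_lit 14) (.e (nat_lit 180244) (nat_lit 5) (.e (nat_lit 532514) (nat_lit 3) (.e (nat_lit 114717) (nat_lit 23) (.e (nat_lit 98333) (nat_lit 18) (.e (nat_lit 164399) (nat_lit 256) .nil))))))) (.g (nat_lit 4) .nil .nil))) 
(.lf (nat_lit 145590) (.g (nat_lit 3911) (.e (nat_lit 57372) (nat_lit 2) (.e (nat_lit 90172) (nat_lit 14) (.e (nat_lit 180244) (nat_lit 5) (.e (nat_lit 532515) (nat_lit 3) (.e (nat_lit 114718) (nat_lit 23) (.e (nat_lit 98333) (nat_lit 18) (.e (nat_lit 164400) (nat_lit 256) .nil))))))) (.g (nat_lit 6) .nil .nil))))) (.nd (nat_lit 4) (.nd (nat_lit 5) 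
(.lf (nat_lit 145550) (.g (nat_lit 3687) (.e (nat_lit 57372) (nat_lit 2) (.e (nat_lit 90172) (nat_lit 14) (.e (nat_lit 180244) (nat_lit 5) (.e (nat_lit 532513) (nat_lit 3) (.e (nat_lit 114719) (nat_lit 23) (.e (nat_lit 98333) (nat_lit 18) (.e (nat_lit 164397) (nat_lit 256) .nil))))))) (.g (nat_lit 5) .nil .nil))) 
(.lf (nat_lit 145582) (.g (nat_lit 3534) (.e (nat_lit 57372) (nat_lit 2) (.e (nat_lit 90172) (nat_lit 14) (.e (nat_lit 180244) (nat_lit 5) (.e (nat_lit 532515) (nat_lit 3) (.e (nat_lit 114716) (nat_lit 22) (.e (nat_lit 90181) (nat_lit 16) (.e (nat_lit 229378) (nat_lit 0) (.e (nat_lit 5936) (nat_lit 322) .nil)))))))) (.g (nat_lit 5) .nil .nil)))) (.nd (nat_lit 5) 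
(.lf (nat_lit 145566) (.g (nat_lit 3112) (.e (nat_lit 57372) (nat_lit 2) (.e (nat_lit 90172) (nat_lit 14) (.e (nat_lit 180244) (nat_lit 5) (.e (nat_lit 532515) (nat_lit 3) (.e (nat_lit 114715) (nat_lit 22) (.e (nat_lit 90165) (nat_lit 12) (.e (nat_lit 171776) (nat_lit 0) (.e (nat_lit 5936) (nat_lit 322) .nil)))))))) (.g (nat_lit 5) .nil .nil))) 
(.lf (nat_lit 145598) (.g (nat_lit 2194) (.e (nat_lit 57372) (nat_lit 2) (.e (nat_lit 90172) (nat_lit 14) (.e (nat_lit 180244) (nat_lit 5) (.e (nat_lit 532515) (nat_lit 3) (.e (nat_lit 114719) (nat_lit 23) (.e (nat_lit 98333) (nat_lit 18) (.e (nat_lit 164396) (nat_lit 256) .nil))))))) (.g (nat_lit 4) .nil .nil)))))))) 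
(.nd (nat_lit 1) (.nd (nat_lit 2) (.nd (nat_lit 3) (.nd (nat_lit 4) (.nd (nat_lit 5) 
(.lf (nat_lit 145537) (.g (nat_lit 4187) (.e (nat_lit 57372) (nat_lit 2) (.e (nat_lit 90172) (nat_lit 14) (.e (nat_lit 180244) (nat_lit 5) (.e (nat_lit 532513) (nat_lit 3) (.e (nat_lit 114718) (nat_lit 23) (.e (nat_lit 98334) (nat_lit 18) (.e (nat_lit 164397) (nat_lit 256) .nil))))))) (.g (nat_lit 6) .nil .nil))) 
(.lf (nat_lit 145569) (.g (nat_lit 1452) (.e (nat_lit 57372) (nat_lit 2) (.e (nat_lit 90172) (nat_lit 14) (.e (nat_lit 180244) (nat_lit 5) (.e (nat_lit 532515) (nat_lit 3) (.e (nat_lit 114716) (nat_lit 22) .nil))))) .nil))) (.nd (nat_lit 5) 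
(.lf (nat_lit 145553) (.g (nat_lit 3538) (.e (nat_lit 57372) (nat_lit 2) (.e (nat_lit 90172) (nat_lit 14) (.e (nat_lit 180244) (nat_lit 5) (.e (nat_lit 532513) (nat_lit 3) (.e (nat_lit 114719) (nat_lit 23) (.e (nat_lit 98334) (nat_lit 18) (.e (nat_lit 164396) (nat_lit 256) .nil))))))) (.g (nat_lit 5) .nil .nil))) 
(.lf (nat_lit 145585) (.g (nat_lit 3483) (.e (nat_lit 57372) (nat_lit 2) (.e (nat_lit 90172) (nat_lit 14) (.e (nat_lit 180244) (nat_lit 5) (.e (nat_lit 532515) (nat_lit 3) (.e (nat_lit 114716) (nat_lit 22) (.e (nat_lit 90182) (nat_lit 16) (.e (nat_lit 229379) (nat_lit 0) (.e (nat_lit 5939) (nat_lit 322) .nil)))))))) (.g (nat_lit 5) .nil .nil))))) (.nd (nat_lit 4) (.nd (nat_lit 5) 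
(.lf (nat_lit 145545) (.g (nat_lit 2669) (.e (nat_lit 57372) (nat_lit 2) (.e (nat_lit 90172) (nat_lit 14) (.e (nat_lit 180244) (nat_lit 5) (.e (nat_lit 532513) (nat_lit 3) (.e (nat_lit 114719) (nat_lit 23) (.e (nat_lit 98332) (nat_lit 18) (.e (nat_lit 164397) (nat_lit 256) .nil))))))) (.g (nat_lit 4) .nil .nil))) 
(.lf (nat_lit 145577) (.g (nat_lit 3401) (.e (nat_lit 57372) (nat_lit 2) (.e (nat_lit 90172) (nat_lit 14) (.e (nat_lit 180244) (nat_lit 5) (.e (nat_lit 532515) (nat_lit 3) (.e (nat_lit 114716) (nat_lit 22) (.e (nat_lit 90179) (nat_lit 16) (.e (nat_lit 229379) (nat_lit 0) (.e (nat_lit 5939) (nat_lit 322) .nil)))))))) (.g (nat_lit 5) .nil .nil)))) (.nd (nat_lit 5) 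
(.lf (nat_lit 145561) (.g (nat_lit 2833) (.e (nat_lit 57372) (nat_lit 2) (.e (nat_lit 90172) (nat_lit 14) (.e (nat_lit 180244) (nat_lit 5) (.e (nat_lit 532514) (nat_lit 3) (.e (nat_lit 114718) (nat_lit 23) (.e (nat_lit 98334) (nat_lit 18) (.e (nat_lit 164400) (nat_lit 256) .nil))))))) (.g (nat_lit 5) .nil .nil))) 
(.lf (nat_lit 145593) (.g (nat_lit 4743) (.e (nat_lit 57372) (nat_lit 2) (.e (nat_lit 90172) (nat_lit 14) (.e (nat_lit 180244) (nat_lit 5) (.e (nat_lit 532515) (nat_lit 3) (.e (nat_lit 114718) (nat_lit 23) (.e (nat_lit 98334) (nat_lit 18) (.e (nat_lit 164398) (nat_lit 256) .nil))))))) (.g (nat_lit 7) .nil .nil)))))) (.nd (nat_lit 3) (.nd (nat_lit 4) (.nd (nat_lit 5) 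
(.lf (nat_lit 145541) (.g (nat_lit 2722) (.e (nat_lit 57372) (nat_lit 2) (.e (nat_lit 90172) (nat_lit 14) (.e (nat_lit 180244) (nat_lit 5) (.e (nat_lit 532513) (nat_lit 3) (.e (nat_lit 114718) (nat_lit 23) (.e (nat_lit 98343) (nat_lit 21) (.e (nat_lit 229707) (nat_lit 256) .nil))))))) (.g (nat_lit 4) .nil .nil))) 
(.lf (nat_lit 145573) (.g (nat_lit 2846) (.e (nat_lit 57372) (nat_lit 2) (.e (nat_lit 90172) (nat_lit 14) (.e (nat_lit 180244) (nat_lit 5) (.e (nat_lit 532515) (nat_lit 3) (.e (nat_lit 114716) (nat_lit 22) (.e (nat_lit 90140) (nat_lit 9) (.e (nat_lit 2611) (nat_lit 163) (.e (nat_lit 164396) (nat_lit 256) .nil)))))))) (.g (nat_lit 5) .nil .nil)))) (.nd (nat_lit 5) 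
(.lf (nat_lit 145557) (.g (nat_lit 2998) (.e (nat_lit 57372) (nat_lit 2) (.e (nat_lit 90172) (nat_lit 14) (.e (nat_lit 180244) (nat_lit 5) (.e (nat_lit 532513) (nat_lit 3) (.e (nat_lit 114719) (nat_lit 23) (.e (nat_lit 98343) (nat_lit 21) (.e (nat_lit 229707) (nat_lit 256) .nil))))))) (.g (nat_lit 4) .nil .nil))) 
(.lf (nat_lit 145589) (.g (nat_lit 3069) (.e (nat_lit 57372) (nat_lit 2) (.e (nat_lit 90172) (nat_lit 14) (.e (nat_lit 180244) (nat_lit 5) (.e (nat_lit 532515) (nat_lit 3) (.e (nat_lit 114718) (nat_lit 23) (.e (nat_lit 98333) (nat_lit 18) (.e (nat_lit 164397) (nat_lit 256) .nil))))))) (.g (nat_lit 5) .nil .nil))))) (.nd (nat_lit 4) (.nd (nat_lit 5) 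
(.lf (nat_lit 145549) (.g (nat_lit 2559) (.e (nat_lit 57372) (nat_lit 2) (.e (nat_lit 90172) (nat_lit 14) (.e (nat_lit 180244) (nat_lit 5) (.e (nat_lit 532513) (nat_lit 3) (.e (nat_lit 114719) (nat_lit 23) (.e (nat_lit 98333) (nat_lit 18) (.e (nat_lit 164396) (nat_lit 256) .nil))))))) (.g (nat_lit 4) .nil .nil))) 
(.lf (nat_lit 145581) (.g (nat_lit 3211) (.e (nat_lit 57372) (nat_lit 2) (.e (nat_lit 90172) (nat_lit 14) (.e (nat_lit 180244) (nat_lit 5) (.e (nat_lit 532515) (nat_lit 3) (.e (nat_lit 114716) (nat_lit 22) (.e (nat_lit 90181) (nat_lit 16) (.e (nat_lit 229377) (nat_lit 0) (.e (nat_lit 5934) (nat_lit 322) .nil)))))))) (.g (nat_lit 6) .nil .nil)))) (.nd (nat_lit 5) 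
(.lf (nat_lit 145565) (.g (nat_lit 1075) (.e (nat_lit 57372) (nat_lit 2) (.e (nat_lit 90172) (nat_lit 14) (.e (nat_lit 180244) (nat_lit 5) (.e (nat_lit 532515) (nat_lit 3) .nil)))) .nil)) 
(.lf (nat_lit 145597) (.g (nat_lit 3634) (.e (nat_lit 57372) (nat_lit 2) (.e (nat_lit 90172) (nat_lit 14) (.e (nat_lit 180244) (nat_lit 5) (.e (nat_lit 532515) (nat_lit 3) (.e (nat_lit 114719) (nat_lit 23) (.e (nat_lit 98332) (nat_lit 18) (.e (nat_lit 164400) (nat_lit 256) .nil))))))) (.g (nat_lit 0) .nil .nil))))))) (.nd (nat_lit 2) (.nd (nat_lit 3) (.nd (nat_lit 4) (.nd (nat_lit 5) 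
(.lf (nat_lit 145539) (.g (nat_lit 4750) (.e (nat_lit 57372) (nat_lit 2) (.e (nat_lit 90172) (nat_lit 14) (.e (nat_lit 180244) (nat_lit 5) (.e (nat_lit 532513) (nat_lit 3) (.e (nat_lit 114718) (nat_lit 23) (.e (nat_lit 98334) (nat_lit 18) (.e (nat_lit 164400) (nat_lit 256) .nil))))))) (.g (nat_lit 7) .nil .nil))) 
(.lf (nat_lit 145571) (.g (nat_lit 2590) (.e (nat_lit 57372) (nat_lit 2) (.e (nat_lit 90172) (nat_lit 14) (.e (nat_lit 180244) (nat_lit 5) (.e (nat_lit 532515) (nat_lit 3) (.e (nat_lit 114716) (nat_lit 22) (.e (nat_lit 90129) (nat_lit 9) (.e (nat_lit 2603) (nat_lit 163) (.e (nat_lit 164397) (nat_lit 256) .nil)))))))) (.g (nat_lit 4) .nil .nil)))) (.nd (nat_lit 5) 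
(.lf (nat_lit 145555) (.g (nat_lit 5104) (.e (nat_lit 57372) (nat_lit 2) (.e (nat_lit 90172) (nat_lit 14) (.e (nat_lit 180244) (nat_lit 5) (.e (nat_lit 532513) (nat_lit 3) (.e (nat_lit 114719) (nat_lit 23) (.e (nat_lit 98334) (nat_lit 18) (.e (nat_lit 164398) (nat_lit 256) .nil))))))) (.g (nat_lit 7) .nil .nil))) 
(.lf (nat_lit 145587) (.g (nat_lit 2950) (.e (nat_lit 57372) (nat_lit 2) (.e (nat_lit 90172) (nat_lit 14) (.e (nat_lit 180244) (nat_lit 5) (.e (nat_lit 532515) (nat_lit 3) (.e (nat_lit 114717) (nat_lit 23) (.e (nat_lit 98334) (nat_lit 18) (.e (nat_lit 164397) (nat_lit 256) .nil))))))) (.g (nat_lit 5) .nil .nil))))) (.nd (nat_lit 4) (.nd (nat_lit 5) 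
(.lf (nat_lit 145547) (.g (nat_lit 3598) (.e (nat_lit 57372) (nat_lit 2) (.e (nat_lit 90172) (nat_lit 14) (.e (nat_lit 180244) (nat_lit 5) (.e (nat_lit 532513) (nat_lit 3) (.e (nat_lit 114719) (nat_lit 23) (.e (nat_lit 98332) (nat_lit 18) (.e (nat_lit 164399) (nat_lit 256) .nil))))))) (.g (nat_lit 5) .nil .nil))) 
(.lf (nat_lit 145579) (.g (nat_lit 3414) (.e (nat_lit 57372) (nat_lit 2) (.e (nat_lit 90172) (nat_lit 14) (.e (nat_lit 180244) (nat_lit 5) (.e (nat_lit 532515) (nat_lit 3) (.e (nat_lit 114716) (nat_lit 22) (.e (nat_lit 90180) (nat_lit 16) (.e (nat_lit 229379) (nat_lit 0) (.e (nat_lit 5939) (nat_lit 322) .nil)))))))) (.g (nat_lit 5) .nil .nil)))) (.nd (nat_lit 5) 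
(.lf (nat_lit 145563) (.g (nat_lit 2766) (.e (nat_lit 57372) (nat_lit 2) (.e (nat_lit 90172) (nat_lit 14) (.e (nat_lit 180244) (nat_lit 5) (.e (nat_lit 532514) (nat_lit 3) (.e (nat_lit 114719) (nat_lit 23) (.e (nat_lit 98334) (nat_lit 18) (.e (nat_lit 164399) (nat_lit 256) .nil))))))) (.g (nat_lit 5) .nil .nil))) 
(.lf (nat_lit 145595) (.g (nat_lit 2298) (.e (nat_lit 57372) (nat_lit 2) (.e (nat_lit 90172) (nat_lit 14) (.e (nat_lit 180244) (nat_lit 5) (.e (nat_lit 532515) (nat_lit 3) (.e (nat_lit 114719) (nat_lit 23) (.e (nat_lit 98332) (nat_lit 18) (.e (nat_lit 164396) (nat_lit 256) .nil))))))) (.g (nat_lit 4) .nil .nil)))))) (.nd (nat_lit 3) (.nd (nat_lit 4) (.nd (nat_lit 5) 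
(.lf (nat_lit 145543) (.g (nat_lit 2394) (.e (nat_lit 57372) (nat_lit 2) (.e (nat_lit 90172) (nat_lit 14) (.e (nat_lit 180244) (nat_lit 5) (.e (nat_lit 532513) (nat_lit 3) (.e (nat_lit 114719) (nat_lit 23) (.e (nat_lit 98325) (nat_lit 17) (.e (nat_lit 2478) (nat_lit 157) (.e (nat_lit 5934) (nat_lit 322) .nil)))))))) (.g (nat_lit 4) .nil .nil))) 
(.lf (nat_lit 145575) (.g (nat_lit 2086) (.e (nat_lit 57372) (nat_lit 2) (.e (nat_lit 90172) (nat_lit 14) (.e (nat_lit 180244) (nat_lit 5) (.e (nat_lit 532515) (nat_lit 3) (.e (nat_lit 114716) (nat_lit 22) (.e (nat_lit 90164) (nat_lit 12) (.e (nat_lit 163850) (nat_lit 0) (.e (nat_lit 5938) (nat_lit 322) .nil)))))))) (.g (nat_lit 4) .nil .nil)))) (.nd (nat_lit 5) 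
(.lf (nat_lit 145559) (.g (nat_lit 2767) (.e (nat_lit 57372) (nat_lit 2) (.e (nat_lit 90172) (nat_lit 14) (.e (nat_lit 180244) (nat_lit 5) (.e (nat_lit 532514) (nat_lit 3) (.e (nat_lit 114718) (nat_lit 23) (.e (nat_lit 98333) (nat_lit 18) (.e (nat_lit 164399) (nat_lit 256) .nil))))))) (.g (nat_lit 5) .nil .nil))) 
(.lf (nat_lit 145591) (.g (nat_lit 3135) (.e (nat_lit 57372) (nat_lit 2) (.e (nat_lit 90172) (nat_lit 14) (.e (nat_lit 180244) (nat_lit 5) (.e (nat_lit 532515) (nat_lit 3) (.e (nat_lit 114718) (nat_lit 23) (.e (nat_lit 98334) (nat_lit 18) (.e (nat_lit 164396) (nat_lit 256) .nil))))))) (.g (nat_lit 5) .nil .nil))))) (.nd (nat_lit 4) (.nd (nat_lit 5) 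
(.lf (nat_lit 145551) (.g (nat_lit 4690) (.e (nat_lit 57372) (nat_lit 2) (.e (nat_lit 90172) (nat_lit 14) (.e (nat_lit 180244) (nat_lit 5) (.e (nat_lit 532513) (nat_lit 3) (.e (nat_lit 114719) (nat_lit 23) (.e (nat_lit 98333) (nat_lit 18) (.e (nat_lit 164398) (nat_lit 256) .nil))))))) (.g (nat_lit 7) .nil .nil))) 
(.lf (nat_lit 145583) (.g (nat_lit 3288) (.e (nat_lit 57372) (nat_lit 2) (.e (nat_lit 90172) (nat_lit 14) (.e (nat_lit 180244) (nat_lit 5) (.e (nat_lit 532515) (nat_lit 3) (.e (nat_lit 114716) (nat_lit 22) (.e (nat_lit 90181) (nat_lit 16) (.e (nat_lit 229380) (nat_lit 0) (.e (nat_lit 5934) (nat_lit 322) .nil)))))))) (.g (nat_lit 6) .nil .nil)))) (.nd (nat_lit 5) 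
(.lf (nat_lit 145567) (.g (nat_lit 3669) (.e (nat_lit 57372) (nat_lit 2) (.e (nat_lit 90172) (nat_lit 14) (.e (nat_lit 180244) (nat_lit 5) (.e (nat_lit 532515) (nat_lit 3) (.e (nat_lit 114715) (nat_lit 22) (.e (nat_lit 90165) (nat_lit 12) (.e (nat_lit 171776) (nat_lit 0) (.e (nat_lit 5937) (nat_lit 322) .nil)))))))) (.g (nat_lit 6) .nil .nil))) 
(.lf (nat_lit 145599) (.g (nat_lit 3242) (.e (nat_lit 57372) (nat_lit 2) (.e (nat_lit 90172) (nat_lit 14) (.e (nat_lit 180244) (nat_lit 5) (.e (nat_lit 532515) (nat_lit 3) (.e (nat_lit 114719) (nat_lit 23) (.e (nat_lit 98333) (nat_lit 18) (.e (nat_lit 164397) (nat_lit 256) .nil))))))) (.g (nat_lit 5) .nil .nil)))))))))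

noncomputable def tv1933 : DT := (.nd (nat_lit 0) (.nd (nat_lit 1) (.nd (nat_lit 2) (.nd (nat_lit 3) (.nd (nat_lit 4) (.nd (nat_lit 5) 
(.lf (nat_lit 145600) (.g (nat_lit 4362) (.e (nat_lit 57372) (nat_lit 2) (.e (nat_lit 90172) (nat_lit 14) (.e (nat_lit 180244) (nat_lit 5) (.e (nat_lit 532515) (nat_lit 3) (.e (nat_lit 114719) (nat_lit 23) (.e (nat_lit 98333) (nat_lit 18) (.e (nat_lit 164398) (nat_lit 256) .nil))))))) (.g (nat_lit 7) .nil .nil))) 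
(.lf (nat_lit 145632) (.g (nat_lit 2891) (.e (nat_lit 57372) (nat_lit 2) (.e (nat_lit 90172) (nat_lit 14) (.e (nat_lit 180250) (nat_lit 10) (.e (nat_lit 573484) (nat_lit 13) (.e (nat_lit 65569) (nat_lit 3) (.e (nat_lit 98325) (nat_lit 17) (.e (nat_lit 2442) (nat_lit 157) (.e (nat_lit 6828) (nat_lit 367) .nil)))))))) (.g (nat_lit 4) .nil .nil)))) (.nd (nat_lit 5) 
(.lf (nat_lit 145616) (.g (nat_lit 2248) (.e (nat_lit 57372) (nat_lit 2) (.e (nat_lit 90172) (nat_lit 14) (.e (nat_lit 180250) (nat_lit 10) (.e (nat_lit 573481) (nat_lit 13) (.e (nat_lit 65568) (nat_lit 2) .nil))))) .nil)) 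
(.lf (nat_lit 145648) (.g (nat_lit 3202) (.e (nat_lit 57372) (nat_lit 2) (.e (nat_lit 90172) (nat_lit 14) (.e (nat_lit 180250) (nat_lit 10) (.e (nat_lit 573487) (nat_lit 14) (.e (nat_lit 73747) (nat_lit 3) (.e (nat_lit 516097) (nat_lit 0) (.e (nat_lit 2430) (nat_lit 157) (.e (nat_lit 6828) (nat_lit 367) .nil)))))))) (.g (nat_lit 4) .nil .nil))))) (.nd (nat_lit 4) (.nd (nat_lit 5) 
(.lf (nat_lit 145608) (.g (nat_lit 4185) (.e (nat_lit 57372) (nat_lit 2) (.e (nat_lit 90172) (nat_lit 14) (.e (nat_lit 180244) (nat_lit 5) (.e (nat_lit 532579) (nat_lit 26) (.e (nat_lit 426139) (nat_lit 3) (.e (nat_lit 204829) (nat_lit 18) (.e (nat_lit 65280) (nat_lit 166) .nil))))))) (.g (nat_lit 6) .nil .nil))) 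
(.lf (nat_lit 145640) (.g (nat_lit 2630) (.e (nat_lit 57372) (nat_lit 2) (.e (nat_lit 90172) (nat_lit 14) (.e (nat_lit 180250) (nat_lit 10) (.e (nat_lit 573485) (nat_lit 13) (.e (nat_lit 65570) (nat_lit 3) (.e (nat_lit 98334) (nat_lit 18) (.e (nat_lit 171776) (nat_lit 160) .nil))))))) (.g (nat_lit 4) .nil .nil)))) (.nd (nat_lit 5) 
(.lf (nat_lit 145624) (.g (nat_lit 2382) (.e (nat_lit 57372) (nat_lit 2) (.e (nat_lit 90172) (nat_lit 14) (.e (nat_lit 180250) (nat_lit 10) (.e (nat_lit 573482) (nat_lit 13) (.e (nat_lit 65571) (nat_lit 3) .nil))))) .nil)) 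
(.lf (nat_lit 145656) (.g (nat_lit 2495) (.e (nat_lit 57372) (nat_lit 2) (.e (nat_lit 90172) (nat_lit 14) (.e (nat_lit 180252) (nat_lit 10) (.e (nat_lit 573489) (nat_lit 14) (.e (nat_lit 73755) (nat_lit 8) .nil))))) .nil))))) (.nd (nat_lit 3) (.nd (nat_lit 4) (.nd (nat_lit 5) 
(.lf (nat_lit 145604) (.g (nat_lit 4821) (.e (nat_lit 57372) (nat_lit 2) (.e (nat_lit 90172) (nat_lit 14) (.e (nat_lit 180244) (nat_lit 5) (.e (nat_lit 532515) (nat_lit 3) (.e (nat_lit 114719) (nat_lit 23) (.e (nat_lit 98334) (nat_lit 18) (.e (nat_lit 164398) (nat_lit 256) .nil))))))) (.g (nat_lit 7) .nil .nil))) 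
(.lf (nat_lit 145636) (.g (nat_lit 3010) (.e (nat_lit 57372) (nat_lit 2) (.e (nat_lit 90172) (nat_lit 14) (.e (nat_lit 180250) (nat_lit 10) (.e (nat_lit 573484) (nat_lit 13) (.e (nat_lit 65571) (nat_lit 3) (.e (nat_lit 98334) (nat_lit 18) (.e (nat_lit 171776) (nat_lit 160) .nil))))))) (.g (nat_lit 4) .nil .nil)))) (.nd (nat_lit 5) 
(.lf (nat_lit 145620) (.g (nat_lit 2616) (.e (nat_lit 57372) (nat_lit 2) (.e (nat_lit 90172) (nat_lit 14) (.e (nat_lit 180250) (nat_lit 10) (.e (nat_lit 573482) (nat_lit 13) (.e (nat_lit 65569) (nat_lit 3) (.e (nat_lit 98319) (nat_lit 17) (.e (nat_lit 2399) (nat_lit 157) (.e (nat_lit 6828) (nat_lit 367) .nil)))))))) (.g (nat_lit 4) .nil .nil))) 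
(.lf (nat_lit 145652) (.g (nat_lit 2438) (.e (nat_lit 57372) (nat_lit 2) (.e (nat_lit 90172) (nat_lit 14) (.e (nat_lit 180250) (nat_lit 10) (.e (nat_lit 573487) (nat_lit 14) (.e (nat_lit 73753) (nat_lit 8) .nil))))) .nil)))) (.nd (nat_lit 4) (.nd (nat_lit 5) 
(.lf (nat_lit 145612) (.g (nat_lit 3099) (.e (nat_lit 57372) (nat_lit 2) (.e (nat_lit 90172) (nat_lit 14) (.e (nat_lit 180250) (nat_lit 10) (.e (nat_lit 573451) (nat_lit 9) (.e (nat_lit 1449) (nat_lit 108) (.e (nat_lit 336013) (nat_lit 2) (.e (nat_lit 90165) (nat_lit 12) (.e (nat_lit 163849) (nat_lit 0) (.e (nat_lit 6828) (nat_lit 367) .nil))))))))) (.g (nat_lit 4) .nil .nil))) 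
(.lf (nat_lit 145644) (.g (nat_lit 3843) (.e (nat_lit 57372) (nat_lit 2) (.e (nat_lit 90172) (nat_lit 14) (.e (nat_lit 180250) (nat_lit 10) (.e (nat_lit 573487) (nat_lit 14) (.e (nat_lit 73746) (nat_lit 3) (.e (nat_lit 516117) (nat_lit 1) (.e (nat_lit 171776) (nat_lit 160) .nil))))))) (.g (nat_lit 5) .nil .nil)))) (.nd (nat_lit 5) 
(.lf (nat_lit 145628) (.g (nat_lit 2645) (.e (nat_lit 57372) (nat_lit 2) (.e (nat_lit 90172) (nat_lit 14) (.e (nat_lit 180250) (nat_lit 10) (.e (nat_lit 573484) (nat_lit 13) (.e (nat_lit 65568) (nat_lit 2) .nil))))) .nil)) 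
(.lf (nat_lit 145660) (.g (nat_lit 3050) (.e (nat_lit 57372) (nat_lit 2) (.e (nat_lit 90174) (nat_lit 14) (.e (nat_lit 180243) (nat_lit 5) (.e (nat_lit 532508) (nat_lit 2) (.e (nat_lit 106541) (nat_lit 13) (.e (nat_lit 122936) (nat_lit 23) (.e (nat_lit 516117) (nat_lit 1) (.e (nat_lit 164400) (nat_lit 256) .nil)))))))) (.g (nat_lit 4) .nil .nil))))))) 
(.nd (nat_lit 2) (.nd (nat_lit 3) (.nd (nat_lit 4) (.nd (nat_lit 5) 
(.lf (nat_lit 145602) (.g (nat_lit 3256) (.e (nat_lit 57372) (nat_lit 2) (.e (nat_lit 90172) (nat_lit 14) (.e (nat_lit 180244) (nat_lit 5) (.e (nat_lit 532515) (nat_lit 3) (.e (nat_lit 114719) (nat_lit 23) (.e (nat_lit 98334) (nat_lit 18) (.e (nat_lit 164396) (nat_lit 256) .nil))))))) (.g (nat_lit 5) .nil .nil))) 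
(.lf (nat_lit 145634) (.g (nat_lit 2770) (.e (nat_lit 57372) (nat_lit 2) (.e (nat_lit 90172) (nat_lit 14) (.e (nat_lit 180250) (nat_lit 10) (.e (nat_lit 573484) (nat_lit 13) (.e (nat_lit 65571) (nat_lit 3) .nil))))) .nil))) (.nd (nat_lit 5) 
(.lf (nat_lit 145618) (.g (nat_lit 2365) (.e (nat_lit 57372) (nat_lit 2) (.e (nat_lit 90172) (nat_lit 14) (.e (nat_lit 180250) (nat_lit 10) (.e (nat_lit 573482) (nat_lit 13) (.e (nat_lit 65566) (nat_lit 2) .nil))))) .nil)) 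
(.lf (nat_lit 145650) (.g (nat_lit 4213) (.e (nat_lit 57372) (nat_lit 2) (.e (nat_lit 90172) (nat_lit 14) (.e (nat_lit 180250) (nat_lit 10) (.e (nat_lit 573487) (nat_lit 14) (.e (nat_lit 73747) (nat_lit 3) (.e (nat_lit 516119) (nat_lit 1) (.e (nat_lit 171776) (nat_lit 160) .nil))))))) (.g (nat_lit 5) .nil .nil))))) (.nd (nat_lit 4) (.nd (nat_lit 5) 
(.lf (nat_lit 145610) (.g (nat_lit 2319) (.e (nat_lit 57372) (nat_lit 2) (.e (nat_lit 90172) (nat_lit 14) (.e (nat_lit 180245) (nat_lit 5) (.e (nat_lit 532515) (nat_lit 3) (.e (nat_lit 114719) (nat_lit 23) (.e (nat_lit 98333) (nat_lit 18) (.e (nat_lit 164399) (nat_lit 256) .nil))))))) (.g (nat_lit 4) .nil .nil))) 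
(.lf (nat_lit 145642) (.g (nat_lit 2961) (.e (nat_lit 57372) (nat_lit 2) (.e (nat_lit 90172) (nat_lit 14) (.e (nat_lit 180250) (nat_lit 10) (.e (nat_lit 573487) (nat_lit 14) (.e (nat_lit 73746) (nat_lit 3) (.e (nat_lit 516100) (nat_lit 0) (.e (nat_lit 2430) (nat_lit 157) (.e (nat_lit 6828) (nat_lit 367) .nil)))))))) (.g (nat_lit 4) .nil .nil)))) (.nd (nat_lit 5) 
(.lf (nat_lit 145626) (.g (nat_lit 2822) (.e (nat_lit 57372) (nat_lit 2) (.e (nat_lit 90172) (nat_lit 14) (.e (nat_lit 180250) (nat_lit 10) (.e (nat_lit 573482) (nat_lit 13) (.e (nat_lit 73472) (nat_lit 18) (.e (nat_lit 204839) (nat_lit 21) (.e (nat_lit 123194) (nat_lit 266) .nil))))))) (.g (nat_lit 4) .nil .nil))) 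
(.lf (nat_lit 145658) (.g (nat_lit 2153) (.e (nat_lit 57372) (nat_lit 2) (.e (nat_lit 90174) (nat_lit 14) (.e (nat_lit 180243) (nat_lit 5) (.e (nat_lit 532506) (nat_lit 2) (.e (nat_lit 106538) (nat_lit 12) (.e (nat_lit 57465) (nat_lit 23) (.e (nat_lit 516115) (nat_lit 1) (.e (nat_lit 164399) (nat_lit 256) .nil)))))))) (.g (nat_lit 4) .nil .nil)))))) 
(.nd (nat_lit 3) (.nd (nat_lit 4) (.nd (nat_lit 5) 
(.lf (nat_lit 145606) (.g (nat_lit 2733) (.e (nat_lit 57372) (nat_lit 2) (.e (nat_lit 90172) (nat_lit 14) (.e (nat_lit 180244) (nat_lit 5) (.e (nat_lit 532515) (nat_lit 3) (.e (nat_lit 114719) (nat_lit 23) (.e (nat_lit 98344) (nat_lit 21) (.e (nat_lit 229707) (nat_lit 256) .nil))))))) (.g (nat_lit 5) .nil .nil))) 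
(.lf (nat_lit 145638) (.g (nat_lit 2740) (.e (nat_lit 57372) (nat_lit 2) (.e (nat_lit 90172) (nat_lit 14) (.e (nat_lit 180250) (nat_lit 10) (.e (nat_lit 573485) (nat_lit 13) (.e (nat_lit 65570) (nat_lit 3) (.e (nat_lit 98319) (nat_lit 17) (.e (nat_lit 2399) (nat_lit 157) (.e (nat_lit 6828) (nat_lit 367) .nil)))))))) (.g (nat_lit 4) .nil .nil)))) (.nd (nat_lit 5) 
(.lf (nat_lit 145622) (.g (nat_lit 3238) (.e (nat_lit 57372) (nat_lit 2) (.e (nat_lit 90172) (nat_lit 14) (.e (nat_lit 180250) (nat_lit 10) (.e (nat_lit 573482) (nat_lit 13) (.e (nat_lit 65569) (nat_lit 3) (.e (nat_lit 98334) (nat_lit 18) (.e (nat_lit 171776) (nat_lit 160) .nil))))))) (.g (nat_lit 5) .nil .nil))) 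
(.lf (nat_lit 145654) (.g (nat_lit 3076) (.e (nat_lit 57372) (nat_lit 2) (.e (nat_lit 90172) (nat_lit 14) (.e (nat_lit 180250) (nat_lit 10) (.e (nat_lit 573488) (nat_lit 14) (.e (nat_lit 73747) (nat_lit 3) (.e (nat_lit 516115) (nat_lit 1) (.e (nat_lit 171776) (nat_lit 160) .nil))))))) (.g (nat_lit 4) .nil .nil))))) (.nd (nat_lit 4) (.nd (nat_lit 5) 
(.lf (nat_lit 145614) (.g (nat_lit 2644) (.e (nat_lit 57372) (nat_lit 2) (.e (nat_lit 90172) (nat_lit 14) (.e (nat_lit 180250) (nat_lit 10) (.e (nat_lit 573480) (nat_lit 13) (.e (nat_lit 65571) (nat_lit 3) (.e (nat_lit 98319) (nat_lit 17) (.e (nat_lit 2399) (nat_lit 157) (.e (nat_lit 6828) (nat_lit 367) .nil)))))))) (.g (nat_lit 4) .nil .nil))) 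
(.lf (nat_lit 145646) (.g (nat_lit 3806) (.e (nat_lit 57372) (nat_lit 2) (.e (nat_lit 90172) (nat_lit 14) (.e (nat_lit 180250) (nat_lit 10) (.e (nat_lit 573487) (nat_lit 14) (.e (nat_lit 73746) (nat_lit 3) (.e (nat_lit 516120) (nat_lit 1) (.e (nat_lit 171776) (nat_lit 160) .nil))))))) (.g (nat_lit 5) .nil .nil)))) (.nd (nat_lit 5) 
(.lf (nat_lit 145630) (.g (nat_lit 3105) (.e (nat_lit 57372) (nat_lit 2) (.e (nat_lit 90172) (nat_lit 14) (.e (nat_lit 180250) (nat_lit 10) (.e (nat_lit 573484) (nat_lit 13) (.e (nat_lit 65569) (nat_lit 3) (.e (nat_lit 98319) (nat_lit 17) (.e (nat_lit 2399) (nat_lit 157) (.e (nat_lit 6828) (nat_lit 367) .nil)))))))) (.g (nat_lit 4) .nil .nil))) 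
(.lf (nat_lit 145662) (.g (nat_lit 2517) (.e (nat_lit 57372) (nat_lit 2) (.e (nat_lit 90174) (nat_lit 14) (.e (nat_lit 180243) (nat_lit 5) (.e (nat_lit 532510) (nat_lit 2) (.e (nat_lit 106540) (nat_lit 13) (.e (nat_lit 122936) (nat_lit 23) (.e (nat_lit 516115) (nat_lit 1) (.e (nat_lit 164398) (nat_lit 256) .nil)))))))) (.g (nat_lit 4) .nil .nil)))))))) 
(.nd (nat_lit 1) (.nd (nat_lit 2) (.nd (nat_lit 3) (.nd (nat_lit 4) (.nd (nat_lit 5) 
(.lf (nat_lit 145601) (.g (nat_lit 4019) (.e (nat_lit 57372) (nat_lit 2) (.e (nat_lit 90172) (nat_lit 14) (.e (nat_lit 180244) (nat_lit 5) (.e (nat_lit 532515) (nat_lit 3) (.e (nat_lit 114719) (nat_lit 23) (.e (nat_lit 98333) (nat_lit 18) (.e (nat_lit 164400) (nat_lit 256) .nil))))))) (.g (nat_lit 6) .nil .nil))) 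
(.lf (nat_lit 145633) (.g (nat_lit 4188) (.e (nat_lit 57372) (nat_lit 2) (.e (nat_lit 90172) (nat_lit 14) (.e (nat_lit 180250) (nat_lit 10) (.e (nat_lit 573484) (nat_lit 13) (.e (nat_lit 65569) (nat_lit 3) (.e (nat_lit 98334) (nat_lit 18) (.e (nat_lit 171776) (nat_lit 160) .nil))))))) (.g (nat_lit 5) .nil .nil)))) (.nd (nat_lit 5) 
(.lf (nat_lit 145617) (.g (nat_lit 2795) (.e (nat_lit 57372) (nat_lit 2) (.e (nat_lit 90172) (nat_lit 14) (.e (nat_lit 180250) (nat_lit 10) (.e (nat_lit 573481) (nat_lit 13) (.e (nat_lit 73472) (nat_lit 18) (.e (nat_lit 204840) (nat_lit 21) (.e (nat_lit 123194) (nat_lit 266) .nil))))))) (.g (nat_lit 4) .nil .nil))) 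
(.lf (nat_lit 145649) (.g (nat_lit 4713) (.e (nat_lit 57372) (nat_lit 2) (.e (nat_lit 90172) (nat_lit 14) (.e (nat_lit 180250) (nat_lit 10) (.e (nat_lit 573487) (nat_lit 14) (.e (nat_lit 73747) (nat_lit 3) (.e (nat_lit 516115) (nat_lit 1) (.e (nat_lit 171776) (nat_lit 160) .nil))))))) (.g (nat_lit 6) .nil .nil))))) (.nd (nat_lit 4) (.nd (nat_lit 5) 
(.lf (nat_lit 145609) (.g (nat_lit 3770) (.e (nat_lit 57372) (nat_lit 2) (.e (nat_lit 90172) (nat_lit 14) (.e (nat_lit 180244) (nat_lit 5) (.e (nat_lit 532579) (nat_lit 26) (.e (nat_lit 426139) (nat_lit 3) (.e (nat_lit 204830) (nat_lit 18) (.e (nat_lit 65280) (nat_lit 166) .nil))))))) (.g (nat_lit 6) .nil .nil))) 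
(.lf (nat_lit 145641) (.g (nat_lit 2512) (.e (nat_lit 57372) (nat_lit 2) (.e (nat_lit 90172) (nat_lit 14) (.e (nat_lit 180250) (nat_lit 10) (.e (nat_lit 573485) (nat_lit 13) (.e (nat_lit 65571) (nat_lit 3) (.e (nat_lit 98334) (nat_lit 18) (.e (nat_lit 171776) (nat_lit 160) .nil))))))) (.g (nat_lit 4) .nil .nil)))) (.nd (nat_lit 5) 
(.lf (nat_lit 145625) (.g (nat_lit 2480) (.e (nat_lit 57372) (nat_lit 2) (.e (nat_lit 90172) (nat_lit 14) (.e (nat_lit 180250) (nat_lit 10) (.e (nat_lit 573482) (nat_lit 13) (.e (nat_lit 65571) (nat_lit 3) (.e (nat_lit 98325) (nat_lit 17) (.e (nat_lit 2442) (nat_lit 157) (.e (nat_lit 6828) (nat_lit 367) .nil)))))))) (.g (nat_lit 4) .nil .nil))) 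
(.lf (nat_lit 145657) (.g (nat_lit 1506) (.e (nat_lit 57372) (nat_lit 2) (.e (nat_lit 90172) (nat_lit 14) (.e (nat_lit 180285) (nat_lit 45) (.e (nat_lit 2569) (nat_lit 160) (.e (nat_lit 32807) (nat_lit 18) (.e (nat_lit 172070) (nat_lit 4) (.e (nat_lit 237312) (nat_lit 262) .nil))))))) (.g (nat_lit 5) .nil .nil)))))) (.nd (nat_lit 3) (.nd (nat_lit 4) (.nd (nat_lit 5) 
(.lf (nat_lit 145605) (.g (nat_lit 3461) (.e (nat_lit 57372) (nat_lit 2) (.e (nat_lit 90172) (nat_lit 14) (.e (nat_lit 180244) (nat_lit 5) (.e (nat_lit 532515) (nat_lit 3) (.e (nat_lit 114719) (nat_lit 23) (.e (nat_lit 98343) (nat_lit 21) (.e (nat_lit 229707) (nat_lit 256) .nil))))))) (.g (nat_lit 6) .nil .nil))) 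
(.lf (nat_lit 145637) (.g (nat_lit 3171) (.e (nat_lit 57372) (nat_lit 2) (.e (nat_lit 90172) (nat_lit 14) (.e (nat_lit 180250) (nat_lit 10) (.e (nat_lit 573485) (nat_lit 13) (.e (nat_lit 65569) (nat_lit 3) (.e (nat_lit 98334) (nat_lit 18) (.e (nat_lit 171776) (nat_lit 160) .nil))))))) (.g (nat_lit 5) .nil .nil)))) (.nd (nat_lit 5) 
(.lf (nat_lit 145621) (.g (nat_lit 2364) (.e (nat_lit 57372) (nat_lit 2) (.e (nat_lit 90172) (nat_lit 14) (.e (nat_lit 180250) (nat_lit 10) (.e (nat_lit 573482) (nat_lit 13) (.e (nat_lit 65569) (nat_lit 3) (.e (nat_lit 98325) (nat_lit 17) (.e (nat_lit 2442) (nat_lit 157) (.e (nat_lit 6828) (nat_lit 367) .nil)))))))) (.g (nat_lit 4) .nil .nil))) 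
(.lf (nat_lit 145653) (.g (nat_lit 3051) (.e (nat_lit 57372) (nat_lit 2) (.e (nat_lit 90172) (nat_lit 14) (.e (nat_lit 180250) (nat_lit 10) (.e (nat_lit 573487) (nat_lit 14) (.e (nat_lit 73755) (nat_lit 8) .nil))))) .nil)))) (.nd (nat_lit 4) (.nd (nat_lit 5) 
(.lf (nat_lit 145613) (.g (nat_lit 2591) (.e (nat_lit 57372) (nat_lit 2) (.e (nat_lit 90172) (nat_lit 14) (.e (nat_lit 180250) (nat_lit 10) (.e (nat_lit 573480) (nat_lit 13) (.e (nat_lit 65568) (nat_lit 2) (.e (nat_lit 90165) (nat_lit 12) (.e (nat_lit 163849) (nat_lit 0) (.e (nat_lit 6828) (nat_lit 367) .nil)))))))) (.g (nat_lit 4) .nil .nil))) 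
(.lf (nat_lit 145645) (.g (nat_lit 3790) (.e (nat_lit 57372) (nat_lit 2) (.e (nat_lit 90172) (nat_lit 14) (.e (nat_lit 180250) (nat_lit 10) (.e (nat_lit 573487) (nat_lit 14) (.e (nat_lit 73746) (nat_lit 3) (.e (nat_lit 516119) (nat_lit 1) (.e (nat_lit 171776) (nat_lit 160) .nil))))))) (.g (nat_lit 5) .nil .nil)))) (.nd (nat_lit 5) 
(.lf (nat_lit 145629) (.g (nat_lit 2554) (.e (nat_lit 57372) (nat_lit 2) (.e (nat_lit 90172) (nat_lit 14) (.e (nat_lit 180250) (nat_lit 10) (.e (nat_lit 573484) (nat_lit 13) (.e (nat_lit 65569) (nat_lit 3) .nil))))) .nil)) 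
(.lf (nat_lit 145661) (.g (nat_lit 2593) (.e (nat_lit 57372) (nat_lit 2) (.e (nat_lit 90174) (nat_lit 14) (.e (nat_lit 180243) (nat_lit 5) (.e (nat_lit 532508) (nat_lit 2) (.e (nat_lit 114432) (nat_lit 13) (.e (nat_lit 122936) (nat_lit 23) (.e (nat_lit 516115) (nat_lit 1) (.e (nat_lit 164398) (nat_lit 256) .nil)))))))) (.g (nat_lit 4) .nil .nil))))))) 
(.nd (nat_lit 2) (.nd (nat_lit 3) (.nd (nat_lit 4) (.nd (nat_lit 5) 
(.lf (nat_lit 145603) (.g (nat_lit 3604) (.e (nat_lit 57372) (nat_lit 2) (.e (nat_lit 90172) (nat_lit 14) (.e (nat_lit 180244) (nat_lit 5) (.e (nat_lit 532515) (nat_lit 3) (.e (nat_lit 114719) (nat_lit 23) (.e (nat_lit 98334) (nat_lit 18) (.e (nat_lit 164397) (nat_lit 256) .nil))))))) (.g (nat_lit 6) .nil .nil))) 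
(.lf (nat_lit 145635) (.g (nat_lit 3284) (.e (nat_lit 57372) (nat_lit 2) (.e (nat_lit 90172) (nat_lit 14) (.e (nat_lit 180250) (nat_lit 10) (.e (nat_lit 573484) (nat_lit 13) (.e (nat_lit 65571) (nat_lit 3) (.e (nat_lit 98319) (nat_lit 17) (.e (nat_lit 2399) (nat_lit 157) (.e (nat_lit 6828) (nat_lit 367) .nil)))))))) (.g (nat_lit 4) .nil .nil)))) (.nd (nat_lit 5) 
(.lf (nat_lit 145619) (.g (nat_lit 2262) (.e (nat_lit 57372) (nat_lit 2) (.e (nat_lit 90172) (nat_lit 14) (.e (nat_lit 180250) (nat_lit 10) (.e (nat_lit 573482) (nat_lit 13) (.e (nat_lit 65569) (nat_lit 3) .nil))))) .nil)) 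
(.lf (nat_lit 145651) (.g (nat_lit 2993) (.e (nat_lit 57372) (nat_lit 2) (.e (nat_lit 90172) (nat_lit 14) (.e (nat_lit 180250) (nat_lit 10) (.e (nat_lit 573487) (nat_lit 14) (.e (nat_lit 73747) (nat_lit 3) (.e (nat_lit 516120) (nat_lit 1) (.e (nat_lit 171776) (nat_lit 160) .nil))))))) (.g (nat_lit 4) .nil .nil))))) (.nd (nat_lit 4) (.nd (nat_lit 5) 
(.lf (nat_lit 145611) (.g (nat_lit 474) (.e (nat_lit 57372) (nat_lit 2) (.e (nat_lit 90172) (nat_lit 14) (.e (nat_lit 180250) (nat_lit 10) .nil))) .nil)) 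
(.lf (nat_lit 145643) (.g (nat_lit 4267) (.e (nat_lit 57372) (nat_lit 2) (.e (nat_lit 90172) (nat_lit 14) (.e (nat_lit 180250) (nat_lit 10) (.e (nat_lit 573487) (nat_lit 14) (.e (nat_lit 73746) (nat_lit 3) (.e (nat_lit 516115) (nat_lit 1) (.e (nat_lit 171776) (nat_lit 160) .nil))))))) (.g (nat_lit 5) .nil .nil)))) (.nd (nat_lit 5) 
(.lf (nat_lit 145627) (.g (nat_lit 3142) (.e (nat_lit 57372) (nat_lit 2) (.e (nat_lit 90172) (nat_lit 14) (.e (nat_lit 180250) (nat_lit 10) (.e (nat_lit 573484) (nat_lit 13) (.e (nat_lit 65566) (nat_lit 2) (.e (nat_lit 90165) (nat_lit 12) (.e (nat_lit 163849) (nat_lit 0) (.e (nat_lit 6828) (nat_lit 367) .nil)))))))) (.g (nat_lit 4) .nil .nil))) 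
(.lf (nat_lit 145659) (.g (nat_lit 2319) (.e (nat_lit 57372) (nat_lit 2) (.e (nat_lit 90174) (nat_lit 14) (.e (nat_lit 180243) (nat_lit 5) (.e (nat_lit 532508) (nat_lit 2) (.e (nat_lit 106537) (nat_lit 12) (.e (nat_lit 57467) (nat_lit 23) (.e (nat_lit 516115) (nat_lit 1) (.e (nat_lit 164399) (nat_lit 256) .nil)))))))) (.g (nat_lit 4) .nil .nil)))))) 
(.nd (nat_lit 3) (.nd (nat_lit 4) (.nd (nat_lit 5) 
(.lf (nat_lit 145607) (.g (nat_lit 2864) (.e (nat_lit 57372) (nat_lit 2) (.e (nat_lit 90172) (nat_lit 14) (.e (nat_lit 180244) (nat_lit 5) (.e (nat_lit 532579) (nat_lit 26) (.e (nat_lit 426139) (nat_lit 3) (.e (nat_lit 204815) (nat_lit 17) (.e (nat_lit 974) (nat_lit 81) (.e (nat_lit 7695) (nat_lit 412) .nil)))))))) (.g (nat_lit 4) .nil .nil))) 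
(.lf (nat_lit 145639) (.g (nat_lit 2783) (.e (nat_lit 57372) (nat_lit 2) (.e (nat_lit 90172) (nat_lit 14) (.e (nat_lit 180250) (nat_lit 10) (.e (nat_lit 573485) (nat_lit 13) (.e (nat_lit 65570) (nat_lit 3) (.e (nat_lit 98333) (nat_lit 18) (.e (nat_lit 171776) (nat_lit 160) .nil))))))) (.g (nat_lit 4) .nil .nil)))) (.nd (nat_lit 5) 
(.lf (nat_lit 145623) (.g (nat_lit 2669) (.e (nat_lit 57372) (nat_lit 2) (.e (nat_lit 90172) (nat_lit 14) (.e (nat_lit 180250) (nat_lit 10) (.e (nat_lit 573482) (nat_lit 13) (.e (nat_lit 65570) (nat_lit 3) .nil))))) .nil)) 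
(.lf (nat_lit 145655) (.g (nat_lit 2788) (.e (nat_lit 57372) (nat_lit 2) (.e (nat_lit 90172) (nat_lit 14) (.e (nat_lit 180250) (nat_lit 10) (.e (nat_lit 573488) (nat_lit 14) (.e (nat_lit 73755) (nat_lit 8) .nil))))) .nil)))) (.nd (nat_lit 4) (.nd (nat_lit 5) 
(.lf (nat_lit 145615) (.g (nat_lit 1699) (.e (nat_lit 57372) (nat_lit 2) (.e (nat_lit 90172) (nat_lit 14) (.e (nat_lit 180250) (nat_lit 10) (.e (nat_lit 573481) (nat_lit 13) .nil)))) .nil)) 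
(.lf (nat_lit 145647) (.g (nat_lit 2592) (.e (nat_lit 57372) (nat_lit 2) (.e (nat_lit 90172) (nat_lit 14) (.e (nat_lit 180250) (nat_lit 10) (.e (nat_lit 573487) (nat_lit 14) (.e (nat_lit 73747) (nat_lit 3) (.e (nat_lit 516097) (nat_lit 0) (.e (nat_lit 2399) (nat_lit 157) (.e (nat_lit 6828) (nat_lit 367) .nil)))))))) (.g (nat_lit 4) .nil .nil)))) (.nd (nat_lit 5) 
(.lf (nat_lit 145631) (.g (nat_lit 2694) (.e (nat_lit 57372) (nat_lit 2) (.e (nat_lit 90172) (nat_lit 14) (.e (nat_lit 180250) (nat_lit 10) (.e (nat_lit 573484) (nat_lit 13) (.e (nat_lit 65569) (nat_lit 3) (.e (nat_lit 98325) (nat_lit 17) (.e (nat_lit 2416) (nat_lit 157) (.e (nat_lit 6828) (nat_lit 367) .nil)))))))) (.g (nat_lit 4) .nil .nil))) 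
(.lf (nat_lit 145663) (.g (nat_lit 2661) (.e (nat_lit 57372) (nat_lit 2) (.e (nat_lit 90174) (nat_lit 14) (.e (nat_lit 180243) (nat_lit 5) (.e (nat_lit 532510) (nat_lit 2) (.e (nat_lit 106541) (nat_lit 13) (.e (nat_lit 122936) (nat_lit 23) (.e (nat_lit 516117) (nat_lit 1) (.e (nat_lit 164400) (nat_lit 256) .nil)))))))) (.g (nat_lit 4) .nil .nil)))))))))

noncomputable def tv1934 : DT := (.nd (nat_lit 0) (.nd (nat_lit 1) (.nd (nat_lit 2) (.nd (nat_lit 3) (.nd (nat_lit 4) (.nd (nat_lit 5) 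
(.lf (nat_lit 145664) (.g (nat_lit 2550) (.e (nat_lit 57372) (nat_lit 2) (.e (nat_lit 90174) (nat_lit 14) (.e (nat_lit 180243) (nat_lit 5) (.e (nat_lit 532511) (nat_lit 2) (.e (nat_lit 106537) (nat_lit 12) (.e (nat_lit 57464) (nat_lit 23) (.e (nat_lit 516116) (nat_lit 1) (.e (nat_lit 164398) (nat_lit 256) .nil)))))))) (.g (nat_lit 4) .nil .nil))) 
(.lf (nat_lit 145696) (.g (nat_lit 2977) (.e (nat_lit 57372) (nat_lit 2) (.e (nat_lit 90174) (nat_lit 14) (.e (nat_lit 180250) (nat_lit 10) (.e (nat_lit 573487) (nat_lit 14) (.e (nat_lit 73746) (nat_lit 3) (.e (nat_lit 516119) (nat_lit 1) (.e (nat_lit 171776) (nat_lit 160) .nil))))))) (.g (nat_lit 4) .nil .nil)))) (.nd (nat_lit 5) 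
(.lf (nat_lit 145680) (.g (nat_lit 4066) (.e (nat_lit 57372) (nat_lit 2) (.e (nat_lit 90174) (nat_lit 14) (.e (nat_lit 180243) (nat_lit 5) (.e (nat_lit 532513) (nat_lit 3) (.e (nat_lit 114719) (nat_lit 23) (.e (nat_lit 98333) (nat_lit 18) (.e (nat_lit 164398) (nat_lit 256) .nil))))))) (.g (nat_lit 6) .nil .nil))) 
(.lf (nat_lit 145712) (.g (nat_lit 346) (.e (nat_lit 57372) (nat_lit 2) (.e (nat_lit 90176) (nat_lit 15) (.e (nat_lit 196352) (nat_lit 18) .nil))) .nil)))) (.nd (nat_lit 4) (.nd (nat_lit 5) 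
(.lf (nat_lit 145672) (.g (nat_lit 4268) (.e (nat_lit 57372) (nat_lit 2) (.e (nat_lit 90174) (nat_lit 14) (.e (nat_lit 180243) (nat_lit 5) (.e (nat_lit 532513) (nat_lit 3) (.e (nat_lit 114718) (nat_lit 23) (.e (nat_lit 98333) (nat_lit 18) (.e (nat_lit 164398) (nat_lit 256) .nil))))))) (.g (nat_lit 6) .nil .nil))) 
(.lf (nat_lit 145704) (.g (nat_lit 1699) (.e (nat_lit 57372) (nat_lit 2) (.e (nat_lit 90176) (nat_lit 15) (.e (nat_lit 188421) (nat_lit 11) (.e (nat_lit 336387) (nat_lit 27) (.e (nat_lit 426100) (nat_lit 1) (.e (nat_lit 164400) (nat_lit 256) .nil)))))) (.g (nat_lit 4) .nil .nil)))) (.nd (nat_lit 5) 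
(.lf (nat_lit 145688) (.g (nat_lit 2604) (.e (nat_lit 57372) (nat_lit 2) (.e (nat_lit 90174) (nat_lit 14) (.e (nat_lit 180243) (nat_lit 5) (.e (nat_lit 532515) (nat_lit 3) (.e (nat_lit 114719) (nat_lit 23) (.e (nat_lit 98332) (nat_lit 18) (.e (nat_lit 164400) (nat_lit 256) .nil))))))) (.g (nat_lit 4) .nil .nil))) 
(.lf (nat_lit 145720) (.g (nat_lit 2515) (.e (nat_lit 57372) (nat_lit 2) (.e (nat_lit 90176) (nat_lit 15) (.e (nat_lit 188439) (nat_lit 20) (.e (nat_lit 3270) (nat_lit 199) (.e (nat_lit 548913) (nat_lit 18) (.e (nat_lit 172138) (nat_lit 15) (.e (nat_lit 1009) (nat_lit 81) (.e (nat_lit 6930) (nat_lit 373) .nil)))))))) (.g (nat_lit 6) .nil .nil)))))) 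
(.nd (nat_lit 3) (.nd (nat_lit 4) (.nd (nat_lit 5) 
(.lf (nat_lit 145668) (.g (nat_lit 3083) (.e (nat_lit 57372) (nat_lit 2) (.e (nat_lit 90174) (nat_lit 14) (.e (nat_lit 180243) (nat_lit 5) (.e (nat_lit 532511) (nat_lit 2) (.e (nat_lit 114432) (nat_lit 13) (.e (nat_lit 122936) (nat_lit 23) (.e (nat_lit 516117) (nat_lit 1) (.e (nat_lit 164400) (nat_lit 256) .nil)))))))) (.g (nat_lit 4) .nil .nil))) 
(.lf (nat_lit 145700) (.g (nat_lit 2379) (.e (nat_lit 57372) (nat_lit 2) (.e (nat_lit 90174) (nat_lit 14) (.e (nat_lit 180251) (nat_lit 10) (.e (nat_lit 573489) (nat_lit 14) (.e (nat_lit 73748) (nat_lit 3) .nil))))) .nil))) (.nd (nat_lit 5) 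
(.lf (nat_lit 145684) (.g (nat_lit 3383) (.e (nat_lit 57372) (nat_lit 2) (.e (nat_lit 90174) (nat_lit 14) (.e (nat_lit 180243) (nat_lit 5) (.e (nat_lit 532513) (nat_lit 3) (.e (nat_lit 114719) (nat_lit 23) (.e (nat_lit 98334) (nat_lit 18) (.e (nat_lit 164400) (nat_lit 256) .nil))))))) (.g (nat_lit 4) .nil .nil))) 
(.lf (nat_lit 145716) (.g (nat_lit 1764) (.e (nat_lit 57372) (nat_lit 2) (.e (nat_lit 90176) (nat_lit 15) (.e (nat_lit 188439) (nat_lit 20) (.e (nat_lit 3270) (nat_lit 199) (.e (nat_lit 548898) (nat_lit 14) (.e (nat_lit 3063) (nat_lit 190) (.e (nat_lit 475156) (nat_lit 21) (.e (nat_lit 6930) (nat_lit 373) .nil)))))))) (.g (nat_lit 5) .nil .nil))))) (.nd (nat_lit 4) (.nd (nat_lit 5) 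
(.lf (nat_lit 145676) (.g (nat_lit 4664) (.e (nat_lit 57372) (nat_lit 2) (.e (nat_lit 90174) (nat_lit 14) (.e (nat_lit 180243) (nat_lit 5) (.e (nat_lit 532513) (nat_lit 3) (.e (nat_lit 114718) (nat_lit 23) (.e (nat_lit 98334) (nat_lit 18) (.e (nat_lit 164399) (nat_lit 256) .nil))))))) (.g (nat_lit 7) .nil .nil))) 
(.lf (nat_lit 145708) (.g (nat_lit 1911) (.e (nat_lit 57372) (nat_lit 2) (.e (nat_lit 90176) (nat_lit 15) (.e (nat_lit 188423) (nat_lit 11) (.e (nat_lit 336387) (nat_lit 27) (.e (nat_lit 426100) (nat_lit 1) (.e (nat_lit 164396) (nat_lit 256) .nil)))))) (.g (nat_lit 5) .nil .nil)))) (.nd (nat_lit 5) 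
(.lf (nat_lit 145692) (.g (nat_lit 2092) (.e (nat_lit 57372) (nat_lit 2) (.e (nat_lit 90174) (nat_lit 14) (.e (nat_lit 180245) (nat_lit 5) (.e (nat_lit 532515) (nat_lit 3) (.e (nat_lit 114719) (nat_lit 23) (.e (nat_lit 98333) (nat_lit 18) (.e (nat_lit 164399) (nat_lit 256) .nil))))))) (.g (nat_lit 4) .nil .nil))) 
(.lf (nat_lit 145724) (.g (nat_lit 2066) (.e (nat_lit 57372) (nat_lit 2) (.e (nat_lit 90176) (nat_lit 15) (.e (nat_lit 188439) (nat_lit 20) (.e (nat_lit 3271) (nat_lit 199) (.e (nat_lit 548913) (nat_lit 18) (.e (nat_lit 172070) (nat_lit 4) (.e (nat_lit 237312) (nat_lit 262) .nil))))))) (.g (nat_lit 5) .nil .nil))))))) (.nd (nat_lit 2) (.nd (nat_lit 3) (.nd (nat_lit 4) (.nd (nat_lit 5) 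
(.lf (nat_lit 145666) (.g (nat_lit 2560) (.e (nat_lit 57372) (nat_lit 2) (.e (nat_lit 90174) (nat_lit 14) (.e (nat_lit 180243) (nat_lit 5) (.e (nat_lit 532511) (nat_lit 2) (.e (nat_lit 106540) (nat_lit 13) (.e (nat_lit 122936) (nat_lit 23) (.e (nat_lit 516115) (nat_lit 1) (.e (nat_lit 164398) (nat_lit 256) .nil)))))))) (.g (nat_lit 4) .nil .nil))) 
(.lf (nat_lit 145698) (.g (nat_lit 3829) (.e (nat_lit 57372) (nat_lit 2) (.e (nat_lit 90174) (nat_lit 14) (.e (nat_lit 180250) (nat_lit 10) (.e (nat_lit 573487) (nat_lit 14) (.e (nat_lit 73747) (nat_lit 3) (.e (nat_lit 516115) (nat_lit 1) (.e (nat_lit 171776) (nat_lit 160) .nil))))))) (.g (nat_lit 5) .nil .nil)))) (.nd (nat_lit 5) 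
(.lf (nat_lit 145682) (.g (nat_lit 3357) (.e (nat_lit 57372) (nat_lit 2) (.e (nat_lit 90174) (nat_lit 14) (.e (nat_lit 180243) (nat_lit 5) (.e (nat_lit 532513) (nat_lit 3) (.e (nat_lit 114719) (nat_lit 23) (.e (nat_lit 98333) (nat_lit 18) (.e (nat_lit 164400) (nat_lit 256) .nil))))))) (.g (nat_lit 4) .nil .nil))) 
(.lf (nat_lit 145714) (.g (nat_lit 1664) (.e (nat_lit 57372) (nat_lit 2) (.e (nat_lit 90176) (nat_lit 15) (.e (nat_lit 196352) (nat_lit 18) (.e (nat_lit 393234) (nat_lit 17) (.e (nat_lit 2536) (nat_lit 157) (.e (nat_lit 5938) (nat_lit 322) .nil)))))) (.g (nat_lit 4) .nil .nil))))) (.nd (nat_lit 4) (.nd (nat_lit 5) 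
(.lf (nat_lit 145674) (.g (nat_lit 3655) (.e (nat_lit 57372) (nat_lit 2) (.e (nat_lit 90174) (nat_lit 14) (.e (nat_lit 180243) (nat_lit 5) (.e (nat_lit 532513) (nat_lit 3) (.e (nat_lit 114718) (nat_lit 23) (.e (nat_lit 98333) (nat_lit 18) (.e (nat_lit 164400) (nat_lit 256) .nil))))))) (.g (nat_lit 5) .nil .nil))) 
(.lf (nat_lit 145706) (.g (nat_lit 300) (.e (nat_lit 57372) (nat_lit 2) (.e (nat_lit 90176) (nat_lit 15) (.e (nat_lit 188423) (nat_lit 11) .nil))) .nil))) (.nd (nat_lit 5) 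
(.lf (nat_lit 145690) (.g (nat_lit 4055) (.e (nat_lit 57372) (nat_lit 2) (.e (nat_lit 90174) (nat_lit 14) (.e (nat_lit 180243) (nat_lit 5) (.e (nat_lit 532515) (nat_lit 3) (.e (nat_lit 114719) (nat_lit 23) (.e (nat_lit 98334) (nat_lit 18) (.e (nat_lit 164399) (nat_lit 256) .nil))))))) (.g (nat_lit 7) .nil .nil))) 
(.lf (nat_lit 145722) (.g (nat_lit 2407) (.e (nat_lit 57372) (nat_lit 2) (.e (nat_lit 90176) (nat_lit 15) (.e (nat_lit 188439) (nat_lit 20) (.e (nat_lit 3271) (nat_lit 199) (.e (nat_lit 548898) (nat_lit 14) (.e (nat_lit 3063) (nat_lit 190) (.e (nat_lit 475157) (nat_lit 21) (.e (nat_lit 6930) (nat_lit 373) .nil)))))))) (.g (nat_lit 6) .nil .nil)))))) 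
(.nd (nat_lit 3) (.nd (nat_lit 4) (.nd (nat_lit 5) 
(.lf (nat_lit 145670) (.g (nat_lit 2743) (.e (nat_lit 57372) (nat_lit 2) (.e (nat_lit 90174) (nat_lit 14) (.e (nat_lit 180243) (nat_lit 5) (.e (nat_lit 532513) (nat_lit 3) (.e (nat_lit 114700) (nat_lit 20) (.e (nat_lit 1797) (nat_lit 119) (.e (nat_lit 516115) (nat_lit 1) (.e (nat_lit 164399) (nat_lit 256) .nil)))))))) (.g (nat_lit 4) .nil .nil))) 
(.lf (nat_lit 145702) (.g (nat_lit 1660) (.e (nat_lit 57372) (nat_lit 2) (.e (nat_lit 90176) (nat_lit 15) (.e (nat_lit 188421) (nat_lit 11) (.e (nat_lit 336387) (nat_lit 27) (.e (nat_lit 426098) (nat_lit 1) (.e (nat_lit 164396) (nat_lit 256) .nil)))))) (.g (nat_lit 4) .nil .nil)))) (.nd (nat_lit 5) 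
(.lf (nat_lit 145686) (.g (nat_lit 3045) (.e (nat_lit 57372) (nat_lit 2) (.e (nat_lit 90174) (nat_lit 14) (.e (nat_lit 180243) (nat_lit 5) (.e (nat_lit 532515) (nat_lit 3) (.e (nat_lit 114718) (nat_lit 23) (.e (nat_lit 98334) (nat_lit 18) (.e (nat_lit 164400) (nat_lit 256) .nil))))))) (.g (nat_lit 4) .nil .nil))) 
(.lf (nat_lit 145718) (.g (nat_lit 2425) (.e (nat_lit 57372) (nat_lit 2) (.e (nat_lit 90176) (nat_lit 15) (.e (nat_lit 188439) (nat_lit 20) (.e (nat_lit 3270) (nat_lit 199) (.e (nat_lit 548898) (nat_lit 14) (.e (nat_lit 3071) (nat_lit 190) (.e (nat_lit 475157) (nat_lit 21) (.e (nat_lit 6930) (nat_lit 373) .nil)))))))) (.g (nat_lit 5) .nil .nil))))) (.nd (nat_lit 4) (.nd (nat_lit 5) 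
(.lf (nat_lit 145678) (.g (nat_lit 2735) (.e (nat_lit 57372) (nat_lit 2) (.e (nat_lit 90174) (nat_lit 14) (.e (nat_lit 180243) (nat_lit 5) (.e (nat_lit 532513) (nat_lit 3) (.e (nat_lit 114719) (nat_lit 23) (.e (nat_lit 98332) (nat_lit 18) (.e (nat_lit 164398) (nat_lit 256) .nil))))))) (.g (nat_lit 4) .nil .nil))) 
(.lf (nat_lit 145710) (.g (nat_lit 581) (.e (nat_lit 57372) (nat_lit 2) (.e (nat_lit 90176) (nat_lit 15) (.e (nat_lit 188423) (nat_lit 11) (.e (nat_lit 343808) (nat_lit 28) .nil)))) .nil))) (.nd (nat_lit 5) 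
(.lf (nat_lit 145694) (.g (nat_lit 3454) (.e (nat_lit 57372) (nat_lit 2) (.e (nat_lit 90174) (nat_lit 14) (.e (nat_lit 180250) (nat_lit 10) (.e (nat_lit 573487) (nat_lit 14) (.e (nat_lit 73746) (nat_lit 3) (.e (nat_lit 516115) (nat_lit 1) (.e (nat_lit 171776) (nat_lit 160) .nil))))))) (.g (nat_lit 4) .nil .nil))) 
(.lf (nat_lit 145726) (.g (nat_lit 2817) (.e (nat_lit 57372) (nat_lit 2) (.e (nat_lit 90176) (nat_lit 15) (.e (nat_lit 188439) (nat_lit 20) (.e (nat_lit 3272) (nat_lit 199) (.e (nat_lit 548898) (nat_lit 14) (.e (nat_lit 3063) (nat_lit 190) (.e (nat_lit 475156) (nat_lit 21) (.e (nat_lit 6930) (nat_lit 373) .nil)))))))) (.g (nat_lit 5) .nil .nil)))))))) 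
(.nd (nat_lit 1) (.nd (nat_lit 2) (.nd (nat_lit 3) (.nd (nat_lit 4) (.nd (nat_lit 5) 
(.lf (nat_lit 145665) (.g (nat_lit 2070) (.e (nat_lit 57372) (nat_lit 2) (.e (nat_lit 90174) (nat_lit 14) (.e (nat_lit 180243) (nat_lit 5) (.e (nat_lit 532511) (nat_lit 2) (.e (nat_lit 106537) (nat_lit 12) (.e (nat_lit 57467) (nat_lit 23) (.e (nat_lit 516115) (nat_lit 1) (.e (nat_lit 164399) (nat_lit 256) .nil)))))))) (.g (nat_lit 4) .nil .nil))) 
(.lf (nat_lit 145697) (.g (nat_lit 2993) (.e (nat_lit 57372) (nat_lit 2) (.e (nat_lit 90174) (nat_lit 14) (.e (nat_lit 180250) (nat_lit 10) (.e (nat_lit 573487) (nat_lit 14) (.e (nat_lit 73746) (nat_lit 3) (.e (nat_lit 516120) (nat_lit 1) (.e (nat_lit 171776) (nat_lit 160) .nil))))))) (.g (nat_lit 4) .nil .nil)))) (.nd (nat_lit 5) 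
(.lf (nat_lit 145681) (.g (nat_lit 4429) (.e (nat_lit 57372) (nat_lit 2) (.e (nat_lit 90174) (nat_lit 14) (.e (nat_lit 180243) (nat_lit 5) (.e (nat_lit 532513) (nat_lit 3) (.e (nat_lit 114719) (nat_lit 23) (.e (nat_lit 98333) (nat_lit 18) (.e (nat_lit 164399) (nat_lit 256) .nil))))))) (.g (nat_lit 7) .nil .nil))) 
(.lf (nat_lit 145713) (.g (nat_lit 1639) (.e (nat_lit 57372) (nat_lit 2) (.e (nat_lit 90176) (nat_lit 15) (.e (nat_lit 196352) (nat_lit 18) (.e (nat_lit 393232) (nat_lit 17) (.e (nat_lit 2399) (nat_lit 157) (.e (nat_lit 5934) (nat_lit 322) .nil)))))) (.g (nat_lit 4) .nil .nil))))) (.nd (nat_lit 4) (.nd (nat_lit 5) 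
(.lf (nat_lit 145673) (.g (nat_lit 4678) (.e (nat_lit 57372) (nat_lit 2) (.e (nat_lit 90174) (nat_lit 14) (.e (nat_lit 180243) (nat_lit 5) (.e (nat_lit 532513) (nat_lit 3) (.e (nat_lit 114718) (nat_lit 23) (.e (nat_lit 98333) (nat_lit 18) (.e (nat_lit 164399) (nat_lit 256) .nil))))))) (.g (nat_lit 7) .nil .nil))) 
(.lf (nat_lit 145705) (.g (nat_lit 1669) (.e (nat_lit 57372) (nat_lit 2) (.e (nat_lit 90176) (nat_lit 15) (.e (nat_lit 188421) (nat_lit 11) (.e (nat_lit 336387) (nat_lit 27) (.e (nat_lit 426108) (nat_lit 1) (.e (nat_lit 164396) (nat_lit 256) .nil)))))) (.g (nat_lit 4) .nil .nil)))) (.nd (nat_lit 5) 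
(.lf (nat_lit 145689) (.g (nat_lit 4092) (.e (nat_lit 57372) (nat_lit 2) (.e (nat_lit 90174) (nat_lit 14) (.e (nat_lit 180243) (nat_lit 5) (.e (nat_lit 532515) (nat_lit 3) (.e (nat_lit 114719) (nat_lit 23) (.e (nat_lit 98333) (nat_lit 18) (.e (nat_lit 164399) (nat_lit 256) .nil))))))) (.g (nat_lit 7) .nil .nil))) 
(.lf (nat_lit 145721) (.g (nat_lit 1874) (.e (nat_lit 57372) (nat_lit 2) (.e (nat_lit 90176) (nat_lit 15) (.e (nat_lit 188439) (nat_lit 20) (.e (nat_lit 3271) (nat_lit 199) (.e (nat_lit 548898) (nat_lit 14) (.e (nat_lit 3063) (nat_lit 190) (.e (nat_lit 475156) (nat_lit 21) (.e (nat_lit 6930) (nat_lit 373) .nil)))))))) (.g (nat_lit 5) .nil .nil)))))) 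
(.nd (nat_lit 3) (.nd (nat_lit 4) (.nd (nat_lit 5) 
(.lf (nat_lit 145669) (.g (nat_lit 2706) (.e (nat_lit 57372) (nat_lit 2) (.e (nat_lit 90174) (nat_lit 14) (.e (nat_lit 180243) (nat_lit 5) (.e (nat_lit 532513) (nat_lit 3) (.e (nat_lit 114700) (nat_lit 20) (.e (nat_lit 1792) (nat_lit 119) (.e (nat_lit 516115) (nat_lit 1) (.e (nat_lit 164399) (nat_lit 256) .nil)))))))) (.g (nat_lit 4) .nil .nil))) 
(.lf (nat_lit 145701) (.g (nat_lit 1916) (.e (nat_lit 57372) (nat_lit 2) (.e (nat_lit 90174) (nat_lit 14) (.e (nat_lit 180251) (nat_lit 10) (.e (nat_lit 573489) (nat_lit 14) (.e (nat_lit 73755) (nat_lit 8) .nil))))) .nil))) (.nd (nat_lit 5) 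
(.lf (nat_lit 145685) (.g (nat_lit 2819) (.e (nat_lit 57372) (nat_lit 2) (.e (nat_lit 90174) (nat_lit 14) (.e (nat_lit 180243) (nat_lit 5) (.e (nat_lit 532515) (nat_lit 3) (.e (nat_lit 114718) (nat_lit 23) (.e (nat_lit 98333) (nat_lit 18) (.e (nat_lit 164400) (nat_lit 256) .nil))))))) (.g (nat_lit 4) .nil .nil))) 
(.lf (nat_lit 145717) (.g (nat_lit 2297) (.e (nat_lit 57372) (nat_lit 2) (.e (nat_lit 90176) (nat_lit 15) (.e (nat_lit 188439) (nat_lit 20) (.e (nat_lit 3270) (nat_lit 199) (.e (nat_lit 548898) (nat_lit 14) (.e (nat_lit 3063) (nat_lit 190) (.e (nat_lit 475157) (nat_lit 21) (.e (nat_lit 6930) (nat_lit 373) .nil)))))))) (.g (nat_lit 5) .nil .nil))))) (.nd (nat_lit 4) (.nd (nat_lit 5) 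
(.lf (nat_lit 145677) (.g (nat_lit 3812) (.e (nat_lit 57372) (nat_lit 2) (.e (nat_lit 90174) (nat_lit 14) (.e (nat_lit 180243) (nat_lit 5) (.e (nat_lit 532513) (nat_lit 3) (.e (nat_lit 114718) (nat_lit 23) (.e (nat_lit 98334) (nat_lit 18) (.e (nat_lit 164400) (nat_lit 256) .nil))))))) (.g (nat_lit 5) .nil .nil))) 
(.lf (nat_lit 145709) (.g (nat_lit 1260) (.e (nat_lit 57372) (nat_lit 2) (.e (nat_lit 90176) (nat_lit 15) (.e (nat_lit 188423) (nat_lit 11) (.e (nat_lit 336387) (nat_lit 27) (.e (nat_lit 426145) (nat_lit 4) (.e (nat_lit 229707) (nat_lit 256) .nil)))))) (.g (nat_lit 4) .nil .nil)))) (.nd (nat_lit 5) 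
(.lf (nat_lit 145693) (.g (nat_lit 3052) (.e (nat_lit 57372) (nat_lit 2) (.e (nat_lit 90174) (nat_lit 14) (.e (nat_lit 180250) (nat_lit 10) (.e (nat_lit 573484) (nat_lit 13) (.e (nat_lit 65569) (nat_lit 3) (.e (nat_lit 98334) (nat_lit 18) (.e (nat_lit 171776) (nat_lit 160) .nil))))))) (.g (nat_lit 4) .nil .nil))) 
(.lf (nat_lit 145725) (.g (nat_lit 2543) (.e (nat_lit 57372) (nat_lit 2) (.e (nat_lit 90176) (nat_lit 15) (.e (nat_lit 188439) (nat_lit 20) (.e (nat_lit 3271) (nat_lit 199) (.e (nat_lit 548913) (nat_lit 18) (.e (nat_lit 172138) (nat_lit 15) (.e (nat_lit 1009) (nat_lit 81) (.e (nat_lit 6930) (nat_lit 373) .nil)))))))) (.g (nat_lit 6) .nil .nil))))))) 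
(.nd (nat_lit 2) (.nd (nat_lit 3) (.nd (nat_lit 4) (.nd (nat_lit 5) 
(.lf (nat_lit 145667) (.g (nat_lit 2299) (.e (nat_lit 57372) (nat_lit 2) (.e (nat_lit 90174) (nat_lit 14) (.e (nat_lit 180243) (nat_lit 5) (.e (nat_lit 532511) (nat_lit 2) (.e (nat_lit 106542) (nat_lit 13) (.e (nat_lit 122935) (nat_lit 23) (.e (nat_lit 516115) (nat_lit 1) (.e (nat_lit 164399) (nat_lit 256) .nil)))))))) (.g (nat_lit 4) .nil .nil))) 
(.lf (nat_lit 145699) (.g (nat_lit 3329) (.e (nat_lit 57372) (nat_lit 2) (.e (nat_lit 90174) (nat_lit 14) (.e (nat_lit 180250) (nat_lit 10) (.e (nat_lit 573487) (nat_lit 14) (.e (nat_lit 73747) (nat_lit 3) (.e (nat_lit 516119) (nat_lit 1) (.e (nat_lit 171776) (nat_lit 160) .nil))))))) (.g (nat_lit 4) .nil .nil)))) (.nd (nat_lit 5) 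
(.lf (nat_lit 145683) (.g (nat_lit 4502) (.e (nat_lit 57372) (nat_lit 2) (.e (nat_lit 90174) (nat_lit 14) (.e (nat_lit 180243) (nat_lit 5) (.e (nat_lit 532513) (nat_lit 3) (.e (nat_lit 114719) (nat_lit 23) (.e (nat_lit 98334) (nat_lit 18) (.e (nat_lit 164399) (nat_lit 256) .nil))))))) (.g (nat_lit 7) .nil .nil))) 
(.lf (nat_lit 145715) (.g (nat_lit 1354) (.e (nat_lit 57372) (nat_lit 2) (.e (nat_lit 90176) (nat_lit 15) (.e (nat_lit 196352) (nat_lit 18) (.e (nat_lit 393237) (nat_lit 17) (.e (nat_lit 2467) (nat_lit 157) (.e (nat_lit 5938) (nat_lit 322) .nil)))))) (.g (nat_lit 5) .nil .nil))))) (.nd (nat_lit 4) (.nd (nat_lit 5) 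
(.lf (nat_lit 145675) (.g (nat_lit 2488) (.e (nat_lit 57372) (nat_lit 2) (.e (nat_lit 90174) (nat_lit 14) (.e (nat_lit 180243) (nat_lit 5) (.e (nat_lit 532513) (nat_lit 3) (.e (nat_lit 114718) (nat_lit 23) (.e (nat_lit 98334) (nat_lit 18) (.e (nat_lit 164396) (nat_lit 256) .nil))))))) (.g (nat_lit 4) .nil .nil))) 
(.lf (nat_lit 145707) (.g (nat_lit 1132) (.e (nat_lit 57372) (nat_lit 2) (.e (nat_lit 90176) (nat_lit 15) (.e (nat_lit 188423) (nat_lit 11) (.e (nat_lit 336387) (nat_lit 27) (.e (nat_lit 426099) (nat_lit 1) (.e (nat_lit 164400) (nat_lit 256) .nil)))))) (.g (nat_lit 4) .nil .nil)))) (.nd (nat_lit 5) 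
(.lf (nat_lit 145691) (.g (nat_lit 3098) (.e (nat_lit 57372) (nat_lit 2) (.e (nat_lit 90174) (nat_lit 14) (.e (nat_lit 180243) (nat_lit 5) (.e (nat_lit 532515) (nat_lit 3) (.e (nat_lit 114719) (nat_lit 23) (.e (nat_lit 98334) (nat_lit 18) (.e (nat_lit 164400) (nat_lit 256) .nil))))))) (.g (nat_lit 5) .nil .nil))) 
(.lf (nat_lit 145723) (.g (nat_lit 2535) (.e (nat_lit 57372) (nat_lit 2) (.e (nat_lit 90176) (nat_lit 15) (.e (nat_lit 188439) (nat_lit 20) (.e (nat_lit 3271) (nat_lit 199) (.e (nat_lit 548898) (nat_lit 14) (.e (nat_lit 3071) (nat_lit 190) (.e (nat_lit 475157) (nat_lit 21) (.e (nat_lit 6930) (nat_lit 373) .nil)))))))) (.g (nat_lit 6) .nil .nil)))))) 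
(.nd (nat_lit 3) (.nd (nat_lit 4) (.nd (nat_lit 5) 
(.lf (nat_lit 145671) (.g (nat_lit 2497) (.e (nat_lit 57372) (nat_lit 2) (.e (nat_lit 90174) (nat_lit 14) (.e (nat_lit 180243) (nat_lit 5) (.e (nat_lit 532513) (nat_lit 3) (.e (nat_lit 114718) (nat_lit 23) (.e (nat_lit 98332) (nat_lit 18) (.e (nat_lit 164399) (nat_lit 256) .nil))))))) (.g (nat_lit 4) .nil .nil))) 
(.lf (nat_lit 145703) (.g (nat_lit 1561) (.e (nat_lit 57372) (nat_lit 2) (.e (nat_lit 90176) (nat_lit 15) (.e (nat_lit 188421) (nat_lit 11) (.e (nat_lit 336387) (nat_lit 27) (.e (nat_lit 426098) (nat_lit 1) (.e (nat_lit 164400) (nat_lit 256) .nil)))))) (.g (nat_lit 4) .nil .nil)))) (.nd (nat_lit 5) 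
(.lf (nat_lit 145687) (.g (nat_lit 2949) (.e (nat_lit 57372) (nat_lit 2) (.e (nat_lit 90174) (nat_lit 14) (.e (nat_lit 180243) (nat_lit 5) (.e (nat_lit 532515) (nat_lit 3) (.e (nat_lit 114719) (nat_lit 23) (.e (nat_lit 98332) (nat_lit 18) (.e (nat_lit 164398) (nat_lit 256) .nil))))))) (.g (nat_lit 5) .nil .nil))) 
(.lf (nat_lit 145719) (.g (nat_lit 2038) (.e (nat_lit 57372) (nat_lit 2) (.e (nat_lit 90176) (nat_lit 15) (.e (nat_lit 188439) (nat_lit 20) (.e (nat_lit 3270) (nat_lit 199) (.e (nat_lit 548913) (nat_lit 18) (.e (nat_lit 172070) (nat_lit 4) (.e (nat_lit 237312) (nat_lit 262) .nil))))))) (.g (nat_lit 5) .nil .nil))))) (.nd (nat_lit 4) (.nd (nat_lit 5) 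
(.lf (nat_lit 145679) (.g (nat_lit 3096) (.e (nat_lit 57372) (nat_lit 2) (.e (nat_lit 90174) (nat_lit 14) (.e (nat_lit 180243) (nat_lit 5) (.e (nat_lit 532513) (nat_lit 3) (.e (nat_lit 114719) (nat_lit 23) (.e (nat_lit 98332) (nat_lit 18) (.e (nat_lit 164399) (nat_lit 256) .nil))))))) (.g (nat_lit 5) .nil .nil))) 
(.lf (nat_lit 145711) (.g (nat_lit 346) (.e (nat_lit 57372) (nat_lit 2) (.e (nat_lit 90176) (nat_lit 15) (.e (nat_lit 196352) (nat_lit 11) .nil))) .nil))) (.nd (nat_lit 5) 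
(.lf (nat_lit 145695) (.g (nat_lit 3030) (.e (nat_lit 57372) (nat_lit 2) (.e (nat_lit 90174) (nat_lit 14) (.e (nat_lit 180250) (nat_lit 10) (.e (nat_lit 573487) (nat_lit 14) (.e (nat_lit 73746) (nat_lit 3) (.e (nat_lit 516117) (nat_lit 1) (.e (nat_lit 171776) (nat_lit 160) .nil))))))) (.g (nat_lit 4) .nil .nil))) 
(.lf (nat_lit 145727) (.g (nat_lit 3350) (.e (nat_lit 57372) (nat_lit 2) (.e (nat_lit 90176) (nat_lit 15) (.e (nat_lit 188439) (nat_lit 20) (.e (nat_lit 3272) (nat_lit 199) (.e (nat_lit 548898) (nat_lit 14) (.e (nat_lit 3063) (nat_lit 190) (.e (nat_lit 475157) (nat_lit 21) (.e (nat_lit 6930) (nat_lit 373) .nil)))))))) (.g (nat_lit 7) .nil .nil)))))))))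

noncomputable def tv1935 : DT := (.nd (nat_lit 0) (.nd (nat_lit 1) (.nd (nat_lit 2) (.nd (nat_lit 3) (.nd (nat_lit 4) (.nd (nat_lit 5) 
(.lf (nat_lit 145728) (.g (nat_lit 2331) (.e (nat_lit 57372) (nat_lit 2) (.e (nat_lit 90176) (nat_lit 15) (.e (nat_lit 188439) (nat_lit 20) (.e (nat_lit 3272) (nat_lit 199) (.e (nat_lit 548898) (nat_lit 14) (.e (nat_lit 3071) (nat_lit 190) (.e (nat_lit 475156) (nat_lit 21) (.e (nat_lit 6930) (nat_lit 373) .nil)))))))) (.g (nat_lit 5) .nil .nil))) 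
(.lf (nat_lit 145760) (.g (nat_lit 3751) (.e (nat_lit 57372) (nat_lit 2) (.e (nat_lit 90176) (nat_lit 15) (.e (nat_lit 188447) (nat_lit 22) (.e (nat_lit 196666) (nat_lit 13) (.e (nat_lit 65553) (nat_lit 0) (.e (nat_lit 991) (nat_lit 81) (.e (nat_lit 4841) (nat_lit 283) .nil))))))) (.g (nat_lit 6) .nil .nil)))) (.nd (nat_lit 5) 
(.lf (nat_lit 145744) (.g (nat_lit 2442) (.e (nat_lit 57372) (nat_lit 2) (.e (nat_lit 90176) (nat_lit 15) (.e (nat_lit 188447) (nat_lit 22) (.e (nat_lit 196666) (nat_lit 13) (.e (nat_lit 65539) (nat_lit 0) .nil))))) .nil)) 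
(.lf (nat_lit 145776) (.g (nat_lit 3851) (.e (nat_lit 57372) (nat_lit 2) (.e (nat_lit 90176) (nat_lit 15) (.e (nat_lit 188447) (nat_lit 22) (.e (nat_lit 196670) (nat_lit 14) (.e (nat_lit 73732) (nat_lit 0) (.e (nat_lit 7936) (nat_lit 283) .nil)))))) (.g (nat_lit 5) .nil .nil))))) (.nd (nat_lit 4) (.nd (nat_lit 5) 
(.lf (nat_lit 145736) (.g (nat_lit 2696) (.e (nat_lit 57372) (nat_lit 2) (.e (nat_lit 90176) (nat_lit 15) (.e (nat_lit 188447) (nat_lit 22) (.e (nat_lit 196666) (nat_lit 13) (.e (nat_lit 65536) (nat_lit 0) .nil))))) .nil)) 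
(.lf (nat_lit 145768) (.g (nat_lit 4023) (.e (nat_lit 57372) (nat_lit 2) (.e (nat_lit 90176) (nat_lit 15) (.e (nat_lit 188447) (nat_lit 22) (.e (nat_lit 196668) (nat_lit 14) (.e (nat_lit 73729) (nat_lit 0) (.e (nat_lit 7936) (nat_lit 283) .nil)))))) (.g (nat_lit 5) .nil .nil)))) (.nd (nat_lit 5) 
(.lf (nat_lit 145752) (.g (nat_lit 3919) (.e (nat_lit 57372) (nat_lit 2) (.e (nat_lit 90176) (nat_lit 15) (.e (nat_lit 188447) (nat_lit 22) (.e (nat_lit 196666) (nat_lit 13) (.e (nat_lit 65546) (nat_lit 0) (.e (nat_lit 990) (nat_lit 81) (.e (nat_lit 4841) (nat_lit 283) .nil))))))) (.g (nat_lit 6) .nil .nil))) 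
(.lf (nat_lit 145784) (.g (nat_lit 2738) (.e (nat_lit 57372) (nat_lit 2) (.e (nat_lit 90176) (nat_lit 15) (.e (nat_lit 188450) (nat_lit 23) (.e (nat_lit 204850) (nat_lit 26) (.e (nat_lit 335997) (nat_lit 1) (.e (nat_lit 65280) (nat_lit 241) .nil)))))) (.g (nat_lit 4) .nil .nil)))))) (.nd (nat_lit 3) (.nd (nat_lit 4) (.nd (nat_lit 5) 
(.lf (nat_lit 145732) (.g (nat_lit 1189) (.e (nat_lit 57372) (nat_lit 2) (.e (nat_lit 90176) (nat_lit 15) (.e (nat_lit 188439) (nat_lit 20) (.e (nat_lit 3579) (nat_lit 223) (.e (nat_lit 745475) (nat_lit 0) .nil))))) .nil)) 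
(.lf (nat_lit 145764) (.g (nat_lit 3123) (.e (nat_lit 57372) (nat_lit 2) (.e (nat_lit 90176) (nat_lit 15) (.e (nat_lit 188447) (nat_lit 22) (.e (nat_lit 196666) (nat_lit 13) (.e (nat_lit 65572) (nat_lit 4) (.e (nat_lit 130816) (nat_lit 241) .nil)))))) (.g (nat_lit 5) .nil .nil)))) (.nd (nat_lit 5) 
(.lf (nat_lit 145748) (.g (nat_lit 3150) (.e (nat_lit 57372) (nat_lit 2) (.e (nat_lit 90176) (nat_lit 15) (.e (nat_lit 188447) (nat_lit 22) (.e (nat_lit 196666) (nat_lit 13) (.e (nat_lit 65543) (nat_lit 0) (.e (nat_lit 972) (nat_lit 81) (.e (nat_lit 4840) (nat_lit 283) .nil))))))) (.g (nat_lit 4) .nil .nil))) 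
(.lf (nat_lit 145780) (.g (nat_lit 288) (.e (nat_lit 57372) (nat_lit 2) (.e (nat_lit 90176) (nat_lit 15) (.e (nat_lit 188450) (nat_lit 23) .nil))) .nil)))) (.nd (nat_lit 4) (.nd (nat_lit 5) 
(.lf (nat_lit 145740) (.g (nat_lit 3140) (.e (nat_lit 57372) (nat_lit 2) (.e (nat_lit 90176) (nat_lit 15) (.e (nat_lit 188447) (nat_lit 22) (.e (nat_lit 196666) (nat_lit 13) (.e (nat_lit 65537) (nat_lit 0) (.e (nat_lit 968) (nat_lit 81) (.e (nat_lit 4840) (nat_lit 283) .nil))))))) (.g (nat_lit 4) .nil .nil))) 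
(.lf (nat_lit 145772) (.g (nat_lit 3225) (.e (nat_lit 57372) (nat_lit 2) (.e (nat_lit 90176) (nat_lit 15) (.e (nat_lit 188447) (nat_lit 22) (.e (nat_lit 196668) (nat_lit 14) (.e (nat_lit 81664) (nat_lit 0) (.e (nat_lit 4841) (nat_lit 283) .nil)))))) (.g (nat_lit 4) .nil .nil)))) (.nd (nat_lit 5) 
(.lf (nat_lit 145756) (.g (nat_lit 3168) (.e (nat_lit 57372) (nat_lit 2) (.e (nat_lit 90176) (nat_lit 15) (.e (nat_lit 188447) (nat_lit 22) (.e (nat_lit 196666) (nat_lit 13) (.e (nat_lit 65550) (nat_lit 0) (.e (nat_lit 988) (nat_lit 81) (.e (nat_lit 4841) (nat_lit 283) .nil))))))) (.g (nat_lit 4) .nil .nil))) 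
(.lf (nat_lit 145788) (.g (nat_lit 3192) (.e (nat_lit 57372) (nat_lit 2) (.e (nat_lit 90176) (nat_lit 15) (.e (nat_lit 188450) (nat_lit 23) (.e (nat_lit 204852) (nat_lit 26) (.e (nat_lit 336240) (nat_lit 15) (.e (nat_lit 2418) (nat_lit 157) (.e (nat_lit 6931) (nat_lit 373) .nil))))))) (.g (nat_lit 5) .nil .nil))))))) (.nd (nat_lit 2) (.nd (nat_lit 3) (.nd (nat_lit 4) (.nd (nat_lit 5) 
(.lf (nat_lit 145730) (.g (nat_lit 2837) (.e (nat_lit 57372) (nat_lit 2) (.e (nat_lit 90176) (nat_lit 15) (.e (nat_lit 188439) (nat_lit 20) (.e (nat_lit 3272) (nat_lit 199) (.e (nat_lit 548913) (nat_lit 18) (.e (nat_lit 172070) (nat_lit 4) (.e (nat_lit 237312) (nat_lit 262) .nil))))))) (.g (nat_lit 6) .nil .nil))) 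
(.lf (nat_lit 145762) (.g (nat_lit 3185) (.e (nat_lit 57372) (nat_lit 2) (.e (nat_lit 90176) (nat_lit 15) (.e (nat_lit 188447) (nat_lit 22) (.e (nat_lit 196666) (nat_lit 13) (.e (nat_lit 65563) (nat_lit 1) (.e (nat_lit 65280) (nat_lit 241) .nil)))))) (.g (nat_lit 5) .nil .nil)))) (.nd (nat_lit 5) 
(.lf (nat_lit 145746) (.g (nat_lit 3953) (.e (nat_lit 57372) (nat_lit 2) (.e (nat_lit 90176) (nat_lit 15) (.e (nat_lit 188447) (nat_lit 22) (.e (nat_lit 196666) (nat_lit 13) (.e (nat_lit 65539) (nat_lit 0) (.e (nat_lit 973) (nat_lit 81) (.e (nat_lit 4840) (nat_lit 283) .nil))))))) (.g (nat_lit 6) .nil .nil))) 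
(.lf (nat_lit 145778) (.g (nat_lit 2670) (.e (nat_lit 57372) (nat_lit 2) (.e (nat_lit 90176) (nat_lit 15) (.e (nat_lit 188447) (nat_lit 22) (.e (nat_lit 196681) (nat_lit 17) (.e (nat_lit 131088) (nat_lit 1) (.e (nat_lit 65280) (nat_lit 241) .nil)))))) (.g (nat_lit 4) .nil .nil))))) (.nd (nat_lit 4) (.nd (nat_lit 5) 
(.lf (nat_lit 145738) (.g (nat_lit 2729) (.e (nat_lit 57372) (nat_lit 2) (.e (nat_lit 90176) (nat_lit 15) (.e (nat_lit 188447) (nat_lit 22) (.e (nat_lit 196666) (nat_lit 13) (.e (nat_lit 65536) (nat_lit 0) (.e (nat_lit 968) (nat_lit 81) (.e (nat_lit 4841) (nat_lit 283) .nil))))))) (.g (nat_lit 4) .nil .nil))) 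
(.lf (nat_lit 145770) (.g (nat_lit 3147) (.e (nat_lit 57372) (nat_lit 2) (.e (nat_lit 90176) (nat_lit 15) (.e (nat_lit 188447) (nat_lit 22) (.e (nat_lit 196668) (nat_lit 14) (.e (nat_lit 73737) (nat_lit 0) (.e (nat_lit 7936) (nat_lit 283) .nil)))))) (.g (nat_lit 5) .nil .nil)))) (.nd (nat_lit 5) 
(.lf (nat_lit 145754) (.g (nat_lit 3914) (.e (nat_lit 57372) (nat_lit 2) (.e (nat_lit 90176) (nat_lit 15) (.e (nat_lit 188447) (nat_lit 22) (.e (nat_lit 196666) (nat_lit 13) (.e (nat_lit 65546) (nat_lit 0) (.e (nat_lit 991) (nat_lit 81) (.e (nat_lit 4841) (nat_lit 283) .nil))))))) (.g (nat_lit 6) .nil .nil))) 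
(.lf (nat_lit 145786) (.g (nat_lit 2487) (.e (nat_lit 57372) (nat_lit 2) (.e (nat_lit 90176) (nat_lit 15) (.e (nat_lit 188450) (nat_lit 23) (.e (nat_lit 204852) (nat_lit 26) (.e (nat_lit 336238) (nat_lit 15) .nil))))) .nil))))) (.nd (nat_lit 3) (.nd (nat_lit 4) (.nd (nat_lit 5) 
(.lf (nat_lit 145734) (.g (nat_lit 2351) (.e (nat_lit 57372) (nat_lit 2) (.e (nat_lit 90176) (nat_lit 15) (.e (nat_lit 188439) (nat_lit 20) (.e (nat_lit 3579) (nat_lit 223) (.e (nat_lit 745492) (nat_lit 5) (.e (nat_lit 73728) (nat_lit 0) (.e (nat_lit 4630) (nat_lit 271) .nil))))))) (.g (nat_lit 4) .nil .nil))) 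
(.lf (nat_lit 145766) (.g (nat_lit 3387) (.e (nat_lit 57372) (nat_lit 2) (.e (nat_lit 90176) (nat_lit 15) (.e (nat_lit 188447) (nat_lit 22) (.e (nat_lit 196666) (nat_lit 13) (.e (nat_lit 65574) (nat_lit 4) (.e (nat_lit 130816) (nat_lit 241) .nil)))))) (.g (nat_lit 5) .nil .nil)))) (.nd (nat_lit 5) 
(.lf (nat_lit 145750) (.g (nat_lit 3639) (.e (nat_lit 57372) (nat_lit 2) (.e (nat_lit 90176) (nat_lit 15) (.e (nat_lit 188447) (nat_lit 22) (.e (nat_lit 196666) (nat_lit 13) (.e (nat_lit 65546) (nat_lit 0) (.e (nat_lit 988) (nat_lit 81) (.e (nat_lit 4841) (nat_lit 283) .nil))))))) (.g (nat_lit 5) .nil .nil))) 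
(.lf (nat_lit 145782) (.g (nat_lit 1205) (.e (nat_lit 57372) (nat_lit 2) (.e (nat_lit 90176) (nat_lit 15) (.e (nat_lit 188450) (nat_lit 23) (.e (nat_lit 204848) (nat_lit 25) .nil)))) .nil)))) (.nd (nat_lit 4) (.nd (nat_lit 5) 
(.lf (nat_lit 145742) (.g (nat_lit 4258) (.e (nat_lit 57372) (nat_lit 2) (.e (nat_lit 90176) (nat_lit 15) (.e (nat_lit 188447) (nat_lit 22) (.e (nat_lit 196666) (nat_lit 13) (.e (nat_lit 65538) (nat_lit 0) (.e (nat_lit 1049) (nat_lit 81) (.e (nat_lit 4840) (nat_lit 283) .nil))))))) (.g (nat_lit 6) .nil .nil))) 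
(.lf (nat_lit 145774) (.g (nat_lit 2562) (.e (nat_lit 57372) (nat_lit 2) (.e (nat_lit 90176) (nat_lit 15) (.e (nat_lit 188447) (nat_lit 22) (.e (nat_lit 196670) (nat_lit 14) (.e (nat_lit 73728) (nat_lit 0) .nil))))) .nil))) (.nd (nat_lit 5) 
(.lf (nat_lit 145758) (.g (nat_lit 3716) (.e (nat_lit 57372) (nat_lit 2) (.e (nat_lit 90176) (nat_lit 15) (.e (nat_lit 188447) (nat_lit 22) (.e (nat_lit 196666) (nat_lit 13) (.e (nat_lit 65553) (nat_lit 0) (.e (nat_lit 990) (nat_lit 81) (.e (nat_lit 4841) (nat_lit 283) .nil))))))) (.g (nat_lit 6) .nil .nil))) 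
(.lf (nat_lit 145790) (.g (nat_lit 2209) (.e (nat_lit 57372) (nat_lit 2) (.e (nat_lit 90176) (nat_lit 15) (.e (nat_lit 188450) (nat_lit 23) (.e (nat_lit 204852) (nat_lit 26) (.e (nat_lit 336257) (nat_lit 15) .nil))))) .nil))))))) (.nd (nat_lit 1) (.nd (nat_lit 2) (.nd (nat_lit 3) (.nd (nat_lit 4) (.nd (nat_lit 5) 
(.lf (nat_lit 145729) (.g (nat_lit 3478) (.e (nat_lit 57372) (nat_lit 2) (.e (nat_lit 90176) (nat_lit 15) (.e (nat_lit 188439) (nat_lit 20) (.e (nat_lit 3272) (nat_lit 199) (.e (nat_lit 548898) (nat_lit 14) (.e (nat_lit 3071) (nat_lit 190) (.e (nat_lit 475157) (nat_lit 21) (.e (nat_lit 6930) (nat_lit 373) .nil)))))))) (.g (nat_lit 7) .nil .nil))) 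
(.lf (nat_lit 145761) (.g (nat_lit 3167) (.e (nat_lit 57372) (nat_lit 2) (.e (nat_lit 90176) (nat_lit 15) (.e (nat_lit 188447) (nat_lit 22) (.e (nat_lit 196666) (nat_lit 13) (.e (nat_lit 65553) (nat_lit 0) (.e (nat_lit 991) (nat_lit 81) (.e (nat_lit 7936) (nat_lit 283) .nil))))))) (.g (nat_lit 6) .nil .nil)))) (.nd (nat_lit 5) 
(.lf (nat_lit 145745) (.g (nat_lit 2915) (.e (nat_lit 57372) (nat_lit 2) (.e (nat_lit 90176) (nat_lit 15) (.e (nat_lit 188447) (nat_lit 22) (.e (nat_lit 196666) (nat_lit 13) (.e (nat_lit 65539) (nat_lit 0) (.e (nat_lit 970) (nat_lit 81) (.e (nat_lit 4840) (nat_lit 283) .nil))))))) (.g (nat_lit 4) .nil .nil))) 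
(.lf (nat_lit 145777) (.g (nat_lit 2702) (.e (nat_lit 57372) (nat_lit 2) (.e (nat_lit 90176) (nat_lit 15) (.e (nat_lit 188447) (nat_lit 22) (.e (nat_lit 196681) (nat_lit 17) (.e (nat_lit 131086) (nat_lit 1) (.e (nat_lit 65280) (nat_lit 241) .nil)))))) (.g (nat_lit 4) .nil .nil))))) (.nd (nat_lit 4) (.nd (nat_lit 5) 
(.lf (nat_lit 145737) (.g (nat_lit 2917) (.e (nat_lit 57372) (nat_lit 2) (.e (nat_lit 90176) (nat_lit 15) (.e (nat_lit 188447) (nat_lit 22) (.e (nat_lit 196666) (nat_lit 13) (.e (nat_lit 65536) (nat_lit 0) (.e (nat_lit 968) (nat_lit 81) (.e (nat_lit 4840) (nat_lit 283) .nil))))))) (.g (nat_lit 4) .nil .nil))) 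
(.lf (nat_lit 145769) (.g (nat_lit 3788) (.e (nat_lit 57372) (nat_lit 2) (.e (nat_lit 90176) (nat_lit 15) (.e (nat_lit 188447) (nat_lit 22) (.e (nat_lit 196668) (nat_lit 14) (.e (nat_lit 73733) (nat_lit 0) (.e (nat_lit 7936) (nat_lit 283) .nil)))))) (.g (nat_lit 5) .nil .nil)))) (.nd (nat_lit 5) 
(.lf (nat_lit 145753) (.g (nat_lit 2690) (.e (nat_lit 57372) (nat_lit 2) (.e (nat_lit 90176) (nat_lit 15) (.e (nat_lit 188447) (nat_lit 22) (.e (nat_lit 196666) (nat_lit 13) (.e (nat_lit 65546) (nat_lit 0) (.e (nat_lit 990) (nat_lit 81) (.e (nat_lit 7936) (nat_lit 283) .nil))))))) (.g (nat_lit 4) .nil .nil))) 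
(.lf (nat_lit 145785) (.g (nat_lit 1160) (.e (nat_lit 57372) (nat_lit 2) (.e (nat_lit 90176) (nat_lit 15) (.e (nat_lit 188450) (nat_lit 23) (.e (nat_lit 204851) (nat_lit 26) .nil)))) .nil))))) (.nd (nat_lit 3) (.nd (nat_lit 4) (.nd (nat_lit 5) 
(.lf (nat_lit 145733) (.g (nat_lit 1380) (.e (nat_lit 57372) (nat_lit 2) (.e (nat_lit 90176) (nat_lit 15) (.e (nat_lit 188439) (nat_lit 20) (.e (nat_lit 3579) (nat_lit 223) (.e (nat_lit 745492) (nat_lit 5) .nil))))) .nil)) 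
(.lf (nat_lit 145765) (.g (nat_lit 3186) (.e (nat_lit 57372) (nat_lit 2) (.e (nat_lit 90176) (nat_lit 15) (.e (nat_lit 188447) (nat_lit 22) (.e (nat_lit 196666) (nat_lit 13) (.e (nat_lit 65573) (nat_lit 4) (.e (nat_lit 130816) (nat_lit 241) .nil)))))) (.g (nat_lit 4) .nil .nil)))) (.nd (nat_lit 5) 
(.lf (nat_lit 145749) (.g (nat_lit 3253) (.e (nat_lit 57372) (nat_lit 2) (.e (nat_lit 90176) (nat_lit 15) (.e (nat_lit 188447) (nat_lit 22) (.e (nat_lit 196666) (nat_lit 13) (.e (nat_lit 65543) (nat_lit 0) (.e (nat_lit 973) (nat_lit 81) (.e (nat_lit 4840) (nat_lit 283) .nil))))))) (.g (nat_lit 4) .nil .nil))) 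
(.lf (nat_lit 145781) (.g (nat_lit 3847) (.e (nat_lit 57372) (nat_lit 2) (.e (nat_lit 90176) (nat_lit 15) (.e (nat_lit 188450) (nat_lit 23) (.e (nat_lit 204846) (nat_lit 24) (.e (nat_lit 319514) (nat_lit 11) .nil))))) .nil)))) (.nd (nat_lit 4) (.nd (nat_lit 5) 
(.lf (nat_lit 145741) (.g (nat_lit 2952) (.e (nat_lit 57372) (nat_lit 2) (.e (nat_lit 90176) (nat_lit 15) (.e (nat_lit 188447) (nat_lit 22) (.e (nat_lit 196666) (nat_lit 13) (.e (nat_lit 65537) (nat_lit 0) (.e (nat_lit 968) (nat_lit 81) (.e (nat_lit 4841) (nat_lit 283) .nil))))))) (.g (nat_lit 4) .nil .nil))) 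
(.lf (nat_lit 145773) (.g (nat_lit 1583) (.e (nat_lit 57372) (nat_lit 2) (.e (nat_lit 90176) (nat_lit 15) (.e (nat_lit 188447) (nat_lit 22) (.e (nat_lit 196669) (nat_lit 14) .nil)))) .nil))) (.nd (nat_lit 5) 
(.lf (nat_lit 145757) (.g (nat_lit 3802) (.e (nat_lit 57372) (nat_lit 2) (.e (nat_lit 90176) (nat_lit 15) (.e (nat_lit 188447) (nat_lit 22) (.e (nat_lit 196666) (nat_lit 13) (.e (nat_lit 65550) (nat_lit 0) (.e (nat_lit 989) (nat_lit 81) (.e (nat_lit 4841) (nat_lit 283) .nil))))))) (.g (nat_lit 4) .nil .nil))) 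
(.lf (nat_lit 145789) (.g (nat_lit 2520) (.e (nat_lit 57372) (nat_lit 2) (.e (nat_lit 90176) (nat_lit 15) (.e (nat_lit 188450) (nat_lit 23) (.e (nat_lit 204852) (nat_lit 26) (.e (nat_lit 336240) (nat_lit 15) (.e (nat_lit 2439) (nat_lit 157) (.e (nat_lit 7936) (nat_lit 373) .nil))))))) (.g (nat_lit 4) .nil .nil))))))) (.nd (nat_lit 2) (.nd (nat_lit 3) (.nd (nat_lit 4) (.nd (nat_lit 5) 
(.lf (nat_lit 145731) (.g (nat_lit 3499) (.e (nat_lit 57372) (nat_lit 2) (.e (nat_lit 90176) (nat_lit 15) (.e (nat_lit 188439) (nat_lit 20) (.e (nat_lit 3272) (nat_lit 199) (.e (nat_lit 548913) (nat_lit 18) (.e (nat_lit 172138) (nat_lit 15) (.e (nat_lit 1009) (nat_lit 81) (.e (nat_lit 6930) (nat_lit 373) .nil)))))))) (.g (nat_lit 6) .nil .nil))) 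
(.lf (nat_lit 145763) (.g (nat_lit 3650) (.e (nat_lit 57372) (nat_lit 2) (.e (nat_lit 90176) (nat_lit 15) (.e (nat_lit 188447) (nat_lit 22) (.e (nat_lit 196666) (nat_lit 13) (.e (nat_lit 65565) (nat_lit 1) (.e (nat_lit 65280) (nat_lit 241) .nil)))))) (.g (nat_lit 5) .nil .nil)))) (.nd (nat_lit 5) 
(.lf (nat_lit 145747) (.g (nat_lit 2605) (.e (nat_lit 57372) (nat_lit 2) (.e (nat_lit 90176) (nat_lit 15) (.e (nat_lit 188447) (nat_lit 22) (.e (nat_lit 196666) (nat_lit 13) (.e (nat_lit 65543) (nat_lit 0) .nil))))) .nil)) 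
(.lf (nat_lit 145779) (.g (nat_lit 3747) (.e (nat_lit 57372) (nat_lit 2) (.e (nat_lit 90176) (nat_lit 15) (.e (nat_lit 188447) (nat_lit 22) (.e (nat_lit 196681) (nat_lit 17) (.e (nat_lit 131089) (nat_lit 1) (.e (nat_lit 65280) (nat_lit 241) .nil)))))) (.g (nat_lit 5) .nil .nil))))) (.nd (nat_lit 4) (.nd (nat_lit 5) 
(.lf (nat_lit 145739) (.g (nat_lit 2824) (.e (nat_lit 57372) (nat_lit 2) (.e (nat_lit 90176) (nat_lit 15) (.e (nat_lit 188447) (nat_lit 22) (.e (nat_lit 196666) (nat_lit 13) (.e (nat_lit 65537) (nat_lit 0) .nil))))) .nil)) 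
(.lf (nat_lit 145771) (.g (nat_lit 2958) (.e (nat_lit 57372) (nat_lit 2) (.e (nat_lit 90176) (nat_lit 15) (.e (nat_lit 188447) (nat_lit 22) (.e (nat_lit 196668) (nat_lit 14) (.e (nat_lit 81664) (nat_lit 0) (.e (nat_lit 4840) (nat_lit 283) .nil)))))) (.g (nat_lit 4) .nil .nil)))) (.nd (nat_lit 5) 
(.lf (nat_lit 145755) (.g (nat_lit 3344) (.e (nat_lit 57372) (nat_lit 2) (.e (nat_lit 90176) (nat_lit 15) (.e (nat_lit 188447) (nat_lit 22) (.e (nat_lit 196666) (nat_lit 13) (.e (nat_lit 65546) (nat_lit 0) (.e (nat_lit 991) (nat_lit 81) (.e (nat_lit 7936) (nat_lit 283) .nil))))))) (.g (nat_lit 6) .nil .nil))) 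
(.lf (nat_lit 145787) (.g (nat_lit 2127) (.e (nat_lit 57372) (nat_lit 2) (.e (nat_lit 90176) (nat_lit 15) (.e (nat_lit 188450) (nat_lit 23) (.e (nat_lit 204852) (nat_lit 26) (.e (nat_lit 336240) (nat_lit 15) .nil))))) .nil))))) (.nd (nat_lit 3) (.nd (nat_lit 4) (.nd (nat_lit 5) 
(.lf (nat_lit 145735) (.g (nat_lit 1338) (.e (nat_lit 57372) (nat_lit 2) (.e (nat_lit 90176) (nat_lit 15) (.e (nat_lit 188447) (nat_lit 22) (.e (nat_lit 196661) (nat_lit 12) (.e (nat_lit 57721) (nat_lit 177) .nil))))) .nil)) 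
(.lf (nat_lit 145767) (.g (nat_lit 3129) (.e (nat_lit 57372) (nat_lit 2) (.e (nat_lit 90176) (nat_lit 15) (.e (nat_lit 188447) (nat_lit 22) (.e (nat_lit 196668) (nat_lit 14) (.e (nat_lit 73728) (nat_lit 0) (.e (nat_lit 4841) (nat_lit 283) .nil)))))) (.g (nat_lit 4) .nil .nil)))) (.nd (nat_lit 5) 
(.lf (nat_lit 145751) (.g (nat_lit 3312) (.e (nat_lit 57372) (nat_lit 2) (.e (nat_lit 90176) (nat_lit 15) (.e (nat_lit 188447) (nat_lit 22) (.e (nat_lit 196666) (nat_lit 13) (.e (nat_lit 65546) (nat_lit 0) (.e (nat_lit 989) (nat_lit 81) (.e (nat_lit 4841) (nat_lit 283) .nil))))))) (.g (nat_lit 4) .nil .nil))) 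
(.lf (nat_lit 145783) (.g (nat_lit 1928) (.e (nat_lit 57372) (nat_lit 2) (.e (nat_lit 90176) (nat_lit 15) (.e (nat_lit 188450) (nat_lit 23) (.e (nat_lit 204849) (nat_lit 25) (.e (nat_lit 327692) (nat_lit 1) .nil))))) .nil)))) (.nd (nat_lit 4) (.nd (nat_lit 5) 
(.lf (nat_lit 145743) (.g (nat_lit 4043) (.e (nat_lit 57372) (nat_lit 2) (.e (nat_lit 90176) (nat_lit 15) (.e (nat_lit 188447) (nat_lit 22) (.e (nat_lit 196666) (nat_lit 13) (.e (nat_lit 65538) (nat_lit 0) (.e (nat_lit 1050) (nat_lit 81) (.e (nat_lit 4840) (nat_lit 283) .nil))))))) (.g (nat_lit 4) .nil .nil))) 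
(.lf (nat_lit 145775) (.g (nat_lit 4218) (.e (nat_lit 57372) (nat_lit 2) (.e (nat_lit 90176) (nat_lit 15) (.e (nat_lit 188447) (nat_lit 22) (.e (nat_lit 196670) (nat_lit 14) (.e (nat_lit 73729) (nat_lit 0) (.e (nat_lit 7936) (nat_lit 283) .nil)))))) (.g (nat_lit 5) .nil .nil)))) (.nd (nat_lit 5) 
(.lf (nat_lit 145759) (.g (nat_lit 2443) (.e (nat_lit 57372) (nat_lit 2) (.e (nat_lit 90176) (nat_lit 15) (.e (nat_lit 188447) (nat_lit 22) (.e (nat_lit 196666) (nat_lit 13) (.e (nat_lit 65553) (nat_lit 0) (.e (nat_lit 990) (nat_lit 81) (.e (nat_lit 7936) (nat_lit 283) .nil))))))) (.g (nat_lit 4) .nil .nil))) 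
(.lf (nat_lit 145791) (.g (nat_lit 2248) (.e (nat_lit 57372) (nat_lit 2) (.e (nat_lit 90176) (nat_lit 15) (.e (nat_lit 188450) (nat_lit 23) (.e (nat_lit 204852) (nat_lit 26) (.e (nat_lit 336257) (nat_lit 15) (.e (nat_lit 2398) (nat_lit 157) (.e (nat_lit 6930) (nat_lit 373) .nil))))))) (.g (nat_lit 4) .nil .nil)))))))))

noncomputable def tv1936 : DT := (.nd (nat_lit 0) (.nd (nat_lit 1) (.nd (nat_lit 2) (.nd (nat_lit 3) (.nd (nat_lit 4) (.nd (nat_lit 5) 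
(.lf (nat_lit 145792) (.g (nat_lit 3809) (.e (nat_lit 57372) (nat_lit 2) (.e (nat_lit 90176) (nat_lit 15) (.e (nat_lit 188450) (nat_lit 23) (.e (nat_lit 204852) (nat_lit 26) (.e (nat_lit 336257) (nat_lit 15) (.e (nat_lit 2400) (nat_lit 157) (.e (nat_lit 6930) (nat_lit 373) .nil))))))) (.g (nat_lit 7) .nil .nil))) 
(.lf (nat_lit 145824) (.g (nat_lit 2280) (.e (nat_lit 57372) (nat_lit 2) (.e (nat_lit 90176) (nat_lit 15) (.e (nat_lit 188450) (nat_lit 23) (.e (nat_lit 204855) (nat_lit 26) (.e (nat_lit 336034) (nat_lit 4) .nil))))) .nil))) (.nd (nat_lit 5) 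
(.lf (nat_lit 145808) (.g (nat_lit 2596) (.e (nat_lit 57372) (nat_lit 2) (.e (nat_lit 90176) (nat_lit 15) (.e (nat_lit 188450) (nat_lit 23) (.e (nat_lit 204852) (nat_lit 26) (.e (nat_lit 336312) (nat_lit 16) (.e (nat_lit 171776) (nat_lit 172) .nil)))))) (.g (nat_lit 4) .nil .nil))) 
(.lf (nat_lit 145840) (.g (nat_lit 2292) (.e (nat_lit 57372) (nat_lit 2) (.e (nat_lit 90176) (nat_lit 15) (.e (nat_lit 188450) (nat_lit 23) (.e (nat_lit 204862) (nat_lit 27) (.e (nat_lit 344088) (nat_lit 18) (.e (nat_lit 7936) (nat_lit 283) .nil)))))) (.g (nat_lit 4) .nil .nil))))) (.nd (nat_lit 4) (.nd (nat_lit 5) 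
(.lf (nat_lit 145800) (.g (nat_lit 2904) (.e (nat_lit 57372) (nat_lit 2) (.e (nat_lit 90176) (nat_lit 15) (.e (nat_lit 188450) (nat_lit 23) (.e (nat_lit 204852) (nat_lit 26) (.e (nat_lit 336261) (nat_lit 15) (.e (nat_lit 2416) (nat_lit 157) (.e (nat_lit 6931) (nat_lit 373) .nil))))))) (.g (nat_lit 5) .nil .nil))) 
(.lf (nat_lit 145832) (.g (nat_lit 3715) (.e (nat_lit 57372) (nat_lit 2) (.e (nat_lit 90176) (nat_lit 15) (.e (nat_lit 188450) (nat_lit 23) (.e (nat_lit 204861) (nat_lit 26) (.e (nat_lit 335892) (nat_lit 0) (.e (nat_lit 969) (nat_lit 81) (.e (nat_lit 4840) (nat_lit 283) .nil))))))) (.g (nat_lit 5) .nil .nil)))) (.nd (nat_lit 5) 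
(.lf (nat_lit 145816) (.g (nat_lit 2802) (.e (nat_lit 57372) (nat_lit 2) (.e (nat_lit 90176) (nat_lit 15) (.e (nat_lit 188450) (nat_lit 23) (.e (nat_lit 204855) (nat_lit 26) (.e (nat_lit 335901) (nat_lit 0) (.e (nat_lit 1049) (nat_lit 81) (.e (nat_lit 4840) (nat_lit 283) .nil))))))) (.g (nat_lit 4) .nil .nil))) 
(.lf (nat_lit 145848) (.g (nat_lit 2852) (.e (nat_lit 57372) (nat_lit 2) (.e (nat_lit 90176) (nat_lit 15) (.e (nat_lit 188450) (nat_lit 23) (.e (nat_lit 204863) (nat_lit 27) (.e (nat_lit 344088) (nat_lit 18) (.e (nat_lit 7936) (nat_lit 283) .nil)))))) (.g (nat_lit 5) .nil .nil)))))) (.nd (nat_lit 3) (.nd (nat_lit 4) (.nd (nat_lit 5) 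
(.lf (nat_lit 145796) (.g (nat_lit 2466) (.e (nat_lit 57372) (nat_lit 2) (.e (nat_lit 90176) (nat_lit 15) (.e (nat_lit 188450) (nat_lit 23) (.e (nat_lit 204852) (nat_lit 26) (.e (nat_lit 336257) (nat_lit 15) (.e (nat_lit 2418) (nat_lit 157) (.e (nat_lit 6931) (nat_lit 373) .nil))))))) (.g (nat_lit 4) .nil .nil))) 
(.lf (nat_lit 145828) (.g (nat_lit 2713) (.e (nat_lit 57372) (nat_lit 2) (.e (nat_lit 90176) (nat_lit 15) (.e (nat_lit 188450) (nat_lit 23) (.e (nat_lit 204855) (nat_lit 26) (.e (nat_lit 336248) (nat_lit 15) (.e (nat_lit 2412) (nat_lit 157) (.e (nat_lit 6930) (nat_lit 373) .nil))))))) (.g (nat_lit 4) .nil .nil)))) (.nd (nat_lit 5) 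
(.lf (nat_lit 145812) (.g (nat_lit 3410) (.e (nat_lit 57372) (nat_lit 2) (.e (nat_lit 90176) (nat_lit 15) (.e (nat_lit 188450) (nat_lit 23) (.e (nat_lit 204852) (nat_lit 26) (.e (nat_lit 336342) (nat_lit 21) (.e (nat_lit 237312) (nat_lit 172) .nil)))))) (.g (nat_lit 5) .nil .nil))) 
(.lf (nat_lit 145844) (.g (nat_lit 2362) (.e (nat_lit 57372) (nat_lit 2) (.e (nat_lit 90176) (nat_lit 15) (.e (nat_lit 188450) (nat_lit 23) (.e (nat_lit 204862) (nat_lit 27) (.e (nat_lit 344095) (nat_lit 18) (.e (nat_lit 7936) (nat_lit 283) .nil)))))) (.g (nat_lit 4) .nil .nil))))) (.nd (nat_lit 4) (.nd (nat_lit 5) 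
(.lf (nat_lit 145804) (.g (nat_lit 2790) (.e (nat_lit 57372) (nat_lit 2) (.e (nat_lit 90176) (nat_lit 15) (.e (nat_lit 188450) (nat_lit 23) (.e (nat_lit 204852) (nat_lit 26) (.e (nat_lit 343808) (nat_lit 15) (.e (nat_lit 2411) (nat_lit 157) (.e (nat_lit 6930) (nat_lit 373) .nil))))))) (.g (nat_lit 4) .nil .nil))) 
(.lf (nat_lit 145836) (.g (nat_lit 3185) (.e (nat_lit 57372) (nat_lit 2) (.e (nat_lit 90176) (nat_lit 15) (.e (nat_lit 188450) (nat_lit 23) (.e (nat_lit 204861) (nat_lit 26) (.e (nat_lit 335986) (nat_lit 1) (.e (nat_lit 65280) (nat_lit 241) .nil)))))) (.g (nat_lit 4) .nil .nil)))) (.nd (nat_lit 5) 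
(.lf (nat_lit 145820) (.g (nat_lit 2349) (.e (nat_lit 57372) (nat_lit 2) (.e (nat_lit 90176) (nat_lit 15) (.e (nat_lit 188450) (nat_lit 23) (.e (nat_lit 204855) (nat_lit 26) (.e (nat_lit 335989) (nat_lit 1) .nil))))) .nil)) 
(.lf (nat_lit 145852) (.g (nat_lit 2993) (.e (nat_lit 57372) (nat_lit 2) (.e (nat_lit 90176) (nat_lit 15) (.e (nat_lit 188450) (nat_lit 23) (.e (nat_lit 204863) (nat_lit 27) (.e (nat_lit 344091) (nat_lit 18) (.e (nat_lit 7936) (nat_lit 283) .nil)))))) (.g (nat_lit 5) .nil .nil))))))) (.nd (nat_lit 2) (.nd (nat_lit 3) (.nd (nat_lit 4) (.nd (nat_lit 5) 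
(.lf (nat_lit 145794) (.g (nat_lit 3739) (.e (nat_lit 57372) (nat_lit 2) (.e (nat_lit 90176) (nat_lit 15) (.e (nat_lit 188450) (nat_lit 23) (.e (nat_lit 204852) (nat_lit 26) (.e (nat_lit 336257) (nat_lit 15) (.e (nat_lit 2403) (nat_lit 157) (.e (nat_lit 6930) (nat_lit 373) .nil))))))) (.g (nat_lit 7) .nil .nil))) 
(.lf (nat_lit 145826) (.g (nat_lit 2748) (.e (nat_lit 57372) (nat_lit 2) (.e (nat_lit 90176) (nat_lit 15) (.e (nat_lit 188450) (nat_lit 23) (.e (nat_lit 204855) (nat_lit 26) (.e (nat_lit 336248) (nat_lit 15) (.e (nat_lit 2401) (nat_lit 157) (.e (nat_lit 6930) (nat_lit 373) .nil))))))) (.g (nat_lit 4) .nil .nil)))) (.nd (nat_lit 5) 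
(.lf (nat_lit 145810) (.g (nat_lit 2807) (.e (nat_lit 57372) (nat_lit 2) (.e (nat_lit 90176) (nat_lit 15) (.e (nat_lit 188450) (nat_lit 23) (.e (nat_lit 204852) (nat_lit 26) (.e (nat_lit 336339) (nat_lit 21) (.e (nat_lit 237312) (nat_lit 172) .nil)))))) (.g (nat_lit 4) .nil .nil))) 
(.lf (nat_lit 145842) (.g (nat_lit 2679) (.e (nat_lit 57372) (nat_lit 2) (.e (nat_lit 90176) (nat_lit 15) (.e (nat_lit 188450) (nat_lit 23) (.e (nat_lit 204862) (nat_lit 27) (.e (nat_lit 344090) (nat_lit 18) (.e (nat_lit 7936) (nat_lit 283) .nil)))))) (.g (nat_lit 4) .nil .nil))))) (.nd (nat_lit 4) (.nd (nat_lit 5) 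
(.lf (nat_lit 145802) (.g (nat_lit 2487) (.e (nat_lit 57372) (nat_lit 2) (.e (nat_lit 90176) (nat_lit 15) (.e (nat_lit 188450) (nat_lit 23) (.e (nat_lit 204852) (nat_lit 26) (.e (nat_lit 336303) (nat_lit 15) .nil))))) .nil)) 
(.lf (nat_lit 145834) (.g (nat_lit 3353) (.e (nat_lit 57372) (nat_lit 2) (.e (nat_lit 90176) (nat_lit 15) (.e (nat_lit 188450) (nat_lit 23) (.e (nat_lit 204861) (nat_lit 26) (.e (nat_lit 335892) (nat_lit 0) (.e (nat_lit 1049) (nat_lit 81) (.e (nat_lit 4840) (nat_lit 283) .nil))))))) (.g (nat_lit 4) .nil .nil)))) (.nd (nat_lit 5) 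
(.lf (nat_lit 145818) (.g (nat_lit 3058) (.e (nat_lit 57372) (nat_lit 2) (.e (nat_lit 90176) (nat_lit 15) (.e (nat_lit 188450) (nat_lit 23) (.e (nat_lit 204855) (nat_lit 26) (.e (nat_lit 335923) (nat_lit 0) (.e (nat_lit 989) (nat_lit 81) (.e (nat_lit 4841) (nat_lit 283) .nil))))))) (.g (nat_lit 4) .nil .nil))) 
(.lf (nat_lit 145850) (.g (nat_lit 3085) (.e (nat_lit 57372) (nat_lit 2) (.e (nat_lit 90176) (nat_lit 15) (.e (nat_lit 188450) (nat_lit 23) (.e (nat_lit 204863) (nat_lit 27) (.e (nat_lit 344089) (nat_lit 18) (.e (nat_lit 7936) (nat_lit 283) .nil)))))) (.g (nat_lit 5) .nil .nil)))))) (.nd (nat_lit 3) (.nd (nat_lit 4) (.nd (nat_lit 5) 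
(.lf (nat_lit 145798) (.g (nat_lit 2755) (.e (nat_lit 57372) (nat_lit 2) (.e (nat_lit 90176) (nat_lit 15) (.e (nat_lit 188450) (nat_lit 23) (.e (nat_lit 204852) (nat_lit 26) (.e (nat_lit 336259) (nat_lit 15) (.e (nat_lit 2422) (nat_lit 157) (.e (nat_lit 6931) (nat_lit 373) .nil))))))) (.g (nat_lit 4) .nil .nil))) 
(.lf (nat_lit 145830) (.g (nat_lit 1781) (.e (nat_lit 57372) (nat_lit 2) (.e (nat_lit 90176) (nat_lit 15) (.e (nat_lit 188450) (nat_lit 23) (.e (nat_lit 204858) (nat_lit 26) .nil)))) .nil))) (.nd (nat_lit 5) 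
(.lf (nat_lit 145814) (.g (nat_lit 2959) (.e (nat_lit 57372) (nat_lit 2) (.e (nat_lit 90176) (nat_lit 15) (.e (nat_lit 188450) (nat_lit 23) (.e (nat_lit 204855) (nat_lit 26) (.e (nat_lit 335901) (nat_lit 0) (.e (nat_lit 969) (nat_lit 81) (.e (nat_lit 4840) (nat_lit 283) .nil))))))) (.g (nat_lit 4) .nil .nil))) 
(.lf (nat_lit 145846) (.g (nat_lit 3529) (.e (nat_lit 57372) (nat_lit 2) (.e (nat_lit 90176) (nat_lit 15) (.e (nat_lit 188450) (nat_lit 23) (.e (nat_lit 204863) (nat_lit 27) (.e (nat_lit 344087) (nat_lit 18) (.e (nat_lit 4841) (nat_lit 283) .nil)))))) (.g (nat_lit 4) .nil .nil))))) (.nd (nat_lit 4) (.nd (nat_lit 5) 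
(.lf (nat_lit 145806) (.g (nat_lit 2833) (.e (nat_lit 57372) (nat_lit 2) (.e (nat_lit 90176) (nat_lit 15) (.e (nat_lit 188450) (nat_lit 23) (.e (nat_lit 204852) (nat_lit 26) (.e (nat_lit 336309) (nat_lit 16) (.e (nat_lit 171776) (nat_lit 172) .nil)))))) (.g (nat_lit 4) .nil .nil))) 
(.lf (nat_lit 145838) (.g (nat_lit 3853) (.e (nat_lit 57372) (nat_lit 2) (.e (nat_lit 90176) (nat_lit 15) (.e (nat_lit 188450) (nat_lit 23) (.e (nat_lit 204861) (nat_lit 26) (.e (nat_lit 335988) (nat_lit 1) (.e (nat_lit 65280) (nat_lit 241) .nil)))))) (.g (nat_lit 5) .nil .nil)))) (.nd (nat_lit 5) 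
(.lf (nat_lit 145822) (.g (nat_lit 2276) (.e (nat_lit 57372) (nat_lit 2) (.e (nat_lit 90176) (nat_lit 15) (.e (nat_lit 188450) (nat_lit 23) (.e (nat_lit 204855) (nat_lit 26) (.e (nat_lit 335992) (nat_lit 1) .nil))))) .nil)) 
(.lf (nat_lit 145854) (.g (nat_lit 2661) (.e (nat_lit 57372) (nat_lit 2) (.e (nat_lit 90176) (nat_lit 15) (.e (nat_lit 188450) (nat_lit 23) (.e (nat_lit 204863) (nat_lit 27) (.e (nat_lit 344093) (nat_lit 18) .nil))))) .nil))))))) (.nd (nat_lit 1) (.nd (nat_lit 2) (.nd (nat_lit 3) (.nd (nat_lit 4) (.nd (nat_lit 5) 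
(.lf (nat_lit 145793) (.g (nat_lit 2253) (.e (nat_lit 57372) (nat_lit 2) (.e (nat_lit 90176) (nat_lit 15) (.e (nat_lit 188450) (nat_lit 23) (.e (nat_lit 204852) (nat_lit 26) (.e (nat_lit 336257) (nat_lit 15) (.e (nat_lit 2401) (nat_lit 157) (.e (nat_lit 6930) (nat_lit 373) .nil))))))) (.g (nat_lit 4) .nil .nil))) 
(.lf (nat_lit 145825) (.g (nat_lit 2396) (.e (nat_lit 57372) (nat_lit 2) (.e (nat_lit 90176) (nat_lit 15) (.e (nat_lit 188450) (nat_lit 23) (.e (nat_lit 204855) (nat_lit 26) (.e (nat_lit 336248) (nat_lit 15) .nil))))) .nil))) (.nd (nat_lit 5) 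
(.lf (nat_lit 145809) (.g (nat_lit 2354) (.e (nat_lit 57372) (nat_lit 2) (.e (nat_lit 90176) (nat_lit 15) (.e (nat_lit 188450) (nat_lit 23) (.e (nat_lit 204852) (nat_lit 26) (.e (nat_lit 336314) (nat_lit 16) (.e (nat_lit 171776) (nat_lit 172) .nil)))))) (.g (nat_lit 4) .nil .nil))) 
(.lf (nat_lit 145841) (.g (nat_lit 2449) (.e (nat_lit 57372) (nat_lit 2) (.e (nat_lit 90176) (nat_lit 15) (.e (nat_lit 188450) (nat_lit 23) (.e (nat_lit 204862) (nat_lit 27) (.e (nat_lit 344089) (nat_lit 18) (.e (nat_lit 7936) (nat_lit 283) .nil)))))) (.g (nat_lit 4) .nil .nil))))) (.nd (nat_lit 4) (.nd (nat_lit 5) 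
(.lf (nat_lit 145801) (.g (nat_lit 2591) (.e (nat_lit 57372) (nat_lit 2) (.e (nat_lit 90176) (nat_lit 15) (.e (nat_lit 188450) (nat_lit 23) (.e (nat_lit 204852) (nat_lit 26) (.e (nat_lit 336261) (nat_lit 15) (.e (nat_lit 2515) (nat_lit 157) (.e (nat_lit 7936) (nat_lit 373) .nil))))))) (.g (nat_lit 4) .nil .nil))) 
(.lf (nat_lit 145833) (.g (nat_lit 3569) (.e (nat_lit 57372) (nat_lit 2) (.e (nat_lit 90176) (nat_lit 15) (.e (nat_lit 188450) (nat_lit 23) (.e (nat_lit 204861) (nat_lit 26) (.e (nat_lit 335892) (nat_lit 0) (.e (nat_lit 971) (nat_lit 81) (.e (nat_lit 4840) (nat_lit 283) .nil))))))) (.g (nat_lit 4) .nil .nil)))) (.nd (nat_lit 5) 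
(.lf (nat_lit 145817) (.g (nat_lit 2661) (.e (nat_lit 57372) (nat_lit 2) (.e (nat_lit 90176) (nat_lit 15) (.e (nat_lit 188450) (nat_lit 23) (.e (nat_lit 204855) (nat_lit 26) (.e (nat_lit 335901) (nat_lit 0) (.e (nat_lit 1050) (nat_lit 81) (.e (nat_lit 4840) (nat_lit 283) .nil))))))) (.g (nat_lit 4) .nil .nil))) 
(.lf (nat_lit 145849) (.g (nat_lit 3225) (.e (nat_lit 57372) (nat_lit 2) (.e (nat_lit 90176) (nat_lit 15) (.e (nat_lit 188450) (nat_lit 23) (.e (nat_lit 204863) (nat_lit 27) (.e (nat_lit 344089) (nat_lit 18) (.e (nat_lit 4841) (nat_lit 283) .nil)))))) (.g (nat_lit 4) .nil .nil)))))) (.nd (nat_lit 3) (.nd (nat_lit 4) (.nd (nat_lit 5) 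
(.lf (nat_lit 145797) (.g (nat_lit 2861) (.e (nat_lit 57372) (nat_lit 2) (.e (nat_lit 90176) (nat_lit 15) (.e (nat_lit 188450) (nat_lit 23) (.e (nat_lit 204852) (nat_lit 26) (.e (nat_lit 336258) (nat_lit 15) (.e (nat_lit 2450) (nat_lit 157) (.e (nat_lit 7936) (nat_lit 373) .nil))))))) (.g (nat_lit 5) .nil .nil))) 
(.lf (nat_lit 145829) (.g (nat_lit 2382) (.e (nat_lit 57372) (nat_lit 2) (.e (nat_lit 90176) (nat_lit 15) (.e (nat_lit 188450) (nat_lit 23) (.e (nat_lit 204855) (nat_lit 26) (.e (nat_lit 336338) (nat_lit 21) .nil))))) .nil))) (.nd (nat_lit 5) 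
(.lf (nat_lit 145813) (.g (nat_lit 1279) (.e (nat_lit 57372) (nat_lit 2) (.e (nat_lit 90176) (nat_lit 15) (.e (nat_lit 188450) (nat_lit 23) (.e (nat_lit 204853) (nat_lit 26) .nil)))) .nil)) 
(.lf (nat_lit 145845) (.g (nat_lit 2460) (.e (nat_lit 57372) (nat_lit 2) (.e (nat_lit 90176) (nat_lit 15) (.e (nat_lit 188450) (nat_lit 23) (.e (nat_lit 204862) (nat_lit 27) (.e (nat_lit 344097) (nat_lit 18) (.e (nat_lit 7936) (nat_lit 283) .nil)))))) (.g (nat_lit 4) .nil .nil))))) (.nd (nat_lit 4) (.nd (nat_lit 5) 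
(.lf (nat_lit 145805) (.g (nat_lit 2354) (.e (nat_lit 57372) (nat_lit 2) (.e (nat_lit 90176) (nat_lit 15) (.e (nat_lit 188450) (nat_lit 23) (.e (nat_lit 204852) (nat_lit 26) (.e (nat_lit 343808) (nat_lit 15) (.e (nat_lit 2412) (nat_lit 157) (.e (nat_lit 6930) (nat_lit 373) .nil))))))) (.g (nat_lit 4) .nil .nil))) 
(.lf (nat_lit 145837) (.g (nat_lit 3182) (.e (nat_lit 57372) (nat_lit 2) (.e (nat_lit 90176) (nat_lit 15) (.e (nat_lit 188450) (nat_lit 23) (.e (nat_lit 204861) (nat_lit 26) (.e (nat_lit 335987) (nat_lit 1) (.e (nat_lit 65280) (nat_lit 241) .nil)))))) (.g (nat_lit 5) .nil .nil)))) (.nd (nat_lit 5) 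
(.lf (nat_lit 145821) (.g (nat_lit 2335) (.e (nat_lit 57372) (nat_lit 2) (.e (nat_lit 90176) (nat_lit 15) (.e (nat_lit 188450) (nat_lit 23) (.e (nat_lit 204855) (nat_lit 26) (.e (nat_lit 335991) (nat_lit 1) .nil))))) .nil)) 
(.lf (nat_lit 145853) (.g (nat_lit 2910) (.e (nat_lit 57372) (nat_lit 2) (.e (nat_lit 90176) (nat_lit 15) (.e (nat_lit 188450) (nat_lit 23) (.e (nat_lit 204863) (nat_lit 27) (.e (nat_lit 344092) (nat_lit 18) (.e (nat_lit 7936) (nat_lit 283) .nil)))))) (.g (nat_lit 4) .nil .nil))))))) (.nd (nat_lit 2) (.nd (nat_lit 3) (.nd (nat_lit 4) (.nd (nat_lit 5) 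
(.lf (nat_lit 145795) (.g (nat_lit 3080) (.e (nat_lit 57372) (nat_lit 2) (.e (nat_lit 90176) (nat_lit 15) (.e (nat_lit 188450) (nat_lit 23) (.e (nat_lit 204852) (nat_lit 26) (.e (nat_lit 336257) (nat_lit 15) (.e (nat_lit 2416) (nat_lit 157) (.e (nat_lit 6931) (nat_lit 373) .nil))))))) (.g (nat_lit 5) .nil .nil))) 
(.lf (nat_lit 145827) (.g (nat_lit 2552) (.e (nat_lit 57372) (nat_lit 2) (.e (nat_lit 90176) (nat_lit 15) (.e (nat_lit 188450) (nat_lit 23) (.e (nat_lit 204855) (nat_lit 26) (.e (nat_lit 336248) (nat_lit 15) (.e (nat_lit 2411) (nat_lit 157) (.e (nat_lit 6930) (nat_lit 373) .nil))))))) (.g (nat_lit 4) .nil .nil)))) (.nd (nat_lit 5) 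
(.lf (nat_lit 145811) (.g (nat_lit 2895) (.e (nat_lit 57372) (nat_lit 2) (.e (nat_lit 90176) (nat_lit 15) (.e (nat_lit 188450) (nat_lit 23) (.e (nat_lit 204852) (nat_lit 26) (.e (nat_lit 336340) (nat_lit 21) (.e (nat_lit 237312) (nat_lit 172) .nil)))))) (.g (nat_lit 5) .nil .nil))) 
(.lf (nat_lit 145843) (.g (nat_lit 2129) (.e (nat_lit 57372) (nat_lit 2) (.e (nat_lit 90176) (nat_lit 15) (.e (nat_lit 188450) (nat_lit 23) (.e (nat_lit 204862) (nat_lit 27) (.e (nat_lit 344091) (nat_lit 18) (.e (nat_lit 7936) (nat_lit 283) .nil)))))) (.g (nat_lit 4) .nil .nil))))) (.nd (nat_lit 4) (.nd (nat_lit 5) 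
(.lf (nat_lit 145803) (.g (nat_lit 2674) (.e (nat_lit 57372) (nat_lit 2) (.e (nat_lit 90176) (nat_lit 15) (.e (nat_lit 188450) (nat_lit 23) (.e (nat_lit 204852) (nat_lit 26) (.e (nat_lit 343808) (nat_lit 15) (.e (nat_lit 2401) (nat_lit 157) (.e (nat_lit 6930) (nat_lit 373) .nil))))))) (.g (nat_lit 4) .nil .nil))) 
(.lf (nat_lit 145835) (.g (nat_lit 3466) (.e (nat_lit 57372) (nat_lit 2) (.e (nat_lit 90176) (nat_lit 15) (.e (nat_lit 188450) (nat_lit 23) (.e (nat_lit 204861) (nat_lit 26) (.e (nat_lit 335892) (nat_lit 0) (.e (nat_lit 1050) (nat_lit 81) (.e (nat_lit 4840) (nat_lit 283) .nil))))))) (.g (nat_lit 4) .nil .nil)))) (.nd (nat_lit 5) 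
(.lf (nat_lit 145819) (.g (nat_lit 2770) (.e (nat_lit 57372) (nat_lit 2) (.e (nat_lit 90176) (nat_lit 15) (.e (nat_lit 188450) (nat_lit 23) (.e (nat_lit 204855) (nat_lit 26) (.e (nat_lit 335925) (nat_lit 0) (.e (nat_lit 989) (nat_lit 81) (.e (nat_lit 4841) (nat_lit 283) .nil))))))) (.g (nat_lit 4) .nil .nil))) 
(.lf (nat_lit 145851) (.g (nat_lit 3017) (.e (nat_lit 57372) (nat_lit 2) (.e (nat_lit 90176) (nat_lit 15) (.e (nat_lit 188450) (nat_lit 23) (.e (nat_lit 204863) (nat_lit 27) (.e (nat_lit 344090) (nat_lit 18) (.e (nat_lit 7936) (nat_lit 283) .nil)))))) (.g (nat_lit 5) .nil .nil)))))) (.nd (nat_lit 3) (.nd (nat_lit 4) (.nd (nat_lit 5) 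
(.lf (nat_lit 145799) (.g (nat_lit 2650) (.e (nat_lit 57372) (nat_lit 2) (.e (nat_lit 90176) (nat_lit 15) (.e (nat_lit 188450) (nat_lit 23) (.e (nat_lit 204852) (nat_lit 26) (.e (nat_lit 336259) (nat_lit 15) (.e (nat_lit 2424) (nat_lit 157) (.e (nat_lit 6931) (nat_lit 373) .nil))))))) (.g (nat_lit 4) .nil .nil))) 
(.lf (nat_lit 145831) (.g (nat_lit 2683) (.e (nat_lit 57372) (nat_lit 2) (.e (nat_lit 90176) (nat_lit 15) (.e (nat_lit 188450) (nat_lit 23) (.e (nat_lit 204859) (nat_lit 26) (.e (nat_lit 335998) (nat_lit 1) (.e (nat_lit 65280) (nat_lit 241) .nil)))))) (.g (nat_lit 4) .nil .nil)))) (.nd (nat_lit 5) 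
(.lf (nat_lit 145815) (.g (nat_lit 2801) (.e (nat_lit 57372) (nat_lit 2) (.e (nat_lit 90176) (nat_lit 15) (.e (nat_lit 188450) (nat_lit 23) (.e (nat_lit 204855) (nat_lit 26) (.e (nat_lit 335901) (nat_lit 0) (.e (nat_lit 971) (nat_lit 81) (.e (nat_lit 4840) (nat_lit 283) .nil))))))) (.g (nat_lit 4) .nil .nil))) 
(.lf (nat_lit 145847) (.g (nat_lit 3851) (.e (nat_lit 57372) (nat_lit 2) (.e (nat_lit 90176) (nat_lit 15) (.e (nat_lit 188450) (nat_lit 23) (.e (nat_lit 204863) (nat_lit 27) (.e (nat_lit 344088) (nat_lit 18) (.e (nat_lit 4841) (nat_lit 283) .nil)))))) (.g (nat_lit 5) .nil .nil))))) (.nd (nat_lit 4) (.nd (nat_lit 5) 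
(.lf (nat_lit 145807) (.g (nat_lit 2882) (.e (nat_lit 57372) (nat_lit 2) (.e (nat_lit 90176) (nat_lit 15) (.e (nat_lit 188450) (nat_lit 23) (.e (nat_lit 204852) (nat_lit 26) (.e (nat_lit 336310) (nat_lit 16) (.e (nat_lit 171776) (nat_lit 172) .nil)))))) (.g (nat_lit 5) .nil .nil))) 
(.lf (nat_lit 145839) (.g (nat_lit 3311) (.e (nat_lit 57372) (nat_lit 2) (.e (nat_lit 90176) (nat_lit 15) (.e (nat_lit 188450) (nat_lit 23) (.e (nat_lit 204862) (nat_lit 27) (.e (nat_lit 344088) (nat_lit 18) (.e (nat_lit 4841) (nat_lit 283) .nil)))))) (.g (nat_lit 4) .nil .nil)))) (.nd (nat_lit 5) 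
(.lf (nat_lit 145823) (.g (nat_lit 2698) (.e (nat_lit 57372) (nat_lit 2) (.e (nat_lit 90176) (nat_lit 15) (.e (nat_lit 188450) (nat_lit 23) (.e (nat_lit 204855) (nat_lit 26) (.e (nat_lit 336030) (nat_lit 4) (.e (nat_lit 130816) (nat_lit 241) .nil)))))) (.g (nat_lit 5) .nil .nil))) 
(.lf (nat_lit 145855) (.g (nat_lit 3192) (.e (nat_lit 57372) (nat_lit 2) (.e (nat_lit 90176) (nat_lit 15) (.e (nat_lit 188450) (nat_lit 23) (.e (nat_lit 204863) (nat_lit 27) (.e (nat_lit 344094) (nat_lit 18) (.e (nat_lit 7936) (nat_lit 283) .nil)))))) (.g (nat_lit 5) .nil .nil)))))))))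

noncomputable def tv1937 : DT := (.nd (nat_lit 0) (.nd (nat_lit 1) (.nd (nat_lit 2) (.nd (nat_lit 3) (.nd (nat_lit 4) (.nd (nat_lit 5) 
(.lf (nat_lit 145856) (.g (nat_lit 3103) (.e (nat_lit 57372) (nat_lit 2) (.e (nat_lit 90176) (nat_lit 15) (.e (nat_lit 188450) (nat_lit 23) (.e (nat_lit 204863) (nat_lit 27) (.e (nat_lit 344095) (nat_lit 18) (.e (nat_lit 7936) (nat_lit 283) .nil)))))) (.g (nat_lit 5) .nil .nil))) 
(.lf (nat_lit 145888) (.g (nat_lit 2609) (.e (nat_lit 57372) (nat_lit 2) (.e (nat_lit 90185) (nat_lit 17) (.e (nat_lit 237601) (nat_lit 9) (.e (nat_lit 426568) (nat_lit 34) (.e (nat_lit 393252) (nat_lit 18) (.e (nat_lit 164399) (nat_lit 256) .nil)))))) (.g (nat_lit 0) .nil .nil)))) (.nd (nat_lit 5) 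
(.lf (nat_lit 145872) (.g (nat_lit 1614) (.e (nat_lit 57372) (nat_lit 2) (.e (nat_lit 90176) (nat_lit 15) (.e (nat_lit 188450) (nat_lit 23) (.e (nat_lit 204884) (nat_lit 33) (.e (nat_lit 401461) (nat_lit 15) .nil))))) .nil)) 
(.lf (nat_lit 145904) (.g (nat_lit 2900) (.e (nat_lit 57373) (nat_lit 2) (.e (nat_lit 98048) (nat_lit 6) (.e (nat_lit 81951) (nat_lit 22) (.e (nat_lit 90170) (nat_lit 13) (.e (nat_lit 172041) (nat_lit 0) (.e (nat_lit 2492) (nat_lit 157) (.e (nat_lit 5201) (nat_lit 294) .nil))))))) (.g (nat_lit 4) .nil .nil))))) (.nd (nat_lit 4) (.nd (nat_lit 5) 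
(.lf (nat_lit 145864) (.g (nat_lit 1396) (.e (nat_lit 57372) (nat_lit 2) (.e (nat_lit 90176) (nat_lit 15) (.e (nat_lit 188450) (nat_lit 23) (.e (nat_lit 204874) (nat_lit 30) .nil)))) .nil)) 
(.lf (nat_lit 145896) (.g (nat_lit 2218) (.e (nat_lit 57372) (nat_lit 2) (.e (nat_lit 90185) (nat_lit 17) (.e (nat_lit 237623) (nat_lit 13) (.e (nat_lit 483341) (nat_lit 9) (.e (nat_lit 426098) (nat_lit 1) (.e (nat_lit 164399) (nat_lit 256) .nil)))))) (.g (nat_lit 4) .nil .nil)))) (.nd (nat_lit 5) 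
(.lf (nat_lit 145880) (.g (nat_lit 3448) (.e (nat_lit 57372) (nat_lit 2) (.e (nat_lit 90176) (nat_lit 15) (.e (nat_lit 188452) (nat_lit 23) (.e (nat_lit 204885) (nat_lit 33) (.e (nat_lit 401414) (nat_lit 0) .nil))))) .nil)) 
(.lf (nat_lit 145912) (.g (nat_lit 2015) (.e (nat_lit 57373) (nat_lit 2) (.e (nat_lit 98048) (nat_lit 6) (.e (nat_lit 81956) (nat_lit 23) (.e (nat_lit 98356) (nat_lit 26) (.e (nat_lit 426361) (nat_lit 15) (.e (nat_lit 1005) (nat_lit 81) (.e (nat_lit 6402) (nat_lit 339) .nil))))))) (.g (nat_lit 4) .nil .nil)))))) (.nd (nat_lit 3) (.nd (nat_lit 4) (.nd (nat_lit 5) 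
(.lf (nat_lit 145860) (.g (nat_lit 2888) (.e (nat_lit 57372) (nat_lit 2) (.e (nat_lit 90176) (nat_lit 15) (.e (nat_lit 188450) (nat_lit 23) (.e (nat_lit 204864) (nat_lit 27) (.e (nat_lit 344095) (nat_lit 18) (.e (nat_lit 7936) (nat_lit 283) .nil)))))) (.g (nat_lit 5) .nil .nil))) 
(.lf (nat_lit 145892) (.g (nat_lit 2026) (.e (nat_lit 57372) (nat_lit 2) (.e (nat_lit 90185) (nat_lit 17) (.e (nat_lit 237605) (nat_lit 9) (.e (nat_lit 426566) (nat_lit 34) (.e (nat_lit 393252) (nat_lit 18) (.e (nat_lit 164400) (nat_lit 256) .nil)))))) (.g (nat_lit 4) .nil .nil)))) (.nd (nat_lit 5) 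
(.lf (nat_lit 145876) (.g (nat_lit 2504) (.e (nat_lit 57372) (nat_lit 2) (.e (nat_lit 90176) (nat_lit 15) (.e (nat_lit 188450) (nat_lit 23) (.e (nat_lit 204885) (nat_lit 33) (.e (nat_lit 401463) (nat_lit 15) (.e (nat_lit 993) (nat_lit 81) (.e (nat_lit 6930) (nat_lit 373) .nil))))))) (.g (nat_lit 4) .nil .nil))) 
(.lf (nat_lit 145908) (.g (nat_lit 2144) (.e (nat_lit 57373) (nat_lit 2) (.e (nat_lit 98048) (nat_lit 6) (.e (nat_lit 81954) (nat_lit 23) (.e (nat_lit 98356) (nat_lit 26) (.e (nat_lit 426422) (nat_lit 16) (.e (nat_lit 57735) (nat_lit 183) .nil)))))) (.g (nat_lit 4) .nil .nil))))) (.nd (nat_lit 4) (.nd (nat_lit 5) 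
(.lf (nat_lit 145868) (.g (nat_lit 2957) (.e (nat_lit 57372) (nat_lit 2) (.e (nat_lit 90176) (nat_lit 15) (.e (nat_lit 188450) (nat_lit 23) (.e (nat_lit 204880) (nat_lit 32) (.e (nat_lit 385049) (nat_lit 21) (.e (nat_lit 7936) (nat_lit 373) .nil)))))) (.g (nat_lit 5) .nil .nil))) 
(.lf (nat_lit 145900) (.g (nat_lit 2024) (.e (nat_lit 57373) (nat_lit 2) (.e (nat_lit 98048) (nat_lit 5) (.e (nat_lit 73748) (nat_lit 3) (.e (nat_lit 516131) (nat_lit 3) (.e (nat_lit 221215) (nat_lit 23) (.e (nat_lit 204839) (nat_lit 21) (.e (nat_lit 123198) (nat_lit 266) .nil))))))) (.g (nat_lit 5) .nil .nil)))) (.nd (nat_lit 5) 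
(.lf (nat_lit 145884) (.g (nat_lit 489) (.e (nat_lit 57372) (nat_lit 2) (.e (nat_lit 90178) (nat_lit 15) (.e (nat_lit 196352) (nat_lit 18) .nil))) .nil)) 
(.lf (nat_lit 145916) (.g (nat_lit 3079) (.e (nat_lit 57373) (nat_lit 2) (.e (nat_lit 98048) (nat_lit 6) (.e (nat_lit 81956) (nat_lit 23) (.e (nat_lit 98384) (nat_lit 32) (.e (nat_lit 483072) (nat_lit 21) (.e (nat_lit 6401) (nat_lit 339) .nil)))))) (.g (nat_lit 4) .nil .nil))))))) (.nd (nat_lit 2) (.nd (nat_lit 3) (.nd (nat_lit 4) (.nd (nat_lit 5) 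
(.lf (nat_lit 145858) (.g (nat_lit 2655) (.e (nat_lit 57372) (nat_lit 2) (.e (nat_lit 90176) (nat_lit 15) (.e (nat_lit 188450) (nat_lit 23) (.e (nat_lit 204863) (nat_lit 27) (.e (nat_lit 344101) (nat_lit 18) (.e (nat_lit 7936) (nat_lit 283) .nil)))))) (.g (nat_lit 4) .nil .nil))) 
(.lf (nat_lit 145890) (.g (nat_lit 3027) (.e (nat_lit 57372) (nat_lit 2) (.e (nat_lit 90185) (nat_lit 17) (.e (nat_lit 237605) (nat_lit 9) (.e (nat_lit 426566) (nat_lit 34) (.e (nat_lit 393251) (nat_lit 18) (.e (nat_lit 164399) (nat_lit 256) .nil)))))) (.g (nat_lit 0) .nil .nil)))) (.nd (nat_lit 5) 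
(.lf (nat_lit 145874) (.g (nat_lit 2526) (.e (nat_lit 57372) (nat_lit 2) (.e (nat_lit 90176) (nat_lit 15) (.e (nat_lit 188450) (nat_lit 23) (.e (nat_lit 204885) (nat_lit 33) (.e (nat_lit 401461) (nat_lit 15) (.e (nat_lit 1006) (nat_lit 81) (.e (nat_lit 6930) (nat_lit 373) .nil))))))) (.g (nat_lit 4) .nil .nil))) 
(.lf (nat_lit 145906) (.g (nat_lit 2418) (.e (nat_lit 57373) (nat_lit 2) (.e (nat_lit 98048) (nat_lit 6) (.e (nat_lit 81951) (nat_lit 22) (.e (nat_lit 90170) (nat_lit 13) (.e (nat_lit 172061) (nat_lit 1) (.e (nat_lit 164319) (nat_lit 228) .nil)))))) (.g (nat_lit 5) .nil .nil))))) (.nd (nat_lit 4) (.nd (nat_lit 5) 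
(.lf (nat_lit 145866) (.g (nat_lit 3540) (.e (nat_lit 57372) (nat_lit 2) (.e (nat_lit 90176) (nat_lit 15) (.e (nat_lit 188450) (nat_lit 23) (.e (nat_lit 204880) (nat_lit 32) (.e (nat_lit 385046) (nat_lit 21) .nil))))) .nil)) 
(.lf (nat_lit 145898) (.g (nat_lit 2552) (.e (nat_lit 57373) (nat_lit 2) (.e (nat_lit 98048) (nat_lit 5) (.e (nat_lit 73746) (nat_lit 3) (.e (nat_lit 516129) (nat_lit 3) (.e (nat_lit 221214) (nat_lit 23) (.e (nat_lit 204839) (nat_lit 21) (.e (nat_lit 123198) (nat_lit 266) .nil))))))) (.g (nat_lit 5) .nil .nil)))) (.nd (nat_lit 5) 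
(.lf (nat_lit 145882) (.g (nat_lit 2768) (.e (nat_lit 57372) (nat_lit 2) (.e (nat_lit 90178) (nat_lit 15) (.e (nat_lit 188421) (nat_lit 11) (.e (nat_lit 336387) (nat_lit 27) (.e (nat_lit 426100) (nat_lit 1) (.e (nat_lit 164398) (nat_lit 256) .nil)))))) (.g (nat_lit 5) .nil .nil))) 
(.lf (nat_lit 145914) (.g (nat_lit 1905) (.e (nat_lit 57373) (nat_lit 2) (.e (nat_lit 98048) (nat_lit 6) (.e (nat_lit 81956) (nat_lit 23) (.e (nat_lit 98359) (nat_lit 26) (.e (nat_lit 426367) (nat_lit 15) (.e (nat_lit 1099) (nat_lit 81) (.e (nat_lit 6401) (nat_lit 339) .nil))))))) (.g (nat_lit 4) .nil .nil)))))) (.nd (nat_lit 3) (.nd (nat_lit 4) (.nd (nat_lit 5) 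
(.lf (nat_lit 145862) (.g (nat_lit 2030) (.e (nat_lit 57372) (nat_lit 2) (.e (nat_lit 90176) (nat_lit 15) (.e (nat_lit 188450) (nat_lit 23) (.e (nat_lit 204872) (nat_lit 30) (.e (nat_lit 368662) (nat_lit 18) (.e (nat_lit 7936) (nat_lit 283) .nil)))))) (.g (nat_lit 4) .nil .nil))) 
(.lf (nat_lit 145894) (.g (nat_lit 2753) (.e (nat_lit 57372) (nat_lit 2) (.e (nat_lit 90185) (nat_lit 17) (.e (nat_lit 237605) (nat_lit 9) (.e (nat_lit 426568) (nat_lit 34) (.e (nat_lit 393252) (nat_lit 18) (.e (nat_lit 164399) (nat_lit 256) .nil)))))) (.g (nat_lit 0) .nil .nil)))) (.nd (nat_lit 5) 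
(.lf (nat_lit 145878) (.g (nat_lit 1693) (.e (nat_lit 57372) (nat_lit 2) (.e (nat_lit 90176) (nat_lit 15) (.e (nat_lit 188452) (nat_lit 23) (.e (nat_lit 204863) (nat_lit 27) .nil)))) .nil)) 
(.lf (nat_lit 145910) (.g (nat_lit 2049) (.e (nat_lit 57373) (nat_lit 2) (.e (nat_lit 98048) (nat_lit 6) (.e (nat_lit 81956) (nat_lit 23) (.e (nat_lit 98356) (nat_lit 26) (.e (nat_lit 426352) (nat_lit 15) (.e (nat_lit 1099) (nat_lit 81) (.e (nat_lit 6401) (nat_lit 339) .nil))))))) (.g (nat_lit 4) .nil .nil))))) (.nd (nat_lit 4) (.nd (nat_lit 5) 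
(.lf (nat_lit 145870) (.g (nat_lit 3608) (.e (nat_lit 57372) (nat_lit 2) (.e (nat_lit 90176) (nat_lit 15) (.e (nat_lit 188450) (nat_lit 23) (.e (nat_lit 204880) (nat_lit 32) (.e (nat_lit 385053) (nat_lit 21) .nil))))) .nil)) 
(.lf (nat_lit 145902) (.g (nat_lit 2757) (.e (nat_lit 57373) (nat_lit 2) (.e (nat_lit 98048) (nat_lit 5) (.e (nat_lit 73754) (nat_lit 8) (.e (nat_lit 557105) (nat_lit 14) (.e (nat_lit 180251) (nat_lit 10) (.e (nat_lit 573477) (nat_lit 12) (.e (nat_lit 57361) (nat_lit 0) (.e (nat_lit 5949) (nat_lit 322) .nil)))))))) (.g (nat_lit 5) .nil .nil)))) (.nd (nat_lit 5) 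
(.lf (nat_lit 145886) (.g (nat_lit 2653) (.e (nat_lit 57372) (nat_lit 2) (.e (nat_lit 90185) (nat_lit 17) (.e (nat_lit 237601) (nat_lit 9) (.e (nat_lit 426566) (nat_lit 34) (.e (nat_lit 393252) (nat_lit 18) (.e (nat_lit 164399) (nat_lit 256) .nil)))))) (.g (nat_lit 0) .nil .nil))) 
(.lf (nat_lit 145918) (.g (nat_lit 2310) (.e (nat_lit 57373) (nat_lit 2) (.e (nat_lit 98048) (nat_lit 8) (.e (nat_lit 131116) (nat_lit 9) (.e (nat_lit 336004) (nat_lit 2) (.e (nat_lit 90172) (nat_lit 14) (.e (nat_lit 180224) (nat_lit 0) (.e (nat_lit 5206) (nat_lit 294) .nil))))))) (.g (nat_lit 5) .nil .nil)))))))) 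
(.nd (nat_lit 1) (.nd (nat_lit 2) (.nd (nat_lit 3) (.nd (nat_lit 4) (.nd (nat_lit 5) 
(.lf (nat_lit 145857) (.g (nat_lit 3574) (.e (nat_lit 57372) (nat_lit 2) (.e (nat_lit 90176) (nat_lit 15) (.e (nat_lit 188450) (nat_lit 23) (.e (nat_lit 204863) (nat_lit 27) (.e (nat_lit 344096) (nat_lit 18) (.e (nat_lit 7936) (nat_lit 283) .nil)))))) (.g (nat_lit 5) .nil .nil))) 
(.lf (nat_lit 145889) (.g (nat_lit 393) (.e (nat_lit 57372) (nat_lit 2) (.e (nat_lit 90185) (nat_lit 17) (.e (nat_lit 237605) (nat_lit 9) .nil))) .nil))) (.nd (nat_lit 5) 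
(.lf (nat_lit 145873) (.g (nat_lit 2153) (.e (nat_lit 57372) (nat_lit 2) (.e (nat_lit 90176) (nat_lit 15) (.e (nat_lit 188450) (nat_lit 23) (.e (nat_lit 204885) (nat_lit 33) (.e (nat_lit 401429) (nat_lit 4) (.e (nat_lit 237312) (nat_lit 262) .nil)))))) (.g (nat_lit 4) .nil .nil))) 
(.lf (nat_lit 145905) (.g (nat_lit 2871) (.e (nat_lit 57373) (nat_lit 2) (.e (nat_lit 98048) (nat_lit 6) (.e (nat_lit 81951) (nat_lit 22) (.e (nat_lit 90170) (nat_lit 13) (.e (nat_lit 172041) (nat_lit 0) (.e (nat_lit 2519) (nat_lit 157) (.e (nat_lit 5201) (nat_lit 294) .nil))))))) (.g (nat_lit 4) .nil .nil))))) (.nd (nat_lit 4) (.nd (nat_lit 5) 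
(.lf (nat_lit 145865) (.g (nat_lit 3660) (.e (nat_lit 57372) (nat_lit 2) (.e (nat_lit 90176) (nat_lit 15) (.e (nat_lit 188450) (nat_lit 23) (.e (nat_lit 204880) (nat_lit 32) (.e (nat_lit 385044) (nat_lit 21) .nil))))) .nil)) 
(.lf (nat_lit 145897) (.g (nat_lit 2291) (.e (nat_lit 57372) (nat_lit 2) (.e (nat_lit 90185) (nat_lit 17) (.e (nat_lit 237623) (nat_lit 13) (.e (nat_lit 483341) (nat_lit 9) (.e (nat_lit 426100) (nat_lit 1) (.e (nat_lit 164399) (nat_lit 256) .nil)))))) (.g (nat_lit 4) .nil .nil)))) (.nd (nat_lit 5) 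
(.lf (nat_lit 145881) (.g (nat_lit 1821) (.e (nat_lit 57372) (nat_lit 2) (.e (nat_lit 90176) (nat_lit 15) (.e (nat_lit 188459) (nat_lit 26) (.e (nat_lit 261888) (nat_lit 5) (.e (nat_lit 180229) (nat_lit 0) (.e (nat_lit 5934) (nat_lit 322) .nil)))))) (.g (nat_lit 5) .nil .nil))) 
(.lf (nat_lit 145913) (.g (nat_lit 2914) (.e (nat_lit 57373) (nat_lit 2) (.e (nat_lit 98048) (nat_lit 6) (.e (nat_lit 81956) (nat_lit 23) (.e (nat_lit 98356) (nat_lit 26) (.e (nat_lit 426422) (nat_lit 16) (.e (nat_lit 57735) (nat_lit 183) .nil)))))) (.g (nat_lit 5) .nil .nil)))))) (.nd (nat_lit 3) (.nd (nat_lit 4) (.nd (nat_lit 5) 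
(.lf (nat_lit 145861) (.g (nat_lit 2318) (.e (nat_lit 57372) (nat_lit 2) (.e (nat_lit 90176) (nat_lit 15) (.e (nat_lit 188450) (nat_lit 23) (.e (nat_lit 204864) (nat_lit 27) (.e (nat_lit 344096) (nat_lit 18) (.e (nat_lit 7936) (nat_lit 283) .nil)))))) (.g (nat_lit 4) .nil .nil))) 
(.lf (nat_lit 145893) (.g (nat_lit 2732) (.e (nat_lit 57372) (nat_lit 2) (.e (nat_lit 90185) (nat_lit 17) (.e (nat_lit 237605) (nat_lit 9) (.e (nat_lit 426568) (nat_lit 34) (.e (nat_lit 393251) (nat_lit 18) (.e (nat_lit 164399) (nat_lit 256) .nil)))))) (.g (nat_lit 0) .nil .nil)))) (.nd (nat_lit 5) 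
(.lf (nat_lit 145877) (.g (nat_lit 512) (.e (nat_lit 57372) (nat_lit 2) (.e (nat_lit 90176) (nat_lit 15) (.e (nat_lit 188452) (nat_lit 23) .nil))) .nil)) 
(.lf (nat_lit 145909) (.g (nat_lit 2456) (.e (nat_lit 57373) (nat_lit 2) (.e (nat_lit 98048) (nat_lit 6) (.e (nat_lit 81954) (nat_lit 23) (.e (nat_lit 98384) (nat_lit 32) (.e (nat_lit 483072) (nat_lit 21) (.e (nat_lit 6401) (nat_lit 339) .nil)))))) (.g (nat_lit 4) .nil .nil))))) (.nd (nat_lit 4) (.nd (nat_lit 5) 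
(.lf (nat_lit 145869) (.g (nat_lit 3597) (.e (nat_lit 57372) (nat_lit 2) (.e (nat_lit 90176) (nat_lit 15) (.e (nat_lit 188450) (nat_lit 23) (.e (nat_lit 204880) (nat_lit 32) (.e (nat_lit 385051) (nat_lit 21) .nil))))) .nil)) 
(.lf (nat_lit 145901) (.g (nat_lit 3627) (.e (nat_lit 57373) (nat_lit 2) (.e (nat_lit 98048) (nat_lit 5) (.e (nat_lit 73753) (nat_lit 8) (.e (nat_lit 557103) (nat_lit 14) (.e (nat_lit 180250) (nat_lit 10) (.e (nat_lit 573475) (nat_lit 12) (.e (nat_lit 57360) (nat_lit 0) (.e (nat_lit 5949) (nat_lit 322) .nil)))))))) (.g (nat_lit 6) .nil .nil)))) (.nd (nat_lit 5) 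
(.lf (nat_lit 145885) (.g (nat_lit 2847) (.e (nat_lit 57372) (nat_lit 2) (.e (nat_lit 90185) (nat_lit 17) (.e (nat_lit 237601) (nat_lit 9) (.e (nat_lit 426566) (nat_lit 34) (.e (nat_lit 393251) (nat_lit 18) (.e (nat_lit 164399) (nat_lit 256) .nil)))))) (.g (nat_lit 0) .nil .nil))) 
(.lf (nat_lit 145917) (.g (nat_lit 1874) (.e (nat_lit 57373) (nat_lit 2) (.e (nat_lit 98048) (nat_lit 8) (.e (nat_lit 131116) (nat_lit 9) (.e (nat_lit 336004) (nat_lit 2) (.e (nat_lit 90172) (nat_lit 14) (.e (nat_lit 180224) (nat_lit 0) (.e (nat_lit 5198) (nat_lit 294) .nil))))))) (.g (nat_lit 5) .nil .nil))))))) (.nd (nat_lit 2) (.nd (nat_lit 3) (.nd (nat_lit 4) (.nd (nat_lit 5) 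
(.lf (nat_lit 145859) (.g (nat_lit 3005) (.e (nat_lit 57372) (nat_lit 2) (.e (nat_lit 90176) (nat_lit 15) (.e (nat_lit 188450) (nat_lit 23) (.e (nat_lit 204863) (nat_lit 27) (.e (nat_lit 344102) (nat_lit 18) (.e (nat_lit 7936) (nat_lit 283) .nil)))))) (.g (nat_lit 4) .nil .nil))) 
(.lf (nat_lit 145891) (.g (nat_lit 2839) (.e (nat_lit 57372) (nat_lit 2) (.e (nat_lit 90185) (nat_lit 17) (.e (nat_lit 237605) (nat_lit 9) (.e (nat_lit 426566) (nat_lit 34) (.e (nat_lit 393252) (nat_lit 18) (.e (nat_lit 164399) (nat_lit 256) .nil)))))) (.g (nat_lit 0) .nil .nil)))) (.nd (nat_lit 5) 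
(.lf (nat_lit 145875) (.g (nat_lit 2677) (.e (nat_lit 57372) (nat_lit 2) (.e (nat_lit 90176) (nat_lit 15) (.e (nat_lit 188450) (nat_lit 23) (.e (nat_lit 204885) (nat_lit 33) (.e (nat_lit 401463) (nat_lit 15) (.e (nat_lit 992) (nat_lit 81) (.e (nat_lit 6930) (nat_lit 373) .nil))))))) (.g (nat_lit 4) .nil .nil))) 
(.lf (nat_lit 145907) (.g (nat_lit 1898) (.e (nat_lit 57373) (nat_lit 2) (.e (nat_lit 98048) (nat_lit 6) (.e (nat_lit 81953) (nat_lit 22) (.e (nat_lit 90170) (nat_lit 13) (.e (nat_lit 172068) (nat_lit 4) (.e (nat_lit 229638) (nat_lit 228) .nil)))))) (.g (nat_lit 4) .nil .nil))))) (.nd (nat_lit 4) (.nd (nat_lit 5) 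
(.lf (nat_lit 145867) (.g (nat_lit 3780) (.e (nat_lit 57372) (nat_lit 2) (.e (nat_lit 90176) (nat_lit 15) (.e (nat_lit 188450) (nat_lit 23) (.e (nat_lit 204880) (nat_lit 32) (.e (nat_lit 385047) (nat_lit 21) (.e (nat_lit 7936) (nat_lit 373) .nil)))))) (.g (nat_lit 4) .nil .nil))) 
(.lf (nat_lit 145899) (.g (nat_lit 2753) (.e (nat_lit 57373) (nat_lit 2) (.e (nat_lit 98048) (nat_lit 5) (.e (nat_lit 73746) (nat_lit 3) (.e (nat_lit 516129) (nat_lit 3) (.e (nat_lit 221215) (nat_lit 23) (.e (nat_lit 204839) (nat_lit 21) (.e (nat_lit 123198) (nat_lit 266) .nil))))))) (.g (nat_lit 5) .nil .nil)))) (.nd (nat_lit 5) 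
(.lf (nat_lit 145883) (.g (nat_lit 3022) (.e (nat_lit 57372) (nat_lit 2) (.e (nat_lit 90178) (nat_lit 15) (.e (nat_lit 188421) (nat_lit 11) (.e (nat_lit 336387) (nat_lit 27) (.e (nat_lit 426100) (nat_lit 1) (.e (nat_lit 164399) (nat_lit 256) .nil)))))) (.g (nat_lit 0) .nil .nil))) 
(.lf (nat_lit 145915) (.g (nat_lit 2199) (.e (nat_lit 57373) (nat_lit 2) (.e (nat_lit 98048) (nat_lit 6) (.e (nat_lit 81956) (nat_lit 23) (.e (nat_lit 98367) (nat_lit 27) (.e (nat_lit 434205) (nat_lit 18) (.e (nat_lit 5198) (nat_lit 294) .nil)))))) (.g (nat_lit 4) .nil .nil)))))) (.nd (nat_lit 3) (.nd (nat_lit 4) (.nd (nat_lit 5) 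
(.lf (nat_lit 145863) (.g (nat_lit 2074) (.e (nat_lit 57372) (nat_lit 2) (.e (nat_lit 90176) (nat_lit 15) (.e (nat_lit 188450) (nat_lit 23) (.e (nat_lit 204873) (nat_lit 30) (.e (nat_lit 368662) (nat_lit 18) (.e (nat_lit 7936) (nat_lit 283) .nil)))))) (.g (nat_lit 4) .nil .nil))) 
(.lf (nat_lit 145895) (.g (nat_lit 1174) (.e (nat_lit 57372) (nat_lit 2) (.e (nat_lit 90185) (nat_lit 17) (.e (nat_lit 237622) (nat_lit 13) (.e (nat_lit 483341) (nat_lit 9) .nil)))) .nil))) (.nd (nat_lit 5) 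
(.lf (nat_lit 145879) (.g (nat_lit 2379) (.e (nat_lit 57372) (nat_lit 2) (.e (nat_lit 90176) (nat_lit 15) (.e (nat_lit 188452) (nat_lit 23) (.e (nat_lit 204885) (nat_lit 33) .nil)))) .nil)) 
(.lf (nat_lit 145911) (.g (nat_lit 2163) (.e (nat_lit 57373) (nat_lit 2) (.e (nat_lit 98048) (nat_lit 6) (.e (nat_lit 81956) (nat_lit 23) (.e (nat_lit 98356) (nat_lit 26) (.e (nat_lit 426361) (nat_lit 15) (.e (nat_lit 1002) (nat_lit 81) (.e (nat_lit 6402) (nat_lit 339) .nil))))))) (.g (nat_lit 4) .nil .nil))))) (.nd (nat_lit 4) (.nd (nat_lit 5) 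
(.lf (nat_lit 145871) (.g (nat_lit 2096) (.e (nat_lit 57372) (nat_lit 2) (.e (nat_lit 90176) (nat_lit 15) (.e (nat_lit 188450) (nat_lit 23) (.e (nat_lit 204881) (nat_lit 32) (.e (nat_lit 385043) (nat_lit 21) (.e (nat_lit 6931) (nat_lit 373) .nil)))))) (.g (nat_lit 4) .nil .nil))) 
(.lf (nat_lit 145903) (.g (nat_lit 2861) (.e (nat_lit 57373) (nat_lit 2) (.e (nat_lit 98048) (nat_lit 6) (.e (nat_lit 81951) (nat_lit 22) (.e (nat_lit 90170) (nat_lit 13) (.e (nat_lit 172034) (nat_lit 0) (.e (nat_lit 2525) (nat_lit 157) (.e (nat_lit 5205) (nat_lit 294) .nil))))))) (.g (nat_lit 4) .nil .nil)))) (.nd (nat_lit 5) 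
(.lf (nat_lit 145887) (.g (nat_lit 2585) (.e (nat_lit 57372) (nat_lit 2) (.e (nat_lit 90185) (nat_lit 17) (.e (nat_lit 237601) (nat_lit 9) (.e (nat_lit 426568) (nat_lit 34) (.e (nat_lit 393251) (nat_lit 18) (.e (nat_lit 164399) (nat_lit 256) .nil)))))) (.g (nat_lit 0) .nil .nil))) 
(.lf (nat_lit 145919) (.g (nat_lit 2278) (.e (nat_lit 57373) (nat_lit 2) (.e (nat_lit 98048) (nat_lit 8) (.e (nat_lit 131116) (nat_lit 9) (.e (nat_lit 336004) (nat_lit 2) (.e (nat_lit 90172) (nat_lit 14) (.e (nat_lit 180233) (nat_lit 0) (.e (nat_lit 5201) (nat_lit 294) .nil))))))) (.g (nat_lit 5) .nil .nil)))))))))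

noncomputable def tv1938 : DT := (.nd (nat_lit 0) (.nd (nat_lit 1) (.nd (nat_lit 2) (.nd (nat_lit 3) (.nd (nat_lit 4) (.nd (nat_lit 5) 
(.lf (nat_lit 145920) (.g (nat_lit 2319) (.e (nat_lit 57373) (nat_lit 2) (.e (nat_lit 98048) (nat_lit 8) (.e (nat_lit 131116) (nat_lit 9) (.e (nat_lit 336012) (nat_lit 2) (.e (nat_lit 90172) (nat_lit 14) (.e (nat_lit 180224) (nat_lit 0) (.e (nat_lit 5198) (nat_lit 294) .nil))))))) (.g (nat_lit 5) .nil .nil))) 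
(.lf (nat_lit 145952) (.g (nat_lit 3810) (.e (nat_lit 57373) (nat_lit 2) (.e (nat_lit 90158) (nat_lit 11) (.e (nat_lit 24658) (nat_lit 13) (.e (nat_lit 393225) (nat_lit 9) (.e (nat_lit 335995) (nat_lit 1) (.e (nat_lit 57847) (nat_lit 252) .nil)))))) (.g (nat_lit 0) .nil .nil)))) (.nd (nat_lit 5) 
(.lf (nat_lit 145936) (.g (nat_lit 3870) (.e (nat_lit 57373) (nat_lit 2) (.e (nat_lit 90158) (nat_lit 11) (.e (nat_lit 24625) (nat_lit 9) (.e (nat_lit 336456) (nat_lit 34) (.e (nat_lit 483364) (nat_lit 18) (.e (nat_lit 57854) (nat_lit 252) .nil)))))) (.g (nat_lit 0) .nil .nil))) 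
(.lf (nat_lit 145968) (.g (nat_lit 3549) (.e (nat_lit 57373) (nat_lit 2) (.e (nat_lit 90160) (nat_lit 11) (.e (nat_lit 24625) (nat_lit 9) (.e (nat_lit 336454) (nat_lit 34) (.e (nat_lit 483364) (nat_lit 18) (.e (nat_lit 57854) (nat_lit 252) .nil)))))) (.g (nat_lit 0) .nil .nil))))) (.nd (nat_lit 4) (.nd (nat_lit 5) 
(.lf (nat_lit 145928) (.g (nat_lit 642) (.e (nat_lit 57373) (nat_lit 2) (.e (nat_lit 90128) (nat_lit 9) (.e (nat_lit 336) (nat_lit 26) .nil))) .nil)) 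
(.lf (nat_lit 145960) (.g (nat_lit 3907) (.e (nat_lit 57373) (nat_lit 2) (.e (nat_lit 90159) (nat_lit 11) (.e (nat_lit 24657) (nat_lit 13) (.e (nat_lit 393229) (nat_lit 9) (.e (nat_lit 335994) (nat_lit 1) (.e (nat_lit 57854) (nat_lit 252) .nil)))))) (.g (nat_lit 6) .nil .nil)))) (.nd (nat_lit 5) 
(.lf (nat_lit 145944) (.g (nat_lit 3183) (.e (nat_lit 57373) (nat_lit 2) (.e (nat_lit 90158) (nat_lit 11) (.e (nat_lit 24655) (nat_lit 13) (.e (nat_lit 393225) (nat_lit 9) (.e (nat_lit 335995) (nat_lit 1) (.e (nat_lit 57848) (nat_lit 252) .nil)))))) (.g (nat_lit 4) .nil .nil))) 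
(.lf (nat_lit 145976) (.g (nat_lit 4492) (.e (nat_lit 57373) (nat_lit 2) (.e (nat_lit 90160) (nat_lit 11) (.e (nat_lit 24655) (nat_lit 13) (.e (nat_lit 393225) (nat_lit 9) (.e (nat_lit 335996) (nat_lit 1) (.e (nat_lit 57854) (nat_lit 252) .nil)))))) (.g (nat_lit 0) .nil .nil)))))) (.nd (nat_lit 3) (.nd (nat_lit 4) (.nd (nat_lit 5) 
(.lf (nat_lit 145924) (.g (nat_lit 2423) (.e (nat_lit 57373) (nat_lit 2) (.e (nat_lit 98048) (nat_lit 8) (.e (nat_lit 131116) (nat_lit 9) (.e (nat_lit 336012) (nat_lit 2) (.e (nat_lit 90174) (nat_lit 14) (.e (nat_lit 180224) (nat_lit 0) (.e (nat_lit 5206) (nat_lit 294) .nil))))))) (.g (nat_lit 5) .nil .nil))) 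
(.lf (nat_lit 145956) (.g (nat_lit 3098) (.e (nat_lit 57373) (nat_lit 2) (.e (nat_lit 90159) (nat_lit 11) (.e (nat_lit 24625) (nat_lit 9) (.e (nat_lit 336454) (nat_lit 34) (.e (nat_lit 483366) (nat_lit 18) (.e (nat_lit 57854) (nat_lit 252) .nil)))))) (.g (nat_lit 6) .nil .nil)))) (.nd (nat_lit 5) 
(.lf (nat_lit 145940) (.g (nat_lit 1523) (.e (nat_lit 57373) (nat_lit 2) (.e (nat_lit 90158) (nat_lit 11) (.e (nat_lit 24628) (nat_lit 9) (.e (nat_lit 336377) (nat_lit 27) .nil)))) .nil)) 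
(.lf (nat_lit 145972) (.g (nat_lit 1909) (.e (nat_lit 57373) (nat_lit 2) (.e (nat_lit 90160) (nat_lit 11) (.e (nat_lit 24629) (nat_lit 9) (.e (nat_lit 336456) (nat_lit 34) (.e (nat_lit 483363) (nat_lit 18) .nil))))) .nil)))) (.nd (nat_lit 4) (.nd (nat_lit 5) 
(.lf (nat_lit 145932) (.g (nat_lit 2384) (.e (nat_lit 57373) (nat_lit 2) (.e (nat_lit 90157) (nat_lit 11) (.e (nat_lit 24655) (nat_lit 13) (.e (nat_lit 393229) (nat_lit 9) (.e (nat_lit 335988) (nat_lit 1) .nil))))) .nil)) 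
(.lf (nat_lit 145964) (.g (nat_lit 2728) (.e (nat_lit 57373) (nat_lit 2) (.e (nat_lit 90160) (nat_lit 11) (.e (nat_lit 24607) (nat_lit 3) (.e (nat_lit 98342) (nat_lit 20) (.e (nat_lit 221212) (nat_lit 22) .nil))))) .nil))) (.nd (nat_lit 5) 
(.lf (nat_lit 145948) (.g (nat_lit 2065) (.e (nat_lit 57373) (nat_lit 2) (.e (nat_lit 90158) (nat_lit 11) (.e (nat_lit 24655) (nat_lit 13) (.e (nat_lit 393229) (nat_lit 9) (.e (nat_lit 335993) (nat_lit 1) .nil))))) .nil)) 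
(.lf (nat_lit 145980) (.g (nat_lit 2587) (.e (nat_lit 57373) (nat_lit 2) (.e (nat_lit 90160) (nat_lit 11) (.e (nat_lit 24657) (nat_lit 13) (.e (nat_lit 393228) (nat_lit 9) (.e (nat_lit 335988) (nat_lit 1) .nil))))) .nil)))))) (.nd (nat_lit 2) (.nd (nat_lit 3) (.nd (nat_lit 4) (.nd (nat_lit 5) 
(.lf (nat_lit 145922) (.g (nat_lit 2538) (.e (nat_lit 57373) (nat_lit 2) (.e (nat_lit 98048) (nat_lit 8) (.e (nat_lit 131116) (nat_lit 9) (.e (nat_lit 336012) (nat_lit 2) (.e (nat_lit 90172) (nat_lit 14) (.e (nat_lit 180233) (nat_lit 0) (.e (nat_lit 5201) (nat_lit 294) .nil))))))) (.g (nat_lit 5) .nil .nil))) 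
(.lf (nat_lit 145954) (.g (nat_lit 2214) (.e (nat_lit 57373) (nat_lit 2) (.e (nat_lit 90158) (nat_lit 11) (.e (nat_lit 24659) (nat_lit 13) (.e (nat_lit 393225) (nat_lit 9) (.e (nat_lit 335986) (nat_lit 1) (.e (nat_lit 57847) (nat_lit 252) .nil)))))) (.g (nat_lit 4) .nil .nil)))) (.nd (nat_lit 5) 
(.lf (nat_lit 145938) (.g (nat_lit 3768) (.e (nat_lit 57373) (nat_lit 2) (.e (nat_lit 90158) (nat_lit 11) (.e (nat_lit 24627) (nat_lit 9) (.e (nat_lit 336454) (nat_lit 34) (.e (nat_lit 483363) (nat_lit 18) (.e (nat_lit 57847) (nat_lit 252) .nil)))))) (.g (nat_lit 6) .nil .nil))) 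
(.lf (nat_lit 145970) (.g (nat_lit 3836) (.e (nat_lit 57373) (nat_lit 2) (.e (nat_lit 90160) (nat_lit 11) (.e (nat_lit 24625) (nat_lit 9) (.e (nat_lit 336456) (nat_lit 34) (.e (nat_lit 483364) (nat_lit 18) (.e (nat_lit 57854) (nat_lit 252) .nil)))))) (.g (nat_lit 0) .nil .nil))))) (.nd (nat_lit 4) (.nd (nat_lit 5) 
(.lf (nat_lit 145930) (.g (nat_lit 3600) (.e (nat_lit 57373) (nat_lit 2) (.e (nat_lit 90134) (nat_lit 9) (.e (nat_lit 290) (nat_lit 21) (.e (nat_lit 336215) (nat_lit 13) (.e (nat_lit 393229) (nat_lit 9) (.e (nat_lit 335995) (nat_lit 1) (.e (nat_lit 57847) (nat_lit 252) .nil))))))) (.g (nat_lit 5) .nil .nil))) 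
(.lf (nat_lit 145962) (.g (nat_lit 646) (.e (nat_lit 57373) (nat_lit 2) (.e (nat_lit 90160) (nat_lit 11) (.e (nat_lit 24584) (nat_lit 0) .nil))) .nil))) (.nd (nat_lit 5) 
(.lf (nat_lit 145946) (.g (nat_lit 2166) (.e (nat_lit 57373) (nat_lit 2) (.e (nat_lit 90158) (nat_lit 11) (.e (nat_lit 24655) (nat_lit 13) (.e (nat_lit 393228) (nat_lit 9) .nil)))) .nil)) 
(.lf (nat_lit 145978) (.g (nat_lit 4049) (.e (nat_lit 57373) (nat_lit 2) (.e (nat_lit 90160) (nat_lit 11) (.e (nat_lit 24655) (nat_lit 13) (.e (nat_lit 393229) (nat_lit 9) (.e (nat_lit 335988) (nat_lit 1) (.e (nat_lit 57854) (nat_lit 252) .nil)))))) (.g (nat_lit 0) .nil .nil)))))) (.nd (nat_lit 3) (.nd (nat_lit 4) (.nd (nat_lit 5) 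
(.lf (nat_lit 145926) (.g (nat_lit 862) (.e (nat_lit 57373) (nat_lit 2) (.e (nat_lit 90128) (nat_lit 9) (.e (nat_lit 314) (nat_lit 23) (.e (nat_lit 352275) (nat_lit 11) .nil)))) .nil)) 
(.lf (nat_lit 145958) (.g (nat_lit 3430) (.e (nat_lit 57373) (nat_lit 2) (.e (nat_lit 90159) (nat_lit 11) (.e (nat_lit 24655) (nat_lit 13) (.e (nat_lit 393229) (nat_lit 9) (.e (nat_lit 335994) (nat_lit 1) (.e (nat_lit 57854) (nat_lit 252) .nil)))))) (.g (nat_lit 6) .nil .nil)))) (.nd (nat_lit 5) 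
(.lf (nat_lit 145942) (.g (nat_lit 2166) (.e (nat_lit 57373) (nat_lit 2) (.e (nat_lit 90158) (nat_lit 11) (.e (nat_lit 24655) (nat_lit 13) (.e (nat_lit 393224) (nat_lit 9) .nil)))) .nil)) 
(.lf (nat_lit 145974) (.g (nat_lit 835) (.e (nat_lit 57373) (nat_lit 2) (.e (nat_lit 90160) (nat_lit 11) (.e (nat_lit 24650) (nat_lit 12) .nil))) .nil)))) (.nd (nat_lit 4) (.nd (nat_lit 5) 
(.lf (nat_lit 145934) (.g (nat_lit 1321) (.e (nat_lit 57373) (nat_lit 2) (.e (nat_lit 90158) (nat_lit 11) (.e (nat_lit 24608) (nat_lit 3) (.e (nat_lit 98341) (nat_lit 20) .nil)))) .nil)) 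
(.lf (nat_lit 145966) (.g (nat_lit 2386) (.e (nat_lit 57373) (nat_lit 2) (.e (nat_lit 90160) (nat_lit 11) (.e (nat_lit 24623) (nat_lit 9) (.e (nat_lit 336456) (nat_lit 34) (.e (nat_lit 483363) (nat_lit 18) .nil))))) .nil))) (.nd (nat_lit 5) 
(.lf (nat_lit 145950) (.g (nat_lit 3344) (.e (nat_lit 57373) (nat_lit 2) (.e (nat_lit 90158) (nat_lit 11) (.e (nat_lit 24657) (nat_lit 13) (.e (nat_lit 393229) (nat_lit 9) (.e (nat_lit 335995) (nat_lit 1) (.e (nat_lit 57847) (nat_lit 252) .nil)))))) (.g (nat_lit 6) .nil .nil))) 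
(.lf (nat_lit 145982) (.g (nat_lit 4596) (.e (nat_lit 57373) (nat_lit 2) (.e (nat_lit 90160) (nat_lit 11) (.e (nat_lit 24657) (nat_lit 13) (.e (nat_lit 393229) (nat_lit 9) (.e (nat_lit 335996) (nat_lit 1) (.e (nat_lit 57854) (nat_lit 252) .nil)))))) (.g (nat_lit 0) .nil .nil)))))))) (.nd (nat_lit 1) (.nd (nat_lit 2) (.nd (nat_lit 3) (.nd (nat_lit 4) (.nd (nat_lit 5) 
(.lf (nat_lit 145921) (.g (nat_lit 2755) (.e (nat_lit 57373) (nat_lit 2) (.e (nat_lit 98048) (nat_lit 8) (.e (nat_lit 131116) (nat_lit 9) (.e (nat_lit 336012) (nat_lit 2) (.e (nat_lit 90172) (nat_lit 14) (.e (nat_lit 180224) (nat_lit 0) (.e (nat_lit 5206) (nat_lit 294) .nil))))))) (.g (nat_lit 5) .nil .nil))) 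
(.lf (nat_lit 145953) (.g (nat_lit 1472) (.e (nat_lit 57373) (nat_lit 2) (.e (nat_lit 90158) (nat_lit 11) (.e (nat_lit 24658) (nat_lit 13) (.e (nat_lit 393228) (nat_lit 9) .nil)))) .nil))) (.nd (nat_lit 5) 
(.lf (nat_lit 145937) (.g (nat_lit 3479) (.e (nat_lit 57373) (nat_lit 2) (.e (nat_lit 90158) (nat_lit 11) (.e (nat_lit 24625) (nat_lit 9) (.e (nat_lit 336456) (nat_lit 34) (.e (nat_lit 483365) (nat_lit 18) (.e (nat_lit 57847) (nat_lit 252) .nil)))))) (.g (nat_lit 0) .nil .nil))) 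
(.lf (nat_lit 145969) (.g (nat_lit 4107) (.e (nat_lit 57373) (nat_lit 2) (.e (nat_lit 90160) (nat_lit 11) (.e (nat_lit 24625) (nat_lit 9) (.e (nat_lit 336454) (nat_lit 34) (.e (nat_lit 483365) (nat_lit 18) (.e (nat_lit 57854) (nat_lit 252) .nil)))))) (.g (nat_lit 0) .nil .nil))))) (.nd (nat_lit 4) (.nd (nat_lit 5) 
(.lf (nat_lit 145929) (.g (nat_lit 450) (.e (nat_lit 57373) (nat_lit 2) (.e (nat_lit 90134) (nat_lit 9) (.e (nat_lit 290) (nat_lit 21) .nil))) .nil)) 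
(.lf (nat_lit 145961) (.g (nat_lit 3007) (.e (nat_lit 57373) (nat_lit 2) (.e (nat_lit 90159) (nat_lit 11) (.e (nat_lit 24658) (nat_lit 13) (.e (nat_lit 393229) (nat_lit 9) (.e (nat_lit 335994) (nat_lit 1) (.e (nat_lit 57854) (nat_lit 252) .nil)))))) (.g (nat_lit 6) .nil .nil)))) (.nd (nat_lit 5) 
(.lf (nat_lit 145945) (.g (nat_lit 3117) (.e (nat_lit 57373) (nat_lit 2) (.e (nat_lit 90158) (nat_lit 11) (.e (nat_lit 24655) (nat_lit 13) (.e (nat_lit 393225) (nat_lit 9) (.e (nat_lit 335996) (nat_lit 1) (.e (nat_lit 57851) (nat_lit 252) .nil)))))) (.g (nat_lit 4) .nil .nil))) 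
(.lf (nat_lit 145977) (.g (nat_lit 1036) (.e (nat_lit 57373) (nat_lit 2) (.e (nat_lit 90160) (nat_lit 11) (.e (nat_lit 24655) (nat_lit 13) (.e (nat_lit 393229) (nat_lit 9) .nil)))) .nil))))) (.nd (nat_lit 3) (.nd (nat_lit 4) (.nd (nat_lit 5) 
(.lf (nat_lit 145925) (.g (nat_lit 642) (.e (nat_lit 57373) (nat_lit 2) (.e (nat_lit 90128) (nat_lit 9) (.e (nat_lit 239) (nat_lit 21) .nil))) .nil)) 
(.lf (nat_lit 145957) (.g (nat_lit 3254) (.e (nat_lit 57373) (nat_lit 2) (.e (nat_lit 90159) (nat_lit 11) (.e (nat_lit 24626) (nat_lit 9) (.e (nat_lit 336454) (nat_lit 34) (.e (nat_lit 483366) (nat_lit 18) (.e (nat_lit 57854) (nat_lit 252) .nil)))))) (.g (nat_lit 5) .nil .nil)))) (.nd (nat_lit 5) 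
(.lf (nat_lit 145941) (.g (nat_lit 1262) (.e (nat_lit 57373) (nat_lit 2) (.e (nat_lit 90158) (nat_lit 11) (.e (nat_lit 24628) (nat_lit 9) (.e (nat_lit 336452) (nat_lit 34) .nil)))) .nil)) 
(.lf (nat_lit 145973) (.g (nat_lit 2235) (.e (nat_lit 57373) (nat_lit 2) (.e (nat_lit 90160) (nat_lit 11) (.e (nat_lit 24630) (nat_lit 9) (.e (nat_lit 336369) (nat_lit 27) (.e (nat_lit 426501) (nat_lit 27) .nil))))) .nil)))) (.nd (nat_lit 4) (.nd (nat_lit 5) 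
(.lf (nat_lit 145933) (.g (nat_lit 1835) (.e (nat_lit 57373) (nat_lit 2) (.e (nat_lit 90158) (nat_lit 11) (.e (nat_lit 24608) (nat_lit 3) (.e (nat_lit 98338) (nat_lit 19) .nil)))) .nil)) 
(.lf (nat_lit 145965) (.g (nat_lit 1394) (.e (nat_lit 57373) (nat_lit 2) (.e (nat_lit 90160) (nat_lit 11) (.e (nat_lit 24608) (nat_lit 3) (.e (nat_lit 98341) (nat_lit 20) .nil)))) .nil))) (.nd (nat_lit 5) 
(.lf (nat_lit 145949) (.g (nat_lit 3309) (.e (nat_lit 57373) (nat_lit 2) (.e (nat_lit 90158) (nat_lit 11) (.e (nat_lit 24657) (nat_lit 13) (.e (nat_lit 393229) (nat_lit 9) (.e (nat_lit 335986) (nat_lit 1) (.e (nat_lit 57847) (nat_lit 252) .nil)))))) (.g (nat_lit 6) .nil .nil))) 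
(.lf (nat_lit 145981) (.g (nat_lit 4034) (.e (nat_lit 57373) (nat_lit 2) (.e (nat_lit 90160) (nat_lit 11) (.e (nat_lit 24657) (nat_lit 13) (.e (nat_lit 393229) (nat_lit 9) (.e (nat_lit 335996) (nat_lit 1) (.e (nat_lit 57852) (nat_lit 252) .nil)))))) (.g (nat_lit 6) .nil .nil))))))) (.nd (nat_lit 2) (.nd (nat_lit 3) (.nd (nat_lit 4) (.nd (nat_lit 5) 
(.lf (nat_lit 145923) (.g (nat_lit 2002) (.e (nat_lit 57373) (nat_lit 2) (.e (nat_lit 98048) (nat_lit 8) (.e (nat_lit 131116) (nat_lit 9) (.e (nat_lit 336012) (nat_lit 2) (.e (nat_lit 90172) (nat_lit 14) (.e (nat_lit 188160) (nat_lit 0) (.e (nat_lit 5191) (nat_lit 294) .nil))))))) (.g (nat_lit 5) .nil .nil))) 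
(.lf (nat_lit 145955) (.g (nat_lit 3449) (.e (nat_lit 57373) (nat_lit 2) (.e (nat_lit 90158) (nat_lit 11) (.e (nat_lit 24660) (nat_lit 13) (.e (nat_lit 393229) (nat_lit 9) (.e (nat_lit 335988) (nat_lit 1) (.e (nat_lit 57854) (nat_lit 252) .nil)))))) (.g (nat_lit 0) .nil .nil)))) (.nd (nat_lit 5) 
(.lf (nat_lit 145939) (.g (nat_lit 3568) (.e (nat_lit 57373) (nat_lit 2) (.e (nat_lit 90158) (nat_lit 11) (.e (nat_lit 24627) (nat_lit 9) (.e (nat_lit 336454) (nat_lit 34) (.e (nat_lit 483365) (nat_lit 18) (.e (nat_lit 57847) (nat_lit 252) .nil)))))) (.g (nat_lit 6) .nil .nil))) 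
(.lf (nat_lit 145971) (.g (nat_lit 1916) (.e (nat_lit 57373) (nat_lit 2) (.e (nat_lit 90160) (nat_lit 11) (.e (nat_lit 24628) (nat_lit 9) (.e (nat_lit 336395) (nat_lit 27) (.e (nat_lit 426528) (nat_lit 27) .nil))))) .nil)))) (.nd (nat_lit 4) (.nd (nat_lit 5) 
(.lf (nat_lit 145931) (.g (nat_lit 1556) (.e (nat_lit 57373) (nat_lit 2) (.e (nat_lit 90157) (nat_lit 11) (.e (nat_lit 24625) (nat_lit 9) (.e (nat_lit 336456) (nat_lit 34) .nil)))) .nil)) 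
(.lf (nat_lit 145963) (.g (nat_lit 757) (.e (nat_lit 57373) (nat_lit 2) (.e (nat_lit 90160) (nat_lit 11) (.e (nat_lit 24606) (nat_lit 3) .nil))) .nil))) (.nd (nat_lit 5) 
(.lf (nat_lit 145947) (.g (nat_lit 2267) (.e (nat_lit 57373) (nat_lit 2) (.e (nat_lit 90158) (nat_lit 11) (.e (nat_lit 24655) (nat_lit 13) (.e (nat_lit 393229) (nat_lit 9) (.e (nat_lit 335987) (nat_lit 1) .nil))))) .nil)) 
(.lf (nat_lit 145979) (.g (nat_lit 4521) (.e (nat_lit 57373) (nat_lit 2) (.e (nat_lit 90160) (nat_lit 11) (.e (nat_lit 24655) (nat_lit 13) (.e (nat_lit 393229) (nat_lit 9) (.e (nat_lit 335996) (nat_lit 1) (.e (nat_lit 57854) (nat_lit 252) .nil)))))) (.g (nat_lit 0) .nil .nil)))))) (.nd (nat_lit 3) (.nd (nat_lit 4) (.nd (nat_lit 5) 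
(.lf (nat_lit 145927) (.g (nat_lit 642) (.e (nat_lit 57373) (nat_lit 2) (.e (nat_lit 90128) (nat_lit 9) (.e (nat_lit 332) (nat_lit 26) .nil))) .nil)) 
(.lf (nat_lit 145959) (.g (nat_lit 2724) (.e (nat_lit 57373) (nat_lit 2) (.e (nat_lit 90159) (nat_lit 11) (.e (nat_lit 24656) (nat_lit 13) (.e (nat_lit 393229) (nat_lit 9) (.e (nat_lit 335994) (nat_lit 1) (.e (nat_lit 57854) (nat_lit 252) .nil)))))) (.g (nat_lit 6) .nil .nil)))) (.nd (nat_lit 5) 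
(.lf (nat_lit 145943) (.g (nat_lit 4262) (.e (nat_lit 57373) (nat_lit 2) (.e (nat_lit 90158) (nat_lit 11) (.e (nat_lit 24655) (nat_lit 13) (.e (nat_lit 393225) (nat_lit 9) (.e (nat_lit 335995) (nat_lit 1) (.e (nat_lit 57847) (nat_lit 252) .nil)))))) (.g (nat_lit 0) .nil .nil))) 
(.lf (nat_lit 145975) (.g (nat_lit 1822) (.e (nat_lit 57373) (nat_lit 2) (.e (nat_lit 90160) (nat_lit 11) (.e (nat_lit 24651) (nat_lit 12) (.e (nat_lit 385041) (nat_lit 19) .nil)))) .nil)))) (.nd (nat_lit 4) (.nd (nat_lit 5) 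
(.lf (nat_lit 145935) (.g (nat_lit 1948) (.e (nat_lit 57373) (nat_lit 2) (.e (nat_lit 90158) (nat_lit 11) (.e (nat_lit 24608) (nat_lit 3) (.e (nat_lit 98342) (nat_lit 20) (.e (nat_lit 221212) (nat_lit 22) .nil))))) .nil)) 
(.lf (nat_lit 145967) (.g (nat_lit 2217) (.e (nat_lit 57373) (nat_lit 2) (.e (nat_lit 90160) (nat_lit 11) (.e (nat_lit 24624) (nat_lit 9) (.e (nat_lit 336454) (nat_lit 34) (.e (nat_lit 483366) (nat_lit 18) .nil))))) .nil))) (.nd (nat_lit 5) 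
(.lf (nat_lit 145951) (.g (nat_lit 4239) (.e (nat_lit 57373) (nat_lit 2) (.e (nat_lit 90158) (nat_lit 11) (.e (nat_lit 24657) (nat_lit 13) (.e (nat_lit 393229) (nat_lit 9) (.e (nat_lit 335996) (nat_lit 1) (.e (nat_lit 57854) (nat_lit 252) .nil)))))) (.g (nat_lit 0) .nil .nil))) 
(.lf (nat_lit 145983) (.g (nat_lit 4247) (.e (nat_lit 57373) (nat_lit 2) (.e (nat_lit 90160) (nat_lit 11) (.e (nat_lit 24658) (nat_lit 13) (.e (nat_lit 393225) (nat_lit 9) (.e (nat_lit 335996) (nat_lit 1) (.e (nat_lit 57854) (nat_lit 252) .nil)))))) (.g (nat_lit 0) .nil .nil)))))))))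

noncomputable def tv1939 : DT := (.nd (nat_lit 0) (.nd (nat_lit 1) (.nd (nat_lit 2) (.nd (nat_lit 3) (.nd (nat_lit 4) (.nd (nat_lit 5) 
(.lf (nat_lit 145984) (.g (nat_lit 3797) (.e (nat_lit 57373) (nat_lit 2) (.e (nat_lit 90160) (nat_lit 11) (.e (nat_lit 24658) (nat_lit 13) (.e (nat_lit 393229) (nat_lit 9) (.e (nat_lit 335988) (nat_lit 1) (.e (nat_lit 57854) (nat_lit 252) .nil)))))) (.g (nat_lit 0) .nil .nil))) 
(.lf (nat_lit 146016) (.g (nat_lit 3586) (.e (nat_lit 57373) (nat_lit 2) (.e (nat_lit 90170) (nat_lit 13) (.e (nat_lit 172065) (nat_lit 3) (.e (nat_lit 204837) (nat_lit 20) (.e (nat_lit 114719) (nat_lit 23) (.e (nat_lit 98334) (nat_lit 18) (.e (nat_lit 164399) (nat_lit 256) .nil))))))) (.g (nat_lit 6) .nil .nil)))) (.nd (nat_lit 5) 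
(.lf (nat_lit 146000) (.g (nat_lit 2383) (.e (nat_lit 57373) (nat_lit 2) (.e (nat_lit 90167) (nat_lit 13) (.e (nat_lit 172067) (nat_lit 3) (.e (nat_lit 204838) (nat_lit 20) (.e (nat_lit 114718) (nat_lit 23) (.e (nat_lit 98333) (nat_lit 18) (.e (nat_lit 164398) (nat_lit 256) .nil))))))) (.g (nat_lit 4) .nil .nil))) 
(.lf (nat_lit 146032) (.g (nat_lit 2224) (.e (nat_lit 57373) (nat_lit 2) (.e (nat_lit 90170) (nat_lit 13) (.e (nat_lit 172065) (nat_lit 3) (.e (nat_lit 204838) (nat_lit 20) (.e (nat_lit 114719) (nat_lit 23) (.e (nat_lit 98335) (nat_lit 18) (.e (nat_lit 164401) (nat_lit 256) .nil))))))) (.g (nat_lit 4) .nil .nil))))) (.nd (nat_lit 4) (.nd (nat_lit 5) 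
(.lf (nat_lit 145992) (.g (nat_lit 1467) (.e (nat_lit 57373) (nat_lit 2) (.e (nat_lit 90167) (nat_lit 13) (.e (nat_lit 172067) (nat_lit 3) (.e (nat_lit 204834) (nat_lit 19) .nil)))) .nil)) 
(.lf (nat_lit 146024) (.g (nat_lit 3891) (.e (nat_lit 57373) (nat_lit 2) (.e (nat_lit 90170) (nat_lit 13) (.e (nat_lit 172065) (nat_lit 3) (.e (nat_lit 204838) (nat_lit 20) (.e (nat_lit 114718) (nat_lit 23) (.e (nat_lit 98334) (nat_lit 18) (.e (nat_lit 164398) (nat_lit 256) .nil))))))) (.g (nat_lit 6) .nil .nil)))) (.nd (nat_lit 5) 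
(.lf (nat_lit 146008) (.g (nat_lit 2105) (.e (nat_lit 57373) (nat_lit 2) (.e (nat_lit 90170) (nat_lit 13) (.e (nat_lit 172065) (nat_lit 3) (.e (nat_lit 204837) (nat_lit 20) (.e (nat_lit 114717) (nat_lit 23) (.e (nat_lit 98334) (nat_lit 18) (.e (nat_lit 164401) (nat_lit 256) .nil))))))) (.g (nat_lit 4) .nil .nil))) 
(.lf (nat_lit 146040) (.g (nat_lit 2283) (.e (nat_lit 57373) (nat_lit 2) (.e (nat_lit 90170) (nat_lit 13) (.e (nat_lit 172067) (nat_lit 3) (.e (nat_lit 204834) (nat_lit 19) (.e (nat_lit 106541) (nat_lit 13) (.e (nat_lit 122936) (nat_lit 23) (.e (nat_lit 516115) (nat_lit 1) (.e (nat_lit 164399) (nat_lit 256) .nil)))))))) (.g (nat_lit 4) .nil .nil)))))) 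
(.nd (nat_lit 3) (.nd (nat_lit 4) (.nd (nat_lit 5) 
(.lf (nat_lit 145988) (.g (nat_lit 2103) (.e (nat_lit 57373) (nat_lit 2) (.e (nat_lit 90160) (nat_lit 11) (.e (nat_lit 24665) (nat_lit 14) (.e (nat_lit 401472) (nat_lit 28) .nil)))) .nil)) 
(.lf (nat_lit 146020) (.g (nat_lit 4093) (.e (nat_lit 57373) (nat_lit 2) (.e (nat_lit 90170) (nat_lit 13) (.e (nat_lit 172065) (nat_lit 3) (.e (nat_lit 204838) (nat_lit 20) (.e (nat_lit 114717) (nat_lit 23) (.e (nat_lit 98333) (nat_lit 18) (.e (nat_lit 164399) (nat_lit 256) .nil))))))) (.g (nat_lit 7) .nil .nil)))) (.nd (nat_lit 5) 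
(.lf (nat_lit 146004) (.g (nat_lit 995) (.e (nat_lit 57373) (nat_lit 2) (.e (nat_lit 90170) (nat_lit 13) (.e (nat_lit 172065) (nat_lit 3) (.e (nat_lit 204834) (nat_lit 19) .nil)))) .nil)) 
(.lf (nat_lit 146036) (.g (nat_lit 2634) (.e (nat_lit 57373) (nat_lit 2) (.e (nat_lit 90170) (nat_lit 13) (.e (nat_lit 172067) (nat_lit 3) (.e (nat_lit 204834) (nat_lit 19) (.e (nat_lit 106537) (nat_lit 12) (.e (nat_lit 57464) (nat_lit 23) (.e (nat_lit 516116) (nat_lit 1) (.e (nat_lit 164398) (nat_lit 256) .nil)))))))) (.g (nat_lit 4) .nil .nil))))) (.nd (nat_lit 4) (.nd (nat_lit 5) 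
(.lf (nat_lit 145996) (.g (nat_lit 2650) (.e (nat_lit 57373) (nat_lit 2) (.e (nat_lit 90167) (nat_lit 13) (.e (nat_lit 172067) (nat_lit 3) (.e (nat_lit 204837) (nat_lit 20) (.e (nat_lit 114719) (nat_lit 23) (.e (nat_lit 98333) (nat_lit 18) (.e (nat_lit 164399) (nat_lit 256) .nil))))))) (.g (nat_lit 4) .nil .nil))) 
(.lf (nat_lit 146028) (.g (nat_lit 4247) (.e (nat_lit 57373) (nat_lit 2) (.e (nat_lit 90170) (nat_lit 13) (.e (nat_lit 172065) (nat_lit 3) (.e (nat_lit 204838) (nat_lit 20) (.e (nat_lit 114719) (nat_lit 23) (.e (nat_lit 98333) (nat_lit 18) (.e (nat_lit 164399) (nat_lit 256) .nil))))))) (.g (nat_lit 0) .nil .nil)))) (.nd (nat_lit 5) 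
(.lf (nat_lit 146012) (.g (nat_lit 3864) (.e (nat_lit 57373) (nat_lit 2) (.e (nat_lit 90170) (nat_lit 13) (.e (nat_lit 172065) (nat_lit 3) (.e (nat_lit 204837) (nat_lit 20) (.e (nat_lit 114718) (nat_lit 23) (.e (nat_lit 98334) (nat_lit 18) (.e (nat_lit 164399) (nat_lit 256) .nil))))))) (.g (nat_lit 6) .nil .nil))) 
(.lf (nat_lit 146044) (.g (nat_lit 2569) (.e (nat_lit 57373) (nat_lit 2) (.e (nat_lit 90170) (nat_lit 13) (.e (nat_lit 172067) (nat_lit 3) (.e (nat_lit 204837) (nat_lit 20) (.e (nat_lit 114717) (nat_lit 23) (.e (nat_lit 98333) (nat_lit 18) (.e (nat_lit 164398) (nat_lit 256) .nil))))))) (.g (nat_lit 4) .nil .nil))))))) (.nd (nat_lit 2) (.nd (nat_lit 3) (.nd (nat_lit 4) (.nd (nat_lit 5) 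
(.lf (nat_lit 145986) (.g (nat_lit 872) (.e (nat_lit 57373) (nat_lit 2) (.e (nat_lit 90160) (nat_lit 11) (.e (nat_lit 24664) (nat_lit 14) .nil))) .nil)) 
(.lf (nat_lit 146018) (.g (nat_lit 893) (.e (nat_lit 57373) (nat_lit 2) (.e (nat_lit 90170) (nat_lit 13) (.e (nat_lit 172065) (nat_lit 3) (.e (nat_lit 204838) (nat_lit 20) .nil)))) .nil))) (.nd (nat_lit 5) 
(.lf (nat_lit 146002) (.g (nat_lit 2455) (.e (nat_lit 57373) (nat_lit 2) (.e (nat_lit 90168) (nat_lit 13) (.e (nat_lit 172067) (nat_lit 3) (.e (nat_lit 204837) (nat_lit 20) (.e (nat_lit 114718) (nat_lit 23) (.e (nat_lit 98334) (nat_lit 18) (.e (nat_lit 164398) (nat_lit 256) .nil))))))) (.g (nat_lit 4) .nil .nil))) 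
(.lf (nat_lit 146034) (.g (nat_lit 1774) (.e (nat_lit 57373) (nat_lit 2) (.e (nat_lit 90170) (nat_lit 13) (.e (nat_lit 172067) (nat_lit 3) (.e (nat_lit 204833) (nat_lit 19) .nil)))) .nil)))) (.nd (nat_lit 4) (.nd (nat_lit 5) 
(.lf (nat_lit 145994) (.g (nat_lit 2451) (.e (nat_lit 57373) (nat_lit 2) (.e (nat_lit 90167) (nat_lit 13) (.e (nat_lit 172067) (nat_lit 3) (.e (nat_lit 204837) (nat_lit 20) (.e (nat_lit 114718) (nat_lit 23) (.e (nat_lit 98334) (nat_lit 18) (.e (nat_lit 164398) (nat_lit 256) .nil))))))) (.g (nat_lit 4) .nil .nil))) 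
(.lf (nat_lit 146026) (.g (nat_lit 4370) (.e (nat_lit 57373) (nat_lit 2) (.e (nat_lit 90170) (nat_lit 13) (.e (nat_lit 172065) (nat_lit 3) (.e (nat_lit 204838) (nat_lit 20) (.e (nat_lit 114718) (nat_lit 23) (.e (nat_lit 98334) (nat_lit 18) (.e (nat_lit 164401) (nat_lit 256) .nil))))))) (.g (nat_lit 6) .nil .nil)))) (.nd (nat_lit 5) 
(.lf (nat_lit 146010) (.g (nat_lit 3648) (.e (nat_lit 57373) (nat_lit 2) (.e (nat_lit 90170) (nat_lit 13) (.e (nat_lit 172065) (nat_lit 3) (.e (nat_lit 204837) (nat_lit 20) (.e (nat_lit 114718) (nat_lit 23) (.e (nat_lit 98333) (nat_lit 18) (.e (nat_lit 164399) (nat_lit 256) .nil))))))) (.g (nat_lit 6) .nil .nil))) 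
(.lf (nat_lit 146042) (.g (nat_lit 2926) (.e (nat_lit 57373) (nat_lit 2) (.e (nat_lit 90170) (nat_lit 13) (.e (nat_lit 172067) (nat_lit 3) (.e (nat_lit 204837) (nat_lit 20) (.e (nat_lit 114699) (nat_lit 20) (.e (nat_lit 1788) (nat_lit 119) (.e (nat_lit 516115) (nat_lit 1) (.e (nat_lit 164399) (nat_lit 256) .nil)))))))) (.g (nat_lit 4) .nil .nil)))))) 
(.nd (nat_lit 3) (.nd (nat_lit 4) (.nd (nat_lit 5) 
(.lf (nat_lit 145990) (.g (nat_lit 1811) (.e (nat_lit 57373) (nat_lit 2) (.e (nat_lit 90167) (nat_lit 13) (.e (nat_lit 172065) (nat_lit 3) (.e (nat_lit 204838) (nat_lit 20) (.e (nat_lit 114717) (nat_lit 23) .nil))))) .nil)) 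
(.lf (nat_lit 146022) (.g (nat_lit 2297) (.e (nat_lit 57373) (nat_lit 2) (.e (nat_lit 90170) (nat_lit 13) (.e (nat_lit 172065) (nat_lit 3) (.e (nat_lit 204838) (nat_lit 20) (.e (nat_lit 114718) (nat_lit 23) (.e (nat_lit 98332) (nat_lit 18) (.e (nat_lit 164403) (nat_lit 256) .nil))))))) (.g (nat_lit 4) .nil .nil)))) (.nd (nat_lit 5) 
(.lf (nat_lit 146006) (.g (nat_lit 1009) (.e (nat_lit 57373) (nat_lit 2) (.e (nat_lit 90170) (nat_lit 13) (.e (nat_lit 172065) (nat_lit 3) (.e (nat_lit 204837) (nat_lit 20) .nil)))) .nil)) 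
(.lf (nat_lit 146038) (.g (nat_lit 2370) (.e (nat_lit 57373) (nat_lit 2) (.e (nat_lit 90170) (nat_lit 13) (.e (nat_lit 172067) (nat_lit 3) (.e (nat_lit 204834) (nat_lit 19) (.e (nat_lit 106539) (nat_lit 12) (.e (nat_lit 57465) (nat_lit 23) (.e (nat_lit 516119) (nat_lit 1) (.e (nat_lit 164403) (nat_lit 256) .nil)))))))) (.g (nat_lit 4) .nil .nil))))) (.nd (nat_lit 4) (.nd (nat_lit 5) 
(.lf (nat_lit 145998) (.g (nat_lit 2680) (.e (nat_lit 57373) (nat_lit 2) (.e (nat_lit 90167) (nat_lit 13) (.e (nat_lit 172067) (nat_lit 3) (.e (nat_lit 204838) (nat_lit 20) (.e (nat_lit 114717) (nat_lit 23) (.e (nat_lit 98333) (nat_lit 18) (.e (nat_lit 164399) (nat_lit 256) .nil))))))) (.g (nat_lit 5) .nil .nil))) 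
(.lf (nat_lit 146030) (.g (nat_lit 4247) (.e (nat_lit 57373) (nat_lit 2) (.e (nat_lit 90170) (nat_lit 13) (.e (nat_lit 172065) (nat_lit 3) (.e (nat_lit 204838) (nat_lit 20) (.e (nat_lit 114719) (nat_lit 23) (.e (nat_lit 98334) (nat_lit 18) (.e (nat_lit 164399) (nat_lit 256) .nil))))))) (.g (nat_lit 0) .nil .nil)))) (.nd (nat_lit 5) 
(.lf (nat_lit 146014) (.g (nat_lit 3404) (.e (nat_lit 57373) (nat_lit 2) (.e (nat_lit 90170) (nat_lit 13) (.e (nat_lit 172065) (nat_lit 3) (.e (nat_lit 204837) (nat_lit 20) (.e (nat_lit 114719) (nat_lit 23) (.e (nat_lit 98333) (nat_lit 18) (.e (nat_lit 164399) (nat_lit 256) .nil))))))) (.g (nat_lit 6) .nil .nil))) 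
(.lf (nat_lit 146046) (.g (nat_lit 2500) (.e (nat_lit 57373) (nat_lit 2) (.e (nat_lit 90170) (nat_lit 13) (.e (nat_lit 172067) (nat_lit 3) (.e (nat_lit 204837) (nat_lit 20) (.e (nat_lit 114717) (nat_lit 23) (.e (nat_lit 98335) (nat_lit 18) (.e (nat_lit 164403) (nat_lit 256) .nil))))))) (.g (nat_lit 4) .nil .nil)))))))) 
(.nd (nat_lit 1) (.nd (nat_lit 2) (.nd (nat_lit 3) (.nd (nat_lit 4) (.nd (nat_lit 5) 
(.lf (nat_lit 145985) (.g (nat_lit 4303) (.e (nat_lit 57373) (nat_lit 2) (.e (nat_lit 90160) (nat_lit 11) (.e (nat_lit 24658) (nat_lit 13) (.e (nat_lit 393229) (nat_lit 9) (.e (nat_lit 335996) (nat_lit 1) (.e (nat_lit 57854) (nat_lit 252) .nil)))))) (.g (nat_lit 0) .nil .nil))) 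
(.lf (nat_lit 146017) (.g (nat_lit 3268) (.e (nat_lit 57373) (nat_lit 2) (.e (nat_lit 90170) (nat_lit 13) (.e (nat_lit 172065) (nat_lit 3) (.e (nat_lit 204837) (nat_lit 20) (.e (nat_lit 114719) (nat_lit 23) (.e (nat_lit 98335) (nat_lit 18) (.e (nat_lit 164403) (nat_lit 256) .nil))))))) (.g (nat_lit 5) .nil .nil)))) (.nd (nat_lit 5) 
(.lf (nat_lit 146001) (.g (nat_lit 2281) (.e (nat_lit 57373) (nat_lit 2) (.e (nat_lit 90168) (nat_lit 13) (.e (nat_lit 172067) (nat_lit 3) (.e (nat_lit 204837) (nat_lit 20) (.e (nat_lit 114717) (nat_lit 23) (.e (nat_lit 98333) (nat_lit 18) (.e (nat_lit 164399) (nat_lit 256) .nil))))))) (.g (nat_lit 4) .nil .nil))) 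
(.lf (nat_lit 146033) (.g (nat_lit 3250) (.e (nat_lit 57373) (nat_lit 2) (.e (nat_lit 90170) (nat_lit 13) (.e (nat_lit 172067) (nat_lit 3) (.e (nat_lit 204809) (nat_lit 9) (.e (nat_lit 426139) (nat_lit 3) (.e (nat_lit 204815) (nat_lit 17) (.e (nat_lit 974) (nat_lit 81) (.e (nat_lit 7695) (nat_lit 412) .nil)))))))) (.g (nat_lit 4) .nil .nil))))) (.nd (nat_lit 4) (.nd (nat_lit 5) 
(.lf (nat_lit 145993) (.g (nat_lit 2435) (.e (nat_lit 57373) (nat_lit 2) (.e (nat_lit 90167) (nat_lit 13) (.e (nat_lit 172067) (nat_lit 3) (.e (nat_lit 204837) (nat_lit 20) (.e (nat_lit 114717) (nat_lit 23) (.e (nat_lit 98333) (nat_lit 18) (.e (nat_lit 164399) (nat_lit 256) .nil))))))) (.g (nat_lit 4) .nil .nil))) 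
(.lf (nat_lit 146025) (.g (nat_lit 4693) (.e (nat_lit 57373) (nat_lit 2) (.e (nat_lit 90170) (nat_lit 13) (.e (nat_lit 172065) (nat_lit 3) (.e (nat_lit 204838) (nat_lit 20) (.e (nat_lit 114718) (nat_lit 23) (.e (nat_lit 98334) (nat_lit 18) (.e (nat_lit 164399) (nat_lit 256) .nil))))))) (.g (nat_lit 0) .nil .nil)))) (.nd (nat_lit 5) 
(.lf (nat_lit 146009) (.g (nat_lit 2562) (.e (nat_lit 57373) (nat_lit 2) (.e (nat_lit 90170) (nat_lit 13) (.e (nat_lit 172065) (nat_lit 3) (.e (nat_lit 204837) (nat_lit 20) (.e (nat_lit 114718) (nat_lit 23) (.e (nat_lit 98333) (nat_lit 18) (.e (nat_lit 164398) (nat_lit 256) .nil))))))) (.g (nat_lit 4) .nil .nil))) 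
(.lf (nat_lit 146041) (.g (nat_lit 1417) (.e (nat_lit 57373) (nat_lit 2) (.e (nat_lit 90170) (nat_lit 13) (.e (nat_lit 172067) (nat_lit 3) (.e (nat_lit 204837) (nat_lit 20) .nil)))) .nil))))) (.nd (nat_lit 3) (.nd (nat_lit 4) (.nd (nat_lit 5) 
(.lf (nat_lit 145989) (.g (nat_lit 2718) (.e (nat_lit 57373) (nat_lit 2) (.e (nat_lit 90165) (nat_lit 12) (.e (nat_lit 171776) (nat_lit 48) (.e (nat_lit 720941) (nat_lit 22) (.e (nat_lit 90172) (nat_lit 14) (.e (nat_lit 180244) (nat_lit 5) (.e (nat_lit 532499) (nat_lit 1) (.e (nat_lit 65280) (nat_lit 154) .nil)))))))) (.g (nat_lit 7) .nil .nil))) 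
(.lf (nat_lit 146021) (.g (nat_lit 3192) (.e (nat_lit 57373) (nat_lit 2) (.e (nat_lit 90170) (nat_lit 13) (.e (nat_lit 172065) (nat_lit 3) (.e (nat_lit 204838) (nat_lit 20) (.e (nat_lit 114718) (nat_lit 23) (.e (nat_lit 98325) (nat_lit 17) (.e (nat_lit 2515) (nat_lit 157) (.e (nat_lit 5948) (nat_lit 322) .nil)))))))) (.g (nat_lit 4) .nil .nil)))) (.nd (nat_lit 5) 
(.lf (nat_lit 146005) (.g (nat_lit 2135) (.e (nat_lit 57373) (nat_lit 2) (.e (nat_lit 90170) (nat_lit 13) (.e (nat_lit 172065) (nat_lit 3) (.e (nat_lit 204834) (nat_lit 19) (.e (nat_lit 106540) (nat_lit 13) (.e (nat_lit 122936) (nat_lit 23) (.e (nat_lit 516115) (nat_lit 1) (.e (nat_lit 164398) (nat_lit 256) .nil)))))))) (.g (nat_lit 4) .nil .nil))) 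
(.lf (nat_lit 146037) (.g (nat_lit 2364) (.e (nat_lit 57373) (nat_lit 2) (.e (nat_lit 90170) (nat_lit 13) (.e (nat_lit 172067) (nat_lit 3) (.e (nat_lit 204834) (nat_lit 19) (.e (nat_lit 106537) (nat_lit 12) (.e (nat_lit 57466) (nat_lit 23) (.e (nat_lit 516119) (nat_lit 1) (.e (nat_lit 164403) (nat_lit 256) .nil)))))))) (.g (nat_lit 4) .nil .nil))))) (.nd (nat_lit 4) (.nd (nat_lit 5) 
(.lf (nat_lit 145997) (.g (nat_lit 2105) (.e (nat_lit 57373) (nat_lit 2) (.e (nat_lit 90167) (nat_lit 13) (.e (nat_lit 172067) (nat_lit 3) (.e (nat_lit 204837) (nat_lit 20) (.e (nat_lit 114719) (nat_lit 23) (.e (nat_lit 98334) (nat_lit 18) (.e (nat_lit 164401) (nat_lit 256) .nil))))))) (.g (nat_lit 4) .nil .nil))) 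
(.lf (nat_lit 146029) (.g (nat_lit 3612) (.e (nat_lit 57373) (nat_lit 2) (.e (nat_lit 90170) (nat_lit 13) (.e (nat_lit 172065) (nat_lit 3) (.e (nat_lit 204838) (nat_lit 20) (.e (nat_lit 114719) (nat_lit 23) (.e (nat_lit 98334) (nat_lit 18) (.e (nat_lit 164398) (nat_lit 256) .nil))))))) (.g (nat_lit 6) .nil .nil)))) (.nd (nat_lit 5) 
(.lf (nat_lit 146013) (.g (nat_lit 2362) (.e (nat_lit 57373) (nat_lit 2) (.e (nat_lit 90170) (nat_lit 13) (.e (nat_lit 172065) (nat_lit 3) (.e (nat_lit 204837) (nat_lit 20) (.e (nat_lit 114719) (nat_lit 23) (.e (nat_lit 98333) (nat_lit 18) (.e (nat_lit 164398) (nat_lit 256) .nil))))))) (.g (nat_lit 4) .nil .nil))) 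
(.lf (nat_lit 146045) (.g (nat_lit 2858) (.e (nat_lit 57373) (nat_lit 2) (.e (nat_lit 90170) (nat_lit 13) (.e (nat_lit 172067) (nat_lit 3) (.e (nat_lit 204837) (nat_lit 20) (.e (nat_lit 114717) (nat_lit 23) (.e (nat_lit 98334) (nat_lit 18) (.e (nat_lit 164401) (nat_lit 256) .nil))))))) (.g (nat_lit 4) .nil .nil))))))) (.nd (nat_lit 2) (.nd (nat_lit 3) (.nd (nat_lit 4) (.nd (nat_lit 5) 
(.lf (nat_lit 145987) (.g (nat_lit 2117) (.e (nat_lit 57373) (nat_lit 2) (.e (nat_lit 90160) (nat_lit 11) (.e (nat_lit 24665) (nat_lit 14) (.e (nat_lit 401465) (nat_lit 15) .nil)))) .nil)) 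
(.lf (nat_lit 146019) (.g (nat_lit 2708) (.e (nat_lit 57373) (nat_lit 2) (.e (nat_lit 90170) (nat_lit 13) (.e (nat_lit 172065) (nat_lit 3) (.e (nat_lit 204838) (nat_lit 20) (.e (nat_lit 114717) (nat_lit 23) (.e (nat_lit 98333) (nat_lit 18) (.e (nat_lit 164398) (nat_lit 256) .nil))))))) (.g (nat_lit 4) .nil .nil)))) (.nd (nat_lit 5) 
(.lf (nat_lit 146003) (.g (nat_lit 2488) (.e (nat_lit 57373) (nat_lit 2) (.e (nat_lit 90168) (nat_lit 13) (.e (nat_lit 172067) (nat_lit 3) (.e (nat_lit 204837) (nat_lit 20) (.e (nat_lit 114718) (nat_lit 23) (.e (nat_lit 98334) (nat_lit 18) (.e (nat_lit 164401) (nat_lit 256) .nil))))))) (.g (nat_lit 4) .nil .nil))) 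
(.lf (nat_lit 146035) (.g (nat_lit 1483) (.e (nat_lit 57373) (nat_lit 2) (.e (nat_lit 90170) (nat_lit 13) (.e (nat_lit 172067) (nat_lit 3) (.e (nat_lit 204834) (nat_lit 19) .nil)))) .nil)))) (.nd (nat_lit 4) (.nd (nat_lit 5) 
(.lf (nat_lit 145995) (.g (nat_lit 2502) (.e (nat_lit 57373) (nat_lit 2) (.e (nat_lit 90167) (nat_lit 13) (.e (nat_lit 172067) (nat_lit 3) (.e (nat_lit 204837) (nat_lit 20) (.e (nat_lit 114718) (nat_lit 23) (.e (nat_lit 98334) (nat_lit 18) (.e (nat_lit 164401) (nat_lit 256) .nil))))))) (.g (nat_lit 4) .nil .nil))) 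
(.lf (nat_lit 146027) (.g (nat_lit 3048) (.e (nat_lit 57373) (nat_lit 2) (.e (nat_lit 90170) (nat_lit 13) (.e (nat_lit 172065) (nat_lit 3) (.e (nat_lit 204838) (nat_lit 20) (.e (nat_lit 114719) (nat_lit 23) (.e (nat_lit 98332) (nat_lit 18) (.e (nat_lit 164399) (nat_lit 256) .nil))))))) (.g (nat_lit 6) .nil .nil)))) (.nd (nat_lit 5) 
(.lf (nat_lit 146011) (.g (nat_lit 3069) (.e (nat_lit 57373) (nat_lit 2) (.e (nat_lit 90170) (nat_lit 13) (.e (nat_lit 172065) (nat_lit 3) (.e (nat_lit 204837) (nat_lit 20) (.e (nat_lit 114718) (nat_lit 23) (.e (nat_lit 98334) (nat_lit 18) (.e (nat_lit 164398) (nat_lit 256) .nil))))))) (.g (nat_lit 5) .nil .nil))) 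
(.lf (nat_lit 146043) (.g (nat_lit 3384) (.e (nat_lit 57373) (nat_lit 2) (.e (nat_lit 90170) (nat_lit 13) (.e (nat_lit 172067) (nat_lit 3) (.e (nat_lit 204837) (nat_lit 20) (.e (nat_lit 114708) (nat_lit 20) (.e (nat_lit 1800) (nat_lit 119) (.e (nat_lit 516119) (nat_lit 1) (.e (nat_lit 164402) (nat_lit 256) .nil)))))))) (.g (nat_lit 4) .nil .nil)))))) 
(.nd (nat_lit 3) (.nd (nat_lit 4) (.nd (nat_lit 5) 
(.lf (nat_lit 145991) (.g (nat_lit 2117) (.e (nat_lit 57373) (nat_lit 2) (.e (nat_lit 90167) (nat_lit 13) (.e (nat_lit 172065) (nat_lit 3) (.e (nat_lit 204838) (nat_lit 20) (.e (nat_lit 114718) (nat_lit 23) (.e (nat_lit 98333) (nat_lit 18) (.e (nat_lit 164399) (nat_lit 256) .nil))))))) (.g (nat_lit 4) .nil .nil))) 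
(.lf (nat_lit 146023) (.g (nat_lit 4648) (.e (nat_lit 57373) (nat_lit 2) (.e (nat_lit 90170) (nat_lit 13) (.e (nat_lit 172065) (nat_lit 3) (.e (nat_lit 204838) (nat_lit 20) (.e (nat_lit 114718) (nat_lit 23) (.e (nat_lit 98333) (nat_lit 18) (.e (nat_lit 164399) (nat_lit 256) .nil))))))) (.g (nat_lit 7) .nil .nil)))) (.nd (nat_lit 5) 
(.lf (nat_lit 146007) (.g (nat_lit 2488) (.e (nat_lit 57373) (nat_lit 2) (.e (nat_lit 90170) (nat_lit 13) (.e (nat_lit 172065) (nat_lit 3) (.e (nat_lit 204837) (nat_lit 20) (.e (nat_lit 114717) (nat_lit 23) (.e (nat_lit 98334) (nat_lit 18) (.e (nat_lit 164398) (nat_lit 256) .nil))))))) (.g (nat_lit 4) .nil .nil))) 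
(.lf (nat_lit 146039) (.g (nat_lit 2356) (.e (nat_lit 57373) (nat_lit 2) (.e (nat_lit 90170) (nat_lit 13) (.e (nat_lit 172067) (nat_lit 3) (.e (nat_lit 204834) (nat_lit 19) (.e (nat_lit 106540) (nat_lit 13) (.e (nat_lit 122936) (nat_lit 23) (.e (nat_lit 516119) (nat_lit 1) (.e (nat_lit 164403) (nat_lit 256) .nil)))))))) (.g (nat_lit 4) .nil .nil))))) (.nd (nat_lit 4) (.nd (nat_lit 5) 
(.lf (nat_lit 145999) (.g (nat_lit 2488) (.e (nat_lit 57373) (nat_lit 2) (.e (nat_lit 90167) (nat_lit 13) (.e (nat_lit 172067) (nat_lit 3) (.e (nat_lit 204838) (nat_lit 20) (.e (nat_lit 114717) (nat_lit 23) (.e (nat_lit 98334) (nat_lit 18) (.e (nat_lit 164399) (nat_lit 256) .nil))))))) (.g (nat_lit 4) .nil .nil))) 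
(.lf (nat_lit 146031) (.g (nat_lit 4116) (.e (nat_lit 57373) (nat_lit 2) (.e (nat_lit 90170) (nat_lit 13) (.e (nat_lit 172065) (nat_lit 3) (.e (nat_lit 204838) (nat_lit 20) (.e (nat_lit 114719) (nat_lit 23) (.e (nat_lit 98334) (nat_lit 18) (.e (nat_lit 164401) (nat_lit 256) .nil))))))) (.g (nat_lit 7) .nil .nil)))) (.nd (nat_lit 5) 
(.lf (nat_lit 146015) (.g (nat_lit 2906) (.e (nat_lit 57373) (nat_lit 2) (.e (nat_lit 90170) (nat_lit 13) (.e (nat_lit 172065) (nat_lit 3) (.e (nat_lit 204837) (nat_lit 20) (.e (nat_lit 114719) (nat_lit 23) (.e (nat_lit 98334) (nat_lit 18) (.e (nat_lit 164398) (nat_lit 256) .nil))))))) (.g (nat_lit 5) .nil .nil))) 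
(.lf (nat_lit 146047) (.g (nat_lit 3446) (.e (nat_lit 57373) (nat_lit 2) (.e (nat_lit 90170) (nat_lit 13) (.e (nat_lit 172067) (nat_lit 3) (.e (nat_lit 204837) (nat_lit 20) (.e (nat_lit 114718) (nat_lit 23) (.e (nat_lit 98333) (nat_lit 18) (.e (nat_lit 164398) (nat_lit 256) .nil))))))) (.g (nat_lit 5) .nil .nil)))))))))

noncomputable def tv1940 : DT := (.nd (nat_lit 0) (.nd (nat_lit 1) (.nd (nat_lit 2) (.nd (nat_lit 3) (.nd (nat_lit 4) (.nd (nat_lit 5) 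
(.lf (nat_lit 146048) (.g (nat_lit 4480) (.e (nat_lit 57373) (nat_lit 2) (.e (nat_lit 90170) (nat_lit 13) (.e (nat_lit 172067) (nat_lit 3) (.e (nat_lit 204837) (nat_lit 20) (.e (nat_lit 114718) (nat_lit 23) (.e (nat_lit 98333) (nat_lit 18) (.e (nat_lit 164399) (nat_lit 256) .nil))))))) (.g (nat_lit 7) .nil .nil))) 
(.lf (nat_lit 146080) (.g (nat_lit 1894) (.e (nat_lit 57373) (nat_lit 2) (.e (nat_lit 90170) (nat_lit 13) (.e (nat_lit 172067) (nat_lit 3) (.e (nat_lit 204838) (nat_lit 20) (.e (nat_lit 114719) (nat_lit 23) .nil))))) .nil))) (.nd (nat_lit 5) 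
(.lf (nat_lit 146064) (.g (nat_lit 3143) (.e (nat_lit 57373) (nat_lit 2) (.e (nat_lit 90170) (nat_lit 13) (.e (nat_lit 172067) (nat_lit 3) (.e (nat_lit 204838) (nat_lit 20) (.e (nat_lit 114708) (nat_lit 20) (.e (nat_lit 1800) (nat_lit 119) (.e (nat_lit 516119) (nat_lit 1) (.e (nat_lit 164402) (nat_lit 256) .nil)))))))) (.g (nat_lit 4) .nil .nil))) 
(.lf (nat_lit 146096) (.g (nat_lit 2244) (.e (nat_lit 57373) (nat_lit 2) (.e (nat_lit 90170) (nat_lit 13) (.e (nat_lit 172085) (nat_lit 9) (.e (nat_lit 426568) (nat_lit 34) (.e (nat_lit 393252) (nat_lit 18) (.e (nat_lit 164399) (nat_lit 256) .nil)))))) (.g (nat_lit 4) .nil .nil))))) (.nd (nat_lit 4) (.nd (nat_lit 5) 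
(.lf (nat_lit 146056) (.g (nat_lit 4302) (.e (nat_lit 57373) (nat_lit 2) (.e (nat_lit 90170) (nat_lit 13) (.e (nat_lit 172067) (nat_lit 3) (.e (nat_lit 204837) (nat_lit 20) (.e (nat_lit 114719) (nat_lit 23) (.e (nat_lit 98334) (nat_lit 18) (.e (nat_lit 164399) (nat_lit 256) .nil))))))) (.g (nat_lit 7) .nil .nil))) 
(.lf (nat_lit 146088) (.g (nat_lit 4400) (.e (nat_lit 57373) (nat_lit 2) (.e (nat_lit 90170) (nat_lit 13) (.e (nat_lit 172067) (nat_lit 3) (.e (nat_lit 204838) (nat_lit 20) (.e (nat_lit 114719) (nat_lit 23) (.e (nat_lit 98334) (nat_lit 18) (.e (nat_lit 164401) (nat_lit 256) .nil))))))) (.g (nat_lit 6) .nil .nil)))) (.nd (nat_lit 5) 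
(.lf (nat_lit 146072) (.g (nat_lit 2169) (.e (nat_lit 57373) (nat_lit 2) (.e (nat_lit 90170) (nat_lit 13) (.e (nat_lit 172067) (nat_lit 3) (.e (nat_lit 204838) (nat_lit 20) (.e (nat_lit 114718) (nat_lit 23) (.e (nat_lit 98332) (nat_lit 18) (.e (nat_lit 164399) (nat_lit 256) .nil))))))) (.g (nat_lit 4) .nil .nil))) 
(.lf (nat_lit 146104) (.g (nat_lit 427) (.e (nat_lit 57373) (nat_lit 2) (.e (nat_lit 90170) (nat_lit 13) (.e (nat_lit 172106) (nat_lit 10) .nil))) .nil))))) (.nd (nat_lit 3) (.nd (nat_lit 4) (.nd (nat_lit 5) 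
(.lf (nat_lit 146052) (.g (nat_lit 4285) (.e (nat_lit 57373) (nat_lit 2) (.e (nat_lit 90170) (nat_lit 13) (.e (nat_lit 172067) (nat_lit 3) (.e (nat_lit 204837) (nat_lit 20) (.e (nat_lit 114718) (nat_lit 23) (.e (nat_lit 98335) (nat_lit 18) (.e (nat_lit 164403) (nat_lit 256) .nil))))))) (.g (nat_lit 6) .nil .nil))) 
(.lf (nat_lit 146084) (.g (nat_lit 3372) (.e (nat_lit 57373) (nat_lit 2) (.e (nat_lit 90170) (nat_lit 13) (.e (nat_lit 172067) (nat_lit 3) (.e (nat_lit 204838) (nat_lit 20) (.e (nat_lit 114719) (nat_lit 23) (.e (nat_lit 98332) (nat_lit 18) (.e (nat_lit 164399) (nat_lit 256) .nil))))))) (.g (nat_lit 5) .nil .nil)))) (.nd (nat_lit 5) 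
(.lf (nat_lit 146068) (.g (nat_lit 3156) (.e (nat_lit 57373) (nat_lit 2) (.e (nat_lit 90170) (nat_lit 13) (.e (nat_lit 172067) (nat_lit 3) (.e (nat_lit 204838) (nat_lit 20) (.e (nat_lit 114717) (nat_lit 23) (.e (nat_lit 98334) (nat_lit 18) (.e (nat_lit 164401) (nat_lit 256) .nil))))))) (.g (nat_lit 5) .nil .nil))) 
(.lf (nat_lit 146100) (.g (nat_lit 561) (.e (nat_lit 57373) (nat_lit 2) (.e (nat_lit 90170) (nat_lit 13) (.e (nat_lit 172088) (nat_lit 9) .nil))) .nil)))) (.nd (nat_lit 4) (.nd (nat_lit 5) 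
(.lf (nat_lit 146060) (.g (nat_lit 2046) (.e (nat_lit 57373) (nat_lit 2) (.e (nat_lit 90170) (nat_lit 13) (.e (nat_lit 172067) (nat_lit 3) (.e (nat_lit 204838) (nat_lit 20) (.e (nat_lit 114702) (nat_lit 20) .nil))))) .nil)) 
(.lf (nat_lit 146092) (.g (nat_lit 513) (.e (nat_lit 57373) (nat_lit 2) (.e (nat_lit 90170) (nat_lit 13) (.e (nat_lit 172085) (nat_lit 9) .nil))) .nil))) (.nd (nat_lit 5) 
(.lf (nat_lit 146076) (.g (nat_lit 4174) (.e (nat_lit 57373) (nat_lit 2) (.e (nat_lit 90170) (nat_lit 13) (.e (nat_lit 172067) (nat_lit 3) (.e (nat_lit 204838) (nat_lit 20) (.e (nat_lit 114718) (nat_lit 23) (.e (nat_lit 98334) (nat_lit 18) (.e (nat_lit 164398) (nat_lit 256) .nil))))))) (.g (nat_lit 6) .nil .nil))) 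
(.lf (nat_lit 146108) (.g (nat_lit 2779) (.e (nat_lit 57373) (nat_lit 2) (.e (nat_lit 90170) (nat_lit 13) (.e (nat_lit 172106) (nat_lit 10) (.e (nat_lit 434209) (nat_lit 18) (.e (nat_lit 6792) (nat_lit 365) .nil))))) .nil)))))) (.nd (nat_lit 2) (.nd (nat_lit 3) (.nd (nat_lit 4) (.nd (nat_lit 5) 
(.lf (nat_lit 146050) (.g (nat_lit 4696) (.e (nat_lit 57373) (nat_lit 2) (.e (nat_lit 90170) (nat_lit 13) (.e (nat_lit 172067) (nat_lit 3) (.e (nat_lit 204837) (nat_lit 20) (.e (nat_lit 114718) (nat_lit 23) (.e (nat_lit 98334) (nat_lit 18) (.e (nat_lit 164399) (nat_lit 256) .nil))))))) (.g (nat_lit 7) .nil .nil))) 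
(.lf (nat_lit 146082) (.g (nat_lit 3830) (.e (nat_lit 57373) (nat_lit 2) (.e (nat_lit 90170) (nat_lit 13) (.e (nat_lit 172067) (nat_lit 3) (.e (nat_lit 204838) (nat_lit 20) (.e (nat_lit 114719) (nat_lit 23) (.e (nat_lit 98325) (nat_lit 17) (.e (nat_lit 2515) (nat_lit 157) (.e (nat_lit 5948) (nat_lit 322) .nil)))))))) (.g (nat_lit 5) .nil .nil)))) (.nd (nat_lit 5) 
(.lf (nat_lit 146066) (.g (nat_lit 2816) (.e (nat_lit 57373) (nat_lit 2) (.e (nat_lit 90170) (nat_lit 13) (.e (nat_lit 172067) (nat_lit 3) (.e (nat_lit 204838) (nat_lit 20) (.e (nat_lit 114717) (nat_lit 23) (.e (nat_lit 98333) (nat_lit 18) (.e (nat_lit 164398) (nat_lit 256) .nil))))))) (.g (nat_lit 4) .nil .nil))) 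
(.lf (nat_lit 146098) (.g (nat_lit 543) (.e (nat_lit 57373) (nat_lit 2) (.e (nat_lit 90170) (nat_lit 13) (.e (nat_lit 172087) (nat_lit 9) .nil))) .nil)))) (.nd (nat_lit 4) (.nd (nat_lit 5) 
(.lf (nat_lit 146058) (.g (nat_lit 3991) (.e (nat_lit 57373) (nat_lit 2) (.e (nat_lit 90170) (nat_lit 13) (.e (nat_lit 172067) (nat_lit 3) (.e (nat_lit 204837) (nat_lit 20) (.e (nat_lit 114719) (nat_lit 23) (.e (nat_lit 98335) (nat_lit 18) (.e (nat_lit 164403) (nat_lit 256) .nil))))))) (.g (nat_lit 6) .nil .nil))) 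
(.lf (nat_lit 146090) (.g (nat_lit 2467) (.e (nat_lit 57373) (nat_lit 2) (.e (nat_lit 90170) (nat_lit 13) (.e (nat_lit 172067) (nat_lit 3) (.e (nat_lit 204838) (nat_lit 20) (.e (nat_lit 114719) (nat_lit 23) (.e (nat_lit 98335) (nat_lit 18) (.e (nat_lit 164401) (nat_lit 256) .nil))))))) (.g (nat_lit 4) .nil .nil)))) (.nd (nat_lit 5) 
(.lf (nat_lit 146074) (.g (nat_lit 3889) (.e (nat_lit 57373) (nat_lit 2) (.e (nat_lit 90170) (nat_lit 13) (.e (nat_lit 172067) (nat_lit 3) (.e (nat_lit 204838) (nat_lit 20) (.e (nat_lit 114718) (nat_lit 23) (.e (nat_lit 98333) (nat_lit 18) (.e (nat_lit 164398) (nat_lit 256) .nil))))))) (.g (nat_lit 6) .nil .nil))) 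
(.lf (nat_lit 146106) (.g (nat_lit 1755) (.e (nat_lit 57373) (nat_lit 2) (.e (nat_lit 90170) (nat_lit 13) (.e (nat_lit 172106) (nat_lit 10) (.e (nat_lit 434202) (nat_lit 18) .nil)))) .nil))))) (.nd (nat_lit 3) (.nd (nat_lit 4) (.nd (nat_lit 5) 
(.lf (nat_lit 146054) (.g (nat_lit 3130) (.e (nat_lit 57373) (nat_lit 2) (.e (nat_lit 90170) (nat_lit 13) (.e (nat_lit 172067) (nat_lit 3) (.e (nat_lit 204837) (nat_lit 20) (.e (nat_lit 114719) (nat_lit 23) (.e (nat_lit 98333) (nat_lit 18) (.e (nat_lit 164398) (nat_lit 256) .nil))))))) (.g (nat_lit 5) .nil .nil))) 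
(.lf (nat_lit 146086) (.g (nat_lit 4031) (.e (nat_lit 57373) (nat_lit 2) (.e (nat_lit 90170) (nat_lit 13) (.e (nat_lit 172067) (nat_lit 3) (.e (nat_lit 204838) (nat_lit 20) (.e (nat_lit 114719) (nat_lit 23) (.e (nat_lit 98334) (nat_lit 18) (.e (nat_lit 164398) (nat_lit 256) .nil))))))) (.g (nat_lit 6) .nil .nil)))) (.nd (nat_lit 5) 
(.lf (nat_lit 146070) (.g (nat_lit 2125) (.e (nat_lit 57373) (nat_lit 2) (.e (nat_lit 90170) (nat_lit 13) (.e (nat_lit 172067) (nat_lit 3) (.e (nat_lit 204838) (nat_lit 20) (.e (nat_lit 114718) (nat_lit 23) .nil))))) .nil)) 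
(.lf (nat_lit 146102) (.g (nat_lit 611) (.e (nat_lit 57373) (nat_lit 2) (.e (nat_lit 90170) (nat_lit 13) (.e (nat_lit 172095) (nat_lit 9) .nil))) .nil)))) (.nd (nat_lit 4) (.nd (nat_lit 5) 
(.lf (nat_lit 146062) (.g (nat_lit 2228) (.e (nat_lit 57373) (nat_lit 2) (.e (nat_lit 90170) (nat_lit 13) (.e (nat_lit 172067) (nat_lit 3) (.e (nat_lit 204838) (nat_lit 20) (.e (nat_lit 114707) (nat_lit 20) .nil))))) .nil)) 
(.lf (nat_lit 146094) (.g (nat_lit 1894) (.e (nat_lit 57373) (nat_lit 2) (.e (nat_lit 90170) (nat_lit 13) (.e (nat_lit 172085) (nat_lit 9) (.e (nat_lit 426566) (nat_lit 34) (.e (nat_lit 393251) (nat_lit 18) .nil))))) .nil))) (.nd (nat_lit 5) 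
(.lf (nat_lit 146078) (.g (nat_lit 2972) (.e (nat_lit 57373) (nat_lit 2) (.e (nat_lit 90170) (nat_lit 13) (.e (nat_lit 172067) (nat_lit 3) (.e (nat_lit 204838) (nat_lit 20) (.e (nat_lit 114718) (nat_lit 23) (.e (nat_lit 98334) (nat_lit 18) (.e (nat_lit 164402) (nat_lit 256) .nil))))))) (.g (nat_lit 4) .nil .nil))) 
(.lf (nat_lit 146110) (.g (nat_lit 2643) (.e (nat_lit 57373) (nat_lit 2) (.e (nat_lit 90170) (nat_lit 13) (.e (nat_lit 172106) (nat_lit 10) (.e (nat_lit 434231) (nat_lit 23) (.e (nat_lit 532527) (nat_lit 9) .nil))))) .nil))))))) (.nd (nat_lit 1) (.nd (nat_lit 2) (.nd (nat_lit 3) (.nd (nat_lit 4) (.nd (nat_lit 5) 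
(.lf (nat_lit 146049) (.g (nat_lit 3953) (.e (nat_lit 57373) (nat_lit 2) (.e (nat_lit 90170) (nat_lit 13) (.e (nat_lit 172067) (nat_lit 3) (.e (nat_lit 204837) (nat_lit 20) (.e (nat_lit 114718) (nat_lit 23) (.e (nat_lit 98334) (nat_lit 18) (.e (nat_lit 164398) (nat_lit 256) .nil))))))) (.g (nat_lit 6) .nil .nil))) 
(.lf (nat_lit 146081) (.g (nat_lit 3300) (.e (nat_lit 57373) (nat_lit 2) (.e (nat_lit 90170) (nat_lit 13) (.e (nat_lit 172067) (nat_lit 3) (.e (nat_lit 204838) (nat_lit 20) (.e (nat_lit 114719) (nat_lit 23) (.e (nat_lit 98325) (nat_lit 17) (.e (nat_lit 2478) (nat_lit 157) (.e (nat_lit 5953) (nat_lit 322) .nil)))))))) (.g (nat_lit 4) .nil .nil)))) (.nd (nat_lit 5) 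
(.lf (nat_lit 146065) (.g (nat_lit 1737) (.e (nat_lit 57373) (nat_lit 2) (.e (nat_lit 90170) (nat_lit 13) (.e (nat_lit 172067) (nat_lit 3) (.e (nat_lit 204838) (nat_lit 20) (.e (nat_lit 114716) (nat_lit 22) .nil))))) .nil)) 
(.lf (nat_lit 146097) (.g (nat_lit 2936) (.e (nat_lit 57373) (nat_lit 2) (.e (nat_lit 90170) (nat_lit 13) (.e (nat_lit 172085) (nat_lit 9) (.e (nat_lit 426568) (nat_lit 34) (.e (nat_lit 393253) (nat_lit 18) (.e (nat_lit 164403) (nat_lit 256) .nil)))))) (.g (nat_lit 5) .nil .nil))))) (.nd (nat_lit 4) (.nd (nat_lit 5) 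
(.lf (nat_lit 146057) (.g (nat_lit 3736) (.e (nat_lit 57373) (nat_lit 2) (.e (nat_lit 90170) (nat_lit 13) (.e (nat_lit 172067) (nat_lit 3) (.e (nat_lit 204837) (nat_lit 20) (.e (nat_lit 114719) (nat_lit 23) (.e (nat_lit 98334) (nat_lit 18) (.e (nat_lit 164401) (nat_lit 256) .nil))))))) (.g (nat_lit 6) .nil .nil))) 
(.lf (nat_lit 146089) (.g (nat_lit 2983) (.e (nat_lit 57373) (nat_lit 2) (.e (nat_lit 90170) (nat_lit 13) (.e (nat_lit 172067) (nat_lit 3) (.e (nat_lit 204838) (nat_lit 20) (.e (nat_lit 114719) (nat_lit 23) (.e (nat_lit 98334) (nat_lit 18) (.e (nat_lit 164402) (nat_lit 256) .nil))))))) (.g (nat_lit 4) .nil .nil)))) (.nd (nat_lit 5) 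
(.lf (nat_lit 146073) (.g (nat_lit 2534) (.e (nat_lit 57373) (nat_lit 2) (.e (nat_lit 90170) (nat_lit 13) (.e (nat_lit 172067) (nat_lit 3) (.e (nat_lit 204838) (nat_lit 20) (.e (nat_lit 114718) (nat_lit 23) (.e (nat_lit 98332) (nat_lit 18) (.e (nat_lit 164403) (nat_lit 256) .nil))))))) (.g (nat_lit 4) .nil .nil))) 
(.lf (nat_lit 146105) (.g (nat_lit 2047) (.e (nat_lit 57373) (nat_lit 2) (.e (nat_lit 90170) (nat_lit 13) (.e (nat_lit 172106) (nat_lit 10) (.e (nat_lit 434201) (nat_lit 18) .nil)))) .nil))))) (.nd (nat_lit 3) (.nd (nat_lit 4) (.nd (nat_lit 5) 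
(.lf (nat_lit 146053) (.g (nat_lit 2331) (.e (nat_lit 57373) (nat_lit 2) (.e (nat_lit 90170) (nat_lit 13) (.e (nat_lit 172067) (nat_lit 3) (.e (nat_lit 204837) (nat_lit 20) (.e (nat_lit 114719) (nat_lit 23) (.e (nat_lit 98332) (nat_lit 18) (.e (nat_lit 164399) (nat_lit 256) .nil))))))) (.g (nat_lit 4) .nil .nil))) 
(.lf (nat_lit 146085) (.g (nat_lit 4578) (.e (nat_lit 57373) (nat_lit 2) (.e (nat_lit 90170) (nat_lit 13) (.e (nat_lit 172067) (nat_lit 3) (.e (nat_lit 204838) (nat_lit 20) (.e (nat_lit 114719) (nat_lit 23) (.e (nat_lit 98333) (nat_lit 18) (.e (nat_lit 164399) (nat_lit 256) .nil))))))) (.g (nat_lit 7) .nil .nil)))) (.nd (nat_lit 5) 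
(.lf (nat_lit 146069) (.g (nat_lit 2798) (.e (nat_lit 57373) (nat_lit 2) (.e (nat_lit 90170) (nat_lit 13) (.e (nat_lit 172067) (nat_lit 3) (.e (nat_lit 204838) (nat_lit 20) (.e (nat_lit 114717) (nat_lit 23) (.e (nat_lit 98335) (nat_lit 18) (.e (nat_lit 164403) (nat_lit 256) .nil))))))) (.g (nat_lit 4) .nil .nil))) 
(.lf (nat_lit 146101) (.g (nat_lit 793) (.e (nat_lit 57373) (nat_lit 2) (.e (nat_lit 90170) (nat_lit 13) (.e (nat_lit 172092) (nat_lit 9) .nil))) .nil)))) (.nd (nat_lit 4) (.nd (nat_lit 5) 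
(.lf (nat_lit 146061) (.g (nat_lit 2853) (.e (nat_lit 57373) (nat_lit 2) (.e (nat_lit 90170) (nat_lit 13) (.e (nat_lit 172067) (nat_lit 3) (.e (nat_lit 204838) (nat_lit 20) (.e (nat_lit 114706) (nat_lit 20) (.e (nat_lit 1796) (nat_lit 119) (.e (nat_lit 516115) (nat_lit 1) (.e (nat_lit 164399) (nat_lit 256) .nil)))))))) (.g (nat_lit 4) .nil .nil))) 
(.lf (nat_lit 146093) (.g (nat_lit 989) (.e (nat_lit 57373) (nat_lit 2) (.e (nat_lit 90170) (nat_lit 13) (.e (nat_lit 172085) (nat_lit 9) (.e (nat_lit 426566) (nat_lit 34) .nil)))) .nil))) (.nd (nat_lit 5) 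
(.lf (nat_lit 146077) (.g (nat_lit 4518) (.e (nat_lit 57373) (nat_lit 2) (.e (nat_lit 90170) (nat_lit 13) (.e (nat_lit 172067) (nat_lit 3) (.e (nat_lit 204838) (nat_lit 20) (.e (nat_lit 114718) (nat_lit 23) (.e (nat_lit 98334) (nat_lit 18) (.e (nat_lit 164401) (nat_lit 256) .nil))))))) (.g (nat_lit 6) .nil .nil))) 
(.lf (nat_lit 146109) (.g (nat_lit 1202) (.e (nat_lit 57373) (nat_lit 2) (.e (nat_lit 90170) (nat_lit 13) (.e (nat_lit 172106) (nat_lit 10) (.e (nat_lit 434231) (nat_lit 23) .nil)))) .nil)))))) (.nd (nat_lit 2) (.nd (nat_lit 3) (.nd (nat_lit 4) (.nd (nat_lit 5) 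
(.lf (nat_lit 146051) (.g (nat_lit 4196) (.e (nat_lit 57373) (nat_lit 2) (.e (nat_lit 90170) (nat_lit 13) (.e (nat_lit 172067) (nat_lit 3) (.e (nat_lit 204837) (nat_lit 20) (.e (nat_lit 114718) (nat_lit 23) (.e (nat_lit 98334) (nat_lit 18) (.e (nat_lit 164401) (nat_lit 256) .nil))))))) (.g (nat_lit 6) .nil .nil))) 
(.lf (nat_lit 146083) (.g (nat_lit 2319) (.e (nat_lit 57373) (nat_lit 2) (.e (nat_lit 90170) (nat_lit 13) (.e (nat_lit 172067) (nat_lit 3) (.e (nat_lit 204838) (nat_lit 20) (.e (nat_lit 114719) (nat_lit 23) (.e (nat_lit 98332) (nat_lit 18) (.e (nat_lit 164398) (nat_lit 256) .nil))))))) (.g (nat_lit 4) .nil .nil)))) (.nd (nat_lit 5) 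
(.lf (nat_lit 146067) (.g (nat_lit 3979) (.e (nat_lit 57373) (nat_lit 2) (.e (nat_lit 90170) (nat_lit 13) (.e (nat_lit 172067) (nat_lit 3) (.e (nat_lit 204838) (nat_lit 20) (.e (nat_lit 114717) (nat_lit 23) (.e (nat_lit 98334) (nat_lit 18) (.e (nat_lit 164399) (nat_lit 256) .nil))))))) (.g (nat_lit 6) .nil .nil))) 
(.lf (nat_lit 146099) (.g (nat_lit 2410) (.e (nat_lit 57373) (nat_lit 2) (.e (nat_lit 90170) (nat_lit 13) (.e (nat_lit 172087) (nat_lit 9) (.e (nat_lit 426568) (nat_lit 34) (.e (nat_lit 393251) (nat_lit 18) (.e (nat_lit 164399) (nat_lit 256) .nil)))))) (.g (nat_lit 4) .nil .nil))))) (.nd (nat_lit 4) (.nd (nat_lit 5) 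
(.lf (nat_lit 146059) (.g (nat_lit 1253) (.e (nat_lit 57373) (nat_lit 2) (.e (nat_lit 90170) (nat_lit 13) (.e (nat_lit 172067) (nat_lit 3) (.e (nat_lit 204838) (nat_lit 20) .nil)))) .nil)) 
(.lf (nat_lit 146091) (.g (nat_lit 1774) (.e (nat_lit 57373) (nat_lit 2) (.e (nat_lit 90170) (nat_lit 13) (.e (nat_lit 172067) (nat_lit 3) (.e (nat_lit 204844) (nat_lit 23) .nil)))) .nil))) (.nd (nat_lit 5) 
(.lf (nat_lit 146075) (.g (nat_lit 4878) (.e (nat_lit 57373) (nat_lit 2) (.e (nat_lit 90170) (nat_lit 13) (.e (nat_lit 172067) (nat_lit 3) (.e (nat_lit 204838) (nat_lit 20) (.e (nat_lit 114718) (nat_lit 23) (.e (nat_lit 98333) (nat_lit 18) (.e (nat_lit 164399) (nat_lit 256) .nil))))))) (.g (nat_lit 7) .nil .nil))) 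
(.lf (nat_lit 146107) (.g (nat_lit 2040) (.e (nat_lit 57373) (nat_lit 2) (.e (nat_lit 90170) (nat_lit 13) (.e (nat_lit 172106) (nat_lit 10) (.e (nat_lit 434207) (nat_lit 18) .nil)))) .nil))))) (.nd (nat_lit 3) (.nd (nat_lit 4) (.nd (nat_lit 5) 
(.lf (nat_lit 146055) (.g (nat_lit 4120) (.e (nat_lit 57373) (nat_lit 2) (.e (nat_lit 90170) (nat_lit 13) (.e (nat_lit 172067) (nat_lit 3) (.e (nat_lit 204837) (nat_lit 20) (.e (nat_lit 114719) (nat_lit 23) (.e (nat_lit 98333) (nat_lit 18) (.e (nat_lit 164399) (nat_lit 256) .nil))))))) (.g (nat_lit 7) .nil .nil))) 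
(.lf (nat_lit 146087) (.g (nat_lit 4614) (.e (nat_lit 57373) (nat_lit 2) (.e (nat_lit 90170) (nat_lit 13) (.e (nat_lit 172067) (nat_lit 3) (.e (nat_lit 204838) (nat_lit 20) (.e (nat_lit 114719) (nat_lit 23) (.e (nat_lit 98334) (nat_lit 18) (.e (nat_lit 164399) (nat_lit 256) .nil))))))) (.g (nat_lit 7) .nil .nil)))) (.nd (nat_lit 5) 
(.lf (nat_lit 146071) (.g (nat_lit 3339) (.e (nat_lit 57373) (nat_lit 2) (.e (nat_lit 90170) (nat_lit 13) (.e (nat_lit 172067) (nat_lit 3) (.e (nat_lit 204838) (nat_lit 20) (.e (nat_lit 114718) (nat_lit 23) (.e (nat_lit 98325) (nat_lit 17) (.e (nat_lit 2515) (nat_lit 157) (.e (nat_lit 5948) (nat_lit 322) .nil)))))))) (.g (nat_lit 4) .nil .nil))) 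
(.lf (nat_lit 146103) (.g (nat_lit 2208) (.e (nat_lit 57373) (nat_lit 2) (.e (nat_lit 90170) (nat_lit 13) (.e (nat_lit 172095) (nat_lit 9) (.e (nat_lit 426513) (nat_lit 27) (.e (nat_lit 336408) (nat_lit 27) (.e (nat_lit 426100) (nat_lit 1) (.e (nat_lit 164398) (nat_lit 256) .nil))))))) (.g (nat_lit 4) .nil .nil))))) (.nd (nat_lit 4) (.nd (nat_lit 5) 
(.lf (nat_lit 146063) (.g (nat_lit 3212) (.e (nat_lit 57373) (nat_lit 2) (.e (nat_lit 90170) (nat_lit 13) (.e (nat_lit 172067) (nat_lit 3) (.e (nat_lit 204838) (nat_lit 20) (.e (nat_lit 114708) (nat_lit 20) (.e (nat_lit 1800) (nat_lit 119) (.e (nat_lit 516117) (nat_lit 1) (.e (nat_lit 164401) (nat_lit 256) .nil)))))))) (.g (nat_lit 4) .nil .nil))) 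
(.lf (nat_lit 146095) (.g (nat_lit 2582) (.e (nat_lit 57373) (nat_lit 2) (.e (nat_lit 90170) (nat_lit 13) (.e (nat_lit 172085) (nat_lit 9) (.e (nat_lit 426568) (nat_lit 34) (.e (nat_lit 393251) (nat_lit 18) (.e (nat_lit 164399) (nat_lit 256) .nil)))))) (.g (nat_lit 4) .nil .nil)))) (.nd (nat_lit 5) 
(.lf (nat_lit 146079) (.g (nat_lit 4980) (.e (nat_lit 57373) (nat_lit 2) (.e (nat_lit 90170) (nat_lit 13) (.e (nat_lit 172067) (nat_lit 3) (.e (nat_lit 204838) (nat_lit 20) (.e (nat_lit 114718) (nat_lit 23) (.e (nat_lit 98335) (nat_lit 18) (.e (nat_lit 164403) (nat_lit 256) .nil))))))) (.g (nat_lit 7) .nil .nil))) 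
(.lf (nat_lit 146111) (.g (nat_lit 2711) (.e (nat_lit 57373) (nat_lit 2) (.e (nat_lit 90170) (nat_lit 13) (.e (nat_lit 172106) (nat_lit 10) (.e (nat_lit 434231) (nat_lit 23) (.e (nat_lit 532527) (nat_lit 9) (.e (nat_lit 335989) (nat_lit 1) (.e (nat_lit 65280) (nat_lit 241) .nil))))))) (.g (nat_lit 4) .nil .nil)))))))))

noncomputable def tv1941 : DT := (.nd (nat_lit 0) (.nd (nat_lit 1) (.nd (nat_lit 2) (.nd (nat_lit 3) (.nd (nat_lit 4) (.nd (nat_lit 5) 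
(.lf (nat_lit 146112) (.g (nat_lit 4412) (.e (nat_lit 57373) (nat_lit 2) (.e (nat_lit 90170) (nat_lit 13) (.e (nat_lit 172106) (nat_lit 10) (.e (nat_lit 434231) (nat_lit 23) (.e (nat_lit 532527) (nat_lit 9) (.e (nat_lit 335997) (nat_lit 1) (.e (nat_lit 65280) (nat_lit 241) .nil))))))) (.g (nat_lit 6) .nil .nil))) 
(.lf (nat_lit 146144) (.g (nat_lit 4497) (.e (nat_lit 57373) (nat_lit 2) (.e (nat_lit 90170) (nat_lit 13) (.e (nat_lit 172106) (nat_lit 10) (.e (nat_lit 434231) (nat_lit 23) (.e (nat_lit 532529) (nat_lit 9) (.e (nat_lit 336257) (nat_lit 15) (.e (nat_lit 2425) (nat_lit 157) (.e (nat_lit 6932) (nat_lit 373) .nil)))))))) (.g (nat_lit 5) .nil .nil)))) (.nd (nat_lit 5) 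
(.lf (nat_lit 146128) (.g (nat_lit 2779) (.e (nat_lit 57373) (nat_lit 2) (.e (nat_lit 90170) (nat_lit 13) (.e (nat_lit 172106) (nat_lit 10) (.e (nat_lit 434231) (nat_lit 23) (.e (nat_lit 532529) (nat_lit 9) (.e (nat_lit 336257) (nat_lit 15) (.e (nat_lit 2397) (nat_lit 157) (.e (nat_lit 6931) (nat_lit 373) .nil)))))))) (.g (nat_lit 4) .nil .nil))) 
(.lf (nat_lit 146160) (.g (nat_lit 3136) (.e (nat_lit 57373) (nat_lit 2) (.e (nat_lit 90170) (nat_lit 13) (.e (nat_lit 172106) (nat_lit 10) (.e (nat_lit 434231) (nat_lit 23) (.e (nat_lit 532529) (nat_lit 9) (.e (nat_lit 336260) (nat_lit 15) (.e (nat_lit 2425) (nat_lit 157) (.e (nat_lit 6932) (nat_lit 373) .nil)))))))) (.g (nat_lit 4) .nil .nil))))) (.nd (nat_lit 4) (.nd (nat_lit 5) 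
(.lf (nat_lit 146120) (.g (nat_lit 2704) (.e (nat_lit 57373) (nat_lit 2) (.e (nat_lit 90170) (nat_lit 13) (.e (nat_lit 172106) (nat_lit 10) (.e (nat_lit 434231) (nat_lit 23) (.e (nat_lit 532529) (nat_lit 9) (.e (nat_lit 335878) (nat_lit 0) (.e (nat_lit 997) (nat_lit 81) (.e (nat_lit 7936) (nat_lit 283) .nil)))))))) (.g (nat_lit 4) .nil .nil))) 
(.lf (nat_lit 146152) (.g (nat_lit 3141) (.e (nat_lit 57373) (nat_lit 2) (.e (nat_lit 90170) (nat_lit 13) (.e (nat_lit 172106) (nat_lit 10) (.e (nat_lit 434231) (nat_lit 23) (.e (nat_lit 532529) (nat_lit 9) (.e (nat_lit 336257) (nat_lit 15) (.e (nat_lit 2458) (nat_lit 157) (.e (nat_lit 7936) (nat_lit 373) .nil)))))))) (.g (nat_lit 4) .nil .nil)))) (.nd (nat_lit 5) 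
(.lf (nat_lit 146136) (.g (nat_lit 3144) (.e (nat_lit 57373) (nat_lit 2) (.e (nat_lit 90170) (nat_lit 13) (.e (nat_lit 172106) (nat_lit 10) (.e (nat_lit 434231) (nat_lit 23) (.e (nat_lit 532529) (nat_lit 9) (.e (nat_lit 336257) (nat_lit 15) (.e (nat_lit 2418) (nat_lit 157) (.e (nat_lit 6932) (nat_lit 373) .nil)))))))) (.g (nat_lit 4) .nil .nil))) 
(.lf (nat_lit 146168) (.g (nat_lit 3715) (.e (nat_lit 57373) (nat_lit 2) (.e (nat_lit 90170) (nat_lit 13) (.e (nat_lit 172106) (nat_lit 10) (.e (nat_lit 434231) (nat_lit 23) (.e (nat_lit 532529) (nat_lit 9) (.e (nat_lit 336312) (nat_lit 16) (.e (nat_lit 171776) (nat_lit 172) .nil))))))) (.g (nat_lit 4) .nil .nil)))))) (.nd (nat_lit 3) (.nd (nat_lit 4) (.nd (nat_lit 5) 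
(.lf (nat_lit 146116) (.g (nat_lit 2316) (.e (nat_lit 57373) (nat_lit 2) (.e (nat_lit 90170) (nat_lit 13) (.e (nat_lit 172106) (nat_lit 10) (.e (nat_lit 434231) (nat_lit 23) (.e (nat_lit 532529) (nat_lit 9) .nil))))) .nil)) 
(.lf (nat_lit 146148) (.g (nat_lit 3405) (.e (nat_lit 57373) (nat_lit 2) (.e (nat_lit 90170) (nat_lit 13) (.e (nat_lit 172106) (nat_lit 10) (.e (nat_lit 434231) (nat_lit 23) (.e (nat_lit 532529) (nat_lit 9) (.e (nat_lit 336257) (nat_lit 15) (.e (nat_lit 2438) (nat_lit 157) (.e (nat_lit 7936) (nat_lit 373) .nil)))))))) (.g (nat_lit 4) .nil .nil)))) (.nd (nat_lit 5) 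
(.lf (nat_lit 146132) (.g (nat_lit 2955) (.e (nat_lit 57373) (nat_lit 2) (.e (nat_lit 90170) (nat_lit 13) (.e (nat_lit 172106) (nat_lit 10) (.e (nat_lit 434231) (nat_lit 23) (.e (nat_lit 532529) (nat_lit 9) (.e (nat_lit 336257) (nat_lit 15) (.e (nat_lit 2403) (nat_lit 157) (.e (nat_lit 6930) (nat_lit 373) .nil)))))))) (.g (nat_lit 4) .nil .nil))) 
(.lf (nat_lit 146164) (.g (nat_lit 2646) (.e (nat_lit 57373) (nat_lit 2) (.e (nat_lit 90170) (nat_lit 13) (.e (nat_lit 172106) (nat_lit 10) (.e (nat_lit 434231) (nat_lit 23) (.e (nat_lit 532529) (nat_lit 9) (.e (nat_lit 343808) (nat_lit 15) (.e (nat_lit 2398) (nat_lit 157) (.e (nat_lit 6930) (nat_lit 373) .nil)))))))) (.g (nat_lit 4) .nil .nil))))) (.nd (nat_lit 4) (.nd (nat_lit 5) 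
(.lf (nat_lit 146124) (.g (nat_lit 2826) (.e (nat_lit 57373) (nat_lit 2) (.e (nat_lit 90170) (nat_lit 13) (.e (nat_lit 172106) (nat_lit 10) (.e (nat_lit 434231) (nat_lit 23) (.e (nat_lit 532529) (nat_lit 9) (.e (nat_lit 336240) (nat_lit 15) (.e (nat_lit 2418) (nat_lit 157) (.e (nat_lit 6932) (nat_lit 373) .nil)))))))) (.g (nat_lit 4) .nil .nil))) 
(.lf (nat_lit 146156) (.g (nat_lit 2873) (.e (nat_lit 57373) (nat_lit 2) (.e (nat_lit 90170) (nat_lit 13) (.e (nat_lit 172106) (nat_lit 10) (.e (nat_lit 434231) (nat_lit 23) (.e (nat_lit 532529) (nat_lit 9) (.e (nat_lit 336258) (nat_lit 15) (.e (nat_lit 2450) (nat_lit 157) (.e (nat_lit 7936) (nat_lit 373) .nil)))))))) (.g (nat_lit 4) .nil .nil)))) (.nd (nat_lit 5) 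
(.lf (nat_lit 146140) (.g (nat_lit 3626) (.e (nat_lit 57373) (nat_lit 2) (.e (nat_lit 90170) (nat_lit 13) (.e (nat_lit 172106) (nat_lit 10) (.e (nat_lit 434231) (nat_lit 23) (.e (nat_lit 532529) (nat_lit 9) (.e (nat_lit 336257) (nat_lit 15) (.e (nat_lit 2423) (nat_lit 157) (.e (nat_lit 6932) (nat_lit 373) .nil)))))))) (.g (nat_lit 4) .nil .nil))) 
(.lf (nat_lit 146172) (.g (nat_lit 4267) (.e (nat_lit 57373) (nat_lit 2) (.e (nat_lit 90170) (nat_lit 13) (.e (nat_lit 172106) (nat_lit 10) (.e (nat_lit 434231) (nat_lit 23) (.e (nat_lit 532529) (nat_lit 9) (.e (nat_lit 336342) (nat_lit 21) (.e (nat_lit 237312) (nat_lit 172) .nil))))))) (.g (nat_lit 5) .nil .nil))))))) (.nd (nat_lit 2) (.nd (nat_lit 3) (.nd (nat_lit 4) (.nd (nat_lit 5) 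
(.lf (nat_lit 146114) (.g (nat_lit 3067) (.e (nat_lit 57373) (nat_lit 2) (.e (nat_lit 90170) (nat_lit 13) (.e (nat_lit 172106) (nat_lit 10) (.e (nat_lit 434231) (nat_lit 23) (.e (nat_lit 532528) (nat_lit 9) .nil))))) .nil)) 
(.lf (nat_lit 146146) (.g (nat_lit 2704) (.e (nat_lit 57373) (nat_lit 2) (.e (nat_lit 90170) (nat_lit 13) (.e (nat_lit 172106) (nat_lit 10) (.e (nat_lit 434231) (nat_lit 23) (.e (nat_lit 532529) (nat_lit 9) (.e (nat_lit 336257) (nat_lit 15) (.e (nat_lit 2431) (nat_lit 157) (.e (nat_lit 6931) (nat_lit 373) .nil)))))))) (.g (nat_lit 4) .nil .nil)))) (.nd (nat_lit 5) 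
(.lf (nat_lit 146130) (.g (nat_lit 3025) (.e (nat_lit 57373) (nat_lit 2) (.e (nat_lit 90170) (nat_lit 13) (.e (nat_lit 172106) (nat_lit 10) (.e (nat_lit 434231) (nat_lit 23) (.e (nat_lit 532529) (nat_lit 9) (.e (nat_lit 336257) (nat_lit 15) (.e (nat_lit 2400) (nat_lit 157) (.e (nat_lit 6930) (nat_lit 373) .nil)))))))) (.g (nat_lit 4) .nil .nil))) 
(.lf (nat_lit 146162) (.g (nat_lit 3213) (.e (nat_lit 57373) (nat_lit 2) (.e (nat_lit 90170) (nat_lit 13) (.e (nat_lit 172106) (nat_lit 10) (.e (nat_lit 434231) (nat_lit 23) (.e (nat_lit 532529) (nat_lit 9) (.e (nat_lit 336296) (nat_lit 15) (.e (nat_lit 2489) (nat_lit 157) (.e (nat_lit 7936) (nat_lit 373) .nil)))))))) (.g (nat_lit 4) .nil .nil))))) (.nd (nat_lit 4) (.nd (nat_lit 5) 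
(.lf (nat_lit 146122) (.g (nat_lit 2862) (.e (nat_lit 57373) (nat_lit 2) (.e (nat_lit 90170) (nat_lit 13) (.e (nat_lit 172106) (nat_lit 10) (.e (nat_lit 434231) (nat_lit 23) (.e (nat_lit 532529) (nat_lit 9) (.e (nat_lit 336036) (nat_lit 4) (.e (nat_lit 130816) (nat_lit 241) .nil))))))) (.g (nat_lit 4) .nil .nil))) 
(.lf (nat_lit 146154) (.g (nat_lit 2734) (.e (nat_lit 57373) (nat_lit 2) (.e (nat_lit 90170) (nat_lit 13) (.e (nat_lit 172106) (nat_lit 10) (.e (nat_lit 434231) (nat_lit 23) (.e (nat_lit 532529) (nat_lit 9) (.e (nat_lit 336258) (nat_lit 15) (.e (nat_lit 2417) (nat_lit 157) (.e (nat_lit 6932) (nat_lit 373) .nil)))))))) (.g (nat_lit 4) .nil .nil)))) (.nd (nat_lit 5) 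
(.lf (nat_lit 146138) (.g (nat_lit 3340) (.e (nat_lit 57373) (nat_lit 2) (.e (nat_lit 90170) (nat_lit 13) (.e (nat_lit 172106) (nat_lit 10) (.e (nat_lit 434231) (nat_lit 23) (.e (nat_lit 532529) (nat_lit 9) (.e (nat_lit 336257) (nat_lit 15) (.e (nat_lit 2422) (nat_lit 157) (.e (nat_lit 6932) (nat_lit 373) .nil)))))))) (.g (nat_lit 4) .nil .nil))) 
(.lf (nat_lit 146170) (.g (nat_lit 3039) (.e (nat_lit 57373) (nat_lit 2) (.e (nat_lit 90170) (nat_lit 13) (.e (nat_lit 172106) (nat_lit 10) (.e (nat_lit 434231) (nat_lit 23) (.e (nat_lit 532529) (nat_lit 9) (.e (nat_lit 336339) (nat_lit 21) (.e (nat_lit 237312) (nat_lit 172) .nil))))))) (.g (nat_lit 4) .nil .nil)))))) (.nd (nat_lit 3) (.nd (nat_lit 4) (.nd (nat_lit 5) 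
(.lf (nat_lit 146118) (.g (nat_lit 2461) (.e (nat_lit 57373) (nat_lit 2) (.e (nat_lit 90170) (nat_lit 13) (.e (nat_lit 172106) (nat_lit 10) (.e (nat_lit 434231) (nat_lit 23) (.e (nat_lit 532529) (nat_lit 9) (.e (nat_lit 335878) (nat_lit 0) (.e (nat_lit 997) (nat_lit 81) (.e (nat_lit 4841) (nat_lit 283) .nil)))))))) (.g (nat_lit 4) .nil .nil))) 
(.lf (nat_lit 146150) (.g (nat_lit 3314) (.e (nat_lit 57373) (nat_lit 2) (.e (nat_lit 90170) (nat_lit 13) (.e (nat_lit 172106) (nat_lit 10) (.e (nat_lit 434231) (nat_lit 23) (.e (nat_lit 532529) (nat_lit 9) (.e (nat_lit 336257) (nat_lit 15) (.e (nat_lit 2449) (nat_lit 157) (.e (nat_lit 7936) (nat_lit 373) .nil)))))))) (.g (nat_lit 4) .nil .nil)))) (.nd (nat_lit 5) 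
(.lf (nat_lit 146134) (.g (nat_lit 2737) (.e (nat_lit 57373) (nat_lit 2) (.e (nat_lit 90170) (nat_lit 13) (.e (nat_lit 172106) (nat_lit 10) (.e (nat_lit 434231) (nat_lit 23) (.e (nat_lit 532529) (nat_lit 9) (.e (nat_lit 336257) (nat_lit 15) (.e (nat_lit 2416) (nat_lit 157) (.e (nat_lit 6932) (nat_lit 373) .nil)))))))) (.g (nat_lit 4) .nil .nil))) 
(.lf (nat_lit 146166) (.g (nat_lit 3208) (.e (nat_lit 57373) (nat_lit 2) (.e (nat_lit 90170) (nat_lit 13) (.e (nat_lit 172106) (nat_lit 10) (.e (nat_lit 434231) (nat_lit 23) (.e (nat_lit 532529) (nat_lit 9) (.e (nat_lit 336309) (nat_lit 16) (.e (nat_lit 171776) (nat_lit 172) .nil))))))) (.g (nat_lit 4) .nil .nil))))) (.nd (nat_lit 4) (.nd (nat_lit 5) 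
(.lf (nat_lit 146126) (.g (nat_lit 3021) (.e (nat_lit 57373) (nat_lit 2) (.e (nat_lit 90170) (nat_lit 13) (.e (nat_lit 172106) (nat_lit 10) (.e (nat_lit 434231) (nat_lit 23) (.e (nat_lit 532529) (nat_lit 9) (.e (nat_lit 336240) (nat_lit 15) (.e (nat_lit 2439) (nat_lit 157) (.e (nat_lit 7936) (nat_lit 373) .nil)))))))) (.g (nat_lit 4) .nil .nil))) 
(.lf (nat_lit 146158) (.g (nat_lit 2947) (.e (nat_lit 57373) (nat_lit 2) (.e (nat_lit 90170) (nat_lit 13) (.e (nat_lit 172106) (nat_lit 10) (.e (nat_lit 434231) (nat_lit 23) (.e (nat_lit 532529) (nat_lit 9) (.e (nat_lit 336259) (nat_lit 15) (.e (nat_lit 2422) (nat_lit 157) (.e (nat_lit 6932) (nat_lit 373) .nil)))))))) (.g (nat_lit 4) .nil .nil)))) (.nd (nat_lit 5) 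
(.lf (nat_lit 146142) (.g (nat_lit 3450) (.e (nat_lit 57373) (nat_lit 2) (.e (nat_lit 90170) (nat_lit 13) (.e (nat_lit 172106) (nat_lit 10) (.e (nat_lit 434231) (nat_lit 23) (.e (nat_lit 532529) (nat_lit 9) (.e (nat_lit 336257) (nat_lit 15) (.e (nat_lit 2424) (nat_lit 157) (.e (nat_lit 6932) (nat_lit 373) .nil)))))))) (.g (nat_lit 4) .nil .nil))) 
(.lf (nat_lit 146174) (.g (nat_lit 3225) (.e (nat_lit 57373) (nat_lit 2) (.e (nat_lit 90170) (nat_lit 13) (.e (nat_lit 172106) (nat_lit 10) (.e (nat_lit 434231) (nat_lit 23) (.e (nat_lit 532535) (nat_lit 9) (.e (nat_lit 335886) (nat_lit 0) (.e (nat_lit 968) (nat_lit 81) (.e (nat_lit 4840) (nat_lit 283) .nil)))))))) (.g (nat_lit 4) .nil .nil)))))))) 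
(.nd (nat_lit 1) (.nd (nat_lit 2) (.nd (nat_lit 3) (.nd (nat_lit 4) (.nd (nat_lit 5) 
(.lf (nat_lit 146113) (.g (nat_lit 3127) (.e (nat_lit 57373) (nat_lit 2) (.e (nat_lit 90170) (nat_lit 13) (.e (nat_lit 172106) (nat_lit 10) (.e (nat_lit 434231) (nat_lit 23) (.e (nat_lit 532527) (nat_lit 9) (.e (nat_lit 336031) (nat_lit 4) (.e (nat_lit 130816) (nat_lit 241) .nil))))))) (.g (nat_lit 4) .nil .nil))) 
(.lf (nat_lit 146145) (.g (nat_lit 2823) (.e (nat_lit 57373) (nat_lit 2) (.e (nat_lit 90170) (nat_lit 13) (.e (nat_lit 172106) (nat_lit 10) (.e (nat_lit 434231) (nat_lit 23) (.e (nat_lit 532529) (nat_lit 9) (.e (nat_lit 336257) (nat_lit 15) (.e (nat_lit 2430) (nat_lit 157) (.e (nat_lit 6931) (nat_lit 373) .nil)))))))) (.g (nat_lit 4) .nil .nil)))) (.nd (nat_lit 5) 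
(.lf (nat_lit 146129) (.g (nat_lit 2997) (.e (nat_lit 57373) (nat_lit 2) (.e (nat_lit 90170) (nat_lit 13) (.e (nat_lit 172106) (nat_lit 10) (.e (nat_lit 434231) (nat_lit 23) (.e (nat_lit 532529) (nat_lit 9) (.e (nat_lit 336257) (nat_lit 15) (.e (nat_lit 2397) (nat_lit 157) (.e (nat_lit 6932) (nat_lit 373) .nil)))))))) (.g (nat_lit 4) .nil .nil))) 
(.lf (nat_lit 146161) (.g (nat_lit 3515) (.e (nat_lit 57373) (nat_lit 2) (.e (nat_lit 90170) (nat_lit 13) (.e (nat_lit 172106) (nat_lit 10) (.e (nat_lit 434231) (nat_lit 23) (.e (nat_lit 532529) (nat_lit 9) (.e (nat_lit 336261) (nat_lit 15) (.e (nat_lit 2515) (nat_lit 157) (.e (nat_lit 7936) (nat_lit 373) .nil)))))))) (.g (nat_lit 4) .nil .nil))))) (.nd (nat_lit 4) (.nd (nat_lit 5) 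
(.lf (nat_lit 146121) (.g (nat_lit 2965) (.e (nat_lit 57373) (nat_lit 2) (.e (nat_lit 90170) (nat_lit 13) (.e (nat_lit 172106) (nat_lit 10) (.e (nat_lit 434231) (nat_lit 23) (.e (nat_lit 532529) (nat_lit 9) (.e (nat_lit 335999) (nat_lit 1) (.e (nat_lit 65280) (nat_lit 241) .nil))))))) (.g (nat_lit 4) .nil .nil))) 
(.lf (nat_lit 146153) (.g (nat_lit 3338) (.e (nat_lit 57373) (nat_lit 2) (.e (nat_lit 90170) (nat_lit 13) (.e (nat_lit 172106) (nat_lit 10) (.e (nat_lit 434231) (nat_lit 23) (.e (nat_lit 532529) (nat_lit 9) (.e (nat_lit 336257) (nat_lit 15) (.e (nat_lit 2507) (nat_lit 157) (.e (nat_lit 7936) (nat_lit 373) .nil)))))))) (.g (nat_lit 4) .nil .nil)))) (.nd (nat_lit 5) 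
(.lf (nat_lit 146137) (.g (nat_lit 2848) (.e (nat_lit 57373) (nat_lit 2) (.e (nat_lit 90170) (nat_lit 13) (.e (nat_lit 172106) (nat_lit 10) (.e (nat_lit 434231) (nat_lit 23) (.e (nat_lit 532529) (nat_lit 9) (.e (nat_lit 336257) (nat_lit 15) (.e (nat_lit 2422) (nat_lit 157) (.e (nat_lit 6931) (nat_lit 373) .nil)))))))) (.g (nat_lit 4) .nil .nil))) 
(.lf (nat_lit 146169) (.g (nat_lit 3112) (.e (nat_lit 57373) (nat_lit 2) (.e (nat_lit 90170) (nat_lit 13) (.e (nat_lit 172106) (nat_lit 10) (.e (nat_lit 434231) (nat_lit 23) (.e (nat_lit 532529) (nat_lit 9) (.e (nat_lit 336314) (nat_lit 16) (.e (nat_lit 171776) (nat_lit 172) .nil))))))) (.g (nat_lit 4) .nil .nil)))))) (.nd (nat_lit 3) (.nd (nat_lit 4) (.nd (nat_lit 5) 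
(.lf (nat_lit 146117) (.g (nat_lit 3398) (.e (nat_lit 57373) (nat_lit 2) (.e (nat_lit 90170) (nat_lit 13) (.e (nat_lit 172106) (nat_lit 10) (.e (nat_lit 434231) (nat_lit 23) (.e (nat_lit 532529) (nat_lit 9) (.e (nat_lit 335878) (nat_lit 0) (.e (nat_lit 996) (nat_lit 81) (.e (nat_lit 4842) (nat_lit 283) .nil)))))))) (.g (nat_lit 4) .nil .nil))) 
(.lf (nat_lit 146149) (.g (nat_lit 3552) (.e (nat_lit 57373) (nat_lit 2) (.e (nat_lit 90170) (nat_lit 13) (.e (nat_lit 172106) (nat_lit 10) (.e (nat_lit 434231) (nat_lit 23) (.e (nat_lit 532529) (nat_lit 9) (.e (nat_lit 336257) (nat_lit 15) (.e (nat_lit 2439) (nat_lit 157) (.e (nat_lit 7936) (nat_lit 373) .nil)))))))) (.g (nat_lit 4) .nil .nil)))) (.nd (nat_lit 5) 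
(.lf (nat_lit 146133) (.g (nat_lit 2794) (.e (nat_lit 57373) (nat_lit 2) (.e (nat_lit 90170) (nat_lit 13) (.e (nat_lit 172106) (nat_lit 10) (.e (nat_lit 434231) (nat_lit 23) (.e (nat_lit 532529) (nat_lit 9) (.e (nat_lit 336257) (nat_lit 15) (.e (nat_lit 2411) (nat_lit 157) (.e (nat_lit 6930) (nat_lit 373) .nil)))))))) (.g (nat_lit 4) .nil .nil))) 
(.lf (nat_lit 146165) (.g (nat_lit 2436) (.e (nat_lit 57373) (nat_lit 2) (.e (nat_lit 90170) (nat_lit 13) (.e (nat_lit 172106) (nat_lit 10) (.e (nat_lit 434231) (nat_lit 23) (.e (nat_lit 532529) (nat_lit 9) (.e (nat_lit 343808) (nat_lit 15) (.e (nat_lit 2411) (nat_lit 157) (.e (nat_lit 6930) (nat_lit 373) .nil)))))))) (.g (nat_lit 4) .nil .nil))))) (.nd (nat_lit 4) (.nd (nat_lit 5) 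
(.lf (nat_lit 146125) (.g (nat_lit 2899) (.e (nat_lit 57373) (nat_lit 2) (.e (nat_lit 90170) (nat_lit 13) (.e (nat_lit 172106) (nat_lit 10) (.e (nat_lit 434231) (nat_lit 23) (.e (nat_lit 532529) (nat_lit 9) (.e (nat_lit 336240) (nat_lit 15) (.e (nat_lit 2431) (nat_lit 157) (.e (nat_lit 6932) (nat_lit 373) .nil)))))))) (.g (nat_lit 4) .nil .nil))) 
(.lf (nat_lit 146157) (.g (nat_lit 2507) (.e (nat_lit 57373) (nat_lit 2) (.e (nat_lit 90170) (nat_lit 13) (.e (nat_lit 172106) (nat_lit 10) (.e (nat_lit 434231) (nat_lit 23) (.e (nat_lit 532529) (nat_lit 9) (.e (nat_lit 336259) (nat_lit 15) (.e (nat_lit 2422) (nat_lit 157) (.e (nat_lit 6931) (nat_lit 373) .nil)))))))) (.g (nat_lit 4) .nil .nil)))) (.nd (nat_lit 5) 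
(.lf (nat_lit 146141) (.g (nat_lit 2783) (.e (nat_lit 57373) (nat_lit 2) (.e (nat_lit 90170) (nat_lit 13) (.e (nat_lit 172106) (nat_lit 10) (.e (nat_lit 434231) (nat_lit 23) (.e (nat_lit 532529) (nat_lit 9) (.e (nat_lit 336257) (nat_lit 15) (.e (nat_lit 2424) (nat_lit 157) (.e (nat_lit 6931) (nat_lit 373) .nil)))))))) (.g (nat_lit 4) .nil .nil))) 
(.lf (nat_lit 146173) (.g (nat_lit 2672) (.e (nat_lit 57373) (nat_lit 2) (.e (nat_lit 90170) (nat_lit 13) (.e (nat_lit 172106) (nat_lit 10) (.e (nat_lit 434231) (nat_lit 23) (.e (nat_lit 532531) (nat_lit 9) .nil))))) .nil)))))) (.nd (nat_lit 2) (.nd (nat_lit 3) (.nd (nat_lit 4) (.nd (nat_lit 5) 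
(.lf (nat_lit 146115) (.g (nat_lit 3205) (.e (nat_lit 57373) (nat_lit 2) (.e (nat_lit 90170) (nat_lit 13) (.e (nat_lit 172106) (nat_lit 10) (.e (nat_lit 434231) (nat_lit 23) (.e (nat_lit 532528) (nat_lit 9) (.e (nat_lit 336342) (nat_lit 21) (.e (nat_lit 237312) (nat_lit 172) .nil))))))) (.g (nat_lit 4) .nil .nil))) 
(.lf (nat_lit 146147) (.g (nat_lit 3518) (.e (nat_lit 57373) (nat_lit 2) (.e (nat_lit 90170) (nat_lit 13) (.e (nat_lit 172106) (nat_lit 10) (.e (nat_lit 434231) (nat_lit 23) (.e (nat_lit 532529) (nat_lit 9) (.e (nat_lit 336257) (nat_lit 15) (.e (nat_lit 2431) (nat_lit 157) (.e (nat_lit 6932) (nat_lit 373) .nil)))))))) (.g (nat_lit 4) .nil .nil)))) (.nd (nat_lit 5) 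
(.lf (nat_lit 146131) (.g (nat_lit 2948) (.e (nat_lit 57373) (nat_lit 2) (.e (nat_lit 90170) (nat_lit 13) (.e (nat_lit 172106) (nat_lit 10) (.e (nat_lit 434231) (nat_lit 23) (.e (nat_lit 532529) (nat_lit 9) (.e (nat_lit 336257) (nat_lit 15) (.e (nat_lit 2402) (nat_lit 157) (.e (nat_lit 6930) (nat_lit 373) .nil)))))))) (.g (nat_lit 4) .nil .nil))) 
(.lf (nat_lit 146163) (.g (nat_lit 3242) (.e (nat_lit 57373) (nat_lit 2) (.e (nat_lit 90170) (nat_lit 13) (.e (nat_lit 172106) (nat_lit 10) (.e (nat_lit 434231) (nat_lit 23) (.e (nat_lit 532529) (nat_lit 9) (.e (nat_lit 336296) (nat_lit 15) (.e (nat_lit 2517) (nat_lit 157) (.e (nat_lit 7936) (nat_lit 373) .nil)))))))) (.g (nat_lit 4) .nil .nil))))) (.nd (nat_lit 4) (.nd (nat_lit 5) 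
(.lf (nat_lit 146123) (.g (nat_lit 3376) (.e (nat_lit 57373) (nat_lit 2) (.e (nat_lit 90170) (nat_lit 13) (.e (nat_lit 172106) (nat_lit 10) (.e (nat_lit 434231) (nat_lit 23) (.e (nat_lit 532529) (nat_lit 9) (.e (nat_lit 336238) (nat_lit 15) (.e (nat_lit 2439) (nat_lit 157) (.e (nat_lit 7936) (nat_lit 373) .nil)))))))) (.g (nat_lit 4) .nil .nil))) 
(.lf (nat_lit 146155) (.g (nat_lit 2727) (.e (nat_lit 57373) (nat_lit 2) (.e (nat_lit 90170) (nat_lit 13) (.e (nat_lit 172106) (nat_lit 10) (.e (nat_lit 434231) (nat_lit 23) (.e (nat_lit 532529) (nat_lit 9) (.e (nat_lit 336258) (nat_lit 15) (.e (nat_lit 2418) (nat_lit 157) (.e (nat_lit 6932) (nat_lit 373) .nil)))))))) (.g (nat_lit 4) .nil .nil)))) (.nd (nat_lit 5) 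
(.lf (nat_lit 146139) (.g (nat_lit 2772) (.e (nat_lit 57373) (nat_lit 2) (.e (nat_lit 90170) (nat_lit 13) (.e (nat_lit 172106) (nat_lit 10) (.e (nat_lit 434231) (nat_lit 23) (.e (nat_lit 532529) (nat_lit 9) (.e (nat_lit 336257) (nat_lit 15) (.e (nat_lit 2423) (nat_lit 157) (.e (nat_lit 6931) (nat_lit 373) .nil)))))))) (.g (nat_lit 4) .nil .nil))) 
(.lf (nat_lit 146171) (.g (nat_lit 2876) (.e (nat_lit 57373) (nat_lit 2) (.e (nat_lit 90170) (nat_lit 13) (.e (nat_lit 172106) (nat_lit 10) (.e (nat_lit 434231) (nat_lit 23) (.e (nat_lit 532529) (nat_lit 9) (.e (nat_lit 336340) (nat_lit 21) (.e (nat_lit 237312) (nat_lit 172) .nil))))))) (.g (nat_lit 4) .nil .nil)))))) (.nd (nat_lit 3) (.nd (nat_lit 4) (.nd (nat_lit 5) 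
(.lf (nat_lit 146119) (.g (nat_lit 2967) (.e (nat_lit 57373) (nat_lit 2) (.e (nat_lit 90170) (nat_lit 13) (.e (nat_lit 172106) (nat_lit 10) (.e (nat_lit 434231) (nat_lit 23) (.e (nat_lit 532529) (nat_lit 9) (.e (nat_lit 335878) (nat_lit 0) (.e (nat_lit 997) (nat_lit 81) (.e (nat_lit 4842) (nat_lit 283) .nil)))))))) (.g (nat_lit 4) .nil .nil))) 
(.lf (nat_lit 146151) (.g (nat_lit 3082) (.e (nat_lit 57373) (nat_lit 2) (.e (nat_lit 90170) (nat_lit 13) (.e (nat_lit 172106) (nat_lit 10) (.e (nat_lit 434231) (nat_lit 23) (.e (nat_lit 532529) (nat_lit 9) (.e (nat_lit 336257) (nat_lit 15) (.e (nat_lit 2450) (nat_lit 157) (.e (nat_lit 7936) (nat_lit 373) .nil)))))))) (.g (nat_lit 4) .nil .nil)))) (.nd (nat_lit 5) 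
(.lf (nat_lit 146135) (.g (nat_lit 2620) (.e (nat_lit 57373) (nat_lit 2) (.e (nat_lit 90170) (nat_lit 13) (.e (nat_lit 172106) (nat_lit 10) (.e (nat_lit 434231) (nat_lit 23) (.e (nat_lit 532529) (nat_lit 9) (.e (nat_lit 336257) (nat_lit 15) (.e (nat_lit 2417) (nat_lit 157) (.e (nat_lit 6931) (nat_lit 373) .nil)))))))) (.g (nat_lit 4) .nil .nil))) 
(.lf (nat_lit 146167) (.g (nat_lit 2805) (.e (nat_lit 57373) (nat_lit 2) (.e (nat_lit 90170) (nat_lit 13) (.e (nat_lit 172106) (nat_lit 10) (.e (nat_lit 434231) (nat_lit 23) (.e (nat_lit 532529) (nat_lit 9) (.e (nat_lit 336310) (nat_lit 16) (.e (nat_lit 171776) (nat_lit 172) .nil))))))) (.g (nat_lit 4) .nil .nil))))) (.nd (nat_lit 4) (.nd (nat_lit 5) 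
(.lf (nat_lit 146127) (.g (nat_lit 2885) (.e (nat_lit 57373) (nat_lit 2) (.e (nat_lit 90170) (nat_lit 13) (.e (nat_lit 172106) (nat_lit 10) (.e (nat_lit 434231) (nat_lit 23) (.e (nat_lit 532529) (nat_lit 9) (.e (nat_lit 336257) (nat_lit 15) (.e (nat_lit 2397) (nat_lit 157) (.e (nat_lit 6930) (nat_lit 373) .nil)))))))) (.g (nat_lit 4) .nil .nil))) 
(.lf (nat_lit 146159) (.g (nat_lit 3045) (.e (nat_lit 57373) (nat_lit 2) (.e (nat_lit 90170) (nat_lit 13) (.e (nat_lit 172106) (nat_lit 10) (.e (nat_lit 434231) (nat_lit 23) (.e (nat_lit 532529) (nat_lit 9) (.e (nat_lit 336259) (nat_lit 15) (.e (nat_lit 2424) (nat_lit 157) (.e (nat_lit 6932) (nat_lit 373) .nil)))))))) (.g (nat_lit 4) .nil .nil)))) (.nd (nat_lit 5) 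
(.lf (nat_lit 146143) (.g (nat_lit 2759) (.e (nat_lit 57373) (nat_lit 2) (.e (nat_lit 90170) (nat_lit 13) (.e (nat_lit 172106) (nat_lit 10) (.e (nat_lit 434231) (nat_lit 23) (.e (nat_lit 532529) (nat_lit 9) (.e (nat_lit 336257) (nat_lit 15) (.e (nat_lit 2425) (nat_lit 157) (.e (nat_lit 6931) (nat_lit 373) .nil)))))))) (.g (nat_lit 4) .nil .nil))) 
(.lf (nat_lit 146175) (.g (nat_lit 2488) (.e (nat_lit 57373) (nat_lit 2) (.e (nat_lit 90170) (nat_lit 13) (.e (nat_lit 172106) (nat_lit 10) (.e (nat_lit 434231) (nat_lit 23) (.e (nat_lit 532535) (nat_lit 9) (.e (nat_lit 335886) (nat_lit 0) (.e (nat_lit 968) (nat_lit 81) (.e (nat_lit 4841) (nat_lit 283) .nil)))))))) (.g (nat_lit 4) .nil .nil)))))))))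

noncomputable def tv1942 : DT := (.nd (nat_lit 0) (.nd (nat_lit 1) (.nd (nat_lit 2) (.nd (nat_lit 3) (.nd (nat_lit 4) (.nd (nat_lit 5) 
(.lf (nat_lit 146176) (.g (nat_lit 2791) (.e (nat_lit 57373) (nat_lit 2) (.e (nat_lit 90170) (nat_lit 13) (.e (nat_lit 172106) (nat_lit 10) (.e (nat_lit 434231) (nat_lit 23) (.e (nat_lit 532535) (nat_lit 9) (.e (nat_lit 335886) (nat_lit 0) (.e (nat_lit 968) (nat_lit 81) (.e (nat_lit 4842) (nat_lit 283) .nil)))))))) (.g (nat_lit 4) .nil .nil))) 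
(.lf (nat_lit 146208) (.g (nat_lit 3494) (.e (nat_lit 57373) (nat_lit 2) (.e (nat_lit 90170) (nat_lit 13) (.e (nat_lit 172106) (nat_lit 10) (.e (nat_lit 434231) (nat_lit 23) (.e (nat_lit 532535) (nat_lit 9) (.e (nat_lit 335921) (nat_lit 0) (.e (nat_lit 1003) (nat_lit 81) (.e (nat_lit 7936) (nat_lit 283) .nil)))))))) (.g (nat_lit 4) .nil .nil)))) (.nd (nat_lit 5) 
(.lf (nat_lit 146192) (.g (nat_lit 4418) (.e (nat_lit 57373) (nat_lit 2) (.e (nat_lit 90170) (nat_lit 13) (.e (nat_lit 172106) (nat_lit 10) (.e (nat_lit 434231) (nat_lit 23) (.e (nat_lit 532535) (nat_lit 9) (.e (nat_lit 335905) (nat_lit 0) (.e (nat_lit 973) (nat_lit 81) (.e (nat_lit 4840) (nat_lit 283) .nil)))))))) (.g (nat_lit 5) .nil .nil))) 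
(.lf (nat_lit 146224) (.g (nat_lit 4845) (.e (nat_lit 57373) (nat_lit 2) (.e (nat_lit 90170) (nat_lit 13) (.e (nat_lit 172106) (nat_lit 10) (.e (nat_lit 434231) (nat_lit 23) (.e (nat_lit 532535) (nat_lit 9) (.e (nat_lit 335925) (nat_lit 0) (.e (nat_lit 991) (nat_lit 81) (.e (nat_lit 7936) (nat_lit 283) .nil)))))))) (.g (nat_lit 6) .nil .nil))))) (.nd (nat_lit 4) (.nd (nat_lit 5) 
(.lf (nat_lit 146184) (.g (nat_lit 3285) (.e (nat_lit 57373) (nat_lit 2) (.e (nat_lit 90170) (nat_lit 13) (.e (nat_lit 172106) (nat_lit 10) (.e (nat_lit 434231) (nat_lit 23) (.e (nat_lit 532535) (nat_lit 9) (.e (nat_lit 335901) (nat_lit 0) (.e (nat_lit 1049) (nat_lit 81) (.e (nat_lit 4840) (nat_lit 283) .nil)))))))) (.g (nat_lit 4) .nil .nil))) 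
(.lf (nat_lit 146216) (.g (nat_lit 3022) (.e (nat_lit 57373) (nat_lit 2) (.e (nat_lit 90170) (nat_lit 13) (.e (nat_lit 172106) (nat_lit 10) (.e (nat_lit 434231) (nat_lit 23) (.e (nat_lit 532535) (nat_lit 9) (.e (nat_lit 335925) (nat_lit 0) (.e (nat_lit 988) (nat_lit 81) (.e (nat_lit 4841) (nat_lit 283) .nil)))))))) (.g (nat_lit 4) .nil .nil)))) (.nd (nat_lit 5) 
(.lf (nat_lit 146200) (.g (nat_lit 3437) (.e (nat_lit 57373) (nat_lit 2) (.e (nat_lit 90170) (nat_lit 13) (.e (nat_lit 172106) (nat_lit 10) (.e (nat_lit 434231) (nat_lit 23) (.e (nat_lit 532535) (nat_lit 9) (.e (nat_lit 335919) (nat_lit 0) (.e (nat_lit 991) (nat_lit 81) (.e (nat_lit 4841) (nat_lit 283) .nil)))))))) (.g (nat_lit 4) .nil .nil))) 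
(.lf (nat_lit 146232) (.g (nat_lit 4008) (.e (nat_lit 57373) (nat_lit 2) (.e (nat_lit 90170) (nat_lit 13) (.e (nat_lit 172106) (nat_lit 10) (.e (nat_lit 434231) (nat_lit 23) (.e (nat_lit 532535) (nat_lit 9) (.e (nat_lit 335928) (nat_lit 0) (.e (nat_lit 990) (nat_lit 81) (.e (nat_lit 4841) (nat_lit 283) .nil)))))))) (.g (nat_lit 7) .nil .nil)))))) (.nd (nat_lit 3) (.nd (nat_lit 4) (.nd (nat_lit 5) 
(.lf (nat_lit 146180) (.g (nat_lit 3359) (.e (nat_lit 57373) (nat_lit 2) (.e (nat_lit 90170) (nat_lit 13) (.e (nat_lit 172106) (nat_lit 10) (.e (nat_lit 434231) (nat_lit 23) (.e (nat_lit 532535) (nat_lit 9) (.e (nat_lit 335900) (nat_lit 0) (.e (nat_lit 997) (nat_lit 81) (.e (nat_lit 7936) (nat_lit 283) .nil)))))))) (.g (nat_lit 4) .nil .nil))) 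
(.lf (nat_lit 146212) (.g (nat_lit 3728) (.e (nat_lit 57373) (nat_lit 2) (.e (nat_lit 90170) (nat_lit 13) (.e (nat_lit 172106) (nat_lit 10) (.e (nat_lit 434231) (nat_lit 23) (.e (nat_lit 532535) (nat_lit 9) (.e (nat_lit 335922) (nat_lit 0) (.e (nat_lit 989) (nat_lit 81) (.e (nat_lit 7936) (nat_lit 283) .nil)))))))) (.g (nat_lit 4) .nil .nil)))) (.nd (nat_lit 5) 
(.lf (nat_lit 146196) (.g (nat_lit 3934) (.e (nat_lit 57373) (nat_lit 2) (.e (nat_lit 90170) (nat_lit 13) (.e (nat_lit 172106) (nat_lit 10) (.e (nat_lit 434231) (nat_lit 23) (.e (nat_lit 532535) (nat_lit 9) (.e (nat_lit 335908) (nat_lit 0) (.e (nat_lit 970) (nat_lit 81) (.e (nat_lit 4840) (nat_lit 283) .nil)))))))) (.g (nat_lit 5) .nil .nil))) 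
(.lf (nat_lit 146228) (.g (nat_lit 3300) (.e (nat_lit 57373) (nat_lit 2) (.e (nat_lit 90170) (nat_lit 13) (.e (nat_lit 172106) (nat_lit 10) (.e (nat_lit 434231) (nat_lit 23) (.e (nat_lit 532535) (nat_lit 9) (.e (nat_lit 335928) (nat_lit 0) (.e (nat_lit 982) (nat_lit 81) (.e (nat_lit 4842) (nat_lit 283) .nil)))))))) (.g (nat_lit 4) .nil .nil))))) (.nd (nat_lit 4) (.nd (nat_lit 5) 
(.lf (nat_lit 146188) (.g (nat_lit 4218) (.e (nat_lit 57373) (nat_lit 2) (.e (nat_lit 90170) (nat_lit 13) (.e (nat_lit 172106) (nat_lit 10) (.e (nat_lit 434231) (nat_lit 23) (.e (nat_lit 532535) (nat_lit 9) (.e (nat_lit 335905) (nat_lit 0) (.e (nat_lit 968) (nat_lit 81) (.e (nat_lit 4841) (nat_lit 283) .nil)))))))) (.g (nat_lit 5) .nil .nil))) 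
(.lf (nat_lit 146220) (.g (nat_lit 3730) (.e (nat_lit 57373) (nat_lit 2) (.e (nat_lit 90170) (nat_lit 13) (.e (nat_lit 172106) (nat_lit 10) (.e (nat_lit 434231) (nat_lit 23) (.e (nat_lit 532535) (nat_lit 9) (.e (nat_lit 335925) (nat_lit 0) (.e (nat_lit 990) (nat_lit 81) (.e (nat_lit 4841) (nat_lit 283) .nil)))))))) (.g (nat_lit 5) .nil .nil)))) (.nd (nat_lit 5) 
(.lf (nat_lit 146204) (.g (nat_lit 4943) (.e (nat_lit 57373) (nat_lit 2) (.e (nat_lit 90170) (nat_lit 13) (.e (nat_lit 172106) (nat_lit 10) (.e (nat_lit 434231) (nat_lit 23) (.e (nat_lit 532535) (nat_lit 9) (.e (nat_lit 335921) (nat_lit 0) (.e (nat_lit 982) (nat_lit 81) (.e (nat_lit 4842) (nat_lit 283) .nil)))))))) (.g (nat_lit 5) .nil .nil))) 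
(.lf (nat_lit 146236) (.g (nat_lit 3655) (.e (nat_lit 57373) (nat_lit 2) (.e (nat_lit 90170) (nat_lit 13) (.e (nat_lit 172106) (nat_lit 10) (.e (nat_lit 434231) (nat_lit 23) (.e (nat_lit 532535) (nat_lit 9) (.e (nat_lit 335930) (nat_lit 0) (.e (nat_lit 1015) (nat_lit 81) (.e (nat_lit 7936) (nat_lit 283) .nil)))))))) (.g (nat_lit 4) .nil .nil))))))) 
(.nd (nat_lit 2) (.nd (nat_lit 3) (.nd (nat_lit 4) (.nd (nat_lit 5) 
(.lf (nat_lit 146178) (.g (nat_lit 3235) (.e (nat_lit 57373) (nat_lit 2) (.e (nat_lit 90170) (nat_lit 13) (.e (nat_lit 172106) (nat_lit 10) (.e (nat_lit 434231) (nat_lit 23) (.e (nat_lit 532535) (nat_lit 9) (.e (nat_lit 335900) (nat_lit 0) (.e (nat_lit 983) (nat_lit 81) (.e (nat_lit 4841) (nat_lit 283) .nil)))))))) (.g (nat_lit 4) .nil .nil))) 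
(.lf (nat_lit 146210) (.g (nat_lit 3616) (.e (nat_lit 57373) (nat_lit 2) (.e (nat_lit 90170) (nat_lit 13) (.e (nat_lit 172106) (nat_lit 10) (.e (nat_lit 434231) (nat_lit 23) (.e (nat_lit 532535) (nat_lit 9) (.e (nat_lit 335921) (nat_lit 0) (.e (nat_lit 1023) (nat_lit 81) (.e (nat_lit 7936) (nat_lit 283) .nil)))))))) (.g (nat_lit 4) .nil .nil)))) (.nd (nat_lit 5) 
(.lf (nat_lit 146194) (.g (nat_lit 3406) (.e (nat_lit 57373) (nat_lit 2) (.e (nat_lit 90170) (nat_lit 13) (.e (nat_lit 172106) (nat_lit 10) (.e (nat_lit 434231) (nat_lit 23) (.e (nat_lit 532535) (nat_lit 9) (.e (nat_lit 335908) (nat_lit 0) (.e (nat_lit 968) (nat_lit 81) (.e (nat_lit 4841) (nat_lit 283) .nil)))))))) (.g (nat_lit 4) .nil .nil))) 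
(.lf (nat_lit 146226) (.g (nat_lit 3038) (.e (nat_lit 57373) (nat_lit 2) (.e (nat_lit 90170) (nat_lit 13) (.e (nat_lit 172106) (nat_lit 10) (.e (nat_lit 434231) (nat_lit 23) (.e (nat_lit 532535) (nat_lit 9) (.e (nat_lit 335925) (nat_lit 0) (.e (nat_lit 1015) (nat_lit 81) (.e (nat_lit 7936) (nat_lit 283) .nil)))))))) (.g (nat_lit 4) .nil .nil))))) (.nd (nat_lit 4) (.nd (nat_lit 5) 
(.lf (nat_lit 146186) (.g (nat_lit 3611) (.e (nat_lit 57373) (nat_lit 2) (.e (nat_lit 90170) (nat_lit 13) (.e (nat_lit 172106) (nat_lit 10) (.e (nat_lit 434231) (nat_lit 23) (.e (nat_lit 532535) (nat_lit 9) (.e (nat_lit 335903) (nat_lit 0) (.e (nat_lit 1004) (nat_lit 81) (.e (nat_lit 7936) (nat_lit 283) .nil)))))))) (.g (nat_lit 4) .nil .nil))) 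
(.lf (nat_lit 146218) (.g (nat_lit 4742) (.e (nat_lit 57373) (nat_lit 2) (.e (nat_lit 90170) (nat_lit 13) (.e (nat_lit 172106) (nat_lit 10) (.e (nat_lit 434231) (nat_lit 23) (.e (nat_lit 532535) (nat_lit 9) (.e (nat_lit 335925) (nat_lit 0) (.e (nat_lit 989) (nat_lit 81) (.e (nat_lit 4841) (nat_lit 283) .nil)))))))) (.g (nat_lit 6) .nil .nil)))) (.nd (nat_lit 5) 
(.lf (nat_lit 146202) (.g (nat_lit 3764) (.e (nat_lit 57373) (nat_lit 2) (.e (nat_lit 90170) (nat_lit 13) (.e (nat_lit 172106) (nat_lit 10) (.e (nat_lit 434231) (nat_lit 23) (.e (nat_lit 532535) (nat_lit 9) (.e (nat_lit 335920) (nat_lit 0) (.e (nat_lit 989) (nat_lit 81) (.e (nat_lit 7936) (nat_lit 283) .nil)))))))) (.g (nat_lit 4) .nil .nil))) 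
(.lf (nat_lit 146234) (.g (nat_lit 4094) (.e (nat_lit 57373) (nat_lit 2) (.e (nat_lit 90170) (nat_lit 13) (.e (nat_lit 172106) (nat_lit 10) (.e (nat_lit 434231) (nat_lit 23) (.e (nat_lit 532535) (nat_lit 9) (.e (nat_lit 335928) (nat_lit 0) (.e (nat_lit 991) (nat_lit 81) (.e (nat_lit 7936) (nat_lit 283) .nil)))))))) (.g (nat_lit 7) .nil .nil)))))) (.nd (nat_lit 3) (.nd (nat_lit 4) (.nd (nat_lit 5) 
(.lf (nat_lit 146182) (.g (nat_lit 3413) (.e (nat_lit 57373) (nat_lit 2) (.e (nat_lit 90170) (nat_lit 13) (.e (nat_lit 172106) (nat_lit 10) (.e (nat_lit 434231) (nat_lit 23) (.e (nat_lit 532535) (nat_lit 9) (.e (nat_lit 335901) (nat_lit 0) (.e (nat_lit 969) (nat_lit 81) (.e (nat_lit 4840) (nat_lit 283) .nil)))))))) (.g (nat_lit 4) .nil .nil))) 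
(.lf (nat_lit 146214) (.g (nat_lit 3144) (.e (nat_lit 57373) (nat_lit 2) (.e (nat_lit 90170) (nat_lit 13) (.e (nat_lit 172106) (nat_lit 10) (.e (nat_lit 434231) (nat_lit 23) (.e (nat_lit 532535) (nat_lit 9) (.e (nat_lit 335925) (nat_lit 0) (.e (nat_lit 982) (nat_lit 81) (.e (nat_lit 4841) (nat_lit 283) .nil)))))))) (.g (nat_lit 4) .nil .nil)))) (.nd (nat_lit 5) 
(.lf (nat_lit 146198) (.g (nat_lit 3454) (.e (nat_lit 57373) (nat_lit 2) (.e (nat_lit 90170) (nat_lit 13) (.e (nat_lit 172106) (nat_lit 10) (.e (nat_lit 434231) (nat_lit 23) (.e (nat_lit 532535) (nat_lit 9) (.e (nat_lit 335919) (nat_lit 0) (.e (nat_lit 988) (nat_lit 81) (.e (nat_lit 4842) (nat_lit 283) .nil)))))))) (.g (nat_lit 4) .nil .nil))) 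
(.lf (nat_lit 146230) (.g (nat_lit 2894) (.e (nat_lit 57373) (nat_lit 2) (.e (nat_lit 90170) (nat_lit 13) (.e (nat_lit 172106) (nat_lit 10) (.e (nat_lit 434231) (nat_lit 23) (.e (nat_lit 532535) (nat_lit 9) (.e (nat_lit 335928) (nat_lit 0) (.e (nat_lit 988) (nat_lit 81) (.e (nat_lit 7936) (nat_lit 283) .nil)))))))) (.g (nat_lit 4) .nil .nil))))) (.nd (nat_lit 4) (.nd (nat_lit 5) 
(.lf (nat_lit 146190) (.g (nat_lit 4224) (.e (nat_lit 57373) (nat_lit 2) (.e (nat_lit 90170) (nat_lit 13) (.e (nat_lit 172106) (nat_lit 10) (.e (nat_lit 434231) (nat_lit 23) (.e (nat_lit 532535) (nat_lit 9) (.e (nat_lit 335905) (nat_lit 0) (.e (nat_lit 970) (nat_lit 81) (.e (nat_lit 4840) (nat_lit 283) .nil)))))))) (.g (nat_lit 5) .nil .nil))) 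
(.lf (nat_lit 146222) (.g (nat_lit 3527) (.e (nat_lit 57373) (nat_lit 2) (.e (nat_lit 90170) (nat_lit 13) (.e (nat_lit 172106) (nat_lit 10) (.e (nat_lit 434231) (nat_lit 23) (.e (nat_lit 532535) (nat_lit 9) (.e (nat_lit 335925) (nat_lit 0) (.e (nat_lit 990) (nat_lit 81) (.e (nat_lit 7936) (nat_lit 283) .nil)))))))) (.g (nat_lit 4) .nil .nil)))) (.nd (nat_lit 5) 
(.lf (nat_lit 146206) (.g (nat_lit 4968) (.e (nat_lit 57373) (nat_lit 2) (.e (nat_lit 90170) (nat_lit 13) (.e (nat_lit 172106) (nat_lit 10) (.e (nat_lit 434231) (nat_lit 23) (.e (nat_lit 532535) (nat_lit 9) (.e (nat_lit 335921) (nat_lit 0) (.e (nat_lit 989) (nat_lit 81) (.e (nat_lit 4841) (nat_lit 283) .nil)))))))) (.g (nat_lit 5) .nil .nil))) 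
(.lf (nat_lit 146238) (.g (nat_lit 3561) (.e (nat_lit 57373) (nat_lit 2) (.e (nat_lit 90170) (nat_lit 13) (.e (nat_lit 172106) (nat_lit 10) (.e (nat_lit 434231) (nat_lit 23) (.e (nat_lit 532535) (nat_lit 9) (.e (nat_lit 335937) (nat_lit 0) (.e (nat_lit 989) (nat_lit 81) (.e (nat_lit 7936) (nat_lit 283) .nil)))))))) (.g (nat_lit 4) .nil .nil)))))))) 
(.nd (nat_lit 1) (.nd (nat_lit 2) (.nd (nat_lit 3) (.nd (nat_lit 4) (.nd (nat_lit 5) 
(.lf (nat_lit 146177) (.g (nat_lit 3113) (.e (nat_lit 57373) (nat_lit 2) (.e (nat_lit 90170) (nat_lit 13) (.e (nat_lit 172106) (nat_lit 10) (.e (nat_lit 434231) (nat_lit 23) (.e (nat_lit 532535) (nat_lit 9) (.e (nat_lit 335886) (nat_lit 0) (.e (nat_lit 970) (nat_lit 81) (.e (nat_lit 4840) (nat_lit 283) .nil)))))))) (.g (nat_lit 4) .nil .nil))) 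
(.lf (nat_lit 146209) (.g (nat_lit 3202) (.e (nat_lit 57373) (nat_lit 2) (.e (nat_lit 90170) (nat_lit 13) (.e (nat_lit 172106) (nat_lit 10) (.e (nat_lit 434231) (nat_lit 23) (.e (nat_lit 532535) (nat_lit 9) (.e (nat_lit 335921) (nat_lit 0) (.e (nat_lit 1015) (nat_lit 81) (.e (nat_lit 7936) (nat_lit 283) .nil)))))))) (.g (nat_lit 4) .nil .nil)))) (.nd (nat_lit 5) 
(.lf (nat_lit 146193) (.g (nat_lit 4143) (.e (nat_lit 57373) (nat_lit 2) (.e (nat_lit 90170) (nat_lit 13) (.e (nat_lit 172106) (nat_lit 10) (.e (nat_lit 434231) (nat_lit 23) (.e (nat_lit 532535) (nat_lit 9) (.e (nat_lit 335908) (nat_lit 0) (.e (nat_lit 968) (nat_lit 81) (.e (nat_lit 4840) (nat_lit 283) .nil)))))))) (.g (nat_lit 5) .nil .nil))) 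
(.lf (nat_lit 146225) (.g (nat_lit 2658) (.e (nat_lit 57373) (nat_lit 2) (.e (nat_lit 90170) (nat_lit 13) (.e (nat_lit 172106) (nat_lit 10) (.e (nat_lit 434231) (nat_lit 23) (.e (nat_lit 532535) (nat_lit 9) (.e (nat_lit 335925) (nat_lit 0) (.e (nat_lit 1003) (nat_lit 81) (.e (nat_lit 7936) (nat_lit 283) .nil)))))))) (.g (nat_lit 4) .nil .nil))))) (.nd (nat_lit 4) (.nd (nat_lit 5) 
(.lf (nat_lit 146185) (.g (nat_lit 3138) (.e (nat_lit 57373) (nat_lit 2) (.e (nat_lit 90170) (nat_lit 13) (.e (nat_lit 172106) (nat_lit 10) (.e (nat_lit 434231) (nat_lit 23) (.e (nat_lit 532535) (nat_lit 9) (.e (nat_lit 335901) (nat_lit 0) (.e (nat_lit 1050) (nat_lit 81) (.e (nat_lit 4840) (nat_lit 283) .nil)))))))) (.g (nat_lit 4) .nil .nil))) 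
(.lf (nat_lit 146217) (.g (nat_lit 3341) (.e (nat_lit 57373) (nat_lit 2) (.e (nat_lit 90170) (nat_lit 13) (.e (nat_lit 172106) (nat_lit 10) (.e (nat_lit 434231) (nat_lit 23) (.e (nat_lit 532535) (nat_lit 9) (.e (nat_lit 335925) (nat_lit 0) (.e (nat_lit 988) (nat_lit 81) (.e (nat_lit 4842) (nat_lit 283) .nil)))))))) (.g (nat_lit 4) .nil .nil)))) (.nd (nat_lit 5) 
(.lf (nat_lit 146201) (.g (nat_lit 3264) (.e (nat_lit 57373) (nat_lit 2) (.e (nat_lit 90170) (nat_lit 13) (.e (nat_lit 172106) (nat_lit 10) (.e (nat_lit 434231) (nat_lit 23) (.e (nat_lit 532535) (nat_lit 9) (.e (nat_lit 335920) (nat_lit 0) (.e (nat_lit 982) (nat_lit 81) (.e (nat_lit 4841) (nat_lit 283) .nil)))))))) (.g (nat_lit 4) .nil .nil))) 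
(.lf (nat_lit 146233) (.g (nat_lit 3805) (.e (nat_lit 57373) (nat_lit 2) (.e (nat_lit 90170) (nat_lit 13) (.e (nat_lit 172106) (nat_lit 10) (.e (nat_lit 434231) (nat_lit 23) (.e (nat_lit 532535) (nat_lit 9) (.e (nat_lit 335928) (nat_lit 0) (.e (nat_lit 990) (nat_lit 81) (.e (nat_lit 7936) (nat_lit 283) .nil)))))))) (.g (nat_lit 6) .nil .nil)))))) (.nd (nat_lit 3) (.nd (nat_lit 4) (.nd (nat_lit 5) 
(.lf (nat_lit 146181) (.g (nat_lit 3273) (.e (nat_lit 57373) (nat_lit 2) (.e (nat_lit 90170) (nat_lit 13) (.e (nat_lit 172106) (nat_lit 10) (.e (nat_lit 434231) (nat_lit 23) (.e (nat_lit 532535) (nat_lit 9) (.e (nat_lit 335900) (nat_lit 0) (.e (nat_lit 1004) (nat_lit 81) (.e (nat_lit 7936) (nat_lit 283) .nil)))))))) (.g (nat_lit 4) .nil .nil))) 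
(.lf (nat_lit 146213) (.g (nat_lit 2530) (.e (nat_lit 57373) (nat_lit 2) (.e (nat_lit 90170) (nat_lit 13) (.e (nat_lit 172106) (nat_lit 10) (.e (nat_lit 434231) (nat_lit 23) (.e (nat_lit 532535) (nat_lit 9) (.e (nat_lit 335923) (nat_lit 0) (.e (nat_lit 989) (nat_lit 81) (.e (nat_lit 4842) (nat_lit 283) .nil)))))))) (.g (nat_lit 4) .nil .nil)))) (.nd (nat_lit 5) 
(.lf (nat_lit 146197) (.g (nat_lit 4024) (.e (nat_lit 57373) (nat_lit 2) (.e (nat_lit 90170) (nat_lit 13) (.e (nat_lit 172106) (nat_lit 10) (.e (nat_lit 434231) (nat_lit 23) (.e (nat_lit 532535) (nat_lit 9) (.e (nat_lit 335908) (nat_lit 0) (.e (nat_lit 972) (nat_lit 81) (.e (nat_lit 4840) (nat_lit 283) .nil)))))))) (.g (nat_lit 5) .nil .nil))) 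
(.lf (nat_lit 146229) (.g (nat_lit 3802) (.e (nat_lit 57373) (nat_lit 2) (.e (nat_lit 90170) (nat_lit 13) (.e (nat_lit 172106) (nat_lit 10) (.e (nat_lit 434231) (nat_lit 23) (.e (nat_lit 532535) (nat_lit 9) (.e (nat_lit 335928) (nat_lit 0) (.e (nat_lit 988) (nat_lit 81) (.e (nat_lit 4841) (nat_lit 283) .nil)))))))) (.g (nat_lit 6) .nil .nil))))) (.nd (nat_lit 4) (.nd (nat_lit 5) 
(.lf (nat_lit 146189) (.g (nat_lit 4521) (.e (nat_lit 57373) (nat_lit 2) (.e (nat_lit 90170) (nat_lit 13) (.e (nat_lit 172106) (nat_lit 10) (.e (nat_lit 434231) (nat_lit 23) (.e (nat_lit 532535) (nat_lit 9) (.e (nat_lit 335905) (nat_lit 0) (.e (nat_lit 968) (nat_lit 81) (.e (nat_lit 4842) (nat_lit 283) .nil)))))))) (.g (nat_lit 5) .nil .nil))) 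
(.lf (nat_lit 146221) (.g (nat_lit 4029) (.e (nat_lit 57373) (nat_lit 2) (.e (nat_lit 90170) (nat_lit 13) (.e (nat_lit 172106) (nat_lit 10) (.e (nat_lit 434231) (nat_lit 23) (.e (nat_lit 532535) (nat_lit 9) (.e (nat_lit 335925) (nat_lit 0) (.e (nat_lit 990) (nat_lit 81) (.e (nat_lit 4842) (nat_lit 283) .nil)))))))) (.g (nat_lit 5) .nil .nil)))) (.nd (nat_lit 5) 
(.lf (nat_lit 146205) (.g (nat_lit 3484) (.e (nat_lit 57373) (nat_lit 2) (.e (nat_lit 90170) (nat_lit 13) (.e (nat_lit 172106) (nat_lit 10) (.e (nat_lit 434231) (nat_lit 23) (.e (nat_lit 532535) (nat_lit 9) (.e (nat_lit 335921) (nat_lit 0) (.e (nat_lit 988) (nat_lit 81) (.e (nat_lit 7936) (nat_lit 283) .nil)))))))) (.g (nat_lit 4) .nil .nil))) 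
(.lf (nat_lit 146237) (.g (nat_lit 3247) (.e (nat_lit 57373) (nat_lit 2) (.e (nat_lit 90170) (nat_lit 13) (.e (nat_lit 172106) (nat_lit 10) (.e (nat_lit 434231) (nat_lit 23) (.e (nat_lit 532535) (nat_lit 9) (.e (nat_lit 335937) (nat_lit 0) (.e (nat_lit 982) (nat_lit 81) (.e (nat_lit 4841) (nat_lit 283) .nil)))))))) (.g (nat_lit 4) .nil .nil))))))) 
(.nd (nat_lit 2) (.nd (nat_lit 3) (.nd (nat_lit 4) (.nd (nat_lit 5) 
(.lf (nat_lit 146179) (.g (nat_lit 3292) (.e (nat_lit 57373) (nat_lit 2) (.e (nat_lit 90170) (nat_lit 13) (.e (nat_lit 172106) (nat_lit 10) (.e (nat_lit 434231) (nat_lit 23) (.e (nat_lit 532535) (nat_lit 9) (.e (nat_lit 335900) (nat_lit 0) (.e (nat_lit 996) (nat_lit 81) (.e (nat_lit 4841) (nat_lit 283) .nil)))))))) (.g (nat_lit 4) .nil .nil))) 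
(.lf (nat_lit 146211) (.g (nat_lit 3181) (.e (nat_lit 57373) (nat_lit 2) (.e (nat_lit 90170) (nat_lit 13) (.e (nat_lit 172106) (nat_lit 10) (.e (nat_lit 434231) (nat_lit 23) (.e (nat_lit 532535) (nat_lit 9) (.e (nat_lit 335922) (nat_lit 0) (.e (nat_lit 982) (nat_lit 81) (.e (nat_lit 4841) (nat_lit 283) .nil)))))))) (.g (nat_lit 4) .nil .nil)))) (.nd (nat_lit 5) 
(.lf (nat_lit 146195) (.g (nat_lit 3709) (.e (nat_lit 57373) (nat_lit 2) (.e (nat_lit 90170) (nat_lit 13) (.e (nat_lit 172106) (nat_lit 10) (.e (nat_lit 434231) (nat_lit 23) (.e (nat_lit 532535) (nat_lit 9) (.e (nat_lit 335908) (nat_lit 0) (.e (nat_lit 968) (nat_lit 81) (.e (nat_lit 4842) (nat_lit 283) .nil)))))))) (.g (nat_lit 5) .nil .nil))) 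
(.lf (nat_lit 146227) (.g (nat_lit 3444) (.e (nat_lit 57373) (nat_lit 2) (.e (nat_lit 90170) (nat_lit 13) (.e (nat_lit 172106) (nat_lit 10) (.e (nat_lit 434231) (nat_lit 23) (.e (nat_lit 532535) (nat_lit 9) (.e (nat_lit 335927) (nat_lit 0) (.e (nat_lit 988) (nat_lit 81) (.e (nat_lit 4842) (nat_lit 283) .nil)))))))) (.g (nat_lit 4) .nil .nil))))) (.nd (nat_lit 4) (.nd (nat_lit 5) 
(.lf (nat_lit 146187) (.g (nat_lit 4955) (.e (nat_lit 57373) (nat_lit 2) (.e (nat_lit 90170) (nat_lit 13) (.e (nat_lit 172106) (nat_lit 10) (.e (nat_lit 434231) (nat_lit 23) (.e (nat_lit 532535) (nat_lit 9) (.e (nat_lit 335905) (nat_lit 0) (.e (nat_lit 968) (nat_lit 81) (.e (nat_lit 4840) (nat_lit 283) .nil)))))))) (.g (nat_lit 6) .nil .nil))) 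
(.lf (nat_lit 146219) (.g (nat_lit 3992) (.e (nat_lit 57373) (nat_lit 2) (.e (nat_lit 90170) (nat_lit 13) (.e (nat_lit 172106) (nat_lit 10) (.e (nat_lit 434231) (nat_lit 23) (.e (nat_lit 532535) (nat_lit 9) (.e (nat_lit 335925) (nat_lit 0) (.e (nat_lit 989) (nat_lit 81) (.e (nat_lit 7936) (nat_lit 283) .nil)))))))) (.g (nat_lit 5) .nil .nil)))) (.nd (nat_lit 5) 
(.lf (nat_lit 146203) (.g (nat_lit 3192) (.e (nat_lit 57373) (nat_lit 2) (.e (nat_lit 90170) (nat_lit 13) (.e (nat_lit 172106) (nat_lit 10) (.e (nat_lit 434231) (nat_lit 23) (.e (nat_lit 532535) (nat_lit 9) (.e (nat_lit 335920) (nat_lit 0) (.e (nat_lit 1023) (nat_lit 81) (.e (nat_lit 7936) (nat_lit 283) .nil)))))))) (.g (nat_lit 4) .nil .nil))) 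
(.lf (nat_lit 146235) (.g (nat_lit 3204) (.e (nat_lit 57373) (nat_lit 2) (.e (nat_lit 90170) (nat_lit 13) (.e (nat_lit 172106) (nat_lit 10) (.e (nat_lit 434231) (nat_lit 23) (.e (nat_lit 532535) (nat_lit 9) (.e (nat_lit 335929) (nat_lit 0) (.e (nat_lit 982) (nat_lit 81) (.e (nat_lit 4841) (nat_lit 283) .nil)))))))) (.g (nat_lit 4) .nil .nil)))))) (.nd (nat_lit 3) (.nd (nat_lit 4) (.nd (nat_lit 5) 
(.lf (nat_lit 146183) (.g (nat_lit 3240) (.e (nat_lit 57373) (nat_lit 2) (.e (nat_lit 90170) (nat_lit 13) (.e (nat_lit 172106) (nat_lit 10) (.e (nat_lit 434231) (nat_lit 23) (.e (nat_lit 532535) (nat_lit 9) (.e (nat_lit 335901) (nat_lit 0) (.e (nat_lit 971) (nat_lit 81) (.e (nat_lit 4840) (nat_lit 283) .nil)))))))) (.g (nat_lit 4) .nil .nil))) 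
(.lf (nat_lit 146215) (.g (nat_lit 4385) (.e (nat_lit 57373) (nat_lit 2) (.e (nat_lit 90170) (nat_lit 13) (.e (nat_lit 172106) (nat_lit 10) (.e (nat_lit 434231) (nat_lit 23) (.e (nat_lit 532535) (nat_lit 9) (.e (nat_lit 335925) (nat_lit 0) (.e (nat_lit 982) (nat_lit 81) (.e (nat_lit 4842) (nat_lit 283) .nil)))))))) (.g (nat_lit 5) .nil .nil)))) (.nd (nat_lit 5) 
(.lf (nat_lit 146199) (.g (nat_lit 3222) (.e (nat_lit 57373) (nat_lit 2) (.e (nat_lit 90170) (nat_lit 13) (.e (nat_lit 172106) (nat_lit 10) (.e (nat_lit 434231) (nat_lit 23) (.e (nat_lit 532535) (nat_lit 9) (.e (nat_lit 335919) (nat_lit 0) (.e (nat_lit 990) (nat_lit 81) (.e (nat_lit 4841) (nat_lit 283) .nil)))))))) (.g (nat_lit 4) .nil .nil))) 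
(.lf (nat_lit 146231) (.g (nat_lit 3052) (.e (nat_lit 57373) (nat_lit 2) (.e (nat_lit 90170) (nat_lit 13) (.e (nat_lit 172106) (nat_lit 10) (.e (nat_lit 434231) (nat_lit 23) (.e (nat_lit 532535) (nat_lit 9) (.e (nat_lit 335928) (nat_lit 0) (.e (nat_lit 989) (nat_lit 81) (.e (nat_lit 7936) (nat_lit 283) .nil)))))))) (.g (nat_lit 4) .nil .nil))))) (.nd (nat_lit 4) (.nd (nat_lit 5) 
(.lf (nat_lit 146191) (.g (nat_lit 4117) (.e (nat_lit 57373) (nat_lit 2) (.e (nat_lit 90170) (nat_lit 13) (.e (nat_lit 172106) (nat_lit 10) (.e (nat_lit 434231) (nat_lit 23) (.e (nat_lit 532535) (nat_lit 9) (.e (nat_lit 335905) (nat_lit 0) (.e (nat_lit 972) (nat_lit 81) (.e (nat_lit 4840) (nat_lit 283) .nil)))))))) (.g (nat_lit 5) .nil .nil))) 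
(.lf (nat_lit 146223) (.g (nat_lit 4360) (.e (nat_lit 57373) (nat_lit 2) (.e (nat_lit 90170) (nat_lit 13) (.e (nat_lit 172106) (nat_lit 10) (.e (nat_lit 434231) (nat_lit 23) (.e (nat_lit 532535) (nat_lit 9) (.e (nat_lit 335925) (nat_lit 0) (.e (nat_lit 991) (nat_lit 81) (.e (nat_lit 4841) (nat_lit 283) .nil)))))))) (.g (nat_lit 5) .nil .nil)))) (.nd (nat_lit 5) 
(.lf (nat_lit 146207) (.g (nat_lit 5209) (.e (nat_lit 57373) (nat_lit 2) (.e (nat_lit 90170) (nat_lit 13) (.e (nat_lit 172106) (nat_lit 10) (.e (nat_lit 434231) (nat_lit 23) (.e (nat_lit 532535) (nat_lit 9) (.e (nat_lit 335921) (nat_lit 0) (.e (nat_lit 989) (nat_lit 81) (.e (nat_lit 4842) (nat_lit 283) .nil)))))))) (.g (nat_lit 5) .nil .nil))) 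
(.lf (nat_lit 146239) (.g (nat_lit 3358) (.e (nat_lit 57373) (nat_lit 2) (.e (nat_lit 90170) (nat_lit 13) (.e (nat_lit 172106) (nat_lit 10) (.e (nat_lit 434231) (nat_lit 23) (.e (nat_lit 532535) (nat_lit 9) (.e (nat_lit 335937) (nat_lit 0) (.e (nat_lit 990) (nat_lit 81) (.e (nat_lit 7936) (nat_lit 283) .nil)))))))) (.g (nat_lit 4) .nil .nil)))))))))

noncomputable def tv1943 : DT := (.nd (nat_lit 0) (.nd (nat_lit 1) (.nd (nat_lit 2) (.nd (nat_lit 3) (.nd (nat_lit 4) (.nd (nat_lit 5) 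
(.lf (nat_lit 146240) (.g (nat_lit 3390) (.e (nat_lit 57373) (nat_lit 2) (.e (nat_lit 90170) (nat_lit 13) (.e (nat_lit 172106) (nat_lit 10) (.e (nat_lit 434231) (nat_lit 23) (.e (nat_lit 532535) (nat_lit 9) (.e (nat_lit 335937) (nat_lit 0) (.e (nat_lit 991) (nat_lit 81) (.e (nat_lit 4841) (nat_lit 283) .nil)))))))) (.g (nat_lit 4) .nil .nil))) 
(.lf (nat_lit 146272) (.g (nat_lit 3314) (.e (nat_lit 57373) (nat_lit 2) (.e (nat_lit 90170) (nat_lit 13) (.e (nat_lit 172106) (nat_lit 10) (.e (nat_lit 434231) (nat_lit 23) (.e (nat_lit 532543) (nat_lit 10) (.e (nat_lit 344091) (nat_lit 18) (.e (nat_lit 7936) (nat_lit 283) .nil))))))) (.g (nat_lit 4) .nil .nil)))) (.nd (nat_lit 5) 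
(.lf (nat_lit 146256) (.g (nat_lit 3638) (.e (nat_lit 57373) (nat_lit 2) (.e (nat_lit 90170) (nat_lit 13) (.e (nat_lit 172106) (nat_lit 10) (.e (nat_lit 434231) (nat_lit 23) (.e (nat_lit 532535) (nat_lit 9) (.e (nat_lit 336295) (nat_lit 15) (.e (nat_lit 2442) (nat_lit 157) (.e (nat_lit 7936) (nat_lit 373) .nil)))))))) (.g (nat_lit 4) .nil .nil))) 
(.lf (nat_lit 146288) (.g (nat_lit 4138) (.e (nat_lit 57373) (nat_lit 2) (.e (nat_lit 90170) (nat_lit 13) (.e (nat_lit 172106) (nat_lit 10) (.e (nat_lit 434231) (nat_lit 23) (.e (nat_lit 532544) (nat_lit 10) (.e (nat_lit 344091) (nat_lit 18) (.e (nat_lit 7936) (nat_lit 283) .nil))))))) (.g (nat_lit 5) .nil .nil))))) (.nd (nat_lit 4) (.nd (nat_lit 5) 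
(.lf (nat_lit 146248) (.g (nat_lit 4594) (.e (nat_lit 57373) (nat_lit 2) (.e (nat_lit 90170) (nat_lit 13) (.e (nat_lit 172106) (nat_lit 10) (.e (nat_lit 434231) (nat_lit 23) (.e (nat_lit 532535) (nat_lit 9) (.e (nat_lit 336248) (nat_lit 15) (.e (nat_lit 2401) (nat_lit 157) (.e (nat_lit 6930) (nat_lit 373) .nil)))))))) (.g (nat_lit 5) .nil .nil))) 
(.lf (nat_lit 146280) (.g (nat_lit 3182) (.e (nat_lit 57373) (nat_lit 2) (.e (nat_lit 90170) (nat_lit 13) (.e (nat_lit 172106) (nat_lit 10) (.e (nat_lit 434231) (nat_lit 23) (.e (nat_lit 532544) (nat_lit 10) (.e (nat_lit 344087) (nat_lit 18) (.e (nat_lit 4841) (nat_lit 283) .nil))))))) (.g (nat_lit 4) .nil .nil)))) (.nd (nat_lit 5) 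
(.lf (nat_lit 146264) (.g (nat_lit 2979) (.e (nat_lit 57373) (nat_lit 2) (.e (nat_lit 90170) (nat_lit 13) (.e (nat_lit 172106) (nat_lit 10) (.e (nat_lit 434231) (nat_lit 23) (.e (nat_lit 532543) (nat_lit 10) (.e (nat_lit 344087) (nat_lit 18) (.e (nat_lit 4842) (nat_lit 283) .nil))))))) (.g (nat_lit 4) .nil .nil))) 
(.lf (nat_lit 146296) (.g (nat_lit 2729) (.e (nat_lit 57373) (nat_lit 2) (.e (nat_lit 90170) (nat_lit 13) (.e (nat_lit 172106) (nat_lit 10) (.e (nat_lit 434231) (nat_lit 23) (.e (nat_lit 532544) (nat_lit 10) (.e (nat_lit 344101) (nat_lit 18) (.e (nat_lit 7936) (nat_lit 283) .nil))))))) (.g (nat_lit 4) .nil .nil)))))) (.nd (nat_lit 3) (.nd (nat_lit 4) (.nd (nat_lit 5) 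
(.lf (nat_lit 146244) (.g (nat_lit 3372) (.e (nat_lit 57373) (nat_lit 2) (.e (nat_lit 90170) (nat_lit 13) (.e (nat_lit 172106) (nat_lit 10) (.e (nat_lit 434231) (nat_lit 23) (.e (nat_lit 532535) (nat_lit 9) (.e (nat_lit 335991) (nat_lit 1) (.e (nat_lit 65280) (nat_lit 241) .nil))))))) (.g (nat_lit 4) .nil .nil))) 
(.lf (nat_lit 146276) (.g (nat_lit 3533) (.e (nat_lit 57373) (nat_lit 2) (.e (nat_lit 90170) (nat_lit 13) (.e (nat_lit 172106) (nat_lit 10) (.e (nat_lit 434231) (nat_lit 23) (.e (nat_lit 532543) (nat_lit 10) (.e (nat_lit 344096) (nat_lit 18) (.e (nat_lit 7936) (nat_lit 283) .nil))))))) (.g (nat_lit 5) .nil .nil)))) (.nd (nat_lit 5) 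
(.lf (nat_lit 146260) (.g (nat_lit 3227) (.e (nat_lit 57373) (nat_lit 2) (.e (nat_lit 90170) (nat_lit 13) (.e (nat_lit 172106) (nat_lit 10) (.e (nat_lit 434231) (nat_lit 23) (.e (nat_lit 532535) (nat_lit 9) (.e (nat_lit 336295) (nat_lit 15) (.e (nat_lit 2454) (nat_lit 157) (.e (nat_lit 7936) (nat_lit 373) .nil)))))))) (.g (nat_lit 4) .nil .nil))) 
(.lf (nat_lit 146292) (.g (nat_lit 4039) (.e (nat_lit 57373) (nat_lit 2) (.e (nat_lit 90170) (nat_lit 13) (.e (nat_lit 172106) (nat_lit 10) (.e (nat_lit 434231) (nat_lit 23) (.e (nat_lit 532544) (nat_lit 10) (.e (nat_lit 344095) (nat_lit 18) (.e (nat_lit 7936) (nat_lit 283) .nil))))))) (.g (nat_lit 5) .nil .nil))))) (.nd (nat_lit 4) (.nd (nat_lit 5) 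
(.lf (nat_lit 146252) (.g (nat_lit 3066) (.e (nat_lit 57373) (nat_lit 2) (.e (nat_lit 90170) (nat_lit 13) (.e (nat_lit 172106) (nat_lit 10) (.e (nat_lit 434231) (nat_lit 23) (.e (nat_lit 532535) (nat_lit 9) (.e (nat_lit 336290) (nat_lit 15) (.e (nat_lit 2508) (nat_lit 157) (.e (nat_lit 7936) (nat_lit 373) .nil)))))))) (.g (nat_lit 4) .nil .nil))) 
(.lf (nat_lit 146284) (.g (nat_lit 4065) (.e (nat_lit 57373) (nat_lit 2) (.e (nat_lit 90170) (nat_lit 13) (.e (nat_lit 172106) (nat_lit 10) (.e (nat_lit 434231) (nat_lit 23) (.e (nat_lit 532544) (nat_lit 10) (.e (nat_lit 344088) (nat_lit 18) (.e (nat_lit 7936) (nat_lit 283) .nil))))))) (.g (nat_lit 5) .nil .nil)))) (.nd (nat_lit 5) 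
(.lf (nat_lit 146268) (.g (nat_lit 3252) (.e (nat_lit 57373) (nat_lit 2) (.e (nat_lit 90170) (nat_lit 13) (.e (nat_lit 172106) (nat_lit 10) (.e (nat_lit 434231) (nat_lit 23) (.e (nat_lit 532543) (nat_lit 10) (.e (nat_lit 344088) (nat_lit 18) (.e (nat_lit 7936) (nat_lit 283) .nil))))))) (.g (nat_lit 4) .nil .nil))) 
(.lf (nat_lit 146300) (.g (nat_lit 3083) (.e (nat_lit 57373) (nat_lit 2) (.e (nat_lit 90170) (nat_lit 13) (.e (nat_lit 172106) (nat_lit 10) (.e (nat_lit 434231) (nat_lit 23) (.e (nat_lit 532553) (nat_lit 13) .nil))))) .nil)))))) (.nd (nat_lit 2) (.nd (nat_lit 3) (.nd (nat_lit 4) (.nd (nat_lit 5) 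
(.lf (nat_lit 146242) (.g (nat_lit 4723) (.e (nat_lit 57373) (nat_lit 2) (.e (nat_lit 90170) (nat_lit 13) (.e (nat_lit 172106) (nat_lit 10) (.e (nat_lit 434231) (nat_lit 23) (.e (nat_lit 532535) (nat_lit 9) (.e (nat_lit 335989) (nat_lit 1) (.e (nat_lit 65280) (nat_lit 241) .nil))))))) (.g (nat_lit 5) .nil .nil))) 
(.lf (nat_lit 146274) (.g (nat_lit 3789) (.e (nat_lit 57373) (nat_lit 2) (.e (nat_lit 90170) (nat_lit 13) (.e (nat_lit 172106) (nat_lit 10) (.e (nat_lit 434231) (nat_lit 23) (.e (nat_lit 532543) (nat_lit 10) (.e (nat_lit 344094) (nat_lit 18) (.e (nat_lit 7936) (nat_lit 283) .nil))))))) (.g (nat_lit 5) .nil .nil)))) (.nd (nat_lit 5) 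
(.lf (nat_lit 146258) (.g (nat_lit 3584) (.e (nat_lit 57373) (nat_lit 2) (.e (nat_lit 90170) (nat_lit 13) (.e (nat_lit 172106) (nat_lit 10) (.e (nat_lit 434231) (nat_lit 23) (.e (nat_lit 532535) (nat_lit 9) (.e (nat_lit 336295) (nat_lit 15) (.e (nat_lit 2444) (nat_lit 157) (.e (nat_lit 7936) (nat_lit 373) .nil)))))))) (.g (nat_lit 4) .nil .nil))) 
(.lf (nat_lit 146290) (.g (nat_lit 2992) (.e (nat_lit 57373) (nat_lit 2) (.e (nat_lit 90170) (nat_lit 13) (.e (nat_lit 172106) (nat_lit 10) (.e (nat_lit 434231) (nat_lit 23) (.e (nat_lit 532544) (nat_lit 10) (.e (nat_lit 344093) (nat_lit 18) (.e (nat_lit 7936) (nat_lit 283) .nil))))))) (.g (nat_lit 4) .nil .nil))))) (.nd (nat_lit 4) (.nd (nat_lit 5) 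
(.lf (nat_lit 146250) (.g (nat_lit 4550) (.e (nat_lit 57373) (nat_lit 2) (.e (nat_lit 90170) (nat_lit 13) (.e (nat_lit 172106) (nat_lit 10) (.e (nat_lit 434231) (nat_lit 23) (.e (nat_lit 532535) (nat_lit 9) (.e (nat_lit 336248) (nat_lit 15) (.e (nat_lit 2412) (nat_lit 157) (.e (nat_lit 6930) (nat_lit 373) .nil)))))))) (.g (nat_lit 5) .nil .nil))) 
(.lf (nat_lit 146282) (.g (nat_lit 2925) (.e (nat_lit 57373) (nat_lit 2) (.e (nat_lit 90170) (nat_lit 13) (.e (nat_lit 172106) (nat_lit 10) (.e (nat_lit 434231) (nat_lit 23) (.e (nat_lit 532544) (nat_lit 10) (.e (nat_lit 344087) (nat_lit 18) (.e (nat_lit 7936) (nat_lit 283) .nil))))))) (.g (nat_lit 4) .nil .nil)))) (.nd (nat_lit 5) 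
(.lf (nat_lit 146266) (.g (nat_lit 3069) (.e (nat_lit 57373) (nat_lit 2) (.e (nat_lit 90170) (nat_lit 13) (.e (nat_lit 172106) (nat_lit 10) (.e (nat_lit 434231) (nat_lit 23) (.e (nat_lit 532543) (nat_lit 10) (.e (nat_lit 344088) (nat_lit 18) (.e (nat_lit 4841) (nat_lit 283) .nil))))))) (.g (nat_lit 4) .nil .nil))) 
(.lf (nat_lit 146298) (.g (nat_lit 2549) (.e (nat_lit 57373) (nat_lit 2) (.e (nat_lit 90170) (nat_lit 13) (.e (nat_lit 172106) (nat_lit 10) (.e (nat_lit 434231) (nat_lit 23) (.e (nat_lit 532544) (nat_lit 10) (.e (nat_lit 352000) (nat_lit 18) (.e (nat_lit 4840) (nat_lit 283) .nil))))))) (.g (nat_lit 4) .nil .nil)))))) (.nd (nat_lit 3) (.nd (nat_lit 4) (.nd (nat_lit 5) 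
(.lf (nat_lit 146246) (.g (nat_lit 4402) (.e (nat_lit 57373) (nat_lit 2) (.e (nat_lit 90170) (nat_lit 13) (.e (nat_lit 172106) (nat_lit 10) (.e (nat_lit 434231) (nat_lit 23) (.e (nat_lit 532535) (nat_lit 9) (.e (nat_lit 336030) (nat_lit 4) (.e (nat_lit 130816) (nat_lit 241) .nil))))))) (.g (nat_lit 5) .nil .nil))) 
(.lf (nat_lit 146278) (.g (nat_lit 2859) (.e (nat_lit 57373) (nat_lit 2) (.e (nat_lit 90170) (nat_lit 13) (.e (nat_lit 172106) (nat_lit 10) (.e (nat_lit 434231) (nat_lit 23) (.e (nat_lit 532543) (nat_lit 10) (.e (nat_lit 344098) (nat_lit 18) (.e (nat_lit 7936) (nat_lit 283) .nil))))))) (.g (nat_lit 4) .nil .nil)))) (.nd (nat_lit 5) 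
(.lf (nat_lit 146262) (.g (nat_lit 4650) (.e (nat_lit 57373) (nat_lit 2) (.e (nat_lit 90170) (nat_lit 13) (.e (nat_lit 172106) (nat_lit 10) (.e (nat_lit 434231) (nat_lit 23) (.e (nat_lit 532535) (nat_lit 9) (.e (nat_lit 336338) (nat_lit 21) (.e (nat_lit 237312) (nat_lit 172) .nil))))))) (.g (nat_lit 5) .nil .nil))) 
(.lf (nat_lit 146294) (.g (nat_lit 3969) (.e (nat_lit 57373) (nat_lit 2) (.e (nat_lit 90170) (nat_lit 13) (.e (nat_lit 172106) (nat_lit 10) (.e (nat_lit 434231) (nat_lit 23) (.e (nat_lit 532544) (nat_lit 10) (.e (nat_lit 344097) (nat_lit 18) (.e (nat_lit 7936) (nat_lit 283) .nil))))))) (.g (nat_lit 6) .nil .nil))))) (.nd (nat_lit 4) (.nd (nat_lit 5) 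
(.lf (nat_lit 146254) (.g (nat_lit 3136) (.e (nat_lit 57373) (nat_lit 2) (.e (nat_lit 90170) (nat_lit 13) (.e (nat_lit 172106) (nat_lit 10) (.e (nat_lit 434231) (nat_lit 23) (.e (nat_lit 532535) (nat_lit 9) (.e (nat_lit 336295) (nat_lit 15) (.e (nat_lit 2416) (nat_lit 157) (.e (nat_lit 6931) (nat_lit 373) .nil)))))))) (.g (nat_lit 4) .nil .nil))) 
(.lf (nat_lit 146286) (.g (nat_lit 4309) (.e (nat_lit 57373) (nat_lit 2) (.e (nat_lit 90170) (nat_lit 13) (.e (nat_lit 172106) (nat_lit 10) (.e (nat_lit 434231) (nat_lit 23) (.e (nat_lit 532544) (nat_lit 10) (.e (nat_lit 344089) (nat_lit 18) (.e (nat_lit 7936) (nat_lit 283) .nil))))))) (.g (nat_lit 5) .nil .nil)))) (.nd (nat_lit 5) 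
(.lf (nat_lit 146270) (.g (nat_lit 3754) (.e (nat_lit 57373) (nat_lit 2) (.e (nat_lit 90170) (nat_lit 13) (.e (nat_lit 172106) (nat_lit 10) (.e (nat_lit 434231) (nat_lit 23) (.e (nat_lit 532543) (nat_lit 10) (.e (nat_lit 344089) (nat_lit 18) (.e (nat_lit 7936) (nat_lit 283) .nil))))))) (.g (nat_lit 5) .nil .nil))) 
(.lf (nat_lit 146302) (.g (nat_lit 3588) (.e (nat_lit 57373) (nat_lit 2) (.e (nat_lit 90170) (nat_lit 13) (.e (nat_lit 172106) (nat_lit 10) (.e (nat_lit 434231) (nat_lit 23) (.e (nat_lit 532554) (nat_lit 13) (.e (nat_lit 368662) (nat_lit 18) (.e (nat_lit 7936) (nat_lit 283) .nil))))))) (.g (nat_lit 4) .nil .nil)))))))) 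
(.nd (nat_lit 1) (.nd (nat_lit 2) (.nd (nat_lit 3) (.nd (nat_lit 4) (.nd (nat_lit 5) 
(.lf (nat_lit 146241) (.g (nat_lit 4118) (.e (nat_lit 57373) (nat_lit 2) (.e (nat_lit 90170) (nat_lit 13) (.e (nat_lit 172106) (nat_lit 10) (.e (nat_lit 434231) (nat_lit 23) (.e (nat_lit 532535) (nat_lit 9) (.e (nat_lit 335985) (nat_lit 1) (.e (nat_lit 65280) (nat_lit 241) .nil))))))) (.g (nat_lit 6) .nil .nil))) 
(.lf (nat_lit 146273) (.g (nat_lit 3346) (.e (nat_lit 57373) (nat_lit 2) (.e (nat_lit 90170) (nat_lit 13) (.e (nat_lit 172106) (nat_lit 10) (.e (nat_lit 434231) (nat_lit 23) (.e (nat_lit 532543) (nat_lit 10) (.e (nat_lit 344093) (nat_lit 18) (.e (nat_lit 7936) (nat_lit 283) .nil))))))) (.g (nat_lit 4) .nil .nil)))) (.nd (nat_lit 5) 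
(.lf (nat_lit 146257) (.g (nat_lit 4386) (.e (nat_lit 57373) (nat_lit 2) (.e (nat_lit 90170) (nat_lit 13) (.e (nat_lit 172106) (nat_lit 10) (.e (nat_lit 434231) (nat_lit 23) (.e (nat_lit 532535) (nat_lit 9) (.e (nat_lit 336295) (nat_lit 15) (.e (nat_lit 2443) (nat_lit 157) (.e (nat_lit 7936) (nat_lit 373) .nil)))))))) (.g (nat_lit 5) .nil .nil))) 
(.lf (nat_lit 146289) (.g (nat_lit 3126) (.e (nat_lit 57373) (nat_lit 2) (.e (nat_lit 90170) (nat_lit 13) (.e (nat_lit 172106) (nat_lit 10) (.e (nat_lit 434231) (nat_lit 23) (.e (nat_lit 532544) (nat_lit 10) (.e (nat_lit 344092) (nat_lit 18) (.e (nat_lit 7936) (nat_lit 283) .nil))))))) (.g (nat_lit 4) .nil .nil))))) (.nd (nat_lit 4) (.nd (nat_lit 5) 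
(.lf (nat_lit 146249) (.g (nat_lit 4406) (.e (nat_lit 57373) (nat_lit 2) (.e (nat_lit 90170) (nat_lit 13) (.e (nat_lit 172106) (nat_lit 10) (.e (nat_lit 434231) (nat_lit 23) (.e (nat_lit 532535) (nat_lit 9) (.e (nat_lit 336248) (nat_lit 15) (.e (nat_lit 2411) (nat_lit 157) (.e (nat_lit 6930) (nat_lit 373) .nil)))))))) (.g (nat_lit 5) .nil .nil))) 
(.lf (nat_lit 146281) (.g (nat_lit 2822) (.e (nat_lit 57373) (nat_lit 2) (.e (nat_lit 90170) (nat_lit 13) (.e (nat_lit 172106) (nat_lit 10) (.e (nat_lit 434231) (nat_lit 23) (.e (nat_lit 532544) (nat_lit 10) (.e (nat_lit 344087) (nat_lit 18) (.e (nat_lit 4842) (nat_lit 283) .nil))))))) (.g (nat_lit 4) .nil .nil)))) (.nd (nat_lit 5) 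
(.lf (nat_lit 146265) (.g (nat_lit 3082) (.e (nat_lit 57373) (nat_lit 2) (.e (nat_lit 90170) (nat_lit 13) (.e (nat_lit 172106) (nat_lit 10) (.e (nat_lit 434231) (nat_lit 23) (.e (nat_lit 532543) (nat_lit 10) (.e (nat_lit 344087) (nat_lit 18) (.e (nat_lit 7936) (nat_lit 283) .nil))))))) (.g (nat_lit 4) .nil .nil))) 
(.lf (nat_lit 146297) (.g (nat_lit 3613) (.e (nat_lit 57373) (nat_lit 2) (.e (nat_lit 90170) (nat_lit 13) (.e (nat_lit 172106) (nat_lit 10) (.e (nat_lit 434231) (nat_lit 23) (.e (nat_lit 532544) (nat_lit 10) (.e (nat_lit 344102) (nat_lit 18) (.e (nat_lit 7936) (nat_lit 283) .nil))))))) (.g (nat_lit 5) .nil .nil)))))) (.nd (nat_lit 3) (.nd (nat_lit 4) (.nd (nat_lit 5) 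
(.lf (nat_lit 146245) (.g (nat_lit 4599) (.e (nat_lit 57373) (nat_lit 2) (.e (nat_lit 90170) (nat_lit 13) (.e (nat_lit 172106) (nat_lit 10) (.e (nat_lit 434231) (nat_lit 23) (.e (nat_lit 532535) (nat_lit 9) (.e (nat_lit 335992) (nat_lit 1) (.e (nat_lit 65280) (nat_lit 241) .nil))))))) (.g (nat_lit 5) .nil .nil))) 
(.lf (nat_lit 146277) (.g (nat_lit 3938) (.e (nat_lit 57373) (nat_lit 2) (.e (nat_lit 90170) (nat_lit 13) (.e (nat_lit 172106) (nat_lit 10) (.e (nat_lit 434231) (nat_lit 23) (.e (nat_lit 532543) (nat_lit 10) (.e (nat_lit 344097) (nat_lit 18) (.e (nat_lit 7936) (nat_lit 283) .nil))))))) (.g (nat_lit 6) .nil .nil)))) (.nd (nat_lit 5) 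
(.lf (nat_lit 146261) (.g (nat_lit 3974) (.e (nat_lit 57373) (nat_lit 2) (.e (nat_lit 90170) (nat_lit 13) (.e (nat_lit 172106) (nat_lit 10) (.e (nat_lit 434231) (nat_lit 23) (.e (nat_lit 532535) (nat_lit 9) (.e (nat_lit 336295) (nat_lit 15) (.e (nat_lit 2505) (nat_lit 157) (.e (nat_lit 7936) (nat_lit 373) .nil)))))))) (.g (nat_lit 5) .nil .nil))) 
(.lf (nat_lit 146293) (.g (nat_lit 4721) (.e (nat_lit 57373) (nat_lit 2) (.e (nat_lit 90170) (nat_lit 13) (.e (nat_lit 172106) (nat_lit 10) (.e (nat_lit 434231) (nat_lit 23) (.e (nat_lit 532544) (nat_lit 10) (.e (nat_lit 344096) (nat_lit 18) (.e (nat_lit 7936) (nat_lit 283) .nil))))))) (.g (nat_lit 6) .nil .nil))))) (.nd (nat_lit 4) (.nd (nat_lit 5) 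
(.lf (nat_lit 146253) (.g (nat_lit 2927) (.e (nat_lit 57373) (nat_lit 2) (.e (nat_lit 90170) (nat_lit 13) (.e (nat_lit 172106) (nat_lit 10) (.e (nat_lit 434231) (nat_lit 23) (.e (nat_lit 532535) (nat_lit 9) (.e (nat_lit 336290) (nat_lit 15) (.e (nat_lit 2509) (nat_lit 157) (.e (nat_lit 7936) (nat_lit 373) .nil)))))))) (.g (nat_lit 4) .nil .nil))) 
(.lf (nat_lit 146285) (.g (nat_lit 3409) (.e (nat_lit 57373) (nat_lit 2) (.e (nat_lit 90170) (nat_lit 13) (.e (nat_lit 172106) (nat_lit 10) (.e (nat_lit 434231) (nat_lit 23) (.e (nat_lit 532544) (nat_lit 10) (.e (nat_lit 344089) (nat_lit 18) (.e (nat_lit 4841) (nat_lit 283) .nil))))))) (.g (nat_lit 5) .nil .nil)))) (.nd (nat_lit 5) 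
(.lf (nat_lit 146269) (.g (nat_lit 2639) (.e (nat_lit 57373) (nat_lit 2) (.e (nat_lit 90170) (nat_lit 13) (.e (nat_lit 172106) (nat_lit 10) (.e (nat_lit 434231) (nat_lit 23) (.e (nat_lit 532543) (nat_lit 10) (.e (nat_lit 344089) (nat_lit 18) (.e (nat_lit 4841) (nat_lit 283) .nil))))))) (.g (nat_lit 4) .nil .nil))) 
(.lf (nat_lit 146301) (.g (nat_lit 2596) (.e (nat_lit 57373) (nat_lit 2) (.e (nat_lit 90170) (nat_lit 13) (.e (nat_lit 172106) (nat_lit 10) (.e (nat_lit 434231) (nat_lit 23) (.e (nat_lit 532554) (nat_lit 13) (.e (nat_lit 368659) (nat_lit 18) (.e (nat_lit 4842) (nat_lit 283) .nil))))))) (.g (nat_lit 4) .nil .nil))))))) (.nd (nat_lit 2) (.nd (nat_lit 3) (.nd (nat_lit 4) (.nd (nat_lit 5) 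
(.lf (nat_lit 146243) (.g (nat_lit 3559) (.e (nat_lit 57373) (nat_lit 2) (.e (nat_lit 90170) (nat_lit 13) (.e (nat_lit 172106) (nat_lit 10) (.e (nat_lit 434231) (nat_lit 23) (.e (nat_lit 532535) (nat_lit 9) (.e (nat_lit 335990) (nat_lit 1) (.e (nat_lit 65280) (nat_lit 241) .nil))))))) (.g (nat_lit 4) .nil .nil))) 
(.lf (nat_lit 146275) (.g (nat_lit 3841) (.e (nat_lit 57373) (nat_lit 2) (.e (nat_lit 90170) (nat_lit 13) (.e (nat_lit 172106) (nat_lit 10) (.e (nat_lit 434231) (nat_lit 23) (.e (nat_lit 532543) (nat_lit 10) (.e (nat_lit 344095) (nat_lit 18) (.e (nat_lit 7936) (nat_lit 283) .nil))))))) (.g (nat_lit 5) .nil .nil)))) (.nd (nat_lit 5) 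
(.lf (nat_lit 146259) (.g (nat_lit 3523) (.e (nat_lit 57373) (nat_lit 2) (.e (nat_lit 90170) (nat_lit 13) (.e (nat_lit 172106) (nat_lit 10) (.e (nat_lit 434231) (nat_lit 23) (.e (nat_lit 532535) (nat_lit 9) (.e (nat_lit 336295) (nat_lit 15) (.e (nat_lit 2445) (nat_lit 157) (.e (nat_lit 7936) (nat_lit 373) .nil)))))))) (.g (nat_lit 4) .nil .nil))) 
(.lf (nat_lit 146291) (.g (nat_lit 4276) (.e (nat_lit 57373) (nat_lit 2) (.e (nat_lit 90170) (nat_lit 13) (.e (nat_lit 172106) (nat_lit 10) (.e (nat_lit 434231) (nat_lit 23) (.e (nat_lit 532544) (nat_lit 10) (.e (nat_lit 344094) (nat_lit 18) (.e (nat_lit 7936) (nat_lit 283) .nil))))))) (.g (nat_lit 5) .nil .nil))))) (.nd (nat_lit 4) (.nd (nat_lit 5) 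
(.lf (nat_lit 146251) (.g (nat_lit 3132) (.e (nat_lit 57373) (nat_lit 2) (.e (nat_lit 90170) (nat_lit 13) (.e (nat_lit 172106) (nat_lit 10) (.e (nat_lit 434231) (nat_lit 23) (.e (nat_lit 532535) (nat_lit 9) (.e (nat_lit 336290) (nat_lit 15) (.e (nat_lit 2505) (nat_lit 157) (.e (nat_lit 7936) (nat_lit 373) .nil)))))))) (.g (nat_lit 4) .nil .nil))) 
(.lf (nat_lit 146283) (.g (nat_lit 3882) (.e (nat_lit 57373) (nat_lit 2) (.e (nat_lit 90170) (nat_lit 13) (.e (nat_lit 172106) (nat_lit 10) (.e (nat_lit 434231) (nat_lit 23) (.e (nat_lit 532544) (nat_lit 10) (.e (nat_lit 344088) (nat_lit 18) (.e (nat_lit 4841) (nat_lit 283) .nil))))))) (.g (nat_lit 5) .nil .nil)))) (.nd (nat_lit 5) 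
(.lf (nat_lit 146267) (.g (nat_lit 3708) (.e (nat_lit 57373) (nat_lit 2) (.e (nat_lit 90170) (nat_lit 13) (.e (nat_lit 172106) (nat_lit 10) (.e (nat_lit 434231) (nat_lit 23) (.e (nat_lit 532543) (nat_lit 10) (.e (nat_lit 344088) (nat_lit 18) (.e (nat_lit 4842) (nat_lit 283) .nil))))))) (.g (nat_lit 5) .nil .nil))) 
(.lf (nat_lit 146299) (.g (nat_lit 2538) (.e (nat_lit 57373) (nat_lit 2) (.e (nat_lit 90170) (nat_lit 13) (.e (nat_lit 172106) (nat_lit 10) (.e (nat_lit 434231) (nat_lit 23) (.e (nat_lit 532544) (nat_lit 10) (.e (nat_lit 352000) (nat_lit 18) (.e (nat_lit 4842) (nat_lit 283) .nil))))))) (.g (nat_lit 4) .nil .nil)))))) (.nd (nat_lit 3) (.nd (nat_lit 4) (.nd (nat_lit 5) 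
(.lf (nat_lit 146247) (.g (nat_lit 3068) (.e (nat_lit 57373) (nat_lit 2) (.e (nat_lit 90170) (nat_lit 13) (.e (nat_lit 172106) (nat_lit 10) (.e (nat_lit 434231) (nat_lit 23) (.e (nat_lit 532535) (nat_lit 9) (.e (nat_lit 336034) (nat_lit 4) (.e (nat_lit 130816) (nat_lit 241) .nil))))))) (.g (nat_lit 4) .nil .nil))) 
(.lf (nat_lit 146279) (.g (nat_lit 3300) (.e (nat_lit 57373) (nat_lit 2) (.e (nat_lit 90170) (nat_lit 13) (.e (nat_lit 172106) (nat_lit 10) (.e (nat_lit 434231) (nat_lit 23) (.e (nat_lit 532543) (nat_lit 10) (.e (nat_lit 344104) (nat_lit 18) (.e (nat_lit 7936) (nat_lit 283) .nil))))))) (.g (nat_lit 4) .nil .nil)))) (.nd (nat_lit 5) 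
(.lf (nat_lit 146263) (.g (nat_lit 3339) (.e (nat_lit 57373) (nat_lit 2) (.e (nat_lit 90170) (nat_lit 13) (.e (nat_lit 172106) (nat_lit 10) (.e (nat_lit 434231) (nat_lit 23) (.e (nat_lit 532543) (nat_lit 10) (.e (nat_lit 344087) (nat_lit 18) (.e (nat_lit 4841) (nat_lit 283) .nil))))))) (.g (nat_lit 5) .nil .nil))) 
(.lf (nat_lit 146295) (.g (nat_lit 2994) (.e (nat_lit 57373) (nat_lit 2) (.e (nat_lit 90170) (nat_lit 13) (.e (nat_lit 172106) (nat_lit 10) (.e (nat_lit 434231) (nat_lit 23) (.e (nat_lit 532544) (nat_lit 10) (.e (nat_lit 344098) (nat_lit 18) (.e (nat_lit 7936) (nat_lit 283) .nil))))))) (.g (nat_lit 4) .nil .nil))))) (.nd (nat_lit 4) (.nd (nat_lit 5) 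
(.lf (nat_lit 146255) (.g (nat_lit 3450) (.e (nat_lit 57373) (nat_lit 2) (.e (nat_lit 90170) (nat_lit 13) (.e (nat_lit 172106) (nat_lit 10) (.e (nat_lit 434231) (nat_lit 23) (.e (nat_lit 532535) (nat_lit 9) (.e (nat_lit 336295) (nat_lit 15) (.e (nat_lit 2416) (nat_lit 157) (.e (nat_lit 6932) (nat_lit 373) .nil)))))))) (.g (nat_lit 4) .nil .nil))) 
(.lf (nat_lit 146287) (.g (nat_lit 4046) (.e (nat_lit 57373) (nat_lit 2) (.e (nat_lit 90170) (nat_lit 13) (.e (nat_lit 172106) (nat_lit 10) (.e (nat_lit 434231) (nat_lit 23) (.e (nat_lit 532544) (nat_lit 10) (.e (nat_lit 344090) (nat_lit 18) (.e (nat_lit 7936) (nat_lit 283) .nil))))))) (.g (nat_lit 5) .nil .nil)))) (.nd (nat_lit 5) 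
(.lf (nat_lit 146271) (.g (nat_lit 4113) (.e (nat_lit 57373) (nat_lit 2) (.e (nat_lit 90170) (nat_lit 13) (.e (nat_lit 172106) (nat_lit 10) (.e (nat_lit 434231) (nat_lit 23) (.e (nat_lit 532543) (nat_lit 10) (.e (nat_lit 344090) (nat_lit 18) (.e (nat_lit 7936) (nat_lit 283) .nil))))))) (.g (nat_lit 6) .nil .nil))) 
(.lf (nat_lit 146303) (.g (nat_lit 2777) (.e (nat_lit 57373) (nat_lit 2) (.e (nat_lit 90170) (nat_lit 13) (.e (nat_lit 172106) (nat_lit 10) (.e (nat_lit 434231) (nat_lit 23) (.e (nat_lit 532563) (nat_lit 15) (.e (nat_lit 385043) (nat_lit 21) (.e (nat_lit 6931) (nat_lit 373) .nil))))))) (.g (nat_lit 4) .nil .nil)))))))))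

noncomputable def tv1944 : DT := (.nd (nat_lit 0) (.nd (nat_lit 1) (.nd (nat_lit 2) (.nd (nat_lit 3) (.nd (nat_lit 4) (.nd (nat_lit 5) 
(.lf (nat_lit 146304) (.g (nat_lit 3467) (.e (nat_lit 57373) (nat_lit 2) (.e (nat_lit 90170) (nat_lit 13) (.e (nat_lit 172106) (nat_lit 10) (.e (nat_lit 434231) (nat_lit 23) (.e (nat_lit 532563) (nat_lit 15) (.e (nat_lit 385044) (nat_lit 21) (.e (nat_lit 7936) (nat_lit 373) .nil))))))) (.g (nat_lit 4) .nil .nil))) 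
(.lf (nat_lit 146336) (.g (nat_lit 2296) (.e (nat_lit 57373) (nat_lit 2) (.e (nat_lit 90172) (nat_lit 14) (.e (nat_lit 180243) (nat_lit 5) (.e (nat_lit 532508) (nat_lit 2) (.e (nat_lit 114432) (nat_lit 13) (.e (nat_lit 122936) (nat_lit 23) (.e (nat_lit 516117) (nat_lit 1) (.e (nat_lit 164401) (nat_lit 256) .nil)))))))) (.g (nat_lit 4) .nil .nil)))) (.nd (nat_lit 5) 
(.lf (nat_lit 146320) (.g (nat_lit 2060) (.e (nat_lit 57373) (nat_lit 2) (.e (nat_lit 90170) (nat_lit 13) (.e (nat_lit 172113) (nat_lit 10) (.e (nat_lit 434203) (nat_lit 18) (.e (nat_lit 6068) (nat_lit 328) .nil))))) .nil)) 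
(.lf (nat_lit 146352) (.g (nat_lit 3134) (.e (nat_lit 57373) (nat_lit 2) (.e (nat_lit 90172) (nat_lit 14) (.e (nat_lit 180243) (nat_lit 5) (.e (nat_lit 532513) (nat_lit 3) (.e (nat_lit 114717) (nat_lit 23) (.e (nat_lit 98333) (nat_lit 18) (.e (nat_lit 164399) (nat_lit 256) .nil))))))) (.g (nat_lit 4) .nil .nil))))) (.nd (nat_lit 4) (.nd (nat_lit 5) 
(.lf (nat_lit 146312) (.g (nat_lit 3293) (.e (nat_lit 57373) (nat_lit 2) (.e (nat_lit 90170) (nat_lit 13) (.e (nat_lit 172106) (nat_lit 10) (.e (nat_lit 434231) (nat_lit 23) (.e (nat_lit 532564) (nat_lit 15) (.e (nat_lit 385046) (nat_lit 21) (.e (nat_lit 7936) (nat_lit 373) .nil))))))) (.g (nat_lit 4) .nil .nil))) 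
(.lf (nat_lit 146344) (.g (nat_lit 2704) (.e (nat_lit 57373) (nat_lit 2) (.e (nat_lit 90172) (nat_lit 14) (.e (nat_lit 180243) (nat_lit 5) (.e (nat_lit 532511) (nat_lit 2) (.e (nat_lit 106539) (nat_lit 12) (.e (nat_lit 57466) (nat_lit 23) (.e (nat_lit 516115) (nat_lit 1) (.e (nat_lit 164399) (nat_lit 256) .nil)))))))) (.g (nat_lit 4) .nil .nil)))) (.nd (nat_lit 5) 
(.lf (nat_lit 146328) (.g (nat_lit 1382) (.e (nat_lit 57373) (nat_lit 2) (.e (nat_lit 90170) (nat_lit 13) (.e (nat_lit 172122) (nat_lit 13) (.e (nat_lit 483341) (nat_lit 9) .nil)))) .nil)) 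
(.lf (nat_lit 146360) (.g (nat_lit 5000) (.e (nat_lit 57373) (nat_lit 2) (.e (nat_lit 90172) (nat_lit 14) (.e (nat_lit 180243) (nat_lit 5) (.e (nat_lit 532513) (nat_lit 3) (.e (nat_lit 114718) (nat_lit 23) (.e (nat_lit 98333) (nat_lit 18) (.e (nat_lit 164403) (nat_lit 256) .nil))))))) (.g (nat_lit 6) .nil .nil)))))) (.nd (nat_lit 3) (.nd (nat_lit 4) (.nd (nat_lit 5) 
(.lf (nat_lit 146308) (.g (nat_lit 3263) (.e (nat_lit 57373) (nat_lit 2) (.e (nat_lit 90170) (nat_lit 13) (.e (nat_lit 172106) (nat_lit 10) (.e (nat_lit 434231) (nat_lit 23) (.e (nat_lit 532563) (nat_lit 15) (.e (nat_lit 385051) (nat_lit 21) (.e (nat_lit 7936) (nat_lit 373) .nil))))))) (.g (nat_lit 4) .nil .nil))) 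
(.lf (nat_lit 146340) (.g (nat_lit 2551) (.e (nat_lit 57373) (nat_lit 2) (.e (nat_lit 90172) (nat_lit 14) (.e (nat_lit 180243) (nat_lit 5) (.e (nat_lit 532510) (nat_lit 2) (.e (nat_lit 106540) (nat_lit 13) (.e (nat_lit 122936) (nat_lit 23) (.e (nat_lit 516117) (nat_lit 1) (.e (nat_lit 164398) (nat_lit 256) .nil)))))))) (.g (nat_lit 4) .nil .nil)))) (.nd (nat_lit 5) 
(.lf (nat_lit 146324) (.g (nat_lit 1325) (.e (nat_lit 57373) (nat_lit 2) (.e (nat_lit 90170) (nat_lit 13) (.e (nat_lit 172113) (nat_lit 10) (.e (nat_lit 434208) (nat_lit 18) .nil)))) .nil)) 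
(.lf (nat_lit 146356) (.g (nat_lit 2770) (.e (nat_lit 57373) (nat_lit 2) (.e (nat_lit 90172) (nat_lit 14) (.e (nat_lit 180243) (nat_lit 5) (.e (nat_lit 532513) (nat_lit 3) (.e (nat_lit 114718) (nat_lit 23) (.e (nat_lit 98325) (nat_lit 17) (.e (nat_lit 2478) (nat_lit 157) (.e (nat_lit 5953) (nat_lit 322) .nil)))))))) (.g (nat_lit 4) .nil .nil))))) (.nd (nat_lit 4) (.nd (nat_lit 5) 
(.lf (nat_lit 146316) (.g (nat_lit 2082) (.e (nat_lit 57373) (nat_lit 2) (.e (nat_lit 90170) (nat_lit 13) (.e (nat_lit 172106) (nat_lit 10) (.e (nat_lit 434290) (nat_lit 44) .nil)))) .nil)) 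
(.lf (nat_lit 146348) (.g (nat_lit 3422) (.e (nat_lit 57373) (nat_lit 2) (.e (nat_lit 90172) (nat_lit 14) (.e (nat_lit 180243) (nat_lit 5) (.e (nat_lit 532513) (nat_lit 3) (.e (nat_lit 114714) (nat_lit 22) (.e (nat_lit 90164) (nat_lit 12) (.e (nat_lit 163850) (nat_lit 0) (.e (nat_lit 5951) (nat_lit 322) .nil)))))))) (.g (nat_lit 4) .nil .nil)))) (.nd (nat_lit 5) 
(.lf (nat_lit 146332) (.g (nat_lit 1160) (.e (nat_lit 57373) (nat_lit 2) (.e (nat_lit 90172) (nat_lit 14) (.e (nat_lit 180243) (nat_lit 5) (.e (nat_lit 532508) (nat_lit 2) .nil)))) .nil)) 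
(.lf (nat_lit 146364) (.g (nat_lit 4826) (.e (nat_lit 57373) (nat_lit 2) (.e (nat_lit 90172) (nat_lit 14) (.e (nat_lit 180243) (nat_lit 5) (.e (nat_lit 532513) (nat_lit 3) (.e (nat_lit 114718) (nat_lit 23) (.e (nat_lit 98334) (nat_lit 18) (.e (nat_lit 164403) (nat_lit 256) .nil))))))) (.g (nat_lit 6) .nil .nil))))))) (.nd (nat_lit 2) (.nd (nat_lit 3) (.nd (nat_lit 4) (.nd (nat_lit 5) 
(.lf (nat_lit 146306) (.g (nat_lit 3985) (.e (nat_lit 57373) (nat_lit 2) (.e (nat_lit 90170) (nat_lit 13) (.e (nat_lit 172106) (nat_lit 10) (.e (nat_lit 434231) (nat_lit 23) (.e (nat_lit 532563) (nat_lit 15) (.e (nat_lit 385047) (nat_lit 21) (.e (nat_lit 7936) (nat_lit 373) .nil))))))) (.g (nat_lit 5) .nil .nil))) 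
(.lf (nat_lit 146338) (.g (nat_lit 2675) (.e (nat_lit 57373) (nat_lit 2) (.e (nat_lit 90172) (nat_lit 14) (.e (nat_lit 180243) (nat_lit 5) (.e (nat_lit 532510) (nat_lit 2) (.e (nat_lit 106539) (nat_lit 12) (.e (nat_lit 57466) (nat_lit 23) (.e (nat_lit 516115) (nat_lit 1) (.e (nat_lit 164399) (nat_lit 256) .nil)))))))) (.g (nat_lit 4) .nil .nil)))) (.nd (nat_lit 5) 
(.lf (nat_lit 146322) (.g (nat_lit 3562) (.e (nat_lit 57373) (nat_lit 2) (.e (nat_lit 90170) (nat_lit 13) (.e (nat_lit 172113) (nat_lit 10) (.e (nat_lit 434203) (nat_lit 18) (.e (nat_lit 6595) (nat_lit 351) (.e (nat_lit 2638) (nat_lit 165) (.e (nat_lit 180233) (nat_lit 0) (.e (nat_lit 5949) (nat_lit 322) .nil)))))))) (.g (nat_lit 4) .nil .nil))) 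
(.lf (nat_lit 146354) (.g (nat_lit 2840) (.e (nat_lit 57373) (nat_lit 2) (.e (nat_lit 90172) (nat_lit 14) (.e (nat_lit 180243) (nat_lit 5) (.e (nat_lit 532513) (nat_lit 3) (.e (nat_lit 114717) (nat_lit 23) (.e (nat_lit 98334) (nat_lit 18) (.e (nat_lit 164399) (nat_lit 256) .nil))))))) (.g (nat_lit 4) .nil .nil))))) (.nd (nat_lit 4) (.nd (nat_lit 5) 
(.lf (nat_lit 146314) (.g (nat_lit 3639) (.e (nat_lit 57373) (nat_lit 2) (.e (nat_lit 90170) (nat_lit 13) (.e (nat_lit 172106) (nat_lit 10) (.e (nat_lit 434231) (nat_lit 23) (.e (nat_lit 532564) (nat_lit 15) (.e (nat_lit 385053) (nat_lit 21) (.e (nat_lit 7936) (nat_lit 373) .nil))))))) (.g (nat_lit 4) .nil .nil))) 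
(.lf (nat_lit 146346) (.g (nat_lit 2580) (.e (nat_lit 57373) (nat_lit 2) (.e (nat_lit 90172) (nat_lit 14) (.e (nat_lit 180243) (nat_lit 5) (.e (nat_lit 532511) (nat_lit 2) (.e (nat_lit 106540) (nat_lit 13) (.e (nat_lit 122936) (nat_lit 23) (.e (nat_lit 516117) (nat_lit 1) (.e (nat_lit 164398) (nat_lit 256) .nil)))))))) (.g (nat_lit 4) .nil .nil)))) (.nd (nat_lit 5) 
(.lf (nat_lit 146330) (.g (nat_lit 1023) (.e (nat_lit 57373) (nat_lit 2) (.e (nat_lit 90170) (nat_lit 13) (.e (nat_lit 172123) (nat_lit 13) (.e (nat_lit 491264) (nat_lit 10) .nil)))) .nil)) 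
(.lf (nat_lit 146362) (.g (nat_lit 4243) (.e (nat_lit 57373) (nat_lit 2) (.e (nat_lit 90172) (nat_lit 14) (.e (nat_lit 180243) (nat_lit 5) (.e (nat_lit 532513) (nat_lit 3) (.e (nat_lit 114718) (nat_lit 23) (.e (nat_lit 98334) (nat_lit 18) (.e (nat_lit 164399) (nat_lit 256) .nil))))))) (.g (nat_lit 6) .nil .nil)))))) (.nd (nat_lit 3) (.nd (nat_lit 4) (.nd (nat_lit 5) 
(.lf (nat_lit 146310) (.g (nat_lit 3259) (.e (nat_lit 57373) (nat_lit 2) (.e (nat_lit 90170) (nat_lit 13) (.e (nat_lit 172106) (nat_lit 10) (.e (nat_lit 434231) (nat_lit 23) (.e (nat_lit 532564) (nat_lit 15) (.e (nat_lit 385043) (nat_lit 21) (.e (nat_lit 6932) (nat_lit 373) .nil))))))) (.g (nat_lit 4) .nil .nil))) 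
(.lf (nat_lit 146342) (.g (nat_lit 2672) (.e (nat_lit 57373) (nat_lit 2) (.e (nat_lit 90172) (nat_lit 14) (.e (nat_lit 180243) (nat_lit 5) (.e (nat_lit 532511) (nat_lit 2) (.e (nat_lit 106538) (nat_lit 12) (.e (nat_lit 57465) (nat_lit 23) (.e (nat_lit 516115) (nat_lit 1) (.e (nat_lit 164399) (nat_lit 256) .nil)))))))) (.g (nat_lit 4) .nil .nil)))) (.nd (nat_lit 5) 
(.lf (nat_lit 146326) (.g (nat_lit 1360) (.e (nat_lit 57373) (nat_lit 2) (.e (nat_lit 90170) (nat_lit 13) (.e (nat_lit 172122) (nat_lit 13) (.e (nat_lit 483337) (nat_lit 9) .nil)))) .nil)) 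
(.lf (nat_lit 146358) (.g (nat_lit 3745) (.e (nat_lit 57373) (nat_lit 2) (.e (nat_lit 90172) (nat_lit 14) (.e (nat_lit 180243) (nat_lit 5) (.e (nat_lit 532513) (nat_lit 3) (.e (nat_lit 114718) (nat_lit 23) (.e (nat_lit 98333) (nat_lit 18) (.e (nat_lit 164398) (nat_lit 256) .nil))))))) (.g (nat_lit 5) .nil .nil))))) (.nd (nat_lit 4) (.nd (nat_lit 5) 
(.lf (nat_lit 146318) (.g (nat_lit 2388) (.e (nat_lit 57373) (nat_lit 2) (.e (nat_lit 90170) (nat_lit 13) (.e (nat_lit 172106) (nat_lit 10) (.e (nat_lit 434295) (nat_lit 49) (.e (nat_lit 745476) (nat_lit 0) .nil))))) .nil)) 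
(.lf (nat_lit 146350) (.g (nat_lit 3252) (.e (nat_lit 57373) (nat_lit 2) (.e (nat_lit 90172) (nat_lit 14) (.e (nat_lit 180243) (nat_lit 5) (.e (nat_lit 532513) (nat_lit 3) (.e (nat_lit 114714) (nat_lit 22) (.e (nat_lit 90165) (nat_lit 12) (.e (nat_lit 163855) (nat_lit 0) (.e (nat_lit 5944) (nat_lit 322) .nil)))))))) (.g (nat_lit 4) .nil .nil)))) (.nd (nat_lit 5) 
(.lf (nat_lit 146334) (.g (nat_lit 2289) (.e (nat_lit 57373) (nat_lit 2) (.e (nat_lit 90172) (nat_lit 14) (.e (nat_lit 180243) (nat_lit 5) (.e (nat_lit 532508) (nat_lit 2) (.e (nat_lit 106540) (nat_lit 13) (.e (nat_lit 122936) (nat_lit 23) (.e (nat_lit 516117) (nat_lit 1) (.e (nat_lit 164401) (nat_lit 256) .nil)))))))) (.g (nat_lit 4) .nil .nil))) 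
(.lf (nat_lit 146366) (.g (nat_lit 2761) (.e (nat_lit 57373) (nat_lit 2) (.e (nat_lit 90172) (nat_lit 14) (.e (nat_lit 180243) (nat_lit 5) (.e (nat_lit 532513) (nat_lit 3) (.e (nat_lit 114719) (nat_lit 23) (.e (nat_lit 98325) (nat_lit 17) (.e (nat_lit 2478) (nat_lit 157) (.e (nat_lit 5953) (nat_lit 322) .nil)))))))) (.g (nat_lit 4) .nil .nil)))))))) 
(.nd (nat_lit 1) (.nd (nat_lit 2) (.nd (nat_lit 3) (.nd (nat_lit 4) (.nd (nat_lit 5) 
(.lf (nat_lit 146305) (.g (nat_lit 3377) (.e (nat_lit 57373) (nat_lit 2) (.e (nat_lit 90170) (nat_lit 13) (.e (nat_lit 172106) (nat_lit 10) (.e (nat_lit 434231) (nat_lit 23) (.e (nat_lit 532563) (nat_lit 15) (.e (nat_lit 385046) (nat_lit 21) (.e (nat_lit 7936) (nat_lit 373) .nil))))))) (.g (nat_lit 4) .nil .nil))) 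
(.lf (nat_lit 146337) (.g (nat_lit 2618) (.e (nat_lit 57373) (nat_lit 2) (.e (nat_lit 90172) (nat_lit 14) (.e (nat_lit 180243) (nat_lit 5) (.e (nat_lit 532510) (nat_lit 2) (.e (nat_lit 106539) (nat_lit 12) (.e (nat_lit 57465) (nat_lit 23) (.e (nat_lit 516115) (nat_lit 1) (.e (nat_lit 164399) (nat_lit 256) .nil)))))))) (.g (nat_lit 4) .nil .nil)))) (.nd (nat_lit 5) 
(.lf (nat_lit 146321) (.g (nat_lit 2026) (.e (nat_lit 57373) (nat_lit 2) (.e (nat_lit 90170) (nat_lit 13) (.e (nat_lit 172113) (nat_lit 10) (.e (nat_lit 434203) (nat_lit 18) (.e (nat_lit 6595) (nat_lit 351) .nil))))) .nil)) 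
(.lf (nat_lit 146353) (.g (nat_lit 2930) (.e (nat_lit 57373) (nat_lit 2) (.e (nat_lit 90172) (nat_lit 14) (.e (nat_lit 180243) (nat_lit 5) (.e (nat_lit 532513) (nat_lit 3) (.e (nat_lit 114717) (nat_lit 23) (.e (nat_lit 98334) (nat_lit 18) (.e (nat_lit 164398) (nat_lit 256) .nil))))))) (.g (nat_lit 4) .nil .nil))))) (.nd (nat_lit 4) (.nd (nat_lit 5) 
(.lf (nat_lit 146313) (.g (nat_lit 3954) (.e (nat_lit 57373) (nat_lit 2) (.e (nat_lit 90170) (nat_lit 13) (.e (nat_lit 172106) (nat_lit 10) (.e (nat_lit 434231) (nat_lit 23) (.e (nat_lit 532564) (nat_lit 15) (.e (nat_lit 385049) (nat_lit 21) (.e (nat_lit 7936) (nat_lit 373) .nil))))))) (.g (nat_lit 4) .nil .nil))) 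
(.lf (nat_lit 146345) (.g (nat_lit 2782) (.e (nat_lit 57373) (nat_lit 2) (.e (nat_lit 90172) (nat_lit 14) (.e (nat_lit 180243) (nat_lit 5) (.e (nat_lit 532511) (nat_lit 2) (.e (nat_lit 106539) (nat_lit 12) (.e (nat_lit 57467) (nat_lit 23) (.e (nat_lit 516115) (nat_lit 1) (.e (nat_lit 164399) (nat_lit 256) .nil)))))))) (.g (nat_lit 4) .nil .nil)))) (.nd (nat_lit 5) 
(.lf (nat_lit 146329) (.g (nat_lit 431) (.e (nat_lit 57373) (nat_lit 2) (.e (nat_lit 90170) (nat_lit 13) (.e (nat_lit 172123) (nat_lit 13) .nil))) .nil)) 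
(.lf (nat_lit 146361) (.g (nat_lit 3927) (.e (nat_lit 57373) (nat_lit 2) (.e (nat_lit 90172) (nat_lit 14) (.e (nat_lit 180243) (nat_lit 5) (.e (nat_lit 532513) (nat_lit 3) (.e (nat_lit 114718) (nat_lit 23) (.e (nat_lit 98334) (nat_lit 18) (.e (nat_lit 164398) (nat_lit 256) .nil))))))) (.g (nat_lit 5) .nil .nil)))))) (.nd (nat_lit 3) (.nd (nat_lit 4) (.nd (nat_lit 5) 
(.lf (nat_lit 146309) (.g (nat_lit 3529) (.e (nat_lit 57373) (nat_lit 2) (.e (nat_lit 90170) (nat_lit 13) (.e (nat_lit 172106) (nat_lit 10) (.e (nat_lit 434231) (nat_lit 23) (.e (nat_lit 532563) (nat_lit 15) (.e (nat_lit 385053) (nat_lit 21) (.e (nat_lit 7936) (nat_lit 373) .nil))))))) (.g (nat_lit 4) .nil .nil))) 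
(.lf (nat_lit 146341) (.g (nat_lit 2656) (.e (nat_lit 57373) (nat_lit 2) (.e (nat_lit 90172) (nat_lit 14) (.e (nat_lit 180243) (nat_lit 5) (.e (nat_lit 532511) (nat_lit 2) (.e (nat_lit 106537) (nat_lit 12) (.e (nat_lit 57464) (nat_lit 23) (.e (nat_lit 516115) (nat_lit 1) (.e (nat_lit 164399) (nat_lit 256) .nil)))))))) (.g (nat_lit 4) .nil .nil)))) (.nd (nat_lit 5) 
(.lf (nat_lit 146325) (.g (nat_lit 2027) (.e (nat_lit 57373) (nat_lit 2) (.e (nat_lit 90170) (nat_lit 13) (.e (nat_lit 172113) (nat_lit 10) (.e (nat_lit 434208) (nat_lit 18) (.e (nat_lit 6595) (nat_lit 351) .nil))))) .nil)) 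
(.lf (nat_lit 146357) (.g (nat_lit 3429) (.e (nat_lit 57373) (nat_lit 2) (.e (nat_lit 90172) (nat_lit 14) (.e (nat_lit 180243) (nat_lit 5) (.e (nat_lit 532513) (nat_lit 3) (.e (nat_lit 114718) (nat_lit 23) (.e (nat_lit 98325) (nat_lit 17) (.e (nat_lit 2515) (nat_lit 157) (.e (nat_lit 5948) (nat_lit 322) .nil)))))))) (.g (nat_lit 4) .nil .nil))))) (.nd (nat_lit 4) (.nd (nat_lit 5) 
(.lf (nat_lit 146317) (.g (nat_lit 1878) (.e (nat_lit 57373) (nat_lit 2) (.e (nat_lit 90170) (nat_lit 13) (.e (nat_lit 172106) (nat_lit 10) (.e (nat_lit 434295) (nat_lit 49) .nil)))) .nil)) 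
(.lf (nat_lit 146349) (.g (nat_lit 3010) (.e (nat_lit 57373) (nat_lit 2) (.e (nat_lit 90172) (nat_lit 14) (.e (nat_lit 180243) (nat_lit 5) (.e (nat_lit 532513) (nat_lit 3) (.e (nat_lit 114714) (nat_lit 22) (.e (nat_lit 90165) (nat_lit 12) (.e (nat_lit 163853) (nat_lit 0) (.e (nat_lit 5953) (nat_lit 322) .nil)))))))) (.g (nat_lit 4) .nil .nil)))) (.nd (nat_lit 5) 
(.lf (nat_lit 146333) (.g (nat_lit 2620) (.e (nat_lit 57373) (nat_lit 2) (.e (nat_lit 90172) (nat_lit 14) (.e (nat_lit 180243) (nat_lit 5) (.e (nat_lit 532508) (nat_lit 2) (.e (nat_lit 106540) (nat_lit 13) (.e (nat_lit 122936) (nat_lit 23) (.e (nat_lit 516117) (nat_lit 1) (.e (nat_lit 164398) (nat_lit 256) .nil)))))))) (.g (nat_lit 4) .nil .nil))) 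
(.lf (nat_lit 146365) (.g (nat_lit 4898) (.e (nat_lit 57373) (nat_lit 2) (.e (nat_lit 90172) (nat_lit 14) (.e (nat_lit 180243) (nat_lit 5) (.e (nat_lit 532513) (nat_lit 3) (.e (nat_lit 114718) (nat_lit 23) (.e (nat_lit 98335) (nat_lit 18) (.e (nat_lit 164403) (nat_lit 256) .nil))))))) (.g (nat_lit 6) .nil .nil))))))) (.nd (nat_lit 2) (.nd (nat_lit 3) (.nd (nat_lit 4) (.nd (nat_lit 5) 
(.lf (nat_lit 146307) (.g (nat_lit 3494) (.e (nat_lit 57373) (nat_lit 2) (.e (nat_lit 90170) (nat_lit 13) (.e (nat_lit 172106) (nat_lit 10) (.e (nat_lit 434231) (nat_lit 23) (.e (nat_lit 532563) (nat_lit 15) (.e (nat_lit 385049) (nat_lit 21) (.e (nat_lit 7936) (nat_lit 373) .nil))))))) (.g (nat_lit 4) .nil .nil))) 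
(.lf (nat_lit 146339) (.g (nat_lit 2708) (.e (nat_lit 57373) (nat_lit 2) (.e (nat_lit 90172) (nat_lit 14) (.e (nat_lit 180243) (nat_lit 5) (.e (nat_lit 532510) (nat_lit 2) (.e (nat_lit 106539) (nat_lit 12) (.e (nat_lit 57467) (nat_lit 23) (.e (nat_lit 516115) (nat_lit 1) (.e (nat_lit 164399) (nat_lit 256) .nil)))))))) (.g (nat_lit 4) .nil .nil)))) (.nd (nat_lit 5) 
(.lf (nat_lit 146323) (.g (nat_lit 1746) (.e (nat_lit 57373) (nat_lit 2) (.e (nat_lit 90170) (nat_lit 13) (.e (nat_lit 172113) (nat_lit 10) (.e (nat_lit 434207) (nat_lit 18) (.e (nat_lit 6595) (nat_lit 351) .nil))))) .nil)) 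
(.lf (nat_lit 146355) (.g (nat_lit 2454) (.e (nat_lit 57373) (nat_lit 2) (.e (nat_lit 90172) (nat_lit 14) (.e (nat_lit 180243) (nat_lit 5) (.e (nat_lit 532513) (nat_lit 3) (.e (nat_lit 114717) (nat_lit 23) (.e (nat_lit 98334) (nat_lit 18) (.e (nat_lit 164401) (nat_lit 256) .nil))))))) (.g (nat_lit 4) .nil .nil))))) (.nd (nat_lit 4) (.nd (nat_lit 5) 
(.lf (nat_lit 146315) (.g (nat_lit 2130) (.e (nat_lit 57373) (nat_lit 2) (.e (nat_lit 90170) (nat_lit 13) (.e (nat_lit 172106) (nat_lit 10) (.e (nat_lit 434238) (nat_lit 25) .nil)))) .nil)) 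
(.lf (nat_lit 146347) (.g (nat_lit 2249) (.e (nat_lit 57373) (nat_lit 2) (.e (nat_lit 90172) (nat_lit 14) (.e (nat_lit 180243) (nat_lit 5) (.e (nat_lit 532511) (nat_lit 2) (.e (nat_lit 106540) (nat_lit 13) (.e (nat_lit 122936) (nat_lit 23) (.e (nat_lit 516117) (nat_lit 1) (.e (nat_lit 164401) (nat_lit 256) .nil)))))))) (.g (nat_lit 4) .nil .nil)))) (.nd (nat_lit 5) 
(.lf (nat_lit 146331) (.g (nat_lit 641) (.e (nat_lit 57373) (nat_lit 2) (.e (nat_lit 90172) (nat_lit 14) (.e (nat_lit 180242) (nat_lit 5) .nil))) .nil)) 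
(.lf (nat_lit 146363) (.g (nat_lit 3925) (.e (nat_lit 57373) (nat_lit 2) (.e (nat_lit 90172) (nat_lit 14) (.e (nat_lit 180243) (nat_lit 5) (.e (nat_lit 532513) (nat_lit 3) (.e (nat_lit 114718) (nat_lit 23) (.e (nat_lit 98334) (nat_lit 18) (.e (nat_lit 164401) (nat_lit 256) .nil))))))) (.g (nat_lit 5) .nil .nil)))))) (.nd (nat_lit 3) (.nd (nat_lit 4) (.nd (nat_lit 5) 
(.lf (nat_lit 146311) (.g (nat_lit 3615) (.e (nat_lit 57373) (nat_lit 2) (.e (nat_lit 90170) (nat_lit 13) (.e (nat_lit 172106) (nat_lit 10) (.e (nat_lit 434231) (nat_lit 23) (.e (nat_lit 532564) (nat_lit 15) (.e (nat_lit 385044) (nat_lit 21) (.e (nat_lit 7936) (nat_lit 373) .nil))))))) (.g (nat_lit 4) .nil .nil))) 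
(.lf (nat_lit 146343) (.g (nat_lit 2691) (.e (nat_lit 57373) (nat_lit 2) (.e (nat_lit 90172) (nat_lit 14) (.e (nat_lit 180243) (nat_lit 5) (.e (nat_lit 532511) (nat_lit 2) (.e (nat_lit 106539) (nat_lit 12) (.e (nat_lit 57465) (nat_lit 23) (.e (nat_lit 516115) (nat_lit 1) (.e (nat_lit 164399) (nat_lit 256) .nil)))))))) (.g (nat_lit 4) .nil .nil)))) (.nd (nat_lit 5) 
(.lf (nat_lit 146327) (.g (nat_lit 2779) (.e (nat_lit 57373) (nat_lit 2) (.e (nat_lit 90170) (nat_lit 13) (.e (nat_lit 172122) (nat_lit 13) (.e (nat_lit 483337) (nat_lit 9) (.e (nat_lit 426107) (nat_lit 1) (.e (nat_lit 164403) (nat_lit 256) .nil)))))) (.g (nat_lit 4) .nil .nil))) 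
(.lf (nat_lit 146359) (.g (nat_lit 4177) (.e (nat_lit 57373) (nat_lit 2) (.e (nat_lit 90172) (nat_lit 14) (.e (nat_lit 180243) (nat_lit 5) (.e (nat_lit 532513) (nat_lit 3) (.e (nat_lit 114718) (nat_lit 23) (.e (nat_lit 98333) (nat_lit 18) (.e (nat_lit 164399) (nat_lit 256) .nil))))))) (.g (nat_lit 6) .nil .nil))))) (.nd (nat_lit 4) (.nd (nat_lit 5) 
(.lf (nat_lit 146319) (.g (nat_lit 1333) (.e (nat_lit 57373) (nat_lit 2) (.e (nat_lit 90170) (nat_lit 13) (.e (nat_lit 172113) (nat_lit 10) (.e (nat_lit 434203) (nat_lit 18) .nil)))) .nil)) 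
(.lf (nat_lit 146351) (.g (nat_lit 2828) (.e (nat_lit 57373) (nat_lit 2) (.e (nat_lit 90172) (nat_lit 14) (.e (nat_lit 180243) (nat_lit 5) (.e (nat_lit 532513) (nat_lit 3) (.e (nat_lit 114714) (nat_lit 22) (.e (nat_lit 90165) (nat_lit 12) (.e (nat_lit 171776) (nat_lit 0) (.e (nat_lit 5953) (nat_lit 322) .nil)))))))) (.g (nat_lit 4) .nil .nil)))) (.nd (nat_lit 5) 
(.lf (nat_lit 146335) (.g (nat_lit 2618) (.e (nat_lit 57373) (nat_lit 2) (.e (nat_lit 90172) (nat_lit 14) (.e (nat_lit 180243) (nat_lit 5) (.e (nat_lit 532508) (nat_lit 2) (.e (nat_lit 114432) (nat_lit 13) (.e (nat_lit 122936) (nat_lit 23) (.e (nat_lit 516117) (nat_lit 1) (.e (nat_lit 164398) (nat_lit 256) .nil)))))))) (.g (nat_lit 4) .nil .nil))) 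
(.lf (nat_lit 146367) (.g (nat_lit 3410) (.e (nat_lit 57373) (nat_lit 2) (.e (nat_lit 90172) (nat_lit 14) (.e (nat_lit 180243) (nat_lit 5) (.e (nat_lit 532513) (nat_lit 3) (.e (nat_lit 114719) (nat_lit 23) (.e (nat_lit 98325) (nat_lit 17) (.e (nat_lit 2515) (nat_lit 157) (.e (nat_lit 5948) (nat_lit 322) .nil)))))))) (.g (nat_lit 4) .nil .nil)))))))))

noncomputable def tv1945 : DT := (.nd (nat_lit 0) (.nd (nat_lit 1) (.nd (nat_lit 2) (.nd (nat_lit 3) (.nd (nat_lit 4) (.nd (nat_lit 5) 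
(.lf (nat_lit 146368) (.g (nat_lit 3554) (.e (nat_lit 57373) (nat_lit 2) (.e (nat_lit 90172) (nat_lit 14) (.e (nat_lit 180243) (nat_lit 5) (.e (nat_lit 532513) (nat_lit 3) (.e (nat_lit 114719) (nat_lit 23) (.e (nat_lit 98333) (nat_lit 18) (.e (nat_lit 164398) (nat_lit 256) .nil))))))) (.g (nat_lit 5) .nil .nil))) 
(.lf (nat_lit 146400) (.g (nat_lit 2523) (.e (nat_lit 57373) (nat_lit 2) (.e (nat_lit 90172) (nat_lit 14) (.e (nat_lit 180244) (nat_lit 5) (.e (nat_lit 532513) (nat_lit 3) (.e (nat_lit 114714) (nat_lit 22) (.e (nat_lit 90165) (nat_lit 12) (.e (nat_lit 163854) (nat_lit 0) (.e (nat_lit 5953) (nat_lit 322) .nil)))))))) (.g (nat_lit 4) .nil .nil)))) (.nd (nat_lit 5) 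
(.lf (nat_lit 146384) (.g (nat_lit 3478) (.e (nat_lit 57373) (nat_lit 2) (.e (nat_lit 90172) (nat_lit 14) (.e (nat_lit 180243) (nat_lit 5) (.e (nat_lit 532515) (nat_lit 3) (.e (nat_lit 114719) (nat_lit 23) (.e (nat_lit 98334) (nat_lit 18) (.e (nat_lit 164399) (nat_lit 256) .nil))))))) (.g (nat_lit 5) .nil .nil))) 
(.lf (nat_lit 146416) (.g (nat_lit 4688) (.e (nat_lit 57373) (nat_lit 2) (.e (nat_lit 90172) (nat_lit 14) (.e (nat_lit 180244) (nat_lit 5) (.e (nat_lit 532513) (nat_lit 3) (.e (nat_lit 114718) (nat_lit 23) (.e (nat_lit 98333) (nat_lit 18) (.e (nat_lit 164398) (nat_lit 256) .nil))))))) (.g (nat_lit 7) .nil .nil))))) (.nd (nat_lit 4) (.nd (nat_lit 5) 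
(.lf (nat_lit 146376) (.g (nat_lit 2637) (.e (nat_lit 57373) (nat_lit 2) (.e (nat_lit 90172) (nat_lit 14) (.e (nat_lit 180243) (nat_lit 5) (.e (nat_lit 532515) (nat_lit 3) (.e (nat_lit 114717) (nat_lit 23) (.e (nat_lit 98333) (nat_lit 18) (.e (nat_lit 164399) (nat_lit 256) .nil))))))) (.g (nat_lit 4) .nil .nil))) 
(.lf (nat_lit 146408) (.g (nat_lit 2490) (.e (nat_lit 57373) (nat_lit 2) (.e (nat_lit 90172) (nat_lit 14) (.e (nat_lit 180244) (nat_lit 5) (.e (nat_lit 532513) (nat_lit 3) (.e (nat_lit 114714) (nat_lit 22) (.e (nat_lit 90181) (nat_lit 16) (.e (nat_lit 229380) (nat_lit 0) (.e (nat_lit 5953) (nat_lit 322) .nil)))))))) (.g (nat_lit 4) .nil .nil)))) (.nd (nat_lit 5) 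
(.lf (nat_lit 146392) (.g (nat_lit 2163) (.e (nat_lit 57373) (nat_lit 2) (.e (nat_lit 90172) (nat_lit 14) (.e (nat_lit 180244) (nat_lit 5) (.e (nat_lit 532511) (nat_lit 2) (.e (nat_lit 114432) (nat_lit 13) (.e (nat_lit 122936) (nat_lit 23) (.e (nat_lit 516115) (nat_lit 1) (.e (nat_lit 164399) (nat_lit 256) .nil)))))))) (.g (nat_lit 4) .nil .nil))) 
(.lf (nat_lit 146424) (.g (nat_lit 2882) (.e (nat_lit 57373) (nat_lit 2) (.e (nat_lit 90172) (nat_lit 14) (.e (nat_lit 180244) (nat_lit 5) (.e (nat_lit 532513) (nat_lit 3) (.e (nat_lit 114719) (nat_lit 23) (.e (nat_lit 98325) (nat_lit 17) (.e (nat_lit 2515) (nat_lit 157) (.e (nat_lit 5947) (nat_lit 322) .nil)))))))) (.g (nat_lit 4) .nil .nil)))))) 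
(.nd (nat_lit 3) (.nd (nat_lit 4) (.nd (nat_lit 5) 
(.lf (nat_lit 146372) (.g (nat_lit 4077) (.e (nat_lit 57373) (nat_lit 2) (.e (nat_lit 90172) (nat_lit 14) (.e (nat_lit 180243) (nat_lit 5) (.e (nat_lit 532513) (nat_lit 3) (.e (nat_lit 114719) (nat_lit 23) (.e (nat_lit 98334) (nat_lit 18) (.e (nat_lit 164399) (nat_lit 256) .nil))))))) (.g (nat_lit 6) .nil .nil))) 
(.lf (nat_lit 146404) (.g (nat_lit 3333) (.e (nat_lit 57373) (nat_lit 2) (.e (nat_lit 90172) (nat_lit 14) (.e (nat_lit 180244) (nat_lit 5) (.e (nat_lit 532513) (nat_lit 3) (.e (nat_lit 114714) (nat_lit 22) (.e (nat_lit 90165) (nat_lit 12) (.e (nat_lit 171776) (nat_lit 0) (.e (nat_lit 5953) (nat_lit 322) .nil)))))))) (.g (nat_lit 5) .nil .nil)))) (.nd (nat_lit 5) 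
(.lf (nat_lit 146388) (.g (nat_lit 1544) (.e (nat_lit 57373) (nat_lit 2) (.e (nat_lit 90172) (nat_lit 14) (.e (nat_lit 180244) (nat_lit 5) (.e (nat_lit 532508) (nat_lit 2) (.e (nat_lit 114432) (nat_lit 3) (.e (nat_lit 163962) (nat_lit 25) (.e (nat_lit 532500) (nat_lit 1) (.e (nat_lit 65280) (nat_lit 266) .nil)))))))) (.g (nat_lit 4) .nil .nil))) 
(.lf (nat_lit 146420) (.g (nat_lit 4895) (.e (nat_lit 57373) (nat_lit 2) (.e (nat_lit 90172) (nat_lit 14) (.e (nat_lit 180244) (nat_lit 5) (.e (nat_lit 532513) (nat_lit 3) (.e (nat_lit 114718) (nat_lit 23) (.e (nat_lit 98334) (nat_lit 18) (.e (nat_lit 164401) (nat_lit 256) .nil))))))) (.g (nat_lit 0) .nil .nil))))) (.nd (nat_lit 4) (.nd (nat_lit 5) 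
(.lf (nat_lit 146380) (.g (nat_lit 3198) (.e (nat_lit 57373) (nat_lit 2) (.e (nat_lit 90172) (nat_lit 14) (.e (nat_lit 180243) (nat_lit 5) (.e (nat_lit 532515) (nat_lit 3) (.e (nat_lit 114718) (nat_lit 23) (.e (nat_lit 98334) (nat_lit 18) (.e (nat_lit 164399) (nat_lit 256) .nil))))))) (.g (nat_lit 5) .nil .nil))) 
(.lf (nat_lit 146412) (.g (nat_lit 3360) (.e (nat_lit 57373) (nat_lit 2) (.e (nat_lit 90172) (nat_lit 14) (.e (nat_lit 180244) (nat_lit 5) (.e (nat_lit 532513) (nat_lit 3) (.e (nat_lit 114718) (nat_lit 23) (.e (nat_lit 98325) (nat_lit 17) (.e (nat_lit 2515) (nat_lit 157) (.e (nat_lit 5946) (nat_lit 322) .nil)))))))) (.g (nat_lit 5) .nil .nil)))) (.nd (nat_lit 5) 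
(.lf (nat_lit 146396) (.g (nat_lit 3701) (.e (nat_lit 57373) (nat_lit 2) (.e (nat_lit 90172) (nat_lit 14) (.e (nat_lit 180244) (nat_lit 5) (.e (nat_lit 532513) (nat_lit 3) (.e (nat_lit 114714) (nat_lit 22) (.e (nat_lit 90164) (nat_lit 12) (.e (nat_lit 163850) (nat_lit 0) (.e (nat_lit 5951) (nat_lit 322) .nil)))))))) (.g (nat_lit 5) .nil .nil))) 
(.lf (nat_lit 146428) (.g (nat_lit 2688) (.e (nat_lit 57373) (nat_lit 2) (.e (nat_lit 90172) (nat_lit 14) (.e (nat_lit 180244) (nat_lit 5) (.e (nat_lit 532513) (nat_lit 3) (.e (nat_lit 114719) (nat_lit 23) (.e (nat_lit 98332) (nat_lit 18) (.e (nat_lit 164402) (nat_lit 256) .nil))))))) (.g (nat_lit 4) .nil .nil))))))) (.nd (nat_lit 2) (.nd (nat_lit 3) (.nd (nat_lit 4) (.nd (nat_lit 5) 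
(.lf (nat_lit 146370) (.g (nat_lit 4728) (.e (nat_lit 57373) (nat_lit 2) (.e (nat_lit 90172) (nat_lit 14) (.e (nat_lit 180243) (nat_lit 5) (.e (nat_lit 532513) (nat_lit 3) (.e (nat_lit 114719) (nat_lit 23) (.e (nat_lit 98333) (nat_lit 18) (.e (nat_lit 164403) (nat_lit 256) .nil))))))) (.g (nat_lit 6) .nil .nil))) 
(.lf (nat_lit 146402) (.g (nat_lit 2628) (.e (nat_lit 57373) (nat_lit 2) (.e (nat_lit 90172) (nat_lit 14) (.e (nat_lit 180244) (nat_lit 5) (.e (nat_lit 532513) (nat_lit 3) (.e (nat_lit 114714) (nat_lit 22) (.e (nat_lit 90165) (nat_lit 12) (.e (nat_lit 163856) (nat_lit 0) (.e (nat_lit 5946) (nat_lit 322) .nil)))))))) (.g (nat_lit 4) .nil .nil)))) (.nd (nat_lit 5) 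
(.lf (nat_lit 146386) (.g (nat_lit 2228) (.e (nat_lit 57373) (nat_lit 2) (.e (nat_lit 90172) (nat_lit 14) (.e (nat_lit 180244) (nat_lit 5) (.e (nat_lit 532506) (nat_lit 2) (.e (nat_lit 106539) (nat_lit 12) (.e (nat_lit 57466) (nat_lit 23) (.e (nat_lit 516117) (nat_lit 1) (.e (nat_lit 164401) (nat_lit 256) .nil)))))))) (.g (nat_lit 4) .nil .nil))) 
(.lf (nat_lit 146418) (.g (nat_lit 2647) (.e (nat_lit 57373) (nat_lit 2) (.e (nat_lit 90172) (nat_lit 14) (.e (nat_lit 180244) (nat_lit 5) (.e (nat_lit 532513) (nat_lit 3) (.e (nat_lit 114718) (nat_lit 23) (.e (nat_lit 98334) (nat_lit 18) (.e (nat_lit 164397) (nat_lit 256) .nil))))))) (.g (nat_lit 4) .nil .nil))))) (.nd (nat_lit 4) (.nd (nat_lit 5) 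
(.lf (nat_lit 146378) (.g (nat_lit 2529) (.e (nat_lit 57373) (nat_lit 2) (.e (nat_lit 90172) (nat_lit 14) (.e (nat_lit 180243) (nat_lit 5) (.e (nat_lit 532515) (nat_lit 3) (.e (nat_lit 114717) (nat_lit 23) (.e (nat_lit 98334) (nat_lit 18) (.e (nat_lit 164399) (nat_lit 256) .nil))))))) (.g (nat_lit 4) .nil .nil))) 
(.lf (nat_lit 146410) (.g (nat_lit 3221) (.e (nat_lit 57373) (nat_lit 2) (.e (nat_lit 90172) (nat_lit 14) (.e (nat_lit 180244) (nat_lit 5) (.e (nat_lit 532513) (nat_lit 3) (.e (nat_lit 114717) (nat_lit 23) (.e (nat_lit 98334) (nat_lit 18) (.e (nat_lit 164401) (nat_lit 256) .nil))))))) (.g (nat_lit 6) .nil .nil)))) (.nd (nat_lit 5) 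
(.lf (nat_lit 146394) (.g (nat_lit 2758) (.e (nat_lit 57373) (nat_lit 2) (.e (nat_lit 90172) (nat_lit 14) (.e (nat_lit 180244) (nat_lit 5) (.e (nat_lit 532513) (nat_lit 3) (.e (nat_lit 114714) (nat_lit 22) (.e (nat_lit 90134) (nat_lit 9) (.e (nat_lit 2717) (nat_lit 171) (.e (nat_lit 229708) (nat_lit 256) .nil)))))))) (.g (nat_lit 4) .nil .nil))) 
(.lf (nat_lit 146426) (.g (nat_lit 3198) (.e (nat_lit 57373) (nat_lit 2) (.e (nat_lit 90172) (nat_lit 14) (.e (nat_lit 180244) (nat_lit 5) (.e (nat_lit 532513) (nat_lit 3) (.e (nat_lit 114719) (nat_lit 23) (.e (nat_lit 98332) (nat_lit 18) (.e (nat_lit 164398) (nat_lit 256) .nil))))))) (.g (nat_lit 5) .nil .nil)))))) (.nd (nat_lit 3) (.nd (nat_lit 4) (.nd (nat_lit 5) 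
(.lf (nat_lit 146374) (.g (nat_lit 4293) (.e (nat_lit 57373) (nat_lit 2) (.e (nat_lit 90172) (nat_lit 14) (.e (nat_lit 180243) (nat_lit 5) (.e (nat_lit 532513) (nat_lit 3) (.e (nat_lit 114719) (nat_lit 23) (.e (nat_lit 98335) (nat_lit 18) (.e (nat_lit 164403) (nat_lit 256) .nil))))))) (.g (nat_lit 5) .nil .nil))) 
(.lf (nat_lit 146406) (.g (nat_lit 2584) (.e (nat_lit 57373) (nat_lit 2) (.e (nat_lit 90172) (nat_lit 14) (.e (nat_lit 180244) (nat_lit 5) (.e (nat_lit 532513) (nat_lit 3) (.e (nat_lit 114714) (nat_lit 22) (.e (nat_lit 90181) (nat_lit 16) (.e (nat_lit 229376) (nat_lit 0) (.e (nat_lit 5946) (nat_lit 322) .nil)))))))) (.g (nat_lit 4) .nil .nil)))) (.nd (nat_lit 5) 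
(.lf (nat_lit 146390) (.g (nat_lit 2328) (.e (nat_lit 57373) (nat_lit 2) (.e (nat_lit 90172) (nat_lit 14) (.e (nat_lit 180244) (nat_lit 5) (.e (nat_lit 532508) (nat_lit 2) (.e (nat_lit 106540) (nat_lit 13) (.e (nat_lit 122936) (nat_lit 23) (.e (nat_lit 516115) (nat_lit 1) (.e (nat_lit 164398) (nat_lit 256) .nil)))))))) (.g (nat_lit 4) .nil .nil))) 
(.lf (nat_lit 146422) (.g (nat_lit 3816) (.e (nat_lit 57373) (nat_lit 2) (.e (nat_lit 90172) (nat_lit 14) (.e (nat_lit 180244) (nat_lit 5) (.e (nat_lit 532513) (nat_lit 3) (.e (nat_lit 114719) (nat_lit 23) (.e (nat_lit 98325) (nat_lit 17) (.e (nat_lit 2478) (nat_lit 157) (.e (nat_lit 5953) (nat_lit 322) .nil)))))))) (.g (nat_lit 5) .nil .nil))))) (.nd (nat_lit 4) (.nd (nat_lit 5) 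
(.lf (nat_lit 146382) (.g (nat_lit 2674) (.e (nat_lit 57373) (nat_lit 2) (.e (nat_lit 90172) (nat_lit 14) (.e (nat_lit 180243) (nat_lit 5) (.e (nat_lit 532515) (nat_lit 3) (.e (nat_lit 114719) (nat_lit 23) (.e (nat_lit 98332) (nat_lit 18) (.e (nat_lit 164399) (nat_lit 256) .nil))))))) (.g (nat_lit 4) .nil .nil))) 
(.lf (nat_lit 146414) (.g (nat_lit 2774) (.e (nat_lit 57373) (nat_lit 2) (.e (nat_lit 90172) (nat_lit 14) (.e (nat_lit 180244) (nat_lit 5) (.e (nat_lit 532513) (nat_lit 3) (.e (nat_lit 114718) (nat_lit 23) (.e (nat_lit 98332) (nat_lit 18) (.e (nat_lit 164399) (nat_lit 256) .nil))))))) (.g (nat_lit 5) .nil .nil)))) (.nd (nat_lit 5) 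
(.lf (nat_lit 146398) (.g (nat_lit 2609) (.e (nat_lit 57373) (nat_lit 2) (.e (nat_lit 90172) (nat_lit 14) (.e (nat_lit 180244) (nat_lit 5) (.e (nat_lit 532513) (nat_lit 3) (.e (nat_lit 114714) (nat_lit 22) (.e (nat_lit 90165) (nat_lit 12) (.e (nat_lit 163853) (nat_lit 0) (.e (nat_lit 5951) (nat_lit 322) .nil)))))))) (.g (nat_lit 4) .nil .nil))) 
(.lf (nat_lit 146430) (.g (nat_lit 3300) (.e (nat_lit 57373) (nat_lit 2) (.e (nat_lit 90172) (nat_lit 14) (.e (nat_lit 180244) (nat_lit 5) (.e (nat_lit 532513) (nat_lit 3) (.e (nat_lit 114719) (nat_lit 23) (.e (nat_lit 98333) (nat_lit 18) (.e (nat_lit 164402) (nat_lit 256) .nil))))))) (.g (nat_lit 5) .nil .nil)))))))) 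
(.nd (nat_lit 1) (.nd (nat_lit 2) (.nd (nat_lit 3) (.nd (nat_lit 4) (.nd (nat_lit 5) 
(.lf (nat_lit 146369) (.g (nat_lit 3966) (.e (nat_lit 57373) (nat_lit 2) (.e (nat_lit 90172) (nat_lit 14) (.e (nat_lit 180243) (nat_lit 5) (.e (nat_lit 532513) (nat_lit 3) (.e (nat_lit 114719) (nat_lit 23) (.e (nat_lit 98333) (nat_lit 18) (.e (nat_lit 164399) (nat_lit 256) .nil))))))) (.g (nat_lit 6) .nil .nil))) 
(.lf (nat_lit 146401) (.g (nat_lit 3615) (.e (nat_lit 57373) (nat_lit 2) (.e (nat_lit 90172) (nat_lit 14) (.e (nat_lit 180244) (nat_lit 5) (.e (nat_lit 532513) (nat_lit 3) (.e (nat_lit 114714) (nat_lit 22) (.e (nat_lit 90165) (nat_lit 12) (.e (nat_lit 163855) (nat_lit 0) (.e (nat_lit 5944) (nat_lit 322) .nil)))))))) (.g (nat_lit 5) .nil .nil)))) (.nd (nat_lit 5) 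
(.lf (nat_lit 146385) (.g (nat_lit 3142) (.e (nat_lit 57373) (nat_lit 2) (.e (nat_lit 90172) (nat_lit 14) (.e (nat_lit 180243) (nat_lit 5) (.e (nat_lit 532515) (nat_lit 3) (.e (nat_lit 114719) (nat_lit 23) (.e (nat_lit 98334) (nat_lit 18) (.e (nat_lit 164401) (nat_lit 256) .nil))))))) (.g (nat_lit 5) .nil .nil))) 
(.lf (nat_lit 146417) (.g (nat_lit 3470) (.e (nat_lit 57373) (nat_lit 2) (.e (nat_lit 90172) (nat_lit 14) (.e (nat_lit 180244) (nat_lit 5) (.e (nat_lit 532513) (nat_lit 3) (.e (nat_lit 114718) (nat_lit 23) (.e (nat_lit 98333) (nat_lit 18) (.e (nat_lit 164402) (nat_lit 256) .nil))))))) (.g (nat_lit 5) .nil .nil))))) (.nd (nat_lit 4) (.nd (nat_lit 5) 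
(.lf (nat_lit 146377) (.g (nat_lit 2629) (.e (nat_lit 57373) (nat_lit 2) (.e (nat_lit 90172) (nat_lit 14) (.e (nat_lit 180243) (nat_lit 5) (.e (nat_lit 532515) (nat_lit 3) (.e (nat_lit 114717) (nat_lit 23) (.e (nat_lit 98334) (nat_lit 18) (.e (nat_lit 164398) (nat_lit 256) .nil))))))) (.g (nat_lit 4) .nil .nil))) 
(.lf (nat_lit 146409) (.g (nat_lit 1840) (.e (nat_lit 57373) (nat_lit 2) (.e (nat_lit 90172) (nat_lit 14) (.e (nat_lit 180244) (nat_lit 5) (.e (nat_lit 532513) (nat_lit 3) (.e (nat_lit 114715) (nat_lit 22) .nil))))) .nil))) (.nd (nat_lit 5) 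
(.lf (nat_lit 146393) (.g (nat_lit 1621) (.e (nat_lit 57373) (nat_lit 2) (.e (nat_lit 90172) (nat_lit 14) (.e (nat_lit 180244) (nat_lit 5) (.e (nat_lit 532513) (nat_lit 3) (.e (nat_lit 114714) (nat_lit 22) .nil))))) .nil)) 
(.lf (nat_lit 146425) (.g (nat_lit 3720) (.e (nat_lit 57373) (nat_lit 2) (.e (nat_lit 90172) (nat_lit 14) (.e (nat_lit 180244) (nat_lit 5) (.e (nat_lit 532513) (nat_lit 3) (.e (nat_lit 114719) (nat_lit 23) (.e (nat_lit 98325) (nat_lit 17) (.e (nat_lit 2515) (nat_lit 157) (.e (nat_lit 5949) (nat_lit 322) .nil)))))))) (.g (nat_lit 5) .nil .nil)))))) 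
(.nd (nat_lit 3) (.nd (nat_lit 4) (.nd (nat_lit 5) 
(.lf (nat_lit 146373) (.g (nat_lit 3632) (.e (nat_lit 57373) (nat_lit 2) (.e (nat_lit 90172) (nat_lit 14) (.e (nat_lit 180243) (nat_lit 5) (.e (nat_lit 532513) (nat_lit 3) (.e (nat_lit 114719) (nat_lit 23) (.e (nat_lit 98334) (nat_lit 18) (.e (nat_lit 164401) (nat_lit 256) .nil))))))) (.g (nat_lit 5) .nil .nil))) 
(.lf (nat_lit 146405) (.g (nat_lit 2748) (.e (nat_lit 57373) (nat_lit 2) (.e (nat_lit 90172) (nat_lit 14) (.e (nat_lit 180244) (nat_lit 5) (.e (nat_lit 532513) (nat_lit 3) (.e (nat_lit 114714) (nat_lit 22) (.e (nat_lit 90181) (nat_lit 16) (.e (nat_lit 229376) (nat_lit 0) (.e (nat_lit 5936) (nat_lit 322) .nil)))))))) (.g (nat_lit 4) .nil .nil)))) (.nd (nat_lit 5) 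
(.lf (nat_lit 146389) (.g (nat_lit 2408) (.e (nat_lit 57373) (nat_lit 2) (.e (nat_lit 90172) (nat_lit 14) (.e (nat_lit 180244) (nat_lit 5) (.e (nat_lit 532508) (nat_lit 2) (.e (nat_lit 106537) (nat_lit 12) (.e (nat_lit 57466) (nat_lit 23) (.e (nat_lit 516115) (nat_lit 1) (.e (nat_lit 164399) (nat_lit 256) .nil)))))))) (.g (nat_lit 4) .nil .nil))) 
(.lf (nat_lit 146421) (.g (nat_lit 2694) (.e (nat_lit 57373) (nat_lit 2) (.e (nat_lit 90172) (nat_lit 14) (.e (nat_lit 180244) (nat_lit 5) (.e (nat_lit 532513) (nat_lit 3) (.e (nat_lit 114719) (nat_lit 23) (.e (nat_lit 98325) (nat_lit 17) (.e (nat_lit 2478) (nat_lit 157) (.e (nat_lit 5946) (nat_lit 322) .nil)))))))) (.g (nat_lit 4) .nil .nil))))) (.nd (nat_lit 4) (.nd (nat_lit 5) 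
(.lf (nat_lit 146381) (.g (nat_lit 2789) (.e (nat_lit 57373) (nat_lit 2) (.e (nat_lit 90172) (nat_lit 14) (.e (nat_lit 180243) (nat_lit 5) (.e (nat_lit 532515) (nat_lit 3) (.e (nat_lit 114719) (nat_lit 23) (.e (nat_lit 98331) (nat_lit 17) (.e (nat_lit 2479) (nat_lit 157) (.e (nat_lit 5953) (nat_lit 322) .nil)))))))) (.g (nat_lit 4) .nil .nil))) 
(.lf (nat_lit 146413) (.g (nat_lit 2793) (.e (nat_lit 57373) (nat_lit 2) (.e (nat_lit 90172) (nat_lit 14) (.e (nat_lit 180244) (nat_lit 5) (.e (nat_lit 532513) (nat_lit 3) (.e (nat_lit 114718) (nat_lit 23) (.e (nat_lit 98325) (nat_lit 17) (.e (nat_lit 2515) (nat_lit 157) (.e (nat_lit 5947) (nat_lit 322) .nil)))))))) (.g (nat_lit 4) .nil .nil)))) (.nd (nat_lit 5) 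
(.lf (nat_lit 146397) (.g (nat_lit 2993) (.e (nat_lit 57373) (nat_lit 2) (.e (nat_lit 90172) (nat_lit 14) (.e (nat_lit 180244) (nat_lit 5) (.e (nat_lit 532513) (nat_lit 3) (.e (nat_lit 114714) (nat_lit 22) (.e (nat_lit 90165) (nat_lit 12) (.e (nat_lit 163853) (nat_lit 0) (.e (nat_lit 5946) (nat_lit 322) .nil)))))))) (.g (nat_lit 4) .nil .nil))) 
(.lf (nat_lit 146429) (.g (nat_lit 4589) (.e (nat_lit 57373) (nat_lit 2) (.e (nat_lit 90172) (nat_lit 14) (.e (nat_lit 180244) (nat_lit 5) (.e (nat_lit 532513) (nat_lit 3) (.e (nat_lit 114719) (nat_lit 23) (.e (nat_lit 98333) (nat_lit 18) (.e (nat_lit 164398) (nat_lit 256) .nil))))))) (.g (nat_lit 7) .nil .nil))))))) (.nd (nat_lit 2) (.nd (nat_lit 3) (.nd (nat_lit 4) (.nd (nat_lit 5) 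
(.lf (nat_lit 146371) (.g (nat_lit 3765) (.e (nat_lit 57373) (nat_lit 2) (.e (nat_lit 90172) (nat_lit 14) (.e (nat_lit 180243) (nat_lit 5) (.e (nat_lit 532513) (nat_lit 3) (.e (nat_lit 114719) (nat_lit 23) (.e (nat_lit 98334) (nat_lit 18) (.e (nat_lit 164398) (nat_lit 256) .nil))))))) (.g (nat_lit 5) .nil .nil))) 
(.lf (nat_lit 146403) (.g (nat_lit 3710) (.e (nat_lit 57373) (nat_lit 2) (.e (nat_lit 90172) (nat_lit 14) (.e (nat_lit 180244) (nat_lit 5) (.e (nat_lit 532513) (nat_lit 3) (.e (nat_lit 114714) (nat_lit 22) (.e (nat_lit 90165) (nat_lit 12) (.e (nat_lit 171776) (nat_lit 0) (.e (nat_lit 5937) (nat_lit 322) .nil)))))))) (.g (nat_lit 5) .nil .nil)))) (.nd (nat_lit 5) 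
(.lf (nat_lit 146387) (.g (nat_lit 1816) (.e (nat_lit 57373) (nat_lit 2) (.e (nat_lit 90172) (nat_lit 14) (.e (nat_lit 180244) (nat_lit 5) (.e (nat_lit 532508) (nat_lit 2) (.e (nat_lit 114432) (nat_lit 3) (.e (nat_lit 163962) (nat_lit 25) (.e (nat_lit 532499) (nat_lit 1) (.e (nat_lit 65280) (nat_lit 266) .nil)))))))) (.g (nat_lit 4) .nil .nil))) 
(.lf (nat_lit 146419) (.g (nat_lit 4904) (.e (nat_lit 57373) (nat_lit 2) (.e (nat_lit 90172) (nat_lit 14) (.e (nat_lit 180244) (nat_lit 5) (.e (nat_lit 532513) (nat_lit 3) (.e (nat_lit 114718) (nat_lit 23) (.e (nat_lit 98334) (nat_lit 18) (.e (nat_lit 164398) (nat_lit 256) .nil))))))) (.g (nat_lit 7) .nil .nil))))) (.nd (nat_lit 4) (.nd (nat_lit 5) 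
(.lf (nat_lit 146379) (.g (nat_lit 2652) (.e (nat_lit 57373) (nat_lit 2) (.e (nat_lit 90172) (nat_lit 14) (.e (nat_lit 180243) (nat_lit 5) (.e (nat_lit 532515) (nat_lit 3) (.e (nat_lit 114718) (nat_lit 23) (.e (nat_lit 98333) (nat_lit 18) (.e (nat_lit 164398) (nat_lit 256) .nil))))))) (.g (nat_lit 4) .nil .nil))) 
(.lf (nat_lit 146411) (.g (nat_lit 2597) (.e (nat_lit 57373) (nat_lit 2) (.e (nat_lit 90172) (nat_lit 14) (.e (nat_lit 180244) (nat_lit 5) (.e (nat_lit 532513) (nat_lit 3) (.e (nat_lit 114718) (nat_lit 23) (.e (nat_lit 98325) (nat_lit 17) (.e (nat_lit 2478) (nat_lit 157) (.e (nat_lit 5946) (nat_lit 322) .nil)))))))) (.g (nat_lit 4) .nil .nil)))) (.nd (nat_lit 5) 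
(.lf (nat_lit 146395) (.g (nat_lit 3004) (.e (nat_lit 57373) (nat_lit 2) (.e (nat_lit 90172) (nat_lit 14) (.e (nat_lit 180244) (nat_lit 5) (.e (nat_lit 532513) (nat_lit 3) (.e (nat_lit 114714) (nat_lit 22) (.e (nat_lit 90164) (nat_lit 12) (.e (nat_lit 163850) (nat_lit 0) (.e (nat_lit 5946) (nat_lit 322) .nil)))))))) (.g (nat_lit 4) .nil .nil))) 
(.lf (nat_lit 146427) (.g (nat_lit 3508) (.e (nat_lit 57373) (nat_lit 2) (.e (nat_lit 90172) (nat_lit 14) (.e (nat_lit 180244) (nat_lit 5) (.e (nat_lit 532513) (nat_lit 3) (.e (nat_lit 114719) (nat_lit 23) (.e (nat_lit 98332) (nat_lit 18) (.e (nat_lit 164399) (nat_lit 256) .nil))))))) (.g (nat_lit 5) .nil .nil)))))) (.nd (nat_lit 3) (.nd (nat_lit 4) (.nd (nat_lit 5) 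
(.lf (nat_lit 146375) (.g (nat_lit 2894) (.e (nat_lit 57373) (nat_lit 2) (.e (nat_lit 90172) (nat_lit 14) (.e (nat_lit 180243) (nat_lit 5) (.e (nat_lit 532515) (nat_lit 3) (.e (nat_lit 114716) (nat_lit 22) (.e (nat_lit 90140) (nat_lit 9) (.e (nat_lit 2611) (nat_lit 163) (.e (nat_lit 164402) (nat_lit 256) .nil)))))))) (.g (nat_lit 4) .nil .nil))) 
(.lf (nat_lit 146407) (.g (nat_lit 2900) (.e (nat_lit 57373) (nat_lit 2) (.e (nat_lit 90172) (nat_lit 14) (.e (nat_lit 180244) (nat_lit 5) (.e (nat_lit 532513) (nat_lit 3) (.e (nat_lit 114714) (nat_lit 22) (.e (nat_lit 90181) (nat_lit 16) (.e (nat_lit 229376) (nat_lit 0) (.e (nat_lit 5953) (nat_lit 322) .nil)))))))) (.g (nat_lit 5) .nil .nil)))) (.nd (nat_lit 5) 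
(.lf (nat_lit 146391) (.g (nat_lit 2260) (.e (nat_lit 57373) (nat_lit 2) (.e (nat_lit 90172) (nat_lit 14) (.e (nat_lit 180244) (nat_lit 5) (.e (nat_lit 532511) (nat_lit 2) (.e (nat_lit 106540) (nat_lit 13) (.e (nat_lit 122936) (nat_lit 23) (.e (nat_lit 516115) (nat_lit 1) (.e (nat_lit 164399) (nat_lit 256) .nil)))))))) (.g (nat_lit 4) .nil .nil))) 
(.lf (nat_lit 146423) (.g (nat_lit 3449) (.e (nat_lit 57373) (nat_lit 2) (.e (nat_lit 90172) (nat_lit 14) (.e (nat_lit 180244) (nat_lit 5) (.e (nat_lit 532513) (nat_lit 3) (.e (nat_lit 114719) (nat_lit 23) (.e (nat_lit 98325) (nat_lit 17) (.e (nat_lit 2515) (nat_lit 157) (.e (nat_lit 5946) (nat_lit 322) .nil)))))))) (.g (nat_lit 5) .nil .nil))))) (.nd (nat_lit 4) (.nd (nat_lit 5) 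
(.lf (nat_lit 146383) (.g (nat_lit 3477) (.e (nat_lit 57373) (nat_lit 2) (.e (nat_lit 90172) (nat_lit 14) (.e (nat_lit 180243) (nat_lit 5) (.e (nat_lit 532515) (nat_lit 3) (.e (nat_lit 114719) (nat_lit 23) (.e (nat_lit 98333) (nat_lit 18) (.e (nat_lit 164399) (nat_lit 256) .nil))))))) (.g (nat_lit 5) .nil .nil))) 
(.lf (nat_lit 146415) (.g (nat_lit 3540) (.e (nat_lit 57373) (nat_lit 2) (.e (nat_lit 90172) (nat_lit 14) (.e (nat_lit 180244) (nat_lit 5) (.e (nat_lit 532513) (nat_lit 3) (.e (nat_lit 114718) (nat_lit 23) (.e (nat_lit 98332) (nat_lit 18) (.e (nat_lit 164403) (nat_lit 256) .nil))))))) (.g (nat_lit 5) .nil .nil)))) (.nd (nat_lit 5) 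
(.lf (nat_lit 146399) (.g (nat_lit 3515) (.e (nat_lit 57373) (nat_lit 2) (.e (nat_lit 90172) (nat_lit 14) (.e (nat_lit 180244) (nat_lit 5) (.e (nat_lit 532513) (nat_lit 3) (.e (nat_lit 114714) (nat_lit 22) (.e (nat_lit 90165) (nat_lit 12) (.e (nat_lit 163853) (nat_lit 0) (.e (nat_lit 5953) (nat_lit 322) .nil)))))))) (.g (nat_lit 5) .nil .nil))) 
(.lf (nat_lit 146431) (.g (nat_lit 2707) (.e (nat_lit 57373) (nat_lit 2) (.e (nat_lit 90172) (nat_lit 14) (.e (nat_lit 180244) (nat_lit 5) (.e (nat_lit 532513) (nat_lit 3) (.e (nat_lit 114719) (nat_lit 23) (.e (nat_lit 98334) (nat_lit 18) (.e (nat_lit 164397) (nat_lit 256) .nil))))))) (.g (nat_lit 4) .nil .nil)))))))))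

noncomputable def tv1946 : DT := (.nd (nat_lit 0) (.nd (nat_lit 1) (.nd (nat_lit 2) (.nd (nat_lit 3) (.nd (nat_lit 4) (.nd (nat_lit 5) 
(.lf (nat_lit 146432) (.g (nat_lit 2576) (.e (nat_lit 57373) (nat_lit 2) (.e (nat_lit 90172) (nat_lit 14) (.e (nat_lit 180244) (nat_lit 5) (.e (nat_lit 532513) (nat_lit 3) (.e (nat_lit 114719) (nat_lit 23) (.e (nat_lit 98343) (nat_lit 21) (.e (nat_lit 229708) (nat_lit 256) .nil))))))) (.g (nat_lit 4) .nil .nil))) 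
(.lf (nat_lit 146464) (.g (nat_lit 2965) (.e (nat_lit 57373) (nat_lit 2) (.e (nat_lit 90172) (nat_lit 14) (.e (nat_lit 180244) (nat_lit 5) (.e (nat_lit 532515) (nat_lit 3) (.e (nat_lit 114719) (nat_lit 23) (.e (nat_lit 98332) (nat_lit 18) (.e (nat_lit 164402) (nat_lit 256) .nil))))))) (.g (nat_lit 5) .nil .nil)))) (.nd (nat_lit 5) 
(.lf (nat_lit 146448) (.g (nat_lit 3210) (.e (nat_lit 57373) (nat_lit 2) (.e (nat_lit 90172) (nat_lit 14) (.e (nat_lit 180244) (nat_lit 5) (.e (nat_lit 532515) (nat_lit 3) (.e (nat_lit 114716) (nat_lit 22) (.e (nat_lit 90165) (nat_lit 12) (.e (nat_lit 163857) (nat_lit 0) (.e (nat_lit 5949) (nat_lit 322) .nil)))))))) (.g (nat_lit 5) .nil .nil))) 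
(.lf (nat_lit 146480) (.g (nat_lit 426) (.e (nat_lit 57373) (nat_lit 2) (.e (nat_lit 90172) (nat_lit 14) (.e (nat_lit 180250) (nat_lit 10) .nil))) .nil)))) (.nd (nat_lit 4) (.nd (nat_lit 5) 
(.lf (nat_lit 146440) (.g (nat_lit 2539) (.e (nat_lit 57373) (nat_lit 2) (.e (nat_lit 90172) (nat_lit 14) (.e (nat_lit 180244) (nat_lit 5) (.e (nat_lit 532515) (nat_lit 3) (.e (nat_lit 114715) (nat_lit 22) (.e (nat_lit 90165) (nat_lit 12) (.e (nat_lit 163856) (nat_lit 0) (.e (nat_lit 5946) (nat_lit 322) .nil)))))))) (.g (nat_lit 4) .nil .nil))) 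
(.lf (nat_lit 146472) (.g (nat_lit 2800) (.e (nat_lit 57373) (nat_lit 2) (.e (nat_lit 90172) (nat_lit 14) (.e (nat_lit 180244) (nat_lit 5) (.e (nat_lit 532579) (nat_lit 26) (.e (nat_lit 426124) (nat_lit 2) (.e (nat_lit 196660) (nat_lit 12) (.e (nat_lit 57347) (nat_lit 0) (.e (nat_lit 7695) (nat_lit 412) .nil)))))))) (.g (nat_lit 4) .nil .nil)))) (.nd (nat_lit 5) 
(.lf (nat_lit 146456) (.g (nat_lit 4043) (.e (nat_lit 57373) (nat_lit 2) (.e (nat_lit 90172) (nat_lit 14) (.e (nat_lit 180244) (nat_lit 5) (.e (nat_lit 532515) (nat_lit 3) (.e (nat_lit 114718) (nat_lit 23) (.e (nat_lit 98333) (nat_lit 18) (.e (nat_lit 164398) (nat_lit 256) .nil))))))) (.g (nat_lit 7) .nil .nil))) 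
(.lf (nat_lit 146488) (.g (nat_lit 4429) (.e (nat_lit 57373) (nat_lit 2) (.e (nat_lit 90172) (nat_lit 14) (.e (nat_lit 180250) (nat_lit 10) (.e (nat_lit 573487) (nat_lit 14) (.e (nat_lit 73746) (nat_lit 3) (.e (nat_lit 516115) (nat_lit 1) (.e (nat_lit 171776) (nat_lit 160) .nil))))))) (.g (nat_lit 6) .nil .nil)))))) (.nd (nat_lit 3) (.nd (nat_lit 4) (.nd (nat_lit 5) 
(.lf (nat_lit 146436) (.g (nat_lit 760) (.e (nat_lit 57373) (nat_lit 2) (.e (nat_lit 90172) (nat_lit 14) (.e (nat_lit 180244) (nat_lit 5) (.e (nat_lit 532515) (nat_lit 3) .nil)))) .nil)) 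
(.lf (nat_lit 146468) (.g (nat_lit 3048) (.e (nat_lit 57373) (nat_lit 2) (.e (nat_lit 90172) (nat_lit 14) (.e (nat_lit 180244) (nat_lit 5) (.e (nat_lit 532515) (nat_lit 3) (.e (nat_lit 114719) (nat_lit 23) (.e (nat_lit 98343) (nat_lit 21) (.e (nat_lit 229708) (nat_lit 256) .nil))))))) (.g (nat_lit 5) .nil .nil)))) (.nd (nat_lit 5) 
(.lf (nat_lit 146452) (.g (nat_lit 2629) (.e (nat_lit 57373) (nat_lit 2) (.e (nat_lit 90172) (nat_lit 14) (.e (nat_lit 180244) (nat_lit 5) (.e (nat_lit 532515) (nat_lit 3) (.e (nat_lit 114716) (nat_lit 22) (.e (nat_lit 90181) (nat_lit 16) (.e (nat_lit 237312) (nat_lit 0) (.e (nat_lit 5953) (nat_lit 322) .nil)))))))) (.g (nat_lit 5) .nil .nil))) 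
(.lf (nat_lit 146484) (.g (nat_lit 2080) (.e (nat_lit 57373) (nat_lit 2) (.e (nat_lit 90172) (nat_lit 14) (.e (nat_lit 180250) (nat_lit 10) (.e (nat_lit 573482) (nat_lit 13) (.e (nat_lit 73472) (nat_lit 18) .nil))))) .nil)))) (.nd (nat_lit 4) (.nd (nat_lit 5) 
(.lf (nat_lit 146444) (.g (nat_lit 3432) (.e (nat_lit 57373) (nat_lit 2) (.e (nat_lit 90172) (nat_lit 14) (.e (nat_lit 180244) (nat_lit 5) (.e (nat_lit 532515) (nat_lit 3) (.e (nat_lit 114716) (nat_lit 22) (.e (nat_lit 90164) (nat_lit 12) (.e (nat_lit 163850) (nat_lit 0) (.e (nat_lit 5951) (nat_lit 322) .nil)))))))) (.g (nat_lit 7) .nil .nil))) 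
(.lf (nat_lit 146476) (.g (nat_lit 4373) (.e (nat_lit 57373) (nat_lit 2) (.e (nat_lit 90172) (nat_lit 14) (.e (nat_lit 180244) (nat_lit 5) (.e (nat_lit 532579) (nat_lit 26) (.e (nat_lit 426139) (nat_lit 3) (.e (nat_lit 204815) (nat_lit 17) (.e (nat_lit 974) (nat_lit 81) (.e (nat_lit 7697) (nat_lit 412) .nil)))))))) (.g (nat_lit 5) .nil .nil)))) (.nd (nat_lit 5) 
(.lf (nat_lit 146460) (.g (nat_lit 3586) (.e (nat_lit 57373) (nat_lit 2) (.e (nat_lit 90172) (nat_lit 14) (.e (nat_lit 180244) (nat_lit 5) (.e (nat_lit 532515) (nat_lit 3) (.e (nat_lit 114719) (nat_lit 23) (.e (nat_lit 98325) (nat_lit 17) (.e (nat_lit 2478) (nat_lit 157) (.e (nat_lit 5953) (nat_lit 322) .nil)))))))) (.g (nat_lit 7) .nil .nil))) 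
(.lf (nat_lit 146492) (.g (nat_lit 4546) (.e (nat_lit 57373) (nat_lit 2) (.e (nat_lit 90172) (nat_lit 14) (.e (nat_lit 180250) (nat_lit 10) (.e (nat_lit 573487) (nat_lit 14) (.e (nat_lit 73747) (nat_lit 3) (.e (nat_lit 516119) (nat_lit 1) (.e (nat_lit 171776) (nat_lit 160) .nil))))))) (.g (nat_lit 6) .nil .nil))))))) (.nd (nat_lit 2) (.nd (nat_lit 3) (.nd (nat_lit 4) (.nd (nat_lit 5) 
(.lf (nat_lit 146434) (.g (nat_lit 2842) (.e (nat_lit 57373) (nat_lit 2) (.e (nat_lit 90172) (nat_lit 14) (.e (nat_lit 180244) (nat_lit 5) (.e (nat_lit 532514) (nat_lit 3) (.e (nat_lit 114718) (nat_lit 23) (.e (nat_lit 98334) (nat_lit 18) (.e (nat_lit 164399) (nat_lit 256) .nil))))))) (.g (nat_lit 5) .nil .nil))) 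
(.lf (nat_lit 146466) (.g (nat_lit 3039) (.e (nat_lit 57373) (nat_lit 2) (.e (nat_lit 90172) (nat_lit 14) (.e (nat_lit 180244) (nat_lit 5) (.e (nat_lit 532515) (nat_lit 3) (.e (nat_lit 114719) (nat_lit 23) (.e (nat_lit 98333) (nat_lit 18) (.e (nat_lit 164402) (nat_lit 256) .nil))))))) (.g (nat_lit 5) .nil .nil)))) (.nd (nat_lit 5) 
(.lf (nat_lit 146450) (.g (nat_lit 3075) (.e (nat_lit 57373) (nat_lit 2) (.e (nat_lit 90172) (nat_lit 14) (.e (nat_lit 180244) (nat_lit 5) (.e (nat_lit 532515) (nat_lit 3) (.e (nat_lit 114716) (nat_lit 22) (.e (nat_lit 90181) (nat_lit 16) (.e (nat_lit 229380) (nat_lit 0) (.e (nat_lit 5946) (nat_lit 322) .nil)))))))) (.g (nat_lit 5) .nil .nil))) 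
(.lf (nat_lit 146482) (.g (nat_lit 2082) (.e (nat_lit 57373) (nat_lit 2) (.e (nat_lit 90172) (nat_lit 14) (.e (nat_lit 180250) (nat_lit 10) (.e (nat_lit 573481) (nat_lit 13) (.e (nat_lit 73472) (nat_lit 18) .nil))))) .nil)))) (.nd (nat_lit 4) (.nd (nat_lit 5) 
(.lf (nat_lit 146442) (.g (nat_lit 2546) (.e (nat_lit 57373) (nat_lit 2) (.e (nat_lit 90172) (nat_lit 14) (.e (nat_lit 180244) (nat_lit 5) (.e (nat_lit 532515) (nat_lit 3) (.e (nat_lit 114716) (nat_lit 22) (.e (nat_lit 90130) (nat_lit 9) (.e (nat_lit 2717) (nat_lit 171) (.e (nat_lit 229708) (nat_lit 256) .nil)))))))) (.g (nat_lit 4) .nil .nil))) 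
(.lf (nat_lit 146474) (.g (nat_lit 3617) (.e (nat_lit 57373) (nat_lit 2) (.e (nat_lit 90172) (nat_lit 14) (.e (nat_lit 180244) (nat_lit 5) (.e (nat_lit 532579) (nat_lit 26) (.e (nat_lit 426124) (nat_lit 2) (.e (nat_lit 196677) (nat_lit 16) (.e (nat_lit 122881) (nat_lit 0) (.e (nat_lit 7695) (nat_lit 412) .nil)))))))) (.g (nat_lit 6) .nil .nil)))) (.nd (nat_lit 5) 
(.lf (nat_lit 146458) (.g (nat_lit 2992) (.e (nat_lit 57373) (nat_lit 2) (.e (nat_lit 90172) (nat_lit 14) (.e (nat_lit 180244) (nat_lit 5) (.e (nat_lit 532515) (nat_lit 3) (.e (nat_lit 114719) (nat_lit 23) (.e (nat_lit 98321) (nat_lit 17) (.e (nat_lit 2464) (nat_lit 157) (.e (nat_lit 5953) (nat_lit 322) .nil)))))))) (.g (nat_lit 5) .nil .nil))) 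
(.lf (nat_lit 146490) (.g (nat_lit 4875) (.e (nat_lit 57373) (nat_lit 2) (.e (nat_lit 90172) (nat_lit 14) (.e (nat_lit 180250) (nat_lit 10) (.e (nat_lit 573487) (nat_lit 14) (.e (nat_lit 73747) (nat_lit 3) (.e (nat_lit 516115) (nat_lit 1) (.e (nat_lit 171776) (nat_lit 160) .nil))))))) (.g (nat_lit 6) .nil .nil)))))) (.nd (nat_lit 3) (.nd (nat_lit 4) (.nd (nat_lit 5) 
(.lf (nat_lit 146438) (.g (nat_lit 1156) (.e (nat_lit 57373) (nat_lit 2) (.e (nat_lit 90172) (nat_lit 14) (.e (nat_lit 180244) (nat_lit 5) (.e (nat_lit 532515) (nat_lit 3) (.e (nat_lit 114715) (nat_lit 22) (.e (nat_lit 90165) (nat_lit 12) (.e (nat_lit 163853) (nat_lit 0) (.e (nat_lit 7936) (nat_lit 322) .nil)))))))) (.g (nat_lit 4) .nil .nil))) 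
(.lf (nat_lit 146470) (.g (nat_lit 3727) (.e (nat_lit 57373) (nat_lit 2) (.e (nat_lit 90172) (nat_lit 14) (.e (nat_lit 180244) (nat_lit 5) (.e (nat_lit 532579) (nat_lit 26) (.e (nat_lit 426124) (nat_lit 2) (.e (nat_lit 196658) (nat_lit 12) (.e (nat_lit 57348) (nat_lit 0) (.e (nat_lit 7695) (nat_lit 412) .nil)))))))) (.g (nat_lit 5) .nil .nil)))) (.nd (nat_lit 5) 
(.lf (nat_lit 146454) (.g (nat_lit 2484) (.e (nat_lit 57373) (nat_lit 2) (.e (nat_lit 90172) (nat_lit 14) (.e (nat_lit 180244) (nat_lit 5) (.e (nat_lit 532515) (nat_lit 3) (.e (nat_lit 114718) (nat_lit 23) (.e (nat_lit 98325) (nat_lit 17) (.e (nat_lit 2515) (nat_lit 157) (.e (nat_lit 5946) (nat_lit 322) .nil)))))))) (.g (nat_lit 4) .nil .nil))) 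
(.lf (nat_lit 146486) (.g (nat_lit 1432) (.e (nat_lit 57373) (nat_lit 2) (.e (nat_lit 90172) (nat_lit 14) (.e (nat_lit 180250) (nat_lit 10) (.e (nat_lit 573485) (nat_lit 13) .nil)))) .nil)))) (.nd (nat_lit 4) (.nd (nat_lit 5) 
(.lf (nat_lit 146446) (.g (nat_lit 2317) (.e (nat_lit 57373) (nat_lit 2) (.e (nat_lit 90172) (nat_lit 14) (.e (nat_lit 180244) (nat_lit 5) (.e (nat_lit 532515) (nat_lit 3) (.e (nat_lit 114716) (nat_lit 22) (.e (nat_lit 90165) (nat_lit 12) (.e (nat_lit 163855) (nat_lit 0) (.e (nat_lit 5944) (nat_lit 322) .nil)))))))) (.g (nat_lit 4) .nil .nil))) 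
(.lf (nat_lit 146478) (.g (nat_lit 4642) (.e (nat_lit 57373) (nat_lit 2) (.e (nat_lit 90172) (nat_lit 14) (.e (nat_lit 180244) (nat_lit 5) (.e (nat_lit 532579) (nat_lit 26) (.e (nat_lit 426139) (nat_lit 3) (.e (nat_lit 204829) (nat_lit 18) (.e (nat_lit 65280) (nat_lit 166) .nil))))))) (.g (nat_lit 6) .nil .nil)))) (.nd (nat_lit 5) 
(.lf (nat_lit 146462) (.g (nat_lit 2040) (.e (nat_lit 57373) (nat_lit 2) (.e (nat_lit 90172) (nat_lit 14) (.e (nat_lit 180244) (nat_lit 5) (.e (nat_lit 532515) (nat_lit 3) (.e (nat_lit 114719) (nat_lit 23) (.e (nat_lit 98331) (nat_lit 17) (.e (nat_lit 2416) (nat_lit 157) (.e (nat_lit 5953) (nat_lit 322) .nil)))))))) (.g (nat_lit 4) .nil .nil))) 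
(.lf (nat_lit 146494) (.g (nat_lit 3222) (.e (nat_lit 57373) (nat_lit 2) (.e (nat_lit 90172) (nat_lit 14) (.e (nat_lit 180250) (nat_lit 10) (.e (nat_lit 573488) (nat_lit 14) (.e (nat_lit 73747) (nat_lit 3) (.e (nat_lit 516115) (nat_lit 1) (.e (nat_lit 171776) (nat_lit 160) .nil))))))) (.g (nat_lit 5) .nil .nil)))))))) 
(.nd (nat_lit 1) (.nd (nat_lit 2) (.nd (nat_lit 3) (.nd (nat_lit 4) (.nd (nat_lit 5) 
(.lf (nat_lit 146433) (.g (nat_lit 2294) (.e (nat_lit 57373) (nat_lit 2) (.e (nat_lit 90172) (nat_lit 14) (.e (nat_lit 180244) (nat_lit 5) (.e (nat_lit 532514) (nat_lit 3) (.e (nat_lit 114718) (nat_lit 23) (.e (nat_lit 98333) (nat_lit 18) (.e (nat_lit 164398) (nat_lit 256) .nil))))))) (.g (nat_lit 4) .nil .nil))) 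
(.lf (nat_lit 146465) (.g (nat_lit 4265) (.e (nat_lit 57373) (nat_lit 2) (.e (nat_lit 90172) (nat_lit 14) (.e (nat_lit 180244) (nat_lit 5) (.e (nat_lit 532515) (nat_lit 3) (.e (nat_lit 114719) (nat_lit 23) (.e (nat_lit 98333) (nat_lit 18) (.e (nat_lit 164398) (nat_lit 256) .nil))))))) (.g (nat_lit 7) .nil .nil)))) (.nd (nat_lit 5) 
(.lf (nat_lit 146449) (.g (nat_lit 2279) (.e (nat_lit 57373) (nat_lit 2) (.e (nat_lit 90172) (nat_lit 14) (.e (nat_lit 180244) (nat_lit 5) (.e (nat_lit 532515) (nat_lit 3) (.e (nat_lit 114716) (nat_lit 22) (.e (nat_lit 90181) (nat_lit 16) (.e (nat_lit 229376) (nat_lit 0) (.e (nat_lit 5951) (nat_lit 322) .nil)))))))) (.g (nat_lit 4) .nil .nil))) 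
(.lf (nat_lit 146481) (.g (nat_lit 1480) (.e (nat_lit 57373) (nat_lit 2) (.e (nat_lit 90172) (nat_lit 14) (.e (nat_lit 180250) (nat_lit 10) (.e (nat_lit 573480) (nat_lit 13) .nil)))) .nil)))) (.nd (nat_lit 4) (.nd (nat_lit 5) 
(.lf (nat_lit 146441) (.g (nat_lit 1137) (.e (nat_lit 57373) (nat_lit 2) (.e (nat_lit 90172) (nat_lit 14) (.e (nat_lit 180244) (nat_lit 5) (.e (nat_lit 532515) (nat_lit 3) (.e (nat_lit 114716) (nat_lit 22) .nil))))) .nil)) 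
(.lf (nat_lit 146473) (.g (nat_lit 2964) (.e (nat_lit 57373) (nat_lit 2) (.e (nat_lit 90172) (nat_lit 14) (.e (nat_lit 180244) (nat_lit 5) (.e (nat_lit 532579) (nat_lit 26) (.e (nat_lit 426124) (nat_lit 2) (.e (nat_lit 196660) (nat_lit 12) (.e (nat_lit 57347) (nat_lit 0) (.e (nat_lit 7697) (nat_lit 412) .nil)))))))) (.g (nat_lit 4) .nil .nil)))) (.nd (nat_lit 5) 
(.lf (nat_lit 146457) (.g (nat_lit 2815) (.e (nat_lit 57373) (nat_lit 2) (.e (nat_lit 90172) (nat_lit 14) (.e (nat_lit 180244) (nat_lit 5) (.e (nat_lit 532515) (nat_lit 3) (.e (nat_lit 114718) (nat_lit 23) (.e (nat_lit 98333) (nat_lit 18) (.e (nat_lit 164402) (nat_lit 256) .nil))))))) (.g (nat_lit 5) .nil .nil))) 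
(.lf (nat_lit 146489) (.g (nat_lit 4351) (.e (nat_lit 57373) (nat_lit 2) (.e (nat_lit 90172) (nat_lit 14) (.e (nat_lit 180250) (nat_lit 10) (.e (nat_lit 573487) (nat_lit 14) (.e (nat_lit 73746) (nat_lit 3) (.e (nat_lit 516117) (nat_lit 1) (.e (nat_lit 171776) (nat_lit 160) .nil))))))) (.g (nat_lit 6) .nil .nil)))))) (.nd (nat_lit 3) (.nd (nat_lit 4) (.nd (nat_lit 5) 
(.lf (nat_lit 146437) (.g (nat_lit 2412) (.e (nat_lit 57373) (nat_lit 2) (.e (nat_lit 90172) (nat_lit 14) (.e (nat_lit 180244) (nat_lit 5) (.e (nat_lit 532515) (nat_lit 3) (.e (nat_lit 114715) (nat_lit 22) (.e (nat_lit 90165) (nat_lit 12) (.e (nat_lit 163853) (nat_lit 0) (.e (nat_lit 5951) (nat_lit 322) .nil)))))))) (.g (nat_lit 4) .nil .nil))) 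
(.lf (nat_lit 146469) (.g (nat_lit 2935) (.e (nat_lit 57373) (nat_lit 2) (.e (nat_lit 90172) (nat_lit 14) (.e (nat_lit 180244) (nat_lit 5) (.e (nat_lit 532579) (nat_lit 26) (.e (nat_lit 426123) (nat_lit 2) (.e (nat_lit 196661) (nat_lit 12) (.e (nat_lit 57353) (nat_lit 0) (.e (nat_lit 7697) (nat_lit 412) .nil)))))))) (.g (nat_lit 4) .nil .nil)))) (.nd (nat_lit 5) 
(.lf (nat_lit 146453) (.g (nat_lit 2843) (.e (nat_lit 57373) (nat_lit 2) (.e (nat_lit 90172) (nat_lit 14) (.e (nat_lit 180244) (nat_lit 5) (.e (nat_lit 532515) (nat_lit 3) (.e (nat_lit 114718) (nat_lit 23) (.e (nat_lit 98325) (nat_lit 17) (.e (nat_lit 2478) (nat_lit 157) (.e (nat_lit 5953) (nat_lit 322) .nil)))))))) (.g (nat_lit 5) .nil .nil))) 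
(.lf (nat_lit 146485) (.g (nat_lit 4566) (.e (nat_lit 57373) (nat_lit 2) (.e (nat_lit 90172) (nat_lit 14) (.e (nat_lit 180250) (nat_lit 10) (.e (nat_lit 573484) (nat_lit 13) (.e (nat_lit 65569) (nat_lit 3) (.e (nat_lit 98334) (nat_lit 18) (.e (nat_lit 171776) (nat_lit 160) .nil))))))) (.g (nat_lit 6) .nil .nil))))) (.nd (nat_lit 4) (.nd (nat_lit 5) 
(.lf (nat_lit 146445) (.g (nat_lit 2144) (.e (nat_lit 57373) (nat_lit 2) (.e (nat_lit 90172) (nat_lit 14) (.e (nat_lit 180244) (nat_lit 5) (.e (nat_lit 532515) (nat_lit 3) (.e (nat_lit 114716) (nat_lit 22) (.e (nat_lit 90165) (nat_lit 12) (.e (nat_lit 163853) (nat_lit 0) (.e (nat_lit 5953) (nat_lit 322) .nil)))))))) (.g (nat_lit 4) .nil .nil))) 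
(.lf (nat_lit 146477) (.g (nat_lit 3112) (.e (nat_lit 57373) (nat_lit 2) (.e (nat_lit 90172) (nat_lit 14) (.e (nat_lit 180244) (nat_lit 5) (.e (nat_lit 532579) (nat_lit 26) (.e (nat_lit 426139) (nat_lit 3) (.e (nat_lit 204815) (nat_lit 17) (.e (nat_lit 996) (nat_lit 81) (.e (nat_lit 7695) (nat_lit 412) .nil)))))))) (.g (nat_lit 4) .nil .nil)))) (.nd (nat_lit 5) 
(.lf (nat_lit 146461) (.g (nat_lit 3216) (.e (nat_lit 57373) (nat_lit 2) (.e (nat_lit 90172) (nat_lit 14) (.e (nat_lit 180244) (nat_lit 5) (.e (nat_lit 532515) (nat_lit 3) (.e (nat_lit 114719) (nat_lit 23) (.e (nat_lit 98325) (nat_lit 17) (.e (nat_lit 2515) (nat_lit 157) (.e (nat_lit 5946) (nat_lit 322) .nil)))))))) (.g (nat_lit 5) .nil .nil))) 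
(.lf (nat_lit 146493) (.g (nat_lit 2363) (.e (nat_lit 57373) (nat_lit 2) (.e (nat_lit 90172) (nat_lit 14) (.e (nat_lit 180250) (nat_lit 10) (.e (nat_lit 573487) (nat_lit 14) (.e (nat_lit 73753) (nat_lit 8) .nil))))) .nil)))))) (.nd (nat_lit 2) (.nd (nat_lit 3) (.nd (nat_lit 4) (.nd (nat_lit 5) 
(.lf (nat_lit 146435) (.g (nat_lit 2829) (.e (nat_lit 57373) (nat_lit 2) (.e (nat_lit 90172) (nat_lit 14) (.e (nat_lit 180244) (nat_lit 5) (.e (nat_lit 532514) (nat_lit 3) (.e (nat_lit 114719) (nat_lit 23) (.e (nat_lit 98333) (nat_lit 18) (.e (nat_lit 164399) (nat_lit 256) .nil))))))) (.g (nat_lit 5) .nil .nil))) 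
(.lf (nat_lit 146467) (.g (nat_lit 2755) (.e (nat_lit 57373) (nat_lit 2) (.e (nat_lit 90172) (nat_lit 14) (.e (nat_lit 180244) (nat_lit 5) (.e (nat_lit 532515) (nat_lit 3) (.e (nat_lit 114719) (nat_lit 23) (.e (nat_lit 98335) (nat_lit 18) (.e (nat_lit 164401) (nat_lit 256) .nil))))))) (.g (nat_lit 5) .nil .nil)))) (.nd (nat_lit 5) 
(.lf (nat_lit 146451) (.g (nat_lit 2973) (.e (nat_lit 57373) (nat_lit 2) (.e (nat_lit 90172) (nat_lit 14) (.e (nat_lit 180244) (nat_lit 5) (.e (nat_lit 532515) (nat_lit 3) (.e (nat_lit 114716) (nat_lit 22) (.e (nat_lit 90181) (nat_lit 16) (.e (nat_lit 229382) (nat_lit 0) (.e (nat_lit 5944) (nat_lit 322) .nil)))))))) (.g (nat_lit 5) .nil .nil))) 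
(.lf (nat_lit 146483) (.g (nat_lit 2947) (.e (nat_lit 57373) (nat_lit 2) (.e (nat_lit 90172) (nat_lit 14) (.e (nat_lit 180250) (nat_lit 10) (.e (nat_lit 573482) (nat_lit 13) (.e (nat_lit 65570) (nat_lit 3) (.e (nat_lit 98334) (nat_lit 18) (.e (nat_lit 171776) (nat_lit 160) .nil))))))) (.g (nat_lit 4) .nil .nil))))) (.nd (nat_lit 4) (.nd (nat_lit 5) 
(.lf (nat_lit 146443) (.g (nat_lit 2421) (.e (nat_lit 57373) (nat_lit 2) (.e (nat_lit 90172) (nat_lit 14) (.e (nat_lit 180244) (nat_lit 5) (.e (nat_lit 532515) (nat_lit 3) (.e (nat_lit 114716) (nat_lit 22) (.e (nat_lit 90163) (nat_lit 12) (.e (nat_lit 163850) (nat_lit 0) (.e (nat_lit 5951) (nat_lit 322) .nil)))))))) (.g (nat_lit 4) .nil .nil))) 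
(.lf (nat_lit 146475) (.g (nat_lit 4688) (.e (nat_lit 57373) (nat_lit 2) (.e (nat_lit 90172) (nat_lit 14) (.e (nat_lit 180244) (nat_lit 5) (.e (nat_lit 532579) (nat_lit 26) (.e (nat_lit 426139) (nat_lit 3) (.e (nat_lit 204815) (nat_lit 17) (.e (nat_lit 974) (nat_lit 81) (.e (nat_lit 7695) (nat_lit 412) .nil)))))))) (.g (nat_lit 6) .nil .nil)))) (.nd (nat_lit 5) 
(.lf (nat_lit 146459) (.g (nat_lit 2464) (.e (nat_lit 57373) (nat_lit 2) (.e (nat_lit 90172) (nat_lit 14) (.e (nat_lit 180244) (nat_lit 5) (.e (nat_lit 532515) (nat_lit 3) (.e (nat_lit 114719) (nat_lit 23) (.e (nat_lit 98325) (nat_lit 17) (.e (nat_lit 2478) (nat_lit 157) (.e (nat_lit 5946) (nat_lit 322) .nil)))))))) (.g (nat_lit 4) .nil .nil))) 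
(.lf (nat_lit 146491) (.g (nat_lit 3974) (.e (nat_lit 57373) (nat_lit 2) (.e (nat_lit 90172) (nat_lit 14) (.e (nat_lit 180250) (nat_lit 10) (.e (nat_lit 573487) (nat_lit 14) (.e (nat_lit 73747) (nat_lit 3) (.e (nat_lit 516117) (nat_lit 1) (.e (nat_lit 171776) (nat_lit 160) .nil))))))) (.g (nat_lit 5) .nil .nil)))))) (.nd (nat_lit 3) (.nd (nat_lit 4) (.nd (nat_lit 5) 
(.lf (nat_lit 146439) (.g (nat_lit 2179) (.e (nat_lit 57373) (nat_lit 2) (.e (nat_lit 90172) (nat_lit 14) (.e (nat_lit 180244) (nat_lit 5) (.e (nat_lit 532515) (nat_lit 3) (.e (nat_lit 114715) (nat_lit 22) (.e (nat_lit 90165) (nat_lit 12) (.e (nat_lit 163854) (nat_lit 0) (.e (nat_lit 5953) (nat_lit 322) .nil)))))))) (.g (nat_lit 4) .nil .nil))) 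
(.lf (nat_lit 146471) (.g (nat_lit 3738) (.e (nat_lit 57373) (nat_lit 2) (.e (nat_lit 90172) (nat_lit 14) (.e (nat_lit 180244) (nat_lit 5) (.e (nat_lit 532579) (nat_lit 26) (.e (nat_lit 426124) (nat_lit 2) (.e (nat_lit 196658) (nat_lit 12) (.e (nat_lit 57348) (nat_lit 0) (.e (nat_lit 7697) (nat_lit 412) .nil)))))))) (.g (nat_lit 5) .nil .nil)))) (.nd (nat_lit 5) 
(.lf (nat_lit 146455) (.g (nat_lit 3378) (.e (nat_lit 57373) (nat_lit 2) (.e (nat_lit 90172) (nat_lit 14) (.e (nat_lit 180244) (nat_lit 5) (.e (nat_lit 532515) (nat_lit 3) (.e (nat_lit 114718) (nat_lit 23) (.e (nat_lit 98325) (nat_lit 17) (.e (nat_lit 2515) (nat_lit 157) (.e (nat_lit 5948) (nat_lit 322) .nil)))))))) (.g (nat_lit 5) .nil .nil))) 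
(.lf (nat_lit 146487) (.g (nat_lit 3122) (.e (nat_lit 57373) (nat_lit 2) (.e (nat_lit 90172) (nat_lit 14) (.e (nat_lit 180250) (nat_lit 10) (.e (nat_lit 573485) (nat_lit 13) (.e (nat_lit 65570) (nat_lit 3) (.e (nat_lit 98334) (nat_lit 18) (.e (nat_lit 171776) (nat_lit 160) .nil))))))) (.g (nat_lit 5) .nil .nil))))) (.nd (nat_lit 4) (.nd (nat_lit 5) 
(.lf (nat_lit 146447) (.g (nat_lit 2811) (.e (nat_lit 57373) (nat_lit 2) (.e (nat_lit 90172) (nat_lit 14) (.e (nat_lit 180244) (nat_lit 5) (.e (nat_lit 532515) (nat_lit 3) (.e (nat_lit 114716) (nat_lit 22) (.e (nat_lit 90165) (nat_lit 12) (.e (nat_lit 163857) (nat_lit 0) (.e (nat_lit 5948) (nat_lit 322) .nil)))))))) (.g (nat_lit 5) .nil .nil))) 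
(.lf (nat_lit 146479) (.g (nat_lit 4182) (.e (nat_lit 57373) (nat_lit 2) (.e (nat_lit 90172) (nat_lit 14) (.e (nat_lit 180244) (nat_lit 5) (.e (nat_lit 532579) (nat_lit 26) (.e (nat_lit 426139) (nat_lit 3) (.e (nat_lit 204830) (nat_lit 18) (.e (nat_lit 65280) (nat_lit 166) .nil))))))) (.g (nat_lit 6) .nil .nil)))) (.nd (nat_lit 5) 
(.lf (nat_lit 146463) (.g (nat_lit 2805) (.e (nat_lit 57373) (nat_lit 2) (.e (nat_lit 90172) (nat_lit 14) (.e (nat_lit 180244) (nat_lit 5) (.e (nat_lit 532515) (nat_lit 3) (.e (nat_lit 114719) (nat_lit 23) (.e (nat_lit 98332) (nat_lit 18) (.e (nat_lit 164401) (nat_lit 256) .nil))))))) (.g (nat_lit 6) .nil .nil))) 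
(.lf (nat_lit 146495) (.g (nat_lit 2574) (.e (nat_lit 57373) (nat_lit 2) (.e (nat_lit 90172) (nat_lit 14) (.e (nat_lit 180250) (nat_lit 10) (.e (nat_lit 573488) (nat_lit 14) (.e (nat_lit 73747) (nat_lit 3) (.e (nat_lit 516119) (nat_lit 1) (.e (nat_lit 171776) (nat_lit 160) .nil))))))) (.g (nat_lit 4) .nil .nil)))))))))

noncomputable def tv1947 : DT := (.nd (nat_lit 0) (.nd (nat_lit 1) (.nd (nat_lit 2) (.nd (nat_lit 3) (.nd (nat_lit 4) (.nd (nat_lit 5) 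
(.lf (nat_lit 146496) (.g (nat_lit 536) (.e (nat_lit 57373) (nat_lit 2) (.e (nat_lit 90172) (nat_lit 14) (.e (nat_lit 188160) (nat_lit 40) .nil))) .nil)) 
(.lf (nat_lit 146528) (.g (nat_lit 2386) (.e (nat_lit 57373) (nat_lit 2) (.e (nat_lit 90174) (nat_lit 14) (.e (nat_lit 180243) (nat_lit 5) (.e (nat_lit 532510) (nat_lit 2) (.e (nat_lit 106537) (nat_lit 12) (.e (nat_lit 57465) (nat_lit 23) (.e (nat_lit 516117) (nat_lit 1) (.e (nat_lit 164399) (nat_lit 256) .nil)))))))) (.g (nat_lit 4) .nil .nil)))) (.nd (nat_lit 5) 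
(.lf (nat_lit 146512) (.g (nat_lit 2816) (.e (nat_lit 57373) (nat_lit 2) (.e (nat_lit 90174) (nat_lit 14) (.e (nat_lit 180243) (nat_lit 5) (.e (nat_lit 532508) (nat_lit 2) (.e (nat_lit 106517) (nat_lit 9) (.e (nat_lit 1255) (nat_lit 92) (.e (nat_lit 98325) (nat_lit 17) (.e (nat_lit 2515) (nat_lit 157) (.e (nat_lit 5947) (nat_lit 322) .nil))))))))) (.g (nat_lit 4) .nil .nil))) 
(.lf (nat_lit 146544) (.g (nat_lit 2130) (.e (nat_lit 57373) (nat_lit 2) (.e (nat_lit 90174) (nat_lit 14) (.e (nat_lit 180243) (nat_lit 5) (.e (nat_lit 532511) (nat_lit 2) (.e (nat_lit 106542) (nat_lit 13) (.e (nat_lit 122937) (nat_lit 23) (.e (nat_lit 516119) (nat_lit 1) (.e (nat_lit 164401) (nat_lit 256) .nil)))))))) (.g (nat_lit 4) .nil .nil))))) (.nd (nat_lit 4) (.nd (nat_lit 5) 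
(.lf (nat_lit 146504) (.g (nat_lit 2605) (.e (nat_lit 57373) (nat_lit 2) (.e (nat_lit 90173) (nat_lit 14) (.e (nat_lit 180252) (nat_lit 10) (.e (nat_lit 573482) (nat_lit 13) (.e (nat_lit 73472) (nat_lit 18) (.e (nat_lit 204839) (nat_lit 21) (.e (nat_lit 123198) (nat_lit 266) .nil))))))) (.g (nat_lit 4) .nil .nil))) 
(.lf (nat_lit 146536) (.g (nat_lit 2332) (.e (nat_lit 57373) (nat_lit 2) (.e (nat_lit 90174) (nat_lit 14) (.e (nat_lit 180243) (nat_lit 5) (.e (nat_lit 532511) (nat_lit 2) (.e (nat_lit 106538) (nat_lit 12) (.e (nat_lit 57465) (nat_lit 23) (.e (nat_lit 516120) (nat_lit 1) (.e (nat_lit 164401) (nat_lit 256) .nil)))))))) (.g (nat_lit 4) .nil .nil)))) (.nd (nat_lit 5) 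
(.lf (nat_lit 146520) (.g (nat_lit 2479) (.e (nat_lit 57373) (nat_lit 2) (.e (nat_lit 90174) (nat_lit 14) (.e (nat_lit 180243) (nat_lit 5) (.e (nat_lit 532508) (nat_lit 2) (.e (nat_lit 106538) (nat_lit 12) (.e (nat_lit 57466) (nat_lit 23) (.e (nat_lit 516117) (nat_lit 1) (.e (nat_lit 164399) (nat_lit 256) .nil)))))))) (.g (nat_lit 4) .nil .nil))) 
(.lf (nat_lit 146552) (.g (nat_lit 3374) (.e (nat_lit 57373) (nat_lit 2) (.e (nat_lit 90174) (nat_lit 14) (.e (nat_lit 180243) (nat_lit 5) (.e (nat_lit 532513) (nat_lit 3) (.e (nat_lit 114714) (nat_lit 22) (.e (nat_lit 90181) (nat_lit 16) (.e (nat_lit 229376) (nat_lit 0) (.e (nat_lit 5946) (nat_lit 322) .nil)))))))) (.g (nat_lit 5) .nil .nil)))))) 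
(.nd (nat_lit 3) (.nd (nat_lit 4) (.nd (nat_lit 5) 
(.lf (nat_lit 146500) (.g (nat_lit 1706) (.e (nat_lit 57373) (nat_lit 2) (.e (nat_lit 90172) (nat_lit 14) (.e (nat_lit 180285) (nat_lit 45) (.e (nat_lit 2571) (nat_lit 160) (.e (nat_lit 32807) (nat_lit 18) (.e (nat_lit 172070) (nat_lit 4) (.e (nat_lit 237312) (nat_lit 262) .nil))))))) (.g (nat_lit 5) .nil .nil))) 
(.lf (nat_lit 146532) (.g (nat_lit 1051) (.e (nat_lit 57373) (nat_lit 2) (.e (nat_lit 90174) (nat_lit 14) (.e (nat_lit 180243) (nat_lit 5) (.e (nat_lit 532511) (nat_lit 2) .nil)))) .nil))) (.nd (nat_lit 5) 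
(.lf (nat_lit 146516) (.g (nat_lit 2258) (.e (nat_lit 57373) (nat_lit 2) (.e (nat_lit 90174) (nat_lit 14) (.e (nat_lit 180243) (nat_lit 5) (.e (nat_lit 532508) (nat_lit 2) (.e (nat_lit 106537) (nat_lit 12) (.e (nat_lit 57467) (nat_lit 23) (.e (nat_lit 516115) (nat_lit 1) (.e (nat_lit 164398) (nat_lit 256) .nil)))))))) (.g (nat_lit 4) .nil .nil))) 
(.lf (nat_lit 146548) (.g (nat_lit 1589) (.e (nat_lit 57373) (nat_lit 2) (.e (nat_lit 90174) (nat_lit 14) (.e (nat_lit 180243) (nat_lit 5) (.e (nat_lit 532513) (nat_lit 3) (.e (nat_lit 114714) (nat_lit 22) .nil))))) .nil)))) (.nd (nat_lit 4) (.nd (nat_lit 5) 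
(.lf (nat_lit 146508) (.g (nat_lit 2009) (.e (nat_lit 57373) (nat_lit 2) (.e (nat_lit 90174) (nat_lit 14) (.e (nat_lit 180243) (nat_lit 5) (.e (nat_lit 532506) (nat_lit 2) (.e (nat_lit 106541) (nat_lit 13) (.e (nat_lit 122936) (nat_lit 23) (.e (nat_lit 516117) (nat_lit 1) (.e (nat_lit 164401) (nat_lit 256) .nil)))))))) (.g (nat_lit 4) .nil .nil))) 
(.lf (nat_lit 146540) (.g (nat_lit 2345) (.e (nat_lit 57373) (nat_lit 2) (.e (nat_lit 90174) (nat_lit 14) (.e (nat_lit 180243) (nat_lit 5) (.e (nat_lit 532511) (nat_lit 2) (.e (nat_lit 106539) (nat_lit 12) (.e (nat_lit 57465) (nat_lit 23) (.e (nat_lit 516120) (nat_lit 1) (.e (nat_lit 164401) (nat_lit 256) .nil)))))))) (.g (nat_lit 4) .nil .nil)))) (.nd (nat_lit 5) 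
(.lf (nat_lit 146524) (.g (nat_lit 1976) (.e (nat_lit 57373) (nat_lit 2) (.e (nat_lit 90174) (nat_lit 14) (.e (nat_lit 180243) (nat_lit 5) (.e (nat_lit 532508) (nat_lit 2) (.e (nat_lit 106539) (nat_lit 12) (.e (nat_lit 57467) (nat_lit 23) (.e (nat_lit 516116) (nat_lit 1) (.e (nat_lit 164398) (nat_lit 256) .nil)))))))) (.g (nat_lit 4) .nil .nil))) 
(.lf (nat_lit 146556) (.g (nat_lit 2899) (.e (nat_lit 57373) (nat_lit 2) (.e (nat_lit 90174) (nat_lit 14) (.e (nat_lit 180243) (nat_lit 5) (.e (nat_lit 532513) (nat_lit 3) (.e (nat_lit 114714) (nat_lit 22) (.e (nat_lit 90181) (nat_lit 16) (.e (nat_lit 229380) (nat_lit 0) (.e (nat_lit 5946) (nat_lit 322) .nil)))))))) (.g (nat_lit 4) .nil .nil))))))) 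
(.nd (nat_lit 2) (.nd (nat_lit 3) (.nd (nat_lit 4) (.nd (nat_lit 5) 
(.lf (nat_lit 146498) (.g (nat_lit 1760) (.e (nat_lit 57373) (nat_lit 2) (.e (nat_lit 90172) (nat_lit 14) (.e (nat_lit 180285) (nat_lit 45) (.e (nat_lit 2569) (nat_lit 160) (.e (nat_lit 32807) (nat_lit 18) (.e (nat_lit 172070) (nat_lit 4) (.e (nat_lit 237312) (nat_lit 262) .nil))))))) (.g (nat_lit 5) .nil .nil))) 
(.lf (nat_lit 146530) (.g (nat_lit 2262) (.e (nat_lit 57373) (nat_lit 2) (.e (nat_lit 90174) (nat_lit 14) (.e (nat_lit 180243) (nat_lit 5) (.e (nat_lit 532510) (nat_lit 2) (.e (nat_lit 106539) (nat_lit 12) (.e (nat_lit 57465) (nat_lit 23) (.e (nat_lit 516120) (nat_lit 1) (.e (nat_lit 164401) (nat_lit 256) .nil)))))))) (.g (nat_lit 4) .nil .nil)))) (.nd (nat_lit 5) 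
(.lf (nat_lit 146514) (.g (nat_lit 2392) (.e (nat_lit 57373) (nat_lit 2) (.e (nat_lit 90174) (nat_lit 14) (.e (nat_lit 180243) (nat_lit 5) (.e (nat_lit 532508) (nat_lit 2) (.e (nat_lit 106537) (nat_lit 12) (.e (nat_lit 57465) (nat_lit 23) (.e (nat_lit 516117) (nat_lit 1) (.e (nat_lit 164399) (nat_lit 256) .nil)))))))) (.g (nat_lit 4) .nil .nil))) 
(.lf (nat_lit 146546) (.g (nat_lit 2895) (.e (nat_lit 57373) (nat_lit 2) (.e (nat_lit 90174) (nat_lit 14) (.e (nat_lit 180243) (nat_lit 5) (.e (nat_lit 532513) (nat_lit 3) (.e (nat_lit 114701) (nat_lit 20) (.e (nat_lit 1787) (nat_lit 119) (.e (nat_lit 516115) (nat_lit 1) (.e (nat_lit 164399) (nat_lit 256) .nil)))))))) (.g (nat_lit 4) .nil .nil))))) (.nd (nat_lit 4) (.nd (nat_lit 5) 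
(.lf (nat_lit 146506) (.g (nat_lit 2605) (.e (nat_lit 57373) (nat_lit 2) (.e (nat_lit 90173) (nat_lit 14) (.e (nat_lit 180252) (nat_lit 10) (.e (nat_lit 573488) (nat_lit 14) (.e (nat_lit 73747) (nat_lit 3) (.e (nat_lit 516117) (nat_lit 1) (.e (nat_lit 171776) (nat_lit 160) .nil))))))) (.g (nat_lit 4) .nil .nil))) 
(.lf (nat_lit 146538) (.g (nat_lit 2361) (.e (nat_lit 57373) (nat_lit 2) (.e (nat_lit 90174) (nat_lit 14) (.e (nat_lit 180243) (nat_lit 5) (.e (nat_lit 532511) (nat_lit 2) (.e (nat_lit 106538) (nat_lit 12) (.e (nat_lit 57467) (nat_lit 23) (.e (nat_lit 516115) (nat_lit 1) (.e (nat_lit 164399) (nat_lit 256) .nil)))))))) (.g (nat_lit 4) .nil .nil)))) (.nd (nat_lit 5) 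
(.lf (nat_lit 146522) (.g (nat_lit 2009) (.e (nat_lit 57373) (nat_lit 2) (.e (nat_lit 90174) (nat_lit 14) (.e (nat_lit 180243) (nat_lit 5) (.e (nat_lit 532508) (nat_lit 2) (.e (nat_lit 106539) (nat_lit 12) (.e (nat_lit 57465) (nat_lit 23) (.e (nat_lit 516117) (nat_lit 1) (.e (nat_lit 164401) (nat_lit 256) .nil)))))))) (.g (nat_lit 4) .nil .nil))) 
(.lf (nat_lit 146554) (.g (nat_lit 2522) (.e (nat_lit 57373) (nat_lit 2) (.e (nat_lit 90174) (nat_lit 14) (.e (nat_lit 180243) (nat_lit 5) (.e (nat_lit 532513) (nat_lit 3) (.e (nat_lit 114714) (nat_lit 22) (.e (nat_lit 90181) (nat_lit 16) (.e (nat_lit 229376) (nat_lit 0) (.e (nat_lit 5952) (nat_lit 322) .nil)))))))) (.g (nat_lit 4) .nil .nil)))))) 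
(.nd (nat_lit 3) (.nd (nat_lit 4) (.nd (nat_lit 5) 
(.lf (nat_lit 146502) (.g (nat_lit 1112) (.e (nat_lit 57373) (nat_lit 2) (.e (nat_lit 90173) (nat_lit 14) (.e (nat_lit 180251) (nat_lit 10) (.e (nat_lit 573487) (nat_lit 14) .nil)))) .nil)) 
(.lf (nat_lit 146534) (.g (nat_lit 2261) (.e (nat_lit 57373) (nat_lit 2) (.e (nat_lit 90174) (nat_lit 14) (.e (nat_lit 180243) (nat_lit 5) (.e (nat_lit 532511) (nat_lit 2) (.e (nat_lit 106537) (nat_lit 12) (.e (nat_lit 57465) (nat_lit 23) (.e (nat_lit 516115) (nat_lit 1) (.e (nat_lit 164398) (nat_lit 256) .nil)))))))) (.g (nat_lit 4) .nil .nil)))) (.nd (nat_lit 5) 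
(.lf (nat_lit 146518) (.g (nat_lit 2824) (.e (nat_lit 57373) (nat_lit 2) (.e (nat_lit 90174) (nat_lit 14) (.e (nat_lit 180243) (nat_lit 5) (.e (nat_lit 532508) (nat_lit 2) (.e (nat_lit 106538) (nat_lit 12) (.e (nat_lit 57466) (nat_lit 23) (.e (nat_lit 516115) (nat_lit 1) (.e (nat_lit 164399) (nat_lit 256) .nil)))))))) (.g (nat_lit 5) .nil .nil))) 
(.lf (nat_lit 146550) (.g (nat_lit 2760) (.e (nat_lit 57373) (nat_lit 2) (.e (nat_lit 90174) (nat_lit 14) (.e (nat_lit 180243) (nat_lit 5) (.e (nat_lit 532513) (nat_lit 3) (.e (nat_lit 114714) (nat_lit 22) (.e (nat_lit 90164) (nat_lit 12) (.e (nat_lit 163850) (nat_lit 0) (.e (nat_lit 7936) (nat_lit 322) .nil)))))))) (.g (nat_lit 5) .nil .nil))))) (.nd (nat_lit 4) (.nd (nat_lit 5) 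
(.lf (nat_lit 146510) (.g (nat_lit 2718) (.e (nat_lit 57373) (nat_lit 2) (.e (nat_lit 90174) (nat_lit 14) (.e (nat_lit 180243) (nat_lit 5) (.e (nat_lit 532508) (nat_lit 2) (.e (nat_lit 114432) (nat_lit 3) (.e (nat_lit 163962) (nat_lit 25) (.e (nat_lit 532499) (nat_lit 1) (.e (nat_lit 65280) (nat_lit 266) .nil)))))))) (.g (nat_lit 7) .nil .nil))) 
(.lf (nat_lit 146542) (.g (nat_lit 2128) (.e (nat_lit 57373) (nat_lit 2) (.e (nat_lit 90174) (nat_lit 14) (.e (nat_lit 180243) (nat_lit 5) (.e (nat_lit 532511) (nat_lit 2) (.e (nat_lit 106539) (nat_lit 12) (.e (nat_lit 57467) (nat_lit 23) (.e (nat_lit 516116) (nat_lit 1) (.e (nat_lit 164399) (nat_lit 256) .nil)))))))) (.g (nat_lit 4) .nil .nil)))) (.nd (nat_lit 5) 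
(.lf (nat_lit 146526) (.g (nat_lit 2227) (.e (nat_lit 57373) (nat_lit 2) (.e (nat_lit 90174) (nat_lit 14) (.e (nat_lit 180243) (nat_lit 5) (.e (nat_lit 532508) (nat_lit 2) (.e (nat_lit 114432) (nat_lit 12) (.e (nat_lit 57464) (nat_lit 23) (.e (nat_lit 516116) (nat_lit 1) (.e (nat_lit 164399) (nat_lit 256) .nil)))))))) (.g (nat_lit 4) .nil .nil))) 
(.lf (nat_lit 146558) (.g (nat_lit 3393) (.e (nat_lit 57373) (nat_lit 2) (.e (nat_lit 90174) (nat_lit 14) (.e (nat_lit 180243) (nat_lit 5) (.e (nat_lit 532513) (nat_lit 3) (.e (nat_lit 114714) (nat_lit 22) (.e (nat_lit 90181) (nat_lit 16) (.e (nat_lit 229381) (nat_lit 0) (.e (nat_lit 5949) (nat_lit 322) .nil)))))))) (.g (nat_lit 5) .nil .nil)))))))) 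
(.nd (nat_lit 1) (.nd (nat_lit 2) (.nd (nat_lit 3) (.nd (nat_lit 4) (.nd (nat_lit 5) 
(.lf (nat_lit 146497) (.g (nat_lit 536) (.e (nat_lit 57373) (nat_lit 2) (.e (nat_lit 90172) (nat_lit 14) (.e (nat_lit 188160) (nat_lit 42) .nil))) .nil)) 
(.lf (nat_lit 146529) (.g (nat_lit 2222) (.e (nat_lit 57373) (nat_lit 2) (.e (nat_lit 90174) (nat_lit 14) (.e (nat_lit 180243) (nat_lit 5) (.e (nat_lit 532510) (nat_lit 2) (.e (nat_lit 106537) (nat_lit 12) (.e (nat_lit 57466) (nat_lit 23) (.e (nat_lit 516117) (nat_lit 1) (.e (nat_lit 164401) (nat_lit 256) .nil)))))))) (.g (nat_lit 4) .nil .nil)))) (.nd (nat_lit 5) 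
(.lf (nat_lit 146513) (.g (nat_lit 2329) (.e (nat_lit 57373) (nat_lit 2) (.e (nat_lit 90174) (nat_lit 14) (.e (nat_lit 180243) (nat_lit 5) (.e (nat_lit 532508) (nat_lit 2) (.e (nat_lit 106537) (nat_lit 12) (.e (nat_lit 57465) (nat_lit 23) (.e (nat_lit 516117) (nat_lit 1) (.e (nat_lit 164398) (nat_lit 256) .nil)))))))) (.g (nat_lit 4) .nil .nil))) 
(.lf (nat_lit 146545) (.g (nat_lit 2851) (.e (nat_lit 57373) (nat_lit 2) (.e (nat_lit 90174) (nat_lit 14) (.e (nat_lit 180243) (nat_lit 5) (.e (nat_lit 532513) (nat_lit 3) (.e (nat_lit 114700) (nat_lit 20) (.e (nat_lit 1781) (nat_lit 119) (.e (nat_lit 516115) (nat_lit 1) (.e (nat_lit 164399) (nat_lit 256) .nil)))))))) (.g (nat_lit 4) .nil .nil))))) (.nd (nat_lit 4) (.nd (nat_lit 5) 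
(.lf (nat_lit 146505) (.g (nat_lit 1106) (.e (nat_lit 57373) (nat_lit 2) (.e (nat_lit 90173) (nat_lit 14) (.e (nat_lit 180252) (nat_lit 10) (.e (nat_lit 573488) (nat_lit 14) .nil)))) .nil)) 
(.lf (nat_lit 146537) (.g (nat_lit 2415) (.e (nat_lit 57373) (nat_lit 2) (.e (nat_lit 90174) (nat_lit 14) (.e (nat_lit 180243) (nat_lit 5) (.e (nat_lit 532511) (nat_lit 2) (.e (nat_lit 106538) (nat_lit 12) (.e (nat_lit 57466) (nat_lit 23) (.e (nat_lit 516115) (nat_lit 1) (.e (nat_lit 164399) (nat_lit 256) .nil)))))))) (.g (nat_lit 4) .nil .nil)))) (.nd (nat_lit 5) 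
(.lf (nat_lit 146521) (.g (nat_lit 2350) (.e (nat_lit 57373) (nat_lit 2) (.e (nat_lit 90174) (nat_lit 14) (.e (nat_lit 180243) (nat_lit 5) (.e (nat_lit 532508) (nat_lit 2) (.e (nat_lit 106538) (nat_lit 12) (.e (nat_lit 57466) (nat_lit 23) (.e (nat_lit 516119) (nat_lit 1) (.e (nat_lit 164403) (nat_lit 256) .nil)))))))) (.g (nat_lit 4) .nil .nil))) 
(.lf (nat_lit 146553) (.g (nat_lit 2371) (.e (nat_lit 57373) (nat_lit 2) (.e (nat_lit 90174) (nat_lit 14) (.e (nat_lit 180243) (nat_lit 5) (.e (nat_lit 532513) (nat_lit 3) (.e (nat_lit 114714) (nat_lit 22) (.e (nat_lit 90181) (nat_lit 16) (.e (nat_lit 229376) (nat_lit 0) (.e (nat_lit 5951) (nat_lit 322) .nil)))))))) (.g (nat_lit 4) .nil .nil)))))) 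
(.nd (nat_lit 3) (.nd (nat_lit 4) (.nd (nat_lit 5) 
(.lf (nat_lit 146501) (.g (nat_lit 1059) (.e (nat_lit 57373) (nat_lit 2) (.e (nat_lit 90173) (nat_lit 14) (.e (nat_lit 180250) (nat_lit 10) (.e (nat_lit 573487) (nat_lit 14) .nil)))) .nil)) 
(.lf (nat_lit 146533) (.g (nat_lit 2322) (.e (nat_lit 57373) (nat_lit 2) (.e (nat_lit 90174) (nat_lit 14) (.e (nat_lit 180243) (nat_lit 5) (.e (nat_lit 532511) (nat_lit 2) (.e (nat_lit 106537) (nat_lit 12) (.e (nat_lit 57464) (nat_lit 23) (.e (nat_lit 516116) (nat_lit 1) (.e (nat_lit 164401) (nat_lit 256) .nil)))))))) (.g (nat_lit 4) .nil .nil)))) (.nd (nat_lit 5) 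
(.lf (nat_lit 146517) (.g (nat_lit 2451) (.e (nat_lit 57373) (nat_lit 2) (.e (nat_lit 90174) (nat_lit 14) (.e (nat_lit 180243) (nat_lit 5) (.e (nat_lit 532508) (nat_lit 2) (.e (nat_lit 106538) (nat_lit 12) (.e (nat_lit 57465) (nat_lit 23) (.e (nat_lit 516117) (nat_lit 1) (.e (nat_lit 164401) (nat_lit 256) .nil)))))))) (.g (nat_lit 4) .nil .nil))) 
(.lf (nat_lit 146549) (.g (nat_lit 3951) (.e (nat_lit 57373) (nat_lit 2) (.e (nat_lit 90174) (nat_lit 14) (.e (nat_lit 180243) (nat_lit 5) (.e (nat_lit 532513) (nat_lit 3) (.e (nat_lit 114714) (nat_lit 22) (.e (nat_lit 90134) (nat_lit 9) (.e (nat_lit 2717) (nat_lit 171) (.e (nat_lit 229708) (nat_lit 256) .nil)))))))) (.g (nat_lit 5) .nil .nil))))) (.nd (nat_lit 4) (.nd (nat_lit 5) 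
(.lf (nat_lit 146509) (.g (nat_lit 1055) (.e (nat_lit 57373) (nat_lit 2) (.e (nat_lit 90174) (nat_lit 14) (.e (nat_lit 180243) (nat_lit 5) (.e (nat_lit 532508) (nat_lit 2) .nil)))) .nil)) 
(.lf (nat_lit 146541) (.g (nat_lit 2021) (.e (nat_lit 57373) (nat_lit 2) (.e (nat_lit 90174) (nat_lit 14) (.e (nat_lit 180243) (nat_lit 5) (.e (nat_lit 532511) (nat_lit 2) (.e (nat_lit 106539) (nat_lit 12) (.e (nat_lit 57467) (nat_lit 23) (.e (nat_lit 516116) (nat_lit 1) (.e (nat_lit 164398) (nat_lit 256) .nil)))))))) (.g (nat_lit 4) .nil .nil)))) (.nd (nat_lit 5) 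
(.lf (nat_lit 146525) (.g (nat_lit 2354) (.e (nat_lit 57373) (nat_lit 2) (.e (nat_lit 90174) (nat_lit 14) (.e (nat_lit 180243) (nat_lit 5) (.e (nat_lit 532508) (nat_lit 2) (.e (nat_lit 114432) (nat_lit 12) (.e (nat_lit 57464) (nat_lit 23) (.e (nat_lit 516116) (nat_lit 1) (.e (nat_lit 164398) (nat_lit 256) .nil)))))))) (.g (nat_lit 4) .nil .nil))) 
(.lf (nat_lit 146557) (.g (nat_lit 3110) (.e (nat_lit 57373) (nat_lit 2) (.e (nat_lit 90174) (nat_lit 14) (.e (nat_lit 180243) (nat_lit 5) (.e (nat_lit 532513) (nat_lit 3) (.e (nat_lit 114714) (nat_lit 22) (.e (nat_lit 90181) (nat_lit 16) (.e (nat_lit 229380) (nat_lit 0) (.e (nat_lit 5953) (nat_lit 322) .nil)))))))) (.g (nat_lit 5) .nil .nil))))))) 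
(.nd (nat_lit 2) (.nd (nat_lit 3) (.nd (nat_lit 4) (.nd (nat_lit 5) 
(.lf (nat_lit 146499) (.g (nat_lit 1697) (.e (nat_lit 57373) (nat_lit 2) (.e (nat_lit 90172) (nat_lit 14) (.e (nat_lit 180285) (nat_lit 45) (.e (nat_lit 2570) (nat_lit 160) (.e (nat_lit 32807) (nat_lit 18) (.e (nat_lit 172070) (nat_lit 4) (.e (nat_lit 237312) (nat_lit 262) .nil))))))) (.g (nat_lit 5) .nil .nil))) 
(.lf (nat_lit 146531) (.g (nat_lit 1937) (.e (nat_lit 57373) (nat_lit 2) (.e (nat_lit 90174) (nat_lit 14) (.e (nat_lit 180243) (nat_lit 5) (.e (nat_lit 532510) (nat_lit 2) (.e (nat_lit 106539) (nat_lit 12) (.e (nat_lit 57467) (nat_lit 23) (.e (nat_lit 516116) (nat_lit 1) (.e (nat_lit 164398) (nat_lit 256) .nil)))))))) (.g (nat_lit 4) .nil .nil)))) (.nd (nat_lit 5) 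
(.lf (nat_lit 146515) (.g (nat_lit 2228) (.e (nat_lit 57373) (nat_lit 2) (.e (nat_lit 90174) (nat_lit 14) (.e (nat_lit 180243) (nat_lit 5) (.e (nat_lit 532508) (nat_lit 2) (.e (nat_lit 106537) (nat_lit 12) (.e (nat_lit 57466) (nat_lit 23) (.e (nat_lit 516117) (nat_lit 1) (.e (nat_lit 164401) (nat_lit 256) .nil)))))))) (.g (nat_lit 4) .nil .nil))) 
(.lf (nat_lit 146547) (.g (nat_lit 2946) (.e (nat_lit 57373) (nat_lit 2) (.e (nat_lit 90174) (nat_lit 14) (.e (nat_lit 180243) (nat_lit 5) (.e (nat_lit 532513) (nat_lit 3) (.e (nat_lit 114701) (nat_lit 20) (.e (nat_lit 1797) (nat_lit 119) (.e (nat_lit 516115) (nat_lit 1) (.e (nat_lit 164399) (nat_lit 256) .nil)))))))) (.g (nat_lit 4) .nil .nil))))) (.nd (nat_lit 4) (.nd (nat_lit 5) 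
(.lf (nat_lit 146507) (.g (nat_lit 2268) (.e (nat_lit 57373) (nat_lit 2) (.e (nat_lit 90174) (nat_lit 14) (.e (nat_lit 180243) (nat_lit 5) (.e (nat_lit 532506) (nat_lit 2) (.e (nat_lit 106537) (nat_lit 12) (.e (nat_lit 57464) (nat_lit 23) (.e (nat_lit 516116) (nat_lit 1) (.e (nat_lit 164399) (nat_lit 256) .nil)))))))) (.g (nat_lit 4) .nil .nil))) 
(.lf (nat_lit 146539) (.g (nat_lit 2055) (.e (nat_lit 57373) (nat_lit 2) (.e (nat_lit 90174) (nat_lit 14) (.e (nat_lit 180243) (nat_lit 5) (.e (nat_lit 532511) (nat_lit 2) (.e (nat_lit 106539) (nat_lit 12) (.e (nat_lit 57465) (nat_lit 23) (.e (nat_lit 516117) (nat_lit 1) (.e (nat_lit 164401) (nat_lit 256) .nil)))))))) (.g (nat_lit 4) .nil .nil)))) (.nd (nat_lit 5) 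
(.lf (nat_lit 146523) (.g (nat_lit 2299) (.e (nat_lit 57373) (nat_lit 2) (.e (nat_lit 90174) (nat_lit 14) (.e (nat_lit 180243) (nat_lit 5) (.e (nat_lit 532508) (nat_lit 2) (.e (nat_lit 106539) (nat_lit 12) (.e (nat_lit 57465) (nat_lit 23) (.e (nat_lit 516120) (nat_lit 1) (.e (nat_lit 164401) (nat_lit 256) .nil)))))))) (.g (nat_lit 4) .nil .nil))) 
(.lf (nat_lit 146555) (.g (nat_lit 3523) (.e (nat_lit 57373) (nat_lit 2) (.e (nat_lit 90174) (nat_lit 14) (.e (nat_lit 180243) (nat_lit 5) (.e (nat_lit 532513) (nat_lit 3) (.e (nat_lit 114714) (nat_lit 22) (.e (nat_lit 90181) (nat_lit 16) (.e (nat_lit 229376) (nat_lit 0) (.e (nat_lit 5953) (nat_lit 322) .nil)))))))) (.g (nat_lit 6) .nil .nil)))))) 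
(.nd (nat_lit 3) (.nd (nat_lit 4) (.nd (nat_lit 5) 
(.lf (nat_lit 146503) (.g (nat_lit 2697) (.e (nat_lit 57373) (nat_lit 2) (.e (nat_lit 90173) (nat_lit 14) (.e (nat_lit 180252) (nat_lit 10) (.e (nat_lit 573482) (nat_lit 13) (.e (nat_lit 73472) (nat_lit 18) (.e (nat_lit 204821) (nat_lit 17) (.e (nat_lit 1086) (nat_lit 81) (.e (nat_lit 5949) (nat_lit 322) .nil)))))))) (.g (nat_lit 4) .nil .nil))) 
(.lf (nat_lit 146535) (.g (nat_lit 2042) (.e (nat_lit 57373) (nat_lit 2) (.e (nat_lit 90174) (nat_lit 14) (.e (nat_lit 180243) (nat_lit 5) (.e (nat_lit 532511) (nat_lit 2) (.e (nat_lit 106538) (nat_lit 12) (.e (nat_lit 57465) (nat_lit 23) (.e (nat_lit 516117) (nat_lit 1) (.e (nat_lit 164401) (nat_lit 256) .nil)))))))) (.g (nat_lit 4) .nil .nil)))) (.nd (nat_lit 5) 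
(.lf (nat_lit 146519) (.g (nat_lit 2416) (.e (nat_lit 57373) (nat_lit 2) (.e (nat_lit 90174) (nat_lit 14) (.e (nat_lit 180243) (nat_lit 5) (.e (nat_lit 532508) (nat_lit 2) (.e (nat_lit 106538) (nat_lit 12) (.e (nat_lit 57466) (nat_lit 23) (.e (nat_lit 516117) (nat_lit 1) (.e (nat_lit 164398) (nat_lit 256) .nil)))))))) (.g (nat_lit 4) .nil .nil))) 
(.lf (nat_lit 146551) (.g (nat_lit 3274) (.e (nat_lit 57373) (nat_lit 2) (.e (nat_lit 90174) (nat_lit 14) (.e (nat_lit 180243) (nat_lit 5) (.e (nat_lit 532513) (nat_lit 3) (.e (nat_lit 114714) (nat_lit 22) (.e (nat_lit 90181) (nat_lit 16) (.e (nat_lit 229376) (nat_lit 0) (.e (nat_lit 5936) (nat_lit 322) .nil)))))))) (.g (nat_lit 5) .nil .nil))))) (.nd (nat_lit 4) (.nd (nat_lit 5) 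
(.lf (nat_lit 146511) (.g (nat_lit 2739) (.e (nat_lit 57373) (nat_lit 2) (.e (nat_lit 90174) (nat_lit 14) (.e (nat_lit 180243) (nat_lit 5) (.e (nat_lit 532508) (nat_lit 2) (.e (nat_lit 106517) (nat_lit 9) (.e (nat_lit 1255) (nat_lit 92) (.e (nat_lit 98322) (nat_lit 17) (.e (nat_lit 2466) (nat_lit 157) (.e (nat_lit 5937) (nat_lit 322) .nil))))))))) (.g (nat_lit 4) .nil .nil))) 
(.lf (nat_lit 146543) (.g (nat_lit 2161) (.e (nat_lit 57373) (nat_lit 2) (.e (nat_lit 90174) (nat_lit 14) (.e (nat_lit 180243) (nat_lit 5) (.e (nat_lit 532511) (nat_lit 2) (.e (nat_lit 106542) (nat_lit 13) (.e (nat_lit 122937) (nat_lit 23) (.e (nat_lit 516117) (nat_lit 1) (.e (nat_lit 164401) (nat_lit 256) .nil)))))))) (.g (nat_lit 4) .nil .nil)))) (.nd (nat_lit 5) 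
(.lf (nat_lit 146527) (.g (nat_lit 2511) (.e (nat_lit 57373) (nat_lit 2) (.e (nat_lit 90174) (nat_lit 14) (.e (nat_lit 180243) (nat_lit 5) (.e (nat_lit 532508) (nat_lit 2) (.e (nat_lit 106542) (nat_lit 13) (.e (nat_lit 122937) (nat_lit 23) (.e (nat_lit 516115) (nat_lit 1) (.e (nat_lit 164399) (nat_lit 256) .nil)))))))) (.g (nat_lit 4) .nil .nil))) 
(.lf (nat_lit 146559) (.g (nat_lit 2517) (.e (nat_lit 57373) (nat_lit 2) (.e (nat_lit 90174) (nat_lit 14) (.e (nat_lit 180243) (nat_lit 5) (.e (nat_lit 532513) (nat_lit 3) (.e (nat_lit 114714) (nat_lit 22) (.e (nat_lit 90181) (nat_lit 16) (.e (nat_lit 229382) (nat_lit 0) (.e (nat_lit 5944) (nat_lit 322) .nil)))))))) (.g (nat_lit 4) .nil .nil)))))))))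

noncomputable def tv1948 : DT := (.nd (nat_lit 0) (.nd (nat_lit 1) (.nd (nat_lit 2) (.nd (nat_lit 3) (.nd (nat_lit 4) (.nd (nat_lit 5) 
(.lf (nat_lit 146560) (.g (nat_lit 2853) (.e (nat_lit 57373) (nat_lit 2) (.e (nat_lit 90174) (nat_lit 14) (.e (nat_lit 180243) (nat_lit 5) (.e (nat_lit 532513) (nat_lit 3) (.e (nat_lit 114714) (nat_lit 22) (.e (nat_lit 90181) (nat_lit 16) (.e (nat_lit 237312) (nat_lit 0) (.e (nat_lit 5937) (nat_lit 322) .nil)))))))) (.g (nat_lit 4) .nil .nil))) 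
(.lf (nat_lit 146592) (.g (nat_lit 2181) (.e (nat_lit 57373) (nat_lit 2) (.e (nat_lit 90174) (nat_lit 14) (.e (nat_lit 180243) (nat_lit 5) (.e (nat_lit 532515) (nat_lit 3) (.e (nat_lit 114716) (nat_lit 22) (.e (nat_lit 90181) (nat_lit 16) (.e (nat_lit 229380) (nat_lit 0) (.e (nat_lit 5951) (nat_lit 322) .nil)))))))) (.g (nat_lit 4) .nil .nil)))) (.nd (nat_lit 5) 
(.lf (nat_lit 146576) (.g (nat_lit 3143) (.e (nat_lit 57373) (nat_lit 2) (.e (nat_lit 90174) (nat_lit 14) (.e (nat_lit 180243) (nat_lit 5) (.e (nat_lit 532513) (nat_lit 3) (.e (nat_lit 114719) (nat_lit 23) (.e (nat_lit 98334) (nat_lit 18) (.e (nat_lit 164397) (nat_lit 256) .nil))))))) (.g (nat_lit 4) .nil .nil))) 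
(.lf (nat_lit 146608) (.g (nat_lit 2202) (.e (nat_lit 57373) (nat_lit 2) (.e (nat_lit 90174) (nat_lit 14) (.e (nat_lit 180243) (nat_lit 5) (.e (nat_lit 532515) (nat_lit 3) (.e (nat_lit 114719) (nat_lit 23) (.e (nat_lit 98335) (nat_lit 18) (.e (nat_lit 164402) (nat_lit 256) .nil))))))) (.g (nat_lit 4) .nil .nil))))) (.nd (nat_lit 4) (.nd (nat_lit 5) 
(.lf (nat_lit 146568) (.g (nat_lit 2923) (.e (nat_lit 57373) (nat_lit 2) (.e (nat_lit 90174) (nat_lit 14) (.e (nat_lit 180243) (nat_lit 5) (.e (nat_lit 532513) (nat_lit 3) (.e (nat_lit 114718) (nat_lit 23) (.e (nat_lit 98334) (nat_lit 18) (.e (nat_lit 164400) (nat_lit 256) .nil))))))) (.g (nat_lit 4) .nil .nil))) 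
(.lf (nat_lit 146600) (.g (nat_lit 2612) (.e (nat_lit 57373) (nat_lit 2) (.e (nat_lit 90174) (nat_lit 14) (.e (nat_lit 180243) (nat_lit 5) (.e (nat_lit 532515) (nat_lit 3) (.e (nat_lit 114718) (nat_lit 23) (.e (nat_lit 98334) (nat_lit 18) (.e (nat_lit 164397) (nat_lit 256) .nil))))))) (.g (nat_lit 4) .nil .nil)))) (.nd (nat_lit 5) 
(.lf (nat_lit 146584) (.g (nat_lit 1265) (.e (nat_lit 57373) (nat_lit 2) (.e (nat_lit 90174) (nat_lit 14) (.e (nat_lit 180243) (nat_lit 5) (.e (nat_lit 532515) (nat_lit 3) (.e (nat_lit 114716) (nat_lit 22) .nil))))) .nil)) 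
(.lf (nat_lit 146616) (.g (nat_lit 2344) (.e (nat_lit 57373) (nat_lit 2) (.e (nat_lit 90174) (nat_lit 14) (.e (nat_lit 180250) (nat_lit 10) (.e (nat_lit 573481) (nat_lit 13) (.e (nat_lit 73472) (nat_lit 18) .nil))))) .nil))))) (.nd (nat_lit 3) (.nd (nat_lit 4) (.nd (nat_lit 5) 
(.lf (nat_lit 146564) (.g (nat_lit 2766) (.e (nat_lit 57373) (nat_lit 2) (.e (nat_lit 90174) (nat_lit 14) (.e (nat_lit 180243) (nat_lit 5) (.e (nat_lit 532513) (nat_lit 3) (.e (nat_lit 114718) (nat_lit 23) (.e (nat_lit 98333) (nat_lit 18) (.e (nat_lit 164400) (nat_lit 256) .nil))))))) (.g (nat_lit 4) .nil .nil))) 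
(.lf (nat_lit 146596) (.g (nat_lit 2059) (.e (nat_lit 57373) (nat_lit 2) (.e (nat_lit 90174) (nat_lit 14) (.e (nat_lit 180243) (nat_lit 5) (.e (nat_lit 532515) (nat_lit 3) (.e (nat_lit 114718) (nat_lit 23) (.e (nat_lit 98332) (nat_lit 18) (.e (nat_lit 164398) (nat_lit 256) .nil))))))) (.g (nat_lit 4) .nil .nil)))) (.nd (nat_lit 5) 
(.lf (nat_lit 146580) (.g (nat_lit 3055) (.e (nat_lit 57373) (nat_lit 2) (.e (nat_lit 90174) (nat_lit 14) (.e (nat_lit 180243) (nat_lit 5) (.e (nat_lit 532513) (nat_lit 3) (.e (nat_lit 114719) (nat_lit 23) (.e (nat_lit 98343) (nat_lit 21) (.e (nat_lit 229708) (nat_lit 256) .nil))))))) (.g (nat_lit 4) .nil .nil))) 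
(.lf (nat_lit 146612) (.g (nat_lit 2651) (.e (nat_lit 57373) (nat_lit 2) (.e (nat_lit 90174) (nat_lit 14) (.e (nat_lit 180245) (nat_lit 5) (.e (nat_lit 532515) (nat_lit 3) (.e (nat_lit 114719) (nat_lit 23) (.e (nat_lit 98333) (nat_lit 18) (.e (nat_lit 164399) (nat_lit 256) .nil))))))) (.g (nat_lit 4) .nil .nil))))) (.nd (nat_lit 4) (.nd (nat_lit 5) 
(.lf (nat_lit 146572) (.g (nat_lit 2862) (.e (nat_lit 57373) (nat_lit 2) (.e (nat_lit 90174) (nat_lit 14) (.e (nat_lit 180243) (nat_lit 5) (.e (nat_lit 532513) (nat_lit 3) (.e (nat_lit 114719) (nat_lit 23) (.e (nat_lit 98332) (nat_lit 18) (.e (nat_lit 164402) (nat_lit 256) .nil))))))) (.g (nat_lit 4) .nil .nil))) 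
(.lf (nat_lit 146604) (.g (nat_lit 3139) (.e (nat_lit 57373) (nat_lit 2) (.e (nat_lit 90174) (nat_lit 14) (.e (nat_lit 180243) (nat_lit 5) (.e (nat_lit 532515) (nat_lit 3) (.e (nat_lit 114719) (nat_lit 23) (.e (nat_lit 98333) (nat_lit 18) (.e (nat_lit 164402) (nat_lit 256) .nil))))))) (.g (nat_lit 5) .nil .nil)))) (.nd (nat_lit 5) 
(.lf (nat_lit 146588) (.g (nat_lit 2304) (.e (nat_lit 57373) (nat_lit 2) (.e (nat_lit 90174) (nat_lit 14) (.e (nat_lit 180243) (nat_lit 5) (.e (nat_lit 532515) (nat_lit 3) (.e (nat_lit 114716) (nat_lit 22) (.e (nat_lit 90181) (nat_lit 16) (.e (nat_lit 229376) (nat_lit 0) (.e (nat_lit 5951) (nat_lit 322) .nil)))))))) (.g (nat_lit 4) .nil .nil))) 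
(.lf (nat_lit 146620) (.g (nat_lit 3014) (.e (nat_lit 57373) (nat_lit 2) (.e (nat_lit 90174) (nat_lit 14) (.e (nat_lit 180250) (nat_lit 10) (.e (nat_lit 573482) (nat_lit 13) (.e (nat_lit 65570) (nat_lit 3) (.e (nat_lit 98334) (nat_lit 18) (.e (nat_lit 171776) (nat_lit 160) .nil))))))) (.g (nat_lit 4) .nil .nil))))))) (.nd (nat_lit 2) (.nd (nat_lit 3) (.nd (nat_lit 4) (.nd (nat_lit 5) 
(.lf (nat_lit 146562) (.g (nat_lit 3140) (.e (nat_lit 57373) (nat_lit 2) (.e (nat_lit 90174) (nat_lit 14) (.e (nat_lit 180243) (nat_lit 5) (.e (nat_lit 532513) (nat_lit 3) (.e (nat_lit 114718) (nat_lit 23) (.e (nat_lit 98332) (nat_lit 18) (.e (nat_lit 164399) (nat_lit 256) .nil))))))) (.g (nat_lit 5) .nil .nil))) 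
(.lf (nat_lit 146594) (.g (nat_lit 2961) (.e (nat_lit 57373) (nat_lit 2) (.e (nat_lit 90174) (nat_lit 14) (.e (nat_lit 180243) (nat_lit 5) (.e (nat_lit 532515) (nat_lit 3) (.e (nat_lit 114716) (nat_lit 22) (.e (nat_lit 90181) (nat_lit 16) (.e (nat_lit 229382) (nat_lit 0) (.e (nat_lit 5944) (nat_lit 322) .nil)))))))) (.g (nat_lit 5) .nil .nil)))) (.nd (nat_lit 5) 
(.lf (nat_lit 146578) (.g (nat_lit 2569) (.e (nat_lit 57373) (nat_lit 2) (.e (nat_lit 90174) (nat_lit 14) (.e (nat_lit 180243) (nat_lit 5) (.e (nat_lit 532513) (nat_lit 3) (.e (nat_lit 114719) (nat_lit 23) (.e (nat_lit 98334) (nat_lit 18) (.e (nat_lit 164400) (nat_lit 256) .nil))))))) (.g (nat_lit 4) .nil .nil))) 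
(.lf (nat_lit 146610) (.g (nat_lit 2746) (.e (nat_lit 57373) (nat_lit 2) (.e (nat_lit 90174) (nat_lit 14) (.e (nat_lit 180243) (nat_lit 5) (.e (nat_lit 532515) (nat_lit 3) (.e (nat_lit 114719) (nat_lit 23) (.e (nat_lit 98344) (nat_lit 21) (.e (nat_lit 229708) (nat_lit 256) .nil))))))) (.g (nat_lit 4) .nil .nil))))) (.nd (nat_lit 4) (.nd (nat_lit 5) 
(.lf (nat_lit 146570) (.g (nat_lit 3686) (.e (nat_lit 57373) (nat_lit 2) (.e (nat_lit 90174) (nat_lit 14) (.e (nat_lit 180243) (nat_lit 5) (.e (nat_lit 532513) (nat_lit 3) (.e (nat_lit 114719) (nat_lit 23) (.e (nat_lit 98332) (nat_lit 18) (.e (nat_lit 164398) (nat_lit 256) .nil))))))) (.g (nat_lit 5) .nil .nil))) 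
(.lf (nat_lit 146602) (.g (nat_lit 3080) (.e (nat_lit 57373) (nat_lit 2) (.e (nat_lit 90174) (nat_lit 14) (.e (nat_lit 180243) (nat_lit 5) (.e (nat_lit 532515) (nat_lit 3) (.e (nat_lit 114719) (nat_lit 23) (.e (nat_lit 98332) (nat_lit 18) (.e (nat_lit 164402) (nat_lit 256) .nil))))))) (.g (nat_lit 5) .nil .nil)))) (.nd (nat_lit 5) 
(.lf (nat_lit 146586) (.g (nat_lit 1908) (.e (nat_lit 57373) (nat_lit 2) (.e (nat_lit 90174) (nat_lit 14) (.e (nat_lit 180243) (nat_lit 5) (.e (nat_lit 532515) (nat_lit 3) (.e (nat_lit 114716) (nat_lit 22) (.e (nat_lit 90164) (nat_lit 12) (.e (nat_lit 163850) (nat_lit 0) (.e (nat_lit 7936) (nat_lit 322) .nil)))))))) (.g (nat_lit 5) .nil .nil))) 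
(.lf (nat_lit 146618) (.g (nat_lit 3861) (.e (nat_lit 57373) (nat_lit 2) (.e (nat_lit 90174) (nat_lit 14) (.e (nat_lit 180250) (nat_lit 10) (.e (nat_lit 573482) (nat_lit 13) (.e (nat_lit 65569) (nat_lit 3) (.e (nat_lit 98334) (nat_lit 18) (.e (nat_lit 171776) (nat_lit 160) .nil))))))) (.g (nat_lit 5) .nil .nil)))))) (.nd (nat_lit 3) (.nd (nat_lit 4) (.nd (nat_lit 5) 
(.lf (nat_lit 146566) (.g (nat_lit 3159) (.e (nat_lit 57373) (nat_lit 2) (.e (nat_lit 90174) (nat_lit 14) (.e (nat_lit 180243) (nat_lit 5) (.e (nat_lit 532513) (nat_lit 3) (.e (nat_lit 114718) (nat_lit 23) (.e (nat_lit 98334) (nat_lit 18) (.e (nat_lit 164397) (nat_lit 256) .nil))))))) (.g (nat_lit 4) .nil .nil))) 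
(.lf (nat_lit 146598) (.g (nat_lit 4389) (.e (nat_lit 57373) (nat_lit 2) (.e (nat_lit 90174) (nat_lit 14) (.e (nat_lit 180243) (nat_lit 5) (.e (nat_lit 532515) (nat_lit 3) (.e (nat_lit 114718) (nat_lit 23) (.e (nat_lit 98333) (nat_lit 18) (.e (nat_lit 164398) (nat_lit 256) .nil))))))) (.g (nat_lit 7) .nil .nil)))) (.nd (nat_lit 5) 
(.lf (nat_lit 146582) (.g (nat_lit 1202) (.e (nat_lit 57373) (nat_lit 2) (.e (nat_lit 90174) (nat_lit 14) (.e (nat_lit 180243) (nat_lit 5) (.e (nat_lit 532515) (nat_lit 3) (.e (nat_lit 114715) (nat_lit 22) .nil))))) .nil)) 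
(.lf (nat_lit 146614) (.g (nat_lit 2345) (.e (nat_lit 57373) (nat_lit 2) (.e (nat_lit 90174) (nat_lit 14) (.e (nat_lit 180245) (nat_lit 5) (.e (nat_lit 532515) (nat_lit 3) (.e (nat_lit 114719) (nat_lit 23) (.e (nat_lit 98334) (nat_lit 18) (.e (nat_lit 164401) (nat_lit 256) .nil))))))) (.g (nat_lit 4) .nil .nil))))) (.nd (nat_lit 4) (.nd (nat_lit 5) 
(.lf (nat_lit 146574) (.g (nat_lit 5032) (.e (nat_lit 57373) (nat_lit 2) (.e (nat_lit 90174) (nat_lit 14) (.e (nat_lit 180243) (nat_lit 5) (.e (nat_lit 532513) (nat_lit 3) (.e (nat_lit 114719) (nat_lit 23) (.e (nat_lit 98333) (nat_lit 18) (.e (nat_lit 164399) (nat_lit 256) .nil))))))) (.g (nat_lit 0) .nil .nil))) 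
(.lf (nat_lit 146606) (.g (nat_lit 4874) (.e (nat_lit 57373) (nat_lit 2) (.e (nat_lit 90174) (nat_lit 14) (.e (nat_lit 180243) (nat_lit 5) (.e (nat_lit 532515) (nat_lit 3) (.e (nat_lit 114719) (nat_lit 23) (.e (nat_lit 98334) (nat_lit 18) (.e (nat_lit 164398) (nat_lit 256) .nil))))))) (.g (nat_lit 0) .nil .nil)))) (.nd (nat_lit 5) 
(.lf (nat_lit 146590) (.g (nat_lit 2559) (.e (nat_lit 57373) (nat_lit 2) (.e (nat_lit 90174) (nat_lit 14) (.e (nat_lit 180243) (nat_lit 5) (.e (nat_lit 532515) (nat_lit 3) (.e (nat_lit 114716) (nat_lit 22) (.e (nat_lit 90181) (nat_lit 16) (.e (nat_lit 229378) (nat_lit 0) (.e (nat_lit 5936) (nat_lit 322) .nil)))))))) (.g (nat_lit 4) .nil .nil))) 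
(.lf (nat_lit 146622) (.g (nat_lit 3134) (.e (nat_lit 57373) (nat_lit 2) (.e (nat_lit 90174) (nat_lit 14) (.e (nat_lit 180250) (nat_lit 10) (.e (nat_lit 573482) (nat_lit 13) (.e (nat_lit 65571) (nat_lit 3) (.e (nat_lit 98334) (nat_lit 18) (.e (nat_lit 171776) (nat_lit 160) .nil))))))) (.g (nat_lit 4) .nil .nil)))))))) 
(.nd (nat_lit 1) (.nd (nat_lit 2) (.nd (nat_lit 3) (.nd (nat_lit 4) (.nd (nat_lit 5) 
(.lf (nat_lit 146561) (.g (nat_lit 3145) (.e (nat_lit 57373) (nat_lit 2) (.e (nat_lit 90174) (nat_lit 14) (.e (nat_lit 180243) (nat_lit 5) (.e (nat_lit 532513) (nat_lit 3) (.e (nat_lit 114718) (nat_lit 23) (.e (nat_lit 98332) (nat_lit 18) (.e (nat_lit 164398) (nat_lit 256) .nil))))))) (.g (nat_lit 5) .nil .nil))) 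
(.lf (nat_lit 146593) (.g (nat_lit 2332) (.e (nat_lit 57373) (nat_lit 2) (.e (nat_lit 90174) (nat_lit 14) (.e (nat_lit 180243) (nat_lit 5) (.e (nat_lit 532515) (nat_lit 3) (.e (nat_lit 114716) (nat_lit 22) (.e (nat_lit 90181) (nat_lit 16) (.e (nat_lit 229380) (nat_lit 0) (.e (nat_lit 5952) (nat_lit 322) .nil)))))))) (.g (nat_lit 4) .nil .nil)))) (.nd (nat_lit 5) 
(.lf (nat_lit 146577) (.g (nat_lit 5190) (.e (nat_lit 57373) (nat_lit 2) (.e (nat_lit 90174) (nat_lit 14) (.e (nat_lit 180243) (nat_lit 5) (.e (nat_lit 532513) (nat_lit 3) (.e (nat_lit 114719) (nat_lit 23) (.e (nat_lit 98334) (nat_lit 18) (.e (nat_lit 164398) (nat_lit 256) .nil))))))) (.g (nat_lit 0) .nil .nil))) 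
(.lf (nat_lit 146609) (.g (nat_lit 3451) (.e (nat_lit 57373) (nat_lit 2) (.e (nat_lit 90174) (nat_lit 14) (.e (nat_lit 180243) (nat_lit 5) (.e (nat_lit 532515) (nat_lit 3) (.e (nat_lit 114719) (nat_lit 23) (.e (nat_lit 98343) (nat_lit 21) (.e (nat_lit 229708) (nat_lit 256) .nil))))))) (.g (nat_lit 5) .nil .nil))))) (.nd (nat_lit 4) (.nd (nat_lit 5) 
(.lf (nat_lit 146569) (.g (nat_lit 2864) (.e (nat_lit 57373) (nat_lit 2) (.e (nat_lit 90174) (nat_lit 14) (.e (nat_lit 180243) (nat_lit 5) (.e (nat_lit 532513) (nat_lit 3) (.e (nat_lit 114718) (nat_lit 23) (.e (nat_lit 98343) (nat_lit 21) (.e (nat_lit 229708) (nat_lit 256) .nil))))))) (.g (nat_lit 4) .nil .nil))) 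
(.lf (nat_lit 146601) (.g (nat_lit 3018) (.e (nat_lit 57373) (nat_lit 2) (.e (nat_lit 90174) (nat_lit 14) (.e (nat_lit 180243) (nat_lit 5) (.e (nat_lit 532515) (nat_lit 3) (.e (nat_lit 114719) (nat_lit 23) (.e (nat_lit 98332) (nat_lit 18) (.e (nat_lit 164401) (nat_lit 256) .nil))))))) (.g (nat_lit 6) .nil .nil)))) (.nd (nat_lit 5) 
(.lf (nat_lit 146585) (.g (nat_lit 3118) (.e (nat_lit 57373) (nat_lit 2) (.e (nat_lit 90174) (nat_lit 14) (.e (nat_lit 180243) (nat_lit 5) (.e (nat_lit 532515) (nat_lit 3) (.e (nat_lit 114716) (nat_lit 22) (.e (nat_lit 90130) (nat_lit 9) (.e (nat_lit 2717) (nat_lit 171) (.e (nat_lit 229708) (nat_lit 256) .nil)))))))) (.g (nat_lit 5) .nil .nil))) 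
(.lf (nat_lit 146617) (.g (nat_lit 3600) (.e (nat_lit 57373) (nat_lit 2) (.e (nat_lit 90174) (nat_lit 14) (.e (nat_lit 180250) (nat_lit 10) (.e (nat_lit 573482) (nat_lit 13) (.e (nat_lit 65568) (nat_lit 2) (.e (nat_lit 90165) (nat_lit 12) (.e (nat_lit 163849) (nat_lit 0) (.e (nat_lit 6830) (nat_lit 367) .nil)))))))) (.g (nat_lit 4) .nil .nil)))))) 
(.nd (nat_lit 3) (.nd (nat_lit 4) (.nd (nat_lit 5) 
(.lf (nat_lit 146565) (.g (nat_lit 3711) (.e (nat_lit 57373) (nat_lit 2) (.e (nat_lit 90174) (nat_lit 14) (.e (nat_lit 180243) (nat_lit 5) (.e (nat_lit 532513) (nat_lit 3) (.e (nat_lit 114718) (nat_lit 23) (.e (nat_lit 98333) (nat_lit 18) (.e (nat_lit 164402) (nat_lit 256) .nil))))))) (.g (nat_lit 5) .nil .nil))) 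
(.lf (nat_lit 146597) (.g (nat_lit 2054) (.e (nat_lit 57373) (nat_lit 2) (.e (nat_lit 90174) (nat_lit 14) (.e (nat_lit 180243) (nat_lit 5) (.e (nat_lit 532515) (nat_lit 3) (.e (nat_lit 114718) (nat_lit 23) (.e (nat_lit 98332) (nat_lit 18) (.e (nat_lit 164399) (nat_lit 256) .nil))))))) (.g (nat_lit 4) .nil .nil)))) (.nd (nat_lit 5) 
(.lf (nat_lit 146581) (.g (nat_lit 763) (.e (nat_lit 57373) (nat_lit 2) (.e (nat_lit 90174) (nat_lit 14) (.e (nat_lit 180243) (nat_lit 5) (.e (nat_lit 532515) (nat_lit 3) .nil)))) .nil)) 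
(.lf (nat_lit 146613) (.g (nat_lit 2605) (.e (nat_lit 57373) (nat_lit 2) (.e (nat_lit 90174) (nat_lit 14) (.e (nat_lit 180245) (nat_lit 5) (.e (nat_lit 532515) (nat_lit 3) (.e (nat_lit 114719) (nat_lit 23) (.e (nat_lit 98334) (nat_lit 18) (.e (nat_lit 164399) (nat_lit 256) .nil))))))) (.g (nat_lit 4) .nil .nil))))) (.nd (nat_lit 4) (.nd (nat_lit 5) 
(.lf (nat_lit 146573) (.g (nat_lit 2591) (.e (nat_lit 57373) (nat_lit 2) (.e (nat_lit 90174) (nat_lit 14) (.e (nat_lit 180243) (nat_lit 5) (.e (nat_lit 532513) (nat_lit 3) (.e (nat_lit 114719) (nat_lit 23) (.e (nat_lit 98333) (nat_lit 18) (.e (nat_lit 164397) (nat_lit 256) .nil))))))) (.g (nat_lit 4) .nil .nil))) 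
(.lf (nat_lit 146605) (.g (nat_lit 2467) (.e (nat_lit 57373) (nat_lit 2) (.e (nat_lit 90174) (nat_lit 14) (.e (nat_lit 180243) (nat_lit 5) (.e (nat_lit 532515) (nat_lit 3) (.e (nat_lit 114719) (nat_lit 23) (.e (nat_lit 98334) (nat_lit 18) (.e (nat_lit 164397) (nat_lit 256) .nil))))))) (.g (nat_lit 4) .nil .nil)))) (.nd (nat_lit 5) 
(.lf (nat_lit 146589) (.g (nat_lit 2455) (.e (nat_lit 57373) (nat_lit 2) (.e (nat_lit 90174) (nat_lit 14) (.e (nat_lit 180243) (nat_lit 5) (.e (nat_lit 532515) (nat_lit 3) (.e (nat_lit 114716) (nat_lit 22) (.e (nat_lit 90181) (nat_lit 16) (.e (nat_lit 229376) (nat_lit 0) (.e (nat_lit 5952) (nat_lit 322) .nil)))))))) (.g (nat_lit 4) .nil .nil))) 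
(.lf (nat_lit 146621) (.g (nat_lit 3814) (.e (nat_lit 57373) (nat_lit 2) (.e (nat_lit 90174) (nat_lit 14) (.e (nat_lit 180250) (nat_lit 10) (.e (nat_lit 573482) (nat_lit 13) (.e (nat_lit 65571) (nat_lit 3) (.e (nat_lit 98319) (nat_lit 17) (.e (nat_lit 2399) (nat_lit 157) (.e (nat_lit 6830) (nat_lit 367) .nil)))))))) (.g (nat_lit 4) .nil .nil))))))) 
(.nd (nat_lit 2) (.nd (nat_lit 3) (.nd (nat_lit 4) (.nd (nat_lit 5) 
(.lf (nat_lit 146563) (.g (nat_lit 2708) (.e (nat_lit 57373) (nat_lit 2) (.e (nat_lit 90174) (nat_lit 14) (.e (nat_lit 180243) (nat_lit 5) (.e (nat_lit 532513) (nat_lit 3) (.e (nat_lit 114718) (nat_lit 23) (.e (nat_lit 98333) (nat_lit 18) (.e (nat_lit 164397) (nat_lit 256) .nil))))))) (.g (nat_lit 4) .nil .nil))) 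
(.lf (nat_lit 146595) (.g (nat_lit 2547) (.e (nat_lit 57373) (nat_lit 2) (.e (nat_lit 90174) (nat_lit 14) (.e (nat_lit 180243) (nat_lit 5) (.e (nat_lit 532515) (nat_lit 3) (.e (nat_lit 114716) (nat_lit 22) (.e (nat_lit 90181) (nat_lit 16) (.e (nat_lit 237312) (nat_lit 0) (.e (nat_lit 5953) (nat_lit 322) .nil)))))))) (.g (nat_lit 5) .nil .nil)))) (.nd (nat_lit 5) 
(.lf (nat_lit 146579) (.g (nat_lit 3185) (.e (nat_lit 57373) (nat_lit 2) (.e (nat_lit 90174) (nat_lit 14) (.e (nat_lit 180243) (nat_lit 5) (.e (nat_lit 532513) (nat_lit 3) (.e (nat_lit 114719) (nat_lit 23) (.e (nat_lit 98335) (nat_lit 18) (.e (nat_lit 164401) (nat_lit 256) .nil))))))) (.g (nat_lit 5) .nil .nil))) 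
(.lf (nat_lit 146611) (.g (nat_lit 1057) (.e (nat_lit 57373) (nat_lit 2) (.e (nat_lit 90174) (nat_lit 14) (.e (nat_lit 180245) (nat_lit 5) (.e (nat_lit 532515) (nat_lit 3) .nil)))) .nil)))) (.nd (nat_lit 4) (.nd (nat_lit 5) 
(.lf (nat_lit 146571) (.g (nat_lit 3752) (.e (nat_lit 57373) (nat_lit 2) (.e (nat_lit 90174) (nat_lit 14) (.e (nat_lit 180243) (nat_lit 5) (.e (nat_lit 532513) (nat_lit 3) (.e (nat_lit 114719) (nat_lit 23) (.e (nat_lit 98332) (nat_lit 18) (.e (nat_lit 164399) (nat_lit 256) .nil))))))) (.g (nat_lit 5) .nil .nil))) 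
(.lf (nat_lit 146603) (.g (nat_lit 4658) (.e (nat_lit 57373) (nat_lit 2) (.e (nat_lit 90174) (nat_lit 14) (.e (nat_lit 180243) (nat_lit 5) (.e (nat_lit 532515) (nat_lit 3) (.e (nat_lit 114719) (nat_lit 23) (.e (nat_lit 98333) (nat_lit 18) (.e (nat_lit 164398) (nat_lit 256) .nil))))))) (.g (nat_lit 0) .nil .nil)))) (.nd (nat_lit 5) 
(.lf (nat_lit 146587) (.g (nat_lit 3207) (.e (nat_lit 57373) (nat_lit 2) (.e (nat_lit 90174) (nat_lit 14) (.e (nat_lit 180243) (nat_lit 5) (.e (nat_lit 532515) (nat_lit 3) (.e (nat_lit 114716) (nat_lit 22) (.e (nat_lit 90181) (nat_lit 16) (.e (nat_lit 229376) (nat_lit 0) (.e (nat_lit 5936) (nat_lit 322) .nil)))))))) (.g (nat_lit 5) .nil .nil))) 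
(.lf (nat_lit 146619) (.g (nat_lit 3174) (.e (nat_lit 57373) (nat_lit 2) (.e (nat_lit 90174) (nat_lit 14) (.e (nat_lit 180250) (nat_lit 10) (.e (nat_lit 573482) (nat_lit 13) (.e (nat_lit 65570) (nat_lit 3) (.e (nat_lit 98333) (nat_lit 18) (.e (nat_lit 171776) (nat_lit 160) .nil))))))) (.g (nat_lit 4) .nil .nil)))))) (.nd (nat_lit 3) (.nd (nat_lit 4) (.nd (nat_lit 5) 
(.lf (nat_lit 146567) (.g (nat_lit 5362) (.e (nat_lit 57373) (nat_lit 2) (.e (nat_lit 90174) (nat_lit 14) (.e (nat_lit 180243) (nat_lit 5) (.e (nat_lit 532513) (nat_lit 3) (.e (nat_lit 114718) (nat_lit 23) (.e (nat_lit 98334) (nat_lit 18) (.e (nat_lit 164398) (nat_lit 256) .nil))))))) (.g (nat_lit 0) .nil .nil))) 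
(.lf (nat_lit 146599) (.g (nat_lit 2868) (.e (nat_lit 57373) (nat_lit 2) (.e (nat_lit 90174) (nat_lit 14) (.e (nat_lit 180243) (nat_lit 5) (.e (nat_lit 532515) (nat_lit 3) (.e (nat_lit 114718) (nat_lit 23) (.e (nat_lit 98333) (nat_lit 18) (.e (nat_lit 164402) (nat_lit 256) .nil))))))) (.g (nat_lit 5) .nil .nil)))) (.nd (nat_lit 5) 
(.lf (nat_lit 146583) (.g (nat_lit 2750) (.e (nat_lit 57373) (nat_lit 2) (.e (nat_lit 90174) (nat_lit 14) (.e (nat_lit 180243) (nat_lit 5) (.e (nat_lit 532515) (nat_lit 3) (.e (nat_lit 114715) (nat_lit 22) (.e (nat_lit 90134) (nat_lit 9) (.e (nat_lit 2717) (nat_lit 171) (.e (nat_lit 229708) (nat_lit 256) .nil)))))))) (.g (nat_lit 4) .nil .nil))) 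
(.lf (nat_lit 146615) (.g (nat_lit 2651) (.e (nat_lit 57373) (nat_lit 2) (.e (nat_lit 90174) (nat_lit 14) (.e (nat_lit 180250) (nat_lit 10) (.e (nat_lit 573480) (nat_lit 13) (.e (nat_lit 73472) (nat_lit 18) (.e (nat_lit 204839) (nat_lit 21) (.e (nat_lit 123198) (nat_lit 266) .nil))))))) (.g (nat_lit 4) .nil .nil))))) (.nd (nat_lit 4) (.nd (nat_lit 5) 
(.lf (nat_lit 146575) (.g (nat_lit 3439) (.e (nat_lit 57373) (nat_lit 2) (.e (nat_lit 90174) (nat_lit 14) (.e (nat_lit 180243) (nat_lit 5) (.e (nat_lit 532513) (nat_lit 3) (.e (nat_lit 114719) (nat_lit 23) (.e (nat_lit 98333) (nat_lit 18) (.e (nat_lit 164402) (nat_lit 256) .nil))))))) (.g (nat_lit 5) .nil .nil))) 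
(.lf (nat_lit 146607) (.g (nat_lit 2955) (.e (nat_lit 57373) (nat_lit 2) (.e (nat_lit 90174) (nat_lit 14) (.e (nat_lit 180243) (nat_lit 5) (.e (nat_lit 532515) (nat_lit 3) (.e (nat_lit 114719) (nat_lit 23) (.e (nat_lit 98335) (nat_lit 18) (.e (nat_lit 164401) (nat_lit 256) .nil))))))) (.g (nat_lit 5) .nil .nil)))) (.nd (nat_lit 5) 
(.lf (nat_lit 146591) (.g (nat_lit 3158) (.e (nat_lit 57373) (nat_lit 2) (.e (nat_lit 90174) (nat_lit 14) (.e (nat_lit 180243) (nat_lit 5) (.e (nat_lit 532515) (nat_lit 3) (.e (nat_lit 114716) (nat_lit 22) (.e (nat_lit 90181) (nat_lit 16) (.e (nat_lit 229380) (nat_lit 0) (.e (nat_lit 5946) (nat_lit 322) .nil)))))))) (.g (nat_lit 5) .nil .nil))) 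
(.lf (nat_lit 146623) (.g (nat_lit 2292) (.e (nat_lit 57373) (nat_lit 2) (.e (nat_lit 90174) (nat_lit 14) (.e (nat_lit 180250) (nat_lit 10) (.e (nat_lit 573482) (nat_lit 13) (.e (nat_lit 73472) (nat_lit 18) .nil))))) .nil))))))))

noncomputable def tv1949 : DT := (.nd (nat_lit 0) (.nd (nat_lit 1) (.nd (nat_lit 2) (.nd (nat_lit 3) (.nd (nat_lit 4) (.nd (nat_lit 5) 
(.lf (nat_lit 146624) (.g (nat_lit 4841) (.e (nat_lit 57373) (nat_lit 2) (.e (nat_lit 90174) (nat_lit 14) (.e (nat_lit 180250) (nat_lit 10) (.e (nat_lit 573484) (nat_lit 13) (.e (nat_lit 65569) (nat_lit 3) (.e (nat_lit 98334) (nat_lit 18) (.e (nat_lit 171776) (nat_lit 160) .nil))))))) (.g (nat_lit 6) .nil .nil))) 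
(.lf (nat_lit 146656) (.g (nat_lit 3162) (.e (nat_lit 57373) (nat_lit 2) (.e (nat_lit 90174) (nat_lit 14) (.e (nat_lit 180251) (nat_lit 10) (.e (nat_lit 573487) (nat_lit 14) (.e (nat_lit 73746) (nat_lit 3) (.e (nat_lit 516117) (nat_lit 1) (.e (nat_lit 171776) (nat_lit 160) .nil))))))) (.g (nat_lit 4) .nil .nil)))) (.nd (nat_lit 5) 
(.lf (nat_lit 146640) (.g (nat_lit 2781) (.e (nat_lit 57373) (nat_lit 2) (.e (nat_lit 90174) (nat_lit 14) (.e (nat_lit 180250) (nat_lit 10) (.e (nat_lit 573488) (nat_lit 14) (.e (nat_lit 73747) (nat_lit 3) (.e (nat_lit 516119) (nat_lit 1) (.e (nat_lit 171776) (nat_lit 160) .nil))))))) (.g (nat_lit 4) .nil .nil))) 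
(.lf (nat_lit 146672) (.g (nat_lit 3208) (.e (nat_lit 57373) (nat_lit 2) (.e (nat_lit 90174) (nat_lit 14) (.e (nat_lit 180252) (nat_lit 10) (.e (nat_lit 573488) (nat_lit 14) (.e (nat_lit 73747) (nat_lit 3) (.e (nat_lit 516115) (nat_lit 1) (.e (nat_lit 171776) (nat_lit 160) .nil))))))) (.g (nat_lit 4) .nil .nil))))) (.nd (nat_lit 4) (.nd (nat_lit 5) 
(.lf (nat_lit 146632) (.g (nat_lit 4569) (.e (nat_lit 57373) (nat_lit 2) (.e (nat_lit 90174) (nat_lit 14) (.e (nat_lit 180250) (nat_lit 10) (.e (nat_lit 573487) (nat_lit 14) (.e (nat_lit 73746) (nat_lit 3) (.e (nat_lit 516119) (nat_lit 1) (.e (nat_lit 171776) (nat_lit 160) .nil))))))) (.g (nat_lit 5) .nil .nil))) 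
(.lf (nat_lit 146664) (.g (nat_lit 2359) (.e (nat_lit 57373) (nat_lit 2) (.e (nat_lit 90174) (nat_lit 14) (.e (nat_lit 180251) (nat_lit 10) (.e (nat_lit 573489) (nat_lit 14) (.e (nat_lit 73748) (nat_lit 3) .nil))))) .nil))) (.nd (nat_lit 5) 
(.lf (nat_lit 146648) (.g (nat_lit 502) (.e (nat_lit 57373) (nat_lit 2) (.e (nat_lit 90174) (nat_lit 14) (.e (nat_lit 180251) (nat_lit 10) .nil))) .nil)) 
(.lf (nat_lit 146680) (.g (nat_lit 2232) (.e (nat_lit 57373) (nat_lit 2) (.e (nat_lit 90176) (nat_lit 15) (.e (nat_lit 188439) (nat_lit 20) (.e (nat_lit 3272) (nat_lit 199) (.e (nat_lit 548913) (nat_lit 18) (.e (nat_lit 172070) (nat_lit 4) (.e (nat_lit 237312) (nat_lit 262) .nil))))))) (.g (nat_lit 5) .nil .nil)))))) (.nd (nat_lit 3) (.nd (nat_lit 4) (.nd (nat_lit 5) 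
(.lf (nat_lit 146628) (.g (nat_lit 2687) (.e (nat_lit 57373) (nat_lit 2) (.e (nat_lit 90174) (nat_lit 14) (.e (nat_lit 180250) (nat_lit 10) (.e (nat_lit 573485) (nat_lit 13) (.e (nat_lit 65570) (nat_lit 3) (.e (nat_lit 98334) (nat_lit 18) (.e (nat_lit 171776) (nat_lit 160) .nil))))))) (.g (nat_lit 4) .nil .nil))) 
(.lf (nat_lit 146660) (.g (nat_lit 3429) (.e (nat_lit 57373) (nat_lit 2) (.e (nat_lit 90174) (nat_lit 14) (.e (nat_lit 180251) (nat_lit 10) (.e (nat_lit 573487) (nat_lit 14) (.e (nat_lit 73747) (nat_lit 3) (.e (nat_lit 516115) (nat_lit 1) (.e (nat_lit 171776) (nat_lit 160) .nil))))))) (.g (nat_lit 4) .nil .nil)))) (.nd (nat_lit 5) 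
(.lf (nat_lit 146644) (.g (nat_lit 3316) (.e (nat_lit 57373) (nat_lit 2) (.e (nat_lit 90174) (nat_lit 14) (.e (nat_lit 180250) (nat_lit 10) (.e (nat_lit 573489) (nat_lit 14) (.e (nat_lit 73748) (nat_lit 3) (.e (nat_lit 516115) (nat_lit 1) (.e (nat_lit 171776) (nat_lit 160) .nil))))))) (.g (nat_lit 4) .nil .nil))) 
(.lf (nat_lit 146676) (.g (nat_lit 3585) (.e (nat_lit 57373) (nat_lit 2) (.e (nat_lit 90176) (nat_lit 15) (.e (nat_lit 188423) (nat_lit 11) (.e (nat_lit 336387) (nat_lit 27) (.e (nat_lit 426100) (nat_lit 1) (.e (nat_lit 164403) (nat_lit 256) .nil)))))) (.g (nat_lit 0) .nil .nil))))) (.nd (nat_lit 4) (.nd (nat_lit 5) 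
(.lf (nat_lit 146636) (.g (nat_lit 4921) (.e (nat_lit 57373) (nat_lit 2) (.e (nat_lit 90174) (nat_lit 14) (.e (nat_lit 180250) (nat_lit 10) (.e (nat_lit 573487) (nat_lit 14) (.e (nat_lit 73747) (nat_lit 3) (.e (nat_lit 516119) (nat_lit 1) (.e (nat_lit 171776) (nat_lit 160) .nil))))))) (.g (nat_lit 6) .nil .nil))) 
(.lf (nat_lit 146668) (.g (nat_lit 3207) (.e (nat_lit 57373) (nat_lit 2) (.e (nat_lit 90174) (nat_lit 14) (.e (nat_lit 180251) (nat_lit 10) (.e (nat_lit 573489) (nat_lit 14) (.e (nat_lit 73755) (nat_lit 8) (.e (nat_lit 557067) (nat_lit 9) (.e (nat_lit 2715) (nat_lit 171) (.e (nat_lit 229708) (nat_lit 256) .nil)))))))) (.g (nat_lit 4) .nil .nil)))) (.nd (nat_lit 5) 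
(.lf (nat_lit 146652) (.g (nat_lit 2696) (.e (nat_lit 57373) (nat_lit 2) (.e (nat_lit 90174) (nat_lit 14) (.e (nat_lit 180251) (nat_lit 10) (.e (nat_lit 573485) (nat_lit 13) (.e (nat_lit 65569) (nat_lit 3) (.e (nat_lit 98334) (nat_lit 18) (.e (nat_lit 171776) (nat_lit 160) .nil))))))) (.g (nat_lit 4) .nil .nil))) 
(.lf (nat_lit 146684) (.g (nat_lit 2433) (.e (nat_lit 57373) (nat_lit 2) (.e (nat_lit 90176) (nat_lit 15) (.e (nat_lit 188447) (nat_lit 22) (.e (nat_lit 196666) (nat_lit 13) (.e (nat_lit 65553) (nat_lit 0) (.e (nat_lit 991) (nat_lit 81) (.e (nat_lit 7936) (nat_lit 283) .nil))))))) (.g (nat_lit 4) .nil .nil))))))) (.nd (nat_lit 2) (.nd (nat_lit 3) (.nd (nat_lit 4) (.nd (nat_lit 5) 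
(.lf (nat_lit 146626) (.g (nat_lit 3228) (.e (nat_lit 57373) (nat_lit 2) (.e (nat_lit 90174) (nat_lit 14) (.e (nat_lit 180250) (nat_lit 10) (.e (nat_lit 573485) (nat_lit 13) (.e (nat_lit 65569) (nat_lit 3) (.e (nat_lit 98334) (nat_lit 18) (.e (nat_lit 171776) (nat_lit 160) .nil))))))) (.g (nat_lit 5) .nil .nil))) 
(.lf (nat_lit 146658) (.g (nat_lit 3076) (.e (nat_lit 57373) (nat_lit 2) (.e (nat_lit 90174) (nat_lit 14) (.e (nat_lit 180251) (nat_lit 10) (.e (nat_lit 573487) (nat_lit 14) (.e (nat_lit 73746) (nat_lit 3) (.e (nat_lit 516120) (nat_lit 1) (.e (nat_lit 171776) (nat_lit 160) .nil))))))) (.g (nat_lit 4) .nil .nil)))) (.nd (nat_lit 5) 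
(.lf (nat_lit 146642) (.g (nat_lit 3022) (.e (nat_lit 57373) (nat_lit 2) (.e (nat_lit 90174) (nat_lit 14) (.e (nat_lit 180250) (nat_lit 10) (.e (nat_lit 573489) (nat_lit 14) (.e (nat_lit 73747) (nat_lit 3) (.e (nat_lit 516115) (nat_lit 1) (.e (nat_lit 171776) (nat_lit 160) .nil))))))) (.g (nat_lit 4) .nil .nil))) 
(.lf (nat_lit 146674) (.g (nat_lit 2059) (.e (nat_lit 57373) (nat_lit 2) (.e (nat_lit 90176) (nat_lit 15) (.e (nat_lit 188421) (nat_lit 11) (.e (nat_lit 336387) (nat_lit 27) (.e (nat_lit 426107) (nat_lit 1) (.e (nat_lit 164401) (nat_lit 256) .nil)))))) (.g (nat_lit 4) .nil .nil))))) (.nd (nat_lit 4) (.nd (nat_lit 5) 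
(.lf (nat_lit 146634) (.g (nat_lit 5250) (.e (nat_lit 57373) (nat_lit 2) (.e (nat_lit 90174) (nat_lit 14) (.e (nat_lit 180250) (nat_lit 10) (.e (nat_lit 573487) (nat_lit 14) (.e (nat_lit 73747) (nat_lit 3) (.e (nat_lit 516115) (nat_lit 1) (.e (nat_lit 171776) (nat_lit 160) .nil))))))) (.g (nat_lit 6) .nil .nil))) 
(.lf (nat_lit 146666) (.g (nat_lit 3534) (.e (nat_lit 57373) (nat_lit 2) (.e (nat_lit 90174) (nat_lit 14) (.e (nat_lit 180251) (nat_lit 10) (.e (nat_lit 573489) (nat_lit 14) (.e (nat_lit 73748) (nat_lit 3) (.e (nat_lit 516119) (nat_lit 1) (.e (nat_lit 171776) (nat_lit 160) .nil))))))) (.g (nat_lit 5) .nil .nil)))) (.nd (nat_lit 5) 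
(.lf (nat_lit 146650) (.g (nat_lit 4203) (.e (nat_lit 57373) (nat_lit 2) (.e (nat_lit 90174) (nat_lit 14) (.e (nat_lit 180251) (nat_lit 10) (.e (nat_lit 573484) (nat_lit 13) (.e (nat_lit 65569) (nat_lit 3) (.e (nat_lit 98334) (nat_lit 18) (.e (nat_lit 171776) (nat_lit 160) .nil))))))) (.g (nat_lit 5) .nil .nil))) 
(.lf (nat_lit 146682) (.g (nat_lit 2610) (.e (nat_lit 57373) (nat_lit 2) (.e (nat_lit 90176) (nat_lit 15) (.e (nat_lit 188447) (nat_lit 22) (.e (nat_lit 196666) (nat_lit 13) (.e (nat_lit 65546) (nat_lit 0) (.e (nat_lit 991) (nat_lit 81) (.e (nat_lit 7936) (nat_lit 283) .nil))))))) (.g (nat_lit 5) .nil .nil)))))) (.nd (nat_lit 3) (.nd (nat_lit 4) (.nd (nat_lit 5) 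
(.lf (nat_lit 146630) (.g (nat_lit 4875) (.e (nat_lit 57373) (nat_lit 2) (.e (nat_lit 90174) (nat_lit 14) (.e (nat_lit 180250) (nat_lit 10) (.e (nat_lit 573487) (nat_lit 14) (.e (nat_lit 73746) (nat_lit 3) (.e (nat_lit 516115) (nat_lit 1) (.e (nat_lit 171776) (nat_lit 160) .nil))))))) (.g (nat_lit 6) .nil .nil))) 
(.lf (nat_lit 146662) (.g (nat_lit 1228) (.e (nat_lit 57373) (nat_lit 2) (.e (nat_lit 90174) (nat_lit 14) (.e (nat_lit 180251) (nat_lit 10) (.e (nat_lit 573489) (nat_lit 14) .nil)))) .nil))) (.nd (nat_lit 5) 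
(.lf (nat_lit 146646) (.g (nat_lit 1605) (.e (nat_lit 57373) (nat_lit 2) (.e (nat_lit 90174) (nat_lit 14) (.e (nat_lit 180250) (nat_lit 10) (.e (nat_lit 573489) (nat_lit 14) (.e (nat_lit 73755) (nat_lit 8) .nil))))) .nil)) 
(.lf (nat_lit 146678) (.g (nat_lit 220) (.e (nat_lit 57373) (nat_lit 2) (.e (nat_lit 90176) (nat_lit 15) (.e (nat_lit 196352) (nat_lit 18) .nil))) .nil)))) (.nd (nat_lit 4) (.nd (nat_lit 5) 
(.lf (nat_lit 146638) (.g (nat_lit 1900) (.e (nat_lit 57373) (nat_lit 2) (.e (nat_lit 90174) (nat_lit 14) (.e (nat_lit 180250) (nat_lit 10) (.e (nat_lit 573487) (nat_lit 14) (.e (nat_lit 73753) (nat_lit 8) .nil))))) .nil)) 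
(.lf (nat_lit 146670) (.g (nat_lit 3022) (.e (nat_lit 57373) (nat_lit 2) (.e (nat_lit 90174) (nat_lit 14) (.e (nat_lit 180252) (nat_lit 10) (.e (nat_lit 573487) (nat_lit 14) (.e (nat_lit 73747) (nat_lit 3) (.e (nat_lit 516115) (nat_lit 1) (.e (nat_lit 171776) (nat_lit 160) .nil))))))) (.g (nat_lit 4) .nil .nil)))) (.nd (nat_lit 5) 
(.lf (nat_lit 146654) (.g (nat_lit 1340) (.e (nat_lit 57373) (nat_lit 2) (.e (nat_lit 90174) (nat_lit 14) (.e (nat_lit 180251) (nat_lit 10) (.e (nat_lit 573487) (nat_lit 14) .nil)))) .nil)) 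
(.lf (nat_lit 146686) (.g (nat_lit 2668) (.e (nat_lit 57373) (nat_lit 2) (.e (nat_lit 90176) (nat_lit 15) (.e (nat_lit 188447) (nat_lit 22) (.e (nat_lit 196666) (nat_lit 13) (.e (nat_lit 65572) (nat_lit 4) (.e (nat_lit 130816) (nat_lit 241) .nil)))))) (.g (nat_lit 4) .nil .nil)))))))) (.nd (nat_lit 1) (.nd (nat_lit 2) (.nd (nat_lit 3) (.nd (nat_lit 4) (.nd (nat_lit 5) 
(.lf (nat_lit 146625) (.g (nat_lit 3563) (.e (nat_lit 57373) (nat_lit 2) (.e (nat_lit 90174) (nat_lit 14) (.e (nat_lit 180250) (nat_lit 10) (.e (nat_lit 573484) (nat_lit 13) (.e (nat_lit 65571) (nat_lit 3) (.e (nat_lit 98334) (nat_lit 18) (.e (nat_lit 171776) (nat_lit 160) .nil))))))) (.g (nat_lit 5) .nil .nil))) 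
(.lf (nat_lit 146657) (.g (nat_lit 2832) (.e (nat_lit 57373) (nat_lit 2) (.e (nat_lit 90174) (nat_lit 14) (.e (nat_lit 180251) (nat_lit 10) (.e (nat_lit 573487) (nat_lit 14) (.e (nat_lit 73746) (nat_lit 3) (.e (nat_lit 516119) (nat_lit 1) (.e (nat_lit 171776) (nat_lit 160) .nil))))))) (.g (nat_lit 4) .nil .nil)))) (.nd (nat_lit 5) 
(.lf (nat_lit 146641) (.g (nat_lit 2386) (.e (nat_lit 57373) (nat_lit 2) (.e (nat_lit 90174) (nat_lit 14) (.e (nat_lit 180250) (nat_lit 10) (.e (nat_lit 573489) (nat_lit 14) (.e (nat_lit 73747) (nat_lit 3) .nil))))) .nil)) 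
(.lf (nat_lit 146673) (.g (nat_lit 2567) (.e (nat_lit 57373) (nat_lit 2) (.e (nat_lit 90174) (nat_lit 14) (.e (nat_lit 180252) (nat_lit 10) (.e (nat_lit 573489) (nat_lit 14) (.e (nat_lit 73755) (nat_lit 8) .nil))))) .nil)))) (.nd (nat_lit 4) (.nd (nat_lit 5) 
(.lf (nat_lit 146633) (.g (nat_lit 4713) (.e (nat_lit 57373) (nat_lit 2) (.e (nat_lit 90174) (nat_lit 14) (.e (nat_lit 180250) (nat_lit 10) (.e (nat_lit 573487) (nat_lit 14) (.e (nat_lit 73746) (nat_lit 3) (.e (nat_lit 516120) (nat_lit 1) (.e (nat_lit 171776) (nat_lit 160) .nil))))))) (.g (nat_lit 6) .nil .nil))) 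
(.lf (nat_lit 146665) (.g (nat_lit 3754) (.e (nat_lit 57373) (nat_lit 2) (.e (nat_lit 90174) (nat_lit 14) (.e (nat_lit 180251) (nat_lit 10) (.e (nat_lit 573489) (nat_lit 14) (.e (nat_lit 73748) (nat_lit 3) (.e (nat_lit 516115) (nat_lit 1) (.e (nat_lit 171776) (nat_lit 160) .nil))))))) (.g (nat_lit 5) .nil .nil)))) (.nd (nat_lit 5) 
(.lf (nat_lit 146649) (.g (nat_lit 1639) (.e (nat_lit 57373) (nat_lit 2) (.e (nat_lit 90174) (nat_lit 14) (.e (nat_lit 180251) (nat_lit 10) (.e (nat_lit 573479) (nat_lit 13) .nil)))) .nil)) 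
(.lf (nat_lit 146681) (.g (nat_lit 2051) (.e (nat_lit 57373) (nat_lit 2) (.e (nat_lit 90176) (nat_lit 15) (.e (nat_lit 188447) (nat_lit 22) (.e (nat_lit 196666) (nat_lit 13) (.e (nat_lit 65546) (nat_lit 0) .nil))))) .nil))))) (.nd (nat_lit 3) (.nd (nat_lit 4) (.nd (nat_lit 5) 
(.lf (nat_lit 146629) (.g (nat_lit 2569) (.e (nat_lit 57373) (nat_lit 2) (.e (nat_lit 90174) (nat_lit 14) (.e (nat_lit 180250) (nat_lit 10) (.e (nat_lit 573485) (nat_lit 13) (.e (nat_lit 65571) (nat_lit 3) (.e (nat_lit 98334) (nat_lit 18) (.e (nat_lit 171776) (nat_lit 160) .nil))))))) (.g (nat_lit 4) .nil .nil))) 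
(.lf (nat_lit 146661) (.g (nat_lit 3082) (.e (nat_lit 57373) (nat_lit 2) (.e (nat_lit 90174) (nat_lit 14) (.e (nat_lit 180251) (nat_lit 10) (.e (nat_lit 573487) (nat_lit 14) (.e (nat_lit 73747) (nat_lit 3) (.e (nat_lit 516119) (nat_lit 1) (.e (nat_lit 171776) (nat_lit 160) .nil))))))) (.g (nat_lit 4) .nil .nil)))) (.nd (nat_lit 5) 
(.lf (nat_lit 146645) (.g (nat_lit 3096) (.e (nat_lit 57373) (nat_lit 2) (.e (nat_lit 90174) (nat_lit 14) (.e (nat_lit 180250) (nat_lit 10) (.e (nat_lit 573489) (nat_lit 14) (.e (nat_lit 73748) (nat_lit 3) (.e (nat_lit 516119) (nat_lit 1) (.e (nat_lit 171776) (nat_lit 160) .nil))))))) (.g (nat_lit 4) .nil .nil))) 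
(.lf (nat_lit 146677) (.g (nat_lit 220) (.e (nat_lit 57373) (nat_lit 2) (.e (nat_lit 90176) (nat_lit 15) (.e (nat_lit 196352) (nat_lit 11) .nil))) .nil)))) (.nd (nat_lit 4) (.nd (nat_lit 5) 
(.lf (nat_lit 146637) (.g (nat_lit 3829) (.e (nat_lit 57373) (nat_lit 2) (.e (nat_lit 90174) (nat_lit 14) (.e (nat_lit 180250) (nat_lit 10) (.e (nat_lit 573487) (nat_lit 14) (.e (nat_lit 73747) (nat_lit 3) (.e (nat_lit 516120) (nat_lit 1) (.e (nat_lit 171776) (nat_lit 160) .nil))))))) (.g (nat_lit 5) .nil .nil))) 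
(.lf (nat_lit 146669) (.g (nat_lit 2784) (.e (nat_lit 57373) (nat_lit 2) (.e (nat_lit 90174) (nat_lit 14) (.e (nat_lit 180252) (nat_lit 10) (.e (nat_lit 573487) (nat_lit 14) (.e (nat_lit 73747) (nat_lit 3) .nil))))) .nil))) (.nd (nat_lit 5) 
(.lf (nat_lit 146653) (.g (nat_lit 2654) (.e (nat_lit 57373) (nat_lit 2) (.e (nat_lit 90174) (nat_lit 14) (.e (nat_lit 180251) (nat_lit 10) (.e (nat_lit 573485) (nat_lit 13) (.e (nat_lit 65570) (nat_lit 3) (.e (nat_lit 98333) (nat_lit 18) (.e (nat_lit 171776) (nat_lit 160) .nil))))))) (.g (nat_lit 4) .nil .nil))) 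
(.lf (nat_lit 146685) (.g (nat_lit 2451) (.e (nat_lit 57373) (nat_lit 2) (.e (nat_lit 90176) (nat_lit 15) (.e (nat_lit 188447) (nat_lit 22) (.e (nat_lit 196666) (nat_lit 13) (.e (nat_lit 65563) (nat_lit 1) (.e (nat_lit 65280) (nat_lit 241) .nil)))))) (.g (nat_lit 4) .nil .nil))))))) (.nd (nat_lit 2) (.nd (nat_lit 3) (.nd (nat_lit 4) (.nd (nat_lit 5) 
(.lf (nat_lit 146627) (.g (nat_lit 2840) (.e (nat_lit 57373) (nat_lit 2) (.e (nat_lit 90174) (nat_lit 14) (.e (nat_lit 180250) (nat_lit 10) (.e (nat_lit 573485) (nat_lit 13) (.e (nat_lit 65570) (nat_lit 3) (.e (nat_lit 98333) (nat_lit 18) (.e (nat_lit 171776) (nat_lit 160) .nil))))))) (.g (nat_lit 4) .nil .nil))) 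
(.lf (nat_lit 146659) (.g (nat_lit 2526) (.e (nat_lit 57373) (nat_lit 2) (.e (nat_lit 90174) (nat_lit 14) (.e (nat_lit 180251) (nat_lit 10) (.e (nat_lit 573487) (nat_lit 14) (.e (nat_lit 73747) (nat_lit 3) .nil))))) .nil))) (.nd (nat_lit 5) 
(.lf (nat_lit 146643) (.g (nat_lit 2102) (.e (nat_lit 57373) (nat_lit 2) (.e (nat_lit 90174) (nat_lit 14) (.e (nat_lit 180250) (nat_lit 10) (.e (nat_lit 573489) (nat_lit 14) (.e (nat_lit 73748) (nat_lit 3) .nil))))) .nil)) 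
(.lf (nat_lit 146675) (.g (nat_lit 3296) (.e (nat_lit 57373) (nat_lit 2) (.e (nat_lit 90176) (nat_lit 15) (.e (nat_lit 188423) (nat_lit 11) (.e (nat_lit 336385) (nat_lit 27) (.e (nat_lit 426100) (nat_lit 1) (.e (nat_lit 164403) (nat_lit 256) .nil)))))) (.g (nat_lit 0) .nil .nil))))) (.nd (nat_lit 4) (.nd (nat_lit 5) 
(.lf (nat_lit 146635) (.g (nat_lit 4349) (.e (nat_lit 57373) (nat_lit 2) (.e (nat_lit 90174) (nat_lit 14) (.e (nat_lit 180250) (nat_lit 10) (.e (nat_lit 573487) (nat_lit 14) (.e (nat_lit 73747) (nat_lit 3) (.e (nat_lit 516117) (nat_lit 1) (.e (nat_lit 171776) (nat_lit 160) .nil))))))) (.g (nat_lit 6) .nil .nil))) 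
(.lf (nat_lit 146667) (.g (nat_lit 1896) (.e (nat_lit 57373) (nat_lit 2) (.e (nat_lit 90174) (nat_lit 14) (.e (nat_lit 180251) (nat_lit 10) (.e (nat_lit 573489) (nat_lit 14) (.e (nat_lit 73755) (nat_lit 8) .nil))))) .nil))) (.nd (nat_lit 5) 
(.lf (nat_lit 146651) (.g (nat_lit 3154) (.e (nat_lit 57373) (nat_lit 2) (.e (nat_lit 90174) (nat_lit 14) (.e (nat_lit 180251) (nat_lit 10) (.e (nat_lit 573484) (nat_lit 13) (.e (nat_lit 65571) (nat_lit 3) (.e (nat_lit 98334) (nat_lit 18) (.e (nat_lit 171776) (nat_lit 160) .nil))))))) (.g (nat_lit 4) .nil .nil))) 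
(.lf (nat_lit 146683) (.g (nat_lit 2059) (.e (nat_lit 57373) (nat_lit 2) (.e (nat_lit 90176) (nat_lit 15) (.e (nat_lit 188447) (nat_lit 22) (.e (nat_lit 196666) (nat_lit 13) (.e (nat_lit 65553) (nat_lit 0) .nil))))) .nil))))) (.nd (nat_lit 3) (.nd (nat_lit 4) (.nd (nat_lit 5) 
(.lf (nat_lit 146631) (.g (nat_lit 4797) (.e (nat_lit 57373) (nat_lit 2) (.e (nat_lit 90174) (nat_lit 14) (.e (nat_lit 180250) (nat_lit 10) (.e (nat_lit 573487) (nat_lit 14) (.e (nat_lit 73746) (nat_lit 3) (.e (nat_lit 516117) (nat_lit 1) (.e (nat_lit 171776) (nat_lit 160) .nil))))))) (.g (nat_lit 6) .nil .nil))) 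
(.lf (nat_lit 146663) (.g (nat_lit 3208) (.e (nat_lit 57373) (nat_lit 2) (.e (nat_lit 90174) (nat_lit 14) (.e (nat_lit 180251) (nat_lit 10) (.e (nat_lit 573489) (nat_lit 14) (.e (nat_lit 73747) (nat_lit 3) (.e (nat_lit 516115) (nat_lit 1) (.e (nat_lit 171776) (nat_lit 160) .nil))))))) (.g (nat_lit 4) .nil .nil)))) (.nd (nat_lit 5) 
(.lf (nat_lit 146647) (.g (nat_lit 3179) (.e (nat_lit 57373) (nat_lit 2) (.e (nat_lit 90174) (nat_lit 14) (.e (nat_lit 180250) (nat_lit 10) (.e (nat_lit 573489) (nat_lit 14) (.e (nat_lit 73755) (nat_lit 8) (.e (nat_lit 557067) (nat_lit 9) (.e (nat_lit 2715) (nat_lit 171) (.e (nat_lit 229708) (nat_lit 256) .nil)))))))) (.g (nat_lit 4) .nil .nil))) 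
(.lf (nat_lit 146679) (.g (nat_lit 501) (.e (nat_lit 57373) (nat_lit 2) (.e (nat_lit 90176) (nat_lit 15) (.e (nat_lit 188427) (nat_lit 20) .nil))) .nil)))) (.nd (nat_lit 4) (.nd (nat_lit 5) 
(.lf (nat_lit 146639) (.g (nat_lit 3429) (.e (nat_lit 57373) (nat_lit 2) (.e (nat_lit 90174) (nat_lit 14) (.e (nat_lit 180250) (nat_lit 10) (.e (nat_lit 573488) (nat_lit 14) (.e (nat_lit 73747) (nat_lit 3) (.e (nat_lit 516115) (nat_lit 1) (.e (nat_lit 171776) (nat_lit 160) .nil))))))) (.g (nat_lit 4) .nil .nil))) 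
(.lf (nat_lit 146671) (.g (nat_lit 2883) (.e (nat_lit 57373) (nat_lit 2) (.e (nat_lit 90174) (nat_lit 14) (.e (nat_lit 180252) (nat_lit 10) (.e (nat_lit 573488) (nat_lit 14) (.e (nat_lit 73747) (nat_lit 3) .nil))))) .nil))) (.nd (nat_lit 5) 
(.lf (nat_lit 146655) (.g (nat_lit 3222) (.e (nat_lit 57373) (nat_lit 2) (.e (nat_lit 90174) (nat_lit 14) (.e (nat_lit 180251) (nat_lit 10) (.e (nat_lit 573487) (nat_lit 14) (.e (nat_lit 73746) (nat_lit 3) (.e (nat_lit 516115) (nat_lit 1) (.e (nat_lit 171776) (nat_lit 160) .nil))))))) (.g (nat_lit 5) .nil .nil))) 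
(.lf (nat_lit 146687) (.g (nat_lit 2788) (.e (nat_lit 57373) (nat_lit 2) (.e (nat_lit 90176) (nat_lit 15) (.e (nat_lit 188447) (nat_lit 22) (.e (nat_lit 196666) (nat_lit 13) (.e (nat_lit 65573) (nat_lit 4) .nil))))) .nil))))))))

noncomputable def tv1950 : DT := (.nd (nat_lit 0) (.nd (nat_lit 1) (.nd (nat_lit 2) (.nd (nat_lit 3) (.nd (nat_lit 4) (.nd (nat_lit 5) 
(.lf (nat_lit 146688) (.g (nat_lit 2932) (.e (nat_lit 57373) (nat_lit 2) (.e (nat_lit 90176) (nat_lit 15) (.e (nat_lit 188447) (nat_lit 22) (.e (nat_lit 196666) (nat_lit 13) (.e (nat_lit 65574) (nat_lit 4) (.e (nat_lit 130816) (nat_lit 241) .nil)))))) (.g (nat_lit 5) .nil .nil))) 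
(.lf (nat_lit 146720) (.g (nat_lit 1182) (.e (nat_lit 57373) (nat_lit 2) (.e (nat_lit 90176) (nat_lit 15) (.e (nat_lit 188450) (nat_lit 23) (.e (nat_lit 204863) (nat_lit 27) .nil)))) .nil))) (.nd (nat_lit 5) 
(.lf (nat_lit 146704) (.g (nat_lit 2536) (.e (nat_lit 57373) (nat_lit 2) (.e (nat_lit 90176) (nat_lit 15) (.e (nat_lit 188450) (nat_lit 23) (.e (nat_lit 204852) (nat_lit 26) (.e (nat_lit 336312) (nat_lit 16) .nil))))) .nil)) 
(.lf (nat_lit 146736) (.g (nat_lit 1557) (.e (nat_lit 57373) (nat_lit 2) (.e (nat_lit 90176) (nat_lit 15) (.e (nat_lit 188450) (nat_lit 23) (.e (nat_lit 204873) (nat_lit 30) (.e (nat_lit 368662) (nat_lit 18) .nil))))) .nil)))) (.nd (nat_lit 4) (.nd (nat_lit 5) 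
(.lf (nat_lit 146696) (.g (nat_lit 1239) (.e (nat_lit 57373) (nat_lit 2) (.e (nat_lit 90176) (nat_lit 15) (.e (nat_lit 188450) (nat_lit 23) (.e (nat_lit 204849) (nat_lit 25) .nil)))) .nil)) 
(.lf (nat_lit 146728) (.g (nat_lit 2572) (.e (nat_lit 57373) (nat_lit 2) (.e (nat_lit 90176) (nat_lit 15) (.e (nat_lit 188450) (nat_lit 23) (.e (nat_lit 204863) (nat_lit 27) (.e (nat_lit 344095) (nat_lit 18) (.e (nat_lit 7936) (nat_lit 283) .nil)))))) (.g (nat_lit 5) .nil .nil)))) (.nd (nat_lit 5) 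
(.lf (nat_lit 146712) (.g (nat_lit 2679) (.e (nat_lit 57373) (nat_lit 2) (.e (nat_lit 90176) (nat_lit 15) (.e (nat_lit 188450) (nat_lit 23) (.e (nat_lit 204861) (nat_lit 26) (.e (nat_lit 335986) (nat_lit 1) (.e (nat_lit 65280) (nat_lit 241) .nil)))))) (.g (nat_lit 4) .nil .nil))) 
(.lf (nat_lit 146744) (.g (nat_lit 834) (.e (nat_lit 57373) (nat_lit 2) (.e (nat_lit 90176) (nat_lit 15) (.e (nat_lit 188459) (nat_lit 26) (.e (nat_lit 261888) (nat_lit 5) .nil)))) .nil))))) (.nd (nat_lit 3) (.nd (nat_lit 4) (.nd (nat_lit 5) 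
(.lf (nat_lit 146692) (.g (nat_lit 2558) (.e (nat_lit 57373) (nat_lit 2) (.e (nat_lit 90176) (nat_lit 15) (.e (nat_lit 188447) (nat_lit 22) (.e (nat_lit 196668) (nat_lit 14) (.e (nat_lit 73737) (nat_lit 0) (.e (nat_lit 7936) (nat_lit 283) .nil)))))) (.g (nat_lit 5) .nil .nil))) 
(.lf (nat_lit 146724) (.g (nat_lit 2448) (.e (nat_lit 57373) (nat_lit 2) (.e (nat_lit 90176) (nat_lit 15) (.e (nat_lit 188450) (nat_lit 23) (.e (nat_lit 204863) (nat_lit 27) (.e (nat_lit 344091) (nat_lit 18) (.e (nat_lit 7936) (nat_lit 283) .nil)))))) (.g (nat_lit 4) .nil .nil)))) (.nd (nat_lit 5) 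
(.lf (nat_lit 146708) (.g (nat_lit 1162) (.e (nat_lit 57373) (nat_lit 2) (.e (nat_lit 90176) (nat_lit 15) (.e (nat_lit 188450) (nat_lit 23) (.e (nat_lit 204855) (nat_lit 26) .nil)))) .nil)) 
(.lf (nat_lit 146740) (.g (nat_lit 3357) (.e (nat_lit 57373) (nat_lit 2) (.e (nat_lit 90176) (nat_lit 15) (.e (nat_lit 188450) (nat_lit 23) (.e (nat_lit 204880) (nat_lit 32) (.e (nat_lit 385047) (nat_lit 21) .nil))))) .nil)))) (.nd (nat_lit 4) (.nd (nat_lit 5) 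
(.lf (nat_lit 146700) (.g (nat_lit 2460) (.e (nat_lit 57373) (nat_lit 2) (.e (nat_lit 90176) (nat_lit 15) (.e (nat_lit 188450) (nat_lit 23) (.e (nat_lit 204852) (nat_lit 26) (.e (nat_lit 336258) (nat_lit 15) (.e (nat_lit 2450) (nat_lit 157) (.e (nat_lit 7936) (nat_lit 373) .nil))))))) (.g (nat_lit 5) .nil .nil))) 
(.lf (nat_lit 146732) (.g (nat_lit 2278) (.e (nat_lit 57373) (nat_lit 2) (.e (nat_lit 90176) (nat_lit 15) (.e (nat_lit 188450) (nat_lit 23) (.e (nat_lit 204864) (nat_lit 27) (.e (nat_lit 344095) (nat_lit 18) (.e (nat_lit 7936) (nat_lit 283) .nil)))))) (.g (nat_lit 5) .nil .nil)))) (.nd (nat_lit 5) 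
(.lf (nat_lit 146716) (.g (nat_lit 1880) (.e (nat_lit 57373) (nat_lit 2) (.e (nat_lit 90176) (nat_lit 15) (.e (nat_lit 188450) (nat_lit 23) (.e (nat_lit 204862) (nat_lit 27) (.e (nat_lit 344089) (nat_lit 18) .nil))))) .nil)) 
(.lf (nat_lit 146748) (.g (nat_lit 3081) (.e (nat_lit 57373) (nat_lit 2) (.e (nat_lit 90178) (nat_lit 15) (.e (nat_lit 188421) (nat_lit 11) (.e (nat_lit 336387) (nat_lit 27) (.e (nat_lit 426107) (nat_lit 1) (.e (nat_lit 164402) (nat_lit 256) .nil)))))) (.g (nat_lit 6) .nil .nil))))))) (.nd (nat_lit 2) (.nd (nat_lit 3) (.nd (nat_lit 4) (.nd (nat_lit 5) 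
(.lf (nat_lit 146690) (.g (nat_lit 3322) (.e (nat_lit 57373) (nat_lit 2) (.e (nat_lit 90176) (nat_lit 15) (.e (nat_lit 188447) (nat_lit 22) (.e (nat_lit 196668) (nat_lit 14) (.e (nat_lit 73729) (nat_lit 0) (.e (nat_lit 7936) (nat_lit 283) .nil)))))) (.g (nat_lit 5) .nil .nil))) 
(.lf (nat_lit 146722) (.g (nat_lit 2554) (.e (nat_lit 57373) (nat_lit 2) (.e (nat_lit 90176) (nat_lit 15) (.e (nat_lit 188450) (nat_lit 23) (.e (nat_lit 204863) (nat_lit 27) (.e (nat_lit 344089) (nat_lit 18) (.e (nat_lit 7936) (nat_lit 283) .nil)))))) (.g (nat_lit 5) .nil .nil)))) (.nd (nat_lit 5) 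
(.lf (nat_lit 146706) (.g (nat_lit 2536) (.e (nat_lit 57373) (nat_lit 2) (.e (nat_lit 90176) (nat_lit 15) (.e (nat_lit 188450) (nat_lit 23) (.e (nat_lit 204852) (nat_lit 26) (.e (nat_lit 336339) (nat_lit 21) .nil))))) .nil)) 
(.lf (nat_lit 146738) (.g (nat_lit 3649) (.e (nat_lit 57373) (nat_lit 2) (.e (nat_lit 90176) (nat_lit 15) (.e (nat_lit 188450) (nat_lit 23) (.e (nat_lit 204880) (nat_lit 32) (.e (nat_lit 385044) (nat_lit 21) .nil))))) .nil)))) (.nd (nat_lit 4) (.nd (nat_lit 5) 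
(.lf (nat_lit 146698) (.g (nat_lit 2176) (.e (nat_lit 57373) (nat_lit 2) (.e (nat_lit 90176) (nat_lit 15) (.e (nat_lit 188450) (nat_lit 23) (.e (nat_lit 204852) (nat_lit 26) (.e (nat_lit 336240) (nat_lit 15) .nil))))) .nil)) 
(.lf (nat_lit 146730) (.g (nat_lit 2599) (.e (nat_lit 57373) (nat_lit 2) (.e (nat_lit 90176) (nat_lit 15) (.e (nat_lit 188450) (nat_lit 23) (.e (nat_lit 204863) (nat_lit 27) (.e (nat_lit 344101) (nat_lit 18) .nil))))) .nil))) (.nd (nat_lit 5) 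
(.lf (nat_lit 146714) (.g (nat_lit 3347) (.e (nat_lit 57373) (nat_lit 2) (.e (nat_lit 90176) (nat_lit 15) (.e (nat_lit 188450) (nat_lit 23) (.e (nat_lit 204861) (nat_lit 26) (.e (nat_lit 335988) (nat_lit 1) (.e (nat_lit 65280) (nat_lit 241) .nil)))))) (.g (nat_lit 5) .nil .nil))) 
(.lf (nat_lit 146746) (.g (nat_lit 3437) (.e (nat_lit 57373) (nat_lit 2) (.e (nat_lit 90178) (nat_lit 15) (.e (nat_lit 188421) (nat_lit 11) (.e (nat_lit 336387) (nat_lit 27) (.e (nat_lit 426100) (nat_lit 1) (.e (nat_lit 164398) (nat_lit 256) .nil)))))) (.g (nat_lit 0) .nil .nil)))))) (.nd (nat_lit 3) (.nd (nat_lit 4) (.nd (nat_lit 5) 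
(.lf (nat_lit 146694) (.g (nat_lit 3026) (.e (nat_lit 57373) (nat_lit 2) (.e (nat_lit 90176) (nat_lit 15) (.e (nat_lit 188447) (nat_lit 22) (.e (nat_lit 196681) (nat_lit 17) (.e (nat_lit 131089) (nat_lit 1) (.e (nat_lit 65280) (nat_lit 241) .nil)))))) (.g (nat_lit 5) .nil .nil))) 
(.lf (nat_lit 146726) (.g (nat_lit 2617) (.e (nat_lit 57373) (nat_lit 2) (.e (nat_lit 90176) (nat_lit 15) (.e (nat_lit 188450) (nat_lit 23) (.e (nat_lit 204863) (nat_lit 27) (.e (nat_lit 344093) (nat_lit 18) .nil))))) .nil))) (.nd (nat_lit 5) 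
(.lf (nat_lit 146710) (.g (nat_lit 2154) (.e (nat_lit 57373) (nat_lit 2) (.e (nat_lit 90176) (nat_lit 15) (.e (nat_lit 188450) (nat_lit 23) (.e (nat_lit 204855) (nat_lit 26) (.e (nat_lit 336030) (nat_lit 4) (.e (nat_lit 130816) (nat_lit 241) .nil)))))) (.g (nat_lit 4) .nil .nil))) 
(.lf (nat_lit 146742) (.g (nat_lit 1368) (.e (nat_lit 57373) (nat_lit 2) (.e (nat_lit 90176) (nat_lit 15) (.e (nat_lit 188450) (nat_lit 23) (.e (nat_lit 204881) (nat_lit 32) .nil)))) .nil)))) (.nd (nat_lit 4) (.nd (nat_lit 5) 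
(.lf (nat_lit 146702) (.g (nat_lit 2462) (.e (nat_lit 57373) (nat_lit 2) (.e (nat_lit 90176) (nat_lit 15) (.e (nat_lit 188450) (nat_lit 23) (.e (nat_lit 204852) (nat_lit 26) (.e (nat_lit 336309) (nat_lit 16) (.e (nat_lit 171776) (nat_lit 172) .nil)))))) (.g (nat_lit 4) .nil .nil))) 
(.lf (nat_lit 146734) (.g (nat_lit 1576) (.e (nat_lit 57373) (nat_lit 2) (.e (nat_lit 90176) (nat_lit 15) (.e (nat_lit 188450) (nat_lit 23) (.e (nat_lit 204872) (nat_lit 30) (.e (nat_lit 368662) (nat_lit 18) .nil))))) .nil))) (.nd (nat_lit 5) 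
(.lf (nat_lit 146718) (.g (nat_lit 1953) (.e (nat_lit 57373) (nat_lit 2) (.e (nat_lit 90176) (nat_lit 15) (.e (nat_lit 188450) (nat_lit 23) (.e (nat_lit 204862) (nat_lit 27) (.e (nat_lit 344095) (nat_lit 18) .nil))))) .nil)) 
(.lf (nat_lit 146750) (.g (nat_lit 278) (.e (nat_lit 57373) (nat_lit 2) (.e (nat_lit 90178) (nat_lit 15) (.e (nat_lit 196352) (nat_lit 11) .nil))) .nil))))))) (.nd (nat_lit 1) (.nd (nat_lit 2) (.nd (nat_lit 3) (.nd (nat_lit 4) (.nd (nat_lit 5) 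
(.lf (nat_lit 146689) (.g (nat_lit 1351) (.e (nat_lit 57373) (nat_lit 2) (.e (nat_lit 90176) (nat_lit 15) (.e (nat_lit 188447) (nat_lit 22) (.e (nat_lit 196668) (nat_lit 14) .nil)))) .nil)) 
(.lf (nat_lit 146721) (.g (nat_lit 2321) (.e (nat_lit 57373) (nat_lit 2) (.e (nat_lit 90176) (nat_lit 15) (.e (nat_lit 188450) (nat_lit 23) (.e (nat_lit 204863) (nat_lit 27) (.e (nat_lit 344088) (nat_lit 18) (.e (nat_lit 7936) (nat_lit 283) .nil)))))) (.g (nat_lit 4) .nil .nil)))) (.nd (nat_lit 5) 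
(.lf (nat_lit 146705) (.g (nat_lit 2255) (.e (nat_lit 57373) (nat_lit 2) (.e (nat_lit 90176) (nat_lit 15) (.e (nat_lit 188450) (nat_lit 23) (.e (nat_lit 204852) (nat_lit 26) (.e (nat_lit 336314) (nat_lit 16) .nil))))) .nil)) 
(.lf (nat_lit 146737) (.g (nat_lit 1442) (.e (nat_lit 57373) (nat_lit 2) (.e (nat_lit 90176) (nat_lit 15) (.e (nat_lit 188450) (nat_lit 23) (.e (nat_lit 204874) (nat_lit 30) .nil)))) .nil)))) (.nd (nat_lit 4) (.nd (nat_lit 5) 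
(.lf (nat_lit 146697) (.g (nat_lit 2128) (.e (nat_lit 57373) (nat_lit 2) (.e (nat_lit 90176) (nat_lit 15) (.e (nat_lit 188450) (nat_lit 23) (.e (nat_lit 204850) (nat_lit 26) (.e (nat_lit 335997) (nat_lit 1) (.e (nat_lit 65280) (nat_lit 241) .nil)))))) (.g (nat_lit 4) .nil .nil))) 
(.lf (nat_lit 146729) (.g (nat_lit 3127) (.e (nat_lit 57373) (nat_lit 2) (.e (nat_lit 90176) (nat_lit 15) (.e (nat_lit 188450) (nat_lit 23) (.e (nat_lit 204863) (nat_lit 27) (.e (nat_lit 344096) (nat_lit 18) (.e (nat_lit 7936) (nat_lit 283) .nil)))))) (.g (nat_lit 5) .nil .nil)))) (.nd (nat_lit 5) 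
(.lf (nat_lit 146713) (.g (nat_lit 2676) (.e (nat_lit 57373) (nat_lit 2) (.e (nat_lit 90176) (nat_lit 15) (.e (nat_lit 188450) (nat_lit 23) (.e (nat_lit 204861) (nat_lit 26) (.e (nat_lit 335987) (nat_lit 1) (.e (nat_lit 65280) (nat_lit 241) .nil)))))) (.g (nat_lit 4) .nil .nil))) 
(.lf (nat_lit 146745) (.g (nat_lit 3506) (.e (nat_lit 57373) (nat_lit 2) (.e (nat_lit 90178) (nat_lit 15) (.e (nat_lit 188421) (nat_lit 11) (.e (nat_lit 336387) (nat_lit 27) (.e (nat_lit 426098) (nat_lit 1) (.e (nat_lit 164398) (nat_lit 256) .nil)))))) (.g (nat_lit 0) .nil .nil)))))) (.nd (nat_lit 3) (.nd (nat_lit 4) (.nd (nat_lit 5) 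
(.lf (nat_lit 146693) (.g (nat_lit 3509) (.e (nat_lit 57373) (nat_lit 2) (.e (nat_lit 90176) (nat_lit 15) (.e (nat_lit 188447) (nat_lit 22) (.e (nat_lit 196670) (nat_lit 14) (.e (nat_lit 73729) (nat_lit 0) (.e (nat_lit 7936) (nat_lit 283) .nil)))))) (.g (nat_lit 5) .nil .nil))) 
(.lf (nat_lit 146725) (.g (nat_lit 2528) (.e (nat_lit 57373) (nat_lit 2) (.e (nat_lit 90176) (nat_lit 15) (.e (nat_lit 188450) (nat_lit 23) (.e (nat_lit 204863) (nat_lit 27) (.e (nat_lit 344092) (nat_lit 18) .nil))))) .nil))) (.nd (nat_lit 5) 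
(.lf (nat_lit 146709) (.g (nat_lit 2238) (.e (nat_lit 57373) (nat_lit 2) (.e (nat_lit 90176) (nat_lit 15) (.e (nat_lit 188450) (nat_lit 23) (.e (nat_lit 204855) (nat_lit 26) (.e (nat_lit 335992) (nat_lit 1) .nil))))) .nil)) 
(.lf (nat_lit 146741) (.g (nat_lit 2456) (.e (nat_lit 57373) (nat_lit 2) (.e (nat_lit 90176) (nat_lit 15) (.e (nat_lit 188450) (nat_lit 23) (.e (nat_lit 204880) (nat_lit 32) (.e (nat_lit 385049) (nat_lit 21) (.e (nat_lit 7936) (nat_lit 373) .nil)))))) (.g (nat_lit 5) .nil .nil))))) (.nd (nat_lit 4) (.nd (nat_lit 5) 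
(.lf (nat_lit 146701) (.g (nat_lit 2190) (.e (nat_lit 57373) (nat_lit 2) (.e (nat_lit 90176) (nat_lit 15) (.e (nat_lit 188450) (nat_lit 23) (.e (nat_lit 204852) (nat_lit 26) (.e (nat_lit 336261) (nat_lit 15) (.e (nat_lit 2515) (nat_lit 157) (.e (nat_lit 7936) (nat_lit 373) .nil))))))) (.g (nat_lit 4) .nil .nil))) 
(.lf (nat_lit 146733) (.g (nat_lit 1889) (.e (nat_lit 57373) (nat_lit 2) (.e (nat_lit 90176) (nat_lit 15) (.e (nat_lit 188450) (nat_lit 23) (.e (nat_lit 204864) (nat_lit 27) (.e (nat_lit 344096) (nat_lit 18) .nil))))) .nil))) (.nd (nat_lit 5) 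
(.lf (nat_lit 146717) (.g (nat_lit 2041) (.e (nat_lit 57373) (nat_lit 2) (.e (nat_lit 90176) (nat_lit 15) (.e (nat_lit 188450) (nat_lit 23) (.e (nat_lit 204862) (nat_lit 27) (.e (nat_lit 344090) (nat_lit 18) (.e (nat_lit 7936) (nat_lit 283) .nil)))))) (.g (nat_lit 4) .nil .nil))) 
(.lf (nat_lit 146749) (.g (nat_lit 3686) (.e (nat_lit 57373) (nat_lit 2) (.e (nat_lit 90178) (nat_lit 15) (.e (nat_lit 188421) (nat_lit 11) (.e (nat_lit 336387) (nat_lit 27) (.e (nat_lit 426108) (nat_lit 1) (.e (nat_lit 164402) (nat_lit 256) .nil)))))) (.g (nat_lit 0) .nil .nil))))))) (.nd (nat_lit 2) (.nd (nat_lit 3) (.nd (nat_lit 4) (.nd (nat_lit 5) 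
(.lf (nat_lit 146691) (.g (nat_lit 3156) (.e (nat_lit 57373) (nat_lit 2) (.e (nat_lit 90176) (nat_lit 15) (.e (nat_lit 188447) (nat_lit 22) (.e (nat_lit 196668) (nat_lit 14) (.e (nat_lit 73733) (nat_lit 0) (.e (nat_lit 7936) (nat_lit 283) .nil)))))) (.g (nat_lit 5) .nil .nil))) 
(.lf (nat_lit 146723) (.g (nat_lit 2454) (.e (nat_lit 57373) (nat_lit 2) (.e (nat_lit 90176) (nat_lit 15) (.e (nat_lit 188450) (nat_lit 23) (.e (nat_lit 204863) (nat_lit 27) (.e (nat_lit 344090) (nat_lit 18) (.e (nat_lit 7936) (nat_lit 283) .nil)))))) (.g (nat_lit 4) .nil .nil)))) (.nd (nat_lit 5) 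
(.lf (nat_lit 146707) (.g (nat_lit 2588) (.e (nat_lit 57373) (nat_lit 2) (.e (nat_lit 90176) (nat_lit 15) (.e (nat_lit 188450) (nat_lit 23) (.e (nat_lit 204852) (nat_lit 26) (.e (nat_lit 336340) (nat_lit 21) (.e (nat_lit 237312) (nat_lit 172) .nil)))))) (.g (nat_lit 5) .nil .nil))) 
(.lf (nat_lit 146739) (.g (nat_lit 3528) (.e (nat_lit 57373) (nat_lit 2) (.e (nat_lit 90176) (nat_lit 15) (.e (nat_lit 188450) (nat_lit 23) (.e (nat_lit 204880) (nat_lit 32) (.e (nat_lit 385046) (nat_lit 21) .nil))))) .nil)))) (.nd (nat_lit 4) (.nd (nat_lit 5) 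
(.lf (nat_lit 146699) (.g (nat_lit 2259) (.e (nat_lit 57373) (nat_lit 2) (.e (nat_lit 90176) (nat_lit 15) (.e (nat_lit 188450) (nat_lit 23) (.e (nat_lit 204852) (nat_lit 26) (.e (nat_lit 336257) (nat_lit 15) .nil))))) .nil)) 
(.lf (nat_lit 146731) (.g (nat_lit 2491) (.e (nat_lit 57373) (nat_lit 2) (.e (nat_lit 90176) (nat_lit 15) (.e (nat_lit 188450) (nat_lit 23) (.e (nat_lit 204863) (nat_lit 27) (.e (nat_lit 344102) (nat_lit 18) (.e (nat_lit 7936) (nat_lit 283) .nil)))))) (.g (nat_lit 4) .nil .nil)))) (.nd (nat_lit 5) 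
(.lf (nat_lit 146715) (.g (nat_lit 1877) (.e (nat_lit 57373) (nat_lit 2) (.e (nat_lit 90176) (nat_lit 15) (.e (nat_lit 188450) (nat_lit 23) (.e (nat_lit 204862) (nat_lit 27) (.e (nat_lit 344088) (nat_lit 18) .nil))))) .nil)) 
(.lf (nat_lit 146747) (.g (nat_lit 4189) (.e (nat_lit 57373) (nat_lit 2) (.e (nat_lit 90178) (nat_lit 15) (.e (nat_lit 188421) (nat_lit 11) (.e (nat_lit 336387) (nat_lit 27) (.e (nat_lit 426100) (nat_lit 1) (.e (nat_lit 164403) (nat_lit 256) .nil)))))) (.g (nat_lit 0) .nil .nil)))))) (.nd (nat_lit 3) (.nd (nat_lit 4) (.nd (nat_lit 5) 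
(.lf (nat_lit 146695) (.g (nat_lit 333) (.e (nat_lit 57373) (nat_lit 2) (.e (nat_lit 90176) (nat_lit 15) (.e (nat_lit 188450) (nat_lit 23) .nil))) .nil)) 
(.lf (nat_lit 146727) (.g (nat_lit 2643) (.e (nat_lit 57373) (nat_lit 2) (.e (nat_lit 90176) (nat_lit 15) (.e (nat_lit 188450) (nat_lit 23) (.e (nat_lit 204863) (nat_lit 27) (.e (nat_lit 344094) (nat_lit 18) (.e (nat_lit 7936) (nat_lit 283) .nil)))))) (.g (nat_lit 5) .nil .nil)))) (.nd (nat_lit 5) 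
(.lf (nat_lit 146711) (.g (nat_lit 1725) (.e (nat_lit 57373) (nat_lit 2) (.e (nat_lit 90176) (nat_lit 15) (.e (nat_lit 188450) (nat_lit 23) (.e (nat_lit 204858) (nat_lit 26) .nil)))) .nil)) 
(.lf (nat_lit 146743) (.g (nat_lit 1894) (.e (nat_lit 57373) (nat_lit 2) (.e (nat_lit 90176) (nat_lit 15) (.e (nat_lit 188450) (nat_lit 23) (.e (nat_lit 204885) (nat_lit 33) (.e (nat_lit 401429) (nat_lit 4) .nil))))) .nil)))) (.nd (nat_lit 4) (.nd (nat_lit 5) 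
(.lf (nat_lit 146703) (.g (nat_lit 2519) (.e (nat_lit 57373) (nat_lit 2) (.e (nat_lit 90176) (nat_lit 15) (.e (nat_lit 188450) (nat_lit 23) (.e (nat_lit 204852) (nat_lit 26) (.e (nat_lit 336310) (nat_lit 16) (.e (nat_lit 171776) (nat_lit 172) .nil)))))) (.g (nat_lit 5) .nil .nil))) 
(.lf (nat_lit 146735) (.g (nat_lit 1220) (.e (nat_lit 57373) (nat_lit 2) (.e (nat_lit 90176) (nat_lit 15) (.e (nat_lit 188450) (nat_lit 23) (.e (nat_lit 204873) (nat_lit 30) .nil)))) .nil))) (.nd (nat_lit 5) 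
(.lf (nat_lit 146719) (.g (nat_lit 1773) (.e (nat_lit 57373) (nat_lit 2) (.e (nat_lit 90176) (nat_lit 15) (.e (nat_lit 188450) (nat_lit 23) (.e (nat_lit 204862) (nat_lit 27) (.e (nat_lit 344097) (nat_lit 18) .nil))))) .nil)) 
(.lf (nat_lit 146751) (.g (nat_lit 278) (.e (nat_lit 57373) (nat_lit 2) (.e (nat_lit 90178) (nat_lit 15) (.e (nat_lit 196352) (nat_lit 18) .nil))) .nil))))))))

noncomputable def tv1951 : DT := (.nd (nat_lit 0) (.nd (nat_lit 1) (.nd (nat_lit 2) (.nd (nat_lit 3) (.nd (nat_lit 4) (.nd (nat_lit 5) 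
(.lf (nat_lit 146752) (.g (nat_lit 1120) (.e (nat_lit 57373) (nat_lit 2) (.e (nat_lit 90178) (nat_lit 15) (.e (nat_lit 188440) (nat_lit 20) (.e (nat_lit 3271) (nat_lit 199) .nil)))) .nil)) 
(.lf (nat_lit 146784) (.g (nat_lit 2347) (.e (nat_lit 57373) (nat_lit 2) (.e (nat_lit 90185) (nat_lit 17) (.e (nat_lit 237592) (nat_lit 3) (.e (nat_lit 204809) (nat_lit 9) (.e (nat_lit 426124) (nat_lit 2) (.e (nat_lit 196658) (nat_lit 12) (.e (nat_lit 57348) (nat_lit 0) (.e (nat_lit 7697) (nat_lit 412) .nil)))))))) (.g (nat_lit 4) .nil .nil)))) (.nd (nat_lit 5) 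
(.lf (nat_lit 146768) (.g (nat_lit 2603) (.e (nat_lit 57373) (nat_lit 2) (.e (nat_lit 90185) (nat_lit 17) (.e (nat_lit 237590) (nat_lit 2) (.e (nat_lit 196654) (nat_lit 11) (.e (nat_lit 16412) (nat_lit 2) (.e (nat_lit 196658) (nat_lit 12) (.e (nat_lit 57348) (nat_lit 0) (.e (nat_lit 7695) (nat_lit 412) .nil)))))))) (.g (nat_lit 4) .nil .nil))) 
(.lf (nat_lit 146800) (.g (nat_lit 4203) (.e (nat_lit 57373) (nat_lit 2) (.e (nat_lit 90185) (nat_lit 17) (.e (nat_lit 237594) (nat_lit 3) (.e (nat_lit 204809) (nat_lit 9) (.e (nat_lit 426139) (nat_lit 3) (.e (nat_lit 204829) (nat_lit 18) (.e (nat_lit 65280) (nat_lit 166) .nil))))))) (.g (nat_lit 6) .nil .nil))))) (.nd (nat_lit 4) (.nd (nat_lit 5) 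
(.lf (nat_lit 146760) (.g (nat_lit 2969) (.e (nat_lit 57373) (nat_lit 2) (.e (nat_lit 90185) (nat_lit 17) (.e (nat_lit 237587) (nat_lit 2) (.e (nat_lit 196654) (nat_lit 11) (.e (nat_lit 16412) (nat_lit 2) (.e (nat_lit 196677) (nat_lit 16) (.e (nat_lit 122880) (nat_lit 0) (.e (nat_lit 7695) (nat_lit 412) .nil)))))))) (.g (nat_lit 4) .nil .nil))) 
(.lf (nat_lit 146792) (.g (nat_lit 824) (.e (nat_lit 57373) (nat_lit 2) (.e (nat_lit 90185) (nat_lit 17) (.e (nat_lit 237594) (nat_lit 3) .nil))) .nil))) (.nd (nat_lit 5) 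
(.lf (nat_lit 146776) (.g (nat_lit 3879) (.e (nat_lit 57373) (nat_lit 2) (.e (nat_lit 90185) (nat_lit 17) (.e (nat_lit 237590) (nat_lit 2) (.e (nat_lit 196654) (nat_lit 11) (.e (nat_lit 16416) (nat_lit 3) (.e (nat_lit 204815) (nat_lit 17) (.e (nat_lit 974) (nat_lit 81) (.e (nat_lit 7697) (nat_lit 412) .nil)))))))) (.g (nat_lit 5) .nil .nil))) 
(.lf (nat_lit 146808) (.g (nat_lit 1448) (.e (nat_lit 57373) (nat_lit 2) (.e (nat_lit 90185) (nat_lit 17) (.e (nat_lit 237601) (nat_lit 9) (.e (nat_lit 426566) (nat_lit 34) (.e (nat_lit 393233) (nat_lit 17) (.e (nat_lit 2483) (nat_lit 157) (.e (nat_lit 5949) (nat_lit 322) .nil))))))) (.g (nat_lit 4) .nil .nil)))))) (.nd (nat_lit 3) (.nd (nat_lit 4) (.nd (nat_lit 5) 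
(.lf (nat_lit 146756) (.g (nat_lit 2530) (.e (nat_lit 57373) (nat_lit 2) (.e (nat_lit 90185) (nat_lit 17) (.e (nat_lit 237587) (nat_lit 2) (.e (nat_lit 196654) (nat_lit 11) (.e (nat_lit 16412) (nat_lit 2) (.e (nat_lit 196658) (nat_lit 12) (.e (nat_lit 57348) (nat_lit 0) (.e (nat_lit 7697) (nat_lit 412) .nil)))))))) (.g (nat_lit 4) .nil .nil))) 
(.lf (nat_lit 146788) (.g (nat_lit 3397) (.e (nat_lit 57373) (nat_lit 2) (.e (nat_lit 90185) (nat_lit 17) (.e (nat_lit 237592) (nat_lit 3) (.e (nat_lit 204809) (nat_lit 9) (.e (nat_lit 426139) (nat_lit 3) (.e (nat_lit 204815) (nat_lit 17) (.e (nat_lit 974) (nat_lit 81) (.e (nat_lit 7695) (nat_lit 412) .nil)))))))) (.g (nat_lit 5) .nil .nil)))) (.nd (nat_lit 5) 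
(.lf (nat_lit 146772) (.g (nat_lit 2206) (.e (nat_lit 57373) (nat_lit 2) (.e (nat_lit 90185) (nat_lit 17) (.e (nat_lit 237590) (nat_lit 2) (.e (nat_lit 196654) (nat_lit 11) (.e (nat_lit 16412) (nat_lit 2) (.e (nat_lit 196661) (nat_lit 12) (.e (nat_lit 57353) (nat_lit 0) (.e (nat_lit 7697) (nat_lit 412) .nil)))))))) (.g (nat_lit 4) .nil .nil))) 
(.lf (nat_lit 146804) (.g (nat_lit 2435) (.e (nat_lit 57373) (nat_lit 2) (.e (nat_lit 90185) (nat_lit 17) (.e (nat_lit 237601) (nat_lit 9) (.e (nat_lit 426479) (nat_lit 27) (.e (nat_lit 336421) (nat_lit 28) (.e (nat_lit 434216) (nat_lit 18) (.e (nat_lit 5946) (nat_lit 322) .nil))))))) (.g (nat_lit 5) .nil .nil))))) (.nd (nat_lit 4) (.nd (nat_lit 5) 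
(.lf (nat_lit 146764) (.g (nat_lit 2989) (.e (nat_lit 57373) (nat_lit 2) (.e (nat_lit 90185) (nat_lit 17) (.e (nat_lit 237587) (nat_lit 2) (.e (nat_lit 196654) (nat_lit 11) (.e (nat_lit 16416) (nat_lit 3) (.e (nat_lit 204816) (nat_lit 17) (.e (nat_lit 974) (nat_lit 81) (.e (nat_lit 7695) (nat_lit 412) .nil)))))))) (.g (nat_lit 4) .nil .nil))) 
(.lf (nat_lit 146796) (.g (nat_lit 3293) (.e (nat_lit 57373) (nat_lit 2) (.e (nat_lit 90185) (nat_lit 17) (.e (nat_lit 237594) (nat_lit 3) (.e (nat_lit 204809) (nat_lit 9) (.e (nat_lit 426124) (nat_lit 2) (.e (nat_lit 196677) (nat_lit 16) (.e (nat_lit 122880) (nat_lit 0) (.e (nat_lit 7695) (nat_lit 412) .nil)))))))) (.g (nat_lit 5) .nil .nil)))) (.nd (nat_lit 5) 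
(.lf (nat_lit 146780) (.g (nat_lit 3594) (.e (nat_lit 57373) (nat_lit 2) (.e (nat_lit 90185) (nat_lit 17) (.e (nat_lit 237590) (nat_lit 2) (.e (nat_lit 196654) (nat_lit 11) (.e (nat_lit 16416) (nat_lit 3) (.e (nat_lit 204830) (nat_lit 18) (.e (nat_lit 65280) (nat_lit 166) .nil))))))) (.g (nat_lit 5) .nil .nil))) 
(.lf (nat_lit 146812) (.g (nat_lit 3074) (.e (nat_lit 57373) (nat_lit 2) (.e (nat_lit 90185) (nat_lit 17) (.e (nat_lit 237601) (nat_lit 9) (.e (nat_lit 426566) (nat_lit 34) (.e (nat_lit 393251) (nat_lit 18) (.e (nat_lit 164402) (nat_lit 256) .nil)))))) (.g (nat_lit 5) .nil .nil))))))) (.nd (nat_lit 2) (.nd (nat_lit 3) (.nd (nat_lit 4) (.nd (nat_lit 5) 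
(.lf (nat_lit 146754) (.g (nat_lit 527) (.e (nat_lit 57373) (nat_lit 2) (.e (nat_lit 90178) (nat_lit 15) (.e (nat_lit 188459) (nat_lit 26) .nil))) .nil)) 
(.lf (nat_lit 146786) (.g (nat_lit 2718) (.e (nat_lit 57373) (nat_lit 2) (.e (nat_lit 90185) (nat_lit 17) (.e (nat_lit 237592) (nat_lit 3) (.e (nat_lit 204809) (nat_lit 9) (.e (nat_lit 426124) (nat_lit 2) (.e (nat_lit 196677) (nat_lit 16) (.e (nat_lit 122881) (nat_lit 0) (.e (nat_lit 7695) (nat_lit 412) .nil)))))))) (.g (nat_lit 5) .nil .nil)))) (.nd (nat_lit 5) 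
(.lf (nat_lit 146770) (.g (nat_lit 2324) (.e (nat_lit 57373) (nat_lit 2) (.e (nat_lit 90185) (nat_lit 17) (.e (nat_lit 237590) (nat_lit 2) (.e (nat_lit 196654) (nat_lit 11) (.e (nat_lit 16412) (nat_lit 2) (.e (nat_lit 196660) (nat_lit 12) (.e (nat_lit 57347) (nat_lit 0) (.e (nat_lit 7695) (nat_lit 412) .nil)))))))) (.g (nat_lit 4) .nil .nil))) 
(.lf (nat_lit 146802) (.g (nat_lit 1963) (.e (nat_lit 57373) (nat_lit 2) (.e (nat_lit 90185) (nat_lit 17) (.e (nat_lit 237594) (nat_lit 3) (.e (nat_lit 204837) (nat_lit 20) (.e (nat_lit 114708) (nat_lit 20) .nil))))) .nil)))) (.nd (nat_lit 4) (.nd (nat_lit 5) 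
(.lf (nat_lit 146762) (.g (nat_lit 2979) (.e (nat_lit 57373) (nat_lit 2) (.e (nat_lit 90185) (nat_lit 17) (.e (nat_lit 237587) (nat_lit 2) (.e (nat_lit 196654) (nat_lit 11) (.e (nat_lit 16412) (nat_lit 2) (.e (nat_lit 196677) (nat_lit 16) (.e (nat_lit 122881) (nat_lit 0) (.e (nat_lit 7695) (nat_lit 412) .nil)))))))) (.g (nat_lit 4) .nil .nil))) 
(.lf (nat_lit 146794) (.g (nat_lit 3272) (.e (nat_lit 57373) (nat_lit 2) (.e (nat_lit 90185) (nat_lit 17) (.e (nat_lit 237594) (nat_lit 3) (.e (nat_lit 204809) (nat_lit 9) (.e (nat_lit 426124) (nat_lit 2) (.e (nat_lit 196658) (nat_lit 12) (.e (nat_lit 57348) (nat_lit 0) (.e (nat_lit 7695) (nat_lit 412) .nil)))))))) (.g (nat_lit 5) .nil .nil)))) (.nd (nat_lit 5) 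
(.lf (nat_lit 146778) (.g (nat_lit 2678) (.e (nat_lit 57373) (nat_lit 2) (.e (nat_lit 90185) (nat_lit 17) (.e (nat_lit 237590) (nat_lit 2) (.e (nat_lit 196654) (nat_lit 11) (.e (nat_lit 16416) (nat_lit 3) (.e (nat_lit 204822) (nat_lit 17) (.e (nat_lit 993) (nat_lit 81) (.e (nat_lit 7695) (nat_lit 412) .nil)))))))) (.g (nat_lit 4) .nil .nil))) 
(.lf (nat_lit 146810) (.g (nat_lit 3265) (.e (nat_lit 57373) (nat_lit 2) (.e (nat_lit 90185) (nat_lit 17) (.e (nat_lit 237601) (nat_lit 9) (.e (nat_lit 426566) (nat_lit 34) (.e (nat_lit 393251) (nat_lit 18) (.e (nat_lit 164398) (nat_lit 256) .nil)))))) (.g (nat_lit 0) .nil .nil)))))) (.nd (nat_lit 3) (.nd (nat_lit 4) (.nd (nat_lit 5) 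
(.lf (nat_lit 146758) (.g (nat_lit 2502) (.e (nat_lit 57373) (nat_lit 2) (.e (nat_lit 90185) (nat_lit 17) (.e (nat_lit 237587) (nat_lit 2) (.e (nat_lit 196654) (nat_lit 11) (.e (nat_lit 16412) (nat_lit 2) (.e (nat_lit 196660) (nat_lit 12) (.e (nat_lit 57347) (nat_lit 0) (.e (nat_lit 7697) (nat_lit 412) .nil)))))))) (.g (nat_lit 4) .nil .nil))) 
(.lf (nat_lit 146790) (.g (nat_lit 3600) (.e (nat_lit 57373) (nat_lit 2) (.e (nat_lit 90185) (nat_lit 17) (.e (nat_lit 237592) (nat_lit 3) (.e (nat_lit 204809) (nat_lit 9) (.e (nat_lit 426139) (nat_lit 3) (.e (nat_lit 204829) (nat_lit 18) (.e (nat_lit 65280) (nat_lit 166) .nil))))))) (.g (nat_lit 5) .nil .nil)))) (.nd (nat_lit 5) 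
(.lf (nat_lit 146774) (.g (nat_lit 2476) (.e (nat_lit 57373) (nat_lit 2) (.e (nat_lit 90185) (nat_lit 17) (.e (nat_lit 237590) (nat_lit 2) (.e (nat_lit 196654) (nat_lit 11) (.e (nat_lit 16412) (nat_lit 2) (.e (nat_lit 196677) (nat_lit 16) (.e (nat_lit 122880) (nat_lit 0) (.e (nat_lit 7697) (nat_lit 412) .nil)))))))) (.g (nat_lit 4) .nil .nil))) 
(.lf (nat_lit 146806) (.g (nat_lit 1381) (.e (nat_lit 57373) (nat_lit 2) (.e (nat_lit 90185) (nat_lit 17) (.e (nat_lit 237601) (nat_lit 9) (.e (nat_lit 426566) (nat_lit 34) (.e (nat_lit 393231) (nat_lit 17) (.e (nat_lit 2486) (nat_lit 157) (.e (nat_lit 5949) (nat_lit 322) .nil))))))) (.g (nat_lit 4) .nil .nil))))) (.nd (nat_lit 4) (.nd (nat_lit 5) 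
(.lf (nat_lit 146766) (.g (nat_lit 4077) (.e (nat_lit 57373) (nat_lit 2) (.e (nat_lit 90185) (nat_lit 17) (.e (nat_lit 237587) (nat_lit 2) (.e (nat_lit 196654) (nat_lit 11) (.e (nat_lit 16416) (nat_lit 3) (.e (nat_lit 204829) (nat_lit 18) (.e (nat_lit 65280) (nat_lit 166) .nil))))))) (.g (nat_lit 5) .nil .nil))) 
(.lf (nat_lit 146798) (.g (nat_lit 3319) (.e (nat_lit 57373) (nat_lit 2) (.e (nat_lit 90185) (nat_lit 17) (.e (nat_lit 237594) (nat_lit 3) (.e (nat_lit 204809) (nat_lit 9) (.e (nat_lit 426124) (nat_lit 2) (.e (nat_lit 196677) (nat_lit 16) (.e (nat_lit 122881) (nat_lit 0) (.e (nat_lit 7695) (nat_lit 412) .nil)))))))) (.g (nat_lit 5) .nil .nil)))) (.nd (nat_lit 5) 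
(.lf (nat_lit 146782) (.g (nat_lit 730) (.e (nat_lit 57373) (nat_lit 2) (.e (nat_lit 90185) (nat_lit 17) (.e (nat_lit 237592) (nat_lit 3) .nil))) .nil)) 
(.lf (nat_lit 146814) (.g (nat_lit 2712) (.e (nat_lit 57373) (nat_lit 2) (.e (nat_lit 90185) (nat_lit 17) (.e (nat_lit 237601) (nat_lit 9) (.e (nat_lit 426566) (nat_lit 34) (.e (nat_lit 393252) (nat_lit 18) (.e (nat_lit 164399) (nat_lit 256) .nil)))))) (.g (nat_lit 0) .nil .nil)))))))) (.nd (nat_lit 1) (.nd (nat_lit 2) (.nd (nat_lit 3) (.nd (nat_lit 4) (.nd (nat_lit 5) 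
(.lf (nat_lit 146753) (.g (nat_lit 426) (.e (nat_lit 57373) (nat_lit 2) (.e (nat_lit 90178) (nat_lit 15) (.e (nat_lit 188448) (nat_lit 22) .nil))) .nil)) 
(.lf (nat_lit 146785) (.g (nat_lit 2692) (.e (nat_lit 57373) (nat_lit 2) (.e (nat_lit 90185) (nat_lit 17) (.e (nat_lit 237592) (nat_lit 3) (.e (nat_lit 204809) (nat_lit 9) (.e (nat_lit 426124) (nat_lit 2) (.e (nat_lit 196677) (nat_lit 16) (.e (nat_lit 122880) (nat_lit 0) (.e (nat_lit 7695) (nat_lit 412) .nil)))))))) (.g (nat_lit 5) .nil .nil)))) (.nd (nat_lit 5) 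
(.lf (nat_lit 146769) (.g (nat_lit 2266) (.e (nat_lit 57373) (nat_lit 2) (.e (nat_lit 90185) (nat_lit 17) (.e (nat_lit 237590) (nat_lit 2) (.e (nat_lit 196654) (nat_lit 11) (.e (nat_lit 16412) (nat_lit 2) (.e (nat_lit 196658) (nat_lit 12) (.e (nat_lit 57348) (nat_lit 0) (.e (nat_lit 7697) (nat_lit 412) .nil)))))))) (.g (nat_lit 4) .nil .nil))) 
(.lf (nat_lit 146801) (.g (nat_lit 4012) (.e (nat_lit 57373) (nat_lit 2) (.e (nat_lit 90185) (nat_lit 17) (.e (nat_lit 237594) (nat_lit 3) (.e (nat_lit 204809) (nat_lit 9) (.e (nat_lit 426139) (nat_lit 3) (.e (nat_lit 204830) (nat_lit 18) (.e (nat_lit 65280) (nat_lit 166) .nil))))))) (.g (nat_lit 5) .nil .nil))))) (.nd (nat_lit 4) (.nd (nat_lit 5) 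
(.lf (nat_lit 146761) (.g (nat_lit 2740) (.e (nat_lit 57373) (nat_lit 2) (.e (nat_lit 90185) (nat_lit 17) (.e (nat_lit 237587) (nat_lit 2) (.e (nat_lit 196654) (nat_lit 11) (.e (nat_lit 16412) (nat_lit 2) (.e (nat_lit 196677) (nat_lit 16) (.e (nat_lit 122880) (nat_lit 0) (.e (nat_lit 7697) (nat_lit 412) .nil)))))))) (.g (nat_lit 4) .nil .nil))) 
(.lf (nat_lit 146793) (.g (nat_lit 2378) (.e (nat_lit 57373) (nat_lit 2) (.e (nat_lit 90185) (nat_lit 17) (.e (nat_lit 237594) (nat_lit 3) (.e (nat_lit 204809) (nat_lit 9) (.e (nat_lit 426123) (nat_lit 2) (.e (nat_lit 196661) (nat_lit 12) (.e (nat_lit 57353) (nat_lit 0) (.e (nat_lit 7695) (nat_lit 412) .nil)))))))) (.g (nat_lit 4) .nil .nil)))) (.nd (nat_lit 5) 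
(.lf (nat_lit 146777) (.g (nat_lit 2716) (.e (nat_lit 57373) (nat_lit 2) (.e (nat_lit 90185) (nat_lit 17) (.e (nat_lit 237590) (nat_lit 2) (.e (nat_lit 196654) (nat_lit 11) (.e (nat_lit 16416) (nat_lit 3) (.e (nat_lit 204816) (nat_lit 17) (.e (nat_lit 974) (nat_lit 81) (.e (nat_lit 7695) (nat_lit 412) .nil)))))))) (.g (nat_lit 4) .nil .nil))) 
(.lf (nat_lit 146809) (.g (nat_lit 2741) (.e (nat_lit 57373) (nat_lit 2) (.e (nat_lit 90185) (nat_lit 17) (.e (nat_lit 237601) (nat_lit 9) (.e (nat_lit 426566) (nat_lit 34) (.e (nat_lit 393234) (nat_lit 17) (.e (nat_lit 2504) (nat_lit 157) (.e (nat_lit 5949) (nat_lit 322) .nil))))))) (.g (nat_lit 5) .nil .nil)))))) (.nd (nat_lit 3) (.nd (nat_lit 4) (.nd (nat_lit 5) 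
(.lf (nat_lit 146757) (.g (nat_lit 2588) (.e (nat_lit 57373) (nat_lit 2) (.e (nat_lit 90185) (nat_lit 17) (.e (nat_lit 237587) (nat_lit 2) (.e (nat_lit 196654) (nat_lit 11) (.e (nat_lit 16412) (nat_lit 2) (.e (nat_lit 196660) (nat_lit 12) (.e (nat_lit 57347) (nat_lit 0) (.e (nat_lit 7695) (nat_lit 412) .nil)))))))) (.g (nat_lit 4) .nil .nil))) 
(.lf (nat_lit 146789) (.g (nat_lit 2797) (.e (nat_lit 57373) (nat_lit 2) (.e (nat_lit 90185) (nat_lit 17) (.e (nat_lit 237592) (nat_lit 3) (.e (nat_lit 204809) (nat_lit 9) (.e (nat_lit 426139) (nat_lit 3) (.e (nat_lit 204815) (nat_lit 17) (.e (nat_lit 974) (nat_lit 81) (.e (nat_lit 7697) (nat_lit 412) .nil)))))))) (.g (nat_lit 5) .nil .nil)))) (.nd (nat_lit 5) 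
(.lf (nat_lit 146773) (.g (nat_lit 2705) (.e (nat_lit 57373) (nat_lit 2) (.e (nat_lit 90185) (nat_lit 17) (.e (nat_lit 237590) (nat_lit 2) (.e (nat_lit 196654) (nat_lit 11) (.e (nat_lit 16412) (nat_lit 2) (.e (nat_lit 196677) (nat_lit 16) (.e (nat_lit 122880) (nat_lit 0) (.e (nat_lit 7695) (nat_lit 412) .nil)))))))) (.g (nat_lit 4) .nil .nil))) 
(.lf (nat_lit 146805) (.g (nat_lit 1463) (.e (nat_lit 57373) (nat_lit 2) (.e (nat_lit 90185) (nat_lit 17) (.e (nat_lit 237601) (nat_lit 9) (.e (nat_lit 426566) (nat_lit 34) (.e (nat_lit 393231) (nat_lit 17) (.e (nat_lit 2485) (nat_lit 157) (.e (nat_lit 5949) (nat_lit 322) .nil))))))) (.g (nat_lit 4) .nil .nil))))) (.nd (nat_lit 4) (.nd (nat_lit 5) 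
(.lf (nat_lit 146765) (.g (nat_lit 2977) (.e (nat_lit 57373) (nat_lit 2) (.e (nat_lit 90185) (nat_lit 17) (.e (nat_lit 237587) (nat_lit 2) (.e (nat_lit 196654) (nat_lit 11) (.e (nat_lit 16416) (nat_lit 3) (.e (nat_lit 204822) (nat_lit 17) (.e (nat_lit 993) (nat_lit 81) (.e (nat_lit 7695) (nat_lit 412) .nil)))))))) (.g (nat_lit 4) .nil .nil))) 
(.lf (nat_lit 146797) (.g (nat_lit 3064) (.e (nat_lit 57373) (nat_lit 2) (.e (nat_lit 90185) (nat_lit 17) (.e (nat_lit 237594) (nat_lit 3) (.e (nat_lit 204809) (nat_lit 9) (.e (nat_lit 426124) (nat_lit 2) (.e (nat_lit 196677) (nat_lit 16) (.e (nat_lit 122880) (nat_lit 0) (.e (nat_lit 7697) (nat_lit 412) .nil)))))))) (.g (nat_lit 5) .nil .nil)))) (.nd (nat_lit 5) 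
(.lf (nat_lit 146781) (.g (nat_lit 963) (.e (nat_lit 57373) (nat_lit 2) (.e (nat_lit 90185) (nat_lit 17) (.e (nat_lit 237591) (nat_lit 3) .nil))) .nil)) 
(.lf (nat_lit 146813) (.g (nat_lit 2849) (.e (nat_lit 57373) (nat_lit 2) (.e (nat_lit 90185) (nat_lit 17) (.e (nat_lit 237601) (nat_lit 9) (.e (nat_lit 426566) (nat_lit 34) (.e (nat_lit 393252) (nat_lit 18) (.e (nat_lit 164398) (nat_lit 256) .nil)))))) (.g (nat_lit 0) .nil .nil))))))) (.nd (nat_lit 2) (.nd (nat_lit 3) (.nd (nat_lit 4) (.nd (nat_lit 5) 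
(.lf (nat_lit 146755) (.g (nat_lit 2867) (.e (nat_lit 57373) (nat_lit 2) (.e (nat_lit 90185) (nat_lit 17) (.e (nat_lit 237587) (nat_lit 2) (.e (nat_lit 196654) (nat_lit 11) (.e (nat_lit 16412) (nat_lit 2) (.e (nat_lit 196658) (nat_lit 12) (.e (nat_lit 57348) (nat_lit 0) (.e (nat_lit 7695) (nat_lit 412) .nil)))))))) (.g (nat_lit 4) .nil .nil))) 
(.lf (nat_lit 146787) (.g (nat_lit 2842) (.e (nat_lit 57373) (nat_lit 2) (.e (nat_lit 90185) (nat_lit 17) (.e (nat_lit 237592) (nat_lit 3) (.e (nat_lit 204809) (nat_lit 9) (.e (nat_lit 426124) (nat_lit 2) (.e (nat_lit 196677) (nat_lit 16) (.e (nat_lit 122881) (nat_lit 0) (.e (nat_lit 7697) (nat_lit 412) .nil)))))))) (.g (nat_lit 5) .nil .nil)))) (.nd (nat_lit 5) 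
(.lf (nat_lit 146771) (.g (nat_lit 2238) (.e (nat_lit 57373) (nat_lit 2) (.e (nat_lit 90185) (nat_lit 17) (.e (nat_lit 237590) (nat_lit 2) (.e (nat_lit 196654) (nat_lit 11) (.e (nat_lit 16412) (nat_lit 2) (.e (nat_lit 196660) (nat_lit 12) (.e (nat_lit 57347) (nat_lit 0) (.e (nat_lit 7697) (nat_lit 412) .nil)))))))) (.g (nat_lit 4) .nil .nil))) 
(.lf (nat_lit 146803) (.g (nat_lit 347) (.e (nat_lit 57373) (nat_lit 2) (.e (nat_lit 90185) (nat_lit 17) (.e (nat_lit 237601) (nat_lit 9) .nil))) .nil)))) (.nd (nat_lit 4) (.nd (nat_lit 5) 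
(.lf (nat_lit 146763) (.g (nat_lit 4152) (.e (nat_lit 57373) (nat_lit 2) (.e (nat_lit 90185) (nat_lit 17) (.e (nat_lit 237587) (nat_lit 2) (.e (nat_lit 196654) (nat_lit 11) (.e (nat_lit 16416) (nat_lit 3) (.e (nat_lit 204815) (nat_lit 17) (.e (nat_lit 974) (nat_lit 81) (.e (nat_lit 7697) (nat_lit 412) .nil)))))))) (.g (nat_lit 5) .nil .nil))) 
(.lf (nat_lit 146795) (.g (nat_lit 2945) (.e (nat_lit 57373) (nat_lit 2) (.e (nat_lit 90185) (nat_lit 17) (.e (nat_lit 237594) (nat_lit 3) (.e (nat_lit 204809) (nat_lit 9) (.e (nat_lit 426124) (nat_lit 2) (.e (nat_lit 196658) (nat_lit 12) (.e (nat_lit 57348) (nat_lit 0) (.e (nat_lit 7697) (nat_lit 412) .nil)))))))) (.g (nat_lit 5) .nil .nil)))) (.nd (nat_lit 5) 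
(.lf (nat_lit 146779) (.g (nat_lit 3804) (.e (nat_lit 57373) (nat_lit 2) (.e (nat_lit 90185) (nat_lit 17) (.e (nat_lit 237590) (nat_lit 2) (.e (nat_lit 196654) (nat_lit 11) (.e (nat_lit 16416) (nat_lit 3) (.e (nat_lit 204829) (nat_lit 18) (.e (nat_lit 65280) (nat_lit 166) .nil))))))) (.g (nat_lit 5) .nil .nil))) 
(.lf (nat_lit 146811) (.g (nat_lit 2881) (.e (nat_lit 57373) (nat_lit 2) (.e (nat_lit 90185) (nat_lit 17) (.e (nat_lit 237601) (nat_lit 9) (.e (nat_lit 426566) (nat_lit 34) (.e (nat_lit 393251) (nat_lit 18) (.e (nat_lit 164399) (nat_lit 256) .nil)))))) (.g (nat_lit 0) .nil .nil)))))) (.nd (nat_lit 3) (.nd (nat_lit 4) (.nd (nat_lit 5) 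
(.lf (nat_lit 146759) (.g (nat_lit 2470) (.e (nat_lit 57373) (nat_lit 2) (.e (nat_lit 90185) (nat_lit 17) (.e (nat_lit 237587) (nat_lit 2) (.e (nat_lit 196654) (nat_lit 11) (.e (nat_lit 16412) (nat_lit 2) (.e (nat_lit 196661) (nat_lit 12) (.e (nat_lit 57353) (nat_lit 0) (.e (nat_lit 7697) (nat_lit 412) .nil)))))))) (.g (nat_lit 4) .nil .nil))) 
(.lf (nat_lit 146791) (.g (nat_lit 3414) (.e (nat_lit 57373) (nat_lit 2) (.e (nat_lit 90185) (nat_lit 17) (.e (nat_lit 237592) (nat_lit 3) (.e (nat_lit 204809) (nat_lit 9) (.e (nat_lit 426139) (nat_lit 3) (.e (nat_lit 204830) (nat_lit 18) (.e (nat_lit 65280) (nat_lit 166) .nil))))))) (.g (nat_lit 5) .nil .nil)))) (.nd (nat_lit 5) 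
(.lf (nat_lit 146775) (.g (nat_lit 2715) (.e (nat_lit 57373) (nat_lit 2) (.e (nat_lit 90185) (nat_lit 17) (.e (nat_lit 237590) (nat_lit 2) (.e (nat_lit 196654) (nat_lit 11) (.e (nat_lit 16412) (nat_lit 2) (.e (nat_lit 196677) (nat_lit 16) (.e (nat_lit 122881) (nat_lit 0) (.e (nat_lit 7695) (nat_lit 412) .nil)))))))) (.g (nat_lit 4) .nil .nil))) 
(.lf (nat_lit 146807) (.g (nat_lit 2454) (.e (nat_lit 57373) (nat_lit 2) (.e (nat_lit 90185) (nat_lit 17) (.e (nat_lit 237601) (nat_lit 9) (.e (nat_lit 426566) (nat_lit 34) (.e (nat_lit 393232) (nat_lit 17) (.e (nat_lit 2524) (nat_lit 157) (.e (nat_lit 5949) (nat_lit 322) .nil))))))) (.g (nat_lit 5) .nil .nil))))) (.nd (nat_lit 4) (.nd (nat_lit 5) 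
(.lf (nat_lit 146767) (.g (nat_lit 3866) (.e (nat_lit 57373) (nat_lit 2) (.e (nat_lit 90185) (nat_lit 17) (.e (nat_lit 237587) (nat_lit 2) (.e (nat_lit 196654) (nat_lit 11) (.e (nat_lit 16416) (nat_lit 3) (.e (nat_lit 204830) (nat_lit 18) (.e (nat_lit 65280) (nat_lit 166) .nil))))))) (.g (nat_lit 5) .nil .nil))) 
(.lf (nat_lit 146799) (.g (nat_lit 3407) (.e (nat_lit 57373) (nat_lit 2) (.e (nat_lit 90185) (nat_lit 17) (.e (nat_lit 237594) (nat_lit 3) (.e (nat_lit 204809) (nat_lit 9) (.e (nat_lit 426139) (nat_lit 3) (.e (nat_lit 204815) (nat_lit 17) (.e (nat_lit 974) (nat_lit 81) (.e (nat_lit 7697) (nat_lit 412) .nil)))))))) (.g (nat_lit 5) .nil .nil)))) (.nd (nat_lit 5) 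
(.lf (nat_lit 146783) (.g (nat_lit 2674) (.e (nat_lit 57373) (nat_lit 2) (.e (nat_lit 90185) (nat_lit 17) (.e (nat_lit 237592) (nat_lit 3) (.e (nat_lit 204809) (nat_lit 9) (.e (nat_lit 426124) (nat_lit 2) (.e (nat_lit 196658) (nat_lit 12) (.e (nat_lit 57348) (nat_lit 0) (.e (nat_lit 7695) (nat_lit 412) .nil)))))))) (.g (nat_lit 5) .nil .nil))) 
(.lf (nat_lit 146815) (.g (nat_lit 2718) (.e (nat_lit 57373) (nat_lit 2) (.e (nat_lit 90185) (nat_lit 17) (.e (nat_lit 237601) (nat_lit 9) (.e (nat_lit 426566) (nat_lit 34) (.e (nat_lit 393253) (nat_lit 18) (.e (nat_lit 164402) (nat_lit 256) .nil)))))) (.g (nat_lit 5) .nil .nil)))))))))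

noncomputable def tv1952 : DT := (.nd (nat_lit 0) (.nd (nat_lit 1) (.nd (nat_lit 2) (.nd (nat_lit 3) (.nd (nat_lit 4) (.nd (nat_lit 5) 
(.lf (nat_lit 146816) (.g (nat_lit 3297) (.e (nat_lit 57373) (nat_lit 2) (.e (nat_lit 90185) (nat_lit 17) (.e (nat_lit 237601) (nat_lit 9) (.e (nat_lit 426566) (nat_lit 34) (.e (nat_lit 393253) (nat_lit 18) (.e (nat_lit 164403) (nat_lit 256) .nil)))))) (.g (nat_lit 0) .nil .nil))) 
(.lf (nat_lit 146848) (.g (nat_lit 2371) (.e (nat_lit 57373) (nat_lit 2) (.e (nat_lit 90185) (nat_lit 17) (.e (nat_lit 237605) (nat_lit 9) (.e (nat_lit 426566) (nat_lit 34) (.e (nat_lit 393254) (nat_lit 18) (.e (nat_lit 164402) (nat_lit 256) .nil)))))) (.g (nat_lit 5) .nil .nil)))) (.nd (nat_lit 5) 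
(.lf (nat_lit 146832) (.g (nat_lit 1562) (.e (nat_lit 57373) (nat_lit 2) (.e (nat_lit 90185) (nat_lit 17) (.e (nat_lit 237605) (nat_lit 9) (.e (nat_lit 426566) (nat_lit 34) (.e (nat_lit 393231) (nat_lit 17) (.e (nat_lit 2485) (nat_lit 157) (.e (nat_lit 5949) (nat_lit 322) .nil))))))) (.g (nat_lit 4) .nil .nil))) 
(.lf (nat_lit 146864) (.g (nat_lit 3397) (.e (nat_lit 57373) (nat_lit 2) (.e (nat_lit 90185) (nat_lit 17) (.e (nat_lit 237621) (nat_lit 13) (.e (nat_lit 483337) (nat_lit 9) (.e (nat_lit 426107) (nat_lit 1) (.e (nat_lit 164403) (nat_lit 256) .nil)))))) (.g (nat_lit 0) .nil .nil))))) (.nd (nat_lit 4) (.nd (nat_lit 5) 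
(.lf (nat_lit 146824) (.g (nat_lit 857) (.e (nat_lit 57373) (nat_lit 2) (.e (nat_lit 90185) (nat_lit 17) (.e (nat_lit 237603) (nat_lit 9) .nil))) .nil)) 
(.lf (nat_lit 146856) (.g (nat_lit 2106) (.e (nat_lit 57373) (nat_lit 2) (.e (nat_lit 90185) (nat_lit 17) (.e (nat_lit 237605) (nat_lit 9) (.e (nat_lit 426568) (nat_lit 34) (.e (nat_lit 393252) (nat_lit 18) (.e (nat_lit 164401) (nat_lit 256) .nil)))))) (.g (nat_lit 5) .nil .nil)))) (.nd (nat_lit 5) 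
(.lf (nat_lit 146840) (.g (nat_lit 3049) (.e (nat_lit 57373) (nat_lit 2) (.e (nat_lit 90185) (nat_lit 17) (.e (nat_lit 237605) (nat_lit 9) (.e (nat_lit 426566) (nat_lit 34) (.e (nat_lit 393251) (nat_lit 18) (.e (nat_lit 164399) (nat_lit 256) .nil)))))) (.g (nat_lit 0) .nil .nil))) 
(.lf (nat_lit 146872) (.g (nat_lit 1746) (.e (nat_lit 57373) (nat_lit 2) (.e (nat_lit 90185) (nat_lit 17) (.e (nat_lit 237622) (nat_lit 13) (.e (nat_lit 483341) (nat_lit 9) (.e (nat_lit 426100) (nat_lit 1) .nil))))) .nil))))) (.nd (nat_lit 3) (.nd (nat_lit 4) (.nd (nat_lit 5) 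
(.lf (nat_lit 146820) (.g (nat_lit 2126) (.e (nat_lit 57373) (nat_lit 2) (.e (nat_lit 90185) (nat_lit 17) (.e (nat_lit 237601) (nat_lit 9) (.e (nat_lit 426568) (nat_lit 34) (.e (nat_lit 393252) (nat_lit 18) (.e (nat_lit 164398) (nat_lit 256) .nil)))))) (.g (nat_lit 5) .nil .nil))) 
(.lf (nat_lit 146852) (.g (nat_lit 1580) (.e (nat_lit 57373) (nat_lit 2) (.e (nat_lit 90185) (nat_lit 17) (.e (nat_lit 237605) (nat_lit 9) (.e (nat_lit 426568) (nat_lit 34) (.e (nat_lit 393234) (nat_lit 17) .nil))))) .nil))) (.nd (nat_lit 5) 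
(.lf (nat_lit 146836) (.g (nat_lit 1622) (.e (nat_lit 57373) (nat_lit 2) (.e (nat_lit 90185) (nat_lit 17) (.e (nat_lit 237605) (nat_lit 9) (.e (nat_lit 426566) (nat_lit 34) (.e (nat_lit 393233) (nat_lit 17) (.e (nat_lit 2504) (nat_lit 157) (.e (nat_lit 5949) (nat_lit 322) .nil))))))) (.g (nat_lit 4) .nil .nil))) 
(.lf (nat_lit 146868) (.g (nat_lit 3063) (.e (nat_lit 57373) (nat_lit 2) (.e (nat_lit 90185) (nat_lit 17) (.e (nat_lit 237621) (nat_lit 13) (.e (nat_lit 483341) (nat_lit 9) (.e (nat_lit 426107) (nat_lit 1) (.e (nat_lit 164403) (nat_lit 256) .nil)))))) (.g (nat_lit 0) .nil .nil))))) (.nd (nat_lit 4) (.nd (nat_lit 5) 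
(.lf (nat_lit 146828) (.g (nat_lit 1835) (.e (nat_lit 57373) (nat_lit 2) (.e (nat_lit 90185) (nat_lit 17) (.e (nat_lit 237605) (nat_lit 9) (.e (nat_lit 426131) (nat_lit 3) (.e (nat_lit 204880) (nat_lit 32) (.e (nat_lit 385047) (nat_lit 21) (.e (nat_lit 7936) (nat_lit 373) .nil))))))) (.g (nat_lit 4) .nil .nil))) 
(.lf (nat_lit 146860) (.g (nat_lit 663) (.e (nat_lit 57373) (nat_lit 2) (.e (nat_lit 90185) (nat_lit 17) (.e (nat_lit 237620) (nat_lit 13) (.e (nat_lit 491264) (nat_lit 10) .nil)))) .nil))) (.nd (nat_lit 5) 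
(.lf (nat_lit 146844) (.g (nat_lit 2716) (.e (nat_lit 57373) (nat_lit 2) (.e (nat_lit 90185) (nat_lit 17) (.e (nat_lit 237605) (nat_lit 9) (.e (nat_lit 426566) (nat_lit 34) (.e (nat_lit 393252) (nat_lit 18) (.e (nat_lit 164401) (nat_lit 256) .nil)))))) (.g (nat_lit 0) .nil .nil))) 
(.lf (nat_lit 146876) (.g (nat_lit 2309) (.e (nat_lit 57373) (nat_lit 2) (.e (nat_lit 90185) (nat_lit 17) (.e (nat_lit 237623) (nat_lit 13) (.e (nat_lit 483341) (nat_lit 9) (.e (nat_lit 426100) (nat_lit 1) (.e (nat_lit 164399) (nat_lit 256) .nil)))))) (.g (nat_lit 5) .nil .nil))))))) (.nd (nat_lit 2) (.nd (nat_lit 3) (.nd (nat_lit 4) (.nd (nat_lit 5) 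
(.lf (nat_lit 146818) (.g (nat_lit 1793) (.e (nat_lit 57373) (nat_lit 2) (.e (nat_lit 90185) (nat_lit 17) (.e (nat_lit 237601) (nat_lit 9) (.e (nat_lit 426566) (nat_lit 34) (.e (nat_lit 393255) (nat_lit 19) (.e (nat_lit 229708) (nat_lit 256) .nil)))))) (.g (nat_lit 4) .nil .nil))) 
(.lf (nat_lit 146850) (.g (nat_lit 1950) (.e (nat_lit 57373) (nat_lit 2) (.e (nat_lit 90185) (nat_lit 17) (.e (nat_lit 237605) (nat_lit 9) (.e (nat_lit 426566) (nat_lit 34) (.e (nat_lit 393255) (nat_lit 19) (.e (nat_lit 229708) (nat_lit 256) .nil)))))) (.g (nat_lit 4) .nil .nil)))) (.nd (nat_lit 5) 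
(.lf (nat_lit 146834) (.g (nat_lit 2571) (.e (nat_lit 57373) (nat_lit 2) (.e (nat_lit 90185) (nat_lit 17) (.e (nat_lit 237605) (nat_lit 9) (.e (nat_lit 426566) (nat_lit 34) (.e (nat_lit 393232) (nat_lit 17) (.e (nat_lit 2524) (nat_lit 157) (.e (nat_lit 5949) (nat_lit 322) .nil))))))) (.g (nat_lit 5) .nil .nil))) 
(.lf (nat_lit 146866) (.g (nat_lit 3174) (.e (nat_lit 57373) (nat_lit 2) (.e (nat_lit 90185) (nat_lit 17) (.e (nat_lit 237621) (nat_lit 13) (.e (nat_lit 483337) (nat_lit 9) (.e (nat_lit 426108) (nat_lit 1) (.e (nat_lit 164403) (nat_lit 256) .nil)))))) (.g (nat_lit 0) .nil .nil))))) (.nd (nat_lit 4) (.nd (nat_lit 5) 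
(.lf (nat_lit 146826) (.g (nat_lit 1672) (.e (nat_lit 57373) (nat_lit 2) (.e (nat_lit 90185) (nat_lit 17) (.e (nat_lit 237604) (nat_lit 9) (.e (nat_lit 426568) (nat_lit 34) (.e (nat_lit 393252) (nat_lit 18) .nil))))) .nil)) 
(.lf (nat_lit 146858) (.g (nat_lit 902) (.e (nat_lit 57373) (nat_lit 2) (.e (nat_lit 90185) (nat_lit 17) (.e (nat_lit 237619) (nat_lit 12) .nil))) .nil))) (.nd (nat_lit 5) 
(.lf (nat_lit 146842) (.g (nat_lit 3023) (.e (nat_lit 57373) (nat_lit 2) (.e (nat_lit 90185) (nat_lit 17) (.e (nat_lit 237605) (nat_lit 9) (.e (nat_lit 426566) (nat_lit 34) (.e (nat_lit 393252) (nat_lit 18) (.e (nat_lit 164398) (nat_lit 256) .nil)))))) (.g (nat_lit 0) .nil .nil))) 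
(.lf (nat_lit 146874) (.g (nat_lit 2226) (.e (nat_lit 57373) (nat_lit 2) (.e (nat_lit 90185) (nat_lit 17) (.e (nat_lit 237623) (nat_lit 13) (.e (nat_lit 483341) (nat_lit 9) (.e (nat_lit 426098) (nat_lit 1) (.e (nat_lit 164399) (nat_lit 256) .nil)))))) (.g (nat_lit 5) .nil .nil)))))) (.nd (nat_lit 3) (.nd (nat_lit 4) (.nd (nat_lit 5) 
(.lf (nat_lit 146822) (.g (nat_lit 2949) (.e (nat_lit 57373) (nat_lit 2) (.e (nat_lit 90185) (nat_lit 17) (.e (nat_lit 237601) (nat_lit 9) (.e (nat_lit 426568) (nat_lit 34) (.e (nat_lit 393253) (nat_lit 18) (.e (nat_lit 164403) (nat_lit 256) .nil)))))) (.g (nat_lit 0) .nil .nil))) 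
(.lf (nat_lit 146854) (.g (nat_lit 2260) (.e (nat_lit 57373) (nat_lit 2) (.e (nat_lit 90185) (nat_lit 17) (.e (nat_lit 237605) (nat_lit 9) (.e (nat_lit 426568) (nat_lit 34) (.e (nat_lit 393252) (nat_lit 18) (.e (nat_lit 164398) (nat_lit 256) .nil)))))) (.g (nat_lit 5) .nil .nil)))) (.nd (nat_lit 5) 
(.lf (nat_lit 146838) (.g (nat_lit 1814) (.e (nat_lit 57373) (nat_lit 2) (.e (nat_lit 90185) (nat_lit 17) (.e (nat_lit 237605) (nat_lit 9) (.e (nat_lit 426566) (nat_lit 34) (.e (nat_lit 393250) (nat_lit 18) (.e (nat_lit 164398) (nat_lit 256) .nil)))))) (.g (nat_lit 4) .nil .nil))) 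
(.lf (nat_lit 146870) (.g (nat_lit 3086) (.e (nat_lit 57373) (nat_lit 2) (.e (nat_lit 90185) (nat_lit 17) (.e (nat_lit 237621) (nat_lit 13) (.e (nat_lit 483341) (nat_lit 9) (.e (nat_lit 426108) (nat_lit 1) (.e (nat_lit 164403) (nat_lit 256) .nil)))))) (.g (nat_lit 0) .nil .nil))))) (.nd (nat_lit 4) (.nd (nat_lit 5) 
(.lf (nat_lit 146830) (.g (nat_lit 881) (.e (nat_lit 57373) (nat_lit 2) (.e (nat_lit 90185) (nat_lit 17) (.e (nat_lit 237605) (nat_lit 9) (.e (nat_lit 426484) (nat_lit 27) .nil)))) .nil)) 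
(.lf (nat_lit 146862) (.g (nat_lit 2867) (.e (nat_lit 57373) (nat_lit 2) (.e (nat_lit 90185) (nat_lit 17) (.e (nat_lit 237621) (nat_lit 13) (.e (nat_lit 483337) (nat_lit 9) (.e (nat_lit 426098) (nat_lit 1) (.e (nat_lit 164399) (nat_lit 256) .nil)))))) (.g (nat_lit 0) .nil .nil)))) (.nd (nat_lit 5) 
(.lf (nat_lit 146846) (.g (nat_lit 3478) (.e (nat_lit 57373) (nat_lit 2) (.e (nat_lit 90185) (nat_lit 17) (.e (nat_lit 237605) (nat_lit 9) (.e (nat_lit 426566) (nat_lit 34) (.e (nat_lit 393253) (nat_lit 18) (.e (nat_lit 164403) (nat_lit 256) .nil)))))) (.g (nat_lit 0) .nil .nil))) 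
(.lf (nat_lit 146878) (.g (nat_lit 2408) (.e (nat_lit 57373) (nat_lit 2) (.e (nat_lit 90185) (nat_lit 17) (.e (nat_lit 237623) (nat_lit 13) (.e (nat_lit 483341) (nat_lit 9) (.e (nat_lit 426108) (nat_lit 1) (.e (nat_lit 164403) (nat_lit 256) .nil)))))) (.g (nat_lit 5) .nil .nil)))))))) (.nd (nat_lit 1) (.nd (nat_lit 2) (.nd (nat_lit 3) (.nd (nat_lit 4) (.nd (nat_lit 5) 
(.lf (nat_lit 146817) (.g (nat_lit 2296) (.e (nat_lit 57373) (nat_lit 2) (.e (nat_lit 90185) (nat_lit 17) (.e (nat_lit 237601) (nat_lit 9) (.e (nat_lit 426566) (nat_lit 34) (.e (nat_lit 393254) (nat_lit 18) (.e (nat_lit 164402) (nat_lit 256) .nil)))))) (.g (nat_lit 5) .nil .nil))) 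
(.lf (nat_lit 146849) (.g (nat_lit 3052) (.e (nat_lit 57373) (nat_lit 2) (.e (nat_lit 90185) (nat_lit 17) (.e (nat_lit 237605) (nat_lit 9) (.e (nat_lit 426566) (nat_lit 34) (.e (nat_lit 393254) (nat_lit 18) (.e (nat_lit 164403) (nat_lit 256) .nil)))))) (.g (nat_lit 0) .nil .nil)))) (.nd (nat_lit 5) 
(.lf (nat_lit 146833) (.g (nat_lit 1549) (.e (nat_lit 57373) (nat_lit 2) (.e (nat_lit 90185) (nat_lit 17) (.e (nat_lit 237605) (nat_lit 9) (.e (nat_lit 426566) (nat_lit 34) (.e (nat_lit 393232) (nat_lit 17) .nil))))) .nil)) 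
(.lf (nat_lit 146865) (.g (nat_lit 3627) (.e (nat_lit 57373) (nat_lit 2) (.e (nat_lit 90185) (nat_lit 17) (.e (nat_lit 237621) (nat_lit 13) (.e (nat_lit 483337) (nat_lit 9) (.e (nat_lit 426108) (nat_lit 1) (.e (nat_lit 164402) (nat_lit 256) .nil)))))) (.g (nat_lit 6) .nil .nil))))) (.nd (nat_lit 4) (.nd (nat_lit 5) 
(.lf (nat_lit 146825) (.g (nat_lit 721) (.e (nat_lit 57373) (nat_lit 2) (.e (nat_lit 90185) (nat_lit 17) (.e (nat_lit 237604) (nat_lit 9) .nil))) .nil)) 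
(.lf (nat_lit 146857) (.g (nat_lit 3085) (.e (nat_lit 57373) (nat_lit 2) (.e (nat_lit 90185) (nat_lit 17) (.e (nat_lit 237605) (nat_lit 9) (.e (nat_lit 426568) (nat_lit 34) (.e (nat_lit 393253) (nat_lit 18) (.e (nat_lit 164403) (nat_lit 256) .nil)))))) (.g (nat_lit 0) .nil .nil)))) (.nd (nat_lit 5) 
(.lf (nat_lit 146841) (.g (nat_lit 3056) (.e (nat_lit 57373) (nat_lit 2) (.e (nat_lit 90185) (nat_lit 17) (.e (nat_lit 237605) (nat_lit 9) (.e (nat_lit 426566) (nat_lit 34) (.e (nat_lit 393251) (nat_lit 18) (.e (nat_lit 164402) (nat_lit 256) .nil)))))) (.g (nat_lit 5) .nil .nil))) 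
(.lf (nat_lit 146873) (.g (nat_lit 536) (.e (nat_lit 57373) (nat_lit 2) (.e (nat_lit 90185) (nat_lit 17) (.e (nat_lit 237623) (nat_lit 13) .nil))) .nil))))) (.nd (nat_lit 3) (.nd (nat_lit 4) (.nd (nat_lit 5) 
(.lf (nat_lit 146821) (.g (nat_lit 2668) (.e (nat_lit 57373) (nat_lit 2) (.e (nat_lit 90185) (nat_lit 17) (.e (nat_lit 237601) (nat_lit 9) (.e (nat_lit 426568) (nat_lit 34) (.e (nat_lit 393252) (nat_lit 18) (.e (nat_lit 164399) (nat_lit 256) .nil)))))) (.g (nat_lit 0) .nil .nil))) 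
(.lf (nat_lit 146853) (.g (nat_lit 2753) (.e (nat_lit 57373) (nat_lit 2) (.e (nat_lit 90185) (nat_lit 17) (.e (nat_lit 237605) (nat_lit 9) (.e (nat_lit 426568) (nat_lit 34) (.e (nat_lit 393251) (nat_lit 18) (.e (nat_lit 164399) (nat_lit 256) .nil)))))) (.g (nat_lit 0) .nil .nil)))) (.nd (nat_lit 5) 
(.lf (nat_lit 146837) (.g (nat_lit 2905) (.e (nat_lit 57373) (nat_lit 2) (.e (nat_lit 90185) (nat_lit 17) (.e (nat_lit 237605) (nat_lit 9) (.e (nat_lit 426566) (nat_lit 34) (.e (nat_lit 393234) (nat_lit 17) (.e (nat_lit 2504) (nat_lit 157) (.e (nat_lit 5949) (nat_lit 322) .nil))))))) (.g (nat_lit 5) .nil .nil))) 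
(.lf (nat_lit 146869) (.g (nat_lit 2141) (.e (nat_lit 57373) (nat_lit 2) (.e (nat_lit 90185) (nat_lit 17) (.e (nat_lit 237621) (nat_lit 13) (.e (nat_lit 483341) (nat_lit 9) (.e (nat_lit 426108) (nat_lit 1) (.e (nat_lit 164402) (nat_lit 256) .nil)))))) (.g (nat_lit 5) .nil .nil))))) (.nd (nat_lit 4) (.nd (nat_lit 5) 
(.lf (nat_lit 146829) (.g (nat_lit 2303) (.e (nat_lit 57373) (nat_lit 2) (.e (nat_lit 90185) (nat_lit 17) (.e (nat_lit 237605) (nat_lit 9) (.e (nat_lit 426479) (nat_lit 27) (.e (nat_lit 336421) (nat_lit 28) (.e (nat_lit 434216) (nat_lit 18) (.e (nat_lit 5947) (nat_lit 322) .nil))))))) (.g (nat_lit 4) .nil .nil))) 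
(.lf (nat_lit 146861) (.g (nat_lit 391) (.e (nat_lit 57373) (nat_lit 2) (.e (nat_lit 90185) (nat_lit 17) (.e (nat_lit 237621) (nat_lit 13) .nil))) .nil))) (.nd (nat_lit 5) 
(.lf (nat_lit 146845) (.g (nat_lit 2821) (.e (nat_lit 57373) (nat_lit 2) (.e (nat_lit 90185) (nat_lit 17) (.e (nat_lit 237605) (nat_lit 9) (.e (nat_lit 426566) (nat_lit 34) (.e (nat_lit 393253) (nat_lit 18) (.e (nat_lit 164402) (nat_lit 256) .nil)))))) (.g (nat_lit 5) .nil .nil))) 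
(.lf (nat_lit 146877) (.g (nat_lit 2486) (.e (nat_lit 57373) (nat_lit 2) (.e (nat_lit 90185) (nat_lit 17) (.e (nat_lit 237623) (nat_lit 13) (.e (nat_lit 483341) (nat_lit 9) (.e (nat_lit 426107) (nat_lit 1) (.e (nat_lit 164403) (nat_lit 256) .nil)))))) (.g (nat_lit 5) .nil .nil))))))) (.nd (nat_lit 2) (.nd (nat_lit 3) (.nd (nat_lit 4) (.nd (nat_lit 5) 
(.lf (nat_lit 146819) (.g (nat_lit 2619) (.e (nat_lit 57373) (nat_lit 2) (.e (nat_lit 90185) (nat_lit 17) (.e (nat_lit 237601) (nat_lit 9) (.e (nat_lit 426568) (nat_lit 34) (.e (nat_lit 393251) (nat_lit 18) (.e (nat_lit 164399) (nat_lit 256) .nil)))))) (.g (nat_lit 0) .nil .nil))) 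
(.lf (nat_lit 146851) (.g (nat_lit 1245) (.e (nat_lit 57373) (nat_lit 2) (.e (nat_lit 90185) (nat_lit 17) (.e (nat_lit 237605) (nat_lit 9) (.e (nat_lit 426567) (nat_lit 34) (.e (nat_lit 393234) (nat_lit 17) .nil))))) .nil))) (.nd (nat_lit 5) 
(.lf (nat_lit 146835) (.g (nat_lit 1597) (.e (nat_lit 57373) (nat_lit 2) (.e (nat_lit 90185) (nat_lit 17) (.e (nat_lit 237605) (nat_lit 9) (.e (nat_lit 426566) (nat_lit 34) (.e (nat_lit 393233) (nat_lit 17) (.e (nat_lit 2483) (nat_lit 157) (.e (nat_lit 5949) (nat_lit 322) .nil))))))) (.g (nat_lit 4) .nil .nil))) 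
(.lf (nat_lit 146867) (.g (nat_lit 2674) (.e (nat_lit 57373) (nat_lit 2) (.e (nat_lit 90185) (nat_lit 17) (.e (nat_lit 237621) (nat_lit 13) (.e (nat_lit 483341) (nat_lit 9) (.e (nat_lit 426098) (nat_lit 1) (.e (nat_lit 164399) (nat_lit 256) .nil)))))) (.g (nat_lit 0) .nil .nil))))) (.nd (nat_lit 4) (.nd (nat_lit 5) 
(.lf (nat_lit 146827) (.g (nat_lit 337) (.e (nat_lit 57373) (nat_lit 2) (.e (nat_lit 90185) (nat_lit 17) (.e (nat_lit 237605) (nat_lit 9) .nil))) .nil)) 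
(.lf (nat_lit 146859) (.g (nat_lit 559) (.e (nat_lit 57373) (nat_lit 2) (.e (nat_lit 90185) (nat_lit 17) (.e (nat_lit 237620) (nat_lit 13) .nil))) .nil))) (.nd (nat_lit 5) 
(.lf (nat_lit 146843) (.g (nat_lit 2886) (.e (nat_lit 57373) (nat_lit 2) (.e (nat_lit 90185) (nat_lit 17) (.e (nat_lit 237605) (nat_lit 9) (.e (nat_lit 426566) (nat_lit 34) (.e (nat_lit 393252) (nat_lit 18) (.e (nat_lit 164399) (nat_lit 256) .nil)))))) (.g (nat_lit 0) .nil .nil))) 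
(.lf (nat_lit 146875) (.g (nat_lit 2164) (.e (nat_lit 57373) (nat_lit 2) (.e (nat_lit 90185) (nat_lit 17) (.e (nat_lit 237623) (nat_lit 13) (.e (nat_lit 483341) (nat_lit 9) (.e (nat_lit 426100) (nat_lit 1) (.e (nat_lit 164398) (nat_lit 256) .nil)))))) (.g (nat_lit 4) .nil .nil)))))) (.nd (nat_lit 3) (.nd (nat_lit 4) (.nd (nat_lit 5) 
(.lf (nat_lit 146823) (.g (nat_lit 963) (.e (nat_lit 57373) (nat_lit 2) (.e (nat_lit 90185) (nat_lit 17) (.e (nat_lit 237602) (nat_lit 9) .nil))) .nil)) 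
(.lf (nat_lit 146855) (.g (nat_lit 2799) (.e (nat_lit 57373) (nat_lit 2) (.e (nat_lit 90185) (nat_lit 17) (.e (nat_lit 237605) (nat_lit 9) (.e (nat_lit 426568) (nat_lit 34) (.e (nat_lit 393252) (nat_lit 18) (.e (nat_lit 164399) (nat_lit 256) .nil)))))) (.g (nat_lit 0) .nil .nil)))) (.nd (nat_lit 5) 
(.lf (nat_lit 146839) (.g (nat_lit 3434) (.e (nat_lit 57373) (nat_lit 2) (.e (nat_lit 90185) (nat_lit 17) (.e (nat_lit 237605) (nat_lit 9) (.e (nat_lit 426566) (nat_lit 34) (.e (nat_lit 393251) (nat_lit 18) (.e (nat_lit 164398) (nat_lit 256) .nil)))))) (.g (nat_lit 0) .nil .nil))) 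
(.lf (nat_lit 146871) (.g (nat_lit 849) (.e (nat_lit 57373) (nat_lit 2) (.e (nat_lit 90185) (nat_lit 17) (.e (nat_lit 237622) (nat_lit 13) .nil))) .nil)))) (.nd (nat_lit 4) (.nd (nat_lit 5) 
(.lf (nat_lit 146831) (.g (nat_lit 649) (.e (nat_lit 57373) (nat_lit 2) (.e (nat_lit 90185) (nat_lit 17) (.e (nat_lit 237605) (nat_lit 9) (.e (nat_lit 426566) (nat_lit 34) .nil)))) .nil)) 
(.lf (nat_lit 146863) (.g (nat_lit 2940) (.e (nat_lit 57373) (nat_lit 2) (.e (nat_lit 90185) (nat_lit 17) (.e (nat_lit 237621) (nat_lit 13) (.e (nat_lit 483337) (nat_lit 9) (.e (nat_lit 426100) (nat_lit 1) (.e (nat_lit 164399) (nat_lit 256) .nil)))))) (.g (nat_lit 0) .nil .nil)))) (.nd (nat_lit 5) 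
(.lf (nat_lit 146847) (.g (nat_lit 2587) (.e (nat_lit 57373) (nat_lit 2) (.e (nat_lit 90185) (nat_lit 17) (.e (nat_lit 237605) (nat_lit 9) (.e (nat_lit 426566) (nat_lit 34) (.e (nat_lit 393254) (nat_lit 18) (.e (nat_lit 164401) (nat_lit 256) .nil)))))) (.g (nat_lit 0) .nil .nil))) 
(.lf (nat_lit 146879) (.g (nat_lit 394) (.e (nat_lit 57373) (nat_lit 2) (.e (nat_lit 90185) (nat_lit 17) (.e (nat_lit 237624) (nat_lit 13) .nil))) .nil))))))))

noncomputable def tv1953 : DT := (.nd (nat_lit 0) (.nd (nat_lit 1) (.nd (nat_lit 2) (.nd (nat_lit 3) (.nd (nat_lit 4) (.nd (nat_lit 5) 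
(.lf (nat_lit 146880) (.g (nat_lit 2835) (.e (nat_lit 57373) (nat_lit 2) (.e (nat_lit 90185) (nat_lit 17) (.e (nat_lit 237624) (nat_lit 13) (.e (nat_lit 483337) (nat_lit 9) (.e (nat_lit 426098) (nat_lit 1) (.e (nat_lit 164399) (nat_lit 256) .nil)))))) (.g (nat_lit 0) .nil .nil))) 
(.lf (nat_lit 146912) (.g (nat_lit 3221) (.e (nat_lit 57374) (nat_lit 2) (.e (nat_lit 90170) (nat_lit 13) (.e (nat_lit 172065) (nat_lit 3) (.e (nat_lit 204837) (nat_lit 20) (.e (nat_lit 114718) (nat_lit 23) (.e (nat_lit 98333) (nat_lit 18) (.e (nat_lit 164400) (nat_lit 256) .nil))))))) (.g (nat_lit 4) .nil .nil)))) (.nd (nat_lit 5) 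
(.lf (nat_lit 146896) (.g (nat_lit 1855) (.e (nat_lit 57374) (nat_lit 2) (.e (nat_lit 90134) (nat_lit 9) (.e (nat_lit 290) (nat_lit 21) (.e (nat_lit 336215) (nat_lit 13) (.e (nat_lit 393228) (nat_lit 9) .nil))))) .nil)) 
(.lf (nat_lit 146928) (.g (nat_lit 4225) (.e (nat_lit 57374) (nat_lit 2) (.e (nat_lit 90170) (nat_lit 13) (.e (nat_lit 172065) (nat_lit 3) (.e (nat_lit 204838) (nat_lit 20) (.e (nat_lit 114717) (nat_lit 23) (.e (nat_lit 98334) (nat_lit 18) (.e (nat_lit 164397) (nat_lit 256) .nil))))))) (.g (nat_lit 6) .nil .nil))))) (.nd (nat_lit 4) (.nd (nat_lit 5) 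
(.lf (nat_lit 146888) (.g (nat_lit 1629) (.e (nat_lit 57374) (nat_lit 2) (.e (nat_lit 98048) (nat_lit 6) (.e (nat_lit 81951) (nat_lit 22) (.e (nat_lit 90172) (nat_lit 14) (.e (nat_lit 188160) (nat_lit 0) (.e (nat_lit 5193) (nat_lit 294) .nil)))))) (.g (nat_lit 4) .nil .nil))) 
(.lf (nat_lit 146920) (.g (nat_lit 3331) (.e (nat_lit 57374) (nat_lit 2) (.e (nat_lit 90170) (nat_lit 13) (.e (nat_lit 172065) (nat_lit 3) (.e (nat_lit 204837) (nat_lit 20) (.e (nat_lit 114719) (nat_lit 23) (.e (nat_lit 98334) (nat_lit 18) (.e (nat_lit 164400) (nat_lit 256) .nil))))))) (.g (nat_lit 4) .nil .nil)))) (.nd (nat_lit 5) 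
(.lf (nat_lit 146904) (.g (nat_lit 583) (.e (nat_lit 57374) (nat_lit 2) (.e (nat_lit 90170) (nat_lit 13) (.e (nat_lit 172065) (nat_lit 3) .nil))) .nil)) 
(.lf (nat_lit 146936) (.g (nat_lit 4767) (.e (nat_lit 57374) (nat_lit 2) (.e (nat_lit 90170) (nat_lit 13) (.e (nat_lit 172065) (nat_lit 3) (.e (nat_lit 204838) (nat_lit 20) (.e (nat_lit 114718) (nat_lit 23) (.e (nat_lit 98334) (nat_lit 18) (.e (nat_lit 164400) (nat_lit 256) .nil))))))) (.g (nat_lit 6) .nil .nil)))))) (.nd (nat_lit 3) (.nd (nat_lit 4) (.nd (nat_lit 5) 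
(.lf (nat_lit 146884) (.g (nat_lit 2697) (.e (nat_lit 57373) (nat_lit 2) (.e (nat_lit 90185) (nat_lit 17) (.e (nat_lit 237624) (nat_lit 13) (.e (nat_lit 483341) (nat_lit 9) (.e (nat_lit 426098) (nat_lit 1) (.e (nat_lit 164399) (nat_lit 256) .nil)))))) (.g (nat_lit 0) .nil .nil))) 
(.lf (nat_lit 146916) (.g (nat_lit 3286) (.e (nat_lit 57374) (nat_lit 2) (.e (nat_lit 90170) (nat_lit 13) (.e (nat_lit 172065) (nat_lit 3) (.e (nat_lit 204837) (nat_lit 20) (.e (nat_lit 114719) (nat_lit 23) (.e (nat_lit 98333) (nat_lit 18) (.e (nat_lit 164397) (nat_lit 256) .nil))))))) (.g (nat_lit 4) .nil .nil)))) (.nd (nat_lit 5) 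
(.lf (nat_lit 146900) (.g (nat_lit 2368) (.e (nat_lit 57374) (nat_lit 2) (.e (nat_lit 90158) (nat_lit 11) (.e (nat_lit 24630) (nat_lit 9) (.e (nat_lit 336369) (nat_lit 27) (.e (nat_lit 426501) (nat_lit 27) .nil))))) .nil)) 
(.lf (nat_lit 146932) (.g (nat_lit 4686) (.e (nat_lit 57374) (nat_lit 2) (.e (nat_lit 90170) (nat_lit 13) (.e (nat_lit 172065) (nat_lit 3) (.e (nat_lit 204838) (nat_lit 20) (.e (nat_lit 114718) (nat_lit 23) (.e (nat_lit 98333) (nat_lit 18) (.e (nat_lit 164397) (nat_lit 256) .nil))))))) (.g (nat_lit 6) .nil .nil))))) (.nd (nat_lit 4) (.nd (nat_lit 5) 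
(.lf (nat_lit 146892) (.g (nat_lit 1759) (.e (nat_lit 57374) (nat_lit 2) (.e (nat_lit 90134) (nat_lit 9) (.e (nat_lit 272) (nat_lit 21) (.e (nat_lit 336213) (nat_lit 13) (.e (nat_lit 393229) (nat_lit 9) .nil))))) .nil)) 
(.lf (nat_lit 146924) (.g (nat_lit 3560) (.e (nat_lit 57374) (nat_lit 2) (.e (nat_lit 90170) (nat_lit 13) (.e (nat_lit 172065) (nat_lit 3) (.e (nat_lit 204838) (nat_lit 20) (.e (nat_lit 114717) (nat_lit 23) (.e (nat_lit 98333) (nat_lit 18) (.e (nat_lit 164397) (nat_lit 256) .nil))))))) (.g (nat_lit 4) .nil .nil)))) (.nd (nat_lit 5) 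
(.lf (nat_lit 146908) (.g (nat_lit 3097) (.e (nat_lit 57374) (nat_lit 2) (.e (nat_lit 90170) (nat_lit 13) (.e (nat_lit 172065) (nat_lit 3) (.e (nat_lit 204837) (nat_lit 20) (.e (nat_lit 114717) (nat_lit 23) (.e (nat_lit 98334) (nat_lit 18) (.e (nat_lit 164397) (nat_lit 256) .nil))))))) (.g (nat_lit 4) .nil .nil))) 
(.lf (nat_lit 146940) (.g (nat_lit 2927) (.e (nat_lit 57374) (nat_lit 2) (.e (nat_lit 90170) (nat_lit 13) (.e (nat_lit 172065) (nat_lit 3) (.e (nat_lit 204838) (nat_lit 20) (.e (nat_lit 114719) (nat_lit 23) (.e (nat_lit 98332) (nat_lit 18) (.e (nat_lit 164400) (nat_lit 256) .nil))))))) (.g (nat_lit 4) .nil .nil))))))) (.nd (nat_lit 2) (.nd (nat_lit 3) (.nd (nat_lit 4) (.nd (nat_lit 5) 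
(.lf (nat_lit 146882) (.g (nat_lit 3598) (.e (nat_lit 57373) (nat_lit 2) (.e (nat_lit 90185) (nat_lit 17) (.e (nat_lit 237624) (nat_lit 13) (.e (nat_lit 483337) (nat_lit 9) (.e (nat_lit 426108) (nat_lit 1) (.e (nat_lit 164402) (nat_lit 256) .nil)))))) (.g (nat_lit 6) .nil .nil))) 
(.lf (nat_lit 146914) (.g (nat_lit 4134) (.e (nat_lit 57374) (nat_lit 2) (.e (nat_lit 90170) (nat_lit 13) (.e (nat_lit 172065) (nat_lit 3) (.e (nat_lit 204837) (nat_lit 20) (.e (nat_lit 114718) (nat_lit 23) (.e (nat_lit 98334) (nat_lit 18) (.e (nat_lit 164397) (nat_lit 256) .nil))))))) (.g (nat_lit 6) .nil .nil)))) (.nd (nat_lit 5) 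
(.lf (nat_lit 146898) (.g (nat_lit 1773) (.e (nat_lit 57374) (nat_lit 2) (.e (nat_lit 90156) (nat_lit 11) (.e (nat_lit 24657) (nat_lit 13) (.e (nat_lit 393229) (nat_lit 9) (.e (nat_lit 335995) (nat_lit 1) .nil))))) .nil)) 
(.lf (nat_lit 146930) (.g (nat_lit 3243) (.e (nat_lit 57374) (nat_lit 2) (.e (nat_lit 90170) (nat_lit 13) (.e (nat_lit 172065) (nat_lit 3) (.e (nat_lit 204838) (nat_lit 20) (.e (nat_lit 114718) (nat_lit 23) (.e (nat_lit 98325) (nat_lit 17) (.e (nat_lit 2458) (nat_lit 157) (.e (nat_lit 5935) (nat_lit 322) .nil)))))))) (.g (nat_lit 4) .nil .nil))))) (.nd (nat_lit 4) (.nd (nat_lit 5) 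
(.lf (nat_lit 146890) (.g (nat_lit 2497) (.e (nat_lit 57374) (nat_lit 2) (.e (nat_lit 98048) (nat_lit 8) (.e (nat_lit 131116) (nat_lit 9) (.e (nat_lit 336012) (nat_lit 2) (.e (nat_lit 90172) (nat_lit 14) (.e (nat_lit 188160) (nat_lit 0) (.e (nat_lit 5193) (nat_lit 294) .nil))))))) (.g (nat_lit 5) .nil .nil))) 
(.lf (nat_lit 146922) (.g (nat_lit 3613) (.e (nat_lit 57374) (nat_lit 2) (.e (nat_lit 90170) (nat_lit 13) (.e (nat_lit 172065) (nat_lit 3) (.e (nat_lit 204838) (nat_lit 20) (.e (nat_lit 114708) (nat_lit 20) (.e (nat_lit 1800) (nat_lit 119) (.e (nat_lit 516119) (nat_lit 1) (.e (nat_lit 164396) (nat_lit 256) .nil)))))))) (.g (nat_lit 4) .nil .nil)))) (.nd (nat_lit 5) 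
(.lf (nat_lit 146906) (.g (nat_lit 3428) (.e (nat_lit 57374) (nat_lit 2) (.e (nat_lit 90170) (nat_lit 13) (.e (nat_lit 172065) (nat_lit 3) (.e (nat_lit 204837) (nat_lit 20) (.e (nat_lit 114708) (nat_lit 20) (.e (nat_lit 1800) (nat_lit 119) (.e (nat_lit 516119) (nat_lit 1) (.e (nat_lit 164396) (nat_lit 256) .nil)))))))) (.g (nat_lit 4) .nil .nil))) 
(.lf (nat_lit 146938) (.g (nat_lit 2790) (.e (nat_lit 57374) (nat_lit 2) (.e (nat_lit 90170) (nat_lit 13) (.e (nat_lit 172065) (nat_lit 3) (.e (nat_lit 204838) (nat_lit 20) (.e (nat_lit 114719) (nat_lit 23) (.e (nat_lit 98325) (nat_lit 17) (.e (nat_lit 2458) (nat_lit 157) (.e (nat_lit 5938) (nat_lit 322) .nil)))))))) (.g (nat_lit 4) .nil .nil)))))) 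
(.nd (nat_lit 3) (.nd (nat_lit 4) (.nd (nat_lit 5) 
(.lf (nat_lit 146886) (.g (nat_lit 2166) (.e (nat_lit 57373) (nat_lit 2) (.e (nat_lit 90185) (nat_lit 17) (.e (nat_lit 237624) (nat_lit 13) (.e (nat_lit 483341) (nat_lit 9) (.e (nat_lit 426108) (nat_lit 1) (.e (nat_lit 164402) (nat_lit 256) .nil)))))) (.g (nat_lit 5) .nil .nil))) 
(.lf (nat_lit 146918) (.g (nat_lit 2874) (.e (nat_lit 57374) (nat_lit 2) (.e (nat_lit 90170) (nat_lit 13) (.e (nat_lit 172065) (nat_lit 3) (.e (nat_lit 204837) (nat_lit 20) (.e (nat_lit 114719) (nat_lit 23) (.e (nat_lit 98334) (nat_lit 18) (.e (nat_lit 164396) (nat_lit 256) .nil))))))) (.g (nat_lit 4) .nil .nil)))) (.nd (nat_lit 5) 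
(.lf (nat_lit 146902) (.g (nat_lit 2074) (.e (nat_lit 57374) (nat_lit 2) (.e (nat_lit 90160) (nat_lit 11) (.e (nat_lit 24658) (nat_lit 13) (.e (nat_lit 393229) (nat_lit 9) .nil)))) .nil)) 
(.lf (nat_lit 146934) (.g (nat_lit 4220) (.e (nat_lit 57374) (nat_lit 2) (.e (nat_lit 90170) (nat_lit 13) (.e (nat_lit 172065) (nat_lit 3) (.e (nat_lit 204838) (nat_lit 20) (.e (nat_lit 114718) (nat_lit 23) (.e (nat_lit 98334) (nat_lit 18) (.e (nat_lit 164396) (nat_lit 256) .nil))))))) (.g (nat_lit 6) .nil .nil))))) (.nd (nat_lit 4) (.nd (nat_lit 5) 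
(.lf (nat_lit 146894) (.g (nat_lit 1656) (.e (nat_lit 57374) (nat_lit 2) (.e (nat_lit 90134) (nat_lit 9) (.e (nat_lit 290) (nat_lit 21) (.e (nat_lit 336078) (nat_lit 9) (.e (nat_lit 336456) (nat_lit 34) .nil))))) .nil)) 
(.lf (nat_lit 146926) (.g (nat_lit 3074) (.e (nat_lit 57374) (nat_lit 2) (.e (nat_lit 90170) (nat_lit 13) (.e (nat_lit 172065) (nat_lit 3) (.e (nat_lit 204838) (nat_lit 20) (.e (nat_lit 114717) (nat_lit 23) (.e (nat_lit 98333) (nat_lit 18) (.e (nat_lit 164400) (nat_lit 256) .nil))))))) (.g (nat_lit 4) .nil .nil)))) (.nd (nat_lit 5) 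
(.lf (nat_lit 146910) (.g (nat_lit 3046) (.e (nat_lit 57374) (nat_lit 2) (.e (nat_lit 90170) (nat_lit 13) (.e (nat_lit 172065) (nat_lit 3) (.e (nat_lit 204837) (nat_lit 20) (.e (nat_lit 114717) (nat_lit 23) (.e (nat_lit 98334) (nat_lit 18) (.e (nat_lit 164399) (nat_lit 256) .nil))))))) (.g (nat_lit 4) .nil .nil))) 
(.lf (nat_lit 146942) (.g (nat_lit 3915) (.e (nat_lit 57374) (nat_lit 2) (.e (nat_lit 90170) (nat_lit 13) (.e (nat_lit 172065) (nat_lit 3) (.e (nat_lit 204838) (nat_lit 20) (.e (nat_lit 114719) (nat_lit 23) (.e (nat_lit 98333) (nat_lit 18) (.e (nat_lit 164400) (nat_lit 256) .nil))))))) (.g (nat_lit 5) .nil .nil)))))))) 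
(.nd (nat_lit 1) (.nd (nat_lit 2) (.nd (nat_lit 3) (.nd (nat_lit 4) (.nd (nat_lit 5) 
(.lf (nat_lit 146881) (.g (nat_lit 2908) (.e (nat_lit 57373) (nat_lit 2) (.e (nat_lit 90185) (nat_lit 17) (.e (nat_lit 237624) (nat_lit 13) (.e (nat_lit 483337) (nat_lit 9) (.e (nat_lit 426100) (nat_lit 1) (.e (nat_lit 164399) (nat_lit 256) .nil)))))) (.g (nat_lit 0) .nil .nil))) 
(.lf (nat_lit 146913) (.g (nat_lit 3071) (.e (nat_lit 57374) (nat_lit 2) (.e (nat_lit 90170) (nat_lit 13) (.e (nat_lit 172065) (nat_lit 3) (.e (nat_lit 204837) (nat_lit 20) (.e (nat_lit 114718) (nat_lit 23) (.e (nat_lit 98334) (nat_lit 18) (.e (nat_lit 164396) (nat_lit 256) .nil))))))) (.g (nat_lit 4) .nil .nil)))) (.nd (nat_lit 5) 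
(.lf (nat_lit 146897) (.g (nat_lit 1803) (.e (nat_lit 57374) (nat_lit 2) (.e (nat_lit 90156) (nat_lit 11) (.e (nat_lit 24655) (nat_lit 13) (.e (nat_lit 393229) (nat_lit 9) (.e (nat_lit 335994) (nat_lit 1) .nil))))) .nil)) 
(.lf (nat_lit 146929) (.g (nat_lit 3390) (.e (nat_lit 57374) (nat_lit 2) (.e (nat_lit 90170) (nat_lit 13) (.e (nat_lit 172065) (nat_lit 3) (.e (nat_lit 204838) (nat_lit 20) (.e (nat_lit 114717) (nat_lit 23) (.e (nat_lit 98334) (nat_lit 18) (.e (nat_lit 164400) (nat_lit 256) .nil))))))) (.g (nat_lit 4) .nil .nil))))) (.nd (nat_lit 4) (.nd (nat_lit 5) 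
(.lf (nat_lit 146889) (.g (nat_lit 2237) (.e (nat_lit 57374) (nat_lit 2) (.e (nat_lit 98048) (nat_lit 8) (.e (nat_lit 131116) (nat_lit 9) (.e (nat_lit 336004) (nat_lit 2) (.e (nat_lit 90172) (nat_lit 14) (.e (nat_lit 188160) (nat_lit 0) (.e (nat_lit 5193) (nat_lit 294) .nil))))))) (.g (nat_lit 5) .nil .nil))) 
(.lf (nat_lit 146921) (.g (nat_lit 3632) (.e (nat_lit 57374) (nat_lit 2) (.e (nat_lit 90170) (nat_lit 13) (.e (nat_lit 172065) (nat_lit 3) (.e (nat_lit 204838) (nat_lit 20) (.e (nat_lit 114708) (nat_lit 20) (.e (nat_lit 1800) (nat_lit 119) (.e (nat_lit 516117) (nat_lit 1) (.e (nat_lit 164397) (nat_lit 256) .nil)))))))) (.g (nat_lit 4) .nil .nil)))) (.nd (nat_lit 5) 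
(.lf (nat_lit 146905) (.g (nat_lit 2821) (.e (nat_lit 57374) (nat_lit 2) (.e (nat_lit 90170) (nat_lit 13) (.e (nat_lit 172065) (nat_lit 3) (.e (nat_lit 204834) (nat_lit 19) (.e (nat_lit 106537) (nat_lit 12) (.e (nat_lit 57464) (nat_lit 23) (.e (nat_lit 516116) (nat_lit 1) (.e (nat_lit 164397) (nat_lit 256) .nil)))))))) (.g (nat_lit 4) .nil .nil))) 
(.lf (nat_lit 146937) (.g (nat_lit 3658) (.e (nat_lit 57374) (nat_lit 2) (.e (nat_lit 90170) (nat_lit 13) (.e (nat_lit 172065) (nat_lit 3) (.e (nat_lit 204838) (nat_lit 20) (.e (nat_lit 114719) (nat_lit 23) (.e (nat_lit 98325) (nat_lit 17) (.e (nat_lit 2458) (nat_lit 157) (.e (nat_lit 5935) (nat_lit 322) .nil)))))))) (.g (nat_lit 5) .nil .nil)))))) 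
(.nd (nat_lit 3) (.nd (nat_lit 4) (.nd (nat_lit 5) 
(.lf (nat_lit 146885) (.g (nat_lit 3090) (.e (nat_lit 57373) (nat_lit 2) (.e (nat_lit 90185) (nat_lit 17) (.e (nat_lit 237624) (nat_lit 13) (.e (nat_lit 483341) (nat_lit 9) (.e (nat_lit 426107) (nat_lit 1) (.e (nat_lit 164403) (nat_lit 256) .nil)))))) (.g (nat_lit 0) .nil .nil))) 
(.lf (nat_lit 146917) (.g (nat_lit 3591) (.e (nat_lit 57374) (nat_lit 2) (.e (nat_lit 90170) (nat_lit 13) (.e (nat_lit 172065) (nat_lit 3) (.e (nat_lit 204837) (nat_lit 20) (.e (nat_lit 114719) (nat_lit 23) (.e (nat_lit 98333) (nat_lit 18) (.e (nat_lit 164399) (nat_lit 256) .nil))))))) (.g (nat_lit 5) .nil .nil)))) (.nd (nat_lit 5) 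
(.lf (nat_lit 146901) (.g (nat_lit 3066) (.e (nat_lit 57374) (nat_lit 2) (.e (nat_lit 90160) (nat_lit 11) (.e (nat_lit 24655) (nat_lit 13) (.e (nat_lit 393225) (nat_lit 9) (.e (nat_lit 335995) (nat_lit 1) .nil))))) .nil)) 
(.lf (nat_lit 146933) (.g (nat_lit 4290) (.e (nat_lit 57374) (nat_lit 2) (.e (nat_lit 90170) (nat_lit 13) (.e (nat_lit 172065) (nat_lit 3) (.e (nat_lit 204838) (nat_lit 20) (.e (nat_lit 114718) (nat_lit 23) (.e (nat_lit 98333) (nat_lit 18) (.e (nat_lit 164400) (nat_lit 256) .nil))))))) (.g (nat_lit 5) .nil .nil))))) (.nd (nat_lit 4) (.nd (nat_lit 5) 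
(.lf (nat_lit 146893) (.g (nat_lit 2250) (.e (nat_lit 57374) (nat_lit 2) (.e (nat_lit 90134) (nat_lit 9) (.e (nat_lit 290) (nat_lit 21) (.e (nat_lit 336076) (nat_lit 9) (.e (nat_lit 336454) (nat_lit 34) (.e (nat_lit 483366) (nat_lit 18) (.e (nat_lit 57848) (nat_lit 252) .nil))))))) (.g (nat_lit 4) .nil .nil))) 
(.lf (nat_lit 146925) (.g (nat_lit 3361) (.e (nat_lit 57374) (nat_lit 2) (.e (nat_lit 90170) (nat_lit 13) (.e (nat_lit 172065) (nat_lit 3) (.e (nat_lit 204838) (nat_lit 20) (.e (nat_lit 114717) (nat_lit 23) (.e (nat_lit 98333) (nat_lit 18) (.e (nat_lit 164398) (nat_lit 256) .nil))))))) (.g (nat_lit 4) .nil .nil)))) (.nd (nat_lit 5) 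
(.lf (nat_lit 146909) (.g (nat_lit 3222) (.e (nat_lit 57374) (nat_lit 2) (.e (nat_lit 90170) (nat_lit 13) (.e (nat_lit 172065) (nat_lit 3) (.e (nat_lit 204837) (nat_lit 20) (.e (nat_lit 114717) (nat_lit 23) (.e (nat_lit 98334) (nat_lit 18) (.e (nat_lit 164398) (nat_lit 256) .nil))))))) (.g (nat_lit 4) .nil .nil))) 
(.lf (nat_lit 146941) (.g (nat_lit 4159) (.e (nat_lit 57374) (nat_lit 2) (.e (nat_lit 90170) (nat_lit 13) (.e (nat_lit 172065) (nat_lit 3) (.e (nat_lit 204838) (nat_lit 20) (.e (nat_lit 114719) (nat_lit 23) (.e (nat_lit 98333) (nat_lit 18) (.e (nat_lit 164397) (nat_lit 256) .nil))))))) (.g (nat_lit 6) .nil .nil))))))) (.nd (nat_lit 2) (.nd (nat_lit 3) (.nd (nat_lit 4) (.nd (nat_lit 5) 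
(.lf (nat_lit 146883) (.g (nat_lit 3146) (.e (nat_lit 57373) (nat_lit 2) (.e (nat_lit 90185) (nat_lit 17) (.e (nat_lit 237624) (nat_lit 13) (.e (nat_lit 483337) (nat_lit 9) (.e (nat_lit 426108) (nat_lit 1) (.e (nat_lit 164403) (nat_lit 256) .nil)))))) (.g (nat_lit 0) .nil .nil))) 
(.lf (nat_lit 146915) (.g (nat_lit 3762) (.e (nat_lit 57374) (nat_lit 2) (.e (nat_lit 90170) (nat_lit 13) (.e (nat_lit 172065) (nat_lit 3) (.e (nat_lit 204837) (nat_lit 20) (.e (nat_lit 114718) (nat_lit 23) (.e (nat_lit 98334) (nat_lit 18) (.e (nat_lit 164400) (nat_lit 256) .nil))))))) (.g (nat_lit 5) .nil .nil)))) (.nd (nat_lit 5) 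
(.lf (nat_lit 146899) (.g (nat_lit 1482) (.e (nat_lit 57374) (nat_lit 2) (.e (nat_lit 90158) (nat_lit 11) (.e (nat_lit 24628) (nat_lit 9) (.e (nat_lit 336370) (nat_lit 27) .nil)))) .nil)) 
(.lf (nat_lit 146931) (.g (nat_lit 2867) (.e (nat_lit 57374) (nat_lit 2) (.e (nat_lit 90170) (nat_lit 13) (.e (nat_lit 172065) (nat_lit 3) (.e (nat_lit 204838) (nat_lit 20) (.e (nat_lit 114718) (nat_lit 23) (.e (nat_lit 98333) (nat_lit 18) (.e (nat_lit 164396) (nat_lit 256) .nil))))))) (.g (nat_lit 4) .nil .nil))))) (.nd (nat_lit 4) (.nd (nat_lit 5) 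
(.lf (nat_lit 146891) (.g (nat_lit 1438) (.e (nat_lit 57374) (nat_lit 2) (.e (nat_lit 90134) (nat_lit 9) (.e (nat_lit 248) (nat_lit 21) (.e (nat_lit 336076) (nat_lit 9) (.e (nat_lit 336454) (nat_lit 34) .nil))))) .nil)) 
(.lf (nat_lit 146923) (.g (nat_lit 2980) (.e (nat_lit 57374) (nat_lit 2) (.e (nat_lit 90170) (nat_lit 13) (.e (nat_lit 172065) (nat_lit 3) (.e (nat_lit 204838) (nat_lit 20) (.e (nat_lit 114715) (nat_lit 22) (.e (nat_lit 90165) (nat_lit 12) (.e (nat_lit 171776) (nat_lit 0) (.e (nat_lit 5937) (nat_lit 322) .nil)))))))) (.g (nat_lit 4) .nil .nil)))) (.nd (nat_lit 5) 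
(.lf (nat_lit 146907) (.g (nat_lit 3257) (.e (nat_lit 57374) (nat_lit 2) (.e (nat_lit 90170) (nat_lit 13) (.e (nat_lit 172065) (nat_lit 3) (.e (nat_lit 204837) (nat_lit 20) (.e (nat_lit 114717) (nat_lit 23) (.e (nat_lit 98333) (nat_lit 18) (.e (nat_lit 164399) (nat_lit 256) .nil))))))) (.g (nat_lit 4) .nil .nil))) 
(.lf (nat_lit 146939) (.g (nat_lit 3429) (.e (nat_lit 57374) (nat_lit 2) (.e (nat_lit 90170) (nat_lit 13) (.e (nat_lit 172065) (nat_lit 3) (.e (nat_lit 204838) (nat_lit 20) (.e (nat_lit 114719) (nat_lit 23) (.e (nat_lit 98332) (nat_lit 18) (.e (nat_lit 164397) (nat_lit 256) .nil))))))) (.g (nat_lit 5) .nil .nil)))))) (.nd (nat_lit 3) (.nd (nat_lit 4) (.nd (nat_lit 5) 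
(.lf (nat_lit 146887) (.g (nat_lit 3118) (.e (nat_lit 57373) (nat_lit 2) (.e (nat_lit 90185) (nat_lit 17) (.e (nat_lit 237624) (nat_lit 13) (.e (nat_lit 483341) (nat_lit 9) (.e (nat_lit 426108) (nat_lit 1) (.e (nat_lit 164403) (nat_lit 256) .nil)))))) (.g (nat_lit 0) .nil .nil))) 
(.lf (nat_lit 146919) (.g (nat_lit 3887) (.e (nat_lit 57374) (nat_lit 2) (.e (nat_lit 90170) (nat_lit 13) (.e (nat_lit 172065) (nat_lit 3) (.e (nat_lit 204837) (nat_lit 20) (.e (nat_lit 114719) (nat_lit 23) (.e (nat_lit 98334) (nat_lit 18) (.e (nat_lit 164397) (nat_lit 256) .nil))))))) (.g (nat_lit 6) .nil .nil)))) (.nd (nat_lit 5) 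
(.lf (nat_lit 146903) (.g (nat_lit 2446) (.e (nat_lit 57374) (nat_lit 2) (.e (nat_lit 90165) (nat_lit 12) (.e (nat_lit 171776) (nat_lit 48) (.e (nat_lit 720941) (nat_lit 22) (.e (nat_lit 90172) (nat_lit 14) (.e (nat_lit 180244) (nat_lit 5) (.e (nat_lit 532499) (nat_lit 1) (.e (nat_lit 65280) (nat_lit 154) .nil)))))))) (.g (nat_lit 6) .nil .nil))) 
(.lf (nat_lit 146935) (.g (nat_lit 5003) (.e (nat_lit 57374) (nat_lit 2) (.e (nat_lit 90170) (nat_lit 13) (.e (nat_lit 172065) (nat_lit 3) (.e (nat_lit 204838) (nat_lit 20) (.e (nat_lit 114718) (nat_lit 23) (.e (nat_lit 98334) (nat_lit 18) (.e (nat_lit 164397) (nat_lit 256) .nil))))))) (.g (nat_lit 6) .nil .nil))))) (.nd (nat_lit 4) (.nd (nat_lit 5) 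
(.lf (nat_lit 146895) (.g (nat_lit 753) (.e (nat_lit 57374) (nat_lit 2) (.e (nat_lit 90134) (nat_lit 9) (.e (nat_lit 290) (nat_lit 21) (.e (nat_lit 336214) (nat_lit 13) .nil)))) .nil)) 
(.lf (nat_lit 146927) (.g (nat_lit 2932) (.e (nat_lit 57374) (nat_lit 2) (.e (nat_lit 90170) (nat_lit 13) (.e (nat_lit 172065) (nat_lit 3) (.e (nat_lit 204838) (nat_lit 20) (.e (nat_lit 114717) (nat_lit 23) (.e (nat_lit 98334) (nat_lit 18) (.e (nat_lit 164396) (nat_lit 256) .nil))))))) (.g (nat_lit 4) .nil .nil)))) (.nd (nat_lit 5) 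
(.lf (nat_lit 146911) (.g (nat_lit 3646) (.e (nat_lit 57374) (nat_lit 2) (.e (nat_lit 90170) (nat_lit 13) (.e (nat_lit 172065) (nat_lit 3) (.e (nat_lit 204837) (nat_lit 20) (.e (nat_lit 114718) (nat_lit 23) (.e (nat_lit 98333) (nat_lit 18) (.e (nat_lit 164397) (nat_lit 256) .nil))))))) (.g (nat_lit 5) .nil .nil))) 
(.lf (nat_lit 146943) (.g (nat_lit 3565) (.e (nat_lit 57374) (nat_lit 2) (.e (nat_lit 90170) (nat_lit 13) (.e (nat_lit 172065) (nat_lit 3) (.e (nat_lit 204838) (nat_lit 20) (.e (nat_lit 114719) (nat_lit 23) (.e (nat_lit 98334) (nat_lit 18) (.e (nat_lit 164396) (nat_lit 256) .nil))))))) (.g (nat_lit 5) .nil .nil)))))))))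

noncomputable def tv1954 : DT := (.nd (nat_lit 0) (.nd (nat_lit 1) (.nd (nat_lit 2) (.nd (nat_lit 3) (.nd (nat_lit 4) (.nd (nat_lit 5) 
(.lf (nat_lit 146944) (.g (nat_lit 4517) (.e (nat_lit 57374) (nat_lit 2) (.e (nat_lit 90170) (nat_lit 13) (.e (nat_lit 172065) (nat_lit 3) (.e (nat_lit 204838) (nat_lit 20) (.e (nat_lit 114719) (nat_lit 23) (.e (nat_lit 98334) (nat_lit 18) (.e (nat_lit 164397) (nat_lit 256) .nil))))))) (.g (nat_lit 6) .nil .nil))) 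
(.lf (nat_lit 146976) (.g (nat_lit 1432) (.e (nat_lit 57374) (nat_lit 2) (.e (nat_lit 90170) (nat_lit 13) (.e (nat_lit 172067) (nat_lit 3) (.e (nat_lit 204838) (nat_lit 20) .nil)))) .nil))) (.nd (nat_lit 5) 
(.lf (nat_lit 146960) (.g (nat_lit 3893) (.e (nat_lit 57374) (nat_lit 2) (.e (nat_lit 90170) (nat_lit 13) (.e (nat_lit 172067) (nat_lit 3) (.e (nat_lit 204837) (nat_lit 20) (.e (nat_lit 114717) (nat_lit 23) (.e (nat_lit 98334) (nat_lit 18) (.e (nat_lit 164397) (nat_lit 256) .nil))))))) (.g (nat_lit 6) .nil .nil))) 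
(.lf (nat_lit 146992) (.g (nat_lit 4163) (.e (nat_lit 57374) (nat_lit 2) (.e (nat_lit 90170) (nat_lit 13) (.e (nat_lit 172067) (nat_lit 3) (.e (nat_lit 204838) (nat_lit 20) (.e (nat_lit 114717) (nat_lit 23) (.e (nat_lit 98334) (nat_lit 18) (.e (nat_lit 164397) (nat_lit 256) .nil))))))) (.g (nat_lit 6) .nil .nil))))) (.nd (nat_lit 4) (.nd (nat_lit 5) 
(.lf (nat_lit 146952) (.g (nat_lit 2713) (.e (nat_lit 57374) (nat_lit 2) (.e (nat_lit 90170) (nat_lit 13) (.e (nat_lit 172067) (nat_lit 3) (.e (nat_lit 204834) (nat_lit 19) (.e (nat_lit 106537) (nat_lit 12) (.e (nat_lit 57464) (nat_lit 23) (.e (nat_lit 516116) (nat_lit 1) (.e (nat_lit 164397) (nat_lit 256) .nil)))))))) (.g (nat_lit 4) .nil .nil))) 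
(.lf (nat_lit 146984) (.g (nat_lit 2850) (.e (nat_lit 57374) (nat_lit 2) (.e (nat_lit 90170) (nat_lit 13) (.e (nat_lit 172067) (nat_lit 3) (.e (nat_lit 204838) (nat_lit 20) (.e (nat_lit 114716) (nat_lit 22) (.e (nat_lit 90181) (nat_lit 16) (.e (nat_lit 229376) (nat_lit 0) (.e (nat_lit 5938) (nat_lit 322) .nil)))))))) (.g (nat_lit 4) .nil .nil)))) (.nd (nat_lit 5) 
(.lf (nat_lit 146968) (.g (nat_lit 4555) (.e (nat_lit 57374) (nat_lit 2) (.e (nat_lit 90170) (nat_lit 13) (.e (nat_lit 172067) (nat_lit 3) (.e (nat_lit 204837) (nat_lit 20) (.e (nat_lit 114718) (nat_lit 23) (.e (nat_lit 98334) (nat_lit 18) (.e (nat_lit 164400) (nat_lit 256) .nil))))))) (.g (nat_lit 6) .nil .nil))) 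
(.lf (nat_lit 147000) (.g (nat_lit 4343) (.e (nat_lit 57374) (nat_lit 2) (.e (nat_lit 90170) (nat_lit 13) (.e (nat_lit 172067) (nat_lit 3) (.e (nat_lit 204838) (nat_lit 20) (.e (nat_lit 114718) (nat_lit 23) (.e (nat_lit 98334) (nat_lit 18) (.e (nat_lit 164396) (nat_lit 256) .nil))))))) (.g (nat_lit 6) .nil .nil)))))) (.nd (nat_lit 3) (.nd (nat_lit 4) (.nd (nat_lit 5) 
(.lf (nat_lit 146948) (.g (nat_lit 3149) (.e (nat_lit 57374) (nat_lit 2) (.e (nat_lit 90170) (nat_lit 13) (.e (nat_lit 172067) (nat_lit 3) (.e (nat_lit 204809) (nat_lit 9) (.e (nat_lit 426124) (nat_lit 2) (.e (nat_lit 196677) (nat_lit 16) (.e (nat_lit 122881) (nat_lit 0) (.e (nat_lit 7695) (nat_lit 412) .nil)))))))) (.g (nat_lit 5) .nil .nil))) 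
(.lf (nat_lit 146980) (.g (nat_lit 2002) (.e (nat_lit 57374) (nat_lit 2) (.e (nat_lit 90170) (nat_lit 13) (.e (nat_lit 172067) (nat_lit 3) (.e (nat_lit 204838) (nat_lit 20) (.e (nat_lit 114715) (nat_lit 22) .nil))))) .nil))) (.nd (nat_lit 5) 
(.lf (nat_lit 146964) (.g (nat_lit 4014) (.e (nat_lit 57374) (nat_lit 2) (.e (nat_lit 90170) (nat_lit 13) (.e (nat_lit 172067) (nat_lit 3) (.e (nat_lit 204837) (nat_lit 20) (.e (nat_lit 114718) (nat_lit 23) (.e (nat_lit 98333) (nat_lit 18) (.e (nat_lit 164400) (nat_lit 256) .nil))))))) (.g (nat_lit 6) .nil .nil))) 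
(.lf (nat_lit 146996) (.g (nat_lit 2989) (.e (nat_lit 57374) (nat_lit 2) (.e (nat_lit 90170) (nat_lit 13) (.e (nat_lit 172067) (nat_lit 3) (.e (nat_lit 204838) (nat_lit 20) (.e (nat_lit 114718) (nat_lit 23) (.e (nat_lit 98333) (nat_lit 18) (.e (nat_lit 164396) (nat_lit 256) .nil))))))) (.g (nat_lit 4) .nil .nil))))) (.nd (nat_lit 4) (.nd (nat_lit 5) 
(.lf (nat_lit 146956) (.g (nat_lit 2932) (.e (nat_lit 57374) (nat_lit 2) (.e (nat_lit 90170) (nat_lit 13) (.e (nat_lit 172067) (nat_lit 3) (.e (nat_lit 204837) (nat_lit 20) (.e (nat_lit 114708) (nat_lit 20) (.e (nat_lit 1800) (nat_lit 119) (.e (nat_lit 516115) (nat_lit 1) (.e (nat_lit 164397) (nat_lit 256) .nil)))))))) (.g (nat_lit 4) .nil .nil))) 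
(.lf (nat_lit 146988) (.g (nat_lit 3498) (.e (nat_lit 57374) (nat_lit 2) (.e (nat_lit 90170) (nat_lit 13) (.e (nat_lit 172067) (nat_lit 3) (.e (nat_lit 204838) (nat_lit 20) (.e (nat_lit 114717) (nat_lit 23) (.e (nat_lit 98333) (nat_lit 18) (.e (nat_lit 164397) (nat_lit 256) .nil))))))) (.g (nat_lit 5) .nil .nil)))) (.nd (nat_lit 5) 
(.lf (nat_lit 146972) (.g (nat_lit 3545) (.e (nat_lit 57374) (nat_lit 2) (.e (nat_lit 90170) (nat_lit 13) (.e (nat_lit 172067) (nat_lit 3) (.e (nat_lit 204837) (nat_lit 20) (.e (nat_lit 114719) (nat_lit 23) (.e (nat_lit 98333) (nat_lit 18) (.e (nat_lit 164400) (nat_lit 256) .nil))))))) (.g (nat_lit 5) .nil .nil))) 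
(.lf (nat_lit 147004) (.g (nat_lit 1972) (.e (nat_lit 57374) (nat_lit 2) (.e (nat_lit 90170) (nat_lit 13) (.e (nat_lit 172067) (nat_lit 3) (.e (nat_lit 204838) (nat_lit 20) (.e (nat_lit 114719) (nat_lit 23) .nil))))) .nil)))))) (.nd (nat_lit 2) (.nd (nat_lit 3) (.nd (nat_lit 4) (.nd (nat_lit 5) 
(.lf (nat_lit 146946) (.g (nat_lit 2979) (.e (nat_lit 57374) (nat_lit 2) (.e (nat_lit 90170) (nat_lit 13) (.e (nat_lit 172065) (nat_lit 3) (.e (nat_lit 204838) (nat_lit 20) (.e (nat_lit 114719) (nat_lit 23) (.e (nat_lit 98335) (nat_lit 18) (.e (nat_lit 164396) (nat_lit 256) .nil))))))) (.g (nat_lit 4) .nil .nil))) 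
(.lf (nat_lit 146978) (.g (nat_lit 3177) (.e (nat_lit 57374) (nat_lit 2) (.e (nat_lit 90170) (nat_lit 13) (.e (nat_lit 172067) (nat_lit 3) (.e (nat_lit 204838) (nat_lit 20) (.e (nat_lit 114708) (nat_lit 20) (.e (nat_lit 1800) (nat_lit 119) (.e (nat_lit 516117) (nat_lit 1) (.e (nat_lit 164396) (nat_lit 256) .nil)))))))) (.g (nat_lit 4) .nil .nil)))) (.nd (nat_lit 5) 
(.lf (nat_lit 146962) (.g (nat_lit 3111) (.e (nat_lit 57374) (nat_lit 2) (.e (nat_lit 90170) (nat_lit 13) (.e (nat_lit 172067) (nat_lit 3) (.e (nat_lit 204837) (nat_lit 20) (.e (nat_lit 114718) (nat_lit 23) (.e (nat_lit 98325) (nat_lit 17) (.e (nat_lit 2458) (nat_lit 157) (.e (nat_lit 5935) (nat_lit 322) .nil)))))))) (.g (nat_lit 4) .nil .nil))) 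
(.lf (nat_lit 146994) (.g (nat_lit 2228) (.e (nat_lit 57374) (nat_lit 2) (.e (nat_lit 90170) (nat_lit 13) (.e (nat_lit 172067) (nat_lit 3) (.e (nat_lit 204838) (nat_lit 20) (.e (nat_lit 114718) (nat_lit 23) .nil))))) .nil)))) (.nd (nat_lit 4) (.nd (nat_lit 5) 
(.lf (nat_lit 146954) (.g (nat_lit 2186) (.e (nat_lit 57374) (nat_lit 2) (.e (nat_lit 90170) (nat_lit 13) (.e (nat_lit 172067) (nat_lit 3) (.e (nat_lit 204837) (nat_lit 20) (.e (nat_lit 114707) (nat_lit 20) .nil))))) .nil)) 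
(.lf (nat_lit 146986) (.g (nat_lit 3271) (.e (nat_lit 57374) (nat_lit 2) (.e (nat_lit 90170) (nat_lit 13) (.e (nat_lit 172067) (nat_lit 3) (.e (nat_lit 204838) (nat_lit 20) (.e (nat_lit 114716) (nat_lit 22) (.e (nat_lit 90181) (nat_lit 16) (.e (nat_lit 229378) (nat_lit 0) (.e (nat_lit 5935) (nat_lit 322) .nil)))))))) (.g (nat_lit 4) .nil .nil)))) (.nd (nat_lit 5) 
(.lf (nat_lit 146970) (.g (nat_lit 2622) (.e (nat_lit 57374) (nat_lit 2) (.e (nat_lit 90170) (nat_lit 13) (.e (nat_lit 172067) (nat_lit 3) (.e (nat_lit 204837) (nat_lit 20) (.e (nat_lit 114719) (nat_lit 23) (.e (nat_lit 98332) (nat_lit 18) (.e (nat_lit 164397) (nat_lit 256) .nil))))))) (.g (nat_lit 4) .nil .nil))) 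
(.lf (nat_lit 147002) (.g (nat_lit 5084) (.e (nat_lit 57374) (nat_lit 2) (.e (nat_lit 90170) (nat_lit 13) (.e (nat_lit 172067) (nat_lit 3) (.e (nat_lit 204838) (nat_lit 20) (.e (nat_lit 114718) (nat_lit 23) (.e (nat_lit 98334) (nat_lit 18) (.e (nat_lit 164399) (nat_lit 256) .nil))))))) (.g (nat_lit 7) .nil .nil)))))) (.nd (nat_lit 3) (.nd (nat_lit 4) (.nd (nat_lit 5) 
(.lf (nat_lit 146950) (.g (nat_lit 1465) (.e (nat_lit 57374) (nat_lit 2) (.e (nat_lit 90170) (nat_lit 13) (.e (nat_lit 172067) (nat_lit 3) (.e (nat_lit 204834) (nat_lit 19) .nil)))) .nil)) 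
(.lf (nat_lit 146982) (.g (nat_lit 1881) (.e (nat_lit 57374) (nat_lit 2) (.e (nat_lit 90170) (nat_lit 13) (.e (nat_lit 172067) (nat_lit 3) (.e (nat_lit 204838) (nat_lit 20) (.e (nat_lit 114716) (nat_lit 22) .nil))))) .nil))) (.nd (nat_lit 5) 
(.lf (nat_lit 146966) (.g (nat_lit 4926) (.e (nat_lit 57374) (nat_lit 2) (.e (nat_lit 90170) (nat_lit 13) (.e (nat_lit 172067) (nat_lit 3) (.e (nat_lit 204837) (nat_lit 20) (.e (nat_lit 114718) (nat_lit 23) (.e (nat_lit 98334) (nat_lit 18) (.e (nat_lit 164397) (nat_lit 256) .nil))))))) (.g (nat_lit 7) .nil .nil))) 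
(.lf (nat_lit 146998) (.g (nat_lit 5020) (.e (nat_lit 57374) (nat_lit 2) (.e (nat_lit 90170) (nat_lit 13) (.e (nat_lit 172067) (nat_lit 3) (.e (nat_lit 204838) (nat_lit 20) (.e (nat_lit 114718) (nat_lit 23) (.e (nat_lit 98333) (nat_lit 18) (.e (nat_lit 164399) (nat_lit 256) .nil))))))) (.g (nat_lit 7) .nil .nil))))) (.nd (nat_lit 4) (.nd (nat_lit 5) 
(.lf (nat_lit 146958) (.g (nat_lit 3279) (.e (nat_lit 57374) (nat_lit 2) (.e (nat_lit 90170) (nat_lit 13) (.e (nat_lit 172067) (nat_lit 3) (.e (nat_lit 204837) (nat_lit 20) (.e (nat_lit 114717) (nat_lit 23) (.e (nat_lit 98333) (nat_lit 18) (.e (nat_lit 164397) (nat_lit 256) .nil))))))) (.g (nat_lit 5) .nil .nil))) 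
(.lf (nat_lit 146990) (.g (nat_lit 3013) (.e (nat_lit 57374) (nat_lit 2) (.e (nat_lit 90170) (nat_lit 13) (.e (nat_lit 172067) (nat_lit 3) (.e (nat_lit 204838) (nat_lit 20) (.e (nat_lit 114717) (nat_lit 23) (.e (nat_lit 98333) (nat_lit 18) (.e (nat_lit 164400) (nat_lit 256) .nil))))))) (.g (nat_lit 4) .nil .nil)))) (.nd (nat_lit 5) 
(.lf (nat_lit 146974) (.g (nat_lit 4563) (.e (nat_lit 57374) (nat_lit 2) (.e (nat_lit 90170) (nat_lit 13) (.e (nat_lit 172067) (nat_lit 3) (.e (nat_lit 204837) (nat_lit 20) (.e (nat_lit 114719) (nat_lit 23) (.e (nat_lit 98334) (nat_lit 18) (.e (nat_lit 164397) (nat_lit 256) .nil))))))) (.g (nat_lit 7) .nil .nil))) 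
(.lf (nat_lit 147006) (.g (nat_lit 2946) (.e (nat_lit 57374) (nat_lit 2) (.e (nat_lit 90170) (nat_lit 13) (.e (nat_lit 172067) (nat_lit 3) (.e (nat_lit 204838) (nat_lit 20) (.e (nat_lit 114719) (nat_lit 23) (.e (nat_lit 98325) (nat_lit 17) (.e (nat_lit 2458) (nat_lit 157) (.e (nat_lit 5938) (nat_lit 322) .nil)))))))) (.g (nat_lit 4) .nil .nil)))))))) 
(.nd (nat_lit 1) (.nd (nat_lit 2) (.nd (nat_lit 3) (.nd (nat_lit 4) (.nd (nat_lit 5) 
(.lf (nat_lit 146945) (.g (nat_lit 4123) (.e (nat_lit 57374) (nat_lit 2) (.e (nat_lit 90170) (nat_lit 13) (.e (nat_lit 172065) (nat_lit 3) (.e (nat_lit 204838) (nat_lit 20) (.e (nat_lit 114719) (nat_lit 23) (.e (nat_lit 98334) (nat_lit 18) (.e (nat_lit 164400) (nat_lit 256) .nil))))))) (.g (nat_lit 6) .nil .nil))) 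
(.lf (nat_lit 146977) (.g (nat_lit 2329) (.e (nat_lit 57374) (nat_lit 2) (.e (nat_lit 90170) (nat_lit 13) (.e (nat_lit 172067) (nat_lit 3) (.e (nat_lit 204838) (nat_lit 20) (.e (nat_lit 114707) (nat_lit 20) .nil))))) .nil))) (.nd (nat_lit 5) 
(.lf (nat_lit 146961) (.g (nat_lit 3059) (.e (nat_lit 57374) (nat_lit 2) (.e (nat_lit 90170) (nat_lit 13) (.e (nat_lit 172067) (nat_lit 3) (.e (nat_lit 204837) (nat_lit 20) (.e (nat_lit 114717) (nat_lit 23) (.e (nat_lit 98334) (nat_lit 18) (.e (nat_lit 164400) (nat_lit 256) .nil))))))) (.g (nat_lit 4) .nil .nil))) 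
(.lf (nat_lit 146993) (.g (nat_lit 3329) (.e (nat_lit 57374) (nat_lit 2) (.e (nat_lit 90170) (nat_lit 13) (.e (nat_lit 172067) (nat_lit 3) (.e (nat_lit 204838) (nat_lit 20) (.e (nat_lit 114717) (nat_lit 23) (.e (nat_lit 98334) (nat_lit 18) (.e (nat_lit 164400) (nat_lit 256) .nil))))))) (.g (nat_lit 4) .nil .nil))))) (.nd (nat_lit 4) (.nd (nat_lit 5) 
(.lf (nat_lit 146953) (.g (nat_lit 1412) (.e (nat_lit 57374) (nat_lit 2) (.e (nat_lit 90170) (nat_lit 13) (.e (nat_lit 172067) (nat_lit 3) (.e (nat_lit 204837) (nat_lit 20) .nil)))) .nil)) 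
(.lf (nat_lit 146985) (.g (nat_lit 2819) (.e (nat_lit 57374) (nat_lit 2) (.e (nat_lit 90170) (nat_lit 13) (.e (nat_lit 172067) (nat_lit 3) (.e (nat_lit 204838) (nat_lit 20) (.e (nat_lit 114716) (nat_lit 22) (.e (nat_lit 90181) (nat_lit 16) (.e (nat_lit 229376) (nat_lit 0) (.e (nat_lit 5940) (nat_lit 322) .nil)))))))) (.g (nat_lit 4) .nil .nil)))) (.nd (nat_lit 5) 
(.lf (nat_lit 146969) (.g (nat_lit 2984) (.e (nat_lit 57374) (nat_lit 2) (.e (nat_lit 90170) (nat_lit 13) (.e (nat_lit 172067) (nat_lit 3) (.e (nat_lit 204837) (nat_lit 20) (.e (nat_lit 114719) (nat_lit 23) (.e (nat_lit 98325) (nat_lit 17) (.e (nat_lit 2458) (nat_lit 157) (.e (nat_lit 5935) (nat_lit 322) .nil)))))))) (.g (nat_lit 4) .nil .nil))) 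
(.lf (nat_lit 147001) (.g (nat_lit 5116) (.e (nat_lit 57374) (nat_lit 2) (.e (nat_lit 90170) (nat_lit 13) (.e (nat_lit 172067) (nat_lit 3) (.e (nat_lit 204838) (nat_lit 20) (.e (nat_lit 114718) (nat_lit 23) (.e (nat_lit 98334) (nat_lit 18) (.e (nat_lit 164397) (nat_lit 256) .nil))))))) (.g (nat_lit 7) .nil .nil)))))) (.nd (nat_lit 3) (.nd (nat_lit 4) (.nd (nat_lit 5) 
(.lf (nat_lit 146949) (.g (nat_lit 3772) (.e (nat_lit 57374) (nat_lit 2) (.e (nat_lit 90170) (nat_lit 13) (.e (nat_lit 172067) (nat_lit 3) (.e (nat_lit 204809) (nat_lit 9) (.e (nat_lit 426139) (nat_lit 3) (.e (nat_lit 204815) (nat_lit 17) (.e (nat_lit 974) (nat_lit 81) (.e (nat_lit 7695) (nat_lit 412) .nil)))))))) (.g (nat_lit 5) .nil .nil))) 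
(.lf (nat_lit 146981) (.g (nat_lit 2926) (.e (nat_lit 57374) (nat_lit 2) (.e (nat_lit 90170) (nat_lit 13) (.e (nat_lit 172067) (nat_lit 3) (.e (nat_lit 204838) (nat_lit 20) (.e (nat_lit 114715) (nat_lit 22) (.e (nat_lit 90165) (nat_lit 12) (.e (nat_lit 171776) (nat_lit 0) (.e (nat_lit 5937) (nat_lit 322) .nil)))))))) (.g (nat_lit 4) .nil .nil)))) (.nd (nat_lit 5) 
(.lf (nat_lit 146965) (.g (nat_lit 3873) (.e (nat_lit 57374) (nat_lit 2) (.e (nat_lit 90170) (nat_lit 13) (.e (nat_lit 172067) (nat_lit 3) (.e (nat_lit 204837) (nat_lit 20) (.e (nat_lit 114718) (nat_lit 23) (.e (nat_lit 98334) (nat_lit 18) (.e (nat_lit 164396) (nat_lit 256) .nil))))))) (.g (nat_lit 6) .nil .nil))) 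
(.lf (nat_lit 146997) (.g (nat_lit 4798) (.e (nat_lit 57374) (nat_lit 2) (.e (nat_lit 90170) (nat_lit 13) (.e (nat_lit 172067) (nat_lit 3) (.e (nat_lit 204838) (nat_lit 20) (.e (nat_lit 114718) (nat_lit 23) (.e (nat_lit 98333) (nat_lit 18) (.e (nat_lit 164397) (nat_lit 256) .nil))))))) (.g (nat_lit 6) .nil .nil))))) (.nd (nat_lit 4) (.nd (nat_lit 5) 
(.lf (nat_lit 146957) (.g (nat_lit 3129) (.e (nat_lit 57374) (nat_lit 2) (.e (nat_lit 90170) (nat_lit 13) (.e (nat_lit 172067) (nat_lit 3) (.e (nat_lit 204837) (nat_lit 20) (.e (nat_lit 114708) (nat_lit 20) (.e (nat_lit 1800) (nat_lit 119) (.e (nat_lit 516115) (nat_lit 1) (.e (nat_lit 164400) (nat_lit 256) .nil)))))))) (.g (nat_lit 4) .nil .nil))) 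
(.lf (nat_lit 146989) (.g (nat_lit 3270) (.e (nat_lit 57374) (nat_lit 2) (.e (nat_lit 90170) (nat_lit 13) (.e (nat_lit 172067) (nat_lit 3) (.e (nat_lit 204838) (nat_lit 20) (.e (nat_lit 114717) (nat_lit 23) (.e (nat_lit 98333) (nat_lit 18) (.e (nat_lit 164398) (nat_lit 256) .nil))))))) (.g (nat_lit 4) .nil .nil)))) (.nd (nat_lit 5) 
(.lf (nat_lit 146973) (.g (nat_lit 3560) (.e (nat_lit 57374) (nat_lit 2) (.e (nat_lit 90170) (nat_lit 13) (.e (nat_lit 172067) (nat_lit 3) (.e (nat_lit 204837) (nat_lit 20) (.e (nat_lit 114719) (nat_lit 23) (.e (nat_lit 98334) (nat_lit 18) (.e (nat_lit 164396) (nat_lit 256) .nil))))))) (.g (nat_lit 5) .nil .nil))) 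
(.lf (nat_lit 147005) (.g (nat_lit 4069) (.e (nat_lit 57374) (nat_lit 2) (.e (nat_lit 90170) (nat_lit 13) (.e (nat_lit 172067) (nat_lit 3) (.e (nat_lit 204838) (nat_lit 20) (.e (nat_lit 114719) (nat_lit 23) (.e (nat_lit 98325) (nat_lit 17) (.e (nat_lit 2458) (nat_lit 157) (.e (nat_lit 5935) (nat_lit 322) .nil)))))))) (.g (nat_lit 5) .nil .nil))))))) 
(.nd (nat_lit 2) (.nd (nat_lit 3) (.nd (nat_lit 4) (.nd (nat_lit 5) 
(.lf (nat_lit 146947) (.g (nat_lit 3210) (.e (nat_lit 57374) (nat_lit 2) (.e (nat_lit 90170) (nat_lit 13) (.e (nat_lit 172067) (nat_lit 3) (.e (nat_lit 204809) (nat_lit 9) (.e (nat_lit 426124) (nat_lit 2) (.e (nat_lit 196677) (nat_lit 16) (.e (nat_lit 122880) (nat_lit 0) (.e (nat_lit 7695) (nat_lit 412) .nil)))))))) (.g (nat_lit 5) .nil .nil))) 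
(.lf (nat_lit 146979) (.g (nat_lit 3377) (.e (nat_lit 57374) (nat_lit 2) (.e (nat_lit 90170) (nat_lit 13) (.e (nat_lit 172067) (nat_lit 3) (.e (nat_lit 204838) (nat_lit 20) (.e (nat_lit 114708) (nat_lit 20) (.e (nat_lit 1800) (nat_lit 119) (.e (nat_lit 516120) (nat_lit 1) (.e (nat_lit 164396) (nat_lit 256) .nil)))))))) (.g (nat_lit 4) .nil .nil)))) (.nd (nat_lit 5) 
(.lf (nat_lit 146963) (.g (nat_lit 4438) (.e (nat_lit 57374) (nat_lit 2) (.e (nat_lit 90170) (nat_lit 13) (.e (nat_lit 172067) (nat_lit 3) (.e (nat_lit 204837) (nat_lit 20) (.e (nat_lit 114718) (nat_lit 23) (.e (nat_lit 98333) (nat_lit 18) (.e (nat_lit 164397) (nat_lit 256) .nil))))))) (.g (nat_lit 6) .nil .nil))) 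
(.lf (nat_lit 146995) (.g (nat_lit 3560) (.e (nat_lit 57374) (nat_lit 2) (.e (nat_lit 90170) (nat_lit 13) (.e (nat_lit 172067) (nat_lit 3) (.e (nat_lit 204838) (nat_lit 20) (.e (nat_lit 114718) (nat_lit 23) (.e (nat_lit 98325) (nat_lit 17) (.e (nat_lit 2458) (nat_lit 157) (.e (nat_lit 5935) (nat_lit 322) .nil)))))))) (.g (nat_lit 4) .nil .nil))))) (.nd (nat_lit 4) (.nd (nat_lit 5) 
(.lf (nat_lit 146955) (.g (nat_lit 3041) (.e (nat_lit 57374) (nat_lit 2) (.e (nat_lit 90170) (nat_lit 13) (.e (nat_lit 172067) (nat_lit 3) (.e (nat_lit 204837) (nat_lit 20) (.e (nat_lit 114707) (nat_lit 20) (.e (nat_lit 1800) (nat_lit 119) (.e (nat_lit 516117) (nat_lit 1) (.e (nat_lit 164400) (nat_lit 256) .nil)))))))) (.g (nat_lit 4) .nil .nil))) 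
(.lf (nat_lit 146987) (.g (nat_lit 2709) (.e (nat_lit 57374) (nat_lit 2) (.e (nat_lit 90170) (nat_lit 13) (.e (nat_lit 172067) (nat_lit 3) (.e (nat_lit 204838) (nat_lit 20) (.e (nat_lit 114716) (nat_lit 22) (.e (nat_lit 90181) (nat_lit 16) (.e (nat_lit 229378) (nat_lit 0) (.e (nat_lit 5938) (nat_lit 322) .nil)))))))) (.g (nat_lit 4) .nil .nil)))) (.nd (nat_lit 5) 
(.lf (nat_lit 146971) (.g (nat_lit 3962) (.e (nat_lit 57374) (nat_lit 2) (.e (nat_lit 90170) (nat_lit 13) (.e (nat_lit 172067) (nat_lit 3) (.e (nat_lit 204837) (nat_lit 20) (.e (nat_lit 114719) (nat_lit 23) (.e (nat_lit 98333) (nat_lit 18) (.e (nat_lit 164397) (nat_lit 256) .nil))))))) (.g (nat_lit 6) .nil .nil))) 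
(.lf (nat_lit 147003) (.g (nat_lit 4881) (.e (nat_lit 57374) (nat_lit 2) (.e (nat_lit 90170) (nat_lit 13) (.e (nat_lit 172067) (nat_lit 3) (.e (nat_lit 204838) (nat_lit 20) (.e (nat_lit 114718) (nat_lit 23) (.e (nat_lit 98334) (nat_lit 18) (.e (nat_lit 164400) (nat_lit 256) .nil))))))) (.g (nat_lit 6) .nil .nil)))))) (.nd (nat_lit 3) (.nd (nat_lit 4) (.nd (nat_lit 5) 
(.lf (nat_lit 146951) (.g (nat_lit 3654) (.e (nat_lit 57374) (nat_lit 2) (.e (nat_lit 90170) (nat_lit 13) (.e (nat_lit 172067) (nat_lit 3) (.e (nat_lit 204834) (nat_lit 19) (.e (nat_lit 106517) (nat_lit 9) (.e (nat_lit 1255) (nat_lit 92) (.e (nat_lit 98321) (nat_lit 17) (.e (nat_lit 2464) (nat_lit 157) (.e (nat_lit 5935) (nat_lit 322) .nil))))))))) (.g (nat_lit 7) .nil .nil))) 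
(.lf (nat_lit 146983) (.g (nat_lit 3686) (.e (nat_lit 57374) (nat_lit 2) (.e (nat_lit 90170) (nat_lit 13) (.e (nat_lit 172067) (nat_lit 3) (.e (nat_lit 204838) (nat_lit 20) (.e (nat_lit 114716) (nat_lit 22) (.e (nat_lit 90181) (nat_lit 16) (.e (nat_lit 229376) (nat_lit 0) (.e (nat_lit 5935) (nat_lit 322) .nil)))))))) (.g (nat_lit 5) .nil .nil)))) (.nd (nat_lit 5) 
(.lf (nat_lit 146967) (.g (nat_lit 4884) (.e (nat_lit 57374) (nat_lit 2) (.e (nat_lit 90170) (nat_lit 13) (.e (nat_lit 172067) (nat_lit 3) (.e (nat_lit 204837) (nat_lit 20) (.e (nat_lit 114718) (nat_lit 23) (.e (nat_lit 98334) (nat_lit 18) (.e (nat_lit 164399) (nat_lit 256) .nil))))))) (.g (nat_lit 7) .nil .nil))) 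
(.lf (nat_lit 146999) (.g (nat_lit 4403) (.e (nat_lit 57374) (nat_lit 2) (.e (nat_lit 90170) (nat_lit 13) (.e (nat_lit 172067) (nat_lit 3) (.e (nat_lit 204838) (nat_lit 20) (.e (nat_lit 114718) (nat_lit 23) (.e (nat_lit 98333) (nat_lit 18) (.e (nat_lit 164400) (nat_lit 256) .nil))))))) (.g (nat_lit 6) .nil .nil))))) (.nd (nat_lit 4) (.nd (nat_lit 5) 
(.lf (nat_lit 146959) (.g (nat_lit 3051) (.e (nat_lit 57374) (nat_lit 2) (.e (nat_lit 90170) (nat_lit 13) (.e (nat_lit 172067) (nat_lit 3) (.e (nat_lit 204837) (nat_lit 20) (.e (nat_lit 114717) (nat_lit 23) (.e (nat_lit 98333) (nat_lit 18) (.e (nat_lit 164398) (nat_lit 256) .nil))))))) (.g (nat_lit 4) .nil .nil))) 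
(.lf (nat_lit 146991) (.g (nat_lit 2880) (.e (nat_lit 57374) (nat_lit 2) (.e (nat_lit 90170) (nat_lit 13) (.e (nat_lit 172067) (nat_lit 3) (.e (nat_lit 204838) (nat_lit 20) (.e (nat_lit 114717) (nat_lit 23) (.e (nat_lit 98334) (nat_lit 18) (.e (nat_lit 164396) (nat_lit 256) .nil))))))) (.g (nat_lit 4) .nil .nil)))) (.nd (nat_lit 5) 
(.lf (nat_lit 146975) (.g (nat_lit 4008) (.e (nat_lit 57374) (nat_lit 2) (.e (nat_lit 90170) (nat_lit 13) (.e (nat_lit 172067) (nat_lit 3) (.e (nat_lit 204837) (nat_lit 20) (.e (nat_lit 114719) (nat_lit 23) (.e (nat_lit 98334) (nat_lit 18) (.e (nat_lit 164400) (nat_lit 256) .nil))))))) (.g (nat_lit 6) .nil .nil))) 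
(.lf (nat_lit 147007) (.g (nat_lit 3635) (.e (nat_lit 57374) (nat_lit 2) (.e (nat_lit 90170) (nat_lit 13) (.e (nat_lit 172067) (nat_lit 3) (.e (nat_lit 204838) (nat_lit 20) (.e (nat_lit 114719) (nat_lit 23) (.e (nat_lit 98332) (nat_lit 18) (.e (nat_lit 164397) (nat_lit 256) .nil))))))) (.g (nat_lit 5) .nil .nil)))))))))

noncomputable def tv1955 : DT := (.nd (nat_lit 0) (.nd (nat_lit 1) (.nd (nat_lit 2) (.nd (nat_lit 3) (.nd (nat_lit 4) (.nd (nat_lit 5) 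
(.lf (nat_lit 147008) (.g (nat_lit 3388) (.e (nat_lit 57374) (nat_lit 2) (.e (nat_lit 90170) (nat_lit 13) (.e (nat_lit 172067) (nat_lit 3) (.e (nat_lit 204838) (nat_lit 20) (.e (nat_lit 114719) (nat_lit 23) (.e (nat_lit 98332) (nat_lit 18) (.e (nat_lit 164399) (nat_lit 256) .nil))))))) (.g (nat_lit 5) .nil .nil))) 
(.lf (nat_lit 147040) (.g (nat_lit 3619) (.e (nat_lit 57374) (nat_lit 2) (.e (nat_lit 90170) (nat_lit 13) (.e (nat_lit 172106) (nat_lit 10) (.e (nat_lit 434231) (nat_lit 23) (.e (nat_lit 532529) (nat_lit 9) (.e (nat_lit 335878) (nat_lit 0) (.e (nat_lit 996) (nat_lit 81) (.e (nat_lit 4842) (nat_lit 283) .nil)))))))) (.g (nat_lit 4) .nil .nil)))) (.nd (nat_lit 5) 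
(.lf (nat_lit 147024) (.g (nat_lit 2732) (.e (nat_lit 57374) (nat_lit 2) (.e (nat_lit 90170) (nat_lit 13) (.e (nat_lit 172095) (nat_lit 9) (.e (nat_lit 426513) (nat_lit 27) (.e (nat_lit 336385) (nat_lit 27) (.e (nat_lit 426100) (nat_lit 1) (.e (nat_lit 164399) (nat_lit 256) .nil))))))) (.g (nat_lit 4) .nil .nil))) 
(.lf (nat_lit 147056) (.g (nat_lit 2878) (.e (nat_lit 57374) (nat_lit 2) (.e (nat_lit 90170) (nat_lit 13) (.e (nat_lit 172106) (nat_lit 10) (.e (nat_lit 434231) (nat_lit 23) (.e (nat_lit 532529) (nat_lit 9) (.e (nat_lit 336257) (nat_lit 15) (.e (nat_lit 2418) (nat_lit 157) (.e (nat_lit 6931) (nat_lit 373) .nil)))))))) (.g (nat_lit 4) .nil .nil))))) (.nd (nat_lit 4) (.nd (nat_lit 5) 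
(.lf (nat_lit 147016) (.g (nat_lit 4773) (.e (nat_lit 57374) (nat_lit 2) (.e (nat_lit 90170) (nat_lit 13) (.e (nat_lit 172067) (nat_lit 3) (.e (nat_lit 204838) (nat_lit 20) (.e (nat_lit 114719) (nat_lit 23) (.e (nat_lit 98334) (nat_lit 18) (.e (nat_lit 164399) (nat_lit 256) .nil))))))) (.g (nat_lit 7) .nil .nil))) 
(.lf (nat_lit 147048) (.g (nat_lit 3352) (.e (nat_lit 57374) (nat_lit 2) (.e (nat_lit 90170) (nat_lit 13) (.e (nat_lit 172106) (nat_lit 10) (.e (nat_lit 434231) (nat_lit 23) (.e (nat_lit 532529) (nat_lit 9) (.e (nat_lit 336240) (nat_lit 15) (.e (nat_lit 2439) (nat_lit 157) (.e (nat_lit 7936) (nat_lit 373) .nil)))))))) (.g (nat_lit 4) .nil .nil)))) (.nd (nat_lit 5) 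
(.lf (nat_lit 147032) (.g (nat_lit 2651) (.e (nat_lit 57374) (nat_lit 2) (.e (nat_lit 90170) (nat_lit 13) (.e (nat_lit 172106) (nat_lit 10) (.e (nat_lit 434231) (nat_lit 23) (.e (nat_lit 532526) (nat_lit 8) (.e (nat_lit 327692) (nat_lit 1) (.e (nat_lit 16128) (nat_lit 128) .nil))))))) (.g (nat_lit 4) .nil .nil))) 
(.lf (nat_lit 147064) (.g (nat_lit 3472) (.e (nat_lit 57374) (nat_lit 2) (.e (nat_lit 90170) (nat_lit 13) (.e (nat_lit 172106) (nat_lit 10) (.e (nat_lit 434231) (nat_lit 23) (.e (nat_lit 532529) (nat_lit 9) (.e (nat_lit 336257) (nat_lit 15) (.e (nat_lit 2458) (nat_lit 157) (.e (nat_lit 7936) (nat_lit 373) .nil)))))))) (.g (nat_lit 4) .nil .nil)))))) 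
(.nd (nat_lit 3) (.nd (nat_lit 4) (.nd (nat_lit 5) 
(.lf (nat_lit 147012) (.g (nat_lit 4698) (.e (nat_lit 57374) (nat_lit 2) (.e (nat_lit 90170) (nat_lit 13) (.e (nat_lit 172067) (nat_lit 3) (.e (nat_lit 204838) (nat_lit 20) (.e (nat_lit 114719) (nat_lit 23) (.e (nat_lit 98333) (nat_lit 18) (.e (nat_lit 164399) (nat_lit 256) .nil))))))) (.g (nat_lit 7) .nil .nil))) 
(.lf (nat_lit 147044) (.g (nat_lit 3296) (.e (nat_lit 57374) (nat_lit 2) (.e (nat_lit 90170) (nat_lit 13) (.e (nat_lit 172106) (nat_lit 10) (.e (nat_lit 434231) (nat_lit 23) (.e (nat_lit 532529) (nat_lit 9) (.e (nat_lit 335999) (nat_lit 1) (.e (nat_lit 65280) (nat_lit 241) .nil))))))) (.g (nat_lit 4) .nil .nil)))) (.nd (nat_lit 5) 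
(.lf (nat_lit 147028) (.g (nat_lit 2377) (.e (nat_lit 57374) (nat_lit 2) (.e (nat_lit 90170) (nat_lit 13) (.e (nat_lit 172106) (nat_lit 10) (.e (nat_lit 434202) (nat_lit 18) (.e (nat_lit 6740) (nat_lit 365) .nil))))) .nil)) 
(.lf (nat_lit 147060) (.g (nat_lit 3736) (.e (nat_lit 57374) (nat_lit 2) (.e (nat_lit 90170) (nat_lit 13) (.e (nat_lit 172106) (nat_lit 10) (.e (nat_lit 434231) (nat_lit 23) (.e (nat_lit 532529) (nat_lit 9) (.e (nat_lit 336257) (nat_lit 15) (.e (nat_lit 2438) (nat_lit 157) (.e (nat_lit 7936) (nat_lit 373) .nil)))))))) (.g (nat_lit 4) .nil .nil))))) (.nd (nat_lit 4) (.nd (nat_lit 5) 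
(.lf (nat_lit 147020) (.g (nat_lit 593) (.e (nat_lit 57374) (nat_lit 2) (.e (nat_lit 90170) (nat_lit 13) (.e (nat_lit 172087) (nat_lit 9) .nil))) .nil)) 
(.lf (nat_lit 147052) (.g (nat_lit 3729) (.e (nat_lit 57374) (nat_lit 2) (.e (nat_lit 90170) (nat_lit 13) (.e (nat_lit 172106) (nat_lit 10) (.e (nat_lit 434231) (nat_lit 23) (.e (nat_lit 532529) (nat_lit 9) (.e (nat_lit 336257) (nat_lit 15) (.e (nat_lit 2403) (nat_lit 157) (.e (nat_lit 6930) (nat_lit 373) .nil)))))))) (.g (nat_lit 4) .nil .nil)))) (.nd (nat_lit 5) 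
(.lf (nat_lit 147036) (.g (nat_lit 3458) (.e (nat_lit 57374) (nat_lit 2) (.e (nat_lit 90170) (nat_lit 13) (.e (nat_lit 172106) (nat_lit 10) (.e (nat_lit 434231) (nat_lit 23) (.e (nat_lit 532527) (nat_lit 9) (.e (nat_lit 336031) (nat_lit 4) (.e (nat_lit 130816) (nat_lit 241) .nil))))))) (.g (nat_lit 4) .nil .nil))) 
(.lf (nat_lit 147068) (.g (nat_lit 3393) (.e (nat_lit 57374) (nat_lit 2) (.e (nat_lit 90170) (nat_lit 13) (.e (nat_lit 172106) (nat_lit 10) (.e (nat_lit 434231) (nat_lit 23) (.e (nat_lit 532529) (nat_lit 9) (.e (nat_lit 336259) (nat_lit 15) (.e (nat_lit 2424) (nat_lit 157) (.e (nat_lit 6931) (nat_lit 373) .nil)))))))) (.g (nat_lit 4) .nil .nil))))))) 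
(.nd (nat_lit 2) (.nd (nat_lit 3) (.nd (nat_lit 4) (.nd (nat_lit 5) 
(.lf (nat_lit 147010) (.g (nat_lit 2724) (.e (nat_lit 57374) (nat_lit 2) (.e (nat_lit 90170) (nat_lit 13) (.e (nat_lit 172067) (nat_lit 3) (.e (nat_lit 204838) (nat_lit 20) (.e (nat_lit 114719) (nat_lit 23) (.e (nat_lit 98333) (nat_lit 18) (.e (nat_lit 164396) (nat_lit 256) .nil))))))) (.g (nat_lit 4) .nil .nil))) 
(.lf (nat_lit 147042) (.g (nat_lit 3188) (.e (nat_lit 57374) (nat_lit 2) (.e (nat_lit 90170) (nat_lit 13) (.e (nat_lit 172106) (nat_lit 10) (.e (nat_lit 434231) (nat_lit 23) (.e (nat_lit 532529) (nat_lit 9) (.e (nat_lit 335878) (nat_lit 0) (.e (nat_lit 997) (nat_lit 81) (.e (nat_lit 4842) (nat_lit 283) .nil)))))))) (.g (nat_lit 4) .nil .nil)))) (.nd (nat_lit 5) 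
(.lf (nat_lit 147026) (.g (nat_lit 482) (.e (nat_lit 57374) (nat_lit 2) (.e (nat_lit 90170) (nat_lit 13) (.e (nat_lit 172106) (nat_lit 10) .nil))) .nil)) 
(.lf (nat_lit 147058) (.g (nat_lit 3838) (.e (nat_lit 57374) (nat_lit 2) (.e (nat_lit 90170) (nat_lit 13) (.e (nat_lit 172106) (nat_lit 10) (.e (nat_lit 434231) (nat_lit 23) (.e (nat_lit 532529) (nat_lit 9) (.e (nat_lit 336257) (nat_lit 15) (.e (nat_lit 2430) (nat_lit 157) (.e (nat_lit 6931) (nat_lit 373) .nil)))))))) (.g (nat_lit 5) .nil .nil))))) (.nd (nat_lit 4) (.nd (nat_lit 5) 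
(.lf (nat_lit 147018) (.g (nat_lit 3197) (.e (nat_lit 57374) (nat_lit 2) (.e (nat_lit 90170) (nat_lit 13) (.e (nat_lit 172067) (nat_lit 3) (.e (nat_lit 204838) (nat_lit 20) (.e (nat_lit 114719) (nat_lit 23) (.e (nat_lit 98335) (nat_lit 18) (.e (nat_lit 164396) (nat_lit 256) .nil))))))) (.g (nat_lit 4) .nil .nil))) 
(.lf (nat_lit 147050) (.g (nat_lit 3799) (.e (nat_lit 57374) (nat_lit 2) (.e (nat_lit 90170) (nat_lit 13) (.e (nat_lit 172106) (nat_lit 10) (.e (nat_lit 434231) (nat_lit 23) (.e (nat_lit 532529) (nat_lit 9) (.e (nat_lit 336257) (nat_lit 15) (.e (nat_lit 2400) (nat_lit 157) (.e (nat_lit 6930) (nat_lit 373) .nil)))))))) (.g (nat_lit 5) .nil .nil)))) (.nd (nat_lit 5) 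
(.lf (nat_lit 147034) (.g (nat_lit 3042) (.e (nat_lit 57374) (nat_lit 2) (.e (nat_lit 90170) (nat_lit 13) (.e (nat_lit 172106) (nat_lit 10) (.e (nat_lit 434231) (nat_lit 23) (.e (nat_lit 532527) (nat_lit 9) (.e (nat_lit 335989) (nat_lit 1) (.e (nat_lit 65280) (nat_lit 241) .nil))))))) (.g (nat_lit 4) .nil .nil))) 
(.lf (nat_lit 147066) (.g (nat_lit 3204) (.e (nat_lit 57374) (nat_lit 2) (.e (nat_lit 90170) (nat_lit 13) (.e (nat_lit 172106) (nat_lit 10) (.e (nat_lit 434231) (nat_lit 23) (.e (nat_lit 532529) (nat_lit 9) (.e (nat_lit 336258) (nat_lit 15) (.e (nat_lit 2450) (nat_lit 157) (.e (nat_lit 7936) (nat_lit 373) .nil)))))))) (.g (nat_lit 4) .nil .nil)))))) 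
(.nd (nat_lit 3) (.nd (nat_lit 4) (.nd (nat_lit 5) 
(.lf (nat_lit 147014) (.g (nat_lit 3824) (.e (nat_lit 57374) (nat_lit 2) (.e (nat_lit 90170) (nat_lit 13) (.e (nat_lit 172067) (nat_lit 3) (.e (nat_lit 204838) (nat_lit 20) (.e (nat_lit 114719) (nat_lit 23) (.e (nat_lit 98334) (nat_lit 18) (.e (nat_lit 164396) (nat_lit 256) .nil))))))) (.g (nat_lit 6) .nil .nil))) 
(.lf (nat_lit 147046) (.g (nat_lit 3707) (.e (nat_lit 57374) (nat_lit 2) (.e (nat_lit 90170) (nat_lit 13) (.e (nat_lit 172106) (nat_lit 10) (.e (nat_lit 434231) (nat_lit 23) (.e (nat_lit 532529) (nat_lit 9) (.e (nat_lit 336238) (nat_lit 15) (.e (nat_lit 2439) (nat_lit 157) (.e (nat_lit 7936) (nat_lit 373) .nil)))))))) (.g (nat_lit 4) .nil .nil)))) (.nd (nat_lit 5) 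
(.lf (nat_lit 147030) (.g (nat_lit 2674) (.e (nat_lit 57374) (nat_lit 2) (.e (nat_lit 90170) (nat_lit 13) (.e (nat_lit 172106) (nat_lit 10) (.e (nat_lit 434209) (nat_lit 18) (.e (nat_lit 6792) (nat_lit 365) .nil))))) .nil)) 
(.lf (nat_lit 147062) (.g (nat_lit 3645) (.e (nat_lit 57374) (nat_lit 2) (.e (nat_lit 90170) (nat_lit 13) (.e (nat_lit 172106) (nat_lit 10) (.e (nat_lit 434231) (nat_lit 23) (.e (nat_lit 532529) (nat_lit 9) (.e (nat_lit 336257) (nat_lit 15) (.e (nat_lit 2449) (nat_lit 157) (.e (nat_lit 7936) (nat_lit 373) .nil)))))))) (.g (nat_lit 4) .nil .nil))))) (.nd (nat_lit 4) (.nd (nat_lit 5) 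
(.lf (nat_lit 147022) (.g (nat_lit 763) (.e (nat_lit 57374) (nat_lit 2) (.e (nat_lit 90170) (nat_lit 13) (.e (nat_lit 172088) (nat_lit 9) (.e (nat_lit 433920) (nat_lit 34) .nil)))) .nil)) 
(.lf (nat_lit 147054) (.g (nat_lit 3438) (.e (nat_lit 57374) (nat_lit 2) (.e (nat_lit 90170) (nat_lit 13) (.e (nat_lit 172106) (nat_lit 10) (.e (nat_lit 434231) (nat_lit 23) (.e (nat_lit 532529) (nat_lit 9) (.e (nat_lit 336257) (nat_lit 15) (.e (nat_lit 2416) (nat_lit 157) (.e (nat_lit 6931) (nat_lit 373) .nil)))))))) (.g (nat_lit 4) .nil .nil)))) (.nd (nat_lit 5) 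
(.lf (nat_lit 147038) (.g (nat_lit 3541) (.e (nat_lit 57374) (nat_lit 2) (.e (nat_lit 90170) (nat_lit 13) (.e (nat_lit 172106) (nat_lit 10) (.e (nat_lit 434231) (nat_lit 23) (.e (nat_lit 532528) (nat_lit 9) (.e (nat_lit 336342) (nat_lit 21) (.e (nat_lit 237312) (nat_lit 172) .nil))))))) (.g (nat_lit 4) .nil .nil))) 
(.lf (nat_lit 147070) (.g (nat_lit 3544) (.e (nat_lit 57374) (nat_lit 2) (.e (nat_lit 90170) (nat_lit 13) (.e (nat_lit 172106) (nat_lit 10) (.e (nat_lit 434231) (nat_lit 23) (.e (nat_lit 532529) (nat_lit 9) (.e (nat_lit 336296) (nat_lit 15) (.e (nat_lit 2489) (nat_lit 157) (.e (nat_lit 7936) (nat_lit 373) .nil)))))))) (.g (nat_lit 4) .nil .nil)))))))) 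
(.nd (nat_lit 1) (.nd (nat_lit 2) (.nd (nat_lit 3) (.nd (nat_lit 4) (.nd (nat_lit 5) 
(.lf (nat_lit 147009) (.g (nat_lit 3134) (.e (nat_lit 57374) (nat_lit 2) (.e (nat_lit 90170) (nat_lit 13) (.e (nat_lit 172067) (nat_lit 3) (.e (nat_lit 204838) (nat_lit 20) (.e (nat_lit 114719) (nat_lit 23) (.e (nat_lit 98332) (nat_lit 18) (.e (nat_lit 164400) (nat_lit 256) .nil))))))) (.g (nat_lit 4) .nil .nil))) 
(.lf (nat_lit 147041) (.g (nat_lit 2855) (.e (nat_lit 57374) (nat_lit 2) (.e (nat_lit 90170) (nat_lit 13) (.e (nat_lit 172106) (nat_lit 10) (.e (nat_lit 434231) (nat_lit 23) (.e (nat_lit 532529) (nat_lit 9) (.e (nat_lit 335878) (nat_lit 0) (.e (nat_lit 997) (nat_lit 81) (.e (nat_lit 4841) (nat_lit 283) .nil)))))))) (.g (nat_lit 4) .nil .nil)))) (.nd (nat_lit 5) 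
(.lf (nat_lit 147025) (.g (nat_lit 1297) (.e (nat_lit 57374) (nat_lit 2) (.e (nat_lit 90170) (nat_lit 13) (.e (nat_lit 172095) (nat_lit 9) (.e (nat_lit 433920) (nat_lit 34) .nil)))) .nil)) 
(.lf (nat_lit 147057) (.g (nat_lit 3863) (.e (nat_lit 57374) (nat_lit 2) (.e (nat_lit 90170) (nat_lit 13) (.e (nat_lit 172106) (nat_lit 10) (.e (nat_lit 434231) (nat_lit 23) (.e (nat_lit 532529) (nat_lit 9) (.e (nat_lit 336257) (nat_lit 15) (.e (nat_lit 2422) (nat_lit 157) (.e (nat_lit 6931) (nat_lit 373) .nil)))))))) (.g (nat_lit 5) .nil .nil))))) (.nd (nat_lit 4) (.nd (nat_lit 5) 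
(.lf (nat_lit 147017) (.g (nat_lit 4373) (.e (nat_lit 57374) (nat_lit 2) (.e (nat_lit 90170) (nat_lit 13) (.e (nat_lit 172067) (nat_lit 3) (.e (nat_lit 204838) (nat_lit 20) (.e (nat_lit 114719) (nat_lit 23) (.e (nat_lit 98334) (nat_lit 18) (.e (nat_lit 164400) (nat_lit 256) .nil))))))) (.g (nat_lit 6) .nil .nil))) 
(.lf (nat_lit 147049) (.g (nat_lit 3659) (.e (nat_lit 57374) (nat_lit 2) (.e (nat_lit 90170) (nat_lit 13) (.e (nat_lit 172106) (nat_lit 10) (.e (nat_lit 434231) (nat_lit 23) (.e (nat_lit 532529) (nat_lit 9) (.e (nat_lit 336257) (nat_lit 15) (.e (nat_lit 2397) (nat_lit 157) (.e (nat_lit 6930) (nat_lit 373) .nil)))))))) (.g (nat_lit 4) .nil .nil)))) (.nd (nat_lit 5) 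
(.lf (nat_lit 147033) (.g (nat_lit 2921) (.e (nat_lit 57374) (nat_lit 2) (.e (nat_lit 90170) (nat_lit 13) (.e (nat_lit 172106) (nat_lit 10) (.e (nat_lit 434231) (nat_lit 23) (.e (nat_lit 532527) (nat_lit 9) .nil))))) .nil)) 
(.lf (nat_lit 147065) (.g (nat_lit 3669) (.e (nat_lit 57374) (nat_lit 2) (.e (nat_lit 90170) (nat_lit 13) (.e (nat_lit 172106) (nat_lit 10) (.e (nat_lit 434231) (nat_lit 23) (.e (nat_lit 532529) (nat_lit 9) (.e (nat_lit 336257) (nat_lit 15) (.e (nat_lit 2507) (nat_lit 157) (.e (nat_lit 7936) (nat_lit 373) .nil)))))))) (.g (nat_lit 4) .nil .nil)))))) 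
(.nd (nat_lit 3) (.nd (nat_lit 4) (.nd (nat_lit 5) 
(.lf (nat_lit 147013) (.g (nat_lit 4129) (.e (nat_lit 57374) (nat_lit 2) (.e (nat_lit 90170) (nat_lit 13) (.e (nat_lit 172067) (nat_lit 3) (.e (nat_lit 204838) (nat_lit 20) (.e (nat_lit 114719) (nat_lit 23) (.e (nat_lit 98333) (nat_lit 18) (.e (nat_lit 164400) (nat_lit 256) .nil))))))) (.g (nat_lit 6) .nil .nil))) 
(.lf (nat_lit 147045) (.g (nat_lit 3193) (.e (nat_lit 57374) (nat_lit 2) (.e (nat_lit 90170) (nat_lit 13) (.e (nat_lit 172106) (nat_lit 10) (.e (nat_lit 434231) (nat_lit 23) (.e (nat_lit 532529) (nat_lit 9) (.e (nat_lit 336036) (nat_lit 4) (.e (nat_lit 130816) (nat_lit 241) .nil))))))) (.g (nat_lit 4) .nil .nil)))) (.nd (nat_lit 5) 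
(.lf (nat_lit 147029) (.g (nat_lit 1919) (.e (nat_lit 57374) (nat_lit 2) (.e (nat_lit 90170) (nat_lit 13) (.e (nat_lit 172106) (nat_lit 10) (.e (nat_lit 434209) (nat_lit 18) .nil)))) .nil)) 
(.lf (nat_lit 147061) (.g (nat_lit 3883) (.e (nat_lit 57374) (nat_lit 2) (.e (nat_lit 90170) (nat_lit 13) (.e (nat_lit 172106) (nat_lit 10) (.e (nat_lit 434231) (nat_lit 23) (.e (nat_lit 532529) (nat_lit 9) (.e (nat_lit 336257) (nat_lit 15) (.e (nat_lit 2439) (nat_lit 157) (.e (nat_lit 7936) (nat_lit 373) .nil)))))))) (.g (nat_lit 4) .nil .nil))))) (.nd (nat_lit 4) (.nd (nat_lit 5) 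
(.lf (nat_lit 147021) (.g (nat_lit 1494) (.e (nat_lit 57374) (nat_lit 2) (.e (nat_lit 90170) (nat_lit 13) (.e (nat_lit 172087) (nat_lit 9) (.e (nat_lit 426568) (nat_lit 34) (.e (nat_lit 393252) (nat_lit 18) .nil))))) .nil)) 
(.lf (nat_lit 147053) (.g (nat_lit 3568) (.e (nat_lit 57374) (nat_lit 2) (.e (nat_lit 90170) (nat_lit 13) (.e (nat_lit 172106) (nat_lit 10) (.e (nat_lit 434231) (nat_lit 23) (.e (nat_lit 532529) (nat_lit 9) (.e (nat_lit 336257) (nat_lit 15) (.e (nat_lit 2411) (nat_lit 157) (.e (nat_lit 6930) (nat_lit 373) .nil)))))))) (.g (nat_lit 4) .nil .nil)))) (.nd (nat_lit 5) 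
(.lf (nat_lit 147037) (.g (nat_lit 3046) (.e (nat_lit 57374) (nat_lit 2) (.e (nat_lit 90170) (nat_lit 13) (.e (nat_lit 172106) (nat_lit 10) (.e (nat_lit 434231) (nat_lit 23) (.e (nat_lit 532528) (nat_lit 9) .nil))))) .nil)) 
(.lf (nat_lit 147069) (.g (nat_lit 3846) (.e (nat_lit 57374) (nat_lit 2) (.e (nat_lit 90170) (nat_lit 13) (.e (nat_lit 172106) (nat_lit 10) (.e (nat_lit 434231) (nat_lit 23) (.e (nat_lit 532529) (nat_lit 9) (.e (nat_lit 336261) (nat_lit 15) (.e (nat_lit 2515) (nat_lit 157) (.e (nat_lit 7936) (nat_lit 373) .nil)))))))) (.g (nat_lit 4) .nil .nil))))))) 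
(.nd (nat_lit 2) (.nd (nat_lit 3) (.nd (nat_lit 4) (.nd (nat_lit 5) 
(.lf (nat_lit 147011) (.g (nat_lit 4372) (.e (nat_lit 57374) (nat_lit 2) (.e (nat_lit 90170) (nat_lit 13) (.e (nat_lit 172067) (nat_lit 3) (.e (nat_lit 204838) (nat_lit 20) (.e (nat_lit 114719) (nat_lit 23) (.e (nat_lit 98333) (nat_lit 18) (.e (nat_lit 164397) (nat_lit 256) .nil))))))) (.g (nat_lit 6) .nil .nil))) 
(.lf (nat_lit 147043) (.g (nat_lit 3035) (.e (nat_lit 57374) (nat_lit 2) (.e (nat_lit 90170) (nat_lit 13) (.e (nat_lit 172106) (nat_lit 10) (.e (nat_lit 434231) (nat_lit 23) (.e (nat_lit 532529) (nat_lit 9) (.e (nat_lit 335878) (nat_lit 0) (.e (nat_lit 997) (nat_lit 81) (.e (nat_lit 7936) (nat_lit 283) .nil)))))))) (.g (nat_lit 4) .nil .nil)))) (.nd (nat_lit 5) 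
(.lf (nat_lit 147027) (.g (nat_lit 2047) (.e (nat_lit 57374) (nat_lit 2) (.e (nat_lit 90170) (nat_lit 13) (.e (nat_lit 172106) (nat_lit 10) (.e (nat_lit 434202) (nat_lit 18) .nil)))) .nil)) 
(.lf (nat_lit 147059) (.g (nat_lit 3719) (.e (nat_lit 57374) (nat_lit 2) (.e (nat_lit 90170) (nat_lit 13) (.e (nat_lit 172106) (nat_lit 10) (.e (nat_lit 434231) (nat_lit 23) (.e (nat_lit 532529) (nat_lit 9) (.e (nat_lit 336257) (nat_lit 15) (.e (nat_lit 2431) (nat_lit 157) (.e (nat_lit 6931) (nat_lit 373) .nil)))))))) (.g (nat_lit 4) .nil .nil))))) (.nd (nat_lit 4) (.nd (nat_lit 5) 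
(.lf (nat_lit 147019) (.g (nat_lit 1148) (.e (nat_lit 57374) (nat_lit 2) (.e (nat_lit 90170) (nat_lit 13) (.e (nat_lit 172085) (nat_lit 9) (.e (nat_lit 426568) (nat_lit 34) .nil)))) .nil)) 
(.lf (nat_lit 147051) (.g (nat_lit 3722) (.e (nat_lit 57374) (nat_lit 2) (.e (nat_lit 90170) (nat_lit 13) (.e (nat_lit 172106) (nat_lit 10) (.e (nat_lit 434231) (nat_lit 23) (.e (nat_lit 532529) (nat_lit 9) (.e (nat_lit 336257) (nat_lit 15) (.e (nat_lit 2402) (nat_lit 157) (.e (nat_lit 6930) (nat_lit 373) .nil)))))))) (.g (nat_lit 4) .nil .nil)))) (.nd (nat_lit 5) 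
(.lf (nat_lit 147035) (.g (nat_lit 4743) (.e (nat_lit 57374) (nat_lit 2) (.e (nat_lit 90170) (nat_lit 13) (.e (nat_lit 172106) (nat_lit 10) (.e (nat_lit 434231) (nat_lit 23) (.e (nat_lit 532527) (nat_lit 9) (.e (nat_lit 335997) (nat_lit 1) (.e (nat_lit 65280) (nat_lit 241) .nil))))))) (.g (nat_lit 6) .nil .nil))) 
(.lf (nat_lit 147067) (.g (nat_lit 3522) (.e (nat_lit 57374) (nat_lit 2) (.e (nat_lit 90170) (nat_lit 13) (.e (nat_lit 172106) (nat_lit 10) (.e (nat_lit 434231) (nat_lit 23) (.e (nat_lit 532529) (nat_lit 9) (.e (nat_lit 336259) (nat_lit 15) (.e (nat_lit 2422) (nat_lit 157) (.e (nat_lit 6931) (nat_lit 373) .nil)))))))) (.g (nat_lit 4) .nil .nil)))))) 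
(.nd (nat_lit 3) (.nd (nat_lit 4) (.nd (nat_lit 5) 
(.lf (nat_lit 147015) (.g (nat_lit 4766) (.e (nat_lit 57374) (nat_lit 2) (.e (nat_lit 90170) (nat_lit 13) (.e (nat_lit 172067) (nat_lit 3) (.e (nat_lit 204838) (nat_lit 20) (.e (nat_lit 114719) (nat_lit 23) (.e (nat_lit 98334) (nat_lit 18) (.e (nat_lit 164397) (nat_lit 256) .nil))))))) (.g (nat_lit 7) .nil .nil))) 
(.lf (nat_lit 147047) (.g (nat_lit 3082) (.e (nat_lit 57374) (nat_lit 2) (.e (nat_lit 90170) (nat_lit 13) (.e (nat_lit 172106) (nat_lit 10) (.e (nat_lit 434231) (nat_lit 23) (.e (nat_lit 532529) (nat_lit 9) (.e (nat_lit 336240) (nat_lit 15) (.e (nat_lit 2431) (nat_lit 157) (.e (nat_lit 6931) (nat_lit 373) .nil)))))))) (.g (nat_lit 4) .nil .nil)))) (.nd (nat_lit 5) 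
(.lf (nat_lit 147031) (.g (nat_lit 1181) (.e (nat_lit 57374) (nat_lit 2) (.e (nat_lit 90170) (nat_lit 13) (.e (nat_lit 172106) (nat_lit 10) (.e (nat_lit 434231) (nat_lit 23) .nil)))) .nil)) 
(.lf (nat_lit 147063) (.g (nat_lit 3413) (.e (nat_lit 57374) (nat_lit 2) (.e (nat_lit 90170) (nat_lit 13) (.e (nat_lit 172106) (nat_lit 10) (.e (nat_lit 434231) (nat_lit 23) (.e (nat_lit 532529) (nat_lit 9) (.e (nat_lit 336257) (nat_lit 15) (.e (nat_lit 2450) (nat_lit 157) (.e (nat_lit 7936) (nat_lit 373) .nil)))))))) (.g (nat_lit 4) .nil .nil))))) (.nd (nat_lit 4) (.nd (nat_lit 5) 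
(.lf (nat_lit 147023) (.g (nat_lit 961) (.e (nat_lit 57374) (nat_lit 2) (.e (nat_lit 90170) (nat_lit 13) (.e (nat_lit 172092) (nat_lit 9) .nil))) .nil)) 
(.lf (nat_lit 147055) (.g (nat_lit 3635) (.e (nat_lit 57374) (nat_lit 2) (.e (nat_lit 90170) (nat_lit 13) (.e (nat_lit 172106) (nat_lit 10) (.e (nat_lit 434231) (nat_lit 23) (.e (nat_lit 532529) (nat_lit 9) (.e (nat_lit 336257) (nat_lit 15) (.e (nat_lit 2417) (nat_lit 157) (.e (nat_lit 6931) (nat_lit 373) .nil)))))))) (.g (nat_lit 4) .nil .nil)))) (.nd (nat_lit 5) 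
(.lf (nat_lit 147039) (.g (nat_lit 2836) (.e (nat_lit 57374) (nat_lit 2) (.e (nat_lit 90170) (nat_lit 13) (.e (nat_lit 172106) (nat_lit 10) (.e (nat_lit 434231) (nat_lit 23) (.e (nat_lit 532529) (nat_lit 9) .nil))))) .nil)) 
(.lf (nat_lit 147071) (.g (nat_lit 3573) (.e (nat_lit 57374) (nat_lit 2) (.e (nat_lit 90170) (nat_lit 13) (.e (nat_lit 172106) (nat_lit 10) (.e (nat_lit 434231) (nat_lit 23) (.e (nat_lit 532529) (nat_lit 9) (.e (nat_lit 336296) (nat_lit 15) (.e (nat_lit 2517) (nat_lit 157) (.e (nat_lit 7936) (nat_lit 373) .nil)))))))) (.g (nat_lit 4) .nil .nil)))))))))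

noncomputable def tv1956 : DT := (.nd (nat_lit 0) (.nd (nat_lit 1) (.nd (nat_lit 2) (.nd (nat_lit 3) (.nd (nat_lit 4) (.nd (nat_lit 5) 
(.lf (nat_lit 147072) (.g (nat_lit 3420) (.e (nat_lit 57374) (nat_lit 2) (.e (nat_lit 90170) (nat_lit 13) (.e (nat_lit 172106) (nat_lit 10) (.e (nat_lit 434231) (nat_lit 23) (.e (nat_lit 532529) (nat_lit 9) (.e (nat_lit 343808) (nat_lit 15) (.e (nat_lit 2398) (nat_lit 157) (.e (nat_lit 6930) (nat_lit 373) .nil)))))))) (.g (nat_lit 4) .nil .nil))) 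
(.lf (nat_lit 147104) (.g (nat_lit 3350) (.e (nat_lit 57374) (nat_lit 2) (.e (nat_lit 90170) (nat_lit 13) (.e (nat_lit 172106) (nat_lit 10) (.e (nat_lit 434231) (nat_lit 23) (.e (nat_lit 532535) (nat_lit 9) (.e (nat_lit 335919) (nat_lit 0) (.e (nat_lit 990) (nat_lit 81) (.e (nat_lit 7936) (nat_lit 283) .nil)))))))) (.g (nat_lit 4) .nil .nil)))) (.nd (nat_lit 5) 
(.lf (nat_lit 147088) (.g (nat_lit 3432) (.e (nat_lit 57374) (nat_lit 2) (.e (nat_lit 90170) (nat_lit 13) (.e (nat_lit 172106) (nat_lit 10) (.e (nat_lit 434231) (nat_lit 23) (.e (nat_lit 532535) (nat_lit 9) (.e (nat_lit 335900) (nat_lit 0) (.e (nat_lit 982) (nat_lit 81) (.e (nat_lit 4841) (nat_lit 283) .nil)))))))) (.g (nat_lit 4) .nil .nil))) 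
(.lf (nat_lit 147120) (.g (nat_lit 4124) (.e (nat_lit 57374) (nat_lit 2) (.e (nat_lit 90170) (nat_lit 13) (.e (nat_lit 172106) (nat_lit 10) (.e (nat_lit 434231) (nat_lit 23) (.e (nat_lit 532535) (nat_lit 9) (.e (nat_lit 335925) (nat_lit 0) (.e (nat_lit 990) (nat_lit 81) (.e (nat_lit 4841) (nat_lit 283) .nil)))))))) (.g (nat_lit 5) .nil .nil))))) (.nd (nat_lit 4) (.nd (nat_lit 5) 
(.lf (nat_lit 147080) (.g (nat_lit 3207) (.e (nat_lit 57374) (nat_lit 2) (.e (nat_lit 90170) (nat_lit 13) (.e (nat_lit 172106) (nat_lit 10) (.e (nat_lit 434231) (nat_lit 23) (.e (nat_lit 532529) (nat_lit 9) (.e (nat_lit 336340) (nat_lit 21) (.e (nat_lit 237312) (nat_lit 172) .nil))))))) (.g (nat_lit 4) .nil .nil))) 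
(.lf (nat_lit 147112) (.g (nat_lit 3575) (.e (nat_lit 57374) (nat_lit 2) (.e (nat_lit 90170) (nat_lit 13) (.e (nat_lit 172106) (nat_lit 10) (.e (nat_lit 434231) (nat_lit 23) (.e (nat_lit 532535) (nat_lit 9) (.e (nat_lit 335922) (nat_lit 0) (.e (nat_lit 982) (nat_lit 81) (.e (nat_lit 4841) (nat_lit 283) .nil)))))))) (.g (nat_lit 4) .nil .nil)))) (.nd (nat_lit 5) 
(.lf (nat_lit 147096) (.g (nat_lit 4847) (.e (nat_lit 57374) (nat_lit 2) (.e (nat_lit 90170) (nat_lit 13) (.e (nat_lit 172106) (nat_lit 10) (.e (nat_lit 434231) (nat_lit 23) (.e (nat_lit 532535) (nat_lit 9) (.e (nat_lit 335905) (nat_lit 0) (.e (nat_lit 970) (nat_lit 81) (.e (nat_lit 4840) (nat_lit 283) .nil)))))))) (.g (nat_lit 5) .nil .nil))) 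
(.lf (nat_lit 147128) (.g (nat_lit 3333) (.e (nat_lit 57374) (nat_lit 2) (.e (nat_lit 90170) (nat_lit 13) (.e (nat_lit 172106) (nat_lit 10) (.e (nat_lit 434231) (nat_lit 23) (.e (nat_lit 532535) (nat_lit 9) (.e (nat_lit 335927) (nat_lit 0) (.e (nat_lit 989) (nat_lit 81) (.e (nat_lit 7936) (nat_lit 283) .nil)))))))) (.g (nat_lit 4) .nil .nil)))))) (.nd (nat_lit 3) (.nd (nat_lit 4) (.nd (nat_lit 5) 
(.lf (nat_lit 147076) (.g (nat_lit 3136) (.e (nat_lit 57374) (nat_lit 2) (.e (nat_lit 90170) (nat_lit 13) (.e (nat_lit 172106) (nat_lit 10) (.e (nat_lit 434231) (nat_lit 23) (.e (nat_lit 532529) (nat_lit 9) (.e (nat_lit 336310) (nat_lit 16) (.e (nat_lit 171776) (nat_lit 172) .nil))))))) (.g (nat_lit 4) .nil .nil))) 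
(.lf (nat_lit 147108) (.g (nat_lit 5402) (.e (nat_lit 57374) (nat_lit 2) (.e (nat_lit 90170) (nat_lit 13) (.e (nat_lit 172106) (nat_lit 10) (.e (nat_lit 434231) (nat_lit 23) (.e (nat_lit 532535) (nat_lit 9) (.e (nat_lit 335921) (nat_lit 0) (.e (nat_lit 989) (nat_lit 81) (.e (nat_lit 4842) (nat_lit 283) .nil)))))))) (.g (nat_lit 5) .nil .nil)))) (.nd (nat_lit 5) 
(.lf (nat_lit 147092) (.g (nat_lit 3606) (.e (nat_lit 57374) (nat_lit 2) (.e (nat_lit 90170) (nat_lit 13) (.e (nat_lit 172106) (nat_lit 10) (.e (nat_lit 434231) (nat_lit 23) (.e (nat_lit 532535) (nat_lit 9) (.e (nat_lit 335900) (nat_lit 0) (.e (nat_lit 1004) (nat_lit 81) (.e (nat_lit 7936) (nat_lit 283) .nil)))))))) (.g (nat_lit 4) .nil .nil))) 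
(.lf (nat_lit 147124) (.g (nat_lit 5176) (.e (nat_lit 57374) (nat_lit 2) (.e (nat_lit 90170) (nat_lit 13) (.e (nat_lit 172106) (nat_lit 10) (.e (nat_lit 434231) (nat_lit 23) (.e (nat_lit 532535) (nat_lit 9) (.e (nat_lit 335925) (nat_lit 0) (.e (nat_lit 991) (nat_lit 81) (.e (nat_lit 7936) (nat_lit 283) .nil)))))))) (.g (nat_lit 7) .nil .nil))))) (.nd (nat_lit 4) (.nd (nat_lit 5) 
(.lf (nat_lit 147084) (.g (nat_lit 2882) (.e (nat_lit 57374) (nat_lit 2) (.e (nat_lit 90170) (nat_lit 13) (.e (nat_lit 172106) (nat_lit 10) (.e (nat_lit 434231) (nat_lit 23) (.e (nat_lit 532535) (nat_lit 9) (.e (nat_lit 335886) (nat_lit 0) (.e (nat_lit 968) (nat_lit 81) (.e (nat_lit 4841) (nat_lit 283) .nil)))))))) (.g (nat_lit 4) .nil .nil))) 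
(.lf (nat_lit 147116) (.g (nat_lit 3538) (.e (nat_lit 57374) (nat_lit 2) (.e (nat_lit 90170) (nat_lit 13) (.e (nat_lit 172106) (nat_lit 10) (.e (nat_lit 434231) (nat_lit 23) (.e (nat_lit 532535) (nat_lit 9) (.e (nat_lit 335925) (nat_lit 0) (.e (nat_lit 982) (nat_lit 81) (.e (nat_lit 4841) (nat_lit 283) .nil)))))))) (.g (nat_lit 4) .nil .nil)))) (.nd (nat_lit 5) 
(.lf (nat_lit 147100) (.g (nat_lit 3930) (.e (nat_lit 57374) (nat_lit 2) (.e (nat_lit 90170) (nat_lit 13) (.e (nat_lit 172106) (nat_lit 10) (.e (nat_lit 434231) (nat_lit 23) (.e (nat_lit 532535) (nat_lit 9) (.e (nat_lit 335908) (nat_lit 0) (.e (nat_lit 968) (nat_lit 81) (.e (nat_lit 4842) (nat_lit 283) .nil)))))))) (.g (nat_lit 5) .nil .nil))) 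
(.lf (nat_lit 147132) (.g (nat_lit 4176) (.e (nat_lit 57374) (nat_lit 2) (.e (nat_lit 90170) (nat_lit 13) (.e (nat_lit 172106) (nat_lit 10) (.e (nat_lit 434231) (nat_lit 23) (.e (nat_lit 532535) (nat_lit 9) (.e (nat_lit 335928) (nat_lit 0) (.e (nat_lit 989) (nat_lit 81) (.e (nat_lit 4841) (nat_lit 283) .nil)))))))) (.g (nat_lit 6) .nil .nil))))))) 
(.nd (nat_lit 2) (.nd (nat_lit 3) (.nd (nat_lit 4) (.nd (nat_lit 5) 
(.lf (nat_lit 147074) (.g (nat_lit 3210) (.e (nat_lit 57374) (nat_lit 2) (.e (nat_lit 90170) (nat_lit 13) (.e (nat_lit 172106) (nat_lit 10) (.e (nat_lit 434231) (nat_lit 23) (.e (nat_lit 532529) (nat_lit 9) (.e (nat_lit 343808) (nat_lit 15) (.e (nat_lit 2411) (nat_lit 157) (.e (nat_lit 6930) (nat_lit 373) .nil)))))))) (.g (nat_lit 4) .nil .nil))) 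
(.lf (nat_lit 147106) (.g (nat_lit 3310) (.e (nat_lit 57374) (nat_lit 2) (.e (nat_lit 90170) (nat_lit 13) (.e (nat_lit 172106) (nat_lit 10) (.e (nat_lit 434231) (nat_lit 23) (.e (nat_lit 532535) (nat_lit 9) (.e (nat_lit 335920) (nat_lit 0) (.e (nat_lit 1003) (nat_lit 81) (.e (nat_lit 7936) (nat_lit 283) .nil)))))))) (.g (nat_lit 4) .nil .nil)))) (.nd (nat_lit 5) 
(.lf (nat_lit 147090) (.g (nat_lit 3510) (.e (nat_lit 57374) (nat_lit 2) (.e (nat_lit 90170) (nat_lit 13) (.e (nat_lit 172106) (nat_lit 10) (.e (nat_lit 434231) (nat_lit 23) (.e (nat_lit 532535) (nat_lit 9) (.e (nat_lit 335900) (nat_lit 0) (.e (nat_lit 997) (nat_lit 81) (.e (nat_lit 4841) (nat_lit 283) .nil)))))))) (.g (nat_lit 4) .nil .nil))) 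
(.lf (nat_lit 147122) (.g (nat_lit 3858) (.e (nat_lit 57374) (nat_lit 2) (.e (nat_lit 90170) (nat_lit 13) (.e (nat_lit 172106) (nat_lit 10) (.e (nat_lit 434231) (nat_lit 23) (.e (nat_lit 532535) (nat_lit 9) (.e (nat_lit 335925) (nat_lit 0) (.e (nat_lit 990) (nat_lit 81) (.e (nat_lit 7936) (nat_lit 283) .nil)))))))) (.g (nat_lit 5) .nil .nil))))) (.nd (nat_lit 4) (.nd (nat_lit 5) 
(.lf (nat_lit 147082) (.g (nat_lit 2771) (.e (nat_lit 57374) (nat_lit 2) (.e (nat_lit 90170) (nat_lit 13) (.e (nat_lit 172106) (nat_lit 10) (.e (nat_lit 434231) (nat_lit 23) (.e (nat_lit 532531) (nat_lit 9) .nil))))) .nil)) 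
(.lf (nat_lit 147114) (.g (nat_lit 3243) (.e (nat_lit 57374) (nat_lit 2) (.e (nat_lit 90170) (nat_lit 13) (.e (nat_lit 172106) (nat_lit 10) (.e (nat_lit 434231) (nat_lit 23) (.e (nat_lit 532535) (nat_lit 9) (.e (nat_lit 335922) (nat_lit 0) (.e (nat_lit 1003) (nat_lit 81) (.e (nat_lit 7936) (nat_lit 283) .nil)))))))) (.g (nat_lit 4) .nil .nil)))) (.nd (nat_lit 5) 
(.lf (nat_lit 147098) (.g (nat_lit 5041) (.e (nat_lit 57374) (nat_lit 2) (.e (nat_lit 90170) (nat_lit 13) (.e (nat_lit 172106) (nat_lit 10) (.e (nat_lit 434231) (nat_lit 23) (.e (nat_lit 532535) (nat_lit 9) (.e (nat_lit 335905) (nat_lit 0) (.e (nat_lit 973) (nat_lit 81) (.e (nat_lit 4840) (nat_lit 283) .nil)))))))) (.g (nat_lit 6) .nil .nil))) 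
(.lf (nat_lit 147130) (.g (nat_lit 3494) (.e (nat_lit 57374) (nat_lit 2) (.e (nat_lit 90170) (nat_lit 13) (.e (nat_lit 172106) (nat_lit 10) (.e (nat_lit 434231) (nat_lit 23) (.e (nat_lit 532535) (nat_lit 9) (.e (nat_lit 335928) (nat_lit 0) (.e (nat_lit 982) (nat_lit 81) (.e (nat_lit 4842) (nat_lit 283) .nil)))))))) (.g (nat_lit 4) .nil .nil)))))) (.nd (nat_lit 3) (.nd (nat_lit 4) (.nd (nat_lit 5) 
(.lf (nat_lit 147078) (.g (nat_lit 3443) (.e (nat_lit 57374) (nat_lit 2) (.e (nat_lit 90170) (nat_lit 13) (.e (nat_lit 172106) (nat_lit 10) (.e (nat_lit 434231) (nat_lit 23) (.e (nat_lit 532529) (nat_lit 9) (.e (nat_lit 336314) (nat_lit 16) (.e (nat_lit 171776) (nat_lit 172) .nil))))))) (.g (nat_lit 4) .nil .nil))) 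
(.lf (nat_lit 147110) (.g (nat_lit 3405) (.e (nat_lit 57374) (nat_lit 2) (.e (nat_lit 90170) (nat_lit 13) (.e (nat_lit 172106) (nat_lit 10) (.e (nat_lit 434231) (nat_lit 23) (.e (nat_lit 532535) (nat_lit 9) (.e (nat_lit 335921) (nat_lit 0) (.e (nat_lit 1040) (nat_lit 81) (.e (nat_lit 7936) (nat_lit 283) .nil)))))))) (.g (nat_lit 4) .nil .nil)))) (.nd (nat_lit 5) 
(.lf (nat_lit 147094) (.g (nat_lit 4612) (.e (nat_lit 57374) (nat_lit 2) (.e (nat_lit 90170) (nat_lit 13) (.e (nat_lit 172106) (nat_lit 10) (.e (nat_lit 434231) (nat_lit 23) (.e (nat_lit 532535) (nat_lit 9) (.e (nat_lit 335905) (nat_lit 0) (.e (nat_lit 968) (nat_lit 81) (.e (nat_lit 4841) (nat_lit 283) .nil)))))))) (.g (nat_lit 5) .nil .nil))) 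
(.lf (nat_lit 147126) (.g (nat_lit 3369) (.e (nat_lit 57374) (nat_lit 2) (.e (nat_lit 90170) (nat_lit 13) (.e (nat_lit 172106) (nat_lit 10) (.e (nat_lit 434231) (nat_lit 23) (.e (nat_lit 532535) (nat_lit 9) (.e (nat_lit 335925) (nat_lit 0) (.e (nat_lit 1015) (nat_lit 81) (.e (nat_lit 7936) (nat_lit 283) .nil)))))))) (.g (nat_lit 4) .nil .nil))))) (.nd (nat_lit 4) (.nd (nat_lit 5) 
(.lf (nat_lit 147086) (.g (nat_lit 3736) (.e (nat_lit 57374) (nat_lit 2) (.e (nat_lit 90170) (nat_lit 13) (.e (nat_lit 172106) (nat_lit 10) (.e (nat_lit 434231) (nat_lit 23) (.e (nat_lit 532535) (nat_lit 9) (.e (nat_lit 335886) (nat_lit 0) (.e (nat_lit 970) (nat_lit 81) (.e (nat_lit 4840) (nat_lit 283) .nil)))))))) (.g (nat_lit 5) .nil .nil))) 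
(.lf (nat_lit 147118) (.g (nat_lit 3416) (.e (nat_lit 57374) (nat_lit 2) (.e (nat_lit 90170) (nat_lit 13) (.e (nat_lit 172106) (nat_lit 10) (.e (nat_lit 434231) (nat_lit 23) (.e (nat_lit 532535) (nat_lit 9) (.e (nat_lit 335925) (nat_lit 0) (.e (nat_lit 988) (nat_lit 81) (.e (nat_lit 4841) (nat_lit 283) .nil)))))))) (.g (nat_lit 4) .nil .nil)))) (.nd (nat_lit 5) 
(.lf (nat_lit 147102) (.g (nat_lit 3529) (.e (nat_lit 57374) (nat_lit 2) (.e (nat_lit 90170) (nat_lit 13) (.e (nat_lit 172106) (nat_lit 10) (.e (nat_lit 434231) (nat_lit 23) (.e (nat_lit 532535) (nat_lit 9) (.e (nat_lit 335919) (nat_lit 0) (.e (nat_lit 988) (nat_lit 81) (.e (nat_lit 4841) (nat_lit 283) .nil)))))))) (.g (nat_lit 4) .nil .nil))) 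
(.lf (nat_lit 147134) (.g (nat_lit 4402) (.e (nat_lit 57374) (nat_lit 2) (.e (nat_lit 90170) (nat_lit 13) (.e (nat_lit 172106) (nat_lit 10) (.e (nat_lit 434231) (nat_lit 23) (.e (nat_lit 532535) (nat_lit 9) (.e (nat_lit 335928) (nat_lit 0) (.e (nat_lit 990) (nat_lit 81) (.e (nat_lit 4841) (nat_lit 283) .nil)))))))) (.g (nat_lit 7) .nil .nil)))))))) 
(.nd (nat_lit 1) (.nd (nat_lit 2) (.nd (nat_lit 3) (.nd (nat_lit 4) (.nd (nat_lit 5) 
(.lf (nat_lit 147073) (.g (nat_lit 3086) (.e (nat_lit 57374) (nat_lit 2) (.e (nat_lit 90170) (nat_lit 13) (.e (nat_lit 172106) (nat_lit 10) (.e (nat_lit 434231) (nat_lit 23) (.e (nat_lit 532529) (nat_lit 9) (.e (nat_lit 343808) (nat_lit 15) (.e (nat_lit 2401) (nat_lit 157) (.e (nat_lit 6930) (nat_lit 373) .nil)))))))) (.g (nat_lit 4) .nil .nil))) 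
(.lf (nat_lit 147105) (.g (nat_lit 3311) (.e (nat_lit 57374) (nat_lit 2) (.e (nat_lit 90170) (nat_lit 13) (.e (nat_lit 172106) (nat_lit 10) (.e (nat_lit 434231) (nat_lit 23) (.e (nat_lit 532535) (nat_lit 9) (.e (nat_lit 335920) (nat_lit 0) (.e (nat_lit 988) (nat_lit 81) (.e (nat_lit 7936) (nat_lit 283) .nil)))))))) (.g (nat_lit 4) .nil .nil)))) (.nd (nat_lit 5) 
(.lf (nat_lit 147089) (.g (nat_lit 3246) (.e (nat_lit 57374) (nat_lit 2) (.e (nat_lit 90170) (nat_lit 13) (.e (nat_lit 172106) (nat_lit 10) (.e (nat_lit 434231) (nat_lit 23) (.e (nat_lit 532535) (nat_lit 9) (.e (nat_lit 335900) (nat_lit 0) (.e (nat_lit 984) (nat_lit 81) (.e (nat_lit 7936) (nat_lit 283) .nil)))))))) (.g (nat_lit 4) .nil .nil))) 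
(.lf (nat_lit 147121) (.g (nat_lit 4250) (.e (nat_lit 57374) (nat_lit 2) (.e (nat_lit 90170) (nat_lit 13) (.e (nat_lit 172106) (nat_lit 10) (.e (nat_lit 434231) (nat_lit 23) (.e (nat_lit 532535) (nat_lit 9) (.e (nat_lit 335925) (nat_lit 0) (.e (nat_lit 990) (nat_lit 81) (.e (nat_lit 4842) (nat_lit 283) .nil)))))))) (.g (nat_lit 5) .nil .nil))))) (.nd (nat_lit 4) (.nd (nat_lit 5) 
(.lf (nat_lit 147081) (.g (nat_lit 4603) (.e (nat_lit 57374) (nat_lit 2) (.e (nat_lit 90170) (nat_lit 13) (.e (nat_lit 172106) (nat_lit 10) (.e (nat_lit 434231) (nat_lit 23) (.e (nat_lit 532529) (nat_lit 9) (.e (nat_lit 336342) (nat_lit 21) (.e (nat_lit 237312) (nat_lit 172) .nil))))))) (.g (nat_lit 5) .nil .nil))) 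
(.lf (nat_lit 147113) (.g (nat_lit 3227) (.e (nat_lit 57374) (nat_lit 2) (.e (nat_lit 90170) (nat_lit 13) (.e (nat_lit 172106) (nat_lit 10) (.e (nat_lit 434231) (nat_lit 23) (.e (nat_lit 532535) (nat_lit 9) (.e (nat_lit 335922) (nat_lit 0) (.e (nat_lit 988) (nat_lit 81) (.e (nat_lit 7936) (nat_lit 283) .nil)))))))) (.g (nat_lit 4) .nil .nil)))) (.nd (nat_lit 5) 
(.lf (nat_lit 147097) (.g (nat_lit 4740) (.e (nat_lit 57374) (nat_lit 2) (.e (nat_lit 90170) (nat_lit 13) (.e (nat_lit 172106) (nat_lit 10) (.e (nat_lit 434231) (nat_lit 23) (.e (nat_lit 532535) (nat_lit 9) (.e (nat_lit 335905) (nat_lit 0) (.e (nat_lit 972) (nat_lit 81) (.e (nat_lit 4840) (nat_lit 283) .nil)))))))) (.g (nat_lit 5) .nil .nil))) 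
(.lf (nat_lit 147129) (.g (nat_lit 3223) (.e (nat_lit 57374) (nat_lit 2) (.e (nat_lit 90170) (nat_lit 13) (.e (nat_lit 172106) (nat_lit 10) (.e (nat_lit 434231) (nat_lit 23) (.e (nat_lit 532535) (nat_lit 9) (.e (nat_lit 335927) (nat_lit 0) (.e (nat_lit 990) (nat_lit 81) (.e (nat_lit 4842) (nat_lit 283) .nil)))))))) (.g (nat_lit 4) .nil .nil)))))) (.nd (nat_lit 3) (.nd (nat_lit 4) (.nd (nat_lit 5) 
(.lf (nat_lit 147077) (.g (nat_lit 4046) (.e (nat_lit 57374) (nat_lit 2) (.e (nat_lit 90170) (nat_lit 13) (.e (nat_lit 172106) (nat_lit 10) (.e (nat_lit 434231) (nat_lit 23) (.e (nat_lit 532529) (nat_lit 9) (.e (nat_lit 336312) (nat_lit 16) (.e (nat_lit 171776) (nat_lit 172) .nil))))))) (.g (nat_lit 5) .nil .nil))) 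
(.lf (nat_lit 147109) (.g (nat_lit 3533) (.e (nat_lit 57374) (nat_lit 2) (.e (nat_lit 90170) (nat_lit 13) (.e (nat_lit 172106) (nat_lit 10) (.e (nat_lit 434231) (nat_lit 23) (.e (nat_lit 532535) (nat_lit 9) (.e (nat_lit 335921) (nat_lit 0) (.e (nat_lit 1015) (nat_lit 81) (.e (nat_lit 7936) (nat_lit 283) .nil)))))))) (.g (nat_lit 4) .nil .nil)))) (.nd (nat_lit 5) 
(.lf (nat_lit 147093) (.g (nat_lit 3959) (.e (nat_lit 57374) (nat_lit 2) (.e (nat_lit 90170) (nat_lit 13) (.e (nat_lit 172106) (nat_lit 10) (.e (nat_lit 434231) (nat_lit 23) (.e (nat_lit 532535) (nat_lit 9) (.e (nat_lit 335901) (nat_lit 0) (.e (nat_lit 969) (nat_lit 81) (.e (nat_lit 4840) (nat_lit 283) .nil)))))))) (.g (nat_lit 5) .nil .nil))) 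
(.lf (nat_lit 147125) (.g (nat_lit 2989) (.e (nat_lit 57374) (nat_lit 2) (.e (nat_lit 90170) (nat_lit 13) (.e (nat_lit 172106) (nat_lit 10) (.e (nat_lit 434231) (nat_lit 23) (.e (nat_lit 532535) (nat_lit 9) (.e (nat_lit 335925) (nat_lit 0) (.e (nat_lit 1003) (nat_lit 81) (.e (nat_lit 7936) (nat_lit 283) .nil)))))))) (.g (nat_lit 4) .nil .nil))))) (.nd (nat_lit 4) (.nd (nat_lit 5) 
(.lf (nat_lit 147085) (.g (nat_lit 3012) (.e (nat_lit 57374) (nat_lit 2) (.e (nat_lit 90170) (nat_lit 13) (.e (nat_lit 172106) (nat_lit 10) (.e (nat_lit 434231) (nat_lit 23) (.e (nat_lit 532535) (nat_lit 9) (.e (nat_lit 335886) (nat_lit 0) (.e (nat_lit 968) (nat_lit 81) (.e (nat_lit 4842) (nat_lit 283) .nil)))))))) (.g (nat_lit 4) .nil .nil))) 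
(.lf (nat_lit 147117) (.g (nat_lit 4579) (.e (nat_lit 57374) (nat_lit 2) (.e (nat_lit 90170) (nat_lit 13) (.e (nat_lit 172106) (nat_lit 10) (.e (nat_lit 434231) (nat_lit 23) (.e (nat_lit 532535) (nat_lit 9) (.e (nat_lit 335925) (nat_lit 0) (.e (nat_lit 982) (nat_lit 81) (.e (nat_lit 4842) (nat_lit 283) .nil)))))))) (.g (nat_lit 5) .nil .nil)))) (.nd (nat_lit 5) 
(.lf (nat_lit 147101) (.g (nat_lit 4166) (.e (nat_lit 57374) (nat_lit 2) (.e (nat_lit 90170) (nat_lit 13) (.e (nat_lit 172106) (nat_lit 10) (.e (nat_lit 434231) (nat_lit 23) (.e (nat_lit 532535) (nat_lit 9) (.e (nat_lit 335908) (nat_lit 0) (.e (nat_lit 973) (nat_lit 81) (.e (nat_lit 4840) (nat_lit 283) .nil)))))))) (.g (nat_lit 5) .nil .nil))) 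
(.lf (nat_lit 147133) (.g (nat_lit 3383) (.e (nat_lit 57374) (nat_lit 2) (.e (nat_lit 90170) (nat_lit 13) (.e (nat_lit 172106) (nat_lit 10) (.e (nat_lit 434231) (nat_lit 23) (.e (nat_lit 532535) (nat_lit 9) (.e (nat_lit 335928) (nat_lit 0) (.e (nat_lit 989) (nat_lit 81) (.e (nat_lit 7936) (nat_lit 283) .nil)))))))) (.g (nat_lit 4) .nil .nil))))))) 
(.nd (nat_lit 2) (.nd (nat_lit 3) (.nd (nat_lit 4) (.nd (nat_lit 5) 
(.lf (nat_lit 147075) (.g (nat_lit 3539) (.e (nat_lit 57374) (nat_lit 2) (.e (nat_lit 90170) (nat_lit 13) (.e (nat_lit 172106) (nat_lit 10) (.e (nat_lit 434231) (nat_lit 23) (.e (nat_lit 532529) (nat_lit 9) (.e (nat_lit 336309) (nat_lit 16) (.e (nat_lit 171776) (nat_lit 172) .nil))))))) (.g (nat_lit 4) .nil .nil))) 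
(.lf (nat_lit 147107) (.g (nat_lit 3523) (.e (nat_lit 57374) (nat_lit 2) (.e (nat_lit 90170) (nat_lit 13) (.e (nat_lit 172106) (nat_lit 10) (.e (nat_lit 434231) (nat_lit 23) (.e (nat_lit 532535) (nat_lit 9) (.e (nat_lit 335920) (nat_lit 0) (.e (nat_lit 1023) (nat_lit 81) (.e (nat_lit 7936) (nat_lit 283) .nil)))))))) (.g (nat_lit 4) .nil .nil)))) (.nd (nat_lit 5) 
(.lf (nat_lit 147091) (.g (nat_lit 3690) (.e (nat_lit 57374) (nat_lit 2) (.e (nat_lit 90170) (nat_lit 13) (.e (nat_lit 172106) (nat_lit 10) (.e (nat_lit 434231) (nat_lit 23) (.e (nat_lit 532535) (nat_lit 9) (.e (nat_lit 335900) (nat_lit 0) (.e (nat_lit 997) (nat_lit 81) (.e (nat_lit 7936) (nat_lit 283) .nil)))))))) (.g (nat_lit 4) .nil .nil))) 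
(.lf (nat_lit 147123) (.g (nat_lit 4754) (.e (nat_lit 57374) (nat_lit 2) (.e (nat_lit 90170) (nat_lit 13) (.e (nat_lit 172106) (nat_lit 10) (.e (nat_lit 434231) (nat_lit 23) (.e (nat_lit 532535) (nat_lit 9) (.e (nat_lit 335925) (nat_lit 0) (.e (nat_lit 991) (nat_lit 81) (.e (nat_lit 4841) (nat_lit 283) .nil)))))))) (.g (nat_lit 6) .nil .nil))))) (.nd (nat_lit 4) (.nd (nat_lit 5) 
(.lf (nat_lit 147083) (.g (nat_lit 3848) (.e (nat_lit 57374) (nat_lit 2) (.e (nat_lit 90170) (nat_lit 13) (.e (nat_lit 172106) (nat_lit 10) (.e (nat_lit 434231) (nat_lit 23) (.e (nat_lit 532535) (nat_lit 9) (.e (nat_lit 335886) (nat_lit 0) (.e (nat_lit 968) (nat_lit 81) (.e (nat_lit 4840) (nat_lit 283) .nil)))))))) (.g (nat_lit 5) .nil .nil))) 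
(.lf (nat_lit 147115) (.g (nat_lit 3350) (.e (nat_lit 57374) (nat_lit 2) (.e (nat_lit 90170) (nat_lit 13) (.e (nat_lit 172106) (nat_lit 10) (.e (nat_lit 434231) (nat_lit 23) (.e (nat_lit 532535) (nat_lit 9) (.e (nat_lit 335922) (nat_lit 0) (.e (nat_lit 1023) (nat_lit 81) (.e (nat_lit 7936) (nat_lit 283) .nil)))))))) (.g (nat_lit 4) .nil .nil)))) (.nd (nat_lit 5) 
(.lf (nat_lit 147099) (.g (nat_lit 3800) (.e (nat_lit 57374) (nat_lit 2) (.e (nat_lit 90170) (nat_lit 13) (.e (nat_lit 172106) (nat_lit 10) (.e (nat_lit 434231) (nat_lit 23) (.e (nat_lit 532535) (nat_lit 9) (.e (nat_lit 335908) (nat_lit 0) (.e (nat_lit 968) (nat_lit 81) (.e (nat_lit 4841) (nat_lit 283) .nil)))))))) (.g (nat_lit 5) .nil .nil))) 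
(.lf (nat_lit 147131) (.g (nat_lit 3225) (.e (nat_lit 57374) (nat_lit 2) (.e (nat_lit 90170) (nat_lit 13) (.e (nat_lit 172106) (nat_lit 10) (.e (nat_lit 434231) (nat_lit 23) (.e (nat_lit 532535) (nat_lit 9) (.e (nat_lit 335928) (nat_lit 0) (.e (nat_lit 988) (nat_lit 81) (.e (nat_lit 7936) (nat_lit 283) .nil)))))))) (.g (nat_lit 4) .nil .nil)))))) (.nd (nat_lit 3) (.nd (nat_lit 4) (.nd (nat_lit 5) 
(.lf (nat_lit 147079) (.g (nat_lit 3370) (.e (nat_lit 57374) (nat_lit 2) (.e (nat_lit 90170) (nat_lit 13) (.e (nat_lit 172106) (nat_lit 10) (.e (nat_lit 434231) (nat_lit 23) (.e (nat_lit 532529) (nat_lit 9) (.e (nat_lit 336339) (nat_lit 21) (.e (nat_lit 237312) (nat_lit 172) .nil))))))) (.g (nat_lit 4) .nil .nil))) 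
(.lf (nat_lit 147111) (.g (nat_lit 3418) (.e (nat_lit 57374) (nat_lit 2) (.e (nat_lit 90170) (nat_lit 13) (.e (nat_lit 172106) (nat_lit 10) (.e (nat_lit 434231) (nat_lit 23) (.e (nat_lit 532535) (nat_lit 9) (.e (nat_lit 335921) (nat_lit 0) (.e (nat_lit 1086) (nat_lit 81) (.e (nat_lit 7936) (nat_lit 283) .nil)))))))) (.g (nat_lit 4) .nil .nil)))) (.nd (nat_lit 5) 
(.lf (nat_lit 147095) (.g (nat_lit 4742) (.e (nat_lit 57374) (nat_lit 2) (.e (nat_lit 90170) (nat_lit 13) (.e (nat_lit 172106) (nat_lit 10) (.e (nat_lit 434231) (nat_lit 23) (.e (nat_lit 532535) (nat_lit 9) (.e (nat_lit 335905) (nat_lit 0) (.e (nat_lit 968) (nat_lit 81) (.e (nat_lit 4842) (nat_lit 283) .nil)))))))) (.g (nat_lit 5) .nil .nil))) 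
(.lf (nat_lit 147127) (.g (nat_lit 3519) (.e (nat_lit 57374) (nat_lit 2) (.e (nat_lit 90170) (nat_lit 13) (.e (nat_lit 172106) (nat_lit 10) (.e (nat_lit 434231) (nat_lit 23) (.e (nat_lit 532535) (nat_lit 9) (.e (nat_lit 335927) (nat_lit 0) (.e (nat_lit 988) (nat_lit 81) (.e (nat_lit 4841) (nat_lit 283) .nil)))))))) (.g (nat_lit 4) .nil .nil))))) (.nd (nat_lit 4) (.nd (nat_lit 5) 
(.lf (nat_lit 147087) (.g (nat_lit 2977) (.e (nat_lit 57374) (nat_lit 2) (.e (nat_lit 90170) (nat_lit 13) (.e (nat_lit 172106) (nat_lit 10) (.e (nat_lit 434231) (nat_lit 23) (.e (nat_lit 532535) (nat_lit 9) (.e (nat_lit 335886) (nat_lit 0) (.e (nat_lit 972) (nat_lit 81) (.e (nat_lit 4840) (nat_lit 283) .nil)))))))) (.g (nat_lit 4) .nil .nil))) 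
(.lf (nat_lit 147119) (.g (nat_lit 4323) (.e (nat_lit 57374) (nat_lit 2) (.e (nat_lit 90170) (nat_lit 13) (.e (nat_lit 172106) (nat_lit 10) (.e (nat_lit 434231) (nat_lit 23) (.e (nat_lit 532535) (nat_lit 9) (.e (nat_lit 335925) (nat_lit 0) (.e (nat_lit 989) (nat_lit 81) (.e (nat_lit 7936) (nat_lit 283) .nil)))))))) (.g (nat_lit 5) .nil .nil)))) (.nd (nat_lit 5) 
(.lf (nat_lit 147103) (.g (nat_lit 3453) (.e (nat_lit 57374) (nat_lit 2) (.e (nat_lit 90170) (nat_lit 13) (.e (nat_lit 172106) (nat_lit 10) (.e (nat_lit 434231) (nat_lit 23) (.e (nat_lit 532535) (nat_lit 9) (.e (nat_lit 335919) (nat_lit 0) (.e (nat_lit 989) (nat_lit 81) (.e (nat_lit 7936) (nat_lit 283) .nil)))))))) (.g (nat_lit 4) .nil .nil))) 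
(.lf (nat_lit 147135) (.g (nat_lit 4136) (.e (nat_lit 57374) (nat_lit 2) (.e (nat_lit 90170) (nat_lit 13) (.e (nat_lit 172106) (nat_lit 10) (.e (nat_lit 434231) (nat_lit 23) (.e (nat_lit 532535) (nat_lit 9) (.e (nat_lit 335928) (nat_lit 0) (.e (nat_lit 990) (nat_lit 81) (.e (nat_lit 7936) (nat_lit 283) .nil)))))))) (.g (nat_lit 6) .nil .nil)))))))))

noncomputable def tv1957 : DT := (.nd (nat_lit 0) (.nd (nat_lit 1) (.nd (nat_lit 2) (.nd (nat_lit 3) (.nd (nat_lit 4) (.nd (nat_lit 5) 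
(.lf (nat_lit 147136) (.g (nat_lit 4003) (.e (nat_lit 57374) (nat_lit 2) (.e (nat_lit 90170) (nat_lit 13) (.e (nat_lit 172106) (nat_lit 10) (.e (nat_lit 434231) (nat_lit 23) (.e (nat_lit 532535) (nat_lit 9) (.e (nat_lit 335928) (nat_lit 0) (.e (nat_lit 991) (nat_lit 81) (.e (nat_lit 4841) (nat_lit 283) .nil)))))))) (.g (nat_lit 6) .nil .nil))) 
(.lf (nat_lit 147168) (.g (nat_lit 4433) (.e (nat_lit 57374) (nat_lit 2) (.e (nat_lit 90170) (nat_lit 13) (.e (nat_lit 172106) (nat_lit 10) (.e (nat_lit 434231) (nat_lit 23) (.e (nat_lit 532543) (nat_lit 10) (.e (nat_lit 344090) (nat_lit 18) (.e (nat_lit 7936) (nat_lit 283) .nil))))))) (.g (nat_lit 6) .nil .nil)))) (.nd (nat_lit 5) 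
(.lf (nat_lit 147152) (.g (nat_lit 3463) (.e (nat_lit 57374) (nat_lit 2) (.e (nat_lit 90170) (nat_lit 13) (.e (nat_lit 172106) (nat_lit 10) (.e (nat_lit 434231) (nat_lit 23) (.e (nat_lit 532535) (nat_lit 9) (.e (nat_lit 336290) (nat_lit 15) (.e (nat_lit 2505) (nat_lit 157) (.e (nat_lit 7936) (nat_lit 373) .nil)))))))) (.g (nat_lit 4) .nil .nil))) 
(.lf (nat_lit 147184) (.g (nat_lit 4396) (.e (nat_lit 57374) (nat_lit 2) (.e (nat_lit 90170) (nat_lit 13) (.e (nat_lit 172106) (nat_lit 10) (.e (nat_lit 434231) (nat_lit 23) (.e (nat_lit 532544) (nat_lit 10) (.e (nat_lit 344088) (nat_lit 18) (.e (nat_lit 7936) (nat_lit 283) .nil))))))) (.g (nat_lit 6) .nil .nil))))) (.nd (nat_lit 4) (.nd (nat_lit 5) 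
(.lf (nat_lit 147144) (.g (nat_lit 3703) (.e (nat_lit 57374) (nat_lit 2) (.e (nat_lit 90170) (nat_lit 13) (.e (nat_lit 172106) (nat_lit 10) (.e (nat_lit 434231) (nat_lit 23) (.e (nat_lit 532535) (nat_lit 9) (.e (nat_lit 335991) (nat_lit 1) (.e (nat_lit 65280) (nat_lit 241) .nil))))))) (.g (nat_lit 4) .nil .nil))) 
(.lf (nat_lit 147176) (.g (nat_lit 2584) (.e (nat_lit 57374) (nat_lit 2) (.e (nat_lit 90170) (nat_lit 13) (.e (nat_lit 172106) (nat_lit 10) (.e (nat_lit 434231) (nat_lit 23) (.e (nat_lit 532543) (nat_lit 10) (.e (nat_lit 344099) (nat_lit 18) (.e (nat_lit 7936) (nat_lit 283) .nil))))))) (.g (nat_lit 4) .nil .nil)))) (.nd (nat_lit 5) 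
(.lf (nat_lit 147160) (.g (nat_lit 3733) (.e (nat_lit 57374) (nat_lit 2) (.e (nat_lit 90170) (nat_lit 13) (.e (nat_lit 172106) (nat_lit 10) (.e (nat_lit 434231) (nat_lit 23) (.e (nat_lit 532543) (nat_lit 10) (.e (nat_lit 344087) (nat_lit 18) (.e (nat_lit 4841) (nat_lit 283) .nil))))))) (.g (nat_lit 5) .nil .nil))) 
(.lf (nat_lit 147192) (.g (nat_lit 4370) (.e (nat_lit 57374) (nat_lit 2) (.e (nat_lit 90170) (nat_lit 13) (.e (nat_lit 172106) (nat_lit 10) (.e (nat_lit 434231) (nat_lit 23) (.e (nat_lit 532544) (nat_lit 10) (.e (nat_lit 344095) (nat_lit 18) (.e (nat_lit 7936) (nat_lit 283) .nil))))))) (.g (nat_lit 5) .nil .nil)))))) (.nd (nat_lit 3) (.nd (nat_lit 4) (.nd (nat_lit 5) 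
(.lf (nat_lit 147140) (.g (nat_lit 3160) (.e (nat_lit 57374) (nat_lit 2) (.e (nat_lit 90170) (nat_lit 13) (.e (nat_lit 172106) (nat_lit 10) (.e (nat_lit 434231) (nat_lit 23) (.e (nat_lit 532535) (nat_lit 9) (.e (nat_lit 335937) (nat_lit 0) (.e (nat_lit 1003) (nat_lit 81) (.e (nat_lit 7936) (nat_lit 283) .nil)))))))) (.g (nat_lit 4) .nil .nil))) 
(.lf (nat_lit 147172) (.g (nat_lit 4172) (.e (nat_lit 57374) (nat_lit 2) (.e (nat_lit 90170) (nat_lit 13) (.e (nat_lit 172106) (nat_lit 10) (.e (nat_lit 434231) (nat_lit 23) (.e (nat_lit 532543) (nat_lit 10) (.e (nat_lit 344095) (nat_lit 18) (.e (nat_lit 7936) (nat_lit 283) .nil))))))) (.g (nat_lit 6) .nil .nil)))) (.nd (nat_lit 5) 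
(.lf (nat_lit 147156) (.g (nat_lit 4717) (.e (nat_lit 57374) (nat_lit 2) (.e (nat_lit 90170) (nat_lit 13) (.e (nat_lit 172106) (nat_lit 10) (.e (nat_lit 434231) (nat_lit 23) (.e (nat_lit 532535) (nat_lit 9) (.e (nat_lit 336295) (nat_lit 15) (.e (nat_lit 2443) (nat_lit 157) (.e (nat_lit 7936) (nat_lit 373) .nil)))))))) (.g (nat_lit 5) .nil .nil))) 
(.lf (nat_lit 147188) (.g (nat_lit 4469) (.e (nat_lit 57374) (nat_lit 2) (.e (nat_lit 90170) (nat_lit 13) (.e (nat_lit 172106) (nat_lit 10) (.e (nat_lit 434231) (nat_lit 23) (.e (nat_lit 532544) (nat_lit 10) (.e (nat_lit 344091) (nat_lit 18) (.e (nat_lit 7936) (nat_lit 283) .nil))))))) (.g (nat_lit 6) .nil .nil))))) (.nd (nat_lit 4) (.nd (nat_lit 5) 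
(.lf (nat_lit 147148) (.g (nat_lit 5368) (.e (nat_lit 57374) (nat_lit 2) (.e (nat_lit 90170) (nat_lit 13) (.e (nat_lit 172106) (nat_lit 10) (.e (nat_lit 434231) (nat_lit 23) (.e (nat_lit 532535) (nat_lit 9) (.e (nat_lit 336248) (nat_lit 15) (.e (nat_lit 2401) (nat_lit 157) (.e (nat_lit 6930) (nat_lit 373) .nil)))))))) (.g (nat_lit 5) .nil .nil))) 
(.lf (nat_lit 147180) (.g (nat_lit 3576) (.e (nat_lit 57374) (nat_lit 2) (.e (nat_lit 90170) (nat_lit 13) (.e (nat_lit 172106) (nat_lit 10) (.e (nat_lit 434231) (nat_lit 23) (.e (nat_lit 532544) (nat_lit 10) (.e (nat_lit 344087) (nat_lit 18) (.e (nat_lit 4841) (nat_lit 283) .nil))))))) (.g (nat_lit 5) .nil .nil)))) (.nd (nat_lit 5) 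
(.lf (nat_lit 147164) (.g (nat_lit 3583) (.e (nat_lit 57374) (nat_lit 2) (.e (nat_lit 90170) (nat_lit 13) (.e (nat_lit 172106) (nat_lit 10) (.e (nat_lit 434231) (nat_lit 23) (.e (nat_lit 532543) (nat_lit 10) (.e (nat_lit 344088) (nat_lit 18) (.e (nat_lit 7936) (nat_lit 283) .nil))))))) (.g (nat_lit 5) .nil .nil))) 
(.lf (nat_lit 147196) (.g (nat_lit 2601) (.e (nat_lit 57374) (nat_lit 2) (.e (nat_lit 90170) (nat_lit 13) (.e (nat_lit 172106) (nat_lit 10) (.e (nat_lit 434231) (nat_lit 23) (.e (nat_lit 532544) (nat_lit 10) (.e (nat_lit 344099) (nat_lit 18) (.e (nat_lit 7936) (nat_lit 283) .nil))))))) (.g (nat_lit 4) .nil .nil))))))) (.nd (nat_lit 2) (.nd (nat_lit 3) (.nd (nat_lit 4) (.nd (nat_lit 5) 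
(.lf (nat_lit 147138) (.g (nat_lit 3548) (.e (nat_lit 57374) (nat_lit 2) (.e (nat_lit 90170) (nat_lit 13) (.e (nat_lit 172106) (nat_lit 10) (.e (nat_lit 434231) (nat_lit 23) (.e (nat_lit 532535) (nat_lit 9) (.e (nat_lit 335930) (nat_lit 0) (.e (nat_lit 982) (nat_lit 81) (.e (nat_lit 4841) (nat_lit 283) .nil)))))))) (.g (nat_lit 4) .nil .nil))) 
(.lf (nat_lit 147170) (.g (nat_lit 3677) (.e (nat_lit 57374) (nat_lit 2) (.e (nat_lit 90170) (nat_lit 13) (.e (nat_lit 172106) (nat_lit 10) (.e (nat_lit 434231) (nat_lit 23) (.e (nat_lit 532543) (nat_lit 10) (.e (nat_lit 344093) (nat_lit 18) (.e (nat_lit 7936) (nat_lit 283) .nil))))))) (.g (nat_lit 5) .nil .nil)))) (.nd (nat_lit 5) 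
(.lf (nat_lit 147154) (.g (nat_lit 3258) (.e (nat_lit 57374) (nat_lit 2) (.e (nat_lit 90170) (nat_lit 13) (.e (nat_lit 172106) (nat_lit 10) (.e (nat_lit 434231) (nat_lit 23) (.e (nat_lit 532535) (nat_lit 9) (.e (nat_lit 336290) (nat_lit 15) (.e (nat_lit 2509) (nat_lit 157) (.e (nat_lit 7936) (nat_lit 373) .nil)))))))) (.g (nat_lit 4) .nil .nil))) 
(.lf (nat_lit 147186) (.g (nat_lit 4640) (.e (nat_lit 57374) (nat_lit 2) (.e (nat_lit 90170) (nat_lit 13) (.e (nat_lit 172106) (nat_lit 10) (.e (nat_lit 434231) (nat_lit 23) (.e (nat_lit 532544) (nat_lit 10) (.e (nat_lit 344089) (nat_lit 18) (.e (nat_lit 7936) (nat_lit 283) .nil))))))) (.g (nat_lit 6) .nil .nil))))) (.nd (nat_lit 4) (.nd (nat_lit 5) 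
(.lf (nat_lit 147146) (.g (nat_lit 4734) (.e (nat_lit 57374) (nat_lit 2) (.e (nat_lit 90170) (nat_lit 13) (.e (nat_lit 172106) (nat_lit 10) (.e (nat_lit 434231) (nat_lit 23) (.e (nat_lit 532535) (nat_lit 9) (.e (nat_lit 336030) (nat_lit 4) (.e (nat_lit 130816) (nat_lit 241) .nil))))))) (.g (nat_lit 5) .nil .nil))) 
(.lf (nat_lit 147178) (.g (nat_lit 2640) (.e (nat_lit 57374) (nat_lit 2) (.e (nat_lit 90170) (nat_lit 13) (.e (nat_lit 172106) (nat_lit 10) (.e (nat_lit 434231) (nat_lit 23) (.e (nat_lit 532543) (nat_lit 10) (.e (nat_lit 344102) (nat_lit 18) (.e (nat_lit 7936) (nat_lit 283) .nil))))))) (.g (nat_lit 4) .nil .nil)))) (.nd (nat_lit 5) 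
(.lf (nat_lit 147162) (.g (nat_lit 3413) (.e (nat_lit 57374) (nat_lit 2) (.e (nat_lit 90170) (nat_lit 13) (.e (nat_lit 172106) (nat_lit 10) (.e (nat_lit 434231) (nat_lit 23) (.e (nat_lit 532543) (nat_lit 10) (.e (nat_lit 344087) (nat_lit 18) (.e (nat_lit 7936) (nat_lit 283) .nil))))))) (.g (nat_lit 4) .nil .nil))) 
(.lf (nat_lit 147194) (.g (nat_lit 4301) (.e (nat_lit 57374) (nat_lit 2) (.e (nat_lit 90170) (nat_lit 13) (.e (nat_lit 172106) (nat_lit 10) (.e (nat_lit 434231) (nat_lit 23) (.e (nat_lit 532544) (nat_lit 10) (.e (nat_lit 344097) (nat_lit 18) (.e (nat_lit 7936) (nat_lit 283) .nil))))))) (.g (nat_lit 6) .nil .nil)))))) (.nd (nat_lit 3) (.nd (nat_lit 4) (.nd (nat_lit 5) 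
(.lf (nat_lit 147142) (.g (nat_lit 4449) (.e (nat_lit 57374) (nat_lit 2) (.e (nat_lit 90170) (nat_lit 13) (.e (nat_lit 172106) (nat_lit 10) (.e (nat_lit 434231) (nat_lit 23) (.e (nat_lit 532535) (nat_lit 9) (.e (nat_lit 335985) (nat_lit 1) (.e (nat_lit 65280) (nat_lit 241) .nil))))))) (.g (nat_lit 6) .nil .nil))) 
(.lf (nat_lit 147174) (.g (nat_lit 4270) (.e (nat_lit 57374) (nat_lit 2) (.e (nat_lit 90170) (nat_lit 13) (.e (nat_lit 172106) (nat_lit 10) (.e (nat_lit 434231) (nat_lit 23) (.e (nat_lit 532543) (nat_lit 10) (.e (nat_lit 344097) (nat_lit 18) (.e (nat_lit 7936) (nat_lit 283) .nil))))))) (.g (nat_lit 6) .nil .nil)))) (.nd (nat_lit 5) 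
(.lf (nat_lit 147158) (.g (nat_lit 4305) (.e (nat_lit 57374) (nat_lit 2) (.e (nat_lit 90170) (nat_lit 13) (.e (nat_lit 172106) (nat_lit 10) (.e (nat_lit 434231) (nat_lit 23) (.e (nat_lit 532535) (nat_lit 9) (.e (nat_lit 336295) (nat_lit 15) (.e (nat_lit 2505) (nat_lit 157) (.e (nat_lit 7936) (nat_lit 373) .nil)))))))) (.g (nat_lit 5) .nil .nil))) 
(.lf (nat_lit 147190) (.g (nat_lit 3323) (.e (nat_lit 57374) (nat_lit 2) (.e (nat_lit 90170) (nat_lit 13) (.e (nat_lit 172106) (nat_lit 10) (.e (nat_lit 434231) (nat_lit 23) (.e (nat_lit 532544) (nat_lit 10) (.e (nat_lit 344093) (nat_lit 18) (.e (nat_lit 7936) (nat_lit 283) .nil))))))) (.g (nat_lit 4) .nil .nil))))) (.nd (nat_lit 4) (.nd (nat_lit 5) 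
(.lf (nat_lit 147150) (.g (nat_lit 5333) (.e (nat_lit 57374) (nat_lit 2) (.e (nat_lit 90170) (nat_lit 13) (.e (nat_lit 172106) (nat_lit 10) (.e (nat_lit 434231) (nat_lit 23) (.e (nat_lit 532535) (nat_lit 9) (.e (nat_lit 336248) (nat_lit 15) (.e (nat_lit 2412) (nat_lit 157) (.e (nat_lit 6930) (nat_lit 373) .nil)))))))) (.g (nat_lit 5) .nil .nil))) 
(.lf (nat_lit 147182) (.g (nat_lit 3256) (.e (nat_lit 57374) (nat_lit 2) (.e (nat_lit 90170) (nat_lit 13) (.e (nat_lit 172106) (nat_lit 10) (.e (nat_lit 434231) (nat_lit 23) (.e (nat_lit 532544) (nat_lit 10) (.e (nat_lit 344087) (nat_lit 18) (.e (nat_lit 7936) (nat_lit 283) .nil))))))) (.g (nat_lit 4) .nil .nil)))) (.nd (nat_lit 5) 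
(.lf (nat_lit 147166) (.g (nat_lit 3605) (.e (nat_lit 57374) (nat_lit 2) (.e (nat_lit 90170) (nat_lit 13) (.e (nat_lit 172106) (nat_lit 10) (.e (nat_lit 434231) (nat_lit 23) (.e (nat_lit 532543) (nat_lit 10) (.e (nat_lit 344089) (nat_lit 18) (.e (nat_lit 4842) (nat_lit 283) .nil))))))) (.g (nat_lit 5) .nil .nil))) 
(.lf (nat_lit 147198) (.g (nat_lit 3944) (.e (nat_lit 57374) (nat_lit 2) (.e (nat_lit 90170) (nat_lit 13) (.e (nat_lit 172106) (nat_lit 10) (.e (nat_lit 434231) (nat_lit 23) (.e (nat_lit 532544) (nat_lit 10) (.e (nat_lit 344102) (nat_lit 18) (.e (nat_lit 7936) (nat_lit 283) .nil))))))) (.g (nat_lit 5) .nil .nil)))))))) 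
(.nd (nat_lit 1) (.nd (nat_lit 2) (.nd (nat_lit 3) (.nd (nat_lit 4) (.nd (nat_lit 5) 
(.lf (nat_lit 147137) (.g (nat_lit 4425) (.e (nat_lit 57374) (nat_lit 2) (.e (nat_lit 90170) (nat_lit 13) (.e (nat_lit 172106) (nat_lit 10) (.e (nat_lit 434231) (nat_lit 23) (.e (nat_lit 532535) (nat_lit 9) (.e (nat_lit 335928) (nat_lit 0) (.e (nat_lit 991) (nat_lit 81) (.e (nat_lit 7936) (nat_lit 283) .nil)))))))) (.g (nat_lit 7) .nil .nil))) 
(.lf (nat_lit 147169) (.g (nat_lit 3645) (.e (nat_lit 57374) (nat_lit 2) (.e (nat_lit 90170) (nat_lit 13) (.e (nat_lit 172106) (nat_lit 10) (.e (nat_lit 434231) (nat_lit 23) (.e (nat_lit 532543) (nat_lit 10) (.e (nat_lit 344091) (nat_lit 18) (.e (nat_lit 7936) (nat_lit 283) .nil))))))) (.g (nat_lit 5) .nil .nil)))) (.nd (nat_lit 5) 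
(.lf (nat_lit 147153) (.g (nat_lit 3397) (.e (nat_lit 57374) (nat_lit 2) (.e (nat_lit 90170) (nat_lit 13) (.e (nat_lit 172106) (nat_lit 10) (.e (nat_lit 434231) (nat_lit 23) (.e (nat_lit 532535) (nat_lit 9) (.e (nat_lit 336290) (nat_lit 15) (.e (nat_lit 2508) (nat_lit 157) (.e (nat_lit 7936) (nat_lit 373) .nil)))))))) (.g (nat_lit 4) .nil .nil))) 
(.lf (nat_lit 147185) (.g (nat_lit 3815) (.e (nat_lit 57374) (nat_lit 2) (.e (nat_lit 90170) (nat_lit 13) (.e (nat_lit 172106) (nat_lit 10) (.e (nat_lit 434231) (nat_lit 23) (.e (nat_lit 532544) (nat_lit 10) (.e (nat_lit 344089) (nat_lit 18) (.e (nat_lit 4841) (nat_lit 283) .nil))))))) (.g (nat_lit 5) .nil .nil))))) (.nd (nat_lit 4) (.nd (nat_lit 5) 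
(.lf (nat_lit 147145) (.g (nat_lit 4930) (.e (nat_lit 57374) (nat_lit 2) (.e (nat_lit 90170) (nat_lit 13) (.e (nat_lit 172106) (nat_lit 10) (.e (nat_lit 434231) (nat_lit 23) (.e (nat_lit 532535) (nat_lit 9) (.e (nat_lit 335992) (nat_lit 1) (.e (nat_lit 65280) (nat_lit 241) .nil))))))) (.g (nat_lit 6) .nil .nil))) 
(.lf (nat_lit 147177) (.g (nat_lit 2746) (.e (nat_lit 57374) (nat_lit 2) (.e (nat_lit 90170) (nat_lit 13) (.e (nat_lit 172106) (nat_lit 10) (.e (nat_lit 434231) (nat_lit 23) (.e (nat_lit 532543) (nat_lit 10) (.e (nat_lit 344101) (nat_lit 18) (.e (nat_lit 7936) (nat_lit 283) .nil))))))) (.g (nat_lit 4) .nil .nil)))) (.nd (nat_lit 5) 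
(.lf (nat_lit 147161) (.g (nat_lit 3200) (.e (nat_lit 57374) (nat_lit 2) (.e (nat_lit 90170) (nat_lit 13) (.e (nat_lit 172106) (nat_lit 10) (.e (nat_lit 434231) (nat_lit 23) (.e (nat_lit 532543) (nat_lit 10) (.e (nat_lit 344087) (nat_lit 18) (.e (nat_lit 4842) (nat_lit 283) .nil))))))) (.g (nat_lit 4) .nil .nil))) 
(.lf (nat_lit 147193) (.g (nat_lit 5040) (.e (nat_lit 57374) (nat_lit 2) (.e (nat_lit 90170) (nat_lit 13) (.e (nat_lit 172106) (nat_lit 10) (.e (nat_lit 434231) (nat_lit 23) (.e (nat_lit 532544) (nat_lit 10) (.e (nat_lit 344096) (nat_lit 18) (.e (nat_lit 7936) (nat_lit 283) .nil))))))) (.g (nat_lit 6) .nil .nil)))))) (.nd (nat_lit 3) (.nd (nat_lit 4) (.nd (nat_lit 5) 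
(.lf (nat_lit 147141) (.g (nat_lit 3461) (.e (nat_lit 57374) (nat_lit 2) (.e (nat_lit 90170) (nat_lit 13) (.e (nat_lit 172106) (nat_lit 10) (.e (nat_lit 434231) (nat_lit 23) (.e (nat_lit 532535) (nat_lit 9) (.e (nat_lit 335937) (nat_lit 0) (.e (nat_lit 1023) (nat_lit 81) (.e (nat_lit 7936) (nat_lit 283) .nil)))))))) (.g (nat_lit 4) .nil .nil))) 
(.lf (nat_lit 147173) (.g (nat_lit 3852) (.e (nat_lit 57374) (nat_lit 2) (.e (nat_lit 90170) (nat_lit 13) (.e (nat_lit 172106) (nat_lit 10) (.e (nat_lit 434231) (nat_lit 23) (.e (nat_lit 532543) (nat_lit 10) (.e (nat_lit 344096) (nat_lit 18) (.e (nat_lit 7936) (nat_lit 283) .nil))))))) (.g (nat_lit 5) .nil .nil)))) (.nd (nat_lit 5) 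
(.lf (nat_lit 147157) (.g (nat_lit 3558) (.e (nat_lit 57374) (nat_lit 2) (.e (nat_lit 90170) (nat_lit 13) (.e (nat_lit 172106) (nat_lit 10) (.e (nat_lit 434231) (nat_lit 23) (.e (nat_lit 532535) (nat_lit 9) (.e (nat_lit 336295) (nat_lit 15) (.e (nat_lit 2454) (nat_lit 157) (.e (nat_lit 7936) (nat_lit 373) .nil)))))))) (.g (nat_lit 4) .nil .nil))) 
(.lf (nat_lit 147189) (.g (nat_lit 3457) (.e (nat_lit 57374) (nat_lit 2) (.e (nat_lit 90170) (nat_lit 13) (.e (nat_lit 172106) (nat_lit 10) (.e (nat_lit 434231) (nat_lit 23) (.e (nat_lit 532544) (nat_lit 10) (.e (nat_lit 344092) (nat_lit 18) (.e (nat_lit 7936) (nat_lit 283) .nil))))))) (.g (nat_lit 4) .nil .nil))))) (.nd (nat_lit 4) (.nd (nat_lit 5) 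
(.lf (nat_lit 147149) (.g (nat_lit 5180) (.e (nat_lit 57374) (nat_lit 2) (.e (nat_lit 90170) (nat_lit 13) (.e (nat_lit 172106) (nat_lit 10) (.e (nat_lit 434231) (nat_lit 23) (.e (nat_lit 532535) (nat_lit 9) (.e (nat_lit 336248) (nat_lit 15) (.e (nat_lit 2411) (nat_lit 157) (.e (nat_lit 6930) (nat_lit 373) .nil)))))))) (.g (nat_lit 5) .nil .nil))) 
(.lf (nat_lit 147181) (.g (nat_lit 3043) (.e (nat_lit 57374) (nat_lit 2) (.e (nat_lit 90170) (nat_lit 13) (.e (nat_lit 172106) (nat_lit 10) (.e (nat_lit 434231) (nat_lit 23) (.e (nat_lit 532544) (nat_lit 10) (.e (nat_lit 344087) (nat_lit 18) (.e (nat_lit 4842) (nat_lit 283) .nil))))))) (.g (nat_lit 4) .nil .nil)))) (.nd (nat_lit 5) 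
(.lf (nat_lit 147165) (.g (nat_lit 3045) (.e (nat_lit 57374) (nat_lit 2) (.e (nat_lit 90170) (nat_lit 13) (.e (nat_lit 172106) (nat_lit 10) (.e (nat_lit 434231) (nat_lit 23) (.e (nat_lit 532543) (nat_lit 10) (.e (nat_lit 344089) (nat_lit 18) (.e (nat_lit 4841) (nat_lit 283) .nil))))))) (.g (nat_lit 4) .nil .nil))) 
(.lf (nat_lit 147197) (.g (nat_lit 3060) (.e (nat_lit 57374) (nat_lit 2) (.e (nat_lit 90170) (nat_lit 13) (.e (nat_lit 172106) (nat_lit 10) (.e (nat_lit 434231) (nat_lit 23) (.e (nat_lit 532544) (nat_lit 10) (.e (nat_lit 344101) (nat_lit 18) (.e (nat_lit 7936) (nat_lit 283) .nil))))))) (.g (nat_lit 4) .nil .nil))))))) (.nd (nat_lit 2) (.nd (nat_lit 3) (.nd (nat_lit 4) (.nd (nat_lit 5) 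
(.lf (nat_lit 147139) (.g (nat_lit 3689) (.e (nat_lit 57374) (nat_lit 2) (.e (nat_lit 90170) (nat_lit 13) (.e (nat_lit 172106) (nat_lit 10) (.e (nat_lit 434231) (nat_lit 23) (.e (nat_lit 532535) (nat_lit 9) (.e (nat_lit 335937) (nat_lit 0) (.e (nat_lit 990) (nat_lit 81) (.e (nat_lit 7936) (nat_lit 283) .nil)))))))) (.g (nat_lit 4) .nil .nil))) 
(.lf (nat_lit 147171) (.g (nat_lit 4120) (.e (nat_lit 57374) (nat_lit 2) (.e (nat_lit 90170) (nat_lit 13) (.e (nat_lit 172106) (nat_lit 10) (.e (nat_lit 434231) (nat_lit 23) (.e (nat_lit 532543) (nat_lit 10) (.e (nat_lit 344094) (nat_lit 18) (.e (nat_lit 7936) (nat_lit 283) .nil))))))) (.g (nat_lit 6) .nil .nil)))) (.nd (nat_lit 5) 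
(.lf (nat_lit 147155) (.g (nat_lit 4151) (.e (nat_lit 57374) (nat_lit 2) (.e (nat_lit 90170) (nat_lit 13) (.e (nat_lit 172106) (nat_lit 10) (.e (nat_lit 434231) (nat_lit 23) (.e (nat_lit 532535) (nat_lit 9) (.e (nat_lit 336295) (nat_lit 15) (.e (nat_lit 2416) (nat_lit 157) (.e (nat_lit 6931) (nat_lit 373) .nil)))))))) (.g (nat_lit 5) .nil .nil))) 
(.lf (nat_lit 147187) (.g (nat_lit 4366) (.e (nat_lit 57374) (nat_lit 2) (.e (nat_lit 90170) (nat_lit 13) (.e (nat_lit 172106) (nat_lit 10) (.e (nat_lit 434231) (nat_lit 23) (.e (nat_lit 532544) (nat_lit 10) (.e (nat_lit 344090) (nat_lit 18) (.e (nat_lit 7936) (nat_lit 283) .nil))))))) (.g (nat_lit 6) .nil .nil))))) (.nd (nat_lit 4) (.nd (nat_lit 5) 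
(.lf (nat_lit 147147) (.g (nat_lit 3399) (.e (nat_lit 57374) (nat_lit 2) (.e (nat_lit 90170) (nat_lit 13) (.e (nat_lit 172106) (nat_lit 10) (.e (nat_lit 434231) (nat_lit 23) (.e (nat_lit 532535) (nat_lit 9) (.e (nat_lit 336034) (nat_lit 4) (.e (nat_lit 130816) (nat_lit 241) .nil))))))) (.g (nat_lit 4) .nil .nil))) 
(.lf (nat_lit 147179) (.g (nat_lit 3631) (.e (nat_lit 57374) (nat_lit 2) (.e (nat_lit 90170) (nat_lit 13) (.e (nat_lit 172106) (nat_lit 10) (.e (nat_lit 434231) (nat_lit 23) (.e (nat_lit 532543) (nat_lit 10) (.e (nat_lit 344104) (nat_lit 18) (.e (nat_lit 7936) (nat_lit 283) .nil))))))) (.g (nat_lit 5) .nil .nil)))) (.nd (nat_lit 5) 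
(.lf (nat_lit 147163) (.g (nat_lit 3463) (.e (nat_lit 57374) (nat_lit 2) (.e (nat_lit 90170) (nat_lit 13) (.e (nat_lit 172106) (nat_lit 10) (.e (nat_lit 434231) (nat_lit 23) (.e (nat_lit 532543) (nat_lit 10) (.e (nat_lit 344088) (nat_lit 18) (.e (nat_lit 4841) (nat_lit 283) .nil))))))) (.g (nat_lit 5) .nil .nil))) 
(.lf (nat_lit 147195) (.g (nat_lit 3325) (.e (nat_lit 57374) (nat_lit 2) (.e (nat_lit 90170) (nat_lit 13) (.e (nat_lit 172106) (nat_lit 10) (.e (nat_lit 434231) (nat_lit 23) (.e (nat_lit 532544) (nat_lit 10) (.e (nat_lit 344098) (nat_lit 18) (.e (nat_lit 7936) (nat_lit 283) .nil))))))) (.g (nat_lit 4) .nil .nil)))))) (.nd (nat_lit 3) (.nd (nat_lit 4) (.nd (nat_lit 5) 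
(.lf (nat_lit 147143) (.g (nat_lit 5054) (.e (nat_lit 57374) (nat_lit 2) (.e (nat_lit 90170) (nat_lit 13) (.e (nat_lit 172106) (nat_lit 10) (.e (nat_lit 434231) (nat_lit 23) (.e (nat_lit 532535) (nat_lit 9) (.e (nat_lit 335989) (nat_lit 1) (.e (nat_lit 65280) (nat_lit 241) .nil))))))) (.g (nat_lit 5) .nil .nil))) 
(.lf (nat_lit 147175) (.g (nat_lit 3190) (.e (nat_lit 57374) (nat_lit 2) (.e (nat_lit 90170) (nat_lit 13) (.e (nat_lit 172106) (nat_lit 10) (.e (nat_lit 434231) (nat_lit 23) (.e (nat_lit 532543) (nat_lit 10) (.e (nat_lit 344098) (nat_lit 18) (.e (nat_lit 7936) (nat_lit 283) .nil))))))) (.g (nat_lit 4) .nil .nil)))) (.nd (nat_lit 5) 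
(.lf (nat_lit 147159) (.g (nat_lit 4985) (.e (nat_lit 57374) (nat_lit 2) (.e (nat_lit 90170) (nat_lit 13) (.e (nat_lit 172106) (nat_lit 10) (.e (nat_lit 434231) (nat_lit 23) (.e (nat_lit 532535) (nat_lit 9) (.e (nat_lit 336338) (nat_lit 21) (.e (nat_lit 237312) (nat_lit 172) .nil))))))) (.g (nat_lit 5) .nil .nil))) 
(.lf (nat_lit 147191) (.g (nat_lit 4607) (.e (nat_lit 57374) (nat_lit 2) (.e (nat_lit 90170) (nat_lit 13) (.e (nat_lit 172106) (nat_lit 10) (.e (nat_lit 434231) (nat_lit 23) (.e (nat_lit 532544) (nat_lit 10) (.e (nat_lit 344094) (nat_lit 18) (.e (nat_lit 7936) (nat_lit 283) .nil))))))) (.g (nat_lit 6) .nil .nil))))) (.nd (nat_lit 4) (.nd (nat_lit 5) 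
(.lf (nat_lit 147151) (.g (nat_lit 3293) (.e (nat_lit 57374) (nat_lit 2) (.e (nat_lit 90170) (nat_lit 13) (.e (nat_lit 172106) (nat_lit 10) (.e (nat_lit 434231) (nat_lit 23) (.e (nat_lit 532535) (nat_lit 9) (.e (nat_lit 336250) (nat_lit 15) (.e (nat_lit 2491) (nat_lit 157) (.e (nat_lit 7936) (nat_lit 373) .nil)))))))) (.g (nat_lit 4) .nil .nil))) 
(.lf (nat_lit 147183) (.g (nat_lit 4276) (.e (nat_lit 57374) (nat_lit 2) (.e (nat_lit 90170) (nat_lit 13) (.e (nat_lit 172106) (nat_lit 10) (.e (nat_lit 434231) (nat_lit 23) (.e (nat_lit 532544) (nat_lit 10) (.e (nat_lit 344088) (nat_lit 18) (.e (nat_lit 4841) (nat_lit 283) .nil))))))) (.g (nat_lit 6) .nil .nil)))) (.nd (nat_lit 5) 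
(.lf (nat_lit 147167) (.g (nat_lit 4085) (.e (nat_lit 57374) (nat_lit 2) (.e (nat_lit 90170) (nat_lit 13) (.e (nat_lit 172106) (nat_lit 10) (.e (nat_lit 434231) (nat_lit 23) (.e (nat_lit 532543) (nat_lit 10) (.e (nat_lit 344089) (nat_lit 18) (.e (nat_lit 7936) (nat_lit 283) .nil))))))) (.g (nat_lit 6) .nil .nil))) 
(.lf (nat_lit 147199) (.g (nat_lit 3172) (.e (nat_lit 57374) (nat_lit 2) (.e (nat_lit 90170) (nat_lit 13) (.e (nat_lit 172106) (nat_lit 10) (.e (nat_lit 434231) (nat_lit 23) (.e (nat_lit 532544) (nat_lit 10) (.e (nat_lit 352000) (nat_lit 18) (.e (nat_lit 4840) (nat_lit 283) .nil))))))) (.g (nat_lit 4) .nil .nil)))))))))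

noncomputable def tv1958 : DT := (.nd (nat_lit 0) (.nd (nat_lit 1) (.nd (nat_lit 2) (.nd (nat_lit 3) (.nd (nat_lit 4) (.nd (nat_lit 5) (.nd (nat_lit 6) 
(.lf (nat_lit 147200) (.g (nat_lit 2686) (.e (nat_lit 57374) (nat_lit 2) (.e (nat_lit 90170) (nat_lit 13) (.e (nat_lit 172106) (nat_lit 10) (.e (nat_lit 434231) (nat_lit 23) (.e (nat_lit 532544) (nat_lit 10) (.e (nat_lit 352000) (nat_lit 18) (.e (nat_lit 4841) (nat_lit 283) .nil))))))) (.g (nat_lit 4) .nil .nil))) 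
(.lf (nat_lit 147264) (.g (nat_lit 1149) (.e (nat_lit 57374) (nat_lit 2) (.e (nat_lit 90172) (nat_lit 14) (.e (nat_lit 180244) (nat_lit 5) (.e (nat_lit 532515) (nat_lit 3) .nil)))) .nil))) (.nd (nat_lit 6) 
(.lf (nat_lit 147232) (.g (nat_lit 1382) (.e (nat_lit 57374) (nat_lit 2) (.e (nat_lit 90170) (nat_lit 13) (.e (nat_lit 172113) (nat_lit 10) (.e (nat_lit 442112) (nat_lit 45) .nil)))) .nil)) 
(.lf (nat_lit 147296) (.g (nat_lit 2457) (.e (nat_lit 57375) (nat_lit 2) (.e (nat_lit 90158) (nat_lit 11) (.e (nat_lit 24608) (nat_lit 3) (.e (nat_lit 98341) (nat_lit 20) (.e (nat_lit 221211) (nat_lit 22) (.e (nat_lit 196661) (nat_lit 12) (.e (nat_lit 57357) (nat_lit 0) (.e (nat_lit 5195) (nat_lit 294) .nil)))))))) (.g (nat_lit 4) .nil .nil))))) (.nd (nat_lit 5) (.nd (nat_lit 6) 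
(.lf (nat_lit 147216) (.g (nat_lit 2743) (.e (nat_lit 57374) (nat_lit 2) (.e (nat_lit 90170) (nat_lit 13) (.e (nat_lit 172106) (nat_lit 10) (.e (nat_lit 434231) (nat_lit 23) (.e (nat_lit 532564) (nat_lit 15) .nil))))) .nil)) 
(.lf (nat_lit 147280) (.g (nat_lit 2316) (.e (nat_lit 57375) (nat_lit 2) (.e (nat_lit 98048) (nat_lit 8) (.e (nat_lit 131116) (nat_lit 9) (.e (nat_lit 336012) (nat_lit 2) (.e (nat_lit 90172) (nat_lit 14) (.e (nat_lit 188160) (nat_lit 0) (.e (nat_lit 5194) (nat_lit 294) .nil))))))) (.g (nat_lit 5) .nil .nil)))) (.nd (nat_lit 6) 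
(.lf (nat_lit 147248) (.g (nat_lit 461) (.e (nat_lit 57374) (nat_lit 2) (.e (nat_lit 90170) (nat_lit 13) (.e (nat_lit 172123) (nat_lit 13) .nil))) .nil)) 
(.lf (nat_lit 147312) (.g (nat_lit 3324) (.e (nat_lit 57375) (nat_lit 2) (.e (nat_lit 90158) (nat_lit 11) (.e (nat_lit 24625) (nat_lit 9) (.e (nat_lit 336456) (nat_lit 34) (.e (nat_lit 483365) (nat_lit 18) (.e (nat_lit 57847) (nat_lit 252) .nil)))))) (.g (nat_lit 0) .nil .nil)))))) (.nd (nat_lit 4) (.nd (nat_lit 5) (.nd (nat_lit 6) 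
(.lf (nat_lit 147208) (.g (nat_lit 2914) (.e (nat_lit 57374) (nat_lit 2) (.e (nat_lit 90170) (nat_lit 13) (.e (nat_lit 172106) (nat_lit 10) (.e (nat_lit 434231) (nat_lit 23) (.e (nat_lit 532563) (nat_lit 15) (.e (nat_lit 385045) (nat_lit 21) (.e (nat_lit 7936) (nat_lit 373) .nil))))))) (.g (nat_lit 4) .nil .nil))) 
(.lf (nat_lit 147272) (.g (nat_lit 637) (.e (nat_lit 57374) (nat_lit 2) (.e (nat_lit 90176) (nat_lit 15) (.e (nat_lit 196352) (nat_lit 18) .nil))) .nil))) (.nd (nat_lit 6) 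
(.lf (nat_lit 147240) (.g (nat_lit 2897) (.e (nat_lit 57374) (nat_lit 2) (.e (nat_lit 90170) (nat_lit 13) (.e (nat_lit 172121) (nat_lit 13) (.e (nat_lit 483337) (nat_lit 9) (.e (nat_lit 426108) (nat_lit 1) (.e (nat_lit 164396) (nat_lit 256) .nil)))))) (.g (nat_lit 4) .nil .nil))) 
(.lf (nat_lit 147304) (.g (nat_lit 1353) (.e (nat_lit 57375) (nat_lit 2) (.e (nat_lit 90158) (nat_lit 11) (.e (nat_lit 24625) (nat_lit 9) (.e (nat_lit 336367) (nat_lit 27) .nil)))) .nil)))) (.nd (nat_lit 5) (.nd (nat_lit 6) 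
(.lf (nat_lit 147224) (.g (nat_lit 2035) (.e (nat_lit 57374) (nat_lit 2) (.e (nat_lit 90170) (nat_lit 13) (.e (nat_lit 172106) (nat_lit 10) (.e (nat_lit 434238) (nat_lit 25) .nil)))) .nil)) 
(.lf (nat_lit 147288) (.g (nat_lit 3101) (.e (nat_lit 57375) (nat_lit 2) (.e (nat_lit 90128) (nat_lit 9) (.e (nat_lit 334) (nat_lit 26) (.e (nat_lit 376869) (nat_lit 23) (.e (nat_lit 98365) (nat_lit 26) (.e (nat_lit 426009) (nat_lit 0) (.e (nat_lit 2398) (nat_lit 157) (.e (nat_lit 5570) (nat_lit 308) .nil)))))))) (.g (nat_lit 5) .nil .nil)))) (.nd (nat_lit 6) 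
(.lf (nat_lit 147256) (.g (nat_lit 1035) (.e (nat_lit 57374) (nat_lit 2) (.e (nat_lit 90170) (nat_lit 13) (.e (nat_lit 172123) (nat_lit 13) (.e (nat_lit 491264) (nat_lit 10) .nil)))) .nil)) 
(.lf (nat_lit 147320) (.g (nat_lit 1520) (.e (nat_lit 57375) (nat_lit 2) (.e (nat_lit 90158) (nat_lit 11) (.e (nat_lit 24628) (nat_lit 9) (.e (nat_lit 336377) (nat_lit 27) .nil)))) .nil)))))) (.nd (nat_lit 3) (.nd (nat_lit 4) (.nd (nat_lit 5) (.nd (nat_lit 6) 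
(.lf (nat_lit 147204) (.g (nat_lit 2819) (.e (nat_lit 57374) (nat_lit 2) (.e (nat_lit 90170) (nat_lit 13) (.e (nat_lit 172106) (nat_lit 10) (.e (nat_lit 434231) (nat_lit 23) (.e (nat_lit 532554) (nat_lit 13) .nil))))) .nil)) 
(.lf (nat_lit 147268) (.g (nat_lit 2888) (.e (nat_lit 57374) (nat_lit 2) (.e (nat_lit 90174) (nat_lit 14) (.e (nat_lit 180243) (nat_lit 5) (.e (nat_lit 532513) (nat_lit 3) (.e (nat_lit 114719) (nat_lit 23) (.e (nat_lit 98333) (nat_lit 18) (.e (nat_lit 164399) (nat_lit 256) .nil))))))) (.g (nat_lit 5) .nil .nil)))) (.nd (nat_lit 6) 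
(.lf (nat_lit 147236) (.g (nat_lit 2781) (.e (nat_lit 57374) (nat_lit 2) (.e (nat_lit 90170) (nat_lit 13) (.e (nat_lit 172121) (nat_lit 13) (.e (nat_lit 483337) (nat_lit 9) (.e (nat_lit 426099) (nat_lit 1) (.e (nat_lit 164399) (nat_lit 256) .nil)))))) (.g (nat_lit 4) .nil .nil))) 
(.lf (nat_lit 147300) (.g (nat_lit 1979) (.e (nat_lit 57375) (nat_lit 2) (.e (nat_lit 90158) (nat_lit 11) (.e (nat_lit 24608) (nat_lit 3) (.e (nat_lit 98342) (nat_lit 20) (.e (nat_lit 221212) (nat_lit 22) .nil))))) .nil)))) (.nd (nat_lit 5) (.nd (nat_lit 6) 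
(.lf (nat_lit 147220) (.g (nat_lit 4289) (.e (nat_lit 57374) (nat_lit 2) (.e (nat_lit 90170) (nat_lit 13) (.e (nat_lit 172106) (nat_lit 10) (.e (nat_lit 434231) (nat_lit 23) (.e (nat_lit 532564) (nat_lit 15) (.e (nat_lit 385049) (nat_lit 21) (.e (nat_lit 7936) (nat_lit 373) .nil))))))) (.g (nat_lit 6) .nil .nil))) 
(.lf (nat_lit 147284) (.g (nat_lit 1343) (.e (nat_lit 57375) (nat_lit 2) (.e (nat_lit 90128) (nat_lit 9) (.e (nat_lit 314) (nat_lit 23) (.e (nat_lit 352274) (nat_lit 11) (.e (nat_lit 426500) (nat_lit 27) .nil))))) .nil))) (.nd (nat_lit 6) 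
(.lf (nat_lit 147252) (.g (nat_lit 2628) (.e (nat_lit 57374) (nat_lit 2) (.e (nat_lit 90170) (nat_lit 13) (.e (nat_lit 172123) (nat_lit 13) (.e (nat_lit 483337) (nat_lit 9) (.e (nat_lit 426031) (nat_lit 0) (.e (nat_lit 2466) (nat_lit 157) (.e (nat_lit 5937) (nat_lit 322) .nil))))))) (.g (nat_lit 4) .nil .nil))) 
(.lf (nat_lit 147316) (.g (nat_lit 2639) (.e (nat_lit 57375) (nat_lit 2) (.e (nat_lit 90158) (nat_lit 11) (.e (nat_lit 24628) (nat_lit 9) (.e (nat_lit 336369) (nat_lit 27) (.e (nat_lit 426501) (nat_lit 27) .nil))))) .nil))))) (.nd (nat_lit 4) (.nd (nat_lit 5) (.nd (nat_lit 6) 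
(.lf (nat_lit 147212) (.g (nat_lit 3594) (.e (nat_lit 57374) (nat_lit 2) (.e (nat_lit 90170) (nat_lit 13) (.e (nat_lit 172106) (nat_lit 10) (.e (nat_lit 434231) (nat_lit 23) (.e (nat_lit 532563) (nat_lit 15) (.e (nat_lit 385051) (nat_lit 21) (.e (nat_lit 7936) (nat_lit 373) .nil))))))) (.g (nat_lit 4) .nil .nil))) 
(.lf (nat_lit 147276) (.g (nat_lit 917) (.e (nat_lit 57374) (nat_lit 2) (.e (nat_lit 90185) (nat_lit 17) (.e (nat_lit 237624) (nat_lit 13) .nil))) .nil))) (.nd (nat_lit 6) 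
(.lf (nat_lit 147244) (.g (nat_lit 2212) (.e (nat_lit 57374) (nat_lit 2) (.e (nat_lit 90170) (nat_lit 13) (.e (nat_lit 172121) (nat_lit 13) (.e (nat_lit 483341) (nat_lit 9) (.e (nat_lit 426099) (nat_lit 1) .nil))))) .nil)) 
(.lf (nat_lit 147308) (.g (nat_lit 1847) (.e (nat_lit 57375) (nat_lit 2) (.e (nat_lit 90158) (nat_lit 11) (.e (nat_lit 24625) (nat_lit 9) (.e (nat_lit 336452) (nat_lit 34) (.e (nat_lit 483363) (nat_lit 18) .nil))))) .nil)))) (.nd (nat_lit 5) (.nd (nat_lit 6) 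
(.lf (nat_lit 147228) (.g (nat_lit 1783) (.e (nat_lit 57374) (nat_lit 2) (.e (nat_lit 90170) (nat_lit 13) (.e (nat_lit 172106) (nat_lit 10) (.e (nat_lit 434295) (nat_lit 49) .nil)))) .nil)) 
(.lf (nat_lit 147292) (.g (nat_lit 1315) (.e (nat_lit 57375) (nat_lit 2) (.e (nat_lit 90130) (nat_lit 9) (.e (nat_lit 272) (nat_lit 21) (.e (nat_lit 336076) (nat_lit 9) (.e (nat_lit 336454) (nat_lit 34) .nil))))) .nil))) (.nd (nat_lit 6) 
(.lf (nat_lit 147260) (.g (nat_lit 2615) (.e (nat_lit 57374) (nat_lit 2) (.e (nat_lit 90172) (nat_lit 14) (.e (nat_lit 180244) (nat_lit 5) (.e (nat_lit 532513) (nat_lit 3) (.e (nat_lit 114718) (nat_lit 23) (.e (nat_lit 98333) (nat_lit 18) (.e (nat_lit 164399) (nat_lit 256) .nil))))))) (.g (nat_lit 4) .nil .nil))) 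
(.lf (nat_lit 147324) (.g (nat_lit 2087) (.e (nat_lit 57375) (nat_lit 2) (.e (nat_lit 90158) (nat_lit 11) (.e (nat_lit 24628) (nat_lit 9) (.e (nat_lit 336456) (nat_lit 34) (.e (nat_lit 483354) (nat_lit 17) .nil))))) .nil))))))) (.nd (nat_lit 2) (.nd (nat_lit 3) (.nd (nat_lit 4) (.nd (nat_lit 5) (.nd (nat_lit 6) 
(.lf (nat_lit 147202) (.g (nat_lit 3133) (.e (nat_lit 57374) (nat_lit 2) (.e (nat_lit 90170) (nat_lit 13) (.e (nat_lit 172106) (nat_lit 10) (.e (nat_lit 434231) (nat_lit 23) (.e (nat_lit 532553) (nat_lit 13) .nil))))) .nil)) 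
(.lf (nat_lit 147266) (.g (nat_lit 2199) (.e (nat_lit 57374) (nat_lit 2) (.e (nat_lit 90174) (nat_lit 14) (.e (nat_lit 180243) (nat_lit 5) (.e (nat_lit 532513) (nat_lit 3) (.e (nat_lit 114707) (nat_lit 20) .nil))))) .nil))) (.nd (nat_lit 6) 
(.lf (nat_lit 147234) (.g (nat_lit 1008) (.e (nat_lit 57374) (nat_lit 2) (.e (nat_lit 90170) (nat_lit 13) (.e (nat_lit 172121) (nat_lit 13) (.e (nat_lit 483337) (nat_lit 9) .nil)))) .nil)) 
(.lf (nat_lit 147298) (.g (nat_lit 1412) (.e (nat_lit 57375) (nat_lit 2) (.e (nat_lit 90158) (nat_lit 11) (.e (nat_lit 24608) (nat_lit 3) (.e (nat_lit 98342) (nat_lit 20) .nil)))) .nil)))) (.nd (nat_lit 5) (.nd (nat_lit 6) 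
(.lf (nat_lit 147218) (.g (nat_lit 3946) (.e (nat_lit 57374) (nat_lit 2) (.e (nat_lit 90170) (nat_lit 13) (.e (nat_lit 172106) (nat_lit 10) (.e (nat_lit 434231) (nat_lit 23) (.e (nat_lit 532564) (nat_lit 15) (.e (nat_lit 385044) (nat_lit 21) (.e (nat_lit 7936) (nat_lit 373) .nil))))))) (.g (nat_lit 5) .nil .nil))) 
(.lf (nat_lit 147282) (.g (nat_lit 352) (.e (nat_lit 57375) (nat_lit 2) (.e (nat_lit 90128) (nat_lit 9) (.e (nat_lit 297) (nat_lit 22) .nil))) .nil))) (.nd (nat_lit 6) 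
(.lf (nat_lit 147250) (.g (nat_lit 1649) (.e (nat_lit 57374) (nat_lit 2) (.e (nat_lit 90170) (nat_lit 13) (.e (nat_lit 172123) (nat_lit 13) (.e (nat_lit 483337) (nat_lit 9) (.e (nat_lit 426009) (nat_lit 0) .nil))))) .nil)) 
(.lf (nat_lit 147314) (.g (nat_lit 1527) (.e (nat_lit 57375) (nat_lit 2) (.e (nat_lit 90158) (nat_lit 11) (.e (nat_lit 24628) (nat_lit 9) (.e (nat_lit 336366) (nat_lit 27) .nil)))) .nil))))) (.nd (nat_lit 4) (.nd (nat_lit 5) (.nd (nat_lit 6) 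
(.lf (nat_lit 147210) (.g (nat_lit 4316) (.e (nat_lit 57374) (nat_lit 2) (.e (nat_lit 90170) (nat_lit 13) (.e (nat_lit 172106) (nat_lit 10) (.e (nat_lit 434231) (nat_lit 23) (.e (nat_lit 532563) (nat_lit 15) (.e (nat_lit 385047) (nat_lit 21) (.e (nat_lit 7936) (nat_lit 373) .nil))))))) (.g (nat_lit 5) .nil .nil))) 
(.lf (nat_lit 147274) (.g (nat_lit 919) (.e (nat_lit 57374) (nat_lit 2) (.e (nat_lit 90185) (nat_lit 17) (.e (nat_lit 237605) (nat_lit 9) .nil))) .nil))) (.nd (nat_lit 6) 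
(.lf (nat_lit 147242) (.g (nat_lit 1106) (.e (nat_lit 57374) (nat_lit 2) (.e (nat_lit 90170) (nat_lit 13) (.e (nat_lit 172121) (nat_lit 13) (.e (nat_lit 483341) (nat_lit 9) .nil)))) .nil)) 
(.lf (nat_lit 147306) (.g (nat_lit 3355) (.e (nat_lit 57375) (nat_lit 2) (.e (nat_lit 90158) (nat_lit 11) (.e (nat_lit 24625) (nat_lit 9) (.e (nat_lit 336367) (nat_lit 27) (.e (nat_lit 426537) (nat_lit 28) (.e (nat_lit 344097) (nat_lit 18) (.e (nat_lit 5195) (nat_lit 294) .nil))))))) (.g (nat_lit 7) .nil .nil))))) (.nd (nat_lit 5) (.nd (nat_lit 6) 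
(.lf (nat_lit 147226) (.g (nat_lit 2548) (.e (nat_lit 57374) (nat_lit 2) (.e (nat_lit 90170) (nat_lit 13) (.e (nat_lit 172106) (nat_lit 10) (.e (nat_lit 434244) (nat_lit 28) (.e (nat_lit 573450) (nat_lit 9) (.e (nat_lit 452) (nat_lit 33) (.e (nat_lit 434201) (nat_lit 18) (.e (nat_lit 4412) (nat_lit 259) .nil)))))))) (.g (nat_lit 4) .nil .nil))) 
(.lf (nat_lit 147290) (.g (nat_lit 1761) (.e (nat_lit 57375) (nat_lit 2) (.e (nat_lit 90129) (nat_lit 9) (.e (nat_lit 249) (nat_lit 21) (.e (nat_lit 336215) (nat_lit 13) (.e (nat_lit 393227) (nat_lit 9) (.e (nat_lit 335958) (nat_lit 0) (.e (nat_lit 1037) (nat_lit 81) (.e (nat_lit 5195) (nat_lit 294) .nil)))))))) (.g (nat_lit 4) .nil .nil)))) (.nd (nat_lit 6) 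
(.lf (nat_lit 147258) (.g (nat_lit 1443) (.e (nat_lit 57374) (nat_lit 2) (.e (nat_lit 90172) (nat_lit 14) (.e (nat_lit 180244) (nat_lit 5) (.e (nat_lit 532508) (nat_lit 2) .nil)))) .nil)) 
(.lf (nat_lit 147322) (.g (nat_lit 2293) (.e (nat_lit 57375) (nat_lit 2) (.e (nat_lit 90158) (nat_lit 11) (.e (nat_lit 24628) (nat_lit 9) (.e (nat_lit 336393) (nat_lit 27) (.e (nat_lit 426523) (nat_lit 27) .nil))))) .nil)))))) (.nd (nat_lit 3) (.nd (nat_lit 4) (.nd (nat_lit 5) (.nd (nat_lit 6) 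
(.lf (nat_lit 147206) (.g (nat_lit 2805) (.e (nat_lit 57374) (nat_lit 2) (.e (nat_lit 90170) (nat_lit 13) (.e (nat_lit 172106) (nat_lit 10) (.e (nat_lit 434231) (nat_lit 23) (.e (nat_lit 532563) (nat_lit 15) .nil))))) .nil)) 
(.lf (nat_lit 147270) (.g (nat_lit 2346) (.e (nat_lit 57374) (nat_lit 2) (.e (nat_lit 90174) (nat_lit 14) (.e (nat_lit 180243) (nat_lit 5) (.e (nat_lit 532515) (nat_lit 3) (.e (nat_lit 114718) (nat_lit 23) (.e (nat_lit 98333) (nat_lit 18) (.e (nat_lit 164399) (nat_lit 256) .nil))))))) (.g (nat_lit 4) .nil .nil)))) (.nd (nat_lit 6) 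
(.lf (nat_lit 147238) (.g (nat_lit 3055) (.e (nat_lit 57374) (nat_lit 2) (.e (nat_lit 90170) (nat_lit 13) (.e (nat_lit 172121) (nat_lit 13) (.e (nat_lit 483337) (nat_lit 9) (.e (nat_lit 426100) (nat_lit 1) (.e (nat_lit 164399) (nat_lit 256) .nil)))))) (.g (nat_lit 5) .nil .nil))) 
(.lf (nat_lit 147302) (.g (nat_lit 3130) (.e (nat_lit 57375) (nat_lit 2) (.e (nat_lit 90158) (nat_lit 11) (.e (nat_lit 24608) (nat_lit 3) (.e (nat_lit 98342) (nat_lit 20) (.e (nat_lit 221215) (nat_lit 23) (.e (nat_lit 204821) (nat_lit 17) (.e (nat_lit 1040) (nat_lit 81) (.e (nat_lit 5195) (nat_lit 294) .nil)))))))) (.g (nat_lit 5) .nil .nil))))) (.nd (nat_lit 5) (.nd (nat_lit 6) 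
(.lf (nat_lit 147222) (.g (nat_lit 2686) (.e (nat_lit 57374) (nat_lit 2) (.e (nat_lit 90170) (nat_lit 13) (.e (nat_lit 172106) (nat_lit 10) (.e (nat_lit 434231) (nat_lit 23) (.e (nat_lit 532568) (nat_lit 16) .nil))))) .nil)) 
(.lf (nat_lit 147286) (.g (nat_lit 2938) (.e (nat_lit 57375) (nat_lit 2) (.e (nat_lit 90128) (nat_lit 9) (.e (nat_lit 334) (nat_lit 26) (.e (nat_lit 376867) (nat_lit 23) (.e (nat_lit 98365) (nat_lit 26) (.e (nat_lit 426009) (nat_lit 0) (.e (nat_lit 2398) (nat_lit 157) (.e (nat_lit 5570) (nat_lit 308) .nil)))))))) (.g (nat_lit 5) .nil .nil)))) (.nd (nat_lit 6) 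
(.lf (nat_lit 147254) (.g (nat_lit 2415) (.e (nat_lit 57374) (nat_lit 2) (.e (nat_lit 90170) (nat_lit 13) (.e (nat_lit 172123) (nat_lit 13) (.e (nat_lit 483337) (nat_lit 9) (.e (nat_lit 426100) (nat_lit 1) (.e (nat_lit 164400) (nat_lit 256) .nil)))))) (.g (nat_lit 4) .nil .nil))) 
(.lf (nat_lit 147318) (.g (nat_lit 1412) (.e (nat_lit 57375) (nat_lit 2) (.e (nat_lit 90158) (nat_lit 11) (.e (nat_lit 24628) (nat_lit 9) (.e (nat_lit 336374) (nat_lit 27) (.e (nat_lit 426536) (nat_lit 28) .nil))))) .nil))))) (.nd (nat_lit 4) (.nd (nat_lit 5) (.nd (nat_lit 6) 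
(.lf (nat_lit 147214) (.g (nat_lit 3860) (.e (nat_lit 57374) (nat_lit 2) (.e (nat_lit 90170) (nat_lit 13) (.e (nat_lit 172106) (nat_lit 10) (.e (nat_lit 434231) (nat_lit 23) (.e (nat_lit 532563) (nat_lit 15) (.e (nat_lit 385053) (nat_lit 21) (.e (nat_lit 7936) (nat_lit 373) .nil))))))) (.g (nat_lit 4) .nil .nil))) 
(.lf (nat_lit 147278) (.g (nat_lit 2056) (.e (nat_lit 57375) (nat_lit 2) (.e (nat_lit 98048) (nat_lit 8) (.e (nat_lit 131116) (nat_lit 9) (.e (nat_lit 336004) (nat_lit 2) (.e (nat_lit 90172) (nat_lit 14) (.e (nat_lit 188160) (nat_lit 0) (.e (nat_lit 5194) (nat_lit 294) .nil))))))) (.g (nat_lit 5) .nil .nil)))) (.nd (nat_lit 6) 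
(.lf (nat_lit 147246) (.g (nat_lit 1023) (.e (nat_lit 57374) (nat_lit 2) (.e (nat_lit 90170) (nat_lit 13) (.e (nat_lit 172122) (nat_lit 13) .nil))) .nil)) 
(.lf (nat_lit 147310) (.g (nat_lit 1568) (.e (nat_lit 57375) (nat_lit 2) (.e (nat_lit 90158) (nat_lit 11) (.e (nat_lit 24625) (nat_lit 9) (.e (nat_lit 336455) (nat_lit 34) .nil)))) .nil)))) (.nd (nat_lit 5) (.nd (nat_lit 6) 
(.lf (nat_lit 147230) (.g (nat_lit 1471) (.e (nat_lit 57374) (nat_lit 2) (.e (nat_lit 90170) (nat_lit 13) (.e (nat_lit 172113) (nat_lit 10) (.e (nat_lit 434203) (nat_lit 18) .nil)))) .nil)) 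
(.lf (nat_lit 147294) (.g (nat_lit 1865) (.e (nat_lit 57375) (nat_lit 2) (.e (nat_lit 90158) (nat_lit 11) (.e (nat_lit 24608) (nat_lit 3) (.e (nat_lit 98338) (nat_lit 19) .nil)))) .nil))) (.nd (nat_lit 6) 
(.lf (nat_lit 147262) (.g (nat_lit 2474) (.e (nat_lit 57374) (nat_lit 2) (.e (nat_lit 90172) (nat_lit 14) (.e (nat_lit 180244) (nat_lit 5) (.e (nat_lit 532513) (nat_lit 3) (.e (nat_lit 114719) (nat_lit 23) (.e (nat_lit 98333) (nat_lit 18) (.e (nat_lit 164399) (nat_lit 256) .nil))))))) (.g (nat_lit 4) .nil .nil))) 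
(.lf (nat_lit 147326) (.g (nat_lit 1880) (.e (nat_lit 57375) (nat_lit 2) (.e (nat_lit 90158) (nat_lit 11) (.e (nat_lit 24630) (nat_lit 9) (.e (nat_lit 336367) (nat_lit 27) (.e (nat_lit 426537) (nat_lit 28) (.e (nat_lit 344097) (nat_lit 18) (.e (nat_lit 5195) (nat_lit 294) .nil))))))) (.g (nat_lit 4) .nil .nil))))))))) 
(.nd (nat_lit 1) (.nd (nat_lit 2) (.nd (nat_lit 3) (.nd (nat_lit 4) (.nd (nat_lit 5) 
(.nd (nat_lit 6) 
(.lf (nat_lit 147201) (.g (nat_lit 2759) (.e (nat_lit 57374) (nat_lit 2) (.e (nat_lit 90170) (nat_lit 13) (.e (nat_lit 172106) (nat_lit 10) (.e (nat_lit 434231) (nat_lit 23) (.e (nat_lit 532544) (nat_lit 10) (.e (nat_lit 352000) (nat_lit 18) (.e (nat_lit 4842) (nat_lit 283) .nil))))))) (.g (nat_lit 4) .nil .nil))) 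
(.lf (nat_lit 147265) (.g (nat_lit 1363) (.e (nat_lit 57374) (nat_lit 2) (.e (nat_lit 90174) (nat_lit 14) (.e (nat_lit 180243) (nat_lit 5) (.e (nat_lit 532508) (nat_lit 2) .nil)))) .nil))) (.nd (nat_lit 6) 
(.lf (nat_lit 147233) (.g (nat_lit 552) (.e (nat_lit 57374) (nat_lit 2) (.e (nat_lit 90170) (nat_lit 13) (.e (nat_lit 172121) (nat_lit 13) .nil))) .nil)) 
(.lf (nat_lit 147297) (.g (nat_lit 2219) (.e (nat_lit 57375) (nat_lit 2) (.e (nat_lit 90158) (nat_lit 11) (.e (nat_lit 24608) (nat_lit 3) (.e (nat_lit 98341) (nat_lit 20) (.e (nat_lit 221212) (nat_lit 22) .nil))))) .nil)))) (.nd (nat_lit 5) (.nd (nat_lit 6) 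
(.lf (nat_lit 147217) (.g (nat_lit 3123) (.e (nat_lit 57374) (nat_lit 2) (.e (nat_lit 90170) (nat_lit 13) (.e (nat_lit 172106) (nat_lit 10) (.e (nat_lit 434231) (nat_lit 23) (.e (nat_lit 532564) (nat_lit 15) (.e (nat_lit 385043) (nat_lit 21) (.e (nat_lit 6931) (nat_lit 373) .nil))))))) (.g (nat_lit 4) .nil .nil))) 
(.lf (nat_lit 147281) (.g (nat_lit 2536) (.e (nat_lit 57375) (nat_lit 2) (.e (nat_lit 98048) (nat_lit 8) (.e (nat_lit 131116) (nat_lit 9) (.e (nat_lit 336012) (nat_lit 2) (.e (nat_lit 90172) (nat_lit 14) (.e (nat_lit 188160) (nat_lit 0) (.e (nat_lit 5195) (nat_lit 294) .nil))))))) (.g (nat_lit 5) .nil .nil)))) (.nd (nat_lit 6) 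
(.lf (nat_lit 147249) (.g (nat_lit 828) (.e (nat_lit 57374) (nat_lit 2) (.e (nat_lit 90170) (nat_lit 13) (.e (nat_lit 172123) (nat_lit 13) (.e (nat_lit 483337) (nat_lit 9) .nil)))) .nil)) 
(.lf (nat_lit 147313) (.g (nat_lit 3774) (.e (nat_lit 57375) (nat_lit 2) (.e (nat_lit 90158) (nat_lit 11) (.e (nat_lit 24625) (nat_lit 9) (.e (nat_lit 336456) (nat_lit 34) (.e (nat_lit 483365) (nat_lit 18) (.e (nat_lit 57849) (nat_lit 252) .nil)))))) (.g (nat_lit 0) .nil .nil)))))) (.nd (nat_lit 4) (.nd (nat_lit 5) (.nd (nat_lit 6) 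
(.lf (nat_lit 147209) (.g (nat_lit 3708) (.e (nat_lit 57374) (nat_lit 2) (.e (nat_lit 90170) (nat_lit 13) (.e (nat_lit 172106) (nat_lit 10) (.e (nat_lit 434231) (nat_lit 23) (.e (nat_lit 532563) (nat_lit 15) (.e (nat_lit 385046) (nat_lit 21) (.e (nat_lit 7936) (nat_lit 373) .nil))))))) (.g (nat_lit 4) .nil .nil))) 
(.lf (nat_lit 147273) (.g (nat_lit 560) (.e (nat_lit 57374) (nat_lit 2) (.e (nat_lit 90178) (nat_lit 15) (.e (nat_lit 196352) (nat_lit 18) .nil))) .nil))) (.nd (nat_lit 6) 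
(.lf (nat_lit 147241) (.g (nat_lit 1208) (.e (nat_lit 57374) (nat_lit 2) (.e (nat_lit 90170) (nat_lit 13) (.e (nat_lit 172121) (nat_lit 13) (.e (nat_lit 483339) (nat_lit 9) .nil)))) .nil)) 
(.lf (nat_lit 147305) (.g (nat_lit 1818) (.e (nat_lit 57375) (nat_lit 2) (.e (nat_lit 90158) (nat_lit 11) (.e (nat_lit 24625) (nat_lit 9) (.e (nat_lit 336367) (nat_lit 27) (.e (nat_lit 426480) (nat_lit 27) .nil))))) .nil)))) (.nd (nat_lit 5) (.nd (nat_lit 6) 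
(.lf (nat_lit 147225) (.g (nat_lit 1239) (.e (nat_lit 57374) (nat_lit 2) (.e (nat_lit 90170) (nat_lit 13) (.e (nat_lit 172106) (nat_lit 10) (.e (nat_lit 434244) (nat_lit 28) .nil)))) .nil)) 
(.lf (nat_lit 147289) (.g (nat_lit 2648) (.e (nat_lit 57375) (nat_lit 2) (.e (nat_lit 90128) (nat_lit 9) (.e (nat_lit 334) (nat_lit 26) (.e (nat_lit 376869) (nat_lit 23) (.e (nat_lit 98365) (nat_lit 26) (.e (nat_lit 426009) (nat_lit 0) (.e (nat_lit 2411) (nat_lit 157) (.e (nat_lit 5570) (nat_lit 308) .nil)))))))) (.g (nat_lit 5) .nil .nil)))) (.nd (nat_lit 6) 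
(.lf (nat_lit 147257) (.g (nat_lit 773) (.e (nat_lit 57374) (nat_lit 2) (.e (nat_lit 90172) (nat_lit 14) (.e (nat_lit 180243) (nat_lit 5) .nil))) .nil)) 
(.lf (nat_lit 147321) (.g (nat_lit 1997) (.e (nat_lit 57375) (nat_lit 2) (.e (nat_lit 90158) (nat_lit 11) (.e (nat_lit 24628) (nat_lit 9) (.e (nat_lit 336379) (nat_lit 27) (.e (nat_lit 426524) (nat_lit 27) .nil))))) .nil)))))) (.nd (nat_lit 3) (.nd (nat_lit 4) (.nd (nat_lit 5) (.nd (nat_lit 6) 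
(.lf (nat_lit 147205) (.g (nat_lit 3919) (.e (nat_lit 57374) (nat_lit 2) (.e (nat_lit 90170) (nat_lit 13) (.e (nat_lit 172106) (nat_lit 10) (.e (nat_lit 434231) (nat_lit 23) (.e (nat_lit 532554) (nat_lit 13) (.e (nat_lit 368662) (nat_lit 18) (.e (nat_lit 7936) (nat_lit 283) .nil))))))) (.g (nat_lit 5) .nil .nil))) 
(.lf (nat_lit 147269) (.g (nat_lit 1235) (.e (nat_lit 57374) (nat_lit 2) (.e (nat_lit 90174) (nat_lit 14) (.e (nat_lit 180243) (nat_lit 5) (.e (nat_lit 532515) (nat_lit 3) .nil)))) .nil))) (.nd (nat_lit 6) 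
(.lf (nat_lit 147237) (.g (nat_lit 2964) (.e (nat_lit 57374) (nat_lit 2) (.e (nat_lit 90170) (nat_lit 13) (.e (nat_lit 172121) (nat_lit 13) (.e (nat_lit 483337) (nat_lit 9) (.e (nat_lit 426100) (nat_lit 1) (.e (nat_lit 164397) (nat_lit 256) .nil)))))) (.g (nat_lit 5) .nil .nil))) 
(.lf (nat_lit 147301) (.g (nat_lit 2820) (.e (nat_lit 57375) (nat_lit 2) (.e (nat_lit 90158) (nat_lit 11) (.e (nat_lit 24608) (nat_lit 3) (.e (nat_lit 98342) (nat_lit 20) (.e (nat_lit 221212) (nat_lit 22) (.e (nat_lit 196660) (nat_lit 12) (.e (nat_lit 57354) (nat_lit 0) (.e (nat_lit 5194) (nat_lit 294) .nil)))))))) (.g (nat_lit 4) .nil .nil))))) (.nd (nat_lit 5) (.nd (nat_lit 6) 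
(.lf (nat_lit 147221) (.g (nat_lit 3970) (.e (nat_lit 57374) (nat_lit 2) (.e (nat_lit 90170) (nat_lit 13) (.e (nat_lit 172106) (nat_lit 10) (.e (nat_lit 434231) (nat_lit 23) (.e (nat_lit 532564) (nat_lit 15) (.e (nat_lit 385053) (nat_lit 21) (.e (nat_lit 7936) (nat_lit 373) .nil))))))) (.g (nat_lit 5) .nil .nil))) 
(.lf (nat_lit 147285) (.g (nat_lit 981) (.e (nat_lit 57375) (nat_lit 2) (.e (nat_lit 90128) (nat_lit 9) (.e (nat_lit 334) (nat_lit 26) (.e (nat_lit 376838) (nat_lit 11) .nil)))) .nil))) (.nd (nat_lit 6) 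
(.lf (nat_lit 147253) (.g (nat_lit 2326) (.e (nat_lit 57374) (nat_lit 2) (.e (nat_lit 90170) (nat_lit 13) (.e (nat_lit 172123) (nat_lit 13) (.e (nat_lit 483337) (nat_lit 9) (.e (nat_lit 426031) (nat_lit 0) (.e (nat_lit 2466) (nat_lit 157) (.e (nat_lit 5938) (nat_lit 322) .nil))))))) (.g (nat_lit 4) .nil .nil))) 
(.lf (nat_lit 147317) (.g (nat_lit 1599) (.e (nat_lit 57375) (nat_lit 2) (.e (nat_lit 90158) (nat_lit 11) (.e (nat_lit 24628) (nat_lit 9) (.e (nat_lit 336372) (nat_lit 27) .nil)))) .nil))))) (.nd (nat_lit 4) (.nd (nat_lit 5) (.nd (nat_lit 6) 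
(.lf (nat_lit 147213) (.g (nat_lit 2814) (.e (nat_lit 57374) (nat_lit 2) (.e (nat_lit 90170) (nat_lit 13) (.e (nat_lit 172106) (nat_lit 10) (.e (nat_lit 434231) (nat_lit 23) (.e (nat_lit 532563) (nat_lit 15) (.e (nat_lit 385052) (nat_lit 21) (.e (nat_lit 7936) (nat_lit 373) .nil))))))) (.g (nat_lit 4) .nil .nil))) 
(.lf (nat_lit 147277) (.g (nat_lit 1758) (.e (nat_lit 57375) (nat_lit 2) (.e (nat_lit 98048) (nat_lit 0) (.e (nat_lit 1615) (nat_lit 113) (.e (nat_lit 376865) (nat_lit 22) (.e (nat_lit 90172) (nat_lit 14) (.e (nat_lit 188160) (nat_lit 0) (.e (nat_lit 5195) (nat_lit 294) .nil))))))) (.g (nat_lit 4) .nil .nil)))) (.nd (nat_lit 6) 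
(.lf (nat_lit 147245) (.g (nat_lit 2945) (.e (nat_lit 57374) (nat_lit 2) (.e (nat_lit 90170) (nat_lit 13) (.e (nat_lit 172121) (nat_lit 13) (.e (nat_lit 483341) (nat_lit 9) (.e (nat_lit 426100) (nat_lit 1) (.e (nat_lit 164399) (nat_lit 256) .nil)))))) (.g (nat_lit 4) .nil .nil))) 
(.lf (nat_lit 147309) (.g (nat_lit 1841) (.e (nat_lit 57375) (nat_lit 2) (.e (nat_lit 90158) (nat_lit 11) (.e (nat_lit 24625) (nat_lit 9) (.e (nat_lit 336454) (nat_lit 34) (.e (nat_lit 483362) (nat_lit 18) .nil))))) .nil)))) (.nd (nat_lit 5) (.nd (nat_lit 6) 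
(.lf (nat_lit 147229) (.g (nat_lit 2187) (.e (nat_lit 57374) (nat_lit 2) (.e (nat_lit 90170) (nat_lit 13) (.e (nat_lit 172106) (nat_lit 10) (.e (nat_lit 434295) (nat_lit 49) (.e (nat_lit 745492) (nat_lit 5) .nil))))) .nil)) 
(.lf (nat_lit 147293) (.g (nat_lit 2202) (.e (nat_lit 57375) (nat_lit 2) (.e (nat_lit 90158) (nat_lit 11) (.e (nat_lit 24608) (nat_lit 3) (.e (nat_lit 98321) (nat_lit 17) .nil)))) .nil))) (.nd (nat_lit 6) 
(.lf (nat_lit 147261) (.g (nat_lit 2524) (.e (nat_lit 57374) (nat_lit 2) (.e (nat_lit 90172) (nat_lit 14) (.e (nat_lit 180244) (nat_lit 5) (.e (nat_lit 532513) (nat_lit 3) (.e (nat_lit 114718) (nat_lit 23) (.e (nat_lit 98334) (nat_lit 18) (.e (nat_lit 164399) (nat_lit 256) .nil))))))) (.g (nat_lit 4) .nil .nil))) 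
(.lf (nat_lit 147325) (.g (nat_lit 1579) (.e (nat_lit 57375) (nat_lit 2) (.e (nat_lit 90158) (nat_lit 11) (.e (nat_lit 24630) (nat_lit 9) (.e (nat_lit 336367) (nat_lit 27) (.e (nat_lit 426509) (nat_lit 27) .nil))))) .nil))))))) (.nd (nat_lit 2) (.nd (nat_lit 3) (.nd (nat_lit 4) (.nd (nat_lit 5) (.nd (nat_lit 6) 
(.lf (nat_lit 147203) (.g (nat_lit 3374) (.e (nat_lit 57374) (nat_lit 2) (.e (nat_lit 90170) (nat_lit 13) (.e (nat_lit 172106) (nat_lit 10) (.e (nat_lit 434231) (nat_lit 23) (.e (nat_lit 532553) (nat_lit 13) (.e (nat_lit 368662) (nat_lit 18) (.e (nat_lit 7936) (nat_lit 283) .nil))))))) (.g (nat_lit 4) .nil .nil))) 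
(.lf (nat_lit 147267) (.g (nat_lit 3131) (.e (nat_lit 57374) (nat_lit 2) (.e (nat_lit 90174) (nat_lit 14) (.e (nat_lit 180243) (nat_lit 5) (.e (nat_lit 532513) (nat_lit 3) (.e (nat_lit 114718) (nat_lit 23) (.e (nat_lit 98333) (nat_lit 18) (.e (nat_lit 164399) (nat_lit 256) .nil))))))) (.g (nat_lit 5) .nil .nil)))) (.nd (nat_lit 6) 
(.lf (nat_lit 147235) (.g (nat_lit 2963) (.e (nat_lit 57374) (nat_lit 2) (.e (nat_lit 90170) (nat_lit 13) (.e (nat_lit 172121) (nat_lit 13) (.e (nat_lit 483337) (nat_lit 9) (.e (nat_lit 426098) (nat_lit 1) (.e (nat_lit 164399) (nat_lit 256) .nil)))))) (.g (nat_lit 5) .nil .nil))) 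
(.lf (nat_lit 147299) (.g (nat_lit 3196) (.e (nat_lit 57375) (nat_lit 2) (.e (nat_lit 90158) (nat_lit 11) (.e (nat_lit 24608) (nat_lit 3) (.e (nat_lit 98342) (nat_lit 20) (.e (nat_lit 221210) (nat_lit 22) (.e (nat_lit 196660) (nat_lit 12) (.e (nat_lit 57354) (nat_lit 0) (.e (nat_lit 5195) (nat_lit 294) .nil)))))))) (.g (nat_lit 5) .nil .nil))))) (.nd (nat_lit 5) (.nd (nat_lit 6) 
(.lf (nat_lit 147219) (.g (nat_lit 3624) (.e (nat_lit 57374) (nat_lit 2) (.e (nat_lit 90170) (nat_lit 13) (.e (nat_lit 172106) (nat_lit 10) (.e (nat_lit 434231) (nat_lit 23) (.e (nat_lit 532564) (nat_lit 15) (.e (nat_lit 385046) (nat_lit 21) (.e (nat_lit 7936) (nat_lit 373) .nil))))))) (.g (nat_lit 4) .nil .nil))) 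
(.lf (nat_lit 147283) (.g (nat_lit 1508) (.e (nat_lit 57375) (nat_lit 2) (.e (nat_lit 90128) (nat_lit 9) (.e (nat_lit 314) (nat_lit 23) (.e (nat_lit 352273) (nat_lit 11) (.e (nat_lit 426500) (nat_lit 27) .nil))))) .nil))) (.nd (nat_lit 6) 
(.lf (nat_lit 147251) (.g (nat_lit 2304) (.e (nat_lit 57374) (nat_lit 2) (.e (nat_lit 90170) (nat_lit 13) (.e (nat_lit 172123) (nat_lit 13) (.e (nat_lit 483337) (nat_lit 9) (.e (nat_lit 426009) (nat_lit 0) (.e (nat_lit 2430) (nat_lit 157) (.e (nat_lit 5940) (nat_lit 322) .nil))))))) (.g (nat_lit 4) .nil .nil))) 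
(.lf (nat_lit 147315) (.g (nat_lit 1315) (.e (nat_lit 57375) (nat_lit 2) (.e (nat_lit 90158) (nat_lit 11) (.e (nat_lit 24628) (nat_lit 9) (.e (nat_lit 336367) (nat_lit 27) .nil)))) .nil))))) (.nd (nat_lit 4) (.nd (nat_lit 5) (.nd (nat_lit 6) 
(.lf (nat_lit 147211) (.g (nat_lit 3829) (.e (nat_lit 57374) (nat_lit 2) (.e (nat_lit 90170) (nat_lit 13) (.e (nat_lit 172106) (nat_lit 10) (.e (nat_lit 434231) (nat_lit 23) (.e (nat_lit 532563) (nat_lit 15) (.e (nat_lit 385049) (nat_lit 21) (.e (nat_lit 7936) (nat_lit 373) .nil))))))) (.g (nat_lit 4) .nil .nil))) 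
(.lf (nat_lit 147275) (.g (nat_lit 874) (.e (nat_lit 57374) (nat_lit 2) (.e (nat_lit 90185) (nat_lit 17) (.e (nat_lit 237621) (nat_lit 13) .nil))) .nil))) (.nd (nat_lit 6) 
(.lf (nat_lit 147243) (.g (nat_lit 2785) (.e (nat_lit 57374) (nat_lit 2) (.e (nat_lit 90170) (nat_lit 13) (.e (nat_lit 172121) (nat_lit 13) (.e (nat_lit 483341) (nat_lit 9) (.e (nat_lit 426098) (nat_lit 1) (.e (nat_lit 164399) (nat_lit 256) .nil)))))) (.g (nat_lit 4) .nil .nil))) 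
(.lf (nat_lit 147307) (.g (nat_lit 1586) (.e (nat_lit 57375) (nat_lit 2) (.e (nat_lit 90158) (nat_lit 11) (.e (nat_lit 24625) (nat_lit 9) (.e (nat_lit 336370) (nat_lit 27) .nil)))) .nil)))) (.nd (nat_lit 5) (.nd (nat_lit 6) 
(.lf (nat_lit 147227) (.g (nat_lit 2163) (.e (nat_lit 57374) (nat_lit 2) (.e (nat_lit 90170) (nat_lit 13) (.e (nat_lit 172106) (nat_lit 10) (.e (nat_lit 442112) (nat_lit 45) .nil)))) .nil)) 
(.lf (nat_lit 147291) (.g (nat_lit 3125) (.e (nat_lit 57375) (nat_lit 2) (.e (nat_lit 90130) (nat_lit 9) (.e (nat_lit 249) (nat_lit 21) (.e (nat_lit 336215) (nat_lit 13) (.e (nat_lit 393229) (nat_lit 9) (.e (nat_lit 335995) (nat_lit 1) (.e (nat_lit 57847) (nat_lit 252) .nil))))))) (.g (nat_lit 5) .nil .nil)))) (.nd (nat_lit 6) 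
(.lf (nat_lit 147259) (.g (nat_lit 2088) (.e (nat_lit 57374) (nat_lit 2) (.e (nat_lit 90172) (nat_lit 14) (.e (nat_lit 180244) (nat_lit 5) (.e (nat_lit 532513) (nat_lit 3) (.e (nat_lit 114708) (nat_lit 20) .nil))))) .nil)) 
(.lf (nat_lit 147323) (.g (nat_lit 1754) (.e (nat_lit 57375) (nat_lit 2) (.e (nat_lit 90158) (nat_lit 11) (.e (nat_lit 24628) (nat_lit 9) (.e (nat_lit 336454) (nat_lit 34) (.e (nat_lit 483362) (nat_lit 18) .nil))))) .nil)))))) (.nd (nat_lit 3) (.nd (nat_lit 4) (.nd (nat_lit 5) (.nd (nat_lit 6) 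
(.lf (nat_lit 147207) (.g (nat_lit 3798) (.e (nat_lit 57374) (nat_lit 2) (.e (nat_lit 90170) (nat_lit 13) (.e (nat_lit 172106) (nat_lit 10) (.e (nat_lit 434231) (nat_lit 23) (.e (nat_lit 532563) (nat_lit 15) (.e (nat_lit 385044) (nat_lit 21) (.e (nat_lit 7936) (nat_lit 373) .nil))))))) (.g (nat_lit 4) .nil .nil))) 
(.lf (nat_lit 147271) (.g (nat_lit 2218) (.e (nat_lit 57374) (nat_lit 2) (.e (nat_lit 90174) (nat_lit 14) (.e (nat_lit 180243) (nat_lit 5) (.e (nat_lit 532515) (nat_lit 3) (.e (nat_lit 114718) (nat_lit 23) (.e (nat_lit 98334) (nat_lit 18) (.e (nat_lit 164399) (nat_lit 256) .nil))))))) (.g (nat_lit 4) .nil .nil)))) (.nd (nat_lit 6) 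
(.lf (nat_lit 147239) (.g (nat_lit 3295) (.e (nat_lit 57374) (nat_lit 2) (.e (nat_lit 90170) (nat_lit 13) (.e (nat_lit 172121) (nat_lit 13) (.e (nat_lit 483337) (nat_lit 9) (.e (nat_lit 426107) (nat_lit 1) (.e (nat_lit 164396) (nat_lit 256) .nil)))))) (.g (nat_lit 5) .nil .nil))) 
(.lf (nat_lit 147303) (.g (nat_lit 472) (.e (nat_lit 57375) (nat_lit 2) (.e (nat_lit 90158) (nat_lit 11) (.e (nat_lit 24624) (nat_lit 9) .nil))) .nil)))) (.nd (nat_lit 5) (.nd (nat_lit 6) 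
(.lf (nat_lit 147223) (.g (nat_lit 2568) (.e (nat_lit 57374) (nat_lit 2) (.e (nat_lit 90170) (nat_lit 13) (.e (nat_lit 172106) (nat_lit 10) (.e (nat_lit 434231) (nat_lit 23) (.e (nat_lit 532569) (nat_lit 16) (.e (nat_lit 401414) (nat_lit 0) (.e (nat_lit 2424) (nat_lit 157) (.e (nat_lit 4412) (nat_lit 259) .nil)))))))) (.g (nat_lit 4) .nil .nil))) 
(.lf (nat_lit 147287) (.g (nat_lit 2485) (.e (nat_lit 57375) (nat_lit 2) (.e (nat_lit 90128) (nat_lit 9) (.e (nat_lit 334) (nat_lit 26) (.e (nat_lit 376867) (nat_lit 23) (.e (nat_lit 98365) (nat_lit 26) (.e (nat_lit 426009) (nat_lit 0) (.e (nat_lit 2411) (nat_lit 157) (.e (nat_lit 5570) (nat_lit 308) .nil)))))))) (.g (nat_lit 5) .nil .nil)))) (.nd (nat_lit 6) 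
(.lf (nat_lit 147255) (.g (nat_lit 2286) (.e (nat_lit 57374) (nat_lit 2) (.e (nat_lit 90170) (nat_lit 13) (.e (nat_lit 172123) (nat_lit 13) (.e (nat_lit 483337) (nat_lit 9) (.e (nat_lit 426142) (nat_lit 4) (.e (nat_lit 229707) (nat_lit 256) .nil)))))) (.g (nat_lit 4) .nil .nil))) 
(.lf (nat_lit 147319) (.g (nat_lit 1745) (.e (nat_lit 57375) (nat_lit 2) (.e (nat_lit 90158) (nat_lit 11) (.e (nat_lit 24628) (nat_lit 9) (.e (nat_lit 336375) (nat_lit 27) (.e (nat_lit 426524) (nat_lit 27) .nil))))) .nil))))) (.nd (nat_lit 4) (.nd (nat_lit 5) (.nd (nat_lit 6) 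
(.lf (nat_lit 147215) (.g (nat_lit 2901) (.e (nat_lit 57374) (nat_lit 2) (.e (nat_lit 90170) (nat_lit 13) (.e (nat_lit 172106) (nat_lit 10) (.e (nat_lit 434231) (nat_lit 23) (.e (nat_lit 532563) (nat_lit 15) (.e (nat_lit 392960) (nat_lit 21) (.e (nat_lit 7936) (nat_lit 373) .nil))))))) (.g (nat_lit 4) .nil .nil))) 
(.lf (nat_lit 147279) (.g (nat_lit 2276) (.e (nat_lit 57375) (nat_lit 2) (.e (nat_lit 98048) (nat_lit 8) (.e (nat_lit 131116) (nat_lit 9) (.e (nat_lit 336004) (nat_lit 2) (.e (nat_lit 90172) (nat_lit 14) (.e (nat_lit 188160) (nat_lit 0) (.e (nat_lit 5195) (nat_lit 294) .nil))))))) (.g (nat_lit 5) .nil .nil)))) (.nd (nat_lit 6) 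
(.lf (nat_lit 147247) (.g (nat_lit 1608) (.e (nat_lit 57374) (nat_lit 2) (.e (nat_lit 90170) (nat_lit 13) (.e (nat_lit 172122) (nat_lit 13) (.e (nat_lit 483337) (nat_lit 9) .nil)))) .nil)) 
(.lf (nat_lit 147311) (.g (nat_lit 2300) (.e (nat_lit 57375) (nat_lit 2) (.e (nat_lit 90158) (nat_lit 11) (.e (nat_lit 24625) (nat_lit 9) (.e (nat_lit 336456) (nat_lit 34) (.e (nat_lit 483354) (nat_lit 17) .nil))))) .nil)))) (.nd (nat_lit 5) (.nd (nat_lit 6) 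
(.lf (nat_lit 147231) (.g (nat_lit 1867) (.e (nat_lit 57374) (nat_lit 2) (.e (nat_lit 90170) (nat_lit 13) (.e (nat_lit 172113) (nat_lit 10) (.e (nat_lit 434207) (nat_lit 18) (.e (nat_lit 6595) (nat_lit 351) .nil))))) .nil)) 
(.lf (nat_lit 147295) (.g (nat_lit 1351) (.e (nat_lit 57375) (nat_lit 2) (.e (nat_lit 90158) (nat_lit 11) (.e (nat_lit 24608) (nat_lit 3) (.e (nat_lit 98341) (nat_lit 20) .nil)))) .nil))) (.nd (nat_lit 6) 
(.lf (nat_lit 147263) (.g (nat_lit 2423) (.e (nat_lit 57374) (nat_lit 2) (.e (nat_lit 90172) (nat_lit 14) (.e (nat_lit 180244) (nat_lit 5) (.e (nat_lit 532513) (nat_lit 3) (.e (nat_lit 114719) (nat_lit 23) (.e (nat_lit 98334) (nat_lit 18) (.e (nat_lit 164399) (nat_lit 256) .nil))))))) (.g (nat_lit 4) .nil .nil))) 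
(.lf (nat_lit 147327) (.g (nat_lit 2186) (.e (nat_lit 57375) (nat_lit 2) (.e (nat_lit 90158) (nat_lit 11) (.e (nat_lit 24630) (nat_lit 9) (.e (nat_lit 336369) (nat_lit 27) (.e (nat_lit 426501) (nat_lit 27) .nil))))) .nil)))))))))

noncomputable def tv1959 : DT := (.nd (nat_lit 0) (.nd (nat_lit 1) (.nd (nat_lit 2) (.nd (nat_lit 3) (.nd (nat_lit 4) (.nd (nat_lit 5) (.nd (nat_lit 6) 
(.lf (nat_lit 147328) (.g (nat_lit 1514) (.e (nat_lit 57375) (nat_lit 2) (.e (nat_lit 90158) (nat_lit 11) (.e (nat_lit 24630) (nat_lit 9) (.e (nat_lit 336379) (nat_lit 27) (.e (nat_lit 426524) (nat_lit 27) .nil))))) .nil)) 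
(.lf (nat_lit 147392) (.g (nat_lit 3350) (.e (nat_lit 57375) (nat_lit 2) (.e (nat_lit 90160) (nat_lit 11) (.e (nat_lit 24617) (nat_lit 7) (.e (nat_lit 319504) (nat_lit 10) (.e (nat_lit 730) (nat_lit 66) (.e (nat_lit 704595) (nat_lit 5) (.e (nat_lit 180225) (nat_lit 0) (.e (nat_lit 4527) (nat_lit 265) .nil)))))))) (.g (nat_lit 4) .nil .nil)))) (.nd (nat_lit 6) 
(.lf (nat_lit 147360) (.g (nat_lit 2884) (.e (nat_lit 57375) (nat_lit 2) (.e (nat_lit 90159) (nat_lit 11) (.e (nat_lit 24657) (nat_lit 13) (.e (nat_lit 393224) (nat_lit 9) (.e (nat_lit 335995) (nat_lit 1) (.e (nat_lit 57848) (nat_lit 252) .nil)))))) (.g (nat_lit 6) .nil .nil))) 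
(.lf (nat_lit 147424) (.g (nat_lit 1986) (.e (nat_lit 57375) (nat_lit 2) (.e (nat_lit 90160) (nat_lit 11) (.e (nat_lit 24656) (nat_lit 13) (.e (nat_lit 393225) (nat_lit 9) (.e (nat_lit 335986) (nat_lit 1) .nil))))) .nil)))) (.nd (nat_lit 5) (.nd (nat_lit 6) 
(.lf (nat_lit 147344) (.g (nat_lit 3665) (.e (nat_lit 57375) (nat_lit 2) (.e (nat_lit 90158) (nat_lit 11) (.e (nat_lit 24658) (nat_lit 13) (.e (nat_lit 393225) (nat_lit 9) (.e (nat_lit 335995) (nat_lit 1) (.e (nat_lit 57847) (nat_lit 252) .nil)))))) (.g (nat_lit 0) .nil .nil))) 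
(.lf (nat_lit 147408) (.g (nat_lit 2905) (.e (nat_lit 57375) (nat_lit 2) (.e (nat_lit 90160) (nat_lit 11) (.e (nat_lit 24636) (nat_lit 9) (.e (nat_lit 336390) (nat_lit 27) (.e (nat_lit 426500) (nat_lit 27) (.e (nat_lit 335995) (nat_lit 1) (.e (nat_lit 57847) (nat_lit 252) .nil))))))) (.g (nat_lit 7) .nil .nil)))) (.nd (nat_lit 6) 
(.lf (nat_lit 147376) (.g (nat_lit 4705) (.e (nat_lit 57375) (nat_lit 2) (.e (nat_lit 90160) (nat_lit 11) (.e (nat_lit 24607) (nat_lit 3) (.e (nat_lit 98342) (nat_lit 20) (.e (nat_lit 221212) (nat_lit 22) (.e (nat_lit 196660) (nat_lit 12) (.e (nat_lit 57354) (nat_lit 0) (.e (nat_lit 5194) (nat_lit 294) .nil)))))))) (.g (nat_lit 5) .nil .nil))) 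
(.lf (nat_lit 147440) (.g (nat_lit 3224) (.e (nat_lit 57375) (nat_lit 2) (.e (nat_lit 90160) (nat_lit 11) (.e (nat_lit 24665) (nat_lit 14) (.e (nat_lit 401414) (nat_lit 0) (.e (nat_lit 3579) (nat_lit 223) .nil))))) .nil))))) (.nd (nat_lit 4) (.nd (nat_lit 5) (.nd (nat_lit 6) 
(.lf (nat_lit 147336) (.g (nat_lit 1149) (.e (nat_lit 57375) (nat_lit 2) (.e (nat_lit 90158) (nat_lit 11) (.e (nat_lit 24655) (nat_lit 13) (.e (nat_lit 393229) (nat_lit 9) .nil)))) .nil)) 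
(.lf (nat_lit 147400) (.g (nat_lit 3655) (.e (nat_lit 57375) (nat_lit 2) (.e (nat_lit 90160) (nat_lit 11) (.e (nat_lit 24625) (nat_lit 9) (.e (nat_lit 336454) (nat_lit 34) (.e (nat_lit 483365) (nat_lit 18) (.e (nat_lit 57847) (nat_lit 252) .nil)))))) (.g (nat_lit 0) .nil .nil)))) (.nd (nat_lit 6) 
(.lf (nat_lit 147368) (.g (nat_lit 875) (.e (nat_lit 57375) (nat_lit 2) (.e (nat_lit 90160) (nat_lit 11) (.e (nat_lit 24582) (nat_lit 0) .nil))) .nil)) 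
(.lf (nat_lit 147432) (.g (nat_lit 1669) (.e (nat_lit 57375) (nat_lit 2) (.e (nat_lit 90160) (nat_lit 11) (.e (nat_lit 24657) (nat_lit 13) (.e (nat_lit 393253) (nat_lit 18) .nil)))) .nil)))) (.nd (nat_lit 5) (.nd (nat_lit 6) 
(.lf (nat_lit 147352) (.g (nat_lit 1597) (.e (nat_lit 57375) (nat_lit 2) (.e (nat_lit 90158) (nat_lit 11) (.e (nat_lit 24658) (nat_lit 13) (.e (nat_lit 393229) (nat_lit 9) (.e (nat_lit 335993) (nat_lit 1) .nil))))) .nil)) 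
(.lf (nat_lit 147416) (.g (nat_lit 2032) (.e (nat_lit 57375) (nat_lit 2) (.e (nat_lit 90160) (nat_lit 11) (.e (nat_lit 24654) (nat_lit 13) (.e (nat_lit 393229) (nat_lit 9) (.e (nat_lit 335994) (nat_lit 1) .nil))))) .nil))) (.nd (nat_lit 6) 
(.lf (nat_lit 147384) (.g (nat_lit 4246) (.e (nat_lit 57375) (nat_lit 2) (.e (nat_lit 90160) (nat_lit 11) (.e (nat_lit 24608) (nat_lit 3) (.e (nat_lit 98342) (nat_lit 20) (.e (nat_lit 221210) (nat_lit 22) (.e (nat_lit 196660) (nat_lit 12) (.e (nat_lit 57354) (nat_lit 0) (.e (nat_lit 5194) (nat_lit 294) .nil)))))))) (.g (nat_lit 5) .nil .nil))) 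
(.lf (nat_lit 147448) (.g (nat_lit 3975) (.e (nat_lit 57375) (nat_lit 2) (.e (nat_lit 90160) (nat_lit 11) (.e (nat_lit 24665) (nat_lit 14) (.e (nat_lit 401414) (nat_lit 0) (.e (nat_lit 3579) (nat_lit 223) (.e (nat_lit 745492) (nat_lit 5) (.e (nat_lit 73733) (nat_lit 0) (.e (nat_lit 5195) (nat_lit 294) .nil)))))))) (.g (nat_lit 4) .nil .nil))))))) 
(.nd (nat_lit 3) (.nd (nat_lit 4) (.nd (nat_lit 5) (.nd (nat_lit 6) 
(.lf (nat_lit 147332) (.g (nat_lit 2592) (.e (nat_lit 57375) (nat_lit 2) (.e (nat_lit 90158) (nat_lit 11) (.e (nat_lit 24655) (nat_lit 13) (.e (nat_lit 393225) (nat_lit 9) (.e (nat_lit 335985) (nat_lit 1) .nil))))) .nil)) 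
(.lf (nat_lit 147396) (.g (nat_lit 875) (.e (nat_lit 57375) (nat_lit 2) (.e (nat_lit 90160) (nat_lit 11) (.e (nat_lit 24621) (nat_lit 8) .nil))) .nil))) (.nd (nat_lit 6) 
(.lf (nat_lit 147364) (.g (nat_lit 2763) (.e (nat_lit 57375) (nat_lit 2) (.e (nat_lit 90159) (nat_lit 11) (.e (nat_lit 24659) (nat_lit 13) (.e (nat_lit 393225) (nat_lit 9) (.e (nat_lit 335995) (nat_lit 1) (.e (nat_lit 57848) (nat_lit 252) .nil)))))) (.g (nat_lit 6) .nil .nil))) 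
(.lf (nat_lit 147428) (.g (nat_lit 1075) (.e (nat_lit 57375) (nat_lit 2) (.e (nat_lit 90160) (nat_lit 11) (.e (nat_lit 24657) (nat_lit 13) (.e (nat_lit 393229) (nat_lit 9) .nil)))) .nil)))) (.nd (nat_lit 5) (.nd (nat_lit 6) 
(.lf (nat_lit 147348) (.g (nat_lit 2041) (.e (nat_lit 57375) (nat_lit 2) (.e (nat_lit 90158) (nat_lit 11) (.e (nat_lit 24658) (nat_lit 13) (.e (nat_lit 393229) (nat_lit 9) (.e (nat_lit 335917) (nat_lit 0) .nil))))) .nil)) 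
(.lf (nat_lit 147412) (.g (nat_lit 836) (.e (nat_lit 57375) (nat_lit 2) (.e (nat_lit 90160) (nat_lit 11) (.e (nat_lit 24650) (nat_lit 12) .nil))) .nil))) (.nd (nat_lit 6) 
(.lf (nat_lit 147380) (.g (nat_lit 3504) (.e (nat_lit 57375) (nat_lit 2) (.e (nat_lit 90160) (nat_lit 11) (.e (nat_lit 24608) (nat_lit 3) (.e (nat_lit 98341) (nat_lit 20) (.e (nat_lit 221212) (nat_lit 22) (.e (nat_lit 196660) (nat_lit 12) (.e (nat_lit 57354) (nat_lit 0) (.e (nat_lit 5194) (nat_lit 294) .nil)))))))) (.g (nat_lit 4) .nil .nil))) 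
(.lf (nat_lit 147444) (.g (nat_lit 4120) (.e (nat_lit 57375) (nat_lit 2) (.e (nat_lit 90160) (nat_lit 11) (.e (nat_lit 24665) (nat_lit 14) (.e (nat_lit 401414) (nat_lit 0) (.e (nat_lit 3579) (nat_lit 223) (.e (nat_lit 745476) (nat_lit 0) (.e (nat_lit 1535) (nat_lit 109) (.e (nat_lit 344097) (nat_lit 18) (.e (nat_lit 5194) (nat_lit 294) .nil))))))))) (.g (nat_lit 4) .nil .nil)))))) 
(.nd (nat_lit 4) (.nd (nat_lit 5) (.nd (nat_lit 6) 
(.lf (nat_lit 147340) (.g (nat_lit 464) (.e (nat_lit 57375) (nat_lit 2) (.e (nat_lit 90158) (nat_lit 11) (.e (nat_lit 24656) (nat_lit 13) .nil))) .nil)) 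
(.lf (nat_lit 147404) (.g (nat_lit 1546) (.e (nat_lit 57375) (nat_lit 2) (.e (nat_lit 90160) (nat_lit 11) (.e (nat_lit 24628) (nat_lit 9) (.e (nat_lit 336374) (nat_lit 27) (.e (nat_lit 426527) (nat_lit 27) .nil))))) .nil))) (.nd (nat_lit 6) 
(.lf (nat_lit 147372) (.g (nat_lit 868) (.e (nat_lit 57375) (nat_lit 2) (.e (nat_lit 90160) (nat_lit 11) (.e (nat_lit 24607) (nat_lit 3) .nil))) .nil)) 
(.lf (nat_lit 147436) (.g (nat_lit 3454) (.e (nat_lit 57375) (nat_lit 2) (.e (nat_lit 90160) (nat_lit 11) (.e (nat_lit 24660) (nat_lit 13) (.e (nat_lit 393229) (nat_lit 9) (.e (nat_lit 335995) (nat_lit 1) (.e (nat_lit 57847) (nat_lit 252) .nil)))))) (.g (nat_lit 6) .nil .nil))))) (.nd (nat_lit 5) (.nd (nat_lit 6) 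
(.lf (nat_lit 147356) (.g (nat_lit 1050) (.e (nat_lit 57375) (nat_lit 2) (.e (nat_lit 90159) (nat_lit 11) (.e (nat_lit 24627) (nat_lit 9) (.e (nat_lit 336413) (nat_lit 27) (.e (nat_lit 426500) (nat_lit 27) .nil))))) .nil)) 
(.lf (nat_lit 147420) (.g (nat_lit 3563) (.e (nat_lit 57375) (nat_lit 2) (.e (nat_lit 90160) (nat_lit 11) (.e (nat_lit 24655) (nat_lit 13) (.e (nat_lit 393229) (nat_lit 9) (.e (nat_lit 335986) (nat_lit 1) (.e (nat_lit 57847) (nat_lit 252) .nil)))))) (.g (nat_lit 0) .nil .nil)))) (.nd (nat_lit 6) 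
(.lf (nat_lit 147388) (.g (nat_lit 1355) (.e (nat_lit 57375) (nat_lit 2) (.e (nat_lit 90160) (nat_lit 11) (.e (nat_lit 24609) (nat_lit 3) (.e (nat_lit 98341) (nat_lit 20) .nil)))) .nil)) 
(.lf (nat_lit 147452) (.g (nat_lit 2295) (.e (nat_lit 57375) (nat_lit 2) (.e (nat_lit 90160) (nat_lit 11) (.e (nat_lit 24665) (nat_lit 14) (.e (nat_lit 401469) (nat_lit 27) (.e (nat_lit 343808) (nat_lit 28) .nil))))) .nil))))))) (.nd (nat_lit 2) (.nd (nat_lit 3) (.nd (nat_lit 4) (.nd (nat_lit 5) (.nd (nat_lit 6) 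
(.lf (nat_lit 147330) (.g (nat_lit 387) (.e (nat_lit 57375) (nat_lit 2) (.e (nat_lit 90158) (nat_lit 11) (.e (nat_lit 24655) (nat_lit 13) .nil))) .nil)) 
(.lf (nat_lit 147394) (.g (nat_lit 2978) (.e (nat_lit 57375) (nat_lit 2) (.e (nat_lit 90160) (nat_lit 11) (.e (nat_lit 24617) (nat_lit 7) (.e (nat_lit 319504) (nat_lit 10) (.e (nat_lit 730) (nat_lit 66) (.e (nat_lit 704596) (nat_lit 5) (.e (nat_lit 180225) (nat_lit 0) (.e (nat_lit 4527) (nat_lit 265) .nil)))))))) (.g (nat_lit 4) .nil .nil)))) (.nd (nat_lit 6) 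
(.lf (nat_lit 147362) (.g (nat_lit 2982) (.e (nat_lit 57375) (nat_lit 2) (.e (nat_lit 90159) (nat_lit 11) (.e (nat_lit 24657) (nat_lit 13) (.e (nat_lit 393228) (nat_lit 9) (.e (nat_lit 335995) (nat_lit 1) (.e (nat_lit 57848) (nat_lit 252) .nil)))))) (.g (nat_lit 6) .nil .nil))) 
(.lf (nat_lit 147426) (.g (nat_lit 2195) (.e (nat_lit 57375) (nat_lit 2) (.e (nat_lit 90160) (nat_lit 11) (.e (nat_lit 24657) (nat_lit 13) (.e (nat_lit 393224) (nat_lit 9) .nil)))) .nil)))) (.nd (nat_lit 5) (.nd (nat_lit 6) 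
(.lf (nat_lit 147346) (.g (nat_lit 1248) (.e (nat_lit 57375) (nat_lit 2) (.e (nat_lit 90158) (nat_lit 11) (.e (nat_lit 24658) (nat_lit 13) (.e (nat_lit 393227) (nat_lit 9) (.e (nat_lit 335959) (nat_lit 0) .nil))))) .nil)) 
(.lf (nat_lit 147410) (.g (nat_lit 2277) (.e (nat_lit 57375) (nat_lit 2) (.e (nat_lit 90160) (nat_lit 11) (.e (nat_lit 24638) (nat_lit 9) (.e (nat_lit 336012) (nat_lit 2) (.e (nat_lit 90172) (nat_lit 14) (.e (nat_lit 180233) (nat_lit 0) (.e (nat_lit 5566) (nat_lit 308) .nil))))))) (.g (nat_lit 4) .nil .nil)))) (.nd (nat_lit 6) 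
(.lf (nat_lit 147378) (.g (nat_lit 2431) (.e (nat_lit 57375) (nat_lit 2) (.e (nat_lit 90160) (nat_lit 11) (.e (nat_lit 24608) (nat_lit 3) (.e (nat_lit 98321) (nat_lit 17) (.e (nat_lit 3771) (nat_lit 229) .nil))))) .nil)) 
(.lf (nat_lit 147442) (.g (nat_lit 4447) (.e (nat_lit 57375) (nat_lit 2) (.e (nat_lit 90160) (nat_lit 11) (.e (nat_lit 24665) (nat_lit 14) (.e (nat_lit 401414) (nat_lit 0) (.e (nat_lit 3579) (nat_lit 223) (.e (nat_lit 745475) (nat_lit 0) (.e (nat_lit 1535) (nat_lit 109) (.e (nat_lit 344097) (nat_lit 18) (.e (nat_lit 5195) (nat_lit 294) .nil))))))))) (.g (nat_lit 4) .nil .nil)))))) 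
(.nd (nat_lit 4) (.nd (nat_lit 5) (.nd (nat_lit 6) 
(.lf (nat_lit 147338) (.g (nat_lit 2682) (.e (nat_lit 57375) (nat_lit 2) (.e (nat_lit 90158) (nat_lit 11) (.e (nat_lit 24655) (nat_lit 13) (.e (nat_lit 393229) (nat_lit 9) (.e (nat_lit 335917) (nat_lit 0) .nil))))) .nil)) 
(.lf (nat_lit 147402) (.g (nat_lit 3853) (.e (nat_lit 57375) (nat_lit 2) (.e (nat_lit 90160) (nat_lit 11) (.e (nat_lit 24626) (nat_lit 9) (.e (nat_lit 336454) (nat_lit 34) (.e (nat_lit 483365) (nat_lit 18) (.e (nat_lit 57847) (nat_lit 252) .nil)))))) (.g (nat_lit 6) .nil .nil)))) (.nd (nat_lit 6) 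
(.lf (nat_lit 147370) (.g (nat_lit 1456) (.e (nat_lit 57375) (nat_lit 2) (.e (nat_lit 90160) (nat_lit 11) (.e (nat_lit 24588) (nat_lit 0) (.e (nat_lit 1855) (nat_lit 124) .nil)))) .nil)) 
(.lf (nat_lit 147434) (.g (nat_lit 3681) (.e (nat_lit 57375) (nat_lit 2) (.e (nat_lit 90160) (nat_lit 11) (.e (nat_lit 24658) (nat_lit 13) (.e (nat_lit 393229) (nat_lit 9) (.e (nat_lit 335995) (nat_lit 1) (.e (nat_lit 57847) (nat_lit 252) .nil)))))) (.g (nat_lit 0) .nil .nil))))) (.nd (nat_lit 5) (.nd (nat_lit 6) 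
(.lf (nat_lit 147354) (.g (nat_lit 1773) (.e (nat_lit 57375) (nat_lit 2) (.e (nat_lit 90158) (nat_lit 11) (.e (nat_lit 24660) (nat_lit 13) (.e (nat_lit 393229) (nat_lit 9) (.e (nat_lit 343808) (nat_lit 1) (.e (nat_lit 57849) (nat_lit 252) .nil)))))) (.g (nat_lit 4) .nil .nil))) 
(.lf (nat_lit 147418) (.g (nat_lit 1808) (.e (nat_lit 57375) (nat_lit 2) (.e (nat_lit 90160) (nat_lit 11) (.e (nat_lit 24655) (nat_lit 13) (.e (nat_lit 393224) (nat_lit 9) (.e (nat_lit 335995) (nat_lit 1) .nil))))) .nil))) (.nd (nat_lit 6) 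
(.lf (nat_lit 147386) (.g (nat_lit 3525) (.e (nat_lit 57375) (nat_lit 2) (.e (nat_lit 90160) (nat_lit 11) (.e (nat_lit 24608) (nat_lit 3) (.e (nat_lit 98342) (nat_lit 20) (.e (nat_lit 221211) (nat_lit 22) (.e (nat_lit 196661) (nat_lit 12) (.e (nat_lit 57357) (nat_lit 0) (.e (nat_lit 5195) (nat_lit 294) .nil)))))))) (.g (nat_lit 4) .nil .nil))) 
(.lf (nat_lit 147450) (.g (nat_lit 1735) (.e (nat_lit 57375) (nat_lit 2) (.e (nat_lit 90160) (nat_lit 11) (.e (nat_lit 24665) (nat_lit 14) (.e (nat_lit 401426) (nat_lit 3) .nil)))) .nil)))))) (.nd (nat_lit 3) (.nd (nat_lit 4) (.nd (nat_lit 5) (.nd (nat_lit 6) 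
(.lf (nat_lit 147334) (.g (nat_lit 4113) (.e (nat_lit 57375) (nat_lit 2) (.e (nat_lit 90158) (nat_lit 11) (.e (nat_lit 24655) (nat_lit 13) (.e (nat_lit 393225) (nat_lit 9) (.e (nat_lit 335995) (nat_lit 1) (.e (nat_lit 57847) (nat_lit 252) .nil)))))) (.g (nat_lit 0) .nil .nil))) 
(.lf (nat_lit 147398) (.g (nat_lit 1538) (.e (nat_lit 57375) (nat_lit 2) (.e (nat_lit 90160) (nat_lit 11) (.e (nat_lit 24625) (nat_lit 9) (.e (nat_lit 336370) (nat_lit 27) .nil)))) .nil))) (.nd (nat_lit 6) 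
(.lf (nat_lit 147366) (.g (nat_lit 1123) (.e (nat_lit 57375) (nat_lit 2) (.e (nat_lit 90160) (nat_lit 11) (.e (nat_lit 24577) (nat_lit 0) (.e (nat_lit 1803) (nat_lit 119) .nil)))) .nil)) 
(.lf (nat_lit 147430) (.g (nat_lit 2004) (.e (nat_lit 57375) (nat_lit 2) (.e (nat_lit 90160) (nat_lit 11) (.e (nat_lit 24657) (nat_lit 13) (.e (nat_lit 393229) (nat_lit 9) (.e (nat_lit 343808) (nat_lit 1) .nil))))) .nil)))) (.nd (nat_lit 5) (.nd (nat_lit 6) 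
(.lf (nat_lit 147350) (.g (nat_lit 2041) (.e (nat_lit 57375) (nat_lit 2) (.e (nat_lit 90158) (nat_lit 11) (.e (nat_lit 24658) (nat_lit 13) (.e (nat_lit 393229) (nat_lit 9) (.e (nat_lit 335934) (nat_lit 0) .nil))))) .nil)) 
(.lf (nat_lit 147414) (.g (nat_lit 2050) (.e (nat_lit 57375) (nat_lit 2) (.e (nat_lit 90160) (nat_lit 11) (.e (nat_lit 24654) (nat_lit 13) (.e (nat_lit 393229) (nat_lit 9) (.e (nat_lit 335985) (nat_lit 1) .nil))))) .nil))) (.nd (nat_lit 6) 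
(.lf (nat_lit 147382) (.g (nat_lit 3339) (.e (nat_lit 57375) (nat_lit 2) (.e (nat_lit 90160) (nat_lit 11) (.e (nat_lit 24608) (nat_lit 3) (.e (nat_lit 98341) (nat_lit 20) (.e (nat_lit 221214) (nat_lit 23) (.e (nat_lit 204821) (nat_lit 17) (.e (nat_lit 1040) (nat_lit 81) (.e (nat_lit 5195) (nat_lit 294) .nil)))))))) (.g (nat_lit 4) .nil .nil))) 
(.lf (nat_lit 147446) (.g (nat_lit 4616) (.e (nat_lit 57375) (nat_lit 2) (.e (nat_lit 90160) (nat_lit 11) (.e (nat_lit 24665) (nat_lit 14) (.e (nat_lit 401414) (nat_lit 0) (.e (nat_lit 3579) (nat_lit 223) (.e (nat_lit 745476) (nat_lit 0) (.e (nat_lit 1551) (nat_lit 109) (.e (nat_lit 344097) (nat_lit 18) (.e (nat_lit 5195) (nat_lit 294) .nil))))))))) (.g (nat_lit 4) .nil .nil)))))) 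
(.nd (nat_lit 4) (.nd (nat_lit 5) (.nd (nat_lit 6) 
(.lf (nat_lit 147342) (.g (nat_lit 1490) (.e (nat_lit 57375) (nat_lit 2) (.e (nat_lit 90158) (nat_lit 11) (.e (nat_lit 24658) (nat_lit 13) (.e (nat_lit 393224) (nat_lit 9) .nil)))) .nil)) 
(.lf (nat_lit 147406) (.g (nat_lit 3573) (.e (nat_lit 57375) (nat_lit 2) (.e (nat_lit 90160) (nat_lit 11) (.e (nat_lit 24630) (nat_lit 9) (.e (nat_lit 336369) (nat_lit 27) (.e (nat_lit 426501) (nat_lit 27) (.e (nat_lit 335995) (nat_lit 1) (.e (nat_lit 57848) (nat_lit 252) .nil))))))) (.g (nat_lit 4) .nil .nil)))) (.nd (nat_lit 6) 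
(.lf (nat_lit 147374) (.g (nat_lit 3591) (.e (nat_lit 57375) (nat_lit 2) (.e (nat_lit 90160) (nat_lit 11) (.e (nat_lit 24607) (nat_lit 3) (.e (nat_lit 98342) (nat_lit 20) (.e (nat_lit 221212) (nat_lit 22) (.e (nat_lit 196659) (nat_lit 12) (.e (nat_lit 57354) (nat_lit 0) (.e (nat_lit 5194) (nat_lit 294) .nil)))))))) (.g (nat_lit 4) .nil .nil))) 
(.lf (nat_lit 147438) (.g (nat_lit 875) (.e (nat_lit 57375) (nat_lit 2) (.e (nat_lit 90160) (nat_lit 11) (.e (nat_lit 24664) (nat_lit 14) .nil))) .nil)))) (.nd (nat_lit 5) (.nd (nat_lit 6) 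
(.lf (nat_lit 147358) (.g (nat_lit 2099) (.e (nat_lit 57375) (nat_lit 2) (.e (nat_lit 90159) (nat_lit 11) (.e (nat_lit 24656) (nat_lit 13) (.e (nat_lit 393229) (nat_lit 9) (.e (nat_lit 335994) (nat_lit 1) (.e (nat_lit 57848) (nat_lit 252) .nil)))))) (.g (nat_lit 5) .nil .nil))) 
(.lf (nat_lit 147422) (.g (nat_lit 3892) (.e (nat_lit 57375) (nat_lit 2) (.e (nat_lit 90160) (nat_lit 11) (.e (nat_lit 24655) (nat_lit 13) (.e (nat_lit 393229) (nat_lit 9) (.e (nat_lit 335995) (nat_lit 1) (.e (nat_lit 57847) (nat_lit 252) .nil)))))) (.g (nat_lit 0) .nil .nil)))) (.nd (nat_lit 6) 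
(.lf (nat_lit 147390) (.g (nat_lit 2388) (.e (nat_lit 57375) (nat_lit 2) (.e (nat_lit 90160) (nat_lit 11) (.e (nat_lit 24609) (nat_lit 3) (.e (nat_lit 98342) (nat_lit 20) (.e (nat_lit 221212) (nat_lit 22) .nil))))) .nil)) 
(.lf (nat_lit 147454) (.g (nat_lit 2614) (.e (nat_lit 57375) (nat_lit 2) (.e (nat_lit 90167) (nat_lit 13) (.e (nat_lit 172067) (nat_lit 3) (.e (nat_lit 204837) (nat_lit 20) (.e (nat_lit 114718) (nat_lit 23) (.e (nat_lit 98333) (nat_lit 18) (.e (nat_lit 164399) (nat_lit 256) .nil))))))) (.g (nat_lit 4) .nil .nil))))))))) 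
(.nd (nat_lit 1) (.nd (nat_lit 2) (.nd (nat_lit 3) (.nd (nat_lit 4) (.nd (nat_lit 5) 
(.nd (nat_lit 6) 
(.lf (nat_lit 147329) (.g (nat_lit 2036) (.e (nat_lit 57375) (nat_lit 2) (.e (nat_lit 90158) (nat_lit 11) (.e (nat_lit 24630) (nat_lit 9) (.e (nat_lit 336454) (nat_lit 34) (.e (nat_lit 483362) (nat_lit 18) .nil))))) .nil)) 
(.lf (nat_lit 147393) (.g (nat_lit 3142) (.e (nat_lit 57375) (nat_lit 2) (.e (nat_lit 90160) (nat_lit 11) (.e (nat_lit 24617) (nat_lit 7) (.e (nat_lit 319504) (nat_lit 10) (.e (nat_lit 730) (nat_lit 66) (.e (nat_lit 704595) (nat_lit 5) (.e (nat_lit 180227) (nat_lit 0) (.e (nat_lit 4527) (nat_lit 265) .nil)))))))) (.g (nat_lit 4) .nil .nil)))) (.nd (nat_lit 6) 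
(.lf (nat_lit 147361) (.g (nat_lit 1018) (.e (nat_lit 57375) (nat_lit 2) (.e (nat_lit 90159) (nat_lit 11) (.e (nat_lit 24657) (nat_lit 13) (.e (nat_lit 393227) (nat_lit 9) (.e (nat_lit 335957) (nat_lit 0) .nil))))) .nil)) 
(.lf (nat_lit 147425) (.g (nat_lit 3564) (.e (nat_lit 57375) (nat_lit 2) (.e (nat_lit 90160) (nat_lit 11) (.e (nat_lit 24656) (nat_lit 13) (.e (nat_lit 393229) (nat_lit 9) (.e (nat_lit 335995) (nat_lit 1) (.e (nat_lit 57847) (nat_lit 252) .nil)))))) (.g (nat_lit 6) .nil .nil))))) (.nd (nat_lit 5) (.nd (nat_lit 6) 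
(.lf (nat_lit 147345) (.g (nat_lit 1495) (.e (nat_lit 57375) (nat_lit 2) (.e (nat_lit 90158) (nat_lit 11) (.e (nat_lit 24658) (nat_lit 13) (.e (nat_lit 393226) (nat_lit 9) .nil)))) .nil)) 
(.lf (nat_lit 147409) (.g (nat_lit 845) (.e (nat_lit 57375) (nat_lit 2) (.e (nat_lit 90160) (nat_lit 11) (.e (nat_lit 24638) (nat_lit 9) (.e (nat_lit 336003) (nat_lit 2) .nil)))) .nil))) (.nd (nat_lit 6) 
(.lf (nat_lit 147377) (.g (nat_lit 4532) (.e (nat_lit 57375) (nat_lit 2) (.e (nat_lit 90160) (nat_lit 11) (.e (nat_lit 24607) (nat_lit 3) (.e (nat_lit 98342) (nat_lit 20) (.e (nat_lit 221212) (nat_lit 22) (.e (nat_lit 196660) (nat_lit 12) (.e (nat_lit 57354) (nat_lit 0) (.e (nat_lit 5195) (nat_lit 294) .nil)))))))) (.g (nat_lit 5) .nil .nil))) 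
(.lf (nat_lit 147441) (.g (nat_lit 3653) (.e (nat_lit 57375) (nat_lit 2) (.e (nat_lit 90160) (nat_lit 11) (.e (nat_lit 24665) (nat_lit 14) (.e (nat_lit 401414) (nat_lit 0) (.e (nat_lit 3579) (nat_lit 223) (.e (nat_lit 745475) (nat_lit 0) (.e (nat_lit 1535) (nat_lit 109) (.e (nat_lit 344097) (nat_lit 18) (.e (nat_lit 5194) (nat_lit 294) .nil))))))))) (.g (nat_lit 4) .nil .nil)))))) 
(.nd (nat_lit 4) (.nd (nat_lit 5) (.nd (nat_lit 6) 
(.lf (nat_lit 147337) (.g (nat_lit 2309) (.e (nat_lit 57375) (nat_lit 2) (.e (nat_lit 90158) (nat_lit 11) (.e (nat_lit 24655) (nat_lit 13) (.e (nat_lit 393229) (nat_lit 9) (.e (nat_lit 335912) (nat_lit 0) .nil))))) .nil)) 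
(.lf (nat_lit 147401) (.g (nat_lit 2084) (.e (nat_lit 57375) (nat_lit 2) (.e (nat_lit 90160) (nat_lit 11) (.e (nat_lit 24625) (nat_lit 9) (.e (nat_lit 336456) (nat_lit 34) (.e (nat_lit 483362) (nat_lit 18) .nil))))) .nil))) (.nd (nat_lit 6) 
(.lf (nat_lit 147369) (.g (nat_lit 1459) (.e (nat_lit 57375) (nat_lit 2) (.e (nat_lit 90160) (nat_lit 11) (.e (nat_lit 24588) (nat_lit 0) (.e (nat_lit 1799) (nat_lit 119) .nil)))) .nil)) 
(.lf (nat_lit 147433) (.g (nat_lit 3337) (.e (nat_lit 57375) (nat_lit 2) (.e (nat_lit 90160) (nat_lit 11) (.e (nat_lit 24658) (nat_lit 13) (.e (nat_lit 393229) (nat_lit 9) (.e (nat_lit 335986) (nat_lit 1) (.e (nat_lit 57847) (nat_lit 252) .nil)))))) (.g (nat_lit 0) .nil .nil))))) (.nd (nat_lit 5) (.nd (nat_lit 6) 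
(.lf (nat_lit 147353) (.g (nat_lit 3884) (.e (nat_lit 57375) (nat_lit 2) (.e (nat_lit 90158) (nat_lit 11) (.e (nat_lit 24658) (nat_lit 13) (.e (nat_lit 393229) (nat_lit 9) (.e (nat_lit 335995) (nat_lit 1) (.e (nat_lit 57849) (nat_lit 252) .nil)))))) (.g (nat_lit 0) .nil .nil))) 
(.lf (nat_lit 147417) (.g (nat_lit 3741) (.e (nat_lit 57375) (nat_lit 2) (.e (nat_lit 90160) (nat_lit 11) (.e (nat_lit 24654) (nat_lit 13) (.e (nat_lit 393229) (nat_lit 9) (.e (nat_lit 335995) (nat_lit 1) (.e (nat_lit 57847) (nat_lit 252) .nil)))))) (.g (nat_lit 6) .nil .nil)))) (.nd (nat_lit 6) 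
(.lf (nat_lit 147385) (.g (nat_lit 4011) (.e (nat_lit 57375) (nat_lit 2) (.e (nat_lit 90160) (nat_lit 11) (.e (nat_lit 24608) (nat_lit 3) (.e (nat_lit 98342) (nat_lit 20) (.e (nat_lit 221210) (nat_lit 22) (.e (nat_lit 196660) (nat_lit 12) (.e (nat_lit 57354) (nat_lit 0) (.e (nat_lit 5195) (nat_lit 294) .nil)))))))) (.g (nat_lit 5) .nil .nil))) 
(.lf (nat_lit 147449) (.g (nat_lit 1996) (.e (nat_lit 57375) (nat_lit 2) (.e (nat_lit 90160) (nat_lit 11) (.e (nat_lit 24665) (nat_lit 14) (.e (nat_lit 401423) (nat_lit 2) .nil)))) .nil)))))) (.nd (nat_lit 3) (.nd (nat_lit 4) (.nd (nat_lit 5) (.nd (nat_lit 6) 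
(.lf (nat_lit 147333) (.g (nat_lit 3183) (.e (nat_lit 57375) (nat_lit 2) (.e (nat_lit 90158) (nat_lit 11) (.e (nat_lit 24655) (nat_lit 13) (.e (nat_lit 393225) (nat_lit 9) (.e (nat_lit 335986) (nat_lit 1) (.e (nat_lit 57849) (nat_lit 252) .nil)))))) (.g (nat_lit 5) .nil .nil))) 
(.lf (nat_lit 147397) (.g (nat_lit 1602) (.e (nat_lit 57375) (nat_lit 2) (.e (nat_lit 90160) (nat_lit 11) (.e (nat_lit 24625) (nat_lit 9) (.e (nat_lit 336366) (nat_lit 27) .nil)))) .nil))) (.nd (nat_lit 6) 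
(.lf (nat_lit 147365) (.g (nat_lit 5871) (.e (nat_lit 57375) (nat_lit 2) (.e (nat_lit 90160) (nat_lit 11) (.e (nat_lit 24576) (nat_lit 0) (.e (nat_lit 1858) (nat_lit 124) (.e (nat_lit 557105) (nat_lit 14) (.e (nat_lit 180252) (nat_lit 10) (.e (nat_lit 573474) (nat_lit 12) (.e (nat_lit 57354) (nat_lit 0) (.e (nat_lit 5194) (nat_lit 294) .nil))))))))) (.g (nat_lit 6) .nil .nil))) 
(.lf (nat_lit 147429) (.g (nat_lit 2138) (.e (nat_lit 57375) (nat_lit 2) (.e (nat_lit 90160) (nat_lit 11) (.e (nat_lit 24657) (nat_lit 13) (.e (nat_lit 393229) (nat_lit 9) (.e (nat_lit 335985) (nat_lit 1) .nil))))) .nil)))) (.nd (nat_lit 5) (.nd (nat_lit 6) 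
(.lf (nat_lit 147349) (.g (nat_lit 2041) (.e (nat_lit 57375) (nat_lit 2) (.e (nat_lit 90158) (nat_lit 11) (.e (nat_lit 24658) (nat_lit 13) (.e (nat_lit 393229) (nat_lit 9) (.e (nat_lit 335926) (nat_lit 0) .nil))))) .nil)) 
(.lf (nat_lit 147413) (.g (nat_lit 875) (.e (nat_lit 57375) (nat_lit 2) (.e (nat_lit 90160) (nat_lit 11) (.e (nat_lit 24651) (nat_lit 12) .nil))) .nil))) (.nd (nat_lit 6) 
(.lf (nat_lit 147381) (.g (nat_lit 3258) (.e (nat_lit 57375) (nat_lit 2) (.e (nat_lit 90160) (nat_lit 11) (.e (nat_lit 24608) (nat_lit 3) (.e (nat_lit 98341) (nat_lit 20) (.e (nat_lit 221212) (nat_lit 22) (.e (nat_lit 196660) (nat_lit 12) (.e (nat_lit 57354) (nat_lit 0) (.e (nat_lit 5195) (nat_lit 294) .nil)))))))) (.g (nat_lit 4) .nil .nil))) 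
(.lf (nat_lit 147445) (.g (nat_lit 3822) (.e (nat_lit 57375) (nat_lit 2) (.e (nat_lit 90160) (nat_lit 11) (.e (nat_lit 24665) (nat_lit 14) (.e (nat_lit 401414) (nat_lit 0) (.e (nat_lit 3579) (nat_lit 223) (.e (nat_lit 745476) (nat_lit 0) (.e (nat_lit 1551) (nat_lit 109) (.e (nat_lit 344097) (nat_lit 18) (.e (nat_lit 5194) (nat_lit 294) .nil))))))))) (.g (nat_lit 4) .nil .nil)))))) 
(.nd (nat_lit 4) (.nd (nat_lit 5) (.nd (nat_lit 6) 
(.lf (nat_lit 147341) (.g (nat_lit 1639) (.e (nat_lit 57375) (nat_lit 2) (.e (nat_lit 90158) (nat_lit 11) (.e (nat_lit 24656) (nat_lit 13) (.e (nat_lit 393229) (nat_lit 9) (.e (nat_lit 343808) (nat_lit 1) .nil))))) .nil)) 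
(.lf (nat_lit 147405) (.g (nat_lit 2866) (.e (nat_lit 57375) (nat_lit 2) (.e (nat_lit 90160) (nat_lit 11) (.e (nat_lit 24630) (nat_lit 9) (.e (nat_lit 336369) (nat_lit 27) (.e (nat_lit 426501) (nat_lit 27) (.e (nat_lit 335995) (nat_lit 1) (.e (nat_lit 57847) (nat_lit 252) .nil))))))) (.g (nat_lit 4) .nil .nil)))) (.nd (nat_lit 6) 
(.lf (nat_lit 147373) (.g (nat_lit 2665) (.e (nat_lit 57375) (nat_lit 2) (.e (nat_lit 90160) (nat_lit 11) (.e (nat_lit 24607) (nat_lit 3) (.e (nat_lit 98342) (nat_lit 20) (.e (nat_lit 221210) (nat_lit 22) .nil))))) .nil)) 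
(.lf (nat_lit 147437) (.g (nat_lit 3354) (.e (nat_lit 57375) (nat_lit 2) (.e (nat_lit 90160) (nat_lit 11) (.e (nat_lit 24662) (nat_lit 14) (.e (nat_lit 401425) (nat_lit 2) .nil)))) .nil)))) (.nd (nat_lit 5) (.nd (nat_lit 6) 
(.lf (nat_lit 147357) (.g (nat_lit 2773) (.e (nat_lit 57375) (nat_lit 2) (.e (nat_lit 90159) (nat_lit 11) (.e (nat_lit 24656) (nat_lit 13) (.e (nat_lit 393225) (nat_lit 9) (.e (nat_lit 335995) (nat_lit 1) (.e (nat_lit 57848) (nat_lit 252) .nil)))))) (.g (nat_lit 6) .nil .nil))) 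
(.lf (nat_lit 147421) (.g (nat_lit 2081) (.e (nat_lit 57375) (nat_lit 2) (.e (nat_lit 90160) (nat_lit 11) (.e (nat_lit 24655) (nat_lit 13) (.e (nat_lit 393229) (nat_lit 9) (.e (nat_lit 335993) (nat_lit 1) .nil))))) .nil))) (.nd (nat_lit 6) 
(.lf (nat_lit 147389) (.g (nat_lit 1355) (.e (nat_lit 57375) (nat_lit 2) (.e (nat_lit 90160) (nat_lit 11) (.e (nat_lit 24609) (nat_lit 3) (.e (nat_lit 98342) (nat_lit 20) .nil)))) .nil)) 
(.lf (nat_lit 147453) (.g (nat_lit 1457) (.e (nat_lit 57375) (nat_lit 2) (.e (nat_lit 90167) (nat_lit 13) (.e (nat_lit 172067) (nat_lit 3) (.e (nat_lit 204834) (nat_lit 19) .nil)))) .nil))))))) (.nd (nat_lit 2) (.nd (nat_lit 3) (.nd (nat_lit 4) (.nd (nat_lit 5) (.nd (nat_lit 6) 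
(.lf (nat_lit 147331) (.g (nat_lit 2175) (.e (nat_lit 57375) (nat_lit 2) (.e (nat_lit 90158) (nat_lit 11) (.e (nat_lit 24655) (nat_lit 13) (.e (nat_lit 393224) (nat_lit 9) .nil)))) .nil)) 
(.lf (nat_lit 147395) (.g (nat_lit 2665) (.e (nat_lit 57375) (nat_lit 2) (.e (nat_lit 90160) (nat_lit 11) (.e (nat_lit 24617) (nat_lit 7) (.e (nat_lit 319505) (nat_lit 10) (.e (nat_lit 730) (nat_lit 66) (.e (nat_lit 704595) (nat_lit 5) (.e (nat_lit 180227) (nat_lit 0) (.e (nat_lit 4527) (nat_lit 265) .nil)))))))) (.g (nat_lit 4) .nil .nil)))) (.nd (nat_lit 6) 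
(.lf (nat_lit 147363) (.g (nat_lit 3090) (.e (nat_lit 57375) (nat_lit 2) (.e (nat_lit 90159) (nat_lit 11) (.e (nat_lit 24658) (nat_lit 13) (.e (nat_lit 393225) (nat_lit 9) (.e (nat_lit 335995) (nat_lit 1) (.e (nat_lit 57848) (nat_lit 252) .nil)))))) (.g (nat_lit 6) .nil .nil))) 
(.lf (nat_lit 147427) (.g (nat_lit 2244) (.e (nat_lit 57375) (nat_lit 2) (.e (nat_lit 90160) (nat_lit 11) (.e (nat_lit 24657) (nat_lit 13) (.e (nat_lit 393228) (nat_lit 9) .nil)))) .nil)))) (.nd (nat_lit 5) (.nd (nat_lit 6) 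
(.lf (nat_lit 147347) (.g (nat_lit 2331) (.e (nat_lit 57375) (nat_lit 2) (.e (nat_lit 90158) (nat_lit 11) (.e (nat_lit 24658) (nat_lit 13) (.e (nat_lit 393229) (nat_lit 9) (.e (nat_lit 335886) (nat_lit 0) (.e (nat_lit 1023) (nat_lit 81) (.e (nat_lit 5195) (nat_lit 294) .nil))))))) (.g (nat_lit 4) .nil .nil))) 
(.lf (nat_lit 147411) (.g (nat_lit 951) (.e (nat_lit 57375) (nat_lit 2) (.e (nat_lit 90160) (nat_lit 11) (.e (nat_lit 24638) (nat_lit 9) (.e (nat_lit 343808) (nat_lit 34) .nil)))) .nil))) (.nd (nat_lit 6) 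
(.lf (nat_lit 147379) (.g (nat_lit 1618) (.e (nat_lit 57375) (nat_lit 2) (.e (nat_lit 90160) (nat_lit 11) (.e (nat_lit 24608) (nat_lit 3) (.e (nat_lit 98337) (nat_lit 19) .nil)))) .nil)) 
(.lf (nat_lit 147443) (.g (nat_lit 3919) (.e (nat_lit 57375) (nat_lit 2) (.e (nat_lit 90160) (nat_lit 11) (.e (nat_lit 24665) (nat_lit 14) (.e (nat_lit 401414) (nat_lit 0) (.e (nat_lit 3579) (nat_lit 223) (.e (nat_lit 745475) (nat_lit 0) (.e (nat_lit 1551) (nat_lit 109) (.e (nat_lit 344097) (nat_lit 18) (.e (nat_lit 5195) (nat_lit 294) .nil))))))))) (.g (nat_lit 4) .nil .nil)))))) 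
(.nd (nat_lit 4) (.nd (nat_lit 5) (.nd (nat_lit 6) 
(.lf (nat_lit 147339) (.g (nat_lit 2112) (.e (nat_lit 57375) (nat_lit 2) (.e (nat_lit 90158) (nat_lit 11) (.e (nat_lit 24655) (nat_lit 13) (.e (nat_lit 393229) (nat_lit 9) (.e (nat_lit 335993) (nat_lit 1) .nil))))) .nil)) 
(.lf (nat_lit 147403) (.g (nat_lit 2616) (.e (nat_lit 57375) (nat_lit 2) (.e (nat_lit 90160) (nat_lit 11) (.e (nat_lit 24628) (nat_lit 9) (.e (nat_lit 336367) (nat_lit 27) (.e (nat_lit 426537) (nat_lit 28) (.e (nat_lit 344097) (nat_lit 18) (.e (nat_lit 5194) (nat_lit 294) .nil))))))) (.g (nat_lit 4) .nil .nil)))) (.nd (nat_lit 6) 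
(.lf (nat_lit 147371) (.g (nat_lit 1268) (.e (nat_lit 57375) (nat_lit 2) (.e (nat_lit 90160) (nat_lit 11) (.e (nat_lit 24589) (nat_lit 0) (.e (nat_lit 1802) (nat_lit 119) .nil)))) .nil)) 
(.lf (nat_lit 147435) (.g (nat_lit 3194) (.e (nat_lit 57375) (nat_lit 2) (.e (nat_lit 90160) (nat_lit 11) (.e (nat_lit 24660) (nat_lit 13) (.e (nat_lit 393225) (nat_lit 9) (.e (nat_lit 335986) (nat_lit 1) (.e (nat_lit 57847) (nat_lit 252) .nil)))))) (.g (nat_lit 6) .nil .nil))))) (.nd (nat_lit 5) (.nd (nat_lit 6) 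
(.lf (nat_lit 147355) (.g (nat_lit 1034) (.e (nat_lit 57375) (nat_lit 2) (.e (nat_lit 90159) (nat_lit 11) (.e (nat_lit 24627) (nat_lit 9) (.e (nat_lit 336382) (nat_lit 27) (.e (nat_lit 426500) (nat_lit 27) .nil))))) .nil)) 
(.lf (nat_lit 147419) (.g (nat_lit 2822) (.e (nat_lit 57375) (nat_lit 2) (.e (nat_lit 90160) (nat_lit 11) (.e (nat_lit 24655) (nat_lit 13) (.e (nat_lit 393229) (nat_lit 9) (.e (nat_lit 335933) (nat_lit 0) .nil))))) .nil))) (.nd (nat_lit 6) 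
(.lf (nat_lit 147387) (.g (nat_lit 3264) (.e (nat_lit 57375) (nat_lit 2) (.e (nat_lit 90160) (nat_lit 11) (.e (nat_lit 24608) (nat_lit 3) (.e (nat_lit 98342) (nat_lit 20) (.e (nat_lit 221214) (nat_lit 23) (.e (nat_lit 204821) (nat_lit 17) (.e (nat_lit 1040) (nat_lit 81) (.e (nat_lit 5195) (nat_lit 294) .nil)))))))) (.g (nat_lit 4) .nil .nil))) 
(.lf (nat_lit 147451) (.g (nat_lit 1665) (.e (nat_lit 57375) (nat_lit 2) (.e (nat_lit 90160) (nat_lit 11) (.e (nat_lit 24665) (nat_lit 14) (.e (nat_lit 401468) (nat_lit 27) .nil)))) .nil)))))) (.nd (nat_lit 3) (.nd (nat_lit 4) (.nd (nat_lit 5) (.nd (nat_lit 6) 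
(.lf (nat_lit 147335) (.g (nat_lit 1324) (.e (nat_lit 57375) (nat_lit 2) (.e (nat_lit 90158) (nat_lit 11) (.e (nat_lit 24655) (nat_lit 13) (.e (nat_lit 393227) (nat_lit 9) .nil)))) .nil)) 
(.lf (nat_lit 147399) (.g (nat_lit 3617) (.e (nat_lit 57375) (nat_lit 2) (.e (nat_lit 90160) (nat_lit 11) (.e (nat_lit 24625) (nat_lit 9) (.e (nat_lit 336454) (nat_lit 34) (.e (nat_lit 483363) (nat_lit 18) (.e (nat_lit 57847) (nat_lit 252) .nil)))))) (.g (nat_lit 0) .nil .nil)))) (.nd (nat_lit 6) 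
(.lf (nat_lit 147367) (.g (nat_lit 730) (.e (nat_lit 57375) (nat_lit 2) (.e (nat_lit 90160) (nat_lit 11) (.e (nat_lit 24580) (nat_lit 0) .nil))) .nil)) 
(.lf (nat_lit 147431) (.g (nat_lit 2413) (.e (nat_lit 57375) (nat_lit 2) (.e (nat_lit 90160) (nat_lit 11) (.e (nat_lit 24657) (nat_lit 13) (.e (nat_lit 401152) (nat_lit 10) (.e (nat_lit 344097) (nat_lit 18) (.e (nat_lit 5194) (nat_lit 294) .nil)))))) (.g (nat_lit 5) .nil .nil))))) (.nd (nat_lit 5) (.nd (nat_lit 6) 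
(.lf (nat_lit 147351) (.g (nat_lit 3443) (.e (nat_lit 57375) (nat_lit 2) (.e (nat_lit 90158) (nat_lit 11) (.e (nat_lit 24658) (nat_lit 13) (.e (nat_lit 393229) (nat_lit 9) (.e (nat_lit 335986) (nat_lit 1) (.e (nat_lit 57849) (nat_lit 252) .nil)))))) (.g (nat_lit 0) .nil .nil))) 
(.lf (nat_lit 147415) (.g (nat_lit 2010) (.e (nat_lit 57375) (nat_lit 2) (.e (nat_lit 90160) (nat_lit 11) (.e (nat_lit 24654) (nat_lit 13) (.e (nat_lit 393229) (nat_lit 9) (.e (nat_lit 335993) (nat_lit 1) .nil))))) .nil))) (.nd (nat_lit 6) 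
(.lf (nat_lit 147383) (.g (nat_lit 3197) (.e (nat_lit 57375) (nat_lit 2) (.e (nat_lit 90160) (nat_lit 11) (.e (nat_lit 24608) (nat_lit 3) (.e (nat_lit 98341) (nat_lit 20) (.e (nat_lit 221215) (nat_lit 23) (.e (nat_lit 204821) (nat_lit 17) (.e (nat_lit 1040) (nat_lit 81) (.e (nat_lit 5195) (nat_lit 294) .nil)))))))) (.g (nat_lit 4) .nil .nil))) 
(.lf (nat_lit 147447) (.g (nat_lit 4047) (.e (nat_lit 57375) (nat_lit 2) (.e (nat_lit 90160) (nat_lit 11) (.e (nat_lit 24665) (nat_lit 14) (.e (nat_lit 401414) (nat_lit 0) (.e (nat_lit 3579) (nat_lit 223) (.e (nat_lit 745492) (nat_lit 5) (.e (nat_lit 73732) (nat_lit 0) (.e (nat_lit 5195) (nat_lit 294) .nil)))))))) (.g (nat_lit 4) .nil .nil)))))) (.nd (nat_lit 4) (.nd (nat_lit 5) (.nd (nat_lit 6) 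
(.lf (nat_lit 147343) (.g (nat_lit 1582) (.e (nat_lit 57375) (nat_lit 2) (.e (nat_lit 90158) (nat_lit 11) (.e (nat_lit 24658) (nat_lit 13) (.e (nat_lit 393224) (nat_lit 9) (.e (nat_lit 335986) (nat_lit 1) .nil))))) .nil)) 
(.lf (nat_lit 147407) (.g (nat_lit 846) (.e (nat_lit 57375) (nat_lit 2) (.e (nat_lit 90160) (nat_lit 11) (.e (nat_lit 24636) (nat_lit 9) (.e (nat_lit 336373) (nat_lit 27) .nil)))) .nil))) (.nd (nat_lit 6) 
(.lf (nat_lit 147375) (.g (nat_lit 3453) (.e (nat_lit 57375) (nat_lit 2) (.e (nat_lit 90160) (nat_lit 11) (.e (nat_lit 24607) (nat_lit 3) (.e (nat_lit 98342) (nat_lit 20) (.e (nat_lit 221212) (nat_lit 22) (.e (nat_lit 196659) (nat_lit 12) (.e (nat_lit 57354) (nat_lit 0) (.e (nat_lit 5195) (nat_lit 294) .nil)))))))) (.g (nat_lit 4) .nil .nil))) 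
(.lf (nat_lit 147439) (.g (nat_lit 3089) (.e (nat_lit 57375) (nat_lit 2) (.e (nat_lit 90160) (nat_lit 11) (.e (nat_lit 24665) (nat_lit 14) (.e (nat_lit 401414) (nat_lit 0) (.e (nat_lit 3578) (nat_lit 223) .nil))))) .nil)))) (.nd (nat_lit 5) (.nd (nat_lit 6) 
(.lf (nat_lit 147359) (.g (nat_lit 2765) (.e (nat_lit 57375) (nat_lit 2) (.e (nat_lit 90159) (nat_lit 11) (.e (nat_lit 24656) (nat_lit 13) (.e (nat_lit 393229) (nat_lit 9) (.e (nat_lit 335995) (nat_lit 1) (.e (nat_lit 57848) (nat_lit 252) .nil)))))) (.g (nat_lit 6) .nil .nil))) 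
(.lf (nat_lit 147423) (.g (nat_lit 2293) (.e (nat_lit 57375) (nat_lit 2) (.e (nat_lit 90160) (nat_lit 11) (.e (nat_lit 24655) (nat_lit 13) (.e (nat_lit 393229) (nat_lit 9) (.e (nat_lit 343808) (nat_lit 1) .nil))))) .nil))) (.nd (nat_lit 6) 
(.lf (nat_lit 147391) (.g (nat_lit 3155) (.e (nat_lit 57375) (nat_lit 2) (.e (nat_lit 90160) (nat_lit 11) (.e (nat_lit 24609) (nat_lit 3) (.e (nat_lit 98342) (nat_lit 20) (.e (nat_lit 221212) (nat_lit 22) (.e (nat_lit 196660) (nat_lit 12) (.e (nat_lit 57354) (nat_lit 0) (.e (nat_lit 5194) (nat_lit 294) .nil)))))))) (.g (nat_lit 4) .nil .nil))) 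
(.lf (nat_lit 147455) (.g (nat_lit 2742) (.e (nat_lit 57375) (nat_lit 2) (.e (nat_lit 90167) (nat_lit 13) (.e (nat_lit 172067) (nat_lit 3) (.e (nat_lit 204837) (nat_lit 20) (.e (nat_lit 114718) (nat_lit 23) (.e (nat_lit 98334) (nat_lit 18) (.e (nat_lit 164398) (nat_lit 256) .nil))))))) (.g (nat_lit 4) .nil .nil))))))))))

noncomputable def tv1960 : DT := (.nd (nat_lit 0) (.nd (nat_lit 1) (.nd (nat_lit 2) (.nd (nat_lit 3) (.nd (nat_lit 4) (.nd (nat_lit 5) 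
(.lf (nat_lit 147456) (.g (nat_lit 2625) (.e (nat_lit 57375) (nat_lit 2) (.e (nat_lit 90167) (nat_lit 13) (.e (nat_lit 172067) (nat_lit 3) (.e (nat_lit 204837) (nat_lit 20) (.e (nat_lit 114718) (nat_lit 23) (.e (nat_lit 98334) (nat_lit 18) (.e (nat_lit 164399) (nat_lit 256) .nil))))))) (.g (nat_lit 4) .nil .nil))) 
(.lf (nat_lit 147488) (.g (nat_lit 3298) (.e (nat_lit 57375) (nat_lit 2) (.e (nat_lit 90172) (nat_lit 14) (.e (nat_lit 180243) (nat_lit 5) (.e (nat_lit 532513) (nat_lit 3) (.e (nat_lit 114714) (nat_lit 22) (.e (nat_lit 90165) (nat_lit 12) (.e (nat_lit 163849) (nat_lit 0) (.e (nat_lit 5934) (nat_lit 322) .nil)))))))) (.g (nat_lit 5) .nil .nil)))) (.nd (nat_lit 5) 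
(.lf (nat_lit 147472) (.g (nat_lit 1374) (.e (nat_lit 57375) (nat_lit 2) (.e (nat_lit 90172) (nat_lit 14) (.e (nat_lit 180243) (nat_lit 5) (.e (nat_lit 532508) (nat_lit 2) (.e (nat_lit 106517) (nat_lit 9) .nil))))) .nil)) 
(.lf (nat_lit 147504) (.g (nat_lit 2455) (.e (nat_lit 57375) (nat_lit 2) (.e (nat_lit 90172) (nat_lit 14) (.e (nat_lit 180243) (nat_lit 5) (.e (nat_lit 532513) (nat_lit 3) (.e (nat_lit 114714) (nat_lit 22) (.e (nat_lit 90181) (nat_lit 16) (.e (nat_lit 229378) (nat_lit 0) (.e (nat_lit 5938) (nat_lit 322) .nil)))))))) (.g (nat_lit 4) .nil .nil))))) (.nd (nat_lit 4) (.nd (nat_lit 5) 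
(.lf (nat_lit 147464) (.g (nat_lit 2377) (.e (nat_lit 57375) (nat_lit 2) (.e (nat_lit 90169) (nat_lit 13) (.e (nat_lit 172133) (nat_lit 15) (.e (nat_lit 2175) (nat_lit 143) (.e (nat_lit 712745) (nat_lit 27) (.e (nat_lit 426532) (nat_lit 28) (.e (nat_lit 344095) (nat_lit 18) (.e (nat_lit 5570) (nat_lit 308) .nil)))))))) (.g (nat_lit 4) .nil .nil))) 
(.lf (nat_lit 147496) (.g (nat_lit 2534) (.e (nat_lit 57375) (nat_lit 2) (.e (nat_lit 90172) (nat_lit 14) (.e (nat_lit 180243) (nat_lit 5) (.e (nat_lit 532513) (nat_lit 3) (.e (nat_lit 114714) (nat_lit 22) (.e (nat_lit 90181) (nat_lit 16) (.e (nat_lit 229376) (nat_lit 0) (.e (nat_lit 5934) (nat_lit 322) .nil)))))))) (.g (nat_lit 4) .nil .nil)))) (.nd (nat_lit 5) 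
(.lf (nat_lit 147480) (.g (nat_lit 1992) (.e (nat_lit 57375) (nat_lit 2) (.e (nat_lit 90172) (nat_lit 14) (.e (nat_lit 180243) (nat_lit 5) (.e (nat_lit 532511) (nat_lit 2) (.e (nat_lit 106539) (nat_lit 12) (.e (nat_lit 57466) (nat_lit 23) (.e (nat_lit 516117) (nat_lit 1) (.e (nat_lit 164400) (nat_lit 256) .nil)))))))) (.g (nat_lit 4) .nil .nil))) 
(.lf (nat_lit 147512) (.g (nat_lit 4035) (.e (nat_lit 57375) (nat_lit 2) (.e (nat_lit 90172) (nat_lit 14) (.e (nat_lit 180243) (nat_lit 5) (.e (nat_lit 532513) (nat_lit 3) (.e (nat_lit 114718) (nat_lit 23) (.e (nat_lit 98333) (nat_lit 18) (.e (nat_lit 164399) (nat_lit 256) .nil))))))) (.g (nat_lit 6) .nil .nil)))))) (.nd (nat_lit 3) (.nd (nat_lit 4) (.nd (nat_lit 5) 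
(.lf (nat_lit 147460) (.g (nat_lit 2506) (.e (nat_lit 57375) (nat_lit 2) (.e (nat_lit 90167) (nat_lit 13) (.e (nat_lit 172067) (nat_lit 3) (.e (nat_lit 204838) (nat_lit 20) (.e (nat_lit 114718) (nat_lit 23) (.e (nat_lit 98334) (nat_lit 18) (.e (nat_lit 164400) (nat_lit 256) .nil))))))) (.g (nat_lit 4) .nil .nil))) 
(.lf (nat_lit 147492) (.g (nat_lit 2341) (.e (nat_lit 57375) (nat_lit 2) (.e (nat_lit 90172) (nat_lit 14) (.e (nat_lit 180243) (nat_lit 5) (.e (nat_lit 532513) (nat_lit 3) (.e (nat_lit 114714) (nat_lit 22) (.e (nat_lit 90165) (nat_lit 12) (.e (nat_lit 171776) (nat_lit 0) (.e (nat_lit 5936) (nat_lit 322) .nil)))))))) (.g (nat_lit 4) .nil .nil)))) (.nd (nat_lit 5) 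
(.lf (nat_lit 147476) (.g (nat_lit 2290) (.e (nat_lit 57375) (nat_lit 2) (.e (nat_lit 90172) (nat_lit 14) (.e (nat_lit 180243) (nat_lit 5) (.e (nat_lit 532510) (nat_lit 2) (.e (nat_lit 106541) (nat_lit 13) (.e (nat_lit 122936) (nat_lit 23) (.e (nat_lit 516115) (nat_lit 1) (.e (nat_lit 164399) (nat_lit 256) .nil)))))))) (.g (nat_lit 4) .nil .nil))) 
(.lf (nat_lit 147508) (.g (nat_lit 2480) (.e (nat_lit 57375) (nat_lit 2) (.e (nat_lit 90172) (nat_lit 14) (.e (nat_lit 180243) (nat_lit 5) (.e (nat_lit 532513) (nat_lit 3) (.e (nat_lit 114717) (nat_lit 23) (.e (nat_lit 98334) (nat_lit 18) (.e (nat_lit 164399) (nat_lit 256) .nil))))))) (.g (nat_lit 4) .nil .nil))))) (.nd (nat_lit 4) (.nd (nat_lit 5) 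
(.lf (nat_lit 147468) (.g (nat_lit 2542) (.e (nat_lit 57375) (nat_lit 2) (.e (nat_lit 90172) (nat_lit 14) (.e (nat_lit 180233) (nat_lit 0) (.e (nat_lit 5599) (nat_lit 310) (.e (nat_lit 163905) (nat_lit 12) (.e (nat_lit 426533) (nat_lit 28) (.e (nat_lit 344094) (nat_lit 18) (.e (nat_lit 5570) (nat_lit 308) .nil)))))))) (.g (nat_lit 5) .nil .nil))) 
(.lf (nat_lit 147500) (.g (nat_lit 3253) (.e (nat_lit 57375) (nat_lit 2) (.e (nat_lit 90172) (nat_lit 14) (.e (nat_lit 180243) (nat_lit 5) (.e (nat_lit 532513) (nat_lit 3) (.e (nat_lit 114714) (nat_lit 22) (.e (nat_lit 90181) (nat_lit 16) (.e (nat_lit 229376) (nat_lit 0) (.e (nat_lit 5939) (nat_lit 322) .nil)))))))) (.g (nat_lit 5) .nil .nil)))) (.nd (nat_lit 5) 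
(.lf (nat_lit 147484) (.g (nat_lit 2460) (.e (nat_lit 57375) (nat_lit 2) (.e (nat_lit 90172) (nat_lit 14) (.e (nat_lit 180243) (nat_lit 5) (.e (nat_lit 532513) (nat_lit 3) (.e (nat_lit 114714) (nat_lit 22) (.e (nat_lit 90134) (nat_lit 9) (.e (nat_lit 2717) (nat_lit 171) (.e (nat_lit 229707) (nat_lit 256) .nil)))))))) (.g (nat_lit 4) .nil .nil))) 
(.lf (nat_lit 147516) (.g (nat_lit 3332) (.e (nat_lit 57375) (nat_lit 2) (.e (nat_lit 90172) (nat_lit 14) (.e (nat_lit 180243) (nat_lit 5) (.e (nat_lit 532513) (nat_lit 3) (.e (nat_lit 114719) (nat_lit 23) (.e (nat_lit 98333) (nat_lit 18) (.e (nat_lit 164397) (nat_lit 256) .nil))))))) (.g (nat_lit 5) .nil .nil))))))) (.nd (nat_lit 2) (.nd (nat_lit 3) (.nd (nat_lit 4) (.nd (nat_lit 5) 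
(.lf (nat_lit 147458) (.g (nat_lit 3087) (.e (nat_lit 57375) (nat_lit 2) (.e (nat_lit 90167) (nat_lit 13) (.e (nat_lit 172067) (nat_lit 3) (.e (nat_lit 204838) (nat_lit 20) (.e (nat_lit 114718) (nat_lit 23) (.e (nat_lit 98333) (nat_lit 18) (.e (nat_lit 164399) (nat_lit 256) .nil))))))) (.g (nat_lit 5) .nil .nil))) 
(.lf (nat_lit 147490) (.g (nat_lit 3159) (.e (nat_lit 57375) (nat_lit 2) (.e (nat_lit 90172) (nat_lit 14) (.e (nat_lit 180243) (nat_lit 5) (.e (nat_lit 532513) (nat_lit 3) (.e (nat_lit 114714) (nat_lit 22) (.e (nat_lit 90165) (nat_lit 12) (.e (nat_lit 163857) (nat_lit 0) (.e (nat_lit 5934) (nat_lit 322) .nil)))))))) (.g (nat_lit 5) .nil .nil)))) (.nd (nat_lit 5) 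
(.lf (nat_lit 147474) (.g (nat_lit 1981) (.e (nat_lit 57375) (nat_lit 2) (.e (nat_lit 90172) (nat_lit 14) (.e (nat_lit 180243) (nat_lit 5) (.e (nat_lit 532508) (nat_lit 2) (.e (nat_lit 106540) (nat_lit 13) (.e (nat_lit 122936) (nat_lit 23) (.e (nat_lit 516117) (nat_lit 1) (.e (nat_lit 164397) (nat_lit 256) .nil)))))))) (.g (nat_lit 4) .nil .nil))) 
(.lf (nat_lit 147506) (.g (nat_lit 2619) (.e (nat_lit 57375) (nat_lit 2) (.e (nat_lit 90172) (nat_lit 14) (.e (nat_lit 180243) (nat_lit 5) (.e (nat_lit 532513) (nat_lit 3) (.e (nat_lit 114714) (nat_lit 22) (.e (nat_lit 90182) (nat_lit 16) (.e (nat_lit 229379) (nat_lit 0) (.e (nat_lit 5939) (nat_lit 322) .nil)))))))) (.g (nat_lit 4) .nil .nil))))) (.nd (nat_lit 4) (.nd (nat_lit 5) 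
(.lf (nat_lit 147466) (.g (nat_lit 2651) (.e (nat_lit 57375) (nat_lit 2) (.e (nat_lit 90170) (nat_lit 13) (.e (nat_lit 172106) (nat_lit 10) (.e (nat_lit 434231) (nat_lit 23) .nil)))) .nil)) 
(.lf (nat_lit 147498) (.g (nat_lit 2646) (.e (nat_lit 57375) (nat_lit 2) (.e (nat_lit 90172) (nat_lit 14) (.e (nat_lit 180243) (nat_lit 5) (.e (nat_lit 532513) (nat_lit 3) (.e (nat_lit 114714) (nat_lit 22) (.e (nat_lit 90181) (nat_lit 16) (.e (nat_lit 229376) (nat_lit 0) (.e (nat_lit 5936) (nat_lit 322) .nil)))))))) (.g (nat_lit 4) .nil .nil)))) (.nd (nat_lit 5) 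
(.lf (nat_lit 147482) (.g (nat_lit 2833) (.e (nat_lit 57375) (nat_lit 2) (.e (nat_lit 90172) (nat_lit 14) (.e (nat_lit 180243) (nat_lit 5) (.e (nat_lit 532513) (nat_lit 3) (.e (nat_lit 114707) (nat_lit 20) (.e (nat_lit 1800) (nat_lit 119) (.e (nat_lit 516117) (nat_lit 1) (.e (nat_lit 164400) (nat_lit 256) .nil)))))))) (.g (nat_lit 4) .nil .nil))) 
(.lf (nat_lit 147514) (.g (nat_lit 3909) (.e (nat_lit 57375) (nat_lit 2) (.e (nat_lit 90172) (nat_lit 14) (.e (nat_lit 180243) (nat_lit 5) (.e (nat_lit 532513) (nat_lit 3) (.e (nat_lit 114718) (nat_lit 23) (.e (nat_lit 98334) (nat_lit 18) (.e (nat_lit 164399) (nat_lit 256) .nil))))))) (.g (nat_lit 6) .nil .nil)))))) (.nd (nat_lit 3) (.nd (nat_lit 4) (.nd (nat_lit 5) 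
(.lf (nat_lit 147462) (.g (nat_lit 2363) (.e (nat_lit 57375) (nat_lit 2) (.e (nat_lit 90168) (nat_lit 13) (.e (nat_lit 172067) (nat_lit 3) (.e (nat_lit 204838) (nat_lit 20) (.e (nat_lit 114718) (nat_lit 23) (.e (nat_lit 98333) (nat_lit 18) (.e (nat_lit 164399) (nat_lit 256) .nil))))))) (.g (nat_lit 4) .nil .nil))) 
(.lf (nat_lit 147494) (.g (nat_lit 3331) (.e (nat_lit 57375) (nat_lit 2) (.e (nat_lit 90172) (nat_lit 14) (.e (nat_lit 180243) (nat_lit 5) (.e (nat_lit 532513) (nat_lit 3) (.e (nat_lit 114714) (nat_lit 22) (.e (nat_lit 90165) (nat_lit 12) (.e (nat_lit 171776) (nat_lit 0) (.e (nat_lit 5939) (nat_lit 322) .nil)))))))) (.g (nat_lit 5) .nil .nil)))) (.nd (nat_lit 5) 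
(.lf (nat_lit 147478) (.g (nat_lit 2280) (.e (nat_lit 57375) (nat_lit 2) (.e (nat_lit 90172) (nat_lit 14) (.e (nat_lit 180243) (nat_lit 5) (.e (nat_lit 532510) (nat_lit 2) (.e (nat_lit 106541) (nat_lit 13) (.e (nat_lit 122936) (nat_lit 23) (.e (nat_lit 516117) (nat_lit 1) (.e (nat_lit 164400) (nat_lit 256) .nil)))))))) (.g (nat_lit 4) .nil .nil))) 
(.lf (nat_lit 147510) (.g (nat_lit 3459) (.e (nat_lit 57375) (nat_lit 2) (.e (nat_lit 90172) (nat_lit 14) (.e (nat_lit 180243) (nat_lit 5) (.e (nat_lit 532513) (nat_lit 3) (.e (nat_lit 114718) (nat_lit 23) (.e (nat_lit 98333) (nat_lit 18) (.e (nat_lit 164397) (nat_lit 256) .nil))))))) (.g (nat_lit 5) .nil .nil))))) (.nd (nat_lit 4) (.nd (nat_lit 5) 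
(.lf (nat_lit 147470) (.g (nat_lit 431) (.e (nat_lit 57375) (nat_lit 2) (.e (nat_lit 90172) (nat_lit 14) (.e (nat_lit 180242) (nat_lit 5) .nil))) .nil)) 
(.lf (nat_lit 147502) (.g (nat_lit 2120) (.e (nat_lit 57375) (nat_lit 2) (.e (nat_lit 90172) (nat_lit 14) (.e (nat_lit 180243) (nat_lit 5) (.e (nat_lit 532513) (nat_lit 3) (.e (nat_lit 114714) (nat_lit 22) (.e (nat_lit 90181) (nat_lit 16) (.e (nat_lit 229377) (nat_lit 0) (.e (nat_lit 5934) (nat_lit 322) .nil)))))))) (.g (nat_lit 4) .nil .nil)))) (.nd (nat_lit 5) 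
(.lf (nat_lit 147486) (.g (nat_lit 2250) (.e (nat_lit 57375) (nat_lit 2) (.e (nat_lit 90172) (nat_lit 14) (.e (nat_lit 180243) (nat_lit 5) (.e (nat_lit 532513) (nat_lit 3) (.e (nat_lit 114714) (nat_lit 22) (.e (nat_lit 90164) (nat_lit 12) (.e (nat_lit 163850) (nat_lit 0) (.e (nat_lit 5938) (nat_lit 322) .nil)))))))) (.g (nat_lit 4) .nil .nil))) 
(.lf (nat_lit 147518) (.g (nat_lit 3805) (.e (nat_lit 57375) (nat_lit 2) (.e (nat_lit 90172) (nat_lit 14) (.e (nat_lit 180243) (nat_lit 5) (.e (nat_lit 532513) (nat_lit 3) (.e (nat_lit 114719) (nat_lit 23) (.e (nat_lit 98333) (nat_lit 18) (.e (nat_lit 164399) (nat_lit 256) .nil))))))) (.g (nat_lit 6) .nil .nil)))))))) 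
(.nd (nat_lit 1) (.nd (nat_lit 2) (.nd (nat_lit 3) (.nd (nat_lit 4) (.nd (nat_lit 5) 
(.lf (nat_lit 147457) (.g (nat_lit 2327) (.e (nat_lit 57375) (nat_lit 2) (.e (nat_lit 90167) (nat_lit 13) (.e (nat_lit 172067) (nat_lit 3) (.e (nat_lit 204837) (nat_lit 20) (.e (nat_lit 114719) (nat_lit 23) (.e (nat_lit 98334) (nat_lit 18) (.e (nat_lit 164399) (nat_lit 256) .nil))))))) (.g (nat_lit 4) .nil .nil))) 
(.lf (nat_lit 147489) (.g (nat_lit 2446) (.e (nat_lit 57375) (nat_lit 2) (.e (nat_lit 90172) (nat_lit 14) (.e (nat_lit 180243) (nat_lit 5) (.e (nat_lit 532513) (nat_lit 3) (.e (nat_lit 114714) (nat_lit 22) (.e (nat_lit 90165) (nat_lit 12) (.e (nat_lit 163853) (nat_lit 0) (.e (nat_lit 5934) (nat_lit 322) .nil)))))))) (.g (nat_lit 4) .nil .nil)))) (.nd (nat_lit 5) 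
(.lf (nat_lit 147473) (.g (nat_lit 2078) (.e (nat_lit 57375) (nat_lit 2) (.e (nat_lit 90172) (nat_lit 14) (.e (nat_lit 180243) (nat_lit 5) (.e (nat_lit 532508) (nat_lit 2) (.e (nat_lit 106539) (nat_lit 12) (.e (nat_lit 57466) (nat_lit 23) (.e (nat_lit 516117) (nat_lit 1) (.e (nat_lit 164400) (nat_lit 256) .nil)))))))) (.g (nat_lit 4) .nil .nil))) 
(.lf (nat_lit 147505) (.g (nat_lit 2418) (.e (nat_lit 57375) (nat_lit 2) (.e (nat_lit 90172) (nat_lit 14) (.e (nat_lit 180243) (nat_lit 5) (.e (nat_lit 532513) (nat_lit 3) (.e (nat_lit 114714) (nat_lit 22) (.e (nat_lit 90181) (nat_lit 16) (.e (nat_lit 229380) (nat_lit 0) (.e (nat_lit 5934) (nat_lit 322) .nil)))))))) (.g (nat_lit 4) .nil .nil))))) (.nd (nat_lit 4) (.nd (nat_lit 5) 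
(.lf (nat_lit 147465) (.g (nat_lit 859) (.e (nat_lit 57375) (nat_lit 2) (.e (nat_lit 90170) (nat_lit 13) (.e (nat_lit 172065) (nat_lit 3) .nil))) .nil)) 
(.lf (nat_lit 147497) (.g (nat_lit 2838) (.e (nat_lit 57375) (nat_lit 2) (.e (nat_lit 90172) (nat_lit 14) (.e (nat_lit 180243) (nat_lit 5) (.e (nat_lit 532513) (nat_lit 3) (.e (nat_lit 114714) (nat_lit 22) (.e (nat_lit 90181) (nat_lit 16) (.e (nat_lit 229376) (nat_lit 0) (.e (nat_lit 5935) (nat_lit 322) .nil)))))))) (.g (nat_lit 5) .nil .nil)))) (.nd (nat_lit 5) 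
(.lf (nat_lit 147481) (.g (nat_lit 2102) (.e (nat_lit 57375) (nat_lit 2) (.e (nat_lit 90172) (nat_lit 14) (.e (nat_lit 180243) (nat_lit 5) (.e (nat_lit 532511) (nat_lit 2) (.e (nat_lit 106541) (nat_lit 13) (.e (nat_lit 122936) (nat_lit 23) (.e (nat_lit 516117) (nat_lit 1) (.e (nat_lit 164400) (nat_lit 256) .nil)))))))) (.g (nat_lit 4) .nil .nil))) 
(.lf (nat_lit 147513) (.g (nat_lit 3712) (.e (nat_lit 57375) (nat_lit 2) (.e (nat_lit 90172) (nat_lit 14) (.e (nat_lit 180243) (nat_lit 5) (.e (nat_lit 532513) (nat_lit 3) (.e (nat_lit 114718) (nat_lit 23) (.e (nat_lit 98333) (nat_lit 18) (.e (nat_lit 164400) (nat_lit 256) .nil))))))) (.g (nat_lit 5) .nil .nil)))))) (.nd (nat_lit 3) (.nd (nat_lit 4) (.nd (nat_lit 5) 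
(.lf (nat_lit 147461) (.g (nat_lit 2644) (.e (nat_lit 57375) (nat_lit 2) (.e (nat_lit 90167) (nat_lit 13) (.e (nat_lit 172067) (nat_lit 3) (.e (nat_lit 204838) (nat_lit 20) (.e (nat_lit 114719) (nat_lit 23) (.e (nat_lit 98334) (nat_lit 18) (.e (nat_lit 164399) (nat_lit 256) .nil))))))) (.g (nat_lit 4) .nil .nil))) 
(.lf (nat_lit 147493) (.g (nat_lit 2098) (.e (nat_lit 57375) (nat_lit 2) (.e (nat_lit 90172) (nat_lit 14) (.e (nat_lit 180243) (nat_lit 5) (.e (nat_lit 532513) (nat_lit 3) (.e (nat_lit 114714) (nat_lit 22) (.e (nat_lit 90165) (nat_lit 12) (.e (nat_lit 171776) (nat_lit 0) (.e (nat_lit 5938) (nat_lit 322) .nil)))))))) (.g (nat_lit 4) .nil .nil)))) (.nd (nat_lit 5) 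
(.lf (nat_lit 147477) (.g (nat_lit 2338) (.e (nat_lit 57375) (nat_lit 2) (.e (nat_lit 90172) (nat_lit 14) (.e (nat_lit 180243) (nat_lit 5) (.e (nat_lit 532510) (nat_lit 2) (.e (nat_lit 106541) (nat_lit 13) (.e (nat_lit 122936) (nat_lit 23) (.e (nat_lit 516117) (nat_lit 1) (.e (nat_lit 164399) (nat_lit 256) .nil)))))))) (.g (nat_lit 4) .nil .nil))) 
(.lf (nat_lit 147509) (.g (nat_lit 2204) (.e (nat_lit 57375) (nat_lit 2) (.e (nat_lit 90172) (nat_lit 14) (.e (nat_lit 180243) (nat_lit 5) (.e (nat_lit 532513) (nat_lit 3) (.e (nat_lit 114717) (nat_lit 23) (.e (nat_lit 98334) (nat_lit 18) (.e (nat_lit 164400) (nat_lit 256) .nil))))))) (.g (nat_lit 4) .nil .nil))))) (.nd (nat_lit 4) (.nd (nat_lit 5) 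
(.lf (nat_lit 147469) (.g (nat_lit 1991) (.e (nat_lit 57375) (nat_lit 2) (.e (nat_lit 90172) (nat_lit 14) (.e (nat_lit 180233) (nat_lit 0) (.e (nat_lit 5599) (nat_lit 310) (.e (nat_lit 163941) (nat_lit 19) (.e (nat_lit 483361) (nat_lit 17) (.e (nat_lit 1010) (nat_lit 81) (.e (nat_lit 5570) (nat_lit 308) .nil)))))))) (.g (nat_lit 4) .nil .nil))) 
(.lf (nat_lit 147501) (.g (nat_lit 2201) (.e (nat_lit 57375) (nat_lit 2) (.e (nat_lit 90172) (nat_lit 14) (.e (nat_lit 180243) (nat_lit 5) (.e (nat_lit 532513) (nat_lit 3) (.e (nat_lit 114714) (nat_lit 22) (.e (nat_lit 90181) (nat_lit 16) (.e (nat_lit 229376) (nat_lit 0) (.e (nat_lit 5940) (nat_lit 322) .nil)))))))) (.g (nat_lit 4) .nil .nil)))) (.nd (nat_lit 5) 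
(.lf (nat_lit 147485) (.g (nat_lit 3437) (.e (nat_lit 57375) (nat_lit 2) (.e (nat_lit 90172) (nat_lit 14) (.e (nat_lit 180243) (nat_lit 5) (.e (nat_lit 532513) (nat_lit 3) (.e (nat_lit 114714) (nat_lit 22) (.e (nat_lit 90162) (nat_lit 12) (.e (nat_lit 163849) (nat_lit 0) (.e (nat_lit 5934) (nat_lit 322) .nil)))))))) (.g (nat_lit 5) .nil .nil))) 
(.lf (nat_lit 147517) (.g (nat_lit 3324) (.e (nat_lit 57375) (nat_lit 2) (.e (nat_lit 90172) (nat_lit 14) (.e (nat_lit 180243) (nat_lit 5) (.e (nat_lit 532513) (nat_lit 3) (.e (nat_lit 114719) (nat_lit 23) (.e (nat_lit 98333) (nat_lit 18) (.e (nat_lit 164398) (nat_lit 256) .nil))))))) (.g (nat_lit 5) .nil .nil))))))) (.nd (nat_lit 2) (.nd (nat_lit 3) (.nd (nat_lit 4) (.nd (nat_lit 5) 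
(.lf (nat_lit 147459) (.g (nat_lit 2928) (.e (nat_lit 57375) (nat_lit 2) (.e (nat_lit 90167) (nat_lit 13) (.e (nat_lit 172067) (nat_lit 3) (.e (nat_lit 204838) (nat_lit 20) (.e (nat_lit 114718) (nat_lit 23) (.e (nat_lit 98334) (nat_lit 18) (.e (nat_lit 164399) (nat_lit 256) .nil))))))) (.g (nat_lit 4) .nil .nil))) 
(.lf (nat_lit 147491) (.g (nat_lit 2497) (.e (nat_lit 57375) (nat_lit 2) (.e (nat_lit 90172) (nat_lit 14) (.e (nat_lit 180243) (nat_lit 5) (.e (nat_lit 532513) (nat_lit 3) (.e (nat_lit 114714) (nat_lit 22) (.e (nat_lit 90165) (nat_lit 12) (.e (nat_lit 171776) (nat_lit 0) (.e (nat_lit 5933) (nat_lit 322) .nil)))))))) (.g (nat_lit 4) .nil .nil)))) (.nd (nat_lit 5) 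
(.lf (nat_lit 147475) (.g (nat_lit 1988) (.e (nat_lit 57375) (nat_lit 2) (.e (nat_lit 90172) (nat_lit 14) (.e (nat_lit 180243) (nat_lit 5) (.e (nat_lit 532508) (nat_lit 2) (.e (nat_lit 114432) (nat_lit 13) (.e (nat_lit 122936) (nat_lit 23) (.e (nat_lit 516117) (nat_lit 1) (.e (nat_lit 164397) (nat_lit 256) .nil)))))))) (.g (nat_lit 4) .nil .nil))) 
(.lf (nat_lit 147507) (.g (nat_lit 2418) (.e (nat_lit 57375) (nat_lit 2) (.e (nat_lit 90172) (nat_lit 14) (.e (nat_lit 180243) (nat_lit 5) (.e (nat_lit 532513) (nat_lit 3) (.e (nat_lit 114717) (nat_lit 23) (.e (nat_lit 98334) (nat_lit 18) (.e (nat_lit 164397) (nat_lit 256) .nil))))))) (.g (nat_lit 4) .nil .nil))))) (.nd (nat_lit 4) (.nd (nat_lit 5) 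
(.lf (nat_lit 147467) (.g (nat_lit 2824) (.e (nat_lit 57375) (nat_lit 2) (.e (nat_lit 90170) (nat_lit 13) (.e (nat_lit 172106) (nat_lit 10) (.e (nat_lit 434244) (nat_lit 28) (.e (nat_lit 573471) (nat_lit 11) .nil))))) .nil)) 
(.lf (nat_lit 147499) (.g (nat_lit 2825) (.e (nat_lit 57375) (nat_lit 2) (.e (nat_lit 90172) (nat_lit 14) (.e (nat_lit 180243) (nat_lit 5) (.e (nat_lit 532513) (nat_lit 3) (.e (nat_lit 114714) (nat_lit 22) (.e (nat_lit 90181) (nat_lit 16) (.e (nat_lit 229376) (nat_lit 0) (.e (nat_lit 5938) (nat_lit 322) .nil)))))))) (.g (nat_lit 5) .nil .nil)))) (.nd (nat_lit 5) 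
(.lf (nat_lit 147483) (.g (nat_lit 2432) (.e (nat_lit 57375) (nat_lit 2) (.e (nat_lit 90172) (nat_lit 14) (.e (nat_lit 180243) (nat_lit 5) (.e (nat_lit 532513) (nat_lit 3) (.e (nat_lit 114708) (nat_lit 20) (.e (nat_lit 1800) (nat_lit 119) (.e (nat_lit 516117) (nat_lit 1) (.e (nat_lit 164397) (nat_lit 256) .nil)))))))) (.g (nat_lit 4) .nil .nil))) 
(.lf (nat_lit 147515) (.g (nat_lit 3801) (.e (nat_lit 57375) (nat_lit 2) (.e (nat_lit 90172) (nat_lit 14) (.e (nat_lit 180243) (nat_lit 5) (.e (nat_lit 532513) (nat_lit 3) (.e (nat_lit 114718) (nat_lit 23) (.e (nat_lit 98334) (nat_lit 18) (.e (nat_lit 164400) (nat_lit 256) .nil))))))) (.g (nat_lit 5) .nil .nil)))))) (.nd (nat_lit 3) (.nd (nat_lit 4) (.nd (nat_lit 5) 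
(.lf (nat_lit 147463) (.g (nat_lit 2204) (.e (nat_lit 57375) (nat_lit 2) (.e (nat_lit 90168) (nat_lit 13) (.e (nat_lit 172067) (nat_lit 3) (.e (nat_lit 204838) (nat_lit 20) (.e (nat_lit 114718) (nat_lit 23) (.e (nat_lit 98334) (nat_lit 18) (.e (nat_lit 164399) (nat_lit 256) .nil))))))) (.g (nat_lit 4) .nil .nil))) 
(.lf (nat_lit 147495) (.g (nat_lit 2560) (.e (nat_lit 57375) (nat_lit 2) (.e (nat_lit 90172) (nat_lit 14) (.e (nat_lit 180243) (nat_lit 5) (.e (nat_lit 532513) (nat_lit 3) (.e (nat_lit 114714) (nat_lit 22) (.e (nat_lit 90180) (nat_lit 16) (.e (nat_lit 229379) (nat_lit 0) (.e (nat_lit 5939) (nat_lit 322) .nil)))))))) (.g (nat_lit 4) .nil .nil)))) (.nd (nat_lit 5) 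
(.lf (nat_lit 147479) (.g (nat_lit 2453) (.e (nat_lit 57375) (nat_lit 2) (.e (nat_lit 90172) (nat_lit 14) (.e (nat_lit 180243) (nat_lit 5) (.e (nat_lit 532511) (nat_lit 2) (.e (nat_lit 106537) (nat_lit 12) (.e (nat_lit 57464) (nat_lit 23) (.e (nat_lit 516115) (nat_lit 1) (.e (nat_lit 164399) (nat_lit 256) .nil)))))))) (.g (nat_lit 4) .nil .nil))) 
(.lf (nat_lit 147511) (.g (nat_lit 3516) (.e (nat_lit 57375) (nat_lit 2) (.e (nat_lit 90172) (nat_lit 14) (.e (nat_lit 180243) (nat_lit 5) (.e (nat_lit 532513) (nat_lit 3) (.e (nat_lit 114718) (nat_lit 23) (.e (nat_lit 98333) (nat_lit 18) (.e (nat_lit 164398) (nat_lit 256) .nil))))))) (.g (nat_lit 5) .nil .nil))))) (.nd (nat_lit 4) (.nd (nat_lit 5) 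
(.lf (nat_lit 147471) (.g (nat_lit 429) (.e (nat_lit 57375) (nat_lit 2) (.e (nat_lit 90172) (nat_lit 14) (.e (nat_lit 180243) (nat_lit 5) .nil))) .nil)) 
(.lf (nat_lit 147503) (.g (nat_lit 2153) (.e (nat_lit 57375) (nat_lit 2) (.e (nat_lit 90172) (nat_lit 14) (.e (nat_lit 180243) (nat_lit 5) (.e (nat_lit 532513) (nat_lit 3) (.e (nat_lit 114714) (nat_lit 22) (.e (nat_lit 90181) (nat_lit 16) (.e (nat_lit 229378) (nat_lit 0) (.e (nat_lit 5935) (nat_lit 322) .nil)))))))) (.g (nat_lit 4) .nil .nil)))) (.nd (nat_lit 5) 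
(.lf (nat_lit 147487) (.g (nat_lit 4269) (.e (nat_lit 57375) (nat_lit 2) (.e (nat_lit 90172) (nat_lit 14) (.e (nat_lit 180243) (nat_lit 5) (.e (nat_lit 532513) (nat_lit 3) (.e (nat_lit 114714) (nat_lit 22) (.e (nat_lit 90164) (nat_lit 12) (.e (nat_lit 163850) (nat_lit 0) (.e (nat_lit 5939) (nat_lit 322) .nil)))))))) (.g (nat_lit 7) .nil .nil))) 
(.lf (nat_lit 147519) (.g (nat_lit 3421) (.e (nat_lit 57375) (nat_lit 2) (.e (nat_lit 90172) (nat_lit 14) (.e (nat_lit 180243) (nat_lit 5) (.e (nat_lit 532513) (nat_lit 3) (.e (nat_lit 114719) (nat_lit 23) (.e (nat_lit 98333) (nat_lit 18) (.e (nat_lit 164400) (nat_lit 256) .nil))))))) (.g (nat_lit 5) .nil .nil)))))))))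

noncomputable def tv1961 : DT := (.nd (nat_lit 0) (.nd (nat_lit 1) (.nd (nat_lit 2) (.nd (nat_lit 3) (.nd (nat_lit 4) (.nd (nat_lit 5) 
(.lf (nat_lit 147520) (.g (nat_lit 2762) (.e (nat_lit 57375) (nat_lit 2) (.e (nat_lit 90172) (nat_lit 14) (.e (nat_lit 180243) (nat_lit 5) (.e (nat_lit 532513) (nat_lit 3) (.e (nat_lit 114719) (nat_lit 23) (.e (nat_lit 98334) (nat_lit 18) (.e (nat_lit 164396) (nat_lit 256) .nil))))))) (.g (nat_lit 4) .nil .nil))) 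
(.lf (nat_lit 147552) (.g (nat_lit 2206) (.e (nat_lit 57375) (nat_lit 2) (.e (nat_lit 90172) (nat_lit 14) (.e (nat_lit 180243) (nat_lit 5) (.e (nat_lit 532515) (nat_lit 3) (.e (nat_lit 114719) (nat_lit 23) (.e (nat_lit 98332) (nat_lit 18) (.e (nat_lit 164398) (nat_lit 256) .nil))))))) (.g (nat_lit 4) .nil .nil)))) (.nd (nat_lit 5) 
(.lf (nat_lit 147536) (.g (nat_lit 2024) (.e (nat_lit 57375) (nat_lit 2) (.e (nat_lit 90172) (nat_lit 14) (.e (nat_lit 180243) (nat_lit 5) (.e (nat_lit 532515) (nat_lit 3) (.e (nat_lit 114716) (nat_lit 22) (.e (nat_lit 90181) (nat_lit 16) (.e (nat_lit 229376) (nat_lit 0) (.e (nat_lit 5940) (nat_lit 322) .nil)))))))) (.g (nat_lit 4) .nil .nil))) 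
(.lf (nat_lit 147568) (.g (nat_lit 2495) (.e (nat_lit 57375) (nat_lit 2) (.e (nat_lit 90172) (nat_lit 14) (.e (nat_lit 180244) (nat_lit 5) (.e (nat_lit 532508) (nat_lit 2) (.e (nat_lit 106517) (nat_lit 9) (.e (nat_lit 1255) (nat_lit 92) (.e (nat_lit 98321) (nat_lit 17) (.e (nat_lit 2464) (nat_lit 157) (.e (nat_lit 5935) (nat_lit 322) .nil))))))))) (.g (nat_lit 4) .nil .nil))))) 
(.nd (nat_lit 4) (.nd (nat_lit 5) 
(.lf (nat_lit 147528) (.g (nat_lit 2256) (.e (nat_lit 57375) (nat_lit 2) (.e (nat_lit 90172) (nat_lit 14) (.e (nat_lit 180243) (nat_lit 5) (.e (nat_lit 532515) (nat_lit 3) (.e (nat_lit 114715) (nat_lit 22) (.e (nat_lit 90165) (nat_lit 12) (.e (nat_lit 171776) (nat_lit 0) (.e (nat_lit 5939) (nat_lit 322) .nil)))))))) (.g (nat_lit 4) .nil .nil))) 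
(.lf (nat_lit 147560) (.g (nat_lit 2996) (.e (nat_lit 57375) (nat_lit 2) (.e (nat_lit 90172) (nat_lit 14) (.e (nat_lit 180243) (nat_lit 5) (.e (nat_lit 532515) (nat_lit 3) (.e (nat_lit 114719) (nat_lit 23) (.e (nat_lit 98334) (nat_lit 18) (.e (nat_lit 164400) (nat_lit 256) .nil))))))) (.g (nat_lit 5) .nil .nil)))) (.nd (nat_lit 5) 
(.lf (nat_lit 147544) (.g (nat_lit 2382) (.e (nat_lit 57375) (nat_lit 2) (.e (nat_lit 90172) (nat_lit 14) (.e (nat_lit 180243) (nat_lit 5) (.e (nat_lit 532515) (nat_lit 3) (.e (nat_lit 114718) (nat_lit 23) (.e (nat_lit 98333) (nat_lit 18) (.e (nat_lit 164397) (nat_lit 256) .nil))))))) (.g (nat_lit 4) .nil .nil))) 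
(.lf (nat_lit 147576) (.g (nat_lit 1002) (.e (nat_lit 57375) (nat_lit 2) (.e (nat_lit 90172) (nat_lit 14) (.e (nat_lit 180244) (nat_lit 5) (.e (nat_lit 532513) (nat_lit 3) .nil)))) .nil))))) (.nd (nat_lit 3) (.nd (nat_lit 4) (.nd (nat_lit 5) 
(.lf (nat_lit 147524) (.g (nat_lit 3433) (.e (nat_lit 57375) (nat_lit 2) (.e (nat_lit 90172) (nat_lit 14) (.e (nat_lit 180243) (nat_lit 5) (.e (nat_lit 532513) (nat_lit 3) (.e (nat_lit 114719) (nat_lit 23) (.e (nat_lit 98334) (nat_lit 18) (.e (nat_lit 164400) (nat_lit 256) .nil))))))) (.g (nat_lit 5) .nil .nil))) 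
(.lf (nat_lit 147556) (.g (nat_lit 2886) (.e (nat_lit 57375) (nat_lit 2) (.e (nat_lit 90172) (nat_lit 14) (.e (nat_lit 180243) (nat_lit 5) (.e (nat_lit 532515) (nat_lit 3) (.e (nat_lit 114719) (nat_lit 23) (.e (nat_lit 98333) (nat_lit 18) (.e (nat_lit 164400) (nat_lit 256) .nil))))))) (.g (nat_lit 5) .nil .nil)))) (.nd (nat_lit 5) 
(.lf (nat_lit 147540) (.g (nat_lit 2735) (.e (nat_lit 57375) (nat_lit 2) (.e (nat_lit 90172) (nat_lit 14) (.e (nat_lit 180243) (nat_lit 5) (.e (nat_lit 532515) (nat_lit 3) (.e (nat_lit 114716) (nat_lit 22) (.e (nat_lit 90181) (nat_lit 16) (.e (nat_lit 237312) (nat_lit 0) (.e (nat_lit 5937) (nat_lit 322) .nil)))))))) (.g (nat_lit 4) .nil .nil))) 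
(.lf (nat_lit 147572) (.g (nat_lit 2541) (.e (nat_lit 57375) (nat_lit 2) (.e (nat_lit 90172) (nat_lit 14) (.e (nat_lit 180244) (nat_lit 5) (.e (nat_lit 532508) (nat_lit 2) (.e (nat_lit 106540) (nat_lit 13) (.e (nat_lit 122936) (nat_lit 23) (.e (nat_lit 516117) (nat_lit 1) (.e (nat_lit 164397) (nat_lit 256) .nil)))))))) (.g (nat_lit 4) .nil .nil))))) (.nd (nat_lit 4) (.nd (nat_lit 5) 
(.lf (nat_lit 147532) (.g (nat_lit 2971) (.e (nat_lit 57375) (nat_lit 2) (.e (nat_lit 90172) (nat_lit 14) (.e (nat_lit 180243) (nat_lit 5) (.e (nat_lit 532515) (nat_lit 3) (.e (nat_lit 114716) (nat_lit 22) (.e (nat_lit 90163) (nat_lit 12) (.e (nat_lit 163850) (nat_lit 0) (.e (nat_lit 5939) (nat_lit 322) .nil)))))))) (.g (nat_lit 5) .nil .nil))) 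
(.lf (nat_lit 147564) (.g (nat_lit 2267) (.e (nat_lit 57375) (nat_lit 2) (.e (nat_lit 90172) (nat_lit 14) (.e (nat_lit 180244) (nat_lit 5) (.e (nat_lit 532506) (nat_lit 2) (.e (nat_lit 106541) (nat_lit 13) (.e (nat_lit 122936) (nat_lit 23) (.e (nat_lit 516117) (nat_lit 1) (.e (nat_lit 164399) (nat_lit 256) .nil)))))))) (.g (nat_lit 4) .nil .nil)))) (.nd (nat_lit 5) 
(.lf (nat_lit 147548) (.g (nat_lit 2864) (.e (nat_lit 57375) (nat_lit 2) (.e (nat_lit 90172) (nat_lit 14) (.e (nat_lit 180243) (nat_lit 5) (.e (nat_lit 532515) (nat_lit 3) (.e (nat_lit 114718) (nat_lit 23) (.e (nat_lit 98334) (nat_lit 18) (.e (nat_lit 164399) (nat_lit 256) .nil))))))) (.g (nat_lit 5) .nil .nil))) 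
(.lf (nat_lit 147580) (.g (nat_lit 1803) (.e (nat_lit 57375) (nat_lit 2) (.e (nat_lit 90172) (nat_lit 14) (.e (nat_lit 180244) (nat_lit 5) (.e (nat_lit 532513) (nat_lit 3) (.e (nat_lit 114714) (nat_lit 22) .nil))))) .nil)))))) (.nd (nat_lit 2) (.nd (nat_lit 3) (.nd (nat_lit 4) (.nd (nat_lit 5) 
(.lf (nat_lit 147522) (.g (nat_lit 3925) (.e (nat_lit 57375) (nat_lit 2) (.e (nat_lit 90172) (nat_lit 14) (.e (nat_lit 180243) (nat_lit 5) (.e (nat_lit 532513) (nat_lit 3) (.e (nat_lit 114719) (nat_lit 23) (.e (nat_lit 98334) (nat_lit 18) (.e (nat_lit 164398) (nat_lit 256) .nil))))))) (.g (nat_lit 6) .nil .nil))) 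
(.lf (nat_lit 147554) (.g (nat_lit 2516) (.e (nat_lit 57375) (nat_lit 2) (.e (nat_lit 90172) (nat_lit 14) (.e (nat_lit 180243) (nat_lit 5) (.e (nat_lit 532515) (nat_lit 3) (.e (nat_lit 114719) (nat_lit 23) (.e (nat_lit 98332) (nat_lit 18) (.e (nat_lit 164400) (nat_lit 256) .nil))))))) (.g (nat_lit 4) .nil .nil)))) (.nd (nat_lit 5) 
(.lf (nat_lit 147538) (.g (nat_lit 2271) (.e (nat_lit 57375) (nat_lit 2) (.e (nat_lit 90172) (nat_lit 14) (.e (nat_lit 180243) (nat_lit 5) (.e (nat_lit 532515) (nat_lit 3) (.e (nat_lit 114716) (nat_lit 22) (.e (nat_lit 90181) (nat_lit 16) (.e (nat_lit 229378) (nat_lit 0) (.e (nat_lit 5935) (nat_lit 322) .nil)))))))) (.g (nat_lit 4) .nil .nil))) 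
(.lf (nat_lit 147570) (.g (nat_lit 2204) (.e (nat_lit 57375) (nat_lit 2) (.e (nat_lit 90172) (nat_lit 14) (.e (nat_lit 180244) (nat_lit 5) (.e (nat_lit 532508) (nat_lit 2) (.e (nat_lit 106537) (nat_lit 12) (.e (nat_lit 57466) (nat_lit 23) (.e (nat_lit 516115) (nat_lit 1) (.e (nat_lit 164399) (nat_lit 256) .nil)))))))) (.g (nat_lit 4) .nil .nil))))) (.nd (nat_lit 4) (.nd (nat_lit 5) 
(.lf (nat_lit 147530) (.g (nat_lit 2544) (.e (nat_lit 57375) (nat_lit 2) (.e (nat_lit 90172) (nat_lit 14) (.e (nat_lit 180243) (nat_lit 5) (.e (nat_lit 532515) (nat_lit 3) (.e (nat_lit 114716) (nat_lit 22) (.e (nat_lit 90128) (nat_lit 9) (.e (nat_lit 2615) (nat_lit 163) (.e (nat_lit 164400) (nat_lit 256) .nil)))))))) (.g (nat_lit 4) .nil .nil))) 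
(.lf (nat_lit 147562) (.g (nat_lit 2340) (.e (nat_lit 57375) (nat_lit 2) (.e (nat_lit 90172) (nat_lit 14) (.e (nat_lit 180244) (nat_lit 5) (.e (nat_lit 532506) (nat_lit 2) (.e (nat_lit 106540) (nat_lit 13) (.e (nat_lit 122936) (nat_lit 23) (.e (nat_lit 516117) (nat_lit 1) (.e (nat_lit 164397) (nat_lit 256) .nil)))))))) (.g (nat_lit 4) .nil .nil)))) (.nd (nat_lit 5) 
(.lf (nat_lit 147546) (.g (nat_lit 2993) (.e (nat_lit 57375) (nat_lit 2) (.e (nat_lit 90172) (nat_lit 14) (.e (nat_lit 180243) (nat_lit 5) (.e (nat_lit 532515) (nat_lit 3) (.e (nat_lit 114718) (nat_lit 23) (.e (nat_lit 98333) (nat_lit 18) (.e (nat_lit 164399) (nat_lit 256) .nil))))))) (.g (nat_lit 5) .nil .nil))) 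
(.lf (nat_lit 147578) (.g (nat_lit 2736) (.e (nat_lit 57375) (nat_lit 2) (.e (nat_lit 90172) (nat_lit 14) (.e (nat_lit 180244) (nat_lit 5) (.e (nat_lit 532513) (nat_lit 3) (.e (nat_lit 114708) (nat_lit 20) (.e (nat_lit 1800) (nat_lit 119) (.e (nat_lit 516115) (nat_lit 1) (.e (nat_lit 164400) (nat_lit 256) .nil)))))))) (.g (nat_lit 4) .nil .nil)))))) 
(.nd (nat_lit 3) (.nd (nat_lit 4) (.nd (nat_lit 5) 
(.lf (nat_lit 147526) (.g (nat_lit 2131) (.e (nat_lit 57375) (nat_lit 2) (.e (nat_lit 90172) (nat_lit 14) (.e (nat_lit 180243) (nat_lit 5) (.e (nat_lit 532515) (nat_lit 3) (.e (nat_lit 114715) (nat_lit 22) (.e (nat_lit 90165) (nat_lit 12) (.e (nat_lit 163849) (nat_lit 0) (.e (nat_lit 5934) (nat_lit 322) .nil)))))))) (.g (nat_lit 4) .nil .nil))) 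
(.lf (nat_lit 147558) (.g (nat_lit 2949) (.e (nat_lit 57375) (nat_lit 2) (.e (nat_lit 90172) (nat_lit 14) (.e (nat_lit 180243) (nat_lit 5) (.e (nat_lit 532515) (nat_lit 3) (.e (nat_lit 114719) (nat_lit 23) (.e (nat_lit 98334) (nat_lit 18) (.e (nat_lit 164397) (nat_lit 256) .nil))))))) (.g (nat_lit 5) .nil .nil)))) (.nd (nat_lit 5) 
(.lf (nat_lit 147542) (.g (nat_lit 2107) (.e (nat_lit 57375) (nat_lit 2) (.e (nat_lit 90172) (nat_lit 14) (.e (nat_lit 180243) (nat_lit 5) (.e (nat_lit 532515) (nat_lit 3) (.e (nat_lit 114717) (nat_lit 23) (.e (nat_lit 98334) (nat_lit 18) (.e (nat_lit 164397) (nat_lit 256) .nil))))))) (.g (nat_lit 4) .nil .nil))) 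
(.lf (nat_lit 147574) (.g (nat_lit 2263) (.e (nat_lit 57375) (nat_lit 2) (.e (nat_lit 90172) (nat_lit 14) (.e (nat_lit 180244) (nat_lit 5) (.e (nat_lit 532511) (nat_lit 2) (.e (nat_lit 106540) (nat_lit 13) (.e (nat_lit 122936) (nat_lit 23) (.e (nat_lit 516117) (nat_lit 1) (.e (nat_lit 164399) (nat_lit 256) .nil)))))))) (.g (nat_lit 4) .nil .nil))))) (.nd (nat_lit 4) (.nd (nat_lit 5) 
(.lf (nat_lit 147534) (.g (nat_lit 2469) (.e (nat_lit 57375) (nat_lit 2) (.e (nat_lit 90172) (nat_lit 14) (.e (nat_lit 180243) (nat_lit 5) (.e (nat_lit 532515) (nat_lit 3) (.e (nat_lit 114716) (nat_lit 22) (.e (nat_lit 90181) (nat_lit 16) (.e (nat_lit 229376) (nat_lit 0) (.e (nat_lit 5936) (nat_lit 322) .nil)))))))) (.g (nat_lit 4) .nil .nil))) 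
(.lf (nat_lit 147566) (.g (nat_lit 1244) (.e (nat_lit 57375) (nat_lit 2) (.e (nat_lit 90172) (nat_lit 14) (.e (nat_lit 180244) (nat_lit 5) (.e (nat_lit 532508) (nat_lit 2) .nil)))) .nil))) (.nd (nat_lit 5) 
(.lf (nat_lit 147550) (.g (nat_lit 2447) (.e (nat_lit 57375) (nat_lit 2) (.e (nat_lit 90172) (nat_lit 14) (.e (nat_lit 180243) (nat_lit 5) (.e (nat_lit 532515) (nat_lit 3) (.e (nat_lit 114719) (nat_lit 23) (.e (nat_lit 98325) (nat_lit 17) (.e (nat_lit 2515) (nat_lit 157) (.e (nat_lit 5934) (nat_lit 322) .nil)))))))) (.g (nat_lit 4) .nil .nil))) 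
(.lf (nat_lit 147582) (.g (nat_lit 2218) (.e (nat_lit 57375) (nat_lit 2) (.e (nat_lit 90172) (nat_lit 14) (.e (nat_lit 180244) (nat_lit 5) (.e (nat_lit 532513) (nat_lit 3) (.e (nat_lit 114714) (nat_lit 22) (.e (nat_lit 90164) (nat_lit 12) (.e (nat_lit 163850) (nat_lit 0) (.e (nat_lit 5935) (nat_lit 322) .nil)))))))) (.g (nat_lit 4) .nil .nil)))))))) 
(.nd (nat_lit 1) (.nd (nat_lit 2) (.nd (nat_lit 3) (.nd (nat_lit 4) (.nd (nat_lit 5) 
(.lf (nat_lit 147521) (.g (nat_lit 3781) (.e (nat_lit 57375) (nat_lit 2) (.e (nat_lit 90172) (nat_lit 14) (.e (nat_lit 180243) (nat_lit 5) (.e (nat_lit 532513) (nat_lit 3) (.e (nat_lit 114719) (nat_lit 23) (.e (nat_lit 98334) (nat_lit 18) (.e (nat_lit 164397) (nat_lit 256) .nil))))))) (.g (nat_lit 6) .nil .nil))) 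
(.lf (nat_lit 147553) (.g (nat_lit 2403) (.e (nat_lit 57375) (nat_lit 2) (.e (nat_lit 90172) (nat_lit 14) (.e (nat_lit 180243) (nat_lit 5) (.e (nat_lit 532515) (nat_lit 3) (.e (nat_lit 114719) (nat_lit 23) (.e (nat_lit 98332) (nat_lit 18) (.e (nat_lit 164399) (nat_lit 256) .nil))))))) (.g (nat_lit 4) .nil .nil)))) (.nd (nat_lit 5) 
(.lf (nat_lit 147537) (.g (nat_lit 2490) (.e (nat_lit 57375) (nat_lit 2) (.e (nat_lit 90172) (nat_lit 14) (.e (nat_lit 180243) (nat_lit 5) (.e (nat_lit 532515) (nat_lit 3) (.e (nat_lit 114716) (nat_lit 22) (.e (nat_lit 90181) (nat_lit 16) (.e (nat_lit 229377) (nat_lit 0) (.e (nat_lit 5934) (nat_lit 322) .nil)))))))) (.g (nat_lit 4) .nil .nil))) 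
(.lf (nat_lit 147569) (.g (nat_lit 2247) (.e (nat_lit 57375) (nat_lit 2) (.e (nat_lit 90172) (nat_lit 14) (.e (nat_lit 180244) (nat_lit 5) (.e (nat_lit 532508) (nat_lit 2) (.e (nat_lit 106537) (nat_lit 12) (.e (nat_lit 57465) (nat_lit 23) (.e (nat_lit 516115) (nat_lit 1) (.e (nat_lit 164399) (nat_lit 256) .nil)))))))) (.g (nat_lit 4) .nil .nil))))) (.nd (nat_lit 4) (.nd (nat_lit 5) 
(.lf (nat_lit 147529) (.g (nat_lit 1623) (.e (nat_lit 57375) (nat_lit 2) (.e (nat_lit 90172) (nat_lit 14) (.e (nat_lit 180243) (nat_lit 5) (.e (nat_lit 532515) (nat_lit 3) (.e (nat_lit 114716) (nat_lit 22) .nil))))) .nil)) 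
(.lf (nat_lit 147561) (.g (nat_lit 1255) (.e (nat_lit 57375) (nat_lit 2) (.e (nat_lit 90172) (nat_lit 14) (.e (nat_lit 180244) (nat_lit 5) (.e (nat_lit 532506) (nat_lit 2) .nil)))) .nil))) (.nd (nat_lit 5) 
(.lf (nat_lit 147545) (.g (nat_lit 2423) (.e (nat_lit 57375) (nat_lit 2) (.e (nat_lit 90172) (nat_lit 14) (.e (nat_lit 180243) (nat_lit 5) (.e (nat_lit 532515) (nat_lit 3) (.e (nat_lit 114718) (nat_lit 23) (.e (nat_lit 98333) (nat_lit 18) (.e (nat_lit 164398) (nat_lit 256) .nil))))))) (.g (nat_lit 4) .nil .nil))) 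
(.lf (nat_lit 147577) (.g (nat_lit 1956) (.e (nat_lit 57375) (nat_lit 2) (.e (nat_lit 90172) (nat_lit 14) (.e (nat_lit 180244) (nat_lit 5) (.e (nat_lit 532513) (nat_lit 3) (.e (nat_lit 114700) (nat_lit 20) .nil))))) .nil))))) (.nd (nat_lit 3) (.nd (nat_lit 4) (.nd (nat_lit 5) 
(.lf (nat_lit 147525) (.g (nat_lit 1525) (.e (nat_lit 57375) (nat_lit 2) (.e (nat_lit 90172) (nat_lit 14) (.e (nat_lit 180243) (nat_lit 5) (.e (nat_lit 532515) (nat_lit 3) (.e (nat_lit 114715) (nat_lit 22) .nil))))) .nil)) 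
(.lf (nat_lit 147557) (.g (nat_lit 2291) (.e (nat_lit 57375) (nat_lit 2) (.e (nat_lit 90172) (nat_lit 14) (.e (nat_lit 180243) (nat_lit 5) (.e (nat_lit 532515) (nat_lit 3) (.e (nat_lit 114719) (nat_lit 23) (.e (nat_lit 98334) (nat_lit 18) (.e (nat_lit 164396) (nat_lit 256) .nil))))))) (.g (nat_lit 4) .nil .nil)))) (.nd (nat_lit 5) 
(.lf (nat_lit 147541) (.g (nat_lit 2446) (.e (nat_lit 57375) (nat_lit 2) (.e (nat_lit 90172) (nat_lit 14) (.e (nat_lit 180243) (nat_lit 5) (.e (nat_lit 532515) (nat_lit 3) (.e (nat_lit 114717) (nat_lit 23) (.e (nat_lit 98333) (nat_lit 18) (.e (nat_lit 164399) (nat_lit 256) .nil))))))) (.g (nat_lit 4) .nil .nil))) 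
(.lf (nat_lit 147573) (.g (nat_lit 2668) (.e (nat_lit 57375) (nat_lit 2) (.e (nat_lit 90172) (nat_lit 14) (.e (nat_lit 180244) (nat_lit 5) (.e (nat_lit 532508) (nat_lit 2) (.e (nat_lit 114432) (nat_lit 13) (.e (nat_lit 122936) (nat_lit 23) (.e (nat_lit 516117) (nat_lit 1) (.e (nat_lit 164397) (nat_lit 256) .nil)))))))) (.g (nat_lit 4) .nil .nil))))) (.nd (nat_lit 4) (.nd (nat_lit 5) 
(.lf (nat_lit 147533) (.g (nat_lit 2357) (.e (nat_lit 57375) (nat_lit 2) (.e (nat_lit 90172) (nat_lit 14) (.e (nat_lit 180243) (nat_lit 5) (.e (nat_lit 532515) (nat_lit 3) (.e (nat_lit 114716) (nat_lit 22) (.e (nat_lit 90181) (nat_lit 16) (.e (nat_lit 229376) (nat_lit 0) (.e (nat_lit 5934) (nat_lit 322) .nil)))))))) (.g (nat_lit 4) .nil .nil))) 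
(.lf (nat_lit 147565) (.g (nat_lit 2243) (.e (nat_lit 57375) (nat_lit 2) (.e (nat_lit 90172) (nat_lit 14) (.e (nat_lit 180244) (nat_lit 5) (.e (nat_lit 532506) (nat_lit 2) (.e (nat_lit 106541) (nat_lit 13) (.e (nat_lit 122936) (nat_lit 23) (.e (nat_lit 516117) (nat_lit 1) (.e (nat_lit 164400) (nat_lit 256) .nil)))))))) (.g (nat_lit 4) .nil .nil)))) (.nd (nat_lit 5) 
(.lf (nat_lit 147549) (.g (nat_lit 2778) (.e (nat_lit 57375) (nat_lit 2) (.e (nat_lit 90172) (nat_lit 14) (.e (nat_lit 180243) (nat_lit 5) (.e (nat_lit 532515) (nat_lit 3) (.e (nat_lit 114718) (nat_lit 23) (.e (nat_lit 98334) (nat_lit 18) (.e (nat_lit 164400) (nat_lit 256) .nil))))))) (.g (nat_lit 5) .nil .nil))) 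
(.lf (nat_lit 147581) (.g (nat_lit 2377) (.e (nat_lit 57375) (nat_lit 2) (.e (nat_lit 90172) (nat_lit 14) (.e (nat_lit 180244) (nat_lit 5) (.e (nat_lit 532513) (nat_lit 3) (.e (nat_lit 114714) (nat_lit 22) (.e (nat_lit 90162) (nat_lit 12) (.e (nat_lit 163844) (nat_lit 0) (.e (nat_lit 5940) (nat_lit 322) .nil)))))))) (.g (nat_lit 4) .nil .nil))))))) 
(.nd (nat_lit 2) (.nd (nat_lit 3) (.nd (nat_lit 4) (.nd (nat_lit 5) 
(.lf (nat_lit 147523) (.g (nat_lit 3776) (.e (nat_lit 57375) (nat_lit 2) (.e (nat_lit 90172) (nat_lit 14) (.e (nat_lit 180243) (nat_lit 5) (.e (nat_lit 532513) (nat_lit 3) (.e (nat_lit 114719) (nat_lit 23) (.e (nat_lit 98334) (nat_lit 18) (.e (nat_lit 164399) (nat_lit 256) .nil))))))) (.g (nat_lit 6) .nil .nil))) 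
(.lf (nat_lit 147555) (.g (nat_lit 3316) (.e (nat_lit 57375) (nat_lit 2) (.e (nat_lit 90172) (nat_lit 14) (.e (nat_lit 180243) (nat_lit 5) (.e (nat_lit 532515) (nat_lit 3) (.e (nat_lit 114719) (nat_lit 23) (.e (nat_lit 98333) (nat_lit 18) (.e (nat_lit 164399) (nat_lit 256) .nil))))))) (.g (nat_lit 5) .nil .nil)))) (.nd (nat_lit 5) 
(.lf (nat_lit 147539) (.g (nat_lit 2232) (.e (nat_lit 57375) (nat_lit 2) (.e (nat_lit 90172) (nat_lit 14) (.e (nat_lit 180243) (nat_lit 5) (.e (nat_lit 532515) (nat_lit 3) (.e (nat_lit 114716) (nat_lit 22) (.e (nat_lit 90181) (nat_lit 16) (.e (nat_lit 229382) (nat_lit 0) (.e (nat_lit 5934) (nat_lit 322) .nil)))))))) (.g (nat_lit 4) .nil .nil))) 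
(.lf (nat_lit 147571) (.g (nat_lit 2515) (.e (nat_lit 57375) (nat_lit 2) (.e (nat_lit 90172) (nat_lit 14) (.e (nat_lit 180244) (nat_lit 5) (.e (nat_lit 532508) (nat_lit 2) (.e (nat_lit 106539) (nat_lit 12) (.e (nat_lit 57466) (nat_lit 23) (.e (nat_lit 516117) (nat_lit 1) (.e (nat_lit 164400) (nat_lit 256) .nil)))))))) (.g (nat_lit 4) .nil .nil))))) (.nd (nat_lit 4) (.nd (nat_lit 5) 
(.lf (nat_lit 147531) (.g (nat_lit 1887) (.e (nat_lit 57375) (nat_lit 2) (.e (nat_lit 90172) (nat_lit 14) (.e (nat_lit 180243) (nat_lit 5) (.e (nat_lit 532515) (nat_lit 3) (.e (nat_lit 114716) (nat_lit 22) (.e (nat_lit 90162) (nat_lit 12) (.e (nat_lit 163844) (nat_lit 0) (.e (nat_lit 5943) (nat_lit 322) .nil)))))))) (.g (nat_lit 4) .nil .nil))) 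
(.lf (nat_lit 147563) (.g (nat_lit 2219) (.e (nat_lit 57375) (nat_lit 2) (.e (nat_lit 90172) (nat_lit 14) (.e (nat_lit 180244) (nat_lit 5) (.e (nat_lit 532506) (nat_lit 2) (.e (nat_lit 106541) (nat_lit 13) (.e (nat_lit 122936) (nat_lit 23) (.e (nat_lit 516115) (nat_lit 1) (.e (nat_lit 164399) (nat_lit 256) .nil)))))))) (.g (nat_lit 4) .nil .nil)))) (.nd (nat_lit 5) 
(.lf (nat_lit 147547) (.g (nat_lit 3029) (.e (nat_lit 57375) (nat_lit 2) (.e (nat_lit 90172) (nat_lit 14) (.e (nat_lit 180243) (nat_lit 5) (.e (nat_lit 532515) (nat_lit 3) (.e (nat_lit 114718) (nat_lit 23) (.e (nat_lit 98334) (nat_lit 18) (.e (nat_lit 164397) (nat_lit 256) .nil))))))) (.g (nat_lit 5) .nil .nil))) 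
(.lf (nat_lit 147579) (.g (nat_lit 2761) (.e (nat_lit 57375) (nat_lit 2) (.e (nat_lit 90172) (nat_lit 14) (.e (nat_lit 180244) (nat_lit 5) (.e (nat_lit 532513) (nat_lit 3) (.e (nat_lit 114708) (nat_lit 20) (.e (nat_lit 1800) (nat_lit 119) (.e (nat_lit 516117) (nat_lit 1) (.e (nat_lit 164396) (nat_lit 256) .nil)))))))) (.g (nat_lit 4) .nil .nil)))))) 
(.nd (nat_lit 3) (.nd (nat_lit 4) (.nd (nat_lit 5) 
(.lf (nat_lit 147527) (.g (nat_lit 2173) (.e (nat_lit 57375) (nat_lit 2) (.e (nat_lit 90172) (nat_lit 14) (.e (nat_lit 180243) (nat_lit 5) (.e (nat_lit 532515) (nat_lit 3) (.e (nat_lit 114715) (nat_lit 22) (.e (nat_lit 90165) (nat_lit 12) (.e (nat_lit 163857) (nat_lit 0) (.e (nat_lit 5934) (nat_lit 322) .nil)))))))) (.g (nat_lit 4) .nil .nil))) 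
(.lf (nat_lit 147559) (.g (nat_lit 3177) (.e (nat_lit 57375) (nat_lit 2) (.e (nat_lit 90172) (nat_lit 14) (.e (nat_lit 180243) (nat_lit 5) (.e (nat_lit 532515) (nat_lit 3) (.e (nat_lit 114719) (nat_lit 23) (.e (nat_lit 98334) (nat_lit 18) (.e (nat_lit 164399) (nat_lit 256) .nil))))))) (.g (nat_lit 5) .nil .nil)))) (.nd (nat_lit 5) 
(.lf (nat_lit 147543) (.g (nat_lit 2169) (.e (nat_lit 57375) (nat_lit 2) (.e (nat_lit 90172) (nat_lit 14) (.e (nat_lit 180243) (nat_lit 5) (.e (nat_lit 532515) (nat_lit 3) (.e (nat_lit 114717) (nat_lit 23) (.e (nat_lit 98334) (nat_lit 18) (.e (nat_lit 164399) (nat_lit 256) .nil))))))) (.g (nat_lit 4) .nil .nil))) 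
(.lf (nat_lit 147575) (.g (nat_lit 2239) (.e (nat_lit 57375) (nat_lit 2) (.e (nat_lit 90172) (nat_lit 14) (.e (nat_lit 180244) (nat_lit 5) (.e (nat_lit 532511) (nat_lit 2) (.e (nat_lit 106540) (nat_lit 13) (.e (nat_lit 122936) (nat_lit 23) (.e (nat_lit 516117) (nat_lit 1) (.e (nat_lit 164400) (nat_lit 256) .nil)))))))) (.g (nat_lit 4) .nil .nil))))) (.nd (nat_lit 4) (.nd (nat_lit 5) 
(.lf (nat_lit 147535) (.g (nat_lit 3062) (.e (nat_lit 57375) (nat_lit 2) (.e (nat_lit 90172) (nat_lit 14) (.e (nat_lit 180243) (nat_lit 5) (.e (nat_lit 532515) (nat_lit 3) (.e (nat_lit 114716) (nat_lit 22) (.e (nat_lit 90181) (nat_lit 16) (.e (nat_lit 229376) (nat_lit 0) (.e (nat_lit 5939) (nat_lit 322) .nil)))))))) (.g (nat_lit 5) .nil .nil))) 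
(.lf (nat_lit 147567) (.g (nat_lit 1630) (.e (nat_lit 57375) (nat_lit 2) (.e (nat_lit 90172) (nat_lit 14) (.e (nat_lit 180244) (nat_lit 5) (.e (nat_lit 532508) (nat_lit 2) (.e (nat_lit 106517) (nat_lit 9) .nil))))) .nil))) (.nd (nat_lit 5) 
(.lf (nat_lit 147551) (.g (nat_lit 2440) (.e (nat_lit 57375) (nat_lit 2) (.e (nat_lit 90172) (nat_lit 14) (.e (nat_lit 180243) (nat_lit 5) (.e (nat_lit 532515) (nat_lit 3) (.e (nat_lit 114719) (nat_lit 23) (.e (nat_lit 98332) (nat_lit 18) (.e (nat_lit 164397) (nat_lit 256) .nil))))))) (.g (nat_lit 4) .nil .nil))) 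
(.lf (nat_lit 147583) (.g (nat_lit 2424) (.e (nat_lit 57375) (nat_lit 2) (.e (nat_lit 90172) (nat_lit 14) (.e (nat_lit 180244) (nat_lit 5) (.e (nat_lit 532513) (nat_lit 3) (.e (nat_lit 114714) (nat_lit 22) (.e (nat_lit 90164) (nat_lit 12) (.e (nat_lit 163850) (nat_lit 0) (.e (nat_lit 5938) (nat_lit 322) .nil)))))))) (.g (nat_lit 4) .nil .nil)))))))))

noncomputable def tv1962 : DT := (.nd (nat_lit 0) (.nd (nat_lit 1) (.nd (nat_lit 2) (.nd (nat_lit 3) (.nd (nat_lit 4) (.nd (nat_lit 5) 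
(.lf (nat_lit 147584) (.g (nat_lit 4348) (.e (nat_lit 57375) (nat_lit 2) (.e (nat_lit 90172) (nat_lit 14) (.e (nat_lit 180244) (nat_lit 5) (.e (nat_lit 532513) (nat_lit 3) (.e (nat_lit 114714) (nat_lit 22) (.e (nat_lit 90164) (nat_lit 12) (.e (nat_lit 163850) (nat_lit 0) (.e (nat_lit 5939) (nat_lit 322) .nil)))))))) (.g (nat_lit 7) .nil .nil))) 
(.lf (nat_lit 147616) (.g (nat_lit 4755) (.e (nat_lit 57375) (nat_lit 2) (.e (nat_lit 90172) (nat_lit 14) (.e (nat_lit 180244) (nat_lit 5) (.e (nat_lit 532513) (nat_lit 3) (.e (nat_lit 114718) (nat_lit 23) (.e (nat_lit 98334) (nat_lit 18) (.e (nat_lit 164397) (nat_lit 256) .nil))))))) (.g (nat_lit 7) .nil .nil)))) (.nd (nat_lit 5) 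
(.lf (nat_lit 147600) (.g (nat_lit 2649) (.e (nat_lit 57375) (nat_lit 2) (.e (nat_lit 90172) (nat_lit 14) (.e (nat_lit 180244) (nat_lit 5) (.e (nat_lit 532513) (nat_lit 3) (.e (nat_lit 114717) (nat_lit 23) (.e (nat_lit 98333) (nat_lit 18) (.e (nat_lit 164400) (nat_lit 256) .nil))))))) (.g (nat_lit 4) .nil .nil))) 
(.lf (nat_lit 147632) (.g (nat_lit 3655) (.e (nat_lit 57375) (nat_lit 2) (.e (nat_lit 90172) (nat_lit 14) (.e (nat_lit 180244) (nat_lit 5) (.e (nat_lit 532513) (nat_lit 3) (.e (nat_lit 114719) (nat_lit 23) (.e (nat_lit 98334) (nat_lit 18) (.e (nat_lit 164396) (nat_lit 256) .nil))))))) (.g (nat_lit 6) .nil .nil))))) (.nd (nat_lit 4) (.nd (nat_lit 5) 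
(.lf (nat_lit 147592) (.g (nat_lit 2988) (.e (nat_lit 57375) (nat_lit 2) (.e (nat_lit 90172) (nat_lit 14) (.e (nat_lit 180244) (nat_lit 5) (.e (nat_lit 532513) (nat_lit 3) (.e (nat_lit 114714) (nat_lit 22) (.e (nat_lit 90181) (nat_lit 16) (.e (nat_lit 229376) (nat_lit 0) (.e (nat_lit 5936) (nat_lit 322) .nil)))))))) (.g (nat_lit 4) .nil .nil))) 
(.lf (nat_lit 147624) (.g (nat_lit 3320) (.e (nat_lit 57375) (nat_lit 2) (.e (nat_lit 90172) (nat_lit 14) (.e (nat_lit 180244) (nat_lit 5) (.e (nat_lit 532513) (nat_lit 3) (.e (nat_lit 114719) (nat_lit 23) (.e (nat_lit 98332) (nat_lit 18) (.e (nat_lit 164397) (nat_lit 256) .nil))))))) (.g (nat_lit 5) .nil .nil)))) (.nd (nat_lit 5) 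
(.lf (nat_lit 147608) (.g (nat_lit 2247) (.e (nat_lit 57375) (nat_lit 2) (.e (nat_lit 90172) (nat_lit 14) (.e (nat_lit 180244) (nat_lit 5) (.e (nat_lit 532513) (nat_lit 3) (.e (nat_lit 114718) (nat_lit 23) (.e (nat_lit 98332) (nat_lit 18) (.e (nat_lit 164398) (nat_lit 256) .nil))))))) (.g (nat_lit 4) .nil .nil))) 
(.lf (nat_lit 147640) (.g (nat_lit 2657) (.e (nat_lit 57375) (nat_lit 2) (.e (nat_lit 90172) (nat_lit 14) (.e (nat_lit 180244) (nat_lit 5) (.e (nat_lit 532514) (nat_lit 3) (.e (nat_lit 114718) (nat_lit 23) (.e (nat_lit 98334) (nat_lit 18) (.e (nat_lit 164400) (nat_lit 256) .nil))))))) (.g (nat_lit 5) .nil .nil)))))) (.nd (nat_lit 3) (.nd (nat_lit 4) (.nd (nat_lit 5) 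
(.lf (nat_lit 147588) (.g (nat_lit 3767) (.e (nat_lit 57375) (nat_lit 2) (.e (nat_lit 90172) (nat_lit 14) (.e (nat_lit 180244) (nat_lit 5) (.e (nat_lit 532513) (nat_lit 3) (.e (nat_lit 114714) (nat_lit 22) (.e (nat_lit 90165) (nat_lit 12) (.e (nat_lit 171776) (nat_lit 0) (.e (nat_lit 5937) (nat_lit 322) .nil)))))))) (.g (nat_lit 5) .nil .nil))) 
(.lf (nat_lit 147620) (.g (nat_lit 2475) (.e (nat_lit 57375) (nat_lit 2) (.e (nat_lit 90172) (nat_lit 14) (.e (nat_lit 180244) (nat_lit 5) (.e (nat_lit 532513) (nat_lit 3) (.e (nat_lit 114718) (nat_lit 23) (.e (nat_lit 98335) (nat_lit 18) (.e (nat_lit 164396) (nat_lit 256) .nil))))))) (.g (nat_lit 4) .nil .nil)))) (.nd (nat_lit 5) 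
(.lf (nat_lit 147604) (.g (nat_lit 2770) (.e (nat_lit 57375) (nat_lit 2) (.e (nat_lit 90172) (nat_lit 14) (.e (nat_lit 180244) (nat_lit 5) (.e (nat_lit 532513) (nat_lit 3) (.e (nat_lit 114718) (nat_lit 23) (.e (nat_lit 98325) (nat_lit 17) (.e (nat_lit 2458) (nat_lit 157) (.e (nat_lit 5935) (nat_lit 322) .nil)))))))) (.g (nat_lit 4) .nil .nil))) 
(.lf (nat_lit 147636) (.g (nat_lit 4298) (.e (nat_lit 57375) (nat_lit 2) (.e (nat_lit 90172) (nat_lit 14) (.e (nat_lit 180244) (nat_lit 5) (.e (nat_lit 532513) (nat_lit 3) (.e (nat_lit 114719) (nat_lit 23) (.e (nat_lit 98334) (nat_lit 18) (.e (nat_lit 164400) (nat_lit 256) .nil))))))) (.g (nat_lit 7) .nil .nil))))) (.nd (nat_lit 4) (.nd (nat_lit 5) 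
(.lf (nat_lit 147596) (.g (nat_lit 3049) (.e (nat_lit 57375) (nat_lit 2) (.e (nat_lit 90172) (nat_lit 14) (.e (nat_lit 180244) (nat_lit 5) (.e (nat_lit 532513) (nat_lit 3) (.e (nat_lit 114714) (nat_lit 22) (.e (nat_lit 90181) (nat_lit 16) (.e (nat_lit 229376) (nat_lit 0) (.e (nat_lit 5943) (nat_lit 322) .nil)))))))) (.g (nat_lit 5) .nil .nil))) 
(.lf (nat_lit 147628) (.g (nat_lit 4309) (.e (nat_lit 57375) (nat_lit 2) (.e (nat_lit 90172) (nat_lit 14) (.e (nat_lit 180244) (nat_lit 5) (.e (nat_lit 532513) (nat_lit 3) (.e (nat_lit 114719) (nat_lit 23) (.e (nat_lit 98333) (nat_lit 18) (.e (nat_lit 164397) (nat_lit 256) .nil))))))) (.g (nat_lit 6) .nil .nil)))) (.nd (nat_lit 5) 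
(.lf (nat_lit 147612) (.g (nat_lit 4321) (.e (nat_lit 57375) (nat_lit 2) (.e (nat_lit 90172) (nat_lit 14) (.e (nat_lit 180244) (nat_lit 5) (.e (nat_lit 532513) (nat_lit 3) (.e (nat_lit 114718) (nat_lit 23) (.e (nat_lit 98333) (nat_lit 18) (.e (nat_lit 164398) (nat_lit 256) .nil))))))) (.g (nat_lit 6) .nil .nil))) 
(.lf (nat_lit 147644) (.g (nat_lit 2721) (.e (nat_lit 57375) (nat_lit 2) (.e (nat_lit 90172) (nat_lit 14) (.e (nat_lit 180244) (nat_lit 5) (.e (nat_lit 532514) (nat_lit 3) (.e (nat_lit 114719) (nat_lit 23) (.e (nat_lit 98334) (nat_lit 18) (.e (nat_lit 164397) (nat_lit 256) .nil))))))) (.g (nat_lit 5) .nil .nil))))))) (.nd (nat_lit 2) (.nd (nat_lit 3) (.nd (nat_lit 4) (.nd (nat_lit 5) 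
(.lf (nat_lit 147586) (.g (nat_lit 3446) (.e (nat_lit 57375) (nat_lit 2) (.e (nat_lit 90172) (nat_lit 14) (.e (nat_lit 180244) (nat_lit 5) (.e (nat_lit 532513) (nat_lit 3) (.e (nat_lit 114714) (nat_lit 22) (.e (nat_lit 90165) (nat_lit 12) (.e (nat_lit 163857) (nat_lit 0) (.e (nat_lit 5934) (nat_lit 322) .nil)))))))) (.g (nat_lit 5) .nil .nil))) 
(.lf (nat_lit 147618) (.g (nat_lit 4674) (.e (nat_lit 57375) (nat_lit 2) (.e (nat_lit 90172) (nat_lit 14) (.e (nat_lit 180244) (nat_lit 5) (.e (nat_lit 532513) (nat_lit 3) (.e (nat_lit 114718) (nat_lit 23) (.e (nat_lit 98334) (nat_lit 18) (.e (nat_lit 164399) (nat_lit 256) .nil))))))) (.g (nat_lit 7) .nil .nil)))) (.nd (nat_lit 5) 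
(.lf (nat_lit 147602) (.g (nat_lit 2800) (.e (nat_lit 57375) (nat_lit 2) (.e (nat_lit 90172) (nat_lit 14) (.e (nat_lit 180244) (nat_lit 5) (.e (nat_lit 532513) (nat_lit 3) (.e (nat_lit 114717) (nat_lit 23) (.e (nat_lit 98334) (nat_lit 18) (.e (nat_lit 164400) (nat_lit 256) .nil))))))) (.g (nat_lit 4) .nil .nil))) 
(.lf (nat_lit 147634) (.g (nat_lit 4830) (.e (nat_lit 57375) (nat_lit 2) (.e (nat_lit 90172) (nat_lit 14) (.e (nat_lit 180244) (nat_lit 5) (.e (nat_lit 532513) (nat_lit 3) (.e (nat_lit 114719) (nat_lit 23) (.e (nat_lit 98334) (nat_lit 18) (.e (nat_lit 164398) (nat_lit 256) .nil))))))) (.g (nat_lit 7) .nil .nil))))) (.nd (nat_lit 4) (.nd (nat_lit 5) 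
(.lf (nat_lit 147594) (.g (nat_lit 3326) (.e (nat_lit 57375) (nat_lit 2) (.e (nat_lit 90172) (nat_lit 14) (.e (nat_lit 180244) (nat_lit 5) (.e (nat_lit 532513) (nat_lit 3) (.e (nat_lit 114714) (nat_lit 22) (.e (nat_lit 90181) (nat_lit 16) (.e (nat_lit 229376) (nat_lit 0) (.e (nat_lit 5939) (nat_lit 322) .nil)))))))) (.g (nat_lit 5) .nil .nil))) 
(.lf (nat_lit 147626) (.g (nat_lit 3276) (.e (nat_lit 57375) (nat_lit 2) (.e (nat_lit 90172) (nat_lit 14) (.e (nat_lit 180244) (nat_lit 5) (.e (nat_lit 532513) (nat_lit 3) (.e (nat_lit 114719) (nat_lit 23) (.e (nat_lit 98332) (nat_lit 18) (.e (nat_lit 164400) (nat_lit 256) .nil))))))) (.g (nat_lit 5) .nil .nil)))) (.nd (nat_lit 5) 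
(.lf (nat_lit 147610) (.g (nat_lit 2528) (.e (nat_lit 57375) (nat_lit 2) (.e (nat_lit 90172) (nat_lit 14) (.e (nat_lit 180244) (nat_lit 5) (.e (nat_lit 532513) (nat_lit 3) (.e (nat_lit 114718) (nat_lit 23) (.e (nat_lit 98332) (nat_lit 18) (.e (nat_lit 164400) (nat_lit 256) .nil))))))) (.g (nat_lit 4) .nil .nil))) 
(.lf (nat_lit 147642) (.g (nat_lit 2157) (.e (nat_lit 57375) (nat_lit 2) (.e (nat_lit 90172) (nat_lit 14) (.e (nat_lit 180244) (nat_lit 5) (.e (nat_lit 532514) (nat_lit 3) (.e (nat_lit 114719) (nat_lit 23) (.e (nat_lit 98333) (nat_lit 18) (.e (nat_lit 164398) (nat_lit 256) .nil))))))) (.g (nat_lit 4) .nil .nil)))))) (.nd (nat_lit 3) (.nd (nat_lit 4) (.nd (nat_lit 5) 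
(.lf (nat_lit 147590) (.g (nat_lit 3511) (.e (nat_lit 57375) (nat_lit 2) (.e (nat_lit 90172) (nat_lit 14) (.e (nat_lit 180244) (nat_lit 5) (.e (nat_lit 532513) (nat_lit 3) (.e (nat_lit 114714) (nat_lit 22) (.e (nat_lit 90165) (nat_lit 12) (.e (nat_lit 171776) (nat_lit 0) (.e (nat_lit 5939) (nat_lit 322) .nil)))))))) (.g (nat_lit 5) .nil .nil))) 
(.lf (nat_lit 147622) (.g (nat_lit 3080) (.e (nat_lit 57375) (nat_lit 2) (.e (nat_lit 90172) (nat_lit 14) (.e (nat_lit 180244) (nat_lit 5) (.e (nat_lit 532513) (nat_lit 3) (.e (nat_lit 114719) (nat_lit 23) (.e (nat_lit 98325) (nat_lit 17) (.e (nat_lit 2458) (nat_lit 157) (.e (nat_lit 5939) (nat_lit 322) .nil)))))))) (.g (nat_lit 5) .nil .nil)))) (.nd (nat_lit 5) 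
(.lf (nat_lit 147606) (.g (nat_lit 2569) (.e (nat_lit 57375) (nat_lit 2) (.e (nat_lit 90172) (nat_lit 14) (.e (nat_lit 180244) (nat_lit 5) (.e (nat_lit 532513) (nat_lit 3) (.e (nat_lit 114718) (nat_lit 23) (.e (nat_lit 98325) (nat_lit 17) (.e (nat_lit 2478) (nat_lit 157) (.e (nat_lit 5934) (nat_lit 322) .nil)))))))) (.g (nat_lit 4) .nil .nil))) 
(.lf (nat_lit 147638) (.g (nat_lit 2226) (.e (nat_lit 57375) (nat_lit 2) (.e (nat_lit 90172) (nat_lit 14) (.e (nat_lit 180244) (nat_lit 5) (.e (nat_lit 532514) (nat_lit 3) (.e (nat_lit 114718) (nat_lit 23) (.e (nat_lit 98333) (nat_lit 18) (.e (nat_lit 164400) (nat_lit 256) .nil))))))) (.g (nat_lit 4) .nil .nil))))) (.nd (nat_lit 4) (.nd (nat_lit 5) 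
(.lf (nat_lit 147598) (.g (nat_lit 2431) (.e (nat_lit 57375) (nat_lit 2) (.e (nat_lit 90172) (nat_lit 14) (.e (nat_lit 180244) (nat_lit 5) (.e (nat_lit 532513) (nat_lit 3) (.e (nat_lit 114714) (nat_lit 22) (.e (nat_lit 90181) (nat_lit 16) (.e (nat_lit 229378) (nat_lit 0) (.e (nat_lit 5935) (nat_lit 322) .nil)))))))) (.g (nat_lit 4) .nil .nil))) 
(.lf (nat_lit 147630) (.g (nat_lit 4628) (.e (nat_lit 57375) (nat_lit 2) (.e (nat_lit 90172) (nat_lit 14) (.e (nat_lit 180244) (nat_lit 5) (.e (nat_lit 532513) (nat_lit 3) (.e (nat_lit 114719) (nat_lit 23) (.e (nat_lit 98333) (nat_lit 18) (.e (nat_lit 164399) (nat_lit 256) .nil))))))) (.g (nat_lit 7) .nil .nil)))) (.nd (nat_lit 5) 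
(.lf (nat_lit 147614) (.g (nat_lit 4477) (.e (nat_lit 57375) (nat_lit 2) (.e (nat_lit 90172) (nat_lit 14) (.e (nat_lit 180244) (nat_lit 5) (.e (nat_lit 532513) (nat_lit 3) (.e (nat_lit 114718) (nat_lit 23) (.e (nat_lit 98333) (nat_lit 18) (.e (nat_lit 164400) (nat_lit 256) .nil))))))) (.g (nat_lit 6) .nil .nil))) 
(.lf (nat_lit 147646) (.g (nat_lit 2486) (.e (nat_lit 57375) (nat_lit 2) (.e (nat_lit 90172) (nat_lit 14) (.e (nat_lit 180244) (nat_lit 5) (.e (nat_lit 532514) (nat_lit 3) (.e (nat_lit 114719) (nat_lit 23) (.e (nat_lit 98334) (nat_lit 18) (.e (nat_lit 164400) (nat_lit 256) .nil))))))) (.g (nat_lit 5) .nil .nil)))))))) 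
(.nd (nat_lit 1) (.nd (nat_lit 2) (.nd (nat_lit 3) (.nd (nat_lit 4) (.nd (nat_lit 5) 
(.lf (nat_lit 147585) (.g (nat_lit 2108) (.e (nat_lit 57375) (nat_lit 2) (.e (nat_lit 90172) (nat_lit 14) (.e (nat_lit 180244) (nat_lit 5) (.e (nat_lit 532513) (nat_lit 3) (.e (nat_lit 114714) (nat_lit 22) (.e (nat_lit 90165) (nat_lit 12) (.e (nat_lit 163840) (nat_lit 0) (.e (nat_lit 5943) (nat_lit 322) .nil)))))))) (.g (nat_lit 4) .nil .nil))) 
(.lf (nat_lit 147617) (.g (nat_lit 4952) (.e (nat_lit 57375) (nat_lit 2) (.e (nat_lit 90172) (nat_lit 14) (.e (nat_lit 180244) (nat_lit 5) (.e (nat_lit 532513) (nat_lit 3) (.e (nat_lit 114718) (nat_lit 23) (.e (nat_lit 98334) (nat_lit 18) (.e (nat_lit 164398) (nat_lit 256) .nil))))))) (.g (nat_lit 7) .nil .nil)))) (.nd (nat_lit 5) 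
(.lf (nat_lit 147601) (.g (nat_lit 2090) (.e (nat_lit 57375) (nat_lit 2) (.e (nat_lit 90172) (nat_lit 14) (.e (nat_lit 180244) (nat_lit 5) (.e (nat_lit 532513) (nat_lit 3) (.e (nat_lit 114717) (nat_lit 23) (.e (nat_lit 98334) (nat_lit 18) (.e (nat_lit 164396) (nat_lit 256) .nil))))))) (.g (nat_lit 4) .nil .nil))) 
(.lf (nat_lit 147633) (.g (nat_lit 4766) (.e (nat_lit 57375) (nat_lit 2) (.e (nat_lit 90172) (nat_lit 14) (.e (nat_lit 180244) (nat_lit 5) (.e (nat_lit 532513) (nat_lit 3) (.e (nat_lit 114719) (nat_lit 23) (.e (nat_lit 98334) (nat_lit 18) (.e (nat_lit 164397) (nat_lit 256) .nil))))))) (.g (nat_lit 0) .nil .nil))))) (.nd (nat_lit 4) (.nd (nat_lit 5) 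
(.lf (nat_lit 147593) (.g (nat_lit 2993) (.e (nat_lit 57375) (nat_lit 2) (.e (nat_lit 90172) (nat_lit 14) (.e (nat_lit 180244) (nat_lit 5) (.e (nat_lit 532513) (nat_lit 3) (.e (nat_lit 114714) (nat_lit 22) (.e (nat_lit 90181) (nat_lit 16) (.e (nat_lit 229376) (nat_lit 0) (.e (nat_lit 5938) (nat_lit 322) .nil)))))))) (.g (nat_lit 5) .nil .nil))) 
(.lf (nat_lit 147625) (.g (nat_lit 3133) (.e (nat_lit 57375) (nat_lit 2) (.e (nat_lit 90172) (nat_lit 14) (.e (nat_lit 180244) (nat_lit 5) (.e (nat_lit 532513) (nat_lit 3) (.e (nat_lit 114719) (nat_lit 23) (.e (nat_lit 98332) (nat_lit 18) (.e (nat_lit 164399) (nat_lit 256) .nil))))))) (.g (nat_lit 5) .nil .nil)))) (.nd (nat_lit 5) 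
(.lf (nat_lit 147609) (.g (nat_lit 2399) (.e (nat_lit 57375) (nat_lit 2) (.e (nat_lit 90172) (nat_lit 14) (.e (nat_lit 180244) (nat_lit 5) (.e (nat_lit 532513) (nat_lit 3) (.e (nat_lit 114718) (nat_lit 23) (.e (nat_lit 98332) (nat_lit 18) (.e (nat_lit 164399) (nat_lit 256) .nil))))))) (.g (nat_lit 4) .nil .nil))) 
(.lf (nat_lit 147641) (.g (nat_lit 2313) (.e (nat_lit 57375) (nat_lit 2) (.e (nat_lit 90172) (nat_lit 14) (.e (nat_lit 180244) (nat_lit 5) (.e (nat_lit 532514) (nat_lit 3) (.e (nat_lit 114719) (nat_lit 23) (.e (nat_lit 98333) (nat_lit 18) (.e (nat_lit 164397) (nat_lit 256) .nil))))))) (.g (nat_lit 4) .nil .nil)))))) (.nd (nat_lit 3) (.nd (nat_lit 4) (.nd (nat_lit 5) 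
(.lf (nat_lit 147589) (.g (nat_lit 2373) (.e (nat_lit 57375) (nat_lit 2) (.e (nat_lit 90172) (nat_lit 14) (.e (nat_lit 180244) (nat_lit 5) (.e (nat_lit 532513) (nat_lit 3) (.e (nat_lit 114714) (nat_lit 22) (.e (nat_lit 90165) (nat_lit 12) (.e (nat_lit 171776) (nat_lit 0) (.e (nat_lit 5938) (nat_lit 322) .nil)))))))) (.g (nat_lit 4) .nil .nil))) 
(.lf (nat_lit 147621) (.g (nat_lit 2500) (.e (nat_lit 57375) (nat_lit 2) (.e (nat_lit 90172) (nat_lit 14) (.e (nat_lit 180244) (nat_lit 5) (.e (nat_lit 532513) (nat_lit 3) (.e (nat_lit 114719) (nat_lit 23) (.e (nat_lit 98325) (nat_lit 17) (.e (nat_lit 2458) (nat_lit 157) (.e (nat_lit 5938) (nat_lit 322) .nil)))))))) (.g (nat_lit 4) .nil .nil)))) (.nd (nat_lit 5) 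
(.lf (nat_lit 147605) (.g (nat_lit 2403) (.e (nat_lit 57375) (nat_lit 2) (.e (nat_lit 90172) (nat_lit 14) (.e (nat_lit 180244) (nat_lit 5) (.e (nat_lit 532513) (nat_lit 3) (.e (nat_lit 114718) (nat_lit 23) (.e (nat_lit 98325) (nat_lit 17) (.e (nat_lit 2458) (nat_lit 157) (.e (nat_lit 5938) (nat_lit 322) .nil)))))))) (.g (nat_lit 4) .nil .nil))) 
(.lf (nat_lit 147637) (.g (nat_lit 1237) (.e (nat_lit 57375) (nat_lit 2) (.e (nat_lit 90172) (nat_lit 14) (.e (nat_lit 180244) (nat_lit 5) (.e (nat_lit 532514) (nat_lit 3) .nil)))) .nil)))) (.nd (nat_lit 4) (.nd (nat_lit 5) 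
(.lf (nat_lit 147597) (.g (nat_lit 2300) (.e (nat_lit 57375) (nat_lit 2) (.e (nat_lit 90172) (nat_lit 14) (.e (nat_lit 180244) (nat_lit 5) (.e (nat_lit 532513) (nat_lit 3) (.e (nat_lit 114714) (nat_lit 22) (.e (nat_lit 90181) (nat_lit 16) (.e (nat_lit 229377) (nat_lit 0) (.e (nat_lit 5934) (nat_lit 322) .nil)))))))) (.g (nat_lit 4) .nil .nil))) 
(.lf (nat_lit 147629) (.g (nat_lit 4221) (.e (nat_lit 57375) (nat_lit 2) (.e (nat_lit 90172) (nat_lit 14) (.e (nat_lit 180244) (nat_lit 5) (.e (nat_lit 532513) (nat_lit 3) (.e (nat_lit 114719) (nat_lit 23) (.e (nat_lit 98333) (nat_lit 18) (.e (nat_lit 164398) (nat_lit 256) .nil))))))) (.g (nat_lit 7) .nil .nil)))) (.nd (nat_lit 5) 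
(.lf (nat_lit 147613) (.g (nat_lit 4766) (.e (nat_lit 57375) (nat_lit 2) (.e (nat_lit 90172) (nat_lit 14) (.e (nat_lit 180244) (nat_lit 5) (.e (nat_lit 532513) (nat_lit 3) (.e (nat_lit 114718) (nat_lit 23) (.e (nat_lit 98333) (nat_lit 18) (.e (nat_lit 164399) (nat_lit 256) .nil))))))) (.g (nat_lit 7) .nil .nil))) 
(.lf (nat_lit 147645) (.g (nat_lit 2326) (.e (nat_lit 57375) (nat_lit 2) (.e (nat_lit 90172) (nat_lit 14) (.e (nat_lit 180244) (nat_lit 5) (.e (nat_lit 532514) (nat_lit 3) (.e (nat_lit 114719) (nat_lit 23) (.e (nat_lit 98334) (nat_lit 18) (.e (nat_lit 164399) (nat_lit 256) .nil))))))) (.g (nat_lit 4) .nil .nil))))))) (.nd (nat_lit 2) (.nd (nat_lit 3) (.nd (nat_lit 4) (.nd (nat_lit 5) 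
(.lf (nat_lit 147587) (.g (nat_lit 2790) (.e (nat_lit 57375) (nat_lit 2) (.e (nat_lit 90172) (nat_lit 14) (.e (nat_lit 180244) (nat_lit 5) (.e (nat_lit 532513) (nat_lit 3) (.e (nat_lit 114714) (nat_lit 22) (.e (nat_lit 90165) (nat_lit 12) (.e (nat_lit 171776) (nat_lit 0) (.e (nat_lit 5936) (nat_lit 322) .nil)))))))) (.g (nat_lit 4) .nil .nil))) 
(.lf (nat_lit 147619) (.g (nat_lit 4600) (.e (nat_lit 57375) (nat_lit 2) (.e (nat_lit 90172) (nat_lit 14) (.e (nat_lit 180244) (nat_lit 5) (.e (nat_lit 532513) (nat_lit 3) (.e (nat_lit 114718) (nat_lit 23) (.e (nat_lit 98334) (nat_lit 18) (.e (nat_lit 164400) (nat_lit 256) .nil))))))) (.g (nat_lit 7) .nil .nil)))) (.nd (nat_lit 5) 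
(.lf (nat_lit 147603) (.g (nat_lit 2214) (.e (nat_lit 57375) (nat_lit 2) (.e (nat_lit 90172) (nat_lit 14) (.e (nat_lit 180244) (nat_lit 5) (.e (nat_lit 532513) (nat_lit 3) (.e (nat_lit 114718) (nat_lit 23) (.e (nat_lit 98325) (nat_lit 17) (.e (nat_lit 2458) (nat_lit 157) (.e (nat_lit 5934) (nat_lit 322) .nil)))))))) (.g (nat_lit 4) .nil .nil))) 
(.lf (nat_lit 147635) (.g (nat_lit 4607) (.e (nat_lit 57375) (nat_lit 2) (.e (nat_lit 90172) (nat_lit 14) (.e (nat_lit 180244) (nat_lit 5) (.e (nat_lit 532513) (nat_lit 3) (.e (nat_lit 114719) (nat_lit 23) (.e (nat_lit 98334) (nat_lit 18) (.e (nat_lit 164399) (nat_lit 256) .nil))))))) (.g (nat_lit 7) .nil .nil))))) (.nd (nat_lit 4) (.nd (nat_lit 5) 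
(.lf (nat_lit 147595) (.g (nat_lit 2512) (.e (nat_lit 57375) (nat_lit 2) (.e (nat_lit 90172) (nat_lit 14) (.e (nat_lit 180244) (nat_lit 5) (.e (nat_lit 532513) (nat_lit 3) (.e (nat_lit 114714) (nat_lit 22) (.e (nat_lit 90181) (nat_lit 16) (.e (nat_lit 229376) (nat_lit 0) (.e (nat_lit 5940) (nat_lit 322) .nil)))))))) (.g (nat_lit 4) .nil .nil))) 
(.lf (nat_lit 147627) (.g (nat_lit 2676) (.e (nat_lit 57375) (nat_lit 2) (.e (nat_lit 90172) (nat_lit 14) (.e (nat_lit 180244) (nat_lit 5) (.e (nat_lit 532513) (nat_lit 3) (.e (nat_lit 114719) (nat_lit 23) (.e (nat_lit 98333) (nat_lit 18) (.e (nat_lit 164396) (nat_lit 256) .nil))))))) (.g (nat_lit 4) .nil .nil)))) (.nd (nat_lit 5) 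
(.lf (nat_lit 147611) (.g (nat_lit 4344) (.e (nat_lit 57375) (nat_lit 2) (.e (nat_lit 90172) (nat_lit 14) (.e (nat_lit 180244) (nat_lit 5) (.e (nat_lit 532513) (nat_lit 3) (.e (nat_lit 114718) (nat_lit 23) (.e (nat_lit 98333) (nat_lit 18) (.e (nat_lit 164397) (nat_lit 256) .nil))))))) (.g (nat_lit 6) .nil .nil))) 
(.lf (nat_lit 147643) (.g (nat_lit 2383) (.e (nat_lit 57375) (nat_lit 2) (.e (nat_lit 90172) (nat_lit 14) (.e (nat_lit 180244) (nat_lit 5) (.e (nat_lit 532514) (nat_lit 3) (.e (nat_lit 114719) (nat_lit 23) (.e (nat_lit 98333) (nat_lit 18) (.e (nat_lit 164400) (nat_lit 256) .nil))))))) (.g (nat_lit 4) .nil .nil)))))) (.nd (nat_lit 3) (.nd (nat_lit 4) (.nd (nat_lit 5) 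
(.lf (nat_lit 147591) (.g (nat_lit 3116) (.e (nat_lit 57375) (nat_lit 2) (.e (nat_lit 90172) (nat_lit 14) (.e (nat_lit 180244) (nat_lit 5) (.e (nat_lit 532513) (nat_lit 3) (.e (nat_lit 114714) (nat_lit 22) (.e (nat_lit 90181) (nat_lit 16) (.e (nat_lit 229376) (nat_lit 0) (.e (nat_lit 5935) (nat_lit 322) .nil)))))))) (.g (nat_lit 5) .nil .nil))) 
(.lf (nat_lit 147623) (.g (nat_lit 3756) (.e (nat_lit 57375) (nat_lit 2) (.e (nat_lit 90172) (nat_lit 14) (.e (nat_lit 180244) (nat_lit 5) (.e (nat_lit 532513) (nat_lit 3) (.e (nat_lit 114719) (nat_lit 23) (.e (nat_lit 98325) (nat_lit 17) (.e (nat_lit 2515) (nat_lit 157) (.e (nat_lit 5934) (nat_lit 322) .nil)))))))) (.g (nat_lit 5) .nil .nil)))) (.nd (nat_lit 5) 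
(.lf (nat_lit 147607) (.g (nat_lit 2562) (.e (nat_lit 57375) (nat_lit 2) (.e (nat_lit 90172) (nat_lit 14) (.e (nat_lit 180244) (nat_lit 5) (.e (nat_lit 532513) (nat_lit 3) (.e (nat_lit 114718) (nat_lit 23) (.e (nat_lit 98332) (nat_lit 18) (.e (nat_lit 164397) (nat_lit 256) .nil))))))) (.g (nat_lit 4) .nil .nil))) 
(.lf (nat_lit 147639) (.g (nat_lit 2799) (.e (nat_lit 57375) (nat_lit 2) (.e (nat_lit 90172) (nat_lit 14) (.e (nat_lit 180244) (nat_lit 5) (.e (nat_lit 532514) (nat_lit 3) (.e (nat_lit 114718) (nat_lit 23) (.e (nat_lit 98334) (nat_lit 18) (.e (nat_lit 164397) (nat_lit 256) .nil))))))) (.g (nat_lit 5) .nil .nil))))) (.nd (nat_lit 4) (.nd (nat_lit 5) 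
(.lf (nat_lit 147599) (.g (nat_lit 2633) (.e (nat_lit 57375) (nat_lit 2) (.e (nat_lit 90172) (nat_lit 14) (.e (nat_lit 180244) (nat_lit 5) (.e (nat_lit 532513) (nat_lit 3) (.e (nat_lit 114717) (nat_lit 23) (.e (nat_lit 98333) (nat_lit 18) (.e (nat_lit 164397) (nat_lit 256) .nil))))))) (.g (nat_lit 4) .nil .nil))) 
(.lf (nat_lit 147631) (.g (nat_lit 4278) (.e (nat_lit 57375) (nat_lit 2) (.e (nat_lit 90172) (nat_lit 14) (.e (nat_lit 180244) (nat_lit 5) (.e (nat_lit 532513) (nat_lit 3) (.e (nat_lit 114719) (nat_lit 23) (.e (nat_lit 98333) (nat_lit 18) (.e (nat_lit 164400) (nat_lit 256) .nil))))))) (.g (nat_lit 6) .nil .nil)))) (.nd (nat_lit 5) 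
(.lf (nat_lit 147615) (.g (nat_lit 3868) (.e (nat_lit 57375) (nat_lit 2) (.e (nat_lit 90172) (nat_lit 14) (.e (nat_lit 180244) (nat_lit 5) (.e (nat_lit 532513) (nat_lit 3) (.e (nat_lit 114718) (nat_lit 23) (.e (nat_lit 98334) (nat_lit 18) (.e (nat_lit 164396) (nat_lit 256) .nil))))))) (.g (nat_lit 6) .nil .nil))) 
(.lf (nat_lit 147647) (.g (nat_lit 1003) (.e (nat_lit 57375) (nat_lit 2) (.e (nat_lit 90172) (nat_lit 14) (.e (nat_lit 180244) (nat_lit 5) (.e (nat_lit 532515) (nat_lit 3) .nil)))) .nil))))))))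

noncomputable def tv1963 : DT := (.nd (nat_lit 0) (.nd (nat_lit 1) (.nd (nat_lit 2) (.nd (nat_lit 3) (.nd (nat_lit 4) (.nd (nat_lit 5) 
(.lf (nat_lit 147648) (.g (nat_lit 2332) (.e (nat_lit 57375) (nat_lit 2) (.e (nat_lit 90172) (nat_lit 14) (.e (nat_lit 180244) (nat_lit 5) (.e (nat_lit 532515) (nat_lit 3) (.e (nat_lit 114708) (nat_lit 20) (.e (nat_lit 1800) (nat_lit 119) (.e (nat_lit 516117) (nat_lit 1) (.e (nat_lit 164397) (nat_lit 256) .nil)))))))) (.g (nat_lit 4) .nil .nil))) 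
(.lf (nat_lit 147680) (.g (nat_lit 3954) (.e (nat_lit 57375) (nat_lit 2) (.e (nat_lit 90172) (nat_lit 14) (.e (nat_lit 180244) (nat_lit 5) (.e (nat_lit 532515) (nat_lit 3) (.e (nat_lit 114718) (nat_lit 23) (.e (nat_lit 98334) (nat_lit 18) (.e (nat_lit 164400) (nat_lit 256) .nil))))))) (.g (nat_lit 7) .nil .nil)))) (.nd (nat_lit 5) 
(.lf (nat_lit 147664) (.g (nat_lit 3112) (.e (nat_lit 57375) (nat_lit 2) (.e (nat_lit 90172) (nat_lit 14) (.e (nat_lit 180244) (nat_lit 5) (.e (nat_lit 532515) (nat_lit 3) (.e (nat_lit 114716) (nat_lit 22) (.e (nat_lit 90181) (nat_lit 16) (.e (nat_lit 229376) (nat_lit 0) (.e (nat_lit 5940) (nat_lit 322) .nil)))))))) (.g (nat_lit 6) .nil .nil))) 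
(.lf (nat_lit 147696) (.g (nat_lit 2674) (.e (nat_lit 57375) (nat_lit 2) (.e (nat_lit 90172) (nat_lit 14) (.e (nat_lit 180244) (nat_lit 5) (.e (nat_lit 532515) (nat_lit 3) (.e (nat_lit 114719) (nat_lit 23) (.e (nat_lit 98343) (nat_lit 21) (.e (nat_lit 229707) (nat_lit 256) .nil))))))) (.g (nat_lit 5) .nil .nil))))) (.nd (nat_lit 4) (.nd (nat_lit 5) 
(.lf (nat_lit 147656) (.g (nat_lit 3376) (.e (nat_lit 57375) (nat_lit 2) (.e (nat_lit 90172) (nat_lit 14) (.e (nat_lit 180244) (nat_lit 5) (.e (nat_lit 532515) (nat_lit 3) (.e (nat_lit 114716) (nat_lit 22) (.e (nat_lit 90128) (nat_lit 9) (.e (nat_lit 2615) (nat_lit 163) (.e (nat_lit 164400) (nat_lit 256) .nil)))))))) (.g (nat_lit 6) .nil .nil))) 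
(.lf (nat_lit 147688) (.g (nat_lit 3828) (.e (nat_lit 57375) (nat_lit 2) (.e (nat_lit 90172) (nat_lit 14) (.e (nat_lit 180244) (nat_lit 5) (.e (nat_lit 532515) (nat_lit 3) (.e (nat_lit 114719) (nat_lit 23) (.e (nat_lit 98333) (nat_lit 18) (.e (nat_lit 164397) (nat_lit 256) .nil))))))) (.g (nat_lit 6) .nil .nil)))) (.nd (nat_lit 5) 
(.lf (nat_lit 147672) (.g (nat_lit 3231) (.e (nat_lit 57375) (nat_lit 2) (.e (nat_lit 90172) (nat_lit 14) (.e (nat_lit 180244) (nat_lit 5) (.e (nat_lit 532515) (nat_lit 3) (.e (nat_lit 114717) (nat_lit 23) (.e (nat_lit 98334) (nat_lit 18) (.e (nat_lit 164400) (nat_lit 256) .nil))))))) (.g (nat_lit 6) .nil .nil))) 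
(.lf (nat_lit 147704) (.g (nat_lit 2497) (.e (nat_lit 57375) (nat_lit 2) (.e (nat_lit 90172) (nat_lit 14) (.e (nat_lit 180244) (nat_lit 5) (.e (nat_lit 532579) (nat_lit 26) (.e (nat_lit 426139) (nat_lit 3) (.e (nat_lit 204821) (nat_lit 17) (.e (nat_lit 7936) (nat_lit 81) (.e (nat_lit 7696) (nat_lit 412) .nil)))))))) (.g (nat_lit 4) .nil .nil)))))) 
(.nd (nat_lit 3) (.nd (nat_lit 4) (.nd (nat_lit 5) 
(.lf (nat_lit 147652) (.g (nat_lit 3495) (.e (nat_lit 57375) (nat_lit 2) (.e (nat_lit 90172) (nat_lit 14) (.e (nat_lit 180244) (nat_lit 5) (.e (nat_lit 532515) (nat_lit 3) (.e (nat_lit 114715) (nat_lit 22) (.e (nat_lit 90165) (nat_lit 12) (.e (nat_lit 171776) (nat_lit 0) (.e (nat_lit 5937) (nat_lit 322) .nil)))))))) (.g (nat_lit 6) .nil .nil))) 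
(.lf (nat_lit 147684) (.g (nat_lit 2762) (.e (nat_lit 57375) (nat_lit 2) (.e (nat_lit 90172) (nat_lit 14) (.e (nat_lit 180244) (nat_lit 5) (.e (nat_lit 532515) (nat_lit 3) (.e (nat_lit 114719) (nat_lit 23) (.e (nat_lit 98331) (nat_lit 17) (.e (nat_lit 2444) (nat_lit 157) (.e (nat_lit 5934) (nat_lit 322) .nil)))))))) (.g (nat_lit 5) .nil .nil)))) (.nd (nat_lit 5) 
(.lf (nat_lit 147668) (.g (nat_lit 2940) (.e (nat_lit 57375) (nat_lit 2) (.e (nat_lit 90172) (nat_lit 14) (.e (nat_lit 180244) (nat_lit 5) (.e (nat_lit 532515) (nat_lit 3) (.e (nat_lit 114716) (nat_lit 22) (.e (nat_lit 90181) (nat_lit 16) (.e (nat_lit 229378) (nat_lit 0) (.e (nat_lit 5936) (nat_lit 322) .nil)))))))) (.g (nat_lit 5) .nil .nil))) 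
(.lf (nat_lit 147700) (.g (nat_lit 2713) (.e (nat_lit 57375) (nat_lit 2) (.e (nat_lit 90172) (nat_lit 14) (.e (nat_lit 180244) (nat_lit 5) (.e (nat_lit 532579) (nat_lit 26) (.e (nat_lit 426139) (nat_lit 3) (.e (nat_lit 204815) (nat_lit 17) (.e (nat_lit 999) (nat_lit 81) (.e (nat_lit 7695) (nat_lit 412) .nil)))))))) (.g (nat_lit 4) .nil .nil))))) (.nd (nat_lit 4) (.nd (nat_lit 5) 
(.lf (nat_lit 147660) (.g (nat_lit 2576) (.e (nat_lit 57375) (nat_lit 2) (.e (nat_lit 90172) (nat_lit 14) (.e (nat_lit 180244) (nat_lit 5) (.e (nat_lit 532515) (nat_lit 3) (.e (nat_lit 114716) (nat_lit 22) (.e (nat_lit 90163) (nat_lit 12) (.e (nat_lit 163843) (nat_lit 0) (.e (nat_lit 5940) (nat_lit 322) .nil)))))))) (.g (nat_lit 5) .nil .nil))) 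
(.lf (nat_lit 147692) (.g (nat_lit 4087) (.e (nat_lit 57375) (nat_lit 2) (.e (nat_lit 90172) (nat_lit 14) (.e (nat_lit 180244) (nat_lit 5) (.e (nat_lit 532515) (nat_lit 3) (.e (nat_lit 114719) (nat_lit 23) (.e (nat_lit 98334) (nat_lit 18) (.e (nat_lit 164397) (nat_lit 256) .nil))))))) (.g (nat_lit 6) .nil .nil)))) (.nd (nat_lit 5) 
(.lf (nat_lit 147676) (.g (nat_lit 3636) (.e (nat_lit 57375) (nat_lit 2) (.e (nat_lit 90172) (nat_lit 14) (.e (nat_lit 180244) (nat_lit 5) (.e (nat_lit 532515) (nat_lit 3) (.e (nat_lit 114718) (nat_lit 23) (.e (nat_lit 98333) (nat_lit 18) (.e (nat_lit 164398) (nat_lit 256) .nil))))))) (.g (nat_lit 6) .nil .nil))) 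
(.lf (nat_lit 147708) (.g (nat_lit 3955) (.e (nat_lit 57375) (nat_lit 2) (.e (nat_lit 90172) (nat_lit 14) (.e (nat_lit 180244) (nat_lit 5) (.e (nat_lit 532579) (nat_lit 26) (.e (nat_lit 426139) (nat_lit 3) (.e (nat_lit 204830) (nat_lit 18) (.e (nat_lit 65280) (nat_lit 166) .nil))))))) (.g (nat_lit 6) .nil .nil))))))) (.nd (nat_lit 2) (.nd (nat_lit 3) (.nd (nat_lit 4) (.nd (nat_lit 5) 
(.lf (nat_lit 147650) (.g (nat_lit 2674) (.e (nat_lit 57375) (nat_lit 2) (.e (nat_lit 90172) (nat_lit 14) (.e (nat_lit 180244) (nat_lit 5) (.e (nat_lit 532515) (nat_lit 3) (.e (nat_lit 114715) (nat_lit 22) (.e (nat_lit 90165) (nat_lit 12) (.e (nat_lit 171776) (nat_lit 0) (.e (nat_lit 5933) (nat_lit 322) .nil)))))))) (.g (nat_lit 5) .nil .nil))) 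
(.lf (nat_lit 147682) (.g (nat_lit 2810) (.e (nat_lit 57375) (nat_lit 2) (.e (nat_lit 90172) (nat_lit 14) (.e (nat_lit 180244) (nat_lit 5) (.e (nat_lit 532515) (nat_lit 3) (.e (nat_lit 114719) (nat_lit 23) (.e (nat_lit 98325) (nat_lit 17) (.e (nat_lit 2458) (nat_lit 157) (.e (nat_lit 5939) (nat_lit 322) .nil)))))))) (.g (nat_lit 5) .nil .nil)))) (.nd (nat_lit 5) 
(.lf (nat_lit 147666) (.g (nat_lit 2161) (.e (nat_lit 57375) (nat_lit 2) (.e (nat_lit 90172) (nat_lit 14) (.e (nat_lit 180244) (nat_lit 5) (.e (nat_lit 532515) (nat_lit 3) (.e (nat_lit 114716) (nat_lit 22) (.e (nat_lit 90181) (nat_lit 16) (.e (nat_lit 229378) (nat_lit 0) (.e (nat_lit 5934) (nat_lit 322) .nil)))))))) (.g (nat_lit 4) .nil .nil))) 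
(.lf (nat_lit 147698) (.g (nat_lit 3111) (.e (nat_lit 57375) (nat_lit 2) (.e (nat_lit 90172) (nat_lit 14) (.e (nat_lit 180244) (nat_lit 5) (.e (nat_lit 532579) (nat_lit 26) (.e (nat_lit 426124) (nat_lit 2) (.e (nat_lit 196660) (nat_lit 12) (.e (nat_lit 57347) (nat_lit 0) (.e (nat_lit 7695) (nat_lit 412) .nil)))))))) (.g (nat_lit 5) .nil .nil))))) (.nd (nat_lit 4) (.nd (nat_lit 5) 
(.lf (nat_lit 147658) (.g (nat_lit 2960) (.e (nat_lit 57375) (nat_lit 2) (.e (nat_lit 90172) (nat_lit 14) (.e (nat_lit 180244) (nat_lit 5) (.e (nat_lit 532515) (nat_lit 3) (.e (nat_lit 114716) (nat_lit 22) (.e (nat_lit 90162) (nat_lit 12) (.e (nat_lit 163844) (nat_lit 0) (.e (nat_lit 5943) (nat_lit 322) .nil)))))))) (.g (nat_lit 7) .nil .nil))) 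
(.lf (nat_lit 147690) (.g (nat_lit 3898) (.e (nat_lit 57375) (nat_lit 2) (.e (nat_lit 90172) (nat_lit 14) (.e (nat_lit 180244) (nat_lit 5) (.e (nat_lit 532515) (nat_lit 3) (.e (nat_lit 114719) (nat_lit 23) (.e (nat_lit 98333) (nat_lit 18) (.e (nat_lit 164400) (nat_lit 256) .nil))))))) (.g (nat_lit 6) .nil .nil)))) (.nd (nat_lit 5) 
(.lf (nat_lit 147674) (.g (nat_lit 2151) (.e (nat_lit 57375) (nat_lit 2) (.e (nat_lit 90172) (nat_lit 14) (.e (nat_lit 180244) (nat_lit 5) (.e (nat_lit 532515) (nat_lit 3) (.e (nat_lit 114718) (nat_lit 23) (.e (nat_lit 98333) (nat_lit 18) (.e (nat_lit 164396) (nat_lit 256) .nil))))))) (.g (nat_lit 4) .nil .nil))) 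
(.lf (nat_lit 147706) (.g (nat_lit 2415) (.e (nat_lit 57375) (nat_lit 2) (.e (nat_lit 90172) (nat_lit 14) (.e (nat_lit 180244) (nat_lit 5) (.e (nat_lit 532579) (nat_lit 26) (.e (nat_lit 426139) (nat_lit 3) (.e (nat_lit 204825) (nat_lit 17) (.e (nat_lit 982) (nat_lit 81) (.e (nat_lit 7695) (nat_lit 412) .nil)))))))) (.g (nat_lit 4) .nil .nil)))))) (.nd (nat_lit 3) (.nd (nat_lit 4) (.nd (nat_lit 5) 
(.lf (nat_lit 147654) (.g (nat_lit 1379) (.e (nat_lit 57375) (nat_lit 2) (.e (nat_lit 90172) (nat_lit 14) (.e (nat_lit 180244) (nat_lit 5) (.e (nat_lit 532515) (nat_lit 3) (.e (nat_lit 114716) (nat_lit 22) .nil))))) .nil)) 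
(.lf (nat_lit 147686) (.g (nat_lit 3513) (.e (nat_lit 57375) (nat_lit 2) (.e (nat_lit 90172) (nat_lit 14) (.e (nat_lit 180244) (nat_lit 5) (.e (nat_lit 532515) (nat_lit 3) (.e (nat_lit 114719) (nat_lit 23) (.e (nat_lit 98332) (nat_lit 18) (.e (nat_lit 164400) (nat_lit 256) .nil))))))) (.g (nat_lit 0) .nil .nil)))) (.nd (nat_lit 5) 
(.lf (nat_lit 147670) (.g (nat_lit 2521) (.e (nat_lit 57375) (nat_lit 2) (.e (nat_lit 90172) (nat_lit 14) (.e (nat_lit 180244) (nat_lit 5) (.e (nat_lit 532515) (nat_lit 3) (.e (nat_lit 114717) (nat_lit 23) (.e (nat_lit 98334) (nat_lit 18) (.e (nat_lit 164396) (nat_lit 256) .nil))))))) (.g (nat_lit 4) .nil .nil))) 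
(.lf (nat_lit 147702) (.g (nat_lit 3656) (.e (nat_lit 57375) (nat_lit 2) (.e (nat_lit 90172) (nat_lit 14) (.e (nat_lit 180244) (nat_lit 5) (.e (nat_lit 532579) (nat_lit 26) (.e (nat_lit 426139) (nat_lit 3) (.e (nat_lit 204819) (nat_lit 17) (.e (nat_lit 968) (nat_lit 81) (.e (nat_lit 7694) (nat_lit 412) .nil)))))))) (.g (nat_lit 5) .nil .nil))))) (.nd (nat_lit 4) (.nd (nat_lit 5) 
(.lf (nat_lit 147662) (.g (nat_lit 2199) (.e (nat_lit 57375) (nat_lit 2) (.e (nat_lit 90172) (nat_lit 14) (.e (nat_lit 180244) (nat_lit 5) (.e (nat_lit 532515) (nat_lit 3) (.e (nat_lit 114716) (nat_lit 22) (.e (nat_lit 90179) (nat_lit 16) (.e (nat_lit 229379) (nat_lit 0) (.e (nat_lit 5938) (nat_lit 322) .nil)))))))) (.g (nat_lit 4) .nil .nil))) 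
(.lf (nat_lit 147694) (.g (nat_lit 4161) (.e (nat_lit 57375) (nat_lit 2) (.e (nat_lit 90172) (nat_lit 14) (.e (nat_lit 180244) (nat_lit 5) (.e (nat_lit 532515) (nat_lit 3) (.e (nat_lit 114719) (nat_lit 23) (.e (nat_lit 98334) (nat_lit 18) (.e (nat_lit 164399) (nat_lit 256) .nil))))))) (.g (nat_lit 7) .nil .nil)))) (.nd (nat_lit 5) 
(.lf (nat_lit 147678) (.g (nat_lit 3793) (.e (nat_lit 57375) (nat_lit 2) (.e (nat_lit 90172) (nat_lit 14) (.e (nat_lit 180244) (nat_lit 5) (.e (nat_lit 532515) (nat_lit 3) (.e (nat_lit 114718) (nat_lit 23) (.e (nat_lit 98333) (nat_lit 18) (.e (nat_lit 164400) (nat_lit 256) .nil))))))) (.g (nat_lit 6) .nil .nil))) 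
(.lf (nat_lit 147710) (.g (nat_lit 3483) (.e (nat_lit 57375) (nat_lit 2) (.e (nat_lit 90172) (nat_lit 14) (.e (nat_lit 180250) (nat_lit 10) (.e (nat_lit 573451) (nat_lit 9) (.e (nat_lit 1449) (nat_lit 108) (.e (nat_lit 336013) (nat_lit 2) (.e (nat_lit 90165) (nat_lit 12) (.e (nat_lit 163849) (nat_lit 0) (.e (nat_lit 6828) (nat_lit 367) .nil))))))))) (.g (nat_lit 4) .nil .nil)))))))) 
(.nd (nat_lit 1) (.nd (nat_lit 2) (.nd (nat_lit 3) (.nd (nat_lit 4) (.nd (nat_lit 5) 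
(.lf (nat_lit 147649) (.g (nat_lit 2497) (.e (nat_lit 57375) (nat_lit 2) (.e (nat_lit 90172) (nat_lit 14) (.e (nat_lit 180244) (nat_lit 5) (.e (nat_lit 532515) (nat_lit 3) (.e (nat_lit 114715) (nat_lit 22) (.e (nat_lit 90165) (nat_lit 12) (.e (nat_lit 163853) (nat_lit 0) (.e (nat_lit 5934) (nat_lit 322) .nil)))))))) (.g (nat_lit 5) .nil .nil))) 
(.lf (nat_lit 147681) (.g (nat_lit 2597) (.e (nat_lit 57375) (nat_lit 2) (.e (nat_lit 90172) (nat_lit 14) (.e (nat_lit 180244) (nat_lit 5) (.e (nat_lit 532515) (nat_lit 3) (.e (nat_lit 114719) (nat_lit 23) (.e (nat_lit 98325) (nat_lit 17) (.e (nat_lit 2458) (nat_lit 157) (.e (nat_lit 5935) (nat_lit 322) .nil)))))))) (.g (nat_lit 5) .nil .nil)))) (.nd (nat_lit 5) 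
(.lf (nat_lit 147665) (.g (nat_lit 2957) (.e (nat_lit 57375) (nat_lit 2) (.e (nat_lit 90172) (nat_lit 14) (.e (nat_lit 180244) (nat_lit 5) (.e (nat_lit 532515) (nat_lit 3) (.e (nat_lit 114716) (nat_lit 22) (.e (nat_lit 90181) (nat_lit 16) (.e (nat_lit 229376) (nat_lit 0) (.e (nat_lit 5942) (nat_lit 322) .nil)))))))) (.g (nat_lit 5) .nil .nil))) 
(.lf (nat_lit 147697) (.g (nat_lit 2575) (.e (nat_lit 57375) (nat_lit 2) (.e (nat_lit 90172) (nat_lit 14) (.e (nat_lit 180244) (nat_lit 5) (.e (nat_lit 532579) (nat_lit 26) (.e (nat_lit 426123) (nat_lit 2) (.e (nat_lit 196661) (nat_lit 12) (.e (nat_lit 57352) (nat_lit 0) (.e (nat_lit 7695) (nat_lit 412) .nil)))))))) (.g (nat_lit 4) .nil .nil))))) (.nd (nat_lit 4) (.nd (nat_lit 5) 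
(.lf (nat_lit 147657) (.g (nat_lit 2927) (.e (nat_lit 57375) (nat_lit 2) (.e (nat_lit 90172) (nat_lit 14) (.e (nat_lit 180244) (nat_lit 5) (.e (nat_lit 532515) (nat_lit 3) (.e (nat_lit 114716) (nat_lit 22) (.e (nat_lit 90140) (nat_lit 9) (.e (nat_lit 2611) (nat_lit 163) (.e (nat_lit 164396) (nat_lit 256) .nil)))))))) (.g (nat_lit 5) .nil .nil))) 
(.lf (nat_lit 147689) (.g (nat_lit 4294) (.e (nat_lit 57375) (nat_lit 2) (.e (nat_lit 90172) (nat_lit 14) (.e (nat_lit 180244) (nat_lit 5) (.e (nat_lit 532515) (nat_lit 3) (.e (nat_lit 114719) (nat_lit 23) (.e (nat_lit 98333) (nat_lit 18) (.e (nat_lit 164399) (nat_lit 256) .nil))))))) (.g (nat_lit 7) .nil .nil)))) (.nd (nat_lit 5) 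
(.lf (nat_lit 147673) (.g (nat_lit 2750) (.e (nat_lit 57375) (nat_lit 2) (.e (nat_lit 90172) (nat_lit 14) (.e (nat_lit 180244) (nat_lit 5) (.e (nat_lit 532515) (nat_lit 3) (.e (nat_lit 114718) (nat_lit 23) (.e (nat_lit 98325) (nat_lit 17) (.e (nat_lit 2515) (nat_lit 157) (.e (nat_lit 5934) (nat_lit 322) .nil)))))))) (.g (nat_lit 5) .nil .nil))) 
(.lf (nat_lit 147705) (.g (nat_lit 2622) (.e (nat_lit 57375) (nat_lit 2) (.e (nat_lit 90172) (nat_lit 14) (.e (nat_lit 180244) (nat_lit 5) (.e (nat_lit 532579) (nat_lit 26) (.e (nat_lit 426139) (nat_lit 3) (.e (nat_lit 204822) (nat_lit 17) (.e (nat_lit 993) (nat_lit 81) (.e (nat_lit 7695) (nat_lit 412) .nil)))))))) (.g (nat_lit 4) .nil .nil)))))) (.nd (nat_lit 3) (.nd (nat_lit 4) (.nd (nat_lit 5) 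
(.lf (nat_lit 147653) (.g (nat_lit 2101) (.e (nat_lit 57375) (nat_lit 2) (.e (nat_lit 90172) (nat_lit 14) (.e (nat_lit 180244) (nat_lit 5) (.e (nat_lit 532515) (nat_lit 3) (.e (nat_lit 114715) (nat_lit 22) (.e (nat_lit 90165) (nat_lit 12) (.e (nat_lit 171776) (nat_lit 0) (.e (nat_lit 5938) (nat_lit 322) .nil)))))))) (.g (nat_lit 4) .nil .nil))) 
(.lf (nat_lit 147685) (.g (nat_lit 2379) (.e (nat_lit 57375) (nat_lit 2) (.e (nat_lit 90172) (nat_lit 14) (.e (nat_lit 180244) (nat_lit 5) (.e (nat_lit 532515) (nat_lit 3) (.e (nat_lit 114719) (nat_lit 23) (.e (nat_lit 98332) (nat_lit 18) (.e (nat_lit 164396) (nat_lit 256) .nil))))))) (.g (nat_lit 5) .nil .nil)))) (.nd (nat_lit 5) 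
(.lf (nat_lit 147669) (.g (nat_lit 3189) (.e (nat_lit 57375) (nat_lit 2) (.e (nat_lit 90172) (nat_lit 14) (.e (nat_lit 180244) (nat_lit 5) (.e (nat_lit 532515) (nat_lit 3) (.e (nat_lit 114716) (nat_lit 22) (.e (nat_lit 90181) (nat_lit 16) (.e (nat_lit 229382) (nat_lit 0) (.e (nat_lit 5934) (nat_lit 322) .nil)))))))) (.g (nat_lit 6) .nil .nil))) 
(.lf (nat_lit 147701) (.g (nat_lit 2695) (.e (nat_lit 57375) (nat_lit 2) (.e (nat_lit 90172) (nat_lit 14) (.e (nat_lit 180244) (nat_lit 5) (.e (nat_lit 532579) (nat_lit 26) (.e (nat_lit 426139) (nat_lit 3) (.e (nat_lit 204815) (nat_lit 17) (.e (nat_lit 1016) (nat_lit 81) (.e (nat_lit 7695) (nat_lit 412) .nil)))))))) (.g (nat_lit 4) .nil .nil))))) (.nd (nat_lit 4) (.nd (nat_lit 5) 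
(.lf (nat_lit 147661) (.g (nat_lit 2115) (.e (nat_lit 57375) (nat_lit 2) (.e (nat_lit 90172) (nat_lit 14) (.e (nat_lit 180244) (nat_lit 5) (.e (nat_lit 532515) (nat_lit 3) (.e (nat_lit 114716) (nat_lit 22) (.e (nat_lit 90164) (nat_lit 12) (.e (nat_lit 163850) (nat_lit 0) (.e (nat_lit 5938) (nat_lit 322) .nil)))))))) (.g (nat_lit 4) .nil .nil))) 
(.lf (nat_lit 147693) (.g (nat_lit 4511) (.e (nat_lit 57375) (nat_lit 2) (.e (nat_lit 90172) (nat_lit 14) (.e (nat_lit 180244) (nat_lit 5) (.e (nat_lit 532515) (nat_lit 3) (.e (nat_lit 114719) (nat_lit 23) (.e (nat_lit 98334) (nat_lit 18) (.e (nat_lit 164398) (nat_lit 256) .nil))))))) (.g (nat_lit 7) .nil .nil)))) (.nd (nat_lit 5) 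
(.lf (nat_lit 147677) (.g (nat_lit 4132) (.e (nat_lit 57375) (nat_lit 2) (.e (nat_lit 90172) (nat_lit 14) (.e (nat_lit 180244) (nat_lit 5) (.e (nat_lit 532515) (nat_lit 3) (.e (nat_lit 114718) (nat_lit 23) (.e (nat_lit 98333) (nat_lit 18) (.e (nat_lit 164399) (nat_lit 256) .nil))))))) (.g (nat_lit 7) .nil .nil))) 
(.lf (nat_lit 147709) (.g (nat_lit 468) (.e (nat_lit 57375) (nat_lit 2) (.e (nat_lit 90172) (nat_lit 14) (.e (nat_lit 180250) (nat_lit 10) .nil))) .nil)))))) (.nd (nat_lit 2) (.nd (nat_lit 3) (.nd (nat_lit 4) (.nd (nat_lit 5) 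
(.lf (nat_lit 147651) (.g (nat_lit 2518) (.e (nat_lit 57375) (nat_lit 2) (.e (nat_lit 90172) (nat_lit 14) (.e (nat_lit 180244) (nat_lit 5) (.e (nat_lit 532515) (nat_lit 3) (.e (nat_lit 114715) (nat_lit 22) (.e (nat_lit 90165) (nat_lit 12) (.e (nat_lit 171776) (nat_lit 0) (.e (nat_lit 5936) (nat_lit 322) .nil)))))))) (.g (nat_lit 4) .nil .nil))) 
(.lf (nat_lit 147683) (.g (nat_lit 2396) (.e (nat_lit 57375) (nat_lit 2) (.e (nat_lit 90172) (nat_lit 14) (.e (nat_lit 180244) (nat_lit 5) (.e (nat_lit 532515) (nat_lit 3) (.e (nat_lit 114719) (nat_lit 23) (.e (nat_lit 98325) (nat_lit 17) (.e (nat_lit 2478) (nat_lit 157) (.e (nat_lit 5934) (nat_lit 322) .nil)))))))) (.g (nat_lit 5) .nil .nil)))) (.nd (nat_lit 5) 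
(.lf (nat_lit 147667) (.g (nat_lit 3326) (.e (nat_lit 57375) (nat_lit 2) (.e (nat_lit 90172) (nat_lit 14) (.e (nat_lit 180244) (nat_lit 5) (.e (nat_lit 532515) (nat_lit 3) (.e (nat_lit 114716) (nat_lit 22) (.e (nat_lit 90181) (nat_lit 16) (.e (nat_lit 229378) (nat_lit 0) (.e (nat_lit 5935) (nat_lit 322) .nil)))))))) (.g (nat_lit 6) .nil .nil))) 
(.lf (nat_lit 147699) (.g (nat_lit 3423) (.e (nat_lit 57375) (nat_lit 2) (.e (nat_lit 90172) (nat_lit 14) (.e (nat_lit 180244) (nat_lit 5) (.e (nat_lit 532579) (nat_lit 26) (.e (nat_lit 426139) (nat_lit 3) (.e (nat_lit 204815) (nat_lit 17) (.e (nat_lit 996) (nat_lit 81) (.e (nat_lit 7695) (nat_lit 412) .nil)))))))) (.g (nat_lit 5) .nil .nil))))) (.nd (nat_lit 4) (.nd (nat_lit 5) 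
(.lf (nat_lit 147659) (.g (nat_lit 2649) (.e (nat_lit 57375) (nat_lit 2) (.e (nat_lit 90172) (nat_lit 14) (.e (nat_lit 180244) (nat_lit 5) (.e (nat_lit 532515) (nat_lit 3) (.e (nat_lit 114716) (nat_lit 22) (.e (nat_lit 90162) (nat_lit 12) (.e (nat_lit 163849) (nat_lit 0) (.e (nat_lit 5934) (nat_lit 322) .nil)))))))) (.g (nat_lit 5) .nil .nil))) 
(.lf (nat_lit 147691) (.g (nat_lit 3337) (.e (nat_lit 57375) (nat_lit 2) (.e (nat_lit 90172) (nat_lit 14) (.e (nat_lit 180244) (nat_lit 5) (.e (nat_lit 532515) (nat_lit 3) (.e (nat_lit 114719) (nat_lit 23) (.e (nat_lit 98334) (nat_lit 18) (.e (nat_lit 164396) (nat_lit 256) .nil))))))) (.g (nat_lit 6) .nil .nil)))) (.nd (nat_lit 5) 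
(.lf (nat_lit 147675) (.g (nat_lit 3675) (.e (nat_lit 57375) (nat_lit 2) (.e (nat_lit 90172) (nat_lit 14) (.e (nat_lit 180244) (nat_lit 5) (.e (nat_lit 532515) (nat_lit 3) (.e (nat_lit 114718) (nat_lit 23) (.e (nat_lit 98333) (nat_lit 18) (.e (nat_lit 164397) (nat_lit 256) .nil))))))) (.g (nat_lit 6) .nil .nil))) 
(.lf (nat_lit 147707) (.g (nat_lit 4370) (.e (nat_lit 57375) (nat_lit 2) (.e (nat_lit 90172) (nat_lit 14) (.e (nat_lit 180244) (nat_lit 5) (.e (nat_lit 532579) (nat_lit 26) (.e (nat_lit 426139) (nat_lit 3) (.e (nat_lit 204829) (nat_lit 18) (.e (nat_lit 65280) (nat_lit 166) .nil))))))) (.g (nat_lit 6) .nil .nil)))))) (.nd (nat_lit 3) (.nd (nat_lit 4) (.nd (nat_lit 5) 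
(.lf (nat_lit 147655) (.g (nat_lit 2777) (.e (nat_lit 57375) (nat_lit 2) (.e (nat_lit 90172) (nat_lit 14) (.e (nat_lit 180244) (nat_lit 5) (.e (nat_lit 532515) (nat_lit 3) (.e (nat_lit 114716) (nat_lit 22) (.e (nat_lit 90128) (nat_lit 9) (.e (nat_lit 2615) (nat_lit 163) (.e (nat_lit 164397) (nat_lit 256) .nil)))))))) (.g (nat_lit 5) .nil .nil))) 
(.lf (nat_lit 147687) (.g (nat_lit 2275) (.e (nat_lit 57375) (nat_lit 2) (.e (nat_lit 90172) (nat_lit 14) (.e (nat_lit 180244) (nat_lit 5) (.e (nat_lit 532515) (nat_lit 3) (.e (nat_lit 114719) (nat_lit 23) (.e (nat_lit 98333) (nat_lit 18) (.e (nat_lit 164396) (nat_lit 256) .nil))))))) (.g (nat_lit 4) .nil .nil)))) (.nd (nat_lit 5) 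
(.lf (nat_lit 147671) (.g (nat_lit 3565) (.e (nat_lit 57375) (nat_lit 2) (.e (nat_lit 90172) (nat_lit 14) (.e (nat_lit 180244) (nat_lit 5) (.e (nat_lit 532515) (nat_lit 3) (.e (nat_lit 114717) (nat_lit 23) (.e (nat_lit 98334) (nat_lit 18) (.e (nat_lit 164397) (nat_lit 256) .nil))))))) (.g (nat_lit 6) .nil .nil))) 
(.lf (nat_lit 147703) (.g (nat_lit 3282) (.e (nat_lit 57375) (nat_lit 2) (.e (nat_lit 90172) (nat_lit 14) (.e (nat_lit 180244) (nat_lit 5) (.e (nat_lit 532579) (nat_lit 26) (.e (nat_lit 426139) (nat_lit 3) (.e (nat_lit 204819) (nat_lit 17) (.e (nat_lit 968) (nat_lit 81) (.e (nat_lit 7696) (nat_lit 412) .nil)))))))) (.g (nat_lit 5) .nil .nil))))) (.nd (nat_lit 4) (.nd (nat_lit 5) 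
(.lf (nat_lit 147663) (.g (nat_lit 3588) (.e (nat_lit 57375) (nat_lit 2) (.e (nat_lit 90172) (nat_lit 14) (.e (nat_lit 180244) (nat_lit 5) (.e (nat_lit 532515) (nat_lit 3) (.e (nat_lit 114716) (nat_lit 22) (.e (nat_lit 90181) (nat_lit 16) (.e (nat_lit 229376) (nat_lit 0) (.e (nat_lit 5936) (nat_lit 322) .nil)))))))) (.g (nat_lit 6) .nil .nil))) 
(.lf (nat_lit 147695) (.g (nat_lit 4014) (.e (nat_lit 57375) (nat_lit 2) (.e (nat_lit 90172) (nat_lit 14) (.e (nat_lit 180244) (nat_lit 5) (.e (nat_lit 532515) (nat_lit 3) (.e (nat_lit 114719) (nat_lit 23) (.e (nat_lit 98334) (nat_lit 18) (.e (nat_lit 164400) (nat_lit 256) .nil))))))) (.g (nat_lit 7) .nil .nil)))) (.nd (nat_lit 5) 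
(.lf (nat_lit 147679) (.g (nat_lit 4439) (.e (nat_lit 57375) (nat_lit 2) (.e (nat_lit 90172) (nat_lit 14) (.e (nat_lit 180244) (nat_lit 5) (.e (nat_lit 532515) (nat_lit 3) (.e (nat_lit 114718) (nat_lit 23) (.e (nat_lit 98334) (nat_lit 18) (.e (nat_lit 164398) (nat_lit 256) .nil))))))) (.g (nat_lit 7) .nil .nil))) 
(.lf (nat_lit 147711) (.g (nat_lit 2881) (.e (nat_lit 57375) (nat_lit 2) (.e (nat_lit 90172) (nat_lit 14) (.e (nat_lit 180250) (nat_lit 10) (.e (nat_lit 573480) (nat_lit 13) (.e (nat_lit 65568) (nat_lit 2) (.e (nat_lit 90165) (nat_lit 12) (.e (nat_lit 163849) (nat_lit 0) (.e (nat_lit 6828) (nat_lit 367) .nil)))))))) (.g (nat_lit 4) .nil .nil)))))))))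

noncomputable def tv1964 : DT := (.nd (nat_lit 0) (.nd (nat_lit 1) (.nd (nat_lit 2) (.nd (nat_lit 3) (.nd (nat_lit 4) (.nd (nat_lit 5) 
(.lf (nat_lit 147712) (.g (nat_lit 2934) (.e (nat_lit 57375) (nat_lit 2) (.e (nat_lit 90172) (nat_lit 14) (.e (nat_lit 180250) (nat_lit 10) (.e (nat_lit 573480) (nat_lit 13) (.e (nat_lit 65571) (nat_lit 3) (.e (nat_lit 98319) (nat_lit 17) (.e (nat_lit 2399) (nat_lit 157) (.e (nat_lit 6828) (nat_lit 367) .nil)))))))) (.g (nat_lit 4) .nil .nil))) 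
(.lf (nat_lit 147744) (.g (nat_lit 2605) (.e (nat_lit 57375) (nat_lit 2) (.e (nat_lit 90172) (nat_lit 14) (.e (nat_lit 180250) (nat_lit 10) (.e (nat_lit 573485) (nat_lit 13) (.e (nat_lit 65570) (nat_lit 3) (.e (nat_lit 98333) (nat_lit 18) (.e (nat_lit 171776) (nat_lit 160) .nil))))))) (.g (nat_lit 4) .nil .nil)))) (.nd (nat_lit 5) 
(.lf (nat_lit 147728) (.g (nat_lit 2673) (.e (nat_lit 57375) (nat_lit 2) (.e (nat_lit 90172) (nat_lit 14) (.e (nat_lit 180250) (nat_lit 10) (.e (nat_lit 573482) (nat_lit 13) (.e (nat_lit 65571) (nat_lit 3) (.e (nat_lit 98325) (nat_lit 17) (.e (nat_lit 2416) (nat_lit 157) (.e (nat_lit 6828) (nat_lit 367) .nil)))))))) (.g (nat_lit 4) .nil .nil))) 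
(.lf (nat_lit 147760) (.g (nat_lit 2417) (.e (nat_lit 57375) (nat_lit 2) (.e (nat_lit 90172) (nat_lit 14) (.e (nat_lit 180250) (nat_lit 10) (.e (nat_lit 573488) (nat_lit 14) (.e (nat_lit 81664) (nat_lit 5) .nil))))) .nil)))) (.nd (nat_lit 4) (.nd (nat_lit 5) 
(.lf (nat_lit 147720) (.g (nat_lit 2557) (.e (nat_lit 57375) (nat_lit 2) (.e (nat_lit 90172) (nat_lit 14) (.e (nat_lit 180250) (nat_lit 10) (.e (nat_lit 573482) (nat_lit 13) (.e (nat_lit 65569) (nat_lit 3) (.e (nat_lit 98325) (nat_lit 17) (.e (nat_lit 2416) (nat_lit 157) (.e (nat_lit 6828) (nat_lit 367) .nil)))))))) (.g (nat_lit 4) .nil .nil))) 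
(.lf (nat_lit 147752) (.g (nat_lit 4797) (.e (nat_lit 57375) (nat_lit 2) (.e (nat_lit 90172) (nat_lit 14) (.e (nat_lit 180250) (nat_lit 10) (.e (nat_lit 573487) (nat_lit 14) (.e (nat_lit 73747) (nat_lit 3) (.e (nat_lit 516115) (nat_lit 1) (.e (nat_lit 171776) (nat_lit 160) .nil))))))) (.g (nat_lit 6) .nil .nil)))) (.nd (nat_lit 5) 
(.lf (nat_lit 147736) (.g (nat_lit 2558) (.e (nat_lit 57375) (nat_lit 2) (.e (nat_lit 90172) (nat_lit 14) (.e (nat_lit 180250) (nat_lit 10) (.e (nat_lit 573484) (nat_lit 13) (.e (nat_lit 65569) (nat_lit 3) (.e (nat_lit 98321) (nat_lit 17) (.e (nat_lit 2416) (nat_lit 157) (.e (nat_lit 6828) (nat_lit 367) .nil)))))))) (.g (nat_lit 4) .nil .nil))) 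
(.lf (nat_lit 147768) (.g (nat_lit 934) (.e (nat_lit 57375) (nat_lit 2) (.e (nat_lit 90174) (nat_lit 14) (.e (nat_lit 180243) (nat_lit 5) (.e (nat_lit 532508) (nat_lit 2) .nil)))) .nil))))) (.nd (nat_lit 3) (.nd (nat_lit 4) (.nd (nat_lit 5) 
(.lf (nat_lit 147716) (.g (nat_lit 2754) (.e (nat_lit 57375) (nat_lit 2) (.e (nat_lit 90172) (nat_lit 14) (.e (nat_lit 180250) (nat_lit 10) (.e (nat_lit 573482) (nat_lit 13) (.e (nat_lit 65566) (nat_lit 2) (.e (nat_lit 90165) (nat_lit 12) (.e (nat_lit 163849) (nat_lit 0) (.e (nat_lit 6828) (nat_lit 367) .nil)))))))) (.g (nat_lit 4) .nil .nil))) 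
(.lf (nat_lit 147748) (.g (nat_lit 3876) (.e (nat_lit 57375) (nat_lit 2) (.e (nat_lit 90172) (nat_lit 14) (.e (nat_lit 180250) (nat_lit 10) (.e (nat_lit 573487) (nat_lit 14) (.e (nat_lit 73746) (nat_lit 3) (.e (nat_lit 516117) (nat_lit 1) (.e (nat_lit 171776) (nat_lit 160) .nil))))))) (.g (nat_lit 5) .nil .nil)))) (.nd (nat_lit 5) 
(.lf (nat_lit 147732) (.g (nat_lit 2721) (.e (nat_lit 57375) (nat_lit 2) (.e (nat_lit 90172) (nat_lit 14) (.e (nat_lit 180250) (nat_lit 10) (.e (nat_lit 573484) (nat_lit 13) (.e (nat_lit 65566) (nat_lit 2) .nil))))) .nil)) 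
(.lf (nat_lit 147764) (.g (nat_lit 1544) (.e (nat_lit 57375) (nat_lit 2) (.e (nat_lit 90172) (nat_lit 14) (.e (nat_lit 180285) (nat_lit 45) (.e (nat_lit 2569) (nat_lit 160) (.e (nat_lit 32807) (nat_lit 18) (.e (nat_lit 172070) (nat_lit 4) (.e (nat_lit 237312) (nat_lit 262) .nil))))))) (.g (nat_lit 5) .nil .nil))))) (.nd (nat_lit 4) (.nd (nat_lit 5) 
(.lf (nat_lit 147724) (.g (nat_lit 2976) (.e (nat_lit 57375) (nat_lit 2) (.e (nat_lit 90172) (nat_lit 14) (.e (nat_lit 180250) (nat_lit 10) (.e (nat_lit 573482) (nat_lit 13) (.e (nat_lit 65570) (nat_lit 3) (.e (nat_lit 98319) (nat_lit 17) (.e (nat_lit 2399) (nat_lit 157) (.e (nat_lit 6828) (nat_lit 367) .nil)))))))) (.g (nat_lit 4) .nil .nil))) 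
(.lf (nat_lit 147756) (.g (nat_lit 3486) (.e (nat_lit 57375) (nat_lit 2) (.e (nat_lit 90172) (nat_lit 14) (.e (nat_lit 180250) (nat_lit 10) (.e (nat_lit 573487) (nat_lit 14) (.e (nat_lit 81664) (nat_lit 5) (.e (nat_lit 532490) (nat_lit 0) (.e (nat_lit 7936) (nat_lit 81) (.e (nat_lit 7472) (nat_lit 398) .nil)))))))) (.g (nat_lit 4) .nil .nil)))) (.nd (nat_lit 5) 
(.lf (nat_lit 147740) (.g (nat_lit 2654) (.e (nat_lit 57375) (nat_lit 2) (.e (nat_lit 90172) (nat_lit 14) (.e (nat_lit 180250) (nat_lit 10) (.e (nat_lit 573484) (nat_lit 13) (.e (nat_lit 65571) (nat_lit 3) .nil))))) .nil)) 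
(.lf (nat_lit 147772) (.g (nat_lit 2129) (.e (nat_lit 57375) (nat_lit 2) (.e (nat_lit 90174) (nat_lit 14) (.e (nat_lit 180243) (nat_lit 5) (.e (nat_lit 532508) (nat_lit 2) (.e (nat_lit 106538) (nat_lit 12) (.e (nat_lit 57465) (nat_lit 23) (.e (nat_lit 516117) (nat_lit 1) (.e (nat_lit 164400) (nat_lit 256) .nil)))))))) (.g (nat_lit 4) .nil .nil))))))) 
(.nd (nat_lit 2) (.nd (nat_lit 3) (.nd (nat_lit 4) (.nd (nat_lit 5) 
(.lf (nat_lit 147714) (.g (nat_lit 2774) (.e (nat_lit 57375) (nat_lit 2) (.e (nat_lit 90172) (nat_lit 14) (.e (nat_lit 180250) (nat_lit 10) (.e (nat_lit 573481) (nat_lit 13) (.e (nat_lit 73472) (nat_lit 18) (.e (nat_lit 204840) (nat_lit 21) (.e (nat_lit 123194) (nat_lit 266) .nil))))))) (.g (nat_lit 4) .nil .nil))) 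
(.lf (nat_lit 147746) (.g (nat_lit 2334) (.e (nat_lit 57375) (nat_lit 2) (.e (nat_lit 90172) (nat_lit 14) (.e (nat_lit 180250) (nat_lit 10) (.e (nat_lit 573485) (nat_lit 13) (.e (nat_lit 65571) (nat_lit 3) (.e (nat_lit 98334) (nat_lit 18) (.e (nat_lit 171776) (nat_lit 160) .nil))))))) (.g (nat_lit 4) .nil .nil)))) (.nd (nat_lit 5) 
(.lf (nat_lit 147730) (.g (nat_lit 2482) (.e (nat_lit 57375) (nat_lit 2) (.e (nat_lit 90172) (nat_lit 14) (.e (nat_lit 180250) (nat_lit 10) (.e (nat_lit 573482) (nat_lit 13) (.e (nat_lit 65571) (nat_lit 3) (.e (nat_lit 98334) (nat_lit 18) (.e (nat_lit 171776) (nat_lit 160) .nil))))))) (.g (nat_lit 4) .nil .nil))) 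
(.lf (nat_lit 147762) (.g (nat_lit 2576) (.e (nat_lit 57375) (nat_lit 2) (.e (nat_lit 90172) (nat_lit 14) (.e (nat_lit 180252) (nat_lit 10) (.e (nat_lit 573489) (nat_lit 14) (.e (nat_lit 73755) (nat_lit 8) .nil))))) .nil)))) (.nd (nat_lit 4) (.nd (nat_lit 5) 
(.lf (nat_lit 147722) (.g (nat_lit 3279) (.e (nat_lit 57375) (nat_lit 2) (.e (nat_lit 90172) (nat_lit 14) (.e (nat_lit 180250) (nat_lit 10) (.e (nat_lit 573482) (nat_lit 13) (.e (nat_lit 65569) (nat_lit 3) (.e (nat_lit 98334) (nat_lit 18) (.e (nat_lit 171776) (nat_lit 160) .nil))))))) (.g (nat_lit 5) .nil .nil))) 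
(.lf (nat_lit 147754) (.g (nat_lit 3114) (.e (nat_lit 57375) (nat_lit 2) (.e (nat_lit 90172) (nat_lit 14) (.e (nat_lit 180250) (nat_lit 10) (.e (nat_lit 573487) (nat_lit 14) (.e (nat_lit 81664) (nat_lit 5) (.e (nat_lit 532481) (nat_lit 0) (.e (nat_lit 997) (nat_lit 81) (.e (nat_lit 7472) (nat_lit 398) .nil)))))))) (.g (nat_lit 4) .nil .nil)))) (.nd (nat_lit 5) 
(.lf (nat_lit 147738) (.g (nat_lit 3014) (.e (nat_lit 57375) (nat_lit 2) (.e (nat_lit 90172) (nat_lit 14) (.e (nat_lit 180250) (nat_lit 10) (.e (nat_lit 573484) (nat_lit 13) (.e (nat_lit 65569) (nat_lit 3) (.e (nat_lit 98325) (nat_lit 17) (.e (nat_lit 2416) (nat_lit 157) (.e (nat_lit 6828) (nat_lit 367) .nil)))))))) (.g (nat_lit 4) .nil .nil))) 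
(.lf (nat_lit 147770) (.g (nat_lit 2246) (.e (nat_lit 57375) (nat_lit 2) (.e (nat_lit 90174) (nat_lit 14) (.e (nat_lit 180243) (nat_lit 5) (.e (nat_lit 532508) (nat_lit 2) (.e (nat_lit 106517) (nat_lit 9) (.e (nat_lit 1255) (nat_lit 92) (.e (nat_lit 98321) (nat_lit 17) (.e (nat_lit 2464) (nat_lit 157) (.e (nat_lit 5934) (nat_lit 322) .nil))))))))) (.g (nat_lit 4) .nil .nil)))))) 
(.nd (nat_lit 3) (.nd (nat_lit 4) (.nd (nat_lit 5) 
(.lf (nat_lit 147718) (.g (nat_lit 3587) (.e (nat_lit 57375) (nat_lit 2) (.e (nat_lit 90172) (nat_lit 14) (.e (nat_lit 180250) (nat_lit 10) (.e (nat_lit 573482) (nat_lit 13) (.e (nat_lit 65568) (nat_lit 2) (.e (nat_lit 90165) (nat_lit 12) (.e (nat_lit 163849) (nat_lit 0) (.e (nat_lit 6828) (nat_lit 367) .nil)))))))) (.g (nat_lit 5) .nil .nil))) 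
(.lf (nat_lit 147750) (.g (nat_lit 3843) (.e (nat_lit 57375) (nat_lit 2) (.e (nat_lit 90172) (nat_lit 14) (.e (nat_lit 180250) (nat_lit 10) (.e (nat_lit 573487) (nat_lit 14) (.e (nat_lit 73746) (nat_lit 3) (.e (nat_lit 516120) (nat_lit 1) (.e (nat_lit 171776) (nat_lit 160) .nil))))))) (.g (nat_lit 5) .nil .nil)))) (.nd (nat_lit 5) 
(.lf (nat_lit 147734) (.g (nat_lit 2920) (.e (nat_lit 57375) (nat_lit 2) (.e (nat_lit 90172) (nat_lit 14) (.e (nat_lit 180250) (nat_lit 10) (.e (nat_lit 573484) (nat_lit 13) (.e (nat_lit 65568) (nat_lit 2) (.e (nat_lit 90165) (nat_lit 12) (.e (nat_lit 163849) (nat_lit 0) (.e (nat_lit 6828) (nat_lit 367) .nil)))))))) (.g (nat_lit 4) .nil .nil))) 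
(.lf (nat_lit 147766) (.g (nat_lit 1490) (.e (nat_lit 57375) (nat_lit 2) (.e (nat_lit 90172) (nat_lit 14) (.e (nat_lit 180285) (nat_lit 45) (.e (nat_lit 2571) (nat_lit 160) (.e (nat_lit 32807) (nat_lit 18) (.e (nat_lit 172070) (nat_lit 4) (.e (nat_lit 237312) (nat_lit 262) .nil))))))) (.g (nat_lit 5) .nil .nil))))) (.nd (nat_lit 4) (.nd (nat_lit 5) 
(.lf (nat_lit 147726) (.g (nat_lit 4196) (.e (nat_lit 57375) (nat_lit 2) (.e (nat_lit 90172) (nat_lit 14) (.e (nat_lit 180250) (nat_lit 10) (.e (nat_lit 573482) (nat_lit 13) (.e (nat_lit 65571) (nat_lit 3) (.e (nat_lit 98319) (nat_lit 17) (.e (nat_lit 2399) (nat_lit 157) (.e (nat_lit 6828) (nat_lit 367) .nil)))))))) (.g (nat_lit 5) .nil .nil))) 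
(.lf (nat_lit 147758) (.g (nat_lit 3025) (.e (nat_lit 57375) (nat_lit 2) (.e (nat_lit 90172) (nat_lit 14) (.e (nat_lit 180250) (nat_lit 10) (.e (nat_lit 573487) (nat_lit 14) (.e (nat_lit 73755) (nat_lit 8) .nil))))) .nil))) (.nd (nat_lit 5) 
(.lf (nat_lit 147742) (.g (nat_lit 2993) (.e (nat_lit 57375) (nat_lit 2) (.e (nat_lit 90172) (nat_lit 14) (.e (nat_lit 180250) (nat_lit 10) (.e (nat_lit 573485) (nat_lit 13) (.e (nat_lit 65569) (nat_lit 3) (.e (nat_lit 98334) (nat_lit 18) (.e (nat_lit 171776) (nat_lit 160) .nil))))))) (.g (nat_lit 5) .nil .nil))) 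
(.lf (nat_lit 147774) (.g (nat_lit 2441) (.e (nat_lit 57375) (nat_lit 2) (.e (nat_lit 90174) (nat_lit 14) (.e (nat_lit 180243) (nat_lit 5) (.e (nat_lit 532508) (nat_lit 2) (.e (nat_lit 106540) (nat_lit 13) (.e (nat_lit 122936) (nat_lit 23) (.e (nat_lit 516117) (nat_lit 1) (.e (nat_lit 164397) (nat_lit 256) .nil)))))))) (.g (nat_lit 4) .nil .nil)))))))) 
(.nd (nat_lit 1) (.nd (nat_lit 2) (.nd (nat_lit 3) (.nd (nat_lit 4) (.nd (nat_lit 5) 
(.lf (nat_lit 147713) (.g (nat_lit 1621) (.e (nat_lit 57375) (nat_lit 2) (.e (nat_lit 90172) (nat_lit 14) (.e (nat_lit 180250) (nat_lit 10) (.e (nat_lit 573481) (nat_lit 13) .nil)))) .nil)) 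
(.lf (nat_lit 147745) (.g (nat_lit 2452) (.e (nat_lit 57375) (nat_lit 2) (.e (nat_lit 90172) (nat_lit 14) (.e (nat_lit 180250) (nat_lit 10) (.e (nat_lit 573485) (nat_lit 13) (.e (nat_lit 65570) (nat_lit 3) (.e (nat_lit 98334) (nat_lit 18) (.e (nat_lit 171776) (nat_lit 160) .nil))))))) (.g (nat_lit 4) .nil .nil)))) (.nd (nat_lit 5) 
(.lf (nat_lit 147729) (.g (nat_lit 2870) (.e (nat_lit 57375) (nat_lit 2) (.e (nat_lit 90172) (nat_lit 14) (.e (nat_lit 180250) (nat_lit 10) (.e (nat_lit 573482) (nat_lit 13) (.e (nat_lit 65571) (nat_lit 3) (.e (nat_lit 98325) (nat_lit 17) (.e (nat_lit 2442) (nat_lit 157) (.e (nat_lit 6828) (nat_lit 367) .nil)))))))) (.g (nat_lit 4) .nil .nil))) 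
(.lf (nat_lit 147761) (.g (nat_lit 2620) (.e (nat_lit 57375) (nat_lit 2) (.e (nat_lit 90172) (nat_lit 14) (.e (nat_lit 180250) (nat_lit 10) (.e (nat_lit 573489) (nat_lit 14) (.e (nat_lit 73755) (nat_lit 8) .nil))))) .nil)))) (.nd (nat_lit 4) (.nd (nat_lit 5) 
(.lf (nat_lit 147721) (.g (nat_lit 2754) (.e (nat_lit 57375) (nat_lit 2) (.e (nat_lit 90172) (nat_lit 14) (.e (nat_lit 180250) (nat_lit 10) (.e (nat_lit 573482) (nat_lit 13) (.e (nat_lit 65569) (nat_lit 3) (.e (nat_lit 98325) (nat_lit 17) (.e (nat_lit 2442) (nat_lit 157) (.e (nat_lit 6828) (nat_lit 367) .nil)))))))) (.g (nat_lit 4) .nil .nil))) 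
(.lf (nat_lit 147753) (.g (nat_lit 3030) (.e (nat_lit 57375) (nat_lit 2) (.e (nat_lit 90172) (nat_lit 14) (.e (nat_lit 180250) (nat_lit 10) (.e (nat_lit 573487) (nat_lit 14) (.e (nat_lit 73747) (nat_lit 3) (.e (nat_lit 516120) (nat_lit 1) (.e (nat_lit 171776) (nat_lit 160) .nil))))))) (.g (nat_lit 4) .nil .nil)))) (.nd (nat_lit 5) 
(.lf (nat_lit 147737) (.g (nat_lit 2730) (.e (nat_lit 57375) (nat_lit 2) (.e (nat_lit 90172) (nat_lit 14) (.e (nat_lit 180250) (nat_lit 10) (.e (nat_lit 573484) (nat_lit 13) (.e (nat_lit 65569) (nat_lit 3) (.e (nat_lit 98321) (nat_lit 17) (.e (nat_lit 2430) (nat_lit 157) (.e (nat_lit 6828) (nat_lit 367) .nil)))))))) (.g (nat_lit 4) .nil .nil))) 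
(.lf (nat_lit 147769) (.g (nat_lit 1321) (.e (nat_lit 57375) (nat_lit 2) (.e (nat_lit 90174) (nat_lit 14) (.e (nat_lit 180243) (nat_lit 5) (.e (nat_lit 532508) (nat_lit 2) (.e (nat_lit 106517) (nat_lit 9) .nil))))) .nil))))) (.nd (nat_lit 3) (.nd (nat_lit 4) (.nd (nat_lit 5) 
(.lf (nat_lit 147717) (.g (nat_lit 2688) (.e (nat_lit 57375) (nat_lit 2) (.e (nat_lit 90172) (nat_lit 14) (.e (nat_lit 180250) (nat_lit 10) (.e (nat_lit 573482) (nat_lit 13) (.e (nat_lit 65568) (nat_lit 2) (.e (nat_lit 90165) (nat_lit 12) (.e (nat_lit 163847) (nat_lit 0) (.e (nat_lit 6828) (nat_lit 367) .nil)))))))) (.g (nat_lit 4) .nil .nil))) 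
(.lf (nat_lit 147749) (.g (nat_lit 3823) (.e (nat_lit 57375) (nat_lit 2) (.e (nat_lit 90172) (nat_lit 14) (.e (nat_lit 180250) (nat_lit 10) (.e (nat_lit 573487) (nat_lit 14) (.e (nat_lit 73746) (nat_lit 3) (.e (nat_lit 516119) (nat_lit 1) (.e (nat_lit 171776) (nat_lit 160) .nil))))))) (.g (nat_lit 5) .nil .nil)))) (.nd (nat_lit 5) 
(.lf (nat_lit 147733) (.g (nat_lit 3462) (.e (nat_lit 57375) (nat_lit 2) (.e (nat_lit 90172) (nat_lit 14) (.e (nat_lit 180250) (nat_lit 10) (.e (nat_lit 573484) (nat_lit 13) (.e (nat_lit 65566) (nat_lit 2) (.e (nat_lit 90165) (nat_lit 12) (.e (nat_lit 163849) (nat_lit 0) (.e (nat_lit 6828) (nat_lit 367) .nil)))))))) (.g (nat_lit 4) .nil .nil))) 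
(.lf (nat_lit 147765) (.g (nat_lit 1481) (.e (nat_lit 57375) (nat_lit 2) (.e (nat_lit 90172) (nat_lit 14) (.e (nat_lit 180285) (nat_lit 45) (.e (nat_lit 2570) (nat_lit 160) (.e (nat_lit 32807) (nat_lit 18) (.e (nat_lit 172070) (nat_lit 4) (.e (nat_lit 237312) (nat_lit 262) .nil))))))) (.g (nat_lit 5) .nil .nil))))) (.nd (nat_lit 4) (.nd (nat_lit 5) 
(.lf (nat_lit 147725) (.g (nat_lit 2677) (.e (nat_lit 57375) (nat_lit 2) (.e (nat_lit 90172) (nat_lit 14) (.e (nat_lit 180250) (nat_lit 10) (.e (nat_lit 573482) (nat_lit 13) (.e (nat_lit 65570) (nat_lit 3) (.e (nat_lit 98333) (nat_lit 18) (.e (nat_lit 171776) (nat_lit 160) .nil))))))) (.g (nat_lit 4) .nil .nil))) 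
(.lf (nat_lit 147757) (.g (nat_lit 2413) (.e (nat_lit 57375) (nat_lit 2) (.e (nat_lit 90172) (nat_lit 14) (.e (nat_lit 180250) (nat_lit 10) (.e (nat_lit 573487) (nat_lit 14) (.e (nat_lit 73753) (nat_lit 8) .nil))))) .nil))) (.nd (nat_lit 5) 
(.lf (nat_lit 147741) (.g (nat_lit 2981) (.e (nat_lit 57375) (nat_lit 2) (.e (nat_lit 90172) (nat_lit 14) (.e (nat_lit 180250) (nat_lit 10) (.e (nat_lit 573484) (nat_lit 13) (.e (nat_lit 65571) (nat_lit 3) (.e (nat_lit 98334) (nat_lit 18) (.e (nat_lit 171776) (nat_lit 160) .nil))))))) (.g (nat_lit 4) .nil .nil))) 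
(.lf (nat_lit 147773) (.g (nat_lit 2168) (.e (nat_lit 57375) (nat_lit 2) (.e (nat_lit 90174) (nat_lit 14) (.e (nat_lit 180243) (nat_lit 5) (.e (nat_lit 532508) (nat_lit 2) (.e (nat_lit 106540) (nat_lit 13) (.e (nat_lit 122936) (nat_lit 23) (.e (nat_lit 516117) (nat_lit 1) (.e (nat_lit 164396) (nat_lit 256) .nil)))))))) (.g (nat_lit 4) .nil .nil))))))) 
(.nd (nat_lit 2) (.nd (nat_lit 3) (.nd (nat_lit 4) (.nd (nat_lit 5) 
(.lf (nat_lit 147715) (.g (nat_lit 1423) (.e (nat_lit 57375) (nat_lit 2) (.e (nat_lit 90172) (nat_lit 14) (.e (nat_lit 180250) (nat_lit 10) (.e (nat_lit 573482) (nat_lit 13) .nil)))) .nil)) 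
(.lf (nat_lit 147747) (.g (nat_lit 4351) (.e (nat_lit 57375) (nat_lit 2) (.e (nat_lit 90172) (nat_lit 14) (.e (nat_lit 180250) (nat_lit 10) (.e (nat_lit 573487) (nat_lit 14) (.e (nat_lit 73746) (nat_lit 3) (.e (nat_lit 516115) (nat_lit 1) (.e (nat_lit 171776) (nat_lit 160) .nil))))))) (.g (nat_lit 6) .nil .nil)))) (.nd (nat_lit 5) 
(.lf (nat_lit 147731) (.g (nat_lit 2787) (.e (nat_lit 57375) (nat_lit 2) (.e (nat_lit 90172) (nat_lit 14) (.e (nat_lit 180250) (nat_lit 10) (.e (nat_lit 573482) (nat_lit 13) (.e (nat_lit 73472) (nat_lit 18) (.e (nat_lit 204839) (nat_lit 21) (.e (nat_lit 123194) (nat_lit 266) .nil))))))) (.g (nat_lit 4) .nil .nil))) 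
(.lf (nat_lit 147763) (.g (nat_lit 371) (.e (nat_lit 57375) (nat_lit 2) (.e (nat_lit 90172) (nat_lit 14) (.e (nat_lit 180276) (nat_lit 32) .nil))) .nil)))) (.nd (nat_lit 4) (.nd (nat_lit 5) 
(.lf (nat_lit 147723) (.g (nat_lit 2577) (.e (nat_lit 57375) (nat_lit 2) (.e (nat_lit 90172) (nat_lit 14) (.e (nat_lit 180250) (nat_lit 10) (.e (nat_lit 573482) (nat_lit 13) (.e (nat_lit 65570) (nat_lit 3) .nil))))) .nil)) 
(.lf (nat_lit 147755) (.g (nat_lit 2930) (.e (nat_lit 57375) (nat_lit 2) (.e (nat_lit 90172) (nat_lit 14) (.e (nat_lit 180250) (nat_lit 10) (.e (nat_lit 573487) (nat_lit 14) (.e (nat_lit 81664) (nat_lit 5) (.e (nat_lit 532490) (nat_lit 0) (.e (nat_lit 989) (nat_lit 81) (.e (nat_lit 7472) (nat_lit 398) .nil)))))))) (.g (nat_lit 4) .nil .nil)))) (.nd (nat_lit 5) 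
(.lf (nat_lit 147739) (.g (nat_lit 3211) (.e (nat_lit 57375) (nat_lit 2) (.e (nat_lit 90172) (nat_lit 14) (.e (nat_lit 180250) (nat_lit 10) (.e (nat_lit 573484) (nat_lit 13) (.e (nat_lit 65569) (nat_lit 3) (.e (nat_lit 98325) (nat_lit 17) (.e (nat_lit 2442) (nat_lit 157) (.e (nat_lit 6828) (nat_lit 367) .nil)))))))) (.g (nat_lit 4) .nil .nil))) 
(.lf (nat_lit 147771) (.g (nat_lit 1984) (.e (nat_lit 57375) (nat_lit 2) (.e (nat_lit 90174) (nat_lit 14) (.e (nat_lit 180243) (nat_lit 5) (.e (nat_lit 532508) (nat_lit 2) (.e (nat_lit 106537) (nat_lit 12) (.e (nat_lit 57467) (nat_lit 23) (.e (nat_lit 516115) (nat_lit 1) (.e (nat_lit 164399) (nat_lit 256) .nil)))))))) (.g (nat_lit 4) .nil .nil)))))) 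
(.nd (nat_lit 3) (.nd (nat_lit 4) (.nd (nat_lit 5) 
(.lf (nat_lit 147719) (.g (nat_lit 3006) (.e (nat_lit 57375) (nat_lit 2) (.e (nat_lit 90172) (nat_lit 14) (.e (nat_lit 180250) (nat_lit 10) (.e (nat_lit 573482) (nat_lit 13) (.e (nat_lit 65569) (nat_lit 3) (.e (nat_lit 98319) (nat_lit 17) (.e (nat_lit 2399) (nat_lit 157) (.e (nat_lit 6828) (nat_lit 367) .nil)))))))) (.g (nat_lit 4) .nil .nil))) 
(.lf (nat_lit 147751) (.g (nat_lit 2974) (.e (nat_lit 57375) (nat_lit 2) (.e (nat_lit 90172) (nat_lit 14) (.e (nat_lit 180250) (nat_lit 10) (.e (nat_lit 573487) (nat_lit 14) (.e (nat_lit 73747) (nat_lit 3) (.e (nat_lit 516097) (nat_lit 0) (.e (nat_lit 2399) (nat_lit 157) (.e (nat_lit 6828) (nat_lit 367) .nil)))))))) (.g (nat_lit 4) .nil .nil)))) (.nd (nat_lit 5) 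
(.lf (nat_lit 147735) (.g (nat_lit 2457) (.e (nat_lit 57375) (nat_lit 2) (.e (nat_lit 90172) (nat_lit 14) (.e (nat_lit 180250) (nat_lit 10) (.e (nat_lit 573484) (nat_lit 13) (.e (nat_lit 65569) (nat_lit 3) .nil))))) .nil)) 
(.lf (nat_lit 147767) (.g (nat_lit 2303) (.e (nat_lit 57375) (nat_lit 2) (.e (nat_lit 90174) (nat_lit 14) (.e (nat_lit 180243) (nat_lit 5) (.e (nat_lit 532506) (nat_lit 2) (.e (nat_lit 106539) (nat_lit 12) (.e (nat_lit 57466) (nat_lit 23) (.e (nat_lit 516117) (nat_lit 1) (.e (nat_lit 164400) (nat_lit 256) .nil)))))))) (.g (nat_lit 4) .nil .nil))))) (.nd (nat_lit 4) (.nd (nat_lit 5) 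
(.lf (nat_lit 147727) (.g (nat_lit 2820) (.e (nat_lit 57375) (nat_lit 2) (.e (nat_lit 90172) (nat_lit 14) (.e (nat_lit 180250) (nat_lit 10) (.e (nat_lit 573482) (nat_lit 13) (.e (nat_lit 65571) (nat_lit 3) (.e (nat_lit 98320) (nat_lit 17) (.e (nat_lit 2399) (nat_lit 157) (.e (nat_lit 6828) (nat_lit 367) .nil)))))))) (.g (nat_lit 4) .nil .nil))) 
(.lf (nat_lit 147759) (.g (nat_lit 2360) (.e (nat_lit 57375) (nat_lit 2) (.e (nat_lit 90172) (nat_lit 14) (.e (nat_lit 180250) (nat_lit 10) (.e (nat_lit 573488) (nat_lit 14) (.e (nat_lit 73747) (nat_lit 3) .nil))))) .nil))) (.nd (nat_lit 5) 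
(.lf (nat_lit 147743) (.g (nat_lit 2911) (.e (nat_lit 57375) (nat_lit 2) (.e (nat_lit 90172) (nat_lit 14) (.e (nat_lit 180250) (nat_lit 10) (.e (nat_lit 573485) (nat_lit 13) (.e (nat_lit 65570) (nat_lit 3) (.e (nat_lit 98319) (nat_lit 17) (.e (nat_lit 2399) (nat_lit 157) (.e (nat_lit 6828) (nat_lit 367) .nil)))))))) (.g (nat_lit 4) .nil .nil))) 
(.lf (nat_lit 147775) (.g (nat_lit 3708) (.e (nat_lit 57375) (nat_lit 2) (.e (nat_lit 90174) (nat_lit 14) (.e (nat_lit 180243) (nat_lit 5) (.e (nat_lit 532508) (nat_lit 2) (.e (nat_lit 106540) (nat_lit 13) (.e (nat_lit 122936) (nat_lit 23) (.e (nat_lit 516117) (nat_lit 1) (.e (nat_lit 164400) (nat_lit 256) .nil)))))))) (.g (nat_lit 7) .nil .nil)))))))))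

noncomputable def tv1965 : DT := (.nd (nat_lit 0) (.nd (nat_lit 1) (.nd (nat_lit 2) (.nd (nat_lit 3) (.nd (nat_lit 4) (.nd (nat_lit 5) 
(.lf (nat_lit 147776) (.g (nat_lit 2258) (.e (nat_lit 57375) (nat_lit 2) (.e (nat_lit 90174) (nat_lit 14) (.e (nat_lit 180243) (nat_lit 5) (.e (nat_lit 532508) (nat_lit 2) (.e (nat_lit 106541) (nat_lit 13) (.e (nat_lit 122936) (nat_lit 23) (.e (nat_lit 516117) (nat_lit 1) (.e (nat_lit 164397) (nat_lit 256) .nil)))))))) (.g (nat_lit 4) .nil .nil))) 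
(.lf (nat_lit 147808) (.g (nat_lit 3730) (.e (nat_lit 57375) (nat_lit 2) (.e (nat_lit 90174) (nat_lit 14) (.e (nat_lit 180243) (nat_lit 5) (.e (nat_lit 532513) (nat_lit 3) (.e (nat_lit 114719) (nat_lit 23) (.e (nat_lit 98333) (nat_lit 18) (.e (nat_lit 164398) (nat_lit 256) .nil))))))) (.g (nat_lit 6) .nil .nil)))) (.nd (nat_lit 5) 
(.lf (nat_lit 147792) (.g (nat_lit 2575) (.e (nat_lit 57375) (nat_lit 2) (.e (nat_lit 90174) (nat_lit 14) (.e (nat_lit 180243) (nat_lit 5) (.e (nat_lit 532513) (nat_lit 3) (.e (nat_lit 114717) (nat_lit 23) (.e (nat_lit 98334) (nat_lit 18) (.e (nat_lit 164397) (nat_lit 256) .nil))))))) (.g (nat_lit 4) .nil .nil))) 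
(.lf (nat_lit 147824) (.g (nat_lit 3382) (.e (nat_lit 57375) (nat_lit 2) (.e (nat_lit 90174) (nat_lit 14) (.e (nat_lit 180243) (nat_lit 5) (.e (nat_lit 532515) (nat_lit 3) (.e (nat_lit 114718) (nat_lit 23) (.e (nat_lit 98334) (nat_lit 18) (.e (nat_lit 164397) (nat_lit 256) .nil))))))) (.g (nat_lit 6) .nil .nil))))) (.nd (nat_lit 4) (.nd (nat_lit 5) 
(.lf (nat_lit 147784) (.g (nat_lit 2506) (.e (nat_lit 57375) (nat_lit 2) (.e (nat_lit 90174) (nat_lit 14) (.e (nat_lit 180243) (nat_lit 5) (.e (nat_lit 532511) (nat_lit 2) (.e (nat_lit 106540) (nat_lit 13) (.e (nat_lit 122936) (nat_lit 23) (.e (nat_lit 516117) (nat_lit 1) (.e (nat_lit 164397) (nat_lit 256) .nil)))))))) (.g (nat_lit 4) .nil .nil))) 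
(.lf (nat_lit 147816) (.g (nat_lit 2477) (.e (nat_lit 57375) (nat_lit 2) (.e (nat_lit 90174) (nat_lit 14) (.e (nat_lit 180243) (nat_lit 5) (.e (nat_lit 532513) (nat_lit 3) (.e (nat_lit 114719) (nat_lit 23) (.e (nat_lit 98335) (nat_lit 18) (.e (nat_lit 164396) (nat_lit 256) .nil))))))) (.g (nat_lit 4) .nil .nil)))) (.nd (nat_lit 5) 
(.lf (nat_lit 147800) (.g (nat_lit 3543) (.e (nat_lit 57375) (nat_lit 2) (.e (nat_lit 90174) (nat_lit 14) (.e (nat_lit 180243) (nat_lit 5) (.e (nat_lit 532513) (nat_lit 3) (.e (nat_lit 114718) (nat_lit 23) (.e (nat_lit 98334) (nat_lit 18) (.e (nat_lit 164396) (nat_lit 256) .nil))))))) (.g (nat_lit 5) .nil .nil))) 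
(.lf (nat_lit 147832) (.g (nat_lit 2935) (.e (nat_lit 57375) (nat_lit 2) (.e (nat_lit 90174) (nat_lit 14) (.e (nat_lit 180243) (nat_lit 5) (.e (nat_lit 532515) (nat_lit 3) (.e (nat_lit 114719) (nat_lit 23) (.e (nat_lit 98333) (nat_lit 18) (.e (nat_lit 164397) (nat_lit 256) .nil))))))) (.g (nat_lit 5) .nil .nil)))))) (.nd (nat_lit 3) (.nd (nat_lit 4) (.nd (nat_lit 5) 
(.lf (nat_lit 147780) (.g (nat_lit 2474) (.e (nat_lit 57375) (nat_lit 2) (.e (nat_lit 90174) (nat_lit 14) (.e (nat_lit 180243) (nat_lit 5) (.e (nat_lit 532510) (nat_lit 2) (.e (nat_lit 106540) (nat_lit 13) (.e (nat_lit 122936) (nat_lit 23) (.e (nat_lit 516117) (nat_lit 1) (.e (nat_lit 164397) (nat_lit 256) .nil)))))))) (.g (nat_lit 4) .nil .nil))) 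
(.lf (nat_lit 147812) (.g (nat_lit 3887) (.e (nat_lit 57375) (nat_lit 2) (.e (nat_lit 90174) (nat_lit 14) (.e (nat_lit 180243) (nat_lit 5) (.e (nat_lit 532513) (nat_lit 3) (.e (nat_lit 114719) (nat_lit 23) (.e (nat_lit 98334) (nat_lit 18) (.e (nat_lit 164397) (nat_lit 256) .nil))))))) (.g (nat_lit 6) .nil .nil)))) (.nd (nat_lit 5) 
(.lf (nat_lit 147796) (.g (nat_lit 3575) (.e (nat_lit 57375) (nat_lit 2) (.e (nat_lit 90174) (nat_lit 14) (.e (nat_lit 180243) (nat_lit 5) (.e (nat_lit 532513) (nat_lit 3) (.e (nat_lit 114718) (nat_lit 23) (.e (nat_lit 98333) (nat_lit 18) (.e (nat_lit 164397) (nat_lit 256) .nil))))))) (.g (nat_lit 5) .nil .nil))) 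
(.lf (nat_lit 147828) (.g (nat_lit 1979) (.e (nat_lit 57375) (nat_lit 2) (.e (nat_lit 90174) (nat_lit 14) (.e (nat_lit 180243) (nat_lit 5) (.e (nat_lit 532515) (nat_lit 3) (.e (nat_lit 114719) (nat_lit 23) (.e (nat_lit 98332) (nat_lit 18) (.e (nat_lit 164396) (nat_lit 256) .nil))))))) (.g (nat_lit 4) .nil .nil))))) (.nd (nat_lit 4) (.nd (nat_lit 5) 
(.lf (nat_lit 147788) (.g (nat_lit 2627) (.e (nat_lit 57375) (nat_lit 2) (.e (nat_lit 90174) (nat_lit 14) (.e (nat_lit 180243) (nat_lit 5) (.e (nat_lit 532513) (nat_lit 3) (.e (nat_lit 114708) (nat_lit 20) (.e (nat_lit 1800) (nat_lit 119) (.e (nat_lit 516117) (nat_lit 1) (.e (nat_lit 164396) (nat_lit 256) .nil)))))))) (.g (nat_lit 4) .nil .nil))) 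
(.lf (nat_lit 147820) (.g (nat_lit 1930) (.e (nat_lit 57375) (nat_lit 2) (.e (nat_lit 90174) (nat_lit 14) (.e (nat_lit 180243) (nat_lit 5) (.e (nat_lit 532515) (nat_lit 3) (.e (nat_lit 114717) (nat_lit 23) (.e (nat_lit 98334) (nat_lit 18) (.e (nat_lit 164396) (nat_lit 256) .nil))))))) (.g (nat_lit 4) .nil .nil)))) (.nd (nat_lit 5) 
(.lf (nat_lit 147804) (.g (nat_lit 4211) (.e (nat_lit 57375) (nat_lit 2) (.e (nat_lit 90174) (nat_lit 14) (.e (nat_lit 180243) (nat_lit 5) (.e (nat_lit 532513) (nat_lit 3) (.e (nat_lit 114718) (nat_lit 23) (.e (nat_lit 98334) (nat_lit 18) (.e (nat_lit 164400) (nat_lit 256) .nil))))))) (.g (nat_lit 6) .nil .nil))) 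
(.lf (nat_lit 147836) (.g (nat_lit 2916) (.e (nat_lit 57375) (nat_lit 2) (.e (nat_lit 90174) (nat_lit 14) (.e (nat_lit 180243) (nat_lit 5) (.e (nat_lit 532515) (nat_lit 3) (.e (nat_lit 114719) (nat_lit 23) (.e (nat_lit 98334) (nat_lit 18) (.e (nat_lit 164396) (nat_lit 256) .nil))))))) (.g (nat_lit 5) .nil .nil))))))) (.nd (nat_lit 2) (.nd (nat_lit 3) (.nd (nat_lit 4) (.nd (nat_lit 5) 
(.lf (nat_lit 147778) (.g (nat_lit 2453) (.e (nat_lit 57375) (nat_lit 2) (.e (nat_lit 90174) (nat_lit 14) (.e (nat_lit 180243) (nat_lit 5) (.e (nat_lit 532508) (nat_lit 2) (.e (nat_lit 114432) (nat_lit 13) (.e (nat_lit 122936) (nat_lit 23) (.e (nat_lit 516117) (nat_lit 1) (.e (nat_lit 164397) (nat_lit 256) .nil)))))))) (.g (nat_lit 4) .nil .nil))) 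
(.lf (nat_lit 147810) (.g (nat_lit 3811) (.e (nat_lit 57375) (nat_lit 2) (.e (nat_lit 90174) (nat_lit 14) (.e (nat_lit 180243) (nat_lit 5) (.e (nat_lit 532513) (nat_lit 3) (.e (nat_lit 114719) (nat_lit 23) (.e (nat_lit 98333) (nat_lit 18) (.e (nat_lit 164400) (nat_lit 256) .nil))))))) (.g (nat_lit 6) .nil .nil)))) (.nd (nat_lit 5) 
(.lf (nat_lit 147794) (.g (nat_lit 2217) (.e (nat_lit 57375) (nat_lit 2) (.e (nat_lit 90174) (nat_lit 14) (.e (nat_lit 180243) (nat_lit 5) (.e (nat_lit 532513) (nat_lit 3) (.e (nat_lit 114718) (nat_lit 23) (.e (nat_lit 98332) (nat_lit 18) (.e (nat_lit 164400) (nat_lit 256) .nil))))))) (.g (nat_lit 4) .nil .nil))) 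
(.lf (nat_lit 147826) (.g (nat_lit 3230) (.e (nat_lit 57375) (nat_lit 2) (.e (nat_lit 90174) (nat_lit 14) (.e (nat_lit 180243) (nat_lit 5) (.e (nat_lit 532515) (nat_lit 3) (.e (nat_lit 114718) (nat_lit 23) (.e (nat_lit 98334) (nat_lit 18) (.e (nat_lit 164399) (nat_lit 256) .nil))))))) (.g (nat_lit 6) .nil .nil))))) (.nd (nat_lit 4) (.nd (nat_lit 5) 
(.lf (nat_lit 147786) (.g (nat_lit 2276) (.e (nat_lit 57375) (nat_lit 2) (.e (nat_lit 90174) (nat_lit 14) (.e (nat_lit 180243) (nat_lit 5) (.e (nat_lit 532511) (nat_lit 2) (.e (nat_lit 114432) (nat_lit 13) (.e (nat_lit 122936) (nat_lit 23) (.e (nat_lit 516117) (nat_lit 1) (.e (nat_lit 164397) (nat_lit 256) .nil)))))))) (.g (nat_lit 4) .nil .nil))) 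
(.lf (nat_lit 147818) (.g (nat_lit 2175) (.e (nat_lit 57375) (nat_lit 2) (.e (nat_lit 90174) (nat_lit 14) (.e (nat_lit 180243) (nat_lit 5) (.e (nat_lit 532515) (nat_lit 3) (.e (nat_lit 114716) (nat_lit 22) (.e (nat_lit 90129) (nat_lit 9) (.e (nat_lit 2603) (nat_lit 163) (.e (nat_lit 164400) (nat_lit 256) .nil)))))))) (.g (nat_lit 4) .nil .nil)))) (.nd (nat_lit 5) 
(.lf (nat_lit 147802) (.g (nat_lit 4529) (.e (nat_lit 57375) (nat_lit 2) (.e (nat_lit 90174) (nat_lit 14) (.e (nat_lit 180243) (nat_lit 5) (.e (nat_lit 532513) (nat_lit 3) (.e (nat_lit 114718) (nat_lit 23) (.e (nat_lit 98334) (nat_lit 18) (.e (nat_lit 164398) (nat_lit 256) .nil))))))) (.g (nat_lit 7) .nil .nil))) 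
(.lf (nat_lit 147834) (.g (nat_lit 3569) (.e (nat_lit 57375) (nat_lit 2) (.e (nat_lit 90174) (nat_lit 14) (.e (nat_lit 180243) (nat_lit 5) (.e (nat_lit 532515) (nat_lit 3) (.e (nat_lit 114719) (nat_lit 23) (.e (nat_lit 98333) (nat_lit 18) (.e (nat_lit 164399) (nat_lit 256) .nil))))))) (.g (nat_lit 7) .nil .nil)))))) (.nd (nat_lit 3) (.nd (nat_lit 4) (.nd (nat_lit 5) 
(.lf (nat_lit 147782) (.g (nat_lit 955) (.e (nat_lit 57375) (nat_lit 2) (.e (nat_lit 90174) (nat_lit 14) (.e (nat_lit 180243) (nat_lit 5) (.e (nat_lit 532511) (nat_lit 2) .nil)))) .nil)) 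
(.lf (nat_lit 147814) (.g (nat_lit 3895) (.e (nat_lit 57375) (nat_lit 2) (.e (nat_lit 90174) (nat_lit 14) (.e (nat_lit 180243) (nat_lit 5) (.e (nat_lit 532513) (nat_lit 3) (.e (nat_lit 114719) (nat_lit 23) (.e (nat_lit 98334) (nat_lit 18) (.e (nat_lit 164399) (nat_lit 256) .nil))))))) (.g (nat_lit 6) .nil .nil)))) (.nd (nat_lit 5) 
(.lf (nat_lit 147798) (.g (nat_lit 4165) (.e (nat_lit 57375) (nat_lit 2) (.e (nat_lit 90174) (nat_lit 14) (.e (nat_lit 180243) (nat_lit 5) (.e (nat_lit 532513) (nat_lit 3) (.e (nat_lit 114718) (nat_lit 23) (.e (nat_lit 98333) (nat_lit 18) (.e (nat_lit 164399) (nat_lit 256) .nil))))))) (.g (nat_lit 7) .nil .nil))) 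
(.lf (nat_lit 147830) (.g (nat_lit 2656) (.e (nat_lit 57375) (nat_lit 2) (.e (nat_lit 90174) (nat_lit 14) (.e (nat_lit 180243) (nat_lit 5) (.e (nat_lit 532515) (nat_lit 3) (.e (nat_lit 114719) (nat_lit 23) (.e (nat_lit 98332) (nat_lit 18) (.e (nat_lit 164399) (nat_lit 256) .nil))))))) (.g (nat_lit 6) .nil .nil))))) (.nd (nat_lit 4) (.nd (nat_lit 5) 
(.lf (nat_lit 147790) (.g (nat_lit 1497) (.e (nat_lit 57375) (nat_lit 2) (.e (nat_lit 90174) (nat_lit 14) (.e (nat_lit 180243) (nat_lit 5) (.e (nat_lit 532513) (nat_lit 3) (.e (nat_lit 114714) (nat_lit 22) .nil))))) .nil)) 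
(.lf (nat_lit 147822) (.g (nat_lit 3257) (.e (nat_lit 57375) (nat_lit 2) (.e (nat_lit 90174) (nat_lit 14) (.e (nat_lit 180243) (nat_lit 5) (.e (nat_lit 532515) (nat_lit 3) (.e (nat_lit 114718) (nat_lit 23) (.e (nat_lit 98333) (nat_lit 18) (.e (nat_lit 164400) (nat_lit 256) .nil))))))) (.g (nat_lit 6) .nil .nil)))) (.nd (nat_lit 5) 
(.lf (nat_lit 147806) (.g (nat_lit 2283) (.e (nat_lit 57375) (nat_lit 2) (.e (nat_lit 90174) (nat_lit 14) (.e (nat_lit 180243) (nat_lit 5) (.e (nat_lit 532513) (nat_lit 3) (.e (nat_lit 114719) (nat_lit 23) (.e (nat_lit 98333) (nat_lit 18) (.e (nat_lit 164396) (nat_lit 256) .nil))))))) (.g (nat_lit 4) .nil .nil))) 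
(.lf (nat_lit 147838) (.g (nat_lit 3992) (.e (nat_lit 57375) (nat_lit 2) (.e (nat_lit 90174) (nat_lit 14) (.e (nat_lit 180243) (nat_lit 5) (.e (nat_lit 532515) (nat_lit 3) (.e (nat_lit 114719) (nat_lit 23) (.e (nat_lit 98334) (nat_lit 18) (.e (nat_lit 164398) (nat_lit 256) .nil))))))) (.g (nat_lit 7) .nil .nil)))))))) 
(.nd (nat_lit 1) (.nd (nat_lit 2) (.nd (nat_lit 3) (.nd (nat_lit 4) (.nd (nat_lit 5) 
(.lf (nat_lit 147777) (.g (nat_lit 2180) (.e (nat_lit 57375) (nat_lit 2) (.e (nat_lit 90174) (nat_lit 14) (.e (nat_lit 180243) (nat_lit 5) (.e (nat_lit 532508) (nat_lit 2) (.e (nat_lit 114432) (nat_lit 13) (.e (nat_lit 122936) (nat_lit 23) (.e (nat_lit 516117) (nat_lit 1) (.e (nat_lit 164396) (nat_lit 256) .nil)))))))) (.g (nat_lit 4) .nil .nil))) 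
(.lf (nat_lit 147809) (.g (nat_lit 3925) (.e (nat_lit 57375) (nat_lit 2) (.e (nat_lit 90174) (nat_lit 14) (.e (nat_lit 180243) (nat_lit 5) (.e (nat_lit 532513) (nat_lit 3) (.e (nat_lit 114719) (nat_lit 23) (.e (nat_lit 98333) (nat_lit 18) (.e (nat_lit 164399) (nat_lit 256) .nil))))))) (.g (nat_lit 7) .nil .nil)))) (.nd (nat_lit 5) 
(.lf (nat_lit 147793) (.g (nat_lit 2655) (.e (nat_lit 57375) (nat_lit 2) (.e (nat_lit 90174) (nat_lit 14) (.e (nat_lit 180243) (nat_lit 5) (.e (nat_lit 532513) (nat_lit 3) (.e (nat_lit 114717) (nat_lit 23) (.e (nat_lit 98334) (nat_lit 18) (.e (nat_lit 164400) (nat_lit 256) .nil))))))) (.g (nat_lit 4) .nil .nil))) 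
(.lf (nat_lit 147825) (.g (nat_lit 3876) (.e (nat_lit 57375) (nat_lit 2) (.e (nat_lit 90174) (nat_lit 14) (.e (nat_lit 180243) (nat_lit 5) (.e (nat_lit 532515) (nat_lit 3) (.e (nat_lit 114718) (nat_lit 23) (.e (nat_lit 98334) (nat_lit 18) (.e (nat_lit 164398) (nat_lit 256) .nil))))))) (.g (nat_lit 7) .nil .nil))))) (.nd (nat_lit 4) (.nd (nat_lit 5) 
(.lf (nat_lit 147785) (.g (nat_lit 3773) (.e (nat_lit 57375) (nat_lit 2) (.e (nat_lit 90174) (nat_lit 14) (.e (nat_lit 180243) (nat_lit 5) (.e (nat_lit 532511) (nat_lit 2) (.e (nat_lit 106540) (nat_lit 13) (.e (nat_lit 122936) (nat_lit 23) (.e (nat_lit 516117) (nat_lit 1) (.e (nat_lit 164400) (nat_lit 256) .nil)))))))) (.g (nat_lit 7) .nil .nil))) 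
(.lf (nat_lit 147817) (.g (nat_lit 3076) (.e (nat_lit 57375) (nat_lit 2) (.e (nat_lit 90174) (nat_lit 14) (.e (nat_lit 180243) (nat_lit 5) (.e (nat_lit 532515) (nat_lit 3) (.e (nat_lit 114716) (nat_lit 22) (.e (nat_lit 90128) (nat_lit 9) (.e (nat_lit 2615) (nat_lit 163) (.e (nat_lit 164400) (nat_lit 256) .nil)))))))) (.g (nat_lit 5) .nil .nil)))) (.nd (nat_lit 5) 
(.lf (nat_lit 147801) (.g (nat_lit 3952) (.e (nat_lit 57375) (nat_lit 2) (.e (nat_lit 90174) (nat_lit 14) (.e (nat_lit 180243) (nat_lit 5) (.e (nat_lit 532513) (nat_lit 3) (.e (nat_lit 114718) (nat_lit 23) (.e (nat_lit 98334) (nat_lit 18) (.e (nat_lit 164397) (nat_lit 256) .nil))))))) (.g (nat_lit 6) .nil .nil))) 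
(.lf (nat_lit 147833) (.g (nat_lit 3344) (.e (nat_lit 57375) (nat_lit 2) (.e (nat_lit 90174) (nat_lit 14) (.e (nat_lit 180243) (nat_lit 5) (.e (nat_lit 532515) (nat_lit 3) (.e (nat_lit 114719) (nat_lit 23) (.e (nat_lit 98333) (nat_lit 18) (.e (nat_lit 164398) (nat_lit 256) .nil))))))) (.g (nat_lit 6) .nil .nil)))))) (.nd (nat_lit 3) (.nd (nat_lit 4) (.nd (nat_lit 5) 
(.lf (nat_lit 147781) (.g (nat_lit 3741) (.e (nat_lit 57375) (nat_lit 2) (.e (nat_lit 90174) (nat_lit 14) (.e (nat_lit 180243) (nat_lit 5) (.e (nat_lit 532510) (nat_lit 2) (.e (nat_lit 106540) (nat_lit 13) (.e (nat_lit 122936) (nat_lit 23) (.e (nat_lit 516117) (nat_lit 1) (.e (nat_lit 164400) (nat_lit 256) .nil)))))))) (.g (nat_lit 7) .nil .nil))) 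
(.lf (nat_lit 147813) (.g (nat_lit 4331) (.e (nat_lit 57375) (nat_lit 2) (.e (nat_lit 90174) (nat_lit 14) (.e (nat_lit 180243) (nat_lit 5) (.e (nat_lit 532513) (nat_lit 3) (.e (nat_lit 114719) (nat_lit 23) (.e (nat_lit 98334) (nat_lit 18) (.e (nat_lit 164398) (nat_lit 256) .nil))))))) (.g (nat_lit 7) .nil .nil)))) (.nd (nat_lit 5) 
(.lf (nat_lit 147797) (.g (nat_lit 3932) (.e (nat_lit 57375) (nat_lit 2) (.e (nat_lit 90174) (nat_lit 14) (.e (nat_lit 180243) (nat_lit 5) (.e (nat_lit 532513) (nat_lit 3) (.e (nat_lit 114718) (nat_lit 23) (.e (nat_lit 98333) (nat_lit 18) (.e (nat_lit 164398) (nat_lit 256) .nil))))))) (.g (nat_lit 6) .nil .nil))) 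
(.lf (nat_lit 147829) (.g (nat_lit 2679) (.e (nat_lit 57375) (nat_lit 2) (.e (nat_lit 90174) (nat_lit 14) (.e (nat_lit 180243) (nat_lit 5) (.e (nat_lit 532515) (nat_lit 3) (.e (nat_lit 114719) (nat_lit 23) (.e (nat_lit 98332) (nat_lit 18) (.e (nat_lit 164397) (nat_lit 256) .nil))))))) (.g (nat_lit 5) .nil .nil))))) (.nd (nat_lit 4) (.nd (nat_lit 5) 
(.lf (nat_lit 147789) (.g (nat_lit 2638) (.e (nat_lit 57375) (nat_lit 2) (.e (nat_lit 90174) (nat_lit 14) (.e (nat_lit 180243) (nat_lit 5) (.e (nat_lit 532513) (nat_lit 3) (.e (nat_lit 114708) (nat_lit 20) (.e (nat_lit 1800) (nat_lit 119) (.e (nat_lit 516117) (nat_lit 1) (.e (nat_lit 164397) (nat_lit 256) .nil)))))))) (.g (nat_lit 4) .nil .nil))) 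
(.lf (nat_lit 147821) (.g (nat_lit 2735) (.e (nat_lit 57375) (nat_lit 2) (.e (nat_lit 90174) (nat_lit 14) (.e (nat_lit 180243) (nat_lit 5) (.e (nat_lit 532515) (nat_lit 3) (.e (nat_lit 114718) (nat_lit 23) (.e (nat_lit 98333) (nat_lit 18) (.e (nat_lit 164397) (nat_lit 256) .nil))))))) (.g (nat_lit 5) .nil .nil)))) (.nd (nat_lit 5) 
(.lf (nat_lit 147805) (.g (nat_lit 2484) (.e (nat_lit 57375) (nat_lit 2) (.e (nat_lit 90174) (nat_lit 14) (.e (nat_lit 180243) (nat_lit 5) (.e (nat_lit 532513) (nat_lit 3) (.e (nat_lit 114719) (nat_lit 23) (.e (nat_lit 98332) (nat_lit 18) (.e (nat_lit 164397) (nat_lit 256) .nil))))))) (.g (nat_lit 4) .nil .nil))) 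
(.lf (nat_lit 147837) (.g (nat_lit 3188) (.e (nat_lit 57375) (nat_lit 2) (.e (nat_lit 90174) (nat_lit 14) (.e (nat_lit 180243) (nat_lit 5) (.e (nat_lit 532515) (nat_lit 3) (.e (nat_lit 114719) (nat_lit 23) (.e (nat_lit 98334) (nat_lit 18) (.e (nat_lit 164397) (nat_lit 256) .nil))))))) (.g (nat_lit 6) .nil .nil))))))) (.nd (nat_lit 2) (.nd (nat_lit 3) (.nd (nat_lit 4) (.nd (nat_lit 5) 
(.lf (nat_lit 147779) (.g (nat_lit 2201) (.e (nat_lit 57375) (nat_lit 2) (.e (nat_lit 90174) (nat_lit 14) (.e (nat_lit 180243) (nat_lit 5) (.e (nat_lit 532510) (nat_lit 2) (.e (nat_lit 106540) (nat_lit 13) (.e (nat_lit 122936) (nat_lit 23) (.e (nat_lit 516117) (nat_lit 1) (.e (nat_lit 164396) (nat_lit 256) .nil)))))))) (.g (nat_lit 4) .nil .nil))) 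
(.lf (nat_lit 147811) (.g (nat_lit 3254) (.e (nat_lit 57375) (nat_lit 2) (.e (nat_lit 90174) (nat_lit 14) (.e (nat_lit 180243) (nat_lit 5) (.e (nat_lit 532513) (nat_lit 3) (.e (nat_lit 114719) (nat_lit 23) (.e (nat_lit 98334) (nat_lit 18) (.e (nat_lit 164396) (nat_lit 256) .nil))))))) (.g (nat_lit 5) .nil .nil)))) (.nd (nat_lit 5) 
(.lf (nat_lit 147795) (.g (nat_lit 2555) (.e (nat_lit 57375) (nat_lit 2) (.e (nat_lit 90174) (nat_lit 14) (.e (nat_lit 180243) (nat_lit 5) (.e (nat_lit 532513) (nat_lit 3) (.e (nat_lit 114718) (nat_lit 23) (.e (nat_lit 98333) (nat_lit 18) (.e (nat_lit 164396) (nat_lit 256) .nil))))))) (.g (nat_lit 4) .nil .nil))) 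
(.lf (nat_lit 147827) (.g (nat_lit 3425) (.e (nat_lit 57375) (nat_lit 2) (.e (nat_lit 90174) (nat_lit 14) (.e (nat_lit 180243) (nat_lit 5) (.e (nat_lit 532515) (nat_lit 3) (.e (nat_lit 114718) (nat_lit 23) (.e (nat_lit 98334) (nat_lit 18) (.e (nat_lit 164400) (nat_lit 256) .nil))))))) (.g (nat_lit 6) .nil .nil))))) (.nd (nat_lit 4) (.nd (nat_lit 5) 
(.lf (nat_lit 147787) (.g (nat_lit 2526) (.e (nat_lit 57375) (nat_lit 2) (.e (nat_lit 90174) (nat_lit 14) (.e (nat_lit 180243) (nat_lit 5) (.e (nat_lit 532513) (nat_lit 3) (.e (nat_lit 114708) (nat_lit 20) (.e (nat_lit 1800) (nat_lit 119) (.e (nat_lit 516115) (nat_lit 1) (.e (nat_lit 164400) (nat_lit 256) .nil)))))))) (.g (nat_lit 4) .nil .nil))) 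
(.lf (nat_lit 147819) (.g (nat_lit 2283) (.e (nat_lit 57375) (nat_lit 2) (.e (nat_lit 90174) (nat_lit 14) (.e (nat_lit 180243) (nat_lit 5) (.e (nat_lit 532515) (nat_lit 3) (.e (nat_lit 114716) (nat_lit 22) (.e (nat_lit 90129) (nat_lit 9) (.e (nat_lit 2604) (nat_lit 163) (.e (nat_lit 164400) (nat_lit 256) .nil)))))))) (.g (nat_lit 4) .nil .nil)))) (.nd (nat_lit 5) 
(.lf (nat_lit 147803) (.g (nat_lit 4038) (.e (nat_lit 57375) (nat_lit 2) (.e (nat_lit 90174) (nat_lit 14) (.e (nat_lit 180243) (nat_lit 5) (.e (nat_lit 532513) (nat_lit 3) (.e (nat_lit 114718) (nat_lit 23) (.e (nat_lit 98334) (nat_lit 18) (.e (nat_lit 164399) (nat_lit 256) .nil))))))) (.g (nat_lit 6) .nil .nil))) 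
(.lf (nat_lit 147835) (.g (nat_lit 3409) (.e (nat_lit 57375) (nat_lit 2) (.e (nat_lit 90174) (nat_lit 14) (.e (nat_lit 180243) (nat_lit 5) (.e (nat_lit 532515) (nat_lit 3) (.e (nat_lit 114719) (nat_lit 23) (.e (nat_lit 98333) (nat_lit 18) (.e (nat_lit 164400) (nat_lit 256) .nil))))))) (.g (nat_lit 6) .nil .nil)))))) (.nd (nat_lit 3) (.nd (nat_lit 4) (.nd (nat_lit 5) 
(.lf (nat_lit 147783) (.g (nat_lit 2233) (.e (nat_lit 57375) (nat_lit 2) (.e (nat_lit 90174) (nat_lit 14) (.e (nat_lit 180243) (nat_lit 5) (.e (nat_lit 532511) (nat_lit 2) (.e (nat_lit 106540) (nat_lit 13) (.e (nat_lit 122936) (nat_lit 23) (.e (nat_lit 516117) (nat_lit 1) (.e (nat_lit 164396) (nat_lit 256) .nil)))))))) (.g (nat_lit 4) .nil .nil))) 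
(.lf (nat_lit 147815) (.g (nat_lit 3833) (.e (nat_lit 57375) (nat_lit 2) (.e (nat_lit 90174) (nat_lit 14) (.e (nat_lit 180243) (nat_lit 5) (.e (nat_lit 532513) (nat_lit 3) (.e (nat_lit 114719) (nat_lit 23) (.e (nat_lit 98334) (nat_lit 18) (.e (nat_lit 164400) (nat_lit 256) .nil))))))) (.g (nat_lit 6) .nil .nil)))) (.nd (nat_lit 5) 
(.lf (nat_lit 147799) (.g (nat_lit 4112) (.e (nat_lit 57375) (nat_lit 2) (.e (nat_lit 90174) (nat_lit 14) (.e (nat_lit 180243) (nat_lit 5) (.e (nat_lit 532513) (nat_lit 3) (.e (nat_lit 114718) (nat_lit 23) (.e (nat_lit 98333) (nat_lit 18) (.e (nat_lit 164400) (nat_lit 256) .nil))))))) (.g (nat_lit 6) .nil .nil))) 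
(.lf (nat_lit 147831) (.g (nat_lit 3038) (.e (nat_lit 57375) (nat_lit 2) (.e (nat_lit 90174) (nat_lit 14) (.e (nat_lit 180243) (nat_lit 5) (.e (nat_lit 532515) (nat_lit 3) (.e (nat_lit 114719) (nat_lit 23) (.e (nat_lit 98332) (nat_lit 18) (.e (nat_lit 164400) (nat_lit 256) .nil))))))) (.g (nat_lit 5) .nil .nil))))) (.nd (nat_lit 4) (.nd (nat_lit 5) 
(.lf (nat_lit 147791) (.g (nat_lit 2494) (.e (nat_lit 57375) (nat_lit 2) (.e (nat_lit 90174) (nat_lit 14) (.e (nat_lit 180243) (nat_lit 5) (.e (nat_lit 532513) (nat_lit 3) (.e (nat_lit 114717) (nat_lit 23) (.e (nat_lit 98333) (nat_lit 18) (.e (nat_lit 164400) (nat_lit 256) .nil))))))) (.g (nat_lit 4) .nil .nil))) 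
(.lf (nat_lit 147823) (.g (nat_lit 2751) (.e (nat_lit 57375) (nat_lit 2) (.e (nat_lit 90174) (nat_lit 14) (.e (nat_lit 180243) (nat_lit 5) (.e (nat_lit 532515) (nat_lit 3) (.e (nat_lit 114718) (nat_lit 23) (.e (nat_lit 98334) (nat_lit 18) (.e (nat_lit 164396) (nat_lit 256) .nil))))))) (.g (nat_lit 5) .nil .nil)))) (.nd (nat_lit 5) 
(.lf (nat_lit 147807) (.g (nat_lit 3438) (.e (nat_lit 57375) (nat_lit 2) (.e (nat_lit 90174) (nat_lit 14) (.e (nat_lit 180243) (nat_lit 5) (.e (nat_lit 532513) (nat_lit 3) (.e (nat_lit 114719) (nat_lit 23) (.e (nat_lit 98333) (nat_lit 18) (.e (nat_lit 164397) (nat_lit 256) .nil))))))) (.g (nat_lit 5) .nil .nil))) 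
(.lf (nat_lit 147839) (.g (nat_lit 3429) (.e (nat_lit 57375) (nat_lit 2) (.e (nat_lit 90174) (nat_lit 14) (.e (nat_lit 180243) (nat_lit 5) (.e (nat_lit 532515) (nat_lit 3) (.e (nat_lit 114719) (nat_lit 23) (.e (nat_lit 98334) (nat_lit 18) (.e (nat_lit 164399) (nat_lit 256) .nil))))))) (.g (nat_lit 6) .nil .nil)))))))))

noncomputable def tv1966 : DT := (.nd (nat_lit 0) (.nd (nat_lit 1) (.nd (nat_lit 2) (.nd (nat_lit 3) (.nd (nat_lit 4) (.nd (nat_lit 5) 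
(.lf (nat_lit 147840) (.g (nat_lit 3529) (.e (nat_lit 57375) (nat_lit 2) (.e (nat_lit 90174) (nat_lit 14) (.e (nat_lit 180243) (nat_lit 5) (.e (nat_lit 532515) (nat_lit 3) (.e (nat_lit 114719) (nat_lit 23) (.e (nat_lit 98334) (nat_lit 18) (.e (nat_lit 164400) (nat_lit 256) .nil))))))) (.g (nat_lit 6) .nil .nil))) 
(.lf (nat_lit 147872) (.g (nat_lit 1523) (.e (nat_lit 57375) (nat_lit 2) (.e (nat_lit 90176) (nat_lit 15) (.e (nat_lit 196352) (nat_lit 18) (.e (nat_lit 393234) (nat_lit 17) (.e (nat_lit 2398) (nat_lit 157) (.e (nat_lit 5943) (nat_lit 322) .nil)))))) (.g (nat_lit 4) .nil .nil)))) (.nd (nat_lit 5) 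
(.lf (nat_lit 147856) (.g (nat_lit 2572) (.e (nat_lit 57375) (nat_lit 2) (.e (nat_lit 90174) (nat_lit 14) (.e (nat_lit 180252) (nat_lit 10) (.e (nat_lit 573487) (nat_lit 14) (.e (nat_lit 73747) (nat_lit 3) .nil))))) .nil)) 
(.lf (nat_lit 147888) (.g (nat_lit 2386) (.e (nat_lit 57375) (nat_lit 2) (.e (nat_lit 90176) (nat_lit 15) (.e (nat_lit 188439) (nat_lit 20) (.e (nat_lit 3271) (nat_lit 199) (.e (nat_lit 548913) (nat_lit 18) (.e (nat_lit 172138) (nat_lit 15) (.e (nat_lit 1009) (nat_lit 81) (.e (nat_lit 6930) (nat_lit 373) .nil)))))))) (.g (nat_lit 6) .nil .nil))))) (.nd (nat_lit 4) (.nd (nat_lit 5) 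
(.lf (nat_lit 147848) (.g (nat_lit 4349) (.e (nat_lit 57375) (nat_lit 2) (.e (nat_lit 90174) (nat_lit 14) (.e (nat_lit 180250) (nat_lit 10) (.e (nat_lit 573487) (nat_lit 14) (.e (nat_lit 73747) (nat_lit 3) (.e (nat_lit 516115) (nat_lit 1) (.e (nat_lit 171776) (nat_lit 160) .nil))))))) (.g (nat_lit 6) .nil .nil))) 
(.lf (nat_lit 147880) (.g (nat_lit 2140) (.e (nat_lit 57375) (nat_lit 2) (.e (nat_lit 90176) (nat_lit 15) (.e (nat_lit 188439) (nat_lit 20) (.e (nat_lit 3270) (nat_lit 199) (.e (nat_lit 548898) (nat_lit 14) (.e (nat_lit 3063) (nat_lit 190) (.e (nat_lit 475157) (nat_lit 21) (.e (nat_lit 6930) (nat_lit 373) .nil)))))))) (.g (nat_lit 5) .nil .nil)))) (.nd (nat_lit 5) 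
(.lf (nat_lit 147864) (.g (nat_lit 2680) (.e (nat_lit 57375) (nat_lit 2) (.e (nat_lit 90176) (nat_lit 15) (.e (nat_lit 188423) (nat_lit 11) (.e (nat_lit 336387) (nat_lit 27) (.e (nat_lit 426098) (nat_lit 1) (.e (nat_lit 164397) (nat_lit 256) .nil)))))) (.g (nat_lit 0) .nil .nil))) 
(.lf (nat_lit 147896) (.g (nat_lit 2906) (.e (nat_lit 57375) (nat_lit 2) (.e (nat_lit 90176) (nat_lit 15) (.e (nat_lit 188439) (nat_lit 20) (.e (nat_lit 3272) (nat_lit 199) (.e (nat_lit 548913) (nat_lit 18) (.e (nat_lit 172070) (nat_lit 4) (.e (nat_lit 237312) (nat_lit 262) .nil))))))) (.g (nat_lit 6) .nil .nil)))))) (.nd (nat_lit 3) (.nd (nat_lit 4) (.nd (nat_lit 5) 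
(.lf (nat_lit 147844) (.g (nat_lit 3974) (.e (nat_lit 57375) (nat_lit 2) (.e (nat_lit 90174) (nat_lit 14) (.e (nat_lit 180250) (nat_lit 10) (.e (nat_lit 573487) (nat_lit 14) (.e (nat_lit 73746) (nat_lit 3) (.e (nat_lit 516115) (nat_lit 1) (.e (nat_lit 171776) (nat_lit 160) .nil))))))) (.g (nat_lit 5) .nil .nil))) 
(.lf (nat_lit 147876) (.g (nat_lit 382) (.e (nat_lit 57375) (nat_lit 2) (.e (nat_lit 90176) (nat_lit 15) (.e (nat_lit 188431) (nat_lit 20) .nil))) .nil))) (.nd (nat_lit 5) 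
(.lf (nat_lit 147860) (.g (nat_lit 281) (.e (nat_lit 57375) (nat_lit 2) (.e (nat_lit 90176) (nat_lit 15) (.e (nat_lit 188423) (nat_lit 11) .nil))) .nil)) 
(.lf (nat_lit 147892) (.g (nat_lit 2179) (.e (nat_lit 57375) (nat_lit 2) (.e (nat_lit 90176) (nat_lit 15) (.e (nat_lit 188439) (nat_lit 20) (.e (nat_lit 3272) (nat_lit 199) (.e (nat_lit 548898) (nat_lit 14) (.e (nat_lit 3071) (nat_lit 190) (.e (nat_lit 475156) (nat_lit 21) (.e (nat_lit 6930) (nat_lit 373) .nil)))))))) (.g (nat_lit 5) .nil .nil))))) (.nd (nat_lit 4) (.nd (nat_lit 5) 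
(.lf (nat_lit 147852) (.g (nat_lit 1251) (.e (nat_lit 57375) (nat_lit 2) (.e (nat_lit 90174) (nat_lit 14) (.e (nat_lit 180251) (nat_lit 10) (.e (nat_lit 573487) (nat_lit 14) .nil)))) .nil)) 
(.lf (nat_lit 147884) (.g (nat_lit 1717) (.e (nat_lit 57375) (nat_lit 2) (.e (nat_lit 90176) (nat_lit 15) (.e (nat_lit 188439) (nat_lit 20) (.e (nat_lit 3271) (nat_lit 199) (.e (nat_lit 548898) (nat_lit 14) (.e (nat_lit 3063) (nat_lit 190) (.e (nat_lit 475156) (nat_lit 21) (.e (nat_lit 6930) (nat_lit 373) .nil)))))))) (.g (nat_lit 5) .nil .nil)))) (.nd (nat_lit 5) 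
(.lf (nat_lit 147868) (.g (nat_lit 380) (.e (nat_lit 57375) (nat_lit 2) (.e (nat_lit 90176) (nat_lit 15) (.e (nat_lit 196352) (nat_lit 11) .nil))) .nil)) 
(.lf (nat_lit 147900) (.g (nat_lit 1876) (.e (nat_lit 57375) (nat_lit 2) (.e (nat_lit 90176) (nat_lit 15) (.e (nat_lit 188439) (nat_lit 20) (.e (nat_lit 3579) (nat_lit 223) (.e (nat_lit 745492) (nat_lit 5) (.e (nat_lit 73728) (nat_lit 0) (.e (nat_lit 4634) (nat_lit 271) .nil))))))) (.g (nat_lit 4) .nil .nil))))))) (.nd (nat_lit 2) (.nd (nat_lit 3) (.nd (nat_lit 4) (.nd (nat_lit 5) 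
(.lf (nat_lit 147842) (.g (nat_lit 3537) (.e (nat_lit 57375) (nat_lit 2) (.e (nat_lit 90174) (nat_lit 14) (.e (nat_lit 180250) (nat_lit 10) (.e (nat_lit 573484) (nat_lit 13) (.e (nat_lit 65569) (nat_lit 3) (.e (nat_lit 98334) (nat_lit 18) (.e (nat_lit 171776) (nat_lit 160) .nil))))))) (.g (nat_lit 4) .nil .nil))) 
(.lf (nat_lit 147874) (.g (nat_lit 482) (.e (nat_lit 57375) (nat_lit 2) (.e (nat_lit 90176) (nat_lit 15) (.e (nat_lit 188424) (nat_lit 20) .nil))) .nil))) (.nd (nat_lit 5) 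
(.lf (nat_lit 147858) (.g (nat_lit 1729) (.e (nat_lit 57375) (nat_lit 2) (.e (nat_lit 90176) (nat_lit 15) (.e (nat_lit 188421) (nat_lit 11) (.e (nat_lit 336387) (nat_lit 27) (.e (nat_lit 426098) (nat_lit 1) (.e (nat_lit 164397) (nat_lit 256) .nil)))))) (.g (nat_lit 4) .nil .nil))) 
(.lf (nat_lit 147890) (.g (nat_lit 2665) (.e (nat_lit 57375) (nat_lit 2) (.e (nat_lit 90176) (nat_lit 15) (.e (nat_lit 188439) (nat_lit 20) (.e (nat_lit 3272) (nat_lit 199) (.e (nat_lit 548898) (nat_lit 14) (.e (nat_lit 3063) (nat_lit 190) (.e (nat_lit 475156) (nat_lit 21) (.e (nat_lit 6930) (nat_lit 373) .nil)))))))) (.g (nat_lit 5) .nil .nil))))) (.nd (nat_lit 4) (.nd (nat_lit 5) 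
(.lf (nat_lit 147850) (.g (nat_lit 3798) (.e (nat_lit 57375) (nat_lit 2) (.e (nat_lit 90174) (nat_lit 14) (.e (nat_lit 180250) (nat_lit 10) (.e (nat_lit 573487) (nat_lit 14) (.e (nat_lit 73747) (nat_lit 3) (.e (nat_lit 516119) (nat_lit 1) (.e (nat_lit 171776) (nat_lit 160) .nil))))))) (.g (nat_lit 5) .nil .nil))) 
(.lf (nat_lit 147882) (.g (nat_lit 2102) (.e (nat_lit 57375) (nat_lit 2) (.e (nat_lit 90176) (nat_lit 15) (.e (nat_lit 188439) (nat_lit 20) (.e (nat_lit 3270) (nat_lit 199) (.e (nat_lit 548913) (nat_lit 18) (.e (nat_lit 172070) (nat_lit 4) (.e (nat_lit 237312) (nat_lit 262) .nil))))))) (.g (nat_lit 5) .nil .nil)))) (.nd (nat_lit 5) 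
(.lf (nat_lit 147866) (.g (nat_lit 2561) (.e (nat_lit 57375) (nat_lit 2) (.e (nat_lit 90176) (nat_lit 15) (.e (nat_lit 188423) (nat_lit 11) (.e (nat_lit 336387) (nat_lit 27) (.e (nat_lit 426100) (nat_lit 1) (.e (nat_lit 164397) (nat_lit 256) .nil)))))) (.g (nat_lit 0) .nil .nil))) 
(.lf (nat_lit 147898) (.g (nat_lit 1567) (.e (nat_lit 57375) (nat_lit 2) (.e (nat_lit 90176) (nat_lit 15) (.e (nat_lit 188439) (nat_lit 20) (.e (nat_lit 3579) (nat_lit 223) (.e (nat_lit 745475) (nat_lit 0) (.e (nat_lit 1642) (nat_lit 114) (.e (nat_lit 385045) (nat_lit 21) (.e (nat_lit 6828) (nat_lit 367) .nil)))))))) (.g (nat_lit 4) .nil .nil)))))) 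
(.nd (nat_lit 3) (.nd (nat_lit 4) (.nd (nat_lit 5) 
(.lf (nat_lit 147846) (.g (nat_lit 3446) (.e (nat_lit 57375) (nat_lit 2) (.e (nat_lit 90174) (nat_lit 14) (.e (nat_lit 180250) (nat_lit 10) (.e (nat_lit 573487) (nat_lit 14) (.e (nat_lit 73746) (nat_lit 3) (.e (nat_lit 516119) (nat_lit 1) (.e (nat_lit 171776) (nat_lit 160) .nil))))))) (.g (nat_lit 4) .nil .nil))) 
(.lf (nat_lit 147878) (.g (nat_lit 343) (.e (nat_lit 57375) (nat_lit 2) (.e (nat_lit 90176) (nat_lit 15) (.e (nat_lit 188439) (nat_lit 20) .nil))) .nil))) (.nd (nat_lit 5) 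
(.lf (nat_lit 147862) (.g (nat_lit 1625) (.e (nat_lit 57375) (nat_lit 2) (.e (nat_lit 90176) (nat_lit 15) (.e (nat_lit 188423) (nat_lit 11) (.e (nat_lit 336387) (nat_lit 27) (.e (nat_lit 426031) (nat_lit 0) (.e (nat_lit 2466) (nat_lit 157) (.e (nat_lit 5938) (nat_lit 322) .nil))))))) (.g (nat_lit 6) .nil .nil))) 
(.lf (nat_lit 147894) (.g (nat_lit 2934) (.e (nat_lit 57375) (nat_lit 2) (.e (nat_lit 90176) (nat_lit 15) (.e (nat_lit 188439) (nat_lit 20) (.e (nat_lit 3272) (nat_lit 199) (.e (nat_lit 548913) (nat_lit 18) (.e (nat_lit 172035) (nat_lit 0) (.e (nat_lit 2403) (nat_lit 157) (.e (nat_lit 4413) (nat_lit 259) .nil)))))))) (.g (nat_lit 5) .nil .nil))))) (.nd (nat_lit 4) (.nd (nat_lit 5) 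
(.lf (nat_lit 147854) (.g (nat_lit 2605) (.e (nat_lit 57375) (nat_lit 2) (.e (nat_lit 90174) (nat_lit 14) (.e (nat_lit 180251) (nat_lit 10) (.e (nat_lit 573489) (nat_lit 14) (.e (nat_lit 73748) (nat_lit 3) (.e (nat_lit 516115) (nat_lit 1) (.e (nat_lit 171776) (nat_lit 160) .nil))))))) (.g (nat_lit 4) .nil .nil))) 
(.lf (nat_lit 147886) (.g (nat_lit 2378) (.e (nat_lit 57375) (nat_lit 2) (.e (nat_lit 90176) (nat_lit 15) (.e (nat_lit 188439) (nat_lit 20) (.e (nat_lit 3271) (nat_lit 199) (.e (nat_lit 548898) (nat_lit 14) (.e (nat_lit 3071) (nat_lit 190) (.e (nat_lit 475157) (nat_lit 21) (.e (nat_lit 6930) (nat_lit 373) .nil)))))))) (.g (nat_lit 6) .nil .nil)))) (.nd (nat_lit 5) 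
(.lf (nat_lit 147870) (.g (nat_lit 380) (.e (nat_lit 57375) (nat_lit 2) (.e (nat_lit 90176) (nat_lit 15) (.e (nat_lit 196352) (nat_lit 18) .nil))) .nil)) 
(.lf (nat_lit 147902) (.g (nat_lit 1423) (.e (nat_lit 57375) (nat_lit 2) (.e (nat_lit 90176) (nat_lit 15) (.e (nat_lit 188447) (nat_lit 22) (.e (nat_lit 196661) (nat_lit 12) (.e (nat_lit 57721) (nat_lit 177) .nil))))) .nil))))))) (.nd (nat_lit 1) (.nd (nat_lit 2) (.nd (nat_lit 3) (.nd (nat_lit 4) (.nd (nat_lit 5) 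
(.lf (nat_lit 147841) (.g (nat_lit 2224) (.e (nat_lit 57375) (nat_lit 2) (.e (nat_lit 90174) (nat_lit 14) (.e (nat_lit 180243) (nat_lit 5) (.e (nat_lit 532515) (nat_lit 3) (.e (nat_lit 114719) (nat_lit 23) (.e (nat_lit 98335) (nat_lit 18) (.e (nat_lit 164396) (nat_lit 256) .nil))))))) (.g (nat_lit 4) .nil .nil))) 
(.lf (nat_lit 147873) (.g (nat_lit 1374) (.e (nat_lit 57375) (nat_lit 2) (.e (nat_lit 90176) (nat_lit 15) (.e (nat_lit 196352) (nat_lit 18) (.e (nat_lit 393234) (nat_lit 17) (.e (nat_lit 2536) (nat_lit 157) (.e (nat_lit 5935) (nat_lit 322) .nil)))))) (.g (nat_lit 4) .nil .nil)))) (.nd (nat_lit 5) 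
(.lf (nat_lit 147857) (.g (nat_lit 391) (.e (nat_lit 57375) (nat_lit 2) (.e (nat_lit 90176) (nat_lit 15) (.e (nat_lit 188421) (nat_lit 11) .nil))) .nil)) 
(.lf (nat_lit 147889) (.g (nat_lit 1977) (.e (nat_lit 57375) (nat_lit 2) (.e (nat_lit 90176) (nat_lit 15) (.e (nat_lit 188439) (nat_lit 20) (.e (nat_lit 3272) (nat_lit 199) (.e (nat_lit 548898) (nat_lit 14) (.e (nat_lit 2980) (nat_lit 185) (.e (nat_lit 434200) (nat_lit 18) (.e (nat_lit 4412) (nat_lit 259) .nil)))))))) (.g (nat_lit 4) .nil .nil))))) (.nd (nat_lit 4) (.nd (nat_lit 5) 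
(.lf (nat_lit 147849) (.g (nat_lit 3051) (.e (nat_lit 57375) (nat_lit 2) (.e (nat_lit 90174) (nat_lit 14) (.e (nat_lit 180250) (nat_lit 10) (.e (nat_lit 573487) (nat_lit 14) (.e (nat_lit 73747) (nat_lit 3) (.e (nat_lit 516117) (nat_lit 1) (.e (nat_lit 171776) (nat_lit 160) .nil))))))) (.g (nat_lit 4) .nil .nil))) 
(.lf (nat_lit 147881) (.g (nat_lit 2268) (.e (nat_lit 57375) (nat_lit 2) (.e (nat_lit 90176) (nat_lit 15) (.e (nat_lit 188439) (nat_lit 20) (.e (nat_lit 3270) (nat_lit 199) (.e (nat_lit 548898) (nat_lit 14) (.e (nat_lit 3071) (nat_lit 190) (.e (nat_lit 475157) (nat_lit 21) (.e (nat_lit 6930) (nat_lit 373) .nil)))))))) (.g (nat_lit 5) .nil .nil)))) (.nd (nat_lit 5) 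
(.lf (nat_lit 147865) (.g (nat_lit 1976) (.e (nat_lit 57375) (nat_lit 2) (.e (nat_lit 90176) (nat_lit 15) (.e (nat_lit 188423) (nat_lit 11) (.e (nat_lit 336387) (nat_lit 27) (.e (nat_lit 426100) (nat_lit 1) (.e (nat_lit 164396) (nat_lit 256) .nil)))))) (.g (nat_lit 5) .nil .nil))) 
(.lf (nat_lit 147897) (.g (nat_lit 3347) (.e (nat_lit 57375) (nat_lit 2) (.e (nat_lit 90176) (nat_lit 15) (.e (nat_lit 188439) (nat_lit 20) (.e (nat_lit 3272) (nat_lit 199) (.e (nat_lit 548913) (nat_lit 18) (.e (nat_lit 172138) (nat_lit 15) (.e (nat_lit 1009) (nat_lit 81) (.e (nat_lit 6930) (nat_lit 373) .nil)))))))) (.g (nat_lit 6) .nil .nil)))))) 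
(.nd (nat_lit 3) (.nd (nat_lit 4) (.nd (nat_lit 5) 
(.lf (nat_lit 147845) (.g (nat_lit 3499) (.e (nat_lit 57375) (nat_lit 2) (.e (nat_lit 90174) (nat_lit 14) (.e (nat_lit 180250) (nat_lit 10) (.e (nat_lit 573487) (nat_lit 14) (.e (nat_lit 73746) (nat_lit 3) (.e (nat_lit 516117) (nat_lit 1) (.e (nat_lit 171776) (nat_lit 160) .nil))))))) (.g (nat_lit 4) .nil .nil))) 
(.lf (nat_lit 147877) (.g (nat_lit 840) (.e (nat_lit 57375) (nat_lit 2) (.e (nat_lit 90176) (nat_lit 15) (.e (nat_lit 188431) (nat_lit 20) (.e (nat_lit 3545) (nat_lit 219) .nil)))) .nil))) (.nd (nat_lit 5) 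
(.lf (nat_lit 147861) (.g (nat_lit 2226) (.e (nat_lit 57375) (nat_lit 2) (.e (nat_lit 90176) (nat_lit 15) (.e (nat_lit 188423) (nat_lit 11) (.e (nat_lit 336049) (nat_lit 6) (.e (nat_lit 147500) (nat_lit 12) (.e (nat_lit 163841) (nat_lit 0) (.e (nat_lit 7472) (nat_lit 398) .nil))))))) (.g (nat_lit 7) .nil .nil))) 
(.lf (nat_lit 147893) (.g (nat_lit 3326) (.e (nat_lit 57375) (nat_lit 2) (.e (nat_lit 90176) (nat_lit 15) (.e (nat_lit 188439) (nat_lit 20) (.e (nat_lit 3272) (nat_lit 199) (.e (nat_lit 548898) (nat_lit 14) (.e (nat_lit 3071) (nat_lit 190) (.e (nat_lit 475157) (nat_lit 21) (.e (nat_lit 6930) (nat_lit 373) .nil)))))))) (.g (nat_lit 7) .nil .nil))))) (.nd (nat_lit 4) (.nd (nat_lit 5) 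
(.lf (nat_lit 147853) (.g (nat_lit 2407) (.e (nat_lit 57375) (nat_lit 2) (.e (nat_lit 90174) (nat_lit 14) (.e (nat_lit 180251) (nat_lit 10) (.e (nat_lit 573489) (nat_lit 14) (.e (nat_lit 73748) (nat_lit 3) .nil))))) .nil)) 
(.lf (nat_lit 147885) (.g (nat_lit 2250) (.e (nat_lit 57375) (nat_lit 2) (.e (nat_lit 90176) (nat_lit 15) (.e (nat_lit 188439) (nat_lit 20) (.e (nat_lit 3271) (nat_lit 199) (.e (nat_lit 548898) (nat_lit 14) (.e (nat_lit 3063) (nat_lit 190) (.e (nat_lit 475157) (nat_lit 21) (.e (nat_lit 6930) (nat_lit 373) .nil)))))))) (.g (nat_lit 5) .nil .nil)))) (.nd (nat_lit 5) 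
(.lf (nat_lit 147869) (.g (nat_lit 1499) (.e (nat_lit 57375) (nat_lit 2) (.e (nat_lit 90176) (nat_lit 15) (.e (nat_lit 196352) (nat_lit 11) (.e (nat_lit 336446) (nat_lit 33) (.e (nat_lit 475155) (nat_lit 21) (.e (nat_lit 6827) (nat_lit 367) .nil)))))) (.g (nat_lit 5) .nil .nil))) 
(.lf (nat_lit 147901) (.g (nat_lit 1989) (.e (nat_lit 57375) (nat_lit 2) (.e (nat_lit 90176) (nat_lit 15) (.e (nat_lit 188439) (nat_lit 20) (.e (nat_lit 3579) (nat_lit 223) (.e (nat_lit 745492) (nat_lit 5) (.e (nat_lit 81664) (nat_lit 0) (.e (nat_lit 4633) (nat_lit 271) .nil))))))) (.g (nat_lit 4) .nil .nil))))))) (.nd (nat_lit 2) (.nd (nat_lit 3) (.nd (nat_lit 4) (.nd (nat_lit 5) 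
(.lf (nat_lit 147843) (.g (nat_lit 2473) (.e (nat_lit 57375) (nat_lit 2) (.e (nat_lit 90174) (nat_lit 14) (.e (nat_lit 180250) (nat_lit 10) (.e (nat_lit 573484) (nat_lit 13) (.e (nat_lit 65571) (nat_lit 3) .nil))))) .nil)) 
(.lf (nat_lit 147875) (.g (nat_lit 491) (.e (nat_lit 57375) (nat_lit 2) (.e (nat_lit 90176) (nat_lit 15) (.e (nat_lit 188428) (nat_lit 20) .nil))) .nil))) (.nd (nat_lit 5) 
(.lf (nat_lit 147859) (.g (nat_lit 1618) (.e (nat_lit 57375) (nat_lit 2) (.e (nat_lit 90176) (nat_lit 15) (.e (nat_lit 188421) (nat_lit 11) (.e (nat_lit 336387) (nat_lit 27) (.e (nat_lit 426100) (nat_lit 1) (.e (nat_lit 164397) (nat_lit 256) .nil)))))) (.g (nat_lit 4) .nil .nil))) 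
(.lf (nat_lit 147891) (.g (nat_lit 3198) (.e (nat_lit 57375) (nat_lit 2) (.e (nat_lit 90176) (nat_lit 15) (.e (nat_lit 188439) (nat_lit 20) (.e (nat_lit 3272) (nat_lit 199) (.e (nat_lit 548898) (nat_lit 14) (.e (nat_lit 3063) (nat_lit 190) (.e (nat_lit 475157) (nat_lit 21) (.e (nat_lit 6930) (nat_lit 373) .nil)))))))) (.g (nat_lit 7) .nil .nil))))) (.nd (nat_lit 4) (.nd (nat_lit 5) 
(.lf (nat_lit 147851) (.g (nat_lit 2289) (.e (nat_lit 57375) (nat_lit 2) (.e (nat_lit 90174) (nat_lit 14) (.e (nat_lit 180250) (nat_lit 10) (.e (nat_lit 573487) (nat_lit 14) (.e (nat_lit 81664) (nat_lit 5) .nil))))) .nil)) 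
(.lf (nat_lit 147883) (.g (nat_lit 2358) (.e (nat_lit 57375) (nat_lit 2) (.e (nat_lit 90176) (nat_lit 15) (.e (nat_lit 188439) (nat_lit 20) (.e (nat_lit 3270) (nat_lit 199) (.e (nat_lit 548913) (nat_lit 18) (.e (nat_lit 172138) (nat_lit 15) (.e (nat_lit 1009) (nat_lit 81) (.e (nat_lit 6930) (nat_lit 373) .nil)))))))) (.g (nat_lit 5) .nil .nil)))) (.nd (nat_lit 5) 
(.lf (nat_lit 147867) (.g (nat_lit 1458) (.e (nat_lit 57375) (nat_lit 2) (.e (nat_lit 90176) (nat_lit 15) (.e (nat_lit 188423) (nat_lit 11) (.e (nat_lit 336387) (nat_lit 27) (.e (nat_lit 426142) (nat_lit 4) (.e (nat_lit 229707) (nat_lit 256) .nil)))))) (.g (nat_lit 5) .nil .nil))) 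
(.lf (nat_lit 147899) (.g (nat_lit 1650) (.e (nat_lit 57375) (nat_lit 2) (.e (nat_lit 90176) (nat_lit 15) (.e (nat_lit 188439) (nat_lit 20) (.e (nat_lit 3579) (nat_lit 223) (.e (nat_lit 745476) (nat_lit 0) (.e (nat_lit 1642) (nat_lit 114) (.e (nat_lit 385045) (nat_lit 21) (.e (nat_lit 6828) (nat_lit 367) .nil)))))))) (.g (nat_lit 4) .nil .nil)))))) 
(.nd (nat_lit 3) (.nd (nat_lit 4) (.nd (nat_lit 5) 
(.lf (nat_lit 147847) (.g (nat_lit 3466) (.e (nat_lit 57375) (nat_lit 2) (.e (nat_lit 90174) (nat_lit 14) (.e (nat_lit 180250) (nat_lit 10) (.e (nat_lit 573487) (nat_lit 14) (.e (nat_lit 73746) (nat_lit 3) (.e (nat_lit 516120) (nat_lit 1) (.e (nat_lit 171776) (nat_lit 160) .nil))))))) (.g (nat_lit 4) .nil .nil))) 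
(.lf (nat_lit 147879) (.g (nat_lit 1607) (.e (nat_lit 57375) (nat_lit 2) (.e (nat_lit 90176) (nat_lit 15) (.e (nat_lit 188439) (nat_lit 20) (.e (nat_lit 3270) (nat_lit 199) (.e (nat_lit 548898) (nat_lit 14) (.e (nat_lit 3063) (nat_lit 190) (.e (nat_lit 475156) (nat_lit 21) (.e (nat_lit 6930) (nat_lit 373) .nil)))))))) (.g (nat_lit 4) .nil .nil)))) (.nd (nat_lit 5) 
(.lf (nat_lit 147863) (.g (nat_lit 2579) (.e (nat_lit 57375) (nat_lit 2) (.e (nat_lit 90176) (nat_lit 15) (.e (nat_lit 188423) (nat_lit 11) (.e (nat_lit 336387) (nat_lit 27) (.e (nat_lit 426098) (nat_lit 1) (.e (nat_lit 164396) (nat_lit 256) .nil)))))) (.g (nat_lit 0) .nil .nil))) 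
(.lf (nat_lit 147895) (.g (nat_lit 1948) (.e (nat_lit 57375) (nat_lit 2) (.e (nat_lit 90176) (nat_lit 15) (.e (nat_lit 188439) (nat_lit 20) (.e (nat_lit 3272) (nat_lit 199) (.e (nat_lit 548913) (nat_lit 18) (.e (nat_lit 172036) (nat_lit 0) (.e (nat_lit 2403) (nat_lit 157) (.e (nat_lit 4413) (nat_lit 259) .nil)))))))) (.g (nat_lit 4) .nil .nil))))) (.nd (nat_lit 4) (.nd (nat_lit 5) 
(.lf (nat_lit 147855) (.g (nat_lit 1944) (.e (nat_lit 57375) (nat_lit 2) (.e (nat_lit 90174) (nat_lit 14) (.e (nat_lit 180251) (nat_lit 10) (.e (nat_lit 573489) (nat_lit 14) (.e (nat_lit 73755) (nat_lit 8) .nil))))) .nil)) 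
(.lf (nat_lit 147887) (.g (nat_lit 2130) (.e (nat_lit 57375) (nat_lit 2) (.e (nat_lit 90176) (nat_lit 15) (.e (nat_lit 188439) (nat_lit 20) (.e (nat_lit 3271) (nat_lit 199) (.e (nat_lit 548913) (nat_lit 18) (.e (nat_lit 172070) (nat_lit 4) (.e (nat_lit 237312) (nat_lit 262) .nil))))))) (.g (nat_lit 5) .nil .nil)))) (.nd (nat_lit 5) 
(.lf (nat_lit 147871) (.g (nat_lit 1449) (.e (nat_lit 57375) (nat_lit 2) (.e (nat_lit 90176) (nat_lit 15) (.e (nat_lit 196352) (nat_lit 18) (.e (nat_lit 393232) (nat_lit 17) (.e (nat_lit 2399) (nat_lit 157) (.e (nat_lit 5934) (nat_lit 322) .nil)))))) (.g (nat_lit 4) .nil .nil))) 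
(.lf (nat_lit 147903) (.g (nat_lit 2772) (.e (nat_lit 57375) (nat_lit 2) (.e (nat_lit 90176) (nat_lit 15) (.e (nat_lit 188447) (nat_lit 22) (.e (nat_lit 196666) (nat_lit 13) (.e (nat_lit 65536) (nat_lit 0) .nil))))) .nil))))))))

noncomputable def tv1967 : DT := (.nd (nat_lit 0) (.nd (nat_lit 1) (.nd (nat_lit 2) (.nd (nat_lit 3) (.nd (nat_lit 4) (.nd (nat_lit 5) 
(.lf (nat_lit 147904) (.g (nat_lit 2782) (.e (nat_lit 57375) (nat_lit 2) (.e (nat_lit 90176) (nat_lit 15) (.e (nat_lit 188447) (nat_lit 22) (.e (nat_lit 196666) (nat_lit 13) (.e (nat_lit 65536) (nat_lit 0) (.e (nat_lit 968) (nat_lit 81) (.e (nat_lit 4840) (nat_lit 283) .nil))))))) (.g (nat_lit 4) .nil .nil))) 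
(.lf (nat_lit 147936) (.g (nat_lit 4025) (.e (nat_lit 57375) (nat_lit 2) (.e (nat_lit 90176) (nat_lit 15) (.e (nat_lit 188447) (nat_lit 22) (.e (nat_lit 196668) (nat_lit 14) (.e (nat_lit 73729) (nat_lit 0) (.e (nat_lit 7936) (nat_lit 283) .nil)))))) (.g (nat_lit 5) .nil .nil)))) (.nd (nat_lit 5) 
(.lf (nat_lit 147920) (.g (nat_lit 3398) (.e (nat_lit 57375) (nat_lit 2) (.e (nat_lit 90176) (nat_lit 15) (.e (nat_lit 188447) (nat_lit 22) (.e (nat_lit 196666) (nat_lit 13) (.e (nat_lit 65546) (nat_lit 0) (.e (nat_lit 991) (nat_lit 81) (.e (nat_lit 7936) (nat_lit 283) .nil))))))) (.g (nat_lit 6) .nil .nil))) 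
(.lf (nat_lit 147952) (.g (nat_lit 1937) (.e (nat_lit 57375) (nat_lit 2) (.e (nat_lit 90176) (nat_lit 15) (.e (nat_lit 188450) (nat_lit 23) (.e (nat_lit 204849) (nat_lit 25) (.e (nat_lit 327692) (nat_lit 1) .nil))))) .nil)))) (.nd (nat_lit 4) (.nd (nat_lit 5) 
(.lf (nat_lit 147912) (.g (nat_lit 3818) (.e (nat_lit 57375) (nat_lit 2) (.e (nat_lit 90176) (nat_lit 15) (.e (nat_lit 188447) (nat_lit 22) (.e (nat_lit 196666) (nat_lit 13) (.e (nat_lit 65539) (nat_lit 0) (.e (nat_lit 973) (nat_lit 81) (.e (nat_lit 4840) (nat_lit 283) .nil))))))) (.g (nat_lit 6) .nil .nil))) 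
(.lf (nat_lit 147944) (.g (nat_lit 2752) (.e (nat_lit 57375) (nat_lit 2) (.e (nat_lit 90176) (nat_lit 15) (.e (nat_lit 188447) (nat_lit 22) (.e (nat_lit 196681) (nat_lit 17) (.e (nat_lit 131086) (nat_lit 1) (.e (nat_lit 65280) (nat_lit 241) .nil)))))) (.g (nat_lit 4) .nil .nil)))) (.nd (nat_lit 5) 
(.lf (nat_lit 147928) (.g (nat_lit 3221) (.e (nat_lit 57375) (nat_lit 2) (.e (nat_lit 90176) (nat_lit 15) (.e (nat_lit 188447) (nat_lit 22) (.e (nat_lit 196666) (nat_lit 13) (.e (nat_lit 65553) (nat_lit 0) (.e (nat_lit 991) (nat_lit 81) (.e (nat_lit 7936) (nat_lit 283) .nil))))))) (.g (nat_lit 6) .nil .nil))) 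
(.lf (nat_lit 147960) (.g (nat_lit 3364) (.e (nat_lit 57375) (nat_lit 2) (.e (nat_lit 90176) (nat_lit 15) (.e (nat_lit 188450) (nat_lit 23) (.e (nat_lit 204852) (nat_lit 26) (.e (nat_lit 336257) (nat_lit 15) (.e (nat_lit 2397) (nat_lit 157) (.e (nat_lit 6930) (nat_lit 373) .nil))))))) (.g (nat_lit 6) .nil .nil)))))) (.nd (nat_lit 3) (.nd (nat_lit 4) (.nd (nat_lit 5) 
(.lf (nat_lit 147908) (.g (nat_lit 3908) (.e (nat_lit 57375) (nat_lit 2) (.e (nat_lit 90176) (nat_lit 15) (.e (nat_lit 188447) (nat_lit 22) (.e (nat_lit 196666) (nat_lit 13) (.e (nat_lit 65538) (nat_lit 0) (.e (nat_lit 1050) (nat_lit 81) (.e (nat_lit 4840) (nat_lit 283) .nil))))))) (.g (nat_lit 4) .nil .nil))) 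
(.lf (nat_lit 147940) (.g (nat_lit 1641) (.e (nat_lit 57375) (nat_lit 2) (.e (nat_lit 90176) (nat_lit 15) (.e (nat_lit 188447) (nat_lit 22) (.e (nat_lit 196669) (nat_lit 14) .nil)))) .nil))) (.nd (nat_lit 5) 
(.lf (nat_lit 147924) (.g (nat_lit 3400) (.e (nat_lit 57375) (nat_lit 2) (.e (nat_lit 90176) (nat_lit 15) (.e (nat_lit 188447) (nat_lit 22) (.e (nat_lit 196666) (nat_lit 13) (.e (nat_lit 65553) (nat_lit 0) (.e (nat_lit 989) (nat_lit 81) (.e (nat_lit 4841) (nat_lit 283) .nil))))))) (.g (nat_lit 6) .nil .nil))) 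
(.lf (nat_lit 147956) (.g (nat_lit 2093) (.e (nat_lit 57375) (nat_lit 2) (.e (nat_lit 90176) (nat_lit 15) (.e (nat_lit 188450) (nat_lit 23) (.e (nat_lit 204852) (nat_lit 26) (.e (nat_lit 336240) (nat_lit 15) .nil))))) .nil)))) (.nd (nat_lit 4) (.nd (nat_lit 5) 
(.lf (nat_lit 147916) (.g (nat_lit 3407) (.e (nat_lit 57375) (nat_lit 2) (.e (nat_lit 90176) (nat_lit 15) (.e (nat_lit 188447) (nat_lit 22) (.e (nat_lit 196666) (nat_lit 13) (.e (nat_lit 65546) (nat_lit 0) (.e (nat_lit 988) (nat_lit 81) (.e (nat_lit 4841) (nat_lit 283) .nil))))))) (.g (nat_lit 5) .nil .nil))) 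
(.lf (nat_lit 147948) (.g (nat_lit 293) (.e (nat_lit 57375) (nat_lit 2) (.e (nat_lit 90176) (nat_lit 15) (.e (nat_lit 188450) (nat_lit 23) .nil))) .nil))) (.nd (nat_lit 5) 
(.lf (nat_lit 147932) (.g (nat_lit 3240) (.e (nat_lit 57375) (nat_lit 2) (.e (nat_lit 90176) (nat_lit 15) (.e (nat_lit 188447) (nat_lit 22) (.e (nat_lit 196666) (nat_lit 13) (.e (nat_lit 65573) (nat_lit 4) (.e (nat_lit 130816) (nat_lit 241) .nil)))))) (.g (nat_lit 4) .nil .nil))) 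
(.lf (nat_lit 147964) (.g (nat_lit 3226) (.e (nat_lit 57375) (nat_lit 2) (.e (nat_lit 90176) (nat_lit 15) (.e (nat_lit 188450) (nat_lit 23) (.e (nat_lit 204852) (nat_lit 26) (.e (nat_lit 336257) (nat_lit 15) (.e (nat_lit 2411) (nat_lit 157) (.e (nat_lit 6930) (nat_lit 373) .nil))))))) (.g (nat_lit 6) .nil .nil))))))) (.nd (nat_lit 2) (.nd (nat_lit 3) (.nd (nat_lit 4) (.nd (nat_lit 5) 
(.lf (nat_lit 147906) (.g (nat_lit 3005) (.e (nat_lit 57375) (nat_lit 2) (.e (nat_lit 90176) (nat_lit 15) (.e (nat_lit 188447) (nat_lit 22) (.e (nat_lit 196666) (nat_lit 13) (.e (nat_lit 65537) (nat_lit 0) (.e (nat_lit 968) (nat_lit 81) (.e (nat_lit 4840) (nat_lit 283) .nil))))))) (.g (nat_lit 4) .nil .nil))) 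
(.lf (nat_lit 147938) (.g (nat_lit 3131) (.e (nat_lit 57375) (nat_lit 2) (.e (nat_lit 90176) (nat_lit 15) (.e (nat_lit 188447) (nat_lit 22) (.e (nat_lit 196668) (nat_lit 14) (.e (nat_lit 73737) (nat_lit 0) (.e (nat_lit 7936) (nat_lit 283) .nil)))))) (.g (nat_lit 5) .nil .nil)))) (.nd (nat_lit 5) 
(.lf (nat_lit 147922) (.g (nat_lit 2936) (.e (nat_lit 57375) (nat_lit 2) (.e (nat_lit 90176) (nat_lit 15) (.e (nat_lit 188447) (nat_lit 22) (.e (nat_lit 196666) (nat_lit 13) (.e (nat_lit 65550) (nat_lit 0) (.e (nat_lit 988) (nat_lit 81) (.e (nat_lit 4841) (nat_lit 283) .nil))))))) (.g (nat_lit 4) .nil .nil))) 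
(.lf (nat_lit 147954) (.g (nat_lit 1087) (.e (nat_lit 57375) (nat_lit 2) (.e (nat_lit 90176) (nat_lit 15) (.e (nat_lit 188450) (nat_lit 23) (.e (nat_lit 204852) (nat_lit 26) .nil)))) .nil)))) (.nd (nat_lit 4) (.nd (nat_lit 5) 
(.lf (nat_lit 147914) (.g (nat_lit 3015) (.e (nat_lit 57375) (nat_lit 2) (.e (nat_lit 90176) (nat_lit 15) (.e (nat_lit 188447) (nat_lit 22) (.e (nat_lit 196666) (nat_lit 13) (.e (nat_lit 65543) (nat_lit 0) (.e (nat_lit 972) (nat_lit 81) (.e (nat_lit 4840) (nat_lit 283) .nil))))))) (.g (nat_lit 4) .nil .nil))) 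
(.lf (nat_lit 147946) (.g (nat_lit 3797) (.e (nat_lit 57375) (nat_lit 2) (.e (nat_lit 90176) (nat_lit 15) (.e (nat_lit 188447) (nat_lit 22) (.e (nat_lit 196681) (nat_lit 17) (.e (nat_lit 131089) (nat_lit 1) (.e (nat_lit 65280) (nat_lit 241) .nil)))))) (.g (nat_lit 5) .nil .nil)))) (.nd (nat_lit 5) 
(.lf (nat_lit 147930) (.g (nat_lit 3704) (.e (nat_lit 57375) (nat_lit 2) (.e (nat_lit 90176) (nat_lit 15) (.e (nat_lit 188447) (nat_lit 22) (.e (nat_lit 196666) (nat_lit 13) (.e (nat_lit 65565) (nat_lit 1) (.e (nat_lit 65280) (nat_lit 241) .nil)))))) (.g (nat_lit 5) .nil .nil))) 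
(.lf (nat_lit 147962) (.g (nat_lit 3397) (.e (nat_lit 57375) (nat_lit 2) (.e (nat_lit 90176) (nat_lit 15) (.e (nat_lit 188450) (nat_lit 23) (.e (nat_lit 204852) (nat_lit 26) (.e (nat_lit 336257) (nat_lit 15) (.e (nat_lit 2402) (nat_lit 157) (.e (nat_lit 6930) (nat_lit 373) .nil))))))) (.g (nat_lit 7) .nil .nil)))))) (.nd (nat_lit 3) (.nd (nat_lit 4) (.nd (nat_lit 5) 
(.lf (nat_lit 147910) (.g (nat_lit 2780) (.e (nat_lit 57375) (nat_lit 2) (.e (nat_lit 90176) (nat_lit 15) (.e (nat_lit 188447) (nat_lit 22) (.e (nat_lit 196666) (nat_lit 13) (.e (nat_lit 65539) (nat_lit 0) (.e (nat_lit 970) (nat_lit 81) (.e (nat_lit 4840) (nat_lit 283) .nil))))))) (.g (nat_lit 4) .nil .nil))) 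
(.lf (nat_lit 147942) (.g (nat_lit 4253) (.e (nat_lit 57375) (nat_lit 2) (.e (nat_lit 90176) (nat_lit 15) (.e (nat_lit 188447) (nat_lit 22) (.e (nat_lit 196670) (nat_lit 14) (.e (nat_lit 73729) (nat_lit 0) (.e (nat_lit 7936) (nat_lit 283) .nil)))))) (.g (nat_lit 5) .nil .nil)))) (.nd (nat_lit 5) 
(.lf (nat_lit 147926) (.g (nat_lit 2497) (.e (nat_lit 57375) (nat_lit 2) (.e (nat_lit 90176) (nat_lit 15) (.e (nat_lit 188447) (nat_lit 22) (.e (nat_lit 196666) (nat_lit 13) (.e (nat_lit 65553) (nat_lit 0) (.e (nat_lit 990) (nat_lit 81) (.e (nat_lit 7936) (nat_lit 283) .nil))))))) (.g (nat_lit 4) .nil .nil))) 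
(.lf (nat_lit 147958) (.g (nat_lit 2613) (.e (nat_lit 57375) (nat_lit 2) (.e (nat_lit 90176) (nat_lit 15) (.e (nat_lit 188450) (nat_lit 23) (.e (nat_lit 204852) (nat_lit 26) (.e (nat_lit 336240) (nat_lit 15) (.e (nat_lit 2439) (nat_lit 157) (.e (nat_lit 7936) (nat_lit 373) .nil))))))) (.g (nat_lit 4) .nil .nil))))) (.nd (nat_lit 4) (.nd (nat_lit 5) 
(.lf (nat_lit 147918) (.g (nat_lit 3430) (.e (nat_lit 57375) (nat_lit 2) (.e (nat_lit 90176) (nat_lit 15) (.e (nat_lit 188447) (nat_lit 22) (.e (nat_lit 196666) (nat_lit 13) (.e (nat_lit 65546) (nat_lit 0) (.e (nat_lit 990) (nat_lit 81) (.e (nat_lit 4842) (nat_lit 283) .nil))))))) (.g (nat_lit 6) .nil .nil))) 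
(.lf (nat_lit 147950) (.g (nat_lit 3797) (.e (nat_lit 57375) (nat_lit 2) (.e (nat_lit 90176) (nat_lit 15) (.e (nat_lit 188450) (nat_lit 23) (.e (nat_lit 204846) (nat_lit 24) (.e (nat_lit 319514) (nat_lit 11) .nil))))) .nil))) (.nd (nat_lit 5) 
(.lf (nat_lit 147934) (.g (nat_lit 2864) (.e (nat_lit 57375) (nat_lit 2) (.e (nat_lit 90176) (nat_lit 15) (.e (nat_lit 188447) (nat_lit 22) (.e (nat_lit 196668) (nat_lit 14) (.e (nat_lit 73728) (nat_lit 0) (.e (nat_lit 4841) (nat_lit 283) .nil)))))) (.g (nat_lit 4) .nil .nil))) 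
(.lf (nat_lit 147966) (.g (nat_lit 2575) (.e (nat_lit 57375) (nat_lit 2) (.e (nat_lit 90176) (nat_lit 15) (.e (nat_lit 188450) (nat_lit 23) (.e (nat_lit 204852) (nat_lit 26) (.e (nat_lit 336257) (nat_lit 15) (.e (nat_lit 2418) (nat_lit 157) (.e (nat_lit 6931) (nat_lit 373) .nil))))))) (.g (nat_lit 4) .nil .nil)))))))) 
(.nd (nat_lit 1) (.nd (nat_lit 2) (.nd (nat_lit 3) (.nd (nat_lit 4) (.nd (nat_lit 5) 
(.lf (nat_lit 147905) (.g (nat_lit 2900) (.e (nat_lit 57375) (nat_lit 2) (.e (nat_lit 90176) (nat_lit 15) (.e (nat_lit 188447) (nat_lit 22) (.e (nat_lit 196666) (nat_lit 13) (.e (nat_lit 65537) (nat_lit 0) .nil))))) .nil)) 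
(.lf (nat_lit 147937) (.g (nat_lit 3772) (.e (nat_lit 57375) (nat_lit 2) (.e (nat_lit 90176) (nat_lit 15) (.e (nat_lit 188447) (nat_lit 22) (.e (nat_lit 196668) (nat_lit 14) (.e (nat_lit 73733) (nat_lit 0) (.e (nat_lit 7936) (nat_lit 283) .nil)))))) (.g (nat_lit 5) .nil .nil)))) (.nd (nat_lit 5) 
(.lf (nat_lit 147921) (.g (nat_lit 2633) (.e (nat_lit 57375) (nat_lit 2) (.e (nat_lit 90176) (nat_lit 15) (.e (nat_lit 188447) (nat_lit 22) (.e (nat_lit 196666) (nat_lit 13) (.e (nat_lit 65550) (nat_lit 0) (.e (nat_lit 982) (nat_lit 81) (.e (nat_lit 4842) (nat_lit 283) .nil))))))) (.g (nat_lit 4) .nil .nil))) 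
(.lf (nat_lit 147953) (.g (nat_lit 2787) (.e (nat_lit 57375) (nat_lit 2) (.e (nat_lit 90176) (nat_lit 15) (.e (nat_lit 188450) (nat_lit 23) (.e (nat_lit 204850) (nat_lit 26) (.e (nat_lit 335997) (nat_lit 1) (.e (nat_lit 65280) (nat_lit 241) .nil)))))) (.g (nat_lit 4) .nil .nil))))) (.nd (nat_lit 4) (.nd (nat_lit 5) 
(.lf (nat_lit 147913) (.g (nat_lit 2681) (.e (nat_lit 57375) (nat_lit 2) (.e (nat_lit 90176) (nat_lit 15) (.e (nat_lit 188447) (nat_lit 22) (.e (nat_lit 196666) (nat_lit 13) (.e (nat_lit 65543) (nat_lit 0) .nil))))) .nil)) 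
(.lf (nat_lit 147945) (.g (nat_lit 2720) (.e (nat_lit 57375) (nat_lit 2) (.e (nat_lit 90176) (nat_lit 15) (.e (nat_lit 188447) (nat_lit 22) (.e (nat_lit 196681) (nat_lit 17) (.e (nat_lit 131088) (nat_lit 1) (.e (nat_lit 65280) (nat_lit 241) .nil)))))) (.g (nat_lit 4) .nil .nil)))) (.nd (nat_lit 5) 
(.lf (nat_lit 147929) (.g (nat_lit 3239) (.e (nat_lit 57375) (nat_lit 2) (.e (nat_lit 90176) (nat_lit 15) (.e (nat_lit 188447) (nat_lit 22) (.e (nat_lit 196666) (nat_lit 13) (.e (nat_lit 65563) (nat_lit 1) (.e (nat_lit 65280) (nat_lit 241) .nil)))))) (.g (nat_lit 5) .nil .nil))) 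
(.lf (nat_lit 147961) (.g (nat_lit 3487) (.e (nat_lit 57375) (nat_lit 2) (.e (nat_lit 90176) (nat_lit 15) (.e (nat_lit 188450) (nat_lit 23) (.e (nat_lit 204852) (nat_lit 26) (.e (nat_lit 336257) (nat_lit 15) (.e (nat_lit 2400) (nat_lit 157) (.e (nat_lit 6930) (nat_lit 373) .nil))))))) (.g (nat_lit 7) .nil .nil)))))) (.nd (nat_lit 3) (.nd (nat_lit 4) (.nd (nat_lit 5) 
(.lf (nat_lit 147909) (.g (nat_lit 2518) (.e (nat_lit 57375) (nat_lit 2) (.e (nat_lit 90176) (nat_lit 15) (.e (nat_lit 188447) (nat_lit 22) (.e (nat_lit 196666) (nat_lit 13) (.e (nat_lit 65539) (nat_lit 0) .nil))))) .nil)) 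
(.lf (nat_lit 147941) (.g (nat_lit 2630) (.e (nat_lit 57375) (nat_lit 2) (.e (nat_lit 90176) (nat_lit 15) (.e (nat_lit 188447) (nat_lit 22) (.e (nat_lit 196670) (nat_lit 14) (.e (nat_lit 73728) (nat_lit 0) .nil))))) .nil))) (.nd (nat_lit 5) 
(.lf (nat_lit 147925) (.g (nat_lit 3493) (.e (nat_lit 57375) (nat_lit 2) (.e (nat_lit 90176) (nat_lit 15) (.e (nat_lit 188447) (nat_lit 22) (.e (nat_lit 196666) (nat_lit 13) (.e (nat_lit 65553) (nat_lit 0) (.e (nat_lit 990) (nat_lit 81) (.e (nat_lit 4841) (nat_lit 283) .nil))))))) (.g (nat_lit 6) .nil .nil))) 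
(.lf (nat_lit 147957) (.g (nat_lit 3301) (.e (nat_lit 57375) (nat_lit 2) (.e (nat_lit 90176) (nat_lit 15) (.e (nat_lit 188450) (nat_lit 23) (.e (nat_lit 204852) (nat_lit 26) (.e (nat_lit 336240) (nat_lit 15) (.e (nat_lit 2418) (nat_lit 157) (.e (nat_lit 6931) (nat_lit 373) .nil))))))) (.g (nat_lit 5) .nil .nil))))) (.nd (nat_lit 4) (.nd (nat_lit 5) 
(.lf (nat_lit 147917) (.g (nat_lit 3083) (.e (nat_lit 57375) (nat_lit 2) (.e (nat_lit 90176) (nat_lit 15) (.e (nat_lit 188447) (nat_lit 22) (.e (nat_lit 196666) (nat_lit 13) (.e (nat_lit 65546) (nat_lit 0) (.e (nat_lit 989) (nat_lit 81) (.e (nat_lit 4841) (nat_lit 283) .nil))))))) (.g (nat_lit 4) .nil .nil))) 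
(.lf (nat_lit 147949) (.g (nat_lit 1165) (.e (nat_lit 57375) (nat_lit 2) (.e (nat_lit 90176) (nat_lit 15) (.e (nat_lit 188450) (nat_lit 23) (.e (nat_lit 204817) (nat_lit 17) .nil)))) .nil))) (.nd (nat_lit 5) 
(.lf (nat_lit 147933) (.g (nat_lit 3441) (.e (nat_lit 57375) (nat_lit 2) (.e (nat_lit 90176) (nat_lit 15) (.e (nat_lit 188447) (nat_lit 22) (.e (nat_lit 196666) (nat_lit 13) (.e (nat_lit 65574) (nat_lit 4) (.e (nat_lit 130816) (nat_lit 241) .nil)))))) (.g (nat_lit 5) .nil .nil))) 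
(.lf (nat_lit 147965) (.g (nat_lit 3204) (.e (nat_lit 57375) (nat_lit 2) (.e (nat_lit 90176) (nat_lit 15) (.e (nat_lit 188450) (nat_lit 23) (.e (nat_lit 204852) (nat_lit 26) (.e (nat_lit 336257) (nat_lit 15) (.e (nat_lit 2416) (nat_lit 157) (.e (nat_lit 6931) (nat_lit 373) .nil))))))) (.g (nat_lit 5) .nil .nil))))))) (.nd (nat_lit 2) (.nd (nat_lit 3) (.nd (nat_lit 4) (.nd (nat_lit 5) 
(.lf (nat_lit 147907) (.g (nat_lit 4136) (.e (nat_lit 57375) (nat_lit 2) (.e (nat_lit 90176) (nat_lit 15) (.e (nat_lit 188447) (nat_lit 22) (.e (nat_lit 196666) (nat_lit 13) (.e (nat_lit 65538) (nat_lit 0) (.e (nat_lit 1049) (nat_lit 81) (.e (nat_lit 4840) (nat_lit 283) .nil))))))) (.g (nat_lit 6) .nil .nil))) 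
(.lf (nat_lit 147939) (.g (nat_lit 2787) (.e (nat_lit 57375) (nat_lit 2) (.e (nat_lit 90176) (nat_lit 15) (.e (nat_lit 188447) (nat_lit 22) (.e (nat_lit 196668) (nat_lit 14) (.e (nat_lit 81664) (nat_lit 0) (.e (nat_lit 4840) (nat_lit 283) .nil)))))) (.g (nat_lit 4) .nil .nil)))) (.nd (nat_lit 5) 
(.lf (nat_lit 147923) (.g (nat_lit 2941) (.e (nat_lit 57375) (nat_lit 2) (.e (nat_lit 90176) (nat_lit 15) (.e (nat_lit 188447) (nat_lit 22) (.e (nat_lit 196666) (nat_lit 13) (.e (nat_lit 65550) (nat_lit 0) (.e (nat_lit 988) (nat_lit 81) (.e (nat_lit 4842) (nat_lit 283) .nil))))))) (.g (nat_lit 4) .nil .nil))) 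
(.lf (nat_lit 147955) (.g (nat_lit 2453) (.e (nat_lit 57375) (nat_lit 2) (.e (nat_lit 90176) (nat_lit 15) (.e (nat_lit 188450) (nat_lit 23) (.e (nat_lit 204852) (nat_lit 26) (.e (nat_lit 336238) (nat_lit 15) .nil))))) .nil)))) (.nd (nat_lit 4) (.nd (nat_lit 5) 
(.lf (nat_lit 147915) (.g (nat_lit 3118) (.e (nat_lit 57375) (nat_lit 2) (.e (nat_lit 90176) (nat_lit 15) (.e (nat_lit 188447) (nat_lit 22) (.e (nat_lit 196666) (nat_lit 13) (.e (nat_lit 65543) (nat_lit 0) (.e (nat_lit 973) (nat_lit 81) (.e (nat_lit 4840) (nat_lit 283) .nil))))))) (.g (nat_lit 4) .nil .nil))) 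
(.lf (nat_lit 147947) (.g (nat_lit 2184) (.e (nat_lit 57375) (nat_lit 2) (.e (nat_lit 90176) (nat_lit 15) (.e (nat_lit 188449) (nat_lit 22) (.e (nat_lit 196670) (nat_lit 14) .nil)))) .nil))) (.nd (nat_lit 5) 
(.lf (nat_lit 147931) (.g (nat_lit 3177) (.e (nat_lit 57375) (nat_lit 2) (.e (nat_lit 90176) (nat_lit 15) (.e (nat_lit 188447) (nat_lit 22) (.e (nat_lit 196666) (nat_lit 13) (.e (nat_lit 65572) (nat_lit 4) (.e (nat_lit 130816) (nat_lit 241) .nil)))))) (.g (nat_lit 5) .nil .nil))) 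
(.lf (nat_lit 147963) (.g (nat_lit 3417) (.e (nat_lit 57375) (nat_lit 2) (.e (nat_lit 90176) (nat_lit 15) (.e (nat_lit 188450) (nat_lit 23) (.e (nat_lit 204852) (nat_lit 26) (.e (nat_lit 336257) (nat_lit 15) (.e (nat_lit 2403) (nat_lit 157) (.e (nat_lit 6930) (nat_lit 373) .nil))))))) (.g (nat_lit 7) .nil .nil)))))) (.nd (nat_lit 3) (.nd (nat_lit 4) (.nd (nat_lit 5) 
(.lf (nat_lit 147911) (.g (nat_lit 3453) (.e (nat_lit 57375) (nat_lit 2) (.e (nat_lit 90176) (nat_lit 15) (.e (nat_lit 188447) (nat_lit 22) (.e (nat_lit 196666) (nat_lit 13) (.e (nat_lit 65539) (nat_lit 0) (.e (nat_lit 972) (nat_lit 81) (.e (nat_lit 4840) (nat_lit 283) .nil))))))) (.g (nat_lit 4) .nil .nil))) 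
(.lf (nat_lit 147943) (.g (nat_lit 3883) (.e (nat_lit 57375) (nat_lit 2) (.e (nat_lit 90176) (nat_lit 15) (.e (nat_lit 188447) (nat_lit 22) (.e (nat_lit 196670) (nat_lit 14) (.e (nat_lit 73732) (nat_lit 0) (.e (nat_lit 7936) (nat_lit 283) .nil)))))) (.g (nat_lit 5) .nil .nil)))) (.nd (nat_lit 5) 
(.lf (nat_lit 147927) (.g (nat_lit 3529) (.e (nat_lit 57375) (nat_lit 2) (.e (nat_lit 90176) (nat_lit 15) (.e (nat_lit 188447) (nat_lit 22) (.e (nat_lit 196666) (nat_lit 13) (.e (nat_lit 65553) (nat_lit 0) (.e (nat_lit 991) (nat_lit 81) (.e (nat_lit 4841) (nat_lit 283) .nil))))))) (.g (nat_lit 6) .nil .nil))) 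
(.lf (nat_lit 147959) (.g (nat_lit 2176) (.e (nat_lit 57375) (nat_lit 2) (.e (nat_lit 90176) (nat_lit 15) (.e (nat_lit 188450) (nat_lit 23) (.e (nat_lit 204852) (nat_lit 26) (.e (nat_lit 336257) (nat_lit 15) .nil))))) .nil)))) (.nd (nat_lit 4) (.nd (nat_lit 5) 
(.lf (nat_lit 147919) (.g (nat_lit 2744) (.e (nat_lit 57375) (nat_lit 2) (.e (nat_lit 90176) (nat_lit 15) (.e (nat_lit 188447) (nat_lit 22) (.e (nat_lit 196666) (nat_lit 13) (.e (nat_lit 65546) (nat_lit 0) (.e (nat_lit 990) (nat_lit 81) (.e (nat_lit 7936) (nat_lit 283) .nil))))))) (.g (nat_lit 4) .nil .nil))) 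
(.lf (nat_lit 147951) (.g (nat_lit 1216) (.e (nat_lit 57375) (nat_lit 2) (.e (nat_lit 90176) (nat_lit 15) (.e (nat_lit 188450) (nat_lit 23) (.e (nat_lit 204848) (nat_lit 25) .nil)))) .nil))) (.nd (nat_lit 5) 
(.lf (nat_lit 147935) (.g (nat_lit 2757) (.e (nat_lit 57375) (nat_lit 2) (.e (nat_lit 90176) (nat_lit 15) (.e (nat_lit 188447) (nat_lit 22) (.e (nat_lit 196668) (nat_lit 14) (.e (nat_lit 73728) (nat_lit 0) (.e (nat_lit 4842) (nat_lit 283) .nil)))))) (.g (nat_lit 4) .nil .nil))) 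
(.lf (nat_lit 147967) (.g (nat_lit 2954) (.e (nat_lit 57375) (nat_lit 2) (.e (nat_lit 90176) (nat_lit 15) (.e (nat_lit 188450) (nat_lit 23) (.e (nat_lit 204852) (nat_lit 26) (.e (nat_lit 336258) (nat_lit 15) (.e (nat_lit 2450) (nat_lit 157) (.e (nat_lit 7936) (nat_lit 373) .nil))))))) (.g (nat_lit 5) .nil .nil)))))))))

noncomputable def tv1968 : DT := (.nd (nat_lit 0) (.nd (nat_lit 1) (.nd (nat_lit 2) (.nd (nat_lit 3) (.nd (nat_lit 4) (.nd (nat_lit 5) 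
(.lf (nat_lit 147968) (.g (nat_lit 2868) (.e (nat_lit 57375) (nat_lit 2) (.e (nat_lit 90176) (nat_lit 15) (.e (nat_lit 188450) (nat_lit 23) (.e (nat_lit 204852) (nat_lit 26) (.e (nat_lit 336259) (nat_lit 15) (.e (nat_lit 2422) (nat_lit 157) (.e (nat_lit 6931) (nat_lit 373) .nil))))))) (.g (nat_lit 4) .nil .nil))) 
(.lf (nat_lit 148000) (.g (nat_lit 2373) (.e (nat_lit 57375) (nat_lit 2) (.e (nat_lit 90176) (nat_lit 15) (.e (nat_lit 188450) (nat_lit 23) (.e (nat_lit 204855) (nat_lit 26) (.e (nat_lit 336248) (nat_lit 15) (.e (nat_lit 2401) (nat_lit 157) (.e (nat_lit 6930) (nat_lit 373) .nil))))))) (.g (nat_lit 4) .nil .nil)))) (.nd (nat_lit 5) 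
(.lf (nat_lit 147984) (.g (nat_lit 2557) (.e (nat_lit 57375) (nat_lit 2) (.e (nat_lit 90176) (nat_lit 15) (.e (nat_lit 188450) (nat_lit 23) (.e (nat_lit 204855) (nat_lit 26) (.e (nat_lit 335901) (nat_lit 0) (.e (nat_lit 971) (nat_lit 81) (.e (nat_lit 4840) (nat_lit 283) .nil))))))) (.g (nat_lit 4) .nil .nil))) 
(.lf (nat_lit 148016) (.g (nat_lit 2469) (.e (nat_lit 57375) (nat_lit 2) (.e (nat_lit 90176) (nat_lit 15) (.e (nat_lit 188450) (nat_lit 23) (.e (nat_lit 204862) (nat_lit 27) (.e (nat_lit 344089) (nat_lit 18) (.e (nat_lit 7936) (nat_lit 283) .nil)))))) (.g (nat_lit 4) .nil .nil))))) (.nd (nat_lit 4) (.nd (nat_lit 5) 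
(.lf (nat_lit 147976) (.g (nat_lit 2920) (.e (nat_lit 57375) (nat_lit 2) (.e (nat_lit 90176) (nat_lit 15) (.e (nat_lit 188450) (nat_lit 23) (.e (nat_lit 204852) (nat_lit 26) (.e (nat_lit 336309) (nat_lit 16) (.e (nat_lit 171776) (nat_lit 172) .nil)))))) (.g (nat_lit 5) .nil .nil))) 
(.lf (nat_lit 148008) (.g (nat_lit 3137) (.e (nat_lit 57375) (nat_lit 2) (.e (nat_lit 90176) (nat_lit 15) (.e (nat_lit 188450) (nat_lit 23) (.e (nat_lit 204861) (nat_lit 26) (.e (nat_lit 335892) (nat_lit 0) (.e (nat_lit 1049) (nat_lit 81) (.e (nat_lit 4840) (nat_lit 283) .nil))))))) (.g (nat_lit 4) .nil .nil)))) (.nd (nat_lit 5) 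
(.lf (nat_lit 147992) (.g (nat_lit 1923) (.e (nat_lit 57375) (nat_lit 2) (.e (nat_lit 90176) (nat_lit 15) (.e (nat_lit 188450) (nat_lit 23) (.e (nat_lit 204855) (nat_lit 26) (.e (nat_lit 335928) (nat_lit 0) .nil))))) .nil)) 
(.lf (nat_lit 148024) (.g (nat_lit 3175) (.e (nat_lit 57375) (nat_lit 2) (.e (nat_lit 90176) (nat_lit 15) (.e (nat_lit 188450) (nat_lit 23) (.e (nat_lit 204863) (nat_lit 27) (.e (nat_lit 344087) (nat_lit 18) (.e (nat_lit 4841) (nat_lit 283) .nil)))))) (.g (nat_lit 4) .nil .nil)))))) (.nd (nat_lit 3) (.nd (nat_lit 4) (.nd (nat_lit 5) 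
(.lf (nat_lit 147972) (.g (nat_lit 2453) (.e (nat_lit 57375) (nat_lit 2) (.e (nat_lit 90176) (nat_lit 15) (.e (nat_lit 188450) (nat_lit 23) (.e (nat_lit 204852) (nat_lit 26) (.e (nat_lit 336303) (nat_lit 15) .nil))))) .nil)) 
(.lf (nat_lit 148004) (.g (nat_lit 1722) (.e (nat_lit 57375) (nat_lit 2) (.e (nat_lit 90176) (nat_lit 15) (.e (nat_lit 188450) (nat_lit 23) (.e (nat_lit 204858) (nat_lit 26) .nil)))) .nil))) (.nd (nat_lit 5) 
(.lf (nat_lit 147988) (.g (nat_lit 2676) (.e (nat_lit 57375) (nat_lit 2) (.e (nat_lit 90176) (nat_lit 15) (.e (nat_lit 188450) (nat_lit 23) (.e (nat_lit 204855) (nat_lit 26) (.e (nat_lit 335923) (nat_lit 0) (.e (nat_lit 989) (nat_lit 81) (.e (nat_lit 4841) (nat_lit 283) .nil))))))) (.g (nat_lit 4) .nil .nil))) 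
(.lf (nat_lit 148020) (.g (nat_lit 2044) (.e (nat_lit 57375) (nat_lit 2) (.e (nat_lit 90176) (nat_lit 15) (.e (nat_lit 188450) (nat_lit 23) (.e (nat_lit 204862) (nat_lit 27) (.e (nat_lit 344096) (nat_lit 18) (.e (nat_lit 7936) (nat_lit 283) .nil)))))) (.g (nat_lit 4) .nil .nil))))) (.nd (nat_lit 4) (.nd (nat_lit 5) 
(.lf (nat_lit 147980) (.g (nat_lit 2900) (.e (nat_lit 57375) (nat_lit 2) (.e (nat_lit 90176) (nat_lit 15) (.e (nat_lit 188450) (nat_lit 23) (.e (nat_lit 204852) (nat_lit 26) (.e (nat_lit 336339) (nat_lit 21) (.e (nat_lit 237312) (nat_lit 172) .nil)))))) (.g (nat_lit 4) .nil .nil))) 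
(.lf (nat_lit 148012) (.g (nat_lit 3914) (.e (nat_lit 57375) (nat_lit 2) (.e (nat_lit 90176) (nat_lit 15) (.e (nat_lit 188450) (nat_lit 23) (.e (nat_lit 204861) (nat_lit 26) (.e (nat_lit 335988) (nat_lit 1) (.e (nat_lit 65280) (nat_lit 241) .nil)))))) (.g (nat_lit 5) .nil .nil)))) (.nd (nat_lit 5) 
(.lf (nat_lit 147996) (.g (nat_lit 2297) (.e (nat_lit 57375) (nat_lit 2) (.e (nat_lit 90176) (nat_lit 15) (.e (nat_lit 188450) (nat_lit 23) (.e (nat_lit 204855) (nat_lit 26) (.e (nat_lit 335992) (nat_lit 1) (.e (nat_lit 65280) (nat_lit 241) .nil)))))) (.g (nat_lit 4) .nil .nil))) 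
(.lf (nat_lit 148028) (.g (nat_lit 3153) (.e (nat_lit 57375) (nat_lit 2) (.e (nat_lit 90176) (nat_lit 15) (.e (nat_lit 188450) (nat_lit 23) (.e (nat_lit 204863) (nat_lit 27) (.e (nat_lit 344089) (nat_lit 18) (.e (nat_lit 7936) (nat_lit 283) .nil)))))) (.g (nat_lit 5) .nil .nil))))))) (.nd (nat_lit 2) (.nd (nat_lit 3) (.nd (nat_lit 4) (.nd (nat_lit 5) 
(.lf (nat_lit 147970) (.g (nat_lit 3028) (.e (nat_lit 57375) (nat_lit 2) (.e (nat_lit 90176) (nat_lit 15) (.e (nat_lit 188450) (nat_lit 23) (.e (nat_lit 204852) (nat_lit 26) (.e (nat_lit 336261) (nat_lit 15) (.e (nat_lit 2416) (nat_lit 157) (.e (nat_lit 6931) (nat_lit 373) .nil))))))) (.g (nat_lit 5) .nil .nil))) 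
(.lf (nat_lit 148002) (.g (nat_lit 2318) (.e (nat_lit 57375) (nat_lit 2) (.e (nat_lit 90176) (nat_lit 15) (.e (nat_lit 188450) (nat_lit 23) (.e (nat_lit 204855) (nat_lit 26) (.e (nat_lit 336338) (nat_lit 21) .nil))))) .nil))) (.nd (nat_lit 5) 
(.lf (nat_lit 147986) (.g (nat_lit 2417) (.e (nat_lit 57375) (nat_lit 2) (.e (nat_lit 90176) (nat_lit 15) (.e (nat_lit 188450) (nat_lit 23) (.e (nat_lit 204855) (nat_lit 26) (.e (nat_lit 335901) (nat_lit 0) (.e (nat_lit 1050) (nat_lit 81) (.e (nat_lit 4840) (nat_lit 283) .nil))))))) (.g (nat_lit 4) .nil .nil))) 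
(.lf (nat_lit 148018) (.g (nat_lit 2147) (.e (nat_lit 57375) (nat_lit 2) (.e (nat_lit 90176) (nat_lit 15) (.e (nat_lit 188450) (nat_lit 23) (.e (nat_lit 204862) (nat_lit 27) (.e (nat_lit 344091) (nat_lit 18) (.e (nat_lit 7936) (nat_lit 283) .nil)))))) (.g (nat_lit 4) .nil .nil))))) (.nd (nat_lit 4) (.nd (nat_lit 5) 
(.lf (nat_lit 147978) (.g (nat_lit 2689) (.e (nat_lit 57375) (nat_lit 2) (.e (nat_lit 90176) (nat_lit 15) (.e (nat_lit 188450) (nat_lit 23) (.e (nat_lit 204852) (nat_lit 26) (.e (nat_lit 336312) (nat_lit 16) (.e (nat_lit 171776) (nat_lit 172) .nil)))))) (.g (nat_lit 4) .nil .nil))) 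
(.lf (nat_lit 148010) (.g (nat_lit 3246) (.e (nat_lit 57375) (nat_lit 2) (.e (nat_lit 90176) (nat_lit 15) (.e (nat_lit 188450) (nat_lit 23) (.e (nat_lit 204861) (nat_lit 26) (.e (nat_lit 335986) (nat_lit 1) (.e (nat_lit 65280) (nat_lit 241) .nil)))))) (.g (nat_lit 4) .nil .nil)))) (.nd (nat_lit 5) 
(.lf (nat_lit 147994) (.g (nat_lit 2285) (.e (nat_lit 57375) (nat_lit 2) (.e (nat_lit 90176) (nat_lit 15) (.e (nat_lit 188450) (nat_lit 23) (.e (nat_lit 204855) (nat_lit 26) (.e (nat_lit 335989) (nat_lit 1) .nil))))) .nil)) 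
(.lf (nat_lit 148026) (.g (nat_lit 2871) (.e (nat_lit 57375) (nat_lit 2) (.e (nat_lit 90176) (nat_lit 15) (.e (nat_lit 188450) (nat_lit 23) (.e (nat_lit 204863) (nat_lit 27) (.e (nat_lit 344089) (nat_lit 18) (.e (nat_lit 4841) (nat_lit 283) .nil)))))) (.g (nat_lit 4) .nil .nil)))))) (.nd (nat_lit 3) (.nd (nat_lit 4) (.nd (nat_lit 5) 
(.lf (nat_lit 147974) (.g (nat_lit 2476) (.e (nat_lit 57375) (nat_lit 2) (.e (nat_lit 90176) (nat_lit 15) (.e (nat_lit 188450) (nat_lit 23) (.e (nat_lit 204852) (nat_lit 26) (.e (nat_lit 343808) (nat_lit 15) (.e (nat_lit 2411) (nat_lit 157) (.e (nat_lit 6930) (nat_lit 373) .nil))))))) (.g (nat_lit 4) .nil .nil))) 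
(.lf (nat_lit 148006) (.g (nat_lit 3492) (.e (nat_lit 57375) (nat_lit 2) (.e (nat_lit 90176) (nat_lit 15) (.e (nat_lit 188450) (nat_lit 23) (.e (nat_lit 204861) (nat_lit 26) (.e (nat_lit 335892) (nat_lit 0) (.e (nat_lit 969) (nat_lit 81) (.e (nat_lit 4840) (nat_lit 283) .nil))))))) (.g (nat_lit 5) .nil .nil)))) (.nd (nat_lit 5) 
(.lf (nat_lit 147990) (.g (nat_lit 2199) (.e (nat_lit 57375) (nat_lit 2) (.e (nat_lit 90176) (nat_lit 15) (.e (nat_lit 188450) (nat_lit 23) (.e (nat_lit 204855) (nat_lit 26) (.e (nat_lit 335925) (nat_lit 0) .nil))))) .nil)) 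
(.lf (nat_lit 148022) (.g (nat_lit 1197) (.e (nat_lit 57375) (nat_lit 2) (.e (nat_lit 90176) (nat_lit 15) (.e (nat_lit 188450) (nat_lit 23) (.e (nat_lit 204863) (nat_lit 27) .nil)))) .nil)))) (.nd (nat_lit 4) (.nd (nat_lit 5) 
(.lf (nat_lit 147982) (.g (nat_lit 3484) (.e (nat_lit 57375) (nat_lit 2) (.e (nat_lit 90176) (nat_lit 15) (.e (nat_lit 188450) (nat_lit 23) (.e (nat_lit 204852) (nat_lit 26) (.e (nat_lit 336342) (nat_lit 21) (.e (nat_lit 237312) (nat_lit 172) .nil)))))) (.g (nat_lit 5) .nil .nil))) 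
(.lf (nat_lit 148014) (.g (nat_lit 2312) (.e (nat_lit 57375) (nat_lit 2) (.e (nat_lit 90176) (nat_lit 15) (.e (nat_lit 188450) (nat_lit 23) (.e (nat_lit 204862) (nat_lit 27) (.e (nat_lit 344088) (nat_lit 18) (.e (nat_lit 7936) (nat_lit 283) .nil)))))) (.g (nat_lit 4) .nil .nil)))) (.nd (nat_lit 5) 
(.lf (nat_lit 147998) (.g (nat_lit 2216) (.e (nat_lit 57375) (nat_lit 2) (.e (nat_lit 90176) (nat_lit 15) (.e (nat_lit 188450) (nat_lit 23) (.e (nat_lit 204855) (nat_lit 26) (.e (nat_lit 336034) (nat_lit 4) .nil))))) .nil)) 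
(.lf (nat_lit 148030) (.g (nat_lit 3059) (.e (nat_lit 57375) (nat_lit 2) (.e (nat_lit 90176) (nat_lit 15) (.e (nat_lit 188450) (nat_lit 23) (.e (nat_lit 204863) (nat_lit 27) (.e (nat_lit 344091) (nat_lit 18) (.e (nat_lit 7936) (nat_lit 283) .nil)))))) (.g (nat_lit 5) .nil .nil)))))))) (.nd (nat_lit 1) (.nd (nat_lit 2) (.nd (nat_lit 3) (.nd (nat_lit 4) (.nd (nat_lit 5) 
(.lf (nat_lit 147969) (.g (nat_lit 2762) (.e (nat_lit 57375) (nat_lit 2) (.e (nat_lit 90176) (nat_lit 15) (.e (nat_lit 188450) (nat_lit 23) (.e (nat_lit 204852) (nat_lit 26) (.e (nat_lit 336259) (nat_lit 15) (.e (nat_lit 2424) (nat_lit 157) (.e (nat_lit 6931) (nat_lit 373) .nil))))))) (.g (nat_lit 4) .nil .nil))) 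
(.lf (nat_lit 148001) (.g (nat_lit 2338) (.e (nat_lit 57375) (nat_lit 2) (.e (nat_lit 90176) (nat_lit 15) (.e (nat_lit 188450) (nat_lit 23) (.e (nat_lit 204855) (nat_lit 26) (.e (nat_lit 336248) (nat_lit 15) (.e (nat_lit 2412) (nat_lit 157) (.e (nat_lit 6930) (nat_lit 373) .nil))))))) (.g (nat_lit 4) .nil .nil)))) (.nd (nat_lit 5) 
(.lf (nat_lit 147985) (.g (nat_lit 2565) (.e (nat_lit 57375) (nat_lit 2) (.e (nat_lit 90176) (nat_lit 15) (.e (nat_lit 188450) (nat_lit 23) (.e (nat_lit 204855) (nat_lit 26) (.e (nat_lit 335901) (nat_lit 0) (.e (nat_lit 1049) (nat_lit 81) (.e (nat_lit 4840) (nat_lit 283) .nil))))))) (.g (nat_lit 4) .nil .nil))) 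
(.lf (nat_lit 148017) (.g (nat_lit 2699) (.e (nat_lit 57375) (nat_lit 2) (.e (nat_lit 90176) (nat_lit 15) (.e (nat_lit 188450) (nat_lit 23) (.e (nat_lit 204862) (nat_lit 27) (.e (nat_lit 344090) (nat_lit 18) (.e (nat_lit 7936) (nat_lit 283) .nil)))))) (.g (nat_lit 5) .nil .nil))))) (.nd (nat_lit 4) (.nd (nat_lit 5) 
(.lf (nat_lit 147977) (.g (nat_lit 2975) (.e (nat_lit 57375) (nat_lit 2) (.e (nat_lit 90176) (nat_lit 15) (.e (nat_lit 188450) (nat_lit 23) (.e (nat_lit 204852) (nat_lit 26) (.e (nat_lit 336310) (nat_lit 16) (.e (nat_lit 171776) (nat_lit 172) .nil)))))) (.g (nat_lit 5) .nil .nil))) 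
(.lf (nat_lit 148009) (.g (nat_lit 3243) (.e (nat_lit 57375) (nat_lit 2) (.e (nat_lit 90176) (nat_lit 15) (.e (nat_lit 188450) (nat_lit 23) (.e (nat_lit 204861) (nat_lit 26) (.e (nat_lit 335892) (nat_lit 0) (.e (nat_lit 1050) (nat_lit 81) (.e (nat_lit 4840) (nat_lit 283) .nil))))))) (.g (nat_lit 4) .nil .nil)))) (.nd (nat_lit 5) 
(.lf (nat_lit 147993) (.g (nat_lit 2285) (.e (nat_lit 57375) (nat_lit 2) (.e (nat_lit 90176) (nat_lit 15) (.e (nat_lit 188450) (nat_lit 23) (.e (nat_lit 204855) (nat_lit 26) (.e (nat_lit 335928) (nat_lit 0) (.e (nat_lit 990) (nat_lit 81) (.e (nat_lit 4841) (nat_lit 283) .nil))))))) (.g (nat_lit 4) .nil .nil))) 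
(.lf (nat_lit 148025) (.g (nat_lit 2920) (.e (nat_lit 57375) (nat_lit 2) (.e (nat_lit 90176) (nat_lit 15) (.e (nat_lit 188450) (nat_lit 23) (.e (nat_lit 204863) (nat_lit 27) (.e (nat_lit 344088) (nat_lit 18) (.e (nat_lit 7936) (nat_lit 283) .nil)))))) (.g (nat_lit 5) .nil .nil)))))) (.nd (nat_lit 3) (.nd (nat_lit 4) (.nd (nat_lit 5) 
(.lf (nat_lit 147973) (.g (nat_lit 2352) (.e (nat_lit 57375) (nat_lit 2) (.e (nat_lit 90176) (nat_lit 15) (.e (nat_lit 188450) (nat_lit 23) (.e (nat_lit 204852) (nat_lit 26) (.e (nat_lit 343808) (nat_lit 15) (.e (nat_lit 2401) (nat_lit 157) (.e (nat_lit 6930) (nat_lit 373) .nil))))))) (.g (nat_lit 4) .nil .nil))) 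
(.lf (nat_lit 148005) (.g (nat_lit 2732) (.e (nat_lit 57375) (nat_lit 2) (.e (nat_lit 90176) (nat_lit 15) (.e (nat_lit 188450) (nat_lit 23) (.e (nat_lit 204859) (nat_lit 26) (.e (nat_lit 335998) (nat_lit 1) (.e (nat_lit 65280) (nat_lit 241) .nil)))))) (.g (nat_lit 4) .nil .nil)))) (.nd (nat_lit 5) 
(.lf (nat_lit 147989) (.g (nat_lit 2447) (.e (nat_lit 57375) (nat_lit 2) (.e (nat_lit 90176) (nat_lit 15) (.e (nat_lit 188450) (nat_lit 23) (.e (nat_lit 204855) (nat_lit 26) (.e (nat_lit 335923) (nat_lit 0) (.e (nat_lit 989) (nat_lit 81) (.e (nat_lit 4842) (nat_lit 283) .nil))))))) (.g (nat_lit 4) .nil .nil))) 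
(.lf (nat_lit 148021) (.g (nat_lit 2449) (.e (nat_lit 57375) (nat_lit 2) (.e (nat_lit 90176) (nat_lit 15) (.e (nat_lit 188450) (nat_lit 23) (.e (nat_lit 204862) (nat_lit 27) (.e (nat_lit 344097) (nat_lit 18) (.e (nat_lit 7936) (nat_lit 283) .nil)))))) (.g (nat_lit 4) .nil .nil))))) (.nd (nat_lit 4) (.nd (nat_lit 5) 
(.lf (nat_lit 147981) (.g (nat_lit 2890) (.e (nat_lit 57375) (nat_lit 2) (.e (nat_lit 90176) (nat_lit 15) (.e (nat_lit 188450) (nat_lit 23) (.e (nat_lit 204852) (nat_lit 26) (.e (nat_lit 336340) (nat_lit 21) (.e (nat_lit 237312) (nat_lit 172) .nil)))))) (.g (nat_lit 5) .nil .nil))) 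
(.lf (nat_lit 148013) (.g (nat_lit 2883) (.e (nat_lit 57375) (nat_lit 2) (.e (nat_lit 90176) (nat_lit 15) (.e (nat_lit 188450) (nat_lit 23) (.e (nat_lit 204862) (nat_lit 27) (.e (nat_lit 344088) (nat_lit 18) (.e (nat_lit 4842) (nat_lit 283) .nil)))))) (.g (nat_lit 5) .nil .nil)))) (.nd (nat_lit 5) 
(.lf (nat_lit 147997) (.g (nat_lit 2738) (.e (nat_lit 57375) (nat_lit 2) (.e (nat_lit 90176) (nat_lit 15) (.e (nat_lit 188450) (nat_lit 23) (.e (nat_lit 204855) (nat_lit 26) (.e (nat_lit 336030) (nat_lit 4) (.e (nat_lit 130816) (nat_lit 241) .nil)))))) (.g (nat_lit 5) .nil .nil))) 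
(.lf (nat_lit 148029) (.g (nat_lit 3085) (.e (nat_lit 57375) (nat_lit 2) (.e (nat_lit 90176) (nat_lit 15) (.e (nat_lit 188450) (nat_lit 23) (.e (nat_lit 204863) (nat_lit 27) (.e (nat_lit 344090) (nat_lit 18) (.e (nat_lit 7936) (nat_lit 283) .nil)))))) (.g (nat_lit 5) .nil .nil))))))) (.nd (nat_lit 2) (.nd (nat_lit 3) (.nd (nat_lit 4) (.nd (nat_lit 5) 
(.lf (nat_lit 147971) (.g (nat_lit 2684) (.e (nat_lit 57375) (nat_lit 2) (.e (nat_lit 90176) (nat_lit 15) (.e (nat_lit 188450) (nat_lit 23) (.e (nat_lit 204852) (nat_lit 26) (.e (nat_lit 336261) (nat_lit 15) (.e (nat_lit 2515) (nat_lit 157) (.e (nat_lit 7936) (nat_lit 373) .nil))))))) (.g (nat_lit 4) .nil .nil))) 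
(.lf (nat_lit 148003) (.g (nat_lit 1686) (.e (nat_lit 57375) (nat_lit 2) (.e (nat_lit 90176) (nat_lit 15) (.e (nat_lit 188450) (nat_lit 23) (.e (nat_lit 204856) (nat_lit 26) .nil)))) .nil))) (.nd (nat_lit 5) 
(.lf (nat_lit 147987) (.g (nat_lit 2319) (.e (nat_lit 57375) (nat_lit 2) (.e (nat_lit 90176) (nat_lit 15) (.e (nat_lit 188450) (nat_lit 23) (.e (nat_lit 204855) (nat_lit 26) (.e (nat_lit 335923) (nat_lit 0) .nil))))) .nil)) 
(.lf (nat_lit 148019) (.g (nat_lit 2382) (.e (nat_lit 57375) (nat_lit 2) (.e (nat_lit 90176) (nat_lit 15) (.e (nat_lit 188450) (nat_lit 23) (.e (nat_lit 204862) (nat_lit 27) (.e (nat_lit 344095) (nat_lit 18) (.e (nat_lit 7936) (nat_lit 283) .nil)))))) (.g (nat_lit 4) .nil .nil))))) (.nd (nat_lit 4) (.nd (nat_lit 5) 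
(.lf (nat_lit 147979) (.g (nat_lit 2447) (.e (nat_lit 57375) (nat_lit 2) (.e (nat_lit 90176) (nat_lit 15) (.e (nat_lit 188450) (nat_lit 23) (.e (nat_lit 204852) (nat_lit 26) (.e (nat_lit 336314) (nat_lit 16) (.e (nat_lit 171776) (nat_lit 172) .nil)))))) (.g (nat_lit 4) .nil .nil))) 
(.lf (nat_lit 148011) (.g (nat_lit 3243) (.e (nat_lit 57375) (nat_lit 2) (.e (nat_lit 90176) (nat_lit 15) (.e (nat_lit 188450) (nat_lit 23) (.e (nat_lit 204861) (nat_lit 26) (.e (nat_lit 335987) (nat_lit 1) (.e (nat_lit 65280) (nat_lit 241) .nil)))))) (.g (nat_lit 5) .nil .nil)))) (.nd (nat_lit 5) 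
(.lf (nat_lit 147995) (.g (nat_lit 2271) (.e (nat_lit 57375) (nat_lit 2) (.e (nat_lit 90176) (nat_lit 15) (.e (nat_lit 188450) (nat_lit 23) (.e (nat_lit 204855) (nat_lit 26) (.e (nat_lit 335991) (nat_lit 1) .nil))))) .nil)) 
(.lf (nat_lit 148027) (.g (nat_lit 2861) (.e (nat_lit 57375) (nat_lit 2) (.e (nat_lit 90176) (nat_lit 15) (.e (nat_lit 188450) (nat_lit 23) (.e (nat_lit 204863) (nat_lit 27) (.e (nat_lit 344089) (nat_lit 18) (.e (nat_lit 4842) (nat_lit 283) .nil)))))) (.g (nat_lit 4) .nil .nil)))))) (.nd (nat_lit 3) (.nd (nat_lit 4) (.nd (nat_lit 5) 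
(.lf (nat_lit 147975) (.g (nat_lit 2032) (.e (nat_lit 57375) (nat_lit 2) (.e (nat_lit 90176) (nat_lit 15) (.e (nat_lit 188450) (nat_lit 23) (.e (nat_lit 204852) (nat_lit 26) (.e (nat_lit 343808) (nat_lit 15) (.e (nat_lit 2412) (nat_lit 157) (.e (nat_lit 6930) (nat_lit 373) .nil))))))) (.g (nat_lit 4) .nil .nil))) 
(.lf (nat_lit 148007) (.g (nat_lit 3346) (.e (nat_lit 57375) (nat_lit 2) (.e (nat_lit 90176) (nat_lit 15) (.e (nat_lit 188450) (nat_lit 23) (.e (nat_lit 204861) (nat_lit 26) (.e (nat_lit 335892) (nat_lit 0) (.e (nat_lit 971) (nat_lit 81) (.e (nat_lit 4840) (nat_lit 283) .nil))))))) (.g (nat_lit 4) .nil .nil)))) (.nd (nat_lit 5) 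
(.lf (nat_lit 147991) (.g (nat_lit 2388) (.e (nat_lit 57375) (nat_lit 2) (.e (nat_lit 90176) (nat_lit 15) (.e (nat_lit 188450) (nat_lit 23) (.e (nat_lit 204855) (nat_lit 26) (.e (nat_lit 335925) (nat_lit 0) (.e (nat_lit 989) (nat_lit 81) (.e (nat_lit 4841) (nat_lit 283) .nil))))))) (.g (nat_lit 4) .nil .nil))) 
(.lf (nat_lit 148023) (.g (nat_lit 2533) (.e (nat_lit 57375) (nat_lit 2) (.e (nat_lit 90176) (nat_lit 15) (.e (nat_lit 188450) (nat_lit 23) (.e (nat_lit 204863) (nat_lit 27) (.e (nat_lit 344087) (nat_lit 18) .nil))))) .nil)))) (.nd (nat_lit 4) (.nd (nat_lit 5) 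
(.lf (nat_lit 147983) (.g (nat_lit 2715) (.e (nat_lit 57375) (nat_lit 2) (.e (nat_lit 90176) (nat_lit 15) (.e (nat_lit 188450) (nat_lit 23) (.e (nat_lit 204855) (nat_lit 26) (.e (nat_lit 335901) (nat_lit 0) (.e (nat_lit 969) (nat_lit 81) (.e (nat_lit 4840) (nat_lit 283) .nil))))))) (.g (nat_lit 4) .nil .nil))) 
(.lf (nat_lit 148015) (.g (nat_lit 2248) (.e (nat_lit 57375) (nat_lit 2) (.e (nat_lit 90176) (nat_lit 15) (.e (nat_lit 188450) (nat_lit 23) (.e (nat_lit 204862) (nat_lit 27) (.e (nat_lit 344089) (nat_lit 18) (.e (nat_lit 4842) (nat_lit 283) .nil)))))) (.g (nat_lit 4) .nil .nil)))) (.nd (nat_lit 5) 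
(.lf (nat_lit 147999) (.g (nat_lit 2332) (.e (nat_lit 57375) (nat_lit 2) (.e (nat_lit 90176) (nat_lit 15) (.e (nat_lit 188450) (nat_lit 23) (.e (nat_lit 204855) (nat_lit 26) (.e (nat_lit 336248) (nat_lit 15) .nil))))) .nil)) 
(.lf (nat_lit 148031) (.g (nat_lit 2977) (.e (nat_lit 57375) (nat_lit 2) (.e (nat_lit 90176) (nat_lit 15) (.e (nat_lit 188450) (nat_lit 23) (.e (nat_lit 204863) (nat_lit 27) (.e (nat_lit 344092) (nat_lit 18) (.e (nat_lit 7936) (nat_lit 283) .nil)))))) (.g (nat_lit 4) .nil .nil)))))))))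

noncomputable def tv1969 : DT := (.nd (nat_lit 0) (.nd (nat_lit 1) (.nd (nat_lit 2) (.nd (nat_lit 3) (.nd (nat_lit 4) (.nd (nat_lit 5) 
(.lf (nat_lit 148032) (.g (nat_lit 2632) (.e (nat_lit 57375) (nat_lit 2) (.e (nat_lit 90176) (nat_lit 15) (.e (nat_lit 188450) (nat_lit 23) (.e (nat_lit 204863) (nat_lit 27) (.e (nat_lit 344093) (nat_lit 18) .nil))))) .nil)) 
(.lf (nat_lit 148064) (.g (nat_lit 1674) (.e (nat_lit 57375) (nat_lit 2) (.e (nat_lit 90176) (nat_lit 15) (.e (nat_lit 188459) (nat_lit 26) (.e (nat_lit 261888) (nat_lit 5) (.e (nat_lit 180233) (nat_lit 0) (.e (nat_lit 5934) (nat_lit 322) .nil)))))) (.g (nat_lit 5) .nil .nil)))) (.nd (nat_lit 5) 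
(.lf (nat_lit 148048) (.g (nat_lit 1065) (.e (nat_lit 57375) (nat_lit 2) (.e (nat_lit 90176) (nat_lit 15) (.e (nat_lit 188450) (nat_lit 23) (.e (nat_lit 204884) (nat_lit 33) .nil)))) .nil)) 
(.lf (nat_lit 148080) (.g (nat_lit 2438) (.e (nat_lit 57375) (nat_lit 2) (.e (nat_lit 90185) (nat_lit 17) (.e (nat_lit 237587) (nat_lit 2) (.e (nat_lit 196654) (nat_lit 11) (.e (nat_lit 16412) (nat_lit 2) (.e (nat_lit 196661) (nat_lit 12) (.e (nat_lit 57351) (nat_lit 0) (.e (nat_lit 7695) (nat_lit 412) .nil)))))))) (.g (nat_lit 4) .nil .nil))))) (.nd (nat_lit 4) (.nd (nat_lit 5) 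
(.lf (nat_lit 148040) (.g (nat_lit 1972) (.e (nat_lit 57375) (nat_lit 2) (.e (nat_lit 90176) (nat_lit 15) (.e (nat_lit 188450) (nat_lit 23) (.e (nat_lit 204873) (nat_lit 30) (.e (nat_lit 368662) (nat_lit 18) (.e (nat_lit 7936) (nat_lit 283) .nil)))))) (.g (nat_lit 4) .nil .nil))) 
(.lf (nat_lit 148072) (.g (nat_lit 429) (.e (nat_lit 57375) (nat_lit 2) (.e (nat_lit 90178) (nat_lit 15) (.e (nat_lit 196352) (nat_lit 18) .nil))) .nil))) (.nd (nat_lit 5) 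
(.lf (nat_lit 148056) (.g (nat_lit 548) (.e (nat_lit 57375) (nat_lit 2) (.e (nat_lit 90176) (nat_lit 15) (.e (nat_lit 188452) (nat_lit 23) .nil))) .nil)) 
(.lf (nat_lit 148088) (.g (nat_lit 2691) (.e (nat_lit 57375) (nat_lit 2) (.e (nat_lit 90185) (nat_lit 17) (.e (nat_lit 237590) (nat_lit 2) (.e (nat_lit 196654) (nat_lit 11) (.e (nat_lit 16412) (nat_lit 2) (.e (nat_lit 196658) (nat_lit 12) (.e (nat_lit 57348) (nat_lit 0) (.e (nat_lit 7695) (nat_lit 412) .nil)))))))) (.g (nat_lit 5) .nil .nil)))))) (.nd (nat_lit 3) (.nd (nat_lit 4) (.nd (nat_lit 5) 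
(.lf (nat_lit 148036) (.g (nat_lit 2723) (.e (nat_lit 57375) (nat_lit 2) (.e (nat_lit 90176) (nat_lit 15) (.e (nat_lit 188450) (nat_lit 23) (.e (nat_lit 204863) (nat_lit 27) (.e (nat_lit 344101) (nat_lit 18) (.e (nat_lit 7936) (nat_lit 283) .nil)))))) (.g (nat_lit 4) .nil .nil))) 
(.lf (nat_lit 148068) (.g (nat_lit 1803) (.e (nat_lit 57375) (nat_lit 2) (.e (nat_lit 90178) (nat_lit 15) (.e (nat_lit 188421) (nat_lit 11) (.e (nat_lit 336387) (nat_lit 27) (.e (nat_lit 426099) (nat_lit 1) (.e (nat_lit 164399) (nat_lit 256) .nil)))))) (.g (nat_lit 4) .nil .nil)))) (.nd (nat_lit 5) 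
(.lf (nat_lit 148052) (.g (nat_lit 2160) (.e (nat_lit 57375) (nat_lit 2) (.e (nat_lit 90176) (nat_lit 15) (.e (nat_lit 188450) (nat_lit 23) (.e (nat_lit 204885) (nat_lit 33) (.e (nat_lit 401461) (nat_lit 15) (.e (nat_lit 1006) (nat_lit 81) (.e (nat_lit 6930) (nat_lit 373) .nil))))))) (.g (nat_lit 4) .nil .nil))) 
(.lf (nat_lit 148084) (.g (nat_lit 2769) (.e (nat_lit 57375) (nat_lit 2) (.e (nat_lit 90185) (nat_lit 17) (.e (nat_lit 237587) (nat_lit 2) (.e (nat_lit 196654) (nat_lit 11) (.e (nat_lit 16416) (nat_lit 3) (.e (nat_lit 204819) (nat_lit 17) (.e (nat_lit 968) (nat_lit 81) (.e (nat_lit 7696) (nat_lit 412) .nil)))))))) (.g (nat_lit 4) .nil .nil))))) (.nd (nat_lit 4) (.nd (nat_lit 5) 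
(.lf (nat_lit 148044) (.g (nat_lit 3794) (.e (nat_lit 57375) (nat_lit 2) (.e (nat_lit 90176) (nat_lit 15) (.e (nat_lit 188450) (nat_lit 23) (.e (nat_lit 204880) (nat_lit 32) (.e (nat_lit 385047) (nat_lit 21) (.e (nat_lit 7936) (nat_lit 373) .nil)))))) (.g (nat_lit 4) .nil .nil))) 
(.lf (nat_lit 148076) (.g (nat_lit 2931) (.e (nat_lit 57375) (nat_lit 2) (.e (nat_lit 90185) (nat_lit 17) (.e (nat_lit 237585) (nat_lit 1) (.e (nat_lit 164403) (nat_lit 256) (.e (nat_lit 57447) (nat_lit 19) (.e (nat_lit 393238) (nat_lit 17) (.e (nat_lit 2397) (nat_lit 157) (.e (nat_lit 4733) (nat_lit 277) .nil)))))))) (.g (nat_lit 5) .nil .nil)))) (.nd (nat_lit 5) 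
(.lf (nat_lit 148060) (.g (nat_lit 3534) (.e (nat_lit 57375) (nat_lit 2) (.e (nat_lit 90176) (nat_lit 15) (.e (nat_lit 188452) (nat_lit 23) (.e (nat_lit 204885) (nat_lit 33) (.e (nat_lit 401414) (nat_lit 0) .nil))))) .nil)) 
(.lf (nat_lit 148092) (.g (nat_lit 2831) (.e (nat_lit 57375) (nat_lit 2) (.e (nat_lit 90185) (nat_lit 17) (.e (nat_lit 237590) (nat_lit 2) (.e (nat_lit 196654) (nat_lit 11) (.e (nat_lit 16412) (nat_lit 2) (.e (nat_lit 196677) (nat_lit 16) (.e (nat_lit 122881) (nat_lit 0) (.e (nat_lit 7695) (nat_lit 412) .nil)))))))) (.g (nat_lit 5) .nil .nil))))))) 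
(.nd (nat_lit 2) (.nd (nat_lit 3) (.nd (nat_lit 4) (.nd (nat_lit 5) 
(.lf (nat_lit 148034) (.g (nat_lit 3171) (.e (nat_lit 57375) (nat_lit 2) (.e (nat_lit 90176) (nat_lit 15) (.e (nat_lit 188450) (nat_lit 23) (.e (nat_lit 204863) (nat_lit 27) (.e (nat_lit 344095) (nat_lit 18) (.e (nat_lit 7936) (nat_lit 283) .nil)))))) (.g (nat_lit 5) .nil .nil))) 
(.lf (nat_lit 148066) (.g (nat_lit 387) (.e (nat_lit 57375) (nat_lit 2) (.e (nat_lit 90178) (nat_lit 15) (.e (nat_lit 188421) (nat_lit 11) .nil))) .nil))) (.nd (nat_lit 5) 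
(.lf (nat_lit 148050) (.g (nat_lit 2202) (.e (nat_lit 57375) (nat_lit 2) (.e (nat_lit 90176) (nat_lit 15) (.e (nat_lit 188450) (nat_lit 23) (.e (nat_lit 204885) (nat_lit 33) (.e (nat_lit 401429) (nat_lit 4) (.e (nat_lit 237312) (nat_lit 262) .nil)))))) (.g (nat_lit 4) .nil .nil))) 
(.lf (nat_lit 148082) (.g (nat_lit 3057) (.e (nat_lit 57375) (nat_lit 2) (.e (nat_lit 90185) (nat_lit 17) (.e (nat_lit 237587) (nat_lit 2) (.e (nat_lit 196654) (nat_lit 11) (.e (nat_lit 16412) (nat_lit 2) (.e (nat_lit 196677) (nat_lit 16) (.e (nat_lit 122880) (nat_lit 0) (.e (nat_lit 7695) (nat_lit 412) .nil)))))))) (.g (nat_lit 5) .nil .nil))))) (.nd (nat_lit 4) (.nd (nat_lit 5) 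
(.lf (nat_lit 148042) (.g (nat_lit 3596) (.e (nat_lit 57375) (nat_lit 2) (.e (nat_lit 90176) (nat_lit 15) (.e (nat_lit 188450) (nat_lit 23) (.e (nat_lit 204880) (nat_lit 32) (.e (nat_lit 385044) (nat_lit 21) .nil))))) .nil)) 
(.lf (nat_lit 148074) (.g (nat_lit 1202) (.e (nat_lit 57375) (nat_lit 2) (.e (nat_lit 90178) (nat_lit 15) (.e (nat_lit 188461) (nat_lit 26) (.e (nat_lit 261888) (nat_lit 4) .nil)))) .nil))) (.nd (nat_lit 5) 
(.lf (nat_lit 148058) (.g (nat_lit 1701) (.e (nat_lit 57375) (nat_lit 2) (.e (nat_lit 90176) (nat_lit 15) (.e (nat_lit 188452) (nat_lit 23) (.e (nat_lit 204863) (nat_lit 27) .nil)))) .nil)) 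
(.lf (nat_lit 148090) (.g (nat_lit 2958) (.e (nat_lit 57375) (nat_lit 2) (.e (nat_lit 90185) (nat_lit 17) (.e (nat_lit 237590) (nat_lit 2) (.e (nat_lit 196654) (nat_lit 11) (.e (nat_lit 16412) (nat_lit 2) (.e (nat_lit 196661) (nat_lit 12) (.e (nat_lit 57353) (nat_lit 0) (.e (nat_lit 7695) (nat_lit 412) .nil)))))))) (.g (nat_lit 5) .nil .nil)))))) (.nd (nat_lit 3) (.nd (nat_lit 4) (.nd (nat_lit 5) 
(.lf (nat_lit 148038) (.g (nat_lit 2937) (.e (nat_lit 57375) (nat_lit 2) (.e (nat_lit 90176) (nat_lit 15) (.e (nat_lit 188450) (nat_lit 23) (.e (nat_lit 204864) (nat_lit 27) (.e (nat_lit 344095) (nat_lit 18) (.e (nat_lit 7936) (nat_lit 283) .nil)))))) (.g (nat_lit 5) .nil .nil))) 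
(.lf (nat_lit 148070) (.g (nat_lit 2416) (.e (nat_lit 57375) (nat_lit 2) (.e (nat_lit 90178) (nat_lit 15) (.e (nat_lit 188421) (nat_lit 11) (.e (nat_lit 336387) (nat_lit 27) (.e (nat_lit 426108) (nat_lit 1) (.e (nat_lit 164396) (nat_lit 256) .nil)))))) (.g (nat_lit 5) .nil .nil)))) (.nd (nat_lit 5) 
(.lf (nat_lit 148054) (.g (nat_lit 2311) (.e (nat_lit 57375) (nat_lit 2) (.e (nat_lit 90176) (nat_lit 15) (.e (nat_lit 188450) (nat_lit 23) (.e (nat_lit 204885) (nat_lit 33) (.e (nat_lit 401463) (nat_lit 15) (.e (nat_lit 992) (nat_lit 81) (.e (nat_lit 6930) (nat_lit 373) .nil))))))) (.g (nat_lit 4) .nil .nil))) 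
(.lf (nat_lit 148086) (.g (nat_lit 1803) (.e (nat_lit 57375) (nat_lit 2) (.e (nat_lit 90185) (nat_lit 17) (.e (nat_lit 237587) (nat_lit 2) (.e (nat_lit 196654) (nat_lit 11) (.e (nat_lit 16417) (nat_lit 3) (.e (nat_lit 204831) (nat_lit 18) (.e (nat_lit 65280) (nat_lit 166) .nil))))))) (.g (nat_lit 4) .nil .nil))))) (.nd (nat_lit 4) (.nd (nat_lit 5) 
(.lf (nat_lit 148046) (.g (nat_lit 3532) (.e (nat_lit 57375) (nat_lit 2) (.e (nat_lit 90176) (nat_lit 15) (.e (nat_lit 188450) (nat_lit 23) (.e (nat_lit 204880) (nat_lit 32) (.e (nat_lit 385051) (nat_lit 21) .nil))))) .nil)) 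
(.lf (nat_lit 148078) (.g (nat_lit 2922) (.e (nat_lit 57375) (nat_lit 2) (.e (nat_lit 90185) (nat_lit 17) (.e (nat_lit 237587) (nat_lit 2) (.e (nat_lit 196654) (nat_lit 11) (.e (nat_lit 16412) (nat_lit 2) (.e (nat_lit 196658) (nat_lit 12) (.e (nat_lit 57348) (nat_lit 0) (.e (nat_lit 7695) (nat_lit 412) .nil)))))))) (.g (nat_lit 5) .nil .nil)))) (.nd (nat_lit 5) 
(.lf (nat_lit 148062) (.g (nat_lit 865) (.e (nat_lit 57375) (nat_lit 2) (.e (nat_lit 90176) (nat_lit 15) (.e (nat_lit 188459) (nat_lit 26) (.e (nat_lit 261888) (nat_lit 5) .nil)))) .nil)) 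
(.lf (nat_lit 148094) (.g (nat_lit 1824) (.e (nat_lit 57375) (nat_lit 2) (.e (nat_lit 90185) (nat_lit 17) (.e (nat_lit 237592) (nat_lit 3) (.e (nat_lit 204809) (nat_lit 9) (.e (nat_lit 426123) (nat_lit 2) (.e (nat_lit 196661) (nat_lit 12) (.e (nat_lit 57353) (nat_lit 0) (.e (nat_lit 7695) (nat_lit 412) .nil)))))))) (.g (nat_lit 4) .nil .nil)))))))) 
(.nd (nat_lit 1) (.nd (nat_lit 2) (.nd (nat_lit 3) (.nd (nat_lit 4) (.nd (nat_lit 5) 
(.lf (nat_lit 148033) (.g (nat_lit 3260) (.e (nat_lit 57375) (nat_lit 2) (.e (nat_lit 90176) (nat_lit 15) (.e (nat_lit 188450) (nat_lit 23) (.e (nat_lit 204863) (nat_lit 27) (.e (nat_lit 344094) (nat_lit 18) (.e (nat_lit 7936) (nat_lit 283) .nil)))))) (.g (nat_lit 5) .nil .nil))) 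
(.lf (nat_lit 148065) (.g (nat_lit 937) (.e (nat_lit 57375) (nat_lit 2) (.e (nat_lit 90176) (nat_lit 15) (.e (nat_lit 188461) (nat_lit 26) (.e (nat_lit 261888) (nat_lit 5) .nil)))) .nil))) (.nd (nat_lit 5) 
(.lf (nat_lit 148049) (.g (nat_lit 3014) (.e (nat_lit 57375) (nat_lit 2) (.e (nat_lit 90176) (nat_lit 15) (.e (nat_lit 188450) (nat_lit 23) (.e (nat_lit 204885) (nat_lit 33) (.e (nat_lit 401414) (nat_lit 0) (.e (nat_lit 2424) (nat_lit 157) (.e (nat_lit 4412) (nat_lit 259) .nil))))))) (.g (nat_lit 5) .nil .nil))) 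
(.lf (nat_lit 148081) (.g (nat_lit 3189) (.e (nat_lit 57375) (nat_lit 2) (.e (nat_lit 90185) (nat_lit 17) (.e (nat_lit 237587) (nat_lit 2) (.e (nat_lit 196654) (nat_lit 11) (.e (nat_lit 16412) (nat_lit 2) (.e (nat_lit 196661) (nat_lit 12) (.e (nat_lit 57353) (nat_lit 0) (.e (nat_lit 7695) (nat_lit 412) .nil)))))))) (.g (nat_lit 5) .nil .nil))))) (.nd (nat_lit 4) (.nd (nat_lit 5) 
(.lf (nat_lit 148041) (.g (nat_lit 1434) (.e (nat_lit 57375) (nat_lit 2) (.e (nat_lit 90176) (nat_lit 15) (.e (nat_lit 188450) (nat_lit 23) (.e (nat_lit 204874) (nat_lit 30) .nil)))) .nil)) 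
(.lf (nat_lit 148073) (.g (nat_lit 532) (.e (nat_lit 57375) (nat_lit 2) (.e (nat_lit 90178) (nat_lit 15) (.e (nat_lit 188459) (nat_lit 26) .nil))) .nil))) (.nd (nat_lit 5) 
(.lf (nat_lit 148057) (.g (nat_lit 2750) (.e (nat_lit 57375) (nat_lit 2) (.e (nat_lit 90176) (nat_lit 15) (.e (nat_lit 188452) (nat_lit 23) (.e (nat_lit 204816) (nat_lit 17) .nil)))) .nil)) 
(.lf (nat_lit 148089) (.g (nat_lit 2423) (.e (nat_lit 57375) (nat_lit 2) (.e (nat_lit 90185) (nat_lit 17) (.e (nat_lit 237590) (nat_lit 2) (.e (nat_lit 196654) (nat_lit 11) (.e (nat_lit 16412) (nat_lit 2) (.e (nat_lit 196660) (nat_lit 12) (.e (nat_lit 57347) (nat_lit 0) (.e (nat_lit 7695) (nat_lit 412) .nil)))))))) (.g (nat_lit 4) .nil .nil)))))) (.nd (nat_lit 3) (.nd (nat_lit 4) (.nd (nat_lit 5) 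
(.lf (nat_lit 148037) (.g (nat_lit 3068) (.e (nat_lit 57375) (nat_lit 2) (.e (nat_lit 90176) (nat_lit 15) (.e (nat_lit 188450) (nat_lit 23) (.e (nat_lit 204863) (nat_lit 27) (.e (nat_lit 344102) (nat_lit 18) (.e (nat_lit 7936) (nat_lit 283) .nil)))))) (.g (nat_lit 4) .nil .nil))) 
(.lf (nat_lit 148069) (.g (nat_lit 2067) (.e (nat_lit 57375) (nat_lit 2) (.e (nat_lit 90178) (nat_lit 15) (.e (nat_lit 188421) (nat_lit 11) (.e (nat_lit 336387) (nat_lit 27) (.e (nat_lit 426100) (nat_lit 1) (.e (nat_lit 164400) (nat_lit 256) .nil)))))) (.g (nat_lit 4) .nil .nil)))) (.nd (nat_lit 5) 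
(.lf (nat_lit 148053) (.g (nat_lit 1780) (.e (nat_lit 57375) (nat_lit 2) (.e (nat_lit 90176) (nat_lit 15) (.e (nat_lit 188450) (nat_lit 23) (.e (nat_lit 204885) (nat_lit 33) (.e (nat_lit 401463) (nat_lit 15) .nil))))) .nil)) 
(.lf (nat_lit 148085) (.g (nat_lit 3656) (.e (nat_lit 57375) (nat_lit 2) (.e (nat_lit 90185) (nat_lit 17) (.e (nat_lit 237587) (nat_lit 2) (.e (nat_lit 196654) (nat_lit 11) (.e (nat_lit 16416) (nat_lit 3) (.e (nat_lit 204830) (nat_lit 18) (.e (nat_lit 65280) (nat_lit 166) .nil))))))) (.g (nat_lit 6) .nil .nil))))) (.nd (nat_lit 4) (.nd (nat_lit 5) 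
(.lf (nat_lit 148045) (.g (nat_lit 2973) (.e (nat_lit 57375) (nat_lit 2) (.e (nat_lit 90176) (nat_lit 15) (.e (nat_lit 188450) (nat_lit 23) (.e (nat_lit 204880) (nat_lit 32) (.e (nat_lit 385049) (nat_lit 21) (.e (nat_lit 7936) (nat_lit 373) .nil)))))) (.g (nat_lit 5) .nil .nil))) 
(.lf (nat_lit 148077) (.g (nat_lit 3315) (.e (nat_lit 57375) (nat_lit 2) (.e (nat_lit 90185) (nat_lit 17) (.e (nat_lit 237585) (nat_lit 1) (.e (nat_lit 164403) (nat_lit 256) (.e (nat_lit 57447) (nat_lit 19) (.e (nat_lit 393238) (nat_lit 17) (.e (nat_lit 2397) (nat_lit 157) (.e (nat_lit 4734) (nat_lit 277) .nil)))))))) (.g (nat_lit 5) .nil .nil)))) (.nd (nat_lit 5) 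
(.lf (nat_lit 148061) (.g (nat_lit 390) (.e (nat_lit 57375) (nat_lit 2) (.e (nat_lit 90176) (nat_lit 15) (.e (nat_lit 188459) (nat_lit 26) .nil))) .nil)) 
(.lf (nat_lit 148093) (.g (nat_lit 3417) (.e (nat_lit 57375) (nat_lit 2) (.e (nat_lit 90185) (nat_lit 17) (.e (nat_lit 237590) (nat_lit 2) (.e (nat_lit 196654) (nat_lit 11) (.e (nat_lit 16416) (nat_lit 3) (.e (nat_lit 204830) (nat_lit 18) (.e (nat_lit 65280) (nat_lit 166) .nil))))))) (.g (nat_lit 6) .nil .nil))))))) (.nd (nat_lit 2) (.nd (nat_lit 3) (.nd (nat_lit 4) (.nd (nat_lit 5) 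
(.lf (nat_lit 148035) (.g (nat_lit 3642) (.e (nat_lit 57375) (nat_lit 2) (.e (nat_lit 90176) (nat_lit 15) (.e (nat_lit 188450) (nat_lit 23) (.e (nat_lit 204863) (nat_lit 27) (.e (nat_lit 344096) (nat_lit 18) (.e (nat_lit 7936) (nat_lit 283) .nil)))))) (.g (nat_lit 5) .nil .nil))) 
(.lf (nat_lit 148067) (.g (nat_lit 2372) (.e (nat_lit 57375) (nat_lit 2) (.e (nat_lit 90178) (nat_lit 15) (.e (nat_lit 188421) (nat_lit 11) (.e (nat_lit 336387) (nat_lit 27) (.e (nat_lit 426098) (nat_lit 1) (.e (nat_lit 164396) (nat_lit 256) .nil)))))) (.g (nat_lit 5) .nil .nil)))) (.nd (nat_lit 5) 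
(.lf (nat_lit 148051) (.g (nat_lit 2717) (.e (nat_lit 57375) (nat_lit 2) (.e (nat_lit 90176) (nat_lit 15) (.e (nat_lit 188450) (nat_lit 23) (.e (nat_lit 204885) (nat_lit 33) (.e (nat_lit 401461) (nat_lit 15) (.e (nat_lit 982) (nat_lit 81) (.e (nat_lit 6930) (nat_lit 373) .nil))))))) (.g (nat_lit 5) .nil .nil))) 
(.lf (nat_lit 148083) (.g (nat_lit 3062) (.e (nat_lit 57375) (nat_lit 2) (.e (nat_lit 90185) (nat_lit 17) (.e (nat_lit 237587) (nat_lit 2) (.e (nat_lit 196654) (nat_lit 11) (.e (nat_lit 16412) (nat_lit 2) (.e (nat_lit 196677) (nat_lit 16) (.e (nat_lit 122881) (nat_lit 0) (.e (nat_lit 7695) (nat_lit 412) .nil)))))))) (.g (nat_lit 5) .nil .nil))))) (.nd (nat_lit 4) (.nd (nat_lit 5) 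
(.lf (nat_lit 148043) (.g (nat_lit 3475) (.e (nat_lit 57375) (nat_lit 2) (.e (nat_lit 90176) (nat_lit 15) (.e (nat_lit 188450) (nat_lit 23) (.e (nat_lit 204880) (nat_lit 32) (.e (nat_lit 385046) (nat_lit 21) .nil))))) .nil)) 
(.lf (nat_lit 148075) (.g (nat_lit 544) (.e (nat_lit 57375) (nat_lit 2) (.e (nat_lit 90185) (nat_lit 17) (.e (nat_lit 237585) (nat_lit 1) .nil))) .nil))) (.nd (nat_lit 5) 
(.lf (nat_lit 148059) (.g (nat_lit 2465) (.e (nat_lit 57375) (nat_lit 2) (.e (nat_lit 90176) (nat_lit 15) (.e (nat_lit 188452) (nat_lit 23) (.e (nat_lit 204885) (nat_lit 33) .nil)))) .nil)) 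
(.lf (nat_lit 148091) (.g (nat_lit 2826) (.e (nat_lit 57375) (nat_lit 2) (.e (nat_lit 90185) (nat_lit 17) (.e (nat_lit 237590) (nat_lit 2) (.e (nat_lit 196654) (nat_lit 11) (.e (nat_lit 16412) (nat_lit 2) (.e (nat_lit 196677) (nat_lit 16) (.e (nat_lit 122880) (nat_lit 0) (.e (nat_lit 7695) (nat_lit 412) .nil)))))))) (.g (nat_lit 5) .nil .nil)))))) 
(.nd (nat_lit 3) (.nd (nat_lit 4) (.nd (nat_lit 5) 
(.lf (nat_lit 148039) (.g (nat_lit 2367) (.e (nat_lit 57375) (nat_lit 2) (.e (nat_lit 90176) (nat_lit 15) (.e (nat_lit 188450) (nat_lit 23) (.e (nat_lit 204864) (nat_lit 27) (.e (nat_lit 344096) (nat_lit 18) (.e (nat_lit 7936) (nat_lit 283) .nil)))))) (.g (nat_lit 4) .nil .nil))) 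
(.lf (nat_lit 148071) (.g (nat_lit 429) (.e (nat_lit 57375) (nat_lit 2) (.e (nat_lit 90178) (nat_lit 15) (.e (nat_lit 196352) (nat_lit 11) .nil))) .nil))) (.nd (nat_lit 5) 
(.lf (nat_lit 148055) (.g (nat_lit 2138) (.e (nat_lit 57375) (nat_lit 2) (.e (nat_lit 90176) (nat_lit 15) (.e (nat_lit 188450) (nat_lit 23) (.e (nat_lit 204885) (nat_lit 33) (.e (nat_lit 401463) (nat_lit 15) (.e (nat_lit 993) (nat_lit 81) (.e (nat_lit 6930) (nat_lit 373) .nil))))))) (.g (nat_lit 4) .nil .nil))) 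
(.lf (nat_lit 148087) (.g (nat_lit 748) (.e (nat_lit 57375) (nat_lit 2) (.e (nat_lit 90185) (nat_lit 17) (.e (nat_lit 237589) (nat_lit 2) .nil))) .nil)))) (.nd (nat_lit 4) (.nd (nat_lit 5) 
(.lf (nat_lit 148047) (.g (nat_lit 3544) (.e (nat_lit 57375) (nat_lit 2) (.e (nat_lit 90176) (nat_lit 15) (.e (nat_lit 188450) (nat_lit 23) (.e (nat_lit 204880) (nat_lit 32) (.e (nat_lit 385053) (nat_lit 21) .nil))))) .nil)) 
(.lf (nat_lit 148079) (.g (nat_lit 2654) (.e (nat_lit 57375) (nat_lit 2) (.e (nat_lit 90185) (nat_lit 17) (.e (nat_lit 237587) (nat_lit 2) (.e (nat_lit 196654) (nat_lit 11) (.e (nat_lit 16412) (nat_lit 2) (.e (nat_lit 196660) (nat_lit 12) (.e (nat_lit 57347) (nat_lit 0) (.e (nat_lit 7695) (nat_lit 412) .nil)))))))) (.g (nat_lit 4) .nil .nil)))) (.nd (nat_lit 5) 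
(.lf (nat_lit 148063) (.g (nat_lit 1724) (.e (nat_lit 57375) (nat_lit 2) (.e (nat_lit 90176) (nat_lit 15) (.e (nat_lit 188459) (nat_lit 26) (.e (nat_lit 261888) (nat_lit 5) (.e (nat_lit 180229) (nat_lit 0) (.e (nat_lit 5934) (nat_lit 322) .nil)))))) (.g (nat_lit 5) .nil .nil))) 
(.lf (nat_lit 148095) (.g (nat_lit 2628) (.e (nat_lit 57375) (nat_lit 2) (.e (nat_lit 90185) (nat_lit 17) (.e (nat_lit 237592) (nat_lit 3) (.e (nat_lit 204809) (nat_lit 9) (.e (nat_lit 426124) (nat_lit 2) (.e (nat_lit 196658) (nat_lit 12) (.e (nat_lit 57348) (nat_lit 0) (.e (nat_lit 7695) (nat_lit 412) .nil)))))))) (.g (nat_lit 5) .nil .nil)))))))))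

noncomputable def tv1970 : DT := (.nd (nat_lit 0) (.nd (nat_lit 1) (.nd (nat_lit 2) (.nd (nat_lit 3) (.nd (nat_lit 4) (.nd (nat_lit 5) 
(.lf (nat_lit 148096) (.g (nat_lit 2679) (.e (nat_lit 57375) (nat_lit 2) (.e (nat_lit 90185) (nat_lit 17) (.e (nat_lit 237592) (nat_lit 3) (.e (nat_lit 204809) (nat_lit 9) (.e (nat_lit 426124) (nat_lit 2) (.e (nat_lit 196677) (nat_lit 16) (.e (nat_lit 122880) (nat_lit 0) (.e (nat_lit 7695) (nat_lit 412) .nil)))))))) (.g (nat_lit 5) .nil .nil))) 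
(.lf (nat_lit 148128) (.g (nat_lit 1820) (.e (nat_lit 57375) (nat_lit 2) (.e (nat_lit 90185) (nat_lit 17) (.e (nat_lit 237601) (nat_lit 9) (.e (nat_lit 426566) (nat_lit 34) (.e (nat_lit 393235) (nat_lit 17) (.e (nat_lit 2472) (nat_lit 157) (.e (nat_lit 5939) (nat_lit 322) .nil))))))) (.g (nat_lit 4) .nil .nil)))) (.nd (nat_lit 5) 
(.lf (nat_lit 148112) (.g (nat_lit 1555) (.e (nat_lit 57375) (nat_lit 2) (.e (nat_lit 90185) (nat_lit 17) (.e (nat_lit 237601) (nat_lit 9) (.e (nat_lit 426566) (nat_lit 34) (.e (nat_lit 393231) (nat_lit 17) (.e (nat_lit 2467) (nat_lit 157) (.e (nat_lit 5939) (nat_lit 322) .nil))))))) (.g (nat_lit 4) .nil .nil))) 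
(.lf (nat_lit 148144) (.g (nat_lit 1711) (.e (nat_lit 57375) (nat_lit 2) (.e (nat_lit 90185) (nat_lit 17) (.e (nat_lit 237601) (nat_lit 9) (.e (nat_lit 426566) (nat_lit 34) (.e (nat_lit 393247) (nat_lit 17) (.e (nat_lit 2471) (nat_lit 157) (.e (nat_lit 5939) (nat_lit 322) .nil))))))) (.g (nat_lit 4) .nil .nil))))) (.nd (nat_lit 4) (.nd (nat_lit 5) 
(.lf (nat_lit 148104) (.g (nat_lit 1742) (.e (nat_lit 57375) (nat_lit 2) (.e (nat_lit 90185) (nat_lit 17) (.e (nat_lit 237594) (nat_lit 3) (.e (nat_lit 204837) (nat_lit 20) (.e (nat_lit 114708) (nat_lit 20) .nil))))) .nil)) 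
(.lf (nat_lit 148136) (.g (nat_lit 1761) (.e (nat_lit 57375) (nat_lit 2) (.e (nat_lit 90185) (nat_lit 17) (.e (nat_lit 237601) (nat_lit 9) (.e (nat_lit 426566) (nat_lit 34) (.e (nat_lit 393239) (nat_lit 17) (.e (nat_lit 2470) (nat_lit 157) (.e (nat_lit 5939) (nat_lit 322) .nil))))))) (.g (nat_lit 4) .nil .nil)))) (.nd (nat_lit 5) 
(.lf (nat_lit 148120) (.g (nat_lit 2144) (.e (nat_lit 57375) (nat_lit 2) (.e (nat_lit 90185) (nat_lit 17) (.e (nat_lit 237601) (nat_lit 9) (.e (nat_lit 426566) (nat_lit 34) (.e (nat_lit 393233) (nat_lit 17) (.e (nat_lit 2399) (nat_lit 157) (.e (nat_lit 5934) (nat_lit 322) .nil))))))) (.g (nat_lit 4) .nil .nil))) 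
(.lf (nat_lit 148152) (.g (nat_lit 2676) (.e (nat_lit 57375) (nat_lit 2) (.e (nat_lit 90185) (nat_lit 17) (.e (nat_lit 237601) (nat_lit 9) (.e (nat_lit 426568) (nat_lit 34) (.e (nat_lit 393251) (nat_lit 18) (.e (nat_lit 164399) (nat_lit 256) .nil)))))) (.g (nat_lit 0) .nil .nil)))))) (.nd (nat_lit 3) (.nd (nat_lit 4) (.nd (nat_lit 5) 
(.lf (nat_lit 148100) (.g (nat_lit 3261) (.e (nat_lit 57375) (nat_lit 2) (.e (nat_lit 90185) (nat_lit 17) (.e (nat_lit 237594) (nat_lit 3) (.e (nat_lit 204809) (nat_lit 9) (.e (nat_lit 426124) (nat_lit 2) (.e (nat_lit 196658) (nat_lit 12) (.e (nat_lit 57348) (nat_lit 0) (.e (nat_lit 7695) (nat_lit 412) .nil)))))))) (.g (nat_lit 6) .nil .nil))) 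
(.lf (nat_lit 148132) (.g (nat_lit 1497) (.e (nat_lit 57375) (nat_lit 2) (.e (nat_lit 90185) (nat_lit 17) (.e (nat_lit 237601) (nat_lit 9) (.e (nat_lit 426566) (nat_lit 34) (.e (nat_lit 393239) (nat_lit 17) (.e (nat_lit 2464) (nat_lit 157) (.e (nat_lit 5939) (nat_lit 322) .nil))))))) (.g (nat_lit 4) .nil .nil)))) (.nd (nat_lit 5) 
(.lf (nat_lit 148116) (.g (nat_lit 1987) (.e (nat_lit 57375) (nat_lit 2) (.e (nat_lit 90185) (nat_lit 17) (.e (nat_lit 237601) (nat_lit 9) (.e (nat_lit 426566) (nat_lit 34) (.e (nat_lit 393232) (nat_lit 17) (.e (nat_lit 2399) (nat_lit 157) (.e (nat_lit 5934) (nat_lit 322) .nil))))))) (.g (nat_lit 4) .nil .nil))) 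
(.lf (nat_lit 148148) (.g (nat_lit 1861) (.e (nat_lit 57375) (nat_lit 2) (.e (nat_lit 90185) (nat_lit 17) (.e (nat_lit 237601) (nat_lit 9) (.e (nat_lit 426566) (nat_lit 34) (.e (nat_lit 393251) (nat_lit 18) (.e (nat_lit 164400) (nat_lit 256) .nil)))))) (.g (nat_lit 4) .nil .nil))))) (.nd (nat_lit 4) (.nd (nat_lit 5) 
(.lf (nat_lit 148108) (.g (nat_lit 1259) (.e (nat_lit 57375) (nat_lit 2) (.e (nat_lit 90185) (nat_lit 17) (.e (nat_lit 237601) (nat_lit 9) (.e (nat_lit 426566) (nat_lit 34) (.e (nat_lit 401152) (nat_lit 1) .nil))))) .nil)) 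
(.lf (nat_lit 148140) (.g (nat_lit 1461) (.e (nat_lit 57375) (nat_lit 2) (.e (nat_lit 90185) (nat_lit 17) (.e (nat_lit 237601) (nat_lit 9) (.e (nat_lit 426566) (nat_lit 34) (.e (nat_lit 393241) (nat_lit 17) (.e (nat_lit 2472) (nat_lit 157) (.e (nat_lit 5939) (nat_lit 322) .nil))))))) (.g (nat_lit 4) .nil .nil)))) (.nd (nat_lit 5) 
(.lf (nat_lit 148124) (.g (nat_lit 1654) (.e (nat_lit 57375) (nat_lit 2) (.e (nat_lit 90185) (nat_lit 17) (.e (nat_lit 237601) (nat_lit 9) (.e (nat_lit 426566) (nat_lit 34) (.e (nat_lit 393235) (nat_lit 17) (.e (nat_lit 2416) (nat_lit 157) (.e (nat_lit 5939) (nat_lit 322) .nil))))))) (.g (nat_lit 4) .nil .nil))) 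
(.lf (nat_lit 148156) (.g (nat_lit 2746) (.e (nat_lit 57375) (nat_lit 2) (.e (nat_lit 90185) (nat_lit 17) (.e (nat_lit 237605) (nat_lit 9) (.e (nat_lit 426131) (nat_lit 3) (.e (nat_lit 204880) (nat_lit 32) (.e (nat_lit 385043) (nat_lit 21) (.e (nat_lit 6931) (nat_lit 373) .nil))))))) (.g (nat_lit 5) .nil .nil))))))) (.nd (nat_lit 2) (.nd (nat_lit 3) (.nd (nat_lit 4) (.nd (nat_lit 5) 
(.lf (nat_lit 148098) (.g (nat_lit 589) (.e (nat_lit 57375) (nat_lit 2) (.e (nat_lit 90185) (nat_lit 17) (.e (nat_lit 237594) (nat_lit 3) .nil))) .nil)) 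
(.lf (nat_lit 148130) (.g (nat_lit 1748) (.e (nat_lit 57375) (nat_lit 2) (.e (nat_lit 90185) (nat_lit 17) (.e (nat_lit 237601) (nat_lit 9) (.e (nat_lit 426566) (nat_lit 34) (.e (nat_lit 393237) (nat_lit 17) (.e (nat_lit 2467) (nat_lit 157) (.e (nat_lit 5939) (nat_lit 322) .nil))))))) (.g (nat_lit 4) .nil .nil)))) (.nd (nat_lit 5) 
(.lf (nat_lit 148114) (.g (nat_lit 1757) (.e (nat_lit 57375) (nat_lit 2) (.e (nat_lit 90185) (nat_lit 17) (.e (nat_lit 237601) (nat_lit 9) (.e (nat_lit 426566) (nat_lit 34) (.e (nat_lit 393231) (nat_lit 17) (.e (nat_lit 2470) (nat_lit 157) (.e (nat_lit 5939) (nat_lit 322) .nil))))))) (.g (nat_lit 4) .nil .nil))) 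
(.lf (nat_lit 148146) (.g (nat_lit 1708) (.e (nat_lit 57375) (nat_lit 2) (.e (nat_lit 90185) (nat_lit 17) (.e (nat_lit 237601) (nat_lit 9) (.e (nat_lit 426566) (nat_lit 34) (.e (nat_lit 393250) (nat_lit 18) (.e (nat_lit 164399) (nat_lit 256) .nil)))))) (.g (nat_lit 4) .nil .nil))))) (.nd (nat_lit 4) (.nd (nat_lit 5) 
(.lf (nat_lit 148106) (.g (nat_lit 2387) (.e (nat_lit 57375) (nat_lit 2) (.e (nat_lit 90185) (nat_lit 17) (.e (nat_lit 237601) (nat_lit 9) (.e (nat_lit 426479) (nat_lit 27) (.e (nat_lit 336425) (nat_lit 28) (.e (nat_lit 434209) (nat_lit 18) (.e (nat_lit 5939) (nat_lit 322) .nil))))))) (.g (nat_lit 6) .nil .nil))) 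
(.lf (nat_lit 148138) (.g (nat_lit 1401) (.e (nat_lit 57375) (nat_lit 2) (.e (nat_lit 90185) (nat_lit 17) (.e (nat_lit 237601) (nat_lit 9) (.e (nat_lit 426566) (nat_lit 34) (.e (nat_lit 393241) (nat_lit 17) .nil))))) .nil))) (.nd (nat_lit 5) 
(.lf (nat_lit 148122) (.g (nat_lit 2675) (.e (nat_lit 57375) (nat_lit 2) (.e (nat_lit 90185) (nat_lit 17) (.e (nat_lit 237601) (nat_lit 9) (.e (nat_lit 426566) (nat_lit 34) (.e (nat_lit 393233) (nat_lit 17) (.e (nat_lit 2399) (nat_lit 157) (.e (nat_lit 5942) (nat_lit 322) .nil))))))) (.g (nat_lit 7) .nil .nil))) 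
(.lf (nat_lit 148154) (.g (nat_lit 2705) (.e (nat_lit 57375) (nat_lit 2) (.e (nat_lit 90185) (nat_lit 17) (.e (nat_lit 237601) (nat_lit 9) (.e (nat_lit 426568) (nat_lit 34) (.e (nat_lit 393252) (nat_lit 18) (.e (nat_lit 164399) (nat_lit 256) .nil)))))) (.g (nat_lit 0) .nil .nil)))))) (.nd (nat_lit 3) (.nd (nat_lit 4) (.nd (nat_lit 5) 
(.lf (nat_lit 148102) (.g (nat_lit 3315) (.e (nat_lit 57375) (nat_lit 2) (.e (nat_lit 90185) (nat_lit 17) (.e (nat_lit 237594) (nat_lit 3) (.e (nat_lit 204809) (nat_lit 9) (.e (nat_lit 426124) (nat_lit 2) (.e (nat_lit 196677) (nat_lit 16) (.e (nat_lit 122880) (nat_lit 0) (.e (nat_lit 7695) (nat_lit 412) .nil)))))))) (.g (nat_lit 6) .nil .nil))) 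
(.lf (nat_lit 148134) (.g (nat_lit 1638) (.e (nat_lit 57375) (nat_lit 2) (.e (nat_lit 90185) (nat_lit 17) (.e (nat_lit 237601) (nat_lit 9) (.e (nat_lit 426566) (nat_lit 34) (.e (nat_lit 393239) (nat_lit 17) (.e (nat_lit 2466) (nat_lit 157) (.e (nat_lit 5939) (nat_lit 322) .nil))))))) (.g (nat_lit 4) .nil .nil)))) (.nd (nat_lit 5) 
(.lf (nat_lit 148118) (.g (nat_lit 2576) (.e (nat_lit 57375) (nat_lit 2) (.e (nat_lit 90185) (nat_lit 17) (.e (nat_lit 237601) (nat_lit 9) (.e (nat_lit 426566) (nat_lit 34) (.e (nat_lit 393232) (nat_lit 17) (.e (nat_lit 2399) (nat_lit 157) (.e (nat_lit 5942) (nat_lit 322) .nil))))))) (.g (nat_lit 5) .nil .nil))) 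
(.lf (nat_lit 148150) (.g (nat_lit 1645) (.e (nat_lit 57375) (nat_lit 2) (.e (nat_lit 90185) (nat_lit 17) (.e (nat_lit 237601) (nat_lit 9) (.e (nat_lit 426566) (nat_lit 34) (.e (nat_lit 393254) (nat_lit 18) (.e (nat_lit 164396) (nat_lit 256) .nil)))))) (.g (nat_lit 4) .nil .nil))))) (.nd (nat_lit 4) (.nd (nat_lit 5) 
(.lf (nat_lit 148110) (.g (nat_lit 1704) (.e (nat_lit 57375) (nat_lit 2) (.e (nat_lit 90185) (nat_lit 17) (.e (nat_lit 237601) (nat_lit 9) (.e (nat_lit 426566) (nat_lit 34) (.e (nat_lit 393231) (nat_lit 17) (.e (nat_lit 2457) (nat_lit 157) (.e (nat_lit 5939) (nat_lit 322) .nil))))))) (.g (nat_lit 4) .nil .nil))) 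
(.lf (nat_lit 148142) (.g (nat_lit 1509) (.e (nat_lit 57375) (nat_lit 2) (.e (nat_lit 90185) (nat_lit 17) (.e (nat_lit 237601) (nat_lit 9) (.e (nat_lit 426566) (nat_lit 34) (.e (nat_lit 393247) (nat_lit 17) .nil))))) .nil))) (.nd (nat_lit 5) 
(.lf (nat_lit 148126) (.g (nat_lit 1726) (.e (nat_lit 57375) (nat_lit 2) (.e (nat_lit 90185) (nat_lit 17) (.e (nat_lit 237601) (nat_lit 9) (.e (nat_lit 426566) (nat_lit 34) (.e (nat_lit 393235) (nat_lit 17) (.e (nat_lit 2466) (nat_lit 157) (.e (nat_lit 5939) (nat_lit 322) .nil))))))) (.g (nat_lit 4) .nil .nil))) 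
(.lf (nat_lit 148158) (.g (nat_lit 776) (.e (nat_lit 57375) (nat_lit 2) (.e (nat_lit 90185) (nat_lit 17) (.e (nat_lit 237605) (nat_lit 9) (.e (nat_lit 426566) (nat_lit 34) .nil)))) .nil))))))) (.nd (nat_lit 1) (.nd (nat_lit 2) (.nd (nat_lit 3) (.nd (nat_lit 4) (.nd (nat_lit 5) 
(.lf (nat_lit 148097) (.g (nat_lit 2700) (.e (nat_lit 57375) (nat_lit 2) (.e (nat_lit 90185) (nat_lit 17) (.e (nat_lit 237592) (nat_lit 3) (.e (nat_lit 204809) (nat_lit 9) (.e (nat_lit 426124) (nat_lit 2) (.e (nat_lit 196677) (nat_lit 16) (.e (nat_lit 122881) (nat_lit 0) (.e (nat_lit 7695) (nat_lit 412) .nil)))))))) (.g (nat_lit 5) .nil .nil))) 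
(.lf (nat_lit 148129) (.g (nat_lit 1370) (.e (nat_lit 57375) (nat_lit 2) (.e (nat_lit 90185) (nat_lit 17) (.e (nat_lit 237601) (nat_lit 9) (.e (nat_lit 426566) (nat_lit 34) (.e (nat_lit 393237) (nat_lit 17) .nil))))) .nil))) (.nd (nat_lit 5) 
(.lf (nat_lit 148113) (.g (nat_lit 1765) (.e (nat_lit 57375) (nat_lit 2) (.e (nat_lit 90185) (nat_lit 17) (.e (nat_lit 237601) (nat_lit 9) (.e (nat_lit 426566) (nat_lit 34) (.e (nat_lit 393231) (nat_lit 17) (.e (nat_lit 2469) (nat_lit 157) (.e (nat_lit 5939) (nat_lit 322) .nil))))))) (.g (nat_lit 4) .nil .nil))) 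
(.lf (nat_lit 148145) (.g (nat_lit 1335) (.e (nat_lit 57375) (nat_lit 2) (.e (nat_lit 90185) (nat_lit 17) (.e (nat_lit 237601) (nat_lit 9) (.e (nat_lit 426566) (nat_lit 34) (.e (nat_lit 393250) (nat_lit 18) .nil))))) .nil)))) (.nd (nat_lit 4) (.nd (nat_lit 5) 
(.lf (nat_lit 148105) (.g (nat_lit 445) (.e (nat_lit 57375) (nat_lit 2) (.e (nat_lit 90185) (nat_lit 17) (.e (nat_lit 237601) (nat_lit 9) .nil))) .nil)) 
(.lf (nat_lit 148137) (.g (nat_lit 1366) (.e (nat_lit 57375) (nat_lit 2) (.e (nat_lit 90185) (nat_lit 17) (.e (nat_lit 237601) (nat_lit 9) (.e (nat_lit 426566) (nat_lit 34) (.e (nat_lit 393240) (nat_lit 17) .nil))))) .nil))) (.nd (nat_lit 5) 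
(.lf (nat_lit 148121) (.g (nat_lit 1804) (.e (nat_lit 57375) (nat_lit 2) (.e (nat_lit 90185) (nat_lit 17) (.e (nat_lit 237601) (nat_lit 9) (.e (nat_lit 426566) (nat_lit 34) (.e (nat_lit 393233) (nat_lit 17) (.e (nat_lit 2399) (nat_lit 157) (.e (nat_lit 5941) (nat_lit 322) .nil))))))) (.g (nat_lit 4) .nil .nil))) 
(.lf (nat_lit 148153) (.g (nat_lit 1722) (.e (nat_lit 57375) (nat_lit 2) (.e (nat_lit 90185) (nat_lit 17) (.e (nat_lit 237601) (nat_lit 9) (.e (nat_lit 426568) (nat_lit 34) (.e (nat_lit 393252) (nat_lit 18) (.e (nat_lit 164396) (nat_lit 256) .nil)))))) (.g (nat_lit 4) .nil .nil)))))) (.nd (nat_lit 3) (.nd (nat_lit 4) (.nd (nat_lit 5) 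
(.lf (nat_lit 148101) (.g (nat_lit 2250) (.e (nat_lit 57375) (nat_lit 2) (.e (nat_lit 90185) (nat_lit 17) (.e (nat_lit 237594) (nat_lit 3) (.e (nat_lit 204809) (nat_lit 9) (.e (nat_lit 426124) (nat_lit 2) (.e (nat_lit 196660) (nat_lit 12) (.e (nat_lit 57347) (nat_lit 0) (.e (nat_lit 7695) (nat_lit 412) .nil)))))))) (.g (nat_lit 4) .nil .nil))) 
(.lf (nat_lit 148133) (.g (nat_lit 1851) (.e (nat_lit 57375) (nat_lit 2) (.e (nat_lit 90185) (nat_lit 17) (.e (nat_lit 237601) (nat_lit 9) (.e (nat_lit 426566) (nat_lit 34) (.e (nat_lit 393239) (nat_lit 17) (.e (nat_lit 2466) (nat_lit 157) (.e (nat_lit 5937) (nat_lit 322) .nil))))))) (.g (nat_lit 4) .nil .nil)))) (.nd (nat_lit 5) 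
(.lf (nat_lit 148117) (.g (nat_lit 2417) (.e (nat_lit 57375) (nat_lit 2) (.e (nat_lit 90185) (nat_lit 17) (.e (nat_lit 237601) (nat_lit 9) (.e (nat_lit 426566) (nat_lit 34) (.e (nat_lit 393232) (nat_lit 17) (.e (nat_lit 2399) (nat_lit 157) (.e (nat_lit 5940) (nat_lit 322) .nil))))))) (.g (nat_lit 4) .nil .nil))) 
(.lf (nat_lit 148149) (.g (nat_lit 2954) (.e (nat_lit 57375) (nat_lit 2) (.e (nat_lit 90185) (nat_lit 17) (.e (nat_lit 237601) (nat_lit 9) (.e (nat_lit 426566) (nat_lit 34) (.e (nat_lit 393252) (nat_lit 18) (.e (nat_lit 164400) (nat_lit 256) .nil)))))) (.g (nat_lit 0) .nil .nil))))) (.nd (nat_lit 4) (.nd (nat_lit 5) 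
(.lf (nat_lit 148109) (.g (nat_lit 1576) (.e (nat_lit 57375) (nat_lit 2) (.e (nat_lit 90185) (nat_lit 17) (.e (nat_lit 237601) (nat_lit 9) (.e (nat_lit 426566) (nat_lit 34) (.e (nat_lit 393230) (nat_lit 17) .nil))))) .nil)) 
(.lf (nat_lit 148141) (.g (nat_lit 1478) (.e (nat_lit 57375) (nat_lit 2) (.e (nat_lit 90185) (nat_lit 17) (.e (nat_lit 237601) (nat_lit 9) (.e (nat_lit 426566) (nat_lit 34) (.e (nat_lit 393241) (nat_lit 17) (.e (nat_lit 2473) (nat_lit 157) (.e (nat_lit 5939) (nat_lit 322) .nil))))))) (.g (nat_lit 4) .nil .nil)))) (.nd (nat_lit 5) 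
(.lf (nat_lit 148125) (.g (nat_lit 1939) (.e (nat_lit 57375) (nat_lit 2) (.e (nat_lit 90185) (nat_lit 17) (.e (nat_lit 237601) (nat_lit 9) (.e (nat_lit 426566) (nat_lit 34) (.e (nat_lit 393235) (nat_lit 17) (.e (nat_lit 2466) (nat_lit 157) (.e (nat_lit 5937) (nat_lit 322) .nil))))))) (.g (nat_lit 4) .nil .nil))) 
(.lf (nat_lit 148157) (.g (nat_lit 2415) (.e (nat_lit 57375) (nat_lit 2) (.e (nat_lit 90185) (nat_lit 17) (.e (nat_lit 237605) (nat_lit 9) (.e (nat_lit 426131) (nat_lit 3) (.e (nat_lit 204880) (nat_lit 32) (.e (nat_lit 385047) (nat_lit 21) (.e (nat_lit 7936) (nat_lit 373) .nil))))))) (.g (nat_lit 6) .nil .nil))))))) (.nd (nat_lit 2) (.nd (nat_lit 3) (.nd (nat_lit 4) (.nd (nat_lit 5) 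
(.lf (nat_lit 148099) (.g (nat_lit 2378) (.e (nat_lit 57375) (nat_lit 2) (.e (nat_lit 90185) (nat_lit 17) (.e (nat_lit 237594) (nat_lit 3) (.e (nat_lit 204809) (nat_lit 9) (.e (nat_lit 426123) (nat_lit 2) (.e (nat_lit 196661) (nat_lit 12) (.e (nat_lit 57353) (nat_lit 0) (.e (nat_lit 7695) (nat_lit 412) .nil)))))))) (.g (nat_lit 4) .nil .nil))) 
(.lf (nat_lit 148131) (.g (nat_lit 1483) (.e (nat_lit 57375) (nat_lit 2) (.e (nat_lit 90185) (nat_lit 17) (.e (nat_lit 237601) (nat_lit 9) (.e (nat_lit 426566) (nat_lit 34) (.e (nat_lit 393239) (nat_lit 17) .nil))))) .nil))) (.nd (nat_lit 5) 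
(.lf (nat_lit 148115) (.g (nat_lit 1770) (.e (nat_lit 57375) (nat_lit 2) (.e (nat_lit 90185) (nat_lit 17) (.e (nat_lit 237601) (nat_lit 9) (.e (nat_lit 426566) (nat_lit 34) (.e (nat_lit 393231) (nat_lit 17) (.e (nat_lit 2472) (nat_lit 157) (.e (nat_lit 5939) (nat_lit 322) .nil))))))) (.g (nat_lit 4) .nil .nil))) 
(.lf (nat_lit 148147) (.g (nat_lit 2934) (.e (nat_lit 57375) (nat_lit 2) (.e (nat_lit 90185) (nat_lit 17) (.e (nat_lit 237601) (nat_lit 9) (.e (nat_lit 426566) (nat_lit 34) (.e (nat_lit 393251) (nat_lit 18) (.e (nat_lit 164399) (nat_lit 256) .nil)))))) (.g (nat_lit 0) .nil .nil))))) (.nd (nat_lit 4) (.nd (nat_lit 5) 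
(.lf (nat_lit 148107) (.g (nat_lit 2071) (.e (nat_lit 57375) (nat_lit 2) (.e (nat_lit 90185) (nat_lit 17) (.e (nat_lit 237601) (nat_lit 9) (.e (nat_lit 426479) (nat_lit 27) (.e (nat_lit 336438) (nat_lit 31) (.e (nat_lit 458771) (nat_lit 18) (.e (nat_lit 5939) (nat_lit 322) .nil))))))) (.g (nat_lit 5) .nil .nil))) 
(.lf (nat_lit 148139) (.g (nat_lit 1512) (.e (nat_lit 57375) (nat_lit 2) (.e (nat_lit 90185) (nat_lit 17) (.e (nat_lit 237601) (nat_lit 9) (.e (nat_lit 426566) (nat_lit 34) (.e (nat_lit 393241) (nat_lit 17) (.e (nat_lit 2456) (nat_lit 157) (.e (nat_lit 5939) (nat_lit 322) .nil))))))) (.g (nat_lit 4) .nil .nil)))) (.nd (nat_lit 5) 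
(.lf (nat_lit 148123) (.g (nat_lit 1489) (.e (nat_lit 57375) (nat_lit 2) (.e (nat_lit 90185) (nat_lit 17) (.e (nat_lit 237601) (nat_lit 9) (.e (nat_lit 426566) (nat_lit 34) (.e (nat_lit 393235) (nat_lit 17) .nil))))) .nil)) 
(.lf (nat_lit 148155) (.g (nat_lit 415) (.e (nat_lit 57375) (nat_lit 2) (.e (nat_lit 90185) (nat_lit 17) (.e (nat_lit 237605) (nat_lit 9) .nil))) .nil))))) (.nd (nat_lit 3) (.nd (nat_lit 4) (.nd (nat_lit 5) 
(.lf (nat_lit 148103) (.g (nat_lit 3336) (.e (nat_lit 57375) (nat_lit 2) (.e (nat_lit 90185) (nat_lit 17) (.e (nat_lit 237594) (nat_lit 3) (.e (nat_lit 204809) (nat_lit 9) (.e (nat_lit 426124) (nat_lit 2) (.e (nat_lit 196677) (nat_lit 16) (.e (nat_lit 122881) (nat_lit 0) (.e (nat_lit 7695) (nat_lit 412) .nil)))))))) (.g (nat_lit 6) .nil .nil))) 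
(.lf (nat_lit 148135) (.g (nat_lit 1561) (.e (nat_lit 57375) (nat_lit 2) (.e (nat_lit 90185) (nat_lit 17) (.e (nat_lit 237601) (nat_lit 9) (.e (nat_lit 426566) (nat_lit 34) (.e (nat_lit 393239) (nat_lit 17) (.e (nat_lit 2467) (nat_lit 157) (.e (nat_lit 5939) (nat_lit 322) .nil))))))) (.g (nat_lit 4) .nil .nil)))) (.nd (nat_lit 5) 
(.lf (nat_lit 148119) (.g (nat_lit 2127) (.e (nat_lit 57375) (nat_lit 2) (.e (nat_lit 90185) (nat_lit 17) (.e (nat_lit 237601) (nat_lit 9) (.e (nat_lit 426566) (nat_lit 34) (.e (nat_lit 393232) (nat_lit 17) (.e (nat_lit 2399) (nat_lit 157) (.e (nat_lit 5943) (nat_lit 322) .nil))))))) (.g (nat_lit 4) .nil .nil))) 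
(.lf (nat_lit 148151) (.g (nat_lit 1555) (.e (nat_lit 57375) (nat_lit 2) (.e (nat_lit 90185) (nat_lit 17) (.e (nat_lit 237601) (nat_lit 9) (.e (nat_lit 426566) (nat_lit 34) (.e (nat_lit 401152) (nat_lit 18) (.e (nat_lit 164399) (nat_lit 256) .nil)))))) (.g (nat_lit 4) .nil .nil))))) (.nd (nat_lit 4) (.nd (nat_lit 5) 
(.lf (nat_lit 148111) (.g (nat_lit 1677) (.e (nat_lit 57375) (nat_lit 2) (.e (nat_lit 90185) (nat_lit 17) (.e (nat_lit 237601) (nat_lit 9) (.e (nat_lit 426566) (nat_lit 34) (.e (nat_lit 393231) (nat_lit 17) (.e (nat_lit 2459) (nat_lit 157) (.e (nat_lit 5939) (nat_lit 322) .nil))))))) (.g (nat_lit 4) .nil .nil))) 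
(.lf (nat_lit 148143) (.g (nat_lit 1736) (.e (nat_lit 57375) (nat_lit 2) (.e (nat_lit 90185) (nat_lit 17) (.e (nat_lit 237601) (nat_lit 9) (.e (nat_lit 426566) (nat_lit 34) (.e (nat_lit 393247) (nat_lit 17) (.e (nat_lit 2452) (nat_lit 157) (.e (nat_lit 5939) (nat_lit 322) .nil))))))) (.g (nat_lit 4) .nil .nil)))) (.nd (nat_lit 5) 
(.lf (nat_lit 148127) (.g (nat_lit 1663) (.e (nat_lit 57375) (nat_lit 2) (.e (nat_lit 90185) (nat_lit 17) (.e (nat_lit 237601) (nat_lit 9) (.e (nat_lit 426566) (nat_lit 34) (.e (nat_lit 393235) (nat_lit 17) (.e (nat_lit 2470) (nat_lit 157) (.e (nat_lit 5939) (nat_lit 322) .nil))))))) (.g (nat_lit 4) .nil .nil))) 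
(.lf (nat_lit 148159) (.g (nat_lit 1396) (.e (nat_lit 57375) (nat_lit 2) (.e (nat_lit 90185) (nat_lit 17) (.e (nat_lit 237605) (nat_lit 9) (.e (nat_lit 426566) (nat_lit 34) (.e (nat_lit 401152) (nat_lit 1) .nil))))) .nil))))))))

noncomputable def tv1971 : DT := (.nd (nat_lit 0) (.nd (nat_lit 1) (.nd (nat_lit 2) (.nd (nat_lit 3) (.nd (nat_lit 4) (.nd (nat_lit 5) 
(.lf (nat_lit 148160) (.g (nat_lit 1724) (.e (nat_lit 57375) (nat_lit 2) (.e (nat_lit 90185) (nat_lit 17) (.e (nat_lit 237605) (nat_lit 9) (.e (nat_lit 426566) (nat_lit 34) (.e (nat_lit 393230) (nat_lit 17) .nil))))) .nil)) 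
(.lf (nat_lit 148192) (.g (nat_lit 1638) (.e (nat_lit 57375) (nat_lit 2) (.e (nat_lit 90185) (nat_lit 17) (.e (nat_lit 237605) (nat_lit 9) (.e (nat_lit 426566) (nat_lit 34) (.e (nat_lit 393247) (nat_lit 17) .nil))))) .nil))) (.nd (nat_lit 5) 
(.lf (nat_lit 148176) (.g (nat_lit 1802) (.e (nat_lit 57375) (nat_lit 2) (.e (nat_lit 90185) (nat_lit 17) (.e (nat_lit 237605) (nat_lit 9) (.e (nat_lit 426566) (nat_lit 34) (.e (nat_lit 393235) (nat_lit 17) (.e (nat_lit 2466) (nat_lit 157) (.e (nat_lit 5939) (nat_lit 322) .nil))))))) (.g (nat_lit 4) .nil .nil))) 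
(.lf (nat_lit 148208) (.g (nat_lit 394) (.e (nat_lit 57375) (nat_lit 2) (.e (nat_lit 90185) (nat_lit 17) (.e (nat_lit 237621) (nat_lit 13) .nil))) .nil)))) (.nd (nat_lit 4) (.nd (nat_lit 5) 
(.lf (nat_lit 148168) (.g (nat_lit 2489) (.e (nat_lit 57375) (nat_lit 2) (.e (nat_lit 90185) (nat_lit 17) (.e (nat_lit 237605) (nat_lit 9) (.e (nat_lit 426566) (nat_lit 34) (.e (nat_lit 393232) (nat_lit 17) (.e (nat_lit 2399) (nat_lit 157) (.e (nat_lit 5940) (nat_lit 322) .nil))))))) (.g (nat_lit 4) .nil .nil))) 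
(.lf (nat_lit 148200) (.g (nat_lit 2728) (.e (nat_lit 57375) (nat_lit 2) (.e (nat_lit 90185) (nat_lit 17) (.e (nat_lit 237605) (nat_lit 9) (.e (nat_lit 426566) (nat_lit 34) (.e (nat_lit 393252) (nat_lit 18) (.e (nat_lit 164397) (nat_lit 256) .nil)))))) (.g (nat_lit 5) .nil .nil)))) (.nd (nat_lit 5) 
(.lf (nat_lit 148184) (.g (nat_lit 1686) (.e (nat_lit 57375) (nat_lit 2) (.e (nat_lit 90185) (nat_lit 17) (.e (nat_lit 237605) (nat_lit 9) (.e (nat_lit 426566) (nat_lit 34) (.e (nat_lit 393239) (nat_lit 17) (.e (nat_lit 2467) (nat_lit 157) (.e (nat_lit 5939) (nat_lit 322) .nil))))))) (.g (nat_lit 4) .nil .nil))) 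
(.lf (nat_lit 148216) (.g (nat_lit 1653) (.e (nat_lit 57375) (nat_lit 2) (.e (nat_lit 90185) (nat_lit 17) (.e (nat_lit 237621) (nat_lit 13) (.e (nat_lit 483341) (nat_lit 9) (.e (nat_lit 426009) (nat_lit 0) .nil))))) .nil))))) (.nd (nat_lit 3) (.nd (nat_lit 4) (.nd (nat_lit 5) 
(.lf (nat_lit 148164) (.g (nat_lit 1961) (.e (nat_lit 57375) (nat_lit 2) (.e (nat_lit 90185) (nat_lit 17) (.e (nat_lit 237605) (nat_lit 9) (.e (nat_lit 426566) (nat_lit 34) (.e (nat_lit 393231) (nat_lit 17) (.e (nat_lit 2469) (nat_lit 157) (.e (nat_lit 5939) (nat_lit 322) .nil))))))) (.g (nat_lit 4) .nil .nil))) 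
(.lf (nat_lit 148196) (.g (nat_lit 1880) (.e (nat_lit 57375) (nat_lit 2) (.e (nat_lit 90185) (nat_lit 17) (.e (nat_lit 237605) (nat_lit 9) (.e (nat_lit 426566) (nat_lit 34) (.e (nat_lit 393250) (nat_lit 18) (.e (nat_lit 164399) (nat_lit 256) .nil)))))) (.g (nat_lit 4) .nil .nil)))) (.nd (nat_lit 5) 
(.lf (nat_lit 148180) (.g (nat_lit 1697) (.e (nat_lit 57375) (nat_lit 2) (.e (nat_lit 90185) (nat_lit 17) (.e (nat_lit 237605) (nat_lit 9) (.e (nat_lit 426566) (nat_lit 34) (.e (nat_lit 393237) (nat_lit 17) (.e (nat_lit 2456) (nat_lit 157) (.e (nat_lit 5939) (nat_lit 322) .nil))))))) (.g (nat_lit 4) .nil .nil))) 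
(.lf (nat_lit 148212) (.g (nat_lit 2361) (.e (nat_lit 57375) (nat_lit 2) (.e (nat_lit 90185) (nat_lit 17) (.e (nat_lit 237621) (nat_lit 13) (.e (nat_lit 483337) (nat_lit 9) (.e (nat_lit 426098) (nat_lit 1) (.e (nat_lit 164396) (nat_lit 256) .nil)))))) (.g (nat_lit 5) .nil .nil))))) (.nd (nat_lit 4) (.nd (nat_lit 5) 
(.lf (nat_lit 148172) (.g (nat_lit 1967) (.e (nat_lit 57375) (nat_lit 2) (.e (nat_lit 90185) (nat_lit 17) (.e (nat_lit 237605) (nat_lit 9) (.e (nat_lit 426566) (nat_lit 34) (.e (nat_lit 393233) (nat_lit 17) (.e (nat_lit 2399) (nat_lit 157) (.e (nat_lit 5941) (nat_lit 322) .nil))))))) (.g (nat_lit 4) .nil .nil))) 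
(.lf (nat_lit 148204) (.g (nat_lit 2812) (.e (nat_lit 57375) (nat_lit 2) (.e (nat_lit 90185) (nat_lit 17) (.e (nat_lit 237605) (nat_lit 9) (.e (nat_lit 426568) (nat_lit 34) (.e (nat_lit 393251) (nat_lit 18) (.e (nat_lit 164399) (nat_lit 256) .nil)))))) (.g (nat_lit 0) .nil .nil)))) (.nd (nat_lit 5) 
(.lf (nat_lit 148188) (.g (nat_lit 1825) (.e (nat_lit 57375) (nat_lit 2) (.e (nat_lit 90185) (nat_lit 17) (.e (nat_lit 237605) (nat_lit 9) (.e (nat_lit 426566) (nat_lit 34) (.e (nat_lit 393241) (nat_lit 17) (.e (nat_lit 2456) (nat_lit 157) (.e (nat_lit 5939) (nat_lit 322) .nil))))))) (.g (nat_lit 4) .nil .nil))) 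
(.lf (nat_lit 148220) (.g (nat_lit 1581) (.e (nat_lit 57375) (nat_lit 2) (.e (nat_lit 90185) (nat_lit 17) (.e (nat_lit 237621) (nat_lit 13) (.e (nat_lit 483341) (nat_lit 9) (.e (nat_lit 426029) (nat_lit 0) .nil))))) .nil)))))) (.nd (nat_lit 2) (.nd (nat_lit 3) (.nd (nat_lit 4) (.nd (nat_lit 5) 
(.lf (nat_lit 148162) (.g (nat_lit 1873) (.e (nat_lit 57375) (nat_lit 2) (.e (nat_lit 90185) (nat_lit 17) (.e (nat_lit 237605) (nat_lit 9) (.e (nat_lit 426566) (nat_lit 34) (.e (nat_lit 393231) (nat_lit 17) (.e (nat_lit 2459) (nat_lit 157) (.e (nat_lit 5939) (nat_lit 322) .nil))))))) (.g (nat_lit 4) .nil .nil))) 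
(.lf (nat_lit 148194) (.g (nat_lit 1849) (.e (nat_lit 57375) (nat_lit 2) (.e (nat_lit 90185) (nat_lit 17) (.e (nat_lit 237605) (nat_lit 9) (.e (nat_lit 426566) (nat_lit 34) (.e (nat_lit 393247) (nat_lit 17) (.e (nat_lit 2471) (nat_lit 157) (.e (nat_lit 5939) (nat_lit 322) .nil))))))) (.g (nat_lit 4) .nil .nil)))) (.nd (nat_lit 5) 
(.lf (nat_lit 148178) (.g (nat_lit 1896) (.e (nat_lit 57375) (nat_lit 2) (.e (nat_lit 90185) (nat_lit 17) (.e (nat_lit 237605) (nat_lit 9) (.e (nat_lit 426566) (nat_lit 34) (.e (nat_lit 393235) (nat_lit 17) (.e (nat_lit 2472) (nat_lit 157) (.e (nat_lit 5939) (nat_lit 322) .nil))))))) (.g (nat_lit 4) .nil .nil))) 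
(.lf (nat_lit 148210) (.g (nat_lit 2149) (.e (nat_lit 57375) (nat_lit 2) (.e (nat_lit 90185) (nat_lit 17) (.e (nat_lit 237621) (nat_lit 13) (.e (nat_lit 483337) (nat_lit 9) (.e (nat_lit 426031) (nat_lit 0) (.e (nat_lit 2466) (nat_lit 157) (.e (nat_lit 5937) (nat_lit 322) .nil))))))) (.g (nat_lit 4) .nil .nil))))) (.nd (nat_lit 4) (.nd (nat_lit 5) 
(.lf (nat_lit 148170) (.g (nat_lit 2193) (.e (nat_lit 57375) (nat_lit 2) (.e (nat_lit 90185) (nat_lit 17) (.e (nat_lit 237605) (nat_lit 9) (.e (nat_lit 426566) (nat_lit 34) (.e (nat_lit 393232) (nat_lit 17) (.e (nat_lit 2399) (nat_lit 157) (.e (nat_lit 5943) (nat_lit 322) .nil))))))) (.g (nat_lit 4) .nil .nil))) 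
(.lf (nat_lit 148202) (.g (nat_lit 1778) (.e (nat_lit 57375) (nat_lit 2) (.e (nat_lit 90185) (nat_lit 17) (.e (nat_lit 237605) (nat_lit 9) (.e (nat_lit 426566) (nat_lit 34) (.e (nat_lit 393254) (nat_lit 18) (.e (nat_lit 164396) (nat_lit 256) .nil)))))) (.g (nat_lit 4) .nil .nil)))) (.nd (nat_lit 5) 
(.lf (nat_lit 148186) (.g (nat_lit 1493) (.e (nat_lit 57375) (nat_lit 2) (.e (nat_lit 90185) (nat_lit 17) (.e (nat_lit 237605) (nat_lit 9) (.e (nat_lit 426566) (nat_lit 34) (.e (nat_lit 393240) (nat_lit 17) .nil))))) .nil)) 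
(.lf (nat_lit 148218) (.g (nat_lit 1923) (.e (nat_lit 57375) (nat_lit 2) (.e (nat_lit 90185) (nat_lit 17) (.e (nat_lit 237621) (nat_lit 13) (.e (nat_lit 483341) (nat_lit 9) (.e (nat_lit 426009) (nat_lit 0) (.e (nat_lit 2469) (nat_lit 157) (.e (nat_lit 5939) (nat_lit 322) .nil))))))) (.g (nat_lit 4) .nil .nil)))))) (.nd (nat_lit 3) (.nd (nat_lit 4) (.nd (nat_lit 5) 
(.lf (nat_lit 148166) (.g (nat_lit 1966) (.e (nat_lit 57375) (nat_lit 2) (.e (nat_lit 90185) (nat_lit 17) (.e (nat_lit 237605) (nat_lit 9) (.e (nat_lit 426566) (nat_lit 34) (.e (nat_lit 393231) (nat_lit 17) (.e (nat_lit 2472) (nat_lit 157) (.e (nat_lit 5939) (nat_lit 322) .nil))))))) (.g (nat_lit 4) .nil .nil))) 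
(.lf (nat_lit 148198) (.g (nat_lit 1882) (.e (nat_lit 57375) (nat_lit 2) (.e (nat_lit 90185) (nat_lit 17) (.e (nat_lit 237605) (nat_lit 9) (.e (nat_lit 426566) (nat_lit 34) (.e (nat_lit 393251) (nat_lit 18) (.e (nat_lit 164400) (nat_lit 256) .nil)))))) (.g (nat_lit 4) .nil .nil)))) (.nd (nat_lit 5) 
(.lf (nat_lit 148182) (.g (nat_lit 1605) (.e (nat_lit 57375) (nat_lit 2) (.e (nat_lit 90185) (nat_lit 17) (.e (nat_lit 237605) (nat_lit 9) (.e (nat_lit 426566) (nat_lit 34) (.e (nat_lit 393239) (nat_lit 17) .nil))))) .nil)) 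
(.lf (nat_lit 148214) (.g (nat_lit 2956) (.e (nat_lit 57375) (nat_lit 2) (.e (nat_lit 90185) (nat_lit 17) (.e (nat_lit 237621) (nat_lit 13) (.e (nat_lit 483337) (nat_lit 9) (.e (nat_lit 426107) (nat_lit 1) (.e (nat_lit 164396) (nat_lit 256) .nil)))))) (.g (nat_lit 6) .nil .nil))))) (.nd (nat_lit 4) (.nd (nat_lit 5) 
(.lf (nat_lit 148174) (.g (nat_lit 1605) (.e (nat_lit 57375) (nat_lit 2) (.e (nat_lit 90185) (nat_lit 17) (.e (nat_lit 237605) (nat_lit 9) (.e (nat_lit 426566) (nat_lit 34) (.e (nat_lit 393235) (nat_lit 17) .nil))))) .nil)) 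
(.lf (nat_lit 148206) (.g (nat_lit 2838) (.e (nat_lit 57375) (nat_lit 2) (.e (nat_lit 90185) (nat_lit 17) (.e (nat_lit 237605) (nat_lit 9) (.e (nat_lit 426568) (nat_lit 34) (.e (nat_lit 393252) (nat_lit 18) (.e (nat_lit 164399) (nat_lit 256) .nil)))))) (.g (nat_lit 0) .nil .nil)))) (.nd (nat_lit 5) 
(.lf (nat_lit 148190) (.g (nat_lit 1774) (.e (nat_lit 57375) (nat_lit 2) (.e (nat_lit 90185) (nat_lit 17) (.e (nat_lit 237605) (nat_lit 9) (.e (nat_lit 426566) (nat_lit 34) (.e (nat_lit 393241) (nat_lit 17) (.e (nat_lit 2472) (nat_lit 157) (.e (nat_lit 5939) (nat_lit 322) .nil))))))) (.g (nat_lit 4) .nil .nil))) 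
(.lf (nat_lit 148222) (.g (nat_lit 1747) (.e (nat_lit 57375) (nat_lit 2) (.e (nat_lit 90185) (nat_lit 17) (.e (nat_lit 237621) (nat_lit 13) (.e (nat_lit 483341) (nat_lit 9) (.e (nat_lit 426031) (nat_lit 0) .nil))))) .nil))))))) (.nd (nat_lit 1) (.nd (nat_lit 2) (.nd (nat_lit 3) (.nd (nat_lit 4) (.nd (nat_lit 5) 
(.lf (nat_lit 148161) (.g (nat_lit 1900) (.e (nat_lit 57375) (nat_lit 2) (.e (nat_lit 90185) (nat_lit 17) (.e (nat_lit 237605) (nat_lit 9) (.e (nat_lit 426566) (nat_lit 34) (.e (nat_lit 393231) (nat_lit 17) (.e (nat_lit 2457) (nat_lit 157) (.e (nat_lit 5939) (nat_lit 322) .nil))))))) (.g (nat_lit 4) .nil .nil))) 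
(.lf (nat_lit 148193) (.g (nat_lit 1874) (.e (nat_lit 57375) (nat_lit 2) (.e (nat_lit 90185) (nat_lit 17) (.e (nat_lit 237605) (nat_lit 9) (.e (nat_lit 426566) (nat_lit 34) (.e (nat_lit 393247) (nat_lit 17) (.e (nat_lit 2452) (nat_lit 157) (.e (nat_lit 5939) (nat_lit 322) .nil))))))) (.g (nat_lit 4) .nil .nil)))) (.nd (nat_lit 5) 
(.lf (nat_lit 148177) (.g (nat_lit 1739) (.e (nat_lit 57375) (nat_lit 2) (.e (nat_lit 90185) (nat_lit 17) (.e (nat_lit 237605) (nat_lit 9) (.e (nat_lit 426566) (nat_lit 34) (.e (nat_lit 393235) (nat_lit 17) (.e (nat_lit 2470) (nat_lit 157) (.e (nat_lit 5939) (nat_lit 322) .nil))))))) (.g (nat_lit 4) .nil .nil))) 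
(.lf (nat_lit 148209) (.g (nat_lit 1392) (.e (nat_lit 57375) (nat_lit 2) (.e (nat_lit 90185) (nat_lit 17) (.e (nat_lit 237621) (nat_lit 13) (.e (nat_lit 483337) (nat_lit 9) (.e (nat_lit 426030) (nat_lit 0) .nil))))) .nil)))) (.nd (nat_lit 4) (.nd (nat_lit 5) 
(.lf (nat_lit 148169) (.g (nat_lit 2648) (.e (nat_lit 57375) (nat_lit 2) (.e (nat_lit 90185) (nat_lit 17) (.e (nat_lit 237605) (nat_lit 9) (.e (nat_lit 426566) (nat_lit 34) (.e (nat_lit 393232) (nat_lit 17) (.e (nat_lit 2399) (nat_lit 157) (.e (nat_lit 5942) (nat_lit 322) .nil))))))) (.g (nat_lit 4) .nil .nil))) 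
(.lf (nat_lit 148201) (.g (nat_lit 3043) (.e (nat_lit 57375) (nat_lit 2) (.e (nat_lit 90185) (nat_lit 17) (.e (nat_lit 237605) (nat_lit 9) (.e (nat_lit 426566) (nat_lit 34) (.e (nat_lit 393252) (nat_lit 18) (.e (nat_lit 164400) (nat_lit 256) .nil)))))) (.g (nat_lit 0) .nil .nil)))) (.nd (nat_lit 5) 
(.lf (nat_lit 148185) (.g (nat_lit 1886) (.e (nat_lit 57375) (nat_lit 2) (.e (nat_lit 90185) (nat_lit 17) (.e (nat_lit 237605) (nat_lit 9) (.e (nat_lit 426566) (nat_lit 34) (.e (nat_lit 393239) (nat_lit 17) (.e (nat_lit 2470) (nat_lit 157) (.e (nat_lit 5939) (nat_lit 322) .nil))))))) (.g (nat_lit 4) .nil .nil))) 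
(.lf (nat_lit 148217) (.g (nat_lit 1951) (.e (nat_lit 57375) (nat_lit 2) (.e (nat_lit 90185) (nat_lit 17) (.e (nat_lit 237621) (nat_lit 13) (.e (nat_lit 483341) (nat_lit 9) (.e (nat_lit 426009) (nat_lit 0) (.e (nat_lit 2430) (nat_lit 157) (.e (nat_lit 5942) (nat_lit 322) .nil))))))) (.g (nat_lit 4) .nil .nil)))))) (.nd (nat_lit 3) (.nd (nat_lit 4) (.nd (nat_lit 5) 
(.lf (nat_lit 148165) (.g (nat_lit 1953) (.e (nat_lit 57375) (nat_lit 2) (.e (nat_lit 90185) (nat_lit 17) (.e (nat_lit 237605) (nat_lit 9) (.e (nat_lit 426566) (nat_lit 34) (.e (nat_lit 393231) (nat_lit 17) (.e (nat_lit 2470) (nat_lit 157) (.e (nat_lit 5939) (nat_lit 322) .nil))))))) (.g (nat_lit 4) .nil .nil))) 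
(.lf (nat_lit 148197) (.g (nat_lit 3105) (.e (nat_lit 57375) (nat_lit 2) (.e (nat_lit 90185) (nat_lit 17) (.e (nat_lit 237605) (nat_lit 9) (.e (nat_lit 426566) (nat_lit 34) (.e (nat_lit 393251) (nat_lit 18) (.e (nat_lit 164399) (nat_lit 256) .nil)))))) (.g (nat_lit 0) .nil .nil)))) (.nd (nat_lit 5) 
(.lf (nat_lit 148181) (.g (nat_lit 2001) (.e (nat_lit 57375) (nat_lit 2) (.e (nat_lit 90185) (nat_lit 17) (.e (nat_lit 237605) (nat_lit 9) (.e (nat_lit 426566) (nat_lit 34) (.e (nat_lit 393237) (nat_lit 17) (.e (nat_lit 2467) (nat_lit 157) (.e (nat_lit 5939) (nat_lit 322) .nil))))))) (.g (nat_lit 4) .nil .nil))) 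
(.lf (nat_lit 148213) (.g (nat_lit 2489) (.e (nat_lit 57375) (nat_lit 2) (.e (nat_lit 90185) (nat_lit 17) (.e (nat_lit 237621) (nat_lit 13) (.e (nat_lit 483337) (nat_lit 9) (.e (nat_lit 426099) (nat_lit 1) (.e (nat_lit 164399) (nat_lit 256) .nil)))))) (.g (nat_lit 6) .nil .nil))))) (.nd (nat_lit 4) (.nd (nat_lit 5) 
(.lf (nat_lit 148173) (.g (nat_lit 2758) (.e (nat_lit 57375) (nat_lit 2) (.e (nat_lit 90185) (nat_lit 17) (.e (nat_lit 237605) (nat_lit 9) (.e (nat_lit 426566) (nat_lit 34) (.e (nat_lit 393233) (nat_lit 17) (.e (nat_lit 2399) (nat_lit 157) (.e (nat_lit 5942) (nat_lit 322) .nil))))))) (.g (nat_lit 6) .nil .nil))) 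
(.lf (nat_lit 148205) (.g (nat_lit 1819) (.e (nat_lit 57375) (nat_lit 2) (.e (nat_lit 90185) (nat_lit 17) (.e (nat_lit 237605) (nat_lit 9) (.e (nat_lit 426568) (nat_lit 34) (.e (nat_lit 393252) (nat_lit 18) (.e (nat_lit 164396) (nat_lit 256) .nil)))))) (.g (nat_lit 4) .nil .nil)))) (.nd (nat_lit 5) 
(.lf (nat_lit 148189) (.g (nat_lit 1638) (.e (nat_lit 57375) (nat_lit 2) (.e (nat_lit 90185) (nat_lit 17) (.e (nat_lit 237605) (nat_lit 9) (.e (nat_lit 426566) (nat_lit 34) (.e (nat_lit 393241) (nat_lit 17) (.e (nat_lit 2467) (nat_lit 157) (.e (nat_lit 5939) (nat_lit 322) .nil))))))) (.g (nat_lit 4) .nil .nil))) 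
(.lf (nat_lit 148221) (.g (nat_lit 1611) (.e (nat_lit 57375) (nat_lit 2) (.e (nat_lit 90185) (nat_lit 17) (.e (nat_lit 237621) (nat_lit 13) (.e (nat_lit 483341) (nat_lit 9) (.e (nat_lit 426029) (nat_lit 0) (.e (nat_lit 2456) (nat_lit 157) (.e (nat_lit 5939) (nat_lit 322) .nil))))))) (.g (nat_lit 4) .nil .nil))))))) (.nd (nat_lit 2) (.nd (nat_lit 3) (.nd (nat_lit 4) (.nd (nat_lit 5) 
(.lf (nat_lit 148163) (.g (nat_lit 1751) (.e (nat_lit 57375) (nat_lit 2) (.e (nat_lit 90185) (nat_lit 17) (.e (nat_lit 237605) (nat_lit 9) (.e (nat_lit 426566) (nat_lit 34) (.e (nat_lit 393231) (nat_lit 17) (.e (nat_lit 2467) (nat_lit 157) (.e (nat_lit 5939) (nat_lit 322) .nil))))))) (.g (nat_lit 4) .nil .nil))) 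
(.lf (nat_lit 148195) (.g (nat_lit 1447) (.e (nat_lit 57375) (nat_lit 2) (.e (nat_lit 90185) (nat_lit 17) (.e (nat_lit 237605) (nat_lit 9) (.e (nat_lit 426566) (nat_lit 34) (.e (nat_lit 393250) (nat_lit 18) .nil))))) .nil))) (.nd (nat_lit 5) 
(.lf (nat_lit 148179) (.g (nat_lit 1526) (.e (nat_lit 57375) (nat_lit 2) (.e (nat_lit 90185) (nat_lit 17) (.e (nat_lit 237605) (nat_lit 9) (.e (nat_lit 426566) (nat_lit 34) (.e (nat_lit 393237) (nat_lit 17) .nil))))) .nil)) 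
(.lf (nat_lit 148211) (.g (nat_lit 1445) (.e (nat_lit 57375) (nat_lit 2) (.e (nat_lit 90185) (nat_lit 17) (.e (nat_lit 237621) (nat_lit 13) (.e (nat_lit 483337) (nat_lit 9) (.e (nat_lit 426035) (nat_lit 0) .nil))))) .nil)))) (.nd (nat_lit 4) (.nd (nat_lit 5) 
(.lf (nat_lit 148171) (.g (nat_lit 2221) (.e (nat_lit 57375) (nat_lit 2) (.e (nat_lit 90185) (nat_lit 17) (.e (nat_lit 237605) (nat_lit 9) (.e (nat_lit 426566) (nat_lit 34) (.e (nat_lit 393233) (nat_lit 17) (.e (nat_lit 2399) (nat_lit 157) (.e (nat_lit 5934) (nat_lit 322) .nil))))))) (.g (nat_lit 4) .nil .nil))) 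
(.lf (nat_lit 148203) (.g (nat_lit 1806) (.e (nat_lit 57375) (nat_lit 2) (.e (nat_lit 90185) (nat_lit 17) (.e (nat_lit 237605) (nat_lit 9) (.e (nat_lit 426566) (nat_lit 34) (.e (nat_lit 401152) (nat_lit 18) (.e (nat_lit 164399) (nat_lit 256) .nil)))))) (.g (nat_lit 4) .nil .nil)))) (.nd (nat_lit 5) 
(.lf (nat_lit 148187) (.g (nat_lit 1552) (.e (nat_lit 57375) (nat_lit 2) (.e (nat_lit 90185) (nat_lit 17) (.e (nat_lit 237605) (nat_lit 9) (.e (nat_lit 426566) (nat_lit 34) (.e (nat_lit 393241) (nat_lit 17) .nil))))) .nil)) 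
(.lf (nat_lit 148219) (.g (nat_lit 1393) (.e (nat_lit 57375) (nat_lit 2) (.e (nat_lit 90185) (nat_lit 17) (.e (nat_lit 237621) (nat_lit 13) (.e (nat_lit 483341) (nat_lit 9) (.e (nat_lit 426028) (nat_lit 0) .nil))))) .nil))))) (.nd (nat_lit 3) (.nd (nat_lit 4) (.nd (nat_lit 5) 
(.lf (nat_lit 148167) (.g (nat_lit 2053) (.e (nat_lit 57375) (nat_lit 2) (.e (nat_lit 90185) (nat_lit 17) (.e (nat_lit 237605) (nat_lit 9) (.e (nat_lit 426566) (nat_lit 34) (.e (nat_lit 393232) (nat_lit 17) (.e (nat_lit 2399) (nat_lit 157) (.e (nat_lit 5934) (nat_lit 322) .nil))))))) (.g (nat_lit 4) .nil .nil))) 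
(.lf (nat_lit 148199) (.g (nat_lit 2634) (.e (nat_lit 57375) (nat_lit 2) (.e (nat_lit 90185) (nat_lit 17) (.e (nat_lit 237605) (nat_lit 9) (.e (nat_lit 426566) (nat_lit 34) (.e (nat_lit 393252) (nat_lit 18) (.e (nat_lit 164396) (nat_lit 256) .nil)))))) (.g (nat_lit 6) .nil .nil)))) (.nd (nat_lit 5) 
(.lf (nat_lit 148183) (.g (nat_lit 1763) (.e (nat_lit 57375) (nat_lit 2) (.e (nat_lit 90185) (nat_lit 17) (.e (nat_lit 237605) (nat_lit 9) (.e (nat_lit 426566) (nat_lit 34) (.e (nat_lit 393239) (nat_lit 17) (.e (nat_lit 2466) (nat_lit 157) (.e (nat_lit 5939) (nat_lit 322) .nil))))))) (.g (nat_lit 4) .nil .nil))) 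
(.lf (nat_lit 148215) (.g (nat_lit 2577) (.e (nat_lit 57375) (nat_lit 2) (.e (nat_lit 90185) (nat_lit 17) (.e (nat_lit 237621) (nat_lit 13) (.e (nat_lit 483337) (nat_lit 9) (.e (nat_lit 426108) (nat_lit 1) (.e (nat_lit 164396) (nat_lit 256) .nil)))))) (.g (nat_lit 5) .nil .nil))))) (.nd (nat_lit 4) (.nd (nat_lit 5) 
(.lf (nat_lit 148175) (.g (nat_lit 1730) (.e (nat_lit 57375) (nat_lit 2) (.e (nat_lit 90185) (nat_lit 17) (.e (nat_lit 237605) (nat_lit 9) (.e (nat_lit 426566) (nat_lit 34) (.e (nat_lit 393235) (nat_lit 17) (.e (nat_lit 2416) (nat_lit 157) (.e (nat_lit 5939) (nat_lit 322) .nil))))))) (.g (nat_lit 4) .nil .nil))) 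
(.lf (nat_lit 148207) (.g (nat_lit 881) (.e (nat_lit 57375) (nat_lit 2) (.e (nat_lit 90185) (nat_lit 17) (.e (nat_lit 237620) (nat_lit 13) .nil))) .nil))) (.nd (nat_lit 5) 
(.lf (nat_lit 148191) (.g (nat_lit 1791) (.e (nat_lit 57375) (nat_lit 2) (.e (nat_lit 90185) (nat_lit 17) (.e (nat_lit 237605) (nat_lit 9) (.e (nat_lit 426566) (nat_lit 34) (.e (nat_lit 393241) (nat_lit 17) (.e (nat_lit 2473) (nat_lit 157) (.e (nat_lit 5939) (nat_lit 322) .nil))))))) (.g (nat_lit 4) .nil .nil))) 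
(.lf (nat_lit 148223) (.g (nat_lit 2308) (.e (nat_lit 57375) (nat_lit 2) (.e (nat_lit 90185) (nat_lit 17) (.e (nat_lit 237621) (nat_lit 13) (.e (nat_lit 483341) (nat_lit 9) (.e (nat_lit 426031) (nat_lit 0) (.e (nat_lit 2466) (nat_lit 157) (.e (nat_lit 5937) (nat_lit 322) .nil))))))) (.g (nat_lit 4) .nil .nil)))))))))

noncomputable def tv1972 : DT := (.nd (nat_lit 0) (.nd (nat_lit 1) (.nd (nat_lit 2) (.nd (nat_lit 3) (.nd (nat_lit 4) (.nd (nat_lit 5) 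
(.lf (nat_lit 148224) (.g (nat_lit 2165) (.e (nat_lit 57375) (nat_lit 2) (.e (nat_lit 90185) (nat_lit 17) (.e (nat_lit 237621) (nat_lit 13) (.e (nat_lit 483341) (nat_lit 9) (.e (nat_lit 426031) (nat_lit 0) (.e (nat_lit 2466) (nat_lit 157) (.e (nat_lit 5939) (nat_lit 322) .nil))))))) (.g (nat_lit 4) .nil .nil))) 
(.lf (nat_lit 148256) (.g (nat_lit 2168) (.e (nat_lit 57376) (nat_lit 3) (.e (nat_lit 98341) (nat_lit 20) (.e (nat_lit 221210) (nat_lit 22) (.e (nat_lit 196670) (nat_lit 14) (.e (nat_lit 73746) (nat_lit 3) .nil))))) .nil))) (.nd (nat_lit 5) 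
(.lf (nat_lit 148240) (.g (nat_lit 2288) (.e (nat_lit 57375) (nat_lit 2) (.e (nat_lit 90185) (nat_lit 17) (.e (nat_lit 237624) (nat_lit 13) (.e (nat_lit 483341) (nat_lit 9) (.e (nat_lit 426031) (nat_lit 0) (.e (nat_lit 2466) (nat_lit 157) (.e (nat_lit 5937) (nat_lit 322) .nil))))))) (.g (nat_lit 4) .nil .nil))) 
(.lf (nat_lit 148272) (.g (nat_lit 3340) (.e (nat_lit 57376) (nat_lit 3) (.e (nat_lit 98342) (nat_lit 20) (.e (nat_lit 221210) (nat_lit 22) (.e (nat_lit 196668) (nat_lit 14) (.e (nat_lit 73746) (nat_lit 3) (.e (nat_lit 516120) (nat_lit 1) (.e (nat_lit 164183) (nat_lit 154) .nil))))))) (.g (nat_lit 5) .nil .nil))))) (.nd (nat_lit 4) (.nd (nat_lit 5) 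
(.lf (nat_lit 148232) (.g (nat_lit 2314) (.e (nat_lit 57375) (nat_lit 2) (.e (nat_lit 90185) (nat_lit 17) (.e (nat_lit 237624) (nat_lit 13) (.e (nat_lit 483337) (nat_lit 9) (.e (nat_lit 426098) (nat_lit 1) (.e (nat_lit 164396) (nat_lit 256) .nil)))))) (.g (nat_lit 5) .nil .nil))) 
(.lf (nat_lit 148264) (.g (nat_lit 1757) (.e (nat_lit 57376) (nat_lit 3) (.e (nat_lit 98341) (nat_lit 20) (.e (nat_lit 221212) (nat_lit 22) (.e (nat_lit 196670) (nat_lit 14) (.e (nat_lit 73746) (nat_lit 3) .nil))))) .nil))) (.nd (nat_lit 5) 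
(.lf (nat_lit 148248) (.g (nat_lit 600) (.e (nat_lit 57376) (nat_lit 3) (.e (nat_lit 98317) (nat_lit 9) (.e (nat_lit 336215) (nat_lit 13) .nil))) .nil)) 
(.lf (nat_lit 148280) (.g (nat_lit 2421) (.e (nat_lit 57376) (nat_lit 3) (.e (nat_lit 98342) (nat_lit 20) (.e (nat_lit 221210) (nat_lit 22) (.e (nat_lit 196670) (nat_lit 14) (.e (nat_lit 73746) (nat_lit 3) (.e (nat_lit 516118) (nat_lit 1) (.e (nat_lit 164183) (nat_lit 154) .nil))))))) (.g (nat_lit 4) .nil .nil)))))) (.nd (nat_lit 3) (.nd (nat_lit 4) (.nd (nat_lit 5) 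
(.lf (nat_lit 148228) (.g (nat_lit 352) (.e (nat_lit 57375) (nat_lit 2) (.e (nat_lit 90185) (nat_lit 17) (.e (nat_lit 237624) (nat_lit 13) .nil))) .nil)) 
(.lf (nat_lit 148260) (.g (nat_lit 2207) (.e (nat_lit 57376) (nat_lit 3) (.e (nat_lit 98341) (nat_lit 20) (.e (nat_lit 221210) (nat_lit 22) (.e (nat_lit 196670) (nat_lit 14) (.e (nat_lit 73746) (nat_lit 3) (.e (nat_lit 516119) (nat_lit 1) (.e (nat_lit 164178) (nat_lit 154) .nil))))))) (.g (nat_lit 4) .nil .nil)))) (.nd (nat_lit 5) 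
(.lf (nat_lit 148244) (.g (nat_lit 1847) (.e (nat_lit 57376) (nat_lit 3) (.e (nat_lit 98317) (nat_lit 9) (.e (nat_lit 336078) (nat_lit 9) (.e (nat_lit 336454) (nat_lit 34) (.e (nat_lit 483365) (nat_lit 18) .nil))))) .nil)) 
(.lf (nat_lit 148276) (.g (nat_lit 2465) (.e (nat_lit 57376) (nat_lit 3) (.e (nat_lit 98342) (nat_lit 20) (.e (nat_lit 221210) (nat_lit 22) (.e (nat_lit 196668) (nat_lit 14) (.e (nat_lit 73747) (nat_lit 3) (.e (nat_lit 516117) (nat_lit 1) (.e (nat_lit 164183) (nat_lit 154) .nil))))))) (.g (nat_lit 4) .nil .nil))))) (.nd (nat_lit 4) (.nd (nat_lit 5) 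
(.lf (nat_lit 148236) (.g (nat_lit 1931) (.e (nat_lit 57375) (nat_lit 2) (.e (nat_lit 90185) (nat_lit 17) (.e (nat_lit 237624) (nat_lit 13) (.e (nat_lit 483341) (nat_lit 9) (.e (nat_lit 426009) (nat_lit 0) (.e (nat_lit 2430) (nat_lit 157) (.e (nat_lit 5942) (nat_lit 322) .nil))))))) (.g (nat_lit 4) .nil .nil))) 
(.lf (nat_lit 148268) (.g (nat_lit 2737) (.e (nat_lit 57376) (nat_lit 3) (.e (nat_lit 98342) (nat_lit 20) (.e (nat_lit 221210) (nat_lit 22) (.e (nat_lit 196666) (nat_lit 13) (.e (nat_lit 65569) (nat_lit 3) .nil))))) .nil))) (.nd (nat_lit 5) 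
(.lf (nat_lit 148252) (.g (nat_lit 2464) (.e (nat_lit 57376) (nat_lit 3) (.e (nat_lit 98341) (nat_lit 20) (.e (nat_lit 221210) (nat_lit 22) (.e (nat_lit 196668) (nat_lit 14) (.e (nat_lit 73746) (nat_lit 3) .nil))))) .nil)) 
(.lf (nat_lit 148284) (.g (nat_lit 1076) (.e (nat_lit 57376) (nat_lit 3) (.e (nat_lit 98342) (nat_lit 20) (.e (nat_lit 221212) (nat_lit 22) (.e (nat_lit 196632) (nat_lit 9) .nil)))) .nil)))))) (.nd (nat_lit 2) (.nd (nat_lit 3) (.nd (nat_lit 4) (.nd (nat_lit 5) 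
(.lf (nat_lit 148226) (.g (nat_lit 2387) (.e (nat_lit 57375) (nat_lit 2) (.e (nat_lit 90185) (nat_lit 17) (.e (nat_lit 237621) (nat_lit 13) (.e (nat_lit 483341) (nat_lit 9) (.e (nat_lit 426145) (nat_lit 4) (.e (nat_lit 229707) (nat_lit 256) .nil)))))) (.g (nat_lit 4) .nil .nil))) 
(.lf (nat_lit 148258) (.g (nat_lit 2247) (.e (nat_lit 57376) (nat_lit 3) (.e (nat_lit 98341) (nat_lit 20) (.e (nat_lit 221210) (nat_lit 22) (.e (nat_lit 196670) (nat_lit 14) (.e (nat_lit 73746) (nat_lit 3) (.e (nat_lit 516117) (nat_lit 1) (.e (nat_lit 164182) (nat_lit 154) .nil))))))) (.g (nat_lit 4) .nil .nil)))) (.nd (nat_lit 5) 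
(.lf (nat_lit 148242) (.g (nat_lit 2367) (.e (nat_lit 57375) (nat_lit 2) (.e (nat_lit 90185) (nat_lit 17) (.e (nat_lit 237624) (nat_lit 13) (.e (nat_lit 483341) (nat_lit 9) (.e (nat_lit 426145) (nat_lit 4) (.e (nat_lit 229707) (nat_lit 256) .nil)))))) (.g (nat_lit 4) .nil .nil))) 
(.lf (nat_lit 148274) (.g (nat_lit 2484) (.e (nat_lit 57376) (nat_lit 3) (.e (nat_lit 98342) (nat_lit 20) (.e (nat_lit 221210) (nat_lit 22) (.e (nat_lit 196668) (nat_lit 14) (.e (nat_lit 73747) (nat_lit 3) (.e (nat_lit 516117) (nat_lit 1) (.e (nat_lit 164180) (nat_lit 154) .nil))))))) (.g (nat_lit 4) .nil .nil))))) (.nd (nat_lit 4) (.nd (nat_lit 5) 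
(.lf (nat_lit 148234) (.g (nat_lit 2405) (.e (nat_lit 57375) (nat_lit 2) (.e (nat_lit 90185) (nat_lit 17) (.e (nat_lit 237624) (nat_lit 13) (.e (nat_lit 483337) (nat_lit 9) (.e (nat_lit 426108) (nat_lit 1) (.e (nat_lit 164396) (nat_lit 256) .nil)))))) (.g (nat_lit 5) .nil .nil))) 
(.lf (nat_lit 148266) (.g (nat_lit 2099) (.e (nat_lit 57376) (nat_lit 3) (.e (nat_lit 98341) (nat_lit 20) (.e (nat_lit 221215) (nat_lit 23) (.e (nat_lit 204862) (nat_lit 27) (.e (nat_lit 344117) (nat_lit 21) .nil))))) .nil))) (.nd (nat_lit 5) 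
(.lf (nat_lit 148250) (.g (nat_lit 2197) (.e (nat_lit 57376) (nat_lit 3) (.e (nat_lit 98341) (nat_lit 20) (.e (nat_lit 221210) (nat_lit 22) (.e (nat_lit 196665) (nat_lit 13) (.e (nat_lit 65637) (nat_lit 15) .nil))))) .nil)) 
(.lf (nat_lit 148282) (.g (nat_lit 3059) (.e (nat_lit 57376) (nat_lit 3) (.e (nat_lit 98342) (nat_lit 20) (.e (nat_lit 221211) (nat_lit 22) (.e (nat_lit 196666) (nat_lit 13) (.e (nat_lit 65569) (nat_lit 3) (.e (nat_lit 98333) (nat_lit 18) (.e (nat_lit 164182) (nat_lit 154) .nil))))))) (.g (nat_lit 5) .nil .nil)))))) (.nd (nat_lit 3) (.nd (nat_lit 4) (.nd (nat_lit 5) 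
(.lf (nat_lit 148230) (.g (nat_lit 2102) (.e (nat_lit 57375) (nat_lit 2) (.e (nat_lit 90185) (nat_lit 17) (.e (nat_lit 237624) (nat_lit 13) (.e (nat_lit 483337) (nat_lit 9) (.e (nat_lit 426031) (nat_lit 0) (.e (nat_lit 2466) (nat_lit 157) (.e (nat_lit 5937) (nat_lit 322) .nil))))))) (.g (nat_lit 4) .nil .nil))) 
(.lf (nat_lit 148262) (.g (nat_lit 2059) (.e (nat_lit 57376) (nat_lit 3) (.e (nat_lit 98341) (nat_lit 20) (.e (nat_lit 221212) (nat_lit 22) (.e (nat_lit 196668) (nat_lit 14) (.e (nat_lit 73747) (nat_lit 3) (.e (nat_lit 516115) (nat_lit 1) (.e (nat_lit 164182) (nat_lit 154) .nil))))))) (.g (nat_lit 4) .nil .nil)))) (.nd (nat_lit 5) 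
(.lf (nat_lit 148246) (.g (nat_lit 1899) (.e (nat_lit 57376) (nat_lit 3) (.e (nat_lit 98317) (nat_lit 9) (.e (nat_lit 336213) (nat_lit 13) (.e (nat_lit 393229) (nat_lit 9) .nil)))) .nil)) 
(.lf (nat_lit 148278) (.g (nat_lit 2334) (.e (nat_lit 57376) (nat_lit 3) (.e (nat_lit 98342) (nat_lit 20) (.e (nat_lit 221210) (nat_lit 22) (.e (nat_lit 196670) (nat_lit 14) (.e (nat_lit 73746) (nat_lit 3) .nil))))) .nil)))) (.nd (nat_lit 4) (.nd (nat_lit 5) 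
(.lf (nat_lit 148238) (.g (nat_lit 1359) (.e (nat_lit 57375) (nat_lit 2) (.e (nat_lit 90185) (nat_lit 17) (.e (nat_lit 237624) (nat_lit 13) (.e (nat_lit 483341) (nat_lit 9) (.e (nat_lit 426028) (nat_lit 0) .nil))))) .nil)) 
(.lf (nat_lit 148270) (.g (nat_lit 2538) (.e (nat_lit 57376) (nat_lit 3) (.e (nat_lit 98342) (nat_lit 20) (.e (nat_lit 221210) (nat_lit 22) (.e (nat_lit 196666) (nat_lit 13) (.e (nat_lit 65571) (nat_lit 3) (.e (nat_lit 98333) (nat_lit 18) (.e (nat_lit 164179) (nat_lit 154) .nil))))))) (.g (nat_lit 4) .nil .nil)))) (.nd (nat_lit 5) 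
(.lf (nat_lit 148254) (.g (nat_lit 2217) (.e (nat_lit 57376) (nat_lit 3) (.e (nat_lit 98341) (nat_lit 20) (.e (nat_lit 221210) (nat_lit 22) (.e (nat_lit 196668) (nat_lit 14) (.e (nat_lit 73747) (nat_lit 3) (.e (nat_lit 516117) (nat_lit 1) (.e (nat_lit 164181) (nat_lit 154) .nil))))))) (.g (nat_lit 4) .nil .nil))) 
(.lf (nat_lit 148286) (.g (nat_lit 3018) (.e (nat_lit 57376) (nat_lit 3) (.e (nat_lit 98342) (nat_lit 20) (.e (nat_lit 221212) (nat_lit 22) (.e (nat_lit 196668) (nat_lit 14) (.e (nat_lit 73747) (nat_lit 3) (.e (nat_lit 516115) (nat_lit 1) (.e (nat_lit 164177) (nat_lit 154) .nil))))))) (.g (nat_lit 6) .nil .nil)))))))) 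
(.nd (nat_lit 1) (.nd (nat_lit 2) (.nd (nat_lit 3) (.nd (nat_lit 4) (.nd (nat_lit 5) 
(.lf (nat_lit 148225) (.g (nat_lit 1732) (.e (nat_lit 57375) (nat_lit 2) (.e (nat_lit 90185) (nat_lit 17) (.e (nat_lit 237621) (nat_lit 13) (.e (nat_lit 483341) (nat_lit 9) (.e (nat_lit 426106) (nat_lit 1) (.e (nat_lit 164396) (nat_lit 256) .nil)))))) (.g (nat_lit 4) .nil .nil))) 
(.lf (nat_lit 148257) (.g (nat_lit 2774) (.e (nat_lit 57376) (nat_lit 3) (.e (nat_lit 98341) (nat_lit 20) (.e (nat_lit 221210) (nat_lit 22) (.e (nat_lit 196670) (nat_lit 14) (.e (nat_lit 73746) (nat_lit 3) (.e (nat_lit 516115) (nat_lit 1) (.e (nat_lit 164183) (nat_lit 154) .nil))))))) (.g (nat_lit 5) .nil .nil)))) (.nd (nat_lit 5) 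
(.lf (nat_lit 148241) (.g (nat_lit 1703) (.e (nat_lit 57375) (nat_lit 2) (.e (nat_lit 90185) (nat_lit 17) (.e (nat_lit 237624) (nat_lit 13) (.e (nat_lit 483341) (nat_lit 9) (.e (nat_lit 426106) (nat_lit 1) (.e (nat_lit 164396) (nat_lit 256) .nil)))))) (.g (nat_lit 5) .nil .nil))) 
(.lf (nat_lit 148273) (.g (nat_lit 2461) (.e (nat_lit 57376) (nat_lit 3) (.e (nat_lit 98342) (nat_lit 20) (.e (nat_lit 221210) (nat_lit 22) (.e (nat_lit 196668) (nat_lit 14) (.e (nat_lit 73747) (nat_lit 3) .nil))))) .nil)))) (.nd (nat_lit 4) (.nd (nat_lit 5) 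
(.lf (nat_lit 148233) (.g (nat_lit 2422) (.e (nat_lit 57375) (nat_lit 2) (.e (nat_lit 90185) (nat_lit 17) (.e (nat_lit 237624) (nat_lit 13) (.e (nat_lit 483337) (nat_lit 9) (.e (nat_lit 426099) (nat_lit 1) (.e (nat_lit 164399) (nat_lit 256) .nil)))))) (.g (nat_lit 6) .nil .nil))) 
(.lf (nat_lit 148265) (.g (nat_lit 2222) (.e (nat_lit 57376) (nat_lit 3) (.e (nat_lit 98341) (nat_lit 20) (.e (nat_lit 221215) (nat_lit 23) (.e (nat_lit 204861) (nat_lit 26) (.e (nat_lit 336021) (nat_lit 3) .nil))))) .nil))) (.nd (nat_lit 5) 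
(.lf (nat_lit 148249) (.g (nat_lit 827) (.e (nat_lit 57376) (nat_lit 3) (.e (nat_lit 98317) (nat_lit 9) (.e (nat_lit 336222) (nat_lit 13) .nil))) .nil)) 
(.lf (nat_lit 148281) (.g (nat_lit 1716) (.e (nat_lit 57376) (nat_lit 3) (.e (nat_lit 98342) (nat_lit 20) (.e (nat_lit 221210) (nat_lit 22) (.e (nat_lit 196681) (nat_lit 17) .nil)))) .nil))))) (.nd (nat_lit 3) (.nd (nat_lit 4) (.nd (nat_lit 5) 
(.lf (nat_lit 148229) (.g (nat_lit 1325) (.e (nat_lit 57375) (nat_lit 2) (.e (nat_lit 90185) (nat_lit 17) (.e (nat_lit 237624) (nat_lit 13) (.e (nat_lit 483337) (nat_lit 9) (.e (nat_lit 426030) (nat_lit 0) .nil))))) .nil)) 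
(.lf (nat_lit 148261) (.g (nat_lit 1978) (.e (nat_lit 57376) (nat_lit 3) (.e (nat_lit 98341) (nat_lit 20) (.e (nat_lit 221212) (nat_lit 22) (.e (nat_lit 196668) (nat_lit 14) (.e (nat_lit 73747) (nat_lit 3) .nil))))) .nil))) (.nd (nat_lit 5) 
(.lf (nat_lit 148245) (.g (nat_lit 2281) (.e (nat_lit 57376) (nat_lit 3) (.e (nat_lit 98317) (nat_lit 9) (.e (nat_lit 336213) (nat_lit 13) (.e (nat_lit 393225) (nat_lit 9) .nil)))) .nil)) 
(.lf (nat_lit 148277) (.g (nat_lit 3096) (.e (nat_lit 57376) (nat_lit 3) (.e (nat_lit 98342) (nat_lit 20) (.e (nat_lit 221210) (nat_lit 22) (.e (nat_lit 196668) (nat_lit 14) (.e (nat_lit 73747) (nat_lit 3) (.e (nat_lit 516120) (nat_lit 1) (.e (nat_lit 164183) (nat_lit 154) .nil))))))) (.g (nat_lit 5) .nil .nil))))) (.nd (nat_lit 4) (.nd (nat_lit 5) 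
(.lf (nat_lit 148237) (.g (nat_lit 1850) (.e (nat_lit 57375) (nat_lit 2) (.e (nat_lit 90185) (nat_lit 17) (.e (nat_lit 237624) (nat_lit 13) (.e (nat_lit 483341) (nat_lit 9) (.e (nat_lit 426009) (nat_lit 0) (.e (nat_lit 2469) (nat_lit 157) (.e (nat_lit 5939) (nat_lit 322) .nil))))))) (.g (nat_lit 4) .nil .nil))) 
(.lf (nat_lit 148269) (.g (nat_lit 2738) (.e (nat_lit 57376) (nat_lit 3) (.e (nat_lit 98342) (nat_lit 20) (.e (nat_lit 221210) (nat_lit 22) (.e (nat_lit 196666) (nat_lit 13) (.e (nat_lit 65569) (nat_lit 3) (.e (nat_lit 98333) (nat_lit 18) (.e (nat_lit 164179) (nat_lit 154) .nil))))))) (.g (nat_lit 4) .nil .nil)))) (.nd (nat_lit 5) 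
(.lf (nat_lit 148253) (.g (nat_lit 2212) (.e (nat_lit 57376) (nat_lit 3) (.e (nat_lit 98341) (nat_lit 20) (.e (nat_lit 221210) (nat_lit 22) (.e (nat_lit 196668) (nat_lit 14) (.e (nat_lit 73747) (nat_lit 3) .nil))))) .nil)) 
(.lf (nat_lit 148285) (.g (nat_lit 1615) (.e (nat_lit 57376) (nat_lit 3) (.e (nat_lit 98342) (nat_lit 20) (.e (nat_lit 221212) (nat_lit 22) (.e (nat_lit 196668) (nat_lit 14) (.e (nat_lit 73747) (nat_lit 3) .nil))))) .nil)))))) (.nd (nat_lit 2) (.nd (nat_lit 3) (.nd (nat_lit 4) (.nd (nat_lit 5) 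
(.lf (nat_lit 148227) (.g (nat_lit 832) (.e (nat_lit 57375) (nat_lit 2) (.e (nat_lit 90185) (nat_lit 17) (.e (nat_lit 237623) (nat_lit 13) .nil))) .nil)) 
(.lf (nat_lit 148259) (.g (nat_lit 2242) (.e (nat_lit 57376) (nat_lit 3) (.e (nat_lit 98341) (nat_lit 20) (.e (nat_lit 221210) (nat_lit 22) (.e (nat_lit 196670) (nat_lit 14) (.e (nat_lit 73746) (nat_lit 3) (.e (nat_lit 516119) (nat_lit 1) (.e (nat_lit 164176) (nat_lit 154) .nil))))))) (.g (nat_lit 4) .nil .nil)))) (.nd (nat_lit 5) 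
(.lf (nat_lit 148243) (.g (nat_lit 1744) (.e (nat_lit 57376) (nat_lit 3) (.e (nat_lit 98317) (nat_lit 9) (.e (nat_lit 336076) (nat_lit 9) (.e (nat_lit 336454) (nat_lit 34) .nil)))) .nil)) 
(.lf (nat_lit 148275) (.g (nat_lit 2550) (.e (nat_lit 57376) (nat_lit 3) (.e (nat_lit 98342) (nat_lit 20) (.e (nat_lit 221210) (nat_lit 22) (.e (nat_lit 196668) (nat_lit 14) (.e (nat_lit 73747) (nat_lit 3) (.e (nat_lit 516117) (nat_lit 1) (.e (nat_lit 164182) (nat_lit 154) .nil))))))) (.g (nat_lit 4) .nil .nil))))) (.nd (nat_lit 4) (.nd (nat_lit 5) 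
(.lf (nat_lit 148235) (.g (nat_lit 1620) (.e (nat_lit 57375) (nat_lit 2) (.e (nat_lit 90185) (nat_lit 17) (.e (nat_lit 237624) (nat_lit 13) (.e (nat_lit 483341) (nat_lit 9) (.e (nat_lit 426009) (nat_lit 0) .nil))))) .nil)) 
(.lf (nat_lit 148267) (.g (nat_lit 2164) (.e (nat_lit 57376) (nat_lit 3) (.e (nat_lit 98342) (nat_lit 20) (.e (nat_lit 221210) (nat_lit 22) (.e (nat_lit 196665) (nat_lit 13) (.e (nat_lit 73472) (nat_lit 18) .nil))))) .nil))) (.nd (nat_lit 5) 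
(.lf (nat_lit 148251) (.g (nat_lit 2337) (.e (nat_lit 57376) (nat_lit 3) (.e (nat_lit 98341) (nat_lit 20) (.e (nat_lit 221210) (nat_lit 22) (.e (nat_lit 196666) (nat_lit 13) (.e (nat_lit 65571) (nat_lit 3) .nil))))) .nil)) 
(.lf (nat_lit 148283) (.g (nat_lit 3361) (.e (nat_lit 57376) (nat_lit 3) (.e (nat_lit 98342) (nat_lit 20) (.e (nat_lit 221211) (nat_lit 22) (.e (nat_lit 196666) (nat_lit 13) (.e (nat_lit 65571) (nat_lit 3) (.e (nat_lit 98334) (nat_lit 18) (.e (nat_lit 164182) (nat_lit 154) .nil))))))) (.g (nat_lit 6) .nil .nil)))))) (.nd (nat_lit 3) (.nd (nat_lit 4) (.nd (nat_lit 5) 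
(.lf (nat_lit 148231) (.g (nat_lit 1378) (.e (nat_lit 57375) (nat_lit 2) (.e (nat_lit 90185) (nat_lit 17) (.e (nat_lit 237624) (nat_lit 13) (.e (nat_lit 483337) (nat_lit 9) (.e (nat_lit 426035) (nat_lit 0) .nil))))) .nil)) 
(.lf (nat_lit 148263) (.g (nat_lit 2054) (.e (nat_lit 57376) (nat_lit 3) (.e (nat_lit 98341) (nat_lit 20) (.e (nat_lit 221212) (nat_lit 22) (.e (nat_lit 196668) (nat_lit 14) (.e (nat_lit 73747) (nat_lit 3) (.e (nat_lit 516115) (nat_lit 1) (.e (nat_lit 164183) (nat_lit 154) .nil))))))) (.g (nat_lit 4) .nil .nil)))) (.nd (nat_lit 5) 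
(.lf (nat_lit 148247) (.g (nat_lit 2386) (.e (nat_lit 57376) (nat_lit 3) (.e (nat_lit 98317) (nat_lit 9) (.e (nat_lit 336213) (nat_lit 13) (.e (nat_lit 393229) (nat_lit 9) (.e (nat_lit 335995) (nat_lit 1) .nil))))) .nil)) 
(.lf (nat_lit 148279) (.g (nat_lit 3133) (.e (nat_lit 57376) (nat_lit 3) (.e (nat_lit 98342) (nat_lit 20) (.e (nat_lit 221210) (nat_lit 22) (.e (nat_lit 196670) (nat_lit 14) (.e (nat_lit 73746) (nat_lit 3) (.e (nat_lit 516117) (nat_lit 1) (.e (nat_lit 164183) (nat_lit 154) .nil))))))) (.g (nat_lit 5) .nil .nil))))) (.nd (nat_lit 4) (.nd (nat_lit 5) 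
(.lf (nat_lit 148239) (.g (nat_lit 1547) (.e (nat_lit 57375) (nat_lit 2) (.e (nat_lit 90185) (nat_lit 17) (.e (nat_lit 237624) (nat_lit 13) (.e (nat_lit 483341) (nat_lit 9) (.e (nat_lit 426029) (nat_lit 0) .nil))))) .nil)) 
(.lf (nat_lit 148271) (.g (nat_lit 2686) (.e (nat_lit 57376) (nat_lit 3) (.e (nat_lit 98342) (nat_lit 20) (.e (nat_lit 221210) (nat_lit 22) (.e (nat_lit 196668) (nat_lit 14) (.e (nat_lit 73746) (nat_lit 3) .nil))))) .nil))) (.nd (nat_lit 5) 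
(.lf (nat_lit 148255) (.g (nat_lit 2219) (.e (nat_lit 57376) (nat_lit 3) (.e (nat_lit 98341) (nat_lit 20) (.e (nat_lit 221210) (nat_lit 22) (.e (nat_lit 196668) (nat_lit 14) (.e (nat_lit 73747) (nat_lit 3) (.e (nat_lit 516119) (nat_lit 1) (.e (nat_lit 164180) (nat_lit 154) .nil))))))) (.g (nat_lit 4) .nil .nil))) 
(.lf (nat_lit 148287) (.g (nat_lit 4513) (.e (nat_lit 57376) (nat_lit 3) (.e (nat_lit 98342) (nat_lit 20) (.e (nat_lit 221212) (nat_lit 22) (.e (nat_lit 196668) (nat_lit 14) (.e (nat_lit 73747) (nat_lit 3) (.e (nat_lit 516115) (nat_lit 1) (.e (nat_lit 164179) (nat_lit 154) .nil))))))) (.g (nat_lit 0) .nil .nil)))))))))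

noncomputable def tv1973 : DT := (.nd (nat_lit 0) (.nd (nat_lit 1) (.nd (nat_lit 2) (.nd (nat_lit 3) (.nd (nat_lit 4) (.nd (nat_lit 5) 
(.lf (nat_lit 148288) (.g (nat_lit 3904) (.e (nat_lit 57376) (nat_lit 3) (.e (nat_lit 98342) (nat_lit 20) (.e (nat_lit 221212) (nat_lit 22) (.e (nat_lit 196668) (nat_lit 14) (.e (nat_lit 73747) (nat_lit 3) (.e (nat_lit 516115) (nat_lit 1) (.e (nat_lit 164182) (nat_lit 154) .nil))))))) (.g (nat_lit 0) .nil .nil))) 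
(.lf (nat_lit 148320) (.g (nat_lit 2251) (.e (nat_lit 57376) (nat_lit 3) (.e (nat_lit 98342) (nat_lit 20) (.e (nat_lit 221215) (nat_lit 23) (.e (nat_lit 204863) (nat_lit 27) (.e (nat_lit 344120) (nat_lit 21) .nil))))) .nil))) (.nd (nat_lit 5) 
(.lf (nat_lit 148304) (.g (nat_lit 2272) (.e (nat_lit 57376) (nat_lit 3) (.e (nat_lit 98342) (nat_lit 20) (.e (nat_lit 221214) (nat_lit 23) (.e (nat_lit 204861) (nat_lit 26) (.e (nat_lit 336021) (nat_lit 3) .nil))))) .nil)) 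
(.lf (nat_lit 148336) (.g (nat_lit 1185) (.e (nat_lit 57376) (nat_lit 3) (.e (nat_lit 98370) (nat_lit 28) (.e (nat_lit 442390) (nat_lit 11) (.e (nat_lit 336387) (nat_lit 27) .nil)))) .nil)))) (.nd (nat_lit 4) (.nd (nat_lit 5) 
(.lf (nat_lit 148296) (.g (nat_lit 3557) (.e (nat_lit 57376) (nat_lit 3) (.e (nat_lit 98342) (nat_lit 20) (.e (nat_lit 221212) (nat_lit 22) (.e (nat_lit 196670) (nat_lit 14) (.e (nat_lit 73746) (nat_lit 3) (.e (nat_lit 516117) (nat_lit 1) (.e (nat_lit 164180) (nat_lit 154) .nil))))))) (.g (nat_lit 7) .nil .nil))) 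
(.lf (nat_lit 148328) (.g (nat_lit 1944) (.e (nat_lit 57376) (nat_lit 3) (.e (nat_lit 98365) (nat_lit 26) (.e (nat_lit 426325) (nat_lit 13) (.e (nat_lit 483341) (nat_lit 9) .nil)))) .nil))) (.nd (nat_lit 5) 
(.lf (nat_lit 148312) (.g (nat_lit 2346) (.e (nat_lit 57376) (nat_lit 3) (.e (nat_lit 98342) (nat_lit 20) (.e (nat_lit 221215) (nat_lit 23) (.e (nat_lit 204861) (nat_lit 26) (.e (nat_lit 336025) (nat_lit 3) .nil))))) .nil)) 
(.lf (nat_lit 148344) (.g (nat_lit 2024) (.e (nat_lit 57377) (nat_lit 3) (.e (nat_lit 98313) (nat_lit 9) (.e (nat_lit 336027) (nat_lit 3) (.e (nat_lit 98337) (nat_lit 19) (.e (nat_lit 213035) (nat_lit 12) (.e (nat_lit 163963) (nat_lit 25) (.e (nat_lit 532504) (nat_lit 1) (.e (nat_lit 57851) (nat_lit 252) .nil)))))))) (.g (nat_lit 4) .nil .nil)))))) 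
(.nd (nat_lit 3) (.nd (nat_lit 4) (.nd (nat_lit 5) 
(.lf (nat_lit 148292) (.g (nat_lit 1275) (.e (nat_lit 57376) (nat_lit 3) (.e (nat_lit 98342) (nat_lit 20) (.e (nat_lit 221212) (nat_lit 22) (.e (nat_lit 196669) (nat_lit 14) .nil)))) .nil)) 
(.lf (nat_lit 148324) (.g (nat_lit 780) (.e (nat_lit 57376) (nat_lit 3) (.e (nat_lit 98359) (nat_lit 26) (.e (nat_lit 426324) (nat_lit 13) .nil))) .nil))) (.nd (nat_lit 5) 
(.lf (nat_lit 148308) (.g (nat_lit 4801) (.e (nat_lit 57376) (nat_lit 3) (.e (nat_lit 98342) (nat_lit 20) (.e (nat_lit 221215) (nat_lit 23) (.e (nat_lit 204852) (nat_lit 26) (.e (nat_lit 336326) (nat_lit 18) (.e (nat_lit 204830) (nat_lit 18) (.e (nat_lit 57852) (nat_lit 252) .nil))))))) (.g (nat_lit 0) .nil .nil))) 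
(.lf (nat_lit 148340) (.g (nat_lit 3451) (.e (nat_lit 57376) (nat_lit 3) (.e (nat_lit 98373) (nat_lit 29) (.e (nat_lit 450563) (nat_lit 0) (.e (nat_lit 6595) (nat_lit 351) .nil)))) .nil)))) (.nd (nat_lit 4) (.nd (nat_lit 5) 
(.lf (nat_lit 148300) (.g (nat_lit 3867) (.e (nat_lit 57376) (nat_lit 3) (.e (nat_lit 98342) (nat_lit 20) (.e (nat_lit 221212) (nat_lit 22) (.e (nat_lit 196670) (nat_lit 14) (.e (nat_lit 73746) (nat_lit 3) (.e (nat_lit 516120) (nat_lit 1) (.e (nat_lit 164183) (nat_lit 154) .nil))))))) (.g (nat_lit 7) .nil .nil))) 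
(.lf (nat_lit 148332) (.g (nat_lit 2525) (.e (nat_lit 57376) (nat_lit 3) (.e (nat_lit 98367) (nat_lit 27) (.e (nat_lit 434231) (nat_lit 23) (.e (nat_lit 532514) (nat_lit 3) (.e (nat_lit 114717) (nat_lit 23) .nil))))) .nil))) (.nd (nat_lit 5) 
(.lf (nat_lit 148316) (.g (nat_lit 1870) (.e (nat_lit 57376) (nat_lit 3) (.e (nat_lit 98342) (nat_lit 20) (.e (nat_lit 221215) (nat_lit 23) (.e (nat_lit 204862) (nat_lit 27) (.e (nat_lit 344118) (nat_lit 21) .nil))))) .nil)) 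
(.lf (nat_lit 148348) (.g (nat_lit 1026) (.e (nat_lit 57377) (nat_lit 3) (.e (nat_lit 98313) (nat_lit 9) (.e (nat_lit 336027) (nat_lit 3) (.e (nat_lit 98341) (nat_lit 20) .nil)))) .nil)))))) (.nd (nat_lit 2) (.nd (nat_lit 3) (.nd (nat_lit 4) (.nd (nat_lit 5) 
(.lf (nat_lit 148290) (.g (nat_lit 2656) (.e (nat_lit 57376) (nat_lit 3) (.e (nat_lit 98342) (nat_lit 20) (.e (nat_lit 221212) (nat_lit 22) (.e (nat_lit 196668) (nat_lit 14) (.e (nat_lit 73747) (nat_lit 3) (.e (nat_lit 516117) (nat_lit 1) (.e (nat_lit 164183) (nat_lit 154) .nil))))))) (.g (nat_lit 6) .nil .nil))) 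
(.lf (nat_lit 148322) (.g (nat_lit 2058) (.e (nat_lit 57376) (nat_lit 3) (.e (nat_lit 98342) (nat_lit 20) (.e (nat_lit 221215) (nat_lit 23) (.e (nat_lit 204881) (nat_lit 32) (.e (nat_lit 385068) (nat_lit 26) .nil))))) .nil))) (.nd (nat_lit 5) 
(.lf (nat_lit 148306) (.g (nat_lit 2639) (.e (nat_lit 57376) (nat_lit 3) (.e (nat_lit 98342) (nat_lit 20) (.e (nat_lit 221214) (nat_lit 23) (.e (nat_lit 204863) (nat_lit 27) (.e (nat_lit 344118) (nat_lit 21) .nil))))) .nil)) 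
(.lf (nat_lit 148338) (.g (nat_lit 640) (.e (nat_lit 57376) (nat_lit 3) (.e (nat_lit 98370) (nat_lit 28) (.e (nat_lit 450304) (nat_lit 18) .nil))) .nil)))) (.nd (nat_lit 4) (.nd (nat_lit 5) 
(.lf (nat_lit 148298) (.g (nat_lit 2609) (.e (nat_lit 57376) (nat_lit 3) (.e (nat_lit 98342) (nat_lit 20) (.e (nat_lit 221212) (nat_lit 22) (.e (nat_lit 196670) (nat_lit 14) (.e (nat_lit 73746) (nat_lit 3) (.e (nat_lit 516118) (nat_lit 1) (.e (nat_lit 164183) (nat_lit 154) .nil))))))) (.g (nat_lit 6) .nil .nil))) 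
(.lf (nat_lit 148330) (.g (nat_lit 2175) (.e (nat_lit 57376) (nat_lit 3) (.e (nat_lit 98367) (nat_lit 27) (.e (nat_lit 434231) (nat_lit 23) (.e (nat_lit 532507) (nat_lit 2) .nil)))) .nil))) (.nd (nat_lit 5) 
(.lf (nat_lit 148314) (.g (nat_lit 2358) (.e (nat_lit 57376) (nat_lit 3) (.e (nat_lit 98342) (nat_lit 20) (.e (nat_lit 221215) (nat_lit 23) (.e (nat_lit 204861) (nat_lit 26) (.e (nat_lit 336293) (nat_lit 15) .nil))))) .nil)) 
(.lf (nat_lit 148346) (.g (nat_lit 1763) (.e (nat_lit 57377) (nat_lit 3) (.e (nat_lit 98313) (nat_lit 9) (.e (nat_lit 336027) (nat_lit 3) (.e (nat_lit 98338) (nat_lit 19) (.e (nat_lit 213013) (nat_lit 9) .nil))))) .nil))))) (.nd (nat_lit 3) (.nd (nat_lit 4) (.nd (nat_lit 5) 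
(.lf (nat_lit 148294) (.g (nat_lit 4515) (.e (nat_lit 57376) (nat_lit 3) (.e (nat_lit 98342) (nat_lit 20) (.e (nat_lit 221212) (nat_lit 22) (.e (nat_lit 196670) (nat_lit 14) (.e (nat_lit 73746) (nat_lit 3) (.e (nat_lit 516115) (nat_lit 1) (.e (nat_lit 164179) (nat_lit 154) .nil))))))) (.g (nat_lit 0) .nil .nil))) 
(.lf (nat_lit 148326) (.g (nat_lit 960) (.e (nat_lit 57376) (nat_lit 3) (.e (nat_lit 98359) (nat_lit 26) (.e (nat_lit 426331) (nat_lit 13) .nil))) .nil))) (.nd (nat_lit 5) 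
(.lf (nat_lit 148310) (.g (nat_lit 2257) (.e (nat_lit 57376) (nat_lit 3) (.e (nat_lit 98342) (nat_lit 20) (.e (nat_lit 221215) (nat_lit 23) (.e (nat_lit 204861) (nat_lit 26) (.e (nat_lit 336021) (nat_lit 3) .nil))))) .nil)) 
(.lf (nat_lit 148342) (.g (nat_lit 1879) (.e (nat_lit 57377) (nat_lit 3) (.e (nat_lit 98312) (nat_lit 9) (.e (nat_lit 336078) (nat_lit 9) (.e (nat_lit 336454) (nat_lit 34) (.e (nat_lit 483365) (nat_lit 18) (.e (nat_lit 57852) (nat_lit 252) .nil)))))) (.g (nat_lit 4) .nil .nil))))) (.nd (nat_lit 4) (.nd (nat_lit 5) 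
(.lf (nat_lit 148302) (.g (nat_lit 868) (.e (nat_lit 57376) (nat_lit 3) (.e (nat_lit 98342) (nat_lit 20) (.e (nat_lit 221214) (nat_lit 23) .nil))) .nil)) 
(.lf (nat_lit 148334) (.g (nat_lit 3131) (.e (nat_lit 57376) (nat_lit 3) (.e (nat_lit 98367) (nat_lit 27) (.e (nat_lit 434231) (nat_lit 23) (.e (nat_lit 532514) (nat_lit 3) (.e (nat_lit 114718) (nat_lit 23) (.e (nat_lit 98334) (nat_lit 18) (.e (nat_lit 164398) (nat_lit 256) .nil))))))) (.g (nat_lit 5) .nil .nil)))) (.nd (nat_lit 5) 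
(.lf (nat_lit 148318) (.g (nat_lit 2223) (.e (nat_lit 57376) (nat_lit 3) (.e (nat_lit 98342) (nat_lit 20) (.e (nat_lit 221215) (nat_lit 23) (.e (nat_lit 204863) (nat_lit 27) (.e (nat_lit 344118) (nat_lit 21) .nil))))) .nil)) 
(.lf (nat_lit 148350) (.g (nat_lit 4055) (.e (nat_lit 57377) (nat_lit 3) (.e (nat_lit 98313) (nat_lit 9) (.e (nat_lit 336027) (nat_lit 3) (.e (nat_lit 98341) (nat_lit 20) (.e (nat_lit 221215) (nat_lit 23) (.e (nat_lit 204830) (nat_lit 18) (.e (nat_lit 57852) (nat_lit 252) .nil))))))) (.g (nat_lit 7) .nil .nil)))))))) 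
(.nd (nat_lit 1) (.nd (nat_lit 2) (.nd (nat_lit 3) (.nd (nat_lit 4) (.nd (nat_lit 5) 
(.lf (nat_lit 148289) (.g (nat_lit 3966) (.e (nat_lit 57376) (nat_lit 3) (.e (nat_lit 98342) (nat_lit 20) (.e (nat_lit 221212) (nat_lit 22) (.e (nat_lit 196668) (nat_lit 14) (.e (nat_lit 73747) (nat_lit 3) (.e (nat_lit 516115) (nat_lit 1) (.e (nat_lit 164183) (nat_lit 154) .nil))))))) (.g (nat_lit 0) .nil .nil))) 
(.lf (nat_lit 148321) (.g (nat_lit 1632) (.e (nat_lit 57376) (nat_lit 3) (.e (nat_lit 98342) (nat_lit 20) (.e (nat_lit 221215) (nat_lit 23) (.e (nat_lit 204881) (nat_lit 32) .nil)))) .nil))) (.nd (nat_lit 5) 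
(.lf (nat_lit 148305) (.g (nat_lit 2145) (.e (nat_lit 57376) (nat_lit 3) (.e (nat_lit 98342) (nat_lit 20) (.e (nat_lit 221214) (nat_lit 23) (.e (nat_lit 204862) (nat_lit 27) (.e (nat_lit 344117) (nat_lit 21) .nil))))) .nil)) 
(.lf (nat_lit 148337) (.g (nat_lit 1552) (.e (nat_lit 57376) (nat_lit 3) (.e (nat_lit 98370) (nat_lit 28) (.e (nat_lit 442390) (nat_lit 11) (.e (nat_lit 336387) (nat_lit 27) (.e (nat_lit 426107) (nat_lit 1) (.e (nat_lit 164401) (nat_lit 256) .nil)))))) (.g (nat_lit 4) .nil .nil))))) (.nd (nat_lit 4) (.nd (nat_lit 5) 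
(.lf (nat_lit 148297) (.g (nat_lit 3513) (.e (nat_lit 57376) (nat_lit 3) (.e (nat_lit 98342) (nat_lit 20) (.e (nat_lit 221212) (nat_lit 22) (.e (nat_lit 196670) (nat_lit 14) (.e (nat_lit 73746) (nat_lit 3) (.e (nat_lit 516117) (nat_lit 1) (.e (nat_lit 164181) (nat_lit 154) .nil))))))) (.g (nat_lit 0) .nil .nil))) 
(.lf (nat_lit 148329) (.g (nat_lit 2949) (.e (nat_lit 57376) (nat_lit 3) (.e (nat_lit 98367) (nat_lit 27) (.e (nat_lit 434231) (nat_lit 23) (.e (nat_lit 532483) (nat_lit 0) .nil)))) .nil))) (.nd (nat_lit 5) 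
(.lf (nat_lit 148313) (.g (nat_lit 2355) (.e (nat_lit 57376) (nat_lit 3) (.e (nat_lit 98342) (nat_lit 20) (.e (nat_lit 221215) (nat_lit 23) (.e (nat_lit 204861) (nat_lit 26) (.e (nat_lit 336026) (nat_lit 3) (.e (nat_lit 98333) (nat_lit 18) (.e (nat_lit 164183) (nat_lit 154) .nil))))))) (.g (nat_lit 4) .nil .nil))) 
(.lf (nat_lit 148345) (.g (nat_lit 1580) (.e (nat_lit 57377) (nat_lit 3) (.e (nat_lit 98313) (nat_lit 9) (.e (nat_lit 336027) (nat_lit 3) (.e (nat_lit 98338) (nat_lit 19) .nil)))) .nil))))) (.nd (nat_lit 3) (.nd (nat_lit 4) (.nd (nat_lit 5) 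
(.lf (nat_lit 148293) (.g (nat_lit 2805) (.e (nat_lit 57376) (nat_lit 3) (.e (nat_lit 98342) (nat_lit 20) (.e (nat_lit 221212) (nat_lit 22) (.e (nat_lit 196670) (nat_lit 14) (.e (nat_lit 73746) (nat_lit 3) (.e (nat_lit 516115) (nat_lit 1) (.e (nat_lit 164177) (nat_lit 154) .nil))))))) (.g (nat_lit 6) .nil .nil))) 
(.lf (nat_lit 148325) (.g (nat_lit 976) (.e (nat_lit 57376) (nat_lit 3) (.e (nat_lit 98359) (nat_lit 26) (.e (nat_lit 426329) (nat_lit 13) .nil))) .nil))) (.nd (nat_lit 5) 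
(.lf (nat_lit 148309) (.g (nat_lit 4348) (.e (nat_lit 57376) (nat_lit 3) (.e (nat_lit 98342) (nat_lit 20) (.e (nat_lit 221215) (nat_lit 23) (.e (nat_lit 204852) (nat_lit 26) (.e (nat_lit 336326) (nat_lit 18) (.e (nat_lit 204831) (nat_lit 18) (.e (nat_lit 57852) (nat_lit 252) .nil))))))) (.g (nat_lit 7) .nil .nil))) 
(.lf (nat_lit 148341) (.g (nat_lit 1858) (.e (nat_lit 57377) (nat_lit 3) (.e (nat_lit 98312) (nat_lit 9) (.e (nat_lit 336078) (nat_lit 9) (.e (nat_lit 336454) (nat_lit 34) (.e (nat_lit 483364) (nat_lit 18) (.e (nat_lit 57852) (nat_lit 252) .nil)))))) (.g (nat_lit 4) .nil .nil))))) (.nd (nat_lit 4) (.nd (nat_lit 5) 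
(.lf (nat_lit 148301) (.g (nat_lit 2013) (.e (nat_lit 57376) (nat_lit 3) (.e (nat_lit 98342) (nat_lit 20) (.e (nat_lit 221212) (nat_lit 22) (.e (nat_lit 196681) (nat_lit 17) (.e (nat_lit 131096) (nat_lit 3) (.e (nat_lit 98333) (nat_lit 18) (.e (nat_lit 164177) (nat_lit 154) .nil))))))) (.g (nat_lit 5) .nil .nil))) 
(.lf (nat_lit 148333) (.g (nat_lit 2473) (.e (nat_lit 57376) (nat_lit 3) (.e (nat_lit 98367) (nat_lit 27) (.e (nat_lit 434231) (nat_lit 23) (.e (nat_lit 532514) (nat_lit 3) (.e (nat_lit 114718) (nat_lit 23) .nil))))) .nil))) (.nd (nat_lit 5) 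
(.lf (nat_lit 148317) (.g (nat_lit 1894) (.e (nat_lit 57376) (nat_lit 3) (.e (nat_lit 98342) (nat_lit 20) (.e (nat_lit 221215) (nat_lit 23) (.e (nat_lit 204862) (nat_lit 27) (.e (nat_lit 344118) (nat_lit 21) (.e (nat_lit 516120) (nat_lit 1) (.e (nat_lit 164183) (nat_lit 154) .nil))))))) (.g (nat_lit 4) .nil .nil))) 
(.lf (nat_lit 148349) (.g (nat_lit 4444) (.e (nat_lit 57377) (nat_lit 3) (.e (nat_lit 98313) (nat_lit 9) (.e (nat_lit 336027) (nat_lit 3) (.e (nat_lit 98341) (nat_lit 20) (.e (nat_lit 221214) (nat_lit 23) (.e (nat_lit 204830) (nat_lit 18) (.e (nat_lit 57852) (nat_lit 252) .nil))))))) (.g (nat_lit 7) .nil .nil))))))) (.nd (nat_lit 2) (.nd (nat_lit 3) (.nd (nat_lit 4) (.nd (nat_lit 5) 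
(.lf (nat_lit 148291) (.g (nat_lit 3687) (.e (nat_lit 57376) (nat_lit 3) (.e (nat_lit 98342) (nat_lit 20) (.e (nat_lit 221212) (nat_lit 22) (.e (nat_lit 196668) (nat_lit 14) (.e (nat_lit 73747) (nat_lit 3) (.e (nat_lit 516119) (nat_lit 1) (.e (nat_lit 164176) (nat_lit 154) .nil))))))) (.g (nat_lit 0) .nil .nil))) 
(.lf (nat_lit 148323) (.g (nat_lit 885) (.e (nat_lit 57376) (nat_lit 3) (.e (nat_lit 98356) (nat_lit 26) (.e (nat_lit 426323) (nat_lit 13) .nil))) .nil))) (.nd (nat_lit 5) 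
(.lf (nat_lit 148307) (.g (nat_lit 597) (.e (nat_lit 57376) (nat_lit 3) (.e (nat_lit 98342) (nat_lit 20) (.e (nat_lit 221215) (nat_lit 23) .nil))) .nil)) 
(.lf (nat_lit 148339) (.g (nat_lit 3374) (.e (nat_lit 57376) (nat_lit 3) (.e (nat_lit 98373) (nat_lit 29) (.e (nat_lit 450562) (nat_lit 0) (.e (nat_lit 6595) (nat_lit 351) .nil)))) .nil)))) (.nd (nat_lit 4) (.nd (nat_lit 5) 
(.lf (nat_lit 148299) (.g (nat_lit 3634) (.e (nat_lit 57376) (nat_lit 3) (.e (nat_lit 98342) (nat_lit 20) (.e (nat_lit 221212) (nat_lit 22) (.e (nat_lit 196670) (nat_lit 14) (.e (nat_lit 73746) (nat_lit 3) (.e (nat_lit 516120) (nat_lit 1) (.e (nat_lit 164181) (nat_lit 154) .nil))))))) (.g (nat_lit 0) .nil .nil))) 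
(.lf (nat_lit 148331) (.g (nat_lit 2127) (.e (nat_lit 57376) (nat_lit 3) (.e (nat_lit 98367) (nat_lit 27) (.e (nat_lit 434231) (nat_lit 23) (.e (nat_lit 532513) (nat_lit 3) .nil)))) .nil))) (.nd (nat_lit 5) 
(.lf (nat_lit 148315) (.g (nat_lit 3048) (.e (nat_lit 57376) (nat_lit 3) (.e (nat_lit 98342) (nat_lit 20) (.e (nat_lit 221215) (nat_lit 23) (.e (nat_lit 204862) (nat_lit 27) (.e (nat_lit 344117) (nat_lit 21) (.e (nat_lit 516115) (nat_lit 1) (.e (nat_lit 164183) (nat_lit 154) .nil))))))) (.g (nat_lit 6) .nil .nil))) 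
(.lf (nat_lit 148347) (.g (nat_lit 2377) (.e (nat_lit 57377) (nat_lit 3) (.e (nat_lit 98313) (nat_lit 9) (.e (nat_lit 336027) (nat_lit 3) (.e (nat_lit 98339) (nat_lit 19) (.e (nat_lit 213035) (nat_lit 12) (.e (nat_lit 163964) (nat_lit 25) (.e (nat_lit 532504) (nat_lit 1) (.e (nat_lit 57851) (nat_lit 252) .nil)))))))) (.g (nat_lit 4) .nil .nil)))))) 
(.nd (nat_lit 3) (.nd (nat_lit 4) (.nd (nat_lit 5) 
(.lf (nat_lit 148295) (.g (nat_lit 3475) (.e (nat_lit 57376) (nat_lit 3) (.e (nat_lit 98342) (nat_lit 20) (.e (nat_lit 221212) (nat_lit 22) (.e (nat_lit 196670) (nat_lit 14) (.e (nat_lit 73746) (nat_lit 3) (.e (nat_lit 516115) (nat_lit 1) (.e (nat_lit 164182) (nat_lit 154) .nil))))))) (.g (nat_lit 7) .nil .nil))) 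
(.lf (nat_lit 148327) (.g (nat_lit 771) (.e (nat_lit 57376) (nat_lit 3) (.e (nat_lit 98365) (nat_lit 26) (.e (nat_lit 426325) (nat_lit 13) .nil))) .nil))) (.nd (nat_lit 5) 
(.lf (nat_lit 148311) (.g (nat_lit 2313) (.e (nat_lit 57376) (nat_lit 3) (.e (nat_lit 98342) (nat_lit 20) (.e (nat_lit 221215) (nat_lit 23) (.e (nat_lit 204861) (nat_lit 26) (.e (nat_lit 336021) (nat_lit 3) (.e (nat_lit 98333) (nat_lit 18) (.e (nat_lit 164182) (nat_lit 154) .nil))))))) (.g (nat_lit 4) .nil .nil))) 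
(.lf (nat_lit 148343) (.g (nat_lit 1301) (.e (nat_lit 57377) (nat_lit 3) (.e (nat_lit 98313) (nat_lit 9) (.e (nat_lit 336027) (nat_lit 3) (.e (nat_lit 98337) (nat_lit 19) .nil)))) .nil)))) (.nd (nat_lit 4) (.nd (nat_lit 5) 
(.lf (nat_lit 148303) (.g (nat_lit 4769) (.e (nat_lit 57376) (nat_lit 3) (.e (nat_lit 98342) (nat_lit 20) (.e (nat_lit 221214) (nat_lit 23) (.e (nat_lit 204852) (nat_lit 26) (.e (nat_lit 336326) (nat_lit 18) (.e (nat_lit 204830) (nat_lit 18) (.e (nat_lit 57852) (nat_lit 252) .nil))))))) (.g (nat_lit 7) .nil .nil))) 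
(.lf (nat_lit 148335) (.g (nat_lit 2166) (.e (nat_lit 57376) (nat_lit 3) (.e (nat_lit 98367) (nat_lit 27) (.e (nat_lit 434231) (nat_lit 23) (.e (nat_lit 532514) (nat_lit 3) (.e (nat_lit 114719) (nat_lit 23) .nil))))) .nil))) (.nd (nat_lit 5) 
(.lf (nat_lit 148319) (.g (nat_lit 2246) (.e (nat_lit 57376) (nat_lit 3) (.e (nat_lit 98342) (nat_lit 20) (.e (nat_lit 221215) (nat_lit 23) (.e (nat_lit 204863) (nat_lit 27) (.e (nat_lit 344118) (nat_lit 21) (.e (nat_lit 516120) (nat_lit 1) (.e (nat_lit 164182) (nat_lit 154) .nil))))))) (.g (nat_lit 4) .nil .nil))) 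
(.lf (nat_lit 148351) (.g (nat_lit 996) (.e (nat_lit 57377) (nat_lit 3) (.e (nat_lit 98313) (nat_lit 9) (.e (nat_lit 336027) (nat_lit 3) (.e (nat_lit 98342) (nat_lit 20) .nil)))) .nil))))))))

noncomputable def tv1974 : DT := (.nd (nat_lit 0) (.nd (nat_lit 1) (.nd (nat_lit 2) (.nd (nat_lit 3) (.nd (nat_lit 4) (.nd (nat_lit 5) 
(.lf (nat_lit 148352) (.g (nat_lit 2128) (.e (nat_lit 57377) (nat_lit 3) (.e (nat_lit 98313) (nat_lit 9) (.e (nat_lit 336027) (nat_lit 3) (.e (nat_lit 98342) (nat_lit 20) (.e (nat_lit 221210) (nat_lit 22) (.e (nat_lit 196658) (nat_lit 12) (.e (nat_lit 57354) (nat_lit 0) (.e (nat_lit 5195) (nat_lit 294) .nil)))))))) (.g (nat_lit 4) .nil .nil))) 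
(.lf (nat_lit 148384) (.g (nat_lit 528) (.e (nat_lit 57377) (nat_lit 3) (.e (nat_lit 98313) (nat_lit 9) (.e (nat_lit 336085) (nat_lit 9) .nil))) .nil))) (.nd (nat_lit 5) 
(.lf (nat_lit 148368) (.g (nat_lit 2760) (.e (nat_lit 57377) (nat_lit 3) (.e (nat_lit 98313) (nat_lit 9) (.e (nat_lit 336076) (nat_lit 9) (.e (nat_lit 336456) (nat_lit 34) (.e (nat_lit 483363) (nat_lit 18) (.e (nat_lit 57853) (nat_lit 252) .nil)))))) (.g (nat_lit 5) .nil .nil))) 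
(.lf (nat_lit 148400) (.g (nat_lit 3443) (.e (nat_lit 57377) (nat_lit 3) (.e (nat_lit 98313) (nat_lit 9) (.e (nat_lit 336088) (nat_lit 9) (.e (nat_lit 336454) (nat_lit 34) (.e (nat_lit 483363) (nat_lit 18) (.e (nat_lit 57847) (nat_lit 252) .nil)))))) (.g (nat_lit 0) .nil .nil))))) (.nd (nat_lit 4) (.nd (nat_lit 5) 
(.lf (nat_lit 148360) (.g (nat_lit 3667) (.e (nat_lit 57377) (nat_lit 3) (.e (nat_lit 98313) (nat_lit 9) (.e (nat_lit 336075) (nat_lit 9) (.e (nat_lit 336454) (nat_lit 34) (.e (nat_lit 483365) (nat_lit 18) (.e (nat_lit 57853) (nat_lit 252) .nil)))))) (.g (nat_lit 5) .nil .nil))) 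
(.lf (nat_lit 148392) (.g (nat_lit 2939) (.e (nat_lit 57377) (nat_lit 3) (.e (nat_lit 98313) (nat_lit 9) (.e (nat_lit 336086) (nat_lit 9) (.e (nat_lit 336454) (nat_lit 34) (.e (nat_lit 483365) (nat_lit 18) (.e (nat_lit 57847) (nat_lit 252) .nil)))))) (.g (nat_lit 5) .nil .nil)))) (.nd (nat_lit 5) 
(.lf (nat_lit 148376) (.g (nat_lit 2416) (.e (nat_lit 57377) (nat_lit 3) (.e (nat_lit 98313) (nat_lit 9) (.e (nat_lit 336077) (nat_lit 9) (.e (nat_lit 336454) (nat_lit 34) (.e (nat_lit 483364) (nat_lit 18) (.e (nat_lit 57854) (nat_lit 252) .nil)))))) (.g (nat_lit 6) .nil .nil))) 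
(.lf (nat_lit 148408) (.g (nat_lit 2968) (.e (nat_lit 57377) (nat_lit 3) (.e (nat_lit 98313) (nat_lit 9) (.e (nat_lit 336088) (nat_lit 9) (.e (nat_lit 336454) (nat_lit 34) (.e (nat_lit 483366) (nat_lit 18) (.e (nat_lit 57847) (nat_lit 252) .nil)))))) (.g (nat_lit 0) .nil .nil)))))) (.nd (nat_lit 3) (.nd (nat_lit 4) (.nd (nat_lit 5) 
(.lf (nat_lit 148356) (.g (nat_lit 528) (.e (nat_lit 57377) (nat_lit 3) (.e (nat_lit 98313) (nat_lit 9) (.e (nat_lit 336074) (nat_lit 9) .nil))) .nil)) 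
(.lf (nat_lit 148388) (.g (nat_lit 2975) (.e (nat_lit 57377) (nat_lit 3) (.e (nat_lit 98313) (nat_lit 9) (.e (nat_lit 336086) (nat_lit 9) (.e (nat_lit 336454) (nat_lit 34) (.e (nat_lit 483363) (nat_lit 18) (.e (nat_lit 57847) (nat_lit 252) .nil)))))) (.g (nat_lit 5) .nil .nil)))) (.nd (nat_lit 5) 
(.lf (nat_lit 148372) (.g (nat_lit 2711) (.e (nat_lit 57377) (nat_lit 3) (.e (nat_lit 98313) (nat_lit 9) (.e (nat_lit 336076) (nat_lit 9) (.e (nat_lit 336456) (nat_lit 34) (.e (nat_lit 483364) (nat_lit 18) (.e (nat_lit 57854) (nat_lit 252) .nil)))))) (.g (nat_lit 5) .nil .nil))) 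
(.lf (nat_lit 148404) (.g (nat_lit 3093) (.e (nat_lit 57377) (nat_lit 3) (.e (nat_lit 98313) (nat_lit 9) (.e (nat_lit 336088) (nat_lit 9) (.e (nat_lit 336454) (nat_lit 34) (.e (nat_lit 483365) (nat_lit 18) (.e (nat_lit 57852) (nat_lit 252) .nil)))))) (.g (nat_lit 6) .nil .nil))))) (.nd (nat_lit 4) (.nd (nat_lit 5) 
(.lf (nat_lit 148364) (.g (nat_lit 3451) (.e (nat_lit 57377) (nat_lit 3) (.e (nat_lit 98313) (nat_lit 9) (.e (nat_lit 336076) (nat_lit 9) (.e (nat_lit 336454) (nat_lit 34) (.e (nat_lit 483365) (nat_lit 18) (.e (nat_lit 57853) (nat_lit 252) .nil)))))) (.g (nat_lit 0) .nil .nil))) 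
(.lf (nat_lit 148396) (.g (nat_lit 2991) (.e (nat_lit 57377) (nat_lit 3) (.e (nat_lit 98313) (nat_lit 9) (.e (nat_lit 336086) (nat_lit 9) (.e (nat_lit 336454) (nat_lit 34) (.e (nat_lit 483365) (nat_lit 18) (.e (nat_lit 57854) (nat_lit 252) .nil)))))) (.g (nat_lit 5) .nil .nil)))) (.nd (nat_lit 5) 
(.lf (nat_lit 148380) (.g (nat_lit 2844) (.e (nat_lit 57377) (nat_lit 3) (.e (nat_lit 98313) (nat_lit 9) (.e (nat_lit 336078) (nat_lit 9) (.e (nat_lit 336454) (nat_lit 34) (.e (nat_lit 483364) (nat_lit 18) (.e (nat_lit 57854) (nat_lit 252) .nil)))))) (.g (nat_lit 6) .nil .nil))) 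
(.lf (nat_lit 148412) (.g (nat_lit 3050) (.e (nat_lit 57377) (nat_lit 3) (.e (nat_lit 98313) (nat_lit 9) (.e (nat_lit 336088) (nat_lit 9) (.e (nat_lit 336456) (nat_lit 34) (.e (nat_lit 483363) (nat_lit 18) (.e (nat_lit 57854) (nat_lit 252) .nil)))))) (.g (nat_lit 5) .nil .nil))))))) (.nd (nat_lit 2) (.nd (nat_lit 3) (.nd (nat_lit 4) (.nd (nat_lit 5) 
(.lf (nat_lit 148354) (.g (nat_lit 4293) (.e (nat_lit 57377) (nat_lit 3) (.e (nat_lit 98313) (nat_lit 9) (.e (nat_lit 336027) (nat_lit 3) (.e (nat_lit 98342) (nat_lit 20) (.e (nat_lit 221214) (nat_lit 23) (.e (nat_lit 204830) (nat_lit 18) (.e (nat_lit 57852) (nat_lit 252) .nil))))))) (.g (nat_lit 7) .nil .nil))) 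
(.lf (nat_lit 148386) (.g (nat_lit 1477) (.e (nat_lit 57377) (nat_lit 3) (.e (nat_lit 98313) (nat_lit 9) (.e (nat_lit 336086) (nat_lit 9) (.e (nat_lit 336395) (nat_lit 27) .nil)))) .nil))) (.nd (nat_lit 5) 
(.lf (nat_lit 148370) (.g (nat_lit 2567) (.e (nat_lit 57377) (nat_lit 3) (.e (nat_lit 98313) (nat_lit 9) (.e (nat_lit 336076) (nat_lit 9) (.e (nat_lit 336456) (nat_lit 34) (.e (nat_lit 483364) (nat_lit 18) (.e (nat_lit 57852) (nat_lit 252) .nil)))))) (.g (nat_lit 5) .nil .nil))) 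
(.lf (nat_lit 148402) (.g (nat_lit 2987) (.e (nat_lit 57377) (nat_lit 3) (.e (nat_lit 98313) (nat_lit 9) (.e (nat_lit 336088) (nat_lit 9) (.e (nat_lit 336454) (nat_lit 34) (.e (nat_lit 483364) (nat_lit 18) (.e (nat_lit 57854) (nat_lit 252) .nil)))))) (.g (nat_lit 0) .nil .nil))))) (.nd (nat_lit 4) (.nd (nat_lit 5) 
(.lf (nat_lit 148362) (.g (nat_lit 2683) (.e (nat_lit 57377) (nat_lit 3) (.e (nat_lit 98313) (nat_lit 9) (.e (nat_lit 336076) (nat_lit 9) (.e (nat_lit 336454) (nat_lit 34) (.e (nat_lit 483364) (nat_lit 18) (.e (nat_lit 57852) (nat_lit 252) .nil)))))) (.g (nat_lit 6) .nil .nil))) 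
(.lf (nat_lit 148394) (.g (nat_lit 2518) (.e (nat_lit 57377) (nat_lit 3) (.e (nat_lit 98313) (nat_lit 9) (.e (nat_lit 336086) (nat_lit 9) (.e (nat_lit 336454) (nat_lit 34) (.e (nat_lit 483365) (nat_lit 18) (.e (nat_lit 57852) (nat_lit 252) .nil)))))) (.g (nat_lit 4) .nil .nil)))) (.nd (nat_lit 5) 
(.lf (nat_lit 148378) (.g (nat_lit 3367) (.e (nat_lit 57377) (nat_lit 3) (.e (nat_lit 98313) (nat_lit 9) (.e (nat_lit 336078) (nat_lit 9) (.e (nat_lit 336454) (nat_lit 34) (.e (nat_lit 483363) (nat_lit 18) (.e (nat_lit 57847) (nat_lit 252) .nil)))))) (.g (nat_lit 6) .nil .nil))) 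
(.lf (nat_lit 148410) (.g (nat_lit 2739) (.e (nat_lit 57377) (nat_lit 3) (.e (nat_lit 98313) (nat_lit 9) (.e (nat_lit 336088) (nat_lit 9) (.e (nat_lit 336456) (nat_lit 34) (.e (nat_lit 483363) (nat_lit 18) (.e (nat_lit 57849) (nat_lit 252) .nil)))))) (.g (nat_lit 5) .nil .nil)))))) (.nd (nat_lit 3) (.nd (nat_lit 4) (.nd (nat_lit 5) 
(.lf (nat_lit 148358) (.g (nat_lit 3864) (.e (nat_lit 57377) (nat_lit 3) (.e (nat_lit 98313) (nat_lit 9) (.e (nat_lit 336075) (nat_lit 9) (.e (nat_lit 336454) (nat_lit 34) (.e (nat_lit 483365) (nat_lit 18) (.e (nat_lit 57847) (nat_lit 252) .nil)))))) (.g (nat_lit 5) .nil .nil))) 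
(.lf (nat_lit 148390) (.g (nat_lit 2343) (.e (nat_lit 57377) (nat_lit 3) (.e (nat_lit 98313) (nat_lit 9) (.e (nat_lit 336086) (nat_lit 9) (.e (nat_lit 336454) (nat_lit 34) (.e (nat_lit 483364) (nat_lit 18) (.e (nat_lit 57852) (nat_lit 252) .nil)))))) (.g (nat_lit 4) .nil .nil)))) (.nd (nat_lit 5) 
(.lf (nat_lit 148374) (.g (nat_lit 2129) (.e (nat_lit 57377) (nat_lit 3) (.e (nat_lit 98313) (nat_lit 9) (.e (nat_lit 336076) (nat_lit 9) (.e (nat_lit 336456) (nat_lit 34) (.e (nat_lit 483365) (nat_lit 18) (.e (nat_lit 57852) (nat_lit 252) .nil)))))) (.g (nat_lit 4) .nil .nil))) 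
(.lf (nat_lit 148406) (.g (nat_lit 3566) (.e (nat_lit 57377) (nat_lit 3) (.e (nat_lit 98313) (nat_lit 9) (.e (nat_lit 336088) (nat_lit 9) (.e (nat_lit 336454) (nat_lit 34) (.e (nat_lit 483365) (nat_lit 18) (.e (nat_lit 57854) (nat_lit 252) .nil)))))) (.g (nat_lit 0) .nil .nil))))) (.nd (nat_lit 4) (.nd (nat_lit 5) 
(.lf (nat_lit 148366) (.g (nat_lit 2859) (.e (nat_lit 57377) (nat_lit 3) (.e (nat_lit 98313) (nat_lit 9) (.e (nat_lit 336076) (nat_lit 9) (.e (nat_lit 336454) (nat_lit 34) (.e (nat_lit 483366) (nat_lit 18) (.e (nat_lit 57847) (nat_lit 252) .nil)))))) (.g (nat_lit 0) .nil .nil))) 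
(.lf (nat_lit 148398) (.g (nat_lit 1607) (.e (nat_lit 57377) (nat_lit 3) (.e (nat_lit 98313) (nat_lit 9) (.e (nat_lit 336088) (nat_lit 9) (.e (nat_lit 336370) (nat_lit 27) (.e (nat_lit 426501) (nat_lit 27) .nil))))) .nil))) (.nd (nat_lit 5) 
(.lf (nat_lit 148382) (.g (nat_lit 3088) (.e (nat_lit 57377) (nat_lit 3) (.e (nat_lit 98313) (nat_lit 9) (.e (nat_lit 336078) (nat_lit 9) (.e (nat_lit 336454) (nat_lit 34) (.e (nat_lit 483365) (nat_lit 18) (.e (nat_lit 57853) (nat_lit 252) .nil)))))) (.g (nat_lit 6) .nil .nil))) 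
(.lf (nat_lit 148414) (.g (nat_lit 3117) (.e (nat_lit 57377) (nat_lit 3) (.e (nat_lit 98313) (nat_lit 9) (.e (nat_lit 336088) (nat_lit 9) (.e (nat_lit 336456) (nat_lit 34) (.e (nat_lit 483364) (nat_lit 18) (.e (nat_lit 57854) (nat_lit 252) .nil)))))) (.g (nat_lit 6) .nil .nil)))))))) (.nd (nat_lit 1) (.nd (nat_lit 2) (.nd (nat_lit 3) (.nd (nat_lit 4) (.nd (nat_lit 5) 
(.lf (nat_lit 148353) (.g (nat_lit 1521) (.e (nat_lit 57377) (nat_lit 3) (.e (nat_lit 98313) (nat_lit 9) (.e (nat_lit 336027) (nat_lit 3) (.e (nat_lit 98342) (nat_lit 20) (.e (nat_lit 221212) (nat_lit 22) .nil))))) .nil)) 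
(.lf (nat_lit 148385) (.g (nat_lit 1614) (.e (nat_lit 57377) (nat_lit 3) (.e (nat_lit 98313) (nat_lit 9) (.e (nat_lit 336085) (nat_lit 9) (.e (nat_lit 336454) (nat_lit 34) (.e (nat_lit 483364) (nat_lit 18) .nil))))) .nil))) (.nd (nat_lit 5) 
(.lf (nat_lit 148369) (.g (nat_lit 2642) (.e (nat_lit 57377) (nat_lit 3) (.e (nat_lit 98313) (nat_lit 9) (.e (nat_lit 336076) (nat_lit 9) (.e (nat_lit 336456) (nat_lit 34) (.e (nat_lit 483363) (nat_lit 18) (.e (nat_lit 57854) (nat_lit 252) .nil)))))) (.g (nat_lit 5) .nil .nil))) 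
(.lf (nat_lit 148401) (.g (nat_lit 2806) (.e (nat_lit 57377) (nat_lit 3) (.e (nat_lit 98313) (nat_lit 9) (.e (nat_lit 336088) (nat_lit 9) (.e (nat_lit 336454) (nat_lit 34) (.e (nat_lit 483364) (nat_lit 18) (.e (nat_lit 57852) (nat_lit 252) .nil)))))) (.g (nat_lit 6) .nil .nil))))) (.nd (nat_lit 4) (.nd (nat_lit 5) 
(.lf (nat_lit 148361) (.g (nat_lit 3877) (.e (nat_lit 57377) (nat_lit 3) (.e (nat_lit 98313) (nat_lit 9) (.e (nat_lit 336075) (nat_lit 9) (.e (nat_lit 336454) (nat_lit 34) (.e (nat_lit 483365) (nat_lit 18) (.e (nat_lit 57854) (nat_lit 252) .nil)))))) (.g (nat_lit 5) .nil .nil))) 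
(.lf (nat_lit 148393) (.g (nat_lit 2965) (.e (nat_lit 57377) (nat_lit 3) (.e (nat_lit 98313) (nat_lit 9) (.e (nat_lit 336086) (nat_lit 9) (.e (nat_lit 336454) (nat_lit 34) (.e (nat_lit 483365) (nat_lit 18) (.e (nat_lit 57849) (nat_lit 252) .nil)))))) (.g (nat_lit 5) .nil .nil)))) (.nd (nat_lit 5) 
(.lf (nat_lit 148377) (.g (nat_lit 3458) (.e (nat_lit 57377) (nat_lit 3) (.e (nat_lit 98313) (nat_lit 9) (.e (nat_lit 336077) (nat_lit 9) (.e (nat_lit 336454) (nat_lit 34) (.e (nat_lit 483365) (nat_lit 18) (.e (nat_lit 57854) (nat_lit 252) .nil)))))) (.g (nat_lit 6) .nil .nil))) 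
(.lf (nat_lit 148409) (.g (nat_lit 3233) (.e (nat_lit 57377) (nat_lit 3) (.e (nat_lit 98313) (nat_lit 9) (.e (nat_lit 336088) (nat_lit 9) (.e (nat_lit 336456) (nat_lit 34) (.e (nat_lit 483363) (nat_lit 18) (.e (nat_lit 57847) (nat_lit 252) .nil)))))) (.g (nat_lit 6) .nil .nil)))))) (.nd (nat_lit 3) (.nd (nat_lit 4) (.nd (nat_lit 5) 
(.lf (nat_lit 148357) (.g (nat_lit 3891) (.e (nat_lit 57377) (nat_lit 3) (.e (nat_lit 98313) (nat_lit 9) (.e (nat_lit 336075) (nat_lit 9) (.e (nat_lit 336454) (nat_lit 34) (.e (nat_lit 483365) (nat_lit 18) (.e (nat_lit 57846) (nat_lit 252) .nil)))))) (.g (nat_lit 5) .nil .nil))) 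
(.lf (nat_lit 148389) (.g (nat_lit 2444) (.e (nat_lit 57377) (nat_lit 3) (.e (nat_lit 98313) (nat_lit 9) (.e (nat_lit 336086) (nat_lit 9) (.e (nat_lit 336454) (nat_lit 34) (.e (nat_lit 483363) (nat_lit 18) (.e (nat_lit 57849) (nat_lit 252) .nil)))))) (.g (nat_lit 4) .nil .nil)))) (.nd (nat_lit 5) 
(.lf (nat_lit 148373) (.g (nat_lit 1977) (.e (nat_lit 57377) (nat_lit 3) (.e (nat_lit 98313) (nat_lit 9) (.e (nat_lit 336076) (nat_lit 9) (.e (nat_lit 336456) (nat_lit 34) (.e (nat_lit 483365) (nat_lit 18) (.e (nat_lit 57851) (nat_lit 252) .nil)))))) (.g (nat_lit 4) .nil .nil))) 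
(.lf (nat_lit 148405) (.g (nat_lit 3552) (.e (nat_lit 57377) (nat_lit 3) (.e (nat_lit 98313) (nat_lit 9) (.e (nat_lit 336088) (nat_lit 9) (.e (nat_lit 336454) (nat_lit 34) (.e (nat_lit 483365) (nat_lit 18) (.e (nat_lit 57853) (nat_lit 252) .nil)))))) (.g (nat_lit 0) .nil .nil))))) (.nd (nat_lit 4) (.nd (nat_lit 5) 
(.lf (nat_lit 148365) (.g (nat_lit 2253) (.e (nat_lit 57377) (nat_lit 3) (.e (nat_lit 98313) (nat_lit 9) (.e (nat_lit 336076) (nat_lit 9) (.e (nat_lit 336454) (nat_lit 34) (.e (nat_lit 483366) (nat_lit 18) (.e (nat_lit 57844) (nat_lit 252) .nil)))))) (.g (nat_lit 5) .nil .nil))) 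
(.lf (nat_lit 148397) (.g (nat_lit 2079) (.e (nat_lit 57377) (nat_lit 3) (.e (nat_lit 98313) (nat_lit 9) (.e (nat_lit 336088) (nat_lit 9) (.e (nat_lit 336366) (nat_lit 27) (.e (nat_lit 426499) (nat_lit 27) (.e (nat_lit 335986) (nat_lit 1) (.e (nat_lit 57849) (nat_lit 252) .nil))))))) (.g (nat_lit 4) .nil .nil)))) (.nd (nat_lit 5) 
(.lf (nat_lit 148381) (.g (nat_lit 3197) (.e (nat_lit 57377) (nat_lit 3) (.e (nat_lit 98313) (nat_lit 9) (.e (nat_lit 336078) (nat_lit 9) (.e (nat_lit 336454) (nat_lit 34) (.e (nat_lit 483365) (nat_lit 18) (.e (nat_lit 57847) (nat_lit 252) .nil)))))) (.g (nat_lit 0) .nil .nil))) 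
(.lf (nat_lit 148413) (.g (nat_lit 2957) (.e (nat_lit 57377) (nat_lit 3) (.e (nat_lit 98313) (nat_lit 9) (.e (nat_lit 336088) (nat_lit 9) (.e (nat_lit 336456) (nat_lit 34) (.e (nat_lit 483364) (nat_lit 18) (.e (nat_lit 57852) (nat_lit 252) .nil)))))) (.g (nat_lit 5) .nil .nil))))))) (.nd (nat_lit 2) (.nd (nat_lit 3) (.nd (nat_lit 4) (.nd (nat_lit 5) 
(.lf (nat_lit 148355) (.g (nat_lit 1357) (.e (nat_lit 57377) (nat_lit 3) (.e (nat_lit 98313) (nat_lit 9) (.e (nat_lit 336027) (nat_lit 3) (.e (nat_lit 98348) (nat_lit 23) .nil)))) .nil)) 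
(.lf (nat_lit 148387) (.g (nat_lit 1475) (.e (nat_lit 57377) (nat_lit 3) (.e (nat_lit 98313) (nat_lit 9) (.e (nat_lit 336086) (nat_lit 9) (.e (nat_lit 336454) (nat_lit 34) .nil)))) .nil))) (.nd (nat_lit 5) 
(.lf (nat_lit 148371) (.g (nat_lit 2192) (.e (nat_lit 57377) (nat_lit 3) (.e (nat_lit 98313) (nat_lit 9) (.e (nat_lit 336076) (nat_lit 9) (.e (nat_lit 336456) (nat_lit 34) (.e (nat_lit 483364) (nat_lit 18) (.e (nat_lit 57853) (nat_lit 252) .nil)))))) (.g (nat_lit 4) .nil .nil))) 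
(.lf (nat_lit 148403) (.g (nat_lit 3504) (.e (nat_lit 57377) (nat_lit 3) (.e (nat_lit 98313) (nat_lit 9) (.e (nat_lit 336088) (nat_lit 9) (.e (nat_lit 336454) (nat_lit 34) (.e (nat_lit 483365) (nat_lit 18) (.e (nat_lit 57847) (nat_lit 252) .nil)))))) (.g (nat_lit 0) .nil .nil))))) (.nd (nat_lit 4) (.nd (nat_lit 5) 
(.lf (nat_lit 148363) (.g (nat_lit 2970) (.e (nat_lit 57377) (nat_lit 3) (.e (nat_lit 98313) (nat_lit 9) (.e (nat_lit 336076) (nat_lit 9) (.e (nat_lit 336454) (nat_lit 34) (.e (nat_lit 483365) (nat_lit 18) (.e (nat_lit 57852) (nat_lit 252) .nil)))))) (.g (nat_lit 6) .nil .nil))) 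
(.lf (nat_lit 148395) (.g (nat_lit 2973) (.e (nat_lit 57377) (nat_lit 3) (.e (nat_lit 98313) (nat_lit 9) (.e (nat_lit 336086) (nat_lit 9) (.e (nat_lit 336454) (nat_lit 34) (.e (nat_lit 483365) (nat_lit 18) (.e (nat_lit 57853) (nat_lit 252) .nil)))))) (.g (nat_lit 5) .nil .nil)))) (.nd (nat_lit 5) 
(.lf (nat_lit 148379) (.g (nat_lit 2758) (.e (nat_lit 57377) (nat_lit 3) (.e (nat_lit 98313) (nat_lit 9) (.e (nat_lit 336078) (nat_lit 9) (.e (nat_lit 336454) (nat_lit 34) (.e (nat_lit 483363) (nat_lit 18) (.e (nat_lit 57849) (nat_lit 252) .nil)))))) (.g (nat_lit 5) .nil .nil))) 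
(.lf (nat_lit 148411) (.g (nat_lit 3158) (.e (nat_lit 57377) (nat_lit 3) (.e (nat_lit 98313) (nat_lit 9) (.e (nat_lit 336088) (nat_lit 9) (.e (nat_lit 336456) (nat_lit 34) (.e (nat_lit 483363) (nat_lit 18) (.e (nat_lit 57853) (nat_lit 252) .nil)))))) (.g (nat_lit 5) .nil .nil)))))) (.nd (nat_lit 3) (.nd (nat_lit 4) (.nd (nat_lit 5) 
(.lf (nat_lit 148359) (.g (nat_lit 3869) (.e (nat_lit 57377) (nat_lit 3) (.e (nat_lit 98313) (nat_lit 9) (.e (nat_lit 336075) (nat_lit 9) (.e (nat_lit 336454) (nat_lit 34) (.e (nat_lit 483365) (nat_lit 18) (.e (nat_lit 57849) (nat_lit 252) .nil)))))) (.g (nat_lit 5) .nil .nil))) 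
(.lf (nat_lit 148391) (.g (nat_lit 2529) (.e (nat_lit 57377) (nat_lit 3) (.e (nat_lit 98313) (nat_lit 9) (.e (nat_lit 336086) (nat_lit 9) (.e (nat_lit 336454) (nat_lit 34) (.e (nat_lit 483364) (nat_lit 18) (.e (nat_lit 57854) (nat_lit 252) .nil)))))) (.g (nat_lit 4) .nil .nil)))) (.nd (nat_lit 5) 
(.lf (nat_lit 148375) (.g (nat_lit 2994) (.e (nat_lit 57377) (nat_lit 3) (.e (nat_lit 98313) (nat_lit 9) (.e (nat_lit 336077) (nat_lit 9) (.e (nat_lit 336454) (nat_lit 34) (.e (nat_lit 483363) (nat_lit 18) (.e (nat_lit 57847) (nat_lit 252) .nil)))))) (.g (nat_lit 6) .nil .nil))) 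
(.lf (nat_lit 148407) (.g (nat_lit 2359) (.e (nat_lit 57377) (nat_lit 3) (.e (nat_lit 98313) (nat_lit 9) (.e (nat_lit 336088) (nat_lit 9) (.e (nat_lit 336454) (nat_lit 34) (.e (nat_lit 483366) (nat_lit 18) (.e (nat_lit 57844) (nat_lit 252) .nil)))))) (.g (nat_lit 5) .nil .nil))))) (.nd (nat_lit 4) (.nd (nat_lit 5) 
(.lf (nat_lit 148367) (.g (nat_lit 2918) (.e (nat_lit 57377) (nat_lit 3) (.e (nat_lit 98313) (nat_lit 9) (.e (nat_lit 336076) (nat_lit 9) (.e (nat_lit 336454) (nat_lit 34) (.e (nat_lit 483366) (nat_lit 18) (.e (nat_lit 57853) (nat_lit 252) .nil)))))) (.g (nat_lit 6) .nil .nil))) 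
(.lf (nat_lit 148399) (.g (nat_lit 1104) (.e (nat_lit 57377) (nat_lit 3) (.e (nat_lit 98313) (nat_lit 9) (.e (nat_lit 336088) (nat_lit 9) (.e (nat_lit 336374) (nat_lit 27) .nil)))) .nil))) (.nd (nat_lit 5) 
(.lf (nat_lit 148383) (.g (nat_lit 3133) (.e (nat_lit 57377) (nat_lit 3) (.e (nat_lit 98313) (nat_lit 9) (.e (nat_lit 336078) (nat_lit 9) (.e (nat_lit 336454) (nat_lit 34) (.e (nat_lit 483365) (nat_lit 18) (.e (nat_lit 57854) (nat_lit 252) .nil)))))) (.g (nat_lit 6) .nil .nil))) 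
(.lf (nat_lit 148415) (.g (nat_lit 3339) (.e (nat_lit 57377) (nat_lit 3) (.e (nat_lit 98313) (nat_lit 9) (.e (nat_lit 336088) (nat_lit 9) (.e (nat_lit 336456) (nat_lit 34) (.e (nat_lit 483365) (nat_lit 18) (.e (nat_lit 57846) (nat_lit 252) .nil)))))) (.g (nat_lit 6) .nil .nil)))))))))

noncomputable def tv1975 : DT := (.nd (nat_lit 0) (.nd (nat_lit 1) (.nd (nat_lit 2) (.nd (nat_lit 3) (.nd (nat_lit 4) (.nd (nat_lit 5) 
(.lf (nat_lit 148416) (.g (nat_lit 3287) (.e (nat_lit 57377) (nat_lit 3) (.e (nat_lit 98313) (nat_lit 9) (.e (nat_lit 336088) (nat_lit 9) (.e (nat_lit 336456) (nat_lit 34) (.e (nat_lit 483365) (nat_lit 18) (.e (nat_lit 57847) (nat_lit 252) .nil)))))) (.g (nat_lit 6) .nil .nil))) 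
(.lf (nat_lit 148448) (.g (nat_lit 2764) (.e (nat_lit 57377) (nat_lit 3) (.e (nat_lit 98313) (nat_lit 9) (.e (nat_lit 336214) (nat_lit 13) (.e (nat_lit 393229) (nat_lit 9) (.e (nat_lit 335986) (nat_lit 1) (.e (nat_lit 57847) (nat_lit 252) .nil)))))) (.g (nat_lit 6) .nil .nil)))) (.nd (nat_lit 5) 
(.lf (nat_lit 148432) (.g (nat_lit 3137) (.e (nat_lit 57377) (nat_lit 3) (.e (nat_lit 98313) (nat_lit 9) (.e (nat_lit 336213) (nat_lit 13) (.e (nat_lit 393225) (nat_lit 9) (.e (nat_lit 335988) (nat_lit 1) (.e (nat_lit 57854) (nat_lit 252) .nil)))))) (.g (nat_lit 0) .nil .nil))) 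
(.lf (nat_lit 148464) (.g (nat_lit 3145) (.e (nat_lit 57377) (nat_lit 3) (.e (nat_lit 98313) (nat_lit 9) (.e (nat_lit 336220) (nat_lit 13) (.e (nat_lit 393225) (nat_lit 9) (.e (nat_lit 335996) (nat_lit 1) (.e (nat_lit 57854) (nat_lit 252) .nil)))))) (.g (nat_lit 6) .nil .nil))))) (.nd (nat_lit 4) (.nd (nat_lit 5) 
(.lf (nat_lit 148424) (.g (nat_lit 2563) (.e (nat_lit 57377) (nat_lit 3) (.e (nat_lit 98313) (nat_lit 9) (.e (nat_lit 336212) (nat_lit 13) (.e (nat_lit 393225) (nat_lit 9) (.e (nat_lit 335988) (nat_lit 1) (.e (nat_lit 57854) (nat_lit 252) .nil)))))) (.g (nat_lit 6) .nil .nil))) 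
(.lf (nat_lit 148456) (.g (nat_lit 3558) (.e (nat_lit 57377) (nat_lit 3) (.e (nat_lit 98313) (nat_lit 9) (.e (nat_lit 336215) (nat_lit 13) (.e (nat_lit 393229) (nat_lit 9) (.e (nat_lit 335995) (nat_lit 1) (.e (nat_lit 57847) (nat_lit 252) .nil)))))) (.g (nat_lit 0) .nil .nil)))) (.nd (nat_lit 5) 
(.lf (nat_lit 148440) (.g (nat_lit 3243) (.e (nat_lit 57377) (nat_lit 3) (.e (nat_lit 98313) (nat_lit 9) (.e (nat_lit 336213) (nat_lit 13) (.e (nat_lit 393229) (nat_lit 9) (.e (nat_lit 335987) (nat_lit 1) (.e (nat_lit 57854) (nat_lit 252) .nil)))))) (.g (nat_lit 6) .nil .nil))) 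
(.lf (nat_lit 148472) (.g (nat_lit 1847) (.e (nat_lit 57377) (nat_lit 3) (.e (nat_lit 98313) (nat_lit 9) (.e (nat_lit 336222) (nat_lit 13) (.e (nat_lit 393225) (nat_lit 9) (.e (nat_lit 335995) (nat_lit 1) (.e (nat_lit 57848) (nat_lit 252) .nil)))))) (.g (nat_lit 4) .nil .nil)))))) (.nd (nat_lit 3) (.nd (nat_lit 4) (.nd (nat_lit 5) 
(.lf (nat_lit 148420) (.g (nat_lit 1688) (.e (nat_lit 57377) (nat_lit 3) (.e (nat_lit 98313) (nat_lit 9) (.e (nat_lit 336091) (nat_lit 9) (.e (nat_lit 336389) (nat_lit 27) (.e (nat_lit 426500) (nat_lit 27) .nil))))) .nil)) 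
(.lf (nat_lit 148452) (.g (nat_lit 3488) (.e (nat_lit 57377) (nat_lit 3) (.e (nat_lit 98313) (nat_lit 9) (.e (nat_lit 336215) (nat_lit 13) (.e (nat_lit 393229) (nat_lit 9) (.e (nat_lit 335986) (nat_lit 1) (.e (nat_lit 57847) (nat_lit 252) .nil)))))) (.g (nat_lit 0) .nil .nil)))) (.nd (nat_lit 5) 
(.lf (nat_lit 148436) (.g (nat_lit 3557) (.e (nat_lit 57377) (nat_lit 3) (.e (nat_lit 98313) (nat_lit 9) (.e (nat_lit 336213) (nat_lit 13) (.e (nat_lit 393225) (nat_lit 9) (.e (nat_lit 335996) (nat_lit 1) (.e (nat_lit 57854) (nat_lit 252) .nil)))))) (.g (nat_lit 0) .nil .nil))) 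
(.lf (nat_lit 148468) (.g (nat_lit 2864) (.e (nat_lit 57377) (nat_lit 3) (.e (nat_lit 98313) (nat_lit 9) (.e (nat_lit 336222) (nat_lit 13) (.e (nat_lit 393224) (nat_lit 9) (.e (nat_lit 335988) (nat_lit 1) (.e (nat_lit 57854) (nat_lit 252) .nil)))))) (.g (nat_lit 6) .nil .nil))))) (.nd (nat_lit 4) (.nd (nat_lit 5) 
(.lf (nat_lit 148428) (.g (nat_lit 2897) (.e (nat_lit 57377) (nat_lit 3) (.e (nat_lit 98313) (nat_lit 9) (.e (nat_lit 336212) (nat_lit 13) (.e (nat_lit 393225) (nat_lit 9) (.e (nat_lit 335996) (nat_lit 1) (.e (nat_lit 57854) (nat_lit 252) .nil)))))) (.g (nat_lit 6) .nil .nil))) 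
(.lf (nat_lit 148460) (.g (nat_lit 2869) (.e (nat_lit 57377) (nat_lit 3) (.e (nat_lit 98313) (nat_lit 9) (.e (nat_lit 336220) (nat_lit 13) (.e (nat_lit 393225) (nat_lit 9) (.e (nat_lit 335986) (nat_lit 1) (.e (nat_lit 57847) (nat_lit 252) .nil)))))) (.g (nat_lit 6) .nil .nil)))) (.nd (nat_lit 5) 
(.lf (nat_lit 148444) (.g (nat_lit 3270) (.e (nat_lit 57377) (nat_lit 3) (.e (nat_lit 98313) (nat_lit 9) (.e (nat_lit 336213) (nat_lit 13) (.e (nat_lit 393229) (nat_lit 9) (.e (nat_lit 335995) (nat_lit 1) (.e (nat_lit 57847) (nat_lit 252) .nil)))))) (.g (nat_lit 0) .nil .nil))) 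
(.lf (nat_lit 148476) (.g (nat_lit 1867) (.e (nat_lit 57377) (nat_lit 3) (.e (nat_lit 98313) (nat_lit 9) (.e (nat_lit 336222) (nat_lit 13) (.e (nat_lit 393229) (nat_lit 9) (.e (nat_lit 335985) (nat_lit 1) (.e (nat_lit 57849) (nat_lit 252) .nil)))))) (.g (nat_lit 4) .nil .nil))))))) (.nd (nat_lit 2) (.nd (nat_lit 3) (.nd (nat_lit 4) (.nd (nat_lit 5) 
(.lf (nat_lit 148418) (.g (nat_lit 3300) (.e (nat_lit 57377) (nat_lit 3) (.e (nat_lit 98313) (nat_lit 9) (.e (nat_lit 336088) (nat_lit 9) (.e (nat_lit 336456) (nat_lit 34) (.e (nat_lit 483365) (nat_lit 18) (.e (nat_lit 57853) (nat_lit 252) .nil)))))) (.g (nat_lit 6) .nil .nil))) 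
(.lf (nat_lit 148450) (.g (nat_lit 3081) (.e (nat_lit 57377) (nat_lit 3) (.e (nat_lit 98313) (nat_lit 9) (.e (nat_lit 336214) (nat_lit 13) (.e (nat_lit 393229) (nat_lit 9) (.e (nat_lit 335995) (nat_lit 1) (.e (nat_lit 57847) (nat_lit 252) .nil)))))) (.g (nat_lit 6) .nil .nil)))) (.nd (nat_lit 5) 
(.lf (nat_lit 148434) (.g (nat_lit 3243) (.e (nat_lit 57377) (nat_lit 3) (.e (nat_lit 98313) (nat_lit 9) (.e (nat_lit 336213) (nat_lit 13) (.e (nat_lit 393225) (nat_lit 9) (.e (nat_lit 335996) (nat_lit 1) (.e (nat_lit 57851) (nat_lit 252) .nil)))))) (.g (nat_lit 6) .nil .nil))) 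
(.lf (nat_lit 148466) (.g (nat_lit 1250) (.e (nat_lit 57377) (nat_lit 3) (.e (nat_lit 98313) (nat_lit 9) (.e (nat_lit 336221) (nat_lit 13) (.e (nat_lit 393225) (nat_lit 9) (.e (nat_lit 335996) (nat_lit 1) .nil))))) .nil)))) (.nd (nat_lit 4) (.nd (nat_lit 5) 
(.lf (nat_lit 148426) (.g (nat_lit 2506) (.e (nat_lit 57377) (nat_lit 3) (.e (nat_lit 98313) (nat_lit 9) (.e (nat_lit 336212) (nat_lit 13) (.e (nat_lit 393225) (nat_lit 9) (.e (nat_lit 335995) (nat_lit 1) (.e (nat_lit 57848) (nat_lit 252) .nil)))))) (.g (nat_lit 5) .nil .nil))) 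
(.lf (nat_lit 148458) (.g (nat_lit 3697) (.e (nat_lit 57377) (nat_lit 3) (.e (nat_lit 98313) (nat_lit 9) (.e (nat_lit 336215) (nat_lit 13) (.e (nat_lit 393229) (nat_lit 9) (.e (nat_lit 335996) (nat_lit 1) (.e (nat_lit 57853) (nat_lit 252) .nil)))))) (.g (nat_lit 6) .nil .nil)))) (.nd (nat_lit 5) 
(.lf (nat_lit 148442) (.g (nat_lit 2757) (.e (nat_lit 57377) (nat_lit 3) (.e (nat_lit 98313) (nat_lit 9) (.e (nat_lit 336213) (nat_lit 13) (.e (nat_lit 393229) (nat_lit 9) (.e (nat_lit 335994) (nat_lit 1) (.e (nat_lit 57847) (nat_lit 252) .nil)))))) (.g (nat_lit 0) .nil .nil))) 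
(.lf (nat_lit 148474) (.g (nat_lit 2597) (.e (nat_lit 57377) (nat_lit 3) (.e (nat_lit 98313) (nat_lit 9) (.e (nat_lit 336222) (nat_lit 13) (.e (nat_lit 393225) (nat_lit 9) (.e (nat_lit 335996) (nat_lit 1) (.e (nat_lit 57852) (nat_lit 252) .nil)))))) (.g (nat_lit 5) .nil .nil)))))) (.nd (nat_lit 3) (.nd (nat_lit 4) (.nd (nat_lit 5) 
(.lf (nat_lit 148422) (.g (nat_lit 528) (.e (nat_lit 57377) (nat_lit 3) (.e (nat_lit 98313) (nat_lit 9) (.e (nat_lit 336196) (nat_lit 12) .nil))) .nil)) 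
(.lf (nat_lit 148454) (.g (nat_lit 3193) (.e (nat_lit 57377) (nat_lit 3) (.e (nat_lit 98313) (nat_lit 9) (.e (nat_lit 336215) (nat_lit 13) (.e (nat_lit 393229) (nat_lit 9) (.e (nat_lit 335988) (nat_lit 1) (.e (nat_lit 57852) (nat_lit 252) .nil)))))) (.g (nat_lit 6) .nil .nil)))) (.nd (nat_lit 5) 
(.lf (nat_lit 148438) (.g (nat_lit 2978) (.e (nat_lit 57377) (nat_lit 3) (.e (nat_lit 98313) (nat_lit 9) (.e (nat_lit 336213) (nat_lit 13) (.e (nat_lit 393229) (nat_lit 9) (.e (nat_lit 335986) (nat_lit 1) (.e (nat_lit 57847) (nat_lit 252) .nil)))))) (.g (nat_lit 0) .nil .nil))) 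
(.lf (nat_lit 148470) (.g (nat_lit 2792) (.e (nat_lit 57377) (nat_lit 3) (.e (nat_lit 98313) (nat_lit 9) (.e (nat_lit 336222) (nat_lit 13) (.e (nat_lit 393225) (nat_lit 9) (.e (nat_lit 335986) (nat_lit 1) (.e (nat_lit 57847) (nat_lit 252) .nil)))))) (.g (nat_lit 6) .nil .nil))))) (.nd (nat_lit 4) (.nd (nat_lit 5) 
(.lf (nat_lit 148430) (.g (nat_lit 1358) (.e (nat_lit 57377) (nat_lit 3) (.e (nat_lit 98313) (nat_lit 9) (.e (nat_lit 336213) (nat_lit 13) (.e (nat_lit 393224) (nat_lit 9) .nil)))) .nil)) 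
(.lf (nat_lit 148462) (.g (nat_lit 3341) (.e (nat_lit 57377) (nat_lit 3) (.e (nat_lit 98313) (nat_lit 9) (.e (nat_lit 336220) (nat_lit 13) (.e (nat_lit 393225) (nat_lit 9) (.e (nat_lit 335995) (nat_lit 1) (.e (nat_lit 57847) (nat_lit 252) .nil)))))) (.g (nat_lit 0) .nil .nil)))) (.nd (nat_lit 5) 
(.lf (nat_lit 148446) (.g (nat_lit 3229) (.e (nat_lit 57377) (nat_lit 3) (.e (nat_lit 98313) (nat_lit 9) (.e (nat_lit 336213) (nat_lit 13) (.e (nat_lit 393229) (nat_lit 9) (.e (nat_lit 335996) (nat_lit 1) (.e (nat_lit 57852) (nat_lit 252) .nil)))))) (.g (nat_lit 6) .nil .nil))) 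
(.lf (nat_lit 148478) (.g (nat_lit 2493) (.e (nat_lit 57377) (nat_lit 3) (.e (nat_lit 98313) (nat_lit 9) (.e (nat_lit 336222) (nat_lit 13) (.e (nat_lit 393229) (nat_lit 9) (.e (nat_lit 335986) (nat_lit 1) (.e (nat_lit 57854) (nat_lit 252) .nil)))))) (.g (nat_lit 5) .nil .nil)))))))) (.nd (nat_lit 1) (.nd (nat_lit 2) (.nd (nat_lit 3) (.nd (nat_lit 4) (.nd (nat_lit 5) 
(.lf (nat_lit 148417) (.g (nat_lit 2378) (.e (nat_lit 57377) (nat_lit 3) (.e (nat_lit 98313) (nat_lit 9) (.e (nat_lit 336088) (nat_lit 9) (.e (nat_lit 336456) (nat_lit 34) (.e (nat_lit 483365) (nat_lit 18) (.e (nat_lit 57851) (nat_lit 252) .nil)))))) (.g (nat_lit 4) .nil .nil))) 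
(.lf (nat_lit 148449) (.g (nat_lit 2749) (.e (nat_lit 57377) (nat_lit 3) (.e (nat_lit 98313) (nat_lit 9) (.e (nat_lit 336214) (nat_lit 13) (.e (nat_lit 393229) (nat_lit 9) (.e (nat_lit 335988) (nat_lit 1) (.e (nat_lit 57854) (nat_lit 252) .nil)))))) (.g (nat_lit 6) .nil .nil)))) (.nd (nat_lit 5) 
(.lf (nat_lit 148433) (.g (nat_lit 3697) (.e (nat_lit 57377) (nat_lit 3) (.e (nat_lit 98313) (nat_lit 9) (.e (nat_lit 336213) (nat_lit 13) (.e (nat_lit 393225) (nat_lit 9) (.e (nat_lit 335995) (nat_lit 1) (.e (nat_lit 57847) (nat_lit 252) .nil)))))) (.g (nat_lit 0) .nil .nil))) 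
(.lf (nat_lit 148465) (.g (nat_lit 528) (.e (nat_lit 57377) (nat_lit 3) (.e (nat_lit 98313) (nat_lit 9) (.e (nat_lit 336221) (nat_lit 13) .nil))) .nil)))) (.nd (nat_lit 4) (.nd (nat_lit 5) 
(.lf (nat_lit 148425) (.g (nat_lit 3186) (.e (nat_lit 57377) (nat_lit 3) (.e (nat_lit 98313) (nat_lit 9) (.e (nat_lit 336212) (nat_lit 13) (.e (nat_lit 393225) (nat_lit 9) (.e (nat_lit 335995) (nat_lit 1) (.e (nat_lit 57847) (nat_lit 252) .nil)))))) (.g (nat_lit 6) .nil .nil))) 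
(.lf (nat_lit 148457) (.g (nat_lit 3584) (.e (nat_lit 57377) (nat_lit 3) (.e (nat_lit 98313) (nat_lit 9) (.e (nat_lit 336215) (nat_lit 13) (.e (nat_lit 393229) (nat_lit 9) (.e (nat_lit 335996) (nat_lit 1) (.e (nat_lit 57852) (nat_lit 252) .nil)))))) (.g (nat_lit 6) .nil .nil)))) (.nd (nat_lit 5) 
(.lf (nat_lit 148441) (.g (nat_lit 2821) (.e (nat_lit 57377) (nat_lit 3) (.e (nat_lit 98313) (nat_lit 9) (.e (nat_lit 336213) (nat_lit 13) (.e (nat_lit 393229) (nat_lit 9) (.e (nat_lit 335988) (nat_lit 1) (.e (nat_lit 57852) (nat_lit 252) .nil)))))) (.g (nat_lit 6) .nil .nil))) 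
(.lf (nat_lit 148473) (.g (nat_lit 2264) (.e (nat_lit 57377) (nat_lit 3) (.e (nat_lit 98313) (nat_lit 9) (.e (nat_lit 336222) (nat_lit 13) (.e (nat_lit 393225) (nat_lit 9) (.e (nat_lit 335996) (nat_lit 1) (.e (nat_lit 57851) (nat_lit 252) .nil)))))) (.g (nat_lit 5) .nil .nil)))))) (.nd (nat_lit 3) (.nd (nat_lit 4) (.nd (nat_lit 5) 
(.lf (nat_lit 148421) (.g (nat_lit 473) (.e (nat_lit 57377) (nat_lit 3) (.e (nat_lit 98313) (nat_lit 9) (.e (nat_lit 336100) (nat_lit 9) .nil))) .nil)) 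
(.lf (nat_lit 148453) (.g (nat_lit 2540) (.e (nat_lit 57377) (nat_lit 3) (.e (nat_lit 98313) (nat_lit 9) (.e (nat_lit 336215) (nat_lit 13) (.e (nat_lit 393229) (nat_lit 9) (.e (nat_lit 335987) (nat_lit 1) .nil))))) .nil))) (.nd (nat_lit 5) 
(.lf (nat_lit 148437) (.g (nat_lit 2299) (.e (nat_lit 57377) (nat_lit 3) (.e (nat_lit 98313) (nat_lit 9) (.e (nat_lit 336213) (nat_lit 13) (.e (nat_lit 393229) (nat_lit 9) (.e (nat_lit 335933) (nat_lit 0) .nil))))) .nil)) 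
(.lf (nat_lit 148469) (.g (nat_lit 3166) (.e (nat_lit 57377) (nat_lit 3) (.e (nat_lit 98313) (nat_lit 9) (.e (nat_lit 336222) (nat_lit 13) (.e (nat_lit 393224) (nat_lit 9) (.e (nat_lit 335996) (nat_lit 1) (.e (nat_lit 57852) (nat_lit 252) .nil)))))) (.g (nat_lit 6) .nil .nil))))) (.nd (nat_lit 4) (.nd (nat_lit 5) 
(.lf (nat_lit 148429) (.g (nat_lit 981) (.e (nat_lit 57377) (nat_lit 3) (.e (nat_lit 98313) (nat_lit 9) (.e (nat_lit 336212) (nat_lit 13) (.e (nat_lit 393229) (nat_lit 9) .nil)))) .nil)) 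
(.lf (nat_lit 148461) (.g (nat_lit 2715) (.e (nat_lit 57377) (nat_lit 3) (.e (nat_lit 98313) (nat_lit 9) (.e (nat_lit 336220) (nat_lit 13) (.e (nat_lit 393225) (nat_lit 9) (.e (nat_lit 335988) (nat_lit 1) (.e (nat_lit 57854) (nat_lit 252) .nil)))))) (.g (nat_lit 6) .nil .nil)))) (.nd (nat_lit 5) 
(.lf (nat_lit 148445) (.g (nat_lit 3047) (.e (nat_lit 57377) (nat_lit 3) (.e (nat_lit 98313) (nat_lit 9) (.e (nat_lit 336213) (nat_lit 13) (.e (nat_lit 393229) (nat_lit 9) (.e (nat_lit 335996) (nat_lit 1) (.e (nat_lit 57851) (nat_lit 252) .nil)))))) (.g (nat_lit 6) .nil .nil))) 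
(.lf (nat_lit 148477) (.g (nat_lit 3016) (.e (nat_lit 57377) (nat_lit 3) (.e (nat_lit 98313) (nat_lit 9) (.e (nat_lit 336222) (nat_lit 13) (.e (nat_lit 393229) (nat_lit 9) (.e (nat_lit 335986) (nat_lit 1) (.e (nat_lit 57847) (nat_lit 252) .nil)))))) (.g (nat_lit 0) .nil .nil))))))) (.nd (nat_lit 2) (.nd (nat_lit 3) (.nd (nat_lit 4) (.nd (nat_lit 5) 
(.lf (nat_lit 148419) (.g (nat_lit 3381) (.e (nat_lit 57377) (nat_lit 3) (.e (nat_lit 98313) (nat_lit 9) (.e (nat_lit 336088) (nat_lit 9) (.e (nat_lit 336456) (nat_lit 34) (.e (nat_lit 483365) (nat_lit 18) (.e (nat_lit 57854) (nat_lit 252) .nil)))))) (.g (nat_lit 6) .nil .nil))) 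
(.lf (nat_lit 148451) (.g (nat_lit 3153) (.e (nat_lit 57377) (nat_lit 3) (.e (nat_lit 98313) (nat_lit 9) (.e (nat_lit 336214) (nat_lit 13) (.e (nat_lit 393229) (nat_lit 9) (.e (nat_lit 335996) (nat_lit 1) (.e (nat_lit 57854) (nat_lit 252) .nil)))))) (.g (nat_lit 6) .nil .nil)))) (.nd (nat_lit 5) 
(.lf (nat_lit 148435) (.g (nat_lit 3288) (.e (nat_lit 57377) (nat_lit 3) (.e (nat_lit 98313) (nat_lit 9) (.e (nat_lit 336213) (nat_lit 13) (.e (nat_lit 393225) (nat_lit 9) (.e (nat_lit 335996) (nat_lit 1) (.e (nat_lit 57852) (nat_lit 252) .nil)))))) (.g (nat_lit 6) .nil .nil))) 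
(.lf (nat_lit 148467) (.g (nat_lit 429) (.e (nat_lit 57377) (nat_lit 3) (.e (nat_lit 98313) (nat_lit 9) (.e (nat_lit 336222) (nat_lit 13) .nil))) .nil)))) (.nd (nat_lit 4) (.nd (nat_lit 5) 
(.lf (nat_lit 148427) (.g (nat_lit 2690) (.e (nat_lit 57377) (nat_lit 3) (.e (nat_lit 98313) (nat_lit 9) (.e (nat_lit 336212) (nat_lit 13) (.e (nat_lit 393225) (nat_lit 9) (.e (nat_lit 335996) (nat_lit 1) (.e (nat_lit 57852) (nat_lit 252) .nil)))))) (.g (nat_lit 5) .nil .nil))) 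
(.lf (nat_lit 148459) (.g (nat_lit 3862) (.e (nat_lit 57377) (nat_lit 3) (.e (nat_lit 98313) (nat_lit 9) (.e (nat_lit 336215) (nat_lit 13) (.e (nat_lit 393229) (nat_lit 9) (.e (nat_lit 335996) (nat_lit 1) (.e (nat_lit 57854) (nat_lit 252) .nil)))))) (.g (nat_lit 0) .nil .nil)))) (.nd (nat_lit 5) 
(.lf (nat_lit 148443) (.g (nat_lit 2648) (.e (nat_lit 57377) (nat_lit 3) (.e (nat_lit 98313) (nat_lit 9) (.e (nat_lit 336213) (nat_lit 13) (.e (nat_lit 393229) (nat_lit 9) (.e (nat_lit 335994) (nat_lit 1) (.e (nat_lit 57853) (nat_lit 252) .nil)))))) (.g (nat_lit 6) .nil .nil))) 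
(.lf (nat_lit 148475) (.g (nat_lit 2782) (.e (nat_lit 57377) (nat_lit 3) (.e (nat_lit 98313) (nat_lit 9) (.e (nat_lit 336222) (nat_lit 13) (.e (nat_lit 393225) (nat_lit 9) (.e (nat_lit 335996) (nat_lit 1) (.e (nat_lit 57854) (nat_lit 252) .nil)))))) (.g (nat_lit 6) .nil .nil)))))) (.nd (nat_lit 3) (.nd (nat_lit 4) (.nd (nat_lit 5) 
(.lf (nat_lit 148423) (.g (nat_lit 2694) (.e (nat_lit 57377) (nat_lit 3) (.e (nat_lit 98313) (nat_lit 9) (.e (nat_lit 336212) (nat_lit 13) (.e (nat_lit 393225) (nat_lit 9) (.e (nat_lit 335986) (nat_lit 1) (.e (nat_lit 57847) (nat_lit 252) .nil)))))) (.g (nat_lit 6) .nil .nil))) 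
(.lf (nat_lit 148455) (.g (nat_lit 3423) (.e (nat_lit 57377) (nat_lit 3) (.e (nat_lit 98313) (nat_lit 9) (.e (nat_lit 336215) (nat_lit 13) (.e (nat_lit 393229) (nat_lit 9) (.e (nat_lit 335988) (nat_lit 1) (.e (nat_lit 57854) (nat_lit 252) .nil)))))) (.g (nat_lit 0) .nil .nil)))) (.nd (nat_lit 5) 
(.lf (nat_lit 148439) (.g (nat_lit 2196) (.e (nat_lit 57377) (nat_lit 3) (.e (nat_lit 98313) (nat_lit 9) (.e (nat_lit 336213) (nat_lit 13) (.e (nat_lit 393229) (nat_lit 9) (.e (nat_lit 335987) (nat_lit 1) (.e (nat_lit 57852) (nat_lit 252) .nil)))))) (.g (nat_lit 4) .nil .nil))) 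
(.lf (nat_lit 148471) (.g (nat_lit 2510) (.e (nat_lit 57377) (nat_lit 3) (.e (nat_lit 98313) (nat_lit 9) (.e (nat_lit 336222) (nat_lit 13) (.e (nat_lit 393225) (nat_lit 9) (.e (nat_lit 335988) (nat_lit 1) (.e (nat_lit 57854) (nat_lit 252) .nil)))))) (.g (nat_lit 6) .nil .nil))))) (.nd (nat_lit 4) (.nd (nat_lit 5) 
(.lf (nat_lit 148431) (.g (nat_lit 3272) (.e (nat_lit 57377) (nat_lit 3) (.e (nat_lit 98313) (nat_lit 9) (.e (nat_lit 336213) (nat_lit 13) (.e (nat_lit 393225) (nat_lit 9) (.e (nat_lit 335986) (nat_lit 1) (.e (nat_lit 57847) (nat_lit 252) .nil)))))) (.g (nat_lit 0) .nil .nil))) 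
(.lf (nat_lit 148463) (.g (nat_lit 2850) (.e (nat_lit 57377) (nat_lit 3) (.e (nat_lit 98313) (nat_lit 9) (.e (nat_lit 336220) (nat_lit 13) (.e (nat_lit 393225) (nat_lit 9) (.e (nat_lit 335996) (nat_lit 1) (.e (nat_lit 57851) (nat_lit 252) .nil)))))) (.g (nat_lit 6) .nil .nil)))) (.nd (nat_lit 5) 
(.lf (nat_lit 148447) (.g (nat_lit 1824) (.e (nat_lit 57377) (nat_lit 3) (.e (nat_lit 98313) (nat_lit 9) (.e (nat_lit 336214) (nat_lit 13) (.e (nat_lit 393225) (nat_lit 9) (.e (nat_lit 335996) (nat_lit 1) .nil))))) .nil)) 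
(.lf (nat_lit 148479) (.g (nat_lit 2861) (.e (nat_lit 57377) (nat_lit 3) (.e (nat_lit 98313) (nat_lit 9) (.e (nat_lit 336222) (nat_lit 13) (.e (nat_lit 393229) (nat_lit 9) (.e (nat_lit 335988) (nat_lit 1) (.e (nat_lit 57852) (nat_lit 252) .nil)))))) (.g (nat_lit 6) .nil .nil)))))))))

noncomputable def tv1976 : DT := (.nd (nat_lit 0) (.nd (nat_lit 1) (.nd (nat_lit 2) (.nd (nat_lit 3) (.nd (nat_lit 4) (.nd (nat_lit 5) 
(.lf (nat_lit 148480) (.g (nat_lit 3056) (.e (nat_lit 57377) (nat_lit 3) (.e (nat_lit 98313) (nat_lit 9) (.e (nat_lit 336222) (nat_lit 13) (.e (nat_lit 393229) (nat_lit 9) (.e (nat_lit 335988) (nat_lit 1) (.e (nat_lit 57854) (nat_lit 252) .nil)))))) (.g (nat_lit 0) .nil .nil))) 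
(.lf (nat_lit 148512) (.g (nat_lit 1688) (.e (nat_lit 57377) (nat_lit 3) (.e (nat_lit 98313) (nat_lit 9) (.e (nat_lit 336223) (nat_lit 13) (.e (nat_lit 393234) (nat_lit 17) (.e (nat_lit 2398) (nat_lit 157) .nil))))) .nil))) (.nd (nat_lit 5) 
(.lf (nat_lit 148496) (.g (nat_lit 2974) (.e (nat_lit 57377) (nat_lit 3) (.e (nat_lit 98313) (nat_lit 9) (.e (nat_lit 336223) (nat_lit 13) (.e (nat_lit 393225) (nat_lit 9) (.e (nat_lit 335988) (nat_lit 1) (.e (nat_lit 57854) (nat_lit 252) .nil)))))) (.g (nat_lit 0) .nil .nil))) 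
(.lf (nat_lit 148528) (.g (nat_lit 2323) (.e (nat_lit 57377) (nat_lit 3) (.e (nat_lit 98315) (nat_lit 9) (.e (nat_lit 336119) (nat_lit 9) (.e (nat_lit 336453) (nat_lit 34) (.e (nat_lit 483365) (nat_lit 18) (.e (nat_lit 57854) (nat_lit 252) .nil)))))) (.g (nat_lit 0) .nil .nil))))) (.nd (nat_lit 4) (.nd (nat_lit 5) 
(.lf (nat_lit 148488) (.g (nat_lit 334) (.e (nat_lit 57377) (nat_lit 3) (.e (nat_lit 98313) (nat_lit 9) (.e (nat_lit 336223) (nat_lit 13) .nil))) .nil)) 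
(.lf (nat_lit 148520) (.g (nat_lit 1743) (.e (nat_lit 57377) (nat_lit 3) (.e (nat_lit 98315) (nat_lit 9) (.e (nat_lit 336116) (nat_lit 9) (.e (nat_lit 336453) (nat_lit 34) (.e (nat_lit 483365) (nat_lit 18) (.e (nat_lit 57851) (nat_lit 252) .nil)))))) (.g (nat_lit 6) .nil .nil)))) (.nd (nat_lit 5) 
(.lf (nat_lit 148504) (.g (nat_lit 3077) (.e (nat_lit 57377) (nat_lit 3) (.e (nat_lit 98313) (nat_lit 9) (.e (nat_lit 336223) (nat_lit 13) (.e (nat_lit 393229) (nat_lit 9) (.e (nat_lit 335986) (nat_lit 1) (.e (nat_lit 57847) (nat_lit 252) .nil)))))) (.g (nat_lit 0) .nil .nil))) 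
(.lf (nat_lit 148536) (.g (nat_lit 1917) (.e (nat_lit 57377) (nat_lit 3) (.e (nat_lit 98315) (nat_lit 9) (.e (nat_lit 336152) (nat_lit 9) (.e (nat_lit 336453) (nat_lit 34) (.e (nat_lit 483364) (nat_lit 18) (.e (nat_lit 57852) (nat_lit 252) .nil)))))) (.g (nat_lit 6) .nil .nil)))))) (.nd (nat_lit 3) (.nd (nat_lit 4) (.nd (nat_lit 5) 
(.lf (nat_lit 148484) (.g (nat_lit 2421) (.e (nat_lit 57377) (nat_lit 3) (.e (nat_lit 98313) (nat_lit 9) (.e (nat_lit 336222) (nat_lit 13) (.e (nat_lit 393229) (nat_lit 9) (.e (nat_lit 335996) (nat_lit 1) (.e (nat_lit 57851) (nat_lit 252) .nil)))))) (.g (nat_lit 5) .nil .nil))) 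
(.lf (nat_lit 148516) (.g (nat_lit 1795) (.e (nat_lit 57377) (nat_lit 3) (.e (nat_lit 98313) (nat_lit 9) (.e (nat_lit 336223) (nat_lit 13) (.e (nat_lit 393234) (nat_lit 17) (.e (nat_lit 7936) (nat_lit 220) (.e (nat_lit 720929) (nat_lit 21) (.e (nat_lit 57735) (nat_lit 183) .nil))))))) (.g (nat_lit 4) .nil .nil)))) (.nd (nat_lit 5) 
(.lf (nat_lit 148500) (.g (nat_lit 3400) (.e (nat_lit 57377) (nat_lit 3) (.e (nat_lit 98313) (nat_lit 9) (.e (nat_lit 336223) (nat_lit 13) (.e (nat_lit 393225) (nat_lit 9) (.e (nat_lit 335996) (nat_lit 1) (.e (nat_lit 57854) (nat_lit 252) .nil)))))) (.g (nat_lit 0) .nil .nil))) 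
(.lf (nat_lit 148532) (.g (nat_lit 1862) (.e (nat_lit 57377) (nat_lit 3) (.e (nat_lit 98315) (nat_lit 9) (.e (nat_lit 336121) (nat_lit 9) (.e (nat_lit 336453) (nat_lit 34) (.e (nat_lit 483365) (nat_lit 18) (.e (nat_lit 57848) (nat_lit 252) .nil)))))) (.g (nat_lit 0) .nil .nil))))) (.nd (nat_lit 4) (.nd (nat_lit 5) 
(.lf (nat_lit 148492) (.g (nat_lit 3470) (.e (nat_lit 57377) (nat_lit 3) (.e (nat_lit 98313) (nat_lit 9) (.e (nat_lit 336223) (nat_lit 13) (.e (nat_lit 393224) (nat_lit 9) (.e (nat_lit 335988) (nat_lit 1) (.e (nat_lit 57854) (nat_lit 252) .nil)))))) (.g (nat_lit 6) .nil .nil))) 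
(.lf (nat_lit 148524) (.g (nat_lit 2065) (.e (nat_lit 57377) (nat_lit 3) (.e (nat_lit 98315) (nat_lit 9) (.e (nat_lit 336119) (nat_lit 9) (.e (nat_lit 336453) (nat_lit 34) (.e (nat_lit 483363) (nat_lit 18) (.e (nat_lit 57847) (nat_lit 252) .nil)))))) (.g (nat_lit 6) .nil .nil)))) (.nd (nat_lit 5) 
(.lf (nat_lit 148508) (.g (nat_lit 2834) (.e (nat_lit 57377) (nat_lit 3) (.e (nat_lit 98313) (nat_lit 9) (.e (nat_lit 336223) (nat_lit 13) (.e (nat_lit 393229) (nat_lit 9) (.e (nat_lit 335994) (nat_lit 1) (.e (nat_lit 57847) (nat_lit 252) .nil)))))) (.g (nat_lit 0) .nil .nil))) 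
(.lf (nat_lit 148540) (.g (nat_lit 2150) (.e (nat_lit 57377) (nat_lit 3) (.e (nat_lit 98315) (nat_lit 9) (.e (nat_lit 336152) (nat_lit 9) (.e (nat_lit 336453) (nat_lit 34) (.e (nat_lit 483365) (nat_lit 18) (.e (nat_lit 57854) (nat_lit 252) .nil)))))) (.g (nat_lit 0) .nil .nil))))))) (.nd (nat_lit 2) (.nd (nat_lit 3) (.nd (nat_lit 4) (.nd (nat_lit 5) 
(.lf (nat_lit 148482) (.g (nat_lit 2079) (.e (nat_lit 57377) (nat_lit 3) (.e (nat_lit 98313) (nat_lit 9) (.e (nat_lit 336222) (nat_lit 13) (.e (nat_lit 393229) (nat_lit 9) (.e (nat_lit 335993) (nat_lit 1) (.e (nat_lit 57854) (nat_lit 252) .nil)))))) (.g (nat_lit 4) .nil .nil))) 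
(.lf (nat_lit 148514) (.g (nat_lit 1642) (.e (nat_lit 57377) (nat_lit 3) (.e (nat_lit 98313) (nat_lit 9) (.e (nat_lit 336223) (nat_lit 13) (.e (nat_lit 393234) (nat_lit 17) (.e (nat_lit 3479) (nat_lit 218) .nil))))) .nil))) (.nd (nat_lit 5) 
(.lf (nat_lit 148498) (.g (nat_lit 3094) (.e (nat_lit 57377) (nat_lit 3) (.e (nat_lit 98313) (nat_lit 9) (.e (nat_lit 336223) (nat_lit 13) (.e (nat_lit 393225) (nat_lit 9) (.e (nat_lit 335996) (nat_lit 1) (.e (nat_lit 57851) (nat_lit 252) .nil)))))) (.g (nat_lit 6) .nil .nil))) 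
(.lf (nat_lit 148530) (.g (nat_lit 1742) (.e (nat_lit 57377) (nat_lit 3) (.e (nat_lit 98315) (nat_lit 9) (.e (nat_lit 336119) (nat_lit 9) (.e (nat_lit 336453) (nat_lit 34) (.e (nat_lit 483366) (nat_lit 18) (.e (nat_lit 57854) (nat_lit 252) .nil)))))) (.g (nat_lit 6) .nil .nil))))) (.nd (nat_lit 4) (.nd (nat_lit 5) 
(.lf (nat_lit 148490) (.g (nat_lit 1302) (.e (nat_lit 57377) (nat_lit 3) (.e (nat_lit 98313) (nat_lit 9) (.e (nat_lit 336223) (nat_lit 13) (.e (nat_lit 393224) (nat_lit 9) .nil)))) .nil)) 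
(.lf (nat_lit 148522) (.g (nat_lit 1976) (.e (nat_lit 57377) (nat_lit 3) (.e (nat_lit 98315) (nat_lit 9) (.e (nat_lit 336118) (nat_lit 9) (.e (nat_lit 336453) (nat_lit 34) (.e (nat_lit 483364) (nat_lit 18) (.e (nat_lit 57852) (nat_lit 252) .nil)))))) (.g (nat_lit 0) .nil .nil)))) (.nd (nat_lit 5) 
(.lf (nat_lit 148506) (.g (nat_lit 2905) (.e (nat_lit 57377) (nat_lit 3) (.e (nat_lit 98313) (nat_lit 9) (.e (nat_lit 336223) (nat_lit 13) (.e (nat_lit 393229) (nat_lit 9) (.e (nat_lit 335988) (nat_lit 1) (.e (nat_lit 57852) (nat_lit 252) .nil)))))) (.g (nat_lit 6) .nil .nil))) 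
(.lf (nat_lit 148538) (.g (nat_lit 1833) (.e (nat_lit 57377) (nat_lit 3) (.e (nat_lit 98315) (nat_lit 9) (.e (nat_lit 336152) (nat_lit 9) (.e (nat_lit 336453) (nat_lit 34) (.e (nat_lit 483365) (nat_lit 18) (.e (nat_lit 57851) (nat_lit 252) .nil)))))) (.g (nat_lit 0) .nil .nil)))))) (.nd (nat_lit 3) (.nd (nat_lit 4) (.nd (nat_lit 5) 
(.lf (nat_lit 148486) (.g (nat_lit 3400) (.e (nat_lit 57377) (nat_lit 3) (.e (nat_lit 98313) (nat_lit 9) (.e (nat_lit 336222) (nat_lit 13) (.e (nat_lit 393229) (nat_lit 9) (.e (nat_lit 335996) (nat_lit 1) (.e (nat_lit 57853) (nat_lit 252) .nil)))))) (.g (nat_lit 6) .nil .nil))) 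
(.lf (nat_lit 148518) (.g (nat_lit 1690) (.e (nat_lit 57377) (nat_lit 3) (.e (nat_lit 98313) (nat_lit 9) (.e (nat_lit 336223) (nat_lit 13) (.e (nat_lit 393234) (nat_lit 17) (.e (nat_lit 3564) (nat_lit 221) (.e (nat_lit 729118) (nat_lit 26) (.e (nat_lit 123091) (nat_lit 183) .nil))))))) (.g (nat_lit 4) .nil .nil)))) (.nd (nat_lit 5) 
(.lf (nat_lit 148502) (.g (nat_lit 1339) (.e (nat_lit 57377) (nat_lit 3) (.e (nat_lit 98313) (nat_lit 9) (.e (nat_lit 336223) (nat_lit 13) (.e (nat_lit 393228) (nat_lit 9) .nil)))) .nil)) 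
(.lf (nat_lit 148534) (.g (nat_lit 1997) (.e (nat_lit 57377) (nat_lit 3) (.e (nat_lit 98315) (nat_lit 9) (.e (nat_lit 336151) (nat_lit 9) (.e (nat_lit 336390) (nat_lit 27) (.e (nat_lit 426500) (nat_lit 27) (.e (nat_lit 335988) (nat_lit 1) (.e (nat_lit 57854) (nat_lit 252) .nil))))))) (.g (nat_lit 7) .nil .nil))))) (.nd (nat_lit 4) (.nd (nat_lit 5) 
(.lf (nat_lit 148494) (.g (nat_lit 3719) (.e (nat_lit 57377) (nat_lit 3) (.e (nat_lit 98313) (nat_lit 9) (.e (nat_lit 336223) (nat_lit 13) (.e (nat_lit 393224) (nat_lit 9) (.e (nat_lit 335996) (nat_lit 1) (.e (nat_lit 57852) (nat_lit 252) .nil)))))) (.g (nat_lit 0) .nil .nil))) 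
(.lf (nat_lit 148526) (.g (nat_lit 1796) (.e (nat_lit 57377) (nat_lit 3) (.e (nat_lit 98315) (nat_lit 9) (.e (nat_lit 336119) (nat_lit 9) (.e (nat_lit 336453) (nat_lit 34) (.e (nat_lit 483364) (nat_lit 18) (.e (nat_lit 57854) (nat_lit 252) .nil)))))) (.g (nat_lit 6) .nil .nil)))) (.nd (nat_lit 5) 
(.lf (nat_lit 148510) (.g (nat_lit 3394) (.e (nat_lit 57377) (nat_lit 3) (.e (nat_lit 98313) (nat_lit 9) (.e (nat_lit 336223) (nat_lit 13) (.e (nat_lit 393229) (nat_lit 9) (.e (nat_lit 335995) (nat_lit 1) (.e (nat_lit 57847) (nat_lit 252) .nil)))))) (.g (nat_lit 0) .nil .nil))) 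
(.lf (nat_lit 148542) (.g (nat_lit 1753) (.e (nat_lit 57377) (nat_lit 3) (.e (nat_lit 98315) (nat_lit 9) (.e (nat_lit 336152) (nat_lit 9) (.e (nat_lit 336453) (nat_lit 34) (.e (nat_lit 483366) (nat_lit 18) (.e (nat_lit 57847) (nat_lit 252) .nil)))))) (.g (nat_lit 0) .nil .nil)))))))) (.nd (nat_lit 1) (.nd (nat_lit 2) (.nd (nat_lit 3) (.nd (nat_lit 4) (.nd (nat_lit 5) 
(.lf (nat_lit 148481) (.g (nat_lit 2073) (.e (nat_lit 57377) (nat_lit 3) (.e (nat_lit 98313) (nat_lit 9) (.e (nat_lit 336222) (nat_lit 13) (.e (nat_lit 393229) (nat_lit 9) (.e (nat_lit 335993) (nat_lit 1) (.e (nat_lit 57847) (nat_lit 252) .nil)))))) (.g (nat_lit 4) .nil .nil))) 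
(.lf (nat_lit 148513) (.g (nat_lit 1900) (.e (nat_lit 57377) (nat_lit 3) (.e (nat_lit 98313) (nat_lit 9) (.e (nat_lit 336223) (nat_lit 13) (.e (nat_lit 393234) (nat_lit 17) (.e (nat_lit 2399) (nat_lit 157) (.e (nat_lit 6063) (nat_lit 328) (.e (nat_lit 57363) (nat_lit 1) (.e (nat_lit 57847) (nat_lit 252) .nil)))))))) (.g (nat_lit 4) .nil .nil)))) (.nd (nat_lit 5) 
(.lf (nat_lit 148497) (.g (nat_lit 3541) (.e (nat_lit 57377) (nat_lit 3) (.e (nat_lit 98313) (nat_lit 9) (.e (nat_lit 336223) (nat_lit 13) (.e (nat_lit 393225) (nat_lit 9) (.e (nat_lit 335995) (nat_lit 1) (.e (nat_lit 57847) (nat_lit 252) .nil)))))) (.g (nat_lit 0) .nil .nil))) 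
(.lf (nat_lit 148529) (.g (nat_lit 1898) (.e (nat_lit 57377) (nat_lit 3) (.e (nat_lit 98315) (nat_lit 9) (.e (nat_lit 336119) (nat_lit 9) (.e (nat_lit 336453) (nat_lit 34) (.e (nat_lit 483366) (nat_lit 18) (.e (nat_lit 57853) (nat_lit 252) .nil)))))) (.g (nat_lit 6) .nil .nil))))) (.nd (nat_lit 4) (.nd (nat_lit 5) 
(.lf (nat_lit 148489) (.g (nat_lit 2479) (.e (nat_lit 57377) (nat_lit 3) (.e (nat_lit 98313) (nat_lit 9) (.e (nat_lit 336223) (nat_lit 13) (.e (nat_lit 393217) (nat_lit 0) .nil)))) .nil)) 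
(.lf (nat_lit 148521) (.g (nat_lit 1915) (.e (nat_lit 57377) (nat_lit 3) (.e (nat_lit 98315) (nat_lit 9) (.e (nat_lit 336116) (nat_lit 9) (.e (nat_lit 336453) (nat_lit 34) (.e (nat_lit 483365) (nat_lit 18) (.e (nat_lit 57852) (nat_lit 252) .nil)))))) (.g (nat_lit 6) .nil .nil)))) (.nd (nat_lit 5) 
(.lf (nat_lit 148505) (.g (nat_lit 2235) (.e (nat_lit 57377) (nat_lit 3) (.e (nat_lit 98313) (nat_lit 9) (.e (nat_lit 336223) (nat_lit 13) (.e (nat_lit 393229) (nat_lit 9) (.e (nat_lit 335987) (nat_lit 1) (.e (nat_lit 57852) (nat_lit 252) .nil)))))) (.g (nat_lit 4) .nil .nil))) 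
(.lf (nat_lit 148537) (.g (nat_lit 2332) (.e (nat_lit 57377) (nat_lit 3) (.e (nat_lit 98315) (nat_lit 9) (.e (nat_lit 336152) (nat_lit 9) (.e (nat_lit 336453) (nat_lit 34) (.e (nat_lit 483365) (nat_lit 18) (.e (nat_lit 57846) (nat_lit 252) .nil)))))) (.g (nat_lit 0) .nil .nil)))))) (.nd (nat_lit 3) (.nd (nat_lit 4) (.nd (nat_lit 5) 
(.lf (nat_lit 148485) (.g (nat_lit 3280) (.e (nat_lit 57377) (nat_lit 3) (.e (nat_lit 98313) (nat_lit 9) (.e (nat_lit 336222) (nat_lit 13) (.e (nat_lit 393229) (nat_lit 9) (.e (nat_lit 335996) (nat_lit 1) (.e (nat_lit 57852) (nat_lit 252) .nil)))))) (.g (nat_lit 6) .nil .nil))) 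
(.lf (nat_lit 148517) (.g (nat_lit 1674) (.e (nat_lit 57377) (nat_lit 3) (.e (nat_lit 98313) (nat_lit 9) (.e (nat_lit 336223) (nat_lit 13) (.e (nat_lit 393234) (nat_lit 17) (.e (nat_lit 3559) (nat_lit 221) .nil))))) .nil))) (.nd (nat_lit 5) 
(.lf (nat_lit 148501) (.g (nat_lit 1176) (.e (nat_lit 57377) (nat_lit 3) (.e (nat_lit 98313) (nat_lit 9) (.e (nat_lit 336223) (nat_lit 13) (.e (nat_lit 393227) (nat_lit 9) .nil)))) .nil)) 
(.lf (nat_lit 148533) (.g (nat_lit 2201) (.e (nat_lit 57377) (nat_lit 3) (.e (nat_lit 98315) (nat_lit 9) (.e (nat_lit 336121) (nat_lit 9) (.e (nat_lit 336453) (nat_lit 34) (.e (nat_lit 483365) (nat_lit 18) (.e (nat_lit 57854) (nat_lit 252) .nil)))))) (.g (nat_lit 0) .nil .nil))))) (.nd (nat_lit 4) (.nd (nat_lit 5) 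
(.lf (nat_lit 148493) (.g (nat_lit 2531) (.e (nat_lit 57377) (nat_lit 3) (.e (nat_lit 98313) (nat_lit 9) (.e (nat_lit 336223) (nat_lit 13) (.e (nat_lit 393224) (nat_lit 9) (.e (nat_lit 335996) (nat_lit 1) (.e (nat_lit 57851) (nat_lit 252) .nil)))))) (.g (nat_lit 5) .nil .nil))) 
(.lf (nat_lit 148525) (.g (nat_lit 2082) (.e (nat_lit 57377) (nat_lit 3) (.e (nat_lit 98315) (nat_lit 9) (.e (nat_lit 336119) (nat_lit 9) (.e (nat_lit 336453) (nat_lit 34) (.e (nat_lit 483364) (nat_lit 18) (.e (nat_lit 57852) (nat_lit 252) .nil)))))) (.g (nat_lit 6) .nil .nil)))) (.nd (nat_lit 5) 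
(.lf (nat_lit 148509) (.g (nat_lit 2713) (.e (nat_lit 57377) (nat_lit 3) (.e (nat_lit 98313) (nat_lit 9) (.e (nat_lit 336223) (nat_lit 13) (.e (nat_lit 393229) (nat_lit 9) (.e (nat_lit 335994) (nat_lit 1) (.e (nat_lit 57853) (nat_lit 252) .nil)))))) (.g (nat_lit 6) .nil .nil))) 
(.lf (nat_lit 148541) (.g (nat_lit 1970) (.e (nat_lit 57377) (nat_lit 3) (.e (nat_lit 98315) (nat_lit 9) (.e (nat_lit 336152) (nat_lit 9) (.e (nat_lit 336453) (nat_lit 34) (.e (nat_lit 483366) (nat_lit 18) (.e (nat_lit 57846) (nat_lit 252) .nil)))))) (.g (nat_lit 0) .nil .nil))))))) (.nd (nat_lit 2) (.nd (nat_lit 3) (.nd (nat_lit 4) (.nd (nat_lit 5) 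
(.lf (nat_lit 148483) (.g (nat_lit 3303) (.e (nat_lit 57377) (nat_lit 3) (.e (nat_lit 98313) (nat_lit 9) (.e (nat_lit 336222) (nat_lit 13) (.e (nat_lit 393229) (nat_lit 9) (.e (nat_lit 335995) (nat_lit 1) (.e (nat_lit 57847) (nat_lit 252) .nil)))))) (.g (nat_lit 0) .nil .nil))) 
(.lf (nat_lit 148515) (.g (nat_lit 1671) (.e (nat_lit 57377) (nat_lit 3) (.e (nat_lit 98313) (nat_lit 9) (.e (nat_lit 336223) (nat_lit 13) (.e (nat_lit 393234) (nat_lit 17) (.e (nat_lit 3557) (nat_lit 220) .nil))))) .nil))) (.nd (nat_lit 5) 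
(.lf (nat_lit 148499) (.g (nat_lit 3135) (.e (nat_lit 57377) (nat_lit 3) (.e (nat_lit 98313) (nat_lit 9) (.e (nat_lit 336223) (nat_lit 13) (.e (nat_lit 393225) (nat_lit 9) (.e (nat_lit 335996) (nat_lit 1) (.e (nat_lit 57852) (nat_lit 252) .nil)))))) (.g (nat_lit 6) .nil .nil))) 
(.lf (nat_lit 148531) (.g (nat_lit 2382) (.e (nat_lit 57377) (nat_lit 3) (.e (nat_lit 98315) (nat_lit 9) (.e (nat_lit 336121) (nat_lit 9) (.e (nat_lit 336453) (nat_lit 34) (.e (nat_lit 483365) (nat_lit 18) (.e (nat_lit 57846) (nat_lit 252) .nil)))))) (.g (nat_lit 0) .nil .nil))))) (.nd (nat_lit 4) (.nd (nat_lit 5) 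
(.lf (nat_lit 148491) (.g (nat_lit 3351) (.e (nat_lit 57377) (nat_lit 3) (.e (nat_lit 98313) (nat_lit 9) (.e (nat_lit 336223) (nat_lit 13) (.e (nat_lit 393224) (nat_lit 9) (.e (nat_lit 335986) (nat_lit 1) (.e (nat_lit 57847) (nat_lit 252) .nil)))))) (.g (nat_lit 6) .nil .nil))) 
(.lf (nat_lit 148523) (.g (nat_lit 2339) (.e (nat_lit 57377) (nat_lit 3) (.e (nat_lit 98315) (nat_lit 9) (.e (nat_lit 336118) (nat_lit 9) (.e (nat_lit 336453) (nat_lit 34) (.e (nat_lit 483365) (nat_lit 18) (.e (nat_lit 57846) (nat_lit 252) .nil)))))) (.g (nat_lit 0) .nil .nil)))) (.nd (nat_lit 5) 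
(.lf (nat_lit 148507) (.g (nat_lit 3119) (.e (nat_lit 57377) (nat_lit 3) (.e (nat_lit 98313) (nat_lit 9) (.e (nat_lit 336223) (nat_lit 13) (.e (nat_lit 393229) (nat_lit 9) (.e (nat_lit 335988) (nat_lit 1) (.e (nat_lit 57854) (nat_lit 252) .nil)))))) (.g (nat_lit 0) .nil .nil))) 
(.lf (nat_lit 148539) (.g (nat_lit 2203) (.e (nat_lit 57377) (nat_lit 3) (.e (nat_lit 98315) (nat_lit 9) (.e (nat_lit 336152) (nat_lit 9) (.e (nat_lit 336453) (nat_lit 34) (.e (nat_lit 483365) (nat_lit 18) (.e (nat_lit 57853) (nat_lit 252) .nil)))))) (.g (nat_lit 0) .nil .nil)))))) (.nd (nat_lit 3) (.nd (nat_lit 4) (.nd (nat_lit 5) 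
(.lf (nat_lit 148487) (.g (nat_lit 3516) (.e (nat_lit 57377) (nat_lit 3) (.e (nat_lit 98313) (nat_lit 9) (.e (nat_lit 336222) (nat_lit 13) (.e (nat_lit 393229) (nat_lit 9) (.e (nat_lit 335996) (nat_lit 1) (.e (nat_lit 57854) (nat_lit 252) .nil)))))) (.g (nat_lit 0) .nil .nil))) 
(.lf (nat_lit 148519) (.g (nat_lit 1716) (.e (nat_lit 57377) (nat_lit 3) (.e (nat_lit 98315) (nat_lit 9) (.e (nat_lit 336116) (nat_lit 9) (.e (nat_lit 336453) (nat_lit 34) (.e (nat_lit 483365) (nat_lit 18) (.e (nat_lit 57848) (nat_lit 252) .nil)))))) (.g (nat_lit 6) .nil .nil)))) (.nd (nat_lit 5) 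
(.lf (nat_lit 148503) (.g (nat_lit 1996) (.e (nat_lit 57377) (nat_lit 3) (.e (nat_lit 98313) (nat_lit 9) (.e (nat_lit 336223) (nat_lit 13) (.e (nat_lit 393229) (nat_lit 9) (.e (nat_lit 335933) (nat_lit 0) .nil))))) .nil)) 
(.lf (nat_lit 148535) (.g (nat_lit 983) (.e (nat_lit 57377) (nat_lit 3) (.e (nat_lit 98315) (nat_lit 9) (.e (nat_lit 336152) (nat_lit 9) (.e (nat_lit 336390) (nat_lit 27) (.e (nat_lit 426500) (nat_lit 27) .nil))))) .nil)))) (.nd (nat_lit 4) (.nd (nat_lit 5) 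
(.lf (nat_lit 148495) (.g (nat_lit 3111) (.e (nat_lit 57377) (nat_lit 3) (.e (nat_lit 98313) (nat_lit 9) (.e (nat_lit 336223) (nat_lit 13) (.e (nat_lit 393225) (nat_lit 9) (.e (nat_lit 335986) (nat_lit 1) (.e (nat_lit 57847) (nat_lit 252) .nil)))))) (.g (nat_lit 0) .nil .nil))) 
(.lf (nat_lit 148527) (.g (nat_lit 2501) (.e (nat_lit 57377) (nat_lit 3) (.e (nat_lit 98315) (nat_lit 9) (.e (nat_lit 336119) (nat_lit 9) (.e (nat_lit 336453) (nat_lit 34) (.e (nat_lit 483365) (nat_lit 18) (.e (nat_lit 57846) (nat_lit 252) .nil)))))) (.g (nat_lit 0) .nil .nil)))) (.nd (nat_lit 5) 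
(.lf (nat_lit 148511) (.g (nat_lit 3337) (.e (nat_lit 57377) (nat_lit 3) (.e (nat_lit 98313) (nat_lit 9) (.e (nat_lit 336223) (nat_lit 13) (.e (nat_lit 393229) (nat_lit 9) (.e (nat_lit 335996) (nat_lit 1) (.e (nat_lit 57852) (nat_lit 252) .nil)))))) (.g (nat_lit 6) .nil .nil))) 
(.lf (nat_lit 148543) (.g (nat_lit 1575) (.e (nat_lit 57377) (nat_lit 3) (.e (nat_lit 98315) (nat_lit 9) (.e (nat_lit 336152) (nat_lit 9) (.e (nat_lit 336453) (nat_lit 34) (.e (nat_lit 483366) (nat_lit 18) (.e (nat_lit 57851) (nat_lit 252) .nil)))))) (.g (nat_lit 0) .nil .nil)))))))))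


end

end Pool.Agent.Lib.MP_5854e1_co.Cz
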