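import Pool.Agent.Lib.MP_5854e1_co.DtD

/-!
# Windows and cells of the rings
-/

set_option autoImplicit false
set_option maxRecDepth 100000
set_option deprecated.oldSectionVars true

namespace Pool.Agent.Lib.MP_5854e1_co.Cz

open Pool.Agent.Lib.MP_5854e1_co

noncomputable section

noncomputable def tv1977 : DT := (.nd (nat_lit 0) (.nd (nat_lit 1) (.nd (nat_lit 2) (.nd (nat_lit 3) (.nd (nat_lit 4) (.nd (nat_lit 5) 
(.lf (nat_lit 148544) (.g (nat_lit 1826) (.e (nat_lit 57377) (nat_lit 3) (.e (nat_lit 98315) (nat_lit 9) (.e (nat_lit 336152) (nat_lit 9) (.e (nat_lit 336453) (nat_lit 34) (.e (nat_lit 483366) (nat_lit 18) (.e (nat_lit 57854) (nat_lit 252) .nil)))))) (.g (nat_lit 0) .nil .nil))) 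
(.lf (nat_lit 148576) (.g (nat_lit 4352) (.e (nat_lit 57377) (nat_lit 3) (.e (nat_lit 98317) (nat_lit 9) (.e (nat_lit 336026) (nat_lit 3) (.e (nat_lit 98342) (nat_lit 20) (.e (nat_lit 221210) (nat_lit 22) (.e (nat_lit 196660) (nat_lit 12) (.e (nat_lit 57354) (nat_lit 0) (.e (nat_lit 5195) (nat_lit 294) .nil)))))))) (.g (nat_lit 4) .nil .nil)))) (.nd (nat_lit 5) 
(.lf (nat_lit 148560) (.g (nat_lit 494) (.e (nat_lit 57377) (nat_lit 3) (.e (nat_lit 98317) (nat_lit 9) (.e (nat_lit 335899) (nat_lit 0) .nil))) .nil)) 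
(.lf (nat_lit 148592) (.g (nat_lit 3460) (.e (nat_lit 57377) (nat_lit 3) (.e (nat_lit 98317) (nat_lit 9) (.e (nat_lit 336027) (nat_lit 3) (.e (nat_lit 98342) (nat_lit 20) (.e (nat_lit 221213) (nat_lit 23) (.e (nat_lit 204829) (nat_lit 18) (.e (nat_lit 57849) (nat_lit 252) .nil))))))) (.g (nat_lit 4) .nil .nil))))) (.nd (nat_lit 4) (.nd (nat_lit 5) 
(.lf (nat_lit 148552) (.g (nat_lit 2312) (.e (nat_lit 57377) (nat_lit 3) (.e (nat_lit 98315) (nat_lit 9) (.e (nat_lit 336154) (nat_lit 9) (.e (nat_lit 336453) (nat_lit 34) (.e (nat_lit 483365) (nat_lit 18) (.e (nat_lit 57846) (nat_lit 252) .nil)))))) (.g (nat_lit 0) .nil .nil))) 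
(.lf (nat_lit 148584) (.g (nat_lit 4107) (.e (nat_lit 57377) (nat_lit 3) (.e (nat_lit 98317) (nat_lit 9) (.e (nat_lit 336027) (nat_lit 3) (.e (nat_lit 98341) (nat_lit 20) (.e (nat_lit 221214) (nat_lit 23) (.e (nat_lit 204821) (nat_lit 17) (.e (nat_lit 1040) (nat_lit 81) (.e (nat_lit 5195) (nat_lit 294) .nil)))))))) (.g (nat_lit 5) .nil .nil)))) (.nd (nat_lit 5) 
(.lf (nat_lit 148568) (.g (nat_lit 5218) (.e (nat_lit 57377) (nat_lit 3) (.e (nat_lit 98317) (nat_lit 9) (.e (nat_lit 336020) (nat_lit 3) (.e (nat_lit 98342) (nat_lit 20) (.e (nat_lit 221214) (nat_lit 23) (.e (nat_lit 204830) (nat_lit 18) (.e (nat_lit 57852) (nat_lit 252) .nil))))))) (.g (nat_lit 4) .nil .nil))) 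
(.lf (nat_lit 148600) (.g (nat_lit 3952) (.e (nat_lit 57377) (nat_lit 3) (.e (nat_lit 98317) (nat_lit 9) (.e (nat_lit 336027) (nat_lit 3) (.e (nat_lit 98342) (nat_lit 20) (.e (nat_lit 221215) (nat_lit 23) (.e (nat_lit 204830) (nat_lit 18) (.e (nat_lit 57854) (nat_lit 252) .nil))))))) (.g (nat_lit 4) .nil .nil)))))) (.nd (nat_lit 3) (.nd (nat_lit 4) (.nd (nat_lit 5) 
(.lf (nat_lit 148548) (.g (nat_lit 1981) (.e (nat_lit 57377) (nat_lit 3) (.e (nat_lit 98315) (nat_lit 9) (.e (nat_lit 336153) (nat_lit 9) (.e (nat_lit 336453) (nat_lit 34) (.e (nat_lit 483365) (nat_lit 18) (.e (nat_lit 57852) (nat_lit 252) .nil)))))) (.g (nat_lit 6) .nil .nil))) 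
(.lf (nat_lit 148580) (.g (nat_lit 3041) (.e (nat_lit 57377) (nat_lit 3) (.e (nat_lit 98317) (nat_lit 9) (.e (nat_lit 336027) (nat_lit 3) (.e (nat_lit 98341) (nat_lit 20) (.e (nat_lit 221210) (nat_lit 22) (.e (nat_lit 196658) (nat_lit 12) (.e (nat_lit 57354) (nat_lit 0) (.e (nat_lit 5195) (nat_lit 294) .nil)))))))) (.g (nat_lit 4) .nil .nil)))) (.nd (nat_lit 5) 
(.lf (nat_lit 148564) (.g (nat_lit 587) (.e (nat_lit 57377) (nat_lit 3) (.e (nat_lit 98317) (nat_lit 9) (.e (nat_lit 335934) (nat_lit 0) .nil))) .nil)) 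
(.lf (nat_lit 148596) (.g (nat_lit 4297) (.e (nat_lit 57377) (nat_lit 3) (.e (nat_lit 98317) (nat_lit 9) (.e (nat_lit 336027) (nat_lit 3) (.e (nat_lit 98342) (nat_lit 20) (.e (nat_lit 221214) (nat_lit 23) (.e (nat_lit 204830) (nat_lit 18) (.e (nat_lit 57854) (nat_lit 252) .nil))))))) (.g (nat_lit 5) .nil .nil))))) (.nd (nat_lit 4) (.nd (nat_lit 5) 
(.lf (nat_lit 148556) (.g (nat_lit 500) (.e (nat_lit 57377) (nat_lit 3) (.e (nat_lit 98317) (nat_lit 9) (.e (nat_lit 335892) (nat_lit 0) .nil))) .nil)) 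
(.lf (nat_lit 148588) (.g (nat_lit 4345) (.e (nat_lit 57377) (nat_lit 3) (.e (nat_lit 98317) (nat_lit 9) (.e (nat_lit 336027) (nat_lit 3) (.e (nat_lit 98342) (nat_lit 20) (.e (nat_lit 221210) (nat_lit 22) (.e (nat_lit 196660) (nat_lit 12) (.e (nat_lit 57354) (nat_lit 0) (.e (nat_lit 5195) (nat_lit 294) .nil)))))))) (.g (nat_lit 5) .nil .nil)))) (.nd (nat_lit 5) 
(.lf (nat_lit 148572) (.g (nat_lit 1367) (.e (nat_lit 57377) (nat_lit 3) (.e (nat_lit 98317) (nat_lit 9) (.e (nat_lit 336021) (nat_lit 3) (.e (nat_lit 98342) (nat_lit 20) .nil)))) .nil)) 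
(.lf (nat_lit 148604) (.g (nat_lit 4114) (.e (nat_lit 57377) (nat_lit 3) (.e (nat_lit 98317) (nat_lit 9) (.e (nat_lit 336073) (nat_lit 9) (.e (nat_lit 336454) (nat_lit 34) (.e (nat_lit 483365) (nat_lit 18) (.e (nat_lit 57854) (nat_lit 252) .nil)))))) (.g (nat_lit 4) .nil .nil))))))) (.nd (nat_lit 2) (.nd (nat_lit 3) (.nd (nat_lit 4) (.nd (nat_lit 5) 
(.lf (nat_lit 148546) (.g (nat_lit 1662) (.e (nat_lit 57377) (nat_lit 3) (.e (nat_lit 98315) (nat_lit 9) (.e (nat_lit 336153) (nat_lit 9) (.e (nat_lit 336390) (nat_lit 27) (.e (nat_lit 426500) (nat_lit 27) (.e (nat_lit 335995) (nat_lit 1) (.e (nat_lit 57848) (nat_lit 252) .nil))))))) (.g (nat_lit 5) .nil .nil))) 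
(.lf (nat_lit 148578) (.g (nat_lit 4363) (.e (nat_lit 57377) (nat_lit 3) (.e (nat_lit 98317) (nat_lit 9) (.e (nat_lit 336026) (nat_lit 3) (.e (nat_lit 98342) (nat_lit 20) (.e (nat_lit 221214) (nat_lit 23) (.e (nat_lit 204830) (nat_lit 18) (.e (nat_lit 57852) (nat_lit 252) .nil))))))) (.g (nat_lit 4) .nil .nil)))) (.nd (nat_lit 5) 
(.lf (nat_lit 148562) (.g (nat_lit 588) (.e (nat_lit 57377) (nat_lit 3) (.e (nat_lit 98317) (nat_lit 9) (.e (nat_lit 335926) (nat_lit 0) .nil))) .nil)) 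
(.lf (nat_lit 148594) (.g (nat_lit 3898) (.e (nat_lit 57377) (nat_lit 3) (.e (nat_lit 98317) (nat_lit 9) (.e (nat_lit 336027) (nat_lit 3) (.e (nat_lit 98342) (nat_lit 20) (.e (nat_lit 221214) (nat_lit 23) (.e (nat_lit 204821) (nat_lit 17) (.e (nat_lit 1040) (nat_lit 81) (.e (nat_lit 5195) (nat_lit 294) .nil)))))))) (.g (nat_lit 5) .nil .nil))))) (.nd (nat_lit 4) (.nd (nat_lit 5) 
(.lf (nat_lit 148554) (.g (nat_lit 2190) (.e (nat_lit 57377) (nat_lit 3) (.e (nat_lit 98315) (nat_lit 9) (.e (nat_lit 336154) (nat_lit 9) (.e (nat_lit 336453) (nat_lit 34) (.e (nat_lit 483365) (nat_lit 18) (.e (nat_lit 57853) (nat_lit 252) .nil)))))) (.g (nat_lit 0) .nil .nil))) 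
(.lf (nat_lit 148586) (.g (nat_lit 3481) (.e (nat_lit 57377) (nat_lit 3) (.e (nat_lit 98317) (nat_lit 9) (.e (nat_lit 336027) (nat_lit 3) (.e (nat_lit 98341) (nat_lit 20) (.e (nat_lit 221215) (nat_lit 23) (.e (nat_lit 204828) (nat_lit 18) (.e (nat_lit 57847) (nat_lit 252) .nil))))))) (.g (nat_lit 4) .nil .nil)))) (.nd (nat_lit 5) 
(.lf (nat_lit 148570) (.g (nat_lit 4844) (.e (nat_lit 57377) (nat_lit 3) (.e (nat_lit 98317) (nat_lit 9) (.e (nat_lit 336020) (nat_lit 3) (.e (nat_lit 98342) (nat_lit 20) (.e (nat_lit 221215) (nat_lit 23) (.e (nat_lit 204830) (nat_lit 18) (.e (nat_lit 57852) (nat_lit 252) .nil))))))) (.g (nat_lit 4) .nil .nil))) 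
(.lf (nat_lit 148602) (.g (nat_lit 3684) (.e (nat_lit 57377) (nat_lit 3) (.e (nat_lit 98317) (nat_lit 9) (.e (nat_lit 336073) (nat_lit 9) (.e (nat_lit 336454) (nat_lit 34) (.e (nat_lit 483365) (nat_lit 18) (.e (nat_lit 57848) (nat_lit 252) .nil)))))) (.g (nat_lit 4) .nil .nil)))))) (.nd (nat_lit 3) (.nd (nat_lit 4) (.nd (nat_lit 5) 
(.lf (nat_lit 148550) (.g (nat_lit 1865) (.e (nat_lit 57377) (nat_lit 3) (.e (nat_lit 98315) (nat_lit 9) (.e (nat_lit 336154) (nat_lit 9) (.e (nat_lit 336453) (nat_lit 34) (.e (nat_lit 483364) (nat_lit 18) (.e (nat_lit 57852) (nat_lit 252) .nil)))))) (.g (nat_lit 6) .nil .nil))) 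
(.lf (nat_lit 148582) (.g (nat_lit 3124) (.e (nat_lit 57377) (nat_lit 3) (.e (nat_lit 98317) (nat_lit 9) (.e (nat_lit 336027) (nat_lit 3) (.e (nat_lit 98341) (nat_lit 20) (.e (nat_lit 221212) (nat_lit 22) (.e (nat_lit 196659) (nat_lit 12) (.e (nat_lit 57354) (nat_lit 0) (.e (nat_lit 5195) (nat_lit 294) .nil)))))))) (.g (nat_lit 4) .nil .nil)))) (.nd (nat_lit 5) 
(.lf (nat_lit 148566) (.g (nat_lit 5091) (.e (nat_lit 57377) (nat_lit 3) (.e (nat_lit 98317) (nat_lit 9) (.e (nat_lit 336020) (nat_lit 3) (.e (nat_lit 98342) (nat_lit 20) (.e (nat_lit 221212) (nat_lit 22) (.e (nat_lit 196660) (nat_lit 12) (.e (nat_lit 57354) (nat_lit 0) (.e (nat_lit 5195) (nat_lit 294) .nil)))))))) (.g (nat_lit 5) .nil .nil))) 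
(.lf (nat_lit 148598) (.g (nat_lit 4206) (.e (nat_lit 57377) (nat_lit 3) (.e (nat_lit 98317) (nat_lit 9) (.e (nat_lit 336027) (nat_lit 3) (.e (nat_lit 98342) (nat_lit 20) (.e (nat_lit 221215) (nat_lit 23) (.e (nat_lit 204829) (nat_lit 18) (.e (nat_lit 57849) (nat_lit 252) .nil))))))) (.g (nat_lit 5) .nil .nil))))) (.nd (nat_lit 4) (.nd (nat_lit 5) 
(.lf (nat_lit 148558) (.g (nat_lit 578) (.e (nat_lit 57377) (nat_lit 3) (.e (nat_lit 98317) (nat_lit 9) (.e (nat_lit 335895) (nat_lit 0) .nil))) .nil)) 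
(.lf (nat_lit 148590) (.g (nat_lit 4804) (.e (nat_lit 57377) (nat_lit 3) (.e (nat_lit 98317) (nat_lit 9) (.e (nat_lit 336027) (nat_lit 3) (.e (nat_lit 98342) (nat_lit 20) (.e (nat_lit 221212) (nat_lit 22) (.e (nat_lit 196660) (nat_lit 12) (.e (nat_lit 57354) (nat_lit 0) (.e (nat_lit 5195) (nat_lit 294) .nil)))))))) (.g (nat_lit 7) .nil .nil)))) (.nd (nat_lit 5) 
(.lf (nat_lit 148574) (.g (nat_lit 3919) (.e (nat_lit 57377) (nat_lit 3) (.e (nat_lit 98317) (nat_lit 9) (.e (nat_lit 336026) (nat_lit 3) (.e (nat_lit 98341) (nat_lit 20) (.e (nat_lit 221210) (nat_lit 22) (.e (nat_lit 196660) (nat_lit 12) (.e (nat_lit 57354) (nat_lit 0) (.e (nat_lit 5195) (nat_lit 294) .nil)))))))) (.g (nat_lit 4) .nil .nil))) 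
(.lf (nat_lit 148606) (.g (nat_lit 4861) (.e (nat_lit 57377) (nat_lit 3) (.e (nat_lit 98317) (nat_lit 9) (.e (nat_lit 336074) (nat_lit 9) (.e (nat_lit 336454) (nat_lit 34) (.e (nat_lit 483365) (nat_lit 18) (.e (nat_lit 57846) (nat_lit 252) .nil)))))) (.g (nat_lit 5) .nil .nil)))))))) (.nd (nat_lit 1) (.nd (nat_lit 2) (.nd (nat_lit 3) (.nd (nat_lit 4) (.nd (nat_lit 5) 
(.lf (nat_lit 148545) (.g (nat_lit 1709) (.e (nat_lit 57377) (nat_lit 3) (.e (nat_lit 98315) (nat_lit 9) (.e (nat_lit 336153) (nat_lit 9) (.e (nat_lit 336390) (nat_lit 27) (.e (nat_lit 426500) (nat_lit 27) (.e (nat_lit 335988) (nat_lit 1) (.e (nat_lit 57854) (nat_lit 252) .nil))))))) (.g (nat_lit 6) .nil .nil))) 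
(.lf (nat_lit 148577) (.g (nat_lit 4578) (.e (nat_lit 57377) (nat_lit 3) (.e (nat_lit 98317) (nat_lit 9) (.e (nat_lit 336026) (nat_lit 3) (.e (nat_lit 98342) (nat_lit 20) (.e (nat_lit 221212) (nat_lit 22) (.e (nat_lit 196660) (nat_lit 12) (.e (nat_lit 57354) (nat_lit 0) (.e (nat_lit 5195) (nat_lit 294) .nil)))))))) (.g (nat_lit 5) .nil .nil)))) (.nd (nat_lit 5) 
(.lf (nat_lit 148561) (.g (nat_lit 588) (.e (nat_lit 57377) (nat_lit 3) (.e (nat_lit 98317) (nat_lit 9) (.e (nat_lit 335914) (nat_lit 0) .nil))) .nil)) 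
(.lf (nat_lit 148593) (.g (nat_lit 3188) (.e (nat_lit 57377) (nat_lit 3) (.e (nat_lit 98317) (nat_lit 9) (.e (nat_lit 336027) (nat_lit 3) (.e (nat_lit 98342) (nat_lit 20) (.e (nat_lit 221213) (nat_lit 23) (.e (nat_lit 204830) (nat_lit 18) (.e (nat_lit 57852) (nat_lit 252) .nil))))))) (.g (nat_lit 4) .nil .nil))))) (.nd (nat_lit 4) (.nd (nat_lit 5) 
(.lf (nat_lit 148553) (.g (nat_lit 1795) (.e (nat_lit 57377) (nat_lit 3) (.e (nat_lit 98315) (nat_lit 9) (.e (nat_lit 336154) (nat_lit 9) (.e (nat_lit 336453) (nat_lit 34) (.e (nat_lit 483365) (nat_lit 18) (.e (nat_lit 57848) (nat_lit 252) .nil)))))) (.g (nat_lit 0) .nil .nil))) 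
(.lf (nat_lit 148585) (.g (nat_lit 4070) (.e (nat_lit 57377) (nat_lit 3) (.e (nat_lit 98317) (nat_lit 9) (.e (nat_lit 336027) (nat_lit 3) (.e (nat_lit 98341) (nat_lit 20) (.e (nat_lit 221215) (nat_lit 23) (.e (nat_lit 204821) (nat_lit 17) (.e (nat_lit 1040) (nat_lit 81) (.e (nat_lit 5195) (nat_lit 294) .nil)))))))) (.g (nat_lit 5) .nil .nil)))) (.nd (nat_lit 5) 
(.lf (nat_lit 148569) (.g (nat_lit 5515) (.e (nat_lit 57377) (nat_lit 3) (.e (nat_lit 98317) (nat_lit 9) (.e (nat_lit 336020) (nat_lit 3) (.e (nat_lit 98342) (nat_lit 20) (.e (nat_lit 221215) (nat_lit 23) (.e (nat_lit 204828) (nat_lit 18) (.e (nat_lit 57849) (nat_lit 252) .nil))))))) (.g (nat_lit 5) .nil .nil))) 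
(.lf (nat_lit 148601) (.g (nat_lit 4115) (.e (nat_lit 57377) (nat_lit 3) (.e (nat_lit 98317) (nat_lit 9) (.e (nat_lit 336073) (nat_lit 9) (.e (nat_lit 336454) (nat_lit 34) (.e (nat_lit 483365) (nat_lit 18) (.e (nat_lit 57847) (nat_lit 252) .nil)))))) (.g (nat_lit 4) .nil .nil)))))) (.nd (nat_lit 3) (.nd (nat_lit 4) (.nd (nat_lit 5) 
(.lf (nat_lit 148549) (.g (nat_lit 2184) (.e (nat_lit 57377) (nat_lit 3) (.e (nat_lit 98315) (nat_lit 9) (.e (nat_lit 336153) (nat_lit 9) (.e (nat_lit 336453) (nat_lit 34) (.e (nat_lit 483365) (nat_lit 18) (.e (nat_lit 57854) (nat_lit 252) .nil)))))) (.g (nat_lit 6) .nil .nil))) 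
(.lf (nat_lit 148581) (.g (nat_lit 4797) (.e (nat_lit 57377) (nat_lit 3) (.e (nat_lit 98317) (nat_lit 9) (.e (nat_lit 336027) (nat_lit 3) (.e (nat_lit 98341) (nat_lit 20) (.e (nat_lit 221210) (nat_lit 22) (.e (nat_lit 196660) (nat_lit 12) (.e (nat_lit 57354) (nat_lit 0) (.e (nat_lit 5195) (nat_lit 294) .nil)))))))) (.g (nat_lit 7) .nil .nil)))) (.nd (nat_lit 5) 
(.lf (nat_lit 148565) (.g (nat_lit 4302) (.e (nat_lit 57377) (nat_lit 3) (.e (nat_lit 98317) (nat_lit 9) (.e (nat_lit 336020) (nat_lit 3) (.e (nat_lit 98342) (nat_lit 20) (.e (nat_lit 221210) (nat_lit 22) (.e (nat_lit 196660) (nat_lit 12) (.e (nat_lit 57354) (nat_lit 0) (.e (nat_lit 5195) (nat_lit 294) .nil)))))))) (.g (nat_lit 4) .nil .nil))) 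
(.lf (nat_lit 148597) (.g (nat_lit 4064) (.e (nat_lit 57377) (nat_lit 3) (.e (nat_lit 98317) (nat_lit 9) (.e (nat_lit 336027) (nat_lit 3) (.e (nat_lit 98342) (nat_lit 20) (.e (nat_lit 221215) (nat_lit 23) (.e (nat_lit 204821) (nat_lit 17) (.e (nat_lit 1040) (nat_lit 81) (.e (nat_lit 5195) (nat_lit 294) .nil)))))))) (.g (nat_lit 5) .nil .nil))))) (.nd (nat_lit 4) (.nd (nat_lit 5) 
(.lf (nat_lit 148557) (.g (nat_lit 588) (.e (nat_lit 57377) (nat_lit 3) (.e (nat_lit 98317) (nat_lit 9) (.e (nat_lit 335893) (nat_lit 0) .nil))) .nil)) 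
(.lf (nat_lit 148589) (.g (nat_lit 3889) (.e (nat_lit 57377) (nat_lit 3) (.e (nat_lit 98317) (nat_lit 9) (.e (nat_lit 336027) (nat_lit 3) (.e (nat_lit 98342) (nat_lit 20) (.e (nat_lit 221212) (nat_lit 22) (.e (nat_lit 196659) (nat_lit 12) (.e (nat_lit 57354) (nat_lit 0) (.e (nat_lit 5195) (nat_lit 294) .nil)))))))) (.g (nat_lit 5) .nil .nil)))) (.nd (nat_lit 5) 
(.lf (nat_lit 148573) (.g (nat_lit 448) (.e (nat_lit 57377) (nat_lit 3) (.e (nat_lit 98317) (nat_lit 9) (.e (nat_lit 336026) (nat_lit 3) .nil))) .nil)) 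
(.lf (nat_lit 148605) (.g (nat_lit 3794) (.e (nat_lit 57377) (nat_lit 3) (.e (nat_lit 98317) (nat_lit 9) (.e (nat_lit 336074) (nat_lit 9) (.e (nat_lit 336454) (nat_lit 34) (.e (nat_lit 483363) (nat_lit 18) (.e (nat_lit 57847) (nat_lit 252) .nil)))))) (.g (nat_lit 4) .nil .nil))))))) (.nd (nat_lit 2) (.nd (nat_lit 3) (.nd (nat_lit 4) (.nd (nat_lit 5) 
(.lf (nat_lit 148547) (.g (nat_lit 1882) (.e (nat_lit 57377) (nat_lit 3) (.e (nat_lit 98315) (nat_lit 9) (.e (nat_lit 336153) (nat_lit 9) (.e (nat_lit 336453) (nat_lit 34) (.e (nat_lit 483364) (nat_lit 18) (.e (nat_lit 57852) (nat_lit 252) .nil)))))) (.g (nat_lit 6) .nil .nil))) 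
(.lf (nat_lit 148579) (.g (nat_lit 459) (.e (nat_lit 57377) (nat_lit 3) (.e (nat_lit 98317) (nat_lit 9) (.e (nat_lit 336027) (nat_lit 3) .nil))) .nil))) (.nd (nat_lit 5) 
(.lf (nat_lit 148563) (.g (nat_lit 588) (.e (nat_lit 57377) (nat_lit 3) (.e (nat_lit 98317) (nat_lit 9) (.e (nat_lit 335933) (nat_lit 0) .nil))) .nil)) 
(.lf (nat_lit 148595) (.g (nat_lit 4744) (.e (nat_lit 57377) (nat_lit 3) (.e (nat_lit 98317) (nat_lit 9) (.e (nat_lit 336027) (nat_lit 3) (.e (nat_lit 98342) (nat_lit 20) (.e (nat_lit 221214) (nat_lit 23) (.e (nat_lit 204829) (nat_lit 18) (.e (nat_lit 57849) (nat_lit 252) .nil))))))) (.g (nat_lit 6) .nil .nil))))) (.nd (nat_lit 4) (.nd (nat_lit 5) 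
(.lf (nat_lit 148555) (.g (nat_lit 2134) (.e (nat_lit 57377) (nat_lit 3) (.e (nat_lit 98315) (nat_lit 9) (.e (nat_lit 336154) (nat_lit 9) (.e (nat_lit 336453) (nat_lit 34) (.e (nat_lit 483365) (nat_lit 18) (.e (nat_lit 57854) (nat_lit 252) .nil)))))) (.g (nat_lit 0) .nil .nil))) 
(.lf (nat_lit 148587) (.g (nat_lit 3375) (.e (nat_lit 57377) (nat_lit 3) (.e (nat_lit 98317) (nat_lit 9) (.e (nat_lit 336027) (nat_lit 3) (.e (nat_lit 98341) (nat_lit 20) (.e (nat_lit 221215) (nat_lit 23) (.e (nat_lit 204831) (nat_lit 18) (.e (nat_lit 57849) (nat_lit 252) .nil))))))) (.g (nat_lit 4) .nil .nil)))) (.nd (nat_lit 5) 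
(.lf (nat_lit 148571) (.g (nat_lit 1550) (.e (nat_lit 57377) (nat_lit 3) (.e (nat_lit 98317) (nat_lit 9) (.e (nat_lit 336021) (nat_lit 3) (.e (nat_lit 98341) (nat_lit 20) .nil)))) .nil)) 
(.lf (nat_lit 148603) (.g (nat_lit 4155) (.e (nat_lit 57377) (nat_lit 3) (.e (nat_lit 98317) (nat_lit 9) (.e (nat_lit 336073) (nat_lit 9) (.e (nat_lit 336454) (nat_lit 34) (.e (nat_lit 483365) (nat_lit 18) (.e (nat_lit 57853) (nat_lit 252) .nil)))))) (.g (nat_lit 4) .nil .nil)))))) (.nd (nat_lit 3) (.nd (nat_lit 4) (.nd (nat_lit 5) 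
(.lf (nat_lit 148551) (.g (nat_lit 1777) (.e (nat_lit 57377) (nat_lit 3) (.e (nat_lit 98315) (nat_lit 9) (.e (nat_lit 336154) (nat_lit 9) (.e (nat_lit 336453) (nat_lit 34) (.e (nat_lit 483364) (nat_lit 18) (.e (nat_lit 57854) (nat_lit 252) .nil)))))) (.g (nat_lit 6) .nil .nil))) 
(.lf (nat_lit 148583) (.g (nat_lit 4220) (.e (nat_lit 57377) (nat_lit 3) (.e (nat_lit 98317) (nat_lit 9) (.e (nat_lit 336027) (nat_lit 3) (.e (nat_lit 98341) (nat_lit 20) (.e (nat_lit 221212) (nat_lit 22) (.e (nat_lit 196660) (nat_lit 12) (.e (nat_lit 57354) (nat_lit 0) (.e (nat_lit 5195) (nat_lit 294) .nil)))))))) (.g (nat_lit 5) .nil .nil)))) (.nd (nat_lit 5) 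
(.lf (nat_lit 148567) (.g (nat_lit 5217) (.e (nat_lit 57377) (nat_lit 3) (.e (nat_lit 98317) (nat_lit 9) (.e (nat_lit 336020) (nat_lit 3) (.e (nat_lit 98342) (nat_lit 20) (.e (nat_lit 221214) (nat_lit 23) (.e (nat_lit 204829) (nat_lit 18) (.e (nat_lit 57849) (nat_lit 252) .nil))))))) (.g (nat_lit 4) .nil .nil))) 
(.lf (nat_lit 148599) (.g (nat_lit 3527) (.e (nat_lit 57377) (nat_lit 3) (.e (nat_lit 98317) (nat_lit 9) (.e (nat_lit 336027) (nat_lit 3) (.e (nat_lit 98342) (nat_lit 20) (.e (nat_lit 221215) (nat_lit 23) (.e (nat_lit 204830) (nat_lit 18) (.e (nat_lit 57852) (nat_lit 252) .nil))))))) (.g (nat_lit 4) .nil .nil))))) (.nd (nat_lit 4) (.nd (nat_lit 5) 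
(.lf (nat_lit 148559) (.g (nat_lit 586) (.e (nat_lit 57377) (nat_lit 3) (.e (nat_lit 98317) (nat_lit 9) (.e (nat_lit 335898) (nat_lit 0) .nil))) .nil)) 
(.lf (nat_lit 148591) (.g (nat_lit 3180) (.e (nat_lit 57377) (nat_lit 3) (.e (nat_lit 98317) (nat_lit 9) (.e (nat_lit 336027) (nat_lit 3) (.e (nat_lit 98342) (nat_lit 20) (.e (nat_lit 221213) (nat_lit 23) (.e (nat_lit 204829) (nat_lit 18) (.e (nat_lit 57847) (nat_lit 252) .nil))))))) (.g (nat_lit 4) .nil .nil)))) (.nd (nat_lit 5) 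
(.lf (nat_lit 148575) (.g (nat_lit 4365) (.e (nat_lit 57377) (nat_lit 3) (.e (nat_lit 98317) (nat_lit 9) (.e (nat_lit 336026) (nat_lit 3) (.e (nat_lit 98341) (nat_lit 20) (.e (nat_lit 221214) (nat_lit 23) (.e (nat_lit 204830) (nat_lit 18) (.e (nat_lit 57852) (nat_lit 252) .nil))))))) (.g (nat_lit 4) .nil .nil))) 
(.lf (nat_lit 148607) (.g (nat_lit 4691) (.e (nat_lit 57377) (nat_lit 3) (.e (nat_lit 98317) (nat_lit 9) (.e (nat_lit 336074) (nat_lit 9) (.e (nat_lit 336454) (nat_lit 34) (.e (nat_lit 483365) (nat_lit 18) (.e (nat_lit 57847) (nat_lit 252) .nil)))))) (.g (nat_lit 5) .nil .nil)))))))))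

noncomputable def tv1978 : DT := (.nd (nat_lit 0) (.nd (nat_lit 1) (.nd (nat_lit 2) (.nd (nat_lit 3) (.nd (nat_lit 4) (.nd (nat_lit 5) 
(.lf (nat_lit 148608) (.g (nat_lit 5052) (.e (nat_lit 57377) (nat_lit 3) (.e (nat_lit 98317) (nat_lit 9) (.e (nat_lit 336074) (nat_lit 9) (.e (nat_lit 336454) (nat_lit 34) (.e (nat_lit 483365) (nat_lit 18) (.e (nat_lit 57849) (nat_lit 252) .nil)))))) (.g (nat_lit 5) .nil .nil))) 
(.lf (nat_lit 148640) (.g (nat_lit 2356) (.e (nat_lit 57377) (nat_lit 3) (.e (nat_lit 98317) (nat_lit 9) (.e (nat_lit 336076) (nat_lit 9) (.e (nat_lit 336454) (nat_lit 34) (.e (nat_lit 483364) (nat_lit 18) (.e (nat_lit 57853) (nat_lit 252) .nil)))))) (.g (nat_lit 4) .nil .nil)))) (.nd (nat_lit 5) 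
(.lf (nat_lit 148624) (.g (nat_lit 395) (.e (nat_lit 57377) (nat_lit 3) (.e (nat_lit 98317) (nat_lit 9) (.e (nat_lit 336076) (nat_lit 9) .nil))) .nil)) 
(.lf (nat_lit 148656) (.g (nat_lit 3913) (.e (nat_lit 57377) (nat_lit 3) (.e (nat_lit 98317) (nat_lit 9) (.e (nat_lit 336076) (nat_lit 9) (.e (nat_lit 336456) (nat_lit 34) (.e (nat_lit 483365) (nat_lit 18) (.e (nat_lit 57849) (nat_lit 252) .nil)))))) (.g (nat_lit 0) .nil .nil))))) (.nd (nat_lit 4) (.nd (nat_lit 5) 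
(.lf (nat_lit 148616) (.g (nat_lit 4594) (.e (nat_lit 57377) (nat_lit 3) (.e (nat_lit 98317) (nat_lit 9) (.e (nat_lit 336075) (nat_lit 9) (.e (nat_lit 336454) (nat_lit 34) (.e (nat_lit 483365) (nat_lit 18) (.e (nat_lit 57848) (nat_lit 252) .nil)))))) (.g (nat_lit 6) .nil .nil))) 
(.lf (nat_lit 148648) (.g (nat_lit 2925) (.e (nat_lit 57377) (nat_lit 3) (.e (nat_lit 98317) (nat_lit 9) (.e (nat_lit 336076) (nat_lit 9) (.e (nat_lit 336456) (nat_lit 34) (.e (nat_lit 483354) (nat_lit 17) (.e (nat_lit 1040) (nat_lit 81) (.e (nat_lit 5195) (nat_lit 294) .nil))))))) (.g (nat_lit 4) .nil .nil)))) (.nd (nat_lit 5) 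
(.lf (nat_lit 148632) (.g (nat_lit 3150) (.e (nat_lit 57377) (nat_lit 3) (.e (nat_lit 98317) (nat_lit 9) (.e (nat_lit 336076) (nat_lit 9) (.e (nat_lit 336452) (nat_lit 34) (.e (nat_lit 483363) (nat_lit 18) (.e (nat_lit 57849) (nat_lit 252) .nil)))))) (.g (nat_lit 5) .nil .nil))) 
(.lf (nat_lit 148664) (.g (nat_lit 5335) (.e (nat_lit 57377) (nat_lit 3) (.e (nat_lit 98317) (nat_lit 9) (.e (nat_lit 336077) (nat_lit 9) (.e (nat_lit 336454) (nat_lit 34) (.e (nat_lit 483365) (nat_lit 18) (.e (nat_lit 57848) (nat_lit 252) .nil)))))) (.g (nat_lit 0) .nil .nil)))))) (.nd (nat_lit 3) (.nd (nat_lit 4) (.nd (nat_lit 5) 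
(.lf (nat_lit 148612) (.g (nat_lit 4673) (.e (nat_lit 57377) (nat_lit 3) (.e (nat_lit 98317) (nat_lit 9) (.e (nat_lit 336074) (nat_lit 9) (.e (nat_lit 336454) (nat_lit 34) (.e (nat_lit 483365) (nat_lit 18) (.e (nat_lit 57854) (nat_lit 252) .nil)))))) (.g (nat_lit 5) .nil .nil))) 
(.lf (nat_lit 148644) (.g (nat_lit 3781) (.e (nat_lit 57377) (nat_lit 3) (.e (nat_lit 98317) (nat_lit 9) (.e (nat_lit 336076) (nat_lit 9) (.e (nat_lit 336454) (nat_lit 34) (.e (nat_lit 483366) (nat_lit 18) (.e (nat_lit 57846) (nat_lit 252) .nil)))))) (.g (nat_lit 0) .nil .nil)))) (.nd (nat_lit 5) 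
(.lf (nat_lit 148628) (.g (nat_lit 2226) (.e (nat_lit 57377) (nat_lit 3) (.e (nat_lit 98317) (nat_lit 9) (.e (nat_lit 336076) (nat_lit 9) (.e (nat_lit 336370) (nat_lit 27) (.e (nat_lit 426499) (nat_lit 27) (.e (nat_lit 335986) (nat_lit 1) (.e (nat_lit 57849) (nat_lit 252) .nil))))))) (.g (nat_lit 4) .nil .nil))) 
(.lf (nat_lit 148660) (.g (nat_lit 2791) (.e (nat_lit 57377) (nat_lit 3) (.e (nat_lit 98317) (nat_lit 9) (.e (nat_lit 336077) (nat_lit 9) (.e (nat_lit 336454) (nat_lit 34) (.e (nat_lit 483363) (nat_lit 18) (.e (nat_lit 57854) (nat_lit 252) .nil)))))) (.g (nat_lit 5) .nil .nil))))) (.nd (nat_lit 4) (.nd (nat_lit 5) 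
(.lf (nat_lit 148620) (.g (nat_lit 5054) (.e (nat_lit 57377) (nat_lit 3) (.e (nat_lit 98317) (nat_lit 9) (.e (nat_lit 336075) (nat_lit 9) (.e (nat_lit 336454) (nat_lit 34) (.e (nat_lit 483365) (nat_lit 18) (.e (nat_lit 57853) (nat_lit 252) .nil)))))) (.g (nat_lit 5) .nil .nil))) 
(.lf (nat_lit 148652) (.g (nat_lit 3513) (.e (nat_lit 57377) (nat_lit 3) (.e (nat_lit 98317) (nat_lit 9) (.e (nat_lit 336076) (nat_lit 9) (.e (nat_lit 336456) (nat_lit 34) (.e (nat_lit 483363) (nat_lit 18) (.e (nat_lit 57854) (nat_lit 252) .nil)))))) (.g (nat_lit 6) .nil .nil)))) (.nd (nat_lit 5) 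
(.lf (nat_lit 148636) (.g (nat_lit 2451) (.e (nat_lit 57377) (nat_lit 3) (.e (nat_lit 98317) (nat_lit 9) (.e (nat_lit 336076) (nat_lit 9) (.e (nat_lit 336452) (nat_lit 34) (.e (nat_lit 483365) (nat_lit 18) (.e (nat_lit 57849) (nat_lit 252) .nil)))))) (.g (nat_lit 4) .nil .nil))) 
(.lf (nat_lit 148668) (.g (nat_lit 3695) (.e (nat_lit 57377) (nat_lit 3) (.e (nat_lit 98317) (nat_lit 9) (.e (nat_lit 336077) (nat_lit 9) (.e (nat_lit 336454) (nat_lit 34) (.e (nat_lit 483365) (nat_lit 18) (.e (nat_lit 57854) (nat_lit 252) .nil)))))) (.g (nat_lit 6) .nil .nil))))))) (.nd (nat_lit 2) (.nd (nat_lit 3) (.nd (nat_lit 4) (.nd (nat_lit 5) 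
(.lf (nat_lit 148610) (.g (nat_lit 4459) (.e (nat_lit 57377) (nat_lit 3) (.e (nat_lit 98317) (nat_lit 9) (.e (nat_lit 336074) (nat_lit 9) (.e (nat_lit 336454) (nat_lit 34) (.e (nat_lit 483365) (nat_lit 18) (.e (nat_lit 57852) (nat_lit 252) .nil)))))) (.g (nat_lit 5) .nil .nil))) 
(.lf (nat_lit 148642) (.g (nat_lit 4250) (.e (nat_lit 57377) (nat_lit 3) (.e (nat_lit 98317) (nat_lit 9) (.e (nat_lit 336076) (nat_lit 9) (.e (nat_lit 336454) (nat_lit 34) (.e (nat_lit 483365) (nat_lit 18) (.e (nat_lit 57846) (nat_lit 252) .nil)))))) (.g (nat_lit 0) .nil .nil)))) (.nd (nat_lit 5) 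
(.lf (nat_lit 148626) (.g (nat_lit 1103) (.e (nat_lit 57377) (nat_lit 3) (.e (nat_lit 98317) (nat_lit 9) (.e (nat_lit 336076) (nat_lit 9) (.e (nat_lit 336367) (nat_lit 27) .nil)))) .nil)) 
(.lf (nat_lit 148658) (.g (nat_lit 3224) (.e (nat_lit 57377) (nat_lit 3) (.e (nat_lit 98317) (nat_lit 9) (.e (nat_lit 336076) (nat_lit 9) (.e (nat_lit 336456) (nat_lit 34) (.e (nat_lit 483365) (nat_lit 18) (.e (nat_lit 57852) (nat_lit 252) .nil)))))) (.g (nat_lit 6) .nil .nil))))) (.nd (nat_lit 4) (.nd (nat_lit 5) 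
(.lf (nat_lit 148618) (.g (nat_lit 4691) (.e (nat_lit 57377) (nat_lit 3) (.e (nat_lit 98317) (nat_lit 9) (.e (nat_lit 336075) (nat_lit 9) (.e (nat_lit 336454) (nat_lit 34) (.e (nat_lit 483365) (nat_lit 18) (.e (nat_lit 57851) (nat_lit 252) .nil)))))) (.g (nat_lit 5) .nil .nil))) 
(.lf (nat_lit 148650) (.g (nat_lit 3867) (.e (nat_lit 57377) (nat_lit 3) (.e (nat_lit 98317) (nat_lit 9) (.e (nat_lit 336076) (nat_lit 9) (.e (nat_lit 336456) (nat_lit 34) (.e (nat_lit 483363) (nat_lit 18) (.e (nat_lit 57849) (nat_lit 252) .nil)))))) (.g (nat_lit 0) .nil .nil)))) (.nd (nat_lit 5) 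
(.lf (nat_lit 148634) (.g (nat_lit 2106) (.e (nat_lit 57377) (nat_lit 3) (.e (nat_lit 98317) (nat_lit 9) (.e (nat_lit 336076) (nat_lit 9) (.e (nat_lit 336452) (nat_lit 34) (.e (nat_lit 483364) (nat_lit 18) .nil))))) .nil)) 
(.lf (nat_lit 148666) (.g (nat_lit 3422) (.e (nat_lit 57377) (nat_lit 3) (.e (nat_lit 98317) (nat_lit 9) (.e (nat_lit 336077) (nat_lit 9) (.e (nat_lit 336454) (nat_lit 34) (.e (nat_lit 483365) (nat_lit 18) (.e (nat_lit 57852) (nat_lit 252) .nil)))))) (.g (nat_lit 6) .nil .nil)))))) (.nd (nat_lit 3) (.nd (nat_lit 4) (.nd (nat_lit 5) 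
(.lf (nat_lit 148614) (.g (nat_lit 5187) (.e (nat_lit 57377) (nat_lit 3) (.e (nat_lit 98317) (nat_lit 9) (.e (nat_lit 336075) (nat_lit 9) (.e (nat_lit 336454) (nat_lit 34) (.e (nat_lit 483365) (nat_lit 18) (.e (nat_lit 57846) (nat_lit 252) .nil)))))) (.g (nat_lit 5) .nil .nil))) 
(.lf (nat_lit 148646) (.g (nat_lit 2223) (.e (nat_lit 57377) (nat_lit 3) (.e (nat_lit 98317) (nat_lit 9) (.e (nat_lit 336076) (nat_lit 9) (.e (nat_lit 336455) (nat_lit 34) (.e (nat_lit 483363) (nat_lit 18) .nil))))) .nil))) (.nd (nat_lit 5) 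
(.lf (nat_lit 148630) (.g (nat_lit 2029) (.e (nat_lit 57377) (nat_lit 3) (.e (nat_lit 98317) (nat_lit 9) (.e (nat_lit 336076) (nat_lit 9) (.e (nat_lit 336372) (nat_lit 27) (.e (nat_lit 426525) (nat_lit 27) .nil))))) .nil)) 
(.lf (nat_lit 148662) (.g (nat_lit 7812) (.e (nat_lit 57377) (nat_lit 3) (.e (nat_lit 98317) (nat_lit 9) (.e (nat_lit 336077) (nat_lit 9) (.e (nat_lit 336454) (nat_lit 34) (.e (nat_lit 483365) (nat_lit 18) (.e (nat_lit 57844) (nat_lit 252) .nil)))))) (.g (nat_lit 5) .nil .nil))))) (.nd (nat_lit 4) (.nd (nat_lit 5) 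
(.lf (nat_lit 148622) (.g (nat_lit 3057) (.e (nat_lit 57377) (nat_lit 3) (.e (nat_lit 98317) (nat_lit 9) (.e (nat_lit 336075) (nat_lit 9) (.e (nat_lit 336454) (nat_lit 34) (.e (nat_lit 483366) (nat_lit 18) (.e (nat_lit 57848) (nat_lit 252) .nil)))))) (.g (nat_lit 4) .nil .nil))) 
(.lf (nat_lit 148654) (.g (nat_lit 3855) (.e (nat_lit 57377) (nat_lit 3) (.e (nat_lit 98317) (nat_lit 9) (.e (nat_lit 336076) (nat_lit 9) (.e (nat_lit 336456) (nat_lit 34) (.e (nat_lit 483365) (nat_lit 18) (.e (nat_lit 57846) (nat_lit 252) .nil)))))) (.g (nat_lit 0) .nil .nil)))) (.nd (nat_lit 5) 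
(.lf (nat_lit 148638) (.g (nat_lit 4024) (.e (nat_lit 57377) (nat_lit 3) (.e (nat_lit 98317) (nat_lit 9) (.e (nat_lit 336076) (nat_lit 9) (.e (nat_lit 336454) (nat_lit 34) (.e (nat_lit 483363) (nat_lit 18) (.e (nat_lit 57853) (nat_lit 252) .nil)))))) (.g (nat_lit 6) .nil .nil))) 
(.lf (nat_lit 148670) (.g (nat_lit 6125) (.e (nat_lit 57377) (nat_lit 3) (.e (nat_lit 98317) (nat_lit 9) (.e (nat_lit 336077) (nat_lit 9) (.e (nat_lit 336454) (nat_lit 34) (.e (nat_lit 483366) (nat_lit 18) (.e (nat_lit 57848) (nat_lit 252) .nil)))))) (.g (nat_lit 6) .nil .nil)))))))) (.nd (nat_lit 1) (.nd (nat_lit 2) (.nd (nat_lit 3) (.nd (nat_lit 4) (.nd (nat_lit 5) 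
(.lf (nat_lit 148609) (.g (nat_lit 4357) (.e (nat_lit 57377) (nat_lit 3) (.e (nat_lit 98317) (nat_lit 9) (.e (nat_lit 336074) (nat_lit 9) (.e (nat_lit 336454) (nat_lit 34) (.e (nat_lit 483365) (nat_lit 18) (.e (nat_lit 57851) (nat_lit 252) .nil)))))) (.g (nat_lit 4) .nil .nil))) 
(.lf (nat_lit 148641) (.g (nat_lit 2685) (.e (nat_lit 57377) (nat_lit 3) (.e (nat_lit 98317) (nat_lit 9) (.e (nat_lit 336076) (nat_lit 9) (.e (nat_lit 336454) (nat_lit 34) (.e (nat_lit 483365) (nat_lit 18) (.e (nat_lit 57844) (nat_lit 252) .nil)))))) (.g (nat_lit 4) .nil .nil)))) (.nd (nat_lit 5) 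
(.lf (nat_lit 148625) (.g (nat_lit 2509) (.e (nat_lit 57377) (nat_lit 3) (.e (nat_lit 98317) (nat_lit 9) (.e (nat_lit 336076) (nat_lit 9) (.e (nat_lit 336366) (nat_lit 27) (.e (nat_lit 426499) (nat_lit 27) (.e (nat_lit 335986) (nat_lit 1) (.e (nat_lit 57849) (nat_lit 252) .nil))))))) (.g (nat_lit 4) .nil .nil))) 
(.lf (nat_lit 148657) (.g (nat_lit 2988) (.e (nat_lit 57377) (nat_lit 3) (.e (nat_lit 98317) (nat_lit 9) (.e (nat_lit 336076) (nat_lit 9) (.e (nat_lit 336456) (nat_lit 34) (.e (nat_lit 483365) (nat_lit 18) (.e (nat_lit 57851) (nat_lit 252) .nil)))))) (.g (nat_lit 5) .nil .nil))))) (.nd (nat_lit 4) (.nd (nat_lit 5) 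
(.lf (nat_lit 148617) (.g (nat_lit 5434) (.e (nat_lit 57377) (nat_lit 3) (.e (nat_lit 98317) (nat_lit 9) (.e (nat_lit 336075) (nat_lit 9) (.e (nat_lit 336454) (nat_lit 34) (.e (nat_lit 483365) (nat_lit 18) (.e (nat_lit 57849) (nat_lit 252) .nil)))))) (.g (nat_lit 5) .nil .nil))) 
(.lf (nat_lit 148649) (.g (nat_lit 2244) (.e (nat_lit 57377) (nat_lit 3) (.e (nat_lit 98317) (nat_lit 9) (.e (nat_lit 336076) (nat_lit 9) (.e (nat_lit 336456) (nat_lit 34) (.e (nat_lit 483362) (nat_lit 18) (.e (nat_lit 57847) (nat_lit 252) .nil)))))) (.g (nat_lit 4) .nil .nil)))) (.nd (nat_lit 5) 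
(.lf (nat_lit 148633) (.g (nat_lit 2565) (.e (nat_lit 57377) (nat_lit 3) (.e (nat_lit 98317) (nat_lit 9) (.e (nat_lit 336076) (nat_lit 9) (.e (nat_lit 336452) (nat_lit 34) (.e (nat_lit 483363) (nat_lit 18) (.e (nat_lit 57854) (nat_lit 252) .nil)))))) (.g (nat_lit 4) .nil .nil))) 
(.lf (nat_lit 148665) (.g (nat_lit 3039) (.e (nat_lit 57377) (nat_lit 3) (.e (nat_lit 98317) (nat_lit 9) (.e (nat_lit 336077) (nat_lit 9) (.e (nat_lit 336454) (nat_lit 34) (.e (nat_lit 483365) (nat_lit 18) (.e (nat_lit 57851) (nat_lit 252) .nil)))))) (.g (nat_lit 5) .nil .nil)))))) (.nd (nat_lit 3) (.nd (nat_lit 4) (.nd (nat_lit 5) 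
(.lf (nat_lit 148613) (.g (nat_lit 6042) (.e (nat_lit 57377) (nat_lit 3) (.e (nat_lit 98317) (nat_lit 9) (.e (nat_lit 336075) (nat_lit 9) (.e (nat_lit 336454) (nat_lit 34) (.e (nat_lit 483365) (nat_lit 18) (.e (nat_lit 57844) (nat_lit 252) .nil)))))) (.g (nat_lit 5) .nil .nil))) 
(.lf (nat_lit 148645) (.g (nat_lit 3691) (.e (nat_lit 57377) (nat_lit 3) (.e (nat_lit 98317) (nat_lit 9) (.e (nat_lit 336076) (nat_lit 9) (.e (nat_lit 336454) (nat_lit 34) (.e (nat_lit 483366) (nat_lit 18) (.e (nat_lit 57853) (nat_lit 252) .nil)))))) (.g (nat_lit 0) .nil .nil)))) (.nd (nat_lit 5) 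
(.lf (nat_lit 148629) (.g (nat_lit 1699) (.e (nat_lit 57377) (nat_lit 3) (.e (nat_lit 98317) (nat_lit 9) (.e (nat_lit 336076) (nat_lit 9) (.e (nat_lit 336372) (nat_lit 27) .nil)))) .nil)) 
(.lf (nat_lit 148661) (.g (nat_lit 2735) (.e (nat_lit 57377) (nat_lit 3) (.e (nat_lit 98317) (nat_lit 9) (.e (nat_lit 336077) (nat_lit 9) (.e (nat_lit 336454) (nat_lit 34) (.e (nat_lit 483364) (nat_lit 18) (.e (nat_lit 57854) (nat_lit 252) .nil)))))) (.g (nat_lit 6) .nil .nil))))) (.nd (nat_lit 4) (.nd (nat_lit 5) 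
(.lf (nat_lit 148621) (.g (nat_lit 5013) (.e (nat_lit 57377) (nat_lit 3) (.e (nat_lit 98317) (nat_lit 9) (.e (nat_lit 336075) (nat_lit 9) (.e (nat_lit 336454) (nat_lit 34) (.e (nat_lit 483365) (nat_lit 18) (.e (nat_lit 57854) (nat_lit 252) .nil)))))) (.g (nat_lit 5) .nil .nil))) 
(.lf (nat_lit 148653) (.g (nat_lit 3639) (.e (nat_lit 57377) (nat_lit 3) (.e (nat_lit 98317) (nat_lit 9) (.e (nat_lit 336076) (nat_lit 9) (.e (nat_lit 336456) (nat_lit 34) (.e (nat_lit 483364) (nat_lit 18) (.e (nat_lit 57852) (nat_lit 252) .nil)))))) (.g (nat_lit 0) .nil .nil)))) (.nd (nat_lit 5) 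
(.lf (nat_lit 148637) (.g (nat_lit 2300) (.e (nat_lit 57377) (nat_lit 3) (.e (nat_lit 98317) (nat_lit 9) (.e (nat_lit 336076) (nat_lit 9) (.e (nat_lit 336454) (nat_lit 34) (.e (nat_lit 483362) (nat_lit 18) (.e (nat_lit 57849) (nat_lit 252) .nil)))))) (.g (nat_lit 4) .nil .nil))) 
(.lf (nat_lit 148669) (.g (nat_lit 4918) (.e (nat_lit 57377) (nat_lit 3) (.e (nat_lit 98317) (nat_lit 9) (.e (nat_lit 336077) (nat_lit 9) (.e (nat_lit 336454) (nat_lit 34) (.e (nat_lit 483366) (nat_lit 18) (.e (nat_lit 57844) (nat_lit 252) .nil)))))) (.g (nat_lit 4) .nil .nil))))))) (.nd (nat_lit 2) (.nd (nat_lit 3) (.nd (nat_lit 4) (.nd (nat_lit 5) 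
(.lf (nat_lit 148611) (.g (nat_lit 4728) (.e (nat_lit 57377) (nat_lit 3) (.e (nat_lit 98317) (nat_lit 9) (.e (nat_lit 336074) (nat_lit 9) (.e (nat_lit 336454) (nat_lit 34) (.e (nat_lit 483365) (nat_lit 18) (.e (nat_lit 57853) (nat_lit 252) .nil)))))) (.g (nat_lit 5) .nil .nil))) 
(.lf (nat_lit 148643) (.g (nat_lit 3240) (.e (nat_lit 57377) (nat_lit 3) (.e (nat_lit 98317) (nat_lit 9) (.e (nat_lit 336076) (nat_lit 9) (.e (nat_lit 336454) (nat_lit 34) (.e (nat_lit 483366) (nat_lit 18) (.e (nat_lit 57844) (nat_lit 252) .nil)))))) (.g (nat_lit 5) .nil .nil)))) (.nd (nat_lit 5) 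
(.lf (nat_lit 148627) (.g (nat_lit 2055) (.e (nat_lit 57377) (nat_lit 3) (.e (nat_lit 98317) (nat_lit 9) (.e (nat_lit 336076) (nat_lit 9) (.e (nat_lit 336367) (nat_lit 27) (.e (nat_lit 426509) (nat_lit 27) (.e (nat_lit 335997) (nat_lit 1) (.e (nat_lit 57849) (nat_lit 252) .nil))))))) (.g (nat_lit 4) .nil .nil))) 
(.lf (nat_lit 148659) (.g (nat_lit 3342) (.e (nat_lit 57377) (nat_lit 3) (.e (nat_lit 98317) (nat_lit 9) (.e (nat_lit 336077) (nat_lit 9) (.e (nat_lit 336454) (nat_lit 34) (.e (nat_lit 483363) (nat_lit 18) (.e (nat_lit 57847) (nat_lit 252) .nil)))))) (.g (nat_lit 6) .nil .nil))))) (.nd (nat_lit 4) (.nd (nat_lit 5) 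
(.lf (nat_lit 148619) (.g (nat_lit 4385) (.e (nat_lit 57377) (nat_lit 3) (.e (nat_lit 98317) (nat_lit 9) (.e (nat_lit 336075) (nat_lit 9) (.e (nat_lit 336454) (nat_lit 34) (.e (nat_lit 483365) (nat_lit 18) (.e (nat_lit 57852) (nat_lit 252) .nil)))))) (.g (nat_lit 5) .nil .nil))) 
(.lf (nat_lit 148651) (.g (nat_lit 3736) (.e (nat_lit 57377) (nat_lit 3) (.e (nat_lit 98317) (nat_lit 9) (.e (nat_lit 336076) (nat_lit 9) (.e (nat_lit 336456) (nat_lit 34) (.e (nat_lit 483363) (nat_lit 18) (.e (nat_lit 57853) (nat_lit 252) .nil)))))) (.g (nat_lit 6) .nil .nil)))) (.nd (nat_lit 5) 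
(.lf (nat_lit 148635) (.g (nat_lit 2375) (.e (nat_lit 57377) (nat_lit 3) (.e (nat_lit 98317) (nat_lit 9) (.e (nat_lit 336076) (nat_lit 9) (.e (nat_lit 336452) (nat_lit 34) (.e (nat_lit 483364) (nat_lit 18) (.e (nat_lit 57854) (nat_lit 252) .nil)))))) (.g (nat_lit 4) .nil .nil))) 
(.lf (nat_lit 148667) (.g (nat_lit 3767) (.e (nat_lit 57377) (nat_lit 3) (.e (nat_lit 98317) (nat_lit 9) (.e (nat_lit 336077) (nat_lit 9) (.e (nat_lit 336454) (nat_lit 34) (.e (nat_lit 483365) (nat_lit 18) (.e (nat_lit 57853) (nat_lit 252) .nil)))))) (.g (nat_lit 6) .nil .nil)))))) (.nd (nat_lit 3) (.nd (nat_lit 4) (.nd (nat_lit 5) 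
(.lf (nat_lit 148615) (.g (nat_lit 5013) (.e (nat_lit 57377) (nat_lit 3) (.e (nat_lit 98317) (nat_lit 9) (.e (nat_lit 336075) (nat_lit 9) (.e (nat_lit 336454) (nat_lit 34) (.e (nat_lit 483365) (nat_lit 18) (.e (nat_lit 57847) (nat_lit 252) .nil)))))) (.g (nat_lit 5) .nil .nil))) 
(.lf (nat_lit 148647) (.g (nat_lit 1090) (.e (nat_lit 57377) (nat_lit 3) (.e (nat_lit 98317) (nat_lit 9) (.e (nat_lit 336076) (nat_lit 9) (.e (nat_lit 336456) (nat_lit 34) .nil)))) .nil))) (.nd (nat_lit 5) 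
(.lf (nat_lit 148631) (.g (nat_lit 1663) (.e (nat_lit 57377) (nat_lit 3) (.e (nat_lit 98317) (nat_lit 9) (.e (nat_lit 336076) (nat_lit 9) (.e (nat_lit 336452) (nat_lit 34) .nil)))) .nil)) 
(.lf (nat_lit 148663) (.g (nat_lit 3632) (.e (nat_lit 57377) (nat_lit 3) (.e (nat_lit 98317) (nat_lit 9) (.e (nat_lit 336077) (nat_lit 9) (.e (nat_lit 336454) (nat_lit 34) (.e (nat_lit 483365) (nat_lit 18) (.e (nat_lit 57847) (nat_lit 252) .nil)))))) (.g (nat_lit 6) .nil .nil))))) (.nd (nat_lit 4) (.nd (nat_lit 5) 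
(.lf (nat_lit 148623) (.g (nat_lit 1357) (.e (nat_lit 57377) (nat_lit 3) (.e (nat_lit 98317) (nat_lit 9) (.e (nat_lit 336075) (nat_lit 9) (.e (nat_lit 336456) (nat_lit 34) (.e (nat_lit 483365) (nat_lit 18) .nil))))) .nil)) 
(.lf (nat_lit 148655) (.g (nat_lit 2281) (.e (nat_lit 57377) (nat_lit 3) (.e (nat_lit 98317) (nat_lit 9) (.e (nat_lit 336076) (nat_lit 9) (.e (nat_lit 336456) (nat_lit 34) (.e (nat_lit 483365) (nat_lit 18) (.e (nat_lit 57848) (nat_lit 252) .nil)))))) (.g (nat_lit 4) .nil .nil)))) (.nd (nat_lit 5) 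
(.lf (nat_lit 148639) (.g (nat_lit 3533) (.e (nat_lit 57377) (nat_lit 3) (.e (nat_lit 98317) (nat_lit 9) (.e (nat_lit 336076) (nat_lit 9) (.e (nat_lit 336454) (nat_lit 34) (.e (nat_lit 483364) (nat_lit 18) (.e (nat_lit 57852) (nat_lit 252) .nil)))))) (.g (nat_lit 0) .nil .nil))) 
(.lf (nat_lit 148671) (.g (nat_lit 4263) (.e (nat_lit 57377) (nat_lit 3) (.e (nat_lit 98317) (nat_lit 9) (.e (nat_lit 336077) (nat_lit 9) (.e (nat_lit 336456) (nat_lit 34) (.e (nat_lit 483365) (nat_lit 18) (.e (nat_lit 57848) (nat_lit 252) .nil)))))) (.g (nat_lit 4) .nil .nil)))))))))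

noncomputable def tv1979 : DT := (.nd (nat_lit 0) (.nd (nat_lit 1) (.nd (nat_lit 2) (.nd (nat_lit 3) (.nd (nat_lit 4) (.nd (nat_lit 5) 
(.lf (nat_lit 148672) (.g (nat_lit 1991) (.e (nat_lit 57377) (nat_lit 3) (.e (nat_lit 98317) (nat_lit 9) (.e (nat_lit 336078) (nat_lit 9) (.e (nat_lit 336366) (nat_lit 27) (.e (nat_lit 426501) (nat_lit 27) (.e (nat_lit 335995) (nat_lit 1) (.e (nat_lit 57848) (nat_lit 252) .nil))))))) (.g (nat_lit 5) .nil .nil))) 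
(.lf (nat_lit 148704) (.g (nat_lit 4629) (.e (nat_lit 57377) (nat_lit 3) (.e (nat_lit 98317) (nat_lit 9) (.e (nat_lit 336085) (nat_lit 9) (.e (nat_lit 336454) (nat_lit 34) (.e (nat_lit 483365) (nat_lit 18) (.e (nat_lit 57851) (nat_lit 252) .nil)))))) (.g (nat_lit 5) .nil .nil)))) (.nd (nat_lit 5) 
(.lf (nat_lit 148688) (.g (nat_lit 5443) (.e (nat_lit 57377) (nat_lit 3) (.e (nat_lit 98317) (nat_lit 9) (.e (nat_lit 336084) (nat_lit 9) (.e (nat_lit 336454) (nat_lit 34) (.e (nat_lit 483365) (nat_lit 18) (.e (nat_lit 57849) (nat_lit 252) .nil)))))) (.g (nat_lit 5) .nil .nil))) 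
(.lf (nat_lit 148720) (.g (nat_lit 3865) (.e (nat_lit 57377) (nat_lit 3) (.e (nat_lit 98317) (nat_lit 9) (.e (nat_lit 336085) (nat_lit 9) (.e (nat_lit 336456) (nat_lit 34) (.e (nat_lit 483365) (nat_lit 18) (.e (nat_lit 57853) (nat_lit 252) .nil)))))) (.g (nat_lit 5) .nil .nil))))) (.nd (nat_lit 4) (.nd (nat_lit 5) 
(.lf (nat_lit 148680) (.g (nat_lit 3819) (.e (nat_lit 57377) (nat_lit 3) (.e (nat_lit 98317) (nat_lit 9) (.e (nat_lit 336078) (nat_lit 9) (.e (nat_lit 336454) (nat_lit 34) (.e (nat_lit 483365) (nat_lit 18) (.e (nat_lit 57846) (nat_lit 252) .nil)))))) (.g (nat_lit 0) .nil .nil))) 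
(.lf (nat_lit 148712) (.g (nat_lit 3565) (.e (nat_lit 57377) (nat_lit 3) (.e (nat_lit 98317) (nat_lit 9) (.e (nat_lit 336085) (nat_lit 9) (.e (nat_lit 336456) (nat_lit 34) (.e (nat_lit 483364) (nat_lit 18) (.e (nat_lit 57852) (nat_lit 252) .nil)))))) (.g (nat_lit 4) .nil .nil)))) (.nd (nat_lit 5) 
(.lf (nat_lit 148696) (.g (nat_lit 3876) (.e (nat_lit 57377) (nat_lit 3) (.e (nat_lit 98317) (nat_lit 9) (.e (nat_lit 336085) (nat_lit 9) (.e (nat_lit 336369) (nat_lit 27) (.e (nat_lit 426499) (nat_lit 27) (.e (nat_lit 335986) (nat_lit 1) (.e (nat_lit 57849) (nat_lit 252) .nil))))))) (.g (nat_lit 5) .nil .nil))) 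
(.lf (nat_lit 148728) (.g (nat_lit 2706) (.e (nat_lit 57377) (nat_lit 3) (.e (nat_lit 98317) (nat_lit 9) (.e (nat_lit 336086) (nat_lit 9) (.e (nat_lit 336369) (nat_lit 27) (.e (nat_lit 426497) (nat_lit 27) (.e (nat_lit 335995) (nat_lit 1) (.e (nat_lit 57849) (nat_lit 252) .nil))))))) (.g (nat_lit 4) .nil .nil)))))) (.nd (nat_lit 3) (.nd (nat_lit 4) (.nd (nat_lit 5) 
(.lf (nat_lit 148676) (.g (nat_lit 3650) (.e (nat_lit 57377) (nat_lit 3) (.e (nat_lit 98317) (nat_lit 9) (.e (nat_lit 336078) (nat_lit 9) (.e (nat_lit 336454) (nat_lit 34) (.e (nat_lit 483363) (nat_lit 18) (.e (nat_lit 57853) (nat_lit 252) .nil)))))) (.g (nat_lit 5) .nil .nil))) 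
(.lf (nat_lit 148708) (.g (nat_lit 3878) (.e (nat_lit 57377) (nat_lit 3) (.e (nat_lit 98317) (nat_lit 9) (.e (nat_lit 336085) (nat_lit 9) (.e (nat_lit 336456) (nat_lit 34) (.e (nat_lit 483363) (nat_lit 18) (.e (nat_lit 57847) (nat_lit 252) .nil)))))) (.g (nat_lit 5) .nil .nil)))) (.nd (nat_lit 5) 
(.lf (nat_lit 148692) (.g (nat_lit 4992) (.e (nat_lit 57377) (nat_lit 3) (.e (nat_lit 98317) (nat_lit 9) (.e (nat_lit 336084) (nat_lit 9) (.e (nat_lit 336454) (nat_lit 34) (.e (nat_lit 483365) (nat_lit 18) (.e (nat_lit 57854) (nat_lit 252) .nil)))))) (.g (nat_lit 5) .nil .nil))) 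
(.lf (nat_lit 148724) (.g (nat_lit 1594) (.e (nat_lit 57377) (nat_lit 3) (.e (nat_lit 98317) (nat_lit 9) (.e (nat_lit 336086) (nat_lit 9) (.e (nat_lit 336366) (nat_lit 27) (.e (nat_lit 426501) (nat_lit 27) .nil))))) .nil)))) (.nd (nat_lit 4) (.nd (nat_lit 5) 
(.lf (nat_lit 148684) (.g (nat_lit 449) (.e (nat_lit 57377) (nat_lit 3) (.e (nat_lit 98317) (nat_lit 9) (.e (nat_lit 336084) (nat_lit 9) .nil))) .nil)) 
(.lf (nat_lit 148716) (.g (nat_lit 3015) (.e (nat_lit 57377) (nat_lit 3) (.e (nat_lit 98317) (nat_lit 9) (.e (nat_lit 336085) (nat_lit 9) (.e (nat_lit 336456) (nat_lit 34) (.e (nat_lit 483365) (nat_lit 18) (.e (nat_lit 57848) (nat_lit 252) .nil)))))) (.g (nat_lit 4) .nil .nil)))) (.nd (nat_lit 5) 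
(.lf (nat_lit 148700) (.g (nat_lit 4512) (.e (nat_lit 57377) (nat_lit 3) (.e (nat_lit 98317) (nat_lit 9) (.e (nat_lit 336085) (nat_lit 9) (.e (nat_lit 336454) (nat_lit 34) (.e (nat_lit 483364) (nat_lit 18) (.e (nat_lit 57852) (nat_lit 252) .nil)))))) (.g (nat_lit 6) .nil .nil))) 
(.lf (nat_lit 148732) (.g (nat_lit 4481) (.e (nat_lit 57377) (nat_lit 3) (.e (nat_lit 98317) (nat_lit 9) (.e (nat_lit 336086) (nat_lit 9) (.e (nat_lit 336369) (nat_lit 27) (.e (nat_lit 426499) (nat_lit 27) (.e (nat_lit 335986) (nat_lit 1) (.e (nat_lit 57849) (nat_lit 252) .nil))))))) (.g (nat_lit 6) .nil .nil))))))) (.nd (nat_lit 2) (.nd (nat_lit 3) (.nd (nat_lit 4) (.nd (nat_lit 5) 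
(.lf (nat_lit 148674) (.g (nat_lit 2313) (.e (nat_lit 57377) (nat_lit 3) (.e (nat_lit 98317) (nat_lit 9) (.e (nat_lit 336078) (nat_lit 9) (.e (nat_lit 336454) (nat_lit 34) (.e (nat_lit 483362) (nat_lit 18) (.e (nat_lit 57848) (nat_lit 252) .nil)))))) (.g (nat_lit 5) .nil .nil))) 
(.lf (nat_lit 148706) (.g (nat_lit 3797) (.e (nat_lit 57377) (nat_lit 3) (.e (nat_lit 98317) (nat_lit 9) (.e (nat_lit 336085) (nat_lit 9) (.e (nat_lit 336454) (nat_lit 34) (.e (nat_lit 483366) (nat_lit 18) (.e (nat_lit 57848) (nat_lit 252) .nil)))))) (.g (nat_lit 4) .nil .nil)))) (.nd (nat_lit 5) 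
(.lf (nat_lit 148690) (.g (nat_lit 4755) (.e (nat_lit 57377) (nat_lit 3) (.e (nat_lit 98317) (nat_lit 9) (.e (nat_lit 336084) (nat_lit 9) (.e (nat_lit 336454) (nat_lit 34) (.e (nat_lit 483365) (nat_lit 18) (.e (nat_lit 57852) (nat_lit 252) .nil)))))) (.g (nat_lit 5) .nil .nil))) 
(.lf (nat_lit 148722) (.g (nat_lit 392) (.e (nat_lit 57377) (nat_lit 3) (.e (nat_lit 98317) (nat_lit 9) (.e (nat_lit 336086) (nat_lit 9) .nil))) .nil)))) (.nd (nat_lit 4) (.nd (nat_lit 5) 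
(.lf (nat_lit 148682) (.g (nat_lit 3322) (.e (nat_lit 57377) (nat_lit 3) (.e (nat_lit 98317) (nat_lit 9) (.e (nat_lit 336078) (nat_lit 9) (.e (nat_lit 336454) (nat_lit 34) (.e (nat_lit 483365) (nat_lit 18) (.e (nat_lit 57851) (nat_lit 252) .nil)))))) (.g (nat_lit 0) .nil .nil))) 
(.lf (nat_lit 148714) (.g (nat_lit 3957) (.e (nat_lit 57377) (nat_lit 3) (.e (nat_lit 98317) (nat_lit 9) (.e (nat_lit 336085) (nat_lit 9) (.e (nat_lit 336456) (nat_lit 34) (.e (nat_lit 483365) (nat_lit 18) (.e (nat_lit 57846) (nat_lit 252) .nil)))))) (.g (nat_lit 5) .nil .nil)))) (.nd (nat_lit 5) 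
(.lf (nat_lit 148698) (.g (nat_lit 4817) (.e (nat_lit 57377) (nat_lit 3) (.e (nat_lit 98317) (nat_lit 9) (.e (nat_lit 336085) (nat_lit 9) (.e (nat_lit 336454) (nat_lit 34) (.e (nat_lit 483363) (nat_lit 18) (.e (nat_lit 57853) (nat_lit 252) .nil)))))) (.g (nat_lit 5) .nil .nil))) 
(.lf (nat_lit 148730) (.g (nat_lit 2227) (.e (nat_lit 57377) (nat_lit 3) (.e (nat_lit 98317) (nat_lit 9) (.e (nat_lit 336086) (nat_lit 9) (.e (nat_lit 336369) (nat_lit 27) (.e (nat_lit 426498) (nat_lit 27) (.e (nat_lit 335986) (nat_lit 1) (.e (nat_lit 57849) (nat_lit 252) .nil))))))) (.g (nat_lit 4) .nil .nil)))))) (.nd (nat_lit 3) (.nd (nat_lit 4) (.nd (nat_lit 5) 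
(.lf (nat_lit 148678) (.g (nat_lit 3408) (.e (nat_lit 57377) (nat_lit 3) (.e (nat_lit 98317) (nat_lit 9) (.e (nat_lit 336078) (nat_lit 9) (.e (nat_lit 336454) (nat_lit 34) (.e (nat_lit 483364) (nat_lit 18) (.e (nat_lit 57852) (nat_lit 252) .nil)))))) (.g (nat_lit 0) .nil .nil))) 
(.lf (nat_lit 148710) (.g (nat_lit 3759) (.e (nat_lit 57377) (nat_lit 3) (.e (nat_lit 98317) (nat_lit 9) (.e (nat_lit 336085) (nat_lit 9) (.e (nat_lit 336456) (nat_lit 34) (.e (nat_lit 483363) (nat_lit 18) (.e (nat_lit 57853) (nat_lit 252) .nil)))))) (.g (nat_lit 4) .nil .nil)))) (.nd (nat_lit 5) 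
(.lf (nat_lit 148694) (.g (nat_lit 3815) (.e (nat_lit 57377) (nat_lit 3) (.e (nat_lit 98317) (nat_lit 9) (.e (nat_lit 336084) (nat_lit 9) (.e (nat_lit 336456) (nat_lit 34) (.e (nat_lit 483364) (nat_lit 18) (.e (nat_lit 57852) (nat_lit 252) .nil)))))) (.g (nat_lit 4) .nil .nil))) 
(.lf (nat_lit 148726) (.g (nat_lit 2444) (.e (nat_lit 57377) (nat_lit 3) (.e (nat_lit 98317) (nat_lit 9) (.e (nat_lit 336086) (nat_lit 9) (.e (nat_lit 336369) (nat_lit 27) (.e (nat_lit 426497) (nat_lit 27) (.e (nat_lit 335986) (nat_lit 1) (.e (nat_lit 57849) (nat_lit 252) .nil))))))) (.g (nat_lit 4) .nil .nil))))) (.nd (nat_lit 4) (.nd (nat_lit 5) 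
(.lf (nat_lit 148686) (.g (nat_lit 5025) (.e (nat_lit 57377) (nat_lit 3) (.e (nat_lit 98317) (nat_lit 9) (.e (nat_lit 336084) (nat_lit 9) (.e (nat_lit 336454) (nat_lit 34) (.e (nat_lit 483365) (nat_lit 18) (.e (nat_lit 57847) (nat_lit 252) .nil)))))) (.g (nat_lit 5) .nil .nil))) 
(.lf (nat_lit 148718) (.g (nat_lit 3743) (.e (nat_lit 57377) (nat_lit 3) (.e (nat_lit 98317) (nat_lit 9) (.e (nat_lit 336085) (nat_lit 9) (.e (nat_lit 336456) (nat_lit 34) (.e (nat_lit 483365) (nat_lit 18) (.e (nat_lit 57851) (nat_lit 252) .nil)))))) (.g (nat_lit 4) .nil .nil)))) (.nd (nat_lit 5) 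
(.lf (nat_lit 148702) (.g (nat_lit 4566) (.e (nat_lit 57377) (nat_lit 3) (.e (nat_lit 98317) (nat_lit 9) (.e (nat_lit 336085) (nat_lit 9) (.e (nat_lit 336454) (nat_lit 34) (.e (nat_lit 483365) (nat_lit 18) (.e (nat_lit 57844) (nat_lit 252) .nil)))))) (.g (nat_lit 5) .nil .nil))) 
(.lf (nat_lit 148734) (.g (nat_lit 2186) (.e (nat_lit 57377) (nat_lit 3) (.e (nat_lit 98317) (nat_lit 9) (.e (nat_lit 336086) (nat_lit 9) (.e (nat_lit 336369) (nat_lit 27) (.e (nat_lit 426501) (nat_lit 27) (.e (nat_lit 335988) (nat_lit 1) (.e (nat_lit 57854) (nat_lit 252) .nil))))))) (.g (nat_lit 4) .nil .nil)))))))) 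
(.nd (nat_lit 1) (.nd (nat_lit 2) (.nd (nat_lit 3) (.nd (nat_lit 4) (.nd (nat_lit 5) 
(.lf (nat_lit 148673) (.g (nat_lit 2568) (.e (nat_lit 57377) (nat_lit 3) (.e (nat_lit 98317) (nat_lit 9) (.e (nat_lit 336078) (nat_lit 9) (.e (nat_lit 336400) (nat_lit 27) (.e (nat_lit 426500) (nat_lit 27) (.e (nat_lit 335995) (nat_lit 1) (.e (nat_lit 57848) (nat_lit 252) .nil))))))) (.g (nat_lit 7) .nil .nil))) 
(.lf (nat_lit 148705) (.g (nat_lit 3225) (.e (nat_lit 57377) (nat_lit 3) (.e (nat_lit 98317) (nat_lit 9) (.e (nat_lit 336085) (nat_lit 9) (.e (nat_lit 336454) (nat_lit 34) (.e (nat_lit 483366) (nat_lit 18) (.e (nat_lit 57846) (nat_lit 252) .nil)))))) (.g (nat_lit 4) .nil .nil)))) (.nd (nat_lit 5) 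
(.lf (nat_lit 148689) (.g (nat_lit 4673) (.e (nat_lit 57377) (nat_lit 3) (.e (nat_lit 98317) (nat_lit 9) (.e (nat_lit 336084) (nat_lit 9) (.e (nat_lit 336454) (nat_lit 34) (.e (nat_lit 483365) (nat_lit 18) (.e (nat_lit 57851) (nat_lit 252) .nil)))))) (.g (nat_lit 5) .nil .nil))) 
(.lf (nat_lit 148721) (.g (nat_lit 3833) (.e (nat_lit 57377) (nat_lit 3) (.e (nat_lit 98317) (nat_lit 9) (.e (nat_lit 336085) (nat_lit 9) (.e (nat_lit 336456) (nat_lit 34) (.e (nat_lit 483365) (nat_lit 18) (.e (nat_lit 57854) (nat_lit 252) .nil)))))) (.g (nat_lit 5) .nil .nil))))) (.nd (nat_lit 4) (.nd (nat_lit 5) 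
(.lf (nat_lit 148681) (.g (nat_lit 3310) (.e (nat_lit 57377) (nat_lit 3) (.e (nat_lit 98317) (nat_lit 9) (.e (nat_lit 336078) (nat_lit 9) (.e (nat_lit 336454) (nat_lit 34) (.e (nat_lit 483365) (nat_lit 18) (.e (nat_lit 57848) (nat_lit 252) .nil)))))) (.g (nat_lit 0) .nil .nil))) 
(.lf (nat_lit 148713) (.g (nat_lit 3216) (.e (nat_lit 57377) (nat_lit 3) (.e (nat_lit 98317) (nat_lit 9) (.e (nat_lit 336085) (nat_lit 9) (.e (nat_lit 336456) (nat_lit 34) (.e (nat_lit 483364) (nat_lit 18) (.e (nat_lit 57854) (nat_lit 252) .nil)))))) (.g (nat_lit 4) .nil .nil)))) (.nd (nat_lit 5) 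
(.lf (nat_lit 148697) (.g (nat_lit 4922) (.e (nat_lit 57377) (nat_lit 3) (.e (nat_lit 98317) (nat_lit 9) (.e (nat_lit 336085) (nat_lit 9) (.e (nat_lit 336454) (nat_lit 34) (.e (nat_lit 483363) (nat_lit 18) (.e (nat_lit 57847) (nat_lit 252) .nil)))))) (.g (nat_lit 6) .nil .nil))) 
(.lf (nat_lit 148729) (.g (nat_lit 2392) (.e (nat_lit 57377) (nat_lit 3) (.e (nat_lit 98317) (nat_lit 9) (.e (nat_lit 336086) (nat_lit 9) (.e (nat_lit 336369) (nat_lit 27) (.e (nat_lit 426497) (nat_lit 27) (.e (nat_lit 335996) (nat_lit 1) (.e (nat_lit 57852) (nat_lit 252) .nil))))))) (.g (nat_lit 4) .nil .nil)))))) (.nd (nat_lit 3) (.nd (nat_lit 4) (.nd (nat_lit 5) 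
(.lf (nat_lit 148677) (.g (nat_lit 2947) (.e (nat_lit 57377) (nat_lit 3) (.e (nat_lit 98317) (nat_lit 9) (.e (nat_lit 336078) (nat_lit 9) (.e (nat_lit 336454) (nat_lit 34) (.e (nat_lit 483363) (nat_lit 18) (.e (nat_lit 57854) (nat_lit 252) .nil)))))) (.g (nat_lit 5) .nil .nil))) 
(.lf (nat_lit 148709) (.g (nat_lit 4037) (.e (nat_lit 57377) (nat_lit 3) (.e (nat_lit 98317) (nat_lit 9) (.e (nat_lit 336085) (nat_lit 9) (.e (nat_lit 336456) (nat_lit 34) (.e (nat_lit 483363) (nat_lit 18) (.e (nat_lit 57849) (nat_lit 252) .nil)))))) (.g (nat_lit 5) .nil .nil)))) (.nd (nat_lit 5) 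
(.lf (nat_lit 148693) (.g (nat_lit 3642) (.e (nat_lit 57377) (nat_lit 3) (.e (nat_lit 98317) (nat_lit 9) (.e (nat_lit 336084) (nat_lit 9) (.e (nat_lit 336456) (nat_lit 34) (.e (nat_lit 483363) (nat_lit 18) (.e (nat_lit 57854) (nat_lit 252) .nil)))))) (.g (nat_lit 4) .nil .nil))) 
(.lf (nat_lit 148725) (.g (nat_lit 3092) (.e (nat_lit 57377) (nat_lit 3) (.e (nat_lit 98317) (nat_lit 9) (.e (nat_lit 336086) (nat_lit 9) (.e (nat_lit 336368) (nat_lit 27) (.e (nat_lit 426499) (nat_lit 27) (.e (nat_lit 335986) (nat_lit 1) (.e (nat_lit 57849) (nat_lit 252) .nil))))))) (.g (nat_lit 5) .nil .nil))))) (.nd (nat_lit 4) (.nd (nat_lit 5) 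
(.lf (nat_lit 148685) (.g (nat_lit 5204) (.e (nat_lit 57377) (nat_lit 3) (.e (nat_lit 98317) (nat_lit 9) (.e (nat_lit 336084) (nat_lit 9) (.e (nat_lit 336454) (nat_lit 34) (.e (nat_lit 483365) (nat_lit 18) (.e (nat_lit 57846) (nat_lit 252) .nil)))))) (.g (nat_lit 5) .nil .nil))) 
(.lf (nat_lit 148717) (.g (nat_lit 4115) (.e (nat_lit 57377) (nat_lit 3) (.e (nat_lit 98317) (nat_lit 9) (.e (nat_lit 336085) (nat_lit 9) (.e (nat_lit 336456) (nat_lit 34) (.e (nat_lit 483365) (nat_lit 18) (.e (nat_lit 57849) (nat_lit 252) .nil)))))) (.g (nat_lit 5) .nil .nil)))) (.nd (nat_lit 5) 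
(.lf (nat_lit 148701) (.g (nat_lit 4413) (.e (nat_lit 57377) (nat_lit 3) (.e (nat_lit 98317) (nat_lit 9) (.e (nat_lit 336085) (nat_lit 9) (.e (nat_lit 336454) (nat_lit 34) (.e (nat_lit 483364) (nat_lit 18) (.e (nat_lit 57854) (nat_lit 252) .nil)))))) (.g (nat_lit 6) .nil .nil))) 
(.lf (nat_lit 148733) (.g (nat_lit 2930) (.e (nat_lit 57377) (nat_lit 3) (.e (nat_lit 98317) (nat_lit 9) (.e (nat_lit 336086) (nat_lit 9) (.e (nat_lit 336369) (nat_lit 27) (.e (nat_lit 426501) (nat_lit 27) (.e (nat_lit 335986) (nat_lit 1) (.e (nat_lit 57849) (nat_lit 252) .nil))))))) (.g (nat_lit 5) .nil .nil))))))) (.nd (nat_lit 2) (.nd (nat_lit 3) (.nd (nat_lit 4) (.nd (nat_lit 5) 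
(.lf (nat_lit 148675) (.g (nat_lit 3957) (.e (nat_lit 57377) (nat_lit 3) (.e (nat_lit 98317) (nat_lit 9) (.e (nat_lit 336078) (nat_lit 9) (.e (nat_lit 336454) (nat_lit 34) (.e (nat_lit 483363) (nat_lit 18) (.e (nat_lit 57849) (nat_lit 252) .nil)))))) (.g (nat_lit 0) .nil .nil))) 
(.lf (nat_lit 148707) (.g (nat_lit 3777) (.e (nat_lit 57377) (nat_lit 3) (.e (nat_lit 98317) (nat_lit 9) (.e (nat_lit 336085) (nat_lit 9) (.e (nat_lit 336454) (nat_lit 34) (.e (nat_lit 483366) (nat_lit 18) (.e (nat_lit 57851) (nat_lit 252) .nil)))))) (.g (nat_lit 4) .nil .nil)))) (.nd (nat_lit 5) 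
(.lf (nat_lit 148691) (.g (nat_lit 5062) (.e (nat_lit 57377) (nat_lit 3) (.e (nat_lit 98317) (nat_lit 9) (.e (nat_lit 336084) (nat_lit 9) (.e (nat_lit 336454) (nat_lit 34) (.e (nat_lit 483365) (nat_lit 18) (.e (nat_lit 57853) (nat_lit 252) .nil)))))) (.g (nat_lit 5) .nil .nil))) 
(.lf (nat_lit 148723) (.g (nat_lit 2900) (.e (nat_lit 57377) (nat_lit 3) (.e (nat_lit 98317) (nat_lit 9) (.e (nat_lit 336086) (nat_lit 9) (.e (nat_lit 336366) (nat_lit 27) (.e (nat_lit 426499) (nat_lit 27) (.e (nat_lit 335986) (nat_lit 1) (.e (nat_lit 57849) (nat_lit 252) .nil))))))) (.g (nat_lit 5) .nil .nil))))) (.nd (nat_lit 4) (.nd (nat_lit 5) 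
(.lf (nat_lit 148683) (.g (nat_lit 2893) (.e (nat_lit 57377) (nat_lit 3) (.e (nat_lit 98317) (nat_lit 9) (.e (nat_lit 336078) (nat_lit 9) (.e (nat_lit 336455) (nat_lit 34) (.e (nat_lit 483365) (nat_lit 18) (.e (nat_lit 57848) (nat_lit 252) .nil)))))) (.g (nat_lit 6) .nil .nil))) 
(.lf (nat_lit 148715) (.g (nat_lit 3884) (.e (nat_lit 57377) (nat_lit 3) (.e (nat_lit 98317) (nat_lit 9) (.e (nat_lit 336085) (nat_lit 9) (.e (nat_lit 336456) (nat_lit 34) (.e (nat_lit 483365) (nat_lit 18) (.e (nat_lit 57847) (nat_lit 252) .nil)))))) (.g (nat_lit 5) .nil .nil)))) (.nd (nat_lit 5) 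
(.lf (nat_lit 148699) (.g (nat_lit 4561) (.e (nat_lit 57377) (nat_lit 3) (.e (nat_lit 98317) (nat_lit 9) (.e (nat_lit 336085) (nat_lit 9) (.e (nat_lit 336454) (nat_lit 34) (.e (nat_lit 483363) (nat_lit 18) (.e (nat_lit 57854) (nat_lit 252) .nil)))))) (.g (nat_lit 5) .nil .nil))) 
(.lf (nat_lit 148731) (.g (nat_lit 1965) (.e (nat_lit 57377) (nat_lit 3) (.e (nat_lit 98317) (nat_lit 9) (.e (nat_lit 336086) (nat_lit 9) (.e (nat_lit 336369) (nat_lit 27) (.e (nat_lit 426499) (nat_lit 27) .nil))))) .nil))))) (.nd (nat_lit 3) (.nd (nat_lit 4) (.nd (nat_lit 5) 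
(.lf (nat_lit 148679) (.g (nat_lit 2519) (.e (nat_lit 57377) (nat_lit 3) (.e (nat_lit 98317) (nat_lit 9) (.e (nat_lit 336078) (nat_lit 9) (.e (nat_lit 336454) (nat_lit 34) (.e (nat_lit 483365) (nat_lit 18) (.e (nat_lit 57844) (nat_lit 252) .nil)))))) (.g (nat_lit 4) .nil .nil))) 
(.lf (nat_lit 148711) (.g (nat_lit 3490) (.e (nat_lit 57377) (nat_lit 3) (.e (nat_lit 98317) (nat_lit 9) (.e (nat_lit 336085) (nat_lit 9) (.e (nat_lit 336456) (nat_lit 34) (.e (nat_lit 483363) (nat_lit 18) (.e (nat_lit 57854) (nat_lit 252) .nil)))))) (.g (nat_lit 4) .nil .nil)))) (.nd (nat_lit 5) 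
(.lf (nat_lit 148695) (.g (nat_lit 3187) (.e (nat_lit 57377) (nat_lit 3) (.e (nat_lit 98317) (nat_lit 9) (.e (nat_lit 336085) (nat_lit 9) (.e (nat_lit 336368) (nat_lit 27) (.e (nat_lit 426501) (nat_lit 27) (.e (nat_lit 335996) (nat_lit 1) (.e (nat_lit 57852) (nat_lit 252) .nil))))))) (.g (nat_lit 4) .nil .nil))) 
(.lf (nat_lit 148727) (.g (nat_lit 2530) (.e (nat_lit 57377) (nat_lit 3) (.e (nat_lit 98317) (nat_lit 9) (.e (nat_lit 336086) (nat_lit 9) (.e (nat_lit 336369) (nat_lit 27) (.e (nat_lit 426497) (nat_lit 27) (.e (nat_lit 335995) (nat_lit 1) (.e (nat_lit 57847) (nat_lit 252) .nil))))))) (.g (nat_lit 4) .nil .nil))))) (.nd (nat_lit 4) (.nd (nat_lit 5) 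
(.lf (nat_lit 148687) (.g (nat_lit 4575) (.e (nat_lit 57377) (nat_lit 3) (.e (nat_lit 98317) (nat_lit 9) (.e (nat_lit 336084) (nat_lit 9) (.e (nat_lit 336454) (nat_lit 34) (.e (nat_lit 483365) (nat_lit 18) (.e (nat_lit 57848) (nat_lit 252) .nil)))))) (.g (nat_lit 5) .nil .nil))) 
(.lf (nat_lit 148719) (.g (nat_lit 3346) (.e (nat_lit 57377) (nat_lit 3) (.e (nat_lit 98317) (nat_lit 9) (.e (nat_lit 336085) (nat_lit 9) (.e (nat_lit 336456) (nat_lit 34) (.e (nat_lit 483365) (nat_lit 18) (.e (nat_lit 57852) (nat_lit 252) .nil)))))) (.g (nat_lit 4) .nil .nil)))) (.nd (nat_lit 5) 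
(.lf (nat_lit 148703) (.g (nat_lit 4319) (.e (nat_lit 57377) (nat_lit 3) (.e (nat_lit 98317) (nat_lit 9) (.e (nat_lit 336085) (nat_lit 9) (.e (nat_lit 336454) (nat_lit 34) (.e (nat_lit 483365) (nat_lit 18) (.e (nat_lit 57848) (nat_lit 252) .nil)))))) (.g (nat_lit 5) .nil .nil))) 
(.lf (nat_lit 148735) (.g (nat_lit 2551) (.e (nat_lit 57377) (nat_lit 3) (.e (nat_lit 98317) (nat_lit 9) (.e (nat_lit 336086) (nat_lit 9) (.e (nat_lit 336369) (nat_lit 27) (.e (nat_lit 426501) (nat_lit 27) (.e (nat_lit 335995) (nat_lit 1) (.e (nat_lit 57847) (nat_lit 252) .nil))))))) (.g (nat_lit 4) .nil .nil)))))))))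

noncomputable def tv1980 : DT := (.nd (nat_lit 0) (.nd (nat_lit 1) (.nd (nat_lit 2) (.nd (nat_lit 3) (.nd (nat_lit 4) (.nd (nat_lit 5) 
(.lf (nat_lit 148736) (.g (nat_lit 2091) (.e (nat_lit 57377) (nat_lit 3) (.e (nat_lit 98317) (nat_lit 9) (.e (nat_lit 336086) (nat_lit 9) (.e (nat_lit 336369) (nat_lit 27) (.e (nat_lit 426501) (nat_lit 27) (.e (nat_lit 335995) (nat_lit 1) (.e (nat_lit 57848) (nat_lit 252) .nil))))))) (.g (nat_lit 4) .nil .nil))) 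
(.lf (nat_lit 148768) (.g (nat_lit 3480) (.e (nat_lit 57377) (nat_lit 3) (.e (nat_lit 98317) (nat_lit 9) (.e (nat_lit 336086) (nat_lit 9) (.e (nat_lit 336456) (nat_lit 34) (.e (nat_lit 483365) (nat_lit 18) (.e (nat_lit 57849) (nat_lit 252) .nil)))))) (.g (nat_lit 5) .nil .nil)))) (.nd (nat_lit 5) 
(.lf (nat_lit 148752) (.g (nat_lit 3436) (.e (nat_lit 57377) (nat_lit 3) (.e (nat_lit 98317) (nat_lit 9) (.e (nat_lit 336086) (nat_lit 9) (.e (nat_lit 336454) (nat_lit 34) (.e (nat_lit 483365) (nat_lit 18) (.e (nat_lit 57848) (nat_lit 252) .nil)))))) (.g (nat_lit 0) .nil .nil))) 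
(.lf (nat_lit 148784) (.g (nat_lit 4687) (.e (nat_lit 57377) (nat_lit 3) (.e (nat_lit 98317) (nat_lit 9) (.e (nat_lit 336087) (nat_lit 9) (.e (nat_lit 336369) (nat_lit 27) (.e (nat_lit 426499) (nat_lit 27) (.e (nat_lit 335986) (nat_lit 1) (.e (nat_lit 57847) (nat_lit 252) .nil))))))) (.g (nat_lit 5) .nil .nil))))) (.nd (nat_lit 4) (.nd (nat_lit 5) 
(.lf (nat_lit 148744) (.g (nat_lit 3969) (.e (nat_lit 57377) (nat_lit 3) (.e (nat_lit 98317) (nat_lit 9) (.e (nat_lit 336086) (nat_lit 9) (.e (nat_lit 336454) (nat_lit 34) (.e (nat_lit 483363) (nat_lit 18) (.e (nat_lit 57849) (nat_lit 252) .nil)))))) (.g (nat_lit 0) .nil .nil))) 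
(.lf (nat_lit 148776) (.g (nat_lit 3055) (.e (nat_lit 57377) (nat_lit 3) (.e (nat_lit 98317) (nat_lit 9) (.e (nat_lit 336087) (nat_lit 9) (.e (nat_lit 336366) (nat_lit 27) (.e (nat_lit 426501) (nat_lit 27) (.e (nat_lit 335986) (nat_lit 1) (.e (nat_lit 57849) (nat_lit 252) .nil))))))) (.g (nat_lit 4) .nil .nil)))) (.nd (nat_lit 5) 
(.lf (nat_lit 148760) (.g (nat_lit 3109) (.e (nat_lit 57377) (nat_lit 3) (.e (nat_lit 98317) (nat_lit 9) (.e (nat_lit 336086) (nat_lit 9) (.e (nat_lit 336456) (nat_lit 34) (.e (nat_lit 483363) (nat_lit 18) (.e (nat_lit 57847) (nat_lit 252) .nil)))))) (.g (nat_lit 5) .nil .nil))) 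
(.lf (nat_lit 148792) (.g (nat_lit 3264) (.e (nat_lit 57377) (nat_lit 3) (.e (nat_lit 98317) (nat_lit 9) (.e (nat_lit 336087) (nat_lit 9) (.e (nat_lit 336370) (nat_lit 27) (.e (nat_lit 426499) (nat_lit 27) (.e (nat_lit 335996) (nat_lit 1) (.e (nat_lit 57852) (nat_lit 252) .nil))))))) (.g (nat_lit 4) .nil .nil)))))) (.nd (nat_lit 3) (.nd (nat_lit 4) (.nd (nat_lit 5) 
(.lf (nat_lit 148740) (.g (nat_lit 2005) (.e (nat_lit 57377) (nat_lit 3) (.e (nat_lit 98317) (nat_lit 9) (.e (nat_lit 336086) (nat_lit 9) (.e (nat_lit 336369) (nat_lit 27) (.e (nat_lit 426513) (nat_lit 27) .nil))))) .nil)) 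
(.lf (nat_lit 148772) (.g (nat_lit 382) (.e (nat_lit 57377) (nat_lit 3) (.e (nat_lit 98317) (nat_lit 9) (.e (nat_lit 336087) (nat_lit 9) .nil))) .nil))) (.nd (nat_lit 5) 
(.lf (nat_lit 148756) (.g (nat_lit 3335) (.e (nat_lit 57377) (nat_lit 3) (.e (nat_lit 98317) (nat_lit 9) (.e (nat_lit 336086) (nat_lit 9) (.e (nat_lit 336454) (nat_lit 34) (.e (nat_lit 483366) (nat_lit 18) (.e (nat_lit 57844) (nat_lit 252) .nil)))))) (.g (nat_lit 4) .nil .nil))) 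
(.lf (nat_lit 148788) (.g (nat_lit 3686) (.e (nat_lit 57377) (nat_lit 3) (.e (nat_lit 98317) (nat_lit 9) (.e (nat_lit 336087) (nat_lit 9) (.e (nat_lit 336369) (nat_lit 27) (.e (nat_lit 426501) (nat_lit 27) (.e (nat_lit 335996) (nat_lit 1) (.e (nat_lit 57852) (nat_lit 252) .nil))))))) (.g (nat_lit 4) .nil .nil))))) (.nd (nat_lit 4) (.nd (nat_lit 5) 
(.lf (nat_lit 148748) (.g (nat_lit 3375) (.e (nat_lit 57377) (nat_lit 3) (.e (nat_lit 98317) (nat_lit 9) (.e (nat_lit 336086) (nat_lit 9) (.e (nat_lit 336454) (nat_lit 34) (.e (nat_lit 483364) (nat_lit 18) (.e (nat_lit 57854) (nat_lit 252) .nil)))))) (.g (nat_lit 0) .nil .nil))) 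
(.lf (nat_lit 148780) (.g (nat_lit 3021) (.e (nat_lit 57377) (nat_lit 3) (.e (nat_lit 98317) (nat_lit 9) (.e (nat_lit 336087) (nat_lit 9) (.e (nat_lit 336368) (nat_lit 27) (.e (nat_lit 426501) (nat_lit 27) (.e (nat_lit 335988) (nat_lit 1) (.e (nat_lit 57854) (nat_lit 252) .nil))))))) (.g (nat_lit 4) .nil .nil)))) (.nd (nat_lit 5) 
(.lf (nat_lit 148764) (.g (nat_lit 2576) (.e (nat_lit 57377) (nat_lit 3) (.e (nat_lit 98317) (nat_lit 9) (.e (nat_lit 336086) (nat_lit 9) (.e (nat_lit 336456) (nat_lit 34) (.e (nat_lit 483364) (nat_lit 18) (.e (nat_lit 57854) (nat_lit 252) .nil)))))) (.g (nat_lit 4) .nil .nil))) 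
(.lf (nat_lit 148796) (.g (nat_lit 2792) (.e (nat_lit 57377) (nat_lit 3) (.e (nat_lit 98317) (nat_lit 9) (.e (nat_lit 336087) (nat_lit 9) (.e (nat_lit 336372) (nat_lit 27) (.e (nat_lit 426522) (nat_lit 27) (.e (nat_lit 335986) (nat_lit 1) (.e (nat_lit 57847) (nat_lit 252) .nil))))))) (.g (nat_lit 4) .nil .nil))))))) (.nd (nat_lit 2) (.nd (nat_lit 3) (.nd (nat_lit 4) (.nd (nat_lit 5) 
(.lf (nat_lit 148738) (.g (nat_lit 3132) (.e (nat_lit 57377) (nat_lit 3) (.e (nat_lit 98317) (nat_lit 9) (.e (nat_lit 336086) (nat_lit 9) (.e (nat_lit 336369) (nat_lit 27) (.e (nat_lit 426501) (nat_lit 27) (.e (nat_lit 335996) (nat_lit 1) (.e (nat_lit 57852) (nat_lit 252) .nil))))))) (.g (nat_lit 5) .nil .nil))) 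
(.lf (nat_lit 148770) (.g (nat_lit 3307) (.e (nat_lit 57377) (nat_lit 3) (.e (nat_lit 98317) (nat_lit 9) (.e (nat_lit 336086) (nat_lit 9) (.e (nat_lit 336456) (nat_lit 34) (.e (nat_lit 483365) (nat_lit 18) (.e (nat_lit 57853) (nat_lit 252) .nil)))))) (.g (nat_lit 5) .nil .nil)))) (.nd (nat_lit 5) 
(.lf (nat_lit 148754) (.g (nat_lit 3861) (.e (nat_lit 57377) (nat_lit 3) (.e (nat_lit 98317) (nat_lit 9) (.e (nat_lit 336086) (nat_lit 9) (.e (nat_lit 336454) (nat_lit 34) (.e (nat_lit 483365) (nat_lit 18) (.e (nat_lit 57854) (nat_lit 252) .nil)))))) (.g (nat_lit 0) .nil .nil))) 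
(.lf (nat_lit 148786) (.g (nat_lit 3085) (.e (nat_lit 57377) (nat_lit 3) (.e (nat_lit 98317) (nat_lit 9) (.e (nat_lit 336087) (nat_lit 9) (.e (nat_lit 336369) (nat_lit 27) (.e (nat_lit 426501) (nat_lit 27) (.e (nat_lit 335986) (nat_lit 1) (.e (nat_lit 57847) (nat_lit 252) .nil))))))) (.g (nat_lit 4) .nil .nil))))) (.nd (nat_lit 4) (.nd (nat_lit 5) 
(.lf (nat_lit 148746) (.g (nat_lit 3381) (.e (nat_lit 57377) (nat_lit 3) (.e (nat_lit 98317) (nat_lit 9) (.e (nat_lit 336086) (nat_lit 9) (.e (nat_lit 336454) (nat_lit 34) (.e (nat_lit 483364) (nat_lit 18) (.e (nat_lit 57852) (nat_lit 252) .nil)))))) (.g (nat_lit 0) .nil .nil))) 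
(.lf (nat_lit 148778) (.g (nat_lit 2999) (.e (nat_lit 57377) (nat_lit 3) (.e (nat_lit 98317) (nat_lit 9) (.e (nat_lit 336087) (nat_lit 9) (.e (nat_lit 336368) (nat_lit 27) (.e (nat_lit 426497) (nat_lit 27) (.e (nat_lit 335995) (nat_lit 1) (.e (nat_lit 57847) (nat_lit 252) .nil))))))) (.g (nat_lit 4) .nil .nil)))) (.nd (nat_lit 5) 
(.lf (nat_lit 148762) (.g (nat_lit 2850) (.e (nat_lit 57377) (nat_lit 3) (.e (nat_lit 98317) (nat_lit 9) (.e (nat_lit 336086) (nat_lit 9) (.e (nat_lit 336456) (nat_lit 34) (.e (nat_lit 483363) (nat_lit 18) (.e (nat_lit 57854) (nat_lit 252) .nil)))))) (.g (nat_lit 4) .nil .nil))) 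
(.lf (nat_lit 148794) (.g (nat_lit 3024) (.e (nat_lit 57377) (nat_lit 3) (.e (nat_lit 98317) (nat_lit 9) (.e (nat_lit 336087) (nat_lit 9) (.e (nat_lit 336370) (nat_lit 27) (.e (nat_lit 426501) (nat_lit 27) (.e (nat_lit 335995) (nat_lit 1) (.e (nat_lit 57847) (nat_lit 252) .nil))))))) (.g (nat_lit 4) .nil .nil)))))) (.nd (nat_lit 3) (.nd (nat_lit 4) (.nd (nat_lit 5) 
(.lf (nat_lit 148742) (.g (nat_lit 3959) (.e (nat_lit 57377) (nat_lit 3) (.e (nat_lit 98317) (nat_lit 9) (.e (nat_lit 336086) (nat_lit 9) (.e (nat_lit 336395) (nat_lit 27) (.e (nat_lit 426528) (nat_lit 27) (.e (nat_lit 335986) (nat_lit 1) (.e (nat_lit 57849) (nat_lit 252) .nil))))))) (.g (nat_lit 0) .nil .nil))) 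
(.lf (nat_lit 148774) (.g (nat_lit 2879) (.e (nat_lit 57377) (nat_lit 3) (.e (nat_lit 98317) (nat_lit 9) (.e (nat_lit 336087) (nat_lit 9) (.e (nat_lit 336366) (nat_lit 27) (.e (nat_lit 426498) (nat_lit 27) (.e (nat_lit 335986) (nat_lit 1) (.e (nat_lit 57847) (nat_lit 252) .nil))))))) (.g (nat_lit 4) .nil .nil)))) (.nd (nat_lit 5) 
(.lf (nat_lit 148758) (.g (nat_lit 2015) (.e (nat_lit 57377) (nat_lit 3) (.e (nat_lit 98317) (nat_lit 9) (.e (nat_lit 336086) (nat_lit 9) (.e (nat_lit 336455) (nat_lit 34) (.e (nat_lit 483363) (nat_lit 18) (.e (nat_lit 57847) (nat_lit 252) .nil)))))) (.g (nat_lit 4) .nil .nil))) 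
(.lf (nat_lit 148790) (.g (nat_lit 2992) (.e (nat_lit 57377) (nat_lit 3) (.e (nat_lit 98317) (nat_lit 9) (.e (nat_lit 336087) (nat_lit 9) (.e (nat_lit 336370) (nat_lit 27) (.e (nat_lit 426498) (nat_lit 27) (.e (nat_lit 335986) (nat_lit 1) (.e (nat_lit 57847) (nat_lit 252) .nil))))))) (.g (nat_lit 4) .nil .nil))))) (.nd (nat_lit 4) (.nd (nat_lit 5) 
(.lf (nat_lit 148750) (.g (nat_lit 4128) (.e (nat_lit 57377) (nat_lit 3) (.e (nat_lit 98317) (nat_lit 9) (.e (nat_lit 336086) (nat_lit 9) (.e (nat_lit 336454) (nat_lit 34) (.e (nat_lit 483365) (nat_lit 18) (.e (nat_lit 57846) (nat_lit 252) .nil)))))) (.g (nat_lit 0) .nil .nil))) 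
(.lf (nat_lit 148782) (.g (nat_lit 3026) (.e (nat_lit 57377) (nat_lit 3) (.e (nat_lit 98317) (nat_lit 9) (.e (nat_lit 336087) (nat_lit 9) (.e (nat_lit 336368) (nat_lit 27) (.e (nat_lit 426501) (nat_lit 27) (.e (nat_lit 335996) (nat_lit 1) (.e (nat_lit 57853) (nat_lit 252) .nil))))))) (.g (nat_lit 4) .nil .nil)))) (.nd (nat_lit 5) 
(.lf (nat_lit 148766) (.g (nat_lit 3277) (.e (nat_lit 57377) (nat_lit 3) (.e (nat_lit 98317) (nat_lit 9) (.e (nat_lit 336086) (nat_lit 9) (.e (nat_lit 336456) (nat_lit 34) (.e (nat_lit 483365) (nat_lit 18) (.e (nat_lit 57847) (nat_lit 252) .nil)))))) (.g (nat_lit 5) .nil .nil))) 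
(.lf (nat_lit 148798) (.g (nat_lit 2796) (.e (nat_lit 57377) (nat_lit 3) (.e (nat_lit 98317) (nat_lit 9) (.e (nat_lit 336087) (nat_lit 9) (.e (nat_lit 336375) (nat_lit 27) (.e (nat_lit 426525) (nat_lit 27) (.e (nat_lit 335995) (nat_lit 1) (.e (nat_lit 57847) (nat_lit 252) .nil))))))) (.g (nat_lit 4) .nil .nil)))))))) 
(.nd (nat_lit 1) (.nd (nat_lit 2) (.nd (nat_lit 3) (.nd (nat_lit 4) (.nd (nat_lit 5) 
(.lf (nat_lit 148737) (.g (nat_lit 2014) (.e (nat_lit 57377) (nat_lit 3) (.e (nat_lit 98317) (nat_lit 9) (.e (nat_lit 336086) (nat_lit 9) (.e (nat_lit 336369) (nat_lit 27) (.e (nat_lit 426501) (nat_lit 27) (.e (nat_lit 335996) (nat_lit 1) (.e (nat_lit 57851) (nat_lit 252) .nil))))))) (.g (nat_lit 4) .nil .nil))) 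
(.lf (nat_lit 148769) (.g (nat_lit 2549) (.e (nat_lit 57377) (nat_lit 3) (.e (nat_lit 98317) (nat_lit 9) (.e (nat_lit 336086) (nat_lit 9) (.e (nat_lit 336456) (nat_lit 34) (.e (nat_lit 483365) (nat_lit 18) (.e (nat_lit 57852) (nat_lit 252) .nil)))))) (.g (nat_lit 4) .nil .nil)))) (.nd (nat_lit 5) 
(.lf (nat_lit 148753) (.g (nat_lit 3519) (.e (nat_lit 57377) (nat_lit 3) (.e (nat_lit 98317) (nat_lit 9) (.e (nat_lit 336086) (nat_lit 9) (.e (nat_lit 336454) (nat_lit 34) (.e (nat_lit 483365) (nat_lit 18) (.e (nat_lit 57851) (nat_lit 252) .nil)))))) (.g (nat_lit 0) .nil .nil))) 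
(.lf (nat_lit 148785) (.g (nat_lit 4648) (.e (nat_lit 57377) (nat_lit 3) (.e (nat_lit 98317) (nat_lit 9) (.e (nat_lit 336087) (nat_lit 9) (.e (nat_lit 336369) (nat_lit 27) (.e (nat_lit 426499) (nat_lit 27) (.e (nat_lit 335986) (nat_lit 1) (.e (nat_lit 57849) (nat_lit 252) .nil))))))) (.g (nat_lit 5) .nil .nil))))) (.nd (nat_lit 4) (.nd (nat_lit 5) 
(.lf (nat_lit 148745) (.g (nat_lit 3530) (.e (nat_lit 57377) (nat_lit 3) (.e (nat_lit 98317) (nat_lit 9) (.e (nat_lit 336086) (nat_lit 9) (.e (nat_lit 336454) (nat_lit 34) (.e (nat_lit 483363) (nat_lit 18) (.e (nat_lit 57854) (nat_lit 252) .nil)))))) (.g (nat_lit 6) .nil .nil))) 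
(.lf (nat_lit 148777) (.g (nat_lit 2965) (.e (nat_lit 57377) (nat_lit 3) (.e (nat_lit 98317) (nat_lit 9) (.e (nat_lit 336087) (nat_lit 9) (.e (nat_lit 336368) (nat_lit 27) (.e (nat_lit 426497) (nat_lit 27) (.e (nat_lit 335986) (nat_lit 1) (.e (nat_lit 57849) (nat_lit 252) .nil))))))) (.g (nat_lit 4) .nil .nil)))) (.nd (nat_lit 5) 
(.lf (nat_lit 148761) (.g (nat_lit 3240) (.e (nat_lit 57377) (nat_lit 3) (.e (nat_lit 98317) (nat_lit 9) (.e (nat_lit 336086) (nat_lit 9) (.e (nat_lit 336456) (nat_lit 34) (.e (nat_lit 483363) (nat_lit 18) (.e (nat_lit 57849) (nat_lit 252) .nil)))))) (.g (nat_lit 5) .nil .nil))) 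
(.lf (nat_lit 148793) (.g (nat_lit 3026) (.e (nat_lit 57377) (nat_lit 3) (.e (nat_lit 98317) (nat_lit 9) (.e (nat_lit 336087) (nat_lit 9) (.e (nat_lit 336370) (nat_lit 27) (.e (nat_lit 426501) (nat_lit 27) (.e (nat_lit 335988) (nat_lit 1) (.e (nat_lit 57854) (nat_lit 252) .nil))))))) (.g (nat_lit 4) .nil .nil)))))) (.nd (nat_lit 3) (.nd (nat_lit 4) (.nd (nat_lit 5) 
(.lf (nat_lit 148741) (.g (nat_lit 3114) (.e (nat_lit 57377) (nat_lit 3) (.e (nat_lit 98317) (nat_lit 9) (.e (nat_lit 336086) (nat_lit 9) (.e (nat_lit 336370) (nat_lit 27) (.e (nat_lit 426499) (nat_lit 27) (.e (nat_lit 335986) (nat_lit 1) (.e (nat_lit 57849) (nat_lit 252) .nil))))))) (.g (nat_lit 5) .nil .nil))) 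
(.lf (nat_lit 148773) (.g (nat_lit 2837) (.e (nat_lit 57377) (nat_lit 3) (.e (nat_lit 98317) (nat_lit 9) (.e (nat_lit 336087) (nat_lit 9) (.e (nat_lit 336366) (nat_lit 27) (.e (nat_lit 426497) (nat_lit 27) (.e (nat_lit 335986) (nat_lit 1) (.e (nat_lit 57847) (nat_lit 252) .nil))))))) (.g (nat_lit 4) .nil .nil)))) (.nd (nat_lit 5) 
(.lf (nat_lit 148757) (.g (nat_lit 3385) (.e (nat_lit 57377) (nat_lit 3) (.e (nat_lit 98317) (nat_lit 9) (.e (nat_lit 336086) (nat_lit 9) (.e (nat_lit 336454) (nat_lit 34) (.e (nat_lit 483366) (nat_lit 18) (.e (nat_lit 57848) (nat_lit 252) .nil)))))) (.g (nat_lit 5) .nil .nil))) 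
(.lf (nat_lit 148789) (.g (nat_lit 3215) (.e (nat_lit 57377) (nat_lit 3) (.e (nat_lit 98317) (nat_lit 9) (.e (nat_lit 336087) (nat_lit 9) (.e (nat_lit 336370) (nat_lit 27) (.e (nat_lit 426497) (nat_lit 27) (.e (nat_lit 335996) (nat_lit 1) (.e (nat_lit 57852) (nat_lit 252) .nil))))))) (.g (nat_lit 4) .nil .nil))))) (.nd (nat_lit 4) (.nd (nat_lit 5) 
(.lf (nat_lit 148749) (.g (nat_lit 3472) (.e (nat_lit 57377) (nat_lit 3) (.e (nat_lit 98317) (nat_lit 9) (.e (nat_lit 336086) (nat_lit 9) (.e (nat_lit 336454) (nat_lit 34) (.e (nat_lit 483365) (nat_lit 18) (.e (nat_lit 57844) (nat_lit 252) .nil)))))) (.g (nat_lit 5) .nil .nil))) 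
(.lf (nat_lit 148781) (.g (nat_lit 3019) (.e (nat_lit 57377) (nat_lit 3) (.e (nat_lit 98317) (nat_lit 9) (.e (nat_lit 336087) (nat_lit 9) (.e (nat_lit 336368) (nat_lit 27) (.e (nat_lit 426501) (nat_lit 27) (.e (nat_lit 335995) (nat_lit 1) (.e (nat_lit 57847) (nat_lit 252) .nil))))))) (.g (nat_lit 4) .nil .nil)))) (.nd (nat_lit 5) 
(.lf (nat_lit 148765) (.g (nat_lit 3621) (.e (nat_lit 57377) (nat_lit 3) (.e (nat_lit 98317) (nat_lit 9) (.e (nat_lit 336086) (nat_lit 9) (.e (nat_lit 336456) (nat_lit 34) (.e (nat_lit 483365) (nat_lit 18) (.e (nat_lit 57846) (nat_lit 252) .nil)))))) (.g (nat_lit 5) .nil .nil))) 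
(.lf (nat_lit 148797) (.g (nat_lit 2826) (.e (nat_lit 57377) (nat_lit 3) (.e (nat_lit 98317) (nat_lit 9) (.e (nat_lit 336087) (nat_lit 9) (.e (nat_lit 336372) (nat_lit 27) (.e (nat_lit 426524) (nat_lit 27) (.e (nat_lit 335986) (nat_lit 1) (.e (nat_lit 57847) (nat_lit 252) .nil))))))) (.g (nat_lit 4) .nil .nil))))))) (.nd (nat_lit 2) (.nd (nat_lit 3) (.nd (nat_lit 4) (.nd (nat_lit 5) 
(.lf (nat_lit 148739) (.g (nat_lit 2220) (.e (nat_lit 57377) (nat_lit 3) (.e (nat_lit 98317) (nat_lit 9) (.e (nat_lit 336086) (nat_lit 9) (.e (nat_lit 336369) (nat_lit 27) (.e (nat_lit 426501) (nat_lit 27) (.e (nat_lit 335996) (nat_lit 1) (.e (nat_lit 57853) (nat_lit 252) .nil))))))) (.g (nat_lit 4) .nil .nil))) 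
(.lf (nat_lit 148771) (.g (nat_lit 3355) (.e (nat_lit 57377) (nat_lit 3) (.e (nat_lit 98317) (nat_lit 9) (.e (nat_lit 336086) (nat_lit 9) (.e (nat_lit 336456) (nat_lit 34) (.e (nat_lit 483365) (nat_lit 18) (.e (nat_lit 57854) (nat_lit 252) .nil)))))) (.g (nat_lit 5) .nil .nil)))) (.nd (nat_lit 5) 
(.lf (nat_lit 148755) (.g (nat_lit 2508) (.e (nat_lit 57377) (nat_lit 3) (.e (nat_lit 98317) (nat_lit 9) (.e (nat_lit 336086) (nat_lit 9) (.e (nat_lit 336454) (nat_lit 34) (.e (nat_lit 483366) (nat_lit 18) .nil))))) .nil)) 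
(.lf (nat_lit 148787) (.g (nat_lit 3141) (.e (nat_lit 57377) (nat_lit 3) (.e (nat_lit 98317) (nat_lit 9) (.e (nat_lit 336087) (nat_lit 9) (.e (nat_lit 336369) (nat_lit 27) (.e (nat_lit 426501) (nat_lit 27) (.e (nat_lit 335995) (nat_lit 1) (.e (nat_lit 57849) (nat_lit 252) .nil))))))) (.g (nat_lit 4) .nil .nil))))) (.nd (nat_lit 4) (.nd (nat_lit 5) 
(.lf (nat_lit 148747) (.g (nat_lit 2165) (.e (nat_lit 57377) (nat_lit 3) (.e (nat_lit 98317) (nat_lit 9) (.e (nat_lit 336086) (nat_lit 9) (.e (nat_lit 336454) (nat_lit 34) (.e (nat_lit 483364) (nat_lit 18) (.e (nat_lit 57853) (nat_lit 252) .nil)))))) (.g (nat_lit 4) .nil .nil))) 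
(.lf (nat_lit 148779) (.g (nat_lit 4732) (.e (nat_lit 57377) (nat_lit 3) (.e (nat_lit 98317) (nat_lit 9) (.e (nat_lit 336087) (nat_lit 9) (.e (nat_lit 336368) (nat_lit 27) (.e (nat_lit 426499) (nat_lit 27) (.e (nat_lit 335986) (nat_lit 1) (.e (nat_lit 57849) (nat_lit 252) .nil))))))) (.g (nat_lit 6) .nil .nil)))) (.nd (nat_lit 5) 
(.lf (nat_lit 148763) (.g (nat_lit 2606) (.e (nat_lit 57377) (nat_lit 3) (.e (nat_lit 98317) (nat_lit 9) (.e (nat_lit 336086) (nat_lit 9) (.e (nat_lit 336456) (nat_lit 34) (.e (nat_lit 483364) (nat_lit 18) (.e (nat_lit 57852) (nat_lit 252) .nil)))))) (.g (nat_lit 4) .nil .nil))) 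
(.lf (nat_lit 148795) (.g (nat_lit 3031) (.e (nat_lit 57377) (nat_lit 3) (.e (nat_lit 98317) (nat_lit 9) (.e (nat_lit 336087) (nat_lit 9) (.e (nat_lit 336370) (nat_lit 27) (.e (nat_lit 426501) (nat_lit 27) (.e (nat_lit 335996) (nat_lit 1) (.e (nat_lit 57853) (nat_lit 252) .nil))))))) (.g (nat_lit 4) .nil .nil)))))) (.nd (nat_lit 3) (.nd (nat_lit 4) (.nd (nat_lit 5) 
(.lf (nat_lit 148743) (.g (nat_lit 3857) (.e (nat_lit 57377) (nat_lit 3) (.e (nat_lit 98317) (nat_lit 9) (.e (nat_lit 336086) (nat_lit 9) (.e (nat_lit 336454) (nat_lit 34) (.e (nat_lit 483363) (nat_lit 18) (.e (nat_lit 57847) (nat_lit 252) .nil)))))) (.g (nat_lit 0) .nil .nil))) 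
(.lf (nat_lit 148775) (.g (nat_lit 4745) (.e (nat_lit 57377) (nat_lit 3) (.e (nat_lit 98317) (nat_lit 9) (.e (nat_lit 336087) (nat_lit 9) (.e (nat_lit 336366) (nat_lit 27) (.e (nat_lit 426499) (nat_lit 27) (.e (nat_lit 335986) (nat_lit 1) (.e (nat_lit 57849) (nat_lit 252) .nil))))))) (.g (nat_lit 6) .nil .nil)))) (.nd (nat_lit 5) 
(.lf (nat_lit 148759) (.g (nat_lit 1055) (.e (nat_lit 57377) (nat_lit 3) (.e (nat_lit 98317) (nat_lit 9) (.e (nat_lit 336086) (nat_lit 9) (.e (nat_lit 336456) (nat_lit 34) .nil)))) .nil)) 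
(.lf (nat_lit 148791) (.g (nat_lit 4854) (.e (nat_lit 57377) (nat_lit 3) (.e (nat_lit 98317) (nat_lit 9) (.e (nat_lit 336087) (nat_lit 9) (.e (nat_lit 336370) (nat_lit 27) (.e (nat_lit 426499) (nat_lit 27) (.e (nat_lit 335986) (nat_lit 1) (.e (nat_lit 57849) (nat_lit 252) .nil))))))) (.g (nat_lit 7) .nil .nil))))) (.nd (nat_lit 4) (.nd (nat_lit 5) 
(.lf (nat_lit 148751) (.g (nat_lit 3848) (.e (nat_lit 57377) (nat_lit 3) (.e (nat_lit 98317) (nat_lit 9) (.e (nat_lit 336086) (nat_lit 9) (.e (nat_lit 336454) (nat_lit 34) (.e (nat_lit 483365) (nat_lit 18) (.e (nat_lit 57847) (nat_lit 252) .nil)))))) (.g (nat_lit 0) .nil .nil))) 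
(.lf (nat_lit 148783) (.g (nat_lit 2957) (.e (nat_lit 57377) (nat_lit 3) (.e (nat_lit 98317) (nat_lit 9) (.e (nat_lit 336087) (nat_lit 9) (.e (nat_lit 336369) (nat_lit 27) (.e (nat_lit 426497) (nat_lit 27) (.e (nat_lit 335986) (nat_lit 1) (.e (nat_lit 57847) (nat_lit 252) .nil))))))) (.g (nat_lit 4) .nil .nil)))) (.nd (nat_lit 5) 
(.lf (nat_lit 148767) (.g (nat_lit 2817) (.e (nat_lit 57377) (nat_lit 3) (.e (nat_lit 98317) (nat_lit 9) (.e (nat_lit 336086) (nat_lit 9) (.e (nat_lit 336456) (nat_lit 34) (.e (nat_lit 483365) (nat_lit 18) (.e (nat_lit 57848) (nat_lit 252) .nil)))))) (.g (nat_lit 4) .nil .nil))) 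
(.lf (nat_lit 148799) (.g (nat_lit 3036) (.e (nat_lit 57377) (nat_lit 3) (.e (nat_lit 98317) (nat_lit 9) (.e (nat_lit 336087) (nat_lit 9) (.e (nat_lit 336377) (nat_lit 27) (.e (nat_lit 426524) (nat_lit 27) (.e (nat_lit 335986) (nat_lit 1) (.e (nat_lit 57849) (nat_lit 252) .nil))))))) (.g (nat_lit 4) .nil .nil)))))))))

noncomputable def tv1981 : DT := (.nd (nat_lit 0) (.nd (nat_lit 1) (.nd (nat_lit 2) (.nd (nat_lit 3) (.nd (nat_lit 4) (.nd (nat_lit 5) 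
(.lf (nat_lit 148800) (.g (nat_lit 3094) (.e (nat_lit 57377) (nat_lit 3) (.e (nat_lit 98317) (nat_lit 9) (.e (nat_lit 336087) (nat_lit 9) (.e (nat_lit 336379) (nat_lit 27) (.e (nat_lit 426522) (nat_lit 27) (.e (nat_lit 335986) (nat_lit 1) (.e (nat_lit 57847) (nat_lit 252) .nil))))))) (.g (nat_lit 4) .nil .nil))) 
(.lf (nat_lit 148832) (.g (nat_lit 3936) (.e (nat_lit 57377) (nat_lit 3) (.e (nat_lit 98317) (nat_lit 9) (.e (nat_lit 336087) (nat_lit 9) (.e (nat_lit 336456) (nat_lit 34) (.e (nat_lit 483365) (nat_lit 18) (.e (nat_lit 57849) (nat_lit 252) .nil)))))) (.g (nat_lit 5) .nil .nil)))) (.nd (nat_lit 5) 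
(.lf (nat_lit 148816) (.g (nat_lit 3794) (.e (nat_lit 57377) (nat_lit 3) (.e (nat_lit 98317) (nat_lit 9) (.e (nat_lit 336087) (nat_lit 9) (.e (nat_lit 336454) (nat_lit 34) (.e (nat_lit 483364) (nat_lit 18) (.e (nat_lit 57854) (nat_lit 252) .nil)))))) (.g (nat_lit 5) .nil .nil))) 
(.lf (nat_lit 148848) (.g (nat_lit 2246) (.e (nat_lit 57377) (nat_lit 3) (.e (nat_lit 98317) (nat_lit 9) (.e (nat_lit 336088) (nat_lit 9) (.e (nat_lit 336368) (nat_lit 27) (.e (nat_lit 426497) (nat_lit 27) (.e (nat_lit 335996) (nat_lit 1) (.e (nat_lit 57852) (nat_lit 252) .nil))))))) (.g (nat_lit 4) .nil .nil))))) (.nd (nat_lit 4) (.nd (nat_lit 5) 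
(.lf (nat_lit 148808) (.g (nat_lit 3239) (.e (nat_lit 57377) (nat_lit 3) (.e (nat_lit 98317) (nat_lit 9) (.e (nat_lit 336087) (nat_lit 9) (.e (nat_lit 336452) (nat_lit 34) (.e (nat_lit 483364) (nat_lit 18) (.e (nat_lit 57854) (nat_lit 252) .nil)))))) (.g (nat_lit 4) .nil .nil))) 
(.lf (nat_lit 148840) (.g (nat_lit 2644) (.e (nat_lit 57377) (nat_lit 3) (.e (nat_lit 98317) (nat_lit 9) (.e (nat_lit 336088) (nat_lit 9) (.e (nat_lit 336366) (nat_lit 27) (.e (nat_lit 426498) (nat_lit 27) (.e (nat_lit 335986) (nat_lit 1) (.e (nat_lit 57849) (nat_lit 252) .nil))))))) (.g (nat_lit 5) .nil .nil)))) (.nd (nat_lit 5) 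
(.lf (nat_lit 148824) (.g (nat_lit 4246) (.e (nat_lit 57377) (nat_lit 3) (.e (nat_lit 98317) (nat_lit 9) (.e (nat_lit 336087) (nat_lit 9) (.e (nat_lit 336456) (nat_lit 34) (.e (nat_lit 483363) (nat_lit 18) (.e (nat_lit 57849) (nat_lit 252) .nil)))))) (.g (nat_lit 5) .nil .nil))) 
(.lf (nat_lit 148856) (.g (nat_lit 2030) (.e (nat_lit 57377) (nat_lit 3) (.e (nat_lit 98317) (nat_lit 9) (.e (nat_lit 336088) (nat_lit 9) (.e (nat_lit 336370) (nat_lit 27) (.e (nat_lit 426501) (nat_lit 27) (.e (nat_lit 335996) (nat_lit 1) (.e (nat_lit 57854) (nat_lit 252) .nil))))))) (.g (nat_lit 4) .nil .nil)))))) (.nd (nat_lit 3) (.nd (nat_lit 4) (.nd (nat_lit 5) 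
(.lf (nat_lit 148804) (.g (nat_lit 3232) (.e (nat_lit 57377) (nat_lit 3) (.e (nat_lit 98317) (nat_lit 9) (.e (nat_lit 336087) (nat_lit 9) (.e (nat_lit 336395) (nat_lit 27) (.e (nat_lit 426499) (nat_lit 27) (.e (nat_lit 335986) (nat_lit 1) (.e (nat_lit 57849) (nat_lit 252) .nil))))))) (.g (nat_lit 4) .nil .nil))) 
(.lf (nat_lit 148836) (.g (nat_lit 4125) (.e (nat_lit 57377) (nat_lit 3) (.e (nat_lit 98317) (nat_lit 9) (.e (nat_lit 336087) (nat_lit 9) (.e (nat_lit 336456) (nat_lit 34) (.e (nat_lit 483365) (nat_lit 18) (.e (nat_lit 57854) (nat_lit 252) .nil)))))) (.g (nat_lit 5) .nil .nil)))) (.nd (nat_lit 5) 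
(.lf (nat_lit 148820) (.g (nat_lit 3725) (.e (nat_lit 57377) (nat_lit 3) (.e (nat_lit 98317) (nat_lit 9) (.e (nat_lit 336087) (nat_lit 9) (.e (nat_lit 336454) (nat_lit 34) (.e (nat_lit 483366) (nat_lit 18) (.e (nat_lit 57848) (nat_lit 252) .nil)))))) (.g (nat_lit 4) .nil .nil))) 
(.lf (nat_lit 148852) (.g (nat_lit 2277) (.e (nat_lit 57377) (nat_lit 3) (.e (nat_lit 98317) (nat_lit 9) (.e (nat_lit 336088) (nat_lit 9) (.e (nat_lit 336369) (nat_lit 27) (.e (nat_lit 426501) (nat_lit 27) .nil))))) .nil)))) (.nd (nat_lit 4) (.nd (nat_lit 5) 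
(.lf (nat_lit 148812) (.g (nat_lit 4522) (.e (nat_lit 57377) (nat_lit 3) (.e (nat_lit 98317) (nat_lit 9) (.e (nat_lit 336087) (nat_lit 9) (.e (nat_lit 336454) (nat_lit 34) (.e (nat_lit 483363) (nat_lit 18) (.e (nat_lit 57849) (nat_lit 252) .nil)))))) (.g (nat_lit 5) .nil .nil))) 
(.lf (nat_lit 148844) (.g (nat_lit 2189) (.e (nat_lit 57377) (nat_lit 3) (.e (nat_lit 98317) (nat_lit 9) (.e (nat_lit 336088) (nat_lit 9) (.e (nat_lit 336366) (nat_lit 27) (.e (nat_lit 426513) (nat_lit 27) (.e (nat_lit 335986) (nat_lit 1) (.e (nat_lit 57849) (nat_lit 252) .nil))))))) (.g (nat_lit 4) .nil .nil)))) (.nd (nat_lit 5) 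
(.lf (nat_lit 148828) (.g (nat_lit 3584) (.e (nat_lit 57377) (nat_lit 3) (.e (nat_lit 98317) (nat_lit 9) (.e (nat_lit 336087) (nat_lit 9) (.e (nat_lit 336456) (nat_lit 34) (.e (nat_lit 483364) (nat_lit 18) (.e (nat_lit 57854) (nat_lit 252) .nil)))))) (.g (nat_lit 4) .nil .nil))) 
(.lf (nat_lit 148860) (.g (nat_lit 1852) (.e (nat_lit 57377) (nat_lit 3) (.e (nat_lit 98317) (nat_lit 9) (.e (nat_lit 336088) (nat_lit 9) (.e (nat_lit 336377) (nat_lit 27) (.e (nat_lit 426524) (nat_lit 27) (.e (nat_lit 335985) (nat_lit 1) (.e (nat_lit 57849) (nat_lit 252) .nil))))))) (.g (nat_lit 4) .nil .nil))))))) (.nd (nat_lit 2) (.nd (nat_lit 3) (.nd (nat_lit 4) (.nd (nat_lit 5) 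
(.lf (nat_lit 148802) (.g (nat_lit 2833) (.e (nat_lit 57377) (nat_lit 3) (.e (nat_lit 98317) (nat_lit 9) (.e (nat_lit 336087) (nat_lit 9) (.e (nat_lit 336379) (nat_lit 27) (.e (nat_lit 426524) (nat_lit 27) (.e (nat_lit 335986) (nat_lit 1) (.e (nat_lit 57847) (nat_lit 252) .nil))))))) (.g (nat_lit 4) .nil .nil))) 
(.lf (nat_lit 148834) (.g (nat_lit 3583) (.e (nat_lit 57377) (nat_lit 3) (.e (nat_lit 98317) (nat_lit 9) (.e (nat_lit 336087) (nat_lit 9) (.e (nat_lit 336456) (nat_lit 34) (.e (nat_lit 483365) (nat_lit 18) (.e (nat_lit 57852) (nat_lit 252) .nil)))))) (.g (nat_lit 4) .nil .nil)))) (.nd (nat_lit 5) 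
(.lf (nat_lit 148818) (.g (nat_lit 4937) (.e (nat_lit 57377) (nat_lit 3) (.e (nat_lit 98317) (nat_lit 9) (.e (nat_lit 336087) (nat_lit 9) (.e (nat_lit 336454) (nat_lit 34) (.e (nat_lit 483365) (nat_lit 18) (.e (nat_lit 57851) (nat_lit 252) .nil)))))) (.g (nat_lit 5) .nil .nil))) 
(.lf (nat_lit 148850) (.g (nat_lit 2035) (.e (nat_lit 57377) (nat_lit 3) (.e (nat_lit 98317) (nat_lit 9) (.e (nat_lit 336088) (nat_lit 9) (.e (nat_lit 336368) (nat_lit 27) (.e (nat_lit 426501) (nat_lit 27) (.e (nat_lit 335988) (nat_lit 1) (.e (nat_lit 57854) (nat_lit 252) .nil))))))) (.g (nat_lit 4) .nil .nil))))) (.nd (nat_lit 4) (.nd (nat_lit 5) 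
(.lf (nat_lit 148810) (.g (nat_lit 3007) (.e (nat_lit 57377) (nat_lit 3) (.e (nat_lit 98317) (nat_lit 9) (.e (nat_lit 336087) (nat_lit 9) (.e (nat_lit 336452) (nat_lit 34) (.e (nat_lit 483365) (nat_lit 18) (.e (nat_lit 57849) (nat_lit 252) .nil)))))) (.g (nat_lit 4) .nil .nil))) 
(.lf (nat_lit 148842) (.g (nat_lit 2228) (.e (nat_lit 57377) (nat_lit 3) (.e (nat_lit 98317) (nat_lit 9) (.e (nat_lit 336088) (nat_lit 9) (.e (nat_lit 336366) (nat_lit 27) (.e (nat_lit 426501) (nat_lit 27) (.e (nat_lit 335988) (nat_lit 1) (.e (nat_lit 57854) (nat_lit 252) .nil))))))) (.g (nat_lit 4) .nil .nil)))) (.nd (nat_lit 5) 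
(.lf (nat_lit 148826) (.g (nat_lit 4170) (.e (nat_lit 57377) (nat_lit 3) (.e (nat_lit 98317) (nat_lit 9) (.e (nat_lit 336087) (nat_lit 9) (.e (nat_lit 336456) (nat_lit 34) (.e (nat_lit 483363) (nat_lit 18) (.e (nat_lit 57854) (nat_lit 252) .nil)))))) (.g (nat_lit 5) .nil .nil))) 
(.lf (nat_lit 148858) (.g (nat_lit 1991) (.e (nat_lit 57377) (nat_lit 3) (.e (nat_lit 98317) (nat_lit 9) (.e (nat_lit 336088) (nat_lit 9) (.e (nat_lit 336372) (nat_lit 27) (.e (nat_lit 426524) (nat_lit 27) (.e (nat_lit 335986) (nat_lit 1) (.e (nat_lit 57849) (nat_lit 252) .nil))))))) (.g (nat_lit 4) .nil .nil)))))) (.nd (nat_lit 3) (.nd (nat_lit 4) (.nd (nat_lit 5) 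
(.lf (nat_lit 148806) (.g (nat_lit 3164) (.e (nat_lit 57377) (nat_lit 3) (.e (nat_lit 98317) (nat_lit 9) (.e (nat_lit 336087) (nat_lit 9) (.e (nat_lit 336452) (nat_lit 34) (.e (nat_lit 483363) (nat_lit 18) (.e (nat_lit 57853) (nat_lit 252) .nil)))))) (.g (nat_lit 4) .nil .nil))) 
(.lf (nat_lit 148838) (.g (nat_lit 2461) (.e (nat_lit 57377) (nat_lit 3) (.e (nat_lit 98317) (nat_lit 9) (.e (nat_lit 336088) (nat_lit 9) (.e (nat_lit 336366) (nat_lit 27) (.e (nat_lit 426497) (nat_lit 27) (.e (nat_lit 335986) (nat_lit 1) (.e (nat_lit 57849) (nat_lit 252) .nil))))))) (.g (nat_lit 5) .nil .nil)))) (.nd (nat_lit 5) 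
(.lf (nat_lit 148822) (.g (nat_lit 3121) (.e (nat_lit 57377) (nat_lit 3) (.e (nat_lit 98317) (nat_lit 9) (.e (nat_lit 336087) (nat_lit 9) (.e (nat_lit 336455) (nat_lit 34) (.e (nat_lit 483365) (nat_lit 18) (.e (nat_lit 57847) (nat_lit 252) .nil)))))) (.g (nat_lit 4) .nil .nil))) 
(.lf (nat_lit 148854) (.g (nat_lit 1903) (.e (nat_lit 57377) (nat_lit 3) (.e (nat_lit 98317) (nat_lit 9) (.e (nat_lit 336088) (nat_lit 9) (.e (nat_lit 336370) (nat_lit 27) (.e (nat_lit 426501) (nat_lit 27) (.e (nat_lit 335985) (nat_lit 1) (.e (nat_lit 57849) (nat_lit 252) .nil))))))) (.g (nat_lit 4) .nil .nil))))) (.nd (nat_lit 4) (.nd (nat_lit 5) 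
(.lf (nat_lit 148814) (.g (nat_lit 4102) (.e (nat_lit 57377) (nat_lit 3) (.e (nat_lit 98317) (nat_lit 9) (.e (nat_lit 336087) (nat_lit 9) (.e (nat_lit 336454) (nat_lit 34) (.e (nat_lit 483363) (nat_lit 18) (.e (nat_lit 57854) (nat_lit 252) .nil)))))) (.g (nat_lit 5) .nil .nil))) 
(.lf (nat_lit 148846) (.g (nat_lit 1504) (.e (nat_lit 57377) (nat_lit 3) (.e (nat_lit 98317) (nat_lit 9) (.e (nat_lit 336088) (nat_lit 9) (.e (nat_lit 336367) (nat_lit 27) (.e (nat_lit 426533) (nat_lit 28) .nil))))) .nil))) (.nd (nat_lit 5) 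
(.lf (nat_lit 148830) (.g (nat_lit 3680) (.e (nat_lit 57377) (nat_lit 3) (.e (nat_lit 98317) (nat_lit 9) (.e (nat_lit 336087) (nat_lit 9) (.e (nat_lit 336456) (nat_lit 34) (.e (nat_lit 483365) (nat_lit 18) (.e (nat_lit 57847) (nat_lit 252) .nil)))))) (.g (nat_lit 5) .nil .nil))) 
(.lf (nat_lit 148862) (.g (nat_lit 2338) (.e (nat_lit 57377) (nat_lit 3) (.e (nat_lit 98317) (nat_lit 9) (.e (nat_lit 336088) (nat_lit 9) (.e (nat_lit 336379) (nat_lit 27) (.e (nat_lit 426524) (nat_lit 27) (.e (nat_lit 335986) (nat_lit 1) (.e (nat_lit 57849) (nat_lit 252) .nil))))))) (.g (nat_lit 4) .nil .nil)))))))) 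
(.nd (nat_lit 1) (.nd (nat_lit 2) (.nd (nat_lit 3) (.nd (nat_lit 4) (.nd (nat_lit 5) 
(.lf (nat_lit 148801) (.g (nat_lit 2992) (.e (nat_lit 57377) (nat_lit 3) (.e (nat_lit 98317) (nat_lit 9) (.e (nat_lit 336087) (nat_lit 9) (.e (nat_lit 336379) (nat_lit 27) (.e (nat_lit 426522) (nat_lit 27) (.e (nat_lit 335986) (nat_lit 1) (.e (nat_lit 57849) (nat_lit 252) .nil))))))) (.g (nat_lit 4) .nil .nil))) 
(.lf (nat_lit 148833) (.g (nat_lit 4104) (.e (nat_lit 57377) (nat_lit 3) (.e (nat_lit 98317) (nat_lit 9) (.e (nat_lit 336087) (nat_lit 9) (.e (nat_lit 336456) (nat_lit 34) (.e (nat_lit 483365) (nat_lit 18) (.e (nat_lit 57851) (nat_lit 252) .nil)))))) (.g (nat_lit 4) .nil .nil)))) (.nd (nat_lit 5) 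
(.lf (nat_lit 148817) (.g (nat_lit 4851) (.e (nat_lit 57377) (nat_lit 3) (.e (nat_lit 98317) (nat_lit 9) (.e (nat_lit 336087) (nat_lit 9) (.e (nat_lit 336454) (nat_lit 34) (.e (nat_lit 483365) (nat_lit 18) (.e (nat_lit 57848) (nat_lit 252) .nil)))))) (.g (nat_lit 5) .nil .nil))) 
(.lf (nat_lit 148849) (.g (nat_lit 4119) (.e (nat_lit 57377) (nat_lit 3) (.e (nat_lit 98317) (nat_lit 9) (.e (nat_lit 336088) (nat_lit 9) (.e (nat_lit 336368) (nat_lit 27) (.e (nat_lit 426499) (nat_lit 27) (.e (nat_lit 335986) (nat_lit 1) (.e (nat_lit 57849) (nat_lit 252) .nil))))))) (.g (nat_lit 6) .nil .nil))))) (.nd (nat_lit 4) (.nd (nat_lit 5) 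
(.lf (nat_lit 148809) (.g (nat_lit 2805) (.e (nat_lit 57377) (nat_lit 3) (.e (nat_lit 98317) (nat_lit 9) (.e (nat_lit 336087) (nat_lit 9) (.e (nat_lit 336452) (nat_lit 34) (.e (nat_lit 483365) (nat_lit 18) (.e (nat_lit 57847) (nat_lit 252) .nil)))))) (.g (nat_lit 4) .nil .nil))) 
(.lf (nat_lit 148841) (.g (nat_lit 2313) (.e (nat_lit 57377) (nat_lit 3) (.e (nat_lit 98317) (nat_lit 9) (.e (nat_lit 336088) (nat_lit 9) (.e (nat_lit 336366) (nat_lit 27) (.e (nat_lit 426498) (nat_lit 27) (.e (nat_lit 335996) (nat_lit 1) (.e (nat_lit 57852) (nat_lit 252) .nil))))))) (.g (nat_lit 4) .nil .nil)))) (.nd (nat_lit 5) 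
(.lf (nat_lit 148825) (.g (nat_lit 4330) (.e (nat_lit 57377) (nat_lit 3) (.e (nat_lit 98317) (nat_lit 9) (.e (nat_lit 336087) (nat_lit 9) (.e (nat_lit 336456) (nat_lit 34) (.e (nat_lit 483363) (nat_lit 18) (.e (nat_lit 57853) (nat_lit 252) .nil)))))) (.g (nat_lit 5) .nil .nil))) 
(.lf (nat_lit 148857) (.g (nat_lit 2211) (.e (nat_lit 57377) (nat_lit 3) (.e (nat_lit 98317) (nat_lit 9) (.e (nat_lit 336088) (nat_lit 9) (.e (nat_lit 336372) (nat_lit 27) (.e (nat_lit 426522) (nat_lit 27) (.e (nat_lit 335986) (nat_lit 1) (.e (nat_lit 57849) (nat_lit 252) .nil))))))) (.g (nat_lit 4) .nil .nil)))))) (.nd (nat_lit 3) (.nd (nat_lit 4) (.nd (nat_lit 5) 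
(.lf (nat_lit 148805) (.g (nat_lit 4235) (.e (nat_lit 57377) (nat_lit 3) (.e (nat_lit 98317) (nat_lit 9) (.e (nat_lit 336087) (nat_lit 9) (.e (nat_lit 336414) (nat_lit 27) (.e (nat_lit 426503) (nat_lit 27) (.e (nat_lit 335986) (nat_lit 1) (.e (nat_lit 57849) (nat_lit 252) .nil))))))) (.g (nat_lit 5) .nil .nil))) 
(.lf (nat_lit 148837) (.g (nat_lit 338) (.e (nat_lit 57377) (nat_lit 3) (.e (nat_lit 98317) (nat_lit 9) (.e (nat_lit 336088) (nat_lit 9) .nil))) .nil))) (.nd (nat_lit 5) 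
(.lf (nat_lit 148821) (.g (nat_lit 3584) (.e (nat_lit 57377) (nat_lit 3) (.e (nat_lit 98317) (nat_lit 9) (.e (nat_lit 336087) (nat_lit 9) (.e (nat_lit 336454) (nat_lit 34) (.e (nat_lit 483366) (nat_lit 18) (.e (nat_lit 57851) (nat_lit 252) .nil)))))) (.g (nat_lit 4) .nil .nil))) 
(.lf (nat_lit 148853) (.g (nat_lit 2195) (.e (nat_lit 57377) (nat_lit 3) (.e (nat_lit 98317) (nat_lit 9) (.e (nat_lit 336088) (nat_lit 9) (.e (nat_lit 336370) (nat_lit 27) (.e (nat_lit 426498) (nat_lit 27) (.e (nat_lit 335996) (nat_lit 1) (.e (nat_lit 57852) (nat_lit 252) .nil))))))) (.g (nat_lit 4) .nil .nil))))) (.nd (nat_lit 4) (.nd (nat_lit 5) 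
(.lf (nat_lit 148813) (.g (nat_lit 4249) (.e (nat_lit 57377) (nat_lit 3) (.e (nat_lit 98317) (nat_lit 9) (.e (nat_lit 336087) (nat_lit 9) (.e (nat_lit 336454) (nat_lit 34) (.e (nat_lit 483363) (nat_lit 18) (.e (nat_lit 57853) (nat_lit 252) .nil)))))) (.g (nat_lit 5) .nil .nil))) 
(.lf (nat_lit 148845) (.g (nat_lit 2233) (.e (nat_lit 57377) (nat_lit 3) (.e (nat_lit 98317) (nat_lit 9) (.e (nat_lit 336088) (nat_lit 9) (.e (nat_lit 336366) (nat_lit 27) (.e (nat_lit 426515) (nat_lit 27) (.e (nat_lit 335986) (nat_lit 1) (.e (nat_lit 57849) (nat_lit 252) .nil))))))) (.g (nat_lit 4) .nil .nil)))) (.nd (nat_lit 5) 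
(.lf (nat_lit 148829) (.g (nat_lit 4016) (.e (nat_lit 57377) (nat_lit 3) (.e (nat_lit 98317) (nat_lit 9) (.e (nat_lit 336087) (nat_lit 9) (.e (nat_lit 336456) (nat_lit 34) (.e (nat_lit 483365) (nat_lit 18) (.e (nat_lit 57846) (nat_lit 252) .nil)))))) (.g (nat_lit 5) .nil .nil))) 
(.lf (nat_lit 148861) (.g (nat_lit 1736) (.e (nat_lit 57377) (nat_lit 3) (.e (nat_lit 98317) (nat_lit 9) (.e (nat_lit 336088) (nat_lit 9) (.e (nat_lit 336379) (nat_lit 27) (.e (nat_lit 426522) (nat_lit 27) .nil))))) .nil)))))) (.nd (nat_lit 2) (.nd (nat_lit 3) (.nd (nat_lit 4) (.nd (nat_lit 5) 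
(.lf (nat_lit 148803) (.g (nat_lit 2962) (.e (nat_lit 57377) (nat_lit 3) (.e (nat_lit 98317) (nat_lit 9) (.e (nat_lit 336087) (nat_lit 9) (.e (nat_lit 336395) (nat_lit 27) (.e (nat_lit 426499) (nat_lit 27) (.e (nat_lit 335986) (nat_lit 1) (.e (nat_lit 57847) (nat_lit 252) .nil))))))) (.g (nat_lit 4) .nil .nil))) 
(.lf (nat_lit 148835) (.g (nat_lit 4048) (.e (nat_lit 57377) (nat_lit 3) (.e (nat_lit 98317) (nat_lit 9) (.e (nat_lit 336087) (nat_lit 9) (.e (nat_lit 336456) (nat_lit 34) (.e (nat_lit 483365) (nat_lit 18) (.e (nat_lit 57853) (nat_lit 252) .nil)))))) (.g (nat_lit 5) .nil .nil)))) (.nd (nat_lit 5) 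
(.lf (nat_lit 148819) (.g (nat_lit 5080) (.e (nat_lit 57377) (nat_lit 3) (.e (nat_lit 98317) (nat_lit 9) (.e (nat_lit 336087) (nat_lit 9) (.e (nat_lit 336454) (nat_lit 34) (.e (nat_lit 483365) (nat_lit 18) (.e (nat_lit 57852) (nat_lit 252) .nil)))))) (.g (nat_lit 5) .nil .nil))) 
(.lf (nat_lit 148851) (.g (nat_lit 2073) (.e (nat_lit 57377) (nat_lit 3) (.e (nat_lit 98317) (nat_lit 9) (.e (nat_lit 336088) (nat_lit 9) (.e (nat_lit 336368) (nat_lit 27) (.e (nat_lit 426501) (nat_lit 27) (.e (nat_lit 335996) (nat_lit 1) (.e (nat_lit 57853) (nat_lit 252) .nil))))))) (.g (nat_lit 4) .nil .nil))))) (.nd (nat_lit 4) (.nd (nat_lit 5) 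
(.lf (nat_lit 148811) (.g (nat_lit 4310) (.e (nat_lit 57377) (nat_lit 3) (.e (nat_lit 98317) (nat_lit 9) (.e (nat_lit 336087) (nat_lit 9) (.e (nat_lit 336454) (nat_lit 34) (.e (nat_lit 483363) (nat_lit 18) (.e (nat_lit 57847) (nat_lit 252) .nil)))))) (.g (nat_lit 5) .nil .nil))) 
(.lf (nat_lit 148843) (.g (nat_lit 2266) (.e (nat_lit 57377) (nat_lit 3) (.e (nat_lit 98317) (nat_lit 9) (.e (nat_lit 336088) (nat_lit 9) (.e (nat_lit 336366) (nat_lit 27) (.e (nat_lit 426501) (nat_lit 27) (.e (nat_lit 335996) (nat_lit 1) (.e (nat_lit 57853) (nat_lit 252) .nil))))))) (.g (nat_lit 4) .nil .nil)))) (.nd (nat_lit 5) 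
(.lf (nat_lit 148827) (.g (nat_lit 3878) (.e (nat_lit 57377) (nat_lit 3) (.e (nat_lit 98317) (nat_lit 9) (.e (nat_lit 336087) (nat_lit 9) (.e (nat_lit 336456) (nat_lit 34) (.e (nat_lit 483364) (nat_lit 18) (.e (nat_lit 57852) (nat_lit 252) .nil)))))) (.g (nat_lit 4) .nil .nil))) 
(.lf (nat_lit 148859) (.g (nat_lit 3488) (.e (nat_lit 57377) (nat_lit 3) (.e (nat_lit 98317) (nat_lit 9) (.e (nat_lit 336088) (nat_lit 9) (.e (nat_lit 336374) (nat_lit 27) (.e (nat_lit 426537) (nat_lit 28) (.e (nat_lit 344097) (nat_lit 18) (.e (nat_lit 5195) (nat_lit 294) .nil))))))) (.g (nat_lit 7) .nil .nil)))))) (.nd (nat_lit 3) (.nd (nat_lit 4) (.nd (nat_lit 5) 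
(.lf (nat_lit 148807) (.g (nat_lit 3114) (.e (nat_lit 57377) (nat_lit 3) (.e (nat_lit 98317) (nat_lit 9) (.e (nat_lit 336087) (nat_lit 9) (.e (nat_lit 336452) (nat_lit 34) (.e (nat_lit 483364) (nat_lit 18) (.e (nat_lit 57852) (nat_lit 252) .nil)))))) (.g (nat_lit 4) .nil .nil))) 
(.lf (nat_lit 148839) (.g (nat_lit 2214) (.e (nat_lit 57377) (nat_lit 3) (.e (nat_lit 98317) (nat_lit 9) (.e (nat_lit 336088) (nat_lit 9) (.e (nat_lit 336366) (nat_lit 27) (.e (nat_lit 426497) (nat_lit 27) (.e (nat_lit 335996) (nat_lit 1) (.e (nat_lit 57852) (nat_lit 252) .nil))))))) (.g (nat_lit 4) .nil .nil)))) (.nd (nat_lit 5) 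
(.lf (nat_lit 148823) (.g (nat_lit 4062) (.e (nat_lit 57377) (nat_lit 3) (.e (nat_lit 98317) (nat_lit 9) (.e (nat_lit 336087) (nat_lit 9) (.e (nat_lit 336456) (nat_lit 34) (.e (nat_lit 483363) (nat_lit 18) (.e (nat_lit 57847) (nat_lit 252) .nil)))))) (.g (nat_lit 5) .nil .nil))) 
(.lf (nat_lit 148855) (.g (nat_lit 2424) (.e (nat_lit 57377) (nat_lit 3) (.e (nat_lit 98317) (nat_lit 9) (.e (nat_lit 336088) (nat_lit 9) (.e (nat_lit 336370) (nat_lit 27) (.e (nat_lit 426501) (nat_lit 27) (.e (nat_lit 335988) (nat_lit 1) (.e (nat_lit 57854) (nat_lit 252) .nil))))))) (.g (nat_lit 5) .nil .nil))))) (.nd (nat_lit 4) (.nd (nat_lit 5) 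
(.lf (nat_lit 148815) (.g (nat_lit 4063) (.e (nat_lit 57377) (nat_lit 3) (.e (nat_lit 98317) (nat_lit 9) (.e (nat_lit 336087) (nat_lit 9) (.e (nat_lit 336454) (nat_lit 34) (.e (nat_lit 483364) (nat_lit 18) (.e (nat_lit 57852) (nat_lit 252) .nil)))))) (.g (nat_lit 5) .nil .nil))) 
(.lf (nat_lit 148847) (.g (nat_lit 3779) (.e (nat_lit 57377) (nat_lit 3) (.e (nat_lit 98317) (nat_lit 9) (.e (nat_lit 336088) (nat_lit 9) (.e (nat_lit 336367) (nat_lit 27) (.e (nat_lit 426537) (nat_lit 28) (.e (nat_lit 344097) (nat_lit 18) (.e (nat_lit 5195) (nat_lit 294) .nil))))))) (.g (nat_lit 7) .nil .nil)))) (.nd (nat_lit 5) 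
(.lf (nat_lit 148831) (.g (nat_lit 3499) (.e (nat_lit 57377) (nat_lit 3) (.e (nat_lit 98317) (nat_lit 9) (.e (nat_lit 336087) (nat_lit 9) (.e (nat_lit 336456) (nat_lit 34) (.e (nat_lit 483365) (nat_lit 18) (.e (nat_lit 57848) (nat_lit 252) .nil)))))) (.g (nat_lit 4) .nil .nil))) 
(.lf (nat_lit 148863) (.g (nat_lit 1737) (.e (nat_lit 57377) (nat_lit 3) (.e (nat_lit 98317) (nat_lit 9) (.e (nat_lit 336088) (nat_lit 9) (.e (nat_lit 336383) (nat_lit 27) (.e (nat_lit 426500) (nat_lit 27) .nil))))) .nil))))))))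

noncomputable def tv1982 : DT := (.nd (nat_lit 0) (.nd (nat_lit 1) (.nd (nat_lit 2) (.nd (nat_lit 3) (.nd (nat_lit 4) (.nd (nat_lit 5) 
(.lf (nat_lit 148864) (.g (nat_lit 1985) (.e (nat_lit 57377) (nat_lit 3) (.e (nat_lit 98317) (nat_lit 9) (.e (nat_lit 336088) (nat_lit 9) (.e (nat_lit 336383) (nat_lit 27) (.e (nat_lit 426500) (nat_lit 27) (.e (nat_lit 335995) (nat_lit 1) (.e (nat_lit 57847) (nat_lit 252) .nil))))))) (.g (nat_lit 4) .nil .nil))) 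
(.lf (nat_lit 148896) (.g (nat_lit 4155) (.e (nat_lit 57377) (nat_lit 3) (.e (nat_lit 98317) (nat_lit 9) (.e (nat_lit 343808) (nat_lit 9) (.e (nat_lit 336454) (nat_lit 34) (.e (nat_lit 483365) (nat_lit 18) (.e (nat_lit 57846) (nat_lit 252) .nil)))))) (.g (nat_lit 5) .nil .nil)))) (.nd (nat_lit 5) 
(.lf (nat_lit 148880) (.g (nat_lit 2696) (.e (nat_lit 57377) (nat_lit 3) (.e (nat_lit 98317) (nat_lit 9) (.e (nat_lit 336088) (nat_lit 9) (.e (nat_lit 336456) (nat_lit 34) (.e (nat_lit 483354) (nat_lit 17) (.e (nat_lit 1040) (nat_lit 81) (.e (nat_lit 5195) (nat_lit 294) .nil))))))) (.g (nat_lit 4) .nil .nil))) 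
(.lf (nat_lit 148912) (.g (nat_lit 4029) (.e (nat_lit 57377) (nat_lit 3) (.e (nat_lit 98317) (nat_lit 9) (.e (nat_lit 336212) (nat_lit 13) (.e (nat_lit 393225) (nat_lit 9) (.e (nat_lit 335995) (nat_lit 1) (.e (nat_lit 57847) (nat_lit 252) .nil)))))) (.g (nat_lit 5) .nil .nil))))) (.nd (nat_lit 4) (.nd (nat_lit 5) 
(.lf (nat_lit 148872) (.g (nat_lit 3406) (.e (nat_lit 57377) (nat_lit 3) (.e (nat_lit 98317) (nat_lit 9) (.e (nat_lit 336088) (nat_lit 9) (.e (nat_lit 336454) (nat_lit 34) (.e (nat_lit 483364) (nat_lit 18) (.e (nat_lit 57854) (nat_lit 252) .nil)))))) (.g (nat_lit 0) .nil .nil))) 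
(.lf (nat_lit 148904) (.g (nat_lit 1311) (.e (nat_lit 57377) (nat_lit 3) (.e (nat_lit 98317) (nat_lit 9) (.e (nat_lit 336186) (nat_lit 11) (.e (nat_lit 368676) (nat_lit 21) (.e (nat_lit 516171) (nat_lit 13) .nil))))) .nil))) (.nd (nat_lit 5) 
(.lf (nat_lit 148888) (.g (nat_lit 3784) (.e (nat_lit 57377) (nat_lit 3) (.e (nat_lit 98317) (nat_lit 9) (.e (nat_lit 336088) (nat_lit 9) (.e (nat_lit 336456) (nat_lit 34) (.e (nat_lit 483365) (nat_lit 18) (.e (nat_lit 57846) (nat_lit 252) .nil)))))) (.g (nat_lit 0) .nil .nil))) 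
(.lf (nat_lit 148920) (.g (nat_lit 3620) (.e (nat_lit 57377) (nat_lit 3) (.e (nat_lit 98317) (nat_lit 9) (.e (nat_lit 336213) (nat_lit 13) (.e (nat_lit 393224) (nat_lit 9) (.e (nat_lit 335995) (nat_lit 1) (.e (nat_lit 57849) (nat_lit 252) .nil)))))) (.g (nat_lit 5) .nil .nil)))))) (.nd (nat_lit 3) (.nd (nat_lit 4) (.nd (nat_lit 5) 
(.lf (nat_lit 148868) (.g (nat_lit 2110) (.e (nat_lit 57377) (nat_lit 3) (.e (nat_lit 98317) (nat_lit 9) (.e (nat_lit 336088) (nat_lit 9) (.e (nat_lit 336452) (nat_lit 34) (.e (nat_lit 483364) (nat_lit 18) (.e (nat_lit 57854) (nat_lit 252) .nil)))))) (.g (nat_lit 4) .nil .nil))) 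
(.lf (nat_lit 148900) (.g (nat_lit 3543) (.e (nat_lit 57377) (nat_lit 3) (.e (nat_lit 98317) (nat_lit 9) (.e (nat_lit 343808) (nat_lit 9) (.e (nat_lit 336454) (nat_lit 34) (.e (nat_lit 483365) (nat_lit 18) (.e (nat_lit 57852) (nat_lit 252) .nil)))))) (.g (nat_lit 5) .nil .nil)))) (.nd (nat_lit 5) 
(.lf (nat_lit 148884) (.g (nat_lit 3647) (.e (nat_lit 57377) (nat_lit 3) (.e (nat_lit 98317) (nat_lit 9) (.e (nat_lit 336088) (nat_lit 9) (.e (nat_lit 336456) (nat_lit 34) (.e (nat_lit 483363) (nat_lit 18) (.e (nat_lit 57853) (nat_lit 252) .nil)))))) (.g (nat_lit 6) .nil .nil))) 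
(.lf (nat_lit 148916) (.g (nat_lit 3823) (.e (nat_lit 57377) (nat_lit 3) (.e (nat_lit 98317) (nat_lit 9) (.e (nat_lit 336212) (nat_lit 13) (.e (nat_lit 393225) (nat_lit 9) (.e (nat_lit 335996) (nat_lit 1) (.e (nat_lit 57853) (nat_lit 252) .nil)))))) (.g (nat_lit 4) .nil .nil))))) (.nd (nat_lit 4) (.nd (nat_lit 5) 
(.lf (nat_lit 148876) (.g (nat_lit 3687) (.e (nat_lit 57377) (nat_lit 3) (.e (nat_lit 98317) (nat_lit 9) (.e (nat_lit 336088) (nat_lit 9) (.e (nat_lit 336454) (nat_lit 34) (.e (nat_lit 483366) (nat_lit 18) (.e (nat_lit 57846) (nat_lit 252) .nil)))))) (.g (nat_lit 0) .nil .nil))) 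
(.lf (nat_lit 148908) (.g (nat_lit 1017) (.e (nat_lit 57377) (nat_lit 3) (.e (nat_lit 98317) (nat_lit 9) (.e (nat_lit 336203) (nat_lit 12) (.e (nat_lit 392960) (nat_lit 0) .nil)))) .nil))) (.nd (nat_lit 5) 
(.lf (nat_lit 148892) (.g (nat_lit 3133) (.e (nat_lit 57377) (nat_lit 3) (.e (nat_lit 98317) (nat_lit 9) (.e (nat_lit 336088) (nat_lit 9) (.e (nat_lit 336456) (nat_lit 34) (.e (nat_lit 483365) (nat_lit 18) (.e (nat_lit 57852) (nat_lit 252) .nil)))))) (.g (nat_lit 6) .nil .nil))) 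
(.lf (nat_lit 148924) (.g (nat_lit 3465) (.e (nat_lit 57377) (nat_lit 3) (.e (nat_lit 98317) (nat_lit 9) (.e (nat_lit 336213) (nat_lit 13) (.e (nat_lit 393225) (nat_lit 9) (.e (nat_lit 335986) (nat_lit 1) (.e (nat_lit 57849) (nat_lit 252) .nil)))))) (.g (nat_lit 5) .nil .nil))))))) (.nd (nat_lit 2) (.nd (nat_lit 3) (.nd (nat_lit 4) (.nd (nat_lit 5) 
(.lf (nat_lit 148866) (.g (nat_lit 1971) (.e (nat_lit 57377) (nat_lit 3) (.e (nat_lit 98317) (nat_lit 9) (.e (nat_lit 336088) (nat_lit 9) (.e (nat_lit 336383) (nat_lit 27) (.e (nat_lit 426500) (nat_lit 27) (.e (nat_lit 335996) (nat_lit 1) (.e (nat_lit 57854) (nat_lit 252) .nil))))))) (.g (nat_lit 4) .nil .nil))) 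
(.lf (nat_lit 148898) (.g (nat_lit 4358) (.e (nat_lit 57377) (nat_lit 3) (.e (nat_lit 98317) (nat_lit 9) (.e (nat_lit 343808) (nat_lit 9) (.e (nat_lit 336454) (nat_lit 34) (.e (nat_lit 483365) (nat_lit 18) (.e (nat_lit 57849) (nat_lit 252) .nil)))))) (.g (nat_lit 5) .nil .nil)))) (.nd (nat_lit 5) 
(.lf (nat_lit 148882) (.g (nat_lit 2222) (.e (nat_lit 57377) (nat_lit 3) (.e (nat_lit 98317) (nat_lit 9) (.e (nat_lit 336088) (nat_lit 9) (.e (nat_lit 336456) (nat_lit 34) (.e (nat_lit 483362) (nat_lit 18) (.e (nat_lit 57847) (nat_lit 252) .nil)))))) (.g (nat_lit 4) .nil .nil))) 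
(.lf (nat_lit 148914) (.g (nat_lit 3822) (.e (nat_lit 57377) (nat_lit 3) (.e (nat_lit 98317) (nat_lit 9) (.e (nat_lit 336212) (nat_lit 13) (.e (nat_lit 393225) (nat_lit 9) (.e (nat_lit 335996) (nat_lit 1) (.e (nat_lit 57851) (nat_lit 252) .nil)))))) (.g (nat_lit 5) .nil .nil))))) (.nd (nat_lit 4) (.nd (nat_lit 5) 
(.lf (nat_lit 148874) (.g (nat_lit 4133) (.e (nat_lit 57377) (nat_lit 3) (.e (nat_lit 98317) (nat_lit 9) (.e (nat_lit 336088) (nat_lit 9) (.e (nat_lit 336454) (nat_lit 34) (.e (nat_lit 483365) (nat_lit 18) (.e (nat_lit 57846) (nat_lit 252) .nil)))))) (.g (nat_lit 0) .nil .nil))) 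
(.lf (nat_lit 148906) (.g (nat_lit 587) (.e (nat_lit 57377) (nat_lit 3) (.e (nat_lit 98317) (nat_lit 9) (.e (nat_lit 336202) (nat_lit 12) .nil))) .nil))) (.nd (nat_lit 5) 
(.lf (nat_lit 148890) (.g (nat_lit 3850) (.e (nat_lit 57377) (nat_lit 3) (.e (nat_lit 98317) (nat_lit 9) (.e (nat_lit 336088) (nat_lit 9) (.e (nat_lit 336456) (nat_lit 34) (.e (nat_lit 483365) (nat_lit 18) (.e (nat_lit 57849) (nat_lit 252) .nil)))))) (.g (nat_lit 0) .nil .nil))) 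
(.lf (nat_lit 148922) (.g (nat_lit 2818) (.e (nat_lit 57377) (nat_lit 3) (.e (nat_lit 98317) (nat_lit 9) (.e (nat_lit 336213) (nat_lit 13) (.e (nat_lit 393224) (nat_lit 9) (.e (nat_lit 335996) (nat_lit 1) (.e (nat_lit 57853) (nat_lit 252) .nil)))))) (.g (nat_lit 4) .nil .nil)))))) (.nd (nat_lit 3) (.nd (nat_lit 4) (.nd (nat_lit 5) 
(.lf (nat_lit 148870) (.g (nat_lit 3817) (.e (nat_lit 57377) (nat_lit 3) (.e (nat_lit 98317) (nat_lit 9) (.e (nat_lit 336088) (nat_lit 9) (.e (nat_lit 336454) (nat_lit 34) (.e (nat_lit 483363) (nat_lit 18) (.e (nat_lit 57853) (nat_lit 252) .nil)))))) (.g (nat_lit 6) .nil .nil))) 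
(.lf (nat_lit 148902) (.g (nat_lit 3942) (.e (nat_lit 57377) (nat_lit 3) (.e (nat_lit 98317) (nat_lit 9) (.e (nat_lit 343808) (nat_lit 9) (.e (nat_lit 336454) (nat_lit 34) (.e (nat_lit 483365) (nat_lit 18) (.e (nat_lit 57854) (nat_lit 252) .nil)))))) (.g (nat_lit 5) .nil .nil)))) (.nd (nat_lit 5) 
(.lf (nat_lit 148886) (.g (nat_lit 3529) (.e (nat_lit 57377) (nat_lit 3) (.e (nat_lit 98317) (nat_lit 9) (.e (nat_lit 336088) (nat_lit 9) (.e (nat_lit 336456) (nat_lit 34) (.e (nat_lit 483364) (nat_lit 18) (.e (nat_lit 57852) (nat_lit 252) .nil)))))) (.g (nat_lit 0) .nil .nil))) 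
(.lf (nat_lit 148918) (.g (nat_lit 4134) (.e (nat_lit 57377) (nat_lit 3) (.e (nat_lit 98317) (nat_lit 9) (.e (nat_lit 336212) (nat_lit 13) (.e (nat_lit 393229) (nat_lit 9) (.e (nat_lit 335995) (nat_lit 1) (.e (nat_lit 57849) (nat_lit 252) .nil)))))) (.g (nat_lit 4) .nil .nil))))) (.nd (nat_lit 4) (.nd (nat_lit 5) 
(.lf (nat_lit 148878) (.g (nat_lit 2557) (.e (nat_lit 57377) (nat_lit 3) (.e (nat_lit 98317) (nat_lit 9) (.e (nat_lit 336088) (nat_lit 9) (.e (nat_lit 336455) (nat_lit 34) (.e (nat_lit 483363) (nat_lit 18) (.e (nat_lit 57849) (nat_lit 252) .nil)))))) (.g (nat_lit 5) .nil .nil))) 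
(.lf (nat_lit 148910) (.g (nat_lit 3434) (.e (nat_lit 57377) (nat_lit 3) (.e (nat_lit 98317) (nat_lit 9) (.e (nat_lit 336212) (nat_lit 13) (.e (nat_lit 393225) (nat_lit 9) (.e (nat_lit 335988) (nat_lit 1) (.e (nat_lit 57854) (nat_lit 252) .nil)))))) (.g (nat_lit 4) .nil .nil)))) (.nd (nat_lit 5) 
(.lf (nat_lit 148894) (.g (nat_lit 1610) (.e (nat_lit 57377) (nat_lit 3) (.e (nat_lit 98317) (nat_lit 9) (.e (nat_lit 336105) (nat_lit 9) (.e (nat_lit 336389) (nat_lit 27) (.e (nat_lit 426500) (nat_lit 27) .nil))))) .nil)) 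
(.lf (nat_lit 148926) (.g (nat_lit 4168) (.e (nat_lit 57377) (nat_lit 3) (.e (nat_lit 98317) (nat_lit 9) (.e (nat_lit 336213) (nat_lit 13) (.e (nat_lit 393225) (nat_lit 9) (.e (nat_lit 335995) (nat_lit 1) (.e (nat_lit 57844) (nat_lit 252) .nil)))))) (.g (nat_lit 6) .nil .nil)))))))) (.nd (nat_lit 1) (.nd (nat_lit 2) (.nd (nat_lit 3) (.nd (nat_lit 4) (.nd (nat_lit 5) 
(.lf (nat_lit 148865) (.g (nat_lit 2011) (.e (nat_lit 57377) (nat_lit 3) (.e (nat_lit 98317) (nat_lit 9) (.e (nat_lit 336088) (nat_lit 9) (.e (nat_lit 336383) (nat_lit 27) (.e (nat_lit 426500) (nat_lit 27) (.e (nat_lit 335995) (nat_lit 1) (.e (nat_lit 57849) (nat_lit 252) .nil))))))) (.g (nat_lit 4) .nil .nil))) 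
(.lf (nat_lit 148897) (.g (nat_lit 3875) (.e (nat_lit 57377) (nat_lit 3) (.e (nat_lit 98317) (nat_lit 9) (.e (nat_lit 343808) (nat_lit 9) (.e (nat_lit 336454) (nat_lit 34) (.e (nat_lit 483365) (nat_lit 18) (.e (nat_lit 57847) (nat_lit 252) .nil)))))) (.g (nat_lit 5) .nil .nil)))) (.nd (nat_lit 5) 
(.lf (nat_lit 148881) (.g (nat_lit 2155) (.e (nat_lit 57377) (nat_lit 3) (.e (nat_lit 98317) (nat_lit 9) (.e (nat_lit 336088) (nat_lit 9) (.e (nat_lit 336456) (nat_lit 34) (.e (nat_lit 483357) (nat_lit 17) .nil))))) .nil)) 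
(.lf (nat_lit 148913) (.g (nat_lit 3779) (.e (nat_lit 57377) (nat_lit 3) (.e (nat_lit 98317) (nat_lit 9) (.e (nat_lit 336212) (nat_lit 13) (.e (nat_lit 393225) (nat_lit 9) (.e (nat_lit 335995) (nat_lit 1) (.e (nat_lit 57848) (nat_lit 252) .nil)))))) (.g (nat_lit 6) .nil .nil))))) (.nd (nat_lit 4) (.nd (nat_lit 5) 
(.lf (nat_lit 148873) (.g (nat_lit 2359) (.e (nat_lit 57377) (nat_lit 3) (.e (nat_lit 98317) (nat_lit 9) (.e (nat_lit 336088) (nat_lit 9) (.e (nat_lit 336454) (nat_lit 34) (.e (nat_lit 483365) (nat_lit 18) (.e (nat_lit 57844) (nat_lit 252) .nil)))))) (.g (nat_lit 4) .nil .nil))) 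
(.lf (nat_lit 148905) (.g (nat_lit 588) (.e (nat_lit 57377) (nat_lit 3) (.e (nat_lit 98317) (nat_lit 9) (.e (nat_lit 336195) (nat_lit 12) .nil))) .nil))) (.nd (nat_lit 5) 
(.lf (nat_lit 148889) (.g (nat_lit 2051) (.e (nat_lit 57377) (nat_lit 3) (.e (nat_lit 98317) (nat_lit 9) (.e (nat_lit 336088) (nat_lit 9) (.e (nat_lit 336456) (nat_lit 34) (.e (nat_lit 483365) (nat_lit 18) (.e (nat_lit 57848) (nat_lit 252) .nil)))))) (.g (nat_lit 4) .nil .nil))) 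
(.lf (nat_lit 148921) (.g (nat_lit 3467) (.e (nat_lit 57377) (nat_lit 3) (.e (nat_lit 98317) (nat_lit 9) (.e (nat_lit 336213) (nat_lit 13) (.e (nat_lit 393224) (nat_lit 9) (.e (nat_lit 335996) (nat_lit 1) (.e (nat_lit 57852) (nat_lit 252) .nil)))))) (.g (nat_lit 5) .nil .nil)))))) (.nd (nat_lit 3) (.nd (nat_lit 4) (.nd (nat_lit 5) 
(.lf (nat_lit 148869) (.g (nat_lit 4018) (.e (nat_lit 57377) (nat_lit 3) (.e (nat_lit 98317) (nat_lit 9) (.e (nat_lit 336088) (nat_lit 9) (.e (nat_lit 336454) (nat_lit 34) (.e (nat_lit 483363) (nat_lit 18) (.e (nat_lit 57849) (nat_lit 252) .nil)))))) (.g (nat_lit 0) .nil .nil))) 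
(.lf (nat_lit 148901) (.g (nat_lit 3897) (.e (nat_lit 57377) (nat_lit 3) (.e (nat_lit 98317) (nat_lit 9) (.e (nat_lit 343808) (nat_lit 9) (.e (nat_lit 336454) (nat_lit 34) (.e (nat_lit 483365) (nat_lit 18) (.e (nat_lit 57853) (nat_lit 252) .nil)))))) (.g (nat_lit 5) .nil .nil)))) (.nd (nat_lit 5) 
(.lf (nat_lit 148885) (.g (nat_lit 3425) (.e (nat_lit 57377) (nat_lit 3) (.e (nat_lit 98317) (nat_lit 9) (.e (nat_lit 336088) (nat_lit 9) (.e (nat_lit 336456) (nat_lit 34) (.e (nat_lit 483363) (nat_lit 18) (.e (nat_lit 57854) (nat_lit 252) .nil)))))) (.g (nat_lit 6) .nil .nil))) 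
(.lf (nat_lit 148917) (.g (nat_lit 3717) (.e (nat_lit 57377) (nat_lit 3) (.e (nat_lit 98317) (nat_lit 9) (.e (nat_lit 336212) (nat_lit 13) (.e (nat_lit 393225) (nat_lit 9) (.e (nat_lit 335996) (nat_lit 1) (.e (nat_lit 57854) (nat_lit 252) .nil)))))) (.g (nat_lit 4) .nil .nil))))) (.nd (nat_lit 4) (.nd (nat_lit 5) 
(.lf (nat_lit 148877) (.g (nat_lit 3597) (.e (nat_lit 57377) (nat_lit 3) (.e (nat_lit 98317) (nat_lit 9) (.e (nat_lit 336088) (nat_lit 9) (.e (nat_lit 336454) (nat_lit 34) (.e (nat_lit 483366) (nat_lit 18) (.e (nat_lit 57853) (nat_lit 252) .nil)))))) (.g (nat_lit 0) .nil .nil))) 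
(.lf (nat_lit 148909) (.g (nat_lit 3636) (.e (nat_lit 57377) (nat_lit 3) (.e (nat_lit 98317) (nat_lit 9) (.e (nat_lit 336212) (nat_lit 13) (.e (nat_lit 393225) (nat_lit 9) (.e (nat_lit 335986) (nat_lit 1) (.e (nat_lit 57847) (nat_lit 252) .nil)))))) (.g (nat_lit 4) .nil .nil)))) (.nd (nat_lit 5) 
(.lf (nat_lit 148893) (.g (nat_lit 4759) (.e (nat_lit 57377) (nat_lit 3) (.e (nat_lit 98317) (nat_lit 9) (.e (nat_lit 336091) (nat_lit 9) (.e (nat_lit 336389) (nat_lit 27) (.e (nat_lit 426500) (nat_lit 27) (.e (nat_lit 335995) (nat_lit 1) (.e (nat_lit 57848) (nat_lit 252) .nil))))))) (.g (nat_lit 4) .nil .nil))) 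
(.lf (nat_lit 148925) (.g (nat_lit 3019) (.e (nat_lit 57377) (nat_lit 3) (.e (nat_lit 98317) (nat_lit 9) (.e (nat_lit 336213) (nat_lit 13) (.e (nat_lit 393225) (nat_lit 9) (.e (nat_lit 335993) (nat_lit 1) .nil))))) .nil)))))) (.nd (nat_lit 2) (.nd (nat_lit 3) (.nd (nat_lit 4) (.nd (nat_lit 5) 
(.lf (nat_lit 148867) (.g (nat_lit 3570) (.e (nat_lit 57377) (nat_lit 3) (.e (nat_lit 98317) (nat_lit 9) (.e (nat_lit 336088) (nat_lit 9) (.e (nat_lit 336414) (nat_lit 27) (.e (nat_lit 426503) (nat_lit 27) (.e (nat_lit 335986) (nat_lit 1) (.e (nat_lit 57849) (nat_lit 252) .nil))))))) (.g (nat_lit 6) .nil .nil))) 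
(.lf (nat_lit 148899) (.g (nat_lit 3660) (.e (nat_lit 57377) (nat_lit 3) (.e (nat_lit 98317) (nat_lit 9) (.e (nat_lit 343808) (nat_lit 9) (.e (nat_lit 336454) (nat_lit 34) (.e (nat_lit 483365) (nat_lit 18) (.e (nat_lit 57851) (nat_lit 252) .nil)))))) (.g (nat_lit 5) .nil .nil)))) (.nd (nat_lit 5) 
(.lf (nat_lit 148883) (.g (nat_lit 3789) (.e (nat_lit 57377) (nat_lit 3) (.e (nat_lit 98317) (nat_lit 9) (.e (nat_lit 336088) (nat_lit 9) (.e (nat_lit 336456) (nat_lit 34) (.e (nat_lit 483363) (nat_lit 18) (.e (nat_lit 57849) (nat_lit 252) .nil)))))) (.g (nat_lit 0) .nil .nil))) 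
(.lf (nat_lit 148915) (.g (nat_lit 3542) (.e (nat_lit 57377) (nat_lit 3) (.e (nat_lit 98317) (nat_lit 9) (.e (nat_lit 336212) (nat_lit 13) (.e (nat_lit 393225) (nat_lit 9) (.e (nat_lit 335996) (nat_lit 1) (.e (nat_lit 57852) (nat_lit 252) .nil)))))) (.g (nat_lit 4) .nil .nil))))) (.nd (nat_lit 4) (.nd (nat_lit 5) 
(.lf (nat_lit 148875) (.g (nat_lit 3126) (.e (nat_lit 57377) (nat_lit 3) (.e (nat_lit 98317) (nat_lit 9) (.e (nat_lit 336088) (nat_lit 9) (.e (nat_lit 336454) (nat_lit 34) (.e (nat_lit 483366) (nat_lit 18) (.e (nat_lit 57844) (nat_lit 252) .nil)))))) (.g (nat_lit 5) .nil .nil))) 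
(.lf (nat_lit 148907) (.g (nat_lit 570) (.e (nat_lit 57377) (nat_lit 3) (.e (nat_lit 98317) (nat_lit 9) (.e (nat_lit 336203) (nat_lit 12) .nil))) .nil))) (.nd (nat_lit 5) 
(.lf (nat_lit 148891) (.g (nat_lit 2893) (.e (nat_lit 57377) (nat_lit 3) (.e (nat_lit 98317) (nat_lit 9) (.e (nat_lit 336088) (nat_lit 9) (.e (nat_lit 336456) (nat_lit 34) (.e (nat_lit 483365) (nat_lit 18) (.e (nat_lit 57851) (nat_lit 252) .nil)))))) (.g (nat_lit 5) .nil .nil))) 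
(.lf (nat_lit 148923) (.g (nat_lit 3153) (.e (nat_lit 57377) (nat_lit 3) (.e (nat_lit 98317) (nat_lit 9) (.e (nat_lit 336213) (nat_lit 13) (.e (nat_lit 393225) (nat_lit 9) (.e (nat_lit 335985) (nat_lit 1) (.e (nat_lit 57849) (nat_lit 252) .nil)))))) (.g (nat_lit 4) .nil .nil)))))) (.nd (nat_lit 3) (.nd (nat_lit 4) (.nd (nat_lit 5) 
(.lf (nat_lit 148871) (.g (nat_lit 3422) (.e (nat_lit 57377) (nat_lit 3) (.e (nat_lit 98317) (nat_lit 9) (.e (nat_lit 336088) (nat_lit 9) (.e (nat_lit 336454) (nat_lit 34) (.e (nat_lit 483364) (nat_lit 18) (.e (nat_lit 57852) (nat_lit 252) .nil)))))) (.g (nat_lit 0) .nil .nil))) 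
(.lf (nat_lit 148903) (.g (nat_lit 1175) (.e (nat_lit 57377) (nat_lit 3) (.e (nat_lit 98317) (nat_lit 9) (.e (nat_lit 336184) (nat_lit 11) (.e (nat_lit 368676) (nat_lit 21) (.e (nat_lit 516171) (nat_lit 13) .nil))))) .nil))) (.nd (nat_lit 5) 
(.lf (nat_lit 148887) (.g (nat_lit 3492) (.e (nat_lit 57377) (nat_lit 3) (.e (nat_lit 98317) (nat_lit 9) (.e (nat_lit 336088) (nat_lit 9) (.e (nat_lit 336456) (nat_lit 34) (.e (nat_lit 483364) (nat_lit 18) (.e (nat_lit 57854) (nat_lit 252) .nil)))))) (.g (nat_lit 0) .nil .nil))) 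
(.lf (nat_lit 148919) (.g (nat_lit 386) (.e (nat_lit 57377) (nat_lit 3) (.e (nat_lit 98317) (nat_lit 9) (.e (nat_lit 336213) (nat_lit 13) .nil))) .nil)))) (.nd (nat_lit 4) (.nd (nat_lit 5) 
(.lf (nat_lit 148879) (.g (nat_lit 915) (.e (nat_lit 57377) (nat_lit 3) (.e (nat_lit 98317) (nat_lit 9) (.e (nat_lit 336088) (nat_lit 9) (.e (nat_lit 336456) (nat_lit 34) .nil)))) .nil)) 
(.lf (nat_lit 148911) (.g (nat_lit 4294) (.e (nat_lit 57377) (nat_lit 3) (.e (nat_lit 98317) (nat_lit 9) (.e (nat_lit 336212) (nat_lit 13) (.e (nat_lit 393225) (nat_lit 9) (.e (nat_lit 335995) (nat_lit 1) (.e (nat_lit 57846) (nat_lit 252) .nil)))))) (.g (nat_lit 4) .nil .nil)))) (.nd (nat_lit 5) 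
(.lf (nat_lit 148895) (.g (nat_lit 382) (.e (nat_lit 57377) (nat_lit 3) (.e (nat_lit 98317) (nat_lit 9) (.e (nat_lit 343808) (nat_lit 9) .nil))) .nil)) 
(.lf (nat_lit 148927) (.g (nat_lit 3764) (.e (nat_lit 57377) (nat_lit 3) (.e (nat_lit 98317) (nat_lit 9) (.e (nat_lit 336213) (nat_lit 13) (.e (nat_lit 393225) (nat_lit 9) (.e (nat_lit 335995) (nat_lit 1) (.e (nat_lit 57853) (nat_lit 252) .nil)))))) (.g (nat_lit 5) .nil .nil)))))))))

noncomputable def tv1983 : DT := (.nd (nat_lit 0) (.nd (nat_lit 1) (.nd (nat_lit 2) (.nd (nat_lit 3) (.nd (nat_lit 4) (.nd (nat_lit 5) 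
(.lf (nat_lit 148928) (.g (nat_lit 3603) (.e (nat_lit 57377) (nat_lit 3) (.e (nat_lit 98317) (nat_lit 9) (.e (nat_lit 336213) (nat_lit 13) (.e (nat_lit 393227) (nat_lit 9) (.e (nat_lit 335998) (nat_lit 1) (.e (nat_lit 57849) (nat_lit 252) .nil)))))) (.g (nat_lit 0) .nil .nil))) 
(.lf (nat_lit 148960) (.g (nat_lit 2507) (.e (nat_lit 57377) (nat_lit 3) (.e (nat_lit 98317) (nat_lit 9) (.e (nat_lit 336214) (nat_lit 13) (.e (nat_lit 393229) (nat_lit 9) (.e (nat_lit 335993) (nat_lit 1) (.e (nat_lit 57849) (nat_lit 252) .nil)))))) (.g (nat_lit 4) .nil .nil)))) (.nd (nat_lit 5) 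
(.lf (nat_lit 148944) (.g (nat_lit 2001) (.e (nat_lit 57377) (nat_lit 3) (.e (nat_lit 98317) (nat_lit 9) (.e (nat_lit 336213) (nat_lit 13) (.e (nat_lit 393229) (nat_lit 9) (.e (nat_lit 335993) (nat_lit 1) .nil))))) .nil)) 
(.lf (nat_lit 148976) (.g (nat_lit 2422) (.e (nat_lit 57377) (nat_lit 3) (.e (nat_lit 98317) (nat_lit 9) (.e (nat_lit 336215) (nat_lit 13) (.e (nat_lit 393229) (nat_lit 9) (.e (nat_lit 335986) (nat_lit 1) (.e (nat_lit 57854) (nat_lit 252) .nil)))))) (.g (nat_lit 4) .nil .nil))))) (.nd (nat_lit 4) (.nd (nat_lit 5) 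
(.lf (nat_lit 148936) (.g (nat_lit 2683) (.e (nat_lit 57377) (nat_lit 3) (.e (nat_lit 98317) (nat_lit 9) (.e (nat_lit 336213) (nat_lit 13) (.e (nat_lit 393229) (nat_lit 9) (.e (nat_lit 335931) (nat_lit 0) .nil))))) .nil)) 
(.lf (nat_lit 148968) (.g (nat_lit 2554) (.e (nat_lit 57377) (nat_lit 3) (.e (nat_lit 98317) (nat_lit 9) (.e (nat_lit 336215) (nat_lit 13) (.e (nat_lit 393224) (nat_lit 9) (.e (nat_lit 335995) (nat_lit 1) (.e (nat_lit 57848) (nat_lit 252) .nil)))))) (.g (nat_lit 6) .nil .nil)))) (.nd (nat_lit 5) 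
(.lf (nat_lit 148952) (.g (nat_lit 1947) (.e (nat_lit 57377) (nat_lit 3) (.e (nat_lit 98317) (nat_lit 9) (.e (nat_lit 336214) (nat_lit 13) (.e (nat_lit 393225) (nat_lit 9) (.e (nat_lit 335988) (nat_lit 1) (.e (nat_lit 57854) (nat_lit 252) .nil)))))) (.g (nat_lit 4) .nil .nil))) 
(.lf (nat_lit 148984) (.g (nat_lit 3306) (.e (nat_lit 57377) (nat_lit 3) (.e (nat_lit 98317) (nat_lit 9) (.e (nat_lit 336220) (nat_lit 13) (.e (nat_lit 393225) (nat_lit 9) (.e (nat_lit 335988) (nat_lit 1) (.e (nat_lit 57854) (nat_lit 252) .nil)))))) (.g (nat_lit 6) .nil .nil)))))) (.nd (nat_lit 3) (.nd (nat_lit 4) (.nd (nat_lit 5) 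
(.lf (nat_lit 148932) (.g (nat_lit 2470) (.e (nat_lit 57377) (nat_lit 3) (.e (nat_lit 98317) (nat_lit 9) (.e (nat_lit 336213) (nat_lit 13) (.e (nat_lit 393229) (nat_lit 9) (.e (nat_lit 335892) (nat_lit 0) .nil))))) .nil)) 
(.lf (nat_lit 148964) (.g (nat_lit 2878) (.e (nat_lit 57377) (nat_lit 3) (.e (nat_lit 98317) (nat_lit 9) (.e (nat_lit 336214) (nat_lit 13) (.e (nat_lit 393229) (nat_lit 9) (.e (nat_lit 335995) (nat_lit 1) (.e (nat_lit 57848) (nat_lit 252) .nil)))))) (.g (nat_lit 6) .nil .nil)))) (.nd (nat_lit 5) 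
(.lf (nat_lit 148948) (.g (nat_lit 4146) (.e (nat_lit 57377) (nat_lit 3) (.e (nat_lit 98317) (nat_lit 9) (.e (nat_lit 336213) (nat_lit 13) (.e (nat_lit 393229) (nat_lit 9) (.e (nat_lit 335995) (nat_lit 1) (.e (nat_lit 57853) (nat_lit 252) .nil)))))) (.g (nat_lit 6) .nil .nil))) 
(.lf (nat_lit 148980) (.g (nat_lit 4033) (.e (nat_lit 57377) (nat_lit 3) (.e (nat_lit 98317) (nat_lit 9) (.e (nat_lit 336215) (nat_lit 13) (.e (nat_lit 393229) (nat_lit 9) (.e (nat_lit 335996) (nat_lit 1) (.e (nat_lit 57851) (nat_lit 252) .nil)))))) (.g (nat_lit 0) .nil .nil))))) (.nd (nat_lit 4) (.nd (nat_lit 5) 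
(.lf (nat_lit 148940) (.g (nat_lit 3737) (.e (nat_lit 57377) (nat_lit 3) (.e (nat_lit 98317) (nat_lit 9) (.e (nat_lit 336213) (nat_lit 13) (.e (nat_lit 393229) (nat_lit 9) (.e (nat_lit 335986) (nat_lit 1) (.e (nat_lit 57853) (nat_lit 252) .nil)))))) (.g (nat_lit 6) .nil .nil))) 
(.lf (nat_lit 148972) (.g (nat_lit 714) (.e (nat_lit 57377) (nat_lit 3) (.e (nat_lit 98317) (nat_lit 9) (.e (nat_lit 336215) (nat_lit 13) (.e (nat_lit 393229) (nat_lit 9) .nil)))) .nil))) (.nd (nat_lit 5) 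
(.lf (nat_lit 148956) (.g (nat_lit 2883) (.e (nat_lit 57377) (nat_lit 3) (.e (nat_lit 98317) (nat_lit 9) (.e (nat_lit 336214) (nat_lit 13) (.e (nat_lit 393229) (nat_lit 9) (.e (nat_lit 335986) (nat_lit 1) (.e (nat_lit 57854) (nat_lit 252) .nil)))))) (.g (nat_lit 5) .nil .nil))) 
(.lf (nat_lit 148988) (.g (nat_lit 3671) (.e (nat_lit 57377) (nat_lit 3) (.e (nat_lit 98317) (nat_lit 9) (.e (nat_lit 336220) (nat_lit 13) (.e (nat_lit 393225) (nat_lit 9) (.e (nat_lit 335996) (nat_lit 1) (.e (nat_lit 57851) (nat_lit 252) .nil)))))) (.g (nat_lit 6) .nil .nil))))))) (.nd (nat_lit 2) (.nd (nat_lit 3) (.nd (nat_lit 4) (.nd (nat_lit 5) 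
(.lf (nat_lit 148930) (.g (nat_lit 3272) (.e (nat_lit 57377) (nat_lit 3) (.e (nat_lit 98317) (nat_lit 9) (.e (nat_lit 336213) (nat_lit 13) (.e (nat_lit 393228) (nat_lit 9) (.e (nat_lit 335986) (nat_lit 1) (.e (nat_lit 57847) (nat_lit 252) .nil)))))) (.g (nat_lit 4) .nil .nil))) 
(.lf (nat_lit 148962) (.g (nat_lit 3750) (.e (nat_lit 57377) (nat_lit 3) (.e (nat_lit 98317) (nat_lit 9) (.e (nat_lit 336214) (nat_lit 13) (.e (nat_lit 393229) (nat_lit 9) (.e (nat_lit 335995) (nat_lit 1) (.e (nat_lit 57846) (nat_lit 252) .nil)))))) (.g (nat_lit 5) .nil .nil)))) (.nd (nat_lit 5) 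
(.lf (nat_lit 148946) (.g (nat_lit 3537) (.e (nat_lit 57377) (nat_lit 3) (.e (nat_lit 98317) (nat_lit 9) (.e (nat_lit 336213) (nat_lit 13) (.e (nat_lit 393229) (nat_lit 9) (.e (nat_lit 335994) (nat_lit 1) (.e (nat_lit 57853) (nat_lit 252) .nil)))))) (.g (nat_lit 0) .nil .nil))) 
(.lf (nat_lit 148978) (.g (nat_lit 3737) (.e (nat_lit 57377) (nat_lit 3) (.e (nat_lit 98317) (nat_lit 9) (.e (nat_lit 336215) (nat_lit 13) (.e (nat_lit 393229) (nat_lit 9) (.e (nat_lit 335988) (nat_lit 1) (.e (nat_lit 57852) (nat_lit 252) .nil)))))) (.g (nat_lit 0) .nil .nil))))) (.nd (nat_lit 4) (.nd (nat_lit 5) 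
(.lf (nat_lit 148938) (.g (nat_lit 3374) (.e (nat_lit 57377) (nat_lit 3) (.e (nat_lit 98317) (nat_lit 9) (.e (nat_lit 336213) (nat_lit 13) (.e (nat_lit 393229) (nat_lit 9) (.e (nat_lit 335985) (nat_lit 1) (.e (nat_lit 57849) (nat_lit 252) .nil)))))) (.g (nat_lit 0) .nil .nil))) 
(.lf (nat_lit 148970) (.g (nat_lit 3500) (.e (nat_lit 57377) (nat_lit 3) (.e (nat_lit 98317) (nat_lit 9) (.e (nat_lit 336215) (nat_lit 13) (.e (nat_lit 393227) (nat_lit 9) (.e (nat_lit 335998) (nat_lit 1) (.e (nat_lit 57849) (nat_lit 252) .nil)))))) (.g (nat_lit 0) .nil .nil)))) (.nd (nat_lit 5) 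
(.lf (nat_lit 148954) (.g (nat_lit 2543) (.e (nat_lit 57377) (nat_lit 3) (.e (nat_lit 98317) (nat_lit 9) (.e (nat_lit 336214) (nat_lit 13) (.e (nat_lit 393225) (nat_lit 9) (.e (nat_lit 335996) (nat_lit 1) (.e (nat_lit 57851) (nat_lit 252) .nil)))))) (.g (nat_lit 4) .nil .nil))) 
(.lf (nat_lit 148986) (.g (nat_lit 3889) (.e (nat_lit 57377) (nat_lit 3) (.e (nat_lit 98317) (nat_lit 9) (.e (nat_lit 336220) (nat_lit 13) (.e (nat_lit 393225) (nat_lit 9) (.e (nat_lit 335995) (nat_lit 1) (.e (nat_lit 57847) (nat_lit 252) .nil)))))) (.g (nat_lit 6) .nil .nil)))))) (.nd (nat_lit 3) (.nd (nat_lit 4) (.nd (nat_lit 5) 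
(.lf (nat_lit 148934) (.g (nat_lit 2544) (.e (nat_lit 57377) (nat_lit 3) (.e (nat_lit 98317) (nat_lit 9) (.e (nat_lit 336213) (nat_lit 13) (.e (nat_lit 393229) (nat_lit 9) (.e (nat_lit 335917) (nat_lit 0) .nil))))) .nil)) 
(.lf (nat_lit 148966) (.g (nat_lit 3819) (.e (nat_lit 57377) (nat_lit 3) (.e (nat_lit 98317) (nat_lit 9) (.e (nat_lit 336214) (nat_lit 13) (.e (nat_lit 393229) (nat_lit 9) (.e (nat_lit 335996) (nat_lit 1) (.e (nat_lit 57854) (nat_lit 252) .nil)))))) (.g (nat_lit 6) .nil .nil)))) (.nd (nat_lit 5) 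
(.lf (nat_lit 148950) (.g (nat_lit 2225) (.e (nat_lit 57377) (nat_lit 3) (.e (nat_lit 98317) (nat_lit 9) (.e (nat_lit 336213) (nat_lit 13) (.e (nat_lit 393258) (nat_lit 20) .nil)))) .nil)) 
(.lf (nat_lit 148982) (.g (nat_lit 3493) (.e (nat_lit 57377) (nat_lit 3) (.e (nat_lit 98317) (nat_lit 9) (.e (nat_lit 336220) (nat_lit 13) (.e (nat_lit 393225) (nat_lit 9) (.e (nat_lit 335986) (nat_lit 1) (.e (nat_lit 57847) (nat_lit 252) .nil)))))) (.g (nat_lit 6) .nil .nil))))) (.nd (nat_lit 4) (.nd (nat_lit 5) 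
(.lf (nat_lit 148942) (.g (nat_lit 3668) (.e (nat_lit 57377) (nat_lit 3) (.e (nat_lit 98317) (nat_lit 9) (.e (nat_lit 336213) (nat_lit 13) (.e (nat_lit 393229) (nat_lit 9) (.e (nat_lit 335987) (nat_lit 1) (.e (nat_lit 57854) (nat_lit 252) .nil)))))) (.g (nat_lit 6) .nil .nil))) 
(.lf (nat_lit 148974) (.g (nat_lit 3933) (.e (nat_lit 57377) (nat_lit 3) (.e (nat_lit 98317) (nat_lit 9) (.e (nat_lit 336215) (nat_lit 13) (.e (nat_lit 393229) (nat_lit 9) (.e (nat_lit 335986) (nat_lit 1) (.e (nat_lit 57849) (nat_lit 252) .nil)))))) (.g (nat_lit 0) .nil .nil)))) (.nd (nat_lit 5) 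
(.lf (nat_lit 148958) (.g (nat_lit 3351) (.e (nat_lit 57377) (nat_lit 3) (.e (nat_lit 98317) (nat_lit 9) (.e (nat_lit 336214) (nat_lit 13) (.e (nat_lit 393229) (nat_lit 9) (.e (nat_lit 335988) (nat_lit 1) (.e (nat_lit 57852) (nat_lit 252) .nil)))))) (.g (nat_lit 6) .nil .nil))) 
(.lf (nat_lit 148990) (.g (nat_lit 3646) (.e (nat_lit 57377) (nat_lit 3) (.e (nat_lit 98317) (nat_lit 9) (.e (nat_lit 336220) (nat_lit 13) (.e (nat_lit 393225) (nat_lit 9) (.e (nat_lit 335996) (nat_lit 1) (.e (nat_lit 57853) (nat_lit 252) .nil)))))) (.g (nat_lit 6) .nil .nil)))))))) (.nd (nat_lit 1) (.nd (nat_lit 2) (.nd (nat_lit 3) (.nd (nat_lit 4) (.nd (nat_lit 5) 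
(.lf (nat_lit 148929) (.g (nat_lit 2231) (.e (nat_lit 57377) (nat_lit 3) (.e (nat_lit 98317) (nat_lit 9) (.e (nat_lit 336213) (nat_lit 13) (.e (nat_lit 393228) (nat_lit 9) .nil)))) .nil)) 
(.lf (nat_lit 148961) (.g (nat_lit 2215) (.e (nat_lit 57377) (nat_lit 3) (.e (nat_lit 98317) (nat_lit 9) (.e (nat_lit 336214) (nat_lit 13) (.e (nat_lit 393229) (nat_lit 9) (.e (nat_lit 335994) (nat_lit 1) (.e (nat_lit 57848) (nat_lit 252) .nil)))))) (.g (nat_lit 5) .nil .nil)))) (.nd (nat_lit 5) 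
(.lf (nat_lit 148945) (.g (nat_lit 2633) (.e (nat_lit 57377) (nat_lit 3) (.e (nat_lit 98317) (nat_lit 9) (.e (nat_lit 336213) (nat_lit 13) (.e (nat_lit 393229) (nat_lit 9) (.e (nat_lit 335993) (nat_lit 1) (.e (nat_lit 57852) (nat_lit 252) .nil)))))) (.g (nat_lit 4) .nil .nil))) 
(.lf (nat_lit 148977) (.g (nat_lit 2823) (.e (nat_lit 57377) (nat_lit 3) (.e (nat_lit 98317) (nat_lit 9) (.e (nat_lit 336215) (nat_lit 13) (.e (nat_lit 393229) (nat_lit 9) (.e (nat_lit 335987) (nat_lit 1) (.e (nat_lit 57854) (nat_lit 252) .nil)))))) (.g (nat_lit 4) .nil .nil))))) (.nd (nat_lit 4) (.nd (nat_lit 5) 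
(.lf (nat_lit 148937) (.g (nat_lit 2614) (.e (nat_lit 57377) (nat_lit 3) (.e (nat_lit 98317) (nat_lit 9) (.e (nat_lit 336213) (nat_lit 13) (.e (nat_lit 393229) (nat_lit 9) (.e (nat_lit 335934) (nat_lit 0) .nil))))) .nil)) 
(.lf (nat_lit 148969) (.g (nat_lit 3471) (.e (nat_lit 57377) (nat_lit 3) (.e (nat_lit 98317) (nat_lit 9) (.e (nat_lit 336215) (nat_lit 13) (.e (nat_lit 393225) (nat_lit 9) (.e (nat_lit 335995) (nat_lit 1) (.e (nat_lit 57848) (nat_lit 252) .nil)))))) (.g (nat_lit 0) .nil .nil)))) (.nd (nat_lit 5) 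
(.lf (nat_lit 148953) (.g (nat_lit 3101) (.e (nat_lit 57377) (nat_lit 3) (.e (nat_lit 98317) (nat_lit 9) (.e (nat_lit 336214) (nat_lit 13) (.e (nat_lit 393225) (nat_lit 9) (.e (nat_lit 335995) (nat_lit 1) (.e (nat_lit 57848) (nat_lit 252) .nil)))))) (.g (nat_lit 6) .nil .nil))) 
(.lf (nat_lit 148985) (.g (nat_lit 4200) (.e (nat_lit 57377) (nat_lit 3) (.e (nat_lit 98317) (nat_lit 9) (.e (nat_lit 336220) (nat_lit 13) (.e (nat_lit 393225) (nat_lit 9) (.e (nat_lit 335995) (nat_lit 1) (.e (nat_lit 57846) (nat_lit 252) .nil)))))) (.g (nat_lit 5) .nil .nil)))))) (.nd (nat_lit 3) (.nd (nat_lit 4) (.nd (nat_lit 5) 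
(.lf (nat_lit 148933) (.g (nat_lit 2026) (.e (nat_lit 57377) (nat_lit 3) (.e (nat_lit 98317) (nat_lit 9) (.e (nat_lit 336213) (nat_lit 13) (.e (nat_lit 393229) (nat_lit 9) (.e (nat_lit 335912) (nat_lit 0) .nil))))) .nil)) 
(.lf (nat_lit 148965) (.g (nat_lit 3302) (.e (nat_lit 57377) (nat_lit 3) (.e (nat_lit 98317) (nat_lit 9) (.e (nat_lit 336214) (nat_lit 13) (.e (nat_lit 393229) (nat_lit 9) (.e (nat_lit 335996) (nat_lit 1) (.e (nat_lit 57851) (nat_lit 252) .nil)))))) (.g (nat_lit 5) .nil .nil)))) (.nd (nat_lit 5) 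
(.lf (nat_lit 148949) (.g (nat_lit 1088) (.e (nat_lit 57377) (nat_lit 3) (.e (nat_lit 98317) (nat_lit 9) (.e (nat_lit 336213) (nat_lit 13) (.e (nat_lit 401152) (nat_lit 10) .nil)))) .nil)) 
(.lf (nat_lit 148981) (.g (nat_lit 376) (.e (nat_lit 57377) (nat_lit 3) (.e (nat_lit 98317) (nat_lit 9) (.e (nat_lit 336220) (nat_lit 13) .nil))) .nil)))) (.nd (nat_lit 4) (.nd (nat_lit 5) 
(.lf (nat_lit 148941) (.g (nat_lit 2894) (.e (nat_lit 57377) (nat_lit 3) (.e (nat_lit 98317) (nat_lit 9) (.e (nat_lit 336213) (nat_lit 13) (.e (nat_lit 393229) (nat_lit 9) (.e (nat_lit 335987) (nat_lit 1) (.e (nat_lit 57852) (nat_lit 252) .nil)))))) (.g (nat_lit 4) .nil .nil))) 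
(.lf (nat_lit 148973) (.g (nat_lit 3148) (.e (nat_lit 57377) (nat_lit 3) (.e (nat_lit 98317) (nat_lit 9) (.e (nat_lit 336215) (nat_lit 13) (.e (nat_lit 393229) (nat_lit 9) (.e (nat_lit 335986) (nat_lit 1) (.e (nat_lit 57848) (nat_lit 252) .nil)))))) (.g (nat_lit 6) .nil .nil)))) (.nd (nat_lit 5) 
(.lf (nat_lit 148957) (.g (nat_lit 2222) (.e (nat_lit 57377) (nat_lit 3) (.e (nat_lit 98317) (nat_lit 9) (.e (nat_lit 336214) (nat_lit 13) (.e (nat_lit 393229) (nat_lit 9) (.e (nat_lit 335987) (nat_lit 1) (.e (nat_lit 57854) (nat_lit 252) .nil)))))) (.g (nat_lit 4) .nil .nil))) 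
(.lf (nat_lit 148989) (.g (nat_lit 3732) (.e (nat_lit 57377) (nat_lit 3) (.e (nat_lit 98317) (nat_lit 9) (.e (nat_lit 336220) (nat_lit 13) (.e (nat_lit 393225) (nat_lit 9) (.e (nat_lit 335996) (nat_lit 1) (.e (nat_lit 57852) (nat_lit 252) .nil)))))) (.g (nat_lit 6) .nil .nil))))))) (.nd (nat_lit 2) (.nd (nat_lit 3) (.nd (nat_lit 4) (.nd (nat_lit 5) 
(.lf (nat_lit 148931) (.g (nat_lit 1212) (.e (nat_lit 57377) (nat_lit 3) (.e (nat_lit 98317) (nat_lit 9) (.e (nat_lit 336213) (nat_lit 13) (.e (nat_lit 393229) (nat_lit 9) .nil)))) .nil)) 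
(.lf (nat_lit 148963) (.g (nat_lit 3723) (.e (nat_lit 57377) (nat_lit 3) (.e (nat_lit 98317) (nat_lit 9) (.e (nat_lit 336214) (nat_lit 13) (.e (nat_lit 393229) (nat_lit 9) (.e (nat_lit 335995) (nat_lit 1) (.e (nat_lit 57847) (nat_lit 252) .nil)))))) (.g (nat_lit 0) .nil .nil)))) (.nd (nat_lit 5) 
(.lf (nat_lit 148947) (.g (nat_lit 2961) (.e (nat_lit 57377) (nat_lit 3) (.e (nat_lit 98317) (nat_lit 9) (.e (nat_lit 336213) (nat_lit 13) (.e (nat_lit 393229) (nat_lit 9) (.e (nat_lit 335995) (nat_lit 1) (.e (nat_lit 57844) (nat_lit 252) .nil)))))) (.g (nat_lit 5) .nil .nil))) 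
(.lf (nat_lit 148979) (.g (nat_lit 3647) (.e (nat_lit 57377) (nat_lit 3) (.e (nat_lit 98317) (nat_lit 9) (.e (nat_lit 336215) (nat_lit 13) (.e (nat_lit 393229) (nat_lit 9) (.e (nat_lit 335995) (nat_lit 1) (.e (nat_lit 57844) (nat_lit 252) .nil)))))) (.g (nat_lit 5) .nil .nil))))) (.nd (nat_lit 4) (.nd (nat_lit 5) 
(.lf (nat_lit 148939) (.g (nat_lit 3929) (.e (nat_lit 57377) (nat_lit 3) (.e (nat_lit 98317) (nat_lit 9) (.e (nat_lit 336213) (nat_lit 13) (.e (nat_lit 393229) (nat_lit 9) (.e (nat_lit 335986) (nat_lit 1) (.e (nat_lit 57849) (nat_lit 252) .nil)))))) (.g (nat_lit 0) .nil .nil))) 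
(.lf (nat_lit 148971) (.g (nat_lit 2625) (.e (nat_lit 57377) (nat_lit 3) (.e (nat_lit 98317) (nat_lit 9) (.e (nat_lit 336215) (nat_lit 13) (.e (nat_lit 393228) (nat_lit 9) (.e (nat_lit 335995) (nat_lit 1) (.e (nat_lit 57848) (nat_lit 252) .nil)))))) (.g (nat_lit 6) .nil .nil)))) (.nd (nat_lit 5) 
(.lf (nat_lit 148955) (.g (nat_lit 3198) (.e (nat_lit 57377) (nat_lit 3) (.e (nat_lit 98317) (nat_lit 9) (.e (nat_lit 336214) (nat_lit 13) (.e (nat_lit 393229) (nat_lit 9) (.e (nat_lit 335986) (nat_lit 1) (.e (nat_lit 57853) (nat_lit 252) .nil)))))) (.g (nat_lit 5) .nil .nil))) 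
(.lf (nat_lit 148987) (.g (nat_lit 3732) (.e (nat_lit 57377) (nat_lit 3) (.e (nat_lit 98317) (nat_lit 9) (.e (nat_lit 336220) (nat_lit 13) (.e (nat_lit 393225) (nat_lit 9) (.e (nat_lit 335995) (nat_lit 1) (.e (nat_lit 57848) (nat_lit 252) .nil)))))) (.g (nat_lit 0) .nil .nil)))))) (.nd (nat_lit 3) (.nd (nat_lit 4) (.nd (nat_lit 5) 
(.lf (nat_lit 148935) (.g (nat_lit 2722) (.e (nat_lit 57377) (nat_lit 3) (.e (nat_lit 98317) (nat_lit 9) (.e (nat_lit 336213) (nat_lit 13) (.e (nat_lit 393229) (nat_lit 9) (.e (nat_lit 335926) (nat_lit 0) .nil))))) .nil)) 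
(.lf (nat_lit 148967) (.g (nat_lit 271) (.e (nat_lit 57377) (nat_lit 3) (.e (nat_lit 98317) (nat_lit 9) (.e (nat_lit 336215) (nat_lit 13) .nil))) .nil))) (.nd (nat_lit 5) 
(.lf (nat_lit 148951) (.g (nat_lit 308) (.e (nat_lit 57377) (nat_lit 3) (.e (nat_lit 98317) (nat_lit 9) (.e (nat_lit 336214) (nat_lit 13) .nil))) .nil)) 
(.lf (nat_lit 148983) (.g (nat_lit 3433) (.e (nat_lit 57377) (nat_lit 3) (.e (nat_lit 98317) (nat_lit 9) (.e (nat_lit 336220) (nat_lit 13) (.e (nat_lit 393225) (nat_lit 9) (.e (nat_lit 335986) (nat_lit 1) (.e (nat_lit 57849) (nat_lit 252) .nil)))))) (.g (nat_lit 5) .nil .nil))))) (.nd (nat_lit 4) (.nd (nat_lit 5) 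
(.lf (nat_lit 148943) (.g (nat_lit 3692) (.e (nat_lit 57377) (nat_lit 3) (.e (nat_lit 98317) (nat_lit 9) (.e (nat_lit 336213) (nat_lit 13) (.e (nat_lit 393229) (nat_lit 9) (.e (nat_lit 335988) (nat_lit 1) (.e (nat_lit 57852) (nat_lit 252) .nil)))))) (.g (nat_lit 0) .nil .nil))) 
(.lf (nat_lit 148975) (.g (nat_lit 3504) (.e (nat_lit 57377) (nat_lit 3) (.e (nat_lit 98317) (nat_lit 9) (.e (nat_lit 336215) (nat_lit 13) (.e (nat_lit 393229) (nat_lit 9) (.e (nat_lit 335986) (nat_lit 1) (.e (nat_lit 57853) (nat_lit 252) .nil)))))) (.g (nat_lit 5) .nil .nil)))) (.nd (nat_lit 5) 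
(.lf (nat_lit 148959) (.g (nat_lit 3456) (.e (nat_lit 57377) (nat_lit 3) (.e (nat_lit 98317) (nat_lit 9) (.e (nat_lit 336214) (nat_lit 13) (.e (nat_lit 393229) (nat_lit 9) (.e (nat_lit 335988) (nat_lit 1) (.e (nat_lit 57854) (nat_lit 252) .nil)))))) (.g (nat_lit 6) .nil .nil))) 
(.lf (nat_lit 148991) (.g (nat_lit 3689) (.e (nat_lit 57377) (nat_lit 3) (.e (nat_lit 98317) (nat_lit 9) (.e (nat_lit 336220) (nat_lit 13) (.e (nat_lit 393225) (nat_lit 9) (.e (nat_lit 335996) (nat_lit 1) (.e (nat_lit 57854) (nat_lit 252) .nil)))))) (.g (nat_lit 6) .nil .nil)))))))))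

noncomputable def tv1984 : DT := (.nd (nat_lit 0) (.nd (nat_lit 1) (.nd (nat_lit 2) (.nd (nat_lit 3) (.nd (nat_lit 4) (.nd (nat_lit 5) 
(.lf (nat_lit 148992) (.g (nat_lit 997) (.e (nat_lit 57377) (nat_lit 3) (.e (nat_lit 98317) (nat_lit 9) (.e (nat_lit 336220) (nat_lit 13) (.e (nat_lit 393229) (nat_lit 9) .nil)))) .nil)) 
(.lf (nat_lit 149024) (.g (nat_lit 3355) (.e (nat_lit 57377) (nat_lit 3) (.e (nat_lit 98317) (nat_lit 9) (.e (nat_lit 336222) (nat_lit 13) (.e (nat_lit 393229) (nat_lit 9) (.e (nat_lit 335988) (nat_lit 1) (.e (nat_lit 57854) (nat_lit 252) .nil)))))) (.g (nat_lit 0) .nil .nil)))) (.nd (nat_lit 5) 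
(.lf (nat_lit 149008) (.g (nat_lit 3366) (.e (nat_lit 57377) (nat_lit 3) (.e (nat_lit 98317) (nat_lit 9) (.e (nat_lit 336222) (nat_lit 13) (.e (nat_lit 393224) (nat_lit 9) (.e (nat_lit 335996) (nat_lit 1) (.e (nat_lit 57852) (nat_lit 252) .nil)))))) (.g (nat_lit 6) .nil .nil))) 
(.lf (nat_lit 149040) (.g (nat_lit 3298) (.e (nat_lit 57377) (nat_lit 3) (.e (nat_lit 98317) (nat_lit 9) (.e (nat_lit 336223) (nat_lit 13) (.e (nat_lit 393225) (nat_lit 9) (.e (nat_lit 335995) (nat_lit 1) (.e (nat_lit 57853) (nat_lit 252) .nil)))))) (.g (nat_lit 5) .nil .nil))))) (.nd (nat_lit 4) (.nd (nat_lit 5) 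
(.lf (nat_lit 149000) (.g (nat_lit 3933) (.e (nat_lit 57377) (nat_lit 3) (.e (nat_lit 98317) (nat_lit 9) (.e (nat_lit 336221) (nat_lit 13) (.e (nat_lit 393229) (nat_lit 9) (.e (nat_lit 335995) (nat_lit 1) (.e (nat_lit 57847) (nat_lit 252) .nil)))))) (.g (nat_lit 5) .nil .nil))) 
(.lf (nat_lit 149032) (.g (nat_lit 3781) (.e (nat_lit 57377) (nat_lit 3) (.e (nat_lit 98317) (nat_lit 9) (.e (nat_lit 336222) (nat_lit 13) (.e (nat_lit 393229) (nat_lit 9) (.e (nat_lit 335996) (nat_lit 1) (.e (nat_lit 57854) (nat_lit 252) .nil)))))) (.g (nat_lit 0) .nil .nil)))) (.nd (nat_lit 5) 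
(.lf (nat_lit 149016) (.g (nat_lit 980) (.e (nat_lit 57377) (nat_lit 3) (.e (nat_lit 98317) (nat_lit 9) (.e (nat_lit 336222) (nat_lit 13) (.e (nat_lit 393228) (nat_lit 9) .nil)))) .nil)) 
(.lf (nat_lit 149048) (.g (nat_lit 3639) (.e (nat_lit 57377) (nat_lit 3) (.e (nat_lit 98317) (nat_lit 9) (.e (nat_lit 336223) (nat_lit 13) (.e (nat_lit 393229) (nat_lit 9) (.e (nat_lit 335986) (nat_lit 1) (.e (nat_lit 57849) (nat_lit 252) .nil)))))) (.g (nat_lit 0) .nil .nil)))))) (.nd (nat_lit 3) (.nd (nat_lit 4) (.nd (nat_lit 5) 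
(.lf (nat_lit 148996) (.g (nat_lit 3979) (.e (nat_lit 57377) (nat_lit 3) (.e (nat_lit 98317) (nat_lit 9) (.e (nat_lit 336221) (nat_lit 13) (.e (nat_lit 393225) (nat_lit 9) (.e (nat_lit 335995) (nat_lit 1) (.e (nat_lit 57848) (nat_lit 252) .nil)))))) (.g (nat_lit 6) .nil .nil))) 
(.lf (nat_lit 149028) (.g (nat_lit 3611) (.e (nat_lit 57377) (nat_lit 3) (.e (nat_lit 98317) (nat_lit 9) (.e (nat_lit 336222) (nat_lit 13) (.e (nat_lit 393229) (nat_lit 9) (.e (nat_lit 335995) (nat_lit 1) (.e (nat_lit 57847) (nat_lit 252) .nil)))))) (.g (nat_lit 0) .nil .nil)))) (.nd (nat_lit 5) 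
(.lf (nat_lit 149012) (.g (nat_lit 2978) (.e (nat_lit 57377) (nat_lit 3) (.e (nat_lit 98317) (nat_lit 9) (.e (nat_lit 336222) (nat_lit 13) (.e (nat_lit 393225) (nat_lit 9) (.e (nat_lit 335995) (nat_lit 1) (.e (nat_lit 57847) (nat_lit 252) .nil)))))) (.g (nat_lit 5) .nil .nil))) 
(.lf (nat_lit 149044) (.g (nat_lit 932) (.e (nat_lit 57377) (nat_lit 3) (.e (nat_lit 98317) (nat_lit 9) (.e (nat_lit 336223) (nat_lit 13) (.e (nat_lit 393229) (nat_lit 9) .nil)))) .nil)))) (.nd (nat_lit 4) (.nd (nat_lit 5) 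
(.lf (nat_lit 149004) (.g (nat_lit 3370) (.e (nat_lit 57377) (nat_lit 3) (.e (nat_lit 98317) (nat_lit 9) (.e (nat_lit 336221) (nat_lit 13) (.e (nat_lit 393229) (nat_lit 9) (.e (nat_lit 335996) (nat_lit 1) (.e (nat_lit 57854) (nat_lit 252) .nil)))))) (.g (nat_lit 4) .nil .nil))) 
(.lf (nat_lit 149036) (.g (nat_lit 3569) (.e (nat_lit 57377) (nat_lit 3) (.e (nat_lit 98317) (nat_lit 9) (.e (nat_lit 336223) (nat_lit 13) (.e (nat_lit 393224) (nat_lit 9) (.e (nat_lit 335986) (nat_lit 1) (.e (nat_lit 57849) (nat_lit 252) .nil)))))) (.g (nat_lit 5) .nil .nil)))) (.nd (nat_lit 5) 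
(.lf (nat_lit 149020) (.g (nat_lit 3353) (.e (nat_lit 57377) (nat_lit 3) (.e (nat_lit 98317) (nat_lit 9) (.e (nat_lit 336222) (nat_lit 13) (.e (nat_lit 393229) (nat_lit 9) (.e (nat_lit 335986) (nat_lit 1) (.e (nat_lit 57847) (nat_lit 252) .nil)))))) (.g (nat_lit 0) .nil .nil))) 
(.lf (nat_lit 149052) (.g (nat_lit 2941) (.e (nat_lit 57377) (nat_lit 3) (.e (nat_lit 98317) (nat_lit 9) (.e (nat_lit 336223) (nat_lit 13) (.e (nat_lit 393229) (nat_lit 9) (.e (nat_lit 335994) (nat_lit 1) (.e (nat_lit 57851) (nat_lit 252) .nil)))))) (.g (nat_lit 0) .nil .nil))))))) (.nd (nat_lit 2) (.nd (nat_lit 3) (.nd (nat_lit 4) (.nd (nat_lit 5) 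
(.lf (nat_lit 148994) (.g (nat_lit 3923) (.e (nat_lit 57377) (nat_lit 3) (.e (nat_lit 98317) (nat_lit 9) (.e (nat_lit 336221) (nat_lit 13) (.e (nat_lit 393225) (nat_lit 9) (.e (nat_lit 335986) (nat_lit 1) (.e (nat_lit 57847) (nat_lit 252) .nil)))))) (.g (nat_lit 5) .nil .nil))) 
(.lf (nat_lit 149026) (.g (nat_lit 2354) (.e (nat_lit 57377) (nat_lit 3) (.e (nat_lit 98317) (nat_lit 9) (.e (nat_lit 336222) (nat_lit 13) (.e (nat_lit 393229) (nat_lit 9) (.e (nat_lit 335994) (nat_lit 1) (.e (nat_lit 57848) (nat_lit 252) .nil)))))) (.g (nat_lit 5) .nil .nil)))) (.nd (nat_lit 5) 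
(.lf (nat_lit 149010) (.g (nat_lit 2435) (.e (nat_lit 57377) (nat_lit 3) (.e (nat_lit 98317) (nat_lit 9) (.e (nat_lit 336222) (nat_lit 13) (.e (nat_lit 393225) (nat_lit 9) (.e (nat_lit 335986) (nat_lit 1) (.e (nat_lit 57849) (nat_lit 252) .nil)))))) (.g (nat_lit 5) .nil .nil))) 
(.lf (nat_lit 149042) (.g (nat_lit 3372) (.e (nat_lit 57377) (nat_lit 3) (.e (nat_lit 98317) (nat_lit 9) (.e (nat_lit 336223) (nat_lit 13) (.e (nat_lit 393227) (nat_lit 9) (.e (nat_lit 335998) (nat_lit 1) (.e (nat_lit 57849) (nat_lit 252) .nil)))))) (.g (nat_lit 0) .nil .nil))))) (.nd (nat_lit 4) (.nd (nat_lit 5) 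
(.lf (nat_lit 149002) (.g (nat_lit 3153) (.e (nat_lit 57377) (nat_lit 3) (.e (nat_lit 98317) (nat_lit 9) (.e (nat_lit 336221) (nat_lit 13) (.e (nat_lit 393229) (nat_lit 9) (.e (nat_lit 335996) (nat_lit 1) (.e (nat_lit 57852) (nat_lit 252) .nil)))))) (.g (nat_lit 4) .nil .nil))) 
(.lf (nat_lit 149034) (.g (nat_lit 748) (.e (nat_lit 57377) (nat_lit 3) (.e (nat_lit 98317) (nat_lit 9) (.e (nat_lit 336222) (nat_lit 13) (.e (nat_lit 401152) (nat_lit 10) .nil)))) .nil))) (.nd (nat_lit 5) 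
(.lf (nat_lit 149018) (.g (nat_lit 735) (.e (nat_lit 57377) (nat_lit 3) (.e (nat_lit 98317) (nat_lit 9) (.e (nat_lit 336222) (nat_lit 13) (.e (nat_lit 393229) (nat_lit 9) .nil)))) .nil)) 
(.lf (nat_lit 149050) (.g (nat_lit 3381) (.e (nat_lit 57377) (nat_lit 3) (.e (nat_lit 98317) (nat_lit 9) (.e (nat_lit 336223) (nat_lit 13) (.e (nat_lit 393229) (nat_lit 9) (.e (nat_lit 335988) (nat_lit 1) (.e (nat_lit 57852) (nat_lit 252) .nil)))))) (.g (nat_lit 0) .nil .nil)))))) (.nd (nat_lit 3) (.nd (nat_lit 4) (.nd (nat_lit 5) 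
(.lf (nat_lit 148998) (.g (nat_lit 3285) (.e (nat_lit 57377) (nat_lit 3) (.e (nat_lit 98317) (nat_lit 9) (.e (nat_lit 336221) (nat_lit 13) (.e (nat_lit 393229) (nat_lit 9) (.e (nat_lit 335986) (nat_lit 1) (.e (nat_lit 57847) (nat_lit 252) .nil)))))) (.g (nat_lit 4) .nil .nil))) 
(.lf (nat_lit 149030) (.g (nat_lit 3757) (.e (nat_lit 57377) (nat_lit 3) (.e (nat_lit 98317) (nat_lit 9) (.e (nat_lit 336222) (nat_lit 13) (.e (nat_lit 393229) (nat_lit 9) (.e (nat_lit 335995) (nat_lit 1) (.e (nat_lit 57853) (nat_lit 252) .nil)))))) (.g (nat_lit 5) .nil .nil)))) (.nd (nat_lit 5) 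
(.lf (nat_lit 149014) (.g (nat_lit 3154) (.e (nat_lit 57377) (nat_lit 3) (.e (nat_lit 98317) (nat_lit 9) (.e (nat_lit 336222) (nat_lit 13) (.e (nat_lit 393225) (nat_lit 9) (.e (nat_lit 335996) (nat_lit 1) (.e (nat_lit 57851) (nat_lit 252) .nil)))))) (.g (nat_lit 0) .nil .nil))) 
(.lf (nat_lit 149046) (.g (nat_lit 1916) (.e (nat_lit 57377) (nat_lit 3) (.e (nat_lit 98317) (nat_lit 9) (.e (nat_lit 336223) (nat_lit 13) (.e (nat_lit 393229) (nat_lit 9) (.e (nat_lit 335917) (nat_lit 0) .nil))))) .nil)))) (.nd (nat_lit 4) (.nd (nat_lit 5) 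
(.lf (nat_lit 149006) (.g (nat_lit 3407) (.e (nat_lit 57377) (nat_lit 3) (.e (nat_lit 98317) (nat_lit 9) (.e (nat_lit 336222) (nat_lit 13) (.e (nat_lit 393224) (nat_lit 9) (.e (nat_lit 335986) (nat_lit 1) (.e (nat_lit 57849) (nat_lit 252) .nil)))))) (.g (nat_lit 0) .nil .nil))) 
(.lf (nat_lit 149038) (.g (nat_lit 3632) (.e (nat_lit 57377) (nat_lit 3) (.e (nat_lit 98317) (nat_lit 9) (.e (nat_lit 336223) (nat_lit 13) (.e (nat_lit 393225) (nat_lit 9) (.e (nat_lit 335995) (nat_lit 1) (.e (nat_lit 57844) (nat_lit 252) .nil)))))) (.g (nat_lit 5) .nil .nil)))) (.nd (nat_lit 5) 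
(.lf (nat_lit 149022) (.g (nat_lit 2789) (.e (nat_lit 57377) (nat_lit 3) (.e (nat_lit 98317) (nat_lit 9) (.e (nat_lit 336222) (nat_lit 13) (.e (nat_lit 393229) (nat_lit 9) (.e (nat_lit 335986) (nat_lit 1) (.e (nat_lit 57854) (nat_lit 252) .nil)))))) (.g (nat_lit 5) .nil .nil))) 
(.lf (nat_lit 149054) (.g (nat_lit 3967) (.e (nat_lit 57377) (nat_lit 3) (.e (nat_lit 98317) (nat_lit 9) (.e (nat_lit 336223) (nat_lit 13) (.e (nat_lit 393229) (nat_lit 9) (.e (nat_lit 335996) (nat_lit 1) (.e (nat_lit 57853) (nat_lit 252) .nil)))))) (.g (nat_lit 0) .nil .nil)))))))) (.nd (nat_lit 1) (.nd (nat_lit 2) (.nd (nat_lit 3) (.nd (nat_lit 4) (.nd (nat_lit 5) 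
(.lf (nat_lit 148993) (.g (nat_lit 401) (.e (nat_lit 57377) (nat_lit 3) (.e (nat_lit 98317) (nat_lit 9) (.e (nat_lit 336221) (nat_lit 13) .nil))) .nil)) 
(.lf (nat_lit 149025) (.g (nat_lit 1571) (.e (nat_lit 57377) (nat_lit 3) (.e (nat_lit 98317) (nat_lit 9) (.e (nat_lit 336222) (nat_lit 13) (.e (nat_lit 393229) (nat_lit 9) (.e (nat_lit 335994) (nat_lit 1) .nil))))) .nil))) (.nd (nat_lit 5) 
(.lf (nat_lit 149009) (.g (nat_lit 2993) (.e (nat_lit 57377) (nat_lit 3) (.e (nat_lit 98317) (nat_lit 9) (.e (nat_lit 336222) (nat_lit 13) (.e (nat_lit 393225) (nat_lit 9) (.e (nat_lit 335986) (nat_lit 1) (.e (nat_lit 57847) (nat_lit 252) .nil)))))) (.g (nat_lit 6) .nil .nil))) 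
(.lf (nat_lit 149041) (.g (nat_lit 2173) (.e (nat_lit 57377) (nat_lit 3) (.e (nat_lit 98317) (nat_lit 9) (.e (nat_lit 336223) (nat_lit 13) (.e (nat_lit 393226) (nat_lit 9) .nil)))) .nil)))) (.nd (nat_lit 4) (.nd (nat_lit 5) 
(.lf (nat_lit 149001) (.g (nat_lit 4409) (.e (nat_lit 57377) (nat_lit 3) (.e (nat_lit 98317) (nat_lit 9) (.e (nat_lit 336221) (nat_lit 13) (.e (nat_lit 393229) (nat_lit 9) (.e (nat_lit 335995) (nat_lit 1) (.e (nat_lit 57849) (nat_lit 252) .nil)))))) (.g (nat_lit 5) .nil .nil))) 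
(.lf (nat_lit 149033) (.g (nat_lit 2215) (.e (nat_lit 57377) (nat_lit 3) (.e (nat_lit 98317) (nat_lit 9) (.e (nat_lit 336222) (nat_lit 13) (.e (nat_lit 393229) (nat_lit 9) (.e (nat_lit 343808) (nat_lit 1) (.e (nat_lit 57849) (nat_lit 252) .nil)))))) (.g (nat_lit 4) .nil .nil)))) (.nd (nat_lit 5) 
(.lf (nat_lit 149017) (.g (nat_lit 2700) (.e (nat_lit 57377) (nat_lit 3) (.e (nat_lit 98317) (nat_lit 9) (.e (nat_lit 336222) (nat_lit 13) (.e (nat_lit 393228) (nat_lit 9) (.e (nat_lit 335986) (nat_lit 1) (.e (nat_lit 57849) (nat_lit 252) .nil)))))) (.g (nat_lit 5) .nil .nil))) 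
(.lf (nat_lit 149049) (.g (nat_lit 3432) (.e (nat_lit 57377) (nat_lit 3) (.e (nat_lit 98317) (nat_lit 9) (.e (nat_lit 336223) (nat_lit 13) (.e (nat_lit 393229) (nat_lit 9) (.e (nat_lit 335986) (nat_lit 1) (.e (nat_lit 57853) (nat_lit 252) .nil)))))) (.g (nat_lit 6) .nil .nil)))))) (.nd (nat_lit 3) (.nd (nat_lit 4) (.nd (nat_lit 5) 
(.lf (nat_lit 148997) (.g (nat_lit 3849) (.e (nat_lit 57377) (nat_lit 3) (.e (nat_lit 98317) (nat_lit 9) (.e (nat_lit 336221) (nat_lit 13) (.e (nat_lit 393225) (nat_lit 9) (.e (nat_lit 335996) (nat_lit 1) (.e (nat_lit 57852) (nat_lit 252) .nil)))))) (.g (nat_lit 5) .nil .nil))) 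
(.lf (nat_lit 149029) (.g (nat_lit 3118) (.e (nat_lit 57377) (nat_lit 3) (.e (nat_lit 98317) (nat_lit 9) (.e (nat_lit 336222) (nat_lit 13) (.e (nat_lit 393229) (nat_lit 9) (.e (nat_lit 335995) (nat_lit 1) (.e (nat_lit 57848) (nat_lit 252) .nil)))))) (.g (nat_lit 0) .nil .nil)))) (.nd (nat_lit 5) 
(.lf (nat_lit 149013) (.g (nat_lit 3285) (.e (nat_lit 57377) (nat_lit 3) (.e (nat_lit 98317) (nat_lit 9) (.e (nat_lit 336222) (nat_lit 13) (.e (nat_lit 393225) (nat_lit 9) (.e (nat_lit 335995) (nat_lit 1) (.e (nat_lit 57848) (nat_lit 252) .nil)))))) (.g (nat_lit 6) .nil .nil))) 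
(.lf (nat_lit 149045) (.g (nat_lit 2287) (.e (nat_lit 57377) (nat_lit 3) (.e (nat_lit 98317) (nat_lit 9) (.e (nat_lit 336223) (nat_lit 13) (.e (nat_lit 393229) (nat_lit 9) (.e (nat_lit 335886) (nat_lit 0) (.e (nat_lit 1023) (nat_lit 81) (.e (nat_lit 5195) (nat_lit 294) .nil))))))) (.g (nat_lit 4) .nil .nil))))) (.nd (nat_lit 4) (.nd (nat_lit 5) 
(.lf (nat_lit 149005) (.g (nat_lit 386) (.e (nat_lit 57377) (nat_lit 3) (.e (nat_lit 98317) (nat_lit 9) (.e (nat_lit 336222) (nat_lit 13) .nil))) .nil)) 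
(.lf (nat_lit 149037) (.g (nat_lit 2962) (.e (nat_lit 57377) (nat_lit 3) (.e (nat_lit 98317) (nat_lit 9) (.e (nat_lit 336223) (nat_lit 13) (.e (nat_lit 393225) (nat_lit 9) (.e (nat_lit 335986) (nat_lit 1) (.e (nat_lit 57849) (nat_lit 252) .nil)))))) (.g (nat_lit 5) .nil .nil)))) (.nd (nat_lit 5) 
(.lf (nat_lit 149021) (.g (nat_lit 3581) (.e (nat_lit 57377) (nat_lit 3) (.e (nat_lit 98317) (nat_lit 9) (.e (nat_lit 336222) (nat_lit 13) (.e (nat_lit 393229) (nat_lit 9) (.e (nat_lit 335986) (nat_lit 1) (.e (nat_lit 57849) (nat_lit 252) .nil)))))) (.g (nat_lit 0) .nil .nil))) 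
(.lf (nat_lit 149053) (.g (nat_lit 3627) (.e (nat_lit 57377) (nat_lit 3) (.e (nat_lit 98317) (nat_lit 9) (.e (nat_lit 336223) (nat_lit 13) (.e (nat_lit 393229) (nat_lit 9) (.e (nat_lit 335996) (nat_lit 1) (.e (nat_lit 57851) (nat_lit 252) .nil)))))) (.g (nat_lit 0) .nil .nil))))))) (.nd (nat_lit 2) (.nd (nat_lit 3) (.nd (nat_lit 4) (.nd (nat_lit 5) 
(.lf (nat_lit 148995) (.g (nat_lit 3670) (.e (nat_lit 57377) (nat_lit 3) (.e (nat_lit 98317) (nat_lit 9) (.e (nat_lit 336221) (nat_lit 13) (.e (nat_lit 393225) (nat_lit 9) (.e (nat_lit 335988) (nat_lit 1) (.e (nat_lit 57854) (nat_lit 252) .nil)))))) (.g (nat_lit 5) .nil .nil))) 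
(.lf (nat_lit 149027) (.g (nat_lit 3737) (.e (nat_lit 57377) (nat_lit 3) (.e (nat_lit 98317) (nat_lit 9) (.e (nat_lit 336222) (nat_lit 13) (.e (nat_lit 393229) (nat_lit 9) (.e (nat_lit 335995) (nat_lit 1) (.e (nat_lit 57846) (nat_lit 252) .nil)))))) (.g (nat_lit 6) .nil .nil)))) (.nd (nat_lit 5) 
(.lf (nat_lit 149011) (.g (nat_lit 2671) (.e (nat_lit 57377) (nat_lit 3) (.e (nat_lit 98317) (nat_lit 9) (.e (nat_lit 336222) (nat_lit 13) (.e (nat_lit 393225) (nat_lit 9) (.e (nat_lit 335988) (nat_lit 1) (.e (nat_lit 57854) (nat_lit 252) .nil)))))) (.g (nat_lit 5) .nil .nil))) 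
(.lf (nat_lit 149043) (.g (nat_lit 2173) (.e (nat_lit 57377) (nat_lit 3) (.e (nat_lit 98317) (nat_lit 9) (.e (nat_lit 336223) (nat_lit 13) (.e (nat_lit 393228) (nat_lit 9) .nil)))) .nil)))) (.nd (nat_lit 4) (.nd (nat_lit 5) 
(.lf (nat_lit 149003) (.g (nat_lit 3494) (.e (nat_lit 57377) (nat_lit 3) (.e (nat_lit 98317) (nat_lit 9) (.e (nat_lit 336221) (nat_lit 13) (.e (nat_lit 393229) (nat_lit 9) (.e (nat_lit 335996) (nat_lit 1) (.e (nat_lit 57853) (nat_lit 252) .nil)))))) (.g (nat_lit 4) .nil .nil))) 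
(.lf (nat_lit 149035) (.g (nat_lit 2174) (.e (nat_lit 57377) (nat_lit 3) (.e (nat_lit 98317) (nat_lit 9) (.e (nat_lit 336223) (nat_lit 13) (.e (nat_lit 393224) (nat_lit 9) .nil)))) .nil))) (.nd (nat_lit 5) 
(.lf (nat_lit 149019) (.g (nat_lit 1562) (.e (nat_lit 57377) (nat_lit 3) (.e (nat_lit 98317) (nat_lit 9) (.e (nat_lit 336222) (nat_lit 13) (.e (nat_lit 393229) (nat_lit 9) (.e (nat_lit 335933) (nat_lit 0) .nil))))) .nil)) 
(.lf (nat_lit 149051) (.g (nat_lit 3347) (.e (nat_lit 57377) (nat_lit 3) (.e (nat_lit 98317) (nat_lit 9) (.e (nat_lit 336223) (nat_lit 13) (.e (nat_lit 393229) (nat_lit 9) (.e (nat_lit 335993) (nat_lit 1) (.e (nat_lit 57849) (nat_lit 252) .nil)))))) (.g (nat_lit 0) .nil .nil)))))) (.nd (nat_lit 3) (.nd (nat_lit 4) (.nd (nat_lit 5) 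
(.lf (nat_lit 148999) (.g (nat_lit 3312) (.e (nat_lit 57377) (nat_lit 3) (.e (nat_lit 98317) (nat_lit 9) (.e (nat_lit 336221) (nat_lit 13) (.e (nat_lit 393229) (nat_lit 9) (.e (nat_lit 335986) (nat_lit 1) (.e (nat_lit 57849) (nat_lit 252) .nil)))))) (.g (nat_lit 4) .nil .nil))) 
(.lf (nat_lit 149031) (.g (nat_lit 3475) (.e (nat_lit 57377) (nat_lit 3) (.e (nat_lit 98317) (nat_lit 9) (.e (nat_lit 336222) (nat_lit 13) (.e (nat_lit 393229) (nat_lit 9) (.e (nat_lit 335996) (nat_lit 1) (.e (nat_lit 57851) (nat_lit 252) .nil)))))) (.g (nat_lit 0) .nil .nil)))) (.nd (nat_lit 5) 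
(.lf (nat_lit 149015) (.g (nat_lit 2946) (.e (nat_lit 57377) (nat_lit 3) (.e (nat_lit 98317) (nat_lit 9) (.e (nat_lit 336222) (nat_lit 13) (.e (nat_lit 393225) (nat_lit 9) (.e (nat_lit 335996) (nat_lit 1) (.e (nat_lit 57852) (nat_lit 252) .nil)))))) (.g (nat_lit 5) .nil .nil))) 
(.lf (nat_lit 149047) (.g (nat_lit 3107) (.e (nat_lit 57377) (nat_lit 3) (.e (nat_lit 98317) (nat_lit 9) (.e (nat_lit 336223) (nat_lit 13) (.e (nat_lit 393229) (nat_lit 9) (.e (nat_lit 335985) (nat_lit 1) (.e (nat_lit 57849) (nat_lit 252) .nil)))))) (.g (nat_lit 0) .nil .nil))))) (.nd (nat_lit 4) (.nd (nat_lit 5) 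
(.lf (nat_lit 149007) (.g (nat_lit 2857) (.e (nat_lit 57377) (nat_lit 3) (.e (nat_lit 98317) (nat_lit 9) (.e (nat_lit 336222) (nat_lit 13) (.e (nat_lit 393224) (nat_lit 9) (.e (nat_lit 335988) (nat_lit 1) (.e (nat_lit 57854) (nat_lit 252) .nil)))))) (.g (nat_lit 5) .nil .nil))) 
(.lf (nat_lit 149039) (.g (nat_lit 4002) (.e (nat_lit 57377) (nat_lit 3) (.e (nat_lit 98317) (nat_lit 9) (.e (nat_lit 336223) (nat_lit 13) (.e (nat_lit 393225) (nat_lit 9) (.e (nat_lit 335995) (nat_lit 1) (.e (nat_lit 57849) (nat_lit 252) .nil)))))) (.g (nat_lit 6) .nil .nil)))) (.nd (nat_lit 5) 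
(.lf (nat_lit 149023) (.g (nat_lit 3337) (.e (nat_lit 57377) (nat_lit 3) (.e (nat_lit 98317) (nat_lit 9) (.e (nat_lit 336222) (nat_lit 13) (.e (nat_lit 393229) (nat_lit 9) (.e (nat_lit 335988) (nat_lit 1) (.e (nat_lit 57852) (nat_lit 252) .nil)))))) (.g (nat_lit 0) .nil .nil))) 
(.lf (nat_lit 149055) (.g (nat_lit 948) (.e (nat_lit 57377) (nat_lit 3) (.e (nat_lit 98317) (nat_lit 9) (.e (nat_lit 336223) (nat_lit 13) (.e (nat_lit 401152) (nat_lit 10) .nil)))) .nil))))))))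

noncomputable def tv1985 : DT := (.nd (nat_lit 0) (.nd (nat_lit 1) (.nd (nat_lit 2) (.nd (nat_lit 3) (.nd (nat_lit 4) (.nd (nat_lit 5) 
(.lf (nat_lit 149056) (.g (nat_lit 1375) (.e (nat_lit 57377) (nat_lit 3) (.e (nat_lit 98317) (nat_lit 9) (.e (nat_lit 336223) (nat_lit 13) (.e (nat_lit 393234) (nat_lit 17) .nil)))) .nil)) 
(.lf (nat_lit 149088) (.g (nat_lit 3298) (.e (nat_lit 57377) (nat_lit 3) (.e (nat_lit 98341) (nat_lit 20) (.e (nat_lit 221215) (nat_lit 23) (.e (nat_lit 204863) (nat_lit 27) (.e (nat_lit 344120) (nat_lit 21) (.e (nat_lit 516119) (nat_lit 1) (.e (nat_lit 164179) (nat_lit 154) .nil))))))) (.g (nat_lit 5) .nil .nil)))) (.nd (nat_lit 5) 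
(.lf (nat_lit 149072) (.g (nat_lit 4285) (.e (nat_lit 57377) (nat_lit 3) (.e (nat_lit 98341) (nat_lit 20) (.e (nat_lit 221214) (nat_lit 23) (.e (nat_lit 204863) (nat_lit 27) (.e (nat_lit 344117) (nat_lit 21) (.e (nat_lit 516115) (nat_lit 1) (.e (nat_lit 164179) (nat_lit 154) .nil))))))) (.g (nat_lit 6) .nil .nil))) 
(.lf (nat_lit 149104) (.g (nat_lit 3268) (.e (nat_lit 57377) (nat_lit 3) (.e (nat_lit 98342) (nat_lit 20) (.e (nat_lit 221214) (nat_lit 23) (.e (nat_lit 204862) (nat_lit 27) (.e (nat_lit 344117) (nat_lit 21) (.e (nat_lit 516115) (nat_lit 1) (.e (nat_lit 164179) (nat_lit 154) .nil))))))) (.g (nat_lit 5) .nil .nil))))) (.nd (nat_lit 4) (.nd (nat_lit 5) 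
(.lf (nat_lit 149064) (.g (nat_lit 3457) (.e (nat_lit 57377) (nat_lit 3) (.e (nat_lit 98333) (nat_lit 18) (.e (nat_lit 164327) (nat_lit 230) (.e (nat_lit 163907) (nat_lit 12) (.e (nat_lit 426131) (nat_lit 3) (.e (nat_lit 204852) (nat_lit 26) (.e (nat_lit 336310) (nat_lit 16) (.e (nat_lit 164179) (nat_lit 154) .nil)))))))) (.g (nat_lit 5) .nil .nil))) 
(.lf (nat_lit 149096) (.g (nat_lit 2453) (.e (nat_lit 57377) (nat_lit 3) (.e (nat_lit 98342) (nat_lit 20) (.e (nat_lit 221211) (nat_lit 22) (.e (nat_lit 196666) (nat_lit 13) (.e (nat_lit 65571) (nat_lit 3) (.e (nat_lit 98334) (nat_lit 18) (.e (nat_lit 164176) (nat_lit 154) .nil))))))) (.g (nat_lit 4) .nil .nil)))) (.nd (nat_lit 5) 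
(.lf (nat_lit 149080) (.g (nat_lit 4334) (.e (nat_lit 57377) (nat_lit 3) (.e (nat_lit 98341) (nat_lit 20) (.e (nat_lit 221215) (nat_lit 23) (.e (nat_lit 204861) (nat_lit 26) (.e (nat_lit 336027) (nat_lit 3) (.e (nat_lit 98333) (nat_lit 18) (.e (nat_lit 164179) (nat_lit 154) .nil))))))) (.g (nat_lit 6) .nil .nil))) 
(.lf (nat_lit 149112) (.g (nat_lit 2706) (.e (nat_lit 57377) (nat_lit 3) (.e (nat_lit 98342) (nat_lit 20) (.e (nat_lit 221214) (nat_lit 23) (.e (nat_lit 204880) (nat_lit 32) (.e (nat_lit 385066) (nat_lit 26) (.e (nat_lit 532501) (nat_lit 1) (.e (nat_lit 57852) (nat_lit 252) .nil))))))) (.g (nat_lit 4) .nil .nil)))))) (.nd (nat_lit 3) (.nd (nat_lit 4) (.nd (nat_lit 5) 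
(.lf (nat_lit 149060) (.g (nat_lit 4224) (.e (nat_lit 57377) (nat_lit 3) (.e (nat_lit 106240) (nat_lit 10) (.e (nat_lit 344133) (nat_lit 26) (.e (nat_lit 557105) (nat_lit 14) (.e (nat_lit 180252) (nat_lit 10) (.e (nat_lit 573474) (nat_lit 12) (.e (nat_lit 57356) (nat_lit 0) (.e (nat_lit 5195) (nat_lit 294) .nil)))))))) (.g (nat_lit 6) .nil .nil))) 
(.lf (nat_lit 149092) (.g (nat_lit 3203) (.e (nat_lit 57377) (nat_lit 3) (.e (nat_lit 98342) (nat_lit 20) (.e (nat_lit 221211) (nat_lit 22) (.e (nat_lit 196666) (nat_lit 13) (.e (nat_lit 65569) (nat_lit 3) (.e (nat_lit 98334) (nat_lit 18) (.e (nat_lit 164176) (nat_lit 154) .nil))))))) (.g (nat_lit 5) .nil .nil)))) (.nd (nat_lit 5) 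
(.lf (nat_lit 149076) (.g (nat_lit 2655) (.e (nat_lit 57377) (nat_lit 3) (.e (nat_lit 98341) (nat_lit 20) (.e (nat_lit 221214) (nat_lit 23) (.e (nat_lit 204863) (nat_lit 27) (.e (nat_lit 344120) (nat_lit 21) (.e (nat_lit 516119) (nat_lit 1) (.e (nat_lit 164179) (nat_lit 154) .nil))))))) (.g (nat_lit 4) .nil .nil))) 
(.lf (nat_lit 149108) (.g (nat_lit 3134) (.e (nat_lit 57377) (nat_lit 3) (.e (nat_lit 98342) (nat_lit 20) (.e (nat_lit 221214) (nat_lit 23) (.e (nat_lit 204863) (nat_lit 27) (.e (nat_lit 344118) (nat_lit 21) (.e (nat_lit 516115) (nat_lit 1) (.e (nat_lit 164179) (nat_lit 154) .nil))))))) (.g (nat_lit 4) .nil .nil))))) (.nd (nat_lit 4) (.nd (nat_lit 5) 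
(.lf (nat_lit 149068) (.g (nat_lit 2363) (.e (nat_lit 57377) (nat_lit 3) (.e (nat_lit 98341) (nat_lit 20) (.e (nat_lit 221211) (nat_lit 22) (.e (nat_lit 196666) (nat_lit 13) (.e (nat_lit 65569) (nat_lit 3) .nil))))) .nil)) 
(.lf (nat_lit 149100) (.g (nat_lit 853) (.e (nat_lit 57377) (nat_lit 3) (.e (nat_lit 98342) (nat_lit 20) (.e (nat_lit 221214) (nat_lit 23) .nil))) .nil))) (.nd (nat_lit 5) 
(.lf (nat_lit 149084) (.g (nat_lit 4980) (.e (nat_lit 57377) (nat_lit 3) (.e (nat_lit 98341) (nat_lit 20) (.e (nat_lit 221215) (nat_lit 23) (.e (nat_lit 204863) (nat_lit 27) (.e (nat_lit 344117) (nat_lit 21) (.e (nat_lit 516115) (nat_lit 1) (.e (nat_lit 164179) (nat_lit 154) .nil))))))) (.g (nat_lit 7) .nil .nil))) 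
(.lf (nat_lit 149116) (.g (nat_lit 2375) (.e (nat_lit 57377) (nat_lit 3) (.e (nat_lit 98342) (nat_lit 20) (.e (nat_lit 221215) (nat_lit 23) (.e (nat_lit 204861) (nat_lit 26) (.e (nat_lit 336025) (nat_lit 3) .nil))))) .nil)))))) (.nd (nat_lit 2) (.nd (nat_lit 3) (.nd (nat_lit 4) (.nd (nat_lit 5) 
(.lf (nat_lit 149058) (.g (nat_lit 1817) (.e (nat_lit 57377) (nat_lit 3) (.e (nat_lit 106240) (nat_lit 10) (.e (nat_lit 344132) (nat_lit 26) (.e (nat_lit 557101) (nat_lit 13) (.e (nat_lit 172066) (nat_lit 3) (.e (nat_lit 204824) (nat_lit 17) (.e (nat_lit 1014) (nat_lit 81) (.e (nat_lit 7261) (nat_lit 384) .nil)))))))) (.g (nat_lit 4) .nil .nil))) 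
(.lf (nat_lit 149090) (.g (nat_lit 2645) (.e (nat_lit 57377) (nat_lit 3) (.e (nat_lit 98342) (nat_lit 20) (.e (nat_lit 221211) (nat_lit 22) (.e (nat_lit 196666) (nat_lit 13) (.e (nat_lit 65569) (nat_lit 3) (.e (nat_lit 98333) (nat_lit 18) (.e (nat_lit 164177) (nat_lit 154) .nil))))))) (.g (nat_lit 4) .nil .nil)))) (.nd (nat_lit 5) 
(.lf (nat_lit 149074) (.g (nat_lit 3611) (.e (nat_lit 57377) (nat_lit 3) (.e (nat_lit 98341) (nat_lit 20) (.e (nat_lit 221214) (nat_lit 23) (.e (nat_lit 204863) (nat_lit 27) (.e (nat_lit 344118) (nat_lit 21) (.e (nat_lit 516119) (nat_lit 1) (.e (nat_lit 164179) (nat_lit 154) .nil))))))) (.g (nat_lit 5) .nil .nil))) 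
(.lf (nat_lit 149106) (.g (nat_lit 3991) (.e (nat_lit 57377) (nat_lit 3) (.e (nat_lit 98342) (nat_lit 20) (.e (nat_lit 221214) (nat_lit 23) (.e (nat_lit 204863) (nat_lit 27) (.e (nat_lit 344117) (nat_lit 21) (.e (nat_lit 516115) (nat_lit 1) (.e (nat_lit 164179) (nat_lit 154) .nil))))))) (.g (nat_lit 6) .nil .nil))))) (.nd (nat_lit 4) (.nd (nat_lit 5) 
(.lf (nat_lit 149066) (.g (nat_lit 2117) (.e (nat_lit 57377) (nat_lit 3) (.e (nat_lit 98340) (nat_lit 20) (.e (nat_lit 221215) (nat_lit 23) (.e (nat_lit 204863) (nat_lit 27) (.e (nat_lit 344118) (nat_lit 21) (.e (nat_lit 516119) (nat_lit 1) (.e (nat_lit 164179) (nat_lit 154) .nil))))))) (.g (nat_lit 4) .nil .nil))) 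
(.lf (nat_lit 149098) (.g (nat_lit 1363) (.e (nat_lit 57377) (nat_lit 3) (.e (nat_lit 98342) (nat_lit 20) (.e (nat_lit 221212) (nat_lit 22) (.e (nat_lit 196665) (nat_lit 13) .nil)))) .nil))) (.nd (nat_lit 5) 
(.lf (nat_lit 149082) (.g (nat_lit 3712) (.e (nat_lit 57377) (nat_lit 3) (.e (nat_lit 98341) (nat_lit 20) (.e (nat_lit 221215) (nat_lit 23) (.e (nat_lit 204862) (nat_lit 27) (.e (nat_lit 344117) (nat_lit 21) (.e (nat_lit 516118) (nat_lit 1) (.e (nat_lit 164179) (nat_lit 154) .nil))))))) (.g (nat_lit 5) .nil .nil))) 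
(.lf (nat_lit 149114) (.g (nat_lit 2285) (.e (nat_lit 57377) (nat_lit 3) (.e (nat_lit 98342) (nat_lit 20) (.e (nat_lit 221215) (nat_lit 23) (.e (nat_lit 204861) (nat_lit 26) (.e (nat_lit 336021) (nat_lit 3) .nil))))) .nil))))) (.nd (nat_lit 3) (.nd (nat_lit 4) (.nd (nat_lit 5) 
(.lf (nat_lit 149062) (.g (nat_lit 4700) (.e (nat_lit 57377) (nat_lit 3) (.e (nat_lit 98333) (nat_lit 18) (.e (nat_lit 164325) (nat_lit 230) (.e (nat_lit 163906) (nat_lit 12) (.e (nat_lit 426131) (nat_lit 3) (.e (nat_lit 204852) (nat_lit 26) (.e (nat_lit 336310) (nat_lit 16) (.e (nat_lit 164179) (nat_lit 154) .nil)))))))) (.g (nat_lit 7) .nil .nil))) 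
(.lf (nat_lit 149094) (.g (nat_lit 2477) (.e (nat_lit 57377) (nat_lit 3) (.e (nat_lit 98342) (nat_lit 20) (.e (nat_lit 221211) (nat_lit 22) (.e (nat_lit 196666) (nat_lit 13) (.e (nat_lit 65571) (nat_lit 3) (.e (nat_lit 98333) (nat_lit 18) (.e (nat_lit 164177) (nat_lit 154) .nil))))))) (.g (nat_lit 4) .nil .nil)))) (.nd (nat_lit 5) 
(.lf (nat_lit 149078) (.g (nat_lit 2938) (.e (nat_lit 57377) (nat_lit 3) (.e (nat_lit 98341) (nat_lit 20) (.e (nat_lit 221214) (nat_lit 23) (.e (nat_lit 204880) (nat_lit 32) (.e (nat_lit 385068) (nat_lit 26) (.e (nat_lit 532504) (nat_lit 1) (.e (nat_lit 57852) (nat_lit 252) .nil))))))) (.g (nat_lit 4) .nil .nil))) 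
(.lf (nat_lit 149110) (.g (nat_lit 2678) (.e (nat_lit 57377) (nat_lit 3) (.e (nat_lit 98342) (nat_lit 20) (.e (nat_lit 221214) (nat_lit 23) (.e (nat_lit 204863) (nat_lit 27) (.e (nat_lit 344120) (nat_lit 21) .nil))))) .nil)))) (.nd (nat_lit 4) (.nd (nat_lit 5) 
(.lf (nat_lit 149070) (.g (nat_lit 2550) (.e (nat_lit 57377) (nat_lit 3) (.e (nat_lit 98341) (nat_lit 20) (.e (nat_lit 221211) (nat_lit 22) (.e (nat_lit 196670) (nat_lit 14) (.e (nat_lit 73746) (nat_lit 3) (.e (nat_lit 516119) (nat_lit 1) (.e (nat_lit 164179) (nat_lit 154) .nil))))))) (.g (nat_lit 4) .nil .nil))) 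
(.lf (nat_lit 149102) (.g (nat_lit 2595) (.e (nat_lit 57377) (nat_lit 3) (.e (nat_lit 98342) (nat_lit 20) (.e (nat_lit 221214) (nat_lit 23) (.e (nat_lit 204861) (nat_lit 26) (.e (nat_lit 336026) (nat_lit 3) (.e (nat_lit 98335) (nat_lit 18) (.e (nat_lit 164179) (nat_lit 154) .nil))))))) (.g (nat_lit 4) .nil .nil)))) (.nd (nat_lit 5) 
(.lf (nat_lit 149086) (.g (nat_lit 4327) (.e (nat_lit 57377) (nat_lit 3) (.e (nat_lit 98341) (nat_lit 20) (.e (nat_lit 221215) (nat_lit 23) (.e (nat_lit 204863) (nat_lit 27) (.e (nat_lit 344118) (nat_lit 21) (.e (nat_lit 516119) (nat_lit 1) (.e (nat_lit 164179) (nat_lit 154) .nil))))))) (.g (nat_lit 6) .nil .nil))) 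
(.lf (nat_lit 149118) (.g (nat_lit 2375) (.e (nat_lit 57377) (nat_lit 3) (.e (nat_lit 98342) (nat_lit 20) (.e (nat_lit 221215) (nat_lit 23) (.e (nat_lit 204861) (nat_lit 26) (.e (nat_lit 336027) (nat_lit 3) (.e (nat_lit 98333) (nat_lit 18) (.e (nat_lit 164177) (nat_lit 154) .nil))))))) (.g (nat_lit 4) .nil .nil)))))))) 
(.nd (nat_lit 1) (.nd (nat_lit 2) (.nd (nat_lit 3) (.nd (nat_lit 4) (.nd (nat_lit 5) 
(.lf (nat_lit 149057) (.g (nat_lit 3571) (.e (nat_lit 57377) (nat_lit 3) (.e (nat_lit 106240) (nat_lit 10) (.e (nat_lit 344131) (nat_lit 26) (.e (nat_lit 557105) (nat_lit 14) (.e (nat_lit 180252) (nat_lit 10) (.e (nat_lit 573474) (nat_lit 12) (.e (nat_lit 57356) (nat_lit 0) (.e (nat_lit 5195) (nat_lit 294) .nil)))))))) (.g (nat_lit 6) .nil .nil))) 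
(.lf (nat_lit 149089) (.g (nat_lit 1989) (.e (nat_lit 57377) (nat_lit 3) (.e (nat_lit 98341) (nat_lit 20) (.e (nat_lit 221215) (nat_lit 23) (.e (nat_lit 204880) (nat_lit 32) (.e (nat_lit 385066) (nat_lit 26) .nil))))) .nil))) (.nd (nat_lit 5) 
(.lf (nat_lit 149073) (.g (nat_lit 2534) (.e (nat_lit 57377) (nat_lit 3) (.e (nat_lit 98341) (nat_lit 20) (.e (nat_lit 221214) (nat_lit 23) (.e (nat_lit 204863) (nat_lit 27) (.e (nat_lit 344117) (nat_lit 21) (.e (nat_lit 516118) (nat_lit 1) (.e (nat_lit 164179) (nat_lit 154) .nil))))))) (.g (nat_lit 4) .nil .nil))) 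
(.lf (nat_lit 149105) (.g (nat_lit 2469) (.e (nat_lit 57377) (nat_lit 3) (.e (nat_lit 98342) (nat_lit 20) (.e (nat_lit 221214) (nat_lit 23) (.e (nat_lit 204862) (nat_lit 27) (.e (nat_lit 344117) (nat_lit 21) (.e (nat_lit 516118) (nat_lit 1) (.e (nat_lit 164179) (nat_lit 154) .nil))))))) (.g (nat_lit 4) .nil .nil))))) (.nd (nat_lit 4) (.nd (nat_lit 5) 
(.lf (nat_lit 149065) (.g (nat_lit 1763) (.e (nat_lit 57377) (nat_lit 3) (.e (nat_lit 98333) (nat_lit 18) (.e (nat_lit 164399) (nat_lit 256) (.e (nat_lit 57588) (nat_lit 73) (.e (nat_lit 426139) (nat_lit 3) .nil))))) .nil)) 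
(.lf (nat_lit 149097) (.g (nat_lit 1772) (.e (nat_lit 57377) (nat_lit 3) (.e (nat_lit 98342) (nat_lit 20) (.e (nat_lit 221211) (nat_lit 22) (.e (nat_lit 196670) (nat_lit 14) (.e (nat_lit 73746) (nat_lit 3) .nil))))) .nil))) (.nd (nat_lit 5) 
(.lf (nat_lit 149081) (.g (nat_lit 4743) (.e (nat_lit 57377) (nat_lit 3) (.e (nat_lit 98341) (nat_lit 20) (.e (nat_lit 221215) (nat_lit 23) (.e (nat_lit 204862) (nat_lit 27) (.e (nat_lit 344117) (nat_lit 21) (.e (nat_lit 516115) (nat_lit 1) (.e (nat_lit 164179) (nat_lit 154) .nil))))))) (.g (nat_lit 7) .nil .nil))) 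
(.lf (nat_lit 149113) (.g (nat_lit 2782) (.e (nat_lit 57377) (nat_lit 3) (.e (nat_lit 98342) (nat_lit 20) (.e (nat_lit 221214) (nat_lit 23) (.e (nat_lit 204880) (nat_lit 32) (.e (nat_lit 385068) (nat_lit 26) (.e (nat_lit 532499) (nat_lit 1) (.e (nat_lit 57849) (nat_lit 252) .nil))))))) (.g (nat_lit 4) .nil .nil)))))) (.nd (nat_lit 3) (.nd (nat_lit 4) (.nd (nat_lit 5) 
(.lf (nat_lit 149061) (.g (nat_lit 987) (.e (nat_lit 57377) (nat_lit 3) (.e (nat_lit 98333) (nat_lit 18) (.e (nat_lit 164325) (nat_lit 230) .nil))) .nil)) 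
(.lf (nat_lit 149093) (.g (nat_lit 3191) (.e (nat_lit 57377) (nat_lit 3) (.e (nat_lit 98342) (nat_lit 20) (.e (nat_lit 221211) (nat_lit 22) (.e (nat_lit 196666) (nat_lit 13) (.e (nat_lit 65570) (nat_lit 3) (.e (nat_lit 98333) (nat_lit 18) (.e (nat_lit 164179) (nat_lit 154) .nil))))))) (.g (nat_lit 4) .nil .nil)))) (.nd (nat_lit 5) 
(.lf (nat_lit 149077) (.g (nat_lit 2613) (.e (nat_lit 57377) (nat_lit 3) (.e (nat_lit 98341) (nat_lit 20) (.e (nat_lit 221214) (nat_lit 23) (.e (nat_lit 204880) (nat_lit 32) (.e (nat_lit 385066) (nat_lit 26) (.e (nat_lit 532501) (nat_lit 1) (.e (nat_lit 57852) (nat_lit 252) .nil))))))) (.g (nat_lit 4) .nil .nil))) 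
(.lf (nat_lit 149109) (.g (nat_lit 3553) (.e (nat_lit 57377) (nat_lit 3) (.e (nat_lit 98342) (nat_lit 20) (.e (nat_lit 221214) (nat_lit 23) (.e (nat_lit 204863) (nat_lit 27) (.e (nat_lit 344118) (nat_lit 21) (.e (nat_lit 516119) (nat_lit 1) (.e (nat_lit 164179) (nat_lit 154) .nil))))))) (.g (nat_lit 5) .nil .nil))))) (.nd (nat_lit 4) (.nd (nat_lit 5) 
(.lf (nat_lit 149069) (.g (nat_lit 4769) (.e (nat_lit 57377) (nat_lit 3) (.e (nat_lit 98341) (nat_lit 20) (.e (nat_lit 221211) (nat_lit 22) (.e (nat_lit 196666) (nat_lit 13) (.e (nat_lit 65569) (nat_lit 3) (.e (nat_lit 98333) (nat_lit 18) (.e (nat_lit 164179) (nat_lit 154) .nil))))))) (.g (nat_lit 6) .nil .nil))) 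
(.lf (nat_lit 149101) (.g (nat_lit 2605) (.e (nat_lit 57377) (nat_lit 3) (.e (nat_lit 98342) (nat_lit 20) (.e (nat_lit 221214) (nat_lit 23) (.e (nat_lit 204852) (nat_lit 26) (.e (nat_lit 336326) (nat_lit 18) (.e (nat_lit 204830) (nat_lit 18) (.e (nat_lit 57852) (nat_lit 252) .nil))))))) (.g (nat_lit 4) .nil .nil)))) (.nd (nat_lit 5) 
(.lf (nat_lit 149085) (.g (nat_lit 2494) (.e (nat_lit 57377) (nat_lit 3) (.e (nat_lit 98341) (nat_lit 20) (.e (nat_lit 221215) (nat_lit 23) (.e (nat_lit 204863) (nat_lit 27) (.e (nat_lit 344118) (nat_lit 21) .nil))))) .nil)) 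
(.lf (nat_lit 149117) (.g (nat_lit 3009) (.e (nat_lit 57377) (nat_lit 3) (.e (nat_lit 98342) (nat_lit 20) (.e (nat_lit 221215) (nat_lit 23) (.e (nat_lit 204861) (nat_lit 26) (.e (nat_lit 336025) (nat_lit 3) (.e (nat_lit 98335) (nat_lit 18) (.e (nat_lit 164179) (nat_lit 154) .nil))))))) (.g (nat_lit 4) .nil .nil))))))) (.nd (nat_lit 2) (.nd (nat_lit 3) (.nd (nat_lit 4) (.nd (nat_lit 5) 
(.lf (nat_lit 149059) (.g (nat_lit 3899) (.e (nat_lit 57377) (nat_lit 3) (.e (nat_lit 106240) (nat_lit 10) (.e (nat_lit 344132) (nat_lit 26) (.e (nat_lit 557105) (nat_lit 14) (.e (nat_lit 180252) (nat_lit 10) (.e (nat_lit 573474) (nat_lit 12) (.e (nat_lit 57356) (nat_lit 0) (.e (nat_lit 5195) (nat_lit 294) .nil)))))))) (.g (nat_lit 6) .nil .nil))) 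
(.lf (nat_lit 149091) (.g (nat_lit 4924) (.e (nat_lit 57377) (nat_lit 3) (.e (nat_lit 98342) (nat_lit 20) (.e (nat_lit 221211) (nat_lit 22) (.e (nat_lit 196666) (nat_lit 13) (.e (nat_lit 65569) (nat_lit 3) (.e (nat_lit 98333) (nat_lit 18) (.e (nat_lit 164179) (nat_lit 154) .nil))))))) (.g (nat_lit 7) .nil .nil)))) (.nd (nat_lit 5) 
(.lf (nat_lit 149075) (.g (nat_lit 3128) (.e (nat_lit 57377) (nat_lit 3) (.e (nat_lit 98341) (nat_lit 20) (.e (nat_lit 221214) (nat_lit 23) (.e (nat_lit 204863) (nat_lit 27) (.e (nat_lit 344120) (nat_lit 21) (.e (nat_lit 516115) (nat_lit 1) (.e (nat_lit 164179) (nat_lit 154) .nil))))))) (.g (nat_lit 4) .nil .nil))) 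
(.lf (nat_lit 149107) (.g (nat_lit 2529) (.e (nat_lit 57377) (nat_lit 3) (.e (nat_lit 98342) (nat_lit 20) (.e (nat_lit 221214) (nat_lit 23) (.e (nat_lit 204863) (nat_lit 27) (.e (nat_lit 344117) (nat_lit 21) (.e (nat_lit 516118) (nat_lit 1) (.e (nat_lit 164179) (nat_lit 154) .nil))))))) (.g (nat_lit 4) .nil .nil))))) (.nd (nat_lit 4) (.nd (nat_lit 5) 
(.lf (nat_lit 149067) (.g (nat_lit 2227) (.e (nat_lit 57377) (nat_lit 3) (.e (nat_lit 98341) (nat_lit 20) (.e (nat_lit 221210) (nat_lit 22) (.e (nat_lit 196665) (nat_lit 13) (.e (nat_lit 65561) (nat_lit 0) .nil))))) .nil)) 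
(.lf (nat_lit 149099) (.g (nat_lit 2674) (.e (nat_lit 57377) (nat_lit 3) (.e (nat_lit 98342) (nat_lit 20) (.e (nat_lit 221212) (nat_lit 22) (.e (nat_lit 196666) (nat_lit 13) (.e (nat_lit 65569) (nat_lit 3) .nil))))) .nil))) (.nd (nat_lit 5) 
(.lf (nat_lit 149083) (.g (nat_lit 3078) (.e (nat_lit 57377) (nat_lit 3) (.e (nat_lit 98341) (nat_lit 20) (.e (nat_lit 221215) (nat_lit 23) (.e (nat_lit 204862) (nat_lit 27) (.e (nat_lit 344118) (nat_lit 21) (.e (nat_lit 516119) (nat_lit 1) (.e (nat_lit 164179) (nat_lit 154) .nil))))))) (.g (nat_lit 5) .nil .nil))) 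
(.lf (nat_lit 149115) (.g (nat_lit 4978) (.e (nat_lit 57377) (nat_lit 3) (.e (nat_lit 98342) (nat_lit 20) (.e (nat_lit 221215) (nat_lit 23) (.e (nat_lit 204861) (nat_lit 26) (.e (nat_lit 336021) (nat_lit 3) (.e (nat_lit 98333) (nat_lit 18) (.e (nat_lit 164179) (nat_lit 154) .nil))))))) (.g (nat_lit 0) .nil .nil)))))) (.nd (nat_lit 3) (.nd (nat_lit 4) (.nd (nat_lit 5) 
(.lf (nat_lit 149063) (.g (nat_lit 1936) (.e (nat_lit 57377) (nat_lit 3) (.e (nat_lit 98333) (nat_lit 18) (.e (nat_lit 164325) (nat_lit 230) (.e (nat_lit 163944) (nat_lit 19) .nil)))) .nil)) 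
(.lf (nat_lit 149095) (.g (nat_lit 4705) (.e (nat_lit 57377) (nat_lit 3) (.e (nat_lit 98342) (nat_lit 20) (.e (nat_lit 221211) (nat_lit 22) (.e (nat_lit 196666) (nat_lit 13) (.e (nat_lit 65571) (nat_lit 3) (.e (nat_lit 98333) (nat_lit 18) (.e (nat_lit 164179) (nat_lit 154) .nil))))))) (.g (nat_lit 7) .nil .nil)))) (.nd (nat_lit 5) 
(.lf (nat_lit 149079) (.g (nat_lit 2874) (.e (nat_lit 57377) (nat_lit 3) (.e (nat_lit 98341) (nat_lit 20) (.e (nat_lit 221215) (nat_lit 23) (.e (nat_lit 204859) (nat_lit 26) (.e (nat_lit 336017) (nat_lit 3) (.e (nat_lit 98333) (nat_lit 18) (.e (nat_lit 164179) (nat_lit 154) .nil))))))) (.g (nat_lit 4) .nil .nil))) 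
(.lf (nat_lit 149111) (.g (nat_lit 2833) (.e (nat_lit 57377) (nat_lit 3) (.e (nat_lit 98342) (nat_lit 20) (.e (nat_lit 221214) (nat_lit 23) (.e (nat_lit 204863) (nat_lit 27) (.e (nat_lit 344120) (nat_lit 21) (.e (nat_lit 516115) (nat_lit 1) (.e (nat_lit 164179) (nat_lit 154) .nil))))))) (.g (nat_lit 4) .nil .nil))))) (.nd (nat_lit 4) (.nd (nat_lit 5) 
(.lf (nat_lit 149071) (.g (nat_lit 2708) (.e (nat_lit 57377) (nat_lit 3) (.e (nat_lit 98341) (nat_lit 20) (.e (nat_lit 221214) (nat_lit 23) (.e (nat_lit 204861) (nat_lit 26) (.e (nat_lit 336026) (nat_lit 3) (.e (nat_lit 98335) (nat_lit 18) (.e (nat_lit 164179) (nat_lit 154) .nil))))))) (.g (nat_lit 4) .nil .nil))) 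
(.lf (nat_lit 149103) (.g (nat_lit 3017) (.e (nat_lit 57377) (nat_lit 3) (.e (nat_lit 98342) (nat_lit 20) (.e (nat_lit 221214) (nat_lit 23) (.e (nat_lit 204861) (nat_lit 26) (.e (nat_lit 336027) (nat_lit 3) (.e (nat_lit 98333) (nat_lit 18) (.e (nat_lit 164179) (nat_lit 154) .nil))))))) (.g (nat_lit 4) .nil .nil)))) (.nd (nat_lit 5) 
(.lf (nat_lit 149087) (.g (nat_lit 2522) (.e (nat_lit 57377) (nat_lit 3) (.e (nat_lit 98341) (nat_lit 20) (.e (nat_lit 221215) (nat_lit 23) (.e (nat_lit 204863) (nat_lit 27) (.e (nat_lit 344120) (nat_lit 21) .nil))))) .nil)) 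
(.lf (nat_lit 149119) (.g (nat_lit 4546) (.e (nat_lit 57377) (nat_lit 3) (.e (nat_lit 98342) (nat_lit 20) (.e (nat_lit 221215) (nat_lit 23) (.e (nat_lit 204861) (nat_lit 26) (.e (nat_lit 336027) (nat_lit 3) (.e (nat_lit 98333) (nat_lit 18) (.e (nat_lit 164179) (nat_lit 154) .nil))))))) (.g (nat_lit 6) .nil .nil)))))))))

noncomputable def tv1986 : DT := (.nd (nat_lit 0) (.nd (nat_lit 1) (.nd (nat_lit 2) (.nd (nat_lit 3) (.nd (nat_lit 4) (.nd (nat_lit 5) 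
(.lf (nat_lit 149120) (.g (nat_lit 2143) (.e (nat_lit 57377) (nat_lit 3) (.e (nat_lit 98342) (nat_lit 20) (.e (nat_lit 221215) (nat_lit 23) (.e (nat_lit 204862) (nat_lit 27) (.e (nat_lit 344116) (nat_lit 21) (.e (nat_lit 516119) (nat_lit 1) (.e (nat_lit 164179) (nat_lit 154) .nil))))))) (.g (nat_lit 4) .nil .nil))) 
(.lf (nat_lit 149152) (.g (nat_lit 2604) (.e (nat_lit 57377) (nat_lit 3) (.e (nat_lit 98357) (nat_lit 26) (.e (nat_lit 426131) (nat_lit 3) (.e (nat_lit 204838) (nat_lit 20) (.e (nat_lit 114719) (nat_lit 23) (.e (nat_lit 98333) (nat_lit 18) (.e (nat_lit 164398) (nat_lit 256) .nil))))))) (.g (nat_lit 4) .nil .nil)))) (.nd (nat_lit 5) 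
(.lf (nat_lit 149136) (.g (nat_lit 2555) (.e (nat_lit 57377) (nat_lit 3) (.e (nat_lit 98355) (nat_lit 26) (.e (nat_lit 426131) (nat_lit 3) (.e (nat_lit 204837) (nat_lit 20) (.e (nat_lit 114718) (nat_lit 23) (.e (nat_lit 98333) (nat_lit 18) (.e (nat_lit 164399) (nat_lit 256) .nil))))))) (.g (nat_lit 4) .nil .nil))) 
(.lf (nat_lit 149168) (.g (nat_lit 1448) (.e (nat_lit 57377) (nat_lit 3) (.e (nat_lit 98365) (nat_lit 26) (.e (nat_lit 426187) (nat_lit 9) (.e (nat_lit 426478) (nat_lit 27) (.e (nat_lit 336417) (nat_lit 27) .nil))))) .nil)))) (.nd (nat_lit 4) (.nd (nat_lit 5) 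
(.lf (nat_lit 149128) (.g (nat_lit 2252) (.e (nat_lit 57377) (nat_lit 3) (.e (nat_lit 98342) (nat_lit 20) (.e (nat_lit 221215) (nat_lit 23) (.e (nat_lit 204863) (nat_lit 27) (.e (nat_lit 344118) (nat_lit 21) .nil))))) .nil)) 
(.lf (nat_lit 149160) (.g (nat_lit 3574) (.e (nat_lit 57377) (nat_lit 3) (.e (nat_lit 98358) (nat_lit 26) (.e (nat_lit 426131) (nat_lit 3) (.e (nat_lit 204838) (nat_lit 20) (.e (nat_lit 114719) (nat_lit 23) (.e (nat_lit 98334) (nat_lit 18) (.e (nat_lit 164399) (nat_lit 256) .nil))))))) (.g (nat_lit 4) .nil .nil)))) (.nd (nat_lit 5) 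
(.lf (nat_lit 149144) (.g (nat_lit 3716) (.e (nat_lit 57377) (nat_lit 3) (.e (nat_lit 98357) (nat_lit 26) (.e (nat_lit 426131) (nat_lit 3) (.e (nat_lit 204837) (nat_lit 20) (.e (nat_lit 114718) (nat_lit 23) (.e (nat_lit 98334) (nat_lit 18) (.e (nat_lit 164399) (nat_lit 256) .nil))))))) (.g (nat_lit 6) .nil .nil))) 
(.lf (nat_lit 149176) (.g (nat_lit 2745) (.e (nat_lit 57377) (nat_lit 3) (.e (nat_lit 98365) (nat_lit 26) (.e (nat_lit 426187) (nat_lit 9) (.e (nat_lit 426566) (nat_lit 34) (.e (nat_lit 393254) (nat_lit 18) (.e (nat_lit 164402) (nat_lit 256) .nil)))))) (.g (nat_lit 0) .nil .nil)))))) (.nd (nat_lit 3) (.nd (nat_lit 4) (.nd (nat_lit 5) 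
(.lf (nat_lit 149124) (.g (nat_lit 2146) (.e (nat_lit 57377) (nat_lit 3) (.e (nat_lit 98342) (nat_lit 20) (.e (nat_lit 221215) (nat_lit 23) (.e (nat_lit 204862) (nat_lit 27) (.e (nat_lit 344119) (nat_lit 21) (.e (nat_lit 516119) (nat_lit 1) (.e (nat_lit 164179) (nat_lit 154) .nil))))))) (.g (nat_lit 4) .nil .nil))) 
(.lf (nat_lit 149156) (.g (nat_lit 2311) (.e (nat_lit 57377) (nat_lit 3) (.e (nat_lit 98358) (nat_lit 26) (.e (nat_lit 426131) (nat_lit 3) (.e (nat_lit 204838) (nat_lit 20) .nil)))) .nil))) (.nd (nat_lit 5) 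
(.lf (nat_lit 149140) (.g (nat_lit 3230) (.e (nat_lit 57377) (nat_lit 3) (.e (nat_lit 98355) (nat_lit 26) (.e (nat_lit 426131) (nat_lit 3) (.e (nat_lit 204838) (nat_lit 20) (.e (nat_lit 114719) (nat_lit 23) (.e (nat_lit 98334) (nat_lit 18) (.e (nat_lit 164399) (nat_lit 256) .nil))))))) (.g (nat_lit 5) .nil .nil))) 
(.lf (nat_lit 149172) (.g (nat_lit 1465) (.e (nat_lit 57377) (nat_lit 3) (.e (nat_lit 98365) (nat_lit 26) (.e (nat_lit 426187) (nat_lit 9) (.e (nat_lit 426566) (nat_lit 34) (.e (nat_lit 393250) (nat_lit 18) .nil))))) .nil)))) (.nd (nat_lit 4) (.nd (nat_lit 5) 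
(.lf (nat_lit 149132) (.g (nat_lit 1661) (.e (nat_lit 57377) (nat_lit 3) (.e (nat_lit 98342) (nat_lit 20) (.e (nat_lit 221215) (nat_lit 23) (.e (nat_lit 204879) (nat_lit 32) .nil)))) .nil)) 
(.lf (nat_lit 149164) (.g (nat_lit 2470) (.e (nat_lit 57377) (nat_lit 3) (.e (nat_lit 98359) (nat_lit 26) (.e (nat_lit 426324) (nat_lit 13) (.e (nat_lit 483341) (nat_lit 9) (.e (nat_lit 426107) (nat_lit 1) (.e (nat_lit 164403) (nat_lit 256) .nil)))))) (.g (nat_lit 4) .nil .nil)))) (.nd (nat_lit 5) 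
(.lf (nat_lit 149148) (.g (nat_lit 2682) (.e (nat_lit 57377) (nat_lit 3) (.e (nat_lit 98357) (nat_lit 26) (.e (nat_lit 426131) (nat_lit 3) (.e (nat_lit 204838) (nat_lit 20) (.e (nat_lit 114718) (nat_lit 23) (.e (nat_lit 98333) (nat_lit 18) (.e (nat_lit 164398) (nat_lit 256) .nil))))))) (.g (nat_lit 4) .nil .nil))) 
(.lf (nat_lit 149180) (.g (nat_lit 1229) (.e (nat_lit 57377) (nat_lit 3) (.e (nat_lit 98365) (nat_lit 26) (.e (nat_lit 426188) (nat_lit 9) (.e (nat_lit 426479) (nat_lit 27) .nil)))) .nil)))))) (.nd (nat_lit 2) (.nd (nat_lit 3) (.nd (nat_lit 4) (.nd (nat_lit 5) 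
(.lf (nat_lit 149122) (.g (nat_lit 4466) (.e (nat_lit 57377) (nat_lit 3) (.e (nat_lit 98342) (nat_lit 20) (.e (nat_lit 221215) (nat_lit 23) (.e (nat_lit 204862) (nat_lit 27) (.e (nat_lit 344117) (nat_lit 21) (.e (nat_lit 516115) (nat_lit 1) (.e (nat_lit 164179) (nat_lit 154) .nil))))))) (.g (nat_lit 7) .nil .nil))) 
(.lf (nat_lit 149154) (.g (nat_lit 2497) (.e (nat_lit 57377) (nat_lit 3) (.e (nat_lit 98357) (nat_lit 26) (.e (nat_lit 426131) (nat_lit 3) (.e (nat_lit 204838) (nat_lit 20) (.e (nat_lit 114719) (nat_lit 23) (.e (nat_lit 98334) (nat_lit 18) (.e (nat_lit 164396) (nat_lit 256) .nil))))))) (.g (nat_lit 4) .nil .nil)))) (.nd (nat_lit 5) 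
(.lf (nat_lit 149138) (.g (nat_lit 3335) (.e (nat_lit 57377) (nat_lit 3) (.e (nat_lit 98355) (nat_lit 26) (.e (nat_lit 426131) (nat_lit 3) (.e (nat_lit 204838) (nat_lit 20) (.e (nat_lit 114718) (nat_lit 23) (.e (nat_lit 98333) (nat_lit 18) (.e (nat_lit 164399) (nat_lit 256) .nil))))))) (.g (nat_lit 5) .nil .nil))) 
(.lf (nat_lit 149170) (.g (nat_lit 1866) (.e (nat_lit 57377) (nat_lit 3) (.e (nat_lit 98365) (nat_lit 26) (.e (nat_lit 426187) (nat_lit 9) (.e (nat_lit 426566) (nat_lit 34) (.e (nat_lit 393235) (nat_lit 17) .nil))))) .nil)))) (.nd (nat_lit 4) (.nd (nat_lit 5) 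
(.lf (nat_lit 149130) (.g (nat_lit 4312) (.e (nat_lit 57377) (nat_lit 3) (.e (nat_lit 98342) (nat_lit 20) (.e (nat_lit 221215) (nat_lit 23) (.e (nat_lit 204863) (nat_lit 27) (.e (nat_lit 344118) (nat_lit 21) (.e (nat_lit 516119) (nat_lit 1) (.e (nat_lit 164179) (nat_lit 154) .nil))))))) (.g (nat_lit 7) .nil .nil))) 
(.lf (nat_lit 149162) (.g (nat_lit 964) (.e (nat_lit 57377) (nat_lit 3) (.e (nat_lit 98359) (nat_lit 26) (.e (nat_lit 426194) (nat_lit 9) .nil))) .nil))) (.nd (nat_lit 5) 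
(.lf (nat_lit 149146) (.g (nat_lit 2106) (.e (nat_lit 57377) (nat_lit 3) (.e (nat_lit 98357) (nat_lit 26) (.e (nat_lit 426131) (nat_lit 3) (.e (nat_lit 204837) (nat_lit 20) (.e (nat_lit 114719) (nat_lit 23) (.e (nat_lit 98334) (nat_lit 18) (.e (nat_lit 164401) (nat_lit 256) .nil))))))) (.g (nat_lit 4) .nil .nil))) 
(.lf (nat_lit 149178) (.g (nat_lit 394) (.e (nat_lit 57377) (nat_lit 3) (.e (nat_lit 98365) (nat_lit 26) (.e (nat_lit 426188) (nat_lit 9) .nil))) .nil))))) (.nd (nat_lit 3) (.nd (nat_lit 4) (.nd (nat_lit 5) 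
(.lf (nat_lit 149126) (.g (nat_lit 4799) (.e (nat_lit 57377) (nat_lit 3) (.e (nat_lit 98342) (nat_lit 20) (.e (nat_lit 221215) (nat_lit 23) (.e (nat_lit 204863) (nat_lit 27) (.e (nat_lit 344117) (nat_lit 21) (.e (nat_lit 516115) (nat_lit 1) (.e (nat_lit 164179) (nat_lit 154) .nil))))))) (.g (nat_lit 7) .nil .nil))) 
(.lf (nat_lit 149158) (.g (nat_lit 3592) (.e (nat_lit 57377) (nat_lit 3) (.e (nat_lit 98358) (nat_lit 26) (.e (nat_lit 426131) (nat_lit 3) (.e (nat_lit 204838) (nat_lit 20) (.e (nat_lit 114718) (nat_lit 23) (.e (nat_lit 98334) (nat_lit 18) (.e (nat_lit 164399) (nat_lit 256) .nil))))))) (.g (nat_lit 4) .nil .nil)))) (.nd (nat_lit 5) 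
(.lf (nat_lit 149142) (.g (nat_lit 2818) (.e (nat_lit 57377) (nat_lit 3) (.e (nat_lit 98356) (nat_lit 26) (.e (nat_lit 426131) (nat_lit 3) (.e (nat_lit 204838) (nat_lit 20) (.e (nat_lit 114719) (nat_lit 23) (.e (nat_lit 98333) (nat_lit 18) (.e (nat_lit 164399) (nat_lit 256) .nil))))))) (.g (nat_lit 4) .nil .nil))) 
(.lf (nat_lit 149174) (.g (nat_lit 1837) (.e (nat_lit 57377) (nat_lit 3) (.e (nat_lit 98365) (nat_lit 26) (.e (nat_lit 426187) (nat_lit 9) (.e (nat_lit 426566) (nat_lit 34) (.e (nat_lit 393252) (nat_lit 18) (.e (nat_lit 164400) (nat_lit 256) .nil)))))) (.g (nat_lit 4) .nil .nil))))) (.nd (nat_lit 4) (.nd (nat_lit 5) 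
(.lf (nat_lit 149134) (.g (nat_lit 2901) (.e (nat_lit 57377) (nat_lit 3) (.e (nat_lit 98342) (nat_lit 20) (.e (nat_lit 221215) (nat_lit 23) (.e (nat_lit 204880) (nat_lit 32) (.e (nat_lit 385066) (nat_lit 26) (.e (nat_lit 532501) (nat_lit 1) (.e (nat_lit 57852) (nat_lit 252) .nil))))))) (.g (nat_lit 4) .nil .nil))) 
(.lf (nat_lit 149166) (.g (nat_lit 370) (.e (nat_lit 57377) (nat_lit 3) (.e (nat_lit 98365) (nat_lit 26) (.e (nat_lit 426187) (nat_lit 9) .nil))) .nil))) (.nd (nat_lit 5) 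
(.lf (nat_lit 149150) (.g (nat_lit 2593) (.e (nat_lit 57377) (nat_lit 3) (.e (nat_lit 98357) (nat_lit 26) (.e (nat_lit 426131) (nat_lit 3) (.e (nat_lit 204838) (nat_lit 20) (.e (nat_lit 114718) (nat_lit 23) (.e (nat_lit 98334) (nat_lit 18) (.e (nat_lit 164402) (nat_lit 256) .nil))))))) (.g (nat_lit 4) .nil .nil))) 
(.lf (nat_lit 149182) (.g (nat_lit 1334) (.e (nat_lit 57377) (nat_lit 3) (.e (nat_lit 98365) (nat_lit 26) (.e (nat_lit 426188) (nat_lit 9) (.e (nat_lit 426484) (nat_lit 27) .nil)))) .nil))))))) (.nd (nat_lit 1) (.nd (nat_lit 2) (.nd (nat_lit 3) (.nd (nat_lit 4) (.nd (nat_lit 5) 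
(.lf (nat_lit 149121) (.g (nat_lit 2224) (.e (nat_lit 57377) (nat_lit 3) (.e (nat_lit 98342) (nat_lit 20) (.e (nat_lit 221215) (nat_lit 23) (.e (nat_lit 204862) (nat_lit 27) (.e (nat_lit 344117) (nat_lit 21) (.e (nat_lit 516115) (nat_lit 1) (.e (nat_lit 164177) (nat_lit 154) .nil))))))) (.g (nat_lit 4) .nil .nil))) 
(.lf (nat_lit 149153) (.g (nat_lit 2250) (.e (nat_lit 57377) (nat_lit 3) (.e (nat_lit 98357) (nat_lit 26) (.e (nat_lit 426131) (nat_lit 3) (.e (nat_lit 204838) (nat_lit 20) (.e (nat_lit 114719) (nat_lit 23) (.e (nat_lit 98333) (nat_lit 18) (.e (nat_lit 164402) (nat_lit 256) .nil))))))) (.g (nat_lit 4) .nil .nil)))) (.nd (nat_lit 5) 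
(.lf (nat_lit 149137) (.g (nat_lit 2659) (.e (nat_lit 57377) (nat_lit 3) (.e (nat_lit 98355) (nat_lit 26) (.e (nat_lit 426131) (nat_lit 3) (.e (nat_lit 204837) (nat_lit 20) (.e (nat_lit 114718) (nat_lit 23) (.e (nat_lit 98334) (nat_lit 18) (.e (nat_lit 164399) (nat_lit 256) .nil))))))) (.g (nat_lit 4) .nil .nil))) 
(.lf (nat_lit 149169) (.g (nat_lit 1357) (.e (nat_lit 57377) (nat_lit 3) (.e (nat_lit 98365) (nat_lit 26) (.e (nat_lit 426187) (nat_lit 9) (.e (nat_lit 426566) (nat_lit 34) (.e (nat_lit 393233) (nat_lit 17) .nil))))) .nil)))) (.nd (nat_lit 4) (.nd (nat_lit 5) 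
(.lf (nat_lit 149129) (.g (nat_lit 2680) (.e (nat_lit 57377) (nat_lit 3) (.e (nat_lit 98342) (nat_lit 20) (.e (nat_lit 221215) (nat_lit 23) (.e (nat_lit 204863) (nat_lit 27) (.e (nat_lit 344118) (nat_lit 21) (.e (nat_lit 516119) (nat_lit 1) (.e (nat_lit 164176) (nat_lit 154) .nil))))))) (.g (nat_lit 4) .nil .nil))) 
(.lf (nat_lit 149161) (.g (nat_lit 3445) (.e (nat_lit 57377) (nat_lit 3) (.e (nat_lit 98358) (nat_lit 26) (.e (nat_lit 426131) (nat_lit 3) (.e (nat_lit 204838) (nat_lit 20) (.e (nat_lit 114719) (nat_lit 23) (.e (nat_lit 98335) (nat_lit 18) (.e (nat_lit 164403) (nat_lit 256) .nil))))))) (.g (nat_lit 4) .nil .nil)))) (.nd (nat_lit 5) 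
(.lf (nat_lit 149145) (.g (nat_lit 2648) (.e (nat_lit 57377) (nat_lit 3) (.e (nat_lit 98357) (nat_lit 26) (.e (nat_lit 426131) (nat_lit 3) (.e (nat_lit 204837) (nat_lit 20) (.e (nat_lit 114718) (nat_lit 23) (.e (nat_lit 98334) (nat_lit 18) (.e (nat_lit 164401) (nat_lit 256) .nil))))))) (.g (nat_lit 4) .nil .nil))) 
(.lf (nat_lit 149177) (.g (nat_lit 1552) (.e (nat_lit 57377) (nat_lit 3) (.e (nat_lit 98365) (nat_lit 26) (.e (nat_lit 426187) (nat_lit 9) (.e (nat_lit 426566) (nat_lit 34) (.e (nat_lit 393256) (nat_lit 19) (.e (nat_lit 229708) (nat_lit 256) .nil)))))) (.g (nat_lit 4) .nil .nil)))))) (.nd (nat_lit 3) (.nd (nat_lit 4) (.nd (nat_lit 5) 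
(.lf (nat_lit 149125) (.g (nat_lit 2467) (.e (nat_lit 57377) (nat_lit 3) (.e (nat_lit 98342) (nat_lit 20) (.e (nat_lit 221215) (nat_lit 23) (.e (nat_lit 204863) (nat_lit 27) (.e (nat_lit 344117) (nat_lit 21) (.e (nat_lit 516115) (nat_lit 1) (.e (nat_lit 164177) (nat_lit 154) .nil))))))) (.g (nat_lit 4) .nil .nil))) 
(.lf (nat_lit 149157) (.g (nat_lit 3667) (.e (nat_lit 57377) (nat_lit 3) (.e (nat_lit 98358) (nat_lit 26) (.e (nat_lit 426131) (nat_lit 3) (.e (nat_lit 204838) (nat_lit 20) (.e (nat_lit 114718) (nat_lit 23) (.e (nat_lit 98333) (nat_lit 18) (.e (nat_lit 164399) (nat_lit 256) .nil))))))) (.g (nat_lit 4) .nil .nil)))) (.nd (nat_lit 5) 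
(.lf (nat_lit 149141) (.g (nat_lit 2913) (.e (nat_lit 57377) (nat_lit 3) (.e (nat_lit 98356) (nat_lit 26) (.e (nat_lit 426131) (nat_lit 3) (.e (nat_lit 204838) (nat_lit 20) (.e (nat_lit 114718) (nat_lit 23) (.e (nat_lit 98333) (nat_lit 18) (.e (nat_lit 164399) (nat_lit 256) .nil))))))) (.g (nat_lit 4) .nil .nil))) 
(.lf (nat_lit 149173) (.g (nat_lit 3435) (.e (nat_lit 57377) (nat_lit 3) (.e (nat_lit 98365) (nat_lit 26) (.e (nat_lit 426187) (nat_lit 9) (.e (nat_lit 426566) (nat_lit 34) (.e (nat_lit 393251) (nat_lit 18) (.e (nat_lit 164402) (nat_lit 256) .nil)))))) (.g (nat_lit 0) .nil .nil))))) (.nd (nat_lit 4) (.nd (nat_lit 5) 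
(.lf (nat_lit 149133) (.g (nat_lit 2526) (.e (nat_lit 57377) (nat_lit 3) (.e (nat_lit 98342) (nat_lit 20) (.e (nat_lit 221215) (nat_lit 23) (.e (nat_lit 204880) (nat_lit 32) (.e (nat_lit 385066) (nat_lit 26) (.e (nat_lit 532499) (nat_lit 1) (.e (nat_lit 57849) (nat_lit 252) .nil))))))) (.g (nat_lit 4) .nil .nil))) 
(.lf (nat_lit 149165) (.g (nat_lit 2478) (.e (nat_lit 57377) (nat_lit 3) (.e (nat_lit 98359) (nat_lit 26) (.e (nat_lit 426324) (nat_lit 13) (.e (nat_lit 483341) (nat_lit 9) (.e (nat_lit 426108) (nat_lit 1) (.e (nat_lit 164403) (nat_lit 256) .nil)))))) (.g (nat_lit 4) .nil .nil)))) (.nd (nat_lit 5) 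
(.lf (nat_lit 149149) (.g (nat_lit 2291) (.e (nat_lit 57377) (nat_lit 3) (.e (nat_lit 98357) (nat_lit 26) (.e (nat_lit 426131) (nat_lit 3) (.e (nat_lit 204838) (nat_lit 20) (.e (nat_lit 114718) (nat_lit 23) (.e (nat_lit 98333) (nat_lit 18) (.e (nat_lit 164402) (nat_lit 256) .nil))))))) (.g (nat_lit 4) .nil .nil))) 
(.lf (nat_lit 149181) (.g (nat_lit 2032) (.e (nat_lit 57377) (nat_lit 3) (.e (nat_lit 98365) (nat_lit 26) (.e (nat_lit 426188) (nat_lit 9) (.e (nat_lit 426481) (nat_lit 27) (.e (nat_lit 336388) (nat_lit 27) (.e (nat_lit 426100) (nat_lit 1) (.e (nat_lit 164399) (nat_lit 256) .nil))))))) (.g (nat_lit 4) .nil .nil))))))) (.nd (nat_lit 2) (.nd (nat_lit 3) (.nd (nat_lit 4) (.nd (nat_lit 5) 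
(.lf (nat_lit 149123) (.g (nat_lit 1896) (.e (nat_lit 57377) (nat_lit 3) (.e (nat_lit 98342) (nat_lit 20) (.e (nat_lit 221215) (nat_lit 23) (.e (nat_lit 204862) (nat_lit 27) (.e (nat_lit 344119) (nat_lit 21) .nil))))) .nil)) 
(.lf (nat_lit 149155) (.g (nat_lit 2281) (.e (nat_lit 57377) (nat_lit 3) (.e (nat_lit 98358) (nat_lit 26) (.e (nat_lit 426131) (nat_lit 3) (.e (nat_lit 204837) (nat_lit 20) .nil)))) .nil))) (.nd (nat_lit 5) 
(.lf (nat_lit 149139) (.g (nat_lit 3240) (.e (nat_lit 57377) (nat_lit 3) (.e (nat_lit 98355) (nat_lit 26) (.e (nat_lit 426131) (nat_lit 3) (.e (nat_lit 204838) (nat_lit 20) (.e (nat_lit 114719) (nat_lit 23) (.e (nat_lit 98333) (nat_lit 18) (.e (nat_lit 164399) (nat_lit 256) .nil))))))) (.g (nat_lit 5) .nil .nil))) 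
(.lf (nat_lit 149171) (.g (nat_lit 1890) (.e (nat_lit 57377) (nat_lit 3) (.e (nat_lit 98365) (nat_lit 26) (.e (nat_lit 426187) (nat_lit 9) (.e (nat_lit 426566) (nat_lit 34) (.e (nat_lit 393239) (nat_lit 17) .nil))))) .nil)))) (.nd (nat_lit 4) (.nd (nat_lit 5) 
(.lf (nat_lit 149131) (.g (nat_lit 2296) (.e (nat_lit 57377) (nat_lit 3) (.e (nat_lit 98342) (nat_lit 20) (.e (nat_lit 221215) (nat_lit 23) (.e (nat_lit 204863) (nat_lit 27) (.e (nat_lit 344120) (nat_lit 21) (.e (nat_lit 516118) (nat_lit 1) (.e (nat_lit 164179) (nat_lit 154) .nil))))))) (.g (nat_lit 4) .nil .nil))) 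
(.lf (nat_lit 149163) (.g (nat_lit 1290) (.e (nat_lit 57377) (nat_lit 3) (.e (nat_lit 98359) (nat_lit 26) (.e (nat_lit 426324) (nat_lit 13) (.e (nat_lit 483341) (nat_lit 9) .nil)))) .nil))) (.nd (nat_lit 5) 
(.lf (nat_lit 149147) (.g (nat_lit 1811) (.e (nat_lit 57377) (nat_lit 3) (.e (nat_lit 98357) (nat_lit 26) (.e (nat_lit 426131) (nat_lit 3) (.e (nat_lit 204838) (nat_lit 20) (.e (nat_lit 114717) (nat_lit 23) .nil))))) .nil)) 
(.lf (nat_lit 149179) (.g (nat_lit 2098) (.e (nat_lit 57377) (nat_lit 3) (.e (nat_lit 98365) (nat_lit 26) (.e (nat_lit 426188) (nat_lit 9) (.e (nat_lit 426478) (nat_lit 27) (.e (nat_lit 336388) (nat_lit 27) (.e (nat_lit 426100) (nat_lit 1) (.e (nat_lit 164399) (nat_lit 256) .nil))))))) (.g (nat_lit 4) .nil .nil)))))) (.nd (nat_lit 3) (.nd (nat_lit 4) (.nd (nat_lit 5) 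
(.lf (nat_lit 149127) (.g (nat_lit 3320) (.e (nat_lit 57377) (nat_lit 3) (.e (nat_lit 98342) (nat_lit 20) (.e (nat_lit 221215) (nat_lit 23) (.e (nat_lit 204863) (nat_lit 27) (.e (nat_lit 344117) (nat_lit 21) (.e (nat_lit 516118) (nat_lit 1) (.e (nat_lit 164179) (nat_lit 154) .nil))))))) (.g (nat_lit 5) .nil .nil))) 
(.lf (nat_lit 149159) (.g (nat_lit 3584) (.e (nat_lit 57377) (nat_lit 3) (.e (nat_lit 98358) (nat_lit 26) (.e (nat_lit 426131) (nat_lit 3) (.e (nat_lit 204838) (nat_lit 20) (.e (nat_lit 114719) (nat_lit 23) (.e (nat_lit 98333) (nat_lit 18) (.e (nat_lit 164399) (nat_lit 256) .nil))))))) (.g (nat_lit 4) .nil .nil)))) (.nd (nat_lit 5) 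
(.lf (nat_lit 149143) (.g (nat_lit 980) (.e (nat_lit 57377) (nat_lit 3) (.e (nat_lit 98356) (nat_lit 26) (.e (nat_lit 426438) (nat_lit 18) .nil))) .nil)) 
(.lf (nat_lit 149175) (.g (nat_lit 2748) (.e (nat_lit 57377) (nat_lit 3) (.e (nat_lit 98365) (nat_lit 26) (.e (nat_lit 426187) (nat_lit 9) (.e (nat_lit 426566) (nat_lit 34) (.e (nat_lit 393252) (nat_lit 18) (.e (nat_lit 164402) (nat_lit 256) .nil)))))) (.g (nat_lit 6) .nil .nil))))) (.nd (nat_lit 4) (.nd (nat_lit 5) 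
(.lf (nat_lit 149135) (.g (nat_lit 3215) (.e (nat_lit 57377) (nat_lit 3) (.e (nat_lit 98342) (nat_lit 20) (.e (nat_lit 221215) (nat_lit 23) (.e (nat_lit 204880) (nat_lit 32) (.e (nat_lit 385068) (nat_lit 26) (.e (nat_lit 532503) (nat_lit 1) (.e (nat_lit 57847) (nat_lit 252) .nil))))))) (.g (nat_lit 4) .nil .nil))) 
(.lf (nat_lit 149167) (.g (nat_lit 1881) (.e (nat_lit 57377) (nat_lit 3) (.e (nat_lit 98365) (nat_lit 26) (.e (nat_lit 426187) (nat_lit 9) (.e (nat_lit 426478) (nat_lit 27) (.e (nat_lit 336388) (nat_lit 27) (.e (nat_lit 426100) (nat_lit 1) (.e (nat_lit 164399) (nat_lit 256) .nil))))))) (.g (nat_lit 4) .nil .nil)))) (.nd (nat_lit 5) 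
(.lf (nat_lit 149151) (.g (nat_lit 2905) (.e (nat_lit 57377) (nat_lit 3) (.e (nat_lit 98357) (nat_lit 26) (.e (nat_lit 426131) (nat_lit 3) (.e (nat_lit 204838) (nat_lit 20) (.e (nat_lit 114719) (nat_lit 23) (.e (nat_lit 98332) (nat_lit 18) (.e (nat_lit 164399) (nat_lit 256) .nil))))))) (.g (nat_lit 5) .nil .nil))) 
(.lf (nat_lit 149183) (.g (nat_lit 1285) (.e (nat_lit 57377) (nat_lit 3) (.e (nat_lit 98365) (nat_lit 26) (.e (nat_lit 426188) (nat_lit 9) (.e (nat_lit 426486) (nat_lit 27) .nil)))) .nil))))))))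

noncomputable def tv1987 : DT := (.nd (nat_lit 0) (.nd (nat_lit 1) (.nd (nat_lit 2) (.nd (nat_lit 3) (.nd (nat_lit 4) (.nd (nat_lit 5) 
(.lf (nat_lit 149184) (.g (nat_lit 1504) (.e (nat_lit 57377) (nat_lit 3) (.e (nat_lit 98365) (nat_lit 26) (.e (nat_lit 426188) (nat_lit 9) (.e (nat_lit 426487) (nat_lit 27) .nil)))) .nil)) 
(.lf (nat_lit 149216) (.g (nat_lit 3062) (.e (nat_lit 57377) (nat_lit 3) (.e (nat_lit 98369) (nat_lit 28) (.e (nat_lit 442390) (nat_lit 11) (.e (nat_lit 336387) (nat_lit 27) (.e (nat_lit 426108) (nat_lit 1) (.e (nat_lit 164401) (nat_lit 256) .nil)))))) (.g (nat_lit 6) .nil .nil)))) (.nd (nat_lit 5) 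
(.lf (nat_lit 149200) (.g (nat_lit 1678) (.e (nat_lit 57377) (nat_lit 3) (.e (nat_lit 98365) (nat_lit 26) (.e (nat_lit 426188) (nat_lit 9) (.e (nat_lit 426566) (nat_lit 34) (.e (nat_lit 393256) (nat_lit 19) .nil))))) .nil)) 
(.lf (nat_lit 149232) (.g (nat_lit 3885) (.e (nat_lit 57377) (nat_lit 3) (.e (nat_lit 98384) (nat_lit 32) (.e (nat_lit 475177) (nat_lit 24) (.e (nat_lit 516150) (nat_lit 9) (.e (nat_lit 426131) (nat_lit 3) (.e (nat_lit 204829) (nat_lit 18) (.e (nat_lit 65280) (nat_lit 211) .nil))))))) (.g (nat_lit 5) .nil .nil))))) (.nd (nat_lit 4) (.nd (nat_lit 5) 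
(.lf (nat_lit 149192) (.g (nat_lit 1670) (.e (nat_lit 57377) (nat_lit 3) (.e (nat_lit 98365) (nat_lit 26) (.e (nat_lit 426188) (nat_lit 9) (.e (nat_lit 426566) (nat_lit 34) (.e (nat_lit 393250) (nat_lit 18) .nil))))) .nil)) 
(.lf (nat_lit 149224) (.g (nat_lit 3451) (.e (nat_lit 57377) (nat_lit 3) (.e (nat_lit 98373) (nat_lit 29) (.e (nat_lit 450563) (nat_lit 0) (.e (nat_lit 6595) (nat_lit 351) .nil)))) .nil))) (.nd (nat_lit 5) 
(.lf (nat_lit 149208) (.g (nat_lit 2430) (.e (nat_lit 57377) (nat_lit 3) (.e (nat_lit 98365) (nat_lit 26) (.e (nat_lit 426325) (nat_lit 13) (.e (nat_lit 483341) (nat_lit 9) (.e (nat_lit 426145) (nat_lit 4) (.e (nat_lit 229707) (nat_lit 256) .nil)))))) (.g (nat_lit 4) .nil .nil))) 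
(.lf (nat_lit 149240) (.g (nat_lit 1199) (.e (nat_lit 57377) (nat_lit 3) (.e (nat_lit 98384) (nat_lit 32) (.e (nat_lit 475179) (nat_lit 24) .nil))) .nil))))) (.nd (nat_lit 3) (.nd (nat_lit 4) (.nd (nat_lit 5) 
(.lf (nat_lit 149188) (.g (nat_lit 1263) (.e (nat_lit 57377) (nat_lit 3) (.e (nat_lit 98365) (nat_lit 26) (.e (nat_lit 426188) (nat_lit 9) (.e (nat_lit 426564) (nat_lit 34) .nil)))) .nil)) 
(.lf (nat_lit 149220) (.g (nat_lit 1287) (.e (nat_lit 57377) (nat_lit 3) (.e (nat_lit 98372) (nat_lit 29) (.e (nat_lit 450561) (nat_lit 0) (.e (nat_lit 6595) (nat_lit 351) .nil)))) .nil))) (.nd (nat_lit 5) 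
(.lf (nat_lit 149204) (.g (nat_lit 1192) (.e (nat_lit 57377) (nat_lit 3) (.e (nat_lit 98365) (nat_lit 26) (.e (nat_lit 426189) (nat_lit 9) (.e (nat_lit 426566) (nat_lit 34) (.e (nat_lit 393252) (nat_lit 18) .nil))))) .nil)) 
(.lf (nat_lit 149236) (.g (nat_lit 3185) (.e (nat_lit 57377) (nat_lit 3) (.e (nat_lit 98384) (nat_lit 32) (.e (nat_lit 475177) (nat_lit 24) (.e (nat_lit 516169) (nat_lit 13) (.e (nat_lit 458789) (nat_lit 23) (.e (nat_lit 532501) (nat_lit 1) (.e (nat_lit 65280) (nat_lit 211) .nil))))))) (.g (nat_lit 4) .nil .nil))))) (.nd (nat_lit 4) (.nd (nat_lit 5) 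
(.lf (nat_lit 149196) (.g (nat_lit 2062) (.e (nat_lit 57377) (nat_lit 3) (.e (nat_lit 98365) (nat_lit 26) (.e (nat_lit 426188) (nat_lit 9) (.e (nat_lit 426566) (nat_lit 34) (.e (nat_lit 393252) (nat_lit 18) (.e (nat_lit 164400) (nat_lit 256) .nil)))))) (.g (nat_lit 4) .nil .nil))) 
(.lf (nat_lit 149228) (.g (nat_lit 2212) (.e (nat_lit 57377) (nat_lit 3) (.e (nat_lit 98377) (nat_lit 30) (.e (nat_lit 458789) (nat_lit 23) (.e (nat_lit 532515) (nat_lit 3) (.e (nat_lit 114719) (nat_lit 23) (.e (nat_lit 98332) (nat_lit 18) (.e (nat_lit 164399) (nat_lit 256) .nil))))))) (.g (nat_lit 4) .nil .nil)))) (.nd (nat_lit 5) 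
(.lf (nat_lit 149212) (.g (nat_lit 2190) (.e (nat_lit 57377) (nat_lit 3) (.e (nat_lit 98365) (nat_lit 26) (.e (nat_lit 426334) (nat_lit 13) (.e (nat_lit 483341) (nat_lit 9) (.e (nat_lit 426107) (nat_lit 1) (.e (nat_lit 164403) (nat_lit 256) .nil)))))) (.g (nat_lit 5) .nil .nil))) 
(.lf (nat_lit 149244) (.g (nat_lit 3262) (.e (nat_lit 57378) (nat_lit 3) (.e (nat_lit 98312) (nat_lit 9) (.e (nat_lit 336078) (nat_lit 9) (.e (nat_lit 336454) (nat_lit 34) (.e (nat_lit 483363) (nat_lit 18) (.e (nat_lit 57847) (nat_lit 252) .nil)))))) (.g (nat_lit 5) .nil .nil))))))) (.nd (nat_lit 2) (.nd (nat_lit 3) (.nd (nat_lit 4) (.nd (nat_lit 5) 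
(.lf (nat_lit 149186) (.g (nat_lit 1944) (.e (nat_lit 57377) (nat_lit 3) (.e (nat_lit 98365) (nat_lit 26) (.e (nat_lit 426188) (nat_lit 9) (.e (nat_lit 426491) (nat_lit 27) (.e (nat_lit 336409) (nat_lit 27) (.e (nat_lit 426098) (nat_lit 1) (.e (nat_lit 164399) (nat_lit 256) .nil))))))) (.g (nat_lit 4) .nil .nil))) 
(.lf (nat_lit 149218) (.g (nat_lit 3188) (.e (nat_lit 57377) (nat_lit 3) (.e (nat_lit 98370) (nat_lit 28) (.e (nat_lit 442390) (nat_lit 11) (.e (nat_lit 336387) (nat_lit 27) (.e (nat_lit 426108) (nat_lit 1) (.e (nat_lit 164402) (nat_lit 256) .nil)))))) (.g (nat_lit 5) .nil .nil)))) (.nd (nat_lit 5) 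
(.lf (nat_lit 149202) (.g (nat_lit 1829) (.e (nat_lit 57377) (nat_lit 3) (.e (nat_lit 98365) (nat_lit 26) (.e (nat_lit 426188) (nat_lit 9) (.e (nat_lit 426568) (nat_lit 34) (.e (nat_lit 393238) (nat_lit 17) .nil))))) .nil)) 
(.lf (nat_lit 149234) (.g (nat_lit 2153) (.e (nat_lit 57377) (nat_lit 3) (.e (nat_lit 98384) (nat_lit 32) (.e (nat_lit 475177) (nat_lit 24) (.e (nat_lit 516169) (nat_lit 13) .nil)))) .nil)))) (.nd (nat_lit 4) (.nd (nat_lit 5) 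
(.lf (nat_lit 149194) (.g (nat_lit 3479) (.e (nat_lit 57377) (nat_lit 3) (.e (nat_lit 98365) (nat_lit 26) (.e (nat_lit 426188) (nat_lit 9) (.e (nat_lit 426566) (nat_lit 34) (.e (nat_lit 393251) (nat_lit 18) (.e (nat_lit 164399) (nat_lit 256) .nil)))))) (.g (nat_lit 0) .nil .nil))) 
(.lf (nat_lit 149226) (.g (nat_lit 1431) (.e (nat_lit 57377) (nat_lit 3) (.e (nat_lit 98373) (nat_lit 29) (.e (nat_lit 450602) (nat_lit 22) .nil))) .nil))) (.nd (nat_lit 5) 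
(.lf (nat_lit 149210) (.g (nat_lit 1753) (.e (nat_lit 57377) (nat_lit 3) (.e (nat_lit 98365) (nat_lit 26) (.e (nat_lit 426334) (nat_lit 13) (.e (nat_lit 483341) (nat_lit 9) (.e (nat_lit 426100) (nat_lit 1) (.e (nat_lit 164398) (nat_lit 256) .nil)))))) (.g (nat_lit 4) .nil .nil))) 
(.lf (nat_lit 149242) (.g (nat_lit 1803) (.e (nat_lit 57377) (nat_lit 3) (.e (nat_lit 98385) (nat_lit 32) (.e (nat_lit 475177) (nat_lit 24) (.e (nat_lit 516169) (nat_lit 13) (.e (nat_lit 458789) (nat_lit 23) (.e (nat_lit 532501) (nat_lit 1) (.e (nat_lit 65280) (nat_lit 211) .nil))))))) (.g (nat_lit 4) .nil .nil)))))) (.nd (nat_lit 3) (.nd (nat_lit 4) (.nd (nat_lit 5) 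
(.lf (nat_lit 149190) (.g (nat_lit 2091) (.e (nat_lit 57377) (nat_lit 3) (.e (nat_lit 98365) (nat_lit 26) (.e (nat_lit 426188) (nat_lit 9) (.e (nat_lit 426566) (nat_lit 34) (.e (nat_lit 393235) (nat_lit 17) .nil))))) .nil)) 
(.lf (nat_lit 149222) (.g (nat_lit 3325) (.e (nat_lit 57377) (nat_lit 3) (.e (nat_lit 98373) (nat_lit 29) (.e (nat_lit 450562) (nat_lit 0) (.e (nat_lit 6595) (nat_lit 351) .nil)))) .nil))) (.nd (nat_lit 5) 
(.lf (nat_lit 149206) (.g (nat_lit 2092) (.e (nat_lit 57377) (nat_lit 3) (.e (nat_lit 98365) (nat_lit 26) (.e (nat_lit 426325) (nat_lit 13) (.e (nat_lit 483337) (nat_lit 9) (.e (nat_lit 426142) (nat_lit 4) .nil))))) .nil)) 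
(.lf (nat_lit 149238) (.g (nat_lit 2101) (.e (nat_lit 57377) (nat_lit 3) (.e (nat_lit 98384) (nat_lit 32) (.e (nat_lit 475177) (nat_lit 24) (.e (nat_lit 516171) (nat_lit 13) .nil)))) .nil)))) (.nd (nat_lit 4) (.nd (nat_lit 5) 
(.lf (nat_lit 149198) (.g (nat_lit 3457) (.e (nat_lit 57377) (nat_lit 3) (.e (nat_lit 98365) (nat_lit 26) (.e (nat_lit 426188) (nat_lit 9) (.e (nat_lit 426566) (nat_lit 34) (.e (nat_lit 393253) (nat_lit 18) (.e (nat_lit 164402) (nat_lit 256) .nil)))))) (.g (nat_lit 0) .nil .nil))) 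
(.lf (nat_lit 149230) (.g (nat_lit 1764) (.e (nat_lit 57377) (nat_lit 3) (.e (nat_lit 98384) (nat_lit 32) (.e (nat_lit 475177) (nat_lit 24) (.e (nat_lit 516150) (nat_lit 9) .nil)))) .nil))) (.nd (nat_lit 5) 
(.lf (nat_lit 149214) (.g (nat_lit 901) (.e (nat_lit 57377) (nat_lit 3) (.e (nat_lit 98365) (nat_lit 26) (.e (nat_lit 426334) (nat_lit 13) (.e (nat_lit 491264) (nat_lit 10) .nil)))) .nil)) 
(.lf (nat_lit 149246) (.g (nat_lit 1898) (.e (nat_lit 57378) (nat_lit 3) (.e (nat_lit 98312) (nat_lit 9) (.e (nat_lit 336213) (nat_lit 13) (.e (nat_lit 393229) (nat_lit 9) (.e (nat_lit 335994) (nat_lit 1) .nil))))) .nil))))))) (.nd (nat_lit 1) (.nd (nat_lit 2) (.nd (nat_lit 3) (.nd (nat_lit 4) (.nd (nat_lit 5) 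
(.lf (nat_lit 149185) (.g (nat_lit 1560) (.e (nat_lit 57377) (nat_lit 3) (.e (nat_lit 98365) (nat_lit 26) (.e (nat_lit 426188) (nat_lit 9) (.e (nat_lit 426491) (nat_lit 27) (.e (nat_lit 336406) (nat_lit 27) .nil))))) .nil)) 
(.lf (nat_lit 149217) (.g (nat_lit 2251) (.e (nat_lit 57377) (nat_lit 3) (.e (nat_lit 98370) (nat_lit 28) (.e (nat_lit 442390) (nat_lit 11) (.e (nat_lit 336387) (nat_lit 27) (.e (nat_lit 426107) (nat_lit 1) (.e (nat_lit 164401) (nat_lit 256) .nil)))))) (.g (nat_lit 4) .nil .nil)))) (.nd (nat_lit 5) 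
(.lf (nat_lit 149201) (.g (nat_lit 2247) (.e (nat_lit 57377) (nat_lit 3) (.e (nat_lit 98365) (nat_lit 26) (.e (nat_lit 426188) (nat_lit 9) (.e (nat_lit 426567) (nat_lit 34) (.e (nat_lit 393251) (nat_lit 18) (.e (nat_lit 164399) (nat_lit 256) .nil)))))) (.g (nat_lit 4) .nil .nil))) 
(.lf (nat_lit 149233) (.g (nat_lit 4011) (.e (nat_lit 57377) (nat_lit 3) (.e (nat_lit 98384) (nat_lit 32) (.e (nat_lit 475177) (nat_lit 24) (.e (nat_lit 516150) (nat_lit 9) (.e (nat_lit 426131) (nat_lit 3) (.e (nat_lit 204830) (nat_lit 18) (.e (nat_lit 65280) (nat_lit 211) .nil))))))) (.g (nat_lit 5) .nil .nil))))) (.nd (nat_lit 4) (.nd (nat_lit 5) 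
(.lf (nat_lit 149193) (.g (nat_lit 1874) (.e (nat_lit 57377) (nat_lit 3) (.e (nat_lit 98365) (nat_lit 26) (.e (nat_lit 426188) (nat_lit 9) (.e (nat_lit 426566) (nat_lit 34) (.e (nat_lit 393250) (nat_lit 18) (.e (nat_lit 164403) (nat_lit 256) .nil)))))) (.g (nat_lit 4) .nil .nil))) 
(.lf (nat_lit 149225) (.g (nat_lit 880) (.e (nat_lit 57377) (nat_lit 3) (.e (nat_lit 98373) (nat_lit 29) (.e (nat_lit 450588) (nat_lit 10) .nil))) .nil))) (.nd (nat_lit 5) 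
(.lf (nat_lit 149209) (.g (nat_lit 2142) (.e (nat_lit 57377) (nat_lit 3) (.e (nat_lit 98365) (nat_lit 26) (.e (nat_lit 426334) (nat_lit 13) (.e (nat_lit 483341) (nat_lit 9) (.e (nat_lit 426098) (nat_lit 1) (.e (nat_lit 164399) (nat_lit 256) .nil)))))) (.g (nat_lit 5) .nil .nil))) 
(.lf (nat_lit 149241) (.g (nat_lit 2643) (.e (nat_lit 57377) (nat_lit 3) (.e (nat_lit 98385) (nat_lit 32) (.e (nat_lit 475177) (nat_lit 24) (.e (nat_lit 516150) (nat_lit 9) (.e (nat_lit 426131) (nat_lit 3) (.e (nat_lit 204830) (nat_lit 18) (.e (nat_lit 65280) (nat_lit 211) .nil))))))) (.g (nat_lit 4) .nil .nil)))))) (.nd (nat_lit 3) (.nd (nat_lit 4) (.nd (nat_lit 5) 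
(.lf (nat_lit 149189) (.g (nat_lit 987) (.e (nat_lit 57377) (nat_lit 3) (.e (nat_lit 98365) (nat_lit 26) (.e (nat_lit 426188) (nat_lit 9) (.e (nat_lit 426566) (nat_lit 34) .nil)))) .nil)) 
(.lf (nat_lit 149221) (.g (nat_lit 790) (.e (nat_lit 57377) (nat_lit 3) (.e (nat_lit 98373) (nat_lit 29) (.e (nat_lit 450562) (nat_lit 0) .nil))) .nil))) (.nd (nat_lit 5) 
(.lf (nat_lit 149205) (.g (nat_lit 2382) (.e (nat_lit 57377) (nat_lit 3) (.e (nat_lit 98365) (nat_lit 26) (.e (nat_lit 426190) (nat_lit 9) (.e (nat_lit 426566) (nat_lit 34) (.e (nat_lit 393253) (nat_lit 18) (.e (nat_lit 164401) (nat_lit 256) .nil)))))) (.g (nat_lit 4) .nil .nil))) 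
(.lf (nat_lit 149237) (.g (nat_lit 4137) (.e (nat_lit 57377) (nat_lit 3) (.e (nat_lit 98384) (nat_lit 32) (.e (nat_lit 475177) (nat_lit 24) (.e (nat_lit 516169) (nat_lit 13) (.e (nat_lit 458789) (nat_lit 23) (.e (nat_lit 540416) (nat_lit 18) (.e (nat_lit 164399) (nat_lit 256) .nil))))))) (.g (nat_lit 5) .nil .nil))))) (.nd (nat_lit 4) (.nd (nat_lit 5) 
(.lf (nat_lit 149197) (.g (nat_lit 2986) (.e (nat_lit 57377) (nat_lit 3) (.e (nat_lit 98365) (nat_lit 26) (.e (nat_lit 426188) (nat_lit 9) (.e (nat_lit 426566) (nat_lit 34) (.e (nat_lit 393252) (nat_lit 18) (.e (nat_lit 164402) (nat_lit 256) .nil)))))) (.g (nat_lit 6) .nil .nil))) 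
(.lf (nat_lit 149229) (.g (nat_lit 1090) (.e (nat_lit 57377) (nat_lit 3) (.e (nat_lit 98384) (nat_lit 32) (.e (nat_lit 475177) (nat_lit 24) .nil))) .nil))) (.nd (nat_lit 5) 
(.lf (nat_lit 149213) (.g (nat_lit 2195) (.e (nat_lit 57377) (nat_lit 3) (.e (nat_lit 98365) (nat_lit 26) (.e (nat_lit 426334) (nat_lit 13) (.e (nat_lit 483341) (nat_lit 9) (.e (nat_lit 426108) (nat_lit 1) (.e (nat_lit 164403) (nat_lit 256) .nil)))))) (.g (nat_lit 5) .nil .nil))) 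
(.lf (nat_lit 149245) (.g (nat_lit 3015) (.e (nat_lit 57378) (nat_lit 3) (.e (nat_lit 98312) (nat_lit 9) (.e (nat_lit 336078) (nat_lit 9) (.e (nat_lit 336454) (nat_lit 34) (.e (nat_lit 483365) (nat_lit 18) (.e (nat_lit 57847) (nat_lit 252) .nil)))))) (.g (nat_lit 5) .nil .nil))))))) (.nd (nat_lit 2) (.nd (nat_lit 3) (.nd (nat_lit 4) (.nd (nat_lit 5) 
(.lf (nat_lit 149187) (.g (nat_lit 1993) (.e (nat_lit 57377) (nat_lit 3) (.e (nat_lit 98365) (nat_lit 26) (.e (nat_lit 426188) (nat_lit 9) (.e (nat_lit 426491) (nat_lit 27) (.e (nat_lit 336409) (nat_lit 27) (.e (nat_lit 426099) (nat_lit 1) (.e (nat_lit 164399) (nat_lit 256) .nil))))))) (.g (nat_lit 4) .nil .nil))) 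
(.lf (nat_lit 149219) (.g (nat_lit 539) (.e (nat_lit 57377) (nat_lit 3) (.e (nat_lit 98370) (nat_lit 28) (.e (nat_lit 450304) (nat_lit 18) .nil))) .nil))) (.nd (nat_lit 5) 
(.lf (nat_lit 149203) (.g (nat_lit 487) (.e (nat_lit 57377) (nat_lit 3) (.e (nat_lit 98365) (nat_lit 26) (.e (nat_lit 426189) (nat_lit 9) .nil))) .nil)) 
(.lf (nat_lit 149235) (.g (nat_lit 3447) (.e (nat_lit 57377) (nat_lit 3) (.e (nat_lit 98384) (nat_lit 32) (.e (nat_lit 475177) (nat_lit 24) (.e (nat_lit 516169) (nat_lit 13) (.e (nat_lit 458789) (nat_lit 23) (.e (nat_lit 532499) (nat_lit 1) (.e (nat_lit 65280) (nat_lit 211) .nil))))))) (.g (nat_lit 4) .nil .nil))))) (.nd (nat_lit 4) (.nd (nat_lit 5) 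
(.lf (nat_lit 149195) (.g (nat_lit 3282) (.e (nat_lit 57377) (nat_lit 3) (.e (nat_lit 98365) (nat_lit 26) (.e (nat_lit 426188) (nat_lit 9) (.e (nat_lit 426566) (nat_lit 34) (.e (nat_lit 393252) (nat_lit 18) (.e (nat_lit 164399) (nat_lit 256) .nil)))))) (.g (nat_lit 0) .nil .nil))) 
(.lf (nat_lit 149227) (.g (nat_lit 971) (.e (nat_lit 57377) (nat_lit 3) (.e (nat_lit 98373) (nat_lit 29) (.e (nat_lit 458496) (nat_lit 26) .nil))) .nil))) (.nd (nat_lit 5) 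
(.lf (nat_lit 149211) (.g (nat_lit 2195) (.e (nat_lit 57377) (nat_lit 3) (.e (nat_lit 98365) (nat_lit 26) (.e (nat_lit 426334) (nat_lit 13) (.e (nat_lit 483341) (nat_lit 9) (.e (nat_lit 426100) (nat_lit 1) (.e (nat_lit 164399) (nat_lit 256) .nil)))))) (.g (nat_lit 5) .nil .nil))) 
(.lf (nat_lit 149243) (.g (nat_lit 2127) (.e (nat_lit 57377) (nat_lit 3) (.e (nat_lit 98389) (nat_lit 33) (.e (nat_lit 491546) (nat_lit 9) (.e (nat_lit 336028) (nat_lit 3) (.e (nat_lit 98367) (nat_lit 27) .nil))))) .nil))))) (.nd (nat_lit 3) (.nd (nat_lit 4) (.nd (nat_lit 5) 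
(.lf (nat_lit 149191) (.g (nat_lit 2098) (.e (nat_lit 57377) (nat_lit 3) (.e (nat_lit 98365) (nat_lit 26) (.e (nat_lit 426188) (nat_lit 9) (.e (nat_lit 426566) (nat_lit 34) (.e (nat_lit 393239) (nat_lit 17) .nil))))) .nil)) 
(.lf (nat_lit 149223) (.g (nat_lit 802) (.e (nat_lit 57377) (nat_lit 3) (.e (nat_lit 98373) (nat_lit 29) (.e (nat_lit 450563) (nat_lit 0) .nil))) .nil))) (.nd (nat_lit 5) 
(.lf (nat_lit 149207) (.g (nat_lit 2435) (.e (nat_lit 57377) (nat_lit 3) (.e (nat_lit 98365) (nat_lit 26) (.e (nat_lit 426325) (nat_lit 13) (.e (nat_lit 483337) (nat_lit 9) (.e (nat_lit 426142) (nat_lit 4) (.e (nat_lit 229707) (nat_lit 256) .nil)))))) (.g (nat_lit 4) .nil .nil))) 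
(.lf (nat_lit 149239) (.g (nat_lit 3136) (.e (nat_lit 57377) (nat_lit 3) (.e (nat_lit 98384) (nat_lit 32) (.e (nat_lit 475177) (nat_lit 24) (.e (nat_lit 516171) (nat_lit 13) (.e (nat_lit 458789) (nat_lit 23) (.e (nat_lit 532499) (nat_lit 1) (.e (nat_lit 65280) (nat_lit 211) .nil))))))) (.g (nat_lit 4) .nil .nil))))) (.nd (nat_lit 4) (.nd (nat_lit 5) 
(.lf (nat_lit 149199) (.g (nat_lit 2970) (.e (nat_lit 57377) (nat_lit 3) (.e (nat_lit 98365) (nat_lit 26) (.e (nat_lit 426188) (nat_lit 9) (.e (nat_lit 426566) (nat_lit 34) (.e (nat_lit 393254) (nat_lit 18) (.e (nat_lit 164402) (nat_lit 256) .nil)))))) (.g (nat_lit 0) .nil .nil))) 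
(.lf (nat_lit 149231) (.g (nat_lit 4269) (.e (nat_lit 57377) (nat_lit 3) (.e (nat_lit 98384) (nat_lit 32) (.e (nat_lit 475177) (nat_lit 24) (.e (nat_lit 516150) (nat_lit 9) (.e (nat_lit 426131) (nat_lit 3) (.e (nat_lit 212736) (nat_lit 1) (.e (nat_lit 164399) (nat_lit 256) .nil))))))) (.g (nat_lit 5) .nil .nil)))) (.nd (nat_lit 5) 
(.lf (nat_lit 149215) (.g (nat_lit 1715) (.e (nat_lit 57377) (nat_lit 3) (.e (nat_lit 98365) (nat_lit 26) (.e (nat_lit 426335) (nat_lit 13) (.e (nat_lit 483341) (nat_lit 9) .nil)))) .nil)) 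
(.lf (nat_lit 149247) (.g (nat_lit 2908) (.e (nat_lit 57378) (nat_lit 3) (.e (nat_lit 98312) (nat_lit 9) (.e (nat_lit 336215) (nat_lit 13) (.e (nat_lit 393229) (nat_lit 9) (.e (nat_lit 335986) (nat_lit 1) (.e (nat_lit 57847) (nat_lit 252) .nil)))))) (.g (nat_lit 5) .nil .nil)))))))))

noncomputable def tv1988 : DT := (.nd (nat_lit 0) (.nd (nat_lit 1) (.nd (nat_lit 2) (.nd (nat_lit 3) (.nd (nat_lit 4) (.nd (nat_lit 5) 
(.lf (nat_lit 149248) (.g (nat_lit 2623) (.e (nat_lit 57378) (nat_lit 3) (.e (nat_lit 98312) (nat_lit 9) (.e (nat_lit 336215) (nat_lit 13) (.e (nat_lit 393229) (nat_lit 9) (.e (nat_lit 335986) (nat_lit 1) (.e (nat_lit 57854) (nat_lit 252) .nil)))))) (.g (nat_lit 5) .nil .nil))) 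
(.lf (nat_lit 149280) (.g (nat_lit 3408) (.e (nat_lit 57378) (nat_lit 3) (.e (nat_lit 98313) (nat_lit 9) (.e (nat_lit 336088) (nat_lit 9) (.e (nat_lit 336456) (nat_lit 34) (.e (nat_lit 483363) (nat_lit 18) (.e (nat_lit 57854) (nat_lit 252) .nil)))))) (.g (nat_lit 6) .nil .nil)))) (.nd (nat_lit 5) 
(.lf (nat_lit 149264) (.g (nat_lit 2049) (.e (nat_lit 57378) (nat_lit 3) (.e (nat_lit 98313) (nat_lit 9) (.e (nat_lit 336077) (nat_lit 9) (.e (nat_lit 336454) (nat_lit 34) (.e (nat_lit 483364) (nat_lit 18) (.e (nat_lit 57852) (nat_lit 252) .nil)))))) (.g (nat_lit 5) .nil .nil))) 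
(.lf (nat_lit 149296) (.g (nat_lit 3753) (.e (nat_lit 57378) (nat_lit 3) (.e (nat_lit 98313) (nat_lit 9) (.e (nat_lit 336215) (nat_lit 13) (.e (nat_lit 393229) (nat_lit 9) (.e (nat_lit 335988) (nat_lit 1) (.e (nat_lit 57854) (nat_lit 252) .nil)))))) (.g (nat_lit 0) .nil .nil))))) (.nd (nat_lit 4) (.nd (nat_lit 5) 
(.lf (nat_lit 149256) (.g (nat_lit 4598) (.e (nat_lit 57378) (nat_lit 3) (.e (nat_lit 98313) (nat_lit 9) (.e (nat_lit 336027) (nat_lit 3) (.e (nat_lit 98342) (nat_lit 20) (.e (nat_lit 221214) (nat_lit 23) (.e (nat_lit 204830) (nat_lit 18) (.e (nat_lit 57852) (nat_lit 252) .nil))))))) (.g (nat_lit 7) .nil .nil))) 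
(.lf (nat_lit 149288) (.g (nat_lit 3876) (.e (nat_lit 57378) (nat_lit 3) (.e (nat_lit 98313) (nat_lit 9) (.e (nat_lit 336213) (nat_lit 13) (.e (nat_lit 393225) (nat_lit 9) (.e (nat_lit 335996) (nat_lit 1) (.e (nat_lit 57854) (nat_lit 252) .nil)))))) (.g (nat_lit 0) .nil .nil)))) (.nd (nat_lit 5) 
(.lf (nat_lit 149272) (.g (nat_lit 2492) (.e (nat_lit 57378) (nat_lit 3) (.e (nat_lit 98313) (nat_lit 9) (.e (nat_lit 336086) (nat_lit 9) (.e (nat_lit 336454) (nat_lit 34) (.e (nat_lit 483365) (nat_lit 18) (.e (nat_lit 57852) (nat_lit 252) .nil)))))) (.g (nat_lit 4) .nil .nil))) 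
(.lf (nat_lit 149304) (.g (nat_lit 2701) (.e (nat_lit 57378) (nat_lit 3) (.e (nat_lit 98313) (nat_lit 9) (.e (nat_lit 336222) (nat_lit 13) (.e (nat_lit 393229) (nat_lit 9) (.e (nat_lit 335988) (nat_lit 1) (.e (nat_lit 57852) (nat_lit 252) .nil)))))) (.g (nat_lit 6) .nil .nil)))))) (.nd (nat_lit 3) (.nd (nat_lit 4) (.nd (nat_lit 5) 
(.lf (nat_lit 149252) (.g (nat_lit 1435) (.e (nat_lit 57378) (nat_lit 3) (.e (nat_lit 98313) (nat_lit 9) (.e (nat_lit 336027) (nat_lit 3) (.e (nat_lit 98337) (nat_lit 19) .nil)))) .nil)) 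
(.lf (nat_lit 149284) (.g (nat_lit 3678) (.e (nat_lit 57378) (nat_lit 3) (.e (nat_lit 98313) (nat_lit 9) (.e (nat_lit 336088) (nat_lit 9) (.e (nat_lit 336456) (nat_lit 34) (.e (nat_lit 483365) (nat_lit 18) (.e (nat_lit 57854) (nat_lit 252) .nil)))))) (.g (nat_lit 6) .nil .nil)))) (.nd (nat_lit 5) 
(.lf (nat_lit 149268) (.g (nat_lit 3420) (.e (nat_lit 57378) (nat_lit 3) (.e (nat_lit 98313) (nat_lit 9) (.e (nat_lit 336078) (nat_lit 9) (.e (nat_lit 336454) (nat_lit 34) (.e (nat_lit 483365) (nat_lit 18) (.e (nat_lit 57854) (nat_lit 252) .nil)))))) (.g (nat_lit 0) .nil .nil))) 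
(.lf (nat_lit 149300) (.g (nat_lit 3622) (.e (nat_lit 57378) (nat_lit 3) (.e (nat_lit 98313) (nat_lit 9) (.e (nat_lit 336220) (nat_lit 13) (.e (nat_lit 393225) (nat_lit 9) (.e (nat_lit 335996) (nat_lit 1) (.e (nat_lit 57854) (nat_lit 252) .nil)))))) (.g (nat_lit 0) .nil .nil))))) (.nd (nat_lit 4) (.nd (nat_lit 5) 
(.lf (nat_lit 149260) (.g (nat_lit 2429) (.e (nat_lit 57378) (nat_lit 3) (.e (nat_lit 98313) (nat_lit 9) (.e (nat_lit 336076) (nat_lit 9) (.e (nat_lit 336456) (nat_lit 34) (.e (nat_lit 483364) (nat_lit 18) (.e (nat_lit 57852) (nat_lit 252) .nil)))))) (.g (nat_lit 4) .nil .nil))) 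
(.lf (nat_lit 149292) (.g (nat_lit 2371) (.e (nat_lit 57378) (nat_lit 3) (.e (nat_lit 98313) (nat_lit 9) (.e (nat_lit 336214) (nat_lit 13) (.e (nat_lit 393229) (nat_lit 9) (.e (nat_lit 335988) (nat_lit 1) (.e (nat_lit 57852) (nat_lit 252) .nil)))))) (.g (nat_lit 5) .nil .nil)))) (.nd (nat_lit 5) 
(.lf (nat_lit 149276) (.g (nat_lit 2727) (.e (nat_lit 57378) (nat_lit 3) (.e (nat_lit 98313) (nat_lit 9) (.e (nat_lit 336088) (nat_lit 9) (.e (nat_lit 336454) (nat_lit 34) (.e (nat_lit 483365) (nat_lit 18) (.e (nat_lit 57846) (nat_lit 252) .nil)))))) (.g (nat_lit 4) .nil .nil))) 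
(.lf (nat_lit 149308) (.g (nat_lit 323) (.e (nat_lit 57378) (nat_lit 3) (.e (nat_lit 98313) (nat_lit 9) (.e (nat_lit 336223) (nat_lit 13) .nil))) .nil)))))) (.nd (nat_lit 2) (.nd (nat_lit 3) (.nd (nat_lit 4) (.nd (nat_lit 5) 
(.lf (nat_lit 149250) (.g (nat_lit 2431) (.e (nat_lit 57378) (nat_lit 3) (.e (nat_lit 98312) (nat_lit 9) (.e (nat_lit 336223) (nat_lit 13) (.e (nat_lit 393229) (nat_lit 9) (.e (nat_lit 335994) (nat_lit 1) (.e (nat_lit 57854) (nat_lit 252) .nil)))))) (.g (nat_lit 5) .nil .nil))) 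
(.lf (nat_lit 149282) (.g (nat_lit 3435) (.e (nat_lit 57378) (nat_lit 3) (.e (nat_lit 98313) (nat_lit 9) (.e (nat_lit 336088) (nat_lit 9) (.e (nat_lit 336456) (nat_lit 34) (.e (nat_lit 483364) (nat_lit 18) (.e (nat_lit 57854) (nat_lit 252) .nil)))))) (.g (nat_lit 6) .nil .nil)))) (.nd (nat_lit 5) 
(.lf (nat_lit 149266) (.g (nat_lit 2835) (.e (nat_lit 57378) (nat_lit 3) (.e (nat_lit 98313) (nat_lit 9) (.e (nat_lit 336078) (nat_lit 9) (.e (nat_lit 336454) (nat_lit 34) (.e (nat_lit 483363) (nat_lit 18) (.e (nat_lit 57847) (nat_lit 252) .nil)))))) (.g (nat_lit 4) .nil .nil))) 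
(.lf (nat_lit 149298) (.g (nat_lit 3589) (.e (nat_lit 57378) (nat_lit 3) (.e (nat_lit 98313) (nat_lit 9) (.e (nat_lit 336215) (nat_lit 13) (.e (nat_lit 393229) (nat_lit 9) (.e (nat_lit 335996) (nat_lit 1) (.e (nat_lit 57852) (nat_lit 252) .nil)))))) (.g (nat_lit 6) .nil .nil))))) (.nd (nat_lit 4) (.nd (nat_lit 5) 
(.lf (nat_lit 149258) (.g (nat_lit 2909) (.e (nat_lit 57378) (nat_lit 3) (.e (nat_lit 98313) (nat_lit 9) (.e (nat_lit 336076) (nat_lit 9) (.e (nat_lit 336454) (nat_lit 34) (.e (nat_lit 483365) (nat_lit 18) (.e (nat_lit 57852) (nat_lit 252) .nil)))))) (.g (nat_lit 6) .nil .nil))) 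
(.lf (nat_lit 149290) (.g (nat_lit 3818) (.e (nat_lit 57378) (nat_lit 3) (.e (nat_lit 98313) (nat_lit 9) (.e (nat_lit 336213) (nat_lit 13) (.e (nat_lit 393229) (nat_lit 9) (.e (nat_lit 335996) (nat_lit 1) (.e (nat_lit 57854) (nat_lit 252) .nil)))))) (.g (nat_lit 0) .nil .nil)))) (.nd (nat_lit 5) 
(.lf (nat_lit 149274) (.g (nat_lit 1124) (.e (nat_lit 57378) (nat_lit 3) (.e (nat_lit 98313) (nat_lit 9) (.e (nat_lit 336088) (nat_lit 9) (.e (nat_lit 336370) (nat_lit 27) .nil)))) .nil)) 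
(.lf (nat_lit 149306) (.g (nat_lit 3257) (.e (nat_lit 57378) (nat_lit 3) (.e (nat_lit 98313) (nat_lit 9) (.e (nat_lit 336222) (nat_lit 13) (.e (nat_lit 393229) (nat_lit 9) (.e (nat_lit 335996) (nat_lit 1) (.e (nat_lit 57852) (nat_lit 252) .nil)))))) (.g (nat_lit 6) .nil .nil)))))) (.nd (nat_lit 3) (.nd (nat_lit 4) (.nd (nat_lit 5) 
(.lf (nat_lit 149254) (.g (nat_lit 4753) (.e (nat_lit 57378) (nat_lit 3) (.e (nat_lit 98313) (nat_lit 9) (.e (nat_lit 336027) (nat_lit 3) (.e (nat_lit 98341) (nat_lit 20) (.e (nat_lit 221214) (nat_lit 23) (.e (nat_lit 204830) (nat_lit 18) (.e (nat_lit 57852) (nat_lit 252) .nil))))))) (.g (nat_lit 7) .nil .nil))) 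
(.lf (nat_lit 149286) (.g (nat_lit 2756) (.e (nat_lit 57378) (nat_lit 3) (.e (nat_lit 98313) (nat_lit 9) (.e (nat_lit 336213) (nat_lit 13) (.e (nat_lit 393225) (nat_lit 9) (.e (nat_lit 335986) (nat_lit 1) (.e (nat_lit 57847) (nat_lit 252) .nil)))))) (.g (nat_lit 4) .nil .nil)))) (.nd (nat_lit 5) 
(.lf (nat_lit 149270) (.g (nat_lit 2215) (.e (nat_lit 57378) (nat_lit 3) (.e (nat_lit 98313) (nat_lit 9) (.e (nat_lit 336086) (nat_lit 9) (.e (nat_lit 336454) (nat_lit 34) (.e (nat_lit 483364) (nat_lit 18) (.e (nat_lit 57852) (nat_lit 252) .nil)))))) (.g (nat_lit 4) .nil .nil))) 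
(.lf (nat_lit 149302) (.g (nat_lit 2865) (.e (nat_lit 57378) (nat_lit 3) (.e (nat_lit 98313) (nat_lit 9) (.e (nat_lit 336222) (nat_lit 13) (.e (nat_lit 393225) (nat_lit 9) (.e (nat_lit 335988) (nat_lit 1) (.e (nat_lit 57854) (nat_lit 252) .nil)))))) (.g (nat_lit 6) .nil .nil))))) (.nd (nat_lit 4) (.nd (nat_lit 5) 
(.lf (nat_lit 149262) (.g (nat_lit 2103) (.e (nat_lit 57378) (nat_lit 3) (.e (nat_lit 98313) (nat_lit 9) (.e (nat_lit 336076) (nat_lit 9) (.e (nat_lit 336456) (nat_lit 34) (.e (nat_lit 483365) (nat_lit 18) (.e (nat_lit 57852) (nat_lit 252) .nil)))))) (.g (nat_lit 4) .nil .nil))) 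
(.lf (nat_lit 149294) (.g (nat_lit 2686) (.e (nat_lit 57378) (nat_lit 3) (.e (nat_lit 98313) (nat_lit 9) (.e (nat_lit 336215) (nat_lit 13) (.e (nat_lit 393229) (nat_lit 9) (.e (nat_lit 335987) (nat_lit 1) (.e (nat_lit 57854) (nat_lit 252) .nil)))))) (.g (nat_lit 4) .nil .nil)))) (.nd (nat_lit 5) 
(.lf (nat_lit 149278) (.g (nat_lit 3888) (.e (nat_lit 57378) (nat_lit 3) (.e (nat_lit 98313) (nat_lit 9) (.e (nat_lit 336088) (nat_lit 9) (.e (nat_lit 336454) (nat_lit 34) (.e (nat_lit 483365) (nat_lit 18) (.e (nat_lit 57854) (nat_lit 252) .nil)))))) (.g (nat_lit 0) .nil .nil))) 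
(.lf (nat_lit 149310) (.g (nat_lit 3930) (.e (nat_lit 57378) (nat_lit 3) (.e (nat_lit 98313) (nat_lit 9) (.e (nat_lit 336223) (nat_lit 13) (.e (nat_lit 393224) (nat_lit 9) (.e (nat_lit 335988) (nat_lit 1) (.e (nat_lit 57854) (nat_lit 252) .nil)))))) (.g (nat_lit 0) .nil .nil)))))))) (.nd (nat_lit 1) (.nd (nat_lit 2) (.nd (nat_lit 3) (.nd (nat_lit 4) (.nd (nat_lit 5) 
(.lf (nat_lit 149249) (.g (nat_lit 2914) (.e (nat_lit 57378) (nat_lit 3) (.e (nat_lit 98312) (nat_lit 9) (.e (nat_lit 336215) (nat_lit 13) (.e (nat_lit 393229) (nat_lit 9) (.e (nat_lit 335995) (nat_lit 1) (.e (nat_lit 57847) (nat_lit 252) .nil)))))) (.g (nat_lit 5) .nil .nil))) 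
(.lf (nat_lit 149281) (.g (nat_lit 2828) (.e (nat_lit 57378) (nat_lit 3) (.e (nat_lit 98313) (nat_lit 9) (.e (nat_lit 336088) (nat_lit 9) (.e (nat_lit 336456) (nat_lit 34) (.e (nat_lit 483364) (nat_lit 18) (.e (nat_lit 57852) (nat_lit 252) .nil)))))) (.g (nat_lit 5) .nil .nil)))) (.nd (nat_lit 5) 
(.lf (nat_lit 149265) (.g (nat_lit 3745) (.e (nat_lit 57378) (nat_lit 3) (.e (nat_lit 98313) (nat_lit 9) (.e (nat_lit 336077) (nat_lit 9) (.e (nat_lit 336454) (nat_lit 34) (.e (nat_lit 483365) (nat_lit 18) (.e (nat_lit 57854) (nat_lit 252) .nil)))))) (.g (nat_lit 0) .nil .nil))) 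
(.lf (nat_lit 149297) (.g (nat_lit 3014) (.e (nat_lit 57378) (nat_lit 3) (.e (nat_lit 98313) (nat_lit 9) (.e (nat_lit 336215) (nat_lit 13) (.e (nat_lit 393229) (nat_lit 9) (.e (nat_lit 335995) (nat_lit 1) (.e (nat_lit 57847) (nat_lit 252) .nil)))))) (.g (nat_lit 4) .nil .nil))))) (.nd (nat_lit 4) (.nd (nat_lit 5) 
(.lf (nat_lit 149257) (.g (nat_lit 2520) (.e (nat_lit 57378) (nat_lit 3) (.e (nat_lit 98313) (nat_lit 9) (.e (nat_lit 336076) (nat_lit 9) (.e (nat_lit 336454) (nat_lit 34) (.e (nat_lit 483364) (nat_lit 18) (.e (nat_lit 57852) (nat_lit 252) .nil)))))) (.g (nat_lit 5) .nil .nil))) 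
(.lf (nat_lit 149289) (.g (nat_lit 3352) (.e (nat_lit 57378) (nat_lit 3) (.e (nat_lit 98313) (nat_lit 9) (.e (nat_lit 336213) (nat_lit 13) (.e (nat_lit 393229) (nat_lit 9) (.e (nat_lit 335988) (nat_lit 1) (.e (nat_lit 57854) (nat_lit 252) .nil)))))) (.g (nat_lit 0) .nil .nil)))) (.nd (nat_lit 5) 
(.lf (nat_lit 149273) (.g (nat_lit 3341) (.e (nat_lit 57378) (nat_lit 3) (.e (nat_lit 98313) (nat_lit 9) (.e (nat_lit 336086) (nat_lit 9) (.e (nat_lit 336454) (nat_lit 34) (.e (nat_lit 483365) (nat_lit 18) (.e (nat_lit 57854) (nat_lit 252) .nil)))))) (.g (nat_lit 5) .nil .nil))) 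
(.lf (nat_lit 149305) (.g (nat_lit 3385) (.e (nat_lit 57378) (nat_lit 3) (.e (nat_lit 98313) (nat_lit 9) (.e (nat_lit 336222) (nat_lit 13) (.e (nat_lit 393229) (nat_lit 9) (.e (nat_lit 335988) (nat_lit 1) (.e (nat_lit 57854) (nat_lit 252) .nil)))))) (.g (nat_lit 0) .nil .nil)))))) (.nd (nat_lit 3) (.nd (nat_lit 4) (.nd (nat_lit 5) 
(.lf (nat_lit 149253) (.g (nat_lit 1586) (.e (nat_lit 57378) (nat_lit 3) (.e (nat_lit 98313) (nat_lit 9) (.e (nat_lit 336027) (nat_lit 3) (.e (nat_lit 98338) (nat_lit 19) .nil)))) .nil)) 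
(.lf (nat_lit 149285) (.g (nat_lit 1679) (.e (nat_lit 57378) (nat_lit 3) (.e (nat_lit 98313) (nat_lit 9) (.e (nat_lit 336091) (nat_lit 9) (.e (nat_lit 336389) (nat_lit 27) (.e (nat_lit 426500) (nat_lit 27) .nil))))) .nil))) (.nd (nat_lit 5) 
(.lf (nat_lit 149269) (.g (nat_lit 1906) (.e (nat_lit 57378) (nat_lit 3) (.e (nat_lit 98313) (nat_lit 9) (.e (nat_lit 336085) (nat_lit 9) (.e (nat_lit 336454) (nat_lit 34) (.e (nat_lit 483364) (nat_lit 18) (.e (nat_lit 57854) (nat_lit 252) .nil)))))) (.g (nat_lit 4) .nil .nil))) 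
(.lf (nat_lit 149301) (.g (nat_lit 3145) (.e (nat_lit 57378) (nat_lit 3) (.e (nat_lit 98313) (nat_lit 9) (.e (nat_lit 336222) (nat_lit 13) (.e (nat_lit 393224) (nat_lit 9) (.e (nat_lit 335988) (nat_lit 1) (.e (nat_lit 57854) (nat_lit 252) .nil)))))) (.g (nat_lit 6) .nil .nil))))) (.nd (nat_lit 4) (.nd (nat_lit 5) 
(.lf (nat_lit 149261) (.g (nat_lit 3035) (.e (nat_lit 57378) (nat_lit 3) (.e (nat_lit 98313) (nat_lit 9) (.e (nat_lit 336076) (nat_lit 9) (.e (nat_lit 336456) (nat_lit 34) (.e (nat_lit 483364) (nat_lit 18) (.e (nat_lit 57854) (nat_lit 252) .nil)))))) (.g (nat_lit 6) .nil .nil))) 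
(.lf (nat_lit 149293) (.g (nat_lit 2984) (.e (nat_lit 57378) (nat_lit 3) (.e (nat_lit 98313) (nat_lit 9) (.e (nat_lit 336215) (nat_lit 13) (.e (nat_lit 393229) (nat_lit 9) (.e (nat_lit 335986) (nat_lit 1) (.e (nat_lit 57847) (nat_lit 252) .nil)))))) (.g (nat_lit 4) .nil .nil)))) (.nd (nat_lit 5) 
(.lf (nat_lit 149277) (.g (nat_lit 3052) (.e (nat_lit 57378) (nat_lit 3) (.e (nat_lit 98313) (nat_lit 9) (.e (nat_lit 336088) (nat_lit 9) (.e (nat_lit 336454) (nat_lit 34) (.e (nat_lit 483365) (nat_lit 18) (.e (nat_lit 57852) (nat_lit 252) .nil)))))) (.g (nat_lit 6) .nil .nil))) 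
(.lf (nat_lit 149309) (.g (nat_lit 1400) (.e (nat_lit 57378) (nat_lit 3) (.e (nat_lit 98313) (nat_lit 9) (.e (nat_lit 336223) (nat_lit 13) (.e (nat_lit 393224) (nat_lit 9) .nil)))) .nil)))))) (.nd (nat_lit 2) (.nd (nat_lit 3) (.nd (nat_lit 4) (.nd (nat_lit 5) 
(.lf (nat_lit 149251) (.g (nat_lit 1549) (.e (nat_lit 57378) (nat_lit 3) (.e (nat_lit 98313) (nat_lit 9) (.e (nat_lit 336021) (nat_lit 3) (.e (nat_lit 98342) (nat_lit 20) .nil)))) .nil)) 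
(.lf (nat_lit 149283) (.g (nat_lit 2706) (.e (nat_lit 57378) (nat_lit 3) (.e (nat_lit 98313) (nat_lit 9) (.e (nat_lit 336088) (nat_lit 9) (.e (nat_lit 336456) (nat_lit 34) (.e (nat_lit 483365) (nat_lit 18) (.e (nat_lit 57847) (nat_lit 252) .nil)))))) (.g (nat_lit 4) .nil .nil)))) (.nd (nat_lit 5) 
(.lf (nat_lit 149267) (.g (nat_lit 2460) (.e (nat_lit 57378) (nat_lit 3) (.e (nat_lit 98313) (nat_lit 9) (.e (nat_lit 336078) (nat_lit 9) (.e (nat_lit 336454) (nat_lit 34) (.e (nat_lit 483364) (nat_lit 18) (.e (nat_lit 57852) (nat_lit 252) .nil)))))) (.g (nat_lit 5) .nil .nil))) 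
(.lf (nat_lit 149299) (.g (nat_lit 4207) (.e (nat_lit 57378) (nat_lit 3) (.e (nat_lit 98313) (nat_lit 9) (.e (nat_lit 336215) (nat_lit 13) (.e (nat_lit 393229) (nat_lit 9) (.e (nat_lit 335996) (nat_lit 1) (.e (nat_lit 57854) (nat_lit 252) .nil)))))) (.g (nat_lit 0) .nil .nil))))) (.nd (nat_lit 4) (.nd (nat_lit 5) 
(.lf (nat_lit 149259) (.g (nat_lit 3006) (.e (nat_lit 57378) (nat_lit 3) (.e (nat_lit 98313) (nat_lit 9) (.e (nat_lit 336076) (nat_lit 9) (.e (nat_lit 336456) (nat_lit 34) (.e (nat_lit 483363) (nat_lit 18) (.e (nat_lit 57854) (nat_lit 252) .nil)))))) (.g (nat_lit 5) .nil .nil))) 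
(.lf (nat_lit 149291) (.g (nat_lit 2616) (.e (nat_lit 57378) (nat_lit 3) (.e (nat_lit 98313) (nat_lit 9) (.e (nat_lit 336214) (nat_lit 13) (.e (nat_lit 393229) (nat_lit 9) (.e (nat_lit 335986) (nat_lit 1) (.e (nat_lit 57854) (nat_lit 252) .nil)))))) (.g (nat_lit 5) .nil .nil)))) (.nd (nat_lit 5) 
(.lf (nat_lit 149275) (.g (nat_lit 3313) (.e (nat_lit 57378) (nat_lit 3) (.e (nat_lit 98313) (nat_lit 9) (.e (nat_lit 336088) (nat_lit 9) (.e (nat_lit 336454) (nat_lit 34) (.e (nat_lit 483364) (nat_lit 18) (.e (nat_lit 57854) (nat_lit 252) .nil)))))) (.g (nat_lit 0) .nil .nil))) 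
(.lf (nat_lit 149307) (.g (nat_lit 3860) (.e (nat_lit 57378) (nat_lit 3) (.e (nat_lit 98313) (nat_lit 9) (.e (nat_lit 336222) (nat_lit 13) (.e (nat_lit 393229) (nat_lit 9) (.e (nat_lit 335996) (nat_lit 1) (.e (nat_lit 57854) (nat_lit 252) .nil)))))) (.g (nat_lit 0) .nil .nil)))))) (.nd (nat_lit 3) (.nd (nat_lit 4) (.nd (nat_lit 5) 
(.lf (nat_lit 149255) (.g (nat_lit 4371) (.e (nat_lit 57378) (nat_lit 3) (.e (nat_lit 98313) (nat_lit 9) (.e (nat_lit 336027) (nat_lit 3) (.e (nat_lit 98341) (nat_lit 20) (.e (nat_lit 221215) (nat_lit 23) (.e (nat_lit 204830) (nat_lit 18) (.e (nat_lit 57852) (nat_lit 252) .nil))))))) (.g (nat_lit 7) .nil .nil))) 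
(.lf (nat_lit 149287) (.g (nat_lit 3440) (.e (nat_lit 57378) (nat_lit 3) (.e (nat_lit 98313) (nat_lit 9) (.e (nat_lit 336213) (nat_lit 13) (.e (nat_lit 393225) (nat_lit 9) (.e (nat_lit 335988) (nat_lit 1) (.e (nat_lit 57854) (nat_lit 252) .nil)))))) (.g (nat_lit 0) .nil .nil)))) (.nd (nat_lit 5) 
(.lf (nat_lit 149271) (.g (nat_lit 2883) (.e (nat_lit 57378) (nat_lit 3) (.e (nat_lit 98313) (nat_lit 9) (.e (nat_lit 336086) (nat_lit 9) (.e (nat_lit 336454) (nat_lit 34) (.e (nat_lit 483364) (nat_lit 18) (.e (nat_lit 57854) (nat_lit 252) .nil)))))) (.g (nat_lit 5) .nil .nil))) 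
(.lf (nat_lit 149303) (.g (nat_lit 3153) (.e (nat_lit 57378) (nat_lit 3) (.e (nat_lit 98313) (nat_lit 9) (.e (nat_lit 336222) (nat_lit 13) (.e (nat_lit 393225) (nat_lit 9) (.e (nat_lit 335996) (nat_lit 1) (.e (nat_lit 57854) (nat_lit 252) .nil)))))) (.g (nat_lit 6) .nil .nil))))) (.nd (nat_lit 4) (.nd (nat_lit 5) 
(.lf (nat_lit 149263) (.g (nat_lit 3264) (.e (nat_lit 57378) (nat_lit 3) (.e (nat_lit 98313) (nat_lit 9) (.e (nat_lit 336076) (nat_lit 9) (.e (nat_lit 336456) (nat_lit 34) (.e (nat_lit 483365) (nat_lit 18) (.e (nat_lit 57854) (nat_lit 252) .nil)))))) (.g (nat_lit 6) .nil .nil))) 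
(.lf (nat_lit 149295) (.g (nat_lit 3061) (.e (nat_lit 57378) (nat_lit 3) (.e (nat_lit 98313) (nat_lit 9) (.e (nat_lit 336215) (nat_lit 13) (.e (nat_lit 393229) (nat_lit 9) (.e (nat_lit 335988) (nat_lit 1) (.e (nat_lit 57852) (nat_lit 252) .nil)))))) (.g (nat_lit 6) .nil .nil)))) (.nd (nat_lit 5) 
(.lf (nat_lit 149279) (.g (nat_lit 2750) (.e (nat_lit 57378) (nat_lit 3) (.e (nat_lit 98313) (nat_lit 9) (.e (nat_lit 336088) (nat_lit 9) (.e (nat_lit 336456) (nat_lit 34) (.e (nat_lit 483363) (nat_lit 18) (.e (nat_lit 57847) (nat_lit 252) .nil)))))) (.g (nat_lit 4) .nil .nil))) 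
(.lf (nat_lit 149311) (.g (nat_lit 2568) (.e (nat_lit 57378) (nat_lit 3) (.e (nat_lit 98313) (nat_lit 9) (.e (nat_lit 336223) (nat_lit 13) (.e (nat_lit 393225) (nat_lit 9) (.e (nat_lit 335986) (nat_lit 1) (.e (nat_lit 57847) (nat_lit 252) .nil)))))) (.g (nat_lit 4) .nil .nil)))))))))

noncomputable def tv1989 : DT := (.nd (nat_lit 0) (.nd (nat_lit 1) (.nd (nat_lit 2) (.nd (nat_lit 3) (.nd (nat_lit 4) (.nd (nat_lit 5) 
(.lf (nat_lit 149312) (.g (nat_lit 3271) (.e (nat_lit 57378) (nat_lit 3) (.e (nat_lit 98313) (nat_lit 9) (.e (nat_lit 336223) (nat_lit 13) (.e (nat_lit 393225) (nat_lit 9) (.e (nat_lit 335988) (nat_lit 1) (.e (nat_lit 57854) (nat_lit 252) .nil)))))) (.g (nat_lit 0) .nil .nil))) 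
(.lf (nat_lit 149344) (.g (nat_lit 3430) (.e (nat_lit 57378) (nat_lit 3) (.e (nat_lit 98317) (nat_lit 9) (.e (nat_lit 336076) (nat_lit 9) (.e (nat_lit 336454) (nat_lit 34) (.e (nat_lit 483365) (nat_lit 18) (.e (nat_lit 57849) (nat_lit 252) .nil)))))) (.g (nat_lit 5) .nil .nil)))) (.nd (nat_lit 5) 
(.lf (nat_lit 149328) (.g (nat_lit 1813) (.e (nat_lit 57378) (nat_lit 3) (.e (nat_lit 98316) (nat_lit 9) (.e (nat_lit 336076) (nat_lit 9) (.e (nat_lit 336454) (nat_lit 34) (.e (nat_lit 483364) (nat_lit 18) (.e (nat_lit 57852) (nat_lit 252) .nil)))))) (.g (nat_lit 4) .nil .nil))) 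
(.lf (nat_lit 149360) (.g (nat_lit 3559) (.e (nat_lit 57378) (nat_lit 3) (.e (nat_lit 98317) (nat_lit 9) (.e (nat_lit 336078) (nat_lit 9) (.e (nat_lit 336454) (nat_lit 34) (.e (nat_lit 483365) (nat_lit 18) (.e (nat_lit 57846) (nat_lit 252) .nil)))))) (.g (nat_lit 5) .nil .nil))))) (.nd (nat_lit 4) (.nd (nat_lit 5) 
(.lf (nat_lit 149320) (.g (nat_lit 3921) (.e (nat_lit 57378) (nat_lit 3) (.e (nat_lit 98313) (nat_lit 9) (.e (nat_lit 336223) (nat_lit 13) (.e (nat_lit 393229) (nat_lit 9) (.e (nat_lit 335996) (nat_lit 1) (.e (nat_lit 57854) (nat_lit 252) .nil)))))) (.g (nat_lit 0) .nil .nil))) 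
(.lf (nat_lit 149352) (.g (nat_lit 3139) (.e (nat_lit 57378) (nat_lit 3) (.e (nat_lit 98317) (nat_lit 9) (.e (nat_lit 336077) (nat_lit 9) (.e (nat_lit 336454) (nat_lit 34) (.e (nat_lit 483363) (nat_lit 18) (.e (nat_lit 57847) (nat_lit 252) .nil)))))) (.g (nat_lit 6) .nil .nil)))) (.nd (nat_lit 5) 
(.lf (nat_lit 149336) (.g (nat_lit 2234) (.e (nat_lit 57378) (nat_lit 3) (.e (nat_lit 98317) (nat_lit 9) (.e (nat_lit 336027) (nat_lit 3) (.e (nat_lit 98341) (nat_lit 20) (.e (nat_lit 221214) (nat_lit 23) (.e (nat_lit 204830) (nat_lit 18) (.e (nat_lit 57854) (nat_lit 252) .nil))))))) (.g (nat_lit 4) .nil .nil))) 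
(.lf (nat_lit 149368) (.g (nat_lit 1119) (.e (nat_lit 57378) (nat_lit 3) (.e (nat_lit 98317) (nat_lit 9) (.e (nat_lit 336086) (nat_lit 9) (.e (nat_lit 336379) (nat_lit 27) .nil)))) .nil))))) (.nd (nat_lit 3) (.nd (nat_lit 4) (.nd (nat_lit 5) 
(.lf (nat_lit 149316) (.g (nat_lit 2542) (.e (nat_lit 57378) (nat_lit 3) (.e (nat_lit 98313) (nat_lit 9) (.e (nat_lit 336223) (nat_lit 13) (.e (nat_lit 393229) (nat_lit 9) (.e (nat_lit 335986) (nat_lit 1) (.e (nat_lit 57847) (nat_lit 252) .nil)))))) (.g (nat_lit 4) .nil .nil))) 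
(.lf (nat_lit 149348) (.g (nat_lit 3463) (.e (nat_lit 57378) (nat_lit 3) (.e (nat_lit 98317) (nat_lit 9) (.e (nat_lit 336076) (nat_lit 9) (.e (nat_lit 336456) (nat_lit 34) (.e (nat_lit 483363) (nat_lit 18) (.e (nat_lit 57847) (nat_lit 252) .nil)))))) (.g (nat_lit 0) .nil .nil)))) (.nd (nat_lit 5) 
(.lf (nat_lit 149332) (.g (nat_lit 2510) (.e (nat_lit 57378) (nat_lit 3) (.e (nat_lit 98316) (nat_lit 9) (.e (nat_lit 336215) (nat_lit 13) (.e (nat_lit 393229) (nat_lit 9) (.e (nat_lit 335986) (nat_lit 1) (.e (nat_lit 57847) (nat_lit 252) .nil)))))) (.g (nat_lit 4) .nil .nil))) 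
(.lf (nat_lit 149364) (.g (nat_lit 2643) (.e (nat_lit 57378) (nat_lit 3) (.e (nat_lit 98317) (nat_lit 9) (.e (nat_lit 336085) (nat_lit 9) (.e (nat_lit 336454) (nat_lit 34) (.e (nat_lit 483364) (nat_lit 18) (.e (nat_lit 57854) (nat_lit 252) .nil)))))) (.g (nat_lit 5) .nil .nil))))) (.nd (nat_lit 4) (.nd (nat_lit 5) 
(.lf (nat_lit 149324) (.g (nat_lit 1968) (.e (nat_lit 57378) (nat_lit 3) (.e (nat_lit 98315) (nat_lit 9) (.e (nat_lit 336154) (nat_lit 9) (.e (nat_lit 336453) (nat_lit 34) (.e (nat_lit 483365) (nat_lit 18) (.e (nat_lit 57852) (nat_lit 252) .nil)))))) (.g (nat_lit 6) .nil .nil))) 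
(.lf (nat_lit 149356) (.g (nat_lit 3376) (.e (nat_lit 57378) (nat_lit 3) (.e (nat_lit 98317) (nat_lit 9) (.e (nat_lit 336077) (nat_lit 9) (.e (nat_lit 336454) (nat_lit 34) (.e (nat_lit 483365) (nat_lit 18) (.e (nat_lit 57852) (nat_lit 252) .nil)))))) (.g (nat_lit 6) .nil .nil)))) (.nd (nat_lit 5) 
(.lf (nat_lit 149340) (.g (nat_lit 2472) (.e (nat_lit 57378) (nat_lit 3) (.e (nat_lit 98317) (nat_lit 9) (.e (nat_lit 336076) (nat_lit 9) (.e (nat_lit 336452) (nat_lit 34) (.e (nat_lit 483363) (nat_lit 18) (.e (nat_lit 57854) (nat_lit 252) .nil)))))) (.g (nat_lit 4) .nil .nil))) 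
(.lf (nat_lit 149372) (.g (nat_lit 2540) (.e (nat_lit 57378) (nat_lit 3) (.e (nat_lit 98317) (nat_lit 9) (.e (nat_lit 336086) (nat_lit 9) (.e (nat_lit 336454) (nat_lit 34) (.e (nat_lit 483366) (nat_lit 18) .nil))))) .nil)))))) (.nd (nat_lit 2) (.nd (nat_lit 3) (.nd (nat_lit 4) (.nd (nat_lit 5) 
(.lf (nat_lit 149314) (.g (nat_lit 1429) (.e (nat_lit 57378) (nat_lit 3) (.e (nat_lit 98313) (nat_lit 9) (.e (nat_lit 336223) (nat_lit 13) (.e (nat_lit 393228) (nat_lit 9) .nil)))) .nil)) 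
(.lf (nat_lit 149346) (.g (nat_lit 3279) (.e (nat_lit 57378) (nat_lit 3) (.e (nat_lit 98317) (nat_lit 9) (.e (nat_lit 336076) (nat_lit 9) (.e (nat_lit 336454) (nat_lit 34) (.e (nat_lit 483366) (nat_lit 18) (.e (nat_lit 57847) (nat_lit 252) .nil)))))) (.g (nat_lit 0) .nil .nil)))) (.nd (nat_lit 5) 
(.lf (nat_lit 149330) (.g (nat_lit 2608) (.e (nat_lit 57378) (nat_lit 3) (.e (nat_lit 98316) (nat_lit 9) (.e (nat_lit 336078) (nat_lit 9) (.e (nat_lit 336454) (nat_lit 34) (.e (nat_lit 483365) (nat_lit 18) (.e (nat_lit 57852) (nat_lit 252) .nil)))))) (.g (nat_lit 6) .nil .nil))) 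
(.lf (nat_lit 149362) (.g (nat_lit 3621) (.e (nat_lit 57378) (nat_lit 3) (.e (nat_lit 98317) (nat_lit 9) (.e (nat_lit 336078) (nat_lit 9) (.e (nat_lit 336454) (nat_lit 34) (.e (nat_lit 483365) (nat_lit 18) (.e (nat_lit 57854) (nat_lit 252) .nil)))))) (.g (nat_lit 0) .nil .nil))))) (.nd (nat_lit 4) (.nd (nat_lit 5) 
(.lf (nat_lit 149322) (.g (nat_lit 1992) (.e (nat_lit 57378) (nat_lit 3) (.e (nat_lit 98315) (nat_lit 9) (.e (nat_lit 336121) (nat_lit 9) (.e (nat_lit 336453) (nat_lit 34) (.e (nat_lit 483365) (nat_lit 18) (.e (nat_lit 57852) (nat_lit 252) .nil)))))) (.g (nat_lit 6) .nil .nil))) 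
(.lf (nat_lit 149354) (.g (nat_lit 2887) (.e (nat_lit 57378) (nat_lit 3) (.e (nat_lit 98317) (nat_lit 9) (.e (nat_lit 336077) (nat_lit 9) (.e (nat_lit 336454) (nat_lit 34) (.e (nat_lit 483364) (nat_lit 18) (.e (nat_lit 57854) (nat_lit 252) .nil)))))) (.g (nat_lit 0) .nil .nil)))) (.nd (nat_lit 5) 
(.lf (nat_lit 149338) (.g (nat_lit 2099) (.e (nat_lit 57378) (nat_lit 3) (.e (nat_lit 98317) (nat_lit 9) (.e (nat_lit 336027) (nat_lit 3) (.e (nat_lit 98342) (nat_lit 20) (.e (nat_lit 221214) (nat_lit 23) (.e (nat_lit 204829) (nat_lit 18) (.e (nat_lit 57847) (nat_lit 252) .nil))))))) (.g (nat_lit 4) .nil .nil))) 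
(.lf (nat_lit 149370) (.g (nat_lit 3553) (.e (nat_lit 57378) (nat_lit 3) (.e (nat_lit 98317) (nat_lit 9) (.e (nat_lit 336086) (nat_lit 9) (.e (nat_lit 336454) (nat_lit 34) (.e (nat_lit 483363) (nat_lit 18) (.e (nat_lit 57854) (nat_lit 252) .nil)))))) (.g (nat_lit 6) .nil .nil)))))) (.nd (nat_lit 3) (.nd (nat_lit 4) (.nd (nat_lit 5) 
(.lf (nat_lit 149318) (.g (nat_lit 3427) (.e (nat_lit 57378) (nat_lit 3) (.e (nat_lit 98313) (nat_lit 9) (.e (nat_lit 336223) (nat_lit 13) (.e (nat_lit 393229) (nat_lit 9) (.e (nat_lit 335988) (nat_lit 1) (.e (nat_lit 57854) (nat_lit 252) .nil)))))) (.g (nat_lit 0) .nil .nil))) 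
(.lf (nat_lit 149350) (.g (nat_lit 3422) (.e (nat_lit 57378) (nat_lit 3) (.e (nat_lit 98317) (nat_lit 9) (.e (nat_lit 336076) (nat_lit 9) (.e (nat_lit 336456) (nat_lit 34) (.e (nat_lit 483365) (nat_lit 18) (.e (nat_lit 57847) (nat_lit 252) .nil)))))) (.g (nat_lit 0) .nil .nil)))) (.nd (nat_lit 5) 
(.lf (nat_lit 149334) (.g (nat_lit 961) (.e (nat_lit 57378) (nat_lit 3) (.e (nat_lit 98317) (nat_lit 9) (.e (nat_lit 336021) (nat_lit 3) .nil))) .nil)) 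
(.lf (nat_lit 149366) (.g (nat_lit 1507) (.e (nat_lit 57378) (nat_lit 3) (.e (nat_lit 98317) (nat_lit 9) (.e (nat_lit 336085) (nat_lit 9) (.e (nat_lit 336456) (nat_lit 34) (.e (nat_lit 483365) (nat_lit 18) .nil))))) .nil)))) (.nd (nat_lit 4) (.nd (nat_lit 5) 
(.lf (nat_lit 149326) (.g (nat_lit 2584) (.e (nat_lit 57378) (nat_lit 3) (.e (nat_lit 98315) (nat_lit 9) (.e (nat_lit 336209) (nat_lit 13) (.e (nat_lit 393225) (nat_lit 9) (.e (nat_lit 335988) (nat_lit 1) (.e (nat_lit 57854) (nat_lit 252) .nil)))))) (.g (nat_lit 0) .nil .nil))) 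
(.lf (nat_lit 149358) (.g (nat_lit 3513) (.e (nat_lit 57378) (nat_lit 3) (.e (nat_lit 98317) (nat_lit 9) (.e (nat_lit 336078) (nat_lit 9) (.e (nat_lit 336454) (nat_lit 34) (.e (nat_lit 483363) (nat_lit 18) (.e (nat_lit 57847) (nat_lit 252) .nil)))))) (.g (nat_lit 0) .nil .nil)))) (.nd (nat_lit 5) 
(.lf (nat_lit 149342) (.g (nat_lit 3398) (.e (nat_lit 57378) (nat_lit 3) (.e (nat_lit 98317) (nat_lit 9) (.e (nat_lit 336076) (nat_lit 9) (.e (nat_lit 336454) (nat_lit 34) (.e (nat_lit 483364) (nat_lit 18) (.e (nat_lit 57852) (nat_lit 252) .nil)))))) (.g (nat_lit 0) .nil .nil))) 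
(.lf (nat_lit 149374) (.g (nat_lit 2399) (.e (nat_lit 57378) (nat_lit 3) (.e (nat_lit 98317) (nat_lit 9) (.e (nat_lit 336086) (nat_lit 9) (.e (nat_lit 336456) (nat_lit 34) (.e (nat_lit 483364) (nat_lit 18) (.e (nat_lit 57852) (nat_lit 252) .nil)))))) (.g (nat_lit 4) .nil .nil)))))))) (.nd (nat_lit 1) (.nd (nat_lit 2) (.nd (nat_lit 3) (.nd (nat_lit 4) (.nd (nat_lit 5) 
(.lf (nat_lit 149313) (.g (nat_lit 3713) (.e (nat_lit 57378) (nat_lit 3) (.e (nat_lit 98313) (nat_lit 9) (.e (nat_lit 336223) (nat_lit 13) (.e (nat_lit 393225) (nat_lit 9) (.e (nat_lit 335996) (nat_lit 1) (.e (nat_lit 57854) (nat_lit 252) .nil)))))) (.g (nat_lit 0) .nil .nil))) 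
(.lf (nat_lit 149345) (.g (nat_lit 3494) (.e (nat_lit 57378) (nat_lit 3) (.e (nat_lit 98317) (nat_lit 9) (.e (nat_lit 336076) (nat_lit 9) (.e (nat_lit 336454) (nat_lit 34) (.e (nat_lit 483366) (nat_lit 18) (.e (nat_lit 57846) (nat_lit 252) .nil)))))) (.g (nat_lit 6) .nil .nil)))) (.nd (nat_lit 5) 
(.lf (nat_lit 149329) (.g (nat_lit 2009) (.e (nat_lit 57378) (nat_lit 3) (.e (nat_lit 98316) (nat_lit 9) (.e (nat_lit 336076) (nat_lit 9) (.e (nat_lit 336454) (nat_lit 34) (.e (nat_lit 483364) (nat_lit 18) (.e (nat_lit 57854) (nat_lit 252) .nil)))))) (.g (nat_lit 4) .nil .nil))) 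
(.lf (nat_lit 149361) (.g (nat_lit 3298) (.e (nat_lit 57378) (nat_lit 3) (.e (nat_lit 98317) (nat_lit 9) (.e (nat_lit 336078) (nat_lit 9) (.e (nat_lit 336454) (nat_lit 34) (.e (nat_lit 483365) (nat_lit 18) (.e (nat_lit 57847) (nat_lit 252) .nil)))))) (.g (nat_lit 0) .nil .nil))))) (.nd (nat_lit 4) (.nd (nat_lit 5) 
(.lf (nat_lit 149321) (.g (nat_lit 2569) (.e (nat_lit 57378) (nat_lit 3) (.e (nat_lit 98315) (nat_lit 9) (.e (nat_lit 336119) (nat_lit 9) (.e (nat_lit 336453) (nat_lit 34) (.e (nat_lit 483365) (nat_lit 18) (.e (nat_lit 57854) (nat_lit 252) .nil)))))) (.g (nat_lit 0) .nil .nil))) 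
(.lf (nat_lit 149353) (.g (nat_lit 2661) (.e (nat_lit 57378) (nat_lit 3) (.e (nat_lit 98317) (nat_lit 9) (.e (nat_lit 336077) (nat_lit 9) (.e (nat_lit 336454) (nat_lit 34) (.e (nat_lit 483364) (nat_lit 18) (.e (nat_lit 57852) (nat_lit 252) .nil)))))) (.g (nat_lit 6) .nil .nil)))) (.nd (nat_lit 5) 
(.lf (nat_lit 149337) (.g (nat_lit 1988) (.e (nat_lit 57378) (nat_lit 3) (.e (nat_lit 98317) (nat_lit 9) (.e (nat_lit 336027) (nat_lit 3) (.e (nat_lit 98341) (nat_lit 20) (.e (nat_lit 221215) (nat_lit 23) (.e (nat_lit 204829) (nat_lit 18) (.e (nat_lit 57847) (nat_lit 252) .nil))))))) (.g (nat_lit 4) .nil .nil))) 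
(.lf (nat_lit 149369) (.g (nat_lit 3465) (.e (nat_lit 57378) (nat_lit 3) (.e (nat_lit 98317) (nat_lit 9) (.e (nat_lit 336086) (nat_lit 9) (.e (nat_lit 336454) (nat_lit 34) (.e (nat_lit 483363) (nat_lit 18) (.e (nat_lit 57847) (nat_lit 252) .nil)))))) (.g (nat_lit 0) .nil .nil)))))) (.nd (nat_lit 3) (.nd (nat_lit 4) (.nd (nat_lit 5) 
(.lf (nat_lit 149317) (.g (nat_lit 2736) (.e (nat_lit 57378) (nat_lit 3) (.e (nat_lit 98313) (nat_lit 9) (.e (nat_lit 336223) (nat_lit 13) (.e (nat_lit 393229) (nat_lit 9) (.e (nat_lit 335988) (nat_lit 1) (.e (nat_lit 57852) (nat_lit 252) .nil)))))) (.g (nat_lit 6) .nil .nil))) 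
(.lf (nat_lit 149349) (.g (nat_lit 3444) (.e (nat_lit 57378) (nat_lit 3) (.e (nat_lit 98317) (nat_lit 9) (.e (nat_lit 336076) (nat_lit 9) (.e (nat_lit 336456) (nat_lit 34) (.e (nat_lit 483365) (nat_lit 18) (.e (nat_lit 57846) (nat_lit 252) .nil)))))) (.g (nat_lit 6) .nil .nil)))) (.nd (nat_lit 5) 
(.lf (nat_lit 149333) (.g (nat_lit 2549) (.e (nat_lit 57378) (nat_lit 3) (.e (nat_lit 98316) (nat_lit 9) (.e (nat_lit 336215) (nat_lit 13) (.e (nat_lit 393229) (nat_lit 9) (.e (nat_lit 335995) (nat_lit 1) (.e (nat_lit 57847) (nat_lit 252) .nil)))))) (.g (nat_lit 4) .nil .nil))) 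
(.lf (nat_lit 149365) (.g (nat_lit 1616) (.e (nat_lit 57378) (nat_lit 3) (.e (nat_lit 98317) (nat_lit 9) (.e (nat_lit 336085) (nat_lit 9) (.e (nat_lit 336456) (nat_lit 34) (.e (nat_lit 483364) (nat_lit 18) .nil))))) .nil)))) (.nd (nat_lit 4) (.nd (nat_lit 5) 
(.lf (nat_lit 149325) (.g (nat_lit 2467) (.e (nat_lit 57378) (nat_lit 3) (.e (nat_lit 98315) (nat_lit 9) (.e (nat_lit 336154) (nat_lit 9) (.e (nat_lit 336453) (nat_lit 34) (.e (nat_lit 483365) (nat_lit 18) (.e (nat_lit 57854) (nat_lit 252) .nil)))))) (.g (nat_lit 0) .nil .nil))) 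
(.lf (nat_lit 149357) (.g (nat_lit 3860) (.e (nat_lit 57378) (nat_lit 3) (.e (nat_lit 98317) (nat_lit 9) (.e (nat_lit 336077) (nat_lit 9) (.e (nat_lit 336454) (nat_lit 34) (.e (nat_lit 483365) (nat_lit 18) (.e (nat_lit 57854) (nat_lit 252) .nil)))))) (.g (nat_lit 0) .nil .nil)))) (.nd (nat_lit 5) 
(.lf (nat_lit 149341) (.g (nat_lit 2245) (.e (nat_lit 57378) (nat_lit 3) (.e (nat_lit 98317) (nat_lit 9) (.e (nat_lit 336076) (nat_lit 9) (.e (nat_lit 336452) (nat_lit 34) (.e (nat_lit 483364) (nat_lit 18) (.e (nat_lit 57854) (nat_lit 252) .nil)))))) (.g (nat_lit 4) .nil .nil))) 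
(.lf (nat_lit 149373) (.g (nat_lit 2741) (.e (nat_lit 57378) (nat_lit 3) (.e (nat_lit 98317) (nat_lit 9) (.e (nat_lit 336086) (nat_lit 9) (.e (nat_lit 336456) (nat_lit 34) (.e (nat_lit 483363) (nat_lit 18) (.e (nat_lit 57847) (nat_lit 252) .nil)))))) (.g (nat_lit 4) .nil .nil))))))) (.nd (nat_lit 2) (.nd (nat_lit 3) (.nd (nat_lit 4) (.nd (nat_lit 5) 
(.lf (nat_lit 149315) (.g (nat_lit 3233) (.e (nat_lit 57378) (nat_lit 3) (.e (nat_lit 98313) (nat_lit 9) (.e (nat_lit 336223) (nat_lit 13) (.e (nat_lit 393228) (nat_lit 9) (.e (nat_lit 335988) (nat_lit 1) (.e (nat_lit 57854) (nat_lit 252) .nil)))))) (.g (nat_lit 5) .nil .nil))) 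
(.lf (nat_lit 149347) (.g (nat_lit 2538) (.e (nat_lit 57378) (nat_lit 3) (.e (nat_lit 98317) (nat_lit 9) (.e (nat_lit 336076) (nat_lit 9) (.e (nat_lit 336454) (nat_lit 34) (.e (nat_lit 483366) (nat_lit 18) (.e (nat_lit 57849) (nat_lit 252) .nil)))))) (.g (nat_lit 4) .nil .nil)))) (.nd (nat_lit 5) 
(.lf (nat_lit 149331) (.g (nat_lit 1746) (.e (nat_lit 57378) (nat_lit 3) (.e (nat_lit 98316) (nat_lit 9) (.e (nat_lit 336086) (nat_lit 9) (.e (nat_lit 336454) (nat_lit 34) (.e (nat_lit 483364) (nat_lit 18) (.e (nat_lit 57854) (nat_lit 252) .nil)))))) (.g (nat_lit 4) .nil .nil))) 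
(.lf (nat_lit 149363) (.g (nat_lit 2639) (.e (nat_lit 57378) (nat_lit 3) (.e (nat_lit 98317) (nat_lit 9) (.e (nat_lit 336085) (nat_lit 9) (.e (nat_lit 336454) (nat_lit 34) (.e (nat_lit 483363) (nat_lit 18) (.e (nat_lit 57847) (nat_lit 252) .nil)))))) (.g (nat_lit 5) .nil .nil))))) (.nd (nat_lit 4) (.nd (nat_lit 5) 
(.lf (nat_lit 149323) (.g (nat_lit 1947) (.e (nat_lit 57378) (nat_lit 3) (.e (nat_lit 98315) (nat_lit 9) (.e (nat_lit 336152) (nat_lit 9) (.e (nat_lit 336453) (nat_lit 34) (.e (nat_lit 483365) (nat_lit 18) (.e (nat_lit 57852) (nat_lit 252) .nil)))))) (.g (nat_lit 6) .nil .nil))) 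
(.lf (nat_lit 149355) (.g (nat_lit 3408) (.e (nat_lit 57378) (nat_lit 3) (.e (nat_lit 98317) (nat_lit 9) (.e (nat_lit 336077) (nat_lit 9) (.e (nat_lit 336454) (nat_lit 34) (.e (nat_lit 483365) (nat_lit 18) (.e (nat_lit 57847) (nat_lit 252) .nil)))))) (.g (nat_lit 6) .nil .nil)))) (.nd (nat_lit 5) 
(.lf (nat_lit 149339) (.g (nat_lit 2119) (.e (nat_lit 57378) (nat_lit 3) (.e (nat_lit 98317) (nat_lit 9) (.e (nat_lit 336076) (nat_lit 9) (.e (nat_lit 336452) (nat_lit 34) (.e (nat_lit 483363) (nat_lit 18) (.e (nat_lit 57847) (nat_lit 252) .nil)))))) (.g (nat_lit 4) .nil .nil))) 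
(.lf (nat_lit 149371) (.g (nat_lit 3435) (.e (nat_lit 57378) (nat_lit 3) (.e (nat_lit 98317) (nat_lit 9) (.e (nat_lit 336086) (nat_lit 9) (.e (nat_lit 336454) (nat_lit 34) (.e (nat_lit 483365) (nat_lit 18) (.e (nat_lit 57847) (nat_lit 252) .nil)))))) (.g (nat_lit 0) .nil .nil)))))) (.nd (nat_lit 3) (.nd (nat_lit 4) (.nd (nat_lit 5) 
(.lf (nat_lit 149319) (.g (nat_lit 3305) (.e (nat_lit 57378) (nat_lit 3) (.e (nat_lit 98313) (nat_lit 9) (.e (nat_lit 336223) (nat_lit 13) (.e (nat_lit 393229) (nat_lit 9) (.e (nat_lit 335996) (nat_lit 1) (.e (nat_lit 57852) (nat_lit 252) .nil)))))) (.g (nat_lit 6) .nil .nil))) 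
(.lf (nat_lit 149351) (.g (nat_lit 3126) (.e (nat_lit 57378) (nat_lit 3) (.e (nat_lit 98317) (nat_lit 9) (.e (nat_lit 336076) (nat_lit 9) (.e (nat_lit 336456) (nat_lit 34) (.e (nat_lit 483365) (nat_lit 18) (.e (nat_lit 57852) (nat_lit 252) .nil)))))) (.g (nat_lit 6) .nil .nil)))) (.nd (nat_lit 5) 
(.lf (nat_lit 149335) (.g (nat_lit 2049) (.e (nat_lit 57378) (nat_lit 3) (.e (nat_lit 98317) (nat_lit 9) (.e (nat_lit 336027) (nat_lit 3) (.e (nat_lit 98341) (nat_lit 20) (.e (nat_lit 221213) (nat_lit 23) (.e (nat_lit 204830) (nat_lit 18) (.e (nat_lit 57852) (nat_lit 252) .nil))))))) (.g (nat_lit 4) .nil .nil))) 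
(.lf (nat_lit 149367) (.g (nat_lit 2117) (.e (nat_lit 57378) (nat_lit 3) (.e (nat_lit 98317) (nat_lit 9) (.e (nat_lit 336086) (nat_lit 9) (.e (nat_lit 336369) (nat_lit 27) (.e (nat_lit 426501) (nat_lit 27) (.e (nat_lit 335988) (nat_lit 1) (.e (nat_lit 57854) (nat_lit 252) .nil))))))) (.g (nat_lit 4) .nil .nil))))) (.nd (nat_lit 4) (.nd (nat_lit 5) 
(.lf (nat_lit 149327) (.g (nat_lit 3009) (.e (nat_lit 57378) (nat_lit 3) (.e (nat_lit 98315) (nat_lit 9) (.e (nat_lit 336209) (nat_lit 13) (.e (nat_lit 393225) (nat_lit 9) (.e (nat_lit 335996) (nat_lit 1) (.e (nat_lit 57854) (nat_lit 252) .nil)))))) (.g (nat_lit 0) .nil .nil))) 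
(.lf (nat_lit 149359) (.g (nat_lit 2919) (.e (nat_lit 57378) (nat_lit 3) (.e (nat_lit 98317) (nat_lit 9) (.e (nat_lit 336078) (nat_lit 9) (.e (nat_lit 336454) (nat_lit 34) (.e (nat_lit 483363) (nat_lit 18) (.e (nat_lit 57854) (nat_lit 252) .nil)))))) (.g (nat_lit 5) .nil .nil)))) (.nd (nat_lit 5) 
(.lf (nat_lit 149343) (.g (nat_lit 3999) (.e (nat_lit 57378) (nat_lit 3) (.e (nat_lit 98317) (nat_lit 9) (.e (nat_lit 336076) (nat_lit 9) (.e (nat_lit 336454) (nat_lit 34) (.e (nat_lit 483365) (nat_lit 18) (.e (nat_lit 57846) (nat_lit 252) .nil)))))) (.g (nat_lit 6) .nil .nil))) 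
(.lf (nat_lit 149375) (.g (nat_lit 2589) (.e (nat_lit 57378) (nat_lit 3) (.e (nat_lit 98317) (nat_lit 9) (.e (nat_lit 336086) (nat_lit 9) (.e (nat_lit 336456) (nat_lit 34) (.e (nat_lit 483364) (nat_lit 18) (.e (nat_lit 57854) (nat_lit 252) .nil)))))) (.g (nat_lit 4) .nil .nil)))))))))

noncomputable def tv1990 : DT := (.nd (nat_lit 0) (.nd (nat_lit 1) (.nd (nat_lit 2) (.nd (nat_lit 3) (.nd (nat_lit 4) (.nd (nat_lit 5) 
(.lf (nat_lit 149376) (.g (nat_lit 2362) (.e (nat_lit 57378) (nat_lit 3) (.e (nat_lit 98317) (nat_lit 9) (.e (nat_lit 336086) (nat_lit 9) (.e (nat_lit 336456) (nat_lit 34) (.e (nat_lit 483365) (nat_lit 18) (.e (nat_lit 57852) (nat_lit 252) .nil)))))) (.g (nat_lit 4) .nil .nil))) 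
(.lf (nat_lit 149408) (.g (nat_lit 3171) (.e (nat_lit 57378) (nat_lit 3) (.e (nat_lit 98317) (nat_lit 9) (.e (nat_lit 336213) (nat_lit 13) (.e (nat_lit 393229) (nat_lit 9) (.e (nat_lit 335994) (nat_lit 1) (.e (nat_lit 57847) (nat_lit 252) .nil)))))) (.g (nat_lit 0) .nil .nil)))) (.nd (nat_lit 5) 
(.lf (nat_lit 149392) (.g (nat_lit 2097) (.e (nat_lit 57378) (nat_lit 3) (.e (nat_lit 98317) (nat_lit 9) (.e (nat_lit 336088) (nat_lit 9) (.e (nat_lit 336454) (nat_lit 34) (.e (nat_lit 483366) (nat_lit 18) (.e (nat_lit 57849) (nat_lit 252) .nil)))))) (.g (nat_lit 4) .nil .nil))) 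
(.lf (nat_lit 149424) (.g (nat_lit 2807) (.e (nat_lit 57378) (nat_lit 3) (.e (nat_lit 98317) (nat_lit 9) (.e (nat_lit 336220) (nat_lit 13) (.e (nat_lit 393225) (nat_lit 9) (.e (nat_lit 335986) (nat_lit 1) (.e (nat_lit 57847) (nat_lit 252) .nil)))))) (.g (nat_lit 6) .nil .nil))))) (.nd (nat_lit 4) (.nd (nat_lit 5) 
(.lf (nat_lit 149384) (.g (nat_lit 2106) (.e (nat_lit 57378) (nat_lit 3) (.e (nat_lit 98317) (nat_lit 9) (.e (nat_lit 336088) (nat_lit 9) (.e (nat_lit 336452) (nat_lit 34) (.e (nat_lit 483364) (nat_lit 18) (.e (nat_lit 57854) (nat_lit 252) .nil)))))) (.g (nat_lit 4) .nil .nil))) 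
(.lf (nat_lit 149416) (.g (nat_lit 3269) (.e (nat_lit 57378) (nat_lit 3) (.e (nat_lit 98317) (nat_lit 9) (.e (nat_lit 336214) (nat_lit 13) (.e (nat_lit 393229) (nat_lit 9) (.e (nat_lit 335995) (nat_lit 1) (.e (nat_lit 57847) (nat_lit 252) .nil)))))) (.g (nat_lit 6) .nil .nil)))) (.nd (nat_lit 5) 
(.lf (nat_lit 149400) (.g (nat_lit 3763) (.e (nat_lit 57378) (nat_lit 3) (.e (nat_lit 98317) (nat_lit 9) (.e (nat_lit 336213) (nat_lit 13) (.e (nat_lit 393225) (nat_lit 9) (.e (nat_lit 335986) (nat_lit 1) (.e (nat_lit 57847) (nat_lit 252) .nil)))))) (.g (nat_lit 0) .nil .nil))) 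
(.lf (nat_lit 149432) (.g (nat_lit 2783) (.e (nat_lit 57378) (nat_lit 3) (.e (nat_lit 98317) (nat_lit 9) (.e (nat_lit 336222) (nat_lit 13) (.e (nat_lit 393225) (nat_lit 9) (.e (nat_lit 335986) (nat_lit 1) (.e (nat_lit 57847) (nat_lit 252) .nil)))))) (.g (nat_lit 6) .nil .nil)))))) (.nd (nat_lit 3) (.nd (nat_lit 4) (.nd (nat_lit 5) 
(.lf (nat_lit 149380) (.g (nat_lit 1671) (.e (nat_lit 57378) (nat_lit 3) (.e (nat_lit 98317) (nat_lit 9) (.e (nat_lit 336087) (nat_lit 9) (.e (nat_lit 336456) (nat_lit 34) (.e (nat_lit 483365) (nat_lit 18) .nil))))) .nil)) 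
(.lf (nat_lit 149412) (.g (nat_lit 3003) (.e (nat_lit 57378) (nat_lit 3) (.e (nat_lit 98317) (nat_lit 9) (.e (nat_lit 336214) (nat_lit 13) (.e (nat_lit 393229) (nat_lit 9) (.e (nat_lit 335986) (nat_lit 1) (.e (nat_lit 57847) (nat_lit 252) .nil)))))) (.g (nat_lit 6) .nil .nil)))) (.nd (nat_lit 5) 
(.lf (nat_lit 149396) (.g (nat_lit 3023) (.e (nat_lit 57378) (nat_lit 3) (.e (nat_lit 98317) (nat_lit 9) (.e (nat_lit 336088) (nat_lit 9) (.e (nat_lit 336456) (nat_lit 34) (.e (nat_lit 483365) (nat_lit 18) (.e (nat_lit 57852) (nat_lit 252) .nil)))))) (.g (nat_lit 6) .nil .nil))) 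
(.lf (nat_lit 149428) (.g (nat_lit 3415) (.e (nat_lit 57378) (nat_lit 3) (.e (nat_lit 98317) (nat_lit 9) (.e (nat_lit 336220) (nat_lit 13) (.e (nat_lit 393225) (nat_lit 9) (.e (nat_lit 335996) (nat_lit 1) (.e (nat_lit 57854) (nat_lit 252) .nil)))))) (.g (nat_lit 6) .nil .nil))))) (.nd (nat_lit 4) (.nd (nat_lit 5) 
(.lf (nat_lit 149388) (.g (nat_lit 3619) (.e (nat_lit 57378) (nat_lit 3) (.e (nat_lit 98317) (nat_lit 9) (.e (nat_lit 336088) (nat_lit 9) (.e (nat_lit 336454) (nat_lit 34) (.e (nat_lit 483365) (nat_lit 18) (.e (nat_lit 57847) (nat_lit 252) .nil)))))) (.g (nat_lit 0) .nil .nil))) 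
(.lf (nat_lit 149420) (.g (nat_lit 2601) (.e (nat_lit 57378) (nat_lit 3) (.e (nat_lit 98317) (nat_lit 9) (.e (nat_lit 336215) (nat_lit 13) (.e (nat_lit 393229) (nat_lit 9) (.e (nat_lit 335987) (nat_lit 1) (.e (nat_lit 57854) (nat_lit 252) .nil)))))) (.g (nat_lit 4) .nil .nil)))) (.nd (nat_lit 5) 
(.lf (nat_lit 149404) (.g (nat_lit 2490) (.e (nat_lit 57378) (nat_lit 3) (.e (nat_lit 98317) (nat_lit 9) (.e (nat_lit 336213) (nat_lit 13) (.e (nat_lit 393228) (nat_lit 9) .nil)))) .nil)) 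
(.lf (nat_lit 149436) (.g (nat_lit 1016) (.e (nat_lit 57378) (nat_lit 3) (.e (nat_lit 98317) (nat_lit 9) (.e (nat_lit 336222) (nat_lit 13) (.e (nat_lit 393228) (nat_lit 9) .nil)))) .nil)))))) (.nd (nat_lit 2) (.nd (nat_lit 3) (.nd (nat_lit 4) (.nd (nat_lit 5) 
(.lf (nat_lit 149378) (.g (nat_lit 1688) (.e (nat_lit 57378) (nat_lit 3) (.e (nat_lit 98317) (nat_lit 9) (.e (nat_lit 336087) (nat_lit 9) (.e (nat_lit 336454) (nat_lit 34) (.e (nat_lit 483364) (nat_lit 18) .nil))))) .nil)) 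
(.lf (nat_lit 149410) (.g (nat_lit 3675) (.e (nat_lit 57378) (nat_lit 3) (.e (nat_lit 98317) (nat_lit 9) (.e (nat_lit 336213) (nat_lit 13) (.e (nat_lit 393229) (nat_lit 9) (.e (nat_lit 335995) (nat_lit 1) (.e (nat_lit 57847) (nat_lit 252) .nil)))))) (.g (nat_lit 0) .nil .nil)))) (.nd (nat_lit 5) 
(.lf (nat_lit 149394) (.g (nat_lit 3399) (.e (nat_lit 57378) (nat_lit 3) (.e (nat_lit 98317) (nat_lit 9) (.e (nat_lit 336088) (nat_lit 9) (.e (nat_lit 336456) (nat_lit 34) (.e (nat_lit 483364) (nat_lit 18) (.e (nat_lit 57852) (nat_lit 252) .nil)))))) (.g (nat_lit 0) .nil .nil))) 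
(.lf (nat_lit 149426) (.g (nat_lit 3224) (.e (nat_lit 57378) (nat_lit 3) (.e (nat_lit 98317) (nat_lit 9) (.e (nat_lit 336220) (nat_lit 13) (.e (nat_lit 393225) (nat_lit 9) (.e (nat_lit 335995) (nat_lit 1) (.e (nat_lit 57847) (nat_lit 252) .nil)))))) (.g (nat_lit 6) .nil .nil))))) (.nd (nat_lit 4) (.nd (nat_lit 5) 
(.lf (nat_lit 149386) (.g (nat_lit 3243) (.e (nat_lit 57378) (nat_lit 3) (.e (nat_lit 98317) (nat_lit 9) (.e (nat_lit 336088) (nat_lit 9) (.e (nat_lit 336454) (nat_lit 34) (.e (nat_lit 483364) (nat_lit 18) (.e (nat_lit 57852) (nat_lit 252) .nil)))))) (.g (nat_lit 0) .nil .nil))) 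
(.lf (nat_lit 149418) (.g (nat_lit 3775) (.e (nat_lit 57378) (nat_lit 3) (.e (nat_lit 98317) (nat_lit 9) (.e (nat_lit 336214) (nat_lit 13) (.e (nat_lit 393229) (nat_lit 9) (.e (nat_lit 335996) (nat_lit 1) (.e (nat_lit 57854) (nat_lit 252) .nil)))))) (.g (nat_lit 0) .nil .nil)))) (.nd (nat_lit 5) 
(.lf (nat_lit 149402) (.g (nat_lit 3336) (.e (nat_lit 57378) (nat_lit 3) (.e (nat_lit 98317) (nat_lit 9) (.e (nat_lit 336213) (nat_lit 13) (.e (nat_lit 393225) (nat_lit 9) (.e (nat_lit 335995) (nat_lit 1) (.e (nat_lit 57848) (nat_lit 252) .nil)))))) (.g (nat_lit 5) .nil .nil))) 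
(.lf (nat_lit 149434) (.g (nat_lit 2789) (.e (nat_lit 57378) (nat_lit 3) (.e (nat_lit 98317) (nat_lit 9) (.e (nat_lit 336222) (nat_lit 13) (.e (nat_lit 393225) (nat_lit 9) (.e (nat_lit 335995) (nat_lit 1) (.e (nat_lit 57847) (nat_lit 252) .nil)))))) (.g (nat_lit 5) .nil .nil)))))) (.nd (nat_lit 3) (.nd (nat_lit 4) (.nd (nat_lit 5) 
(.lf (nat_lit 149382) (.g (nat_lit 1869) (.e (nat_lit 57378) (nat_lit 3) (.e (nat_lit 98317) (nat_lit 9) (.e (nat_lit 336088) (nat_lit 9) (.e (nat_lit 336383) (nat_lit 27) (.e (nat_lit 426500) (nat_lit 27) (.e (nat_lit 335996) (nat_lit 1) (.e (nat_lit 57854) (nat_lit 252) .nil))))))) (.g (nat_lit 4) .nil .nil))) 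
(.lf (nat_lit 149414) (.g (nat_lit 2012) (.e (nat_lit 57378) (nat_lit 3) (.e (nat_lit 98317) (nat_lit 9) (.e (nat_lit 336214) (nat_lit 13) (.e (nat_lit 393229) (nat_lit 9) (.e (nat_lit 335987) (nat_lit 1) (.e (nat_lit 57854) (nat_lit 252) .nil)))))) (.g (nat_lit 4) .nil .nil)))) (.nd (nat_lit 5) 
(.lf (nat_lit 149398) (.g (nat_lit 2282) (.e (nat_lit 57378) (nat_lit 3) (.e (nat_lit 98317) (nat_lit 9) (.e (nat_lit 336213) (nat_lit 13) (.e (nat_lit 393224) (nat_lit 9) .nil)))) .nil)) 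
(.lf (nat_lit 149430) (.g (nat_lit 1823) (.e (nat_lit 57378) (nat_lit 3) (.e (nat_lit 98317) (nat_lit 9) (.e (nat_lit 336221) (nat_lit 13) (.e (nat_lit 393225) (nat_lit 9) (.e (nat_lit 335986) (nat_lit 1) (.e (nat_lit 57847) (nat_lit 252) .nil)))))) (.g (nat_lit 4) .nil .nil))))) (.nd (nat_lit 4) (.nd (nat_lit 5) 
(.lf (nat_lit 149390) (.g (nat_lit 3348) (.e (nat_lit 57378) (nat_lit 3) (.e (nat_lit 98317) (nat_lit 9) (.e (nat_lit 336088) (nat_lit 9) (.e (nat_lit 336454) (nat_lit 34) (.e (nat_lit 483366) (nat_lit 18) (.e (nat_lit 57846) (nat_lit 252) .nil)))))) (.g (nat_lit 6) .nil .nil))) 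
(.lf (nat_lit 149422) (.g (nat_lit 3347) (.e (nat_lit 57378) (nat_lit 3) (.e (nat_lit 98317) (nat_lit 9) (.e (nat_lit 336215) (nat_lit 13) (.e (nat_lit 393229) (nat_lit 9) (.e (nat_lit 335995) (nat_lit 1) (.e (nat_lit 57847) (nat_lit 252) .nil)))))) (.g (nat_lit 0) .nil .nil)))) (.nd (nat_lit 5) 
(.lf (nat_lit 149406) (.g (nat_lit 3398) (.e (nat_lit 57378) (nat_lit 3) (.e (nat_lit 98317) (nat_lit 9) (.e (nat_lit 336213) (nat_lit 13) (.e (nat_lit 393229) (nat_lit 9) (.e (nat_lit 335986) (nat_lit 1) (.e (nat_lit 57847) (nat_lit 252) .nil)))))) (.g (nat_lit 0) .nil .nil))) 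
(.lf (nat_lit 149438) (.g (nat_lit 3110) (.e (nat_lit 57378) (nat_lit 3) (.e (nat_lit 98317) (nat_lit 9) (.e (nat_lit 336222) (nat_lit 13) (.e (nat_lit 393229) (nat_lit 9) (.e (nat_lit 335988) (nat_lit 1) (.e (nat_lit 57852) (nat_lit 252) .nil)))))) (.g (nat_lit 0) .nil .nil)))))))) (.nd (nat_lit 1) (.nd (nat_lit 2) (.nd (nat_lit 3) (.nd (nat_lit 4) (.nd (nat_lit 5) 
(.lf (nat_lit 149377) (.g (nat_lit 3364) (.e (nat_lit 57378) (nat_lit 3) (.e (nat_lit 98317) (nat_lit 9) (.e (nat_lit 336086) (nat_lit 9) (.e (nat_lit 336456) (nat_lit 34) (.e (nat_lit 483365) (nat_lit 18) (.e (nat_lit 57854) (nat_lit 252) .nil)))))) (.g (nat_lit 5) .nil .nil))) 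
(.lf (nat_lit 149409) (.g (nat_lit 2448) (.e (nat_lit 57378) (nat_lit 3) (.e (nat_lit 98317) (nat_lit 9) (.e (nat_lit 336213) (nat_lit 13) (.e (nat_lit 393229) (nat_lit 9) (.e (nat_lit 335994) (nat_lit 1) (.e (nat_lit 57849) (nat_lit 252) .nil)))))) (.g (nat_lit 4) .nil .nil)))) (.nd (nat_lit 5) 
(.lf (nat_lit 149393) (.g (nat_lit 3369) (.e (nat_lit 57378) (nat_lit 3) (.e (nat_lit 98317) (nat_lit 9) (.e (nat_lit 336088) (nat_lit 9) (.e (nat_lit 336456) (nat_lit 34) (.e (nat_lit 483363) (nat_lit 18) (.e (nat_lit 57847) (nat_lit 252) .nil)))))) (.g (nat_lit 0) .nil .nil))) 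
(.lf (nat_lit 149425) (.g (nat_lit 2992) (.e (nat_lit 57378) (nat_lit 3) (.e (nat_lit 98317) (nat_lit 9) (.e (nat_lit 336220) (nat_lit 13) (.e (nat_lit 393225) (nat_lit 9) (.e (nat_lit 335988) (nat_lit 1) (.e (nat_lit 57854) (nat_lit 252) .nil)))))) (.g (nat_lit 6) .nil .nil))))) (.nd (nat_lit 4) (.nd (nat_lit 5) 
(.lf (nat_lit 149385) (.g (nat_lit 3594) (.e (nat_lit 57378) (nat_lit 3) (.e (nat_lit 98317) (nat_lit 9) (.e (nat_lit 336088) (nat_lit 9) (.e (nat_lit 336454) (nat_lit 34) (.e (nat_lit 483363) (nat_lit 18) (.e (nat_lit 57847) (nat_lit 252) .nil)))))) (.g (nat_lit 0) .nil .nil))) 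
(.lf (nat_lit 149417) (.g (nat_lit 3548) (.e (nat_lit 57378) (nat_lit 3) (.e (nat_lit 98317) (nat_lit 9) (.e (nat_lit 336214) (nat_lit 13) (.e (nat_lit 393229) (nat_lit 9) (.e (nat_lit 335996) (nat_lit 1) (.e (nat_lit 57852) (nat_lit 252) .nil)))))) (.g (nat_lit 0) .nil .nil)))) (.nd (nat_lit 5) 
(.lf (nat_lit 149401) (.g (nat_lit 4173) (.e (nat_lit 57378) (nat_lit 3) (.e (nat_lit 98317) (nat_lit 9) (.e (nat_lit 336213) (nat_lit 13) (.e (nat_lit 393225) (nat_lit 9) (.e (nat_lit 335995) (nat_lit 1) (.e (nat_lit 57847) (nat_lit 252) .nil)))))) (.g (nat_lit 0) .nil .nil))) 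
(.lf (nat_lit 149433) (.g (nat_lit 2857) (.e (nat_lit 57378) (nat_lit 3) (.e (nat_lit 98317) (nat_lit 9) (.e (nat_lit 336222) (nat_lit 13) (.e (nat_lit 393225) (nat_lit 9) (.e (nat_lit 335988) (nat_lit 1) (.e (nat_lit 57854) (nat_lit 252) .nil)))))) (.g (nat_lit 6) .nil .nil)))))) (.nd (nat_lit 3) (.nd (nat_lit 4) (.nd (nat_lit 5) 
(.lf (nat_lit 149381) (.g (nat_lit 1849) (.e (nat_lit 57378) (nat_lit 3) (.e (nat_lit 98317) (nat_lit 9) (.e (nat_lit 336088) (nat_lit 9) (.e (nat_lit 336370) (nat_lit 27) (.e (nat_lit 426501) (nat_lit 27) (.e (nat_lit 335986) (nat_lit 1) (.e (nat_lit 57847) (nat_lit 252) .nil))))))) (.g (nat_lit 4) .nil .nil))) 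
(.lf (nat_lit 149413) (.g (nat_lit 2834) (.e (nat_lit 57378) (nat_lit 3) (.e (nat_lit 98317) (nat_lit 9) (.e (nat_lit 336214) (nat_lit 13) (.e (nat_lit 393229) (nat_lit 9) (.e (nat_lit 335986) (nat_lit 1) (.e (nat_lit 57854) (nat_lit 252) .nil)))))) (.g (nat_lit 5) .nil .nil)))) (.nd (nat_lit 5) 
(.lf (nat_lit 149397) (.g (nat_lit 360) (.e (nat_lit 57378) (nat_lit 3) (.e (nat_lit 98317) (nat_lit 9) (.e (nat_lit 336213) (nat_lit 13) .nil))) .nil)) 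
(.lf (nat_lit 149429) (.g (nat_lit 497) (.e (nat_lit 57378) (nat_lit 3) (.e (nat_lit 98317) (nat_lit 9) (.e (nat_lit 336221) (nat_lit 13) .nil))) .nil)))) (.nd (nat_lit 4) (.nd (nat_lit 5) 
(.lf (nat_lit 149389) (.g (nat_lit 3586) (.e (nat_lit 57378) (nat_lit 3) (.e (nat_lit 98317) (nat_lit 9) (.e (nat_lit 336088) (nat_lit 9) (.e (nat_lit 336454) (nat_lit 34) (.e (nat_lit 483365) (nat_lit 18) (.e (nat_lit 57852) (nat_lit 252) .nil)))))) (.g (nat_lit 0) .nil .nil))) 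
(.lf (nat_lit 149421) (.g (nat_lit 2619) (.e (nat_lit 57378) (nat_lit 3) (.e (nat_lit 98317) (nat_lit 9) (.e (nat_lit 336215) (nat_lit 13) (.e (nat_lit 393229) (nat_lit 9) (.e (nat_lit 335995) (nat_lit 1) (.e (nat_lit 57846) (nat_lit 252) .nil)))))) (.g (nat_lit 4) .nil .nil)))) (.nd (nat_lit 5) 
(.lf (nat_lit 149405) (.g (nat_lit 1197) (.e (nat_lit 57378) (nat_lit 3) (.e (nat_lit 98317) (nat_lit 9) (.e (nat_lit 336213) (nat_lit 13) (.e (nat_lit 393229) (nat_lit 9) .nil)))) .nil)) 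
(.lf (nat_lit 149437) (.g (nat_lit 2951) (.e (nat_lit 57378) (nat_lit 3) (.e (nat_lit 98317) (nat_lit 9) (.e (nat_lit 336222) (nat_lit 13) (.e (nat_lit 393229) (nat_lit 9) (.e (nat_lit 335986) (nat_lit 1) (.e (nat_lit 57847) (nat_lit 252) .nil)))))) (.g (nat_lit 0) .nil .nil))))))) (.nd (nat_lit 2) (.nd (nat_lit 3) (.nd (nat_lit 4) (.nd (nat_lit 5) 
(.lf (nat_lit 149379) (.g (nat_lit 1800) (.e (nat_lit 57378) (nat_lit 3) (.e (nat_lit 98317) (nat_lit 9) (.e (nat_lit 336087) (nat_lit 9) (.e (nat_lit 336456) (nat_lit 34) (.e (nat_lit 483364) (nat_lit 18) .nil))))) .nil)) 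
(.lf (nat_lit 149411) (.g (nat_lit 2853) (.e (nat_lit 57378) (nat_lit 3) (.e (nat_lit 98317) (nat_lit 9) (.e (nat_lit 336213) (nat_lit 13) (.e (nat_lit 393229) (nat_lit 9) (.e (nat_lit 335996) (nat_lit 1) (.e (nat_lit 57851) (nat_lit 252) .nil)))))) (.g (nat_lit 5) .nil .nil)))) (.nd (nat_lit 5) 
(.lf (nat_lit 149395) (.g (nat_lit 3347) (.e (nat_lit 57378) (nat_lit 3) (.e (nat_lit 98317) (nat_lit 9) (.e (nat_lit 336088) (nat_lit 9) (.e (nat_lit 336456) (nat_lit 34) (.e (nat_lit 483365) (nat_lit 18) (.e (nat_lit 57847) (nat_lit 252) .nil)))))) (.g (nat_lit 0) .nil .nil))) 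
(.lf (nat_lit 149427) (.g (nat_lit 2211) (.e (nat_lit 57378) (nat_lit 3) (.e (nat_lit 98317) (nat_lit 9) (.e (nat_lit 336220) (nat_lit 13) (.e (nat_lit 393225) (nat_lit 9) (.e (nat_lit 335995) (nat_lit 1) (.e (nat_lit 57848) (nat_lit 252) .nil)))))) (.g (nat_lit 4) .nil .nil))))) (.nd (nat_lit 4) (.nd (nat_lit 5) 
(.lf (nat_lit 149387) (.g (nat_lit 3830) (.e (nat_lit 57378) (nat_lit 3) (.e (nat_lit 98317) (nat_lit 9) (.e (nat_lit 336088) (nat_lit 9) (.e (nat_lit 336454) (nat_lit 34) (.e (nat_lit 483365) (nat_lit 18) (.e (nat_lit 57846) (nat_lit 252) .nil)))))) (.g (nat_lit 6) .nil .nil))) 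
(.lf (nat_lit 149419) (.g (nat_lit 3315) (.e (nat_lit 57378) (nat_lit 3) (.e (nat_lit 98317) (nat_lit 9) (.e (nat_lit 336215) (nat_lit 13) (.e (nat_lit 393229) (nat_lit 9) (.e (nat_lit 335986) (nat_lit 1) (.e (nat_lit 57847) (nat_lit 252) .nil)))))) (.g (nat_lit 0) .nil .nil)))) (.nd (nat_lit 5) 
(.lf (nat_lit 149403) (.g (nat_lit 2609) (.e (nat_lit 57378) (nat_lit 3) (.e (nat_lit 98317) (nat_lit 9) (.e (nat_lit 336213) (nat_lit 13) (.e (nat_lit 393225) (nat_lit 9) (.e (nat_lit 335996) (nat_lit 1) (.e (nat_lit 57851) (nat_lit 252) .nil)))))) (.g (nat_lit 4) .nil .nil))) 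
(.lf (nat_lit 149435) (.g (nat_lit 3109) (.e (nat_lit 57378) (nat_lit 3) (.e (nat_lit 98317) (nat_lit 9) (.e (nat_lit 336222) (nat_lit 13) (.e (nat_lit 393225) (nat_lit 9) (.e (nat_lit 335996) (nat_lit 1) (.e (nat_lit 57854) (nat_lit 252) .nil)))))) (.g (nat_lit 6) .nil .nil)))))) (.nd (nat_lit 3) (.nd (nat_lit 4) (.nd (nat_lit 5) 
(.lf (nat_lit 149383) (.g (nat_lit 1976) (.e (nat_lit 57378) (nat_lit 3) (.e (nat_lit 98317) (nat_lit 9) (.e (nat_lit 336088) (nat_lit 9) (.e (nat_lit 336452) (nat_lit 34) (.e (nat_lit 483363) (nat_lit 18) (.e (nat_lit 57847) (nat_lit 252) .nil)))))) (.g (nat_lit 4) .nil .nil))) 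
(.lf (nat_lit 149415) (.g (nat_lit 3373) (.e (nat_lit 57378) (nat_lit 3) (.e (nat_lit 98317) (nat_lit 9) (.e (nat_lit 336214) (nat_lit 13) (.e (nat_lit 393229) (nat_lit 9) (.e (nat_lit 335988) (nat_lit 1) (.e (nat_lit 57854) (nat_lit 252) .nil)))))) (.g (nat_lit 0) .nil .nil)))) (.nd (nat_lit 5) 
(.lf (nat_lit 149399) (.g (nat_lit 3490) (.e (nat_lit 57378) (nat_lit 3) (.e (nat_lit 98317) (nat_lit 9) (.e (nat_lit 336213) (nat_lit 13) (.e (nat_lit 393224) (nat_lit 9) (.e (nat_lit 335996) (nat_lit 1) (.e (nat_lit 57852) (nat_lit 252) .nil)))))) (.g (nat_lit 5) .nil .nil))) 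
(.lf (nat_lit 149431) (.g (nat_lit 1880) (.e (nat_lit 57378) (nat_lit 3) (.e (nat_lit 98317) (nat_lit 9) (.e (nat_lit 336221) (nat_lit 13) (.e (nat_lit 393225) (nat_lit 9) (.e (nat_lit 335988) (nat_lit 1) (.e (nat_lit 57854) (nat_lit 252) .nil)))))) (.g (nat_lit 4) .nil .nil))))) (.nd (nat_lit 4) (.nd (nat_lit 5) 
(.lf (nat_lit 149391) (.g (nat_lit 3142) (.e (nat_lit 57378) (nat_lit 3) (.e (nat_lit 98317) (nat_lit 9) (.e (nat_lit 336088) (nat_lit 9) (.e (nat_lit 336454) (nat_lit 34) (.e (nat_lit 483366) (nat_lit 18) (.e (nat_lit 57847) (nat_lit 252) .nil)))))) (.g (nat_lit 0) .nil .nil))) 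
(.lf (nat_lit 149423) (.g (nat_lit 968) (.e (nat_lit 57378) (nat_lit 3) (.e (nat_lit 98317) (nat_lit 9) (.e (nat_lit 336215) (nat_lit 13) (.e (nat_lit 401152) (nat_lit 10) .nil)))) .nil))) (.nd (nat_lit 5) 
(.lf (nat_lit 149407) (.g (nat_lit 1986) (.e (nat_lit 57378) (nat_lit 3) (.e (nat_lit 98317) (nat_lit 9) (.e (nat_lit 336213) (nat_lit 13) (.e (nat_lit 393229) (nat_lit 9) (.e (nat_lit 335993) (nat_lit 1) .nil))))) .nil)) 
(.lf (nat_lit 149439) (.g (nat_lit 3219) (.e (nat_lit 57378) (nat_lit 3) (.e (nat_lit 98317) (nat_lit 9) (.e (nat_lit 336222) (nat_lit 13) (.e (nat_lit 393229) (nat_lit 9) (.e (nat_lit 335995) (nat_lit 1) (.e (nat_lit 57847) (nat_lit 252) .nil)))))) (.g (nat_lit 0) .nil .nil)))))))))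

noncomputable def tv1991 : DT := (.nd (nat_lit 0) (.nd (nat_lit 1) (.nd (nat_lit 2) (.nd (nat_lit 3) (.nd (nat_lit 4) (.nd (nat_lit 5) 
(.lf (nat_lit 149440) (.g (nat_lit 3554) (.e (nat_lit 57378) (nat_lit 3) (.e (nat_lit 98317) (nat_lit 9) (.e (nat_lit 336222) (nat_lit 13) (.e (nat_lit 393229) (nat_lit 9) (.e (nat_lit 335996) (nat_lit 1) (.e (nat_lit 57852) (nat_lit 252) .nil)))))) (.g (nat_lit 0) .nil .nil))) 
(.lf (nat_lit 149472) (.g (nat_lit 2179) (.e (nat_lit 57378) (nat_lit 3) (.e (nat_lit 98333) (nat_lit 18) (.e (nat_lit 164399) (nat_lit 256) (.e (nat_lit 57588) (nat_lit 73) (.e (nat_lit 426116) (nat_lit 2) (.e (nat_lit 196681) (nat_lit 17) (.e (nat_lit 131086) (nat_lit 1) (.e (nat_lit 57854) (nat_lit 252) .nil)))))))) (.g (nat_lit 4) .nil .nil)))) (.nd (nat_lit 5) 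
(.lf (nat_lit 149456) (.g (nat_lit 2247) (.e (nat_lit 57378) (nat_lit 3) (.e (nat_lit 106240) (nat_lit 11) (.e (nat_lit 352315) (nat_lit 23) (.e (nat_lit 98367) (nat_lit 27) (.e (nat_lit 434214) (nat_lit 18) (.e (nat_lit 5566) (nat_lit 308) .nil)))))) (.g (nat_lit 5) .nil .nil))) 
(.lf (nat_lit 149488) (.g (nat_lit 4477) (.e (nat_lit 57378) (nat_lit 3) (.e (nat_lit 98341) (nat_lit 20) (.e (nat_lit 221210) (nat_lit 22) (.e (nat_lit 196670) (nat_lit 14) (.e (nat_lit 73746) (nat_lit 3) (.e (nat_lit 516117) (nat_lit 1) (.e (nat_lit 164181) (nat_lit 154) .nil))))))) (.g (nat_lit 6) .nil .nil))))) (.nd (nat_lit 4) (.nd (nat_lit 5) 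
(.lf (nat_lit 149448) (.g (nat_lit 3108) (.e (nat_lit 57378) (nat_lit 3) (.e (nat_lit 98317) (nat_lit 9) (.e (nat_lit 336223) (nat_lit 13) (.e (nat_lit 393229) (nat_lit 9) (.e (nat_lit 335986) (nat_lit 1) (.e (nat_lit 57847) (nat_lit 252) .nil)))))) (.g (nat_lit 0) .nil .nil))) 
(.lf (nat_lit 149480) (.g (nat_lit 2680) (.e (nat_lit 57378) (nat_lit 3) (.e (nat_lit 98340) (nat_lit 20) (.e (nat_lit 221215) (nat_lit 23) (.e (nat_lit 204863) (nat_lit 27) (.e (nat_lit 344118) (nat_lit 21) (.e (nat_lit 516115) (nat_lit 1) (.e (nat_lit 164183) (nat_lit 154) .nil))))))) (.g (nat_lit 5) .nil .nil)))) (.nd (nat_lit 5) 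
(.lf (nat_lit 149464) (.g (nat_lit 1375) (.e (nat_lit 57378) (nat_lit 3) (.e (nat_lit 106240) (nat_lit 14) (.e (nat_lit 376869) (nat_lit 23) (.e (nat_lit 98365) (nat_lit 26) (.e (nat_lit 426009) (nat_lit 0) (.e (nat_lit 2412) (nat_lit 157) (.e (nat_lit 5569) (nat_lit 308) .nil))))))) (.g (nat_lit 4) .nil .nil))) 
(.lf (nat_lit 149496) (.g (nat_lit 4559) (.e (nat_lit 57378) (nat_lit 3) (.e (nat_lit 98341) (nat_lit 20) (.e (nat_lit 221210) (nat_lit 22) (.e (nat_lit 196670) (nat_lit 14) (.e (nat_lit 73746) (nat_lit 3) (.e (nat_lit 516120) (nat_lit 1) (.e (nat_lit 164181) (nat_lit 154) .nil))))))) (.g (nat_lit 6) .nil .nil)))))) (.nd (nat_lit 3) (.nd (nat_lit 4) (.nd (nat_lit 5) 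
(.lf (nat_lit 149444) (.g (nat_lit 3186) (.e (nat_lit 57378) (nat_lit 3) (.e (nat_lit 98317) (nat_lit 9) (.e (nat_lit 336223) (nat_lit 13) (.e (nat_lit 393225) (nat_lit 9) (.e (nat_lit 335986) (nat_lit 1) (.e (nat_lit 57847) (nat_lit 252) .nil)))))) (.g (nat_lit 0) .nil .nil))) 
(.lf (nat_lit 149476) (.g (nat_lit 2435) (.e (nat_lit 57378) (nat_lit 3) (.e (nat_lit 98340) (nat_lit 20) (.e (nat_lit 221214) (nat_lit 23) (.e (nat_lit 204863) (nat_lit 27) (.e (nat_lit 344118) (nat_lit 21) (.e (nat_lit 516115) (nat_lit 1) (.e (nat_lit 164183) (nat_lit 154) .nil))))))) (.g (nat_lit 4) .nil .nil)))) (.nd (nat_lit 5) 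
(.lf (nat_lit 149460) (.g (nat_lit 1333) (.e (nat_lit 57378) (nat_lit 3) (.e (nat_lit 106240) (nat_lit 14) (.e (nat_lit 376869) (nat_lit 23) (.e (nat_lit 98365) (nat_lit 26) (.e (nat_lit 426009) (nat_lit 0) (.e (nat_lit 2398) (nat_lit 157) (.e (nat_lit 5570) (nat_lit 308) .nil))))))) (.g (nat_lit 4) .nil .nil))) 
(.lf (nat_lit 149492) (.g (nat_lit 3705) (.e (nat_lit 57378) (nat_lit 3) (.e (nat_lit 98341) (nat_lit 20) (.e (nat_lit 221210) (nat_lit 22) (.e (nat_lit 196670) (nat_lit 14) (.e (nat_lit 73746) (nat_lit 3) (.e (nat_lit 516119) (nat_lit 1) (.e (nat_lit 164176) (nat_lit 154) .nil))))))) (.g (nat_lit 5) .nil .nil))))) (.nd (nat_lit 4) (.nd (nat_lit 5) 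
(.lf (nat_lit 149452) (.g (nat_lit 3412) (.e (nat_lit 57378) (nat_lit 3) (.e (nat_lit 98317) (nat_lit 9) (.e (nat_lit 336223) (nat_lit 13) (.e (nat_lit 393229) (nat_lit 9) (.e (nat_lit 335995) (nat_lit 1) (.e (nat_lit 57847) (nat_lit 252) .nil)))))) (.g (nat_lit 0) .nil .nil))) 
(.lf (nat_lit 149484) (.g (nat_lit 4688) (.e (nat_lit 57378) (nat_lit 3) (.e (nat_lit 98341) (nat_lit 20) (.e (nat_lit 221210) (nat_lit 22) (.e (nat_lit 196670) (nat_lit 14) (.e (nat_lit 73746) (nat_lit 3) (.e (nat_lit 516115) (nat_lit 1) (.e (nat_lit 164182) (nat_lit 154) .nil))))))) (.g (nat_lit 7) .nil .nil)))) (.nd (nat_lit 5) 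
(.lf (nat_lit 149468) (.g (nat_lit 2265) (.e (nat_lit 57378) (nat_lit 3) (.e (nat_lit 98333) (nat_lit 18) (.e (nat_lit 164325) (nat_lit 230) (.e (nat_lit 163944) (nat_lit 19) (.e (nat_lit 483363) (nat_lit 18) .nil))))) .nil)) 
(.lf (nat_lit 149500) (.g (nat_lit 4460) (.e (nat_lit 57378) (nat_lit 3) (.e (nat_lit 98341) (nat_lit 20) (.e (nat_lit 221211) (nat_lit 22) (.e (nat_lit 196666) (nat_lit 13) (.e (nat_lit 65569) (nat_lit 3) (.e (nat_lit 98333) (nat_lit 18) (.e (nat_lit 164183) (nat_lit 154) .nil))))))) (.g (nat_lit 7) .nil .nil))))))) (.nd (nat_lit 2) (.nd (nat_lit 3) (.nd (nat_lit 4) (.nd (nat_lit 5) 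
(.lf (nat_lit 149442) (.g (nat_lit 2718) (.e (nat_lit 57378) (nat_lit 3) (.e (nat_lit 98317) (nat_lit 9) (.e (nat_lit 336223) (nat_lit 13) (.e (nat_lit 393224) (nat_lit 9) (.e (nat_lit 335988) (nat_lit 1) (.e (nat_lit 57854) (nat_lit 252) .nil)))))) (.g (nat_lit 4) .nil .nil))) 
(.lf (nat_lit 149474) (.g (nat_lit 2121) (.e (nat_lit 57378) (nat_lit 3) (.e (nat_lit 98340) (nat_lit 20) (.e (nat_lit 221211) (nat_lit 22) (.e (nat_lit 196666) (nat_lit 13) (.e (nat_lit 65571) (nat_lit 3) (.e (nat_lit 98334) (nat_lit 18) (.e (nat_lit 164181) (nat_lit 154) .nil))))))) (.g (nat_lit 4) .nil .nil)))) (.nd (nat_lit 5) 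
(.lf (nat_lit 149458) (.g (nat_lit 1190) (.e (nat_lit 57378) (nat_lit 3) (.e (nat_lit 106240) (nat_lit 14) (.e (nat_lit 376867) (nat_lit 23) (.e (nat_lit 98365) (nat_lit 26) (.e (nat_lit 426009) (nat_lit 0) (.e (nat_lit 2401) (nat_lit 157) (.e (nat_lit 5570) (nat_lit 308) .nil))))))) (.g (nat_lit 4) .nil .nil))) 
(.lf (nat_lit 149490) (.g (nat_lit 4766) (.e (nat_lit 57378) (nat_lit 3) (.e (nat_lit 98341) (nat_lit 20) (.e (nat_lit 221210) (nat_lit 22) (.e (nat_lit 196670) (nat_lit 14) (.e (nat_lit 73746) (nat_lit 3) (.e (nat_lit 516117) (nat_lit 1) (.e (nat_lit 164183) (nat_lit 154) .nil))))))) (.g (nat_lit 7) .nil .nil))))) (.nd (nat_lit 4) (.nd (nat_lit 5) 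
(.lf (nat_lit 149450) (.g (nat_lit 2862) (.e (nat_lit 57378) (nat_lit 3) (.e (nat_lit 98317) (nat_lit 9) (.e (nat_lit 336223) (nat_lit 13) (.e (nat_lit 393229) (nat_lit 9) (.e (nat_lit 335994) (nat_lit 1) (.e (nat_lit 57847) (nat_lit 252) .nil)))))) (.g (nat_lit 0) .nil .nil))) 
(.lf (nat_lit 149482) (.g (nat_lit 2431) (.e (nat_lit 57378) (nat_lit 3) (.e (nat_lit 98340) (nat_lit 20) (.e (nat_lit 221215) (nat_lit 23) (.e (nat_lit 204863) (nat_lit 27) (.e (nat_lit 344120) (nat_lit 21) (.e (nat_lit 516115) (nat_lit 1) (.e (nat_lit 164183) (nat_lit 154) .nil))))))) (.g (nat_lit 4) .nil .nil)))) (.nd (nat_lit 5) 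
(.lf (nat_lit 149466) (.g (nat_lit 1261) (.e (nat_lit 57378) (nat_lit 3) (.e (nat_lit 98333) (nat_lit 18) (.e (nat_lit 164179) (nat_lit 154) .nil))) .nil)) 
(.lf (nat_lit 149498) (.g (nat_lit 2814) (.e (nat_lit 57378) (nat_lit 3) (.e (nat_lit 98341) (nat_lit 20) (.e (nat_lit 221211) (nat_lit 22) (.e (nat_lit 196666) (nat_lit 13) (.e (nat_lit 65550) (nat_lit 0) (.e (nat_lit 1788) (nat_lit 119) (.e (nat_lit 516118) (nat_lit 1) (.e (nat_lit 164183) (nat_lit 154) .nil)))))))) (.g (nat_lit 4) .nil .nil)))))) 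
(.nd (nat_lit 3) (.nd (nat_lit 4) (.nd (nat_lit 5) 
(.lf (nat_lit 149446) (.g (nat_lit 2782) (.e (nat_lit 57378) (nat_lit 3) (.e (nat_lit 98317) (nat_lit 9) (.e (nat_lit 336223) (nat_lit 13) (.e (nat_lit 393225) (nat_lit 9) (.e (nat_lit 335995) (nat_lit 1) (.e (nat_lit 57848) (nat_lit 252) .nil)))))) (.g (nat_lit 5) .nil .nil))) 
(.lf (nat_lit 149478) (.g (nat_lit 2601) (.e (nat_lit 57378) (nat_lit 3) (.e (nat_lit 98340) (nat_lit 20) (.e (nat_lit 221214) (nat_lit 23) (.e (nat_lit 204863) (nat_lit 27) (.e (nat_lit 344120) (nat_lit 21) (.e (nat_lit 516120) (nat_lit 1) (.e (nat_lit 164183) (nat_lit 154) .nil))))))) (.g (nat_lit 4) .nil .nil)))) (.nd (nat_lit 5) 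
(.lf (nat_lit 149462) (.g (nat_lit 1664) (.e (nat_lit 57378) (nat_lit 3) (.e (nat_lit 106240) (nat_lit 14) (.e (nat_lit 376869) (nat_lit 23) (.e (nat_lit 98365) (nat_lit 26) (.e (nat_lit 426009) (nat_lit 0) (.e (nat_lit 2401) (nat_lit 157) (.e (nat_lit 5570) (nat_lit 308) .nil))))))) (.g (nat_lit 4) .nil .nil))) 
(.lf (nat_lit 149494) (.g (nat_lit 3444) (.e (nat_lit 57378) (nat_lit 3) (.e (nat_lit 98341) (nat_lit 20) (.e (nat_lit 221210) (nat_lit 22) (.e (nat_lit 196670) (nat_lit 14) (.e (nat_lit 73746) (nat_lit 3) (.e (nat_lit 516119) (nat_lit 1) (.e (nat_lit 164182) (nat_lit 154) .nil))))))) (.g (nat_lit 5) .nil .nil))))) (.nd (nat_lit 4) (.nd (nat_lit 5) 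
(.lf (nat_lit 149454) (.g (nat_lit 2576) (.e (nat_lit 57378) (nat_lit 3) (.e (nat_lit 106240) (nat_lit 10) (.e (nat_lit 344132) (nat_lit 26) (.e (nat_lit 557105) (nat_lit 14) (.e (nat_lit 180252) (nat_lit 10) (.e (nat_lit 573475) (nat_lit 12) (.e (nat_lit 57356) (nat_lit 0) (.e (nat_lit 5205) (nat_lit 294) .nil)))))))) (.g (nat_lit 6) .nil .nil))) 
(.lf (nat_lit 149486) (.g (nat_lit 2615) (.e (nat_lit 57378) (nat_lit 3) (.e (nat_lit 98341) (nat_lit 20) (.e (nat_lit 221210) (nat_lit 22) (.e (nat_lit 196670) (nat_lit 14) (.e (nat_lit 73746) (nat_lit 3) (.e (nat_lit 516116) (nat_lit 1) (.e (nat_lit 164183) (nat_lit 154) .nil))))))) (.g (nat_lit 4) .nil .nil)))) (.nd (nat_lit 5) 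
(.lf (nat_lit 149470) (.g (nat_lit 1129) (.e (nat_lit 57378) (nat_lit 3) (.e (nat_lit 98333) (nat_lit 18) (.e (nat_lit 164384) (nat_lit 254) .nil))) .nil)) 
(.lf (nat_lit 149502) (.g (nat_lit 4135) (.e (nat_lit 57378) (nat_lit 3) (.e (nat_lit 98341) (nat_lit 20) (.e (nat_lit 221211) (nat_lit 22) (.e (nat_lit 196666) (nat_lit 13) (.e (nat_lit 65569) (nat_lit 3) (.e (nat_lit 98334) (nat_lit 18) (.e (nat_lit 164180) (nat_lit 154) .nil))))))) (.g (nat_lit 6) .nil .nil)))))))) 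
(.nd (nat_lit 1) (.nd (nat_lit 2) (.nd (nat_lit 3) (.nd (nat_lit 4) (.nd (nat_lit 5) 
(.lf (nat_lit 149441) (.g (nat_lit 2108) (.e (nat_lit 57378) (nat_lit 3) (.e (nat_lit 98317) (nat_lit 9) (.e (nat_lit 336223) (nat_lit 13) (.e (nat_lit 393224) (nat_lit 9) .nil)))) .nil)) 
(.lf (nat_lit 149473) (.g (nat_lit 3035) (.e (nat_lit 57378) (nat_lit 3) (.e (nat_lit 98340) (nat_lit 20) (.e (nat_lit 221211) (nat_lit 22) (.e (nat_lit 196666) (nat_lit 13) (.e (nat_lit 65571) (nat_lit 3) (.e (nat_lit 98333) (nat_lit 18) (.e (nat_lit 164182) (nat_lit 154) .nil))))))) (.g (nat_lit 5) .nil .nil)))) (.nd (nat_lit 5) 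
(.lf (nat_lit 149457) (.g (nat_lit 2316) (.e (nat_lit 57378) (nat_lit 3) (.e (nat_lit 106240) (nat_lit 11) (.e (nat_lit 352315) (nat_lit 23) (.e (nat_lit 98367) (nat_lit 27) (.e (nat_lit 434214) (nat_lit 18) (.e (nat_lit 5571) (nat_lit 308) .nil)))))) (.g (nat_lit 5) .nil .nil))) 
(.lf (nat_lit 149489) (.g (nat_lit 4321) (.e (nat_lit 57378) (nat_lit 3) (.e (nat_lit 98341) (nat_lit 20) (.e (nat_lit 221210) (nat_lit 22) (.e (nat_lit 196670) (nat_lit 14) (.e (nat_lit 73746) (nat_lit 3) (.e (nat_lit 516117) (nat_lit 1) (.e (nat_lit 164182) (nat_lit 154) .nil))))))) (.g (nat_lit 6) .nil .nil))))) (.nd (nat_lit 4) (.nd (nat_lit 5) 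
(.lf (nat_lit 149449) (.g (nat_lit 3050) (.e (nat_lit 57378) (nat_lit 3) (.e (nat_lit 98317) (nat_lit 9) (.e (nat_lit 336223) (nat_lit 13) (.e (nat_lit 393229) (nat_lit 9) (.e (nat_lit 335994) (nat_lit 1) (.e (nat_lit 57846) (nat_lit 252) .nil)))))) (.g (nat_lit 6) .nil .nil))) 
(.lf (nat_lit 149481) (.g (nat_lit 2707) (.e (nat_lit 57378) (nat_lit 3) (.e (nat_lit 98340) (nat_lit 20) (.e (nat_lit 221215) (nat_lit 23) (.e (nat_lit 204863) (nat_lit 27) (.e (nat_lit 344118) (nat_lit 21) (.e (nat_lit 516120) (nat_lit 1) (.e (nat_lit 164182) (nat_lit 154) .nil))))))) (.g (nat_lit 4) .nil .nil)))) (.nd (nat_lit 5) 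
(.lf (nat_lit 149465) (.g (nat_lit 1698) (.e (nat_lit 57378) (nat_lit 3) (.e (nat_lit 106240) (nat_lit 14) (.e (nat_lit 376869) (nat_lit 23) (.e (nat_lit 98365) (nat_lit 26) (.e (nat_lit 426009) (nat_lit 0) (.e (nat_lit 2412) (nat_lit 157) (.e (nat_lit 5570) (nat_lit 308) .nil))))))) (.g (nat_lit 4) .nil .nil))) 
(.lf (nat_lit 149497) (.g (nat_lit 4790) (.e (nat_lit 57378) (nat_lit 3) (.e (nat_lit 98341) (nat_lit 20) (.e (nat_lit 221210) (nat_lit 22) (.e (nat_lit 196670) (nat_lit 14) (.e (nat_lit 73746) (nat_lit 3) (.e (nat_lit 516120) (nat_lit 1) (.e (nat_lit 164182) (nat_lit 154) .nil))))))) (.g (nat_lit 7) .nil .nil)))))) (.nd (nat_lit 3) (.nd (nat_lit 4) (.nd (nat_lit 5) 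
(.lf (nat_lit 149445) (.g (nat_lit 3629) (.e (nat_lit 57378) (nat_lit 3) (.e (nat_lit 98317) (nat_lit 9) (.e (nat_lit 336223) (nat_lit 13) (.e (nat_lit 393225) (nat_lit 9) (.e (nat_lit 335995) (nat_lit 1) (.e (nat_lit 57847) (nat_lit 252) .nil)))))) (.g (nat_lit 0) .nil .nil))) 
(.lf (nat_lit 149477) (.g (nat_lit 2281) (.e (nat_lit 57378) (nat_lit 3) (.e (nat_lit 98340) (nat_lit 20) (.e (nat_lit 221214) (nat_lit 23) (.e (nat_lit 204863) (nat_lit 27) (.e (nat_lit 344120) (nat_lit 21) (.e (nat_lit 516115) (nat_lit 1) (.e (nat_lit 164183) (nat_lit 154) .nil))))))) (.g (nat_lit 4) .nil .nil)))) (.nd (nat_lit 5) 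
(.lf (nat_lit 149461) (.g (nat_lit 1461) (.e (nat_lit 57378) (nat_lit 3) (.e (nat_lit 106240) (nat_lit 14) (.e (nat_lit 376869) (nat_lit 23) (.e (nat_lit 98365) (nat_lit 26) (.e (nat_lit 426009) (nat_lit 0) (.e (nat_lit 2401) (nat_lit 157) (.e (nat_lit 5568) (nat_lit 308) .nil))))))) (.g (nat_lit 4) .nil .nil))) 
(.lf (nat_lit 149493) (.g (nat_lit 4981) (.e (nat_lit 57378) (nat_lit 3) (.e (nat_lit 98341) (nat_lit 20) (.e (nat_lit 221210) (nat_lit 22) (.e (nat_lit 196670) (nat_lit 14) (.e (nat_lit 73746) (nat_lit 3) (.e (nat_lit 516119) (nat_lit 1) (.e (nat_lit 164179) (nat_lit 154) .nil))))))) (.g (nat_lit 7) .nil .nil))))) (.nd (nat_lit 4) (.nd (nat_lit 5) 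
(.lf (nat_lit 149453) (.g (nat_lit 2250) (.e (nat_lit 57378) (nat_lit 3) (.e (nat_lit 98317) (nat_lit 9) (.e (nat_lit 336223) (nat_lit 13) (.e (nat_lit 393229) (nat_lit 9) (.e (nat_lit 335996) (nat_lit 1) (.e (nat_lit 57851) (nat_lit 252) .nil)))))) (.g (nat_lit 4) .nil .nil))) 
(.lf (nat_lit 149485) (.g (nat_lit 5012) (.e (nat_lit 57378) (nat_lit 3) (.e (nat_lit 98341) (nat_lit 20) (.e (nat_lit 221210) (nat_lit 22) (.e (nat_lit 196670) (nat_lit 14) (.e (nat_lit 73746) (nat_lit 3) (.e (nat_lit 516115) (nat_lit 1) (.e (nat_lit 164183) (nat_lit 154) .nil))))))) (.g (nat_lit 0) .nil .nil)))) (.nd (nat_lit 5) 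
(.lf (nat_lit 149469) (.g (nat_lit 1129) (.e (nat_lit 57378) (nat_lit 3) (.e (nat_lit 98333) (nat_lit 18) (.e (nat_lit 164381) (nat_lit 254) .nil))) .nil)) 
(.lf (nat_lit 149501) (.g (nat_lit 2985) (.e (nat_lit 57378) (nat_lit 3) (.e (nat_lit 98341) (nat_lit 20) (.e (nat_lit 221211) (nat_lit 22) (.e (nat_lit 196666) (nat_lit 13) (.e (nat_lit 65569) (nat_lit 3) (.e (nat_lit 98334) (nat_lit 18) (.e (nat_lit 164176) (nat_lit 154) .nil))))))) (.g (nat_lit 4) .nil .nil))))))) (.nd (nat_lit 2) (.nd (nat_lit 3) (.nd (nat_lit 4) (.nd (nat_lit 5) 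
(.lf (nat_lit 149443) (.g (nat_lit 2770) (.e (nat_lit 57378) (nat_lit 3) (.e (nat_lit 98317) (nat_lit 9) (.e (nat_lit 336223) (nat_lit 13) (.e (nat_lit 393224) (nat_lit 9) (.e (nat_lit 335996) (nat_lit 1) (.e (nat_lit 57852) (nat_lit 252) .nil)))))) (.g (nat_lit 4) .nil .nil))) 
(.lf (nat_lit 149475) (.g (nat_lit 3279) (.e (nat_lit 57378) (nat_lit 3) (.e (nat_lit 98340) (nat_lit 20) (.e (nat_lit 221214) (nat_lit 23) (.e (nat_lit 204863) (nat_lit 27) (.e (nat_lit 344117) (nat_lit 21) (.e (nat_lit 516116) (nat_lit 1) (.e (nat_lit 164180) (nat_lit 154) .nil))))))) (.g (nat_lit 5) .nil .nil)))) (.nd (nat_lit 5) 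
(.lf (nat_lit 149459) (.g (nat_lit 1218) (.e (nat_lit 57378) (nat_lit 3) (.e (nat_lit 106240) (nat_lit 14) (.e (nat_lit 376867) (nat_lit 23) (.e (nat_lit 98365) (nat_lit 26) (.e (nat_lit 426009) (nat_lit 0) (.e (nat_lit 2412) (nat_lit 157) (.e (nat_lit 5570) (nat_lit 308) .nil))))))) (.g (nat_lit 4) .nil .nil))) 
(.lf (nat_lit 149491) (.g (nat_lit 3650) (.e (nat_lit 57378) (nat_lit 3) (.e (nat_lit 98341) (nat_lit 20) (.e (nat_lit 221210) (nat_lit 22) (.e (nat_lit 196670) (nat_lit 14) (.e (nat_lit 73746) (nat_lit 3) (.e (nat_lit 516118) (nat_lit 1) (.e (nat_lit 164179) (nat_lit 154) .nil))))))) (.g (nat_lit 5) .nil .nil))))) (.nd (nat_lit 4) (.nd (nat_lit 5) 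
(.lf (nat_lit 149451) (.g (nat_lit 3582) (.e (nat_lit 57378) (nat_lit 3) (.e (nat_lit 98317) (nat_lit 9) (.e (nat_lit 336223) (nat_lit 13) (.e (nat_lit 393229) (nat_lit 9) (.e (nat_lit 335995) (nat_lit 1) (.e (nat_lit 57846) (nat_lit 252) .nil)))))) (.g (nat_lit 6) .nil .nil))) 
(.lf (nat_lit 149483) (.g (nat_lit 5853) (.e (nat_lit 57378) (nat_lit 3) (.e (nat_lit 98341) (nat_lit 20) (.e (nat_lit 221210) (nat_lit 22) (.e (nat_lit 196670) (nat_lit 14) (.e (nat_lit 73746) (nat_lit 3) (.e (nat_lit 516115) (nat_lit 1) (.e (nat_lit 164179) (nat_lit 154) .nil))))))) (.g (nat_lit 7) .nil .nil)))) (.nd (nat_lit 5) 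
(.lf (nat_lit 149467) (.g (nat_lit 1472) (.e (nat_lit 57378) (nat_lit 3) (.e (nat_lit 98333) (nat_lit 18) (.e (nat_lit 164325) (nat_lit 230) (.e (nat_lit 163928) (nat_lit 16) .nil)))) .nil)) 
(.lf (nat_lit 149499) (.g (nat_lit 3953) (.e (nat_lit 57378) (nat_lit 3) (.e (nat_lit 98341) (nat_lit 20) (.e (nat_lit 221211) (nat_lit 22) (.e (nat_lit 196666) (nat_lit 13) (.e (nat_lit 65569) (nat_lit 3) (.e (nat_lit 98333) (nat_lit 18) (.e (nat_lit 164182) (nat_lit 154) .nil))))))) (.g (nat_lit 6) .nil .nil)))))) (.nd (nat_lit 3) (.nd (nat_lit 4) (.nd (nat_lit 5) 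
(.lf (nat_lit 149447) (.g (nat_lit 2107) (.e (nat_lit 57378) (nat_lit 3) (.e (nat_lit 98317) (nat_lit 9) (.e (nat_lit 336223) (nat_lit 13) (.e (nat_lit 393228) (nat_lit 9) .nil)))) .nil)) 
(.lf (nat_lit 149479) (.g (nat_lit 3498) (.e (nat_lit 57378) (nat_lit 3) (.e (nat_lit 98340) (nat_lit 20) (.e (nat_lit 221215) (nat_lit 23) (.e (nat_lit 204863) (nat_lit 27) (.e (nat_lit 344117) (nat_lit 21) (.e (nat_lit 516116) (nat_lit 1) (.e (nat_lit 164180) (nat_lit 154) .nil))))))) (.g (nat_lit 5) .nil .nil)))) (.nd (nat_lit 5) 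
(.lf (nat_lit 149463) (.g (nat_lit 1404) (.e (nat_lit 57378) (nat_lit 3) (.e (nat_lit 106240) (nat_lit 14) (.e (nat_lit 376869) (nat_lit 23) (.e (nat_lit 98365) (nat_lit 26) (.e (nat_lit 426009) (nat_lit 0) (.e (nat_lit 2412) (nat_lit 157) (.e (nat_lit 5568) (nat_lit 308) .nil))))))) (.g (nat_lit 4) .nil .nil))) 
(.lf (nat_lit 149495) (.g (nat_lit 2729) (.e (nat_lit 57378) (nat_lit 3) (.e (nat_lit 98341) (nat_lit 20) (.e (nat_lit 221210) (nat_lit 22) (.e (nat_lit 196670) (nat_lit 14) (.e (nat_lit 73746) (nat_lit 3) (.e (nat_lit 516120) (nat_lit 1) (.e (nat_lit 164176) (nat_lit 154) .nil))))))) (.g (nat_lit 4) .nil .nil))))) (.nd (nat_lit 4) (.nd (nat_lit 5) 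
(.lf (nat_lit 149455) (.g (nat_lit 1527) (.e (nat_lit 57378) (nat_lit 3) (.e (nat_lit 106240) (nat_lit 10) (.e (nat_lit 344133) (nat_lit 26) (.e (nat_lit 557105) (nat_lit 14) (.e (nat_lit 188160) (nat_lit 3) (.e (nat_lit 516118) (nat_lit 1) (.e (nat_lit 164183) (nat_lit 154) .nil))))))) (.g (nat_lit 4) .nil .nil))) 
(.lf (nat_lit 149487) (.g (nat_lit 2846) (.e (nat_lit 57378) (nat_lit 3) (.e (nat_lit 98341) (nat_lit 20) (.e (nat_lit 221210) (nat_lit 22) (.e (nat_lit 196670) (nat_lit 14) (.e (nat_lit 73746) (nat_lit 3) (.e (nat_lit 516117) (nat_lit 1) (.e (nat_lit 164176) (nat_lit 154) .nil))))))) (.g (nat_lit 4) .nil .nil)))) (.nd (nat_lit 5) 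
(.lf (nat_lit 149471) (.g (nat_lit 1305) (.e (nat_lit 57378) (nat_lit 3) (.e (nat_lit 98333) (nat_lit 18) (.e (nat_lit 164385) (nat_lit 254) (.e (nat_lit 1130) (nat_lit 83) .nil)))) .nil)) 
(.lf (nat_lit 149503) (.g (nat_lit 4047) (.e (nat_lit 57378) (nat_lit 3) (.e (nat_lit 98341) (nat_lit 20) (.e (nat_lit 221211) (nat_lit 22) (.e (nat_lit 196666) (nat_lit 13) (.e (nat_lit 65569) (nat_lit 3) (.e (nat_lit 98334) (nat_lit 18) (.e (nat_lit 164181) (nat_lit 154) .nil))))))) (.g (nat_lit 6) .nil .nil)))))))))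

noncomputable def tv1992 : DT := (.nd (nat_lit 0) (.nd (nat_lit 1) (.nd (nat_lit 2) (.nd (nat_lit 3) (.nd (nat_lit 4) (.nd (nat_lit 5) 
(.lf (nat_lit 149504) (.g (nat_lit 4579) (.e (nat_lit 57378) (nat_lit 3) (.e (nat_lit 98341) (nat_lit 20) (.e (nat_lit 221211) (nat_lit 22) (.e (nat_lit 196666) (nat_lit 13) (.e (nat_lit 65569) (nat_lit 3) (.e (nat_lit 98334) (nat_lit 18) (.e (nat_lit 164182) (nat_lit 154) .nil))))))) (.g (nat_lit 7) .nil .nil))) 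
(.lf (nat_lit 149536) (.g (nat_lit 3325) (.e (nat_lit 57378) (nat_lit 3) (.e (nat_lit 98341) (nat_lit 20) (.e (nat_lit 221214) (nat_lit 23) (.e (nat_lit 204863) (nat_lit 27) (.e (nat_lit 344117) (nat_lit 21) (.e (nat_lit 516118) (nat_lit 1) (.e (nat_lit 164183) (nat_lit 154) .nil))))))) (.g (nat_lit 5) .nil .nil)))) (.nd (nat_lit 5) 
(.lf (nat_lit 149520) (.g (nat_lit 3793) (.e (nat_lit 57378) (nat_lit 3) (.e (nat_lit 98341) (nat_lit 20) (.e (nat_lit 221212) (nat_lit 22) (.e (nat_lit 196670) (nat_lit 14) (.e (nat_lit 73746) (nat_lit 3) (.e (nat_lit 516117) (nat_lit 1) (.e (nat_lit 164181) (nat_lit 154) .nil))))))) (.g (nat_lit 6) .nil .nil))) 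
(.lf (nat_lit 149552) (.g (nat_lit 2685) (.e (nat_lit 57378) (nat_lit 3) (.e (nat_lit 98341) (nat_lit 20) (.e (nat_lit 221215) (nat_lit 23) (.e (nat_lit 204852) (nat_lit 26) (.e (nat_lit 336324) (nat_lit 18) (.e (nat_lit 204830) (nat_lit 18) (.e (nat_lit 57852) (nat_lit 252) .nil))))))) (.g (nat_lit 5) .nil .nil))))) (.nd (nat_lit 4) (.nd (nat_lit 5) 
(.lf (nat_lit 149512) (.g (nat_lit 3317) (.e (nat_lit 57378) (nat_lit 3) (.e (nat_lit 98341) (nat_lit 20) (.e (nat_lit 221211) (nat_lit 22) (.e (nat_lit 196666) (nat_lit 13) (.e (nat_lit 65571) (nat_lit 3) (.e (nat_lit 98334) (nat_lit 18) (.e (nat_lit 164181) (nat_lit 154) .nil))))))) (.g (nat_lit 5) .nil .nil))) 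
(.lf (nat_lit 149544) (.g (nat_lit 2343) (.e (nat_lit 57378) (nat_lit 3) (.e (nat_lit 98341) (nat_lit 20) (.e (nat_lit 221214) (nat_lit 23) (.e (nat_lit 204863) (nat_lit 27) (.e (nat_lit 344120) (nat_lit 21) (.e (nat_lit 516118) (nat_lit 1) (.e (nat_lit 164183) (nat_lit 154) .nil))))))) (.g (nat_lit 4) .nil .nil)))) (.nd (nat_lit 5) 
(.lf (nat_lit 149528) (.g (nat_lit 3648) (.e (nat_lit 57378) (nat_lit 3) (.e (nat_lit 98341) (nat_lit 20) (.e (nat_lit 221214) (nat_lit 23) (.e (nat_lit 204862) (nat_lit 27) (.e (nat_lit 344117) (nat_lit 21) (.e (nat_lit 516115) (nat_lit 1) (.e (nat_lit 164183) (nat_lit 154) .nil))))))) (.g (nat_lit 6) .nil .nil))) 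
(.lf (nat_lit 149560) (.g (nat_lit 2867) (.e (nat_lit 57378) (nat_lit 3) (.e (nat_lit 98341) (nat_lit 20) (.e (nat_lit 221215) (nat_lit 23) (.e (nat_lit 204862) (nat_lit 27) (.e (nat_lit 344117) (nat_lit 21) (.e (nat_lit 516116) (nat_lit 1) (.e (nat_lit 164176) (nat_lit 154) .nil))))))) (.g (nat_lit 4) .nil .nil)))))) (.nd (nat_lit 3) (.nd (nat_lit 4) (.nd (nat_lit 5) 
(.lf (nat_lit 149508) (.g (nat_lit 3872) (.e (nat_lit 57378) (nat_lit 3) (.e (nat_lit 98341) (nat_lit 20) (.e (nat_lit 221211) (nat_lit 22) (.e (nat_lit 196666) (nat_lit 13) (.e (nat_lit 65571) (nat_lit 3) (.e (nat_lit 98333) (nat_lit 18) (.e (nat_lit 164182) (nat_lit 154) .nil))))))) (.g (nat_lit 6) .nil .nil))) 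
(.lf (nat_lit 149540) (.g (nat_lit 2832) (.e (nat_lit 57378) (nat_lit 3) (.e (nat_lit 98341) (nat_lit 20) (.e (nat_lit 221214) (nat_lit 23) (.e (nat_lit 204863) (nat_lit 27) (.e (nat_lit 344118) (nat_lit 21) (.e (nat_lit 516120) (nat_lit 1) (.e (nat_lit 164181) (nat_lit 154) .nil))))))) (.g (nat_lit 4) .nil .nil)))) (.nd (nat_lit 5) 
(.lf (nat_lit 149524) (.g (nat_lit 3012) (.e (nat_lit 57378) (nat_lit 3) (.e (nat_lit 98341) (nat_lit 20) (.e (nat_lit 221212) (nat_lit 22) (.e (nat_lit 196670) (nat_lit 14) (.e (nat_lit 73746) (nat_lit 3) (.e (nat_lit 516119) (nat_lit 1) (.e (nat_lit 164176) (nat_lit 154) .nil))))))) (.g (nat_lit 5) .nil .nil))) 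
(.lf (nat_lit 149556) (.g (nat_lit 2068) (.e (nat_lit 57378) (nat_lit 3) (.e (nat_lit 98341) (nat_lit 20) (.e (nat_lit 221215) (nat_lit 23) (.e (nat_lit 204859) (nat_lit 26) (.e (nat_lit 336017) (nat_lit 3) .nil))))) .nil)))) (.nd (nat_lit 4) (.nd (nat_lit 5) 
(.lf (nat_lit 149516) (.g (nat_lit 2334) (.e (nat_lit 57378) (nat_lit 3) (.e (nat_lit 98341) (nat_lit 20) (.e (nat_lit 221211) (nat_lit 22) (.e (nat_lit 196670) (nat_lit 14) (.e (nat_lit 73746) (nat_lit 3) (.e (nat_lit 516120) (nat_lit 1) (.e (nat_lit 164181) (nat_lit 154) .nil))))))) (.g (nat_lit 4) .nil .nil))) 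
(.lf (nat_lit 149548) (.g (nat_lit 4447) (.e (nat_lit 57378) (nat_lit 3) (.e (nat_lit 98341) (nat_lit 20) (.e (nat_lit 221214) (nat_lit 23) (.e (nat_lit 204880) (nat_lit 32) (.e (nat_lit 385068) (nat_lit 26) (.e (nat_lit 532501) (nat_lit 1) (.e (nat_lit 57854) (nat_lit 252) .nil))))))) (.g (nat_lit 7) .nil .nil)))) (.nd (nat_lit 5) 
(.lf (nat_lit 149532) (.g (nat_lit 4480) (.e (nat_lit 57378) (nat_lit 3) (.e (nat_lit 98341) (nat_lit 20) (.e (nat_lit 221214) (nat_lit 23) (.e (nat_lit 204863) (nat_lit 27) (.e (nat_lit 344117) (nat_lit 21) (.e (nat_lit 516115) (nat_lit 1) (.e (nat_lit 164183) (nat_lit 154) .nil))))))) (.g (nat_lit 7) .nil .nil))) 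
(.lf (nat_lit 149564) (.g (nat_lit 3016) (.e (nat_lit 57378) (nat_lit 3) (.e (nat_lit 98341) (nat_lit 20) (.e (nat_lit 221215) (nat_lit 23) (.e (nat_lit 204862) (nat_lit 27) (.e (nat_lit 344118) (nat_lit 21) (.e (nat_lit 516115) (nat_lit 1) (.e (nat_lit 164179) (nat_lit 154) .nil))))))) (.g (nat_lit 4) .nil .nil))))))) (.nd (nat_lit 2) (.nd (nat_lit 3) (.nd (nat_lit 4) (.nd (nat_lit 5) 
(.lf (nat_lit 149506) (.g (nat_lit 3149) (.e (nat_lit 57378) (nat_lit 3) (.e (nat_lit 98341) (nat_lit 20) (.e (nat_lit 221211) (nat_lit 22) (.e (nat_lit 196666) (nat_lit 13) (.e (nat_lit 65570) (nat_lit 3) (.e (nat_lit 98333) (nat_lit 18) (.e (nat_lit 164179) (nat_lit 154) .nil))))))) (.g (nat_lit 4) .nil .nil))) 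
(.lf (nat_lit 149538) (.g (nat_lit 2947) (.e (nat_lit 57378) (nat_lit 3) (.e (nat_lit 98341) (nat_lit 20) (.e (nat_lit 221214) (nat_lit 23) (.e (nat_lit 204863) (nat_lit 27) (.e (nat_lit 344118) (nat_lit 21) (.e (nat_lit 516115) (nat_lit 1) (.e (nat_lit 164183) (nat_lit 154) .nil))))))) (.g (nat_lit 4) .nil .nil)))) (.nd (nat_lit 5) 
(.lf (nat_lit 149522) (.g (nat_lit 4132) (.e (nat_lit 57378) (nat_lit 3) (.e (nat_lit 98341) (nat_lit 20) (.e (nat_lit 221212) (nat_lit 22) (.e (nat_lit 196670) (nat_lit 14) (.e (nat_lit 73746) (nat_lit 3) (.e (nat_lit 516117) (nat_lit 1) (.e (nat_lit 164183) (nat_lit 154) .nil))))))) (.g (nat_lit 7) .nil .nil))) 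
(.lf (nat_lit 149554) (.g (nat_lit 4236) (.e (nat_lit 57378) (nat_lit 3) (.e (nat_lit 98341) (nat_lit 20) (.e (nat_lit 221215) (nat_lit 23) (.e (nat_lit 204852) (nat_lit 26) (.e (nat_lit 336326) (nat_lit 18) (.e (nat_lit 204830) (nat_lit 18) (.e (nat_lit 57852) (nat_lit 252) .nil))))))) (.g (nat_lit 7) .nil .nil))))) (.nd (nat_lit 4) (.nd (nat_lit 5) 
(.lf (nat_lit 149514) (.g (nat_lit 2294) (.e (nat_lit 57378) (nat_lit 3) (.e (nat_lit 98341) (nat_lit 20) (.e (nat_lit 221211) (nat_lit 22) (.e (nat_lit 196670) (nat_lit 14) (.e (nat_lit 73746) (nat_lit 3) (.e (nat_lit 516115) (nat_lit 1) (.e (nat_lit 164182) (nat_lit 154) .nil))))))) (.g (nat_lit 4) .nil .nil))) 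
(.lf (nat_lit 149546) (.g (nat_lit 3210) (.e (nat_lit 57378) (nat_lit 3) (.e (nat_lit 98341) (nat_lit 20) (.e (nat_lit 221214) (nat_lit 23) (.e (nat_lit 204863) (nat_lit 27) (.e (nat_lit 344120) (nat_lit 21) (.e (nat_lit 516120) (nat_lit 1) (.e (nat_lit 164183) (nat_lit 154) .nil))))))) (.g (nat_lit 5) .nil .nil)))) (.nd (nat_lit 5) 
(.lf (nat_lit 149530) (.g (nat_lit 5149) (.e (nat_lit 57378) (nat_lit 3) (.e (nat_lit 98341) (nat_lit 20) (.e (nat_lit 221214) (nat_lit 23) (.e (nat_lit 204863) (nat_lit 27) (.e (nat_lit 344117) (nat_lit 21) (.e (nat_lit 516115) (nat_lit 1) (.e (nat_lit 164179) (nat_lit 154) .nil))))))) (.g (nat_lit 7) .nil .nil))) 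
(.lf (nat_lit 149562) (.g (nat_lit 3519) (.e (nat_lit 57378) (nat_lit 3) (.e (nat_lit 98341) (nat_lit 20) (.e (nat_lit 221215) (nat_lit 23) (.e (nat_lit 204862) (nat_lit 27) (.e (nat_lit 344117) (nat_lit 21) (.e (nat_lit 516118) (nat_lit 1) (.e (nat_lit 164179) (nat_lit 154) .nil))))))) (.g (nat_lit 5) .nil .nil)))))) (.nd (nat_lit 3) (.nd (nat_lit 4) (.nd (nat_lit 5) 
(.lf (nat_lit 149510) (.g (nat_lit 2234) (.e (nat_lit 57378) (nat_lit 3) (.e (nat_lit 98341) (nat_lit 20) (.e (nat_lit 221211) (nat_lit 22) (.e (nat_lit 196666) (nat_lit 13) (.e (nat_lit 65571) (nat_lit 3) (.e (nat_lit 98334) (nat_lit 18) (.e (nat_lit 164176) (nat_lit 154) .nil))))))) (.g (nat_lit 4) .nil .nil))) 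
(.lf (nat_lit 149542) (.g (nat_lit 2340) (.e (nat_lit 57378) (nat_lit 3) (.e (nat_lit 98341) (nat_lit 20) (.e (nat_lit 221214) (nat_lit 23) (.e (nat_lit 204863) (nat_lit 27) (.e (nat_lit 344120) (nat_lit 21) .nil))))) .nil))) (.nd (nat_lit 5) 
(.lf (nat_lit 149526) (.g (nat_lit 2950) (.e (nat_lit 57378) (nat_lit 3) (.e (nat_lit 98341) (nat_lit 20) (.e (nat_lit 221214) (nat_lit 23) (.e (nat_lit 204852) (nat_lit 26) (.e (nat_lit 336324) (nat_lit 18) (.e (nat_lit 204830) (nat_lit 18) (.e (nat_lit 57852) (nat_lit 252) .nil))))))) (.g (nat_lit 5) .nil .nil))) 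
(.lf (nat_lit 149558) (.g (nat_lit 2684) (.e (nat_lit 57378) (nat_lit 3) (.e (nat_lit 98341) (nat_lit 20) (.e (nat_lit 221215) (nat_lit 23) (.e (nat_lit 204859) (nat_lit 26) (.e (nat_lit 336017) (nat_lit 3) (.e (nat_lit 98334) (nat_lit 18) (.e (nat_lit 164183) (nat_lit 154) .nil))))))) (.g (nat_lit 4) .nil .nil))))) (.nd (nat_lit 4) (.nd (nat_lit 5) 
(.lf (nat_lit 149518) (.g (nat_lit 4043) (.e (nat_lit 57378) (nat_lit 3) (.e (nat_lit 98341) (nat_lit 20) (.e (nat_lit 221212) (nat_lit 22) (.e (nat_lit 196670) (nat_lit 14) (.e (nat_lit 73746) (nat_lit 3) (.e (nat_lit 516115) (nat_lit 1) (.e (nat_lit 164182) (nat_lit 154) .nil))))))) (.g (nat_lit 7) .nil .nil))) 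
(.lf (nat_lit 149550) (.g (nat_lit 1353) (.e (nat_lit 57378) (nat_lit 3) (.e (nat_lit 98341) (nat_lit 20) (.e (nat_lit 221215) (nat_lit 23) (.e (nat_lit 204850) (nat_lit 26) .nil)))) .nil))) (.nd (nat_lit 5) 
(.lf (nat_lit 149534) (.g (nat_lit 4014) (.e (nat_lit 57378) (nat_lit 3) (.e (nat_lit 98341) (nat_lit 20) (.e (nat_lit 221214) (nat_lit 23) (.e (nat_lit 204863) (nat_lit 27) (.e (nat_lit 344117) (nat_lit 21) (.e (nat_lit 516116) (nat_lit 1) (.e (nat_lit 164181) (nat_lit 154) .nil))))))) (.g (nat_lit 6) .nil .nil))) 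
(.lf (nat_lit 149566) (.g (nat_lit 3162) (.e (nat_lit 57378) (nat_lit 3) (.e (nat_lit 98341) (nat_lit 20) (.e (nat_lit 221215) (nat_lit 23) (.e (nat_lit 204862) (nat_lit 27) (.e (nat_lit 344118) (nat_lit 21) (.e (nat_lit 516119) (nat_lit 1) (.e (nat_lit 164179) (nat_lit 154) .nil))))))) (.g (nat_lit 5) .nil .nil)))))))) 
(.nd (nat_lit 1) (.nd (nat_lit 2) (.nd (nat_lit 3) (.nd (nat_lit 4) (.nd (nat_lit 5) 
(.lf (nat_lit 149505) (.g (nat_lit 4427) (.e (nat_lit 57378) (nat_lit 3) (.e (nat_lit 98341) (nat_lit 20) (.e (nat_lit 221211) (nat_lit 22) (.e (nat_lit 196666) (nat_lit 13) (.e (nat_lit 65569) (nat_lit 3) (.e (nat_lit 98334) (nat_lit 18) (.e (nat_lit 164183) (nat_lit 154) .nil))))))) (.g (nat_lit 7) .nil .nil))) 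
(.lf (nat_lit 149537) (.g (nat_lit 2260) (.e (nat_lit 57378) (nat_lit 3) (.e (nat_lit 98341) (nat_lit 20) (.e (nat_lit 221214) (nat_lit 23) (.e (nat_lit 204863) (nat_lit 27) (.e (nat_lit 344118) (nat_lit 21) .nil))))) .nil))) (.nd (nat_lit 5) 
(.lf (nat_lit 149521) (.g (nat_lit 3636) (.e (nat_lit 57378) (nat_lit 3) (.e (nat_lit 98341) (nat_lit 20) (.e (nat_lit 221212) (nat_lit 22) (.e (nat_lit 196670) (nat_lit 14) (.e (nat_lit 73746) (nat_lit 3) (.e (nat_lit 516117) (nat_lit 1) (.e (nat_lit 164182) (nat_lit 154) .nil))))))) (.g (nat_lit 6) .nil .nil))) 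
(.lf (nat_lit 149553) (.g (nat_lit 2003) (.e (nat_lit 57378) (nat_lit 3) (.e (nat_lit 98341) (nat_lit 20) (.e (nat_lit 221215) (nat_lit 23) (.e (nat_lit 204852) (nat_lit 26) (.e (nat_lit 336324) (nat_lit 18) (.e (nat_lit 204830) (nat_lit 18) (.e (nat_lit 57854) (nat_lit 252) .nil))))))) (.g (nat_lit 4) .nil .nil))))) (.nd (nat_lit 4) (.nd (nat_lit 5) 
(.lf (nat_lit 149513) (.g (nat_lit 3485) (.e (nat_lit 57378) (nat_lit 3) (.e (nat_lit 98341) (nat_lit 20) (.e (nat_lit 221211) (nat_lit 22) (.e (nat_lit 196666) (nat_lit 13) (.e (nat_lit 65571) (nat_lit 3) (.e (nat_lit 98335) (nat_lit 18) (.e (nat_lit 164183) (nat_lit 154) .nil))))))) (.g (nat_lit 5) .nil .nil))) 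
(.lf (nat_lit 149545) (.g (nat_lit 3023) (.e (nat_lit 57378) (nat_lit 3) (.e (nat_lit 98341) (nat_lit 20) (.e (nat_lit 221214) (nat_lit 23) (.e (nat_lit 204863) (nat_lit 27) (.e (nat_lit 344120) (nat_lit 21) (.e (nat_lit 516119) (nat_lit 1) (.e (nat_lit 164179) (nat_lit 154) .nil))))))) (.g (nat_lit 4) .nil .nil)))) (.nd (nat_lit 5) 
(.lf (nat_lit 149529) (.g (nat_lit 2346) (.e (nat_lit 57378) (nat_lit 3) (.e (nat_lit 98341) (nat_lit 20) (.e (nat_lit 221214) (nat_lit 23) (.e (nat_lit 204862) (nat_lit 27) (.e (nat_lit 344118) (nat_lit 21) (.e (nat_lit 516120) (nat_lit 1) (.e (nat_lit 164183) (nat_lit 154) .nil))))))) (.g (nat_lit 4) .nil .nil))) 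
(.lf (nat_lit 149561) (.g (nat_lit 4686) (.e (nat_lit 57378) (nat_lit 3) (.e (nat_lit 98341) (nat_lit 20) (.e (nat_lit 221215) (nat_lit 23) (.e (nat_lit 204862) (nat_lit 27) (.e (nat_lit 344117) (nat_lit 21) (.e (nat_lit 516116) (nat_lit 1) (.e (nat_lit 164180) (nat_lit 154) .nil))))))) (.g (nat_lit 6) .nil .nil)))))) (.nd (nat_lit 3) (.nd (nat_lit 4) (.nd (nat_lit 5) 
(.lf (nat_lit 149509) (.g (nat_lit 4578) (.e (nat_lit 57378) (nat_lit 3) (.e (nat_lit 98341) (nat_lit 20) (.e (nat_lit 221211) (nat_lit 22) (.e (nat_lit 196666) (nat_lit 13) (.e (nat_lit 65571) (nat_lit 3) (.e (nat_lit 98333) (nat_lit 18) (.e (nat_lit 164183) (nat_lit 154) .nil))))))) (.g (nat_lit 7) .nil .nil))) 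
(.lf (nat_lit 149541) (.g (nat_lit 3339) (.e (nat_lit 57378) (nat_lit 3) (.e (nat_lit 98341) (nat_lit 20) (.e (nat_lit 221214) (nat_lit 23) (.e (nat_lit 204863) (nat_lit 27) (.e (nat_lit 344118) (nat_lit 21) (.e (nat_lit 516120) (nat_lit 1) (.e (nat_lit 164182) (nat_lit 154) .nil))))))) (.g (nat_lit 5) .nil .nil)))) (.nd (nat_lit 5) 
(.lf (nat_lit 149525) (.g (nat_lit 3911) (.e (nat_lit 57378) (nat_lit 3) (.e (nat_lit 98341) (nat_lit 20) (.e (nat_lit 221212) (nat_lit 22) (.e (nat_lit 196670) (nat_lit 14) (.e (nat_lit 73746) (nat_lit 3) (.e (nat_lit 516120) (nat_lit 1) (.e (nat_lit 164181) (nat_lit 154) .nil))))))) (.g (nat_lit 6) .nil .nil))) 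
(.lf (nat_lit 149557) (.g (nat_lit 2916) (.e (nat_lit 57378) (nat_lit 3) (.e (nat_lit 98341) (nat_lit 20) (.e (nat_lit 221215) (nat_lit 23) (.e (nat_lit 204859) (nat_lit 26) (.e (nat_lit 336017) (nat_lit 3) (.e (nat_lit 98333) (nat_lit 18) (.e (nat_lit 164179) (nat_lit 154) .nil))))))) (.g (nat_lit 4) .nil .nil))))) (.nd (nat_lit 4) (.nd (nat_lit 5) 
(.lf (nat_lit 149517) (.g (nat_lit 2767) (.e (nat_lit 57378) (nat_lit 3) (.e (nat_lit 98341) (nat_lit 20) (.e (nat_lit 221211) (nat_lit 22) (.e (nat_lit 196670) (nat_lit 14) (.e (nat_lit 73746) (nat_lit 3) (.e (nat_lit 516120) (nat_lit 1) (.e (nat_lit 164183) (nat_lit 154) .nil))))))) (.g (nat_lit 5) .nil .nil))) 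
(.lf (nat_lit 149549) (.g (nat_lit 4983) (.e (nat_lit 57378) (nat_lit 3) (.e (nat_lit 98341) (nat_lit 20) (.e (nat_lit 221214) (nat_lit 23) (.e (nat_lit 204880) (nat_lit 32) (.e (nat_lit 385068) (nat_lit 26) (.e (nat_lit 532504) (nat_lit 1) (.e (nat_lit 57852) (nat_lit 252) .nil))))))) (.g (nat_lit 7) .nil .nil)))) (.nd (nat_lit 5) 
(.lf (nat_lit 149533) (.g (nat_lit 4438) (.e (nat_lit 57378) (nat_lit 3) (.e (nat_lit 98341) (nat_lit 20) (.e (nat_lit 221214) (nat_lit 23) (.e (nat_lit 204863) (nat_lit 27) (.e (nat_lit 344117) (nat_lit 21) (.e (nat_lit 516116) (nat_lit 1) (.e (nat_lit 164180) (nat_lit 154) .nil))))))) (.g (nat_lit 6) .nil .nil))) 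
(.lf (nat_lit 149565) (.g (nat_lit 2117) (.e (nat_lit 57378) (nat_lit 3) (.e (nat_lit 98341) (nat_lit 20) (.e (nat_lit 221215) (nat_lit 23) (.e (nat_lit 204862) (nat_lit 27) (.e (nat_lit 344118) (nat_lit 21) (.e (nat_lit 516115) (nat_lit 1) (.e (nat_lit 164183) (nat_lit 154) .nil))))))) (.g (nat_lit 4) .nil .nil))))))) (.nd (nat_lit 2) (.nd (nat_lit 3) (.nd (nat_lit 4) (.nd (nat_lit 5) 
(.lf (nat_lit 149507) (.g (nat_lit 2608) (.e (nat_lit 57378) (nat_lit 3) (.e (nat_lit 98341) (nat_lit 20) (.e (nat_lit 221211) (nat_lit 22) (.e (nat_lit 196666) (nat_lit 13) (.e (nat_lit 65570) (nat_lit 3) (.e (nat_lit 98333) (nat_lit 18) (.e (nat_lit 164183) (nat_lit 154) .nil))))))) (.g (nat_lit 4) .nil .nil))) 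
(.lf (nat_lit 149539) (.g (nat_lit 2614) (.e (nat_lit 57378) (nat_lit 3) (.e (nat_lit 98341) (nat_lit 20) (.e (nat_lit 221214) (nat_lit 23) (.e (nat_lit 204863) (nat_lit 27) (.e (nat_lit 344118) (nat_lit 21) (.e (nat_lit 516117) (nat_lit 1) (.e (nat_lit 164183) (nat_lit 154) .nil))))))) (.g (nat_lit 4) .nil .nil)))) (.nd (nat_lit 5) 
(.lf (nat_lit 149523) (.g (nat_lit 2925) (.e (nat_lit 57378) (nat_lit 3) (.e (nat_lit 98341) (nat_lit 20) (.e (nat_lit 221212) (nat_lit 22) (.e (nat_lit 196670) (nat_lit 14) (.e (nat_lit 73746) (nat_lit 3) (.e (nat_lit 516118) (nat_lit 1) (.e (nat_lit 164179) (nat_lit 154) .nil))))))) (.g (nat_lit 5) .nil .nil))) 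
(.lf (nat_lit 149555) (.g (nat_lit 4307) (.e (nat_lit 57378) (nat_lit 3) (.e (nat_lit 98341) (nat_lit 20) (.e (nat_lit 221215) (nat_lit 23) (.e (nat_lit 204852) (nat_lit 26) (.e (nat_lit 336326) (nat_lit 18) (.e (nat_lit 204831) (nat_lit 18) (.e (nat_lit 57852) (nat_lit 252) .nil))))))) (.g (nat_lit 7) .nil .nil))))) (.nd (nat_lit 4) (.nd (nat_lit 5) 
(.lf (nat_lit 149515) (.g (nat_lit 2226) (.e (nat_lit 57378) (nat_lit 3) (.e (nat_lit 98341) (nat_lit 20) (.e (nat_lit 221211) (nat_lit 22) (.e (nat_lit 196670) (nat_lit 14) (.e (nat_lit 73746) (nat_lit 3) (.e (nat_lit 516117) (nat_lit 1) (.e (nat_lit 164181) (nat_lit 154) .nil))))))) (.g (nat_lit 4) .nil .nil))) 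
(.lf (nat_lit 149547) (.g (nat_lit 3959) (.e (nat_lit 57378) (nat_lit 3) (.e (nat_lit 98341) (nat_lit 20) (.e (nat_lit 221214) (nat_lit 23) (.e (nat_lit 204880) (nat_lit 32) (.e (nat_lit 385066) (nat_lit 26) (.e (nat_lit 532504) (nat_lit 1) (.e (nat_lit 57852) (nat_lit 252) .nil))))))) (.g (nat_lit 7) .nil .nil)))) (.nd (nat_lit 5) 
(.lf (nat_lit 149531) (.g (nat_lit 3446) (.e (nat_lit 57378) (nat_lit 3) (.e (nat_lit 98341) (nat_lit 20) (.e (nat_lit 221214) (nat_lit 23) (.e (nat_lit 204863) (nat_lit 27) (.e (nat_lit 344117) (nat_lit 21) (.e (nat_lit 516115) (nat_lit 1) (.e (nat_lit 164182) (nat_lit 154) .nil))))))) (.g (nat_lit 5) .nil .nil))) 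
(.lf (nat_lit 149563) (.g (nat_lit 4206) (.e (nat_lit 57378) (nat_lit 3) (.e (nat_lit 98341) (nat_lit 20) (.e (nat_lit 221215) (nat_lit 23) (.e (nat_lit 204862) (nat_lit 27) (.e (nat_lit 344117) (nat_lit 21) (.e (nat_lit 516118) (nat_lit 1) (.e (nat_lit 164183) (nat_lit 154) .nil))))))) (.g (nat_lit 6) .nil .nil)))))) (.nd (nat_lit 3) (.nd (nat_lit 4) (.nd (nat_lit 5) 
(.lf (nat_lit 149511) (.g (nat_lit 3533) (.e (nat_lit 57378) (nat_lit 3) (.e (nat_lit 98341) (nat_lit 20) (.e (nat_lit 221211) (nat_lit 22) (.e (nat_lit 196666) (nat_lit 13) (.e (nat_lit 65571) (nat_lit 3) (.e (nat_lit 98334) (nat_lit 18) (.e (nat_lit 164180) (nat_lit 154) .nil))))))) (.g (nat_lit 6) .nil .nil))) 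
(.lf (nat_lit 149543) (.g (nat_lit 2857) (.e (nat_lit 57378) (nat_lit 3) (.e (nat_lit 98341) (nat_lit 20) (.e (nat_lit 221214) (nat_lit 23) (.e (nat_lit 204863) (nat_lit 27) (.e (nat_lit 344120) (nat_lit 21) (.e (nat_lit 516115) (nat_lit 1) (.e (nat_lit 164183) (nat_lit 154) .nil))))))) (.g (nat_lit 4) .nil .nil)))) (.nd (nat_lit 5) 
(.lf (nat_lit 149527) (.g (nat_lit 2562) (.e (nat_lit 57378) (nat_lit 3) (.e (nat_lit 98341) (nat_lit 20) (.e (nat_lit 221214) (nat_lit 23) (.e (nat_lit 204862) (nat_lit 27) (.e (nat_lit 344117) (nat_lit 21) (.e (nat_lit 516115) (nat_lit 1) (.e (nat_lit 164182) (nat_lit 154) .nil))))))) (.g (nat_lit 4) .nil .nil))) 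
(.lf (nat_lit 149559) (.g (nat_lit 2291) (.e (nat_lit 57378) (nat_lit 3) (.e (nat_lit 98341) (nat_lit 20) (.e (nat_lit 221215) (nat_lit 23) (.e (nat_lit 204861) (nat_lit 26) (.e (nat_lit 336026) (nat_lit 3) (.e (nat_lit 98335) (nat_lit 18) (.e (nat_lit 164178) (nat_lit 154) .nil))))))) (.g (nat_lit 4) .nil .nil))))) (.nd (nat_lit 4) (.nd (nat_lit 5) 
(.lf (nat_lit 149519) (.g (nat_lit 2151) (.e (nat_lit 57378) (nat_lit 3) (.e (nat_lit 98341) (nat_lit 20) (.e (nat_lit 221212) (nat_lit 22) (.e (nat_lit 196670) (nat_lit 14) (.e (nat_lit 73746) (nat_lit 3) (.e (nat_lit 516117) (nat_lit 1) (.e (nat_lit 164176) (nat_lit 154) .nil))))))) (.g (nat_lit 4) .nil .nil))) 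
(.lf (nat_lit 149551) (.g (nat_lit 2099) (.e (nat_lit 57378) (nat_lit 3) (.e (nat_lit 98341) (nat_lit 20) (.e (nat_lit 221215) (nat_lit 23) (.e (nat_lit 204852) (nat_lit 26) (.e (nat_lit 336324) (nat_lit 18) (.e (nat_lit 204829) (nat_lit 18) (.e (nat_lit 57854) (nat_lit 252) .nil))))))) (.g (nat_lit 4) .nil .nil)))) (.nd (nat_lit 5) 
(.lf (nat_lit 149535) (.g (nat_lit 2625) (.e (nat_lit 57378) (nat_lit 3) (.e (nat_lit 98341) (nat_lit 20) (.e (nat_lit 221214) (nat_lit 23) (.e (nat_lit 204863) (nat_lit 27) (.e (nat_lit 344117) (nat_lit 21) (.e (nat_lit 516118) (nat_lit 1) (.e (nat_lit 164179) (nat_lit 154) .nil))))))) (.g (nat_lit 4) .nil .nil))) 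
(.lf (nat_lit 149567) (.g (nat_lit 2567) (.e (nat_lit 57378) (nat_lit 3) (.e (nat_lit 98341) (nat_lit 20) (.e (nat_lit 221215) (nat_lit 23) (.e (nat_lit 204862) (nat_lit 27) (.e (nat_lit 344118) (nat_lit 21) (.e (nat_lit 516120) (nat_lit 1) (.e (nat_lit 164182) (nat_lit 154) .nil))))))) (.g (nat_lit 4) .nil .nil)))))))))

noncomputable def tv1993 : DT := (.nd (nat_lit 0) (.nd (nat_lit 1) (.nd (nat_lit 2) (.nd (nat_lit 3) (.nd (nat_lit 4) (.nd (nat_lit 5) 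
(.lf (nat_lit 149568) (.g (nat_lit 3607) (.e (nat_lit 57378) (nat_lit 3) (.e (nat_lit 98341) (nat_lit 20) (.e (nat_lit 221215) (nat_lit 23) (.e (nat_lit 204862) (nat_lit 27) (.e (nat_lit 344118) (nat_lit 21) (.e (nat_lit 516120) (nat_lit 1) (.e (nat_lit 164183) (nat_lit 154) .nil))))))) (.g (nat_lit 6) .nil .nil))) 
(.lf (nat_lit 149600) (.g (nat_lit 4835) (.e (nat_lit 57378) (nat_lit 3) (.e (nat_lit 98342) (nat_lit 20) (.e (nat_lit 221210) (nat_lit 22) (.e (nat_lit 196670) (nat_lit 14) (.e (nat_lit 73746) (nat_lit 3) (.e (nat_lit 516119) (nat_lit 1) (.e (nat_lit 164179) (nat_lit 154) .nil))))))) (.g (nat_lit 7) .nil .nil)))) (.nd (nat_lit 5) 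
(.lf (nat_lit 149584) (.g (nat_lit 2263) (.e (nat_lit 57378) (nat_lit 3) (.e (nat_lit 98341) (nat_lit 20) (.e (nat_lit 221215) (nat_lit 23) (.e (nat_lit 204863) (nat_lit 27) (.e (nat_lit 344120) (nat_lit 21) .nil))))) .nil)) 
(.lf (nat_lit 149616) (.g (nat_lit 2379) (.e (nat_lit 57378) (nat_lit 3) (.e (nat_lit 98342) (nat_lit 20) (.e (nat_lit 221211) (nat_lit 22) (.e (nat_lit 196666) (nat_lit 13) (.e (nat_lit 65571) (nat_lit 3) (.e (nat_lit 98334) (nat_lit 18) (.e (nat_lit 164176) (nat_lit 154) .nil))))))) (.g (nat_lit 4) .nil .nil))))) (.nd (nat_lit 4) (.nd (nat_lit 5) 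
(.lf (nat_lit 149576) (.g (nat_lit 3706) (.e (nat_lit 57378) (nat_lit 3) (.e (nat_lit 98341) (nat_lit 20) (.e (nat_lit 221215) (nat_lit 23) (.e (nat_lit 204863) (nat_lit 27) (.e (nat_lit 344117) (nat_lit 21) (.e (nat_lit 516118) (nat_lit 1) (.e (nat_lit 164183) (nat_lit 154) .nil))))))) (.g (nat_lit 5) .nil .nil))) 
(.lf (nat_lit 149608) (.g (nat_lit 3129) (.e (nat_lit 57378) (nat_lit 3) (.e (nat_lit 98342) (nat_lit 20) (.e (nat_lit 221211) (nat_lit 22) (.e (nat_lit 196666) (nat_lit 13) (.e (nat_lit 65569) (nat_lit 3) (.e (nat_lit 98334) (nat_lit 18) (.e (nat_lit 164176) (nat_lit 154) .nil))))))) (.g (nat_lit 5) .nil .nil)))) (.nd (nat_lit 5) 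
(.lf (nat_lit 149592) (.g (nat_lit 4306) (.e (nat_lit 57378) (nat_lit 3) (.e (nat_lit 98341) (nat_lit 20) (.e (nat_lit 221215) (nat_lit 23) (.e (nat_lit 204880) (nat_lit 32) (.e (nat_lit 385068) (nat_lit 26) (.e (nat_lit 532501) (nat_lit 1) (.e (nat_lit 57854) (nat_lit 252) .nil))))))) (.g (nat_lit 7) .nil .nil))) 
(.lf (nat_lit 149624) (.g (nat_lit 2494) (.e (nat_lit 57378) (nat_lit 3) (.e (nat_lit 98342) (nat_lit 20) (.e (nat_lit 221211) (nat_lit 22) (.e (nat_lit 196670) (nat_lit 14) (.e (nat_lit 73746) (nat_lit 3) (.e (nat_lit 516120) (nat_lit 1) (.e (nat_lit 164181) (nat_lit 154) .nil))))))) (.g (nat_lit 4) .nil .nil)))))) (.nd (nat_lit 3) (.nd (nat_lit 4) (.nd (nat_lit 5) 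
(.lf (nat_lit 149572) (.g (nat_lit 2989) (.e (nat_lit 57378) (nat_lit 3) (.e (nat_lit 98341) (nat_lit 20) (.e (nat_lit 221215) (nat_lit 23) (.e (nat_lit 204863) (nat_lit 27) (.e (nat_lit 344117) (nat_lit 21) (.e (nat_lit 516116) (nat_lit 1) (.e (nat_lit 164176) (nat_lit 154) .nil))))))) (.g (nat_lit 4) .nil .nil))) 
(.lf (nat_lit 149604) (.g (nat_lit 4690) (.e (nat_lit 57378) (nat_lit 3) (.e (nat_lit 98342) (nat_lit 20) (.e (nat_lit 221210) (nat_lit 22) (.e (nat_lit 196670) (nat_lit 14) (.e (nat_lit 73746) (nat_lit 3) (.e (nat_lit 516120) (nat_lit 1) (.e (nat_lit 164182) (nat_lit 154) .nil))))))) (.g (nat_lit 7) .nil .nil)))) (.nd (nat_lit 5) 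
(.lf (nat_lit 149588) (.g (nat_lit 3382) (.e (nat_lit 57378) (nat_lit 3) (.e (nat_lit 98341) (nat_lit 20) (.e (nat_lit 221215) (nat_lit 23) (.e (nat_lit 204863) (nat_lit 27) (.e (nat_lit 344120) (nat_lit 21) (.e (nat_lit 516119) (nat_lit 1) (.e (nat_lit 164179) (nat_lit 154) .nil))))))) (.g (nat_lit 5) .nil .nil))) 
(.lf (nat_lit 149620) (.g (nat_lit 2313) (.e (nat_lit 57378) (nat_lit 3) (.e (nat_lit 98342) (nat_lit 20) (.e (nat_lit 221211) (nat_lit 22) (.e (nat_lit 196670) (nat_lit 14) (.e (nat_lit 73746) (nat_lit 3) (.e (nat_lit 516117) (nat_lit 1) (.e (nat_lit 164180) (nat_lit 154) .nil))))))) (.g (nat_lit 4) .nil .nil))))) (.nd (nat_lit 4) (.nd (nat_lit 5) 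
(.lf (nat_lit 149580) (.g (nat_lit 2578) (.e (nat_lit 57378) (nat_lit 3) (.e (nat_lit 98341) (nat_lit 20) (.e (nat_lit 221215) (nat_lit 23) (.e (nat_lit 204863) (nat_lit 27) (.e (nat_lit 344118) (nat_lit 21) (.e (nat_lit 516118) (nat_lit 1) (.e (nat_lit 164183) (nat_lit 154) .nil))))))) (.g (nat_lit 4) .nil .nil))) 
(.lf (nat_lit 149612) (.g (nat_lit 3943) (.e (nat_lit 57378) (nat_lit 3) (.e (nat_lit 98342) (nat_lit 20) (.e (nat_lit 221211) (nat_lit 22) (.e (nat_lit 196666) (nat_lit 13) (.e (nat_lit 65569) (nat_lit 3) (.e (nat_lit 98335) (nat_lit 18) (.e (nat_lit 164183) (nat_lit 154) .nil))))))) (.g (nat_lit 6) .nil .nil)))) (.nd (nat_lit 5) 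
(.lf (nat_lit 149596) (.g (nat_lit 4221) (.e (nat_lit 57378) (nat_lit 3) (.e (nat_lit 98342) (nat_lit 20) (.e (nat_lit 221210) (nat_lit 22) (.e (nat_lit 196670) (nat_lit 14) (.e (nat_lit 73746) (nat_lit 3) (.e (nat_lit 516117) (nat_lit 1) (.e (nat_lit 164182) (nat_lit 154) .nil))))))) (.g (nat_lit 7) .nil .nil))) 
(.lf (nat_lit 149628) (.g (nat_lit 3898) (.e (nat_lit 57378) (nat_lit 3) (.e (nat_lit 98342) (nat_lit 20) (.e (nat_lit 221212) (nat_lit 22) (.e (nat_lit 196670) (nat_lit 14) (.e (nat_lit 73746) (nat_lit 3) (.e (nat_lit 516117) (nat_lit 1) (.e (nat_lit 164181) (nat_lit 154) .nil))))))) (.g (nat_lit 6) .nil .nil))))))) (.nd (nat_lit 2) (.nd (nat_lit 3) (.nd (nat_lit 4) (.nd (nat_lit 5) 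
(.lf (nat_lit 149570) (.g (nat_lit 5560) (.e (nat_lit 57378) (nat_lit 3) (.e (nat_lit 98341) (nat_lit 20) (.e (nat_lit 221215) (nat_lit 23) (.e (nat_lit 204863) (nat_lit 27) (.e (nat_lit 344117) (nat_lit 21) (.e (nat_lit 516115) (nat_lit 1) (.e (nat_lit 164179) (nat_lit 154) .nil))))))) (.g (nat_lit 7) .nil .nil))) 
(.lf (nat_lit 149602) (.g (nat_lit 2559) (.e (nat_lit 57378) (nat_lit 3) (.e (nat_lit 98342) (nat_lit 20) (.e (nat_lit 221210) (nat_lit 22) (.e (nat_lit 196670) (nat_lit 14) (.e (nat_lit 73746) (nat_lit 3) (.e (nat_lit 516120) (nat_lit 1) (.e (nat_lit 164176) (nat_lit 154) .nil))))))) (.g (nat_lit 4) .nil .nil)))) (.nd (nat_lit 5) 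
(.lf (nat_lit 149586) (.g (nat_lit 2363) (.e (nat_lit 57378) (nat_lit 3) (.e (nat_lit 98341) (nat_lit 20) (.e (nat_lit 221215) (nat_lit 23) (.e (nat_lit 204863) (nat_lit 27) (.e (nat_lit 344120) (nat_lit 21) (.e (nat_lit 516117) (nat_lit 1) (.e (nat_lit 164183) (nat_lit 154) .nil))))))) (.g (nat_lit 4) .nil .nil))) 
(.lf (nat_lit 149618) (.g (nat_lit 3453) (.e (nat_lit 57378) (nat_lit 3) (.e (nat_lit 98342) (nat_lit 20) (.e (nat_lit 221211) (nat_lit 22) (.e (nat_lit 196666) (nat_lit 13) (.e (nat_lit 65571) (nat_lit 3) (.e (nat_lit 98334) (nat_lit 18) (.e (nat_lit 164181) (nat_lit 154) .nil))))))) (.g (nat_lit 6) .nil .nil))))) (.nd (nat_lit 4) (.nd (nat_lit 5) 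
(.lf (nat_lit 149578) (.g (nat_lit 2383) (.e (nat_lit 57378) (nat_lit 3) (.e (nat_lit 98341) (nat_lit 20) (.e (nat_lit 221215) (nat_lit 23) (.e (nat_lit 204863) (nat_lit 27) (.e (nat_lit 344118) (nat_lit 21) (.e (nat_lit 516115) (nat_lit 1) (.e (nat_lit 164182) (nat_lit 154) .nil))))))) (.g (nat_lit 4) .nil .nil))) 
(.lf (nat_lit 149610) (.g (nat_lit 4182) (.e (nat_lit 57378) (nat_lit 3) (.e (nat_lit 98342) (nat_lit 20) (.e (nat_lit 221211) (nat_lit 22) (.e (nat_lit 196666) (nat_lit 13) (.e (nat_lit 65569) (nat_lit 3) (.e (nat_lit 98334) (nat_lit 18) (.e (nat_lit 164181) (nat_lit 154) .nil))))))) (.g (nat_lit 7) .nil .nil)))) (.nd (nat_lit 5) 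
(.lf (nat_lit 149594) (.g (nat_lit 2676) (.e (nat_lit 57378) (nat_lit 3) (.e (nat_lit 98342) (nat_lit 20) (.e (nat_lit 221210) (nat_lit 22) (.e (nat_lit 196670) (nat_lit 14) (.e (nat_lit 73746) (nat_lit 3) (.e (nat_lit 516117) (nat_lit 1) (.e (nat_lit 164176) (nat_lit 154) .nil))))))) (.g (nat_lit 4) .nil .nil))) 
(.lf (nat_lit 149626) (.g (nat_lit 4265) (.e (nat_lit 57378) (nat_lit 3) (.e (nat_lit 98342) (nat_lit 20) (.e (nat_lit 221212) (nat_lit 22) (.e (nat_lit 196670) (nat_lit 14) (.e (nat_lit 73746) (nat_lit 3) (.e (nat_lit 516115) (nat_lit 1) (.e (nat_lit 164182) (nat_lit 154) .nil))))))) (.g (nat_lit 7) .nil .nil)))))) (.nd (nat_lit 3) (.nd (nat_lit 4) (.nd (nat_lit 5) 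
(.lf (nat_lit 149574) (.g (nat_lit 4403) (.e (nat_lit 57378) (nat_lit 3) (.e (nat_lit 98341) (nat_lit 20) (.e (nat_lit 221215) (nat_lit 23) (.e (nat_lit 204863) (nat_lit 27) (.e (nat_lit 344117) (nat_lit 21) (.e (nat_lit 516116) (nat_lit 1) (.e (nat_lit 164181) (nat_lit 154) .nil))))))) (.g (nat_lit 6) .nil .nil))) 
(.lf (nat_lit 149606) (.g (nat_lit 4089) (.e (nat_lit 57378) (nat_lit 3) (.e (nat_lit 98342) (nat_lit 20) (.e (nat_lit 221211) (nat_lit 22) (.e (nat_lit 196666) (nat_lit 13) (.e (nat_lit 65569) (nat_lit 3) (.e (nat_lit 98333) (nat_lit 18) (.e (nat_lit 164182) (nat_lit 154) .nil))))))) (.g (nat_lit 6) .nil .nil)))) (.nd (nat_lit 5) 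
(.lf (nat_lit 149590) (.g (nat_lit 2821) (.e (nat_lit 57378) (nat_lit 3) (.e (nat_lit 98341) (nat_lit 20) (.e (nat_lit 221215) (nat_lit 23) (.e (nat_lit 204880) (nat_lit 32) (.e (nat_lit 385066) (nat_lit 26) (.e (nat_lit 532499) (nat_lit 1) (.e (nat_lit 57854) (nat_lit 252) .nil))))))) (.g (nat_lit 5) .nil .nil))) 
(.lf (nat_lit 149622) (.g (nat_lit 2157) (.e (nat_lit 57378) (nat_lit 3) (.e (nat_lit 98342) (nat_lit 20) (.e (nat_lit 221211) (nat_lit 22) (.e (nat_lit 196670) (nat_lit 14) (.e (nat_lit 73746) (nat_lit 3) (.e (nat_lit 516117) (nat_lit 1) (.e (nat_lit 164182) (nat_lit 154) .nil))))))) (.g (nat_lit 4) .nil .nil))))) (.nd (nat_lit 4) (.nd (nat_lit 5) 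
(.lf (nat_lit 149582) (.g (nat_lit 4411) (.e (nat_lit 57378) (nat_lit 3) (.e (nat_lit 98341) (nat_lit 20) (.e (nat_lit 221215) (nat_lit 23) (.e (nat_lit 204863) (nat_lit 27) (.e (nat_lit 344118) (nat_lit 21) (.e (nat_lit 516119) (nat_lit 1) (.e (nat_lit 164179) (nat_lit 154) .nil))))))) (.g (nat_lit 6) .nil .nil))) 
(.lf (nat_lit 149614) (.g (nat_lit 2624) (.e (nat_lit 57378) (nat_lit 3) (.e (nat_lit 98342) (nat_lit 20) (.e (nat_lit 221211) (nat_lit 22) (.e (nat_lit 196666) (nat_lit 13) (.e (nat_lit 65570) (nat_lit 3) (.e (nat_lit 98333) (nat_lit 18) (.e (nat_lit 164183) (nat_lit 154) .nil))))))) (.g (nat_lit 4) .nil .nil)))) (.nd (nat_lit 5) 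
(.lf (nat_lit 149598) (.g (nat_lit 2139) (.e (nat_lit 57378) (nat_lit 3) (.e (nat_lit 98342) (nat_lit 20) (.e (nat_lit 221210) (nat_lit 22) (.e (nat_lit 196670) (nat_lit 14) (.e (nat_lit 73746) (nat_lit 3) (.e (nat_lit 516118) (nat_lit 1) (.e (nat_lit 164182) (nat_lit 154) .nil))))))) (.g (nat_lit 4) .nil .nil))) 
(.lf (nat_lit 149630) (.g (nat_lit 3136) (.e (nat_lit 57378) (nat_lit 3) (.e (nat_lit 98342) (nat_lit 20) (.e (nat_lit 221212) (nat_lit 22) (.e (nat_lit 196670) (nat_lit 14) (.e (nat_lit 73746) (nat_lit 3) (.e (nat_lit 516119) (nat_lit 1) (.e (nat_lit 164176) (nat_lit 154) .nil))))))) (.g (nat_lit 5) .nil .nil)))))))) 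
(.nd (nat_lit 1) (.nd (nat_lit 2) (.nd (nat_lit 3) (.nd (nat_lit 4) (.nd (nat_lit 5) 
(.lf (nat_lit 149569) (.g (nat_lit 2303) (.e (nat_lit 57378) (nat_lit 3) (.e (nat_lit 98341) (nat_lit 20) (.e (nat_lit 221215) (nat_lit 23) (.e (nat_lit 204862) (nat_lit 27) (.e (nat_lit 344119) (nat_lit 21) (.e (nat_lit 516120) (nat_lit 1) (.e (nat_lit 164183) (nat_lit 154) .nil))))))) (.g (nat_lit 4) .nil .nil))) 
(.lf (nat_lit 149601) (.g (nat_lit 3358) (.e (nat_lit 57378) (nat_lit 3) (.e (nat_lit 98342) (nat_lit 20) (.e (nat_lit 221210) (nat_lit 22) (.e (nat_lit 196670) (nat_lit 14) (.e (nat_lit 73746) (nat_lit 3) (.e (nat_lit 516119) (nat_lit 1) (.e (nat_lit 164182) (nat_lit 154) .nil))))))) (.g (nat_lit 5) .nil .nil)))) (.nd (nat_lit 5) 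
(.lf (nat_lit 149585) (.g (nat_lit 3171) (.e (nat_lit 57378) (nat_lit 3) (.e (nat_lit 98341) (nat_lit 20) (.e (nat_lit 221215) (nat_lit 23) (.e (nat_lit 204863) (nat_lit 27) (.e (nat_lit 344120) (nat_lit 21) (.e (nat_lit 516115) (nat_lit 1) (.e (nat_lit 164183) (nat_lit 154) .nil))))))) (.g (nat_lit 5) .nil .nil))) 
(.lf (nat_lit 149617) (.g (nat_lit 3673) (.e (nat_lit 57378) (nat_lit 3) (.e (nat_lit 98342) (nat_lit 20) (.e (nat_lit 221211) (nat_lit 22) (.e (nat_lit 196666) (nat_lit 13) (.e (nat_lit 65571) (nat_lit 3) (.e (nat_lit 98334) (nat_lit 18) (.e (nat_lit 164180) (nat_lit 154) .nil))))))) (.g (nat_lit 6) .nil .nil))))) (.nd (nat_lit 4) (.nd (nat_lit 5) 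
(.lf (nat_lit 149577) (.g (nat_lit 2235) (.e (nat_lit 57378) (nat_lit 3) (.e (nat_lit 98341) (nat_lit 20) (.e (nat_lit 221215) (nat_lit 23) (.e (nat_lit 204863) (nat_lit 27) (.e (nat_lit 344118) (nat_lit 21) .nil))))) .nil)) 
(.lf (nat_lit 149609) (.g (nat_lit 4274) (.e (nat_lit 57378) (nat_lit 3) (.e (nat_lit 98342) (nat_lit 20) (.e (nat_lit 221211) (nat_lit 22) (.e (nat_lit 196666) (nat_lit 13) (.e (nat_lit 65569) (nat_lit 3) (.e (nat_lit 98334) (nat_lit 18) (.e (nat_lit 164180) (nat_lit 154) .nil))))))) (.g (nat_lit 7) .nil .nil)))) (.nd (nat_lit 5) 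
(.lf (nat_lit 149593) (.g (nat_lit 4589) (.e (nat_lit 57378) (nat_lit 3) (.e (nat_lit 98342) (nat_lit 20) (.e (nat_lit 221210) (nat_lit 22) (.e (nat_lit 196670) (nat_lit 14) (.e (nat_lit 73746) (nat_lit 3) (.e (nat_lit 516115) (nat_lit 1) (.e (nat_lit 164182) (nat_lit 154) .nil))))))) (.g (nat_lit 7) .nil .nil))) 
(.lf (nat_lit 149625) (.g (nat_lit 2899) (.e (nat_lit 57378) (nat_lit 3) (.e (nat_lit 98342) (nat_lit 20) (.e (nat_lit 221211) (nat_lit 22) (.e (nat_lit 196670) (nat_lit 14) (.e (nat_lit 73746) (nat_lit 3) (.e (nat_lit 516120) (nat_lit 1) (.e (nat_lit 164183) (nat_lit 154) .nil))))))) (.g (nat_lit 5) .nil .nil)))))) (.nd (nat_lit 3) (.nd (nat_lit 4) (.nd (nat_lit 5) 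
(.lf (nat_lit 149573) (.g (nat_lit 4798) (.e (nat_lit 57378) (nat_lit 3) (.e (nat_lit 98341) (nat_lit 20) (.e (nat_lit 221215) (nat_lit 23) (.e (nat_lit 204863) (nat_lit 27) (.e (nat_lit 344117) (nat_lit 21) (.e (nat_lit 516116) (nat_lit 1) (.e (nat_lit 164180) (nat_lit 154) .nil))))))) (.g (nat_lit 6) .nil .nil))) 
(.lf (nat_lit 149605) (.g (nat_lit 4939) (.e (nat_lit 57378) (nat_lit 3) (.e (nat_lit 98342) (nat_lit 20) (.e (nat_lit 221211) (nat_lit 22) (.e (nat_lit 196666) (nat_lit 13) (.e (nat_lit 65569) (nat_lit 3) (.e (nat_lit 98333) (nat_lit 18) (.e (nat_lit 164179) (nat_lit 154) .nil))))))) (.g (nat_lit 7) .nil .nil)))) (.nd (nat_lit 5) 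
(.lf (nat_lit 149589) (.g (nat_lit 2346) (.e (nat_lit 57378) (nat_lit 3) (.e (nat_lit 98341) (nat_lit 20) (.e (nat_lit 221215) (nat_lit 23) (.e (nat_lit 204873) (nat_lit 30) (.e (nat_lit 368676) (nat_lit 21) (.e (nat_lit 516118) (nat_lit 1) (.e (nat_lit 164183) (nat_lit 154) .nil))))))) (.g (nat_lit 4) .nil .nil))) 
(.lf (nat_lit 149621) (.g (nat_lit 2383) (.e (nat_lit 57378) (nat_lit 3) (.e (nat_lit 98342) (nat_lit 20) (.e (nat_lit 221211) (nat_lit 22) (.e (nat_lit 196670) (nat_lit 14) (.e (nat_lit 73746) (nat_lit 3) (.e (nat_lit 516117) (nat_lit 1) (.e (nat_lit 164181) (nat_lit 154) .nil))))))) (.g (nat_lit 4) .nil .nil))))) (.nd (nat_lit 4) (.nd (nat_lit 5) 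
(.lf (nat_lit 149581) (.g (nat_lit 2479) (.e (nat_lit 57378) (nat_lit 3) (.e (nat_lit 98341) (nat_lit 20) (.e (nat_lit 221215) (nat_lit 23) (.e (nat_lit 204863) (nat_lit 27) (.e (nat_lit 344118) (nat_lit 21) (.e (nat_lit 516119) (nat_lit 1) (.e (nat_lit 164176) (nat_lit 154) .nil))))))) (.g (nat_lit 4) .nil .nil))) 
(.lf (nat_lit 149613) (.g (nat_lit 3143) (.e (nat_lit 57378) (nat_lit 3) (.e (nat_lit 98342) (nat_lit 20) (.e (nat_lit 221211) (nat_lit 22) (.e (nat_lit 196666) (nat_lit 13) (.e (nat_lit 65570) (nat_lit 3) (.e (nat_lit 98333) (nat_lit 18) (.e (nat_lit 164179) (nat_lit 154) .nil))))))) (.g (nat_lit 4) .nil .nil)))) (.nd (nat_lit 5) 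
(.lf (nat_lit 149597) (.g (nat_lit 3517) (.e (nat_lit 57378) (nat_lit 3) (.e (nat_lit 98342) (nat_lit 20) (.e (nat_lit 221210) (nat_lit 22) (.e (nat_lit 196670) (nat_lit 14) (.e (nat_lit 73746) (nat_lit 3) (.e (nat_lit 516118) (nat_lit 1) (.e (nat_lit 164179) (nat_lit 154) .nil))))))) (.g (nat_lit 5) .nil .nil))) 
(.lf (nat_lit 149629) (.g (nat_lit 3088) (.e (nat_lit 57378) (nat_lit 3) (.e (nat_lit 98342) (nat_lit 20) (.e (nat_lit 221212) (nat_lit 22) (.e (nat_lit 196670) (nat_lit 14) (.e (nat_lit 73746) (nat_lit 3) (.e (nat_lit 516118) (nat_lit 1) (.e (nat_lit 164179) (nat_lit 154) .nil))))))) (.g (nat_lit 5) .nil .nil))))))) (.nd (nat_lit 2) (.nd (nat_lit 3) (.nd (nat_lit 4) (.nd (nat_lit 5) 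
(.lf (nat_lit 149571) (.g (nat_lit 3889) (.e (nat_lit 57378) (nat_lit 3) (.e (nat_lit 98341) (nat_lit 20) (.e (nat_lit 221215) (nat_lit 23) (.e (nat_lit 204863) (nat_lit 27) (.e (nat_lit 344117) (nat_lit 21) (.e (nat_lit 516115) (nat_lit 1) (.e (nat_lit 164182) (nat_lit 154) .nil))))))) (.g (nat_lit 6) .nil .nil))) 
(.lf (nat_lit 149603) (.g (nat_lit 4363) (.e (nat_lit 57378) (nat_lit 3) (.e (nat_lit 98342) (nat_lit 20) (.e (nat_lit 221210) (nat_lit 22) (.e (nat_lit 196670) (nat_lit 14) (.e (nat_lit 73746) (nat_lit 3) (.e (nat_lit 516120) (nat_lit 1) (.e (nat_lit 164181) (nat_lit 154) .nil))))))) (.g (nat_lit 6) .nil .nil)))) (.nd (nat_lit 5) 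
(.lf (nat_lit 149587) (.g (nat_lit 2689) (.e (nat_lit 57378) (nat_lit 3) (.e (nat_lit 98341) (nat_lit 20) (.e (nat_lit 221215) (nat_lit 23) (.e (nat_lit 204863) (nat_lit 27) (.e (nat_lit 344120) (nat_lit 21) (.e (nat_lit 516118) (nat_lit 1) (.e (nat_lit 164183) (nat_lit 154) .nil))))))) (.g (nat_lit 4) .nil .nil))) 
(.lf (nat_lit 149619) (.g (nat_lit 4322) (.e (nat_lit 57378) (nat_lit 3) (.e (nat_lit 98342) (nat_lit 20) (.e (nat_lit 221211) (nat_lit 22) (.e (nat_lit 196666) (nat_lit 13) (.e (nat_lit 65571) (nat_lit 3) (.e (nat_lit 98334) (nat_lit 18) (.e (nat_lit 164182) (nat_lit 154) .nil))))))) (.g (nat_lit 7) .nil .nil))))) (.nd (nat_lit 4) (.nd (nat_lit 5) 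
(.lf (nat_lit 149579) (.g (nat_lit 3087) (.e (nat_lit 57378) (nat_lit 3) (.e (nat_lit 98341) (nat_lit 20) (.e (nat_lit 221215) (nat_lit 23) (.e (nat_lit 204863) (nat_lit 27) (.e (nat_lit 344118) (nat_lit 21) (.e (nat_lit 516117) (nat_lit 1) (.e (nat_lit 164183) (nat_lit 154) .nil))))))) (.g (nat_lit 5) .nil .nil))) 
(.lf (nat_lit 149611) (.g (nat_lit 4709) (.e (nat_lit 57378) (nat_lit 3) (.e (nat_lit 98342) (nat_lit 20) (.e (nat_lit 221211) (nat_lit 22) (.e (nat_lit 196666) (nat_lit 13) (.e (nat_lit 65569) (nat_lit 3) (.e (nat_lit 98334) (nat_lit 18) (.e (nat_lit 164182) (nat_lit 154) .nil))))))) (.g (nat_lit 7) .nil .nil)))) (.nd (nat_lit 5) 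
(.lf (nat_lit 149595) (.g (nat_lit 4278) (.e (nat_lit 57378) (nat_lit 3) (.e (nat_lit 98342) (nat_lit 20) (.e (nat_lit 221210) (nat_lit 22) (.e (nat_lit 196670) (nat_lit 14) (.e (nat_lit 73746) (nat_lit 3) (.e (nat_lit 516117) (nat_lit 1) (.e (nat_lit 164181) (nat_lit 154) .nil))))))) (.g (nat_lit 6) .nil .nil))) 
(.lf (nat_lit 149627) (.g (nat_lit 2275) (.e (nat_lit 57378) (nat_lit 3) (.e (nat_lit 98342) (nat_lit 20) (.e (nat_lit 221212) (nat_lit 22) (.e (nat_lit 196670) (nat_lit 14) (.e (nat_lit 73746) (nat_lit 3) (.e (nat_lit 516117) (nat_lit 1) (.e (nat_lit 164176) (nat_lit 154) .nil))))))) (.g (nat_lit 4) .nil .nil)))))) (.nd (nat_lit 3) (.nd (nat_lit 4) (.nd (nat_lit 5) 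
(.lf (nat_lit 149575) (.g (nat_lit 5020) (.e (nat_lit 57378) (nat_lit 3) (.e (nat_lit 98341) (nat_lit 20) (.e (nat_lit 221215) (nat_lit 23) (.e (nat_lit 204863) (nat_lit 27) (.e (nat_lit 344117) (nat_lit 21) (.e (nat_lit 516116) (nat_lit 1) (.e (nat_lit 164183) (nat_lit 154) .nil))))))) (.g (nat_lit 7) .nil .nil))) 
(.lf (nat_lit 149607) (.g (nat_lit 4558) (.e (nat_lit 57378) (nat_lit 3) (.e (nat_lit 98342) (nat_lit 20) (.e (nat_lit 221211) (nat_lit 22) (.e (nat_lit 196666) (nat_lit 13) (.e (nat_lit 65569) (nat_lit 3) (.e (nat_lit 98333) (nat_lit 18) (.e (nat_lit 164183) (nat_lit 154) .nil))))))) (.g (nat_lit 7) .nil .nil)))) (.nd (nat_lit 5) 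
(.lf (nat_lit 149591) (.g (nat_lit 3602) (.e (nat_lit 57378) (nat_lit 3) (.e (nat_lit 98341) (nat_lit 20) (.e (nat_lit 221215) (nat_lit 23) (.e (nat_lit 204880) (nat_lit 32) (.e (nat_lit 385066) (nat_lit 26) (.e (nat_lit 532501) (nat_lit 1) (.e (nat_lit 57852) (nat_lit 252) .nil))))))) (.g (nat_lit 6) .nil .nil))) 
(.lf (nat_lit 149623) (.g (nat_lit 2111) (.e (nat_lit 57378) (nat_lit 3) (.e (nat_lit 98342) (nat_lit 20) (.e (nat_lit 221211) (nat_lit 22) (.e (nat_lit 196670) (nat_lit 14) (.e (nat_lit 73746) (nat_lit 3) (.e (nat_lit 516118) (nat_lit 1) (.e (nat_lit 164183) (nat_lit 154) .nil))))))) (.g (nat_lit 4) .nil .nil))))) (.nd (nat_lit 4) (.nd (nat_lit 5) 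
(.lf (nat_lit 149583) (.g (nat_lit 3270) (.e (nat_lit 57378) (nat_lit 3) (.e (nat_lit 98341) (nat_lit 20) (.e (nat_lit 221215) (nat_lit 23) (.e (nat_lit 204863) (nat_lit 27) (.e (nat_lit 344118) (nat_lit 21) (.e (nat_lit 516120) (nat_lit 1) (.e (nat_lit 164181) (nat_lit 154) .nil))))))) (.g (nat_lit 4) .nil .nil))) 
(.lf (nat_lit 149615) (.g (nat_lit 4718) (.e (nat_lit 57378) (nat_lit 3) (.e (nat_lit 98342) (nat_lit 20) (.e (nat_lit 221211) (nat_lit 22) (.e (nat_lit 196666) (nat_lit 13) (.e (nat_lit 65571) (nat_lit 3) (.e (nat_lit 98333) (nat_lit 18) (.e (nat_lit 164179) (nat_lit 154) .nil))))))) (.g (nat_lit 7) .nil .nil)))) (.nd (nat_lit 5) 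
(.lf (nat_lit 149599) (.g (nat_lit 3535) (.e (nat_lit 57378) (nat_lit 3) (.e (nat_lit 98342) (nat_lit 20) (.e (nat_lit 221210) (nat_lit 22) (.e (nat_lit 196670) (nat_lit 14) (.e (nat_lit 73746) (nat_lit 3) (.e (nat_lit 516119) (nat_lit 1) (.e (nat_lit 164176) (nat_lit 154) .nil))))))) (.g (nat_lit 5) .nil .nil))) 
(.lf (nat_lit 149631) (.g (nat_lit 4453) (.e (nat_lit 57378) (nat_lit 3) (.e (nat_lit 98342) (nat_lit 20) (.e (nat_lit 221212) (nat_lit 22) (.e (nat_lit 196670) (nat_lit 14) (.e (nat_lit 73746) (nat_lit 3) (.e (nat_lit 516119) (nat_lit 1) (.e (nat_lit 164179) (nat_lit 154) .nil))))))) (.g (nat_lit 7) .nil .nil)))))))))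

noncomputable def tv1994 : DT := (.nd (nat_lit 0) (.nd (nat_lit 1) (.nd (nat_lit 2) (.nd (nat_lit 3) (.nd (nat_lit 4) (.nd (nat_lit 5) 
(.lf (nat_lit 149632) (.g (nat_lit 2194) (.e (nat_lit 57378) (nat_lit 3) (.e (nat_lit 98342) (nat_lit 20) (.e (nat_lit 221212) (nat_lit 22) (.e (nat_lit 196670) (nat_lit 14) (.e (nat_lit 73746) (nat_lit 3) (.e (nat_lit 516120) (nat_lit 1) (.e (nat_lit 164176) (nat_lit 154) .nil))))))) (.g (nat_lit 4) .nil .nil))) 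
(.lf (nat_lit 149664) (.g (nat_lit 4129) (.e (nat_lit 57378) (nat_lit 3) (.e (nat_lit 98342) (nat_lit 20) (.e (nat_lit 221215) (nat_lit 23) (.e (nat_lit 204863) (nat_lit 27) (.e (nat_lit 344117) (nat_lit 21) (.e (nat_lit 516116) (nat_lit 1) (.e (nat_lit 164181) (nat_lit 154) .nil))))))) (.g (nat_lit 6) .nil .nil)))) (.nd (nat_lit 5) 
(.lf (nat_lit 149648) (.g (nat_lit 3085) (.e (nat_lit 57378) (nat_lit 3) (.e (nat_lit 98342) (nat_lit 20) (.e (nat_lit 221214) (nat_lit 23) (.e (nat_lit 204863) (nat_lit 27) (.e (nat_lit 344118) (nat_lit 21) (.e (nat_lit 516120) (nat_lit 1) (.e (nat_lit 164182) (nat_lit 154) .nil))))))) (.g (nat_lit 5) .nil .nil))) 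
(.lf (nat_lit 149680) (.g (nat_lit 1210) (.e (nat_lit 57378) (nat_lit 3) (.e (nat_lit 98350) (nat_lit 24) (.e (nat_lit 409626) (nat_lit 11) .nil))) .nil)))) (.nd (nat_lit 4) (.nd (nat_lit 5) 
(.lf (nat_lit 149640) (.g (nat_lit 2074) (.e (nat_lit 57378) (nat_lit 3) (.e (nat_lit 98342) (nat_lit 20) (.e (nat_lit 221214) (nat_lit 23) (.e (nat_lit 204862) (nat_lit 27) (.e (nat_lit 344118) (nat_lit 21) (.e (nat_lit 516120) (nat_lit 1) (.e (nat_lit 164183) (nat_lit 154) .nil))))))) (.g (nat_lit 4) .nil .nil))) 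
(.lf (nat_lit 149672) (.g (nat_lit 2072) (.e (nat_lit 57378) (nat_lit 3) (.e (nat_lit 98342) (nat_lit 20) (.e (nat_lit 221215) (nat_lit 23) (.e (nat_lit 204863) (nat_lit 27) (.e (nat_lit 344120) (nat_lit 21) .nil))))) .nil))) (.nd (nat_lit 5) 
(.lf (nat_lit 149656) (.g (nat_lit 2599) (.e (nat_lit 57378) (nat_lit 3) (.e (nat_lit 98342) (nat_lit 20) (.e (nat_lit 221215) (nat_lit 23) (.e (nat_lit 204859) (nat_lit 26) (.e (nat_lit 336017) (nat_lit 3) (.e (nat_lit 98334) (nat_lit 18) (.e (nat_lit 164183) (nat_lit 154) .nil))))))) (.g (nat_lit 4) .nil .nil))) 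
(.lf (nat_lit 149688) (.g (nat_lit 2906) (.e (nat_lit 57378) (nat_lit 3) (.e (nat_lit 98355) (nat_lit 26) (.e (nat_lit 426131) (nat_lit 3) (.e (nat_lit 204837) (nat_lit 20) (.e (nat_lit 114719) (nat_lit 23) (.e (nat_lit 98333) (nat_lit 18) (.e (nat_lit 164399) (nat_lit 256) .nil))))))) (.g (nat_lit 4) .nil .nil)))))) (.nd (nat_lit 3) (.nd (nat_lit 4) (.nd (nat_lit 5) 
(.lf (nat_lit 149636) (.g (nat_lit 2655) (.e (nat_lit 57378) (nat_lit 3) (.e (nat_lit 98342) (nat_lit 20) (.e (nat_lit 221214) (nat_lit 23) (.e (nat_lit 204852) (nat_lit 26) (.e (nat_lit 336324) (nat_lit 18) (.e (nat_lit 204830) (nat_lit 18) (.e (nat_lit 57852) (nat_lit 252) .nil))))))) (.g (nat_lit 5) .nil .nil))) 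
(.lf (nat_lit 149668) (.g (nat_lit 2251) (.e (nat_lit 57378) (nat_lit 3) (.e (nat_lit 98342) (nat_lit 20) (.e (nat_lit 221215) (nat_lit 23) (.e (nat_lit 204863) (nat_lit 27) (.e (nat_lit 344118) (nat_lit 21) (.e (nat_lit 516118) (nat_lit 1) (.e (nat_lit 164183) (nat_lit 154) .nil))))))) (.g (nat_lit 4) .nil .nil)))) (.nd (nat_lit 5) 
(.lf (nat_lit 149652) (.g (nat_lit 1159) (.e (nat_lit 57378) (nat_lit 3) (.e (nat_lit 98342) (nat_lit 20) (.e (nat_lit 221215) (nat_lit 23) (.e (nat_lit 204850) (nat_lit 26) .nil)))) .nil)) 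
(.lf (nat_lit 149684) (.g (nat_lit 4047) (.e (nat_lit 57378) (nat_lit 3) (.e (nat_lit 98350) (nat_lit 24) (.e (nat_lit 409646) (nat_lit 18) (.e (nat_lit 303119) (nat_lit 3) (.e (nat_lit 204863) (nat_lit 27) (.e (nat_lit 344096) (nat_lit 18) (.e (nat_lit 4411) (nat_lit 259) .nil))))))) (.g (nat_lit 4) .nil .nil))))) (.nd (nat_lit 4) (.nd (nat_lit 5) 
(.lf (nat_lit 149644) (.g (nat_lit 2945) (.e (nat_lit 57378) (nat_lit 3) (.e (nat_lit 98342) (nat_lit 20) (.e (nat_lit 221214) (nat_lit 23) (.e (nat_lit 204863) (nat_lit 27) (.e (nat_lit 344117) (nat_lit 21) (.e (nat_lit 516118) (nat_lit 1) (.e (nat_lit 164183) (nat_lit 154) .nil))))))) (.g (nat_lit 5) .nil .nil))) 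
(.lf (nat_lit 149676) (.g (nat_lit 3589) (.e (nat_lit 57378) (nat_lit 3) (.e (nat_lit 98342) (nat_lit 20) (.e (nat_lit 221215) (nat_lit 23) (.e (nat_lit 204880) (nat_lit 32) (.e (nat_lit 385066) (nat_lit 26) (.e (nat_lit 532501) (nat_lit 1) (.e (nat_lit 57852) (nat_lit 252) .nil))))))) (.g (nat_lit 6) .nil .nil)))) (.nd (nat_lit 5) 
(.lf (nat_lit 149660) (.g (nat_lit 1693) (.e (nat_lit 57378) (nat_lit 3) (.e (nat_lit 98342) (nat_lit 20) (.e (nat_lit 221215) (nat_lit 23) (.e (nat_lit 204862) (nat_lit 27) (.e (nat_lit 344118) (nat_lit 21) .nil))))) .nil)) 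
(.lf (nat_lit 149692) (.g (nat_lit 2599) (.e (nat_lit 57378) (nat_lit 3) (.e (nat_lit 98355) (nat_lit 26) (.e (nat_lit 426131) (nat_lit 3) (.e (nat_lit 204838) (nat_lit 20) (.e (nat_lit 114717) (nat_lit 23) (.e (nat_lit 98334) (nat_lit 18) (.e (nat_lit 164401) (nat_lit 256) .nil))))))) (.g (nat_lit 4) .nil .nil))))))) (.nd (nat_lit 2) (.nd (nat_lit 3) (.nd (nat_lit 4) (.nd (nat_lit 5) 
(.lf (nat_lit 149634) (.g (nat_lit 4362) (.e (nat_lit 57378) (nat_lit 3) (.e (nat_lit 98342) (nat_lit 20) (.e (nat_lit 221212) (nat_lit 22) (.e (nat_lit 196670) (nat_lit 14) (.e (nat_lit 73746) (nat_lit 3) (.e (nat_lit 516120) (nat_lit 1) (.e (nat_lit 164182) (nat_lit 154) .nil))))))) (.g (nat_lit 7) .nil .nil))) 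
(.lf (nat_lit 149666) (.g (nat_lit 3386) (.e (nat_lit 57378) (nat_lit 3) (.e (nat_lit 98342) (nat_lit 20) (.e (nat_lit 221215) (nat_lit 23) (.e (nat_lit 204863) (nat_lit 27) (.e (nat_lit 344117) (nat_lit 21) (.e (nat_lit 516118) (nat_lit 1) (.e (nat_lit 164183) (nat_lit 154) .nil))))))) (.g (nat_lit 5) .nil .nil)))) (.nd (nat_lit 5) 
(.lf (nat_lit 149650) (.g (nat_lit 2496) (.e (nat_lit 57378) (nat_lit 3) (.e (nat_lit 98342) (nat_lit 20) (.e (nat_lit 221214) (nat_lit 23) (.e (nat_lit 204863) (nat_lit 27) (.e (nat_lit 344120) (nat_lit 21) (.e (nat_lit 516115) (nat_lit 1) (.e (nat_lit 164183) (nat_lit 154) .nil))))))) (.g (nat_lit 4) .nil .nil))) 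
(.lf (nat_lit 149682) (.g (nat_lit 3035) (.e (nat_lit 57378) (nat_lit 3) (.e (nat_lit 98350) (nat_lit 24) (.e (nat_lit 409646) (nat_lit 18) (.e (nat_lit 303119) (nat_lit 3) (.e (nat_lit 204863) (nat_lit 27) .nil))))) .nil)))) (.nd (nat_lit 4) (.nd (nat_lit 5) 
(.lf (nat_lit 149642) (.g (nat_lit 4120) (.e (nat_lit 57378) (nat_lit 3) (.e (nat_lit 98342) (nat_lit 20) (.e (nat_lit 221214) (nat_lit 23) (.e (nat_lit 204863) (nat_lit 27) (.e (nat_lit 344117) (nat_lit 21) (.e (nat_lit 516115) (nat_lit 1) (.e (nat_lit 164183) (nat_lit 154) .nil))))))) (.g (nat_lit 7) .nil .nil))) 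
(.lf (nat_lit 149674) (.g (nat_lit 2140) (.e (nat_lit 57378) (nat_lit 3) (.e (nat_lit 98342) (nat_lit 20) (.e (nat_lit 221215) (nat_lit 23) (.e (nat_lit 204872) (nat_lit 30) (.e (nat_lit 368676) (nat_lit 21) (.e (nat_lit 516118) (nat_lit 1) (.e (nat_lit 164183) (nat_lit 154) .nil))))))) (.g (nat_lit 4) .nil .nil)))) (.nd (nat_lit 5) 
(.lf (nat_lit 149658) (.g (nat_lit 4844) (.e (nat_lit 57378) (nat_lit 3) (.e (nat_lit 98342) (nat_lit 20) (.e (nat_lit 221215) (nat_lit 23) (.e (nat_lit 204862) (nat_lit 27) (.e (nat_lit 344117) (nat_lit 21) (.e (nat_lit 516115) (nat_lit 1) (.e (nat_lit 164179) (nat_lit 154) .nil))))))) (.g (nat_lit 7) .nil .nil))) 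
(.lf (nat_lit 149690) (.g (nat_lit 2941) (.e (nat_lit 57378) (nat_lit 3) (.e (nat_lit 98355) (nat_lit 26) (.e (nat_lit 426131) (nat_lit 3) (.e (nat_lit 204837) (nat_lit 20) (.e (nat_lit 114719) (nat_lit 23) (.e (nat_lit 98334) (nat_lit 18) (.e (nat_lit 164399) (nat_lit 256) .nil))))))) (.g (nat_lit 4) .nil .nil)))))) (.nd (nat_lit 3) (.nd (nat_lit 4) (.nd (nat_lit 5) 
(.lf (nat_lit 149638) (.g (nat_lit 2362) (.e (nat_lit 57378) (nat_lit 3) (.e (nat_lit 98342) (nat_lit 20) (.e (nat_lit 221214) (nat_lit 23) (.e (nat_lit 204862) (nat_lit 27) (.e (nat_lit 344117) (nat_lit 21) (.e (nat_lit 516115) (nat_lit 1) (.e (nat_lit 164182) (nat_lit 154) .nil))))))) (.g (nat_lit 4) .nil .nil))) 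
(.lf (nat_lit 149670) (.g (nat_lit 4060) (.e (nat_lit 57378) (nat_lit 3) (.e (nat_lit 98342) (nat_lit 20) (.e (nat_lit 221215) (nat_lit 23) (.e (nat_lit 204863) (nat_lit 27) (.e (nat_lit 344118) (nat_lit 21) (.e (nat_lit 516119) (nat_lit 1) (.e (nat_lit 164179) (nat_lit 154) .nil))))))) (.g (nat_lit 6) .nil .nil)))) (.nd (nat_lit 5) 
(.lf (nat_lit 149654) (.g (nat_lit 2131) (.e (nat_lit 57378) (nat_lit 3) (.e (nat_lit 98342) (nat_lit 20) (.e (nat_lit 221215) (nat_lit 23) (.e (nat_lit 204859) (nat_lit 26) (.e (nat_lit 336017) (nat_lit 3) .nil))))) .nil)) 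
(.lf (nat_lit 149686) (.g (nat_lit 3451) (.e (nat_lit 57378) (nat_lit 3) (.e (nat_lit 98355) (nat_lit 26) (.e (nat_lit 426131) (nat_lit 3) (.e (nat_lit 204837) (nat_lit 20) (.e (nat_lit 114718) (nat_lit 23) (.e (nat_lit 98334) (nat_lit 18) (.e (nat_lit 164399) (nat_lit 256) .nil))))))) (.g (nat_lit 5) .nil .nil))))) (.nd (nat_lit 4) (.nd (nat_lit 5) 
(.lf (nat_lit 149646) (.g (nat_lit 2650) (.e (nat_lit 57378) (nat_lit 3) (.e (nat_lit 98342) (nat_lit 20) (.e (nat_lit 221214) (nat_lit 23) (.e (nat_lit 204863) (nat_lit 27) (.e (nat_lit 344118) (nat_lit 21) (.e (nat_lit 516115) (nat_lit 1) (.e (nat_lit 164183) (nat_lit 154) .nil))))))) (.g (nat_lit 4) .nil .nil))) 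
(.lf (nat_lit 149678) (.g (nat_lit 2387) (.e (nat_lit 57378) (nat_lit 3) (.e (nat_lit 98350) (nat_lit 24) (.e (nat_lit 409602) (nat_lit 0) (.e (nat_lit 5629) (nat_lit 312) (.e (nat_lit 351) (nat_lit 28) .nil))))) .nil))) (.nd (nat_lit 5) 
(.lf (nat_lit 149662) (.g (nat_lit 5182) (.e (nat_lit 57378) (nat_lit 3) (.e (nat_lit 98342) (nat_lit 20) (.e (nat_lit 221215) (nat_lit 23) (.e (nat_lit 204863) (nat_lit 27) (.e (nat_lit 344117) (nat_lit 21) (.e (nat_lit 516115) (nat_lit 1) (.e (nat_lit 164179) (nat_lit 154) .nil))))))) (.g (nat_lit 7) .nil .nil))) 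
(.lf (nat_lit 149694) (.g (nat_lit 4052) (.e (nat_lit 57378) (nat_lit 3) (.e (nat_lit 98355) (nat_lit 26) (.e (nat_lit 426131) (nat_lit 3) (.e (nat_lit 204838) (nat_lit 20) (.e (nat_lit 114718) (nat_lit 23) (.e (nat_lit 98334) (nat_lit 18) (.e (nat_lit 164399) (nat_lit 256) .nil))))))) (.g (nat_lit 6) .nil .nil)))))))) 
(.nd (nat_lit 1) (.nd (nat_lit 2) (.nd (nat_lit 3) (.nd (nat_lit 4) (.nd (nat_lit 5) 
(.lf (nat_lit 149633) (.g (nat_lit 4019) (.e (nat_lit 57378) (nat_lit 3) (.e (nat_lit 98342) (nat_lit 20) (.e (nat_lit 221212) (nat_lit 22) (.e (nat_lit 196670) (nat_lit 14) (.e (nat_lit 73746) (nat_lit 3) (.e (nat_lit 516120) (nat_lit 1) (.e (nat_lit 164181) (nat_lit 154) .nil))))))) (.g (nat_lit 6) .nil .nil))) 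
(.lf (nat_lit 149665) (.g (nat_lit 4698) (.e (nat_lit 57378) (nat_lit 3) (.e (nat_lit 98342) (nat_lit 20) (.e (nat_lit 221215) (nat_lit 23) (.e (nat_lit 204863) (nat_lit 27) (.e (nat_lit 344117) (nat_lit 21) (.e (nat_lit 516116) (nat_lit 1) (.e (nat_lit 164183) (nat_lit 154) .nil))))))) (.g (nat_lit 7) .nil .nil)))) (.nd (nat_lit 5) 
(.lf (nat_lit 149649) (.g (nat_lit 2134) (.e (nat_lit 57378) (nat_lit 3) (.e (nat_lit 98342) (nat_lit 20) (.e (nat_lit 221214) (nat_lit 23) (.e (nat_lit 204863) (nat_lit 27) (.e (nat_lit 344120) (nat_lit 21) .nil))))) .nil)) 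
(.lf (nat_lit 149681) (.g (nat_lit 1846) (.e (nat_lit 57378) (nat_lit 3) (.e (nat_lit 98350) (nat_lit 24) (.e (nat_lit 409645) (nat_lit 18) (.e (nat_lit 303119) (nat_lit 3) .nil)))) .nil)))) (.nd (nat_lit 4) (.nd (nat_lit 5) 
(.lf (nat_lit 149641) (.g (nat_lit 3130) (.e (nat_lit 57378) (nat_lit 3) (.e (nat_lit 98342) (nat_lit 20) (.e (nat_lit 221214) (nat_lit 23) (.e (nat_lit 204863) (nat_lit 27) (.e (nat_lit 344117) (nat_lit 21) (.e (nat_lit 516115) (nat_lit 1) (.e (nat_lit 164182) (nat_lit 154) .nil))))))) (.g (nat_lit 5) .nil .nil))) 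
(.lf (nat_lit 149673) (.g (nat_lit 2362) (.e (nat_lit 57378) (nat_lit 3) (.e (nat_lit 98342) (nat_lit 20) (.e (nat_lit 221215) (nat_lit 23) (.e (nat_lit 204863) (nat_lit 27) (.e (nat_lit 344120) (nat_lit 21) (.e (nat_lit 516118) (nat_lit 1) (.e (nat_lit 164183) (nat_lit 154) .nil))))))) (.g (nat_lit 4) .nil .nil)))) (.nd (nat_lit 5) 
(.lf (nat_lit 149657) (.g (nat_lit 2250) (.e (nat_lit 57378) (nat_lit 3) (.e (nat_lit 98342) (nat_lit 20) (.e (nat_lit 221215) (nat_lit 23) (.e (nat_lit 204861) (nat_lit 26) (.e (nat_lit 336026) (nat_lit 3) (.e (nat_lit 98335) (nat_lit 18) (.e (nat_lit 164178) (nat_lit 154) .nil))))))) (.g (nat_lit 4) .nil .nil))) 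
(.lf (nat_lit 149689) (.g (nat_lit 2802) (.e (nat_lit 57378) (nat_lit 3) (.e (nat_lit 98355) (nat_lit 26) (.e (nat_lit 426131) (nat_lit 3) (.e (nat_lit 204837) (nat_lit 20) (.e (nat_lit 114719) (nat_lit 23) (.e (nat_lit 98334) (nat_lit 18) (.e (nat_lit 164398) (nat_lit 256) .nil))))))) (.g (nat_lit 4) .nil .nil)))))) (.nd (nat_lit 3) (.nd (nat_lit 4) (.nd (nat_lit 5) 
(.lf (nat_lit 149637) (.g (nat_lit 1697) (.e (nat_lit 57378) (nat_lit 3) (.e (nat_lit 98342) (nat_lit 20) (.e (nat_lit 221214) (nat_lit 23) (.e (nat_lit 204859) (nat_lit 26) (.e (nat_lit 336017) (nat_lit 3) .nil))))) .nil)) 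
(.lf (nat_lit 149669) (.g (nat_lit 2207) (.e (nat_lit 57378) (nat_lit 3) (.e (nat_lit 98342) (nat_lit 20) (.e (nat_lit 221215) (nat_lit 23) (.e (nat_lit 204863) (nat_lit 27) (.e (nat_lit 344118) (nat_lit 21) (.e (nat_lit 516119) (nat_lit 1) (.e (nat_lit 164176) (nat_lit 154) .nil))))))) (.g (nat_lit 4) .nil .nil)))) (.nd (nat_lit 5) 
(.lf (nat_lit 149653) (.g (nat_lit 2161) (.e (nat_lit 57378) (nat_lit 3) (.e (nat_lit 98342) (nat_lit 20) (.e (nat_lit 221215) (nat_lit 23) (.e (nat_lit 204852) (nat_lit 26) (.e (nat_lit 336324) (nat_lit 18) (.e (nat_lit 204830) (nat_lit 18) (.e (nat_lit 57852) (nat_lit 252) .nil))))))) (.g (nat_lit 4) .nil .nil))) 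
(.lf (nat_lit 149685) (.g (nat_lit 689) (.e (nat_lit 57378) (nat_lit 3) (.e (nat_lit 98350) (nat_lit 24) (.e (nat_lit 409648) (nat_lit 18) .nil))) .nil)))) (.nd (nat_lit 4) (.nd (nat_lit 5) 
(.lf (nat_lit 149645) (.g (nat_lit 2086) (.e (nat_lit 57378) (nat_lit 3) (.e (nat_lit 98342) (nat_lit 20) (.e (nat_lit 221214) (nat_lit 23) (.e (nat_lit 204863) (nat_lit 27) (.e (nat_lit 344118) (nat_lit 21) .nil))))) .nil)) 
(.lf (nat_lit 149677) (.g (nat_lit 3529) (.e (nat_lit 57378) (nat_lit 3) (.e (nat_lit 98342) (nat_lit 20) (.e (nat_lit 221215) (nat_lit 23) (.e (nat_lit 204880) (nat_lit 32) (.e (nat_lit 385066) (nat_lit 26) (.e (nat_lit 532504) (nat_lit 1) (.e (nat_lit 57852) (nat_lit 252) .nil))))))) (.g (nat_lit 6) .nil .nil)))) (.nd (nat_lit 5) 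
(.lf (nat_lit 149661) (.g (nat_lit 1903) (.e (nat_lit 57378) (nat_lit 3) (.e (nat_lit 98342) (nat_lit 20) (.e (nat_lit 221215) (nat_lit 23) (.e (nat_lit 204862) (nat_lit 27) (.e (nat_lit 344119) (nat_lit 21) (.e (nat_lit 516120) (nat_lit 1) (.e (nat_lit 164183) (nat_lit 154) .nil))))))) (.g (nat_lit 4) .nil .nil))) 
(.lf (nat_lit 149693) (.g (nat_lit 4180) (.e (nat_lit 57378) (nat_lit 3) (.e (nat_lit 98355) (nat_lit 26) (.e (nat_lit 426131) (nat_lit 3) (.e (nat_lit 204838) (nat_lit 20) (.e (nat_lit 114718) (nat_lit 23) (.e (nat_lit 98333) (nat_lit 18) (.e (nat_lit 164399) (nat_lit 256) .nil))))))) (.g (nat_lit 6) .nil .nil))))))) (.nd (nat_lit 2) (.nd (nat_lit 3) (.nd (nat_lit 4) (.nd (nat_lit 5) 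
(.lf (nat_lit 149635) (.g (nat_lit 2077) (.e (nat_lit 57378) (nat_lit 3) (.e (nat_lit 98342) (nat_lit 20) (.e (nat_lit 221212) (nat_lit 22) (.e (nat_lit 196681) (nat_lit 17) (.e (nat_lit 131098) (nat_lit 3) (.e (nat_lit 98334) (nat_lit 18) (.e (nat_lit 164180) (nat_lit 154) .nil))))))) (.g (nat_lit 4) .nil .nil))) 
(.lf (nat_lit 149667) (.g (nat_lit 2045) (.e (nat_lit 57378) (nat_lit 3) (.e (nat_lit 98342) (nat_lit 20) (.e (nat_lit 221215) (nat_lit 23) (.e (nat_lit 204863) (nat_lit 27) (.e (nat_lit 344118) (nat_lit 21) .nil))))) .nil))) (.nd (nat_lit 5) 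
(.lf (nat_lit 149651) (.g (nat_lit 2505) (.e (nat_lit 57378) (nat_lit 3) (.e (nat_lit 98342) (nat_lit 20) (.e (nat_lit 221214) (nat_lit 23) (.e (nat_lit 204863) (nat_lit 27) (.e (nat_lit 344120) (nat_lit 21) (.e (nat_lit 516119) (nat_lit 1) (.e (nat_lit 164179) (nat_lit 154) .nil))))))) (.g (nat_lit 4) .nil .nil))) 
(.lf (nat_lit 149683) (.g (nat_lit 3276) (.e (nat_lit 57378) (nat_lit 3) (.e (nat_lit 98350) (nat_lit 24) (.e (nat_lit 409646) (nat_lit 18) (.e (nat_lit 303119) (nat_lit 3) (.e (nat_lit 204863) (nat_lit 27) (.e (nat_lit 344096) (nat_lit 18) (.e (nat_lit 4409) (nat_lit 259) .nil))))))) (.g (nat_lit 4) .nil .nil))))) (.nd (nat_lit 4) (.nd (nat_lit 5) 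
(.lf (nat_lit 149643) (.g (nat_lit 3962) (.e (nat_lit 57378) (nat_lit 3) (.e (nat_lit 98342) (nat_lit 20) (.e (nat_lit 221214) (nat_lit 23) (.e (nat_lit 204863) (nat_lit 27) (.e (nat_lit 344117) (nat_lit 21) (.e (nat_lit 516116) (nat_lit 1) (.e (nat_lit 164180) (nat_lit 154) .nil))))))) (.g (nat_lit 6) .nil .nil))) 
(.lf (nat_lit 149675) (.g (nat_lit 2332) (.e (nat_lit 57378) (nat_lit 3) (.e (nat_lit 98342) (nat_lit 20) (.e (nat_lit 221215) (nat_lit 23) (.e (nat_lit 204873) (nat_lit 30) (.e (nat_lit 368676) (nat_lit 21) (.e (nat_lit 516118) (nat_lit 1) (.e (nat_lit 164183) (nat_lit 154) .nil))))))) (.g (nat_lit 4) .nil .nil)))) (.nd (nat_lit 5) 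
(.lf (nat_lit 149659) (.g (nat_lit 4159) (.e (nat_lit 57378) (nat_lit 3) (.e (nat_lit 98342) (nat_lit 20) (.e (nat_lit 221215) (nat_lit 23) (.e (nat_lit 204862) (nat_lit 27) (.e (nat_lit 344117) (nat_lit 21) (.e (nat_lit 516116) (nat_lit 1) (.e (nat_lit 164180) (nat_lit 154) .nil))))))) (.g (nat_lit 6) .nil .nil))) 
(.lf (nat_lit 149691) (.g (nat_lit 2600) (.e (nat_lit 57378) (nat_lit 3) (.e (nat_lit 98355) (nat_lit 26) (.e (nat_lit 426131) (nat_lit 3) (.e (nat_lit 204837) (nat_lit 20) (.e (nat_lit 114719) (nat_lit 23) (.e (nat_lit 98334) (nat_lit 18) (.e (nat_lit 164401) (nat_lit 256) .nil))))))) (.g (nat_lit 4) .nil .nil)))))) (.nd (nat_lit 3) (.nd (nat_lit 4) (.nd (nat_lit 5) 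
(.lf (nat_lit 149639) (.g (nat_lit 3404) (.e (nat_lit 57378) (nat_lit 3) (.e (nat_lit 98342) (nat_lit 20) (.e (nat_lit 221214) (nat_lit 23) (.e (nat_lit 204862) (nat_lit 27) (.e (nat_lit 344117) (nat_lit 21) (.e (nat_lit 516115) (nat_lit 1) (.e (nat_lit 164183) (nat_lit 154) .nil))))))) (.g (nat_lit 6) .nil .nil))) 
(.lf (nat_lit 149671) (.g (nat_lit 2978) (.e (nat_lit 57378) (nat_lit 3) (.e (nat_lit 98342) (nat_lit 20) (.e (nat_lit 221215) (nat_lit 23) (.e (nat_lit 204863) (nat_lit 27) (.e (nat_lit 344118) (nat_lit 21) (.e (nat_lit 516120) (nat_lit 1) (.e (nat_lit 164181) (nat_lit 154) .nil))))))) (.g (nat_lit 4) .nil .nil)))) (.nd (nat_lit 5) 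
(.lf (nat_lit 149655) (.g (nat_lit 2807) (.e (nat_lit 57378) (nat_lit 3) (.e (nat_lit 98342) (nat_lit 20) (.e (nat_lit 221215) (nat_lit 23) (.e (nat_lit 204859) (nat_lit 26) (.e (nat_lit 336017) (nat_lit 3) (.e (nat_lit 98333) (nat_lit 18) (.e (nat_lit 164179) (nat_lit 154) .nil))))))) (.g (nat_lit 4) .nil .nil))) 
(.lf (nat_lit 149687) (.g (nat_lit 2768) (.e (nat_lit 57378) (nat_lit 3) (.e (nat_lit 98355) (nat_lit 26) (.e (nat_lit 426131) (nat_lit 3) (.e (nat_lit 204837) (nat_lit 20) (.e (nat_lit 114718) (nat_lit 23) (.e (nat_lit 98334) (nat_lit 18) (.e (nat_lit 164403) (nat_lit 256) .nil))))))) (.g (nat_lit 4) .nil .nil))))) (.nd (nat_lit 4) (.nd (nat_lit 5) 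
(.lf (nat_lit 149647) (.g (nat_lit 2415) (.e (nat_lit 57378) (nat_lit 3) (.e (nat_lit 98342) (nat_lit 20) (.e (nat_lit 221214) (nat_lit 23) (.e (nat_lit 204863) (nat_lit 27) (.e (nat_lit 344118) (nat_lit 21) (.e (nat_lit 516120) (nat_lit 1) (.e (nat_lit 164181) (nat_lit 154) .nil))))))) (.g (nat_lit 4) .nil .nil))) 
(.lf (nat_lit 149679) (.g (nat_lit 647) (.e (nat_lit 57378) (nat_lit 3) (.e (nat_lit 98350) (nat_lit 24) (.e (nat_lit 409616) (nat_lit 10) .nil))) .nil))) (.nd (nat_lit 5) 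
(.lf (nat_lit 149663) (.g (nat_lit 4372) (.e (nat_lit 57378) (nat_lit 3) (.e (nat_lit 98342) (nat_lit 20) (.e (nat_lit 221215) (nat_lit 23) (.e (nat_lit 204863) (nat_lit 27) (.e (nat_lit 344117) (nat_lit 21) (.e (nat_lit 516116) (nat_lit 1) (.e (nat_lit 164180) (nat_lit 154) .nil))))))) (.g (nat_lit 6) .nil .nil))) 
(.lf (nat_lit 149695) (.g (nat_lit 3869) (.e (nat_lit 57378) (nat_lit 3) (.e (nat_lit 98355) (nat_lit 26) (.e (nat_lit 426131) (nat_lit 3) (.e (nat_lit 204838) (nat_lit 20) (.e (nat_lit 114718) (nat_lit 23) (.e (nat_lit 98334) (nat_lit 18) (.e (nat_lit 164401) (nat_lit 256) .nil))))))) (.g (nat_lit 6) .nil .nil)))))))))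

noncomputable def tv1995 : DT := (.nd (nat_lit 0) (.nd (nat_lit 1) (.nd (nat_lit 2) (.nd (nat_lit 3) (.nd (nat_lit 4) (.nd (nat_lit 5) 
(.lf (nat_lit 149696) (.g (nat_lit 2858) (.e (nat_lit 57378) (nat_lit 3) (.e (nat_lit 98355) (nat_lit 26) (.e (nat_lit 426131) (nat_lit 3) (.e (nat_lit 204838) (nat_lit 20) (.e (nat_lit 114719) (nat_lit 23) (.e (nat_lit 98332) (nat_lit 18) (.e (nat_lit 164399) (nat_lit 256) .nil))))))) (.g (nat_lit 4) .nil .nil))) 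
(.lf (nat_lit 149728) (.g (nat_lit 4510) (.e (nat_lit 57378) (nat_lit 3) (.e (nat_lit 98356) (nat_lit 26) (.e (nat_lit 426131) (nat_lit 3) (.e (nat_lit 204838) (nat_lit 20) (.e (nat_lit 114718) (nat_lit 23) (.e (nat_lit 98334) (nat_lit 18) (.e (nat_lit 164399) (nat_lit 256) .nil))))))) (.g (nat_lit 6) .nil .nil)))) (.nd (nat_lit 5) 
(.lf (nat_lit 149712) (.g (nat_lit 3622) (.e (nat_lit 57378) (nat_lit 3) (.e (nat_lit 98356) (nat_lit 26) (.e (nat_lit 426131) (nat_lit 3) (.e (nat_lit 204837) (nat_lit 20) (.e (nat_lit 114719) (nat_lit 23) (.e (nat_lit 98334) (nat_lit 18) (.e (nat_lit 164398) (nat_lit 256) .nil))))))) (.g (nat_lit 5) .nil .nil))) 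
(.lf (nat_lit 149744) (.g (nat_lit 3130) (.e (nat_lit 57378) (nat_lit 3) (.e (nat_lit 98356) (nat_lit 26) (.e (nat_lit 426428) (nat_lit 17) (.e (nat_lit 90170) (nat_lit 13) (.e (nat_lit 172065) (nat_lit 3) (.e (nat_lit 212736) (nat_lit 1) (.e (nat_lit 164399) (nat_lit 256) .nil))))))) (.g (nat_lit 4) .nil .nil))))) (.nd (nat_lit 4) (.nd (nat_lit 5) 
(.lf (nat_lit 149704) (.g (nat_lit 2212) (.e (nat_lit 57378) (nat_lit 3) (.e (nat_lit 98356) (nat_lit 26) (.e (nat_lit 426131) (nat_lit 3) (.e (nat_lit 204837) (nat_lit 20) (.e (nat_lit 114717) (nat_lit 23) .nil))))) .nil)) 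
(.lf (nat_lit 149736) (.g (nat_lit 4439) (.e (nat_lit 57378) (nat_lit 3) (.e (nat_lit 98356) (nat_lit 26) (.e (nat_lit 426131) (nat_lit 3) (.e (nat_lit 204838) (nat_lit 20) (.e (nat_lit 114719) (nat_lit 23) (.e (nat_lit 98334) (nat_lit 18) (.e (nat_lit 164399) (nat_lit 256) .nil))))))) (.g (nat_lit 6) .nil .nil)))) (.nd (nat_lit 5) 
(.lf (nat_lit 149720) (.g (nat_lit 3096) (.e (nat_lit 57378) (nat_lit 3) (.e (nat_lit 98356) (nat_lit 26) (.e (nat_lit 426131) (nat_lit 3) (.e (nat_lit 204838) (nat_lit 20) (.e (nat_lit 114708) (nat_lit 20) (.e (nat_lit 1800) (nat_lit 119) (.e (nat_lit 516117) (nat_lit 1) (.e (nat_lit 164403) (nat_lit 256) .nil)))))))) (.g (nat_lit 4) .nil .nil))) 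
(.lf (nat_lit 149752) (.g (nat_lit 1817) (.e (nat_lit 57378) (nat_lit 3) (.e (nat_lit 98356) (nat_lit 26) (.e (nat_lit 426428) (nat_lit 17) (.e (nat_lit 90185) (nat_lit 17) .nil)))) .nil))))) (.nd (nat_lit 3) (.nd (nat_lit 4) (.nd (nat_lit 5) 
(.lf (nat_lit 149700) (.g (nat_lit 3992) (.e (nat_lit 57378) (nat_lit 3) (.e (nat_lit 98355) (nat_lit 26) (.e (nat_lit 426131) (nat_lit 3) (.e (nat_lit 204838) (nat_lit 20) (.e (nat_lit 114719) (nat_lit 23) (.e (nat_lit 98334) (nat_lit 18) (.e (nat_lit 164401) (nat_lit 256) .nil))))))) (.g (nat_lit 6) .nil .nil))) 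
(.lf (nat_lit 149732) (.g (nat_lit 2778) (.e (nat_lit 57378) (nat_lit 3) (.e (nat_lit 98356) (nat_lit 26) (.e (nat_lit 426131) (nat_lit 3) (.e (nat_lit 204838) (nat_lit 20) (.e (nat_lit 114719) (nat_lit 23) (.e (nat_lit 98332) (nat_lit 18) (.e (nat_lit 164398) (nat_lit 256) .nil))))))) (.g (nat_lit 4) .nil .nil)))) (.nd (nat_lit 5) 
(.lf (nat_lit 149716) (.g (nat_lit 3017) (.e (nat_lit 57378) (nat_lit 3) (.e (nat_lit 98356) (nat_lit 26) (.e (nat_lit 426131) (nat_lit 3) (.e (nat_lit 204837) (nat_lit 20) (.e (nat_lit 114719) (nat_lit 23) (.e (nat_lit 98335) (nat_lit 18) (.e (nat_lit 164403) (nat_lit 256) .nil))))))) (.g (nat_lit 4) .nil .nil))) 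
(.lf (nat_lit 149748) (.g (nat_lit 4642) (.e (nat_lit 57378) (nat_lit 3) (.e (nat_lit 98356) (nat_lit 26) (.e (nat_lit 426428) (nat_lit 17) (.e (nat_lit 90174) (nat_lit 14) (.e (nat_lit 180243) (nat_lit 5) (.e (nat_lit 532499) (nat_lit 1) (.e (nat_lit 65280) (nat_lit 211) .nil))))))) (.g (nat_lit 6) .nil .nil))))) (.nd (nat_lit 4) (.nd (nat_lit 5) 
(.lf (nat_lit 149708) (.g (nat_lit 3225) (.e (nat_lit 57378) (nat_lit 3) (.e (nat_lit 98356) (nat_lit 26) (.e (nat_lit 426131) (nat_lit 3) (.e (nat_lit 204837) (nat_lit 20) (.e (nat_lit 114718) (nat_lit 23) (.e (nat_lit 98334) (nat_lit 18) (.e (nat_lit 164403) (nat_lit 256) .nil))))))) (.g (nat_lit 5) .nil .nil))) 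
(.lf (nat_lit 149740) (.g (nat_lit 709) (.e (nat_lit 57378) (nat_lit 3) (.e (nat_lit 98356) (nat_lit 26) (.e (nat_lit 426323) (nat_lit 13) .nil))) .nil))) (.nd (nat_lit 5) 
(.lf (nat_lit 149724) (.g (nat_lit 3059) (.e (nat_lit 57378) (nat_lit 3) (.e (nat_lit 98356) (nat_lit 26) (.e (nat_lit 426131) (nat_lit 3) (.e (nat_lit 204838) (nat_lit 20) (.e (nat_lit 114717) (nat_lit 23) (.e (nat_lit 98333) (nat_lit 18) (.e (nat_lit 164398) (nat_lit 256) .nil))))))) (.g (nat_lit 4) .nil .nil))) 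
(.lf (nat_lit 149756) (.g (nat_lit 3571) (.e (nat_lit 57378) (nat_lit 3) (.e (nat_lit 98356) (nat_lit 26) (.e (nat_lit 426428) (nat_lit 17) (.e (nat_lit 90185) (nat_lit 17) (.e (nat_lit 237594) (nat_lit 3) (.e (nat_lit 212736) (nat_lit 1) (.e (nat_lit 164399) (nat_lit 256) .nil))))))) (.g (nat_lit 4) .nil .nil))))))) (.nd (nat_lit 2) (.nd (nat_lit 3) (.nd (nat_lit 4) (.nd (nat_lit 5) 
(.lf (nat_lit 149698) (.g (nat_lit 3887) (.e (nat_lit 57378) (nat_lit 3) (.e (nat_lit 98355) (nat_lit 26) (.e (nat_lit 426131) (nat_lit 3) (.e (nat_lit 204838) (nat_lit 20) (.e (nat_lit 114719) (nat_lit 23) (.e (nat_lit 98334) (nat_lit 18) (.e (nat_lit 164398) (nat_lit 256) .nil))))))) (.g (nat_lit 6) .nil .nil))) 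
(.lf (nat_lit 149730) (.g (nat_lit 4334) (.e (nat_lit 57378) (nat_lit 3) (.e (nat_lit 98356) (nat_lit 26) (.e (nat_lit 426131) (nat_lit 3) (.e (nat_lit 204838) (nat_lit 20) (.e (nat_lit 114718) (nat_lit 23) (.e (nat_lit 98335) (nat_lit 18) (.e (nat_lit 164403) (nat_lit 256) .nil))))))) (.g (nat_lit 6) .nil .nil)))) (.nd (nat_lit 5) 
(.lf (nat_lit 149714) (.g (nat_lit 3031) (.e (nat_lit 57378) (nat_lit 3) (.e (nat_lit 98356) (nat_lit 26) (.e (nat_lit 426131) (nat_lit 3) (.e (nat_lit 204837) (nat_lit 20) (.e (nat_lit 114719) (nat_lit 23) (.e (nat_lit 98334) (nat_lit 18) (.e (nat_lit 164401) (nat_lit 256) .nil))))))) (.g (nat_lit 4) .nil .nil))) 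
(.lf (nat_lit 149746) (.g (nat_lit 3239) (.e (nat_lit 57378) (nat_lit 3) (.e (nat_lit 98356) (nat_lit 26) (.e (nat_lit 426428) (nat_lit 17) (.e (nat_lit 90170) (nat_lit 13) (.e (nat_lit 172067) (nat_lit 3) (.e (nat_lit 212736) (nat_lit 1) (.e (nat_lit 164399) (nat_lit 256) .nil))))))) (.g (nat_lit 4) .nil .nil))))) (.nd (nat_lit 4) (.nd (nat_lit 5) 
(.lf (nat_lit 149706) (.g (nat_lit 2921) (.e (nat_lit 57378) (nat_lit 3) (.e (nat_lit 98356) (nat_lit 26) (.e (nat_lit 426131) (nat_lit 3) (.e (nat_lit 204837) (nat_lit 20) (.e (nat_lit 114717) (nat_lit 23) (.e (nat_lit 98334) (nat_lit 18) (.e (nat_lit 164398) (nat_lit 256) .nil))))))) (.g (nat_lit 4) .nil .nil))) 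
(.lf (nat_lit 149738) (.g (nat_lit 2375) (.e (nat_lit 57378) (nat_lit 3) (.e (nat_lit 98356) (nat_lit 26) (.e (nat_lit 426131) (nat_lit 3) (.e (nat_lit 204838) (nat_lit 20) (.e (nat_lit 114719) (nat_lit 23) (.e (nat_lit 98335) (nat_lit 18) (.e (nat_lit 164401) (nat_lit 256) .nil))))))) (.g (nat_lit 4) .nil .nil)))) (.nd (nat_lit 5) 
(.lf (nat_lit 149722) (.g (nat_lit 2471) (.e (nat_lit 57378) (nat_lit 3) (.e (nat_lit 98356) (nat_lit 26) (.e (nat_lit 426131) (nat_lit 3) (.e (nat_lit 204838) (nat_lit 20) (.e (nat_lit 114716) (nat_lit 22) .nil))))) .nil)) 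
(.lf (nat_lit 149754) (.g (nat_lit 3178) (.e (nat_lit 57378) (nat_lit 3) (.e (nat_lit 98356) (nat_lit 26) (.e (nat_lit 426428) (nat_lit 17) (.e (nat_lit 90185) (nat_lit 17) (.e (nat_lit 237592) (nat_lit 3) (.e (nat_lit 204830) (nat_lit 18) (.e (nat_lit 65280) (nat_lit 211) .nil))))))) (.g (nat_lit 4) .nil .nil)))))) (.nd (nat_lit 3) (.nd (nat_lit 4) (.nd (nat_lit 5) 
(.lf (nat_lit 149702) (.g (nat_lit 2755) (.e (nat_lit 57378) (nat_lit 3) (.e (nat_lit 98356) (nat_lit 26) (.e (nat_lit 426131) (nat_lit 3) (.e (nat_lit 204837) (nat_lit 20) (.e (nat_lit 114708) (nat_lit 20) (.e (nat_lit 1800) (nat_lit 119) (.e (nat_lit 516117) (nat_lit 1) (.e (nat_lit 164401) (nat_lit 256) .nil)))))))) (.g (nat_lit 4) .nil .nil))) 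
(.lf (nat_lit 149734) (.g (nat_lit 3973) (.e (nat_lit 57378) (nat_lit 3) (.e (nat_lit 98356) (nat_lit 26) (.e (nat_lit 426131) (nat_lit 3) (.e (nat_lit 204838) (nat_lit 20) (.e (nat_lit 114719) (nat_lit 23) (.e (nat_lit 98333) (nat_lit 18) (.e (nat_lit 164398) (nat_lit 256) .nil))))))) (.g (nat_lit 5) .nil .nil)))) (.nd (nat_lit 5) 
(.lf (nat_lit 149718) (.g (nat_lit 2269) (.e (nat_lit 57378) (nat_lit 3) (.e (nat_lit 98356) (nat_lit 26) (.e (nat_lit 426131) (nat_lit 3) (.e (nat_lit 204838) (nat_lit 20) (.e (nat_lit 114702) (nat_lit 20) .nil))))) .nil)) 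
(.lf (nat_lit 149750) (.g (nat_lit 3787) (.e (nat_lit 57378) (nat_lit 3) (.e (nat_lit 98356) (nat_lit 26) (.e (nat_lit 426428) (nat_lit 17) (.e (nat_lit 90174) (nat_lit 14) (.e (nat_lit 180243) (nat_lit 5) (.e (nat_lit 532503) (nat_lit 1) (.e (nat_lit 65280) (nat_lit 211) .nil))))))) (.g (nat_lit 5) .nil .nil))))) (.nd (nat_lit 4) (.nd (nat_lit 5) 
(.lf (nat_lit 149710) (.g (nat_lit 3364) (.e (nat_lit 57378) (nat_lit 3) (.e (nat_lit 98356) (nat_lit 26) (.e (nat_lit 426131) (nat_lit 3) (.e (nat_lit 204837) (nat_lit 20) (.e (nat_lit 114719) (nat_lit 23) (.e (nat_lit 98333) (nat_lit 18) (.e (nat_lit 164399) (nat_lit 256) .nil))))))) (.g (nat_lit 5) .nil .nil))) 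
(.lf (nat_lit 149742) (.g (nat_lit 3302) (.e (nat_lit 57378) (nat_lit 3) (.e (nat_lit 98356) (nat_lit 26) (.e (nat_lit 426323) (nat_lit 13) (.e (nat_lit 483337) (nat_lit 9) (.e (nat_lit 426107) (nat_lit 1) (.e (nat_lit 164401) (nat_lit 256) .nil)))))) (.g (nat_lit 5) .nil .nil)))) (.nd (nat_lit 5) 
(.lf (nat_lit 149726) (.g (nat_lit 4369) (.e (nat_lit 57378) (nat_lit 3) (.e (nat_lit 98356) (nat_lit 26) (.e (nat_lit 426131) (nat_lit 3) (.e (nat_lit 204838) (nat_lit 20) (.e (nat_lit 114718) (nat_lit 23) (.e (nat_lit 98333) (nat_lit 18) (.e (nat_lit 164403) (nat_lit 256) .nil))))))) (.g (nat_lit 6) .nil .nil))) 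
(.lf (nat_lit 149758) (.g (nat_lit 4508) (.e (nat_lit 57378) (nat_lit 3) (.e (nat_lit 98356) (nat_lit 26) (.e (nat_lit 426438) (nat_lit 18) (.e (nat_lit 98358) (nat_lit 26) (.e (nat_lit 426131) (nat_lit 3) (.e (nat_lit 204829) (nat_lit 18) (.e (nat_lit 65280) (nat_lit 211) .nil))))))) (.g (nat_lit 6) .nil .nil)))))))) 
(.nd (nat_lit 1) (.nd (nat_lit 2) (.nd (nat_lit 3) (.nd (nat_lit 4) (.nd (nat_lit 5) 
(.lf (nat_lit 149697) (.g (nat_lit 4078) (.e (nat_lit 57378) (nat_lit 3) (.e (nat_lit 98355) (nat_lit 26) (.e (nat_lit 426131) (nat_lit 3) (.e (nat_lit 204838) (nat_lit 20) (.e (nat_lit 114719) (nat_lit 23) (.e (nat_lit 98333) (nat_lit 18) (.e (nat_lit 164399) (nat_lit 256) .nil))))))) (.g (nat_lit 6) .nil .nil))) 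
(.lf (nat_lit 149729) (.g (nat_lit 4300) (.e (nat_lit 57378) (nat_lit 3) (.e (nat_lit 98356) (nat_lit 26) (.e (nat_lit 426131) (nat_lit 3) (.e (nat_lit 204838) (nat_lit 20) (.e (nat_lit 114718) (nat_lit 23) (.e (nat_lit 98334) (nat_lit 18) (.e (nat_lit 164401) (nat_lit 256) .nil))))))) (.g (nat_lit 6) .nil .nil)))) (.nd (nat_lit 5) 
(.lf (nat_lit 149713) (.g (nat_lit 3399) (.e (nat_lit 57378) (nat_lit 3) (.e (nat_lit 98356) (nat_lit 26) (.e (nat_lit 426131) (nat_lit 3) (.e (nat_lit 204837) (nat_lit 20) (.e (nat_lit 114719) (nat_lit 23) (.e (nat_lit 98334) (nat_lit 18) (.e (nat_lit 164399) (nat_lit 256) .nil))))))) (.g (nat_lit 5) .nil .nil))) 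
(.lf (nat_lit 149745) (.g (nat_lit 4471) (.e (nat_lit 57378) (nat_lit 3) (.e (nat_lit 98356) (nat_lit 26) (.e (nat_lit 426428) (nat_lit 17) (.e (nat_lit 90170) (nat_lit 13) (.e (nat_lit 172065) (nat_lit 3) (.e (nat_lit 204830) (nat_lit 18) (.e (nat_lit 65280) (nat_lit 211) .nil))))))) (.g (nat_lit 6) .nil .nil))))) (.nd (nat_lit 4) (.nd (nat_lit 5) 
(.lf (nat_lit 149705) (.g (nat_lit 2803) (.e (nat_lit 57378) (nat_lit 3) (.e (nat_lit 98356) (nat_lit 26) (.e (nat_lit 426131) (nat_lit 3) (.e (nat_lit 204837) (nat_lit 20) (.e (nat_lit 114717) (nat_lit 23) (.e (nat_lit 98333) (nat_lit 18) (.e (nat_lit 164399) (nat_lit 256) .nil))))))) (.g (nat_lit 4) .nil .nil))) 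
(.lf (nat_lit 149737) (.g (nat_lit 4423) (.e (nat_lit 57378) (nat_lit 3) (.e (nat_lit 98356) (nat_lit 26) (.e (nat_lit 426131) (nat_lit 3) (.e (nat_lit 204838) (nat_lit 20) (.e (nat_lit 114719) (nat_lit 23) (.e (nat_lit 98334) (nat_lit 18) (.e (nat_lit 164401) (nat_lit 256) .nil))))))) (.g (nat_lit 6) .nil .nil)))) (.nd (nat_lit 5) 
(.lf (nat_lit 149721) (.g (nat_lit 2444) (.e (nat_lit 57378) (nat_lit 3) (.e (nat_lit 98356) (nat_lit 26) (.e (nat_lit 426131) (nat_lit 3) (.e (nat_lit 204838) (nat_lit 20) (.e (nat_lit 114715) (nat_lit 22) .nil))))) .nil)) 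
(.lf (nat_lit 149753) (.g (nat_lit 3793) (.e (nat_lit 57378) (nat_lit 3) (.e (nat_lit 98356) (nat_lit 26) (.e (nat_lit 426428) (nat_lit 17) (.e (nat_lit 90185) (nat_lit 17) (.e (nat_lit 237591) (nat_lit 3) (.e (nat_lit 212736) (nat_lit 1) (.e (nat_lit 164399) (nat_lit 256) .nil))))))) (.g (nat_lit 4) .nil .nil)))))) (.nd (nat_lit 3) (.nd (nat_lit 4) (.nd (nat_lit 5) 
(.lf (nat_lit 149701) (.g (nat_lit 1328) (.e (nat_lit 57378) (nat_lit 3) (.e (nat_lit 98356) (nat_lit 26) (.e (nat_lit 426131) (nat_lit 3) (.e (nat_lit 204837) (nat_lit 20) .nil)))) .nil)) 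
(.lf (nat_lit 149733) (.g (nat_lit 3028) (.e (nat_lit 57378) (nat_lit 3) (.e (nat_lit 98356) (nat_lit 26) (.e (nat_lit 426131) (nat_lit 3) (.e (nat_lit 204838) (nat_lit 20) (.e (nat_lit 114719) (nat_lit 23) (.e (nat_lit 98332) (nat_lit 18) (.e (nat_lit 164403) (nat_lit 256) .nil))))))) (.g (nat_lit 4) .nil .nil)))) (.nd (nat_lit 5) 
(.lf (nat_lit 149717) (.g (nat_lit 1306) (.e (nat_lit 57378) (nat_lit 3) (.e (nat_lit 98356) (nat_lit 26) (.e (nat_lit 426131) (nat_lit 3) (.e (nat_lit 204838) (nat_lit 20) .nil)))) .nil)) 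
(.lf (nat_lit 149749) (.g (nat_lit 4370) (.e (nat_lit 57378) (nat_lit 3) (.e (nat_lit 98356) (nat_lit 26) (.e (nat_lit 426428) (nat_lit 17) (.e (nat_lit 90174) (nat_lit 14) (.e (nat_lit 180243) (nat_lit 5) (.e (nat_lit 532501) (nat_lit 1) (.e (nat_lit 65280) (nat_lit 211) .nil))))))) (.g (nat_lit 6) .nil .nil))))) (.nd (nat_lit 4) (.nd (nat_lit 5) 
(.lf (nat_lit 149709) (.g (nat_lit 2815) (.e (nat_lit 57378) (nat_lit 3) (.e (nat_lit 98356) (nat_lit 26) (.e (nat_lit 426131) (nat_lit 3) (.e (nat_lit 204837) (nat_lit 20) (.e (nat_lit 114719) (nat_lit 23) (.e (nat_lit 98333) (nat_lit 18) (.e (nat_lit 164398) (nat_lit 256) .nil))))))) (.g (nat_lit 4) .nil .nil))) 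
(.lf (nat_lit 149741) (.g (nat_lit 2711) (.e (nat_lit 57378) (nat_lit 3) (.e (nat_lit 98356) (nat_lit 26) (.e (nat_lit 426323) (nat_lit 13) (.e (nat_lit 483337) (nat_lit 9) (.e (nat_lit 426098) (nat_lit 1) (.e (nat_lit 164399) (nat_lit 256) .nil)))))) (.g (nat_lit 4) .nil .nil)))) (.nd (nat_lit 5) 
(.lf (nat_lit 149725) (.g (nat_lit 3030) (.e (nat_lit 57378) (nat_lit 3) (.e (nat_lit 98356) (nat_lit 26) (.e (nat_lit 426131) (nat_lit 3) (.e (nat_lit 204838) (nat_lit 20) (.e (nat_lit 114717) (nat_lit 23) (.e (nat_lit 98334) (nat_lit 18) (.e (nat_lit 164401) (nat_lit 256) .nil))))))) (.g (nat_lit 4) .nil .nil))) 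
(.lf (nat_lit 149757) (.g (nat_lit 2413) (.e (nat_lit 57378) (nat_lit 3) (.e (nat_lit 98356) (nat_lit 26) (.e (nat_lit 426438) (nat_lit 18) (.e (nat_lit 98358) (nat_lit 26) (.e (nat_lit 426131) (nat_lit 3) (.e (nat_lit 212736) (nat_lit 1) (.e (nat_lit 164403) (nat_lit 256) .nil))))))) (.g (nat_lit 4) .nil .nil))))))) (.nd (nat_lit 2) (.nd (nat_lit 3) (.nd (nat_lit 4) (.nd (nat_lit 5) 
(.lf (nat_lit 149699) (.g (nat_lit 3981) (.e (nat_lit 57378) (nat_lit 3) (.e (nat_lit 98355) (nat_lit 26) (.e (nat_lit 426131) (nat_lit 3) (.e (nat_lit 204838) (nat_lit 20) (.e (nat_lit 114719) (nat_lit 23) (.e (nat_lit 98334) (nat_lit 18) (.e (nat_lit 164399) (nat_lit 256) .nil))))))) (.g (nat_lit 6) .nil .nil))) 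
(.lf (nat_lit 149731) (.g (nat_lit 2240) (.e (nat_lit 57378) (nat_lit 3) (.e (nat_lit 98356) (nat_lit 26) (.e (nat_lit 426131) (nat_lit 3) (.e (nat_lit 204838) (nat_lit 20) (.e (nat_lit 114719) (nat_lit 23) .nil))))) .nil))) (.nd (nat_lit 5) 
(.lf (nat_lit 149715) (.g (nat_lit 2609) (.e (nat_lit 57378) (nat_lit 3) (.e (nat_lit 98356) (nat_lit 26) (.e (nat_lit 426131) (nat_lit 3) (.e (nat_lit 204837) (nat_lit 20) (.e (nat_lit 114719) (nat_lit 23) (.e (nat_lit 98334) (nat_lit 18) (.e (nat_lit 164403) (nat_lit 256) .nil))))))) (.g (nat_lit 4) .nil .nil))) 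
(.lf (nat_lit 149747) (.g (nat_lit 3532) (.e (nat_lit 57378) (nat_lit 3) (.e (nat_lit 98356) (nat_lit 26) (.e (nat_lit 426428) (nat_lit 17) (.e (nat_lit 90170) (nat_lit 13) (.e (nat_lit 172067) (nat_lit 3) (.e (nat_lit 204830) (nat_lit 18) (.e (nat_lit 65280) (nat_lit 211) .nil))))))) (.g (nat_lit 4) .nil .nil))))) (.nd (nat_lit 4) (.nd (nat_lit 5) 
(.lf (nat_lit 149707) (.g (nat_lit 3240) (.e (nat_lit 57378) (nat_lit 3) (.e (nat_lit 98356) (nat_lit 26) (.e (nat_lit 426131) (nat_lit 3) (.e (nat_lit 204837) (nat_lit 20) (.e (nat_lit 114718) (nat_lit 23) (.e (nat_lit 98333) (nat_lit 18) (.e (nat_lit 164398) (nat_lit 256) .nil))))))) (.g (nat_lit 4) .nil .nil))) 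
(.lf (nat_lit 149739) (.g (nat_lit 4546) (.e (nat_lit 57378) (nat_lit 3) (.e (nat_lit 98356) (nat_lit 26) (.e (nat_lit 426131) (nat_lit 3) (.e (nat_lit 204838) (nat_lit 20) (.e (nat_lit 114719) (nat_lit 23) (.e (nat_lit 98335) (nat_lit 18) (.e (nat_lit 164403) (nat_lit 256) .nil))))))) (.g (nat_lit 6) .nil .nil)))) (.nd (nat_lit 5) 
(.lf (nat_lit 149723) (.g (nat_lit 2292) (.e (nat_lit 57378) (nat_lit 3) (.e (nat_lit 98356) (nat_lit 26) (.e (nat_lit 426131) (nat_lit 3) (.e (nat_lit 204838) (nat_lit 20) (.e (nat_lit 114717) (nat_lit 23) .nil))))) .nil)) 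
(.lf (nat_lit 149755) (.g (nat_lit 3168) (.e (nat_lit 57378) (nat_lit 3) (.e (nat_lit 98356) (nat_lit 26) (.e (nat_lit 426428) (nat_lit 17) (.e (nat_lit 90185) (nat_lit 17) (.e (nat_lit 237594) (nat_lit 3) .nil))))) .nil))))) (.nd (nat_lit 3) (.nd (nat_lit 4) (.nd (nat_lit 5) 
(.lf (nat_lit 149703) (.g (nat_lit 3082) (.e (nat_lit 57378) (nat_lit 3) (.e (nat_lit 98356) (nat_lit 26) (.e (nat_lit 426131) (nat_lit 3) (.e (nat_lit 204837) (nat_lit 20) (.e (nat_lit 114708) (nat_lit 20) (.e (nat_lit 1800) (nat_lit 119) (.e (nat_lit 516119) (nat_lit 1) (.e (nat_lit 164401) (nat_lit 256) .nil)))))))) (.g (nat_lit 4) .nil .nil))) 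
(.lf (nat_lit 149735) (.g (nat_lit 4248) (.e (nat_lit 57378) (nat_lit 3) (.e (nat_lit 98356) (nat_lit 26) (.e (nat_lit 426131) (nat_lit 3) (.e (nat_lit 204838) (nat_lit 20) (.e (nat_lit 114719) (nat_lit 23) (.e (nat_lit 98333) (nat_lit 18) (.e (nat_lit 164403) (nat_lit 256) .nil))))))) (.g (nat_lit 6) .nil .nil)))) (.nd (nat_lit 5) 
(.lf (nat_lit 149719) (.g (nat_lit 2997) (.e (nat_lit 57378) (nat_lit 3) (.e (nat_lit 98356) (nat_lit 26) (.e (nat_lit 426131) (nat_lit 3) (.e (nat_lit 204838) (nat_lit 20) (.e (nat_lit 114708) (nat_lit 20) (.e (nat_lit 1800) (nat_lit 119) (.e (nat_lit 516117) (nat_lit 1) (.e (nat_lit 164401) (nat_lit 256) .nil)))))))) (.g (nat_lit 4) .nil .nil))) 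
(.lf (nat_lit 149751) (.g (nat_lit 4185) (.e (nat_lit 57378) (nat_lit 3) (.e (nat_lit 98356) (nat_lit 26) (.e (nat_lit 426428) (nat_lit 17) (.e (nat_lit 90174) (nat_lit 14) (.e (nat_lit 180243) (nat_lit 5) (.e (nat_lit 532504) (nat_lit 1) (.e (nat_lit 65280) (nat_lit 211) .nil))))))) (.g (nat_lit 6) .nil .nil))))) (.nd (nat_lit 4) (.nd (nat_lit 5) 
(.lf (nat_lit 149711) (.g (nat_lit 2950) (.e (nat_lit 57378) (nat_lit 3) (.e (nat_lit 98356) (nat_lit 26) (.e (nat_lit 426131) (nat_lit 3) (.e (nat_lit 204837) (nat_lit 20) (.e (nat_lit 114719) (nat_lit 23) (.e (nat_lit 98333) (nat_lit 18) (.e (nat_lit 164403) (nat_lit 256) .nil))))))) (.g (nat_lit 4) .nil .nil))) 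
(.lf (nat_lit 149743) (.g (nat_lit 2978) (.e (nat_lit 57378) (nat_lit 3) (.e (nat_lit 98356) (nat_lit 26) (.e (nat_lit 426323) (nat_lit 13) (.e (nat_lit 483337) (nat_lit 9) (.e (nat_lit 426107) (nat_lit 1) (.e (nat_lit 164403) (nat_lit 256) .nil)))))) (.g (nat_lit 5) .nil .nil)))) (.nd (nat_lit 5) 
(.lf (nat_lit 149727) (.g (nat_lit 4622) (.e (nat_lit 57378) (nat_lit 3) (.e (nat_lit 98356) (nat_lit 26) (.e (nat_lit 426131) (nat_lit 3) (.e (nat_lit 204838) (nat_lit 20) (.e (nat_lit 114718) (nat_lit 23) (.e (nat_lit 98334) (nat_lit 18) (.e (nat_lit 164398) (nat_lit 256) .nil))))))) (.g (nat_lit 6) .nil .nil))) 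
(.lf (nat_lit 149759) (.g (nat_lit 4753) (.e (nat_lit 57378) (nat_lit 3) (.e (nat_lit 98356) (nat_lit 26) (.e (nat_lit 426438) (nat_lit 18) (.e (nat_lit 98358) (nat_lit 26) (.e (nat_lit 426131) (nat_lit 3) (.e (nat_lit 204830) (nat_lit 18) (.e (nat_lit 65280) (nat_lit 211) .nil))))))) (.g (nat_lit 6) .nil .nil)))))))))

noncomputable def tv1996 : DT := (.nd (nat_lit 0) (.nd (nat_lit 1) (.nd (nat_lit 2) (.nd (nat_lit 3) (.nd (nat_lit 4) (.nd (nat_lit 5) 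
(.lf (nat_lit 149760) (.g (nat_lit 3600) (.e (nat_lit 57378) (nat_lit 3) (.e (nat_lit 98356) (nat_lit 26) (.e (nat_lit 426438) (nat_lit 18) (.e (nat_lit 98376) (nat_lit 30) (.e (nat_lit 458789) (nat_lit 23) (.e (nat_lit 532499) (nat_lit 1) (.e (nat_lit 65280) (nat_lit 211) .nil))))))) (.g (nat_lit 5) .nil .nil))) 
(.lf (nat_lit 149792) (.g (nat_lit 4322) (.e (nat_lit 57378) (nat_lit 3) (.e (nat_lit 98358) (nat_lit 26) (.e (nat_lit 426131) (nat_lit 3) (.e (nat_lit 204838) (nat_lit 20) (.e (nat_lit 114719) (nat_lit 23) (.e (nat_lit 98334) (nat_lit 18) (.e (nat_lit 164401) (nat_lit 256) .nil))))))) (.g (nat_lit 7) .nil .nil)))) (.nd (nat_lit 5) 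
(.lf (nat_lit 149776) (.g (nat_lit 972) (.e (nat_lit 57378) (nat_lit 3) (.e (nat_lit 98358) (nat_lit 26) (.e (nat_lit 426131) (nat_lit 3) (.e (nat_lit 204838) (nat_lit 20) .nil)))) .nil)) 
(.lf (nat_lit 149808) (.g (nat_lit 1416) (.e (nat_lit 57378) (nat_lit 3) (.e (nat_lit 98363) (nat_lit 26) (.e (nat_lit 426321) (nat_lit 13) (.e (nat_lit 483337) (nat_lit 9) (.e (nat_lit 426031) (nat_lit 0) (.e (nat_lit 2466) (nat_lit 157) (.e (nat_lit 5937) (nat_lit 322) .nil))))))) (.g (nat_lit 4) .nil .nil))))) (.nd (nat_lit 4) (.nd (nat_lit 5) 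
(.lf (nat_lit 149768) (.g (nat_lit 2355) (.e (nat_lit 57378) (nat_lit 3) (.e (nat_lit 98357) (nat_lit 26) (.e (nat_lit 426131) (nat_lit 3) (.e (nat_lit 204838) (nat_lit 20) (.e (nat_lit 114719) (nat_lit 23) (.e (nat_lit 98332) (nat_lit 18) (.e (nat_lit 164399) (nat_lit 256) .nil))))))) (.g (nat_lit 4) .nil .nil))) 
(.lf (nat_lit 149800) (.g (nat_lit 986) (.e (nat_lit 57378) (nat_lit 3) (.e (nat_lit 98359) (nat_lit 26) (.e (nat_lit 426331) (nat_lit 13) (.e (nat_lit 483337) (nat_lit 9) .nil)))) .nil))) (.nd (nat_lit 5) 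
(.lf (nat_lit 149784) (.g (nat_lit 4641) (.e (nat_lit 57378) (nat_lit 3) (.e (nat_lit 98358) (nat_lit 26) (.e (nat_lit 426131) (nat_lit 3) (.e (nat_lit 204838) (nat_lit 20) (.e (nat_lit 114718) (nat_lit 23) (.e (nat_lit 98333) (nat_lit 18) (.e (nat_lit 164399) (nat_lit 256) .nil))))))) (.g (nat_lit 0) .nil .nil))) 
(.lf (nat_lit 149816) (.g (nat_lit 3906) (.e (nat_lit 57378) (nat_lit 3) (.e (nat_lit 98365) (nat_lit 26) (.e (nat_lit 426116) (nat_lit 2) (.e (nat_lit 196654) (nat_lit 11) (.e (nat_lit 16412) (nat_lit 2) (.e (nat_lit 196677) (nat_lit 16) (.e (nat_lit 122881) (nat_lit 0) (.e (nat_lit 7697) (nat_lit 412) .nil)))))))) (.g (nat_lit 5) .nil .nil)))))) 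
(.nd (nat_lit 3) (.nd (nat_lit 4) (.nd (nat_lit 5) 
(.lf (nat_lit 149764) (.g (nat_lit 3889) (.e (nat_lit 57378) (nat_lit 3) (.e (nat_lit 98356) (nat_lit 26) (.e (nat_lit 426438) (nat_lit 18) (.e (nat_lit 98377) (nat_lit 30) (.e (nat_lit 458789) (nat_lit 23) (.e (nat_lit 532501) (nat_lit 1) (.e (nat_lit 65280) (nat_lit 211) .nil))))))) (.g (nat_lit 5) .nil .nil))) 
(.lf (nat_lit 149796) (.g (nat_lit 3585) (.e (nat_lit 57378) (nat_lit 3) (.e (nat_lit 98358) (nat_lit 26) (.e (nat_lit 426227) (nat_lit 9) (.e (nat_lit 426568) (nat_lit 34) (.e (nat_lit 393253) (nat_lit 18) (.e (nat_lit 164403) (nat_lit 256) .nil)))))) (.g (nat_lit 0) .nil .nil)))) (.nd (nat_lit 5) 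
(.lf (nat_lit 149780) (.g (nat_lit 1920) (.e (nat_lit 57378) (nat_lit 3) (.e (nat_lit 98358) (nat_lit 26) (.e (nat_lit 426131) (nat_lit 3) (.e (nat_lit 204838) (nat_lit 20) (.e (nat_lit 114702) (nat_lit 20) .nil))))) .nil)) 
(.lf (nat_lit 149812) (.g (nat_lit 3057) (.e (nat_lit 57378) (nat_lit 3) (.e (nat_lit 98365) (nat_lit 26) (.e (nat_lit 426116) (nat_lit 2) (.e (nat_lit 196654) (nat_lit 11) (.e (nat_lit 16412) (nat_lit 2) (.e (nat_lit 196658) (nat_lit 12) (.e (nat_lit 57348) (nat_lit 0) (.e (nat_lit 7695) (nat_lit 412) .nil)))))))) (.g (nat_lit 4) .nil .nil))))) (.nd (nat_lit 4) (.nd (nat_lit 5) 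
(.lf (nat_lit 149772) (.g (nat_lit 1737) (.e (nat_lit 57378) (nat_lit 3) (.e (nat_lit 98358) (nat_lit 26) (.e (nat_lit 426131) (nat_lit 3) (.e (nat_lit 204837) (nat_lit 20) (.e (nat_lit 114717) (nat_lit 23) (.e (nat_lit 98334) (nat_lit 18) (.e (nat_lit 164401) (nat_lit 256) .nil))))))) (.g (nat_lit 4) .nil .nil))) 
(.lf (nat_lit 149804) (.g (nat_lit 2337) (.e (nat_lit 57378) (nat_lit 3) (.e (nat_lit 98363) (nat_lit 26) (.e (nat_lit 426129) (nat_lit 3) (.e (nat_lit 204838) (nat_lit 20) (.e (nat_lit 114718) (nat_lit 23) (.e (nat_lit 98334) (nat_lit 18) (.e (nat_lit 164398) (nat_lit 256) .nil))))))) (.g (nat_lit 4) .nil .nil)))) (.nd (nat_lit 5) 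
(.lf (nat_lit 149788) (.g (nat_lit 2963) (.e (nat_lit 57378) (nat_lit 3) (.e (nat_lit 98358) (nat_lit 26) (.e (nat_lit 426131) (nat_lit 3) (.e (nat_lit 204838) (nat_lit 20) (.e (nat_lit 114719) (nat_lit 23) (.e (nat_lit 98325) (nat_lit 17) (.e (nat_lit 2515) (nat_lit 157) (.e (nat_lit 5948) (nat_lit 322) .nil)))))))) (.g (nat_lit 4) .nil .nil))) 
(.lf (nat_lit 149820) (.g (nat_lit 3062) (.e (nat_lit 57378) (nat_lit 3) (.e (nat_lit 98365) (nat_lit 26) (.e (nat_lit 426116) (nat_lit 2) (.e (nat_lit 196654) (nat_lit 11) (.e (nat_lit 16416) (nat_lit 3) (.e (nat_lit 204819) (nat_lit 17) (.e (nat_lit 968) (nat_lit 81) (.e (nat_lit 7698) (nat_lit 412) .nil)))))))) (.g (nat_lit 4) .nil .nil))))))) 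
(.nd (nat_lit 2) (.nd (nat_lit 3) (.nd (nat_lit 4) (.nd (nat_lit 5) 
(.lf (nat_lit 149762) (.g (nat_lit 3574) (.e (nat_lit 57378) (nat_lit 3) (.e (nat_lit 98356) (nat_lit 26) (.e (nat_lit 426438) (nat_lit 18) (.e (nat_lit 98376) (nat_lit 30) (.e (nat_lit 458789) (nat_lit 23) (.e (nat_lit 540416) (nat_lit 18) (.e (nat_lit 164399) (nat_lit 256) .nil))))))) (.g (nat_lit 5) .nil .nil))) 
(.lf (nat_lit 149794) (.g (nat_lit 4978) (.e (nat_lit 57378) (nat_lit 3) (.e (nat_lit 98358) (nat_lit 26) (.e (nat_lit 426131) (nat_lit 3) (.e (nat_lit 204838) (nat_lit 20) (.e (nat_lit 114719) (nat_lit 23) (.e (nat_lit 98335) (nat_lit 18) (.e (nat_lit 164403) (nat_lit 256) .nil))))))) (.g (nat_lit 0) .nil .nil)))) (.nd (nat_lit 5) 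
(.lf (nat_lit 149778) (.g (nat_lit 2412) (.e (nat_lit 57378) (nat_lit 3) (.e (nat_lit 98358) (nat_lit 26) (.e (nat_lit 426131) (nat_lit 3) (.e (nat_lit 204838) (nat_lit 20) (.e (nat_lit 114700) (nat_lit 20) (.e (nat_lit 1781) (nat_lit 119) (.e (nat_lit 516119) (nat_lit 1) (.e (nat_lit 164403) (nat_lit 256) .nil)))))))) (.g (nat_lit 4) .nil .nil))) 
(.lf (nat_lit 149810) (.g (nat_lit 3030) (.e (nat_lit 57378) (nat_lit 3) (.e (nat_lit 98365) (nat_lit 26) (.e (nat_lit 426115) (nat_lit 2) (.e (nat_lit 196654) (nat_lit 11) (.e (nat_lit 16416) (nat_lit 3) (.e (nat_lit 204815) (nat_lit 17) (.e (nat_lit 974) (nat_lit 81) (.e (nat_lit 7697) (nat_lit 412) .nil)))))))) (.g (nat_lit 5) .nil .nil))))) (.nd (nat_lit 4) (.nd (nat_lit 5) 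
(.lf (nat_lit 149770) (.g (nat_lit 1656) (.e (nat_lit 57378) (nat_lit 3) (.e (nat_lit 98358) (nat_lit 26) (.e (nat_lit 426131) (nat_lit 3) (.e (nat_lit 204837) (nat_lit 20) (.e (nat_lit 114702) (nat_lit 20) .nil))))) .nil)) 
(.lf (nat_lit 149802) (.g (nat_lit 2152) (.e (nat_lit 57378) (nat_lit 3) (.e (nat_lit 98363) (nat_lit 26) (.e (nat_lit 426129) (nat_lit 3) (.e (nat_lit 204838) (nat_lit 20) (.e (nat_lit 114702) (nat_lit 20) .nil))))) .nil))) (.nd (nat_lit 5) 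
(.lf (nat_lit 149786) (.g (nat_lit 4187) (.e (nat_lit 57378) (nat_lit 3) (.e (nat_lit 98358) (nat_lit 26) (.e (nat_lit 426131) (nat_lit 3) (.e (nat_lit 204838) (nat_lit 20) (.e (nat_lit 114718) (nat_lit 23) (.e (nat_lit 98334) (nat_lit 18) (.e (nat_lit 164401) (nat_lit 256) .nil))))))) (.g (nat_lit 7) .nil .nil))) 
(.lf (nat_lit 149818) (.g (nat_lit 3113) (.e (nat_lit 57378) (nat_lit 3) (.e (nat_lit 98365) (nat_lit 26) (.e (nat_lit 426116) (nat_lit 2) (.e (nat_lit 196654) (nat_lit 11) (.e (nat_lit 16416) (nat_lit 3) (.e (nat_lit 204816) (nat_lit 17) (.e (nat_lit 974) (nat_lit 81) (.e (nat_lit 7695) (nat_lit 412) .nil)))))))) (.g (nat_lit 4) .nil .nil)))))) (.nd (nat_lit 3) (.nd (nat_lit 4) (.nd (nat_lit 5) 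
(.lf (nat_lit 149766) (.g (nat_lit 709) (.e (nat_lit 57378) (nat_lit 3) (.e (nat_lit 98356) (nat_lit 26) (.e (nat_lit 426462) (nat_lit 23) .nil))) .nil)) 
(.lf (nat_lit 149798) (.g (nat_lit 795) (.e (nat_lit 57378) (nat_lit 3) (.e (nat_lit 98359) (nat_lit 26) (.e (nat_lit 426329) (nat_lit 13) .nil))) .nil))) (.nd (nat_lit 5) 
(.lf (nat_lit 149782) (.g (nat_lit 2919) (.e (nat_lit 57378) (nat_lit 3) (.e (nat_lit 98358) (nat_lit 26) (.e (nat_lit 426131) (nat_lit 3) (.e (nat_lit 204838) (nat_lit 20) (.e (nat_lit 114717) (nat_lit 23) (.e (nat_lit 98334) (nat_lit 18) (.e (nat_lit 164401) (nat_lit 256) .nil))))))) (.g (nat_lit 6) .nil .nil))) 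
(.lf (nat_lit 149814) (.g (nat_lit 3500) (.e (nat_lit 57378) (nat_lit 3) (.e (nat_lit 98365) (nat_lit 26) (.e (nat_lit 426116) (nat_lit 2) (.e (nat_lit 196654) (nat_lit 11) (.e (nat_lit 16412) (nat_lit 2) (.e (nat_lit 196677) (nat_lit 16) (.e (nat_lit 122880) (nat_lit 0) (.e (nat_lit 7697) (nat_lit 412) .nil)))))))) (.g (nat_lit 5) .nil .nil))))) (.nd (nat_lit 4) (.nd (nat_lit 5) 
(.lf (nat_lit 149774) (.g (nat_lit 3505) (.e (nat_lit 57378) (nat_lit 3) (.e (nat_lit 98358) (nat_lit 26) (.e (nat_lit 426131) (nat_lit 3) (.e (nat_lit 204837) (nat_lit 20) (.e (nat_lit 114718) (nat_lit 23) (.e (nat_lit 98334) (nat_lit 18) (.e (nat_lit 164401) (nat_lit 256) .nil))))))) (.g (nat_lit 6) .nil .nil))) 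
(.lf (nat_lit 149806) (.g (nat_lit 2442) (.e (nat_lit 57378) (nat_lit 3) (.e (nat_lit 98363) (nat_lit 26) (.e (nat_lit 426129) (nat_lit 3) (.e (nat_lit 204838) (nat_lit 20) (.e (nat_lit 114719) (nat_lit 23) (.e (nat_lit 98334) (nat_lit 18) (.e (nat_lit 164398) (nat_lit 256) .nil))))))) (.g (nat_lit 4) .nil .nil)))) (.nd (nat_lit 5) 
(.lf (nat_lit 149790) (.g (nat_lit 4551) (.e (nat_lit 57378) (nat_lit 3) (.e (nat_lit 98358) (nat_lit 26) (.e (nat_lit 426131) (nat_lit 3) (.e (nat_lit 204838) (nat_lit 20) (.e (nat_lit 114719) (nat_lit 23) (.e (nat_lit 98333) (nat_lit 18) (.e (nat_lit 164399) (nat_lit 256) .nil))))))) (.g (nat_lit 0) .nil .nil))) 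
(.lf (nat_lit 149822) (.g (nat_lit 2936) (.e (nat_lit 57378) (nat_lit 3) (.e (nat_lit 98365) (nat_lit 26) (.e (nat_lit 426116) (nat_lit 2) (.e (nat_lit 196654) (nat_lit 11) (.e (nat_lit 16416) (nat_lit 3) (.e (nat_lit 204822) (nat_lit 17) (.e (nat_lit 993) (nat_lit 81) (.e (nat_lit 7697) (nat_lit 412) .nil)))))))) (.g (nat_lit 4) .nil .nil)))))))) 
(.nd (nat_lit 1) (.nd (nat_lit 2) (.nd (nat_lit 3) (.nd (nat_lit 4) (.nd (nat_lit 5) 
(.lf (nat_lit 149761) (.g (nat_lit 3234) (.e (nat_lit 57378) (nat_lit 3) (.e (nat_lit 98356) (nat_lit 26) (.e (nat_lit 426438) (nat_lit 18) (.e (nat_lit 98376) (nat_lit 30) (.e (nat_lit 458789) (nat_lit 23) (.e (nat_lit 532501) (nat_lit 1) (.e (nat_lit 65280) (nat_lit 211) .nil))))))) (.g (nat_lit 5) .nil .nil))) 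
(.lf (nat_lit 149793) (.g (nat_lit 4321) (.e (nat_lit 57378) (nat_lit 3) (.e (nat_lit 98358) (nat_lit 26) (.e (nat_lit 426131) (nat_lit 3) (.e (nat_lit 204838) (nat_lit 20) (.e (nat_lit 114719) (nat_lit 23) (.e (nat_lit 98334) (nat_lit 18) (.e (nat_lit 164403) (nat_lit 256) .nil))))))) (.g (nat_lit 7) .nil .nil)))) (.nd (nat_lit 5) 
(.lf (nat_lit 149777) (.g (nat_lit 2015) (.e (nat_lit 57378) (nat_lit 3) (.e (nat_lit 98358) (nat_lit 26) (.e (nat_lit 426131) (nat_lit 3) (.e (nat_lit 204838) (nat_lit 20) (.e (nat_lit 114700) (nat_lit 20) .nil))))) .nil)) 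
(.lf (nat_lit 149809) (.g (nat_lit 3070) (.e (nat_lit 57378) (nat_lit 3) (.e (nat_lit 98365) (nat_lit 26) (.e (nat_lit 426115) (nat_lit 2) (.e (nat_lit 196654) (nat_lit 11) (.e (nat_lit 16416) (nat_lit 3) (.e (nat_lit 204815) (nat_lit 17) (.e (nat_lit 974) (nat_lit 81) (.e (nat_lit 7695) (nat_lit 412) .nil)))))))) (.g (nat_lit 5) .nil .nil))))) (.nd (nat_lit 4) (.nd (nat_lit 5) 
(.lf (nat_lit 149769) (.g (nat_lit 1659) (.e (nat_lit 57378) (nat_lit 3) (.e (nat_lit 98358) (nat_lit 26) (.e (nat_lit 426131) (nat_lit 3) (.e (nat_lit 204837) (nat_lit 20) (.e (nat_lit 114700) (nat_lit 20) .nil))))) .nil)) 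
(.lf (nat_lit 149801) (.g (nat_lit 1084) (.e (nat_lit 57378) (nat_lit 3) (.e (nat_lit 98363) (nat_lit 26) (.e (nat_lit 426129) (nat_lit 3) (.e (nat_lit 204837) (nat_lit 20) .nil)))) .nil))) (.nd (nat_lit 5) 
(.lf (nat_lit 149785) (.g (nat_lit 4565) (.e (nat_lit 57378) (nat_lit 3) (.e (nat_lit 98358) (nat_lit 26) (.e (nat_lit 426131) (nat_lit 3) (.e (nat_lit 204838) (nat_lit 20) (.e (nat_lit 114718) (nat_lit 23) (.e (nat_lit 98334) (nat_lit 18) (.e (nat_lit 164399) (nat_lit 256) .nil))))))) (.g (nat_lit 0) .nil .nil))) 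
(.lf (nat_lit 149817) (.g (nat_lit 4876) (.e (nat_lit 57378) (nat_lit 3) (.e (nat_lit 98365) (nat_lit 26) (.e (nat_lit 426116) (nat_lit 2) (.e (nat_lit 196654) (nat_lit 11) (.e (nat_lit 16416) (nat_lit 3) (.e (nat_lit 204815) (nat_lit 17) (.e (nat_lit 974) (nat_lit 81) (.e (nat_lit 7695) (nat_lit 412) .nil)))))))) (.g (nat_lit 6) .nil .nil)))))) (.nd (nat_lit 3) (.nd (nat_lit 4) (.nd (nat_lit 5) 
(.lf (nat_lit 149765) (.g (nat_lit 3141) (.e (nat_lit 57378) (nat_lit 3) (.e (nat_lit 98356) (nat_lit 26) (.e (nat_lit 426438) (nat_lit 18) (.e (nat_lit 98377) (nat_lit 30) (.e (nat_lit 458789) (nat_lit 23) (.e (nat_lit 532503) (nat_lit 1) (.e (nat_lit 65280) (nat_lit 211) .nil))))))) (.g (nat_lit 4) .nil .nil))) 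
(.lf (nat_lit 149797) (.g (nat_lit 2246) (.e (nat_lit 57378) (nat_lit 3) (.e (nat_lit 98359) (nat_lit 26) (.e (nat_lit 426324) (nat_lit 13) (.e (nat_lit 483341) (nat_lit 9) (.e (nat_lit 426098) (nat_lit 1) (.e (nat_lit 164399) (nat_lit 256) .nil)))))) (.g (nat_lit 4) .nil .nil)))) (.nd (nat_lit 5) 
(.lf (nat_lit 149781) (.g (nat_lit 2267) (.e (nat_lit 57378) (nat_lit 3) (.e (nat_lit 98358) (nat_lit 26) (.e (nat_lit 426131) (nat_lit 3) (.e (nat_lit 204838) (nat_lit 20) (.e (nat_lit 114702) (nat_lit 20) (.e (nat_lit 1792) (nat_lit 119) (.e (nat_lit 516116) (nat_lit 1) (.e (nat_lit 164399) (nat_lit 256) .nil)))))))) (.g (nat_lit 4) .nil .nil))) 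
(.lf (nat_lit 149813) (.g (nat_lit 2747) (.e (nat_lit 57378) (nat_lit 3) (.e (nat_lit 98365) (nat_lit 26) (.e (nat_lit 426116) (nat_lit 2) (.e (nat_lit 196654) (nat_lit 11) (.e (nat_lit 16412) (nat_lit 2) (.e (nat_lit 196660) (nat_lit 12) (.e (nat_lit 57347) (nat_lit 0) (.e (nat_lit 7695) (nat_lit 412) .nil)))))))) (.g (nat_lit 4) .nil .nil))))) (.nd (nat_lit 4) (.nd (nat_lit 5) 
(.lf (nat_lit 149773) (.g (nat_lit 3977) (.e (nat_lit 57378) (nat_lit 3) (.e (nat_lit 98358) (nat_lit 26) (.e (nat_lit 426131) (nat_lit 3) (.e (nat_lit 204837) (nat_lit 20) (.e (nat_lit 114718) (nat_lit 23) (.e (nat_lit 98334) (nat_lit 18) (.e (nat_lit 164399) (nat_lit 256) .nil))))))) (.g (nat_lit 7) .nil .nil))) 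
(.lf (nat_lit 149805) (.g (nat_lit 2483) (.e (nat_lit 57378) (nat_lit 3) (.e (nat_lit 98363) (nat_lit 26) (.e (nat_lit 426129) (nat_lit 3) (.e (nat_lit 204838) (nat_lit 20) (.e (nat_lit 114718) (nat_lit 23) (.e (nat_lit 98334) (nat_lit 18) (.e (nat_lit 164403) (nat_lit 256) .nil))))))) (.g (nat_lit 4) .nil .nil)))) (.nd (nat_lit 5) 
(.lf (nat_lit 149789) (.g (nat_lit 2313) (.e (nat_lit 57378) (nat_lit 3) (.e (nat_lit 98358) (nat_lit 26) (.e (nat_lit 426131) (nat_lit 3) (.e (nat_lit 204838) (nat_lit 20) (.e (nat_lit 114719) (nat_lit 23) (.e (nat_lit 98332) (nat_lit 18) (.e (nat_lit 164398) (nat_lit 256) .nil))))))) (.g (nat_lit 4) .nil .nil))) 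
(.lf (nat_lit 149821) (.g (nat_lit 3109) (.e (nat_lit 57378) (nat_lit 3) (.e (nat_lit 98365) (nat_lit 26) (.e (nat_lit 426116) (nat_lit 2) (.e (nat_lit 196654) (nat_lit 11) (.e (nat_lit 16416) (nat_lit 3) (.e (nat_lit 204822) (nat_lit 17) (.e (nat_lit 993) (nat_lit 81) (.e (nat_lit 7695) (nat_lit 412) .nil)))))))) (.g (nat_lit 4) .nil .nil))))))) 
(.nd (nat_lit 2) (.nd (nat_lit 3) (.nd (nat_lit 4) (.nd (nat_lit 5) 
(.lf (nat_lit 149763) (.g (nat_lit 4203) (.e (nat_lit 57378) (nat_lit 3) (.e (nat_lit 98356) (nat_lit 26) (.e (nat_lit 426438) (nat_lit 18) (.e (nat_lit 98377) (nat_lit 30) (.e (nat_lit 458789) (nat_lit 23) (.e (nat_lit 532499) (nat_lit 1) (.e (nat_lit 65280) (nat_lit 211) .nil))))))) (.g (nat_lit 6) .nil .nil))) 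
(.lf (nat_lit 149795) (.g (nat_lit 1691) (.e (nat_lit 57378) (nat_lit 3) (.e (nat_lit 98358) (nat_lit 26) (.e (nat_lit 426227) (nat_lit 9) (.e (nat_lit 426568) (nat_lit 34) (.e (nat_lit 393252) (nat_lit 18) (.e (nat_lit 164398) (nat_lit 256) .nil)))))) (.g (nat_lit 4) .nil .nil)))) (.nd (nat_lit 5) 
(.lf (nat_lit 149779) (.g (nat_lit 2453) (.e (nat_lit 57378) (nat_lit 3) (.e (nat_lit 98358) (nat_lit 26) (.e (nat_lit 426131) (nat_lit 3) (.e (nat_lit 204838) (nat_lit 20) (.e (nat_lit 114700) (nat_lit 20) (.e (nat_lit 1795) (nat_lit 119) (.e (nat_lit 516119) (nat_lit 1) (.e (nat_lit 164403) (nat_lit 256) .nil)))))))) (.g (nat_lit 4) .nil .nil))) 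
(.lf (nat_lit 149811) (.g (nat_lit 2618) (.e (nat_lit 57378) (nat_lit 3) (.e (nat_lit 98365) (nat_lit 26) (.e (nat_lit 426115) (nat_lit 2) (.e (nat_lit 196654) (nat_lit 11) (.e (nat_lit 16416) (nat_lit 3) (.e (nat_lit 204830) (nat_lit 18) (.e (nat_lit 65280) (nat_lit 166) .nil))))))) (.g (nat_lit 5) .nil .nil))))) (.nd (nat_lit 4) (.nd (nat_lit 5) 
(.lf (nat_lit 149771) (.g (nat_lit 1652) (.e (nat_lit 57378) (nat_lit 3) (.e (nat_lit 98358) (nat_lit 26) (.e (nat_lit 426131) (nat_lit 3) (.e (nat_lit 204837) (nat_lit 20) (.e (nat_lit 114717) (nat_lit 23) .nil))))) .nil)) 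
(.lf (nat_lit 149803) (.g (nat_lit 2204) (.e (nat_lit 57378) (nat_lit 3) (.e (nat_lit 98363) (nat_lit 26) (.e (nat_lit 426129) (nat_lit 3) (.e (nat_lit 204838) (nat_lit 20) (.e (nat_lit 114717) (nat_lit 23) .nil))))) .nil))) (.nd (nat_lit 5) 
(.lf (nat_lit 149787) (.g (nat_lit 4340) (.e (nat_lit 57378) (nat_lit 3) (.e (nat_lit 98358) (nat_lit 26) (.e (nat_lit 426131) (nat_lit 3) (.e (nat_lit 204838) (nat_lit 20) (.e (nat_lit 114718) (nat_lit 23) (.e (nat_lit 98334) (nat_lit 18) (.e (nat_lit 164403) (nat_lit 256) .nil))))))) (.g (nat_lit 7) .nil .nil))) 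
(.lf (nat_lit 149819) (.g (nat_lit 3040) (.e (nat_lit 57378) (nat_lit 3) (.e (nat_lit 98365) (nat_lit 26) (.e (nat_lit 426116) (nat_lit 2) (.e (nat_lit 196654) (nat_lit 11) (.e (nat_lit 16416) (nat_lit 3) (.e (nat_lit 204816) (nat_lit 17) (.e (nat_lit 974) (nat_lit 81) (.e (nat_lit 7697) (nat_lit 412) .nil)))))))) (.g (nat_lit 4) .nil .nil)))))) (.nd (nat_lit 3) (.nd (nat_lit 4) (.nd (nat_lit 5) 
(.lf (nat_lit 149767) (.g (nat_lit 2763) (.e (nat_lit 57378) (nat_lit 3) (.e (nat_lit 98357) (nat_lit 26) (.e (nat_lit 426131) (nat_lit 3) (.e (nat_lit 204837) (nat_lit 20) (.e (nat_lit 114718) (nat_lit 23) (.e (nat_lit 98334) (nat_lit 18) (.e (nat_lit 164401) (nat_lit 256) .nil))))))) (.g (nat_lit 4) .nil .nil))) 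
(.lf (nat_lit 149799) (.g (nat_lit 669) (.e (nat_lit 57378) (nat_lit 3) (.e (nat_lit 98359) (nat_lit 26) (.e (nat_lit 426331) (nat_lit 13) .nil))) .nil))) (.nd (nat_lit 5) 
(.lf (nat_lit 149783) (.g (nat_lit 2279) (.e (nat_lit 57378) (nat_lit 3) (.e (nat_lit 98358) (nat_lit 26) (.e (nat_lit 426131) (nat_lit 3) (.e (nat_lit 204838) (nat_lit 20) (.e (nat_lit 114717) (nat_lit 23) (.e (nat_lit 98334) (nat_lit 18) (.e (nat_lit 164403) (nat_lit 256) .nil))))))) (.g (nat_lit 4) .nil .nil))) 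
(.lf (nat_lit 149815) (.g (nat_lit 3157) (.e (nat_lit 57378) (nat_lit 3) (.e (nat_lit 98365) (nat_lit 26) (.e (nat_lit 426116) (nat_lit 2) (.e (nat_lit 196654) (nat_lit 11) (.e (nat_lit 16412) (nat_lit 2) (.e (nat_lit 196677) (nat_lit 16) (.e (nat_lit 122881) (nat_lit 0) (.e (nat_lit 7695) (nat_lit 412) .nil)))))))) (.g (nat_lit 4) .nil .nil))))) (.nd (nat_lit 4) (.nd (nat_lit 5) 
(.lf (nat_lit 149775) (.g (nat_lit 3383) (.e (nat_lit 57378) (nat_lit 3) (.e (nat_lit 98358) (nat_lit 26) (.e (nat_lit 426131) (nat_lit 3) (.e (nat_lit 204837) (nat_lit 20) (.e (nat_lit 114719) (nat_lit 23) (.e (nat_lit 98333) (nat_lit 18) (.e (nat_lit 164403) (nat_lit 256) .nil))))))) (.g (nat_lit 6) .nil .nil))) 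
(.lf (nat_lit 149807) (.g (nat_lit 2472) (.e (nat_lit 57378) (nat_lit 3) (.e (nat_lit 98363) (nat_lit 26) (.e (nat_lit 426129) (nat_lit 3) (.e (nat_lit 204838) (nat_lit 20) (.e (nat_lit 114719) (nat_lit 23) (.e (nat_lit 98334) (nat_lit 18) (.e (nat_lit 164403) (nat_lit 256) .nil))))))) (.g (nat_lit 4) .nil .nil)))) (.nd (nat_lit 5) 
(.lf (nat_lit 149791) (.g (nat_lit 4506) (.e (nat_lit 57378) (nat_lit 3) (.e (nat_lit 98358) (nat_lit 26) (.e (nat_lit 426131) (nat_lit 3) (.e (nat_lit 204838) (nat_lit 20) (.e (nat_lit 114719) (nat_lit 23) (.e (nat_lit 98334) (nat_lit 18) (.e (nat_lit 164399) (nat_lit 256) .nil))))))) (.g (nat_lit 0) .nil .nil))) 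
(.lf (nat_lit 149823) (.g (nat_lit 4486) (.e (nat_lit 57378) (nat_lit 3) (.e (nat_lit 98365) (nat_lit 26) (.e (nat_lit 426116) (nat_lit 2) (.e (nat_lit 196654) (nat_lit 11) (.e (nat_lit 16416) (nat_lit 3) (.e (nat_lit 204829) (nat_lit 18) (.e (nat_lit 65280) (nat_lit 166) .nil))))))) (.g (nat_lit 6) .nil .nil)))))))))

noncomputable def tv1997 : DT := (.nd (nat_lit 0) (.nd (nat_lit 1) (.nd (nat_lit 2) (.nd (nat_lit 3) (.nd (nat_lit 4) (.nd (nat_lit 5) 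
(.lf (nat_lit 149824) (.g (nat_lit 4301) (.e (nat_lit 57378) (nat_lit 3) (.e (nat_lit 98365) (nat_lit 26) (.e (nat_lit 426116) (nat_lit 2) (.e (nat_lit 196654) (nat_lit 11) (.e (nat_lit 16416) (nat_lit 3) (.e (nat_lit 204830) (nat_lit 18) (.e (nat_lit 65280) (nat_lit 166) .nil))))))) (.g (nat_lit 6) .nil .nil))) 
(.lf (nat_lit 149856) (.g (nat_lit 2470) (.e (nat_lit 57378) (nat_lit 3) (.e (nat_lit 98365) (nat_lit 26) (.e (nat_lit 426187) (nat_lit 9) (.e (nat_lit 426566) (nat_lit 34) (.e (nat_lit 393235) (nat_lit 17) (.e (nat_lit 2466) (nat_lit 157) (.e (nat_lit 5937) (nat_lit 322) .nil))))))) (.g (nat_lit 4) .nil .nil)))) (.nd (nat_lit 5) 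
(.lf (nat_lit 149840) (.g (nat_lit 3123) (.e (nat_lit 57378) (nat_lit 3) (.e (nat_lit 98365) (nat_lit 26) (.e (nat_lit 426187) (nat_lit 9) (.e (nat_lit 426479) (nat_lit 27) (.e (nat_lit 336421) (nat_lit 28) (.e (nat_lit 434216) (nat_lit 18) (.e (nat_lit 5947) (nat_lit 322) .nil))))))) (.g (nat_lit 5) .nil .nil))) 
(.lf (nat_lit 149872) (.g (nat_lit 1500) (.e (nat_lit 57378) (nat_lit 3) (.e (nat_lit 98365) (nat_lit 26) (.e (nat_lit 426188) (nat_lit 9) (.e (nat_lit 426486) (nat_lit 27) (.e (nat_lit 336418) (nat_lit 27) .nil))))) .nil)))) (.nd (nat_lit 4) (.nd (nat_lit 5) 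
(.lf (nat_lit 149832) (.g (nat_lit 3992) (.e (nat_lit 57378) (nat_lit 3) (.e (nat_lit 98365) (nat_lit 26) (.e (nat_lit 426133) (nat_lit 3) (.e (nat_lit 204809) (nat_lit 9) (.e (nat_lit 426139) (nat_lit 3) (.e (nat_lit 204815) (nat_lit 17) (.e (nat_lit 974) (nat_lit 81) (.e (nat_lit 7695) (nat_lit 412) .nil)))))))) (.g (nat_lit 5) .nil .nil))) 
(.lf (nat_lit 149864) (.g (nat_lit 3223) (.e (nat_lit 57378) (nat_lit 3) (.e (nat_lit 98365) (nat_lit 26) (.e (nat_lit 426187) (nat_lit 9) (.e (nat_lit 426568) (nat_lit 34) (.e (nat_lit 393234) (nat_lit 17) (.e (nat_lit 2524) (nat_lit 157) (.e (nat_lit 5949) (nat_lit 322) .nil))))))) (.g (nat_lit 5) .nil .nil)))) (.nd (nat_lit 5) 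
(.lf (nat_lit 149848) (.g (nat_lit 2414) (.e (nat_lit 57378) (nat_lit 3) (.e (nat_lit 98365) (nat_lit 26) (.e (nat_lit 426187) (nat_lit 9) (.e (nat_lit 426566) (nat_lit 34) (.e (nat_lit 393232) (nat_lit 17) (.e (nat_lit 2399) (nat_lit 157) (.e (nat_lit 5942) (nat_lit 322) .nil))))))) (.g (nat_lit 4) .nil .nil))) 
(.lf (nat_lit 149880) (.g (nat_lit 2236) (.e (nat_lit 57378) (nat_lit 3) (.e (nat_lit 98365) (nat_lit 26) (.e (nat_lit 426188) (nat_lit 9) (.e (nat_lit 426566) (nat_lit 34) (.e (nat_lit 393231) (nat_lit 17) (.e (nat_lit 2485) (nat_lit 157) (.e (nat_lit 5949) (nat_lit 322) .nil))))))) (.g (nat_lit 4) .nil .nil)))))) (.nd (nat_lit 3) (.nd (nat_lit 4) (.nd (nat_lit 5) 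
(.lf (nat_lit 149828) (.g (nat_lit 3342) (.e (nat_lit 57378) (nat_lit 3) (.e (nat_lit 98365) (nat_lit 26) (.e (nat_lit 426133) (nat_lit 3) (.e (nat_lit 204809) (nat_lit 9) (.e (nat_lit 426124) (nat_lit 2) (.e (nat_lit 196658) (nat_lit 12) (.e (nat_lit 57348) (nat_lit 0) (.e (nat_lit 7697) (nat_lit 412) .nil)))))))) (.g (nat_lit 5) .nil .nil))) 
(.lf (nat_lit 149860) (.g (nat_lit 2675) (.e (nat_lit 57378) (nat_lit 3) (.e (nat_lit 98365) (nat_lit 26) (.e (nat_lit 426187) (nat_lit 9) (.e (nat_lit 426566) (nat_lit 34) (.e (nat_lit 393253) (nat_lit 18) (.e (nat_lit 164402) (nat_lit 256) .nil)))))) (.g (nat_lit 5) .nil .nil)))) (.nd (nat_lit 5) 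
(.lf (nat_lit 149844) (.g (nat_lit 2469) (.e (nat_lit 57378) (nat_lit 3) (.e (nat_lit 98365) (nat_lit 26) (.e (nat_lit 426187) (nat_lit 9) (.e (nat_lit 426566) (nat_lit 34) (.e (nat_lit 393231) (nat_lit 17) (.e (nat_lit 2466) (nat_lit 157) (.e (nat_lit 5937) (nat_lit 322) .nil))))))) (.g (nat_lit 4) .nil .nil))) 
(.lf (nat_lit 149876) (.g (nat_lit 1515) (.e (nat_lit 57378) (nat_lit 3) (.e (nat_lit 98365) (nat_lit 26) (.e (nat_lit 426188) (nat_lit 9) (.e (nat_lit 426530) (nat_lit 27) .nil)))) .nil)))) (.nd (nat_lit 4) (.nd (nat_lit 5) 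
(.lf (nat_lit 149836) (.g (nat_lit 512) (.e (nat_lit 57378) (nat_lit 3) (.e (nat_lit 98365) (nat_lit 26) (.e (nat_lit 426186) (nat_lit 9) .nil))) .nil)) 
(.lf (nat_lit 149868) (.g (nat_lit 3772) (.e (nat_lit 57378) (nat_lit 3) (.e (nat_lit 98365) (nat_lit 26) (.e (nat_lit 426188) (nat_lit 9) (.e (nat_lit 426479) (nat_lit 27) (.e (nat_lit 336421) (nat_lit 28) (.e (nat_lit 434212) (nat_lit 18) (.e (nat_lit 5950) (nat_lit 322) .nil))))))) (.g (nat_lit 6) .nil .nil)))) (.nd (nat_lit 5) 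
(.lf (nat_lit 149852) (.g (nat_lit 2701) (.e (nat_lit 57378) (nat_lit 3) (.e (nat_lit 98365) (nat_lit 26) (.e (nat_lit 426187) (nat_lit 9) (.e (nat_lit 426566) (nat_lit 34) (.e (nat_lit 393233) (nat_lit 17) (.e (nat_lit 2399) (nat_lit 157) (.e (nat_lit 5941) (nat_lit 322) .nil))))))) (.g (nat_lit 4) .nil .nil))) 
(.lf (nat_lit 149884) (.g (nat_lit 2670) (.e (nat_lit 57378) (nat_lit 3) (.e (nat_lit 98365) (nat_lit 26) (.e (nat_lit 426188) (nat_lit 9) (.e (nat_lit 426566) (nat_lit 34) (.e (nat_lit 393233) (nat_lit 17) (.e (nat_lit 2399) (nat_lit 157) (.e (nat_lit 5941) (nat_lit 322) .nil))))))) (.g (nat_lit 4) .nil .nil))))))) (.nd (nat_lit 2) (.nd (nat_lit 3) (.nd (nat_lit 4) (.nd (nat_lit 5) 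
(.lf (nat_lit 149826) (.g (nat_lit 2657) (.e (nat_lit 57378) (nat_lit 3) (.e (nat_lit 98365) (nat_lit 26) (.e (nat_lit 426116) (nat_lit 2) (.e (nat_lit 196654) (nat_lit 11) (.e (nat_lit 16417) (nat_lit 3) .nil))))) .nil)) 
(.lf (nat_lit 149858) (.g (nat_lit 2851) (.e (nat_lit 57378) (nat_lit 3) (.e (nat_lit 98365) (nat_lit 26) (.e (nat_lit 426187) (nat_lit 9) (.e (nat_lit 426566) (nat_lit 34) (.e (nat_lit 393251) (nat_lit 18) (.e (nat_lit 164402) (nat_lit 256) .nil)))))) (.g (nat_lit 5) .nil .nil)))) (.nd (nat_lit 5) 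
(.lf (nat_lit 149842) (.g (nat_lit 2080) (.e (nat_lit 57378) (nat_lit 3) (.e (nat_lit 98365) (nat_lit 26) (.e (nat_lit 426187) (nat_lit 9) (.e (nat_lit 426566) (nat_lit 34) (.e (nat_lit 401152) (nat_lit 1) (.e (nat_lit 65280) (nat_lit 211) .nil)))))) (.g (nat_lit 4) .nil .nil))) 
(.lf (nat_lit 149874) (.g (nat_lit 1263) (.e (nat_lit 57378) (nat_lit 3) (.e (nat_lit 98365) (nat_lit 26) (.e (nat_lit 426188) (nat_lit 9) (.e (nat_lit 426491) (nat_lit 27) .nil)))) .nil)))) (.nd (nat_lit 4) (.nd (nat_lit 5) 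
(.lf (nat_lit 149834) (.g (nat_lit 4508) (.e (nat_lit 57378) (nat_lit 3) (.e (nat_lit 98365) (nat_lit 26) (.e (nat_lit 426133) (nat_lit 3) (.e (nat_lit 204809) (nat_lit 9) (.e (nat_lit 426139) (nat_lit 3) (.e (nat_lit 204829) (nat_lit 18) (.e (nat_lit 65280) (nat_lit 166) .nil))))))) (.g (nat_lit 6) .nil .nil))) 
(.lf (nat_lit 149866) (.g (nat_lit 2526) (.e (nat_lit 57378) (nat_lit 3) (.e (nat_lit 98365) (nat_lit 26) (.e (nat_lit 426188) (nat_lit 9) (.e (nat_lit 426478) (nat_lit 27) (.e (nat_lit 336388) (nat_lit 27) (.e (nat_lit 426100) (nat_lit 1) (.e (nat_lit 164399) (nat_lit 256) .nil))))))) (.g (nat_lit 4) .nil .nil)))) (.nd (nat_lit 5) 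
(.lf (nat_lit 149850) (.g (nat_lit 2750) (.e (nat_lit 57378) (nat_lit 3) (.e (nat_lit 98365) (nat_lit 26) (.e (nat_lit 426187) (nat_lit 9) (.e (nat_lit 426566) (nat_lit 34) (.e (nat_lit 393232) (nat_lit 17) (.e (nat_lit 2530) (nat_lit 157) (.e (nat_lit 5949) (nat_lit 322) .nil))))))) (.g (nat_lit 4) .nil .nil))) 
(.lf (nat_lit 149882) (.g (nat_lit 2848) (.e (nat_lit 57378) (nat_lit 3) (.e (nat_lit 98365) (nat_lit 26) (.e (nat_lit 426188) (nat_lit 9) (.e (nat_lit 426566) (nat_lit 34) (.e (nat_lit 393232) (nat_lit 17) (.e (nat_lit 2530) (nat_lit 157) (.e (nat_lit 5949) (nat_lit 322) .nil))))))) (.g (nat_lit 4) .nil .nil)))))) (.nd (nat_lit 3) (.nd (nat_lit 4) (.nd (nat_lit 5) 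
(.lf (nat_lit 149830) (.g (nat_lit 3321) (.e (nat_lit 57378) (nat_lit 3) (.e (nat_lit 98365) (nat_lit 26) (.e (nat_lit 426133) (nat_lit 3) (.e (nat_lit 204809) (nat_lit 9) (.e (nat_lit 426124) (nat_lit 2) (.e (nat_lit 196677) (nat_lit 16) (.e (nat_lit 122881) (nat_lit 0) (.e (nat_lit 7695) (nat_lit 412) .nil)))))))) (.g (nat_lit 5) .nil .nil))) 
(.lf (nat_lit 149862) (.g (nat_lit 2057) (.e (nat_lit 57378) (nat_lit 3) (.e (nat_lit 98365) (nat_lit 26) (.e (nat_lit 426187) (nat_lit 9) (.e (nat_lit 426566) (nat_lit 34) (.e (nat_lit 393255) (nat_lit 19) .nil))))) .nil))) (.nd (nat_lit 5) 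
(.lf (nat_lit 149846) (.g (nat_lit 2099) (.e (nat_lit 57378) (nat_lit 3) (.e (nat_lit 98365) (nat_lit 26) (.e (nat_lit 426187) (nat_lit 9) (.e (nat_lit 426566) (nat_lit 34) (.e (nat_lit 393231) (nat_lit 17) (.e (nat_lit 2486) (nat_lit 157) (.e (nat_lit 5949) (nat_lit 322) .nil))))))) (.g (nat_lit 4) .nil .nil))) 
(.lf (nat_lit 149878) (.g (nat_lit 1025) (.e (nat_lit 57378) (nat_lit 3) (.e (nat_lit 98365) (nat_lit 26) (.e (nat_lit 426188) (nat_lit 9) (.e (nat_lit 426566) (nat_lit 34) .nil)))) .nil)))) (.nd (nat_lit 4) (.nd (nat_lit 5) 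
(.lf (nat_lit 149838) (.g (nat_lit 1240) (.e (nat_lit 57378) (nat_lit 3) (.e (nat_lit 98365) (nat_lit 26) (.e (nat_lit 426187) (nat_lit 9) (.e (nat_lit 426479) (nat_lit 27) (.e (nat_lit 336421) (nat_lit 28) .nil))))) .nil)) 
(.lf (nat_lit 149870) (.g (nat_lit 2104) (.e (nat_lit 57378) (nat_lit 3) (.e (nat_lit 98365) (nat_lit 26) (.e (nat_lit 426188) (nat_lit 9) (.e (nat_lit 426484) (nat_lit 27) (.e (nat_lit 336409) (nat_lit 27) (.e (nat_lit 426100) (nat_lit 1) (.e (nat_lit 164399) (nat_lit 256) .nil))))))) (.g (nat_lit 4) .nil .nil)))) (.nd (nat_lit 5) 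
(.lf (nat_lit 149854) (.g (nat_lit 3638) (.e (nat_lit 57378) (nat_lit 3) (.e (nat_lit 98365) (nat_lit 26) (.e (nat_lit 426187) (nat_lit 9) (.e (nat_lit 426566) (nat_lit 34) (.e (nat_lit 393234) (nat_lit 17) (.e (nat_lit 2504) (nat_lit 157) (.e (nat_lit 5949) (nat_lit 322) .nil))))))) (.g (nat_lit 5) .nil .nil))) 
(.lf (nat_lit 149886) (.g (nat_lit 3831) (.e (nat_lit 57378) (nat_lit 3) (.e (nat_lit 98365) (nat_lit 26) (.e (nat_lit 426188) (nat_lit 9) (.e (nat_lit 426566) (nat_lit 34) (.e (nat_lit 393234) (nat_lit 17) (.e (nat_lit 2504) (nat_lit 157) (.e (nat_lit 5949) (nat_lit 322) .nil))))))) (.g (nat_lit 5) .nil .nil)))))))) 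
(.nd (nat_lit 1) (.nd (nat_lit 2) (.nd (nat_lit 3) (.nd (nat_lit 4) (.nd (nat_lit 5) 
(.lf (nat_lit 149825) (.g (nat_lit 3885) (.e (nat_lit 57378) (nat_lit 3) (.e (nat_lit 98365) (nat_lit 26) (.e (nat_lit 426116) (nat_lit 2) (.e (nat_lit 196654) (nat_lit 11) (.e (nat_lit 16416) (nat_lit 3) (.e (nat_lit 204831) (nat_lit 18) (.e (nat_lit 65280) (nat_lit 166) .nil))))))) (.g (nat_lit 5) .nil .nil))) 
(.lf (nat_lit 149857) (.g (nat_lit 2462) (.e (nat_lit 57378) (nat_lit 3) (.e (nat_lit 98365) (nat_lit 26) (.e (nat_lit 426187) (nat_lit 9) (.e (nat_lit 426566) (nat_lit 34) (.e (nat_lit 393239) (nat_lit 17) (.e (nat_lit 2466) (nat_lit 157) (.e (nat_lit 5937) (nat_lit 322) .nil))))))) (.g (nat_lit 4) .nil .nil)))) (.nd (nat_lit 5) 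
(.lf (nat_lit 149841) (.g (nat_lit 2579) (.e (nat_lit 57378) (nat_lit 3) (.e (nat_lit 98365) (nat_lit 26) (.e (nat_lit 426187) (nat_lit 9) (.e (nat_lit 426564) (nat_lit 34) (.e (nat_lit 393234) (nat_lit 17) (.e (nat_lit 2485) (nat_lit 157) (.e (nat_lit 5949) (nat_lit 322) .nil))))))) (.g (nat_lit 5) .nil .nil))) 
(.lf (nat_lit 149873) (.g (nat_lit 1754) (.e (nat_lit 57378) (nat_lit 3) (.e (nat_lit 98365) (nat_lit 26) (.e (nat_lit 426188) (nat_lit 9) (.e (nat_lit 426487) (nat_lit 27) (.e (nat_lit 336409) (nat_lit 27) .nil))))) .nil)))) (.nd (nat_lit 4) (.nd (nat_lit 5) 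
(.lf (nat_lit 149833) (.g (nat_lit 3811) (.e (nat_lit 57378) (nat_lit 3) (.e (nat_lit 98365) (nat_lit 26) (.e (nat_lit 426133) (nat_lit 3) (.e (nat_lit 204809) (nat_lit 9) (.e (nat_lit 426139) (nat_lit 3) (.e (nat_lit 204815) (nat_lit 17) (.e (nat_lit 974) (nat_lit 81) (.e (nat_lit 7697) (nat_lit 412) .nil)))))))) (.g (nat_lit 5) .nil .nil))) 
(.lf (nat_lit 149865) (.g (nat_lit 407) (.e (nat_lit 57378) (nat_lit 3) (.e (nat_lit 98365) (nat_lit 26) (.e (nat_lit 426188) (nat_lit 9) .nil))) .nil))) (.nd (nat_lit 5) 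
(.lf (nat_lit 149849) (.g (nat_lit 2789) (.e (nat_lit 57378) (nat_lit 3) (.e (nat_lit 98365) (nat_lit 26) (.e (nat_lit 426187) (nat_lit 9) (.e (nat_lit 426566) (nat_lit 34) (.e (nat_lit 393232) (nat_lit 17) (.e (nat_lit 2399) (nat_lit 157) (.e (nat_lit 5954) (nat_lit 322) .nil))))))) (.g (nat_lit 4) .nil .nil))) 
(.lf (nat_lit 149881) (.g (nat_lit 2201) (.e (nat_lit 57378) (nat_lit 3) (.e (nat_lit 98365) (nat_lit 26) (.e (nat_lit 426188) (nat_lit 9) (.e (nat_lit 426566) (nat_lit 34) (.e (nat_lit 393232) (nat_lit 17) .nil))))) .nil))))) (.nd (nat_lit 3) (.nd (nat_lit 4) (.nd (nat_lit 5) 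
(.lf (nat_lit 149829) (.g (nat_lit 3382) (.e (nat_lit 57378) (nat_lit 3) (.e (nat_lit 98365) (nat_lit 26) (.e (nat_lit 426133) (nat_lit 3) (.e (nat_lit 204809) (nat_lit 9) (.e (nat_lit 426124) (nat_lit 2) (.e (nat_lit 196677) (nat_lit 16) (.e (nat_lit 122880) (nat_lit 0) (.e (nat_lit 7695) (nat_lit 412) .nil)))))))) (.g (nat_lit 5) .nil .nil))) 
(.lf (nat_lit 149861) (.g (nat_lit 2261) (.e (nat_lit 57378) (nat_lit 3) (.e (nat_lit 98365) (nat_lit 26) (.e (nat_lit 426187) (nat_lit 9) (.e (nat_lit 426566) (nat_lit 34) (.e (nat_lit 393254) (nat_lit 18) (.e (nat_lit 164402) (nat_lit 256) .nil)))))) (.g (nat_lit 5) .nil .nil)))) (.nd (nat_lit 5) 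
(.lf (nat_lit 149845) (.g (nat_lit 2234) (.e (nat_lit 57378) (nat_lit 3) (.e (nat_lit 98365) (nat_lit 26) (.e (nat_lit 426187) (nat_lit 9) (.e (nat_lit 426566) (nat_lit 34) (.e (nat_lit 393231) (nat_lit 17) (.e (nat_lit 2485) (nat_lit 157) (.e (nat_lit 5949) (nat_lit 322) .nil))))))) (.g (nat_lit 4) .nil .nil))) 
(.lf (nat_lit 149877) (.g (nat_lit 1263) (.e (nat_lit 57378) (nat_lit 3) (.e (nat_lit 98365) (nat_lit 26) (.e (nat_lit 426188) (nat_lit 9) (.e (nat_lit 426564) (nat_lit 34) .nil)))) .nil)))) (.nd (nat_lit 4) (.nd (nat_lit 5) 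
(.lf (nat_lit 149837) (.g (nat_lit 393) (.e (nat_lit 57378) (nat_lit 3) (.e (nat_lit 98365) (nat_lit 26) (.e (nat_lit 426187) (nat_lit 9) .nil))) .nil)) 
(.lf (nat_lit 149869) (.g (nat_lit 3550) (.e (nat_lit 57378) (nat_lit 3) (.e (nat_lit 98365) (nat_lit 26) (.e (nat_lit 426188) (nat_lit 9) (.e (nat_lit 426479) (nat_lit 27) (.e (nat_lit 336421) (nat_lit 28) (.e (nat_lit 434216) (nat_lit 18) (.e (nat_lit 5947) (nat_lit 322) .nil))))))) (.g (nat_lit 5) .nil .nil)))) (.nd (nat_lit 5) 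
(.lf (nat_lit 149853) (.g (nat_lit 2820) (.e (nat_lit 57378) (nat_lit 3) (.e (nat_lit 98365) (nat_lit 26) (.e (nat_lit 426187) (nat_lit 9) (.e (nat_lit 426566) (nat_lit 34) (.e (nat_lit 393233) (nat_lit 17) (.e (nat_lit 2399) (nat_lit 157) (.e (nat_lit 5942) (nat_lit 322) .nil))))))) (.g (nat_lit 4) .nil .nil))) 
(.lf (nat_lit 149885) (.g (nat_lit 2891) (.e (nat_lit 57378) (nat_lit 3) (.e (nat_lit 98365) (nat_lit 26) (.e (nat_lit 426188) (nat_lit 9) (.e (nat_lit 426566) (nat_lit 34) (.e (nat_lit 393233) (nat_lit 17) (.e (nat_lit 2399) (nat_lit 157) (.e (nat_lit 5942) (nat_lit 322) .nil))))))) (.g (nat_lit 4) .nil .nil))))))) (.nd (nat_lit 2) (.nd (nat_lit 3) (.nd (nat_lit 4) (.nd (nat_lit 5) 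
(.lf (nat_lit 149827) (.g (nat_lit 3289) (.e (nat_lit 57378) (nat_lit 3) (.e (nat_lit 98365) (nat_lit 26) (.e (nat_lit 426133) (nat_lit 3) (.e (nat_lit 204809) (nat_lit 9) (.e (nat_lit 426124) (nat_lit 2) (.e (nat_lit 196658) (nat_lit 12) (.e (nat_lit 57348) (nat_lit 0) (.e (nat_lit 7695) (nat_lit 412) .nil)))))))) (.g (nat_lit 5) .nil .nil))) 
(.lf (nat_lit 149859) (.g (nat_lit 2004) (.e (nat_lit 57378) (nat_lit 3) (.e (nat_lit 98365) (nat_lit 26) (.e (nat_lit 426187) (nat_lit 9) (.e (nat_lit 426566) (nat_lit 34) (.e (nat_lit 393252) (nat_lit 18) (.e (nat_lit 164402) (nat_lit 256) .nil)))))) (.g (nat_lit 4) .nil .nil)))) (.nd (nat_lit 5) 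
(.lf (nat_lit 149843) (.g (nat_lit 1655) (.e (nat_lit 57378) (nat_lit 3) (.e (nat_lit 98365) (nat_lit 26) (.e (nat_lit 426187) (nat_lit 9) (.e (nat_lit 426566) (nat_lit 34) (.e (nat_lit 393231) (nat_lit 17) .nil))))) .nil)) 
(.lf (nat_lit 149875) (.g (nat_lit 2182) (.e (nat_lit 57378) (nat_lit 3) (.e (nat_lit 98365) (nat_lit 26) (.e (nat_lit 426188) (nat_lit 9) (.e (nat_lit 426491) (nat_lit 27) (.e (nat_lit 336406) (nat_lit 27) (.e (nat_lit 426098) (nat_lit 1) (.e (nat_lit 164399) (nat_lit 256) .nil))))))) (.g (nat_lit 4) .nil .nil))))) (.nd (nat_lit 4) (.nd (nat_lit 5) 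
(.lf (nat_lit 149835) (.g (nat_lit 4354) (.e (nat_lit 57378) (nat_lit 3) (.e (nat_lit 98365) (nat_lit 26) (.e (nat_lit 426133) (nat_lit 3) (.e (nat_lit 204809) (nat_lit 9) (.e (nat_lit 426139) (nat_lit 3) (.e (nat_lit 204830) (nat_lit 18) (.e (nat_lit 65280) (nat_lit 166) .nil))))))) (.g (nat_lit 6) .nil .nil))) 
(.lf (nat_lit 149867) (.g (nat_lit 1691) (.e (nat_lit 57378) (nat_lit 3) (.e (nat_lit 98365) (nat_lit 26) (.e (nat_lit 426188) (nat_lit 9) (.e (nat_lit 426479) (nat_lit 27) (.e (nat_lit 336421) (nat_lit 28) .nil))))) .nil))) (.nd (nat_lit 5) 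
(.lf (nat_lit 149851) (.g (nat_lit 1401) (.e (nat_lit 57378) (nat_lit 3) (.e (nat_lit 98365) (nat_lit 26) (.e (nat_lit 426187) (nat_lit 9) (.e (nat_lit 426566) (nat_lit 34) (.e (nat_lit 393233) (nat_lit 17) .nil))))) .nil)) 
(.lf (nat_lit 149883) (.g (nat_lit 1571) (.e (nat_lit 57378) (nat_lit 3) (.e (nat_lit 98365) (nat_lit 26) (.e (nat_lit 426188) (nat_lit 9) (.e (nat_lit 426566) (nat_lit 34) (.e (nat_lit 393233) (nat_lit 17) .nil))))) .nil))))) (.nd (nat_lit 3) (.nd (nat_lit 4) (.nd (nat_lit 5) 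
(.lf (nat_lit 149831) (.g (nat_lit 3929) (.e (nat_lit 57378) (nat_lit 3) (.e (nat_lit 98365) (nat_lit 26) (.e (nat_lit 426133) (nat_lit 3) (.e (nat_lit 204809) (nat_lit 9) (.e (nat_lit 426124) (nat_lit 2) (.e (nat_lit 196677) (nat_lit 16) (.e (nat_lit 122881) (nat_lit 0) (.e (nat_lit 7697) (nat_lit 412) .nil)))))))) (.g (nat_lit 6) .nil .nil))) 
(.lf (nat_lit 149863) (.g (nat_lit 1843) (.e (nat_lit 57378) (nat_lit 3) (.e (nat_lit 98365) (nat_lit 26) (.e (nat_lit 426187) (nat_lit 9) (.e (nat_lit 426566) (nat_lit 34) (.e (nat_lit 393256) (nat_lit 19) (.e (nat_lit 229708) (nat_lit 256) .nil)))))) (.g (nat_lit 4) .nil .nil)))) (.nd (nat_lit 5) 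
(.lf (nat_lit 149847) (.g (nat_lit 2035) (.e (nat_lit 57378) (nat_lit 3) (.e (nat_lit 98365) (nat_lit 26) (.e (nat_lit 426187) (nat_lit 9) (.e (nat_lit 426566) (nat_lit 34) (.e (nat_lit 393232) (nat_lit 17) .nil))))) .nil)) 
(.lf (nat_lit 149879) (.g (nat_lit 1982) (.e (nat_lit 57378) (nat_lit 3) (.e (nat_lit 98365) (nat_lit 26) (.e (nat_lit 426188) (nat_lit 9) (.e (nat_lit 426566) (nat_lit 34) (.e (nat_lit 401152) (nat_lit 1) (.e (nat_lit 65280) (nat_lit 211) .nil)))))) (.g (nat_lit 4) .nil .nil))))) (.nd (nat_lit 4) (.nd (nat_lit 5) 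
(.lf (nat_lit 149839) (.g (nat_lit 3364) (.e (nat_lit 57378) (nat_lit 3) (.e (nat_lit 98365) (nat_lit 26) (.e (nat_lit 426187) (nat_lit 9) (.e (nat_lit 426479) (nat_lit 27) (.e (nat_lit 336421) (nat_lit 28) (.e (nat_lit 434212) (nat_lit 18) (.e (nat_lit 5950) (nat_lit 322) .nil))))))) (.g (nat_lit 6) .nil .nil))) 
(.lf (nat_lit 149871) (.g (nat_lit 1290) (.e (nat_lit 57378) (nat_lit 3) (.e (nat_lit 98365) (nat_lit 26) (.e (nat_lit 426188) (nat_lit 9) (.e (nat_lit 426486) (nat_lit 27) .nil)))) .nil))) (.nd (nat_lit 5) 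
(.lf (nat_lit 149855) (.g (nat_lit 2651) (.e (nat_lit 57378) (nat_lit 3) (.e (nat_lit 98365) (nat_lit 26) (.e (nat_lit 426187) (nat_lit 9) (.e (nat_lit 426566) (nat_lit 34) (.e (nat_lit 393234) (nat_lit 17) (.e (nat_lit 2524) (nat_lit 157) (.e (nat_lit 5949) (nat_lit 322) .nil))))))) (.g (nat_lit 4) .nil .nil))) 
(.lf (nat_lit 149887) (.g (nat_lit 2844) (.e (nat_lit 57378) (nat_lit 3) (.e (nat_lit 98365) (nat_lit 26) (.e (nat_lit 426188) (nat_lit 9) (.e (nat_lit 426566) (nat_lit 34) (.e (nat_lit 393234) (nat_lit 17) (.e (nat_lit 2524) (nat_lit 157) (.e (nat_lit 5949) (nat_lit 322) .nil))))))) (.g (nat_lit 4) .nil .nil)))))))))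

noncomputable def tv1998 : DT := (.nd (nat_lit 0) (.nd (nat_lit 1) (.nd (nat_lit 2) (.nd (nat_lit 3) (.nd (nat_lit 4) (.nd (nat_lit 5) (.nd (nat_lit 6) 
(.lf (nat_lit 149888) (.g (nat_lit 2129) (.e (nat_lit 57378) (nat_lit 3) (.e (nat_lit 98365) (nat_lit 26) (.e (nat_lit 426188) (nat_lit 9) (.e (nat_lit 426566) (nat_lit 34) (.e (nat_lit 393235) (nat_lit 17) .nil))))) .nil)) 
(.lf (nat_lit 149952) (.g (nat_lit 2600) (.e (nat_lit 57378) (nat_lit 3) (.e (nat_lit 98367) (nat_lit 27) (.e (nat_lit 434231) (nat_lit 23) (.e (nat_lit 532507) (nat_lit 2) (.e (nat_lit 106537) (nat_lit 12) (.e (nat_lit 57466) (nat_lit 23) (.e (nat_lit 516115) (nat_lit 1) (.e (nat_lit 164399) (nat_lit 256) .nil)))))))) (.g (nat_lit 4) .nil .nil)))) (.nd (nat_lit 6) 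
(.lf (nat_lit 149920) (.g (nat_lit 2395) (.e (nat_lit 57378) (nat_lit 3) (.e (nat_lit 98365) (nat_lit 26) (.e (nat_lit 426325) (nat_lit 13) (.e (nat_lit 483341) (nat_lit 9) (.e (nat_lit 426145) (nat_lit 4) .nil))))) .nil)) 
(.lf (nat_lit 149984) (.g (nat_lit 3433) (.e (nat_lit 57378) (nat_lit 3) (.e (nat_lit 98367) (nat_lit 27) (.e (nat_lit 434248) (nat_lit 28) (.e (nat_lit 573482) (nat_lit 13) (.e (nat_lit 73472) (nat_lit 18) (.e (nat_lit 204821) (nat_lit 17) (.e (nat_lit 1086) (nat_lit 81) (.e (nat_lit 5949) (nat_lit 322) .nil)))))))) (.g (nat_lit 4) .nil .nil))))) (.nd (nat_lit 5) (.nd (nat_lit 6) 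
(.lf (nat_lit 149904) (.g (nat_lit 2407) (.e (nat_lit 57378) (nat_lit 3) (.e (nat_lit 98365) (nat_lit 26) (.e (nat_lit 426190) (nat_lit 9) (.e (nat_lit 426566) (nat_lit 34) (.e (nat_lit 393251) (nat_lit 18) (.e (nat_lit 164403) (nat_lit 256) .nil)))))) (.g (nat_lit 4) .nil .nil))) 
(.lf (nat_lit 149968) (.g (nat_lit 574) (.e (nat_lit 57378) (nat_lit 3) (.e (nat_lit 98367) (nat_lit 27) (.e (nat_lit 434244) (nat_lit 28) .nil))) .nil))) (.nd (nat_lit 6) 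
(.lf (nat_lit 149936) (.g (nat_lit 1755) (.e (nat_lit 57378) (nat_lit 3) (.e (nat_lit 98366) (nat_lit 27) (.e (nat_lit 434231) (nat_lit 23) (.e (nat_lit 532507) (nat_lit 2) (.e (nat_lit 106517) (nat_lit 9) .nil))))) .nil)) 
(.lf (nat_lit 150000) (.g (nat_lit 2654) (.e (nat_lit 57378) (nat_lit 3) (.e (nat_lit 98368) (nat_lit 27) (.e (nat_lit 434245) (nat_lit 28) (.e (nat_lit 573488) (nat_lit 14) (.e (nat_lit 73747) (nat_lit 3) (.e (nat_lit 516115) (nat_lit 1) (.e (nat_lit 171776) (nat_lit 160) .nil))))))) (.g (nat_lit 4) .nil .nil)))))) (.nd (nat_lit 4) (.nd (nat_lit 5) (.nd (nat_lit 6) 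
(.lf (nat_lit 149896) (.g (nat_lit 1148) (.e (nat_lit 57378) (nat_lit 3) (.e (nat_lit 98365) (nat_lit 26) (.e (nat_lit 426188) (nat_lit 9) (.e (nat_lit 426568) (nat_lit 34) .nil)))) .nil)) 
(.lf (nat_lit 149960) (.g (nat_lit 2548) (.e (nat_lit 57378) (nat_lit 3) (.e (nat_lit 98367) (nat_lit 27) (.e (nat_lit 434231) (nat_lit 23) (.e (nat_lit 532579) (nat_lit 26) (.e (nat_lit 426124) (nat_lit 2) .nil))))) .nil))) (.nd (nat_lit 6) 
(.lf (nat_lit 149928) (.g (nat_lit 2860) (.e (nat_lit 57378) (nat_lit 3) (.e (nat_lit 98365) (nat_lit 26) (.e (nat_lit 426334) (nat_lit 13) (.e (nat_lit 483341) (nat_lit 9) (.e (nat_lit 426108) (nat_lit 1) (.e (nat_lit 164403) (nat_lit 256) .nil)))))) (.g (nat_lit 5) .nil .nil))) 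
(.lf (nat_lit 149992) (.g (nat_lit 1760) (.e (nat_lit 57378) (nat_lit 3) (.e (nat_lit 98368) (nat_lit 27) (.e (nat_lit 434245) (nat_lit 28) (.e (nat_lit 573481) (nat_lit 13) (.e (nat_lit 73472) (nat_lit 18) .nil))))) .nil)))) (.nd (nat_lit 5) (.nd (nat_lit 6) 
(.lf (nat_lit 149912) (.g (nat_lit 1478) (.e (nat_lit 57378) (nat_lit 3) (.e (nat_lit 98365) (nat_lit 26) (.e (nat_lit 426306) (nat_lit 12) (.e (nat_lit 475177) (nat_lit 24) .nil)))) .nil)) 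
(.lf (nat_lit 149976) (.g (nat_lit 2401) (.e (nat_lit 57378) (nat_lit 3) (.e (nat_lit 98367) (nat_lit 27) (.e (nat_lit 434246) (nat_lit 28) (.e (nat_lit 573482) (nat_lit 13) (.e (nat_lit 73472) (nat_lit 18) .nil))))) .nil))) (.nd (nat_lit 6) 
(.lf (nat_lit 149944) (.g (nat_lit 980) (.e (nat_lit 57378) (nat_lit 3) (.e (nat_lit 98367) (nat_lit 27) (.e (nat_lit 434227) (nat_lit 20) .nil))) .nil)) 
(.lf (nat_lit 150008) (.g (nat_lit 3094) (.e (nat_lit 57378) (nat_lit 3) (.e (nat_lit 98369) (nat_lit 28) (.e (nat_lit 442390) (nat_lit 11) (.e (nat_lit 336387) (nat_lit 27) (.e (nat_lit 426098) (nat_lit 1) (.e (nat_lit 164398) (nat_lit 256) .nil)))))) (.g (nat_lit 0) .nil .nil))))))) (.nd (nat_lit 3) (.nd (nat_lit 4) (.nd (nat_lit 5) (.nd (nat_lit 6) 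
(.lf (nat_lit 149892) (.g (nat_lit 2221) (.e (nat_lit 57378) (nat_lit 3) (.e (nat_lit 98365) (nat_lit 26) (.e (nat_lit 426188) (nat_lit 9) (.e (nat_lit 426566) (nat_lit 34) (.e (nat_lit 393252) (nat_lit 18) (.e (nat_lit 164402) (nat_lit 256) .nil)))))) (.g (nat_lit 4) .nil .nil))) 
(.lf (nat_lit 149956) (.g (nat_lit 2515) (.e (nat_lit 57378) (nat_lit 3) (.e (nat_lit 98367) (nat_lit 27) (.e (nat_lit 434231) (nat_lit 23) (.e (nat_lit 532513) (nat_lit 3) (.e (nat_lit 114704) (nat_lit 20) .nil))))) .nil))) (.nd (nat_lit 6) 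
(.lf (nat_lit 149924) (.g (nat_lit 1048) (.e (nat_lit 57378) (nat_lit 3) (.e (nat_lit 98365) (nat_lit 26) (.e (nat_lit 426327) (nat_lit 13) (.e (nat_lit 491264) (nat_lit 10) .nil)))) .nil)) 
(.lf (nat_lit 149988) (.g (nat_lit 3026) (.e (nat_lit 57378) (nat_lit 3) (.e (nat_lit 98367) (nat_lit 27) (.e (nat_lit 434248) (nat_lit 28) (.e (nat_lit 573489) (nat_lit 14) (.e (nat_lit 73754) (nat_lit 8) .nil))))) .nil)))) (.nd (nat_lit 5) (.nd (nat_lit 6) 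
(.lf (nat_lit 149908) (.g (nat_lit 1451) (.e (nat_lit 57378) (nat_lit 3) (.e (nat_lit 98365) (nat_lit 26) (.e (nat_lit 426298) (nat_lit 11) (.e (nat_lit 458789) (nat_lit 23) (.e (nat_lit 532553) (nat_lit 13) (.e (nat_lit 368659) (nat_lit 18) (.e (nat_lit 7936) (nat_lit 283) .nil))))))) (.g (nat_lit 4) .nil .nil))) 
(.lf (nat_lit 149972) (.g (nat_lit 2498) (.e (nat_lit 57378) (nat_lit 3) (.e (nat_lit 98367) (nat_lit 27) (.e (nat_lit 434245) (nat_lit 28) (.e (nat_lit 573481) (nat_lit 13) (.e (nat_lit 73472) (nat_lit 18) .nil))))) .nil))) (.nd (nat_lit 6) 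
(.lf (nat_lit 149940) (.g (nat_lit 2094) (.e (nat_lit 57378) (nat_lit 3) (.e (nat_lit 98366) (nat_lit 27) (.e (nat_lit 434231) (nat_lit 23) (.e (nat_lit 532513) (nat_lit 3) (.e (nat_lit 114714) (nat_lit 22) .nil))))) .nil)) 
(.lf (nat_lit 150004) (.g (nat_lit 2840) (.e (nat_lit 57378) (nat_lit 3) (.e (nat_lit 98368) (nat_lit 27) (.e (nat_lit 434248) (nat_lit 28) (.e (nat_lit 573482) (nat_lit 13) (.e (nat_lit 73472) (nat_lit 18) (.e (nat_lit 204839) (nat_lit 21) (.e (nat_lit 123197) (nat_lit 266) .nil))))))) (.g (nat_lit 4) .nil .nil)))))) (.nd (nat_lit 4) (.nd (nat_lit 5) (.nd (nat_lit 6) 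
(.lf (nat_lit 149900) (.g (nat_lit 1866) (.e (nat_lit 57378) (nat_lit 3) (.e (nat_lit 98365) (nat_lit 26) (.e (nat_lit 426188) (nat_lit 9) (.e (nat_lit 426568) (nat_lit 34) (.e (nat_lit 393238) (nat_lit 17) .nil))))) .nil)) 
(.lf (nat_lit 149964) (.g (nat_lit 2671) (.e (nat_lit 57378) (nat_lit 3) (.e (nat_lit 98367) (nat_lit 27) (.e (nat_lit 434232) (nat_lit 23) (.e (nat_lit 532513) (nat_lit 3) (.e (nat_lit 114718) (nat_lit 23) (.e (nat_lit 98334) (nat_lit 18) (.e (nat_lit 164399) (nat_lit 256) .nil))))))) (.g (nat_lit 4) .nil .nil)))) (.nd (nat_lit 6) 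
(.lf (nat_lit 149932) (.g (nat_lit 2527) (.e (nat_lit 57378) (nat_lit 3) (.e (nat_lit 98366) (nat_lit 27) (.e (nat_lit 434231) (nat_lit 23) (.e (nat_lit 532506) (nat_lit 2) (.e (nat_lit 106538) (nat_lit 12) (.e (nat_lit 57465) (nat_lit 23) (.e (nat_lit 516115) (nat_lit 1) (.e (nat_lit 164399) (nat_lit 256) .nil)))))))) (.g (nat_lit 4) .nil .nil))) 
(.lf (nat_lit 149996) (.g (nat_lit 2605) (.e (nat_lit 57378) (nat_lit 3) (.e (nat_lit 98368) (nat_lit 27) (.e (nat_lit 434245) (nat_lit 28) (.e (nat_lit 573487) (nat_lit 14) (.e (nat_lit 73746) (nat_lit 3) (.e (nat_lit 516117) (nat_lit 1) (.e (nat_lit 171776) (nat_lit 160) .nil))))))) (.g (nat_lit 4) .nil .nil))))) (.nd (nat_lit 5) (.nd (nat_lit 6) 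
(.lf (nat_lit 149916) (.g (nat_lit 2171) (.e (nat_lit 57378) (nat_lit 3) (.e (nat_lit 98365) (nat_lit 26) (.e (nat_lit 426325) (nat_lit 13) (.e (nat_lit 483337) (nat_lit 9) (.e (nat_lit 426142) (nat_lit 4) (.e (nat_lit 229708) (nat_lit 256) .nil)))))) (.g (nat_lit 4) .nil .nil))) 
(.lf (nat_lit 149980) (.g (nat_lit 2056) (.e (nat_lit 57378) (nat_lit 3) (.e (nat_lit 98367) (nat_lit 27) (.e (nat_lit 434247) (nat_lit 28) (.e (nat_lit 573489) (nat_lit 14) (.e (nat_lit 73755) (nat_lit 8) .nil))))) .nil))) (.nd (nat_lit 6) 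
(.lf (nat_lit 149948) (.g (nat_lit 2603) (.e (nat_lit 57378) (nat_lit 3) (.e (nat_lit 98367) (nat_lit 27) (.e (nat_lit 434231) (nat_lit 23) (.e (nat_lit 532506) (nat_lit 2) (.e (nat_lit 106540) (nat_lit 13) (.e (nat_lit 122936) (nat_lit 23) (.e (nat_lit 516115) (nat_lit 1) (.e (nat_lit 164399) (nat_lit 256) .nil)))))))) (.g (nat_lit 4) .nil .nil))) 
(.lf (nat_lit 150012) (.g (nat_lit 3260) (.e (nat_lit 57378) (nat_lit 3) (.e (nat_lit 98370) (nat_lit 28) (.e (nat_lit 442390) (nat_lit 11) (.e (nat_lit 336387) (nat_lit 27) (.e (nat_lit 426100) (nat_lit 1) (.e (nat_lit 164398) (nat_lit 256) .nil)))))) (.g (nat_lit 0) .nil .nil)))))))) (.nd (nat_lit 2) (.nd (nat_lit 3) (.nd (nat_lit 4) (.nd (nat_lit 5) (.nd (nat_lit 6) 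
(.lf (nat_lit 149890) (.g (nat_lit 3811) (.e (nat_lit 57378) (nat_lit 3) (.e (nat_lit 98365) (nat_lit 26) (.e (nat_lit 426188) (nat_lit 9) (.e (nat_lit 426566) (nat_lit 34) (.e (nat_lit 393251) (nat_lit 18) (.e (nat_lit 164399) (nat_lit 256) .nil)))))) (.g (nat_lit 0) .nil .nil))) 
(.lf (nat_lit 149954) (.g (nat_lit 2511) (.e (nat_lit 57378) (nat_lit 3) (.e (nat_lit 98367) (nat_lit 27) (.e (nat_lit 434231) (nat_lit 23) (.e (nat_lit 532507) (nat_lit 2) (.e (nat_lit 106540) (nat_lit 13) (.e (nat_lit 122936) (nat_lit 23) (.e (nat_lit 516117) (nat_lit 1) (.e (nat_lit 164401) (nat_lit 256) .nil)))))))) (.g (nat_lit 4) .nil .nil)))) (.nd (nat_lit 6) 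
(.lf (nat_lit 149922) (.g (nat_lit 2306) (.e (nat_lit 57378) (nat_lit 3) (.e (nat_lit 98365) (nat_lit 26) (.e (nat_lit 426325) (nat_lit 13) (.e (nat_lit 483355) (nat_lit 17) .nil)))) .nil)) 
(.lf (nat_lit 149986) (.g (nat_lit 2833) (.e (nat_lit 57378) (nat_lit 3) (.e (nat_lit 98367) (nat_lit 27) (.e (nat_lit 434248) (nat_lit 28) (.e (nat_lit 573487) (nat_lit 14) (.e (nat_lit 73747) (nat_lit 3) .nil))))) .nil)))) (.nd (nat_lit 5) (.nd (nat_lit 6) 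
(.lf (nat_lit 149906) (.g (nat_lit 3533) (.e (nat_lit 57378) (nat_lit 3) (.e (nat_lit 98365) (nat_lit 26) (.e (nat_lit 426190) (nat_lit 9) (.e (nat_lit 426566) (nat_lit 34) (.e (nat_lit 393253) (nat_lit 18) (.e (nat_lit 164403) (nat_lit 256) .nil)))))) (.g (nat_lit 5) .nil .nil))) 
(.lf (nat_lit 149970) (.g (nat_lit 2555) (.e (nat_lit 57378) (nat_lit 3) (.e (nat_lit 98367) (nat_lit 27) (.e (nat_lit 434244) (nat_lit 28) (.e (nat_lit 573481) (nat_lit 13) (.e (nat_lit 73472) (nat_lit 18) .nil))))) .nil))) (.nd (nat_lit 6) 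
(.lf (nat_lit 149938) (.g (nat_lit 3025) (.e (nat_lit 57378) (nat_lit 3) (.e (nat_lit 98366) (nat_lit 27) (.e (nat_lit 434231) (nat_lit 23) (.e (nat_lit 532507) (nat_lit 2) (.e (nat_lit 106538) (nat_lit 12) (.e (nat_lit 57465) (nat_lit 23) (.e (nat_lit 516115) (nat_lit 1) (.e (nat_lit 164399) (nat_lit 256) .nil)))))))) (.g (nat_lit 5) .nil .nil))) 
(.lf (nat_lit 150002) (.g (nat_lit 3465) (.e (nat_lit 57378) (nat_lit 3) (.e (nat_lit 98368) (nat_lit 27) (.e (nat_lit 434247) (nat_lit 28) (.e (nat_lit 573484) (nat_lit 13) (.e (nat_lit 65569) (nat_lit 3) (.e (nat_lit 98334) (nat_lit 18) (.e (nat_lit 171776) (nat_lit 160) .nil))))))) (.g (nat_lit 5) .nil .nil)))))) (.nd (nat_lit 4) (.nd (nat_lit 5) (.nd (nat_lit 6) 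
(.lf (nat_lit 149898) (.g (nat_lit 2439) (.e (nat_lit 57378) (nat_lit 3) (.e (nat_lit 98365) (nat_lit 26) (.e (nat_lit 426188) (nat_lit 9) (.e (nat_lit 426568) (nat_lit 34) (.e (nat_lit 393234) (nat_lit 17) (.e (nat_lit 2486) (nat_lit 157) (.e (nat_lit 5949) (nat_lit 322) .nil))))))) (.g (nat_lit 4) .nil .nil))) 
(.lf (nat_lit 149962) (.g (nat_lit 2731) (.e (nat_lit 57378) (nat_lit 3) (.e (nat_lit 98367) (nat_lit 27) (.e (nat_lit 434232) (nat_lit 23) (.e (nat_lit 532513) (nat_lit 3) (.e (nat_lit 114718) (nat_lit 23) (.e (nat_lit 98333) (nat_lit 18) (.e (nat_lit 164399) (nat_lit 256) .nil))))))) (.g (nat_lit 4) .nil .nil)))) (.nd (nat_lit 6) 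
(.lf (nat_lit 149930) (.g (nat_lit 2576) (.e (nat_lit 57378) (nat_lit 3) (.e (nat_lit 98366) (nat_lit 27) (.e (nat_lit 434231) (nat_lit 23) (.e (nat_lit 532490) (nat_lit 0) (.e (nat_lit 2155) (nat_lit 142) .nil))))) .nil)) 
(.lf (nat_lit 149994) (.g (nat_lit 2337) (.e (nat_lit 57378) (nat_lit 3) (.e (nat_lit 98368) (nat_lit 27) (.e (nat_lit 434245) (nat_lit 28) (.e (nat_lit 573481) (nat_lit 13) (.e (nat_lit 73472) (nat_lit 18) (.e (nat_lit 204840) (nat_lit 21) (.e (nat_lit 123198) (nat_lit 266) .nil))))))) (.g (nat_lit 4) .nil .nil))))) (.nd (nat_lit 5) (.nd (nat_lit 6) 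
(.lf (nat_lit 149914) (.g (nat_lit 2268) (.e (nat_lit 57378) (nat_lit 3) (.e (nat_lit 98365) (nat_lit 26) (.e (nat_lit 426325) (nat_lit 13) (.e (nat_lit 483337) (nat_lit 9) (.e (nat_lit 426009) (nat_lit 0) .nil))))) .nil)) 
(.lf (nat_lit 149978) (.g (nat_lit 3011) (.e (nat_lit 57378) (nat_lit 3) (.e (nat_lit 98367) (nat_lit 27) (.e (nat_lit 434247) (nat_lit 28) (.e (nat_lit 573484) (nat_lit 13) (.e (nat_lit 65569) (nat_lit 3) .nil))))) .nil))) (.nd (nat_lit 6) 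
(.lf (nat_lit 149946) (.g (nat_lit 3508) (.e (nat_lit 57378) (nat_lit 3) (.e (nat_lit 98367) (nat_lit 27) (.e (nat_lit 434231) (nat_lit 23) (.e (nat_lit 532490) (nat_lit 0) (.e (nat_lit 2155) (nat_lit 142) .nil))))) .nil)) 
(.lf (nat_lit 150010) (.g (nat_lit 203) (.e (nat_lit 57378) (nat_lit 3) (.e (nat_lit 98369) (nat_lit 28) (.e (nat_lit 450304) (nat_lit 18) .nil))) .nil)))))) (.nd (nat_lit 3) (.nd (nat_lit 4) (.nd (nat_lit 5) (.nd (nat_lit 6) 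
(.lf (nat_lit 149894) (.g (nat_lit 2465) (.e (nat_lit 57378) (nat_lit 3) (.e (nat_lit 98365) (nat_lit 26) (.e (nat_lit 426188) (nat_lit 9) (.e (nat_lit 426566) (nat_lit 34) (.e (nat_lit 393254) (nat_lit 18) (.e (nat_lit 164402) (nat_lit 256) .nil)))))) (.g (nat_lit 5) .nil .nil))) 
(.lf (nat_lit 149958) (.g (nat_lit 1382) (.e (nat_lit 57378) (nat_lit 3) (.e (nat_lit 98367) (nat_lit 27) (.e (nat_lit 434231) (nat_lit 23) (.e (nat_lit 532514) (nat_lit 3) .nil)))) .nil))) (.nd (nat_lit 6) 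
(.lf (nat_lit 149926) (.g (nat_lit 2752) (.e (nat_lit 57378) (nat_lit 3) (.e (nat_lit 98365) (nat_lit 26) (.e (nat_lit 426334) (nat_lit 13) (.e (nat_lit 483341) (nat_lit 9) (.e (nat_lit 426100) (nat_lit 1) (.e (nat_lit 164399) (nat_lit 256) .nil)))))) (.g (nat_lit 5) .nil .nil))) 
(.lf (nat_lit 149990) (.g (nat_lit 3522) (.e (nat_lit 57378) (nat_lit 3) (.e (nat_lit 98368) (nat_lit 27) (.e (nat_lit 434231) (nat_lit 23) (.e (nat_lit 532483) (nat_lit 0) (.e (nat_lit 2198) (nat_lit 144) .nil))))) .nil)))) (.nd (nat_lit 5) (.nd (nat_lit 6) 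
(.lf (nat_lit 149910) (.g (nat_lit 2155) (.e (nat_lit 57378) (nat_lit 3) (.e (nat_lit 98365) (nat_lit 26) (.e (nat_lit 426298) (nat_lit 11) (.e (nat_lit 458789) (nat_lit 23) (.e (nat_lit 532555) (nat_lit 13) (.e (nat_lit 368659) (nat_lit 18) (.e (nat_lit 7936) (nat_lit 283) .nil))))))) (.g (nat_lit 5) .nil .nil))) 
(.lf (nat_lit 149974) (.g (nat_lit 1647) (.e (nat_lit 57378) (nat_lit 3) (.e (nat_lit 98367) (nat_lit 27) (.e (nat_lit 434245) (nat_lit 28) (.e (nat_lit 573488) (nat_lit 14) .nil)))) .nil))) (.nd (nat_lit 6) 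
(.lf (nat_lit 149942) (.g (nat_lit 3202) (.e (nat_lit 57378) (nat_lit 3) (.e (nat_lit 98366) (nat_lit 27) (.e (nat_lit 434244) (nat_lit 28) (.e (nat_lit 573481) (nat_lit 13) (.e (nat_lit 73472) (nat_lit 18) (.e (nat_lit 204839) (nat_lit 21) (.e (nat_lit 123198) (nat_lit 266) .nil))))))) (.g (nat_lit 4) .nil .nil))) 
(.lf (nat_lit 150006) (.g (nat_lit 2677) (.e (nat_lit 57378) (nat_lit 3) (.e (nat_lit 98368) (nat_lit 27) (.e (nat_lit 434248) (nat_lit 28) (.e (nat_lit 573487) (nat_lit 14) (.e (nat_lit 73746) (nat_lit 3) (.e (nat_lit 516117) (nat_lit 1) (.e (nat_lit 171776) (nat_lit 160) .nil))))))) (.g (nat_lit 4) .nil .nil)))))) (.nd (nat_lit 4) (.nd (nat_lit 5) (.nd (nat_lit 6) 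
(.lf (nat_lit 149902) (.g (nat_lit 3899) (.e (nat_lit 57378) (nat_lit 3) (.e (nat_lit 98365) (nat_lit 26) (.e (nat_lit 426189) (nat_lit 9) (.e (nat_lit 426566) (nat_lit 34) (.e (nat_lit 393253) (nat_lit 18) (.e (nat_lit 164403) (nat_lit 256) .nil)))))) (.g (nat_lit 5) .nil .nil))) 
(.lf (nat_lit 149966) (.g (nat_lit 895) (.e (nat_lit 57378) (nat_lit 3) (.e (nat_lit 98367) (nat_lit 27) (.e (nat_lit 434234) (nat_lit 23) .nil))) .nil))) (.nd (nat_lit 6) 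
(.lf (nat_lit 149934) (.g (nat_lit 2753) (.e (nat_lit 57378) (nat_lit 3) (.e (nat_lit 98366) (nat_lit 27) (.e (nat_lit 434231) (nat_lit 23) (.e (nat_lit 532506) (nat_lit 2) (.e (nat_lit 106540) (nat_lit 13) (.e (nat_lit 122936) (nat_lit 23) (.e (nat_lit 516117) (nat_lit 1) (.e (nat_lit 164398) (nat_lit 256) .nil)))))))) (.g (nat_lit 4) .nil .nil))) 
(.lf (nat_lit 149998) (.g (nat_lit 2840) (.e (nat_lit 57378) (nat_lit 3) (.e (nat_lit 98368) (nat_lit 27) (.e (nat_lit 434245) (nat_lit 28) (.e (nat_lit 573487) (nat_lit 14) (.e (nat_lit 73747) (nat_lit 3) (.e (nat_lit 516115) (nat_lit 1) (.e (nat_lit 171776) (nat_lit 160) .nil))))))) (.g (nat_lit 4) .nil .nil))))) (.nd (nat_lit 5) (.nd (nat_lit 6) 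
(.lf (nat_lit 149918) (.g (nat_lit 2408) (.e (nat_lit 57378) (nat_lit 3) (.e (nat_lit 98365) (nat_lit 26) (.e (nat_lit 426325) (nat_lit 13) (.e (nat_lit 483341) (nat_lit 9) (.e (nat_lit 426009) (nat_lit 0) .nil))))) .nil)) 
(.lf (nat_lit 149982) (.g (nat_lit 2080) (.e (nat_lit 57378) (nat_lit 3) (.e (nat_lit 98367) (nat_lit 27) (.e (nat_lit 434248) (nat_lit 28) (.e (nat_lit 573480) (nat_lit 13) .nil)))) .nil))) (.nd (nat_lit 6) 
(.lf (nat_lit 149950) (.g (nat_lit 2405) (.e (nat_lit 57378) (nat_lit 3) (.e (nat_lit 98367) (nat_lit 27) (.e (nat_lit 434231) (nat_lit 23) (.e (nat_lit 532507) (nat_lit 2) (.e (nat_lit 106537) (nat_lit 12) (.e (nat_lit 57464) (nat_lit 23) (.e (nat_lit 516116) (nat_lit 1) (.e (nat_lit 164398) (nat_lit 256) .nil)))))))) (.g (nat_lit 4) .nil .nil))) 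
(.lf (nat_lit 150014) (.g (nat_lit 447) (.e (nat_lit 57378) (nat_lit 3) (.e (nat_lit 98370) (nat_lit 28) (.e (nat_lit 450304) (nat_lit 18) .nil))) .nil)))))))) (.nd (nat_lit 1) (.nd (nat_lit 2) (.nd (nat_lit 3) (.nd (nat_lit 4) (.nd (nat_lit 5) (.nd (nat_lit 6) 
(.lf (nat_lit 149889) (.g (nat_lit 2667) (.e (nat_lit 57378) (nat_lit 3) (.e (nat_lit 98365) (nat_lit 26) (.e (nat_lit 426188) (nat_lit 9) (.e (nat_lit 426566) (nat_lit 34) (.e (nat_lit 393235) (nat_lit 17) (.e (nat_lit 2466) (nat_lit 157) (.e (nat_lit 5937) (nat_lit 322) .nil))))))) (.g (nat_lit 4) .nil .nil))) 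
(.lf (nat_lit 149953) (.g (nat_lit 2685) (.e (nat_lit 57378) (nat_lit 3) (.e (nat_lit 98367) (nat_lit 27) (.e (nat_lit 434231) (nat_lit 23) (.e (nat_lit 532507) (nat_lit 2) (.e (nat_lit 106538) (nat_lit 12) (.e (nat_lit 57465) (nat_lit 23) (.e (nat_lit 516115) (nat_lit 1) (.e (nat_lit 164399) (nat_lit 256) .nil)))))))) (.g (nat_lit 4) .nil .nil)))) (.nd (nat_lit 6) 
(.lf (nat_lit 149921) (.g (nat_lit 1012) (.e (nat_lit 57378) (nat_lit 3) (.e (nat_lit 98365) (nat_lit 26) (.e (nat_lit 426325) (nat_lit 13) (.e (nat_lit 491264) (nat_lit 10) .nil)))) .nil)) 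
(.lf (nat_lit 149985) (.g (nat_lit 3667) (.e (nat_lit 57378) (nat_lit 3) (.e (nat_lit 98367) (nat_lit 27) (.e (nat_lit 434248) (nat_lit 28) (.e (nat_lit 573482) (nat_lit 13) (.e (nat_lit 73472) (nat_lit 18) (.e (nat_lit 204839) (nat_lit 21) (.e (nat_lit 123198) (nat_lit 266) .nil))))))) (.g (nat_lit 4) .nil .nil))))) (.nd (nat_lit 5) (.nd (nat_lit 6) 
(.lf (nat_lit 149905) (.g (nat_lit 3002) (.e (nat_lit 57378) (nat_lit 3) (.e (nat_lit 98365) (nat_lit 26) (.e (nat_lit 426190) (nat_lit 9) (.e (nat_lit 426566) (nat_lit 34) (.e (nat_lit 393253) (nat_lit 18) (.e (nat_lit 164401) (nat_lit 256) .nil)))))) (.g (nat_lit 4) .nil .nil))) 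
(.lf (nat_lit 149969) (.g (nat_lit 1557) (.e (nat_lit 57378) (nat_lit 3) (.e (nat_lit 98367) (nat_lit 27) (.e (nat_lit 434244) (nat_lit 28) (.e (nat_lit 573481) (nat_lit 13) .nil)))) .nil))) (.nd (nat_lit 6) 
(.lf (nat_lit 149937) (.g (nat_lit 2400) (.e (nat_lit 57378) (nat_lit 3) (.e (nat_lit 98366) (nat_lit 27) (.e (nat_lit 434231) (nat_lit 23) (.e (nat_lit 532507) (nat_lit 2) (.e (nat_lit 106537) (nat_lit 12) (.e (nat_lit 57467) (nat_lit 23) (.e (nat_lit 516115) (nat_lit 1) (.e (nat_lit 164399) (nat_lit 256) .nil)))))))) (.g (nat_lit 4) .nil .nil))) 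
(.lf (nat_lit 150001) (.g (nat_lit 2902) (.e (nat_lit 57378) (nat_lit 3) (.e (nat_lit 98368) (nat_lit 27) (.e (nat_lit 434247) (nat_lit 28) (.e (nat_lit 573484) (nat_lit 13) (.e (nat_lit 65566) (nat_lit 2) (.e (nat_lit 90165) (nat_lit 12) (.e (nat_lit 163849) (nat_lit 0) (.e (nat_lit 6830) (nat_lit 367) .nil)))))))) (.g (nat_lit 4) .nil .nil)))))) 
(.nd (nat_lit 4) (.nd (nat_lit 5) (.nd (nat_lit 6) 
(.lf (nat_lit 149897) (.g (nat_lit 1958) (.e (nat_lit 57378) (nat_lit 3) (.e (nat_lit 98365) (nat_lit 26) (.e (nat_lit 426188) (nat_lit 9) (.e (nat_lit 426568) (nat_lit 34) (.e (nat_lit 393234) (nat_lit 17) .nil))))) .nil)) 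
(.lf (nat_lit 149961) (.g (nat_lit 972) (.e (nat_lit 57378) (nat_lit 3) (.e (nat_lit 98367) (nat_lit 27) (.e (nat_lit 434232) (nat_lit 23) .nil))) .nil))) (.nd (nat_lit 6) 
(.lf (nat_lit 149929) (.g (nat_lit 2468) (.e (nat_lit 57378) (nat_lit 3) (.e (nat_lit 98366) (nat_lit 27) (.e (nat_lit 434231) (nat_lit 23) (.e (nat_lit 532483) (nat_lit 0) .nil)))) .nil)) 
(.lf (nat_lit 149993) (.g (nat_lit 2649) (.e (nat_lit 57378) (nat_lit 3) (.e (nat_lit 98368) (nat_lit 27) (.e (nat_lit 434245) (nat_lit 28) (.e (nat_lit 573481) (nat_lit 13) (.e (nat_lit 73472) (nat_lit 18) (.e (nat_lit 204839) (nat_lit 21) (.e (nat_lit 123197) (nat_lit 266) .nil))))))) (.g (nat_lit 4) .nil .nil))))) (.nd (nat_lit 5) (.nd (nat_lit 6) 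
(.lf (nat_lit 149913) (.g (nat_lit 972) (.e (nat_lit 57378) (nat_lit 3) (.e (nat_lit 98365) (nat_lit 26) (.e (nat_lit 426306) (nat_lit 12) (.e (nat_lit 475179) (nat_lit 24) .nil)))) .nil)) 
(.lf (nat_lit 149977) (.g (nat_lit 756) (.e (nat_lit 57378) (nat_lit 3) (.e (nat_lit 98367) (nat_lit 27) (.e (nat_lit 434247) (nat_lit 28) .nil))) .nil))) (.nd (nat_lit 6) 
(.lf (nat_lit 149945) (.g (nat_lit 2526) (.e (nat_lit 57378) (nat_lit 3) (.e (nat_lit 98367) (nat_lit 27) (.e (nat_lit 434231) (nat_lit 23) (.e (nat_lit 532483) (nat_lit 0) .nil)))) .nil)) 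
(.lf (nat_lit 150009) (.g (nat_lit 3071) (.e (nat_lit 57378) (nat_lit 3) (.e (nat_lit 98369) (nat_lit 28) (.e (nat_lit 442390) (nat_lit 11) (.e (nat_lit 336387) (nat_lit 27) (.e (nat_lit 426100) (nat_lit 1) (.e (nat_lit 164398) (nat_lit 256) .nil)))))) (.g (nat_lit 0) .nil .nil))))))) (.nd (nat_lit 3) (.nd (nat_lit 4) (.nd (nat_lit 5) (.nd (nat_lit 6) 
(.lf (nat_lit 149893) (.g (nat_lit 2903) (.e (nat_lit 57378) (nat_lit 3) (.e (nat_lit 98365) (nat_lit 26) (.e (nat_lit 426188) (nat_lit 9) (.e (nat_lit 426566) (nat_lit 34) (.e (nat_lit 393253) (nat_lit 18) (.e (nat_lit 164402) (nat_lit 256) .nil)))))) (.g (nat_lit 5) .nil .nil))) 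
(.lf (nat_lit 149957) (.g (nat_lit 2380) (.e (nat_lit 57378) (nat_lit 3) (.e (nat_lit 98367) (nat_lit 27) (.e (nat_lit 434231) (nat_lit 23) (.e (nat_lit 532513) (nat_lit 3) (.e (nat_lit 114714) (nat_lit 22) .nil))))) .nil))) (.nd (nat_lit 6) 
(.lf (nat_lit 149925) (.g (nat_lit 2645) (.e (nat_lit 57378) (nat_lit 3) (.e (nat_lit 98365) (nat_lit 26) (.e (nat_lit 426334) (nat_lit 13) (.e (nat_lit 483341) (nat_lit 9) (.e (nat_lit 426098) (nat_lit 1) (.e (nat_lit 164399) (nat_lit 256) .nil)))))) (.g (nat_lit 5) .nil .nil))) 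
(.lf (nat_lit 149989) (.g (nat_lit 2861) (.e (nat_lit 57378) (nat_lit 3) (.e (nat_lit 98367) (nat_lit 27) (.e (nat_lit 434248) (nat_lit 28) (.e (nat_lit 573489) (nat_lit 14) (.e (nat_lit 73755) (nat_lit 8) .nil))))) .nil)))) (.nd (nat_lit 5) (.nd (nat_lit 6) 
(.lf (nat_lit 149909) (.g (nat_lit 3029) (.e (nat_lit 57378) (nat_lit 3) (.e (nat_lit 98365) (nat_lit 26) (.e (nat_lit 426298) (nat_lit 11) (.e (nat_lit 458789) (nat_lit 23) (.e (nat_lit 532553) (nat_lit 13) (.e (nat_lit 368662) (nat_lit 18) (.e (nat_lit 7936) (nat_lit 283) .nil))))))) (.g (nat_lit 6) .nil .nil))) 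
(.lf (nat_lit 149973) (.g (nat_lit 1667) (.e (nat_lit 57378) (nat_lit 3) (.e (nat_lit 98367) (nat_lit 27) (.e (nat_lit 434245) (nat_lit 28) (.e (nat_lit 573487) (nat_lit 14) .nil)))) .nil))) (.nd (nat_lit 6) 
(.lf (nat_lit 149941) (.g (nat_lit 2899) (.e (nat_lit 57378) (nat_lit 3) (.e (nat_lit 98366) (nat_lit 27) (.e (nat_lit 434231) (nat_lit 23) (.e (nat_lit 532514) (nat_lit 3) (.e (nat_lit 114706) (nat_lit 20) (.e (nat_lit 1796) (nat_lit 119) (.e (nat_lit 516115) (nat_lit 1) (.e (nat_lit 164399) (nat_lit 256) .nil)))))))) (.g (nat_lit 4) .nil .nil))) 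
(.lf (nat_lit 150005) (.g (nat_lit 3107) (.e (nat_lit 57378) (nat_lit 3) (.e (nat_lit 98368) (nat_lit 27) (.e (nat_lit 434248) (nat_lit 28) (.e (nat_lit 573487) (nat_lit 14) (.e (nat_lit 73746) (nat_lit 3) (.e (nat_lit 516115) (nat_lit 1) (.e (nat_lit 171776) (nat_lit 160) .nil))))))) (.g (nat_lit 4) .nil .nil)))))) (.nd (nat_lit 4) (.nd (nat_lit 5) (.nd (nat_lit 6) 
(.lf (nat_lit 149901) (.g (nat_lit 3395) (.e (nat_lit 57378) (nat_lit 3) (.e (nat_lit 98365) (nat_lit 26) (.e (nat_lit 426189) (nat_lit 9) (.e (nat_lit 426566) (nat_lit 34) (.e (nat_lit 393253) (nat_lit 18) (.e (nat_lit 164401) (nat_lit 256) .nil)))))) (.g (nat_lit 5) .nil .nil))) 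
(.lf (nat_lit 149965) (.g (nat_lit 2945) (.e (nat_lit 57378) (nat_lit 3) (.e (nat_lit 98367) (nat_lit 27) (.e (nat_lit 434232) (nat_lit 23) (.e (nat_lit 532513) (nat_lit 3) (.e (nat_lit 114718) (nat_lit 23) (.e (nat_lit 98335) (nat_lit 18) (.e (nat_lit 164403) (nat_lit 256) .nil))))))) (.g (nat_lit 4) .nil .nil)))) (.nd (nat_lit 6) 
(.lf (nat_lit 149933) (.g (nat_lit 3080) (.e (nat_lit 57378) (nat_lit 3) (.e (nat_lit 98366) (nat_lit 27) (.e (nat_lit 434231) (nat_lit 23) (.e (nat_lit 532506) (nat_lit 2) (.e (nat_lit 106539) (nat_lit 12) (.e (nat_lit 57466) (nat_lit 23) (.e (nat_lit 516119) (nat_lit 1) (.e (nat_lit 164403) (nat_lit 256) .nil)))))))) (.g (nat_lit 4) .nil .nil))) 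
(.lf (nat_lit 149997) (.g (nat_lit 2663) (.e (nat_lit 57378) (nat_lit 3) (.e (nat_lit 98368) (nat_lit 27) (.e (nat_lit 434245) (nat_lit 28) (.e (nat_lit 573487) (nat_lit 14) (.e (nat_lit 73746) (nat_lit 3) (.e (nat_lit 516119) (nat_lit 1) (.e (nat_lit 171776) (nat_lit 160) .nil))))))) (.g (nat_lit 4) .nil .nil))))) (.nd (nat_lit 5) (.nd (nat_lit 6) 
(.lf (nat_lit 149917) (.g (nat_lit 2306) (.e (nat_lit 57378) (nat_lit 3) (.e (nat_lit 98365) (nat_lit 26) (.e (nat_lit 426325) (nat_lit 13) (.e (nat_lit 483338) (nat_lit 9) .nil)))) .nil)) 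
(.lf (nat_lit 149981) (.g (nat_lit 804) (.e (nat_lit 57378) (nat_lit 3) (.e (nat_lit 98367) (nat_lit 27) (.e (nat_lit 434248) (nat_lit 28) .nil))) .nil))) (.nd (nat_lit 6) 
(.lf (nat_lit 149949) (.g (nat_lit 1688) (.e (nat_lit 57378) (nat_lit 3) (.e (nat_lit 98367) (nat_lit 27) (.e (nat_lit 434231) (nat_lit 23) (.e (nat_lit 532507) (nat_lit 2) .nil)))) .nil)) 
(.lf (nat_lit 150013) (.g (nat_lit 2812) (.e (nat_lit 57378) (nat_lit 3) (.e (nat_lit 98370) (nat_lit 28) (.e (nat_lit 442390) (nat_lit 11) (.e (nat_lit 336387) (nat_lit 27) (.e (nat_lit 426108) (nat_lit 1) (.e (nat_lit 164402) (nat_lit 256) .nil)))))) (.g (nat_lit 5) .nil .nil)))))))) (.nd (nat_lit 2) (.nd (nat_lit 3) (.nd (nat_lit 4) (.nd (nat_lit 5) (.nd (nat_lit 6) 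
(.lf (nat_lit 149891) (.g (nat_lit 2990) (.e (nat_lit 57378) (nat_lit 3) (.e (nat_lit 98365) (nat_lit 26) (.e (nat_lit 426188) (nat_lit 9) (.e (nat_lit 426566) (nat_lit 34) (.e (nat_lit 393251) (nat_lit 18) (.e (nat_lit 164402) (nat_lit 256) .nil)))))) (.g (nat_lit 5) .nil .nil))) 
(.lf (nat_lit 149955) (.g (nat_lit 2578) (.e (nat_lit 57378) (nat_lit 3) (.e (nat_lit 98367) (nat_lit 27) (.e (nat_lit 434231) (nat_lit 23) (.e (nat_lit 532507) (nat_lit 2) (.e (nat_lit 106540) (nat_lit 13) (.e (nat_lit 122936) (nat_lit 23) (.e (nat_lit 516117) (nat_lit 1) (.e (nat_lit 164403) (nat_lit 256) .nil)))))))) (.g (nat_lit 4) .nil .nil)))) (.nd (nat_lit 6) 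
(.lf (nat_lit 149923) (.g (nat_lit 427) (.e (nat_lit 57378) (nat_lit 3) (.e (nat_lit 98365) (nat_lit 26) (.e (nat_lit 426326) (nat_lit 13) .nil))) .nil)) 
(.lf (nat_lit 149987) (.g (nat_lit 2832) (.e (nat_lit 57378) (nat_lit 3) (.e (nat_lit 98367) (nat_lit 27) (.e (nat_lit 434248) (nat_lit 28) (.e (nat_lit 573487) (nat_lit 14) (.e (nat_lit 73753) (nat_lit 8) .nil))))) .nil)))) (.nd (nat_lit 5) (.nd (nat_lit 6) 
(.lf (nat_lit 149907) (.g (nat_lit 525) (.e (nat_lit 57378) (nat_lit 3) (.e (nat_lit 98365) (nat_lit 26) (.e (nat_lit 426197) (nat_lit 9) .nil))) .nil)) 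
(.lf (nat_lit 149971) (.g (nat_lit 3271) (.e (nat_lit 57378) (nat_lit 3) (.e (nat_lit 98367) (nat_lit 27) (.e (nat_lit 434244) (nat_lit 28) (.e (nat_lit 573481) (nat_lit 13) (.e (nat_lit 73472) (nat_lit 18) (.e (nat_lit 204839) (nat_lit 21) (.e (nat_lit 123198) (nat_lit 266) .nil))))))) (.g (nat_lit 4) .nil .nil)))) (.nd (nat_lit 6) 
(.lf (nat_lit 149939) (.g (nat_lit 2837) (.e (nat_lit 57378) (nat_lit 3) (.e (nat_lit 98366) (nat_lit 27) (.e (nat_lit 434231) (nat_lit 23) (.e (nat_lit 532507) (nat_lit 2) (.e (nat_lit 106540) (nat_lit 13) (.e (nat_lit 122936) (nat_lit 23) (.e (nat_lit 516117) (nat_lit 1) (.e (nat_lit 164401) (nat_lit 256) .nil)))))))) (.g (nat_lit 4) .nil .nil))) 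
(.lf (nat_lit 150003) (.g (nat_lit 1948) (.e (nat_lit 57378) (nat_lit 3) (.e (nat_lit 98368) (nat_lit 27) (.e (nat_lit 434248) (nat_lit 28) (.e (nat_lit 573480) (nat_lit 13) (.e (nat_lit 73472) (nat_lit 18) .nil))))) .nil))))) (.nd (nat_lit 4) (.nd (nat_lit 5) (.nd (nat_lit 6) 
(.lf (nat_lit 149899) (.g (nat_lit 3586) (.e (nat_lit 57378) (nat_lit 3) (.e (nat_lit 98365) (nat_lit 26) (.e (nat_lit 426188) (nat_lit 9) (.e (nat_lit 426568) (nat_lit 34) (.e (nat_lit 393234) (nat_lit 17) (.e (nat_lit 2524) (nat_lit 157) (.e (nat_lit 5949) (nat_lit 322) .nil))))))) (.g (nat_lit 5) .nil .nil))) 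
(.lf (nat_lit 149963) (.g (nat_lit 2399) (.e (nat_lit 57378) (nat_lit 3) (.e (nat_lit 98367) (nat_lit 27) (.e (nat_lit 434232) (nat_lit 23) (.e (nat_lit 532513) (nat_lit 3) (.e (nat_lit 114718) (nat_lit 23) (.e (nat_lit 98334) (nat_lit 18) (.e (nat_lit 164398) (nat_lit 256) .nil))))))) (.g (nat_lit 4) .nil .nil)))) (.nd (nat_lit 6) 
(.lf (nat_lit 149931) (.g (nat_lit 2127) (.e (nat_lit 57378) (nat_lit 3) (.e (nat_lit 98366) (nat_lit 27) (.e (nat_lit 434231) (nat_lit 23) (.e (nat_lit 532506) (nat_lit 2) (.e (nat_lit 106537) (nat_lit 12) .nil))))) .nil)) 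
(.lf (nat_lit 149995) (.g (nat_lit 3275) (.e (nat_lit 57378) (nat_lit 3) (.e (nat_lit 98368) (nat_lit 27) (.e (nat_lit 434245) (nat_lit 28) (.e (nat_lit 573487) (nat_lit 14) (.e (nat_lit 73746) (nat_lit 3) (.e (nat_lit 516115) (nat_lit 1) (.e (nat_lit 171776) (nat_lit 160) .nil))))))) (.g (nat_lit 5) .nil .nil))))) (.nd (nat_lit 5) (.nd (nat_lit 6) 
(.lf (nat_lit 149915) (.g (nat_lit 2019) (.e (nat_lit 57378) (nat_lit 3) (.e (nat_lit 98365) (nat_lit 26) (.e (nat_lit 426325) (nat_lit 13) (.e (nat_lit 483337) (nat_lit 9) (.e (nat_lit 426031) (nat_lit 0) .nil))))) .nil)) 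
(.lf (nat_lit 149979) (.g (nat_lit 2556) (.e (nat_lit 57378) (nat_lit 3) (.e (nat_lit 98367) (nat_lit 27) (.e (nat_lit 434247) (nat_lit 28) (.e (nat_lit 573485) (nat_lit 13) (.e (nat_lit 65568) (nat_lit 2) .nil))))) .nil))) (.nd (nat_lit 6) 
(.lf (nat_lit 149947) (.g (nat_lit 1608) (.e (nat_lit 57378) (nat_lit 3) (.e (nat_lit 98367) (nat_lit 27) (.e (nat_lit 434231) (nat_lit 23) (.e (nat_lit 532506) (nat_lit 2) .nil)))) .nil)) 
(.lf (nat_lit 150011) (.g (nat_lit 3286) (.e (nat_lit 57378) (nat_lit 3) (.e (nat_lit 98370) (nat_lit 28) (.e (nat_lit 442390) (nat_lit 11) (.e (nat_lit 336387) (nat_lit 27) (.e (nat_lit 426098) (nat_lit 1) (.e (nat_lit 164398) (nat_lit 256) .nil)))))) (.g (nat_lit 0) .nil .nil))))))) (.nd (nat_lit 3) (.nd (nat_lit 4) (.nd (nat_lit 5) (.nd (nat_lit 6) 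
(.lf (nat_lit 149895) (.g (nat_lit 2486) (.e (nat_lit 57378) (nat_lit 3) (.e (nat_lit 98365) (nat_lit 26) (.e (nat_lit 426188) (nat_lit 9) (.e (nat_lit 426567) (nat_lit 34) (.e (nat_lit 393251) (nat_lit 18) (.e (nat_lit 164399) (nat_lit 256) .nil)))))) (.g (nat_lit 4) .nil .nil))) 
(.lf (nat_lit 149959) (.g (nat_lit 2015) (.e (nat_lit 57378) (nat_lit 3) (.e (nat_lit 98367) (nat_lit 27) (.e (nat_lit 434231) (nat_lit 23) (.e (nat_lit 532514) (nat_lit 3) (.e (nat_lit 114702) (nat_lit 20) .nil))))) .nil))) (.nd (nat_lit 6) 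
(.lf (nat_lit 149927) (.g (nat_lit 2819) (.e (nat_lit 57378) (nat_lit 3) (.e (nat_lit 98365) (nat_lit 26) (.e (nat_lit 426334) (nat_lit 13) (.e (nat_lit 483341) (nat_lit 9) (.e (nat_lit 426107) (nat_lit 1) (.e (nat_lit 164403) (nat_lit 256) .nil)))))) (.g (nat_lit 5) .nil .nil))) 
(.lf (nat_lit 149991) (.g (nat_lit 1565) (.e (nat_lit 57378) (nat_lit 3) (.e (nat_lit 98368) (nat_lit 27) (.e (nat_lit 434231) (nat_lit 23) (.e (nat_lit 532507) (nat_lit 2) .nil)))) .nil)))) (.nd (nat_lit 5) (.nd (nat_lit 6) 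
(.lf (nat_lit 149911) (.g (nat_lit 2828) (.e (nat_lit 57378) (nat_lit 3) (.e (nat_lit 98365) (nat_lit 26) (.e (nat_lit 426298) (nat_lit 11) (.e (nat_lit 458789) (nat_lit 23) (.e (nat_lit 532555) (nat_lit 13) (.e (nat_lit 368662) (nat_lit 18) (.e (nat_lit 7936) (nat_lit 283) .nil))))))) (.g (nat_lit 6) .nil .nil))) 
(.lf (nat_lit 149975) (.g (nat_lit 983) (.e (nat_lit 57378) (nat_lit 3) (.e (nat_lit 98367) (nat_lit 27) (.e (nat_lit 434246) (nat_lit 28) .nil))) .nil))) (.nd (nat_lit 6) 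
(.lf (nat_lit 149943) (.g (nat_lit 1852) (.e (nat_lit 57378) (nat_lit 3) (.e (nat_lit 98366) (nat_lit 27) (.e (nat_lit 434245) (nat_lit 28) (.e (nat_lit 573481) (nat_lit 13) (.e (nat_lit 73472) (nat_lit 18) .nil))))) .nil)) 
(.lf (nat_lit 150007) (.g (nat_lit 2605) (.e (nat_lit 57378) (nat_lit 3) (.e (nat_lit 98368) (nat_lit 27) (.e (nat_lit 434248) (nat_lit 28) (.e (nat_lit 573487) (nat_lit 14) (.e (nat_lit 73747) (nat_lit 3) (.e (nat_lit 516119) (nat_lit 1) (.e (nat_lit 171776) (nat_lit 160) .nil))))))) (.g (nat_lit 4) .nil .nil)))))) (.nd (nat_lit 4) (.nd (nat_lit 5) (.nd (nat_lit 6) 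
(.lf (nat_lit 149903) (.g (nat_lit 2406) (.e (nat_lit 57378) (nat_lit 3) (.e (nat_lit 98365) (nat_lit 26) (.e (nat_lit 426190) (nat_lit 9) (.e (nat_lit 426566) (nat_lit 34) (.e (nat_lit 393251) (nat_lit 18) (.e (nat_lit 164399) (nat_lit 256) .nil)))))) (.g (nat_lit 4) .nil .nil))) 
(.lf (nat_lit 149967) (.g (nat_lit 1257) (.e (nat_lit 57378) (nat_lit 3) (.e (nat_lit 98367) (nat_lit 27) (.e (nat_lit 434234) (nat_lit 23) (.e (nat_lit 532515) (nat_lit 3) .nil)))) .nil))) (.nd (nat_lit 6) 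
(.lf (nat_lit 149935) (.g (nat_lit 2605) (.e (nat_lit 57378) (nat_lit 3) (.e (nat_lit 98366) (nat_lit 27) (.e (nat_lit 434231) (nat_lit 23) (.e (nat_lit 532506) (nat_lit 2) (.e (nat_lit 106540) (nat_lit 13) (.e (nat_lit 122936) (nat_lit 23) (.e (nat_lit 516117) (nat_lit 1) (.e (nat_lit 164401) (nat_lit 256) .nil)))))))) (.g (nat_lit 4) .nil .nil))) 
(.lf (nat_lit 149999) (.g (nat_lit 2271) (.e (nat_lit 57378) (nat_lit 3) (.e (nat_lit 98368) (nat_lit 27) (.e (nat_lit 434245) (nat_lit 28) (.e (nat_lit 573487) (nat_lit 14) (.e (nat_lit 73747) (nat_lit 3) (.e (nat_lit 516119) (nat_lit 1) (.e (nat_lit 171776) (nat_lit 160) .nil))))))) (.g (nat_lit 4) .nil .nil))))) (.nd (nat_lit 5) (.nd (nat_lit 6) 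
(.lf (nat_lit 149919) (.g (nat_lit 2335) (.e (nat_lit 57378) (nat_lit 3) (.e (nat_lit 98365) (nat_lit 26) (.e (nat_lit 426325) (nat_lit 13) (.e (nat_lit 483341) (nat_lit 9) (.e (nat_lit 426031) (nat_lit 0) .nil))))) .nil)) 
(.lf (nat_lit 149983) (.g (nat_lit 1731) (.e (nat_lit 57378) (nat_lit 3) (.e (nat_lit 98367) (nat_lit 27) (.e (nat_lit 434248) (nat_lit 28) (.e (nat_lit 573482) (nat_lit 13) .nil)))) .nil))) (.nd (nat_lit 6) 
(.lf (nat_lit 149951) (.g (nat_lit 2643) (.e (nat_lit 57378) (nat_lit 3) (.e (nat_lit 98367) (nat_lit 27) (.e (nat_lit 434231) (nat_lit 23) (.e (nat_lit 532507) (nat_lit 2) (.e (nat_lit 106537) (nat_lit 12) (.e (nat_lit 57465) (nat_lit 23) (.e (nat_lit 516115) (nat_lit 1) (.e (nat_lit 164399) (nat_lit 256) .nil)))))))) (.g (nat_lit 4) .nil .nil))) 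
(.lf (nat_lit 150015) (.g (nat_lit 1232) (.e (nat_lit 57378) (nat_lit 3) (.e (nat_lit 98372) (nat_lit 29) (.e (nat_lit 450561) (nat_lit 0) (.e (nat_lit 6595) (nat_lit 351) .nil)))) .nil)))))))))

noncomputable def tv1999 : DT := (.nd (nat_lit 0) (.nd (nat_lit 1) (.nd (nat_lit 2) (.nd (nat_lit 3) (.nd (nat_lit 4) (.nd (nat_lit 5) (.nd (nat_lit 6) 
(.lf (nat_lit 150016) (.g (nat_lit 1835) (.e (nat_lit 57378) (nat_lit 3) (.e (nat_lit 98372) (nat_lit 29) (.e (nat_lit 450562) (nat_lit 0) (.e (nat_lit 6595) (nat_lit 351) .nil)))) .nil)) 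
(.lf (nat_lit 150080) (.g (nat_lit 3618) (.e (nat_lit 57378) (nat_lit 3) (.e (nat_lit 98377) (nat_lit 30) (.e (nat_lit 458789) (nat_lit 23) (.e (nat_lit 532515) (nat_lit 3) (.e (nat_lit 114719) (nat_lit 23) (.e (nat_lit 98333) (nat_lit 18) (.e (nat_lit 164398) (nat_lit 256) .nil))))))) (.g (nat_lit 6) .nil .nil)))) (.nd (nat_lit 6) 
(.lf (nat_lit 150048) (.g (nat_lit 3193) (.e (nat_lit 57378) (nat_lit 3) (.e (nat_lit 98373) (nat_lit 29) (.e (nat_lit 450563) (nat_lit 0) (.e (nat_lit 6595) (nat_lit 351) (.e (nat_lit 2639) (nat_lit 165) .nil))))) .nil)) 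
(.lf (nat_lit 150112) (.g (nat_lit 3804) (.e (nat_lit 57378) (nat_lit 3) (.e (nat_lit 98384) (nat_lit 32) (.e (nat_lit 475177) (nat_lit 24) (.e (nat_lit 516171) (nat_lit 13) (.e (nat_lit 458789) (nat_lit 23) (.e (nat_lit 532499) (nat_lit 1) (.e (nat_lit 65280) (nat_lit 211) .nil))))))) (.g (nat_lit 5) .nil .nil))))) (.nd (nat_lit 5) (.nd (nat_lit 6) 
(.lf (nat_lit 150032) (.g (nat_lit 574) (.e (nat_lit 57378) (nat_lit 3) (.e (nat_lit 98372) (nat_lit 29) (.e (nat_lit 458496) (nat_lit 22) .nil))) .nil)) 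
(.lf (nat_lit 150096) (.g (nat_lit 3180) (.e (nat_lit 57378) (nat_lit 3) (.e (nat_lit 98381) (nat_lit 31) (.e (nat_lit 466954) (nat_lit 11) (.e (nat_lit 336387) (nat_lit 27) (.e (nat_lit 426100) (nat_lit 1) (.e (nat_lit 164398) (nat_lit 256) .nil)))))) (.g (nat_lit 0) .nil .nil)))) (.nd (nat_lit 6) 
(.lf (nat_lit 150064) (.g (nat_lit 5216) (.e (nat_lit 57378) (nat_lit 3) (.e (nat_lit 98373) (nat_lit 29) (.e (nat_lit 450588) (nat_lit 10) (.e (nat_lit 573475) (nat_lit 12) (.e (nat_lit 65280) (nat_lit 57) .nil))))) .nil)) 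
(.lf (nat_lit 150128) (.g (nat_lit 2853) (.e (nat_lit 57379) (nat_lit 3) (.e (nat_lit 98312) (nat_lit 9) (.e (nat_lit 336223) (nat_lit 13) (.e (nat_lit 393225) (nat_lit 9) (.e (nat_lit 335995) (nat_lit 1) (.e (nat_lit 57848) (nat_lit 252) .nil)))))) (.g (nat_lit 6) .nil .nil)))))) (.nd (nat_lit 4) (.nd (nat_lit 5) (.nd (nat_lit 6) 
(.lf (nat_lit 150024) (.g (nat_lit 1490) (.e (nat_lit 57378) (nat_lit 3) (.e (nat_lit 98372) (nat_lit 29) (.e (nat_lit 450579) (nat_lit 5) (.e (nat_lit 532553) (nat_lit 13) .nil)))) .nil)) 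
(.lf (nat_lit 150088) (.g (nat_lit 3144) (.e (nat_lit 57378) (nat_lit 3) (.e (nat_lit 98380) (nat_lit 31) (.e (nat_lit 466954) (nat_lit 11) (.e (nat_lit 336387) (nat_lit 27) (.e (nat_lit 426098) (nat_lit 1) (.e (nat_lit 164398) (nat_lit 256) .nil)))))) (.g (nat_lit 0) .nil .nil)))) (.nd (nat_lit 6) 
(.lf (nat_lit 150056) (.g (nat_lit 4669) (.e (nat_lit 57378) (nat_lit 3) (.e (nat_lit 98373) (nat_lit 29) (.e (nat_lit 450588) (nat_lit 10) (.e (nat_lit 573452) (nat_lit 9) .nil)))) .nil)) 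
(.lf (nat_lit 150120) (.g (nat_lit 2814) (.e (nat_lit 57378) (nat_lit 3) (.e (nat_lit 98384) (nat_lit 32) (.e (nat_lit 475211) (nat_lit 41) (.e (nat_lit 712745) (nat_lit 27) (.e (nat_lit 426532) (nat_lit 28) .nil))))) .nil)))) (.nd (nat_lit 5) (.nd (nat_lit 6) 
(.lf (nat_lit 150040) (.g (nat_lit 3076) (.e (nat_lit 57378) (nat_lit 3) (.e (nat_lit 98373) (nat_lit 29) (.e (nat_lit 450562) (nat_lit 0) (.e (nat_lit 6065) (nat_lit 328) .nil)))) .nil)) 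
(.lf (nat_lit 150104) (.g (nat_lit 2788) (.e (nat_lit 57378) (nat_lit 3) (.e (nat_lit 98384) (nat_lit 32) (.e (nat_lit 475177) (nat_lit 24) (.e (nat_lit 516150) (nat_lit 9) (.e (nat_lit 426131) (nat_lit 3) (.e (nat_lit 212736) (nat_lit 1) (.e (nat_lit 164398) (nat_lit 256) .nil))))))) (.g (nat_lit 4) .nil .nil)))) (.nd (nat_lit 6) 
(.lf (nat_lit 150072) (.g (nat_lit 1512) (.e (nat_lit 57378) (nat_lit 3) (.e (nat_lit 98373) (nat_lit 29) (.e (nat_lit 450605) (nat_lit 27) (.e (nat_lit 745475) (nat_lit 0) .nil)))) .nil)) 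
(.lf (nat_lit 150136) (.g (nat_lit 4327) (.e (nat_lit 57379) (nat_lit 3) (.e (nat_lit 98313) (nat_lit 9) (.e (nat_lit 336027) (nat_lit 3) (.e (nat_lit 98341) (nat_lit 20) (.e (nat_lit 221214) (nat_lit 23) (.e (nat_lit 204829) (nat_lit 18) (.e (nat_lit 57849) (nat_lit 252) .nil))))))) (.g (nat_lit 7) .nil .nil))))))) (.nd (nat_lit 3) (.nd (nat_lit 4) (.nd (nat_lit 5) (.nd (nat_lit 6) 
(.lf (nat_lit 150020) (.g (nat_lit 2295) (.e (nat_lit 57378) (nat_lit 3) (.e (nat_lit 98372) (nat_lit 29) (.e (nat_lit 450579) (nat_lit 5) (.e (nat_lit 532530) (nat_lit 9) (.e (nat_lit 335878) (nat_lit 0) .nil))))) .nil)) 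
(.lf (nat_lit 150084) (.g (nat_lit 2637) (.e (nat_lit 57378) (nat_lit 3) (.e (nat_lit 98377) (nat_lit 30) (.e (nat_lit 458789) (nat_lit 23) (.e (nat_lit 532579) (nat_lit 26) (.e (nat_lit 426124) (nat_lit 2) (.e (nat_lit 196677) (nat_lit 16) (.e (nat_lit 122881) (nat_lit 0) (.e (nat_lit 7697) (nat_lit 412) .nil)))))))) (.g (nat_lit 4) .nil .nil)))) (.nd (nat_lit 6) 
(.lf (nat_lit 150052) (.g (nat_lit 2661) (.e (nat_lit 57378) (nat_lit 3) (.e (nat_lit 98373) (nat_lit 29) (.e (nat_lit 450587) (nat_lit 10) (.e (nat_lit 573475) (nat_lit 12) .nil)))) .nil)) 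
(.lf (nat_lit 150116) (.g (nat_lit 2473) (.e (nat_lit 57378) (nat_lit 3) (.e (nat_lit 98384) (nat_lit 32) (.e (nat_lit 475179) (nat_lit 24) (.e (nat_lit 516169) (nat_lit 13) .nil)))) .nil)))) (.nd (nat_lit 5) (.nd (nat_lit 6) 
(.lf (nat_lit 150036) (.g (nat_lit 2176) (.e (nat_lit 57378) (nat_lit 3) (.e (nat_lit 98373) (nat_lit 29) (.e (nat_lit 450561) (nat_lit 0) (.e (nat_lit 6595) (nat_lit 351) .nil)))) .nil)) 
(.lf (nat_lit 150100) (.g (nat_lit 3744) (.e (nat_lit 57378) (nat_lit 3) (.e (nat_lit 98384) (nat_lit 32) (.e (nat_lit 475177) (nat_lit 24) (.e (nat_lit 516143) (nat_lit 9) (.e (nat_lit 426140) (nat_lit 3) (.e (nat_lit 212736) (nat_lit 1) (.e (nat_lit 164403) (nat_lit 256) .nil))))))) (.g (nat_lit 5) .nil .nil)))) (.nd (nat_lit 6) 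
(.lf (nat_lit 150068) (.g (nat_lit 1099) (.e (nat_lit 57378) (nat_lit 3) (.e (nat_lit 98373) (nat_lit 29) (.e (nat_lit 450604) (nat_lit 22) .nil))) .nil)) 
(.lf (nat_lit 150132) (.g (nat_lit 1750) (.e (nat_lit 57379) (nat_lit 3) (.e (nat_lit 98312) (nat_lit 9) (.e (nat_lit 336223) (nat_lit 13) (.e (nat_lit 393229) (nat_lit 9) (.e (nat_lit 335995) (nat_lit 1) .nil))))) .nil))))) (.nd (nat_lit 4) (.nd (nat_lit 5) (.nd (nat_lit 6) 
(.lf (nat_lit 150028) (.g (nat_lit 2110) (.e (nat_lit 57378) (nat_lit 3) (.e (nat_lit 98372) (nat_lit 29) (.e (nat_lit 450579) (nat_lit 5) (.e (nat_lit 532563) (nat_lit 15) (.e (nat_lit 385049) (nat_lit 21) .nil))))) .nil)) 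
(.lf (nat_lit 150092) (.g (nat_lit 1533) (.e (nat_lit 57378) (nat_lit 3) (.e (nat_lit 98381) (nat_lit 31) (.e (nat_lit 466954) (nat_lit 11) (.e (nat_lit 336385) (nat_lit 27) (.e (nat_lit 426099) (nat_lit 1) (.e (nat_lit 164398) (nat_lit 256) .nil)))))) (.g (nat_lit 4) .nil .nil)))) (.nd (nat_lit 6) 
(.lf (nat_lit 150060) (.g (nat_lit 4701) (.e (nat_lit 57378) (nat_lit 3) (.e (nat_lit 98373) (nat_lit 29) (.e (nat_lit 450588) (nat_lit 10) (.e (nat_lit 573471) (nat_lit 11) (.e (nat_lit 16406) (nat_lit 1) (.e (nat_lit 171776) (nat_lit 262) .nil)))))) (.g (nat_lit 4) .nil .nil))) 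
(.lf (nat_lit 150124) (.g (nat_lit 2499) (.e (nat_lit 57379) (nat_lit 3) (.e (nat_lit 98312) (nat_lit 9) (.e (nat_lit 336212) (nat_lit 13) (.e (nat_lit 393225) (nat_lit 9) (.e (nat_lit 335995) (nat_lit 1) (.e (nat_lit 57848) (nat_lit 252) .nil)))))) (.g (nat_lit 6) .nil .nil))))) (.nd (nat_lit 5) (.nd (nat_lit 6) 
(.lf (nat_lit 150044) (.g (nat_lit 3062) (.e (nat_lit 57378) (nat_lit 3) (.e (nat_lit 98373) (nat_lit 29) (.e (nat_lit 450563) (nat_lit 0) (.e (nat_lit 6063) (nat_lit 328) .nil)))) .nil)) 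
(.lf (nat_lit 150108) (.g (nat_lit 4077) (.e (nat_lit 57378) (nat_lit 3) (.e (nat_lit 98384) (nat_lit 32) (.e (nat_lit 475177) (nat_lit 24) (.e (nat_lit 516169) (nat_lit 13) (.e (nat_lit 458789) (nat_lit 23) (.e (nat_lit 532499) (nat_lit 1) (.e (nat_lit 65280) (nat_lit 211) .nil))))))) (.g (nat_lit 5) .nil .nil)))) (.nd (nat_lit 6) 
(.lf (nat_lit 150076) (.g (nat_lit 2581) (.e (nat_lit 57378) (nat_lit 3) (.e (nat_lit 98376) (nat_lit 30) (.e (nat_lit 458789) (nat_lit 23) (.e (nat_lit 532579) (nat_lit 26) (.e (nat_lit 426124) (nat_lit 2) (.e (nat_lit 196677) (nat_lit 16) (.e (nat_lit 122881) (nat_lit 0) (.e (nat_lit 7697) (nat_lit 412) .nil)))))))) (.g (nat_lit 4) .nil .nil))) 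
(.lf (nat_lit 150140) (.g (nat_lit 4236) (.e (nat_lit 57379) (nat_lit 3) (.e (nat_lit 98313) (nat_lit 9) (.e (nat_lit 336027) (nat_lit 3) (.e (nat_lit 98342) (nat_lit 20) (.e (nat_lit 221214) (nat_lit 23) (.e (nat_lit 204829) (nat_lit 18) (.e (nat_lit 57849) (nat_lit 252) .nil))))))) (.g (nat_lit 7) .nil .nil)))))))) 
(.nd (nat_lit 2) (.nd (nat_lit 3) (.nd (nat_lit 4) (.nd (nat_lit 5) (.nd (nat_lit 6) 
(.lf (nat_lit 150018) (.g (nat_lit 409) (.e (nat_lit 57378) (nat_lit 3) (.e (nat_lit 98372) (nat_lit 29) (.e (nat_lit 450579) (nat_lit 5) .nil))) .nil)) 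
(.lf (nat_lit 150082) (.g (nat_lit 3637) (.e (nat_lit 57378) (nat_lit 3) (.e (nat_lit 98377) (nat_lit 30) (.e (nat_lit 458789) (nat_lit 23) (.e (nat_lit 532515) (nat_lit 3) (.e (nat_lit 114719) (nat_lit 23) (.e (nat_lit 98334) (nat_lit 18) (.e (nat_lit 164403) (nat_lit 256) .nil))))))) (.g (nat_lit 6) .nil .nil)))) (.nd (nat_lit 6) 
(.lf (nat_lit 150050) (.g (nat_lit 3579) (.e (nat_lit 57378) (nat_lit 3) (.e (nat_lit 98373) (nat_lit 29) (.e (nat_lit 450587) (nat_lit 10) (.e (nat_lit 573454) (nat_lit 9) .nil)))) .nil)) 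
(.lf (nat_lit 150114) (.g (nat_lit 2735) (.e (nat_lit 57378) (nat_lit 3) (.e (nat_lit 98384) (nat_lit 32) (.e (nat_lit 475177) (nat_lit 24) (.e (nat_lit 516171) (nat_lit 13) (.e (nat_lit 458789) (nat_lit 23) (.e (nat_lit 532503) (nat_lit 1) (.e (nat_lit 65280) (nat_lit 211) .nil))))))) (.g (nat_lit 4) .nil .nil))))) (.nd (nat_lit 5) (.nd (nat_lit 6) 
(.lf (nat_lit 150034) (.g (nat_lit 1184) (.e (nat_lit 57378) (nat_lit 3) (.e (nat_lit 98373) (nat_lit 29) (.e (nat_lit 450560) (nat_lit 0) .nil))) .nil)) 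
(.lf (nat_lit 150098) (.g (nat_lit 3020) (.e (nat_lit 57378) (nat_lit 3) (.e (nat_lit 98381) (nat_lit 31) (.e (nat_lit 466977) (nat_lit 22) (.e (nat_lit 196670) (nat_lit 14) (.e (nat_lit 73729) (nat_lit 0) (.e (nat_lit 7936) (nat_lit 283) .nil)))))) (.g (nat_lit 4) .nil .nil)))) (.nd (nat_lit 6) 
(.lf (nat_lit 150066) (.g (nat_lit 1558) (.e (nat_lit 57378) (nat_lit 3) (.e (nat_lit 98373) (nat_lit 29) (.e (nat_lit 450602) (nat_lit 22) (.e (nat_lit 712448) (nat_lit 5) .nil)))) .nil)) 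
(.lf (nat_lit 150130) (.g (nat_lit 1089) (.e (nat_lit 57379) (nat_lit 3) (.e (nat_lit 98312) (nat_lit 9) (.e (nat_lit 336223) (nat_lit 13) (.e (nat_lit 393229) (nat_lit 9) .nil)))) .nil))))) (.nd (nat_lit 4) (.nd (nat_lit 5) (.nd (nat_lit 6) 
(.lf (nat_lit 150026) (.g (nat_lit 1402) (.e (nat_lit 57378) (nat_lit 3) (.e (nat_lit 98372) (nat_lit 29) (.e (nat_lit 450579) (nat_lit 5) (.e (nat_lit 532563) (nat_lit 15) .nil)))) .nil)) 
(.lf (nat_lit 150090) (.g (nat_lit 2876) (.e (nat_lit 57378) (nat_lit 3) (.e (nat_lit 98380) (nat_lit 31) (.e (nat_lit 466954) (nat_lit 11) (.e (nat_lit 336387) (nat_lit 27) (.e (nat_lit 426100) (nat_lit 1) (.e (nat_lit 164399) (nat_lit 256) .nil)))))) (.g (nat_lit 0) .nil .nil)))) (.nd (nat_lit 6) 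
(.lf (nat_lit 150058) (.g (nat_lit 3277) (.e (nat_lit 57378) (nat_lit 3) (.e (nat_lit 98373) (nat_lit 29) (.e (nat_lit 450588) (nat_lit 10) (.e (nat_lit 573471) (nat_lit 11) .nil)))) .nil)) 
(.lf (nat_lit 150122) (.g (nat_lit 1412) (.e (nat_lit 57378) (nat_lit 3) (.e (nat_lit 98388) (nat_lit 33) (.e (nat_lit 491571) (nat_lit 13) (.e (nat_lit 401152) (nat_lit 10) .nil)))) .nil)))) (.nd (nat_lit 5) (.nd (nat_lit 6) 
(.lf (nat_lit 150042) (.g (nat_lit 3081) (.e (nat_lit 57378) (nat_lit 3) (.e (nat_lit 98373) (nat_lit 29) (.e (nat_lit 450562) (nat_lit 0) (.e (nat_lit 6595) (nat_lit 351) (.e (nat_lit 2638) (nat_lit 165) .nil))))) .nil)) 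
(.lf (nat_lit 150106) (.g (nat_lit 4486) (.e (nat_lit 57378) (nat_lit 3) (.e (nat_lit 98384) (nat_lit 32) (.e (nat_lit 475177) (nat_lit 24) (.e (nat_lit 516150) (nat_lit 9) (.e (nat_lit 426131) (nat_lit 3) (.e (nat_lit 204829) (nat_lit 18) (.e (nat_lit 65280) (nat_lit 211) .nil))))))) (.g (nat_lit 6) .nil .nil)))) (.nd (nat_lit 6) 
(.lf (nat_lit 150074) (.g (nat_lit 2214) (.e (nat_lit 57378) (nat_lit 3) (.e (nat_lit 98376) (nat_lit 30) (.e (nat_lit 458789) (nat_lit 23) (.e (nat_lit 532515) (nat_lit 3) (.e (nat_lit 114716) (nat_lit 22) (.e (nat_lit 90181) (nat_lit 16) (.e (nat_lit 229376) (nat_lit 0) (.e (nat_lit 5937) (nat_lit 322) .nil)))))))) (.g (nat_lit 4) .nil .nil))) 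
(.lf (nat_lit 150138) (.g (nat_lit 2298) (.e (nat_lit 57379) (nat_lit 3) (.e (nat_lit 98313) (nat_lit 9) (.e (nat_lit 336027) (nat_lit 3) (.e (nat_lit 98342) (nat_lit 20) (.e (nat_lit 221210) (nat_lit 22) (.e (nat_lit 196658) (nat_lit 12) (.e (nat_lit 57354) (nat_lit 0) (.e (nat_lit 5195) (nat_lit 294) .nil)))))))) (.g (nat_lit 4) .nil .nil))))))) 
(.nd (nat_lit 3) (.nd (nat_lit 4) (.nd (nat_lit 5) (.nd (nat_lit 6) 
(.lf (nat_lit 150022) (.g (nat_lit 1460) (.e (nat_lit 57378) (nat_lit 3) (.e (nat_lit 98372) (nat_lit 29) (.e (nat_lit 450579) (nat_lit 5) (.e (nat_lit 532534) (nat_lit 9) .nil)))) .nil)) 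
(.lf (nat_lit 150086) (.g (nat_lit 2764) (.e (nat_lit 57378) (nat_lit 3) (.e (nat_lit 98380) (nat_lit 31) (.e (nat_lit 466954) (nat_lit 11) (.e (nat_lit 336385) (nat_lit 27) (.e (nat_lit 426098) (nat_lit 1) (.e (nat_lit 164399) (nat_lit 256) .nil)))))) (.g (nat_lit 5) .nil .nil)))) (.nd (nat_lit 6) 
(.lf (nat_lit 150054) (.g (nat_lit 3645) (.e (nat_lit 57378) (nat_lit 3) (.e (nat_lit 98373) (nat_lit 29) (.e (nat_lit 450587) (nat_lit 10) (.e (nat_lit 573477) (nat_lit 12) .nil)))) .nil)) 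
(.lf (nat_lit 150118) (.g (nat_lit 3364) (.e (nat_lit 57378) (nat_lit 3) (.e (nat_lit 98384) (nat_lit 32) (.e (nat_lit 475210) (nat_lit 41) (.e (nat_lit 712745) (nat_lit 27) (.e (nat_lit 426532) (nat_lit 28) .nil))))) .nil)))) (.nd (nat_lit 5) (.nd (nat_lit 6) 
(.lf (nat_lit 150038) (.g (nat_lit 661) (.e (nat_lit 57378) (nat_lit 3) (.e (nat_lit 98373) (nat_lit 29) (.e (nat_lit 450562) (nat_lit 0) .nil))) .nil)) 
(.lf (nat_lit 150102) (.g (nat_lit 2756) (.e (nat_lit 57378) (nat_lit 3) (.e (nat_lit 98384) (nat_lit 32) (.e (nat_lit 475177) (nat_lit 24) (.e (nat_lit 516149) (nat_lit 9) (.e (nat_lit 426131) (nat_lit 3) (.e (nat_lit 204829) (nat_lit 18) (.e (nat_lit 65280) (nat_lit 211) .nil))))))) (.g (nat_lit 4) .nil .nil)))) (.nd (nat_lit 6) 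
(.lf (nat_lit 150070) (.g (nat_lit 836) (.e (nat_lit 57378) (nat_lit 3) (.e (nat_lit 98373) (nat_lit 29) (.e (nat_lit 458496) (nat_lit 23) .nil))) .nil)) 
(.lf (nat_lit 150134) (.g (nat_lit 2591) (.e (nat_lit 57379) (nat_lit 3) (.e (nat_lit 98313) (nat_lit 9) (.e (nat_lit 336027) (nat_lit 3) (.e (nat_lit 98341) (nat_lit 20) (.e (nat_lit 221212) (nat_lit 22) (.e (nat_lit 196659) (nat_lit 12) (.e (nat_lit 57354) (nat_lit 0) (.e (nat_lit 5195) (nat_lit 294) .nil)))))))) (.g (nat_lit 4) .nil .nil)))))) (.nd (nat_lit 4) (.nd (nat_lit 5) (.nd (nat_lit 6) 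
(.lf (nat_lit 150030) (.g (nat_lit 686) (.e (nat_lit 57378) (nat_lit 3) (.e (nat_lit 98372) (nat_lit 29) (.e (nat_lit 450602) (nat_lit 22) .nil))) .nil)) 
(.lf (nat_lit 150094) (.g (nat_lit 3203) (.e (nat_lit 57378) (nat_lit 3) (.e (nat_lit 98381) (nat_lit 31) (.e (nat_lit 466954) (nat_lit 11) (.e (nat_lit 336385) (nat_lit 27) (.e (nat_lit 426100) (nat_lit 1) (.e (nat_lit 164399) (nat_lit 256) .nil)))))) (.g (nat_lit 6) .nil .nil)))) (.nd (nat_lit 6) 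
(.lf (nat_lit 150062) (.g (nat_lit 5773) (.e (nat_lit 57378) (nat_lit 3) (.e (nat_lit 98373) (nat_lit 29) (.e (nat_lit 450588) (nat_lit 10) (.e (nat_lit 573474) (nat_lit 12) .nil)))) .nil)) 
(.lf (nat_lit 150126) (.g (nat_lit 2875) (.e (nat_lit 57379) (nat_lit 3) (.e (nat_lit 98312) (nat_lit 9) (.e (nat_lit 336213) (nat_lit 13) (.e (nat_lit 393225) (nat_lit 9) (.e (nat_lit 335995) (nat_lit 1) (.e (nat_lit 57848) (nat_lit 252) .nil)))))) (.g (nat_lit 6) .nil .nil))))) (.nd (nat_lit 5) (.nd (nat_lit 6) 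
(.lf (nat_lit 150046) (.g (nat_lit 2724) (.e (nat_lit 57378) (nat_lit 3) (.e (nat_lit 98373) (nat_lit 29) (.e (nat_lit 450563) (nat_lit 0) (.e (nat_lit 6416) (nat_lit 341) .nil)))) .nil)) 
(.lf (nat_lit 150110) (.g (nat_lit 2926) (.e (nat_lit 57378) (nat_lit 3) (.e (nat_lit 98384) (nat_lit 32) (.e (nat_lit 475177) (nat_lit 24) (.e (nat_lit 516169) (nat_lit 13) (.e (nat_lit 458789) (nat_lit 23) (.e (nat_lit 532503) (nat_lit 1) (.e (nat_lit 65280) (nat_lit 211) .nil))))))) (.g (nat_lit 4) .nil .nil)))) (.nd (nat_lit 6) 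
(.lf (nat_lit 150078) (.g (nat_lit 1271) (.e (nat_lit 57378) (nat_lit 3) (.e (nat_lit 98377) (nat_lit 30) (.e (nat_lit 458789) (nat_lit 23) (.e (nat_lit 532515) (nat_lit 3) (.e (nat_lit 114716) (nat_lit 22) .nil))))) .nil)) 
(.lf (nat_lit 150142) (.g (nat_lit 1178) (.e (nat_lit 57379) (nat_lit 3) (.e (nat_lit 98313) (nat_lit 9) (.e (nat_lit 336076) (nat_lit 9) (.e (nat_lit 336367) (nat_lit 27) .nil)))) .nil)))))))) (.nd (nat_lit 1) (.nd (nat_lit 2) (.nd (nat_lit 3) (.nd (nat_lit 4) (.nd (nat_lit 5) (.nd (nat_lit 6) 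
(.lf (nat_lit 150017) (.g (nat_lit 1498) (.e (nat_lit 57378) (nat_lit 3) (.e (nat_lit 98372) (nat_lit 29) (.e (nat_lit 450563) (nat_lit 0) (.e (nat_lit 6595) (nat_lit 351) .nil)))) .nil)) 
(.lf (nat_lit 150081) (.g (nat_lit 4160) (.e (nat_lit 57378) (nat_lit 3) (.e (nat_lit 98377) (nat_lit 30) (.e (nat_lit 458789) (nat_lit 23) (.e (nat_lit 532515) (nat_lit 3) (.e (nat_lit 114719) (nat_lit 23) (.e (nat_lit 98333) (nat_lit 18) (.e (nat_lit 164399) (nat_lit 256) .nil))))))) (.g (nat_lit 7) .nil .nil)))) (.nd (nat_lit 6) 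
(.lf (nat_lit 150049) (.g (nat_lit 2813) (.e (nat_lit 57378) (nat_lit 3) (.e (nat_lit 98373) (nat_lit 29) (.e (nat_lit 450563) (nat_lit 0) (.e (nat_lit 6830) (nat_lit 367) .nil)))) .nil)) 
(.lf (nat_lit 150113) (.g (nat_lit 3582) (.e (nat_lit 57378) (nat_lit 3) (.e (nat_lit 98384) (nat_lit 32) (.e (nat_lit 475177) (nat_lit 24) (.e (nat_lit 516171) (nat_lit 13) (.e (nat_lit 458789) (nat_lit 23) (.e (nat_lit 532501) (nat_lit 1) (.e (nat_lit 65280) (nat_lit 211) .nil))))))) (.g (nat_lit 5) .nil .nil))))) (.nd (nat_lit 5) (.nd (nat_lit 6) 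
(.lf (nat_lit 150033) (.g (nat_lit 574) (.e (nat_lit 57378) (nat_lit 3) (.e (nat_lit 98372) (nat_lit 29) (.e (nat_lit 458496) (nat_lit 26) .nil))) .nil)) 
(.lf (nat_lit 150097) (.g (nat_lit 216) (.e (nat_lit 57378) (nat_lit 3) (.e (nat_lit 98381) (nat_lit 31) (.e (nat_lit 474880) (nat_lit 18) .nil))) .nil))) (.nd (nat_lit 6) 
(.lf (nat_lit 150065) (.g (nat_lit 1554) (.e (nat_lit 57378) (nat_lit 3) (.e (nat_lit 98373) (nat_lit 29) (.e (nat_lit 450602) (nat_lit 22) (.e (nat_lit 704594) (nat_lit 5) .nil)))) .nil)) 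
(.lf (nat_lit 150129) (.g (nat_lit 1497) (.e (nat_lit 57379) (nat_lit 3) (.e (nat_lit 98312) (nat_lit 9) (.e (nat_lit 336223) (nat_lit 13) (.e (nat_lit 393227) (nat_lit 9) .nil)))) .nil))))) (.nd (nat_lit 4) (.nd (nat_lit 5) (.nd (nat_lit 6) 
(.lf (nat_lit 150025) (.g (nat_lit 1496) (.e (nat_lit 57378) (nat_lit 3) (.e (nat_lit 98372) (nat_lit 29) (.e (nat_lit 450579) (nat_lit 5) (.e (nat_lit 532555) (nat_lit 13) .nil)))) .nil)) 
(.lf (nat_lit 150089) (.g (nat_lit 3120) (.e (nat_lit 57378) (nat_lit 3) (.e (nat_lit 98380) (nat_lit 31) (.e (nat_lit 466954) (nat_lit 11) (.e (nat_lit 336387) (nat_lit 27) (.e (nat_lit 426100) (nat_lit 1) (.e (nat_lit 164398) (nat_lit 256) .nil)))))) (.g (nat_lit 0) .nil .nil)))) (.nd (nat_lit 6) 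
(.lf (nat_lit 150057) (.g (nat_lit 3968) (.e (nat_lit 57378) (nat_lit 3) (.e (nat_lit 98373) (nat_lit 29) (.e (nat_lit 450588) (nat_lit 10) (.e (nat_lit 573470) (nat_lit 11) .nil)))) .nil)) 
(.lf (nat_lit 150121) (.g (nat_lit 801) (.e (nat_lit 57378) (nat_lit 3) (.e (nat_lit 98386) (nat_lit 32) (.e (nat_lit 475211) (nat_lit 41) .nil))) .nil)))) (.nd (nat_lit 5) (.nd (nat_lit 6) 
(.lf (nat_lit 150041) (.g (nat_lit 2877) (.e (nat_lit 57378) (nat_lit 3) (.e (nat_lit 98373) (nat_lit 29) (.e (nat_lit 450562) (nat_lit 0) (.e (nat_lit 6595) (nat_lit 351) .nil)))) .nil)) 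
(.lf (nat_lit 150105) (.g (nat_lit 4488) (.e (nat_lit 57378) (nat_lit 3) (.e (nat_lit 98384) (nat_lit 32) (.e (nat_lit 475177) (nat_lit 24) (.e (nat_lit 516150) (nat_lit 9) (.e (nat_lit 426131) (nat_lit 3) (.e (nat_lit 212736) (nat_lit 1) (.e (nat_lit 164403) (nat_lit 256) .nil))))))) (.g (nat_lit 5) .nil .nil)))) (.nd (nat_lit 6) 
(.lf (nat_lit 150073) (.g (nat_lit 2170) (.e (nat_lit 57378) (nat_lit 3) (.e (nat_lit 98376) (nat_lit 30) (.e (nat_lit 458789) (nat_lit 23) (.e (nat_lit 532513) (nat_lit 3) (.e (nat_lit 114719) (nat_lit 23) (.e (nat_lit 98334) (nat_lit 18) (.e (nat_lit 164401) (nat_lit 256) .nil))))))) (.g (nat_lit 4) .nil .nil))) 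
(.lf (nat_lit 150137) (.g (nat_lit 4030) (.e (nat_lit 57379) (nat_lit 3) (.e (nat_lit 98313) (nat_lit 9) (.e (nat_lit 336027) (nat_lit 3) (.e (nat_lit 98341) (nat_lit 20) (.e (nat_lit 221215) (nat_lit 23) (.e (nat_lit 204829) (nat_lit 18) (.e (nat_lit 57849) (nat_lit 252) .nil))))))) (.g (nat_lit 7) .nil .nil))))))) (.nd (nat_lit 3) (.nd (nat_lit 4) (.nd (nat_lit 5) (.nd (nat_lit 6) 
(.lf (nat_lit 150021) (.g (nat_lit 3016) (.e (nat_lit 57378) (nat_lit 3) (.e (nat_lit 98372) (nat_lit 29) (.e (nat_lit 450579) (nat_lit 5) (.e (nat_lit 532530) (nat_lit 9) (.e (nat_lit 336257) (nat_lit 15) (.e (nat_lit 2425) (nat_lit 157) (.e (nat_lit 6932) (nat_lit 373) .nil))))))) (.g (nat_lit 4) .nil .nil))) 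
(.lf (nat_lit 150085) (.g (nat_lit 2308) (.e (nat_lit 57378) (nat_lit 3) (.e (nat_lit 98378) (nat_lit 30) (.e (nat_lit 458789) (nat_lit 23) (.e (nat_lit 532515) (nat_lit 3) (.e (nat_lit 114718) (nat_lit 23) .nil))))) .nil))) (.nd (nat_lit 6) 
(.lf (nat_lit 150053) (.g (nat_lit 4551) (.e (nat_lit 57378) (nat_lit 3) (.e (nat_lit 98373) (nat_lit 29) (.e (nat_lit 450587) (nat_lit 10) (.e (nat_lit 573475) (nat_lit 12) (.e (nat_lit 57578) (nat_lit 60) .nil))))) .nil)) 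
(.lf (nat_lit 150117) (.g (nat_lit 893) (.e (nat_lit 57378) (nat_lit 3) (.e (nat_lit 98384) (nat_lit 32) (.e (nat_lit 475210) (nat_lit 41) .nil))) .nil)))) (.nd (nat_lit 5) (.nd (nat_lit 6) 
(.lf (nat_lit 150037) (.g (nat_lit 2445) (.e (nat_lit 57378) (nat_lit 3) (.e (nat_lit 98373) (nat_lit 29) (.e (nat_lit 450561) (nat_lit 0) (.e (nat_lit 6595) (nat_lit 351) (.e (nat_lit 2638) (nat_lit 165) .nil))))) .nil)) 
(.lf (nat_lit 150101) (.g (nat_lit 2779) (.e (nat_lit 57378) (nat_lit 3) (.e (nat_lit 98384) (nat_lit 32) (.e (nat_lit 475177) (nat_lit 24) (.e (nat_lit 516149) (nat_lit 9) (.e (nat_lit 426131) (nat_lit 3) (.e (nat_lit 212736) (nat_lit 1) (.e (nat_lit 164399) (nat_lit 256) .nil))))))) (.g (nat_lit 4) .nil .nil)))) (.nd (nat_lit 6) 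
(.lf (nat_lit 150069) (.g (nat_lit 836) (.e (nat_lit 57378) (nat_lit 3) (.e (nat_lit 98373) (nat_lit 29) (.e (nat_lit 458496) (nat_lit 22) .nil))) .nil)) 
(.lf (nat_lit 150133) (.g (nat_lit 2100) (.e (nat_lit 57379) (nat_lit 3) (.e (nat_lit 98312) (nat_lit 9) (.e (nat_lit 336223) (nat_lit 13) (.e (nat_lit 393229) (nat_lit 9) (.e (nat_lit 335995) (nat_lit 1) (.e (nat_lit 57848) (nat_lit 252) .nil)))))) (.g (nat_lit 4) .nil .nil)))))) (.nd (nat_lit 4) (.nd (nat_lit 5) (.nd (nat_lit 6) 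
(.lf (nat_lit 150029) (.g (nat_lit 612) (.e (nat_lit 57378) (nat_lit 3) (.e (nat_lit 98372) (nat_lit 29) (.e (nat_lit 450588) (nat_lit 10) .nil))) .nil)) 
(.lf (nat_lit 150093) (.g (nat_lit 1808) (.e (nat_lit 57378) (nat_lit 3) (.e (nat_lit 98381) (nat_lit 31) (.e (nat_lit 466954) (nat_lit 11) (.e (nat_lit 336385) (nat_lit 27) (.e (nat_lit 426099) (nat_lit 1) (.e (nat_lit 164399) (nat_lit 256) .nil)))))) (.g (nat_lit 4) .nil .nil)))) (.nd (nat_lit 6) 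
(.lf (nat_lit 150061) (.g (nat_lit 4464) (.e (nat_lit 57378) (nat_lit 3) (.e (nat_lit 98373) (nat_lit 29) (.e (nat_lit 450588) (nat_lit 10) (.e (nat_lit 573473) (nat_lit 12) .nil)))) .nil)) 
(.lf (nat_lit 150125) (.g (nat_lit 1800) (.e (nat_lit 57379) (nat_lit 3) (.e (nat_lit 98312) (nat_lit 9) (.e (nat_lit 336213) (nat_lit 13) (.e (nat_lit 393225) (nat_lit 9) (.e (nat_lit 335995) (nat_lit 1) .nil))))) .nil)))) (.nd (nat_lit 5) (.nd (nat_lit 6) 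
(.lf (nat_lit 150045) (.g (nat_lit 3024) (.e (nat_lit 57378) (nat_lit 3) (.e (nat_lit 98373) (nat_lit 29) (.e (nat_lit 450563) (nat_lit 0) (.e (nat_lit 6065) (nat_lit 328) .nil)))) .nil)) 
(.lf (nat_lit 150109) (.g (nat_lit 3822) (.e (nat_lit 57378) (nat_lit 3) (.e (nat_lit 98384) (nat_lit 32) (.e (nat_lit 475177) (nat_lit 24) (.e (nat_lit 516169) (nat_lit 13) (.e (nat_lit 458789) (nat_lit 23) (.e (nat_lit 532501) (nat_lit 1) (.e (nat_lit 65280) (nat_lit 211) .nil))))))) (.g (nat_lit 5) .nil .nil)))) (.nd (nat_lit 6) 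
(.lf (nat_lit 150077) (.g (nat_lit 2307) (.e (nat_lit 57378) (nat_lit 3) (.e (nat_lit 98377) (nat_lit 30) (.e (nat_lit 458789) (nat_lit 23) (.e (nat_lit 532513) (nat_lit 3) (.e (nat_lit 114719) (nat_lit 23) (.e (nat_lit 98334) (nat_lit 18) (.e (nat_lit 164401) (nat_lit 256) .nil))))))) (.g (nat_lit 4) .nil .nil))) 
(.lf (nat_lit 150141) (.g (nat_lit 3952) (.e (nat_lit 57379) (nat_lit 3) (.e (nat_lit 98313) (nat_lit 9) (.e (nat_lit 336075) (nat_lit 9) (.e (nat_lit 336454) (nat_lit 34) (.e (nat_lit 483365) (nat_lit 18) (.e (nat_lit 57847) (nat_lit 252) .nil)))))) (.g (nat_lit 5) .nil .nil)))))))) (.nd (nat_lit 2) (.nd (nat_lit 3) (.nd (nat_lit 4) (.nd (nat_lit 5) (.nd (nat_lit 6) 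
(.lf (nat_lit 150019) (.g (nat_lit 1444) (.e (nat_lit 57378) (nat_lit 3) (.e (nat_lit 98372) (nat_lit 29) (.e (nat_lit 450579) (nat_lit 5) (.e (nat_lit 532530) (nat_lit 9) .nil)))) .nil)) 
(.lf (nat_lit 150083) (.g (nat_lit 4147) (.e (nat_lit 57378) (nat_lit 3) (.e (nat_lit 98377) (nat_lit 30) (.e (nat_lit 458789) (nat_lit 23) (.e (nat_lit 532515) (nat_lit 3) (.e (nat_lit 114719) (nat_lit 23) (.e (nat_lit 98335) (nat_lit 18) (.e (nat_lit 164403) (nat_lit 256) .nil))))))) (.g (nat_lit 7) .nil .nil)))) (.nd (nat_lit 6) 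
(.lf (nat_lit 150051) (.g (nat_lit 2400) (.e (nat_lit 57378) (nat_lit 3) (.e (nat_lit 98373) (nat_lit 29) (.e (nat_lit 450587) (nat_lit 10) (.e (nat_lit 573473) (nat_lit 12) .nil)))) .nil)) 
(.lf (nat_lit 150115) (.g (nat_lit 4220) (.e (nat_lit 57378) (nat_lit 3) (.e (nat_lit 98384) (nat_lit 32) (.e (nat_lit 475177) (nat_lit 24) (.e (nat_lit 516171) (nat_lit 13) (.e (nat_lit 458789) (nat_lit 23) (.e (nat_lit 540416) (nat_lit 18) (.e (nat_lit 164403) (nat_lit 256) .nil))))))) (.g (nat_lit 5) .nil .nil))))) (.nd (nat_lit 5) (.nd (nat_lit 6) 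
(.lf (nat_lit 150035) (.g (nat_lit 1856) (.e (nat_lit 57378) (nat_lit 3) (.e (nat_lit 98373) (nat_lit 29) (.e (nat_lit 450560) (nat_lit 0) (.e (nat_lit 6540) (nat_lit 351) .nil)))) .nil)) 
(.lf (nat_lit 150099) (.g (nat_lit 605) (.e (nat_lit 57378) (nat_lit 3) (.e (nat_lit 98384) (nat_lit 32) (.e (nat_lit 475177) (nat_lit 24) .nil))) .nil))) (.nd (nat_lit 6) 
(.lf (nat_lit 150067) (.g (nat_lit 1053) (.e (nat_lit 57378) (nat_lit 3) (.e (nat_lit 98373) (nat_lit 29) (.e (nat_lit 450603) (nat_lit 22) .nil))) .nil)) 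
(.lf (nat_lit 150131) (.g (nat_lit 1927) (.e (nat_lit 57379) (nat_lit 3) (.e (nat_lit 98312) (nat_lit 9) (.e (nat_lit 336223) (nat_lit 13) (.e (nat_lit 393229) (nat_lit 9) (.e (nat_lit 335994) (nat_lit 1) (.e (nat_lit 57848) (nat_lit 252) .nil)))))) (.g (nat_lit 4) .nil .nil)))))) (.nd (nat_lit 4) (.nd (nat_lit 5) (.nd (nat_lit 6) 
(.lf (nat_lit 150027) (.g (nat_lit 3104) (.e (nat_lit 57378) (nat_lit 3) (.e (nat_lit 98372) (nat_lit 29) (.e (nat_lit 450579) (nat_lit 5) (.e (nat_lit 532563) (nat_lit 15) (.e (nat_lit 385043) (nat_lit 21) (.e (nat_lit 6932) (nat_lit 373) .nil)))))) (.g (nat_lit 4) .nil .nil))) 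
(.lf (nat_lit 150091) (.g (nat_lit 2882) (.e (nat_lit 57378) (nat_lit 3) (.e (nat_lit 98381) (nat_lit 31) (.e (nat_lit 466954) (nat_lit 11) (.e (nat_lit 336385) (nat_lit 27) (.e (nat_lit 426098) (nat_lit 1) (.e (nat_lit 164399) (nat_lit 256) .nil)))))) (.g (nat_lit 5) .nil .nil)))) (.nd (nat_lit 6) 
(.lf (nat_lit 150059) (.g (nat_lit 4654) (.e (nat_lit 57378) (nat_lit 3) (.e (nat_lit 98373) (nat_lit 29) (.e (nat_lit 450588) (nat_lit 10) (.e (nat_lit 573471) (nat_lit 11) (.e (nat_lit 16405) (nat_lit 1) (.e (nat_lit 171776) (nat_lit 262) .nil)))))) (.g (nat_lit 4) .nil .nil))) 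
(.lf (nat_lit 150123) (.g (nat_lit 2698) (.e (nat_lit 57378) (nat_lit 3) (.e (nat_lit 98389) (nat_lit 33) (.e (nat_lit 491568) (nat_lit 13) (.e (nat_lit 393229) (nat_lit 9) (.e (nat_lit 335892) (nat_lit 0) .nil))))) .nil)))) (.nd (nat_lit 5) (.nd (nat_lit 6) 
(.lf (nat_lit 150043) (.g (nat_lit 706) (.e (nat_lit 57378) (nat_lit 3) (.e (nat_lit 98373) (nat_lit 29) (.e (nat_lit 450563) (nat_lit 0) .nil))) .nil)) 
(.lf (nat_lit 150107) (.g (nat_lit 4637) (.e (nat_lit 57378) (nat_lit 3) (.e (nat_lit 98384) (nat_lit 32) (.e (nat_lit 475177) (nat_lit 24) (.e (nat_lit 516150) (nat_lit 9) (.e (nat_lit 426131) (nat_lit 3) (.e (nat_lit 204830) (nat_lit 18) (.e (nat_lit 65280) (nat_lit 211) .nil))))))) (.g (nat_lit 6) .nil .nil)))) (.nd (nat_lit 6) 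
(.lf (nat_lit 150075) (.g (nat_lit 2013) (.e (nat_lit 57378) (nat_lit 3) (.e (nat_lit 98376) (nat_lit 30) (.e (nat_lit 458789) (nat_lit 23) (.e (nat_lit 532515) (nat_lit 3) (.e (nat_lit 114719) (nat_lit 23) (.e (nat_lit 98332) (nat_lit 18) (.e (nat_lit 164401) (nat_lit 256) .nil))))))) (.g (nat_lit 5) .nil .nil))) 
(.lf (nat_lit 150139) (.g (nat_lit 1526) (.e (nat_lit 57379) (nat_lit 3) (.e (nat_lit 98313) (nat_lit 9) (.e (nat_lit 336027) (nat_lit 3) (.e (nat_lit 98342) (nat_lit 20) (.e (nat_lit 221212) (nat_lit 22) .nil))))) .nil)))))) (.nd (nat_lit 3) (.nd (nat_lit 4) (.nd (nat_lit 5) (.nd (nat_lit 6) 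
(.lf (nat_lit 150023) (.g (nat_lit 2273) (.e (nat_lit 57378) (nat_lit 3) (.e (nat_lit 98372) (nat_lit 29) (.e (nat_lit 450579) (nat_lit 5) (.e (nat_lit 532534) (nat_lit 9) (.e (nat_lit 335878) (nat_lit 0) .nil))))) .nil)) 
(.lf (nat_lit 150087) (.g (nat_lit 3080) (.e (nat_lit 57378) (nat_lit 3) (.e (nat_lit 98380) (nat_lit 31) (.e (nat_lit 466954) (nat_lit 11) (.e (nat_lit 336385) (nat_lit 27) (.e (nat_lit 426100) (nat_lit 1) (.e (nat_lit 164399) (nat_lit 256) .nil)))))) (.g (nat_lit 6) .nil .nil)))) (.nd (nat_lit 6) 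
(.lf (nat_lit 150055) (.g (nat_lit 3634) (.e (nat_lit 57378) (nat_lit 3) (.e (nat_lit 98373) (nat_lit 29) (.e (nat_lit 450587) (nat_lit 10) (.e (nat_lit 573478) (nat_lit 12) .nil)))) .nil)) 
(.lf (nat_lit 150119) (.g (nat_lit 3520) (.e (nat_lit 57378) (nat_lit 3) (.e (nat_lit 98384) (nat_lit 32) (.e (nat_lit 475210) (nat_lit 41) (.e (nat_lit 712745) (nat_lit 27) (.e (nat_lit 426532) (nat_lit 28) (.e (nat_lit 344094) (nat_lit 18) (.e (nat_lit 5570) (nat_lit 308) .nil))))))) (.g (nat_lit 4) .nil .nil))))) (.nd (nat_lit 5) (.nd (nat_lit 6) 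
(.lf (nat_lit 150039) (.g (nat_lit 3089) (.e (nat_lit 57378) (nat_lit 3) (.e (nat_lit 98373) (nat_lit 29) (.e (nat_lit 450562) (nat_lit 0) (.e (nat_lit 6063) (nat_lit 328) .nil)))) .nil)) 
(.lf (nat_lit 150103) (.g (nat_lit 2845) (.e (nat_lit 57378) (nat_lit 3) (.e (nat_lit 98384) (nat_lit 32) (.e (nat_lit 475177) (nat_lit 24) (.e (nat_lit 516149) (nat_lit 9) (.e (nat_lit 426131) (nat_lit 3) (.e (nat_lit 204830) (nat_lit 18) (.e (nat_lit 65280) (nat_lit 211) .nil))))))) (.g (nat_lit 5) .nil .nil)))) (.nd (nat_lit 6) 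
(.lf (nat_lit 150071) (.g (nat_lit 872) (.e (nat_lit 57378) (nat_lit 3) (.e (nat_lit 98373) (nat_lit 29) (.e (nat_lit 450605) (nat_lit 27) .nil))) .nil)) 
(.lf (nat_lit 150135) (.g (nat_lit 2369) (.e (nat_lit 57379) (nat_lit 3) (.e (nat_lit 98313) (nat_lit 9) (.e (nat_lit 336027) (nat_lit 3) (.e (nat_lit 98341) (nat_lit 20) (.e (nat_lit 221214) (nat_lit 23) (.e (nat_lit 204821) (nat_lit 17) (.e (nat_lit 1023) (nat_lit 81) (.e (nat_lit 5195) (nat_lit 294) .nil)))))))) (.g (nat_lit 4) .nil .nil)))))) (.nd (nat_lit 4) (.nd (nat_lit 5) (.nd (nat_lit 6) 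
(.lf (nat_lit 150031) (.g (nat_lit 720) (.e (nat_lit 57378) (nat_lit 3) (.e (nat_lit 98372) (nat_lit 29) (.e (nat_lit 450604) (nat_lit 22) .nil))) .nil)) 
(.lf (nat_lit 150095) (.g (nat_lit 3204) (.e (nat_lit 57378) (nat_lit 3) (.e (nat_lit 98381) (nat_lit 31) (.e (nat_lit 466954) (nat_lit 11) (.e (nat_lit 336387) (nat_lit 27) (.e (nat_lit 426098) (nat_lit 1) (.e (nat_lit 164398) (nat_lit 256) .nil)))))) (.g (nat_lit 0) .nil .nil)))) (.nd (nat_lit 6) 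
(.lf (nat_lit 150063) (.g (nat_lit 4548) (.e (nat_lit 57378) (nat_lit 3) (.e (nat_lit 98373) (nat_lit 29) (.e (nat_lit 450588) (nat_lit 10) (.e (nat_lit 573475) (nat_lit 12) .nil)))) .nil)) 
(.lf (nat_lit 150127) (.g (nat_lit 2849) (.e (nat_lit 57379) (nat_lit 3) (.e (nat_lit 98312) (nat_lit 9) (.e (nat_lit 336220) (nat_lit 13) (.e (nat_lit 393225) (nat_lit 9) (.e (nat_lit 335995) (nat_lit 1) (.e (nat_lit 57848) (nat_lit 252) .nil)))))) (.g (nat_lit 6) .nil .nil))))) (.nd (nat_lit 5) (.nd (nat_lit 6) 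
(.lf (nat_lit 150047) (.g (nat_lit 2932) (.e (nat_lit 57378) (nat_lit 3) (.e (nat_lit 98373) (nat_lit 29) (.e (nat_lit 450563) (nat_lit 0) (.e (nat_lit 6595) (nat_lit 351) .nil)))) .nil)) 
(.lf (nat_lit 150111) (.g (nat_lit 4354) (.e (nat_lit 57378) (nat_lit 3) (.e (nat_lit 98384) (nat_lit 32) (.e (nat_lit 475177) (nat_lit 24) (.e (nat_lit 516169) (nat_lit 13) (.e (nat_lit 458789) (nat_lit 23) (.e (nat_lit 540416) (nat_lit 18) (.e (nat_lit 164403) (nat_lit 256) .nil))))))) (.g (nat_lit 5) .nil .nil)))) (.nd (nat_lit 6) 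
(.lf (nat_lit 150079) (.g (nat_lit 3496) (.e (nat_lit 57378) (nat_lit 3) (.e (nat_lit 98377) (nat_lit 30) (.e (nat_lit 458789) (nat_lit 23) (.e (nat_lit 532515) (nat_lit 3) (.e (nat_lit 114718) (nat_lit 23) (.e (nat_lit 98334) (nat_lit 18) (.e (nat_lit 164401) (nat_lit 256) .nil))))))) (.g (nat_lit 6) .nil .nil))) 
(.lf (nat_lit 150143) (.g (nat_lit 1932) (.e (nat_lit 57379) (nat_lit 3) (.e (nat_lit 98313) (nat_lit 9) (.e (nat_lit 336076) (nat_lit 9) (.e (nat_lit 336452) (nat_lit 34) (.e (nat_lit 483363) (nat_lit 18) (.e (nat_lit 57847) (nat_lit 252) .nil)))))) (.g (nat_lit 4) .nil .nil))))))))))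

noncomputable def tv2000 : DT := (.nd (nat_lit 0) (.nd (nat_lit 1) (.nd (nat_lit 2) (.nd (nat_lit 3) (.nd (nat_lit 4) (.nd (nat_lit 5) 
(.lf (nat_lit 150144) (.g (nat_lit 2919) (.e (nat_lit 57379) (nat_lit 3) (.e (nat_lit 98313) (nat_lit 9) (.e (nat_lit 336076) (nat_lit 9) (.e (nat_lit 336454) (nat_lit 34) (.e (nat_lit 483366) (nat_lit 18) (.e (nat_lit 57847) (nat_lit 252) .nil)))))) (.g (nat_lit 0) .nil .nil))) 
(.lf (nat_lit 150176) (.g (nat_lit 2721) (.e (nat_lit 57379) (nat_lit 3) (.e (nat_lit 98313) (nat_lit 9) (.e (nat_lit 336213) (nat_lit 13) (.e (nat_lit 393229) (nat_lit 9) (.e (nat_lit 335994) (nat_lit 1) (.e (nat_lit 57848) (nat_lit 252) .nil)))))) (.g (nat_lit 0) .nil .nil)))) (.nd (nat_lit 5) 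
(.lf (nat_lit 150160) (.g (nat_lit 2632) (.e (nat_lit 57379) (nat_lit 3) (.e (nat_lit 98313) (nat_lit 9) (.e (nat_lit 336088) (nat_lit 9) (.e (nat_lit 336456) (nat_lit 34) (.e (nat_lit 483363) (nat_lit 18) (.e (nat_lit 57849) (nat_lit 252) .nil)))))) (.g (nat_lit 4) .nil .nil))) 
(.lf (nat_lit 150192) (.g (nat_lit 1414) (.e (nat_lit 57379) (nat_lit 3) (.e (nat_lit 98313) (nat_lit 9) (.e (nat_lit 336223) (nat_lit 13) (.e (nat_lit 393224) (nat_lit 9) .nil)))) .nil)))) (.nd (nat_lit 4) (.nd (nat_lit 5) 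
(.lf (nat_lit 150152) (.g (nat_lit 2356) (.e (nat_lit 57379) (nat_lit 3) (.e (nat_lit 98313) (nat_lit 9) (.e (nat_lit 336086) (nat_lit 9) (.e (nat_lit 336454) (nat_lit 34) (.e (nat_lit 483363) (nat_lit 18) (.e (nat_lit 57849) (nat_lit 252) .nil)))))) (.g (nat_lit 4) .nil .nil))) 
(.lf (nat_lit 150184) (.g (nat_lit 2622) (.e (nat_lit 57379) (nat_lit 3) (.e (nat_lit 98313) (nat_lit 9) (.e (nat_lit 336222) (nat_lit 13) (.e (nat_lit 393224) (nat_lit 9) (.e (nat_lit 335986) (nat_lit 1) (.e (nat_lit 57849) (nat_lit 252) .nil)))))) (.g (nat_lit 5) .nil .nil)))) (.nd (nat_lit 5) 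
(.lf (nat_lit 150168) (.g (nat_lit 2665) (.e (nat_lit 57379) (nat_lit 3) (.e (nat_lit 98313) (nat_lit 9) (.e (nat_lit 336213) (nat_lit 13) (.e (nat_lit 393225) (nat_lit 9) (.e (nat_lit 335995) (nat_lit 1) (.e (nat_lit 57844) (nat_lit 252) .nil)))))) (.g (nat_lit 4) .nil .nil))) 
(.lf (nat_lit 150200) (.g (nat_lit 2257) (.e (nat_lit 57379) (nat_lit 3) (.e (nat_lit 98313) (nat_lit 9) (.e (nat_lit 336223) (nat_lit 13) (.e (nat_lit 393229) (nat_lit 9) (.e (nat_lit 335985) (nat_lit 1) (.e (nat_lit 57849) (nat_lit 252) .nil)))))) (.g (nat_lit 4) .nil .nil)))))) (.nd (nat_lit 3) (.nd (nat_lit 4) (.nd (nat_lit 5) 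
(.lf (nat_lit 150148) (.g (nat_lit 3477) (.e (nat_lit 57379) (nat_lit 3) (.e (nat_lit 98313) (nat_lit 9) (.e (nat_lit 336077) (nat_lit 9) (.e (nat_lit 336454) (nat_lit 34) (.e (nat_lit 483365) (nat_lit 18) (.e (nat_lit 57847) (nat_lit 252) .nil)))))) (.g (nat_lit 0) .nil .nil))) 
(.lf (nat_lit 150180) (.g (nat_lit 3200) (.e (nat_lit 57379) (nat_lit 3) (.e (nat_lit 98313) (nat_lit 9) (.e (nat_lit 336214) (nat_lit 13) (.e (nat_lit 393229) (nat_lit 9) (.e (nat_lit 335995) (nat_lit 1) (.e (nat_lit 57847) (nat_lit 252) .nil)))))) (.g (nat_lit 6) .nil .nil)))) (.nd (nat_lit 5) 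
(.lf (nat_lit 150164) (.g (nat_lit 2868) (.e (nat_lit 57379) (nat_lit 3) (.e (nat_lit 98313) (nat_lit 9) (.e (nat_lit 336212) (nat_lit 13) (.e (nat_lit 393225) (nat_lit 9) (.e (nat_lit 335986) (nat_lit 1) (.e (nat_lit 57847) (nat_lit 252) .nil)))))) (.g (nat_lit 6) .nil .nil))) 
(.lf (nat_lit 150196) (.g (nat_lit 3648) (.e (nat_lit 57379) (nat_lit 3) (.e (nat_lit 98313) (nat_lit 9) (.e (nat_lit 336223) (nat_lit 13) (.e (nat_lit 393225) (nat_lit 9) (.e (nat_lit 335995) (nat_lit 1) (.e (nat_lit 57847) (nat_lit 252) .nil)))))) (.g (nat_lit 0) .nil .nil))))) (.nd (nat_lit 4) (.nd (nat_lit 5) 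
(.lf (nat_lit 150156) (.g (nat_lit 3567) (.e (nat_lit 57379) (nat_lit 3) (.e (nat_lit 98313) (nat_lit 9) (.e (nat_lit 336088) (nat_lit 9) (.e (nat_lit 336454) (nat_lit 34) (.e (nat_lit 483365) (nat_lit 18) (.e (nat_lit 57847) (nat_lit 252) .nil)))))) (.g (nat_lit 0) .nil .nil))) 
(.lf (nat_lit 150188) (.g (nat_lit 2471) (.e (nat_lit 57379) (nat_lit 3) (.e (nat_lit 98313) (nat_lit 9) (.e (nat_lit 336222) (nat_lit 13) (.e (nat_lit 393229) (nat_lit 9) (.e (nat_lit 335995) (nat_lit 1) (.e (nat_lit 57846) (nat_lit 252) .nil)))))) (.g (nat_lit 4) .nil .nil)))) (.nd (nat_lit 5) 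
(.lf (nat_lit 150172) (.g (nat_lit 2303) (.e (nat_lit 57379) (nat_lit 3) (.e (nat_lit 98313) (nat_lit 9) (.e (nat_lit 336213) (nat_lit 13) (.e (nat_lit 393229) (nat_lit 9) (.e (nat_lit 335985) (nat_lit 1) (.e (nat_lit 57849) (nat_lit 252) .nil)))))) (.g (nat_lit 4) .nil .nil))) 
(.lf (nat_lit 150204) (.g (nat_lit 2783) (.e (nat_lit 57379) (nat_lit 3) (.e (nat_lit 98313) (nat_lit 9) (.e (nat_lit 336223) (nat_lit 13) (.e (nat_lit 393229) (nat_lit 9) (.e (nat_lit 335994) (nat_lit 1) (.e (nat_lit 57848) (nat_lit 252) .nil)))))) (.g (nat_lit 0) .nil .nil))))))) (.nd (nat_lit 2) (.nd (nat_lit 3) (.nd (nat_lit 4) (.nd (nat_lit 5) 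
(.lf (nat_lit 150146) (.g (nat_lit 2913) (.e (nat_lit 57379) (nat_lit 3) (.e (nat_lit 98313) (nat_lit 9) (.e (nat_lit 336076) (nat_lit 9) (.e (nat_lit 336456) (nat_lit 34) (.e (nat_lit 483365) (nat_lit 18) (.e (nat_lit 57847) (nat_lit 252) .nil)))))) (.g (nat_lit 6) .nil .nil))) 
(.lf (nat_lit 150178) (.g (nat_lit 1876) (.e (nat_lit 57379) (nat_lit 3) (.e (nat_lit 98313) (nat_lit 9) (.e (nat_lit 336213) (nat_lit 13) (.e (nat_lit 393229) (nat_lit 9) (.e (nat_lit 343808) (nat_lit 1) (.e (nat_lit 57849) (nat_lit 252) .nil)))))) (.g (nat_lit 4) .nil .nil)))) (.nd (nat_lit 5) 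
(.lf (nat_lit 150162) (.g (nat_lit 3314) (.e (nat_lit 57379) (nat_lit 3) (.e (nat_lit 98313) (nat_lit 9) (.e (nat_lit 336088) (nat_lit 9) (.e (nat_lit 336456) (nat_lit 34) (.e (nat_lit 483365) (nat_lit 18) (.e (nat_lit 57847) (nat_lit 252) .nil)))))) (.g (nat_lit 6) .nil .nil))) 
(.lf (nat_lit 150194) (.g (nat_lit 2799) (.e (nat_lit 57379) (nat_lit 3) (.e (nat_lit 98313) (nat_lit 9) (.e (nat_lit 336223) (nat_lit 13) (.e (nat_lit 393224) (nat_lit 9) (.e (nat_lit 335995) (nat_lit 1) (.e (nat_lit 57847) (nat_lit 252) .nil)))))) (.g (nat_lit 5) .nil .nil))))) (.nd (nat_lit 4) (.nd (nat_lit 5) 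
(.lf (nat_lit 150154) (.g (nat_lit 1464) (.e (nat_lit 57379) (nat_lit 3) (.e (nat_lit 98313) (nat_lit 9) (.e (nat_lit 336086) (nat_lit 9) (.e (nat_lit 336456) (nat_lit 34) .nil)))) .nil)) 
(.lf (nat_lit 150186) (.g (nat_lit 2010) (.e (nat_lit 57379) (nat_lit 3) (.e (nat_lit 98313) (nat_lit 9) (.e (nat_lit 336222) (nat_lit 13) (.e (nat_lit 393225) (nat_lit 9) (.e (nat_lit 335995) (nat_lit 1) (.e (nat_lit 57848) (nat_lit 252) .nil)))))) (.g (nat_lit 4) .nil .nil)))) (.nd (nat_lit 5) 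
(.lf (nat_lit 150170) (.g (nat_lit 3413) (.e (nat_lit 57379) (nat_lit 3) (.e (nat_lit 98313) (nat_lit 9) (.e (nat_lit 336213) (nat_lit 13) (.e (nat_lit 393225) (nat_lit 9) (.e (nat_lit 335995) (nat_lit 1) (.e (nat_lit 57848) (nat_lit 252) .nil)))))) (.g (nat_lit 0) .nil .nil))) 
(.lf (nat_lit 150202) (.g (nat_lit 2281) (.e (nat_lit 57379) (nat_lit 3) (.e (nat_lit 98313) (nat_lit 9) (.e (nat_lit 336223) (nat_lit 13) (.e (nat_lit 393229) (nat_lit 9) (.e (nat_lit 335993) (nat_lit 1) (.e (nat_lit 57849) (nat_lit 252) .nil)))))) (.g (nat_lit 4) .nil .nil)))))) (.nd (nat_lit 3) (.nd (nat_lit 4) (.nd (nat_lit 5) 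
(.lf (nat_lit 150150) (.g (nat_lit 3309) (.e (nat_lit 57379) (nat_lit 3) (.e (nat_lit 98313) (nat_lit 9) (.e (nat_lit 336078) (nat_lit 9) (.e (nat_lit 336454) (nat_lit 34) (.e (nat_lit 483365) (nat_lit 18) (.e (nat_lit 57847) (nat_lit 252) .nil)))))) (.g (nat_lit 0) .nil .nil))) 
(.lf (nat_lit 150182) (.g (nat_lit 2901) (.e (nat_lit 57379) (nat_lit 3) (.e (nat_lit 98313) (nat_lit 9) (.e (nat_lit 336215) (nat_lit 13) (.e (nat_lit 393229) (nat_lit 9) (.e (nat_lit 335986) (nat_lit 1) (.e (nat_lit 57849) (nat_lit 252) .nil)))))) (.g (nat_lit 5) .nil .nil)))) (.nd (nat_lit 5) 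
(.lf (nat_lit 150166) (.g (nat_lit 2757) (.e (nat_lit 57379) (nat_lit 3) (.e (nat_lit 98313) (nat_lit 9) (.e (nat_lit 336212) (nat_lit 13) (.e (nat_lit 393225) (nat_lit 9) (.e (nat_lit 335995) (nat_lit 1) (.e (nat_lit 57848) (nat_lit 252) .nil)))))) (.g (nat_lit 5) .nil .nil))) 
(.lf (nat_lit 150198) (.g (nat_lit 2488) (.e (nat_lit 57379) (nat_lit 3) (.e (nat_lit 98313) (nat_lit 9) (.e (nat_lit 336223) (nat_lit 13) (.e (nat_lit 393228) (nat_lit 9) (.e (nat_lit 335986) (nat_lit 1) (.e (nat_lit 57849) (nat_lit 252) .nil)))))) (.g (nat_lit 4) .nil .nil))))) (.nd (nat_lit 4) (.nd (nat_lit 5) 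
(.lf (nat_lit 150158) (.g (nat_lit 2910) (.e (nat_lit 57379) (nat_lit 3) (.e (nat_lit 98313) (nat_lit 9) (.e (nat_lit 336088) (nat_lit 9) (.e (nat_lit 336454) (nat_lit 34) (.e (nat_lit 483366) (nat_lit 18) (.e (nat_lit 57848) (nat_lit 252) .nil)))))) (.g (nat_lit 0) .nil .nil))) 
(.lf (nat_lit 150190) (.g (nat_lit 1734) (.e (nat_lit 57379) (nat_lit 3) (.e (nat_lit 98313) (nat_lit 9) (.e (nat_lit 336222) (nat_lit 13) (.e (nat_lit 393229) (nat_lit 9) (.e (nat_lit 343808) (nat_lit 1) .nil))))) .nil))) (.nd (nat_lit 5) 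
(.lf (nat_lit 150174) (.g (nat_lit 2324) (.e (nat_lit 57379) (nat_lit 3) (.e (nat_lit 98313) (nat_lit 9) (.e (nat_lit 336213) (nat_lit 13) (.e (nat_lit 393229) (nat_lit 9) (.e (nat_lit 335993) (nat_lit 1) (.e (nat_lit 57849) (nat_lit 252) .nil)))))) (.g (nat_lit 4) .nil .nil))) 
(.lf (nat_lit 150206) (.g (nat_lit 1760) (.e (nat_lit 57379) (nat_lit 3) (.e (nat_lit 98313) (nat_lit 9) (.e (nat_lit 336223) (nat_lit 13) (.e (nat_lit 393229) (nat_lit 9) (.e (nat_lit 343808) (nat_lit 1) (.e (nat_lit 57849) (nat_lit 252) .nil)))))) (.g (nat_lit 4) .nil .nil)))))))) (.nd (nat_lit 1) (.nd (nat_lit 2) (.nd (nat_lit 3) (.nd (nat_lit 4) (.nd (nat_lit 5) 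
(.lf (nat_lit 150145) (.g (nat_lit 2230) (.e (nat_lit 57379) (nat_lit 3) (.e (nat_lit 98313) (nat_lit 9) (.e (nat_lit 336076) (nat_lit 9) (.e (nat_lit 336456) (nat_lit 34) (.e (nat_lit 483363) (nat_lit 18) (.e (nat_lit 57849) (nat_lit 252) .nil)))))) (.g (nat_lit 4) .nil .nil))) 
(.lf (nat_lit 150177) (.g (nat_lit 3340) (.e (nat_lit 57379) (nat_lit 3) (.e (nat_lit 98313) (nat_lit 9) (.e (nat_lit 336213) (nat_lit 13) (.e (nat_lit 393229) (nat_lit 9) (.e (nat_lit 335995) (nat_lit 1) (.e (nat_lit 57847) (nat_lit 252) .nil)))))) (.g (nat_lit 0) .nil .nil)))) (.nd (nat_lit 5) 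
(.lf (nat_lit 150161) (.g (nat_lit 2725) (.e (nat_lit 57379) (nat_lit 3) (.e (nat_lit 98313) (nat_lit 9) (.e (nat_lit 336088) (nat_lit 9) (.e (nat_lit 336456) (nat_lit 34) (.e (nat_lit 483365) (nat_lit 18) (.e (nat_lit 57846) (nat_lit 252) .nil)))))) (.g (nat_lit 4) .nil .nil))) 
(.lf (nat_lit 150193) (.g (nat_lit 3746) (.e (nat_lit 57379) (nat_lit 3) (.e (nat_lit 98313) (nat_lit 9) (.e (nat_lit 336223) (nat_lit 13) (.e (nat_lit 393224) (nat_lit 9) (.e (nat_lit 335986) (nat_lit 1) (.e (nat_lit 57849) (nat_lit 252) .nil)))))) (.g (nat_lit 6) .nil .nil))))) (.nd (nat_lit 4) (.nd (nat_lit 5) 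
(.lf (nat_lit 150153) (.g (nat_lit 3018) (.e (nat_lit 57379) (nat_lit 3) (.e (nat_lit 98313) (nat_lit 9) (.e (nat_lit 336086) (nat_lit 9) (.e (nat_lit 336454) (nat_lit 34) (.e (nat_lit 483365) (nat_lit 18) (.e (nat_lit 57847) (nat_lit 252) .nil)))))) (.g (nat_lit 5) .nil .nil))) 
(.lf (nat_lit 150185) (.g (nat_lit 2881) (.e (nat_lit 57379) (nat_lit 3) (.e (nat_lit 98313) (nat_lit 9) (.e (nat_lit 336222) (nat_lit 13) (.e (nat_lit 393225) (nat_lit 9) (.e (nat_lit 335986) (nat_lit 1) (.e (nat_lit 57847) (nat_lit 252) .nil)))))) (.g (nat_lit 6) .nil .nil)))) (.nd (nat_lit 5) 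
(.lf (nat_lit 150169) (.g (nat_lit 3763) (.e (nat_lit 57379) (nat_lit 3) (.e (nat_lit 98313) (nat_lit 9) (.e (nat_lit 336213) (nat_lit 13) (.e (nat_lit 393225) (nat_lit 9) (.e (nat_lit 335995) (nat_lit 1) (.e (nat_lit 57847) (nat_lit 252) .nil)))))) (.g (nat_lit 0) .nil .nil))) 
(.lf (nat_lit 150201) (.g (nat_lit 3126) (.e (nat_lit 57379) (nat_lit 3) (.e (nat_lit 98313) (nat_lit 9) (.e (nat_lit 336223) (nat_lit 13) (.e (nat_lit 393229) (nat_lit 9) (.e (nat_lit 335986) (nat_lit 1) (.e (nat_lit 57847) (nat_lit 252) .nil)))))) (.g (nat_lit 0) .nil .nil)))))) (.nd (nat_lit 3) (.nd (nat_lit 4) (.nd (nat_lit 5) 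
(.lf (nat_lit 150149) (.g (nat_lit 3480) (.e (nat_lit 57379) (nat_lit 3) (.e (nat_lit 98313) (nat_lit 9) (.e (nat_lit 336078) (nat_lit 9) (.e (nat_lit 336454) (nat_lit 34) (.e (nat_lit 483363) (nat_lit 18) (.e (nat_lit 57847) (nat_lit 252) .nil)))))) (.g (nat_lit 6) .nil .nil))) 
(.lf (nat_lit 150181) (.g (nat_lit 3568) (.e (nat_lit 57379) (nat_lit 3) (.e (nat_lit 98313) (nat_lit 9) (.e (nat_lit 336215) (nat_lit 13) (.e (nat_lit 393229) (nat_lit 9) (.e (nat_lit 335986) (nat_lit 1) (.e (nat_lit 57847) (nat_lit 252) .nil)))))) (.g (nat_lit 0) .nil .nil)))) (.nd (nat_lit 5) 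
(.lf (nat_lit 150165) (.g (nat_lit 3396) (.e (nat_lit 57379) (nat_lit 3) (.e (nat_lit 98313) (nat_lit 9) (.e (nat_lit 336212) (nat_lit 13) (.e (nat_lit 393225) (nat_lit 9) (.e (nat_lit 335995) (nat_lit 1) (.e (nat_lit 57847) (nat_lit 252) .nil)))))) (.g (nat_lit 6) .nil .nil))) 
(.lf (nat_lit 150197) (.g (nat_lit 3294) (.e (nat_lit 57379) (nat_lit 3) (.e (nat_lit 98313) (nat_lit 9) (.e (nat_lit 336223) (nat_lit 13) (.e (nat_lit 393225) (nat_lit 9) (.e (nat_lit 335995) (nat_lit 1) (.e (nat_lit 57848) (nat_lit 252) .nil)))))) (.g (nat_lit 0) .nil .nil))))) (.nd (nat_lit 4) (.nd (nat_lit 5) 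
(.lf (nat_lit 150157) (.g (nat_lit 3020) (.e (nat_lit 57379) (nat_lit 3) (.e (nat_lit 98313) (nat_lit 9) (.e (nat_lit 336088) (nat_lit 9) (.e (nat_lit 336454) (nat_lit 34) (.e (nat_lit 483366) (nat_lit 18) (.e (nat_lit 57847) (nat_lit 252) .nil)))))) (.g (nat_lit 0) .nil .nil))) 
(.lf (nat_lit 150189) (.g (nat_lit 3418) (.e (nat_lit 57379) (nat_lit 3) (.e (nat_lit 98313) (nat_lit 9) (.e (nat_lit 336222) (nat_lit 13) (.e (nat_lit 393229) (nat_lit 9) (.e (nat_lit 335995) (nat_lit 1) (.e (nat_lit 57847) (nat_lit 252) .nil)))))) (.g (nat_lit 0) .nil .nil)))) (.nd (nat_lit 5) 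
(.lf (nat_lit 150173) (.g (nat_lit 3020) (.e (nat_lit 57379) (nat_lit 3) (.e (nat_lit 98313) (nat_lit 9) (.e (nat_lit 336213) (nat_lit 13) (.e (nat_lit 393229) (nat_lit 9) (.e (nat_lit 335986) (nat_lit 1) (.e (nat_lit 57847) (nat_lit 252) .nil)))))) (.g (nat_lit 0) .nil .nil))) 
(.lf (nat_lit 150205) (.g (nat_lit 3471) (.e (nat_lit 57379) (nat_lit 3) (.e (nat_lit 98313) (nat_lit 9) (.e (nat_lit 336223) (nat_lit 13) (.e (nat_lit 393229) (nat_lit 9) (.e (nat_lit 335995) (nat_lit 1) (.e (nat_lit 57847) (nat_lit 252) .nil)))))) (.g (nat_lit 0) .nil .nil))))))) (.nd (nat_lit 2) (.nd (nat_lit 3) (.nd (nat_lit 4) (.nd (nat_lit 5) 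
(.lf (nat_lit 150147) (.g (nat_lit 3086) (.e (nat_lit 57379) (nat_lit 3) (.e (nat_lit 98313) (nat_lit 9) (.e (nat_lit 336077) (nat_lit 9) (.e (nat_lit 336454) (nat_lit 34) (.e (nat_lit 483363) (nat_lit 18) (.e (nat_lit 57847) (nat_lit 252) .nil)))))) (.g (nat_lit 6) .nil .nil))) 
(.lf (nat_lit 150179) (.g (nat_lit 2855) (.e (nat_lit 57379) (nat_lit 3) (.e (nat_lit 98313) (nat_lit 9) (.e (nat_lit 336214) (nat_lit 13) (.e (nat_lit 393229) (nat_lit 9) (.e (nat_lit 335986) (nat_lit 1) (.e (nat_lit 57847) (nat_lit 252) .nil)))))) (.g (nat_lit 6) .nil .nil)))) (.nd (nat_lit 5) 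
(.lf (nat_lit 150163) (.g (nat_lit 1092) (.e (nat_lit 57379) (nat_lit 3) (.e (nat_lit 98313) (nat_lit 9) (.e (nat_lit 336196) (nat_lit 12) (.e (nat_lit 392960) (nat_lit 10) .nil)))) .nil)) 
(.lf (nat_lit 150195) (.g (nat_lit 3182) (.e (nat_lit 57379) (nat_lit 3) (.e (nat_lit 98313) (nat_lit 9) (.e (nat_lit 336223) (nat_lit 13) (.e (nat_lit 393225) (nat_lit 9) (.e (nat_lit 335986) (nat_lit 1) (.e (nat_lit 57847) (nat_lit 252) .nil)))))) (.g (nat_lit 0) .nil .nil))))) (.nd (nat_lit 4) (.nd (nat_lit 5) 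
(.lf (nat_lit 150155) (.g (nat_lit 3507) (.e (nat_lit 57379) (nat_lit 3) (.e (nat_lit 98313) (nat_lit 9) (.e (nat_lit 336088) (nat_lit 9) (.e (nat_lit 336454) (nat_lit 34) (.e (nat_lit 483363) (nat_lit 18) (.e (nat_lit 57847) (nat_lit 252) .nil)))))) (.g (nat_lit 0) .nil .nil))) 
(.lf (nat_lit 150187) (.g (nat_lit 3103) (.e (nat_lit 57379) (nat_lit 3) (.e (nat_lit 98313) (nat_lit 9) (.e (nat_lit 336222) (nat_lit 13) (.e (nat_lit 393229) (nat_lit 9) (.e (nat_lit 335986) (nat_lit 1) (.e (nat_lit 57847) (nat_lit 252) .nil)))))) (.g (nat_lit 0) .nil .nil)))) (.nd (nat_lit 5) 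
(.lf (nat_lit 150171) (.g (nat_lit 2234) (.e (nat_lit 57379) (nat_lit 3) (.e (nat_lit 98313) (nat_lit 9) (.e (nat_lit 336213) (nat_lit 13) (.e (nat_lit 393229) (nat_lit 9) (.e (nat_lit 335933) (nat_lit 0) .nil))))) .nil)) 
(.lf (nat_lit 150203) (.g (nat_lit 2894) (.e (nat_lit 57379) (nat_lit 3) (.e (nat_lit 98313) (nat_lit 9) (.e (nat_lit 336223) (nat_lit 13) (.e (nat_lit 393229) (nat_lit 9) (.e (nat_lit 335994) (nat_lit 1) (.e (nat_lit 57847) (nat_lit 252) .nil)))))) (.g (nat_lit 0) .nil .nil)))))) (.nd (nat_lit 3) (.nd (nat_lit 4) (.nd (nat_lit 5) 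
(.lf (nat_lit 150151) (.g (nat_lit 3055) (.e (nat_lit 57379) (nat_lit 3) (.e (nat_lit 98313) (nat_lit 9) (.e (nat_lit 336086) (nat_lit 9) (.e (nat_lit 336454) (nat_lit 34) (.e (nat_lit 483363) (nat_lit 18) (.e (nat_lit 57847) (nat_lit 252) .nil)))))) (.g (nat_lit 5) .nil .nil))) 
(.lf (nat_lit 150183) (.g (nat_lit 3666) (.e (nat_lit 57379) (nat_lit 3) (.e (nat_lit 98313) (nat_lit 9) (.e (nat_lit 336215) (nat_lit 13) (.e (nat_lit 393229) (nat_lit 9) (.e (nat_lit 335995) (nat_lit 1) (.e (nat_lit 57847) (nat_lit 252) .nil)))))) (.g (nat_lit 0) .nil .nil)))) (.nd (nat_lit 5) 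
(.lf (nat_lit 150167) (.g (nat_lit 3302) (.e (nat_lit 57379) (nat_lit 3) (.e (nat_lit 98313) (nat_lit 9) (.e (nat_lit 336213) (nat_lit 13) (.e (nat_lit 393225) (nat_lit 9) (.e (nat_lit 335986) (nat_lit 1) (.e (nat_lit 57847) (nat_lit 252) .nil)))))) (.g (nat_lit 0) .nil .nil))) 
(.lf (nat_lit 150199) (.g (nat_lit 1943) (.e (nat_lit 57379) (nat_lit 3) (.e (nat_lit 98313) (nat_lit 9) (.e (nat_lit 336223) (nat_lit 13) (.e (nat_lit 393229) (nat_lit 9) (.e (nat_lit 335933) (nat_lit 0) .nil))))) .nil)))) (.nd (nat_lit 4) (.nd (nat_lit 5) 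
(.lf (nat_lit 150159) (.g (nat_lit 3285) (.e (nat_lit 57379) (nat_lit 3) (.e (nat_lit 98313) (nat_lit 9) (.e (nat_lit 336088) (nat_lit 9) (.e (nat_lit 336456) (nat_lit 34) (.e (nat_lit 483363) (nat_lit 18) (.e (nat_lit 57847) (nat_lit 252) .nil)))))) (.g (nat_lit 6) .nil .nil))) 
(.lf (nat_lit 150191) (.g (nat_lit 2406) (.e (nat_lit 57379) (nat_lit 3) (.e (nat_lit 98313) (nat_lit 9) (.e (nat_lit 336223) (nat_lit 13) (.e (nat_lit 393217) (nat_lit 0) .nil)))) .nil))) (.nd (nat_lit 5) 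
(.lf (nat_lit 150175) (.g (nat_lit 2810) (.e (nat_lit 57379) (nat_lit 3) (.e (nat_lit 98313) (nat_lit 9) (.e (nat_lit 336213) (nat_lit 13) (.e (nat_lit 393229) (nat_lit 9) (.e (nat_lit 335994) (nat_lit 1) (.e (nat_lit 57847) (nat_lit 252) .nil)))))) (.g (nat_lit 0) .nil .nil))) 
(.lf (nat_lit 150207) (.g (nat_lit 1612) (.e (nat_lit 57379) (nat_lit 3) (.e (nat_lit 98313) (nat_lit 9) (.e (nat_lit 336223) (nat_lit 13) (.e (nat_lit 393234) (nat_lit 17) (.e (nat_lit 3565) (nat_lit 222) (.e (nat_lit 737315) (nat_lit 12) (.e (nat_lit 8553) (nat_lit 232) .nil))))))) (.g (nat_lit 4) .nil .nil)))))))))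

noncomputable def tv2001 : DT := (.nd (nat_lit 0) (.nd (nat_lit 1) (.nd (nat_lit 2) (.nd (nat_lit 3) (.nd (nat_lit 4) (.nd (nat_lit 5) 
(.lf (nat_lit 150208) (.g (nat_lit 1602) (.e (nat_lit 57379) (nat_lit 3) (.e (nat_lit 98313) (nat_lit 9) (.e (nat_lit 336223) (nat_lit 13) (.e (nat_lit 393234) (nat_lit 17) (.e (nat_lit 3568) (nat_lit 222) .nil))))) .nil)) 
(.lf (nat_lit 150240) (.g (nat_lit 3246) (.e (nat_lit 57379) (nat_lit 3) (.e (nat_lit 98317) (nat_lit 9) (.e (nat_lit 336027) (nat_lit 3) (.e (nat_lit 98342) (nat_lit 20) (.e (nat_lit 221215) (nat_lit 23) (.e (nat_lit 204828) (nat_lit 18) (.e (nat_lit 57849) (nat_lit 252) .nil))))))) (.g (nat_lit 5) .nil .nil)))) (.nd (nat_lit 5) 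
(.lf (nat_lit 150224) (.g (nat_lit 3026) (.e (nat_lit 57379) (nat_lit 3) (.e (nat_lit 98316) (nat_lit 9) (.e (nat_lit 336220) (nat_lit 13) (.e (nat_lit 393225) (nat_lit 9) (.e (nat_lit 335995) (nat_lit 1) (.e (nat_lit 57848) (nat_lit 252) .nil)))))) (.g (nat_lit 0) .nil .nil))) 
(.lf (nat_lit 150256) (.g (nat_lit 2224) (.e (nat_lit 57379) (nat_lit 3) (.e (nat_lit 98317) (nat_lit 9) (.e (nat_lit 336076) (nat_lit 9) (.e (nat_lit 336456) (nat_lit 34) (.e (nat_lit 483365) (nat_lit 18) (.e (nat_lit 57848) (nat_lit 252) .nil)))))) (.g (nat_lit 4) .nil .nil))))) (.nd (nat_lit 4) (.nd (nat_lit 5) 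
(.lf (nat_lit 150216) (.g (nat_lit 1612) (.e (nat_lit 57379) (nat_lit 3) (.e (nat_lit 98316) (nat_lit 9) (.e (nat_lit 336076) (nat_lit 9) (.e (nat_lit 336454) (nat_lit 34) (.e (nat_lit 483366) (nat_lit 18) (.e (nat_lit 57847) (nat_lit 252) .nil)))))) (.g (nat_lit 4) .nil .nil))) 
(.lf (nat_lit 150248) (.g (nat_lit 2708) (.e (nat_lit 57379) (nat_lit 3) (.e (nat_lit 98317) (nat_lit 9) (.e (nat_lit 336076) (nat_lit 9) (.e (nat_lit 336452) (nat_lit 34) (.e (nat_lit 483363) (nat_lit 18) (.e (nat_lit 57849) (nat_lit 252) .nil)))))) (.g (nat_lit 5) .nil .nil)))) (.nd (nat_lit 5) 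
(.lf (nat_lit 150232) (.g (nat_lit 2217) (.e (nat_lit 57379) (nat_lit 3) (.e (nat_lit 98317) (nat_lit 9) (.e (nat_lit 336027) (nat_lit 3) (.e (nat_lit 98341) (nat_lit 20) (.e (nat_lit 221214) (nat_lit 23) (.e (nat_lit 204821) (nat_lit 17) (.e (nat_lit 1040) (nat_lit 81) (.e (nat_lit 5195) (nat_lit 294) .nil)))))))) (.g (nat_lit 4) .nil .nil))) 
(.lf (nat_lit 150264) (.g (nat_lit 2475) (.e (nat_lit 57379) (nat_lit 3) (.e (nat_lit 98317) (nat_lit 9) (.e (nat_lit 336086) (nat_lit 9) (.e (nat_lit 336369) (nat_lit 27) (.e (nat_lit 426497) (nat_lit 27) (.e (nat_lit 335986) (nat_lit 1) (.e (nat_lit 57849) (nat_lit 252) .nil))))))) (.g (nat_lit 4) .nil .nil)))))) (.nd (nat_lit 3) (.nd (nat_lit 4) (.nd (nat_lit 5) 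
(.lf (nat_lit 150212) (.g (nat_lit 1837) (.e (nat_lit 57379) (nat_lit 3) (.e (nat_lit 98315) (nat_lit 9) (.e (nat_lit 336153) (nat_lit 9) (.e (nat_lit 336453) (nat_lit 34) (.e (nat_lit 483363) (nat_lit 18) (.e (nat_lit 57847) (nat_lit 252) .nil)))))) (.g (nat_lit 6) .nil .nil))) 
(.lf (nat_lit 150244) (.g (nat_lit 382) (.e (nat_lit 57379) (nat_lit 3) (.e (nat_lit 98317) (nat_lit 9) (.e (nat_lit 336076) (nat_lit 9) .nil))) .nil))) (.nd (nat_lit 5) 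
(.lf (nat_lit 150228) (.g (nat_lit 948) (.e (nat_lit 57379) (nat_lit 3) (.e (nat_lit 98317) (nat_lit 9) (.e (nat_lit 336021) (nat_lit 3) .nil))) .nil)) 
(.lf (nat_lit 150260) (.g (nat_lit 3371) (.e (nat_lit 57379) (nat_lit 3) (.e (nat_lit 98317) (nat_lit 9) (.e (nat_lit 336078) (nat_lit 9) (.e (nat_lit 336454) (nat_lit 34) (.e (nat_lit 483365) (nat_lit 18) (.e (nat_lit 57846) (nat_lit 252) .nil)))))) (.g (nat_lit 5) .nil .nil))))) (.nd (nat_lit 4) (.nd (nat_lit 5) 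
(.lf (nat_lit 150220) (.g (nat_lit 1617) (.e (nat_lit 57379) (nat_lit 3) (.e (nat_lit 98316) (nat_lit 9) (.e (nat_lit 336212) (nat_lit 13) (.e (nat_lit 393225) (nat_lit 9) (.e (nat_lit 335995) (nat_lit 1) (.e (nat_lit 57848) (nat_lit 252) .nil)))))) (.g (nat_lit 4) .nil .nil))) 
(.lf (nat_lit 150252) (.g (nat_lit 3459) (.e (nat_lit 57379) (nat_lit 3) (.e (nat_lit 98317) (nat_lit 9) (.e (nat_lit 336076) (nat_lit 9) (.e (nat_lit 336454) (nat_lit 34) (.e (nat_lit 483366) (nat_lit 18) (.e (nat_lit 57846) (nat_lit 252) .nil)))))) (.g (nat_lit 6) .nil .nil)))) (.nd (nat_lit 5) 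
(.lf (nat_lit 150236) (.g (nat_lit 2941) (.e (nat_lit 57379) (nat_lit 3) (.e (nat_lit 98317) (nat_lit 9) (.e (nat_lit 336027) (nat_lit 3) (.e (nat_lit 98342) (nat_lit 20) (.e (nat_lit 221212) (nat_lit 22) (.e (nat_lit 196660) (nat_lit 12) (.e (nat_lit 57354) (nat_lit 0) (.e (nat_lit 5195) (nat_lit 294) .nil)))))))) (.g (nat_lit 5) .nil .nil))) 
(.lf (nat_lit 150268) (.g (nat_lit 2670) (.e (nat_lit 57379) (nat_lit 3) (.e (nat_lit 98317) (nat_lit 9) (.e (nat_lit 336086) (nat_lit 9) (.e (nat_lit 336369) (nat_lit 27) (.e (nat_lit 426501) (nat_lit 27) (.e (nat_lit 335986) (nat_lit 1) (.e (nat_lit 57849) (nat_lit 252) .nil))))))) (.g (nat_lit 5) .nil .nil))))))) (.nd (nat_lit 2) (.nd (nat_lit 3) (.nd (nat_lit 4) (.nd (nat_lit 5) 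
(.lf (nat_lit 150210) (.g (nat_lit 1917) (.e (nat_lit 57379) (nat_lit 3) (.e (nat_lit 98315) (nat_lit 9) (.e (nat_lit 336119) (nat_lit 9) (.e (nat_lit 336453) (nat_lit 34) (.e (nat_lit 483363) (nat_lit 18) (.e (nat_lit 57847) (nat_lit 252) .nil)))))) (.g (nat_lit 6) .nil .nil))) 
(.lf (nat_lit 150242) (.g (nat_lit 979) (.e (nat_lit 57379) (nat_lit 3) (.e (nat_lit 98317) (nat_lit 9) (.e (nat_lit 336069) (nat_lit 8) (.e (nat_lit 327694) (nat_lit 3) .nil)))) .nil))) (.nd (nat_lit 5) 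
(.lf (nat_lit 150226) (.g (nat_lit 1338) (.e (nat_lit 57379) (nat_lit 3) (.e (nat_lit 98316) (nat_lit 9) (.e (nat_lit 336223) (nat_lit 13) (.e (nat_lit 393225) (nat_lit 9) (.e (nat_lit 335995) (nat_lit 1) .nil))))) .nil)) 
(.lf (nat_lit 150258) (.g (nat_lit 3398) (.e (nat_lit 57379) (nat_lit 3) (.e (nat_lit 98317) (nat_lit 9) (.e (nat_lit 336077) (nat_lit 9) (.e (nat_lit 336454) (nat_lit 34) (.e (nat_lit 483363) (nat_lit 18) (.e (nat_lit 57849) (nat_lit 252) .nil)))))) (.g (nat_lit 6) .nil .nil))))) (.nd (nat_lit 4) (.nd (nat_lit 5) 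
(.lf (nat_lit 150218) (.g (nat_lit 1854) (.e (nat_lit 57379) (nat_lit 3) (.e (nat_lit 98316) (nat_lit 9) (.e (nat_lit 336086) (nat_lit 9) (.e (nat_lit 336369) (nat_lit 27) (.e (nat_lit 426499) (nat_lit 27) .nil))))) .nil)) 
(.lf (nat_lit 150250) (.g (nat_lit 2359) (.e (nat_lit 57379) (nat_lit 3) (.e (nat_lit 98317) (nat_lit 9) (.e (nat_lit 336076) (nat_lit 9) (.e (nat_lit 336454) (nat_lit 34) (.e (nat_lit 483365) (nat_lit 18) (.e (nat_lit 57844) (nat_lit 252) .nil)))))) (.g (nat_lit 4) .nil .nil)))) (.nd (nat_lit 5) 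
(.lf (nat_lit 150234) (.g (nat_lit 2180) (.e (nat_lit 57379) (nat_lit 3) (.e (nat_lit 98317) (nat_lit 9) (.e (nat_lit 336027) (nat_lit 3) (.e (nat_lit 98341) (nat_lit 20) (.e (nat_lit 221215) (nat_lit 23) (.e (nat_lit 204821) (nat_lit 17) (.e (nat_lit 1040) (nat_lit 81) (.e (nat_lit 5195) (nat_lit 294) .nil)))))))) (.g (nat_lit 4) .nil .nil))) 
(.lf (nat_lit 150266) (.g (nat_lit 1999) (.e (nat_lit 57379) (nat_lit 3) (.e (nat_lit 98317) (nat_lit 9) (.e (nat_lit 336086) (nat_lit 9) (.e (nat_lit 336369) (nat_lit 27) (.e (nat_lit 426499) (nat_lit 27) .nil))))) .nil))))) (.nd (nat_lit 3) (.nd (nat_lit 4) (.nd (nat_lit 5) 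
(.lf (nat_lit 150214) (.g (nat_lit 1630) (.e (nat_lit 57379) (nat_lit 3) (.e (nat_lit 98315) (nat_lit 9) (.e (nat_lit 336154) (nat_lit 9) (.e (nat_lit 336453) (nat_lit 34) (.e (nat_lit 483366) (nat_lit 18) (.e (nat_lit 57847) (nat_lit 252) .nil)))))) (.g (nat_lit 6) .nil .nil))) 
(.lf (nat_lit 150246) (.g (nat_lit 1527) (.e (nat_lit 57379) (nat_lit 3) (.e (nat_lit 98317) (nat_lit 9) (.e (nat_lit 336076) (nat_lit 9) (.e (nat_lit 336452) (nat_lit 34) .nil)))) .nil))) (.nd (nat_lit 5) 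
(.lf (nat_lit 150230) (.g (nat_lit 2347) (.e (nat_lit 57379) (nat_lit 3) (.e (nat_lit 98317) (nat_lit 9) (.e (nat_lit 336027) (nat_lit 3) (.e (nat_lit 98341) (nat_lit 20) (.e (nat_lit 221212) (nat_lit 22) (.e (nat_lit 196660) (nat_lit 12) (.e (nat_lit 57354) (nat_lit 0) (.e (nat_lit 5195) (nat_lit 294) .nil)))))))) (.g (nat_lit 4) .nil .nil))) 
(.lf (nat_lit 150262) (.g (nat_lit 2788) (.e (nat_lit 57379) (nat_lit 3) (.e (nat_lit 98317) (nat_lit 9) (.e (nat_lit 336085) (nat_lit 9) (.e (nat_lit 336454) (nat_lit 34) (.e (nat_lit 483363) (nat_lit 18) (.e (nat_lit 57847) (nat_lit 252) .nil)))))) (.g (nat_lit 5) .nil .nil))))) (.nd (nat_lit 4) (.nd (nat_lit 5) 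
(.lf (nat_lit 150222) (.g (nat_lit 2677) (.e (nat_lit 57379) (nat_lit 3) (.e (nat_lit 98316) (nat_lit 9) (.e (nat_lit 336213) (nat_lit 13) (.e (nat_lit 393225) (nat_lit 9) (.e (nat_lit 335995) (nat_lit 1) (.e (nat_lit 57848) (nat_lit 252) .nil)))))) (.g (nat_lit 5) .nil .nil))) 
(.lf (nat_lit 150254) (.g (nat_lit 2222) (.e (nat_lit 57379) (nat_lit 3) (.e (nat_lit 98317) (nat_lit 9) (.e (nat_lit 336076) (nat_lit 9) (.e (nat_lit 336456) (nat_lit 34) (.e (nat_lit 483357) (nat_lit 17) .nil))))) .nil))) (.nd (nat_lit 5) 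
(.lf (nat_lit 150238) (.g (nat_lit 2685) (.e (nat_lit 57379) (nat_lit 3) (.e (nat_lit 98317) (nat_lit 9) (.e (nat_lit 336027) (nat_lit 3) (.e (nat_lit 98342) (nat_lit 20) (.e (nat_lit 221214) (nat_lit 23) (.e (nat_lit 204829) (nat_lit 18) (.e (nat_lit 57849) (nat_lit 252) .nil))))))) (.g (nat_lit 5) .nil .nil))) 
(.lf (nat_lit 150270) (.g (nat_lit 1820) (.e (nat_lit 57379) (nat_lit 3) (.e (nat_lit 98317) (nat_lit 9) (.e (nat_lit 336086) (nat_lit 9) (.e (nat_lit 336375) (nat_lit 27) (.e (nat_lit 426525) (nat_lit 27) (.e (nat_lit 335986) (nat_lit 1) (.e (nat_lit 57849) (nat_lit 252) .nil))))))) (.g (nat_lit 4) .nil .nil)))))))) 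
(.nd (nat_lit 1) (.nd (nat_lit 2) (.nd (nat_lit 3) (.nd (nat_lit 4) (.nd (nat_lit 5) 
(.lf (nat_lit 150209) (.g (nat_lit 1619) (.e (nat_lit 57379) (nat_lit 3) (.e (nat_lit 98315) (nat_lit 9) (.e (nat_lit 336118) (nat_lit 9) (.e (nat_lit 336453) (nat_lit 34) (.e (nat_lit 483366) (nat_lit 18) (.e (nat_lit 57847) (nat_lit 252) .nil)))))) (.g (nat_lit 6) .nil .nil))) 
(.lf (nat_lit 150241) (.g (nat_lit 2161) (.e (nat_lit 57379) (nat_lit 3) (.e (nat_lit 98317) (nat_lit 9) (.e (nat_lit 336027) (nat_lit 3) (.e (nat_lit 98342) (nat_lit 20) (.e (nat_lit 221215) (nat_lit 23) (.e (nat_lit 204829) (nat_lit 18) (.e (nat_lit 57849) (nat_lit 252) .nil))))))) (.g (nat_lit 4) .nil .nil)))) (.nd (nat_lit 5) 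
(.lf (nat_lit 150225) (.g (nat_lit 1506) (.e (nat_lit 57379) (nat_lit 3) (.e (nat_lit 98316) (nat_lit 9) (.e (nat_lit 336222) (nat_lit 13) (.e (nat_lit 393225) (nat_lit 9) (.e (nat_lit 335986) (nat_lit 1) (.e (nat_lit 57847) (nat_lit 252) .nil)))))) (.g (nat_lit 4) .nil .nil))) 
(.lf (nat_lit 150257) (.g (nat_lit 3825) (.e (nat_lit 57379) (nat_lit 3) (.e (nat_lit 98317) (nat_lit 9) (.e (nat_lit 336076) (nat_lit 9) (.e (nat_lit 336456) (nat_lit 34) (.e (nat_lit 483365) (nat_lit 18) (.e (nat_lit 57849) (nat_lit 252) .nil)))))) (.g (nat_lit 0) .nil .nil))))) (.nd (nat_lit 4) (.nd (nat_lit 5) 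
(.lf (nat_lit 150217) (.g (nat_lit 2821) (.e (nat_lit 57379) (nat_lit 3) (.e (nat_lit 98316) (nat_lit 9) (.e (nat_lit 336078) (nat_lit 9) (.e (nat_lit 336454) (nat_lit 34) (.e (nat_lit 483365) (nat_lit 18) (.e (nat_lit 57847) (nat_lit 252) .nil)))))) (.g (nat_lit 6) .nil .nil))) 
(.lf (nat_lit 150249) (.g (nat_lit 2179) (.e (nat_lit 57379) (nat_lit 3) (.e (nat_lit 98317) (nat_lit 9) (.e (nat_lit 336076) (nat_lit 9) (.e (nat_lit 336454) (nat_lit 34) (.e (nat_lit 483362) (nat_lit 18) (.e (nat_lit 57849) (nat_lit 252) .nil)))))) (.g (nat_lit 4) .nil .nil)))) (.nd (nat_lit 5) 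
(.lf (nat_lit 150233) (.g (nat_lit 2268) (.e (nat_lit 57379) (nat_lit 3) (.e (nat_lit 98317) (nat_lit 9) (.e (nat_lit 336027) (nat_lit 3) (.e (nat_lit 98341) (nat_lit 20) (.e (nat_lit 221214) (nat_lit 23) (.e (nat_lit 204829) (nat_lit 18) (.e (nat_lit 57847) (nat_lit 252) .nil))))))) (.g (nat_lit 4) .nil .nil))) 
(.lf (nat_lit 150265) (.g (nat_lit 2443) (.e (nat_lit 57379) (nat_lit 3) (.e (nat_lit 98317) (nat_lit 9) (.e (nat_lit 336086) (nat_lit 9) (.e (nat_lit 336369) (nat_lit 27) (.e (nat_lit 426497) (nat_lit 27) (.e (nat_lit 335995) (nat_lit 1) (.e (nat_lit 57849) (nat_lit 252) .nil))))))) (.g (nat_lit 4) .nil .nil)))))) (.nd (nat_lit 3) (.nd (nat_lit 4) (.nd (nat_lit 5) 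
(.lf (nat_lit 150213) (.g (nat_lit 2833) (.e (nat_lit 57379) (nat_lit 3) (.e (nat_lit 98315) (nat_lit 9) (.e (nat_lit 336154) (nat_lit 9) (.e (nat_lit 336453) (nat_lit 34) (.e (nat_lit 483365) (nat_lit 18) (.e (nat_lit 57849) (nat_lit 252) .nil)))))) (.g (nat_lit 0) .nil .nil))) 
(.lf (nat_lit 150245) (.g (nat_lit 1530) (.e (nat_lit 57379) (nat_lit 3) (.e (nat_lit 98317) (nat_lit 9) (.e (nat_lit 336076) (nat_lit 9) (.e (nat_lit 336374) (nat_lit 27) .nil)))) .nil))) (.nd (nat_lit 5) 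
(.lf (nat_lit 150229) (.g (nat_lit 2924) (.e (nat_lit 57379) (nat_lit 3) (.e (nat_lit 98317) (nat_lit 9) (.e (nat_lit 336027) (nat_lit 3) (.e (nat_lit 98341) (nat_lit 20) (.e (nat_lit 221210) (nat_lit 22) (.e (nat_lit 196660) (nat_lit 12) (.e (nat_lit 57354) (nat_lit 0) (.e (nat_lit 5195) (nat_lit 294) .nil)))))))) (.g (nat_lit 5) .nil .nil))) 
(.lf (nat_lit 150261) (.g (nat_lit 3680) (.e (nat_lit 57379) (nat_lit 3) (.e (nat_lit 98317) (nat_lit 9) (.e (nat_lit 336078) (nat_lit 9) (.e (nat_lit 336454) (nat_lit 34) (.e (nat_lit 483365) (nat_lit 18) (.e (nat_lit 57849) (nat_lit 252) .nil)))))) (.g (nat_lit 0) .nil .nil))))) (.nd (nat_lit 4) (.nd (nat_lit 5) 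
(.lf (nat_lit 150221) (.g (nat_lit 2053) (.e (nat_lit 57379) (nat_lit 3) (.e (nat_lit 98316) (nat_lit 9) (.e (nat_lit 336213) (nat_lit 13) (.e (nat_lit 393225) (nat_lit 9) (.e (nat_lit 335986) (nat_lit 1) (.e (nat_lit 57847) (nat_lit 252) .nil)))))) (.g (nat_lit 4) .nil .nil))) 
(.lf (nat_lit 150253) (.g (nat_lit 2499) (.e (nat_lit 57379) (nat_lit 3) (.e (nat_lit 98317) (nat_lit 9) (.e (nat_lit 336076) (nat_lit 9) (.e (nat_lit 336456) (nat_lit 34) (.e (nat_lit 483354) (nat_lit 17) (.e (nat_lit 1040) (nat_lit 81) (.e (nat_lit 5195) (nat_lit 294) .nil))))))) (.g (nat_lit 4) .nil .nil)))) (.nd (nat_lit 5) 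
(.lf (nat_lit 150237) (.g (nat_lit 2003) (.e (nat_lit 57379) (nat_lit 3) (.e (nat_lit 98317) (nat_lit 9) (.e (nat_lit 336027) (nat_lit 3) (.e (nat_lit 98342) (nat_lit 20) (.e (nat_lit 221214) (nat_lit 23) (.e (nat_lit 204829) (nat_lit 18) (.e (nat_lit 57847) (nat_lit 252) .nil))))))) (.g (nat_lit 4) .nil .nil))) 
(.lf (nat_lit 150269) (.g (nat_lit 2729) (.e (nat_lit 57379) (nat_lit 3) (.e (nat_lit 98317) (nat_lit 9) (.e (nat_lit 336086) (nat_lit 9) (.e (nat_lit 336370) (nat_lit 27) (.e (nat_lit 426499) (nat_lit 27) (.e (nat_lit 335986) (nat_lit 1) (.e (nat_lit 57849) (nat_lit 252) .nil))))))) (.g (nat_lit 5) .nil .nil))))))) (.nd (nat_lit 2) (.nd (nat_lit 3) (.nd (nat_lit 4) (.nd (nat_lit 5) 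
(.lf (nat_lit 150211) (.g (nat_lit 2012) (.e (nat_lit 57379) (nat_lit 3) (.e (nat_lit 98315) (nat_lit 9) (.e (nat_lit 336119) (nat_lit 9) (.e (nat_lit 336453) (nat_lit 34) (.e (nat_lit 483365) (nat_lit 18) (.e (nat_lit 57848) (nat_lit 252) .nil)))))) (.g (nat_lit 6) .nil .nil))) 
(.lf (nat_lit 150243) (.g (nat_lit 609) (.e (nat_lit 57379) (nat_lit 3) (.e (nat_lit 98317) (nat_lit 9) (.e (nat_lit 336074) (nat_lit 9) .nil))) .nil))) (.nd (nat_lit 5) 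
(.lf (nat_lit 150227) (.g (nat_lit 674) (.e (nat_lit 57379) (nat_lit 3) (.e (nat_lit 98317) (nat_lit 9) (.e (nat_lit 335899) (nat_lit 0) .nil))) .nil)) 
(.lf (nat_lit 150259) (.g (nat_lit 3659) (.e (nat_lit 57379) (nat_lit 3) (.e (nat_lit 98317) (nat_lit 9) (.e (nat_lit 336078) (nat_lit 9) (.e (nat_lit 336454) (nat_lit 34) (.e (nat_lit 483363) (nat_lit 18) (.e (nat_lit 57849) (nat_lit 252) .nil)))))) (.g (nat_lit 0) .nil .nil))))) (.nd (nat_lit 4) (.nd (nat_lit 5) 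
(.lf (nat_lit 150219) (.g (nat_lit 1910) (.e (nat_lit 57379) (nat_lit 3) (.e (nat_lit 98316) (nat_lit 9) (.e (nat_lit 336086) (nat_lit 9) (.e (nat_lit 336454) (nat_lit 34) (.e (nat_lit 483365) (nat_lit 18) (.e (nat_lit 57847) (nat_lit 252) .nil)))))) (.g (nat_lit 4) .nil .nil))) 
(.lf (nat_lit 150251) (.g (nat_lit 3988) (.e (nat_lit 57379) (nat_lit 3) (.e (nat_lit 98317) (nat_lit 9) (.e (nat_lit 336076) (nat_lit 9) (.e (nat_lit 336454) (nat_lit 34) (.e (nat_lit 483365) (nat_lit 18) (.e (nat_lit 57846) (nat_lit 252) .nil)))))) (.g (nat_lit 6) .nil .nil)))) (.nd (nat_lit 5) 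
(.lf (nat_lit 150235) (.g (nat_lit 2655) (.e (nat_lit 57379) (nat_lit 3) (.e (nat_lit 98317) (nat_lit 9) (.e (nat_lit 336027) (nat_lit 3) (.e (nat_lit 98341) (nat_lit 20) (.e (nat_lit 221215) (nat_lit 23) (.e (nat_lit 204829) (nat_lit 18) (.e (nat_lit 57849) (nat_lit 252) .nil))))))) (.g (nat_lit 5) .nil .nil))) 
(.lf (nat_lit 150267) (.g (nat_lit 4188) (.e (nat_lit 57379) (nat_lit 3) (.e (nat_lit 98317) (nat_lit 9) (.e (nat_lit 336086) (nat_lit 9) (.e (nat_lit 336369) (nat_lit 27) (.e (nat_lit 426499) (nat_lit 27) (.e (nat_lit 335986) (nat_lit 1) (.e (nat_lit 57849) (nat_lit 252) .nil))))))) (.g (nat_lit 6) .nil .nil)))))) (.nd (nat_lit 3) (.nd (nat_lit 4) (.nd (nat_lit 5) 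
(.lf (nat_lit 150215) (.g (nat_lit 2104) (.e (nat_lit 57379) (nat_lit 3) (.e (nat_lit 98316) (nat_lit 9) (.e (nat_lit 336076) (nat_lit 9) (.e (nat_lit 336454) (nat_lit 34) (.e (nat_lit 483365) (nat_lit 18) (.e (nat_lit 57848) (nat_lit 252) .nil)))))) (.g (nat_lit 4) .nil .nil))) 
(.lf (nat_lit 150247) (.g (nat_lit 2315) (.e (nat_lit 57379) (nat_lit 3) (.e (nat_lit 98317) (nat_lit 9) (.e (nat_lit 336076) (nat_lit 9) (.e (nat_lit 336452) (nat_lit 34) (.e (nat_lit 483363) (nat_lit 18) (.e (nat_lit 57847) (nat_lit 252) .nil)))))) (.g (nat_lit 4) .nil .nil)))) (.nd (nat_lit 5) 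
(.lf (nat_lit 150231) (.g (nat_lit 1981) (.e (nat_lit 57379) (nat_lit 3) (.e (nat_lit 98317) (nat_lit 9) (.e (nat_lit 336027) (nat_lit 3) (.e (nat_lit 98341) (nat_lit 20) (.e (nat_lit 221213) (nat_lit 23) (.e (nat_lit 204829) (nat_lit 18) (.e (nat_lit 57849) (nat_lit 252) .nil))))))) (.g (nat_lit 4) .nil .nil))) 
(.lf (nat_lit 150263) (.g (nat_lit 2832) (.e (nat_lit 57379) (nat_lit 3) (.e (nat_lit 98317) (nat_lit 9) (.e (nat_lit 336085) (nat_lit 9) (.e (nat_lit 336454) (nat_lit 34) (.e (nat_lit 483363) (nat_lit 18) (.e (nat_lit 57849) (nat_lit 252) .nil)))))) (.g (nat_lit 5) .nil .nil))))) (.nd (nat_lit 4) (.nd (nat_lit 5) 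
(.lf (nat_lit 150223) (.g (nat_lit 2618) (.e (nat_lit 57379) (nat_lit 3) (.e (nat_lit 98316) (nat_lit 9) (.e (nat_lit 336215) (nat_lit 13) (.e (nat_lit 393229) (nat_lit 9) (.e (nat_lit 335986) (nat_lit 1) (.e (nat_lit 57849) (nat_lit 252) .nil)))))) (.g (nat_lit 5) .nil .nil))) 
(.lf (nat_lit 150255) (.g (nat_lit 3694) (.e (nat_lit 57379) (nat_lit 3) (.e (nat_lit 98317) (nat_lit 9) (.e (nat_lit 336076) (nat_lit 9) (.e (nat_lit 336456) (nat_lit 34) (.e (nat_lit 483363) (nat_lit 18) (.e (nat_lit 57849) (nat_lit 252) .nil)))))) (.g (nat_lit 0) .nil .nil)))) (.nd (nat_lit 5) 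
(.lf (nat_lit 150239) (.g (nat_lit 2184) (.e (nat_lit 57379) (nat_lit 3) (.e (nat_lit 98317) (nat_lit 9) (.e (nat_lit 336027) (nat_lit 3) (.e (nat_lit 98342) (nat_lit 20) (.e (nat_lit 221215) (nat_lit 23) (.e (nat_lit 204821) (nat_lit 17) (.e (nat_lit 1040) (nat_lit 81) (.e (nat_lit 5195) (nat_lit 294) .nil)))))))) (.g (nat_lit 4) .nil .nil))) 
(.lf (nat_lit 150271) (.g (nat_lit 3802) (.e (nat_lit 57379) (nat_lit 3) (.e (nat_lit 98317) (nat_lit 9) (.e (nat_lit 336086) (nat_lit 9) (.e (nat_lit 336395) (nat_lit 27) (.e (nat_lit 426528) (nat_lit 27) (.e (nat_lit 335986) (nat_lit 1) (.e (nat_lit 57849) (nat_lit 252) .nil))))))) (.g (nat_lit 0) .nil .nil)))))))))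

noncomputable def tv2002 : DT := (.nd (nat_lit 0) (.nd (nat_lit 1) (.nd (nat_lit 2) (.nd (nat_lit 3) (.nd (nat_lit 4) (.nd (nat_lit 5) 
(.lf (nat_lit 150272) (.g (nat_lit 3136) (.e (nat_lit 57379) (nat_lit 3) (.e (nat_lit 98317) (nat_lit 9) (.e (nat_lit 336086) (nat_lit 9) (.e (nat_lit 336414) (nat_lit 27) (.e (nat_lit 426503) (nat_lit 27) (.e (nat_lit 335986) (nat_lit 1) (.e (nat_lit 57847) (nat_lit 252) .nil))))))) (.g (nat_lit 5) .nil .nil))) 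
(.lf (nat_lit 150304) (.g (nat_lit 2914) (.e (nat_lit 57379) (nat_lit 3) (.e (nat_lit 98317) (nat_lit 9) (.e (nat_lit 336088) (nat_lit 9) (.e (nat_lit 336374) (nat_lit 27) (.e (nat_lit 426537) (nat_lit 28) (.e (nat_lit 344097) (nat_lit 18) (.e (nat_lit 5195) (nat_lit 294) .nil))))))) (.g (nat_lit 7) .nil .nil)))) (.nd (nat_lit 5) 
(.lf (nat_lit 150288) (.g (nat_lit 2301) (.e (nat_lit 57379) (nat_lit 3) (.e (nat_lit 98317) (nat_lit 9) (.e (nat_lit 336087) (nat_lit 9) (.e (nat_lit 336454) (nat_lit 34) (.e (nat_lit 483363) (nat_lit 18) (.e (nat_lit 57847) (nat_lit 252) .nil)))))) (.g (nat_lit 4) .nil .nil))) 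
(.lf (nat_lit 150320) (.g (nat_lit 2172) (.e (nat_lit 57379) (nat_lit 3) (.e (nat_lit 98317) (nat_lit 9) (.e (nat_lit 336213) (nat_lit 13) (.e (nat_lit 393224) (nat_lit 9) .nil)))) .nil)))) (.nd (nat_lit 4) (.nd (nat_lit 5) 
(.lf (nat_lit 150280) (.g (nat_lit 2894) (.e (nat_lit 57379) (nat_lit 3) (.e (nat_lit 98317) (nat_lit 9) (.e (nat_lit 336086) (nat_lit 9) (.e (nat_lit 336456) (nat_lit 34) (.e (nat_lit 483365) (nat_lit 18) (.e (nat_lit 57846) (nat_lit 252) .nil)))))) (.g (nat_lit 4) .nil .nil))) 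
(.lf (nat_lit 150312) (.g (nat_lit 2325) (.e (nat_lit 57379) (nat_lit 3) (.e (nat_lit 98317) (nat_lit 9) (.e (nat_lit 336088) (nat_lit 9) (.e (nat_lit 336454) (nat_lit 34) (.e (nat_lit 483366) (nat_lit 18) (.e (nat_lit 57844) (nat_lit 252) .nil)))))) (.g (nat_lit 4) .nil .nil)))) (.nd (nat_lit 5) 
(.lf (nat_lit 150296) (.g (nat_lit 1479) (.e (nat_lit 57379) (nat_lit 3) (.e (nat_lit 98317) (nat_lit 9) (.e (nat_lit 336088) (nat_lit 9) (.e (nat_lit 336367) (nat_lit 27) (.e (nat_lit 426533) (nat_lit 28) .nil))))) .nil)) 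
(.lf (nat_lit 150328) (.g (nat_lit 3419) (.e (nat_lit 57379) (nat_lit 3) (.e (nat_lit 98317) (nat_lit 9) (.e (nat_lit 336213) (nat_lit 13) (.e (nat_lit 393227) (nat_lit 9) (.e (nat_lit 335998) (nat_lit 1) (.e (nat_lit 57849) (nat_lit 252) .nil)))))) (.g (nat_lit 0) .nil .nil)))))) (.nd (nat_lit 3) (.nd (nat_lit 4) (.nd (nat_lit 5) 
(.lf (nat_lit 150276) (.g (nat_lit 2549) (.e (nat_lit 57379) (nat_lit 3) (.e (nat_lit 98317) (nat_lit 9) (.e (nat_lit 336086) (nat_lit 9) (.e (nat_lit 336454) (nat_lit 34) (.e (nat_lit 483366) (nat_lit 18) .nil))))) .nil)) 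
(.lf (nat_lit 150308) (.g (nat_lit 1874) (.e (nat_lit 57379) (nat_lit 3) (.e (nat_lit 98317) (nat_lit 9) (.e (nat_lit 336088) (nat_lit 9) (.e (nat_lit 336454) (nat_lit 34) (.e (nat_lit 483362) (nat_lit 18) (.e (nat_lit 57849) (nat_lit 252) .nil)))))) (.g (nat_lit 4) .nil .nil)))) (.nd (nat_lit 5) 
(.lf (nat_lit 150292) (.g (nat_lit 2014) (.e (nat_lit 57379) (nat_lit 3) (.e (nat_lit 98317) (nat_lit 9) (.e (nat_lit 336088) (nat_lit 9) (.e (nat_lit 336366) (nat_lit 27) (.e (nat_lit 426480) (nat_lit 27) (.e (nat_lit 335992) (nat_lit 1) (.e (nat_lit 57849) (nat_lit 252) .nil))))))) (.g (nat_lit 4) .nil .nil))) 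
(.lf (nat_lit 150324) (.g (nat_lit 3407) (.e (nat_lit 57379) (nat_lit 3) (.e (nat_lit 98317) (nat_lit 9) (.e (nat_lit 336213) (nat_lit 13) (.e (nat_lit 393225) (nat_lit 9) (.e (nat_lit 335995) (nat_lit 1) (.e (nat_lit 57844) (nat_lit 252) .nil)))))) (.g (nat_lit 5) .nil .nil))))) (.nd (nat_lit 4) (.nd (nat_lit 5) 
(.lf (nat_lit 150284) (.g (nat_lit 2599) (.e (nat_lit 57379) (nat_lit 3) (.e (nat_lit 98317) (nat_lit 9) (.e (nat_lit 336087) (nat_lit 9) (.e (nat_lit 336368) (nat_lit 27) (.e (nat_lit 426499) (nat_lit 27) (.e (nat_lit 335986) (nat_lit 1) (.e (nat_lit 57849) (nat_lit 252) .nil))))))) (.g (nat_lit 5) .nil .nil))) 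
(.lf (nat_lit 150316) (.g (nat_lit 2020) (.e (nat_lit 57379) (nat_lit 3) (.e (nat_lit 98317) (nat_lit 9) (.e (nat_lit 336088) (nat_lit 9) (.e (nat_lit 336456) (nat_lit 34) (.e (nat_lit 483365) (nat_lit 18) (.e (nat_lit 57848) (nat_lit 252) .nil)))))) (.g (nat_lit 4) .nil .nil)))) (.nd (nat_lit 5) 
(.lf (nat_lit 150300) (.g (nat_lit 4134) (.e (nat_lit 57379) (nat_lit 3) (.e (nat_lit 98317) (nat_lit 9) (.e (nat_lit 336088) (nat_lit 9) (.e (nat_lit 336370) (nat_lit 27) (.e (nat_lit 426499) (nat_lit 27) (.e (nat_lit 335986) (nat_lit 1) (.e (nat_lit 57849) (nat_lit 252) .nil))))))) (.g (nat_lit 7) .nil .nil))) 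
(.lf (nat_lit 150332) (.g (nat_lit 2686) (.e (nat_lit 57379) (nat_lit 3) (.e (nat_lit 98317) (nat_lit 9) (.e (nat_lit 336213) (nat_lit 13) (.e (nat_lit 393229) (nat_lit 9) (.e (nat_lit 335886) (nat_lit 0) .nil))))) .nil)))))) (.nd (nat_lit 2) (.nd (nat_lit 3) (.nd (nat_lit 4) (.nd (nat_lit 5) 
(.lf (nat_lit 150274) (.g (nat_lit 3696) (.e (nat_lit 57379) (nat_lit 3) (.e (nat_lit 98317) (nat_lit 9) (.e (nat_lit 336086) (nat_lit 9) (.e (nat_lit 336454) (nat_lit 34) (.e (nat_lit 483363) (nat_lit 18) (.e (nat_lit 57849) (nat_lit 252) .nil)))))) (.g (nat_lit 0) .nil .nil))) 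
(.lf (nat_lit 150306) (.g (nat_lit 2179) (.e (nat_lit 57379) (nat_lit 3) (.e (nat_lit 98317) (nat_lit 9) (.e (nat_lit 336088) (nat_lit 9) (.e (nat_lit 336452) (nat_lit 34) (.e (nat_lit 483363) (nat_lit 18) (.e (nat_lit 57847) (nat_lit 252) .nil)))))) (.g (nat_lit 4) .nil .nil)))) (.nd (nat_lit 5) 
(.lf (nat_lit 150290) (.g (nat_lit 2025) (.e (nat_lit 57379) (nat_lit 3) (.e (nat_lit 98317) (nat_lit 9) (.e (nat_lit 336087) (nat_lit 9) (.e (nat_lit 336456) (nat_lit 34) (.e (nat_lit 483363) (nat_lit 18) (.e (nat_lit 57847) (nat_lit 252) .nil)))))) (.g (nat_lit 4) .nil .nil))) 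
(.lf (nat_lit 150322) (.g (nat_lit 3645) (.e (nat_lit 57379) (nat_lit 3) (.e (nat_lit 98317) (nat_lit 9) (.e (nat_lit 336213) (nat_lit 13) (.e (nat_lit 393224) (nat_lit 9) (.e (nat_lit 335995) (nat_lit 1) (.e (nat_lit 57849) (nat_lit 252) .nil)))))) (.g (nat_lit 5) .nil .nil))))) (.nd (nat_lit 4) (.nd (nat_lit 5) 
(.lf (nat_lit 150282) (.g (nat_lit 3317) (.e (nat_lit 57379) (nat_lit 3) (.e (nat_lit 98317) (nat_lit 9) (.e (nat_lit 336086) (nat_lit 9) (.e (nat_lit 336456) (nat_lit 34) (.e (nat_lit 483365) (nat_lit 18) (.e (nat_lit 57849) (nat_lit 252) .nil)))))) (.g (nat_lit 5) .nil .nil))) 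
(.lf (nat_lit 150314) (.g (nat_lit 2315) (.e (nat_lit 57379) (nat_lit 3) (.e (nat_lit 98317) (nat_lit 9) (.e (nat_lit 336088) (nat_lit 9) (.e (nat_lit 336456) (nat_lit 34) (.e (nat_lit 483354) (nat_lit 17) (.e (nat_lit 1040) (nat_lit 81) (.e (nat_lit 5195) (nat_lit 294) .nil))))))) (.g (nat_lit 4) .nil .nil)))) (.nd (nat_lit 5) 
(.lf (nat_lit 150298) (.g (nat_lit 3220) (.e (nat_lit 57379) (nat_lit 3) (.e (nat_lit 98317) (nat_lit 9) (.e (nat_lit 336088) (nat_lit 9) (.e (nat_lit 336367) (nat_lit 27) (.e (nat_lit 426537) (nat_lit 28) (.e (nat_lit 344097) (nat_lit 18) (.e (nat_lit 5195) (nat_lit 294) .nil))))))) (.g (nat_lit 7) .nil .nil))) 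
(.lf (nat_lit 150330) (.g (nat_lit 3037) (.e (nat_lit 57379) (nat_lit 3) (.e (nat_lit 98317) (nat_lit 9) (.e (nat_lit 336213) (nat_lit 13) (.e (nat_lit 393228) (nat_lit 9) (.e (nat_lit 335995) (nat_lit 1) (.e (nat_lit 57849) (nat_lit 252) .nil)))))) (.g (nat_lit 4) .nil .nil)))))) (.nd (nat_lit 3) (.nd (nat_lit 4) (.nd (nat_lit 5) 
(.lf (nat_lit 150278) (.g (nat_lit 2927) (.e (nat_lit 57379) (nat_lit 3) (.e (nat_lit 98317) (nat_lit 9) (.e (nat_lit 336086) (nat_lit 9) (.e (nat_lit 336456) (nat_lit 34) (.e (nat_lit 483363) (nat_lit 18) (.e (nat_lit 57847) (nat_lit 252) .nil)))))) (.g (nat_lit 4) .nil .nil))) 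
(.lf (nat_lit 150310) (.g (nat_lit 3653) (.e (nat_lit 57379) (nat_lit 3) (.e (nat_lit 98317) (nat_lit 9) (.e (nat_lit 336088) (nat_lit 9) (.e (nat_lit 336454) (nat_lit 34) (.e (nat_lit 483365) (nat_lit 18) (.e (nat_lit 57846) (nat_lit 252) .nil)))))) (.g (nat_lit 6) .nil .nil)))) (.nd (nat_lit 5) 
(.lf (nat_lit 150294) (.g (nat_lit 4190) (.e (nat_lit 57379) (nat_lit 3) (.e (nat_lit 98317) (nat_lit 9) (.e (nat_lit 336088) (nat_lit 9) (.e (nat_lit 336366) (nat_lit 27) (.e (nat_lit 426499) (nat_lit 27) (.e (nat_lit 335986) (nat_lit 1) (.e (nat_lit 57849) (nat_lit 252) .nil))))))) (.g (nat_lit 7) .nil .nil))) 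
(.lf (nat_lit 150326) (.g (nat_lit 4505) (.e (nat_lit 57379) (nat_lit 3) (.e (nat_lit 98317) (nat_lit 9) (.e (nat_lit 336213) (nat_lit 13) (.e (nat_lit 393225) (nat_lit 9) (.e (nat_lit 335995) (nat_lit 1) (.e (nat_lit 57849) (nat_lit 252) .nil)))))) (.g (nat_lit 6) .nil .nil))))) (.nd (nat_lit 4) (.nd (nat_lit 5) 
(.lf (nat_lit 150286) (.g (nat_lit 1801) (.e (nat_lit 57379) (nat_lit 3) (.e (nat_lit 98317) (nat_lit 9) (.e (nat_lit 336087) (nat_lit 9) (.e (nat_lit 336395) (nat_lit 27) (.e (nat_lit 426528) (nat_lit 27) (.e (nat_lit 335986) (nat_lit 1) (.e (nat_lit 57849) (nat_lit 252) .nil))))))) (.g (nat_lit 4) .nil .nil))) 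
(.lf (nat_lit 150318) (.g (nat_lit 1453) (.e (nat_lit 57379) (nat_lit 3) (.e (nat_lit 98317) (nat_lit 9) (.e (nat_lit 336194) (nat_lit 12) (.e (nat_lit 392960) (nat_lit 10) .nil)))) .nil))) (.nd (nat_lit 5) 
(.lf (nat_lit 150302) (.g (nat_lit 1953) (.e (nat_lit 57379) (nat_lit 3) (.e (nat_lit 98317) (nat_lit 9) (.e (nat_lit 336088) (nat_lit 9) (.e (nat_lit 336370) (nat_lit 27) (.e (nat_lit 426501) (nat_lit 27) (.e (nat_lit 335986) (nat_lit 1) (.e (nat_lit 57847) (nat_lit 252) .nil))))))) (.g (nat_lit 4) .nil .nil))) 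
(.lf (nat_lit 150334) (.g (nat_lit 1991) (.e (nat_lit 57379) (nat_lit 3) (.e (nat_lit 98317) (nat_lit 9) (.e (nat_lit 336213) (nat_lit 13) (.e (nat_lit 393229) (nat_lit 9) (.e (nat_lit 335912) (nat_lit 0) .nil))))) .nil))))))) (.nd (nat_lit 1) (.nd (nat_lit 2) (.nd (nat_lit 3) (.nd (nat_lit 4) (.nd (nat_lit 5) 
(.lf (nat_lit 150273) (.g (nat_lit 4392) (.e (nat_lit 57379) (nat_lit 3) (.e (nat_lit 98317) (nat_lit 9) (.e (nat_lit 336086) (nat_lit 9) (.e (nat_lit 336414) (nat_lit 27) (.e (nat_lit 426503) (nat_lit 27) (.e (nat_lit 335986) (nat_lit 1) (.e (nat_lit 57849) (nat_lit 252) .nil))))))) (.g (nat_lit 7) .nil .nil))) 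
(.lf (nat_lit 150305) (.g (nat_lit 2009) (.e (nat_lit 57379) (nat_lit 3) (.e (nat_lit 98317) (nat_lit 9) (.e (nat_lit 336088) (nat_lit 9) (.e (nat_lit 336379) (nat_lit 27) (.e (nat_lit 426524) (nat_lit 27) (.e (nat_lit 335986) (nat_lit 1) (.e (nat_lit 57849) (nat_lit 252) .nil))))))) (.g (nat_lit 4) .nil .nil)))) (.nd (nat_lit 5) 
(.lf (nat_lit 150289) (.g (nat_lit 1979) (.e (nat_lit 57379) (nat_lit 3) (.e (nat_lit 98317) (nat_lit 9) (.e (nat_lit 336087) (nat_lit 9) (.e (nat_lit 336455) (nat_lit 34) (.e (nat_lit 483363) (nat_lit 18) (.e (nat_lit 57849) (nat_lit 252) .nil)))))) (.g (nat_lit 4) .nil .nil))) 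
(.lf (nat_lit 150321) (.g (nat_lit 3437) (.e (nat_lit 57379) (nat_lit 3) (.e (nat_lit 98317) (nat_lit 9) (.e (nat_lit 336213) (nat_lit 13) (.e (nat_lit 393224) (nat_lit 9) (.e (nat_lit 335986) (nat_lit 1) (.e (nat_lit 57849) (nat_lit 252) .nil)))))) (.g (nat_lit 5) .nil .nil))))) (.nd (nat_lit 4) (.nd (nat_lit 5) 
(.lf (nat_lit 150281) (.g (nat_lit 3083) (.e (nat_lit 57379) (nat_lit 3) (.e (nat_lit 98317) (nat_lit 9) (.e (nat_lit 336086) (nat_lit 9) (.e (nat_lit 336456) (nat_lit 34) (.e (nat_lit 483365) (nat_lit 18) (.e (nat_lit 57847) (nat_lit 252) .nil)))))) (.g (nat_lit 5) .nil .nil))) 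
(.lf (nat_lit 150313) (.g (nat_lit 1805) (.e (nat_lit 57379) (nat_lit 3) (.e (nat_lit 98317) (nat_lit 9) (.e (nat_lit 336088) (nat_lit 9) (.e (nat_lit 336455) (nat_lit 34) (.e (nat_lit 483363) (nat_lit 18) (.e (nat_lit 57847) (nat_lit 252) .nil)))))) (.g (nat_lit 4) .nil .nil)))) (.nd (nat_lit 5) 
(.lf (nat_lit 150297) (.g (nat_lit 3078) (.e (nat_lit 57379) (nat_lit 3) (.e (nat_lit 98317) (nat_lit 9) (.e (nat_lit 336088) (nat_lit 9) (.e (nat_lit 336367) (nat_lit 27) (.e (nat_lit 426533) (nat_lit 28) (.e (nat_lit 344100) (nat_lit 18) (.e (nat_lit 5195) (nat_lit 294) .nil))))))) (.g (nat_lit 7) .nil .nil))) 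
(.lf (nat_lit 150329) (.g (nat_lit 2477) (.e (nat_lit 57379) (nat_lit 3) (.e (nat_lit 98317) (nat_lit 9) (.e (nat_lit 336213) (nat_lit 13) (.e (nat_lit 393228) (nat_lit 9) .nil)))) .nil))))) (.nd (nat_lit 3) (.nd (nat_lit 4) (.nd (nat_lit 5) 
(.lf (nat_lit 150277) (.g (nat_lit 1772) (.e (nat_lit 57379) (nat_lit 3) (.e (nat_lit 98317) (nat_lit 9) (.e (nat_lit 336086) (nat_lit 9) (.e (nat_lit 336455) (nat_lit 34) (.e (nat_lit 483363) (nat_lit 18) (.e (nat_lit 57849) (nat_lit 252) .nil)))))) (.g (nat_lit 4) .nil .nil))) 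
(.lf (nat_lit 150309) (.g (nat_lit 3802) (.e (nat_lit 57379) (nat_lit 3) (.e (nat_lit 98317) (nat_lit 9) (.e (nat_lit 336088) (nat_lit 9) (.e (nat_lit 336454) (nat_lit 34) (.e (nat_lit 483363) (nat_lit 18) (.e (nat_lit 57849) (nat_lit 252) .nil)))))) (.g (nat_lit 0) .nil .nil)))) (.nd (nat_lit 5) 
(.lf (nat_lit 150293) (.g (nat_lit 2460) (.e (nat_lit 57379) (nat_lit 3) (.e (nat_lit 98317) (nat_lit 9) (.e (nat_lit 336088) (nat_lit 9) (.e (nat_lit 336366) (nat_lit 27) (.e (nat_lit 426497) (nat_lit 27) (.e (nat_lit 335986) (nat_lit 1) (.e (nat_lit 57849) (nat_lit 252) .nil))))))) (.g (nat_lit 5) .nil .nil))) 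
(.lf (nat_lit 150325) (.g (nat_lit 2835) (.e (nat_lit 57379) (nat_lit 3) (.e (nat_lit 98317) (nat_lit 9) (.e (nat_lit 336213) (nat_lit 13) (.e (nat_lit 393225) (nat_lit 9) (.e (nat_lit 335995) (nat_lit 1) (.e (nat_lit 57846) (nat_lit 252) .nil)))))) (.g (nat_lit 4) .nil .nil))))) (.nd (nat_lit 4) (.nd (nat_lit 5) 
(.lf (nat_lit 150285) (.g (nat_lit 2721) (.e (nat_lit 57379) (nat_lit 3) (.e (nat_lit 98317) (nat_lit 9) (.e (nat_lit 336087) (nat_lit 9) (.e (nat_lit 336370) (nat_lit 27) (.e (nat_lit 426499) (nat_lit 27) (.e (nat_lit 335986) (nat_lit 1) (.e (nat_lit 57849) (nat_lit 252) .nil))))))) (.g (nat_lit 5) .nil .nil))) 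
(.lf (nat_lit 150317) (.g (nat_lit 3754) (.e (nat_lit 57379) (nat_lit 3) (.e (nat_lit 98317) (nat_lit 9) (.e (nat_lit 336088) (nat_lit 9) (.e (nat_lit 336456) (nat_lit 34) (.e (nat_lit 483365) (nat_lit 18) (.e (nat_lit 57849) (nat_lit 252) .nil)))))) (.g (nat_lit 0) .nil .nil)))) (.nd (nat_lit 5) 
(.lf (nat_lit 150301) (.g (nat_lit 1668) (.e (nat_lit 57379) (nat_lit 3) (.e (nat_lit 98317) (nat_lit 9) (.e (nat_lit 336088) (nat_lit 9) (.e (nat_lit 336370) (nat_lit 27) (.e (nat_lit 426501) (nat_lit 27) (.e (nat_lit 335985) (nat_lit 1) (.e (nat_lit 57849) (nat_lit 252) .nil))))))) (.g (nat_lit 4) .nil .nil))) 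
(.lf (nat_lit 150333) (.g (nat_lit 2435) (.e (nat_lit 57379) (nat_lit 3) (.e (nat_lit 98317) (nat_lit 9) (.e (nat_lit 336213) (nat_lit 13) (.e (nat_lit 393229) (nat_lit 9) (.e (nat_lit 335892) (nat_lit 0) .nil))))) .nil)))))) (.nd (nat_lit 2) (.nd (nat_lit 3) (.nd (nat_lit 4) (.nd (nat_lit 5) 
(.lf (nat_lit 150275) (.g (nat_lit 2114) (.e (nat_lit 57379) (nat_lit 3) (.e (nat_lit 98317) (nat_lit 9) (.e (nat_lit 336086) (nat_lit 9) (.e (nat_lit 336454) (nat_lit 34) (.e (nat_lit 483365) (nat_lit 18) (.e (nat_lit 57848) (nat_lit 252) .nil)))))) (.g (nat_lit 4) .nil .nil))) 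
(.lf (nat_lit 150307) (.g (nat_lit 2582) (.e (nat_lit 57379) (nat_lit 3) (.e (nat_lit 98317) (nat_lit 9) (.e (nat_lit 336088) (nat_lit 9) (.e (nat_lit 336452) (nat_lit 34) (.e (nat_lit 483363) (nat_lit 18) (.e (nat_lit 57849) (nat_lit 252) .nil)))))) (.g (nat_lit 5) .nil .nil)))) (.nd (nat_lit 5) 
(.lf (nat_lit 150291) (.g (nat_lit 2117) (.e (nat_lit 57379) (nat_lit 3) (.e (nat_lit 98317) (nat_lit 9) (.e (nat_lit 336087) (nat_lit 9) (.e (nat_lit 336456) (nat_lit 34) (.e (nat_lit 483363) (nat_lit 18) (.e (nat_lit 57849) (nat_lit 252) .nil)))))) (.g (nat_lit 4) .nil .nil))) 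
(.lf (nat_lit 150323) (.g (nat_lit 3012) (.e (nat_lit 57379) (nat_lit 3) (.e (nat_lit 98317) (nat_lit 9) (.e (nat_lit 336213) (nat_lit 13) (.e (nat_lit 393225) (nat_lit 9) (.e (nat_lit 335985) (nat_lit 1) (.e (nat_lit 57849) (nat_lit 252) .nil)))))) (.g (nat_lit 4) .nil .nil))))) (.nd (nat_lit 4) (.nd (nat_lit 5) 
(.lf (nat_lit 150283) (.g (nat_lit 2612) (.e (nat_lit 57379) (nat_lit 3) (.e (nat_lit 98317) (nat_lit 9) (.e (nat_lit 336087) (nat_lit 9) (.e (nat_lit 336366) (nat_lit 27) (.e (nat_lit 426499) (nat_lit 27) (.e (nat_lit 335986) (nat_lit 1) (.e (nat_lit 57849) (nat_lit 252) .nil))))))) (.g (nat_lit 5) .nil .nil))) 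
(.lf (nat_lit 150315) (.g (nat_lit 3608) (.e (nat_lit 57379) (nat_lit 3) (.e (nat_lit 98317) (nat_lit 9) (.e (nat_lit 336088) (nat_lit 9) (.e (nat_lit 336456) (nat_lit 34) (.e (nat_lit 483363) (nat_lit 18) (.e (nat_lit 57849) (nat_lit 252) .nil)))))) (.g (nat_lit 0) .nil .nil)))) (.nd (nat_lit 5) 
(.lf (nat_lit 150299) (.g (nat_lit 3761) (.e (nat_lit 57379) (nat_lit 3) (.e (nat_lit 98317) (nat_lit 9) (.e (nat_lit 336088) (nat_lit 9) (.e (nat_lit 336368) (nat_lit 27) (.e (nat_lit 426499) (nat_lit 27) (.e (nat_lit 335986) (nat_lit 1) (.e (nat_lit 57849) (nat_lit 252) .nil))))))) (.g (nat_lit 6) .nil .nil))) 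
(.lf (nat_lit 150331) (.g (nat_lit 1177) (.e (nat_lit 57379) (nat_lit 3) (.e (nat_lit 98317) (nat_lit 9) (.e (nat_lit 336213) (nat_lit 13) (.e (nat_lit 393229) (nat_lit 9) .nil)))) .nil))))) (.nd (nat_lit 3) (.nd (nat_lit 4) (.nd (nat_lit 5) 
(.lf (nat_lit 150279) (.g (nat_lit 2992) (.e (nat_lit 57379) (nat_lit 3) (.e (nat_lit 98317) (nat_lit 9) (.e (nat_lit 336086) (nat_lit 9) (.e (nat_lit 336456) (nat_lit 34) (.e (nat_lit 483363) (nat_lit 18) (.e (nat_lit 57849) (nat_lit 252) .nil)))))) (.g (nat_lit 5) .nil .nil))) 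
(.lf (nat_lit 150311) (.g (nat_lit 4083) (.e (nat_lit 57379) (nat_lit 3) (.e (nat_lit 98317) (nat_lit 9) (.e (nat_lit 336088) (nat_lit 9) (.e (nat_lit 336454) (nat_lit 34) (.e (nat_lit 483365) (nat_lit 18) (.e (nat_lit 57849) (nat_lit 252) .nil)))))) (.g (nat_lit 0) .nil .nil)))) (.nd (nat_lit 5) 
(.lf (nat_lit 150295) (.g (nat_lit 3293) (.e (nat_lit 57379) (nat_lit 3) (.e (nat_lit 98317) (nat_lit 9) (.e (nat_lit 336088) (nat_lit 9) (.e (nat_lit 336367) (nat_lit 27) (.e (nat_lit 426482) (nat_lit 27) (.e (nat_lit 335997) (nat_lit 1) (.e (nat_lit 57849) (nat_lit 252) .nil))))))) (.g (nat_lit 6) .nil .nil))) 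
(.lf (nat_lit 150327) (.g (nat_lit 1569) (.e (nat_lit 57379) (nat_lit 3) (.e (nat_lit 98317) (nat_lit 9) (.e (nat_lit 336213) (nat_lit 13) (.e (nat_lit 393227) (nat_lit 9) (.e (nat_lit 335959) (nat_lit 0) .nil))))) .nil)))) (.nd (nat_lit 4) (.nd (nat_lit 5) 
(.lf (nat_lit 150287) (.g (nat_lit 2044) (.e (nat_lit 57379) (nat_lit 3) (.e (nat_lit 98317) (nat_lit 9) (.e (nat_lit 336087) (nat_lit 9) (.e (nat_lit 336414) (nat_lit 27) (.e (nat_lit 426503) (nat_lit 27) (.e (nat_lit 335986) (nat_lit 1) (.e (nat_lit 57849) (nat_lit 252) .nil))))))) (.g (nat_lit 4) .nil .nil))) 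
(.lf (nat_lit 150319) (.g (nat_lit 2155) (.e (nat_lit 57379) (nat_lit 3) (.e (nat_lit 98317) (nat_lit 9) (.e (nat_lit 336213) (nat_lit 13) (.e (nat_lit 393219) (nat_lit 0) .nil)))) .nil))) (.nd (nat_lit 5) 
(.lf (nat_lit 150303) (.g (nat_lit 1951) (.e (nat_lit 57379) (nat_lit 3) (.e (nat_lit 98317) (nat_lit 9) (.e (nat_lit 336088) (nat_lit 9) (.e (nat_lit 336372) (nat_lit 27) (.e (nat_lit 426522) (nat_lit 27) (.e (nat_lit 335986) (nat_lit 1) (.e (nat_lit 57849) (nat_lit 252) .nil))))))) (.g (nat_lit 4) .nil .nil))) 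
(.lf (nat_lit 150335) (.g (nat_lit 2509) (.e (nat_lit 57379) (nat_lit 3) (.e (nat_lit 98317) (nat_lit 9) (.e (nat_lit 336213) (nat_lit 13) (.e (nat_lit 393229) (nat_lit 9) (.e (nat_lit 335917) (nat_lit 0) .nil))))) .nil))))))))

noncomputable def tv2003 : DT := (.nd (nat_lit 0) (.nd (nat_lit 1) (.nd (nat_lit 2) (.nd (nat_lit 3) (.nd (nat_lit 4) (.nd (nat_lit 5) 
(.lf (nat_lit 150336) (.g (nat_lit 2687) (.e (nat_lit 57379) (nat_lit 3) (.e (nat_lit 98317) (nat_lit 9) (.e (nat_lit 336213) (nat_lit 13) (.e (nat_lit 393229) (nat_lit 9) (.e (nat_lit 335926) (nat_lit 0) .nil))))) .nil)) 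
(.lf (nat_lit 150368) (.g (nat_lit 4006) (.e (nat_lit 57379) (nat_lit 3) (.e (nat_lit 98317) (nat_lit 9) (.e (nat_lit 336223) (nat_lit 13) (.e (nat_lit 393225) (nat_lit 9) (.e (nat_lit 335995) (nat_lit 1) (.e (nat_lit 57849) (nat_lit 252) .nil)))))) (.g (nat_lit 6) .nil .nil)))) (.nd (nat_lit 5) 
(.lf (nat_lit 150352) (.g (nat_lit 1970) (.e (nat_lit 57379) (nat_lit 3) (.e (nat_lit 98317) (nat_lit 9) (.e (nat_lit 336221) (nat_lit 13) (.e (nat_lit 393225) (nat_lit 9) (.e (nat_lit 335986) (nat_lit 1) (.e (nat_lit 57847) (nat_lit 252) .nil)))))) (.g (nat_lit 4) .nil .nil))) 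
(.lf (nat_lit 150384) (.g (nat_lit 3371) (.e (nat_lit 57379) (nat_lit 3) (.e (nat_lit 98333) (nat_lit 18) (.e (nat_lit 164325) (nat_lit 230) (.e (nat_lit 163906) (nat_lit 12) (.e (nat_lit 426131) (nat_lit 3) (.e (nat_lit 204852) (nat_lit 26) (.e (nat_lit 336310) (nat_lit 16) (.e (nat_lit 164177) (nat_lit 154) .nil)))))))) (.g (nat_lit 6) .nil .nil))))) (.nd (nat_lit 4) (.nd (nat_lit 5) 
(.lf (nat_lit 150344) (.g (nat_lit 3902) (.e (nat_lit 57379) (nat_lit 3) (.e (nat_lit 98317) (nat_lit 9) (.e (nat_lit 336213) (nat_lit 13) (.e (nat_lit 393229) (nat_lit 9) (.e (nat_lit 335995) (nat_lit 1) (.e (nat_lit 57846) (nat_lit 252) .nil)))))) (.g (nat_lit 6) .nil .nil))) 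
(.lf (nat_lit 150376) (.g (nat_lit 3146) (.e (nat_lit 57379) (nat_lit 3) (.e (nat_lit 98317) (nat_lit 9) (.e (nat_lit 336223) (nat_lit 13) (.e (nat_lit 393229) (nat_lit 9) (.e (nat_lit 335993) (nat_lit 1) (.e (nat_lit 57849) (nat_lit 252) .nil)))))) (.g (nat_lit 0) .nil .nil)))) (.nd (nat_lit 5) 
(.lf (nat_lit 150360) (.g (nat_lit 2099) (.e (nat_lit 57379) (nat_lit 3) (.e (nat_lit 98317) (nat_lit 9) (.e (nat_lit 336222) (nat_lit 13) (.e (nat_lit 393225) (nat_lit 9) (.e (nat_lit 335995) (nat_lit 1) (.e (nat_lit 57848) (nat_lit 252) .nil)))))) (.g (nat_lit 4) .nil .nil))) 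
(.lf (nat_lit 150392) (.g (nat_lit 1472) (.e (nat_lit 57379) (nat_lit 3) (.e (nat_lit 98333) (nat_lit 18) (.e (nat_lit 164325) (nat_lit 230) (.e (nat_lit 163928) (nat_lit 16) .nil)))) .nil))))) (.nd (nat_lit 3) (.nd (nat_lit 4) (.nd (nat_lit 5) 
(.lf (nat_lit 150340) (.g (nat_lit 3737) (.e (nat_lit 57379) (nat_lit 3) (.e (nat_lit 98317) (nat_lit 9) (.e (nat_lit 336213) (nat_lit 13) (.e (nat_lit 393229) (nat_lit 9) (.e (nat_lit 335986) (nat_lit 1) (.e (nat_lit 57849) (nat_lit 252) .nil)))))) (.g (nat_lit 0) .nil .nil))) 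
(.lf (nat_lit 150372) (.g (nat_lit 1908) (.e (nat_lit 57379) (nat_lit 3) (.e (nat_lit 98317) (nat_lit 9) (.e (nat_lit 336223) (nat_lit 13) (.e (nat_lit 393229) (nat_lit 9) (.e (nat_lit 335917) (nat_lit 0) .nil))))) .nil))) (.nd (nat_lit 5) 
(.lf (nat_lit 150356) (.g (nat_lit 3124) (.e (nat_lit 57379) (nat_lit 3) (.e (nat_lit 98317) (nat_lit 9) (.e (nat_lit 336222) (nat_lit 13) (.e (nat_lit 393224) (nat_lit 9) (.e (nat_lit 335986) (nat_lit 1) (.e (nat_lit 57849) (nat_lit 252) .nil)))))) (.g (nat_lit 0) .nil .nil))) 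
(.lf (nat_lit 150388) (.g (nat_lit 1471) (.e (nat_lit 57379) (nat_lit 3) (.e (nat_lit 98333) (nat_lit 18) (.e (nat_lit 164325) (nat_lit 230) (.e (nat_lit 163926) (nat_lit 16) .nil)))) .nil)))) (.nd (nat_lit 4) (.nd (nat_lit 5) 
(.lf (nat_lit 150348) (.g (nat_lit 3561) (.e (nat_lit 57379) (nat_lit 3) (.e (nat_lit 98317) (nat_lit 9) (.e (nat_lit 336215) (nat_lit 13) (.e (nat_lit 393229) (nat_lit 9) (.e (nat_lit 335986) (nat_lit 1) (.e (nat_lit 57849) (nat_lit 252) .nil)))))) (.g (nat_lit 0) .nil .nil))) 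
(.lf (nat_lit 150380) (.g (nat_lit 2698) (.e (nat_lit 57379) (nat_lit 3) (.e (nat_lit 106240) (nat_lit 10) (.e (nat_lit 344133) (nat_lit 26) (.e (nat_lit 557105) (nat_lit 14) (.e (nat_lit 180251) (nat_lit 10) (.e (nat_lit 573478) (nat_lit 12) (.e (nat_lit 57356) (nat_lit 0) (.e (nat_lit 5195) (nat_lit 294) .nil)))))))) (.g (nat_lit 5) .nil .nil)))) (.nd (nat_lit 5) 
(.lf (nat_lit 150364) (.g (nat_lit 3284) (.e (nat_lit 57379) (nat_lit 3) (.e (nat_lit 98317) (nat_lit 9) (.e (nat_lit 336222) (nat_lit 13) (.e (nat_lit 393229) (nat_lit 9) (.e (nat_lit 335986) (nat_lit 1) (.e (nat_lit 57849) (nat_lit 252) .nil)))))) (.g (nat_lit 0) .nil .nil))) 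
(.lf (nat_lit 150396) (.g (nat_lit 1809) (.e (nat_lit 57379) (nat_lit 3) (.e (nat_lit 98333) (nat_lit 18) (.e (nat_lit 164325) (nat_lit 230) (.e (nat_lit 163939) (nat_lit 18) .nil)))) .nil)))))) (.nd (nat_lit 2) (.nd (nat_lit 3) (.nd (nat_lit 4) (.nd (nat_lit 5) 
(.lf (nat_lit 150338) (.g (nat_lit 2579) (.e (nat_lit 57379) (nat_lit 3) (.e (nat_lit 98317) (nat_lit 9) (.e (nat_lit 336213) (nat_lit 13) (.e (nat_lit 393229) (nat_lit 9) (.e (nat_lit 335934) (nat_lit 0) .nil))))) .nil)) 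
(.lf (nat_lit 150370) (.g (nat_lit 2116) (.e (nat_lit 57379) (nat_lit 3) (.e (nat_lit 98317) (nat_lit 9) (.e (nat_lit 336223) (nat_lit 13) (.e (nat_lit 393228) (nat_lit 9) .nil)))) .nil))) (.nd (nat_lit 5) 
(.lf (nat_lit 150354) (.g (nat_lit 2159) (.e (nat_lit 57379) (nat_lit 3) (.e (nat_lit 98317) (nat_lit 9) (.e (nat_lit 336221) (nat_lit 13) (.e (nat_lit 393225) (nat_lit 9) (.e (nat_lit 335995) (nat_lit 1) (.e (nat_lit 57848) (nat_lit 252) .nil)))))) (.g (nat_lit 4) .nil .nil))) 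
(.lf (nat_lit 150386) (.g (nat_lit 3829) (.e (nat_lit 57379) (nat_lit 3) (.e (nat_lit 98333) (nat_lit 18) (.e (nat_lit 164325) (nat_lit 230) (.e (nat_lit 163906) (nat_lit 12) (.e (nat_lit 426131) (nat_lit 3) (.e (nat_lit 204880) (nat_lit 32) (.e (nat_lit 385049) (nat_lit 21) (.e (nat_lit 6391) (nat_lit 339) .nil)))))))) (.g (nat_lit 6) .nil .nil))))) (.nd (nat_lit 4) (.nd (nat_lit 5) 
(.lf (nat_lit 150346) (.g (nat_lit 1412) (.e (nat_lit 57379) (nat_lit 3) (.e (nat_lit 98317) (nat_lit 9) (.e (nat_lit 336214) (nat_lit 13) (.e (nat_lit 393229) (nat_lit 9) (.e (nat_lit 343808) (nat_lit 1) .nil))))) .nil)) 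
(.lf (nat_lit 150378) (.g (nat_lit 2254) (.e (nat_lit 57379) (nat_lit 3) (.e (nat_lit 106240) (nat_lit 10) (.e (nat_lit 344118) (nat_lit 21) (.e (nat_lit 516129) (nat_lit 3) (.e (nat_lit 221210) (nat_lit 22) (.e (nat_lit 196660) (nat_lit 12) (.e (nat_lit 57354) (nat_lit 0) (.e (nat_lit 5195) (nat_lit 294) .nil)))))))) (.g (nat_lit 5) .nil .nil)))) (.nd (nat_lit 5) 
(.lf (nat_lit 150362) (.g (nat_lit 1248) (.e (nat_lit 57379) (nat_lit 3) (.e (nat_lit 98317) (nat_lit 9) (.e (nat_lit 336222) (nat_lit 13) (.e (nat_lit 393227) (nat_lit 9) (.e (nat_lit 335957) (nat_lit 0) .nil))))) .nil)) 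
(.lf (nat_lit 150394) (.g (nat_lit 3900) (.e (nat_lit 57379) (nat_lit 3) (.e (nat_lit 98333) (nat_lit 18) (.e (nat_lit 164325) (nat_lit 230) (.e (nat_lit 163928) (nat_lit 16) (.e (nat_lit 458789) (nat_lit 23) (.e (nat_lit 532530) (nat_lit 9) (.e (nat_lit 336310) (nat_lit 16) (.e (nat_lit 164182) (nat_lit 154) .nil)))))))) (.g (nat_lit 6) .nil .nil)))))) 
(.nd (nat_lit 3) (.nd (nat_lit 4) (.nd (nat_lit 5) 
(.lf (nat_lit 150342) (.g (nat_lit 3307) (.e (nat_lit 57379) (nat_lit 3) (.e (nat_lit 98317) (nat_lit 9) (.e (nat_lit 336213) (nat_lit 13) (.e (nat_lit 393229) (nat_lit 9) (.e (nat_lit 335994) (nat_lit 1) (.e (nat_lit 57844) (nat_lit 252) .nil)))))) (.g (nat_lit 0) .nil .nil))) 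
(.lf (nat_lit 150374) (.g (nat_lit 3438) (.e (nat_lit 57379) (nat_lit 3) (.e (nat_lit 98317) (nat_lit 9) (.e (nat_lit 336223) (nat_lit 13) (.e (nat_lit 393229) (nat_lit 9) (.e (nat_lit 335986) (nat_lit 1) (.e (nat_lit 57849) (nat_lit 252) .nil)))))) (.g (nat_lit 0) .nil .nil)))) (.nd (nat_lit 5) 
(.lf (nat_lit 150358) (.g (nat_lit 2462) (.e (nat_lit 57379) (nat_lit 3) (.e (nat_lit 98317) (nat_lit 9) (.e (nat_lit 336222) (nat_lit 13) (.e (nat_lit 393225) (nat_lit 9) (.e (nat_lit 335986) (nat_lit 1) (.e (nat_lit 57849) (nat_lit 252) .nil)))))) (.g (nat_lit 5) .nil .nil))) 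
(.lf (nat_lit 150390) (.g (nat_lit 4663) (.e (nat_lit 57379) (nat_lit 3) (.e (nat_lit 98333) (nat_lit 18) (.e (nat_lit 164325) (nat_lit 230) (.e (nat_lit 163926) (nat_lit 16) (.e (nat_lit 458789) (nat_lit 23) (.e (nat_lit 532530) (nat_lit 9) (.e (nat_lit 336310) (nat_lit 16) (.e (nat_lit 164183) (nat_lit 154) .nil)))))))) (.g (nat_lit 7) .nil .nil))))) (.nd (nat_lit 4) (.nd (nat_lit 5) 
(.lf (nat_lit 150350) (.g (nat_lit 3409) (.e (nat_lit 57379) (nat_lit 3) (.e (nat_lit 98317) (nat_lit 9) (.e (nat_lit 336220) (nat_lit 13) (.e (nat_lit 393225) (nat_lit 9) (.e (nat_lit 335995) (nat_lit 1) (.e (nat_lit 57847) (nat_lit 252) .nil)))))) (.g (nat_lit 6) .nil .nil))) 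
(.lf (nat_lit 150382) (.g (nat_lit 1249) (.e (nat_lit 57379) (nat_lit 3) (.e (nat_lit 98333) (nat_lit 18) (.e (nat_lit 164179) (nat_lit 154) .nil))) .nil))) (.nd (nat_lit 5) 
(.lf (nat_lit 150366) (.g (nat_lit 2117) (.e (nat_lit 57379) (nat_lit 3) (.e (nat_lit 98317) (nat_lit 9) (.e (nat_lit 336223) (nat_lit 13) (.e (nat_lit 393224) (nat_lit 9) .nil)))) .nil)) 
(.lf (nat_lit 150398) (.g (nat_lit 1010) (.e (nat_lit 57379) (nat_lit 3) (.e (nat_lit 98333) (nat_lit 18) (.e (nat_lit 164385) (nat_lit 254) .nil))) .nil))))))) (.nd (nat_lit 1) (.nd (nat_lit 2) (.nd (nat_lit 3) (.nd (nat_lit 4) (.nd (nat_lit 5) 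
(.lf (nat_lit 150337) (.g (nat_lit 2648) (.e (nat_lit 57379) (nat_lit 3) (.e (nat_lit 98317) (nat_lit 9) (.e (nat_lit 336213) (nat_lit 13) (.e (nat_lit 393229) (nat_lit 9) (.e (nat_lit 335931) (nat_lit 0) .nil))))) .nil)) 
(.lf (nat_lit 150369) (.g (nat_lit 3145) (.e (nat_lit 57379) (nat_lit 3) (.e (nat_lit 98317) (nat_lit 9) (.e (nat_lit 336223) (nat_lit 13) (.e (nat_lit 393227) (nat_lit 9) (.e (nat_lit 335998) (nat_lit 1) (.e (nat_lit 57849) (nat_lit 252) .nil)))))) (.g (nat_lit 0) .nil .nil)))) (.nd (nat_lit 5) 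
(.lf (nat_lit 150353) (.g (nat_lit 2536) (.e (nat_lit 57379) (nat_lit 3) (.e (nat_lit 98317) (nat_lit 9) (.e (nat_lit 336221) (nat_lit 13) (.e (nat_lit 393225) (nat_lit 9) (.e (nat_lit 335995) (nat_lit 1) (.e (nat_lit 57847) (nat_lit 252) .nil)))))) (.g (nat_lit 5) .nil .nil))) 
(.lf (nat_lit 150385) (.g (nat_lit 4443) (.e (nat_lit 57379) (nat_lit 3) (.e (nat_lit 98333) (nat_lit 18) (.e (nat_lit 164325) (nat_lit 230) (.e (nat_lit 163906) (nat_lit 12) (.e (nat_lit 426131) (nat_lit 3) (.e (nat_lit 204852) (nat_lit 26) (.e (nat_lit 336310) (nat_lit 16) (.e (nat_lit 164183) (nat_lit 154) .nil)))))))) (.g (nat_lit 7) .nil .nil))))) (.nd (nat_lit 4) (.nd (nat_lit 5) 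
(.lf (nat_lit 150345) (.g (nat_lit 2167) (.e (nat_lit 57379) (nat_lit 3) (.e (nat_lit 98317) (nat_lit 9) (.e (nat_lit 336214) (nat_lit 13) (.e (nat_lit 393229) (nat_lit 9) (.e (nat_lit 335993) (nat_lit 1) (.e (nat_lit 57849) (nat_lit 252) .nil)))))) (.g (nat_lit 4) .nil .nil))) 
(.lf (nat_lit 150377) (.g (nat_lit 2976) (.e (nat_lit 57379) (nat_lit 3) (.e (nat_lit 98317) (nat_lit 9) (.e (nat_lit 336223) (nat_lit 13) (.e (nat_lit 393229) (nat_lit 9) (.e (nat_lit 335994) (nat_lit 1) (.e (nat_lit 57844) (nat_lit 252) .nil)))))) (.g (nat_lit 6) .nil .nil)))) (.nd (nat_lit 5) 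
(.lf (nat_lit 150361) (.g (nat_lit 1043) (.e (nat_lit 57379) (nat_lit 3) (.e (nat_lit 98317) (nat_lit 9) (.e (nat_lit 336222) (nat_lit 13) (.e (nat_lit 393227) (nat_lit 9) .nil)))) .nil)) 
(.lf (nat_lit 150393) (.g (nat_lit 3741) (.e (nat_lit 57379) (nat_lit 3) (.e (nat_lit 98333) (nat_lit 18) (.e (nat_lit 164325) (nat_lit 230) (.e (nat_lit 163928) (nat_lit 16) (.e (nat_lit 458789) (nat_lit 23) (.e (nat_lit 532530) (nat_lit 9) (.e (nat_lit 336310) (nat_lit 16) (.e (nat_lit 164177) (nat_lit 154) .nil)))))))) (.g (nat_lit 6) .nil .nil)))))) 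
(.nd (nat_lit 3) (.nd (nat_lit 4) (.nd (nat_lit 5) 
(.lf (nat_lit 150341) (.g (nat_lit 2324) (.e (nat_lit 57379) (nat_lit 3) (.e (nat_lit 98317) (nat_lit 9) (.e (nat_lit 336213) (nat_lit 13) (.e (nat_lit 393229) (nat_lit 9) (.e (nat_lit 335993) (nat_lit 1) (.e (nat_lit 57847) (nat_lit 252) .nil)))))) (.g (nat_lit 4) .nil .nil))) 
(.lf (nat_lit 150373) (.g (nat_lit 2950) (.e (nat_lit 57379) (nat_lit 3) (.e (nat_lit 98317) (nat_lit 9) (.e (nat_lit 336223) (nat_lit 13) (.e (nat_lit 393229) (nat_lit 9) (.e (nat_lit 335985) (nat_lit 1) (.e (nat_lit 57849) (nat_lit 252) .nil)))))) (.g (nat_lit 0) .nil .nil)))) (.nd (nat_lit 5) 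
(.lf (nat_lit 150357) (.g (nat_lit 2960) (.e (nat_lit 57379) (nat_lit 3) (.e (nat_lit 98317) (nat_lit 9) (.e (nat_lit 336222) (nat_lit 13) (.e (nat_lit 393225) (nat_lit 9) (.e (nat_lit 335986) (nat_lit 1) (.e (nat_lit 57847) (nat_lit 252) .nil)))))) (.g (nat_lit 6) .nil .nil))) 
(.lf (nat_lit 150389) (.g (nat_lit 3538) (.e (nat_lit 57379) (nat_lit 3) (.e (nat_lit 98333) (nat_lit 18) (.e (nat_lit 164325) (nat_lit 230) (.e (nat_lit 163926) (nat_lit 16) (.e (nat_lit 458789) (nat_lit 23) (.e (nat_lit 532530) (nat_lit 9) (.e (nat_lit 336310) (nat_lit 16) (.e (nat_lit 164177) (nat_lit 154) .nil)))))))) (.g (nat_lit 6) .nil .nil))))) (.nd (nat_lit 4) (.nd (nat_lit 5) 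
(.lf (nat_lit 150349) (.g (nat_lit 2956) (.e (nat_lit 57379) (nat_lit 3) (.e (nat_lit 98317) (nat_lit 9) (.e (nat_lit 336220) (nat_lit 13) (.e (nat_lit 393225) (nat_lit 9) (.e (nat_lit 335986) (nat_lit 1) (.e (nat_lit 57847) (nat_lit 252) .nil)))))) (.g (nat_lit 6) .nil .nil))) 
(.lf (nat_lit 150381) (.g (nat_lit 3889) (.e (nat_lit 57379) (nat_lit 3) (.e (nat_lit 106240) (nat_lit 10) (.e (nat_lit 344133) (nat_lit 26) (.e (nat_lit 557105) (nat_lit 14) (.e (nat_lit 180252) (nat_lit 10) (.e (nat_lit 573474) (nat_lit 12) (.e (nat_lit 57356) (nat_lit 0) (.e (nat_lit 5195) (nat_lit 294) .nil)))))))) (.g (nat_lit 6) .nil .nil)))) (.nd (nat_lit 5) 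
(.lf (nat_lit 150365) (.g (nat_lit 2008) (.e (nat_lit 57379) (nat_lit 3) (.e (nat_lit 98317) (nat_lit 9) (.e (nat_lit 336222) (nat_lit 13) (.e (nat_lit 393229) (nat_lit 9) (.e (nat_lit 343808) (nat_lit 1) (.e (nat_lit 57849) (nat_lit 252) .nil)))))) (.g (nat_lit 4) .nil .nil))) 
(.lf (nat_lit 150397) (.g (nat_lit 1010) (.e (nat_lit 57379) (nat_lit 3) (.e (nat_lit 98333) (nat_lit 18) (.e (nat_lit 164383) (nat_lit 254) .nil))) .nil)))))) (.nd (nat_lit 2) (.nd (nat_lit 3) (.nd (nat_lit 4) (.nd (nat_lit 5) 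
(.lf (nat_lit 150339) (.g (nat_lit 3226) (.e (nat_lit 57379) (nat_lit 3) (.e (nat_lit 98317) (nat_lit 9) (.e (nat_lit 336213) (nat_lit 13) (.e (nat_lit 393229) (nat_lit 9) (.e (nat_lit 335985) (nat_lit 1) (.e (nat_lit 57849) (nat_lit 252) .nil)))))) (.g (nat_lit 0) .nil .nil))) 
(.lf (nat_lit 150371) (.g (nat_lit 2344) (.e (nat_lit 57379) (nat_lit 3) (.e (nat_lit 98317) (nat_lit 9) (.e (nat_lit 336223) (nat_lit 13) (.e (nat_lit 393229) (nat_lit 9) (.e (nat_lit 335886) (nat_lit 0) (.e (nat_lit 1023) (nat_lit 81) (.e (nat_lit 5195) (nat_lit 294) .nil))))))) (.g (nat_lit 4) .nil .nil)))) (.nd (nat_lit 5) 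
(.lf (nat_lit 150355) (.g (nat_lit 437) (.e (nat_lit 57379) (nat_lit 3) (.e (nat_lit 98317) (nat_lit 9) (.e (nat_lit 336222) (nat_lit 13) .nil))) .nil)) 
(.lf (nat_lit 150387) (.g (nat_lit 5137) (.e (nat_lit 57379) (nat_lit 3) (.e (nat_lit 98333) (nat_lit 18) (.e (nat_lit 164325) (nat_lit 230) (.e (nat_lit 163907) (nat_lit 12) (.e (nat_lit 426131) (nat_lit 3) (.e (nat_lit 204880) (nat_lit 32) (.e (nat_lit 385049) (nat_lit 21) (.e (nat_lit 6391) (nat_lit 339) .nil)))))))) (.g (nat_lit 6) .nil .nil))))) (.nd (nat_lit 4) (.nd (nat_lit 5) 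
(.lf (nat_lit 150347) (.g (nat_lit 3170) (.e (nat_lit 57379) (nat_lit 3) (.e (nat_lit 98317) (nat_lit 9) (.e (nat_lit 336215) (nat_lit 13) (.e (nat_lit 393227) (nat_lit 9) (.e (nat_lit 335998) (nat_lit 1) (.e (nat_lit 57849) (nat_lit 252) .nil)))))) (.g (nat_lit 0) .nil .nil))) 
(.lf (nat_lit 150379) (.g (nat_lit 3333) (.e (nat_lit 57379) (nat_lit 3) (.e (nat_lit 106240) (nat_lit 10) (.e (nat_lit 344131) (nat_lit 26) (.e (nat_lit 557105) (nat_lit 14) (.e (nat_lit 180252) (nat_lit 10) (.e (nat_lit 573474) (nat_lit 12) (.e (nat_lit 57356) (nat_lit 0) (.e (nat_lit 5195) (nat_lit 294) .nil)))))))) (.g (nat_lit 6) .nil .nil)))) (.nd (nat_lit 5) 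
(.lf (nat_lit 150363) (.g (nat_lit 1620) (.e (nat_lit 57379) (nat_lit 3) (.e (nat_lit 98317) (nat_lit 9) (.e (nat_lit 336222) (nat_lit 13) (.e (nat_lit 393229) (nat_lit 9) (.e (nat_lit 335933) (nat_lit 0) .nil))))) .nil)) 
(.lf (nat_lit 150395) (.g (nat_lit 3316) (.e (nat_lit 57379) (nat_lit 3) (.e (nat_lit 98333) (nat_lit 18) (.e (nat_lit 164325) (nat_lit 230) (.e (nat_lit 163928) (nat_lit 16) (.e (nat_lit 458789) (nat_lit 23) (.e (nat_lit 532563) (nat_lit 15) (.e (nat_lit 385049) (nat_lit 21) (.e (nat_lit 6391) (nat_lit 339) .nil)))))))) (.g (nat_lit 5) .nil .nil)))))) 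
(.nd (nat_lit 3) (.nd (nat_lit 4) (.nd (nat_lit 5) 
(.lf (nat_lit 150343) (.g (nat_lit 3493) (.e (nat_lit 57379) (nat_lit 3) (.e (nat_lit 98317) (nat_lit 9) (.e (nat_lit 336213) (nat_lit 13) (.e (nat_lit 393229) (nat_lit 9) (.e (nat_lit 335994) (nat_lit 1) (.e (nat_lit 57846) (nat_lit 252) .nil)))))) (.g (nat_lit 6) .nil .nil))) 
(.lf (nat_lit 150375) (.g (nat_lit 2066) (.e (nat_lit 57379) (nat_lit 3) (.e (nat_lit 98317) (nat_lit 9) (.e (nat_lit 336223) (nat_lit 13) (.e (nat_lit 393229) (nat_lit 9) (.e (nat_lit 335993) (nat_lit 1) (.e (nat_lit 57847) (nat_lit 252) .nil)))))) (.g (nat_lit 4) .nil .nil)))) (.nd (nat_lit 5) 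
(.lf (nat_lit 150359) (.g (nat_lit 3002) (.e (nat_lit 57379) (nat_lit 3) (.e (nat_lit 98317) (nat_lit 9) (.e (nat_lit 336222) (nat_lit 13) (.e (nat_lit 393225) (nat_lit 9) (.e (nat_lit 335995) (nat_lit 1) (.e (nat_lit 57847) (nat_lit 252) .nil)))))) (.g (nat_lit 5) .nil .nil))) 
(.lf (nat_lit 150391) (.g (nat_lit 3100) (.e (nat_lit 57379) (nat_lit 3) (.e (nat_lit 98333) (nat_lit 18) (.e (nat_lit 164325) (nat_lit 230) (.e (nat_lit 163926) (nat_lit 16) (.e (nat_lit 458789) (nat_lit 23) (.e (nat_lit 532563) (nat_lit 15) (.e (nat_lit 385049) (nat_lit 21) (.e (nat_lit 6391) (nat_lit 339) .nil)))))))) (.g (nat_lit 5) .nil .nil))))) (.nd (nat_lit 4) (.nd (nat_lit 5) 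
(.lf (nat_lit 150351) (.g (nat_lit 3085) (.e (nat_lit 57379) (nat_lit 3) (.e (nat_lit 98317) (nat_lit 9) (.e (nat_lit 336220) (nat_lit 13) (.e (nat_lit 393225) (nat_lit 9) (.e (nat_lit 335995) (nat_lit 1) (.e (nat_lit 57848) (nat_lit 252) .nil)))))) (.g (nat_lit 5) .nil .nil))) 
(.lf (nat_lit 150383) (.g (nat_lit 1322) (.e (nat_lit 57379) (nat_lit 3) (.e (nat_lit 98333) (nat_lit 18) (.e (nat_lit 164325) (nat_lit 230) (.e (nat_lit 163906) (nat_lit 12) .nil)))) .nil))) (.nd (nat_lit 5) 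
(.lf (nat_lit 150367) (.g (nat_lit 2889) (.e (nat_lit 57379) (nat_lit 3) (.e (nat_lit 98317) (nat_lit 9) (.e (nat_lit 336223) (nat_lit 13) (.e (nat_lit 393225) (nat_lit 9) (.e (nat_lit 335986) (nat_lit 1) (.e (nat_lit 57849) (nat_lit 252) .nil)))))) (.g (nat_lit 5) .nil .nil))) 
(.lf (nat_lit 150399) (.g (nat_lit 2618) (.e (nat_lit 57379) (nat_lit 3) (.e (nat_lit 98333) (nat_lit 18) (.e (nat_lit 164399) (nat_lit 256) (.e (nat_lit 57588) (nat_lit 73) (.e (nat_lit 426123) (nat_lit 2) (.e (nat_lit 196666) (nat_lit 13) (.e (nat_lit 65565) (nat_lit 1) (.e (nat_lit 57849) (nat_lit 252) .nil)))))))) (.g (nat_lit 4) .nil .nil)))))))))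

noncomputable def tv2004 : DT := (.nd (nat_lit 0) (.nd (nat_lit 1) (.nd (nat_lit 2) (.nd (nat_lit 3) (.nd (nat_lit 4) (.nd (nat_lit 5) 
(.lf (nat_lit 150400) (.g (nat_lit 3565) (.e (nat_lit 57379) (nat_lit 3) (.e (nat_lit 98333) (nat_lit 18) (.e (nat_lit 164399) (nat_lit 256) (.e (nat_lit 57588) (nat_lit 73) (.e (nat_lit 426139) (nat_lit 3) (.e (nat_lit 204854) (nat_lit 26) (.e (nat_lit 336000) (nat_lit 1) (.e (nat_lit 57849) (nat_lit 252) .nil)))))))) (.g (nat_lit 5) .nil .nil))) 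
(.lf (nat_lit 150432) (.g (nat_lit 3893) (.e (nat_lit 57379) (nat_lit 3) (.e (nat_lit 98340) (nat_lit 20) (.e (nat_lit 221214) (nat_lit 23) (.e (nat_lit 204863) (nat_lit 27) (.e (nat_lit 344117) (nat_lit 21) (.e (nat_lit 516116) (nat_lit 1) (.e (nat_lit 164180) (nat_lit 154) .nil))))))) (.g (nat_lit 6) .nil .nil)))) (.nd (nat_lit 5) 
(.lf (nat_lit 150416) (.g (nat_lit 4881) (.e (nat_lit 57379) (nat_lit 3) (.e (nat_lit 98334) (nat_lit 18) (.e (nat_lit 164330) (nat_lit 230) (.e (nat_lit 163927) (nat_lit 16) (.e (nat_lit 458789) (nat_lit 23) (.e (nat_lit 532530) (nat_lit 9) (.e (nat_lit 336310) (nat_lit 16) (.e (nat_lit 164183) (nat_lit 154) .nil)))))))) (.g (nat_lit 7) .nil .nil))) 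
(.lf (nat_lit 150448) (.g (nat_lit 4401) (.e (nat_lit 57379) (nat_lit 3) (.e (nat_lit 98341) (nat_lit 20) (.e (nat_lit 221211) (nat_lit 22) (.e (nat_lit 196666) (nat_lit 13) (.e (nat_lit 65569) (nat_lit 3) (.e (nat_lit 98334) (nat_lit 18) (.e (nat_lit 164176) (nat_lit 154) .nil))))))) (.g (nat_lit 6) .nil .nil))))) (.nd (nat_lit 4) (.nd (nat_lit 5) 
(.lf (nat_lit 150408) (.g (nat_lit 3758) (.e (nat_lit 57379) (nat_lit 3) (.e (nat_lit 98334) (nat_lit 18) (.e (nat_lit 164330) (nat_lit 230) (.e (nat_lit 163915) (nat_lit 12) (.e (nat_lit 426133) (nat_lit 3) (.e (nat_lit 204852) (nat_lit 26) (.e (nat_lit 336310) (nat_lit 16) (.e (nat_lit 164183) (nat_lit 154) .nil)))))))) (.g (nat_lit 5) .nil .nil))) 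
(.lf (nat_lit 150440) (.g (nat_lit 2638) (.e (nat_lit 57379) (nat_lit 3) (.e (nat_lit 98340) (nat_lit 20) (.e (nat_lit 221215) (nat_lit 23) (.e (nat_lit 204880) (nat_lit 32) (.e (nat_lit 385066) (nat_lit 26) (.e (nat_lit 532503) (nat_lit 1) (.e (nat_lit 57849) (nat_lit 252) .nil))))))) (.g (nat_lit 5) .nil .nil)))) (.nd (nat_lit 5) 
(.lf (nat_lit 150424) (.g (nat_lit 3173) (.e (nat_lit 57379) (nat_lit 3) (.e (nat_lit 98334) (nat_lit 18) (.e (nat_lit 164399) (nat_lit 256) (.e (nat_lit 57588) (nat_lit 73) (.e (nat_lit 426139) (nat_lit 3) (.e (nat_lit 204872) (nat_lit 30) (.e (nat_lit 368662) (nat_lit 18) (.e (nat_lit 5195) (nat_lit 294) .nil)))))))) (.g (nat_lit 5) .nil .nil))) 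
(.lf (nat_lit 150456) (.g (nat_lit 4318) (.e (nat_lit 57379) (nat_lit 3) (.e (nat_lit 98341) (nat_lit 20) (.e (nat_lit 221211) (nat_lit 22) (.e (nat_lit 196666) (nat_lit 13) (.e (nat_lit 65571) (nat_lit 3) (.e (nat_lit 98333) (nat_lit 18) (.e (nat_lit 164177) (nat_lit 154) .nil))))))) (.g (nat_lit 7) .nil .nil)))))) (.nd (nat_lit 3) (.nd (nat_lit 4) (.nd (nat_lit 5) 
(.lf (nat_lit 150404) (.g (nat_lit 1555) (.e (nat_lit 57379) (nat_lit 3) (.e (nat_lit 98334) (nat_lit 18) (.e (nat_lit 164330) (nat_lit 230) (.e (nat_lit 163905) (nat_lit 12) .nil)))) .nil)) 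
(.lf (nat_lit 150436) (.g (nat_lit 4163) (.e (nat_lit 57379) (nat_lit 3) (.e (nat_lit 98340) (nat_lit 20) (.e (nat_lit 221215) (nat_lit 23) (.e (nat_lit 204863) (nat_lit 27) (.e (nat_lit 344117) (nat_lit 21) (.e (nat_lit 516116) (nat_lit 1) (.e (nat_lit 164180) (nat_lit 154) .nil))))))) (.g (nat_lit 6) .nil .nil)))) (.nd (nat_lit 5) 
(.lf (nat_lit 150420) (.g (nat_lit 3870) (.e (nat_lit 57379) (nat_lit 3) (.e (nat_lit 98334) (nat_lit 18) (.e (nat_lit 164332) (nat_lit 230) (.e (nat_lit 163905) (nat_lit 12) (.e (nat_lit 426131) (nat_lit 3) (.e (nat_lit 204852) (nat_lit 26) (.e (nat_lit 336310) (nat_lit 16) (.e (nat_lit 164183) (nat_lit 154) .nil)))))))) (.g (nat_lit 4) .nil .nil))) 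
(.lf (nat_lit 150452) (.g (nat_lit 2935) (.e (nat_lit 57379) (nat_lit 3) (.e (nat_lit 98341) (nat_lit 20) (.e (nat_lit 221211) (nat_lit 22) (.e (nat_lit 196666) (nat_lit 13) (.e (nat_lit 65570) (nat_lit 3) (.e (nat_lit 98333) (nat_lit 18) (.e (nat_lit 164177) (nat_lit 154) .nil))))))) (.g (nat_lit 4) .nil .nil))))) (.nd (nat_lit 4) (.nd (nat_lit 5) 
(.lf (nat_lit 150412) (.g (nat_lit 4606) (.e (nat_lit 57379) (nat_lit 3) (.e (nat_lit 98334) (nat_lit 18) (.e (nat_lit 164330) (nat_lit 230) (.e (nat_lit 163926) (nat_lit 16) (.e (nat_lit 458789) (nat_lit 23) (.e (nat_lit 532530) (nat_lit 9) (.e (nat_lit 336310) (nat_lit 16) (.e (nat_lit 164183) (nat_lit 154) .nil)))))))) (.g (nat_lit 6) .nil .nil))) 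
(.lf (nat_lit 150444) (.g (nat_lit 449) (.e (nat_lit 57379) (nat_lit 3) (.e (nat_lit 98341) (nat_lit 20) (.e (nat_lit 221211) (nat_lit 22) .nil))) .nil))) (.nd (nat_lit 5) 
(.lf (nat_lit 150428) (.g (nat_lit 2986) (.e (nat_lit 57379) (nat_lit 3) (.e (nat_lit 98340) (nat_lit 20) (.e (nat_lit 221211) (nat_lit 22) (.e (nat_lit 196666) (nat_lit 13) (.e (nat_lit 65571) (nat_lit 3) (.e (nat_lit 98334) (nat_lit 18) (.e (nat_lit 164180) (nat_lit 154) .nil))))))) (.g (nat_lit 5) .nil .nil))) 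
(.lf (nat_lit 150460) (.g (nat_lit 3810) (.e (nat_lit 57379) (nat_lit 3) (.e (nat_lit 98341) (nat_lit 20) (.e (nat_lit 221211) (nat_lit 22) (.e (nat_lit 196666) (nat_lit 13) (.e (nat_lit 65571) (nat_lit 3) (.e (nat_lit 98334) (nat_lit 18) (.e (nat_lit 164181) (nat_lit 154) .nil))))))) (.g (nat_lit 6) .nil .nil))))))) (.nd (nat_lit 2) (.nd (nat_lit 3) (.nd (nat_lit 4) (.nd (nat_lit 5) 
(.lf (nat_lit 150402) (.g (nat_lit 979) (.e (nat_lit 57379) (nat_lit 3) (.e (nat_lit 98334) (nat_lit 18) (.e (nat_lit 164258) (nat_lit 215) .nil))) .nil)) 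
(.lf (nat_lit 150434) (.g (nat_lit 2785) (.e (nat_lit 57379) (nat_lit 3) (.e (nat_lit 98340) (nat_lit 20) (.e (nat_lit 221215) (nat_lit 23) (.e (nat_lit 204862) (nat_lit 27) (.e (nat_lit 344118) (nat_lit 21) (.e (nat_lit 516120) (nat_lit 1) (.e (nat_lit 164183) (nat_lit 154) .nil))))))) (.g (nat_lit 5) .nil .nil)))) (.nd (nat_lit 5) 
(.lf (nat_lit 150418) (.g (nat_lit 3046) (.e (nat_lit 57379) (nat_lit 3) (.e (nat_lit 98334) (nat_lit 18) (.e (nat_lit 164332) (nat_lit 230) (.e (nat_lit 163905) (nat_lit 12) (.e (nat_lit 426131) (nat_lit 3) (.e (nat_lit 204852) (nat_lit 26) (.e (nat_lit 336310) (nat_lit 16) (.e (nat_lit 164177) (nat_lit 154) .nil)))))))) (.g (nat_lit 4) .nil .nil))) 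
(.lf (nat_lit 150450) (.g (nat_lit 4595) (.e (nat_lit 57379) (nat_lit 3) (.e (nat_lit 98341) (nat_lit 20) (.e (nat_lit 221211) (nat_lit 22) (.e (nat_lit 196666) (nat_lit 13) (.e (nat_lit 65569) (nat_lit 3) (.e (nat_lit 98334) (nat_lit 18) (.e (nat_lit 164183) (nat_lit 154) .nil))))))) (.g (nat_lit 7) .nil .nil))))) (.nd (nat_lit 4) (.nd (nat_lit 5) 
(.lf (nat_lit 150410) (.g (nat_lit 3716) (.e (nat_lit 57379) (nat_lit 3) (.e (nat_lit 98334) (nat_lit 18) (.e (nat_lit 164330) (nat_lit 230) (.e (nat_lit 163926) (nat_lit 16) (.e (nat_lit 458789) (nat_lit 23) (.e (nat_lit 532530) (nat_lit 9) (.e (nat_lit 336310) (nat_lit 16) (.e (nat_lit 164177) (nat_lit 154) .nil)))))))) (.g (nat_lit 5) .nil .nil))) 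
(.lf (nat_lit 150442) (.g (nat_lit 2921) (.e (nat_lit 57379) (nat_lit 3) (.e (nat_lit 98341) (nat_lit 20) (.e (nat_lit 221210) (nat_lit 22) (.e (nat_lit 196666) (nat_lit 13) (.e (nat_lit 65642) (nat_lit 15) .nil))))) .nil))) (.nd (nat_lit 5) 
(.lf (nat_lit 150426) (.g (nat_lit 3085) (.e (nat_lit 57379) (nat_lit 3) (.e (nat_lit 98340) (nat_lit 20) (.e (nat_lit 221211) (nat_lit 22) (.e (nat_lit 196666) (nat_lit 13) (.e (nat_lit 65569) (nat_lit 3) (.e (nat_lit 98334) (nat_lit 18) (.e (nat_lit 164181) (nat_lit 154) .nil))))))) (.g (nat_lit 6) .nil .nil))) 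
(.lf (nat_lit 150458) (.g (nat_lit 3652) (.e (nat_lit 57379) (nat_lit 3) (.e (nat_lit 98341) (nat_lit 20) (.e (nat_lit 221211) (nat_lit 22) (.e (nat_lit 196666) (nat_lit 13) (.e (nat_lit 65571) (nat_lit 3) (.e (nat_lit 98334) (nat_lit 18) (.e (nat_lit 164176) (nat_lit 154) .nil))))))) (.g (nat_lit 6) .nil .nil)))))) (.nd (nat_lit 3) (.nd (nat_lit 4) (.nd (nat_lit 5) 
(.lf (nat_lit 150406) (.g (nat_lit 4260) (.e (nat_lit 57379) (nat_lit 3) (.e (nat_lit 98334) (nat_lit 18) (.e (nat_lit 164330) (nat_lit 230) (.e (nat_lit 163905) (nat_lit 12) (.e (nat_lit 426131) (nat_lit 3) (.e (nat_lit 204852) (nat_lit 26) (.e (nat_lit 336310) (nat_lit 16) (.e (nat_lit 164183) (nat_lit 154) .nil)))))))) (.g (nat_lit 6) .nil .nil))) 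
(.lf (nat_lit 150438) (.g (nat_lit 2370) (.e (nat_lit 57379) (nat_lit 3) (.e (nat_lit 98340) (nat_lit 20) (.e (nat_lit 221215) (nat_lit 23) (.e (nat_lit 204863) (nat_lit 27) (.e (nat_lit 344118) (nat_lit 21) (.e (nat_lit 516119) (nat_lit 1) (.e (nat_lit 164176) (nat_lit 154) .nil))))))) (.g (nat_lit 4) .nil .nil)))) (.nd (nat_lit 5) 
(.lf (nat_lit 150422) (.g (nat_lit 979) (.e (nat_lit 57379) (nat_lit 3) (.e (nat_lit 98334) (nat_lit 18) (.e (nat_lit 164383) (nat_lit 254) .nil))) .nil)) 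
(.lf (nat_lit 150454) (.g (nat_lit 2629) (.e (nat_lit 57379) (nat_lit 3) (.e (nat_lit 98341) (nat_lit 20) (.e (nat_lit 221211) (nat_lit 22) (.e (nat_lit 196666) (nat_lit 13) (.e (nat_lit 65570) (nat_lit 3) (.e (nat_lit 98333) (nat_lit 18) (.e (nat_lit 164183) (nat_lit 154) .nil))))))) (.g (nat_lit 4) .nil .nil))))) (.nd (nat_lit 4) (.nd (nat_lit 5) 
(.lf (nat_lit 150414) (.g (nat_lit 3991) (.e (nat_lit 57379) (nat_lit 3) (.e (nat_lit 98334) (nat_lit 18) (.e (nat_lit 164330) (nat_lit 230) (.e (nat_lit 163927) (nat_lit 16) (.e (nat_lit 458789) (nat_lit 23) (.e (nat_lit 532530) (nat_lit 9) (.e (nat_lit 336310) (nat_lit 16) (.e (nat_lit 164177) (nat_lit 154) .nil)))))))) (.g (nat_lit 6) .nil .nil))) 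
(.lf (nat_lit 150446) (.g (nat_lit 4487) (.e (nat_lit 57379) (nat_lit 3) (.e (nat_lit 98341) (nat_lit 20) (.e (nat_lit 221211) (nat_lit 22) (.e (nat_lit 196666) (nat_lit 13) (.e (nat_lit 65569) (nat_lit 3) (.e (nat_lit 98333) (nat_lit 18) (.e (nat_lit 164177) (nat_lit 154) .nil))))))) (.g (nat_lit 6) .nil .nil)))) (.nd (nat_lit 5) 
(.lf (nat_lit 150430) (.g (nat_lit 2537) (.e (nat_lit 57379) (nat_lit 3) (.e (nat_lit 98340) (nat_lit 20) (.e (nat_lit 221214) (nat_lit 23) (.e (nat_lit 204861) (nat_lit 26) (.e (nat_lit 336021) (nat_lit 3) (.e (nat_lit 98333) (nat_lit 18) (.e (nat_lit 164183) (nat_lit 154) .nil))))))) (.g (nat_lit 5) .nil .nil))) 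
(.lf (nat_lit 150462) (.g (nat_lit 2799) (.e (nat_lit 57379) (nat_lit 3) (.e (nat_lit 98341) (nat_lit 20) (.e (nat_lit 221211) (nat_lit 22) (.e (nat_lit 196670) (nat_lit 14) (.e (nat_lit 73746) (nat_lit 3) (.e (nat_lit 516117) (nat_lit 1) (.e (nat_lit 164180) (nat_lit 154) .nil))))))) (.g (nat_lit 5) .nil .nil)))))))) 
(.nd (nat_lit 1) (.nd (nat_lit 2) (.nd (nat_lit 3) (.nd (nat_lit 4) (.nd (nat_lit 5) 
(.lf (nat_lit 150401) (.g (nat_lit 3023) (.e (nat_lit 57379) (nat_lit 3) (.e (nat_lit 98333) (nat_lit 18) (.e (nat_lit 164399) (nat_lit 256) (.e (nat_lit 57588) (nat_lit 73) (.e (nat_lit 426139) (nat_lit 3) (.e (nat_lit 204872) (nat_lit 30) (.e (nat_lit 368662) (nat_lit 18) (.e (nat_lit 5195) (nat_lit 294) .nil)))))))) (.g (nat_lit 5) .nil .nil))) 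
(.lf (nat_lit 150433) (.g (nat_lit 4225) (.e (nat_lit 57379) (nat_lit 3) (.e (nat_lit 98340) (nat_lit 20) (.e (nat_lit 221215) (nat_lit 23) (.e (nat_lit 204862) (nat_lit 27) (.e (nat_lit 344117) (nat_lit 21) (.e (nat_lit 516116) (nat_lit 1) (.e (nat_lit 164180) (nat_lit 154) .nil))))))) (.g (nat_lit 6) .nil .nil)))) (.nd (nat_lit 5) 
(.lf (nat_lit 150417) (.g (nat_lit 3588) (.e (nat_lit 57379) (nat_lit 3) (.e (nat_lit 98334) (nat_lit 18) (.e (nat_lit 164330) (nat_lit 230) (.e (nat_lit 163927) (nat_lit 16) (.e (nat_lit 458789) (nat_lit 23) (.e (nat_lit 532563) (nat_lit 15) (.e (nat_lit 385049) (nat_lit 21) (.e (nat_lit 6391) (nat_lit 339) .nil)))))))) (.g (nat_lit 5) .nil .nil))) 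
(.lf (nat_lit 150449) (.g (nat_lit 4536) (.e (nat_lit 57379) (nat_lit 3) (.e (nat_lit 98341) (nat_lit 20) (.e (nat_lit 221211) (nat_lit 22) (.e (nat_lit 196666) (nat_lit 13) (.e (nat_lit 65569) (nat_lit 3) (.e (nat_lit 98334) (nat_lit 18) (.e (nat_lit 164181) (nat_lit 154) .nil))))))) (.g (nat_lit 7) .nil .nil))))) (.nd (nat_lit 4) (.nd (nat_lit 5) 
(.lf (nat_lit 150409) (.g (nat_lit 1924) (.e (nat_lit 57379) (nat_lit 3) (.e (nat_lit 98334) (nat_lit 18) (.e (nat_lit 164330) (nat_lit 230) (.e (nat_lit 163926) (nat_lit 16) .nil)))) .nil)) 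
(.lf (nat_lit 150441) (.g (nat_lit 2788) (.e (nat_lit 57379) (nat_lit 3) (.e (nat_lit 98341) (nat_lit 20) (.e (nat_lit 221210) (nat_lit 22) (.e (nat_lit 196665) (nat_lit 13) (.e (nat_lit 73472) (nat_lit 18) (.e (nat_lit 204829) (nat_lit 18) (.e (nat_lit 57849) (nat_lit 252) .nil))))))) (.g (nat_lit 4) .nil .nil)))) (.nd (nat_lit 5) 
(.lf (nat_lit 150425) (.g (nat_lit 3563) (.e (nat_lit 57379) (nat_lit 3) (.e (nat_lit 98340) (nat_lit 20) (.e (nat_lit 221211) (nat_lit 22) (.e (nat_lit 196666) (nat_lit 13) (.e (nat_lit 65569) (nat_lit 3) (.e (nat_lit 98334) (nat_lit 18) (.e (nat_lit 164180) (nat_lit 154) .nil))))))) (.g (nat_lit 6) .nil .nil))) 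
(.lf (nat_lit 150457) (.g (nat_lit 4601) (.e (nat_lit 57379) (nat_lit 3) (.e (nat_lit 98341) (nat_lit 20) (.e (nat_lit 221211) (nat_lit 22) (.e (nat_lit 196666) (nat_lit 13) (.e (nat_lit 65571) (nat_lit 3) (.e (nat_lit 98333) (nat_lit 18) (.e (nat_lit 164183) (nat_lit 154) .nil))))))) (.g (nat_lit 7) .nil .nil)))))) (.nd (nat_lit 3) (.nd (nat_lit 4) (.nd (nat_lit 5) 
(.lf (nat_lit 150405) (.g (nat_lit 3423) (.e (nat_lit 57379) (nat_lit 3) (.e (nat_lit 98334) (nat_lit 18) (.e (nat_lit 164330) (nat_lit 230) (.e (nat_lit 163905) (nat_lit 12) (.e (nat_lit 426131) (nat_lit 3) (.e (nat_lit 204852) (nat_lit 26) (.e (nat_lit 336310) (nat_lit 16) (.e (nat_lit 164177) (nat_lit 154) .nil)))))))) (.g (nat_lit 6) .nil .nil))) 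
(.lf (nat_lit 150437) (.g (nat_lit 2488) (.e (nat_lit 57379) (nat_lit 3) (.e (nat_lit 98340) (nat_lit 20) (.e (nat_lit 221215) (nat_lit 23) (.e (nat_lit 204863) (nat_lit 27) (.e (nat_lit 344118) (nat_lit 21) (.e (nat_lit 516115) (nat_lit 1) (.e (nat_lit 164183) (nat_lit 154) .nil))))))) (.g (nat_lit 4) .nil .nil)))) (.nd (nat_lit 5) 
(.lf (nat_lit 150421) (.g (nat_lit 3523) (.e (nat_lit 57379) (nat_lit 3) (.e (nat_lit 98334) (nat_lit 18) (.e (nat_lit 164332) (nat_lit 230) (.e (nat_lit 163905) (nat_lit 12) (.e (nat_lit 426131) (nat_lit 3) (.e (nat_lit 204880) (nat_lit 32) (.e (nat_lit 385049) (nat_lit 21) (.e (nat_lit 6391) (nat_lit 339) .nil)))))))) (.g (nat_lit 4) .nil .nil))) 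
(.lf (nat_lit 150453) (.g (nat_lit 2897) (.e (nat_lit 57379) (nat_lit 3) (.e (nat_lit 98341) (nat_lit 20) (.e (nat_lit 221211) (nat_lit 22) (.e (nat_lit 196666) (nat_lit 13) (.e (nat_lit 65570) (nat_lit 3) (.e (nat_lit 98333) (nat_lit 18) (.e (nat_lit 164182) (nat_lit 154) .nil))))))) (.g (nat_lit 4) .nil .nil))))) (.nd (nat_lit 4) (.nd (nat_lit 5) 
(.lf (nat_lit 150413) (.g (nat_lit 1844) (.e (nat_lit 57379) (nat_lit 3) (.e (nat_lit 98334) (nat_lit 18) (.e (nat_lit 164330) (nat_lit 230) (.e (nat_lit 163927) (nat_lit 16) .nil)))) .nil)) 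
(.lf (nat_lit 150445) (.g (nat_lit 2692) (.e (nat_lit 57379) (nat_lit 3) (.e (nat_lit 98341) (nat_lit 20) (.e (nat_lit 221211) (nat_lit 22) (.e (nat_lit 196666) (nat_lit 13) (.e (nat_lit 65550) (nat_lit 0) (.e (nat_lit 1788) (nat_lit 119) (.e (nat_lit 516118) (nat_lit 1) (.e (nat_lit 164183) (nat_lit 154) .nil)))))))) (.g (nat_lit 4) .nil .nil)))) (.nd (nat_lit 5) 
(.lf (nat_lit 150429) (.g (nat_lit 1737) (.e (nat_lit 57379) (nat_lit 3) (.e (nat_lit 98340) (nat_lit 20) (.e (nat_lit 221214) (nat_lit 23) (.e (nat_lit 204861) (nat_lit 26) (.e (nat_lit 336021) (nat_lit 3) (.e (nat_lit 98333) (nat_lit 18) (.e (nat_lit 164177) (nat_lit 154) .nil))))))) (.g (nat_lit 4) .nil .nil))) 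
(.lf (nat_lit 150461) (.g (nat_lit 2842) (.e (nat_lit 57379) (nat_lit 3) (.e (nat_lit 98341) (nat_lit 20) (.e (nat_lit 221211) (nat_lit 22) (.e (nat_lit 196670) (nat_lit 14) (.e (nat_lit 73746) (nat_lit 3) (.e (nat_lit 516115) (nat_lit 1) (.e (nat_lit 164183) (nat_lit 154) .nil))))))) (.g (nat_lit 5) .nil .nil))))))) (.nd (nat_lit 2) (.nd (nat_lit 3) (.nd (nat_lit 4) (.nd (nat_lit 5) 
(.lf (nat_lit 150403) (.g (nat_lit 798) (.e (nat_lit 57379) (nat_lit 3) (.e (nat_lit 98334) (nat_lit 18) (.e (nat_lit 164330) (nat_lit 230) .nil))) .nil)) 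
(.lf (nat_lit 150435) (.g (nat_lit 3979) (.e (nat_lit 57379) (nat_lit 3) (.e (nat_lit 98340) (nat_lit 20) (.e (nat_lit 221215) (nat_lit 23) (.e (nat_lit 204863) (nat_lit 27) (.e (nat_lit 344117) (nat_lit 21) (.e (nat_lit 516115) (nat_lit 1) (.e (nat_lit 164183) (nat_lit 154) .nil))))))) (.g (nat_lit 6) .nil .nil)))) (.nd (nat_lit 5) 
(.lf (nat_lit 150419) (.g (nat_lit 3340) (.e (nat_lit 57379) (nat_lit 3) (.e (nat_lit 98334) (nat_lit 18) (.e (nat_lit 164332) (nat_lit 230) (.e (nat_lit 163905) (nat_lit 12) (.e (nat_lit 426131) (nat_lit 3) (.e (nat_lit 204852) (nat_lit 26) (.e (nat_lit 336310) (nat_lit 16) (.e (nat_lit 164182) (nat_lit 154) .nil)))))))) (.g (nat_lit 4) .nil .nil))) 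
(.lf (nat_lit 150451) (.g (nat_lit 2426) (.e (nat_lit 57379) (nat_lit 3) (.e (nat_lit 98341) (nat_lit 20) (.e (nat_lit 221211) (nat_lit 22) (.e (nat_lit 196666) (nat_lit 13) (.e (nat_lit 65569) (nat_lit 3) (.e (nat_lit 98335) (nat_lit 18) (.e (nat_lit 164177) (nat_lit 154) .nil))))))) (.g (nat_lit 4) .nil .nil))))) (.nd (nat_lit 4) (.nd (nat_lit 5) 
(.lf (nat_lit 150411) (.g (nat_lit 3148) (.e (nat_lit 57379) (nat_lit 3) (.e (nat_lit 98334) (nat_lit 18) (.e (nat_lit 164330) (nat_lit 230) (.e (nat_lit 163926) (nat_lit 16) (.e (nat_lit 458789) (nat_lit 23) (.e (nat_lit 532530) (nat_lit 9) (.e (nat_lit 336310) (nat_lit 16) (.e (nat_lit 164179) (nat_lit 154) .nil)))))))) (.g (nat_lit 4) .nil .nil))) 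
(.lf (nat_lit 150443) (.g (nat_lit 2358) (.e (nat_lit 57379) (nat_lit 3) (.e (nat_lit 98341) (nat_lit 20) (.e (nat_lit 221210) (nat_lit 22) (.e (nat_lit 196668) (nat_lit 14) (.e (nat_lit 73743) (nat_lit 1) .nil))))) .nil))) (.nd (nat_lit 5) 
(.lf (nat_lit 150427) (.g (nat_lit 3676) (.e (nat_lit 57379) (nat_lit 3) (.e (nat_lit 98340) (nat_lit 20) (.e (nat_lit 221211) (nat_lit 22) (.e (nat_lit 196666) (nat_lit 13) (.e (nat_lit 65569) (nat_lit 3) (.e (nat_lit 98334) (nat_lit 18) (.e (nat_lit 164183) (nat_lit 154) .nil))))))) (.g (nat_lit 6) .nil .nil))) 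
(.lf (nat_lit 150459) (.g (nat_lit 4246) (.e (nat_lit 57379) (nat_lit 3) (.e (nat_lit 98341) (nat_lit 20) (.e (nat_lit 221211) (nat_lit 22) (.e (nat_lit 196666) (nat_lit 13) (.e (nat_lit 65571) (nat_lit 3) (.e (nat_lit 98334) (nat_lit 18) (.e (nat_lit 164180) (nat_lit 154) .nil))))))) (.g (nat_lit 7) .nil .nil)))))) (.nd (nat_lit 3) (.nd (nat_lit 4) (.nd (nat_lit 5) 
(.lf (nat_lit 150407) (.g (nat_lit 3913) (.e (nat_lit 57379) (nat_lit 3) (.e (nat_lit 98334) (nat_lit 18) (.e (nat_lit 164330) (nat_lit 230) (.e (nat_lit 163905) (nat_lit 12) (.e (nat_lit 426131) (nat_lit 3) (.e (nat_lit 204880) (nat_lit 32) (.e (nat_lit 385049) (nat_lit 21) (.e (nat_lit 6391) (nat_lit 339) .nil)))))))) (.g (nat_lit 6) .nil .nil))) 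
(.lf (nat_lit 150439) (.g (nat_lit 3607) (.e (nat_lit 57379) (nat_lit 3) (.e (nat_lit 98340) (nat_lit 20) (.e (nat_lit 221215) (nat_lit 23) (.e (nat_lit 204863) (nat_lit 27) (.e (nat_lit 344118) (nat_lit 21) (.e (nat_lit 516120) (nat_lit 1) (.e (nat_lit 164183) (nat_lit 154) .nil))))))) (.g (nat_lit 6) .nil .nil)))) (.nd (nat_lit 5) 
(.lf (nat_lit 150423) (.g (nat_lit 3758) (.e (nat_lit 57379) (nat_lit 3) (.e (nat_lit 98334) (nat_lit 18) (.e (nat_lit 164399) (nat_lit 256) (.e (nat_lit 57588) (nat_lit 73) (.e (nat_lit 426139) (nat_lit 3) (.e (nat_lit 204854) (nat_lit 26) (.e (nat_lit 336000) (nat_lit 1) (.e (nat_lit 57849) (nat_lit 252) .nil)))))))) (.g (nat_lit 5) .nil .nil))) 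
(.lf (nat_lit 150455) (.g (nat_lit 3131) (.e (nat_lit 57379) (nat_lit 3) (.e (nat_lit 98341) (nat_lit 20) (.e (nat_lit 221211) (nat_lit 22) (.e (nat_lit 196666) (nat_lit 13) (.e (nat_lit 65571) (nat_lit 3) (.e (nat_lit 98332) (nat_lit 18) (.e (nat_lit 164182) (nat_lit 154) .nil))))))) (.g (nat_lit 5) .nil .nil))))) (.nd (nat_lit 4) (.nd (nat_lit 5) 
(.lf (nat_lit 150415) (.g (nat_lit 4199) (.e (nat_lit 57379) (nat_lit 3) (.e (nat_lit 98334) (nat_lit 18) (.e (nat_lit 164330) (nat_lit 230) (.e (nat_lit 163927) (nat_lit 16) (.e (nat_lit 458789) (nat_lit 23) (.e (nat_lit 532530) (nat_lit 9) (.e (nat_lit 336310) (nat_lit 16) (.e (nat_lit 164182) (nat_lit 154) .nil)))))))) (.g (nat_lit 6) .nil .nil))) 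
(.lf (nat_lit 150447) (.g (nat_lit 4521) (.e (nat_lit 57379) (nat_lit 3) (.e (nat_lit 98341) (nat_lit 20) (.e (nat_lit 221211) (nat_lit 22) (.e (nat_lit 196666) (nat_lit 13) (.e (nat_lit 65569) (nat_lit 3) (.e (nat_lit 98333) (nat_lit 18) (.e (nat_lit 164183) (nat_lit 154) .nil))))))) (.g (nat_lit 7) .nil .nil)))) (.nd (nat_lit 5) 
(.lf (nat_lit 150431) (.g (nat_lit 2845) (.e (nat_lit 57379) (nat_lit 3) (.e (nat_lit 98340) (nat_lit 20) (.e (nat_lit 221214) (nat_lit 23) (.e (nat_lit 204862) (nat_lit 27) (.e (nat_lit 344117) (nat_lit 21) (.e (nat_lit 516115) (nat_lit 1) (.e (nat_lit 164183) (nat_lit 154) .nil))))))) (.g (nat_lit 5) .nil .nil))) 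
(.lf (nat_lit 150463) (.g (nat_lit 2657) (.e (nat_lit 57379) (nat_lit 3) (.e (nat_lit 98341) (nat_lit 20) (.e (nat_lit 221211) (nat_lit 22) (.e (nat_lit 196670) (nat_lit 14) (.e (nat_lit 73746) (nat_lit 3) (.e (nat_lit 516117) (nat_lit 1) (.e (nat_lit 164181) (nat_lit 154) .nil))))))) (.g (nat_lit 5) .nil .nil)))))))))

noncomputable def tv2005 : DT := (.nd (nat_lit 0) (.nd (nat_lit 1) (.nd (nat_lit 2) (.nd (nat_lit 3) (.nd (nat_lit 4) (.nd (nat_lit 5) 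
(.lf (nat_lit 150464) (.g (nat_lit 2680) (.e (nat_lit 57379) (nat_lit 3) (.e (nat_lit 98341) (nat_lit 20) (.e (nat_lit 221211) (nat_lit 22) (.e (nat_lit 196670) (nat_lit 14) (.e (nat_lit 73746) (nat_lit 3) (.e (nat_lit 516119) (nat_lit 1) (.e (nat_lit 164176) (nat_lit 154) .nil))))))) (.g (nat_lit 5) .nil .nil))) 
(.lf (nat_lit 150496) (.g (nat_lit 2206) (.e (nat_lit 57379) (nat_lit 3) (.e (nat_lit 98341) (nat_lit 20) (.e (nat_lit 221214) (nat_lit 23) (.e (nat_lit 204863) (nat_lit 27) (.e (nat_lit 344118) (nat_lit 21) .nil))))) .nil))) (.nd (nat_lit 5) 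
(.lf (nat_lit 150480) (.g (nat_lit 2648) (.e (nat_lit 57379) (nat_lit 3) (.e (nat_lit 98341) (nat_lit 20) (.e (nat_lit 221214) (nat_lit 23) (.e (nat_lit 204861) (nat_lit 26) (.e (nat_lit 336026) (nat_lit 3) (.e (nat_lit 98335) (nat_lit 18) (.e (nat_lit 164177) (nat_lit 154) .nil))))))) (.g (nat_lit 4) .nil .nil))) 
(.lf (nat_lit 150512) (.g (nat_lit 3296) (.e (nat_lit 57379) (nat_lit 3) (.e (nat_lit 98341) (nat_lit 20) (.e (nat_lit 221214) (nat_lit 23) (.e (nat_lit 204863) (nat_lit 27) (.e (nat_lit 344120) (nat_lit 21) (.e (nat_lit 516120) (nat_lit 1) (.e (nat_lit 164183) (nat_lit 154) .nil))))))) (.g (nat_lit 5) .nil .nil))))) (.nd (nat_lit 4) (.nd (nat_lit 5) 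
(.lf (nat_lit 150472) (.g (nat_lit 3136) (.e (nat_lit 57379) (nat_lit 3) (.e (nat_lit 98341) (nat_lit 20) (.e (nat_lit 221214) (nat_lit 23) (.e (nat_lit 204852) (nat_lit 26) (.e (nat_lit 336324) (nat_lit 18) (.e (nat_lit 204829) (nat_lit 18) (.e (nat_lit 57849) (nat_lit 252) .nil))))))) (.g (nat_lit 5) .nil .nil))) 
(.lf (nat_lit 150504) (.g (nat_lit 2609) (.e (nat_lit 57379) (nat_lit 3) (.e (nat_lit 98341) (nat_lit 20) (.e (nat_lit 221214) (nat_lit 23) (.e (nat_lit 204863) (nat_lit 27) (.e (nat_lit 344118) (nat_lit 21) (.e (nat_lit 516119) (nat_lit 1) (.e (nat_lit 164182) (nat_lit 154) .nil))))))) (.g (nat_lit 4) .nil .nil)))) (.nd (nat_lit 5) 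
(.lf (nat_lit 150488) (.g (nat_lit 2480) (.e (nat_lit 57379) (nat_lit 3) (.e (nat_lit 98341) (nat_lit 20) (.e (nat_lit 221214) (nat_lit 23) (.e (nat_lit 204862) (nat_lit 27) (.e (nat_lit 344118) (nat_lit 21) (.e (nat_lit 516120) (nat_lit 1) (.e (nat_lit 164183) (nat_lit 154) .nil))))))) (.g (nat_lit 4) .nil .nil))) 
(.lf (nat_lit 150520) (.g (nat_lit 2754) (.e (nat_lit 57379) (nat_lit 3) (.e (nat_lit 98341) (nat_lit 20) (.e (nat_lit 221215) (nat_lit 23) (.e (nat_lit 204859) (nat_lit 26) (.e (nat_lit 336017) (nat_lit 3) (.e (nat_lit 98333) (nat_lit 18) (.e (nat_lit 164183) (nat_lit 154) .nil))))))) (.g (nat_lit 4) .nil .nil)))))) (.nd (nat_lit 3) (.nd (nat_lit 4) (.nd (nat_lit 5) 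
(.lf (nat_lit 150468) (.g (nat_lit 2921) (.e (nat_lit 57379) (nat_lit 3) (.e (nat_lit 98341) (nat_lit 20) (.e (nat_lit 221211) (nat_lit 22) (.e (nat_lit 196670) (nat_lit 14) (.e (nat_lit 73746) (nat_lit 3) (.e (nat_lit 516120) (nat_lit 1) (.e (nat_lit 164183) (nat_lit 154) .nil))))))) (.g (nat_lit 5) .nil .nil))) 
(.lf (nat_lit 150500) (.g (nat_lit 2742) (.e (nat_lit 57379) (nat_lit 3) (.e (nat_lit 98341) (nat_lit 20) (.e (nat_lit 221214) (nat_lit 23) (.e (nat_lit 204863) (nat_lit 27) (.e (nat_lit 344118) (nat_lit 21) (.e (nat_lit 516117) (nat_lit 1) (.e (nat_lit 164182) (nat_lit 154) .nil))))))) (.g (nat_lit 4) .nil .nil)))) (.nd (nat_lit 5) 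
(.lf (nat_lit 150484) (.g (nat_lit 3225) (.e (nat_lit 57379) (nat_lit 3) (.e (nat_lit 98341) (nat_lit 20) (.e (nat_lit 221214) (nat_lit 23) (.e (nat_lit 204861) (nat_lit 26) (.e (nat_lit 336027) (nat_lit 3) (.e (nat_lit 98333) (nat_lit 18) (.e (nat_lit 164179) (nat_lit 154) .nil))))))) (.g (nat_lit 5) .nil .nil))) 
(.lf (nat_lit 150516) (.g (nat_lit 4894) (.e (nat_lit 57379) (nat_lit 3) (.e (nat_lit 98341) (nat_lit 20) (.e (nat_lit 221214) (nat_lit 23) (.e (nat_lit 204880) (nat_lit 32) (.e (nat_lit 385068) (nat_lit 26) (.e (nat_lit 532503) (nat_lit 1) (.e (nat_lit 57849) (nat_lit 252) .nil))))))) (.g (nat_lit 6) .nil .nil))))) (.nd (nat_lit 4) (.nd (nat_lit 5) 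
(.lf (nat_lit 150476) (.g (nat_lit 2455) (.e (nat_lit 57379) (nat_lit 3) (.e (nat_lit 98341) (nat_lit 20) (.e (nat_lit 221214) (nat_lit 23) (.e (nat_lit 204861) (nat_lit 26) (.e (nat_lit 336025) (nat_lit 3) (.e (nat_lit 98334) (nat_lit 18) (.e (nat_lit 164182) (nat_lit 154) .nil))))))) (.g (nat_lit 4) .nil .nil))) 
(.lf (nat_lit 150508) (.g (nat_lit 2455) (.e (nat_lit 57379) (nat_lit 3) (.e (nat_lit 98341) (nat_lit 20) (.e (nat_lit 221214) (nat_lit 23) (.e (nat_lit 204863) (nat_lit 27) (.e (nat_lit 344120) (nat_lit 21) (.e (nat_lit 516115) (nat_lit 1) (.e (nat_lit 164182) (nat_lit 154) .nil))))))) (.g (nat_lit 4) .nil .nil)))) (.nd (nat_lit 5) 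
(.lf (nat_lit 150492) (.g (nat_lit 3873) (.e (nat_lit 57379) (nat_lit 3) (.e (nat_lit 98341) (nat_lit 20) (.e (nat_lit 221214) (nat_lit 23) (.e (nat_lit 204863) (nat_lit 27) (.e (nat_lit 344117) (nat_lit 21) (.e (nat_lit 516116) (nat_lit 1) (.e (nat_lit 164176) (nat_lit 154) .nil))))))) (.g (nat_lit 6) .nil .nil))) 
(.lf (nat_lit 150524) (.g (nat_lit 2593) (.e (nat_lit 57379) (nat_lit 3) (.e (nat_lit 98341) (nat_lit 20) (.e (nat_lit 221215) (nat_lit 23) (.e (nat_lit 204861) (nat_lit 26) (.e (nat_lit 336026) (nat_lit 3) (.e (nat_lit 98335) (nat_lit 18) (.e (nat_lit 164178) (nat_lit 154) .nil))))))) (.g (nat_lit 4) .nil .nil))))))) (.nd (nat_lit 2) (.nd (nat_lit 3) (.nd (nat_lit 4) (.nd (nat_lit 5) 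
(.lf (nat_lit 150466) (.g (nat_lit 2274) (.e (nat_lit 57379) (nat_lit 3) (.e (nat_lit 98341) (nat_lit 20) (.e (nat_lit 221211) (nat_lit 22) (.e (nat_lit 196670) (nat_lit 14) (.e (nat_lit 73746) (nat_lit 3) (.e (nat_lit 516119) (nat_lit 1) (.e (nat_lit 164180) (nat_lit 154) .nil))))))) (.g (nat_lit 4) .nil .nil))) 
(.lf (nat_lit 150498) (.g (nat_lit 2451) (.e (nat_lit 57379) (nat_lit 3) (.e (nat_lit 98341) (nat_lit 20) (.e (nat_lit 221214) (nat_lit 23) (.e (nat_lit 204863) (nat_lit 27) (.e (nat_lit 344118) (nat_lit 21) (.e (nat_lit 516115) (nat_lit 1) (.e (nat_lit 164182) (nat_lit 154) .nil))))))) (.g (nat_lit 4) .nil .nil)))) (.nd (nat_lit 5) 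
(.lf (nat_lit 150482) (.g (nat_lit 3716) (.e (nat_lit 57379) (nat_lit 3) (.e (nat_lit 98341) (nat_lit 20) (.e (nat_lit 221214) (nat_lit 23) (.e (nat_lit 204861) (nat_lit 26) (.e (nat_lit 336026) (nat_lit 3) (.e (nat_lit 98335) (nat_lit 18) (.e (nat_lit 164183) (nat_lit 154) .nil))))))) (.g (nat_lit 6) .nil .nil))) 
(.lf (nat_lit 150514) (.g (nat_lit 4328) (.e (nat_lit 57379) (nat_lit 3) (.e (nat_lit 98341) (nat_lit 20) (.e (nat_lit 221214) (nat_lit 23) (.e (nat_lit 204880) (nat_lit 32) (.e (nat_lit 385068) (nat_lit 26) (.e (nat_lit 532503) (nat_lit 1) (.e (nat_lit 57847) (nat_lit 252) .nil))))))) (.g (nat_lit 7) .nil .nil))))) (.nd (nat_lit 4) (.nd (nat_lit 5) 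
(.lf (nat_lit 150474) (.g (nat_lit 3977) (.e (nat_lit 57379) (nat_lit 3) (.e (nat_lit 98341) (nat_lit 20) (.e (nat_lit 221214) (nat_lit 23) (.e (nat_lit 204861) (nat_lit 26) (.e (nat_lit 336021) (nat_lit 3) (.e (nat_lit 98333) (nat_lit 18) (.e (nat_lit 164183) (nat_lit 154) .nil))))))) (.g (nat_lit 7) .nil .nil))) 
(.lf (nat_lit 150506) (.g (nat_lit 2286) (.e (nat_lit 57379) (nat_lit 3) (.e (nat_lit 98341) (nat_lit 20) (.e (nat_lit 221214) (nat_lit 23) (.e (nat_lit 204863) (nat_lit 27) (.e (nat_lit 344120) (nat_lit 21) .nil))))) .nil))) (.nd (nat_lit 5) 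
(.lf (nat_lit 150490) (.g (nat_lit 3953) (.e (nat_lit 57379) (nat_lit 3) (.e (nat_lit 98341) (nat_lit 20) (.e (nat_lit 221214) (nat_lit 23) (.e (nat_lit 204863) (nat_lit 27) (.e (nat_lit 344117) (nat_lit 21) (.e (nat_lit 516115) (nat_lit 1) (.e (nat_lit 164182) (nat_lit 154) .nil))))))) (.g (nat_lit 6) .nil .nil))) 
(.lf (nat_lit 150522) (.g (nat_lit 2584) (.e (nat_lit 57379) (nat_lit 3) (.e (nat_lit 98341) (nat_lit 20) (.e (nat_lit 221215) (nat_lit 23) (.e (nat_lit 204861) (nat_lit 26) (.e (nat_lit 336012) (nat_lit 2) (.e (nat_lit 90181) (nat_lit 16) (.e (nat_lit 229376) (nat_lit 0) (.e (nat_lit 6391) (nat_lit 339) .nil)))))))) (.g (nat_lit 4) .nil .nil)))))) 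
(.nd (nat_lit 3) (.nd (nat_lit 4) (.nd (nat_lit 5) 
(.lf (nat_lit 150470) (.g (nat_lit 2400) (.e (nat_lit 57379) (nat_lit 3) (.e (nat_lit 98341) (nat_lit 20) (.e (nat_lit 221212) (nat_lit 22) (.e (nat_lit 196681) (nat_lit 17) (.e (nat_lit 131098) (nat_lit 3) (.e (nat_lit 98334) (nat_lit 18) (.e (nat_lit 164180) (nat_lit 154) .nil))))))) (.g (nat_lit 4) .nil .nil))) 
(.lf (nat_lit 150502) (.g (nat_lit 3288) (.e (nat_lit 57379) (nat_lit 3) (.e (nat_lit 98341) (nat_lit 20) (.e (nat_lit 221214) (nat_lit 23) (.e (nat_lit 204863) (nat_lit 27) (.e (nat_lit 344118) (nat_lit 21) (.e (nat_lit 516119) (nat_lit 1) (.e (nat_lit 164176) (nat_lit 154) .nil))))))) (.g (nat_lit 5) .nil .nil)))) (.nd (nat_lit 5) 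
(.lf (nat_lit 150486) (.g (nat_lit 3864) (.e (nat_lit 57379) (nat_lit 3) (.e (nat_lit 98341) (nat_lit 20) (.e (nat_lit 221214) (nat_lit 23) (.e (nat_lit 204862) (nat_lit 27) (.e (nat_lit 344117) (nat_lit 21) (.e (nat_lit 516115) (nat_lit 1) (.e (nat_lit 164183) (nat_lit 154) .nil))))))) (.g (nat_lit 6) .nil .nil))) 
(.lf (nat_lit 150518) (.g (nat_lit 2483) (.e (nat_lit 57379) (nat_lit 3) (.e (nat_lit 98341) (nat_lit 20) (.e (nat_lit 221215) (nat_lit 23) (.e (nat_lit 204859) (nat_lit 26) (.e (nat_lit 336017) (nat_lit 3) (.e (nat_lit 98333) (nat_lit 18) (.e (nat_lit 164179) (nat_lit 154) .nil))))))) (.g (nat_lit 4) .nil .nil))))) (.nd (nat_lit 4) (.nd (nat_lit 5) 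
(.lf (nat_lit 150478) (.g (nat_lit 2659) (.e (nat_lit 57379) (nat_lit 3) (.e (nat_lit 98341) (nat_lit 20) (.e (nat_lit 221214) (nat_lit 23) (.e (nat_lit 204861) (nat_lit 26) (.e (nat_lit 336025) (nat_lit 3) (.e (nat_lit 98335) (nat_lit 18) (.e (nat_lit 164183) (nat_lit 154) .nil))))))) (.g (nat_lit 4) .nil .nil))) 
(.lf (nat_lit 150510) (.g (nat_lit 2300) (.e (nat_lit 57379) (nat_lit 3) (.e (nat_lit 98341) (nat_lit 20) (.e (nat_lit 221214) (nat_lit 23) (.e (nat_lit 204863) (nat_lit 27) (.e (nat_lit 344120) (nat_lit 21) (.e (nat_lit 516118) (nat_lit 1) (.e (nat_lit 164183) (nat_lit 154) .nil))))))) (.g (nat_lit 4) .nil .nil)))) (.nd (nat_lit 5) 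
(.lf (nat_lit 150494) (.g (nat_lit 4884) (.e (nat_lit 57379) (nat_lit 3) (.e (nat_lit 98341) (nat_lit 20) (.e (nat_lit 221214) (nat_lit 23) (.e (nat_lit 204863) (nat_lit 27) (.e (nat_lit 344117) (nat_lit 21) (.e (nat_lit 516116) (nat_lit 1) (.e (nat_lit 164183) (nat_lit 154) .nil))))))) (.g (nat_lit 7) .nil .nil))) 
(.lf (nat_lit 150526) (.g (nat_lit 4370) (.e (nat_lit 57379) (nat_lit 3) (.e (nat_lit 98341) (nat_lit 20) (.e (nat_lit 221215) (nat_lit 23) (.e (nat_lit 204862) (nat_lit 27) (.e (nat_lit 344117) (nat_lit 21) (.e (nat_lit 516115) (nat_lit 1) (.e (nat_lit 164177) (nat_lit 154) .nil))))))) (.g (nat_lit 6) .nil .nil)))))))) 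
(.nd (nat_lit 1) (.nd (nat_lit 2) (.nd (nat_lit 3) (.nd (nat_lit 4) (.nd (nat_lit 5) 
(.lf (nat_lit 150465) (.g (nat_lit 2201) (.e (nat_lit 57379) (nat_lit 3) (.e (nat_lit 98341) (nat_lit 20) (.e (nat_lit 221211) (nat_lit 22) (.e (nat_lit 196670) (nat_lit 14) (.e (nat_lit 73746) (nat_lit 3) (.e (nat_lit 516119) (nat_lit 1) (.e (nat_lit 164179) (nat_lit 154) .nil))))))) (.g (nat_lit 4) .nil .nil))) 
(.lf (nat_lit 150497) (.g (nat_lit 2502) (.e (nat_lit 57379) (nat_lit 3) (.e (nat_lit 98341) (nat_lit 20) (.e (nat_lit 221214) (nat_lit 23) (.e (nat_lit 204863) (nat_lit 27) (.e (nat_lit 344118) (nat_lit 21) (.e (nat_lit 516115) (nat_lit 1) (.e (nat_lit 164177) (nat_lit 154) .nil))))))) (.g (nat_lit 4) .nil .nil)))) (.nd (nat_lit 5) 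
(.lf (nat_lit 150481) (.g (nat_lit 2566) (.e (nat_lit 57379) (nat_lit 3) (.e (nat_lit 98341) (nat_lit 20) (.e (nat_lit 221214) (nat_lit 23) (.e (nat_lit 204861) (nat_lit 26) (.e (nat_lit 336026) (nat_lit 3) (.e (nat_lit 98335) (nat_lit 18) (.e (nat_lit 164179) (nat_lit 154) .nil))))))) (.g (nat_lit 4) .nil .nil))) 
(.lf (nat_lit 150513) (.g (nat_lit 5055) (.e (nat_lit 57379) (nat_lit 3) (.e (nat_lit 98341) (nat_lit 20) (.e (nat_lit 221214) (nat_lit 23) (.e (nat_lit 204880) (nat_lit 32) (.e (nat_lit 385066) (nat_lit 26) (.e (nat_lit 532499) (nat_lit 1) (.e (nat_lit 57849) (nat_lit 252) .nil))))))) (.g (nat_lit 7) .nil .nil))))) (.nd (nat_lit 4) (.nd (nat_lit 5) 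
(.lf (nat_lit 150473) (.g (nat_lit 3505) (.e (nat_lit 57379) (nat_lit 3) (.e (nat_lit 98341) (nat_lit 20) (.e (nat_lit 221214) (nat_lit 23) (.e (nat_lit 204861) (nat_lit 26) (.e (nat_lit 336021) (nat_lit 3) (.e (nat_lit 98333) (nat_lit 18) (.e (nat_lit 164177) (nat_lit 154) .nil))))))) (.g (nat_lit 6) .nil .nil))) 
(.lf (nat_lit 150505) (.g (nat_lit 3377) (.e (nat_lit 57379) (nat_lit 3) (.e (nat_lit 98341) (nat_lit 20) (.e (nat_lit 221214) (nat_lit 23) (.e (nat_lit 204863) (nat_lit 27) (.e (nat_lit 344118) (nat_lit 21) (.e (nat_lit 516120) (nat_lit 1) (.e (nat_lit 164181) (nat_lit 154) .nil))))))) (.g (nat_lit 5) .nil .nil)))) (.nd (nat_lit 5) 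
(.lf (nat_lit 150489) (.g (nat_lit 4196) (.e (nat_lit 57379) (nat_lit 3) (.e (nat_lit 98341) (nat_lit 20) (.e (nat_lit 221214) (nat_lit 23) (.e (nat_lit 204863) (nat_lit 27) (.e (nat_lit 344117) (nat_lit 21) (.e (nat_lit 516115) (nat_lit 1) (.e (nat_lit 164177) (nat_lit 154) .nil))))))) (.g (nat_lit 6) .nil .nil))) 
(.lf (nat_lit 150521) (.g (nat_lit 2738) (.e (nat_lit 57379) (nat_lit 3) (.e (nat_lit 98341) (nat_lit 20) (.e (nat_lit 221215) (nat_lit 23) (.e (nat_lit 204859) (nat_lit 26) (.e (nat_lit 336017) (nat_lit 3) (.e (nat_lit 98334) (nat_lit 18) (.e (nat_lit 164183) (nat_lit 154) .nil))))))) (.g (nat_lit 4) .nil .nil)))))) (.nd (nat_lit 3) (.nd (nat_lit 4) (.nd (nat_lit 5) 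
(.lf (nat_lit 150469) (.g (nat_lit 2317) (.e (nat_lit 57379) (nat_lit 3) (.e (nat_lit 98341) (nat_lit 20) (.e (nat_lit 221212) (nat_lit 22) (.e (nat_lit 196681) (nat_lit 17) (.e (nat_lit 131096) (nat_lit 3) (.e (nat_lit 98334) (nat_lit 18) (.e (nat_lit 164180) (nat_lit 154) .nil))))))) (.g (nat_lit 4) .nil .nil))) 
(.lf (nat_lit 150501) (.g (nat_lit 2625) (.e (nat_lit 57379) (nat_lit 3) (.e (nat_lit 98341) (nat_lit 20) (.e (nat_lit 221214) (nat_lit 23) (.e (nat_lit 204863) (nat_lit 27) (.e (nat_lit 344118) (nat_lit 21) (.e (nat_lit 516117) (nat_lit 1) (.e (nat_lit 164183) (nat_lit 154) .nil))))))) (.g (nat_lit 4) .nil .nil)))) (.nd (nat_lit 5) 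
(.lf (nat_lit 150485) (.g (nat_lit 3458) (.e (nat_lit 57379) (nat_lit 3) (.e (nat_lit 98341) (nat_lit 20) (.e (nat_lit 221214) (nat_lit 23) (.e (nat_lit 204861) (nat_lit 26) (.e (nat_lit 336027) (nat_lit 3) (.e (nat_lit 98334) (nat_lit 18) (.e (nat_lit 164183) (nat_lit 154) .nil))))))) (.g (nat_lit 5) .nil .nil))) 
(.lf (nat_lit 150517) (.g (nat_lit 423) (.e (nat_lit 57379) (nat_lit 3) (.e (nat_lit 98341) (nat_lit 20) (.e (nat_lit 221215) (nat_lit 23) .nil))) .nil)))) (.nd (nat_lit 4) (.nd (nat_lit 5) 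
(.lf (nat_lit 150477) (.g (nat_lit 1937) (.e (nat_lit 57379) (nat_lit 3) (.e (nat_lit 98341) (nat_lit 20) (.e (nat_lit 221214) (nat_lit 23) (.e (nat_lit 204861) (nat_lit 26) (.e (nat_lit 336025) (nat_lit 3) (.e (nat_lit 98334) (nat_lit 18) (.e (nat_lit 164183) (nat_lit 154) .nil))))))) (.g (nat_lit 4) .nil .nil))) 
(.lf (nat_lit 150509) (.g (nat_lit 3063) (.e (nat_lit 57379) (nat_lit 3) (.e (nat_lit 98341) (nat_lit 20) (.e (nat_lit 221214) (nat_lit 23) (.e (nat_lit 204863) (nat_lit 27) (.e (nat_lit 344120) (nat_lit 21) (.e (nat_lit 516115) (nat_lit 1) (.e (nat_lit 164183) (nat_lit 154) .nil))))))) (.g (nat_lit 4) .nil .nil)))) (.nd (nat_lit 5) 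
(.lf (nat_lit 150493) (.g (nat_lit 4555) (.e (nat_lit 57379) (nat_lit 3) (.e (nat_lit 98341) (nat_lit 20) (.e (nat_lit 221214) (nat_lit 23) (.e (nat_lit 204863) (nat_lit 27) (.e (nat_lit 344117) (nat_lit 21) (.e (nat_lit 516116) (nat_lit 1) (.e (nat_lit 164181) (nat_lit 154) .nil))))))) (.g (nat_lit 6) .nil .nil))) 
(.lf (nat_lit 150525) (.g (nat_lit 3517) (.e (nat_lit 57379) (nat_lit 3) (.e (nat_lit 98341) (nat_lit 20) (.e (nat_lit 221215) (nat_lit 23) (.e (nat_lit 204862) (nat_lit 27) (.e (nat_lit 344117) (nat_lit 21) (.e (nat_lit 516106) (nat_lit 0) (.e (nat_lit 2478) (nat_lit 157) (.e (nat_lit 6391) (nat_lit 339) .nil)))))))) (.g (nat_lit 5) .nil .nil))))))) 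
(.nd (nat_lit 2) (.nd (nat_lit 3) (.nd (nat_lit 4) (.nd (nat_lit 5) 
(.lf (nat_lit 150467) (.g (nat_lit 2833) (.e (nat_lit 57379) (nat_lit 3) (.e (nat_lit 98341) (nat_lit 20) (.e (nat_lit 221211) (nat_lit 22) (.e (nat_lit 196670) (nat_lit 14) (.e (nat_lit 73746) (nat_lit 3) (.e (nat_lit 516120) (nat_lit 1) (.e (nat_lit 164181) (nat_lit 154) .nil))))))) (.g (nat_lit 5) .nil .nil))) 
(.lf (nat_lit 150499) (.g (nat_lit 3141) (.e (nat_lit 57379) (nat_lit 3) (.e (nat_lit 98341) (nat_lit 20) (.e (nat_lit 221214) (nat_lit 23) (.e (nat_lit 204863) (nat_lit 27) (.e (nat_lit 344118) (nat_lit 21) (.e (nat_lit 516115) (nat_lit 1) (.e (nat_lit 164183) (nat_lit 154) .nil))))))) (.g (nat_lit 4) .nil .nil)))) (.nd (nat_lit 5) 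
(.lf (nat_lit 150483) (.g (nat_lit 3605) (.e (nat_lit 57379) (nat_lit 3) (.e (nat_lit 98341) (nat_lit 20) (.e (nat_lit 221214) (nat_lit 23) (.e (nat_lit 204861) (nat_lit 26) (.e (nat_lit 336027) (nat_lit 3) (.e (nat_lit 98333) (nat_lit 18) (.e (nat_lit 164177) (nat_lit 154) .nil))))))) (.g (nat_lit 5) .nil .nil))) 
(.lf (nat_lit 150515) (.g (nat_lit 2547) (.e (nat_lit 57379) (nat_lit 3) (.e (nat_lit 98341) (nat_lit 20) (.e (nat_lit 221214) (nat_lit 23) (.e (nat_lit 204880) (nat_lit 32) (.e (nat_lit 385068) (nat_lit 26) (.e (nat_lit 532503) (nat_lit 1) (.e (nat_lit 57848) (nat_lit 252) .nil))))))) (.g (nat_lit 4) .nil .nil))))) (.nd (nat_lit 4) (.nd (nat_lit 5) 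
(.lf (nat_lit 150475) (.g (nat_lit 2768) (.e (nat_lit 57379) (nat_lit 3) (.e (nat_lit 98341) (nat_lit 20) (.e (nat_lit 221214) (nat_lit 23) (.e (nat_lit 204861) (nat_lit 26) (.e (nat_lit 336025) (nat_lit 3) (.e (nat_lit 98333) (nat_lit 18) (.e (nat_lit 164179) (nat_lit 154) .nil))))))) (.g (nat_lit 4) .nil .nil))) 
(.lf (nat_lit 150507) (.g (nat_lit 2488) (.e (nat_lit 57379) (nat_lit 3) (.e (nat_lit 98341) (nat_lit 20) (.e (nat_lit 221214) (nat_lit 23) (.e (nat_lit 204863) (nat_lit 27) (.e (nat_lit 344120) (nat_lit 21) (.e (nat_lit 516115) (nat_lit 1) (.e (nat_lit 164177) (nat_lit 154) .nil))))))) (.g (nat_lit 4) .nil .nil)))) (.nd (nat_lit 5) 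
(.lf (nat_lit 150491) (.g (nat_lit 4696) (.e (nat_lit 57379) (nat_lit 3) (.e (nat_lit 98341) (nat_lit 20) (.e (nat_lit 221214) (nat_lit 23) (.e (nat_lit 204863) (nat_lit 27) (.e (nat_lit 344117) (nat_lit 21) (.e (nat_lit 516115) (nat_lit 1) (.e (nat_lit 164183) (nat_lit 154) .nil))))))) (.g (nat_lit 7) .nil .nil))) 
(.lf (nat_lit 150523) (.g (nat_lit 2704) (.e (nat_lit 57379) (nat_lit 3) (.e (nat_lit 98341) (nat_lit 20) (.e (nat_lit 221215) (nat_lit 23) (.e (nat_lit 204861) (nat_lit 26) (.e (nat_lit 336026) (nat_lit 3) (.e (nat_lit 98335) (nat_lit 18) (.e (nat_lit 164176) (nat_lit 154) .nil))))))) (.g (nat_lit 4) .nil .nil)))))) (.nd (nat_lit 3) (.nd (nat_lit 4) (.nd (nat_lit 5) 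
(.lf (nat_lit 150471) (.g (nat_lit 414) (.e (nat_lit 57379) (nat_lit 3) (.e (nat_lit 98341) (nat_lit 20) (.e (nat_lit 221214) (nat_lit 23) .nil))) .nil)) 
(.lf (nat_lit 150503) (.g (nat_lit 2432) (.e (nat_lit 57379) (nat_lit 3) (.e (nat_lit 98341) (nat_lit 20) (.e (nat_lit 221214) (nat_lit 23) (.e (nat_lit 204863) (nat_lit 27) (.e (nat_lit 344118) (nat_lit 21) (.e (nat_lit 516119) (nat_lit 1) (.e (nat_lit 164180) (nat_lit 154) .nil))))))) (.g (nat_lit 4) .nil .nil)))) (.nd (nat_lit 5) 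
(.lf (nat_lit 150487) (.g (nat_lit 4134) (.e (nat_lit 57379) (nat_lit 3) (.e (nat_lit 98341) (nat_lit 20) (.e (nat_lit 221214) (nat_lit 23) (.e (nat_lit 204862) (nat_lit 27) (.e (nat_lit 344117) (nat_lit 21) (.e (nat_lit 516116) (nat_lit 1) (.e (nat_lit 164180) (nat_lit 154) .nil))))))) (.g (nat_lit 6) .nil .nil))) 
(.lf (nat_lit 150519) (.g (nat_lit 2337) (.e (nat_lit 57379) (nat_lit 3) (.e (nat_lit 98341) (nat_lit 20) (.e (nat_lit 221215) (nat_lit 23) (.e (nat_lit 204859) (nat_lit 26) (.e (nat_lit 336017) (nat_lit 3) (.e (nat_lit 98333) (nat_lit 18) (.e (nat_lit 164182) (nat_lit 154) .nil))))))) (.g (nat_lit 4) .nil .nil))))) (.nd (nat_lit 4) (.nd (nat_lit 5) 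
(.lf (nat_lit 150479) (.g (nat_lit 2763) (.e (nat_lit 57379) (nat_lit 3) (.e (nat_lit 98341) (nat_lit 20) (.e (nat_lit 221214) (nat_lit 23) (.e (nat_lit 204861) (nat_lit 26) (.e (nat_lit 336026) (nat_lit 3) (.e (nat_lit 98333) (nat_lit 18) (.e (nat_lit 164177) (nat_lit 154) .nil))))))) (.g (nat_lit 4) .nil .nil))) 
(.lf (nat_lit 150511) (.g (nat_lit 2635) (.e (nat_lit 57379) (nat_lit 3) (.e (nat_lit 98341) (nat_lit 20) (.e (nat_lit 221214) (nat_lit 23) (.e (nat_lit 204863) (nat_lit 27) (.e (nat_lit 344120) (nat_lit 21) (.e (nat_lit 516119) (nat_lit 1) (.e (nat_lit 164179) (nat_lit 154) .nil))))))) (.g (nat_lit 4) .nil .nil)))) (.nd (nat_lit 5) 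
(.lf (nat_lit 150495) (.g (nat_lit 3282) (.e (nat_lit 57379) (nat_lit 3) (.e (nat_lit 98341) (nat_lit 20) (.e (nat_lit 221214) (nat_lit 23) (.e (nat_lit 204863) (nat_lit 27) (.e (nat_lit 344117) (nat_lit 21) (.e (nat_lit 516118) (nat_lit 1) (.e (nat_lit 164183) (nat_lit 154) .nil))))))) (.g (nat_lit 5) .nil .nil))) 
(.lf (nat_lit 150527) (.g (nat_lit 5042) (.e (nat_lit 57379) (nat_lit 3) (.e (nat_lit 98341) (nat_lit 20) (.e (nat_lit 221215) (nat_lit 23) (.e (nat_lit 204862) (nat_lit 27) (.e (nat_lit 344117) (nat_lit 21) (.e (nat_lit 516115) (nat_lit 1) (.e (nat_lit 164179) (nat_lit 154) .nil))))))) (.g (nat_lit 7) .nil .nil)))))))))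

noncomputable def tv2006 : DT := (.nd (nat_lit 0) (.nd (nat_lit 1) (.nd (nat_lit 2) (.nd (nat_lit 3) (.nd (nat_lit 4) (.nd (nat_lit 5) 
(.lf (nat_lit 150528) (.g (nat_lit 3891) (.e (nat_lit 57379) (nat_lit 3) (.e (nat_lit 98341) (nat_lit 20) (.e (nat_lit 221215) (nat_lit 23) (.e (nat_lit 204862) (nat_lit 27) (.e (nat_lit 344117) (nat_lit 21) (.e (nat_lit 516115) (nat_lit 1) (.e (nat_lit 164182) (nat_lit 154) .nil))))))) (.g (nat_lit 6) .nil .nil))) 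
(.lf (nat_lit 150560) (.g (nat_lit 3934) (.e (nat_lit 57379) (nat_lit 3) (.e (nat_lit 98341) (nat_lit 20) (.e (nat_lit 221215) (nat_lit 23) (.e (nat_lit 204863) (nat_lit 27) (.e (nat_lit 344118) (nat_lit 21) (.e (nat_lit 516119) (nat_lit 1) (.e (nat_lit 164179) (nat_lit 154) .nil))))))) (.g (nat_lit 6) .nil .nil)))) (.nd (nat_lit 5) 
(.lf (nat_lit 150544) (.g (nat_lit 2972) (.e (nat_lit 57379) (nat_lit 3) (.e (nat_lit 98341) (nat_lit 20) (.e (nat_lit 221215) (nat_lit 23) (.e (nat_lit 204863) (nat_lit 27) (.e (nat_lit 344117) (nat_lit 21) (.e (nat_lit 516115) (nat_lit 1) (.e (nat_lit 164178) (nat_lit 154) .nil))))))) (.g (nat_lit 4) .nil .nil))) 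
(.lf (nat_lit 150576) (.g (nat_lit 4674) (.e (nat_lit 57379) (nat_lit 3) (.e (nat_lit 98341) (nat_lit 20) (.e (nat_lit 221215) (nat_lit 23) (.e (nat_lit 204880) (nat_lit 32) (.e (nat_lit 385068) (nat_lit 26) (.e (nat_lit 532503) (nat_lit 1) (.e (nat_lit 57849) (nat_lit 252) .nil))))))) (.g (nat_lit 6) .nil .nil))))) (.nd (nat_lit 4) (.nd (nat_lit 5) 
(.lf (nat_lit 150536) (.g (nat_lit 2557) (.e (nat_lit 57379) (nat_lit 3) (.e (nat_lit 98341) (nat_lit 20) (.e (nat_lit 221215) (nat_lit 23) (.e (nat_lit 204862) (nat_lit 27) (.e (nat_lit 344118) (nat_lit 21) (.e (nat_lit 516119) (nat_lit 1) (.e (nat_lit 164176) (nat_lit 154) .nil))))))) (.g (nat_lit 4) .nil .nil))) 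
(.lf (nat_lit 150568) (.g (nat_lit 3207) (.e (nat_lit 57379) (nat_lit 3) (.e (nat_lit 98341) (nat_lit 20) (.e (nat_lit 221215) (nat_lit 23) (.e (nat_lit 204863) (nat_lit 27) (.e (nat_lit 344120) (nat_lit 21) (.e (nat_lit 516115) (nat_lit 1) (.e (nat_lit 164183) (nat_lit 154) .nil))))))) (.g (nat_lit 5) .nil .nil)))) (.nd (nat_lit 5) 
(.lf (nat_lit 150552) (.g (nat_lit 2175) (.e (nat_lit 57379) (nat_lit 3) (.e (nat_lit 98341) (nat_lit 20) (.e (nat_lit 221215) (nat_lit 23) (.e (nat_lit 204863) (nat_lit 27) (.e (nat_lit 344118) (nat_lit 21) .nil))))) .nil)) 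
(.lf (nat_lit 150584) (.g (nat_lit 4318) (.e (nat_lit 57379) (nat_lit 3) (.e (nat_lit 98342) (nat_lit 20) (.e (nat_lit 221211) (nat_lit 22) (.e (nat_lit 196666) (nat_lit 13) (.e (nat_lit 65569) (nat_lit 3) (.e (nat_lit 98334) (nat_lit 18) (.e (nat_lit 164183) (nat_lit 154) .nil))))))) (.g (nat_lit 7) .nil .nil)))))) (.nd (nat_lit 3) (.nd (nat_lit 4) (.nd (nat_lit 5) 
(.lf (nat_lit 150532) (.g (nat_lit 4767) (.e (nat_lit 57379) (nat_lit 3) (.e (nat_lit 98341) (nat_lit 20) (.e (nat_lit 221215) (nat_lit 23) (.e (nat_lit 204862) (nat_lit 27) (.e (nat_lit 344117) (nat_lit 21) (.e (nat_lit 516116) (nat_lit 1) (.e (nat_lit 164181) (nat_lit 154) .nil))))))) (.g (nat_lit 6) .nil .nil))) 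
(.lf (nat_lit 150564) (.g (nat_lit 4570) (.e (nat_lit 57379) (nat_lit 3) (.e (nat_lit 98341) (nat_lit 20) (.e (nat_lit 221215) (nat_lit 23) (.e (nat_lit 204863) (nat_lit 27) (.e (nat_lit 344118) (nat_lit 21) (.e (nat_lit 516120) (nat_lit 1) (.e (nat_lit 164183) (nat_lit 154) .nil))))))) (.g (nat_lit 7) .nil .nil)))) (.nd (nat_lit 5) 
(.lf (nat_lit 150548) (.g (nat_lit 4343) (.e (nat_lit 57379) (nat_lit 3) (.e (nat_lit 98341) (nat_lit 20) (.e (nat_lit 221215) (nat_lit 23) (.e (nat_lit 204863) (nat_lit 27) (.e (nat_lit 344117) (nat_lit 21) (.e (nat_lit 516116) (nat_lit 1) (.e (nat_lit 164176) (nat_lit 154) .nil))))))) (.g (nat_lit 6) .nil .nil))) 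
(.lf (nat_lit 150580) (.g (nat_lit 4256) (.e (nat_lit 57379) (nat_lit 3) (.e (nat_lit 98342) (nat_lit 20) (.e (nat_lit 221211) (nat_lit 22) (.e (nat_lit 196666) (nat_lit 13) (.e (nat_lit 65569) (nat_lit 3) (.e (nat_lit 98333) (nat_lit 18) (.e (nat_lit 164177) (nat_lit 154) .nil))))))) (.g (nat_lit 6) .nil .nil))))) (.nd (nat_lit 4) (.nd (nat_lit 5) 
(.lf (nat_lit 150540) (.g (nat_lit 1971) (.e (nat_lit 57379) (nat_lit 3) (.e (nat_lit 98341) (nat_lit 20) (.e (nat_lit 221215) (nat_lit 23) (.e (nat_lit 204862) (nat_lit 27) (.e (nat_lit 344119) (nat_lit 21) .nil))))) .nil)) 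
(.lf (nat_lit 150572) (.g (nat_lit 2905) (.e (nat_lit 57379) (nat_lit 3) (.e (nat_lit 98341) (nat_lit 20) (.e (nat_lit 221215) (nat_lit 23) (.e (nat_lit 204863) (nat_lit 27) (.e (nat_lit 344120) (nat_lit 21) (.e (nat_lit 516119) (nat_lit 1) (.e (nat_lit 164179) (nat_lit 154) .nil))))))) (.g (nat_lit 4) .nil .nil)))) (.nd (nat_lit 5) 
(.lf (nat_lit 150556) (.g (nat_lit 2928) (.e (nat_lit 57379) (nat_lit 3) (.e (nat_lit 98341) (nat_lit 20) (.e (nat_lit 221215) (nat_lit 23) (.e (nat_lit 204863) (nat_lit 27) (.e (nat_lit 344118) (nat_lit 21) (.e (nat_lit 516117) (nat_lit 1) (.e (nat_lit 164183) (nat_lit 154) .nil))))))) (.g (nat_lit 4) .nil .nil))) 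
(.lf (nat_lit 150588) (.g (nat_lit 3384) (.e (nat_lit 57379) (nat_lit 3) (.e (nat_lit 98342) (nat_lit 20) (.e (nat_lit 221211) (nat_lit 22) (.e (nat_lit 196666) (nat_lit 13) (.e (nat_lit 65571) (nat_lit 3) (.e (nat_lit 98334) (nat_lit 18) (.e (nat_lit 164176) (nat_lit 154) .nil))))))) (.g (nat_lit 6) .nil .nil))))))) (.nd (nat_lit 2) (.nd (nat_lit 3) (.nd (nat_lit 4) (.nd (nat_lit 5) 
(.lf (nat_lit 150530) (.g (nat_lit 4220) (.e (nat_lit 57379) (nat_lit 3) (.e (nat_lit 98341) (nat_lit 20) (.e (nat_lit 221215) (nat_lit 23) (.e (nat_lit 204862) (nat_lit 27) (.e (nat_lit 344117) (nat_lit 21) (.e (nat_lit 516116) (nat_lit 1) (.e (nat_lit 164176) (nat_lit 154) .nil))))))) (.g (nat_lit 6) .nil .nil))) 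
(.lf (nat_lit 150562) (.g (nat_lit 2851) (.e (nat_lit 57379) (nat_lit 3) (.e (nat_lit 98341) (nat_lit 20) (.e (nat_lit 221215) (nat_lit 23) (.e (nat_lit 204863) (nat_lit 27) (.e (nat_lit 344118) (nat_lit 21) (.e (nat_lit 516119) (nat_lit 1) (.e (nat_lit 164182) (nat_lit 154) .nil))))))) (.g (nat_lit 4) .nil .nil)))) (.nd (nat_lit 5) 
(.lf (nat_lit 150546) (.g (nat_lit 4174) (.e (nat_lit 57379) (nat_lit 3) (.e (nat_lit 98341) (nat_lit 20) (.e (nat_lit 221215) (nat_lit 23) (.e (nat_lit 204863) (nat_lit 27) (.e (nat_lit 344117) (nat_lit 21) (.e (nat_lit 516115) (nat_lit 1) (.e (nat_lit 164182) (nat_lit 154) .nil))))))) (.g (nat_lit 6) .nil .nil))) 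
(.lf (nat_lit 150578) (.g (nat_lit 417) (.e (nat_lit 57379) (nat_lit 3) (.e (nat_lit 98342) (nat_lit 20) (.e (nat_lit 221211) (nat_lit 22) .nil))) .nil)))) (.nd (nat_lit 4) (.nd (nat_lit 5) 
(.lf (nat_lit 150538) (.g (nat_lit 2515) (.e (nat_lit 57379) (nat_lit 3) (.e (nat_lit 98341) (nat_lit 20) (.e (nat_lit 221215) (nat_lit 23) (.e (nat_lit 204862) (nat_lit 27) (.e (nat_lit 344118) (nat_lit 21) (.e (nat_lit 516120) (nat_lit 1) (.e (nat_lit 164181) (nat_lit 154) .nil))))))) (.g (nat_lit 4) .nil .nil))) 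
(.lf (nat_lit 150570) (.g (nat_lit 2476) (.e (nat_lit 57379) (nat_lit 3) (.e (nat_lit 98341) (nat_lit 20) (.e (nat_lit 221215) (nat_lit 23) (.e (nat_lit 204863) (nat_lit 27) (.e (nat_lit 344120) (nat_lit 21) (.e (nat_lit 516118) (nat_lit 1) (.e (nat_lit 164183) (nat_lit 154) .nil))))))) (.g (nat_lit 4) .nil .nil)))) (.nd (nat_lit 5) 
(.lf (nat_lit 150554) (.g (nat_lit 2747) (.e (nat_lit 57379) (nat_lit 3) (.e (nat_lit 98341) (nat_lit 20) (.e (nat_lit 221215) (nat_lit 23) (.e (nat_lit 204863) (nat_lit 27) (.e (nat_lit 344118) (nat_lit 21) (.e (nat_lit 516115) (nat_lit 1) (.e (nat_lit 164182) (nat_lit 154) .nil))))))) (.g (nat_lit 4) .nil .nil))) 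
(.lf (nat_lit 150586) (.g (nat_lit 4088) (.e (nat_lit 57379) (nat_lit 3) (.e (nat_lit 98342) (nat_lit 20) (.e (nat_lit 221211) (nat_lit 22) (.e (nat_lit 196666) (nat_lit 13) (.e (nat_lit 65571) (nat_lit 3) (.e (nat_lit 98333) (nat_lit 18) (.e (nat_lit 164177) (nat_lit 154) .nil))))))) (.g (nat_lit 7) .nil .nil)))))) (.nd (nat_lit 3) (.nd (nat_lit 4) (.nd (nat_lit 5) 
(.lf (nat_lit 150534) (.g (nat_lit 3992) (.e (nat_lit 57379) (nat_lit 3) (.e (nat_lit 98341) (nat_lit 20) (.e (nat_lit 221215) (nat_lit 23) (.e (nat_lit 204862) (nat_lit 27) (.e (nat_lit 344117) (nat_lit 21) (.e (nat_lit 516118) (nat_lit 1) (.e (nat_lit 164183) (nat_lit 154) .nil))))))) (.g (nat_lit 6) .nil .nil))) 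
(.lf (nat_lit 150566) (.g (nat_lit 2726) (.e (nat_lit 57379) (nat_lit 3) (.e (nat_lit 98341) (nat_lit 20) (.e (nat_lit 221215) (nat_lit 23) (.e (nat_lit 204863) (nat_lit 27) (.e (nat_lit 344120) (nat_lit 21) (.e (nat_lit 516115) (nat_lit 1) (.e (nat_lit 164177) (nat_lit 154) .nil))))))) (.g (nat_lit 4) .nil .nil)))) (.nd (nat_lit 5) 
(.lf (nat_lit 150550) (.g (nat_lit 5084) (.e (nat_lit 57379) (nat_lit 3) (.e (nat_lit 98341) (nat_lit 20) (.e (nat_lit 221215) (nat_lit 23) (.e (nat_lit 204863) (nat_lit 27) (.e (nat_lit 344117) (nat_lit 21) (.e (nat_lit 516116) (nat_lit 1) (.e (nat_lit 164183) (nat_lit 154) .nil))))))) (.g (nat_lit 7) .nil .nil))) 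
(.lf (nat_lit 150582) (.g (nat_lit 4132) (.e (nat_lit 57379) (nat_lit 3) (.e (nat_lit 98342) (nat_lit 20) (.e (nat_lit 221211) (nat_lit 22) (.e (nat_lit 196666) (nat_lit 13) (.e (nat_lit 65569) (nat_lit 3) (.e (nat_lit 98334) (nat_lit 18) (.e (nat_lit 164176) (nat_lit 154) .nil))))))) (.g (nat_lit 6) .nil .nil))))) (.nd (nat_lit 4) (.nd (nat_lit 5) 
(.lf (nat_lit 150542) (.g (nat_lit 3018) (.e (nat_lit 57379) (nat_lit 3) (.e (nat_lit 98341) (nat_lit 20) (.e (nat_lit 221215) (nat_lit 23) (.e (nat_lit 204863) (nat_lit 27) (.e (nat_lit 344117) (nat_lit 21) (.e (nat_lit 516106) (nat_lit 0) (.e (nat_lit 2478) (nat_lit 157) (.e (nat_lit 6391) (nat_lit 339) .nil)))))))) (.g (nat_lit 4) .nil .nil))) 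
(.lf (nat_lit 150574) (.g (nat_lit 4918) (.e (nat_lit 57379) (nat_lit 3) (.e (nat_lit 98341) (nat_lit 20) (.e (nat_lit 221215) (nat_lit 23) (.e (nat_lit 204880) (nat_lit 32) (.e (nat_lit 385068) (nat_lit 26) (.e (nat_lit 532499) (nat_lit 1) (.e (nat_lit 57847) (nat_lit 252) .nil))))))) (.g (nat_lit 7) .nil .nil)))) (.nd (nat_lit 5) 
(.lf (nat_lit 150558) (.g (nat_lit 3807) (.e (nat_lit 57379) (nat_lit 3) (.e (nat_lit 98341) (nat_lit 20) (.e (nat_lit 221215) (nat_lit 23) (.e (nat_lit 204863) (nat_lit 27) (.e (nat_lit 344118) (nat_lit 21) (.e (nat_lit 516119) (nat_lit 1) (.e (nat_lit 164176) (nat_lit 154) .nil))))))) (.g (nat_lit 6) .nil .nil))) 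
(.lf (nat_lit 150590) (.g (nat_lit 3394) (.e (nat_lit 57379) (nat_lit 3) (.e (nat_lit 98342) (nat_lit 20) (.e (nat_lit 221211) (nat_lit 22) (.e (nat_lit 196666) (nat_lit 13) (.e (nat_lit 65571) (nat_lit 3) (.e (nat_lit 98334) (nat_lit 18) (.e (nat_lit 164181) (nat_lit 154) .nil))))))) (.g (nat_lit 6) .nil .nil)))))))) 
(.nd (nat_lit 1) (.nd (nat_lit 2) (.nd (nat_lit 3) (.nd (nat_lit 4) (.nd (nat_lit 5) 
(.lf (nat_lit 150529) (.g (nat_lit 4693) (.e (nat_lit 57379) (nat_lit 3) (.e (nat_lit 98341) (nat_lit 20) (.e (nat_lit 221215) (nat_lit 23) (.e (nat_lit 204862) (nat_lit 27) (.e (nat_lit 344117) (nat_lit 21) (.e (nat_lit 516115) (nat_lit 1) (.e (nat_lit 164183) (nat_lit 154) .nil))))))) (.g (nat_lit 0) .nil .nil))) 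
(.lf (nat_lit 150561) (.g (nat_lit 2671) (.e (nat_lit 57379) (nat_lit 3) (.e (nat_lit 98341) (nat_lit 20) (.e (nat_lit 221215) (nat_lit 23) (.e (nat_lit 204863) (nat_lit 27) (.e (nat_lit 344118) (nat_lit 21) (.e (nat_lit 516119) (nat_lit 1) (.e (nat_lit 164180) (nat_lit 154) .nil))))))) (.g (nat_lit 4) .nil .nil)))) (.nd (nat_lit 5) 
(.lf (nat_lit 150545) (.g (nat_lit 5280) (.e (nat_lit 57379) (nat_lit 3) (.e (nat_lit 98341) (nat_lit 20) (.e (nat_lit 221215) (nat_lit 23) (.e (nat_lit 204863) (nat_lit 27) (.e (nat_lit 344117) (nat_lit 21) (.e (nat_lit 516115) (nat_lit 1) (.e (nat_lit 164179) (nat_lit 154) .nil))))))) (.g (nat_lit 7) .nil .nil))) 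
(.lf (nat_lit 150577) (.g (nat_lit 2547) (.e (nat_lit 57379) (nat_lit 3) (.e (nat_lit 98342) (nat_lit 20) (.e (nat_lit 221210) (nat_lit 22) (.e (nat_lit 196665) (nat_lit 13) (.e (nat_lit 73472) (nat_lit 18) (.e (nat_lit 204829) (nat_lit 18) (.e (nat_lit 57849) (nat_lit 252) .nil))))))) (.g (nat_lit 4) .nil .nil))))) (.nd (nat_lit 4) (.nd (nat_lit 5) 
(.lf (nat_lit 150537) (.g (nat_lit 2684) (.e (nat_lit 57379) (nat_lit 3) (.e (nat_lit 98341) (nat_lit 20) (.e (nat_lit 221215) (nat_lit 23) (.e (nat_lit 204862) (nat_lit 27) (.e (nat_lit 344118) (nat_lit 21) (.e (nat_lit 516119) (nat_lit 1) (.e (nat_lit 164179) (nat_lit 154) .nil))))))) (.g (nat_lit 4) .nil .nil))) 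
(.lf (nat_lit 150569) (.g (nat_lit 2204) (.e (nat_lit 57379) (nat_lit 3) (.e (nat_lit 98341) (nat_lit 20) (.e (nat_lit 221215) (nat_lit 23) (.e (nat_lit 204863) (nat_lit 27) (.e (nat_lit 344120) (nat_lit 21) (.e (nat_lit 516117) (nat_lit 1) (.e (nat_lit 164183) (nat_lit 154) .nil))))))) (.g (nat_lit 4) .nil .nil)))) (.nd (nat_lit 5) 
(.lf (nat_lit 150553) (.g (nat_lit 2899) (.e (nat_lit 57379) (nat_lit 3) (.e (nat_lit 98341) (nat_lit 20) (.e (nat_lit 221215) (nat_lit 23) (.e (nat_lit 204863) (nat_lit 27) (.e (nat_lit 344118) (nat_lit 21) (.e (nat_lit 516115) (nat_lit 1) (.e (nat_lit 164177) (nat_lit 154) .nil))))))) (.g (nat_lit 4) .nil .nil))) 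
(.lf (nat_lit 150585) (.g (nat_lit 3079) (.e (nat_lit 57379) (nat_lit 3) (.e (nat_lit 98342) (nat_lit 20) (.e (nat_lit 221211) (nat_lit 22) (.e (nat_lit 196666) (nat_lit 13) (.e (nat_lit 65571) (nat_lit 3) (.e (nat_lit 98332) (nat_lit 18) (.e (nat_lit 164182) (nat_lit 154) .nil))))))) (.g (nat_lit 5) .nil .nil)))))) (.nd (nat_lit 3) (.nd (nat_lit 4) (.nd (nat_lit 5) 
(.lf (nat_lit 150533) (.g (nat_lit 2756) (.e (nat_lit 57379) (nat_lit 3) (.e (nat_lit 98341) (nat_lit 20) (.e (nat_lit 221215) (nat_lit 23) (.e (nat_lit 204862) (nat_lit 27) (.e (nat_lit 344117) (nat_lit 21) (.e (nat_lit 516118) (nat_lit 1) (.e (nat_lit 164177) (nat_lit 154) .nil))))))) (.g (nat_lit 4) .nil .nil))) 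
(.lf (nat_lit 150565) (.g (nat_lit 2203) (.e (nat_lit 57379) (nat_lit 3) (.e (nat_lit 98341) (nat_lit 20) (.e (nat_lit 221215) (nat_lit 23) (.e (nat_lit 204863) (nat_lit 27) (.e (nat_lit 344120) (nat_lit 21) .nil))))) .nil))) (.nd (nat_lit 5) 
(.lf (nat_lit 150549) (.g (nat_lit 4881) (.e (nat_lit 57379) (nat_lit 3) (.e (nat_lit 98341) (nat_lit 20) (.e (nat_lit 221215) (nat_lit 23) (.e (nat_lit 204863) (nat_lit 27) (.e (nat_lit 344117) (nat_lit 21) (.e (nat_lit 516116) (nat_lit 1) (.e (nat_lit 164181) (nat_lit 154) .nil))))))) (.g (nat_lit 6) .nil .nil))) 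
(.lf (nat_lit 150581) (.g (nat_lit 4238) (.e (nat_lit 57379) (nat_lit 3) (.e (nat_lit 98342) (nat_lit 20) (.e (nat_lit 221211) (nat_lit 22) (.e (nat_lit 196666) (nat_lit 13) (.e (nat_lit 65569) (nat_lit 3) (.e (nat_lit 98333) (nat_lit 18) (.e (nat_lit 164183) (nat_lit 154) .nil))))))) (.g (nat_lit 7) .nil .nil))))) (.nd (nat_lit 4) (.nd (nat_lit 5) 
(.lf (nat_lit 150541) (.g (nat_lit 2218) (.e (nat_lit 57379) (nat_lit 3) (.e (nat_lit 98341) (nat_lit 20) (.e (nat_lit 221215) (nat_lit 23) (.e (nat_lit 204862) (nat_lit 27) (.e (nat_lit 344119) (nat_lit 21) (.e (nat_lit 516120) (nat_lit 1) (.e (nat_lit 164183) (nat_lit 154) .nil))))))) (.g (nat_lit 4) .nil .nil))) 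
(.lf (nat_lit 150573) (.g (nat_lit 1359) (.e (nat_lit 57379) (nat_lit 3) (.e (nat_lit 98341) (nat_lit 20) (.e (nat_lit 221215) (nat_lit 23) (.e (nat_lit 204873) (nat_lit 30) .nil)))) .nil))) (.nd (nat_lit 5) 
(.lf (nat_lit 150557) (.g (nat_lit 2365) (.e (nat_lit 57379) (nat_lit 3) (.e (nat_lit 98341) (nat_lit 20) (.e (nat_lit 221215) (nat_lit 23) (.e (nat_lit 204863) (nat_lit 27) (.e (nat_lit 344118) (nat_lit 21) (.e (nat_lit 516118) (nat_lit 1) (.e (nat_lit 164183) (nat_lit 154) .nil))))))) (.g (nat_lit 4) .nil .nil))) 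
(.lf (nat_lit 150589) (.g (nat_lit 4091) (.e (nat_lit 57379) (nat_lit 3) (.e (nat_lit 98342) (nat_lit 20) (.e (nat_lit 221211) (nat_lit 22) (.e (nat_lit 196666) (nat_lit 13) (.e (nat_lit 65571) (nat_lit 3) (.e (nat_lit 98334) (nat_lit 18) (.e (nat_lit 164180) (nat_lit 154) .nil))))))) (.g (nat_lit 7) .nil .nil))))))) (.nd (nat_lit 2) (.nd (nat_lit 3) (.nd (nat_lit 4) (.nd (nat_lit 5) 
(.lf (nat_lit 150531) (.g (nat_lit 5003) (.e (nat_lit 57379) (nat_lit 3) (.e (nat_lit 98341) (nat_lit 20) (.e (nat_lit 221215) (nat_lit 23) (.e (nat_lit 204862) (nat_lit 27) (.e (nat_lit 344117) (nat_lit 21) (.e (nat_lit 516116) (nat_lit 1) (.e (nat_lit 164180) (nat_lit 154) .nil))))))) (.g (nat_lit 6) .nil .nil))) 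
(.lf (nat_lit 150563) (.g (nat_lit 2418) (.e (nat_lit 57379) (nat_lit 3) (.e (nat_lit 98341) (nat_lit 20) (.e (nat_lit 221215) (nat_lit 23) (.e (nat_lit 204863) (nat_lit 27) (.e (nat_lit 344118) (nat_lit 21) (.e (nat_lit 516120) (nat_lit 1) (.e (nat_lit 164176) (nat_lit 154) .nil))))))) (.g (nat_lit 4) .nil .nil)))) (.nd (nat_lit 5) 
(.lf (nat_lit 150547) (.g (nat_lit 4924) (.e (nat_lit 57379) (nat_lit 3) (.e (nat_lit 98341) (nat_lit 20) (.e (nat_lit 221215) (nat_lit 23) (.e (nat_lit 204863) (nat_lit 27) (.e (nat_lit 344117) (nat_lit 21) (.e (nat_lit 516115) (nat_lit 1) (.e (nat_lit 164183) (nat_lit 154) .nil))))))) (.g (nat_lit 7) .nil .nil))) 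
(.lf (nat_lit 150579) (.g (nat_lit 2450) (.e (nat_lit 57379) (nat_lit 3) (.e (nat_lit 98342) (nat_lit 20) (.e (nat_lit 221211) (nat_lit 22) (.e (nat_lit 196666) (nat_lit 13) (.e (nat_lit 65550) (nat_lit 0) (.e (nat_lit 1788) (nat_lit 119) (.e (nat_lit 516118) (nat_lit 1) (.e (nat_lit 164183) (nat_lit 154) .nil)))))))) (.g (nat_lit 4) .nil .nil))))) (.nd (nat_lit 4) (.nd (nat_lit 5) 
(.lf (nat_lit 150539) (.g (nat_lit 3570) (.e (nat_lit 57379) (nat_lit 3) (.e (nat_lit 98341) (nat_lit 20) (.e (nat_lit 221215) (nat_lit 23) (.e (nat_lit 204862) (nat_lit 27) (.e (nat_lit 344118) (nat_lit 21) (.e (nat_lit 516120) (nat_lit 1) (.e (nat_lit 164183) (nat_lit 154) .nil))))))) (.g (nat_lit 6) .nil .nil))) 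
(.lf (nat_lit 150571) (.g (nat_lit 2361) (.e (nat_lit 57379) (nat_lit 3) (.e (nat_lit 98341) (nat_lit 20) (.e (nat_lit 221215) (nat_lit 23) (.e (nat_lit 204863) (nat_lit 27) (.e (nat_lit 344120) (nat_lit 21) (.e (nat_lit 516119) (nat_lit 1) (.e (nat_lit 164176) (nat_lit 154) .nil))))))) (.g (nat_lit 4) .nil .nil)))) (.nd (nat_lit 5) 
(.lf (nat_lit 150555) (.g (nat_lit 2506) (.e (nat_lit 57379) (nat_lit 3) (.e (nat_lit 98341) (nat_lit 20) (.e (nat_lit 221215) (nat_lit 23) (.e (nat_lit 204863) (nat_lit 27) (.e (nat_lit 344118) (nat_lit 21) (.e (nat_lit 516117) (nat_lit 1) (.e (nat_lit 164181) (nat_lit 154) .nil))))))) (.g (nat_lit 4) .nil .nil))) 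
(.lf (nat_lit 150587) (.g (nat_lit 4319) (.e (nat_lit 57379) (nat_lit 3) (.e (nat_lit 98342) (nat_lit 20) (.e (nat_lit 221211) (nat_lit 22) (.e (nat_lit 196666) (nat_lit 13) (.e (nat_lit 65571) (nat_lit 3) (.e (nat_lit 98333) (nat_lit 18) (.e (nat_lit 164183) (nat_lit 154) .nil))))))) (.g (nat_lit 7) .nil .nil)))))) (.nd (nat_lit 3) (.nd (nat_lit 4) (.nd (nat_lit 5) 
(.lf (nat_lit 150535) (.g (nat_lit 1971) (.e (nat_lit 57379) (nat_lit 3) (.e (nat_lit 98341) (nat_lit 20) (.e (nat_lit 221215) (nat_lit 23) (.e (nat_lit 204862) (nat_lit 27) (.e (nat_lit 344118) (nat_lit 21) .nil))))) .nil)) 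
(.lf (nat_lit 150567) (.g (nat_lit 2592) (.e (nat_lit 57379) (nat_lit 3) (.e (nat_lit 98341) (nat_lit 20) (.e (nat_lit 221215) (nat_lit 23) (.e (nat_lit 204863) (nat_lit 27) (.e (nat_lit 344120) (nat_lit 21) (.e (nat_lit 516115) (nat_lit 1) (.e (nat_lit 164182) (nat_lit 154) .nil))))))) (.g (nat_lit 4) .nil .nil)))) (.nd (nat_lit 5) 
(.lf (nat_lit 150551) (.g (nat_lit 3493) (.e (nat_lit 57379) (nat_lit 3) (.e (nat_lit 98341) (nat_lit 20) (.e (nat_lit 221215) (nat_lit 23) (.e (nat_lit 204863) (nat_lit 27) (.e (nat_lit 344117) (nat_lit 21) (.e (nat_lit 516118) (nat_lit 1) (.e (nat_lit 164183) (nat_lit 154) .nil))))))) (.g (nat_lit 5) .nil .nil))) 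
(.lf (nat_lit 150583) (.g (nat_lit 4119) (.e (nat_lit 57379) (nat_lit 3) (.e (nat_lit 98342) (nat_lit 20) (.e (nat_lit 221211) (nat_lit 22) (.e (nat_lit 196666) (nat_lit 13) (.e (nat_lit 65569) (nat_lit 3) (.e (nat_lit 98334) (nat_lit 18) (.e (nat_lit 164181) (nat_lit 154) .nil))))))) (.g (nat_lit 6) .nil .nil))))) (.nd (nat_lit 4) (.nd (nat_lit 5) 
(.lf (nat_lit 150543) (.g (nat_lit 4518) (.e (nat_lit 57379) (nat_lit 3) (.e (nat_lit 98341) (nat_lit 20) (.e (nat_lit 221215) (nat_lit 23) (.e (nat_lit 204863) (nat_lit 27) (.e (nat_lit 344117) (nat_lit 21) (.e (nat_lit 516115) (nat_lit 1) (.e (nat_lit 164177) (nat_lit 154) .nil))))))) (.g (nat_lit 6) .nil .nil))) 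
(.lf (nat_lit 150575) (.g (nat_lit 4106) (.e (nat_lit 57379) (nat_lit 3) (.e (nat_lit 98341) (nat_lit 20) (.e (nat_lit 221215) (nat_lit 23) (.e (nat_lit 204880) (nat_lit 32) (.e (nat_lit 385068) (nat_lit 26) (.e (nat_lit 532503) (nat_lit 1) (.e (nat_lit 57847) (nat_lit 252) .nil))))))) (.g (nat_lit 7) .nil .nil)))) (.nd (nat_lit 5) 
(.lf (nat_lit 150559) (.g (nat_lit 2387) (.e (nat_lit 57379) (nat_lit 3) (.e (nat_lit 98341) (nat_lit 20) (.e (nat_lit 221215) (nat_lit 23) (.e (nat_lit 204863) (nat_lit 27) (.e (nat_lit 344118) (nat_lit 21) (.e (nat_lit 516119) (nat_lit 1) (.e (nat_lit 164177) (nat_lit 154) .nil))))))) (.g (nat_lit 4) .nil .nil))) 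
(.lf (nat_lit 150591) (.g (nat_lit 2721) (.e (nat_lit 57379) (nat_lit 3) (.e (nat_lit 98342) (nat_lit 20) (.e (nat_lit 221211) (nat_lit 22) (.e (nat_lit 196670) (nat_lit 14) (.e (nat_lit 73746) (nat_lit 3) (.e (nat_lit 516117) (nat_lit 1) (.e (nat_lit 164180) (nat_lit 154) .nil))))))) (.g (nat_lit 5) .nil .nil)))))))))

noncomputable def tv2007 : DT := (.nd (nat_lit 0) (.nd (nat_lit 1) (.nd (nat_lit 2) (.nd (nat_lit 3) (.nd (nat_lit 4) (.nd (nat_lit 5) 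
(.lf (nat_lit 150592) (.g (nat_lit 2486) (.e (nat_lit 57379) (nat_lit 3) (.e (nat_lit 98342) (nat_lit 20) (.e (nat_lit 221211) (nat_lit 22) (.e (nat_lit 196670) (nat_lit 14) (.e (nat_lit 73746) (nat_lit 3) (.e (nat_lit 516117) (nat_lit 1) (.e (nat_lit 164181) (nat_lit 154) .nil))))))) (.g (nat_lit 5) .nil .nil))) 
(.lf (nat_lit 150624) (.g (nat_lit 2930) (.e (nat_lit 57379) (nat_lit 3) (.e (nat_lit 98342) (nat_lit 20) (.e (nat_lit 221214) (nat_lit 23) (.e (nat_lit 204863) (nat_lit 27) (.e (nat_lit 344118) (nat_lit 21) (.e (nat_lit 516120) (nat_lit 1) (.e (nat_lit 164181) (nat_lit 154) .nil))))))) (.g (nat_lit 4) .nil .nil)))) (.nd (nat_lit 5) 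
(.lf (nat_lit 150608) (.g (nat_lit 2954) (.e (nat_lit 57379) (nat_lit 3) (.e (nat_lit 98342) (nat_lit 20) (.e (nat_lit 221214) (nat_lit 23) (.e (nat_lit 204861) (nat_lit 26) (.e (nat_lit 336027) (nat_lit 3) (.e (nat_lit 98334) (nat_lit 18) (.e (nat_lit 164183) (nat_lit 154) .nil))))))) (.g (nat_lit 5) .nil .nil))) 
(.lf (nat_lit 150640) (.g (nat_lit 2651) (.e (nat_lit 57379) (nat_lit 3) (.e (nat_lit 98342) (nat_lit 20) (.e (nat_lit 221215) (nat_lit 23) (.e (nat_lit 204861) (nat_lit 26) (.e (nat_lit 336012) (nat_lit 2) (.e (nat_lit 90181) (nat_lit 16) (.e (nat_lit 237312) (nat_lit 0) (.e (nat_lit 6393) (nat_lit 339) .nil)))))))) (.g (nat_lit 4) .nil .nil))))) (.nd (nat_lit 4) (.nd (nat_lit 5) 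
(.lf (nat_lit 150600) (.g (nat_lit 2404) (.e (nat_lit 57379) (nat_lit 3) (.e (nat_lit 98342) (nat_lit 20) (.e (nat_lit 221212) (nat_lit 22) (.e (nat_lit 196681) (nat_lit 17) (.e (nat_lit 131098) (nat_lit 3) (.e (nat_lit 98334) (nat_lit 18) (.e (nat_lit 164180) (nat_lit 154) .nil))))))) (.g (nat_lit 4) .nil .nil))) 
(.lf (nat_lit 150632) (.g (nat_lit 3829) (.e (nat_lit 57379) (nat_lit 3) (.e (nat_lit 98342) (nat_lit 20) (.e (nat_lit 221215) (nat_lit 23) (.e (nat_lit 204852) (nat_lit 26) (.e (nat_lit 336326) (nat_lit 18) (.e (nat_lit 204829) (nat_lit 18) (.e (nat_lit 57847) (nat_lit 252) .nil))))))) (.g (nat_lit 7) .nil .nil)))) (.nd (nat_lit 5) 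
(.lf (nat_lit 150616) (.g (nat_lit 4563) (.e (nat_lit 57379) (nat_lit 3) (.e (nat_lit 98342) (nat_lit 20) (.e (nat_lit 221214) (nat_lit 23) (.e (nat_lit 204863) (nat_lit 27) (.e (nat_lit 344117) (nat_lit 21) (.e (nat_lit 516116) (nat_lit 1) (.e (nat_lit 164180) (nat_lit 154) .nil))))))) (.g (nat_lit 7) .nil .nil))) 
(.lf (nat_lit 150648) (.g (nat_lit 4517) (.e (nat_lit 57379) (nat_lit 3) (.e (nat_lit 98342) (nat_lit 20) (.e (nat_lit 221215) (nat_lit 23) (.e (nat_lit 204862) (nat_lit 27) (.e (nat_lit 344117) (nat_lit 21) (.e (nat_lit 516116) (nat_lit 1) (.e (nat_lit 164180) (nat_lit 154) .nil))))))) (.g (nat_lit 6) .nil .nil)))))) (.nd (nat_lit 3) (.nd (nat_lit 4) (.nd (nat_lit 5) 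
(.lf (nat_lit 150596) (.g (nat_lit 2611) (.e (nat_lit 57379) (nat_lit 3) (.e (nat_lit 98342) (nat_lit 20) (.e (nat_lit 221211) (nat_lit 22) (.e (nat_lit 196670) (nat_lit 14) (.e (nat_lit 73746) (nat_lit 3) (.e (nat_lit 516120) (nat_lit 1) (.e (nat_lit 164181) (nat_lit 154) .nil))))))) (.g (nat_lit 5) .nil .nil))) 
(.lf (nat_lit 150628) (.g (nat_lit 2915) (.e (nat_lit 57379) (nat_lit 3) (.e (nat_lit 98342) (nat_lit 20) (.e (nat_lit 221214) (nat_lit 23) (.e (nat_lit 204863) (nat_lit 27) (.e (nat_lit 344120) (nat_lit 21) (.e (nat_lit 516120) (nat_lit 1) (.e (nat_lit 164183) (nat_lit 154) .nil))))))) (.g (nat_lit 4) .nil .nil)))) (.nd (nat_lit 5) 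
(.lf (nat_lit 150612) (.g (nat_lit 3887) (.e (nat_lit 57379) (nat_lit 3) (.e (nat_lit 98342) (nat_lit 20) (.e (nat_lit 221214) (nat_lit 23) (.e (nat_lit 204862) (nat_lit 27) (.e (nat_lit 344117) (nat_lit 21) (.e (nat_lit 516116) (nat_lit 1) (.e (nat_lit 164180) (nat_lit 154) .nil))))))) (.g (nat_lit 6) .nil .nil))) 
(.lf (nat_lit 150644) (.g (nat_lit 4116) (.e (nat_lit 57379) (nat_lit 3) (.e (nat_lit 98342) (nat_lit 20) (.e (nat_lit 221215) (nat_lit 23) (.e (nat_lit 204862) (nat_lit 27) (.e (nat_lit 344117) (nat_lit 21) (.e (nat_lit 516115) (nat_lit 1) (.e (nat_lit 164177) (nat_lit 154) .nil))))))) (.g (nat_lit 7) .nil .nil))))) (.nd (nat_lit 4) (.nd (nat_lit 5) 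
(.lf (nat_lit 150604) (.g (nat_lit 2600) (.e (nat_lit 57379) (nat_lit 3) (.e (nat_lit 98342) (nat_lit 20) (.e (nat_lit 221214) (nat_lit 23) (.e (nat_lit 204861) (nat_lit 26) (.e (nat_lit 336025) (nat_lit 3) (.e (nat_lit 98333) (nat_lit 18) (.e (nat_lit 164177) (nat_lit 154) .nil))))))) (.g (nat_lit 4) .nil .nil))) 
(.lf (nat_lit 150636) (.g (nat_lit 2221) (.e (nat_lit 57379) (nat_lit 3) (.e (nat_lit 98342) (nat_lit 20) (.e (nat_lit 221215) (nat_lit 23) (.e (nat_lit 204859) (nat_lit 26) (.e (nat_lit 336017) (nat_lit 3) (.e (nat_lit 98334) (nat_lit 18) (.e (nat_lit 164182) (nat_lit 154) .nil))))))) (.g (nat_lit 4) .nil .nil)))) (.nd (nat_lit 5) 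
(.lf (nat_lit 150620) (.g (nat_lit 2810) (.e (nat_lit 57379) (nat_lit 3) (.e (nat_lit 98342) (nat_lit 20) (.e (nat_lit 221214) (nat_lit 23) (.e (nat_lit 204863) (nat_lit 27) (.e (nat_lit 344118) (nat_lit 21) (.e (nat_lit 516115) (nat_lit 1) (.e (nat_lit 164183) (nat_lit 154) .nil))))))) (.g (nat_lit 4) .nil .nil))) 
(.lf (nat_lit 150652) (.g (nat_lit 2311) (.e (nat_lit 57379) (nat_lit 3) (.e (nat_lit 98342) (nat_lit 20) (.e (nat_lit 221215) (nat_lit 23) (.e (nat_lit 204862) (nat_lit 27) (.e (nat_lit 344118) (nat_lit 21) (.e (nat_lit 516119) (nat_lit 1) (.e (nat_lit 164179) (nat_lit 154) .nil))))))) (.g (nat_lit 4) .nil .nil))))))) (.nd (nat_lit 2) (.nd (nat_lit 3) (.nd (nat_lit 4) (.nd (nat_lit 5) 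
(.lf (nat_lit 150594) (.g (nat_lit 2628) (.e (nat_lit 57379) (nat_lit 3) (.e (nat_lit 98342) (nat_lit 20) (.e (nat_lit 221211) (nat_lit 22) (.e (nat_lit 196670) (nat_lit 14) (.e (nat_lit 73746) (nat_lit 3) (.e (nat_lit 516119) (nat_lit 1) (.e (nat_lit 164176) (nat_lit 154) .nil))))))) (.g (nat_lit 5) .nil .nil))) 
(.lf (nat_lit 150626) (.g (nat_lit 2867) (.e (nat_lit 57379) (nat_lit 3) (.e (nat_lit 98342) (nat_lit 20) (.e (nat_lit 221214) (nat_lit 23) (.e (nat_lit 204863) (nat_lit 27) (.e (nat_lit 344120) (nat_lit 21) (.e (nat_lit 516115) (nat_lit 1) (.e (nat_lit 164179) (nat_lit 154) .nil))))))) (.g (nat_lit 4) .nil .nil)))) (.nd (nat_lit 5) 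
(.lf (nat_lit 150610) (.g (nat_lit 2906) (.e (nat_lit 57379) (nat_lit 3) (.e (nat_lit 98342) (nat_lit 20) (.e (nat_lit 221214) (nat_lit 23) (.e (nat_lit 204862) (nat_lit 27) (.e (nat_lit 344117) (nat_lit 21) (.e (nat_lit 516115) (nat_lit 1) (.e (nat_lit 164182) (nat_lit 154) .nil))))))) (.g (nat_lit 5) .nil .nil))) 
(.lf (nat_lit 150642) (.g (nat_lit 2851) (.e (nat_lit 57379) (nat_lit 3) (.e (nat_lit 98342) (nat_lit 20) (.e (nat_lit 221215) (nat_lit 23) (.e (nat_lit 204861) (nat_lit 26) (.e (nat_lit 336026) (nat_lit 3) (.e (nat_lit 98335) (nat_lit 18) (.e (nat_lit 164178) (nat_lit 154) .nil))))))) (.g (nat_lit 4) .nil .nil))))) (.nd (nat_lit 4) (.nd (nat_lit 5) 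
(.lf (nat_lit 150602) (.g (nat_lit 4055) (.e (nat_lit 57379) (nat_lit 3) (.e (nat_lit 98342) (nat_lit 20) (.e (nat_lit 221214) (nat_lit 23) (.e (nat_lit 204852) (nat_lit 26) (.e (nat_lit 336326) (nat_lit 18) (.e (nat_lit 204831) (nat_lit 18) (.e (nat_lit 57849) (nat_lit 252) .nil))))))) (.g (nat_lit 7) .nil .nil))) 
(.lf (nat_lit 150634) (.g (nat_lit 2442) (.e (nat_lit 57379) (nat_lit 3) (.e (nat_lit 98342) (nat_lit 20) (.e (nat_lit 221215) (nat_lit 23) (.e (nat_lit 204859) (nat_lit 26) (.e (nat_lit 336017) (nat_lit 3) (.e (nat_lit 98333) (nat_lit 18) (.e (nat_lit 164182) (nat_lit 154) .nil))))))) (.g (nat_lit 4) .nil .nil)))) (.nd (nat_lit 5) 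
(.lf (nat_lit 150618) (.g (nat_lit 2042) (.e (nat_lit 57379) (nat_lit 3) (.e (nat_lit 98342) (nat_lit 20) (.e (nat_lit 221214) (nat_lit 23) (.e (nat_lit 204863) (nat_lit 27) (.e (nat_lit 344118) (nat_lit 21) .nil))))) .nil)) 
(.lf (nat_lit 150650) (.g (nat_lit 1579) (.e (nat_lit 57379) (nat_lit 3) (.e (nat_lit 98342) (nat_lit 20) (.e (nat_lit 221215) (nat_lit 23) (.e (nat_lit 204862) (nat_lit 27) (.e (nat_lit 344118) (nat_lit 21) .nil))))) .nil))))) (.nd (nat_lit 3) (.nd (nat_lit 4) (.nd (nat_lit 5) 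
(.lf (nat_lit 150598) (.g (nat_lit 418) (.e (nat_lit 57379) (nat_lit 3) (.e (nat_lit 98342) (nat_lit 20) (.e (nat_lit 221212) (nat_lit 22) .nil))) .nil)) 
(.lf (nat_lit 150630) (.g (nat_lit 402) (.e (nat_lit 57379) (nat_lit 3) (.e (nat_lit 98342) (nat_lit 20) (.e (nat_lit 221215) (nat_lit 23) .nil))) .nil))) (.nd (nat_lit 5) 
(.lf (nat_lit 150614) (.g (nat_lit 3736) (.e (nat_lit 57379) (nat_lit 3) (.e (nat_lit 98342) (nat_lit 20) (.e (nat_lit 221214) (nat_lit 23) (.e (nat_lit 204863) (nat_lit 27) (.e (nat_lit 344117) (nat_lit 21) (.e (nat_lit 516115) (nat_lit 1) (.e (nat_lit 164177) (nat_lit 154) .nil))))))) (.g (nat_lit 6) .nil .nil))) 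
(.lf (nat_lit 150646) (.g (nat_lit 3612) (.e (nat_lit 57379) (nat_lit 3) (.e (nat_lit 98342) (nat_lit 20) (.e (nat_lit 221215) (nat_lit 23) (.e (nat_lit 204862) (nat_lit 27) (.e (nat_lit 344117) (nat_lit 21) (.e (nat_lit 516115) (nat_lit 1) (.e (nat_lit 164182) (nat_lit 154) .nil))))))) (.g (nat_lit 6) .nil .nil))))) (.nd (nat_lit 4) (.nd (nat_lit 5) 
(.lf (nat_lit 150606) (.g (nat_lit 2609) (.e (nat_lit 57379) (nat_lit 3) (.e (nat_lit 98342) (nat_lit 20) (.e (nat_lit 221214) (nat_lit 23) (.e (nat_lit 204861) (nat_lit 26) (.e (nat_lit 336027) (nat_lit 3) (.e (nat_lit 98333) (nat_lit 18) (.e (nat_lit 164179) (nat_lit 154) .nil))))))) (.g (nat_lit 4) .nil .nil))) 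
(.lf (nat_lit 150638) (.g (nat_lit 2615) (.e (nat_lit 57379) (nat_lit 3) (.e (nat_lit 98342) (nat_lit 20) (.e (nat_lit 221215) (nat_lit 23) (.e (nat_lit 204861) (nat_lit 26) (.e (nat_lit 336012) (nat_lit 2) (.e (nat_lit 90181) (nat_lit 16) (.e (nat_lit 229376) (nat_lit 0) (.e (nat_lit 6391) (nat_lit 339) .nil)))))))) (.g (nat_lit 4) .nil .nil)))) (.nd (nat_lit 5) 
(.lf (nat_lit 150622) (.g (nat_lit 3105) (.e (nat_lit 57379) (nat_lit 3) (.e (nat_lit 98342) (nat_lit 20) (.e (nat_lit 221214) (nat_lit 23) (.e (nat_lit 204863) (nat_lit 27) (.e (nat_lit 344118) (nat_lit 21) (.e (nat_lit 516119) (nat_lit 1) (.e (nat_lit 164176) (nat_lit 154) .nil))))))) (.g (nat_lit 5) .nil .nil))) 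
(.lf (nat_lit 150654) (.g (nat_lit 1579) (.e (nat_lit 57379) (nat_lit 3) (.e (nat_lit 98342) (nat_lit 20) (.e (nat_lit 221215) (nat_lit 23) (.e (nat_lit 204862) (nat_lit 27) (.e (nat_lit 344119) (nat_lit 21) .nil))))) .nil))))))) (.nd (nat_lit 1) (.nd (nat_lit 2) (.nd (nat_lit 3) (.nd (nat_lit 4) (.nd (nat_lit 5) 
(.lf (nat_lit 150593) (.g (nat_lit 2326) (.e (nat_lit 57379) (nat_lit 3) (.e (nat_lit 98342) (nat_lit 20) (.e (nat_lit 221211) (nat_lit 22) (.e (nat_lit 196670) (nat_lit 14) (.e (nat_lit 73746) (nat_lit 3) (.e (nat_lit 516117) (nat_lit 1) (.e (nat_lit 164183) (nat_lit 154) .nil))))))) (.g (nat_lit 4) .nil .nil))) 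
(.lf (nat_lit 150625) (.g (nat_lit 2090) (.e (nat_lit 57379) (nat_lit 3) (.e (nat_lit 98342) (nat_lit 20) (.e (nat_lit 221214) (nat_lit 23) (.e (nat_lit 204863) (nat_lit 27) (.e (nat_lit 344120) (nat_lit 21) .nil))))) .nil))) (.nd (nat_lit 5) 
(.lf (nat_lit 150609) (.g (nat_lit 3103) (.e (nat_lit 57379) (nat_lit 3) (.e (nat_lit 98342) (nat_lit 20) (.e (nat_lit 221214) (nat_lit 23) (.e (nat_lit 204862) (nat_lit 27) (.e (nat_lit 344117) (nat_lit 21) (.e (nat_lit 516115) (nat_lit 1) (.e (nat_lit 164177) (nat_lit 154) .nil))))))) (.g (nat_lit 5) .nil .nil))) 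
(.lf (nat_lit 150641) (.g (nat_lit 2497) (.e (nat_lit 57379) (nat_lit 3) (.e (nat_lit 98342) (nat_lit 20) (.e (nat_lit 221215) (nat_lit 23) (.e (nat_lit 204861) (nat_lit 26) (.e (nat_lit 336026) (nat_lit 3) (.e (nat_lit 98335) (nat_lit 18) (.e (nat_lit 164176) (nat_lit 154) .nil))))))) (.g (nat_lit 4) .nil .nil))))) (.nd (nat_lit 4) (.nd (nat_lit 5) 
(.lf (nat_lit 150601) (.g (nat_lit 329) (.e (nat_lit 57379) (nat_lit 3) (.e (nat_lit 98342) (nat_lit 20) (.e (nat_lit 221214) (nat_lit 23) .nil))) .nil)) 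
(.lf (nat_lit 150633) (.g (nat_lit 2472) (.e (nat_lit 57379) (nat_lit 3) (.e (nat_lit 98342) (nat_lit 20) (.e (nat_lit 221215) (nat_lit 23) (.e (nat_lit 204859) (nat_lit 26) (.e (nat_lit 336017) (nat_lit 3) (.e (nat_lit 98333) (nat_lit 18) (.e (nat_lit 164179) (nat_lit 154) .nil))))))) (.g (nat_lit 4) .nil .nil)))) (.nd (nat_lit 5) 
(.lf (nat_lit 150617) (.g (nat_lit 4008) (.e (nat_lit 57379) (nat_lit 3) (.e (nat_lit 98342) (nat_lit 20) (.e (nat_lit 221214) (nat_lit 23) (.e (nat_lit 204863) (nat_lit 27) (.e (nat_lit 344117) (nat_lit 21) (.e (nat_lit 516116) (nat_lit 1) (.e (nat_lit 164181) (nat_lit 154) .nil))))))) (.g (nat_lit 6) .nil .nil))) 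
(.lf (nat_lit 150649) (.g (nat_lit 4123) (.e (nat_lit 57379) (nat_lit 3) (.e (nat_lit 98342) (nat_lit 20) (.e (nat_lit 221215) (nat_lit 23) (.e (nat_lit 204862) (nat_lit 27) (.e (nat_lit 344117) (nat_lit 21) (.e (nat_lit 516116) (nat_lit 1) (.e (nat_lit 164181) (nat_lit 154) .nil))))))) (.g (nat_lit 6) .nil .nil)))))) (.nd (nat_lit 3) (.nd (nat_lit 4) (.nd (nat_lit 5) 
(.lf (nat_lit 150597) (.g (nat_lit 2766) (.e (nat_lit 57379) (nat_lit 3) (.e (nat_lit 98342) (nat_lit 20) (.e (nat_lit 221211) (nat_lit 22) (.e (nat_lit 196670) (nat_lit 14) (.e (nat_lit 73746) (nat_lit 3) (.e (nat_lit 516120) (nat_lit 1) (.e (nat_lit 164183) (nat_lit 154) .nil))))))) (.g (nat_lit 5) .nil .nil))) 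
(.lf (nat_lit 150629) (.g (nat_lit 3983) (.e (nat_lit 57379) (nat_lit 3) (.e (nat_lit 98342) (nat_lit 20) (.e (nat_lit 221214) (nat_lit 23) (.e (nat_lit 204880) (nat_lit 32) (.e (nat_lit 385068) (nat_lit 26) (.e (nat_lit 532503) (nat_lit 1) (.e (nat_lit 57847) (nat_lit 252) .nil))))))) (.g (nat_lit 7) .nil .nil)))) (.nd (nat_lit 5) 
(.lf (nat_lit 150613) (.g (nat_lit 2216) (.e (nat_lit 57379) (nat_lit 3) (.e (nat_lit 98342) (nat_lit 20) (.e (nat_lit 221214) (nat_lit 23) (.e (nat_lit 204862) (nat_lit 27) (.e (nat_lit 344118) (nat_lit 21) (.e (nat_lit 516120) (nat_lit 1) (.e (nat_lit 164183) (nat_lit 154) .nil))))))) (.g (nat_lit 4) .nil .nil))) 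
(.lf (nat_lit 150645) (.g (nat_lit 4598) (.e (nat_lit 57379) (nat_lit 3) (.e (nat_lit 98342) (nat_lit 20) (.e (nat_lit 221215) (nat_lit 23) (.e (nat_lit 204862) (nat_lit 27) (.e (nat_lit 344117) (nat_lit 21) (.e (nat_lit 516115) (nat_lit 1) (.e (nat_lit 164179) (nat_lit 154) .nil))))))) (.g (nat_lit 7) .nil .nil))))) (.nd (nat_lit 4) (.nd (nat_lit 5) 
(.lf (nat_lit 150605) (.g (nat_lit 2106) (.e (nat_lit 57379) (nat_lit 3) (.e (nat_lit 98342) (nat_lit 20) (.e (nat_lit 221214) (nat_lit 23) (.e (nat_lit 204861) (nat_lit 26) (.e (nat_lit 336026) (nat_lit 3) (.e (nat_lit 98335) (nat_lit 18) (.e (nat_lit 164177) (nat_lit 154) .nil))))))) (.g (nat_lit 4) .nil .nil))) 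
(.lf (nat_lit 150637) (.g (nat_lit 2693) (.e (nat_lit 57379) (nat_lit 3) (.e (nat_lit 98342) (nat_lit 20) (.e (nat_lit 221215) (nat_lit 23) (.e (nat_lit 204859) (nat_lit 26) (.e (nat_lit 336017) (nat_lit 3) (.e (nat_lit 98334) (nat_lit 18) (.e (nat_lit 164183) (nat_lit 154) .nil))))))) (.g (nat_lit 4) .nil .nil)))) (.nd (nat_lit 5) 
(.lf (nat_lit 150621) (.g (nat_lit 2327) (.e (nat_lit 57379) (nat_lit 3) (.e (nat_lit 98342) (nat_lit 20) (.e (nat_lit 221214) (nat_lit 23) (.e (nat_lit 204863) (nat_lit 27) (.e (nat_lit 344118) (nat_lit 21) (.e (nat_lit 516117) (nat_lit 1) (.e (nat_lit 164183) (nat_lit 154) .nil))))))) (.g (nat_lit 4) .nil .nil))) 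
(.lf (nat_lit 150653) (.g (nat_lit 3167) (.e (nat_lit 57379) (nat_lit 3) (.e (nat_lit 98342) (nat_lit 20) (.e (nat_lit 221215) (nat_lit 23) (.e (nat_lit 204862) (nat_lit 27) (.e (nat_lit 344118) (nat_lit 21) (.e (nat_lit 516120) (nat_lit 1) (.e (nat_lit 164183) (nat_lit 154) .nil))))))) (.g (nat_lit 6) .nil .nil))))))) (.nd (nat_lit 2) (.nd (nat_lit 3) (.nd (nat_lit 4) (.nd (nat_lit 5) 
(.lf (nat_lit 150595) (.g (nat_lit 2245) (.e (nat_lit 57379) (nat_lit 3) (.e (nat_lit 98342) (nat_lit 20) (.e (nat_lit 221211) (nat_lit 22) (.e (nat_lit 196670) (nat_lit 14) (.e (nat_lit 73746) (nat_lit 3) (.e (nat_lit 516119) (nat_lit 1) (.e (nat_lit 164180) (nat_lit 154) .nil))))))) (.g (nat_lit 4) .nil .nil))) 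
(.lf (nat_lit 150627) (.g (nat_lit 2668) (.e (nat_lit 57379) (nat_lit 3) (.e (nat_lit 98342) (nat_lit 20) (.e (nat_lit 221214) (nat_lit 23) (.e (nat_lit 204863) (nat_lit 27) (.e (nat_lit 344120) (nat_lit 21) (.e (nat_lit 516115) (nat_lit 1) (.e (nat_lit 164183) (nat_lit 154) .nil))))))) (.g (nat_lit 4) .nil .nil)))) (.nd (nat_lit 5) 
(.lf (nat_lit 150611) (.g (nat_lit 3586) (.e (nat_lit 57379) (nat_lit 3) (.e (nat_lit 98342) (nat_lit 20) (.e (nat_lit 221214) (nat_lit 23) (.e (nat_lit 204862) (nat_lit 27) (.e (nat_lit 344117) (nat_lit 21) (.e (nat_lit 516115) (nat_lit 1) (.e (nat_lit 164183) (nat_lit 154) .nil))))))) (.g (nat_lit 6) .nil .nil))) 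
(.lf (nat_lit 150643) (.g (nat_lit 3165) (.e (nat_lit 57379) (nat_lit 3) (.e (nat_lit 98342) (nat_lit 20) (.e (nat_lit 221215) (nat_lit 23) (.e (nat_lit 204862) (nat_lit 27) (.e (nat_lit 344117) (nat_lit 21) (.e (nat_lit 516106) (nat_lit 0) (.e (nat_lit 2478) (nat_lit 157) (.e (nat_lit 6391) (nat_lit 339) .nil)))))))) (.g (nat_lit 5) .nil .nil))))) (.nd (nat_lit 4) (.nd (nat_lit 5) 
(.lf (nat_lit 150603) (.g (nat_lit 2931) (.e (nat_lit 57379) (nat_lit 3) (.e (nat_lit 98342) (nat_lit 20) (.e (nat_lit 221214) (nat_lit 23) (.e (nat_lit 204861) (nat_lit 26) (.e (nat_lit 336021) (nat_lit 3) (.e (nat_lit 98333) (nat_lit 18) (.e (nat_lit 164177) (nat_lit 154) .nil))))))) (.g (nat_lit 5) .nil .nil))) 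
(.lf (nat_lit 150635) (.g (nat_lit 2703) (.e (nat_lit 57379) (nat_lit 3) (.e (nat_lit 98342) (nat_lit 20) (.e (nat_lit 221215) (nat_lit 23) (.e (nat_lit 204859) (nat_lit 26) (.e (nat_lit 336017) (nat_lit 3) (.e (nat_lit 98333) (nat_lit 18) (.e (nat_lit 164183) (nat_lit 154) .nil))))))) (.g (nat_lit 4) .nil .nil)))) (.nd (nat_lit 5) 
(.lf (nat_lit 150619) (.g (nat_lit 2105) (.e (nat_lit 57379) (nat_lit 3) (.e (nat_lit 98342) (nat_lit 20) (.e (nat_lit 221214) (nat_lit 23) (.e (nat_lit 204863) (nat_lit 27) (.e (nat_lit 344118) (nat_lit 21) (.e (nat_lit 516115) (nat_lit 1) (.e (nat_lit 164177) (nat_lit 154) .nil))))))) (.g (nat_lit 4) .nil .nil))) 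
(.lf (nat_lit 150651) (.g (nat_lit 1998) (.e (nat_lit 57379) (nat_lit 3) (.e (nat_lit 98342) (nat_lit 20) (.e (nat_lit 221215) (nat_lit 23) (.e (nat_lit 204862) (nat_lit 27) (.e (nat_lit 344118) (nat_lit 21) (.e (nat_lit 516119) (nat_lit 1) (.e (nat_lit 164176) (nat_lit 154) .nil))))))) (.g (nat_lit 4) .nil .nil)))))) (.nd (nat_lit 3) (.nd (nat_lit 4) (.nd (nat_lit 5) 
(.lf (nat_lit 150599) (.g (nat_lit 2323) (.e (nat_lit 57379) (nat_lit 3) (.e (nat_lit 98342) (nat_lit 20) (.e (nat_lit 221212) (nat_lit 22) (.e (nat_lit 196681) (nat_lit 17) (.e (nat_lit 131096) (nat_lit 3) (.e (nat_lit 98334) (nat_lit 18) (.e (nat_lit 164180) (nat_lit 154) .nil))))))) (.g (nat_lit 4) .nil .nil))) 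
(.lf (nat_lit 150631) (.g (nat_lit 1022) (.e (nat_lit 57379) (nat_lit 3) (.e (nat_lit 98342) (nat_lit 20) (.e (nat_lit 221215) (nat_lit 23) (.e (nat_lit 204850) (nat_lit 26) .nil)))) .nil))) (.nd (nat_lit 5) 
(.lf (nat_lit 150615) (.g (nat_lit 4302) (.e (nat_lit 57379) (nat_lit 3) (.e (nat_lit 98342) (nat_lit 20) (.e (nat_lit 221214) (nat_lit 23) (.e (nat_lit 204863) (nat_lit 27) (.e (nat_lit 344117) (nat_lit 21) (.e (nat_lit 516115) (nat_lit 1) (.e (nat_lit 164183) (nat_lit 154) .nil))))))) (.g (nat_lit 7) .nil .nil))) 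
(.lf (nat_lit 150647) (.g (nat_lit 4247) (.e (nat_lit 57379) (nat_lit 3) (.e (nat_lit 98342) (nat_lit 20) (.e (nat_lit 221215) (nat_lit 23) (.e (nat_lit 204862) (nat_lit 27) (.e (nat_lit 344117) (nat_lit 21) (.e (nat_lit 516115) (nat_lit 1) (.e (nat_lit 164183) (nat_lit 154) .nil))))))) (.g (nat_lit 0) .nil .nil))))) (.nd (nat_lit 4) (.nd (nat_lit 5) 
(.lf (nat_lit 150607) (.g (nat_lit 3399) (.e (nat_lit 57379) (nat_lit 3) (.e (nat_lit 98342) (nat_lit 20) (.e (nat_lit 221214) (nat_lit 23) (.e (nat_lit 204861) (nat_lit 26) (.e (nat_lit 336027) (nat_lit 3) (.e (nat_lit 98333) (nat_lit 18) (.e (nat_lit 164183) (nat_lit 154) .nil))))))) (.g (nat_lit 5) .nil .nil))) 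
(.lf (nat_lit 150639) (.g (nat_lit 2535) (.e (nat_lit 57379) (nat_lit 3) (.e (nat_lit 98342) (nat_lit 20) (.e (nat_lit 221215) (nat_lit 23) (.e (nat_lit 204861) (nat_lit 26) (.e (nat_lit 336012) (nat_lit 2) (.e (nat_lit 90181) (nat_lit 16) (.e (nat_lit 229380) (nat_lit 0) (.e (nat_lit 6391) (nat_lit 339) .nil)))))))) (.g (nat_lit 4) .nil .nil)))) (.nd (nat_lit 5) 
(.lf (nat_lit 150623) (.g (nat_lit 3158) (.e (nat_lit 57379) (nat_lit 3) (.e (nat_lit 98342) (nat_lit 20) (.e (nat_lit 221214) (nat_lit 23) (.e (nat_lit 204863) (nat_lit 27) (.e (nat_lit 344118) (nat_lit 21) (.e (nat_lit 516119) (nat_lit 1) (.e (nat_lit 164179) (nat_lit 154) .nil))))))) (.g (nat_lit 5) .nil .nil))) 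
(.lf (nat_lit 150655) (.g (nat_lit 4400) (.e (nat_lit 57379) (nat_lit 3) (.e (nat_lit 98342) (nat_lit 20) (.e (nat_lit 221215) (nat_lit 23) (.e (nat_lit 204863) (nat_lit 27) (.e (nat_lit 344117) (nat_lit 21) (.e (nat_lit 516115) (nat_lit 1) (.e (nat_lit 164177) (nat_lit 154) .nil))))))) (.g (nat_lit 6) .nil .nil)))))))))

noncomputable def tv2008 : DT := (.nd (nat_lit 0) (.nd (nat_lit 1) (.nd (nat_lit 2) (.nd (nat_lit 3) (.nd (nat_lit 4) (.nd (nat_lit 5) 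
(.lf (nat_lit 150656) (.g (nat_lit 2983) (.e (nat_lit 57379) (nat_lit 3) (.e (nat_lit 98342) (nat_lit 20) (.e (nat_lit 221215) (nat_lit 23) (.e (nat_lit 204863) (nat_lit 27) (.e (nat_lit 344117) (nat_lit 21) (.e (nat_lit 516115) (nat_lit 1) (.e (nat_lit 164178) (nat_lit 154) .nil))))))) (.g (nat_lit 4) .nil .nil))) 
(.lf (nat_lit 150688) (.g (nat_lit 1910) (.e (nat_lit 57379) (nat_lit 3) (.e (nat_lit 98350) (nat_lit 24) (.e (nat_lit 409649) (nat_lit 18) (.e (nat_lit 303119) (nat_lit 3) .nil)))) .nil))) (.nd (nat_lit 5) 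
(.lf (nat_lit 150672) (.g (nat_lit 3661) (.e (nat_lit 57379) (nat_lit 3) (.e (nat_lit 98342) (nat_lit 20) (.e (nat_lit 221215) (nat_lit 23) (.e (nat_lit 204863) (nat_lit 27) (.e (nat_lit 344118) (nat_lit 21) (.e (nat_lit 516119) (nat_lit 1) (.e (nat_lit 164179) (nat_lit 154) .nil))))))) (.g (nat_lit 6) .nil .nil))) 
(.lf (nat_lit 150704) (.g (nat_lit 2492) (.e (nat_lit 57379) (nat_lit 3) (.e (nat_lit 98355) (nat_lit 26) (.e (nat_lit 426131) (nat_lit 3) (.e (nat_lit 204838) (nat_lit 20) (.e (nat_lit 114717) (nat_lit 23) (.e (nat_lit 98334) (nat_lit 18) (.e (nat_lit 164398) (nat_lit 256) .nil))))))) (.g (nat_lit 4) .nil .nil))))) (.nd (nat_lit 4) (.nd (nat_lit 5) 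
(.lf (nat_lit 150664) (.g (nat_lit 1956) (.e (nat_lit 57379) (nat_lit 3) (.e (nat_lit 98342) (nat_lit 20) (.e (nat_lit 221215) (nat_lit 23) (.e (nat_lit 204863) (nat_lit 27) (.e (nat_lit 344118) (nat_lit 21) .nil))))) .nil)) 
(.lf (nat_lit 150696) (.g (nat_lit 2588) (.e (nat_lit 57379) (nat_lit 3) (.e (nat_lit 98354) (nat_lit 26) (.e (nat_lit 426140) (nat_lit 3) (.e (nat_lit 204838) (nat_lit 20) (.e (nat_lit 114718) (nat_lit 23) (.e (nat_lit 98334) (nat_lit 18) (.e (nat_lit 164399) (nat_lit 256) .nil))))))) (.g (nat_lit 4) .nil .nil)))) (.nd (nat_lit 5) 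
(.lf (nat_lit 150680) (.g (nat_lit 2632) (.e (nat_lit 57379) (nat_lit 3) (.e (nat_lit 98342) (nat_lit 20) (.e (nat_lit 221215) (nat_lit 23) (.e (nat_lit 204863) (nat_lit 27) (.e (nat_lit 344120) (nat_lit 21) (.e (nat_lit 516119) (nat_lit 1) (.e (nat_lit 164179) (nat_lit 154) .nil))))))) (.g (nat_lit 4) .nil .nil))) 
(.lf (nat_lit 150712) (.g (nat_lit 2191) (.e (nat_lit 57379) (nat_lit 3) (.e (nat_lit 98356) (nat_lit 26) (.e (nat_lit 426131) (nat_lit 3) (.e (nat_lit 204837) (nat_lit 20) (.e (nat_lit 114717) (nat_lit 23) .nil))))) .nil))))) (.nd (nat_lit 3) (.nd (nat_lit 4) (.nd (nat_lit 5) 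
(.lf (nat_lit 150660) (.g (nat_lit 3824) (.e (nat_lit 57379) (nat_lit 3) (.e (nat_lit 98342) (nat_lit 20) (.e (nat_lit 221215) (nat_lit 23) (.e (nat_lit 204863) (nat_lit 27) (.e (nat_lit 344117) (nat_lit 21) (.e (nat_lit 516116) (nat_lit 1) (.e (nat_lit 164176) (nat_lit 154) .nil))))))) (.g (nat_lit 6) .nil .nil))) 
(.lf (nat_lit 150692) (.g (nat_lit 2267) (.e (nat_lit 57379) (nat_lit 3) (.e (nat_lit 98354) (nat_lit 26) (.e (nat_lit 426131) (nat_lit 3) (.e (nat_lit 204838) (nat_lit 20) (.e (nat_lit 114719) (nat_lit 23) (.e (nat_lit 98334) (nat_lit 18) (.e (nat_lit 164399) (nat_lit 256) .nil))))))) (.g (nat_lit 4) .nil .nil)))) (.nd (nat_lit 5) 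
(.lf (nat_lit 150676) (.g (nat_lit 2601) (.e (nat_lit 57379) (nat_lit 3) (.e (nat_lit 98342) (nat_lit 20) (.e (nat_lit 221215) (nat_lit 23) (.e (nat_lit 204863) (nat_lit 27) (.e (nat_lit 344120) (nat_lit 21) (.e (nat_lit 516115) (nat_lit 1) (.e (nat_lit 164177) (nat_lit 154) .nil))))))) (.g (nat_lit 4) .nil .nil))) 
(.lf (nat_lit 150708) (.g (nat_lit 2382) (.e (nat_lit 57379) (nat_lit 3) (.e (nat_lit 98355) (nat_lit 26) (.e (nat_lit 426131) (nat_lit 3) (.e (nat_lit 204838) (nat_lit 20) (.e (nat_lit 114719) (nat_lit 23) (.e (nat_lit 98333) (nat_lit 18) (.e (nat_lit 164398) (nat_lit 256) .nil))))))) (.g (nat_lit 4) .nil .nil))))) (.nd (nat_lit 4) (.nd (nat_lit 5) 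
(.lf (nat_lit 150668) (.g (nat_lit 2644) (.e (nat_lit 57379) (nat_lit 3) (.e (nat_lit 98342) (nat_lit 20) (.e (nat_lit 221215) (nat_lit 23) (.e (nat_lit 204863) (nat_lit 27) (.e (nat_lit 344118) (nat_lit 21) (.e (nat_lit 516117) (nat_lit 1) (.e (nat_lit 164183) (nat_lit 154) .nil))))))) (.g (nat_lit 4) .nil .nil))) 
(.lf (nat_lit 150700) (.g (nat_lit 2583) (.e (nat_lit 57379) (nat_lit 3) (.e (nat_lit 98354) (nat_lit 26) (.e (nat_lit 426140) (nat_lit 3) (.e (nat_lit 204838) (nat_lit 20) (.e (nat_lit 114719) (nat_lit 23) (.e (nat_lit 98334) (nat_lit 18) (.e (nat_lit 164399) (nat_lit 256) .nil))))))) (.g (nat_lit 4) .nil .nil)))) (.nd (nat_lit 5) 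
(.lf (nat_lit 150684) (.g (nat_lit 579) (.e (nat_lit 57379) (nat_lit 3) (.e (nat_lit 98350) (nat_lit 24) (.e (nat_lit 409641) (nat_lit 17) .nil))) .nil)) 
(.lf (nat_lit 150716) (.g (nat_lit 2248) (.e (nat_lit 57379) (nat_lit 3) (.e (nat_lit 98356) (nat_lit 26) (.e (nat_lit 426131) (nat_lit 3) (.e (nat_lit 204838) (nat_lit 20) (.e (nat_lit 114702) (nat_lit 20) .nil))))) .nil)))))) (.nd (nat_lit 2) (.nd (nat_lit 3) (.nd (nat_lit 4) (.nd (nat_lit 5) 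
(.lf (nat_lit 150658) (.g (nat_lit 4031) (.e (nat_lit 57379) (nat_lit 3) (.e (nat_lit 98342) (nat_lit 20) (.e (nat_lit 221215) (nat_lit 23) (.e (nat_lit 204863) (nat_lit 27) (.e (nat_lit 344117) (nat_lit 21) (.e (nat_lit 516115) (nat_lit 1) (.e (nat_lit 164182) (nat_lit 154) .nil))))))) (.g (nat_lit 6) .nil .nil))) 
(.lf (nat_lit 150690) (.g (nat_lit 2332) (.e (nat_lit 57379) (nat_lit 3) (.e (nat_lit 98354) (nat_lit 26) (.e (nat_lit 426131) (nat_lit 3) (.e (nat_lit 204838) (nat_lit 20) (.e (nat_lit 114718) (nat_lit 23) (.e (nat_lit 98334) (nat_lit 18) (.e (nat_lit 164399) (nat_lit 256) .nil))))))) (.g (nat_lit 4) .nil .nil)))) (.nd (nat_lit 5) 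
(.lf (nat_lit 150674) (.g (nat_lit 4267) (.e (nat_lit 57379) (nat_lit 3) (.e (nat_lit 98342) (nat_lit 20) (.e (nat_lit 221215) (nat_lit 23) (.e (nat_lit 204863) (nat_lit 27) (.e (nat_lit 344118) (nat_lit 21) (.e (nat_lit 516120) (nat_lit 1) (.e (nat_lit 164183) (nat_lit 154) .nil))))))) (.g (nat_lit 7) .nil .nil))) 
(.lf (nat_lit 150706) (.g (nat_lit 2633) (.e (nat_lit 57379) (nat_lit 3) (.e (nat_lit 98355) (nat_lit 26) (.e (nat_lit 426131) (nat_lit 3) (.e (nat_lit 204838) (nat_lit 20) (.e (nat_lit 114718) (nat_lit 23) (.e (nat_lit 98333) (nat_lit 18) (.e (nat_lit 164399) (nat_lit 256) .nil))))))) (.g (nat_lit 4) .nil .nil))))) (.nd (nat_lit 4) (.nd (nat_lit 5) 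
(.lf (nat_lit 150666) (.g (nat_lit 2597) (.e (nat_lit 57379) (nat_lit 3) (.e (nat_lit 98342) (nat_lit 20) (.e (nat_lit 221215) (nat_lit 23) (.e (nat_lit 204863) (nat_lit 27) (.e (nat_lit 344118) (nat_lit 21) (.e (nat_lit 516115) (nat_lit 1) (.e (nat_lit 164182) (nat_lit 154) .nil))))))) (.g (nat_lit 4) .nil .nil))) 
(.lf (nat_lit 150698) (.g (nat_lit 2618) (.e (nat_lit 57379) (nat_lit 3) (.e (nat_lit 98354) (nat_lit 26) (.e (nat_lit 426140) (nat_lit 3) (.e (nat_lit 204838) (nat_lit 20) (.e (nat_lit 114719) (nat_lit 23) (.e (nat_lit 98333) (nat_lit 18) (.e (nat_lit 164399) (nat_lit 256) .nil))))))) (.g (nat_lit 4) .nil .nil)))) (.nd (nat_lit 5) 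
(.lf (nat_lit 150682) (.g (nat_lit 2929) (.e (nat_lit 57379) (nat_lit 3) (.e (nat_lit 98342) (nat_lit 20) (.e (nat_lit 221215) (nat_lit 23) (.e (nat_lit 204880) (nat_lit 32) (.e (nat_lit 385066) (nat_lit 26) (.e (nat_lit 532503) (nat_lit 1) (.e (nat_lit 57847) (nat_lit 252) .nil))))))) (.g (nat_lit 5) .nil .nil))) 
(.lf (nat_lit 150714) (.g (nat_lit 2885) (.e (nat_lit 57379) (nat_lit 3) (.e (nat_lit 98356) (nat_lit 26) (.e (nat_lit 426131) (nat_lit 3) (.e (nat_lit 204837) (nat_lit 20) (.e (nat_lit 114719) (nat_lit 23) (.e (nat_lit 98333) (nat_lit 18) (.e (nat_lit 164399) (nat_lit 256) .nil))))))) (.g (nat_lit 5) .nil .nil)))))) (.nd (nat_lit 3) (.nd (nat_lit 4) (.nd (nat_lit 5) 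
(.lf (nat_lit 150662) (.g (nat_lit 4773) (.e (nat_lit 57379) (nat_lit 3) (.e (nat_lit 98342) (nat_lit 20) (.e (nat_lit 221215) (nat_lit 23) (.e (nat_lit 204863) (nat_lit 27) (.e (nat_lit 344117) (nat_lit 21) (.e (nat_lit 516116) (nat_lit 1) (.e (nat_lit 164183) (nat_lit 154) .nil))))))) (.g (nat_lit 7) .nil .nil))) 
(.lf (nat_lit 150694) (.g (nat_lit 2632) (.e (nat_lit 57379) (nat_lit 3) (.e (nat_lit 98354) (nat_lit 26) (.e (nat_lit 426140) (nat_lit 3) (.e (nat_lit 204838) (nat_lit 20) (.e (nat_lit 114718) (nat_lit 23) (.e (nat_lit 98333) (nat_lit 18) (.e (nat_lit 164398) (nat_lit 256) .nil))))))) (.g (nat_lit 4) .nil .nil)))) (.nd (nat_lit 5) 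
(.lf (nat_lit 150678) (.g (nat_lit 2890) (.e (nat_lit 57379) (nat_lit 3) (.e (nat_lit 98342) (nat_lit 20) (.e (nat_lit 221215) (nat_lit 23) (.e (nat_lit 204863) (nat_lit 27) (.e (nat_lit 344120) (nat_lit 21) (.e (nat_lit 516115) (nat_lit 1) (.e (nat_lit 164183) (nat_lit 154) .nil))))))) (.g (nat_lit 5) .nil .nil))) 
(.lf (nat_lit 150710) (.g (nat_lit 2473) (.e (nat_lit 57379) (nat_lit 3) (.e (nat_lit 98355) (nat_lit 26) (.e (nat_lit 426131) (nat_lit 3) (.e (nat_lit 204838) (nat_lit 20) (.e (nat_lit 114719) (nat_lit 23) (.e (nat_lit 98334) (nat_lit 18) (.e (nat_lit 164399) (nat_lit 256) .nil))))))) (.g (nat_lit 4) .nil .nil))))) (.nd (nat_lit 4) (.nd (nat_lit 5) 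
(.lf (nat_lit 150670) (.g (nat_lit 3348) (.e (nat_lit 57379) (nat_lit 3) (.e (nat_lit 98342) (nat_lit 20) (.e (nat_lit 221215) (nat_lit 23) (.e (nat_lit 204863) (nat_lit 27) (.e (nat_lit 344118) (nat_lit 21) (.e (nat_lit 516119) (nat_lit 1) (.e (nat_lit 164176) (nat_lit 154) .nil))))))) (.g (nat_lit 6) .nil .nil))) 
(.lf (nat_lit 150702) (.g (nat_lit 2455) (.e (nat_lit 57379) (nat_lit 3) (.e (nat_lit 98355) (nat_lit 26) (.e (nat_lit 426131) (nat_lit 3) (.e (nat_lit 204837) (nat_lit 20) (.e (nat_lit 114718) (nat_lit 23) (.e (nat_lit 98334) (nat_lit 18) (.e (nat_lit 164398) (nat_lit 256) .nil))))))) (.g (nat_lit 4) .nil .nil)))) (.nd (nat_lit 5) 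
(.lf (nat_lit 150686) (.g (nat_lit 3621) (.e (nat_lit 57379) (nat_lit 3) (.e (nat_lit 98350) (nat_lit 24) (.e (nat_lit 409646) (nat_lit 18) (.e (nat_lit 303119) (nat_lit 3) (.e (nat_lit 204863) (nat_lit 27) (.e (nat_lit 344091) (nat_lit 18) (.e (nat_lit 4413) (nat_lit 259) .nil))))))) (.g (nat_lit 4) .nil .nil))) 
(.lf (nat_lit 150718) (.g (nat_lit 4030) (.e (nat_lit 57379) (nat_lit 3) (.e (nat_lit 98356) (nat_lit 26) (.e (nat_lit 426131) (nat_lit 3) (.e (nat_lit 204838) (nat_lit 20) (.e (nat_lit 114718) (nat_lit 23) (.e (nat_lit 98333) (nat_lit 18) (.e (nat_lit 164398) (nat_lit 256) .nil))))))) (.g (nat_lit 6) .nil .nil)))))))) 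
(.nd (nat_lit 1) (.nd (nat_lit 2) (.nd (nat_lit 3) (.nd (nat_lit 4) (.nd (nat_lit 5) 
(.lf (nat_lit 150657) (.g (nat_lit 4972) (.e (nat_lit 57379) (nat_lit 3) (.e (nat_lit 98342) (nat_lit 20) (.e (nat_lit 221215) (nat_lit 23) (.e (nat_lit 204863) (nat_lit 27) (.e (nat_lit 344117) (nat_lit 21) (.e (nat_lit 516115) (nat_lit 1) (.e (nat_lit 164179) (nat_lit 154) .nil))))))) (.g (nat_lit 7) .nil .nil))) 
(.lf (nat_lit 150689) (.g (nat_lit 2427) (.e (nat_lit 57379) (nat_lit 3) (.e (nat_lit 98354) (nat_lit 26) (.e (nat_lit 426131) (nat_lit 3) (.e (nat_lit 204838) (nat_lit 20) (.e (nat_lit 114718) (nat_lit 23) (.e (nat_lit 98333) (nat_lit 18) (.e (nat_lit 164399) (nat_lit 256) .nil))))))) (.g (nat_lit 4) .nil .nil)))) (.nd (nat_lit 5) 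
(.lf (nat_lit 150673) (.g (nat_lit 2325) (.e (nat_lit 57379) (nat_lit 3) (.e (nat_lit 98342) (nat_lit 20) (.e (nat_lit 221215) (nat_lit 23) (.e (nat_lit 204863) (nat_lit 27) (.e (nat_lit 344118) (nat_lit 21) (.e (nat_lit 516119) (nat_lit 1) (.e (nat_lit 164180) (nat_lit 154) .nil))))))) (.g (nat_lit 4) .nil .nil))) 
(.lf (nat_lit 150705) (.g (nat_lit 2480) (.e (nat_lit 57379) (nat_lit 3) (.e (nat_lit 98355) (nat_lit 26) (.e (nat_lit 426131) (nat_lit 3) (.e (nat_lit 204838) (nat_lit 20) (.e (nat_lit 114718) (nat_lit 23) (.e (nat_lit 98333) (nat_lit 18) (.e (nat_lit 164398) (nat_lit 256) .nil))))))) (.g (nat_lit 4) .nil .nil))))) (.nd (nat_lit 4) (.nd (nat_lit 5) 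
(.lf (nat_lit 150665) (.g (nat_lit 2774) (.e (nat_lit 57379) (nat_lit 3) (.e (nat_lit 98342) (nat_lit 20) (.e (nat_lit 221215) (nat_lit 23) (.e (nat_lit 204863) (nat_lit 27) (.e (nat_lit 344118) (nat_lit 21) (.e (nat_lit 516115) (nat_lit 1) (.e (nat_lit 164177) (nat_lit 154) .nil))))))) (.g (nat_lit 4) .nil .nil))) 
(.lf (nat_lit 150697) (.g (nat_lit 2582) (.e (nat_lit 57379) (nat_lit 3) (.e (nat_lit 98354) (nat_lit 26) (.e (nat_lit 426140) (nat_lit 3) (.e (nat_lit 204838) (nat_lit 20) (.e (nat_lit 114719) (nat_lit 23) (.e (nat_lit 98333) (nat_lit 18) (.e (nat_lit 164398) (nat_lit 256) .nil))))))) (.g (nat_lit 4) .nil .nil)))) (.nd (nat_lit 5) 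
(.lf (nat_lit 150681) (.g (nat_lit 4385) (.e (nat_lit 57379) (nat_lit 3) (.e (nat_lit 98342) (nat_lit 20) (.e (nat_lit 221215) (nat_lit 23) (.e (nat_lit 204880) (nat_lit 32) (.e (nat_lit 385066) (nat_lit 26) (.e (nat_lit 532499) (nat_lit 1) (.e (nat_lit 57849) (nat_lit 252) .nil))))))) (.g (nat_lit 6) .nil .nil))) 
(.lf (nat_lit 150713) (.g (nat_lit 2312) (.e (nat_lit 57379) (nat_lit 3) (.e (nat_lit 98356) (nat_lit 26) (.e (nat_lit 426131) (nat_lit 3) (.e (nat_lit 204837) (nat_lit 20) (.e (nat_lit 114717) (nat_lit 23) (.e (nat_lit 98333) (nat_lit 18) (.e (nat_lit 164399) (nat_lit 256) .nil))))))) (.g (nat_lit 4) .nil .nil)))))) (.nd (nat_lit 3) (.nd (nat_lit 4) (.nd (nat_lit 5) 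
(.lf (nat_lit 150661) (.g (nat_lit 4373) (.e (nat_lit 57379) (nat_lit 3) (.e (nat_lit 98342) (nat_lit 20) (.e (nat_lit 221215) (nat_lit 23) (.e (nat_lit 204863) (nat_lit 27) (.e (nat_lit 344117) (nat_lit 21) (.e (nat_lit 516116) (nat_lit 1) (.e (nat_lit 164181) (nat_lit 154) .nil))))))) (.g (nat_lit 6) .nil .nil))) 
(.lf (nat_lit 150693) (.g (nat_lit 1029) (.e (nat_lit 57379) (nat_lit 3) (.e (nat_lit 98354) (nat_lit 26) (.e (nat_lit 426140) (nat_lit 3) (.e (nat_lit 204838) (nat_lit 20) .nil)))) .nil))) (.nd (nat_lit 5) 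
(.lf (nat_lit 150677) (.g (nat_lit 2442) (.e (nat_lit 57379) (nat_lit 3) (.e (nat_lit 98342) (nat_lit 20) (.e (nat_lit 221215) (nat_lit 23) (.e (nat_lit 204863) (nat_lit 27) (.e (nat_lit 344120) (nat_lit 21) (.e (nat_lit 516115) (nat_lit 1) (.e (nat_lit 164182) (nat_lit 154) .nil))))))) (.g (nat_lit 4) .nil .nil))) 
(.lf (nat_lit 150709) (.g (nat_lit 2536) (.e (nat_lit 57379) (nat_lit 3) (.e (nat_lit 98355) (nat_lit 26) (.e (nat_lit 426131) (nat_lit 3) (.e (nat_lit 204838) (nat_lit 20) (.e (nat_lit 114719) (nat_lit 23) (.e (nat_lit 98333) (nat_lit 18) (.e (nat_lit 164399) (nat_lit 256) .nil))))))) (.g (nat_lit 4) .nil .nil))))) (.nd (nat_lit 4) (.nd (nat_lit 5) 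
(.lf (nat_lit 150669) (.g (nat_lit 2081) (.e (nat_lit 57379) (nat_lit 3) (.e (nat_lit 98342) (nat_lit 20) (.e (nat_lit 221215) (nat_lit 23) (.e (nat_lit 204863) (nat_lit 27) (.e (nat_lit 344118) (nat_lit 21) (.e (nat_lit 516118) (nat_lit 1) (.e (nat_lit 164183) (nat_lit 154) .nil))))))) (.g (nat_lit 4) .nil .nil))) 
(.lf (nat_lit 150701) (.g (nat_lit 1919) (.e (nat_lit 57379) (nat_lit 3) (.e (nat_lit 98354) (nat_lit 26) (.e (nat_lit 426201) (nat_lit 9) (.e (nat_lit 426568) (nat_lit 34) (.e (nat_lit 393251) (nat_lit 18) (.e (nat_lit 164399) (nat_lit 256) .nil)))))) (.g (nat_lit 4) .nil .nil)))) (.nd (nat_lit 5) 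
(.lf (nat_lit 150685) (.g (nat_lit 3491) (.e (nat_lit 57379) (nat_lit 3) (.e (nat_lit 98350) (nat_lit 24) (.e (nat_lit 409646) (nat_lit 18) (.e (nat_lit 303119) (nat_lit 3) (.e (nat_lit 204863) (nat_lit 27) (.e (nat_lit 344090) (nat_lit 18) (.e (nat_lit 4413) (nat_lit 259) .nil))))))) (.g (nat_lit 4) .nil .nil))) 
(.lf (nat_lit 150717) (.g (nat_lit 3452) (.e (nat_lit 57379) (nat_lit 3) (.e (nat_lit 98356) (nat_lit 26) (.e (nat_lit 426131) (nat_lit 3) (.e (nat_lit 204838) (nat_lit 20) (.e (nat_lit 114717) (nat_lit 23) (.e (nat_lit 98333) (nat_lit 18) (.e (nat_lit 164399) (nat_lit 256) .nil))))))) (.g (nat_lit 6) .nil .nil))))))) (.nd (nat_lit 2) (.nd (nat_lit 3) (.nd (nat_lit 4) (.nd (nat_lit 5) 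
(.lf (nat_lit 150659) (.g (nat_lit 4614) (.e (nat_lit 57379) (nat_lit 3) (.e (nat_lit 98342) (nat_lit 20) (.e (nat_lit 221215) (nat_lit 23) (.e (nat_lit 204863) (nat_lit 27) (.e (nat_lit 344117) (nat_lit 21) (.e (nat_lit 516115) (nat_lit 1) (.e (nat_lit 164183) (nat_lit 154) .nil))))))) (.g (nat_lit 7) .nil .nil))) 
(.lf (nat_lit 150691) (.g (nat_lit 2330) (.e (nat_lit 57379) (nat_lit 3) (.e (nat_lit 98354) (nat_lit 26) (.e (nat_lit 426131) (nat_lit 3) (.e (nat_lit 204838) (nat_lit 20) (.e (nat_lit 114719) (nat_lit 23) (.e (nat_lit 98333) (nat_lit 18) (.e (nat_lit 164399) (nat_lit 256) .nil))))))) (.g (nat_lit 4) .nil .nil)))) (.nd (nat_lit 5) 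
(.lf (nat_lit 150675) (.g (nat_lit 1984) (.e (nat_lit 57379) (nat_lit 3) (.e (nat_lit 98342) (nat_lit 20) (.e (nat_lit 221215) (nat_lit 23) (.e (nat_lit 204863) (nat_lit 27) (.e (nat_lit 344120) (nat_lit 21) .nil))))) .nil)) 
(.lf (nat_lit 150707) (.g (nat_lit 2538) (.e (nat_lit 57379) (nat_lit 3) (.e (nat_lit 98355) (nat_lit 26) (.e (nat_lit 426131) (nat_lit 3) (.e (nat_lit 204838) (nat_lit 20) (.e (nat_lit 114718) (nat_lit 23) (.e (nat_lit 98334) (nat_lit 18) (.e (nat_lit 164399) (nat_lit 256) .nil))))))) (.g (nat_lit 4) .nil .nil))))) (.nd (nat_lit 4) (.nd (nat_lit 5) 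
(.lf (nat_lit 150667) (.g (nat_lit 3127) (.e (nat_lit 57379) (nat_lit 3) (.e (nat_lit 98342) (nat_lit 20) (.e (nat_lit 221215) (nat_lit 23) (.e (nat_lit 204863) (nat_lit 27) (.e (nat_lit 344118) (nat_lit 21) (.e (nat_lit 516115) (nat_lit 1) (.e (nat_lit 164183) (nat_lit 154) .nil))))))) (.g (nat_lit 5) .nil .nil))) 
(.lf (nat_lit 150699) (.g (nat_lit 3338) (.e (nat_lit 57379) (nat_lit 3) (.e (nat_lit 98354) (nat_lit 26) (.e (nat_lit 426140) (nat_lit 3) (.e (nat_lit 204838) (nat_lit 20) (.e (nat_lit 114719) (nat_lit 23) (.e (nat_lit 98334) (nat_lit 18) (.e (nat_lit 164398) (nat_lit 256) .nil))))))) (.g (nat_lit 5) .nil .nil)))) (.nd (nat_lit 5) 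
(.lf (nat_lit 150683) (.g (nat_lit 5095) (.e (nat_lit 57379) (nat_lit 3) (.e (nat_lit 98342) (nat_lit 20) (.e (nat_lit 221215) (nat_lit 23) (.e (nat_lit 204880) (nat_lit 32) (.e (nat_lit 385068) (nat_lit 26) (.e (nat_lit 532499) (nat_lit 1) (.e (nat_lit 57847) (nat_lit 252) .nil))))))) (.g (nat_lit 7) .nil .nil))) 
(.lf (nat_lit 150715) (.g (nat_lit 2954) (.e (nat_lit 57379) (nat_lit 3) (.e (nat_lit 98356) (nat_lit 26) (.e (nat_lit 426131) (nat_lit 3) (.e (nat_lit 204837) (nat_lit 20) (.e (nat_lit 114719) (nat_lit 23) (.e (nat_lit 98334) (nat_lit 18) (.e (nat_lit 164399) (nat_lit 256) .nil))))))) (.g (nat_lit 5) .nil .nil)))))) (.nd (nat_lit 3) (.nd (nat_lit 4) (.nd (nat_lit 5) 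
(.lf (nat_lit 150663) (.g (nat_lit 3216) (.e (nat_lit 57379) (nat_lit 3) (.e (nat_lit 98342) (nat_lit 20) (.e (nat_lit 221215) (nat_lit 23) (.e (nat_lit 204863) (nat_lit 27) (.e (nat_lit 344117) (nat_lit 21) (.e (nat_lit 516118) (nat_lit 1) (.e (nat_lit 164183) (nat_lit 154) .nil))))))) (.g (nat_lit 5) .nil .nil))) 
(.lf (nat_lit 150695) (.g (nat_lit 2667) (.e (nat_lit 57379) (nat_lit 3) (.e (nat_lit 98354) (nat_lit 26) (.e (nat_lit 426140) (nat_lit 3) (.e (nat_lit 204838) (nat_lit 20) (.e (nat_lit 114718) (nat_lit 23) (.e (nat_lit 98333) (nat_lit 18) (.e (nat_lit 164399) (nat_lit 256) .nil))))))) (.g (nat_lit 4) .nil .nil)))) (.nd (nat_lit 5) 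
(.lf (nat_lit 150679) (.g (nat_lit 2192) (.e (nat_lit 57379) (nat_lit 3) (.e (nat_lit 98342) (nat_lit 20) (.e (nat_lit 221215) (nat_lit 23) (.e (nat_lit 204863) (nat_lit 27) (.e (nat_lit 344120) (nat_lit 21) (.e (nat_lit 516118) (nat_lit 1) (.e (nat_lit 164183) (nat_lit 154) .nil))))))) (.g (nat_lit 4) .nil .nil))) 
(.lf (nat_lit 150711) (.g (nat_lit 1307) (.e (nat_lit 57379) (nat_lit 3) (.e (nat_lit 98356) (nat_lit 26) (.e (nat_lit 426131) (nat_lit 3) (.e (nat_lit 204837) (nat_lit 20) .nil)))) .nil)))) (.nd (nat_lit 4) (.nd (nat_lit 5) 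
(.lf (nat_lit 150671) (.g (nat_lit 2288) (.e (nat_lit 57379) (nat_lit 3) (.e (nat_lit 98342) (nat_lit 20) (.e (nat_lit 221215) (nat_lit 23) (.e (nat_lit 204863) (nat_lit 27) (.e (nat_lit 344118) (nat_lit 21) (.e (nat_lit 516119) (nat_lit 1) (.e (nat_lit 164177) (nat_lit 154) .nil))))))) (.g (nat_lit 4) .nil .nil))) 
(.lf (nat_lit 150703) (.g (nat_lit 1937) (.e (nat_lit 57379) (nat_lit 3) (.e (nat_lit 98355) (nat_lit 26) (.e (nat_lit 426131) (nat_lit 3) (.e (nat_lit 204837) (nat_lit 20) (.e (nat_lit 114718) (nat_lit 23) (.e (nat_lit 98334) (nat_lit 18) (.e (nat_lit 164399) (nat_lit 256) .nil))))))) (.g (nat_lit 4) .nil .nil)))) (.nd (nat_lit 5) 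
(.lf (nat_lit 150687) (.g (nat_lit 4120) (.e (nat_lit 57379) (nat_lit 3) (.e (nat_lit 98350) (nat_lit 24) (.e (nat_lit 409646) (nat_lit 18) (.e (nat_lit 303119) (nat_lit 3) (.e (nat_lit 204863) (nat_lit 27) (.e (nat_lit 344096) (nat_lit 18) (.e (nat_lit 4409) (nat_lit 259) .nil))))))) (.g (nat_lit 4) .nil .nil))) 
(.lf (nat_lit 150719) (.g (nat_lit 4154) (.e (nat_lit 57379) (nat_lit 3) (.e (nat_lit 98356) (nat_lit 26) (.e (nat_lit 426131) (nat_lit 3) (.e (nat_lit 204838) (nat_lit 20) (.e (nat_lit 114718) (nat_lit 23) (.e (nat_lit 98333) (nat_lit 18) (.e (nat_lit 164399) (nat_lit 256) .nil))))))) (.g (nat_lit 6) .nil .nil)))))))))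

noncomputable def tv2009 : DT := (.nd (nat_lit 0) (.nd (nat_lit 1) (.nd (nat_lit 2) (.nd (nat_lit 3) (.nd (nat_lit 4) (.nd (nat_lit 5) 
(.lf (nat_lit 150720) (.g (nat_lit 4599) (.e (nat_lit 57379) (nat_lit 3) (.e (nat_lit 98356) (nat_lit 26) (.e (nat_lit 426131) (nat_lit 3) (.e (nat_lit 204838) (nat_lit 20) (.e (nat_lit 114718) (nat_lit 23) (.e (nat_lit 98334) (nat_lit 18) (.e (nat_lit 164398) (nat_lit 256) .nil))))))) (.g (nat_lit 7) .nil .nil))) 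
(.lf (nat_lit 150752) (.g (nat_lit 4610) (.e (nat_lit 57379) (nat_lit 3) (.e (nat_lit 98356) (nat_lit 26) (.e (nat_lit 426438) (nat_lit 18) (.e (nat_lit 98358) (nat_lit 26) (.e (nat_lit 426131) (nat_lit 3) (.e (nat_lit 204830) (nat_lit 18) (.e (nat_lit 65280) (nat_lit 211) .nil))))))) (.g (nat_lit 6) .nil .nil)))) (.nd (nat_lit 5) 
(.lf (nat_lit 150736) (.g (nat_lit 4045) (.e (nat_lit 57379) (nat_lit 3) (.e (nat_lit 98356) (nat_lit 26) (.e (nat_lit 426428) (nat_lit 17) (.e (nat_lit 90170) (nat_lit 13) (.e (nat_lit 172065) (nat_lit 3) (.e (nat_lit 204830) (nat_lit 18) (.e (nat_lit 65280) (nat_lit 211) .nil))))))) (.g (nat_lit 6) .nil .nil))) 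
(.lf (nat_lit 150768) (.g (nat_lit 2850) (.e (nat_lit 57379) (nat_lit 3) (.e (nat_lit 98365) (nat_lit 26) (.e (nat_lit 426116) (nat_lit 2) (.e (nat_lit 196654) (nat_lit 11) (.e (nat_lit 16412) (nat_lit 2) (.e (nat_lit 196660) (nat_lit 12) (.e (nat_lit 57347) (nat_lit 0) (.e (nat_lit 7695) (nat_lit 412) .nil)))))))) (.g (nat_lit 5) .nil .nil))))) (.nd (nat_lit 4) (.nd (nat_lit 5) 
(.lf (nat_lit 150728) (.g (nat_lit 682) (.e (nat_lit 57379) (nat_lit 3) (.e (nat_lit 98356) (nat_lit 26) (.e (nat_lit 426323) (nat_lit 13) .nil))) .nil)) 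
(.lf (nat_lit 150760) (.g (nat_lit 2221) (.e (nat_lit 57379) (nat_lit 3) (.e (nat_lit 98363) (nat_lit 26) (.e (nat_lit 426129) (nat_lit 3) (.e (nat_lit 204838) (nat_lit 20) (.e (nat_lit 114719) (nat_lit 23) (.e (nat_lit 98334) (nat_lit 18) (.e (nat_lit 164398) (nat_lit 256) .nil))))))) (.g (nat_lit 4) .nil .nil)))) (.nd (nat_lit 5) 
(.lf (nat_lit 150744) (.g (nat_lit 2983) (.e (nat_lit 57379) (nat_lit 3) (.e (nat_lit 98356) (nat_lit 26) (.e (nat_lit 426428) (nat_lit 17) (.e (nat_lit 90185) (nat_lit 17) (.e (nat_lit 237592) (nat_lit 3) (.e (nat_lit 212736) (nat_lit 1) (.e (nat_lit 164399) (nat_lit 256) .nil))))))) (.g (nat_lit 4) .nil .nil))) 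
(.lf (nat_lit 150776) (.g (nat_lit 2662) (.e (nat_lit 57379) (nat_lit 3) (.e (nat_lit 98365) (nat_lit 26) (.e (nat_lit 426116) (nat_lit 2) (.e (nat_lit 196654) (nat_lit 11) (.e (nat_lit 16416) (nat_lit 3) (.e (nat_lit 204817) (nat_lit 17) (.e (nat_lit 996) (nat_lit 81) (.e (nat_lit 7695) (nat_lit 412) .nil)))))))) (.g (nat_lit 4) .nil .nil)))))) (.nd (nat_lit 3) (.nd (nat_lit 4) (.nd (nat_lit 5) 
(.lf (nat_lit 150724) (.g (nat_lit 4057) (.e (nat_lit 57379) (nat_lit 3) (.e (nat_lit 98356) (nat_lit 26) (.e (nat_lit 426131) (nat_lit 3) (.e (nat_lit 204838) (nat_lit 20) (.e (nat_lit 114719) (nat_lit 23) (.e (nat_lit 98333) (nat_lit 18) (.e (nat_lit 164399) (nat_lit 256) .nil))))))) (.g (nat_lit 6) .nil .nil))) 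
(.lf (nat_lit 150756) (.g (nat_lit 3743) (.e (nat_lit 57379) (nat_lit 3) (.e (nat_lit 98356) (nat_lit 26) (.e (nat_lit 426438) (nat_lit 18) (.e (nat_lit 98377) (nat_lit 30) (.e (nat_lit 458789) (nat_lit 23) (.e (nat_lit 532501) (nat_lit 1) (.e (nat_lit 65280) (nat_lit 211) .nil))))))) (.g (nat_lit 5) .nil .nil)))) (.nd (nat_lit 5) 
(.lf (nat_lit 150740) (.g (nat_lit 3955) (.e (nat_lit 57379) (nat_lit 3) (.e (nat_lit 98356) (nat_lit 26) (.e (nat_lit 426428) (nat_lit 17) (.e (nat_lit 90174) (nat_lit 14) (.e (nat_lit 180243) (nat_lit 5) (.e (nat_lit 532501) (nat_lit 1) (.e (nat_lit 65280) (nat_lit 211) .nil))))))) (.g (nat_lit 6) .nil .nil))) 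
(.lf (nat_lit 150772) (.g (nat_lit 3260) (.e (nat_lit 57379) (nat_lit 3) (.e (nat_lit 98365) (nat_lit 26) (.e (nat_lit 426116) (nat_lit 2) (.e (nat_lit 196654) (nat_lit 11) (.e (nat_lit 16412) (nat_lit 2) (.e (nat_lit 196677) (nat_lit 16) (.e (nat_lit 122881) (nat_lit 0) (.e (nat_lit 7695) (nat_lit 412) .nil)))))))) (.g (nat_lit 5) .nil .nil))))) (.nd (nat_lit 4) (.nd (nat_lit 5) 
(.lf (nat_lit 150732) (.g (nat_lit 2116) (.e (nat_lit 57379) (nat_lit 3) (.e (nat_lit 98356) (nat_lit 26) (.e (nat_lit 426323) (nat_lit 13) (.e (nat_lit 483337) (nat_lit 9) (.e (nat_lit 426100) (nat_lit 1) (.e (nat_lit 164399) (nat_lit 256) .nil)))))) (.g (nat_lit 4) .nil .nil))) 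
(.lf (nat_lit 150764) (.g (nat_lit 1500) (.e (nat_lit 57379) (nat_lit 3) (.e (nat_lit 98363) (nat_lit 26) (.e (nat_lit 426321) (nat_lit 13) (.e (nat_lit 483337) (nat_lit 9) (.e (nat_lit 426031) (nat_lit 0) (.e (nat_lit 2466) (nat_lit 157) (.e (nat_lit 5937) (nat_lit 322) .nil))))))) (.g (nat_lit 4) .nil .nil)))) (.nd (nat_lit 5) 
(.lf (nat_lit 150748) (.g (nat_lit 2150) (.e (nat_lit 57379) (nat_lit 3) (.e (nat_lit 98356) (nat_lit 26) (.e (nat_lit 426436) (nat_lit 18) (.e (nat_lit 98376) (nat_lit 30) (.e (nat_lit 458789) (nat_lit 23) (.e (nat_lit 540416) (nat_lit 18) (.e (nat_lit 164399) (nat_lit 256) .nil))))))) (.g (nat_lit 4) .nil .nil))) 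
(.lf (nat_lit 150780) (.g (nat_lit 4463) (.e (nat_lit 57379) (nat_lit 3) (.e (nat_lit 98365) (nat_lit 26) (.e (nat_lit 426116) (nat_lit 2) (.e (nat_lit 196654) (nat_lit 11) (.e (nat_lit 16416) (nat_lit 3) (.e (nat_lit 204830) (nat_lit 18) (.e (nat_lit 65280) (nat_lit 166) .nil))))))) (.g (nat_lit 6) .nil .nil))))))) (.nd (nat_lit 2) (.nd (nat_lit 3) (.nd (nat_lit 4) (.nd (nat_lit 5) 
(.lf (nat_lit 150722) (.g (nat_lit 2715) (.e (nat_lit 57379) (nat_lit 3) (.e (nat_lit 98356) (nat_lit 26) (.e (nat_lit 426131) (nat_lit 3) (.e (nat_lit 204838) (nat_lit 20) (.e (nat_lit 114719) (nat_lit 23) (.e (nat_lit 98332) (nat_lit 18) (.e (nat_lit 164399) (nat_lit 256) .nil))))))) (.g (nat_lit 4) .nil .nil))) 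
(.lf (nat_lit 150754) (.g (nat_lit 3093) (.e (nat_lit 57379) (nat_lit 3) (.e (nat_lit 98356) (nat_lit 26) (.e (nat_lit 426438) (nat_lit 18) (.e (nat_lit 98376) (nat_lit 30) (.e (nat_lit 458789) (nat_lit 23) (.e (nat_lit 532501) (nat_lit 1) (.e (nat_lit 65280) (nat_lit 211) .nil))))))) (.g (nat_lit 5) .nil .nil)))) (.nd (nat_lit 5) 
(.lf (nat_lit 150738) (.g (nat_lit 3106) (.e (nat_lit 57379) (nat_lit 3) (.e (nat_lit 98356) (nat_lit 26) (.e (nat_lit 426428) (nat_lit 17) (.e (nat_lit 90170) (nat_lit 13) (.e (nat_lit 172067) (nat_lit 3) (.e (nat_lit 204830) (nat_lit 18) (.e (nat_lit 65280) (nat_lit 211) .nil))))))) (.g (nat_lit 4) .nil .nil))) 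
(.lf (nat_lit 150770) (.g (nat_lit 3385) (.e (nat_lit 57379) (nat_lit 3) (.e (nat_lit 98365) (nat_lit 26) (.e (nat_lit 426116) (nat_lit 2) (.e (nat_lit 196654) (nat_lit 11) (.e (nat_lit 16412) (nat_lit 2) (.e (nat_lit 196661) (nat_lit 12) (.e (nat_lit 57353) (nat_lit 0) (.e (nat_lit 7695) (nat_lit 412) .nil)))))))) (.g (nat_lit 5) .nil .nil))))) (.nd (nat_lit 4) (.nd (nat_lit 5) 
(.lf (nat_lit 150730) (.g (nat_lit 2053) (.e (nat_lit 57379) (nat_lit 3) (.e (nat_lit 98356) (nat_lit 26) (.e (nat_lit 426323) (nat_lit 13) (.e (nat_lit 483337) (nat_lit 9) (.e (nat_lit 426099) (nat_lit 1) .nil))))) .nil)) 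
(.lf (nat_lit 150762) (.g (nat_lit 1878) (.e (nat_lit 57379) (nat_lit 3) (.e (nat_lit 98363) (nat_lit 26) (.e (nat_lit 426230) (nat_lit 9) (.e (nat_lit 426565) (nat_lit 34) (.e (nat_lit 393232) (nat_lit 17) (.e (nat_lit 2399) (nat_lit 157) (.e (nat_lit 5940) (nat_lit 322) .nil))))))) (.g (nat_lit 5) .nil .nil)))) (.nd (nat_lit 5) 
(.lf (nat_lit 150746) (.g (nat_lit 2756) (.e (nat_lit 57379) (nat_lit 3) (.e (nat_lit 98356) (nat_lit 26) (.e (nat_lit 426428) (nat_lit 17) (.e (nat_lit 90185) (nat_lit 17) (.e (nat_lit 237594) (nat_lit 3) .nil))))) .nil)) 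
(.lf (nat_lit 150778) (.g (nat_lit 2691) (.e (nat_lit 57379) (nat_lit 3) (.e (nat_lit 98365) (nat_lit 26) (.e (nat_lit 426116) (nat_lit 2) (.e (nat_lit 196654) (nat_lit 11) (.e (nat_lit 16416) (nat_lit 3) (.e (nat_lit 204825) (nat_lit 17) (.e (nat_lit 1006) (nat_lit 81) (.e (nat_lit 7695) (nat_lit 412) .nil)))))))) (.g (nat_lit 4) .nil .nil)))))) (.nd (nat_lit 3) (.nd (nat_lit 4) (.nd (nat_lit 5) 
(.lf (nat_lit 150726) (.g (nat_lit 3994) (.e (nat_lit 57379) (nat_lit 3) (.e (nat_lit 98356) (nat_lit 26) (.e (nat_lit 426131) (nat_lit 3) (.e (nat_lit 204838) (nat_lit 20) (.e (nat_lit 114719) (nat_lit 23) (.e (nat_lit 98334) (nat_lit 18) (.e (nat_lit 164399) (nat_lit 256) .nil))))))) (.g (nat_lit 6) .nil .nil))) 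
(.lf (nat_lit 150758) (.g (nat_lit 681) (.e (nat_lit 57379) (nat_lit 3) (.e (nat_lit 98356) (nat_lit 26) (.e (nat_lit 426462) (nat_lit 23) .nil))) .nil))) (.nd (nat_lit 5) 
(.lf (nat_lit 150742) (.g (nat_lit 3770) (.e (nat_lit 57379) (nat_lit 3) (.e (nat_lit 98356) (nat_lit 26) (.e (nat_lit 426428) (nat_lit 17) (.e (nat_lit 90174) (nat_lit 14) (.e (nat_lit 180243) (nat_lit 5) (.e (nat_lit 532504) (nat_lit 1) (.e (nat_lit 65280) (nat_lit 211) .nil))))))) (.g (nat_lit 6) .nil .nil))) 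
(.lf (nat_lit 150774) (.g (nat_lit 2669) (.e (nat_lit 57379) (nat_lit 3) (.e (nat_lit 98365) (nat_lit 26) (.e (nat_lit 426116) (nat_lit 2) (.e (nat_lit 196654) (nat_lit 11) (.e (nat_lit 16416) (nat_lit 3) (.e (nat_lit 204815) (nat_lit 17) (.e (nat_lit 999) (nat_lit 81) (.e (nat_lit 7695) (nat_lit 412) .nil)))))))) (.g (nat_lit 4) .nil .nil))))) (.nd (nat_lit 4) (.nd (nat_lit 5) 
(.lf (nat_lit 150734) (.g (nat_lit 613) (.e (nat_lit 57379) (nat_lit 3) (.e (nat_lit 98356) (nat_lit 26) (.e (nat_lit 426428) (nat_lit 17) .nil))) .nil)) 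
(.lf (nat_lit 150766) (.g (nat_lit 3143) (.e (nat_lit 57379) (nat_lit 3) (.e (nat_lit 98365) (nat_lit 26) (.e (nat_lit 426115) (nat_lit 2) (.e (nat_lit 196654) (nat_lit 11) (.e (nat_lit 16416) (nat_lit 3) (.e (nat_lit 204815) (nat_lit 17) (.e (nat_lit 974) (nat_lit 81) (.e (nat_lit 7695) (nat_lit 412) .nil)))))))) (.g (nat_lit 5) .nil .nil)))) (.nd (nat_lit 5) 
(.lf (nat_lit 150750) (.g (nat_lit 926) (.e (nat_lit 57379) (nat_lit 3) (.e (nat_lit 98356) (nat_lit 26) (.e (nat_lit 426438) (nat_lit 18) .nil))) .nil)) 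
(.lf (nat_lit 150782) (.g (nat_lit 2643) (.e (nat_lit 57379) (nat_lit 3) (.e (nat_lit 98365) (nat_lit 26) (.e (nat_lit 426116) (nat_lit 2) (.e (nat_lit 196654) (nat_lit 11) (.e (nat_lit 16417) (nat_lit 3) (.e (nat_lit 204831) (nat_lit 18) (.e (nat_lit 65280) (nat_lit 166) .nil))))))) (.g (nat_lit 4) .nil .nil)))))))) 
(.nd (nat_lit 1) (.nd (nat_lit 2) (.nd (nat_lit 3) (.nd (nat_lit 4) (.nd (nat_lit 5) 
(.lf (nat_lit 150721) (.g (nat_lit 4059) (.e (nat_lit 57379) (nat_lit 3) (.e (nat_lit 98356) (nat_lit 26) (.e (nat_lit 426131) (nat_lit 3) (.e (nat_lit 204838) (nat_lit 20) (.e (nat_lit 114718) (nat_lit 23) (.e (nat_lit 98334) (nat_lit 18) (.e (nat_lit 164399) (nat_lit 256) .nil))))))) (.g (nat_lit 6) .nil .nil))) 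
(.lf (nat_lit 150753) (.g (nat_lit 3414) (.e (nat_lit 57379) (nat_lit 3) (.e (nat_lit 98356) (nat_lit 26) (.e (nat_lit 426438) (nat_lit 18) (.e (nat_lit 98376) (nat_lit 30) (.e (nat_lit 458789) (nat_lit 23) (.e (nat_lit 532499) (nat_lit 1) (.e (nat_lit 65280) (nat_lit 211) .nil))))))) (.g (nat_lit 5) .nil .nil)))) (.nd (nat_lit 5) 
(.lf (nat_lit 150737) (.g (nat_lit 2688) (.e (nat_lit 57379) (nat_lit 3) (.e (nat_lit 98356) (nat_lit 26) (.e (nat_lit 426428) (nat_lit 17) (.e (nat_lit 90170) (nat_lit 13) (.e (nat_lit 172067) (nat_lit 3) .nil))))) .nil)) 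
(.lf (nat_lit 150769) (.g (nat_lit 2634) (.e (nat_lit 57379) (nat_lit 3) (.e (nat_lit 98365) (nat_lit 26) (.e (nat_lit 426116) (nat_lit 2) (.e (nat_lit 196654) (nat_lit 11) (.e (nat_lit 16412) (nat_lit 2) (.e (nat_lit 196661) (nat_lit 12) (.e (nat_lit 57351) (nat_lit 0) (.e (nat_lit 7695) (nat_lit 412) .nil)))))))) (.g (nat_lit 4) .nil .nil))))) (.nd (nat_lit 4) (.nd (nat_lit 5) 
(.lf (nat_lit 150729) (.g (nat_lit 2027) (.e (nat_lit 57379) (nat_lit 3) (.e (nat_lit 98356) (nat_lit 26) (.e (nat_lit 426323) (nat_lit 13) (.e (nat_lit 483337) (nat_lit 9) (.e (nat_lit 426098) (nat_lit 1) (.e (nat_lit 164399) (nat_lit 256) .nil)))))) (.g (nat_lit 4) .nil .nil))) 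
(.lf (nat_lit 150761) (.g (nat_lit 2208) (.e (nat_lit 57379) (nat_lit 3) (.e (nat_lit 98363) (nat_lit 26) (.e (nat_lit 426228) (nat_lit 9) (.e (nat_lit 426565) (nat_lit 34) (.e (nat_lit 393251) (nat_lit 18) (.e (nat_lit 164399) (nat_lit 256) .nil)))))) (.g (nat_lit 0) .nil .nil)))) (.nd (nat_lit 5) 
(.lf (nat_lit 150745) (.g (nat_lit 2623) (.e (nat_lit 57379) (nat_lit 3) (.e (nat_lit 98356) (nat_lit 26) (.e (nat_lit 426428) (nat_lit 17) (.e (nat_lit 90185) (nat_lit 17) (.e (nat_lit 237592) (nat_lit 3) (.e (nat_lit 204830) (nat_lit 18) (.e (nat_lit 65280) (nat_lit 211) .nil))))))) (.g (nat_lit 4) .nil .nil))) 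
(.lf (nat_lit 150777) (.g (nat_lit 2525) (.e (nat_lit 57379) (nat_lit 3) (.e (nat_lit 98365) (nat_lit 26) (.e (nat_lit 426116) (nat_lit 2) (.e (nat_lit 196654) (nat_lit 11) (.e (nat_lit 16416) (nat_lit 3) (.e (nat_lit 204818) (nat_lit 17) (.e (nat_lit 999) (nat_lit 81) (.e (nat_lit 7695) (nat_lit 412) .nil)))))))) (.g (nat_lit 4) .nil .nil)))))) (.nd (nat_lit 3) (.nd (nat_lit 4) (.nd (nat_lit 5) 
(.lf (nat_lit 150725) (.g (nat_lit 4660) (.e (nat_lit 57379) (nat_lit 3) (.e (nat_lit 98356) (nat_lit 26) (.e (nat_lit 426131) (nat_lit 3) (.e (nat_lit 204838) (nat_lit 20) (.e (nat_lit 114719) (nat_lit 23) (.e (nat_lit 98334) (nat_lit 18) (.e (nat_lit 164398) (nat_lit 256) .nil))))))) (.g (nat_lit 7) .nil .nil))) 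
(.lf (nat_lit 150757) (.g (nat_lit 2995) (.e (nat_lit 57379) (nat_lit 3) (.e (nat_lit 98356) (nat_lit 26) (.e (nat_lit 426438) (nat_lit 18) (.e (nat_lit 98377) (nat_lit 30) (.e (nat_lit 458789) (nat_lit 23) (.e (nat_lit 532503) (nat_lit 1) (.e (nat_lit 65280) (nat_lit 211) .nil))))))) (.g (nat_lit 4) .nil .nil)))) (.nd (nat_lit 5) 
(.lf (nat_lit 150741) (.g (nat_lit 3372) (.e (nat_lit 57379) (nat_lit 3) (.e (nat_lit 98356) (nat_lit 26) (.e (nat_lit 426428) (nat_lit 17) (.e (nat_lit 90174) (nat_lit 14) (.e (nat_lit 180243) (nat_lit 5) (.e (nat_lit 532503) (nat_lit 1) (.e (nat_lit 65280) (nat_lit 211) .nil))))))) (.g (nat_lit 5) .nil .nil))) 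
(.lf (nat_lit 150773) (.g (nat_lit 3379) (.e (nat_lit 57379) (nat_lit 3) (.e (nat_lit 98365) (nat_lit 26) (.e (nat_lit 426116) (nat_lit 2) (.e (nat_lit 196654) (nat_lit 11) (.e (nat_lit 16416) (nat_lit 3) (.e (nat_lit 204815) (nat_lit 17) (.e (nat_lit 996) (nat_lit 81) (.e (nat_lit 7695) (nat_lit 412) .nil)))))))) (.g (nat_lit 5) .nil .nil))))) (.nd (nat_lit 4) (.nd (nat_lit 5) 
(.lf (nat_lit 150733) (.g (nat_lit 680) (.e (nat_lit 57379) (nat_lit 3) (.e (nat_lit 98356) (nat_lit 26) (.e (nat_lit 433920) (nat_lit 13) .nil))) .nil)) 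
(.lf (nat_lit 150765) (.g (nat_lit 1217) (.e (nat_lit 57379) (nat_lit 3) (.e (nat_lit 98365) (nat_lit 26) (.e (nat_lit 426100) (nat_lit 1) (.e (nat_lit 164399) (nat_lit 256) .nil)))) .nil))) (.nd (nat_lit 5) 
(.lf (nat_lit 150749) (.g (nat_lit 1929) (.e (nat_lit 57379) (nat_lit 3) (.e (nat_lit 98356) (nat_lit 26) (.e (nat_lit 426436) (nat_lit 18) (.e (nat_lit 98377) (nat_lit 30) (.e (nat_lit 458789) (nat_lit 23) .nil))))) .nil)) 
(.lf (nat_lit 150781) (.g (nat_lit 4011) (.e (nat_lit 57379) (nat_lit 3) (.e (nat_lit 98365) (nat_lit 26) (.e (nat_lit 426116) (nat_lit 2) (.e (nat_lit 196654) (nat_lit 11) (.e (nat_lit 16416) (nat_lit 3) (.e (nat_lit 204831) (nat_lit 18) (.e (nat_lit 65280) (nat_lit 166) .nil))))))) (.g (nat_lit 5) .nil .nil))))))) (.nd (nat_lit 2) (.nd (nat_lit 3) (.nd (nat_lit 4) (.nd (nat_lit 5) 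
(.lf (nat_lit 150723) (.g (nat_lit 3932) (.e (nat_lit 57379) (nat_lit 3) (.e (nat_lit 98356) (nat_lit 26) (.e (nat_lit 426131) (nat_lit 3) (.e (nat_lit 204838) (nat_lit 20) (.e (nat_lit 114719) (nat_lit 23) (.e (nat_lit 98333) (nat_lit 18) (.e (nat_lit 164398) (nat_lit 256) .nil))))))) (.g (nat_lit 6) .nil .nil))) 
(.lf (nat_lit 150755) (.g (nat_lit 3203) (.e (nat_lit 57379) (nat_lit 3) (.e (nat_lit 98356) (nat_lit 26) (.e (nat_lit 426438) (nat_lit 18) (.e (nat_lit 98376) (nat_lit 30) (.e (nat_lit 458789) (nat_lit 23) (.e (nat_lit 540416) (nat_lit 18) (.e (nat_lit 164399) (nat_lit 256) .nil))))))) (.g (nat_lit 5) .nil .nil)))) (.nd (nat_lit 5) 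
(.lf (nat_lit 150739) (.g (nat_lit 4182) (.e (nat_lit 57379) (nat_lit 3) (.e (nat_lit 98356) (nat_lit 26) (.e (nat_lit 426428) (nat_lit 17) (.e (nat_lit 90174) (nat_lit 14) (.e (nat_lit 180243) (nat_lit 5) (.e (nat_lit 532499) (nat_lit 1) (.e (nat_lit 65280) (nat_lit 211) .nil))))))) (.g (nat_lit 6) .nil .nil))) 
(.lf (nat_lit 150771) (.g (nat_lit 3337) (.e (nat_lit 57379) (nat_lit 3) (.e (nat_lit 98365) (nat_lit 26) (.e (nat_lit 426116) (nat_lit 2) (.e (nat_lit 196654) (nat_lit 11) (.e (nat_lit 16412) (nat_lit 2) (.e (nat_lit 196677) (nat_lit 16) (.e (nat_lit 122880) (nat_lit 0) (.e (nat_lit 7695) (nat_lit 412) .nil)))))))) (.g (nat_lit 5) .nil .nil))))) (.nd (nat_lit 4) (.nd (nat_lit 5) 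
(.lf (nat_lit 150731) (.g (nat_lit 3733) (.e (nat_lit 57379) (nat_lit 3) (.e (nat_lit 98356) (nat_lit 26) (.e (nat_lit 426323) (nat_lit 13) (.e (nat_lit 483337) (nat_lit 9) (.e (nat_lit 426100) (nat_lit 1) (.e (nat_lit 164398) (nat_lit 256) .nil)))))) (.g (nat_lit 0) .nil .nil))) 
(.lf (nat_lit 150763) (.g (nat_lit 2277) (.e (nat_lit 57379) (nat_lit 3) (.e (nat_lit 98363) (nat_lit 26) (.e (nat_lit 426230) (nat_lit 9) (.e (nat_lit 426565) (nat_lit 34) (.e (nat_lit 393251) (nat_lit 18) (.e (nat_lit 164399) (nat_lit 256) .nil)))))) (.g (nat_lit 0) .nil .nil)))) (.nd (nat_lit 5) 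
(.lf (nat_lit 150747) (.g (nat_lit 2208) (.e (nat_lit 57379) (nat_lit 3) (.e (nat_lit 98356) (nat_lit 26) (.e (nat_lit 426436) (nat_lit 18) (.e (nat_lit 98358) (nat_lit 26) (.e (nat_lit 426131) (nat_lit 3) .nil))))) .nil)) 
(.lf (nat_lit 150779) (.g (nat_lit 4637) (.e (nat_lit 57379) (nat_lit 3) (.e (nat_lit 98365) (nat_lit 26) (.e (nat_lit 426116) (nat_lit 2) (.e (nat_lit 196654) (nat_lit 11) (.e (nat_lit 16416) (nat_lit 3) (.e (nat_lit 204829) (nat_lit 18) (.e (nat_lit 65280) (nat_lit 166) .nil))))))) (.g (nat_lit 6) .nil .nil)))))) (.nd (nat_lit 3) (.nd (nat_lit 4) (.nd (nat_lit 5) 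
(.lf (nat_lit 150727) (.g (nat_lit 985) (.e (nat_lit 57379) (nat_lit 3) (.e (nat_lit 98356) (nat_lit 26) (.e (nat_lit 426322) (nat_lit 13) (.e (nat_lit 483341) (nat_lit 9) .nil)))) .nil)) 
(.lf (nat_lit 150759) (.g (nat_lit 2310) (.e (nat_lit 57379) (nat_lit 3) (.e (nat_lit 98358) (nat_lit 26) (.e (nat_lit 426131) (nat_lit 3) (.e (nat_lit 204838) (nat_lit 20) .nil)))) .nil))) (.nd (nat_lit 5) 
(.lf (nat_lit 150743) (.g (nat_lit 2905) (.e (nat_lit 57379) (nat_lit 3) (.e (nat_lit 98356) (nat_lit 26) (.e (nat_lit 426428) (nat_lit 17) (.e (nat_lit 90185) (nat_lit 17) (.e (nat_lit 237591) (nat_lit 3) (.e (nat_lit 212736) (nat_lit 1) (.e (nat_lit 164399) (nat_lit 256) .nil))))))) (.g (nat_lit 4) .nil .nil))) 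
(.lf (nat_lit 150775) (.g (nat_lit 2651) (.e (nat_lit 57379) (nat_lit 3) (.e (nat_lit 98365) (nat_lit 26) (.e (nat_lit 426116) (nat_lit 2) (.e (nat_lit 196654) (nat_lit 11) (.e (nat_lit 16416) (nat_lit 3) (.e (nat_lit 204815) (nat_lit 17) (.e (nat_lit 1016) (nat_lit 81) (.e (nat_lit 7695) (nat_lit 412) .nil)))))))) (.g (nat_lit 4) .nil .nil))))) (.nd (nat_lit 4) (.nd (nat_lit 5) 
(.lf (nat_lit 150735) (.g (nat_lit 2371) (.e (nat_lit 57379) (nat_lit 3) (.e (nat_lit 98356) (nat_lit 26) (.e (nat_lit 426428) (nat_lit 17) (.e (nat_lit 90170) (nat_lit 13) (.e (nat_lit 172065) (nat_lit 3) (.e (nat_lit 212736) (nat_lit 1) (.e (nat_lit 164399) (nat_lit 256) .nil))))))) (.g (nat_lit 4) .nil .nil))) 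
(.lf (nat_lit 150767) (.g (nat_lit 3160) (.e (nat_lit 57379) (nat_lit 3) (.e (nat_lit 98365) (nat_lit 26) (.e (nat_lit 426116) (nat_lit 2) (.e (nat_lit 196654) (nat_lit 11) (.e (nat_lit 16412) (nat_lit 2) (.e (nat_lit 196658) (nat_lit 12) (.e (nat_lit 57348) (nat_lit 0) (.e (nat_lit 7695) (nat_lit 412) .nil)))))))) (.g (nat_lit 5) .nil .nil)))) (.nd (nat_lit 5) 
(.lf (nat_lit 150751) (.g (nat_lit 4354) (.e (nat_lit 57379) (nat_lit 3) (.e (nat_lit 98356) (nat_lit 26) (.e (nat_lit 426438) (nat_lit 18) (.e (nat_lit 98358) (nat_lit 26) (.e (nat_lit 426131) (nat_lit 3) (.e (nat_lit 204829) (nat_lit 18) (.e (nat_lit 65280) (nat_lit 211) .nil))))))) (.g (nat_lit 6) .nil .nil))) 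
(.lf (nat_lit 150783) (.g (nat_lit 2590) (.e (nat_lit 57379) (nat_lit 3) (.e (nat_lit 98365) (nat_lit 26) (.e (nat_lit 426133) (nat_lit 3) (.e (nat_lit 204809) (nat_lit 9) (.e (nat_lit 426123) (nat_lit 2) (.e (nat_lit 196661) (nat_lit 12) (.e (nat_lit 57353) (nat_lit 0) (.e (nat_lit 7695) (nat_lit 412) .nil)))))))) (.g (nat_lit 4) .nil .nil)))))))))

noncomputable def tv2010 : DT := (.nd (nat_lit 0) (.nd (nat_lit 1) (.nd (nat_lit 2) (.nd (nat_lit 3) (.nd (nat_lit 4) (.nd (nat_lit 5) 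
(.lf (nat_lit 150784) (.g (nat_lit 3501) (.e (nat_lit 57379) (nat_lit 3) (.e (nat_lit 98365) (nat_lit 26) (.e (nat_lit 426133) (nat_lit 3) (.e (nat_lit 204809) (nat_lit 9) (.e (nat_lit 426124) (nat_lit 2) (.e (nat_lit 196658) (nat_lit 12) (.e (nat_lit 57348) (nat_lit 0) (.e (nat_lit 7695) (nat_lit 412) .nil)))))))) (.g (nat_lit 7) .nil .nil))) 
(.lf (nat_lit 150816) (.g (nat_lit 2530) (.e (nat_lit 57379) (nat_lit 3) (.e (nat_lit 98365) (nat_lit 26) (.e (nat_lit 426187) (nat_lit 9) (.e (nat_lit 426566) (nat_lit 34) (.e (nat_lit 393235) (nat_lit 17) (.e (nat_lit 2464) (nat_lit 157) (.e (nat_lit 5939) (nat_lit 322) .nil))))))) (.g (nat_lit 4) .nil .nil)))) (.nd (nat_lit 5) 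
(.lf (nat_lit 150800) (.g (nat_lit 2251) (.e (nat_lit 57379) (nat_lit 3) (.e (nat_lit 98365) (nat_lit 26) (.e (nat_lit 426187) (nat_lit 9) (.e (nat_lit 426566) (nat_lit 34) (.e (nat_lit 393231) (nat_lit 17) (.e (nat_lit 2456) (nat_lit 157) (.e (nat_lit 5939) (nat_lit 322) .nil))))))) (.g (nat_lit 4) .nil .nil))) 
(.lf (nat_lit 150832) (.g (nat_lit 2003) (.e (nat_lit 57379) (nat_lit 3) (.e (nat_lit 98365) (nat_lit 26) (.e (nat_lit 426187) (nat_lit 9) (.e (nat_lit 426566) (nat_lit 34) (.e (nat_lit 393250) (nat_lit 18) (.e (nat_lit 164397) (nat_lit 256) .nil)))))) (.g (nat_lit 4) .nil .nil))))) (.nd (nat_lit 4) (.nd (nat_lit 5) 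
(.lf (nat_lit 150792) (.g (nat_lit 1307) (.e (nat_lit 57379) (nat_lit 3) (.e (nat_lit 98365) (nat_lit 26) (.e (nat_lit 426187) (nat_lit 9) (.e (nat_lit 426479) (nat_lit 27) (.e (nat_lit 336421) (nat_lit 28) .nil))))) .nil)) 
(.lf (nat_lit 150824) (.g (nat_lit 2643) (.e (nat_lit 57379) (nat_lit 3) (.e (nat_lit 98365) (nat_lit 26) (.e (nat_lit 426187) (nat_lit 9) (.e (nat_lit 426566) (nat_lit 34) (.e (nat_lit 393239) (nat_lit 17) (.e (nat_lit 2472) (nat_lit 157) (.e (nat_lit 5939) (nat_lit 322) .nil))))))) (.g (nat_lit 4) .nil .nil)))) (.nd (nat_lit 5) 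
(.lf (nat_lit 150808) (.g (nat_lit 2708) (.e (nat_lit 57379) (nat_lit 3) (.e (nat_lit 98365) (nat_lit 26) (.e (nat_lit 426187) (nat_lit 9) (.e (nat_lit 426566) (nat_lit 34) (.e (nat_lit 393232) (nat_lit 17) (.e (nat_lit 2399) (nat_lit 157) (.e (nat_lit 5940) (nat_lit 322) .nil))))))) (.g (nat_lit 4) .nil .nil))) 
(.lf (nat_lit 150840) (.g (nat_lit 2072) (.e (nat_lit 57379) (nat_lit 3) (.e (nat_lit 98365) (nat_lit 26) (.e (nat_lit 426187) (nat_lit 9) (.e (nat_lit 426567) (nat_lit 34) (.e (nat_lit 393251) (nat_lit 18) (.e (nat_lit 164399) (nat_lit 256) .nil)))))) (.g (nat_lit 4) .nil .nil)))))) (.nd (nat_lit 3) (.nd (nat_lit 4) (.nd (nat_lit 5) 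
(.lf (nat_lit 150788) (.g (nat_lit 2351) (.e (nat_lit 57379) (nat_lit 3) (.e (nat_lit 98365) (nat_lit 26) (.e (nat_lit 426133) (nat_lit 3) (.e (nat_lit 204809) (nat_lit 9) (.e (nat_lit 426139) (nat_lit 3) (.e (nat_lit 204825) (nat_lit 17) (.e (nat_lit 1006) (nat_lit 81) (.e (nat_lit 7695) (nat_lit 412) .nil)))))))) (.g (nat_lit 4) .nil .nil))) 
(.lf (nat_lit 150820) (.g (nat_lit 1748) (.e (nat_lit 57379) (nat_lit 3) (.e (nat_lit 98365) (nat_lit 26) (.e (nat_lit 426187) (nat_lit 9) (.e (nat_lit 426566) (nat_lit 34) (.e (nat_lit 393237) (nat_lit 17) (.e (nat_lit 2469) (nat_lit 157) (.e (nat_lit 5939) (nat_lit 322) .nil))))))) (.g (nat_lit 4) .nil .nil)))) (.nd (nat_lit 5) 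
(.lf (nat_lit 150804) (.g (nat_lit 2088) (.e (nat_lit 57379) (nat_lit 3) (.e (nat_lit 98365) (nat_lit 26) (.e (nat_lit 426187) (nat_lit 9) (.e (nat_lit 426566) (nat_lit 34) (.e (nat_lit 393231) (nat_lit 17) (.e (nat_lit 2470) (nat_lit 157) (.e (nat_lit 5939) (nat_lit 322) .nil))))))) (.g (nat_lit 4) .nil .nil))) 
(.lf (nat_lit 150836) (.g (nat_lit 3184) (.e (nat_lit 57379) (nat_lit 3) (.e (nat_lit 98365) (nat_lit 26) (.e (nat_lit 426187) (nat_lit 9) (.e (nat_lit 426566) (nat_lit 34) (.e (nat_lit 393252) (nat_lit 18) (.e (nat_lit 164396) (nat_lit 256) .nil)))))) (.g (nat_lit 6) .nil .nil))))) (.nd (nat_lit 4) (.nd (nat_lit 5) 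
(.lf (nat_lit 150796) (.g (nat_lit 1942) (.e (nat_lit 57379) (nat_lit 3) (.e (nat_lit 98365) (nat_lit 26) (.e (nat_lit 426187) (nat_lit 9) (.e (nat_lit 426489) (nat_lit 27) (.e (nat_lit 336437) (nat_lit 31) (.e (nat_lit 458771) (nat_lit 18) (.e (nat_lit 5939) (nat_lit 322) .nil))))))) (.g (nat_lit 4) .nil .nil))) 
(.lf (nat_lit 150828) (.g (nat_lit 1833) (.e (nat_lit 57379) (nat_lit 3) (.e (nat_lit 98365) (nat_lit 26) (.e (nat_lit 426187) (nat_lit 9) (.e (nat_lit 426566) (nat_lit 34) (.e (nat_lit 393241) (nat_lit 17) (.e (nat_lit 2456) (nat_lit 157) (.e (nat_lit 5939) (nat_lit 322) .nil))))))) (.g (nat_lit 4) .nil .nil)))) (.nd (nat_lit 5) 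
(.lf (nat_lit 150812) (.g (nat_lit 2089) (.e (nat_lit 57379) (nat_lit 3) (.e (nat_lit 98365) (nat_lit 26) (.e (nat_lit 426187) (nat_lit 9) (.e (nat_lit 426566) (nat_lit 34) (.e (nat_lit 393233) (nat_lit 17) (.e (nat_lit 2399) (nat_lit 157) (.e (nat_lit 5934) (nat_lit 322) .nil))))))) (.g (nat_lit 4) .nil .nil))) 
(.lf (nat_lit 150844) (.g (nat_lit 2256) (.e (nat_lit 57379) (nat_lit 3) (.e (nat_lit 98365) (nat_lit 26) (.e (nat_lit 426187) (nat_lit 9) (.e (nat_lit 426568) (nat_lit 34) (.e (nat_lit 393252) (nat_lit 18) (.e (nat_lit 164397) (nat_lit 256) .nil)))))) (.g (nat_lit 4) .nil .nil))))))) (.nd (nat_lit 2) (.nd (nat_lit 3) (.nd (nat_lit 4) (.nd (nat_lit 5) 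
(.lf (nat_lit 150786) (.g (nat_lit 3533) (.e (nat_lit 57379) (nat_lit 3) (.e (nat_lit 98365) (nat_lit 26) (.e (nat_lit 426133) (nat_lit 3) (.e (nat_lit 204809) (nat_lit 9) (.e (nat_lit 426124) (nat_lit 2) (.e (nat_lit 196677) (nat_lit 16) (.e (nat_lit 122881) (nat_lit 0) (.e (nat_lit 7695) (nat_lit 412) .nil)))))))) (.g (nat_lit 6) .nil .nil))) 
(.lf (nat_lit 150818) (.g (nat_lit 1761) (.e (nat_lit 57379) (nat_lit 3) (.e (nat_lit 98365) (nat_lit 26) (.e (nat_lit 426187) (nat_lit 9) (.e (nat_lit 426566) (nat_lit 34) (.e (nat_lit 393237) (nat_lit 17) (.e (nat_lit 2456) (nat_lit 157) (.e (nat_lit 5939) (nat_lit 322) .nil))))))) (.g (nat_lit 4) .nil .nil)))) (.nd (nat_lit 5) 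
(.lf (nat_lit 150802) (.g (nat_lit 2032) (.e (nat_lit 57379) (nat_lit 3) (.e (nat_lit 98365) (nat_lit 26) (.e (nat_lit 426187) (nat_lit 9) (.e (nat_lit 426566) (nat_lit 34) (.e (nat_lit 393231) (nat_lit 17) (.e (nat_lit 2459) (nat_lit 157) (.e (nat_lit 5939) (nat_lit 322) .nil))))))) (.g (nat_lit 4) .nil .nil))) 
(.lf (nat_lit 150834) (.g (nat_lit 2680) (.e (nat_lit 57379) (nat_lit 3) (.e (nat_lit 98365) (nat_lit 26) (.e (nat_lit 426187) (nat_lit 9) (.e (nat_lit 426566) (nat_lit 34) (.e (nat_lit 393251) (nat_lit 18) (.e (nat_lit 164397) (nat_lit 256) .nil)))))) (.g (nat_lit 5) .nil .nil))))) (.nd (nat_lit 4) (.nd (nat_lit 5) 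
(.lf (nat_lit 150794) (.g (nat_lit 1867) (.e (nat_lit 57379) (nat_lit 3) (.e (nat_lit 98365) (nat_lit 26) (.e (nat_lit 426187) (nat_lit 9) (.e (nat_lit 426484) (nat_lit 27) (.e (nat_lit 336425) (nat_lit 28) (.e (nat_lit 434209) (nat_lit 18) (.e (nat_lit 5939) (nat_lit 322) .nil))))))) (.g (nat_lit 4) .nil .nil))) 
(.lf (nat_lit 150826) (.g (nat_lit 1479) (.e (nat_lit 57379) (nat_lit 3) (.e (nat_lit 98365) (nat_lit 26) (.e (nat_lit 426187) (nat_lit 9) (.e (nat_lit 426566) (nat_lit 34) (.e (nat_lit 393240) (nat_lit 17) .nil))))) .nil))) (.nd (nat_lit 5) 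
(.lf (nat_lit 150810) (.g (nat_lit 1437) (.e (nat_lit 57379) (nat_lit 3) (.e (nat_lit 98365) (nat_lit 26) (.e (nat_lit 426187) (nat_lit 9) (.e (nat_lit 426566) (nat_lit 34) (.e (nat_lit 393233) (nat_lit 17) .nil))))) .nil)) 
(.lf (nat_lit 150842) (.g (nat_lit 2002) (.e (nat_lit 57379) (nat_lit 3) (.e (nat_lit 98365) (nat_lit 26) (.e (nat_lit 426187) (nat_lit 9) (.e (nat_lit 426568) (nat_lit 34) (.e (nat_lit 393250) (nat_lit 18) .nil))))) .nil))))) (.nd (nat_lit 3) (.nd (nat_lit 4) (.nd (nat_lit 5) 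
(.lf (nat_lit 150790) (.g (nat_lit 4610) (.e (nat_lit 57379) (nat_lit 3) (.e (nat_lit 98365) (nat_lit 26) (.e (nat_lit 426133) (nat_lit 3) (.e (nat_lit 204809) (nat_lit 9) (.e (nat_lit 426139) (nat_lit 3) (.e (nat_lit 204830) (nat_lit 18) (.e (nat_lit 65280) (nat_lit 166) .nil))))))) (.g (nat_lit 6) .nil .nil))) 
(.lf (nat_lit 150822) (.g (nat_lit 2201) (.e (nat_lit 57379) (nat_lit 3) (.e (nat_lit 98365) (nat_lit 26) (.e (nat_lit 426187) (nat_lit 9) (.e (nat_lit 426566) (nat_lit 34) (.e (nat_lit 393239) (nat_lit 17) (.e (nat_lit 2416) (nat_lit 157) (.e (nat_lit 5939) (nat_lit 322) .nil))))))) (.g (nat_lit 4) .nil .nil)))) (.nd (nat_lit 5) 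
(.lf (nat_lit 150806) (.g (nat_lit 2304) (.e (nat_lit 57379) (nat_lit 3) (.e (nat_lit 98365) (nat_lit 26) (.e (nat_lit 426187) (nat_lit 9) (.e (nat_lit 426566) (nat_lit 34) (.e (nat_lit 393231) (nat_lit 17) (.e (nat_lit 2473) (nat_lit 157) (.e (nat_lit 5939) (nat_lit 322) .nil))))))) (.g (nat_lit 4) .nil .nil))) 
(.lf (nat_lit 150838) (.g (nat_lit 2229) (.e (nat_lit 57379) (nat_lit 3) (.e (nat_lit 98365) (nat_lit 26) (.e (nat_lit 426187) (nat_lit 9) (.e (nat_lit 426566) (nat_lit 34) (.e (nat_lit 393254) (nat_lit 18) (.e (nat_lit 164396) (nat_lit 256) .nil)))))) (.g (nat_lit 4) .nil .nil))))) (.nd (nat_lit 4) (.nd (nat_lit 5) 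
(.lf (nat_lit 150798) (.g (nat_lit 2196) (.e (nat_lit 57379) (nat_lit 3) (.e (nat_lit 98365) (nat_lit 26) (.e (nat_lit 426187) (nat_lit 9) (.e (nat_lit 426566) (nat_lit 34) (.e (nat_lit 393230) (nat_lit 17) .nil))))) .nil)) 
(.lf (nat_lit 150830) (.g (nat_lit 1862) (.e (nat_lit 57379) (nat_lit 3) (.e (nat_lit 98365) (nat_lit 26) (.e (nat_lit 426187) (nat_lit 9) (.e (nat_lit 426566) (nat_lit 34) (.e (nat_lit 393241) (nat_lit 17) (.e (nat_lit 2473) (nat_lit 157) (.e (nat_lit 5939) (nat_lit 322) .nil))))))) (.g (nat_lit 4) .nil .nil)))) (.nd (nat_lit 5) 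
(.lf (nat_lit 150814) (.g (nat_lit 2357) (.e (nat_lit 57379) (nat_lit 3) (.e (nat_lit 98365) (nat_lit 26) (.e (nat_lit 426187) (nat_lit 9) (.e (nat_lit 426566) (nat_lit 34) (.e (nat_lit 393233) (nat_lit 17) (.e (nat_lit 2399) (nat_lit 157) (.e (nat_lit 5942) (nat_lit 322) .nil))))))) (.g (nat_lit 4) .nil .nil))) 
(.lf (nat_lit 150846) (.g (nat_lit 1327) (.e (nat_lit 57379) (nat_lit 3) (.e (nat_lit 98365) (nat_lit 26) (.e (nat_lit 426188) (nat_lit 9) (.e (nat_lit 426479) (nat_lit 27) .nil)))) .nil))))))) (.nd (nat_lit 1) (.nd (nat_lit 2) (.nd (nat_lit 3) (.nd (nat_lit 4) (.nd (nat_lit 5) 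
(.lf (nat_lit 150785) (.g (nat_lit 3594) (.e (nat_lit 57379) (nat_lit 3) (.e (nat_lit 98365) (nat_lit 26) (.e (nat_lit 426133) (nat_lit 3) (.e (nat_lit 204809) (nat_lit 9) (.e (nat_lit 426124) (nat_lit 2) (.e (nat_lit 196677) (nat_lit 16) (.e (nat_lit 122880) (nat_lit 0) (.e (nat_lit 7695) (nat_lit 412) .nil)))))))) (.g (nat_lit 6) .nil .nil))) 
(.lf (nat_lit 150817) (.g (nat_lit 1705) (.e (nat_lit 57379) (nat_lit 3) (.e (nat_lit 98365) (nat_lit 26) (.e (nat_lit 426187) (nat_lit 9) (.e (nat_lit 426566) (nat_lit 34) (.e (nat_lit 393237) (nat_lit 17) .nil))))) .nil))) (.nd (nat_lit 5) 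
(.lf (nat_lit 150801) (.g (nat_lit 2020) (.e (nat_lit 57379) (nat_lit 3) (.e (nat_lit 98365) (nat_lit 26) (.e (nat_lit 426187) (nat_lit 9) (.e (nat_lit 426566) (nat_lit 34) (.e (nat_lit 393231) (nat_lit 17) (.e (nat_lit 2457) (nat_lit 157) (.e (nat_lit 5939) (nat_lit 322) .nil))))))) (.g (nat_lit 4) .nil .nil))) 
(.lf (nat_lit 150833) (.g (nat_lit 2692) (.e (nat_lit 57379) (nat_lit 3) (.e (nat_lit 98365) (nat_lit 26) (.e (nat_lit 426187) (nat_lit 9) (.e (nat_lit 426566) (nat_lit 34) (.e (nat_lit 393251) (nat_lit 18) (.e (nat_lit 164396) (nat_lit 256) .nil)))))) (.g (nat_lit 5) .nil .nil))))) (.nd (nat_lit 4) (.nd (nat_lit 5) 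
(.lf (nat_lit 150793) (.g (nat_lit 1399) (.e (nat_lit 57379) (nat_lit 3) (.e (nat_lit 98365) (nat_lit 26) (.e (nat_lit 426187) (nat_lit 9) (.e (nat_lit 426479) (nat_lit 27) (.e (nat_lit 336436) (nat_lit 31) .nil))))) .nil)) 
(.lf (nat_lit 150825) (.g (nat_lit 2362) (.e (nat_lit 57379) (nat_lit 3) (.e (nat_lit 98365) (nat_lit 26) (.e (nat_lit 426187) (nat_lit 9) (.e (nat_lit 426566) (nat_lit 34) (.e (nat_lit 393239) (nat_lit 17) (.e (nat_lit 2473) (nat_lit 157) (.e (nat_lit 5939) (nat_lit 322) .nil))))))) (.g (nat_lit 4) .nil .nil)))) (.nd (nat_lit 5) 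
(.lf (nat_lit 150809) (.g (nat_lit 2570) (.e (nat_lit 57379) (nat_lit 3) (.e (nat_lit 98365) (nat_lit 26) (.e (nat_lit 426187) (nat_lit 9) (.e (nat_lit 426566) (nat_lit 34) (.e (nat_lit 393232) (nat_lit 17) (.e (nat_lit 2399) (nat_lit 157) (.e (nat_lit 5943) (nat_lit 322) .nil))))))) (.g (nat_lit 4) .nil .nil))) 
(.lf (nat_lit 150841) (.g (nat_lit 1855) (.e (nat_lit 57379) (nat_lit 3) (.e (nat_lit 98365) (nat_lit 26) (.e (nat_lit 426187) (nat_lit 9) (.e (nat_lit 426568) (nat_lit 34) (.e (nat_lit 393238) (nat_lit 17) (.e (nat_lit 7936) (nat_lit 157) (.e (nat_lit 5939) (nat_lit 322) .nil))))))) (.g (nat_lit 4) .nil .nil)))))) (.nd (nat_lit 3) (.nd (nat_lit 4) (.nd (nat_lit 5) 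
(.lf (nat_lit 150789) (.g (nat_lit 4753) (.e (nat_lit 57379) (nat_lit 3) (.e (nat_lit 98365) (nat_lit 26) (.e (nat_lit 426133) (nat_lit 3) (.e (nat_lit 204809) (nat_lit 9) (.e (nat_lit 426139) (nat_lit 3) (.e (nat_lit 204829) (nat_lit 18) (.e (nat_lit 65280) (nat_lit 166) .nil))))))) (.g (nat_lit 6) .nil .nil))) 
(.lf (nat_lit 150821) (.g (nat_lit 1971) (.e (nat_lit 57379) (nat_lit 3) (.e (nat_lit 98365) (nat_lit 26) (.e (nat_lit 426187) (nat_lit 9) (.e (nat_lit 426566) (nat_lit 34) (.e (nat_lit 393239) (nat_lit 17) .nil))))) .nil))) (.nd (nat_lit 5) 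
(.lf (nat_lit 150805) (.g (nat_lit 2139) (.e (nat_lit 57379) (nat_lit 3) (.e (nat_lit 98365) (nat_lit 26) (.e (nat_lit 426187) (nat_lit 9) (.e (nat_lit 426566) (nat_lit 34) (.e (nat_lit 393231) (nat_lit 17) (.e (nat_lit 2472) (nat_lit 157) (.e (nat_lit 5939) (nat_lit 322) .nil))))))) (.g (nat_lit 4) .nil .nil))) 
(.lf (nat_lit 150837) (.g (nat_lit 3242) (.e (nat_lit 57379) (nat_lit 3) (.e (nat_lit 98365) (nat_lit 26) (.e (nat_lit 426187) (nat_lit 9) (.e (nat_lit 426566) (nat_lit 34) (.e (nat_lit 393252) (nat_lit 18) (.e (nat_lit 164400) (nat_lit 256) .nil)))))) (.g (nat_lit 6) .nil .nil))))) (.nd (nat_lit 4) (.nd (nat_lit 5) 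
(.lf (nat_lit 150797) (.g (nat_lit 2021) (.e (nat_lit 57379) (nat_lit 3) (.e (nat_lit 98365) (nat_lit 26) (.e (nat_lit 426187) (nat_lit 9) (.e (nat_lit 426566) (nat_lit 34) (.e (nat_lit 401152) (nat_lit 1) (.e (nat_lit 65280) (nat_lit 211) .nil)))))) (.g (nat_lit 4) .nil .nil))) 
(.lf (nat_lit 150829) (.g (nat_lit 1894) (.e (nat_lit 57379) (nat_lit 3) (.e (nat_lit 98365) (nat_lit 26) (.e (nat_lit 426187) (nat_lit 9) (.e (nat_lit 426566) (nat_lit 34) (.e (nat_lit 393241) (nat_lit 17) (.e (nat_lit 2472) (nat_lit 157) (.e (nat_lit 5939) (nat_lit 322) .nil))))))) (.g (nat_lit 4) .nil .nil)))) (.nd (nat_lit 5) 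
(.lf (nat_lit 150813) (.g (nat_lit 2192) (.e (nat_lit 57379) (nat_lit 3) (.e (nat_lit 98365) (nat_lit 26) (.e (nat_lit 426187) (nat_lit 9) (.e (nat_lit 426566) (nat_lit 34) (.e (nat_lit 393233) (nat_lit 17) (.e (nat_lit 2399) (nat_lit 157) (.e (nat_lit 5941) (nat_lit 322) .nil))))))) (.g (nat_lit 4) .nil .nil))) 
(.lf (nat_lit 150845) (.g (nat_lit 3470) (.e (nat_lit 57379) (nat_lit 3) (.e (nat_lit 98365) (nat_lit 26) (.e (nat_lit 426188) (nat_lit 9) (.e (nat_lit 426478) (nat_lit 27) (.e (nat_lit 336389) (nat_lit 27) (.e (nat_lit 426098) (nat_lit 1) (.e (nat_lit 164399) (nat_lit 256) .nil))))))) (.g (nat_lit 5) .nil .nil))))))) (.nd (nat_lit 2) (.nd (nat_lit 3) (.nd (nat_lit 4) (.nd (nat_lit 5) 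
(.lf (nat_lit 150787) (.g (nat_lit 2209) (.e (nat_lit 57379) (nat_lit 3) (.e (nat_lit 98365) (nat_lit 26) (.e (nat_lit 426133) (nat_lit 3) (.e (nat_lit 204809) (nat_lit 9) (.e (nat_lit 426139) (nat_lit 3) (.e (nat_lit 204822) (nat_lit 17) (.e (nat_lit 993) (nat_lit 81) (.e (nat_lit 7695) (nat_lit 412) .nil)))))))) (.g (nat_lit 4) .nil .nil))) 
(.lf (nat_lit 150819) (.g (nat_lit 1963) (.e (nat_lit 57379) (nat_lit 3) (.e (nat_lit 98365) (nat_lit 26) (.e (nat_lit 426187) (nat_lit 9) (.e (nat_lit 426566) (nat_lit 34) (.e (nat_lit 393237) (nat_lit 17) (.e (nat_lit 2467) (nat_lit 157) (.e (nat_lit 5939) (nat_lit 322) .nil))))))) (.g (nat_lit 4) .nil .nil)))) (.nd (nat_lit 5) 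
(.lf (nat_lit 150803) (.g (nat_lit 2061) (.e (nat_lit 57379) (nat_lit 3) (.e (nat_lit 98365) (nat_lit 26) (.e (nat_lit 426187) (nat_lit 9) (.e (nat_lit 426566) (nat_lit 34) (.e (nat_lit 393231) (nat_lit 17) (.e (nat_lit 2469) (nat_lit 157) (.e (nat_lit 5939) (nat_lit 322) .nil))))))) (.g (nat_lit 4) .nil .nil))) 
(.lf (nat_lit 150835) (.g (nat_lit 2108) (.e (nat_lit 57379) (nat_lit 3) (.e (nat_lit 98365) (nat_lit 26) (.e (nat_lit 426187) (nat_lit 9) (.e (nat_lit 426566) (nat_lit 34) (.e (nat_lit 393251) (nat_lit 18) (.e (nat_lit 164400) (nat_lit 256) .nil)))))) (.g (nat_lit 4) .nil .nil))))) (.nd (nat_lit 4) (.nd (nat_lit 5) 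
(.lf (nat_lit 150795) (.g (nat_lit 932) (.e (nat_lit 57379) (nat_lit 3) (.e (nat_lit 98365) (nat_lit 26) (.e (nat_lit 426187) (nat_lit 9) (.e (nat_lit 426486) (nat_lit 27) .nil)))) .nil)) 
(.lf (nat_lit 150827) (.g (nat_lit 1655) (.e (nat_lit 57379) (nat_lit 3) (.e (nat_lit 98365) (nat_lit 26) (.e (nat_lit 426187) (nat_lit 9) (.e (nat_lit 426566) (nat_lit 34) (.e (nat_lit 393241) (nat_lit 17) .nil))))) .nil))) (.nd (nat_lit 5) 
(.lf (nat_lit 150811) (.g (nat_lit 2108) (.e (nat_lit 57379) (nat_lit 3) (.e (nat_lit 98365) (nat_lit 26) (.e (nat_lit 426187) (nat_lit 9) (.e (nat_lit 426566) (nat_lit 34) (.e (nat_lit 393233) (nat_lit 17) (.e (nat_lit 2398) (nat_lit 157) (.e (nat_lit 5943) (nat_lit 322) .nil))))))) (.g (nat_lit 4) .nil .nil))) 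
(.lf (nat_lit 150843) (.g (nat_lit 2294) (.e (nat_lit 57379) (nat_lit 3) (.e (nat_lit 98365) (nat_lit 26) (.e (nat_lit 426187) (nat_lit 9) (.e (nat_lit 426568) (nat_lit 34) (.e (nat_lit 393252) (nat_lit 18) (.e (nat_lit 164396) (nat_lit 256) .nil)))))) (.g (nat_lit 4) .nil .nil)))))) (.nd (nat_lit 3) (.nd (nat_lit 4) (.nd (nat_lit 5) 
(.lf (nat_lit 150791) (.g (nat_lit 452) (.e (nat_lit 57379) (nat_lit 3) (.e (nat_lit 98365) (nat_lit 26) (.e (nat_lit 426187) (nat_lit 9) .nil))) .nil)) 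
(.lf (nat_lit 150823) (.g (nat_lit 2193) (.e (nat_lit 57379) (nat_lit 3) (.e (nat_lit 98365) (nat_lit 26) (.e (nat_lit 426187) (nat_lit 9) (.e (nat_lit 426566) (nat_lit 34) (.e (nat_lit 393239) (nat_lit 17) (.e (nat_lit 2456) (nat_lit 157) (.e (nat_lit 5939) (nat_lit 322) .nil))))))) (.g (nat_lit 4) .nil .nil)))) (.nd (nat_lit 5) 
(.lf (nat_lit 150807) (.g (nat_lit 2071) (.e (nat_lit 57379) (nat_lit 3) (.e (nat_lit 98365) (nat_lit 26) (.e (nat_lit 426187) (nat_lit 9) (.e (nat_lit 426566) (nat_lit 34) (.e (nat_lit 393232) (nat_lit 17) .nil))))) .nil)) 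
(.lf (nat_lit 150839) (.g (nat_lit 1994) (.e (nat_lit 57379) (nat_lit 3) (.e (nat_lit 98365) (nat_lit 26) (.e (nat_lit 426187) (nat_lit 9) (.e (nat_lit 426566) (nat_lit 34) (.e (nat_lit 401152) (nat_lit 18) (.e (nat_lit 164399) (nat_lit 256) .nil)))))) (.g (nat_lit 4) .nil .nil))))) (.nd (nat_lit 4) (.nd (nat_lit 5) 
(.lf (nat_lit 150799) (.g (nat_lit 1758) (.e (nat_lit 57379) (nat_lit 3) (.e (nat_lit 98365) (nat_lit 26) (.e (nat_lit 426187) (nat_lit 9) (.e (nat_lit 426566) (nat_lit 34) (.e (nat_lit 393231) (nat_lit 17) (.e (nat_lit 2416) (nat_lit 157) (.e (nat_lit 5939) (nat_lit 322) .nil))))))) (.g (nat_lit 4) .nil .nil))) 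
(.lf (nat_lit 150831) (.g (nat_lit 2058) (.e (nat_lit 57379) (nat_lit 3) (.e (nat_lit 98365) (nat_lit 26) (.e (nat_lit 426187) (nat_lit 9) (.e (nat_lit 426566) (nat_lit 34) (.e (nat_lit 393247) (nat_lit 17) .nil))))) .nil))) (.nd (nat_lit 5) 
(.lf (nat_lit 150815) (.g (nat_lit 1946) (.e (nat_lit 57379) (nat_lit 3) (.e (nat_lit 98365) (nat_lit 26) (.e (nat_lit 426187) (nat_lit 9) (.e (nat_lit 426566) (nat_lit 34) (.e (nat_lit 393235) (nat_lit 17) .nil))))) .nil)) 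
(.lf (nat_lit 150847) (.g (nat_lit 1764) (.e (nat_lit 57379) (nat_lit 3) (.e (nat_lit 98365) (nat_lit 26) (.e (nat_lit 426188) (nat_lit 9) (.e (nat_lit 426479) (nat_lit 27) (.e (nat_lit 336421) (nat_lit 28) .nil))))) .nil))))))))

noncomputable def tv2011 : DT := (.nd (nat_lit 0) (.nd (nat_lit 1) (.nd (nat_lit 2) (.nd (nat_lit 3) (.nd (nat_lit 4) (.nd (nat_lit 5) 
(.lf (nat_lit 150848) (.g (nat_lit 3324) (.e (nat_lit 57379) (nat_lit 3) (.e (nat_lit 98365) (nat_lit 26) (.e (nat_lit 426188) (nat_lit 9) (.e (nat_lit 426479) (nat_lit 27) (.e (nat_lit 336425) (nat_lit 28) (.e (nat_lit 434209) (nat_lit 18) (.e (nat_lit 5939) (nat_lit 322) .nil))))))) (.g (nat_lit 7) .nil .nil))) 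
(.lf (nat_lit 150880) (.g (nat_lit 2343) (.e (nat_lit 57379) (nat_lit 3) (.e (nat_lit 98365) (nat_lit 26) (.e (nat_lit 426188) (nat_lit 9) (.e (nat_lit 426566) (nat_lit 34) (.e (nat_lit 393239) (nat_lit 17) (.e (nat_lit 2456) (nat_lit 157) (.e (nat_lit 5939) (nat_lit 322) .nil))))))) (.g (nat_lit 4) .nil .nil)))) (.nd (nat_lit 5) 
(.lf (nat_lit 150864) (.g (nat_lit 1790) (.e (nat_lit 57379) (nat_lit 3) (.e (nat_lit 98365) (nat_lit 26) (.e (nat_lit 426188) (nat_lit 9) (.e (nat_lit 426566) (nat_lit 34) (.e (nat_lit 393231) (nat_lit 17) .nil))))) .nil)) 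
(.lf (nat_lit 150896) (.g (nat_lit 2714) (.e (nat_lit 57379) (nat_lit 3) (.e (nat_lit 98365) (nat_lit 26) (.e (nat_lit 426298) (nat_lit 11) (.e (nat_lit 458789) (nat_lit 23) (.e (nat_lit 532555) (nat_lit 13) (.e (nat_lit 368662) (nat_lit 18) (.e (nat_lit 7936) (nat_lit 283) .nil))))))) (.g (nat_lit 6) .nil .nil))))) (.nd (nat_lit 4) (.nd (nat_lit 5) 
(.lf (nat_lit 150856) (.g (nat_lit 3168) (.e (nat_lit 57379) (nat_lit 3) (.e (nat_lit 98365) (nat_lit 26) (.e (nat_lit 426188) (nat_lit 9) (.e (nat_lit 426486) (nat_lit 27) (.e (nat_lit 336425) (nat_lit 28) (.e (nat_lit 434209) (nat_lit 18) (.e (nat_lit 5939) (nat_lit 322) .nil))))))) (.g (nat_lit 7) .nil .nil))) 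
(.lf (nat_lit 150888) (.g (nat_lit 2222) (.e (nat_lit 57379) (nat_lit 3) (.e (nat_lit 98365) (nat_lit 26) (.e (nat_lit 426188) (nat_lit 9) (.e (nat_lit 426568) (nat_lit 34) (.e (nat_lit 393238) (nat_lit 17) (.e (nat_lit 7936) (nat_lit 157) (.e (nat_lit 5939) (nat_lit 322) .nil))))))) (.g (nat_lit 4) .nil .nil)))) (.nd (nat_lit 5) 
(.lf (nat_lit 150872) (.g (nat_lit 2689) (.e (nat_lit 57379) (nat_lit 3) (.e (nat_lit 98365) (nat_lit 26) (.e (nat_lit 426188) (nat_lit 9) (.e (nat_lit 426566) (nat_lit 34) (.e (nat_lit 393232) (nat_lit 17) (.e (nat_lit 2399) (nat_lit 157) (.e (nat_lit 5943) (nat_lit 322) .nil))))))) (.g (nat_lit 4) .nil .nil))) 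
(.lf (nat_lit 150904) (.g (nat_lit 1956) (.e (nat_lit 57379) (nat_lit 3) (.e (nat_lit 98365) (nat_lit 26) (.e (nat_lit 426325) (nat_lit 13) (.e (nat_lit 483337) (nat_lit 9) (.e (nat_lit 426031) (nat_lit 0) .nil))))) .nil))))) (.nd (nat_lit 3) (.nd (nat_lit 4) (.nd (nat_lit 5) 
(.lf (nat_lit 150852) (.g (nat_lit 2197) (.e (nat_lit 57379) (nat_lit 3) (.e (nat_lit 98365) (nat_lit 26) (.e (nat_lit 426188) (nat_lit 9) (.e (nat_lit 426484) (nat_lit 27) (.e (nat_lit 336424) (nat_lit 28) (.e (nat_lit 434209) (nat_lit 18) (.e (nat_lit 5939) (nat_lit 322) .nil))))))) (.g (nat_lit 4) .nil .nil))) 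
(.lf (nat_lit 150884) (.g (nat_lit 2235) (.e (nat_lit 57379) (nat_lit 3) (.e (nat_lit 98365) (nat_lit 26) (.e (nat_lit 426188) (nat_lit 9) (.e (nat_lit 426566) (nat_lit 34) (.e (nat_lit 393251) (nat_lit 18) (.e (nat_lit 164400) (nat_lit 256) .nil)))))) (.g (nat_lit 4) .nil .nil)))) (.nd (nat_lit 5) 
(.lf (nat_lit 150868) (.g (nat_lit 2078) (.e (nat_lit 57379) (nat_lit 3) (.e (nat_lit 98365) (nat_lit 26) (.e (nat_lit 426188) (nat_lit 9) (.e (nat_lit 426566) (nat_lit 34) (.e (nat_lit 393231) (nat_lit 17) (.e (nat_lit 2470) (nat_lit 157) (.e (nat_lit 5939) (nat_lit 322) .nil))))))) (.g (nat_lit 4) .nil .nil))) 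
(.lf (nat_lit 150900) (.g (nat_lit 2205) (.e (nat_lit 57379) (nat_lit 3) (.e (nat_lit 98365) (nat_lit 26) (.e (nat_lit 426325) (nat_lit 13) (.e (nat_lit 483337) (nat_lit 9) (.e (nat_lit 426009) (nat_lit 0) .nil))))) .nil)))) (.nd (nat_lit 4) (.nd (nat_lit 5) 
(.lf (nat_lit 150860) (.g (nat_lit 1689) (.e (nat_lit 57379) (nat_lit 3) (.e (nat_lit 98365) (nat_lit 26) (.e (nat_lit 426188) (nat_lit 9) (.e (nat_lit 426564) (nat_lit 34) (.e (nat_lit 393233) (nat_lit 17) .nil))))) .nil)) 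
(.lf (nat_lit 150892) (.g (nat_lit 2915) (.e (nat_lit 57379) (nat_lit 3) (.e (nat_lit 98365) (nat_lit 26) (.e (nat_lit 426298) (nat_lit 11) (.e (nat_lit 458789) (nat_lit 23) (.e (nat_lit 532553) (nat_lit 13) (.e (nat_lit 368662) (nat_lit 18) (.e (nat_lit 7936) (nat_lit 283) .nil))))))) (.g (nat_lit 6) .nil .nil)))) (.nd (nat_lit 5) 
(.lf (nat_lit 150876) (.g (nat_lit 2723) (.e (nat_lit 57379) (nat_lit 3) (.e (nat_lit 98365) (nat_lit 26) (.e (nat_lit 426188) (nat_lit 9) (.e (nat_lit 426566) (nat_lit 34) (.e (nat_lit 393235) (nat_lit 17) (.e (nat_lit 2464) (nat_lit 157) (.e (nat_lit 5939) (nat_lit 322) .nil))))))) (.g (nat_lit 4) .nil .nil))) 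
(.lf (nat_lit 150908) (.g (nat_lit 2042) (.e (nat_lit 57379) (nat_lit 3) (.e (nat_lit 98365) (nat_lit 26) (.e (nat_lit 426325) (nat_lit 13) (.e (nat_lit 483337) (nat_lit 9) (.e (nat_lit 426098) (nat_lit 1) (.e (nat_lit 164400) (nat_lit 256) .nil)))))) (.g (nat_lit 4) .nil .nil))))))) (.nd (nat_lit 2) (.nd (nat_lit 3) (.nd (nat_lit 4) (.nd (nat_lit 5) 
(.lf (nat_lit 150850) (.g (nat_lit 2403) (.e (nat_lit 57379) (nat_lit 3) (.e (nat_lit 98365) (nat_lit 26) (.e (nat_lit 426188) (nat_lit 9) (.e (nat_lit 426480) (nat_lit 27) (.e (nat_lit 336389) (nat_lit 27) (.e (nat_lit 426098) (nat_lit 1) (.e (nat_lit 164399) (nat_lit 256) .nil))))))) (.g (nat_lit 4) .nil .nil))) 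
(.lf (nat_lit 150882) (.g (nat_lit 2512) (.e (nat_lit 57379) (nat_lit 3) (.e (nat_lit 98365) (nat_lit 26) (.e (nat_lit 426188) (nat_lit 9) (.e (nat_lit 426566) (nat_lit 34) (.e (nat_lit 393239) (nat_lit 17) (.e (nat_lit 2473) (nat_lit 157) (.e (nat_lit 5939) (nat_lit 322) .nil))))))) (.g (nat_lit 4) .nil .nil)))) (.nd (nat_lit 5) 
(.lf (nat_lit 150866) (.g (nat_lit 2022) (.e (nat_lit 57379) (nat_lit 3) (.e (nat_lit 98365) (nat_lit 26) (.e (nat_lit 426188) (nat_lit 9) (.e (nat_lit 426566) (nat_lit 34) (.e (nat_lit 393231) (nat_lit 17) (.e (nat_lit 2459) (nat_lit 157) (.e (nat_lit 5939) (nat_lit 322) .nil))))))) (.g (nat_lit 4) .nil .nil))) 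
(.lf (nat_lit 150898) (.g (nat_lit 351) (.e (nat_lit 57379) (nat_lit 3) (.e (nat_lit 98365) (nat_lit 26) (.e (nat_lit 426325) (nat_lit 13) .nil))) .nil)))) (.nd (nat_lit 4) (.nd (nat_lit 5) 
(.lf (nat_lit 150858) (.g (nat_lit 2272) (.e (nat_lit 57379) (nat_lit 3) (.e (nat_lit 98365) (nat_lit 26) (.e (nat_lit 426188) (nat_lit 9) (.e (nat_lit 426491) (nat_lit 27) (.e (nat_lit 336409) (nat_lit 27) (.e (nat_lit 426100) (nat_lit 1) (.e (nat_lit 164399) (nat_lit 256) .nil))))))) (.g (nat_lit 4) .nil .nil))) 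
(.lf (nat_lit 150890) (.g (nat_lit 1221) (.e (nat_lit 57379) (nat_lit 3) (.e (nat_lit 98365) (nat_lit 26) (.e (nat_lit 426189) (nat_lit 9) (.e (nat_lit 426566) (nat_lit 34) (.e (nat_lit 393252) (nat_lit 18) .nil))))) .nil))) (.nd (nat_lit 5) 
(.lf (nat_lit 150874) (.g (nat_lit 2342) (.e (nat_lit 57379) (nat_lit 3) (.e (nat_lit 98365) (nat_lit 26) (.e (nat_lit 426188) (nat_lit 9) (.e (nat_lit 426566) (nat_lit 34) (.e (nat_lit 393233) (nat_lit 17) (.e (nat_lit 2399) (nat_lit 157) (.e (nat_lit 5942) (nat_lit 322) .nil))))))) (.g (nat_lit 4) .nil .nil))) 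
(.lf (nat_lit 150906) (.g (nat_lit 2205) (.e (nat_lit 57379) (nat_lit 3) (.e (nat_lit 98365) (nat_lit 26) (.e (nat_lit 426325) (nat_lit 13) (.e (nat_lit 483337) (nat_lit 9) (.e (nat_lit 426070) (nat_lit 0) .nil))))) .nil))))) (.nd (nat_lit 3) (.nd (nat_lit 4) (.nd (nat_lit 5) 
(.lf (nat_lit 150854) (.g (nat_lit 2292) (.e (nat_lit 57379) (nat_lit 3) (.e (nat_lit 98365) (nat_lit 26) (.e (nat_lit 426188) (nat_lit 9) (.e (nat_lit 426486) (nat_lit 27) (.e (nat_lit 336369) (nat_lit 27) (.e (nat_lit 426109) (nat_lit 1) (.e (nat_lit 164396) (nat_lit 256) .nil))))))) (.g (nat_lit 4) .nil .nil))) 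
(.lf (nat_lit 150886) (.g (nat_lit 2427) (.e (nat_lit 57379) (nat_lit 3) (.e (nat_lit 98365) (nat_lit 26) (.e (nat_lit 426188) (nat_lit 9) (.e (nat_lit 426567) (nat_lit 34) (.e (nat_lit 393251) (nat_lit 18) (.e (nat_lit 164399) (nat_lit 256) .nil)))))) (.g (nat_lit 4) .nil .nil)))) (.nd (nat_lit 5) 
(.lf (nat_lit 150870) (.g (nat_lit 2294) (.e (nat_lit 57379) (nat_lit 3) (.e (nat_lit 98365) (nat_lit 26) (.e (nat_lit 426188) (nat_lit 9) (.e (nat_lit 426566) (nat_lit 34) (.e (nat_lit 393231) (nat_lit 17) (.e (nat_lit 2473) (nat_lit 157) (.e (nat_lit 5939) (nat_lit 322) .nil))))))) (.g (nat_lit 4) .nil .nil))) 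
(.lf (nat_lit 150902) (.g (nat_lit 2134) (.e (nat_lit 57379) (nat_lit 3) (.e (nat_lit 98365) (nat_lit 26) (.e (nat_lit 426325) (nat_lit 13) (.e (nat_lit 483337) (nat_lit 9) (.e (nat_lit 426016) (nat_lit 0) .nil))))) .nil)))) (.nd (nat_lit 4) (.nd (nat_lit 5) 
(.lf (nat_lit 150862) (.g (nat_lit 1908) (.e (nat_lit 57379) (nat_lit 3) (.e (nat_lit 98365) (nat_lit 26) (.e (nat_lit 426188) (nat_lit 9) (.e (nat_lit 426566) (nat_lit 34) (.e (nat_lit 401152) (nat_lit 1) (.e (nat_lit 65280) (nat_lit 211) .nil)))))) (.g (nat_lit 4) .nil .nil))) 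
(.lf (nat_lit 150894) (.g (nat_lit 2217) (.e (nat_lit 57379) (nat_lit 3) (.e (nat_lit 98365) (nat_lit 26) (.e (nat_lit 426298) (nat_lit 11) (.e (nat_lit 458789) (nat_lit 23) (.e (nat_lit 532555) (nat_lit 13) (.e (nat_lit 368659) (nat_lit 18) (.e (nat_lit 4842) (nat_lit 283) .nil))))))) (.g (nat_lit 4) .nil .nil)))) (.nd (nat_lit 5) 
(.lf (nat_lit 150878) (.g (nat_lit 2153) (.e (nat_lit 57379) (nat_lit 3) (.e (nat_lit 98365) (nat_lit 26) (.e (nat_lit 426188) (nat_lit 9) (.e (nat_lit 426566) (nat_lit 34) (.e (nat_lit 393239) (nat_lit 17) .nil))))) .nil)) 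
(.lf (nat_lit 150910) (.g (nat_lit 3046) (.e (nat_lit 57379) (nat_lit 3) (.e (nat_lit 98365) (nat_lit 26) (.e (nat_lit 426325) (nat_lit 13) (.e (nat_lit 483337) (nat_lit 9) (.e (nat_lit 426142) (nat_lit 4) (.e (nat_lit 229707) (nat_lit 256) .nil)))))) (.g (nat_lit 4) .nil .nil)))))))) (.nd (nat_lit 1) (.nd (nat_lit 2) (.nd (nat_lit 3) (.nd (nat_lit 4) (.nd (nat_lit 5) 
(.lf (nat_lit 150849) (.g (nat_lit 1848) (.e (nat_lit 57379) (nat_lit 3) (.e (nat_lit 98365) (nat_lit 26) (.e (nat_lit 426188) (nat_lit 9) (.e (nat_lit 426479) (nat_lit 27) (.e (nat_lit 336436) (nat_lit 31) .nil))))) .nil)) 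
(.lf (nat_lit 150881) (.g (nat_lit 2793) (.e (nat_lit 57379) (nat_lit 3) (.e (nat_lit 98365) (nat_lit 26) (.e (nat_lit 426188) (nat_lit 9) (.e (nat_lit 426566) (nat_lit 34) (.e (nat_lit 393239) (nat_lit 17) (.e (nat_lit 2472) (nat_lit 157) (.e (nat_lit 5939) (nat_lit 322) .nil))))))) (.g (nat_lit 4) .nil .nil)))) (.nd (nat_lit 5) 
(.lf (nat_lit 150865) (.g (nat_lit 2241) (.e (nat_lit 57379) (nat_lit 3) (.e (nat_lit 98365) (nat_lit 26) (.e (nat_lit 426188) (nat_lit 9) (.e (nat_lit 426566) (nat_lit 34) (.e (nat_lit 393231) (nat_lit 17) (.e (nat_lit 2456) (nat_lit 157) (.e (nat_lit 5939) (nat_lit 322) .nil))))))) (.g (nat_lit 4) .nil .nil))) 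
(.lf (nat_lit 150897) (.g (nat_lit 1401) (.e (nat_lit 57379) (nat_lit 3) (.e (nat_lit 98365) (nat_lit 26) (.e (nat_lit 426306) (nat_lit 12) (.e (nat_lit 475177) (nat_lit 24) .nil)))) .nil)))) (.nd (nat_lit 4) (.nd (nat_lit 5) 
(.lf (nat_lit 150857) (.g (nat_lit 1528) (.e (nat_lit 57379) (nat_lit 3) (.e (nat_lit 98365) (nat_lit 26) (.e (nat_lit 426188) (nat_lit 9) (.e (nat_lit 426487) (nat_lit 27) .nil)))) .nil)) 
(.lf (nat_lit 150889) (.g (nat_lit 2455) (.e (nat_lit 57379) (nat_lit 3) (.e (nat_lit 98365) (nat_lit 26) (.e (nat_lit 426188) (nat_lit 9) (.e (nat_lit 426568) (nat_lit 34) (.e (nat_lit 393247) (nat_lit 17) .nil))))) .nil))) (.nd (nat_lit 5) 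
(.lf (nat_lit 150873) (.g (nat_lit 2343) (.e (nat_lit 57379) (nat_lit 3) (.e (nat_lit 98365) (nat_lit 26) (.e (nat_lit 426188) (nat_lit 9) (.e (nat_lit 426566) (nat_lit 34) (.e (nat_lit 393233) (nat_lit 17) (.e (nat_lit 2399) (nat_lit 157) (.e (nat_lit 5941) (nat_lit 322) .nil))))))) (.g (nat_lit 4) .nil .nil))) 
(.lf (nat_lit 150905) (.g (nat_lit 2205) (.e (nat_lit 57379) (nat_lit 3) (.e (nat_lit 98365) (nat_lit 26) (.e (nat_lit 426325) (nat_lit 13) (.e (nat_lit 483337) (nat_lit 9) (.e (nat_lit 426044) (nat_lit 0) .nil))))) .nil))))) (.nd (nat_lit 3) (.nd (nat_lit 4) (.nd (nat_lit 5) 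
(.lf (nat_lit 150853) (.g (nat_lit 2409) (.e (nat_lit 57379) (nat_lit 3) (.e (nat_lit 98365) (nat_lit 26) (.e (nat_lit 426188) (nat_lit 9) (.e (nat_lit 426484) (nat_lit 27) (.e (nat_lit 336425) (nat_lit 28) (.e (nat_lit 434209) (nat_lit 18) (.e (nat_lit 5939) (nat_lit 322) .nil))))))) (.g (nat_lit 5) .nil .nil))) 
(.lf (nat_lit 150885) (.g (nat_lit 3387) (.e (nat_lit 57379) (nat_lit 3) (.e (nat_lit 98365) (nat_lit 26) (.e (nat_lit 426188) (nat_lit 9) (.e (nat_lit 426566) (nat_lit 34) (.e (nat_lit 393252) (nat_lit 18) (.e (nat_lit 164400) (nat_lit 256) .nil)))))) (.g (nat_lit 0) .nil .nil)))) (.nd (nat_lit 5) 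
(.lf (nat_lit 150869) (.g (nat_lit 2129) (.e (nat_lit 57379) (nat_lit 3) (.e (nat_lit 98365) (nat_lit 26) (.e (nat_lit 426188) (nat_lit 9) (.e (nat_lit 426566) (nat_lit 34) (.e (nat_lit 393231) (nat_lit 17) (.e (nat_lit 2472) (nat_lit 157) (.e (nat_lit 5939) (nat_lit 322) .nil))))))) (.g (nat_lit 4) .nil .nil))) 
(.lf (nat_lit 150901) (.g (nat_lit 2205) (.e (nat_lit 57379) (nat_lit 3) (.e (nat_lit 98365) (nat_lit 26) (.e (nat_lit 426325) (nat_lit 13) (.e (nat_lit 483337) (nat_lit 9) (.e (nat_lit 426014) (nat_lit 0) .nil))))) .nil)))) (.nd (nat_lit 4) (.nd (nat_lit 5) 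
(.lf (nat_lit 150861) (.g (nat_lit 1042) (.e (nat_lit 57379) (nat_lit 3) (.e (nat_lit 98365) (nat_lit 26) (.e (nat_lit 426188) (nat_lit 9) (.e (nat_lit 426566) (nat_lit 34) .nil)))) .nil)) 
(.lf (nat_lit 150893) (.g (nat_lit 1838) (.e (nat_lit 57379) (nat_lit 3) (.e (nat_lit 98365) (nat_lit 26) (.e (nat_lit 426298) (nat_lit 11) (.e (nat_lit 458789) (nat_lit 23) (.e (nat_lit 532555) (nat_lit 13) (.e (nat_lit 368659) (nat_lit 18) (.e (nat_lit 4841) (nat_lit 283) .nil))))))) (.g (nat_lit 4) .nil .nil)))) (.nd (nat_lit 5) 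
(.lf (nat_lit 150877) (.g (nat_lit 1827) (.e (nat_lit 57379) (nat_lit 3) (.e (nat_lit 98365) (nat_lit 26) (.e (nat_lit 426188) (nat_lit 9) (.e (nat_lit 426566) (nat_lit 34) (.e (nat_lit 393237) (nat_lit 17) .nil))))) .nil)) 
(.lf (nat_lit 150909) (.g (nat_lit 2659) (.e (nat_lit 57379) (nat_lit 3) (.e (nat_lit 98365) (nat_lit 26) (.e (nat_lit 426325) (nat_lit 13) (.e (nat_lit 483337) (nat_lit 9) (.e (nat_lit 426100) (nat_lit 1) (.e (nat_lit 164400) (nat_lit 256) .nil)))))) (.g (nat_lit 5) .nil .nil))))))) (.nd (nat_lit 2) (.nd (nat_lit 3) (.nd (nat_lit 4) (.nd (nat_lit 5) 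
(.lf (nat_lit 150851) (.g (nat_lit 3052) (.e (nat_lit 57379) (nat_lit 3) (.e (nat_lit 98365) (nat_lit 26) (.e (nat_lit 426188) (nat_lit 9) (.e (nat_lit 426481) (nat_lit 27) (.e (nat_lit 336389) (nat_lit 27) (.e (nat_lit 426098) (nat_lit 1) (.e (nat_lit 164399) (nat_lit 256) .nil))))))) (.g (nat_lit 5) .nil .nil))) 
(.lf (nat_lit 150883) (.g (nat_lit 2175) (.e (nat_lit 57379) (nat_lit 3) (.e (nat_lit 98365) (nat_lit 26) (.e (nat_lit 426188) (nat_lit 9) (.e (nat_lit 426566) (nat_lit 34) (.e (nat_lit 393247) (nat_lit 17) .nil))))) .nil))) (.nd (nat_lit 5) 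
(.lf (nat_lit 150867) (.g (nat_lit 2051) (.e (nat_lit 57379) (nat_lit 3) (.e (nat_lit 98365) (nat_lit 26) (.e (nat_lit 426188) (nat_lit 9) (.e (nat_lit 426566) (nat_lit 34) (.e (nat_lit 393231) (nat_lit 17) (.e (nat_lit 2469) (nat_lit 157) (.e (nat_lit 5939) (nat_lit 322) .nil))))))) (.g (nat_lit 4) .nil .nil))) 
(.lf (nat_lit 150899) (.g (nat_lit 2205) (.e (nat_lit 57379) (nat_lit 3) (.e (nat_lit 98365) (nat_lit 26) (.e (nat_lit 426325) (nat_lit 13) (.e (nat_lit 483337) (nat_lit 9) (.e (nat_lit 426003) (nat_lit 0) .nil))))) .nil)))) (.nd (nat_lit 4) (.nd (nat_lit 5) 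
(.lf (nat_lit 150859) (.g (nat_lit 1296) (.e (nat_lit 57379) (nat_lit 3) (.e (nat_lit 98365) (nat_lit 26) (.e (nat_lit 426188) (nat_lit 9) (.e (nat_lit 426564) (nat_lit 34) .nil)))) .nil)) 
(.lf (nat_lit 150891) (.g (nat_lit 1556) (.e (nat_lit 57379) (nat_lit 3) (.e (nat_lit 98365) (nat_lit 26) (.e (nat_lit 426298) (nat_lit 11) (.e (nat_lit 458789) (nat_lit 23) (.e (nat_lit 532553) (nat_lit 13) (.e (nat_lit 368659) (nat_lit 18) (.e (nat_lit 7936) (nat_lit 283) .nil))))))) (.g (nat_lit 4) .nil .nil)))) (.nd (nat_lit 5) 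
(.lf (nat_lit 150875) (.g (nat_lit 2147) (.e (nat_lit 57379) (nat_lit 3) (.e (nat_lit 98365) (nat_lit 26) (.e (nat_lit 426188) (nat_lit 9) (.e (nat_lit 426566) (nat_lit 34) (.e (nat_lit 393235) (nat_lit 17) .nil))))) .nil)) 
(.lf (nat_lit 150907) (.g (nat_lit 2230) (.e (nat_lit 57379) (nat_lit 3) (.e (nat_lit 98365) (nat_lit 26) (.e (nat_lit 426325) (nat_lit 13) (.e (nat_lit 483337) (nat_lit 9) (.e (nat_lit 426097) (nat_lit 1) (.e (nat_lit 164400) (nat_lit 256) .nil)))))) (.g (nat_lit 4) .nil .nil)))))) (.nd (nat_lit 3) (.nd (nat_lit 4) (.nd (nat_lit 5) 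
(.lf (nat_lit 150855) (.g (nat_lit 2327) (.e (nat_lit 57379) (nat_lit 3) (.e (nat_lit 98365) (nat_lit 26) (.e (nat_lit 426188) (nat_lit 9) (.e (nat_lit 426486) (nat_lit 27) (.e (nat_lit 336423) (nat_lit 28) (.e (nat_lit 434209) (nat_lit 18) (.e (nat_lit 5939) (nat_lit 322) .nil))))))) (.g (nat_lit 5) .nil .nil))) 
(.lf (nat_lit 150887) (.g (nat_lit 1193) (.e (nat_lit 57379) (nat_lit 3) (.e (nat_lit 98365) (nat_lit 26) (.e (nat_lit 426188) (nat_lit 9) (.e (nat_lit 426568) (nat_lit 34) .nil)))) .nil))) (.nd (nat_lit 5) 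
(.lf (nat_lit 150871) (.g (nat_lit 2706) (.e (nat_lit 57379) (nat_lit 3) (.e (nat_lit 98365) (nat_lit 26) (.e (nat_lit 426188) (nat_lit 9) (.e (nat_lit 426566) (nat_lit 34) (.e (nat_lit 393232) (nat_lit 17) (.e (nat_lit 2399) (nat_lit 157) (.e (nat_lit 5940) (nat_lit 322) .nil))))))) (.g (nat_lit 4) .nil .nil))) 
(.lf (nat_lit 150903) (.g (nat_lit 2139) (.e (nat_lit 57379) (nat_lit 3) (.e (nat_lit 98365) (nat_lit 26) (.e (nat_lit 426325) (nat_lit 13) (.e (nat_lit 483337) (nat_lit 9) (.e (nat_lit 426030) (nat_lit 0) .nil))))) .nil)))) (.nd (nat_lit 4) (.nd (nat_lit 5) 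
(.lf (nat_lit 150863) (.g (nat_lit 2295) (.e (nat_lit 57379) (nat_lit 3) (.e (nat_lit 98365) (nat_lit 26) (.e (nat_lit 426188) (nat_lit 9) (.e (nat_lit 426566) (nat_lit 34) (.e (nat_lit 393230) (nat_lit 17) .nil))))) .nil)) 
(.lf (nat_lit 150895) (.g (nat_lit 2260) (.e (nat_lit 57379) (nat_lit 3) (.e (nat_lit 98365) (nat_lit 26) (.e (nat_lit 426298) (nat_lit 11) (.e (nat_lit 458789) (nat_lit 23) (.e (nat_lit 532555) (nat_lit 13) (.e (nat_lit 368659) (nat_lit 18) (.e (nat_lit 7936) (nat_lit 283) .nil))))))) (.g (nat_lit 5) .nil .nil)))) (.nd (nat_lit 5) 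
(.lf (nat_lit 150879) (.g (nat_lit 2351) (.e (nat_lit 57379) (nat_lit 3) (.e (nat_lit 98365) (nat_lit 26) (.e (nat_lit 426188) (nat_lit 9) (.e (nat_lit 426566) (nat_lit 34) (.e (nat_lit 393239) (nat_lit 17) (.e (nat_lit 2416) (nat_lit 157) (.e (nat_lit 5939) (nat_lit 322) .nil))))))) (.g (nat_lit 4) .nil .nil))) 
(.lf (nat_lit 150911) (.g (nat_lit 2250) (.e (nat_lit 57379) (nat_lit 3) (.e (nat_lit 98365) (nat_lit 26) (.e (nat_lit 426325) (nat_lit 13) (.e (nat_lit 483337) (nat_lit 9) (.e (nat_lit 426145) (nat_lit 4) (.e (nat_lit 229707) (nat_lit 256) .nil)))))) (.g (nat_lit 4) .nil .nil)))))))))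

noncomputable def tv2012 : DT := (.nd (nat_lit 0) (.nd (nat_lit 1) (.nd (nat_lit 2) (.nd (nat_lit 3) (.nd (nat_lit 4) (.nd (nat_lit 5) 
(.lf (nat_lit 150912) (.g (nat_lit 2347) (.e (nat_lit 57379) (nat_lit 3) (.e (nat_lit 98365) (nat_lit 26) (.e (nat_lit 426325) (nat_lit 13) (.e (nat_lit 483341) (nat_lit 9) (.e (nat_lit 426009) (nat_lit 0) .nil))))) .nil)) 
(.lf (nat_lit 150944) (.g (nat_lit 2286) (.e (nat_lit 57379) (nat_lit 3) (.e (nat_lit 98366) (nat_lit 27) (.e (nat_lit 434231) (nat_lit 23) (.e (nat_lit 532507) (nat_lit 2) (.e (nat_lit 106537) (nat_lit 12) (.e (nat_lit 57467) (nat_lit 23) (.e (nat_lit 516115) (nat_lit 1) (.e (nat_lit 164399) (nat_lit 256) .nil)))))))) (.g (nat_lit 4) .nil .nil)))) (.nd (nat_lit 5) 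
(.lf (nat_lit 150928) (.g (nat_lit 3056) (.e (nat_lit 57379) (nat_lit 3) (.e (nat_lit 98366) (nat_lit 27) (.e (nat_lit 434231) (nat_lit 23) (.e (nat_lit 532483) (nat_lit 0) (.e (nat_lit 2198) (nat_lit 144) .nil))))) .nil)) 
(.lf (nat_lit 150960) (.g (nat_lit 2056) (.e (nat_lit 57379) (nat_lit 3) (.e (nat_lit 98366) (nat_lit 27) (.e (nat_lit 434231) (nat_lit 23) (.e (nat_lit 532513) (nat_lit 3) (.e (nat_lit 114718) (nat_lit 23) .nil))))) .nil)))) (.nd (nat_lit 4) (.nd (nat_lit 5) 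
(.lf (nat_lit 150920) (.g (nat_lit 2289) (.e (nat_lit 57379) (nat_lit 3) (.e (nat_lit 98365) (nat_lit 26) (.e (nat_lit 426327) (nat_lit 13) (.e (nat_lit 483341) (nat_lit 9) (.e (nat_lit 426098) (nat_lit 1) (.e (nat_lit 164397) (nat_lit 256) .nil)))))) (.g (nat_lit 4) .nil .nil))) 
(.lf (nat_lit 150952) (.g (nat_lit 2217) (.e (nat_lit 57379) (nat_lit 3) (.e (nat_lit 98366) (nat_lit 27) (.e (nat_lit 434231) (nat_lit 23) (.e (nat_lit 532507) (nat_lit 2) (.e (nat_lit 106541) (nat_lit 13) (.e (nat_lit 122936) (nat_lit 23) (.e (nat_lit 516117) (nat_lit 1) (.e (nat_lit 164400) (nat_lit 256) .nil)))))))) (.g (nat_lit 4) .nil .nil)))) (.nd (nat_lit 5) 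
(.lf (nat_lit 150936) (.g (nat_lit 2400) (.e (nat_lit 57379) (nat_lit 3) (.e (nat_lit 98366) (nat_lit 27) (.e (nat_lit 434231) (nat_lit 23) (.e (nat_lit 532506) (nat_lit 2) (.e (nat_lit 106540) (nat_lit 13) (.e (nat_lit 122936) (nat_lit 23) (.e (nat_lit 516117) (nat_lit 1) (.e (nat_lit 164397) (nat_lit 256) .nil)))))))) (.g (nat_lit 4) .nil .nil))) 
(.lf (nat_lit 150968) (.g (nat_lit 3769) (.e (nat_lit 57379) (nat_lit 3) (.e (nat_lit 98366) (nat_lit 27) (.e (nat_lit 434231) (nat_lit 23) (.e (nat_lit 532513) (nat_lit 3) (.e (nat_lit 114719) (nat_lit 23) (.e (nat_lit 98334) (nat_lit 18) (.e (nat_lit 164397) (nat_lit 256) .nil))))))) (.g (nat_lit 6) .nil .nil)))))) (.nd (nat_lit 3) (.nd (nat_lit 4) (.nd (nat_lit 5) 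
(.lf (nat_lit 150916) (.g (nat_lit 943) (.e (nat_lit 57379) (nat_lit 3) (.e (nat_lit 98365) (nat_lit 26) (.e (nat_lit 426325) (nat_lit 13) (.e (nat_lit 491264) (nat_lit 10) .nil)))) .nil)) 
(.lf (nat_lit 150948) (.g (nat_lit 2398) (.e (nat_lit 57379) (nat_lit 3) (.e (nat_lit 98366) (nat_lit 27) (.e (nat_lit 434231) (nat_lit 23) (.e (nat_lit 532507) (nat_lit 2) (.e (nat_lit 106540) (nat_lit 13) (.e (nat_lit 122936) (nat_lit 23) (.e (nat_lit 516117) (nat_lit 1) (.e (nat_lit 164396) (nat_lit 256) .nil)))))))) (.g (nat_lit 4) .nil .nil)))) (.nd (nat_lit 5) 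
(.lf (nat_lit 150932) (.g (nat_lit 2548) (.e (nat_lit 57379) (nat_lit 3) (.e (nat_lit 98366) (nat_lit 27) (.e (nat_lit 434231) (nat_lit 23) (.e (nat_lit 532506) (nat_lit 2) (.e (nat_lit 106539) (nat_lit 12) (.e (nat_lit 57466) (nat_lit 23) (.e (nat_lit 516115) (nat_lit 1) (.e (nat_lit 164398) (nat_lit 256) .nil)))))))) (.g (nat_lit 4) .nil .nil))) 
(.lf (nat_lit 150964) (.g (nat_lit 3227) (.e (nat_lit 57379) (nat_lit 3) (.e (nat_lit 98366) (nat_lit 27) (.e (nat_lit 434231) (nat_lit 23) (.e (nat_lit 532513) (nat_lit 3) (.e (nat_lit 114719) (nat_lit 23) (.e (nat_lit 98333) (nat_lit 18) (.e (nat_lit 164397) (nat_lit 256) .nil))))))) (.g (nat_lit 5) .nil .nil))))) (.nd (nat_lit 4) (.nd (nat_lit 5) 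
(.lf (nat_lit 150924) (.g (nat_lit 1006) (.e (nat_lit 57379) (nat_lit 3) (.e (nat_lit 98365) (nat_lit 26) (.e (nat_lit 426327) (nat_lit 13) (.e (nat_lit 491264) (nat_lit 10) .nil)))) .nil)) 
(.lf (nat_lit 150956) (.g (nat_lit 2512) (.e (nat_lit 57379) (nat_lit 3) (.e (nat_lit 98366) (nat_lit 27) (.e (nat_lit 434231) (nat_lit 23) (.e (nat_lit 532513) (nat_lit 3) (.e (nat_lit 114708) (nat_lit 20) (.e (nat_lit 1800) (nat_lit 119) (.e (nat_lit 516117) (nat_lit 1) (.e (nat_lit 164400) (nat_lit 256) .nil)))))))) (.g (nat_lit 4) .nil .nil)))) (.nd (nat_lit 5) 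
(.lf (nat_lit 150940) (.g (nat_lit 1569) (.e (nat_lit 57379) (nat_lit 3) (.e (nat_lit 98366) (nat_lit 27) (.e (nat_lit 434231) (nat_lit 23) (.e (nat_lit 532507) (nat_lit 2) (.e (nat_lit 106517) (nat_lit 9) .nil))))) .nil)) 
(.lf (nat_lit 150972) (.g (nat_lit 2750) (.e (nat_lit 57379) (nat_lit 3) (.e (nat_lit 98366) (nat_lit 27) (.e (nat_lit 434231) (nat_lit 23) (.e (nat_lit 532514) (nat_lit 3) (.e (nat_lit 114706) (nat_lit 20) (.e (nat_lit 1796) (nat_lit 119) (.e (nat_lit 516115) (nat_lit 1) (.e (nat_lit 164399) (nat_lit 256) .nil)))))))) (.g (nat_lit 4) .nil .nil))))))) 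
(.nd (nat_lit 2) (.nd (nat_lit 3) (.nd (nat_lit 4) (.nd (nat_lit 5) 
(.lf (nat_lit 150914) (.g (nat_lit 2547) (.e (nat_lit 57379) (nat_lit 3) (.e (nat_lit 98365) (nat_lit 26) (.e (nat_lit 426325) (nat_lit 13) (.e (nat_lit 483341) (nat_lit 9) (.e (nat_lit 426142) (nat_lit 4) .nil))))) .nil)) 
(.lf (nat_lit 150946) (.g (nat_lit 2096) (.e (nat_lit 57379) (nat_lit 3) (.e (nat_lit 98366) (nat_lit 27) (.e (nat_lit 434231) (nat_lit 23) (.e (nat_lit 532507) (nat_lit 2) (.e (nat_lit 106539) (nat_lit 12) (.e (nat_lit 57466) (nat_lit 23) (.e (nat_lit 516115) (nat_lit 1) (.e (nat_lit 164399) (nat_lit 256) .nil)))))))) (.g (nat_lit 4) .nil .nil)))) (.nd (nat_lit 5) 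
(.lf (nat_lit 150930) (.g (nat_lit 2269) (.e (nat_lit 57379) (nat_lit 3) (.e (nat_lit 98366) (nat_lit 27) (.e (nat_lit 434231) (nat_lit 23) (.e (nat_lit 532506) (nat_lit 2) (.e (nat_lit 106537) (nat_lit 12) (.e (nat_lit 57464) (nat_lit 23) (.e (nat_lit 516115) (nat_lit 1) (.e (nat_lit 164399) (nat_lit 256) .nil)))))))) (.g (nat_lit 4) .nil .nil))) 
(.lf (nat_lit 150962) (.g (nat_lit 3547) (.e (nat_lit 57379) (nat_lit 3) (.e (nat_lit 98366) (nat_lit 27) (.e (nat_lit 434231) (nat_lit 23) (.e (nat_lit 532513) (nat_lit 3) (.e (nat_lit 114718) (nat_lit 23) (.e (nat_lit 98334) (nat_lit 18) (.e (nat_lit 164400) (nat_lit 256) .nil))))))) (.g (nat_lit 5) .nil .nil))))) (.nd (nat_lit 4) (.nd (nat_lit 5) 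
(.lf (nat_lit 150922) (.g (nat_lit 3239) (.e (nat_lit 57379) (nat_lit 3) (.e (nat_lit 98365) (nat_lit 26) (.e (nat_lit 426327) (nat_lit 13) (.e (nat_lit 483341) (nat_lit 9) (.e (nat_lit 426100) (nat_lit 1) (.e (nat_lit 164399) (nat_lit 256) .nil)))))) (.g (nat_lit 6) .nil .nil))) 
(.lf (nat_lit 150954) (.g (nat_lit 973) (.e (nat_lit 57379) (nat_lit 3) (.e (nat_lit 98366) (nat_lit 27) (.e (nat_lit 434231) (nat_lit 23) (.e (nat_lit 532513) (nat_lit 3) .nil)))) .nil))) (.nd (nat_lit 5) 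
(.lf (nat_lit 150938) (.g (nat_lit 2381) (.e (nat_lit 57379) (nat_lit 3) (.e (nat_lit 98366) (nat_lit 27) (.e (nat_lit 434231) (nat_lit 23) (.e (nat_lit 532506) (nat_lit 2) (.e (nat_lit 106541) (nat_lit 13) (.e (nat_lit 122936) (nat_lit 23) (.e (nat_lit 516117) (nat_lit 1) (.e (nat_lit 164398) (nat_lit 256) .nil)))))))) (.g (nat_lit 4) .nil .nil))) 
(.lf (nat_lit 150970) (.g (nat_lit 2963) (.e (nat_lit 57379) (nat_lit 3) (.e (nat_lit 98366) (nat_lit 27) (.e (nat_lit 434231) (nat_lit 23) (.e (nat_lit 532513) (nat_lit 3) (.e (nat_lit 114719) (nat_lit 23) (.e (nat_lit 98334) (nat_lit 18) (.e (nat_lit 164400) (nat_lit 256) .nil))))))) (.g (nat_lit 5) .nil .nil)))))) (.nd (nat_lit 3) (.nd (nat_lit 4) (.nd (nat_lit 5) 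
(.lf (nat_lit 150918) (.g (nat_lit 808) (.e (nat_lit 57379) (nat_lit 3) (.e (nat_lit 98365) (nat_lit 26) (.e (nat_lit 426326) (nat_lit 13) (.e (nat_lit 491264) (nat_lit 10) .nil)))) .nil)) 
(.lf (nat_lit 150950) (.g (nat_lit 2171) (.e (nat_lit 57379) (nat_lit 3) (.e (nat_lit 98366) (nat_lit 27) (.e (nat_lit 434231) (nat_lit 23) (.e (nat_lit 532507) (nat_lit 2) (.e (nat_lit 106541) (nat_lit 13) (.e (nat_lit 122936) (nat_lit 23) (.e (nat_lit 516115) (nat_lit 1) (.e (nat_lit 164399) (nat_lit 256) .nil)))))))) (.g (nat_lit 4) .nil .nil)))) (.nd (nat_lit 5) 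
(.lf (nat_lit 150934) (.g (nat_lit 2557) (.e (nat_lit 57379) (nat_lit 3) (.e (nat_lit 98366) (nat_lit 27) (.e (nat_lit 434231) (nat_lit 23) (.e (nat_lit 532506) (nat_lit 2) (.e (nat_lit 106539) (nat_lit 12) (.e (nat_lit 57467) (nat_lit 23) (.e (nat_lit 516115) (nat_lit 1) (.e (nat_lit 164398) (nat_lit 256) .nil)))))))) (.g (nat_lit 4) .nil .nil))) 
(.lf (nat_lit 150966) (.g (nat_lit 3493) (.e (nat_lit 57379) (nat_lit 3) (.e (nat_lit 98366) (nat_lit 27) (.e (nat_lit 434231) (nat_lit 23) (.e (nat_lit 532513) (nat_lit 3) (.e (nat_lit 114719) (nat_lit 23) (.e (nat_lit 98333) (nat_lit 18) (.e (nat_lit 164399) (nat_lit 256) .nil))))))) (.g (nat_lit 6) .nil .nil))))) (.nd (nat_lit 4) (.nd (nat_lit 5) 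
(.lf (nat_lit 150926) (.g (nat_lit 1983) (.e (nat_lit 57379) (nat_lit 3) (.e (nat_lit 98365) (nat_lit 26) (.e (nat_lit 426334) (nat_lit 13) (.e (nat_lit 483341) (nat_lit 9) (.e (nat_lit 426100) (nat_lit 1) (.e (nat_lit 164399) (nat_lit 256) .nil)))))) (.g (nat_lit 4) .nil .nil))) 
(.lf (nat_lit 150958) (.g (nat_lit 2303) (.e (nat_lit 57379) (nat_lit 3) (.e (nat_lit 98366) (nat_lit 27) (.e (nat_lit 434231) (nat_lit 23) (.e (nat_lit 532513) (nat_lit 3) (.e (nat_lit 114717) (nat_lit 23) .nil))))) .nil))) (.nd (nat_lit 5) 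
(.lf (nat_lit 150942) (.g (nat_lit 2126) (.e (nat_lit 57379) (nat_lit 3) (.e (nat_lit 98366) (nat_lit 27) (.e (nat_lit 434231) (nat_lit 23) (.e (nat_lit 532507) (nat_lit 2) (.e (nat_lit 106537) (nat_lit 12) (.e (nat_lit 57464) (nat_lit 23) (.e (nat_lit 516116) (nat_lit 1) (.e (nat_lit 164400) (nat_lit 256) .nil)))))))) (.g (nat_lit 4) .nil .nil))) 
(.lf (nat_lit 150974) (.g (nat_lit 1909) (.e (nat_lit 57379) (nat_lit 3) (.e (nat_lit 98366) (nat_lit 27) (.e (nat_lit 434231) (nat_lit 23) (.e (nat_lit 532514) (nat_lit 3) (.e (nat_lit 114715) (nat_lit 22) .nil))))) .nil))))))) (.nd (nat_lit 1) (.nd (nat_lit 2) (.nd (nat_lit 3) (.nd (nat_lit 4) (.nd (nat_lit 5) 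
(.lf (nat_lit 150913) (.g (nat_lit 2274) (.e (nat_lit 57379) (nat_lit 3) (.e (nat_lit 98365) (nat_lit 26) (.e (nat_lit 426325) (nat_lit 13) (.e (nat_lit 483341) (nat_lit 9) (.e (nat_lit 426031) (nat_lit 0) .nil))))) .nil)) 
(.lf (nat_lit 150945) (.g (nat_lit 2911) (.e (nat_lit 57379) (nat_lit 3) (.e (nat_lit 98366) (nat_lit 27) (.e (nat_lit 434231) (nat_lit 23) (.e (nat_lit 532507) (nat_lit 2) (.e (nat_lit 106538) (nat_lit 12) (.e (nat_lit 57465) (nat_lit 23) (.e (nat_lit 516115) (nat_lit 1) (.e (nat_lit 164399) (nat_lit 256) .nil)))))))) (.g (nat_lit 5) .nil .nil)))) (.nd (nat_lit 5) 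
(.lf (nat_lit 150929) (.g (nat_lit 1324) (.e (nat_lit 57379) (nat_lit 3) (.e (nat_lit 98366) (nat_lit 27) (.e (nat_lit 434231) (nat_lit 23) (.e (nat_lit 532506) (nat_lit 2) .nil)))) .nil)) 
(.lf (nat_lit 150961) (.g (nat_lit 3872) (.e (nat_lit 57379) (nat_lit 3) (.e (nat_lit 98366) (nat_lit 27) (.e (nat_lit 434231) (nat_lit 23) (.e (nat_lit 532513) (nat_lit 3) (.e (nat_lit 114718) (nat_lit 23) (.e (nat_lit 98334) (nat_lit 18) (.e (nat_lit 164397) (nat_lit 256) .nil))))))) (.g (nat_lit 5) .nil .nil))))) (.nd (nat_lit 4) (.nd (nat_lit 5) 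
(.lf (nat_lit 150921) (.g (nat_lit 3063) (.e (nat_lit 57379) (nat_lit 3) (.e (nat_lit 98365) (nat_lit 26) (.e (nat_lit 426327) (nat_lit 13) (.e (nat_lit 483341) (nat_lit 9) (.e (nat_lit 426098) (nat_lit 1) (.e (nat_lit 164399) (nat_lit 256) .nil)))))) (.g (nat_lit 6) .nil .nil))) 
(.lf (nat_lit 150953) (.g (nat_lit 2038) (.e (nat_lit 57379) (nat_lit 3) (.e (nat_lit 98366) (nat_lit 27) (.e (nat_lit 434231) (nat_lit 23) (.e (nat_lit 532507) (nat_lit 2) (.e (nat_lit 114432) (nat_lit 13) (.e (nat_lit 122936) (nat_lit 23) (.e (nat_lit 516117) (nat_lit 1) (.e (nat_lit 164397) (nat_lit 256) .nil)))))))) (.g (nat_lit 4) .nil .nil)))) (.nd (nat_lit 5) 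
(.lf (nat_lit 150937) (.g (nat_lit 2101) (.e (nat_lit 57379) (nat_lit 3) (.e (nat_lit 98366) (nat_lit 27) (.e (nat_lit 434231) (nat_lit 23) (.e (nat_lit 532506) (nat_lit 2) (.e (nat_lit 106541) (nat_lit 13) (.e (nat_lit 122936) (nat_lit 23) (.e (nat_lit 516115) (nat_lit 1) (.e (nat_lit 164399) (nat_lit 256) .nil)))))))) (.g (nat_lit 4) .nil .nil))) 
(.lf (nat_lit 150969) (.g (nat_lit 3631) (.e (nat_lit 57379) (nat_lit 3) (.e (nat_lit 98366) (nat_lit 27) (.e (nat_lit 434231) (nat_lit 23) (.e (nat_lit 532513) (nat_lit 3) (.e (nat_lit 114719) (nat_lit 23) (.e (nat_lit 98334) (nat_lit 18) (.e (nat_lit 164399) (nat_lit 256) .nil))))))) (.g (nat_lit 6) .nil .nil)))))) (.nd (nat_lit 3) (.nd (nat_lit 4) (.nd (nat_lit 5) 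
(.lf (nat_lit 150917) (.g (nat_lit 484) (.e (nat_lit 57379) (nat_lit 3) (.e (nat_lit 98365) (nat_lit 26) (.e (nat_lit 426326) (nat_lit 13) .nil))) .nil)) 
(.lf (nat_lit 150949) (.g (nat_lit 2632) (.e (nat_lit 57379) (nat_lit 3) (.e (nat_lit 98366) (nat_lit 27) (.e (nat_lit 434231) (nat_lit 23) (.e (nat_lit 532507) (nat_lit 2) (.e (nat_lit 106540) (nat_lit 13) (.e (nat_lit 122936) (nat_lit 23) (.e (nat_lit 516117) (nat_lit 1) (.e (nat_lit 164397) (nat_lit 256) .nil)))))))) (.g (nat_lit 5) .nil .nil)))) (.nd (nat_lit 5) 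
(.lf (nat_lit 150933) (.g (nat_lit 2700) (.e (nat_lit 57379) (nat_lit 3) (.e (nat_lit 98366) (nat_lit 27) (.e (nat_lit 434231) (nat_lit 23) (.e (nat_lit 532506) (nat_lit 2) (.e (nat_lit 106539) (nat_lit 12) (.e (nat_lit 57466) (nat_lit 23) (.e (nat_lit 516117) (nat_lit 1) (.e (nat_lit 164400) (nat_lit 256) .nil)))))))) (.g (nat_lit 4) .nil .nil))) 
(.lf (nat_lit 150965) (.g (nat_lit 3730) (.e (nat_lit 57379) (nat_lit 3) (.e (nat_lit 98366) (nat_lit 27) (.e (nat_lit 434231) (nat_lit 23) (.e (nat_lit 532513) (nat_lit 3) (.e (nat_lit 114719) (nat_lit 23) (.e (nat_lit 98333) (nat_lit 18) (.e (nat_lit 164398) (nat_lit 256) .nil))))))) (.g (nat_lit 6) .nil .nil))))) (.nd (nat_lit 4) (.nd (nat_lit 5) 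
(.lf (nat_lit 150925) (.g (nat_lit 498) (.e (nat_lit 57379) (nat_lit 3) (.e (nat_lit 98365) (nat_lit 26) (.e (nat_lit 426334) (nat_lit 13) .nil))) .nil)) 
(.lf (nat_lit 150957) (.g (nat_lit 1907) (.e (nat_lit 57379) (nat_lit 3) (.e (nat_lit 98366) (nat_lit 27) (.e (nat_lit 434231) (nat_lit 23) (.e (nat_lit 532513) (nat_lit 3) (.e (nat_lit 114714) (nat_lit 22) .nil))))) .nil))) (.nd (nat_lit 5) 
(.lf (nat_lit 150941) (.g (nat_lit 2176) (.e (nat_lit 57379) (nat_lit 3) (.e (nat_lit 98366) (nat_lit 27) (.e (nat_lit 434231) (nat_lit 23) (.e (nat_lit 532507) (nat_lit 2) (.e (nat_lit 106537) (nat_lit 12) (.e (nat_lit 57464) (nat_lit 23) (.e (nat_lit 516116) (nat_lit 1) (.e (nat_lit 164397) (nat_lit 256) .nil)))))))) (.g (nat_lit 4) .nil .nil))) 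
(.lf (nat_lit 150973) (.g (nat_lit 2598) (.e (nat_lit 57379) (nat_lit 3) (.e (nat_lit 98366) (nat_lit 27) (.e (nat_lit 434231) (nat_lit 23) (.e (nat_lit 532514) (nat_lit 3) (.e (nat_lit 114708) (nat_lit 20) (.e (nat_lit 1800) (nat_lit 119) (.e (nat_lit 516115) (nat_lit 1) (.e (nat_lit 164397) (nat_lit 256) .nil)))))))) (.g (nat_lit 4) .nil .nil))))))) 
(.nd (nat_lit 2) (.nd (nat_lit 3) (.nd (nat_lit 4) (.nd (nat_lit 5) 
(.lf (nat_lit 150915) (.g (nat_lit 3154) (.e (nat_lit 57379) (nat_lit 3) (.e (nat_lit 98365) (nat_lit 26) (.e (nat_lit 426325) (nat_lit 13) (.e (nat_lit 483341) (nat_lit 9) (.e (nat_lit 426145) (nat_lit 4) (.e (nat_lit 229707) (nat_lit 256) .nil)))))) (.g (nat_lit 4) .nil .nil))) 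
(.lf (nat_lit 150947) (.g (nat_lit 2138) (.e (nat_lit 57379) (nat_lit 3) (.e (nat_lit 98366) (nat_lit 27) (.e (nat_lit 434231) (nat_lit 23) (.e (nat_lit 532507) (nat_lit 2) (.e (nat_lit 106539) (nat_lit 12) (.e (nat_lit 57467) (nat_lit 23) (.e (nat_lit 516115) (nat_lit 1) (.e (nat_lit 164399) (nat_lit 256) .nil)))))))) (.g (nat_lit 4) .nil .nil)))) (.nd (nat_lit 5) 
(.lf (nat_lit 150931) (.g (nat_lit 2413) (.e (nat_lit 57379) (nat_lit 3) (.e (nat_lit 98366) (nat_lit 27) (.e (nat_lit 434231) (nat_lit 23) (.e (nat_lit 532506) (nat_lit 2) (.e (nat_lit 106538) (nat_lit 12) (.e (nat_lit 57465) (nat_lit 23) (.e (nat_lit 516115) (nat_lit 1) (.e (nat_lit 164399) (nat_lit 256) .nil)))))))) (.g (nat_lit 4) .nil .nil))) 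
(.lf (nat_lit 150963) (.g (nat_lit 1988) (.e (nat_lit 57379) (nat_lit 3) (.e (nat_lit 98366) (nat_lit 27) (.e (nat_lit 434231) (nat_lit 23) (.e (nat_lit 532513) (nat_lit 3) (.e (nat_lit 114719) (nat_lit 23) .nil))))) .nil)))) (.nd (nat_lit 4) (.nd (nat_lit 5) 
(.lf (nat_lit 150923) (.g (nat_lit 1006) (.e (nat_lit 57379) (nat_lit 3) (.e (nat_lit 98365) (nat_lit 26) (.e (nat_lit 426327) (nat_lit 13) (.e (nat_lit 491264) (nat_lit 9) .nil)))) .nil)) 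
(.lf (nat_lit 150955) (.g (nat_lit 2284) (.e (nat_lit 57379) (nat_lit 3) (.e (nat_lit 98366) (nat_lit 27) (.e (nat_lit 434231) (nat_lit 23) (.e (nat_lit 532513) (nat_lit 3) (.e (nat_lit 114704) (nat_lit 20) .nil))))) .nil))) (.nd (nat_lit 5) 
(.lf (nat_lit 150939) (.g (nat_lit 2247) (.e (nat_lit 57379) (nat_lit 3) (.e (nat_lit 98366) (nat_lit 27) (.e (nat_lit 434231) (nat_lit 23) (.e (nat_lit 532506) (nat_lit 2) (.e (nat_lit 106541) (nat_lit 13) (.e (nat_lit 122936) (nat_lit 23) (.e (nat_lit 516117) (nat_lit 1) (.e (nat_lit 164399) (nat_lit 256) .nil)))))))) (.g (nat_lit 4) .nil .nil))) 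
(.lf (nat_lit 150971) (.g (nat_lit 932) (.e (nat_lit 57379) (nat_lit 3) (.e (nat_lit 98366) (nat_lit 27) (.e (nat_lit 434231) (nat_lit 23) (.e (nat_lit 532514) (nat_lit 3) .nil)))) .nil))))) (.nd (nat_lit 3) (.nd (nat_lit 4) (.nd (nat_lit 5) 
(.lf (nat_lit 150919) (.g (nat_lit 1003) (.e (nat_lit 57379) (nat_lit 3) (.e (nat_lit 98365) (nat_lit 26) (.e (nat_lit 426327) (nat_lit 13) (.e (nat_lit 483341) (nat_lit 9) .nil)))) .nil)) 
(.lf (nat_lit 150951) (.g (nat_lit 2317) (.e (nat_lit 57379) (nat_lit 3) (.e (nat_lit 98366) (nat_lit 27) (.e (nat_lit 434231) (nat_lit 23) (.e (nat_lit 532507) (nat_lit 2) (.e (nat_lit 106541) (nat_lit 13) (.e (nat_lit 122936) (nat_lit 23) (.e (nat_lit 516117) (nat_lit 1) (.e (nat_lit 164399) (nat_lit 256) .nil)))))))) (.g (nat_lit 4) .nil .nil)))) (.nd (nat_lit 5) 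
(.lf (nat_lit 150935) (.g (nat_lit 2396) (.e (nat_lit 57379) (nat_lit 3) (.e (nat_lit 98366) (nat_lit 27) (.e (nat_lit 434231) (nat_lit 23) (.e (nat_lit 532506) (nat_lit 2) (.e (nat_lit 106540) (nat_lit 13) (.e (nat_lit 122936) (nat_lit 23) (.e (nat_lit 516115) (nat_lit 1) (.e (nat_lit 164398) (nat_lit 256) .nil)))))))) (.g (nat_lit 4) .nil .nil))) 
(.lf (nat_lit 150967) (.g (nat_lit 2955) (.e (nat_lit 57379) (nat_lit 3) (.e (nat_lit 98366) (nat_lit 27) (.e (nat_lit 434231) (nat_lit 23) (.e (nat_lit 532513) (nat_lit 3) (.e (nat_lit 114719) (nat_lit 23) (.e (nat_lit 98334) (nat_lit 18) (.e (nat_lit 164396) (nat_lit 256) .nil))))))) (.g (nat_lit 4) .nil .nil))))) (.nd (nat_lit 4) (.nd (nat_lit 5) 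
(.lf (nat_lit 150927) (.g (nat_lit 874) (.e (nat_lit 57379) (nat_lit 3) (.e (nat_lit 98365) (nat_lit 26) (.e (nat_lit 426334) (nat_lit 13) (.e (nat_lit 491264) (nat_lit 13) .nil)))) .nil)) 
(.lf (nat_lit 150959) (.g (nat_lit 2537) (.e (nat_lit 57379) (nat_lit 3) (.e (nat_lit 98366) (nat_lit 27) (.e (nat_lit 434231) (nat_lit 23) (.e (nat_lit 532513) (nat_lit 3) (.e (nat_lit 114717) (nat_lit 23) (.e (nat_lit 98333) (nat_lit 18) (.e (nat_lit 164399) (nat_lit 256) .nil))))))) (.g (nat_lit 4) .nil .nil)))) (.nd (nat_lit 5) 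
(.lf (nat_lit 150943) (.g (nat_lit 2043) (.e (nat_lit 57379) (nat_lit 3) (.e (nat_lit 98366) (nat_lit 27) (.e (nat_lit 434231) (nat_lit 23) (.e (nat_lit 532507) (nat_lit 2) (.e (nat_lit 106537) (nat_lit 12) (.e (nat_lit 57466) (nat_lit 23) (.e (nat_lit 516117) (nat_lit 1) (.e (nat_lit 164400) (nat_lit 256) .nil)))))))) (.g (nat_lit 4) .nil .nil))) 
(.lf (nat_lit 150975) (.g (nat_lit 1820) (.e (nat_lit 57379) (nat_lit 3) (.e (nat_lit 98366) (nat_lit 27) (.e (nat_lit 434231) (nat_lit 23) (.e (nat_lit 532514) (nat_lit 3) (.e (nat_lit 114716) (nat_lit 22) .nil))))) .nil))))))))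

noncomputable def tv2013 : DT := (.nd (nat_lit 0) (.nd (nat_lit 1) (.nd (nat_lit 2) (.nd (nat_lit 3) (.nd (nat_lit 4) (.nd (nat_lit 5) 
(.lf (nat_lit 150976) (.g (nat_lit 2826) (.e (nat_lit 57379) (nat_lit 3) (.e (nat_lit 98366) (nat_lit 27) (.e (nat_lit 434231) (nat_lit 23) (.e (nat_lit 532514) (nat_lit 3) (.e (nat_lit 114717) (nat_lit 23) (.e (nat_lit 98333) (nat_lit 18) (.e (nat_lit 164400) (nat_lit 256) .nil))))))) (.g (nat_lit 4) .nil .nil))) 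
(.lf (nat_lit 151008) (.g (nat_lit 4471) (.e (nat_lit 57379) (nat_lit 3) (.e (nat_lit 98366) (nat_lit 27) (.e (nat_lit 434231) (nat_lit 23) (.e (nat_lit 532579) (nat_lit 26) (.e (nat_lit 426139) (nat_lit 3) (.e (nat_lit 204829) (nat_lit 18) (.e (nat_lit 65280) (nat_lit 166) .nil))))))) (.g (nat_lit 6) .nil .nil)))) (.nd (nat_lit 5) 
(.lf (nat_lit 150992) (.g (nat_lit 3427) (.e (nat_lit 57379) (nat_lit 3) (.e (nat_lit 98366) (nat_lit 27) (.e (nat_lit 434231) (nat_lit 23) (.e (nat_lit 532514) (nat_lit 3) (.e (nat_lit 114719) (nat_lit 23) (.e (nat_lit 98332) (nat_lit 18) (.e (nat_lit 164399) (nat_lit 256) .nil))))))) (.g (nat_lit 5) .nil .nil))) 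
(.lf (nat_lit 151024) (.g (nat_lit 3537) (.e (nat_lit 57379) (nat_lit 3) (.e (nat_lit 98366) (nat_lit 27) (.e (nat_lit 434244) (nat_lit 28) (.e (nat_lit 573487) (nat_lit 14) (.e (nat_lit 73747) (nat_lit 3) (.e (nat_lit 516117) (nat_lit 1) (.e (nat_lit 171776) (nat_lit 160) .nil))))))) (.g (nat_lit 4) .nil .nil))))) (.nd (nat_lit 4) (.nd (nat_lit 5) 
(.lf (nat_lit 150984) (.g (nat_lit 4427) (.e (nat_lit 57379) (nat_lit 3) (.e (nat_lit 98366) (nat_lit 27) (.e (nat_lit 434231) (nat_lit 23) (.e (nat_lit 532514) (nat_lit 3) (.e (nat_lit 114718) (nat_lit 23) (.e (nat_lit 98333) (nat_lit 18) (.e (nat_lit 164399) (nat_lit 256) .nil))))))) (.g (nat_lit 7) .nil .nil))) 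
(.lf (nat_lit 151016) (.g (nat_lit 2495) (.e (nat_lit 57379) (nat_lit 3) (.e (nat_lit 98366) (nat_lit 27) (.e (nat_lit 434244) (nat_lit 28) (.e (nat_lit 573481) (nat_lit 13) (.e (nat_lit 73472) (nat_lit 18) .nil))))) .nil))) (.nd (nat_lit 5) 
(.lf (nat_lit 151000) (.g (nat_lit 4318) (.e (nat_lit 57379) (nat_lit 3) (.e (nat_lit 98366) (nat_lit 27) (.e (nat_lit 434231) (nat_lit 23) (.e (nat_lit 532514) (nat_lit 3) (.e (nat_lit 114719) (nat_lit 23) (.e (nat_lit 98334) (nat_lit 18) (.e (nat_lit 164399) (nat_lit 256) .nil))))))) (.g (nat_lit 7) .nil .nil))) 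
(.lf (nat_lit 151032) (.g (nat_lit 2894) (.e (nat_lit 57379) (nat_lit 3) (.e (nat_lit 98366) (nat_lit 27) (.e (nat_lit 434244) (nat_lit 28) (.e (nat_lit 573488) (nat_lit 14) (.e (nat_lit 73748) (nat_lit 3) .nil))))) .nil))))) (.nd (nat_lit 3) (.nd (nat_lit 4) (.nd (nat_lit 5) 
(.lf (nat_lit 150980) (.g (nat_lit 3085) (.e (nat_lit 57379) (nat_lit 3) (.e (nat_lit 98366) (nat_lit 27) (.e (nat_lit 434231) (nat_lit 23) (.e (nat_lit 532514) (nat_lit 3) (.e (nat_lit 114717) (nat_lit 23) (.e (nat_lit 98334) (nat_lit 18) (.e (nat_lit 164400) (nat_lit 256) .nil))))))) (.g (nat_lit 6) .nil .nil))) 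
(.lf (nat_lit 151012) (.g (nat_lit 2941) (.e (nat_lit 57379) (nat_lit 3) (.e (nat_lit 98366) (nat_lit 27) (.e (nat_lit 434244) (nat_lit 28) (.e (nat_lit 573481) (nat_lit 13) (.e (nat_lit 65568) (nat_lit 2) (.e (nat_lit 90165) (nat_lit 12) (.e (nat_lit 163849) (nat_lit 0) (.e (nat_lit 6828) (nat_lit 367) .nil)))))))) (.g (nat_lit 4) .nil .nil)))) (.nd (nat_lit 5) 
(.lf (nat_lit 150996) (.g (nat_lit 4182) (.e (nat_lit 57379) (nat_lit 3) (.e (nat_lit 98366) (nat_lit 27) (.e (nat_lit 434231) (nat_lit 23) (.e (nat_lit 532514) (nat_lit 3) (.e (nat_lit 114719) (nat_lit 23) (.e (nat_lit 98333) (nat_lit 18) (.e (nat_lit 164400) (nat_lit 256) .nil))))))) (.g (nat_lit 7) .nil .nil))) 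
(.lf (nat_lit 151028) (.g (nat_lit 1298) (.e (nat_lit 57379) (nat_lit 3) (.e (nat_lit 98366) (nat_lit 27) (.e (nat_lit 434244) (nat_lit 28) (.e (nat_lit 573488) (nat_lit 14) .nil)))) .nil)))) (.nd (nat_lit 4) (.nd (nat_lit 5) 
(.lf (nat_lit 150988) (.g (nat_lit 4536) (.e (nat_lit 57379) (nat_lit 3) (.e (nat_lit 98366) (nat_lit 27) (.e (nat_lit 434231) (nat_lit 23) (.e (nat_lit 532514) (nat_lit 3) (.e (nat_lit 114718) (nat_lit 23) (.e (nat_lit 98334) (nat_lit 18) (.e (nat_lit 164400) (nat_lit 256) .nil))))))) (.g (nat_lit 7) .nil .nil))) 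
(.lf (nat_lit 151020) (.g (nat_lit 4159) (.e (nat_lit 57379) (nat_lit 3) (.e (nat_lit 98366) (nat_lit 27) (.e (nat_lit 434244) (nat_lit 28) (.e (nat_lit 573487) (nat_lit 14) (.e (nat_lit 73746) (nat_lit 3) (.e (nat_lit 516117) (nat_lit 1) (.e (nat_lit 171776) (nat_lit 160) .nil))))))) (.g (nat_lit 5) .nil .nil)))) (.nd (nat_lit 5) 
(.lf (nat_lit 151004) (.g (nat_lit 2759) (.e (nat_lit 57379) (nat_lit 3) (.e (nat_lit 98366) (nat_lit 27) (.e (nat_lit 434231) (nat_lit 23) (.e (nat_lit 532579) (nat_lit 26) (.e (nat_lit 426139) (nat_lit 3) (.e (nat_lit 204815) (nat_lit 17) (.e (nat_lit 999) (nat_lit 81) (.e (nat_lit 7695) (nat_lit 412) .nil)))))))) (.g (nat_lit 4) .nil .nil))) 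
(.lf (nat_lit 151036) (.g (nat_lit 2446) (.e (nat_lit 57379) (nat_lit 3) (.e (nat_lit 98366) (nat_lit 27) (.e (nat_lit 434245) (nat_lit 28) (.e (nat_lit 573481) (nat_lit 13) (.e (nat_lit 73472) (nat_lit 18) (.e (nat_lit 204840) (nat_lit 21) (.e (nat_lit 123194) (nat_lit 266) .nil))))))) (.g (nat_lit 4) .nil .nil))))))) (.nd (nat_lit 2) (.nd (nat_lit 3) (.nd (nat_lit 4) (.nd (nat_lit 5) 
(.lf (nat_lit 150978) (.g (nat_lit 3563) (.e (nat_lit 57379) (nat_lit 3) (.e (nat_lit 98366) (nat_lit 27) (.e (nat_lit 434231) (nat_lit 23) (.e (nat_lit 532514) (nat_lit 3) (.e (nat_lit 114717) (nat_lit 23) (.e (nat_lit 98334) (nat_lit 18) (.e (nat_lit 164397) (nat_lit 256) .nil))))))) (.g (nat_lit 6) .nil .nil))) 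
(.lf (nat_lit 151010) (.g (nat_lit 428) (.e (nat_lit 57379) (nat_lit 3) (.e (nat_lit 98366) (nat_lit 27) (.e (nat_lit 434232) (nat_lit 23) .nil))) .nil))) (.nd (nat_lit 5) 
(.lf (nat_lit 150994) (.g (nat_lit 3129) (.e (nat_lit 57379) (nat_lit 3) (.e (nat_lit 98366) (nat_lit 27) (.e (nat_lit 434231) (nat_lit 23) (.e (nat_lit 532514) (nat_lit 3) (.e (nat_lit 114719) (nat_lit 23) (.e (nat_lit 98333) (nat_lit 18) (.e (nat_lit 164396) (nat_lit 256) .nil))))))) (.g (nat_lit 5) .nil .nil))) 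
(.lf (nat_lit 151026) (.g (nat_lit 3052) (.e (nat_lit 57379) (nat_lit 3) (.e (nat_lit 98366) (nat_lit 27) (.e (nat_lit 434244) (nat_lit 28) (.e (nat_lit 573487) (nat_lit 14) (.e (nat_lit 73747) (nat_lit 3) (.e (nat_lit 516120) (nat_lit 1) (.e (nat_lit 171776) (nat_lit 160) .nil))))))) (.g (nat_lit 4) .nil .nil))))) (.nd (nat_lit 4) (.nd (nat_lit 5) 
(.lf (nat_lit 150986) (.g (nat_lit 4401) (.e (nat_lit 57379) (nat_lit 3) (.e (nat_lit 98366) (nat_lit 27) (.e (nat_lit 434231) (nat_lit 23) (.e (nat_lit 532514) (nat_lit 3) (.e (nat_lit 114718) (nat_lit 23) (.e (nat_lit 98334) (nat_lit 18) (.e (nat_lit 164396) (nat_lit 256) .nil))))))) (.g (nat_lit 6) .nil .nil))) 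
(.lf (nat_lit 151018) (.g (nat_lit 2836) (.e (nat_lit 57379) (nat_lit 3) (.e (nat_lit 98366) (nat_lit 27) (.e (nat_lit 434244) (nat_lit 28) (.e (nat_lit 573481) (nat_lit 13) (.e (nat_lit 73472) (nat_lit 18) (.e (nat_lit 204839) (nat_lit 21) (.e (nat_lit 123194) (nat_lit 266) .nil))))))) (.g (nat_lit 4) .nil .nil)))) (.nd (nat_lit 5) 
(.lf (nat_lit 151002) (.g (nat_lit 3203) (.e (nat_lit 57379) (nat_lit 3) (.e (nat_lit 98366) (nat_lit 27) (.e (nat_lit 434231) (nat_lit 23) (.e (nat_lit 532514) (nat_lit 3) (.e (nat_lit 114719) (nat_lit 23) (.e (nat_lit 98335) (nat_lit 18) (.e (nat_lit 164396) (nat_lit 256) .nil))))))) (.g (nat_lit 5) .nil .nil))) 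
(.lf (nat_lit 151034) (.g (nat_lit 469) (.e (nat_lit 57379) (nat_lit 3) (.e (nat_lit 98366) (nat_lit 27) (.e (nat_lit 434245) (nat_lit 28) .nil))) .nil))))) (.nd (nat_lit 3) (.nd (nat_lit 4) (.nd (nat_lit 5) 
(.lf (nat_lit 150982) (.g (nat_lit 4135) (.e (nat_lit 57379) (nat_lit 3) (.e (nat_lit 98366) (nat_lit 27) (.e (nat_lit 434231) (nat_lit 23) (.e (nat_lit 532514) (nat_lit 3) (.e (nat_lit 114718) (nat_lit 23) (.e (nat_lit 98333) (nat_lit 18) (.e (nat_lit 164397) (nat_lit 256) .nil))))))) (.g (nat_lit 6) .nil .nil))) 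
(.lf (nat_lit 151014) (.g (nat_lit 3465) (.e (nat_lit 57379) (nat_lit 3) (.e (nat_lit 98366) (nat_lit 27) (.e (nat_lit 434244) (nat_lit 28) (.e (nat_lit 573481) (nat_lit 13) (.e (nat_lit 65570) (nat_lit 3) (.e (nat_lit 98333) (nat_lit 18) (.e (nat_lit 171776) (nat_lit 160) .nil))))))) (.g (nat_lit 5) .nil .nil)))) (.nd (nat_lit 5) 
(.lf (nat_lit 150998) (.g (nat_lit 4692) (.e (nat_lit 57379) (nat_lit 3) (.e (nat_lit 98366) (nat_lit 27) (.e (nat_lit 434231) (nat_lit 23) (.e (nat_lit 532514) (nat_lit 3) (.e (nat_lit 114719) (nat_lit 23) (.e (nat_lit 98334) (nat_lit 18) (.e (nat_lit 164397) (nat_lit 256) .nil))))))) (.g (nat_lit 0) .nil .nil))) 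
(.lf (nat_lit 151030) (.g (nat_lit 4203) (.e (nat_lit 57379) (nat_lit 3) (.e (nat_lit 98366) (nat_lit 27) (.e (nat_lit 434244) (nat_lit 28) (.e (nat_lit 573488) (nat_lit 14) (.e (nat_lit 73747) (nat_lit 3) (.e (nat_lit 516115) (nat_lit 1) (.e (nat_lit 171776) (nat_lit 160) .nil))))))) (.g (nat_lit 5) .nil .nil))))) (.nd (nat_lit 4) (.nd (nat_lit 5) 
(.lf (nat_lit 150990) (.g (nat_lit 2777) (.e (nat_lit 57379) (nat_lit 3) (.e (nat_lit 98366) (nat_lit 27) (.e (nat_lit 434231) (nat_lit 23) (.e (nat_lit 532514) (nat_lit 3) (.e (nat_lit 114719) (nat_lit 23) (.e (nat_lit 98332) (nat_lit 18) (.e (nat_lit 164396) (nat_lit 256) .nil))))))) (.g (nat_lit 4) .nil .nil))) 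
(.lf (nat_lit 151022) (.g (nat_lit 4188) (.e (nat_lit 57379) (nat_lit 3) (.e (nat_lit 98366) (nat_lit 27) (.e (nat_lit 434244) (nat_lit 28) (.e (nat_lit 573487) (nat_lit 14) (.e (nat_lit 73746) (nat_lit 3) (.e (nat_lit 516120) (nat_lit 1) (.e (nat_lit 171776) (nat_lit 160) .nil))))))) (.g (nat_lit 5) .nil .nil)))) (.nd (nat_lit 5) 
(.lf (nat_lit 151006) (.g (nat_lit 2845) (.e (nat_lit 57379) (nat_lit 3) (.e (nat_lit 98366) (nat_lit 27) (.e (nat_lit 434231) (nat_lit 23) (.e (nat_lit 532579) (nat_lit 26) (.e (nat_lit 426139) (nat_lit 3) (.e (nat_lit 204825) (nat_lit 17) (.e (nat_lit 1006) (nat_lit 81) (.e (nat_lit 7695) (nat_lit 412) .nil)))))))) (.g (nat_lit 4) .nil .nil))) 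
(.lf (nat_lit 151038) (.g (nat_lit 2993) (.e (nat_lit 57379) (nat_lit 3) (.e (nat_lit 98366) (nat_lit 27) (.e (nat_lit 434245) (nat_lit 28) (.e (nat_lit 573487) (nat_lit 14) (.e (nat_lit 73746) (nat_lit 3) (.e (nat_lit 516117) (nat_lit 1) (.e (nat_lit 171776) (nat_lit 160) .nil))))))) (.g (nat_lit 5) .nil .nil)))))))) 
(.nd (nat_lit 1) (.nd (nat_lit 2) (.nd (nat_lit 3) (.nd (nat_lit 4) (.nd (nat_lit 5) 
(.lf (nat_lit 150977) (.g (nat_lit 3036) (.e (nat_lit 57379) (nat_lit 3) (.e (nat_lit 98366) (nat_lit 27) (.e (nat_lit 434231) (nat_lit 23) (.e (nat_lit 532514) (nat_lit 3) (.e (nat_lit 114717) (nat_lit 23) (.e (nat_lit 98334) (nat_lit 18) (.e (nat_lit 164396) (nat_lit 256) .nil))))))) (.g (nat_lit 4) .nil .nil))) 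
(.lf (nat_lit 151009) (.g (nat_lit 4045) (.e (nat_lit 57379) (nat_lit 3) (.e (nat_lit 98366) (nat_lit 27) (.e (nat_lit 434231) (nat_lit 23) (.e (nat_lit 532579) (nat_lit 26) (.e (nat_lit 426139) (nat_lit 3) (.e (nat_lit 204830) (nat_lit 18) (.e (nat_lit 65280) (nat_lit 166) .nil))))))) (.g (nat_lit 6) .nil .nil)))) (.nd (nat_lit 5) 
(.lf (nat_lit 150993) (.g (nat_lit 3260) (.e (nat_lit 57379) (nat_lit 3) (.e (nat_lit 98366) (nat_lit 27) (.e (nat_lit 434231) (nat_lit 23) (.e (nat_lit 532514) (nat_lit 3) (.e (nat_lit 114719) (nat_lit 23) (.e (nat_lit 98332) (nat_lit 18) (.e (nat_lit 164400) (nat_lit 256) .nil))))))) (.g (nat_lit 5) .nil .nil))) 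
(.lf (nat_lit 151025) (.g (nat_lit 4272) (.e (nat_lit 57379) (nat_lit 3) (.e (nat_lit 98366) (nat_lit 27) (.e (nat_lit 434244) (nat_lit 28) (.e (nat_lit 573487) (nat_lit 14) (.e (nat_lit 73747) (nat_lit 3) (.e (nat_lit 516119) (nat_lit 1) (.e (nat_lit 171776) (nat_lit 160) .nil))))))) (.g (nat_lit 5) .nil .nil))))) (.nd (nat_lit 4) (.nd (nat_lit 5) 
(.lf (nat_lit 150985) (.g (nat_lit 4047) (.e (nat_lit 57379) (nat_lit 3) (.e (nat_lit 98366) (nat_lit 27) (.e (nat_lit 434231) (nat_lit 23) (.e (nat_lit 532514) (nat_lit 3) (.e (nat_lit 114718) (nat_lit 23) (.e (nat_lit 98333) (nat_lit 18) (.e (nat_lit 164400) (nat_lit 256) .nil))))))) (.g (nat_lit 6) .nil .nil))) 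
(.lf (nat_lit 151017) (.g (nat_lit 2509) (.e (nat_lit 57379) (nat_lit 3) (.e (nat_lit 98366) (nat_lit 27) (.e (nat_lit 434244) (nat_lit 28) (.e (nat_lit 573481) (nat_lit 13) (.e (nat_lit 73472) (nat_lit 18) (.e (nat_lit 204831) (nat_lit 18) (.e (nat_lit 65280) (nat_lit 266) .nil))))))) (.g (nat_lit 4) .nil .nil)))) (.nd (nat_lit 5) 
(.lf (nat_lit 151001) (.g (nat_lit 4119) (.e (nat_lit 57379) (nat_lit 3) (.e (nat_lit 98366) (nat_lit 27) (.e (nat_lit 434231) (nat_lit 23) (.e (nat_lit 532514) (nat_lit 3) (.e (nat_lit 114719) (nat_lit 23) (.e (nat_lit 98334) (nat_lit 18) (.e (nat_lit 164400) (nat_lit 256) .nil))))))) (.g (nat_lit 6) .nil .nil))) 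
(.lf (nat_lit 151033) (.g (nat_lit 2605) (.e (nat_lit 57379) (nat_lit 3) (.e (nat_lit 98366) (nat_lit 27) (.e (nat_lit 434244) (nat_lit 28) (.e (nat_lit 573488) (nat_lit 14) (.e (nat_lit 73755) (nat_lit 8) .nil))))) .nil))))) (.nd (nat_lit 3) (.nd (nat_lit 4) (.nd (nat_lit 5) 
(.lf (nat_lit 150981) (.g (nat_lit 2985) (.e (nat_lit 57379) (nat_lit 3) (.e (nat_lit 98366) (nat_lit 27) (.e (nat_lit 434231) (nat_lit 23) (.e (nat_lit 532514) (nat_lit 3) (.e (nat_lit 114718) (nat_lit 23) (.e (nat_lit 98333) (nat_lit 18) (.e (nat_lit 164396) (nat_lit 256) .nil))))))) (.g (nat_lit 4) .nil .nil))) 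
(.lf (nat_lit 151013) (.g (nat_lit 4205) (.e (nat_lit 57379) (nat_lit 3) (.e (nat_lit 98366) (nat_lit 27) (.e (nat_lit 434244) (nat_lit 28) (.e (nat_lit 573481) (nat_lit 13) (.e (nat_lit 65569) (nat_lit 3) (.e (nat_lit 98334) (nat_lit 18) (.e (nat_lit 171776) (nat_lit 160) .nil))))))) (.g (nat_lit 6) .nil .nil)))) (.nd (nat_lit 5) 
(.lf (nat_lit 150997) (.g (nat_lit 4132) (.e (nat_lit 57379) (nat_lit 3) (.e (nat_lit 98366) (nat_lit 27) (.e (nat_lit 434231) (nat_lit 23) (.e (nat_lit 532514) (nat_lit 3) (.e (nat_lit 114719) (nat_lit 23) (.e (nat_lit 98334) (nat_lit 18) (.e (nat_lit 164396) (nat_lit 256) .nil))))))) (.g (nat_lit 6) .nil .nil))) 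
(.lf (nat_lit 151029) (.g (nat_lit 2874) (.e (nat_lit 57379) (nat_lit 3) (.e (nat_lit 98366) (nat_lit 27) (.e (nat_lit 434244) (nat_lit 28) (.e (nat_lit 573488) (nat_lit 14) (.e (nat_lit 73747) (nat_lit 3) .nil))))) .nil)))) (.nd (nat_lit 4) (.nd (nat_lit 5) 
(.lf (nat_lit 150989) (.g (nat_lit 1675) (.e (nat_lit 57379) (nat_lit 3) (.e (nat_lit 98366) (nat_lit 27) (.e (nat_lit 434231) (nat_lit 23) (.e (nat_lit 532514) (nat_lit 3) (.e (nat_lit 114719) (nat_lit 23) .nil))))) .nil)) 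
(.lf (nat_lit 151021) (.g (nat_lit 4223) (.e (nat_lit 57379) (nat_lit 3) (.e (nat_lit 98366) (nat_lit 27) (.e (nat_lit 434244) (nat_lit 28) (.e (nat_lit 573487) (nat_lit 14) (.e (nat_lit 73746) (nat_lit 3) (.e (nat_lit 516119) (nat_lit 1) (.e (nat_lit 171776) (nat_lit 160) .nil))))))) (.g (nat_lit 5) .nil .nil)))) (.nd (nat_lit 5) 
(.lf (nat_lit 151005) (.g (nat_lit 2741) (.e (nat_lit 57379) (nat_lit 3) (.e (nat_lit 98366) (nat_lit 27) (.e (nat_lit 434231) (nat_lit 23) (.e (nat_lit 532579) (nat_lit 26) (.e (nat_lit 426139) (nat_lit 3) (.e (nat_lit 204815) (nat_lit 17) (.e (nat_lit 1016) (nat_lit 81) (.e (nat_lit 7695) (nat_lit 412) .nil)))))))) (.g (nat_lit 4) .nil .nil))) 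
(.lf (nat_lit 151037) (.g (nat_lit 3663) (.e (nat_lit 57379) (nat_lit 3) (.e (nat_lit 98366) (nat_lit 27) (.e (nat_lit 434245) (nat_lit 28) (.e (nat_lit 573487) (nat_lit 14) (.e (nat_lit 73746) (nat_lit 3) (.e (nat_lit 516115) (nat_lit 1) (.e (nat_lit 171776) (nat_lit 160) .nil))))))) (.g (nat_lit 5) .nil .nil))))))) (.nd (nat_lit 2) (.nd (nat_lit 3) (.nd (nat_lit 4) (.nd (nat_lit 5) 
(.lf (nat_lit 150979) (.g (nat_lit 3676) (.e (nat_lit 57379) (nat_lit 3) (.e (nat_lit 98366) (nat_lit 27) (.e (nat_lit 434231) (nat_lit 23) (.e (nat_lit 532514) (nat_lit 3) (.e (nat_lit 114717) (nat_lit 23) (.e (nat_lit 98334) (nat_lit 18) (.e (nat_lit 164399) (nat_lit 256) .nil))))))) (.g (nat_lit 6) .nil .nil))) 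
(.lf (nat_lit 151011) (.g (nat_lit 3816) (.e (nat_lit 57379) (nat_lit 3) (.e (nat_lit 98366) (nat_lit 27) (.e (nat_lit 434244) (nat_lit 28) (.e (nat_lit 573451) (nat_lit 9) (.e (nat_lit 1449) (nat_lit 108) (.e (nat_lit 336013) (nat_lit 2) (.e (nat_lit 90165) (nat_lit 12) (.e (nat_lit 163849) (nat_lit 0) (.e (nat_lit 6828) (nat_lit 367) .nil))))))))) (.g (nat_lit 4) .nil .nil)))) (.nd (nat_lit 5) 
(.lf (nat_lit 150995) (.g (nat_lit 4274) (.e (nat_lit 57379) (nat_lit 3) (.e (nat_lit 98366) (nat_lit 27) (.e (nat_lit 434231) (nat_lit 23) (.e (nat_lit 532514) (nat_lit 3) (.e (nat_lit 114719) (nat_lit 23) (.e (nat_lit 98333) (nat_lit 18) (.e (nat_lit 164397) (nat_lit 256) .nil))))))) (.g (nat_lit 7) .nil .nil))) 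
(.lf (nat_lit 151027) (.g (nat_lit 2558) (.e (nat_lit 57379) (nat_lit 3) (.e (nat_lit 98366) (nat_lit 27) (.e (nat_lit 434244) (nat_lit 28) (.e (nat_lit 573487) (nat_lit 14) (.e (nat_lit 73753) (nat_lit 8) .nil))))) .nil)))) (.nd (nat_lit 4) (.nd (nat_lit 5) 
(.lf (nat_lit 150987) (.g (nat_lit 4848) (.e (nat_lit 57379) (nat_lit 3) (.e (nat_lit 98366) (nat_lit 27) (.e (nat_lit 434231) (nat_lit 23) (.e (nat_lit 532514) (nat_lit 3) (.e (nat_lit 114718) (nat_lit 23) (.e (nat_lit 98334) (nat_lit 18) (.e (nat_lit 164397) (nat_lit 256) .nil))))))) (.g (nat_lit 0) .nil .nil))) 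
(.lf (nat_lit 151019) (.g (nat_lit 4566) (.e (nat_lit 57379) (nat_lit 3) (.e (nat_lit 98366) (nat_lit 27) (.e (nat_lit 434244) (nat_lit 28) (.e (nat_lit 573487) (nat_lit 14) (.e (nat_lit 73746) (nat_lit 3) (.e (nat_lit 516115) (nat_lit 1) (.e (nat_lit 171776) (nat_lit 160) .nil))))))) (.g (nat_lit 6) .nil .nil)))) (.nd (nat_lit 5) 
(.lf (nat_lit 151003) (.g (nat_lit 3469) (.e (nat_lit 57379) (nat_lit 3) (.e (nat_lit 98366) (nat_lit 27) (.e (nat_lit 434231) (nat_lit 23) (.e (nat_lit 532579) (nat_lit 26) (.e (nat_lit 426139) (nat_lit 3) (.e (nat_lit 204815) (nat_lit 17) (.e (nat_lit 996) (nat_lit 81) (.e (nat_lit 7695) (nat_lit 412) .nil)))))))) (.g (nat_lit 5) .nil .nil))) 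
(.lf (nat_lit 151035) (.g (nat_lit 2475) (.e (nat_lit 57379) (nat_lit 3) (.e (nat_lit 98366) (nat_lit 27) (.e (nat_lit 434245) (nat_lit 28) (.e (nat_lit 573481) (nat_lit 13) (.e (nat_lit 65569) (nat_lit 3) (.e (nat_lit 98334) (nat_lit 18) (.e (nat_lit 171776) (nat_lit 160) .nil))))))) (.g (nat_lit 4) .nil .nil)))))) (.nd (nat_lit 3) (.nd (nat_lit 4) (.nd (nat_lit 5) 
(.lf (nat_lit 150983) (.g (nat_lit 4579) (.e (nat_lit 57379) (nat_lit 3) (.e (nat_lit 98366) (nat_lit 27) (.e (nat_lit 434231) (nat_lit 23) (.e (nat_lit 532514) (nat_lit 3) (.e (nat_lit 114718) (nat_lit 23) (.e (nat_lit 98333) (nat_lit 18) (.e (nat_lit 164398) (nat_lit 256) .nil))))))) (.g (nat_lit 7) .nil .nil))) 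
(.lf (nat_lit 151015) (.g (nat_lit 3299) (.e (nat_lit 57379) (nat_lit 3) (.e (nat_lit 98366) (nat_lit 27) (.e (nat_lit 434244) (nat_lit 28) (.e (nat_lit 573481) (nat_lit 13) (.e (nat_lit 65570) (nat_lit 3) (.e (nat_lit 98334) (nat_lit 18) (.e (nat_lit 171776) (nat_lit 160) .nil))))))) (.g (nat_lit 4) .nil .nil)))) (.nd (nat_lit 5) 
(.lf (nat_lit 150999) (.g (nat_lit 5059) (.e (nat_lit 57379) (nat_lit 3) (.e (nat_lit 98366) (nat_lit 27) (.e (nat_lit 434231) (nat_lit 23) (.e (nat_lit 532514) (nat_lit 3) (.e (nat_lit 114719) (nat_lit 23) (.e (nat_lit 98334) (nat_lit 18) (.e (nat_lit 164398) (nat_lit 256) .nil))))))) (.g (nat_lit 0) .nil .nil))) 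
(.lf (nat_lit 151031) (.g (nat_lit 3333) (.e (nat_lit 57379) (nat_lit 3) (.e (nat_lit 98366) (nat_lit 27) (.e (nat_lit 434244) (nat_lit 28) (.e (nat_lit 573488) (nat_lit 14) (.e (nat_lit 73747) (nat_lit 3) (.e (nat_lit 516119) (nat_lit 1) (.e (nat_lit 171776) (nat_lit 160) .nil))))))) (.g (nat_lit 4) .nil .nil))))) (.nd (nat_lit 4) (.nd (nat_lit 5) 
(.lf (nat_lit 150991) (.g (nat_lit 3438) (.e (nat_lit 57379) (nat_lit 3) (.e (nat_lit 98366) (nat_lit 27) (.e (nat_lit 434231) (nat_lit 23) (.e (nat_lit 532514) (nat_lit 3) (.e (nat_lit 114719) (nat_lit 23) (.e (nat_lit 98332) (nat_lit 18) (.e (nat_lit 164397) (nat_lit 256) .nil))))))) (.g (nat_lit 5) .nil .nil))) 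
(.lf (nat_lit 151023) (.g (nat_lit 4841) (.e (nat_lit 57379) (nat_lit 3) (.e (nat_lit 98366) (nat_lit 27) (.e (nat_lit 434244) (nat_lit 28) (.e (nat_lit 573487) (nat_lit 14) (.e (nat_lit 73747) (nat_lit 3) (.e (nat_lit 516115) (nat_lit 1) (.e (nat_lit 171776) (nat_lit 160) .nil))))))) (.g (nat_lit 6) .nil .nil)))) (.nd (nat_lit 5) 
(.lf (nat_lit 151007) (.g (nat_lit 2821) (.e (nat_lit 57379) (nat_lit 3) (.e (nat_lit 98366) (nat_lit 27) (.e (nat_lit 434231) (nat_lit 23) (.e (nat_lit 532579) (nat_lit 26) (.e (nat_lit 426139) (nat_lit 3) (.e (nat_lit 204827) (nat_lit 17) (.e (nat_lit 1008) (nat_lit 81) (.e (nat_lit 7695) (nat_lit 412) .nil)))))))) (.g (nat_lit 4) .nil .nil))) 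
(.lf (nat_lit 151039) (.g (nat_lit 3051) (.e (nat_lit 57379) (nat_lit 3) (.e (nat_lit 98366) (nat_lit 27) (.e (nat_lit 434245) (nat_lit 28) (.e (nat_lit 573487) (nat_lit 14) (.e (nat_lit 73746) (nat_lit 3) (.e (nat_lit 516119) (nat_lit 1) (.e (nat_lit 171776) (nat_lit 160) .nil))))))) (.g (nat_lit 5) .nil .nil)))))))))

noncomputable def tv2014 : DT := (.nd (nat_lit 0) (.nd (nat_lit 1) (.nd (nat_lit 2) (.nd (nat_lit 3) (.nd (nat_lit 4) (.nd (nat_lit 5) 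
(.lf (nat_lit 151040) (.g (nat_lit 3171) (.e (nat_lit 57379) (nat_lit 3) (.e (nat_lit 98366) (nat_lit 27) (.e (nat_lit 434245) (nat_lit 28) (.e (nat_lit 573487) (nat_lit 14) (.e (nat_lit 73746) (nat_lit 3) (.e (nat_lit 516120) (nat_lit 1) (.e (nat_lit 171776) (nat_lit 160) .nil))))))) (.g (nat_lit 5) .nil .nil))) 
(.lf (nat_lit 151072) (.g (nat_lit 3898) (.e (nat_lit 57379) (nat_lit 3) (.e (nat_lit 98367) (nat_lit 27) (.e (nat_lit 434231) (nat_lit 23) (.e (nat_lit 532513) (nat_lit 3) (.e (nat_lit 114718) (nat_lit 23) (.e (nat_lit 98334) (nat_lit 18) (.e (nat_lit 164398) (nat_lit 256) .nil))))))) (.g (nat_lit 6) .nil .nil)))) (.nd (nat_lit 5) 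
(.lf (nat_lit 151056) (.g (nat_lit 2258) (.e (nat_lit 57379) (nat_lit 3) (.e (nat_lit 98367) (nat_lit 27) (.e (nat_lit 434231) (nat_lit 23) (.e (nat_lit 532506) (nat_lit 2) (.e (nat_lit 106539) (nat_lit 12) (.e (nat_lit 57467) (nat_lit 23) (.e (nat_lit 516115) (nat_lit 1) (.e (nat_lit 164399) (nat_lit 256) .nil)))))))) (.g (nat_lit 4) .nil .nil))) 
(.lf (nat_lit 151088) (.g (nat_lit 2234) (.e (nat_lit 57379) (nat_lit 3) (.e (nat_lit 98367) (nat_lit 27) (.e (nat_lit 434231) (nat_lit 23) (.e (nat_lit 532514) (nat_lit 3) (.e (nat_lit 114718) (nat_lit 23) (.e (nat_lit 98333) (nat_lit 18) (.e (nat_lit 164396) (nat_lit 256) .nil))))))) (.g (nat_lit 4) .nil .nil))))) (.nd (nat_lit 4) (.nd (nat_lit 5) 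
(.lf (nat_lit 151048) (.g (nat_lit 3149) (.e (nat_lit 57379) (nat_lit 3) (.e (nat_lit 98366) (nat_lit 27) (.e (nat_lit 434248) (nat_lit 28) (.e (nat_lit 573487) (nat_lit 14) (.e (nat_lit 73746) (nat_lit 3) (.e (nat_lit 516119) (nat_lit 1) (.e (nat_lit 171776) (nat_lit 160) .nil))))))) (.g (nat_lit 5) .nil .nil))) 
(.lf (nat_lit 151080) (.g (nat_lit 1311) (.e (nat_lit 57379) (nat_lit 3) (.e (nat_lit 98367) (nat_lit 27) (.e (nat_lit 434231) (nat_lit 23) (.e (nat_lit 532514) (nat_lit 3) .nil)))) .nil))) (.nd (nat_lit 5) 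
(.lf (nat_lit 151064) (.g (nat_lit 2379) (.e (nat_lit 57379) (nat_lit 3) (.e (nat_lit 98367) (nat_lit 27) (.e (nat_lit 434231) (nat_lit 23) (.e (nat_lit 532507) (nat_lit 2) (.e (nat_lit 114432) (nat_lit 13) (.e (nat_lit 122936) (nat_lit 23) (.e (nat_lit 516117) (nat_lit 1) (.e (nat_lit 164398) (nat_lit 256) .nil)))))))) (.g (nat_lit 4) .nil .nil))) 
(.lf (nat_lit 151096) (.g (nat_lit 2379) (.e (nat_lit 57379) (nat_lit 3) (.e (nat_lit 98367) (nat_lit 27) (.e (nat_lit 434231) (nat_lit 23) (.e (nat_lit 532514) (nat_lit 3) (.e (nat_lit 114719) (nat_lit 23) (.e (nat_lit 98333) (nat_lit 18) (.e (nat_lit 164396) (nat_lit 256) .nil))))))) (.g (nat_lit 4) .nil .nil)))))) (.nd (nat_lit 3) (.nd (nat_lit 4) (.nd (nat_lit 5) 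
(.lf (nat_lit 151044) (.g (nat_lit 2696) (.e (nat_lit 57379) (nat_lit 3) (.e (nat_lit 98366) (nat_lit 27) (.e (nat_lit 434245) (nat_lit 28) (.e (nat_lit 573488) (nat_lit 14) (.e (nat_lit 73747) (nat_lit 3) (.e (nat_lit 516115) (nat_lit 1) (.e (nat_lit 171776) (nat_lit 160) .nil))))))) (.g (nat_lit 4) .nil .nil))) 
(.lf (nat_lit 151076) (.g (nat_lit 3307) (.e (nat_lit 57379) (nat_lit 3) (.e (nat_lit 98367) (nat_lit 27) (.e (nat_lit 434231) (nat_lit 23) (.e (nat_lit 532513) (nat_lit 3) (.e (nat_lit 114719) (nat_lit 23) (.e (nat_lit 98333) (nat_lit 18) (.e (nat_lit 164398) (nat_lit 256) .nil))))))) (.g (nat_lit 5) .nil .nil)))) (.nd (nat_lit 5) 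
(.lf (nat_lit 151060) (.g (nat_lit 1986) (.e (nat_lit 57379) (nat_lit 3) (.e (nat_lit 98367) (nat_lit 27) (.e (nat_lit 434231) (nat_lit 23) (.e (nat_lit 532507) (nat_lit 2) (.e (nat_lit 106517) (nat_lit 9) .nil))))) .nil)) 
(.lf (nat_lit 151092) (.g (nat_lit 3810) (.e (nat_lit 57379) (nat_lit 3) (.e (nat_lit 98367) (nat_lit 27) (.e (nat_lit 434231) (nat_lit 23) (.e (nat_lit 532514) (nat_lit 3) (.e (nat_lit 114718) (nat_lit 23) (.e (nat_lit 98334) (nat_lit 18) (.e (nat_lit 164400) (nat_lit 256) .nil))))))) (.g (nat_lit 6) .nil .nil))))) (.nd (nat_lit 4) (.nd (nat_lit 5) 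
(.lf (nat_lit 151052) (.g (nat_lit 2443) (.e (nat_lit 57379) (nat_lit 3) (.e (nat_lit 98367) (nat_lit 27) (.e (nat_lit 434231) (nat_lit 23) (.e (nat_lit 532483) (nat_lit 0) .nil)))) .nil)) 
(.lf (nat_lit 151084) (.g (nat_lit 2121) (.e (nat_lit 57379) (nat_lit 3) (.e (nat_lit 98367) (nat_lit 27) (.e (nat_lit 434231) (nat_lit 23) (.e (nat_lit 532514) (nat_lit 3) (.e (nat_lit 114717) (nat_lit 23) (.e (nat_lit 98333) (nat_lit 18) (.e (nat_lit 164400) (nat_lit 256) .nil))))))) (.g (nat_lit 4) .nil .nil)))) (.nd (nat_lit 5) 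
(.lf (nat_lit 151068) (.g (nat_lit 3471) (.e (nat_lit 57379) (nat_lit 3) (.e (nat_lit 98367) (nat_lit 27) (.e (nat_lit 434231) (nat_lit 23) (.e (nat_lit 532513) (nat_lit 3) (.e (nat_lit 114718) (nat_lit 23) (.e (nat_lit 98333) (nat_lit 18) (.e (nat_lit 164398) (nat_lit 256) .nil))))))) (.g (nat_lit 5) .nil .nil))) 
(.lf (nat_lit 151100) (.g (nat_lit 3453) (.e (nat_lit 57379) (nat_lit 3) (.e (nat_lit 98367) (nat_lit 27) (.e (nat_lit 434231) (nat_lit 23) (.e (nat_lit 532514) (nat_lit 3) (.e (nat_lit 114719) (nat_lit 23) (.e (nat_lit 98333) (nat_lit 18) (.e (nat_lit 164400) (nat_lit 256) .nil))))))) (.g (nat_lit 6) .nil .nil))))))) (.nd (nat_lit 2) (.nd (nat_lit 3) (.nd (nat_lit 4) (.nd (nat_lit 5) 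
(.lf (nat_lit 151042) (.g (nat_lit 2659) (.e (nat_lit 57379) (nat_lit 3) (.e (nat_lit 98366) (nat_lit 27) (.e (nat_lit 434245) (nat_lit 28) (.e (nat_lit 573487) (nat_lit 14) (.e (nat_lit 73747) (nat_lit 3) (.e (nat_lit 516119) (nat_lit 1) (.e (nat_lit 171776) (nat_lit 160) .nil))))))) (.g (nat_lit 4) .nil .nil))) 
(.lf (nat_lit 151074) (.g (nat_lit 2688) (.e (nat_lit 57379) (nat_lit 3) (.e (nat_lit 98367) (nat_lit 27) (.e (nat_lit 434231) (nat_lit 23) (.e (nat_lit 532513) (nat_lit 3) (.e (nat_lit 114718) (nat_lit 23) (.e (nat_lit 98334) (nat_lit 18) (.e (nat_lit 164400) (nat_lit 256) .nil))))))) (.g (nat_lit 4) .nil .nil)))) (.nd (nat_lit 5) 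
(.lf (nat_lit 151058) (.g (nat_lit 2385) (.e (nat_lit 57379) (nat_lit 3) (.e (nat_lit 98367) (nat_lit 27) (.e (nat_lit 434231) (nat_lit 23) (.e (nat_lit 532506) (nat_lit 2) (.e (nat_lit 106540) (nat_lit 13) (.e (nat_lit 122936) (nat_lit 23) (.e (nat_lit 516117) (nat_lit 1) (.e (nat_lit 164398) (nat_lit 256) .nil)))))))) (.g (nat_lit 4) .nil .nil))) 
(.lf (nat_lit 151090) (.g (nat_lit 3652) (.e (nat_lit 57379) (nat_lit 3) (.e (nat_lit 98367) (nat_lit 27) (.e (nat_lit 434231) (nat_lit 23) (.e (nat_lit 532514) (nat_lit 3) (.e (nat_lit 114718) (nat_lit 23) (.e (nat_lit 98334) (nat_lit 18) (.e (nat_lit 164396) (nat_lit 256) .nil))))))) (.g (nat_lit 6) .nil .nil))))) (.nd (nat_lit 4) (.nd (nat_lit 5) 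
(.lf (nat_lit 151050) (.g (nat_lit 3292) (.e (nat_lit 57379) (nat_lit 3) (.e (nat_lit 98366) (nat_lit 27) (.e (nat_lit 434248) (nat_lit 28) (.e (nat_lit 573487) (nat_lit 14) (.e (nat_lit 73747) (nat_lit 3) (.e (nat_lit 516119) (nat_lit 1) (.e (nat_lit 171776) (nat_lit 160) .nil))))))) (.g (nat_lit 5) .nil .nil))) 
(.lf (nat_lit 151082) (.g (nat_lit 1903) (.e (nat_lit 57379) (nat_lit 3) (.e (nat_lit 98367) (nat_lit 27) (.e (nat_lit 434231) (nat_lit 23) (.e (nat_lit 532514) (nat_lit 3) (.e (nat_lit 114716) (nat_lit 22) .nil))))) .nil))) (.nd (nat_lit 5) 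
(.lf (nat_lit 151066) (.g (nat_lit 2705) (.e (nat_lit 57379) (nat_lit 3) (.e (nat_lit 98367) (nat_lit 27) (.e (nat_lit 434231) (nat_lit 23) (.e (nat_lit 532513) (nat_lit 3) (.e (nat_lit 114717) (nat_lit 23) (.e (nat_lit 98334) (nat_lit 18) (.e (nat_lit 164398) (nat_lit 256) .nil))))))) (.g (nat_lit 4) .nil .nil))) 
(.lf (nat_lit 151098) (.g (nat_lit 4322) (.e (nat_lit 57379) (nat_lit 3) (.e (nat_lit 98367) (nat_lit 27) (.e (nat_lit 434231) (nat_lit 23) (.e (nat_lit 532514) (nat_lit 3) (.e (nat_lit 114719) (nat_lit 23) (.e (nat_lit 98333) (nat_lit 18) (.e (nat_lit 164398) (nat_lit 256) .nil))))))) (.g (nat_lit 7) .nil .nil)))))) (.nd (nat_lit 3) (.nd (nat_lit 4) (.nd (nat_lit 5) 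
(.lf (nat_lit 151046) (.g (nat_lit 3709) (.e (nat_lit 57379) (nat_lit 3) (.e (nat_lit 98366) (nat_lit 27) (.e (nat_lit 434248) (nat_lit 28) (.e (nat_lit 573487) (nat_lit 14) (.e (nat_lit 73746) (nat_lit 3) (.e (nat_lit 516115) (nat_lit 1) (.e (nat_lit 171776) (nat_lit 160) .nil))))))) (.g (nat_lit 5) .nil .nil))) 
(.lf (nat_lit 151078) (.g (nat_lit 3132) (.e (nat_lit 57379) (nat_lit 3) (.e (nat_lit 98367) (nat_lit 27) (.e (nat_lit 434231) (nat_lit 23) (.e (nat_lit 532513) (nat_lit 3) (.e (nat_lit 114719) (nat_lit 23) (.e (nat_lit 98334) (nat_lit 18) (.e (nat_lit 164397) (nat_lit 256) .nil))))))) (.g (nat_lit 5) .nil .nil)))) (.nd (nat_lit 5) 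
(.lf (nat_lit 151062) (.g (nat_lit 2554) (.e (nat_lit 57379) (nat_lit 3) (.e (nat_lit 98367) (nat_lit 27) (.e (nat_lit 434231) (nat_lit 23) (.e (nat_lit 532507) (nat_lit 2) (.e (nat_lit 106540) (nat_lit 13) (.e (nat_lit 122936) (nat_lit 23) (.e (nat_lit 516115) (nat_lit 1) (.e (nat_lit 164399) (nat_lit 256) .nil)))))))) (.g (nat_lit 4) .nil .nil))) 
(.lf (nat_lit 151094) (.g (nat_lit 3361) (.e (nat_lit 57379) (nat_lit 3) (.e (nat_lit 98367) (nat_lit 27) (.e (nat_lit 434231) (nat_lit 23) (.e (nat_lit 532514) (nat_lit 3) (.e (nat_lit 114719) (nat_lit 23) (.e (nat_lit 98332) (nat_lit 18) (.e (nat_lit 164398) (nat_lit 256) .nil))))))) (.g (nat_lit 6) .nil .nil))))) (.nd (nat_lit 4) (.nd (nat_lit 5) 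
(.lf (nat_lit 151054) (.g (nat_lit 1962) (.e (nat_lit 57379) (nat_lit 3) (.e (nat_lit 98367) (nat_lit 27) (.e (nat_lit 434231) (nat_lit 23) (.e (nat_lit 532506) (nat_lit 2) (.e (nat_lit 106539) (nat_lit 12) .nil))))) .nil)) 
(.lf (nat_lit 151086) (.g (nat_lit 2384) (.e (nat_lit 57379) (nat_lit 3) (.e (nat_lit 98367) (nat_lit 27) (.e (nat_lit 434231) (nat_lit 23) (.e (nat_lit 532514) (nat_lit 3) (.e (nat_lit 114717) (nat_lit 23) (.e (nat_lit 98334) (nat_lit 18) (.e (nat_lit 164400) (nat_lit 256) .nil))))))) (.g (nat_lit 4) .nil .nil)))) (.nd (nat_lit 5) 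
(.lf (nat_lit 151070) (.g (nat_lit 2512) (.e (nat_lit 57379) (nat_lit 3) (.e (nat_lit 98367) (nat_lit 27) (.e (nat_lit 434231) (nat_lit 23) (.e (nat_lit 532513) (nat_lit 3) (.e (nat_lit 114718) (nat_lit 23) (.e (nat_lit 98333) (nat_lit 18) (.e (nat_lit 164400) (nat_lit 256) .nil))))))) (.g (nat_lit 4) .nil .nil))) 
(.lf (nat_lit 151102) (.g (nat_lit 4091) (.e (nat_lit 57379) (nat_lit 3) (.e (nat_lit 98367) (nat_lit 27) (.e (nat_lit 434231) (nat_lit 23) (.e (nat_lit 532514) (nat_lit 3) (.e (nat_lit 114719) (nat_lit 23) (.e (nat_lit 98334) (nat_lit 18) (.e (nat_lit 164397) (nat_lit 256) .nil))))))) (.g (nat_lit 7) .nil .nil)))))))) 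
(.nd (nat_lit 1) (.nd (nat_lit 2) (.nd (nat_lit 3) (.nd (nat_lit 4) (.nd (nat_lit 5) 
(.lf (nat_lit 151041) (.g (nat_lit 3228) (.e (nat_lit 57379) (nat_lit 3) (.e (nat_lit 98366) (nat_lit 27) (.e (nat_lit 434245) (nat_lit 28) (.e (nat_lit 573487) (nat_lit 14) (.e (nat_lit 73747) (nat_lit 3) (.e (nat_lit 516115) (nat_lit 1) (.e (nat_lit 171776) (nat_lit 160) .nil))))))) (.g (nat_lit 5) .nil .nil))) 
(.lf (nat_lit 151073) (.g (nat_lit 3350) (.e (nat_lit 57379) (nat_lit 3) (.e (nat_lit 98367) (nat_lit 27) (.e (nat_lit 434231) (nat_lit 23) (.e (nat_lit 532513) (nat_lit 3) (.e (nat_lit 114718) (nat_lit 23) (.e (nat_lit 98334) (nat_lit 18) (.e (nat_lit 164399) (nat_lit 256) .nil))))))) (.g (nat_lit 5) .nil .nil)))) (.nd (nat_lit 5) 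
(.lf (nat_lit 151057) (.g (nat_lit 1962) (.e (nat_lit 57379) (nat_lit 3) (.e (nat_lit 98367) (nat_lit 27) (.e (nat_lit 434231) (nat_lit 23) (.e (nat_lit 532506) (nat_lit 2) (.e (nat_lit 106540) (nat_lit 13) .nil))))) .nil)) 
(.lf (nat_lit 151089) (.g (nat_lit 3533) (.e (nat_lit 57379) (nat_lit 3) (.e (nat_lit 98367) (nat_lit 27) (.e (nat_lit 434231) (nat_lit 23) (.e (nat_lit 532514) (nat_lit 3) (.e (nat_lit 114718) (nat_lit 23) (.e (nat_lit 98333) (nat_lit 18) (.e (nat_lit 164397) (nat_lit 256) .nil))))))) (.g (nat_lit 6) .nil .nil))))) (.nd (nat_lit 4) (.nd (nat_lit 5) 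
(.lf (nat_lit 151049) (.g (nat_lit 3238) (.e (nat_lit 57379) (nat_lit 3) (.e (nat_lit 98366) (nat_lit 27) (.e (nat_lit 434248) (nat_lit 28) (.e (nat_lit 573487) (nat_lit 14) (.e (nat_lit 73746) (nat_lit 3) (.e (nat_lit 516120) (nat_lit 1) (.e (nat_lit 171776) (nat_lit 160) .nil))))))) (.g (nat_lit 5) .nil .nil))) 
(.lf (nat_lit 151081) (.g (nat_lit 2373) (.e (nat_lit 57379) (nat_lit 3) (.e (nat_lit 98367) (nat_lit 27) (.e (nat_lit 434231) (nat_lit 23) (.e (nat_lit 532514) (nat_lit 3) (.e (nat_lit 114708) (nat_lit 20) (.e (nat_lit 1800) (nat_lit 119) (.e (nat_lit 516115) (nat_lit 1) (.e (nat_lit 164400) (nat_lit 256) .nil)))))))) (.g (nat_lit 4) .nil .nil)))) (.nd (nat_lit 5) 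
(.lf (nat_lit 151065) (.g (nat_lit 1507) (.e (nat_lit 57379) (nat_lit 3) (.e (nat_lit 98367) (nat_lit 27) (.e (nat_lit 434231) (nat_lit 23) (.e (nat_lit 532513) (nat_lit 3) .nil)))) .nil)) 
(.lf (nat_lit 151097) (.g (nat_lit 3673) (.e (nat_lit 57379) (nat_lit 3) (.e (nat_lit 98367) (nat_lit 27) (.e (nat_lit 434231) (nat_lit 23) (.e (nat_lit 532514) (nat_lit 3) (.e (nat_lit 114719) (nat_lit 23) (.e (nat_lit 98333) (nat_lit 18) (.e (nat_lit 164397) (nat_lit 256) .nil))))))) (.g (nat_lit 6) .nil .nil)))))) (.nd (nat_lit 3) (.nd (nat_lit 4) (.nd (nat_lit 5) 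
(.lf (nat_lit 151045) (.g (nat_lit 4205) (.e (nat_lit 57379) (nat_lit 3) (.e (nat_lit 98366) (nat_lit 27) (.e (nat_lit 434247) (nat_lit 28) (.e (nat_lit 573484) (nat_lit 13) (.e (nat_lit 65569) (nat_lit 3) (.e (nat_lit 98334) (nat_lit 18) (.e (nat_lit 171776) (nat_lit 160) .nil))))))) (.g (nat_lit 6) .nil .nil))) 
(.lf (nat_lit 151077) (.g (nat_lit 3068) (.e (nat_lit 57379) (nat_lit 3) (.e (nat_lit 98367) (nat_lit 27) (.e (nat_lit 434231) (nat_lit 23) (.e (nat_lit 532513) (nat_lit 3) (.e (nat_lit 114719) (nat_lit 23) (.e (nat_lit 98333) (nat_lit 18) (.e (nat_lit 164399) (nat_lit 256) .nil))))))) (.g (nat_lit 5) .nil .nil)))) (.nd (nat_lit 5) 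
(.lf (nat_lit 151061) (.g (nat_lit 2649) (.e (nat_lit 57379) (nat_lit 3) (.e (nat_lit 98367) (nat_lit 27) (.e (nat_lit 434231) (nat_lit 23) (.e (nat_lit 532507) (nat_lit 2) (.e (nat_lit 106517) (nat_lit 9) (.e (nat_lit 1255) (nat_lit 92) (.e (nat_lit 98334) (nat_lit 18) (.e (nat_lit 164397) (nat_lit 256) .nil)))))))) (.g (nat_lit 4) .nil .nil))) 
(.lf (nat_lit 151093) (.g (nat_lit 2837) (.e (nat_lit 57379) (nat_lit 3) (.e (nat_lit 98367) (nat_lit 27) (.e (nat_lit 434231) (nat_lit 23) (.e (nat_lit 532514) (nat_lit 3) (.e (nat_lit 114719) (nat_lit 23) (.e (nat_lit 98332) (nat_lit 18) (.e (nat_lit 164397) (nat_lit 256) .nil))))))) (.g (nat_lit 5) .nil .nil))))) (.nd (nat_lit 4) (.nd (nat_lit 5) 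
(.lf (nat_lit 151053) (.g (nat_lit 3424) (.e (nat_lit 57379) (nat_lit 3) (.e (nat_lit 98367) (nat_lit 27) (.e (nat_lit 434231) (nat_lit 23) (.e (nat_lit 532490) (nat_lit 0) (.e (nat_lit 2155) (nat_lit 142) .nil))))) .nil)) 
(.lf (nat_lit 151085) (.g (nat_lit 2312) (.e (nat_lit 57379) (nat_lit 3) (.e (nat_lit 98367) (nat_lit 27) (.e (nat_lit 434231) (nat_lit 23) (.e (nat_lit 532514) (nat_lit 3) (.e (nat_lit 114717) (nat_lit 23) (.e (nat_lit 98334) (nat_lit 18) (.e (nat_lit 164396) (nat_lit 256) .nil))))))) (.g (nat_lit 4) .nil .nil)))) (.nd (nat_lit 5) 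
(.lf (nat_lit 151069) (.g (nat_lit 3266) (.e (nat_lit 57379) (nat_lit 3) (.e (nat_lit 98367) (nat_lit 27) (.e (nat_lit 434231) (nat_lit 23) (.e (nat_lit 532513) (nat_lit 3) (.e (nat_lit 114718) (nat_lit 23) (.e (nat_lit 98333) (nat_lit 18) (.e (nat_lit 164399) (nat_lit 256) .nil))))))) (.g (nat_lit 5) .nil .nil))) 
(.lf (nat_lit 151101) (.g (nat_lit 3384) (.e (nat_lit 57379) (nat_lit 3) (.e (nat_lit 98367) (nat_lit 27) (.e (nat_lit 434231) (nat_lit 23) (.e (nat_lit 532514) (nat_lit 3) (.e (nat_lit 114719) (nat_lit 23) (.e (nat_lit 98334) (nat_lit 18) (.e (nat_lit 164396) (nat_lit 256) .nil))))))) (.g (nat_lit 6) .nil .nil))))))) (.nd (nat_lit 2) (.nd (nat_lit 3) (.nd (nat_lit 4) (.nd (nat_lit 5) 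
(.lf (nat_lit 151043) (.g (nat_lit 1916) (.e (nat_lit 57379) (nat_lit 3) (.e (nat_lit 98366) (nat_lit 27) (.e (nat_lit 434245) (nat_lit 28) (.e (nat_lit 573487) (nat_lit 14) (.e (nat_lit 73753) (nat_lit 8) .nil))))) .nil)) 
(.lf (nat_lit 151075) (.g (nat_lit 2590) (.e (nat_lit 57379) (nat_lit 3) (.e (nat_lit 98367) (nat_lit 27) (.e (nat_lit 434231) (nat_lit 23) (.e (nat_lit 532513) (nat_lit 3) (.e (nat_lit 114719) (nat_lit 23) (.e (nat_lit 98333) (nat_lit 18) (.e (nat_lit 164397) (nat_lit 256) .nil))))))) (.g (nat_lit 4) .nil .nil)))) (.nd (nat_lit 5) 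
(.lf (nat_lit 151059) (.g (nat_lit 1613) (.e (nat_lit 57379) (nat_lit 3) (.e (nat_lit 98367) (nat_lit 27) (.e (nat_lit 434231) (nat_lit 23) (.e (nat_lit 532507) (nat_lit 2) .nil)))) .nil)) 
(.lf (nat_lit 151091) (.g (nat_lit 4246) (.e (nat_lit 57379) (nat_lit 3) (.e (nat_lit 98367) (nat_lit 27) (.e (nat_lit 434231) (nat_lit 23) (.e (nat_lit 532514) (nat_lit 3) (.e (nat_lit 114718) (nat_lit 23) (.e (nat_lit 98334) (nat_lit 18) (.e (nat_lit 164397) (nat_lit 256) .nil))))))) (.g (nat_lit 7) .nil .nil))))) (.nd (nat_lit 4) (.nd (nat_lit 5) 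
(.lf (nat_lit 151051) (.g (nat_lit 1991) (.e (nat_lit 57379) (nat_lit 3) (.e (nat_lit 98366) (nat_lit 27) (.e (nat_lit 434248) (nat_lit 28) (.e (nat_lit 573487) (nat_lit 14) (.e (nat_lit 73753) (nat_lit 8) .nil))))) .nil)) 
(.lf (nat_lit 151083) (.g (nat_lit 2380) (.e (nat_lit 57379) (nat_lit 3) (.e (nat_lit 98367) (nat_lit 27) (.e (nat_lit 434231) (nat_lit 23) (.e (nat_lit 532514) (nat_lit 3) (.e (nat_lit 114717) (nat_lit 23) (.e (nat_lit 98333) (nat_lit 18) (.e (nat_lit 164397) (nat_lit 256) .nil))))))) (.g (nat_lit 4) .nil .nil)))) (.nd (nat_lit 5) 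
(.lf (nat_lit 151067) (.g (nat_lit 2663) (.e (nat_lit 57379) (nat_lit 3) (.e (nat_lit 98367) (nat_lit 27) (.e (nat_lit 434231) (nat_lit 23) (.e (nat_lit 532513) (nat_lit 3) (.e (nat_lit 114718) (nat_lit 23) (.e (nat_lit 98333) (nat_lit 18) (.e (nat_lit 164397) (nat_lit 256) .nil))))))) (.g (nat_lit 4) .nil .nil))) 
(.lf (nat_lit 151099) (.g (nat_lit 4141) (.e (nat_lit 57379) (nat_lit 3) (.e (nat_lit 98367) (nat_lit 27) (.e (nat_lit 434231) (nat_lit 23) (.e (nat_lit 532514) (nat_lit 3) (.e (nat_lit 114719) (nat_lit 23) (.e (nat_lit 98333) (nat_lit 18) (.e (nat_lit 164399) (nat_lit 256) .nil))))))) (.g (nat_lit 7) .nil .nil)))))) (.nd (nat_lit 3) (.nd (nat_lit 4) (.nd (nat_lit 5) 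
(.lf (nat_lit 151047) (.g (nat_lit 3279) (.e (nat_lit 57379) (nat_lit 3) (.e (nat_lit 98366) (nat_lit 27) (.e (nat_lit 434248) (nat_lit 28) (.e (nat_lit 573487) (nat_lit 14) (.e (nat_lit 73746) (nat_lit 3) (.e (nat_lit 516117) (nat_lit 1) (.e (nat_lit 171776) (nat_lit 160) .nil))))))) (.g (nat_lit 5) .nil .nil))) 
(.lf (nat_lit 151079) (.g (nat_lit 3204) (.e (nat_lit 57379) (nat_lit 3) (.e (nat_lit 98367) (nat_lit 27) (.e (nat_lit 434231) (nat_lit 23) (.e (nat_lit 532513) (nat_lit 3) (.e (nat_lit 114719) (nat_lit 23) (.e (nat_lit 98334) (nat_lit 18) (.e (nat_lit 164399) (nat_lit 256) .nil))))))) (.g (nat_lit 5) .nil .nil)))) (.nd (nat_lit 5) 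
(.lf (nat_lit 151063) (.g (nat_lit 2416) (.e (nat_lit 57379) (nat_lit 3) (.e (nat_lit 98367) (nat_lit 27) (.e (nat_lit 434231) (nat_lit 23) (.e (nat_lit 532507) (nat_lit 2) (.e (nat_lit 106540) (nat_lit 13) (.e (nat_lit 122936) (nat_lit 23) (.e (nat_lit 516117) (nat_lit 1) (.e (nat_lit 164400) (nat_lit 256) .nil)))))))) (.g (nat_lit 4) .nil .nil))) 
(.lf (nat_lit 151095) (.g (nat_lit 3036) (.e (nat_lit 57379) (nat_lit 3) (.e (nat_lit 98367) (nat_lit 27) (.e (nat_lit 434231) (nat_lit 23) (.e (nat_lit 532514) (nat_lit 3) (.e (nat_lit 114719) (nat_lit 23) (.e (nat_lit 98332) (nat_lit 18) (.e (nat_lit 164399) (nat_lit 256) .nil))))))) (.g (nat_lit 5) .nil .nil))))) (.nd (nat_lit 4) (.nd (nat_lit 5) 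
(.lf (nat_lit 151055) (.g (nat_lit 2216) (.e (nat_lit 57379) (nat_lit 3) (.e (nat_lit 98367) (nat_lit 27) (.e (nat_lit 434231) (nat_lit 23) (.e (nat_lit 532506) (nat_lit 2) (.e (nat_lit 106539) (nat_lit 12) (.e (nat_lit 57466) (nat_lit 23) (.e (nat_lit 516115) (nat_lit 1) (.e (nat_lit 164399) (nat_lit 256) .nil)))))))) (.g (nat_lit 4) .nil .nil))) 
(.lf (nat_lit 151087) (.g (nat_lit 1905) (.e (nat_lit 57379) (nat_lit 3) (.e (nat_lit 98367) (nat_lit 27) (.e (nat_lit 434231) (nat_lit 23) (.e (nat_lit 532514) (nat_lit 3) (.e (nat_lit 114718) (nat_lit 23) .nil))))) .nil))) (.nd (nat_lit 5) 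
(.lf (nat_lit 151071) (.g (nat_lit 2537) (.e (nat_lit 57379) (nat_lit 3) (.e (nat_lit 98367) (nat_lit 27) (.e (nat_lit 434231) (nat_lit 23) (.e (nat_lit 532513) (nat_lit 3) (.e (nat_lit 114718) (nat_lit 23) (.e (nat_lit 98334) (nat_lit 18) (.e (nat_lit 164396) (nat_lit 256) .nil))))))) (.g (nat_lit 4) .nil .nil))) 
(.lf (nat_lit 151103) (.g (nat_lit 3394) (.e (nat_lit 57379) (nat_lit 3) (.e (nat_lit 98367) (nat_lit 27) (.e (nat_lit 434231) (nat_lit 23) (.e (nat_lit 532514) (nat_lit 3) (.e (nat_lit 114719) (nat_lit 23) (.e (nat_lit 98334) (nat_lit 18) (.e (nat_lit 164400) (nat_lit 256) .nil))))))) (.g (nat_lit 6) .nil .nil)))))))))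

noncomputable def tv2015 : DT := (.nd (nat_lit 0) (.nd (nat_lit 1) (.nd (nat_lit 2) (.nd (nat_lit 3) (.nd (nat_lit 4) (.nd (nat_lit 5) 
(.lf (nat_lit 151104) (.g (nat_lit 2453) (.e (nat_lit 57379) (nat_lit 3) (.e (nat_lit 98367) (nat_lit 27) (.e (nat_lit 434231) (nat_lit 23) (.e (nat_lit 532514) (nat_lit 3) (.e (nat_lit 114719) (nat_lit 23) (.e (nat_lit 98335) (nat_lit 18) (.e (nat_lit 164396) (nat_lit 256) .nil))))))) (.g (nat_lit 4) .nil .nil))) 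
(.lf (nat_lit 151136) (.g (nat_lit 2565) (.e (nat_lit 57379) (nat_lit 3) (.e (nat_lit 98367) (nat_lit 27) (.e (nat_lit 434248) (nat_lit 28) (.e (nat_lit 573487) (nat_lit 14) (.e (nat_lit 73747) (nat_lit 3) (.e (nat_lit 516119) (nat_lit 1) (.e (nat_lit 171776) (nat_lit 160) .nil))))))) (.g (nat_lit 4) .nil .nil)))) (.nd (nat_lit 5) 
(.lf (nat_lit 151120) (.g (nat_lit 1324) (.e (nat_lit 57379) (nat_lit 3) (.e (nat_lit 98367) (nat_lit 27) (.e (nat_lit 434244) (nat_lit 28) (.e (nat_lit 573488) (nat_lit 14) .nil)))) .nil)) 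
(.lf (nat_lit 151152) (.g (nat_lit 1940) (.e (nat_lit 57379) (nat_lit 3) (.e (nat_lit 98369) (nat_lit 28) (.e (nat_lit 442390) (nat_lit 11) (.e (nat_lit 336387) (nat_lit 27) (.e (nat_lit 426100) (nat_lit 1) (.e (nat_lit 164396) (nat_lit 256) .nil)))))) (.g (nat_lit 5) .nil .nil))))) (.nd (nat_lit 4) (.nd (nat_lit 5) 
(.lf (nat_lit 151112) (.g (nat_lit 2843) (.e (nat_lit 57379) (nat_lit 3) (.e (nat_lit 98367) (nat_lit 27) (.e (nat_lit 434244) (nat_lit 28) (.e (nat_lit 573481) (nat_lit 13) (.e (nat_lit 65569) (nat_lit 3) (.e (nat_lit 98334) (nat_lit 18) (.e (nat_lit 171776) (nat_lit 160) .nil))))))) (.g (nat_lit 4) .nil .nil))) 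
(.lf (nat_lit 151144) (.g (nat_lit 1911) (.e (nat_lit 57379) (nat_lit 3) (.e (nat_lit 98368) (nat_lit 27) (.e (nat_lit 434245) (nat_lit 28) (.e (nat_lit 573487) (nat_lit 14) (.e (nat_lit 73753) (nat_lit 8) .nil))))) .nil))) (.nd (nat_lit 5) 
(.lf (nat_lit 151128) (.g (nat_lit 878) (.e (nat_lit 57379) (nat_lit 3) (.e (nat_lit 98367) (nat_lit 27) (.e (nat_lit 434246) (nat_lit 28) .nil))) .nil)) 
(.lf (nat_lit 151160) (.g (nat_lit 2418) (.e (nat_lit 57379) (nat_lit 3) (.e (nat_lit 98370) (nat_lit 28) (.e (nat_lit 442390) (nat_lit 11) (.e (nat_lit 336387) (nat_lit 27) (.e (nat_lit 426098) (nat_lit 1) (.e (nat_lit 164396) (nat_lit 256) .nil)))))) (.g (nat_lit 5) .nil .nil)))))) (.nd (nat_lit 3) (.nd (nat_lit 4) (.nd (nat_lit 5) 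
(.lf (nat_lit 151108) (.g (nat_lit 2641) (.e (nat_lit 57379) (nat_lit 3) (.e (nat_lit 98367) (nat_lit 27) (.e (nat_lit 434232) (nat_lit 23) (.e (nat_lit 532513) (nat_lit 3) (.e (nat_lit 114718) (nat_lit 23) (.e (nat_lit 98334) (nat_lit 18) (.e (nat_lit 164398) (nat_lit 256) .nil))))))) (.g (nat_lit 4) .nil .nil))) 
(.lf (nat_lit 151140) (.g (nat_lit 2452) (.e (nat_lit 57379) (nat_lit 3) (.e (nat_lit 98368) (nat_lit 27) (.e (nat_lit 434245) (nat_lit 28) (.e (nat_lit 573487) (nat_lit 14) (.e (nat_lit 73746) (nat_lit 3) (.e (nat_lit 516117) (nat_lit 1) (.e (nat_lit 171776) (nat_lit 160) .nil))))))) (.g (nat_lit 4) .nil .nil)))) (.nd (nat_lit 5) 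
(.lf (nat_lit 151124) (.g (nat_lit 2392) (.e (nat_lit 57379) (nat_lit 3) (.e (nat_lit 98367) (nat_lit 27) (.e (nat_lit 434245) (nat_lit 28) (.e (nat_lit 573487) (nat_lit 14) (.e (nat_lit 73746) (nat_lit 3) (.e (nat_lit 516119) (nat_lit 1) (.e (nat_lit 171776) (nat_lit 160) .nil))))))) (.g (nat_lit 4) .nil .nil))) 
(.lf (nat_lit 151156) (.g (nat_lit 252) (.e (nat_lit 57379) (nat_lit 3) (.e (nat_lit 98369) (nat_lit 28) (.e (nat_lit 450304) (nat_lit 18) .nil))) .nil)))) (.nd (nat_lit 4) (.nd (nat_lit 5) 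
(.lf (nat_lit 151116) (.g (nat_lit 3010) (.e (nat_lit 57379) (nat_lit 3) (.e (nat_lit 98367) (nat_lit 27) (.e (nat_lit 434244) (nat_lit 28) (.e (nat_lit 573487) (nat_lit 14) (.e (nat_lit 73746) (nat_lit 3) (.e (nat_lit 516120) (nat_lit 1) (.e (nat_lit 171776) (nat_lit 160) .nil))))))) (.g (nat_lit 4) .nil .nil))) 
(.lf (nat_lit 151148) (.g (nat_lit 1106) (.e (nat_lit 57379) (nat_lit 3) (.e (nat_lit 98369) (nat_lit 28) (.e (nat_lit 442390) (nat_lit 11) (.e (nat_lit 336387) (nat_lit 27) (.e (nat_lit 426097) (nat_lit 1) (.e (nat_lit 164397) (nat_lit 256) .nil)))))) (.g (nat_lit 4) .nil .nil)))) (.nd (nat_lit 5) 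
(.lf (nat_lit 151132) (.g (nat_lit 1331) (.e (nat_lit 57379) (nat_lit 3) (.e (nat_lit 98367) (nat_lit 27) (.e (nat_lit 434247) (nat_lit 28) (.e (nat_lit 573489) (nat_lit 14) .nil)))) .nil)) 
(.lf (nat_lit 151164) (.g (nat_lit 2940) (.e (nat_lit 57379) (nat_lit 3) (.e (nat_lit 98370) (nat_lit 28) (.e (nat_lit 442390) (nat_lit 11) (.e (nat_lit 336387) (nat_lit 27) (.e (nat_lit 426100) (nat_lit 1) (.e (nat_lit 164399) (nat_lit 256) .nil)))))) (.g (nat_lit 0) .nil .nil))))))) (.nd (nat_lit 2) (.nd (nat_lit 3) (.nd (nat_lit 4) (.nd (nat_lit 5) 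
(.lf (nat_lit 151106) (.g (nat_lit 3106) (.e (nat_lit 57379) (nat_lit 3) (.e (nat_lit 98367) (nat_lit 27) (.e (nat_lit 434231) (nat_lit 23) (.e (nat_lit 532579) (nat_lit 26) (.e (nat_lit 426139) (nat_lit 3) (.e (nat_lit 204830) (nat_lit 18) (.e (nat_lit 65280) (nat_lit 166) .nil))))))) (.g (nat_lit 4) .nil .nil))) 
(.lf (nat_lit 151138) (.g (nat_lit 2650) (.e (nat_lit 57379) (nat_lit 3) (.e (nat_lit 98367) (nat_lit 27) (.e (nat_lit 434248) (nat_lit 28) (.e (nat_lit 573489) (nat_lit 14) (.e (nat_lit 73754) (nat_lit 8) .nil))))) .nil))) (.nd (nat_lit 5) 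
(.lf (nat_lit 151122) (.g (nat_lit 776) (.e (nat_lit 57379) (nat_lit 3) (.e (nat_lit 98367) (nat_lit 27) (.e (nat_lit 434245) (nat_lit 28) .nil))) .nil)) 
(.lf (nat_lit 151154) (.g (nat_lit 2358) (.e (nat_lit 57379) (nat_lit 3) (.e (nat_lit 98369) (nat_lit 28) (.e (nat_lit 442390) (nat_lit 11) (.e (nat_lit 336387) (nat_lit 27) (.e (nat_lit 426100) (nat_lit 1) (.e (nat_lit 164400) (nat_lit 256) .nil)))))) (.g (nat_lit 6) .nil .nil))))) (.nd (nat_lit 4) (.nd (nat_lit 5) 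
(.lf (nat_lit 151114) (.g (nat_lit 2981) (.e (nat_lit 57379) (nat_lit 3) (.e (nat_lit 98367) (nat_lit 27) (.e (nat_lit 434244) (nat_lit 28) (.e (nat_lit 573487) (nat_lit 14) (.e (nat_lit 73746) (nat_lit 3) (.e (nat_lit 516117) (nat_lit 1) (.e (nat_lit 171776) (nat_lit 160) .nil))))))) (.g (nat_lit 4) .nil .nil))) 
(.lf (nat_lit 151146) (.g (nat_lit 3014) (.e (nat_lit 57379) (nat_lit 3) (.e (nat_lit 98368) (nat_lit 27) (.e (nat_lit 434248) (nat_lit 28) (.e (nat_lit 573487) (nat_lit 14) (.e (nat_lit 73747) (nat_lit 3) (.e (nat_lit 516115) (nat_lit 1) (.e (nat_lit 171776) (nat_lit 160) .nil))))))) (.g (nat_lit 4) .nil .nil)))) (.nd (nat_lit 5) 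
(.lf (nat_lit 151130) (.g (nat_lit 2666) (.e (nat_lit 57379) (nat_lit 3) (.e (nat_lit 98367) (nat_lit 27) (.e (nat_lit 434246) (nat_lit 28) (.e (nat_lit 573487) (nat_lit 14) (.e (nat_lit 73746) (nat_lit 3) (.e (nat_lit 516115) (nat_lit 1) (.e (nat_lit 171776) (nat_lit 160) .nil))))))) (.g (nat_lit 4) .nil .nil))) 
(.lf (nat_lit 151162) (.g (nat_lit 1782) (.e (nat_lit 57379) (nat_lit 3) (.e (nat_lit 98370) (nat_lit 28) (.e (nat_lit 442390) (nat_lit 11) (.e (nat_lit 336387) (nat_lit 27) (.e (nat_lit 426100) (nat_lit 1) (.e (nat_lit 164396) (nat_lit 256) .nil)))))) (.g (nat_lit 4) .nil .nil)))))) (.nd (nat_lit 3) (.nd (nat_lit 4) (.nd (nat_lit 5) 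
(.lf (nat_lit 151110) (.g (nat_lit 886) (.e (nat_lit 57379) (nat_lit 3) (.e (nat_lit 98367) (nat_lit 27) (.e (nat_lit 434234) (nat_lit 23) .nil))) .nil)) 
(.lf (nat_lit 151142) (.g (nat_lit 2630) (.e (nat_lit 57379) (nat_lit 3) (.e (nat_lit 98368) (nat_lit 27) (.e (nat_lit 434245) (nat_lit 28) (.e (nat_lit 573487) (nat_lit 14) (.e (nat_lit 73746) (nat_lit 3) (.e (nat_lit 516120) (nat_lit 1) (.e (nat_lit 171776) (nat_lit 160) .nil))))))) (.g (nat_lit 4) .nil .nil)))) (.nd (nat_lit 5) 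
(.lf (nat_lit 151126) (.g (nat_lit 2569) (.e (nat_lit 57379) (nat_lit 3) (.e (nat_lit 98367) (nat_lit 27) (.e (nat_lit 434245) (nat_lit 28) (.e (nat_lit 573487) (nat_lit 14) (.e (nat_lit 73747) (nat_lit 3) (.e (nat_lit 516115) (nat_lit 1) (.e (nat_lit 171776) (nat_lit 160) .nil))))))) (.g (nat_lit 4) .nil .nil))) 
(.lf (nat_lit 151158) (.g (nat_lit 799) (.e (nat_lit 57379) (nat_lit 3) (.e (nat_lit 98369) (nat_lit 28) (.e (nat_lit 450304) (nat_lit 18) (.e (nat_lit 393234) (nat_lit 17) (.e (nat_lit 2536) (nat_lit 157) .nil))))) .nil)))) (.nd (nat_lit 4) (.nd (nat_lit 5) 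
(.lf (nat_lit 151118) (.g (nat_lit 2994) (.e (nat_lit 57379) (nat_lit 3) (.e (nat_lit 98367) (nat_lit 27) (.e (nat_lit 434244) (nat_lit 28) (.e (nat_lit 573487) (nat_lit 14) (.e (nat_lit 73747) (nat_lit 3) (.e (nat_lit 516119) (nat_lit 1) (.e (nat_lit 171776) (nat_lit 160) .nil))))))) (.g (nat_lit 4) .nil .nil))) 
(.lf (nat_lit 151150) (.g (nat_lit 2780) (.e (nat_lit 57379) (nat_lit 3) (.e (nat_lit 98369) (nat_lit 28) (.e (nat_lit 442390) (nat_lit 11) (.e (nat_lit 336387) (nat_lit 27) (.e (nat_lit 426098) (nat_lit 1) (.e (nat_lit 164397) (nat_lit 256) .nil)))))) (.g (nat_lit 0) .nil .nil)))) (.nd (nat_lit 5) 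
(.lf (nat_lit 151134) (.g (nat_lit 2482) (.e (nat_lit 57379) (nat_lit 3) (.e (nat_lit 98367) (nat_lit 27) (.e (nat_lit 434248) (nat_lit 28) (.e (nat_lit 573487) (nat_lit 14) (.e (nat_lit 73746) (nat_lit 3) (.e (nat_lit 516117) (nat_lit 1) (.e (nat_lit 171776) (nat_lit 160) .nil))))))) (.g (nat_lit 4) .nil .nil))) 
(.lf (nat_lit 151166) (.g (nat_lit 2457) (.e (nat_lit 57379) (nat_lit 3) (.e (nat_lit 98370) (nat_lit 28) (.e (nat_lit 442390) (nat_lit 11) (.e (nat_lit 336387) (nat_lit 27) (.e (nat_lit 426108) (nat_lit 1) (.e (nat_lit 164396) (nat_lit 256) .nil)))))) (.g (nat_lit 5) .nil .nil)))))))) (.nd (nat_lit 1) (.nd (nat_lit 2) (.nd (nat_lit 3) (.nd (nat_lit 4) (.nd (nat_lit 5) 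
(.lf (nat_lit 151105) (.g (nat_lit 2015) (.e (nat_lit 57379) (nat_lit 3) (.e (nat_lit 98367) (nat_lit 27) (.e (nat_lit 434231) (nat_lit 23) (.e (nat_lit 532515) (nat_lit 3) .nil)))) .nil)) 
(.lf (nat_lit 151137) (.g (nat_lit 2497) (.e (nat_lit 57379) (nat_lit 3) (.e (nat_lit 98367) (nat_lit 27) (.e (nat_lit 434248) (nat_lit 28) (.e (nat_lit 573487) (nat_lit 14) (.e (nat_lit 73753) (nat_lit 8) .nil))))) .nil))) (.nd (nat_lit 5) 
(.lf (nat_lit 151121) (.g (nat_lit 3154) (.e (nat_lit 57379) (nat_lit 3) (.e (nat_lit 98367) (nat_lit 27) (.e (nat_lit 434244) (nat_lit 28) (.e (nat_lit 573488) (nat_lit 14) (.e (nat_lit 73747) (nat_lit 3) (.e (nat_lit 516115) (nat_lit 1) (.e (nat_lit 171776) (nat_lit 160) .nil))))))) (.g (nat_lit 4) .nil .nil))) 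
(.lf (nat_lit 151153) (.g (nat_lit 2729) (.e (nat_lit 57379) (nat_lit 3) (.e (nat_lit 98369) (nat_lit 28) (.e (nat_lit 442390) (nat_lit 11) (.e (nat_lit 336387) (nat_lit 27) (.e (nat_lit 426100) (nat_lit 1) (.e (nat_lit 164397) (nat_lit 256) .nil)))))) (.g (nat_lit 0) .nil .nil))))) (.nd (nat_lit 4) (.nd (nat_lit 5) 
(.lf (nat_lit 151113) (.g (nat_lit 2567) (.e (nat_lit 57379) (nat_lit 3) (.e (nat_lit 98367) (nat_lit 27) (.e (nat_lit 434244) (nat_lit 28) (.e (nat_lit 573481) (nat_lit 13) (.e (nat_lit 73472) (nat_lit 18) (.e (nat_lit 204840) (nat_lit 21) (.e (nat_lit 123194) (nat_lit 266) .nil))))))) (.g (nat_lit 4) .nil .nil))) 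
(.lf (nat_lit 151145) (.g (nat_lit 2947) (.e (nat_lit 57379) (nat_lit 3) (.e (nat_lit 98368) (nat_lit 27) (.e (nat_lit 434248) (nat_lit 28) (.e (nat_lit 573487) (nat_lit 14) (.e (nat_lit 73746) (nat_lit 3) (.e (nat_lit 516115) (nat_lit 1) (.e (nat_lit 171776) (nat_lit 160) .nil))))))) (.g (nat_lit 4) .nil .nil)))) (.nd (nat_lit 5) 
(.lf (nat_lit 151129) (.g (nat_lit 2645) (.e (nat_lit 57379) (nat_lit 3) (.e (nat_lit 98367) (nat_lit 27) (.e (nat_lit 434246) (nat_lit 28) (.e (nat_lit 573484) (nat_lit 13) (.e (nat_lit 65569) (nat_lit 3) .nil))))) .nil)) 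
(.lf (nat_lit 151161) (.g (nat_lit 1830) (.e (nat_lit 57379) (nat_lit 3) (.e (nat_lit 98370) (nat_lit 28) (.e (nat_lit 442390) (nat_lit 11) (.e (nat_lit 336387) (nat_lit 27) (.e (nat_lit 426098) (nat_lit 1) (.e (nat_lit 164397) (nat_lit 256) .nil)))))) (.g (nat_lit 4) .nil .nil)))))) (.nd (nat_lit 3) (.nd (nat_lit 4) (.nd (nat_lit 5) 
(.lf (nat_lit 151109) (.g (nat_lit 1309) (.e (nat_lit 57379) (nat_lit 3) (.e (nat_lit 98367) (nat_lit 27) (.e (nat_lit 434232) (nat_lit 23) (.e (nat_lit 532515) (nat_lit 3) .nil)))) .nil)) 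
(.lf (nat_lit 151141) (.g (nat_lit 2510) (.e (nat_lit 57379) (nat_lit 3) (.e (nat_lit 98368) (nat_lit 27) (.e (nat_lit 434245) (nat_lit 28) (.e (nat_lit 573487) (nat_lit 14) (.e (nat_lit 73746) (nat_lit 3) (.e (nat_lit 516119) (nat_lit 1) (.e (nat_lit 171776) (nat_lit 160) .nil))))))) (.g (nat_lit 4) .nil .nil)))) (.nd (nat_lit 5) 
(.lf (nat_lit 151125) (.g (nat_lit 2512) (.e (nat_lit 57379) (nat_lit 3) (.e (nat_lit 98367) (nat_lit 27) (.e (nat_lit 434245) (nat_lit 28) (.e (nat_lit 573487) (nat_lit 14) (.e (nat_lit 73746) (nat_lit 3) (.e (nat_lit 516120) (nat_lit 1) (.e (nat_lit 171776) (nat_lit 160) .nil))))))) (.g (nat_lit 4) .nil .nil))) 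
(.lf (nat_lit 151157) (.g (nat_lit 1272) (.e (nat_lit 57379) (nat_lit 3) (.e (nat_lit 98369) (nat_lit 28) (.e (nat_lit 450304) (nat_lit 18) (.e (nat_lit 393234) (nat_lit 17) (.e (nat_lit 2399) (nat_lit 157) (.e (nat_lit 5940) (nat_lit 322) .nil)))))) (.g (nat_lit 4) .nil .nil))))) (.nd (nat_lit 4) (.nd (nat_lit 5) 
(.lf (nat_lit 151117) (.g (nat_lit 3563) (.e (nat_lit 57379) (nat_lit 3) (.e (nat_lit 98367) (nat_lit 27) (.e (nat_lit 434244) (nat_lit 28) (.e (nat_lit 573487) (nat_lit 14) (.e (nat_lit 73747) (nat_lit 3) (.e (nat_lit 516115) (nat_lit 1) (.e (nat_lit 171776) (nat_lit 160) .nil))))))) (.g (nat_lit 5) .nil .nil))) 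
(.lf (nat_lit 151149) (.g (nat_lit 2577) (.e (nat_lit 57379) (nat_lit 3) (.e (nat_lit 98369) (nat_lit 28) (.e (nat_lit 442390) (nat_lit 11) (.e (nat_lit 336387) (nat_lit 27) (.e (nat_lit 426098) (nat_lit 1) (.e (nat_lit 164396) (nat_lit 256) .nil)))))) (.g (nat_lit 6) .nil .nil)))) (.nd (nat_lit 5) 
(.lf (nat_lit 151133) (.g (nat_lit 2912) (.e (nat_lit 57379) (nat_lit 3) (.e (nat_lit 98367) (nat_lit 27) (.e (nat_lit 434248) (nat_lit 28) (.e (nat_lit 573487) (nat_lit 14) (.e (nat_lit 73746) (nat_lit 3) (.e (nat_lit 516115) (nat_lit 1) (.e (nat_lit 171776) (nat_lit 160) .nil))))))) (.g (nat_lit 4) .nil .nil))) 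
(.lf (nat_lit 151165) (.g (nat_lit 2371) (.e (nat_lit 57379) (nat_lit 3) (.e (nat_lit 98370) (nat_lit 28) (.e (nat_lit 442390) (nat_lit 11) (.e (nat_lit 336387) (nat_lit 27) (.e (nat_lit 426107) (nat_lit 1) (.e (nat_lit 164396) (nat_lit 256) .nil)))))) (.g (nat_lit 5) .nil .nil))))))) (.nd (nat_lit 2) (.nd (nat_lit 3) (.nd (nat_lit 4) (.nd (nat_lit 5) 
(.lf (nat_lit 151107) (.g (nat_lit 2120) (.e (nat_lit 57379) (nat_lit 3) (.e (nat_lit 98367) (nat_lit 27) (.e (nat_lit 434232) (nat_lit 23) (.e (nat_lit 532513) (nat_lit 3) (.e (nat_lit 114718) (nat_lit 23) .nil))))) .nil)) 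
(.lf (nat_lit 151139) (.g (nat_lit 3122) (.e (nat_lit 57379) (nat_lit 3) (.e (nat_lit 98368) (nat_lit 27) (.e (nat_lit 434245) (nat_lit 28) (.e (nat_lit 573487) (nat_lit 14) (.e (nat_lit 73746) (nat_lit 3) (.e (nat_lit 516115) (nat_lit 1) (.e (nat_lit 171776) (nat_lit 160) .nil))))))) (.g (nat_lit 5) .nil .nil)))) (.nd (nat_lit 5) 
(.lf (nat_lit 151123) (.g (nat_lit 2334) (.e (nat_lit 57379) (nat_lit 3) (.e (nat_lit 98367) (nat_lit 27) (.e (nat_lit 434245) (nat_lit 28) (.e (nat_lit 573487) (nat_lit 14) (.e (nat_lit 73746) (nat_lit 3) (.e (nat_lit 516117) (nat_lit 1) (.e (nat_lit 171776) (nat_lit 160) .nil))))))) (.g (nat_lit 4) .nil .nil))) 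
(.lf (nat_lit 151155) (.g (nat_lit 2521) (.e (nat_lit 57379) (nat_lit 3) (.e (nat_lit 98369) (nat_lit 28) (.e (nat_lit 442390) (nat_lit 11) (.e (nat_lit 336387) (nat_lit 27) (.e (nat_lit 426107) (nat_lit 1) (.e (nat_lit 164396) (nat_lit 256) .nil)))))) (.g (nat_lit 0) .nil .nil))))) (.nd (nat_lit 4) (.nd (nat_lit 5) 
(.lf (nat_lit 151115) (.g (nat_lit 3045) (.e (nat_lit 57379) (nat_lit 3) (.e (nat_lit 98367) (nat_lit 27) (.e (nat_lit 434244) (nat_lit 28) (.e (nat_lit 573487) (nat_lit 14) (.e (nat_lit 73746) (nat_lit 3) (.e (nat_lit 516119) (nat_lit 1) (.e (nat_lit 171776) (nat_lit 160) .nil))))))) (.g (nat_lit 4) .nil .nil))) 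
(.lf (nat_lit 151147) (.g (nat_lit 2445) (.e (nat_lit 57379) (nat_lit 3) (.e (nat_lit 98368) (nat_lit 27) (.e (nat_lit 434248) (nat_lit 28) (.e (nat_lit 573487) (nat_lit 14) (.e (nat_lit 73747) (nat_lit 3) (.e (nat_lit 516119) (nat_lit 1) (.e (nat_lit 171776) (nat_lit 160) .nil))))))) (.g (nat_lit 4) .nil .nil)))) (.nd (nat_lit 5) 
(.lf (nat_lit 151131) (.g (nat_lit 3410) (.e (nat_lit 57379) (nat_lit 3) (.e (nat_lit 98367) (nat_lit 27) (.e (nat_lit 434247) (nat_lit 28) (.e (nat_lit 573484) (nat_lit 13) (.e (nat_lit 65569) (nat_lit 3) (.e (nat_lit 98334) (nat_lit 18) (.e (nat_lit 171776) (nat_lit 160) .nil))))))) (.g (nat_lit 4) .nil .nil))) 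
(.lf (nat_lit 151163) (.g (nat_lit 1783) (.e (nat_lit 57379) (nat_lit 3) (.e (nat_lit 98370) (nat_lit 28) (.e (nat_lit 442390) (nat_lit 11) (.e (nat_lit 336387) (nat_lit 27) (.e (nat_lit 426100) (nat_lit 1) (.e (nat_lit 164397) (nat_lit 256) .nil)))))) (.g (nat_lit 4) .nil .nil)))))) (.nd (nat_lit 3) (.nd (nat_lit 4) (.nd (nat_lit 5) 
(.lf (nat_lit 151111) (.g (nat_lit 932) (.e (nat_lit 57379) (nat_lit 3) (.e (nat_lit 98367) (nat_lit 27) (.e (nat_lit 434243) (nat_lit 28) .nil))) .nil)) 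
(.lf (nat_lit 151143) (.g (nat_lit 2687) (.e (nat_lit 57379) (nat_lit 3) (.e (nat_lit 98368) (nat_lit 27) (.e (nat_lit 434245) (nat_lit 28) (.e (nat_lit 573487) (nat_lit 14) (.e (nat_lit 73747) (nat_lit 3) (.e (nat_lit 516115) (nat_lit 1) (.e (nat_lit 171776) (nat_lit 160) .nil))))))) (.g (nat_lit 4) .nil .nil)))) (.nd (nat_lit 5) 
(.lf (nat_lit 151127) (.g (nat_lit 2297) (.e (nat_lit 57379) (nat_lit 3) (.e (nat_lit 98367) (nat_lit 27) (.e (nat_lit 434245) (nat_lit 28) (.e (nat_lit 573487) (nat_lit 14) (.e (nat_lit 73753) (nat_lit 8) .nil))))) .nil)) 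
(.lf (nat_lit 151159) (.g (nat_lit 1531) (.e (nat_lit 57379) (nat_lit 3) (.e (nat_lit 98369) (nat_lit 28) (.e (nat_lit 450304) (nat_lit 18) (.e (nat_lit 393234) (nat_lit 17) (.e (nat_lit 2536) (nat_lit 157) (.e (nat_lit 5937) (nat_lit 322) .nil)))))) (.g (nat_lit 4) .nil .nil))))) (.nd (nat_lit 4) (.nd (nat_lit 5) 
(.lf (nat_lit 151119) (.g (nat_lit 2551) (.e (nat_lit 57379) (nat_lit 3) (.e (nat_lit 98367) (nat_lit 27) (.e (nat_lit 434244) (nat_lit 28) (.e (nat_lit 573487) (nat_lit 14) (.e (nat_lit 73753) (nat_lit 8) .nil))))) .nil)) 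
(.lf (nat_lit 151151) (.g (nat_lit 2247) (.e (nat_lit 57379) (nat_lit 3) (.e (nat_lit 98369) (nat_lit 28) (.e (nat_lit 442390) (nat_lit 11) (.e (nat_lit 336387) (nat_lit 27) (.e (nat_lit 426098) (nat_lit 1) (.e (nat_lit 164400) (nat_lit 256) .nil)))))) (.g (nat_lit 6) .nil .nil)))) (.nd (nat_lit 5) 
(.lf (nat_lit 151135) (.g (nat_lit 3134) (.e (nat_lit 57379) (nat_lit 3) (.e (nat_lit 98367) (nat_lit 27) (.e (nat_lit 434248) (nat_lit 28) (.e (nat_lit 573487) (nat_lit 14) (.e (nat_lit 73747) (nat_lit 3) (.e (nat_lit 516115) (nat_lit 1) (.e (nat_lit 171776) (nat_lit 160) .nil))))))) (.g (nat_lit 4) .nil .nil))) 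
(.lf (nat_lit 151167) (.g (nat_lit 458) (.e (nat_lit 57379) (nat_lit 3) (.e (nat_lit 98370) (nat_lit 28) (.e (nat_lit 450304) (nat_lit 18) .nil))) .nil))))))))

noncomputable def tv2016 : DT := (.nd (nat_lit 0) (.nd (nat_lit 1) (.nd (nat_lit 2) (.nd (nat_lit 3) (.nd (nat_lit 4) (.nd (nat_lit 5) 
(.lf (nat_lit 151168) (.g (nat_lit 1739) (.e (nat_lit 57379) (nat_lit 3) (.e (nat_lit 98370) (nat_lit 28) (.e (nat_lit 450304) (nat_lit 18) (.e (nat_lit 393251) (nat_lit 18) (.e (nat_lit 164396) (nat_lit 256) .nil))))) (.g (nat_lit 4) .nil .nil))) 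
(.lf (nat_lit 151200) (.g (nat_lit 2213) (.e (nat_lit 57379) (nat_lit 3) (.e (nat_lit 98372) (nat_lit 29) (.e (nat_lit 450579) (nat_lit 5) (.e (nat_lit 532530) (nat_lit 9) (.e (nat_lit 336259) (nat_lit 15) .nil))))) .nil))) (.nd (nat_lit 5) 
(.lf (nat_lit 151184) (.g (nat_lit 2445) (.e (nat_lit 57379) (nat_lit 3) (.e (nat_lit 98372) (nat_lit 29) (.e (nat_lit 450579) (nat_lit 5) (.e (nat_lit 532530) (nat_lit 9) (.e (nat_lit 336036) (nat_lit 4) (.e (nat_lit 130816) (nat_lit 241) .nil)))))) (.g (nat_lit 4) .nil .nil))) 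
(.lf (nat_lit 151216) (.g (nat_lit 2645) (.e (nat_lit 57379) (nat_lit 3) (.e (nat_lit 98372) (nat_lit 29) (.e (nat_lit 450579) (nat_lit 5) (.e (nat_lit 532534) (nat_lit 9) (.e (nat_lit 335878) (nat_lit 0) (.e (nat_lit 996) (nat_lit 81) (.e (nat_lit 4841) (nat_lit 283) .nil))))))) (.g (nat_lit 4) .nil .nil))))) (.nd (nat_lit 4) (.nd (nat_lit 5) 
(.lf (nat_lit 151176) (.g (nat_lit 1150) (.e (nat_lit 57379) (nat_lit 3) (.e (nat_lit 98372) (nat_lit 29) (.e (nat_lit 450579) (nat_lit 5) (.e (nat_lit 532530) (nat_lit 9) .nil)))) .nil)) 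
(.lf (nat_lit 151208) (.g (nat_lit 2616) (.e (nat_lit 57379) (nat_lit 3) (.e (nat_lit 98372) (nat_lit 29) (.e (nat_lit 450579) (nat_lit 5) (.e (nat_lit 532530) (nat_lit 9) (.e (nat_lit 336314) (nat_lit 16) (.e (nat_lit 171776) (nat_lit 172) .nil)))))) (.g (nat_lit 4) .nil .nil)))) (.nd (nat_lit 5) 
(.lf (nat_lit 151192) (.g (nat_lit 2618) (.e (nat_lit 57379) (nat_lit 3) (.e (nat_lit 98372) (nat_lit 29) (.e (nat_lit 450579) (nat_lit 5) (.e (nat_lit 532530) (nat_lit 9) (.e (nat_lit 336257) (nat_lit 15) (.e (nat_lit 2411) (nat_lit 157) (.e (nat_lit 6930) (nat_lit 373) .nil))))))) (.g (nat_lit 4) .nil .nil))) 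
(.lf (nat_lit 151224) (.g (nat_lit 3442) (.e (nat_lit 57379) (nat_lit 3) (.e (nat_lit 98372) (nat_lit 29) (.e (nat_lit 450579) (nat_lit 5) (.e (nat_lit 532534) (nat_lit 9) (.e (nat_lit 336240) (nat_lit 15) (.e (nat_lit 2439) (nat_lit 157) (.e (nat_lit 7936) (nat_lit 373) .nil))))))) (.g (nat_lit 6) .nil .nil)))))) (.nd (nat_lit 3) (.nd (nat_lit 4) (.nd (nat_lit 5) 
(.lf (nat_lit 151172) (.g (nat_lit 396) (.e (nat_lit 57379) (nat_lit 3) (.e (nat_lit 98372) (nat_lit 29) (.e (nat_lit 450579) (nat_lit 5) .nil))) .nil)) 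
(.lf (nat_lit 151204) (.g (nat_lit 2802) (.e (nat_lit 57379) (nat_lit 3) (.e (nat_lit 98372) (nat_lit 29) (.e (nat_lit 450579) (nat_lit 5) (.e (nat_lit 532530) (nat_lit 9) (.e (nat_lit 336261) (nat_lit 15) (.e (nat_lit 2515) (nat_lit 157) (.e (nat_lit 7936) (nat_lit 373) .nil))))))) (.g (nat_lit 6) .nil .nil)))) (.nd (nat_lit 5) 
(.lf (nat_lit 151188) (.g (nat_lit 2011) (.e (nat_lit 57379) (nat_lit 3) (.e (nat_lit 98372) (nat_lit 29) (.e (nat_lit 450579) (nat_lit 5) (.e (nat_lit 532530) (nat_lit 9) (.e (nat_lit 336257) (nat_lit 15) .nil))))) .nil)) 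
(.lf (nat_lit 151220) (.g (nat_lit 2387) (.e (nat_lit 57379) (nat_lit 3) (.e (nat_lit 98372) (nat_lit 29) (.e (nat_lit 450579) (nat_lit 5) (.e (nat_lit 532534) (nat_lit 9) (.e (nat_lit 335999) (nat_lit 1) (.e (nat_lit 65280) (nat_lit 241) .nil)))))) (.g (nat_lit 4) .nil .nil))))) (.nd (nat_lit 4) (.nd (nat_lit 5) 
(.lf (nat_lit 151180) (.g (nat_lit 2519) (.e (nat_lit 57379) (nat_lit 3) (.e (nat_lit 98372) (nat_lit 29) (.e (nat_lit 450579) (nat_lit 5) (.e (nat_lit 532530) (nat_lit 9) (.e (nat_lit 335878) (nat_lit 0) (.e (nat_lit 997) (nat_lit 81) (.e (nat_lit 4842) (nat_lit 283) .nil))))))) (.g (nat_lit 4) .nil .nil))) 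
(.lf (nat_lit 151212) (.g (nat_lit 1426) (.e (nat_lit 57379) (nat_lit 3) (.e (nat_lit 98372) (nat_lit 29) (.e (nat_lit 450579) (nat_lit 5) (.e (nat_lit 532533) (nat_lit 9) .nil)))) .nil))) (.nd (nat_lit 5) 
(.lf (nat_lit 151196) (.g (nat_lit 2532) (.e (nat_lit 57379) (nat_lit 3) (.e (nat_lit 98372) (nat_lit 29) (.e (nat_lit 450579) (nat_lit 5) (.e (nat_lit 532530) (nat_lit 9) (.e (nat_lit 336257) (nat_lit 15) (.e (nat_lit 2450) (nat_lit 157) (.e (nat_lit 7936) (nat_lit 373) .nil))))))) (.g (nat_lit 5) .nil .nil))) 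
(.lf (nat_lit 151228) (.g (nat_lit 2763) (.e (nat_lit 57379) (nat_lit 3) (.e (nat_lit 98372) (nat_lit 29) (.e (nat_lit 450579) (nat_lit 5) (.e (nat_lit 532534) (nat_lit 9) (.e (nat_lit 336257) (nat_lit 15) (.e (nat_lit 2403) (nat_lit 157) (.e (nat_lit 6930) (nat_lit 373) .nil))))))) (.g (nat_lit 4) .nil .nil))))))) (.nd (nat_lit 2) (.nd (nat_lit 3) (.nd (nat_lit 4) (.nd (nat_lit 5) 
(.lf (nat_lit 151170) (.g (nat_lit 978) (.e (nat_lit 57379) (nat_lit 3) (.e (nat_lit 98372) (nat_lit 29) (.e (nat_lit 450561) (nat_lit 0) (.e (nat_lit 6595) (nat_lit 351) .nil)))) .nil)) 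
(.lf (nat_lit 151202) (.g (nat_lit 2285) (.e (nat_lit 57379) (nat_lit 3) (.e (nat_lit 98372) (nat_lit 29) (.e (nat_lit 450579) (nat_lit 5) (.e (nat_lit 532530) (nat_lit 9) (.e (nat_lit 336259) (nat_lit 15) (.e (nat_lit 2424) (nat_lit 157) (.e (nat_lit 6931) (nat_lit 373) .nil))))))) (.g (nat_lit 4) .nil .nil)))) (.nd (nat_lit 5) 
(.lf (nat_lit 151186) (.g (nat_lit 2198) (.e (nat_lit 57379) (nat_lit 3) (.e (nat_lit 98372) (nat_lit 29) (.e (nat_lit 450579) (nat_lit 5) (.e (nat_lit 532530) (nat_lit 9) (.e (nat_lit 336240) (nat_lit 15) (.e (nat_lit 2431) (nat_lit 157) (.e (nat_lit 6931) (nat_lit 373) .nil))))))) (.g (nat_lit 4) .nil .nil))) 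
(.lf (nat_lit 151218) (.g (nat_lit 2793) (.e (nat_lit 57379) (nat_lit 3) (.e (nat_lit 98372) (nat_lit 29) (.e (nat_lit 450579) (nat_lit 5) (.e (nat_lit 532534) (nat_lit 9) (.e (nat_lit 335878) (nat_lit 0) (.e (nat_lit 997) (nat_lit 81) (.e (nat_lit 4842) (nat_lit 283) .nil))))))) (.g (nat_lit 4) .nil .nil))))) (.nd (nat_lit 4) (.nd (nat_lit 5) 
(.lf (nat_lit 151178) (.g (nat_lit 2344) (.e (nat_lit 57379) (nat_lit 3) (.e (nat_lit 98372) (nat_lit 29) (.e (nat_lit 450579) (nat_lit 5) (.e (nat_lit 532530) (nat_lit 9) (.e (nat_lit 335878) (nat_lit 0) (.e (nat_lit 996) (nat_lit 81) (.e (nat_lit 4841) (nat_lit 283) .nil))))))) (.g (nat_lit 4) .nil .nil))) 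
(.lf (nat_lit 151210) (.g (nat_lit 2426) (.e (nat_lit 57379) (nat_lit 3) (.e (nat_lit 98372) (nat_lit 29) (.e (nat_lit 450579) (nat_lit 5) (.e (nat_lit 532530) (nat_lit 9) (.e (nat_lit 336340) (nat_lit 21) (.e (nat_lit 237312) (nat_lit 172) .nil)))))) (.g (nat_lit 5) .nil .nil)))) (.nd (nat_lit 5) 
(.lf (nat_lit 151194) (.g (nat_lit 2852) (.e (nat_lit 57379) (nat_lit 3) (.e (nat_lit 98372) (nat_lit 29) (.e (nat_lit 450579) (nat_lit 5) (.e (nat_lit 532530) (nat_lit 9) (.e (nat_lit 336257) (nat_lit 15) (.e (nat_lit 2439) (nat_lit 157) (.e (nat_lit 7936) (nat_lit 373) .nil))))))) (.g (nat_lit 6) .nil .nil))) 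
(.lf (nat_lit 151226) (.g (nat_lit 2693) (.e (nat_lit 57379) (nat_lit 3) (.e (nat_lit 98372) (nat_lit 29) (.e (nat_lit 450579) (nat_lit 5) (.e (nat_lit 532534) (nat_lit 9) (.e (nat_lit 336257) (nat_lit 15) (.e (nat_lit 2397) (nat_lit 157) (.e (nat_lit 6930) (nat_lit 373) .nil))))))) (.g (nat_lit 4) .nil .nil)))))) (.nd (nat_lit 3) (.nd (nat_lit 4) (.nd (nat_lit 5) 
(.lf (nat_lit 151174) (.g (nat_lit 2642) (.e (nat_lit 57379) (nat_lit 3) (.e (nat_lit 98372) (nat_lit 29) (.e (nat_lit 450579) (nat_lit 5) (.e (nat_lit 532527) (nat_lit 9) (.e (nat_lit 335997) (nat_lit 1) (.e (nat_lit 65280) (nat_lit 241) .nil)))))) (.g (nat_lit 5) .nil .nil))) 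
(.lf (nat_lit 151206) (.g (nat_lit 2516) (.e (nat_lit 57379) (nat_lit 3) (.e (nat_lit 98372) (nat_lit 29) (.e (nat_lit 450579) (nat_lit 5) (.e (nat_lit 532530) (nat_lit 9) (.e (nat_lit 336310) (nat_lit 16) (.e (nat_lit 171776) (nat_lit 172) .nil)))))) (.g (nat_lit 5) .nil .nil)))) (.nd (nat_lit 5) 
(.lf (nat_lit 151190) (.g (nat_lit 2772) (.e (nat_lit 57379) (nat_lit 3) (.e (nat_lit 98372) (nat_lit 29) (.e (nat_lit 450579) (nat_lit 5) (.e (nat_lit 532530) (nat_lit 9) (.e (nat_lit 336257) (nat_lit 15) (.e (nat_lit 2402) (nat_lit 157) (.e (nat_lit 6930) (nat_lit 373) .nil))))))) (.g (nat_lit 4) .nil .nil))) 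
(.lf (nat_lit 151222) (.g (nat_lit 2359) (.e (nat_lit 57379) (nat_lit 3) (.e (nat_lit 98372) (nat_lit 29) (.e (nat_lit 450579) (nat_lit 5) (.e (nat_lit 532534) (nat_lit 9) (.e (nat_lit 336036) (nat_lit 4) .nil))))) .nil)))) (.nd (nat_lit 4) (.nd (nat_lit 5) 
(.lf (nat_lit 151182) (.g (nat_lit 2232) (.e (nat_lit 57379) (nat_lit 3) (.e (nat_lit 98372) (nat_lit 29) (.e (nat_lit 450579) (nat_lit 5) (.e (nat_lit 532530) (nat_lit 9) (.e (nat_lit 335999) (nat_lit 1) (.e (nat_lit 65280) (nat_lit 241) .nil)))))) (.g (nat_lit 4) .nil .nil))) 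
(.lf (nat_lit 151214) (.g (nat_lit 2086) (.e (nat_lit 57379) (nat_lit 3) (.e (nat_lit 98372) (nat_lit 29) (.e (nat_lit 450579) (nat_lit 5) (.e (nat_lit 532534) (nat_lit 9) (.e (nat_lit 335878) (nat_lit 0) .nil))))) .nil))) (.nd (nat_lit 5) 
(.lf (nat_lit 151198) (.g (nat_lit 2728) (.e (nat_lit 57379) (nat_lit 3) (.e (nat_lit 98372) (nat_lit 29) (.e (nat_lit 450579) (nat_lit 5) (.e (nat_lit 532530) (nat_lit 9) (.e (nat_lit 336257) (nat_lit 15) (.e (nat_lit 2507) (nat_lit 157) (.e (nat_lit 7936) (nat_lit 373) .nil))))))) (.g (nat_lit 5) .nil .nil))) 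
(.lf (nat_lit 151230) (.g (nat_lit 2839) (.e (nat_lit 57379) (nat_lit 3) (.e (nat_lit 98372) (nat_lit 29) (.e (nat_lit 450579) (nat_lit 5) (.e (nat_lit 532534) (nat_lit 9) (.e (nat_lit 336257) (nat_lit 15) (.e (nat_lit 2438) (nat_lit 157) (.e (nat_lit 7936) (nat_lit 373) .nil))))))) (.g (nat_lit 6) .nil .nil)))))))) 
(.nd (nat_lit 1) (.nd (nat_lit 2) (.nd (nat_lit 3) (.nd (nat_lit 4) (.nd (nat_lit 5) 
(.lf (nat_lit 151169) (.g (nat_lit 683) (.e (nat_lit 57379) (nat_lit 3) (.e (nat_lit 98370) (nat_lit 28) (.e (nat_lit 442435) (nat_lit 26) .nil))) .nil)) 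
(.lf (nat_lit 151201) (.g (nat_lit 2414) (.e (nat_lit 57379) (nat_lit 3) (.e (nat_lit 98372) (nat_lit 29) (.e (nat_lit 450579) (nat_lit 5) (.e (nat_lit 532530) (nat_lit 9) (.e (nat_lit 336259) (nat_lit 15) (.e (nat_lit 2422) (nat_lit 157) (.e (nat_lit 6931) (nat_lit 373) .nil))))))) (.g (nat_lit 4) .nil .nil)))) (.nd (nat_lit 5) 
(.lf (nat_lit 151185) (.g (nat_lit 2031) (.e (nat_lit 57379) (nat_lit 3) (.e (nat_lit 98372) (nat_lit 29) (.e (nat_lit 450579) (nat_lit 5) (.e (nat_lit 532530) (nat_lit 9) (.e (nat_lit 336240) (nat_lit 15) .nil))))) .nil)) 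
(.lf (nat_lit 151217) (.g (nat_lit 2694) (.e (nat_lit 57379) (nat_lit 3) (.e (nat_lit 98372) (nat_lit 29) (.e (nat_lit 450579) (nat_lit 5) (.e (nat_lit 532534) (nat_lit 9) (.e (nat_lit 335878) (nat_lit 0) (.e (nat_lit 997) (nat_lit 81) (.e (nat_lit 4841) (nat_lit 283) .nil))))))) (.g (nat_lit 4) .nil .nil))))) (.nd (nat_lit 4) (.nd (nat_lit 5) 
(.lf (nat_lit 151177) (.g (nat_lit 1992) (.e (nat_lit 57379) (nat_lit 3) (.e (nat_lit 98372) (nat_lit 29) (.e (nat_lit 450579) (nat_lit 5) (.e (nat_lit 532530) (nat_lit 9) (.e (nat_lit 335878) (nat_lit 0) .nil))))) .nil)) 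
(.lf (nat_lit 151209) (.g (nat_lit 2656) (.e (nat_lit 57379) (nat_lit 3) (.e (nat_lit 98372) (nat_lit 29) (.e (nat_lit 450579) (nat_lit 5) (.e (nat_lit 532530) (nat_lit 9) (.e (nat_lit 336339) (nat_lit 21) (.e (nat_lit 237312) (nat_lit 172) .nil)))))) (.g (nat_lit 4) .nil .nil)))) (.nd (nat_lit 5) 
(.lf (nat_lit 151193) (.g (nat_lit 2855) (.e (nat_lit 57379) (nat_lit 3) (.e (nat_lit 98372) (nat_lit 29) (.e (nat_lit 450579) (nat_lit 5) (.e (nat_lit 532530) (nat_lit 9) (.e (nat_lit 336257) (nat_lit 15) (.e (nat_lit 2438) (nat_lit 157) (.e (nat_lit 7936) (nat_lit 373) .nil))))))) (.g (nat_lit 6) .nil .nil))) 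
(.lf (nat_lit 151225) (.g (nat_lit 2009) (.e (nat_lit 57379) (nat_lit 3) (.e (nat_lit 98372) (nat_lit 29) (.e (nat_lit 450579) (nat_lit 5) (.e (nat_lit 532534) (nat_lit 9) (.e (nat_lit 336257) (nat_lit 15) .nil))))) .nil))))) (.nd (nat_lit 3) (.nd (nat_lit 4) (.nd (nat_lit 5) 
(.lf (nat_lit 151173) (.g (nat_lit 1486) (.e (nat_lit 57379) (nat_lit 3) (.e (nat_lit 98372) (nat_lit 29) (.e (nat_lit 450579) (nat_lit 5) (.e (nat_lit 532527) (nat_lit 9) .nil)))) .nil)) 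
(.lf (nat_lit 151205) (.g (nat_lit 2433) (.e (nat_lit 57379) (nat_lit 3) (.e (nat_lit 98372) (nat_lit 29) (.e (nat_lit 450579) (nat_lit 5) (.e (nat_lit 532530) (nat_lit 9) (.e (nat_lit 336309) (nat_lit 16) (.e (nat_lit 171776) (nat_lit 172) .nil)))))) (.g (nat_lit 5) .nil .nil)))) (.nd (nat_lit 5) 
(.lf (nat_lit 151189) (.g (nat_lit 2709) (.e (nat_lit 57379) (nat_lit 3) (.e (nat_lit 98372) (nat_lit 29) (.e (nat_lit 450579) (nat_lit 5) (.e (nat_lit 532530) (nat_lit 9) (.e (nat_lit 336257) (nat_lit 15) (.e (nat_lit 2397) (nat_lit 157) (.e (nat_lit 6930) (nat_lit 373) .nil))))))) (.g (nat_lit 4) .nil .nil))) 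
(.lf (nat_lit 151221) (.g (nat_lit 2425) (.e (nat_lit 57379) (nat_lit 3) (.e (nat_lit 98372) (nat_lit 29) (.e (nat_lit 450579) (nat_lit 5) (.e (nat_lit 532534) (nat_lit 9) (.e (nat_lit 336000) (nat_lit 1) (.e (nat_lit 65280) (nat_lit 241) .nil)))))) (.g (nat_lit 4) .nil .nil))))) (.nd (nat_lit 4) (.nd (nat_lit 5) 
(.lf (nat_lit 151181) (.g (nat_lit 2572) (.e (nat_lit 57379) (nat_lit 3) (.e (nat_lit 98372) (nat_lit 29) (.e (nat_lit 450579) (nat_lit 5) (.e (nat_lit 532530) (nat_lit 9) (.e (nat_lit 335878) (nat_lit 0) (.e (nat_lit 997) (nat_lit 81) (.e (nat_lit 7936) (nat_lit 283) .nil))))))) (.g (nat_lit 5) .nil .nil))) 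
(.lf (nat_lit 151213) (.g (nat_lit 1273) (.e (nat_lit 57379) (nat_lit 3) (.e (nat_lit 98372) (nat_lit 29) (.e (nat_lit 450579) (nat_lit 5) (.e (nat_lit 532534) (nat_lit 9) .nil)))) .nil))) (.nd (nat_lit 5) 
(.lf (nat_lit 151197) (.g (nat_lit 2591) (.e (nat_lit 57379) (nat_lit 3) (.e (nat_lit 98372) (nat_lit 29) (.e (nat_lit 450579) (nat_lit 5) (.e (nat_lit 532530) (nat_lit 9) (.e (nat_lit 336257) (nat_lit 15) (.e (nat_lit 2458) (nat_lit 157) (.e (nat_lit 7936) (nat_lit 373) .nil))))))) (.g (nat_lit 5) .nil .nil))) 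
(.lf (nat_lit 151229) (.g (nat_lit 2602) (.e (nat_lit 57379) (nat_lit 3) (.e (nat_lit 98372) (nat_lit 29) (.e (nat_lit 450579) (nat_lit 5) (.e (nat_lit 532534) (nat_lit 9) (.e (nat_lit 336257) (nat_lit 15) (.e (nat_lit 2411) (nat_lit 157) (.e (nat_lit 6930) (nat_lit 373) .nil))))))) (.g (nat_lit 4) .nil .nil))))))) (.nd (nat_lit 2) (.nd (nat_lit 3) (.nd (nat_lit 4) (.nd (nat_lit 5) 
(.lf (nat_lit 151171) (.g (nat_lit 667) (.e (nat_lit 57379) (nat_lit 3) (.e (nat_lit 98372) (nat_lit 29) (.e (nat_lit 450562) (nat_lit 0) .nil))) .nil)) 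
(.lf (nat_lit 151203) (.g (nat_lit 2221) (.e (nat_lit 57379) (nat_lit 3) (.e (nat_lit 98372) (nat_lit 29) (.e (nat_lit 450579) (nat_lit 5) (.e (nat_lit 532530) (nat_lit 9) (.e (nat_lit 336259) (nat_lit 15) (.e (nat_lit 2515) (nat_lit 157) (.e (nat_lit 7936) (nat_lit 373) .nil))))))) (.g (nat_lit 4) .nil .nil)))) (.nd (nat_lit 5) 
(.lf (nat_lit 151187) (.g (nat_lit 3388) (.e (nat_lit 57379) (nat_lit 3) (.e (nat_lit 98372) (nat_lit 29) (.e (nat_lit 450579) (nat_lit 5) (.e (nat_lit 532530) (nat_lit 9) (.e (nat_lit 336240) (nat_lit 15) (.e (nat_lit 2439) (nat_lit 157) (.e (nat_lit 7936) (nat_lit 373) .nil))))))) (.g (nat_lit 6) .nil .nil))) 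
(.lf (nat_lit 151219) (.g (nat_lit 2861) (.e (nat_lit 57379) (nat_lit 3) (.e (nat_lit 98372) (nat_lit 29) (.e (nat_lit 450579) (nat_lit 5) (.e (nat_lit 532534) (nat_lit 9) (.e (nat_lit 335878) (nat_lit 0) (.e (nat_lit 997) (nat_lit 81) (.e (nat_lit 7936) (nat_lit 283) .nil))))))) (.g (nat_lit 6) .nil .nil))))) (.nd (nat_lit 4) (.nd (nat_lit 5) 
(.lf (nat_lit 151179) (.g (nat_lit 2405) (.e (nat_lit 57379) (nat_lit 3) (.e (nat_lit 98372) (nat_lit 29) (.e (nat_lit 450579) (nat_lit 5) (.e (nat_lit 532530) (nat_lit 9) (.e (nat_lit 335878) (nat_lit 0) (.e (nat_lit 997) (nat_lit 81) (.e (nat_lit 4841) (nat_lit 283) .nil))))))) (.g (nat_lit 4) .nil .nil))) 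
(.lf (nat_lit 151211) (.g (nat_lit 3139) (.e (nat_lit 57379) (nat_lit 3) (.e (nat_lit 98372) (nat_lit 29) (.e (nat_lit 450579) (nat_lit 5) (.e (nat_lit 532530) (nat_lit 9) (.e (nat_lit 336342) (nat_lit 21) (.e (nat_lit 237312) (nat_lit 172) .nil)))))) (.g (nat_lit 5) .nil .nil)))) (.nd (nat_lit 5) 
(.lf (nat_lit 151195) (.g (nat_lit 2764) (.e (nat_lit 57379) (nat_lit 3) (.e (nat_lit 98372) (nat_lit 29) (.e (nat_lit 450579) (nat_lit 5) (.e (nat_lit 532530) (nat_lit 9) (.e (nat_lit 336257) (nat_lit 15) (.e (nat_lit 2449) (nat_lit 157) (.e (nat_lit 7936) (nat_lit 373) .nil))))))) (.g (nat_lit 6) .nil .nil))) 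
(.lf (nat_lit 151227) (.g (nat_lit 2756) (.e (nat_lit 57379) (nat_lit 3) (.e (nat_lit 98372) (nat_lit 29) (.e (nat_lit 450579) (nat_lit 5) (.e (nat_lit 532534) (nat_lit 9) (.e (nat_lit 336257) (nat_lit 15) (.e (nat_lit 2402) (nat_lit 157) (.e (nat_lit 6930) (nat_lit 373) .nil))))))) (.g (nat_lit 4) .nil .nil)))))) (.nd (nat_lit 3) (.nd (nat_lit 4) (.nd (nat_lit 5) 
(.lf (nat_lit 151175) (.g (nat_lit 1340) (.e (nat_lit 57379) (nat_lit 3) (.e (nat_lit 98372) (nat_lit 29) (.e (nat_lit 450579) (nat_lit 5) (.e (nat_lit 532528) (nat_lit 9) .nil)))) .nil)) 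
(.lf (nat_lit 151207) (.g (nat_lit 2456) (.e (nat_lit 57379) (nat_lit 3) (.e (nat_lit 98372) (nat_lit 29) (.e (nat_lit 450579) (nat_lit 5) (.e (nat_lit 532530) (nat_lit 9) (.e (nat_lit 336312) (nat_lit 16) (.e (nat_lit 171776) (nat_lit 172) .nil)))))) (.g (nat_lit 4) .nil .nil)))) (.nd (nat_lit 5) 
(.lf (nat_lit 151191) (.g (nat_lit 2779) (.e (nat_lit 57379) (nat_lit 3) (.e (nat_lit 98372) (nat_lit 29) (.e (nat_lit 450579) (nat_lit 5) (.e (nat_lit 532530) (nat_lit 9) (.e (nat_lit 336257) (nat_lit 15) (.e (nat_lit 2403) (nat_lit 157) (.e (nat_lit 6930) (nat_lit 373) .nil))))))) (.g (nat_lit 4) .nil .nil))) 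
(.lf (nat_lit 151223) (.g (nat_lit 2266) (.e (nat_lit 57379) (nat_lit 3) (.e (nat_lit 98372) (nat_lit 29) (.e (nat_lit 450579) (nat_lit 5) (.e (nat_lit 532534) (nat_lit 9) (.e (nat_lit 336240) (nat_lit 15) .nil))))) .nil)))) (.nd (nat_lit 4) (.nd (nat_lit 5) 
(.lf (nat_lit 151183) (.g (nat_lit 2204) (.e (nat_lit 57379) (nat_lit 3) (.e (nat_lit 98372) (nat_lit 29) (.e (nat_lit 450579) (nat_lit 5) (.e (nat_lit 532530) (nat_lit 9) (.e (nat_lit 336000) (nat_lit 1) (.e (nat_lit 65280) (nat_lit 241) .nil)))))) (.g (nat_lit 4) .nil .nil))) 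
(.lf (nat_lit 151215) (.g (nat_lit 2193) (.e (nat_lit 57379) (nat_lit 3) (.e (nat_lit 98372) (nat_lit 29) (.e (nat_lit 450579) (nat_lit 5) (.e (nat_lit 532534) (nat_lit 9) (.e (nat_lit 335878) (nat_lit 0) (.e (nat_lit 984) (nat_lit 81) (.e (nat_lit 4842) (nat_lit 283) .nil))))))) (.g (nat_lit 4) .nil .nil)))) (.nd (nat_lit 5) 
(.lf (nat_lit 151199) (.g (nat_lit 2487) (.e (nat_lit 57379) (nat_lit 3) (.e (nat_lit 98372) (nat_lit 29) (.e (nat_lit 450579) (nat_lit 5) (.e (nat_lit 532530) (nat_lit 9) (.e (nat_lit 336258) (nat_lit 15) (.e (nat_lit 2450) (nat_lit 157) (.e (nat_lit 7936) (nat_lit 373) .nil))))))) (.g (nat_lit 6) .nil .nil))) 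
(.lf (nat_lit 151231) (.g (nat_lit 2868) (.e (nat_lit 57379) (nat_lit 3) (.e (nat_lit 98372) (nat_lit 29) (.e (nat_lit 450579) (nat_lit 5) (.e (nat_lit 532534) (nat_lit 9) (.e (nat_lit 336257) (nat_lit 15) (.e (nat_lit 2439) (nat_lit 157) (.e (nat_lit 7936) (nat_lit 373) .nil))))))) (.g (nat_lit 6) .nil .nil)))))))))

noncomputable def tv2017 : DT := (.nd (nat_lit 0) (.nd (nat_lit 1) (.nd (nat_lit 2) (.nd (nat_lit 3) (.nd (nat_lit 4) (.nd (nat_lit 5) 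
(.lf (nat_lit 151232) (.g (nat_lit 2748) (.e (nat_lit 57379) (nat_lit 3) (.e (nat_lit 98372) (nat_lit 29) (.e (nat_lit 450579) (nat_lit 5) (.e (nat_lit 532534) (nat_lit 9) (.e (nat_lit 336257) (nat_lit 15) (.e (nat_lit 2449) (nat_lit 157) (.e (nat_lit 7936) (nat_lit 373) .nil))))))) (.g (nat_lit 5) .nil .nil))) 
(.lf (nat_lit 151264) (.g (nat_lit 2141) (.e (nat_lit 57379) (nat_lit 3) (.e (nat_lit 98372) (nat_lit 29) (.e (nat_lit 450579) (nat_lit 5) (.e (nat_lit 532563) (nat_lit 15) (.e (nat_lit 385054) (nat_lit 21) .nil))))) .nil))) (.nd (nat_lit 5) 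
(.lf (nat_lit 151248) (.g (nat_lit 2295) (.e (nat_lit 57379) (nat_lit 3) (.e (nat_lit 98372) (nat_lit 29) (.e (nat_lit 450579) (nat_lit 5) (.e (nat_lit 532555) (nat_lit 13) (.e (nat_lit 368659) (nat_lit 18) (.e (nat_lit 4842) (nat_lit 283) .nil)))))) (.g (nat_lit 4) .nil .nil))) 
(.lf (nat_lit 151280) (.g (nat_lit 1436) (.e (nat_lit 57379) (nat_lit 3) (.e (nat_lit 98373) (nat_lit 29) (.e (nat_lit 450561) (nat_lit 0) (.e (nat_lit 6595) (nat_lit 351) .nil)))) .nil)))) (.nd (nat_lit 4) (.nd (nat_lit 5) 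
(.lf (nat_lit 151240) (.g (nat_lit 1675) (.e (nat_lit 57379) (nat_lit 3) (.e (nat_lit 98372) (nat_lit 29) (.e (nat_lit 450579) (nat_lit 5) (.e (nat_lit 532542) (nat_lit 9) .nil)))) .nil)) 
(.lf (nat_lit 151272) (.g (nat_lit 2953) (.e (nat_lit 57379) (nat_lit 3) (.e (nat_lit 98372) (nat_lit 29) (.e (nat_lit 450586) (nat_lit 10) (.e (nat_lit 573471) (nat_lit 11) (.e (nat_lit 16406) (nat_lit 1) (.e (nat_lit 171776) (nat_lit 262) .nil)))))) (.g (nat_lit 5) .nil .nil)))) (.nd (nat_lit 5) 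
(.lf (nat_lit 151256) (.g (nat_lit 2141) (.e (nat_lit 57379) (nat_lit 3) (.e (nat_lit 98372) (nat_lit 29) (.e (nat_lit 450579) (nat_lit 5) (.e (nat_lit 532563) (nat_lit 15) (.e (nat_lit 385045) (nat_lit 21) .nil))))) .nil)) 
(.lf (nat_lit 151288) (.g (nat_lit 2479) (.e (nat_lit 57379) (nat_lit 3) (.e (nat_lit 98373) (nat_lit 29) (.e (nat_lit 450563) (nat_lit 0) (.e (nat_lit 6595) (nat_lit 351) (.e (nat_lit 2638) (nat_lit 165) .nil))))) .nil))))) (.nd (nat_lit 3) (.nd (nat_lit 4) (.nd (nat_lit 5) 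
(.lf (nat_lit 151236) (.g (nat_lit 2359) (.e (nat_lit 57379) (nat_lit 3) (.e (nat_lit 98372) (nat_lit 29) (.e (nat_lit 450579) (nat_lit 5) (.e (nat_lit 532534) (nat_lit 9) (.e (nat_lit 336312) (nat_lit 16) .nil))))) .nil)) 
(.lf (nat_lit 151268) (.g (nat_lit 2073) (.e (nat_lit 57379) (nat_lit 3) (.e (nat_lit 98372) (nat_lit 29) (.e (nat_lit 450579) (nat_lit 5) (.e (nat_lit 532566) (nat_lit 15) (.e (nat_lit 385045) (nat_lit 21) (.e (nat_lit 7936) (nat_lit 373) .nil)))))) (.g (nat_lit 5) .nil .nil)))) (.nd (nat_lit 5) 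
(.lf (nat_lit 151252) (.g (nat_lit 2054) (.e (nat_lit 57379) (nat_lit 3) (.e (nat_lit 98372) (nat_lit 29) (.e (nat_lit 450579) (nat_lit 5) (.e (nat_lit 532562) (nat_lit 15) (.e (nat_lit 385047) (nat_lit 21) (.e (nat_lit 7936) (nat_lit 373) .nil)))))) (.g (nat_lit 5) .nil .nil))) 
(.lf (nat_lit 151284) (.g (nat_lit 3870) (.e (nat_lit 57379) (nat_lit 3) (.e (nat_lit 98373) (nat_lit 29) (.e (nat_lit 450562) (nat_lit 0) (.e (nat_lit 6595) (nat_lit 351) (.e (nat_lit 2638) (nat_lit 165) (.e (nat_lit 180224) (nat_lit 0) (.e (nat_lit 5939) (nat_lit 322) .nil))))))) (.g (nat_lit 5) .nil .nil))))) (.nd (nat_lit 4) (.nd (nat_lit 5) 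
(.lf (nat_lit 151244) (.g (nat_lit 1256) (.e (nat_lit 57379) (nat_lit 3) (.e (nat_lit 98372) (nat_lit 29) (.e (nat_lit 450579) (nat_lit 5) (.e (nat_lit 532553) (nat_lit 13) .nil)))) .nil)) 
(.lf (nat_lit 151276) (.g (nat_lit 398) (.e (nat_lit 57379) (nat_lit 3) (.e (nat_lit 98372) (nat_lit 29) (.e (nat_lit 458496) (nat_lit 22) .nil))) .nil))) (.nd (nat_lit 5) 
(.lf (nat_lit 151260) (.g (nat_lit 2483) (.e (nat_lit 57379) (nat_lit 3) (.e (nat_lit 98372) (nat_lit 29) (.e (nat_lit 450579) (nat_lit 5) (.e (nat_lit 532563) (nat_lit 15) (.e (nat_lit 385049) (nat_lit 21) (.e (nat_lit 7936) (nat_lit 373) .nil)))))) (.g (nat_lit 5) .nil .nil))) 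
(.lf (nat_lit 151292) (.g (nat_lit 2502) (.e (nat_lit 57379) (nat_lit 3) (.e (nat_lit 98373) (nat_lit 29) (.e (nat_lit 450587) (nat_lit 10) (.e (nat_lit 573454) (nat_lit 9) .nil)))) .nil)))))) (.nd (nat_lit 2) (.nd (nat_lit 3) (.nd (nat_lit 4) (.nd (nat_lit 5) 
(.lf (nat_lit 151234) (.g (nat_lit 2575) (.e (nat_lit 57379) (nat_lit 3) (.e (nat_lit 98372) (nat_lit 29) (.e (nat_lit 450579) (nat_lit 5) (.e (nat_lit 532534) (nat_lit 9) (.e (nat_lit 336257) (nat_lit 15) (.e (nat_lit 2458) (nat_lit 157) (.e (nat_lit 7936) (nat_lit 373) .nil))))))) (.g (nat_lit 5) .nil .nil))) 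
(.lf (nat_lit 151266) (.g (nat_lit 2297) (.e (nat_lit 57379) (nat_lit 3) (.e (nat_lit 98372) (nat_lit 29) (.e (nat_lit 450579) (nat_lit 5) (.e (nat_lit 532566) (nat_lit 15) (.e (nat_lit 385043) (nat_lit 21) (.e (nat_lit 6931) (nat_lit 373) .nil)))))) (.g (nat_lit 5) .nil .nil)))) (.nd (nat_lit 5) 
(.lf (nat_lit 151250) (.g (nat_lit 2336) (.e (nat_lit 57379) (nat_lit 3) (.e (nat_lit 98372) (nat_lit 29) (.e (nat_lit 450579) (nat_lit 5) (.e (nat_lit 532555) (nat_lit 13) (.e (nat_lit 368662) (nat_lit 18) (.e (nat_lit 7936) (nat_lit 283) .nil)))))) (.g (nat_lit 5) .nil .nil))) 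
(.lf (nat_lit 151282) (.g (nat_lit 2147) (.e (nat_lit 57379) (nat_lit 3) (.e (nat_lit 98373) (nat_lit 29) (.e (nat_lit 450562) (nat_lit 0) (.e (nat_lit 6595) (nat_lit 351) .nil)))) .nil)))) (.nd (nat_lit 4) (.nd (nat_lit 5) 
(.lf (nat_lit 151242) (.g (nat_lit 1354) (.e (nat_lit 57379) (nat_lit 3) (.e (nat_lit 98372) (nat_lit 29) (.e (nat_lit 450579) (nat_lit 5) (.e (nat_lit 532543) (nat_lit 10) .nil)))) .nil)) 
(.lf (nat_lit 151274) (.g (nat_lit 638) (.e (nat_lit 57379) (nat_lit 3) (.e (nat_lit 98372) (nat_lit 29) (.e (nat_lit 450602) (nat_lit 22) .nil))) .nil))) (.nd (nat_lit 5) 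
(.lf (nat_lit 151258) (.g (nat_lit 2673) (.e (nat_lit 57379) (nat_lit 3) (.e (nat_lit 98372) (nat_lit 29) (.e (nat_lit 450579) (nat_lit 5) (.e (nat_lit 532563) (nat_lit 15) (.e (nat_lit 385047) (nat_lit 21) (.e (nat_lit 7936) (nat_lit 373) .nil)))))) (.g (nat_lit 5) .nil .nil))) 
(.lf (nat_lit 151290) (.g (nat_lit 3651) (.e (nat_lit 57379) (nat_lit 3) (.e (nat_lit 98373) (nat_lit 29) (.e (nat_lit 450563) (nat_lit 0) (.e (nat_lit 6595) (nat_lit 351) (.e (nat_lit 2638) (nat_lit 165) (.e (nat_lit 188160) (nat_lit 0) (.e (nat_lit 5937) (nat_lit 322) .nil))))))) (.g (nat_lit 4) .nil .nil)))))) (.nd (nat_lit 3) (.nd (nat_lit 4) (.nd (nat_lit 5) 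
(.lf (nat_lit 151238) (.g (nat_lit 2359) (.e (nat_lit 57379) (nat_lit 3) (.e (nat_lit 98372) (nat_lit 29) (.e (nat_lit 450579) (nat_lit 5) (.e (nat_lit 532534) (nat_lit 9) (.e (nat_lit 336342) (nat_lit 21) .nil))))) .nil)) 
(.lf (nat_lit 151270) (.g (nat_lit 1848) (.e (nat_lit 57379) (nat_lit 3) (.e (nat_lit 98372) (nat_lit 29) (.e (nat_lit 450579) (nat_lit 5) (.e (nat_lit 532566) (nat_lit 15) (.e (nat_lit 385054) (nat_lit 21) (.e (nat_lit 7936) (nat_lit 373) .nil)))))) (.g (nat_lit 4) .nil .nil)))) (.nd (nat_lit 5) 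
(.lf (nat_lit 151254) (.g (nat_lit 2410) (.e (nat_lit 57379) (nat_lit 3) (.e (nat_lit 98372) (nat_lit 29) (.e (nat_lit 450579) (nat_lit 5) (.e (nat_lit 532563) (nat_lit 15) (.e (nat_lit 385043) (nat_lit 21) (.e (nat_lit 7936) (nat_lit 373) .nil)))))) (.g (nat_lit 4) .nil .nil))) 
(.lf (nat_lit 151286) (.g (nat_lit 1964) (.e (nat_lit 57379) (nat_lit 3) (.e (nat_lit 98373) (nat_lit 29) (.e (nat_lit 450563) (nat_lit 0) (.e (nat_lit 6420) (nat_lit 341) .nil)))) .nil)))) (.nd (nat_lit 4) (.nd (nat_lit 5) 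
(.lf (nat_lit 151246) (.g (nat_lit 2537) (.e (nat_lit 57379) (nat_lit 3) (.e (nat_lit 98372) (nat_lit 29) (.e (nat_lit 450579) (nat_lit 5) (.e (nat_lit 532553) (nat_lit 13) (.e (nat_lit 368662) (nat_lit 18) (.e (nat_lit 7936) (nat_lit 283) .nil)))))) (.g (nat_lit 5) .nil .nil))) 
(.lf (nat_lit 151278) (.g (nat_lit 1891) (.e (nat_lit 57379) (nat_lit 3) (.e (nat_lit 98372) (nat_lit 29) (.e (nat_lit 458496) (nat_lit 23) (.e (nat_lit 712749) (nat_lit 28) (.e (nat_lit 434200) (nat_lit 18) (.e (nat_lit 5933) (nat_lit 322) .nil)))))) (.g (nat_lit 5) .nil .nil)))) (.nd (nat_lit 5) 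
(.lf (nat_lit 151262) (.g (nat_lit 2141) (.e (nat_lit 57379) (nat_lit 3) (.e (nat_lit 98372) (nat_lit 29) (.e (nat_lit 450579) (nat_lit 5) (.e (nat_lit 532563) (nat_lit 15) (.e (nat_lit 385052) (nat_lit 21) .nil))))) .nil)) 
(.lf (nat_lit 151294) (.g (nat_lit 3092) (.e (nat_lit 57379) (nat_lit 3) (.e (nat_lit 98373) (nat_lit 29) (.e (nat_lit 450587) (nat_lit 10) (.e (nat_lit 573457) (nat_lit 9) .nil)))) .nil))))))) (.nd (nat_lit 1) (.nd (nat_lit 2) (.nd (nat_lit 3) (.nd (nat_lit 4) (.nd (nat_lit 5) 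
(.lf (nat_lit 151233) (.g (nat_lit 2516) (.e (nat_lit 57379) (nat_lit 3) (.e (nat_lit 98372) (nat_lit 29) (.e (nat_lit 450579) (nat_lit 5) (.e (nat_lit 532534) (nat_lit 9) (.e (nat_lit 336257) (nat_lit 15) (.e (nat_lit 2450) (nat_lit 157) (.e (nat_lit 7936) (nat_lit 373) .nil))))))) (.g (nat_lit 5) .nil .nil))) 
(.lf (nat_lit 151265) (.g (nat_lit 2076) (.e (nat_lit 57379) (nat_lit 3) (.e (nat_lit 98372) (nat_lit 29) (.e (nat_lit 450579) (nat_lit 5) (.e (nat_lit 532563) (nat_lit 15) (.e (nat_lit 392960) (nat_lit 21) .nil))))) .nil))) (.nd (nat_lit 5) 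
(.lf (nat_lit 151249) (.g (nat_lit 2123) (.e (nat_lit 57379) (nat_lit 3) (.e (nat_lit 98372) (nat_lit 29) (.e (nat_lit 450579) (nat_lit 5) (.e (nat_lit 532555) (nat_lit 13) (.e (nat_lit 368659) (nat_lit 18) (.e (nat_lit 7936) (nat_lit 283) .nil)))))) (.g (nat_lit 5) .nil .nil))) 
(.lf (nat_lit 151281) (.g (nat_lit 2348) (.e (nat_lit 57379) (nat_lit 3) (.e (nat_lit 98373) (nat_lit 29) (.e (nat_lit 450562) (nat_lit 0) (.e (nat_lit 6065) (nat_lit 328) .nil)))) .nil)))) (.nd (nat_lit 4) (.nd (nat_lit 5) 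
(.lf (nat_lit 151241) (.g (nat_lit 2318) (.e (nat_lit 57379) (nat_lit 3) (.e (nat_lit 98372) (nat_lit 29) (.e (nat_lit 450579) (nat_lit 5) (.e (nat_lit 532542) (nat_lit 9) (.e (nat_lit 335986) (nat_lit 1) (.e (nat_lit 65280) (nat_lit 241) .nil)))))) (.g (nat_lit 4) .nil .nil))) 
(.lf (nat_lit 151273) (.g (nat_lit 570) (.e (nat_lit 57379) (nat_lit 3) (.e (nat_lit 98372) (nat_lit 29) (.e (nat_lit 450588) (nat_lit 10) .nil))) .nil))) (.nd (nat_lit 5) 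
(.lf (nat_lit 151257) (.g (nat_lit 2717) (.e (nat_lit 57379) (nat_lit 3) (.e (nat_lit 98372) (nat_lit 29) (.e (nat_lit 450579) (nat_lit 5) (.e (nat_lit 532563) (nat_lit 15) (.e (nat_lit 385046) (nat_lit 21) (.e (nat_lit 7936) (nat_lit 373) .nil)))))) (.g (nat_lit 5) .nil .nil))) 
(.lf (nat_lit 151289) (.g (nat_lit 3867) (.e (nat_lit 57379) (nat_lit 3) (.e (nat_lit 98373) (nat_lit 29) (.e (nat_lit 450563) (nat_lit 0) (.e (nat_lit 6595) (nat_lit 351) (.e (nat_lit 2638) (nat_lit 165) (.e (nat_lit 180224) (nat_lit 0) (.e (nat_lit 5939) (nat_lit 322) .nil))))))) (.g (nat_lit 5) .nil .nil)))))) (.nd (nat_lit 3) (.nd (nat_lit 4) (.nd (nat_lit 5) 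
(.lf (nat_lit 151237) (.g (nat_lit 2464) (.e (nat_lit 57379) (nat_lit 3) (.e (nat_lit 98372) (nat_lit 29) (.e (nat_lit 450579) (nat_lit 5) (.e (nat_lit 532534) (nat_lit 9) (.e (nat_lit 336314) (nat_lit 16) (.e (nat_lit 171776) (nat_lit 172) .nil)))))) (.g (nat_lit 4) .nil .nil))) 
(.lf (nat_lit 151269) (.g (nat_lit 1952) (.e (nat_lit 57379) (nat_lit 3) (.e (nat_lit 98372) (nat_lit 29) (.e (nat_lit 450579) (nat_lit 5) (.e (nat_lit 532566) (nat_lit 15) (.e (nat_lit 385047) (nat_lit 21) (.e (nat_lit 7936) (nat_lit 373) .nil)))))) (.g (nat_lit 5) .nil .nil)))) (.nd (nat_lit 5) 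
(.lf (nat_lit 151253) (.g (nat_lit 2639) (.e (nat_lit 57379) (nat_lit 3) (.e (nat_lit 98372) (nat_lit 29) (.e (nat_lit 450579) (nat_lit 5) (.e (nat_lit 532563) (nat_lit 15) (.e (nat_lit 385043) (nat_lit 21) (.e (nat_lit 6931) (nat_lit 373) .nil)))))) (.g (nat_lit 4) .nil .nil))) 
(.lf (nat_lit 151285) (.g (nat_lit 2314) (.e (nat_lit 57379) (nat_lit 3) (.e (nat_lit 98373) (nat_lit 29) (.e (nat_lit 450563) (nat_lit 0) (.e (nat_lit 6065) (nat_lit 328) .nil)))) .nil)))) (.nd (nat_lit 4) (.nd (nat_lit 5) 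
(.lf (nat_lit 151245) (.g (nat_lit 1798) (.e (nat_lit 57379) (nat_lit 3) (.e (nat_lit 98372) (nat_lit 29) (.e (nat_lit 450579) (nat_lit 5) (.e (nat_lit 532553) (nat_lit 13) (.e (nat_lit 368659) (nat_lit 18) .nil))))) .nil)) 
(.lf (nat_lit 151277) (.g (nat_lit 398) (.e (nat_lit 57379) (nat_lit 3) (.e (nat_lit 98372) (nat_lit 29) (.e (nat_lit 458496) (nat_lit 23) .nil))) .nil))) (.nd (nat_lit 5) 
(.lf (nat_lit 151261) (.g (nat_lit 2603) (.e (nat_lit 57379) (nat_lit 3) (.e (nat_lit 98372) (nat_lit 29) (.e (nat_lit 450579) (nat_lit 5) (.e (nat_lit 532563) (nat_lit 15) (.e (nat_lit 385051) (nat_lit 21) (.e (nat_lit 7936) (nat_lit 373) .nil)))))) (.g (nat_lit 4) .nil .nil))) 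
(.lf (nat_lit 151293) (.g (nat_lit 3055) (.e (nat_lit 57379) (nat_lit 3) (.e (nat_lit 98373) (nat_lit 29) (.e (nat_lit 450587) (nat_lit 10) (.e (nat_lit 573456) (nat_lit 9) .nil)))) .nil)))))) (.nd (nat_lit 2) (.nd (nat_lit 3) (.nd (nat_lit 4) (.nd (nat_lit 5) 
(.lf (nat_lit 151235) (.g (nat_lit 2760) (.e (nat_lit 57379) (nat_lit 3) (.e (nat_lit 98372) (nat_lit 29) (.e (nat_lit 450579) (nat_lit 5) (.e (nat_lit 532534) (nat_lit 9) (.e (nat_lit 336257) (nat_lit 15) (.e (nat_lit 2507) (nat_lit 157) (.e (nat_lit 7936) (nat_lit 373) .nil))))))) (.g (nat_lit 6) .nil .nil))) 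
(.lf (nat_lit 151267) (.g (nat_lit 2112) (.e (nat_lit 57379) (nat_lit 3) (.e (nat_lit 98372) (nat_lit 29) (.e (nat_lit 450579) (nat_lit 5) (.e (nat_lit 532566) (nat_lit 15) (.e (nat_lit 385043) (nat_lit 21) (.e (nat_lit 7936) (nat_lit 373) .nil)))))) (.g (nat_lit 5) .nil .nil)))) (.nd (nat_lit 5) 
(.lf (nat_lit 151251) (.g (nat_lit 1395) (.e (nat_lit 57379) (nat_lit 3) (.e (nat_lit 98372) (nat_lit 29) (.e (nat_lit 450579) (nat_lit 5) (.e (nat_lit 532556) (nat_lit 13) .nil)))) .nil)) 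
(.lf (nat_lit 151283) (.g (nat_lit 2352) (.e (nat_lit 57379) (nat_lit 3) (.e (nat_lit 98373) (nat_lit 29) (.e (nat_lit 450562) (nat_lit 0) (.e (nat_lit 6595) (nat_lit 351) (.e (nat_lit 2638) (nat_lit 165) .nil))))) .nil)))) (.nd (nat_lit 4) (.nd (nat_lit 5) 
(.lf (nat_lit 151243) (.g (nat_lit 1444) (.e (nat_lit 57379) (nat_lit 3) (.e (nat_lit 98372) (nat_lit 29) (.e (nat_lit 450579) (nat_lit 5) (.e (nat_lit 532545) (nat_lit 10) .nil)))) .nil)) 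
(.lf (nat_lit 151275) (.g (nat_lit 667) (.e (nat_lit 57379) (nat_lit 3) (.e (nat_lit 98372) (nat_lit 29) (.e (nat_lit 450604) (nat_lit 22) .nil))) .nil))) (.nd (nat_lit 5) 
(.lf (nat_lit 151259) (.g (nat_lit 2473) (.e (nat_lit 57379) (nat_lit 3) (.e (nat_lit 98372) (nat_lit 29) (.e (nat_lit 450579) (nat_lit 5) (.e (nat_lit 532563) (nat_lit 15) (.e (nat_lit 385048) (nat_lit 21) .nil))))) .nil)) 
(.lf (nat_lit 151291) (.g (nat_lit 3610) (.e (nat_lit 57379) (nat_lit 3) (.e (nat_lit 98373) (nat_lit 29) (.e (nat_lit 450563) (nat_lit 0) (.e (nat_lit 6595) (nat_lit 351) (.e (nat_lit 2640) (nat_lit 165) (.e (nat_lit 180227) (nat_lit 0) (.e (nat_lit 5934) (nat_lit 322) .nil))))))) (.g (nat_lit 5) .nil .nil)))))) (.nd (nat_lit 3) (.nd (nat_lit 4) (.nd (nat_lit 5) 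
(.lf (nat_lit 151239) (.g (nat_lit 1647) (.e (nat_lit 57379) (nat_lit 3) (.e (nat_lit 98372) (nat_lit 29) (.e (nat_lit 450579) (nat_lit 5) (.e (nat_lit 532536) (nat_lit 9) .nil)))) .nil)) 
(.lf (nat_lit 151271) (.g (nat_lit 2635) (.e (nat_lit 57379) (nat_lit 3) (.e (nat_lit 98372) (nat_lit 29) (.e (nat_lit 450586) (nat_lit 10) (.e (nat_lit 573471) (nat_lit 11) (.e (nat_lit 16405) (nat_lit 1) (.e (nat_lit 171776) (nat_lit 262) .nil)))))) (.g (nat_lit 5) .nil .nil)))) (.nd (nat_lit 5) 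
(.lf (nat_lit 151255) (.g (nat_lit 2794) (.e (nat_lit 57379) (nat_lit 3) (.e (nat_lit 98372) (nat_lit 29) (.e (nat_lit 450579) (nat_lit 5) (.e (nat_lit 532563) (nat_lit 15) (.e (nat_lit 385044) (nat_lit 21) (.e (nat_lit 7936) (nat_lit 373) .nil)))))) (.g (nat_lit 5) .nil .nil))) 
(.lf (nat_lit 151287) (.g (nat_lit 2222) (.e (nat_lit 57379) (nat_lit 3) (.e (nat_lit 98373) (nat_lit 29) (.e (nat_lit 450563) (nat_lit 0) (.e (nat_lit 6595) (nat_lit 351) .nil)))) .nil)))) (.nd (nat_lit 4) (.nd (nat_lit 5) 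
(.lf (nat_lit 151247) (.g (nat_lit 2150) (.e (nat_lit 57379) (nat_lit 3) (.e (nat_lit 98372) (nat_lit 29) (.e (nat_lit 450579) (nat_lit 5) (.e (nat_lit 532555) (nat_lit 13) (.e (nat_lit 368659) (nat_lit 18) (.e (nat_lit 4841) (nat_lit 283) .nil)))))) (.g (nat_lit 4) .nil .nil))) 
(.lf (nat_lit 151279) (.g (nat_lit 1053) (.e (nat_lit 57379) (nat_lit 3) (.e (nat_lit 98373) (nat_lit 29) (.e (nat_lit 450560) (nat_lit 0) .nil))) .nil))) (.nd (nat_lit 5) 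
(.lf (nat_lit 151263) (.g (nat_lit 2677) (.e (nat_lit 57379) (nat_lit 3) (.e (nat_lit 98372) (nat_lit 29) (.e (nat_lit 450579) (nat_lit 5) (.e (nat_lit 532563) (nat_lit 15) (.e (nat_lit 385053) (nat_lit 21) (.e (nat_lit 7936) (nat_lit 373) .nil)))))) (.g (nat_lit 5) .nil .nil))) 
(.lf (nat_lit 151295) (.g (nat_lit 3216) (.e (nat_lit 57379) (nat_lit 3) (.e (nat_lit 98373) (nat_lit 29) (.e (nat_lit 450587) (nat_lit 10) (.e (nat_lit 573469) (nat_lit 11) .nil)))) .nil))))))))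

noncomputable def tv2018 : DT := (.nd (nat_lit 0) (.nd (nat_lit 1) (.nd (nat_lit 2) (.nd (nat_lit 3) (.nd (nat_lit 4) (.nd (nat_lit 5) 
(.lf (nat_lit 151296) (.g (nat_lit 1484) (.e (nat_lit 57379) (nat_lit 3) (.e (nat_lit 98373) (nat_lit 29) (.e (nat_lit 450587) (nat_lit 10) (.e (nat_lit 573475) (nat_lit 12) .nil)))) .nil)) 
(.lf (nat_lit 151328) (.g (nat_lit 5308) (.e (nat_lit 57379) (nat_lit 3) (.e (nat_lit 98373) (nat_lit 29) (.e (nat_lit 450588) (nat_lit 10) (.e (nat_lit 573473) (nat_lit 12) (.e (nat_lit 65280) (nat_lit 57) (.e (nat_lit 794661) (nat_lit 21) (.e (nat_lit 171776) (nat_lit 148) .nil))))))) (.g (nat_lit 6) .nil .nil)))) (.nd (nat_lit 5) 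
(.lf (nat_lit 151312) (.g (nat_lit 3484) (.e (nat_lit 57379) (nat_lit 3) (.e (nat_lit 98373) (nat_lit 29) (.e (nat_lit 450587) (nat_lit 10) (.e (nat_lit 573478) (nat_lit 12) (.e (nat_lit 65280) (nat_lit 57) (.e (nat_lit 794661) (nat_lit 21) (.e (nat_lit 171776) (nat_lit 148) .nil))))))) (.g (nat_lit 6) .nil .nil))) 
(.lf (nat_lit 151344) (.g (nat_lit 2545) (.e (nat_lit 57379) (nat_lit 3) (.e (nat_lit 98376) (nat_lit 30) (.e (nat_lit 458789) (nat_lit 23) (.e (nat_lit 532579) (nat_lit 26) (.e (nat_lit 426124) (nat_lit 2) (.e (nat_lit 196658) (nat_lit 12) (.e (nat_lit 57348) (nat_lit 0) (.e (nat_lit 7695) (nat_lit 412) .nil)))))))) (.g (nat_lit 4) .nil .nil))))) (.nd (nat_lit 4) (.nd (nat_lit 5) 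
(.lf (nat_lit 151304) (.g (nat_lit 3373) (.e (nat_lit 57379) (nat_lit 3) (.e (nat_lit 98373) (nat_lit 29) (.e (nat_lit 450587) (nat_lit 10) (.e (nat_lit 573475) (nat_lit 12) (.e (nat_lit 57578) (nat_lit 60) .nil))))) .nil)) 
(.lf (nat_lit 151336) (.g (nat_lit 803) (.e (nat_lit 57379) (nat_lit 3) (.e (nat_lit 98373) (nat_lit 29) (.e (nat_lit 450603) (nat_lit 22) .nil))) .nil))) (.nd (nat_lit 5) 
(.lf (nat_lit 151320) (.g (nat_lit 3096) (.e (nat_lit 57379) (nat_lit 3) (.e (nat_lit 98373) (nat_lit 29) (.e (nat_lit 450588) (nat_lit 10) (.e (nat_lit 573471) (nat_lit 11) (.e (nat_lit 16392) (nat_lit 0) .nil))))) .nil)) 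
(.lf (nat_lit 151352) (.g (nat_lit 2892) (.e (nat_lit 57379) (nat_lit 3) (.e (nat_lit 98377) (nat_lit 30) (.e (nat_lit 458789) (nat_lit 23) (.e (nat_lit 532515) (nat_lit 3) (.e (nat_lit 114716) (nat_lit 22) (.e (nat_lit 90164) (nat_lit 12) (.e (nat_lit 163850) (nat_lit 0) (.e (nat_lit 5939) (nat_lit 322) .nil)))))))) (.g (nat_lit 5) .nil .nil)))))) 
(.nd (nat_lit 3) (.nd (nat_lit 4) (.nd (nat_lit 5) 
(.lf (nat_lit 151300) (.g (nat_lit 2495) (.e (nat_lit 57379) (nat_lit 3) (.e (nat_lit 98373) (nat_lit 29) (.e (nat_lit 450587) (nat_lit 10) (.e (nat_lit 573475) (nat_lit 12) (.e (nat_lit 57347) (nat_lit 0) .nil))))) .nil)) 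
(.lf (nat_lit 151332) (.g (nat_lit 4893) (.e (nat_lit 57379) (nat_lit 3) (.e (nat_lit 98373) (nat_lit 29) (.e (nat_lit 450588) (nat_lit 10) (.e (nat_lit 573475) (nat_lit 12) (.e (nat_lit 57574) (nat_lit 55) .nil))))) .nil))) (.nd (nat_lit 5) 
(.lf (nat_lit 151316) (.g (nat_lit 3787) (.e (nat_lit 57379) (nat_lit 3) (.e (nat_lit 98373) (nat_lit 29) (.e (nat_lit 450588) (nat_lit 10) (.e (nat_lit 573457) (nat_lit 9) .nil)))) .nil)) 
(.lf (nat_lit 151348) (.g (nat_lit 2623) (.e (nat_lit 57379) (nat_lit 3) (.e (nat_lit 98376) (nat_lit 30) (.e (nat_lit 458789) (nat_lit 23) (.e (nat_lit 532579) (nat_lit 26) (.e (nat_lit 426139) (nat_lit 3) (.e (nat_lit 204830) (nat_lit 18) (.e (nat_lit 65280) (nat_lit 166) .nil))))))) (.g (nat_lit 4) .nil .nil))))) (.nd (nat_lit 4) (.nd (nat_lit 5) 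
(.lf (nat_lit 151308) (.g (nat_lit 4104) (.e (nat_lit 57379) (nat_lit 3) (.e (nat_lit 98373) (nat_lit 29) (.e (nat_lit 450587) (nat_lit 10) (.e (nat_lit 573477) (nat_lit 12) (.e (nat_lit 57574) (nat_lit 55) (.e (nat_lit 778455) (nat_lit 10) (.e (nat_lit 8285) (nat_lit 51) (.e (nat_lit 4413) (nat_lit 259) .nil)))))))) (.g (nat_lit 4) .nil .nil))) 
(.lf (nat_lit 151340) (.g (nat_lit 3581) (.e (nat_lit 57379) (nat_lit 3) (.e (nat_lit 98376) (nat_lit 30) (.e (nat_lit 458789) (nat_lit 23) (.e (nat_lit 532515) (nat_lit 3) (.e (nat_lit 114717) (nat_lit 23) (.e (nat_lit 98334) (nat_lit 18) (.e (nat_lit 164398) (nat_lit 256) .nil))))))) (.g (nat_lit 0) .nil .nil)))) (.nd (nat_lit 5) 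
(.lf (nat_lit 151324) (.g (nat_lit 4265) (.e (nat_lit 57379) (nat_lit 3) (.e (nat_lit 98373) (nat_lit 29) (.e (nat_lit 450588) (nat_lit 10) (.e (nat_lit 573471) (nat_lit 11) (.e (nat_lit 16405) (nat_lit 1) (.e (nat_lit 171776) (nat_lit 262) .nil)))))) (.g (nat_lit 5) .nil .nil))) 
(.lf (nat_lit 151356) (.g (nat_lit 2400) (.e (nat_lit 57379) (nat_lit 3) (.e (nat_lit 98377) (nat_lit 30) (.e (nat_lit 458789) (nat_lit 23) (.e (nat_lit 532515) (nat_lit 3) (.e (nat_lit 114718) (nat_lit 23) (.e (nat_lit 98334) (nat_lit 18) (.e (nat_lit 164397) (nat_lit 256) .nil))))))) (.g (nat_lit 4) .nil .nil))))))) (.nd (nat_lit 2) (.nd (nat_lit 3) (.nd (nat_lit 4) (.nd (nat_lit 5) 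
(.lf (nat_lit 151298) (.g (nat_lit 3409) (.e (nat_lit 57379) (nat_lit 3) (.e (nat_lit 98373) (nat_lit 29) (.e (nat_lit 450587) (nat_lit 10) (.e (nat_lit 573475) (nat_lit 12) (.e (nat_lit 57345) (nat_lit 0) (.e (nat_lit 7695) (nat_lit 412) (.e (nat_lit 57391) (nat_lit 6) (.e (nat_lit 130816) (nat_lit 172) .nil)))))))) (.g (nat_lit 6) .nil .nil))) 
(.lf (nat_lit 151330) (.g (nat_lit 3942) (.e (nat_lit 57379) (nat_lit 3) (.e (nat_lit 98373) (nat_lit 29) (.e (nat_lit 450588) (nat_lit 10) (.e (nat_lit 573475) (nat_lit 12) .nil)))) .nil))) (.nd (nat_lit 5) 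
(.lf (nat_lit 151314) (.g (nat_lit 2937) (.e (nat_lit 57379) (nat_lit 3) (.e (nat_lit 98373) (nat_lit 29) (.e (nat_lit 450588) (nat_lit 10) (.e (nat_lit 573450) (nat_lit 9) .nil)))) .nil)) 
(.lf (nat_lit 151346) (.g (nat_lit 2430) (.e (nat_lit 57379) (nat_lit 3) (.e (nat_lit 98376) (nat_lit 30) (.e (nat_lit 458789) (nat_lit 23) (.e (nat_lit 532579) (nat_lit 26) (.e (nat_lit 426124) (nat_lit 2) (.e (nat_lit 196677) (nat_lit 16) (.e (nat_lit 122881) (nat_lit 0) (.e (nat_lit 7695) (nat_lit 412) .nil)))))))) (.g (nat_lit 4) .nil .nil))))) (.nd (nat_lit 4) (.nd (nat_lit 5) 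
(.lf (nat_lit 151306) (.g (nat_lit 2813) (.e (nat_lit 57379) (nat_lit 3) (.e (nat_lit 98373) (nat_lit 29) (.e (nat_lit 450587) (nat_lit 10) (.e (nat_lit 573477) (nat_lit 12) .nil)))) .nil)) 
(.lf (nat_lit 151338) (.g (nat_lit 646) (.e (nat_lit 57379) (nat_lit 3) (.e (nat_lit 98373) (nat_lit 29) (.e (nat_lit 458496) (nat_lit 23) .nil))) .nil))) (.nd (nat_lit 5) 
(.lf (nat_lit 151322) (.g (nat_lit 3374) (.e (nat_lit 57379) (nat_lit 3) (.e (nat_lit 98373) (nat_lit 29) (.e (nat_lit 450588) (nat_lit 10) (.e (nat_lit 573471) (nat_lit 11) (.e (nat_lit 16392) (nat_lit 0) (.e (nat_lit 2400) (nat_lit 157) (.e (nat_lit 4411) (nat_lit 259) .nil))))))) (.g (nat_lit 4) .nil .nil))) 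
(.lf (nat_lit 151354) (.g (nat_lit 3077) (.e (nat_lit 57379) (nat_lit 3) (.e (nat_lit 98377) (nat_lit 30) (.e (nat_lit 458789) (nat_lit 23) (.e (nat_lit 532515) (nat_lit 3) (.e (nat_lit 114717) (nat_lit 23) (.e (nat_lit 98334) (nat_lit 18) (.e (nat_lit 164399) (nat_lit 256) .nil))))))) (.g (nat_lit 6) .nil .nil)))))) (.nd (nat_lit 3) (.nd (nat_lit 4) (.nd (nat_lit 5) 
(.lf (nat_lit 151302) (.g (nat_lit 2614) (.e (nat_lit 57379) (nat_lit 3) (.e (nat_lit 98373) (nat_lit 29) (.e (nat_lit 450587) (nat_lit 10) (.e (nat_lit 573475) (nat_lit 12) (.e (nat_lit 65280) (nat_lit 57) .nil))))) .nil)) 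
(.lf (nat_lit 151334) (.g (nat_lit 5524) (.e (nat_lit 57379) (nat_lit 3) (.e (nat_lit 98373) (nat_lit 29) (.e (nat_lit 450588) (nat_lit 10) (.e (nat_lit 573475) (nat_lit 12) (.e (nat_lit 65280) (nat_lit 57) (.e (nat_lit 794661) (nat_lit 21) (.e (nat_lit 171776) (nat_lit 148) .nil))))))) (.g (nat_lit 6) .nil .nil)))) (.nd (nat_lit 5) 
(.lf (nat_lit 151318) (.g (nat_lit 4255) (.e (nat_lit 57379) (nat_lit 3) (.e (nat_lit 98373) (nat_lit 29) (.e (nat_lit 450588) (nat_lit 10) (.e (nat_lit 573470) (nat_lit 11) (.e (nat_lit 16419) (nat_lit 4) .nil))))) .nil)) 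
(.lf (nat_lit 151350) (.g (nat_lit 1010) (.e (nat_lit 57379) (nat_lit 3) (.e (nat_lit 98377) (nat_lit 30) (.e (nat_lit 458789) (nat_lit 23) (.e (nat_lit 532508) (nat_lit 2) .nil)))) .nil)))) (.nd (nat_lit 4) (.nd (nat_lit 5) 
(.lf (nat_lit 151310) (.g (nat_lit 2597) (.e (nat_lit 57379) (nat_lit 3) (.e (nat_lit 98373) (nat_lit 29) (.e (nat_lit 450587) (nat_lit 10) (.e (nat_lit 573478) (nat_lit 12) .nil)))) .nil)) 
(.lf (nat_lit 151342) (.g (nat_lit 4137) (.e (nat_lit 57379) (nat_lit 3) (.e (nat_lit 98376) (nat_lit 30) (.e (nat_lit 458789) (nat_lit 23) (.e (nat_lit 532515) (nat_lit 3) (.e (nat_lit 114719) (nat_lit 23) (.e (nat_lit 98334) (nat_lit 18) (.e (nat_lit 164398) (nat_lit 256) .nil))))))) (.g (nat_lit 0) .nil .nil)))) (.nd (nat_lit 5) 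
(.lf (nat_lit 151326) (.g (nat_lit 3814) (.e (nat_lit 57379) (nat_lit 3) (.e (nat_lit 98373) (nat_lit 29) (.e (nat_lit 450588) (nat_lit 10) (.e (nat_lit 573471) (nat_lit 11) (.e (nat_lit 16419) (nat_lit 4) .nil))))) .nil)) 
(.lf (nat_lit 151358) (.g (nat_lit 2077) (.e (nat_lit 57379) (nat_lit 3) (.e (nat_lit 98377) (nat_lit 30) (.e (nat_lit 458789) (nat_lit 23) (.e (nat_lit 532515) (nat_lit 3) (.e (nat_lit 114719) (nat_lit 23) (.e (nat_lit 98333) (nat_lit 18) (.e (nat_lit 164397) (nat_lit 256) .nil))))))) (.g (nat_lit 4) .nil .nil)))))))) 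
(.nd (nat_lit 1) (.nd (nat_lit 2) (.nd (nat_lit 3) (.nd (nat_lit 4) (.nd (nat_lit 5) 
(.lf (nat_lit 151297) (.g (nat_lit 2619) (.e (nat_lit 57379) (nat_lit 3) (.e (nat_lit 98373) (nat_lit 29) (.e (nat_lit 450587) (nat_lit 10) (.e (nat_lit 573475) (nat_lit 12) (.e (nat_lit 57345) (nat_lit 0) .nil))))) .nil)) 
(.lf (nat_lit 151329) (.g (nat_lit 5494) (.e (nat_lit 57379) (nat_lit 3) (.e (nat_lit 98373) (nat_lit 29) (.e (nat_lit 450588) (nat_lit 10) (.e (nat_lit 573474) (nat_lit 12) .nil)))) .nil))) (.nd (nat_lit 5) 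
(.lf (nat_lit 151313) (.g (nat_lit 3728) (.e (nat_lit 57379) (nat_lit 3) (.e (nat_lit 98373) (nat_lit 29) (.e (nat_lit 450588) (nat_lit 10) (.e (nat_lit 573449) (nat_lit 9) .nil)))) .nil)) 
(.lf (nat_lit 151345) (.g (nat_lit 2489) (.e (nat_lit 57379) (nat_lit 3) (.e (nat_lit 98376) (nat_lit 30) (.e (nat_lit 458789) (nat_lit 23) (.e (nat_lit 532579) (nat_lit 26) (.e (nat_lit 426124) (nat_lit 2) (.e (nat_lit 196677) (nat_lit 16) (.e (nat_lit 122880) (nat_lit 0) (.e (nat_lit 7695) (nat_lit 412) .nil)))))))) (.g (nat_lit 4) .nil .nil))))) (.nd (nat_lit 4) (.nd (nat_lit 5) 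
(.lf (nat_lit 151305) (.g (nat_lit 4025) (.e (nat_lit 57379) (nat_lit 3) (.e (nat_lit 98373) (nat_lit 29) (.e (nat_lit 450587) (nat_lit 10) (.e (nat_lit 573475) (nat_lit 12) (.e (nat_lit 57578) (nat_lit 60) (.e (nat_lit 819228) (nat_lit 9) (.e (nat_lit 1288) (nat_lit 95) (.e (nat_lit 130816) (nat_lit 172) .nil)))))))) (.g (nat_lit 7) .nil .nil))) 
(.lf (nat_lit 151337) (.g (nat_lit 892) (.e (nat_lit 57379) (nat_lit 3) (.e (nat_lit 98373) (nat_lit 29) (.e (nat_lit 450604) (nat_lit 22) .nil))) .nil))) (.nd (nat_lit 5) 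
(.lf (nat_lit 151321) (.g (nat_lit 3905) (.e (nat_lit 57379) (nat_lit 3) (.e (nat_lit 98373) (nat_lit 29) (.e (nat_lit 450588) (nat_lit 10) (.e (nat_lit 573471) (nat_lit 11) (.e (nat_lit 16392) (nat_lit 0) (.e (nat_lit 2397) (nat_lit 157) (.e (nat_lit 4413) (nat_lit 259) .nil))))))) (.g (nat_lit 4) .nil .nil))) 
(.lf (nat_lit 151353) (.g (nat_lit 2359) (.e (nat_lit 57379) (nat_lit 3) (.e (nat_lit 98377) (nat_lit 30) (.e (nat_lit 458789) (nat_lit 23) (.e (nat_lit 532515) (nat_lit 3) (.e (nat_lit 114716) (nat_lit 22) (.e (nat_lit 90181) (nat_lit 16) (.e (nat_lit 237312) (nat_lit 0) (.e (nat_lit 5937) (nat_lit 322) .nil)))))))) (.g (nat_lit 5) .nil .nil)))))) 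
(.nd (nat_lit 3) (.nd (nat_lit 4) (.nd (nat_lit 5) 
(.lf (nat_lit 151301) (.g (nat_lit 2686) (.e (nat_lit 57379) (nat_lit 3) (.e (nat_lit 98373) (nat_lit 29) (.e (nat_lit 450587) (nat_lit 10) (.e (nat_lit 573475) (nat_lit 12) (.e (nat_lit 57574) (nat_lit 55) .nil))))) .nil)) 
(.lf (nat_lit 151333) (.g (nat_lit 5391) (.e (nat_lit 57379) (nat_lit 3) (.e (nat_lit 98373) (nat_lit 29) (.e (nat_lit 450588) (nat_lit 10) (.e (nat_lit 573475) (nat_lit 12) (.e (nat_lit 57574) (nat_lit 55) (.e (nat_lit 778455) (nat_lit 10) (.e (nat_lit 8285) (nat_lit 51) (.e (nat_lit 4413) (nat_lit 259) .nil)))))))) (.g (nat_lit 4) .nil .nil)))) (.nd (nat_lit 5) 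
(.lf (nat_lit 151317) (.g (nat_lit 3080) (.e (nat_lit 57379) (nat_lit 3) (.e (nat_lit 98373) (nat_lit 29) (.e (nat_lit 450588) (nat_lit 10) (.e (nat_lit 573470) (nat_lit 11) .nil)))) .nil)) 
(.lf (nat_lit 151349) (.g (nat_lit 2314) (.e (nat_lit 57379) (nat_lit 3) (.e (nat_lit 98377) (nat_lit 30) (.e (nat_lit 458789) (nat_lit 23) (.e (nat_lit 532481) (nat_lit 0) (.e (nat_lit 2198) (nat_lit 144) .nil))))) .nil)))) (.nd (nat_lit 4) (.nd (nat_lit 5) 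
(.lf (nat_lit 151309) (.g (nat_lit 3868) (.e (nat_lit 57379) (nat_lit 3) (.e (nat_lit 98373) (nat_lit 29) (.e (nat_lit 450587) (nat_lit 10) (.e (nat_lit 573477) (nat_lit 12) (.e (nat_lit 65280) (nat_lit 57) (.e (nat_lit 794661) (nat_lit 21) (.e (nat_lit 171776) (nat_lit 148) .nil))))))) (.g (nat_lit 4) .nil .nil))) 
(.lf (nat_lit 151341) (.g (nat_lit 3841) (.e (nat_lit 57379) (nat_lit 3) (.e (nat_lit 98376) (nat_lit 30) (.e (nat_lit 458789) (nat_lit 23) (.e (nat_lit 532515) (nat_lit 3) (.e (nat_lit 114719) (nat_lit 23) (.e (nat_lit 98333) (nat_lit 18) (.e (nat_lit 164399) (nat_lit 256) .nil))))))) (.g (nat_lit 0) .nil .nil)))) (.nd (nat_lit 5) 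
(.lf (nat_lit 151325) (.g (nat_lit 4152) (.e (nat_lit 57379) (nat_lit 3) (.e (nat_lit 98373) (nat_lit 29) (.e (nat_lit 450588) (nat_lit 10) (.e (nat_lit 573471) (nat_lit 11) (.e (nat_lit 16406) (nat_lit 1) (.e (nat_lit 171776) (nat_lit 262) .nil)))))) (.g (nat_lit 5) .nil .nil))) 
(.lf (nat_lit 151357) (.g (nat_lit 4068) (.e (nat_lit 57379) (nat_lit 3) (.e (nat_lit 98377) (nat_lit 30) (.e (nat_lit 458789) (nat_lit 23) (.e (nat_lit 532515) (nat_lit 3) (.e (nat_lit 114718) (nat_lit 23) (.e (nat_lit 98334) (nat_lit 18) (.e (nat_lit 164398) (nat_lit 256) .nil))))))) (.g (nat_lit 7) .nil .nil))))))) (.nd (nat_lit 2) (.nd (nat_lit 3) (.nd (nat_lit 4) (.nd (nat_lit 5) 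
(.lf (nat_lit 151299) (.g (nat_lit 3654) (.e (nat_lit 57379) (nat_lit 3) (.e (nat_lit 98373) (nat_lit 29) (.e (nat_lit 450587) (nat_lit 10) (.e (nat_lit 573475) (nat_lit 12) (.e (nat_lit 57345) (nat_lit 0) (.e (nat_lit 7697) (nat_lit 412) (.e (nat_lit 57391) (nat_lit 6) (.e (nat_lit 130816) (nat_lit 172) .nil)))))))) (.g (nat_lit 7) .nil .nil))) 
(.lf (nat_lit 151331) (.g (nat_lit 5065) (.e (nat_lit 57379) (nat_lit 3) (.e (nat_lit 98373) (nat_lit 29) (.e (nat_lit 450588) (nat_lit 10) (.e (nat_lit 573475) (nat_lit 12) (.e (nat_lit 57347) (nat_lit 0) (.e (nat_lit 7261) (nat_lit 384) (.e (nat_lit 57364) (nat_lit 1) (.e (nat_lit 65280) (nat_lit 217) .nil)))))))) (.g (nat_lit 4) .nil .nil)))) (.nd (nat_lit 5) 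
(.lf (nat_lit 151315) (.g (nat_lit 3544) (.e (nat_lit 57379) (nat_lit 3) (.e (nat_lit 98373) (nat_lit 29) (.e (nat_lit 450588) (nat_lit 10) (.e (nat_lit 573452) (nat_lit 9) .nil)))) .nil)) 
(.lf (nat_lit 151347) (.g (nat_lit 3541) (.e (nat_lit 57379) (nat_lit 3) (.e (nat_lit 98376) (nat_lit 30) (.e (nat_lit 458789) (nat_lit 23) (.e (nat_lit 532579) (nat_lit 26) (.e (nat_lit 426139) (nat_lit 3) (.e (nat_lit 204815) (nat_lit 17) (.e (nat_lit 974) (nat_lit 81) (.e (nat_lit 7695) (nat_lit 412) .nil)))))))) (.g (nat_lit 5) .nil .nil))))) (.nd (nat_lit 4) (.nd (nat_lit 5) 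
(.lf (nat_lit 151307) (.g (nat_lit 3375) (.e (nat_lit 57379) (nat_lit 3) (.e (nat_lit 98373) (nat_lit 29) (.e (nat_lit 450587) (nat_lit 10) (.e (nat_lit 573477) (nat_lit 12) (.e (nat_lit 57574) (nat_lit 55) .nil))))) .nil)) 
(.lf (nat_lit 151339) (.g (nat_lit 2806) (.e (nat_lit 57379) (nat_lit 3) (.e (nat_lit 98376) (nat_lit 30) (.e (nat_lit 458789) (nat_lit 23) (.e (nat_lit 532515) (nat_lit 3) (.e (nat_lit 114716) (nat_lit 22) (.e (nat_lit 90164) (nat_lit 12) (.e (nat_lit 163850) (nat_lit 0) (.e (nat_lit 5939) (nat_lit 322) .nil)))))))) (.g (nat_lit 5) .nil .nil)))) (.nd (nat_lit 5) 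
(.lf (nat_lit 151323) (.g (nat_lit 3410) (.e (nat_lit 57379) (nat_lit 3) (.e (nat_lit 98373) (nat_lit 29) (.e (nat_lit 450588) (nat_lit 10) (.e (nat_lit 573471) (nat_lit 11) (.e (nat_lit 16392) (nat_lit 0) (.e (nat_lit 2400) (nat_lit 157) (.e (nat_lit 4413) (nat_lit 259) .nil))))))) (.g (nat_lit 4) .nil .nil))) 
(.lf (nat_lit 151355) (.g (nat_lit 3687) (.e (nat_lit 57379) (nat_lit 3) (.e (nat_lit 98377) (nat_lit 30) (.e (nat_lit 458789) (nat_lit 23) (.e (nat_lit 532515) (nat_lit 3) (.e (nat_lit 114718) (nat_lit 23) (.e (nat_lit 98333) (nat_lit 18) (.e (nat_lit 164399) (nat_lit 256) .nil))))))) (.g (nat_lit 7) .nil .nil)))))) (.nd (nat_lit 3) (.nd (nat_lit 4) (.nd (nat_lit 5) 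
(.lf (nat_lit 151303) (.g (nat_lit 3389) (.e (nat_lit 57379) (nat_lit 3) (.e (nat_lit 98373) (nat_lit 29) (.e (nat_lit 450587) (nat_lit 10) (.e (nat_lit 573475) (nat_lit 12) (.e (nat_lit 57577) (nat_lit 60) .nil))))) .nil)) 
(.lf (nat_lit 151335) (.g (nat_lit 658) (.e (nat_lit 57379) (nat_lit 3) (.e (nat_lit 98373) (nat_lit 29) (.e (nat_lit 450602) (nat_lit 22) .nil))) .nil))) (.nd (nat_lit 5) 
(.lf (nat_lit 151319) (.g (nat_lit 2185) (.e (nat_lit 57379) (nat_lit 3) (.e (nat_lit 98373) (nat_lit 29) (.e (nat_lit 450588) (nat_lit 10) (.e (nat_lit 573471) (nat_lit 11) .nil)))) .nil)) 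
(.lf (nat_lit 151351) (.g (nat_lit 2407) (.e (nat_lit 57379) (nat_lit 3) (.e (nat_lit 98377) (nat_lit 30) (.e (nat_lit 458789) (nat_lit 23) (.e (nat_lit 532515) (nat_lit 3) (.e (nat_lit 114716) (nat_lit 22) (.e (nat_lit 90163) (nat_lit 12) (.e (nat_lit 163850) (nat_lit 0) (.e (nat_lit 5939) (nat_lit 322) .nil)))))))) (.g (nat_lit 4) .nil .nil))))) (.nd (nat_lit 4) (.nd (nat_lit 5) 
(.lf (nat_lit 151311) (.g (nat_lit 3034) (.e (nat_lit 57379) (nat_lit 3) (.e (nat_lit 98373) (nat_lit 29) (.e (nat_lit 450587) (nat_lit 10) (.e (nat_lit 573478) (nat_lit 12) (.e (nat_lit 57574) (nat_lit 55) .nil))))) .nil)) 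
(.lf (nat_lit 151343) (.g (nat_lit 2437) (.e (nat_lit 57379) (nat_lit 3) (.e (nat_lit 98376) (nat_lit 30) (.e (nat_lit 458789) (nat_lit 23) (.e (nat_lit 532579) (nat_lit 26) (.e (nat_lit 426123) (nat_lit 2) (.e (nat_lit 196661) (nat_lit 12) (.e (nat_lit 57353) (nat_lit 0) (.e (nat_lit 7695) (nat_lit 412) .nil)))))))) (.g (nat_lit 4) .nil .nil)))) (.nd (nat_lit 5) 
(.lf (nat_lit 151327) (.g (nat_lit 3842) (.e (nat_lit 57379) (nat_lit 3) (.e (nat_lit 98373) (nat_lit 29) (.e (nat_lit 450588) (nat_lit 10) (.e (nat_lit 573473) (nat_lit 12) .nil)))) .nil)) 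
(.lf (nat_lit 151359) (.g (nat_lit 2404) (.e (nat_lit 57379) (nat_lit 3) (.e (nat_lit 98377) (nat_lit 30) (.e (nat_lit 458789) (nat_lit 23) (.e (nat_lit 532515) (nat_lit 3) (.e (nat_lit 114719) (nat_lit 23) (.e (nat_lit 98334) (nat_lit 18) (.e (nat_lit 164397) (nat_lit 256) .nil))))))) (.g (nat_lit 4) .nil .nil)))))))))

noncomputable def tv2019 : DT := (.nd (nat_lit 0) (.nd (nat_lit 1) (.nd (nat_lit 2) (.nd (nat_lit 3) (.nd (nat_lit 4) (.nd (nat_lit 5) 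
(.lf (nat_lit 151360) (.g (nat_lit 3966) (.e (nat_lit 57379) (nat_lit 3) (.e (nat_lit 98377) (nat_lit 30) (.e (nat_lit 458789) (nat_lit 23) (.e (nat_lit 532515) (nat_lit 3) (.e (nat_lit 114719) (nat_lit 23) (.e (nat_lit 98334) (nat_lit 18) (.e (nat_lit 164399) (nat_lit 256) .nil))))))) (.g (nat_lit 7) .nil .nil))) 
(.lf (nat_lit 151392) (.g (nat_lit 3866) (.e (nat_lit 57379) (nat_lit 3) (.e (nat_lit 98384) (nat_lit 32) (.e (nat_lit 475177) (nat_lit 24) (.e (nat_lit 516169) (nat_lit 13) (.e (nat_lit 458789) (nat_lit 23) (.e (nat_lit 532499) (nat_lit 1) (.e (nat_lit 65280) (nat_lit 211) .nil))))))) (.g (nat_lit 5) .nil .nil)))) (.nd (nat_lit 5) 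
(.lf (nat_lit 151376) (.g (nat_lit 2641) (.e (nat_lit 57379) (nat_lit 3) (.e (nat_lit 98381) (nat_lit 31) (.e (nat_lit 466954) (nat_lit 11) (.e (nat_lit 336387) (nat_lit 27) (.e (nat_lit 426100) (nat_lit 1) (.e (nat_lit 164399) (nat_lit 256) .nil)))))) (.g (nat_lit 0) .nil .nil))) 
(.lf (nat_lit 151408) (.g (nat_lit 2916) (.e (nat_lit 57379) (nat_lit 3) (.e (nat_lit 98387) (nat_lit 33) (.e (nat_lit 491569) (nat_lit 13) (.e (nat_lit 393229) (nat_lit 9) (.e (nat_lit 335892) (nat_lit 0) (.e (nat_lit 996) (nat_lit 81) (.e (nat_lit 5567) (nat_lit 308) .nil))))))) (.g (nat_lit 4) .nil .nil))))) (.nd (nat_lit 4) (.nd (nat_lit 5) 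
(.lf (nat_lit 151368) (.g (nat_lit 2630) (.e (nat_lit 57379) (nat_lit 3) (.e (nat_lit 98381) (nat_lit 31) (.e (nat_lit 466954) (nat_lit 11) (.e (nat_lit 336385) (nat_lit 27) (.e (nat_lit 426098) (nat_lit 1) (.e (nat_lit 164399) (nat_lit 256) .nil)))))) (.g (nat_lit 5) .nil .nil))) 
(.lf (nat_lit 151400) (.g (nat_lit 2721) (.e (nat_lit 57379) (nat_lit 3) (.e (nat_lit 98384) (nat_lit 32) (.e (nat_lit 475179) (nat_lit 24) (.e (nat_lit 516171) (nat_lit 13) (.e (nat_lit 458789) (nat_lit 23) .nil))))) .nil))) (.nd (nat_lit 5) 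
(.lf (nat_lit 151384) (.g (nat_lit 3385) (.e (nat_lit 57379) (nat_lit 3) (.e (nat_lit 98381) (nat_lit 31) (.e (nat_lit 466977) (nat_lit 22) (.e (nat_lit 196670) (nat_lit 14) (.e (nat_lit 73732) (nat_lit 0) (.e (nat_lit 7936) (nat_lit 283) .nil)))))) (.g (nat_lit 4) .nil .nil))) 
(.lf (nat_lit 151416) (.g (nat_lit 1970) (.e (nat_lit 57380) (nat_lit 4) (.e (nat_lit 106536) (nat_lit 11) (.e (nat_lit 16466) (nat_lit 13) (.e (nat_lit 483393) (nat_lit 23) .nil)))) .nil))))) (.nd (nat_lit 3) (.nd (nat_lit 4) (.nd (nat_lit 5) 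
(.lf (nat_lit 151364) (.g (nat_lit 1325) (.e (nat_lit 57379) (nat_lit 3) (.e (nat_lit 98380) (nat_lit 31) (.e (nat_lit 466954) (nat_lit 11) (.e (nat_lit 336387) (nat_lit 27) (.e (nat_lit 426099) (nat_lit 1) (.e (nat_lit 164399) (nat_lit 256) .nil)))))) (.g (nat_lit 4) .nil .nil))) 
(.lf (nat_lit 151396) (.g (nat_lit 3417) (.e (nat_lit 57379) (nat_lit 3) (.e (nat_lit 98384) (nat_lit 32) (.e (nat_lit 475177) (nat_lit 24) (.e (nat_lit 516171) (nat_lit 13) (.e (nat_lit 458789) (nat_lit 23) (.e (nat_lit 532501) (nat_lit 1) (.e (nat_lit 65280) (nat_lit 211) .nil))))))) (.g (nat_lit 6) .nil .nil)))) (.nd (nat_lit 5) 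
(.lf (nat_lit 151380) (.g (nat_lit 2590) (.e (nat_lit 57379) (nat_lit 3) (.e (nat_lit 98381) (nat_lit 31) (.e (nat_lit 466977) (nat_lit 22) (.e (nat_lit 196668) (nat_lit 14) (.e (nat_lit 73733) (nat_lit 0) (.e (nat_lit 7936) (nat_lit 283) .nil)))))) (.g (nat_lit 4) .nil .nil))) 
(.lf (nat_lit 151412) (.g (nat_lit 1921) (.e (nat_lit 57379) (nat_lit 3) (.e (nat_lit 98389) (nat_lit 33) (.e (nat_lit 491569) (nat_lit 13) (.e (nat_lit 393229) (nat_lit 9) .nil)))) .nil)))) (.nd (nat_lit 4) (.nd (nat_lit 5) 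
(.lf (nat_lit 151372) (.g (nat_lit 3204) (.e (nat_lit 57379) (nat_lit 3) (.e (nat_lit 98381) (nat_lit 31) (.e (nat_lit 466954) (nat_lit 11) (.e (nat_lit 336387) (nat_lit 27) (.e (nat_lit 426098) (nat_lit 1) (.e (nat_lit 164398) (nat_lit 256) .nil)))))) (.g (nat_lit 0) .nil .nil))) 
(.lf (nat_lit 151404) (.g (nat_lit 3868) (.e (nat_lit 57379) (nat_lit 3) (.e (nat_lit 98384) (nat_lit 32) (.e (nat_lit 475210) (nat_lit 41) (.e (nat_lit 712745) (nat_lit 27) (.e (nat_lit 426532) (nat_lit 28) (.e (nat_lit 344094) (nat_lit 18) (.e (nat_lit 5570) (nat_lit 308) .nil))))))) (.g (nat_lit 4) .nil .nil)))) (.nd (nat_lit 5) 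
(.lf (nat_lit 151388) (.g (nat_lit 2718) (.e (nat_lit 57379) (nat_lit 3) (.e (nat_lit 98384) (nat_lit 32) (.e (nat_lit 475177) (nat_lit 24) (.e (nat_lit 516149) (nat_lit 9) (.e (nat_lit 426131) (nat_lit 3) (.e (nat_lit 204830) (nat_lit 18) (.e (nat_lit 65280) (nat_lit 211) .nil))))))) (.g (nat_lit 5) .nil .nil))) 
(.lf (nat_lit 151420) (.g (nat_lit 1182) (.e (nat_lit 57381) (nat_lit 4) (.e (nat_lit 106534) (nat_lit 11) (.e (nat_lit 16468) (nat_lit 13) (.e (nat_lit 483383) (nat_lit 23) .nil)))) .nil)))))) (.nd (nat_lit 2) (.nd (nat_lit 3) (.nd (nat_lit 4) (.nd (nat_lit 5) 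
(.lf (nat_lit 151362) (.g (nat_lit 1335) (.e (nat_lit 57379) (nat_lit 3) (.e (nat_lit 98380) (nat_lit 31) (.e (nat_lit 466954) (nat_lit 11) (.e (nat_lit 336385) (nat_lit 27) (.e (nat_lit 426099) (nat_lit 1) (.e (nat_lit 164399) (nat_lit 256) .nil)))))) (.g (nat_lit 4) .nil .nil))) 
(.lf (nat_lit 151394) (.g (nat_lit 2760) (.e (nat_lit 57379) (nat_lit 3) (.e (nat_lit 98384) (nat_lit 32) (.e (nat_lit 475177) (nat_lit 24) (.e (nat_lit 516169) (nat_lit 13) (.e (nat_lit 458789) (nat_lit 23) (.e (nat_lit 532503) (nat_lit 1) (.e (nat_lit 65280) (nat_lit 211) .nil))))))) (.g (nat_lit 4) .nil .nil)))) (.nd (nat_lit 5) 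
(.lf (nat_lit 151378) (.g (nat_lit 1309) (.e (nat_lit 57379) (nat_lit 3) (.e (nat_lit 98381) (nat_lit 31) (.e (nat_lit 466977) (nat_lit 22) (.e (nat_lit 196668) (nat_lit 14) .nil)))) .nil)) 
(.lf (nat_lit 151410) (.g (nat_lit 1827) (.e (nat_lit 57379) (nat_lit 3) (.e (nat_lit 98389) (nat_lit 33) (.e (nat_lit 491568) (nat_lit 13) (.e (nat_lit 393224) (nat_lit 9) .nil)))) .nil)))) (.nd (nat_lit 4) (.nd (nat_lit 5) 
(.lf (nat_lit 151370) (.g (nat_lit 1497) (.e (nat_lit 57379) (nat_lit 3) (.e (nat_lit 98381) (nat_lit 31) (.e (nat_lit 466954) (nat_lit 11) (.e (nat_lit 336385) (nat_lit 27) (.e (nat_lit 426099) (nat_lit 1) (.e (nat_lit 164399) (nat_lit 256) .nil)))))) (.g (nat_lit 4) .nil .nil))) 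
(.lf (nat_lit 151402) (.g (nat_lit 794) (.e (nat_lit 57379) (nat_lit 3) (.e (nat_lit 98384) (nat_lit 32) (.e (nat_lit 475210) (nat_lit 41) .nil))) .nil))) (.nd (nat_lit 5) 
(.lf (nat_lit 151386) (.g (nat_lit 1281) (.e (nat_lit 57379) (nat_lit 3) (.e (nat_lit 98384) (nat_lit 32) (.e (nat_lit 475177) (nat_lit 24) (.e (nat_lit 516148) (nat_lit 9) .nil)))) .nil)) 
(.lf (nat_lit 151418) (.g (nat_lit 595) (.e (nat_lit 57381) (nat_lit 4) (.e (nat_lit 106534) (nat_lit 11) (.e (nat_lit 16436) (nat_lit 9) .nil))) .nil))))) (.nd (nat_lit 3) (.nd (nat_lit 4) (.nd (nat_lit 5) 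
(.lf (nat_lit 151366) (.g (nat_lit 2573) (.e (nat_lit 57379) (nat_lit 3) (.e (nat_lit 98380) (nat_lit 31) (.e (nat_lit 466954) (nat_lit 11) (.e (nat_lit 336387) (nat_lit 27) (.e (nat_lit 426100) (nat_lit 1) (.e (nat_lit 164399) (nat_lit 256) .nil)))))) (.g (nat_lit 0) .nil .nil))) 
(.lf (nat_lit 151398) (.g (nat_lit 830) (.e (nat_lit 57379) (nat_lit 3) (.e (nat_lit 98384) (nat_lit 32) (.e (nat_lit 475179) (nat_lit 24) .nil))) .nil))) (.nd (nat_lit 5) 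
(.lf (nat_lit 151382) (.g (nat_lit 1555) (.e (nat_lit 57379) (nat_lit 3) (.e (nat_lit 98381) (nat_lit 31) (.e (nat_lit 466977) (nat_lit 22) (.e (nat_lit 196670) (nat_lit 14) .nil)))) .nil)) 
(.lf (nat_lit 151414) (.g (nat_lit 2423) (.e (nat_lit 57380) (nat_lit 4) (.e (nat_lit 106536) (nat_lit 11) (.e (nat_lit 16436) (nat_lit 9) (.e (nat_lit 426555) (nat_lit 32) (.e (nat_lit 376857) (nat_lit 21) .nil))))) .nil)))) (.nd (nat_lit 4) (.nd (nat_lit 5) 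
(.lf (nat_lit 151374) (.g (nat_lit 1424) (.e (nat_lit 57379) (nat_lit 3) (.e (nat_lit 98381) (nat_lit 31) (.e (nat_lit 466954) (nat_lit 11) (.e (nat_lit 336387) (nat_lit 27) (.e (nat_lit 426099) (nat_lit 1) (.e (nat_lit 164399) (nat_lit 256) .nil)))))) (.g (nat_lit 4) .nil .nil))) 
(.lf (nat_lit 151406) (.g (nat_lit 3131) (.e (nat_lit 57379) (nat_lit 3) (.e (nat_lit 98384) (nat_lit 32) (.e (nat_lit 475211) (nat_lit 41) (.e (nat_lit 712745) (nat_lit 27) (.e (nat_lit 426532) (nat_lit 28) (.e (nat_lit 344094) (nat_lit 18) (.e (nat_lit 5570) (nat_lit 308) .nil))))))) (.g (nat_lit 4) .nil .nil)))) (.nd (nat_lit 5) 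
(.lf (nat_lit 151390) (.g (nat_lit 4301) (.e (nat_lit 57379) (nat_lit 3) (.e (nat_lit 98384) (nat_lit 32) (.e (nat_lit 475177) (nat_lit 24) (.e (nat_lit 516150) (nat_lit 9) (.e (nat_lit 426131) (nat_lit 3) (.e (nat_lit 204829) (nat_lit 18) (.e (nat_lit 65280) (nat_lit 211) .nil))))))) (.g (nat_lit 6) .nil .nil))) 
(.lf (nat_lit 151422) (.g (nat_lit 2187) (.e (nat_lit 57381) (nat_lit 4) (.e (nat_lit 106536) (nat_lit 11) (.e (nat_lit 16412) (nat_lit 2) (.e (nat_lit 196672) (nat_lit 15) .nil)))) .nil))))))) (.nd (nat_lit 1) (.nd (nat_lit 2) (.nd (nat_lit 3) (.nd (nat_lit 4) (.nd (nat_lit 5) 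
(.lf (nat_lit 151361) (.g (nat_lit 2498) (.e (nat_lit 57379) (nat_lit 3) (.e (nat_lit 98380) (nat_lit 31) (.e (nat_lit 466954) (nat_lit 11) (.e (nat_lit 336385) (nat_lit 27) (.e (nat_lit 426098) (nat_lit 1) (.e (nat_lit 164399) (nat_lit 256) .nil)))))) (.g (nat_lit 5) .nil .nil))) 
(.lf (nat_lit 151393) (.g (nat_lit 3656) (.e (nat_lit 57379) (nat_lit 3) (.e (nat_lit 98384) (nat_lit 32) (.e (nat_lit 475177) (nat_lit 24) (.e (nat_lit 516169) (nat_lit 13) (.e (nat_lit 458789) (nat_lit 23) (.e (nat_lit 532501) (nat_lit 1) (.e (nat_lit 65280) (nat_lit 211) .nil))))))) (.g (nat_lit 6) .nil .nil)))) (.nd (nat_lit 5) 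
(.lf (nat_lit 151377) (.g (nat_lit 301) (.e (nat_lit 57379) (nat_lit 3) (.e (nat_lit 98381) (nat_lit 31) (.e (nat_lit 474880) (nat_lit 18) .nil))) .nil)) 
(.lf (nat_lit 151409) (.g (nat_lit 1413) (.e (nat_lit 57379) (nat_lit 3) (.e (nat_lit 98388) (nat_lit 33) (.e (nat_lit 491571) (nat_lit 13) (.e (nat_lit 401152) (nat_lit 10) .nil)))) .nil)))) (.nd (nat_lit 4) (.nd (nat_lit 5) 
(.lf (nat_lit 151369) (.g (nat_lit 1526) (.e (nat_lit 57379) (nat_lit 3) (.e (nat_lit 98381) (nat_lit 31) (.e (nat_lit 466954) (nat_lit 11) (.e (nat_lit 336385) (nat_lit 27) (.e (nat_lit 426099) (nat_lit 1) (.e (nat_lit 164398) (nat_lit 256) .nil)))))) (.g (nat_lit 4) .nil .nil))) 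
(.lf (nat_lit 151401) (.g (nat_lit 1453) (.e (nat_lit 57379) (nat_lit 3) (.e (nat_lit 98384) (nat_lit 32) (.e (nat_lit 475199) (nat_lit 40) .nil))) .nil))) (.nd (nat_lit 5) 
(.lf (nat_lit 151385) (.g (nat_lit 635) (.e (nat_lit 57379) (nat_lit 3) (.e (nat_lit 98384) (nat_lit 32) (.e (nat_lit 475177) (nat_lit 24) .nil))) .nil)) 
(.lf (nat_lit 151417) (.g (nat_lit 2478) (.e (nat_lit 57380) (nat_lit 4) (.e (nat_lit 106536) (nat_lit 11) (.e (nat_lit 16466) (nat_lit 13) (.e (nat_lit 483393) (nat_lit 23) (.e (nat_lit 335987) (nat_lit 1) .nil))))) .nil))))) (.nd (nat_lit 3) (.nd (nat_lit 4) (.nd (nat_lit 5) 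
(.lf (nat_lit 151365) (.g (nat_lit 3084) (.e (nat_lit 57379) (nat_lit 3) (.e (nat_lit 98380) (nat_lit 31) (.e (nat_lit 466954) (nat_lit 11) (.e (nat_lit 336387) (nat_lit 27) (.e (nat_lit 426100) (nat_lit 1) (.e (nat_lit 164398) (nat_lit 256) .nil)))))) (.g (nat_lit 0) .nil .nil))) 
(.lf (nat_lit 151397) (.g (nat_lit 2570) (.e (nat_lit 57379) (nat_lit 3) (.e (nat_lit 98384) (nat_lit 32) (.e (nat_lit 475177) (nat_lit 24) (.e (nat_lit 516171) (nat_lit 13) (.e (nat_lit 458789) (nat_lit 23) (.e (nat_lit 532503) (nat_lit 1) (.e (nat_lit 65280) (nat_lit 211) .nil))))))) (.g (nat_lit 4) .nil .nil)))) (.nd (nat_lit 5) 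
(.lf (nat_lit 151381) (.g (nat_lit 2099) (.e (nat_lit 57379) (nat_lit 3) (.e (nat_lit 98381) (nat_lit 31) (.e (nat_lit 466977) (nat_lit 22) (.e (nat_lit 196668) (nat_lit 14) (.e (nat_lit 73737) (nat_lit 0) .nil))))) .nil)) 
(.lf (nat_lit 151413) (.g (nat_lit 1900) (.e (nat_lit 57380) (nat_lit 4) (.e (nat_lit 106536) (nat_lit 11) (.e (nat_lit 16433) (nat_lit 9) (.e (nat_lit 426555) (nat_lit 32) .nil)))) .nil)))) (.nd (nat_lit 4) (.nd (nat_lit 5) 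
(.lf (nat_lit 151373) (.g (nat_lit 2702) (.e (nat_lit 57379) (nat_lit 3) (.e (nat_lit 98381) (nat_lit 31) (.e (nat_lit 466954) (nat_lit 11) (.e (nat_lit 336387) (nat_lit 27) (.e (nat_lit 426098) (nat_lit 1) (.e (nat_lit 164399) (nat_lit 256) .nil)))))) (.g (nat_lit 0) .nil .nil))) 
(.lf (nat_lit 151405) (.g (nat_lit 2638) (.e (nat_lit 57379) (nat_lit 3) (.e (nat_lit 98384) (nat_lit 32) (.e (nat_lit 475211) (nat_lit 41) (.e (nat_lit 712745) (nat_lit 27) (.e (nat_lit 426532) (nat_lit 28) .nil))))) .nil))) (.nd (nat_lit 5) 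
(.lf (nat_lit 151389) (.g (nat_lit 1173) (.e (nat_lit 57379) (nat_lit 3) (.e (nat_lit 98384) (nat_lit 32) (.e (nat_lit 475177) (nat_lit 24) (.e (nat_lit 516150) (nat_lit 9) .nil)))) .nil)) 
(.lf (nat_lit 151421) (.g (nat_lit 1191) (.e (nat_lit 57381) (nat_lit 4) (.e (nat_lit 106536) (nat_lit 11) (.e (nat_lit 16412) (nat_lit 2) .nil))) .nil)))))) (.nd (nat_lit 2) (.nd (nat_lit 3) (.nd (nat_lit 4) (.nd (nat_lit 5) 
(.lf (nat_lit 151363) (.g (nat_lit 2635) (.e (nat_lit 57379) (nat_lit 3) (.e (nat_lit 98380) (nat_lit 31) (.e (nat_lit 466954) (nat_lit 11) (.e (nat_lit 336387) (nat_lit 27) (.e (nat_lit 426098) (nat_lit 1) (.e (nat_lit 164399) (nat_lit 256) .nil)))))) (.g (nat_lit 0) .nil .nil))) 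
(.lf (nat_lit 151395) (.g (nat_lit 3594) (.e (nat_lit 57379) (nat_lit 3) (.e (nat_lit 98384) (nat_lit 32) (.e (nat_lit 475177) (nat_lit 24) (.e (nat_lit 516171) (nat_lit 13) (.e (nat_lit 458789) (nat_lit 23) (.e (nat_lit 532499) (nat_lit 1) (.e (nat_lit 65280) (nat_lit 211) .nil))))))) (.g (nat_lit 5) .nil .nil)))) (.nd (nat_lit 5) 
(.lf (nat_lit 151379) (.g (nat_lit 2947) (.e (nat_lit 57379) (nat_lit 3) (.e (nat_lit 98381) (nat_lit 31) (.e (nat_lit 466977) (nat_lit 22) (.e (nat_lit 196668) (nat_lit 14) (.e (nat_lit 73729) (nat_lit 0) (.e (nat_lit 7936) (nat_lit 283) .nil)))))) (.g (nat_lit 4) .nil .nil))) 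
(.lf (nat_lit 151411) (.g (nat_lit 2698) (.e (nat_lit 57379) (nat_lit 3) (.e (nat_lit 98389) (nat_lit 33) (.e (nat_lit 491568) (nat_lit 13) (.e (nat_lit 393229) (nat_lit 9) (.e (nat_lit 335892) (nat_lit 0) .nil))))) .nil)))) (.nd (nat_lit 4) (.nd (nat_lit 5) 
(.lf (nat_lit 151371) (.g (nat_lit 2928) (.e (nat_lit 57379) (nat_lit 3) (.e (nat_lit 98381) (nat_lit 31) (.e (nat_lit 466954) (nat_lit 11) (.e (nat_lit 336385) (nat_lit 27) (.e (nat_lit 426100) (nat_lit 1) (.e (nat_lit 164399) (nat_lit 256) .nil)))))) (.g (nat_lit 6) .nil .nil))) 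
(.lf (nat_lit 151403) (.g (nat_lit 3197) (.e (nat_lit 57379) (nat_lit 3) (.e (nat_lit 98384) (nat_lit 32) (.e (nat_lit 475210) (nat_lit 41) (.e (nat_lit 712745) (nat_lit 27) (.e (nat_lit 426532) (nat_lit 28) .nil))))) .nil))) (.nd (nat_lit 5) 
(.lf (nat_lit 151387) (.g (nat_lit 2618) (.e (nat_lit 57379) (nat_lit 3) (.e (nat_lit 98384) (nat_lit 32) (.e (nat_lit 475177) (nat_lit 24) (.e (nat_lit 516149) (nat_lit 9) (.e (nat_lit 426131) (nat_lit 3) (.e (nat_lit 204829) (nat_lit 18) (.e (nat_lit 65280) (nat_lit 211) .nil))))))) (.g (nat_lit 5) .nil .nil))) 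
(.lf (nat_lit 151419) (.g (nat_lit 600) (.e (nat_lit 57381) (nat_lit 4) (.e (nat_lit 106534) (nat_lit 11) (.e (nat_lit 16438) (nat_lit 9) .nil))) .nil))))) (.nd (nat_lit 3) (.nd (nat_lit 4) (.nd (nat_lit 5) 
(.lf (nat_lit 151367) (.g (nat_lit 181) (.e (nat_lit 57379) (nat_lit 3) (.e (nat_lit 98380) (nat_lit 31) (.e (nat_lit 474880) (nat_lit 18) .nil))) .nil)) 
(.lf (nat_lit 151399) (.g (nat_lit 2337) (.e (nat_lit 57379) (nat_lit 3) (.e (nat_lit 98384) (nat_lit 32) (.e (nat_lit 475179) (nat_lit 24) (.e (nat_lit 516169) (nat_lit 13) .nil)))) .nil))) (.nd (nat_lit 5) 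
(.lf (nat_lit 151383) (.g (nat_lit 3733) (.e (nat_lit 57379) (nat_lit 3) (.e (nat_lit 98381) (nat_lit 31) (.e (nat_lit 466977) (nat_lit 22) (.e (nat_lit 196670) (nat_lit 14) (.e (nat_lit 73729) (nat_lit 0) (.e (nat_lit 7936) (nat_lit 283) .nil)))))) (.g (nat_lit 5) .nil .nil))) 
(.lf (nat_lit 151415) (.g (nat_lit 2487) (.e (nat_lit 57380) (nat_lit 4) (.e (nat_lit 106536) (nat_lit 11) (.e (nat_lit 16436) (nat_lit 9) (.e (nat_lit 426555) (nat_lit 32) (.e (nat_lit 376860) (nat_lit 21) .nil))))) .nil)))) (.nd (nat_lit 4) (.nd (nat_lit 5) 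
(.lf (nat_lit 151375) (.g (nat_lit 3155) (.e (nat_lit 57379) (nat_lit 3) (.e (nat_lit 98381) (nat_lit 31) (.e (nat_lit 466954) (nat_lit 11) (.e (nat_lit 336387) (nat_lit 27) (.e (nat_lit 426100) (nat_lit 1) (.e (nat_lit 164398) (nat_lit 256) .nil)))))) (.g (nat_lit 0) .nil .nil))) 
(.lf (nat_lit 151407) (.g (nat_lit 1628) (.e (nat_lit 57379) (nat_lit 3) (.e (nat_lit 98387) (nat_lit 33) (.e (nat_lit 491569) (nat_lit 13) (.e (nat_lit 393227) (nat_lit 9) .nil)))) .nil))) (.nd (nat_lit 5) 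
(.lf (nat_lit 151391) (.g (nat_lit 4463) (.e (nat_lit 57379) (nat_lit 3) (.e (nat_lit 98384) (nat_lit 32) (.e (nat_lit 475177) (nat_lit 24) (.e (nat_lit 516150) (nat_lit 9) (.e (nat_lit 426131) (nat_lit 3) (.e (nat_lit 204830) (nat_lit 18) (.e (nat_lit 65280) (nat_lit 211) .nil))))))) (.g (nat_lit 6) .nil .nil))) 
(.lf (nat_lit 151423) (.g (nat_lit 1170) (.e (nat_lit 57381) (nat_lit 4) (.e (nat_lit 106536) (nat_lit 11) (.e (nat_lit 16416) (nat_lit 3) .nil))) .nil))))))))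

noncomputable def tv2020 : DT := (.nd (nat_lit 0) (.nd (nat_lit 1) (.nd (nat_lit 2) (.nd (nat_lit 3) (.nd (nat_lit 4) (.nd (nat_lit 5) (.nd (nat_lit 6) 
(.lf (nat_lit 151424) (.g (nat_lit 3065) (.e (nat_lit 57381) (nat_lit 4) (.e (nat_lit 106536) (nat_lit 11) (.e (nat_lit 16416) (nat_lit 3) (.e (nat_lit 204866) (nat_lit 28) (.e (nat_lit 352318) (nat_lit 24) .nil))))) .nil)) 
(.lf (nat_lit 151488) (.g (nat_lit 2812) (.e (nat_lit 57382) (nat_lit 4) (.e (nat_lit 106536) (nat_lit 11) (.e (nat_lit 16434) (nat_lit 9) (.e (nat_lit 426555) (nat_lit 32) (.e (nat_lit 376857) (nat_lit 21) .nil))))) .nil))) (.nd (nat_lit 6) 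
(.lf (nat_lit 151456) (.g (nat_lit 2963) (.e (nat_lit 57381) (nat_lit 4) (.e (nat_lit 106536) (nat_lit 11) (.e (nat_lit 16466) (nat_lit 13) (.e (nat_lit 483393) (nat_lit 23) (.e (nat_lit 335988) (nat_lit 1) (.e (nat_lit 57852) (nat_lit 252) .nil)))))) (.g (nat_lit 0) .nil .nil))) 
(.lf (nat_lit 151520) (.g (nat_lit 2163) (.e (nat_lit 57383) (nat_lit 4) (.e (nat_lit 106534) (nat_lit 11) (.e (nat_lit 16468) (nat_lit 13) (.e (nat_lit 483399) (nat_lit 25) (.e (nat_lit 368662) (nat_lit 18) (.e (nat_lit 5195) (nat_lit 294) .nil)))))) (.g (nat_lit 0) .nil .nil))))) (.nd (nat_lit 5) (.nd (nat_lit 6) 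
(.lf (nat_lit 151440) (.g (nat_lit 2067) (.e (nat_lit 57381) (nat_lit 4) (.e (nat_lit 106536) (nat_lit 11) (.e (nat_lit 16437) (nat_lit 9) (.e (nat_lit 426555) (nat_lit 32) (.e (nat_lit 376857) (nat_lit 21) .nil))))) .nil)) 
(.lf (nat_lit 151504) (.g (nat_lit 1484) (.e (nat_lit 57382) (nat_lit 4) (.e (nat_lit 106536) (nat_lit 11) (.e (nat_lit 16468) (nat_lit 13) (.e (nat_lit 483393) (nat_lit 23) .nil)))) .nil))) (.nd (nat_lit 6) 
(.lf (nat_lit 151472) (.g (nat_lit 390) (.e (nat_lit 57382) (nat_lit 4) (.e (nat_lit 106534) (nat_lit 11) (.e (nat_lit 16467) (nat_lit 13) .nil))) .nil)) 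
(.lf (nat_lit 151536) (.g (nat_lit 2174) (.e (nat_lit 57383) (nat_lit 4) (.e (nat_lit 106536) (nat_lit 11) (.e (nat_lit 16438) (nat_lit 9) (.e (nat_lit 426542) (nat_lit 29) (.e (nat_lit 352307) (nat_lit 21) (.e (nat_lit 57848) (nat_lit 252) .nil)))))) (.g (nat_lit 4) .nil .nil)))))) (.nd (nat_lit 4) (.nd (nat_lit 5) (.nd (nat_lit 6) 
(.lf (nat_lit 151432) (.g (nat_lit 2587) (.e (nat_lit 57381) (nat_lit 4) (.e (nat_lit 106536) (nat_lit 11) (.e (nat_lit 16434) (nat_lit 9) (.e (nat_lit 426555) (nat_lit 32) (.e (nat_lit 376860) (nat_lit 21) .nil))))) .nil)) 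
(.lf (nat_lit 151496) (.g (nat_lit 1956) (.e (nat_lit 57382) (nat_lit 4) (.e (nat_lit 106536) (nat_lit 11) (.e (nat_lit 16437) (nat_lit 9) (.e (nat_lit 426542) (nat_lit 29) (.e (nat_lit 352309) (nat_lit 21) .nil))))) .nil))) (.nd (nat_lit 6) 
(.lf (nat_lit 151464) (.g (nat_lit 391) (.e (nat_lit 57382) (nat_lit 4) (.e (nat_lit 106534) (nat_lit 11) (.e (nat_lit 16438) (nat_lit 9) .nil))) .nil)) 
(.lf (nat_lit 151528) (.g (nat_lit 998) (.e (nat_lit 57383) (nat_lit 4) (.e (nat_lit 106536) (nat_lit 11) (.e (nat_lit 16435) (nat_lit 9) .nil))) .nil)))) (.nd (nat_lit 5) (.nd (nat_lit 6) 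
(.lf (nat_lit 151448) (.g (nat_lit 1266) (.e (nat_lit 57381) (nat_lit 4) (.e (nat_lit 106536) (nat_lit 11) (.e (nat_lit 16463) (nat_lit 13) (.e (nat_lit 483393) (nat_lit 23) .nil)))) .nil)) 
(.lf (nat_lit 151512) (.g (nat_lit 3040) (.e (nat_lit 57383) (nat_lit 4) (.e (nat_lit 106534) (nat_lit 11) (.e (nat_lit 16438) (nat_lit 9) (.e (nat_lit 426555) (nat_lit 32) (.e (nat_lit 376857) (nat_lit 21) (.e (nat_lit 57849) (nat_lit 252) .nil)))))) (.g (nat_lit 6) .nil .nil)))) (.nd (nat_lit 6) 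
(.lf (nat_lit 151480) (.g (nat_lit 3272) (.e (nat_lit 57382) (nat_lit 4) (.e (nat_lit 106536) (nat_lit 11) (.e (nat_lit 16416) (nat_lit 3) (.e (nat_lit 204866) (nat_lit 28) (.e (nat_lit 352318) (nat_lit 24) .nil))))) .nil)) 
(.lf (nat_lit 151544) (.g (nat_lit 1423) (.e (nat_lit 57383) (nat_lit 4) (.e (nat_lit 106536) (nat_lit 11) (.e (nat_lit 16467) (nat_lit 13) (.e (nat_lit 483378) (nat_lit 23) .nil)))) .nil)))))) (.nd (nat_lit 3) (.nd (nat_lit 4) (.nd (nat_lit 5) (.nd (nat_lit 6) 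
(.lf (nat_lit 151428) (.g (nat_lit 1576) (.e (nat_lit 57381) (nat_lit 4) (.e (nat_lit 106536) (nat_lit 11) (.e (nat_lit 16433) (nat_lit 9) (.e (nat_lit 426546) (nat_lit 30) .nil)))) .nil)) 
(.lf (nat_lit 151492) (.g (nat_lit 3370) (.e (nat_lit 57382) (nat_lit 4) (.e (nat_lit 106536) (nat_lit 11) (.e (nat_lit 16435) (nat_lit 9) (.e (nat_lit 426555) (nat_lit 32) (.e (nat_lit 376860) (nat_lit 21) (.e (nat_lit 57854) (nat_lit 252) .nil)))))) (.g (nat_lit 5) .nil .nil)))) (.nd (nat_lit 6) 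
(.lf (nat_lit 151460) (.g (nat_lit 1990) (.e (nat_lit 57382) (nat_lit 4) (.e (nat_lit 106534) (nat_lit 11) (.e (nat_lit 16432) (nat_lit 9) (.e (nat_lit 426555) (nat_lit 32) (.e (nat_lit 376860) (nat_lit 21) .nil))))) .nil)) 
(.lf (nat_lit 151524) (.g (nat_lit 3163) (.e (nat_lit 57383) (nat_lit 4) (.e (nat_lit 106536) (nat_lit 11) (.e (nat_lit 16416) (nat_lit 3) (.e (nat_lit 204866) (nat_lit 28) (.e (nat_lit 352318) (nat_lit 24) .nil))))) .nil)))) (.nd (nat_lit 5) (.nd (nat_lit 6) 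
(.lf (nat_lit 151444) (.g (nat_lit 2181) (.e (nat_lit 57381) (nat_lit 4) (.e (nat_lit 106536) (nat_lit 11) (.e (nat_lit 16438) (nat_lit 9) (.e (nat_lit 426542) (nat_lit 29) (.e (nat_lit 352307) (nat_lit 21) .nil))))) .nil)) 
(.lf (nat_lit 151508) (.g (nat_lit 3069) (.e (nat_lit 57383) (nat_lit 4) (.e (nat_lit 106534) (nat_lit 11) (.e (nat_lit 16438) (nat_lit 9) (.e (nat_lit 426542) (nat_lit 29) (.e (nat_lit 352309) (nat_lit 21) (.e (nat_lit 57848) (nat_lit 252) .nil)))))) (.g (nat_lit 6) .nil .nil)))) (.nd (nat_lit 6) 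
(.lf (nat_lit 151476) (.g (nat_lit 932) (.e (nat_lit 57382) (nat_lit 4) (.e (nat_lit 106534) (nat_lit 11) (.e (nat_lit 16468) (nat_lit 13) (.e (nat_lit 483389) (nat_lit 23) .nil)))) .nil)) 
(.lf (nat_lit 151540) (.g (nat_lit 2322) (.e (nat_lit 57383) (nat_lit 4) (.e (nat_lit 106536) (nat_lit 11) (.e (nat_lit 16463) (nat_lit 13) (.e (nat_lit 483401) (nat_lit 25) .nil)))) .nil))))) (.nd (nat_lit 4) (.nd (nat_lit 5) (.nd (nat_lit 6) 
(.lf (nat_lit 151436) (.g (nat_lit 2226) (.e (nat_lit 57381) (nat_lit 4) (.e (nat_lit 106536) (nat_lit 11) (.e (nat_lit 16435) (nat_lit 9) (.e (nat_lit 426555) (nat_lit 32) (.e (nat_lit 376859) (nat_lit 21) .nil))))) .nil)) 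
(.lf (nat_lit 151500) (.g (nat_lit 2302) (.e (nat_lit 57382) (nat_lit 4) (.e (nat_lit 106536) (nat_lit 11) (.e (nat_lit 16438) (nat_lit 9) (.e (nat_lit 426555) (nat_lit 32) (.e (nat_lit 376857) (nat_lit 21) .nil))))) .nil))) (.nd (nat_lit 6) 
(.lf (nat_lit 151468) (.g (nat_lit 2085) (.e (nat_lit 57382) (nat_lit 4) (.e (nat_lit 106534) (nat_lit 11) (.e (nat_lit 16463) (nat_lit 13) (.e (nat_lit 483393) (nat_lit 23) (.e (nat_lit 335988) (nat_lit 1) .nil))))) .nil)) 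
(.lf (nat_lit 151532) (.g (nat_lit 1345) (.e (nat_lit 57383) (nat_lit 4) (.e (nat_lit 106536) (nat_lit 11) (.e (nat_lit 16437) (nat_lit 9) (.e (nat_lit 426546) (nat_lit 30) .nil)))) .nil)))) (.nd (nat_lit 5) (.nd (nat_lit 6) 
(.lf (nat_lit 151452) (.g (nat_lit 1936) (.e (nat_lit 57381) (nat_lit 4) (.e (nat_lit 106536) (nat_lit 11) (.e (nat_lit 16465) (nat_lit 13) (.e (nat_lit 483393) (nat_lit 23) (.e (nat_lit 335988) (nat_lit 1) .nil))))) .nil)) 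
(.lf (nat_lit 151516) (.g (nat_lit 1758) (.e (nat_lit 57383) (nat_lit 4) (.e (nat_lit 106534) (nat_lit 11) (.e (nat_lit 16465) (nat_lit 13) (.e (nat_lit 483393) (nat_lit 23) (.e (nat_lit 335986) (nat_lit 1) .nil))))) .nil))) (.nd (nat_lit 6) 
(.lf (nat_lit 151484) (.g (nat_lit 2720) (.e (nat_lit 57382) (nat_lit 4) (.e (nat_lit 106536) (nat_lit 11) (.e (nat_lit 16432) (nat_lit 9) (.e (nat_lit 426555) (nat_lit 32) (.e (nat_lit 376859) (nat_lit 21) .nil))))) .nil)) 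
(.lf (nat_lit 151548) (.g (nat_lit 1330) (.e (nat_lit 57383) (nat_lit 4) (.e (nat_lit 106536) (nat_lit 11) (.e (nat_lit 16468) (nat_lit 13) (.e (nat_lit 483378) (nat_lit 23) .nil)))) .nil))))))) (.nd (nat_lit 2) (.nd (nat_lit 3) (.nd (nat_lit 4) (.nd (nat_lit 5) (.nd (nat_lit 6) 
(.lf (nat_lit 151426) (.g (nat_lit 2302) (.e (nat_lit 57381) (nat_lit 4) (.e (nat_lit 106536) (nat_lit 11) (.e (nat_lit 16432) (nat_lit 9) (.e (nat_lit 426555) (nat_lit 32) (.e (nat_lit 376859) (nat_lit 21) .nil))))) .nil)) 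
(.lf (nat_lit 151490) (.g (nat_lit 2786) (.e (nat_lit 57382) (nat_lit 4) (.e (nat_lit 106536) (nat_lit 11) (.e (nat_lit 16434) (nat_lit 9) (.e (nat_lit 426555) (nat_lit 32) (.e (nat_lit 376860) (nat_lit 21) .nil))))) .nil))) (.nd (nat_lit 6) 
(.lf (nat_lit 151458) (.g (nat_lit 1356) (.e (nat_lit 57381) (nat_lit 4) (.e (nat_lit 106536) (nat_lit 11) (.e (nat_lit 16468) (nat_lit 13) (.e (nat_lit 483393) (nat_lit 23) .nil)))) .nil)) 
(.lf (nat_lit 151522) (.g (nat_lit 2304) (.e (nat_lit 57383) (nat_lit 4) (.e (nat_lit 106536) (nat_lit 11) (.e (nat_lit 16412) (nat_lit 2) (.e (nat_lit 196672) (nat_lit 15) .nil)))) .nil)))) (.nd (nat_lit 5) (.nd (nat_lit 6) 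
(.lf (nat_lit 151442) (.g (nat_lit 2097) (.e (nat_lit 57381) (nat_lit 4) (.e (nat_lit 106536) (nat_lit 11) (.e (nat_lit 16437) (nat_lit 9) (.e (nat_lit 426555) (nat_lit 32) (.e (nat_lit 376860) (nat_lit 21) .nil))))) .nil)) 
(.lf (nat_lit 151506) (.g (nat_lit 2747) (.e (nat_lit 57383) (nat_lit 4) (.e (nat_lit 106534) (nat_lit 11) (.e (nat_lit 16436) (nat_lit 9) (.e (nat_lit 426555) (nat_lit 32) (.e (nat_lit 376859) (nat_lit 21) (.e (nat_lit 57847) (nat_lit 252) .nil)))))) (.g (nat_lit 6) .nil .nil)))) (.nd (nat_lit 6) 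
(.lf (nat_lit 151474) (.g (nat_lit 1376) (.e (nat_lit 57382) (nat_lit 4) (.e (nat_lit 106534) (nat_lit 11) (.e (nat_lit 16467) (nat_lit 13) (.e (nat_lit 483393) (nat_lit 23) (.e (nat_lit 335987) (nat_lit 1) .nil))))) .nil)) 
(.lf (nat_lit 151538) (.g (nat_lit 2236) (.e (nat_lit 57383) (nat_lit 4) (.e (nat_lit 106536) (nat_lit 11) (.e (nat_lit 16438) (nat_lit 9) (.e (nat_lit 426555) (nat_lit 32) (.e (nat_lit 376859) (nat_lit 21) .nil))))) .nil))))) (.nd (nat_lit 4) (.nd (nat_lit 5) (.nd (nat_lit 6) 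
(.lf (nat_lit 151434) (.g (nat_lit 2500) (.e (nat_lit 57381) (nat_lit 4) (.e (nat_lit 106536) (nat_lit 11) (.e (nat_lit 16435) (nat_lit 9) (.e (nat_lit 426544) (nat_lit 30) (.e (nat_lit 360453) (nat_lit 0) .nil))))) .nil)) 
(.lf (nat_lit 151498) (.g (nat_lit 1801) (.e (nat_lit 57382) (nat_lit 4) (.e (nat_lit 106536) (nat_lit 11) (.e (nat_lit 16438) (nat_lit 9) (.e (nat_lit 426538) (nat_lit 29) .nil)))) .nil))) (.nd (nat_lit 6) 
(.lf (nat_lit 151466) (.g (nat_lit 2545) (.e (nat_lit 57382) (nat_lit 4) (.e (nat_lit 106534) (nat_lit 11) (.e (nat_lit 16438) (nat_lit 9) (.e (nat_lit 426555) (nat_lit 32) (.e (nat_lit 376860) (nat_lit 21) (.e (nat_lit 57851) (nat_lit 252) .nil)))))) (.g (nat_lit 5) .nil .nil))) 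
(.lf (nat_lit 151530) (.g (nat_lit 1912) (.e (nat_lit 57383) (nat_lit 4) (.e (nat_lit 106536) (nat_lit 11) (.e (nat_lit 16437) (nat_lit 9) (.e (nat_lit 426542) (nat_lit 29) (.e (nat_lit 352307) (nat_lit 21) .nil))))) .nil)))) (.nd (nat_lit 5) (.nd (nat_lit 6) 
(.lf (nat_lit 151450) (.g (nat_lit 845) (.e (nat_lit 57381) (nat_lit 4) (.e (nat_lit 106536) (nat_lit 11) (.e (nat_lit 16465) (nat_lit 13) .nil))) .nil)) 
(.lf (nat_lit 151514) (.g (nat_lit 2214) (.e (nat_lit 57383) (nat_lit 4) (.e (nat_lit 106534) (nat_lit 11) (.e (nat_lit 16463) (nat_lit 13) (.e (nat_lit 483393) (nat_lit 23) (.e (nat_lit 335986) (nat_lit 1) .nil))))) .nil))) (.nd (nat_lit 6) 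
(.lf (nat_lit 151482) (.g (nat_lit 2722) (.e (nat_lit 57382) (nat_lit 4) (.e (nat_lit 106536) (nat_lit 11) (.e (nat_lit 16432) (nat_lit 9) (.e (nat_lit 426555) (nat_lit 32) (.e (nat_lit 376857) (nat_lit 21) .nil))))) .nil)) 
(.lf (nat_lit 151546) (.g (nat_lit 1607) (.e (nat_lit 57383) (nat_lit 4) (.e (nat_lit 106536) (nat_lit 11) (.e (nat_lit 16467) (nat_lit 13) (.e (nat_lit 483391) (nat_lit 23) (.e (nat_lit 335998) (nat_lit 1) .nil))))) .nil)))))) (.nd (nat_lit 3) (.nd (nat_lit 4) (.nd (nat_lit 5) (.nd (nat_lit 6) 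
(.lf (nat_lit 151430) (.g (nat_lit 2924) (.e (nat_lit 57381) (nat_lit 4) (.e (nat_lit 106536) (nat_lit 11) (.e (nat_lit 16433) (nat_lit 9) (.e (nat_lit 426555) (nat_lit 32) (.e (nat_lit 376857) (nat_lit 21) (.e (nat_lit 57854) (nat_lit 252) .nil)))))) (.g (nat_lit 6) .nil .nil))) 
(.lf (nat_lit 151494) (.g (nat_lit 2689) (.e (nat_lit 57382) (nat_lit 4) (.e (nat_lit 106536) (nat_lit 11) (.e (nat_lit 16436) (nat_lit 9) (.e (nat_lit 426555) (nat_lit 32) (.e (nat_lit 376857) (nat_lit 21) (.e (nat_lit 57851) (nat_lit 252) .nil)))))) (.g (nat_lit 5) .nil .nil)))) (.nd (nat_lit 6) 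
(.lf (nat_lit 151462) (.g (nat_lit 2498) (.e (nat_lit 57382) (nat_lit 4) (.e (nat_lit 106534) (nat_lit 11) (.e (nat_lit 16435) (nat_lit 9) (.e (nat_lit 426555) (nat_lit 32) (.e (nat_lit 376857) (nat_lit 21) (.e (nat_lit 57851) (nat_lit 252) .nil)))))) (.g (nat_lit 5) .nil .nil))) 
(.lf (nat_lit 151526) (.g (nat_lit 2408) (.e (nat_lit 57383) (nat_lit 4) (.e (nat_lit 106536) (nat_lit 11) (.e (nat_lit 16433) (nat_lit 9) (.e (nat_lit 426544) (nat_lit 30) (.e (nat_lit 360453) (nat_lit 0) .nil))))) .nil)))) (.nd (nat_lit 5) (.nd (nat_lit 6) 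
(.lf (nat_lit 151446) (.g (nat_lit 2256) (.e (nat_lit 57381) (nat_lit 4) (.e (nat_lit 106536) (nat_lit 11) (.e (nat_lit 16438) (nat_lit 9) (.e (nat_lit 426555) (nat_lit 32) (.e (nat_lit 376859) (nat_lit 21) .nil))))) .nil)) 
(.lf (nat_lit 151510) (.g (nat_lit 1601) (.e (nat_lit 57383) (nat_lit 4) (.e (nat_lit 106534) (nat_lit 11) (.e (nat_lit 16438) (nat_lit 9) (.e (nat_lit 426546) (nat_lit 30) (.e (nat_lit 360452) (nat_lit 0) (.e (nat_lit 5194) (nat_lit 294) .nil)))))) (.g (nat_lit 5) .nil .nil)))) (.nd (nat_lit 6) 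
(.lf (nat_lit 151478) (.g (nat_lit 1339) (.e (nat_lit 57382) (nat_lit 4) (.e (nat_lit 106535) (nat_lit 11) (.e (nat_lit 16463) (nat_lit 13) (.e (nat_lit 483393) (nat_lit 23) .nil)))) .nil)) 
(.lf (nat_lit 151542) (.g (nat_lit 2072) (.e (nat_lit 57383) (nat_lit 4) (.e (nat_lit 106536) (nat_lit 11) (.e (nat_lit 16465) (nat_lit 13) (.e (nat_lit 483393) (nat_lit 23) (.e (nat_lit 335986) (nat_lit 1) .nil))))) .nil))))) (.nd (nat_lit 4) (.nd (nat_lit 5) (.nd (nat_lit 6) 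
(.lf (nat_lit 151438) (.g (nat_lit 2565) (.e (nat_lit 57381) (nat_lit 4) (.e (nat_lit 106536) (nat_lit 11) (.e (nat_lit 16436) (nat_lit 9) (.e (nat_lit 426546) (nat_lit 30) .nil)))) .nil)) 
(.lf (nat_lit 151502) (.g (nat_lit 1354) (.e (nat_lit 57382) (nat_lit 4) (.e (nat_lit 106536) (nat_lit 11) (.e (nat_lit 16463) (nat_lit 13) (.e (nat_lit 483393) (nat_lit 23) .nil)))) .nil))) (.nd (nat_lit 6) 
(.lf (nat_lit 151470) (.g (nat_lit 1676) (.e (nat_lit 57382) (nat_lit 4) (.e (nat_lit 106534) (nat_lit 11) (.e (nat_lit 16465) (nat_lit 13) (.e (nat_lit 483393) (nat_lit 23) (.e (nat_lit 335988) (nat_lit 1) .nil))))) .nil)) 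
(.lf (nat_lit 151534) (.g (nat_lit 1849) (.e (nat_lit 57383) (nat_lit 4) (.e (nat_lit 106536) (nat_lit 11) (.e (nat_lit 16438) (nat_lit 9) (.e (nat_lit 426539) (nat_lit 29) .nil)))) .nil)))) (.nd (nat_lit 5) (.nd (nat_lit 6) 
(.lf (nat_lit 151454) (.g (nat_lit 1188) (.e (nat_lit 57381) (nat_lit 4) (.e (nat_lit 106536) (nat_lit 11) (.e (nat_lit 16466) (nat_lit 13) (.e (nat_lit 483393) (nat_lit 23) .nil)))) .nil)) 
(.lf (nat_lit 151518) (.g (nat_lit 998) (.e (nat_lit 57383) (nat_lit 4) (.e (nat_lit 106534) (nat_lit 11) (.e (nat_lit 16468) (nat_lit 13) (.e (nat_lit 491264) (nat_lit 23) .nil)))) .nil))) (.nd (nat_lit 6) 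
(.lf (nat_lit 151486) (.g (nat_lit 2933) (.e (nat_lit 57382) (nat_lit 4) (.e (nat_lit 106536) (nat_lit 11) (.e (nat_lit 16432) (nat_lit 9) (.e (nat_lit 426555) (nat_lit 32) (.e (nat_lit 376860) (nat_lit 21) (.e (nat_lit 57854) (nat_lit 252) .nil)))))) (.g (nat_lit 4) .nil .nil))) 
(.lf (nat_lit 151550) (.g (nat_lit 1414) (.e (nat_lit 57383) (nat_lit 4) (.e (nat_lit 106536) (nat_lit 11) (.e (nat_lit 16468) (nat_lit 13) (.e (nat_lit 483387) (nat_lit 23) .nil)))) .nil)))))))) (.nd (nat_lit 1) (.nd (nat_lit 2) (.nd (nat_lit 3) (.nd (nat_lit 4) (.nd (nat_lit 5) (.nd (nat_lit 6) 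
(.lf (nat_lit 151425) (.g (nat_lit 2304) (.e (nat_lit 57381) (nat_lit 4) (.e (nat_lit 106536) (nat_lit 11) (.e (nat_lit 16432) (nat_lit 9) (.e (nat_lit 426555) (nat_lit 32) (.e (nat_lit 376857) (nat_lit 21) .nil))))) .nil)) 
(.lf (nat_lit 151489) (.g (nat_lit 3039) (.e (nat_lit 57382) (nat_lit 4) (.e (nat_lit 106536) (nat_lit 11) (.e (nat_lit 16434) (nat_lit 9) (.e (nat_lit 426555) (nat_lit 32) (.e (nat_lit 376859) (nat_lit 21) (.e (nat_lit 57844) (nat_lit 252) .nil)))))) (.g (nat_lit 4) .nil .nil)))) (.nd (nat_lit 6) 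
(.lf (nat_lit 151457) (.g (nat_lit 1436) (.e (nat_lit 57381) (nat_lit 4) (.e (nat_lit 106536) (nat_lit 11) (.e (nat_lit 16468) (nat_lit 13) (.e (nat_lit 483389) (nat_lit 23) .nil)))) .nil)) 
(.lf (nat_lit 151521) (.g (nat_lit 1402) (.e (nat_lit 57383) (nat_lit 4) (.e (nat_lit 106536) (nat_lit 11) (.e (nat_lit 16412) (nat_lit 2) .nil))) .nil)))) (.nd (nat_lit 5) (.nd (nat_lit 6) 
(.lf (nat_lit 151441) (.g (nat_lit 2033) (.e (nat_lit 57381) (nat_lit 4) (.e (nat_lit 106536) (nat_lit 11) (.e (nat_lit 16437) (nat_lit 9) (.e (nat_lit 426555) (nat_lit 32) (.e (nat_lit 376859) (nat_lit 21) .nil))))) .nil)) 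
(.lf (nat_lit 151505) (.g (nat_lit 1170) (.e (nat_lit 57383) (nat_lit 4) (.e (nat_lit 106534) (nat_lit 11) (.e (nat_lit 16432) (nat_lit 9) (.e (nat_lit 426538) (nat_lit 29) .nil)))) .nil))) (.nd (nat_lit 6) 
(.lf (nat_lit 151473) (.g (nat_lit 866) (.e (nat_lit 57382) (nat_lit 4) (.e (nat_lit 106534) (nat_lit 11) (.e (nat_lit 16467) (nat_lit 13) (.e (nat_lit 483387) (nat_lit 23) .nil)))) .nil)) 
(.lf (nat_lit 151537) (.g (nat_lit 1549) (.e (nat_lit 57383) (nat_lit 4) (.e (nat_lit 106536) (nat_lit 11) (.e (nat_lit 16438) (nat_lit 9) (.e (nat_lit 426546) (nat_lit 30) .nil)))) .nil))))) (.nd (nat_lit 4) (.nd (nat_lit 5) (.nd (nat_lit 6) 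
(.lf (nat_lit 151433) (.g (nat_lit 2711) (.e (nat_lit 57381) (nat_lit 4) (.e (nat_lit 106536) (nat_lit 11) (.e (nat_lit 16434) (nat_lit 9) (.e (nat_lit 426555) (nat_lit 32) (.e (nat_lit 376860) (nat_lit 21) (.e (nat_lit 57852) (nat_lit 252) .nil)))))) (.g (nat_lit 4) .nil .nil))) 
(.lf (nat_lit 151497) (.g (nat_lit 2072) (.e (nat_lit 57382) (nat_lit 4) (.e (nat_lit 106536) (nat_lit 11) (.e (nat_lit 16437) (nat_lit 9) (.e (nat_lit 426555) (nat_lit 32) (.e (nat_lit 376857) (nat_lit 21) .nil))))) .nil))) (.nd (nat_lit 6) 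
(.lf (nat_lit 151465) (.g (nat_lit 2479) (.e (nat_lit 57382) (nat_lit 4) (.e (nat_lit 106534) (nat_lit 11) (.e (nat_lit 16438) (nat_lit 9) (.e (nat_lit 426555) (nat_lit 32) (.e (nat_lit 376857) (nat_lit 21) (.e (nat_lit 57851) (nat_lit 252) .nil)))))) (.g (nat_lit 5) .nil .nil))) 
(.lf (nat_lit 151529) (.g (nat_lit 2026) (.e (nat_lit 57383) (nat_lit 4) (.e (nat_lit 106536) (nat_lit 11) (.e (nat_lit 16435) (nat_lit 9) (.e (nat_lit 426544) (nat_lit 30) .nil)))) .nil)))) (.nd (nat_lit 5) (.nd (nat_lit 6) 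
(.lf (nat_lit 151449) (.g (nat_lit 1967) (.e (nat_lit 57381) (nat_lit 4) (.e (nat_lit 106536) (nat_lit 11) (.e (nat_lit 16463) (nat_lit 13) (.e (nat_lit 483401) (nat_lit 25) .nil)))) .nil)) 
(.lf (nat_lit 151513) (.g (nat_lit 749) (.e (nat_lit 57383) (nat_lit 4) (.e (nat_lit 106534) (nat_lit 11) (.e (nat_lit 16444) (nat_lit 9) .nil))) .nil))) (.nd (nat_lit 6) 
(.lf (nat_lit 151481) (.g (nat_lit 3780) (.e (nat_lit 57382) (nat_lit 4) (.e (nat_lit 106536) (nat_lit 11) (.e (nat_lit 16416) (nat_lit 3) (.e (nat_lit 204869) (nat_lit 29) (.e (nat_lit 360450) (nat_lit 0) .nil))))) .nil)) 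
(.lf (nat_lit 151545) (.g (nat_lit 1954) (.e (nat_lit 57383) (nat_lit 4) (.e (nat_lit 106536) (nat_lit 11) (.e (nat_lit 16467) (nat_lit 13) (.e (nat_lit 483383) (nat_lit 23) (.e (nat_lit 336000) (nat_lit 1) .nil))))) .nil)))))) (.nd (nat_lit 3) (.nd (nat_lit 4) (.nd (nat_lit 5) (.nd (nat_lit 6) 
(.lf (nat_lit 151429) (.g (nat_lit 1229) (.e (nat_lit 57381) (nat_lit 4) (.e (nat_lit 106536) (nat_lit 11) (.e (nat_lit 16433) (nat_lit 9) (.e (nat_lit 426555) (nat_lit 32) .nil)))) .nil)) 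
(.lf (nat_lit 151493) (.g (nat_lit 2848) (.e (nat_lit 57382) (nat_lit 4) (.e (nat_lit 106536) (nat_lit 11) (.e (nat_lit 16436) (nat_lit 9) (.e (nat_lit 426555) (nat_lit 32) (.e (nat_lit 376857) (nat_lit 21) (.e (nat_lit 57844) (nat_lit 252) .nil)))))) (.g (nat_lit 5) .nil .nil)))) (.nd (nat_lit 6) 
(.lf (nat_lit 151461) (.g (nat_lit 2292) (.e (nat_lit 57382) (nat_lit 4) (.e (nat_lit 106534) (nat_lit 11) (.e (nat_lit 16433) (nat_lit 9) (.e (nat_lit 426555) (nat_lit 32) (.e (nat_lit 376857) (nat_lit 21) (.e (nat_lit 57851) (nat_lit 252) .nil)))))) (.g (nat_lit 4) .nil .nil))) 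
(.lf (nat_lit 151525) (.g (nat_lit 2060) (.e (nat_lit 57383) (nat_lit 4) (.e (nat_lit 106536) (nat_lit 11) (.e (nat_lit 16416) (nat_lit 3) (.e (nat_lit 204869) (nat_lit 29) .nil)))) .nil)))) (.nd (nat_lit 5) (.nd (nat_lit 6) 
(.lf (nat_lit 151445) (.g (nat_lit 2220) (.e (nat_lit 57381) (nat_lit 4) (.e (nat_lit 106536) (nat_lit 11) (.e (nat_lit 16438) (nat_lit 9) (.e (nat_lit 426555) (nat_lit 32) (.e (nat_lit 376857) (nat_lit 21) .nil))))) .nil)) 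
(.lf (nat_lit 151509) (.g (nat_lit 2565) (.e (nat_lit 57383) (nat_lit 4) (.e (nat_lit 106534) (nat_lit 11) (.e (nat_lit 16438) (nat_lit 9) (.e (nat_lit 426544) (nat_lit 30) (.e (nat_lit 360453) (nat_lit 0) (.e (nat_lit 5195) (nat_lit 294) .nil)))))) (.g (nat_lit 0) .nil .nil)))) (.nd (nat_lit 6) 
(.lf (nat_lit 151477) (.g (nat_lit 1070) (.e (nat_lit 57382) (nat_lit 4) (.e (nat_lit 106534) (nat_lit 11) (.e (nat_lit 16468) (nat_lit 13) (.e (nat_lit 491264) (nat_lit 23) .nil)))) .nil)) 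
(.lf (nat_lit 151541) (.g (nat_lit 2633) (.e (nat_lit 57383) (nat_lit 4) (.e (nat_lit 106536) (nat_lit 11) (.e (nat_lit 16465) (nat_lit 13) (.e (nat_lit 483383) (nat_lit 23) (.e (nat_lit 336000) (nat_lit 1) .nil))))) .nil))))) (.nd (nat_lit 4) (.nd (nat_lit 5) (.nd (nat_lit 6) 
(.lf (nat_lit 151437) (.g (nat_lit 2495) (.e (nat_lit 57381) (nat_lit 4) (.e (nat_lit 106536) (nat_lit 11) (.e (nat_lit 16436) (nat_lit 9) (.e (nat_lit 426544) (nat_lit 30) .nil)))) .nil)) 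
(.lf (nat_lit 151501) (.g (nat_lit 2260) (.e (nat_lit 57382) (nat_lit 4) (.e (nat_lit 106536) (nat_lit 11) (.e (nat_lit 16438) (nat_lit 9) (.e (nat_lit 426555) (nat_lit 32) (.e (nat_lit 376860) (nat_lit 21) .nil))))) .nil))) (.nd (nat_lit 6) 
(.lf (nat_lit 151469) (.g (nat_lit 1617) (.e (nat_lit 57382) (nat_lit 4) (.e (nat_lit 106534) (nat_lit 11) (.e (nat_lit 16464) (nat_lit 13) (.e (nat_lit 483393) (nat_lit 23) (.e (nat_lit 335988) (nat_lit 1) .nil))))) .nil)) 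
(.lf (nat_lit 151533) (.g (nat_lit 2038) (.e (nat_lit 57383) (nat_lit 4) (.e (nat_lit 106536) (nat_lit 11) (.e (nat_lit 16438) (nat_lit 9) (.e (nat_lit 426538) (nat_lit 29) (.e (nat_lit 352309) (nat_lit 21) .nil))))) .nil)))) (.nd (nat_lit 5) (.nd (nat_lit 6) 
(.lf (nat_lit 151453) (.g (nat_lit 1987) (.e (nat_lit 57381) (nat_lit 4) (.e (nat_lit 106536) (nat_lit 11) (.e (nat_lit 16465) (nat_lit 13) (.e (nat_lit 483393) (nat_lit 23) (.e (nat_lit 335996) (nat_lit 1) .nil))))) .nil)) 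
(.lf (nat_lit 151517) (.g (nat_lit 335) (.e (nat_lit 57383) (nat_lit 4) (.e (nat_lit 106534) (nat_lit 11) (.e (nat_lit 16468) (nat_lit 13) .nil))) .nil))) (.nd (nat_lit 6) 
(.lf (nat_lit 151485) (.g (nat_lit 2773) (.e (nat_lit 57382) (nat_lit 4) (.e (nat_lit 106536) (nat_lit 11) (.e (nat_lit 16432) (nat_lit 9) (.e (nat_lit 426555) (nat_lit 32) (.e (nat_lit 376860) (nat_lit 21) .nil))))) .nil)) 
(.lf (nat_lit 151549) (.g (nat_lit 1935) (.e (nat_lit 57383) (nat_lit 4) (.e (nat_lit 106536) (nat_lit 11) (.e (nat_lit 16468) (nat_lit 13) (.e (nat_lit 483383) (nat_lit 23) (.e (nat_lit 336000) (nat_lit 1) .nil))))) .nil))))))) (.nd (nat_lit 2) (.nd (nat_lit 3) (.nd (nat_lit 4) (.nd (nat_lit 5) (.nd (nat_lit 6) 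
(.lf (nat_lit 151427) (.g (nat_lit 2354) (.e (nat_lit 57381) (nat_lit 4) (.e (nat_lit 106536) (nat_lit 11) (.e (nat_lit 16432) (nat_lit 9) (.e (nat_lit 426555) (nat_lit 32) (.e (nat_lit 376860) (nat_lit 21) .nil))))) .nil)) 
(.lf (nat_lit 151491) (.g (nat_lit 2276) (.e (nat_lit 57382) (nat_lit 4) (.e (nat_lit 106536) (nat_lit 11) (.e (nat_lit 16435) (nat_lit 9) (.e (nat_lit 426555) (nat_lit 32) (.e (nat_lit 376860) (nat_lit 21) .nil))))) .nil))) (.nd (nat_lit 6) 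
(.lf (nat_lit 151459) (.g (nat_lit 1425) (.e (nat_lit 57381) (nat_lit 4) (.e (nat_lit 106536) (nat_lit 11) (.e (nat_lit 16468) (nat_lit 13) (.e (nat_lit 483398) (nat_lit 25) (.e (nat_lit 368662) (nat_lit 18) .nil))))) .nil)) 
(.lf (nat_lit 151523) (.g (nat_lit 1389) (.e (nat_lit 57383) (nat_lit 4) (.e (nat_lit 106536) (nat_lit 11) (.e (nat_lit 16416) (nat_lit 3) .nil))) .nil)))) (.nd (nat_lit 5) (.nd (nat_lit 6) 
(.lf (nat_lit 151443) (.g (nat_lit 1492) (.e (nat_lit 57381) (nat_lit 4) (.e (nat_lit 106536) (nat_lit 11) (.e (nat_lit 16438) (nat_lit 9) (.e (nat_lit 426542) (nat_lit 29) .nil)))) .nil)) 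
(.lf (nat_lit 151507) (.g (nat_lit 2564) (.e (nat_lit 57383) (nat_lit 4) (.e (nat_lit 106534) (nat_lit 11) (.e (nat_lit 16437) (nat_lit 9) (.e (nat_lit 426538) (nat_lit 29) (.e (nat_lit 352309) (nat_lit 21) (.e (nat_lit 57848) (nat_lit 252) .nil)))))) (.g (nat_lit 6) .nil .nil)))) (.nd (nat_lit 6) 
(.lf (nat_lit 151475) (.g (nat_lit 377) (.e (nat_lit 57382) (nat_lit 4) (.e (nat_lit 106534) (nat_lit 11) (.e (nat_lit 16468) (nat_lit 13) .nil))) .nil)) 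
(.lf (nat_lit 151539) (.g (nat_lit 1811) (.e (nat_lit 57383) (nat_lit 4) (.e (nat_lit 106536) (nat_lit 11) (.e (nat_lit 16438) (nat_lit 9) (.e (nat_lit 426556) (nat_lit 32) .nil)))) .nil))))) (.nd (nat_lit 4) (.nd (nat_lit 5) (.nd (nat_lit 6) 
(.lf (nat_lit 151435) (.g (nat_lit 2245) (.e (nat_lit 57381) (nat_lit 4) (.e (nat_lit 106536) (nat_lit 11) (.e (nat_lit 16435) (nat_lit 9) (.e (nat_lit 426555) (nat_lit 32) (.e (nat_lit 376857) (nat_lit 21) .nil))))) .nil)) 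
(.lf (nat_lit 151499) (.g (nat_lit 2574) (.e (nat_lit 57382) (nat_lit 4) (.e (nat_lit 106536) (nat_lit 11) (.e (nat_lit 16438) (nat_lit 9) (.e (nat_lit 426542) (nat_lit 29) (.e (nat_lit 352309) (nat_lit 21) (.e (nat_lit 57844) (nat_lit 252) .nil)))))) (.g (nat_lit 4) .nil .nil)))) (.nd (nat_lit 6) 
(.lf (nat_lit 151467) (.g (nat_lit 1200) (.e (nat_lit 57382) (nat_lit 4) (.e (nat_lit 106534) (nat_lit 11) (.e (nat_lit 16444) (nat_lit 9) (.e (nat_lit 426554) (nat_lit 32) .nil)))) .nil)) 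
(.lf (nat_lit 151531) (.g (nat_lit 1908) (.e (nat_lit 57383) (nat_lit 4) (.e (nat_lit 106536) (nat_lit 11) (.e (nat_lit 16437) (nat_lit 9) (.e (nat_lit 426542) (nat_lit 29) (.e (nat_lit 352309) (nat_lit 21) .nil))))) .nil)))) (.nd (nat_lit 5) (.nd (nat_lit 6) 
(.lf (nat_lit 151451) (.g (nat_lit 1516) (.e (nat_lit 57381) (nat_lit 4) (.e (nat_lit 106536) (nat_lit 11) (.e (nat_lit 16465) (nat_lit 13) (.e (nat_lit 483393) (nat_lit 23) .nil)))) .nil)) 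
(.lf (nat_lit 151515) (.g (nat_lit 2515) (.e (nat_lit 57383) (nat_lit 4) (.e (nat_lit 106534) (nat_lit 11) (.e (nat_lit 16464) (nat_lit 13) (.e (nat_lit 483383) (nat_lit 23) (.e (nat_lit 336000) (nat_lit 1) .nil))))) .nil))) (.nd (nat_lit 6) 
(.lf (nat_lit 151483) (.g (nat_lit 2832) (.e (nat_lit 57382) (nat_lit 4) (.e (nat_lit 106536) (nat_lit 11) (.e (nat_lit 16432) (nat_lit 9) (.e (nat_lit 426555) (nat_lit 32) (.e (nat_lit 376857) (nat_lit 21) (.e (nat_lit 57854) (nat_lit 252) .nil)))))) (.g (nat_lit 4) .nil .nil))) 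
(.lf (nat_lit 151547) (.g (nat_lit 730) (.e (nat_lit 57383) (nat_lit 4) (.e (nat_lit 106536) (nat_lit 11) (.e (nat_lit 16468) (nat_lit 13) .nil))) .nil)))))) (.nd (nat_lit 3) (.nd (nat_lit 4) (.nd (nat_lit 5) (.nd (nat_lit 6) 
(.lf (nat_lit 151431) (.g (nat_lit 2564) (.e (nat_lit 57381) (nat_lit 4) (.e (nat_lit 106536) (nat_lit 11) (.e (nat_lit 16434) (nat_lit 9) (.e (nat_lit 426555) (nat_lit 32) (.e (nat_lit 376859) (nat_lit 21) .nil))))) .nil)) 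
(.lf (nat_lit 151495) (.g (nat_lit 1803) (.e (nat_lit 57382) (nat_lit 4) (.e (nat_lit 106536) (nat_lit 11) (.e (nat_lit 16436) (nat_lit 9) (.e (nat_lit 426555) (nat_lit 32) (.e (nat_lit 376859) (nat_lit 21) .nil))))) .nil))) (.nd (nat_lit 6) 
(.lf (nat_lit 151463) (.g (nat_lit 375) (.e (nat_lit 57382) (nat_lit 4) (.e (nat_lit 106534) (nat_lit 11) (.e (nat_lit 16437) (nat_lit 9) .nil))) .nil)) 
(.lf (nat_lit 151527) (.g (nat_lit 1633) (.e (nat_lit 57383) (nat_lit 4) (.e (nat_lit 106536) (nat_lit 11) (.e (nat_lit 16433) (nat_lit 9) (.e (nat_lit 426556) (nat_lit 32) .nil)))) .nil)))) (.nd (nat_lit 5) (.nd (nat_lit 6) 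
(.lf (nat_lit 151447) (.g (nat_lit 2210) (.e (nat_lit 57381) (nat_lit 4) (.e (nat_lit 106536) (nat_lit 11) (.e (nat_lit 16438) (nat_lit 9) (.e (nat_lit 426555) (nat_lit 32) (.e (nat_lit 376860) (nat_lit 21) .nil))))) .nil)) 
(.lf (nat_lit 151511) (.g (nat_lit 2444) (.e (nat_lit 57383) (nat_lit 4) (.e (nat_lit 106534) (nat_lit 11) (.e (nat_lit 16438) (nat_lit 9) (.e (nat_lit 426546) (nat_lit 30) (.e (nat_lit 360452) (nat_lit 0) (.e (nat_lit 5195) (nat_lit 294) .nil)))))) (.g (nat_lit 0) .nil .nil)))) (.nd (nat_lit 6) 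
(.lf (nat_lit 151479) (.g (nat_lit 1453) (.e (nat_lit 57382) (nat_lit 4) (.e (nat_lit 106536) (nat_lit 11) (.e (nat_lit 16412) (nat_lit 2) .nil))) .nil)) 
(.lf (nat_lit 151543) (.g (nat_lit 938) (.e (nat_lit 57383) (nat_lit 4) (.e (nat_lit 106536) (nat_lit 11) (.e (nat_lit 16467) (nat_lit 13) .nil))) .nil))))) (.nd (nat_lit 4) (.nd (nat_lit 5) (.nd (nat_lit 6) 
(.lf (nat_lit 151439) (.g (nat_lit 1641) (.e (nat_lit 57381) (nat_lit 4) (.e (nat_lit 106536) (nat_lit 11) (.e (nat_lit 16436) (nat_lit 9) (.e (nat_lit 426555) (nat_lit 32) (.e (nat_lit 376857) (nat_lit 21) .nil))))) .nil)) 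
(.lf (nat_lit 151503) (.g (nat_lit 1695) (.e (nat_lit 57382) (nat_lit 4) (.e (nat_lit 106536) (nat_lit 11) (.e (nat_lit 16465) (nat_lit 13) (.e (nat_lit 483393) (nat_lit 23) .nil)))) .nil))) (.nd (nat_lit 6) 
(.lf (nat_lit 151471) (.g (nat_lit 1539) (.e (nat_lit 57382) (nat_lit 4) (.e (nat_lit 106534) (nat_lit 11) (.e (nat_lit 16466) (nat_lit 13) (.e (nat_lit 483393) (nat_lit 23) (.e (nat_lit 335987) (nat_lit 1) .nil))))) .nil)) 
(.lf (nat_lit 151535) (.g (nat_lit 2168) (.e (nat_lit 57383) (nat_lit 4) (.e (nat_lit 106536) (nat_lit 11) (.e (nat_lit 16438) (nat_lit 9) (.e (nat_lit 426542) (nat_lit 29) (.e (nat_lit 352307) (nat_lit 21) .nil))))) .nil)))) (.nd (nat_lit 5) (.nd (nat_lit 6) 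
(.lf (nat_lit 151455) (.g (nat_lit 2431) (.e (nat_lit 57381) (nat_lit 4) (.e (nat_lit 106536) (nat_lit 11) (.e (nat_lit 16466) (nat_lit 13) (.e (nat_lit 483393) (nat_lit 23) (.e (nat_lit 335987) (nat_lit 1) (.e (nat_lit 57852) (nat_lit 252) .nil)))))) (.g (nat_lit 0) .nil .nil))) 
(.lf (nat_lit 151519) (.g (nat_lit 2122) (.e (nat_lit 57383) (nat_lit 4) (.e (nat_lit 106534) (nat_lit 11) (.e (nat_lit 16468) (nat_lit 13) (.e (nat_lit 483398) (nat_lit 25) (.e (nat_lit 368662) (nat_lit 18) (.e (nat_lit 5195) (nat_lit 294) .nil)))))) (.g (nat_lit 0) .nil .nil)))) (.nd (nat_lit 6) 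
(.lf (nat_lit 151487) (.g (nat_lit 2080) (.e (nat_lit 57382) (nat_lit 4) (.e (nat_lit 106536) (nat_lit 11) (.e (nat_lit 16433) (nat_lit 9) (.e (nat_lit 426538) (nat_lit 29) (.e (nat_lit 352309) (nat_lit 21) .nil))))) .nil)) 
(.lf (nat_lit 151551) (.g (nat_lit 1308) (.e (nat_lit 57383) (nat_lit 4) (.e (nat_lit 106536) (nat_lit 11) (.e (nat_lit 16468) (nat_lit 13) (.e (nat_lit 483389) (nat_lit 23) .nil)))) .nil)))))))))

noncomputable def tv2021 : DT := (.nd (nat_lit 0) (.nd (nat_lit 1) (.nd (nat_lit 2) (.nd (nat_lit 3) (.nd (nat_lit 4) (.nd (nat_lit 5) (.nd (nat_lit 6) 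
(.lf (nat_lit 151552) (.g (nat_lit 1724) (.e (nat_lit 57383) (nat_lit 4) (.e (nat_lit 106536) (nat_lit 11) (.e (nat_lit 16468) (nat_lit 13) (.e (nat_lit 483393) (nat_lit 23) (.e (nat_lit 335986) (nat_lit 1) .nil))))) .nil)) 
(.lf (nat_lit 151616) (.g (nat_lit 2453) (.e (nat_lit 57385) (nat_lit 4) (.e (nat_lit 106534) (nat_lit 11) (.e (nat_lit 16433) (nat_lit 9) (.e (nat_lit 426555) (nat_lit 32) (.e (nat_lit 376857) (nat_lit 21) (.e (nat_lit 57848) (nat_lit 252) .nil)))))) (.g (nat_lit 4) .nil .nil)))) (.nd (nat_lit 6) 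
(.lf (nat_lit 151584) (.g (nat_lit 3180) (.e (nat_lit 57384) (nat_lit 4) (.e (nat_lit 106536) (nat_lit 11) (.e (nat_lit 16412) (nat_lit 2) (.e (nat_lit 196674) (nat_lit 15) (.e (nat_lit 81959) (nat_lit 24) (.e (nat_lit 130816) (nat_lit 124) .nil)))))) (.g (nat_lit 4) .nil .nil))) 
(.lf (nat_lit 151648) (.g (nat_lit 3361) (.e (nat_lit 57385) (nat_lit 4) (.e (nat_lit 106536) (nat_lit 11) (.e (nat_lit 16416) (nat_lit 3) (.e (nat_lit 204869) (nat_lit 29) (.e (nat_lit 360456) (nat_lit 0) .nil))))) .nil)))) (.nd (nat_lit 5) (.nd (nat_lit 6) 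
(.lf (nat_lit 151568) (.g (nat_lit 1822) (.e (nat_lit 57384) (nat_lit 4) (.e (nat_lit 106534) (nat_lit 11) (.e (nat_lit 16464) (nat_lit 13) (.e (nat_lit 483393) (nat_lit 23) (.e (nat_lit 335987) (nat_lit 1) .nil))))) .nil)) 
(.lf (nat_lit 151632) (.g (nat_lit 957) (.e (nat_lit 57385) (nat_lit 4) (.e (nat_lit 106535) (nat_lit 11) (.e (nat_lit 16466) (nat_lit 13) (.e (nat_lit 483393) (nat_lit 23) .nil)))) .nil))) (.nd (nat_lit 6) 
(.lf (nat_lit 151600) (.g (nat_lit 1064) (.e (nat_lit 57384) (nat_lit 4) (.e (nat_lit 106536) (nat_lit 11) (.e (nat_lit 16438) (nat_lit 9) (.e (nat_lit 426542) (nat_lit 29) .nil)))) .nil)) 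
(.lf (nat_lit 151664) (.g (nat_lit 2065) (.e (nat_lit 57385) (nat_lit 4) (.e (nat_lit 106536) (nat_lit 11) (.e (nat_lit 16437) (nat_lit 9) (.e (nat_lit 426544) (nat_lit 30) (.e (nat_lit 360453) (nat_lit 0) (.e (nat_lit 5195) (nat_lit 294) .nil)))))) (.g (nat_lit 6) .nil .nil)))))) (.nd (nat_lit 4) (.nd (nat_lit 5) (.nd (nat_lit 6) 
(.lf (nat_lit 151560) (.g (nat_lit 1177) (.e (nat_lit 57384) (nat_lit 4) (.e (nat_lit 106534) (nat_lit 11) (.e (nat_lit 16432) (nat_lit 9) (.e (nat_lit 426555) (nat_lit 32) .nil)))) .nil)) 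
(.lf (nat_lit 151624) (.g (nat_lit 1854) (.e (nat_lit 57385) (nat_lit 4) (.e (nat_lit 106534) (nat_lit 11) (.e (nat_lit 16465) (nat_lit 13) (.e (nat_lit 483393) (nat_lit 23) (.e (nat_lit 335986) (nat_lit 1) .nil))))) .nil))) (.nd (nat_lit 6) 
(.lf (nat_lit 151592) (.g (nat_lit 3465) (.e (nat_lit 57384) (nat_lit 4) (.e (nat_lit 106536) (nat_lit 11) (.e (nat_lit 16416) (nat_lit 3) (.e (nat_lit 204869) (nat_lit 29) (.e (nat_lit 360456) (nat_lit 0) .nil))))) .nil)) 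
(.lf (nat_lit 151656) (.g (nat_lit 1554) (.e (nat_lit 57385) (nat_lit 4) (.e (nat_lit 106536) (nat_lit 11) (.e (nat_lit 16433) (nat_lit 9) (.e (nat_lit 426556) (nat_lit 32) .nil)))) .nil)))) (.nd (nat_lit 5) (.nd (nat_lit 6) 
(.lf (nat_lit 151576) (.g (nat_lit 2111) (.e (nat_lit 57384) (nat_lit 4) (.e (nat_lit 106535) (nat_lit 11) (.e (nat_lit 16463) (nat_lit 13) (.e (nat_lit 483393) (nat_lit 23) (.e (nat_lit 335988) (nat_lit 1) .nil))))) .nil)) 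
(.lf (nat_lit 151640) (.g (nat_lit 2765) (.e (nat_lit 57385) (nat_lit 4) (.e (nat_lit 106536) (nat_lit 11) (.e (nat_lit 16412) (nat_lit 2) (.e (nat_lit 196673) (nat_lit 15) (.e (nat_lit 81959) (nat_lit 24) (.e (nat_lit 130816) (nat_lit 124) .nil)))))) (.g (nat_lit 4) .nil .nil)))) (.nd (nat_lit 6) 
(.lf (nat_lit 151608) (.g (nat_lit 2780) (.e (nat_lit 57385) (nat_lit 4) (.e (nat_lit 106534) (nat_lit 11) (.e (nat_lit 16425) (nat_lit 7) (.e (nat_lit 409648) (nat_lit 18) (.e (nat_lit 303137) (nat_lit 10) .nil))))) .nil)) 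
(.lf (nat_lit 151672) (.g (nat_lit 3129) (.e (nat_lit 57385) (nat_lit 4) (.e (nat_lit 106536) (nat_lit 11) (.e (nat_lit 16438) (nat_lit 9) (.e (nat_lit 426555) (nat_lit 32) (.e (nat_lit 376857) (nat_lit 21) (.e (nat_lit 57847) (nat_lit 252) .nil)))))) (.g (nat_lit 0) .nil .nil))))))) (.nd (nat_lit 3) (.nd (nat_lit 4) (.nd (nat_lit 5) (.nd (nat_lit 6) 
(.lf (nat_lit 151556) (.g (nat_lit 1338) (.e (nat_lit 57383) (nat_lit 4) (.e (nat_lit 106536) (nat_lit 11) (.e (nat_lit 16468) (nat_lit 13) (.e (nat_lit 483398) (nat_lit 25) .nil)))) .nil)) 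
(.lf (nat_lit 151620) (.g (nat_lit 2923) (.e (nat_lit 57385) (nat_lit 4) (.e (nat_lit 106534) (nat_lit 11) (.e (nat_lit 16438) (nat_lit 9) (.e (nat_lit 426542) (nat_lit 29) (.e (nat_lit 352307) (nat_lit 21) (.e (nat_lit 57849) (nat_lit 252) .nil)))))) (.g (nat_lit 0) .nil .nil)))) (.nd (nat_lit 6) 
(.lf (nat_lit 151588) (.g (nat_lit 3715) (.e (nat_lit 57384) (nat_lit 4) (.e (nat_lit 106536) (nat_lit 11) (.e (nat_lit 16416) (nat_lit 3) (.e (nat_lit 204869) (nat_lit 29) (.e (nat_lit 360448) (nat_lit 0) .nil))))) .nil)) 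
(.lf (nat_lit 151652) (.g (nat_lit 1625) (.e (nat_lit 57385) (nat_lit 4) (.e (nat_lit 106536) (nat_lit 11) (.e (nat_lit 16432) (nat_lit 9) (.e (nat_lit 426538) (nat_lit 29) (.e (nat_lit 352309) (nat_lit 21) .nil))))) .nil)))) (.nd (nat_lit 5) (.nd (nat_lit 6) 
(.lf (nat_lit 151572) (.g (nat_lit 2671) (.e (nat_lit 57384) (nat_lit 4) (.e (nat_lit 106534) (nat_lit 11) (.e (nat_lit 16467) (nat_lit 13) (.e (nat_lit 483393) (nat_lit 23) (.e (nat_lit 335988) (nat_lit 1) (.e (nat_lit 57852) (nat_lit 252) .nil)))))) (.g (nat_lit 6) .nil .nil))) 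
(.lf (nat_lit 151636) (.g (nat_lit 3488) (.e (nat_lit 57385) (nat_lit 4) (.e (nat_lit 106536) (nat_lit 11) (.e (nat_lit 16412) (nat_lit 2) (.e (nat_lit 196672) (nat_lit 15) (.e (nat_lit 81957) (nat_lit 24) (.e (nat_lit 130816) (nat_lit 124) .nil)))))) (.g (nat_lit 5) .nil .nil)))) (.nd (nat_lit 6) 
(.lf (nat_lit 151604) (.g (nat_lit 3019) (.e (nat_lit 57384) (nat_lit 4) (.e (nat_lit 106536) (nat_lit 11) (.e (nat_lit 16466) (nat_lit 13) (.e (nat_lit 483393) (nat_lit 23) (.e (nat_lit 335988) (nat_lit 1) (.e (nat_lit 57852) (nat_lit 252) .nil)))))) (.g (nat_lit 0) .nil .nil))) 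
(.lf (nat_lit 151668) (.g (nat_lit 3172) (.e (nat_lit 57385) (nat_lit 4) (.e (nat_lit 106536) (nat_lit 11) (.e (nat_lit 16438) (nat_lit 9) (.e (nat_lit 426542) (nat_lit 29) (.e (nat_lit 352309) (nat_lit 21) (.e (nat_lit 57848) (nat_lit 252) .nil)))))) (.g (nat_lit 6) .nil .nil)))))) (.nd (nat_lit 4) (.nd (nat_lit 5) (.nd (nat_lit 6) 
(.lf (nat_lit 151564) (.g (nat_lit 1347) (.e (nat_lit 57384) (nat_lit 4) (.e (nat_lit 106534) (nat_lit 11) (.e (nat_lit 16444) (nat_lit 9) (.e (nat_lit 426554) (nat_lit 32) .nil)))) .nil)) 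
(.lf (nat_lit 151628) (.g (nat_lit 2335) (.e (nat_lit 57385) (nat_lit 4) (.e (nat_lit 106534) (nat_lit 11) (.e (nat_lit 16468) (nat_lit 13) (.e (nat_lit 483391) (nat_lit 23) (.e (nat_lit 335998) (nat_lit 1) (.e (nat_lit 57849) (nat_lit 252) .nil)))))) (.g (nat_lit 0) .nil .nil)))) (.nd (nat_lit 6) 
(.lf (nat_lit 151596) (.g (nat_lit 890) (.e (nat_lit 57384) (nat_lit 4) (.e (nat_lit 106536) (nat_lit 11) (.e (nat_lit 16432) (nat_lit 9) .nil))) .nil)) 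
(.lf (nat_lit 151660) (.g (nat_lit 2892) (.e (nat_lit 57385) (nat_lit 4) (.e (nat_lit 106536) (nat_lit 11) (.e (nat_lit 16436) (nat_lit 9) (.e (nat_lit 426555) (nat_lit 32) (.e (nat_lit 376857) (nat_lit 21) (.e (nat_lit 57848) (nat_lit 252) .nil)))))) (.g (nat_lit 6) .nil .nil))))) (.nd (nat_lit 5) (.nd (nat_lit 6) 
(.lf (nat_lit 151580) (.g (nat_lit 2875) (.e (nat_lit 57384) (nat_lit 4) (.e (nat_lit 106536) (nat_lit 11) (.e (nat_lit 16412) (nat_lit 2) (.e (nat_lit 196672) (nat_lit 15) (.e (nat_lit 81957) (nat_lit 24) .nil))))) .nil)) 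
(.lf (nat_lit 151644) (.g (nat_lit 3121) (.e (nat_lit 57385) (nat_lit 4) (.e (nat_lit 106536) (nat_lit 11) (.e (nat_lit 16416) (nat_lit 3) (.e (nat_lit 204868) (nat_lit 29) (.e (nat_lit 360456) (nat_lit 0) .nil))))) .nil))) (.nd (nat_lit 6) 
(.lf (nat_lit 151612) (.g (nat_lit 727) (.e (nat_lit 57385) (nat_lit 4) (.e (nat_lit 106534) (nat_lit 11) (.e (nat_lit 16432) (nat_lit 9) .nil))) .nil)) 
(.lf (nat_lit 151676) (.g (nat_lit 1180) (.e (nat_lit 57385) (nat_lit 4) (.e (nat_lit 106536) (nat_lit 11) (.e (nat_lit 16462) (nat_lit 13) (.e (nat_lit 483393) (nat_lit 23) .nil)))) .nil))))))) (.nd (nat_lit 2) (.nd (nat_lit 3) (.nd (nat_lit 4) (.nd (nat_lit 5) (.nd (nat_lit 6) 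
(.lf (nat_lit 151554) (.g (nat_lit 1679) (.e (nat_lit 57383) (nat_lit 4) (.e (nat_lit 106536) (nat_lit 11) (.e (nat_lit 16468) (nat_lit 13) (.e (nat_lit 483395) (nat_lit 24) (.e (nat_lit 344097) (nat_lit 18) .nil))))) .nil)) 
(.lf (nat_lit 151618) (.g (nat_lit 2666) (.e (nat_lit 57385) (nat_lit 4) (.e (nat_lit 106534) (nat_lit 11) (.e (nat_lit 16435) (nat_lit 9) (.e (nat_lit 426555) (nat_lit 32) (.e (nat_lit 376859) (nat_lit 21) (.e (nat_lit 57847) (nat_lit 252) .nil)))))) (.g (nat_lit 5) .nil .nil)))) (.nd (nat_lit 6) 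
(.lf (nat_lit 151586) (.g (nat_lit 3246) (.e (nat_lit 57384) (nat_lit 4) (.e (nat_lit 106536) (nat_lit 11) (.e (nat_lit 16416) (nat_lit 3) (.e (nat_lit 204868) (nat_lit 29) (.e (nat_lit 360456) (nat_lit 0) .nil))))) .nil)) 
(.lf (nat_lit 151650) (.g (nat_lit 3223) (.e (nat_lit 57385) (nat_lit 4) (.e (nat_lit 106536) (nat_lit 11) (.e (nat_lit 16416) (nat_lit 3) (.e (nat_lit 204869) (nat_lit 29) (.e (nat_lit 368384) (nat_lit 0) (.e (nat_lit 4284) (nat_lit 253) .nil)))))) (.g (nat_lit 4) .nil .nil))))) (.nd (nat_lit 5) (.nd (nat_lit 6) 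
(.lf (nat_lit 151570) (.g (nat_lit 1845) (.e (nat_lit 57384) (nat_lit 4) (.e (nat_lit 106534) (nat_lit 11) (.e (nat_lit 16465) (nat_lit 13) (.e (nat_lit 483393) (nat_lit 23) (.e (nat_lit 335987) (nat_lit 1) .nil))))) .nil)) 
(.lf (nat_lit 151634) (.g (nat_lit 1357) (.e (nat_lit 57385) (nat_lit 4) (.e (nat_lit 106536) (nat_lit 11) (.e (nat_lit 16412) (nat_lit 2) .nil))) .nil))) (.nd (nat_lit 6) 
(.lf (nat_lit 151602) (.g (nat_lit 895) (.e (nat_lit 57384) (nat_lit 4) (.e (nat_lit 106536) (nat_lit 11) (.e (nat_lit 16444) (nat_lit 9) .nil))) .nil)) 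
(.lf (nat_lit 151666) (.g (nat_lit 329) (.e (nat_lit 57385) (nat_lit 4) (.e (nat_lit 106536) (nat_lit 11) (.e (nat_lit 16438) (nat_lit 9) .nil))) .nil))))) (.nd (nat_lit 4) (.nd (nat_lit 5) (.nd (nat_lit 6) 
(.lf (nat_lit 151562) (.g (nat_lit 2651) (.e (nat_lit 57384) (nat_lit 4) (.e (nat_lit 106534) (nat_lit 11) (.e (nat_lit 16435) (nat_lit 9) (.e (nat_lit 426555) (nat_lit 32) (.e (nat_lit 376858) (nat_lit 21) .nil))))) .nil)) 
(.lf (nat_lit 151626) (.g (nat_lit 322) (.e (nat_lit 57385) (nat_lit 4) (.e (nat_lit 106534) (nat_lit 11) (.e (nat_lit 16468) (nat_lit 13) .nil))) .nil))) (.nd (nat_lit 6) 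
(.lf (nat_lit 151594) (.g (nat_lit 3230) (.e (nat_lit 57384) (nat_lit 4) (.e (nat_lit 106536) (nat_lit 11) (.e (nat_lit 16416) (nat_lit 3) (.e (nat_lit 204869) (nat_lit 29) (.e (nat_lit 368384) (nat_lit 0) (.e (nat_lit 4284) (nat_lit 253) .nil)))))) (.g (nat_lit 4) .nil .nil))) 
(.lf (nat_lit 151658) (.g (nat_lit 1241) (.e (nat_lit 57385) (nat_lit 4) (.e (nat_lit 106536) (nat_lit 11) (.e (nat_lit 16435) (nat_lit 9) (.e (nat_lit 426542) (nat_lit 29) .nil)))) .nil)))) (.nd (nat_lit 5) (.nd (nat_lit 6) 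
(.lf (nat_lit 151578) (.g (nat_lit 1503) (.e (nat_lit 57384) (nat_lit 4) (.e (nat_lit 106535) (nat_lit 11) (.e (nat_lit 16465) (nat_lit 13) (.e (nat_lit 483393) (nat_lit 23) (.e (nat_lit 335987) (nat_lit 1) .nil))))) .nil)) 
(.lf (nat_lit 151642) (.g (nat_lit 1364) (.e (nat_lit 57385) (nat_lit 4) (.e (nat_lit 106536) (nat_lit 11) (.e (nat_lit 16416) (nat_lit 3) .nil))) .nil))) (.nd (nat_lit 6) 
(.lf (nat_lit 151610) (.g (nat_lit 2444) (.e (nat_lit 57385) (nat_lit 4) (.e (nat_lit 106534) (nat_lit 11) (.e (nat_lit 16425) (nat_lit 7) (.e (nat_lit 409649) (nat_lit 18) (.e (nat_lit 303140) (nat_lit 10) .nil))))) .nil)) 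
(.lf (nat_lit 151674) (.g (nat_lit 2990) (.e (nat_lit 57385) (nat_lit 4) (.e (nat_lit 106536) (nat_lit 11) (.e (nat_lit 16438) (nat_lit 9) (.e (nat_lit 426555) (nat_lit 32) (.e (nat_lit 376859) (nat_lit 21) (.e (nat_lit 57847) (nat_lit 252) .nil)))))) (.g (nat_lit 0) .nil .nil))))))) (.nd (nat_lit 3) (.nd (nat_lit 4) (.nd (nat_lit 5) (.nd (nat_lit 6) 
(.lf (nat_lit 151558) (.g (nat_lit 1895) (.e (nat_lit 57384) (nat_lit 4) (.e (nat_lit 106534) (nat_lit 11) (.e (nat_lit 16425) (nat_lit 7) (.e (nat_lit 409648) (nat_lit 18) .nil)))) .nil)) 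
(.lf (nat_lit 151622) (.g (nat_lit 1767) (.e (nat_lit 57385) (nat_lit 4) (.e (nat_lit 106534) (nat_lit 11) (.e (nat_lit 16462) (nat_lit 13) (.e (nat_lit 483393) (nat_lit 23) (.e (nat_lit 335986) (nat_lit 1) .nil))))) .nil))) (.nd (nat_lit 6) 
(.lf (nat_lit 151590) (.g (nat_lit 3636) (.e (nat_lit 57384) (nat_lit 4) (.e (nat_lit 106536) (nat_lit 11) (.e (nat_lit 16416) (nat_lit 3) (.e (nat_lit 204869) (nat_lit 29) (.e (nat_lit 360455) (nat_lit 0) .nil))))) .nil)) 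
(.lf (nat_lit 151654) (.g (nat_lit 2976) (.e (nat_lit 57385) (nat_lit 4) (.e (nat_lit 106536) (nat_lit 11) (.e (nat_lit 16433) (nat_lit 9) (.e (nat_lit 426555) (nat_lit 32) (.e (nat_lit 376857) (nat_lit 21) (.e (nat_lit 57847) (nat_lit 252) .nil)))))) (.g (nat_lit 0) .nil .nil))))) (.nd (nat_lit 5) (.nd (nat_lit 6) 
(.lf (nat_lit 151574) (.g (nat_lit 2020) (.e (nat_lit 57384) (nat_lit 4) (.e (nat_lit 106535) (nat_lit 11) (.e (nat_lit 16433) (nat_lit 9) (.e (nat_lit 426555) (nat_lit 32) (.e (nat_lit 376860) (nat_lit 21) .nil))))) .nil)) 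
(.lf (nat_lit 151638) (.g (nat_lit 2880) (.e (nat_lit 57385) (nat_lit 4) (.e (nat_lit 106536) (nat_lit 11) (.e (nat_lit 16412) (nat_lit 2) (.e (nat_lit 196672) (nat_lit 15) (.e (nat_lit 81959) (nat_lit 24) (.e (nat_lit 123023) (nat_lit 124) .nil)))))) (.g (nat_lit 4) .nil .nil)))) (.nd (nat_lit 6) 
(.lf (nat_lit 151606) (.g (nat_lit 2711) (.e (nat_lit 57384) (nat_lit 4) (.e (nat_lit 106536) (nat_lit 11) (.e (nat_lit 16467) (nat_lit 13) (.e (nat_lit 483393) (nat_lit 23) (.e (nat_lit 335988) (nat_lit 1) (.e (nat_lit 57852) (nat_lit 252) .nil)))))) (.g (nat_lit 6) .nil .nil))) 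
(.lf (nat_lit 151670) (.g (nat_lit 2525) (.e (nat_lit 57385) (nat_lit 4) (.e (nat_lit 106536) (nat_lit 11) (.e (nat_lit 16438) (nat_lit 9) (.e (nat_lit 426544) (nat_lit 30) (.e (nat_lit 360453) (nat_lit 0) (.e (nat_lit 5195) (nat_lit 294) .nil)))))) (.g (nat_lit 0) .nil .nil)))))) (.nd (nat_lit 4) (.nd (nat_lit 5) (.nd (nat_lit 6) 
(.lf (nat_lit 151566) (.g (nat_lit 1874) (.e (nat_lit 57384) (nat_lit 4) (.e (nat_lit 106534) (nat_lit 11) (.e (nat_lit 16462) (nat_lit 13) (.e (nat_lit 483393) (nat_lit 23) (.e (nat_lit 335988) (nat_lit 1) .nil))))) .nil)) 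
(.lf (nat_lit 151630) (.g (nat_lit 727) (.e (nat_lit 57385) (nat_lit 4) (.e (nat_lit 106534) (nat_lit 11) (.e (nat_lit 24320) (nat_lit 18) .nil))) .nil))) (.nd (nat_lit 6) 
(.lf (nat_lit 151598) (.g (nat_lit 514) (.e (nat_lit 57384) (nat_lit 4) (.e (nat_lit 106536) (nat_lit 11) (.e (nat_lit 16437) (nat_lit 9) .nil))) .nil)) 
(.lf (nat_lit 151662) (.g (nat_lit 2745) (.e (nat_lit 57385) (nat_lit 4) (.e (nat_lit 106536) (nat_lit 11) (.e (nat_lit 16436) (nat_lit 9) (.e (nat_lit 426555) (nat_lit 32) (.e (nat_lit 376859) (nat_lit 21) (.e (nat_lit 57848) (nat_lit 252) .nil)))))) (.g (nat_lit 6) .nil .nil))))) (.nd (nat_lit 5) (.nd (nat_lit 6) 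
(.lf (nat_lit 151582) (.g (nat_lit 2758) (.e (nat_lit 57384) (nat_lit 4) (.e (nat_lit 106536) (nat_lit 11) (.e (nat_lit 16412) (nat_lit 2) (.e (nat_lit 196673) (nat_lit 15) (.e (nat_lit 81959) (nat_lit 24) .nil))))) .nil)) 
(.lf (nat_lit 151646) (.g (nat_lit 4833) (.e (nat_lit 57385) (nat_lit 4) (.e (nat_lit 106536) (nat_lit 11) (.e (nat_lit 16416) (nat_lit 3) (.e (nat_lit 204869) (nat_lit 29) (.e (nat_lit 360450) (nat_lit 0) (.e (nat_lit 7936) (nat_lit 253) .nil)))))) (.g (nat_lit 5) .nil .nil)))) (.nd (nat_lit 6) 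
(.lf (nat_lit 151614) (.g (nat_lit 2081) (.e (nat_lit 57385) (nat_lit 4) (.e (nat_lit 106534) (nat_lit 11) (.e (nat_lit 16432) (nat_lit 9) (.e (nat_lit 426555) (nat_lit 32) (.e (nat_lit 376857) (nat_lit 21) .nil))))) .nil)) 
(.lf (nat_lit 151678) (.g (nat_lit 2261) (.e (nat_lit 57385) (nat_lit 4) (.e (nat_lit 106536) (nat_lit 11) (.e (nat_lit 16463) (nat_lit 13) (.e (nat_lit 483401) (nat_lit 25) .nil)))) .nil)))))))) (.nd (nat_lit 1) (.nd (nat_lit 2) (.nd (nat_lit 3) (.nd (nat_lit 4) (.nd (nat_lit 5) (.nd (nat_lit 6) 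
(.lf (nat_lit 151553) (.g (nat_lit 1661) (.e (nat_lit 57383) (nat_lit 4) (.e (nat_lit 106536) (nat_lit 11) (.e (nat_lit 16468) (nat_lit 13) (.e (nat_lit 483394) (nat_lit 24) (.e (nat_lit 344097) (nat_lit 18) .nil))))) .nil)) 
(.lf (nat_lit 151617) (.g (nat_lit 2388) (.e (nat_lit 57385) (nat_lit 4) (.e (nat_lit 106534) (nat_lit 11) (.e (nat_lit 16433) (nat_lit 9) (.e (nat_lit 426555) (nat_lit 32) (.e (nat_lit 376859) (nat_lit 21) .nil))))) .nil))) (.nd (nat_lit 6) 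
(.lf (nat_lit 151585) (.g (nat_lit 1436) (.e (nat_lit 57384) (nat_lit 4) (.e (nat_lit 106536) (nat_lit 11) (.e (nat_lit 16416) (nat_lit 3) .nil))) .nil)) 
(.lf (nat_lit 151649) (.g (nat_lit 3594) (.e (nat_lit 57385) (nat_lit 4) (.e (nat_lit 106536) (nat_lit 11) (.e (nat_lit 16416) (nat_lit 3) (.e (nat_lit 204869) (nat_lit 29) (.e (nat_lit 360457) (nat_lit 0) .nil))))) .nil)))) (.nd (nat_lit 5) (.nd (nat_lit 6) 
(.lf (nat_lit 151569) (.g (nat_lit 1241) (.e (nat_lit 57384) (nat_lit 4) (.e (nat_lit 106534) (nat_lit 11) (.e (nat_lit 16465) (nat_lit 13) (.e (nat_lit 483383) (nat_lit 23) .nil)))) .nil)) 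
(.lf (nat_lit 151633) (.g (nat_lit 891) (.e (nat_lit 57385) (nat_lit 4) (.e (nat_lit 106536) (nat_lit 11) (.e (nat_lit 16405) (nat_lit 1) .nil))) .nil))) (.nd (nat_lit 6) 
(.lf (nat_lit 151601) (.g (nat_lit 3447) (.e (nat_lit 57384) (nat_lit 4) (.e (nat_lit 106536) (nat_lit 11) (.e (nat_lit 16438) (nat_lit 9) (.e (nat_lit 426555) (nat_lit 32) (.e (nat_lit 376860) (nat_lit 21) (.e (nat_lit 57852) (nat_lit 252) .nil)))))) (.g (nat_lit 0) .nil .nil))) 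
(.lf (nat_lit 151665) (.g (nat_lit 2067) (.e (nat_lit 57385) (nat_lit 4) (.e (nat_lit 106536) (nat_lit 11) (.e (nat_lit 16437) (nat_lit 9) (.e (nat_lit 426546) (nat_lit 30) (.e (nat_lit 360452) (nat_lit 0) (.e (nat_lit 5195) (nat_lit 294) .nil)))))) (.g (nat_lit 0) .nil .nil)))))) (.nd (nat_lit 4) (.nd (nat_lit 5) (.nd (nat_lit 6) 
(.lf (nat_lit 151561) (.g (nat_lit 3257) (.e (nat_lit 57384) (nat_lit 4) (.e (nat_lit 106534) (nat_lit 11) (.e (nat_lit 16434) (nat_lit 9) (.e (nat_lit 426555) (nat_lit 32) (.e (nat_lit 376860) (nat_lit 21) (.e (nat_lit 57852) (nat_lit 252) .nil)))))) (.g (nat_lit 5) .nil .nil))) 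
(.lf (nat_lit 151625) (.g (nat_lit 2502) (.e (nat_lit 57385) (nat_lit 4) (.e (nat_lit 106534) (nat_lit 11) (.e (nat_lit 16467) (nat_lit 13) (.e (nat_lit 483393) (nat_lit 23) (.e (nat_lit 335986) (nat_lit 1) (.e (nat_lit 57847) (nat_lit 252) .nil)))))) (.g (nat_lit 6) .nil .nil)))) (.nd (nat_lit 6) 
(.lf (nat_lit 151593) (.g (nat_lit 3698) (.e (nat_lit 57384) (nat_lit 4) (.e (nat_lit 106536) (nat_lit 11) (.e (nat_lit 16416) (nat_lit 3) (.e (nat_lit 204869) (nat_lit 29) (.e (nat_lit 360457) (nat_lit 0) .nil))))) .nil)) 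
(.lf (nat_lit 151657) (.g (nat_lit 2896) (.e (nat_lit 57385) (nat_lit 4) (.e (nat_lit 106536) (nat_lit 11) (.e (nat_lit 16434) (nat_lit 9) (.e (nat_lit 426555) (nat_lit 32) (.e (nat_lit 376859) (nat_lit 21) (.e (nat_lit 57847) (nat_lit 252) .nil)))))) (.g (nat_lit 5) .nil .nil))))) (.nd (nat_lit 5) (.nd (nat_lit 6) 
(.lf (nat_lit 151577) (.g (nat_lit 2121) (.e (nat_lit 57384) (nat_lit 4) (.e (nat_lit 106535) (nat_lit 11) (.e (nat_lit 16463) (nat_lit 13) (.e (nat_lit 483393) (nat_lit 23) (.e (nat_lit 335996) (nat_lit 1) .nil))))) .nil)) 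
(.lf (nat_lit 151641) (.g (nat_lit 2950) (.e (nat_lit 57385) (nat_lit 4) (.e (nat_lit 106536) (nat_lit 11) (.e (nat_lit 16412) (nat_lit 2) (.e (nat_lit 196674) (nat_lit 15) (.e (nat_lit 81957) (nat_lit 24) .nil))))) .nil))) (.nd (nat_lit 6) 
(.lf (nat_lit 151609) (.g (nat_lit 2556) (.e (nat_lit 57385) (nat_lit 4) (.e (nat_lit 106534) (nat_lit 11) (.e (nat_lit 16425) (nat_lit 7) (.e (nat_lit 409649) (nat_lit 18) (.e (nat_lit 303132) (nat_lit 9) .nil))))) .nil)) 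
(.lf (nat_lit 151673) (.g (nat_lit 2971) (.e (nat_lit 57385) (nat_lit 4) (.e (nat_lit 106536) (nat_lit 11) (.e (nat_lit 16438) (nat_lit 9) (.e (nat_lit 426555) (nat_lit 32) (.e (nat_lit 376857) (nat_lit 21) (.e (nat_lit 57848) (nat_lit 252) .nil)))))) (.g (nat_lit 0) .nil .nil))))))) (.nd (nat_lit 3) (.nd (nat_lit 4) (.nd (nat_lit 5) (.nd (nat_lit 6) 
(.lf (nat_lit 151557) (.g (nat_lit 1551) (.e (nat_lit 57383) (nat_lit 4) (.e (nat_lit 106536) (nat_lit 11) (.e (nat_lit 16468) (nat_lit 13) (.e (nat_lit 483399) (nat_lit 25) (.e (nat_lit 368662) (nat_lit 18) .nil))))) .nil)) 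
(.lf (nat_lit 151621) (.g (nat_lit 727) (.e (nat_lit 57385) (nat_lit 4) (.e (nat_lit 106534) (nat_lit 11) (.e (nat_lit 16444) (nat_lit 9) .nil))) .nil))) (.nd (nat_lit 6) 
(.lf (nat_lit 151589) (.g (nat_lit 4940) (.e (nat_lit 57384) (nat_lit 4) (.e (nat_lit 106536) (nat_lit 11) (.e (nat_lit 16416) (nat_lit 3) (.e (nat_lit 204869) (nat_lit 29) (.e (nat_lit 360450) (nat_lit 0) (.e (nat_lit 7936) (nat_lit 253) .nil)))))) (.g (nat_lit 5) .nil .nil))) 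
(.lf (nat_lit 151653) (.g (nat_lit 2268) (.e (nat_lit 57385) (nat_lit 4) (.e (nat_lit 106536) (nat_lit 11) (.e (nat_lit 16433) (nat_lit 9) (.e (nat_lit 426544) (nat_lit 30) (.e (nat_lit 360453) (nat_lit 0) .nil))))) .nil)))) (.nd (nat_lit 5) (.nd (nat_lit 6) 
(.lf (nat_lit 151573) (.g (nat_lit 743) (.e (nat_lit 57384) (nat_lit 4) (.e (nat_lit 106534) (nat_lit 11) (.e (nat_lit 16475) (nat_lit 15) .nil))) .nil)) 
(.lf (nat_lit 151637) (.g (nat_lit 2876) (.e (nat_lit 57385) (nat_lit 4) (.e (nat_lit 106536) (nat_lit 11) (.e (nat_lit 16412) (nat_lit 2) (.e (nat_lit 196672) (nat_lit 15) (.e (nat_lit 81959) (nat_lit 24) .nil))))) .nil))) (.nd (nat_lit 6) 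
(.lf (nat_lit 151605) (.g (nat_lit 2152) (.e (nat_lit 57384) (nat_lit 4) (.e (nat_lit 106536) (nat_lit 11) (.e (nat_lit 16467) (nat_lit 13) (.e (nat_lit 483393) (nat_lit 23) (.e (nat_lit 335987) (nat_lit 1) (.e (nat_lit 57852) (nat_lit 252) .nil)))))) (.g (nat_lit 6) .nil .nil))) 
(.lf (nat_lit 151669) (.g (nat_lit 960) (.e (nat_lit 57385) (nat_lit 4) (.e (nat_lit 106536) (nat_lit 11) (.e (nat_lit 16438) (nat_lit 9) (.e (nat_lit 426544) (nat_lit 30) .nil)))) .nil))))) (.nd (nat_lit 4) (.nd (nat_lit 5) (.nd (nat_lit 6) 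
(.lf (nat_lit 151565) (.g (nat_lit 1869) (.e (nat_lit 57384) (nat_lit 4) (.e (nat_lit 106534) (nat_lit 11) (.e (nat_lit 16462) (nat_lit 13) (.e (nat_lit 483393) (nat_lit 23) (.e (nat_lit 335987) (nat_lit 1) .nil))))) .nil)) 
(.lf (nat_lit 151629) (.g (nat_lit 906) (.e (nat_lit 57385) (nat_lit 4) (.e (nat_lit 106534) (nat_lit 11) (.e (nat_lit 16475) (nat_lit 15) (.e (nat_lit 1796) (nat_lit 119) .nil)))) .nil))) (.nd (nat_lit 6) 
(.lf (nat_lit 151597) (.g (nat_lit 2254) (.e (nat_lit 57384) (nat_lit 4) (.e (nat_lit 106536) (nat_lit 11) (.e (nat_lit 16435) (nat_lit 9) (.e (nat_lit 426555) (nat_lit 32) (.e (nat_lit 376858) (nat_lit 21) .nil))))) .nil)) 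
(.lf (nat_lit 151661) (.g (nat_lit 2869) (.e (nat_lit 57385) (nat_lit 4) (.e (nat_lit 106536) (nat_lit 11) (.e (nat_lit 16436) (nat_lit 9) (.e (nat_lit 426555) (nat_lit 32) (.e (nat_lit 376859) (nat_lit 21) (.e (nat_lit 57847) (nat_lit 252) .nil)))))) (.g (nat_lit 0) .nil .nil))))) (.nd (nat_lit 5) (.nd (nat_lit 6) 
(.lf (nat_lit 151581) (.g (nat_lit 2925) (.e (nat_lit 57384) (nat_lit 4) (.e (nat_lit 106536) (nat_lit 11) (.e (nat_lit 16412) (nat_lit 2) (.e (nat_lit 196672) (nat_lit 15) (.e (nat_lit 81959) (nat_lit 24) .nil))))) .nil)) 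
(.lf (nat_lit 151645) (.g (nat_lit 3611) (.e (nat_lit 57385) (nat_lit 4) (.e (nat_lit 106536) (nat_lit 11) (.e (nat_lit 16416) (nat_lit 3) (.e (nat_lit 204869) (nat_lit 29) (.e (nat_lit 360448) (nat_lit 0) .nil))))) .nil))) (.nd (nat_lit 6) 
(.lf (nat_lit 151613) (.g (nat_lit 1161) (.e (nat_lit 57385) (nat_lit 4) (.e (nat_lit 106534) (nat_lit 11) (.e (nat_lit 16432) (nat_lit 9) (.e (nat_lit 426543) (nat_lit 29) .nil)))) .nil)) 
(.lf (nat_lit 151677) (.g (nat_lit 2261) (.e (nat_lit 57385) (nat_lit 4) (.e (nat_lit 106536) (nat_lit 11) (.e (nat_lit 16463) (nat_lit 13) (.e (nat_lit 483392) (nat_lit 23) .nil)))) .nil))))))) (.nd (nat_lit 2) (.nd (nat_lit 3) (.nd (nat_lit 4) (.nd (nat_lit 5) (.nd (nat_lit 6) 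
(.lf (nat_lit 151555) (.g (nat_lit 1551) (.e (nat_lit 57383) (nat_lit 4) (.e (nat_lit 106536) (nat_lit 11) (.e (nat_lit 16468) (nat_lit 13) (.e (nat_lit 483396) (nat_lit 24) .nil)))) .nil)) 
(.lf (nat_lit 151619) (.g (nat_lit 2051) (.e (nat_lit 57385) (nat_lit 4) (.e (nat_lit 106534) (nat_lit 11) (.e (nat_lit 16437) (nat_lit 9) (.e (nat_lit 426546) (nat_lit 30) (.e (nat_lit 360452) (nat_lit 0) (.e (nat_lit 5195) (nat_lit 294) .nil)))))) (.g (nat_lit 6) .nil .nil)))) (.nd (nat_lit 6) 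
(.lf (nat_lit 151587) (.g (nat_lit 3416) (.e (nat_lit 57384) (nat_lit 4) (.e (nat_lit 106536) (nat_lit 11) (.e (nat_lit 16416) (nat_lit 3) (.e (nat_lit 204868) (nat_lit 29) (.e (nat_lit 368384) (nat_lit 0) (.e (nat_lit 4284) (nat_lit 253) .nil)))))) (.g (nat_lit 4) .nil .nil))) 
(.lf (nat_lit 151651) (.g (nat_lit 868) (.e (nat_lit 57385) (nat_lit 4) (.e (nat_lit 106536) (nat_lit 11) (.e (nat_lit 16432) (nat_lit 9) .nil))) .nil)))) (.nd (nat_lit 5) (.nd (nat_lit 6) 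
(.lf (nat_lit 151571) (.g (nat_lit 2820) (.e (nat_lit 57384) (nat_lit 4) (.e (nat_lit 106534) (nat_lit 11) (.e (nat_lit 16466) (nat_lit 13) (.e (nat_lit 483393) (nat_lit 23) (.e (nat_lit 335988) (nat_lit 1) (.e (nat_lit 57852) (nat_lit 252) .nil)))))) (.g (nat_lit 6) .nil .nil))) 
(.lf (nat_lit 151635) (.g (nat_lit 2169) (.e (nat_lit 57385) (nat_lit 4) (.e (nat_lit 106536) (nat_lit 11) (.e (nat_lit 16412) (nat_lit 2) (.e (nat_lit 196672) (nat_lit 15) .nil)))) .nil))) (.nd (nat_lit 6) 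
(.lf (nat_lit 151603) (.g (nat_lit 1775) (.e (nat_lit 57384) (nat_lit 4) (.e (nat_lit 106536) (nat_lit 11) (.e (nat_lit 16464) (nat_lit 13) (.e (nat_lit 483393) (nat_lit 23) (.e (nat_lit 335987) (nat_lit 1) .nil))))) .nil)) 
(.lf (nat_lit 151667) (.g (nat_lit 2917) (.e (nat_lit 57385) (nat_lit 4) (.e (nat_lit 106536) (nat_lit 11) (.e (nat_lit 16438) (nat_lit 9) (.e (nat_lit 426542) (nat_lit 29) (.e (nat_lit 352307) (nat_lit 21) (.e (nat_lit 57848) (nat_lit 252) .nil)))))) (.g (nat_lit 0) .nil .nil)))))) (.nd (nat_lit 4) (.nd (nat_lit 5) (.nd (nat_lit 6) 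
(.lf (nat_lit 151563) (.g (nat_lit 419) (.e (nat_lit 57384) (nat_lit 4) (.e (nat_lit 106534) (nat_lit 11) (.e (nat_lit 16437) (nat_lit 9) .nil))) .nil)) 
(.lf (nat_lit 151627) (.g (nat_lit 1352) (.e (nat_lit 57385) (nat_lit 4) (.e (nat_lit 106534) (nat_lit 11) (.e (nat_lit 16468) (nat_lit 13) (.e (nat_lit 483386) (nat_lit 23) (.e (nat_lit 335985) (nat_lit 1) .nil))))) .nil))) (.nd (nat_lit 6) 
(.lf (nat_lit 151595) (.g (nat_lit 2944) (.e (nat_lit 57384) (nat_lit 4) (.e (nat_lit 106536) (nat_lit 11) (.e (nat_lit 16431) (nat_lit 9) (.e (nat_lit 426555) (nat_lit 32) (.e (nat_lit 376860) (nat_lit 21) .nil))))) .nil)) 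
(.lf (nat_lit 151659) (.g (nat_lit 1821) (.e (nat_lit 57385) (nat_lit 4) (.e (nat_lit 106536) (nat_lit 11) (.e (nat_lit 16435) (nat_lit 9) (.e (nat_lit 426544) (nat_lit 30) (.e (nat_lit 360453) (nat_lit 0) (.e (nat_lit 5195) (nat_lit 294) .nil)))))) (.g (nat_lit 4) .nil .nil))))) (.nd (nat_lit 5) (.nd (nat_lit 6) 
(.lf (nat_lit 151579) (.g (nat_lit 1431) (.e (nat_lit 57384) (nat_lit 4) (.e (nat_lit 106536) (nat_lit 11) (.e (nat_lit 16412) (nat_lit 2) .nil))) .nil)) 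
(.lf (nat_lit 151643) (.g (nat_lit 3001) (.e (nat_lit 57385) (nat_lit 4) (.e (nat_lit 106536) (nat_lit 11) (.e (nat_lit 16416) (nat_lit 3) (.e (nat_lit 204868) (nat_lit 29) (.e (nat_lit 360455) (nat_lit 0) .nil))))) .nil))) (.nd (nat_lit 6) 
(.lf (nat_lit 151611) (.g (nat_lit 2512) (.e (nat_lit 57385) (nat_lit 4) (.e (nat_lit 106534) (nat_lit 11) (.e (nat_lit 16425) (nat_lit 7) (.e (nat_lit 409649) (nat_lit 18) (.e (nat_lit 303140) (nat_lit 10) (.e (nat_lit 434216) (nat_lit 18) (.e (nat_lit 5566) (nat_lit 308) .nil))))))) (.g (nat_lit 4) .nil .nil))) 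
(.lf (nat_lit 151675) (.g (nat_lit 2871) (.e (nat_lit 57385) (nat_lit 4) (.e (nat_lit 106536) (nat_lit 11) (.e (nat_lit 16438) (nat_lit 9) (.e (nat_lit 426555) (nat_lit 32) (.e (nat_lit 376859) (nat_lit 21) (.e (nat_lit 57848) (nat_lit 252) .nil)))))) (.g (nat_lit 0) .nil .nil))))))) (.nd (nat_lit 3) (.nd (nat_lit 4) (.nd (nat_lit 5) (.nd (nat_lit 6) 
(.lf (nat_lit 151559) (.g (nat_lit 2482) (.e (nat_lit 57384) (nat_lit 4) (.e (nat_lit 106534) (nat_lit 11) (.e (nat_lit 16425) (nat_lit 7) (.e (nat_lit 409649) (nat_lit 18) (.e (nat_lit 303140) (nat_lit 10) .nil))))) .nil)) 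
(.lf (nat_lit 151623) (.g (nat_lit 2202) (.e (nat_lit 57385) (nat_lit 4) (.e (nat_lit 106534) (nat_lit 11) (.e (nat_lit 16463) (nat_lit 13) (.e (nat_lit 483393) (nat_lit 23) (.e (nat_lit 335986) (nat_lit 1) .nil))))) .nil))) (.nd (nat_lit 6) 
(.lf (nat_lit 151591) (.g (nat_lit 3671) (.e (nat_lit 57384) (nat_lit 4) (.e (nat_lit 106536) (nat_lit 11) (.e (nat_lit 16416) (nat_lit 3) (.e (nat_lit 204869) (nat_lit 29) (.e (nat_lit 360455) (nat_lit 0) (.e (nat_lit 4282) (nat_lit 253) .nil)))))) (.g (nat_lit 4) .nil .nil))) 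
(.lf (nat_lit 151655) (.g (nat_lit 2837) (.e (nat_lit 57385) (nat_lit 4) (.e (nat_lit 106536) (nat_lit 11) (.e (nat_lit 16433) (nat_lit 9) (.e (nat_lit 426555) (nat_lit 32) (.e (nat_lit 376859) (nat_lit 21) (.e (nat_lit 57847) (nat_lit 252) .nil)))))) (.g (nat_lit 0) .nil .nil))))) (.nd (nat_lit 5) (.nd (nat_lit 6) 
(.lf (nat_lit 151575) (.g (nat_lit 1330) (.e (nat_lit 57384) (nat_lit 4) (.e (nat_lit 106535) (nat_lit 11) (.e (nat_lit 16463) (nat_lit 13) (.e (nat_lit 483393) (nat_lit 23) .nil)))) .nil)) 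
(.lf (nat_lit 151639) (.g (nat_lit 2800) (.e (nat_lit 57385) (nat_lit 4) (.e (nat_lit 106536) (nat_lit 11) (.e (nat_lit 16412) (nat_lit 2) (.e (nat_lit 196673) (nat_lit 15) (.e (nat_lit 81959) (nat_lit 24) (.e (nat_lit 123023) (nat_lit 124) .nil)))))) (.g (nat_lit 4) .nil .nil)))) (.nd (nat_lit 6) 
(.lf (nat_lit 151607) (.g (nat_lit 861) (.e (nat_lit 57384) (nat_lit 4) (.e (nat_lit 106536) (nat_lit 11) (.e (nat_lit 24320) (nat_lit 18) .nil))) .nil)) 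
(.lf (nat_lit 151671) (.g (nat_lit 1275) (.e (nat_lit 57385) (nat_lit 4) (.e (nat_lit 106536) (nat_lit 11) (.e (nat_lit 16438) (nat_lit 9) (.e (nat_lit 426546) (nat_lit 30) (.e (nat_lit 360452) (nat_lit 0) (.e (nat_lit 5193) (nat_lit 294) .nil)))))) (.g (nat_lit 4) .nil .nil)))))) (.nd (nat_lit 4) (.nd (nat_lit 5) (.nd (nat_lit 6) 
(.lf (nat_lit 151567) (.g (nat_lit 2210) (.e (nat_lit 57384) (nat_lit 4) (.e (nat_lit 106534) (nat_lit 11) (.e (nat_lit 16463) (nat_lit 13) (.e (nat_lit 483393) (nat_lit 23) (.e (nat_lit 335987) (nat_lit 1) .nil))))) .nil)) 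
(.lf (nat_lit 151631) (.g (nat_lit 935) (.e (nat_lit 57385) (nat_lit 4) (.e (nat_lit 106535) (nat_lit 11) (.e (nat_lit 16435) (nat_lit 9) (.e (nat_lit 426555) (nat_lit 32) .nil)))) .nil))) (.nd (nat_lit 6) 
(.lf (nat_lit 151599) (.g (nat_lit 3144) (.e (nat_lit 57384) (nat_lit 4) (.e (nat_lit 106536) (nat_lit 11) (.e (nat_lit 16437) (nat_lit 9) (.e (nat_lit 426555) (nat_lit 32) (.e (nat_lit 376860) (nat_lit 21) (.e (nat_lit 57852) (nat_lit 252) .nil)))))) (.g (nat_lit 6) .nil .nil))) 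
(.lf (nat_lit 151663) (.g (nat_lit 2630) (.e (nat_lit 57385) (nat_lit 4) (.e (nat_lit 106536) (nat_lit 11) (.e (nat_lit 16437) (nat_lit 9) (.e (nat_lit 426538) (nat_lit 29) (.e (nat_lit 352309) (nat_lit 21) (.e (nat_lit 57848) (nat_lit 252) .nil)))))) (.g (nat_lit 6) .nil .nil))))) (.nd (nat_lit 5) (.nd (nat_lit 6) 
(.lf (nat_lit 151583) (.g (nat_lit 2935) (.e (nat_lit 57384) (nat_lit 4) (.e (nat_lit 106536) (nat_lit 11) (.e (nat_lit 16412) (nat_lit 2) (.e (nat_lit 196674) (nat_lit 15) (.e (nat_lit 81959) (nat_lit 24) .nil))))) .nil)) 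
(.lf (nat_lit 151647) (.g (nat_lit 3532) (.e (nat_lit 57385) (nat_lit 4) (.e (nat_lit 106536) (nat_lit 11) (.e (nat_lit 16416) (nat_lit 3) (.e (nat_lit 204869) (nat_lit 29) (.e (nat_lit 360455) (nat_lit 0) .nil))))) .nil))) (.nd (nat_lit 6) 
(.lf (nat_lit 151615) (.g (nat_lit 2090) (.e (nat_lit 57385) (nat_lit 4) (.e (nat_lit 106534) (nat_lit 11) (.e (nat_lit 16432) (nat_lit 9) (.e (nat_lit 426555) (nat_lit 32) (.e (nat_lit 376859) (nat_lit 21) .nil))))) .nil)) 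
(.lf (nat_lit 151679) (.g (nat_lit 2529) (.e (nat_lit 57385) (nat_lit 4) (.e (nat_lit 106536) (nat_lit 11) (.e (nat_lit 16464) (nat_lit 13) (.e (nat_lit 483383) (nat_lit 23) (.e (nat_lit 336000) (nat_lit 1) .nil))))) .nil)))))))))

noncomputable def tv2022 : DT := (.nd (nat_lit 0) (.nd (nat_lit 1) (.nd (nat_lit 2) (.nd (nat_lit 3) (.nd (nat_lit 4) (.nd (nat_lit 5) 
(.lf (nat_lit 151680) (.g (nat_lit 2850) (.e (nat_lit 57385) (nat_lit 4) (.e (nat_lit 106536) (nat_lit 11) (.e (nat_lit 16466) (nat_lit 13) (.e (nat_lit 483393) (nat_lit 23) (.e (nat_lit 335986) (nat_lit 1) (.e (nat_lit 57847) (nat_lit 252) .nil)))))) (.g (nat_lit 0) .nil .nil))) 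
(.lf (nat_lit 151712) (.g (nat_lit 659) (.e (nat_lit 57386) (nat_lit 4) (.e (nat_lit 106534) (nat_lit 11) (.e (nat_lit 16444) (nat_lit 9) .nil))) .nil))) (.nd (nat_lit 5) 
(.lf (nat_lit 151696) (.g (nat_lit 2580) (.e (nat_lit 57386) (nat_lit 4) (.e (nat_lit 106534) (nat_lit 11) (.e (nat_lit 16425) (nat_lit 7) (.e (nat_lit 409649) (nat_lit 18) (.e (nat_lit 303132) (nat_lit 9) (.e (nat_lit 426025) (nat_lit 0) (.e (nat_lit 2400) (nat_lit 157) (.e (nat_lit 5569) (nat_lit 308) .nil)))))))) (.g (nat_lit 4) .nil .nil))) 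
(.lf (nat_lit 151728) (.g (nat_lit 1068) (.e (nat_lit 57386) (nat_lit 4) (.e (nat_lit 106535) (nat_lit 11) (.e (nat_lit 16468) (nat_lit 13) (.e (nat_lit 483395) (nat_lit 24) (.e (nat_lit 344097) (nat_lit 18) .nil))))) .nil)))) (.nd (nat_lit 4) (.nd (nat_lit 5) 
(.lf (nat_lit 151688) (.g (nat_lit 2402) (.e (nat_lit 57385) (nat_lit 4) (.e (nat_lit 106536) (nat_lit 11) (.e (nat_lit 16468) (nat_lit 13) (.e (nat_lit 483395) (nat_lit 24) (.e (nat_lit 344097) (nat_lit 18) (.e (nat_lit 5195) (nat_lit 294) .nil)))))) (.g (nat_lit 0) .nil .nil))) 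
(.lf (nat_lit 151720) (.g (nat_lit 2005) (.e (nat_lit 57386) (nat_lit 4) (.e (nat_lit 106535) (nat_lit 11) (.e (nat_lit 16433) (nat_lit 9) (.e (nat_lit 426555) (nat_lit 32) (.e (nat_lit 376859) (nat_lit 21) .nil))))) .nil))) (.nd (nat_lit 5) 
(.lf (nat_lit 151704) (.g (nat_lit 2644) (.e (nat_lit 57386) (nat_lit 4) (.e (nat_lit 106534) (nat_lit 11) (.e (nat_lit 16437) (nat_lit 9) (.e (nat_lit 426538) (nat_lit 29) (.e (nat_lit 352309) (nat_lit 21) (.e (nat_lit 57848) (nat_lit 252) .nil)))))) (.g (nat_lit 6) .nil .nil))) 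
(.lf (nat_lit 151736) (.g (nat_lit 2965) (.e (nat_lit 57386) (nat_lit 4) (.e (nat_lit 106536) (nat_lit 11) (.e (nat_lit 16412) (nat_lit 2) (.e (nat_lit 196672) (nat_lit 15) (.e (nat_lit 81959) (nat_lit 24) (.e (nat_lit 123023) (nat_lit 124) .nil)))))) (.g (nat_lit 4) .nil .nil)))))) (.nd (nat_lit 3) (.nd (nat_lit 4) (.nd (nat_lit 5) 
(.lf (nat_lit 151684) (.g (nat_lit 2129) (.e (nat_lit 57385) (nat_lit 4) (.e (nat_lit 106536) (nat_lit 11) (.e (nat_lit 16468) (nat_lit 13) (.e (nat_lit 483378) (nat_lit 23) (.e (nat_lit 335997) (nat_lit 1) (.e (nat_lit 57848) (nat_lit 252) .nil)))))) (.g (nat_lit 0) .nil .nil))) 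
(.lf (nat_lit 151716) (.g (nat_lit 2571) (.e (nat_lit 57386) (nat_lit 4) (.e (nat_lit 106534) (nat_lit 11) (.e (nat_lit 16467) (nat_lit 13) (.e (nat_lit 483393) (nat_lit 23) (.e (nat_lit 335986) (nat_lit 1) (.e (nat_lit 57847) (nat_lit 252) .nil)))))) (.g (nat_lit 6) .nil .nil)))) (.nd (nat_lit 5) 
(.lf (nat_lit 151700) (.g (nat_lit 3024) (.e (nat_lit 57386) (nat_lit 4) (.e (nat_lit 106534) (nat_lit 11) (.e (nat_lit 16434) (nat_lit 9) (.e (nat_lit 426555) (nat_lit 32) (.e (nat_lit 376857) (nat_lit 21) (.e (nat_lit 57847) (nat_lit 252) .nil)))))) (.g (nat_lit 5) .nil .nil))) 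
(.lf (nat_lit 151732) (.g (nat_lit 1120) (.e (nat_lit 57386) (nat_lit 4) (.e (nat_lit 106536) (nat_lit 11) (.e (nat_lit 16412) (nat_lit 2) .nil))) .nil)))) (.nd (nat_lit 4) (.nd (nat_lit 5) 
(.lf (nat_lit 151692) (.g (nat_lit 699) (.e (nat_lit 57386) (nat_lit 4) (.e (nat_lit 106534) (nat_lit 11) (.e (nat_lit 16425) (nat_lit 7) .nil))) .nil)) 
(.lf (nat_lit 151724) (.g (nat_lit 765) (.e (nat_lit 57386) (nat_lit 4) (.e (nat_lit 106535) (nat_lit 11) (.e (nat_lit 16438) (nat_lit 9) (.e (nat_lit 426555) (nat_lit 32) .nil)))) .nil))) (.nd (nat_lit 5) 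
(.lf (nat_lit 151708) (.g (nat_lit 1266) (.e (nat_lit 57386) (nat_lit 4) (.e (nat_lit 106534) (nat_lit 11) (.e (nat_lit 16438) (nat_lit 9) (.e (nat_lit 426544) (nat_lit 30) (.e (nat_lit 368384) (nat_lit 0) .nil))))) .nil)) 
(.lf (nat_lit 151740) (.g (nat_lit 2660) (.e (nat_lit 57386) (nat_lit 4) (.e (nat_lit 106536) (nat_lit 11) (.e (nat_lit 16412) (nat_lit 2) (.e (nat_lit 196674) (nat_lit 15) (.e (nat_lit 81957) (nat_lit 24) .nil))))) .nil)))))) (.nd (nat_lit 2) (.nd (nat_lit 3) (.nd (nat_lit 4) (.nd (nat_lit 5) 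
(.lf (nat_lit 151682) (.g (nat_lit 2284) (.e (nat_lit 57385) (nat_lit 4) (.e (nat_lit 106536) (nat_lit 11) (.e (nat_lit 16467) (nat_lit 13) (.e (nat_lit 483395) (nat_lit 24) (.e (nat_lit 344097) (nat_lit 18) (.e (nat_lit 5194) (nat_lit 294) .nil)))))) (.g (nat_lit 6) .nil .nil))) 
(.lf (nat_lit 151714) (.g (nat_lit 2427) (.e (nat_lit 57386) (nat_lit 4) (.e (nat_lit 106534) (nat_lit 11) (.e (nat_lit 16464) (nat_lit 13) (.e (nat_lit 483383) (nat_lit 23) (.e (nat_lit 336000) (nat_lit 1) .nil))))) .nil))) (.nd (nat_lit 5) 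
(.lf (nat_lit 151698) (.g (nat_lit 2399) (.e (nat_lit 57386) (nat_lit 4) (.e (nat_lit 106534) (nat_lit 11) (.e (nat_lit 16425) (nat_lit 7) (.e (nat_lit 409649) (nat_lit 18) (.e (nat_lit 303140) (nat_lit 10) (.e (nat_lit 434200) (nat_lit 18) (.e (nat_lit 5565) (nat_lit 308) .nil))))))) (.g (nat_lit 4) .nil .nil))) 
(.lf (nat_lit 151730) (.g (nat_lit 1198) (.e (nat_lit 57386) (nat_lit 4) (.e (nat_lit 106536) (nat_lit 11) (.e (nat_lit 16387) (nat_lit 0) (.e (nat_lit 3276) (nat_lit 200) .nil)))) .nil)))) (.nd (nat_lit 4) (.nd (nat_lit 5) 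
(.lf (nat_lit 151690) (.g (nat_lit 1432) (.e (nat_lit 57386) (nat_lit 4) (.e (nat_lit 106534) (nat_lit 11) (.e (nat_lit 16392) (nat_lit 0) (.e (nat_lit 7936) (nat_lit 200) .nil)))) .nil)) 
(.lf (nat_lit 151722) (.g (nat_lit 2837) (.e (nat_lit 57386) (nat_lit 4) (.e (nat_lit 106535) (nat_lit 11) (.e (nat_lit 16435) (nat_lit 9) (.e (nat_lit 426555) (nat_lit 32) (.e (nat_lit 376857) (nat_lit 21) (.e (nat_lit 57847) (nat_lit 252) .nil)))))) (.g (nat_lit 6) .nil .nil)))) (.nd (nat_lit 5) 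
(.lf (nat_lit 151706) (.g (nat_lit 2077) (.e (nat_lit 57386) (nat_lit 4) (.e (nat_lit 106534) (nat_lit 11) (.e (nat_lit 16437) (nat_lit 9) (.e (nat_lit 426544) (nat_lit 30) (.e (nat_lit 360453) (nat_lit 0) (.e (nat_lit 5195) (nat_lit 294) .nil)))))) (.g (nat_lit 6) .nil .nil))) 
(.lf (nat_lit 151738) (.g (nat_lit 2858) (.e (nat_lit 57386) (nat_lit 4) (.e (nat_lit 106536) (nat_lit 11) (.e (nat_lit 16412) (nat_lit 2) (.e (nat_lit 196673) (nat_lit 15) (.e (nat_lit 81959) (nat_lit 24) (.e (nat_lit 123023) (nat_lit 124) .nil)))))) (.g (nat_lit 4) .nil .nil)))))) (.nd (nat_lit 3) (.nd (nat_lit 4) (.nd (nat_lit 5) 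
(.lf (nat_lit 151686) (.g (nat_lit 2471) (.e (nat_lit 57385) (nat_lit 4) (.e (nat_lit 106536) (nat_lit 11) (.e (nat_lit 16468) (nat_lit 13) (.e (nat_lit 483393) (nat_lit 23) (.e (nat_lit 335986) (nat_lit 1) (.e (nat_lit 57849) (nat_lit 252) .nil)))))) (.g (nat_lit 0) .nil .nil))) 
(.lf (nat_lit 151718) (.g (nat_lit 985) (.e (nat_lit 57386) (nat_lit 4) (.e (nat_lit 106534) (nat_lit 11) (.e (nat_lit 16468) (nat_lit 13) (.e (nat_lit 491264) (nat_lit 23) .nil)))) .nil))) (.nd (nat_lit 5) 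
(.lf (nat_lit 151702) (.g (nat_lit 2549) (.e (nat_lit 57386) (nat_lit 4) (.e (nat_lit 106534) (nat_lit 11) (.e (nat_lit 16435) (nat_lit 9) (.e (nat_lit 426555) (nat_lit 32) (.e (nat_lit 376859) (nat_lit 21) (.e (nat_lit 57848) (nat_lit 252) .nil)))))) (.g (nat_lit 5) .nil .nil))) 
(.lf (nat_lit 151734) (.g (nat_lit 3428) (.e (nat_lit 57386) (nat_lit 4) (.e (nat_lit 106536) (nat_lit 11) (.e (nat_lit 16412) (nat_lit 2) (.e (nat_lit 196672) (nat_lit 15) (.e (nat_lit 81957) (nat_lit 24) (.e (nat_lit 123023) (nat_lit 124) .nil)))))) (.g (nat_lit 5) .nil .nil))))) (.nd (nat_lit 4) (.nd (nat_lit 5) 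
(.lf (nat_lit 151694) (.g (nat_lit 2814) (.e (nat_lit 57386) (nat_lit 4) (.e (nat_lit 106534) (nat_lit 11) (.e (nat_lit 16425) (nat_lit 7) (.e (nat_lit 409648) (nat_lit 18) (.e (nat_lit 303137) (nat_lit 10) (.e (nat_lit 434200) (nat_lit 18) (.e (nat_lit 5565) (nat_lit 308) .nil))))))) (.g (nat_lit 4) .nil .nil))) 
(.lf (nat_lit 151726) (.g (nat_lit 1337) (.e (nat_lit 57386) (nat_lit 4) (.e (nat_lit 106535) (nat_lit 11) (.e (nat_lit 16463) (nat_lit 13) (.e (nat_lit 483401) (nat_lit 25) .nil)))) .nil))) (.nd (nat_lit 5) 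
(.lf (nat_lit 151710) (.g (nat_lit 1577) (.e (nat_lit 57386) (nat_lit 4) (.e (nat_lit 106534) (nat_lit 11) (.e (nat_lit 16438) (nat_lit 9) (.e (nat_lit 426546) (nat_lit 30) (.e (nat_lit 360452) (nat_lit 0) (.e (nat_lit 5194) (nat_lit 294) .nil)))))) (.g (nat_lit 5) .nil .nil))) 
(.lf (nat_lit 151742) (.g (nat_lit 2327) (.e (nat_lit 57386) (nat_lit 4) (.e (nat_lit 106536) (nat_lit 11) (.e (nat_lit 16416) (nat_lit 3) (.e (nat_lit 204866) (nat_lit 28) (.e (nat_lit 352318) (nat_lit 24) .nil))))) .nil))))))) (.nd (nat_lit 1) (.nd (nat_lit 2) (.nd (nat_lit 3) (.nd (nat_lit 4) (.nd (nat_lit 5) 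
(.lf (nat_lit 151681) (.g (nat_lit 1319) (.e (nat_lit 57385) (nat_lit 4) (.e (nat_lit 106536) (nat_lit 11) (.e (nat_lit 16467) (nat_lit 13) (.e (nat_lit 483386) (nat_lit 23) (.e (nat_lit 335985) (nat_lit 1) .nil))))) .nil)) 
(.lf (nat_lit 151713) (.g (nat_lit 1721) (.e (nat_lit 57386) (nat_lit 4) (.e (nat_lit 106534) (nat_lit 11) (.e (nat_lit 16462) (nat_lit 13) (.e (nat_lit 483393) (nat_lit 23) (.e (nat_lit 335986) (nat_lit 1) .nil))))) .nil))) (.nd (nat_lit 5) 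
(.lf (nat_lit 151697) (.g (nat_lit 2336) (.e (nat_lit 57386) (nat_lit 4) (.e (nat_lit 106534) (nat_lit 11) (.e (nat_lit 16425) (nat_lit 7) (.e (nat_lit 409649) (nat_lit 18) (.e (nat_lit 303140) (nat_lit 10) .nil))))) .nil)) 
(.lf (nat_lit 151729) (.g (nat_lit 880) (.e (nat_lit 57386) (nat_lit 4) (.e (nat_lit 106536) (nat_lit 11) (.e (nat_lit 16386) (nat_lit 0) .nil))) .nil)))) (.nd (nat_lit 4) (.nd (nat_lit 5) 
(.lf (nat_lit 151689) (.g (nat_lit 861) (.e (nat_lit 57385) (nat_lit 4) (.e (nat_lit 106536) (nat_lit 11) (.e (nat_lit 24320) (nat_lit 18) .nil))) .nil)) 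
(.lf (nat_lit 151721) (.g (nat_lit 2779) (.e (nat_lit 57386) (nat_lit 4) (.e (nat_lit 106535) (nat_lit 11) (.e (nat_lit 16434) (nat_lit 9) (.e (nat_lit 426555) (nat_lit 32) (.e (nat_lit 376857) (nat_lit 21) (.e (nat_lit 57847) (nat_lit 252) .nil)))))) (.g (nat_lit 6) .nil .nil)))) (.nd (nat_lit 5) 
(.lf (nat_lit 151705) (.g (nat_lit 2629) (.e (nat_lit 57386) (nat_lit 4) (.e (nat_lit 106534) (nat_lit 11) (.e (nat_lit 16437) (nat_lit 9) (.e (nat_lit 426543) (nat_lit 29) (.e (nat_lit 352309) (nat_lit 21) (.e (nat_lit 57848) (nat_lit 252) .nil)))))) (.g (nat_lit 6) .nil .nil))) 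
(.lf (nat_lit 151737) (.g (nat_lit 2900) (.e (nat_lit 57386) (nat_lit 4) (.e (nat_lit 106536) (nat_lit 11) (.e (nat_lit 16412) (nat_lit 2) (.e (nat_lit 196672) (nat_lit 15) (.e (nat_lit 81959) (nat_lit 24) (.e (nat_lit 130816) (nat_lit 124) .nil)))))) (.g (nat_lit 4) .nil .nil)))))) (.nd (nat_lit 3) (.nd (nat_lit 4) (.nd (nat_lit 5) 
(.lf (nat_lit 151685) (.g (nat_lit 2481) (.e (nat_lit 57385) (nat_lit 4) (.e (nat_lit 106536) (nat_lit 11) (.e (nat_lit 16468) (nat_lit 13) (.e (nat_lit 483393) (nat_lit 23) (.e (nat_lit 335986) (nat_lit 1) (.e (nat_lit 57847) (nat_lit 252) .nil)))))) (.g (nat_lit 0) .nil .nil))) 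
(.lf (nat_lit 151717) (.g (nat_lit 320) (.e (nat_lit 57386) (nat_lit 4) (.e (nat_lit 106534) (nat_lit 11) (.e (nat_lit 16468) (nat_lit 13) .nil))) .nil))) (.nd (nat_lit 5) 
(.lf (nat_lit 151701) (.g (nat_lit 2655) (.e (nat_lit 57386) (nat_lit 4) (.e (nat_lit 106534) (nat_lit 11) (.e (nat_lit 16435) (nat_lit 9) (.e (nat_lit 426555) (nat_lit 32) (.e (nat_lit 376857) (nat_lit 21) (.e (nat_lit 57848) (nat_lit 252) .nil)))))) (.g (nat_lit 5) .nil .nil))) 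
(.lf (nat_lit 151733) (.g (nat_lit 1903) (.e (nat_lit 57386) (nat_lit 4) (.e (nat_lit 106536) (nat_lit 11) (.e (nat_lit 16412) (nat_lit 2) (.e (nat_lit 196672) (nat_lit 15) .nil)))) .nil)))) (.nd (nat_lit 4) (.nd (nat_lit 5) 
(.lf (nat_lit 151693) (.g (nat_lit 2659) (.e (nat_lit 57386) (nat_lit 4) (.e (nat_lit 106534) (nat_lit 11) (.e (nat_lit 16425) (nat_lit 7) (.e (nat_lit 409648) (nat_lit 18) (.e (nat_lit 303137) (nat_lit 10) .nil))))) .nil)) 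
(.lf (nat_lit 151725) (.g (nat_lit 1668) (.e (nat_lit 57386) (nat_lit 4) (.e (nat_lit 106535) (nat_lit 11) (.e (nat_lit 16463) (nat_lit 13) (.e (nat_lit 483385) (nat_lit 23) (.e (nat_lit 336000) (nat_lit 1) .nil))))) .nil))) (.nd (nat_lit 5) 
(.lf (nat_lit 151709) (.g (nat_lit 903) (.e (nat_lit 57386) (nat_lit 4) (.e (nat_lit 106534) (nat_lit 11) (.e (nat_lit 16438) (nat_lit 9) (.e (nat_lit 426546) (nat_lit 30) .nil)))) .nil)) 
(.lf (nat_lit 151741) (.g (nat_lit 3291) (.e (nat_lit 57386) (nat_lit 4) (.e (nat_lit 106536) (nat_lit 11) (.e (nat_lit 16412) (nat_lit 2) (.e (nat_lit 196674) (nat_lit 15) (.e (nat_lit 81959) (nat_lit 24) (.e (nat_lit 130816) (nat_lit 124) .nil)))))) (.g (nat_lit 5) .nil .nil))))))) (.nd (nat_lit 2) (.nd (nat_lit 3) (.nd (nat_lit 4) (.nd (nat_lit 5) 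
(.lf (nat_lit 151683) (.g (nat_lit 336) (.e (nat_lit 57385) (nat_lit 4) (.e (nat_lit 106536) (nat_lit 11) (.e (nat_lit 16468) (nat_lit 13) .nil))) .nil)) 
(.lf (nat_lit 151715) (.g (nat_lit 3206) (.e (nat_lit 57386) (nat_lit 4) (.e (nat_lit 106534) (nat_lit 11) (.e (nat_lit 16465) (nat_lit 13) (.e (nat_lit 483383) (nat_lit 23) (.e (nat_lit 336000) (nat_lit 1) (.e (nat_lit 57849) (nat_lit 252) .nil)))))) (.g (nat_lit 6) .nil .nil)))) (.nd (nat_lit 5) 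
(.lf (nat_lit 151699) (.g (nat_lit 2341) (.e (nat_lit 57386) (nat_lit 4) (.e (nat_lit 106534) (nat_lit 11) (.e (nat_lit 16425) (nat_lit 7) (.e (nat_lit 409649) (nat_lit 18) (.e (nat_lit 303140) (nat_lit 10) (.e (nat_lit 434216) (nat_lit 18) (.e (nat_lit 5566) (nat_lit 308) .nil))))))) (.g (nat_lit 4) .nil .nil))) 
(.lf (nat_lit 151731) (.g (nat_lit 890) (.e (nat_lit 57386) (nat_lit 4) (.e (nat_lit 106536) (nat_lit 11) (.e (nat_lit 16405) (nat_lit 1) .nil))) .nil)))) (.nd (nat_lit 4) (.nd (nat_lit 5) 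
(.lf (nat_lit 151691) (.g (nat_lit 402) (.e (nat_lit 57386) (nat_lit 4) (.e (nat_lit 106534) (nat_lit 11) (.e (nat_lit 16417) (nat_lit 3) .nil))) .nil)) 
(.lf (nat_lit 151723) (.g (nat_lit 3010) (.e (nat_lit 57386) (nat_lit 4) (.e (nat_lit 106535) (nat_lit 11) (.e (nat_lit 16436) (nat_lit 9) (.e (nat_lit 426555) (nat_lit 32) (.e (nat_lit 376857) (nat_lit 21) (.e (nat_lit 57847) (nat_lit 252) .nil)))))) (.g (nat_lit 6) .nil .nil)))) (.nd (nat_lit 5) 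
(.lf (nat_lit 151707) (.g (nat_lit 2086) (.e (nat_lit 57386) (nat_lit 4) (.e (nat_lit 106534) (nat_lit 11) (.e (nat_lit 16437) (nat_lit 9) (.e (nat_lit 426546) (nat_lit 30) (.e (nat_lit 360452) (nat_lit 0) (.e (nat_lit 5195) (nat_lit 294) .nil)))))) (.g (nat_lit 0) .nil .nil))) 
(.lf (nat_lit 151739) (.g (nat_lit 2794) (.e (nat_lit 57386) (nat_lit 4) (.e (nat_lit 106536) (nat_lit 11) (.e (nat_lit 16412) (nat_lit 2) (.e (nat_lit 196673) (nat_lit 15) (.e (nat_lit 81959) (nat_lit 24) (.e (nat_lit 130816) (nat_lit 124) .nil)))))) (.g (nat_lit 4) .nil .nil)))))) (.nd (nat_lit 3) (.nd (nat_lit 4) (.nd (nat_lit 5) 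
(.lf (nat_lit 151687) (.g (nat_lit 2606) (.e (nat_lit 57385) (nat_lit 4) (.e (nat_lit 106536) (nat_lit 11) (.e (nat_lit 16468) (nat_lit 13) (.e (nat_lit 483394) (nat_lit 24) (.e (nat_lit 344097) (nat_lit 18) (.e (nat_lit 5195) (nat_lit 294) .nil)))))) (.g (nat_lit 0) .nil .nil))) 
(.lf (nat_lit 151719) (.g (nat_lit 659) (.e (nat_lit 57386) (nat_lit 4) (.e (nat_lit 106534) (nat_lit 11) (.e (nat_lit 16475) (nat_lit 15) .nil))) .nil))) (.nd (nat_lit 5) 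
(.lf (nat_lit 151703) (.g (nat_lit 348) (.e (nat_lit 57386) (nat_lit 4) (.e (nat_lit 106534) (nat_lit 11) (.e (nat_lit 16437) (nat_lit 9) .nil))) .nil)) 
(.lf (nat_lit 151735) (.g (nat_lit 3544) (.e (nat_lit 57386) (nat_lit 4) (.e (nat_lit 106536) (nat_lit 11) (.e (nat_lit 16412) (nat_lit 2) (.e (nat_lit 196672) (nat_lit 15) (.e (nat_lit 81957) (nat_lit 24) (.e (nat_lit 130816) (nat_lit 124) .nil)))))) (.g (nat_lit 5) .nil .nil))))) (.nd (nat_lit 4) (.nd (nat_lit 5) 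
(.lf (nat_lit 151695) (.g (nat_lit 2669) (.e (nat_lit 57386) (nat_lit 4) (.e (nat_lit 106534) (nat_lit 11) (.e (nat_lit 16425) (nat_lit 7) (.e (nat_lit 409649) (nat_lit 18) (.e (nat_lit 303132) (nat_lit 9) (.e (nat_lit 426025) (nat_lit 0) (.e (nat_lit 2400) (nat_lit 157) (.e (nat_lit 5568) (nat_lit 308) .nil)))))))) (.g (nat_lit 4) .nil .nil))) 
(.lf (nat_lit 151727) (.g (nat_lit 2566) (.e (nat_lit 57386) (nat_lit 4) (.e (nat_lit 106535) (nat_lit 11) (.e (nat_lit 16466) (nat_lit 13) (.e (nat_lit 483393) (nat_lit 23) (.e (nat_lit 335986) (nat_lit 1) (.e (nat_lit 57847) (nat_lit 252) .nil)))))) (.g (nat_lit 6) .nil .nil)))) (.nd (nat_lit 5) 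
(.lf (nat_lit 151711) (.g (nat_lit 2862) (.e (nat_lit 57386) (nat_lit 4) (.e (nat_lit 106534) (nat_lit 11) (.e (nat_lit 16438) (nat_lit 9) (.e (nat_lit 426555) (nat_lit 32) (.e (nat_lit 376859) (nat_lit 21) (.e (nat_lit 57848) (nat_lit 252) .nil)))))) (.g (nat_lit 0) .nil .nil))) 
(.lf (nat_lit 151743) (.g (nat_lit 2382) (.e (nat_lit 57386) (nat_lit 4) (.e (nat_lit 106536) (nat_lit 11) (.e (nat_lit 16416) (nat_lit 3) (.e (nat_lit 204868) (nat_lit 29) (.e (nat_lit 368384) (nat_lit 0) .nil))))) .nil))))))))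

noncomputable def tv2023 : DT := (.nd (nat_lit 0) (.nd (nat_lit 1) (.nd (nat_lit 2) (.nd (nat_lit 3) (.nd (nat_lit 4) (.nd (nat_lit 5) 
(.lf (nat_lit 151744) (.g (nat_lit 3150) (.e (nat_lit 57386) (nat_lit 4) (.e (nat_lit 106536) (nat_lit 11) (.e (nat_lit 16416) (nat_lit 3) (.e (nat_lit 204869) (nat_lit 29) (.e (nat_lit 360450) (nat_lit 0) (.e (nat_lit 7936) (nat_lit 253) .nil)))))) (.g (nat_lit 4) .nil .nil))) 
(.lf (nat_lit 151776) (.g (nat_lit 2379) (.e (nat_lit 57386) (nat_lit 4) (.e (nat_lit 106536) (nat_lit 11) (.e (nat_lit 16468) (nat_lit 13) (.e (nat_lit 483395) (nat_lit 24) (.e (nat_lit 344097) (nat_lit 18) (.e (nat_lit 5194) (nat_lit 294) .nil)))))) (.g (nat_lit 6) .nil .nil)))) (.nd (nat_lit 5) 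
(.lf (nat_lit 151760) (.g (nat_lit 346) (.e (nat_lit 57386) (nat_lit 4) (.e (nat_lit 106536) (nat_lit 11) (.e (nat_lit 16438) (nat_lit 9) .nil))) .nil)) 
(.lf (nat_lit 151792) (.g (nat_lit 1788) (.e (nat_lit 57388) (nat_lit 5) (.e (nat_lit 114696) (nat_lit 11) (.e (nat_lit 426260) (nat_lit 9) (.e (nat_lit 426554) (nat_lit 32) (.e (nat_lit 376857) (nat_lit 21) (.e (nat_lit 57852) (nat_lit 252) .nil)))))) (.g (nat_lit 0) .nil .nil))))) (.nd (nat_lit 4) (.nd (nat_lit 5) 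
(.lf (nat_lit 151752) (.g (nat_lit 3136) (.e (nat_lit 57386) (nat_lit 4) (.e (nat_lit 106536) (nat_lit 11) (.e (nat_lit 16434) (nat_lit 9) (.e (nat_lit 426555) (nat_lit 32) (.e (nat_lit 376857) (nat_lit 21) (.e (nat_lit 57848) (nat_lit 252) .nil)))))) (.g (nat_lit 5) .nil .nil))) 
(.lf (nat_lit 151784) (.g (nat_lit 1890) (.e (nat_lit 57388) (nat_lit 5) (.e (nat_lit 114694) (nat_lit 11) (.e (nat_lit 426188) (nat_lit 9) (.e (nat_lit 426555) (nat_lit 32) (.e (nat_lit 376860) (nat_lit 21) .nil))))) .nil))) (.nd (nat_lit 5) 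
(.lf (nat_lit 151768) (.g (nat_lit 1610) (.e (nat_lit 57386) (nat_lit 4) (.e (nat_lit 106536) (nat_lit 11) (.e (nat_lit 16462) (nat_lit 13) (.e (nat_lit 483393) (nat_lit 23) (.e (nat_lit 335986) (nat_lit 1) .nil))))) .nil)) 
(.lf (nat_lit 151800) (.g (nat_lit 1935) (.e (nat_lit 57388) (nat_lit 5) (.e (nat_lit 114697) (nat_lit 11) (.e (nat_lit 426187) (nat_lit 9) (.e (nat_lit 426555) (nat_lit 32) (.e (nat_lit 376857) (nat_lit 21) (.e (nat_lit 57849) (nat_lit 252) .nil)))))) (.g (nat_lit 4) .nil .nil)))))) (.nd (nat_lit 3) (.nd (nat_lit 4) (.nd (nat_lit 5) 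
(.lf (nat_lit 151748) (.g (nat_lit 885) (.e (nat_lit 57386) (nat_lit 4) (.e (nat_lit 106536) (nat_lit 11) (.e (nat_lit 16432) (nat_lit 9) .nil))) .nil)) 
(.lf (nat_lit 151780) (.g (nat_lit 1761) (.e (nat_lit 57388) (nat_lit 5) (.e (nat_lit 114694) (nat_lit 11) (.e (nat_lit 426188) (nat_lit 9) (.e (nat_lit 426555) (nat_lit 32) (.e (nat_lit 376857) (nat_lit 21) .nil))))) .nil))) (.nd (nat_lit 5) 
(.lf (nat_lit 151764) (.g (nat_lit 1314) (.e (nat_lit 57386) (nat_lit 4) (.e (nat_lit 106536) (nat_lit 11) (.e (nat_lit 16438) (nat_lit 9) (.e (nat_lit 426544) (nat_lit 30) (.e (nat_lit 368384) (nat_lit 0) .nil))))) .nil)) 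
(.lf (nat_lit 151796) (.g (nat_lit 1702) (.e (nat_lit 57388) (nat_lit 5) (.e (nat_lit 114696) (nat_lit 11) (.e (nat_lit 426261) (nat_lit 9) (.e (nat_lit 426554) (nat_lit 32) (.e (nat_lit 376859) (nat_lit 21) (.e (nat_lit 57848) (nat_lit 252) .nil)))))) (.g (nat_lit 6) .nil .nil))))) (.nd (nat_lit 4) (.nd (nat_lit 5) 
(.lf (nat_lit 151756) (.g (nat_lit 2039) (.e (nat_lit 57386) (nat_lit 4) (.e (nat_lit 106536) (nat_lit 11) (.e (nat_lit 16435) (nat_lit 9) (.e (nat_lit 426544) (nat_lit 30) (.e (nat_lit 360453) (nat_lit 0) (.e (nat_lit 5195) (nat_lit 294) .nil)))))) (.g (nat_lit 4) .nil .nil))) 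
(.lf (nat_lit 151788) (.g (nat_lit 1967) (.e (nat_lit 57388) (nat_lit 5) (.e (nat_lit 114694) (nat_lit 11) (.e (nat_lit 426190) (nat_lit 9) (.e (nat_lit 426555) (nat_lit 32) (.e (nat_lit 376859) (nat_lit 21) (.e (nat_lit 57849) (nat_lit 252) .nil)))))) (.g (nat_lit 4) .nil .nil)))) (.nd (nat_lit 5) 
(.lf (nat_lit 151772) (.g (nat_lit 1433) (.e (nat_lit 57386) (nat_lit 4) (.e (nat_lit 106536) (nat_lit 11) (.e (nat_lit 16465) (nat_lit 13) (.e (nat_lit 483395) (nat_lit 24) .nil)))) .nil)) 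
(.lf (nat_lit 151804) (.g (nat_lit 1979) (.e (nat_lit 57388) (nat_lit 5) (.e (nat_lit 114697) (nat_lit 11) (.e (nat_lit 426187) (nat_lit 9) (.e (nat_lit 426555) (nat_lit 32) (.e (nat_lit 376860) (nat_lit 21) (.e (nat_lit 57853) (nat_lit 252) .nil)))))) (.g (nat_lit 4) .nil .nil))))))) (.nd (nat_lit 2) (.nd (nat_lit 3) (.nd (nat_lit 4) (.nd (nat_lit 5) 
(.lf (nat_lit 151746) (.g (nat_lit 497) (.e (nat_lit 57386) (nat_lit 4) (.e (nat_lit 106536) (nat_lit 11) (.e (nat_lit 16417) (nat_lit 3) .nil))) .nil)) 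
(.lf (nat_lit 151778) (.g (nat_lit 1830) (.e (nat_lit 57387) (nat_lit 5) (.e (nat_lit 114698) (nat_lit 11) (.e (nat_lit 426200) (nat_lit 9) (.e (nat_lit 426555) (nat_lit 32) .nil)))) .nil))) (.nd (nat_lit 5) 
(.lf (nat_lit 151762) (.g (nat_lit 950) (.e (nat_lit 57386) (nat_lit 4) (.e (nat_lit 106536) (nat_lit 11) (.e (nat_lit 16438) (nat_lit 9) (.e (nat_lit 426544) (nat_lit 30) .nil)))) .nil)) 
(.lf (nat_lit 151794) (.g (nat_lit 2082) (.e (nat_lit 57388) (nat_lit 5) (.e (nat_lit 114696) (nat_lit 11) (.e (nat_lit 426260) (nat_lit 9) (.e (nat_lit 426554) (nat_lit 32) (.e (nat_lit 376860) (nat_lit 21) (.e (nat_lit 57852) (nat_lit 252) .nil)))))) (.g (nat_lit 0) .nil .nil))))) (.nd (nat_lit 4) (.nd (nat_lit 5) 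
(.lf (nat_lit 151754) (.g (nat_lit 413) (.e (nat_lit 57386) (nat_lit 4) (.e (nat_lit 106536) (nat_lit 11) (.e (nat_lit 16435) (nat_lit 9) .nil))) .nil)) 
(.lf (nat_lit 151786) (.g (nat_lit 1828) (.e (nat_lit 57388) (nat_lit 5) (.e (nat_lit 114694) (nat_lit 11) (.e (nat_lit 426190) (nat_lit 9) (.e (nat_lit 426555) (nat_lit 32) (.e (nat_lit 376857) (nat_lit 21) .nil))))) .nil))) (.nd (nat_lit 5) 
(.lf (nat_lit 151770) (.g (nat_lit 2259) (.e (nat_lit 57386) (nat_lit 4) (.e (nat_lit 106536) (nat_lit 11) (.e (nat_lit 16463) (nat_lit 13) (.e (nat_lit 483401) (nat_lit 25) .nil)))) .nil)) 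
(.lf (nat_lit 151802) (.g (nat_lit 1591) (.e (nat_lit 57388) (nat_lit 5) (.e (nat_lit 114697) (nat_lit 11) (.e (nat_lit 426187) (nat_lit 9) (.e (nat_lit 426555) (nat_lit 32) (.e (nat_lit 376859) (nat_lit 21) .nil))))) .nil))))) (.nd (nat_lit 3) (.nd (nat_lit 4) (.nd (nat_lit 5) 
(.lf (nat_lit 151750) (.g (nat_lit 2219) (.e (nat_lit 57386) (nat_lit 4) (.e (nat_lit 106536) (nat_lit 11) (.e (nat_lit 16433) (nat_lit 9) (.e (nat_lit 426544) (nat_lit 30) (.e (nat_lit 360453) (nat_lit 0) .nil))))) .nil)) 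
(.lf (nat_lit 151782) (.g (nat_lit 1802) (.e (nat_lit 57388) (nat_lit 5) (.e (nat_lit 114694) (nat_lit 11) (.e (nat_lit 426188) (nat_lit 9) (.e (nat_lit 426555) (nat_lit 32) (.e (nat_lit 376859) (nat_lit 21) .nil))))) .nil))) (.nd (nat_lit 5) 
(.lf (nat_lit 151766) (.g (nat_lit 1135) (.e (nat_lit 57386) (nat_lit 4) (.e (nat_lit 106536) (nat_lit 11) (.e (nat_lit 16438) (nat_lit 9) (.e (nat_lit 426546) (nat_lit 30) (.e (nat_lit 360452) (nat_lit 0) .nil))))) .nil)) 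
(.lf (nat_lit 151798) (.g (nat_lit 1735) (.e (nat_lit 57388) (nat_lit 5) (.e (nat_lit 114697) (nat_lit 11) (.e (nat_lit 426187) (nat_lit 9) (.e (nat_lit 426555) (nat_lit 32) (.e (nat_lit 376857) (nat_lit 21) (.e (nat_lit 57846) (nat_lit 252) .nil)))))) (.g (nat_lit 4) .nil .nil))))) (.nd (nat_lit 4) (.nd (nat_lit 5) 
(.lf (nat_lit 151758) (.g (nat_lit 538) (.e (nat_lit 57386) (nat_lit 4) (.e (nat_lit 106536) (nat_lit 11) (.e (nat_lit 16437) (nat_lit 9) .nil))) .nil)) 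
(.lf (nat_lit 151790) (.g (nat_lit 1962) (.e (nat_lit 57388) (nat_lit 5) (.e (nat_lit 114696) (nat_lit 11) (.e (nat_lit 426260) (nat_lit 9) (.e (nat_lit 426554) (nat_lit 32) (.e (nat_lit 376857) (nat_lit 21) (.e (nat_lit 57846) (nat_lit 252) .nil)))))) (.g (nat_lit 0) .nil .nil)))) (.nd (nat_lit 5) 
(.lf (nat_lit 151774) (.g (nat_lit 336) (.e (nat_lit 57386) (nat_lit 4) (.e (nat_lit 106536) (nat_lit 11) (.e (nat_lit 16468) (nat_lit 13) .nil))) .nil)) 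
(.lf (nat_lit 151806) (.g (nat_lit 1907) (.e (nat_lit 57388) (nat_lit 5) (.e (nat_lit 114697) (nat_lit 11) (.e (nat_lit 426189) (nat_lit 9) (.e (nat_lit 426555) (nat_lit 32) (.e (nat_lit 376856) (nat_lit 21) (.e (nat_lit 57854) (nat_lit 252) .nil)))))) (.g (nat_lit 4) .nil .nil)))))))) (.nd (nat_lit 1) (.nd (nat_lit 2) (.nd (nat_lit 3) (.nd (nat_lit 4) (.nd (nat_lit 5) 
(.lf (nat_lit 151745) (.g (nat_lit 2430) (.e (nat_lit 57386) (nat_lit 4) (.e (nat_lit 106536) (nat_lit 11) (.e (nat_lit 16416) (nat_lit 3) (.e (nat_lit 204869) (nat_lit 29) (.e (nat_lit 368384) (nat_lit 0) .nil))))) .nil)) 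
(.lf (nat_lit 151777) (.g (nat_lit 404) (.e (nat_lit 57386) (nat_lit 4) (.e (nat_lit 106536) (nat_lit 11) (.e (nat_lit 24320) (nat_lit 18) .nil))) .nil))) (.nd (nat_lit 5) 
(.lf (nat_lit 151761) (.g (nat_lit 943) (.e (nat_lit 57386) (nat_lit 4) (.e (nat_lit 106536) (nat_lit 11) (.e (nat_lit 16438) (nat_lit 9) (.e (nat_lit 426540) (nat_lit 29) .nil)))) .nil)) 
(.lf (nat_lit 151793) (.g (nat_lit 2103) (.e (nat_lit 57388) (nat_lit 5) (.e (nat_lit 114696) (nat_lit 11) (.e (nat_lit 426260) (nat_lit 9) (.e (nat_lit 426554) (nat_lit 32) (.e (nat_lit 376857) (nat_lit 21) (.e (nat_lit 57853) (nat_lit 252) .nil)))))) (.g (nat_lit 0) .nil .nil))))) (.nd (nat_lit 4) (.nd (nat_lit 5) 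
(.lf (nat_lit 151753) (.g (nat_lit 2967) (.e (nat_lit 57386) (nat_lit 4) (.e (nat_lit 106536) (nat_lit 11) (.e (nat_lit 16434) (nat_lit 9) (.e (nat_lit 426555) (nat_lit 32) (.e (nat_lit 376859) (nat_lit 21) (.e (nat_lit 57848) (nat_lit 252) .nil)))))) (.g (nat_lit 5) .nil .nil))) 
(.lf (nat_lit 151785) (.g (nat_lit 634) (.e (nat_lit 57388) (nat_lit 5) (.e (nat_lit 114694) (nat_lit 11) (.e (nat_lit 426189) (nat_lit 9) (.e (nat_lit 426555) (nat_lit 32) .nil)))) .nil))) (.nd (nat_lit 5) 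
(.lf (nat_lit 151769) (.g (nat_lit 2496) (.e (nat_lit 57386) (nat_lit 4) (.e (nat_lit 106536) (nat_lit 11) (.e (nat_lit 16463) (nat_lit 13) (.e (nat_lit 483392) (nat_lit 23) (.e (nat_lit 335986) (nat_lit 1) .nil))))) .nil)) 
(.lf (nat_lit 151801) (.g (nat_lit 1927) (.e (nat_lit 57388) (nat_lit 5) (.e (nat_lit 114697) (nat_lit 11) (.e (nat_lit 426187) (nat_lit 9) (.e (nat_lit 426555) (nat_lit 32) (.e (nat_lit 376857) (nat_lit 21) (.e (nat_lit 57854) (nat_lit 252) .nil)))))) (.g (nat_lit 4) .nil .nil)))))) (.nd (nat_lit 3) (.nd (nat_lit 4) (.nd (nat_lit 5) 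
(.lf (nat_lit 151749) (.g (nat_lit 1693) (.e (nat_lit 57386) (nat_lit 4) (.e (nat_lit 106536) (nat_lit 11) (.e (nat_lit 16433) (nat_lit 9) (.e (nat_lit 426539) (nat_lit 29) .nil)))) .nil)) 
(.lf (nat_lit 151781) (.g (nat_lit 1955) (.e (nat_lit 57388) (nat_lit 5) (.e (nat_lit 114694) (nat_lit 11) (.e (nat_lit 426188) (nat_lit 9) (.e (nat_lit 426555) (nat_lit 32) (.e (nat_lit 376857) (nat_lit 21) (.e (nat_lit 57849) (nat_lit 252) .nil)))))) (.g (nat_lit 4) .nil .nil)))) (.nd (nat_lit 5) 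
(.lf (nat_lit 151765) (.g (nat_lit 960) (.e (nat_lit 57386) (nat_lit 4) (.e (nat_lit 106536) (nat_lit 11) (.e (nat_lit 16438) (nat_lit 9) (.e (nat_lit 426546) (nat_lit 30) .nil)))) .nil)) 
(.lf (nat_lit 151797) (.g (nat_lit 1569) (.e (nat_lit 57388) (nat_lit 5) (.e (nat_lit 114697) (nat_lit 11) (.e (nat_lit 426187) (nat_lit 9) (.e (nat_lit 426555) (nat_lit 32) (.e (nat_lit 376857) (nat_lit 21) .nil))))) .nil)))) (.nd (nat_lit 4) (.nd (nat_lit 5) 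
(.lf (nat_lit 151757) (.g (nat_lit 1253) (.e (nat_lit 57386) (nat_lit 4) (.e (nat_lit 106536) (nat_lit 11) (.e (nat_lit 16435) (nat_lit 9) (.e (nat_lit 426546) (nat_lit 30) .nil)))) .nil)) 
(.lf (nat_lit 151789) (.g (nat_lit 1908) (.e (nat_lit 57388) (nat_lit 5) (.e (nat_lit 114694) (nat_lit 11) (.e (nat_lit 426190) (nat_lit 9) (.e (nat_lit 426555) (nat_lit 32) (.e (nat_lit 376860) (nat_lit 21) .nil))))) .nil))) (.nd (nat_lit 5) 
(.lf (nat_lit 151773) (.g (nat_lit 1348) (.e (nat_lit 57386) (nat_lit 4) (.e (nat_lit 106536) (nat_lit 11) (.e (nat_lit 16467) (nat_lit 13) (.e (nat_lit 483386) (nat_lit 23) (.e (nat_lit 335985) (nat_lit 1) .nil))))) .nil)) 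
(.lf (nat_lit 151805) (.g (nat_lit 2027) (.e (nat_lit 57388) (nat_lit 5) (.e (nat_lit 114697) (nat_lit 11) (.e (nat_lit 426187) (nat_lit 9) (.e (nat_lit 426555) (nat_lit 32) (.e (nat_lit 376860) (nat_lit 21) (.e (nat_lit 57854) (nat_lit 252) .nil)))))) (.g (nat_lit 4) .nil .nil))))))) (.nd (nat_lit 2) (.nd (nat_lit 3) (.nd (nat_lit 4) (.nd (nat_lit 5) 
(.lf (nat_lit 151747) (.g (nat_lit 890) (.e (nat_lit 57386) (nat_lit 4) (.e (nat_lit 106536) (nat_lit 11) (.e (nat_lit 16431) (nat_lit 9) .nil))) .nil)) 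
(.lf (nat_lit 151779) (.g (nat_lit 905) (.e (nat_lit 57388) (nat_lit 5) (.e (nat_lit 114694) (nat_lit 11) (.e (nat_lit 426187) (nat_lit 9) (.e (nat_lit 426555) (nat_lit 32) .nil)))) .nil))) (.nd (nat_lit 5) 
(.lf (nat_lit 151763) (.g (nat_lit 1387) (.e (nat_lit 57386) (nat_lit 4) (.e (nat_lit 106536) (nat_lit 11) (.e (nat_lit 16438) (nat_lit 9) (.e (nat_lit 426544) (nat_lit 30) (.e (nat_lit 360452) (nat_lit 0) .nil))))) .nil)) 
(.lf (nat_lit 151795) (.g (nat_lit 1732) (.e (nat_lit 57388) (nat_lit 5) (.e (nat_lit 114696) (nat_lit 11) (.e (nat_lit 426261) (nat_lit 9) (.e (nat_lit 426554) (nat_lit 32) (.e (nat_lit 376859) (nat_lit 21) (.e (nat_lit 57847) (nat_lit 252) .nil)))))) (.g (nat_lit 6) .nil .nil))))) (.nd (nat_lit 4) (.nd (nat_lit 5) 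
(.lf (nat_lit 151755) (.g (nat_lit 1253) (.e (nat_lit 57386) (nat_lit 4) (.e (nat_lit 106536) (nat_lit 11) (.e (nat_lit 16435) (nat_lit 9) (.e (nat_lit 426542) (nat_lit 29) .nil)))) .nil)) 
(.lf (nat_lit 151787) (.g (nat_lit 2138) (.e (nat_lit 57388) (nat_lit 5) (.e (nat_lit 114694) (nat_lit 11) (.e (nat_lit 426190) (nat_lit 9) (.e (nat_lit 426555) (nat_lit 32) (.e (nat_lit 376857) (nat_lit 21) (.e (nat_lit 57849) (nat_lit 252) .nil)))))) (.g (nat_lit 4) .nil .nil)))) (.nd (nat_lit 5) 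
(.lf (nat_lit 151771) (.g (nat_lit 1117) (.e (nat_lit 57386) (nat_lit 4) (.e (nat_lit 106536) (nat_lit 11) (.e (nat_lit 16465) (nat_lit 13) (.e (nat_lit 483391) (nat_lit 23) .nil)))) .nil)) 
(.lf (nat_lit 151803) (.g (nat_lit 1851) (.e (nat_lit 57388) (nat_lit 5) (.e (nat_lit 114697) (nat_lit 11) (.e (nat_lit 426187) (nat_lit 9) (.e (nat_lit 426555) (nat_lit 32) (.e (nat_lit 376859) (nat_lit 21) (.e (nat_lit 57849) (nat_lit 252) .nil)))))) (.g (nat_lit 4) .nil .nil)))))) (.nd (nat_lit 3) (.nd (nat_lit 4) (.nd (nat_lit 5) 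
(.lf (nat_lit 151751) (.g (nat_lit 1572) (.e (nat_lit 57386) (nat_lit 4) (.e (nat_lit 106536) (nat_lit 11) (.e (nat_lit 16433) (nat_lit 9) (.e (nat_lit 426556) (nat_lit 32) .nil)))) .nil)) 
(.lf (nat_lit 151783) (.g (nat_lit 1924) (.e (nat_lit 57388) (nat_lit 5) (.e (nat_lit 114694) (nat_lit 11) (.e (nat_lit 426188) (nat_lit 9) (.e (nat_lit 426555) (nat_lit 32) (.e (nat_lit 376859) (nat_lit 21) (.e (nat_lit 57849) (nat_lit 252) .nil)))))) (.g (nat_lit 4) .nil .nil)))) (.nd (nat_lit 5) 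
(.lf (nat_lit 151767) (.g (nat_lit 3296) (.e (nat_lit 57386) (nat_lit 4) (.e (nat_lit 106536) (nat_lit 11) (.e (nat_lit 16438) (nat_lit 9) (.e (nat_lit 426555) (nat_lit 32) (.e (nat_lit 376857) (nat_lit 21) (.e (nat_lit 57847) (nat_lit 252) .nil)))))) (.g (nat_lit 0) .nil .nil))) 
(.lf (nat_lit 151799) (.g (nat_lit 1747) (.e (nat_lit 57388) (nat_lit 5) (.e (nat_lit 114697) (nat_lit 11) (.e (nat_lit 426187) (nat_lit 9) (.e (nat_lit 426555) (nat_lit 32) (.e (nat_lit 376857) (nat_lit 21) (.e (nat_lit 57847) (nat_lit 252) .nil)))))) (.g (nat_lit 4) .nil .nil))))) (.nd (nat_lit 4) (.nd (nat_lit 5) 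
(.lf (nat_lit 151759) (.g (nat_lit 2306) (.e (nat_lit 57386) (nat_lit 4) (.e (nat_lit 106536) (nat_lit 11) (.e (nat_lit 16437) (nat_lit 9) (.e (nat_lit 426544) (nat_lit 30) (.e (nat_lit 360453) (nat_lit 0) (.e (nat_lit 5195) (nat_lit 294) .nil)))))) (.g (nat_lit 6) .nil .nil))) 
(.lf (nat_lit 151791) (.g (nat_lit 1850) (.e (nat_lit 57388) (nat_lit 5) (.e (nat_lit 114696) (nat_lit 11) (.e (nat_lit 426260) (nat_lit 9) (.e (nat_lit 426554) (nat_lit 32) (.e (nat_lit 376857) (nat_lit 21) (.e (nat_lit 57847) (nat_lit 252) .nil)))))) (.g (nat_lit 0) .nil .nil)))) (.nd (nat_lit 5) 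
(.lf (nat_lit 151775) (.g (nat_lit 982) (.e (nat_lit 57386) (nat_lit 4) (.e (nat_lit 106536) (nat_lit 11) (.e (nat_lit 16468) (nat_lit 13) (.e (nat_lit 491264) (nat_lit 23) .nil)))) .nil)) 
(.lf (nat_lit 151807) (.g (nat_lit 2623) (.e (nat_lit 57388) (nat_lit 5) (.e (nat_lit 114697) (nat_lit 11) (.e (nat_lit 426189) (nat_lit 9) (.e (nat_lit 426555) (nat_lit 32) (.e (nat_lit 376857) (nat_lit 21) (.e (nat_lit 57847) (nat_lit 252) .nil)))))) (.g (nat_lit 6) .nil .nil)))))))))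

noncomputable def tv2024 : DT := (.nd (nat_lit 0) (.nd (nat_lit 1) (.nd (nat_lit 2) (.nd (nat_lit 3) (.nd (nat_lit 4) (.nd (nat_lit 5) 
(.lf (nat_lit 151808) (.g (nat_lit 2192) (.e (nat_lit 57388) (nat_lit 5) (.e (nat_lit 114697) (nat_lit 11) (.e (nat_lit 426189) (nat_lit 9) (.e (nat_lit 426555) (nat_lit 32) (.e (nat_lit 376857) (nat_lit 21) (.e (nat_lit 57848) (nat_lit 252) .nil)))))) (.g (nat_lit 5) .nil .nil))) 
(.lf (nat_lit 151840) (.g (nat_lit 3710) (.e (nat_lit 57388) (nat_lit 5) (.e (nat_lit 114698) (nat_lit 11) (.e (nat_lit 426187) (nat_lit 9) (.e (nat_lit 426555) (nat_lit 32) (.e (nat_lit 376857) (nat_lit 21) (.e (nat_lit 57854) (nat_lit 252) .nil)))))) (.g (nat_lit 6) .nil .nil)))) (.nd (nat_lit 5) 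
(.lf (nat_lit 151824) (.g (nat_lit 564) (.e (nat_lit 57388) (nat_lit 5) (.e (nat_lit 114697) (nat_lit 11) (.e (nat_lit 426258) (nat_lit 9) (.e (nat_lit 426554) (nat_lit 32) .nil)))) .nil)) 
(.lf (nat_lit 151856) (.g (nat_lit 3139) (.e (nat_lit 57388) (nat_lit 5) (.e (nat_lit 114698) (nat_lit 11) (.e (nat_lit 426189) (nat_lit 9) (.e (nat_lit 426555) (nat_lit 32) (.e (nat_lit 376859) (nat_lit 21) (.e (nat_lit 57846) (nat_lit 252) .nil)))))) (.g (nat_lit 6) .nil .nil))))) (.nd (nat_lit 4) (.nd (nat_lit 5) 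
(.lf (nat_lit 151816) (.g (nat_lit 2921) (.e (nat_lit 57388) (nat_lit 5) (.e (nat_lit 114697) (nat_lit 11) (.e (nat_lit 426189) (nat_lit 9) (.e (nat_lit 426555) (nat_lit 32) (.e (nat_lit 376860) (nat_lit 21) (.e (nat_lit 57854) (nat_lit 252) .nil)))))) (.g (nat_lit 0) .nil .nil))) 
(.lf (nat_lit 151848) (.g (nat_lit 3472) (.e (nat_lit 57388) (nat_lit 5) (.e (nat_lit 114698) (nat_lit 11) (.e (nat_lit 426187) (nat_lit 9) (.e (nat_lit 426555) (nat_lit 32) (.e (nat_lit 376860) (nat_lit 21) (.e (nat_lit 57851) (nat_lit 252) .nil)))))) (.g (nat_lit 6) .nil .nil)))) (.nd (nat_lit 5) 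
(.lf (nat_lit 151832) (.g (nat_lit 2605) (.e (nat_lit 57388) (nat_lit 5) (.e (nat_lit 114698) (nat_lit 11) (.e (nat_lit 426186) (nat_lit 9) (.e (nat_lit 426555) (nat_lit 32) (.e (nat_lit 376860) (nat_lit 21) (.e (nat_lit 57844) (nat_lit 252) .nil)))))) (.g (nat_lit 4) .nil .nil))) 
(.lf (nat_lit 151864) (.g (nat_lit 1106) (.e (nat_lit 57388) (nat_lit 5) (.e (nat_lit 114698) (nat_lit 11) (.e (nat_lit 426198) (nat_lit 9) (.e (nat_lit 426553) (nat_lit 32) .nil)))) .nil))))) (.nd (nat_lit 3) (.nd (nat_lit 4) (.nd (nat_lit 5) 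
(.lf (nat_lit 151812) (.g (nat_lit 2381) (.e (nat_lit 57388) (nat_lit 5) (.e (nat_lit 114697) (nat_lit 11) (.e (nat_lit 426189) (nat_lit 9) (.e (nat_lit 426555) (nat_lit 32) (.e (nat_lit 376859) (nat_lit 21) (.e (nat_lit 57844) (nat_lit 252) .nil)))))) (.g (nat_lit 5) .nil .nil))) 
(.lf (nat_lit 151844) (.g (nat_lit 3303) (.e (nat_lit 57388) (nat_lit 5) (.e (nat_lit 114698) (nat_lit 11) (.e (nat_lit 426187) (nat_lit 9) (.e (nat_lit 426555) (nat_lit 32) (.e (nat_lit 376859) (nat_lit 21) (.e (nat_lit 57848) (nat_lit 252) .nil)))))) (.g (nat_lit 6) .nil .nil)))) (.nd (nat_lit 5) 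
(.lf (nat_lit 151828) (.g (nat_lit 497) (.e (nat_lit 57388) (nat_lit 5) (.e (nat_lit 114698) (nat_lit 11) (.e (nat_lit 426138) (nat_lit 3) .nil))) .nil)) 
(.lf (nat_lit 151860) (.g (nat_lit 3321) (.e (nat_lit 57388) (nat_lit 5) (.e (nat_lit 114698) (nat_lit 11) (.e (nat_lit 426189) (nat_lit 9) (.e (nat_lit 426555) (nat_lit 32) (.e (nat_lit 376860) (nat_lit 21) (.e (nat_lit 57852) (nat_lit 252) .nil)))))) (.g (nat_lit 6) .nil .nil))))) (.nd (nat_lit 4) (.nd (nat_lit 5) 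
(.lf (nat_lit 151820) (.g (nat_lit 2317) (.e (nat_lit 57388) (nat_lit 5) (.e (nat_lit 114697) (nat_lit 11) (.e (nat_lit 426196) (nat_lit 9) (.e (nat_lit 426555) (nat_lit 32) (.e (nat_lit 376860) (nat_lit 21) (.e (nat_lit 57851) (nat_lit 252) .nil)))))) (.g (nat_lit 5) .nil .nil))) 
(.lf (nat_lit 151852) (.g (nat_lit 2323) (.e (nat_lit 57388) (nat_lit 5) (.e (nat_lit 114698) (nat_lit 11) (.e (nat_lit 426189) (nat_lit 9) (.e (nat_lit 426555) (nat_lit 32) (.e (nat_lit 376856) (nat_lit 21) (.e (nat_lit 57854) (nat_lit 252) .nil)))))) (.g (nat_lit 4) .nil .nil)))) (.nd (nat_lit 5) 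
(.lf (nat_lit 151836) (.g (nat_lit 3453) (.e (nat_lit 57388) (nat_lit 5) (.e (nat_lit 114698) (nat_lit 11) (.e (nat_lit 426187) (nat_lit 9) (.e (nat_lit 426555) (nat_lit 32) (.e (nat_lit 376857) (nat_lit 21) (.e (nat_lit 57848) (nat_lit 252) .nil)))))) (.g (nat_lit 6) .nil .nil))) 
(.lf (nat_lit 151868) (.g (nat_lit 1717) (.e (nat_lit 57388) (nat_lit 5) (.e (nat_lit 114698) (nat_lit 11) (.e (nat_lit 426198) (nat_lit 9) (.e (nat_lit 426556) (nat_lit 32) (.e (nat_lit 376859) (nat_lit 21) (.e (nat_lit 57854) (nat_lit 252) .nil)))))) (.g (nat_lit 4) .nil .nil))))))) (.nd (nat_lit 2) (.nd (nat_lit 3) (.nd (nat_lit 4) (.nd (nat_lit 5) 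
(.lf (nat_lit 151810) (.g (nat_lit 2206) (.e (nat_lit 57388) (nat_lit 5) (.e (nat_lit 114697) (nat_lit 11) (.e (nat_lit 426189) (nat_lit 9) (.e (nat_lit 426555) (nat_lit 32) (.e (nat_lit 376857) (nat_lit 21) (.e (nat_lit 57852) (nat_lit 252) .nil)))))) (.g (nat_lit 5) .nil .nil))) 
(.lf (nat_lit 151842) (.g (nat_lit 3639) (.e (nat_lit 57388) (nat_lit 5) (.e (nat_lit 114698) (nat_lit 11) (.e (nat_lit 426187) (nat_lit 9) (.e (nat_lit 426555) (nat_lit 32) (.e (nat_lit 376859) (nat_lit 21) (.e (nat_lit 57846) (nat_lit 252) .nil)))))) (.g (nat_lit 6) .nil .nil)))) (.nd (nat_lit 5) 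
(.lf (nat_lit 151826) (.g (nat_lit 1822) (.e (nat_lit 57388) (nat_lit 5) (.e (nat_lit 114698) (nat_lit 11) (.e (nat_lit 426107) (nat_lit 1) (.e (nat_lit 164422) (nat_lit 272) .nil)))) .nil)) 
(.lf (nat_lit 151858) (.g (nat_lit 2885) (.e (nat_lit 57388) (nat_lit 5) (.e (nat_lit 114698) (nat_lit 11) (.e (nat_lit 426189) (nat_lit 9) (.e (nat_lit 426555) (nat_lit 32) (.e (nat_lit 376859) (nat_lit 21) (.e (nat_lit 57848) (nat_lit 252) .nil)))))) (.g (nat_lit 6) .nil .nil))))) (.nd (nat_lit 4) (.nd (nat_lit 5) 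
(.lf (nat_lit 151818) (.g (nat_lit 2264) (.e (nat_lit 57388) (nat_lit 5) (.e (nat_lit 114697) (nat_lit 11) (.e (nat_lit 426196) (nat_lit 9) (.e (nat_lit 426555) (nat_lit 32) (.e (nat_lit 376857) (nat_lit 21) (.e (nat_lit 57851) (nat_lit 252) .nil)))))) (.g (nat_lit 5) .nil .nil))) 
(.lf (nat_lit 151850) (.g (nat_lit 3807) (.e (nat_lit 57388) (nat_lit 5) (.e (nat_lit 114698) (nat_lit 11) (.e (nat_lit 426187) (nat_lit 9) (.e (nat_lit 426555) (nat_lit 32) (.e (nat_lit 376860) (nat_lit 21) (.e (nat_lit 57854) (nat_lit 252) .nil)))))) (.g (nat_lit 6) .nil .nil)))) (.nd (nat_lit 5) 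
(.lf (nat_lit 151834) (.g (nat_lit 3769) (.e (nat_lit 57388) (nat_lit 5) (.e (nat_lit 114698) (nat_lit 11) (.e (nat_lit 426187) (nat_lit 9) (.e (nat_lit 426555) (nat_lit 32) (.e (nat_lit 376857) (nat_lit 21) (.e (nat_lit 57846) (nat_lit 252) .nil)))))) (.g (nat_lit 6) .nil .nil))) 
(.lf (nat_lit 151866) (.g (nat_lit 1808) (.e (nat_lit 57388) (nat_lit 5) (.e (nat_lit 114698) (nat_lit 11) (.e (nat_lit 426198) (nat_lit 9) (.e (nat_lit 426556) (nat_lit 32) (.e (nat_lit 376859) (nat_lit 21) (.e (nat_lit 57847) (nat_lit 252) .nil)))))) (.g (nat_lit 4) .nil .nil)))))) (.nd (nat_lit 3) (.nd (nat_lit 4) (.nd (nat_lit 5) 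
(.lf (nat_lit 151814) (.g (nat_lit 2223) (.e (nat_lit 57388) (nat_lit 5) (.e (nat_lit 114697) (nat_lit 11) (.e (nat_lit 426189) (nat_lit 9) (.e (nat_lit 426555) (nat_lit 32) (.e (nat_lit 376860) (nat_lit 21) (.e (nat_lit 57851) (nat_lit 252) .nil)))))) (.g (nat_lit 5) .nil .nil))) 
(.lf (nat_lit 151846) (.g (nat_lit 3483) (.e (nat_lit 57388) (nat_lit 5) (.e (nat_lit 114698) (nat_lit 11) (.e (nat_lit 426187) (nat_lit 9) (.e (nat_lit 426555) (nat_lit 32) (.e (nat_lit 376859) (nat_lit 21) (.e (nat_lit 57854) (nat_lit 252) .nil)))))) (.g (nat_lit 6) .nil .nil)))) (.nd (nat_lit 5) 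
(.lf (nat_lit 151830) (.g (nat_lit 2302) (.e (nat_lit 57388) (nat_lit 5) (.e (nat_lit 114698) (nat_lit 11) (.e (nat_lit 426186) (nat_lit 9) (.e (nat_lit 426555) (nat_lit 32) (.e (nat_lit 376856) (nat_lit 21) .nil))))) .nil)) 
(.lf (nat_lit 151862) (.g (nat_lit 2245) (.e (nat_lit 57388) (nat_lit 5) (.e (nat_lit 114698) (nat_lit 11) (.e (nat_lit 426196) (nat_lit 9) (.e (nat_lit 426555) (nat_lit 32) (.e (nat_lit 376856) (nat_lit 21) .nil))))) .nil)))) (.nd (nat_lit 4) (.nd (nat_lit 5) 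
(.lf (nat_lit 151822) (.g (nat_lit 1591) (.e (nat_lit 57388) (nat_lit 5) (.e (nat_lit 114697) (nat_lit 11) (.e (nat_lit 426198) (nat_lit 9) (.e (nat_lit 426556) (nat_lit 32) (.e (nat_lit 376859) (nat_lit 21) (.e (nat_lit 57848) (nat_lit 252) .nil)))))) (.g (nat_lit 4) .nil .nil))) 
(.lf (nat_lit 151854) (.g (nat_lit 2852) (.e (nat_lit 57388) (nat_lit 5) (.e (nat_lit 114698) (nat_lit 11) (.e (nat_lit 426189) (nat_lit 9) (.e (nat_lit 426555) (nat_lit 32) (.e (nat_lit 376857) (nat_lit 21) (.e (nat_lit 57851) (nat_lit 252) .nil)))))) (.g (nat_lit 6) .nil .nil)))) (.nd (nat_lit 5) 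
(.lf (nat_lit 151838) (.g (nat_lit 3551) (.e (nat_lit 57388) (nat_lit 5) (.e (nat_lit 114698) (nat_lit 11) (.e (nat_lit 426187) (nat_lit 9) (.e (nat_lit 426555) (nat_lit 32) (.e (nat_lit 376857) (nat_lit 21) (.e (nat_lit 57852) (nat_lit 252) .nil)))))) (.g (nat_lit 6) .nil .nil))) 
(.lf (nat_lit 151870) (.g (nat_lit 1885) (.e (nat_lit 57388) (nat_lit 5) (.e (nat_lit 114698) (nat_lit 11) (.e (nat_lit 426199) (nat_lit 9) (.e (nat_lit 426542) (nat_lit 29) (.e (nat_lit 352307) (nat_lit 21) .nil))))) .nil))))))) (.nd (nat_lit 1) (.nd (nat_lit 2) (.nd (nat_lit 3) (.nd (nat_lit 4) (.nd (nat_lit 5) 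
(.lf (nat_lit 151809) (.g (nat_lit 2163) (.e (nat_lit 57388) (nat_lit 5) (.e (nat_lit 114697) (nat_lit 11) (.e (nat_lit 426189) (nat_lit 9) (.e (nat_lit 426555) (nat_lit 32) (.e (nat_lit 376857) (nat_lit 21) (.e (nat_lit 57851) (nat_lit 252) .nil)))))) (.g (nat_lit 5) .nil .nil))) 
(.lf (nat_lit 151841) (.g (nat_lit 3440) (.e (nat_lit 57388) (nat_lit 5) (.e (nat_lit 114698) (nat_lit 11) (.e (nat_lit 426187) (nat_lit 9) (.e (nat_lit 426555) (nat_lit 32) (.e (nat_lit 376859) (nat_lit 21) (.e (nat_lit 57844) (nat_lit 252) .nil)))))) (.g (nat_lit 6) .nil .nil)))) (.nd (nat_lit 5) 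
(.lf (nat_lit 151825) (.g (nat_lit 1818) (.e (nat_lit 57388) (nat_lit 5) (.e (nat_lit 114698) (nat_lit 11) (.e (nat_lit 426011) (nat_lit 0) (.e (nat_lit 3280) (nat_lit 200) .nil)))) .nil)) 
(.lf (nat_lit 151857) (.g (nat_lit 3049) (.e (nat_lit 57388) (nat_lit 5) (.e (nat_lit 114698) (nat_lit 11) (.e (nat_lit 426189) (nat_lit 9) (.e (nat_lit 426555) (nat_lit 32) (.e (nat_lit 376859) (nat_lit 21) (.e (nat_lit 57847) (nat_lit 252) .nil)))))) (.g (nat_lit 6) .nil .nil))))) (.nd (nat_lit 4) (.nd (nat_lit 5) 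
(.lf (nat_lit 151817) (.g (nat_lit 2344) (.e (nat_lit 57388) (nat_lit 5) (.e (nat_lit 114697) (nat_lit 11) (.e (nat_lit 426196) (nat_lit 9) (.e (nat_lit 426555) (nat_lit 32) (.e (nat_lit 376857) (nat_lit 21) (.e (nat_lit 57848) (nat_lit 252) .nil)))))) (.g (nat_lit 5) .nil .nil))) 
(.lf (nat_lit 151849) (.g (nat_lit 3813) (.e (nat_lit 57388) (nat_lit 5) (.e (nat_lit 114698) (nat_lit 11) (.e (nat_lit 426187) (nat_lit 9) (.e (nat_lit 426555) (nat_lit 32) (.e (nat_lit 376860) (nat_lit 21) (.e (nat_lit 57852) (nat_lit 252) .nil)))))) (.g (nat_lit 6) .nil .nil)))) (.nd (nat_lit 5) 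
(.lf (nat_lit 151833) (.g (nat_lit 2764) (.e (nat_lit 57388) (nat_lit 5) (.e (nat_lit 114698) (nat_lit 11) (.e (nat_lit 426187) (nat_lit 9) (.e (nat_lit 426555) (nat_lit 32) (.e (nat_lit 376857) (nat_lit 21) (.e (nat_lit 57844) (nat_lit 252) .nil)))))) (.g (nat_lit 5) .nil .nil))) 
(.lf (nat_lit 151865) (.g (nat_lit 1106) (.e (nat_lit 57388) (nat_lit 5) (.e (nat_lit 114698) (nat_lit 11) (.e (nat_lit 426198) (nat_lit 9) (.e (nat_lit 426556) (nat_lit 32) .nil)))) .nil))))) (.nd (nat_lit 3) (.nd (nat_lit 4) (.nd (nat_lit 5) 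
(.lf (nat_lit 151813) (.g (nat_lit 2141) (.e (nat_lit 57388) (nat_lit 5) (.e (nat_lit 114697) (nat_lit 11) (.e (nat_lit 426189) (nat_lit 9) (.e (nat_lit 426555) (nat_lit 32) (.e (nat_lit 376859) (nat_lit 21) (.e (nat_lit 57848) (nat_lit 252) .nil)))))) (.g (nat_lit 5) .nil .nil))) 
(.lf (nat_lit 151845) (.g (nat_lit 3049) (.e (nat_lit 57388) (nat_lit 5) (.e (nat_lit 114698) (nat_lit 11) (.e (nat_lit 426187) (nat_lit 9) (.e (nat_lit 426555) (nat_lit 32) (.e (nat_lit 376859) (nat_lit 21) (.e (nat_lit 57851) (nat_lit 252) .nil)))))) (.g (nat_lit 5) .nil .nil)))) (.nd (nat_lit 5) 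
(.lf (nat_lit 151829) (.g (nat_lit 763) (.e (nat_lit 57388) (nat_lit 5) (.e (nat_lit 114698) (nat_lit 11) (.e (nat_lit 426186) (nat_lit 9) .nil))) .nil)) 
(.lf (nat_lit 151861) (.g (nat_lit 1553) (.e (nat_lit 57388) (nat_lit 5) (.e (nat_lit 114698) (nat_lit 11) (.e (nat_lit 426196) (nat_lit 9) (.e (nat_lit 426542) (nat_lit 29) (.e (nat_lit 352307) (nat_lit 21) .nil))))) .nil)))) (.nd (nat_lit 4) (.nd (nat_lit 5) 
(.lf (nat_lit 151821) (.g (nat_lit 2574) (.e (nat_lit 57388) (nat_lit 5) (.e (nat_lit 114697) (nat_lit 11) (.e (nat_lit 426196) (nat_lit 9) (.e (nat_lit 426555) (nat_lit 32) (.e (nat_lit 376860) (nat_lit 21) (.e (nat_lit 57852) (nat_lit 252) .nil)))))) (.g (nat_lit 5) .nil .nil))) 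
(.lf (nat_lit 151853) (.g (nat_lit 2912) (.e (nat_lit 57388) (nat_lit 5) (.e (nat_lit 114698) (nat_lit 11) (.e (nat_lit 426189) (nat_lit 9) (.e (nat_lit 426555) (nat_lit 32) (.e (nat_lit 376857) (nat_lit 21) (.e (nat_lit 57848) (nat_lit 252) .nil)))))) (.g (nat_lit 6) .nil .nil)))) (.nd (nat_lit 5) 
(.lf (nat_lit 151837) (.g (nat_lit 3429) (.e (nat_lit 57388) (nat_lit 5) (.e (nat_lit 114698) (nat_lit 11) (.e (nat_lit 426187) (nat_lit 9) (.e (nat_lit 426555) (nat_lit 32) (.e (nat_lit 376857) (nat_lit 21) (.e (nat_lit 57851) (nat_lit 252) .nil)))))) (.g (nat_lit 6) .nil .nil))) 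
(.lf (nat_lit 151869) (.g (nat_lit 2115) (.e (nat_lit 57388) (nat_lit 5) (.e (nat_lit 114698) (nat_lit 11) (.e (nat_lit 426199) (nat_lit 9) (.e (nat_lit 426538) (nat_lit 29) (.e (nat_lit 352309) (nat_lit 21) (.e (nat_lit 57854) (nat_lit 252) .nil)))))) (.g (nat_lit 4) .nil .nil))))))) (.nd (nat_lit 2) (.nd (nat_lit 3) (.nd (nat_lit 4) (.nd (nat_lit 5) 
(.lf (nat_lit 151811) (.g (nat_lit 2838) (.e (nat_lit 57388) (nat_lit 5) (.e (nat_lit 114697) (nat_lit 11) (.e (nat_lit 426189) (nat_lit 9) (.e (nat_lit 426555) (nat_lit 32) (.e (nat_lit 376857) (nat_lit 21) (.e (nat_lit 57854) (nat_lit 252) .nil)))))) (.g (nat_lit 0) .nil .nil))) 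
(.lf (nat_lit 151843) (.g (nat_lit 3461) (.e (nat_lit 57388) (nat_lit 5) (.e (nat_lit 114698) (nat_lit 11) (.e (nat_lit 426187) (nat_lit 9) (.e (nat_lit 426555) (nat_lit 32) (.e (nat_lit 376859) (nat_lit 21) (.e (nat_lit 57847) (nat_lit 252) .nil)))))) (.g (nat_lit 6) .nil .nil)))) (.nd (nat_lit 5) 
(.lf (nat_lit 151827) (.g (nat_lit 2101) (.e (nat_lit 57388) (nat_lit 5) (.e (nat_lit 114698) (nat_lit 11) (.e (nat_lit 426108) (nat_lit 1) (.e (nat_lit 164421) (nat_lit 272) .nil)))) .nil)) 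
(.lf (nat_lit 151859) (.g (nat_lit 2584) (.e (nat_lit 57388) (nat_lit 5) (.e (nat_lit 114698) (nat_lit 11) (.e (nat_lit 426189) (nat_lit 9) (.e (nat_lit 426555) (nat_lit 32) (.e (nat_lit 376859) (nat_lit 21) (.e (nat_lit 57851) (nat_lit 252) .nil)))))) (.g (nat_lit 5) .nil .nil))))) (.nd (nat_lit 4) (.nd (nat_lit 5) 
(.lf (nat_lit 151819) (.g (nat_lit 2200) (.e (nat_lit 57388) (nat_lit 5) (.e (nat_lit 114697) (nat_lit 11) (.e (nat_lit 426196) (nat_lit 9) (.e (nat_lit 426555) (nat_lit 32) (.e (nat_lit 376859) (nat_lit 21) (.e (nat_lit 57848) (nat_lit 252) .nil)))))) (.g (nat_lit 5) .nil .nil))) 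
(.lf (nat_lit 151851) (.g (nat_lit 1931) (.e (nat_lit 57388) (nat_lit 5) (.e (nat_lit 114698) (nat_lit 11) (.e (nat_lit 426189) (nat_lit 9) (.e (nat_lit 426555) (nat_lit 32) (.e (nat_lit 376856) (nat_lit 21) .nil))))) .nil))) (.nd (nat_lit 5) 
(.lf (nat_lit 151835) (.g (nat_lit 3671) (.e (nat_lit 57388) (nat_lit 5) (.e (nat_lit 114698) (nat_lit 11) (.e (nat_lit 426187) (nat_lit 9) (.e (nat_lit 426555) (nat_lit 32) (.e (nat_lit 376857) (nat_lit 21) (.e (nat_lit 57847) (nat_lit 252) .nil)))))) (.g (nat_lit 6) .nil .nil))) 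
(.lf (nat_lit 151867) (.g (nat_lit 2280) (.e (nat_lit 57388) (nat_lit 5) (.e (nat_lit 114698) (nat_lit 11) (.e (nat_lit 426198) (nat_lit 9) (.e (nat_lit 426556) (nat_lit 32) (.e (nat_lit 376859) (nat_lit 21) (.e (nat_lit 57848) (nat_lit 252) .nil)))))) (.g (nat_lit 5) .nil .nil)))))) (.nd (nat_lit 3) (.nd (nat_lit 4) (.nd (nat_lit 5) 
(.lf (nat_lit 151815) (.g (nat_lit 2497) (.e (nat_lit 57388) (nat_lit 5) (.e (nat_lit 114697) (nat_lit 11) (.e (nat_lit 426189) (nat_lit 9) (.e (nat_lit 426555) (nat_lit 32) (.e (nat_lit 376860) (nat_lit 21) (.e (nat_lit 57852) (nat_lit 252) .nil)))))) (.g (nat_lit 5) .nil .nil))) 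
(.lf (nat_lit 151847) (.g (nat_lit 2716) (.e (nat_lit 57388) (nat_lit 5) (.e (nat_lit 114698) (nat_lit 11) (.e (nat_lit 426187) (nat_lit 9) (.e (nat_lit 426555) (nat_lit 32) (.e (nat_lit 376860) (nat_lit 21) (.e (nat_lit 57844) (nat_lit 252) .nil)))))) (.g (nat_lit 4) .nil .nil)))) (.nd (nat_lit 5) 
(.lf (nat_lit 151831) (.g (nat_lit 2974) (.e (nat_lit 57388) (nat_lit 5) (.e (nat_lit 114698) (nat_lit 11) (.e (nat_lit 426186) (nat_lit 9) (.e (nat_lit 426555) (nat_lit 32) (.e (nat_lit 376859) (nat_lit 21) (.e (nat_lit 57851) (nat_lit 252) .nil)))))) (.g (nat_lit 5) .nil .nil))) 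
(.lf (nat_lit 151863) (.g (nat_lit 2767) (.e (nat_lit 57388) (nat_lit 5) (.e (nat_lit 114698) (nat_lit 11) (.e (nat_lit 426196) (nat_lit 9) (.e (nat_lit 426555) (nat_lit 32) (.e (nat_lit 376859) (nat_lit 21) (.e (nat_lit 57851) (nat_lit 252) .nil)))))) (.g (nat_lit 5) .nil .nil))))) (.nd (nat_lit 4) (.nd (nat_lit 5) 
(.lf (nat_lit 151823) (.g (nat_lit 1590) (.e (nat_lit 57388) (nat_lit 5) (.e (nat_lit 114697) (nat_lit 11) (.e (nat_lit 426199) (nat_lit 9) (.e (nat_lit 426556) (nat_lit 32) (.e (nat_lit 376859) (nat_lit 21) (.e (nat_lit 57848) (nat_lit 252) .nil)))))) (.g (nat_lit 4) .nil .nil))) 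
(.lf (nat_lit 151855) (.g (nat_lit 3046) (.e (nat_lit 57388) (nat_lit 5) (.e (nat_lit 114698) (nat_lit 11) (.e (nat_lit 426189) (nat_lit 9) (.e (nat_lit 426555) (nat_lit 32) (.e (nat_lit 376857) (nat_lit 21) (.e (nat_lit 57852) (nat_lit 252) .nil)))))) (.g (nat_lit 6) .nil .nil)))) (.nd (nat_lit 5) 
(.lf (nat_lit 151839) (.g (nat_lit 3861) (.e (nat_lit 57388) (nat_lit 5) (.e (nat_lit 114698) (nat_lit 11) (.e (nat_lit 426187) (nat_lit 9) (.e (nat_lit 426555) (nat_lit 32) (.e (nat_lit 376857) (nat_lit 21) (.e (nat_lit 57853) (nat_lit 252) .nil)))))) (.g (nat_lit 6) .nil .nil))) 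
(.lf (nat_lit 151871) (.g (nat_lit 1880) (.e (nat_lit 57388) (nat_lit 5) (.e (nat_lit 114698) (nat_lit 11) (.e (nat_lit 426199) (nat_lit 9) (.e (nat_lit 426542) (nat_lit 29) (.e (nat_lit 352309) (nat_lit 21) .nil))))) .nil))))))))

noncomputable def tv2025 : DT := (.nd (nat_lit 0) (.nd (nat_lit 1) (.nd (nat_lit 2) (.nd (nat_lit 3) (.nd (nat_lit 4) (.nd (nat_lit 5) 
(.lf (nat_lit 151872) (.g (nat_lit 1002) (.e (nat_lit 57388) (nat_lit 5) (.e (nat_lit 114698) (nat_lit 11) (.e (nat_lit 426199) (nat_lit 9) (.e (nat_lit 426544) (nat_lit 30) .nil)))) .nil)) 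
(.lf (nat_lit 151904) (.g (nat_lit 1325) (.e (nat_lit 57388) (nat_lit 5) (.e (nat_lit 114714) (nat_lit 22) (.e (nat_lit 90160) (nat_lit 11) (.e (nat_lit 24617) (nat_lit 7) .nil)))) .nil))) (.nd (nat_lit 5) 
(.lf (nat_lit 151888) (.g (nat_lit 4101) (.e (nat_lit 57388) (nat_lit 5) (.e (nat_lit 114711) (nat_lit 21) (.e (nat_lit 57847) (nat_lit 252) (.e (nat_lit 57407) (nat_lit 12) (.e (nat_lit 336019) (nat_lit 3) (.e (nat_lit 98341) (nat_lit 20) (.e (nat_lit 229120) (nat_lit 1) (.e (nat_lit 57854) (nat_lit 252) .nil)))))))) (.g (nat_lit 5) .nil .nil))) 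
(.lf (nat_lit 151920) (.g (nat_lit 4461) (.e (nat_lit 57388) (nat_lit 5) (.e (nat_lit 114719) (nat_lit 23) (.e (nat_lit 98365) (nat_lit 26) (.e (nat_lit 426116) (nat_lit 2) (.e (nat_lit 196656) (nat_lit 11) (.e (nat_lit 16392) (nat_lit 0) (.e (nat_lit 2397) (nat_lit 157) (.e (nat_lit 4003) (nat_lit 241) .nil)))))))) (.g (nat_lit 5) .nil .nil))))) (.nd (nat_lit 4) (.nd (nat_lit 5) 
(.lf (nat_lit 151880) (.g (nat_lit 2849) (.e (nat_lit 57388) (nat_lit 5) (.e (nat_lit 114698) (nat_lit 11) (.e (nat_lit 426333) (nat_lit 13) (.e (nat_lit 483393) (nat_lit 23) (.e (nat_lit 335988) (nat_lit 1) (.e (nat_lit 57852) (nat_lit 252) .nil)))))) (.g (nat_lit 6) .nil .nil))) 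
(.lf (nat_lit 151912) (.g (nat_lit 823) (.e (nat_lit 57388) (nat_lit 5) (.e (nat_lit 114719) (nat_lit 23) (.e (nat_lit 98317) (nat_lit 9) .nil))) .nil))) (.nd (nat_lit 5) 
(.lf (nat_lit 151896) (.g (nat_lit 2959) (.e (nat_lit 57388) (nat_lit 5) (.e (nat_lit 114711) (nat_lit 21) (.e (nat_lit 57848) (nat_lit 252) (.e (nat_lit 57407) (nat_lit 12) (.e (nat_lit 336019) (nat_lit 3) (.e (nat_lit 98341) (nat_lit 20) (.e (nat_lit 229120) (nat_lit 1) (.e (nat_lit 57849) (nat_lit 252) .nil)))))))) (.g (nat_lit 5) .nil .nil))) 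
(.lf (nat_lit 151928) (.g (nat_lit 2721) (.e (nat_lit 57389) (nat_lit 5) (.e (nat_lit 114694) (nat_lit 11) (.e (nat_lit 426188) (nat_lit 9) (.e (nat_lit 426555) (nat_lit 32) (.e (nat_lit 376860) (nat_lit 21) (.e (nat_lit 57854) (nat_lit 252) .nil)))))) (.g (nat_lit 5) .nil .nil)))))) (.nd (nat_lit 3) (.nd (nat_lit 4) (.nd (nat_lit 5) 
(.lf (nat_lit 151876) (.g (nat_lit 2289) (.e (nat_lit 57388) (nat_lit 5) (.e (nat_lit 114698) (nat_lit 11) (.e (nat_lit 426199) (nat_lit 9) (.e (nat_lit 426556) (nat_lit 32) (.e (nat_lit 376859) (nat_lit 21) (.e (nat_lit 57848) (nat_lit 252) .nil)))))) (.g (nat_lit 5) .nil .nil))) 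
(.lf (nat_lit 151908) (.g (nat_lit 2408) (.e (nat_lit 57388) (nat_lit 5) (.e (nat_lit 114714) (nat_lit 22) (.e (nat_lit 90172) (nat_lit 14) (.e (nat_lit 180244) (nat_lit 5) (.e (nat_lit 532579) (nat_lit 26) (.e (nat_lit 426107) (nat_lit 1) (.e (nat_lit 171776) (nat_lit 136) .nil))))))) (.g (nat_lit 4) .nil .nil)))) (.nd (nat_lit 5) 
(.lf (nat_lit 151892) (.g (nat_lit 2691) (.e (nat_lit 57388) (nat_lit 5) (.e (nat_lit 114711) (nat_lit 21) (.e (nat_lit 57847) (nat_lit 252) (.e (nat_lit 57421) (nat_lit 13) (.e (nat_lit 344133) (nat_lit 26) (.e (nat_lit 557098) (nat_lit 13) (.e (nat_lit 172061) (nat_lit 1) (.e (nat_lit 164319) (nat_lit 228) .nil)))))))) (.g (nat_lit 4) .nil .nil))) 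
(.lf (nat_lit 151924) (.g (nat_lit 913) (.e (nat_lit 57389) (nat_lit 5) (.e (nat_lit 114694) (nat_lit 11) (.e (nat_lit 426187) (nat_lit 9) (.e (nat_lit 426555) (nat_lit 32) .nil)))) .nil)))) (.nd (nat_lit 4) (.nd (nat_lit 5) 
(.lf (nat_lit 151884) (.g (nat_lit 3842) (.e (nat_lit 57388) (nat_lit 5) (.e (nat_lit 114710) (nat_lit 21) (.e (nat_lit 57854) (nat_lit 252) (.e (nat_lit 57409) (nat_lit 12) (.e (nat_lit 336019) (nat_lit 3) (.e (nat_lit 98342) (nat_lit 20) (.e (nat_lit 229120) (nat_lit 1) (.e (nat_lit 57849) (nat_lit 252) .nil)))))))) (.g (nat_lit 5) .nil .nil))) 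
(.lf (nat_lit 151916) (.g (nat_lit 824) (.e (nat_lit 57388) (nat_lit 5) (.e (nat_lit 114719) (nat_lit 23) (.e (nat_lit 106240) (nat_lit 12) .nil))) .nil))) (.nd (nat_lit 5) 
(.lf (nat_lit 151900) (.g (nat_lit 2353) (.e (nat_lit 57388) (nat_lit 5) (.e (nat_lit 114712) (nat_lit 21) (.e (nat_lit 57852) (nat_lit 252) (.e (nat_lit 57421) (nat_lit 13) (.e (nat_lit 344130) (nat_lit 26) (.e (nat_lit 557097) (nat_lit 13) (.e (nat_lit 172061) (nat_lit 1) (.e (nat_lit 164319) (nat_lit 228) .nil)))))))) (.g (nat_lit 4) .nil .nil))) 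
(.lf (nat_lit 151932) (.g (nat_lit 2344) (.e (nat_lit 57389) (nat_lit 5) (.e (nat_lit 114695) (nat_lit 11) (.e (nat_lit 426260) (nat_lit 9) (.e (nat_lit 426554) (nat_lit 32) (.e (nat_lit 376857) (nat_lit 21) (.e (nat_lit 57853) (nat_lit 252) .nil)))))) (.g (nat_lit 0) .nil .nil))))))) (.nd (nat_lit 2) (.nd (nat_lit 3) (.nd (nat_lit 4) (.nd (nat_lit 5) 
(.lf (nat_lit 151874) (.g (nat_lit 1032) (.e (nat_lit 57388) (nat_lit 5) (.e (nat_lit 114698) (nat_lit 11) (.e (nat_lit 426199) (nat_lit 9) (.e (nat_lit 426556) (nat_lit 32) .nil)))) .nil)) 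
(.lf (nat_lit 151906) (.g (nat_lit 1957) (.e (nat_lit 57388) (nat_lit 5) (.e (nat_lit 114714) (nat_lit 22) (.e (nat_lit 90172) (nat_lit 14) (.e (nat_lit 180229) (nat_lit 0) (.e (nat_lit 5902) (nat_lit 320) .nil))))) .nil))) (.nd (nat_lit 5) 
(.lf (nat_lit 151890) (.g (nat_lit 2746) (.e (nat_lit 57388) (nat_lit 5) (.e (nat_lit 114711) (nat_lit 21) (.e (nat_lit 57847) (nat_lit 252) (.e (nat_lit 57411) (nat_lit 12) (.e (nat_lit 336019) (nat_lit 3) .nil))))) .nil)) 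
(.lf (nat_lit 151922) (.g (nat_lit 798) (.e (nat_lit 57388) (nat_lit 5) (.e (nat_lit 114719) (nat_lit 23) (.e (nat_lit 98366) (nat_lit 27) .nil))) .nil)))) (.nd (nat_lit 4) (.nd (nat_lit 5) 
(.lf (nat_lit 151882) (.g (nat_lit 3681) (.e (nat_lit 57388) (nat_lit 5) (.e (nat_lit 114710) (nat_lit 21) (.e (nat_lit 57847) (nat_lit 252) (.e (nat_lit 57407) (nat_lit 12) (.e (nat_lit 336019) (nat_lit 3) (.e (nat_lit 98342) (nat_lit 20) (.e (nat_lit 229120) (nat_lit 1) (.e (nat_lit 57849) (nat_lit 252) .nil)))))))) (.g (nat_lit 5) .nil .nil))) 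
(.lf (nat_lit 151914) (.g (nat_lit 2720) (.e (nat_lit 57388) (nat_lit 5) (.e (nat_lit 114719) (nat_lit 23) (.e (nat_lit 98317) (nat_lit 9) (.e (nat_lit 336194) (nat_lit 12) (.e (nat_lit 385066) (nat_lit 26) .nil))))) .nil))) (.nd (nat_lit 5) 
(.lf (nat_lit 151898) (.g (nat_lit 1411) (.e (nat_lit 57388) (nat_lit 5) (.e (nat_lit 114712) (nat_lit 21) (.e (nat_lit 57852) (nat_lit 252) (.e (nat_lit 57421) (nat_lit 13) .nil)))) .nil)) 
(.lf (nat_lit 151930) (.g (nat_lit 2079) (.e (nat_lit 57389) (nat_lit 5) (.e (nat_lit 114694) (nat_lit 11) (.e (nat_lit 426190) (nat_lit 9) (.e (nat_lit 426555) (nat_lit 32) (.e (nat_lit 376859) (nat_lit 21) (.e (nat_lit 57854) (nat_lit 252) .nil)))))) (.g (nat_lit 4) .nil .nil)))))) (.nd (nat_lit 3) (.nd (nat_lit 4) (.nd (nat_lit 5) 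
(.lf (nat_lit 151878) (.g (nat_lit 2266) (.e (nat_lit 57388) (nat_lit 5) (.e (nat_lit 114698) (nat_lit 11) (.e (nat_lit 426333) (nat_lit 13) (.e (nat_lit 483393) (nat_lit 23) (.e (nat_lit 335987) (nat_lit 1) (.e (nat_lit 57852) (nat_lit 252) .nil)))))) (.g (nat_lit 6) .nil .nil))) 
(.lf (nat_lit 151910) (.g (nat_lit 1952) (.e (nat_lit 57388) (nat_lit 5) (.e (nat_lit 114716) (nat_lit 22) (.e (nat_lit 90160) (nat_lit 11) (.e (nat_lit 24617) (nat_lit 7) (.e (nat_lit 319504) (nat_lit 10) .nil))))) .nil))) (.nd (nat_lit 5) 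
(.lf (nat_lit 151894) (.g (nat_lit 3316) (.e (nat_lit 57388) (nat_lit 5) (.e (nat_lit 114711) (nat_lit 21) (.e (nat_lit 57847) (nat_lit 252) (.e (nat_lit 57430) (nat_lit 16) (.e (nat_lit 368676) (nat_lit 21) (.e (nat_lit 516129) (nat_lit 3) (.e (nat_lit 229120) (nat_lit 1) (.e (nat_lit 57849) (nat_lit 252) .nil)))))))) (.g (nat_lit 6) .nil .nil))) 
(.lf (nat_lit 151926) (.g (nat_lit 1768) (.e (nat_lit 57389) (nat_lit 5) (.e (nat_lit 114694) (nat_lit 11) (.e (nat_lit 426188) (nat_lit 9) (.e (nat_lit 426555) (nat_lit 32) (.e (nat_lit 376857) (nat_lit 21) .nil))))) .nil)))) (.nd (nat_lit 4) (.nd (nat_lit 5) 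
(.lf (nat_lit 151886) (.g (nat_lit 3157) (.e (nat_lit 57388) (nat_lit 5) (.e (nat_lit 114711) (nat_lit 21) (.e (nat_lit 57847) (nat_lit 252) (.e (nat_lit 57407) (nat_lit 12) (.e (nat_lit 336019) (nat_lit 3) (.e (nat_lit 98341) (nat_lit 20) (.e (nat_lit 229120) (nat_lit 1) (.e (nat_lit 57848) (nat_lit 252) .nil)))))))) (.g (nat_lit 4) .nil .nil))) 
(.lf (nat_lit 151918) (.g (nat_lit 2294) (.e (nat_lit 57388) (nat_lit 5) (.e (nat_lit 114719) (nat_lit 23) (.e (nat_lit 98365) (nat_lit 26) (.e (nat_lit 426116) (nat_lit 2) (.e (nat_lit 196654) (nat_lit 11) .nil))))) .nil))) (.nd (nat_lit 5) 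
(.lf (nat_lit 151902) (.g (nat_lit 2353) (.e (nat_lit 57388) (nat_lit 5) (.e (nat_lit 114712) (nat_lit 21) (.e (nat_lit 57852) (nat_lit 252) (.e (nat_lit 57421) (nat_lit 13) (.e (nat_lit 344132) (nat_lit 26) (.e (nat_lit 557101) (nat_lit 13) (.e (nat_lit 172061) (nat_lit 1) (.e (nat_lit 164319) (nat_lit 228) .nil)))))))) (.g (nat_lit 4) .nil .nil))) 
(.lf (nat_lit 151934) (.g (nat_lit 1887) (.e (nat_lit 57389) (nat_lit 5) (.e (nat_lit 114695) (nat_lit 11) (.e (nat_lit 426260) (nat_lit 9) (.e (nat_lit 426554) (nat_lit 32) (.e (nat_lit 376860) (nat_lit 21) (.e (nat_lit 57851) (nat_lit 252) .nil)))))) (.g (nat_lit 0) .nil .nil)))))))) (.nd (nat_lit 1) (.nd (nat_lit 2) (.nd (nat_lit 3) (.nd (nat_lit 4) (.nd (nat_lit 5) 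
(.lf (nat_lit 151873) (.g (nat_lit 1022) (.e (nat_lit 57388) (nat_lit 5) (.e (nat_lit 114698) (nat_lit 11) (.e (nat_lit 426199) (nat_lit 9) (.e (nat_lit 426553) (nat_lit 32) .nil)))) .nil)) 
(.lf (nat_lit 151905) (.g (nat_lit 1437) (.e (nat_lit 57388) (nat_lit 5) (.e (nat_lit 114714) (nat_lit 22) (.e (nat_lit 90172) (nat_lit 14) (.e (nat_lit 180229) (nat_lit 0) .nil)))) .nil))) (.nd (nat_lit 5) 
(.lf (nat_lit 151889) (.g (nat_lit 5162) (.e (nat_lit 57388) (nat_lit 5) (.e (nat_lit 114711) (nat_lit 21) (.e (nat_lit 57847) (nat_lit 252) (.e (nat_lit 57407) (nat_lit 12) (.e (nat_lit 336019) (nat_lit 3) (.e (nat_lit 98342) (nat_lit 20) (.e (nat_lit 229120) (nat_lit 1) (.e (nat_lit 57849) (nat_lit 252) .nil)))))))) (.g (nat_lit 6) .nil .nil))) 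
(.lf (nat_lit 151921) (.g (nat_lit 2908) (.e (nat_lit 57388) (nat_lit 5) (.e (nat_lit 114719) (nat_lit 23) (.e (nat_lit 98365) (nat_lit 26) (.e (nat_lit 426133) (nat_lit 3) (.e (nat_lit 212736) (nat_lit 10) .nil))))) .nil)))) (.nd (nat_lit 4) (.nd (nat_lit 5) 
(.lf (nat_lit 151881) (.g (nat_lit 3790) (.e (nat_lit 57388) (nat_lit 5) (.e (nat_lit 114710) (nat_lit 21) (.e (nat_lit 57847) (nat_lit 252) (.e (nat_lit 57407) (nat_lit 12) (.e (nat_lit 336019) (nat_lit 3) (.e (nat_lit 98341) (nat_lit 20) (.e (nat_lit 229120) (nat_lit 1) (.e (nat_lit 57849) (nat_lit 252) .nil)))))))) (.g (nat_lit 5) .nil .nil))) 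
(.lf (nat_lit 151913) (.g (nat_lit 1931) (.e (nat_lit 57388) (nat_lit 5) (.e (nat_lit 114719) (nat_lit 23) (.e (nat_lit 98317) (nat_lit 9) (.e (nat_lit 336174) (nat_lit 10) .nil)))) .nil))) (.nd (nat_lit 5) 
(.lf (nat_lit 151897) (.g (nat_lit 3450) (.e (nat_lit 57388) (nat_lit 5) (.e (nat_lit 114711) (nat_lit 21) (.e (nat_lit 57854) (nat_lit 252) (.e (nat_lit 57409) (nat_lit 12) (.e (nat_lit 336019) (nat_lit 3) .nil))))) .nil)) 
(.lf (nat_lit 151929) (.g (nat_lit 1773) (.e (nat_lit 57389) (nat_lit 5) (.e (nat_lit 114694) (nat_lit 11) (.e (nat_lit 426190) (nat_lit 9) (.e (nat_lit 426555) (nat_lit 32) (.e (nat_lit 376857) (nat_lit 21) .nil))))) .nil))))) (.nd (nat_lit 3) (.nd (nat_lit 4) (.nd (nat_lit 5) 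
(.lf (nat_lit 151877) (.g (nat_lit 775) (.e (nat_lit 57388) (nat_lit 5) (.e (nat_lit 114698) (nat_lit 11) (.e (nat_lit 426258) (nat_lit 9) .nil))) .nil)) 
(.lf (nat_lit 151909) (.g (nat_lit 1378) (.e (nat_lit 57388) (nat_lit 5) (.e (nat_lit 114716) (nat_lit 22) (.e (nat_lit 90157) (nat_lit 11) (.e (nat_lit 24650) (nat_lit 12) (.e (nat_lit 385066) (nat_lit 26) .nil))))) .nil))) (.nd (nat_lit 5) 
(.lf (nat_lit 151893) (.g (nat_lit 1387) (.e (nat_lit 57388) (nat_lit 5) (.e (nat_lit 114711) (nat_lit 21) (.e (nat_lit 57847) (nat_lit 252) (.e (nat_lit 57430) (nat_lit 16) .nil)))) .nil)) 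
(.lf (nat_lit 151925) (.g (nat_lit 1220) (.e (nat_lit 57389) (nat_lit 5) (.e (nat_lit 114694) (nat_lit 11) (.e (nat_lit 426188) (nat_lit 9) (.e (nat_lit 426555) (nat_lit 32) .nil)))) .nil)))) (.nd (nat_lit 4) (.nd (nat_lit 5) 
(.lf (nat_lit 151885) (.g (nat_lit 3103) (.e (nat_lit 57388) (nat_lit 5) (.e (nat_lit 114711) (nat_lit 21) (.e (nat_lit 57847) (nat_lit 252) (.e (nat_lit 57407) (nat_lit 12) (.e (nat_lit 336019) (nat_lit 3) .nil))))) .nil)) 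
(.lf (nat_lit 151917) (.g (nat_lit 1719) (.e (nat_lit 57388) (nat_lit 5) (.e (nat_lit 114719) (nat_lit 23) (.e (nat_lit 98365) (nat_lit 26) (.e (nat_lit 426115) (nat_lit 2) .nil)))) .nil))) (.nd (nat_lit 5) 
(.lf (nat_lit 151901) (.g (nat_lit 2453) (.e (nat_lit 57388) (nat_lit 5) (.e (nat_lit 114712) (nat_lit 21) (.e (nat_lit 57852) (nat_lit 252) (.e (nat_lit 57421) (nat_lit 13) (.e (nat_lit 344132) (nat_lit 26) (.e (nat_lit 557100) (nat_lit 13) (.e (nat_lit 172061) (nat_lit 1) (.e (nat_lit 164319) (nat_lit 228) .nil)))))))) (.g (nat_lit 4) .nil .nil))) 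
(.lf (nat_lit 151933) (.g (nat_lit 2268) (.e (nat_lit 57389) (nat_lit 5) (.e (nat_lit 114695) (nat_lit 11) (.e (nat_lit 426260) (nat_lit 9) (.e (nat_lit 426554) (nat_lit 32) (.e (nat_lit 376857) (nat_lit 21) (.e (nat_lit 57854) (nat_lit 252) .nil)))))) (.g (nat_lit 0) .nil .nil))))))) (.nd (nat_lit 2) (.nd (nat_lit 3) (.nd (nat_lit 4) (.nd (nat_lit 5) 
(.lf (nat_lit 151875) (.g (nat_lit 1817) (.e (nat_lit 57388) (nat_lit 5) (.e (nat_lit 114698) (nat_lit 11) (.e (nat_lit 426199) (nat_lit 9) (.e (nat_lit 426556) (nat_lit 32) (.e (nat_lit 376859) (nat_lit 21) (.e (nat_lit 57847) (nat_lit 252) .nil)))))) (.g (nat_lit 4) .nil .nil))) 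
(.lf (nat_lit 151907) (.g (nat_lit 1166) (.e (nat_lit 57388) (nat_lit 5) (.e (nat_lit 114714) (nat_lit 22) (.e (nat_lit 90172) (nat_lit 14) (.e (nat_lit 188160) (nat_lit 0) .nil)))) .nil))) (.nd (nat_lit 5) 
(.lf (nat_lit 151891) (.g (nat_lit 2627) (.e (nat_lit 57388) (nat_lit 5) (.e (nat_lit 114711) (nat_lit 21) (.e (nat_lit 57847) (nat_lit 252) (.e (nat_lit 57420) (nat_lit 13) (.e (nat_lit 344133) (nat_lit 26) (.e (nat_lit 557098) (nat_lit 13) (.e (nat_lit 172061) (nat_lit 1) (.e (nat_lit 164319) (nat_lit 228) .nil)))))))) (.g (nat_lit 4) .nil .nil))) 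
(.lf (nat_lit 151923) (.g (nat_lit 2171) (.e (nat_lit 57388) (nat_lit 5) (.e (nat_lit 114719) (nat_lit 23) (.e (nat_lit 98387) (nat_lit 33) (.e (nat_lit 491571) (nat_lit 13) (.e (nat_lit 393252) (nat_lit 18) .nil))))) .nil)))) (.nd (nat_lit 4) (.nd (nat_lit 5) 
(.lf (nat_lit 151883) (.g (nat_lit 3934) (.e (nat_lit 57388) (nat_lit 5) (.e (nat_lit 114710) (nat_lit 21) (.e (nat_lit 57854) (nat_lit 252) (.e (nat_lit 57409) (nat_lit 12) (.e (nat_lit 336019) (nat_lit 3) (.e (nat_lit 98341) (nat_lit 20) (.e (nat_lit 229120) (nat_lit 1) (.e (nat_lit 57849) (nat_lit 252) .nil)))))))) (.g (nat_lit 5) .nil .nil))) 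
(.lf (nat_lit 151915) (.g (nat_lit 1931) (.e (nat_lit 57388) (nat_lit 5) (.e (nat_lit 114719) (nat_lit 23) (.e (nat_lit 98317) (nat_lit 9) (.e (nat_lit 336195) (nat_lit 12) .nil)))) .nil))) (.nd (nat_lit 5) 
(.lf (nat_lit 151899) (.g (nat_lit 2453) (.e (nat_lit 57388) (nat_lit 5) (.e (nat_lit 114712) (nat_lit 21) (.e (nat_lit 57852) (nat_lit 252) (.e (nat_lit 57421) (nat_lit 13) (.e (nat_lit 344129) (nat_lit 26) (.e (nat_lit 557097) (nat_lit 13) (.e (nat_lit 172061) (nat_lit 1) (.e (nat_lit 164319) (nat_lit 228) .nil)))))))) (.g (nat_lit 4) .nil .nil))) 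
(.lf (nat_lit 151931) (.g (nat_lit 1734) (.e (nat_lit 57389) (nat_lit 5) (.e (nat_lit 114695) (nat_lit 11) (.e (nat_lit 426260) (nat_lit 9) (.e (nat_lit 426554) (nat_lit 32) (.e (nat_lit 376857) (nat_lit 21) (.e (nat_lit 57851) (nat_lit 252) .nil)))))) (.g (nat_lit 0) .nil .nil)))))) (.nd (nat_lit 3) (.nd (nat_lit 4) (.nd (nat_lit 5) 
(.lf (nat_lit 151879) (.g (nat_lit 2610) (.e (nat_lit 57388) (nat_lit 5) (.e (nat_lit 114698) (nat_lit 11) (.e (nat_lit 426333) (nat_lit 13) (.e (nat_lit 483393) (nat_lit 23) (.e (nat_lit 335987) (nat_lit 1) (.e (nat_lit 57854) (nat_lit 252) .nil)))))) (.g (nat_lit 6) .nil .nil))) 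
(.lf (nat_lit 151911) (.g (nat_lit 3582) (.e (nat_lit 57388) (nat_lit 5) (.e (nat_lit 114718) (nat_lit 23) (.e (nat_lit 98317) (nat_lit 9) (.e (nat_lit 336194) (nat_lit 12) (.e (nat_lit 385066) (nat_lit 26) (.e (nat_lit 540416) (nat_lit 18) (.e (nat_lit 164399) (nat_lit 256) .nil))))))) (.g (nat_lit 5) .nil .nil)))) (.nd (nat_lit 5) 
(.lf (nat_lit 151895) (.g (nat_lit 1521) (.e (nat_lit 57388) (nat_lit 5) (.e (nat_lit 114711) (nat_lit 21) (.e (nat_lit 57847) (nat_lit 252) (.e (nat_lit 57432) (nat_lit 16) (.e (nat_lit 368676) (nat_lit 21) .nil))))) .nil)) 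
(.lf (nat_lit 151927) (.g (nat_lit 2216) (.e (nat_lit 57389) (nat_lit 5) (.e (nat_lit 114694) (nat_lit 11) (.e (nat_lit 426188) (nat_lit 9) (.e (nat_lit 426555) (nat_lit 32) (.e (nat_lit 376859) (nat_lit 21) (.e (nat_lit 57854) (nat_lit 252) .nil)))))) (.g (nat_lit 4) .nil .nil))))) (.nd (nat_lit 4) (.nd (nat_lit 5) 
(.lf (nat_lit 151887) (.g (nat_lit 5271) (.e (nat_lit 57388) (nat_lit 5) (.e (nat_lit 114711) (nat_lit 21) (.e (nat_lit 57847) (nat_lit 252) (.e (nat_lit 57407) (nat_lit 12) (.e (nat_lit 336019) (nat_lit 3) (.e (nat_lit 98341) (nat_lit 20) (.e (nat_lit 229120) (nat_lit 1) (.e (nat_lit 57849) (nat_lit 252) .nil)))))))) (.g (nat_lit 6) .nil .nil))) 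
(.lf (nat_lit 151919) (.g (nat_lit 3275) (.e (nat_lit 57388) (nat_lit 5) (.e (nat_lit 114719) (nat_lit 23) (.e (nat_lit 98365) (nat_lit 26) (.e (nat_lit 426116) (nat_lit 2) (.e (nat_lit 196656) (nat_lit 11) (.e (nat_lit 16392) (nat_lit 0) (.e (nat_lit 2397) (nat_lit 157) (.e (nat_lit 3999) (nat_lit 241) .nil)))))))) (.g (nat_lit 4) .nil .nil)))) (.nd (nat_lit 5) 
(.lf (nat_lit 151903) (.g (nat_lit 4047) (.e (nat_lit 57388) (nat_lit 5) (.e (nat_lit 114712) (nat_lit 21) (.e (nat_lit 57852) (nat_lit 252) (.e (nat_lit 57421) (nat_lit 13) (.e (nat_lit 344133) (nat_lit 26) (.e (nat_lit 557098) (nat_lit 13) (.e (nat_lit 172061) (nat_lit 1) (.e (nat_lit 164319) (nat_lit 228) .nil)))))))) (.g (nat_lit 6) .nil .nil))) 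
(.lf (nat_lit 151935) (.g (nat_lit 2206) (.e (nat_lit 57389) (nat_lit 5) (.e (nat_lit 114695) (nat_lit 11) (.e (nat_lit 426260) (nat_lit 9) (.e (nat_lit 426554) (nat_lit 32) (.e (nat_lit 376860) (nat_lit 21) (.e (nat_lit 57852) (nat_lit 252) .nil)))))) (.g (nat_lit 6) .nil .nil)))))))))

noncomputable def tv2026 : DT := (.nd (nat_lit 0) (.nd (nat_lit 1) (.nd (nat_lit 2) (.nd (nat_lit 3) (.nd (nat_lit 4) (.nd (nat_lit 5) 
(.lf (nat_lit 151936) (.g (nat_lit 2421) (.e (nat_lit 57389) (nat_lit 5) (.e (nat_lit 114695) (nat_lit 11) (.e (nat_lit 426260) (nat_lit 9) (.e (nat_lit 426554) (nat_lit 32) (.e (nat_lit 376860) (nat_lit 21) (.e (nat_lit 57854) (nat_lit 252) .nil)))))) (.g (nat_lit 0) .nil .nil))) 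
(.lf (nat_lit 151968) (.g (nat_lit 3054) (.e (nat_lit 57389) (nat_lit 5) (.e (nat_lit 114698) (nat_lit 11) (.e (nat_lit 426187) (nat_lit 9) (.e (nat_lit 426555) (nat_lit 32) (.e (nat_lit 376859) (nat_lit 21) (.e (nat_lit 57846) (nat_lit 252) .nil)))))) (.g (nat_lit 5) .nil .nil)))) (.nd (nat_lit 5) 
(.lf (nat_lit 151952) (.g (nat_lit 1796) (.e (nat_lit 57389) (nat_lit 5) (.e (nat_lit 114698) (nat_lit 11) (.e (nat_lit 426107) (nat_lit 1) (.e (nat_lit 164421) (nat_lit 272) .nil)))) .nil)) 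
(.lf (nat_lit 151984) (.g (nat_lit 2988) (.e (nat_lit 57389) (nat_lit 5) (.e (nat_lit 114698) (nat_lit 11) (.e (nat_lit 426196) (nat_lit 9) (.e (nat_lit 426555) (nat_lit 32) (.e (nat_lit 376860) (nat_lit 21) (.e (nat_lit 57851) (nat_lit 252) .nil)))))) (.g (nat_lit 5) .nil .nil))))) (.nd (nat_lit 4) (.nd (nat_lit 5) 
(.lf (nat_lit 151944) (.g (nat_lit 1768) (.e (nat_lit 57389) (nat_lit 5) (.e (nat_lit 114697) (nat_lit 11) (.e (nat_lit 426187) (nat_lit 9) (.e (nat_lit 426555) (nat_lit 32) (.e (nat_lit 376859) (nat_lit 21) (.e (nat_lit 57844) (nat_lit 252) .nil)))))) (.g (nat_lit 4) .nil .nil))) 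
(.lf (nat_lit 151976) (.g (nat_lit 2841) (.e (nat_lit 57389) (nat_lit 5) (.e (nat_lit 114698) (nat_lit 11) (.e (nat_lit 426189) (nat_lit 9) (.e (nat_lit 426555) (nat_lit 32) (.e (nat_lit 376857) (nat_lit 21) (.e (nat_lit 57846) (nat_lit 252) .nil)))))) (.g (nat_lit 0) .nil .nil)))) (.nd (nat_lit 5) 
(.lf (nat_lit 151960) (.g (nat_lit 2734) (.e (nat_lit 57389) (nat_lit 5) (.e (nat_lit 114698) (nat_lit 11) (.e (nat_lit 426186) (nat_lit 9) (.e (nat_lit 426555) (nat_lit 32) (.e (nat_lit 376859) (nat_lit 21) (.e (nat_lit 57851) (nat_lit 252) .nil)))))) (.g (nat_lit 5) .nil .nil))) 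
(.lf (nat_lit 151992) (.g (nat_lit 2883) (.e (nat_lit 57389) (nat_lit 5) (.e (nat_lit 114698) (nat_lit 11) (.e (nat_lit 426333) (nat_lit 13) (.e (nat_lit 483393) (nat_lit 23) (.e (nat_lit 335988) (nat_lit 1) (.e (nat_lit 57852) (nat_lit 252) .nil)))))) (.g (nat_lit 6) .nil .nil)))))) (.nd (nat_lit 3) (.nd (nat_lit 4) (.nd (nat_lit 5) 
(.lf (nat_lit 151940) (.g (nat_lit 1549) (.e (nat_lit 57389) (nat_lit 5) (.e (nat_lit 114697) (nat_lit 11) (.e (nat_lit 426187) (nat_lit 9) (.e (nat_lit 426555) (nat_lit 32) (.e (nat_lit 376857) (nat_lit 21) .nil))))) .nil)) 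
(.lf (nat_lit 151972) (.g (nat_lit 3214) (.e (nat_lit 57389) (nat_lit 5) (.e (nat_lit 114698) (nat_lit 11) (.e (nat_lit 426187) (nat_lit 9) (.e (nat_lit 426555) (nat_lit 32) (.e (nat_lit 376860) (nat_lit 21) (.e (nat_lit 57851) (nat_lit 252) .nil)))))) (.g (nat_lit 5) .nil .nil)))) (.nd (nat_lit 5) 
(.lf (nat_lit 151956) (.g (nat_lit 3008) (.e (nat_lit 57389) (nat_lit 5) (.e (nat_lit 114698) (nat_lit 11) (.e (nat_lit 426186) (nat_lit 9) (.e (nat_lit 426555) (nat_lit 32) (.e (nat_lit 376857) (nat_lit 21) (.e (nat_lit 57847) (nat_lit 252) .nil)))))) (.g (nat_lit 5) .nil .nil))) 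
(.lf (nat_lit 151988) (.g (nat_lit 1039) (.e (nat_lit 57389) (nat_lit 5) (.e (nat_lit 114698) (nat_lit 11) (.e (nat_lit 426199) (nat_lit 9) (.e (nat_lit 426556) (nat_lit 32) .nil)))) .nil)))) (.nd (nat_lit 4) (.nd (nat_lit 5) 
(.lf (nat_lit 151948) (.g (nat_lit 2290) (.e (nat_lit 57389) (nat_lit 5) (.e (nat_lit 114697) (nat_lit 11) (.e (nat_lit 426189) (nat_lit 9) (.e (nat_lit 426555) (nat_lit 32) (.e (nat_lit 376859) (nat_lit 21) (.e (nat_lit 57851) (nat_lit 252) .nil)))))) (.g (nat_lit 5) .nil .nil))) 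
(.lf (nat_lit 151980) (.g (nat_lit 2614) (.e (nat_lit 57389) (nat_lit 5) (.e (nat_lit 114698) (nat_lit 11) (.e (nat_lit 426189) (nat_lit 9) (.e (nat_lit 426555) (nat_lit 32) (.e (nat_lit 376859) (nat_lit 21) (.e (nat_lit 57851) (nat_lit 252) .nil)))))) (.g (nat_lit 5) .nil .nil)))) (.nd (nat_lit 5) 
(.lf (nat_lit 151964) (.g (nat_lit 3050) (.e (nat_lit 57389) (nat_lit 5) (.e (nat_lit 114698) (nat_lit 11) (.e (nat_lit 426187) (nat_lit 9) (.e (nat_lit 426555) (nat_lit 32) (.e (nat_lit 376857) (nat_lit 21) (.e (nat_lit 57847) (nat_lit 252) .nil)))))) (.g (nat_lit 5) .nil .nil))) 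
(.lf (nat_lit 151996) (.g (nat_lit 2186) (.e (nat_lit 57389) (nat_lit 5) (.e (nat_lit 114710) (nat_lit 21) (.e (nat_lit 57849) (nat_lit 252) (.e (nat_lit 57411) (nat_lit 12) (.e (nat_lit 336019) (nat_lit 3) .nil))))) .nil)))))) (.nd (nat_lit 2) (.nd (nat_lit 3) (.nd (nat_lit 4) (.nd (nat_lit 5) 
(.lf (nat_lit 151938) (.g (nat_lit 2233) (.e (nat_lit 57389) (nat_lit 5) (.e (nat_lit 114695) (nat_lit 11) (.e (nat_lit 426261) (nat_lit 9) (.e (nat_lit 426554) (nat_lit 32) (.e (nat_lit 376857) (nat_lit 21) (.e (nat_lit 57854) (nat_lit 252) .nil)))))) (.g (nat_lit 0) .nil .nil))) 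
(.lf (nat_lit 151970) (.g (nat_lit 2774) (.e (nat_lit 57389) (nat_lit 5) (.e (nat_lit 114698) (nat_lit 11) (.e (nat_lit 426187) (nat_lit 9) (.e (nat_lit 426555) (nat_lit 32) (.e (nat_lit 376859) (nat_lit 21) (.e (nat_lit 57851) (nat_lit 252) .nil)))))) (.g (nat_lit 4) .nil .nil)))) (.nd (nat_lit 5) 
(.lf (nat_lit 151954) (.g (nat_lit 894) (.e (nat_lit 57389) (nat_lit 5) (.e (nat_lit 114698) (nat_lit 11) (.e (nat_lit 426138) (nat_lit 3) (.e (nat_lit 204818) (nat_lit 17) .nil)))) .nil)) 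
(.lf (nat_lit 151986) (.g (nat_lit 2165) (.e (nat_lit 57389) (nat_lit 5) (.e (nat_lit 114698) (nat_lit 11) (.e (nat_lit 426199) (nat_lit 9) (.e (nat_lit 426538) (nat_lit 29) (.e (nat_lit 352309) (nat_lit 21) (.e (nat_lit 57846) (nat_lit 252) .nil)))))) (.g (nat_lit 4) .nil .nil))))) (.nd (nat_lit 4) (.nd (nat_lit 5) 
(.lf (nat_lit 151946) (.g (nat_lit 2371) (.e (nat_lit 57389) (nat_lit 5) (.e (nat_lit 114697) (nat_lit 11) (.e (nat_lit 426189) (nat_lit 9) (.e (nat_lit 426555) (nat_lit 32) (.e (nat_lit 376857) (nat_lit 21) (.e (nat_lit 57844) (nat_lit 252) .nil)))))) (.g (nat_lit 5) .nil .nil))) 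
(.lf (nat_lit 151978) (.g (nat_lit 2766) (.e (nat_lit 57389) (nat_lit 5) (.e (nat_lit 114698) (nat_lit 11) (.e (nat_lit 426189) (nat_lit 9) (.e (nat_lit 426555) (nat_lit 32) (.e (nat_lit 376859) (nat_lit 21) (.e (nat_lit 57846) (nat_lit 252) .nil)))))) (.g (nat_lit 0) .nil .nil)))) (.nd (nat_lit 5) 
(.lf (nat_lit 151962) (.g (nat_lit 3138) (.e (nat_lit 57389) (nat_lit 5) (.e (nat_lit 114698) (nat_lit 11) (.e (nat_lit 426186) (nat_lit 9) (.e (nat_lit 426555) (nat_lit 32) (.e (nat_lit 376860) (nat_lit 21) (.e (nat_lit 57851) (nat_lit 252) .nil)))))) (.g (nat_lit 5) .nil .nil))) 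
(.lf (nat_lit 151994) (.g (nat_lit 3919) (.e (nat_lit 57389) (nat_lit 5) (.e (nat_lit 114710) (nat_lit 21) (.e (nat_lit 57847) (nat_lit 252) (.e (nat_lit 57407) (nat_lit 12) (.e (nat_lit 336019) (nat_lit 3) (.e (nat_lit 98342) (nat_lit 20) (.e (nat_lit 229120) (nat_lit 1) (.e (nat_lit 57854) (nat_lit 252) .nil)))))))) (.g (nat_lit 5) .nil .nil)))))) 
(.nd (nat_lit 3) (.nd (nat_lit 4) (.nd (nat_lit 5) 
(.lf (nat_lit 151942) (.g (nat_lit 2034) (.e (nat_lit 57389) (nat_lit 5) (.e (nat_lit 114697) (nat_lit 11) (.e (nat_lit 426187) (nat_lit 9) (.e (nat_lit 426555) (nat_lit 32) (.e (nat_lit 376857) (nat_lit 21) (.e (nat_lit 57853) (nat_lit 252) .nil)))))) (.g (nat_lit 4) .nil .nil))) 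
(.lf (nat_lit 151974) (.g (nat_lit 3837) (.e (nat_lit 57389) (nat_lit 5) (.e (nat_lit 114698) (nat_lit 11) (.e (nat_lit 426187) (nat_lit 9) (.e (nat_lit 426555) (nat_lit 32) (.e (nat_lit 376860) (nat_lit 21) (.e (nat_lit 57853) (nat_lit 252) .nil)))))) (.g (nat_lit 6) .nil .nil)))) (.nd (nat_lit 5) 
(.lf (nat_lit 151958) (.g (nat_lit 3014) (.e (nat_lit 57389) (nat_lit 5) (.e (nat_lit 114698) (nat_lit 11) (.e (nat_lit 426186) (nat_lit 9) (.e (nat_lit 426555) (nat_lit 32) (.e (nat_lit 376859) (nat_lit 21) (.e (nat_lit 57846) (nat_lit 252) .nil)))))) (.g (nat_lit 5) .nil .nil))) 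
(.lf (nat_lit 151990) (.g (nat_lit 771) (.e (nat_lit 57389) (nat_lit 5) (.e (nat_lit 114698) (nat_lit 11) (.e (nat_lit 426258) (nat_lit 9) .nil))) .nil)))) (.nd (nat_lit 4) (.nd (nat_lit 5) 
(.lf (nat_lit 151950) (.g (nat_lit 1994) (.e (nat_lit 57389) (nat_lit 5) (.e (nat_lit 114697) (nat_lit 11) (.e (nat_lit 426196) (nat_lit 9) (.e (nat_lit 426555) (nat_lit 32) (.e (nat_lit 376856) (nat_lit 21) (.e (nat_lit 57854) (nat_lit 252) .nil)))))) (.g (nat_lit 4) .nil .nil))) 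
(.lf (nat_lit 151982) (.g (nat_lit 2905) (.e (nat_lit 57389) (nat_lit 5) (.e (nat_lit 114698) (nat_lit 11) (.e (nat_lit 426196) (nat_lit 9) (.e (nat_lit 426555) (nat_lit 32) (.e (nat_lit 376857) (nat_lit 21) (.e (nat_lit 57851) (nat_lit 252) .nil)))))) (.g (nat_lit 5) .nil .nil)))) (.nd (nat_lit 5) 
(.lf (nat_lit 151966) (.g (nat_lit 3480) (.e (nat_lit 57389) (nat_lit 5) (.e (nat_lit 114698) (nat_lit 11) (.e (nat_lit 426187) (nat_lit 9) (.e (nat_lit 426555) (nat_lit 32) (.e (nat_lit 376857) (nat_lit 21) (.e (nat_lit 57852) (nat_lit 252) .nil)))))) (.g (nat_lit 6) .nil .nil))) 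
(.lf (nat_lit 151998) (.g (nat_lit 4080) (.e (nat_lit 57389) (nat_lit 5) (.e (nat_lit 114710) (nat_lit 21) (.e (nat_lit 57854) (nat_lit 252) (.e (nat_lit 57409) (nat_lit 12) (.e (nat_lit 336019) (nat_lit 3) (.e (nat_lit 98342) (nat_lit 20) (.e (nat_lit 229120) (nat_lit 1) (.e (nat_lit 57854) (nat_lit 252) .nil)))))))) (.g (nat_lit 5) .nil .nil)))))))) 
(.nd (nat_lit 1) (.nd (nat_lit 2) (.nd (nat_lit 3) (.nd (nat_lit 4) (.nd (nat_lit 5) 
(.lf (nat_lit 151937) (.g (nat_lit 1702) (.e (nat_lit 57389) (nat_lit 5) (.e (nat_lit 114695) (nat_lit 11) (.e (nat_lit 426261) (nat_lit 9) (.e (nat_lit 426554) (nat_lit 32) (.e (nat_lit 376857) (nat_lit 21) (.e (nat_lit 57851) (nat_lit 252) .nil)))))) (.g (nat_lit 0) .nil .nil))) 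
(.lf (nat_lit 151969) (.g (nat_lit 2956) (.e (nat_lit 57389) (nat_lit 5) (.e (nat_lit 114698) (nat_lit 11) (.e (nat_lit 426187) (nat_lit 9) (.e (nat_lit 426555) (nat_lit 32) (.e (nat_lit 376859) (nat_lit 21) (.e (nat_lit 57847) (nat_lit 252) .nil)))))) (.g (nat_lit 5) .nil .nil)))) (.nd (nat_lit 5) 
(.lf (nat_lit 151953) (.g (nat_lit 2075) (.e (nat_lit 57389) (nat_lit 5) (.e (nat_lit 114698) (nat_lit 11) (.e (nat_lit 426108) (nat_lit 1) (.e (nat_lit 164421) (nat_lit 272) .nil)))) .nil)) 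
(.lf (nat_lit 151985) (.g (nat_lit 1788) (.e (nat_lit 57389) (nat_lit 5) (.e (nat_lit 114698) (nat_lit 11) (.e (nat_lit 426198) (nat_lit 9) (.e (nat_lit 426556) (nat_lit 32) (.e (nat_lit 376859) (nat_lit 21) (.e (nat_lit 57846) (nat_lit 252) .nil)))))) (.g (nat_lit 4) .nil .nil))))) (.nd (nat_lit 4) (.nd (nat_lit 5) 
(.lf (nat_lit 151945) (.g (nat_lit 1687) (.e (nat_lit 57389) (nat_lit 5) (.e (nat_lit 114697) (nat_lit 11) (.e (nat_lit 426189) (nat_lit 9) (.e (nat_lit 426555) (nat_lit 32) (.e (nat_lit 376856) (nat_lit 21) .nil))))) .nil)) 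
(.lf (nat_lit 151977) (.g (nat_lit 2790) (.e (nat_lit 57389) (nat_lit 5) (.e (nat_lit 114698) (nat_lit 11) (.e (nat_lit 426189) (nat_lit 9) (.e (nat_lit 426555) (nat_lit 32) (.e (nat_lit 376857) (nat_lit 21) (.e (nat_lit 57847) (nat_lit 252) .nil)))))) (.g (nat_lit 6) .nil .nil)))) (.nd (nat_lit 5) 
(.lf (nat_lit 151961) (.g (nat_lit 3041) (.e (nat_lit 57389) (nat_lit 5) (.e (nat_lit 114698) (nat_lit 11) (.e (nat_lit 426186) (nat_lit 9) (.e (nat_lit 426555) (nat_lit 32) (.e (nat_lit 376859) (nat_lit 21) (.e (nat_lit 57853) (nat_lit 252) .nil)))))) (.g (nat_lit 5) .nil .nil))) 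
(.lf (nat_lit 151993) (.g (nat_lit 1785) (.e (nat_lit 57389) (nat_lit 5) (.e (nat_lit 122624) (nat_lit 11) (.e (nat_lit 426438) (nat_lit 18) (.e (nat_lit 98373) (nat_lit 29) (.e (nat_lit 458496) (nat_lit 0) (.e (nat_lit 6393) (nat_lit 339) .nil)))))) (.g (nat_lit 4) .nil .nil)))))) (.nd (nat_lit 3) (.nd (nat_lit 4) (.nd (nat_lit 5) 
(.lf (nat_lit 151941) (.g (nat_lit 1741) (.e (nat_lit 57389) (nat_lit 5) (.e (nat_lit 114697) (nat_lit 11) (.e (nat_lit 426187) (nat_lit 9) (.e (nat_lit 426555) (nat_lit 32) (.e (nat_lit 376857) (nat_lit 21) (.e (nat_lit 57851) (nat_lit 252) .nil)))))) (.g (nat_lit 4) .nil .nil))) 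
(.lf (nat_lit 151973) (.g (nat_lit 3743) (.e (nat_lit 57389) (nat_lit 5) (.e (nat_lit 114698) (nat_lit 11) (.e (nat_lit 426187) (nat_lit 9) (.e (nat_lit 426555) (nat_lit 32) (.e (nat_lit 376860) (nat_lit 21) (.e (nat_lit 57852) (nat_lit 252) .nil)))))) (.g (nat_lit 6) .nil .nil)))) (.nd (nat_lit 5) 
(.lf (nat_lit 151957) (.g (nat_lit 3104) (.e (nat_lit 57389) (nat_lit 5) (.e (nat_lit 114698) (nat_lit 11) (.e (nat_lit 426186) (nat_lit 9) (.e (nat_lit 426555) (nat_lit 32) (.e (nat_lit 376857) (nat_lit 21) (.e (nat_lit 57851) (nat_lit 252) .nil)))))) (.g (nat_lit 5) .nil .nil))) 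
(.lf (nat_lit 151989) (.g (nat_lit 1889) (.e (nat_lit 57389) (nat_lit 5) (.e (nat_lit 114698) (nat_lit 11) (.e (nat_lit 426199) (nat_lit 9) (.e (nat_lit 426556) (nat_lit 32) (.e (nat_lit 376859) (nat_lit 21) (.e (nat_lit 57846) (nat_lit 252) .nil)))))) (.g (nat_lit 4) .nil .nil))))) (.nd (nat_lit 4) (.nd (nat_lit 5) 
(.lf (nat_lit 151949) (.g (nat_lit 2643) (.e (nat_lit 57389) (nat_lit 5) (.e (nat_lit 114697) (nat_lit 11) (.e (nat_lit 426189) (nat_lit 9) (.e (nat_lit 426555) (nat_lit 32) (.e (nat_lit 376860) (nat_lit 21) (.e (nat_lit 57851) (nat_lit 252) .nil)))))) (.g (nat_lit 6) .nil .nil))) 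
(.lf (nat_lit 151981) (.g (nat_lit 2948) (.e (nat_lit 57389) (nat_lit 5) (.e (nat_lit 114698) (nat_lit 11) (.e (nat_lit 426189) (nat_lit 9) (.e (nat_lit 426555) (nat_lit 32) (.e (nat_lit 376860) (nat_lit 21) (.e (nat_lit 57851) (nat_lit 252) .nil)))))) (.g (nat_lit 6) .nil .nil)))) (.nd (nat_lit 5) 
(.lf (nat_lit 151965) (.g (nat_lit 3146) (.e (nat_lit 57389) (nat_lit 5) (.e (nat_lit 114698) (nat_lit 11) (.e (nat_lit 426187) (nat_lit 9) (.e (nat_lit 426555) (nat_lit 32) (.e (nat_lit 376857) (nat_lit 21) (.e (nat_lit 57851) (nat_lit 252) .nil)))))) (.g (nat_lit 5) .nil .nil))) 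
(.lf (nat_lit 151997) (.g (nat_lit 3316) (.e (nat_lit 57389) (nat_lit 5) (.e (nat_lit 114710) (nat_lit 21) (.e (nat_lit 57852) (nat_lit 252) (.e (nat_lit 65280) (nat_lit 66) (.e (nat_lit 221210) (nat_lit 22) (.e (nat_lit 196681) (nat_lit 17) (.e (nat_lit 131086) (nat_lit 1) (.e (nat_lit 57854) (nat_lit 252) .nil)))))))) (.g (nat_lit 6) .nil .nil))))))) 
(.nd (nat_lit 2) (.nd (nat_lit 3) (.nd (nat_lit 4) (.nd (nat_lit 5) 
(.lf (nat_lit 151939) (.g (nat_lit 2117) (.e (nat_lit 57389) (nat_lit 5) (.e (nat_lit 114695) (nat_lit 11) (.e (nat_lit 426261) (nat_lit 9) (.e (nat_lit 426554) (nat_lit 32) (.e (nat_lit 376860) (nat_lit 21) (.e (nat_lit 57852) (nat_lit 252) .nil)))))) (.g (nat_lit 6) .nil .nil))) 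
(.lf (nat_lit 151971) (.g (nat_lit 3077) (.e (nat_lit 57389) (nat_lit 5) (.e (nat_lit 114698) (nat_lit 11) (.e (nat_lit 426187) (nat_lit 9) (.e (nat_lit 426555) (nat_lit 32) (.e (nat_lit 376859) (nat_lit 21) (.e (nat_lit 57853) (nat_lit 252) .nil)))))) (.g (nat_lit 5) .nil .nil)))) (.nd (nat_lit 5) 
(.lf (nat_lit 151955) (.g (nat_lit 3121) (.e (nat_lit 57389) (nat_lit 5) (.e (nat_lit 114698) (nat_lit 11) (.e (nat_lit 426186) (nat_lit 9) (.e (nat_lit 426555) (nat_lit 32) (.e (nat_lit 376857) (nat_lit 21) (.e (nat_lit 57844) (nat_lit 252) .nil)))))) (.g (nat_lit 5) .nil .nil))) 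
(.lf (nat_lit 151987) (.g (nat_lit 1030) (.e (nat_lit 57389) (nat_lit 5) (.e (nat_lit 114698) (nat_lit 11) (.e (nat_lit 426199) (nat_lit 9) (.e (nat_lit 426544) (nat_lit 30) .nil)))) .nil)))) (.nd (nat_lit 4) (.nd (nat_lit 5) 
(.lf (nat_lit 151947) (.g (nat_lit 2580) (.e (nat_lit 57389) (nat_lit 5) (.e (nat_lit 114697) (nat_lit 11) (.e (nat_lit 426189) (nat_lit 9) (.e (nat_lit 426555) (nat_lit 32) (.e (nat_lit 376857) (nat_lit 21) (.e (nat_lit 57851) (nat_lit 252) .nil)))))) (.g (nat_lit 6) .nil .nil))) 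
(.lf (nat_lit 151979) (.g (nat_lit 2803) (.e (nat_lit 57389) (nat_lit 5) (.e (nat_lit 114698) (nat_lit 11) (.e (nat_lit 426189) (nat_lit 9) (.e (nat_lit 426555) (nat_lit 32) (.e (nat_lit 376859) (nat_lit 21) (.e (nat_lit 57847) (nat_lit 252) .nil)))))) (.g (nat_lit 6) .nil .nil)))) (.nd (nat_lit 5) 
(.lf (nat_lit 151963) (.g (nat_lit 3163) (.e (nat_lit 57389) (nat_lit 5) (.e (nat_lit 114698) (nat_lit 11) (.e (nat_lit 426187) (nat_lit 9) (.e (nat_lit 426555) (nat_lit 32) (.e (nat_lit 376857) (nat_lit 21) (.e (nat_lit 57844) (nat_lit 252) .nil)))))) (.g (nat_lit 5) .nil .nil))) 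
(.lf (nat_lit 151995) (.g (nat_lit 2509) (.e (nat_lit 57389) (nat_lit 5) (.e (nat_lit 114710) (nat_lit 21) (.e (nat_lit 57848) (nat_lit 252) (.e (nat_lit 57407) (nat_lit 12) (.e (nat_lit 336019) (nat_lit 3) (.e (nat_lit 98341) (nat_lit 20) (.e (nat_lit 229120) (nat_lit 1) (.e (nat_lit 57854) (nat_lit 252) .nil)))))))) (.g (nat_lit 4) .nil .nil)))))) 
(.nd (nat_lit 3) (.nd (nat_lit 4) (.nd (nat_lit 5) 
(.lf (nat_lit 151943) (.g (nat_lit 1571) (.e (nat_lit 57389) (nat_lit 5) (.e (nat_lit 114697) (nat_lit 11) (.e (nat_lit 426187) (nat_lit 9) (.e (nat_lit 426555) (nat_lit 32) (.e (nat_lit 376859) (nat_lit 21) .nil))))) .nil)) 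
(.lf (nat_lit 151975) (.g (nat_lit 3981) (.e (nat_lit 57389) (nat_lit 5) (.e (nat_lit 114698) (nat_lit 11) (.e (nat_lit 426187) (nat_lit 9) (.e (nat_lit 426555) (nat_lit 32) (.e (nat_lit 376860) (nat_lit 21) (.e (nat_lit 57854) (nat_lit 252) .nil)))))) (.g (nat_lit 6) .nil .nil)))) (.nd (nat_lit 5) 
(.lf (nat_lit 151959) (.g (nat_lit 2916) (.e (nat_lit 57389) (nat_lit 5) (.e (nat_lit 114698) (nat_lit 11) (.e (nat_lit 426186) (nat_lit 9) (.e (nat_lit 426555) (nat_lit 32) (.e (nat_lit 376859) (nat_lit 21) (.e (nat_lit 57847) (nat_lit 252) .nil)))))) (.g (nat_lit 5) .nil .nil))) 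
(.lf (nat_lit 151991) (.g (nat_lit 2298) (.e (nat_lit 57389) (nat_lit 5) (.e (nat_lit 114698) (nat_lit 11) (.e (nat_lit 426333) (nat_lit 13) (.e (nat_lit 483393) (nat_lit 23) (.e (nat_lit 335987) (nat_lit 1) (.e (nat_lit 57852) (nat_lit 252) .nil)))))) (.g (nat_lit 6) .nil .nil))))) (.nd (nat_lit 4) (.nd (nat_lit 5) 
(.lf (nat_lit 151951) (.g (nat_lit 2674) (.e (nat_lit 57389) (nat_lit 5) (.e (nat_lit 114697) (nat_lit 11) (.e (nat_lit 426196) (nat_lit 9) (.e (nat_lit 426555) (nat_lit 32) (.e (nat_lit 376857) (nat_lit 21) (.e (nat_lit 57851) (nat_lit 252) .nil)))))) (.g (nat_lit 0) .nil .nil))) 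
(.lf (nat_lit 151983) (.g (nat_lit 2879) (.e (nat_lit 57389) (nat_lit 5) (.e (nat_lit 114698) (nat_lit 11) (.e (nat_lit 426196) (nat_lit 9) (.e (nat_lit 426555) (nat_lit 32) (.e (nat_lit 376859) (nat_lit 21) (.e (nat_lit 57853) (nat_lit 252) .nil)))))) (.g (nat_lit 5) .nil .nil)))) (.nd (nat_lit 5) 
(.lf (nat_lit 151967) (.g (nat_lit 3635) (.e (nat_lit 57389) (nat_lit 5) (.e (nat_lit 114698) (nat_lit 11) (.e (nat_lit 426187) (nat_lit 9) (.e (nat_lit 426555) (nat_lit 32) (.e (nat_lit 376857) (nat_lit 21) (.e (nat_lit 57853) (nat_lit 252) .nil)))))) (.g (nat_lit 6) .nil .nil))) 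
(.lf (nat_lit 151999) (.g (nat_lit 1054) (.e (nat_lit 57389) (nat_lit 5) (.e (nat_lit 114711) (nat_lit 21) (.e (nat_lit 57754) (nat_lit 209) (.e (nat_lit 1170) (nat_lit 87) .nil)))) .nil))))))))

noncomputable def tv2027 : DT := (.nd (nat_lit 0) (.nd (nat_lit 1) (.nd (nat_lit 2) (.nd (nat_lit 3) (.nd (nat_lit 4) (.nd (nat_lit 5) 
(.lf (nat_lit 152000) (.g (nat_lit 798) (.e (nat_lit 57389) (nat_lit 5) (.e (nat_lit 114711) (nat_lit 21) (.e (nat_lit 57755) (nat_lit 209) .nil))) .nil)) 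
(.lf (nat_lit 152032) (.g (nat_lit 1381) (.e (nat_lit 57389) (nat_lit 5) (.e (nat_lit 114712) (nat_lit 21) (.e (nat_lit 57852) (nat_lit 252) (.e (nat_lit 57420) (nat_lit 13) .nil)))) .nil))) (.nd (nat_lit 5) 
(.lf (nat_lit 152016) (.g (nat_lit 3466) (.e (nat_lit 57389) (nat_lit 5) (.e (nat_lit 114711) (nat_lit 21) (.e (nat_lit 57847) (nat_lit 252) (.e (nat_lit 57407) (nat_lit 12) (.e (nat_lit 336019) (nat_lit 3) (.e (nat_lit 98342) (nat_lit 20) (.e (nat_lit 229120) (nat_lit 1) (.e (nat_lit 57851) (nat_lit 252) .nil)))))))) (.g (nat_lit 4) .nil .nil))) 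
(.lf (nat_lit 152048) (.g (nat_lit 1743) (.e (nat_lit 57389) (nat_lit 5) (.e (nat_lit 114716) (nat_lit 22) (.e (nat_lit 90160) (nat_lit 11) (.e (nat_lit 24617) (nat_lit 7) (.e (nat_lit 319504) (nat_lit 10) .nil))))) .nil)))) (.nd (nat_lit 4) (.nd (nat_lit 5) 
(.lf (nat_lit 152008) (.g (nat_lit 2500) (.e (nat_lit 57389) (nat_lit 5) (.e (nat_lit 114711) (nat_lit 21) (.e (nat_lit 57847) (nat_lit 252) (.e (nat_lit 57365) (nat_lit 1) (.e (nat_lit 57854) (nat_lit 252) (.e (nat_lit 57447) (nat_lit 19) (.e (nat_lit 393256) (nat_lit 19) (.e (nat_lit 229675) (nat_lit 242) .nil)))))))) (.g (nat_lit 4) .nil .nil))) 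
(.lf (nat_lit 152040) (.g (nat_lit 3058) (.e (nat_lit 57389) (nat_lit 5) (.e (nat_lit 114712) (nat_lit 21) (.e (nat_lit 57854) (nat_lit 252) (.e (nat_lit 57409) (nat_lit 12) (.e (nat_lit 336019) (nat_lit 3) (.e (nat_lit 98342) (nat_lit 20) (.e (nat_lit 229120) (nat_lit 1) (.e (nat_lit 57851) (nat_lit 252) .nil)))))))) (.g (nat_lit 4) .nil .nil)))) (.nd (nat_lit 5) 
(.lf (nat_lit 152024) (.g (nat_lit 4408) (.e (nat_lit 57389) (nat_lit 5) (.e (nat_lit 114711) (nat_lit 21) (.e (nat_lit 57854) (nat_lit 252) (.e (nat_lit 57409) (nat_lit 12) (.e (nat_lit 336019) (nat_lit 3) (.e (nat_lit 98341) (nat_lit 20) (.e (nat_lit 229120) (nat_lit 1) (.e (nat_lit 57854) (nat_lit 252) .nil)))))))) (.g (nat_lit 5) .nil .nil))) 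
(.lf (nat_lit 152056) (.g (nat_lit 1842) (.e (nat_lit 57389) (nat_lit 5) (.e (nat_lit 114719) (nat_lit 23) (.e (nat_lit 98317) (nat_lit 9) (.e (nat_lit 336195) (nat_lit 12) .nil)))) .nil))))) (.nd (nat_lit 3) (.nd (nat_lit 4) (.nd (nat_lit 5) 
(.lf (nat_lit 152004) (.g (nat_lit 3324) (.e (nat_lit 57389) (nat_lit 5) (.e (nat_lit 114711) (nat_lit 21) (.e (nat_lit 57847) (nat_lit 252) (.e (nat_lit 57365) (nat_lit 1) (.e (nat_lit 57854) (nat_lit 252) (.e (nat_lit 57447) (nat_lit 19) (.e (nat_lit 393234) (nat_lit 17) (.e (nat_lit 2405) (nat_lit 157) (.e (nat_lit 5571) (nat_lit 308) .nil))))))))) (.g (nat_lit 5) .nil .nil))) 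
(.lf (nat_lit 152036) (.g (nat_lit 2389) (.e (nat_lit 57389) (nat_lit 5) (.e (nat_lit 114712) (nat_lit 21) (.e (nat_lit 57852) (nat_lit 252) (.e (nat_lit 57421) (nat_lit 13) (.e (nat_lit 344130) (nat_lit 26) (.e (nat_lit 557104) (nat_lit 14) (.e (nat_lit 180233) (nat_lit 0) (.e (nat_lit 5190) (nat_lit 294) .nil)))))))) (.g (nat_lit 4) .nil .nil)))) (.nd (nat_lit 5) 
(.lf (nat_lit 152020) (.g (nat_lit 1752) (.e (nat_lit 57389) (nat_lit 5) (.e (nat_lit 114711) (nat_lit 21) (.e (nat_lit 57847) (nat_lit 252) (.e (nat_lit 57420) (nat_lit 13) .nil)))) .nil)) 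
(.lf (nat_lit 152052) (.g (nat_lit 1842) (.e (nat_lit 57389) (nat_lit 5) (.e (nat_lit 114719) (nat_lit 23) (.e (nat_lit 98317) (nat_lit 9) (.e (nat_lit 336174) (nat_lit 10) .nil)))) .nil)))) (.nd (nat_lit 4) (.nd (nat_lit 5) 
(.lf (nat_lit 152012) (.g (nat_lit 3868) (.e (nat_lit 57389) (nat_lit 5) (.e (nat_lit 114711) (nat_lit 21) (.e (nat_lit 57847) (nat_lit 252) (.e (nat_lit 57368) (nat_lit 1) (.e (nat_lit 57854) (nat_lit 252) (.e (nat_lit 57447) (nat_lit 19) (.e (nat_lit 393238) (nat_lit 17) (.e (nat_lit 2400) (nat_lit 157) (.e (nat_lit 5568) (nat_lit 308) .nil))))))))) (.g (nat_lit 5) .nil .nil))) 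
(.lf (nat_lit 152044) (.g (nat_lit 538) (.e (nat_lit 57389) (nat_lit 5) (.e (nat_lit 114714) (nat_lit 22) (.e (nat_lit 90172) (nat_lit 14) .nil))) .nil))) (.nd (nat_lit 5) 
(.lf (nat_lit 152028) (.g (nat_lit 2743) (.e (nat_lit 57389) (nat_lit 5) (.e (nat_lit 114712) (nat_lit 21) (.e (nat_lit 57830) (nat_lit 250) (.e (nat_lit 1214) (nat_lit 89) (.e (nat_lit 73754) (nat_lit 8) (.e (nat_lit 557101) (nat_lit 13) (.e (nat_lit 172061) (nat_lit 1) (.e (nat_lit 164319) (nat_lit 228) .nil)))))))) (.g (nat_lit 5) .nil .nil))) 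
(.lf (nat_lit 152060) (.g (nat_lit 2121) (.e (nat_lit 57389) (nat_lit 5) (.e (nat_lit 114719) (nat_lit 23) (.e (nat_lit 98365) (nat_lit 26) (.e (nat_lit 426100) (nat_lit 1) (.e (nat_lit 164381) (nat_lit 254) .nil))))) .nil)))))) (.nd (nat_lit 2) (.nd (nat_lit 3) (.nd (nat_lit 4) (.nd (nat_lit 5) 
(.lf (nat_lit 152002) (.g (nat_lit 2563) (.e (nat_lit 57389) (nat_lit 5) (.e (nat_lit 114711) (nat_lit 21) (.e (nat_lit 57847) (nat_lit 252) (.e (nat_lit 57365) (nat_lit 1) (.e (nat_lit 57854) (nat_lit 252) (.e (nat_lit 57447) (nat_lit 19) (.e (nat_lit 393234) (nat_lit 17) (.e (nat_lit 2398) (nat_lit 157) (.e (nat_lit 5567) (nat_lit 308) .nil))))))))) (.g (nat_lit 4) .nil .nil))) 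
(.lf (nat_lit 152034) (.g (nat_lit 1296) (.e (nat_lit 57389) (nat_lit 5) (.e (nat_lit 114712) (nat_lit 21) (.e (nat_lit 57852) (nat_lit 252) (.e (nat_lit 57421) (nat_lit 13) .nil)))) .nil))) (.nd (nat_lit 5) 
(.lf (nat_lit 152018) (.g (nat_lit 3074) (.e (nat_lit 57389) (nat_lit 5) (.e (nat_lit 114711) (nat_lit 21) (.e (nat_lit 57847) (nat_lit 252) (.e (nat_lit 57409) (nat_lit 12) (.e (nat_lit 336019) (nat_lit 3) (.e (nat_lit 98342) (nat_lit 20) (.e (nat_lit 229120) (nat_lit 1) (.e (nat_lit 57854) (nat_lit 252) .nil)))))))) (.g (nat_lit 4) .nil .nil))) 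
(.lf (nat_lit 152050) (.g (nat_lit 2954) (.e (nat_lit 57389) (nat_lit 5) (.e (nat_lit 114716) (nat_lit 22) (.e (nat_lit 90185) (nat_lit 17) (.e (nat_lit 237590) (nat_lit 2) (.e (nat_lit 196656) (nat_lit 11) (.e (nat_lit 16392) (nat_lit 0) (.e (nat_lit 2397) (nat_lit 157) (.e (nat_lit 4003) (nat_lit 241) .nil)))))))) (.g (nat_lit 5) .nil .nil))))) (.nd (nat_lit 4) (.nd (nat_lit 5) 
(.lf (nat_lit 152010) (.g (nat_lit 3437) (.e (nat_lit 57389) (nat_lit 5) (.e (nat_lit 114711) (nat_lit 21) (.e (nat_lit 57847) (nat_lit 252) (.e (nat_lit 57368) (nat_lit 1) (.e (nat_lit 57854) (nat_lit 252) (.e (nat_lit 57447) (nat_lit 19) (.e (nat_lit 393234) (nat_lit 17) (.e (nat_lit 2405) (nat_lit 157) (.e (nat_lit 5571) (nat_lit 308) .nil))))))))) (.g (nat_lit 5) .nil .nil))) 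
(.lf (nat_lit 152042) (.g (nat_lit 3562) (.e (nat_lit 57389) (nat_lit 5) (.e (nat_lit 114712) (nat_lit 21) (.e (nat_lit 57930) (nat_lit 282) (.e (nat_lit 163923) (nat_lit 15) (.e (nat_lit 450588) (nat_lit 10) (.e (nat_lit 573452) (nat_lit 9) (.e (nat_lit 1286) (nat_lit 95) (.e (nat_lit 123195) (nat_lit 266) .nil)))))))) (.g (nat_lit 5) .nil .nil)))) (.nd (nat_lit 5) 
(.lf (nat_lit 152026) (.g (nat_lit 2420) (.e (nat_lit 57389) (nat_lit 5) (.e (nat_lit 114711) (nat_lit 21) (.e (nat_lit 57931) (nat_lit 282) (.e (nat_lit 163885) (nat_lit 5) (.e (nat_lit 221214) (nat_lit 23) .nil))))) .nil)) 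
(.lf (nat_lit 152058) (.g (nat_lit 2409) (.e (nat_lit 57389) (nat_lit 5) (.e (nat_lit 114719) (nat_lit 23) (.e (nat_lit 98365) (nat_lit 26) (.e (nat_lit 426100) (nat_lit 1) (.e (nat_lit 164380) (nat_lit 254) .nil))))) .nil))))) (.nd (nat_lit 3) (.nd (nat_lit 4) (.nd (nat_lit 5) 
(.lf (nat_lit 152006) (.g (nat_lit 3755) (.e (nat_lit 57389) (nat_lit 5) (.e (nat_lit 114711) (nat_lit 21) (.e (nat_lit 57847) (nat_lit 252) (.e (nat_lit 57365) (nat_lit 1) (.e (nat_lit 57854) (nat_lit 252) (.e (nat_lit 57447) (nat_lit 19) (.e (nat_lit 393238) (nat_lit 17) (.e (nat_lit 2400) (nat_lit 157) (.e (nat_lit 5568) (nat_lit 308) .nil))))))))) (.g (nat_lit 6) .nil .nil))) 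
(.lf (nat_lit 152038) (.g (nat_lit 4258) (.e (nat_lit 57389) (nat_lit 5) (.e (nat_lit 114712) (nat_lit 21) (.e (nat_lit 57852) (nat_lit 252) (.e (nat_lit 57421) (nat_lit 13) (.e (nat_lit 344133) (nat_lit 26) (.e (nat_lit 557098) (nat_lit 13) (.e (nat_lit 172061) (nat_lit 1) (.e (nat_lit 164319) (nat_lit 228) .nil)))))))) (.g (nat_lit 6) .nil .nil)))) (.nd (nat_lit 5) 
(.lf (nat_lit 152022) (.g (nat_lit 1752) (.e (nat_lit 57389) (nat_lit 5) (.e (nat_lit 114711) (nat_lit 21) (.e (nat_lit 57847) (nat_lit 252) (.e (nat_lit 57421) (nat_lit 13) .nil)))) .nil)) 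
(.lf (nat_lit 152054) (.g (nat_lit 2630) (.e (nat_lit 57389) (nat_lit 5) (.e (nat_lit 114719) (nat_lit 23) (.e (nat_lit 98317) (nat_lit 9) (.e (nat_lit 336194) (nat_lit 12) (.e (nat_lit 385066) (nat_lit 26) .nil))))) .nil)))) (.nd (nat_lit 4) (.nd (nat_lit 5) 
(.lf (nat_lit 152014) (.g (nat_lit 3266) (.e (nat_lit 57389) (nat_lit 5) (.e (nat_lit 114711) (nat_lit 21) (.e (nat_lit 57847) (nat_lit 252) (.e (nat_lit 57407) (nat_lit 12) (.e (nat_lit 336019) (nat_lit 3) (.e (nat_lit 98341) (nat_lit 20) (.e (nat_lit 229120) (nat_lit 1) (.e (nat_lit 57844) (nat_lit 252) .nil)))))))) (.g (nat_lit 4) .nil .nil))) 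
(.lf (nat_lit 152046) (.g (nat_lit 1054) (.e (nat_lit 57389) (nat_lit 5) (.e (nat_lit 114716) (nat_lit 22) (.e (nat_lit 90128) (nat_lit 9) (.e (nat_lit 324) (nat_lit 24) .nil)))) .nil))) (.nd (nat_lit 5) 
(.lf (nat_lit 152030) (.g (nat_lit 949) (.e (nat_lit 57389) (nat_lit 5) (.e (nat_lit 114712) (nat_lit 21) (.e (nat_lit 57851) (nat_lit 252) (.e (nat_lit 57421) (nat_lit 13) .nil)))) .nil)) 
(.lf (nat_lit 152062) (.g (nat_lit 2590) (.e (nat_lit 57389) (nat_lit 5) (.e (nat_lit 114719) (nat_lit 23) (.e (nat_lit 98365) (nat_lit 26) (.e (nat_lit 426116) (nat_lit 2) (.e (nat_lit 196654) (nat_lit 11) (.e (nat_lit 16407) (nat_lit 1) (.e (nat_lit 171776) (nat_lit 136) .nil))))))) (.g (nat_lit 4) .nil .nil)))))))) 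
(.nd (nat_lit 1) (.nd (nat_lit 2) (.nd (nat_lit 3) (.nd (nat_lit 4) (.nd (nat_lit 5) 
(.lf (nat_lit 152001) (.g (nat_lit 597) (.e (nat_lit 57389) (nat_lit 5) (.e (nat_lit 114711) (nat_lit 21) (.e (nat_lit 57847) (nat_lit 252) .nil))) .nil)) 
(.lf (nat_lit 152033) (.g (nat_lit 3832) (.e (nat_lit 57389) (nat_lit 5) (.e (nat_lit 114712) (nat_lit 21) (.e (nat_lit 57852) (nat_lit 252) (.e (nat_lit 57420) (nat_lit 13) (.e (nat_lit 344117) (nat_lit 21) (.e (nat_lit 516129) (nat_lit 3) (.e (nat_lit 229120) (nat_lit 1) (.e (nat_lit 57854) (nat_lit 252) .nil)))))))) (.g (nat_lit 6) .nil .nil)))) (.nd (nat_lit 5) 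
(.lf (nat_lit 152017) (.g (nat_lit 3223) (.e (nat_lit 57389) (nat_lit 5) (.e (nat_lit 114711) (nat_lit 21) (.e (nat_lit 57847) (nat_lit 252) (.e (nat_lit 57409) (nat_lit 12) (.e (nat_lit 336019) (nat_lit 3) (.e (nat_lit 98341) (nat_lit 20) (.e (nat_lit 229120) (nat_lit 1) (.e (nat_lit 57854) (nat_lit 252) .nil)))))))) (.g (nat_lit 4) .nil .nil))) 
(.lf (nat_lit 152049) (.g (nat_lit 3425) (.e (nat_lit 57389) (nat_lit 5) (.e (nat_lit 114716) (nat_lit 22) (.e (nat_lit 90185) (nat_lit 17) (.e (nat_lit 237587) (nat_lit 2) (.e (nat_lit 196656) (nat_lit 11) (.e (nat_lit 16392) (nat_lit 0) (.e (nat_lit 2397) (nat_lit 157) (.e (nat_lit 4003) (nat_lit 241) .nil)))))))) (.g (nat_lit 5) .nil .nil))))) (.nd (nat_lit 4) (.nd (nat_lit 5) 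
(.lf (nat_lit 152009) (.g (nat_lit 3797) (.e (nat_lit 57389) (nat_lit 5) (.e (nat_lit 114711) (nat_lit 21) (.e (nat_lit 57847) (nat_lit 252) (.e (nat_lit 57368) (nat_lit 1) (.e (nat_lit 57854) (nat_lit 252) (.e (nat_lit 57447) (nat_lit 19) (.e (nat_lit 393234) (nat_lit 17) (.e (nat_lit 2405) (nat_lit 157) (.e (nat_lit 5566) (nat_lit 308) .nil))))))))) (.g (nat_lit 5) .nil .nil))) 
(.lf (nat_lit 152041) (.g (nat_lit 4245) (.e (nat_lit 57389) (nat_lit 5) (.e (nat_lit 114712) (nat_lit 21) (.e (nat_lit 57930) (nat_lit 282) (.e (nat_lit 163923) (nat_lit 15) (.e (nat_lit 450587) (nat_lit 10) (.e (nat_lit 573456) (nat_lit 9) (.e (nat_lit 1288) (nat_lit 95) (.e (nat_lit 123195) (nat_lit 266) .nil)))))))) (.g (nat_lit 6) .nil .nil)))) (.nd (nat_lit 5) 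
(.lf (nat_lit 152025) (.g (nat_lit 4306) (.e (nat_lit 57389) (nat_lit 5) (.e (nat_lit 114711) (nat_lit 21) (.e (nat_lit 57854) (nat_lit 252) (.e (nat_lit 57409) (nat_lit 12) (.e (nat_lit 336019) (nat_lit 3) (.e (nat_lit 98342) (nat_lit 20) (.e (nat_lit 229120) (nat_lit 1) (.e (nat_lit 57854) (nat_lit 252) .nil)))))))) (.g (nat_lit 5) .nil .nil))) 
(.lf (nat_lit 152057) (.g (nat_lit 733) (.e (nat_lit 57389) (nat_lit 5) (.e (nat_lit 114719) (nat_lit 23) (.e (nat_lit 98350) (nat_lit 24) .nil))) .nil))))) (.nd (nat_lit 3) (.nd (nat_lit 4) (.nd (nat_lit 5) 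
(.lf (nat_lit 152005) (.g (nat_lit 3007) (.e (nat_lit 57389) (nat_lit 5) (.e (nat_lit 114711) (nat_lit 21) (.e (nat_lit 57847) (nat_lit 252) (.e (nat_lit 57365) (nat_lit 1) (.e (nat_lit 57854) (nat_lit 252) (.e (nat_lit 57447) (nat_lit 19) (.e (nat_lit 393234) (nat_lit 17) (.e (nat_lit 2411) (nat_lit 157) (.e (nat_lit 5567) (nat_lit 308) .nil))))))))) (.g (nat_lit 5) .nil .nil))) 
(.lf (nat_lit 152037) (.g (nat_lit 2499) (.e (nat_lit 57389) (nat_lit 5) (.e (nat_lit 114712) (nat_lit 21) (.e (nat_lit 57852) (nat_lit 252) (.e (nat_lit 57421) (nat_lit 13) (.e (nat_lit 344132) (nat_lit 26) (.e (nat_lit 557101) (nat_lit 13) (.e (nat_lit 172070) (nat_lit 4) (.e (nat_lit 229637) (nat_lit 228) .nil)))))))) (.g (nat_lit 4) .nil .nil)))) (.nd (nat_lit 5) 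
(.lf (nat_lit 152021) (.g (nat_lit 3042) (.e (nat_lit 57389) (nat_lit 5) (.e (nat_lit 114711) (nat_lit 21) (.e (nat_lit 57847) (nat_lit 252) (.e (nat_lit 57420) (nat_lit 13) (.e (nat_lit 344133) (nat_lit 26) (.e (nat_lit 557098) (nat_lit 13) (.e (nat_lit 172061) (nat_lit 1) (.e (nat_lit 164319) (nat_lit 228) .nil)))))))) (.g (nat_lit 5) .nil .nil))) 
(.lf (nat_lit 152053) (.g (nat_lit 1858) (.e (nat_lit 57389) (nat_lit 5) (.e (nat_lit 114719) (nat_lit 23) (.e (nat_lit 98317) (nat_lit 9) (.e (nat_lit 336194) (nat_lit 12) .nil)))) .nil)))) (.nd (nat_lit 4) (.nd (nat_lit 5) 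
(.lf (nat_lit 152013) (.g (nat_lit 3184) (.e (nat_lit 57389) (nat_lit 5) (.e (nat_lit 114711) (nat_lit 21) (.e (nat_lit 57847) (nat_lit 252) (.e (nat_lit 57407) (nat_lit 12) (.e (nat_lit 336019) (nat_lit 3) .nil))))) .nil)) 
(.lf (nat_lit 152045) (.g (nat_lit 1552) (.e (nat_lit 57389) (nat_lit 5) (.e (nat_lit 114715) (nat_lit 22) (.e (nat_lit 90170) (nat_lit 13) (.e (nat_lit 172065) (nat_lit 3) .nil)))) .nil))) (.nd (nat_lit 5) 
(.lf (nat_lit 152029) (.g (nat_lit 2459) (.e (nat_lit 57389) (nat_lit 5) (.e (nat_lit 114712) (nat_lit 21) (.e (nat_lit 57830) (nat_lit 250) (.e (nat_lit 1214) (nat_lit 89) (.e (nat_lit 73754) (nat_lit 8) (.e (nat_lit 557101) (nat_lit 13) (.e (nat_lit 172070) (nat_lit 4) (.e (nat_lit 229637) (nat_lit 228) .nil)))))))) (.g (nat_lit 4) .nil .nil))) 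
(.lf (nat_lit 152061) (.g (nat_lit 2661) (.e (nat_lit 57389) (nat_lit 5) (.e (nat_lit 114719) (nat_lit 23) (.e (nat_lit 98365) (nat_lit 26) (.e (nat_lit 426100) (nat_lit 1) (.e (nat_lit 164399) (nat_lit 256) (.e (nat_lit 57432) (nat_lit 16) (.e (nat_lit 368659) (nat_lit 18) (.e (nat_lit 7695) (nat_lit 412) .nil)))))))) (.g (nat_lit 4) .nil .nil))))))) 
(.nd (nat_lit 2) (.nd (nat_lit 3) (.nd (nat_lit 4) (.nd (nat_lit 5) 
(.lf (nat_lit 152003) (.g (nat_lit 3684) (.e (nat_lit 57389) (nat_lit 5) (.e (nat_lit 114711) (nat_lit 21) (.e (nat_lit 57847) (nat_lit 252) (.e (nat_lit 57365) (nat_lit 1) (.e (nat_lit 57854) (nat_lit 252) (.e (nat_lit 57447) (nat_lit 19) (.e (nat_lit 393234) (nat_lit 17) (.e (nat_lit 2405) (nat_lit 157) (.e (nat_lit 5566) (nat_lit 308) .nil))))))))) (.g (nat_lit 6) .nil .nil))) 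
(.lf (nat_lit 152035) (.g (nat_lit 2376) (.e (nat_lit 57389) (nat_lit 5) (.e (nat_lit 114712) (nat_lit 21) (.e (nat_lit 57852) (nat_lit 252) (.e (nat_lit 57421) (nat_lit 13) (.e (nat_lit 344129) (nat_lit 26) (.e (nat_lit 557104) (nat_lit 14) (.e (nat_lit 180233) (nat_lit 0) (.e (nat_lit 5190) (nat_lit 294) .nil)))))))) (.g (nat_lit 4) .nil .nil)))) (.nd (nat_lit 5) 
(.lf (nat_lit 152019) (.g (nat_lit 3899) (.e (nat_lit 57389) (nat_lit 5) (.e (nat_lit 114711) (nat_lit 21) (.e (nat_lit 57847) (nat_lit 252) (.e (nat_lit 57411) (nat_lit 12) (.e (nat_lit 336019) (nat_lit 3) (.e (nat_lit 98342) (nat_lit 20) (.e (nat_lit 229120) (nat_lit 1) (.e (nat_lit 57854) (nat_lit 252) .nil)))))))) (.g (nat_lit 5) .nil .nil))) 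
(.lf (nat_lit 152051) (.g (nat_lit 3105) (.e (nat_lit 57389) (nat_lit 5) (.e (nat_lit 114718) (nat_lit 23) (.e (nat_lit 98365) (nat_lit 26) (.e (nat_lit 426116) (nat_lit 2) (.e (nat_lit 196656) (nat_lit 11) (.e (nat_lit 16392) (nat_lit 0) (.e (nat_lit 2397) (nat_lit 157) (.e (nat_lit 4002) (nat_lit 241) .nil)))))))) (.g (nat_lit 4) .nil .nil))))) (.nd (nat_lit 4) (.nd (nat_lit 5) 
(.lf (nat_lit 152011) (.g (nat_lit 3120) (.e (nat_lit 57389) (nat_lit 5) (.e (nat_lit 114711) (nat_lit 21) (.e (nat_lit 57847) (nat_lit 252) (.e (nat_lit 57368) (nat_lit 1) (.e (nat_lit 57854) (nat_lit 252) (.e (nat_lit 57447) (nat_lit 19) (.e (nat_lit 393234) (nat_lit 17) (.e (nat_lit 2411) (nat_lit 157) (.e (nat_lit 5567) (nat_lit 308) .nil))))))))) (.g (nat_lit 5) .nil .nil))) 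
(.lf (nat_lit 152043) (.g (nat_lit 1371) (.e (nat_lit 57389) (nat_lit 5) (.e (nat_lit 114714) (nat_lit 22) (.e (nat_lit 90160) (nat_lit 11) (.e (nat_lit 24617) (nat_lit 7) .nil)))) .nil))) (.nd (nat_lit 5) 
(.lf (nat_lit 152027) (.g (nat_lit 1528) (.e (nat_lit 57389) (nat_lit 5) (.e (nat_lit 114712) (nat_lit 21) (.e (nat_lit 57830) (nat_lit 250) (.e (nat_lit 1214) (nat_lit 89) (.e (nat_lit 73753) (nat_lit 8) .nil))))) .nil)) 
(.lf (nat_lit 152059) (.g (nat_lit 2831) (.e (nat_lit 57389) (nat_lit 5) (.e (nat_lit 114719) (nat_lit 23) (.e (nat_lit 98365) (nat_lit 26) (.e (nat_lit 426100) (nat_lit 1) (.e (nat_lit 164380) (nat_lit 254) (.e (nat_lit 1214) (nat_lit 89) (.e (nat_lit 73729) (nat_lit 0) (.e (nat_lit 7697) (nat_lit 412) .nil)))))))) (.g (nat_lit 4) .nil .nil)))))) 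
(.nd (nat_lit 3) (.nd (nat_lit 4) (.nd (nat_lit 5) 
(.lf (nat_lit 152007) (.g (nat_lit 2877) (.e (nat_lit 57389) (nat_lit 5) (.e (nat_lit 114711) (nat_lit 21) (.e (nat_lit 57847) (nat_lit 252) (.e (nat_lit 57365) (nat_lit 1) (.e (nat_lit 57854) (nat_lit 252) (.e (nat_lit 57447) (nat_lit 19) (.e (nat_lit 393238) (nat_lit 17) (.e (nat_lit 2400) (nat_lit 157) (.e (nat_lit 5573) (nat_lit 308) .nil))))))))) (.g (nat_lit 5) .nil .nil))) 
(.lf (nat_lit 152039) (.g (nat_lit 3150) (.e (nat_lit 57389) (nat_lit 5) (.e (nat_lit 114712) (nat_lit 21) (.e (nat_lit 57854) (nat_lit 252) (.e (nat_lit 57409) (nat_lit 12) (.e (nat_lit 336019) (nat_lit 3) (.e (nat_lit 98341) (nat_lit 20) (.e (nat_lit 229120) (nat_lit 1) (.e (nat_lit 57851) (nat_lit 252) .nil)))))))) (.g (nat_lit 4) .nil .nil)))) (.nd (nat_lit 5) 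
(.lf (nat_lit 152023) (.g (nat_lit 1752) (.e (nat_lit 57389) (nat_lit 5) (.e (nat_lit 114711) (nat_lit 21) (.e (nat_lit 57847) (nat_lit 252) (.e (nat_lit 57422) (nat_lit 13) .nil)))) .nil)) 
(.lf (nat_lit 152055) (.g (nat_lit 3374) (.e (nat_lit 57389) (nat_lit 5) (.e (nat_lit 114719) (nat_lit 23) (.e (nat_lit 98317) (nat_lit 9) (.e (nat_lit 336194) (nat_lit 12) (.e (nat_lit 385066) (nat_lit 26) (.e (nat_lit 540416) (nat_lit 18) (.e (nat_lit 164399) (nat_lit 256) .nil))))))) (.g (nat_lit 4) .nil .nil))))) (.nd (nat_lit 4) (.nd (nat_lit 5) 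
(.lf (nat_lit 152015) (.g (nat_lit 3575) (.e (nat_lit 57389) (nat_lit 5) (.e (nat_lit 114711) (nat_lit 21) (.e (nat_lit 57847) (nat_lit 252) (.e (nat_lit 57407) (nat_lit 12) (.e (nat_lit 336019) (nat_lit 3) (.e (nat_lit 98341) (nat_lit 20) (.e (nat_lit 229120) (nat_lit 1) (.e (nat_lit 57851) (nat_lit 252) .nil)))))))) (.g (nat_lit 4) .nil .nil))) 
(.lf (nat_lit 152047) (.g (nat_lit 1082) (.e (nat_lit 57389) (nat_lit 5) (.e (nat_lit 114716) (nat_lit 22) (.e (nat_lit 90157) (nat_lit 11) (.e (nat_lit 24650) (nat_lit 12) .nil)))) .nil))) (.nd (nat_lit 5) 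
(.lf (nat_lit 152031) (.g (nat_lit 2759) (.e (nat_lit 57389) (nat_lit 5) (.e (nat_lit 114712) (nat_lit 21) (.e (nat_lit 57851) (nat_lit 252) (.e (nat_lit 65280) (nat_lit 66) (.e (nat_lit 221210) (nat_lit 22) (.e (nat_lit 196681) (nat_lit 17) (.e (nat_lit 131086) (nat_lit 1) (.e (nat_lit 57854) (nat_lit 252) .nil)))))))) (.g (nat_lit 6) .nil .nil))) 
(.lf (nat_lit 152063) (.g (nat_lit 4311) (.e (nat_lit 57389) (nat_lit 5) (.e (nat_lit 114719) (nat_lit 23) (.e (nat_lit 98365) (nat_lit 26) (.e (nat_lit 426116) (nat_lit 2) (.e (nat_lit 196656) (nat_lit 11) (.e (nat_lit 16392) (nat_lit 0) (.e (nat_lit 2397) (nat_lit 157) (.e (nat_lit 3999) (nat_lit 241) .nil)))))))) (.g (nat_lit 5) .nil .nil)))))))))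

noncomputable def tv2028 : DT := (.nd (nat_lit 0) (.nd (nat_lit 1) (.nd (nat_lit 2) (.nd (nat_lit 3) (.nd (nat_lit 4) (.nd (nat_lit 5) 
(.lf (nat_lit 152064) (.g (nat_lit 4708) (.e (nat_lit 57389) (nat_lit 5) (.e (nat_lit 114719) (nat_lit 23) (.e (nat_lit 98365) (nat_lit 26) (.e (nat_lit 426116) (nat_lit 2) (.e (nat_lit 196656) (nat_lit 11) (.e (nat_lit 16392) (nat_lit 0) (.e (nat_lit 2397) (nat_lit 157) (.e (nat_lit 4002) (nat_lit 241) .nil)))))))) (.g (nat_lit 5) .nil .nil))) 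
(.lf (nat_lit 152096) (.g (nat_lit 1845) (.e (nat_lit 57390) (nat_lit 5) (.e (nat_lit 114695) (nat_lit 11) (.e (nat_lit 426261) (nat_lit 9) (.e (nat_lit 426554) (nat_lit 32) (.e (nat_lit 376857) (nat_lit 21) (.e (nat_lit 57846) (nat_lit 252) .nil)))))) (.g (nat_lit 0) .nil .nil)))) (.nd (nat_lit 5) 
(.lf (nat_lit 152080) (.g (nat_lit 2108) (.e (nat_lit 57389) (nat_lit 5) (.e (nat_lit 114724) (nat_lit 25) (.e (nat_lit 114715) (nat_lit 22) (.e (nat_lit 90170) (nat_lit 13) (.e (nat_lit 179968) (nat_lit 20) (.e (nat_lit 114710) (nat_lit 21) (.e (nat_lit 57854) (nat_lit 252) .nil))))))) (.g (nat_lit 4) .nil .nil))) 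
(.lf (nat_lit 152112) (.g (nat_lit 1808) (.e (nat_lit 57390) (nat_lit 5) (.e (nat_lit 114698) (nat_lit 11) (.e (nat_lit 426187) (nat_lit 9) (.e (nat_lit 426544) (nat_lit 30) (.e (nat_lit 360453) (nat_lit 0) .nil))))) .nil)))) (.nd (nat_lit 4) (.nd (nat_lit 5) 
(.lf (nat_lit 152072) (.g (nat_lit 3716) (.e (nat_lit 57389) (nat_lit 5) (.e (nat_lit 114723) (nat_lit 24) (.e (nat_lit 106534) (nat_lit 11) (.e (nat_lit 16473) (nat_lit 14) (.e (nat_lit 491560) (nat_lit 10) (.e (nat_lit 344103) (nat_lit 18) (.e (nat_lit 5934) (nat_lit 322) .nil))))))) (.g (nat_lit 5) .nil .nil))) 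
(.lf (nat_lit 152104) (.g (nat_lit 2498) (.e (nat_lit 57390) (nat_lit 5) (.e (nat_lit 114697) (nat_lit 11) (.e (nat_lit 426196) (nat_lit 9) (.e (nat_lit 426555) (nat_lit 32) (.e (nat_lit 376859) (nat_lit 21) (.e (nat_lit 57846) (nat_lit 252) .nil)))))) (.g (nat_lit 0) .nil .nil)))) (.nd (nat_lit 5) 
(.lf (nat_lit 152088) (.g (nat_lit 1403) (.e (nat_lit 57390) (nat_lit 5) (.e (nat_lit 114694) (nat_lit 11) (.e (nat_lit 426189) (nat_lit 9) (.e (nat_lit 426555) (nat_lit 32) (.e (nat_lit 376859) (nat_lit 21) (.e (nat_lit 57849) (nat_lit 252) .nil)))))) (.g (nat_lit 4) .nil .nil))) 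
(.lf (nat_lit 152120) (.g (nat_lit 1319) (.e (nat_lit 57390) (nat_lit 5) (.e (nat_lit 114698) (nat_lit 11) (.e (nat_lit 426198) (nat_lit 9) (.e (nat_lit 426556) (nat_lit 32) (.e (nat_lit 376859) (nat_lit 21) (.e (nat_lit 57847) (nat_lit 252) .nil)))))) (.g (nat_lit 4) .nil .nil)))))) (.nd (nat_lit 3) (.nd (nat_lit 4) (.nd (nat_lit 5) 
(.lf (nat_lit 152068) (.g (nat_lit 2433) (.e (nat_lit 57389) (nat_lit 5) (.e (nat_lit 114719) (nat_lit 23) (.e (nat_lit 98365) (nat_lit 26) (.e (nat_lit 426133) (nat_lit 3) (.e (nat_lit 204809) (nat_lit 9) (.e (nat_lit 426107) (nat_lit 1) (.e (nat_lit 171776) (nat_lit 136) .nil))))))) (.g (nat_lit 5) .nil .nil))) 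
(.lf (nat_lit 152100) (.g (nat_lit 1686) (.e (nat_lit 57390) (nat_lit 5) (.e (nat_lit 114697) (nat_lit 11) (.e (nat_lit 426187) (nat_lit 9) (.e (nat_lit 426555) (nat_lit 32) (.e (nat_lit 376859) (nat_lit 21) (.e (nat_lit 57849) (nat_lit 252) .nil)))))) (.g (nat_lit 4) .nil .nil)))) (.nd (nat_lit 5) 
(.lf (nat_lit 152084) (.g (nat_lit 1520) (.e (nat_lit 57390) (nat_lit 5) (.e (nat_lit 114694) (nat_lit 11) (.e (nat_lit 426188) (nat_lit 9) (.e (nat_lit 426555) (nat_lit 32) (.e (nat_lit 376857) (nat_lit 21) .nil))))) .nil)) 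
(.lf (nat_lit 152116) (.g (nat_lit 2792) (.e (nat_lit 57390) (nat_lit 5) (.e (nat_lit 114698) (nat_lit 11) (.e (nat_lit 426187) (nat_lit 9) (.e (nat_lit 426555) (nat_lit 32) (.e (nat_lit 376859) (nat_lit 21) (.e (nat_lit 57846) (nat_lit 252) .nil)))))) (.g (nat_lit 5) .nil .nil))))) (.nd (nat_lit 4) (.nd (nat_lit 5) 
(.lf (nat_lit 152076) (.g (nat_lit 1188) (.e (nat_lit 57389) (nat_lit 5) (.e (nat_lit 114723) (nat_lit 24) (.e (nat_lit 106536) (nat_lit 11) (.e (nat_lit 16486) (nat_lit 27) .nil)))) .nil)) 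
(.lf (nat_lit 152108) (.g (nat_lit 759) (.e (nat_lit 57390) (nat_lit 5) (.e (nat_lit 114698) (nat_lit 11) (.e (nat_lit 426186) (nat_lit 9) .nil))) .nil))) (.nd (nat_lit 5) 
(.lf (nat_lit 152092) (.g (nat_lit 1177) (.e (nat_lit 57390) (nat_lit 5) (.e (nat_lit 114694) (nat_lit 11) (.e (nat_lit 426196) (nat_lit 9) (.e (nat_lit 426555) (nat_lit 32) (.e (nat_lit 376857) (nat_lit 21) .nil))))) .nil)) 
(.lf (nat_lit 152124) (.g (nat_lit 2186) (.e (nat_lit 57390) (nat_lit 5) (.e (nat_lit 114710) (nat_lit 21) (.e (nat_lit 57849) (nat_lit 252) (.e (nat_lit 57411) (nat_lit 12) (.e (nat_lit 336019) (nat_lit 3) .nil))))) .nil)))))) (.nd (nat_lit 2) (.nd (nat_lit 3) (.nd (nat_lit 4) (.nd (nat_lit 5) 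
(.lf (nat_lit 152066) (.g (nat_lit 3057) (.e (nat_lit 57389) (nat_lit 5) (.e (nat_lit 114719) (nat_lit 23) (.e (nat_lit 98365) (nat_lit 26) (.e (nat_lit 426116) (nat_lit 2) (.e (nat_lit 196656) (nat_lit 11) (.e (nat_lit 16392) (nat_lit 0) (.e (nat_lit 2402) (nat_lit 157) (.e (nat_lit 7936) (nat_lit 241) .nil)))))))) (.g (nat_lit 4) .nil .nil))) 
(.lf (nat_lit 152098) (.g (nat_lit 1774) (.e (nat_lit 57390) (nat_lit 5) (.e (nat_lit 114697) (nat_lit 11) (.e (nat_lit 426187) (nat_lit 9) (.e (nat_lit 426555) (nat_lit 32) (.e (nat_lit 376857) (nat_lit 21) (.e (nat_lit 57849) (nat_lit 252) .nil)))))) (.g (nat_lit 4) .nil .nil)))) (.nd (nat_lit 5) 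
(.lf (nat_lit 152082) (.g (nat_lit 1612) (.e (nat_lit 57390) (nat_lit 5) (.e (nat_lit 114694) (nat_lit 11) (.e (nat_lit 426187) (nat_lit 9) (.e (nat_lit 426555) (nat_lit 32) (.e (nat_lit 376857) (nat_lit 21) .nil))))) .nil)) 
(.lf (nat_lit 152114) (.g (nat_lit 2022) (.e (nat_lit 57390) (nat_lit 5) (.e (nat_lit 114698) (nat_lit 11) (.e (nat_lit 426187) (nat_lit 9) (.e (nat_lit 426555) (nat_lit 32) (.e (nat_lit 376857) (nat_lit 21) (.e (nat_lit 57848) (nat_lit 252) .nil)))))) (.g (nat_lit 4) .nil .nil))))) (.nd (nat_lit 4) (.nd (nat_lit 5) 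
(.lf (nat_lit 152074) (.g (nat_lit 3875) (.e (nat_lit 57389) (nat_lit 5) (.e (nat_lit 114723) (nat_lit 24) (.e (nat_lit 106535) (nat_lit 11) (.e (nat_lit 16473) (nat_lit 14) (.e (nat_lit 491560) (nat_lit 10) (.e (nat_lit 344103) (nat_lit 18) (.e (nat_lit 5948) (nat_lit 322) .nil))))))) (.g (nat_lit 5) .nil .nil))) 
(.lf (nat_lit 152106) (.g (nat_lit 1802) (.e (nat_lit 57390) (nat_lit 5) (.e (nat_lit 114698) (nat_lit 11) (.e (nat_lit 426107) (nat_lit 1) (.e (nat_lit 164421) (nat_lit 272) .nil)))) .nil))) (.nd (nat_lit 5) 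
(.lf (nat_lit 152090) (.g (nat_lit 1985) (.e (nat_lit 57390) (nat_lit 5) (.e (nat_lit 114694) (nat_lit 11) (.e (nat_lit 426190) (nat_lit 9) (.e (nat_lit 426555) (nat_lit 32) (.e (nat_lit 376857) (nat_lit 21) (.e (nat_lit 57847) (nat_lit 252) .nil)))))) (.g (nat_lit 4) .nil .nil))) 
(.lf (nat_lit 152122) (.g (nat_lit 1313) (.e (nat_lit 57390) (nat_lit 5) (.e (nat_lit 114698) (nat_lit 11) (.e (nat_lit 426199) (nat_lit 9) (.e (nat_lit 426556) (nat_lit 32) (.e (nat_lit 376859) (nat_lit 21) .nil))))) .nil))))) (.nd (nat_lit 3) (.nd (nat_lit 4) (.nd (nat_lit 5) 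
(.lf (nat_lit 152070) (.g (nat_lit 2740) (.e (nat_lit 57389) (nat_lit 5) (.e (nat_lit 114719) (nat_lit 23) (.e (nat_lit 98387) (nat_lit 33) (.e (nat_lit 491571) (nat_lit 13) (.e (nat_lit 393252) (nat_lit 18) (.e (nat_lit 171776) (nat_lit 166) .nil)))))) (.g (nat_lit 4) .nil .nil))) 
(.lf (nat_lit 152102) (.g (nat_lit 2347) (.e (nat_lit 57390) (nat_lit 5) (.e (nat_lit 114697) (nat_lit 11) (.e (nat_lit 426189) (nat_lit 9) (.e (nat_lit 426555) (nat_lit 32) (.e (nat_lit 376859) (nat_lit 21) (.e (nat_lit 57846) (nat_lit 252) .nil)))))) (.g (nat_lit 6) .nil .nil)))) (.nd (nat_lit 5) 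
(.lf (nat_lit 152086) (.g (nat_lit 1703) (.e (nat_lit 57390) (nat_lit 5) (.e (nat_lit 114694) (nat_lit 11) (.e (nat_lit 426188) (nat_lit 9) (.e (nat_lit 426555) (nat_lit 32) (.e (nat_lit 376859) (nat_lit 21) (.e (nat_lit 57849) (nat_lit 252) .nil)))))) (.g (nat_lit 4) .nil .nil))) 
(.lf (nat_lit 152118) (.g (nat_lit 1079) (.e (nat_lit 57390) (nat_lit 5) (.e (nat_lit 114698) (nat_lit 11) (.e (nat_lit 426198) (nat_lit 9) (.e (nat_lit 426539) (nat_lit 29) .nil)))) .nil)))) (.nd (nat_lit 4) (.nd (nat_lit 5) 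
(.lf (nat_lit 152078) (.g (nat_lit 1989) (.e (nat_lit 57389) (nat_lit 5) (.e (nat_lit 114724) (nat_lit 25) (.e (nat_lit 114714) (nat_lit 22) (.e (nat_lit 90170) (nat_lit 13) (.e (nat_lit 179968) (nat_lit 20) (.e (nat_lit 114712) (nat_lit 21) (.e (nat_lit 57854) (nat_lit 252) .nil))))))) (.g (nat_lit 4) .nil .nil))) 
(.lf (nat_lit 152110) (.g (nat_lit 2757) (.e (nat_lit 57390) (nat_lit 5) (.e (nat_lit 114698) (nat_lit 11) (.e (nat_lit 426186) (nat_lit 9) (.e (nat_lit 426555) (nat_lit 32) (.e (nat_lit 376859) (nat_lit 21) (.e (nat_lit 57846) (nat_lit 252) .nil)))))) (.g (nat_lit 5) .nil .nil)))) (.nd (nat_lit 5) 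
(.lf (nat_lit 152094) (.g (nat_lit 1920) (.e (nat_lit 57390) (nat_lit 5) (.e (nat_lit 114695) (nat_lit 11) (.e (nat_lit 426260) (nat_lit 9) (.e (nat_lit 426554) (nat_lit 32) (.e (nat_lit 376859) (nat_lit 21) (.e (nat_lit 57846) (nat_lit 252) .nil)))))) (.g (nat_lit 0) .nil .nil))) 
(.lf (nat_lit 152126) (.g (nat_lit 1237) (.e (nat_lit 57390) (nat_lit 5) (.e (nat_lit 114711) (nat_lit 21) (.e (nat_lit 57688) (nat_lit 156) (.e (nat_lit 163860) (nat_lit 1) .nil)))) .nil))))))) (.nd (nat_lit 1) (.nd (nat_lit 2) (.nd (nat_lit 3) (.nd (nat_lit 4) (.nd (nat_lit 5) 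
(.lf (nat_lit 152065) (.g (nat_lit 5446) (.e (nat_lit 57389) (nat_lit 5) (.e (nat_lit 114719) (nat_lit 23) (.e (nat_lit 98365) (nat_lit 26) (.e (nat_lit 426116) (nat_lit 2) (.e (nat_lit 196656) (nat_lit 11) (.e (nat_lit 16392) (nat_lit 0) (.e (nat_lit 2397) (nat_lit 157) (.e (nat_lit 4003) (nat_lit 241) .nil)))))))) (.g (nat_lit 6) .nil .nil))) 
(.lf (nat_lit 152097) (.g (nat_lit 1903) (.e (nat_lit 57390) (nat_lit 5) (.e (nat_lit 114696) (nat_lit 11) (.e (nat_lit 426260) (nat_lit 9) (.e (nat_lit 426554) (nat_lit 32) (.e (nat_lit 376857) (nat_lit 21) (.e (nat_lit 57849) (nat_lit 252) .nil)))))) (.g (nat_lit 0) .nil .nil)))) (.nd (nat_lit 5) 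
(.lf (nat_lit 152081) (.g (nat_lit 2161) (.e (nat_lit 57389) (nat_lit 5) (.e (nat_lit 114724) (nat_lit 25) (.e (nat_lit 114715) (nat_lit 22) (.e (nat_lit 90170) (nat_lit 13) (.e (nat_lit 179968) (nat_lit 20) (.e (nat_lit 114712) (nat_lit 21) (.e (nat_lit 57854) (nat_lit 252) .nil))))))) (.g (nat_lit 4) .nil .nil))) 
(.lf (nat_lit 152113) (.g (nat_lit 2921) (.e (nat_lit 57390) (nat_lit 5) (.e (nat_lit 114698) (nat_lit 11) (.e (nat_lit 426187) (nat_lit 9) (.e (nat_lit 426555) (nat_lit 32) (.e (nat_lit 376857) (nat_lit 21) (.e (nat_lit 57846) (nat_lit 252) .nil)))))) (.g (nat_lit 5) .nil .nil))))) (.nd (nat_lit 4) (.nd (nat_lit 5) 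
(.lf (nat_lit 152073) (.g (nat_lit 3518) (.e (nat_lit 57389) (nat_lit 5) (.e (nat_lit 114723) (nat_lit 24) (.e (nat_lit 106534) (nat_lit 11) (.e (nat_lit 16473) (nat_lit 14) (.e (nat_lit 491560) (nat_lit 10) (.e (nat_lit 344103) (nat_lit 18) (.e (nat_lit 5948) (nat_lit 322) .nil))))))) (.g (nat_lit 5) .nil .nil))) 
(.lf (nat_lit 152105) (.g (nat_lit 382) (.e (nat_lit 57390) (nat_lit 5) (.e (nat_lit 114697) (nat_lit 11) (.e (nat_lit 426258) (nat_lit 9) .nil))) .nil))) (.nd (nat_lit 5) 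
(.lf (nat_lit 152089) (.g (nat_lit 1971) (.e (nat_lit 57390) (nat_lit 5) (.e (nat_lit 114694) (nat_lit 11) (.e (nat_lit 426190) (nat_lit 9) (.e (nat_lit 426555) (nat_lit 32) (.e (nat_lit 376857) (nat_lit 21) (.e (nat_lit 57846) (nat_lit 252) .nil)))))) (.g (nat_lit 4) .nil .nil))) 
(.lf (nat_lit 152121) (.g (nat_lit 1012) (.e (nat_lit 57390) (nat_lit 5) (.e (nat_lit 114698) (nat_lit 11) (.e (nat_lit 426199) (nat_lit 9) (.e (nat_lit 426542) (nat_lit 29) .nil)))) .nil))))) (.nd (nat_lit 3) (.nd (nat_lit 4) (.nd (nat_lit 5) 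
(.lf (nat_lit 152069) (.g (nat_lit 3459) (.e (nat_lit 57389) (nat_lit 5) (.e (nat_lit 114719) (nat_lit 23) (.e (nat_lit 98365) (nat_lit 26) (.e (nat_lit 426133) (nat_lit 3) (.e (nat_lit 212736) (nat_lit 10) (.e (nat_lit 434208) (nat_lit 18) (.e (nat_lit 3998) (nat_lit 241) .nil))))))) (.g (nat_lit 4) .nil .nil))) 
(.lf (nat_lit 152101) (.g (nat_lit 2436) (.e (nat_lit 57390) (nat_lit 5) (.e (nat_lit 114697) (nat_lit 11) (.e (nat_lit 426189) (nat_lit 9) (.e (nat_lit 426555) (nat_lit 32) (.e (nat_lit 376857) (nat_lit 21) (.e (nat_lit 57847) (nat_lit 252) .nil)))))) (.g (nat_lit 6) .nil .nil)))) (.nd (nat_lit 5) 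
(.lf (nat_lit 152085) (.g (nat_lit 1706) (.e (nat_lit 57390) (nat_lit 5) (.e (nat_lit 114694) (nat_lit 11) (.e (nat_lit 426188) (nat_lit 9) (.e (nat_lit 426555) (nat_lit 32) (.e (nat_lit 376857) (nat_lit 21) (.e (nat_lit 57849) (nat_lit 252) .nil)))))) (.g (nat_lit 4) .nil .nil))) 
(.lf (nat_lit 152117) (.g (nat_lit 2951) (.e (nat_lit 57390) (nat_lit 5) (.e (nat_lit 114698) (nat_lit 11) (.e (nat_lit 426187) (nat_lit 9) (.e (nat_lit 426555) (nat_lit 32) (.e (nat_lit 376859) (nat_lit 21) (.e (nat_lit 57849) (nat_lit 252) .nil)))))) (.g (nat_lit 6) .nil .nil))))) (.nd (nat_lit 4) (.nd (nat_lit 5) 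
(.lf (nat_lit 152077) (.g (nat_lit 1936) (.e (nat_lit 57389) (nat_lit 5) (.e (nat_lit 114724) (nat_lit 25) (.e (nat_lit 114714) (nat_lit 22) (.e (nat_lit 90170) (nat_lit 13) (.e (nat_lit 179968) (nat_lit 20) (.e (nat_lit 114710) (nat_lit 21) (.e (nat_lit 57854) (nat_lit 252) .nil))))))) (.g (nat_lit 4) .nil .nil))) 
(.lf (nat_lit 152109) (.g (nat_lit 2884) (.e (nat_lit 57390) (nat_lit 5) (.e (nat_lit 114698) (nat_lit 11) (.e (nat_lit 426186) (nat_lit 9) (.e (nat_lit 426555) (nat_lit 32) (.e (nat_lit 376857) (nat_lit 21) (.e (nat_lit 57846) (nat_lit 252) .nil)))))) (.g (nat_lit 5) .nil .nil)))) (.nd (nat_lit 5) 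
(.lf (nat_lit 152093) (.g (nat_lit 1876) (.e (nat_lit 57390) (nat_lit 5) (.e (nat_lit 114695) (nat_lit 11) (.e (nat_lit 426260) (nat_lit 9) (.e (nat_lit 426554) (nat_lit 32) (.e (nat_lit 376857) (nat_lit 21) (.e (nat_lit 57846) (nat_lit 252) .nil)))))) (.g (nat_lit 0) .nil .nil))) 
(.lf (nat_lit 152125) (.g (nat_lit 715) (.e (nat_lit 57390) (nat_lit 5) (.e (nat_lit 114711) (nat_lit 21) (.e (nat_lit 57681) (nat_lit 155) .nil))) .nil)))))) (.nd (nat_lit 2) (.nd (nat_lit 3) (.nd (nat_lit 4) (.nd (nat_lit 5) 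
(.lf (nat_lit 152067) (.g (nat_lit 3782) (.e (nat_lit 57389) (nat_lit 5) (.e (nat_lit 114719) (nat_lit 23) (.e (nat_lit 98365) (nat_lit 26) (.e (nat_lit 426124) (nat_lit 2) (.e (nat_lit 196656) (nat_lit 11) (.e (nat_lit 16392) (nat_lit 0) (.e (nat_lit 2397) (nat_lit 157) (.e (nat_lit 4003) (nat_lit 241) .nil)))))))) (.g (nat_lit 5) .nil .nil))) 
(.lf (nat_lit 152099) (.g (nat_lit 1575) (.e (nat_lit 57390) (nat_lit 5) (.e (nat_lit 114697) (nat_lit 11) (.e (nat_lit 426187) (nat_lit 9) (.e (nat_lit 426555) (nat_lit 32) (.e (nat_lit 376859) (nat_lit 21) .nil))))) .nil))) (.nd (nat_lit 5) 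
(.lf (nat_lit 152083) (.g (nat_lit 1634) (.e (nat_lit 57390) (nat_lit 5) (.e (nat_lit 114694) (nat_lit 11) (.e (nat_lit 426187) (nat_lit 9) (.e (nat_lit 426555) (nat_lit 32) (.e (nat_lit 376859) (nat_lit 21) .nil))))) .nil)) 
(.lf (nat_lit 152115) (.g (nat_lit 3026) (.e (nat_lit 57390) (nat_lit 5) (.e (nat_lit 114698) (nat_lit 11) (.e (nat_lit 426187) (nat_lit 9) (.e (nat_lit 426555) (nat_lit 32) (.e (nat_lit 376857) (nat_lit 21) (.e (nat_lit 57849) (nat_lit 252) .nil)))))) (.g (nat_lit 6) .nil .nil))))) (.nd (nat_lit 4) (.nd (nat_lit 5) 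
(.lf (nat_lit 152075) (.g (nat_lit 4226) (.e (nat_lit 57389) (nat_lit 5) (.e (nat_lit 114723) (nat_lit 24) (.e (nat_lit 106536) (nat_lit 11) (.e (nat_lit 16473) (nat_lit 14) (.e (nat_lit 491560) (nat_lit 10) (.e (nat_lit 344103) (nat_lit 18) (.e (nat_lit 5948) (nat_lit 322) .nil))))))) (.g (nat_lit 5) .nil .nil))) 
(.lf (nat_lit 152107) (.g (nat_lit 1802) (.e (nat_lit 57390) (nat_lit 5) (.e (nat_lit 114698) (nat_lit 11) (.e (nat_lit 426107) (nat_lit 1) (.e (nat_lit 164422) (nat_lit 272) .nil)))) .nil))) (.nd (nat_lit 5) 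
(.lf (nat_lit 152091) (.g (nat_lit 2355) (.e (nat_lit 57390) (nat_lit 5) (.e (nat_lit 114694) (nat_lit 11) (.e (nat_lit 426190) (nat_lit 9) (.e (nat_lit 426555) (nat_lit 32) (.e (nat_lit 376857) (nat_lit 21) (.e (nat_lit 57849) (nat_lit 252) .nil)))))) (.g (nat_lit 5) .nil .nil))) 
(.lf (nat_lit 152123) (.g (nat_lit 1805) (.e (nat_lit 57390) (nat_lit 5) (.e (nat_lit 122624) (nat_lit 11) (.e (nat_lit 426438) (nat_lit 18) (.e (nat_lit 98373) (nat_lit 29) (.e (nat_lit 458496) (nat_lit 0) (.e (nat_lit 6393) (nat_lit 339) .nil)))))) (.g (nat_lit 4) .nil .nil)))))) (.nd (nat_lit 3) (.nd (nat_lit 4) (.nd (nat_lit 5) 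
(.lf (nat_lit 152071) (.g (nat_lit 3811) (.e (nat_lit 57389) (nat_lit 5) (.e (nat_lit 114722) (nat_lit 24) (.e (nat_lit 106536) (nat_lit 11) (.e (nat_lit 16473) (nat_lit 14) (.e (nat_lit 491560) (nat_lit 10) (.e (nat_lit 344103) (nat_lit 18) (.e (nat_lit 5949) (nat_lit 322) .nil))))))) (.g (nat_lit 5) .nil .nil))) 
(.lf (nat_lit 152103) (.g (nat_lit 2314) (.e (nat_lit 57390) (nat_lit 5) (.e (nat_lit 114697) (nat_lit 11) (.e (nat_lit 426189) (nat_lit 9) (.e (nat_lit 426555) (nat_lit 32) (.e (nat_lit 376859) (nat_lit 21) (.e (nat_lit 57847) (nat_lit 252) .nil)))))) (.g (nat_lit 6) .nil .nil)))) (.nd (nat_lit 5) 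
(.lf (nat_lit 152087) (.g (nat_lit 1207) (.e (nat_lit 57390) (nat_lit 5) (.e (nat_lit 114694) (nat_lit 11) (.e (nat_lit 426189) (nat_lit 9) (.e (nat_lit 426555) (nat_lit 32) (.e (nat_lit 376857) (nat_lit 21) .nil))))) .nil)) 
(.lf (nat_lit 152119) (.g (nat_lit 1547) (.e (nat_lit 57390) (nat_lit 5) (.e (nat_lit 114698) (nat_lit 11) (.e (nat_lit 426198) (nat_lit 9) (.e (nat_lit 426556) (nat_lit 32) (.e (nat_lit 376859) (nat_lit 21) (.e (nat_lit 57846) (nat_lit 252) .nil)))))) (.g (nat_lit 4) .nil .nil))))) (.nd (nat_lit 4) (.nd (nat_lit 5) 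
(.lf (nat_lit 152079) (.g (nat_lit 1825) (.e (nat_lit 57389) (nat_lit 5) (.e (nat_lit 114724) (nat_lit 25) (.e (nat_lit 114715) (nat_lit 22) (.e (nat_lit 90170) (nat_lit 13) (.e (nat_lit 179968) (nat_lit 20) (.e (nat_lit 114710) (nat_lit 21) (.e (nat_lit 57851) (nat_lit 252) .nil))))))) (.g (nat_lit 4) .nil .nil))) 
(.lf (nat_lit 152111) (.g (nat_lit 735) (.e (nat_lit 57390) (nat_lit 5) (.e (nat_lit 114698) (nat_lit 11) (.e (nat_lit 426187) (nat_lit 9) .nil))) .nil))) (.nd (nat_lit 5) 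
(.lf (nat_lit 152095) (.g (nat_lit 1764) (.e (nat_lit 57390) (nat_lit 5) (.e (nat_lit 114695) (nat_lit 11) (.e (nat_lit 426260) (nat_lit 9) (.e (nat_lit 426554) (nat_lit 32) (.e (nat_lit 376859) (nat_lit 21) (.e (nat_lit 57847) (nat_lit 252) .nil)))))) (.g (nat_lit 6) .nil .nil))) 
(.lf (nat_lit 152127) (.g (nat_lit 1237) (.e (nat_lit 57390) (nat_lit 5) (.e (nat_lit 114711) (nat_lit 21) (.e (nat_lit 57688) (nat_lit 156) (.e (nat_lit 163861) (nat_lit 1) .nil)))) .nil))))))))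

noncomputable def tv2029 : DT := (.nd (nat_lit 0) (.nd (nat_lit 1) (.nd (nat_lit 2) (.nd (nat_lit 3) (.nd (nat_lit 4) (.nd (nat_lit 5) 
(.lf (nat_lit 152128) (.g (nat_lit 1193) (.e (nat_lit 57390) (nat_lit 5) (.e (nat_lit 114711) (nat_lit 21) (.e (nat_lit 57688) (nat_lit 156) (.e (nat_lit 163867) (nat_lit 2) .nil)))) .nil)) 
(.lf (nat_lit 152160) (.g (nat_lit 1485) (.e (nat_lit 57390) (nat_lit 5) (.e (nat_lit 114719) (nat_lit 23) (.e (nat_lit 98317) (nat_lit 9) (.e (nat_lit 336087) (nat_lit 9) .nil)))) .nil))) (.nd (nat_lit 5) 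
(.lf (nat_lit 152144) (.g (nat_lit 1676) (.e (nat_lit 57390) (nat_lit 5) (.e (nat_lit 114711) (nat_lit 21) (.e (nat_lit 57931) (nat_lit 282) (.e (nat_lit 164084) (nat_lit 73) .nil)))) .nil)) 
(.lf (nat_lit 152176) (.g (nat_lit 4480) (.e (nat_lit 57390) (nat_lit 5) (.e (nat_lit 114722) (nat_lit 24) (.e (nat_lit 106536) (nat_lit 11) (.e (nat_lit 16473) (nat_lit 14) (.e (nat_lit 491546) (nat_lit 9) (.e (nat_lit 336032) (nat_lit 4) (.e (nat_lit 123194) (nat_lit 266) .nil))))))) (.g (nat_lit 5) .nil .nil))))) (.nd (nat_lit 4) (.nd (nat_lit 5) 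
(.lf (nat_lit 152136) (.g (nat_lit 1353) (.e (nat_lit 57390) (nat_lit 5) (.e (nat_lit 114711) (nat_lit 21) (.e (nat_lit 57847) (nat_lit 252) (.e (nat_lit 57422) (nat_lit 13) .nil)))) .nil)) 
(.lf (nat_lit 152168) (.g (nat_lit 2090) (.e (nat_lit 57390) (nat_lit 5) (.e (nat_lit 114719) (nat_lit 23) (.e (nat_lit 98365) (nat_lit 26) (.e (nat_lit 426100) (nat_lit 1) (.e (nat_lit 164381) (nat_lit 254) .nil))))) .nil))) (.nd (nat_lit 5) 
(.lf (nat_lit 152152) (.g (nat_lit 1552) (.e (nat_lit 57390) (nat_lit 5) (.e (nat_lit 114715) (nat_lit 22) (.e (nat_lit 90170) (nat_lit 13) (.e (nat_lit 172065) (nat_lit 3) .nil)))) .nil)) 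
(.lf (nat_lit 152184) (.g (nat_lit 1783) (.e (nat_lit 57390) (nat_lit 5) (.e (nat_lit 114723) (nat_lit 24) (.e (nat_lit 106536) (nat_lit 11) (.e (nat_lit 16471) (nat_lit 14) (.e (nat_lit 491546) (nat_lit 9) .nil))))) .nil))))) (.nd (nat_lit 3) (.nd (nat_lit 4) (.nd (nat_lit 5) 
(.lf (nat_lit 152132) (.g (nat_lit 4178) (.e (nat_lit 57390) (nat_lit 5) (.e (nat_lit 114711) (nat_lit 21) (.e (nat_lit 57847) (nat_lit 252) (.e (nat_lit 57368) (nat_lit 1) (.e (nat_lit 57854) (nat_lit 252) (.e (nat_lit 57447) (nat_lit 19) (.e (nat_lit 393238) (nat_lit 17) (.e (nat_lit 2400) (nat_lit 157) (.e (nat_lit 5568) (nat_lit 308) .nil))))))))) (.g (nat_lit 6) .nil .nil))) 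
(.lf (nat_lit 152164) (.g (nat_lit 1701) (.e (nat_lit 57390) (nat_lit 5) (.e (nat_lit 114719) (nat_lit 23) (.e (nat_lit 98317) (nat_lit 9) (.e (nat_lit 336195) (nat_lit 12) .nil)))) .nil))) (.nd (nat_lit 5) 
(.lf (nat_lit 152148) (.g (nat_lit 1662) (.e (nat_lit 57390) (nat_lit 5) (.e (nat_lit 114712) (nat_lit 21) (.e (nat_lit 57852) (nat_lit 252) (.e (nat_lit 57421) (nat_lit 13) (.e (nat_lit 344129) (nat_lit 26) .nil))))) .nil)) 
(.lf (nat_lit 152180) (.g (nat_lit 2516) (.e (nat_lit 57390) (nat_lit 5) (.e (nat_lit 114723) (nat_lit 24) (.e (nat_lit 106534) (nat_lit 11) (.e (nat_lit 16473) (nat_lit 14) (.e (nat_lit 491552) (nat_lit 9) (.e (nat_lit 336030) (nat_lit 4) (.e (nat_lit 123194) (nat_lit 266) .nil))))))) (.g (nat_lit 5) .nil .nil))))) (.nd (nat_lit 4) (.nd (nat_lit 5) 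
(.lf (nat_lit 152140) (.g (nat_lit 2380) (.e (nat_lit 57390) (nat_lit 5) (.e (nat_lit 114711) (nat_lit 21) (.e (nat_lit 57848) (nat_lit 252) (.e (nat_lit 57407) (nat_lit 12) (.e (nat_lit 336019) (nat_lit 3) (.e (nat_lit 98342) (nat_lit 20) (.e (nat_lit 229120) (nat_lit 1) (.e (nat_lit 57848) (nat_lit 252) .nil)))))))) (.g (nat_lit 4) .nil .nil))) 
(.lf (nat_lit 152172) (.g (nat_lit 2288) (.e (nat_lit 57390) (nat_lit 5) (.e (nat_lit 114719) (nat_lit 23) (.e (nat_lit 98365) (nat_lit 26) (.e (nat_lit 426133) (nat_lit 3) (.e (nat_lit 204809) (nat_lit 9) (.e (nat_lit 426107) (nat_lit 1) (.e (nat_lit 171776) (nat_lit 136) .nil))))))) (.g (nat_lit 5) .nil .nil)))) (.nd (nat_lit 5) 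
(.lf (nat_lit 152156) (.g (nat_lit 1143) (.e (nat_lit 57390) (nat_lit 5) (.e (nat_lit 114716) (nat_lit 22) (.e (nat_lit 90160) (nat_lit 11) (.e (nat_lit 24628) (nat_lit 9) .nil)))) .nil)) 
(.lf (nat_lit 152188) (.g (nat_lit 1729) (.e (nat_lit 57390) (nat_lit 5) (.e (nat_lit 114724) (nat_lit 25) (.e (nat_lit 114715) (nat_lit 22) (.e (nat_lit 90170) (nat_lit 13) (.e (nat_lit 179968) (nat_lit 20) (.e (nat_lit 114710) (nat_lit 21) (.e (nat_lit 57848) (nat_lit 252) .nil))))))) (.g (nat_lit 4) .nil .nil))))))) (.nd (nat_lit 2) (.nd (nat_lit 3) (.nd (nat_lit 4) (.nd (nat_lit 5) 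
(.lf (nat_lit 152130) (.g (nat_lit 398) (.e (nat_lit 57390) (nat_lit 5) (.e (nat_lit 114711) (nat_lit 21) (.e (nat_lit 57847) (nat_lit 252) .nil))) .nil)) 
(.lf (nat_lit 152162) (.g (nat_lit 1824) (.e (nat_lit 57390) (nat_lit 5) (.e (nat_lit 114719) (nat_lit 23) (.e (nat_lit 98317) (nat_lit 9) (.e (nat_lit 336194) (nat_lit 12) .nil)))) .nil))) (.nd (nat_lit 5) 
(.lf (nat_lit 152146) (.g (nat_lit 1285) (.e (nat_lit 57390) (nat_lit 5) (.e (nat_lit 114712) (nat_lit 21) (.e (nat_lit 57852) (nat_lit 252) (.e (nat_lit 57421) (nat_lit 13) .nil)))) .nil)) 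
(.lf (nat_lit 152178) (.g (nat_lit 3920) (.e (nat_lit 57390) (nat_lit 5) (.e (nat_lit 114722) (nat_lit 24) (.e (nat_lit 106536) (nat_lit 11) (.e (nat_lit 16473) (nat_lit 14) (.e (nat_lit 491560) (nat_lit 10) (.e (nat_lit 352000) (nat_lit 18) (.e (nat_lit 5937) (nat_lit 322) .nil))))))) (.g (nat_lit 5) .nil .nil))))) (.nd (nat_lit 4) (.nd (nat_lit 5) 
(.lf (nat_lit 152138) (.g (nat_lit 957) (.e (nat_lit 57390) (nat_lit 5) (.e (nat_lit 114711) (nat_lit 21) (.e (nat_lit 57847) (nat_lit 252) (.e (nat_lit 57432) (nat_lit 16) .nil)))) .nil)) 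
(.lf (nat_lit 152170) (.g (nat_lit 2445) (.e (nat_lit 57390) (nat_lit 5) (.e (nat_lit 114719) (nat_lit 23) (.e (nat_lit 98365) (nat_lit 26) (.e (nat_lit 426116) (nat_lit 2) (.e (nat_lit 196654) (nat_lit 11) (.e (nat_lit 16407) (nat_lit 1) (.e (nat_lit 171776) (nat_lit 136) .nil))))))) (.g (nat_lit 4) .nil .nil)))) (.nd (nat_lit 5) 
(.lf (nat_lit 152154) (.g (nat_lit 1048) (.e (nat_lit 57390) (nat_lit 5) (.e (nat_lit 114716) (nat_lit 22) (.e (nat_lit 90128) (nat_lit 9) (.e (nat_lit 324) (nat_lit 24) .nil)))) .nil)) 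
(.lf (nat_lit 152186) (.g (nat_lit 4166) (.e (nat_lit 57390) (nat_lit 5) (.e (nat_lit 114723) (nat_lit 24) (.e (nat_lit 106536) (nat_lit 11) (.e (nat_lit 16473) (nat_lit 14) (.e (nat_lit 491558) (nat_lit 10) (.e (nat_lit 352000) (nat_lit 18) (.e (nat_lit 5937) (nat_lit 322) .nil))))))) (.g (nat_lit 5) .nil .nil)))))) (.nd (nat_lit 3) (.nd (nat_lit 4) (.nd (nat_lit 5) 
(.lf (nat_lit 152134) (.g (nat_lit 2297) (.e (nat_lit 57390) (nat_lit 5) (.e (nat_lit 114711) (nat_lit 21) (.e (nat_lit 57847) (nat_lit 252) (.e (nat_lit 57411) (nat_lit 12) (.e (nat_lit 336019) (nat_lit 3) .nil))))) .nil)) 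
(.lf (nat_lit 152166) (.g (nat_lit 2378) (.e (nat_lit 57390) (nat_lit 5) (.e (nat_lit 114719) (nat_lit 23) (.e (nat_lit 98365) (nat_lit 26) (.e (nat_lit 426100) (nat_lit 1) (.e (nat_lit 164380) (nat_lit 254) .nil))))) .nil))) (.nd (nat_lit 5) 
(.lf (nat_lit 152150) (.g (nat_lit 1764) (.e (nat_lit 57390) (nat_lit 5) (.e (nat_lit 114712) (nat_lit 21) (.e (nat_lit 57852) (nat_lit 252) (.e (nat_lit 57421) (nat_lit 13) (.e (nat_lit 344130) (nat_lit 26) (.e (nat_lit 557104) (nat_lit 14) (.e (nat_lit 188160) (nat_lit 0) (.e (nat_lit 5193) (nat_lit 294) .nil)))))))) (.g (nat_lit 4) .nil .nil))) 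
(.lf (nat_lit 152182) (.g (nat_lit 3881) (.e (nat_lit 57390) (nat_lit 5) (.e (nat_lit 114723) (nat_lit 24) (.e (nat_lit 106535) (nat_lit 11) (.e (nat_lit 16473) (nat_lit 14) (.e (nat_lit 491560) (nat_lit 10) (.e (nat_lit 344089) (nat_lit 18) (.e (nat_lit 5932) (nat_lit 322) .nil))))))) (.g (nat_lit 5) .nil .nil))))) (.nd (nat_lit 4) (.nd (nat_lit 5) 
(.lf (nat_lit 152142) (.g (nat_lit 4324) (.e (nat_lit 57390) (nat_lit 5) (.e (nat_lit 114711) (nat_lit 21) (.e (nat_lit 57854) (nat_lit 252) (.e (nat_lit 57409) (nat_lit 12) (.e (nat_lit 336019) (nat_lit 3) (.e (nat_lit 98342) (nat_lit 20) (.e (nat_lit 229120) (nat_lit 1) (.e (nat_lit 57849) (nat_lit 252) .nil)))))))) (.g (nat_lit 5) .nil .nil))) 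
(.lf (nat_lit 152174) (.g (nat_lit 2939) (.e (nat_lit 57390) (nat_lit 5) (.e (nat_lit 114722) (nat_lit 24) (.e (nat_lit 106534) (nat_lit 11) (.e (nat_lit 16473) (nat_lit 14) (.e (nat_lit 491558) (nat_lit 10) (.e (nat_lit 352000) (nat_lit 18) (.e (nat_lit 5937) (nat_lit 322) .nil))))))) (.g (nat_lit 5) .nil .nil)))) (.nd (nat_lit 5) 
(.lf (nat_lit 152158) (.g (nat_lit 2137) (.e (nat_lit 57390) (nat_lit 5) (.e (nat_lit 114719) (nat_lit 23) (.e (nat_lit 98317) (nat_lit 9) (.e (nat_lit 336076) (nat_lit 9) (.e (nat_lit 336324) (nat_lit 18) (.e (nat_lit 212736) (nat_lit 1) (.e (nat_lit 164399) (nat_lit 256) .nil))))))) (.g (nat_lit 4) .nil .nil))) 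
(.lf (nat_lit 152190) (.g (nat_lit 2086) (.e (nat_lit 57395) (nat_lit 8) (.e (nat_lit 147466) (nat_lit 9) (.e (nat_lit 232) (nat_lit 21) (.e (nat_lit 336060) (nat_lit 7) (.e (nat_lit 319533) (nat_lit 16) .nil))))) .nil))))))) (.nd (nat_lit 1) (.nd (nat_lit 2) (.nd (nat_lit 3) (.nd (nat_lit 4) (.nd (nat_lit 5) 
(.lf (nat_lit 152129) (.g (nat_lit 1350) (.e (nat_lit 57390) (nat_lit 5) (.e (nat_lit 114711) (nat_lit 21) (.e (nat_lit 57844) (nat_lit 252) (.e (nat_lit 57421) (nat_lit 13) .nil)))) .nil)) 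
(.lf (nat_lit 152161) (.g (nat_lit 1515) (.e (nat_lit 57390) (nat_lit 5) (.e (nat_lit 114719) (nat_lit 23) (.e (nat_lit 98317) (nat_lit 9) (.e (nat_lit 336088) (nat_lit 9) .nil)))) .nil))) (.nd (nat_lit 5) 
(.lf (nat_lit 152145) (.g (nat_lit 1370) (.e (nat_lit 57390) (nat_lit 5) (.e (nat_lit 114712) (nat_lit 21) (.e (nat_lit 57852) (nat_lit 252) (.e (nat_lit 57420) (nat_lit 13) .nil)))) .nil)) 
(.lf (nat_lit 152177) (.g (nat_lit 4302) (.e (nat_lit 57390) (nat_lit 5) (.e (nat_lit 114722) (nat_lit 24) (.e (nat_lit 106536) (nat_lit 11) (.e (nat_lit 16473) (nat_lit 14) (.e (nat_lit 491558) (nat_lit 10) (.e (nat_lit 352000) (nat_lit 18) (.e (nat_lit 5937) (nat_lit 322) .nil))))))) (.g (nat_lit 5) .nil .nil))))) (.nd (nat_lit 4) (.nd (nat_lit 5) 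
(.lf (nat_lit 152137) (.g (nat_lit 2759) (.e (nat_lit 57390) (nat_lit 5) (.e (nat_lit 114711) (nat_lit 21) (.e (nat_lit 57847) (nat_lit 252) (.e (nat_lit 57430) (nat_lit 16) (.e (nat_lit 368676) (nat_lit 21) (.e (nat_lit 516129) (nat_lit 3) (.e (nat_lit 229120) (nat_lit 1) (.e (nat_lit 57848) (nat_lit 252) .nil)))))))) (.g (nat_lit 6) .nil .nil))) 
(.lf (nat_lit 152169) (.g (nat_lit 2018) (.e (nat_lit 57390) (nat_lit 5) (.e (nat_lit 114719) (nat_lit 23) (.e (nat_lit 98365) (nat_lit 26) (.e (nat_lit 426115) (nat_lit 2) (.e (nat_lit 196656) (nat_lit 11) .nil))))) .nil))) (.nd (nat_lit 5) 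
(.lf (nat_lit 152153) (.g (nat_lit 377) (.e (nat_lit 57390) (nat_lit 5) (.e (nat_lit 114716) (nat_lit 22) (.e (nat_lit 90128) (nat_lit 9) .nil))) .nil)) 
(.lf (nat_lit 152185) (.g (nat_lit 2175) (.e (nat_lit 57390) (nat_lit 5) (.e (nat_lit 114723) (nat_lit 24) (.e (nat_lit 106536) (nat_lit 11) (.e (nat_lit 16472) (nat_lit 14) (.e (nat_lit 491546) (nat_lit 9) .nil))))) .nil))))) (.nd (nat_lit 3) (.nd (nat_lit 4) (.nd (nat_lit 5) 
(.lf (nat_lit 152133) (.g (nat_lit 3007) (.e (nat_lit 57390) (nat_lit 5) (.e (nat_lit 114711) (nat_lit 21) (.e (nat_lit 57847) (nat_lit 252) (.e (nat_lit 57407) (nat_lit 12) (.e (nat_lit 336019) (nat_lit 3) .nil))))) .nil)) 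
(.lf (nat_lit 152165) (.g (nat_lit 735) (.e (nat_lit 57390) (nat_lit 5) (.e (nat_lit 114719) (nat_lit 23) (.e (nat_lit 98350) (nat_lit 24) .nil))) .nil))) (.nd (nat_lit 5) 
(.lf (nat_lit 152149) (.g (nat_lit 1892) (.e (nat_lit 57390) (nat_lit 5) (.e (nat_lit 114712) (nat_lit 21) (.e (nat_lit 57852) (nat_lit 252) (.e (nat_lit 57421) (nat_lit 13) (.e (nat_lit 344130) (nat_lit 26) (.e (nat_lit 557103) (nat_lit 14) (.e (nat_lit 188160) (nat_lit 0) (.e (nat_lit 5199) (nat_lit 294) .nil)))))))) (.g (nat_lit 4) .nil .nil))) 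
(.lf (nat_lit 152181) (.g (nat_lit 1738) (.e (nat_lit 57390) (nat_lit 5) (.e (nat_lit 114723) (nat_lit 24) (.e (nat_lit 106535) (nat_lit 11) (.e (nat_lit 16473) (nat_lit 14) (.e (nat_lit 491558) (nat_lit 10) .nil))))) .nil)))) (.nd (nat_lit 4) (.nd (nat_lit 5) 
(.lf (nat_lit 152141) (.g (nat_lit 4416) (.e (nat_lit 57390) (nat_lit 5) (.e (nat_lit 114711) (nat_lit 21) (.e (nat_lit 57854) (nat_lit 252) (.e (nat_lit 57409) (nat_lit 12) (.e (nat_lit 336019) (nat_lit 3) (.e (nat_lit 98341) (nat_lit 20) (.e (nat_lit 229120) (nat_lit 1) (.e (nat_lit 57849) (nat_lit 252) .nil)))))))) (.g (nat_lit 5) .nil .nil))) 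
(.lf (nat_lit 152173) (.g (nat_lit 2994) (.e (nat_lit 57390) (nat_lit 5) (.e (nat_lit 114719) (nat_lit 23) (.e (nat_lit 98365) (nat_lit 26) (.e (nat_lit 426133) (nat_lit 3) (.e (nat_lit 212736) (nat_lit 10) (.e (nat_lit 434208) (nat_lit 18) (.e (nat_lit 3998) (nat_lit 241) .nil))))))) (.g (nat_lit 4) .nil .nil)))) (.nd (nat_lit 5) 
(.lf (nat_lit 152157) (.g (nat_lit 1135) (.e (nat_lit 57390) (nat_lit 5) (.e (nat_lit 114719) (nat_lit 23) (.e (nat_lit 98317) (nat_lit 9) (.e (nat_lit 336076) (nat_lit 9) .nil)))) .nil)) 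
(.lf (nat_lit 152189) (.g (nat_lit 1746) (.e (nat_lit 57390) (nat_lit 5) (.e (nat_lit 114724) (nat_lit 25) (.e (nat_lit 114715) (nat_lit 22) (.e (nat_lit 90170) (nat_lit 13) (.e (nat_lit 179968) (nat_lit 20) (.e (nat_lit 114711) (nat_lit 21) (.e (nat_lit 57848) (nat_lit 252) .nil))))))) (.g (nat_lit 4) .nil .nil))))))) (.nd (nat_lit 2) (.nd (nat_lit 3) (.nd (nat_lit 4) (.nd (nat_lit 5) 
(.lf (nat_lit 152131) (.g (nat_lit 4065) (.e (nat_lit 57390) (nat_lit 5) (.e (nat_lit 114711) (nat_lit 21) (.e (nat_lit 57847) (nat_lit 252) (.e (nat_lit 57365) (nat_lit 1) (.e (nat_lit 57854) (nat_lit 252) (.e (nat_lit 57447) (nat_lit 19) (.e (nat_lit 393238) (nat_lit 17) (.e (nat_lit 2400) (nat_lit 157) (.e (nat_lit 5568) (nat_lit 308) .nil))))))))) (.g (nat_lit 7) .nil .nil))) 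
(.lf (nat_lit 152163) (.g (nat_lit 2798) (.e (nat_lit 57390) (nat_lit 5) (.e (nat_lit 114719) (nat_lit 23) (.e (nat_lit 98317) (nat_lit 9) (.e (nat_lit 336194) (nat_lit 12) (.e (nat_lit 385066) (nat_lit 26) (.e (nat_lit 540416) (nat_lit 18) (.e (nat_lit 164398) (nat_lit 256) .nil))))))) (.g (nat_lit 4) .nil .nil)))) (.nd (nat_lit 5) 
(.lf (nat_lit 152147) (.g (nat_lit 3154) (.e (nat_lit 57390) (nat_lit 5) (.e (nat_lit 114712) (nat_lit 21) (.e (nat_lit 57852) (nat_lit 252) (.e (nat_lit 57421) (nat_lit 13) (.e (nat_lit 344117) (nat_lit 21) (.e (nat_lit 516130) (nat_lit 3) (.e (nat_lit 229120) (nat_lit 1) (.e (nat_lit 57849) (nat_lit 252) .nil)))))))) (.g (nat_lit 6) .nil .nil))) 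
(.lf (nat_lit 152179) (.g (nat_lit 1214) (.e (nat_lit 57390) (nat_lit 5) (.e (nat_lit 114722) (nat_lit 24) (.e (nat_lit 106536) (nat_lit 11) (.e (nat_lit 16483) (nat_lit 27) .nil)))) .nil)))) (.nd (nat_lit 4) (.nd (nat_lit 5) 
(.lf (nat_lit 152139) (.g (nat_lit 2532) (.e (nat_lit 57390) (nat_lit 5) (.e (nat_lit 114711) (nat_lit 21) (.e (nat_lit 57848) (nat_lit 252) (.e (nat_lit 57407) (nat_lit 12) (.e (nat_lit 336019) (nat_lit 3) (.e (nat_lit 98341) (nat_lit 20) (.e (nat_lit 229120) (nat_lit 1) (.e (nat_lit 57848) (nat_lit 252) .nil)))))))) (.g (nat_lit 4) .nil .nil))) 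
(.lf (nat_lit 152171) (.g (nat_lit 4273) (.e (nat_lit 57390) (nat_lit 5) (.e (nat_lit 114719) (nat_lit 23) (.e (nat_lit 98365) (nat_lit 26) (.e (nat_lit 426116) (nat_lit 2) (.e (nat_lit 196656) (nat_lit 11) (.e (nat_lit 16392) (nat_lit 0) (.e (nat_lit 2397) (nat_lit 157) (.e (nat_lit 4002) (nat_lit 241) .nil)))))))) (.g (nat_lit 5) .nil .nil)))) (.nd (nat_lit 5) 
(.lf (nat_lit 152155) (.g (nat_lit 646) (.e (nat_lit 57390) (nat_lit 5) (.e (nat_lit 114716) (nat_lit 22) (.e (nat_lit 90137) (nat_lit 9) (.e (nat_lit 7936) (nat_lit 24) .nil)))) .nil)) 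
(.lf (nat_lit 152187) (.g (nat_lit 4177) (.e (nat_lit 57390) (nat_lit 5) (.e (nat_lit 114723) (nat_lit 24) (.e (nat_lit 106536) (nat_lit 11) (.e (nat_lit 16473) (nat_lit 14) (.e (nat_lit 491560) (nat_lit 10) (.e (nat_lit 344089) (nat_lit 18) (.e (nat_lit 5932) (nat_lit 322) .nil))))))) (.g (nat_lit 5) .nil .nil)))))) (.nd (nat_lit 3) (.nd (nat_lit 4) (.nd (nat_lit 5) 
(.lf (nat_lit 152135) (.g (nat_lit 1353) (.e (nat_lit 57390) (nat_lit 5) (.e (nat_lit 114711) (nat_lit 21) (.e (nat_lit 57847) (nat_lit 252) (.e (nat_lit 57420) (nat_lit 13) .nil)))) .nil)) 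
(.lf (nat_lit 152167) (.g (nat_lit 2687) (.e (nat_lit 57390) (nat_lit 5) (.e (nat_lit 114719) (nat_lit 23) (.e (nat_lit 98365) (nat_lit 26) (.e (nat_lit 426100) (nat_lit 1) (.e (nat_lit 164380) (nat_lit 254) (.e (nat_lit 1214) (nat_lit 89) (.e (nat_lit 73729) (nat_lit 0) (.e (nat_lit 7695) (nat_lit 412) .nil)))))))) (.g (nat_lit 4) .nil .nil)))) (.nd (nat_lit 5) 
(.lf (nat_lit 152151) (.g (nat_lit 3614) (.e (nat_lit 57390) (nat_lit 5) (.e (nat_lit 114712) (nat_lit 21) (.e (nat_lit 57854) (nat_lit 252) (.e (nat_lit 57409) (nat_lit 12) (.e (nat_lit 336019) (nat_lit 3) (.e (nat_lit 98342) (nat_lit 20) (.e (nat_lit 229120) (nat_lit 1) (.e (nat_lit 57848) (nat_lit 252) .nil)))))))) (.g (nat_lit 5) .nil .nil))) 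
(.lf (nat_lit 152183) (.g (nat_lit 1891) (.e (nat_lit 57390) (nat_lit 5) (.e (nat_lit 114723) (nat_lit 24) (.e (nat_lit 106536) (nat_lit 11) (.e (nat_lit 16388) (nat_lit 0) (.e (nat_lit 7587) (nat_lit 406) .nil))))) .nil)))) (.nd (nat_lit 4) (.nd (nat_lit 5) 
(.lf (nat_lit 152143) (.g (nat_lit 695) (.e (nat_lit 57390) (nat_lit 5) (.e (nat_lit 114711) (nat_lit 21) (.e (nat_lit 57870) (nat_lit 264) .nil))) .nil)) 
(.lf (nat_lit 152175) (.g (nat_lit 1856) (.e (nat_lit 57390) (nat_lit 5) (.e (nat_lit 114722) (nat_lit 24) (.e (nat_lit 106536) (nat_lit 11) (.e (nat_lit 16387) (nat_lit 0) (.e (nat_lit 7587) (nat_lit 406) .nil))))) .nil))) (.nd (nat_lit 5) 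
(.lf (nat_lit 152159) (.g (nat_lit 1839) (.e (nat_lit 57390) (nat_lit 5) (.e (nat_lit 114719) (nat_lit 23) (.e (nat_lit 98317) (nat_lit 9) (.e (nat_lit 336076) (nat_lit 9) (.e (nat_lit 336326) (nat_lit 18) (.e (nat_lit 212736) (nat_lit 1) (.e (nat_lit 164399) (nat_lit 256) .nil))))))) (.g (nat_lit 4) .nil .nil))) 
(.lf (nat_lit 152191) (.g (nat_lit 1869) (.e (nat_lit 57395) (nat_lit 8) (.e (nat_lit 147466) (nat_lit 9) (.e (nat_lit 232) (nat_lit 21) (.e (nat_lit 336060) (nat_lit 7) (.e (nat_lit 319534) (nat_lit 16) .nil))))) .nil))))))))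

noncomputable def tv2030 : DT := (.nd (nat_lit 0) (.nd (nat_lit 1) (.nd (nat_lit 2) (.nd (nat_lit 3) (.nd (nat_lit 4) (.nd (nat_lit 5) (.nd (nat_lit 6) 
(.lf (nat_lit 152192) (.g (nat_lit 1968) (.e (nat_lit 57395) (nat_lit 8) (.e (nat_lit 147467) (nat_lit 9) (.e (nat_lit 232) (nat_lit 21) (.e (nat_lit 336060) (nat_lit 7) (.e (nat_lit 319534) (nat_lit 16) .nil))))) .nil)) 
(.lf (nat_lit 152256) (.g (nat_lit 1662) (.e (nat_lit 57399) (nat_lit 10) (.e (nat_lit 319530) (nat_lit 16) (.e (nat_lit 286761) (nat_lit 13) (.e (nat_lit 393289) (nat_lit 25) (.e (nat_lit 458776) (nat_lit 18) .nil))))) .nil))) (.nd (nat_lit 6) 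
(.lf (nat_lit 152224) (.g (nat_lit 390) (.e (nat_lit 57399) (nat_lit 10) (.e (nat_lit 319530) (nat_lit 16) (.e (nat_lit 286761) (nat_lit 13) .nil))) .nil)) 
(.lf (nat_lit 152288) (.g (nat_lit 2007) (.e (nat_lit 57399) (nat_lit 10) (.e (nat_lit 319531) (nat_lit 16) (.e (nat_lit 286761) (nat_lit 13) (.e (nat_lit 393275) (nat_lit 23) (.e (nat_lit 426103) (nat_lit 1) .nil))))) .nil)))) (.nd (nat_lit 5) (.nd (nat_lit 6) 
(.lf (nat_lit 152208) (.g (nat_lit 382) (.e (nat_lit 57399) (nat_lit 10) (.e (nat_lit 319529) (nat_lit 16) (.e (nat_lit 286761) (nat_lit 13) .nil))) .nil)) 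
(.lf (nat_lit 152272) (.g (nat_lit 2694) (.e (nat_lit 57399) (nat_lit 10) (.e (nat_lit 319531) (nat_lit 16) (.e (nat_lit 286761) (nat_lit 13) (.e (nat_lit 393234) (nat_lit 17) (.e (nat_lit 7065) (nat_lit 377) (.e (nat_lit 1115) (nat_lit 82) (.e (nat_lit 8444) (nat_lit 140) .nil))))))) (.g (nat_lit 5) .nil .nil)))) (.nd (nat_lit 6) 
(.lf (nat_lit 152240) (.g (nat_lit 1937) (.e (nat_lit 57399) (nat_lit 10) (.e (nat_lit 319530) (nat_lit 16) (.e (nat_lit 286761) (nat_lit 13) (.e (nat_lit 393270) (nat_lit 23) (.e (nat_lit 426112) (nat_lit 1) .nil))))) .nil)) 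
(.lf (nat_lit 152304) (.g (nat_lit 669) (.e (nat_lit 57399) (nat_lit 10) (.e (nat_lit 319533) (nat_lit 16) (.e (nat_lit 286743) (nat_lit 9) .nil))) .nil))))) (.nd (nat_lit 4) (.nd (nat_lit 5) (.nd (nat_lit 6) 
(.lf (nat_lit 152200) (.g (nat_lit 3342) (.e (nat_lit 57395) (nat_lit 8) (.e (nat_lit 147496) (nat_lit 11) (.e (nat_lit 24617) (nat_lit 7) (.e (nat_lit 319533) (nat_lit 16) (.e (nat_lit 286754) (nat_lit 10) .nil))))) .nil)) 
(.lf (nat_lit 152264) (.g (nat_lit 2450) (.e (nat_lit 57399) (nat_lit 10) (.e (nat_lit 319531) (nat_lit 16) (.e (nat_lit 286748) (nat_lit 9) (.e (nat_lit 336389) (nat_lit 27) (.e (nat_lit 426263) (nat_lit 9) (.e (nat_lit 426100) (nat_lit 1) (.e (nat_lit 164399) (nat_lit 256) .nil))))))) (.g (nat_lit 4) .nil .nil)))) (.nd (nat_lit 6) 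
(.lf (nat_lit 152232) (.g (nat_lit 1162) (.e (nat_lit 57399) (nat_lit 10) (.e (nat_lit 319530) (nat_lit 16) (.e (nat_lit 286761) (nat_lit 13) (.e (nat_lit 393264) (nat_lit 22) .nil)))) .nil)) 
(.lf (nat_lit 152296) (.g (nat_lit 1785) (.e (nat_lit 57399) (nat_lit 10) (.e (nat_lit 319531) (nat_lit 16) (.e (nat_lit 286761) (nat_lit 13) (.e (nat_lit 393286) (nat_lit 25) .nil)))) .nil)))) (.nd (nat_lit 5) (.nd (nat_lit 6) 
(.lf (nat_lit 152216) (.g (nat_lit 2103) (.e (nat_lit 57399) (nat_lit 10) (.e (nat_lit 319530) (nat_lit 16) (.e (nat_lit 286743) (nat_lit 9) (.e (nat_lit 336432) (nat_lit 30) (.e (nat_lit 450569) (nat_lit 0) (.e (nat_lit 5949) (nat_lit 322) .nil)))))) (.g (nat_lit 0) .nil .nil))) 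
(.lf (nat_lit 152280) (.g (nat_lit 2267) (.e (nat_lit 57399) (nat_lit 10) (.e (nat_lit 319531) (nat_lit 16) (.e (nat_lit 286761) (nat_lit 13) (.e (nat_lit 393265) (nat_lit 22) (.e (nat_lit 417792) (nat_lit 0) (.e (nat_lit 67) (nat_lit 0) (.e (nat_lit 5949) (nat_lit 322) .nil))))))) (.g (nat_lit 4) .nil .nil)))) (.nd (nat_lit 6) 
(.lf (nat_lit 152248) (.g (nat_lit 1501) (.e (nat_lit 57399) (nat_lit 10) (.e (nat_lit 319530) (nat_lit 16) (.e (nat_lit 286761) (nat_lit 13) (.e (nat_lit 393282) (nat_lit 24) .nil)))) .nil)) 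
(.lf (nat_lit 152312) (.g (nat_lit 1743) (.e (nat_lit 57399) (nat_lit 10) (.e (nat_lit 319533) (nat_lit 16) (.e (nat_lit 286761) (nat_lit 13) (.e (nat_lit 393281) (nat_lit 23) .nil)))) .nil)))))) (.nd (nat_lit 3) (.nd (nat_lit 4) (.nd (nat_lit 5) (.nd (nat_lit 6) 
(.lf (nat_lit 152196) (.g (nat_lit 1514) (.e (nat_lit 57395) (nat_lit 8) (.e (nat_lit 147495) (nat_lit 11) (.e (nat_lit 24617) (nat_lit 7) (.e (nat_lit 319534) (nat_lit 16) .nil)))) .nil)) 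
(.lf (nat_lit 152260) (.g (nat_lit 1143) (.e (nat_lit 57399) (nat_lit 10) (.e (nat_lit 319531) (nat_lit 16) (.e (nat_lit 286743) (nat_lit 9) (.e (nat_lit 336433) (nat_lit 30) .nil)))) .nil))) (.nd (nat_lit 6) 
(.lf (nat_lit 152228) (.g (nat_lit 2885) (.e (nat_lit 57399) (nat_lit 10) (.e (nat_lit 319530) (nat_lit 16) (.e (nat_lit 286761) (nat_lit 13) (.e (nat_lit 393234) (nat_lit 17) (.e (nat_lit 7065) (nat_lit 377) (.e (nat_lit 1115) (nat_lit 82) (.e (nat_lit 8444) (nat_lit 140) .nil))))))) (.g (nat_lit 7) .nil .nil))) 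
(.lf (nat_lit 152292) (.g (nat_lit 2240) (.e (nat_lit 57399) (nat_lit 10) (.e (nat_lit 319531) (nat_lit 16) (.e (nat_lit 286761) (nat_lit 13) (.e (nat_lit 393281) (nat_lit 23) (.e (nat_lit 426099) (nat_lit 1) (.e (nat_lit 164398) (nat_lit 256) .nil)))))) (.g (nat_lit 4) .nil .nil))))) (.nd (nat_lit 5) (.nd (nat_lit 6) 
(.lf (nat_lit 152212) (.g (nat_lit 1438) (.e (nat_lit 57399) (nat_lit 10) (.e (nat_lit 319529) (nat_lit 16) (.e (nat_lit 286761) (nat_lit 13) (.e (nat_lit 393289) (nat_lit 25) (.e (nat_lit 458774) (nat_lit 18) .nil))))) .nil)) 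
(.lf (nat_lit 152276) (.g (nat_lit 1408) (.e (nat_lit 57399) (nat_lit 10) (.e (nat_lit 319531) (nat_lit 16) (.e (nat_lit 286761) (nat_lit 13) (.e (nat_lit 393264) (nat_lit 22) .nil)))) .nil))) (.nd (nat_lit 6) 
(.lf (nat_lit 152244) (.g (nat_lit 1714) (.e (nat_lit 57399) (nat_lit 10) (.e (nat_lit 319530) (nat_lit 16) (.e (nat_lit 286761) (nat_lit 13) (.e (nat_lit 393277) (nat_lit 23) .nil)))) .nil)) 
(.lf (nat_lit 152308) (.g (nat_lit 651) (.e (nat_lit 57399) (nat_lit 10) (.e (nat_lit 319533) (nat_lit 16) (.e (nat_lit 286761) (nat_lit 13) .nil))) .nil))))) (.nd (nat_lit 4) (.nd (nat_lit 5) (.nd (nat_lit 6) 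
(.lf (nat_lit 152204) (.g (nat_lit 2742) (.e (nat_lit 57396) (nat_lit 8) (.e (nat_lit 147496) (nat_lit 11) (.e (nat_lit 24617) (nat_lit 7) (.e (nat_lit 319534) (nat_lit 16) (.e (nat_lit 286756) (nat_lit 10) .nil))))) .nil)) 
(.lf (nat_lit 152268) (.g (nat_lit 2724) (.e (nat_lit 57399) (nat_lit 10) (.e (nat_lit 319531) (nat_lit 16) (.e (nat_lit 286761) (nat_lit 13) (.e (nat_lit 393234) (nat_lit 17) (.e (nat_lit 7065) (nat_lit 377) (.e (nat_lit 1014) (nat_lit 81) (.e (nat_lit 52) (nat_lit 0) (.e (nat_lit 5949) (nat_lit 322) .nil)))))))) (.g (nat_lit 5) .nil .nil)))) (.nd (nat_lit 6) 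
(.lf (nat_lit 152236) (.g (nat_lit 2185) (.e (nat_lit 57399) (nat_lit 10) (.e (nat_lit 319530) (nat_lit 16) (.e (nat_lit 286761) (nat_lit 13) (.e (nat_lit 393265) (nat_lit 22) (.e (nat_lit 417804) (nat_lit 1) (.e (nat_lit 8446) (nat_lit 140) .nil)))))) (.g (nat_lit 0) .nil .nil))) 
(.lf (nat_lit 152300) (.g (nat_lit 2193) (.e (nat_lit 57399) (nat_lit 10) (.e (nat_lit 319531) (nat_lit 16) (.e (nat_lit 286761) (nat_lit 13) (.e (nat_lit 393289) (nat_lit 25) (.e (nat_lit 458774) (nat_lit 18) (.e (nat_lit 5939) (nat_lit 322) .nil)))))) (.g (nat_lit 5) .nil .nil))))) (.nd (nat_lit 5) (.nd (nat_lit 6) 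
(.lf (nat_lit 152220) (.g (nat_lit 1282) (.e (nat_lit 57399) (nat_lit 10) (.e (nat_lit 319530) (nat_lit 16) (.e (nat_lit 286743) (nat_lit 9) (.e (nat_lit 336434) (nat_lit 30) .nil)))) .nil)) 
(.lf (nat_lit 152284) (.g (nat_lit 1349) (.e (nat_lit 57399) (nat_lit 10) (.e (nat_lit 319531) (nat_lit 16) (.e (nat_lit 286761) (nat_lit 13) (.e (nat_lit 393270) (nat_lit 23) .nil)))) .nil))) (.nd (nat_lit 6) 
(.lf (nat_lit 152252) (.g (nat_lit 2797) (.e (nat_lit 57399) (nat_lit 10) (.e (nat_lit 319530) (nat_lit 16) (.e (nat_lit 286761) (nat_lit 13) (.e (nat_lit 393288) (nat_lit 25) (.e (nat_lit 458774) (nat_lit 18) (.e (nat_lit 5939) (nat_lit 322) .nil)))))) (.g (nat_lit 0) .nil .nil))) 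
(.lf (nat_lit 152316) (.g (nat_lit 1012) (.e (nat_lit 57399) (nat_lit 10) (.e (nat_lit 319534) (nat_lit 16) (.e (nat_lit 286742) (nat_lit 9) .nil))) .nil))))))) (.nd (nat_lit 2) (.nd (nat_lit 3) (.nd (nat_lit 4) (.nd (nat_lit 5) (.nd (nat_lit 6) 
(.lf (nat_lit 152194) (.g (nat_lit 2372) (.e (nat_lit 57395) (nat_lit 8) (.e (nat_lit 147495) (nat_lit 11) (.e (nat_lit 24617) (nat_lit 7) (.e (nat_lit 319533) (nat_lit 16) (.e (nat_lit 286753) (nat_lit 10) .nil))))) .nil)) 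
(.lf (nat_lit 152258) (.g (nat_lit 508) (.e (nat_lit 57399) (nat_lit 10) (.e (nat_lit 319531) (nat_lit 16) (.e (nat_lit 286743) (nat_lit 9) .nil))) .nil))) (.nd (nat_lit 6) 
(.lf (nat_lit 152226) (.g (nat_lit 2446) (.e (nat_lit 57399) (nat_lit 10) (.e (nat_lit 319530) (nat_lit 16) (.e (nat_lit 286761) (nat_lit 13) (.e (nat_lit 393234) (nat_lit 17) (.e (nat_lit 7065) (nat_lit 377) (.e (nat_lit 1023) (nat_lit 81) (.e (nat_lit 65) (nat_lit 0) (.e (nat_lit 5948) (nat_lit 322) .nil)))))))) (.g (nat_lit 5) .nil .nil))) 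
(.lf (nat_lit 152290) (.g (nat_lit 1830) (.e (nat_lit 57399) (nat_lit 10) (.e (nat_lit 319531) (nat_lit 16) (.e (nat_lit 286761) (nat_lit 13) (.e (nat_lit 393280) (nat_lit 23) .nil)))) .nil)))) (.nd (nat_lit 5) (.nd (nat_lit 6) 
(.lf (nat_lit 152210) (.g (nat_lit 1449) (.e (nat_lit 57399) (nat_lit 10) (.e (nat_lit 319529) (nat_lit 16) (.e (nat_lit 286761) (nat_lit 13) (.e (nat_lit 393270) (nat_lit 23) .nil)))) .nil)) 
(.lf (nat_lit 152274) (.g (nat_lit 2805) (.e (nat_lit 57399) (nat_lit 10) (.e (nat_lit 319531) (nat_lit 16) (.e (nat_lit 286761) (nat_lit 13) (.e (nat_lit 393234) (nat_lit 17) (.e (nat_lit 7345) (nat_lit 388) .nil))))) .nil))) (.nd (nat_lit 6) 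
(.lf (nat_lit 152242) (.g (nat_lit 1430) (.e (nat_lit 57399) (nat_lit 10) (.e (nat_lit 319530) (nat_lit 16) (.e (nat_lit 286761) (nat_lit 13) (.e (nat_lit 393275) (nat_lit 23) .nil)))) .nil)) 
(.lf (nat_lit 152306) (.g (nat_lit 819) (.e (nat_lit 57399) (nat_lit 10) (.e (nat_lit 319533) (nat_lit 16) (.e (nat_lit 286760) (nat_lit 13) .nil))) .nil))))) (.nd (nat_lit 4) (.nd (nat_lit 5) (.nd (nat_lit 6) 
(.lf (nat_lit 152202) (.g (nat_lit 1968) (.e (nat_lit 57396) (nat_lit 8) (.e (nat_lit 147467) (nat_lit 9) (.e (nat_lit 232) (nat_lit 21) (.e (nat_lit 336060) (nat_lit 7) (.e (nat_lit 319534) (nat_lit 16) .nil))))) .nil)) 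
(.lf (nat_lit 152266) (.g (nat_lit 894) (.e (nat_lit 57399) (nat_lit 10) (.e (nat_lit 319531) (nat_lit 16) (.e (nat_lit 286761) (nat_lit 13) (.e (nat_lit 393234) (nat_lit 17) .nil)))) .nil))) (.nd (nat_lit 6) 
(.lf (nat_lit 152234) (.g (nat_lit 1659) (.e (nat_lit 57399) (nat_lit 10) (.e (nat_lit 319530) (nat_lit 16) (.e (nat_lit 286761) (nat_lit 13) (.e (nat_lit 393265) (nat_lit 22) (.e (nat_lit 417804) (nat_lit 1) (.e (nat_lit 8444) (nat_lit 140) .nil)))))) (.g (nat_lit 4) .nil .nil))) 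
(.lf (nat_lit 152298) (.g (nat_lit 1338) (.e (nat_lit 57399) (nat_lit 10) (.e (nat_lit 319531) (nat_lit 16) (.e (nat_lit 286761) (nat_lit 13) (.e (nat_lit 393289) (nat_lit 25) .nil)))) .nil)))) (.nd (nat_lit 5) (.nd (nat_lit 6) 
(.lf (nat_lit 152218) (.g (nat_lit 1366) (.e (nat_lit 57399) (nat_lit 10) (.e (nat_lit 319530) (nat_lit 16) (.e (nat_lit 286743) (nat_lit 9) (.e (nat_lit 336433) (nat_lit 30) (.e (nat_lit 450563) (nat_lit 0) (.e (nat_lit 5945) (nat_lit 322) .nil)))))) (.g (nat_lit 4) .nil .nil))) 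
(.lf (nat_lit 152282) (.g (nat_lit 2048) (.e (nat_lit 57399) (nat_lit 10) (.e (nat_lit 319531) (nat_lit 16) (.e (nat_lit 286761) (nat_lit 13) (.e (nat_lit 393265) (nat_lit 22) (.e (nat_lit 417804) (nat_lit 1) .nil))))) .nil))) (.nd (nat_lit 6) 
(.lf (nat_lit 152250) (.g (nat_lit 1491) (.e (nat_lit 57399) (nat_lit 10) (.e (nat_lit 319530) (nat_lit 16) (.e (nat_lit 286761) (nat_lit 13) (.e (nat_lit 393284) (nat_lit 24) .nil)))) .nil)) 
(.lf (nat_lit 152314) (.g (nat_lit 1850) (.e (nat_lit 57399) (nat_lit 10) (.e (nat_lit 319533) (nat_lit 16) (.e (nat_lit 286761) (nat_lit 13) (.e (nat_lit 393288) (nat_lit 25) .nil)))) .nil)))))) (.nd (nat_lit 3) (.nd (nat_lit 4) (.nd (nat_lit 5) (.nd (nat_lit 6) 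
(.lf (nat_lit 152198) (.g (nat_lit 2029) (.e (nat_lit 57395) (nat_lit 8) (.e (nat_lit 147496) (nat_lit 11) (.e (nat_lit 24617) (nat_lit 7) (.e (nat_lit 319533) (nat_lit 16) .nil)))) .nil)) 
(.lf (nat_lit 152262) (.g (nat_lit 1333) (.e (nat_lit 57399) (nat_lit 10) (.e (nat_lit 319531) (nat_lit 16) (.e (nat_lit 286743) (nat_lit 9) (.e (nat_lit 336434) (nat_lit 30) .nil)))) .nil))) (.nd (nat_lit 6) 
(.lf (nat_lit 152230) (.g (nat_lit 2490) (.e (nat_lit 57399) (nat_lit 10) (.e (nat_lit 319530) (nat_lit 16) (.e (nat_lit 286761) (nat_lit 13) (.e (nat_lit 393234) (nat_lit 17) (.e (nat_lit 7065) (nat_lit 377) (.e (nat_lit 1116) (nat_lit 82) (.e (nat_lit 8443) (nat_lit 140) .nil))))))) (.g (nat_lit 5) .nil .nil))) 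
(.lf (nat_lit 152294) (.g (nat_lit 1599) (.e (nat_lit 57399) (nat_lit 10) (.e (nat_lit 319531) (nat_lit 16) (.e (nat_lit 286761) (nat_lit 13) (.e (nat_lit 393283) (nat_lit 24) .nil)))) .nil)))) (.nd (nat_lit 5) (.nd (nat_lit 6) 
(.lf (nat_lit 152214) (.g (nat_lit 452) (.e (nat_lit 57399) (nat_lit 10) (.e (nat_lit 319530) (nat_lit 16) (.e (nat_lit 286743) (nat_lit 9) .nil))) .nil)) 
(.lf (nat_lit 152278) (.g (nat_lit 1568) (.e (nat_lit 57399) (nat_lit 10) (.e (nat_lit 319531) (nat_lit 16) (.e (nat_lit 286761) (nat_lit 13) (.e (nat_lit 393264) (nat_lit 22) (.e (nat_lit 417795) (nat_lit 0) .nil))))) .nil))) (.nd (nat_lit 6) 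
(.lf (nat_lit 152246) (.g (nat_lit 1355) (.e (nat_lit 57399) (nat_lit 10) (.e (nat_lit 319530) (nat_lit 16) (.e (nat_lit 286761) (nat_lit 13) (.e (nat_lit 393281) (nat_lit 23) .nil)))) .nil)) 
(.lf (nat_lit 152310) (.g (nat_lit 1296) (.e (nat_lit 57399) (nat_lit 10) (.e (nat_lit 319533) (nat_lit 16) (.e (nat_lit 286761) (nat_lit 13) (.e (nat_lit 393265) (nat_lit 22) .nil)))) .nil))))) (.nd (nat_lit 4) (.nd (nat_lit 5) (.nd (nat_lit 6) 
(.lf (nat_lit 152206) (.g (nat_lit 1263) (.e (nat_lit 57399) (nat_lit 10) (.e (nat_lit 319529) (nat_lit 16) (.e (nat_lit 286743) (nat_lit 9) (.e (nat_lit 336432) (nat_lit 30) (.e (nat_lit 450569) (nat_lit 0) .nil))))) .nil)) 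
(.lf (nat_lit 152270) (.g (nat_lit 2743) (.e (nat_lit 57399) (nat_lit 10) (.e (nat_lit 319531) (nat_lit 16) (.e (nat_lit 286761) (nat_lit 13) (.e (nat_lit 393234) (nat_lit 17) (.e (nat_lit 7065) (nat_lit 377) (.e (nat_lit 1112) (nat_lit 82) (.e (nat_lit 8446) (nat_lit 140) .nil))))))) (.g (nat_lit 5) .nil .nil)))) (.nd (nat_lit 6) 
(.lf (nat_lit 152238) (.g (nat_lit 1313) (.e (nat_lit 57399) (nat_lit 10) (.e (nat_lit 319530) (nat_lit 16) (.e (nat_lit 286761) (nat_lit 13) (.e (nat_lit 393270) (nat_lit 23) .nil)))) .nil)) 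
(.lf (nat_lit 152302) (.g (nat_lit 1834) (.e (nat_lit 57399) (nat_lit 10) (.e (nat_lit 319531) (nat_lit 16) (.e (nat_lit 286761) (nat_lit 13) (.e (nat_lit 393289) (nat_lit 25) (.e (nat_lit 466688) (nat_lit 18) .nil))))) .nil)))) (.nd (nat_lit 5) (.nd (nat_lit 6) 
(.lf (nat_lit 152222) (.g (nat_lit 2362) (.e (nat_lit 57399) (nat_lit 10) (.e (nat_lit 319530) (nat_lit 16) (.e (nat_lit 286748) (nat_lit 9) (.e (nat_lit 336389) (nat_lit 27) (.e (nat_lit 426263) (nat_lit 9) (.e (nat_lit 426100) (nat_lit 1) (.e (nat_lit 164398) (nat_lit 256) .nil))))))) (.g (nat_lit 4) .nil .nil))) 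
(.lf (nat_lit 152286) (.g (nat_lit 1933) (.e (nat_lit 57399) (nat_lit 10) (.e (nat_lit 319531) (nat_lit 16) (.e (nat_lit 286761) (nat_lit 13) (.e (nat_lit 393270) (nat_lit 23) (.e (nat_lit 433920) (nat_lit 1) .nil))))) .nil))) (.nd (nat_lit 6) 
(.lf (nat_lit 152254) (.g (nat_lit 1709) (.e (nat_lit 57399) (nat_lit 10) (.e (nat_lit 319530) (nat_lit 16) (.e (nat_lit 286761) (nat_lit 13) (.e (nat_lit 393289) (nat_lit 25) (.e (nat_lit 458771) (nat_lit 18) .nil))))) .nil)) 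
(.lf (nat_lit 152318) (.g (nat_lit 1831) (.e (nat_lit 57399) (nat_lit 10) (.e (nat_lit 319534) (nat_lit 16) (.e (nat_lit 286743) (nat_lit 9) (.e (nat_lit 336432) (nat_lit 30) (.e (nat_lit 450569) (nat_lit 0) .nil))))) .nil)))))))) (.nd (nat_lit 1) (.nd (nat_lit 2) (.nd (nat_lit 3) (.nd (nat_lit 4) (.nd (nat_lit 5) (.nd (nat_lit 6) 
(.lf (nat_lit 152193) (.g (nat_lit 754) (.e (nat_lit 57395) (nat_lit 8) (.e (nat_lit 147495) (nat_lit 11) (.e (nat_lit 24616) (nat_lit 7) .nil))) .nil)) 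
(.lf (nat_lit 152257) (.g (nat_lit 3693) (.e (nat_lit 57399) (nat_lit 10) (.e (nat_lit 319531) (nat_lit 16) (.e (nat_lit 286735) (nat_lit 3) (.e (nat_lit 98373) (nat_lit 29) (.e (nat_lit 450562) (nat_lit 0) (.e (nat_lit 7936) (nat_lit 235) .nil)))))) (.g (nat_lit 5) .nil .nil)))) (.nd (nat_lit 6) 
(.lf (nat_lit 152225) (.g (nat_lit 1720) (.e (nat_lit 57399) (nat_lit 10) (.e (nat_lit 319530) (nat_lit 16) (.e (nat_lit 286761) (nat_lit 13) (.e (nat_lit 393234) (nat_lit 17) (.e (nat_lit 7065) (nat_lit 377) .nil))))) .nil)) 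
(.lf (nat_lit 152289) (.g (nat_lit 1830) (.e (nat_lit 57399) (nat_lit 10) (.e (nat_lit 319531) (nat_lit 16) (.e (nat_lit 286761) (nat_lit 13) (.e (nat_lit 393277) (nat_lit 23) .nil)))) .nil)))) (.nd (nat_lit 5) (.nd (nat_lit 6) 
(.lf (nat_lit 152209) (.g (nat_lit 988) (.e (nat_lit 57399) (nat_lit 10) (.e (nat_lit 319529) (nat_lit 16) (.e (nat_lit 286761) (nat_lit 13) (.e (nat_lit 393265) (nat_lit 22) .nil)))) .nil)) 
(.lf (nat_lit 152273) (.g (nat_lit 2034) (.e (nat_lit 57399) (nat_lit 10) (.e (nat_lit 319531) (nat_lit 16) (.e (nat_lit 286761) (nat_lit 13) (.e (nat_lit 393234) (nat_lit 17) (.e (nat_lit 7065) (nat_lit 377) (.e (nat_lit 1116) (nat_lit 82) (.e (nat_lit 8445) (nat_lit 140) .nil))))))) (.g (nat_lit 4) .nil .nil)))) (.nd (nat_lit 6) 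
(.lf (nat_lit 152241) (.g (nat_lit 1870) (.e (nat_lit 57399) (nat_lit 10) (.e (nat_lit 319530) (nat_lit 16) (.e (nat_lit 286761) (nat_lit 13) (.e (nat_lit 393270) (nat_lit 23) (.e (nat_lit 433920) (nat_lit 1) .nil))))) .nil)) 
(.lf (nat_lit 152305) (.g (nat_lit 1291) (.e (nat_lit 57399) (nat_lit 10) (.e (nat_lit 319533) (nat_lit 16) (.e (nat_lit 286743) (nat_lit 9) (.e (nat_lit 336432) (nat_lit 30) .nil)))) .nil))))) (.nd (nat_lit 4) (.nd (nat_lit 5) (.nd (nat_lit 6) 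
(.lf (nat_lit 152201) (.g (nat_lit 2626) (.e (nat_lit 57395) (nat_lit 8) (.e (nat_lit 147496) (nat_lit 11) (.e (nat_lit 24617) (nat_lit 7) (.e (nat_lit 319534) (nat_lit 16) (.e (nat_lit 286756) (nat_lit 10) .nil))))) .nil)) 
(.lf (nat_lit 152265) (.g (nat_lit 438) (.e (nat_lit 57399) (nat_lit 10) (.e (nat_lit 319531) (nat_lit 16) (.e (nat_lit 286761) (nat_lit 13) .nil))) .nil))) (.nd (nat_lit 6) 
(.lf (nat_lit 152233) (.g (nat_lit 2077) (.e (nat_lit 57399) (nat_lit 10) (.e (nat_lit 319530) (nat_lit 16) (.e (nat_lit 286761) (nat_lit 13) (.e (nat_lit 393265) (nat_lit 22) (.e (nat_lit 417793) (nat_lit 0) .nil))))) .nil)) 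
(.lf (nat_lit 152297) (.g (nat_lit 2003) (.e (nat_lit 57399) (nat_lit 10) (.e (nat_lit 319531) (nat_lit 16) (.e (nat_lit 286761) (nat_lit 13) (.e (nat_lit 393288) (nat_lit 25) (.e (nat_lit 458774) (nat_lit 18) .nil))))) .nil)))) (.nd (nat_lit 5) (.nd (nat_lit 6) 
(.lf (nat_lit 152217) (.g (nat_lit 1111) (.e (nat_lit 57399) (nat_lit 10) (.e (nat_lit 319530) (nat_lit 16) (.e (nat_lit 286743) (nat_lit 9) (.e (nat_lit 336433) (nat_lit 30) .nil)))) .nil)) 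
(.lf (nat_lit 152281) (.g (nat_lit 2326) (.e (nat_lit 57399) (nat_lit 10) (.e (nat_lit 319531) (nat_lit 16) (.e (nat_lit 286761) (nat_lit 13) (.e (nat_lit 393265) (nat_lit 22) (.e (nat_lit 417793) (nat_lit 0) .nil))))) .nil))) (.nd (nat_lit 6) 
(.lf (nat_lit 152249) (.g (nat_lit 2104) (.e (nat_lit 57399) (nat_lit 10) (.e (nat_lit 319530) (nat_lit 16) (.e (nat_lit 286761) (nat_lit 13) (.e (nat_lit 393283) (nat_lit 24) (.e (nat_lit 434208) (nat_lit 18) .nil))))) .nil)) 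
(.lf (nat_lit 152313) (.g (nat_lit 2316) (.e (nat_lit 57399) (nat_lit 10) (.e (nat_lit 319533) (nat_lit 16) (.e (nat_lit 286761) (nat_lit 13) (.e (nat_lit 393281) (nat_lit 23) (.e (nat_lit 426100) (nat_lit 1) .nil))))) .nil)))))) (.nd (nat_lit 3) (.nd (nat_lit 4) (.nd (nat_lit 5) (.nd (nat_lit 6) 
(.lf (nat_lit 152197) (.g (nat_lit 2372) (.e (nat_lit 57395) (nat_lit 8) (.e (nat_lit 147495) (nat_lit 11) (.e (nat_lit 24617) (nat_lit 7) (.e (nat_lit 319534) (nat_lit 16) (.e (nat_lit 286756) (nat_lit 10) .nil))))) .nil)) 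
(.lf (nat_lit 152261) (.g (nat_lit 1300) (.e (nat_lit 57399) (nat_lit 10) (.e (nat_lit 319531) (nat_lit 16) (.e (nat_lit 286743) (nat_lit 9) (.e (nat_lit 336433) (nat_lit 30) (.e (nat_lit 450569) (nat_lit 0) .nil))))) .nil))) (.nd (nat_lit 6) 
(.lf (nat_lit 152229) (.g (nat_lit 1802) (.e (nat_lit 57399) (nat_lit 10) (.e (nat_lit 319530) (nat_lit 16) (.e (nat_lit 286761) (nat_lit 13) (.e (nat_lit 393234) (nat_lit 17) (.e (nat_lit 7065) (nat_lit 377) (.e (nat_lit 1116) (nat_lit 82) (.e (nat_lit 8442) (nat_lit 140) .nil))))))) (.g (nat_lit 4) .nil .nil))) 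
(.lf (nat_lit 152293) (.g (nat_lit 3395) (.e (nat_lit 57399) (nat_lit 10) (.e (nat_lit 319531) (nat_lit 16) (.e (nat_lit 286761) (nat_lit 13) (.e (nat_lit 393281) (nat_lit 23) (.e (nat_lit 426100) (nat_lit 1) (.e (nat_lit 164398) (nat_lit 256) .nil)))))) (.g (nat_lit 0) .nil .nil))))) (.nd (nat_lit 5) (.nd (nat_lit 6) 
(.lf (nat_lit 152213) (.g (nat_lit 3086) (.e (nat_lit 57399) (nat_lit 10) (.e (nat_lit 319530) (nat_lit 16) (.e (nat_lit 286735) (nat_lit 3) (.e (nat_lit 98373) (nat_lit 29) (.e (nat_lit 450562) (nat_lit 0) (.e (nat_lit 7936) (nat_lit 235) .nil)))))) (.g (nat_lit 5) .nil .nil))) 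
(.lf (nat_lit 152277) (.g (nat_lit 1693) (.e (nat_lit 57399) (nat_lit 10) (.e (nat_lit 319531) (nat_lit 16) (.e (nat_lit 286761) (nat_lit 13) (.e (nat_lit 393264) (nat_lit 22) (.e (nat_lit 417792) (nat_lit 0) .nil))))) .nil))) (.nd (nat_lit 6) 
(.lf (nat_lit 152245) (.g (nat_lit 1714) (.e (nat_lit 57399) (nat_lit 10) (.e (nat_lit 319530) (nat_lit 16) (.e (nat_lit 286761) (nat_lit 13) (.e (nat_lit 393280) (nat_lit 23) .nil)))) .nil)) 
(.lf (nat_lit 152309) (.g (nat_lit 1716) (.e (nat_lit 57399) (nat_lit 10) (.e (nat_lit 319533) (nat_lit 16) (.e (nat_lit 286761) (nat_lit 13) (.e (nat_lit 393264) (nat_lit 22) .nil)))) .nil))))) (.nd (nat_lit 4) (.nd (nat_lit 5) (.nd (nat_lit 6) 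
(.lf (nat_lit 152205) (.g (nat_lit 996) (.e (nat_lit 57398) (nat_lit 9) (.e (nat_lit 155669) (nat_lit 11) (.e (nat_lit 16466) (nat_lit 13) (.e (nat_lit 483393) (nat_lit 23) .nil)))) .nil)) 
(.lf (nat_lit 152269) (.g (nat_lit 2726) (.e (nat_lit 57399) (nat_lit 10) (.e (nat_lit 319531) (nat_lit 16) (.e (nat_lit 286761) (nat_lit 13) (.e (nat_lit 393234) (nat_lit 17) (.e (nat_lit 7065) (nat_lit 377) (.e (nat_lit 1112) (nat_lit 82) (.e (nat_lit 8443) (nat_lit 140) .nil))))))) (.g (nat_lit 5) .nil .nil)))) (.nd (nat_lit 6) 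
(.lf (nat_lit 152237) (.g (nat_lit 1708) (.e (nat_lit 57399) (nat_lit 10) (.e (nat_lit 319530) (nat_lit 16) (.e (nat_lit 286761) (nat_lit 13) (.e (nat_lit 393267) (nat_lit 23) .nil)))) .nil)) 
(.lf (nat_lit 152301) (.g (nat_lit 1813) (.e (nat_lit 57399) (nat_lit 10) (.e (nat_lit 319531) (nat_lit 16) (.e (nat_lit 286761) (nat_lit 13) (.e (nat_lit 393289) (nat_lit 25) (.e (nat_lit 458776) (nat_lit 18) .nil))))) .nil)))) (.nd (nat_lit 5) (.nd (nat_lit 6) 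
(.lf (nat_lit 152221) (.g (nat_lit 2086) (.e (nat_lit 57399) (nat_lit 10) (.e (nat_lit 319530) (nat_lit 16) (.e (nat_lit 286743) (nat_lit 9) (.e (nat_lit 336444) (nat_lit 32) (.e (nat_lit 466971) (nat_lit 21) (.e (nat_lit 164401) (nat_lit 256) .nil)))))) (.g (nat_lit 5) .nil .nil))) 
(.lf (nat_lit 152285) (.g (nat_lit 1992) (.e (nat_lit 57399) (nat_lit 10) (.e (nat_lit 319531) (nat_lit 16) (.e (nat_lit 286761) (nat_lit 13) (.e (nat_lit 393270) (nat_lit 23) (.e (nat_lit 426112) (nat_lit 1) .nil))))) .nil))) (.nd (nat_lit 6) 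
(.lf (nat_lit 152253) (.g (nat_lit 1150) (.e (nat_lit 57399) (nat_lit 10) (.e (nat_lit 319530) (nat_lit 16) (.e (nat_lit 286761) (nat_lit 13) (.e (nat_lit 393289) (nat_lit 25) .nil)))) .nil)) 
(.lf (nat_lit 152317) (.g (nat_lit 700) (.e (nat_lit 57399) (nat_lit 10) (.e (nat_lit 319534) (nat_lit 16) (.e (nat_lit 286743) (nat_lit 9) .nil))) .nil))))))) (.nd (nat_lit 2) (.nd (nat_lit 3) (.nd (nat_lit 4) (.nd (nat_lit 5) (.nd (nat_lit 6) 
(.lf (nat_lit 152195) (.g (nat_lit 3092) (.e (nat_lit 57395) (nat_lit 8) (.e (nat_lit 147495) (nat_lit 11) (.e (nat_lit 24617) (nat_lit 7) (.e (nat_lit 319533) (nat_lit 16) (.e (nat_lit 286753) (nat_lit 10) (.e (nat_lit 344088) (nat_lit 18) (.e (nat_lit 5568) (nat_lit 308) .nil))))))) (.g (nat_lit 5) .nil .nil))) 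
(.lf (nat_lit 152259) (.g (nat_lit 1166) (.e (nat_lit 57399) (nat_lit 10) (.e (nat_lit 319531) (nat_lit 16) (.e (nat_lit 286743) (nat_lit 9) (.e (nat_lit 336432) (nat_lit 30) .nil)))) .nil))) (.nd (nat_lit 6) 
(.lf (nat_lit 152227) (.g (nat_lit 2581) (.e (nat_lit 57399) (nat_lit 10) (.e (nat_lit 319530) (nat_lit 16) (.e (nat_lit 286761) (nat_lit 13) (.e (nat_lit 393234) (nat_lit 17) (.e (nat_lit 7065) (nat_lit 377) (.e (nat_lit 1115) (nat_lit 82) (.e (nat_lit 8442) (nat_lit 140) .nil))))))) (.g (nat_lit 5) .nil .nil))) 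
(.lf (nat_lit 152291) (.g (nat_lit 2213) (.e (nat_lit 57399) (nat_lit 10) (.e (nat_lit 319531) (nat_lit 16) (.e (nat_lit 286761) (nat_lit 13) (.e (nat_lit 393281) (nat_lit 23) (.e (nat_lit 426099) (nat_lit 1) .nil))))) .nil)))) (.nd (nat_lit 5) (.nd (nat_lit 6) 
(.lf (nat_lit 152211) (.g (nat_lit 2019) (.e (nat_lit 57399) (nat_lit 10) (.e (nat_lit 319529) (nat_lit 16) (.e (nat_lit 286761) (nat_lit 13) (.e (nat_lit 393281) (nat_lit 23) (.e (nat_lit 426100) (nat_lit 1) .nil))))) .nil)) 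
(.lf (nat_lit 152275) (.g (nat_lit 2736) (.e (nat_lit 57399) (nat_lit 10) (.e (nat_lit 319531) (nat_lit 16) (.e (nat_lit 286761) (nat_lit 13) (.e (nat_lit 393234) (nat_lit 17) (.e (nat_lit 7355) (nat_lit 388) .nil))))) .nil))) (.nd (nat_lit 6) 
(.lf (nat_lit 152243) (.g (nat_lit 1767) (.e (nat_lit 57399) (nat_lit 10) (.e (nat_lit 319530) (nat_lit 16) (.e (nat_lit 286761) (nat_lit 13) (.e (nat_lit 393275) (nat_lit 23) (.e (nat_lit 426102) (nat_lit 1) .nil))))) .nil)) 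
(.lf (nat_lit 152307) (.g (nat_lit 1483) (.e (nat_lit 57399) (nat_lit 10) (.e (nat_lit 319533) (nat_lit 16) (.e (nat_lit 286760) (nat_lit 13) (.e (nat_lit 393281) (nat_lit 23) .nil)))) .nil))))) (.nd (nat_lit 4) (.nd (nat_lit 5) (.nd (nat_lit 6) 
(.lf (nat_lit 152203) (.g (nat_lit 3040) (.e (nat_lit 57396) (nat_lit 8) (.e (nat_lit 147496) (nat_lit 11) (.e (nat_lit 24617) (nat_lit 7) (.e (nat_lit 319533) (nat_lit 16) (.e (nat_lit 286753) (nat_lit 10) .nil))))) .nil)) 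
(.lf (nat_lit 152267) (.g (nat_lit 1968) (.e (nat_lit 57399) (nat_lit 10) (.e (nat_lit 319531) (nat_lit 16) (.e (nat_lit 286761) (nat_lit 13) (.e (nat_lit 393234) (nat_lit 17) (.e (nat_lit 7065) (nat_lit 377) .nil))))) .nil))) (.nd (nat_lit 6) 
(.lf (nat_lit 152235) (.g (nat_lit 1782) (.e (nat_lit 57399) (nat_lit 10) (.e (nat_lit 319530) (nat_lit 16) (.e (nat_lit 286761) (nat_lit 13) (.e (nat_lit 393265) (nat_lit 22) (.e (nat_lit 417804) (nat_lit 1) (.e (nat_lit 8445) (nat_lit 140) .nil)))))) (.g (nat_lit 4) .nil .nil))) 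
(.lf (nat_lit 152299) (.g (nat_lit 1753) (.e (nat_lit 57399) (nat_lit 10) (.e (nat_lit 319531) (nat_lit 16) (.e (nat_lit 286761) (nat_lit 13) (.e (nat_lit 393289) (nat_lit 25) (.e (nat_lit 458774) (nat_lit 18) .nil))))) .nil)))) (.nd (nat_lit 5) (.nd (nat_lit 6) 
(.lf (nat_lit 152219) (.g (nat_lit 1248) (.e (nat_lit 57399) (nat_lit 10) (.e (nat_lit 319530) (nat_lit 16) (.e (nat_lit 286743) (nat_lit 9) (.e (nat_lit 336433) (nat_lit 30) (.e (nat_lit 450569) (nat_lit 0) .nil))))) .nil)) 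
(.lf (nat_lit 152283) (.g (nat_lit 1824) (.e (nat_lit 57399) (nat_lit 10) (.e (nat_lit 319531) (nat_lit 16) (.e (nat_lit 286761) (nat_lit 13) (.e (nat_lit 393267) (nat_lit 23) .nil)))) .nil))) (.nd (nat_lit 6) 
(.lf (nat_lit 152251) (.g (nat_lit 1938) (.e (nat_lit 57399) (nat_lit 10) (.e (nat_lit 319530) (nat_lit 16) (.e (nat_lit 286761) (nat_lit 13) (.e (nat_lit 393286) (nat_lit 25) (.e (nat_lit 458774) (nat_lit 18) .nil))))) .nil)) 
(.lf (nat_lit 152315) (.g (nat_lit 1342) (.e (nat_lit 57399) (nat_lit 10) (.e (nat_lit 319533) (nat_lit 16) (.e (nat_lit 286761) (nat_lit 13) (.e (nat_lit 393289) (nat_lit 25) .nil)))) .nil)))))) (.nd (nat_lit 3) (.nd (nat_lit 4) (.nd (nat_lit 5) (.nd (nat_lit 6) 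
(.lf (nat_lit 152199) (.g (nat_lit 2962) (.e (nat_lit 57395) (nat_lit 8) (.e (nat_lit 147496) (nat_lit 11) (.e (nat_lit 24617) (nat_lit 7) (.e (nat_lit 319533) (nat_lit 16) (.e (nat_lit 286753) (nat_lit 10) .nil))))) .nil)) 
(.lf (nat_lit 152263) (.g (nat_lit 1161) (.e (nat_lit 57399) (nat_lit 10) (.e (nat_lit 319531) (nat_lit 16) (.e (nat_lit 286748) (nat_lit 9) (.e (nat_lit 336389) (nat_lit 27) .nil)))) .nil))) (.nd (nat_lit 6) 
(.lf (nat_lit 152231) (.g (nat_lit 2796) (.e (nat_lit 57399) (nat_lit 10) (.e (nat_lit 319530) (nat_lit 16) (.e (nat_lit 286761) (nat_lit 13) (.e (nat_lit 393234) (nat_lit 17) (.e (nat_lit 7345) (nat_lit 388) (.e (nat_lit 2608) (nat_lit 163) (.e (nat_lit 164403) (nat_lit 256) .nil))))))) (.g (nat_lit 4) .nil .nil))) 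
(.lf (nat_lit 152295) (.g (nat_lit 1625) (.e (nat_lit 57399) (nat_lit 10) (.e (nat_lit 319531) (nat_lit 16) (.e (nat_lit 286761) (nat_lit 13) (.e (nat_lit 393284) (nat_lit 24) .nil)))) .nil)))) (.nd (nat_lit 5) (.nd (nat_lit 6) 
(.lf (nat_lit 152215) (.g (nat_lit 1053) (.e (nat_lit 57399) (nat_lit 10) (.e (nat_lit 319530) (nat_lit 16) (.e (nat_lit 286743) (nat_lit 9) (.e (nat_lit 336432) (nat_lit 30) .nil)))) .nil)) 
(.lf (nat_lit 152279) (.g (nat_lit 2223) (.e (nat_lit 57399) (nat_lit 10) (.e (nat_lit 319531) (nat_lit 16) (.e (nat_lit 286761) (nat_lit 13) (.e (nat_lit 393265) (nat_lit 22) (.e (nat_lit 417792) (nat_lit 0) .nil))))) .nil))) (.nd (nat_lit 6) 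
(.lf (nat_lit 152247) (.g (nat_lit 1992) (.e (nat_lit 57399) (nat_lit 10) (.e (nat_lit 319530) (nat_lit 16) (.e (nat_lit 286761) (nat_lit 13) (.e (nat_lit 393281) (nat_lit 23) (.e (nat_lit 426099) (nat_lit 1) (.e (nat_lit 164398) (nat_lit 256) .nil)))))) (.g (nat_lit 4) .nil .nil))) 
(.lf (nat_lit 152311) (.g (nat_lit 1688) (.e (nat_lit 57399) (nat_lit 10) (.e (nat_lit 319533) (nat_lit 16) (.e (nat_lit 286761) (nat_lit 13) (.e (nat_lit 393270) (nat_lit 23) .nil)))) .nil))))) (.nd (nat_lit 4) (.nd (nat_lit 5) (.nd (nat_lit 6) 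
(.lf (nat_lit 152207) (.g (nat_lit 995) (.e (nat_lit 57399) (nat_lit 10) (.e (nat_lit 319529) (nat_lit 16) (.e (nat_lit 286743) (nat_lit 9) (.e (nat_lit 336444) (nat_lit 32) .nil)))) .nil)) 
(.lf (nat_lit 152271) (.g (nat_lit 2777) (.e (nat_lit 57399) (nat_lit 10) (.e (nat_lit 319531) (nat_lit 16) (.e (nat_lit 286761) (nat_lit 13) (.e (nat_lit 393234) (nat_lit 17) (.e (nat_lit 7065) (nat_lit 377) (.e (nat_lit 1115) (nat_lit 82) (.e (nat_lit 8443) (nat_lit 140) .nil))))))) (.g (nat_lit 5) .nil .nil)))) (.nd (nat_lit 6) 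
(.lf (nat_lit 152239) (.g (nat_lit 1809) (.e (nat_lit 57399) (nat_lit 10) (.e (nat_lit 319530) (nat_lit 16) (.e (nat_lit 286761) (nat_lit 13) (.e (nat_lit 393270) (nat_lit 23) (.e (nat_lit 426111) (nat_lit 1) .nil))))) .nil)) 
(.lf (nat_lit 152303) (.g (nat_lit 873) (.e (nat_lit 57399) (nat_lit 10) (.e (nat_lit 319533) (nat_lit 16) (.e (nat_lit 286742) (nat_lit 9) .nil))) .nil)))) (.nd (nat_lit 5) (.nd (nat_lit 6) 
(.lf (nat_lit 152223) (.g (nat_lit 2183) (.e (nat_lit 57399) (nat_lit 10) (.e (nat_lit 319530) (nat_lit 16) (.e (nat_lit 286748) (nat_lit 9) (.e (nat_lit 336389) (nat_lit 27) (.e (nat_lit 426265) (nat_lit 9) (.e (nat_lit 426100) (nat_lit 1) (.e (nat_lit 164399) (nat_lit 256) .nil))))))) (.g (nat_lit 5) .nil .nil))) 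
(.lf (nat_lit 152287) (.g (nat_lit 1665) (.e (nat_lit 57399) (nat_lit 10) (.e (nat_lit 319531) (nat_lit 16) (.e (nat_lit 286761) (nat_lit 13) (.e (nat_lit 393275) (nat_lit 23) .nil)))) .nil))) (.nd (nat_lit 6) 
(.lf (nat_lit 152255) (.g (nat_lit 2451) (.e (nat_lit 57399) (nat_lit 10) (.e (nat_lit 319530) (nat_lit 16) (.e (nat_lit 286761) (nat_lit 13) (.e (nat_lit 393289) (nat_lit 25) (.e (nat_lit 458774) (nat_lit 18) (.e (nat_lit 5939) (nat_lit 322) .nil)))))) (.g (nat_lit 0) .nil .nil))) 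
(.lf (nat_lit 152319) (.g (nat_lit 1497) (.e (nat_lit 57399) (nat_lit 10) (.e (nat_lit 319534) (nat_lit 16) (.e (nat_lit 286743) (nat_lit 9) (.e (nat_lit 336433) (nat_lit 30) .nil)))) .nil)))))))))

noncomputable def tv2031 : DT := (.nd (nat_lit 0) (.nd (nat_lit 1) (.nd (nat_lit 2) (.nd (nat_lit 3) (.nd (nat_lit 4) (.nd (nat_lit 5) (.nd (nat_lit 6) 
(.lf (nat_lit 152320) (.g (nat_lit 1539) (.e (nat_lit 57399) (nat_lit 10) (.e (nat_lit 319534) (nat_lit 16) (.e (nat_lit 286743) (nat_lit 9) (.e (nat_lit 336434) (nat_lit 30) .nil)))) .nil)) 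
(.lf (nat_lit 152384) (.g (nat_lit 1864) (.e (nat_lit 57400) (nat_lit 10) (.e (nat_lit 319528) (nat_lit 16) (.e (nat_lit 286761) (nat_lit 13) (.e (nat_lit 393266) (nat_lit 23) (.e (nat_lit 426109) (nat_lit 1) .nil))))) .nil))) (.nd (nat_lit 6) 
(.lf (nat_lit 152352) (.g (nat_lit 1793) (.e (nat_lit 57400) (nat_lit 10) (.e (nat_lit 319490) (nat_lit 0) (.e (nat_lit 5664) (nat_lit 312) (.e (nat_lit 2852) (nat_lit 184) (.e (nat_lit 426542) (nat_lit 29) .nil))))) .nil)) 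
(.lf (nat_lit 152416) (.g (nat_lit 360) (.e (nat_lit 57400) (nat_lit 10) (.e (nat_lit 319529) (nat_lit 16) (.e (nat_lit 286761) (nat_lit 13) .nil))) .nil)))) (.nd (nat_lit 5) (.nd (nat_lit 6) 
(.lf (nat_lit 152336) (.g (nat_lit 1702) (.e (nat_lit 57399) (nat_lit 10) (.e (nat_lit 319534) (nat_lit 16) (.e (nat_lit 286761) (nat_lit 13) (.e (nat_lit 393281) (nat_lit 23) .nil)))) .nil)) 
(.lf (nat_lit 152400) (.g (nat_lit 1925) (.e (nat_lit 57400) (nat_lit 10) (.e (nat_lit 319528) (nat_lit 16) (.e (nat_lit 286761) (nat_lit 13) (.e (nat_lit 393283) (nat_lit 24) (.e (nat_lit 434204) (nat_lit 18) .nil))))) .nil))) (.nd (nat_lit 6) 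
(.lf (nat_lit 152368) (.g (nat_lit 167) (.e (nat_lit 57400) (nat_lit 10) (.e (nat_lit 319528) (nat_lit 16) (.e (nat_lit 286743) (nat_lit 9) .nil))) .nil)) 
(.lf (nat_lit 152432) (.g (nat_lit 3449) (.e (nat_lit 57400) (nat_lit 10) (.e (nat_lit 319530) (nat_lit 16) (.e (nat_lit 286743) (nat_lit 9) (.e (nat_lit 336443) (nat_lit 32) (.e (nat_lit 466972) (nat_lit 21) (.e (nat_lit 164402) (nat_lit 256) .nil)))))) (.g (nat_lit 6) .nil .nil)))))) (.nd (nat_lit 4) (.nd (nat_lit 5) (.nd (nat_lit 6) 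
(.lf (nat_lit 152328) (.g (nat_lit 1714) (.e (nat_lit 57399) (nat_lit 10) (.e (nat_lit 319534) (nat_lit 16) (.e (nat_lit 286761) (nat_lit 13) (.e (nat_lit 393264) (nat_lit 22) .nil)))) .nil)) 
(.lf (nat_lit 152392) (.g (nat_lit 1436) (.e (nat_lit 57400) (nat_lit 10) (.e (nat_lit 319528) (nat_lit 16) (.e (nat_lit 286761) (nat_lit 13) (.e (nat_lit 393275) (nat_lit 23) .nil)))) .nil))) (.nd (nat_lit 6) 
(.lf (nat_lit 152360) (.g (nat_lit 1793) (.e (nat_lit 57400) (nat_lit 10) (.e (nat_lit 319490) (nat_lit 0) (.e (nat_lit 5664) (nat_lit 312) (.e (nat_lit 3085) (nat_lit 191) (.e (nat_lit 483401) (nat_lit 25) .nil))))) .nil)) 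
(.lf (nat_lit 152424) (.g (nat_lit 1385) (.e (nat_lit 57400) (nat_lit 10) (.e (nat_lit 319529) (nat_lit 16) (.e (nat_lit 286761) (nat_lit 13) (.e (nat_lit 393288) (nat_lit 25) .nil)))) .nil)))) (.nd (nat_lit 5) (.nd (nat_lit 6) 
(.lf (nat_lit 152344) (.g (nat_lit 2322) (.e (nat_lit 57400) (nat_lit 10) (.e (nat_lit 319490) (nat_lit 0) (.e (nat_lit 5270) (nat_lit 298) (.e (nat_lit 1183) (nat_lit 87) .nil)))) .nil)) 
(.lf (nat_lit 152408) (.g (nat_lit 1816) (.e (nat_lit 57400) (nat_lit 10) (.e (nat_lit 319528) (nat_lit 16) (.e (nat_lit 286761) (nat_lit 13) (.e (nat_lit 393289) (nat_lit 25) (.e (nat_lit 458773) (nat_lit 18) (.e (nat_lit 5946) (nat_lit 322) .nil)))))) (.g (nat_lit 4) .nil .nil)))) (.nd (nat_lit 6) 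
(.lf (nat_lit 152376) (.g (nat_lit 2297) (.e (nat_lit 57400) (nat_lit 10) (.e (nat_lit 319528) (nat_lit 16) (.e (nat_lit 286761) (nat_lit 13) (.e (nat_lit 393234) (nat_lit 17) (.e (nat_lit 7065) (nat_lit 377) (.e (nat_lit 1023) (nat_lit 81) (.e (nat_lit 65) (nat_lit 0) (.e (nat_lit 5946) (nat_lit 322) .nil)))))))) (.g (nat_lit 5) .nil .nil))) 
(.lf (nat_lit 152440) (.g (nat_lit 330) (.e (nat_lit 57400) (nat_lit 10) (.e (nat_lit 319530) (nat_lit 16) (.e (nat_lit 286761) (nat_lit 13) .nil))) .nil)))))) (.nd (nat_lit 3) (.nd (nat_lit 4) (.nd (nat_lit 5) (.nd (nat_lit 6) 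
(.lf (nat_lit 152324) (.g (nat_lit 811) (.e (nat_lit 57399) (nat_lit 10) (.e (nat_lit 319534) (nat_lit 16) (.e (nat_lit 286749) (nat_lit 9) .nil))) .nil)) 
(.lf (nat_lit 152388) (.g (nat_lit 2083) (.e (nat_lit 57400) (nat_lit 10) (.e (nat_lit 319528) (nat_lit 16) (.e (nat_lit 286761) (nat_lit 13) (.e (nat_lit 393270) (nat_lit 23) (.e (nat_lit 426111) (nat_lit 1) (.e (nat_lit 164402) (nat_lit 256) .nil)))))) (.g (nat_lit 4) .nil .nil)))) (.nd (nat_lit 6) 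
(.lf (nat_lit 152356) (.g (nat_lit 2228) (.e (nat_lit 57400) (nat_lit 10) (.e (nat_lit 319490) (nat_lit 0) (.e (nat_lit 5664) (nat_lit 312) (.e (nat_lit 3085) (nat_lit 191) (.e (nat_lit 483379) (nat_lit 23) .nil))))) .nil)) 
(.lf (nat_lit 152420) (.g (nat_lit 1335) (.e (nat_lit 57400) (nat_lit 10) (.e (nat_lit 319529) (nat_lit 16) (.e (nat_lit 286761) (nat_lit 13) (.e (nat_lit 393270) (nat_lit 23) .nil)))) .nil)))) (.nd (nat_lit 5) (.nd (nat_lit 6) 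
(.lf (nat_lit 152340) (.g (nat_lit 961) (.e (nat_lit 57400) (nat_lit 10) (.e (nat_lit 319490) (nat_lit 0) (.e (nat_lit 577) (nat_lit 43) .nil))) .nil)) 
(.lf (nat_lit 152404) (.g (nat_lit 1430) (.e (nat_lit 57400) (nat_lit 10) (.e (nat_lit 319528) (nat_lit 16) (.e (nat_lit 286761) (nat_lit 13) (.e (nat_lit 393288) (nat_lit 25) (.e (nat_lit 458775) (nat_lit 18) .nil))))) .nil))) (.nd (nat_lit 6) 
(.lf (nat_lit 152372) (.g (nat_lit 2787) (.e (nat_lit 57400) (nat_lit 10) (.e (nat_lit 319528) (nat_lit 16) (.e (nat_lit 286743) (nat_lit 9) (.e (nat_lit 336444) (nat_lit 32) (.e (nat_lit 466972) (nat_lit 21) (.e (nat_lit 164402) (nat_lit 256) .nil)))))) (.g (nat_lit 0) .nil .nil))) 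
(.lf (nat_lit 152436) (.g (nat_lit 2314) (.e (nat_lit 57400) (nat_lit 10) (.e (nat_lit 319530) (nat_lit 16) (.e (nat_lit 286748) (nat_lit 9) (.e (nat_lit 336389) (nat_lit 27) (.e (nat_lit 426263) (nat_lit 9) (.e (nat_lit 426100) (nat_lit 1) (.e (nat_lit 164398) (nat_lit 256) .nil))))))) (.g (nat_lit 4) .nil .nil)))))) (.nd (nat_lit 4) (.nd (nat_lit 5) (.nd (nat_lit 6) 
(.lf (nat_lit 152332) (.g (nat_lit 2207) (.e (nat_lit 57399) (nat_lit 10) (.e (nat_lit 319534) (nat_lit 16) (.e (nat_lit 286761) (nat_lit 13) (.e (nat_lit 393270) (nat_lit 23) (.e (nat_lit 426111) (nat_lit 1) .nil))))) .nil)) 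
(.lf (nat_lit 152396) (.g (nat_lit 1570) (.e (nat_lit 57400) (nat_lit 10) (.e (nat_lit 319528) (nat_lit 16) (.e (nat_lit 286761) (nat_lit 13) (.e (nat_lit 393279) (nat_lit 23) .nil)))) .nil))) (.nd (nat_lit 6) 
(.lf (nat_lit 152364) (.g (nat_lit 860) (.e (nat_lit 57400) (nat_lit 10) (.e (nat_lit 319504) (nat_lit 10) (.e (nat_lit 5257) (nat_lit 298) .nil))) .nil)) 
(.lf (nat_lit 152428) (.g (nat_lit 3963) (.e (nat_lit 57400) (nat_lit 10) (.e (nat_lit 319530) (nat_lit 16) (.e (nat_lit 286735) (nat_lit 3) (.e (nat_lit 98373) (nat_lit 29) (.e (nat_lit 450562) (nat_lit 0) (.e (nat_lit 7936) (nat_lit 235) .nil)))))) (.g (nat_lit 5) .nil .nil))))) (.nd (nat_lit 5) (.nd (nat_lit 6) 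
(.lf (nat_lit 152348) (.g (nat_lit 2011) (.e (nat_lit 57400) (nat_lit 10) (.e (nat_lit 319490) (nat_lit 0) (.e (nat_lit 5626) (nat_lit 312) (.e (nat_lit 2612) (nat_lit 163) .nil)))) .nil)) 
(.lf (nat_lit 152412) (.g (nat_lit 2112) (.e (nat_lit 57400) (nat_lit 10) (.e (nat_lit 319529) (nat_lit 16) (.e (nat_lit 286743) (nat_lit 9) (.e (nat_lit 336432) (nat_lit 30) (.e (nat_lit 450569) (nat_lit 0) (.e (nat_lit 5947) (nat_lit 322) .nil)))))) (.g (nat_lit 5) .nil .nil)))) (.nd (nat_lit 6) 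
(.lf (nat_lit 152380) (.g (nat_lit 2460) (.e (nat_lit 57400) (nat_lit 10) (.e (nat_lit 319528) (nat_lit 16) (.e (nat_lit 286761) (nat_lit 13) (.e (nat_lit 393234) (nat_lit 17) (.e (nat_lit 7065) (nat_lit 377) (.e (nat_lit 1115) (nat_lit 82) (.e (nat_lit 8446) (nat_lit 140) .nil))))))) (.g (nat_lit 5) .nil .nil))) 
(.lf (nat_lit 152444) (.g (nat_lit 2454) (.e (nat_lit 57400) (nat_lit 10) (.e (nat_lit 319530) (nat_lit 16) (.e (nat_lit 286761) (nat_lit 13) (.e (nat_lit 393234) (nat_lit 17) (.e (nat_lit 7065) (nat_lit 377) (.e (nat_lit 1112) (nat_lit 82) (.e (nat_lit 8444) (nat_lit 140) .nil))))))) (.g (nat_lit 5) .nil .nil)))))))) 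
(.nd (nat_lit 2) (.nd (nat_lit 3) (.nd (nat_lit 4) (.nd (nat_lit 5) (.nd (nat_lit 6) 
(.lf (nat_lit 152322) (.g (nat_lit 2022) (.e (nat_lit 57399) (nat_lit 10) (.e (nat_lit 319534) (nat_lit 16) (.e (nat_lit 286748) (nat_lit 9) (.e (nat_lit 336389) (nat_lit 27) .nil)))) .nil)) 
(.lf (nat_lit 152386) (.g (nat_lit 1570) (.e (nat_lit 57400) (nat_lit 10) (.e (nat_lit 319528) (nat_lit 16) (.e (nat_lit 286761) (nat_lit 13) (.e (nat_lit 393269) (nat_lit 23) .nil)))) .nil))) (.nd (nat_lit 6) 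
(.lf (nat_lit 152354) (.g (nat_lit 952) (.e (nat_lit 57400) (nat_lit 10) (.e (nat_lit 319490) (nat_lit 0) (.e (nat_lit 5664) (nat_lit 312) (.e (nat_lit 3085) (nat_lit 191) .nil)))) .nil)) 
(.lf (nat_lit 152418) (.g (nat_lit 1496) (.e (nat_lit 57400) (nat_lit 10) (.e (nat_lit 319529) (nat_lit 16) (.e (nat_lit 286761) (nat_lit 13) (.e (nat_lit 393264) (nat_lit 22) (.e (nat_lit 417794) (nat_lit 0) .nil))))) .nil)))) (.nd (nat_lit 5) (.nd (nat_lit 6) 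
(.lf (nat_lit 152338) (.g (nat_lit 1866) (.e (nat_lit 57399) (nat_lit 10) (.e (nat_lit 319534) (nat_lit 16) (.e (nat_lit 286761) (nat_lit 13) (.e (nat_lit 393288) (nat_lit 25) .nil)))) .nil)) 
(.lf (nat_lit 152402) (.g (nat_lit 2011) (.e (nat_lit 57400) (nat_lit 10) (.e (nat_lit 319528) (nat_lit 16) (.e (nat_lit 286761) (nat_lit 13) (.e (nat_lit 393284) (nat_lit 24) (.e (nat_lit 434200) (nat_lit 18) .nil))))) .nil))) (.nd (nat_lit 6) 
(.lf (nat_lit 152370) (.g (nat_lit 3213) (.e (nat_lit 57400) (nat_lit 10) (.e (nat_lit 319528) (nat_lit 16) (.e (nat_lit 286743) (nat_lit 9) (.e (nat_lit 336443) (nat_lit 32) (.e (nat_lit 466972) (nat_lit 21) (.e (nat_lit 164402) (nat_lit 256) .nil)))))) (.g (nat_lit 6) .nil .nil))) 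
(.lf (nat_lit 152434) (.g (nat_lit 1192) (.e (nat_lit 57400) (nat_lit 10) (.e (nat_lit 319530) (nat_lit 16) (.e (nat_lit 286743) (nat_lit 9) (.e (nat_lit 336444) (nat_lit 32) .nil)))) .nil))))) (.nd (nat_lit 4) (.nd (nat_lit 5) (.nd (nat_lit 6) 
(.lf (nat_lit 152330) (.g (nat_lit 2386) (.e (nat_lit 57399) (nat_lit 10) (.e (nat_lit 319534) (nat_lit 16) (.e (nat_lit 286761) (nat_lit 13) (.e (nat_lit 393265) (nat_lit 22) (.e (nat_lit 417792) (nat_lit 0) .nil))))) .nil)) 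
(.lf (nat_lit 152394) (.g (nat_lit 2549) (.e (nat_lit 57400) (nat_lit 10) (.e (nat_lit 319528) (nat_lit 16) (.e (nat_lit 286761) (nat_lit 13) (.e (nat_lit 393275) (nat_lit 23) (.e (nat_lit 426109) (nat_lit 1) (.e (nat_lit 164402) (nat_lit 256) .nil)))))) (.g (nat_lit 5) .nil .nil)))) (.nd (nat_lit 6) 
(.lf (nat_lit 152362) (.g (nat_lit 2500) (.e (nat_lit 57400) (nat_lit 10) (.e (nat_lit 319504) (nat_lit 10) (.e (nat_lit 618) (nat_lit 48) (.e (nat_lit 557105) (nat_lit 14) (.e (nat_lit 180252) (nat_lit 10) .nil))))) .nil)) 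
(.lf (nat_lit 152426) (.g (nat_lit 1424) (.e (nat_lit 57400) (nat_lit 10) (.e (nat_lit 319529) (nat_lit 16) (.e (nat_lit 286761) (nat_lit 13) (.e (nat_lit 393289) (nat_lit 25) (.e (nat_lit 458771) (nat_lit 18) .nil))))) .nil)))) (.nd (nat_lit 5) (.nd (nat_lit 6) 
(.lf (nat_lit 152346) (.g (nat_lit 2357) (.e (nat_lit 57400) (nat_lit 10) (.e (nat_lit 319490) (nat_lit 0) (.e (nat_lit 5383) (nat_lit 300) (.e (nat_lit 16473) (nat_lit 14) (.e (nat_lit 491558) (nat_lit 10) .nil))))) .nil)) 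
(.lf (nat_lit 152410) (.g (nat_lit 2184) (.e (nat_lit 57400) (nat_lit 10) (.e (nat_lit 319528) (nat_lit 16) (.e (nat_lit 286761) (nat_lit 13) (.e (nat_lit 393289) (nat_lit 25) (.e (nat_lit 458774) (nat_lit 18) (.e (nat_lit 5951) (nat_lit 322) .nil)))))) (.g (nat_lit 5) .nil .nil)))) (.nd (nat_lit 6) 
(.lf (nat_lit 152378) (.g (nat_lit 2432) (.e (nat_lit 57400) (nat_lit 10) (.e (nat_lit 319528) (nat_lit 16) (.e (nat_lit 286761) (nat_lit 13) (.e (nat_lit 393234) (nat_lit 17) (.e (nat_lit 7065) (nat_lit 377) (.e (nat_lit 1112) (nat_lit 82) (.e (nat_lit 8443) (nat_lit 140) .nil))))))) (.g (nat_lit 5) .nil .nil))) 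
(.lf (nat_lit 152442) (.g (nat_lit 2406) (.e (nat_lit 57400) (nat_lit 10) (.e (nat_lit 319530) (nat_lit 16) (.e (nat_lit 286761) (nat_lit 13) (.e (nat_lit 393234) (nat_lit 17) (.e (nat_lit 7065) (nat_lit 377) (.e (nat_lit 1033) (nat_lit 81) (.e (nat_lit 65) (nat_lit 0) (.e (nat_lit 5948) (nat_lit 322) .nil)))))))) (.g (nat_lit 5) .nil .nil))))))) 
(.nd (nat_lit 3) (.nd (nat_lit 4) (.nd (nat_lit 5) (.nd (nat_lit 6) 
(.lf (nat_lit 152326) (.g (nat_lit 898) (.e (nat_lit 57399) (nat_lit 10) (.e (nat_lit 319534) (nat_lit 16) (.e (nat_lit 286760) (nat_lit 13) .nil))) .nil)) 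
(.lf (nat_lit 152390) (.g (nat_lit 2321) (.e (nat_lit 57400) (nat_lit 10) (.e (nat_lit 319528) (nat_lit 16) (.e (nat_lit 286761) (nat_lit 13) (.e (nat_lit 393270) (nat_lit 23) (.e (nat_lit 426112) (nat_lit 1) (.e (nat_lit 164398) (nat_lit 256) .nil)))))) (.g (nat_lit 5) .nil .nil)))) (.nd (nat_lit 6) 
(.lf (nat_lit 152358) (.g (nat_lit 2150) (.e (nat_lit 57400) (nat_lit 10) (.e (nat_lit 319490) (nat_lit 0) (.e (nat_lit 5664) (nat_lit 312) (.e (nat_lit 3085) (nat_lit 191) (.e (nat_lit 483389) (nat_lit 23) .nil))))) .nil)) 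
(.lf (nat_lit 152422) (.g (nat_lit 2287) (.e (nat_lit 57400) (nat_lit 10) (.e (nat_lit 319529) (nat_lit 16) (.e (nat_lit 286761) (nat_lit 13) (.e (nat_lit 393281) (nat_lit 23) (.e (nat_lit 426100) (nat_lit 1) (.e (nat_lit 164398) (nat_lit 256) .nil)))))) (.g (nat_lit 4) .nil .nil))))) (.nd (nat_lit 5) (.nd (nat_lit 6) 
(.lf (nat_lit 152342) (.g (nat_lit 1337) (.e (nat_lit 57400) (nat_lit 10) (.e (nat_lit 319490) (nat_lit 0) (.e (nat_lit 5259) (nat_lit 298) (.e (nat_lit 210) (nat_lit 18) .nil)))) .nil)) 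
(.lf (nat_lit 152406) (.g (nat_lit 1540) (.e (nat_lit 57400) (nat_lit 10) (.e (nat_lit 319528) (nat_lit 16) (.e (nat_lit 286761) (nat_lit 13) (.e (nat_lit 393289) (nat_lit 25) (.e (nat_lit 458771) (nat_lit 18) (.e (nat_lit 5951) (nat_lit 322) .nil)))))) (.g (nat_lit 4) .nil .nil)))) (.nd (nat_lit 6) 
(.lf (nat_lit 152374) (.g (nat_lit 2410) (.e (nat_lit 57400) (nat_lit 10) (.e (nat_lit 319528) (nat_lit 16) (.e (nat_lit 286748) (nat_lit 9) (.e (nat_lit 336389) (nat_lit 27) (.e (nat_lit 426265) (nat_lit 9) (.e (nat_lit 426100) (nat_lit 1) (.e (nat_lit 164403) (nat_lit 256) .nil))))))) (.g (nat_lit 4) .nil .nil))) 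
(.lf (nat_lit 152438) (.g (nat_lit 1971) (.e (nat_lit 57400) (nat_lit 10) (.e (nat_lit 319530) (nat_lit 16) (.e (nat_lit 286748) (nat_lit 9) (.e (nat_lit 336389) (nat_lit 27) (.e (nat_lit 426265) (nat_lit 9) .nil))))) .nil))))) (.nd (nat_lit 4) (.nd (nat_lit 5) (.nd (nat_lit 6) 
(.lf (nat_lit 152334) (.g (nat_lit 1812) (.e (nat_lit 57399) (nat_lit 10) (.e (nat_lit 319534) (nat_lit 16) (.e (nat_lit 286761) (nat_lit 13) (.e (nat_lit 393275) (nat_lit 23) .nil)))) .nil)) 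
(.lf (nat_lit 152398) (.g (nat_lit 2749) (.e (nat_lit 57400) (nat_lit 10) (.e (nat_lit 319528) (nat_lit 16) (.e (nat_lit 286761) (nat_lit 13) (.e (nat_lit 393281) (nat_lit 23) (.e (nat_lit 426100) (nat_lit 1) (.e (nat_lit 164398) (nat_lit 256) .nil)))))) (.g (nat_lit 6) .nil .nil)))) (.nd (nat_lit 6) 
(.lf (nat_lit 152366) (.g (nat_lit 520) (.e (nat_lit 57400) (nat_lit 10) (.e (nat_lit 319511) (nat_lit 10) (.e (nat_lit 5293) (nat_lit 298) (.e (nat_lit 1423) (nat_lit 108) .nil)))) .nil)) 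
(.lf (nat_lit 152430) (.g (nat_lit 1442) (.e (nat_lit 57400) (nat_lit 10) (.e (nat_lit 319530) (nat_lit 16) (.e (nat_lit 286743) (nat_lit 9) (.e (nat_lit 336432) (nat_lit 30) (.e (nat_lit 450568) (nat_lit 0) .nil))))) .nil)))) (.nd (nat_lit 5) (.nd (nat_lit 6) 
(.lf (nat_lit 152350) (.g (nat_lit 2148) (.e (nat_lit 57400) (nat_lit 10) (.e (nat_lit 319490) (nat_lit 0) (.e (nat_lit 5664) (nat_lit 312) (.e (nat_lit 2842) (nat_lit 184) .nil)))) .nil)) 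
(.lf (nat_lit 152414) (.g (nat_lit 2892) (.e (nat_lit 57400) (nat_lit 10) (.e (nat_lit 319529) (nat_lit 16) (.e (nat_lit 286743) (nat_lit 9) (.e (nat_lit 336443) (nat_lit 32) (.e (nat_lit 466972) (nat_lit 21) (.e (nat_lit 164403) (nat_lit 256) .nil)))))) (.g (nat_lit 5) .nil .nil)))) (.nd (nat_lit 6) 
(.lf (nat_lit 152382) (.g (nat_lit 1946) (.e (nat_lit 57400) (nat_lit 10) (.e (nat_lit 319528) (nat_lit 16) (.e (nat_lit 286761) (nat_lit 13) (.e (nat_lit 393265) (nat_lit 22) (.e (nat_lit 417792) (nat_lit 0) (.e (nat_lit 67) (nat_lit 0) (.e (nat_lit 5946) (nat_lit 322) .nil))))))) (.g (nat_lit 4) .nil .nil))) 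
(.lf (nat_lit 152446) (.g (nat_lit 2978) (.e (nat_lit 57400) (nat_lit 10) (.e (nat_lit 319530) (nat_lit 16) (.e (nat_lit 286761) (nat_lit 13) (.e (nat_lit 393234) (nat_lit 17) (.e (nat_lit 7065) (nat_lit 377) (.e (nat_lit 1115) (nat_lit 82) (.e (nat_lit 8443) (nat_lit 140) .nil))))))) (.g (nat_lit 6) .nil .nil))))))))) 
(.nd (nat_lit 1) (.nd (nat_lit 2) (.nd (nat_lit 3) (.nd (nat_lit 4) (.nd (nat_lit 5) 
(.nd (nat_lit 6) 
(.lf (nat_lit 152321) (.g (nat_lit 1526) (.e (nat_lit 57399) (nat_lit 10) (.e (nat_lit 319534) (nat_lit 16) (.e (nat_lit 286743) (nat_lit 9) (.e (nat_lit 336444) (nat_lit 32) .nil)))) .nil)) 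
(.lf (nat_lit 152385) (.g (nat_lit 1570) (.e (nat_lit 57400) (nat_lit 10) (.e (nat_lit 319528) (nat_lit 16) (.e (nat_lit 286761) (nat_lit 13) (.e (nat_lit 393267) (nat_lit 23) .nil)))) .nil))) (.nd (nat_lit 6) 
(.lf (nat_lit 152353) (.g (nat_lit 2311) (.e (nat_lit 57400) (nat_lit 10) (.e (nat_lit 319490) (nat_lit 0) (.e (nat_lit 5664) (nat_lit 312) (.e (nat_lit 2852) (nat_lit 184) (.e (nat_lit 426543) (nat_lit 29) (.e (nat_lit 352318) (nat_lit 24) (.e (nat_lit 123198) (nat_lit 266) .nil))))))) (.g (nat_lit 4) .nil .nil))) 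
(.lf (nat_lit 152417) (.g (nat_lit 1245) (.e (nat_lit 57400) (nat_lit 10) (.e (nat_lit 319529) (nat_lit 16) (.e (nat_lit 286761) (nat_lit 13) (.e (nat_lit 393264) (nat_lit 22) .nil)))) .nil)))) (.nd (nat_lit 5) (.nd (nat_lit 6) 
(.lf (nat_lit 152337) (.g (nat_lit 2309) (.e (nat_lit 57399) (nat_lit 10) (.e (nat_lit 319534) (nat_lit 16) (.e (nat_lit 286761) (nat_lit 13) (.e (nat_lit 393281) (nat_lit 23) (.e (nat_lit 426100) (nat_lit 1) .nil))))) .nil)) 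
(.lf (nat_lit 152401) (.g (nat_lit 1139) (.e (nat_lit 57400) (nat_lit 10) (.e (nat_lit 319528) (nat_lit 16) (.e (nat_lit 286761) (nat_lit 13) (.e (nat_lit 393284) (nat_lit 24) .nil)))) .nil))) (.nd (nat_lit 6) 
(.lf (nat_lit 152369) (.g (nat_lit 1619) (.e (nat_lit 57400) (nat_lit 10) (.e (nat_lit 319528) (nat_lit 16) (.e (nat_lit 286743) (nat_lit 9) (.e (nat_lit 336426) (nat_lit 29) (.e (nat_lit 442430) (nat_lit 24) (.e (nat_lit 229708) (nat_lit 256) .nil)))))) (.g (nat_lit 4) .nil .nil))) 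
(.lf (nat_lit 152433) (.g (nat_lit 3130) (.e (nat_lit 57400) (nat_lit 10) (.e (nat_lit 319530) (nat_lit 16) (.e (nat_lit 286743) (nat_lit 9) (.e (nat_lit 336443) (nat_lit 32) (.e (nat_lit 466972) (nat_lit 21) (.e (nat_lit 164403) (nat_lit 256) .nil)))))) (.g (nat_lit 5) .nil .nil)))))) (.nd (nat_lit 4) (.nd (nat_lit 5) (.nd (nat_lit 6) 
(.lf (nat_lit 152329) (.g (nat_lit 1524) (.e (nat_lit 57399) (nat_lit 10) (.e (nat_lit 319534) (nat_lit 16) (.e (nat_lit 286761) (nat_lit 13) (.e (nat_lit 393265) (nat_lit 22) .nil)))) .nil)) 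
(.lf (nat_lit 152393) (.g (nat_lit 1778) (.e (nat_lit 57400) (nat_lit 10) (.e (nat_lit 319528) (nat_lit 16) (.e (nat_lit 286761) (nat_lit 13) (.e (nat_lit 393275) (nat_lit 23) (.e (nat_lit 426103) (nat_lit 1) .nil))))) .nil))) (.nd (nat_lit 6) 
(.lf (nat_lit 152361) (.g (nat_lit 860) (.e (nat_lit 57400) (nat_lit 10) (.e (nat_lit 319490) (nat_lit 0) (.e (nat_lit 5766) (nat_lit 316) .nil))) .nil)) 
(.lf (nat_lit 152425) (.g (nat_lit 874) (.e (nat_lit 57400) (nat_lit 10) (.e (nat_lit 319529) (nat_lit 16) (.e (nat_lit 286761) (nat_lit 13) (.e (nat_lit 393289) (nat_lit 25) .nil)))) .nil)))) (.nd (nat_lit 5) (.nd (nat_lit 6) 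
(.lf (nat_lit 152345) (.g (nat_lit 961) (.e (nat_lit 57400) (nat_lit 10) (.e (nat_lit 319490) (nat_lit 0) (.e (nat_lit 5383) (nat_lit 300) .nil))) .nil)) 
(.lf (nat_lit 152409) (.g (nat_lit 1264) (.e (nat_lit 57400) (nat_lit 10) (.e (nat_lit 319528) (nat_lit 16) (.e (nat_lit 286761) (nat_lit 13) (.e (nat_lit 393289) (nat_lit 25) (.e (nat_lit 458774) (nat_lit 18) .nil))))) .nil))) (.nd (nat_lit 6) 
(.lf (nat_lit 152377) (.g (nat_lit 1818) (.e (nat_lit 57400) (nat_lit 10) (.e (nat_lit 319528) (nat_lit 16) (.e (nat_lit 286761) (nat_lit 13) (.e (nat_lit 393234) (nat_lit 17) (.e (nat_lit 7065) (nat_lit 377) (.e (nat_lit 1033) (nat_lit 81) (.e (nat_lit 65) (nat_lit 0) (.e (nat_lit 5948) (nat_lit 322) .nil)))))))) (.g (nat_lit 4) .nil .nil))) 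
(.lf (nat_lit 152441) (.g (nat_lit 2456) (.e (nat_lit 57400) (nat_lit 10) (.e (nat_lit 319530) (nat_lit 16) (.e (nat_lit 286761) (nat_lit 13) (.e (nat_lit 393234) (nat_lit 17) (.e (nat_lit 7065) (nat_lit 377) (.e (nat_lit 1033) (nat_lit 81) (.e (nat_lit 65) (nat_lit 0) (.e (nat_lit 5946) (nat_lit 322) .nil)))))))) (.g (nat_lit 5) .nil .nil))))))) 
(.nd (nat_lit 3) (.nd (nat_lit 4) (.nd (nat_lit 5) (.nd (nat_lit 6) 
(.lf (nat_lit 152325) (.g (nat_lit 1979) (.e (nat_lit 57399) (nat_lit 10) (.e (nat_lit 319534) (nat_lit 16) (.e (nat_lit 286749) (nat_lit 9) (.e (nat_lit 343808) (nat_lit 27) .nil)))) .nil)) 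
(.lf (nat_lit 152389) (.g (nat_lit 1931) (.e (nat_lit 57400) (nat_lit 10) (.e (nat_lit 319528) (nat_lit 16) (.e (nat_lit 286761) (nat_lit 13) (.e (nat_lit 393270) (nat_lit 23) (.e (nat_lit 426112) (nat_lit 1) (.e (nat_lit 164396) (nat_lit 256) .nil)))))) (.g (nat_lit 4) .nil .nil)))) (.nd (nat_lit 6) 
(.lf (nat_lit 152357) (.g (nat_lit 1891) (.e (nat_lit 57400) (nat_lit 10) (.e (nat_lit 319490) (nat_lit 0) (.e (nat_lit 5664) (nat_lit 312) (.e (nat_lit 3085) (nat_lit 191) (.e (nat_lit 483386) (nat_lit 23) .nil))))) .nil)) 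
(.lf (nat_lit 152421) (.g (nat_lit 1392) (.e (nat_lit 57400) (nat_lit 10) (.e (nat_lit 319529) (nat_lit 16) (.e (nat_lit 286761) (nat_lit 13) (.e (nat_lit 393275) (nat_lit 23) .nil)))) .nil)))) (.nd (nat_lit 5) (.nd (nat_lit 6) 
(.lf (nat_lit 152341) (.g (nat_lit 774) (.e (nat_lit 57400) (nat_lit 10) (.e (nat_lit 319490) (nat_lit 0) (.e (nat_lit 5259) (nat_lit 298) .nil))) .nil)) 
(.lf (nat_lit 152405) (.g (nat_lit 779) (.e (nat_lit 57400) (nat_lit 10) (.e (nat_lit 319528) (nat_lit 16) (.e (nat_lit 286761) (nat_lit 13) (.e (nat_lit 393289) (nat_lit 25) .nil)))) .nil))) (.nd (nat_lit 6) 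
(.lf (nat_lit 152373) (.g (nat_lit 1932) (.e (nat_lit 57400) (nat_lit 10) (.e (nat_lit 319528) (nat_lit 16) (.e (nat_lit 286748) (nat_lit 9) (.e (nat_lit 336389) (nat_lit 27) (.e (nat_lit 426265) (nat_lit 9) .nil))))) .nil)) 
(.lf (nat_lit 152437) (.g (nat_lit 2753) (.e (nat_lit 57400) (nat_lit 10) (.e (nat_lit 319530) (nat_lit 16) (.e (nat_lit 286748) (nat_lit 9) (.e (nat_lit 336389) (nat_lit 27) (.e (nat_lit 426263) (nat_lit 9) (.e (nat_lit 426100) (nat_lit 1) (.e (nat_lit 164403) (nat_lit 256) .nil))))))) (.g (nat_lit 4) .nil .nil)))))) (.nd (nat_lit 4) (.nd (nat_lit 5) (.nd (nat_lit 6) 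
(.lf (nat_lit 152333) (.g (nat_lit 2246) (.e (nat_lit 57399) (nat_lit 10) (.e (nat_lit 319534) (nat_lit 16) (.e (nat_lit 286761) (nat_lit 13) (.e (nat_lit 393270) (nat_lit 23) (.e (nat_lit 426112) (nat_lit 1) .nil))))) .nil)) 
(.lf (nat_lit 152397) (.g (nat_lit 1680) (.e (nat_lit 57400) (nat_lit 10) (.e (nat_lit 319528) (nat_lit 16) (.e (nat_lit 286761) (nat_lit 13) (.e (nat_lit 393281) (nat_lit 23) (.e (nat_lit 426099) (nat_lit 1) .nil))))) .nil))) (.nd (nat_lit 6) 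
(.lf (nat_lit 152365) (.g (nat_lit 1390) (.e (nat_lit 57400) (nat_lit 10) (.e (nat_lit 319505) (nat_lit 10) (.e (nat_lit 720) (nat_lit 64) (.e (nat_lit 688182) (nat_lit 17) .nil)))) .nil)) 
(.lf (nat_lit 152429) (.g (nat_lit 3455) (.e (nat_lit 57400) (nat_lit 10) (.e (nat_lit 319530) (nat_lit 16) (.e (nat_lit 286735) (nat_lit 3) (.e (nat_lit 98373) (nat_lit 29) (.e (nat_lit 450563) (nat_lit 0) (.e (nat_lit 7936) (nat_lit 235) .nil)))))) (.g (nat_lit 5) .nil .nil))))) (.nd (nat_lit 5) (.nd (nat_lit 6) 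
(.lf (nat_lit 152349) (.g (nat_lit 727) (.e (nat_lit 57400) (nat_lit 10) (.e (nat_lit 319490) (nat_lit 0) (.e (nat_lit 5629) (nat_lit 312) .nil))) .nil)) 
(.lf (nat_lit 152413) (.g (nat_lit 3270) (.e (nat_lit 57400) (nat_lit 10) (.e (nat_lit 319529) (nat_lit 16) (.e (nat_lit 286743) (nat_lit 9) (.e (nat_lit 336443) (nat_lit 32) (.e (nat_lit 466972) (nat_lit 21) (.e (nat_lit 164402) (nat_lit 256) .nil)))))) (.g (nat_lit 6) .nil .nil)))) (.nd (nat_lit 6) 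
(.lf (nat_lit 152381) (.g (nat_lit 2254) (.e (nat_lit 57400) (nat_lit 10) (.e (nat_lit 319528) (nat_lit 16) (.e (nat_lit 286761) (nat_lit 13) (.e (nat_lit 393234) (nat_lit 17) (.e (nat_lit 7322) (nat_lit 388) (.e (nat_lit 2608) (nat_lit 163) (.e (nat_lit 164403) (nat_lit 256) .nil))))))) (.g (nat_lit 4) .nil .nil))) 
(.lf (nat_lit 152445) (.g (nat_lit 2003) (.e (nat_lit 57400) (nat_lit 10) (.e (nat_lit 319530) (nat_lit 16) (.e (nat_lit 286761) (nat_lit 13) (.e (nat_lit 393234) (nat_lit 17) (.e (nat_lit 7065) (nat_lit 377) (.e (nat_lit 1115) (nat_lit 82) (.e (nat_lit 8442) (nat_lit 140) .nil))))))) (.g (nat_lit 4) .nil .nil)))))))) 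
(.nd (nat_lit 2) (.nd (nat_lit 3) (.nd (nat_lit 4) (.nd (nat_lit 5) (.nd (nat_lit 6) 
(.lf (nat_lit 152323) (.g (nat_lit 3273) (.e (nat_lit 57399) (nat_lit 10) (.e (nat_lit 319534) (nat_lit 16) (.e (nat_lit 286748) (nat_lit 9) (.e (nat_lit 336389) (nat_lit 27) (.e (nat_lit 426265) (nat_lit 9) .nil))))) .nil)) 
(.lf (nat_lit 152387) (.g (nat_lit 1046) (.e (nat_lit 57400) (nat_lit 10) (.e (nat_lit 319528) (nat_lit 16) (.e (nat_lit 286761) (nat_lit 13) (.e (nat_lit 393270) (nat_lit 23) .nil)))) .nil))) (.nd (nat_lit 6) 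
(.lf (nat_lit 152355) (.g (nat_lit 1666) (.e (nat_lit 57400) (nat_lit 10) (.e (nat_lit 319490) (nat_lit 0) (.e (nat_lit 5664) (nat_lit 312) (.e (nat_lit 3085) (nat_lit 191) (.e (nat_lit 483377) (nat_lit 22) .nil))))) .nil)) 
(.lf (nat_lit 152419) (.g (nat_lit 854) (.e (nat_lit 57400) (nat_lit 10) (.e (nat_lit 319529) (nat_lit 16) (.e (nat_lit 286761) (nat_lit 13) (.e (nat_lit 393265) (nat_lit 22) .nil)))) .nil)))) (.nd (nat_lit 5) (.nd (nat_lit 6) 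
(.lf (nat_lit 152339) (.g (nat_lit 1490) (.e (nat_lit 57399) (nat_lit 10) (.e (nat_lit 319534) (nat_lit 16) (.e (nat_lit 286761) (nat_lit 13) (.e (nat_lit 393289) (nat_lit 25) .nil)))) .nil)) 
(.lf (nat_lit 152403) (.g (nat_lit 2332) (.e (nat_lit 57400) (nat_lit 10) (.e (nat_lit 319528) (nat_lit 16) (.e (nat_lit 286761) (nat_lit 13) (.e (nat_lit 393288) (nat_lit 25) (.e (nat_lit 458774) (nat_lit 18) (.e (nat_lit 5951) (nat_lit 322) .nil)))))) (.g (nat_lit 5) .nil .nil)))) (.nd (nat_lit 6) 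
(.lf (nat_lit 152371) (.g (nat_lit 2883) (.e (nat_lit 57400) (nat_lit 10) (.e (nat_lit 319528) (nat_lit 16) (.e (nat_lit 286743) (nat_lit 9) (.e (nat_lit 336443) (nat_lit 32) (.e (nat_lit 466972) (nat_lit 21) (.e (nat_lit 164403) (nat_lit 256) .nil)))))) (.g (nat_lit 5) .nil .nil))) 
(.lf (nat_lit 152435) (.g (nat_lit 3086) (.e (nat_lit 57400) (nat_lit 10) (.e (nat_lit 319530) (nat_lit 16) (.e (nat_lit 286743) (nat_lit 9) (.e (nat_lit 336444) (nat_lit 32) (.e (nat_lit 466971) (nat_lit 21) (.e (nat_lit 164403) (nat_lit 256) .nil)))))) (.g (nat_lit 6) .nil .nil)))))) (.nd (nat_lit 4) (.nd (nat_lit 5) (.nd (nat_lit 6) 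
(.lf (nat_lit 152331) (.g (nat_lit 1520) (.e (nat_lit 57399) (nat_lit 10) (.e (nat_lit 319534) (nat_lit 16) (.e (nat_lit 286761) (nat_lit 13) (.e (nat_lit 393270) (nat_lit 23) .nil)))) .nil)) 
(.lf (nat_lit 152395) (.g (nat_lit 1737) (.e (nat_lit 57400) (nat_lit 10) (.e (nat_lit 319528) (nat_lit 16) (.e (nat_lit 286761) (nat_lit 13) (.e (nat_lit 393275) (nat_lit 23) (.e (nat_lit 426144) (nat_lit 4) .nil))))) .nil))) (.nd (nat_lit 6) 
(.lf (nat_lit 152363) (.g (nat_lit 868) (.e (nat_lit 57400) (nat_lit 10) (.e (nat_lit 319504) (nat_lit 10) (.e (nat_lit 818) (nat_lit 68) .nil))) .nil)) 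
(.lf (nat_lit 152427) (.g (nat_lit 1335) (.e (nat_lit 57400) (nat_lit 10) (.e (nat_lit 319529) (nat_lit 16) (.e (nat_lit 286761) (nat_lit 13) (.e (nat_lit 393289) (nat_lit 25) (.e (nat_lit 458774) (nat_lit 18) .nil))))) .nil)))) (.nd (nat_lit 5) (.nd (nat_lit 6) 
(.lf (nat_lit 152347) (.g (nat_lit 961) (.e (nat_lit 57400) (nat_lit 10) (.e (nat_lit 319490) (nat_lit 0) (.e (nat_lit 7936) (nat_lit 300) .nil))) .nil)) 
(.lf (nat_lit 152411) (.g (nat_lit 1382) (.e (nat_lit 57400) (nat_lit 10) (.e (nat_lit 319528) (nat_lit 16) (.e (nat_lit 286761) (nat_lit 13) (.e (nat_lit 393289) (nat_lit 25) (.e (nat_lit 466688) (nat_lit 18) .nil))))) .nil))) (.nd (nat_lit 6) 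
(.lf (nat_lit 152379) (.g (nat_lit 2483) (.e (nat_lit 57400) (nat_lit 10) (.e (nat_lit 319528) (nat_lit 16) (.e (nat_lit 286761) (nat_lit 13) (.e (nat_lit 393234) (nat_lit 17) (.e (nat_lit 7065) (nat_lit 377) (.e (nat_lit 1115) (nat_lit 82) (.e (nat_lit 8443) (nat_lit 140) .nil))))))) (.g (nat_lit 5) .nil .nil))) 
(.lf (nat_lit 152443) (.g (nat_lit 1767) (.e (nat_lit 57400) (nat_lit 10) (.e (nat_lit 319530) (nat_lit 16) (.e (nat_lit 286761) (nat_lit 13) (.e (nat_lit 393234) (nat_lit 17) (.e (nat_lit 7065) (nat_lit 377) (.e (nat_lit 1112) (nat_lit 82) (.e (nat_lit 8442) (nat_lit 140) .nil))))))) (.g (nat_lit 4) .nil .nil))))))) (.nd (nat_lit 3) (.nd (nat_lit 4) (.nd (nat_lit 5) (.nd (nat_lit 6) 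
(.lf (nat_lit 152327) (.g (nat_lit 705) (.e (nat_lit 57399) (nat_lit 10) (.e (nat_lit 319534) (nat_lit 16) (.e (nat_lit 286761) (nat_lit 13) .nil))) .nil)) 
(.lf (nat_lit 152391) (.g (nat_lit 1671) (.e (nat_lit 57400) (nat_lit 10) (.e (nat_lit 319528) (nat_lit 16) (.e (nat_lit 286761) (nat_lit 13) (.e (nat_lit 393270) (nat_lit 23) (.e (nat_lit 433920) (nat_lit 1) .nil))))) .nil))) (.nd (nat_lit 6) 
(.lf (nat_lit 152359) (.g (nat_lit 2076) (.e (nat_lit 57400) (nat_lit 10) (.e (nat_lit 319490) (nat_lit 0) (.e (nat_lit 5664) (nat_lit 312) (.e (nat_lit 3085) (nat_lit 191) (.e (nat_lit 483390) (nat_lit 23) .nil))))) .nil)) 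
(.lf (nat_lit 152423) (.g (nat_lit 2370) (.e (nat_lit 57400) (nat_lit 10) (.e (nat_lit 319529) (nat_lit 16) (.e (nat_lit 286761) (nat_lit 13) (.e (nat_lit 393281) (nat_lit 23) (.e (nat_lit 426100) (nat_lit 1) (.e (nat_lit 164403) (nat_lit 256) .nil)))))) (.g (nat_lit 4) .nil .nil))))) (.nd (nat_lit 5) (.nd (nat_lit 6) 
(.lf (nat_lit 152343) (.g (nat_lit 1245) (.e (nat_lit 57400) (nat_lit 10) (.e (nat_lit 319490) (nat_lit 0) (.e (nat_lit 5259) (nat_lit 298) (.e (nat_lit 456) (nat_lit 34) .nil)))) .nil)) 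
(.lf (nat_lit 152407) (.g (nat_lit 1867) (.e (nat_lit 57400) (nat_lit 10) (.e (nat_lit 319528) (nat_lit 16) (.e (nat_lit 286761) (nat_lit 13) (.e (nat_lit 393289) (nat_lit 25) (.e (nat_lit 458771) (nat_lit 18) (.e (nat_lit 5954) (nat_lit 322) .nil)))))) (.g (nat_lit 4) .nil .nil)))) (.nd (nat_lit 6) 
(.lf (nat_lit 152375) (.g (nat_lit 143) (.e (nat_lit 57400) (nat_lit 10) (.e (nat_lit 319528) (nat_lit 16) (.e (nat_lit 286761) (nat_lit 13) .nil))) .nil)) 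
(.lf (nat_lit 152439) (.g (nat_lit 1826) (.e (nat_lit 57400) (nat_lit 10) (.e (nat_lit 319530) (nat_lit 16) (.e (nat_lit 286748) (nat_lit 9) (.e (nat_lit 336389) (nat_lit 27) (.e (nat_lit 426300) (nat_lit 11) .nil))))) .nil))))) (.nd (nat_lit 4) (.nd (nat_lit 5) (.nd (nat_lit 6) 
(.lf (nat_lit 152335) (.g (nat_lit 1895) (.e (nat_lit 57399) (nat_lit 10) (.e (nat_lit 319534) (nat_lit 16) (.e (nat_lit 286761) (nat_lit 13) (.e (nat_lit 393280) (nat_lit 23) .nil)))) .nil)) 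
(.lf (nat_lit 152399) (.g (nat_lit 1346) (.e (nat_lit 57400) (nat_lit 10) (.e (nat_lit 319528) (nat_lit 16) (.e (nat_lit 286761) (nat_lit 13) (.e (nat_lit 393282) (nat_lit 24) .nil)))) .nil))) (.nd (nat_lit 6) 
(.lf (nat_lit 152367) (.g (nat_lit 1855) (.e (nat_lit 57400) (nat_lit 10) (.e (nat_lit 319511) (nat_lit 10) (.e (nat_lit 5293) (nat_lit 298) (.e (nat_lit 1656) (nat_lit 115) (.e (nat_lit 393265) (nat_lit 22) (.e (nat_lit 417792) (nat_lit 0) (.e (nat_lit 67) (nat_lit 0) (.e (nat_lit 5949) (nat_lit 322) .nil)))))))) (.g (nat_lit 5) .nil .nil))) 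
(.lf (nat_lit 152431) (.g (nat_lit 1119) (.e (nat_lit 57400) (nat_lit 10) (.e (nat_lit 319530) (nat_lit 16) (.e (nat_lit 286743) (nat_lit 9) (.e (nat_lit 336433) (nat_lit 30) .nil)))) .nil)))) (.nd (nat_lit 5) (.nd (nat_lit 6) 
(.lf (nat_lit 152351) (.g (nat_lit 1320) (.e (nat_lit 57400) (nat_lit 10) (.e (nat_lit 319490) (nat_lit 0) (.e (nat_lit 5664) (nat_lit 312) (.e (nat_lit 2852) (nat_lit 184) .nil)))) .nil)) 
(.lf (nat_lit 152415) (.g (nat_lit 2740) (.e (nat_lit 57400) (nat_lit 10) (.e (nat_lit 319529) (nat_lit 16) (.e (nat_lit 286743) (nat_lit 9) (.e (nat_lit 336444) (nat_lit 32) (.e (nat_lit 466972) (nat_lit 21) (.e (nat_lit 164402) (nat_lit 256) .nil)))))) (.g (nat_lit 6) .nil .nil)))) (.nd (nat_lit 6) 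
(.lf (nat_lit 152383) (.g (nat_lit 1887) (.e (nat_lit 57400) (nat_lit 10) (.e (nat_lit 319528) (nat_lit 16) (.e (nat_lit 286761) (nat_lit 13) (.e (nat_lit 393265) (nat_lit 22) (.e (nat_lit 417793) (nat_lit 0) (.e (nat_lit 52) (nat_lit 0) (.e (nat_lit 5949) (nat_lit 322) .nil))))))) (.g (nat_lit 4) .nil .nil))) 
(.lf (nat_lit 152447) (.g (nat_lit 2283) (.e (nat_lit 57400) (nat_lit 10) (.e (nat_lit 319530) (nat_lit 16) (.e (nat_lit 286761) (nat_lit 13) (.e (nat_lit 393234) (nat_lit 17) (.e (nat_lit 7065) (nat_lit 377) (.e (nat_lit 1115) (nat_lit 82) (.e (nat_lit 8444) (nat_lit 140) .nil))))))) (.g (nat_lit 5) .nil .nil))))))))))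

noncomputable def tv2032 : DT := (.nd (nat_lit 0) (.nd (nat_lit 1) (.nd (nat_lit 2) (.nd (nat_lit 3) (.nd (nat_lit 4) (.nd (nat_lit 5) (.nd (nat_lit 6) 
(.lf (nat_lit 152448) (.g (nat_lit 2461) (.e (nat_lit 57400) (nat_lit 10) (.e (nat_lit 319530) (nat_lit 16) (.e (nat_lit 286761) (nat_lit 13) (.e (nat_lit 393234) (nat_lit 17) (.e (nat_lit 7065) (nat_lit 377) (.e (nat_lit 1116) (nat_lit 82) (.e (nat_lit 8443) (nat_lit 140) .nil))))))) (.g (nat_lit 5) .nil .nil))) 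
(.lf (nat_lit 152512) (.g (nat_lit 2663) (.e (nat_lit 57400) (nat_lit 10) (.e (nat_lit 319531) (nat_lit 16) (.e (nat_lit 286761) (nat_lit 13) (.e (nat_lit 393234) (nat_lit 17) (.e (nat_lit 7065) (nat_lit 377) (.e (nat_lit 1112) (nat_lit 82) (.e (nat_lit 8445) (nat_lit 140) .nil))))))) (.g (nat_lit 5) .nil .nil)))) (.nd (nat_lit 6) 
(.lf (nat_lit 152480) (.g (nat_lit 1143) (.e (nat_lit 57400) (nat_lit 10) (.e (nat_lit 319530) (nat_lit 16) (.e (nat_lit 286761) (nat_lit 13) (.e (nat_lit 393289) (nat_lit 25) .nil)))) .nil)) 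
(.lf (nat_lit 152544) (.g (nat_lit 1797) (.e (nat_lit 57400) (nat_lit 10) (.e (nat_lit 319531) (nat_lit 16) (.e (nat_lit 286761) (nat_lit 13) (.e (nat_lit 393275) (nat_lit 23) (.e (nat_lit 426103) (nat_lit 1) .nil))))) .nil)))) (.nd (nat_lit 5) (.nd (nat_lit 6) 
(.lf (nat_lit 152464) (.g (nat_lit 2228) (.e (nat_lit 57400) (nat_lit 10) (.e (nat_lit 319530) (nat_lit 16) (.e (nat_lit 286761) (nat_lit 13) (.e (nat_lit 393270) (nat_lit 23) (.e (nat_lit 426112) (nat_lit 1) (.e (nat_lit 164398) (nat_lit 256) .nil)))))) (.g (nat_lit 4) .nil .nil))) 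
(.lf (nat_lit 152528) (.g (nat_lit 2268) (.e (nat_lit 57400) (nat_lit 10) (.e (nat_lit 319531) (nat_lit 16) (.e (nat_lit 286761) (nat_lit 13) (.e (nat_lit 393265) (nat_lit 22) (.e (nat_lit 417792) (nat_lit 0) (.e (nat_lit 67) (nat_lit 0) (.e (nat_lit 5946) (nat_lit 322) .nil))))))) (.g (nat_lit 4) .nil .nil)))) (.nd (nat_lit 6) 
(.lf (nat_lit 152496) (.g (nat_lit 1846) (.e (nat_lit 57400) (nat_lit 10) (.e (nat_lit 319531) (nat_lit 16) (.e (nat_lit 286748) (nat_lit 9) (.e (nat_lit 336389) (nat_lit 27) (.e (nat_lit 426190) (nat_lit 9) .nil))))) .nil)) 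
(.lf (nat_lit 152560) (.g (nat_lit 2593) (.e (nat_lit 57400) (nat_lit 10) (.e (nat_lit 319531) (nat_lit 16) (.e (nat_lit 286761) (nat_lit 13) (.e (nat_lit 393286) (nat_lit 25) (.e (nat_lit 458774) (nat_lit 18) (.e (nat_lit 5951) (nat_lit 322) .nil)))))) (.g (nat_lit 5) .nil .nil)))))) (.nd (nat_lit 4) (.nd (nat_lit 5) (.nd (nat_lit 6) 
(.lf (nat_lit 152456) (.g (nat_lit 2280) (.e (nat_lit 57400) (nat_lit 10) (.e (nat_lit 319530) (nat_lit 16) (.e (nat_lit 286761) (nat_lit 13) (.e (nat_lit 393265) (nat_lit 22) (.e (nat_lit 417793) (nat_lit 0) (.e (nat_lit 52) (nat_lit 0) (.e (nat_lit 5949) (nat_lit 322) .nil))))))) (.g (nat_lit 4) .nil .nil))) 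
(.lf (nat_lit 152520) (.g (nat_lit 2758) (.e (nat_lit 57400) (nat_lit 10) (.e (nat_lit 319531) (nat_lit 16) (.e (nat_lit 286761) (nat_lit 13) (.e (nat_lit 393234) (nat_lit 17) (.e (nat_lit 7324) (nat_lit 388) .nil))))) .nil))) (.nd (nat_lit 6) 
(.lf (nat_lit 152488) (.g (nat_lit 1052) (.e (nat_lit 57400) (nat_lit 10) (.e (nat_lit 319531) (nat_lit 16) (.e (nat_lit 286742) (nat_lit 9) .nil))) .nil)) 
(.lf (nat_lit 152552) (.g (nat_lit 3124) (.e (nat_lit 57400) (nat_lit 10) (.e (nat_lit 319531) (nat_lit 16) (.e (nat_lit 286761) (nat_lit 13) (.e (nat_lit 393281) (nat_lit 23) (.e (nat_lit 426100) (nat_lit 1) (.e (nat_lit 164398) (nat_lit 256) .nil)))))) (.g (nat_lit 6) .nil .nil))))) (.nd (nat_lit 5) (.nd (nat_lit 6) 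
(.lf (nat_lit 152472) (.g (nat_lit 1550) (.e (nat_lit 57400) (nat_lit 10) (.e (nat_lit 319530) (nat_lit 16) (.e (nat_lit 286761) (nat_lit 13) (.e (nat_lit 393283) (nat_lit 24) .nil)))) .nil)) 
(.lf (nat_lit 152536) (.g (nat_lit 1243) (.e (nat_lit 57400) (nat_lit 10) (.e (nat_lit 319531) (nat_lit 16) (.e (nat_lit 286761) (nat_lit 13) (.e (nat_lit 393270) (nat_lit 23) .nil)))) .nil))) (.nd (nat_lit 6) 
(.lf (nat_lit 152504) (.g (nat_lit 356) (.e (nat_lit 57400) (nat_lit 10) (.e (nat_lit 319531) (nat_lit 16) (.e (nat_lit 286761) (nat_lit 13) .nil))) .nil)) 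
(.lf (nat_lit 152568) (.g (nat_lit 1644) (.e (nat_lit 57400) (nat_lit 10) (.e (nat_lit 319531) (nat_lit 16) (.e (nat_lit 286761) (nat_lit 13) (.e (nat_lit 393289) (nat_lit 25) (.e (nat_lit 458774) (nat_lit 18) (.e (nat_lit 5936) (nat_lit 322) .nil)))))) (.g (nat_lit 4) .nil .nil))))))) (.nd (nat_lit 3) (.nd (nat_lit 4) (.nd (nat_lit 5) (.nd (nat_lit 6) 
(.lf (nat_lit 152452) (.g (nat_lit 2532) (.e (nat_lit 57400) (nat_lit 10) (.e (nat_lit 319530) (nat_lit 16) (.e (nat_lit 286761) (nat_lit 13) (.e (nat_lit 393234) (nat_lit 17) (.e (nat_lit 7391) (nat_lit 394) .nil))))) .nil)) 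
(.lf (nat_lit 152516) (.g (nat_lit 2898) (.e (nat_lit 57400) (nat_lit 10) (.e (nat_lit 319531) (nat_lit 16) (.e (nat_lit 286761) (nat_lit 13) (.e (nat_lit 393234) (nat_lit 17) (.e (nat_lit 7065) (nat_lit 377) (.e (nat_lit 1116) (nat_lit 82) (.e (nat_lit 8443) (nat_lit 140) .nil))))))) (.g (nat_lit 5) .nil .nil)))) (.nd (nat_lit 6) 
(.lf (nat_lit 152484) (.g (nat_lit 1607) (.e (nat_lit 57400) (nat_lit 10) (.e (nat_lit 319530) (nat_lit 16) (.e (nat_lit 286761) (nat_lit 13) (.e (nat_lit 393289) (nat_lit 25) (.e (nat_lit 458774) (nat_lit 18) .nil))))) .nil)) 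
(.lf (nat_lit 152548) (.g (nat_lit 1736) (.e (nat_lit 57400) (nat_lit 10) (.e (nat_lit 319531) (nat_lit 16) (.e (nat_lit 286761) (nat_lit 13) (.e (nat_lit 393279) (nat_lit 23) .nil)))) .nil)))) (.nd (nat_lit 5) (.nd (nat_lit 6) 
(.lf (nat_lit 152468) (.g (nat_lit 1934) (.e (nat_lit 57400) (nat_lit 10) (.e (nat_lit 319530) (nat_lit 16) (.e (nat_lit 286761) (nat_lit 13) (.e (nat_lit 393275) (nat_lit 23) (.e (nat_lit 426144) (nat_lit 4) .nil))))) .nil)) 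
(.lf (nat_lit 152532) (.g (nat_lit 2333) (.e (nat_lit 57400) (nat_lit 10) (.e (nat_lit 319531) (nat_lit 16) (.e (nat_lit 286761) (nat_lit 13) (.e (nat_lit 393266) (nat_lit 23) (.e (nat_lit 426109) (nat_lit 1) (.e (nat_lit 164402) (nat_lit 256) .nil)))))) (.g (nat_lit 4) .nil .nil)))) (.nd (nat_lit 6) 
(.lf (nat_lit 152500) (.g (nat_lit 4290) (.e (nat_lit 57400) (nat_lit 10) (.e (nat_lit 319531) (nat_lit 16) (.e (nat_lit 286748) (nat_lit 9) (.e (nat_lit 336389) (nat_lit 27) (.e (nat_lit 426265) (nat_lit 9) (.e (nat_lit 426100) (nat_lit 1) (.e (nat_lit 164403) (nat_lit 256) .nil))))))) (.g (nat_lit 0) .nil .nil))) 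
(.lf (nat_lit 152564) (.g (nat_lit 1014) (.e (nat_lit 57400) (nat_lit 10) (.e (nat_lit 319531) (nat_lit 16) (.e (nat_lit 286761) (nat_lit 13) (.e (nat_lit 393289) (nat_lit 25) .nil)))) .nil))))) (.nd (nat_lit 4) (.nd (nat_lit 5) (.nd (nat_lit 6) 
(.lf (nat_lit 152460) (.g (nat_lit 1341) (.e (nat_lit 57400) (nat_lit 10) (.e (nat_lit 319530) (nat_lit 16) (.e (nat_lit 286761) (nat_lit 13) (.e (nat_lit 393270) (nat_lit 23) .nil)))) .nil)) 
(.lf (nat_lit 152524) (.g (nat_lit 2810) (.e (nat_lit 57400) (nat_lit 10) (.e (nat_lit 319531) (nat_lit 16) (.e (nat_lit 286761) (nat_lit 13) (.e (nat_lit 393234) (nat_lit 17) (.e (nat_lit 7364) (nat_lit 388) (.e (nat_lit 2611) (nat_lit 163) (.e (nat_lit 164402) (nat_lit 256) .nil))))))) (.g (nat_lit 4) .nil .nil)))) (.nd (nat_lit 6) 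
(.lf (nat_lit 152492) (.g (nat_lit 3017) (.e (nat_lit 57400) (nat_lit 10) (.e (nat_lit 319531) (nat_lit 16) (.e (nat_lit 286743) (nat_lit 9) (.e (nat_lit 336443) (nat_lit 32) (.e (nat_lit 466972) (nat_lit 21) (.e (nat_lit 164403) (nat_lit 256) .nil)))))) (.g (nat_lit 5) .nil .nil))) 
(.lf (nat_lit 152556) (.g (nat_lit 2157) (.e (nat_lit 57400) (nat_lit 10) (.e (nat_lit 319531) (nat_lit 16) (.e (nat_lit 286761) (nat_lit 13) (.e (nat_lit 393283) (nat_lit 24) (.e (nat_lit 434204) (nat_lit 18) .nil))))) .nil)))) (.nd (nat_lit 5) (.nd (nat_lit 6) 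
(.lf (nat_lit 152476) (.g (nat_lit 2303) (.e (nat_lit 57400) (nat_lit 10) (.e (nat_lit 319530) (nat_lit 16) (.e (nat_lit 286761) (nat_lit 13) (.e (nat_lit 393284) (nat_lit 24) (.e (nat_lit 434200) (nat_lit 18) .nil))))) .nil)) 
(.lf (nat_lit 152540) (.g (nat_lit 1781) (.e (nat_lit 57400) (nat_lit 10) (.e (nat_lit 319531) (nat_lit 16) (.e (nat_lit 286761) (nat_lit 13) (.e (nat_lit 393270) (nat_lit 23) (.e (nat_lit 426111) (nat_lit 1) (.e (nat_lit 164400) (nat_lit 256) .nil)))))) (.g (nat_lit 4) .nil .nil)))) (.nd (nat_lit 6) 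
(.lf (nat_lit 152508) (.g (nat_lit 2656) (.e (nat_lit 57400) (nat_lit 10) (.e (nat_lit 319531) (nat_lit 16) (.e (nat_lit 286761) (nat_lit 13) (.e (nat_lit 393234) (nat_lit 17) (.e (nat_lit 7065) (nat_lit 377) (.e (nat_lit 1033) (nat_lit 81) (.e (nat_lit 65) (nat_lit 0) (.e (nat_lit 5948) (nat_lit 322) .nil)))))))) (.g (nat_lit 5) .nil .nil))) 
(.lf (nat_lit 152572) (.g (nat_lit 1728) (.e (nat_lit 57400) (nat_lit 10) (.e (nat_lit 319532) (nat_lit 16) (.e (nat_lit 286743) (nat_lit 9) (.e (nat_lit 336432) (nat_lit 30) (.e (nat_lit 450569) (nat_lit 0) (.e (nat_lit 5946) (nat_lit 322) .nil)))))) (.g (nat_lit 4) .nil .nil)))))))) (.nd (nat_lit 2) (.nd (nat_lit 3) (.nd (nat_lit 4) (.nd (nat_lit 5) (.nd (nat_lit 6) 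
(.lf (nat_lit 152450) (.g (nat_lit 2789) (.e (nat_lit 57400) (nat_lit 10) (.e (nat_lit 319530) (nat_lit 16) (.e (nat_lit 286761) (nat_lit 13) (.e (nat_lit 393234) (nat_lit 17) (.e (nat_lit 7341) (nat_lit 388) (.e (nat_lit 2608) (nat_lit 163) (.e (nat_lit 164403) (nat_lit 256) .nil))))))) (.g (nat_lit 4) .nil .nil))) 
(.lf (nat_lit 152514) (.g (nat_lit 2720) (.e (nat_lit 57400) (nat_lit 10) (.e (nat_lit 319531) (nat_lit 16) (.e (nat_lit 286761) (nat_lit 13) (.e (nat_lit 393234) (nat_lit 17) (.e (nat_lit 7065) (nat_lit 377) (.e (nat_lit 1115) (nat_lit 82) (.e (nat_lit 8444) (nat_lit 140) .nil))))))) (.g (nat_lit 5) .nil .nil)))) (.nd (nat_lit 6) 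
(.lf (nat_lit 152482) (.g (nat_lit 2007) (.e (nat_lit 57400) (nat_lit 10) (.e (nat_lit 319530) (nat_lit 16) (.e (nat_lit 286761) (nat_lit 13) (.e (nat_lit 393289) (nat_lit 25) (.e (nat_lit 458771) (nat_lit 18) (.e (nat_lit 5953) (nat_lit 322) .nil)))))) (.g (nat_lit 4) .nil .nil))) 
(.lf (nat_lit 152546) (.g (nat_lit 1787) (.e (nat_lit 57400) (nat_lit 10) (.e (nat_lit 319531) (nat_lit 16) (.e (nat_lit 286761) (nat_lit 13) (.e (nat_lit 393275) (nat_lit 23) (.e (nat_lit 426144) (nat_lit 4) .nil))))) .nil)))) (.nd (nat_lit 5) (.nd (nat_lit 6) 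
(.lf (nat_lit 152466) (.g (nat_lit 1964) (.e (nat_lit 57400) (nat_lit 10) (.e (nat_lit 319530) (nat_lit 16) (.e (nat_lit 286761) (nat_lit 13) (.e (nat_lit 393275) (nat_lit 23) (.e (nat_lit 426103) (nat_lit 1) .nil))))) .nil)) 
(.lf (nat_lit 152530) (.g (nat_lit 1710) (.e (nat_lit 57400) (nat_lit 10) (.e (nat_lit 319531) (nat_lit 16) (.e (nat_lit 286761) (nat_lit 13) (.e (nat_lit 393265) (nat_lit 22) (.e (nat_lit 417804) (nat_lit 1) .nil))))) .nil))) (.nd (nat_lit 6) 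
(.lf (nat_lit 152498) (.g (nat_lit 3818) (.e (nat_lit 57400) (nat_lit 10) (.e (nat_lit 319531) (nat_lit 16) (.e (nat_lit 286748) (nat_lit 9) (.e (nat_lit 336389) (nat_lit 27) (.e (nat_lit 426265) (nat_lit 9) (.e (nat_lit 426100) (nat_lit 1) (.e (nat_lit 164398) (nat_lit 256) .nil))))))) (.g (nat_lit 7) .nil .nil))) 
(.lf (nat_lit 152562) (.g (nat_lit 1552) (.e (nat_lit 57400) (nat_lit 10) (.e (nat_lit 319531) (nat_lit 16) (.e (nat_lit 286761) (nat_lit 13) (.e (nat_lit 393288) (nat_lit 25) .nil)))) .nil))))) (.nd (nat_lit 4) (.nd (nat_lit 5) (.nd (nat_lit 6) 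
(.lf (nat_lit 152458) (.g (nat_lit 1722) (.e (nat_lit 57400) (nat_lit 10) (.e (nat_lit 319530) (nat_lit 16) (.e (nat_lit 286761) (nat_lit 13) (.e (nat_lit 393267) (nat_lit 23) .nil)))) .nil)) 
(.lf (nat_lit 152522) (.g (nat_lit 2758) (.e (nat_lit 57400) (nat_lit 10) (.e (nat_lit 319531) (nat_lit 16) (.e (nat_lit 286761) (nat_lit 13) (.e (nat_lit 393234) (nat_lit 17) (.e (nat_lit 7343) (nat_lit 388) .nil))))) .nil))) (.nd (nat_lit 6) 
(.lf (nat_lit 152490) (.g (nat_lit 1093) (.e (nat_lit 57400) (nat_lit 10) (.e (nat_lit 319531) (nat_lit 16) (.e (nat_lit 286743) (nat_lit 9) (.e (nat_lit 336433) (nat_lit 30) (.e (nat_lit 450569) (nat_lit 0) .nil))))) .nil)) 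
(.lf (nat_lit 152554) (.g (nat_lit 1946) (.e (nat_lit 57400) (nat_lit 10) (.e (nat_lit 319531) (nat_lit 16) (.e (nat_lit 286761) (nat_lit 13) (.e (nat_lit 393282) (nat_lit 24) (.e (nat_lit 434209) (nat_lit 18) .nil))))) .nil)))) (.nd (nat_lit 5) (.nd (nat_lit 6) 
(.lf (nat_lit 152474) (.g (nat_lit 2119) (.e (nat_lit 57400) (nat_lit 10) (.e (nat_lit 319530) (nat_lit 16) (.e (nat_lit 286761) (nat_lit 13) (.e (nat_lit 393283) (nat_lit 24) (.e (nat_lit 434208) (nat_lit 18) .nil))))) .nil)) 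
(.lf (nat_lit 152538) (.g (nat_lit 2003) (.e (nat_lit 57400) (nat_lit 10) (.e (nat_lit 319531) (nat_lit 16) (.e (nat_lit 286761) (nat_lit 13) (.e (nat_lit 393270) (nat_lit 23) (.e (nat_lit 426002) (nat_lit 0) .nil))))) .nil))) (.nd (nat_lit 6) 
(.lf (nat_lit 152506) (.g (nat_lit 2615) (.e (nat_lit 57400) (nat_lit 10) (.e (nat_lit 319531) (nat_lit 16) (.e (nat_lit 286761) (nat_lit 13) (.e (nat_lit 393234) (nat_lit 17) (.e (nat_lit 6951) (nat_lit 377) (.e (nat_lit 1120) (nat_lit 82) (.e (nat_lit 8443) (nat_lit 140) .nil))))))) (.g (nat_lit 4) .nil .nil))) 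
(.lf (nat_lit 152570) (.g (nat_lit 1732) (.e (nat_lit 57400) (nat_lit 10) (.e (nat_lit 319531) (nat_lit 16) (.e (nat_lit 286761) (nat_lit 13) (.e (nat_lit 393289) (nat_lit 25) (.e (nat_lit 458776) (nat_lit 18) (.e (nat_lit 5948) (nat_lit 322) .nil)))))) (.g (nat_lit 4) .nil .nil))))))) (.nd (nat_lit 3) (.nd (nat_lit 4) (.nd (nat_lit 5) (.nd (nat_lit 6) 
(.lf (nat_lit 152454) (.g (nat_lit 1073) (.e (nat_lit 57400) (nat_lit 10) (.e (nat_lit 319530) (nat_lit 16) (.e (nat_lit 286761) (nat_lit 13) (.e (nat_lit 393265) (nat_lit 22) .nil)))) .nil)) 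
(.lf (nat_lit 152518) (.g (nat_lit 1848) (.e (nat_lit 57400) (nat_lit 10) (.e (nat_lit 319531) (nat_lit 16) (.e (nat_lit 286761) (nat_lit 13) (.e (nat_lit 393234) (nat_lit 17) (.e (nat_lit 7065) (nat_lit 377) (.e (nat_lit 1116) (nat_lit 82) (.e (nat_lit 8446) (nat_lit 140) .nil))))))) (.g (nat_lit 4) .nil .nil)))) (.nd (nat_lit 6) 
(.lf (nat_lit 152486) (.g (nat_lit 4628) (.e (nat_lit 57400) (nat_lit 10) (.e (nat_lit 319531) (nat_lit 16) (.e (nat_lit 286735) (nat_lit 3) (.e (nat_lit 98373) (nat_lit 29) (.e (nat_lit 450562) (nat_lit 0) (.e (nat_lit 7936) (nat_lit 235) .nil)))))) (.g (nat_lit 5) .nil .nil))) 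
(.lf (nat_lit 152550) (.g (nat_lit 1960) (.e (nat_lit 57400) (nat_lit 10) (.e (nat_lit 319531) (nat_lit 16) (.e (nat_lit 286761) (nat_lit 13) (.e (nat_lit 393281) (nat_lit 23) (.e (nat_lit 426099) (nat_lit 1) .nil))))) .nil)))) (.nd (nat_lit 5) (.nd (nat_lit 6) 
(.lf (nat_lit 152470) (.g (nat_lit 1547) (.e (nat_lit 57400) (nat_lit 10) (.e (nat_lit 319530) (nat_lit 16) (.e (nat_lit 286761) (nat_lit 13) (.e (nat_lit 393281) (nat_lit 23) .nil)))) .nil)) 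
(.lf (nat_lit 152534) (.g (nat_lit 1742) (.e (nat_lit 57400) (nat_lit 10) (.e (nat_lit 319531) (nat_lit 16) (.e (nat_lit 286761) (nat_lit 13) (.e (nat_lit 393267) (nat_lit 23) .nil)))) .nil))) (.nd (nat_lit 6) 
(.lf (nat_lit 152502) (.g (nat_lit 2324) (.e (nat_lit 57400) (nat_lit 10) (.e (nat_lit 319531) (nat_lit 16) (.e (nat_lit 286748) (nat_lit 9) (.e (nat_lit 336389) (nat_lit 27) (.e (nat_lit 426300) (nat_lit 11) (.e (nat_lit 458774) (nat_lit 18) (.e (nat_lit 5939) (nat_lit 322) .nil))))))) (.g (nat_lit 4) .nil .nil))) 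
(.lf (nat_lit 152566) (.g (nat_lit 2006) (.e (nat_lit 57400) (nat_lit 10) (.e (nat_lit 319531) (nat_lit 16) (.e (nat_lit 286761) (nat_lit 13) (.e (nat_lit 393289) (nat_lit 25) (.e (nat_lit 458771) (nat_lit 18) (.e (nat_lit 5953) (nat_lit 322) .nil)))))) (.g (nat_lit 4) .nil .nil)))))) (.nd (nat_lit 4) (.nd (nat_lit 5) (.nd (nat_lit 6) 
(.lf (nat_lit 152462) (.g (nat_lit 1962) (.e (nat_lit 57400) (nat_lit 10) (.e (nat_lit 319530) (nat_lit 16) (.e (nat_lit 286761) (nat_lit 13) (.e (nat_lit 393270) (nat_lit 23) (.e (nat_lit 426111) (nat_lit 1) (.e (nat_lit 164402) (nat_lit 256) .nil)))))) (.g (nat_lit 4) .nil .nil))) 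
(.lf (nat_lit 152526) (.g (nat_lit 1111) (.e (nat_lit 57400) (nat_lit 10) (.e (nat_lit 319531) (nat_lit 16) (.e (nat_lit 286761) (nat_lit 13) (.e (nat_lit 393264) (nat_lit 22) .nil)))) .nil))) (.nd (nat_lit 6) 
(.lf (nat_lit 152494) (.g (nat_lit 3072) (.e (nat_lit 57400) (nat_lit 10) (.e (nat_lit 319531) (nat_lit 16) (.e (nat_lit 286743) (nat_lit 9) (.e (nat_lit 336444) (nat_lit 32) (.e (nat_lit 466971) (nat_lit 21) (.e (nat_lit 164403) (nat_lit 256) .nil)))))) (.g (nat_lit 6) .nil .nil))) 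
(.lf (nat_lit 152558) (.g (nat_lit 1434) (.e (nat_lit 57400) (nat_lit 10) (.e (nat_lit 319531) (nat_lit 16) (.e (nat_lit 286761) (nat_lit 13) (.e (nat_lit 393284) (nat_lit 24) .nil)))) .nil)))) (.nd (nat_lit 5) (.nd (nat_lit 6) 
(.lf (nat_lit 152478) (.g (nat_lit 2920) (.e (nat_lit 57400) (nat_lit 10) (.e (nat_lit 319530) (nat_lit 16) (.e (nat_lit 286761) (nat_lit 13) (.e (nat_lit 393288) (nat_lit 25) (.e (nat_lit 458774) (nat_lit 18) (.e (nat_lit 5951) (nat_lit 322) .nil)))))) (.g (nat_lit 5) .nil .nil))) 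
(.lf (nat_lit 152542) (.g (nat_lit 2344) (.e (nat_lit 57400) (nat_lit 10) (.e (nat_lit 319531) (nat_lit 16) (.e (nat_lit 286761) (nat_lit 13) (.e (nat_lit 393270) (nat_lit 23) (.e (nat_lit 426112) (nat_lit 1) (.e (nat_lit 164396) (nat_lit 256) .nil)))))) (.g (nat_lit 4) .nil .nil)))) (.nd (nat_lit 6) 
(.lf (nat_lit 152510) (.g (nat_lit 2204) (.e (nat_lit 57400) (nat_lit 10) (.e (nat_lit 319531) (nat_lit 16) (.e (nat_lit 286761) (nat_lit 13) (.e (nat_lit 393234) (nat_lit 17) (.e (nat_lit 7065) (nat_lit 377) (.e (nat_lit 1112) (nat_lit 82) (.e (nat_lit 8442) (nat_lit 140) .nil))))))) (.g (nat_lit 4) .nil .nil))) 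
(.lf (nat_lit 152574) (.g (nat_lit 3154) (.e (nat_lit 57400) (nat_lit 10) (.e (nat_lit 319532) (nat_lit 16) (.e (nat_lit 286743) (nat_lit 9) (.e (nat_lit 336443) (nat_lit 32) (.e (nat_lit 466972) (nat_lit 21) (.e (nat_lit 164402) (nat_lit 256) .nil)))))) (.g (nat_lit 6) .nil .nil))))))))) (.nd (nat_lit 1) (.nd (nat_lit 2) (.nd (nat_lit 3) (.nd (nat_lit 4) (.nd (nat_lit 5) (.nd (nat_lit 6) 
(.lf (nat_lit 152449) (.g (nat_lit 2558) (.e (nat_lit 57400) (nat_lit 10) (.e (nat_lit 319530) (nat_lit 16) (.e (nat_lit 286761) (nat_lit 13) (.e (nat_lit 393234) (nat_lit 17) (.e (nat_lit 7324) (nat_lit 388) .nil))))) .nil)) 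
(.lf (nat_lit 152513) (.g (nat_lit 2440) (.e (nat_lit 57400) (nat_lit 10) (.e (nat_lit 319531) (nat_lit 16) (.e (nat_lit 286761) (nat_lit 13) (.e (nat_lit 393234) (nat_lit 17) (.e (nat_lit 7065) (nat_lit 377) (.e (nat_lit 1115) (nat_lit 82) (.e (nat_lit 8442) (nat_lit 140) .nil))))))) (.g (nat_lit 5) .nil .nil)))) (.nd (nat_lit 6) 
(.lf (nat_lit 152481) (.g (nat_lit 1994) (.e (nat_lit 57400) (nat_lit 10) (.e (nat_lit 319530) (nat_lit 16) (.e (nat_lit 286761) (nat_lit 13) (.e (nat_lit 393289) (nat_lit 25) (.e (nat_lit 458771) (nat_lit 18) (.e (nat_lit 5951) (nat_lit 322) .nil)))))) (.g (nat_lit 4) .nil .nil))) 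
(.lf (nat_lit 152545) (.g (nat_lit 2477) (.e (nat_lit 57400) (nat_lit 10) (.e (nat_lit 319531) (nat_lit 16) (.e (nat_lit 286761) (nat_lit 13) (.e (nat_lit 393275) (nat_lit 23) (.e (nat_lit 426109) (nat_lit 1) (.e (nat_lit 164402) (nat_lit 256) .nil)))))) (.g (nat_lit 5) .nil .nil))))) (.nd (nat_lit 5) (.nd (nat_lit 6) 
(.lf (nat_lit 152465) (.g (nat_lit 1638) (.e (nat_lit 57400) (nat_lit 10) (.e (nat_lit 319530) (nat_lit 16) (.e (nat_lit 286761) (nat_lit 13) (.e (nat_lit 393275) (nat_lit 23) .nil)))) .nil)) 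
(.lf (nat_lit 152529) (.g (nat_lit 2359) (.e (nat_lit 57400) (nat_lit 10) (.e (nat_lit 319531) (nat_lit 16) (.e (nat_lit 286761) (nat_lit 13) (.e (nat_lit 393265) (nat_lit 22) (.e (nat_lit 417793) (nat_lit 0) (.e (nat_lit 52) (nat_lit 0) (.e (nat_lit 5949) (nat_lit 322) .nil))))))) (.g (nat_lit 4) .nil .nil)))) (.nd (nat_lit 6) 
(.lf (nat_lit 152497) (.g (nat_lit 1857) (.e (nat_lit 57400) (nat_lit 10) (.e (nat_lit 319531) (nat_lit 16) (.e (nat_lit 286748) (nat_lit 9) (.e (nat_lit 336389) (nat_lit 27) (.e (nat_lit 426265) (nat_lit 9) .nil))))) .nil)) 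
(.lf (nat_lit 152561) (.g (nat_lit 1748) (.e (nat_lit 57400) (nat_lit 10) (.e (nat_lit 319531) (nat_lit 16) (.e (nat_lit 286761) (nat_lit 13) (.e (nat_lit 393287) (nat_lit 25) .nil)))) .nil))))) (.nd (nat_lit 4) (.nd (nat_lit 5) (.nd (nat_lit 6) 
(.lf (nat_lit 152457) (.g (nat_lit 2017) (.e (nat_lit 57400) (nat_lit 10) (.e (nat_lit 319530) (nat_lit 16) (.e (nat_lit 286761) (nat_lit 13) (.e (nat_lit 393266) (nat_lit 23) (.e (nat_lit 426109) (nat_lit 1) .nil))))) .nil)) 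
(.lf (nat_lit 152521) (.g (nat_lit 3169) (.e (nat_lit 57400) (nat_lit 10) (.e (nat_lit 319531) (nat_lit 16) (.e (nat_lit 286761) (nat_lit 13) (.e (nat_lit 393234) (nat_lit 17) (.e (nat_lit 7341) (nat_lit 388) (.e (nat_lit 2608) (nat_lit 163) (.e (nat_lit 164403) (nat_lit 256) .nil))))))) (.g (nat_lit 4) .nil .nil)))) (.nd (nat_lit 6) 
(.lf (nat_lit 152489) (.g (nat_lit 932) (.e (nat_lit 57400) (nat_lit 10) (.e (nat_lit 319531) (nat_lit 16) (.e (nat_lit 286743) (nat_lit 9) (.e (nat_lit 336433) (nat_lit 30) .nil)))) .nil)) 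
(.lf (nat_lit 152553) (.g (nat_lit 1461) (.e (nat_lit 57400) (nat_lit 10) (.e (nat_lit 319531) (nat_lit 16) (.e (nat_lit 286761) (nat_lit 13) (.e (nat_lit 393282) (nat_lit 24) .nil)))) .nil)))) (.nd (nat_lit 5) (.nd (nat_lit 6) 
(.lf (nat_lit 152473) (.g (nat_lit 2027) (.e (nat_lit 57400) (nat_lit 10) (.e (nat_lit 319530) (nat_lit 16) (.e (nat_lit 286761) (nat_lit 13) (.e (nat_lit 393283) (nat_lit 24) (.e (nat_lit 434200) (nat_lit 18) .nil))))) .nil)) 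
(.lf (nat_lit 152537) (.g (nat_lit 2003) (.e (nat_lit 57400) (nat_lit 10) (.e (nat_lit 319531) (nat_lit 16) (.e (nat_lit 286761) (nat_lit 13) (.e (nat_lit 393270) (nat_lit 23) (.e (nat_lit 425994) (nat_lit 0) .nil))))) .nil))) (.nd (nat_lit 6) 
(.lf (nat_lit 152505) (.g (nat_lit 753) (.e (nat_lit 57400) (nat_lit 10) (.e (nat_lit 319531) (nat_lit 16) (.e (nat_lit 286761) (nat_lit 13) (.e (nat_lit 393234) (nat_lit 17) .nil)))) .nil)) 
(.lf (nat_lit 152569) (.g (nat_lit 1517) (.e (nat_lit 57400) (nat_lit 10) (.e (nat_lit 319531) (nat_lit 16) (.e (nat_lit 286761) (nat_lit 13) (.e (nat_lit 393289) (nat_lit 25) (.e (nat_lit 458776) (nat_lit 18) .nil))))) .nil)))))) (.nd (nat_lit 3) (.nd (nat_lit 4) (.nd (nat_lit 5) (.nd (nat_lit 6) 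
(.lf (nat_lit 152453) (.g (nat_lit 1215) (.e (nat_lit 57400) (nat_lit 10) (.e (nat_lit 319530) (nat_lit 16) (.e (nat_lit 286761) (nat_lit 13) (.e (nat_lit 393264) (nat_lit 22) .nil)))) .nil)) 
(.lf (nat_lit 152517) (.g (nat_lit 1918) (.e (nat_lit 57400) (nat_lit 10) (.e (nat_lit 319531) (nat_lit 16) (.e (nat_lit 286761) (nat_lit 13) (.e (nat_lit 393234) (nat_lit 17) (.e (nat_lit 7065) (nat_lit 377) (.e (nat_lit 1116) (nat_lit 82) (.e (nat_lit 8444) (nat_lit 140) .nil))))))) (.g (nat_lit 4) .nil .nil)))) (.nd (nat_lit 6) 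
(.lf (nat_lit 152485) (.g (nat_lit 1667) (.e (nat_lit 57400) (nat_lit 10) (.e (nat_lit 319530) (nat_lit 16) (.e (nat_lit 286761) (nat_lit 13) (.e (nat_lit 393289) (nat_lit 25) (.e (nat_lit 466688) (nat_lit 18) .nil))))) .nil)) 
(.lf (nat_lit 152549) (.g (nat_lit 1748) (.e (nat_lit 57400) (nat_lit 10) (.e (nat_lit 319531) (nat_lit 16) (.e (nat_lit 286761) (nat_lit 13) (.e (nat_lit 393280) (nat_lit 23) .nil)))) .nil)))) (.nd (nat_lit 5) (.nd (nat_lit 6) 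
(.lf (nat_lit 152469) (.g (nat_lit 1728) (.e (nat_lit 57400) (nat_lit 10) (.e (nat_lit 319530) (nat_lit 16) (.e (nat_lit 286761) (nat_lit 13) (.e (nat_lit 393279) (nat_lit 23) .nil)))) .nil)) 
(.lf (nat_lit 152533) (.g (nat_lit 2328) (.e (nat_lit 57400) (nat_lit 10) (.e (nat_lit 319531) (nat_lit 16) (.e (nat_lit 286761) (nat_lit 13) (.e (nat_lit 393266) (nat_lit 23) (.e (nat_lit 426109) (nat_lit 1) (.e (nat_lit 164403) (nat_lit 256) .nil)))))) (.g (nat_lit 4) .nil .nil)))) (.nd (nat_lit 6) 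
(.lf (nat_lit 152501) (.g (nat_lit 1893) (.e (nat_lit 57400) (nat_lit 10) (.e (nat_lit 319531) (nat_lit 16) (.e (nat_lit 286748) (nat_lit 9) (.e (nat_lit 336389) (nat_lit 27) (.e (nat_lit 426300) (nat_lit 11) .nil))))) .nil)) 
(.lf (nat_lit 152565) (.g (nat_lit 1939) (.e (nat_lit 57400) (nat_lit 10) (.e (nat_lit 319531) (nat_lit 16) (.e (nat_lit 286761) (nat_lit 13) (.e (nat_lit 393289) (nat_lit 25) (.e (nat_lit 458771) (nat_lit 18) (.e (nat_lit 5951) (nat_lit 322) .nil)))))) (.g (nat_lit 4) .nil .nil)))))) (.nd (nat_lit 4) (.nd (nat_lit 5) (.nd (nat_lit 6) 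
(.lf (nat_lit 152461) (.g (nat_lit 2155) (.e (nat_lit 57400) (nat_lit 10) (.e (nat_lit 319530) (nat_lit 16) (.e (nat_lit 286761) (nat_lit 13) (.e (nat_lit 393270) (nat_lit 23) (.e (nat_lit 426111) (nat_lit 1) (.e (nat_lit 164398) (nat_lit 256) .nil)))))) (.g (nat_lit 4) .nil .nil))) 
(.lf (nat_lit 152525) (.g (nat_lit 2733) (.e (nat_lit 57400) (nat_lit 10) (.e (nat_lit 319531) (nat_lit 16) (.e (nat_lit 286761) (nat_lit 13) (.e (nat_lit 393234) (nat_lit 17) (.e (nat_lit 7391) (nat_lit 394) .nil))))) .nil))) (.nd (nat_lit 6) 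
(.lf (nat_lit 152493) (.g (nat_lit 1213) (.e (nat_lit 57400) (nat_lit 10) (.e (nat_lit 319531) (nat_lit 16) (.e (nat_lit 286743) (nat_lit 9) (.e (nat_lit 336444) (nat_lit 32) (.e (nat_lit 466971) (nat_lit 21) .nil))))) .nil)) 
(.lf (nat_lit 152557) (.g (nat_lit 2123) (.e (nat_lit 57400) (nat_lit 10) (.e (nat_lit 319531) (nat_lit 16) (.e (nat_lit 286761) (nat_lit 13) (.e (nat_lit 393283) (nat_lit 24) (.e (nat_lit 434208) (nat_lit 18) .nil))))) .nil)))) (.nd (nat_lit 5) (.nd (nat_lit 6) 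
(.lf (nat_lit 152477) (.g (nat_lit 1653) (.e (nat_lit 57400) (nat_lit 10) (.e (nat_lit 319530) (nat_lit 16) (.e (nat_lit 286761) (nat_lit 13) (.e (nat_lit 393288) (nat_lit 25) .nil)))) .nil)) 
(.lf (nat_lit 152541) (.g (nat_lit 1887) (.e (nat_lit 57400) (nat_lit 10) (.e (nat_lit 319531) (nat_lit 16) (.e (nat_lit 286761) (nat_lit 13) (.e (nat_lit 393270) (nat_lit 23) (.e (nat_lit 426112) (nat_lit 1) .nil))))) .nil))) (.nd (nat_lit 6) 
(.lf (nat_lit 152509) (.g (nat_lit 1911) (.e (nat_lit 57400) (nat_lit 10) (.e (nat_lit 319531) (nat_lit 16) (.e (nat_lit 286761) (nat_lit 13) (.e (nat_lit 393234) (nat_lit 17) (.e (nat_lit 7065) (nat_lit 377) (.e (nat_lit 1033) (nat_lit 81) (.e (nat_lit 65) (nat_lit 0) (.e (nat_lit 5949) (nat_lit 322) .nil)))))))) (.g (nat_lit 4) .nil .nil))) 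
(.lf (nat_lit 152573) (.g (nat_lit 894) (.e (nat_lit 57400) (nat_lit 10) (.e (nat_lit 319532) (nat_lit 16) (.e (nat_lit 286743) (nat_lit 9) (.e (nat_lit 336433) (nat_lit 30) .nil)))) .nil))))))) (.nd (nat_lit 2) (.nd (nat_lit 3) (.nd (nat_lit 4) (.nd (nat_lit 5) (.nd (nat_lit 6) 
(.lf (nat_lit 152451) (.g (nat_lit 2528) (.e (nat_lit 57400) (nat_lit 10) (.e (nat_lit 319530) (nat_lit 16) (.e (nat_lit 286761) (nat_lit 13) (.e (nat_lit 393234) (nat_lit 17) (.e (nat_lit 7364) (nat_lit 388) .nil))))) .nil)) 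
(.lf (nat_lit 152515) (.g (nat_lit 2564) (.e (nat_lit 57400) (nat_lit 10) (.e (nat_lit 319531) (nat_lit 16) (.e (nat_lit 286761) (nat_lit 13) (.e (nat_lit 393234) (nat_lit 17) (.e (nat_lit 7065) (nat_lit 377) (.e (nat_lit 1115) (nat_lit 82) (.e (nat_lit 8445) (nat_lit 140) .nil))))))) (.g (nat_lit 5) .nil .nil)))) (.nd (nat_lit 6) 
(.lf (nat_lit 152483) (.g (nat_lit 2295) (.e (nat_lit 57400) (nat_lit 10) (.e (nat_lit 319530) (nat_lit 16) (.e (nat_lit 286761) (nat_lit 13) (.e (nat_lit 393289) (nat_lit 25) (.e (nat_lit 458771) (nat_lit 18) (.e (nat_lit 5954) (nat_lit 322) .nil)))))) (.g (nat_lit 4) .nil .nil))) 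
(.lf (nat_lit 152547) (.g (nat_lit 1748) (.e (nat_lit 57400) (nat_lit 10) (.e (nat_lit 319531) (nat_lit 16) (.e (nat_lit 286761) (nat_lit 13) (.e (nat_lit 393277) (nat_lit 23) .nil)))) .nil)))) (.nd (nat_lit 5) (.nd (nat_lit 6) 
(.lf (nat_lit 152467) (.g (nat_lit 2661) (.e (nat_lit 57400) (nat_lit 10) (.e (nat_lit 319530) (nat_lit 16) (.e (nat_lit 286761) (nat_lit 13) (.e (nat_lit 393275) (nat_lit 23) (.e (nat_lit 426109) (nat_lit 1) (.e (nat_lit 164402) (nat_lit 256) .nil)))))) (.g (nat_lit 5) .nil .nil))) 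
(.lf (nat_lit 152531) (.g (nat_lit 1748) (.e (nat_lit 57400) (nat_lit 10) (.e (nat_lit 319531) (nat_lit 16) (.e (nat_lit 286761) (nat_lit 13) (.e (nat_lit 393266) (nat_lit 23) .nil)))) .nil))) (.nd (nat_lit 6) 
(.lf (nat_lit 152499) (.g (nat_lit 1987) (.e (nat_lit 57400) (nat_lit 10) (.e (nat_lit 319531) (nat_lit 16) (.e (nat_lit 286748) (nat_lit 9) (.e (nat_lit 336389) (nat_lit 27) (.e (nat_lit 426265) (nat_lit 9) (.e (nat_lit 426100) (nat_lit 1) (.e (nat_lit 164399) (nat_lit 256) .nil))))))) (.g (nat_lit 4) .nil .nil))) 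
(.lf (nat_lit 152563) (.g (nat_lit 3010) (.e (nat_lit 57400) (nat_lit 10) (.e (nat_lit 319531) (nat_lit 16) (.e (nat_lit 286761) (nat_lit 13) (.e (nat_lit 393288) (nat_lit 25) (.e (nat_lit 458774) (nat_lit 18) (.e (nat_lit 5951) (nat_lit 322) .nil)))))) (.g (nat_lit 5) .nil .nil)))))) (.nd (nat_lit 4) (.nd (nat_lit 5) (.nd (nat_lit 6) 
(.lf (nat_lit 152459) (.g (nat_lit 1728) (.e (nat_lit 57400) (nat_lit 10) (.e (nat_lit 319530) (nat_lit 16) (.e (nat_lit 286761) (nat_lit 13) (.e (nat_lit 393269) (nat_lit 23) .nil)))) .nil)) 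
(.lf (nat_lit 152523) (.g (nat_lit 2669) (.e (nat_lit 57400) (nat_lit 10) (.e (nat_lit 319531) (nat_lit 16) (.e (nat_lit 286761) (nat_lit 13) (.e (nat_lit 393234) (nat_lit 17) (.e (nat_lit 7364) (nat_lit 388) .nil))))) .nil))) (.nd (nat_lit 6) 
(.lf (nat_lit 152491) (.g (nat_lit 3434) (.e (nat_lit 57400) (nat_lit 10) (.e (nat_lit 319531) (nat_lit 16) (.e (nat_lit 286743) (nat_lit 9) (.e (nat_lit 336443) (nat_lit 32) (.e (nat_lit 466972) (nat_lit 21) (.e (nat_lit 164402) (nat_lit 256) .nil)))))) (.g (nat_lit 6) .nil .nil))) 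
(.lf (nat_lit 152555) (.g (nat_lit 1518) (.e (nat_lit 57400) (nat_lit 10) (.e (nat_lit 319531) (nat_lit 16) (.e (nat_lit 286761) (nat_lit 13) (.e (nat_lit 393283) (nat_lit 24) .nil)))) .nil)))) (.nd (nat_lit 5) (.nd (nat_lit 6) 
(.lf (nat_lit 152475) (.g (nat_lit 1414) (.e (nat_lit 57400) (nat_lit 10) (.e (nat_lit 319530) (nat_lit 16) (.e (nat_lit 286761) (nat_lit 13) (.e (nat_lit 393284) (nat_lit 24) .nil)))) .nil)) 
(.lf (nat_lit 152539) (.g (nat_lit 2003) (.e (nat_lit 57400) (nat_lit 10) (.e (nat_lit 319531) (nat_lit 16) (.e (nat_lit 286761) (nat_lit 13) (.e (nat_lit 393270) (nat_lit 23) (.e (nat_lit 426068) (nat_lit 0) .nil))))) .nil))) (.nd (nat_lit 6) 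
(.lf (nat_lit 152507) (.g (nat_lit 2886) (.e (nat_lit 57400) (nat_lit 10) (.e (nat_lit 319531) (nat_lit 16) (.e (nat_lit 286761) (nat_lit 13) (.e (nat_lit 393234) (nat_lit 17) (.e (nat_lit 7065) (nat_lit 377) (.e (nat_lit 1033) (nat_lit 81) (.e (nat_lit 65) (nat_lit 0) (.e (nat_lit 5946) (nat_lit 322) .nil)))))))) (.g (nat_lit 5) .nil .nil))) 
(.lf (nat_lit 152571) (.g (nat_lit 1538) (.e (nat_lit 57400) (nat_lit 10) (.e (nat_lit 319531) (nat_lit 16) (.e (nat_lit 286761) (nat_lit 13) (.e (nat_lit 393289) (nat_lit 25) (.e (nat_lit 466688) (nat_lit 18) .nil))))) .nil)))))) (.nd (nat_lit 3) (.nd (nat_lit 4) (.nd (nat_lit 5) (.nd (nat_lit 6) 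
(.lf (nat_lit 152455) (.g (nat_lit 2163) (.e (nat_lit 57400) (nat_lit 10) (.e (nat_lit 319530) (nat_lit 16) (.e (nat_lit 286761) (nat_lit 13) (.e (nat_lit 393265) (nat_lit 22) (.e (nat_lit 417792) (nat_lit 0) (.e (nat_lit 67) (nat_lit 0) (.e (nat_lit 5946) (nat_lit 322) .nil))))))) (.g (nat_lit 4) .nil .nil))) 
(.lf (nat_lit 152519) (.g (nat_lit 2758) (.e (nat_lit 57400) (nat_lit 10) (.e (nat_lit 319531) (nat_lit 16) (.e (nat_lit 286761) (nat_lit 13) (.e (nat_lit 393234) (nat_lit 17) (.e (nat_lit 7303) (nat_lit 388) .nil))))) .nil))) (.nd (nat_lit 6) 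
(.lf (nat_lit 152487) (.g (nat_lit 4172) (.e (nat_lit 57400) (nat_lit 10) (.e (nat_lit 319531) (nat_lit 16) (.e (nat_lit 286735) (nat_lit 3) (.e (nat_lit 98373) (nat_lit 29) (.e (nat_lit 450563) (nat_lit 0) (.e (nat_lit 7936) (nat_lit 235) .nil)))))) (.g (nat_lit 5) .nil .nil))) 
(.lf (nat_lit 152551) (.g (nat_lit 1830) (.e (nat_lit 57400) (nat_lit 10) (.e (nat_lit 319531) (nat_lit 16) (.e (nat_lit 286761) (nat_lit 13) (.e (nat_lit 393281) (nat_lit 23) (.e (nat_lit 426100) (nat_lit 1) .nil))))) .nil)))) (.nd (nat_lit 5) (.nd (nat_lit 6) 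
(.lf (nat_lit 152471) (.g (nat_lit 1515) (.e (nat_lit 57400) (nat_lit 10) (.e (nat_lit 319530) (nat_lit 16) (.e (nat_lit 286761) (nat_lit 13) (.e (nat_lit 393282) (nat_lit 24) .nil)))) .nil)) 
(.lf (nat_lit 152535) (.g (nat_lit 1748) (.e (nat_lit 57400) (nat_lit 10) (.e (nat_lit 319531) (nat_lit 16) (.e (nat_lit 286761) (nat_lit 13) (.e (nat_lit 393269) (nat_lit 23) .nil)))) .nil))) (.nd (nat_lit 6) 
(.lf (nat_lit 152503) (.g (nat_lit 2273) (.e (nat_lit 57400) (nat_lit 10) (.e (nat_lit 319531) (nat_lit 16) (.e (nat_lit 286748) (nat_lit 9) (.e (nat_lit 336389) (nat_lit 27) (.e (nat_lit 426300) (nat_lit 11) (.e (nat_lit 458774) (nat_lit 18) (.e (nat_lit 5951) (nat_lit 322) .nil))))))) (.g (nat_lit 4) .nil .nil))) 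
(.lf (nat_lit 152567) (.g (nat_lit 1619) (.e (nat_lit 57400) (nat_lit 10) (.e (nat_lit 319531) (nat_lit 16) (.e (nat_lit 286761) (nat_lit 13) (.e (nat_lit 393289) (nat_lit 25) (.e (nat_lit 458773) (nat_lit 18) .nil))))) .nil))))) (.nd (nat_lit 4) (.nd (nat_lit 5) (.nd (nat_lit 6) 
(.lf (nat_lit 152463) (.g (nat_lit 1965) (.e (nat_lit 57400) (nat_lit 10) (.e (nat_lit 319530) (nat_lit 16) (.e (nat_lit 286761) (nat_lit 13) (.e (nat_lit 393270) (nat_lit 23) (.e (nat_lit 426112) (nat_lit 1) .nil))))) .nil)) 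
(.lf (nat_lit 152527) (.g (nat_lit 1050) (.e (nat_lit 57400) (nat_lit 10) (.e (nat_lit 319531) (nat_lit 16) (.e (nat_lit 286761) (nat_lit 13) (.e (nat_lit 393265) (nat_lit 22) .nil)))) .nil))) (.nd (nat_lit 6) 
(.lf (nat_lit 152495) (.g (nat_lit 1028) (.e (nat_lit 57400) (nat_lit 10) (.e (nat_lit 319531) (nat_lit 16) (.e (nat_lit 286748) (nat_lit 9) (.e (nat_lit 336389) (nat_lit 27) .nil)))) .nil)) 
(.lf (nat_lit 152559) (.g (nat_lit 1700) (.e (nat_lit 57400) (nat_lit 10) (.e (nat_lit 319531) (nat_lit 16) (.e (nat_lit 286761) (nat_lit 13) (.e (nat_lit 393286) (nat_lit 25) .nil)))) .nil)))) (.nd (nat_lit 5) (.nd (nat_lit 6) 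
(.lf (nat_lit 152479) (.g (nat_lit 1886) (.e (nat_lit 57400) (nat_lit 10) (.e (nat_lit 319530) (nat_lit 16) (.e (nat_lit 286761) (nat_lit 13) (.e (nat_lit 393288) (nat_lit 25) (.e (nat_lit 458775) (nat_lit 18) .nil))))) .nil)) 
(.lf (nat_lit 152543) (.g (nat_lit 1455) (.e (nat_lit 57400) (nat_lit 10) (.e (nat_lit 319531) (nat_lit 16) (.e (nat_lit 286761) (nat_lit 13) (.e (nat_lit 393275) (nat_lit 23) .nil)))) .nil))) (.nd (nat_lit 6) 
(.lf (nat_lit 152511) (.g (nat_lit 2891) (.e (nat_lit 57400) (nat_lit 10) (.e (nat_lit 319531) (nat_lit 16) (.e (nat_lit 286761) (nat_lit 13) (.e (nat_lit 393234) (nat_lit 17) (.e (nat_lit 7065) (nat_lit 377) (.e (nat_lit 1112) (nat_lit 82) (.e (nat_lit 8444) (nat_lit 140) .nil))))))) (.g (nat_lit 5) .nil .nil))) 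
(.lf (nat_lit 152575) (.g (nat_lit 2822) (.e (nat_lit 57400) (nat_lit 10) (.e (nat_lit 319532) (nat_lit 16) (.e (nat_lit 286743) (nat_lit 9) (.e (nat_lit 336443) (nat_lit 32) (.e (nat_lit 466972) (nat_lit 21) (.e (nat_lit 164403) (nat_lit 256) .nil)))))) (.g (nat_lit 5) .nil .nil))))))))))

noncomputable def tv2033 : DT := (.nd (nat_lit 0) (.nd (nat_lit 1) (.nd (nat_lit 2) (.nd (nat_lit 3) (.nd (nat_lit 4) (.nd (nat_lit 5) (.nd (nat_lit 6) 
(.lf (nat_lit 152576) (.g (nat_lit 2875) (.e (nat_lit 57400) (nat_lit 10) (.e (nat_lit 319532) (nat_lit 16) (.e (nat_lit 286743) (nat_lit 9) (.e (nat_lit 336444) (nat_lit 32) (.e (nat_lit 466971) (nat_lit 21) (.e (nat_lit 164403) (nat_lit 256) .nil)))))) (.g (nat_lit 6) .nil .nil))) 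
(.lf (nat_lit 152640) (.g (nat_lit 2900) (.e (nat_lit 57400) (nat_lit 10) (.e (nat_lit 319533) (nat_lit 16) (.e (nat_lit 286753) (nat_lit 10) (.e (nat_lit 344172) (nat_lit 41) (.e (nat_lit 753688) (nat_lit 9) (.e (nat_lit 172070) (nat_lit 4) (.e (nat_lit 229708) (nat_lit 256) .nil))))))) (.g (nat_lit 0) .nil .nil)))) (.nd (nat_lit 6) 
(.lf (nat_lit 152608) (.g (nat_lit 2018) (.e (nat_lit 57400) (nat_lit 10) (.e (nat_lit 319533) (nat_lit 16) (.e (nat_lit 286734) (nat_lit 3) (.e (nat_lit 98373) (nat_lit 29) .nil)))) .nil)) 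
(.lf (nat_lit 152672) (.g (nat_lit 2384) (.e (nat_lit 57400) (nat_lit 10) (.e (nat_lit 319533) (nat_lit 16) (.e (nat_lit 286761) (nat_lit 13) (.e (nat_lit 393281) (nat_lit 23) (.e (nat_lit 426100) (nat_lit 1) (.e (nat_lit 164399) (nat_lit 256) .nil)))))) (.g (nat_lit 4) .nil .nil))))) (.nd (nat_lit 5) (.nd (nat_lit 6) 
(.lf (nat_lit 152592) (.g (nat_lit 1973) (.e (nat_lit 57400) (nat_lit 10) (.e (nat_lit 319532) (nat_lit 16) (.e (nat_lit 286761) (nat_lit 13) (.e (nat_lit 393281) (nat_lit 23) (.e (nat_lit 426099) (nat_lit 1) .nil))))) .nil)) 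
(.lf (nat_lit 152656) (.g (nat_lit 2589) (.e (nat_lit 57400) (nat_lit 10) (.e (nat_lit 319533) (nat_lit 16) (.e (nat_lit 286761) (nat_lit 13) (.e (nat_lit 393264) (nat_lit 22) (.e (nat_lit 417804) (nat_lit 1) (.e (nat_lit 8446) (nat_lit 140) .nil)))))) (.g (nat_lit 4) .nil .nil)))) (.nd (nat_lit 6) 
(.lf (nat_lit 152624) (.g (nat_lit 3584) (.e (nat_lit 57400) (nat_lit 10) (.e (nat_lit 319533) (nat_lit 16) (.e (nat_lit 286743) (nat_lit 9) (.e (nat_lit 336444) (nat_lit 32) (.e (nat_lit 466971) (nat_lit 21) (.e (nat_lit 164403) (nat_lit 256) .nil)))))) (.g (nat_lit 0) .nil .nil))) 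
(.lf (nat_lit 152688) (.g (nat_lit 2911) (.e (nat_lit 57400) (nat_lit 10) (.e (nat_lit 319534) (nat_lit 16) (.e (nat_lit 286735) (nat_lit 3) (.e (nat_lit 98373) (nat_lit 29) (.e (nat_lit 450563) (nat_lit 0) .nil))))) .nil))))) (.nd (nat_lit 4) (.nd (nat_lit 5) (.nd (nat_lit 6) 
(.lf (nat_lit 152584) (.g (nat_lit 1211) (.e (nat_lit 57400) (nat_lit 10) (.e (nat_lit 319532) (nat_lit 16) (.e (nat_lit 286761) (nat_lit 13) (.e (nat_lit 393270) (nat_lit 23) .nil)))) .nil)) 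
(.lf (nat_lit 152648) (.g (nat_lit 425) (.e (nat_lit 57400) (nat_lit 10) (.e (nat_lit 319533) (nat_lit 16) (.e (nat_lit 286761) (nat_lit 13) .nil))) .nil))) (.nd (nat_lit 6) 
(.lf (nat_lit 152616) (.g (nat_lit 434) (.e (nat_lit 57400) (nat_lit 10) (.e (nat_lit 319533) (nat_lit 16) (.e (nat_lit 286743) (nat_lit 9) .nil))) .nil)) 
(.lf (nat_lit 152680) (.g (nat_lit 2301) (.e (nat_lit 57400) (nat_lit 10) (.e (nat_lit 319533) (nat_lit 16) (.e (nat_lit 286761) (nat_lit 13) (.e (nat_lit 393289) (nat_lit 25) (.e (nat_lit 458771) (nat_lit 18) (.e (nat_lit 5951) (nat_lit 322) .nil)))))) (.g (nat_lit 4) .nil .nil))))) (.nd (nat_lit 5) (.nd (nat_lit 6) 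
(.lf (nat_lit 152600) (.g (nat_lit 845) (.e (nat_lit 57400) (nat_lit 10) (.e (nat_lit 319532) (nat_lit 16) (.e (nat_lit 286761) (nat_lit 13) (.e (nat_lit 393289) (nat_lit 25) .nil)))) .nil)) 
(.lf (nat_lit 152664) (.g (nat_lit 1541) (.e (nat_lit 57400) (nat_lit 10) (.e (nat_lit 319533) (nat_lit 16) (.e (nat_lit 286761) (nat_lit 13) (.e (nat_lit 393275) (nat_lit 23) .nil)))) .nil))) (.nd (nat_lit 6) 
(.lf (nat_lit 152632) (.g (nat_lit 3898) (.e (nat_lit 57400) (nat_lit 10) (.e (nat_lit 319533) (nat_lit 16) (.e (nat_lit 286748) (nat_lit 9) (.e (nat_lit 336389) (nat_lit 27) (.e (nat_lit 426263) (nat_lit 9) (.e (nat_lit 426100) (nat_lit 1) (.e (nat_lit 164398) (nat_lit 256) .nil))))))) (.g (nat_lit 4) .nil .nil))) 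
(.lf (nat_lit 152696) (.g (nat_lit 985) (.e (nat_lit 57400) (nat_lit 10) (.e (nat_lit 319534) (nat_lit 16) (.e (nat_lit 286743) (nat_lit 9) (.e (nat_lit 336432) (nat_lit 30) .nil)))) .nil)))))) (.nd (nat_lit 3) (.nd (nat_lit 4) (.nd (nat_lit 5) (.nd (nat_lit 6) 
(.lf (nat_lit 152580) (.g (nat_lit 1549) (.e (nat_lit 57400) (nat_lit 10) (.e (nat_lit 319532) (nat_lit 16) (.e (nat_lit 286761) (nat_lit 13) (.e (nat_lit 393264) (nat_lit 22) (.e (nat_lit 417795) (nat_lit 0) .nil))))) .nil)) 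
(.lf (nat_lit 152644) (.g (nat_lit 2227) (.e (nat_lit 57400) (nat_lit 10) (.e (nat_lit 319533) (nat_lit 16) (.e (nat_lit 286760) (nat_lit 13) (.e (nat_lit 393281) (nat_lit 23) (.e (nat_lit 426099) (nat_lit 1) (.e (nat_lit 164398) (nat_lit 256) .nil)))))) (.g (nat_lit 4) .nil .nil)))) (.nd (nat_lit 6) 
(.lf (nat_lit 152612) (.g (nat_lit 2559) (.e (nat_lit 57400) (nat_lit 10) (.e (nat_lit 319533) (nat_lit 16) (.e (nat_lit 286742) (nat_lit 9) (.e (nat_lit 336426) (nat_lit 29) (.e (nat_lit 442430) (nat_lit 24) (.e (nat_lit 229708) (nat_lit 256) .nil)))))) (.g (nat_lit 5) .nil .nil))) 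
(.lf (nat_lit 152676) (.g (nat_lit 1615) (.e (nat_lit 57400) (nat_lit 10) (.e (nat_lit 319533) (nat_lit 16) (.e (nat_lit 286761) (nat_lit 13) (.e (nat_lit 393286) (nat_lit 25) .nil)))) .nil)))) (.nd (nat_lit 5) (.nd (nat_lit 6) 
(.lf (nat_lit 152596) (.g (nat_lit 1891) (.e (nat_lit 57400) (nat_lit 10) (.e (nat_lit 319532) (nat_lit 16) (.e (nat_lit 286761) (nat_lit 13) (.e (nat_lit 393283) (nat_lit 24) (.e (nat_lit 434200) (nat_lit 18) .nil))))) .nil)) 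
(.lf (nat_lit 152660) (.g (nat_lit 1373) (.e (nat_lit 57400) (nat_lit 10) (.e (nat_lit 319533) (nat_lit 16) (.e (nat_lit 286761) (nat_lit 13) (.e (nat_lit 393270) (nat_lit 23) .nil)))) .nil))) (.nd (nat_lit 6) 
(.lf (nat_lit 152628) (.g (nat_lit 417) (.e (nat_lit 57400) (nat_lit 10) (.e (nat_lit 319533) (nat_lit 16) (.e (nat_lit 286745) (nat_lit 9) .nil))) .nil)) 
(.lf (nat_lit 152692) (.g (nat_lit 2360) (.e (nat_lit 57400) (nat_lit 10) (.e (nat_lit 319534) (nat_lit 16) (.e (nat_lit 286742) (nat_lit 9) (.e (nat_lit 336443) (nat_lit 32) (.e (nat_lit 466971) (nat_lit 21) (.e (nat_lit 164403) (nat_lit 256) .nil)))))) (.g (nat_lit 4) .nil .nil)))))) (.nd (nat_lit 4) (.nd (nat_lit 5) (.nd (nat_lit 6) 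
(.lf (nat_lit 152588) (.g (nat_lit 2061) (.e (nat_lit 57400) (nat_lit 10) (.e (nat_lit 319532) (nat_lit 16) (.e (nat_lit 286761) (nat_lit 13) (.e (nat_lit 393270) (nat_lit 23) (.e (nat_lit 426112) (nat_lit 1) (.e (nat_lit 164398) (nat_lit 256) .nil)))))) (.g (nat_lit 4) .nil .nil))) 
(.lf (nat_lit 152652) (.g (nat_lit 2508) (.e (nat_lit 57400) (nat_lit 10) (.e (nat_lit 319533) (nat_lit 16) (.e (nat_lit 286761) (nat_lit 13) (.e (nat_lit 393234) (nat_lit 17) (.e (nat_lit 7065) (nat_lit 377) (.e (nat_lit 1115) (nat_lit 82) (.e (nat_lit 8443) (nat_lit 140) .nil))))))) (.g (nat_lit 4) .nil .nil)))) (.nd (nat_lit 6) 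
(.lf (nat_lit 152620) (.g (nat_lit 2551) (.e (nat_lit 57400) (nat_lit 10) (.e (nat_lit 319533) (nat_lit 16) (.e (nat_lit 286743) (nat_lit 9) (.e (nat_lit 336443) (nat_lit 32) (.e (nat_lit 466969) (nat_lit 21) (.e (nat_lit 164403) (nat_lit 256) .nil)))))) (.g (nat_lit 4) .nil .nil))) 
(.lf (nat_lit 152684) (.g (nat_lit 1394) (.e (nat_lit 57400) (nat_lit 10) (.e (nat_lit 319533) (nat_lit 16) (.e (nat_lit 286761) (nat_lit 13) (.e (nat_lit 393301) (nat_lit 27) .nil)))) .nil)))) (.nd (nat_lit 5) (.nd (nat_lit 6) 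
(.lf (nat_lit 152604) (.g (nat_lit 2142) (.e (nat_lit 57400) (nat_lit 10) (.e (nat_lit 319532) (nat_lit 16) (.e (nat_lit 286761) (nat_lit 13) (.e (nat_lit 393289) (nat_lit 25) (.e (nat_lit 458774) (nat_lit 18) (.e (nat_lit 5951) (nat_lit 322) .nil)))))) (.g (nat_lit 5) .nil .nil))) 
(.lf (nat_lit 152668) (.g (nat_lit 1615) (.e (nat_lit 57400) (nat_lit 10) (.e (nat_lit 319533) (nat_lit 16) (.e (nat_lit 286761) (nat_lit 13) (.e (nat_lit 393279) (nat_lit 23) .nil)))) .nil))) (.nd (nat_lit 6) 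
(.lf (nat_lit 152636) (.g (nat_lit 2910) (.e (nat_lit 57400) (nat_lit 10) (.e (nat_lit 319533) (nat_lit 16) (.e (nat_lit 286748) (nat_lit 9) (.e (nat_lit 336389) (nat_lit 27) (.e (nat_lit 426300) (nat_lit 11) .nil))))) .nil)) 
(.lf (nat_lit 152700) (.g (nat_lit 1379) (.e (nat_lit 57400) (nat_lit 10) (.e (nat_lit 319534) (nat_lit 16) (.e (nat_lit 286743) (nat_lit 9) (.e (nat_lit 336434) (nat_lit 30) (.e (nat_lit 450568) (nat_lit 0) .nil))))) .nil))))))) (.nd (nat_lit 2) (.nd (nat_lit 3) (.nd (nat_lit 4) (.nd (nat_lit 5) (.nd (nat_lit 6) 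
(.lf (nat_lit 152578) (.g (nat_lit 334) (.e (nat_lit 57400) (nat_lit 10) (.e (nat_lit 319532) (nat_lit 16) (.e (nat_lit 286761) (nat_lit 13) .nil))) .nil)) 
(.lf (nat_lit 152642) (.g (nat_lit 2051) (.e (nat_lit 57400) (nat_lit 10) (.e (nat_lit 319533) (nat_lit 16) (.e (nat_lit 286760) (nat_lit 13) (.e (nat_lit 393265) (nat_lit 22) (.e (nat_lit 417792) (nat_lit 0) (.e (nat_lit 67) (nat_lit 0) (.e (nat_lit 5946) (nat_lit 322) .nil))))))) (.g (nat_lit 4) .nil .nil)))) (.nd (nat_lit 6) 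
(.lf (nat_lit 152610) (.g (nat_lit 3711) (.e (nat_lit 57400) (nat_lit 10) (.e (nat_lit 319533) (nat_lit 16) (.e (nat_lit 286735) (nat_lit 3) (.e (nat_lit 98373) (nat_lit 29) (.e (nat_lit 450563) (nat_lit 0) (.e (nat_lit 7936) (nat_lit 235) .nil)))))) (.g (nat_lit 4) .nil .nil))) 
(.lf (nat_lit 152674) (.g (nat_lit 1533) (.e (nat_lit 57400) (nat_lit 10) (.e (nat_lit 319533) (nat_lit 16) (.e (nat_lit 286761) (nat_lit 13) (.e (nat_lit 393283) (nat_lit 24) .nil)))) .nil)))) (.nd (nat_lit 5) (.nd (nat_lit 6) 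
(.lf (nat_lit 152594) (.g (nat_lit 1409) (.e (nat_lit 57400) (nat_lit 10) (.e (nat_lit 319532) (nat_lit 16) (.e (nat_lit 286761) (nat_lit 13) (.e (nat_lit 393282) (nat_lit 24) .nil)))) .nil)) 
(.lf (nat_lit 152658) (.g (nat_lit 1535) (.e (nat_lit 57400) (nat_lit 10) (.e (nat_lit 319533) (nat_lit 16) (.e (nat_lit 286761) (nat_lit 13) (.e (nat_lit 393265) (nat_lit 22) (.e (nat_lit 417804) (nat_lit 1) .nil))))) .nil))) (.nd (nat_lit 6) 
(.lf (nat_lit 152626) (.g (nat_lit 3362) (.e (nat_lit 57400) (nat_lit 10) (.e (nat_lit 319533) (nat_lit 16) (.e (nat_lit 286743) (nat_lit 9) (.e (nat_lit 336444) (nat_lit 32) (.e (nat_lit 466972) (nat_lit 21) (.e (nat_lit 164403) (nat_lit 256) .nil)))))) (.g (nat_lit 6) .nil .nil))) 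
(.lf (nat_lit 152690) (.g (nat_lit 2515) (.e (nat_lit 57400) (nat_lit 10) (.e (nat_lit 319534) (nat_lit 16) (.e (nat_lit 286742) (nat_lit 9) (.e (nat_lit 336426) (nat_lit 29) (.e (nat_lit 442430) (nat_lit 24) (.e (nat_lit 229708) (nat_lit 256) .nil)))))) (.g (nat_lit 5) .nil .nil)))))) (.nd (nat_lit 4) (.nd (nat_lit 5) (.nd (nat_lit 6) 
(.lf (nat_lit 152586) (.g (nat_lit 2032) (.e (nat_lit 57400) (nat_lit 10) (.e (nat_lit 319532) (nat_lit 16) (.e (nat_lit 286761) (nat_lit 13) (.e (nat_lit 393270) (nat_lit 23) (.e (nat_lit 426111) (nat_lit 1) (.e (nat_lit 164398) (nat_lit 256) .nil)))))) (.g (nat_lit 4) .nil .nil))) 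
(.lf (nat_lit 152650) (.g (nat_lit 2470) (.e (nat_lit 57400) (nat_lit 10) (.e (nat_lit 319533) (nat_lit 16) (.e (nat_lit 286761) (nat_lit 13) (.e (nat_lit 393234) (nat_lit 17) (.e (nat_lit 7065) (nat_lit 377) .nil))))) .nil))) (.nd (nat_lit 6) 
(.lf (nat_lit 152618) (.g (nat_lit 1072) (.e (nat_lit 57400) (nat_lit 10) (.e (nat_lit 319533) (nat_lit 16) (.e (nat_lit 286743) (nat_lit 9) (.e (nat_lit 336427) (nat_lit 29) .nil)))) .nil)) 
(.lf (nat_lit 152682) (.g (nat_lit 2207) (.e (nat_lit 57400) (nat_lit 10) (.e (nat_lit 319533) (nat_lit 16) (.e (nat_lit 286761) (nat_lit 13) (.e (nat_lit 393289) (nat_lit 25) (.e (nat_lit 458774) (nat_lit 18) (.e (nat_lit 5936) (nat_lit 322) .nil)))))) (.g (nat_lit 4) .nil .nil))))) (.nd (nat_lit 5) (.nd (nat_lit 6) 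
(.lf (nat_lit 152602) (.g (nat_lit 1781) (.e (nat_lit 57400) (nat_lit 10) (.e (nat_lit 319532) (nat_lit 16) (.e (nat_lit 286761) (nat_lit 13) (.e (nat_lit 393289) (nat_lit 25) (.e (nat_lit 458771) (nat_lit 18) (.e (nat_lit 5946) (nat_lit 322) .nil)))))) (.g (nat_lit 4) .nil .nil))) 
(.lf (nat_lit 152666) (.g (nat_lit 3299) (.e (nat_lit 57400) (nat_lit 10) (.e (nat_lit 319533) (nat_lit 16) (.e (nat_lit 286761) (nat_lit 13) (.e (nat_lit 393275) (nat_lit 23) (.e (nat_lit 426109) (nat_lit 1) (.e (nat_lit 164403) (nat_lit 256) .nil)))))) (.g (nat_lit 5) .nil .nil)))) (.nd (nat_lit 6) 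
(.lf (nat_lit 152634) (.g (nat_lit 3055) (.e (nat_lit 57400) (nat_lit 10) (.e (nat_lit 319533) (nat_lit 16) (.e (nat_lit 286748) (nat_lit 9) (.e (nat_lit 336389) (nat_lit 27) (.e (nat_lit 426265) (nat_lit 9) .nil))))) .nil)) 
(.lf (nat_lit 152698) (.g (nat_lit 1208) (.e (nat_lit 57400) (nat_lit 10) (.e (nat_lit 319534) (nat_lit 16) (.e (nat_lit 286743) (nat_lit 9) (.e (nat_lit 336433) (nat_lit 30) (.e (nat_lit 450568) (nat_lit 0) .nil))))) .nil)))))) (.nd (nat_lit 3) (.nd (nat_lit 4) (.nd (nat_lit 5) (.nd (nat_lit 6) 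
(.lf (nat_lit 152582) (.g (nat_lit 1899) (.e (nat_lit 57400) (nat_lit 10) (.e (nat_lit 319532) (nat_lit 16) (.e (nat_lit 286761) (nat_lit 13) (.e (nat_lit 393265) (nat_lit 22) (.e (nat_lit 417792) (nat_lit 0) (.e (nat_lit 67) (nat_lit 0) (.e (nat_lit 5946) (nat_lit 322) .nil))))))) (.g (nat_lit 4) .nil .nil))) 
(.lf (nat_lit 152646) (.g (nat_lit 1056) (.e (nat_lit 57400) (nat_lit 10) (.e (nat_lit 319533) (nat_lit 16) (.e (nat_lit 286760) (nat_lit 13) (.e (nat_lit 393286) (nat_lit 25) .nil)))) .nil))) (.nd (nat_lit 6) 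
(.lf (nat_lit 152614) (.g (nat_lit 3307) (.e (nat_lit 57400) (nat_lit 10) (.e (nat_lit 319533) (nat_lit 16) (.e (nat_lit 286742) (nat_lit 9) (.e (nat_lit 336443) (nat_lit 32) (.e (nat_lit 466972) (nat_lit 21) (.e (nat_lit 164402) (nat_lit 256) .nil)))))) (.g (nat_lit 6) .nil .nil))) 
(.lf (nat_lit 152678) (.g (nat_lit 3260) (.e (nat_lit 57400) (nat_lit 10) (.e (nat_lit 319533) (nat_lit 16) (.e (nat_lit 286761) (nat_lit 13) (.e (nat_lit 393288) (nat_lit 25) (.e (nat_lit 458774) (nat_lit 18) (.e (nat_lit 5951) (nat_lit 322) .nil)))))) (.g (nat_lit 5) .nil .nil))))) (.nd (nat_lit 5) (.nd (nat_lit 6) 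
(.lf (nat_lit 152598) (.g (nat_lit 1684) (.e (nat_lit 57400) (nat_lit 10) (.e (nat_lit 319532) (nat_lit 16) (.e (nat_lit 286761) (nat_lit 13) (.e (nat_lit 393286) (nat_lit 25) (.e (nat_lit 458774) (nat_lit 18) .nil))))) .nil)) 
(.lf (nat_lit 152662) (.g (nat_lit 2401) (.e (nat_lit 57400) (nat_lit 10) (.e (nat_lit 319533) (nat_lit 16) (.e (nat_lit 286761) (nat_lit 13) (.e (nat_lit 393270) (nat_lit 23) (.e (nat_lit 426111) (nat_lit 1) (.e (nat_lit 164402) (nat_lit 256) .nil)))))) (.g (nat_lit 4) .nil .nil)))) (.nd (nat_lit 6) 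
(.lf (nat_lit 152630) (.g (nat_lit 600) (.e (nat_lit 57400) (nat_lit 10) (.e (nat_lit 319533) (nat_lit 16) (.e (nat_lit 286747) (nat_lit 9) .nil))) .nil)) 
(.lf (nat_lit 152694) (.g (nat_lit 417) (.e (nat_lit 57400) (nat_lit 10) (.e (nat_lit 319534) (nat_lit 16) (.e (nat_lit 286743) (nat_lit 9) .nil))) .nil))))) (.nd (nat_lit 4) (.nd (nat_lit 5) (.nd (nat_lit 6) 
(.lf (nat_lit 152590) (.g (nat_lit 2174) (.e (nat_lit 57400) (nat_lit 10) (.e (nat_lit 319532) (nat_lit 16) (.e (nat_lit 286761) (nat_lit 13) (.e (nat_lit 393275) (nat_lit 23) (.e (nat_lit 426109) (nat_lit 1) (.e (nat_lit 164402) (nat_lit 256) .nil)))))) (.g (nat_lit 4) .nil .nil))) 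
(.lf (nat_lit 152654) (.g (nat_lit 3515) (.e (nat_lit 57400) (nat_lit 10) (.e (nat_lit 319533) (nat_lit 16) (.e (nat_lit 286761) (nat_lit 13) (.e (nat_lit 393234) (nat_lit 17) (.e (nat_lit 7355) (nat_lit 388) (.e (nat_lit 2608) (nat_lit 163) (.e (nat_lit 164403) (nat_lit 256) .nil))))))) (.g (nat_lit 4) .nil .nil)))) (.nd (nat_lit 6) 
(.lf (nat_lit 152622) (.g (nat_lit 3952) (.e (nat_lit 57400) (nat_lit 10) (.e (nat_lit 319533) (nat_lit 16) (.e (nat_lit 286743) (nat_lit 9) (.e (nat_lit 336443) (nat_lit 32) (.e (nat_lit 466972) (nat_lit 21) (.e (nat_lit 164402) (nat_lit 256) .nil)))))) (.g (nat_lit 0) .nil .nil))) 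
(.lf (nat_lit 152686) (.g (nat_lit 790) (.e (nat_lit 57400) (nat_lit 10) (.e (nat_lit 319534) (nat_lit 16) (.e (nat_lit 286734) (nat_lit 3) .nil))) .nil)))) (.nd (nat_lit 5) (.nd (nat_lit 6) 
(.lf (nat_lit 152606) (.g (nat_lit 1844) (.e (nat_lit 57400) (nat_lit 10) (.e (nat_lit 319532) (nat_lit 16) (.e (nat_lit 286761) (nat_lit 13) (.e (nat_lit 393289) (nat_lit 25) (.e (nat_lit 458776) (nat_lit 18) (.e (nat_lit 5949) (nat_lit 322) .nil)))))) (.g (nat_lit 4) .nil .nil))) 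
(.lf (nat_lit 152670) (.g (nat_lit 1363) (.e (nat_lit 57400) (nat_lit 10) (.e (nat_lit 319533) (nat_lit 16) (.e (nat_lit 286761) (nat_lit 13) (.e (nat_lit 393281) (nat_lit 23) .nil)))) .nil))) (.nd (nat_lit 6) 
(.lf (nat_lit 152638) (.g (nat_lit 386) (.e (nat_lit 57400) (nat_lit 10) (.e (nat_lit 319533) (nat_lit 16) (.e (nat_lit 286753) (nat_lit 10) .nil))) .nil)) 
(.lf (nat_lit 152702) (.g (nat_lit 3813) (.e (nat_lit 57400) (nat_lit 10) (.e (nat_lit 319534) (nat_lit 16) (.e (nat_lit 286743) (nat_lit 9) (.e (nat_lit 336443) (nat_lit 32) (.e (nat_lit 466972) (nat_lit 21) (.e (nat_lit 164402) (nat_lit 256) .nil)))))) (.g (nat_lit 6) .nil .nil))))))))) (.nd (nat_lit 1) (.nd (nat_lit 2) (.nd (nat_lit 3) (.nd (nat_lit 4) (.nd (nat_lit 5) (.nd (nat_lit 6) 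
(.lf (nat_lit 152577) (.g (nat_lit 2686) (.e (nat_lit 57400) (nat_lit 10) (.e (nat_lit 319532) (nat_lit 16) (.e (nat_lit 286743) (nat_lit 9) (.e (nat_lit 336444) (nat_lit 32) (.e (nat_lit 466972) (nat_lit 21) (.e (nat_lit 164402) (nat_lit 256) .nil)))))) (.g (nat_lit 6) .nil .nil))) 
(.lf (nat_lit 152641) (.g (nat_lit 435) (.e (nat_lit 57400) (nat_lit 10) (.e (nat_lit 319533) (nat_lit 16) (.e (nat_lit 286760) (nat_lit 13) .nil))) .nil))) (.nd (nat_lit 6) 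
(.lf (nat_lit 152609) (.g (nat_lit 4167) (.e (nat_lit 57400) (nat_lit 10) (.e (nat_lit 319533) (nat_lit 16) (.e (nat_lit 286735) (nat_lit 3) (.e (nat_lit 98373) (nat_lit 29) (.e (nat_lit 450562) (nat_lit 0) (.e (nat_lit 7936) (nat_lit 235) .nil)))))) (.g (nat_lit 4) .nil .nil))) 
(.lf (nat_lit 152673) (.g (nat_lit 4091) (.e (nat_lit 57400) (nat_lit 10) (.e (nat_lit 319533) (nat_lit 16) (.e (nat_lit 286761) (nat_lit 13) (.e (nat_lit 393281) (nat_lit 23) (.e (nat_lit 426100) (nat_lit 1) (.e (nat_lit 164403) (nat_lit 256) .nil)))))) (.g (nat_lit 0) .nil .nil))))) (.nd (nat_lit 5) (.nd (nat_lit 6) 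
(.lf (nat_lit 152593) (.g (nat_lit 2957) (.e (nat_lit 57400) (nat_lit 10) (.e (nat_lit 319532) (nat_lit 16) (.e (nat_lit 286761) (nat_lit 13) (.e (nat_lit 393281) (nat_lit 23) (.e (nat_lit 426100) (nat_lit 1) (.e (nat_lit 164398) (nat_lit 256) .nil)))))) (.g (nat_lit 6) .nil .nil))) 
(.lf (nat_lit 152657) (.g (nat_lit 1781) (.e (nat_lit 57400) (nat_lit 10) (.e (nat_lit 319533) (nat_lit 16) (.e (nat_lit 286761) (nat_lit 13) (.e (nat_lit 393265) (nat_lit 22) (.e (nat_lit 417792) (nat_lit 0) .nil))))) .nil))) (.nd (nat_lit 6) 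
(.lf (nat_lit 152625) (.g (nat_lit 3314) (.e (nat_lit 57400) (nat_lit 10) (.e (nat_lit 319533) (nat_lit 16) (.e (nat_lit 286743) (nat_lit 9) (.e (nat_lit 336444) (nat_lit 32) (.e (nat_lit 466972) (nat_lit 21) (.e (nat_lit 164402) (nat_lit 256) .nil)))))) (.g (nat_lit 0) .nil .nil))) 
(.lf (nat_lit 152689) (.g (nat_lit 710) (.e (nat_lit 57400) (nat_lit 10) (.e (nat_lit 319534) (nat_lit 16) (.e (nat_lit 286742) (nat_lit 9) .nil))) .nil))))) (.nd (nat_lit 4) (.nd (nat_lit 5) (.nd (nat_lit 6) 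
(.lf (nat_lit 152585) (.g (nat_lit 1850) (.e (nat_lit 57400) (nat_lit 10) (.e (nat_lit 319532) (nat_lit 16) (.e (nat_lit 286761) (nat_lit 13) (.e (nat_lit 393270) (nat_lit 23) (.e (nat_lit 426111) (nat_lit 1) .nil))))) .nil)) 
(.lf (nat_lit 152649) (.g (nat_lit 1136) (.e (nat_lit 57400) (nat_lit 10) (.e (nat_lit 319533) (nat_lit 16) (.e (nat_lit 286761) (nat_lit 13) (.e (nat_lit 393234) (nat_lit 17) .nil)))) .nil))) (.nd (nat_lit 6) 
(.lf (nat_lit 152617) (.g (nat_lit 2203) (.e (nat_lit 57400) (nat_lit 10) (.e (nat_lit 319533) (nat_lit 16) (.e (nat_lit 286743) (nat_lit 9) (.e (nat_lit 336426) (nat_lit 29) (.e (nat_lit 442430) (nat_lit 24) (.e (nat_lit 229708) (nat_lit 256) .nil)))))) (.g (nat_lit 4) .nil .nil))) 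
(.lf (nat_lit 152681) (.g (nat_lit 2536) (.e (nat_lit 57400) (nat_lit 10) (.e (nat_lit 319533) (nat_lit 16) (.e (nat_lit 286761) (nat_lit 13) (.e (nat_lit 393289) (nat_lit 25) (.e (nat_lit 458771) (nat_lit 18) (.e (nat_lit 5953) (nat_lit 322) .nil)))))) (.g (nat_lit 4) .nil .nil))))) (.nd (nat_lit 5) (.nd (nat_lit 6) 
(.lf (nat_lit 152601) (.g (nat_lit 1512) (.e (nat_lit 57400) (nat_lit 10) (.e (nat_lit 319532) (nat_lit 16) (.e (nat_lit 286761) (nat_lit 13) (.e (nat_lit 393289) (nat_lit 25) (.e (nat_lit 458771) (nat_lit 18) .nil))))) .nil)) 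
(.lf (nat_lit 152665) (.g (nat_lit 3151) (.e (nat_lit 57400) (nat_lit 10) (.e (nat_lit 319533) (nat_lit 16) (.e (nat_lit 286761) (nat_lit 13) (.e (nat_lit 393275) (nat_lit 23) (.e (nat_lit 426109) (nat_lit 1) (.e (nat_lit 164402) (nat_lit 256) .nil)))))) (.g (nat_lit 5) .nil .nil)))) (.nd (nat_lit 6) 
(.lf (nat_lit 152633) (.g (nat_lit 4538) (.e (nat_lit 57400) (nat_lit 10) (.e (nat_lit 319533) (nat_lit 16) (.e (nat_lit 286748) (nat_lit 9) (.e (nat_lit 336389) (nat_lit 27) (.e (nat_lit 426263) (nat_lit 9) (.e (nat_lit 426100) (nat_lit 1) (.e (nat_lit 164403) (nat_lit 256) .nil))))))) (.g (nat_lit 5) .nil .nil))) 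
(.lf (nat_lit 152697) (.g (nat_lit 1992) (.e (nat_lit 57400) (nat_lit 10) (.e (nat_lit 319534) (nat_lit 16) (.e (nat_lit 286743) (nat_lit 9) (.e (nat_lit 336433) (nat_lit 30) (.e (nat_lit 450563) (nat_lit 0) (.e (nat_lit 5945) (nat_lit 322) .nil)))))) (.g (nat_lit 4) .nil .nil))))))) (.nd (nat_lit 3) (.nd (nat_lit 4) (.nd (nat_lit 5) (.nd (nat_lit 6) 
(.lf (nat_lit 152581) (.g (nat_lit 799) (.e (nat_lit 57400) (nat_lit 10) (.e (nat_lit 319532) (nat_lit 16) (.e (nat_lit 286761) (nat_lit 13) (.e (nat_lit 393265) (nat_lit 22) .nil)))) .nil)) 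
(.lf (nat_lit 152645) (.g (nat_lit 2031) (.e (nat_lit 57400) (nat_lit 10) (.e (nat_lit 319533) (nat_lit 16) (.e (nat_lit 286760) (nat_lit 13) (.e (nat_lit 393281) (nat_lit 23) (.e (nat_lit 426100) (nat_lit 1) (.e (nat_lit 164399) (nat_lit 256) .nil)))))) (.g (nat_lit 4) .nil .nil)))) (.nd (nat_lit 6) 
(.lf (nat_lit 152613) (.g (nat_lit 1245) (.e (nat_lit 57400) (nat_lit 10) (.e (nat_lit 319533) (nat_lit 16) (.e (nat_lit 286742) (nat_lit 9) (.e (nat_lit 336430) (nat_lit 29) (.e (nat_lit 442421) (nat_lit 21) .nil))))) .nil)) 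
(.lf (nat_lit 152677) (.g (nat_lit 1609) (.e (nat_lit 57400) (nat_lit 10) (.e (nat_lit 319533) (nat_lit 16) (.e (nat_lit 286761) (nat_lit 13) (.e (nat_lit 393288) (nat_lit 25) .nil)))) .nil)))) (.nd (nat_lit 5) (.nd (nat_lit 6) 
(.lf (nat_lit 152597) (.g (nat_lit 1472) (.e (nat_lit 57400) (nat_lit 10) (.e (nat_lit 319532) (nat_lit 16) (.e (nat_lit 286761) (nat_lit 13) (.e (nat_lit 393286) (nat_lit 25) .nil)))) .nil)) 
(.lf (nat_lit 152661) (.g (nat_lit 2501) (.e (nat_lit 57400) (nat_lit 10) (.e (nat_lit 319533) (nat_lit 16) (.e (nat_lit 286761) (nat_lit 13) (.e (nat_lit 393270) (nat_lit 23) (.e (nat_lit 426111) (nat_lit 1) (.e (nat_lit 164398) (nat_lit 256) .nil)))))) (.g (nat_lit 4) .nil .nil)))) (.nd (nat_lit 6) 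
(.lf (nat_lit 152629) (.g (nat_lit 647) (.e (nat_lit 57400) (nat_lit 10) (.e (nat_lit 319533) (nat_lit 16) (.e (nat_lit 286746) (nat_lit 9) .nil))) .nil)) 
(.lf (nat_lit 152693) (.g (nat_lit 2939) (.e (nat_lit 57400) (nat_lit 10) (.e (nat_lit 319534) (nat_lit 16) (.e (nat_lit 286742) (nat_lit 9) (.e (nat_lit 336443) (nat_lit 32) (.e (nat_lit 466972) (nat_lit 21) (.e (nat_lit 164403) (nat_lit 256) .nil)))))) (.g (nat_lit 5) .nil .nil)))))) (.nd (nat_lit 4) (.nd (nat_lit 5) (.nd (nat_lit 6) 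
(.lf (nat_lit 152589) (.g (nat_lit 1479) (.e (nat_lit 57400) (nat_lit 10) (.e (nat_lit 319532) (nat_lit 16) (.e (nat_lit 286761) (nat_lit 13) (.e (nat_lit 393275) (nat_lit 23) .nil)))) .nil)) 
(.lf (nat_lit 152653) (.g (nat_lit 3360) (.e (nat_lit 57400) (nat_lit 10) (.e (nat_lit 319533) (nat_lit 16) (.e (nat_lit 286761) (nat_lit 13) (.e (nat_lit 393234) (nat_lit 17) (.e (nat_lit 7345) (nat_lit 388) (.e (nat_lit 2608) (nat_lit 163) (.e (nat_lit 164403) (nat_lit 256) .nil))))))) (.g (nat_lit 4) .nil .nil)))) (.nd (nat_lit 6) 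
(.lf (nat_lit 152621) (.g (nat_lit 2689) (.e (nat_lit 57400) (nat_lit 10) (.e (nat_lit 319533) (nat_lit 16) (.e (nat_lit 286743) (nat_lit 9) (.e (nat_lit 336443) (nat_lit 32) (.e (nat_lit 466971) (nat_lit 21) (.e (nat_lit 164403) (nat_lit 256) .nil)))))) (.g (nat_lit 4) .nil .nil))) 
(.lf (nat_lit 152685) (.g (nat_lit 1607) (.e (nat_lit 57400) (nat_lit 10) (.e (nat_lit 319534) (nat_lit 16) (.e (nat_lit 286728) (nat_lit 0) (.e (nat_lit 1927) (nat_lit 131) .nil)))) .nil)))) (.nd (nat_lit 5) (.nd (nat_lit 6) 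
(.lf (nat_lit 152605) (.g (nat_lit 1486) (.e (nat_lit 57400) (nat_lit 10) (.e (nat_lit 319532) (nat_lit 16) (.e (nat_lit 286761) (nat_lit 13) (.e (nat_lit 393289) (nat_lit 25) (.e (nat_lit 458776) (nat_lit 18) .nil))))) .nil)) 
(.lf (nat_lit 152669) (.g (nat_lit 2754) (.e (nat_lit 57400) (nat_lit 10) (.e (nat_lit 319533) (nat_lit 16) (.e (nat_lit 286761) (nat_lit 13) (.e (nat_lit 393280) (nat_lit 23) (.e (nat_lit 426100) (nat_lit 1) (.e (nat_lit 164403) (nat_lit 256) .nil)))))) (.g (nat_lit 4) .nil .nil)))) (.nd (nat_lit 6) 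
(.lf (nat_lit 152637) (.g (nat_lit 3034) (.e (nat_lit 57400) (nat_lit 10) (.e (nat_lit 319533) (nat_lit 16) (.e (nat_lit 286748) (nat_lit 9) (.e (nat_lit 336389) (nat_lit 27) (.e (nat_lit 426300) (nat_lit 11) (.e (nat_lit 458774) (nat_lit 18) (.e (nat_lit 5951) (nat_lit 322) .nil))))))) (.g (nat_lit 4) .nil .nil))) 
(.lf (nat_lit 152701) (.g (nat_lit 2504) (.e (nat_lit 57400) (nat_lit 10) (.e (nat_lit 319534) (nat_lit 16) (.e (nat_lit 286743) (nat_lit 9) (.e (nat_lit 336443) (nat_lit 32) (.e (nat_lit 466971) (nat_lit 21) (.e (nat_lit 164403) (nat_lit 256) .nil)))))) (.g (nat_lit 4) .nil .nil)))))))) (.nd (nat_lit 2) (.nd (nat_lit 3) (.nd (nat_lit 4) (.nd (nat_lit 5) (.nd (nat_lit 6) 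
(.lf (nat_lit 152579) (.g (nat_lit 1239) (.e (nat_lit 57400) (nat_lit 10) (.e (nat_lit 319532) (nat_lit 16) (.e (nat_lit 286761) (nat_lit 13) (.e (nat_lit 393264) (nat_lit 22) .nil)))) .nil)) 
(.lf (nat_lit 152643) (.g (nat_lit 1296) (.e (nat_lit 57400) (nat_lit 10) (.e (nat_lit 319533) (nat_lit 16) (.e (nat_lit 286760) (nat_lit 13) (.e (nat_lit 393265) (nat_lit 22) (.e (nat_lit 417804) (nat_lit 1) .nil))))) .nil))) (.nd (nat_lit 6) 
(.lf (nat_lit 152611) (.g (nat_lit 458) (.e (nat_lit 57400) (nat_lit 10) (.e (nat_lit 319533) (nat_lit 16) (.e (nat_lit 286742) (nat_lit 9) .nil))) .nil)) 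
(.lf (nat_lit 152675) (.g (nat_lit 1766) (.e (nat_lit 57400) (nat_lit 10) (.e (nat_lit 319533) (nat_lit 16) (.e (nat_lit 286761) (nat_lit 13) (.e (nat_lit 393283) (nat_lit 24) (.e (nat_lit 434209) (nat_lit 18) .nil))))) .nil)))) (.nd (nat_lit 5) (.nd (nat_lit 6) 
(.lf (nat_lit 152595) (.g (nat_lit 1431) (.e (nat_lit 57400) (nat_lit 10) (.e (nat_lit 319532) (nat_lit 16) (.e (nat_lit 286761) (nat_lit 13) (.e (nat_lit 393283) (nat_lit 24) .nil)))) .nil)) 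
(.lf (nat_lit 152659) (.g (nat_lit 1615) (.e (nat_lit 57400) (nat_lit 10) (.e (nat_lit 319533) (nat_lit 16) (.e (nat_lit 286761) (nat_lit 13) (.e (nat_lit 393267) (nat_lit 23) .nil)))) .nil))) (.nd (nat_lit 6) 
(.lf (nat_lit 152627) (.g (nat_lit 565) (.e (nat_lit 57400) (nat_lit 10) (.e (nat_lit 319533) (nat_lit 16) (.e (nat_lit 286744) (nat_lit 9) .nil))) .nil)) 
(.lf (nat_lit 152691) (.g (nat_lit 2046) (.e (nat_lit 57400) (nat_lit 10) (.e (nat_lit 319534) (nat_lit 16) (.e (nat_lit 286742) (nat_lit 9) (.e (nat_lit 336432) (nat_lit 30) (.e (nat_lit 450569) (nat_lit 0) (.e (nat_lit 5946) (nat_lit 322) .nil)))))) (.g (nat_lit 4) .nil .nil)))))) (.nd (nat_lit 4) (.nd (nat_lit 5) (.nd (nat_lit 6) 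
(.lf (nat_lit 152587) (.g (nat_lit 1889) (.e (nat_lit 57400) (nat_lit 10) (.e (nat_lit 319532) (nat_lit 16) (.e (nat_lit 286761) (nat_lit 13) (.e (nat_lit 393270) (nat_lit 23) (.e (nat_lit 426112) (nat_lit 1) .nil))))) .nil)) 
(.lf (nat_lit 152651) (.g (nat_lit 2803) (.e (nat_lit 57400) (nat_lit 10) (.e (nat_lit 319533) (nat_lit 16) (.e (nat_lit 286761) (nat_lit 13) (.e (nat_lit 393234) (nat_lit 17) (.e (nat_lit 7065) (nat_lit 377) (.e (nat_lit 1015) (nat_lit 81) (.e (nat_lit 52) (nat_lit 0) (.e (nat_lit 5949) (nat_lit 322) .nil)))))))) (.g (nat_lit 4) .nil .nil)))) (.nd (nat_lit 6) 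
(.lf (nat_lit 152619) (.g (nat_lit 1077) (.e (nat_lit 57400) (nat_lit 10) (.e (nat_lit 319533) (nat_lit 16) (.e (nat_lit 286743) (nat_lit 9) (.e (nat_lit 336434) (nat_lit 30) .nil)))) .nil)) 
(.lf (nat_lit 152683) (.g (nat_lit 2322) (.e (nat_lit 57400) (nat_lit 10) (.e (nat_lit 319533) (nat_lit 16) (.e (nat_lit 286761) (nat_lit 13) (.e (nat_lit 393289) (nat_lit 25) (.e (nat_lit 458776) (nat_lit 18) (.e (nat_lit 5948) (nat_lit 322) .nil)))))) (.g (nat_lit 4) .nil .nil))))) (.nd (nat_lit 5) (.nd (nat_lit 6) 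
(.lf (nat_lit 152603) (.g (nat_lit 1724) (.e (nat_lit 57400) (nat_lit 10) (.e (nat_lit 319532) (nat_lit 16) (.e (nat_lit 286761) (nat_lit 13) (.e (nat_lit 393289) (nat_lit 25) (.e (nat_lit 458774) (nat_lit 18) (.e (nat_lit 5946) (nat_lit 322) .nil)))))) (.g (nat_lit 4) .nil .nil))) 
(.lf (nat_lit 152667) (.g (nat_lit 1615) (.e (nat_lit 57400) (nat_lit 10) (.e (nat_lit 319533) (nat_lit 16) (.e (nat_lit 286761) (nat_lit 13) (.e (nat_lit 393277) (nat_lit 23) .nil)))) .nil))) (.nd (nat_lit 6) 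
(.lf (nat_lit 152635) (.g (nat_lit 5550) (.e (nat_lit 57400) (nat_lit 10) (.e (nat_lit 319533) (nat_lit 16) (.e (nat_lit 286748) (nat_lit 9) (.e (nat_lit 336389) (nat_lit 27) (.e (nat_lit 426265) (nat_lit 9) (.e (nat_lit 426100) (nat_lit 1) (.e (nat_lit 164403) (nat_lit 256) .nil))))))) (.g (nat_lit 7) .nil .nil))) 
(.lf (nat_lit 152699) (.g (nat_lit 1146) (.e (nat_lit 57400) (nat_lit 10) (.e (nat_lit 319534) (nat_lit 16) (.e (nat_lit 286743) (nat_lit 9) (.e (nat_lit 336434) (nat_lit 30) .nil)))) .nil)))))) (.nd (nat_lit 3) (.nd (nat_lit 4) (.nd (nat_lit 5) (.nd (nat_lit 6) 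
(.lf (nat_lit 152583) (.g (nat_lit 1917) (.e (nat_lit 57400) (nat_lit 10) (.e (nat_lit 319532) (nat_lit 16) (.e (nat_lit 286761) (nat_lit 13) (.e (nat_lit 393265) (nat_lit 22) (.e (nat_lit 417793) (nat_lit 0) (.e (nat_lit 52) (nat_lit 0) (.e (nat_lit 5949) (nat_lit 322) .nil))))))) (.g (nat_lit 4) .nil .nil))) 
(.lf (nat_lit 152647) (.g (nat_lit 935) (.e (nat_lit 57400) (nat_lit 10) (.e (nat_lit 319533) (nat_lit 16) (.e (nat_lit 286760) (nat_lit 13) (.e (nat_lit 393289) (nat_lit 25) .nil)))) .nil))) (.nd (nat_lit 6) 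
(.lf (nat_lit 152615) (.g (nat_lit 2813) (.e (nat_lit 57400) (nat_lit 10) (.e (nat_lit 319533) (nat_lit 16) (.e (nat_lit 286742) (nat_lit 9) (.e (nat_lit 336444) (nat_lit 32) (.e (nat_lit 466972) (nat_lit 21) (.e (nat_lit 164403) (nat_lit 256) .nil)))))) (.g (nat_lit 6) .nil .nil))) 
(.lf (nat_lit 152679) (.g (nat_lit 958) (.e (nat_lit 57400) (nat_lit 10) (.e (nat_lit 319533) (nat_lit 16) (.e (nat_lit 286761) (nat_lit 13) (.e (nat_lit 393289) (nat_lit 25) .nil)))) .nil)))) (.nd (nat_lit 5) (.nd (nat_lit 6) 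
(.lf (nat_lit 152599) (.g (nat_lit 2094) (.e (nat_lit 57400) (nat_lit 10) (.e (nat_lit 319532) (nat_lit 16) (.e (nat_lit 286761) (nat_lit 13) (.e (nat_lit 393288) (nat_lit 25) (.e (nat_lit 458774) (nat_lit 18) (.e (nat_lit 5951) (nat_lit 322) .nil)))))) (.g (nat_lit 4) .nil .nil))) 
(.lf (nat_lit 152663) (.g (nat_lit 2530) (.e (nat_lit 57400) (nat_lit 10) (.e (nat_lit 319533) (nat_lit 16) (.e (nat_lit 286761) (nat_lit 13) (.e (nat_lit 393270) (nat_lit 23) (.e (nat_lit 426112) (nat_lit 1) (.e (nat_lit 164398) (nat_lit 256) .nil)))))) (.g (nat_lit 4) .nil .nil)))) (.nd (nat_lit 6) 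
(.lf (nat_lit 152631) (.g (nat_lit 1805) (.e (nat_lit 57400) (nat_lit 10) (.e (nat_lit 319533) (nat_lit 16) (.e (nat_lit 286748) (nat_lit 9) (.e (nat_lit 336389) (nat_lit 27) .nil)))) .nil)) 
(.lf (nat_lit 152695) (.g (nat_lit 2475) (.e (nat_lit 57400) (nat_lit 10) (.e (nat_lit 319534) (nat_lit 16) (.e (nat_lit 286743) (nat_lit 9) (.e (nat_lit 336426) (nat_lit 29) (.e (nat_lit 442430) (nat_lit 24) (.e (nat_lit 229708) (nat_lit 256) .nil)))))) (.g (nat_lit 5) .nil .nil)))))) (.nd (nat_lit 4) (.nd (nat_lit 5) (.nd (nat_lit 6) 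
(.lf (nat_lit 152591) (.g (nat_lit 2257) (.e (nat_lit 57400) (nat_lit 10) (.e (nat_lit 319532) (nat_lit 16) (.e (nat_lit 286761) (nat_lit 13) (.e (nat_lit 393275) (nat_lit 23) (.e (nat_lit 426109) (nat_lit 1) (.e (nat_lit 164403) (nat_lit 256) .nil)))))) (.g (nat_lit 4) .nil .nil))) 
(.lf (nat_lit 152655) (.g (nat_lit 1434) (.e (nat_lit 57400) (nat_lit 10) (.e (nat_lit 319533) (nat_lit 16) (.e (nat_lit 286761) (nat_lit 13) (.e (nat_lit 393264) (nat_lit 22) .nil)))) .nil))) (.nd (nat_lit 6) 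
(.lf (nat_lit 152623) (.g (nat_lit 3685) (.e (nat_lit 57400) (nat_lit 10) (.e (nat_lit 319533) (nat_lit 16) (.e (nat_lit 286743) (nat_lit 9) (.e (nat_lit 336443) (nat_lit 32) (.e (nat_lit 466972) (nat_lit 21) (.e (nat_lit 164403) (nat_lit 256) .nil)))))) (.g (nat_lit 6) .nil .nil))) 
(.lf (nat_lit 152687) (.g (nat_lit 3588) (.e (nat_lit 57400) (nat_lit 10) (.e (nat_lit 319534) (nat_lit 16) (.e (nat_lit 286735) (nat_lit 3) (.e (nat_lit 98373) (nat_lit 29) (.e (nat_lit 450562) (nat_lit 0) (.e (nat_lit 7936) (nat_lit 235) .nil)))))) (.g (nat_lit 4) .nil .nil))))) (.nd (nat_lit 5) (.nd (nat_lit 6) 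
(.lf (nat_lit 152607) (.g (nat_lit 1867) (.e (nat_lit 57400) (nat_lit 10) (.e (nat_lit 319532) (nat_lit 16) (.e (nat_lit 286761) (nat_lit 13) (.e (nat_lit 393289) (nat_lit 25) (.e (nat_lit 466688) (nat_lit 18) (.e (nat_lit 5949) (nat_lit 322) .nil)))))) (.g (nat_lit 4) .nil .nil))) 
(.lf (nat_lit 152671) (.g (nat_lit 3788) (.e (nat_lit 57400) (nat_lit 10) (.e (nat_lit 319533) (nat_lit 16) (.e (nat_lit 286761) (nat_lit 13) (.e (nat_lit 393281) (nat_lit 23) (.e (nat_lit 426100) (nat_lit 1) (.e (nat_lit 164398) (nat_lit 256) .nil)))))) (.g (nat_lit 6) .nil .nil)))) (.nd (nat_lit 6) 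
(.lf (nat_lit 152639) (.g (nat_lit 1426) (.e (nat_lit 57400) (nat_lit 10) (.e (nat_lit 319533) (nat_lit 16) (.e (nat_lit 286753) (nat_lit 10) (.e (nat_lit 344090) (nat_lit 18) (.e (nat_lit 6923) (nat_lit 371) .nil))))) .nil)) 
(.lf (nat_lit 152703) (.g (nat_lit 3514) (.e (nat_lit 57400) (nat_lit 10) (.e (nat_lit 319534) (nat_lit 16) (.e (nat_lit 286743) (nat_lit 9) (.e (nat_lit 336443) (nat_lit 32) (.e (nat_lit 466972) (nat_lit 21) (.e (nat_lit 164403) (nat_lit 256) .nil)))))) (.g (nat_lit 6) .nil .nil))))))))))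

noncomputable def tv2034 : DT := (.nd (nat_lit 0) (.nd (nat_lit 1) (.nd (nat_lit 2) (.nd (nat_lit 3) (.nd (nat_lit 4) (.nd (nat_lit 5) 
(.lf (nat_lit 152704) (.g (nat_lit 3202) (.e (nat_lit 57400) (nat_lit 10) (.e (nat_lit 319534) (nat_lit 16) (.e (nat_lit 286743) (nat_lit 9) (.e (nat_lit 336444) (nat_lit 32) (.e (nat_lit 466972) (nat_lit 21) (.e (nat_lit 164402) (nat_lit 256) .nil)))))) (.g (nat_lit 0) .nil .nil))) 
(.lf (nat_lit 152736) (.g (nat_lit 2484) (.e (nat_lit 57400) (nat_lit 10) (.e (nat_lit 319534) (nat_lit 16) (.e (nat_lit 286761) (nat_lit 13) (.e (nat_lit 393234) (nat_lit 17) (.e (nat_lit 7065) (nat_lit 377) .nil))))) .nil))) (.nd (nat_lit 5) 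
(.lf (nat_lit 152720) (.g (nat_lit 1476) (.e (nat_lit 57400) (nat_lit 10) (.e (nat_lit 319534) (nat_lit 16) (.e (nat_lit 286749) (nat_lit 9) (.e (nat_lit 336248) (nat_lit 15) .nil)))) .nil)) 
(.lf (nat_lit 152752) (.g (nat_lit 1325) (.e (nat_lit 57400) (nat_lit 10) (.e (nat_lit 319534) (nat_lit 16) (.e (nat_lit 286761) (nat_lit 13) (.e (nat_lit 393275) (nat_lit 23) .nil)))) .nil)))) (.nd (nat_lit 4) (.nd (nat_lit 5) 
(.lf (nat_lit 152712) (.g (nat_lit 4177) (.e (nat_lit 57400) (nat_lit 10) (.e (nat_lit 319534) (nat_lit 16) (.e (nat_lit 286748) (nat_lit 9) (.e (nat_lit 336389) (nat_lit 27) (.e (nat_lit 426263) (nat_lit 9) (.e (nat_lit 426100) (nat_lit 1) (.e (nat_lit 164398) (nat_lit 256) .nil))))))) (.g (nat_lit 4) .nil .nil))) 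
(.lf (nat_lit 152744) (.g (nat_lit 1608) (.e (nat_lit 57400) (nat_lit 10) (.e (nat_lit 319534) (nat_lit 16) (.e (nat_lit 286761) (nat_lit 13) (.e (nat_lit 393267) (nat_lit 23) .nil)))) .nil))) (.nd (nat_lit 5) 
(.lf (nat_lit 152728) (.g (nat_lit 2073) (.e (nat_lit 57400) (nat_lit 10) (.e (nat_lit 319534) (nat_lit 16) (.e (nat_lit 286756) (nat_lit 10) (.e (nat_lit 344090) (nat_lit 18) (.e (nat_lit 6923) (nat_lit 371) .nil))))) .nil)) 
(.lf (nat_lit 152760) (.g (nat_lit 2294) (.e (nat_lit 57400) (nat_lit 10) (.e (nat_lit 319534) (nat_lit 16) (.e (nat_lit 286761) (nat_lit 13) (.e (nat_lit 393283) (nat_lit 24) (.e (nat_lit 434208) (nat_lit 18) (.e (nat_lit 5945) (nat_lit 322) .nil)))))) (.g (nat_lit 4) .nil .nil)))))) (.nd (nat_lit 3) (.nd (nat_lit 4) (.nd (nat_lit 5) 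
(.lf (nat_lit 152708) (.g (nat_lit 975) (.e (nat_lit 57400) (nat_lit 10) (.e (nat_lit 319534) (nat_lit 16) (.e (nat_lit 286747) (nat_lit 9) .nil))) .nil)) 
(.lf (nat_lit 152740) (.g (nat_lit 1290) (.e (nat_lit 57400) (nat_lit 10) (.e (nat_lit 319534) (nat_lit 16) (.e (nat_lit 286761) (nat_lit 13) (.e (nat_lit 393264) (nat_lit 22) (.e (nat_lit 417804) (nat_lit 1) .nil))))) .nil))) (.nd (nat_lit 5) 
(.lf (nat_lit 152724) (.g (nat_lit 2300) (.e (nat_lit 57400) (nat_lit 10) (.e (nat_lit 319534) (nat_lit 16) (.e (nat_lit 286749) (nat_lit 9) (.e (nat_lit 343808) (nat_lit 29) (.e (nat_lit 442430) (nat_lit 24) (.e (nat_lit 229708) (nat_lit 256) .nil)))))) (.g (nat_lit 5) .nil .nil))) 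
(.lf (nat_lit 152756) (.g (nat_lit 2132) (.e (nat_lit 57400) (nat_lit 10) (.e (nat_lit 319534) (nat_lit 16) (.e (nat_lit 286761) (nat_lit 13) (.e (nat_lit 393281) (nat_lit 23) (.e (nat_lit 426099) (nat_lit 1) (.e (nat_lit 164398) (nat_lit 256) .nil)))))) (.g (nat_lit 4) .nil .nil))))) (.nd (nat_lit 4) (.nd (nat_lit 5) 
(.lf (nat_lit 152716) (.g (nat_lit 5469) (.e (nat_lit 57400) (nat_lit 10) (.e (nat_lit 319534) (nat_lit 16) (.e (nat_lit 286748) (nat_lit 9) (.e (nat_lit 336389) (nat_lit 27) (.e (nat_lit 426265) (nat_lit 9) (.e (nat_lit 426100) (nat_lit 1) (.e (nat_lit 164403) (nat_lit 256) .nil))))))) (.g (nat_lit 7) .nil .nil))) 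
(.lf (nat_lit 152748) (.g (nat_lit 2384) (.e (nat_lit 57400) (nat_lit 10) (.e (nat_lit 319534) (nat_lit 16) (.e (nat_lit 286761) (nat_lit 13) (.e (nat_lit 393270) (nat_lit 23) (.e (nat_lit 426111) (nat_lit 1) (.e (nat_lit 164402) (nat_lit 256) .nil)))))) (.g (nat_lit 4) .nil .nil)))) (.nd (nat_lit 5) 
(.lf (nat_lit 152732) (.g (nat_lit 1352) (.e (nat_lit 57400) (nat_lit 10) (.e (nat_lit 319534) (nat_lit 16) (.e (nat_lit 286760) (nat_lit 13) (.e (nat_lit 393265) (nat_lit 22) .nil)))) .nil)) 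
(.lf (nat_lit 152764) (.g (nat_lit 2674) (.e (nat_lit 57400) (nat_lit 10) (.e (nat_lit 319534) (nat_lit 16) (.e (nat_lit 286761) (nat_lit 13) (.e (nat_lit 393288) (nat_lit 25) (.e (nat_lit 458774) (nat_lit 18) (.e (nat_lit 5946) (nat_lit 322) .nil)))))) (.g (nat_lit 5) .nil .nil))))))) (.nd (nat_lit 2) (.nd (nat_lit 3) (.nd (nat_lit 4) (.nd (nat_lit 5) 
(.lf (nat_lit 152706) (.g (nat_lit 1065) (.e (nat_lit 57400) (nat_lit 10) (.e (nat_lit 319534) (nat_lit 16) (.e (nat_lit 286744) (nat_lit 9) .nil))) .nil)) 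
(.lf (nat_lit 152738) (.g (nat_lit 3120) (.e (nat_lit 57400) (nat_lit 10) (.e (nat_lit 319534) (nat_lit 16) (.e (nat_lit 286761) (nat_lit 13) (.e (nat_lit 393234) (nat_lit 17) (.e (nat_lit 7355) (nat_lit 388) .nil))))) .nil))) (.nd (nat_lit 5) 
(.lf (nat_lit 152722) (.g (nat_lit 2404) (.e (nat_lit 57400) (nat_lit 10) (.e (nat_lit 319534) (nat_lit 16) (.e (nat_lit 286749) (nat_lit 9) (.e (nat_lit 336385) (nat_lit 27) (.e (nat_lit 426265) (nat_lit 9) (.e (nat_lit 426100) (nat_lit 1) (.e (nat_lit 164403) (nat_lit 256) .nil))))))) (.g (nat_lit 4) .nil .nil))) 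
(.lf (nat_lit 152754) (.g (nat_lit 1608) (.e (nat_lit 57400) (nat_lit 10) (.e (nat_lit 319534) (nat_lit 16) (.e (nat_lit 286761) (nat_lit 13) (.e (nat_lit 393277) (nat_lit 23) .nil)))) .nil)))) (.nd (nat_lit 4) (.nd (nat_lit 5) 
(.lf (nat_lit 152714) (.g (nat_lit 3110) (.e (nat_lit 57400) (nat_lit 10) (.e (nat_lit 319534) (nat_lit 16) (.e (nat_lit 286748) (nat_lit 9) (.e (nat_lit 336389) (nat_lit 27) (.e (nat_lit 426265) (nat_lit 9) .nil))))) .nil)) 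
(.lf (nat_lit 152746) (.g (nat_lit 1204) (.e (nat_lit 57400) (nat_lit 10) (.e (nat_lit 319534) (nat_lit 16) (.e (nat_lit 286761) (nat_lit 13) (.e (nat_lit 393270) (nat_lit 23) .nil)))) .nil))) (.nd (nat_lit 5) 
(.lf (nat_lit 152730) (.g (nat_lit 2553) (.e (nat_lit 57400) (nat_lit 10) (.e (nat_lit 319534) (nat_lit 16) (.e (nat_lit 286756) (nat_lit 10) (.e (nat_lit 344172) (nat_lit 41) (.e (nat_lit 753688) (nat_lit 9) (.e (nat_lit 172070) (nat_lit 4) (.e (nat_lit 229708) (nat_lit 256) .nil))))))) (.g (nat_lit 4) .nil .nil))) 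
(.lf (nat_lit 152762) (.g (nat_lit 1608) (.e (nat_lit 57400) (nat_lit 10) (.e (nat_lit 319534) (nat_lit 16) (.e (nat_lit 286761) (nat_lit 13) (.e (nat_lit 393286) (nat_lit 25) .nil)))) .nil))))) (.nd (nat_lit 3) (.nd (nat_lit 4) (.nd (nat_lit 5) 
(.lf (nat_lit 152710) (.g (nat_lit 1859) (.e (nat_lit 57400) (nat_lit 10) (.e (nat_lit 319534) (nat_lit 16) (.e (nat_lit 286748) (nat_lit 9) (.e (nat_lit 336389) (nat_lit 27) .nil)))) .nil)) 
(.lf (nat_lit 152742) (.g (nat_lit 1839) (.e (nat_lit 57400) (nat_lit 10) (.e (nat_lit 319534) (nat_lit 16) (.e (nat_lit 286761) (nat_lit 13) (.e (nat_lit 393265) (nat_lit 22) (.e (nat_lit 417802) (nat_lit 0) .nil))))) .nil))) (.nd (nat_lit 5) 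
(.lf (nat_lit 152726) (.g (nat_lit 662) (.e (nat_lit 57400) (nat_lit 10) (.e (nat_lit 319534) (nat_lit 16) (.e (nat_lit 286756) (nat_lit 10) .nil))) .nil)) 
(.lf (nat_lit 152758) (.g (nat_lit 3502) (.e (nat_lit 57400) (nat_lit 10) (.e (nat_lit 319534) (nat_lit 16) (.e (nat_lit 286761) (nat_lit 13) (.e (nat_lit 393281) (nat_lit 23) (.e (nat_lit 426100) (nat_lit 1) (.e (nat_lit 164403) (nat_lit 256) .nil)))))) (.g (nat_lit 6) .nil .nil))))) (.nd (nat_lit 4) (.nd (nat_lit 5) 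
(.lf (nat_lit 152718) (.g (nat_lit 3188) (.e (nat_lit 57400) (nat_lit 10) (.e (nat_lit 319534) (nat_lit 16) (.e (nat_lit 286748) (nat_lit 9) (.e (nat_lit 336389) (nat_lit 27) (.e (nat_lit 426300) (nat_lit 11) (.e (nat_lit 458774) (nat_lit 18) (.e (nat_lit 5939) (nat_lit 322) .nil))))))) (.g (nat_lit 4) .nil .nil))) 
(.lf (nat_lit 152750) (.g (nat_lit 2558) (.e (nat_lit 57400) (nat_lit 10) (.e (nat_lit 319534) (nat_lit 16) (.e (nat_lit 286761) (nat_lit 13) (.e (nat_lit 393270) (nat_lit 23) (.e (nat_lit 426112) (nat_lit 1) (.e (nat_lit 164396) (nat_lit 256) .nil)))))) (.g (nat_lit 4) .nil .nil)))) (.nd (nat_lit 5) 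
(.lf (nat_lit 152734) (.g (nat_lit 1357) (.e (nat_lit 57400) (nat_lit 10) (.e (nat_lit 319534) (nat_lit 16) (.e (nat_lit 286760) (nat_lit 13) (.e (nat_lit 393289) (nat_lit 25) .nil)))) .nil)) 
(.lf (nat_lit 152766) (.g (nat_lit 904) (.e (nat_lit 57400) (nat_lit 10) (.e (nat_lit 319534) (nat_lit 16) (.e (nat_lit 286761) (nat_lit 13) (.e (nat_lit 393289) (nat_lit 25) .nil)))) .nil))))))) (.nd (nat_lit 1) (.nd (nat_lit 2) (.nd (nat_lit 3) (.nd (nat_lit 4) (.nd (nat_lit 5) 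
(.lf (nat_lit 152705) (.g (nat_lit 3218) (.e (nat_lit 57400) (nat_lit 10) (.e (nat_lit 319534) (nat_lit 16) (.e (nat_lit 286743) (nat_lit 9) (.e (nat_lit 336444) (nat_lit 32) (.e (nat_lit 466972) (nat_lit 21) (.e (nat_lit 164403) (nat_lit 256) .nil)))))) (.g (nat_lit 6) .nil .nil))) 
(.lf (nat_lit 152737) (.g (nat_lit 3031) (.e (nat_lit 57400) (nat_lit 10) (.e (nat_lit 319534) (nat_lit 16) (.e (nat_lit 286761) (nat_lit 13) (.e (nat_lit 393234) (nat_lit 17) (.e (nat_lit 7345) (nat_lit 388) .nil))))) .nil))) (.nd (nat_lit 5) 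
(.lf (nat_lit 152721) (.g (nat_lit 2237) (.e (nat_lit 57400) (nat_lit 10) (.e (nat_lit 319534) (nat_lit 16) (.e (nat_lit 286749) (nat_lit 9) (.e (nat_lit 336385) (nat_lit 27) (.e (nat_lit 426265) (nat_lit 9) (.e (nat_lit 426100) (nat_lit 1) (.e (nat_lit 164398) (nat_lit 256) .nil))))))) (.g (nat_lit 4) .nil .nil))) 
(.lf (nat_lit 152753) (.g (nat_lit 2462) (.e (nat_lit 57400) (nat_lit 10) (.e (nat_lit 319534) (nat_lit 16) (.e (nat_lit 286761) (nat_lit 13) (.e (nat_lit 393275) (nat_lit 23) (.e (nat_lit 426109) (nat_lit 1) (.e (nat_lit 164402) (nat_lit 256) .nil)))))) (.g (nat_lit 5) .nil .nil))))) (.nd (nat_lit 4) (.nd (nat_lit 5) 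
(.lf (nat_lit 152713) (.g (nat_lit 4457) (.e (nat_lit 57400) (nat_lit 10) (.e (nat_lit 319534) (nat_lit 16) (.e (nat_lit 286748) (nat_lit 9) (.e (nat_lit 336389) (nat_lit 27) (.e (nat_lit 426263) (nat_lit 9) (.e (nat_lit 426100) (nat_lit 1) (.e (nat_lit 164403) (nat_lit 256) .nil))))))) (.g (nat_lit 5) .nil .nil))) 
(.lf (nat_lit 152745) (.g (nat_lit 1608) (.e (nat_lit 57400) (nat_lit 10) (.e (nat_lit 319534) (nat_lit 16) (.e (nat_lit 286761) (nat_lit 13) (.e (nat_lit 393269) (nat_lit 23) .nil)))) .nil))) (.nd (nat_lit 5) 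
(.lf (nat_lit 152729) (.g (nat_lit 1533) (.e (nat_lit 57400) (nat_lit 10) (.e (nat_lit 319534) (nat_lit 16) (.e (nat_lit 286756) (nat_lit 10) (.e (nat_lit 344172) (nat_lit 41) .nil)))) .nil)) 
(.lf (nat_lit 152761) (.g (nat_lit 1306) (.e (nat_lit 57400) (nat_lit 10) (.e (nat_lit 319534) (nat_lit 16) (.e (nat_lit 286761) (nat_lit 13) (.e (nat_lit 393284) (nat_lit 24) .nil)))) .nil))))) (.nd (nat_lit 3) (.nd (nat_lit 4) (.nd (nat_lit 5) 
(.lf (nat_lit 152709) (.g (nat_lit 906) (.e (nat_lit 57400) (nat_lit 10) (.e (nat_lit 319534) (nat_lit 16) (.e (nat_lit 286748) (nat_lit 9) .nil))) .nil)) 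
(.lf (nat_lit 152741) (.g (nat_lit 2425) (.e (nat_lit 57400) (nat_lit 10) (.e (nat_lit 319534) (nat_lit 16) (.e (nat_lit 286761) (nat_lit 13) (.e (nat_lit 393265) (nat_lit 22) (.e (nat_lit 417793) (nat_lit 0) (.e (nat_lit 52) (nat_lit 0) (.e (nat_lit 5949) (nat_lit 322) .nil))))))) (.g (nat_lit 4) .nil .nil)))) (.nd (nat_lit 5) 
(.lf (nat_lit 152725) (.g (nat_lit 1131) (.e (nat_lit 57400) (nat_lit 10) (.e (nat_lit 319534) (nat_lit 16) (.e (nat_lit 286749) (nat_lit 9) (.e (nat_lit 343808) (nat_lit 30) .nil)))) .nil)) 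
(.lf (nat_lit 152757) (.g (nat_lit 3530) (.e (nat_lit 57400) (nat_lit 10) (.e (nat_lit 319534) (nat_lit 16) (.e (nat_lit 286761) (nat_lit 13) (.e (nat_lit 393281) (nat_lit 23) (.e (nat_lit 426100) (nat_lit 1) (.e (nat_lit 164398) (nat_lit 256) .nil)))))) (.g (nat_lit 0) .nil .nil))))) (.nd (nat_lit 4) (.nd (nat_lit 5) 
(.lf (nat_lit 152717) (.g (nat_lit 2962) (.e (nat_lit 57400) (nat_lit 10) (.e (nat_lit 319534) (nat_lit 16) (.e (nat_lit 286748) (nat_lit 9) (.e (nat_lit 336389) (nat_lit 27) (.e (nat_lit 426300) (nat_lit 11) .nil))))) .nil)) 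
(.lf (nat_lit 152749) (.g (nat_lit 1930) (.e (nat_lit 57400) (nat_lit 10) (.e (nat_lit 319534) (nat_lit 16) (.e (nat_lit 286761) (nat_lit 13) (.e (nat_lit 393270) (nat_lit 23) (.e (nat_lit 426112) (nat_lit 1) .nil))))) .nil))) (.nd (nat_lit 5) 
(.lf (nat_lit 152733) (.g (nat_lit 3173) (.e (nat_lit 57400) (nat_lit 10) (.e (nat_lit 319534) (nat_lit 16) (.e (nat_lit 286760) (nat_lit 13) (.e (nat_lit 393281) (nat_lit 23) (.e (nat_lit 426100) (nat_lit 1) (.e (nat_lit 164398) (nat_lit 256) .nil)))))) (.g (nat_lit 5) .nil .nil))) 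
(.lf (nat_lit 152765) (.g (nat_lit 3074) (.e (nat_lit 57400) (nat_lit 10) (.e (nat_lit 319534) (nat_lit 16) (.e (nat_lit 286761) (nat_lit 13) (.e (nat_lit 393288) (nat_lit 25) (.e (nat_lit 458774) (nat_lit 18) (.e (nat_lit 5951) (nat_lit 322) .nil)))))) (.g (nat_lit 5) .nil .nil))))))) (.nd (nat_lit 2) (.nd (nat_lit 3) (.nd (nat_lit 4) (.nd (nat_lit 5) 
(.lf (nat_lit 152707) (.g (nat_lit 1046) (.e (nat_lit 57400) (nat_lit 10) (.e (nat_lit 319534) (nat_lit 16) (.e (nat_lit 286745) (nat_lit 9) .nil))) .nil)) 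
(.lf (nat_lit 152739) (.g (nat_lit 1242) (.e (nat_lit 57400) (nat_lit 10) (.e (nat_lit 319534) (nat_lit 16) (.e (nat_lit 286761) (nat_lit 13) (.e (nat_lit 393264) (nat_lit 22) (.e (nat_lit 417794) (nat_lit 0) .nil))))) .nil))) (.nd (nat_lit 5) 
(.lf (nat_lit 152723) (.g (nat_lit 1131) (.e (nat_lit 57400) (nat_lit 10) (.e (nat_lit 319534) (nat_lit 16) (.e (nat_lit 286749) (nat_lit 9) (.e (nat_lit 343808) (nat_lit 29) .nil)))) .nil)) 
(.lf (nat_lit 152755) (.g (nat_lit 1608) (.e (nat_lit 57400) (nat_lit 10) (.e (nat_lit 319534) (nat_lit 16) (.e (nat_lit 286761) (nat_lit 13) (.e (nat_lit 393279) (nat_lit 23) .nil)))) .nil)))) (.nd (nat_lit 4) (.nd (nat_lit 5) 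
(.lf (nat_lit 152715) (.g (nat_lit 3208) (.e (nat_lit 57400) (nat_lit 10) (.e (nat_lit 319534) (nat_lit 16) (.e (nat_lit 286748) (nat_lit 9) (.e (nat_lit 336389) (nat_lit 27) (.e (nat_lit 426265) (nat_lit 9) (.e (nat_lit 426100) (nat_lit 1) (.e (nat_lit 164399) (nat_lit 256) .nil))))))) (.g (nat_lit 4) .nil .nil))) 
(.lf (nat_lit 152747) (.g (nat_lit 1959) (.e (nat_lit 57400) (nat_lit 10) (.e (nat_lit 319534) (nat_lit 16) (.e (nat_lit 286761) (nat_lit 13) (.e (nat_lit 393270) (nat_lit 23) (.e (nat_lit 426068) (nat_lit 0) .nil))))) .nil))) (.nd (nat_lit 5) 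
(.lf (nat_lit 152731) (.g (nat_lit 761) (.e (nat_lit 57400) (nat_lit 10) (.e (nat_lit 319534) (nat_lit 16) (.e (nat_lit 286760) (nat_lit 13) .nil))) .nil)) 
(.lf (nat_lit 152763) (.g (nat_lit 1538) (.e (nat_lit 57400) (nat_lit 10) (.e (nat_lit 319534) (nat_lit 16) (.e (nat_lit 286761) (nat_lit 13) (.e (nat_lit 393288) (nat_lit 25) .nil)))) .nil))))) (.nd (nat_lit 3) (.nd (nat_lit 4) (.nd (nat_lit 5) 
(.lf (nat_lit 152711) (.g (nat_lit 3401) (.e (nat_lit 57400) (nat_lit 10) (.e (nat_lit 319534) (nat_lit 16) (.e (nat_lit 286748) (nat_lit 9) (.e (nat_lit 336389) (nat_lit 27) (.e (nat_lit 426263) (nat_lit 9) .nil))))) .nil)) 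
(.lf (nat_lit 152743) (.g (nat_lit 1500) (.e (nat_lit 57400) (nat_lit 10) (.e (nat_lit 319534) (nat_lit 16) (.e (nat_lit 286761) (nat_lit 13) (.e (nat_lit 393265) (nat_lit 22) (.e (nat_lit 417804) (nat_lit 1) .nil))))) .nil))) (.nd (nat_lit 5) 
(.lf (nat_lit 152727) (.g (nat_lit 1465) (.e (nat_lit 57400) (nat_lit 10) (.e (nat_lit 319534) (nat_lit 16) (.e (nat_lit 286756) (nat_lit 10) (.e (nat_lit 344090) (nat_lit 18) .nil)))) .nil)) 
(.lf (nat_lit 152759) (.g (nat_lit 2657) (.e (nat_lit 57400) (nat_lit 10) (.e (nat_lit 319534) (nat_lit 16) (.e (nat_lit 286761) (nat_lit 13) (.e (nat_lit 393283) (nat_lit 24) (.e (nat_lit 434200) (nat_lit 18) (.e (nat_lit 5954) (nat_lit 322) .nil)))))) (.g (nat_lit 5) .nil .nil))))) (.nd (nat_lit 4) (.nd (nat_lit 5) 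
(.lf (nat_lit 152719) (.g (nat_lit 3060) (.e (nat_lit 57400) (nat_lit 10) (.e (nat_lit 319534) (nat_lit 16) (.e (nat_lit 286748) (nat_lit 9) (.e (nat_lit 336389) (nat_lit 27) (.e (nat_lit 426300) (nat_lit 11) (.e (nat_lit 458774) (nat_lit 18) (.e (nat_lit 5951) (nat_lit 322) .nil))))))) (.g (nat_lit 4) .nil .nil))) 
(.lf (nat_lit 152751) (.g (nat_lit 2049) (.e (nat_lit 57400) (nat_lit 10) (.e (nat_lit 319534) (nat_lit 16) (.e (nat_lit 286761) (nat_lit 13) (.e (nat_lit 393270) (nat_lit 23) (.e (nat_lit 426112) (nat_lit 1) (.e (nat_lit 164400) (nat_lit 256) .nil)))))) (.g (nat_lit 4) .nil .nil)))) (.nd (nat_lit 5) 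
(.lf (nat_lit 152735) (.g (nat_lit 407) (.e (nat_lit 57400) (nat_lit 10) (.e (nat_lit 319534) (nat_lit 16) (.e (nat_lit 286761) (nat_lit 13) .nil))) .nil)) 
(.lf (nat_lit 152767) (.g (nat_lit 1940) (.e (nat_lit 57400) (nat_lit 10) (.e (nat_lit 319534) (nat_lit 16) (.e (nat_lit 286761) (nat_lit 13) (.e (nat_lit 393289) (nat_lit 25) (.e (nat_lit 458771) (nat_lit 18) (.e (nat_lit 5951) (nat_lit 322) .nil)))))) (.g (nat_lit 4) .nil .nil)))))))))

noncomputable def tv2035 : DT := (.nd (nat_lit 0) (.nd (nat_lit 1) (.nd (nat_lit 2) (.nd (nat_lit 3) (.nd (nat_lit 4) (.nd (nat_lit 5) 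
(.lf (nat_lit 152768) (.g (nat_lit 2140) (.e (nat_lit 57400) (nat_lit 10) (.e (nat_lit 319534) (nat_lit 16) (.e (nat_lit 286761) (nat_lit 13) (.e (nat_lit 393289) (nat_lit 25) (.e (nat_lit 458771) (nat_lit 18) (.e (nat_lit 5953) (nat_lit 322) .nil)))))) (.g (nat_lit 4) .nil .nil))) 
(.lf (nat_lit 152800) (.g (nat_lit 2419) (.e (nat_lit 57404) (nat_lit 12) (.e (nat_lit 336013) (nat_lit 2) (.e (nat_lit 90170) (nat_lit 13) (.e (nat_lit 172082) (nat_lit 7) .nil)))) .nil))) (.nd (nat_lit 5) 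
(.lf (nat_lit 152784) (.g (nat_lit 3114) (.e (nat_lit 57403) (nat_lit 11) (.e (nat_lit 327698) (nat_lit 8) (.e (nat_lit 303127) (nat_lit 9) (.e (nat_lit 426538) (nat_lit 29) (.e (nat_lit 352318) (nat_lit 24) (.e (nat_lit 123195) (nat_lit 266) .nil)))))) (.g (nat_lit 0) .nil .nil))) 
(.lf (nat_lit 152816) (.g (nat_lit 2819) (.e (nat_lit 57404) (nat_lit 12) (.e (nat_lit 336013) (nat_lit 2) (.e (nat_lit 90170) (nat_lit 13) (.e (nat_lit 172113) (nat_lit 10) (.e (nat_lit 434245) (nat_lit 28) (.e (nat_lit 573473) (nat_lit 12) (.e (nat_lit 57352) (nat_lit 0) (.e (nat_lit 7266) (nat_lit 384) .nil)))))))) (.g (nat_lit 5) .nil .nil))))) (.nd (nat_lit 4) (.nd (nat_lit 5) 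
(.lf (nat_lit 152776) (.g (nat_lit 2554) (.e (nat_lit 57400) (nat_lit 10) (.e (nat_lit 319536) (nat_lit 17) (.e (nat_lit 294938) (nat_lit 9) (.e (nat_lit 336443) (nat_lit 32) (.e (nat_lit 466972) (nat_lit 21) (.e (nat_lit 164402) (nat_lit 256) .nil)))))) (.g (nat_lit 5) .nil .nil))) 
(.lf (nat_lit 152808) (.g (nat_lit 4531) (.e (nat_lit 57404) (nat_lit 12) (.e (nat_lit 336013) (nat_lit 2) (.e (nat_lit 90170) (nat_lit 13) (.e (nat_lit 172106) (nat_lit 10) (.e (nat_lit 434244) (nat_lit 28) (.e (nat_lit 573473) (nat_lit 12) (.e (nat_lit 57347) (nat_lit 0) (.e (nat_lit 7266) (nat_lit 384) .nil)))))))) (.g (nat_lit 8) .nil .nil)))) (.nd (nat_lit 5) 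
(.lf (nat_lit 152792) (.g (nat_lit 1394) (.e (nat_lit 57403) (nat_lit 11) (.e (nat_lit 327715) (nat_lit 16) (.e (nat_lit 286761) (nat_lit 13) (.e (nat_lit 393234) (nat_lit 17) .nil)))) .nil)) 
(.lf (nat_lit 152824) (.g (nat_lit 4683) (.e (nat_lit 57404) (nat_lit 12) (.e (nat_lit 336013) (nat_lit 2) (.e (nat_lit 90170) (nat_lit 13) (.e (nat_lit 172113) (nat_lit 10) (.e (nat_lit 434248) (nat_lit 28) (.e (nat_lit 573473) (nat_lit 12) (.e (nat_lit 57347) (nat_lit 0) (.e (nat_lit 7266) (nat_lit 384) .nil)))))))) (.g (nat_lit 8) .nil .nil)))))) 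
(.nd (nat_lit 3) (.nd (nat_lit 4) (.nd (nat_lit 5) 
(.lf (nat_lit 152772) (.g (nat_lit 2389) (.e (nat_lit 57400) (nat_lit 10) (.e (nat_lit 319535) (nat_lit 17) (.e (nat_lit 294941) (nat_lit 9) (.e (nat_lit 336443) (nat_lit 32) (.e (nat_lit 466972) (nat_lit 21) .nil))))) .nil)) 
(.lf (nat_lit 152804) (.g (nat_lit 4118) (.e (nat_lit 57404) (nat_lit 12) (.e (nat_lit 336013) (nat_lit 2) (.e (nat_lit 90170) (nat_lit 13) (.e (nat_lit 172106) (nat_lit 10) (.e (nat_lit 434231) (nat_lit 23) (.e (nat_lit 532499) (nat_lit 1) (.e (nat_lit 65280) (nat_lit 223) .nil))))))) (.g (nat_lit 6) .nil .nil)))) (.nd (nat_lit 5) 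
(.lf (nat_lit 152788) (.g (nat_lit 1030) (.e (nat_lit 57403) (nat_lit 11) (.e (nat_lit 327698) (nat_lit 8) (.e (nat_lit 303145) (nat_lit 13) (.e (nat_lit 483377) (nat_lit 22) .nil)))) .nil)) 
(.lf (nat_lit 152820) (.g (nat_lit 2178) (.e (nat_lit 57404) (nat_lit 12) (.e (nat_lit 336013) (nat_lit 2) (.e (nat_lit 90170) (nat_lit 13) (.e (nat_lit 172113) (nat_lit 10) (.e (nat_lit 434247) (nat_lit 28) (.e (nat_lit 573478) (nat_lit 12) (.e (nat_lit 57344) (nat_lit 0) (.e (nat_lit 7263) (nat_lit 384) .nil)))))))) (.g (nat_lit 4) .nil .nil))))) (.nd (nat_lit 4) (.nd (nat_lit 5) 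
(.lf (nat_lit 152780) (.g (nat_lit 2521) (.e (nat_lit 57400) (nat_lit 10) (.e (nat_lit 319536) (nat_lit 17) (.e (nat_lit 294958) (nat_lit 13) (.e (nat_lit 393281) (nat_lit 23) (.e (nat_lit 426100) (nat_lit 1) (.e (nat_lit 164398) (nat_lit 256) .nil)))))) (.g (nat_lit 6) .nil .nil))) 
(.lf (nat_lit 152812) (.g (nat_lit 4591) (.e (nat_lit 57404) (nat_lit 12) (.e (nat_lit 336013) (nat_lit 2) (.e (nat_lit 90170) (nat_lit 13) (.e (nat_lit 172113) (nat_lit 10) (.e (nat_lit 434242) (nat_lit 28) (.e (nat_lit 573474) (nat_lit 12) (.e (nat_lit 57347) (nat_lit 0) (.e (nat_lit 7265) (nat_lit 384) .nil)))))))) (.g (nat_lit 7) .nil .nil)))) (.nd (nat_lit 5) 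
(.lf (nat_lit 152796) (.g (nat_lit 1808) (.e (nat_lit 57404) (nat_lit 12) (.e (nat_lit 336013) (nat_lit 2) (.e (nat_lit 90170) (nat_lit 13) (.e (nat_lit 172079) (nat_lit 7) .nil)))) .nil)) 
(.lf (nat_lit 152828) (.g (nat_lit 2942) (.e (nat_lit 57404) (nat_lit 12) (.e (nat_lit 336013) (nat_lit 2) (.e (nat_lit 90170) (nat_lit 13) (.e (nat_lit 172113) (nat_lit 10) (.e (nat_lit 434248) (nat_lit 28) (.e (nat_lit 573473) (nat_lit 12) (.e (nat_lit 57353) (nat_lit 0) (.e (nat_lit 7263) (nat_lit 384) .nil)))))))) (.g (nat_lit 5) .nil .nil))))))) 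
(.nd (nat_lit 2) (.nd (nat_lit 3) (.nd (nat_lit 4) (.nd (nat_lit 5) 
(.lf (nat_lit 152770) (.g (nat_lit 2512) (.e (nat_lit 57400) (nat_lit 10) (.e (nat_lit 319534) (nat_lit 16) (.e (nat_lit 286761) (nat_lit 13) (.e (nat_lit 393289) (nat_lit 25) (.e (nat_lit 458774) (nat_lit 18) (.e (nat_lit 5946) (nat_lit 322) .nil)))))) (.g (nat_lit 5) .nil .nil))) 
(.lf (nat_lit 152802) (.g (nat_lit 3118) (.e (nat_lit 57404) (nat_lit 12) (.e (nat_lit 336013) (nat_lit 2) (.e (nat_lit 90170) (nat_lit 13) (.e (nat_lit 172106) (nat_lit 10) (.e (nat_lit 434231) (nat_lit 23) (.e (nat_lit 532483) (nat_lit 0) (.e (nat_lit 982) (nat_lit 81) (.e (nat_lit 4528) (nat_lit 265) .nil)))))))) (.g (nat_lit 6) .nil .nil)))) (.nd (nat_lit 5) 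
(.lf (nat_lit 152786) (.g (nat_lit 1364) (.e (nat_lit 57403) (nat_lit 11) (.e (nat_lit 327698) (nat_lit 8) (.e (nat_lit 303133) (nat_lit 9) (.e (nat_lit 426499) (nat_lit 27) .nil)))) .nil)) 
(.lf (nat_lit 152818) (.g (nat_lit 5317) (.e (nat_lit 57404) (nat_lit 12) (.e (nat_lit 336013) (nat_lit 2) (.e (nat_lit 90170) (nat_lit 13) (.e (nat_lit 172113) (nat_lit 10) (.e (nat_lit 434245) (nat_lit 28) (.e (nat_lit 573474) (nat_lit 12) (.e (nat_lit 57347) (nat_lit 0) (.e (nat_lit 7266) (nat_lit 384) .nil)))))))) (.g (nat_lit 0) .nil .nil))))) (.nd (nat_lit 4) (.nd (nat_lit 5) 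
(.lf (nat_lit 152778) (.g (nat_lit 2960) (.e (nat_lit 57400) (nat_lit 10) (.e (nat_lit 319536) (nat_lit 17) (.e (nat_lit 294940) (nat_lit 9) (.e (nat_lit 336443) (nat_lit 32) (.e (nat_lit 466972) (nat_lit 21) (.e (nat_lit 164402) (nat_lit 256) .nil)))))) (.g (nat_lit 6) .nil .nil))) 
(.lf (nat_lit 152810) (.g (nat_lit 1877) (.e (nat_lit 57404) (nat_lit 12) (.e (nat_lit 336013) (nat_lit 2) (.e (nat_lit 90170) (nat_lit 13) (.e (nat_lit 172113) (nat_lit 10) (.e (nat_lit 434242) (nat_lit 28) .nil))))) .nil))) (.nd (nat_lit 5) 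
(.lf (nat_lit 152794) (.g (nat_lit 1102) (.e (nat_lit 57403) (nat_lit 11) (.e (nat_lit 327716) (nat_lit 16) (.e (nat_lit 286743) (nat_lit 9) (.e (nat_lit 336444) (nat_lit 32) .nil)))) .nil)) 
(.lf (nat_lit 152826) (.g (nat_lit 2140) (.e (nat_lit 57404) (nat_lit 12) (.e (nat_lit 336013) (nat_lit 2) (.e (nat_lit 90170) (nat_lit 13) (.e (nat_lit 172113) (nat_lit 10) (.e (nat_lit 434248) (nat_lit 28) (.e (nat_lit 573473) (nat_lit 12) (.e (nat_lit 57352) (nat_lit 0) (.e (nat_lit 7265) (nat_lit 384) .nil)))))))) (.g (nat_lit 4) .nil .nil)))))) 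
(.nd (nat_lit 3) (.nd (nat_lit 4) (.nd (nat_lit 5) 
(.lf (nat_lit 152774) (.g (nat_lit 2501) (.e (nat_lit 57400) (nat_lit 10) (.e (nat_lit 319535) (nat_lit 17) (.e (nat_lit 294958) (nat_lit 13) (.e (nat_lit 393281) (nat_lit 23) (.e (nat_lit 426100) (nat_lit 1) (.e (nat_lit 164398) (nat_lit 256) .nil)))))) (.g (nat_lit 5) .nil .nil))) 
(.lf (nat_lit 152806) (.g (nat_lit 2694) (.e (nat_lit 57404) (nat_lit 12) (.e (nat_lit 336013) (nat_lit 2) (.e (nat_lit 90170) (nat_lit 13) (.e (nat_lit 172106) (nat_lit 10) (.e (nat_lit 434231) (nat_lit 23) (.e (nat_lit 540416) (nat_lit 18) (.e (nat_lit 164180) (nat_lit 154) .nil))))))) (.g (nat_lit 5) .nil .nil)))) (.nd (nat_lit 5) 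
(.lf (nat_lit 152790) (.g (nat_lit 1214) (.e (nat_lit 57403) (nat_lit 11) (.e (nat_lit 327715) (nat_lit 16) (.e (nat_lit 286743) (nat_lit 9) (.e (nat_lit 336444) (nat_lit 32) .nil)))) .nil)) 
(.lf (nat_lit 152822) (.g (nat_lit 3376) (.e (nat_lit 57404) (nat_lit 12) (.e (nat_lit 336013) (nat_lit 2) (.e (nat_lit 90170) (nat_lit 13) (.e (nat_lit 172113) (nat_lit 10) (.e (nat_lit 434247) (nat_lit 28) (.e (nat_lit 573478) (nat_lit 12) (.e (nat_lit 57352) (nat_lit 0) (.e (nat_lit 7263) (nat_lit 384) .nil)))))))) (.g (nat_lit 6) .nil .nil))))) (.nd (nat_lit 4) (.nd (nat_lit 5) 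
(.lf (nat_lit 152782) (.g (nat_lit 489) (.e (nat_lit 57402) (nat_lit 11) (.e (nat_lit 327717) (nat_lit 17) (.e (nat_lit 294940) (nat_lit 9) .nil))) .nil)) 
(.lf (nat_lit 152814) (.g (nat_lit 2020) (.e (nat_lit 57404) (nat_lit 12) (.e (nat_lit 336013) (nat_lit 2) (.e (nat_lit 90170) (nat_lit 13) (.e (nat_lit 172113) (nat_lit 10) (.e (nat_lit 434245) (nat_lit 28) .nil))))) .nil))) (.nd (nat_lit 5) 
(.lf (nat_lit 152798) (.g (nat_lit 4229) (.e (nat_lit 57404) (nat_lit 12) (.e (nat_lit 336013) (nat_lit 2) (.e (nat_lit 90170) (nat_lit 13) (.e (nat_lit 172079) (nat_lit 7) (.e (nat_lit 409611) (nat_lit 10) (.e (nat_lit 604) (nat_lit 45) (.e (nat_lit 532501) (nat_lit 1) (.e (nat_lit 57851) (nat_lit 252) .nil)))))))) (.g (nat_lit 8) .nil .nil))) 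
(.lf (nat_lit 152830) (.g (nat_lit 4557) (.e (nat_lit 57404) (nat_lit 12) (.e (nat_lit 336013) (nat_lit 2) (.e (nat_lit 90170) (nat_lit 13) (.e (nat_lit 172113) (nat_lit 10) (.e (nat_lit 434248) (nat_lit 28) (.e (nat_lit 573475) (nat_lit 12) (.e (nat_lit 57351) (nat_lit 0) (.e (nat_lit 7266) (nat_lit 384) .nil)))))))) (.g (nat_lit 0) .nil .nil)))))))) 
(.nd (nat_lit 1) (.nd (nat_lit 2) (.nd (nat_lit 3) (.nd (nat_lit 4) (.nd (nat_lit 5) 
(.lf (nat_lit 152769) (.g (nat_lit 1891) (.e (nat_lit 57400) (nat_lit 10) (.e (nat_lit 319534) (nat_lit 16) (.e (nat_lit 286761) (nat_lit 13) (.e (nat_lit 393289) (nat_lit 25) (.e (nat_lit 458774) (nat_lit 18) (.e (nat_lit 5936) (nat_lit 322) .nil)))))) (.g (nat_lit 4) .nil .nil))) 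
(.lf (nat_lit 152801) (.g (nat_lit 2986) (.e (nat_lit 57404) (nat_lit 12) (.e (nat_lit 336013) (nat_lit 2) (.e (nat_lit 90170) (nat_lit 13) (.e (nat_lit 172082) (nat_lit 7) (.e (nat_lit 409617) (nat_lit 10) .nil))))) .nil))) (.nd (nat_lit 5) 
(.lf (nat_lit 152785) (.g (nat_lit 1742) (.e (nat_lit 57403) (nat_lit 11) (.e (nat_lit 327698) (nat_lit 8) (.e (nat_lit 303127) (nat_lit 9) (.e (nat_lit 426542) (nat_lit 29) (.e (nat_lit 352318) (nat_lit 24) .nil))))) .nil)) 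
(.lf (nat_lit 152817) (.g (nat_lit 2799) (.e (nat_lit 57404) (nat_lit 12) (.e (nat_lit 336013) (nat_lit 2) (.e (nat_lit 90170) (nat_lit 13) (.e (nat_lit 172113) (nat_lit 10) (.e (nat_lit 434245) (nat_lit 28) (.e (nat_lit 573473) (nat_lit 12) (.e (nat_lit 57353) (nat_lit 0) (.e (nat_lit 7263) (nat_lit 384) .nil)))))))) (.g (nat_lit 5) .nil .nil))))) (.nd (nat_lit 4) (.nd (nat_lit 5) 
(.lf (nat_lit 152777) (.g (nat_lit 2783) (.e (nat_lit 57400) (nat_lit 10) (.e (nat_lit 319536) (nat_lit 17) (.e (nat_lit 294939) (nat_lit 9) (.e (nat_lit 336443) (nat_lit 32) (.e (nat_lit 466972) (nat_lit 21) (.e (nat_lit 164402) (nat_lit 256) .nil)))))) (.g (nat_lit 5) .nil .nil))) 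
(.lf (nat_lit 152809) (.g (nat_lit 4146) (.e (nat_lit 57404) (nat_lit 12) (.e (nat_lit 336013) (nat_lit 2) (.e (nat_lit 90170) (nat_lit 13) (.e (nat_lit 172106) (nat_lit 10) (.e (nat_lit 434244) (nat_lit 28) (.e (nat_lit 573474) (nat_lit 12) (.e (nat_lit 57348) (nat_lit 0) (.e (nat_lit 7261) (nat_lit 384) .nil)))))))) (.g (nat_lit 7) .nil .nil)))) (.nd (nat_lit 5) 
(.lf (nat_lit 152793) (.g (nat_lit 2749) (.e (nat_lit 57403) (nat_lit 11) (.e (nat_lit 327715) (nat_lit 16) (.e (nat_lit 286761) (nat_lit 13) (.e (nat_lit 393270) (nat_lit 23) (.e (nat_lit 433920) (nat_lit 1) .nil))))) .nil)) 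
(.lf (nat_lit 152825) (.g (nat_lit 3938) (.e (nat_lit 57404) (nat_lit 12) (.e (nat_lit 336013) (nat_lit 2) (.e (nat_lit 90170) (nat_lit 13) (.e (nat_lit 172113) (nat_lit 10) (.e (nat_lit 434248) (nat_lit 28) (.e (nat_lit 573473) (nat_lit 12) (.e (nat_lit 57352) (nat_lit 0) (.e (nat_lit 7261) (nat_lit 384) .nil)))))))) (.g (nat_lit 0) .nil .nil)))))) 
(.nd (nat_lit 3) (.nd (nat_lit 4) (.nd (nat_lit 5) 
(.lf (nat_lit 152773) (.g (nat_lit 610) (.e (nat_lit 57400) (nat_lit 10) (.e (nat_lit 319535) (nat_lit 17) (.e (nat_lit 294957) (nat_lit 13) .nil))) .nil)) 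
(.lf (nat_lit 152805) (.g (nat_lit 4449) (.e (nat_lit 57404) (nat_lit 12) (.e (nat_lit 336013) (nat_lit 2) (.e (nat_lit 90170) (nat_lit 13) (.e (nat_lit 172106) (nat_lit 10) (.e (nat_lit 434231) (nat_lit 23) (.e (nat_lit 532500) (nat_lit 1) (.e (nat_lit 65280) (nat_lit 223) .nil))))))) (.g (nat_lit 6) .nil .nil)))) (.nd (nat_lit 5) 
(.lf (nat_lit 152789) (.g (nat_lit 317) (.e (nat_lit 57403) (nat_lit 11) (.e (nat_lit 327705) (nat_lit 10) (.e (nat_lit 5399) (nat_lit 302) .nil))) .nil)) 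
(.lf (nat_lit 152821) (.g (nat_lit 3537) (.e (nat_lit 57404) (nat_lit 12) (.e (nat_lit 336013) (nat_lit 2) (.e (nat_lit 90170) (nat_lit 13) (.e (nat_lit 172113) (nat_lit 10) (.e (nat_lit 434247) (nat_lit 28) (.e (nat_lit 573478) (nat_lit 12) (.e (nat_lit 57352) (nat_lit 0) (.e (nat_lit 7261) (nat_lit 384) .nil)))))))) (.g (nat_lit 6) .nil .nil))))) (.nd (nat_lit 4) (.nd (nat_lit 5) 
(.lf (nat_lit 152781) (.g (nat_lit 504) (.e (nat_lit 57402) (nat_lit 11) (.e (nat_lit 327717) (nat_lit 17) (.e (nat_lit 294938) (nat_lit 9) .nil))) .nil)) 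
(.lf (nat_lit 152813) (.g (nat_lit 4128) (.e (nat_lit 57404) (nat_lit 12) (.e (nat_lit 336013) (nat_lit 2) (.e (nat_lit 90170) (nat_lit 13) (.e (nat_lit 172113) (nat_lit 10) (.e (nat_lit 434242) (nat_lit 28) (.e (nat_lit 573474) (nat_lit 12) (.e (nat_lit 57348) (nat_lit 0) (.e (nat_lit 7263) (nat_lit 384) .nil)))))))) (.g (nat_lit 6) .nil .nil)))) (.nd (nat_lit 5) 
(.lf (nat_lit 152797) (.g (nat_lit 2389) (.e (nat_lit 57404) (nat_lit 12) (.e (nat_lit 336013) (nat_lit 2) (.e (nat_lit 90170) (nat_lit 13) (.e (nat_lit 172079) (nat_lit 7) (.e (nat_lit 409609) (nat_lit 10) .nil))))) .nil)) 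
(.lf (nat_lit 152829) (.g (nat_lit 4037) (.e (nat_lit 57404) (nat_lit 12) (.e (nat_lit 336013) (nat_lit 2) (.e (nat_lit 90170) (nat_lit 13) (.e (nat_lit 172113) (nat_lit 10) (.e (nat_lit 434248) (nat_lit 28) (.e (nat_lit 573475) (nat_lit 12) (.e (nat_lit 57348) (nat_lit 0) (.e (nat_lit 7263) (nat_lit 384) .nil)))))))) (.g (nat_lit 7) .nil .nil))))))) 
(.nd (nat_lit 2) (.nd (nat_lit 3) (.nd (nat_lit 4) (.nd (nat_lit 5) 
(.lf (nat_lit 152771) (.g (nat_lit 3112) (.e (nat_lit 57400) (nat_lit 10) (.e (nat_lit 319535) (nat_lit 17) (.e (nat_lit 294940) (nat_lit 9) (.e (nat_lit 336443) (nat_lit 32) (.e (nat_lit 466972) (nat_lit 21) (.e (nat_lit 164402) (nat_lit 256) .nil)))))) (.g (nat_lit 0) .nil .nil))) 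
(.lf (nat_lit 152803) (.g (nat_lit 2948) (.e (nat_lit 57404) (nat_lit 12) (.e (nat_lit 336013) (nat_lit 2) (.e (nat_lit 90170) (nat_lit 13) (.e (nat_lit 172106) (nat_lit 10) (.e (nat_lit 434231) (nat_lit 23) (.e (nat_lit 532483) (nat_lit 0) (.e (nat_lit 982) (nat_lit 81) (.e (nat_lit 4529) (nat_lit 265) .nil)))))))) (.g (nat_lit 6) .nil .nil)))) (.nd (nat_lit 5) 
(.lf (nat_lit 152787) (.g (nat_lit 357) (.e (nat_lit 57403) (nat_lit 11) (.e (nat_lit 327698) (nat_lit 8) (.e (nat_lit 303145) (nat_lit 13) .nil))) .nil)) 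
(.lf (nat_lit 152819) (.g (nat_lit 3094) (.e (nat_lit 57404) (nat_lit 12) (.e (nat_lit 336013) (nat_lit 2) (.e (nat_lit 90170) (nat_lit 13) (.e (nat_lit 172113) (nat_lit 10) (.e (nat_lit 434247) (nat_lit 28) (.e (nat_lit 573477) (nat_lit 12) (.e (nat_lit 57351) (nat_lit 0) (.e (nat_lit 7265) (nat_lit 384) .nil)))))))) (.g (nat_lit 5) .nil .nil))))) (.nd (nat_lit 4) (.nd (nat_lit 5) 
(.lf (nat_lit 152779) (.g (nat_lit 2697) (.e (nat_lit 57400) (nat_lit 10) (.e (nat_lit 319536) (nat_lit 17) (.e (nat_lit 294940) (nat_lit 9) (.e (nat_lit 336443) (nat_lit 32) (.e (nat_lit 466972) (nat_lit 21) (.e (nat_lit 164403) (nat_lit 256) .nil)))))) (.g (nat_lit 5) .nil .nil))) 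
(.lf (nat_lit 152811) (.g (nat_lit 4529) (.e (nat_lit 57404) (nat_lit 12) (.e (nat_lit 336013) (nat_lit 2) (.e (nat_lit 90170) (nat_lit 13) (.e (nat_lit 172113) (nat_lit 10) (.e (nat_lit 434242) (nat_lit 28) (.e (nat_lit 573474) (nat_lit 12) (.e (nat_lit 57347) (nat_lit 0) (.e (nat_lit 7261) (nat_lit 384) .nil)))))))) (.g (nat_lit 7) .nil .nil)))) (.nd (nat_lit 5) 
(.lf (nat_lit 152795) (.g (nat_lit 2873) (.e (nat_lit 57404) (nat_lit 12) (.e (nat_lit 336013) (nat_lit 2) (.e (nat_lit 90170) (nat_lit 13) (.e (nat_lit 172077) (nat_lit 7) .nil)))) .nil)) 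
(.lf (nat_lit 152827) (.g (nat_lit 2958) (.e (nat_lit 57404) (nat_lit 12) (.e (nat_lit 336013) (nat_lit 2) (.e (nat_lit 90170) (nat_lit 13) (.e (nat_lit 172113) (nat_lit 10) (.e (nat_lit 434248) (nat_lit 28) (.e (nat_lit 573473) (nat_lit 12) (.e (nat_lit 57352) (nat_lit 0) (.e (nat_lit 7266) (nat_lit 384) .nil)))))))) (.g (nat_lit 5) .nil .nil)))))) 
(.nd (nat_lit 3) (.nd (nat_lit 4) (.nd (nat_lit 5) 
(.lf (nat_lit 152775) (.g (nat_lit 1358) (.e (nat_lit 57400) (nat_lit 10) (.e (nat_lit 319535) (nat_lit 17) (.e (nat_lit 294959) (nat_lit 13) (.e (nat_lit 393281) (nat_lit 23) (.e (nat_lit 426100) (nat_lit 1) .nil))))) .nil)) 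
(.lf (nat_lit 152807) (.g (nat_lit 2714) (.e (nat_lit 57404) (nat_lit 12) (.e (nat_lit 336013) (nat_lit 2) (.e (nat_lit 90170) (nat_lit 13) (.e (nat_lit 172106) (nat_lit 10) (.e (nat_lit 434231) (nat_lit 23) (.e (nat_lit 540416) (nat_lit 21) (.e (nat_lit 229553) (nat_lit 154) .nil))))))) (.g (nat_lit 5) .nil .nil)))) (.nd (nat_lit 5) 
(.lf (nat_lit 152791) (.g (nat_lit 499) (.e (nat_lit 57403) (nat_lit 11) (.e (nat_lit 327715) (nat_lit 16) (.e (nat_lit 286761) (nat_lit 13) .nil))) .nil)) 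
(.lf (nat_lit 152823) (.g (nat_lit 3558) (.e (nat_lit 57404) (nat_lit 12) (.e (nat_lit 336013) (nat_lit 2) (.e (nat_lit 90170) (nat_lit 13) (.e (nat_lit 172113) (nat_lit 10) (.e (nat_lit 434248) (nat_lit 28) (.e (nat_lit 573473) (nat_lit 12) (.e (nat_lit 57347) (nat_lit 0) (.e (nat_lit 7261) (nat_lit 384) .nil)))))))) (.g (nat_lit 6) .nil .nil))))) (.nd (nat_lit 4) (.nd (nat_lit 5) 
(.lf (nat_lit 152783) (.g (nat_lit 413) (.e (nat_lit 57403) (nat_lit 11) (.e (nat_lit 327698) (nat_lit 8) (.e (nat_lit 303127) (nat_lit 9) .nil))) .nil)) 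
(.lf (nat_lit 152815) (.g (nat_lit 4596) (.e (nat_lit 57404) (nat_lit 12) (.e (nat_lit 336013) (nat_lit 2) (.e (nat_lit 90170) (nat_lit 13) (.e (nat_lit 172113) (nat_lit 10) (.e (nat_lit 434245) (nat_lit 28) (.e (nat_lit 573473) (nat_lit 12) (.e (nat_lit 57347) (nat_lit 0) (.e (nat_lit 7266) (nat_lit 384) .nil)))))))) (.g (nat_lit 8) .nil .nil)))) (.nd (nat_lit 5) 
(.lf (nat_lit 152799) (.g (nat_lit 5169) (.e (nat_lit 57404) (nat_lit 12) (.e (nat_lit 336013) (nat_lit 2) (.e (nat_lit 90170) (nat_lit 13) (.e (nat_lit 172079) (nat_lit 7) (.e (nat_lit 409611) (nat_lit 10) (.e (nat_lit 604) (nat_lit 45) (.e (nat_lit 532504) (nat_lit 1) (.e (nat_lit 57852) (nat_lit 252) .nil)))))))) (.g (nat_lit 0) .nil .nil))) 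
(.lf (nat_lit 152831) (.g (nat_lit 3026) (.e (nat_lit 57404) (nat_lit 12) (.e (nat_lit 336024) (nat_lit 3) (.e (nat_lit 98373) (nat_lit 29) (.e (nat_lit 450588) (nat_lit 10) (.e (nat_lit 573475) (nat_lit 12) .nil))))) .nil))))))))

noncomputable def tv2036 : DT := (.nd (nat_lit 0) (.nd (nat_lit 1) (.nd (nat_lit 2) (.nd (nat_lit 3) (.nd (nat_lit 4) (.nd (nat_lit 5) 
(.lf (nat_lit 152832) (.g (nat_lit 1768) (.e (nat_lit 57404) (nat_lit 12) (.e (nat_lit 336028) (nat_lit 3) (.e (nat_lit 98359) (nat_lit 26) (.e (nat_lit 426171) (nat_lit 7) (.e (nat_lit 409612) (nat_lit 10) .nil))))) .nil)) 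
(.lf (nat_lit 152864) (.g (nat_lit 2822) (.e (nat_lit 57404) (nat_lit 12) (.e (nat_lit 336028) (nat_lit 3) (.e (nat_lit 98373) (nat_lit 29) (.e (nat_lit 450587) (nat_lit 10) (.e (nat_lit 573478) (nat_lit 12) (.e (nat_lit 57352) (nat_lit 0) (.e (nat_lit 7261) (nat_lit 384) .nil))))))) (.g (nat_lit 5) .nil .nil)))) (.nd (nat_lit 5) 
(.lf (nat_lit 152848) (.g (nat_lit 1944) (.e (nat_lit 57404) (nat_lit 12) (.e (nat_lit 336028) (nat_lit 3) (.e (nat_lit 98372) (nat_lit 29) (.e (nat_lit 450579) (nat_lit 5) (.e (nat_lit 532501) (nat_lit 1) .nil))))) .nil)) 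
(.lf (nat_lit 152880) (.g (nat_lit 1063) (.e (nat_lit 57404) (nat_lit 12) (.e (nat_lit 336173) (nat_lit 10) (.e (nat_lit 344169) (nat_lit 40) (.e (nat_lit 671764) (nat_lit 6) .nil)))) .nil)))) (.nd (nat_lit 4) (.nd (nat_lit 5) 
(.lf (nat_lit 152840) (.g (nat_lit 1748) (.e (nat_lit 57404) (nat_lit 12) (.e (nat_lit 336028) (nat_lit 3) (.e (nat_lit 98359) (nat_lit 26) (.e (nat_lit 426286) (nat_lit 10) (.e (nat_lit 434247) (nat_lit 28) (.e (nat_lit 573478) (nat_lit 12) (.e (nat_lit 57352) (nat_lit 0) (.e (nat_lit 7266) (nat_lit 384) .nil)))))))) (.g (nat_lit 4) .nil .nil))) 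
(.lf (nat_lit 152872) (.g (nat_lit 5020) (.e (nat_lit 57404) (nat_lit 12) (.e (nat_lit 336028) (nat_lit 3) (.e (nat_lit 98373) (nat_lit 29) (.e (nat_lit 450588) (nat_lit 10) (.e (nat_lit 573475) (nat_lit 12) (.e (nat_lit 57347) (nat_lit 0) (.e (nat_lit 7266) (nat_lit 384) .nil))))))) (.g (nat_lit 0) .nil .nil)))) (.nd (nat_lit 5) 
(.lf (nat_lit 152856) (.g (nat_lit 1657) (.e (nat_lit 57404) (nat_lit 12) (.e (nat_lit 336028) (nat_lit 3) (.e (nat_lit 98372) (nat_lit 29) (.e (nat_lit 450586) (nat_lit 10) (.e (nat_lit 573478) (nat_lit 12) .nil))))) .nil)) 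
(.lf (nat_lit 152888) (.g (nat_lit 1739) (.e (nat_lit 57404) (nat_lit 12) (.e (nat_lit 336205) (nat_lit 12) (.e (nat_lit 385105) (nat_lit 50) (.e (nat_lit 786483) (nat_lit 30) (.e (nat_lit 360456) (nat_lit 0) .nil))))) .nil))))) (.nd (nat_lit 3) (.nd (nat_lit 4) (.nd (nat_lit 5) 
(.lf (nat_lit 152836) (.g (nat_lit 5015) (.e (nat_lit 57404) (nat_lit 12) (.e (nat_lit 336028) (nat_lit 3) (.e (nat_lit 98359) (nat_lit 26) (.e (nat_lit 426286) (nat_lit 10) (.e (nat_lit 434245) (nat_lit 28) (.e (nat_lit 573474) (nat_lit 12) (.e (nat_lit 57347) (nat_lit 0) (.e (nat_lit 7266) (nat_lit 384) .nil)))))))) (.g (nat_lit 0) .nil .nil))) 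
(.lf (nat_lit 152868) (.g (nat_lit 3245) (.e (nat_lit 57404) (nat_lit 12) (.e (nat_lit 336028) (nat_lit 3) (.e (nat_lit 98373) (nat_lit 29) (.e (nat_lit 450588) (nat_lit 10) (.e (nat_lit 573473) (nat_lit 12) (.e (nat_lit 57347) (nat_lit 0) (.e (nat_lit 7265) (nat_lit 384) .nil))))))) (.g (nat_lit 5) .nil .nil)))) (.nd (nat_lit 5) 
(.lf (nat_lit 152852) (.g (nat_lit 2903) (.e (nat_lit 57404) (nat_lit 12) (.e (nat_lit 336028) (nat_lit 3) (.e (nat_lit 98372) (nat_lit 29) (.e (nat_lit 450586) (nat_lit 10) (.e (nat_lit 573475) (nat_lit 12) (.e (nat_lit 57348) (nat_lit 0) (.e (nat_lit 7265) (nat_lit 384) .nil))))))) (.g (nat_lit 5) .nil .nil))) 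
(.lf (nat_lit 152884) (.g (nat_lit 1740) (.e (nat_lit 57404) (nat_lit 12) (.e (nat_lit 336205) (nat_lit 12) (.e (nat_lit 385094) (nat_lit 49) (.e (nat_lit 778327) (nat_lit 6) (.e (nat_lit 81957) (nat_lit 24) (.e (nat_lit 123197) (nat_lit 266) .nil)))))) (.g (nat_lit 4) .nil .nil))))) (.nd (nat_lit 4) (.nd (nat_lit 5) 
(.lf (nat_lit 152844) (.g (nat_lit 2549) (.e (nat_lit 57404) (nat_lit 12) (.e (nat_lit 336028) (nat_lit 3) (.e (nat_lit 98359) (nat_lit 26) (.e (nat_lit 426286) (nat_lit 10) (.e (nat_lit 434248) (nat_lit 28) (.e (nat_lit 573473) (nat_lit 12) (.e (nat_lit 57353) (nat_lit 0) (.e (nat_lit 7263) (nat_lit 384) .nil)))))))) (.g (nat_lit 5) .nil .nil))) 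
(.lf (nat_lit 152876) (.g (nat_lit 1721) (.e (nat_lit 57404) (nat_lit 12) (.e (nat_lit 336054) (nat_lit 7) (.e (nat_lit 319534) (nat_lit 16) (.e (nat_lit 286749) (nat_lit 9) (.e (nat_lit 335997) (nat_lit 1) .nil))))) .nil))) (.nd (nat_lit 5) 
(.lf (nat_lit 152860) (.g (nat_lit 2153) (.e (nat_lit 57404) (nat_lit 12) (.e (nat_lit 336028) (nat_lit 3) (.e (nat_lit 98373) (nat_lit 29) (.e (nat_lit 450587) (nat_lit 10) (.e (nat_lit 573477) (nat_lit 12) .nil))))) .nil)) 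
(.lf (nat_lit 152892) (.g (nat_lit 772) (.e (nat_lit 57404) (nat_lit 12) (.e (nat_lit 336208) (nat_lit 12) (.e (nat_lit 385104) (nat_lit 50) (.e (nat_lit 786480) (nat_lit 29) .nil)))) .nil)))))) (.nd (nat_lit 2) (.nd (nat_lit 3) (.nd (nat_lit 4) (.nd (nat_lit 5) 
(.lf (nat_lit 152834) (.g (nat_lit 2487) (.e (nat_lit 57404) (nat_lit 12) (.e (nat_lit 336028) (nat_lit 3) (.e (nat_lit 98359) (nat_lit 26) (.e (nat_lit 426286) (nat_lit 10) (.e (nat_lit 434245) (nat_lit 28) (.e (nat_lit 573473) (nat_lit 12) (.e (nat_lit 57352) (nat_lit 0) (.e (nat_lit 7266) (nat_lit 384) .nil)))))))) (.g (nat_lit 5) .nil .nil))) 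
(.lf (nat_lit 152866) (.g (nat_lit 3246) (.e (nat_lit 57404) (nat_lit 12) (.e (nat_lit 336028) (nat_lit 3) (.e (nat_lit 98373) (nat_lit 29) (.e (nat_lit 450588) (nat_lit 10) (.e (nat_lit 573473) (nat_lit 12) (.e (nat_lit 57347) (nat_lit 0) (.e (nat_lit 7261) (nat_lit 384) .nil))))))) (.g (nat_lit 5) .nil .nil)))) (.nd (nat_lit 5) 
(.lf (nat_lit 152850) (.g (nat_lit 3590) (.e (nat_lit 57404) (nat_lit 12) (.e (nat_lit 336028) (nat_lit 3) (.e (nat_lit 98372) (nat_lit 29) (.e (nat_lit 450586) (nat_lit 10) (.e (nat_lit 573473) (nat_lit 12) (.e (nat_lit 57347) (nat_lit 0) (.e (nat_lit 7266) (nat_lit 384) .nil))))))) (.g (nat_lit 7) .nil .nil))) 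
(.lf (nat_lit 152882) (.g (nat_lit 1915) (.e (nat_lit 57404) (nat_lit 12) (.e (nat_lit 336205) (nat_lit 12) (.e (nat_lit 385094) (nat_lit 49) (.e (nat_lit 778326) (nat_lit 6) (.e (nat_lit 81957) (nat_lit 24) (.e (nat_lit 123197) (nat_lit 266) .nil)))))) (.g (nat_lit 4) .nil .nil))))) (.nd (nat_lit 4) (.nd (nat_lit 5) 
(.lf (nat_lit 152842) (.g (nat_lit 4301) (.e (nat_lit 57404) (nat_lit 12) (.e (nat_lit 336028) (nat_lit 3) (.e (nat_lit 98359) (nat_lit 26) (.e (nat_lit 426286) (nat_lit 10) (.e (nat_lit 434248) (nat_lit 28) (.e (nat_lit 573473) (nat_lit 12) (.e (nat_lit 57347) (nat_lit 0) (.e (nat_lit 7266) (nat_lit 384) .nil)))))))) (.g (nat_lit 8) .nil .nil))) 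
(.lf (nat_lit 152874) (.g (nat_lit 3966) (.e (nat_lit 57404) (nat_lit 12) (.e (nat_lit 336028) (nat_lit 3) (.e (nat_lit 98373) (nat_lit 29) (.e (nat_lit 450588) (nat_lit 10) (.e (nat_lit 573475) (nat_lit 12) (.e (nat_lit 57348) (nat_lit 0) (.e (nat_lit 7265) (nat_lit 384) .nil))))))) (.g (nat_lit 6) .nil .nil)))) (.nd (nat_lit 5) 
(.lf (nat_lit 152858) (.g (nat_lit 3037) (.e (nat_lit 57404) (nat_lit 12) (.e (nat_lit 336028) (nat_lit 3) (.e (nat_lit 98372) (nat_lit 29) (.e (nat_lit 450588) (nat_lit 10) (.e (nat_lit 573473) (nat_lit 12) .nil))))) .nil)) 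
(.lf (nat_lit 152890) (.g (nat_lit 2227) (.e (nat_lit 57404) (nat_lit 12) (.e (nat_lit 336205) (nat_lit 12) (.e (nat_lit 385106) (nat_lit 50) (.e (nat_lit 786481) (nat_lit 30) (.e (nat_lit 360456) (nat_lit 0) (.e (nat_lit 5949) (nat_lit 322) .nil)))))) (.g (nat_lit 4) .nil .nil)))))) (.nd (nat_lit 3) (.nd (nat_lit 4) (.nd (nat_lit 5) 
(.lf (nat_lit 152838) (.g (nat_lit 1855) (.e (nat_lit 57404) (nat_lit 12) (.e (nat_lit 336028) (nat_lit 3) (.e (nat_lit 98359) (nat_lit 26) (.e (nat_lit 426286) (nat_lit 10) (.e (nat_lit 434247) (nat_lit 28) (.e (nat_lit 573478) (nat_lit 12) (.e (nat_lit 57344) (nat_lit 0) (.e (nat_lit 7266) (nat_lit 384) .nil)))))))) (.g (nat_lit 4) .nil .nil))) 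
(.lf (nat_lit 152870) (.g (nat_lit 3767) (.e (nat_lit 57404) (nat_lit 12) (.e (nat_lit 336028) (nat_lit 3) (.e (nat_lit 98373) (nat_lit 29) (.e (nat_lit 450588) (nat_lit 10) (.e (nat_lit 573473) (nat_lit 12) (.e (nat_lit 57352) (nat_lit 0) (.e (nat_lit 7261) (nat_lit 384) .nil))))))) (.g (nat_lit 0) .nil .nil)))) (.nd (nat_lit 5) 
(.lf (nat_lit 152854) (.g (nat_lit 2880) (.e (nat_lit 57404) (nat_lit 12) (.e (nat_lit 336028) (nat_lit 3) (.e (nat_lit 98372) (nat_lit 29) (.e (nat_lit 450586) (nat_lit 10) (.e (nat_lit 573475) (nat_lit 12) (.e (nat_lit 57353) (nat_lit 0) (.e (nat_lit 7266) (nat_lit 384) .nil))))))) (.g (nat_lit 5) .nil .nil))) 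
(.lf (nat_lit 152886) (.g (nat_lit 1683) (.e (nat_lit 57404) (nat_lit 12) (.e (nat_lit 336205) (nat_lit 12) (.e (nat_lit 385105) (nat_lit 50) (.e (nat_lit 786481) (nat_lit 30) (.e (nat_lit 360456) (nat_lit 0) .nil))))) .nil)))) (.nd (nat_lit 4) (.nd (nat_lit 5) 
(.lf (nat_lit 152846) (.g (nat_lit 4145) (.e (nat_lit 57404) (nat_lit 12) (.e (nat_lit 336028) (nat_lit 3) (.e (nat_lit 98359) (nat_lit 26) (.e (nat_lit 426286) (nat_lit 10) (.e (nat_lit 434248) (nat_lit 28) (.e (nat_lit 573475) (nat_lit 12) (.e (nat_lit 57351) (nat_lit 0) (.e (nat_lit 7266) (nat_lit 384) .nil)))))))) (.g (nat_lit 0) .nil .nil))) 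
(.lf (nat_lit 152878) (.g (nat_lit 1512) (.e (nat_lit 57404) (nat_lit 12) (.e (nat_lit 336060) (nat_lit 7) (.e (nat_lit 319534) (nat_lit 16) (.e (nat_lit 286749) (nat_lit 9) (.e (nat_lit 335997) (nat_lit 1) .nil))))) .nil))) (.nd (nat_lit 5) 
(.lf (nat_lit 152862) (.g (nat_lit 2113) (.e (nat_lit 57404) (nat_lit 12) (.e (nat_lit 336028) (nat_lit 3) (.e (nat_lit 98373) (nat_lit 29) (.e (nat_lit 450587) (nat_lit 10) (.e (nat_lit 573478) (nat_lit 12) .nil))))) .nil)) 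
(.lf (nat_lit 152894) (.g (nat_lit 2796) (.e (nat_lit 57404) (nat_lit 12) (.e (nat_lit 336224) (nat_lit 13) (.e (nat_lit 393234) (nat_lit 17) (.e (nat_lit 7591) (nat_lit 407) (.e (nat_lit 73729) (nat_lit 0) (.e (nat_lit 7266) (nat_lit 384) .nil)))))) (.g (nat_lit 0) .nil .nil)))))))) (.nd (nat_lit 1) (.nd (nat_lit 2) (.nd (nat_lit 3) (.nd (nat_lit 4) (.nd (nat_lit 5) 
(.lf (nat_lit 152833) (.g (nat_lit 4172) (.e (nat_lit 57404) (nat_lit 12) (.e (nat_lit 336028) (nat_lit 3) (.e (nat_lit 98359) (nat_lit 26) (.e (nat_lit 426286) (nat_lit 10) (.e (nat_lit 434245) (nat_lit 28) (.e (nat_lit 573473) (nat_lit 12) (.e (nat_lit 57347) (nat_lit 0) (.e (nat_lit 7266) (nat_lit 384) .nil)))))))) (.g (nat_lit 8) .nil .nil))) 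
(.lf (nat_lit 152865) (.g (nat_lit 2309) (.e (nat_lit 57404) (nat_lit 12) (.e (nat_lit 336028) (nat_lit 3) (.e (nat_lit 98373) (nat_lit 29) (.e (nat_lit 450588) (nat_lit 10) (.e (nat_lit 573473) (nat_lit 12) .nil))))) .nil))) (.nd (nat_lit 5) 
(.lf (nat_lit 152849) (.g (nat_lit 2016) (.e (nat_lit 57404) (nat_lit 12) (.e (nat_lit 336028) (nat_lit 3) (.e (nat_lit 98372) (nat_lit 29) (.e (nat_lit 450579) (nat_lit 5) (.e (nat_lit 532504) (nat_lit 1) .nil))))) .nil)) 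
(.lf (nat_lit 152881) (.g (nat_lit 1697) (.e (nat_lit 57404) (nat_lit 12) (.e (nat_lit 336205) (nat_lit 12) (.e (nat_lit 385093) (nat_lit 49) (.e (nat_lit 778327) (nat_lit 6) (.e (nat_lit 81957) (nat_lit 24) (.e (nat_lit 123197) (nat_lit 266) .nil)))))) (.g (nat_lit 4) .nil .nil))))) (.nd (nat_lit 4) (.nd (nat_lit 5) 
(.lf (nat_lit 152841) (.g (nat_lit 1849) (.e (nat_lit 57404) (nat_lit 12) (.e (nat_lit 336028) (nat_lit 3) (.e (nat_lit 98359) (nat_lit 26) (.e (nat_lit 426286) (nat_lit 10) (.e (nat_lit 434247) (nat_lit 28) (.e (nat_lit 573478) (nat_lit 12) (.e (nat_lit 57353) (nat_lit 0) (.e (nat_lit 7263) (nat_lit 384) .nil)))))))) (.g (nat_lit 4) .nil .nil))) 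
(.lf (nat_lit 152873) (.g (nat_lit 3883) (.e (nat_lit 57404) (nat_lit 12) (.e (nat_lit 336028) (nat_lit 3) (.e (nat_lit 98373) (nat_lit 29) (.e (nat_lit 450588) (nat_lit 10) (.e (nat_lit 573475) (nat_lit 12) (.e (nat_lit 57348) (nat_lit 0) (.e (nat_lit 7261) (nat_lit 384) .nil))))))) (.g (nat_lit 6) .nil .nil)))) (.nd (nat_lit 5) 
(.lf (nat_lit 152857) (.g (nat_lit 2108) (.e (nat_lit 57404) (nat_lit 12) (.e (nat_lit 336028) (nat_lit 3) (.e (nat_lit 98372) (nat_lit 29) (.e (nat_lit 450586) (nat_lit 10) (.e (nat_lit 573478) (nat_lit 12) (.e (nat_lit 57352) (nat_lit 0) (.e (nat_lit 7263) (nat_lit 384) .nil))))))) (.g (nat_lit 5) .nil .nil))) 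
(.lf (nat_lit 152889) (.g (nat_lit 339) (.e (nat_lit 57404) (nat_lit 12) (.e (nat_lit 336205) (nat_lit 12) (.e (nat_lit 385106) (nat_lit 50) .nil))) .nil))))) (.nd (nat_lit 3) (.nd (nat_lit 4) (.nd (nat_lit 5) 
(.lf (nat_lit 152837) (.g (nat_lit 2477) (.e (nat_lit 57404) (nat_lit 12) (.e (nat_lit 336028) (nat_lit 3) (.e (nat_lit 98359) (nat_lit 26) (.e (nat_lit 426286) (nat_lit 10) (.e (nat_lit 434247) (nat_lit 28) (.e (nat_lit 573477) (nat_lit 12) (.e (nat_lit 57351) (nat_lit 0) (.e (nat_lit 7265) (nat_lit 384) .nil)))))))) (.g (nat_lit 5) .nil .nil))) 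
(.lf (nat_lit 152869) (.g (nat_lit 4424) (.e (nat_lit 57404) (nat_lit 12) (.e (nat_lit 336028) (nat_lit 3) (.e (nat_lit 98373) (nat_lit 29) (.e (nat_lit 450588) (nat_lit 10) (.e (nat_lit 573473) (nat_lit 12) (.e (nat_lit 57347) (nat_lit 0) (.e (nat_lit 7266) (nat_lit 384) .nil))))))) (.g (nat_lit 7) .nil .nil)))) (.nd (nat_lit 5) 
(.lf (nat_lit 152853) (.g (nat_lit 3316) (.e (nat_lit 57404) (nat_lit 12) (.e (nat_lit 336028) (nat_lit 3) (.e (nat_lit 98372) (nat_lit 29) (.e (nat_lit 450586) (nat_lit 10) (.e (nat_lit 573475) (nat_lit 12) (.e (nat_lit 57351) (nat_lit 0) (.e (nat_lit 7266) (nat_lit 384) .nil))))))) (.g (nat_lit 0) .nil .nil))) 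
(.lf (nat_lit 152885) (.g (nat_lit 1635) (.e (nat_lit 57404) (nat_lit 12) (.e (nat_lit 336205) (nat_lit 12) (.e (nat_lit 385094) (nat_lit 49) (.e (nat_lit 778327) (nat_lit 6) (.e (nat_lit 81959) (nat_lit 24) .nil))))) .nil)))) (.nd (nat_lit 4) (.nd (nat_lit 5) 
(.lf (nat_lit 152845) (.g (nat_lit 3922) (.e (nat_lit 57404) (nat_lit 12) (.e (nat_lit 336028) (nat_lit 3) (.e (nat_lit 98359) (nat_lit 26) (.e (nat_lit 426286) (nat_lit 10) (.e (nat_lit 434248) (nat_lit 28) (.e (nat_lit 573475) (nat_lit 12) (.e (nat_lit 57348) (nat_lit 0) (.e (nat_lit 7261) (nat_lit 384) .nil)))))))) (.g (nat_lit 7) .nil .nil))) 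
(.lf (nat_lit 152877) (.g (nat_lit 1442) (.e (nat_lit 57404) (nat_lit 12) (.e (nat_lit 336060) (nat_lit 7) (.e (nat_lit 319533) (nat_lit 16) (.e (nat_lit 286753) (nat_lit 10) (.e (nat_lit 344097) (nat_lit 18) .nil))))) .nil))) (.nd (nat_lit 5) 
(.lf (nat_lit 152861) (.g (nat_lit 2324) (.e (nat_lit 57404) (nat_lit 12) (.e (nat_lit 336028) (nat_lit 3) (.e (nat_lit 98373) (nat_lit 29) (.e (nat_lit 450587) (nat_lit 10) (.e (nat_lit 573477) (nat_lit 12) (.e (nat_lit 57351) (nat_lit 0) (.e (nat_lit 7263) (nat_lit 384) .nil))))))) (.g (nat_lit 4) .nil .nil))) 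
(.lf (nat_lit 152893) (.g (nat_lit 1909) (.e (nat_lit 57404) (nat_lit 12) (.e (nat_lit 336211) (nat_lit 13) (.e (nat_lit 393271) (nat_lit 23) (.e (nat_lit 426448) (nat_lit 20) (.e (nat_lit 114710) (nat_lit 21) .nil))))) .nil)))))) (.nd (nat_lit 2) (.nd (nat_lit 3) (.nd (nat_lit 4) (.nd (nat_lit 5) 
(.lf (nat_lit 152835) (.g (nat_lit 2438) (.e (nat_lit 57404) (nat_lit 12) (.e (nat_lit 336028) (nat_lit 3) (.e (nat_lit 98359) (nat_lit 26) (.e (nat_lit 426286) (nat_lit 10) (.e (nat_lit 434245) (nat_lit 28) (.e (nat_lit 573473) (nat_lit 12) (.e (nat_lit 57353) (nat_lit 0) (.e (nat_lit 7263) (nat_lit 384) .nil)))))))) (.g (nat_lit 5) .nil .nil))) 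
(.lf (nat_lit 152867) (.g (nat_lit 2471) (.e (nat_lit 57404) (nat_lit 12) (.e (nat_lit 336028) (nat_lit 3) (.e (nat_lit 98373) (nat_lit 29) (.e (nat_lit 450588) (nat_lit 10) (.e (nat_lit 573473) (nat_lit 12) (.e (nat_lit 57347) (nat_lit 0) (.e (nat_lit 7263) (nat_lit 384) .nil))))))) (.g (nat_lit 4) .nil .nil)))) (.nd (nat_lit 5) 
(.lf (nat_lit 152851) (.g (nat_lit 2832) (.e (nat_lit 57404) (nat_lit 12) (.e (nat_lit 336028) (nat_lit 3) (.e (nat_lit 98372) (nat_lit 29) (.e (nat_lit 450586) (nat_lit 10) (.e (nat_lit 573475) (nat_lit 12) (.e (nat_lit 57348) (nat_lit 0) (.e (nat_lit 7261) (nat_lit 384) .nil))))))) (.g (nat_lit 5) .nil .nil))) 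
(.lf (nat_lit 152883) (.g (nat_lit 1617) (.e (nat_lit 57404) (nat_lit 12) (.e (nat_lit 336205) (nat_lit 12) (.e (nat_lit 385094) (nat_lit 49) (.e (nat_lit 778326) (nat_lit 6) (.e (nat_lit 81959) (nat_lit 24) .nil))))) .nil)))) (.nd (nat_lit 4) (.nd (nat_lit 5) 
(.lf (nat_lit 152843) (.g (nat_lit 2593) (.e (nat_lit 57404) (nat_lit 12) (.e (nat_lit 336028) (nat_lit 3) (.e (nat_lit 98359) (nat_lit 26) (.e (nat_lit 426286) (nat_lit 10) (.e (nat_lit 434248) (nat_lit 28) (.e (nat_lit 573473) (nat_lit 12) (.e (nat_lit 57352) (nat_lit 0) (.e (nat_lit 7266) (nat_lit 384) .nil)))))))) (.g (nat_lit 5) .nil .nil))) 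
(.lf (nat_lit 152875) (.g (nat_lit 4054) (.e (nat_lit 57404) (nat_lit 12) (.e (nat_lit 336028) (nat_lit 3) (.e (nat_lit 98373) (nat_lit 29) (.e (nat_lit 450588) (nat_lit 10) (.e (nat_lit 573475) (nat_lit 12) (.e (nat_lit 57351) (nat_lit 0) (.e (nat_lit 7266) (nat_lit 384) .nil))))))) (.g (nat_lit 0) .nil .nil)))) (.nd (nat_lit 5) 
(.lf (nat_lit 152859) (.g (nat_lit 3431) (.e (nat_lit 57404) (nat_lit 12) (.e (nat_lit 336028) (nat_lit 3) (.e (nat_lit 98373) (nat_lit 29) (.e (nat_lit 450587) (nat_lit 10) (.e (nat_lit 573472) (nat_lit 12) .nil))))) .nil)) 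
(.lf (nat_lit 152891) (.g (nat_lit 2435) (.e (nat_lit 57404) (nat_lit 12) (.e (nat_lit 336205) (nat_lit 12) (.e (nat_lit 385106) (nat_lit 50) (.e (nat_lit 786483) (nat_lit 30) (.e (nat_lit 360457) (nat_lit 0) (.e (nat_lit 5949) (nat_lit 322) .nil)))))) (.g (nat_lit 4) .nil .nil)))))) (.nd (nat_lit 3) (.nd (nat_lit 4) (.nd (nat_lit 5) 
(.lf (nat_lit 152839) (.g (nat_lit 2892) (.e (nat_lit 57404) (nat_lit 12) (.e (nat_lit 336028) (nat_lit 3) (.e (nat_lit 98359) (nat_lit 26) (.e (nat_lit 426286) (nat_lit 10) (.e (nat_lit 434247) (nat_lit 28) (.e (nat_lit 573478) (nat_lit 12) (.e (nat_lit 57352) (nat_lit 0) (.e (nat_lit 7261) (nat_lit 384) .nil)))))))) (.g (nat_lit 6) .nil .nil))) 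
(.lf (nat_lit 152871) (.g (nat_lit 2310) (.e (nat_lit 57404) (nat_lit 12) (.e (nat_lit 336028) (nat_lit 3) (.e (nat_lit 98373) (nat_lit 29) (.e (nat_lit 450588) (nat_lit 10) (.e (nat_lit 573475) (nat_lit 12) .nil))))) .nil))) (.nd (nat_lit 5) 
(.lf (nat_lit 152855) (.g (nat_lit 1711) (.e (nat_lit 57404) (nat_lit 12) (.e (nat_lit 336028) (nat_lit 3) (.e (nat_lit 98372) (nat_lit 29) (.e (nat_lit 450586) (nat_lit 10) (.e (nat_lit 573477) (nat_lit 12) .nil))))) .nil)) 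
(.lf (nat_lit 152887) (.g (nat_lit 1869) (.e (nat_lit 57404) (nat_lit 12) (.e (nat_lit 336205) (nat_lit 12) (.e (nat_lit 385105) (nat_lit 50) (.e (nat_lit 786481) (nat_lit 30) (.e (nat_lit 360457) (nat_lit 0) .nil))))) .nil)))) (.nd (nat_lit 4) (.nd (nat_lit 5) 
(.lf (nat_lit 152847) (.g (nat_lit 3419) (.e (nat_lit 57404) (nat_lit 12) (.e (nat_lit 336028) (nat_lit 3) (.e (nat_lit 98359) (nat_lit 26) (.e (nat_lit 426286) (nat_lit 10) (.e (nat_lit 434248) (nat_lit 28) (.e (nat_lit 573475) (nat_lit 12) (.e (nat_lit 57353) (nat_lit 0) (.e (nat_lit 7261) (nat_lit 384) .nil)))))))) (.g (nat_lit 6) .nil .nil))) 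
(.lf (nat_lit 152879) (.g (nat_lit 1678) (.e (nat_lit 57404) (nat_lit 12) (.e (nat_lit 336060) (nat_lit 7) (.e (nat_lit 319534) (nat_lit 16) (.e (nat_lit 286756) (nat_lit 10) (.e (nat_lit 344097) (nat_lit 18) .nil))))) .nil))) (.nd (nat_lit 5) 
(.lf (nat_lit 152863) (.g (nat_lit 3295) (.e (nat_lit 57404) (nat_lit 12) (.e (nat_lit 336028) (nat_lit 3) (.e (nat_lit 98373) (nat_lit 29) (.e (nat_lit 450587) (nat_lit 10) (.e (nat_lit 573478) (nat_lit 12) (.e (nat_lit 57351) (nat_lit 0) (.e (nat_lit 7266) (nat_lit 384) .nil))))))) (.g (nat_lit 0) .nil .nil))) 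
(.lf (nat_lit 152895) (.g (nat_lit 1519) (.e (nat_lit 57404) (nat_lit 12) (.e (nat_lit 336224) (nat_lit 13) (.e (nat_lit 393234) (nat_lit 17) (.e (nat_lit 7593) (nat_lit 407) (.e (nat_lit 73730) (nat_lit 0) .nil))))) .nil))))))))

noncomputable def tv2037 : DT := (.nd (nat_lit 0) (.nd (nat_lit 1) (.nd (nat_lit 2) (.nd (nat_lit 3) (.nd (nat_lit 4) (.nd (nat_lit 5) 
(.lf (nat_lit 152896) (.g (nat_lit 1409) (.e (nat_lit 57404) (nat_lit 12) (.e (nat_lit 336224) (nat_lit 13) (.e (nat_lit 393234) (nat_lit 17) (.e (nat_lit 7593) (nat_lit 407) (.e (nat_lit 73731) (nat_lit 0) (.e (nat_lit 7265) (nat_lit 384) .nil)))))) (.g (nat_lit 4) .nil .nil))) 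
(.lf (nat_lit 152928) (.g (nat_lit 1822) (.e (nat_lit 57404) (nat_lit 12) (.e (nat_lit 336443) (nat_lit 32) (.e (nat_lit 466981) (nat_lit 23) (.e (nat_lit 204809) (nat_lit 9) (.e (nat_lit 426108) (nat_lit 1) (.e (nat_lit 164401) (nat_lit 256) .nil)))))) (.g (nat_lit 4) .nil .nil)))) (.nd (nat_lit 5) 
(.lf (nat_lit 152912) (.g (nat_lit 3251) (.e (nat_lit 57404) (nat_lit 12) (.e (nat_lit 336224) (nat_lit 13) (.e (nat_lit 393301) (nat_lit 27) (.e (nat_lit 491558) (nat_lit 10) (.e (nat_lit 344096) (nat_lit 18) (.e (nat_lit 7266) (nat_lit 384) .nil)))))) (.g (nat_lit 0) .nil .nil))) 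
(.lf (nat_lit 152944) (.g (nat_lit 1152) (.e (nat_lit 57405) (nat_lit 12) (.e (nat_lit 336211) (nat_lit 13) (.e (nat_lit 393299) (nat_lit 27) (.e (nat_lit 491560) (nat_lit 10) .nil)))) .nil)))) (.nd (nat_lit 4) (.nd (nat_lit 5) 
(.lf (nat_lit 152904) (.g (nat_lit 1431) (.e (nat_lit 57404) (nat_lit 12) (.e (nat_lit 336224) (nat_lit 13) (.e (nat_lit 393293) (nat_lit 26) (.e (nat_lit 475212) (nat_lit 42) (.e (nat_lit 720934) (nat_lit 21) (.e (nat_lit 57851) (nat_lit 252) .nil)))))) (.g (nat_lit 4) .nil .nil))) 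
(.lf (nat_lit 152936) (.g (nat_lit 701) (.e (nat_lit 57405) (nat_lit 12) (.e (nat_lit 336211) (nat_lit 13) (.e (nat_lit 393268) (nat_lit 23) .nil))) .nil))) (.nd (nat_lit 5) 
(.lf (nat_lit 152920) (.g (nat_lit 2033) (.e (nat_lit 57404) (nat_lit 12) (.e (nat_lit 336369) (nat_lit 27) (.e (nat_lit 426501) (nat_lit 27) (.e (nat_lit 336076) (nat_lit 9) (.e (nat_lit 336324) (nat_lit 18) .nil))))) .nil)) 
(.lf (nat_lit 152952) (.g (nat_lit 1123) (.e (nat_lit 57405) (nat_lit 12) (.e (nat_lit 336316) (nat_lit 17) (.e (nat_lit 196674) (nat_lit 15) (.e (nat_lit 81925) (nat_lit 11) .nil)))) .nil))))) (.nd (nat_lit 3) (.nd (nat_lit 4) (.nd (nat_lit 5) 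
(.lf (nat_lit 152900) (.g (nat_lit 1095) (.e (nat_lit 57404) (nat_lit 12) (.e (nat_lit 336224) (nat_lit 13) (.e (nat_lit 393273) (nat_lit 23) (.e (nat_lit 426448) (nat_lit 20) .nil)))) .nil)) 
(.lf (nat_lit 152932) (.g (nat_lit 1119) (.e (nat_lit 57405) (nat_lit 12) (.e (nat_lit 336211) (nat_lit 13) (.e (nat_lit 393232) (nat_lit 17) (.e (nat_lit 7591) (nat_lit 407) .nil)))) .nil))) (.nd (nat_lit 5) 
(.lf (nat_lit 152916) (.g (nat_lit 2777) (.e (nat_lit 57404) (nat_lit 12) (.e (nat_lit 336224) (nat_lit 13) (.e (nat_lit 393301) (nat_lit 27) (.e (nat_lit 491560) (nat_lit 10) (.e (nat_lit 344095) (nat_lit 18) .nil))))) .nil)) 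
(.lf (nat_lit 152948) (.g (nat_lit 2576) (.e (nat_lit 57405) (nat_lit 12) (.e (nat_lit 336211) (nat_lit 13) (.e (nat_lit 393301) (nat_lit 27) (.e (nat_lit 491558) (nat_lit 10) (.e (nat_lit 344096) (nat_lit 18) .nil))))) .nil)))) (.nd (nat_lit 4) (.nd (nat_lit 5) 
(.lf (nat_lit 152908) (.g (nat_lit 1167) (.e (nat_lit 57404) (nat_lit 12) (.e (nat_lit 336224) (nat_lit 13) (.e (nat_lit 393296) (nat_lit 26) (.e (nat_lit 475214) (nat_lit 42) .nil)))) .nil)) 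
(.lf (nat_lit 152940) (.g (nat_lit 2039) (.e (nat_lit 57405) (nat_lit 12) (.e (nat_lit 336211) (nat_lit 13) (.e (nat_lit 393271) (nat_lit 23) (.e (nat_lit 426446) (nat_lit 20) (.e (nat_lit 114711) (nat_lit 21) .nil))))) .nil))) (.nd (nat_lit 5) 
(.lf (nat_lit 152924) (.g (nat_lit 1667) (.e (nat_lit 57404) (nat_lit 12) (.e (nat_lit 336443) (nat_lit 32) (.e (nat_lit 466977) (nat_lit 22) (.e (nat_lit 196654) (nat_lit 11) .nil)))) .nil)) 
(.lf (nat_lit 152956) (.g (nat_lit 732) (.e (nat_lit 57405) (nat_lit 12) (.e (nat_lit 336367) (nat_lit 27) (.e (nat_lit 426542) (nat_lit 29) (.e (nat_lit 352313) (nat_lit 23) .nil)))) .nil)))))) (.nd (nat_lit 2) (.nd (nat_lit 3) (.nd (nat_lit 4) (.nd (nat_lit 5) 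
(.lf (nat_lit 152898) (.g (nat_lit 1949) (.e (nat_lit 57404) (nat_lit 12) (.e (nat_lit 336224) (nat_lit 13) (.e (nat_lit 393273) (nat_lit 23) (.e (nat_lit 426446) (nat_lit 20) (.e (nat_lit 114710) (nat_lit 21) .nil))))) .nil)) 
(.lf (nat_lit 152930) (.g (nat_lit 2507) (.e (nat_lit 57405) (nat_lit 12) (.e (nat_lit 336019) (nat_lit 3) (.e (nat_lit 98372) (nat_lit 29) (.e (nat_lit 450586) (nat_lit 10) (.e (nat_lit 573477) (nat_lit 12) .nil))))) .nil))) (.nd (nat_lit 5) 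
(.lf (nat_lit 152914) (.g (nat_lit 2296) (.e (nat_lit 57404) (nat_lit 12) (.e (nat_lit 336224) (nat_lit 13) (.e (nat_lit 393301) (nat_lit 27) (.e (nat_lit 491560) (nat_lit 10) (.e (nat_lit 344091) (nat_lit 18) .nil))))) .nil)) 
(.lf (nat_lit 152946) (.g (nat_lit 984) (.e (nat_lit 57405) (nat_lit 12) (.e (nat_lit 336211) (nat_lit 13) (.e (nat_lit 393300) (nat_lit 27) (.e (nat_lit 491560) (nat_lit 10) .nil)))) .nil)))) (.nd (nat_lit 4) (.nd (nat_lit 5) 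
(.lf (nat_lit 152906) (.g (nat_lit 1492) (.e (nat_lit 57404) (nat_lit 12) (.e (nat_lit 336224) (nat_lit 13) (.e (nat_lit 393293) (nat_lit 26) (.e (nat_lit 475214) (nat_lit 42) (.e (nat_lit 720931) (nat_lit 21) (.e (nat_lit 57851) (nat_lit 252) .nil)))))) (.g (nat_lit 4) .nil .nil))) 
(.lf (nat_lit 152938) (.g (nat_lit 1850) (.e (nat_lit 57405) (nat_lit 12) (.e (nat_lit 336211) (nat_lit 13) (.e (nat_lit 393268) (nat_lit 23) (.e (nat_lit 426446) (nat_lit 20) (.e (nat_lit 114711) (nat_lit 21) .nil))))) .nil))) (.nd (nat_lit 5) 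
(.lf (nat_lit 152922) (.g (nat_lit 2104) (.e (nat_lit 57404) (nat_lit 12) (.e (nat_lit 336443) (nat_lit 32) (.e (nat_lit 466974) (nat_lit 22) (.e (nat_lit 196654) (nat_lit 11) (.e (nat_lit 16407) (nat_lit 1) .nil))))) .nil)) 
(.lf (nat_lit 152954) (.g (nat_lit 1735) (.e (nat_lit 57405) (nat_lit 12) (.e (nat_lit 336326) (nat_lit 18) (.e (nat_lit 204854) (nat_lit 26) (.e (nat_lit 336211) (nat_lit 13) (.e (nat_lit 393254) (nat_lit 18) (.e (nat_lit 164179) (nat_lit 154) .nil)))))) (.g (nat_lit 4) .nil .nil)))))) (.nd (nat_lit 3) (.nd (nat_lit 4) (.nd (nat_lit 5) 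
(.lf (nat_lit 152902) (.g (nat_lit 1352) (.e (nat_lit 57404) (nat_lit 12) (.e (nat_lit 336224) (nat_lit 13) (.e (nat_lit 393293) (nat_lit 26) (.e (nat_lit 475212) (nat_lit 42) (.e (nat_lit 720930) (nat_lit 21) .nil))))) .nil)) 
(.lf (nat_lit 152934) (.g (nat_lit 1164) (.e (nat_lit 57405) (nat_lit 12) (.e (nat_lit 336211) (nat_lit 13) (.e (nat_lit 393234) (nat_lit 17) (.e (nat_lit 7591) (nat_lit 407) .nil)))) .nil))) (.nd (nat_lit 5) 
(.lf (nat_lit 152918) (.g (nat_lit 2231) (.e (nat_lit 57404) (nat_lit 12) (.e (nat_lit 336368) (nat_lit 27) (.e (nat_lit 426499) (nat_lit 27) (.e (nat_lit 336196) (nat_lit 12) (.e (nat_lit 385066) (nat_lit 26) .nil))))) .nil)) 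
(.lf (nat_lit 152950) (.g (nat_lit 1851) (.e (nat_lit 57405) (nat_lit 12) (.e (nat_lit 336316) (nat_lit 17) (.e (nat_lit 196666) (nat_lit 13) (.e (nat_lit 65627) (nat_lit 13) (.e (nat_lit 393251) (nat_lit 18) .nil))))) .nil)))) (.nd (nat_lit 4) (.nd (nat_lit 5) 
(.lf (nat_lit 152910) (.g (nat_lit 3133) (.e (nat_lit 57404) (nat_lit 12) (.e (nat_lit 336224) (nat_lit 13) (.e (nat_lit 393301) (nat_lit 27) (.e (nat_lit 491558) (nat_lit 10) (.e (nat_lit 344091) (nat_lit 18) (.e (nat_lit 7266) (nat_lit 384) .nil)))))) (.g (nat_lit 0) .nil .nil))) 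
(.lf (nat_lit 152942) (.g (nat_lit 1308) (.e (nat_lit 57405) (nat_lit 12) (.e (nat_lit 336211) (nat_lit 13) (.e (nat_lit 393299) (nat_lit 27) (.e (nat_lit 491558) (nat_lit 10) .nil)))) .nil))) (.nd (nat_lit 5) 
(.lf (nat_lit 152926) (.g (nat_lit 1857) (.e (nat_lit 57404) (nat_lit 12) (.e (nat_lit 336443) (nat_lit 32) (.e (nat_lit 466977) (nat_lit 22) (.e (nat_lit 196656) (nat_lit 11) .nil)))) .nil)) 
(.lf (nat_lit 152958) (.g (nat_lit 2926) (.e (nat_lit 57405) (nat_lit 12) (.e (nat_lit 336369) (nat_lit 27) (.e (nat_lit 426499) (nat_lit 27) (.e (nat_lit 336196) (nat_lit 12) (.e (nat_lit 385066) (nat_lit 26) .nil))))) .nil))))))) (.nd (nat_lit 1) (.nd (nat_lit 2) (.nd (nat_lit 3) (.nd (nat_lit 4) (.nd (nat_lit 5) 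
(.lf (nat_lit 152897) (.g (nat_lit 2444) (.e (nat_lit 57404) (nat_lit 12) (.e (nat_lit 336224) (nat_lit 13) (.e (nat_lit 393234) (nat_lit 17) (.e (nat_lit 7593) (nat_lit 407) (.e (nat_lit 73731) (nat_lit 0) (.e (nat_lit 7266) (nat_lit 384) .nil)))))) (.g (nat_lit 0) .nil .nil))) 
(.lf (nat_lit 152929) (.g (nat_lit 2289) (.e (nat_lit 57405) (nat_lit 12) (.e (nat_lit 336019) (nat_lit 3) (.e (nat_lit 98372) (nat_lit 29) (.e (nat_lit 450586) (nat_lit 10) (.e (nat_lit 573473) (nat_lit 12) .nil))))) .nil))) (.nd (nat_lit 5) 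
(.lf (nat_lit 152913) (.g (nat_lit 2271) (.e (nat_lit 57404) (nat_lit 12) (.e (nat_lit 336224) (nat_lit 13) (.e (nat_lit 393301) (nat_lit 27) (.e (nat_lit 491560) (nat_lit 10) (.e (nat_lit 344090) (nat_lit 18) (.e (nat_lit 7263) (nat_lit 384) .nil)))))) (.g (nat_lit 5) .nil .nil))) 
(.lf (nat_lit 152945) (.g (nat_lit 1693) (.e (nat_lit 57405) (nat_lit 12) (.e (nat_lit 336211) (nat_lit 13) (.e (nat_lit 393300) (nat_lit 27) (.e (nat_lit 491558) (nat_lit 10) (.e (nat_lit 344091) (nat_lit 18) .nil))))) .nil)))) (.nd (nat_lit 4) (.nd (nat_lit 5) 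
(.lf (nat_lit 152905) (.g (nat_lit 1371) (.e (nat_lit 57404) (nat_lit 12) (.e (nat_lit 336224) (nat_lit 13) (.e (nat_lit 393293) (nat_lit 26) (.e (nat_lit 475214) (nat_lit 42) (.e (nat_lit 720930) (nat_lit 21) (.e (nat_lit 57851) (nat_lit 252) .nil)))))) (.g (nat_lit 4) .nil .nil))) 
(.lf (nat_lit 152937) (.g (nat_lit 1636) (.e (nat_lit 57405) (nat_lit 12) (.e (nat_lit 336211) (nat_lit 13) (.e (nat_lit 393268) (nat_lit 23) (.e (nat_lit 426446) (nat_lit 20) .nil)))) .nil))) (.nd (nat_lit 5) 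
(.lf (nat_lit 152921) (.g (nat_lit 1577) (.e (nat_lit 57404) (nat_lit 12) (.e (nat_lit 336443) (nat_lit 32) (.e (nat_lit 466974) (nat_lit 22) (.e (nat_lit 196654) (nat_lit 11) .nil)))) .nil)) 
(.lf (nat_lit 152953) (.g (nat_lit 1990) (.e (nat_lit 57405) (nat_lit 12) (.e (nat_lit 336324) (nat_lit 18) (.e (nat_lit 204854) (nat_lit 26) (.e (nat_lit 336211) (nat_lit 13) .nil)))) .nil))))) (.nd (nat_lit 3) (.nd (nat_lit 4) (.nd (nat_lit 5) 
(.lf (nat_lit 152901) (.g (nat_lit 743) (.e (nat_lit 57404) (nat_lit 12) (.e (nat_lit 336224) (nat_lit 13) (.e (nat_lit 393293) (nat_lit 26) (.e (nat_lit 475212) (nat_lit 42) .nil)))) .nil)) 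
(.lf (nat_lit 152933) (.g (nat_lit 1490) (.e (nat_lit 57405) (nat_lit 12) (.e (nat_lit 336211) (nat_lit 13) (.e (nat_lit 393233) (nat_lit 17) (.e (nat_lit 7593) (nat_lit 407) (.e (nat_lit 73729) (nat_lit 0) .nil))))) .nil))) (.nd (nat_lit 5) 
(.lf (nat_lit 152917) (.g (nat_lit 1106) (.e (nat_lit 57404) (nat_lit 12) (.e (nat_lit 336367) (nat_lit 27) (.e (nat_lit 426542) (nat_lit 29) (.e (nat_lit 352313) (nat_lit 23) (.e (nat_lit 98334) (nat_lit 18) (.e (nat_lit 164180) (nat_lit 154) .nil)))))) (.g (nat_lit 4) .nil .nil))) 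
(.lf (nat_lit 152949) (.g (nat_lit 3019) (.e (nat_lit 57405) (nat_lit 12) (.e (nat_lit 336211) (nat_lit 13) (.e (nat_lit 393301) (nat_lit 27) (.e (nat_lit 491560) (nat_lit 10) (.e (nat_lit 344090) (nat_lit 18) .nil))))) .nil)))) (.nd (nat_lit 4) (.nd (nat_lit 5) 
(.lf (nat_lit 152909) (.g (nat_lit 1032) (.e (nat_lit 57404) (nat_lit 12) (.e (nat_lit 336224) (nat_lit 13) (.e (nat_lit 393300) (nat_lit 27) (.e (nat_lit 491558) (nat_lit 10) .nil)))) .nil)) 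
(.lf (nat_lit 152941) (.g (nat_lit 706) (.e (nat_lit 57405) (nat_lit 12) (.e (nat_lit 336211) (nat_lit 13) (.e (nat_lit 393291) (nat_lit 26) .nil))) .nil))) (.nd (nat_lit 5) 
(.lf (nat_lit 152925) (.g (nat_lit 2227) (.e (nat_lit 57404) (nat_lit 12) (.e (nat_lit 336443) (nat_lit 32) (.e (nat_lit 466977) (nat_lit 22) (.e (nat_lit 196654) (nat_lit 11) (.e (nat_lit 16407) (nat_lit 1) .nil))))) .nil)) 
(.lf (nat_lit 152957) (.g (nat_lit 1860) (.e (nat_lit 57405) (nat_lit 12) (.e (nat_lit 336369) (nat_lit 27) (.e (nat_lit 426499) (nat_lit 27) (.e (nat_lit 336196) (nat_lit 12) .nil)))) .nil)))))) (.nd (nat_lit 2) (.nd (nat_lit 3) (.nd (nat_lit 4) (.nd (nat_lit 5) 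
(.lf (nat_lit 152899) (.g (nat_lit 1934) (.e (nat_lit 57404) (nat_lit 12) (.e (nat_lit 336224) (nat_lit 13) (.e (nat_lit 393273) (nat_lit 23) (.e (nat_lit 426446) (nat_lit 20) (.e (nat_lit 114711) (nat_lit 21) .nil))))) .nil)) 
(.lf (nat_lit 152931) (.g (nat_lit 594) (.e (nat_lit 57405) (nat_lit 12) (.e (nat_lit 336211) (nat_lit 13) (.e (nat_lit 393232) (nat_lit 17) .nil))) .nil))) (.nd (nat_lit 5) 
(.lf (nat_lit 152915) (.g (nat_lit 2710) (.e (nat_lit 57404) (nat_lit 12) (.e (nat_lit 336224) (nat_lit 13) (.e (nat_lit 393301) (nat_lit 27) (.e (nat_lit 491560) (nat_lit 10) (.e (nat_lit 344094) (nat_lit 18) (.e (nat_lit 7266) (nat_lit 384) .nil)))))) (.g (nat_lit 0) .nil .nil))) 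
(.lf (nat_lit 152947) (.g (nat_lit 2523) (.e (nat_lit 57405) (nat_lit 12) (.e (nat_lit 336211) (nat_lit 13) (.e (nat_lit 393301) (nat_lit 27) (.e (nat_lit 491558) (nat_lit 10) (.e (nat_lit 344091) (nat_lit 18) .nil))))) .nil)))) (.nd (nat_lit 4) (.nd (nat_lit 5) 
(.lf (nat_lit 152907) (.g (nat_lit 319) (.e (nat_lit 57404) (nat_lit 12) (.e (nat_lit 336224) (nat_lit 13) (.e (nat_lit 393294) (nat_lit 26) .nil))) .nil)) 
(.lf (nat_lit 152939) (.g (nat_lit 2223) (.e (nat_lit 57405) (nat_lit 12) (.e (nat_lit 336211) (nat_lit 13) (.e (nat_lit 393268) (nat_lit 23) (.e (nat_lit 426448) (nat_lit 20) (.e (nat_lit 114710) (nat_lit 21) .nil))))) .nil))) (.nd (nat_lit 5) 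
(.lf (nat_lit 152923) (.g (nat_lit 1647) (.e (nat_lit 57404) (nat_lit 12) (.e (nat_lit 336443) (nat_lit 32) (.e (nat_lit 466974) (nat_lit 22) (.e (nat_lit 196656) (nat_lit 11) .nil)))) .nil)) 
(.lf (nat_lit 152955) (.g (nat_lit 549) (.e (nat_lit 57405) (nat_lit 12) (.e (nat_lit 336326) (nat_lit 18) (.e (nat_lit 204861) (nat_lit 26) .nil))) .nil))))) (.nd (nat_lit 3) (.nd (nat_lit 4) (.nd (nat_lit 5) 
(.lf (nat_lit 152903) (.g (nat_lit 1432) (.e (nat_lit 57404) (nat_lit 12) (.e (nat_lit 336224) (nat_lit 13) (.e (nat_lit 393293) (nat_lit 26) (.e (nat_lit 475212) (nat_lit 42) (.e (nat_lit 720931) (nat_lit 21) (.e (nat_lit 57851) (nat_lit 252) .nil)))))) (.g (nat_lit 4) .nil .nil))) 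
(.lf (nat_lit 152935) (.g (nat_lit 1340) (.e (nat_lit 57405) (nat_lit 12) (.e (nat_lit 336211) (nat_lit 13) (.e (nat_lit 393267) (nat_lit 23) (.e (nat_lit 426446) (nat_lit 20) (.e (nat_lit 114711) (nat_lit 21) .nil))))) .nil))) (.nd (nat_lit 5) 
(.lf (nat_lit 152919) (.g (nat_lit 2926) (.e (nat_lit 57404) (nat_lit 12) (.e (nat_lit 336369) (nat_lit 27) (.e (nat_lit 426499) (nat_lit 27) (.e (nat_lit 336196) (nat_lit 12) (.e (nat_lit 385066) (nat_lit 26) .nil))))) .nil)) 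
(.lf (nat_lit 152951) (.g (nat_lit 1136) (.e (nat_lit 57405) (nat_lit 12) (.e (nat_lit 336316) (nat_lit 17) (.e (nat_lit 196672) (nat_lit 15) (.e (nat_lit 81927) (nat_lit 11) .nil)))) .nil)))) (.nd (nat_lit 4) (.nd (nat_lit 5) 
(.lf (nat_lit 152911) (.g (nat_lit 1731) (.e (nat_lit 57404) (nat_lit 12) (.e (nat_lit 336224) (nat_lit 13) (.e (nat_lit 393301) (nat_lit 27) (.e (nat_lit 491558) (nat_lit 10) (.e (nat_lit 344095) (nat_lit 18) .nil))))) .nil)) 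
(.lf (nat_lit 152943) (.g (nat_lit 2051) (.e (nat_lit 57405) (nat_lit 12) (.e (nat_lit 336211) (nat_lit 13) (.e (nat_lit 393299) (nat_lit 27) (.e (nat_lit 491558) (nat_lit 10) (.e (nat_lit 344096) (nat_lit 18) .nil))))) .nil))) (.nd (nat_lit 5) 
(.lf (nat_lit 152927) (.g (nat_lit 1557) (.e (nat_lit 57404) (nat_lit 12) (.e (nat_lit 336443) (nat_lit 32) (.e (nat_lit 466979) (nat_lit 23) (.e (nat_lit 204809) (nat_lit 9) (.e (nat_lit 426107) (nat_lit 1) .nil))))) .nil)) 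
(.lf (nat_lit 152959) (.g (nat_lit 1574) (.e (nat_lit 57405) (nat_lit 12) (.e (nat_lit 336443) (nat_lit 32) (.e (nat_lit 466974) (nat_lit 22) (.e (nat_lit 196654) (nat_lit 11) .nil)))) .nil))))))))

noncomputable def tv2038 : DT := (.nd (nat_lit 0) (.nd (nat_lit 1) (.nd (nat_lit 2) (.nd (nat_lit 3) (.nd (nat_lit 4) (.nd (nat_lit 5) (.nd (nat_lit 6) 
(.lf (nat_lit 152960) (.g (nat_lit 2078) (.e (nat_lit 57405) (nat_lit 12) (.e (nat_lit 336443) (nat_lit 32) (.e (nat_lit 466974) (nat_lit 22) (.e (nat_lit 196654) (nat_lit 11) (.e (nat_lit 16405) (nat_lit 1) .nil))))) .nil)) 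
(.lf (nat_lit 153024) (.g (nat_lit 3244) (.e (nat_lit 57406) (nat_lit 12) (.e (nat_lit 336211) (nat_lit 13) (.e (nat_lit 393299) (nat_lit 27) (.e (nat_lit 491560) (nat_lit 10) (.e (nat_lit 344090) (nat_lit 18) (.e (nat_lit 7265) (nat_lit 384) .nil)))))) (.g (nat_lit 5) .nil .nil)))) (.nd (nat_lit 6) 
(.lf (nat_lit 152992) (.g (nat_lit 2428) (.e (nat_lit 57406) (nat_lit 12) (.e (nat_lit 336130) (nat_lit 9) (.e (nat_lit 335994) (nat_lit 1) (.e (nat_lit 57681) (nat_lit 155) (.e (nat_lit 122919) (nat_lit 15) (.e (nat_lit 360451) (nat_lit 0) (.e (nat_lit 7261) (nat_lit 384) .nil))))))) (.g (nat_lit 5) .nil .nil))) 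
(.lf (nat_lit 153056) (.g (nat_lit 1903) (.e (nat_lit 57406) (nat_lit 12) (.e (nat_lit 336316) (nat_lit 17) (.e (nat_lit 196666) (nat_lit 13) (.e (nat_lit 65617) (nat_lit 10) (.e (nat_lit 344091) (nat_lit 18) .nil))))) .nil)))) (.nd (nat_lit 5) (.nd (nat_lit 6) 
(.lf (nat_lit 152976) (.g (nat_lit 1670) (.e (nat_lit 57405) (nat_lit 12) (.e (nat_lit 336454) (nat_lit 34) (.e (nat_lit 483403) (nat_lit 26) (.e (nat_lit 385066) (nat_lit 26) (.e (nat_lit 532502) (nat_lit 1) .nil))))) .nil)) 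
(.lf (nat_lit 153040) (.g (nat_lit 3645) (.e (nat_lit 57406) (nat_lit 12) (.e (nat_lit 336211) (nat_lit 13) (.e (nat_lit 393301) (nat_lit 27) (.e (nat_lit 491560) (nat_lit 10) (.e (nat_lit 344096) (nat_lit 18) (.e (nat_lit 7261) (nat_lit 384) .nil)))))) (.g (nat_lit 4) .nil .nil)))) (.nd (nat_lit 6) 
(.lf (nat_lit 153008) (.g (nat_lit 3395) (.e (nat_lit 57406) (nat_lit 12) (.e (nat_lit 336210) (nat_lit 13) (.e (nat_lit 393301) (nat_lit 27) (.e (nat_lit 491560) (nat_lit 10) (.e (nat_lit 344090) (nat_lit 18) (.e (nat_lit 7261) (nat_lit 384) .nil)))))) (.g (nat_lit 4) .nil .nil))) 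
(.lf (nat_lit 153072) (.g (nat_lit 2320) (.e (nat_lit 57406) (nat_lit 12) (.e (nat_lit 336320) (nat_lit 17) (.e (nat_lit 196674) (nat_lit 15) (.e (nat_lit 81925) (nat_lit 11) (.e (nat_lit 426107) (nat_lit 1) (.e (nat_lit 164179) (nat_lit 154) .nil)))))) (.g (nat_lit 4) .nil .nil)))))) (.nd (nat_lit 4) (.nd (nat_lit 5) (.nd (nat_lit 6) 
(.lf (nat_lit 152968) (.g (nat_lit 2154) (.e (nat_lit 57405) (nat_lit 12) (.e (nat_lit 336443) (nat_lit 32) (.e (nat_lit 466977) (nat_lit 22) (.e (nat_lit 196654) (nat_lit 11) (.e (nat_lit 16406) (nat_lit 1) .nil))))) .nil)) 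
(.lf (nat_lit 153032) (.g (nat_lit 2445) (.e (nat_lit 57406) (nat_lit 12) (.e (nat_lit 336211) (nat_lit 13) (.e (nat_lit 393301) (nat_lit 27) (.e (nat_lit 491558) (nat_lit 10) (.e (nat_lit 344096) (nat_lit 18) .nil))))) .nil))) (.nd (nat_lit 6) 
(.lf (nat_lit 153000) (.g (nat_lit 2373) (.e (nat_lit 57406) (nat_lit 12) (.e (nat_lit 336210) (nat_lit 13) (.e (nat_lit 393300) (nat_lit 27) (.e (nat_lit 491558) (nat_lit 10) (.e (nat_lit 344091) (nat_lit 18) (.e (nat_lit 7265) (nat_lit 384) .nil)))))) (.g (nat_lit 4) .nil .nil))) 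
(.lf (nat_lit 153064) (.g (nat_lit 2263) (.e (nat_lit 57406) (nat_lit 12) (.e (nat_lit 336316) (nat_lit 17) (.e (nat_lit 196666) (nat_lit 13) (.e (nat_lit 65629) (nat_lit 14) (.e (nat_lit 401472) (nat_lit 28) .nil))))) .nil)))) (.nd (nat_lit 5) (.nd (nat_lit 6) 
(.lf (nat_lit 152984) (.g (nat_lit 2090) (.e (nat_lit 57405) (nat_lit 12) (.e (nat_lit 336454) (nat_lit 34) (.e (nat_lit 483406) (nat_lit 26) (.e (nat_lit 385066) (nat_lit 26) (.e (nat_lit 532504) (nat_lit 1) (.e (nat_lit 57854) (nat_lit 252) .nil)))))) (.g (nat_lit 4) .nil .nil))) 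
(.lf (nat_lit 153048) (.g (nat_lit 3469) (.e (nat_lit 57406) (nat_lit 12) (.e (nat_lit 343808) (nat_lit 13) (.e (nat_lit 393301) (nat_lit 27) (.e (nat_lit 491560) (nat_lit 10) (.e (nat_lit 344096) (nat_lit 18) (.e (nat_lit 7265) (nat_lit 384) .nil)))))) (.g (nat_lit 5) .nil .nil)))) (.nd (nat_lit 6) 
(.lf (nat_lit 153016) (.g (nat_lit 2449) (.e (nat_lit 57406) (nat_lit 12) (.e (nat_lit 336211) (nat_lit 13) (.e (nat_lit 393234) (nat_lit 17) (.e (nat_lit 7591) (nat_lit 407) (.e (nat_lit 73730) (nat_lit 0) (.e (nat_lit 7261) (nat_lit 384) .nil)))))) (.g (nat_lit 4) .nil .nil))) 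
(.lf (nat_lit 153080) (.g (nat_lit 1863) (.e (nat_lit 57406) (nat_lit 12) (.e (nat_lit 336324) (nat_lit 18) (.e (nat_lit 204854) (nat_lit 26) (.e (nat_lit 336210) (nat_lit 13) (.e (nat_lit 393251) (nat_lit 18) (.e (nat_lit 164179) (nat_lit 154) .nil)))))) (.g (nat_lit 4) .nil .nil))))))) (.nd (nat_lit 3) (.nd (nat_lit 4) (.nd (nat_lit 5) (.nd (nat_lit 6) 
(.lf (nat_lit 152964) (.g (nat_lit 2139) (.e (nat_lit 57405) (nat_lit 12) (.e (nat_lit 336443) (nat_lit 32) (.e (nat_lit 466974) (nat_lit 22) (.e (nat_lit 196656) (nat_lit 11) (.e (nat_lit 16406) (nat_lit 1) .nil))))) .nil)) 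
(.lf (nat_lit 153028) (.g (nat_lit 2369) (.e (nat_lit 57406) (nat_lit 12) (.e (nat_lit 336211) (nat_lit 13) (.e (nat_lit 393300) (nat_lit 27) (.e (nat_lit 491560) (nat_lit 10) (.e (nat_lit 344094) (nat_lit 18) (.e (nat_lit 7261) (nat_lit 384) .nil)))))) (.g (nat_lit 4) .nil .nil)))) (.nd (nat_lit 6) 
(.lf (nat_lit 152996) (.g (nat_lit 2186) (.e (nat_lit 57406) (nat_lit 12) (.e (nat_lit 336208) (nat_lit 12) (.e (nat_lit 385104) (nat_lit 50) (.e (nat_lit 786480) (nat_lit 29) (.e (nat_lit 352318) (nat_lit 24) (.e (nat_lit 123197) (nat_lit 266) .nil)))))) (.g (nat_lit 4) .nil .nil))) 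
(.lf (nat_lit 153060) (.g (nat_lit 2984) (.e (nat_lit 57406) (nat_lit 12) (.e (nat_lit 336316) (nat_lit 17) (.e (nat_lit 196666) (nat_lit 13) (.e (nat_lit 65626) (nat_lit 13) (.e (nat_lit 393251) (nat_lit 18) (.e (nat_lit 164179) (nat_lit 154) .nil)))))) (.g (nat_lit 5) .nil .nil))))) (.nd (nat_lit 5) (.nd (nat_lit 6) 
(.lf (nat_lit 152980) (.g (nat_lit 2112) (.e (nat_lit 57405) (nat_lit 12) (.e (nat_lit 336454) (nat_lit 34) (.e (nat_lit 483406) (nat_lit 26) (.e (nat_lit 385066) (nat_lit 26) (.e (nat_lit 532501) (nat_lit 1) .nil))))) .nil)) 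
(.lf (nat_lit 153044) (.g (nat_lit 2169) (.e (nat_lit 57406) (nat_lit 12) (.e (nat_lit 343808) (nat_lit 13) (.e (nat_lit 393299) (nat_lit 27) (.e (nat_lit 491558) (nat_lit 10) (.e (nat_lit 344096) (nat_lit 18) (.e (nat_lit 7261) (nat_lit 384) .nil)))))) (.g (nat_lit 5) .nil .nil)))) (.nd (nat_lit 6) 
(.lf (nat_lit 153012) (.g (nat_lit 2415) (.e (nat_lit 57406) (nat_lit 12) (.e (nat_lit 336211) (nat_lit 13) (.e (nat_lit 393232) (nat_lit 17) (.e (nat_lit 7591) (nat_lit 407) (.e (nat_lit 73730) (nat_lit 0) (.e (nat_lit 7261) (nat_lit 384) .nil)))))) (.g (nat_lit 4) .nil .nil))) 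
(.lf (nat_lit 153076) (.g (nat_lit 756) (.e (nat_lit 57406) (nat_lit 12) (.e (nat_lit 336324) (nat_lit 18) (.e (nat_lit 204849) (nat_lit 25) .nil))) .nil))))) (.nd (nat_lit 4) (.nd (nat_lit 5) (.nd (nat_lit 6) 
(.lf (nat_lit 152972) (.g (nat_lit 1119) (.e (nat_lit 57405) (nat_lit 12) (.e (nat_lit 336443) (nat_lit 32) (.e (nat_lit 466979) (nat_lit 23) (.e (nat_lit 204809) (nat_lit 9) .nil)))) .nil)) 
(.lf (nat_lit 153036) (.g (nat_lit 2834) (.e (nat_lit 57406) (nat_lit 12) (.e (nat_lit 336211) (nat_lit 13) (.e (nat_lit 393301) (nat_lit 27) (.e (nat_lit 491560) (nat_lit 10) (.e (nat_lit 344090) (nat_lit 18) .nil))))) .nil))) (.nd (nat_lit 6) 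
(.lf (nat_lit 153004) (.g (nat_lit 3695) (.e (nat_lit 57406) (nat_lit 12) (.e (nat_lit 336210) (nat_lit 13) (.e (nat_lit 393301) (nat_lit 27) (.e (nat_lit 491559) (nat_lit 10) (.e (nat_lit 344090) (nat_lit 18) (.e (nat_lit 7265) (nat_lit 384) .nil)))))) (.g (nat_lit 4) .nil .nil))) 
(.lf (nat_lit 153068) (.g (nat_lit 1361) (.e (nat_lit 57406) (nat_lit 12) (.e (nat_lit 336316) (nat_lit 17) (.e (nat_lit 196670) (nat_lit 14) (.e (nat_lit 73794) (nat_lit 46) .nil)))) .nil)))) (.nd (nat_lit 5) (.nd (nat_lit 6) 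
(.lf (nat_lit 152988) (.g (nat_lit 2657) (.e (nat_lit 57406) (nat_lit 12) (.e (nat_lit 336019) (nat_lit 3) (.e (nat_lit 98359) (nat_lit 26) (.e (nat_lit 426286) (nat_lit 10) (.e (nat_lit 434247) (nat_lit 28) .nil))))) .nil)) 
(.lf (nat_lit 153052) (.g (nat_lit 2733) (.e (nat_lit 57406) (nat_lit 12) (.e (nat_lit 336316) (nat_lit 17) (.e (nat_lit 196666) (nat_lit 13) (.e (nat_lit 65610) (nat_lit 10) (.e (nat_lit 344089) (nat_lit 18) .nil))))) .nil))) (.nd (nat_lit 6) 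
(.lf (nat_lit 153020) (.g (nat_lit 2156) (.e (nat_lit 57406) (nat_lit 12) (.e (nat_lit 336211) (nat_lit 13) (.e (nat_lit 393271) (nat_lit 23) (.e (nat_lit 426448) (nat_lit 20) (.e (nat_lit 114710) (nat_lit 21) (.e (nat_lit 57852) (nat_lit 252) .nil)))))) (.g (nat_lit 4) .nil .nil))) 
(.lf (nat_lit 153084) (.g (nat_lit 804) (.e (nat_lit 57406) (nat_lit 12) (.e (nat_lit 336324) (nat_lit 18) (.e (nat_lit 204856) (nat_lit 26) .nil))) .nil))))))) (.nd (nat_lit 2) (.nd (nat_lit 3) (.nd (nat_lit 4) (.nd (nat_lit 5) (.nd (nat_lit 6) 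
(.lf (nat_lit 152962) (.g (nat_lit 2100) (.e (nat_lit 57405) (nat_lit 12) (.e (nat_lit 336443) (nat_lit 32) (.e (nat_lit 466974) (nat_lit 22) (.e (nat_lit 196654) (nat_lit 11) (.e (nat_lit 16407) (nat_lit 1) .nil))))) .nil)) 
(.lf (nat_lit 153026) (.g (nat_lit 2692) (.e (nat_lit 57406) (nat_lit 12) (.e (nat_lit 336211) (nat_lit 13) (.e (nat_lit 393299) (nat_lit 27) (.e (nat_lit 491560) (nat_lit 10) (.e (nat_lit 344094) (nat_lit 18) (.e (nat_lit 7265) (nat_lit 384) .nil)))))) (.g (nat_lit 4) .nil .nil)))) (.nd (nat_lit 6) 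
(.lf (nat_lit 152994) (.g (nat_lit 1909) (.e (nat_lit 57406) (nat_lit 12) (.e (nat_lit 336136) (nat_lit 9) (.e (nat_lit 336389) (nat_lit 27) (.e (nat_lit 426344) (nat_lit 14) (.e (nat_lit 491558) (nat_lit 10) .nil))))) .nil)) 
(.lf (nat_lit 153058) (.g (nat_lit 1519) (.e (nat_lit 57406) (nat_lit 12) (.e (nat_lit 336316) (nat_lit 17) (.e (nat_lit 196666) (nat_lit 13) (.e (nat_lit 65626) (nat_lit 13) .nil)))) .nil)))) (.nd (nat_lit 5) (.nd (nat_lit 6) 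
(.lf (nat_lit 152978) (.g (nat_lit 2348) (.e (nat_lit 57405) (nat_lit 12) (.e (nat_lit 336454) (nat_lit 34) (.e (nat_lit 483403) (nat_lit 26) (.e (nat_lit 385068) (nat_lit 26) (.e (nat_lit 532503) (nat_lit 1) (.e (nat_lit 57847) (nat_lit 252) .nil)))))) (.g (nat_lit 5) .nil .nil))) 
(.lf (nat_lit 153042) (.g (nat_lit 1525) (.e (nat_lit 57406) (nat_lit 12) (.e (nat_lit 343808) (nat_lit 13) (.e (nat_lit 393234) (nat_lit 17) (.e (nat_lit 7591) (nat_lit 407) (.e (nat_lit 73731) (nat_lit 0) (.e (nat_lit 7261) (nat_lit 384) .nil)))))) (.g (nat_lit 4) .nil .nil)))) (.nd (nat_lit 6) 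
(.lf (nat_lit 153010) (.g (nat_lit 2787) (.e (nat_lit 57406) (nat_lit 12) (.e (nat_lit 336210) (nat_lit 13) (.e (nat_lit 393301) (nat_lit 27) (.e (nat_lit 491560) (nat_lit 10) (.e (nat_lit 344094) (nat_lit 18) (.e (nat_lit 7261) (nat_lit 384) .nil)))))) (.g (nat_lit 4) .nil .nil))) 
(.lf (nat_lit 153074) (.g (nat_lit 3754) (.e (nat_lit 57406) (nat_lit 12) (.e (nat_lit 336324) (nat_lit 18) (.e (nat_lit 204831) (nat_lit 18) (.e (nat_lit 57852) (nat_lit 252) .nil)))) .nil))))) (.nd (nat_lit 4) (.nd (nat_lit 5) (.nd (nat_lit 6) 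
(.lf (nat_lit 152970) (.g (nat_lit 2385) (.e (nat_lit 57405) (nat_lit 12) (.e (nat_lit 336443) (nat_lit 32) (.e (nat_lit 466977) (nat_lit 22) (.e (nat_lit 196656) (nat_lit 11) (.e (nat_lit 16406) (nat_lit 1) .nil))))) .nil)) 
(.lf (nat_lit 153034) (.g (nat_lit 3643) (.e (nat_lit 57406) (nat_lit 12) (.e (nat_lit 336211) (nat_lit 13) (.e (nat_lit 393301) (nat_lit 27) (.e (nat_lit 491559) (nat_lit 10) (.e (nat_lit 344091) (nat_lit 18) (.e (nat_lit 7265) (nat_lit 384) .nil)))))) (.g (nat_lit 4) .nil .nil)))) (.nd (nat_lit 6) 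
(.lf (nat_lit 153002) (.g (nat_lit 2220) (.e (nat_lit 57406) (nat_lit 12) (.e (nat_lit 336210) (nat_lit 13) (.e (nat_lit 393300) (nat_lit 27) (.e (nat_lit 491560) (nat_lit 10) (.e (nat_lit 344090) (nat_lit 18) (.e (nat_lit 7265) (nat_lit 384) .nil)))))) (.g (nat_lit 4) .nil .nil))) 
(.lf (nat_lit 153066) (.g (nat_lit 1328) (.e (nat_lit 57406) (nat_lit 12) (.e (nat_lit 336316) (nat_lit 17) (.e (nat_lit 196668) (nat_lit 14) (.e (nat_lit 73794) (nat_lit 46) .nil)))) .nil)))) (.nd (nat_lit 5) (.nd (nat_lit 6) 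
(.lf (nat_lit 152986) (.g (nat_lit 2121) (.e (nat_lit 57405) (nat_lit 12) (.e (nat_lit 336454) (nat_lit 34) (.e (nat_lit 483406) (nat_lit 26) (.e (nat_lit 385068) (nat_lit 26) (.e (nat_lit 532501) (nat_lit 1) (.e (nat_lit 57854) (nat_lit 252) .nil)))))) (.g (nat_lit 4) .nil .nil))) 
(.lf (nat_lit 153050) (.g (nat_lit 1275) (.e (nat_lit 57406) (nat_lit 12) (.e (nat_lit 336316) (nat_lit 17) (.e (nat_lit 196630) (nat_lit 9) (.e (nat_lit 1573) (nat_lit 110) (.e (nat_lit 352273) (nat_lit 11) .nil))))) .nil))) (.nd (nat_lit 6) 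
(.lf (nat_lit 153018) (.g (nat_lit 1988) (.e (nat_lit 57406) (nat_lit 12) (.e (nat_lit 336211) (nat_lit 13) (.e (nat_lit 393234) (nat_lit 17) (.e (nat_lit 7593) (nat_lit 407) (.e (nat_lit 73731) (nat_lit 0) .nil))))) .nil)) 
(.lf (nat_lit 153082) (.g (nat_lit 3393) (.e (nat_lit 57406) (nat_lit 12) (.e (nat_lit 336324) (nat_lit 18) (.e (nat_lit 204854) (nat_lit 26) (.e (nat_lit 336211) (nat_lit 13) (.e (nat_lit 393253) (nat_lit 18) (.e (nat_lit 164179) (nat_lit 154) .nil)))))) (.g (nat_lit 0) .nil .nil))))))) (.nd (nat_lit 3) (.nd (nat_lit 4) (.nd (nat_lit 5) (.nd (nat_lit 6) 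
(.lf (nat_lit 152966) (.g (nat_lit 804) (.e (nat_lit 57405) (nat_lit 12) (.e (nat_lit 336443) (nat_lit 32) (.e (nat_lit 466977) (nat_lit 22) .nil))) .nil)) 
(.lf (nat_lit 153030) (.g (nat_lit 1270) (.e (nat_lit 57406) (nat_lit 12) (.e (nat_lit 336211) (nat_lit 13) (.e (nat_lit 393301) (nat_lit 27) (.e (nat_lit 491558) (nat_lit 10) .nil)))) .nil))) (.nd (nat_lit 6) 
(.lf (nat_lit 152998) (.g (nat_lit 2844) (.e (nat_lit 57406) (nat_lit 12) (.e (nat_lit 336210) (nat_lit 13) (.e (nat_lit 393299) (nat_lit 27) (.e (nat_lit 491560) (nat_lit 10) (.e (nat_lit 344091) (nat_lit 18) (.e (nat_lit 7265) (nat_lit 384) .nil)))))) (.g (nat_lit 4) .nil .nil))) 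
(.lf (nat_lit 153062) (.g (nat_lit 3250) (.e (nat_lit 57406) (nat_lit 12) (.e (nat_lit 336316) (nat_lit 17) (.e (nat_lit 196666) (nat_lit 13) (.e (nat_lit 65627) (nat_lit 13) (.e (nat_lit 393253) (nat_lit 18) (.e (nat_lit 164178) (nat_lit 154) .nil)))))) (.g (nat_lit 5) .nil .nil))))) (.nd (nat_lit 5) (.nd (nat_lit 6) 
(.lf (nat_lit 152982) (.g (nat_lit 2582) (.e (nat_lit 57405) (nat_lit 12) (.e (nat_lit 336454) (nat_lit 34) (.e (nat_lit 483406) (nat_lit 26) (.e (nat_lit 385066) (nat_lit 26) (.e (nat_lit 532503) (nat_lit 1) (.e (nat_lit 57847) (nat_lit 252) .nil)))))) (.g (nat_lit 5) .nil .nil))) 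
(.lf (nat_lit 153046) (.g (nat_lit 1883) (.e (nat_lit 57406) (nat_lit 12) (.e (nat_lit 343808) (nat_lit 13) (.e (nat_lit 393300) (nat_lit 27) (.e (nat_lit 491558) (nat_lit 10) (.e (nat_lit 344096) (nat_lit 18) (.e (nat_lit 7265) (nat_lit 384) .nil)))))) (.g (nat_lit 4) .nil .nil)))) (.nd (nat_lit 6) 
(.lf (nat_lit 153014) (.g (nat_lit 2306) (.e (nat_lit 57406) (nat_lit 12) (.e (nat_lit 336211) (nat_lit 13) (.e (nat_lit 393233) (nat_lit 17) (.e (nat_lit 7593) (nat_lit 407) (.e (nat_lit 73730) (nat_lit 0) (.e (nat_lit 7261) (nat_lit 384) .nil)))))) (.g (nat_lit 4) .nil .nil))) 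
(.lf (nat_lit 153078) (.g (nat_lit 804) (.e (nat_lit 57406) (nat_lit 12) (.e (nat_lit 336324) (nat_lit 18) (.e (nat_lit 204851) (nat_lit 26) .nil))) .nil))))) (.nd (nat_lit 4) (.nd (nat_lit 5) (.nd (nat_lit 6) 
(.lf (nat_lit 152974) (.g (nat_lit 1882) (.e (nat_lit 57405) (nat_lit 12) (.e (nat_lit 336443) (nat_lit 32) (.e (nat_lit 466981) (nat_lit 23) (.e (nat_lit 204813) (nat_lit 9) (.e (nat_lit 426100) (nat_lit 1) .nil))))) .nil)) 
(.lf (nat_lit 153038) (.g (nat_lit 3770) (.e (nat_lit 57406) (nat_lit 12) (.e (nat_lit 336211) (nat_lit 13) (.e (nat_lit 393301) (nat_lit 27) (.e (nat_lit 491560) (nat_lit 10) (.e (nat_lit 344091) (nat_lit 18) (.e (nat_lit 7265) (nat_lit 384) .nil)))))) (.g (nat_lit 4) .nil .nil)))) (.nd (nat_lit 6) 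
(.lf (nat_lit 153006) (.g (nat_lit 3310) (.e (nat_lit 57406) (nat_lit 12) (.e (nat_lit 336210) (nat_lit 13) (.e (nat_lit 393301) (nat_lit 27) (.e (nat_lit 491559) (nat_lit 10) (.e (nat_lit 344095) (nat_lit 18) (.e (nat_lit 7261) (nat_lit 384) .nil)))))) (.g (nat_lit 4) .nil .nil))) 
(.lf (nat_lit 153070) (.g (nat_lit 3494) (.e (nat_lit 57406) (nat_lit 12) (.e (nat_lit 336316) (nat_lit 17) (.e (nat_lit 196674) (nat_lit 15) (.e (nat_lit 81925) (nat_lit 11) (.e (nat_lit 426107) (nat_lit 1) (.e (nat_lit 164178) (nat_lit 154) .nil)))))) (.g (nat_lit 5) .nil .nil))))) (.nd (nat_lit 5) (.nd (nat_lit 6) 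
(.lf (nat_lit 152990) (.g (nat_lit 3095) (.e (nat_lit 57406) (nat_lit 12) (.e (nat_lit 336124) (nat_lit 9) (.e (nat_lit 335985) (nat_lit 1) (.e (nat_lit 57681) (nat_lit 155) (.e (nat_lit 122919) (nat_lit 15) (.e (nat_lit 360451) (nat_lit 0) (.e (nat_lit 7265) (nat_lit 384) .nil))))))) (.g (nat_lit 5) .nil .nil))) 
(.lf (nat_lit 153054) (.g (nat_lit 1019) (.e (nat_lit 57406) (nat_lit 12) (.e (nat_lit 336316) (nat_lit 17) (.e (nat_lit 196666) (nat_lit 13) (.e (nat_lit 65617) (nat_lit 10) .nil)))) .nil))) (.nd (nat_lit 6) 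
(.lf (nat_lit 153022) (.g (nat_lit 2681) (.e (nat_lit 57406) (nat_lit 12) (.e (nat_lit 336211) (nat_lit 13) (.e (nat_lit 393299) (nat_lit 27) (.e (nat_lit 491558) (nat_lit 10) (.e (nat_lit 344095) (nat_lit 18) (.e (nat_lit 7261) (nat_lit 384) .nil)))))) (.g (nat_lit 4) .nil .nil))) 
(.lf (nat_lit 153086) (.g (nat_lit 2760) (.e (nat_lit 57406) (nat_lit 12) (.e (nat_lit 336324) (nat_lit 18) (.e (nat_lit 204865) (nat_lit 28) (.e (nat_lit 352277) (nat_lit 11) (.e (nat_lit 426098) (nat_lit 1) (.e (nat_lit 164179) (nat_lit 154) .nil)))))) (.g (nat_lit 0) .nil .nil))))))))) (.nd (nat_lit 1) (.nd (nat_lit 2) (.nd (nat_lit 3) (.nd (nat_lit 4) (.nd (nat_lit 5) (.nd (nat_lit 6) 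
(.lf (nat_lit 152961) (.g (nat_lit 2077) (.e (nat_lit 57405) (nat_lit 12) (.e (nat_lit 336443) (nat_lit 32) (.e (nat_lit 466974) (nat_lit 22) (.e (nat_lit 196654) (nat_lit 11) (.e (nat_lit 16406) (nat_lit 1) .nil))))) .nil)) 
(.lf (nat_lit 153025) (.g (nat_lit 2047) (.e (nat_lit 57406) (nat_lit 12) (.e (nat_lit 336211) (nat_lit 13) (.e (nat_lit 393299) (nat_lit 27) (.e (nat_lit 491560) (nat_lit 10) (.e (nat_lit 344094) (nat_lit 18) .nil))))) .nil))) (.nd (nat_lit 6) 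
(.lf (nat_lit 152993) (.g (nat_lit 2320) (.e (nat_lit 57406) (nat_lit 12) (.e (nat_lit 336134) (nat_lit 9) (.e (nat_lit 335985) (nat_lit 1) (.e (nat_lit 57681) (nat_lit 155) (.e (nat_lit 122919) (nat_lit 15) (.e (nat_lit 360451) (nat_lit 0) (.e (nat_lit 7265) (nat_lit 384) .nil))))))) (.g (nat_lit 4) .nil .nil))) 
(.lf (nat_lit 153057) (.g (nat_lit 2047) (.e (nat_lit 57406) (nat_lit 12) (.e (nat_lit 336316) (nat_lit 17) (.e (nat_lit 196666) (nat_lit 13) (.e (nat_lit 65625) (nat_lit 13) (.e (nat_lit 393254) (nat_lit 18) (.e (nat_lit 164179) (nat_lit 154) .nil)))))) (.g (nat_lit 4) .nil .nil))))) (.nd (nat_lit 5) (.nd (nat_lit 6) 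
(.lf (nat_lit 152977) (.g (nat_lit 2947) (.e (nat_lit 57405) (nat_lit 12) (.e (nat_lit 336454) (nat_lit 34) (.e (nat_lit 483403) (nat_lit 26) (.e (nat_lit 385066) (nat_lit 26) (.e (nat_lit 532504) (nat_lit 1) (.e (nat_lit 57852) (nat_lit 252) .nil)))))) (.g (nat_lit 0) .nil .nil))) 
(.lf (nat_lit 153041) (.g (nat_lit 1473) (.e (nat_lit 57406) (nat_lit 12) (.e (nat_lit 343808) (nat_lit 13) (.e (nat_lit 393234) (nat_lit 17) (.e (nat_lit 7591) (nat_lit 407) (.e (nat_lit 73730) (nat_lit 0) (.e (nat_lit 7261) (nat_lit 384) .nil)))))) (.g (nat_lit 4) .nil .nil)))) (.nd (nat_lit 6) 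
(.lf (nat_lit 153009) (.g (nat_lit 3532) (.e (nat_lit 57406) (nat_lit 12) (.e (nat_lit 336210) (nat_lit 13) (.e (nat_lit 393301) (nat_lit 27) (.e (nat_lit 491560) (nat_lit 10) (.e (nat_lit 344091) (nat_lit 18) (.e (nat_lit 7265) (nat_lit 384) .nil)))))) (.g (nat_lit 4) .nil .nil))) 
(.lf (nat_lit 153073) (.g (nat_lit 1047) (.e (nat_lit 57406) (nat_lit 12) (.e (nat_lit 336322) (nat_lit 18) (.e (nat_lit 204877) (nat_lit 31) (.e (nat_lit 376842) (nat_lit 11) (.e (nat_lit 426098) (nat_lit 1) .nil))))) .nil))))) (.nd (nat_lit 4) (.nd (nat_lit 5) (.nd (nat_lit 6) 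
(.lf (nat_lit 152969) (.g (nat_lit 2370) (.e (nat_lit 57405) (nat_lit 12) (.e (nat_lit 336443) (nat_lit 32) (.e (nat_lit 466977) (nat_lit 22) (.e (nat_lit 196656) (nat_lit 11) (.e (nat_lit 16405) (nat_lit 1) .nil))))) .nil)) 
(.lf (nat_lit 153033) (.g (nat_lit 3138) (.e (nat_lit 57406) (nat_lit 12) (.e (nat_lit 336211) (nat_lit 13) (.e (nat_lit 393301) (nat_lit 27) (.e (nat_lit 491559) (nat_lit 10) (.e (nat_lit 344090) (nat_lit 18) .nil))))) .nil))) (.nd (nat_lit 6) 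
(.lf (nat_lit 153001) (.g (nat_lit 2413) (.e (nat_lit 57406) (nat_lit 12) (.e (nat_lit 336210) (nat_lit 13) (.e (nat_lit 393300) (nat_lit 27) (.e (nat_lit 491558) (nat_lit 10) (.e (nat_lit 344096) (nat_lit 18) (.e (nat_lit 7265) (nat_lit 384) .nil)))))) (.g (nat_lit 4) .nil .nil))) 
(.lf (nat_lit 153065) (.g (nat_lit 2828) (.e (nat_lit 57406) (nat_lit 12) (.e (nat_lit 336316) (nat_lit 17) (.e (nat_lit 196666) (nat_lit 13) (.e (nat_lit 65630) (nat_lit 14) (.e (nat_lit 401472) (nat_lit 28) .nil))))) .nil)))) (.nd (nat_lit 5) (.nd (nat_lit 6) 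
(.lf (nat_lit 152985) (.g (nat_lit 2081) (.e (nat_lit 57405) (nat_lit 12) (.e (nat_lit 336454) (nat_lit 34) (.e (nat_lit 483406) (nat_lit 26) (.e (nat_lit 385068) (nat_lit 26) (.e (nat_lit 532501) (nat_lit 1) .nil))))) .nil)) 
(.lf (nat_lit 153049) (.g (nat_lit 2015) (.e (nat_lit 57406) (nat_lit 12) (.e (nat_lit 336310) (nat_lit 16) (.e (nat_lit 164185) (nat_lit 155) (.e (nat_lit 122919) (nat_lit 15) (.e (nat_lit 360484) (nat_lit 15) (.e (nat_lit 647201) (nat_lit 12) (.e (nat_lit 57351) (nat_lit 0) (.e (nat_lit 7265) (nat_lit 384) .nil)))))))) (.g (nat_lit 4) .nil .nil)))) (.nd (nat_lit 6) 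
(.lf (nat_lit 153017) (.g (nat_lit 2503) (.e (nat_lit 57406) (nat_lit 12) (.e (nat_lit 336211) (nat_lit 13) (.e (nat_lit 393234) (nat_lit 17) (.e (nat_lit 7591) (nat_lit 407) (.e (nat_lit 73731) (nat_lit 0) (.e (nat_lit 7261) (nat_lit 384) .nil)))))) (.g (nat_lit 4) .nil .nil))) 
(.lf (nat_lit 153081) (.g (nat_lit 3484) (.e (nat_lit 57406) (nat_lit 12) (.e (nat_lit 336324) (nat_lit 18) (.e (nat_lit 204854) (nat_lit 26) (.e (nat_lit 336211) (nat_lit 13) (.e (nat_lit 393251) (nat_lit 18) (.e (nat_lit 164179) (nat_lit 154) .nil)))))) (.g (nat_lit 0) .nil .nil))))))) (.nd (nat_lit 3) (.nd (nat_lit 4) (.nd (nat_lit 5) (.nd (nat_lit 6) 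
(.lf (nat_lit 152965) (.g (nat_lit 2133) (.e (nat_lit 57405) (nat_lit 12) (.e (nat_lit 336443) (nat_lit 32) (.e (nat_lit 466974) (nat_lit 22) (.e (nat_lit 196656) (nat_lit 11) (.e (nat_lit 16407) (nat_lit 1) .nil))))) .nil)) 
(.lf (nat_lit 153029) (.g (nat_lit 2384) (.e (nat_lit 57406) (nat_lit 12) (.e (nat_lit 336211) (nat_lit 13) (.e (nat_lit 393300) (nat_lit 27) (.e (nat_lit 491560) (nat_lit 10) (.e (nat_lit 344095) (nat_lit 18) (.e (nat_lit 7261) (nat_lit 384) .nil)))))) (.g (nat_lit 4) .nil .nil)))) (.nd (nat_lit 6) 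
(.lf (nat_lit 152997) (.g (nat_lit 1514) (.e (nat_lit 57406) (nat_lit 12) (.e (nat_lit 336210) (nat_lit 13) (.e (nat_lit 393298) (nat_lit 27) (.e (nat_lit 491560) (nat_lit 10) .nil)))) .nil)) 
(.lf (nat_lit 153061) (.g (nat_lit 1988) (.e (nat_lit 57406) (nat_lit 12) (.e (nat_lit 336316) (nat_lit 17) (.e (nat_lit 196666) (nat_lit 13) (.e (nat_lit 65626) (nat_lit 13) (.e (nat_lit 393253) (nat_lit 18) .nil))))) .nil)))) (.nd (nat_lit 5) (.nd (nat_lit 6) 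
(.lf (nat_lit 152981) (.g (nat_lit 2084) (.e (nat_lit 57405) (nat_lit 12) (.e (nat_lit 336454) (nat_lit 34) (.e (nat_lit 483406) (nat_lit 26) (.e (nat_lit 385066) (nat_lit 26) (.e (nat_lit 532502) (nat_lit 1) .nil))))) .nil)) 
(.lf (nat_lit 153045) (.g (nat_lit 1866) (.e (nat_lit 57406) (nat_lit 12) (.e (nat_lit 343808) (nat_lit 13) (.e (nat_lit 393300) (nat_lit 27) (.e (nat_lit 491558) (nat_lit 10) (.e (nat_lit 344091) (nat_lit 18) (.e (nat_lit 7265) (nat_lit 384) .nil)))))) (.g (nat_lit 4) .nil .nil)))) (.nd (nat_lit 6) 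
(.lf (nat_lit 153013) (.g (nat_lit 2400) (.e (nat_lit 57406) (nat_lit 12) (.e (nat_lit 336211) (nat_lit 13) (.e (nat_lit 393232) (nat_lit 17) (.e (nat_lit 7593) (nat_lit 407) (.e (nat_lit 73730) (nat_lit 0) (.e (nat_lit 7261) (nat_lit 384) .nil)))))) (.g (nat_lit 4) .nil .nil))) 
(.lf (nat_lit 153077) (.g (nat_lit 1346) (.e (nat_lit 57406) (nat_lit 12) (.e (nat_lit 336324) (nat_lit 18) (.e (nat_lit 204849) (nat_lit 25) (.e (nat_lit 327701) (nat_lit 9) .nil)))) .nil))))) (.nd (nat_lit 4) (.nd (nat_lit 5) (.nd (nat_lit 6) 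
(.lf (nat_lit 152973) (.g (nat_lit 1717) (.e (nat_lit 57405) (nat_lit 12) (.e (nat_lit 336443) (nat_lit 32) (.e (nat_lit 466979) (nat_lit 23) (.e (nat_lit 204813) (nat_lit 9) (.e (nat_lit 426098) (nat_lit 1) .nil))))) .nil)) 
(.lf (nat_lit 153037) (.g (nat_lit 3172) (.e (nat_lit 57406) (nat_lit 12) (.e (nat_lit 336211) (nat_lit 13) (.e (nat_lit 393301) (nat_lit 27) (.e (nat_lit 491560) (nat_lit 10) (.e (nat_lit 344091) (nat_lit 18) (.e (nat_lit 7261) (nat_lit 384) .nil)))))) (.g (nat_lit 4) .nil .nil)))) (.nd (nat_lit 6) 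
(.lf (nat_lit 153005) (.g (nat_lit 3666) (.e (nat_lit 57406) (nat_lit 12) (.e (nat_lit 336210) (nat_lit 13) (.e (nat_lit 393301) (nat_lit 27) (.e (nat_lit 491559) (nat_lit 10) (.e (nat_lit 344091) (nat_lit 18) (.e (nat_lit 7261) (nat_lit 384) .nil)))))) (.g (nat_lit 4) .nil .nil))) 
(.lf (nat_lit 153069) (.g (nat_lit 1926) (.e (nat_lit 57406) (nat_lit 12) (.e (nat_lit 336316) (nat_lit 17) (.e (nat_lit 196674) (nat_lit 15) (.e (nat_lit 81925) (nat_lit 11) (.e (nat_lit 426105) (nat_lit 1) (.e (nat_lit 164179) (nat_lit 154) .nil)))))) (.g (nat_lit 4) .nil .nil))))) (.nd (nat_lit 5) (.nd (nat_lit 6) 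
(.lf (nat_lit 152989) (.g (nat_lit 2279) (.e (nat_lit 57406) (nat_lit 12) (.e (nat_lit 336019) (nat_lit 3) (.e (nat_lit 98372) (nat_lit 29) (.e (nat_lit 450586) (nat_lit 10) (.e (nat_lit 573477) (nat_lit 12) .nil))))) .nil)) 
(.lf (nat_lit 153053) (.g (nat_lit 2443) (.e (nat_lit 57406) (nat_lit 12) (.e (nat_lit 336316) (nat_lit 17) (.e (nat_lit 196666) (nat_lit 13) (.e (nat_lit 65610) (nat_lit 10) (.e (nat_lit 344090) (nat_lit 18) .nil))))) .nil))) (.nd (nat_lit 6) 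
(.lf (nat_lit 153021) (.g (nat_lit 1563) (.e (nat_lit 57406) (nat_lit 12) (.e (nat_lit 336211) (nat_lit 13) (.e (nat_lit 393298) (nat_lit 27) (.e (nat_lit 491560) (nat_lit 10) .nil)))) .nil)) 
(.lf (nat_lit 153085) (.g (nat_lit 1796) (.e (nat_lit 57406) (nat_lit 12) (.e (nat_lit 336324) (nat_lit 18) (.e (nat_lit 204859) (nat_lit 26) (.e (nat_lit 336209) (nat_lit 13) (.e (nat_lit 393251) (nat_lit 18) (.e (nat_lit 164179) (nat_lit 154) .nil)))))) (.g (nat_lit 4) .nil .nil)))))))) (.nd (nat_lit 2) (.nd (nat_lit 3) (.nd (nat_lit 4) (.nd (nat_lit 5) (.nd (nat_lit 6) 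
(.lf (nat_lit 152963) (.g (nat_lit 2125) (.e (nat_lit 57405) (nat_lit 12) (.e (nat_lit 336443) (nat_lit 32) (.e (nat_lit 466974) (nat_lit 22) (.e (nat_lit 196656) (nat_lit 11) (.e (nat_lit 16405) (nat_lit 1) .nil))))) .nil)) 
(.lf (nat_lit 153027) (.g (nat_lit 2873) (.e (nat_lit 57406) (nat_lit 12) (.e (nat_lit 336211) (nat_lit 13) (.e (nat_lit 393300) (nat_lit 27) (.e (nat_lit 491558) (nat_lit 10) (.e (nat_lit 344090) (nat_lit 18) (.e (nat_lit 7265) (nat_lit 384) .nil)))))) (.g (nat_lit 5) .nil .nil)))) (.nd (nat_lit 6) 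
(.lf (nat_lit 152995) (.g (nat_lit 2252) (.e (nat_lit 57406) (nat_lit 12) (.e (nat_lit 336208) (nat_lit 12) (.e (nat_lit 385094) (nat_lit 49) (.e (nat_lit 778326) (nat_lit 6) (.e (nat_lit 81957) (nat_lit 24) (.e (nat_lit 123197) (nat_lit 266) .nil)))))) (.g (nat_lit 4) .nil .nil))) 
(.lf (nat_lit 153059) (.g (nat_lit 3196) (.e (nat_lit 57406) (nat_lit 12) (.e (nat_lit 336316) (nat_lit 17) (.e (nat_lit 196666) (nat_lit 13) (.e (nat_lit 65626) (nat_lit 13) (.e (nat_lit 393251) (nat_lit 18) (.e (nat_lit 164177) (nat_lit 154) .nil)))))) (.g (nat_lit 5) .nil .nil))))) (.nd (nat_lit 5) (.nd (nat_lit 6) 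
(.lf (nat_lit 152979) (.g (nat_lit 2065) (.e (nat_lit 57405) (nat_lit 12) (.e (nat_lit 336454) (nat_lit 34) (.e (nat_lit 483406) (nat_lit 26) (.e (nat_lit 385066) (nat_lit 26) (.e (nat_lit 532499) (nat_lit 1) .nil))))) .nil)) 
(.lf (nat_lit 153043) (.g (nat_lit 1311) (.e (nat_lit 57406) (nat_lit 12) (.e (nat_lit 343808) (nat_lit 13) (.e (nat_lit 393273) (nat_lit 23) (.e (nat_lit 426446) (nat_lit 20) (.e (nat_lit 114712) (nat_lit 21) (.e (nat_lit 57853) (nat_lit 252) .nil)))))) (.g (nat_lit 4) .nil .nil)))) (.nd (nat_lit 6) 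
(.lf (nat_lit 153011) (.g (nat_lit 3413) (.e (nat_lit 57406) (nat_lit 12) (.e (nat_lit 336211) (nat_lit 13) (.e (nat_lit 393232) (nat_lit 17) (.e (nat_lit 7591) (nat_lit 407) (.e (nat_lit 73729) (nat_lit 0) (.e (nat_lit 7265) (nat_lit 384) .nil)))))) (.g (nat_lit 6) .nil .nil))) 
(.lf (nat_lit 153075) (.g (nat_lit 3743) (.e (nat_lit 57406) (nat_lit 12) (.e (nat_lit 336324) (nat_lit 18) (.e (nat_lit 204831) (nat_lit 18) (.e (nat_lit 57854) (nat_lit 252) .nil)))) .nil))))) (.nd (nat_lit 4) (.nd (nat_lit 5) (.nd (nat_lit 6) 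
(.lf (nat_lit 152971) (.g (nat_lit 2390) (.e (nat_lit 57405) (nat_lit 12) (.e (nat_lit 336443) (nat_lit 32) (.e (nat_lit 466977) (nat_lit 22) (.e (nat_lit 196656) (nat_lit 11) (.e (nat_lit 16407) (nat_lit 1) .nil))))) .nil)) 
(.lf (nat_lit 153035) (.g (nat_lit 3357) (.e (nat_lit 57406) (nat_lit 12) (.e (nat_lit 336211) (nat_lit 13) (.e (nat_lit 393301) (nat_lit 27) (.e (nat_lit 491560) (nat_lit 10) (.e (nat_lit 344087) (nat_lit 18) (.e (nat_lit 7265) (nat_lit 384) .nil)))))) (.g (nat_lit 4) .nil .nil)))) (.nd (nat_lit 6) 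
(.lf (nat_lit 153003) (.g (nat_lit 2877) (.e (nat_lit 57406) (nat_lit 12) (.e (nat_lit 336210) (nat_lit 13) (.e (nat_lit 393301) (nat_lit 27) (.e (nat_lit 491558) (nat_lit 10) (.e (nat_lit 344090) (nat_lit 18) (.e (nat_lit 7265) (nat_lit 384) .nil)))))) (.g (nat_lit 4) .nil .nil))) 
(.lf (nat_lit 153067) (.g (nat_lit 2238) (.e (nat_lit 57406) (nat_lit 12) (.e (nat_lit 336316) (nat_lit 17) (.e (nat_lit 196670) (nat_lit 14) (.e (nat_lit 73792) (nat_lit 45) (.e (nat_lit 1162) (nat_lit 86) .nil))))) .nil)))) (.nd (nat_lit 5) (.nd (nat_lit 6) 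
(.lf (nat_lit 152987) (.g (nat_lit 1283) (.e (nat_lit 57405) (nat_lit 12) (.e (nat_lit 336454) (nat_lit 34) (.e (nat_lit 483408) (nat_lit 26) (.e (nat_lit 385067) (nat_lit 26) .nil)))) .nil)) 
(.lf (nat_lit 153051) (.g (nat_lit 1742) (.e (nat_lit 57406) (nat_lit 12) (.e (nat_lit 336316) (nat_lit 17) (.e (nat_lit 196663) (nat_lit 13) (.e (nat_lit 65630) (nat_lit 14) (.e (nat_lit 401472) (nat_lit 28) .nil))))) .nil))) (.nd (nat_lit 6) 
(.lf (nat_lit 153019) (.g (nat_lit 1420) (.e (nat_lit 57406) (nat_lit 12) (.e (nat_lit 336211) (nat_lit 13) (.e (nat_lit 393268) (nat_lit 23) (.e (nat_lit 426361) (nat_lit 15) .nil)))) .nil)) 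
(.lf (nat_lit 153083) (.g (nat_lit 3103) (.e (nat_lit 57406) (nat_lit 12) (.e (nat_lit 336324) (nat_lit 18) (.e (nat_lit 204854) (nat_lit 26) (.e (nat_lit 336211) (nat_lit 13) (.e (nat_lit 393254) (nat_lit 18) (.e (nat_lit 164179) (nat_lit 154) .nil)))))) (.g (nat_lit 0) .nil .nil))))))) (.nd (nat_lit 3) (.nd (nat_lit 4) (.nd (nat_lit 5) (.nd (nat_lit 6) 
(.lf (nat_lit 152967) (.g (nat_lit 1625) (.e (nat_lit 57405) (nat_lit 12) (.e (nat_lit 336443) (nat_lit 32) (.e (nat_lit 466977) (nat_lit 22) (.e (nat_lit 196654) (nat_lit 11) .nil)))) .nil)) 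
(.lf (nat_lit 153031) (.g (nat_lit 3170) (.e (nat_lit 57406) (nat_lit 12) (.e (nat_lit 336211) (nat_lit 13) (.e (nat_lit 393301) (nat_lit 27) (.e (nat_lit 491558) (nat_lit 10) (.e (nat_lit 344090) (nat_lit 18) (.e (nat_lit 7261) (nat_lit 384) .nil)))))) (.g (nat_lit 4) .nil .nil)))) (.nd (nat_lit 6) 
(.lf (nat_lit 152999) (.g (nat_lit 3010) (.e (nat_lit 57406) (nat_lit 12) (.e (nat_lit 336210) (nat_lit 13) (.e (nat_lit 393299) (nat_lit 27) (.e (nat_lit 491560) (nat_lit 10) (.e (nat_lit 344096) (nat_lit 18) (.e (nat_lit 7265) (nat_lit 384) .nil)))))) (.g (nat_lit 4) .nil .nil))) 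
(.lf (nat_lit 153063) (.g (nat_lit 2367) (.e (nat_lit 57406) (nat_lit 12) (.e (nat_lit 336316) (nat_lit 17) (.e (nat_lit 196666) (nat_lit 13) (.e (nat_lit 65628) (nat_lit 14) (.e (nat_lit 401472) (nat_lit 28) .nil))))) .nil)))) (.nd (nat_lit 5) (.nd (nat_lit 6) 
(.lf (nat_lit 152983) (.g (nat_lit 2137) (.e (nat_lit 57405) (nat_lit 12) (.e (nat_lit 336454) (nat_lit 34) (.e (nat_lit 483406) (nat_lit 26) (.e (nat_lit 385066) (nat_lit 26) (.e (nat_lit 532503) (nat_lit 1) (.e (nat_lit 57849) (nat_lit 252) .nil)))))) (.g (nat_lit 4) .nil .nil))) 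
(.lf (nat_lit 153047) (.g (nat_lit 2864) (.e (nat_lit 57406) (nat_lit 12) (.e (nat_lit 343808) (nat_lit 13) (.e (nat_lit 393301) (nat_lit 27) (.e (nat_lit 491559) (nat_lit 10) (.e (nat_lit 344090) (nat_lit 18) (.e (nat_lit 7265) (nat_lit 384) .nil)))))) (.g (nat_lit 4) .nil .nil)))) (.nd (nat_lit 6) 
(.lf (nat_lit 153015) (.g (nat_lit 2783) (.e (nat_lit 57406) (nat_lit 12) (.e (nat_lit 336211) (nat_lit 13) (.e (nat_lit 393234) (nat_lit 17) (.e (nat_lit 7591) (nat_lit 407) (.e (nat_lit 73729) (nat_lit 0) (.e (nat_lit 7261) (nat_lit 384) .nil)))))) (.g (nat_lit 4) .nil .nil))) 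
(.lf (nat_lit 153079) (.g (nat_lit 1455) (.e (nat_lit 57406) (nat_lit 12) (.e (nat_lit 336324) (nat_lit 18) (.e (nat_lit 204854) (nat_lit 26) (.e (nat_lit 336210) (nat_lit 13) .nil)))) .nil))))) (.nd (nat_lit 4) (.nd (nat_lit 5) (.nd (nat_lit 6) 
(.lf (nat_lit 152975) (.g (nat_lit 3126) (.e (nat_lit 57405) (nat_lit 12) (.e (nat_lit 336454) (nat_lit 34) (.e (nat_lit 483403) (nat_lit 26) (.e (nat_lit 385066) (nat_lit 26) (.e (nat_lit 532501) (nat_lit 1) (.e (nat_lit 57852) (nat_lit 252) .nil)))))) (.g (nat_lit 0) .nil .nil))) 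
(.lf (nat_lit 153039) (.g (nat_lit 3469) (.e (nat_lit 57406) (nat_lit 12) (.e (nat_lit 336211) (nat_lit 13) (.e (nat_lit 393301) (nat_lit 27) (.e (nat_lit 491560) (nat_lit 10) (.e (nat_lit 344095) (nat_lit 18) .nil))))) .nil))) (.nd (nat_lit 6) 
(.lf (nat_lit 153007) (.g (nat_lit 3259) (.e (nat_lit 57406) (nat_lit 12) (.e (nat_lit 336210) (nat_lit 13) (.e (nat_lit 393301) (nat_lit 27) (.e (nat_lit 491559) (nat_lit 10) (.e (nat_lit 344096) (nat_lit 18) .nil))))) .nil)) 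
(.lf (nat_lit 153071) (.g (nat_lit 2350) (.e (nat_lit 57406) (nat_lit 12) (.e (nat_lit 336320) (nat_lit 17) (.e (nat_lit 196674) (nat_lit 15) (.e (nat_lit 81925) (nat_lit 11) (.e (nat_lit 426098) (nat_lit 1) (.e (nat_lit 164179) (nat_lit 154) .nil)))))) (.g (nat_lit 4) .nil .nil))))) (.nd (nat_lit 5) (.nd (nat_lit 6) 
(.lf (nat_lit 152991) (.g (nat_lit 2750) (.e (nat_lit 57406) (nat_lit 12) (.e (nat_lit 336130) (nat_lit 9) (.e (nat_lit 335986) (nat_lit 1) (.e (nat_lit 57681) (nat_lit 155) (.e (nat_lit 122919) (nat_lit 15) (.e (nat_lit 360451) (nat_lit 0) (.e (nat_lit 7265) (nat_lit 384) .nil))))))) (.g (nat_lit 4) .nil .nil))) 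
(.lf (nat_lit 153055) (.g (nat_lit 2139) (.e (nat_lit 57406) (nat_lit 12) (.e (nat_lit 336316) (nat_lit 17) (.e (nat_lit 196666) (nat_lit 13) (.e (nat_lit 65617) (nat_lit 10) (.e (nat_lit 344088) (nat_lit 18) .nil))))) .nil))) (.nd (nat_lit 6) 
(.lf (nat_lit 153023) (.g (nat_lit 2586) (.e (nat_lit 57406) (nat_lit 12) (.e (nat_lit 336211) (nat_lit 13) (.e (nat_lit 393299) (nat_lit 27) (.e (nat_lit 491560) (nat_lit 10) (.e (nat_lit 344090) (nat_lit 18) (.e (nat_lit 7261) (nat_lit 384) .nil)))))) (.g (nat_lit 4) .nil .nil))) 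
(.lf (nat_lit 153087) (.g (nat_lit 2357) (.e (nat_lit 57406) (nat_lit 12) (.e (nat_lit 336324) (nat_lit 18) (.e (nat_lit 204866) (nat_lit 28) (.e (nat_lit 352273) (nat_lit 11) (.e (nat_lit 426107) (nat_lit 1) (.e (nat_lit 164179) (nat_lit 154) .nil)))))) (.g (nat_lit 4) .nil .nil))))))))))

noncomputable def tv2039 : DT := (.nd (nat_lit 0) (.nd (nat_lit 1) (.nd (nat_lit 2) (.nd (nat_lit 3) (.nd (nat_lit 4) (.nd (nat_lit 5) 
(.lf (nat_lit 153088) (.g (nat_lit 3064) (.e (nat_lit 57406) (nat_lit 12) (.e (nat_lit 336324) (nat_lit 18) (.e (nat_lit 204866) (nat_lit 28) (.e (nat_lit 352277) (nat_lit 11) (.e (nat_lit 426098) (nat_lit 1) (.e (nat_lit 164179) (nat_lit 154) .nil)))))) (.g (nat_lit 6) .nil .nil))) 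
(.lf (nat_lit 153120) (.g (nat_lit 1266) (.e (nat_lit 57406) (nat_lit 12) (.e (nat_lit 336326) (nat_lit 18) (.e (nat_lit 204868) (nat_lit 29) (.e (nat_lit 368384) (nat_lit 26) .nil)))) .nil))) (.nd (nat_lit 5) 
(.lf (nat_lit 153104) (.g (nat_lit 2862) (.e (nat_lit 57406) (nat_lit 12) (.e (nat_lit 336326) (nat_lit 18) (.e (nat_lit 204854) (nat_lit 26) (.e (nat_lit 336211) (nat_lit 13) (.e (nat_lit 393253) (nat_lit 18) (.e (nat_lit 164177) (nat_lit 154) .nil)))))) (.g (nat_lit 6) .nil .nil))) 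
(.lf (nat_lit 153136) (.g (nat_lit 3146) (.e (nat_lit 57406) (nat_lit 12) (.e (nat_lit 336326) (nat_lit 18) (.e (nat_lit 204869) (nat_lit 29) (.e (nat_lit 360450) (nat_lit 0) (.e (nat_lit 7936) (nat_lit 412) (.e (nat_lit 57368) (nat_lit 1) (.e (nat_lit 57852) (nat_lit 252) .nil))))))) (.g (nat_lit 4) .nil .nil))))) (.nd (nat_lit 4) (.nd (nat_lit 5) 
(.lf (nat_lit 153096) (.g (nat_lit 2992) (.e (nat_lit 57406) (nat_lit 12) (.e (nat_lit 336324) (nat_lit 18) (.e (nat_lit 204877) (nat_lit 31) (.e (nat_lit 376842) (nat_lit 11) (.e (nat_lit 426107) (nat_lit 1) (.e (nat_lit 164179) (nat_lit 154) .nil)))))) (.g (nat_lit 0) .nil .nil))) 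
(.lf (nat_lit 153128) (.g (nat_lit 3016) (.e (nat_lit 57406) (nat_lit 12) (.e (nat_lit 336326) (nat_lit 18) (.e (nat_lit 204869) (nat_lit 29) (.e (nat_lit 360450) (nat_lit 0) (.e (nat_lit 7261) (nat_lit 384) .nil))))) .nil))) (.nd (nat_lit 5) 
(.lf (nat_lit 153112) (.g (nat_lit 3133) (.e (nat_lit 57406) (nat_lit 12) (.e (nat_lit 336326) (nat_lit 18) (.e (nat_lit 204861) (nat_lit 26) (.e (nat_lit 336213) (nat_lit 13) (.e (nat_lit 393251) (nat_lit 18) (.e (nat_lit 164177) (nat_lit 154) .nil)))))) (.g (nat_lit 0) .nil .nil))) 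
(.lf (nat_lit 153144) (.g (nat_lit 2754) (.e (nat_lit 57406) (nat_lit 12) (.e (nat_lit 336326) (nat_lit 18) (.e (nat_lit 204869) (nat_lit 29) (.e (nat_lit 360453) (nat_lit 0) (.e (nat_lit 7936) (nat_lit 412) .nil))))) .nil))))) (.nd (nat_lit 3) (.nd (nat_lit 4) (.nd (nat_lit 5) 
(.lf (nat_lit 153092) (.g (nat_lit 2546) (.e (nat_lit 57406) (nat_lit 12) (.e (nat_lit 336324) (nat_lit 18) (.e (nat_lit 204876) (nat_lit 31) (.e (nat_lit 376842) (nat_lit 11) (.e (nat_lit 426106) (nat_lit 1) (.e (nat_lit 164179) (nat_lit 154) .nil)))))) (.g (nat_lit 0) .nil .nil))) 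
(.lf (nat_lit 153124) (.g (nat_lit 2314) (.e (nat_lit 57406) (nat_lit 12) (.e (nat_lit 336326) (nat_lit 18) (.e (nat_lit 204869) (nat_lit 29) (.e (nat_lit 360448) (nat_lit 0) (.e (nat_lit 7695) (nat_lit 412) .nil))))) .nil))) (.nd (nat_lit 5) 
(.lf (nat_lit 153108) (.g (nat_lit 2605) (.e (nat_lit 57406) (nat_lit 12) (.e (nat_lit 336326) (nat_lit 18) (.e (nat_lit 204855) (nat_lit 26) (.e (nat_lit 336226) (nat_lit 14) (.e (nat_lit 401472) (nat_lit 28) (.e (nat_lit 344094) (nat_lit 18) (.e (nat_lit 7265) (nat_lit 384) .nil))))))) (.g (nat_lit 4) .nil .nil))) 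
(.lf (nat_lit 153140) (.g (nat_lit 3978) (.e (nat_lit 57406) (nat_lit 12) (.e (nat_lit 336326) (nat_lit 18) (.e (nat_lit 204869) (nat_lit 29) (.e (nat_lit 360451) (nat_lit 0) (.e (nat_lit 7695) (nat_lit 412) (.e (nat_lit 57364) (nat_lit 1) (.e (nat_lit 57854) (nat_lit 252) .nil))))))) (.g (nat_lit 4) .nil .nil))))) (.nd (nat_lit 4) (.nd (nat_lit 5) 
(.lf (nat_lit 153100) (.g (nat_lit 2433) (.e (nat_lit 57406) (nat_lit 12) (.e (nat_lit 336326) (nat_lit 18) (.e (nat_lit 204854) (nat_lit 26) (.e (nat_lit 336019) (nat_lit 3) (.e (nat_lit 98342) (nat_lit 20) (.e (nat_lit 221207) (nat_lit 21) (.e (nat_lit 171776) (nat_lit 136) .nil))))))) (.g (nat_lit 5) .nil .nil))) 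
(.lf (nat_lit 153132) (.g (nat_lit 2996) (.e (nat_lit 57406) (nat_lit 12) (.e (nat_lit 336326) (nat_lit 18) (.e (nat_lit 204869) (nat_lit 29) (.e (nat_lit 360450) (nat_lit 0) (.e (nat_lit 7936) (nat_lit 412) .nil))))) .nil))) (.nd (nat_lit 5) 
(.lf (nat_lit 153116) (.g (nat_lit 435) (.e (nat_lit 57406) (nat_lit 12) (.e (nat_lit 336326) (nat_lit 18) (.e (nat_lit 204868) (nat_lit 29) .nil))) .nil)) 
(.lf (nat_lit 153148) (.g (nat_lit 2753) (.e (nat_lit 57406) (nat_lit 12) (.e (nat_lit 336326) (nat_lit 18) (.e (nat_lit 204869) (nat_lit 29) (.e (nat_lit 360457) (nat_lit 0) (.e (nat_lit 7936) (nat_lit 412) .nil))))) .nil)))))) (.nd (nat_lit 2) (.nd (nat_lit 3) (.nd (nat_lit 4) (.nd (nat_lit 5) 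
(.lf (nat_lit 153090) (.g (nat_lit 2361) (.e (nat_lit 57406) (nat_lit 12) (.e (nat_lit 336324) (nat_lit 18) (.e (nat_lit 204868) (nat_lit 29) (.e (nat_lit 360449) (nat_lit 0) (.e (nat_lit 7695) (nat_lit 412) .nil))))) .nil)) 
(.lf (nat_lit 153122) (.g (nat_lit 1701) (.e (nat_lit 57406) (nat_lit 12) (.e (nat_lit 336326) (nat_lit 18) (.e (nat_lit 204869) (nat_lit 29) (.e (nat_lit 360448) (nat_lit 0) .nil)))) .nil))) (.nd (nat_lit 5) 
(.lf (nat_lit 153106) (.g (nat_lit 1772) (.e (nat_lit 57406) (nat_lit 12) (.e (nat_lit 336326) (nat_lit 18) (.e (nat_lit 204854) (nat_lit 26) (.e (nat_lit 336211) (nat_lit 13) (.e (nat_lit 393254) (nat_lit 18) (.e (nat_lit 164178) (nat_lit 154) .nil)))))) (.g (nat_lit 4) .nil .nil))) 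
(.lf (nat_lit 153138) (.g (nat_lit 3244) (.e (nat_lit 57406) (nat_lit 12) (.e (nat_lit 336326) (nat_lit 18) (.e (nat_lit 204869) (nat_lit 29) (.e (nat_lit 360451) (nat_lit 0) (.e (nat_lit 7261) (nat_lit 384) .nil))))) .nil)))) (.nd (nat_lit 4) (.nd (nat_lit 5) 
(.lf (nat_lit 153098) (.g (nat_lit 1601) (.e (nat_lit 57406) (nat_lit 12) (.e (nat_lit 336326) (nat_lit 18) (.e (nat_lit 204849) (nat_lit 25) (.e (nat_lit 327698) (nat_lit 8) (.e (nat_lit 303154) (nat_lit 28) (.e (nat_lit 344094) (nat_lit 18) (.e (nat_lit 7265) (nat_lit 384) .nil))))))) (.g (nat_lit 4) .nil .nil))) 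
(.lf (nat_lit 153130) (.g (nat_lit 3700) (.e (nat_lit 57406) (nat_lit 12) (.e (nat_lit 336326) (nat_lit 18) (.e (nat_lit 204869) (nat_lit 29) (.e (nat_lit 360450) (nat_lit 0) (.e (nat_lit 7695) (nat_lit 412) (.e (nat_lit 57365) (nat_lit 1) (.e (nat_lit 57852) (nat_lit 252) .nil))))))) (.g (nat_lit 4) .nil .nil)))) (.nd (nat_lit 5) 
(.lf (nat_lit 153114) (.g (nat_lit 3591) (.e (nat_lit 57406) (nat_lit 12) (.e (nat_lit 336326) (nat_lit 18) (.e (nat_lit 204861) (nat_lit 26) (.e (nat_lit 336231) (nat_lit 14) (.e (nat_lit 401472) (nat_lit 28) (.e (nat_lit 344096) (nat_lit 18) (.e (nat_lit 7265) (nat_lit 384) .nil))))))) (.g (nat_lit 0) .nil .nil))) 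
(.lf (nat_lit 153146) (.g (nat_lit 2491) (.e (nat_lit 57406) (nat_lit 12) (.e (nat_lit 336326) (nat_lit 18) (.e (nat_lit 204869) (nat_lit 29) (.e (nat_lit 360456) (nat_lit 0) (.e (nat_lit 7936) (nat_lit 412) .nil))))) .nil))))) (.nd (nat_lit 3) (.nd (nat_lit 4) (.nd (nat_lit 5) 
(.lf (nat_lit 153094) (.g (nat_lit 2937) (.e (nat_lit 57406) (nat_lit 12) (.e (nat_lit 336324) (nat_lit 18) (.e (nat_lit 204877) (nat_lit 31) (.e (nat_lit 376842) (nat_lit 11) (.e (nat_lit 426098) (nat_lit 1) (.e (nat_lit 164179) (nat_lit 154) .nil)))))) (.g (nat_lit 0) .nil .nil))) 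
(.lf (nat_lit 153126) (.g (nat_lit 2817) (.e (nat_lit 57406) (nat_lit 12) (.e (nat_lit 336326) (nat_lit 18) (.e (nat_lit 204869) (nat_lit 29) (.e (nat_lit 360449) (nat_lit 0) (.e (nat_lit 7695) (nat_lit 412) .nil))))) .nil))) (.nd (nat_lit 5) 
(.lf (nat_lit 153110) (.g (nat_lit 2112) (.e (nat_lit 57406) (nat_lit 12) (.e (nat_lit 336326) (nat_lit 18) (.e (nat_lit 204858) (nat_lit 26) (.e (nat_lit 336217) (nat_lit 13) (.e (nat_lit 393251) (nat_lit 18) (.e (nat_lit 164177) (nat_lit 154) .nil)))))) (.g (nat_lit 0) .nil .nil))) 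
(.lf (nat_lit 153142) (.g (nat_lit 3581) (.e (nat_lit 57406) (nat_lit 12) (.e (nat_lit 336326) (nat_lit 18) (.e (nat_lit 204869) (nat_lit 29) (.e (nat_lit 360451) (nat_lit 0) (.e (nat_lit 7702) (nat_lit 413) .nil))))) .nil)))) (.nd (nat_lit 4) (.nd (nat_lit 5) 
(.lf (nat_lit 153102) (.g (nat_lit 2370) (.e (nat_lit 57406) (nat_lit 12) (.e (nat_lit 336326) (nat_lit 18) (.e (nat_lit 204854) (nat_lit 26) (.e (nat_lit 336211) (nat_lit 13) (.e (nat_lit 393252) (nat_lit 18) (.e (nat_lit 164176) (nat_lit 154) .nil)))))) (.g (nat_lit 4) .nil .nil))) 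
(.lf (nat_lit 153134) (.g (nat_lit 3341) (.e (nat_lit 57406) (nat_lit 12) (.e (nat_lit 336326) (nat_lit 18) (.e (nat_lit 204869) (nat_lit 29) (.e (nat_lit 360450) (nat_lit 0) (.e (nat_lit 7936) (nat_lit 412) (.e (nat_lit 57364) (nat_lit 1) (.e (nat_lit 57854) (nat_lit 252) .nil))))))) (.g (nat_lit 4) .nil .nil)))) (.nd (nat_lit 5) 
(.lf (nat_lit 153118) (.g (nat_lit 2036) (.e (nat_lit 57406) (nat_lit 12) (.e (nat_lit 336326) (nat_lit 18) (.e (nat_lit 204868) (nat_lit 29) (.e (nat_lit 360452) (nat_lit 0) (.e (nat_lit 7936) (nat_lit 412) .nil))))) .nil)) 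
(.lf (nat_lit 153150) (.g (nat_lit 3272) (.e (nat_lit 57406) (nat_lit 12) (.e (nat_lit 336326) (nat_lit 18) (.e (nat_lit 204869) (nat_lit 29) (.e (nat_lit 360457) (nat_lit 0) (.e (nat_lit 7936) (nat_lit 412) (.e (nat_lit 57368) (nat_lit 1) (.e (nat_lit 57854) (nat_lit 252) .nil))))))) (.g (nat_lit 4) .nil .nil)))))))) 
(.nd (nat_lit 1) (.nd (nat_lit 2) (.nd (nat_lit 3) (.nd (nat_lit 4) (.nd (nat_lit 5) 
(.lf (nat_lit 153089) (.g (nat_lit 799) (.e (nat_lit 57406) (nat_lit 12) (.e (nat_lit 336324) (nat_lit 18) (.e (nat_lit 204868) (nat_lit 29) .nil))) .nil)) 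
(.lf (nat_lit 153121) (.g (nat_lit 357) (.e (nat_lit 57406) (nat_lit 12) (.e (nat_lit 336326) (nat_lit 18) (.e (nat_lit 204869) (nat_lit 29) .nil))) .nil))) (.nd (nat_lit 5) 
(.lf (nat_lit 153105) (.g (nat_lit 2496) (.e (nat_lit 57406) (nat_lit 12) (.e (nat_lit 336326) (nat_lit 18) (.e (nat_lit 204854) (nat_lit 26) (.e (nat_lit 336211) (nat_lit 13) (.e (nat_lit 393254) (nat_lit 18) (.e (nat_lit 164177) (nat_lit 154) .nil)))))) (.g (nat_lit 6) .nil .nil))) 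
(.lf (nat_lit 153137) (.g (nat_lit 3628) (.e (nat_lit 57406) (nat_lit 12) (.e (nat_lit 336326) (nat_lit 18) (.e (nat_lit 204869) (nat_lit 29) (.e (nat_lit 360450) (nat_lit 0) (.e (nat_lit 7702) (nat_lit 413) .nil))))) .nil)))) (.nd (nat_lit 4) (.nd (nat_lit 5) 
(.lf (nat_lit 153097) (.g (nat_lit 2939) (.e (nat_lit 57406) (nat_lit 12) (.e (nat_lit 336325) (nat_lit 18) (.e (nat_lit 204861) (nat_lit 26) (.e (nat_lit 336213) (nat_lit 13) (.e (nat_lit 393251) (nat_lit 18) (.e (nat_lit 164179) (nat_lit 154) .nil)))))) (.g (nat_lit 5) .nil .nil))) 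
(.lf (nat_lit 153129) (.g (nat_lit 4202) (.e (nat_lit 57406) (nat_lit 12) (.e (nat_lit 336326) (nat_lit 18) (.e (nat_lit 204869) (nat_lit 29) (.e (nat_lit 360450) (nat_lit 0) (.e (nat_lit 7695) (nat_lit 412) (.e (nat_lit 57364) (nat_lit 1) (.e (nat_lit 57852) (nat_lit 252) .nil))))))) (.g (nat_lit 4) .nil .nil)))) (.nd (nat_lit 5) 
(.lf (nat_lit 153113) (.g (nat_lit 2050) (.e (nat_lit 57406) (nat_lit 12) (.e (nat_lit 336326) (nat_lit 18) (.e (nat_lit 204861) (nat_lit 26) (.e (nat_lit 336229) (nat_lit 14) (.e (nat_lit 401472) (nat_lit 28) (.e (nat_lit 344096) (nat_lit 18) (.e (nat_lit 7265) (nat_lit 384) .nil))))))) (.g (nat_lit 4) .nil .nil))) 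
(.lf (nat_lit 153145) (.g (nat_lit 1768) (.e (nat_lit 57406) (nat_lit 12) (.e (nat_lit 336326) (nat_lit 18) (.e (nat_lit 204869) (nat_lit 29) (.e (nat_lit 360455) (nat_lit 0) .nil)))) .nil))))) (.nd (nat_lit 3) (.nd (nat_lit 4) (.nd (nat_lit 5) 
(.lf (nat_lit 153093) (.g (nat_lit 2908) (.e (nat_lit 57406) (nat_lit 12) (.e (nat_lit 336324) (nat_lit 18) (.e (nat_lit 204876) (nat_lit 31) (.e (nat_lit 376842) (nat_lit 11) (.e (nat_lit 426107) (nat_lit 1) (.e (nat_lit 164179) (nat_lit 154) .nil)))))) (.g (nat_lit 0) .nil .nil))) 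
(.lf (nat_lit 153125) (.g (nat_lit 2313) (.e (nat_lit 57406) (nat_lit 12) (.e (nat_lit 336326) (nat_lit 18) (.e (nat_lit 204869) (nat_lit 29) (.e (nat_lit 360448) (nat_lit 0) (.e (nat_lit 7696) (nat_lit 412) .nil))))) .nil))) (.nd (nat_lit 5) 
(.lf (nat_lit 153109) (.g (nat_lit 3870) (.e (nat_lit 57406) (nat_lit 12) (.e (nat_lit 336326) (nat_lit 18) (.e (nat_lit 204855) (nat_lit 26) (.e (nat_lit 336226) (nat_lit 14) (.e (nat_lit 401472) (nat_lit 28) (.e (nat_lit 344096) (nat_lit 18) (.e (nat_lit 7265) (nat_lit 384) .nil))))))) (.g (nat_lit 0) .nil .nil))) 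
(.lf (nat_lit 153141) (.g (nat_lit 4340) (.e (nat_lit 57406) (nat_lit 12) (.e (nat_lit 336326) (nat_lit 18) (.e (nat_lit 204869) (nat_lit 29) (.e (nat_lit 360451) (nat_lit 0) (.e (nat_lit 7697) (nat_lit 412) (.e (nat_lit 57364) (nat_lit 1) (.e (nat_lit 57852) (nat_lit 252) .nil))))))) (.g (nat_lit 4) .nil .nil))))) (.nd (nat_lit 4) (.nd (nat_lit 5) 
(.lf (nat_lit 153101) (.g (nat_lit 2288) (.e (nat_lit 57406) (nat_lit 12) (.e (nat_lit 336326) (nat_lit 18) (.e (nat_lit 204854) (nat_lit 26) (.e (nat_lit 336019) (nat_lit 3) (.e (nat_lit 98342) (nat_lit 20) (.e (nat_lit 221208) (nat_lit 21) (.e (nat_lit 171776) (nat_lit 136) .nil))))))) (.g (nat_lit 5) .nil .nil))) 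
(.lf (nat_lit 153133) (.g (nat_lit 3472) (.e (nat_lit 57406) (nat_lit 12) (.e (nat_lit 336326) (nat_lit 18) (.e (nat_lit 204869) (nat_lit 29) (.e (nat_lit 360450) (nat_lit 0) (.e (nat_lit 7936) (nat_lit 412) (.e (nat_lit 57364) (nat_lit 1) (.e (nat_lit 57852) (nat_lit 252) .nil))))))) (.g (nat_lit 4) .nil .nil)))) (.nd (nat_lit 5) 
(.lf (nat_lit 153117) (.g (nat_lit 1998) (.e (nat_lit 57406) (nat_lit 12) (.e (nat_lit 336326) (nat_lit 18) (.e (nat_lit 204868) (nat_lit 29) (.e (nat_lit 360449) (nat_lit 0) (.e (nat_lit 7695) (nat_lit 412) .nil))))) .nil)) 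
(.lf (nat_lit 153149) (.g (nat_lit 2860) (.e (nat_lit 57406) (nat_lit 12) (.e (nat_lit 336326) (nat_lit 18) (.e (nat_lit 204869) (nat_lit 29) (.e (nat_lit 360457) (nat_lit 0) (.e (nat_lit 7936) (nat_lit 412) (.e (nat_lit 57364) (nat_lit 1) (.e (nat_lit 57851) (nat_lit 252) .nil))))))) (.g (nat_lit 4) .nil .nil))))))) (.nd (nat_lit 2) (.nd (nat_lit 3) (.nd (nat_lit 4) (.nd (nat_lit 5) 
(.lf (nat_lit 153091) (.g (nat_lit 2845) (.e (nat_lit 57406) (nat_lit 12) (.e (nat_lit 336324) (nat_lit 18) (.e (nat_lit 204876) (nat_lit 31) (.e (nat_lit 376842) (nat_lit 11) (.e (nat_lit 426098) (nat_lit 1) (.e (nat_lit 164179) (nat_lit 154) .nil)))))) (.g (nat_lit 0) .nil .nil))) 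
(.lf (nat_lit 153123) (.g (nat_lit 2313) (.e (nat_lit 57406) (nat_lit 12) (.e (nat_lit 336326) (nat_lit 18) (.e (nat_lit 204869) (nat_lit 29) (.e (nat_lit 360448) (nat_lit 0) (.e (nat_lit 7693) (nat_lit 412) .nil))))) .nil))) (.nd (nat_lit 5) 
(.lf (nat_lit 153107) (.g (nat_lit 2052) (.e (nat_lit 57406) (nat_lit 12) (.e (nat_lit 336326) (nat_lit 18) (.e (nat_lit 204854) (nat_lit 26) (.e (nat_lit 336236) (nat_lit 14) .nil)))) .nil)) 
(.lf (nat_lit 153139) (.g (nat_lit 4109) (.e (nat_lit 57406) (nat_lit 12) (.e (nat_lit 336326) (nat_lit 18) (.e (nat_lit 204869) (nat_lit 29) (.e (nat_lit 360451) (nat_lit 0) (.e (nat_lit 7695) (nat_lit 412) (.e (nat_lit 57364) (nat_lit 1) (.e (nat_lit 57852) (nat_lit 252) .nil))))))) (.g (nat_lit 4) .nil .nil))))) (.nd (nat_lit 4) (.nd (nat_lit 5) 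
(.lf (nat_lit 153099) (.g (nat_lit 1694) (.e (nat_lit 57406) (nat_lit 12) (.e (nat_lit 336326) (nat_lit 18) (.e (nat_lit 204850) (nat_lit 26) (.e (nat_lit 336224) (nat_lit 13) (.e (nat_lit 393251) (nat_lit 18) (.e (nat_lit 164177) (nat_lit 154) .nil)))))) (.g (nat_lit 4) .nil .nil))) 
(.lf (nat_lit 153131) (.g (nat_lit 4344) (.e (nat_lit 57406) (nat_lit 12) (.e (nat_lit 336326) (nat_lit 18) (.e (nat_lit 204869) (nat_lit 29) (.e (nat_lit 360450) (nat_lit 0) (.e (nat_lit 7697) (nat_lit 412) (.e (nat_lit 57364) (nat_lit 1) (.e (nat_lit 57852) (nat_lit 252) .nil))))))) (.g (nat_lit 4) .nil .nil)))) (.nd (nat_lit 5) 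
(.lf (nat_lit 153115) (.g (nat_lit 2611) (.e (nat_lit 57406) (nat_lit 12) (.e (nat_lit 336326) (nat_lit 18) (.e (nat_lit 204866) (nat_lit 28) (.e (nat_lit 352273) (nat_lit 11) (.e (nat_lit 426107) (nat_lit 1) (.e (nat_lit 164179) (nat_lit 154) .nil)))))) (.g (nat_lit 5) .nil .nil))) 
(.lf (nat_lit 153147) (.g (nat_lit 2635) (.e (nat_lit 57406) (nat_lit 12) (.e (nat_lit 336326) (nat_lit 18) (.e (nat_lit 204869) (nat_lit 29) (.e (nat_lit 360456) (nat_lit 0) (.e (nat_lit 7936) (nat_lit 412) (.e (nat_lit 57368) (nat_lit 1) (.e (nat_lit 57851) (nat_lit 252) .nil))))))) (.g (nat_lit 4) .nil .nil)))))) (.nd (nat_lit 3) (.nd (nat_lit 4) (.nd (nat_lit 5) 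
(.lf (nat_lit 153095) (.g (nat_lit 2612) (.e (nat_lit 57406) (nat_lit 12) (.e (nat_lit 336324) (nat_lit 18) (.e (nat_lit 204877) (nat_lit 31) (.e (nat_lit 376842) (nat_lit 11) (.e (nat_lit 426106) (nat_lit 1) (.e (nat_lit 164179) (nat_lit 154) .nil)))))) (.g (nat_lit 0) .nil .nil))) 
(.lf (nat_lit 153127) (.g (nat_lit 3167) (.e (nat_lit 57406) (nat_lit 12) (.e (nat_lit 336326) (nat_lit 18) (.e (nat_lit 204869) (nat_lit 29) (.e (nat_lit 360449) (nat_lit 0) (.e (nat_lit 7695) (nat_lit 412) (.e (nat_lit 57368) (nat_lit 1) (.e (nat_lit 57854) (nat_lit 252) .nil))))))) (.g (nat_lit 4) .nil .nil)))) (.nd (nat_lit 5) 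
(.lf (nat_lit 153111) (.g (nat_lit 2667) (.e (nat_lit 57406) (nat_lit 12) (.e (nat_lit 336326) (nat_lit 18) (.e (nat_lit 204859) (nat_lit 26) (.e (nat_lit 336209) (nat_lit 13) (.e (nat_lit 393251) (nat_lit 18) (.e (nat_lit 164177) (nat_lit 154) .nil)))))) (.g (nat_lit 0) .nil .nil))) 
(.lf (nat_lit 153143) (.g (nat_lit 4150) (.e (nat_lit 57406) (nat_lit 12) (.e (nat_lit 336326) (nat_lit 18) (.e (nat_lit 204869) (nat_lit 29) (.e (nat_lit 360451) (nat_lit 0) (.e (nat_lit 7702) (nat_lit 413) (.e (nat_lit 122889) (nat_lit 1) (.e (nat_lit 57854) (nat_lit 252) .nil))))))) (.g (nat_lit 4) .nil .nil))))) (.nd (nat_lit 4) (.nd (nat_lit 5) 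
(.lf (nat_lit 153103) (.g (nat_lit 2178) (.e (nat_lit 57406) (nat_lit 12) (.e (nat_lit 336326) (nat_lit 18) (.e (nat_lit 204854) (nat_lit 26) (.e (nat_lit 336211) (nat_lit 13) (.e (nat_lit 393253) (nat_lit 18) (.e (nat_lit 164176) (nat_lit 154) .nil)))))) (.g (nat_lit 4) .nil .nil))) 
(.lf (nat_lit 153135) (.g (nat_lit 3084) (.e (nat_lit 57406) (nat_lit 12) (.e (nat_lit 336326) (nat_lit 18) (.e (nat_lit 204869) (nat_lit 29) (.e (nat_lit 360450) (nat_lit 0) (.e (nat_lit 7936) (nat_lit 412) (.e (nat_lit 57365) (nat_lit 1) (.e (nat_lit 57854) (nat_lit 252) .nil))))))) (.g (nat_lit 4) .nil .nil)))) (.nd (nat_lit 5) 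
(.lf (nat_lit 153119) (.g (nat_lit 1742) (.e (nat_lit 57406) (nat_lit 12) (.e (nat_lit 336326) (nat_lit 18) (.e (nat_lit 204868) (nat_lit 29) (.e (nat_lit 360456) (nat_lit 0) (.e (nat_lit 7936) (nat_lit 412) .nil))))) .nil)) 
(.lf (nat_lit 153151) (.g (nat_lit 2531) (.e (nat_lit 57406) (nat_lit 12) (.e (nat_lit 336326) (nat_lit 18) (.e (nat_lit 204869) (nat_lit 29) (.e (nat_lit 360491) (nat_lit 22) (.e (nat_lit 778366) (nat_lit 9) .nil))))) .nil))))))))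

noncomputable def tv2040 : DT := (.nd (nat_lit 0) (.nd (nat_lit 1) (.nd (nat_lit 2) (.nd (nat_lit 3) (.nd (nat_lit 4) (.nd (nat_lit 5) 
(.lf (nat_lit 153152) (.g (nat_lit 1407) (.e (nat_lit 57406) (nat_lit 12) (.e (nat_lit 336326) (nat_lit 18) (.e (nat_lit 204869) (nat_lit 29) (.e (nat_lit 360493) (nat_lit 27) .nil)))) .nil)) 
(.lf (nat_lit 153184) (.g (nat_lit 2549) (.e (nat_lit 57406) (nat_lit 12) (.e (nat_lit 336366) (nat_lit 27) (.e (nat_lit 426499) (nat_lit 27) (.e (nat_lit 336196) (nat_lit 12) (.e (nat_lit 385068) (nat_lit 26) (.e (nat_lit 532504) (nat_lit 1) (.e (nat_lit 57854) (nat_lit 252) .nil))))))) (.g (nat_lit 4) .nil .nil)))) (.nd (nat_lit 5) 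
(.lf (nat_lit 153168) (.g (nat_lit 2938) (.e (nat_lit 57406) (nat_lit 12) (.e (nat_lit 336360) (nat_lit 25) (.e (nat_lit 409649) (nat_lit 18) (.e (nat_lit 303140) (nat_lit 10) (.e (nat_lit 434199) (nat_lit 18) (.e (nat_lit 6400) (nat_lit 339) (.e (nat_lit 57368) (nat_lit 1) (.e (nat_lit 57852) (nat_lit 252) .nil)))))))) (.g (nat_lit 4) .nil .nil))) 
(.lf (nat_lit 153200) (.g (nat_lit 1854) (.e (nat_lit 57406) (nat_lit 12) (.e (nat_lit 336367) (nat_lit 27) (.e (nat_lit 426542) (nat_lit 29) (.e (nat_lit 352315) (nat_lit 23) (.e (nat_lit 98333) (nat_lit 18) (.e (nat_lit 164178) (nat_lit 154) .nil)))))) (.g (nat_lit 4) .nil .nil))))) (.nd (nat_lit 4) (.nd (nat_lit 5) 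
(.lf (nat_lit 153160) (.g (nat_lit 3073) (.e (nat_lit 57406) (nat_lit 12) (.e (nat_lit 336326) (nat_lit 18) (.e (nat_lit 204877) (nat_lit 31) (.e (nat_lit 376842) (nat_lit 11) (.e (nat_lit 426098) (nat_lit 1) (.e (nat_lit 164179) (nat_lit 154) .nil)))))) (.g (nat_lit 0) .nil .nil))) 
(.lf (nat_lit 153192) (.g (nat_lit 2653) (.e (nat_lit 57406) (nat_lit 12) (.e (nat_lit 336367) (nat_lit 27) (.e (nat_lit 426542) (nat_lit 29) (.e (nat_lit 352313) (nat_lit 23) (.e (nat_lit 98333) (nat_lit 18) (.e (nat_lit 164177) (nat_lit 154) .nil)))))) (.g (nat_lit 0) .nil .nil)))) (.nd (nat_lit 5) 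
(.lf (nat_lit 153176) (.g (nat_lit 2530) (.e (nat_lit 57406) (nat_lit 12) (.e (nat_lit 336366) (nat_lit 27) (.e (nat_lit 426499) (nat_lit 27) (.e (nat_lit 336078) (nat_lit 9) (.e (nat_lit 336324) (nat_lit 18) (.e (nat_lit 204831) (nat_lit 18) (.e (nat_lit 57854) (nat_lit 252) .nil))))))) (.g (nat_lit 4) .nil .nil))) 
(.lf (nat_lit 153208) (.g (nat_lit 3111) (.e (nat_lit 57406) (nat_lit 12) (.e (nat_lit 336367) (nat_lit 27) (.e (nat_lit 426544) (nat_lit 30) (.e (nat_lit 360475) (nat_lit 8) (.e (nat_lit 557089) (nat_lit 12) (.e (nat_lit 163846) (nat_lit 0) (.e (nat_lit 5200) (nat_lit 294) .nil))))))) (.g (nat_lit 5) .nil .nil)))))) (.nd (nat_lit 3) (.nd (nat_lit 4) (.nd (nat_lit 5) 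
(.lf (nat_lit 153156) (.g (nat_lit 1557) (.e (nat_lit 57406) (nat_lit 12) (.e (nat_lit 336326) (nat_lit 18) (.e (nat_lit 204876) (nat_lit 31) (.e (nat_lit 376842) (nat_lit 11) (.e (nat_lit 426097) (nat_lit 1) .nil))))) .nil)) 
(.lf (nat_lit 153188) (.g (nat_lit 1281) (.e (nat_lit 57406) (nat_lit 12) (.e (nat_lit 336367) (nat_lit 27) (.e (nat_lit 426531) (nat_lit 27) (.e (nat_lit 336203) (nat_lit 12) (.e (nat_lit 385067) (nat_lit 26) (.e (nat_lit 532501) (nat_lit 1) (.e (nat_lit 57851) (nat_lit 252) .nil))))))) (.g (nat_lit 4) .nil .nil)))) (.nd (nat_lit 5) 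
(.lf (nat_lit 153172) (.g (nat_lit 3136) (.e (nat_lit 57406) (nat_lit 12) (.e (nat_lit 336360) (nat_lit 25) (.e (nat_lit 409649) (nat_lit 18) (.e (nat_lit 303140) (nat_lit 10) (.e (nat_lit 434211) (nat_lit 18) (.e (nat_lit 6400) (nat_lit 339) (.e (nat_lit 57368) (nat_lit 1) (.e (nat_lit 57854) (nat_lit 252) .nil)))))))) (.g (nat_lit 4) .nil .nil))) 
(.lf (nat_lit 153204) (.g (nat_lit 2382) (.e (nat_lit 57406) (nat_lit 12) (.e (nat_lit 336367) (nat_lit 27) (.e (nat_lit 426544) (nat_lit 30) (.e (nat_lit 360467) (nat_lit 3) (.e (nat_lit 516119) (nat_lit 1) (.e (nat_lit 164176) (nat_lit 154) .nil)))))) (.g (nat_lit 5) .nil .nil))))) (.nd (nat_lit 4) (.nd (nat_lit 5) 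
(.lf (nat_lit 153164) (.g (nat_lit 2568) (.e (nat_lit 57406) (nat_lit 12) (.e (nat_lit 336326) (nat_lit 18) (.e (nat_lit 204877) (nat_lit 31) (.e (nat_lit 376860) (nat_lit 21) (.e (nat_lit 57692) (nat_lit 156) (.e (nat_lit 171776) (nat_lit 62) (.e (nat_lit 57854) (nat_lit 252) .nil))))))) (.g (nat_lit 5) .nil .nil))) 
(.lf (nat_lit 153196) (.g (nat_lit 1547) (.e (nat_lit 57406) (nat_lit 12) (.e (nat_lit 336367) (nat_lit 27) (.e (nat_lit 426542) (nat_lit 29) (.e (nat_lit 352315) (nat_lit 23) (.e (nat_lit 98325) (nat_lit 17) (.e (nat_lit 2515) (nat_lit 157) (.e (nat_lit 7936) (nat_lit 339) .nil))))))) (.g (nat_lit 4) .nil .nil)))) (.nd (nat_lit 5) 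
(.lf (nat_lit 153180) (.g (nat_lit 2707) (.e (nat_lit 57406) (nat_lit 12) (.e (nat_lit 336366) (nat_lit 27) (.e (nat_lit 426499) (nat_lit 27) (.e (nat_lit 336196) (nat_lit 12) (.e (nat_lit 385067) (nat_lit 26) (.e (nat_lit 532504) (nat_lit 1) (.e (nat_lit 57851) (nat_lit 252) .nil))))))) (.g (nat_lit 4) .nil .nil))) 
(.lf (nat_lit 153212) (.g (nat_lit 2857) (.e (nat_lit 57406) (nat_lit 12) (.e (nat_lit 336367) (nat_lit 27) (.e (nat_lit 426546) (nat_lit 30) (.e (nat_lit 360466) (nat_lit 3) (.e (nat_lit 516119) (nat_lit 1) (.e (nat_lit 164176) (nat_lit 154) .nil)))))) (.g (nat_lit 0) .nil .nil))))))) (.nd (nat_lit 2) (.nd (nat_lit 3) (.nd (nat_lit 4) (.nd (nat_lit 5) 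
(.lf (nat_lit 153154) (.g (nat_lit 1488) (.e (nat_lit 57406) (nat_lit 12) (.e (nat_lit 336326) (nat_lit 18) (.e (nat_lit 204870) (nat_lit 29) (.e (nat_lit 360453) (nat_lit 0) (.e (nat_lit 7936) (nat_lit 412) .nil))))) .nil)) 
(.lf (nat_lit 153186) (.g (nat_lit 2568) (.e (nat_lit 57406) (nat_lit 12) (.e (nat_lit 336367) (nat_lit 27) (.e (nat_lit 426495) (nat_lit 27) (.e (nat_lit 336086) (nat_lit 9) (.e (nat_lit 336324) (nat_lit 18) (.e (nat_lit 204831) (nat_lit 18) (.e (nat_lit 57851) (nat_lit 252) .nil))))))) (.g (nat_lit 7) .nil .nil)))) (.nd (nat_lit 5) 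
(.lf (nat_lit 153170) (.g (nat_lit 3801) (.e (nat_lit 57406) (nat_lit 12) (.e (nat_lit 336360) (nat_lit 25) (.e (nat_lit 409649) (nat_lit 18) (.e (nat_lit 303140) (nat_lit 10) (.e (nat_lit 434209) (nat_lit 18) (.e (nat_lit 6391) (nat_lit 339) (.e (nat_lit 57368) (nat_lit 1) (.e (nat_lit 57854) (nat_lit 252) .nil)))))))) (.g (nat_lit 5) .nil .nil))) 
(.lf (nat_lit 153202) (.g (nat_lit 2371) (.e (nat_lit 57406) (nat_lit 12) (.e (nat_lit 336367) (nat_lit 27) (.e (nat_lit 426542) (nat_lit 29) (.e (nat_lit 352315) (nat_lit 23) (.e (nat_lit 98334) (nat_lit 18) (.e (nat_lit 164176) (nat_lit 154) .nil)))))) (.g (nat_lit 5) .nil .nil))))) (.nd (nat_lit 4) (.nd (nat_lit 5) 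
(.lf (nat_lit 153162) (.g (nat_lit 2677) (.e (nat_lit 57406) (nat_lit 12) (.e (nat_lit 336326) (nat_lit 18) (.e (nat_lit 204877) (nat_lit 31) (.e (nat_lit 376842) (nat_lit 11) (.e (nat_lit 426107) (nat_lit 1) (.e (nat_lit 164177) (nat_lit 154) .nil)))))) (.g (nat_lit 6) .nil .nil))) 
(.lf (nat_lit 153194) (.g (nat_lit 3023) (.e (nat_lit 57406) (nat_lit 12) (.e (nat_lit 336367) (nat_lit 27) (.e (nat_lit 426542) (nat_lit 29) (.e (nat_lit 352313) (nat_lit 23) (.e (nat_lit 98333) (nat_lit 18) (.e (nat_lit 164179) (nat_lit 154) .nil)))))) (.g (nat_lit 0) .nil .nil)))) (.nd (nat_lit 5) 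
(.lf (nat_lit 153178) (.g (nat_lit 2261) (.e (nat_lit 57406) (nat_lit 12) (.e (nat_lit 336366) (nat_lit 27) (.e (nat_lit 426499) (nat_lit 27) (.e (nat_lit 336196) (nat_lit 12) (.e (nat_lit 385066) (nat_lit 26) .nil))))) .nil)) 
(.lf (nat_lit 153210) (.g (nat_lit 307) (.e (nat_lit 57406) (nat_lit 12) (.e (nat_lit 336367) (nat_lit 27) (.e (nat_lit 426546) (nat_lit 30) (.e (nat_lit 368384) (nat_lit 1) .nil)))) .nil))))) (.nd (nat_lit 3) (.nd (nat_lit 4) (.nd (nat_lit 5) 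
(.lf (nat_lit 153158) (.g (nat_lit 2627) (.e (nat_lit 57406) (nat_lit 12) (.e (nat_lit 336326) (nat_lit 18) (.e (nat_lit 204876) (nat_lit 31) (.e (nat_lit 376842) (nat_lit 11) (.e (nat_lit 426107) (nat_lit 1) (.e (nat_lit 164177) (nat_lit 154) .nil)))))) (.g (nat_lit 6) .nil .nil))) 
(.lf (nat_lit 153190) (.g (nat_lit 100) (.e (nat_lit 57406) (nat_lit 12) (.e (nat_lit 336367) (nat_lit 27) (.e (nat_lit 426542) (nat_lit 29) .nil))) .nil))) (.nd (nat_lit 5) 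
(.lf (nat_lit 153174) (.g (nat_lit 2443) (.e (nat_lit 57406) (nat_lit 12) (.e (nat_lit 336366) (nat_lit 27) (.e (nat_lit 426499) (nat_lit 27) (.e (nat_lit 336078) (nat_lit 9) (.e (nat_lit 336324) (nat_lit 18) (.e (nat_lit 204830) (nat_lit 18) (.e (nat_lit 57852) (nat_lit 252) .nil))))))) (.g (nat_lit 4) .nil .nil))) 
(.lf (nat_lit 153206) (.g (nat_lit 2018) (.e (nat_lit 57406) (nat_lit 12) (.e (nat_lit 336367) (nat_lit 27) (.e (nat_lit 426544) (nat_lit 30) (.e (nat_lit 360473) (nat_lit 8) (.e (nat_lit 557089) (nat_lit 12) (.e (nat_lit 163846) (nat_lit 0) (.e (nat_lit 5200) (nat_lit 294) .nil))))))) (.g (nat_lit 4) .nil .nil))))) (.nd (nat_lit 4) (.nd (nat_lit 5) 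
(.lf (nat_lit 153166) (.g (nat_lit 2858) (.e (nat_lit 57406) (nat_lit 12) (.e (nat_lit 336360) (nat_lit 25) (.e (nat_lit 409649) (nat_lit 18) (.e (nat_lit 303140) (nat_lit 10) (.e (nat_lit 434199) (nat_lit 18) (.e (nat_lit 6398) (nat_lit 339) (.e (nat_lit 57368) (nat_lit 1) (.e (nat_lit 57854) (nat_lit 252) .nil)))))))) (.g (nat_lit 4) .nil .nil))) 
(.lf (nat_lit 153198) (.g (nat_lit 1552) (.e (nat_lit 57406) (nat_lit 12) (.e (nat_lit 336367) (nat_lit 27) (.e (nat_lit 426542) (nat_lit 29) (.e (nat_lit 352315) (nat_lit 23) (.e (nat_lit 98332) (nat_lit 18) (.e (nat_lit 164177) (nat_lit 154) .nil)))))) (.g (nat_lit 4) .nil .nil)))) (.nd (nat_lit 5) 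
(.lf (nat_lit 153182) (.g (nat_lit 2540) (.e (nat_lit 57406) (nat_lit 12) (.e (nat_lit 336366) (nat_lit 27) (.e (nat_lit 426499) (nat_lit 27) (.e (nat_lit 336196) (nat_lit 12) (.e (nat_lit 385068) (nat_lit 26) (.e (nat_lit 532501) (nat_lit 1) (.e (nat_lit 57854) (nat_lit 252) .nil))))))) (.g (nat_lit 4) .nil .nil))) 
(.lf (nat_lit 153214) (.g (nat_lit 2400) (.e (nat_lit 57406) (nat_lit 12) (.e (nat_lit 336367) (nat_lit 27) (.e (nat_lit 426546) (nat_lit 30) (.e (nat_lit 360473) (nat_lit 8) (.e (nat_lit 557089) (nat_lit 12) (.e (nat_lit 163846) (nat_lit 0) (.e (nat_lit 5206) (nat_lit 294) .nil))))))) (.g (nat_lit 5) .nil .nil)))))))) 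
(.nd (nat_lit 1) (.nd (nat_lit 2) (.nd (nat_lit 3) (.nd (nat_lit 4) (.nd (nat_lit 5) 
(.lf (nat_lit 153153) (.g (nat_lit 447) (.e (nat_lit 57406) (nat_lit 12) (.e (nat_lit 336326) (nat_lit 18) (.e (nat_lit 204870) (nat_lit 29) .nil))) .nil)) 
(.lf (nat_lit 153185) (.g (nat_lit 2059) (.e (nat_lit 57406) (nat_lit 12) (.e (nat_lit 336367) (nat_lit 27) (.e (nat_lit 426494) (nat_lit 27) (.e (nat_lit 336086) (nat_lit 9) (.e (nat_lit 336324) (nat_lit 18) (.e (nat_lit 204831) (nat_lit 18) (.e (nat_lit 57851) (nat_lit 252) .nil))))))) (.g (nat_lit 5) .nil .nil)))) (.nd (nat_lit 5) 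
(.lf (nat_lit 153169) (.g (nat_lit 2961) (.e (nat_lit 57406) (nat_lit 12) (.e (nat_lit 336360) (nat_lit 25) (.e (nat_lit 409649) (nat_lit 18) (.e (nat_lit 303140) (nat_lit 10) (.e (nat_lit 434205) (nat_lit 18) (.e (nat_lit 6402) (nat_lit 339) (.e (nat_lit 57368) (nat_lit 1) (.e (nat_lit 57854) (nat_lit 252) .nil)))))))) (.g (nat_lit 4) .nil .nil))) 
(.lf (nat_lit 153201) (.g (nat_lit 3212) (.e (nat_lit 57406) (nat_lit 12) (.e (nat_lit 336367) (nat_lit 27) (.e (nat_lit 426542) (nat_lit 29) (.e (nat_lit 352315) (nat_lit 23) (.e (nat_lit 98333) (nat_lit 18) (.e (nat_lit 164179) (nat_lit 154) .nil)))))) (.g (nat_lit 0) .nil .nil))))) (.nd (nat_lit 4) (.nd (nat_lit 5) 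
(.lf (nat_lit 153161) (.g (nat_lit 2185) (.e (nat_lit 57406) (nat_lit 12) (.e (nat_lit 336326) (nat_lit 18) (.e (nat_lit 204877) (nat_lit 31) (.e (nat_lit 376842) (nat_lit 11) (.e (nat_lit 426106) (nat_lit 1) (.e (nat_lit 164177) (nat_lit 154) .nil)))))) (.g (nat_lit 6) .nil .nil))) 
(.lf (nat_lit 153193) (.g (nat_lit 1651) (.e (nat_lit 57406) (nat_lit 12) (.e (nat_lit 336367) (nat_lit 27) (.e (nat_lit 426542) (nat_lit 29) (.e (nat_lit 352313) (nat_lit 23) (.e (nat_lit 98333) (nat_lit 18) (.e (nat_lit 164178) (nat_lit 154) .nil)))))) (.g (nat_lit 4) .nil .nil)))) (.nd (nat_lit 5) 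
(.lf (nat_lit 153177) (.g (nat_lit 2345) (.e (nat_lit 57406) (nat_lit 12) (.e (nat_lit 336366) (nat_lit 27) (.e (nat_lit 426499) (nat_lit 27) (.e (nat_lit 336196) (nat_lit 12) (.e (nat_lit 385064) (nat_lit 26) .nil))))) .nil)) 
(.lf (nat_lit 153209) (.g (nat_lit 3602) (.e (nat_lit 57406) (nat_lit 12) (.e (nat_lit 336367) (nat_lit 27) (.e (nat_lit 426544) (nat_lit 30) (.e (nat_lit 360475) (nat_lit 8) (.e (nat_lit 557089) (nat_lit 12) (.e (nat_lit 163846) (nat_lit 0) (.e (nat_lit 5206) (nat_lit 294) .nil))))))) (.g (nat_lit 5) .nil .nil)))))) (.nd (nat_lit 3) (.nd (nat_lit 4) (.nd (nat_lit 5) 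
(.lf (nat_lit 153157) (.g (nat_lit 2160) (.e (nat_lit 57406) (nat_lit 12) (.e (nat_lit 336326) (nat_lit 18) (.e (nat_lit 204876) (nat_lit 31) (.e (nat_lit 376842) (nat_lit 11) (.e (nat_lit 426106) (nat_lit 1) (.e (nat_lit 164177) (nat_lit 154) .nil)))))) (.g (nat_lit 6) .nil .nil))) 
(.lf (nat_lit 153189) (.g (nat_lit 1397) (.e (nat_lit 57406) (nat_lit 12) (.e (nat_lit 336367) (nat_lit 27) (.e (nat_lit 426531) (nat_lit 27) (.e (nat_lit 336203) (nat_lit 12) (.e (nat_lit 385067) (nat_lit 26) (.e (nat_lit 532504) (nat_lit 1) (.e (nat_lit 57851) (nat_lit 252) .nil))))))) (.g (nat_lit 4) .nil .nil)))) (.nd (nat_lit 5) 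
(.lf (nat_lit 153173) (.g (nat_lit 1632) (.e (nat_lit 57406) (nat_lit 12) (.e (nat_lit 336366) (nat_lit 27) (.e (nat_lit 426498) (nat_lit 27) (.e (nat_lit 336086) (nat_lit 9) (.e (nat_lit 336324) (nat_lit 18) (.e (nat_lit 204831) (nat_lit 18) (.e (nat_lit 57851) (nat_lit 252) .nil))))))) (.g (nat_lit 4) .nil .nil))) 
(.lf (nat_lit 153205) (.g (nat_lit 510) (.e (nat_lit 57406) (nat_lit 12) (.e (nat_lit 336367) (nat_lit 27) (.e (nat_lit 426544) (nat_lit 30) (.e (nat_lit 360470) (nat_lit 6) .nil)))) .nil)))) (.nd (nat_lit 4) (.nd (nat_lit 5) 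
(.lf (nat_lit 153165) (.g (nat_lit 3488) (.e (nat_lit 57406) (nat_lit 12) (.e (nat_lit 336360) (nat_lit 25) (.e (nat_lit 409649) (nat_lit 18) (.e (nat_lit 303132) (nat_lit 9) (.e (nat_lit 426109) (nat_lit 1) (.e (nat_lit 164177) (nat_lit 154) (.e (nat_lit 57368) (nat_lit 1) (.e (nat_lit 57854) (nat_lit 252) .nil)))))))) (.g (nat_lit 5) .nil .nil))) 
(.lf (nat_lit 153197) (.g (nat_lit 2562) (.e (nat_lit 57406) (nat_lit 12) (.e (nat_lit 336367) (nat_lit 27) (.e (nat_lit 426542) (nat_lit 29) (.e (nat_lit 352315) (nat_lit 23) (.e (nat_lit 98325) (nat_lit 17) (.e (nat_lit 7936) (nat_lit 157) (.e (nat_lit 6393) (nat_lit 339) .nil))))))) (.g (nat_lit 5) .nil .nil)))) (.nd (nat_lit 5) 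
(.lf (nat_lit 153181) (.g (nat_lit 2663) (.e (nat_lit 57406) (nat_lit 12) (.e (nat_lit 336366) (nat_lit 27) (.e (nat_lit 426499) (nat_lit 27) (.e (nat_lit 336196) (nat_lit 12) (.e (nat_lit 385068) (nat_lit 26) (.e (nat_lit 532501) (nat_lit 1) (.e (nat_lit 57851) (nat_lit 252) .nil))))))) (.g (nat_lit 4) .nil .nil))) 
(.lf (nat_lit 153213) (.g (nat_lit 1909) (.e (nat_lit 57406) (nat_lit 12) (.e (nat_lit 336367) (nat_lit 27) (.e (nat_lit 426546) (nat_lit 30) (.e (nat_lit 360473) (nat_lit 8) (.e (nat_lit 557089) (nat_lit 12) (.e (nat_lit 163846) (nat_lit 0) (.e (nat_lit 5200) (nat_lit 294) .nil))))))) (.g (nat_lit 4) .nil .nil))))))) (.nd (nat_lit 2) (.nd (nat_lit 3) (.nd (nat_lit 4) (.nd (nat_lit 5) 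
(.lf (nat_lit 153155) (.g (nat_lit 1316) (.e (nat_lit 57406) (nat_lit 12) (.e (nat_lit 336326) (nat_lit 18) (.e (nat_lit 204870) (nat_lit 29) (.e (nat_lit 360457) (nat_lit 0) (.e (nat_lit 7936) (nat_lit 412) .nil))))) .nil)) 
(.lf (nat_lit 153187) (.g (nat_lit 2011) (.e (nat_lit 57406) (nat_lit 12) (.e (nat_lit 336367) (nat_lit 27) (.e (nat_lit 426512) (nat_lit 27) (.e (nat_lit 336076) (nat_lit 9) (.e (nat_lit 336324) (nat_lit 18) (.e (nat_lit 204831) (nat_lit 18) (.e (nat_lit 57852) (nat_lit 252) .nil))))))) (.g (nat_lit 4) .nil .nil)))) (.nd (nat_lit 5) 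
(.lf (nat_lit 153171) (.g (nat_lit 2318) (.e (nat_lit 57406) (nat_lit 12) (.e (nat_lit 336360) (nat_lit 25) (.e (nat_lit 409649) (nat_lit 18) (.e (nat_lit 303140) (nat_lit 10) (.e (nat_lit 434211) (nat_lit 18) .nil))))) .nil)) 
(.lf (nat_lit 153203) (.g (nat_lit 3139) (.e (nat_lit 57406) (nat_lit 12) (.e (nat_lit 336367) (nat_lit 27) (.e (nat_lit 426544) (nat_lit 30) (.e (nat_lit 360467) (nat_lit 3) (.e (nat_lit 516115) (nat_lit 1) (.e (nat_lit 164177) (nat_lit 154) .nil)))))) (.g (nat_lit 0) .nil .nil))))) (.nd (nat_lit 4) (.nd (nat_lit 5) 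
(.lf (nat_lit 153163) (.g (nat_lit 3064) (.e (nat_lit 57406) (nat_lit 12) (.e (nat_lit 336326) (nat_lit 18) (.e (nat_lit 204877) (nat_lit 31) (.e (nat_lit 376842) (nat_lit 11) (.e (nat_lit 426107) (nat_lit 1) (.e (nat_lit 164178) (nat_lit 154) .nil)))))) (.g (nat_lit 6) .nil .nil))) 
(.lf (nat_lit 153195) (.g (nat_lit 2627) (.e (nat_lit 57406) (nat_lit 12) (.e (nat_lit 336367) (nat_lit 27) (.e (nat_lit 426542) (nat_lit 29) (.e (nat_lit 352315) (nat_lit 23) (.e (nat_lit 98325) (nat_lit 17) (.e (nat_lit 2478) (nat_lit 157) (.e (nat_lit 6391) (nat_lit 339) .nil))))))) (.g (nat_lit 5) .nil .nil)))) (.nd (nat_lit 5) 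
(.lf (nat_lit 153179) (.g (nat_lit 2571) (.e (nat_lit 57406) (nat_lit 12) (.e (nat_lit 336366) (nat_lit 27) (.e (nat_lit 426499) (nat_lit 27) (.e (nat_lit 336196) (nat_lit 12) (.e (nat_lit 385067) (nat_lit 26) (.e (nat_lit 532501) (nat_lit 1) (.e (nat_lit 57851) (nat_lit 252) .nil))))))) (.g (nat_lit 4) .nil .nil))) 
(.lf (nat_lit 153211) (.g (nat_lit 2434) (.e (nat_lit 57406) (nat_lit 12) (.e (nat_lit 336367) (nat_lit 27) (.e (nat_lit 426546) (nat_lit 30) (.e (nat_lit 360466) (nat_lit 3) (.e (nat_lit 516117) (nat_lit 1) (.e (nat_lit 164176) (nat_lit 154) .nil)))))) (.g (nat_lit 0) .nil .nil)))))) (.nd (nat_lit 3) (.nd (nat_lit 4) (.nd (nat_lit 5) 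
(.lf (nat_lit 153159) (.g (nat_lit 3025) (.e (nat_lit 57406) (nat_lit 12) (.e (nat_lit 336326) (nat_lit 18) (.e (nat_lit 204876) (nat_lit 31) (.e (nat_lit 376842) (nat_lit 11) (.e (nat_lit 426107) (nat_lit 1) (.e (nat_lit 164178) (nat_lit 154) .nil)))))) (.g (nat_lit 6) .nil .nil))) 
(.lf (nat_lit 153191) (.g (nat_lit 827) (.e (nat_lit 57406) (nat_lit 12) (.e (nat_lit 336367) (nat_lit 27) (.e (nat_lit 426542) (nat_lit 29) (.e (nat_lit 352282) (nat_lit 20) .nil)))) .nil))) (.nd (nat_lit 5) 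
(.lf (nat_lit 153175) (.g (nat_lit 2706) (.e (nat_lit 57406) (nat_lit 12) (.e (nat_lit 336366) (nat_lit 27) (.e (nat_lit 426499) (nat_lit 27) (.e (nat_lit 336078) (nat_lit 9) (.e (nat_lit 336324) (nat_lit 18) (.e (nat_lit 204831) (nat_lit 18) (.e (nat_lit 57852) (nat_lit 252) .nil))))))) (.g (nat_lit 4) .nil .nil))) 
(.lf (nat_lit 153207) (.g (nat_lit 2509) (.e (nat_lit 57406) (nat_lit 12) (.e (nat_lit 336367) (nat_lit 27) (.e (nat_lit 426544) (nat_lit 30) (.e (nat_lit 360473) (nat_lit 8) (.e (nat_lit 557089) (nat_lit 12) (.e (nat_lit 163846) (nat_lit 0) (.e (nat_lit 5206) (nat_lit 294) .nil))))))) (.g (nat_lit 5) .nil .nil))))) (.nd (nat_lit 4) (.nd (nat_lit 5) 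
(.lf (nat_lit 153167) (.g (nat_lit 2475) (.e (nat_lit 57406) (nat_lit 12) (.e (nat_lit 336360) (nat_lit 25) (.e (nat_lit 409649) (nat_lit 18) (.e (nat_lit 303140) (nat_lit 10) (.e (nat_lit 434199) (nat_lit 18) (.e (nat_lit 6400) (nat_lit 339) (.e (nat_lit 57368) (nat_lit 1) (.e (nat_lit 57851) (nat_lit 252) .nil)))))))) (.g (nat_lit 4) .nil .nil))) 
(.lf (nat_lit 153199) (.g (nat_lit 2851) (.e (nat_lit 57406) (nat_lit 12) (.e (nat_lit 336367) (nat_lit 27) (.e (nat_lit 426542) (nat_lit 29) (.e (nat_lit 352315) (nat_lit 23) (.e (nat_lit 98333) (nat_lit 18) (.e (nat_lit 164177) (nat_lit 154) .nil)))))) (.g (nat_lit 0) .nil .nil)))) (.nd (nat_lit 5) 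
(.lf (nat_lit 153183) (.g (nat_lit 2400) (.e (nat_lit 57406) (nat_lit 12) (.e (nat_lit 336366) (nat_lit 27) (.e (nat_lit 426499) (nat_lit 27) (.e (nat_lit 336196) (nat_lit 12) (.e (nat_lit 385068) (nat_lit 26) (.e (nat_lit 532504) (nat_lit 1) (.e (nat_lit 57851) (nat_lit 252) .nil))))))) (.g (nat_lit 4) .nil .nil))) 
(.lf (nat_lit 153215) (.g (nat_lit 2738) (.e (nat_lit 57406) (nat_lit 12) (.e (nat_lit 336367) (nat_lit 27) (.e (nat_lit 426555) (nat_lit 32) (.e (nat_lit 376867) (nat_lit 23) (.e (nat_lit 98333) (nat_lit 18) (.e (nat_lit 164177) (nat_lit 154) .nil)))))) (.g (nat_lit 0) .nil .nil)))))))))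

noncomputable def tv2041 : DT := (.nd (nat_lit 0) (.nd (nat_lit 1) (.nd (nat_lit 2) (.nd (nat_lit 3) (.nd (nat_lit 4) (.nd (nat_lit 5) 
(.lf (nat_lit 153216) (.g (nat_lit 3086) (.e (nat_lit 57406) (nat_lit 12) (.e (nat_lit 336367) (nat_lit 27) (.e (nat_lit 426555) (nat_lit 32) (.e (nat_lit 376867) (nat_lit 23) (.e (nat_lit 98333) (nat_lit 18) (.e (nat_lit 164179) (nat_lit 154) .nil)))))) (.g (nat_lit 0) .nil .nil))) 
(.lf (nat_lit 153248) (.g (nat_lit 3494) (.e (nat_lit 57406) (nat_lit 12) (.e (nat_lit 336432) (nat_lit 30) (.e (nat_lit 450580) (nat_lit 5) (.e (nat_lit 532579) (nat_lit 26) (.e (nat_lit 426107) (nat_lit 1) (.e (nat_lit 164402) (nat_lit 256) .nil)))))) (.g (nat_lit 5) .nil .nil)))) (.nd (nat_lit 5) 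
(.lf (nat_lit 153232) (.g (nat_lit 2875) (.e (nat_lit 57406) (nat_lit 12) (.e (nat_lit 336370) (nat_lit 27) (.e (nat_lit 426499) (nat_lit 27) (.e (nat_lit 336196) (nat_lit 12) (.e (nat_lit 385068) (nat_lit 26) (.e (nat_lit 532504) (nat_lit 1) (.e (nat_lit 57854) (nat_lit 252) .nil))))))) (.g (nat_lit 5) .nil .nil))) 
(.lf (nat_lit 153264) (.g (nat_lit 3206) (.e (nat_lit 57406) (nat_lit 12) (.e (nat_lit 336443) (nat_lit 32) (.e (nat_lit 466974) (nat_lit 22) (.e (nat_lit 196656) (nat_lit 11) (.e (nat_lit 16392) (nat_lit 0) (.e (nat_lit 2484) (nat_lit 157) (.e (nat_lit 5947) (nat_lit 322) .nil))))))) (.g (nat_lit 5) .nil .nil))))) (.nd (nat_lit 4) (.nd (nat_lit 5) 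
(.lf (nat_lit 153224) (.g (nat_lit 2091) (.e (nat_lit 57406) (nat_lit 12) (.e (nat_lit 336370) (nat_lit 27) (.e (nat_lit 426499) (nat_lit 27) (.e (nat_lit 336078) (nat_lit 9) (.e (nat_lit 336324) (nat_lit 18) (.e (nat_lit 204831) (nat_lit 18) (.e (nat_lit 57851) (nat_lit 252) .nil))))))) (.g (nat_lit 4) .nil .nil))) 
(.lf (nat_lit 153256) (.g (nat_lit 2044) (.e (nat_lit 57406) (nat_lit 12) (.e (nat_lit 336443) (nat_lit 32) (.e (nat_lit 466974) (nat_lit 22) (.e (nat_lit 196624) (nat_lit 9) (.e (nat_lit 442) (nat_lit 33) .nil))))) .nil))) (.nd (nat_lit 5) 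
(.lf (nat_lit 153240) (.g (nat_lit 2572) (.e (nat_lit 57406) (nat_lit 12) (.e (nat_lit 336426) (nat_lit 29) (.e (nat_lit 442427) (nat_lit 23) (.e (nat_lit 204809) (nat_lit 9) (.e (nat_lit 426108) (nat_lit 1) (.e (nat_lit 164403) (nat_lit 256) .nil)))))) (.g (nat_lit 5) .nil .nil))) 
(.lf (nat_lit 153272) (.g (nat_lit 1832) (.e (nat_lit 57406) (nat_lit 12) (.e (nat_lit 336443) (nat_lit 32) (.e (nat_lit 466977) (nat_lit 22) (.e (nat_lit 196654) (nat_lit 11) (.e (nat_lit 16386) (nat_lit 0) .nil))))) .nil))))) (.nd (nat_lit 3) (.nd (nat_lit 4) (.nd (nat_lit 5) 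
(.lf (nat_lit 153220) (.g (nat_lit 2926) (.e (nat_lit 57406) (nat_lit 12) (.e (nat_lit 336369) (nat_lit 27) (.e (nat_lit 426499) (nat_lit 27) (.e (nat_lit 336196) (nat_lit 12) (.e (nat_lit 385066) (nat_lit 26) .nil))))) .nil)) 
(.lf (nat_lit 153252) (.g (nat_lit 2577) (.e (nat_lit 57406) (nat_lit 12) (.e (nat_lit 336432) (nat_lit 30) (.e (nat_lit 450580) (nat_lit 5) (.e (nat_lit 532583) (nat_lit 26) (.e (nat_lit 426108) (nat_lit 1) (.e (nat_lit 164403) (nat_lit 256) .nil)))))) (.g (nat_lit 4) .nil .nil)))) (.nd (nat_lit 5) 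
(.lf (nat_lit 153236) (.g (nat_lit 1080) (.e (nat_lit 57406) (nat_lit 12) (.e (nat_lit 336414) (nat_lit 27) (.e (nat_lit 426503) (nat_lit 27) (.e (nat_lit 336196) (nat_lit 12) .nil)))) .nil)) 
(.lf (nat_lit 153268) (.g (nat_lit 1990) (.e (nat_lit 57406) (nat_lit 12) (.e (nat_lit 336443) (nat_lit 32) (.e (nat_lit 466977) (nat_lit 22) (.e (nat_lit 196624) (nat_lit 9) (.e (nat_lit 442) (nat_lit 33) .nil))))) .nil)))) (.nd (nat_lit 4) (.nd (nat_lit 5) 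
(.lf (nat_lit 153228) (.g (nat_lit 2341) (.e (nat_lit 57406) (nat_lit 12) (.e (nat_lit 336370) (nat_lit 27) (.e (nat_lit 426499) (nat_lit 27) (.e (nat_lit 336196) (nat_lit 12) (.e (nat_lit 385066) (nat_lit 26) (.e (nat_lit 532499) (nat_lit 1) (.e (nat_lit 57854) (nat_lit 252) .nil))))))) (.g (nat_lit 4) .nil .nil))) 
(.lf (nat_lit 153260) (.g (nat_lit 1742) (.e (nat_lit 57406) (nat_lit 12) (.e (nat_lit 336443) (nat_lit 32) (.e (nat_lit 466974) (nat_lit 22) (.e (nat_lit 196654) (nat_lit 11) (.e (nat_lit 16388) (nat_lit 0) .nil))))) .nil))) (.nd (nat_lit 5) 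
(.lf (nat_lit 153244) (.g (nat_lit 4017) (.e (nat_lit 57406) (nat_lit 12) (.e (nat_lit 336432) (nat_lit 30) (.e (nat_lit 450580) (nat_lit 5) (.e (nat_lit 532579) (nat_lit 26) (.e (nat_lit 426098) (nat_lit 1) (.e (nat_lit 164398) (nat_lit 256) .nil)))))) (.g (nat_lit 0) .nil .nil))) 
(.lf (nat_lit 153276) (.g (nat_lit 2101) (.e (nat_lit 57406) (nat_lit 12) (.e (nat_lit 336443) (nat_lit 32) (.e (nat_lit 466977) (nat_lit 22) (.e (nat_lit 196656) (nat_lit 11) (.e (nat_lit 16388) (nat_lit 0) .nil))))) .nil)))))) (.nd (nat_lit 2) (.nd (nat_lit 3) (.nd (nat_lit 4) (.nd (nat_lit 5) 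
(.lf (nat_lit 153218) (.g (nat_lit 1264) (.e (nat_lit 57406) (nat_lit 12) (.e (nat_lit 336369) (nat_lit 27) (.e (nat_lit 426497) (nat_lit 27) (.e (nat_lit 336203) (nat_lit 12) .nil)))) .nil)) 
(.lf (nat_lit 153250) (.g (nat_lit 2620) (.e (nat_lit 57406) (nat_lit 12) (.e (nat_lit 336432) (nat_lit 30) (.e (nat_lit 450580) (nat_lit 5) (.e (nat_lit 532583) (nat_lit 26) (.e (nat_lit 426100) (nat_lit 1) (.e (nat_lit 164398) (nat_lit 256) .nil)))))) (.g (nat_lit 4) .nil .nil)))) (.nd (nat_lit 5) 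
(.lf (nat_lit 153234) (.g (nat_lit 2196) (.e (nat_lit 57406) (nat_lit 12) (.e (nat_lit 336372) (nat_lit 27) (.e (nat_lit 426524) (nat_lit 27) (.e (nat_lit 336203) (nat_lit 12) (.e (nat_lit 385067) (nat_lit 26) (.e (nat_lit 532501) (nat_lit 1) (.e (nat_lit 57851) (nat_lit 252) .nil))))))) (.g (nat_lit 5) .nil .nil))) 
(.lf (nat_lit 153266) (.g (nat_lit 598) (.e (nat_lit 57406) (nat_lit 12) (.e (nat_lit 336443) (nat_lit 32) (.e (nat_lit 466976) (nat_lit 22) .nil))) .nil)))) (.nd (nat_lit 4) (.nd (nat_lit 5) 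
(.lf (nat_lit 153226) (.g (nat_lit 2671) (.e (nat_lit 57406) (nat_lit 12) (.e (nat_lit 336370) (nat_lit 27) (.e (nat_lit 426499) (nat_lit 27) (.e (nat_lit 336196) (nat_lit 12) (.e (nat_lit 385064) (nat_lit 26) (.e (nat_lit 532500) (nat_lit 1) (.e (nat_lit 57851) (nat_lit 252) .nil))))))) (.g (nat_lit 4) .nil .nil))) 
(.lf (nat_lit 153258) (.g (nat_lit 1061) (.e (nat_lit 57406) (nat_lit 12) (.e (nat_lit 336443) (nat_lit 32) (.e (nat_lit 466974) (nat_lit 22) (.e (nat_lit 196654) (nat_lit 11) .nil)))) .nil))) (.nd (nat_lit 5) 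
(.lf (nat_lit 153242) (.g (nat_lit 2406) (.e (nat_lit 57406) (nat_lit 12) (.e (nat_lit 336426) (nat_lit 29) (.e (nat_lit 442427) (nat_lit 23) (.e (nat_lit 204813) (nat_lit 9) (.e (nat_lit 426108) (nat_lit 1) (.e (nat_lit 164403) (nat_lit 256) .nil)))))) (.g (nat_lit 4) .nil .nil))) 
(.lf (nat_lit 153274) (.g (nat_lit 1393) (.e (nat_lit 57406) (nat_lit 12) (.e (nat_lit 336443) (nat_lit 32) (.e (nat_lit 466977) (nat_lit 22) (.e (nat_lit 196655) (nat_lit 11) .nil)))) .nil))))) (.nd (nat_lit 3) (.nd (nat_lit 4) (.nd (nat_lit 5) 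
(.lf (nat_lit 153222) (.g (nat_lit 3254) (.e (nat_lit 57406) (nat_lit 12) (.e (nat_lit 336369) (nat_lit 27) (.e (nat_lit 426499) (nat_lit 27) (.e (nat_lit 336196) (nat_lit 12) (.e (nat_lit 385068) (nat_lit 26) (.e (nat_lit 532504) (nat_lit 1) (.e (nat_lit 57852) (nat_lit 252) .nil))))))) (.g (nat_lit 4) .nil .nil))) 
(.lf (nat_lit 153254) (.g (nat_lit 3247) (.e (nat_lit 57406) (nat_lit 12) (.e (nat_lit 336434) (nat_lit 30) (.e (nat_lit 450579) (nat_lit 5) (.e (nat_lit 532579) (nat_lit 26) (.e (nat_lit 426108) (nat_lit 1) (.e (nat_lit 164403) (nat_lit 256) .nil)))))) (.g (nat_lit 0) .nil .nil)))) (.nd (nat_lit 5) 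
(.lf (nat_lit 153238) (.g (nat_lit 2447) (.e (nat_lit 57406) (nat_lit 12) (.e (nat_lit 336426) (nat_lit 29) (.e (nat_lit 442427) (nat_lit 23) (.e (nat_lit 204808) (nat_lit 9) (.e (nat_lit 426108) (nat_lit 1) (.e (nat_lit 164403) (nat_lit 256) .nil)))))) (.g (nat_lit 5) .nil .nil))) 
(.lf (nat_lit 153270) (.g (nat_lit 1415) (.e (nat_lit 57406) (nat_lit 12) (.e (nat_lit 336443) (nat_lit 32) (.e (nat_lit 466977) (nat_lit 22) (.e (nat_lit 196653) (nat_lit 11) .nil)))) .nil)))) (.nd (nat_lit 4) (.nd (nat_lit 5) 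
(.lf (nat_lit 153230) (.g (nat_lit 2335) (.e (nat_lit 57406) (nat_lit 12) (.e (nat_lit 336370) (nat_lit 27) (.e (nat_lit 426499) (nat_lit 27) (.e (nat_lit 336196) (nat_lit 12) (.e (nat_lit 385066) (nat_lit 26) (.e (nat_lit 532504) (nat_lit 1) (.e (nat_lit 57854) (nat_lit 252) .nil))))))) (.g (nat_lit 4) .nil .nil))) 
(.lf (nat_lit 153262) (.g (nat_lit 2351) (.e (nat_lit 57406) (nat_lit 12) (.e (nat_lit 336443) (nat_lit 32) (.e (nat_lit 466974) (nat_lit 22) (.e (nat_lit 196656) (nat_lit 11) (.e (nat_lit 16388) (nat_lit 0) .nil))))) .nil))) (.nd (nat_lit 5) 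
(.lf (nat_lit 153246) (.g (nat_lit 4018) (.e (nat_lit 57406) (nat_lit 12) (.e (nat_lit 336432) (nat_lit 30) (.e (nat_lit 450580) (nat_lit 5) (.e (nat_lit 532579) (nat_lit 26) (.e (nat_lit 426100) (nat_lit 1) (.e (nat_lit 164398) (nat_lit 256) .nil)))))) (.g (nat_lit 0) .nil .nil))) 
(.lf (nat_lit 153278) (.g (nat_lit 3520) (.e (nat_lit 57406) (nat_lit 12) (.e (nat_lit 336443) (nat_lit 32) (.e (nat_lit 466977) (nat_lit 22) (.e (nat_lit 196656) (nat_lit 11) (.e (nat_lit 16392) (nat_lit 0) (.e (nat_lit 2484) (nat_lit 157) (.e (nat_lit 5947) (nat_lit 322) .nil))))))) (.g (nat_lit 5) .nil .nil)))))))) 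
(.nd (nat_lit 1) (.nd (nat_lit 2) (.nd (nat_lit 3) (.nd (nat_lit 4) (.nd (nat_lit 5) 
(.lf (nat_lit 153217) (.g (nat_lit 2231) (.e (nat_lit 57406) (nat_lit 12) (.e (nat_lit 336368) (nat_lit 27) (.e (nat_lit 426499) (nat_lit 27) (.e (nat_lit 336196) (nat_lit 12) (.e (nat_lit 385066) (nat_lit 26) .nil))))) .nil)) 
(.lf (nat_lit 153249) (.g (nat_lit 2583) (.e (nat_lit 57406) (nat_lit 12) (.e (nat_lit 336432) (nat_lit 30) (.e (nat_lit 450580) (nat_lit 5) (.e (nat_lit 532579) (nat_lit 26) (.e (nat_lit 426108) (nat_lit 1) (.e (nat_lit 164401) (nat_lit 256) .nil)))))) (.g (nat_lit 4) .nil .nil)))) (.nd (nat_lit 5) 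
(.lf (nat_lit 153233) (.g (nat_lit 1868) (.e (nat_lit 57406) (nat_lit 12) (.e (nat_lit 336372) (nat_lit 27) (.e (nat_lit 426524) (nat_lit 27) (.e (nat_lit 336086) (nat_lit 9) (.e (nat_lit 336324) (nat_lit 18) (.e (nat_lit 204831) (nat_lit 18) (.e (nat_lit 57851) (nat_lit 252) .nil))))))) (.g (nat_lit 4) .nil .nil))) 
(.lf (nat_lit 153265) (.g (nat_lit 2565) (.e (nat_lit 57406) (nat_lit 12) (.e (nat_lit 336443) (nat_lit 32) (.e (nat_lit 466974) (nat_lit 22) (.e (nat_lit 196656) (nat_lit 11) (.e (nat_lit 16396) (nat_lit 0) (.e (nat_lit 2515) (nat_lit 157) (.e (nat_lit 5948) (nat_lit 322) .nil))))))) (.g (nat_lit 4) .nil .nil))))) (.nd (nat_lit 4) (.nd (nat_lit 5) 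
(.lf (nat_lit 153225) (.g (nat_lit 2230) (.e (nat_lit 57406) (nat_lit 12) (.e (nat_lit 336370) (nat_lit 27) (.e (nat_lit 426499) (nat_lit 27) (.e (nat_lit 336196) (nat_lit 12) (.e (nat_lit 385064) (nat_lit 26) .nil))))) .nil)) 
(.lf (nat_lit 153257) (.g (nat_lit 1391) (.e (nat_lit 57406) (nat_lit 12) (.e (nat_lit 336443) (nat_lit 32) (.e (nat_lit 466974) (nat_lit 22) (.e (nat_lit 196653) (nat_lit 11) .nil)))) .nil))) (.nd (nat_lit 5) 
(.lf (nat_lit 153241) (.g (nat_lit 2357) (.e (nat_lit 57406) (nat_lit 12) (.e (nat_lit 336426) (nat_lit 29) (.e (nat_lit 442427) (nat_lit 23) (.e (nat_lit 204813) (nat_lit 9) (.e (nat_lit 426107) (nat_lit 1) (.e (nat_lit 164403) (nat_lit 256) .nil)))))) (.g (nat_lit 4) .nil .nil))) 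
(.lf (nat_lit 153273) (.g (nat_lit 1845) (.e (nat_lit 57406) (nat_lit 12) (.e (nat_lit 336443) (nat_lit 32) (.e (nat_lit 466977) (nat_lit 22) (.e (nat_lit 196654) (nat_lit 11) (.e (nat_lit 16388) (nat_lit 0) .nil))))) .nil))))) (.nd (nat_lit 3) (.nd (nat_lit 4) (.nd (nat_lit 5) 
(.lf (nat_lit 153221) (.g (nat_lit 2913) (.e (nat_lit 57406) (nat_lit 12) (.e (nat_lit 336369) (nat_lit 27) (.e (nat_lit 426499) (nat_lit 27) (.e (nat_lit 336196) (nat_lit 12) (.e (nat_lit 385068) (nat_lit 26) .nil))))) .nil)) 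
(.lf (nat_lit 153253) (.g (nat_lit 3141) (.e (nat_lit 57406) (nat_lit 12) (.e (nat_lit 336434) (nat_lit 30) (.e (nat_lit 450579) (nat_lit 5) (.e (nat_lit 532579) (nat_lit 26) (.e (nat_lit 426107) (nat_lit 1) (.e (nat_lit 164403) (nat_lit 256) .nil)))))) (.g (nat_lit 0) .nil .nil)))) (.nd (nat_lit 5) 
(.lf (nat_lit 153237) (.g (nat_lit 224) (.e (nat_lit 57406) (nat_lit 12) (.e (nat_lit 336426) (nat_lit 29) (.e (nat_lit 442425) (nat_lit 23) .nil))) .nil)) 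
(.lf (nat_lit 153269) (.g (nat_lit 2729) (.e (nat_lit 57406) (nat_lit 12) (.e (nat_lit 336443) (nat_lit 32) (.e (nat_lit 466977) (nat_lit 22) (.e (nat_lit 196624) (nat_lit 9) (.e (nat_lit 442) (nat_lit 33) (.e (nat_lit 434212) (nat_lit 18) (.e (nat_lit 5950) (nat_lit 322) .nil))))))) (.g (nat_lit 4) .nil .nil))))) (.nd (nat_lit 4) (.nd (nat_lit 5) 
(.lf (nat_lit 153229) (.g (nat_lit 2734) (.e (nat_lit 57406) (nat_lit 12) (.e (nat_lit 336370) (nat_lit 27) (.e (nat_lit 426499) (nat_lit 27) (.e (nat_lit 336196) (nat_lit 12) (.e (nat_lit 385066) (nat_lit 26) (.e (nat_lit 532504) (nat_lit 1) (.e (nat_lit 57851) (nat_lit 252) .nil))))))) (.g (nat_lit 4) .nil .nil))) 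
(.lf (nat_lit 153261) (.g (nat_lit 1131) (.e (nat_lit 57406) (nat_lit 12) (.e (nat_lit 336443) (nat_lit 32) (.e (nat_lit 466974) (nat_lit 22) (.e (nat_lit 196656) (nat_lit 11) .nil)))) .nil))) (.nd (nat_lit 5) 
(.lf (nat_lit 153245) (.g (nat_lit 2152) (.e (nat_lit 57406) (nat_lit 12) (.e (nat_lit 336432) (nat_lit 30) (.e (nat_lit 450580) (nat_lit 5) (.e (nat_lit 532579) (nat_lit 26) (.e (nat_lit 426098) (nat_lit 1) (.e (nat_lit 164402) (nat_lit 256) .nil)))))) (.g (nat_lit 4) .nil .nil))) 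
(.lf (nat_lit 153277) (.g (nat_lit 1882) (.e (nat_lit 57406) (nat_lit 12) (.e (nat_lit 336443) (nat_lit 32) (.e (nat_lit 466977) (nat_lit 22) (.e (nat_lit 196656) (nat_lit 11) (.e (nat_lit 16392) (nat_lit 0) .nil))))) .nil)))))) (.nd (nat_lit 2) (.nd (nat_lit 3) (.nd (nat_lit 4) (.nd (nat_lit 5) 
(.lf (nat_lit 153219) (.g (nat_lit 1860) (.e (nat_lit 57406) (nat_lit 12) (.e (nat_lit 336369) (nat_lit 27) (.e (nat_lit 426499) (nat_lit 27) (.e (nat_lit 336196) (nat_lit 12) .nil)))) .nil)) 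
(.lf (nat_lit 153251) (.g (nat_lit 2320) (.e (nat_lit 57406) (nat_lit 12) (.e (nat_lit 336432) (nat_lit 30) (.e (nat_lit 450580) (nat_lit 5) (.e (nat_lit 532583) (nat_lit 26) (.e (nat_lit 426107) (nat_lit 1) (.e (nat_lit 164403) (nat_lit 256) .nil)))))) (.g (nat_lit 4) .nil .nil)))) (.nd (nat_lit 5) 
(.lf (nat_lit 153235) (.g (nat_lit 2395) (.e (nat_lit 57406) (nat_lit 12) (.e (nat_lit 336379) (nat_lit 27) (.e (nat_lit 426525) (nat_lit 27) (.e (nat_lit 336086) (nat_lit 9) (.e (nat_lit 336324) (nat_lit 18) (.e (nat_lit 204831) (nat_lit 18) (.e (nat_lit 57851) (nat_lit 252) .nil))))))) (.g (nat_lit 5) .nil .nil))) 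
(.lf (nat_lit 153267) (.g (nat_lit 1289) (.e (nat_lit 57406) (nat_lit 12) (.e (nat_lit 336443) (nat_lit 32) (.e (nat_lit 466977) (nat_lit 22) (.e (nat_lit 196624) (nat_lit 9) .nil)))) .nil)))) (.nd (nat_lit 4) (.nd (nat_lit 5) 
(.lf (nat_lit 153227) (.g (nat_lit 2500) (.e (nat_lit 57406) (nat_lit 12) (.e (nat_lit 336370) (nat_lit 27) (.e (nat_lit 426499) (nat_lit 27) (.e (nat_lit 336196) (nat_lit 12) (.e (nat_lit 385064) (nat_lit 26) (.e (nat_lit 532503) (nat_lit 1) (.e (nat_lit 57844) (nat_lit 252) .nil))))))) (.g (nat_lit 4) .nil .nil))) 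
(.lf (nat_lit 153259) (.g (nat_lit 1736) (.e (nat_lit 57406) (nat_lit 12) (.e (nat_lit 336443) (nat_lit 32) (.e (nat_lit 466974) (nat_lit 22) (.e (nat_lit 196654) (nat_lit 11) (.e (nat_lit 16386) (nat_lit 0) .nil))))) .nil))) (.nd (nat_lit 5) 
(.lf (nat_lit 153243) (.g (nat_lit 851) (.e (nat_lit 57406) (nat_lit 12) (.e (nat_lit 336432) (nat_lit 30) (.e (nat_lit 450579) (nat_lit 5) (.e (nat_lit 532578) (nat_lit 26) .nil)))) .nil)) 
(.lf (nat_lit 153275) (.g (nat_lit 1237) (.e (nat_lit 57406) (nat_lit 12) (.e (nat_lit 336443) (nat_lit 32) (.e (nat_lit 466977) (nat_lit 22) (.e (nat_lit 196656) (nat_lit 11) .nil)))) .nil))))) (.nd (nat_lit 3) (.nd (nat_lit 4) (.nd (nat_lit 5) 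
(.lf (nat_lit 153223) (.g (nat_lit 1991) (.e (nat_lit 57406) (nat_lit 12) (.e (nat_lit 336370) (nat_lit 27) (.e (nat_lit 426497) (nat_lit 27) (.e (nat_lit 336086) (nat_lit 9) (.e (nat_lit 336324) (nat_lit 18) (.e (nat_lit 204831) (nat_lit 18) (.e (nat_lit 57851) (nat_lit 252) .nil))))))) (.g (nat_lit 5) .nil .nil))) 
(.lf (nat_lit 153255) (.g (nat_lit 371) (.e (nat_lit 57406) (nat_lit 12) (.e (nat_lit 336438) (nat_lit 31) (.e (nat_lit 466688) (nat_lit 3) .nil))) .nil))) (.nd (nat_lit 5) 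
(.lf (nat_lit 153239) (.g (nat_lit 2611) (.e (nat_lit 57406) (nat_lit 12) (.e (nat_lit 336426) (nat_lit 29) (.e (nat_lit 442427) (nat_lit 23) (.e (nat_lit 204809) (nat_lit 9) (.e (nat_lit 426107) (nat_lit 1) (.e (nat_lit 164403) (nat_lit 256) .nil)))))) (.g (nat_lit 5) .nil .nil))) 
(.lf (nat_lit 153271) (.g (nat_lit 1137) (.e (nat_lit 57406) (nat_lit 12) (.e (nat_lit 336443) (nat_lit 32) (.e (nat_lit 466977) (nat_lit 22) (.e (nat_lit 196654) (nat_lit 11) .nil)))) .nil)))) (.nd (nat_lit 4) (.nd (nat_lit 5) 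
(.lf (nat_lit 153231) (.g (nat_lit 2625) (.e (nat_lit 57406) (nat_lit 12) (.e (nat_lit 336370) (nat_lit 27) (.e (nat_lit 426499) (nat_lit 27) (.e (nat_lit 336196) (nat_lit 12) (.e (nat_lit 385068) (nat_lit 26) (.e (nat_lit 532503) (nat_lit 1) (.e (nat_lit 57844) (nat_lit 252) .nil))))))) (.g (nat_lit 4) .nil .nil))) 
(.lf (nat_lit 153263) (.g (nat_lit 1853) (.e (nat_lit 57406) (nat_lit 12) (.e (nat_lit 336443) (nat_lit 32) (.e (nat_lit 466974) (nat_lit 22) (.e (nat_lit 196656) (nat_lit 11) (.e (nat_lit 16392) (nat_lit 0) .nil))))) .nil))) (.nd (nat_lit 5) 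
(.lf (nat_lit 153247) (.g (nat_lit 1938) (.e (nat_lit 57406) (nat_lit 12) (.e (nat_lit 336432) (nat_lit 30) (.e (nat_lit 450580) (nat_lit 5) (.e (nat_lit 532579) (nat_lit 26) (.e (nat_lit 426105) (nat_lit 1) (.e (nat_lit 164403) (nat_lit 256) .nil)))))) (.g (nat_lit 4) .nil .nil))) 
(.lf (nat_lit 153279) (.g (nat_lit 2267) (.e (nat_lit 57406) (nat_lit 12) (.e (nat_lit 336443) (nat_lit 32) (.e (nat_lit 466977) (nat_lit 22) (.e (nat_lit 196656) (nat_lit 11) (.e (nat_lit 16396) (nat_lit 0) .nil))))) .nil))))))))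

noncomputable def tv2042 : DT := (.nd (nat_lit 0) (.nd (nat_lit 1) (.nd (nat_lit 2) (.nd (nat_lit 3) (.nd (nat_lit 4) (.nd (nat_lit 5) 
(.lf (nat_lit 153280) (.g (nat_lit 816) (.e (nat_lit 57406) (nat_lit 12) (.e (nat_lit 336443) (nat_lit 32) (.e (nat_lit 466978) (nat_lit 23) .nil))) .nil)) 
(.lf (nat_lit 153312) (.g (nat_lit 3757) (.e (nat_lit 57406) (nat_lit 12) (.e (nat_lit 336454) (nat_lit 34) (.e (nat_lit 483382) (nat_lit 23) (.e (nat_lit 336324) (nat_lit 18) (.e (nat_lit 204831) (nat_lit 18) (.e (nat_lit 57846) (nat_lit 252) .nil)))))) (.g (nat_lit 5) .nil .nil)))) (.nd (nat_lit 5) 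
(.lf (nat_lit 153296) (.g (nat_lit 1695) (.e (nat_lit 57406) (nat_lit 12) (.e (nat_lit 336450) (nat_lit 33) (.e (nat_lit 475212) (nat_lit 42) (.e (nat_lit 720956) (nat_lit 25) (.e (nat_lit 114712) (nat_lit 21) .nil))))) .nil)) 
(.lf (nat_lit 153328) (.g (nat_lit 4146) (.e (nat_lit 57406) (nat_lit 12) (.e (nat_lit 336454) (nat_lit 34) (.e (nat_lit 483383) (nat_lit 23) (.e (nat_lit 336324) (nat_lit 18) (.e (nat_lit 204831) (nat_lit 18) (.e (nat_lit 57846) (nat_lit 252) .nil)))))) (.g (nat_lit 6) .nil .nil))))) (.nd (nat_lit 4) (.nd (nat_lit 5) 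
(.lf (nat_lit 153288) (.g (nat_lit 1840) (.e (nat_lit 57406) (nat_lit 12) (.e (nat_lit 336443) (nat_lit 32) (.e (nat_lit 466981) (nat_lit 23) (.e (nat_lit 204809) (nat_lit 9) (.e (nat_lit 426105) (nat_lit 1) (.e (nat_lit 164403) (nat_lit 256) .nil)))))) (.g (nat_lit 4) .nil .nil))) 
(.lf (nat_lit 153320) (.g (nat_lit 3329) (.e (nat_lit 57406) (nat_lit 12) (.e (nat_lit 336454) (nat_lit 34) (.e (nat_lit 483383) (nat_lit 23) (.e (nat_lit 336019) (nat_lit 3) (.e (nat_lit 98335) (nat_lit 18) (.e (nat_lit 164179) (nat_lit 154) .nil)))))) (.g (nat_lit 0) .nil .nil)))) (.nd (nat_lit 5) 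
(.lf (nat_lit 153304) (.g (nat_lit 1954) (.e (nat_lit 57406) (nat_lit 12) (.e (nat_lit 336454) (nat_lit 34) (.e (nat_lit 483380) (nat_lit 23) (.e (nat_lit 336316) (nat_lit 17) (.e (nat_lit 196661) (nat_lit 12) .nil))))) .nil)) 
(.lf (nat_lit 153336) (.g (nat_lit 3200) (.e (nat_lit 57406) (nat_lit 12) (.e (nat_lit 336454) (nat_lit 34) (.e (nat_lit 483384) (nat_lit 23) (.e (nat_lit 336326) (nat_lit 18) (.e (nat_lit 204830) (nat_lit 18) (.e (nat_lit 57854) (nat_lit 252) .nil)))))) (.g (nat_lit 6) .nil .nil)))))) (.nd (nat_lit 3) (.nd (nat_lit 4) (.nd (nat_lit 5) 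
(.lf (nat_lit 153284) (.g (nat_lit 3878) (.e (nat_lit 57406) (nat_lit 12) (.e (nat_lit 336443) (nat_lit 32) (.e (nat_lit 466979) (nat_lit 23) (.e (nat_lit 204809) (nat_lit 9) (.e (nat_lit 426108) (nat_lit 1) (.e (nat_lit 164402) (nat_lit 256) .nil)))))) (.g (nat_lit 0) .nil .nil))) 
(.lf (nat_lit 153316) (.g (nat_lit 3308) (.e (nat_lit 57406) (nat_lit 12) (.e (nat_lit 336454) (nat_lit 34) (.e (nat_lit 483382) (nat_lit 23) (.e (nat_lit 336326) (nat_lit 18) (.e (nat_lit 204831) (nat_lit 18) (.e (nat_lit 57846) (nat_lit 252) .nil)))))) (.g (nat_lit 4) .nil .nil)))) (.nd (nat_lit 5) 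
(.lf (nat_lit 153300) (.g (nat_lit 2973) (.e (nat_lit 57406) (nat_lit 12) (.e (nat_lit 336454) (nat_lit 34) (.e (nat_lit 483365) (nat_lit 18) (.e (nat_lit 57848) (nat_lit 252) .nil)))) .nil)) 
(.lf (nat_lit 153332) (.g (nat_lit 3292) (.e (nat_lit 57406) (nat_lit 12) (.e (nat_lit 336454) (nat_lit 34) (.e (nat_lit 483384) (nat_lit 23) (.e (nat_lit 336019) (nat_lit 3) (.e (nat_lit 98333) (nat_lit 18) (.e (nat_lit 164179) (nat_lit 154) .nil)))))) (.g (nat_lit 0) .nil .nil))))) (.nd (nat_lit 4) (.nd (nat_lit 5) 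
(.lf (nat_lit 153292) (.g (nat_lit 1707) (.e (nat_lit 57406) (nat_lit 12) (.e (nat_lit 336446) (nat_lit 33) (.e (nat_lit 475214) (nat_lit 42) (.e (nat_lit 720954) (nat_lit 25) (.e (nat_lit 114710) (nat_lit 21) .nil))))) .nil)) 
(.lf (nat_lit 153324) (.g (nat_lit 2386) (.e (nat_lit 57406) (nat_lit 12) (.e (nat_lit 336454) (nat_lit 34) (.e (nat_lit 483383) (nat_lit 23) (.e (nat_lit 336324) (nat_lit 18) (.e (nat_lit 204828) (nat_lit 18) .nil))))) .nil))) (.nd (nat_lit 5) 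
(.lf (nat_lit 153308) (.g (nat_lit 3933) (.e (nat_lit 57406) (nat_lit 12) (.e (nat_lit 336454) (nat_lit 34) (.e (nat_lit 483381) (nat_lit 23) (.e (nat_lit 336324) (nat_lit 18) (.e (nat_lit 204831) (nat_lit 18) (.e (nat_lit 57854) (nat_lit 252) .nil)))))) (.g (nat_lit 5) .nil .nil))) 
(.lf (nat_lit 153340) (.g (nat_lit 2914) (.e (nat_lit 57406) (nat_lit 12) (.e (nat_lit 336454) (nat_lit 34) (.e (nat_lit 483385) (nat_lit 23) (.e (nat_lit 336325) (nat_lit 18) (.e (nat_lit 204829) (nat_lit 18) (.e (nat_lit 57854) (nat_lit 252) .nil)))))) (.g (nat_lit 5) .nil .nil))))))) (.nd (nat_lit 2) (.nd (nat_lit 3) (.nd (nat_lit 4) (.nd (nat_lit 5) 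
(.lf (nat_lit 153282) (.g (nat_lit 3164) (.e (nat_lit 57406) (nat_lit 12) (.e (nat_lit 336443) (nat_lit 32) (.e (nat_lit 466979) (nat_lit 23) (.e (nat_lit 204809) (nat_lit 9) (.e (nat_lit 426098) (nat_lit 1) (.e (nat_lit 164398) (nat_lit 256) .nil)))))) (.g (nat_lit 0) .nil .nil))) 
(.lf (nat_lit 153314) (.g (nat_lit 3737) (.e (nat_lit 57406) (nat_lit 12) (.e (nat_lit 336454) (nat_lit 34) (.e (nat_lit 483382) (nat_lit 23) (.e (nat_lit 336324) (nat_lit 18) (.e (nat_lit 204831) (nat_lit 18) (.e (nat_lit 57853) (nat_lit 252) .nil)))))) (.g (nat_lit 6) .nil .nil)))) (.nd (nat_lit 5) 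
(.lf (nat_lit 153298) (.g (nat_lit 3071) (.e (nat_lit 57406) (nat_lit 12) (.e (nat_lit 336452) (nat_lit 34) (.e (nat_lit 483408) (nat_lit 26) (.e (nat_lit 385067) (nat_lit 26) (.e (nat_lit 532504) (nat_lit 1) (.e (nat_lit 57851) (nat_lit 252) .nil)))))) (.g (nat_lit 0) .nil .nil))) 
(.lf (nat_lit 153330) (.g (nat_lit 1752) (.e (nat_lit 57406) (nat_lit 12) (.e (nat_lit 336454) (nat_lit 34) (.e (nat_lit 483383) (nat_lit 23) (.e (nat_lit 336325) (nat_lit 18) .nil)))) .nil)))) (.nd (nat_lit 4) (.nd (nat_lit 5) 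
(.lf (nat_lit 153290) (.g (nat_lit 3881) (.e (nat_lit 57406) (nat_lit 12) (.e (nat_lit 336443) (nat_lit 32) (.e (nat_lit 466981) (nat_lit 23) (.e (nat_lit 204809) (nat_lit 9) (.e (nat_lit 426108) (nat_lit 1) (.e (nat_lit 164402) (nat_lit 256) .nil)))))) (.g (nat_lit 0) .nil .nil))) 
(.lf (nat_lit 153322) (.g (nat_lit 1194) (.e (nat_lit 57406) (nat_lit 12) (.e (nat_lit 336454) (nat_lit 34) (.e (nat_lit 483383) (nat_lit 23) (.e (nat_lit 336316) (nat_lit 17) .nil)))) .nil))) (.nd (nat_lit 5) 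
(.lf (nat_lit 153306) (.g (nat_lit 2636) (.e (nat_lit 57406) (nat_lit 12) (.e (nat_lit 336454) (nat_lit 34) (.e (nat_lit 483380) (nat_lit 23) (.e (nat_lit 336326) (nat_lit 18) (.e (nat_lit 204831) (nat_lit 18) (.e (nat_lit 57851) (nat_lit 252) .nil)))))) (.g (nat_lit 6) .nil .nil))) 
(.lf (nat_lit 153338) (.g (nat_lit 2619) (.e (nat_lit 57406) (nat_lit 12) (.e (nat_lit 336454) (nat_lit 34) (.e (nat_lit 483385) (nat_lit 23) (.e (nat_lit 336324) (nat_lit 18) (.e (nat_lit 204829) (nat_lit 18) (.e (nat_lit 57853) (nat_lit 252) .nil)))))) (.g (nat_lit 4) .nil .nil)))))) (.nd (nat_lit 3) (.nd (nat_lit 4) (.nd (nat_lit 5) 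
(.lf (nat_lit 153286) (.g (nat_lit 3200) (.e (nat_lit 57406) (nat_lit 12) (.e (nat_lit 336443) (nat_lit 32) (.e (nat_lit 466981) (nat_lit 23) (.e (nat_lit 204809) (nat_lit 9) (.e (nat_lit 426098) (nat_lit 1) (.e (nat_lit 164398) (nat_lit 256) .nil)))))) (.g (nat_lit 0) .nil .nil))) 
(.lf (nat_lit 153318) (.g (nat_lit 1879) (.e (nat_lit 57406) (nat_lit 12) (.e (nat_lit 336454) (nat_lit 34) (.e (nat_lit 483383) (nat_lit 23) (.e (nat_lit 335878) (nat_lit 0) (.e (nat_lit 1781) (nat_lit 119) .nil))))) .nil))) (.nd (nat_lit 5) 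
(.lf (nat_lit 153302) (.g (nat_lit 2470) (.e (nat_lit 57406) (nat_lit 12) (.e (nat_lit 336454) (nat_lit 34) (.e (nat_lit 483378) (nat_lit 23) (.e (nat_lit 336028) (nat_lit 3) (.e (nat_lit 98335) (nat_lit 18) (.e (nat_lit 164179) (nat_lit 154) .nil)))))) (.g (nat_lit 4) .nil .nil))) 
(.lf (nat_lit 153334) (.g (nat_lit 2912) (.e (nat_lit 57406) (nat_lit 12) (.e (nat_lit 336454) (nat_lit 34) (.e (nat_lit 483384) (nat_lit 23) (.e (nat_lit 336322) (nat_lit 18) (.e (nat_lit 204830) (nat_lit 18) (.e (nat_lit 57854) (nat_lit 252) .nil)))))) (.g (nat_lit 0) .nil .nil))))) (.nd (nat_lit 4) (.nd (nat_lit 5) 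
(.lf (nat_lit 153294) (.g (nat_lit 1644) (.e (nat_lit 57406) (nat_lit 12) (.e (nat_lit 336448) (nat_lit 33) (.e (nat_lit 475214) (nat_lit 42) (.e (nat_lit 720955) (nat_lit 25) (.e (nat_lit 114711) (nat_lit 21) .nil))))) .nil)) 
(.lf (nat_lit 153326) (.g (nat_lit 3881) (.e (nat_lit 57406) (nat_lit 12) (.e (nat_lit 336454) (nat_lit 34) (.e (nat_lit 483383) (nat_lit 23) (.e (nat_lit 336324) (nat_lit 18) (.e (nat_lit 204830) (nat_lit 18) (.e (nat_lit 57854) (nat_lit 252) .nil)))))) (.g (nat_lit 0) .nil .nil)))) (.nd (nat_lit 5) 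
(.lf (nat_lit 153310) (.g (nat_lit 2190) (.e (nat_lit 57406) (nat_lit 12) (.e (nat_lit 336454) (nat_lit 34) (.e (nat_lit 483382) (nat_lit 23) (.e (nat_lit 336019) (nat_lit 3) (.e (nat_lit 98335) (nat_lit 18) (.e (nat_lit 164179) (nat_lit 154) .nil)))))) (.g (nat_lit 5) .nil .nil))) 
(.lf (nat_lit 153342) (.g (nat_lit 3666) (.e (nat_lit 57406) (nat_lit 12) (.e (nat_lit 336454) (nat_lit 34) (.e (nat_lit 483385) (nat_lit 23) (.e (nat_lit 336326) (nat_lit 18) (.e (nat_lit 204830) (nat_lit 18) (.e (nat_lit 57854) (nat_lit 252) .nil)))))) (.g (nat_lit 0) .nil .nil)))))))) (.nd (nat_lit 1) (.nd (nat_lit 2) (.nd (nat_lit 3) (.nd (nat_lit 4) (.nd (nat_lit 5) 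
(.lf (nat_lit 153281) (.g (nat_lit 401) (.e (nat_lit 57406) (nat_lit 12) (.e (nat_lit 336443) (nat_lit 32) (.e (nat_lit 466979) (nat_lit 23) .nil))) .nil)) 
(.lf (nat_lit 153313) (.g (nat_lit 3118) (.e (nat_lit 57406) (nat_lit 12) (.e (nat_lit 336454) (nat_lit 34) (.e (nat_lit 483382) (nat_lit 23) (.e (nat_lit 336324) (nat_lit 18) (.e (nat_lit 204831) (nat_lit 18) (.e (nat_lit 57851) (nat_lit 252) .nil)))))) (.g (nat_lit 0) .nil .nil)))) (.nd (nat_lit 5) 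
(.lf (nat_lit 153297) (.g (nat_lit 2599) (.e (nat_lit 57406) (nat_lit 12) (.e (nat_lit 336452) (nat_lit 34) (.e (nat_lit 483406) (nat_lit 26) (.e (nat_lit 385066) (nat_lit 26) (.e (nat_lit 532501) (nat_lit 1) (.e (nat_lit 57852) (nat_lit 252) .nil)))))) (.g (nat_lit 4) .nil .nil))) 
(.lf (nat_lit 153329) (.g (nat_lit 3471) (.e (nat_lit 57406) (nat_lit 12) (.e (nat_lit 336454) (nat_lit 34) (.e (nat_lit 483383) (nat_lit 23) (.e (nat_lit 336324) (nat_lit 18) (.e (nat_lit 204831) (nat_lit 18) (.e (nat_lit 57851) (nat_lit 252) .nil)))))) (.g (nat_lit 0) .nil .nil))))) (.nd (nat_lit 4) (.nd (nat_lit 5) 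
(.lf (nat_lit 153289) (.g (nat_lit 3064) (.e (nat_lit 57406) (nat_lit 12) (.e (nat_lit 336443) (nat_lit 32) (.e (nat_lit 466981) (nat_lit 23) (.e (nat_lit 204809) (nat_lit 9) (.e (nat_lit 426107) (nat_lit 1) (.e (nat_lit 164402) (nat_lit 256) .nil)))))) (.g (nat_lit 6) .nil .nil))) 
(.lf (nat_lit 153321) (.g (nat_lit 1439) (.e (nat_lit 57406) (nat_lit 12) (.e (nat_lit 336454) (nat_lit 34) (.e (nat_lit 483383) (nat_lit 23) (.e (nat_lit 343808) (nat_lit 3) .nil)))) .nil))) (.nd (nat_lit 5) 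
(.lf (nat_lit 153305) (.g (nat_lit 3582) (.e (nat_lit 57406) (nat_lit 12) (.e (nat_lit 336454) (nat_lit 34) (.e (nat_lit 483380) (nat_lit 23) (.e (nat_lit 336324) (nat_lit 18) (.e (nat_lit 204829) (nat_lit 18) (.e (nat_lit 57853) (nat_lit 252) .nil)))))) (.g (nat_lit 6) .nil .nil))) 
(.lf (nat_lit 153337) (.g (nat_lit 3081) (.e (nat_lit 57406) (nat_lit 12) (.e (nat_lit 336454) (nat_lit 34) (.e (nat_lit 483384) (nat_lit 23) (.e (nat_lit 336326) (nat_lit 18) (.e (nat_lit 204831) (nat_lit 18) (.e (nat_lit 57854) (nat_lit 252) .nil)))))) (.g (nat_lit 6) .nil .nil)))))) (.nd (nat_lit 3) (.nd (nat_lit 4) (.nd (nat_lit 5) 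
(.lf (nat_lit 153285) (.g (nat_lit 390) (.e (nat_lit 57406) (nat_lit 12) (.e (nat_lit 336443) (nat_lit 32) (.e (nat_lit 466981) (nat_lit 23) .nil))) .nil)) 
(.lf (nat_lit 153317) (.g (nat_lit 3427) (.e (nat_lit 57406) (nat_lit 12) (.e (nat_lit 336454) (nat_lit 34) (.e (nat_lit 483382) (nat_lit 23) (.e (nat_lit 336326) (nat_lit 18) (.e (nat_lit 204831) (nat_lit 18) (.e (nat_lit 57852) (nat_lit 252) .nil)))))) (.g (nat_lit 6) .nil .nil)))) (.nd (nat_lit 5) 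
(.lf (nat_lit 153301) (.g (nat_lit 3631) (.e (nat_lit 57406) (nat_lit 12) (.e (nat_lit 336454) (nat_lit 34) (.e (nat_lit 483365) (nat_lit 18) (.e (nat_lit 57854) (nat_lit 252) .nil)))) .nil)) 
(.lf (nat_lit 153333) (.g (nat_lit 3012) (.e (nat_lit 57406) (nat_lit 12) (.e (nat_lit 336454) (nat_lit 34) (.e (nat_lit 483384) (nat_lit 23) (.e (nat_lit 336019) (nat_lit 3) (.e (nat_lit 98335) (nat_lit 18) (.e (nat_lit 164179) (nat_lit 154) .nil)))))) (.g (nat_lit 0) .nil .nil))))) (.nd (nat_lit 4) (.nd (nat_lit 5) 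
(.lf (nat_lit 153293) (.g (nat_lit 1156) (.e (nat_lit 57406) (nat_lit 12) (.e (nat_lit 336446) (nat_lit 33) (.e (nat_lit 475214) (nat_lit 42) (.e (nat_lit 720956) (nat_lit 25) .nil)))) .nil)) 
(.lf (nat_lit 153325) (.g (nat_lit 3902) (.e (nat_lit 57406) (nat_lit 12) (.e (nat_lit 336454) (nat_lit 34) (.e (nat_lit 483383) (nat_lit 23) (.e (nat_lit 336324) (nat_lit 18) (.e (nat_lit 204830) (nat_lit 18) (.e (nat_lit 57853) (nat_lit 252) .nil)))))) (.g (nat_lit 6) .nil .nil)))) (.nd (nat_lit 5) 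
(.lf (nat_lit 153309) (.g (nat_lit 2819) (.e (nat_lit 57406) (nat_lit 12) (.e (nat_lit 336454) (nat_lit 34) (.e (nat_lit 483382) (nat_lit 23) (.e (nat_lit 336019) (nat_lit 3) (.e (nat_lit 98333) (nat_lit 18) (.e (nat_lit 164179) (nat_lit 154) .nil)))))) (.g (nat_lit 5) .nil .nil))) 
(.lf (nat_lit 153341) (.g (nat_lit 3195) (.e (nat_lit 57406) (nat_lit 12) (.e (nat_lit 336454) (nat_lit 34) (.e (nat_lit 483385) (nat_lit 23) (.e (nat_lit 336325) (nat_lit 18) (.e (nat_lit 204830) (nat_lit 18) (.e (nat_lit 57854) (nat_lit 252) .nil)))))) (.g (nat_lit 0) .nil .nil))))))) (.nd (nat_lit 2) (.nd (nat_lit 3) (.nd (nat_lit 4) (.nd (nat_lit 5) 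
(.lf (nat_lit 153283) (.g (nat_lit 3149) (.e (nat_lit 57406) (nat_lit 12) (.e (nat_lit 336443) (nat_lit 32) (.e (nat_lit 466979) (nat_lit 23) (.e (nat_lit 204809) (nat_lit 9) (.e (nat_lit 426100) (nat_lit 1) (.e (nat_lit 164398) (nat_lit 256) .nil)))))) (.g (nat_lit 6) .nil .nil))) 
(.lf (nat_lit 153315) (.g (nat_lit 3418) (.e (nat_lit 57406) (nat_lit 12) (.e (nat_lit 336454) (nat_lit 34) (.e (nat_lit 483382) (nat_lit 23) (.e (nat_lit 336326) (nat_lit 18) (.e (nat_lit 204830) (nat_lit 18) (.e (nat_lit 57854) (nat_lit 252) .nil)))))) (.g (nat_lit 0) .nil .nil)))) (.nd (nat_lit 5) 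
(.lf (nat_lit 153299) (.g (nat_lit 504) (.e (nat_lit 57406) (nat_lit 12) (.e (nat_lit 336454) (nat_lit 34) (.e (nat_lit 483365) (nat_lit 18) .nil))) .nil)) 
(.lf (nat_lit 153331) (.g (nat_lit 2515) (.e (nat_lit 57406) (nat_lit 12) (.e (nat_lit 336454) (nat_lit 34) (.e (nat_lit 483383) (nat_lit 23) (.e (nat_lit 336326) (nat_lit 18) (.e (nat_lit 204831) (nat_lit 18) (.e (nat_lit 57851) (nat_lit 252) .nil)))))) (.g (nat_lit 6) .nil .nil))))) (.nd (nat_lit 4) (.nd (nat_lit 5) 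
(.lf (nat_lit 153291) (.g (nat_lit 3216) (.e (nat_lit 57406) (nat_lit 12) (.e (nat_lit 336445) (nat_lit 33) (.e (nat_lit 475214) (nat_lit 42) (.e (nat_lit 720956) (nat_lit 25) (.e (nat_lit 114711) (nat_lit 21) (.e (nat_lit 57847) (nat_lit 252) (.e (nat_lit 57368) (nat_lit 1) (.e (nat_lit 57852) (nat_lit 252) .nil)))))))) (.g (nat_lit 6) .nil .nil))) 
(.lf (nat_lit 153323) (.g (nat_lit 1654) (.e (nat_lit 57406) (nat_lit 12) (.e (nat_lit 336454) (nat_lit 34) (.e (nat_lit 483383) (nat_lit 23) (.e (nat_lit 336322) (nat_lit 18) .nil)))) .nil))) (.nd (nat_lit 5) 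
(.lf (nat_lit 153307) (.g (nat_lit 4409) (.e (nat_lit 57406) (nat_lit 12) (.e (nat_lit 336454) (nat_lit 34) (.e (nat_lit 483381) (nat_lit 23) (.e (nat_lit 336324) (nat_lit 18) (.e (nat_lit 204831) (nat_lit 18) (.e (nat_lit 57852) (nat_lit 252) .nil)))))) (.g (nat_lit 5) .nil .nil))) 
(.lf (nat_lit 153339) (.g (nat_lit 3347) (.e (nat_lit 57406) (nat_lit 12) (.e (nat_lit 336454) (nat_lit 34) (.e (nat_lit 483385) (nat_lit 23) (.e (nat_lit 336324) (nat_lit 18) (.e (nat_lit 204829) (nat_lit 18) (.e (nat_lit 57854) (nat_lit 252) .nil)))))) (.g (nat_lit 0) .nil .nil)))))) (.nd (nat_lit 3) (.nd (nat_lit 4) (.nd (nat_lit 5) 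
(.lf (nat_lit 153287) (.g (nat_lit 3185) (.e (nat_lit 57406) (nat_lit 12) (.e (nat_lit 336443) (nat_lit 32) (.e (nat_lit 466981) (nat_lit 23) (.e (nat_lit 204809) (nat_lit 9) (.e (nat_lit 426100) (nat_lit 1) (.e (nat_lit 164398) (nat_lit 256) .nil)))))) (.g (nat_lit 6) .nil .nil))) 
(.lf (nat_lit 153319) (.g (nat_lit 3719) (.e (nat_lit 57406) (nat_lit 12) (.e (nat_lit 336454) (nat_lit 34) (.e (nat_lit 483383) (nat_lit 23) (.e (nat_lit 336019) (nat_lit 3) (.e (nat_lit 98333) (nat_lit 18) (.e (nat_lit 164179) (nat_lit 154) .nil)))))) (.g (nat_lit 0) .nil .nil)))) (.nd (nat_lit 5) 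
(.lf (nat_lit 153303) (.g (nat_lit 1096) (.e (nat_lit 57406) (nat_lit 12) (.e (nat_lit 336454) (nat_lit 34) (.e (nat_lit 483380) (nat_lit 23) (.e (nat_lit 336316) (nat_lit 17) .nil)))) .nil)) 
(.lf (nat_lit 153335) (.g (nat_lit 3269) (.e (nat_lit 57406) (nat_lit 12) (.e (nat_lit 336454) (nat_lit 34) (.e (nat_lit 483384) (nat_lit 23) (.e (nat_lit 336324) (nat_lit 18) (.e (nat_lit 204829) (nat_lit 18) (.e (nat_lit 57854) (nat_lit 252) .nil)))))) (.g (nat_lit 6) .nil .nil))))) (.nd (nat_lit 4) (.nd (nat_lit 5) 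
(.lf (nat_lit 153295) (.g (nat_lit 1464) (.e (nat_lit 57406) (nat_lit 12) (.e (nat_lit 336450) (nat_lit 33) (.e (nat_lit 475212) (nat_lit 42) (.e (nat_lit 720955) (nat_lit 25) .nil)))) .nil)) 
(.lf (nat_lit 153327) (.g (nat_lit 2961) (.e (nat_lit 57406) (nat_lit 12) (.e (nat_lit 336454) (nat_lit 34) (.e (nat_lit 483383) (nat_lit 23) (.e (nat_lit 336324) (nat_lit 18) (.e (nat_lit 204831) (nat_lit 18) (.e (nat_lit 57844) (nat_lit 252) .nil)))))) (.g (nat_lit 5) .nil .nil)))) (.nd (nat_lit 5) 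
(.lf (nat_lit 153311) (.g (nat_lit 3219) (.e (nat_lit 57406) (nat_lit 12) (.e (nat_lit 336454) (nat_lit 34) (.e (nat_lit 483382) (nat_lit 23) (.e (nat_lit 336324) (nat_lit 18) (.e (nat_lit 204829) (nat_lit 18) (.e (nat_lit 57854) (nat_lit 252) .nil)))))) (.g (nat_lit 0) .nil .nil))) 
(.lf (nat_lit 153343) (.g (nat_lit 2000) (.e (nat_lit 57406) (nat_lit 12) (.e (nat_lit 336454) (nat_lit 34) (.e (nat_lit 483385) (nat_lit 23) (.e (nat_lit 336326) (nat_lit 18) (.e (nat_lit 204831) (nat_lit 18) .nil))))) .nil))))))))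

noncomputable def tv2043 : DT := (.nd (nat_lit 0) (.nd (nat_lit 1) (.nd (nat_lit 2) (.nd (nat_lit 3) (.nd (nat_lit 4) (.nd (nat_lit 5) 
(.lf (nat_lit 153344) (.g (nat_lit 2693) (.e (nat_lit 57406) (nat_lit 12) (.e (nat_lit 336454) (nat_lit 34) (.e (nat_lit 483390) (nat_lit 23) (.e (nat_lit 336023) (nat_lit 3) (.e (nat_lit 98333) (nat_lit 18) (.e (nat_lit 164179) (nat_lit 154) .nil)))))) (.g (nat_lit 6) .nil .nil))) 
(.lf (nat_lit 153376) (.g (nat_lit 2666) (.e (nat_lit 57406) (nat_lit 12) (.e (nat_lit 336454) (nat_lit 34) (.e (nat_lit 483403) (nat_lit 26) (.e (nat_lit 385067) (nat_lit 26) (.e (nat_lit 532504) (nat_lit 1) (.e (nat_lit 57851) (nat_lit 252) .nil)))))) (.g (nat_lit 6) .nil .nil)))) (.nd (nat_lit 5) 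
(.lf (nat_lit 153360) (.g (nat_lit 2020) (.e (nat_lit 57406) (nat_lit 12) (.e (nat_lit 336454) (nat_lit 34) (.e (nat_lit 483401) (nat_lit 25) (.e (nat_lit 368676) (nat_lit 21) (.e (nat_lit 516119) (nat_lit 1) (.e (nat_lit 164179) (nat_lit 154) .nil)))))) (.g (nat_lit 4) .nil .nil))) 
(.lf (nat_lit 153392) (.g (nat_lit 2981) (.e (nat_lit 57406) (nat_lit 12) (.e (nat_lit 336454) (nat_lit 34) (.e (nat_lit 483405) (nat_lit 26) (.e (nat_lit 385066) (nat_lit 26) (.e (nat_lit 532504) (nat_lit 1) (.e (nat_lit 57853) (nat_lit 252) .nil)))))) (.g (nat_lit 5) .nil .nil))))) (.nd (nat_lit 4) (.nd (nat_lit 5) 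
(.lf (nat_lit 153352) (.g (nat_lit 3063) (.e (nat_lit 57406) (nat_lit 12) (.e (nat_lit 336454) (nat_lit 34) (.e (nat_lit 483398) (nat_lit 25) (.e (nat_lit 368676) (nat_lit 21) (.e (nat_lit 516115) (nat_lit 1) (.e (nat_lit 164179) (nat_lit 154) .nil)))))) (.g (nat_lit 0) .nil .nil))) 
(.lf (nat_lit 153384) (.g (nat_lit 4054) (.e (nat_lit 57406) (nat_lit 12) (.e (nat_lit 336454) (nat_lit 34) (.e (nat_lit 483404) (nat_lit 26) (.e (nat_lit 385068) (nat_lit 26) (.e (nat_lit 532501) (nat_lit 1) (.e (nat_lit 57854) (nat_lit 252) .nil)))))) (.g (nat_lit 5) .nil .nil)))) (.nd (nat_lit 5) 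
(.lf (nat_lit 153368) (.g (nat_lit 3513) (.e (nat_lit 57406) (nat_lit 12) (.e (nat_lit 336454) (nat_lit 34) (.e (nat_lit 483403) (nat_lit 26) (.e (nat_lit 385066) (nat_lit 26) (.e (nat_lit 532499) (nat_lit 1) (.e (nat_lit 57853) (nat_lit 252) .nil)))))) (.g (nat_lit 6) .nil .nil))) 
(.lf (nat_lit 153400) (.g (nat_lit 2997) (.e (nat_lit 57406) (nat_lit 12) (.e (nat_lit 336454) (nat_lit 34) (.e (nat_lit 483406) (nat_lit 26) (.e (nat_lit 385066) (nat_lit 26) (.e (nat_lit 532499) (nat_lit 1) (.e (nat_lit 57851) (nat_lit 252) .nil)))))) (.g (nat_lit 5) .nil .nil)))))) (.nd (nat_lit 3) (.nd (nat_lit 4) (.nd (nat_lit 5) 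
(.lf (nat_lit 153348) (.g (nat_lit 1717) (.e (nat_lit 57406) (nat_lit 12) (.e (nat_lit 336454) (nat_lit 34) (.e (nat_lit 483394) (nat_lit 24) (.e (nat_lit 344119) (nat_lit 21) (.e (nat_lit 516118) (nat_lit 1) (.e (nat_lit 164179) (nat_lit 154) .nil)))))) (.g (nat_lit 4) .nil .nil))) 
(.lf (nat_lit 153380) (.g (nat_lit 3087) (.e (nat_lit 57406) (nat_lit 12) (.e (nat_lit 336454) (nat_lit 34) (.e (nat_lit 483403) (nat_lit 26) (.e (nat_lit 385068) (nat_lit 26) (.e (nat_lit 532504) (nat_lit 1) (.e (nat_lit 57851) (nat_lit 252) .nil)))))) (.g (nat_lit 0) .nil .nil)))) (.nd (nat_lit 5) 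
(.lf (nat_lit 153364) (.g (nat_lit 4011) (.e (nat_lit 57406) (nat_lit 12) (.e (nat_lit 336454) (nat_lit 34) (.e (nat_lit 483402) (nat_lit 26) (.e (nat_lit 385068) (nat_lit 26) (.e (nat_lit 532504) (nat_lit 1) (.e (nat_lit 57852) (nat_lit 252) .nil)))))) (.g (nat_lit 0) .nil .nil))) 
(.lf (nat_lit 153396) (.g (nat_lit 3484) (.e (nat_lit 57406) (nat_lit 12) (.e (nat_lit 336454) (nat_lit 34) (.e (nat_lit 483405) (nat_lit 26) (.e (nat_lit 385068) (nat_lit 26) (.e (nat_lit 532504) (nat_lit 1) (.e (nat_lit 57854) (nat_lit 252) .nil)))))) (.g (nat_lit 0) .nil .nil))))) (.nd (nat_lit 4) (.nd (nat_lit 5) 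
(.lf (nat_lit 153356) (.g (nat_lit 2983) (.e (nat_lit 57406) (nat_lit 12) (.e (nat_lit 336454) (nat_lit 34) (.e (nat_lit 483399) (nat_lit 25) (.e (nat_lit 368676) (nat_lit 21) (.e (nat_lit 516118) (nat_lit 1) (.e (nat_lit 164179) (nat_lit 154) .nil)))))) (.g (nat_lit 0) .nil .nil))) 
(.lf (nat_lit 153388) (.g (nat_lit 2612) (.e (nat_lit 57406) (nat_lit 12) (.e (nat_lit 336454) (nat_lit 34) (.e (nat_lit 483405) (nat_lit 26) (.e (nat_lit 385064) (nat_lit 26) (.e (nat_lit 532504) (nat_lit 1) (.e (nat_lit 57851) (nat_lit 252) .nil)))))) (.g (nat_lit 0) .nil .nil)))) (.nd (nat_lit 5) 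
(.lf (nat_lit 153372) (.g (nat_lit 2213) (.e (nat_lit 57406) (nat_lit 12) (.e (nat_lit 336454) (nat_lit 34) (.e (nat_lit 483403) (nat_lit 26) (.e (nat_lit 385066) (nat_lit 26) (.e (nat_lit 532503) (nat_lit 1) (.e (nat_lit 57854) (nat_lit 252) .nil)))))) (.g (nat_lit 4) .nil .nil))) 
(.lf (nat_lit 153404) (.g (nat_lit 3815) (.e (nat_lit 57406) (nat_lit 12) (.e (nat_lit 336454) (nat_lit 34) (.e (nat_lit 483406) (nat_lit 26) (.e (nat_lit 385066) (nat_lit 26) (.e (nat_lit 532502) (nat_lit 1) (.e (nat_lit 57853) (nat_lit 252) .nil)))))) (.g (nat_lit 0) .nil .nil))))))) (.nd (nat_lit 2) (.nd (nat_lit 3) (.nd (nat_lit 4) (.nd (nat_lit 5) 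
(.lf (nat_lit 153346) (.g (nat_lit 2481) (.e (nat_lit 57406) (nat_lit 12) (.e (nat_lit 336454) (nat_lit 34) (.e (nat_lit 491264) (nat_lit 23) (.e (nat_lit 336027) (nat_lit 3) (.e (nat_lit 98333) (nat_lit 18) (.e (nat_lit 164179) (nat_lit 154) .nil)))))) (.g (nat_lit 4) .nil .nil))) 
(.lf (nat_lit 153378) (.g (nat_lit 2341) (.e (nat_lit 57406) (nat_lit 12) (.e (nat_lit 336454) (nat_lit 34) (.e (nat_lit 483403) (nat_lit 26) (.e (nat_lit 385068) (nat_lit 26) (.e (nat_lit 532501) (nat_lit 1) (.e (nat_lit 57852) (nat_lit 252) .nil)))))) (.g (nat_lit 4) .nil .nil)))) (.nd (nat_lit 5) 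
(.lf (nat_lit 153362) (.g (nat_lit 3552) (.e (nat_lit 57406) (nat_lit 12) (.e (nat_lit 336454) (nat_lit 34) (.e (nat_lit 483402) (nat_lit 26) (.e (nat_lit 385068) (nat_lit 26) (.e (nat_lit 532499) (nat_lit 1) (.e (nat_lit 57847) (nat_lit 252) .nil)))))) (.g (nat_lit 4) .nil .nil))) 
(.lf (nat_lit 153394) (.g (nat_lit 2970) (.e (nat_lit 57406) (nat_lit 12) (.e (nat_lit 336454) (nat_lit 34) (.e (nat_lit 483405) (nat_lit 26) (.e (nat_lit 385067) (nat_lit 26) (.e (nat_lit 532504) (nat_lit 1) (.e (nat_lit 57851) (nat_lit 252) .nil)))))) (.g (nat_lit 0) .nil .nil))))) (.nd (nat_lit 4) (.nd (nat_lit 5) 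
(.lf (nat_lit 153354) (.g (nat_lit 2986) (.e (nat_lit 57406) (nat_lit 12) (.e (nat_lit 336454) (nat_lit 34) (.e (nat_lit 483398) (nat_lit 25) (.e (nat_lit 368676) (nat_lit 21) (.e (nat_lit 516119) (nat_lit 1) (.e (nat_lit 164179) (nat_lit 154) .nil)))))) (.g (nat_lit 0) .nil .nil))) 
(.lf (nat_lit 153386) (.g (nat_lit 3902) (.e (nat_lit 57406) (nat_lit 12) (.e (nat_lit 336454) (nat_lit 34) (.e (nat_lit 483404) (nat_lit 26) (.e (nat_lit 385068) (nat_lit 26) (.e (nat_lit 532504) (nat_lit 1) (.e (nat_lit 57853) (nat_lit 252) .nil)))))) (.g (nat_lit 4) .nil .nil)))) (.nd (nat_lit 5) 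
(.lf (nat_lit 153370) (.g (nat_lit 3389) (.e (nat_lit 57406) (nat_lit 12) (.e (nat_lit 336454) (nat_lit 34) (.e (nat_lit 483403) (nat_lit 26) (.e (nat_lit 385066) (nat_lit 26) (.e (nat_lit 532502) (nat_lit 1) (.e (nat_lit 57852) (nat_lit 252) .nil)))))) (.g (nat_lit 0) .nil .nil))) 
(.lf (nat_lit 153402) (.g (nat_lit 2947) (.e (nat_lit 57406) (nat_lit 12) (.e (nat_lit 336454) (nat_lit 34) (.e (nat_lit 483406) (nat_lit 26) (.e (nat_lit 385066) (nat_lit 26) (.e (nat_lit 532501) (nat_lit 1) (.e (nat_lit 57853) (nat_lit 252) .nil)))))) (.g (nat_lit 5) .nil .nil)))))) (.nd (nat_lit 3) (.nd (nat_lit 4) (.nd (nat_lit 5) 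
(.lf (nat_lit 153350) (.g (nat_lit 3281) (.e (nat_lit 57406) (nat_lit 12) (.e (nat_lit 336454) (nat_lit 34) (.e (nat_lit 483396) (nat_lit 24) (.e (nat_lit 344119) (nat_lit 21) (.e (nat_lit 516115) (nat_lit 1) (.e (nat_lit 164179) (nat_lit 154) .nil)))))) (.g (nat_lit 4) .nil .nil))) 
(.lf (nat_lit 153382) (.g (nat_lit 3641) (.e (nat_lit 57406) (nat_lit 12) (.e (nat_lit 336454) (nat_lit 34) (.e (nat_lit 483403) (nat_lit 26) (.e (nat_lit 385068) (nat_lit 26) (.e (nat_lit 532504) (nat_lit 1) (.e (nat_lit 57853) (nat_lit 252) .nil)))))) (.g (nat_lit 0) .nil .nil)))) (.nd (nat_lit 5) 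
(.lf (nat_lit 153366) (.g (nat_lit 827) (.e (nat_lit 57406) (nat_lit 12) (.e (nat_lit 336454) (nat_lit 34) (.e (nat_lit 483403) (nat_lit 26) (.e (nat_lit 385066) (nat_lit 26) .nil)))) .nil)) 
(.lf (nat_lit 153398) (.g (nat_lit 1748) (.e (nat_lit 57406) (nat_lit 12) (.e (nat_lit 336454) (nat_lit 34) (.e (nat_lit 483406) (nat_lit 26) (.e (nat_lit 385065) (nat_lit 26) .nil)))) .nil)))) (.nd (nat_lit 4) (.nd (nat_lit 5) 
(.lf (nat_lit 153358) (.g (nat_lit 528) (.e (nat_lit 57406) (nat_lit 12) (.e (nat_lit 336454) (nat_lit 34) (.e (nat_lit 483401) (nat_lit 25) .nil))) .nil)) 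
(.lf (nat_lit 153390) (.g (nat_lit 2941) (.e (nat_lit 57406) (nat_lit 12) (.e (nat_lit 336454) (nat_lit 34) (.e (nat_lit 483405) (nat_lit 26) (.e (nat_lit 385066) (nat_lit 26) (.e (nat_lit 532502) (nat_lit 1) (.e (nat_lit 57852) (nat_lit 252) .nil)))))) (.g (nat_lit 6) .nil .nil)))) (.nd (nat_lit 5) 
(.lf (nat_lit 153374) (.g (nat_lit 3399) (.e (nat_lit 57406) (nat_lit 12) (.e (nat_lit 336454) (nat_lit 34) (.e (nat_lit 483403) (nat_lit 26) (.e (nat_lit 385066) (nat_lit 26) (.e (nat_lit 532504) (nat_lit 1) (.e (nat_lit 57853) (nat_lit 252) .nil)))))) (.g (nat_lit 0) .nil .nil))) 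
(.lf (nat_lit 153406) (.g (nat_lit 3203) (.e (nat_lit 57406) (nat_lit 12) (.e (nat_lit 336454) (nat_lit 34) (.e (nat_lit 483406) (nat_lit 26) (.e (nat_lit 385066) (nat_lit 26) (.e (nat_lit 532504) (nat_lit 1) (.e (nat_lit 57851) (nat_lit 252) .nil)))))) (.g (nat_lit 0) .nil .nil)))))))) (.nd (nat_lit 1) (.nd (nat_lit 2) (.nd (nat_lit 3) (.nd (nat_lit 4) (.nd (nat_lit 5) 
(.lf (nat_lit 153345) (.g (nat_lit 2150) (.e (nat_lit 57406) (nat_lit 12) (.e (nat_lit 336454) (nat_lit 34) (.e (nat_lit 483391) (nat_lit 23) (.e (nat_lit 336017) (nat_lit 3) (.e (nat_lit 98335) (nat_lit 18) (.e (nat_lit 164179) (nat_lit 154) .nil)))))) (.g (nat_lit 4) .nil .nil))) 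
(.lf (nat_lit 153377) (.g (nat_lit 2574) (.e (nat_lit 57406) (nat_lit 12) (.e (nat_lit 336454) (nat_lit 34) (.e (nat_lit 483403) (nat_lit 26) (.e (nat_lit 385068) (nat_lit 26) (.e (nat_lit 532501) (nat_lit 1) (.e (nat_lit 57844) (nat_lit 252) .nil)))))) (.g (nat_lit 4) .nil .nil)))) (.nd (nat_lit 5) 
(.lf (nat_lit 153361) (.g (nat_lit 509) (.e (nat_lit 57406) (nat_lit 12) (.e (nat_lit 336454) (nat_lit 34) (.e (nat_lit 483402) (nat_lit 26) .nil))) .nil)) 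
(.lf (nat_lit 153393) (.g (nat_lit 2836) (.e (nat_lit 57406) (nat_lit 12) (.e (nat_lit 336454) (nat_lit 34) (.e (nat_lit 483405) (nat_lit 26) (.e (nat_lit 385067) (nat_lit 26) (.e (nat_lit 532501) (nat_lit 1) (.e (nat_lit 57851) (nat_lit 252) .nil)))))) (.g (nat_lit 0) .nil .nil))))) (.nd (nat_lit 4) (.nd (nat_lit 5) 
(.lf (nat_lit 153353) (.g (nat_lit 2975) (.e (nat_lit 57406) (nat_lit 12) (.e (nat_lit 336454) (nat_lit 34) (.e (nat_lit 483398) (nat_lit 25) (.e (nat_lit 368676) (nat_lit 21) (.e (nat_lit 516118) (nat_lit 1) (.e (nat_lit 164179) (nat_lit 154) .nil)))))) (.g (nat_lit 0) .nil .nil))) 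
(.lf (nat_lit 153385) (.g (nat_lit 4329) (.e (nat_lit 57406) (nat_lit 12) (.e (nat_lit 336454) (nat_lit 34) (.e (nat_lit 483404) (nat_lit 26) (.e (nat_lit 385068) (nat_lit 26) (.e (nat_lit 532504) (nat_lit 1) (.e (nat_lit 57852) (nat_lit 252) .nil)))))) (.g (nat_lit 5) .nil .nil)))) (.nd (nat_lit 5) 
(.lf (nat_lit 153369) (.g (nat_lit 3145) (.e (nat_lit 57406) (nat_lit 12) (.e (nat_lit 336454) (nat_lit 34) (.e (nat_lit 483403) (nat_lit 26) (.e (nat_lit 385066) (nat_lit 26) (.e (nat_lit 532500) (nat_lit 1) (.e (nat_lit 57851) (nat_lit 252) .nil)))))) (.g (nat_lit 6) .nil .nil))) 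
(.lf (nat_lit 153401) (.g (nat_lit 3804) (.e (nat_lit 57406) (nat_lit 12) (.e (nat_lit 336454) (nat_lit 34) (.e (nat_lit 483406) (nat_lit 26) (.e (nat_lit 385066) (nat_lit 26) (.e (nat_lit 532499) (nat_lit 1) (.e (nat_lit 57853) (nat_lit 252) .nil)))))) (.g (nat_lit 6) .nil .nil)))))) (.nd (nat_lit 3) (.nd (nat_lit 4) (.nd (nat_lit 5) 
(.lf (nat_lit 153349) (.g (nat_lit 2667) (.e (nat_lit 57406) (nat_lit 12) (.e (nat_lit 336454) (nat_lit 34) (.e (nat_lit 483394) (nat_lit 24) (.e (nat_lit 344119) (nat_lit 21) (.e (nat_lit 516119) (nat_lit 1) (.e (nat_lit 164179) (nat_lit 154) .nil)))))) (.g (nat_lit 5) .nil .nil))) 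
(.lf (nat_lit 153381) (.g (nat_lit 3938) (.e (nat_lit 57406) (nat_lit 12) (.e (nat_lit 336454) (nat_lit 34) (.e (nat_lit 483403) (nat_lit 26) (.e (nat_lit 385068) (nat_lit 26) (.e (nat_lit 532504) (nat_lit 1) (.e (nat_lit 57852) (nat_lit 252) .nil)))))) (.g (nat_lit 0) .nil .nil)))) (.nd (nat_lit 5) 
(.lf (nat_lit 153365) (.g (nat_lit 1215) (.e (nat_lit 57406) (nat_lit 12) (.e (nat_lit 336454) (nat_lit 34) (.e (nat_lit 483403) (nat_lit 26) (.e (nat_lit 385064) (nat_lit 26) .nil)))) .nil)) 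
(.lf (nat_lit 153397) (.g (nat_lit 2839) (.e (nat_lit 57406) (nat_lit 12) (.e (nat_lit 336454) (nat_lit 34) (.e (nat_lit 483406) (nat_lit 26) (.e (nat_lit 385064) (nat_lit 26) (.e (nat_lit 532504) (nat_lit 1) (.e (nat_lit 57851) (nat_lit 252) .nil)))))) (.g (nat_lit 6) .nil .nil))))) (.nd (nat_lit 4) (.nd (nat_lit 5) 
(.lf (nat_lit 153357) (.g (nat_lit 2991) (.e (nat_lit 57406) (nat_lit 12) (.e (nat_lit 336454) (nat_lit 34) (.e (nat_lit 483399) (nat_lit 25) (.e (nat_lit 368676) (nat_lit 21) (.e (nat_lit 516119) (nat_lit 1) (.e (nat_lit 164179) (nat_lit 154) .nil)))))) (.g (nat_lit 0) .nil .nil))) 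
(.lf (nat_lit 153389) (.g (nat_lit 3246) (.e (nat_lit 57406) (nat_lit 12) (.e (nat_lit 336454) (nat_lit 34) (.e (nat_lit 483405) (nat_lit 26) (.e (nat_lit 385066) (nat_lit 26) (.e (nat_lit 532499) (nat_lit 1) (.e (nat_lit 57853) (nat_lit 252) .nil)))))) (.g (nat_lit 5) .nil .nil)))) (.nd (nat_lit 5) 
(.lf (nat_lit 153373) (.g (nat_lit 2898) (.e (nat_lit 57406) (nat_lit 12) (.e (nat_lit 336454) (nat_lit 34) (.e (nat_lit 483403) (nat_lit 26) (.e (nat_lit 385066) (nat_lit 26) (.e (nat_lit 532504) (nat_lit 1) (.e (nat_lit 57851) (nat_lit 252) .nil)))))) (.g (nat_lit 0) .nil .nil))) 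
(.lf (nat_lit 153405) (.g (nat_lit 2438) (.e (nat_lit 57406) (nat_lit 12) (.e (nat_lit 336454) (nat_lit 34) (.e (nat_lit 483406) (nat_lit 26) (.e (nat_lit 385066) (nat_lit 26) (.e (nat_lit 532503) (nat_lit 1) (.e (nat_lit 57854) (nat_lit 252) .nil)))))) (.g (nat_lit 4) .nil .nil))))))) (.nd (nat_lit 2) (.nd (nat_lit 3) (.nd (nat_lit 4) (.nd (nat_lit 5) 
(.lf (nat_lit 153347) (.g (nat_lit 3620) (.e (nat_lit 57406) (nat_lit 12) (.e (nat_lit 336454) (nat_lit 34) (.e (nat_lit 483394) (nat_lit 24) (.e (nat_lit 344117) (nat_lit 21) (.e (nat_lit 516115) (nat_lit 1) (.e (nat_lit 164179) (nat_lit 154) .nil)))))) (.g (nat_lit 0) .nil .nil))) 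
(.lf (nat_lit 153379) (.g (nat_lit 2346) (.e (nat_lit 57406) (nat_lit 12) (.e (nat_lit 336454) (nat_lit 34) (.e (nat_lit 483403) (nat_lit 26) (.e (nat_lit 385068) (nat_lit 26) (.e (nat_lit 532503) (nat_lit 1) (.e (nat_lit 57844) (nat_lit 252) .nil)))))) (.g (nat_lit 4) .nil .nil)))) (.nd (nat_lit 5) 
(.lf (nat_lit 153363) (.g (nat_lit 2513) (.e (nat_lit 57406) (nat_lit 12) (.e (nat_lit 336454) (nat_lit 34) (.e (nat_lit 483402) (nat_lit 26) (.e (nat_lit 385068) (nat_lit 26) (.e (nat_lit 532499) (nat_lit 1) (.e (nat_lit 57854) (nat_lit 252) .nil)))))) (.g (nat_lit 4) .nil .nil))) 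
(.lf (nat_lit 153395) (.g (nat_lit 3752) (.e (nat_lit 57406) (nat_lit 12) (.e (nat_lit 336454) (nat_lit 34) (.e (nat_lit 483405) (nat_lit 26) (.e (nat_lit 385068) (nat_lit 26) (.e (nat_lit 532504) (nat_lit 1) (.e (nat_lit 57852) (nat_lit 252) .nil)))))) (.g (nat_lit 0) .nil .nil))))) (.nd (nat_lit 4) (.nd (nat_lit 5) 
(.lf (nat_lit 153355) (.g (nat_lit 3090) (.e (nat_lit 57406) (nat_lit 12) (.e (nat_lit 336454) (nat_lit 34) (.e (nat_lit 483399) (nat_lit 25) (.e (nat_lit 368676) (nat_lit 21) (.e (nat_lit 516115) (nat_lit 1) (.e (nat_lit 164179) (nat_lit 154) .nil)))))) (.g (nat_lit 0) .nil .nil))) 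
(.lf (nat_lit 153387) (.g (nat_lit 3788) (.e (nat_lit 57406) (nat_lit 12) (.e (nat_lit 336454) (nat_lit 34) (.e (nat_lit 483404) (nat_lit 26) (.e (nat_lit 385068) (nat_lit 26) (.e (nat_lit 532504) (nat_lit 1) (.e (nat_lit 57854) (nat_lit 252) .nil)))))) (.g (nat_lit 4) .nil .nil)))) (.nd (nat_lit 5) 
(.lf (nat_lit 153371) (.g (nat_lit 3572) (.e (nat_lit 57406) (nat_lit 12) (.e (nat_lit 336454) (nat_lit 34) (.e (nat_lit 483403) (nat_lit 26) (.e (nat_lit 385066) (nat_lit 26) (.e (nat_lit 532502) (nat_lit 1) (.e (nat_lit 57853) (nat_lit 252) .nil)))))) (.g (nat_lit 0) .nil .nil))) 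
(.lf (nat_lit 153403) (.g (nat_lit 3656) (.e (nat_lit 57406) (nat_lit 12) (.e (nat_lit 336454) (nat_lit 34) (.e (nat_lit 483406) (nat_lit 26) (.e (nat_lit 385066) (nat_lit 26) (.e (nat_lit 532502) (nat_lit 1) (.e (nat_lit 57852) (nat_lit 252) .nil)))))) (.g (nat_lit 0) .nil .nil)))))) (.nd (nat_lit 3) (.nd (nat_lit 4) (.nd (nat_lit 5) 
(.lf (nat_lit 153351) (.g (nat_lit 2584) (.e (nat_lit 57406) (nat_lit 12) (.e (nat_lit 336454) (nat_lit 34) (.e (nat_lit 483397) (nat_lit 25) (.e (nat_lit 368676) (nat_lit 21) (.e (nat_lit 516119) (nat_lit 1) (.e (nat_lit 164179) (nat_lit 154) .nil)))))) (.g (nat_lit 4) .nil .nil))) 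
(.lf (nat_lit 153383) (.g (nat_lit 3598) (.e (nat_lit 57406) (nat_lit 12) (.e (nat_lit 336454) (nat_lit 34) (.e (nat_lit 483404) (nat_lit 26) (.e (nat_lit 385066) (nat_lit 26) (.e (nat_lit 532501) (nat_lit 1) (.e (nat_lit 57852) (nat_lit 252) .nil)))))) (.g (nat_lit 4) .nil .nil)))) (.nd (nat_lit 5) 
(.lf (nat_lit 153367) (.g (nat_lit 2721) (.e (nat_lit 57406) (nat_lit 12) (.e (nat_lit 336454) (nat_lit 34) (.e (nat_lit 483403) (nat_lit 26) (.e (nat_lit 385066) (nat_lit 26) (.e (nat_lit 532499) (nat_lit 1) (.e (nat_lit 57851) (nat_lit 252) .nil)))))) (.g (nat_lit 5) .nil .nil))) 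
(.lf (nat_lit 153399) (.g (nat_lit 2463) (.e (nat_lit 57406) (nat_lit 12) (.e (nat_lit 336454) (nat_lit 34) (.e (nat_lit 483406) (nat_lit 26) (.e (nat_lit 385066) (nat_lit 26) (.e (nat_lit 532498) (nat_lit 1) .nil))))) .nil)))) (.nd (nat_lit 4) (.nd (nat_lit 5) 
(.lf (nat_lit 153359) (.g (nat_lit 2486) (.e (nat_lit 57406) (nat_lit 12) (.e (nat_lit 336454) (nat_lit 34) (.e (nat_lit 483401) (nat_lit 25) (.e (nat_lit 368676) (nat_lit 21) (.e (nat_lit 516115) (nat_lit 1) (.e (nat_lit 164179) (nat_lit 154) .nil)))))) (.g (nat_lit 5) .nil .nil))) 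
(.lf (nat_lit 153391) (.g (nat_lit 2914) (.e (nat_lit 57406) (nat_lit 12) (.e (nat_lit 336454) (nat_lit 34) (.e (nat_lit 483405) (nat_lit 26) (.e (nat_lit 385066) (nat_lit 26) (.e (nat_lit 532502) (nat_lit 1) (.e (nat_lit 57854) (nat_lit 252) .nil)))))) (.g (nat_lit 6) .nil .nil)))) (.nd (nat_lit 5) 
(.lf (nat_lit 153375) (.g (nat_lit 2533) (.e (nat_lit 57406) (nat_lit 12) (.e (nat_lit 336454) (nat_lit 34) (.e (nat_lit 483403) (nat_lit 26) (.e (nat_lit 385067) (nat_lit 26) (.e (nat_lit 532501) (nat_lit 1) (.e (nat_lit 57851) (nat_lit 252) .nil)))))) (.g (nat_lit 6) .nil .nil))) 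
(.lf (nat_lit 153407) (.g (nat_lit 3668) (.e (nat_lit 57406) (nat_lit 12) (.e (nat_lit 336454) (nat_lit 34) (.e (nat_lit 483406) (nat_lit 26) (.e (nat_lit 385066) (nat_lit 26) (.e (nat_lit 532504) (nat_lit 1) (.e (nat_lit 57853) (nat_lit 252) .nil)))))) (.g (nat_lit 0) .nil .nil)))))))))

noncomputable def tv2044 : DT := (.nd (nat_lit 0) (.nd (nat_lit 1) (.nd (nat_lit 2) (.nd (nat_lit 3) (.nd (nat_lit 4) (.nd (nat_lit 5) 
(.lf (nat_lit 153408) (.g (nat_lit 2941) (.e (nat_lit 57406) (nat_lit 12) (.e (nat_lit 336454) (nat_lit 34) (.e (nat_lit 483406) (nat_lit 26) (.e (nat_lit 385067) (nat_lit 26) (.e (nat_lit 532501) (nat_lit 1) (.e (nat_lit 57851) (nat_lit 252) .nil)))))) (.g (nat_lit 0) .nil .nil))) 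
(.lf (nat_lit 153440) (.g (nat_lit 2357) (.e (nat_lit 57406) (nat_lit 12) (.e (nat_lit 336454) (nat_lit 34) (.e (nat_lit 483408) (nat_lit 26) (.e (nat_lit 385068) (nat_lit 26) (.e (nat_lit 532500) (nat_lit 1) (.e (nat_lit 57854) (nat_lit 252) .nil)))))) (.g (nat_lit 4) .nil .nil)))) (.nd (nat_lit 5) 
(.lf (nat_lit 153424) (.g (nat_lit 3359) (.e (nat_lit 57406) (nat_lit 12) (.e (nat_lit 336454) (nat_lit 34) (.e (nat_lit 483407) (nat_lit 26) (.e (nat_lit 385066) (nat_lit 26) (.e (nat_lit 532504) (nat_lit 1) (.e (nat_lit 57854) (nat_lit 252) .nil)))))) (.g (nat_lit 6) .nil .nil))) 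
(.lf (nat_lit 153456) (.g (nat_lit 2355) (.e (nat_lit 57406) (nat_lit 12) (.e (nat_lit 336455) (nat_lit 34) (.e (nat_lit 483406) (nat_lit 26) (.e (nat_lit 385067) (nat_lit 26) (.e (nat_lit 532504) (nat_lit 1) (.e (nat_lit 57851) (nat_lit 252) .nil)))))) (.g (nat_lit 4) .nil .nil))))) (.nd (nat_lit 4) (.nd (nat_lit 5) 
(.lf (nat_lit 153416) (.g (nat_lit 3884) (.e (nat_lit 57406) (nat_lit 12) (.e (nat_lit 336454) (nat_lit 34) (.e (nat_lit 483406) (nat_lit 26) (.e (nat_lit 385068) (nat_lit 26) (.e (nat_lit 532504) (nat_lit 1) (.e (nat_lit 57853) (nat_lit 252) .nil)))))) (.g (nat_lit 0) .nil .nil))) 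
(.lf (nat_lit 153448) (.g (nat_lit 3645) (.e (nat_lit 57406) (nat_lit 12) (.e (nat_lit 336455) (nat_lit 34) (.e (nat_lit 483383) (nat_lit 23) (.e (nat_lit 336324) (nat_lit 18) (.e (nat_lit 204830) (nat_lit 18) (.e (nat_lit 57852) (nat_lit 252) .nil)))))) (.g (nat_lit 5) .nil .nil)))) (.nd (nat_lit 5) 
(.lf (nat_lit 153432) (.g (nat_lit 2182) (.e (nat_lit 57406) (nat_lit 12) (.e (nat_lit 336454) (nat_lit 34) (.e (nat_lit 483408) (nat_lit 26) (.e (nat_lit 385066) (nat_lit 26) (.e (nat_lit 532503) (nat_lit 1) (.e (nat_lit 57854) (nat_lit 252) .nil)))))) (.g (nat_lit 4) .nil .nil))) 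
(.lf (nat_lit 153464) (.g (nat_lit 2409) (.e (nat_lit 57406) (nat_lit 12) (.e (nat_lit 336456) (nat_lit 34) (.e (nat_lit 483372) (nat_lit 21) (.e (nat_lit 319504) (nat_lit 10) (.e (nat_lit 577) (nat_lit 43) .nil))))) .nil))))) (.nd (nat_lit 3) (.nd (nat_lit 4) (.nd (nat_lit 5) 
(.lf (nat_lit 153412) (.g (nat_lit 2613) (.e (nat_lit 57406) (nat_lit 12) (.e (nat_lit 336454) (nat_lit 34) (.e (nat_lit 483406) (nat_lit 26) (.e (nat_lit 385068) (nat_lit 26) (.e (nat_lit 532501) (nat_lit 1) (.e (nat_lit 57852) (nat_lit 252) .nil)))))) (.g (nat_lit 4) .nil .nil))) 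
(.lf (nat_lit 153444) (.g (nat_lit 2442) (.e (nat_lit 57406) (nat_lit 12) (.e (nat_lit 336454) (nat_lit 34) (.e (nat_lit 483413) (nat_lit 27) (.e (nat_lit 401427) (nat_lit 3) .nil)))) .nil))) (.nd (nat_lit 5) 
(.lf (nat_lit 153428) (.g (nat_lit 2706) (.e (nat_lit 57406) (nat_lit 12) (.e (nat_lit 336454) (nat_lit 34) (.e (nat_lit 483408) (nat_lit 26) (.e (nat_lit 385065) (nat_lit 26) (.e (nat_lit 532499) (nat_lit 1) (.e (nat_lit 57854) (nat_lit 252) .nil)))))) (.g (nat_lit 5) .nil .nil))) 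
(.lf (nat_lit 153460) (.g (nat_lit 2208) (.e (nat_lit 57406) (nat_lit 12) (.e (nat_lit 336456) (nat_lit 34) (.e (nat_lit 483372) (nat_lit 21) (.e (nat_lit 319490) (nat_lit 0) (.e (nat_lit 595) (nat_lit 45) .nil))))) .nil)))) (.nd (nat_lit 4) (.nd (nat_lit 5) 
(.lf (nat_lit 153420) (.g (nat_lit 3086) (.e (nat_lit 57406) (nat_lit 12) (.e (nat_lit 336454) (nat_lit 34) (.e (nat_lit 483407) (nat_lit 26) (.e (nat_lit 385066) (nat_lit 26) (.e (nat_lit 532502) (nat_lit 1) (.e (nat_lit 57852) (nat_lit 252) .nil)))))) (.g (nat_lit 6) .nil .nil))) 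
(.lf (nat_lit 153452) (.g (nat_lit 3425) (.e (nat_lit 57406) (nat_lit 12) (.e (nat_lit 336455) (nat_lit 34) (.e (nat_lit 483406) (nat_lit 26) (.e (nat_lit 385066) (nat_lit 26) (.e (nat_lit 532501) (nat_lit 1) (.e (nat_lit 57852) (nat_lit 252) .nil)))))) (.g (nat_lit 5) .nil .nil)))) (.nd (nat_lit 5) 
(.lf (nat_lit 153436) (.g (nat_lit 3192) (.e (nat_lit 57406) (nat_lit 12) (.e (nat_lit 336454) (nat_lit 34) (.e (nat_lit 483408) (nat_lit 26) (.e (nat_lit 385067) (nat_lit 26) (.e (nat_lit 532503) (nat_lit 1) (.e (nat_lit 57854) (nat_lit 252) .nil)))))) (.g (nat_lit 6) .nil .nil))) 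
(.lf (nat_lit 153468) (.g (nat_lit 1617) (.e (nat_lit 57406) (nat_lit 12) (.e (nat_lit 336456) (nat_lit 34) (.e (nat_lit 483378) (nat_lit 23) (.e (nat_lit 336322) (nat_lit 18) (.e (nat_lit 204830) (nat_lit 18) (.e (nat_lit 57851) (nat_lit 252) .nil)))))) (.g (nat_lit 4) .nil .nil))))))) (.nd (nat_lit 2) (.nd (nat_lit 3) (.nd (nat_lit 4) (.nd (nat_lit 5) 
(.lf (nat_lit 153410) (.g (nat_lit 2562) (.e (nat_lit 57406) (nat_lit 12) (.e (nat_lit 336454) (nat_lit 34) (.e (nat_lit 483406) (nat_lit 26) (.e (nat_lit 385068) (nat_lit 26) (.e (nat_lit 532499) (nat_lit 1) (.e (nat_lit 57854) (nat_lit 252) .nil)))))) (.g (nat_lit 4) .nil .nil))) 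
(.lf (nat_lit 153442) (.g (nat_lit 3984) (.e (nat_lit 57406) (nat_lit 12) (.e (nat_lit 336454) (nat_lit 34) (.e (nat_lit 483408) (nat_lit 26) (.e (nat_lit 385068) (nat_lit 26) (.e (nat_lit 532504) (nat_lit 1) (.e (nat_lit 57852) (nat_lit 252) .nil)))))) (.g (nat_lit 0) .nil .nil)))) (.nd (nat_lit 5) 
(.lf (nat_lit 153426) (.g (nat_lit 3659) (.e (nat_lit 57406) (nat_lit 12) (.e (nat_lit 336454) (nat_lit 34) (.e (nat_lit 483407) (nat_lit 26) (.e (nat_lit 385068) (nat_lit 26) (.e (nat_lit 532504) (nat_lit 1) (.e (nat_lit 57852) (nat_lit 252) .nil)))))) (.g (nat_lit 0) .nil .nil))) 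
(.lf (nat_lit 153458) (.g (nat_lit 2565) (.e (nat_lit 57406) (nat_lit 12) (.e (nat_lit 336455) (nat_lit 34) (.e (nat_lit 483406) (nat_lit 26) (.e (nat_lit 385068) (nat_lit 26) (.e (nat_lit 532501) (nat_lit 1) (.e (nat_lit 57854) (nat_lit 252) .nil)))))) (.g (nat_lit 4) .nil .nil))))) (.nd (nat_lit 4) (.nd (nat_lit 5) 
(.lf (nat_lit 153418) (.g (nat_lit 3400) (.e (nat_lit 57406) (nat_lit 12) (.e (nat_lit 336454) (nat_lit 34) (.e (nat_lit 483407) (nat_lit 26) (.e (nat_lit 385066) (nat_lit 26) (.e (nat_lit 532499) (nat_lit 1) (.e (nat_lit 57854) (nat_lit 252) .nil)))))) (.g (nat_lit 6) .nil .nil))) 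
(.lf (nat_lit 153450) (.g (nat_lit 1827) (.e (nat_lit 57406) (nat_lit 12) (.e (nat_lit 336455) (nat_lit 34) (.e (nat_lit 483405) (nat_lit 26) (.e (nat_lit 385067) (nat_lit 26) (.e (nat_lit 532501) (nat_lit 1) (.e (nat_lit 57851) (nat_lit 252) .nil)))))) (.g (nat_lit 5) .nil .nil)))) (.nd (nat_lit 5) 
(.lf (nat_lit 153434) (.g (nat_lit 1660) (.e (nat_lit 57406) (nat_lit 12) (.e (nat_lit 336454) (nat_lit 34) (.e (nat_lit 483408) (nat_lit 26) (.e (nat_lit 385067) (nat_lit 26) (.e (nat_lit 532502) (nat_lit 1) (.e (nat_lit 57852) (nat_lit 252) .nil)))))) (.g (nat_lit 4) .nil .nil))) 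
(.lf (nat_lit 153466) (.g (nat_lit 690) (.e (nat_lit 57406) (nat_lit 12) (.e (nat_lit 336456) (nat_lit 34) (.e (nat_lit 483376) (nat_lit 22) .nil))) .nil))))) (.nd (nat_lit 3) (.nd (nat_lit 4) (.nd (nat_lit 5) 
(.lf (nat_lit 153414) (.g (nat_lit 3337) (.e (nat_lit 57406) (nat_lit 12) (.e (nat_lit 336454) (nat_lit 34) (.e (nat_lit 483406) (nat_lit 26) (.e (nat_lit 385068) (nat_lit 26) (.e (nat_lit 532504) (nat_lit 1) (.e (nat_lit 57851) (nat_lit 252) .nil)))))) (.g (nat_lit 0) .nil .nil))) 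
(.lf (nat_lit 153446) (.g (nat_lit 2799) (.e (nat_lit 57406) (nat_lit 12) (.e (nat_lit 336455) (nat_lit 34) (.e (nat_lit 483380) (nat_lit 23) (.e (nat_lit 336326) (nat_lit 18) (.e (nat_lit 204830) (nat_lit 18) (.e (nat_lit 57854) (nat_lit 252) .nil)))))) (.g (nat_lit 5) .nil .nil)))) (.nd (nat_lit 5) 
(.lf (nat_lit 153430) (.g (nat_lit 1904) (.e (nat_lit 57406) (nat_lit 12) (.e (nat_lit 336454) (nat_lit 34) (.e (nat_lit 483408) (nat_lit 26) (.e (nat_lit 385065) (nat_lit 26) (.e (nat_lit 532502) (nat_lit 1) (.e (nat_lit 57854) (nat_lit 252) .nil)))))) (.g (nat_lit 4) .nil .nil))) 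
(.lf (nat_lit 153462) (.g (nat_lit 2075) (.e (nat_lit 57406) (nat_lit 12) (.e (nat_lit 336456) (nat_lit 34) (.e (nat_lit 483372) (nat_lit 21) (.e (nat_lit 319491) (nat_lit 0) .nil)))) .nil)))) (.nd (nat_lit 4) (.nd (nat_lit 5) 
(.lf (nat_lit 153422) (.g (nat_lit 3634) (.e (nat_lit 57406) (nat_lit 12) (.e (nat_lit 336454) (nat_lit 34) (.e (nat_lit 483407) (nat_lit 26) (.e (nat_lit 385066) (nat_lit 26) (.e (nat_lit 532504) (nat_lit 1) (.e (nat_lit 57852) (nat_lit 252) .nil)))))) (.g (nat_lit 6) .nil .nil))) 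
(.lf (nat_lit 153454) (.g (nat_lit 2757) (.e (nat_lit 57406) (nat_lit 12) (.e (nat_lit 336455) (nat_lit 34) (.e (nat_lit 483406) (nat_lit 26) (.e (nat_lit 385066) (nat_lit 26) (.e (nat_lit 532504) (nat_lit 1) (.e (nat_lit 57852) (nat_lit 252) .nil)))))) (.g (nat_lit 4) .nil .nil)))) (.nd (nat_lit 5) 
(.lf (nat_lit 153438) (.g (nat_lit 3731) (.e (nat_lit 57406) (nat_lit 12) (.e (nat_lit 336454) (nat_lit 34) (.e (nat_lit 483408) (nat_lit 26) (.e (nat_lit 385067) (nat_lit 26) (.e (nat_lit 532504) (nat_lit 1) (.e (nat_lit 57854) (nat_lit 252) .nil)))))) (.g (nat_lit 0) .nil .nil))) 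
(.lf (nat_lit 153470) (.g (nat_lit 3396) (.e (nat_lit 57406) (nat_lit 12) (.e (nat_lit 336456) (nat_lit 34) (.e (nat_lit 483378) (nat_lit 23) (.e (nat_lit 336326) (nat_lit 18) (.e (nat_lit 204830) (nat_lit 18) (.e (nat_lit 57854) (nat_lit 252) .nil)))))) (.g (nat_lit 6) .nil .nil)))))))) (.nd (nat_lit 1) (.nd (nat_lit 2) (.nd (nat_lit 3) (.nd (nat_lit 4) (.nd (nat_lit 5) 
(.lf (nat_lit 153409) (.g (nat_lit 3069) (.e (nat_lit 57406) (nat_lit 12) (.e (nat_lit 336454) (nat_lit 34) (.e (nat_lit 483406) (nat_lit 26) (.e (nat_lit 385067) (nat_lit 26) (.e (nat_lit 532504) (nat_lit 1) (.e (nat_lit 57851) (nat_lit 252) .nil)))))) (.g (nat_lit 0) .nil .nil))) 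
(.lf (nat_lit 153441) (.g (nat_lit 3157) (.e (nat_lit 57406) (nat_lit 12) (.e (nat_lit 336454) (nat_lit 34) (.e (nat_lit 483408) (nat_lit 26) (.e (nat_lit 385068) (nat_lit 26) (.e (nat_lit 532501) (nat_lit 1) (.e (nat_lit 57853) (nat_lit 252) .nil)))))) (.g (nat_lit 4) .nil .nil)))) (.nd (nat_lit 5) 
(.lf (nat_lit 153425) (.g (nat_lit 2918) (.e (nat_lit 57406) (nat_lit 12) (.e (nat_lit 336454) (nat_lit 34) (.e (nat_lit 483407) (nat_lit 26) (.e (nat_lit 385067) (nat_lit 26) (.e (nat_lit 532504) (nat_lit 1) (.e (nat_lit 57851) (nat_lit 252) .nil)))))) (.g (nat_lit 0) .nil .nil))) 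
(.lf (nat_lit 153457) (.g (nat_lit 1808) (.e (nat_lit 57406) (nat_lit 12) (.e (nat_lit 336455) (nat_lit 34) (.e (nat_lit 483406) (nat_lit 26) (.e (nat_lit 385068) (nat_lit 26) (.e (nat_lit 532501) (nat_lit 1) .nil))))) .nil)))) (.nd (nat_lit 4) (.nd (nat_lit 5) 
(.lf (nat_lit 153417) (.g (nat_lit 608) (.e (nat_lit 57406) (nat_lit 12) (.e (nat_lit 336454) (nat_lit 34) (.e (nat_lit 483407) (nat_lit 26) (.e (nat_lit 385065) (nat_lit 26) .nil)))) .nil)) 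
(.lf (nat_lit 153449) (.g (nat_lit 3620) (.e (nat_lit 57406) (nat_lit 12) (.e (nat_lit 336455) (nat_lit 34) (.e (nat_lit 483383) (nat_lit 23) (.e (nat_lit 336324) (nat_lit 18) (.e (nat_lit 204831) (nat_lit 18) (.e (nat_lit 57852) (nat_lit 252) .nil)))))) (.g (nat_lit 5) .nil .nil)))) (.nd (nat_lit 5) 
(.lf (nat_lit 153433) (.g (nat_lit 3412) (.e (nat_lit 57406) (nat_lit 12) (.e (nat_lit 336454) (nat_lit 34) (.e (nat_lit 483408) (nat_lit 26) (.e (nat_lit 385067) (nat_lit 26) (.e (nat_lit 532501) (nat_lit 1) (.e (nat_lit 57854) (nat_lit 252) .nil)))))) (.g (nat_lit 0) .nil .nil))) 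
(.lf (nat_lit 153465) (.g (nat_lit 2593) (.e (nat_lit 57406) (nat_lit 12) (.e (nat_lit 336456) (nat_lit 34) (.e (nat_lit 483372) (nat_lit 21) (.e (nat_lit 319504) (nat_lit 10) (.e (nat_lit 612) (nat_lit 47) .nil))))) .nil))))) (.nd (nat_lit 3) (.nd (nat_lit 4) (.nd (nat_lit 5) 
(.lf (nat_lit 153413) (.g (nat_lit 2280) (.e (nat_lit 57406) (nat_lit 12) (.e (nat_lit 336454) (nat_lit 34) (.e (nat_lit 483406) (nat_lit 26) (.e (nat_lit 385068) (nat_lit 26) (.e (nat_lit 532503) (nat_lit 1) (.e (nat_lit 57844) (nat_lit 252) .nil)))))) (.g (nat_lit 4) .nil .nil))) 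
(.lf (nat_lit 153445) (.g (nat_lit 3169) (.e (nat_lit 57406) (nat_lit 12) (.e (nat_lit 336455) (nat_lit 34) (.e (nat_lit 483380) (nat_lit 23) (.e (nat_lit 336324) (nat_lit 18) (.e (nat_lit 204830) (nat_lit 18) (.e (nat_lit 57852) (nat_lit 252) .nil)))))) (.g (nat_lit 4) .nil .nil)))) (.nd (nat_lit 5) 
(.lf (nat_lit 153429) (.g (nat_lit 2034) (.e (nat_lit 57406) (nat_lit 12) (.e (nat_lit 336454) (nat_lit 34) (.e (nat_lit 483408) (nat_lit 26) (.e (nat_lit 385065) (nat_lit 26) (.e (nat_lit 532502) (nat_lit 1) (.e (nat_lit 57852) (nat_lit 252) .nil)))))) (.g (nat_lit 5) .nil .nil))) 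
(.lf (nat_lit 153461) (.g (nat_lit 2490) (.e (nat_lit 57406) (nat_lit 12) (.e (nat_lit 336456) (nat_lit 34) (.e (nat_lit 483372) (nat_lit 21) (.e (nat_lit 319490) (nat_lit 0) (.e (nat_lit 595) (nat_lit 45) (.e (nat_lit 532490) (nat_lit 0) (.e (nat_lit 1012) (nat_lit 81) (.e (nat_lit 7265) (nat_lit 384) .nil)))))))) (.g (nat_lit 4) .nil .nil))))) (.nd (nat_lit 4) (.nd (nat_lit 5) 
(.lf (nat_lit 153421) (.g (nat_lit 3047) (.e (nat_lit 57406) (nat_lit 12) (.e (nat_lit 336454) (nat_lit 34) (.e (nat_lit 483407) (nat_lit 26) (.e (nat_lit 385066) (nat_lit 26) (.e (nat_lit 532502) (nat_lit 1) (.e (nat_lit 57854) (nat_lit 252) .nil)))))) (.g (nat_lit 6) .nil .nil))) 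
(.lf (nat_lit 153453) (.g (nat_lit 2915) (.e (nat_lit 57406) (nat_lit 12) (.e (nat_lit 336455) (nat_lit 34) (.e (nat_lit 483406) (nat_lit 26) (.e (nat_lit 385066) (nat_lit 26) (.e (nat_lit 532502) (nat_lit 1) (.e (nat_lit 57854) (nat_lit 252) .nil)))))) (.g (nat_lit 4) .nil .nil)))) (.nd (nat_lit 5) 
(.lf (nat_lit 153437) (.g (nat_lit 3875) (.e (nat_lit 57406) (nat_lit 12) (.e (nat_lit 336454) (nat_lit 34) (.e (nat_lit 483408) (nat_lit 26) (.e (nat_lit 385067) (nat_lit 26) (.e (nat_lit 532504) (nat_lit 1) (.e (nat_lit 57852) (nat_lit 252) .nil)))))) (.g (nat_lit 0) .nil .nil))) 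
(.lf (nat_lit 153469) (.g (nat_lit 2757) (.e (nat_lit 57406) (nat_lit 12) (.e (nat_lit 336456) (nat_lit 34) (.e (nat_lit 483378) (nat_lit 23) (.e (nat_lit 336326) (nat_lit 18) (.e (nat_lit 204830) (nat_lit 18) (.e (nat_lit 57851) (nat_lit 252) .nil)))))) (.g (nat_lit 5) .nil .nil))))))) (.nd (nat_lit 2) (.nd (nat_lit 3) (.nd (nat_lit 4) (.nd (nat_lit 5) 
(.lf (nat_lit 153411) (.g (nat_lit 2474) (.e (nat_lit 57406) (nat_lit 12) (.e (nat_lit 336454) (nat_lit 34) (.e (nat_lit 483406) (nat_lit 26) (.e (nat_lit 385068) (nat_lit 26) (.e (nat_lit 532501) (nat_lit 1) (.e (nat_lit 57844) (nat_lit 252) .nil)))))) (.g (nat_lit 4) .nil .nil))) 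
(.lf (nat_lit 153443) (.g (nat_lit 3344) (.e (nat_lit 57406) (nat_lit 12) (.e (nat_lit 336454) (nat_lit 34) (.e (nat_lit 483408) (nat_lit 26) (.e (nat_lit 385068) (nat_lit 26) (.e (nat_lit 532504) (nat_lit 1) (.e (nat_lit 57853) (nat_lit 252) .nil)))))) (.g (nat_lit 4) .nil .nil)))) (.nd (nat_lit 5) 
(.lf (nat_lit 153427) (.g (nat_lit 3379) (.e (nat_lit 57406) (nat_lit 12) (.e (nat_lit 336454) (nat_lit 34) (.e (nat_lit 483407) (nat_lit 26) (.e (nat_lit 385068) (nat_lit 26) (.e (nat_lit 532504) (nat_lit 1) (.e (nat_lit 57854) (nat_lit 252) .nil)))))) (.g (nat_lit 0) .nil .nil))) 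
(.lf (nat_lit 153459) (.g (nat_lit 424) (.e (nat_lit 57406) (nat_lit 12) (.e (nat_lit 336456) (nat_lit 34) (.e (nat_lit 483350) (nat_lit 17) .nil))) .nil)))) (.nd (nat_lit 4) (.nd (nat_lit 5) 
(.lf (nat_lit 153419) (.g (nat_lit 3187) (.e (nat_lit 57406) (nat_lit 12) (.e (nat_lit 336454) (nat_lit 34) (.e (nat_lit 483407) (nat_lit 26) (.e (nat_lit 385066) (nat_lit 26) (.e (nat_lit 532501) (nat_lit 1) (.e (nat_lit 57854) (nat_lit 252) .nil)))))) (.g (nat_lit 6) .nil .nil))) 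
(.lf (nat_lit 153451) (.g (nat_lit 1965) (.e (nat_lit 57406) (nat_lit 12) (.e (nat_lit 336455) (nat_lit 34) (.e (nat_lit 483405) (nat_lit 26) (.e (nat_lit 385067) (nat_lit 26) (.e (nat_lit 532504) (nat_lit 1) (.e (nat_lit 57851) (nat_lit 252) .nil)))))) (.g (nat_lit 5) .nil .nil)))) (.nd (nat_lit 5) 
(.lf (nat_lit 153435) (.g (nat_lit 3028) (.e (nat_lit 57406) (nat_lit 12) (.e (nat_lit 336454) (nat_lit 34) (.e (nat_lit 483408) (nat_lit 26) (.e (nat_lit 385067) (nat_lit 26) (.e (nat_lit 532503) (nat_lit 1) (.e (nat_lit 57853) (nat_lit 252) .nil)))))) (.g (nat_lit 4) .nil .nil))) 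
(.lf (nat_lit 153467) (.g (nat_lit 762) (.e (nat_lit 57406) (nat_lit 12) (.e (nat_lit 336456) (nat_lit 34) (.e (nat_lit 483377) (nat_lit 22) .nil))) .nil))))) (.nd (nat_lit 3) (.nd (nat_lit 4) (.nd (nat_lit 5) 
(.lf (nat_lit 153415) (.g (nat_lit 4219) (.e (nat_lit 57406) (nat_lit 12) (.e (nat_lit 336454) (nat_lit 34) (.e (nat_lit 483406) (nat_lit 26) (.e (nat_lit 385068) (nat_lit 26) (.e (nat_lit 532504) (nat_lit 1) (.e (nat_lit 57852) (nat_lit 252) .nil)))))) (.g (nat_lit 0) .nil .nil))) 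
(.lf (nat_lit 153447) (.g (nat_lit 1839) (.e (nat_lit 57406) (nat_lit 12) (.e (nat_lit 336455) (nat_lit 34) (.e (nat_lit 483382) (nat_lit 23) (.e (nat_lit 336326) (nat_lit 18) (.e (nat_lit 204830) (nat_lit 18) (.e (nat_lit 57854) (nat_lit 252) .nil)))))) (.g (nat_lit 4) .nil .nil)))) (.nd (nat_lit 5) 
(.lf (nat_lit 153431) (.g (nat_lit 2346) (.e (nat_lit 57406) (nat_lit 12) (.e (nat_lit 336454) (nat_lit 34) (.e (nat_lit 483408) (nat_lit 26) (.e (nat_lit 385065) (nat_lit 26) (.e (nat_lit 532504) (nat_lit 1) (.e (nat_lit 57852) (nat_lit 252) .nil)))))) (.g (nat_lit 5) .nil .nil))) 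
(.lf (nat_lit 153463) (.g (nat_lit 1649) (.e (nat_lit 57406) (nat_lit 12) (.e (nat_lit 336456) (nat_lit 34) (.e (nat_lit 483372) (nat_lit 21) (.e (nat_lit 319492) (nat_lit 0) .nil)))) .nil)))) (.nd (nat_lit 4) (.nd (nat_lit 5) 
(.lf (nat_lit 153423) (.g (nat_lit 3040) (.e (nat_lit 57406) (nat_lit 12) (.e (nat_lit 336454) (nat_lit 34) (.e (nat_lit 483407) (nat_lit 26) (.e (nat_lit 385066) (nat_lit 26) (.e (nat_lit 532504) (nat_lit 1) (.e (nat_lit 57853) (nat_lit 252) .nil)))))) (.g (nat_lit 4) .nil .nil))) 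
(.lf (nat_lit 153455) (.g (nat_lit 2230) (.e (nat_lit 57406) (nat_lit 12) (.e (nat_lit 336455) (nat_lit 34) (.e (nat_lit 483406) (nat_lit 26) (.e (nat_lit 385067) (nat_lit 26) (.e (nat_lit 532501) (nat_lit 1) (.e (nat_lit 57851) (nat_lit 252) .nil)))))) (.g (nat_lit 4) .nil .nil)))) (.nd (nat_lit 5) 
(.lf (nat_lit 153439) (.g (nat_lit 3136) (.e (nat_lit 57406) (nat_lit 12) (.e (nat_lit 336454) (nat_lit 34) (.e (nat_lit 483408) (nat_lit 26) (.e (nat_lit 385068) (nat_lit 26) (.e (nat_lit 532499) (nat_lit 1) (.e (nat_lit 57854) (nat_lit 252) .nil)))))) (.g (nat_lit 5) .nil .nil))) 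
(.lf (nat_lit 153471) (.g (nat_lit 2506) (.e (nat_lit 57406) (nat_lit 12) (.e (nat_lit 336456) (nat_lit 34) (.e (nat_lit 483378) (nat_lit 23) (.e (nat_lit 336326) (nat_lit 18) (.e (nat_lit 204831) (nat_lit 18) (.e (nat_lit 57851) (nat_lit 252) .nil)))))) (.g (nat_lit 5) .nil .nil)))))))))

noncomputable def tv2045 : DT := (.nd (nat_lit 0) (.nd (nat_lit 1) (.nd (nat_lit 2) (.nd (nat_lit 3) (.nd (nat_lit 4) (.nd (nat_lit 5) 
(.lf (nat_lit 153472) (.g (nat_lit 3186) (.e (nat_lit 57406) (nat_lit 12) (.e (nat_lit 336456) (nat_lit 34) (.e (nat_lit 483378) (nat_lit 23) (.e (nat_lit 336326) (nat_lit 18) (.e (nat_lit 204831) (nat_lit 18) (.e (nat_lit 57854) (nat_lit 252) .nil)))))) (.g (nat_lit 6) .nil .nil))) 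
(.lf (nat_lit 153504) (.g (nat_lit 2510) (.e (nat_lit 57406) (nat_lit 12) (.e (nat_lit 336456) (nat_lit 34) (.e (nat_lit 483383) (nat_lit 23) (.e (nat_lit 336322) (nat_lit 18) (.e (nat_lit 204830) (nat_lit 18) (.e (nat_lit 57854) (nat_lit 252) .nil)))))) (.g (nat_lit 4) .nil .nil)))) (.nd (nat_lit 5) 
(.lf (nat_lit 153488) (.g (nat_lit 2536) (.e (nat_lit 57406) (nat_lit 12) (.e (nat_lit 336456) (nat_lit 34) (.e (nat_lit 483381) (nat_lit 23) (.e (nat_lit 336324) (nat_lit 18) (.e (nat_lit 204830) (nat_lit 18) (.e (nat_lit 57854) (nat_lit 252) .nil)))))) (.g (nat_lit 5) .nil .nil))) 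
(.lf (nat_lit 153520) (.g (nat_lit 3413) (.e (nat_lit 57406) (nat_lit 12) (.e (nat_lit 336456) (nat_lit 34) (.e (nat_lit 483383) (nat_lit 23) (.e (nat_lit 336326) (nat_lit 18) (.e (nat_lit 204830) (nat_lit 18) (.e (nat_lit 57851) (nat_lit 252) .nil)))))) (.g (nat_lit 0) .nil .nil))))) (.nd (nat_lit 4) (.nd (nat_lit 5) 
(.lf (nat_lit 153480) (.g (nat_lit 3557) (.e (nat_lit 57406) (nat_lit 12) (.e (nat_lit 336456) (nat_lit 34) (.e (nat_lit 483380) (nat_lit 23) (.e (nat_lit 336324) (nat_lit 18) (.e (nat_lit 204830) (nat_lit 18) (.e (nat_lit 57851) (nat_lit 252) .nil)))))) (.g (nat_lit 0) .nil .nil))) 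
(.lf (nat_lit 153512) (.g (nat_lit 4168) (.e (nat_lit 57406) (nat_lit 12) (.e (nat_lit 336456) (nat_lit 34) (.e (nat_lit 483383) (nat_lit 23) (.e (nat_lit 336324) (nat_lit 18) (.e (nat_lit 204831) (nat_lit 18) (.e (nat_lit 57844) (nat_lit 252) .nil)))))) (.g (nat_lit 6) .nil .nil)))) (.nd (nat_lit 5) 
(.lf (nat_lit 153496) (.g (nat_lit 3840) (.e (nat_lit 57406) (nat_lit 12) (.e (nat_lit 336456) (nat_lit 34) (.e (nat_lit 483383) (nat_lit 23) (.e (nat_lit 336019) (nat_lit 3) (.e (nat_lit 98333) (nat_lit 18) (.e (nat_lit 164177) (nat_lit 154) .nil)))))) (.g (nat_lit 0) .nil .nil))) 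
(.lf (nat_lit 153528) (.g (nat_lit 2884) (.e (nat_lit 57406) (nat_lit 12) (.e (nat_lit 336456) (nat_lit 34) (.e (nat_lit 483391) (nat_lit 23) (.e (nat_lit 336017) (nat_lit 3) (.e (nat_lit 98333) (nat_lit 18) (.e (nat_lit 164177) (nat_lit 154) .nil)))))) (.g (nat_lit 0) .nil .nil)))))) (.nd (nat_lit 3) (.nd (nat_lit 4) (.nd (nat_lit 5) 
(.lf (nat_lit 153476) (.g (nat_lit 3409) (.e (nat_lit 57406) (nat_lit 12) (.e (nat_lit 336456) (nat_lit 34) (.e (nat_lit 483379) (nat_lit 23) (.e (nat_lit 336324) (nat_lit 18) (.e (nat_lit 204830) (nat_lit 18) (.e (nat_lit 57854) (nat_lit 252) .nil)))))) (.g (nat_lit 6) .nil .nil))) 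
(.lf (nat_lit 153508) (.g (nat_lit 3407) (.e (nat_lit 57406) (nat_lit 12) (.e (nat_lit 336456) (nat_lit 34) (.e (nat_lit 483383) (nat_lit 23) (.e (nat_lit 336324) (nat_lit 18) (.e (nat_lit 204830) (nat_lit 18) (.e (nat_lit 57844) (nat_lit 252) .nil)))))) (.g (nat_lit 5) .nil .nil)))) (.nd (nat_lit 5) 
(.lf (nat_lit 153492) (.g (nat_lit 2978) (.e (nat_lit 57406) (nat_lit 12) (.e (nat_lit 336456) (nat_lit 34) (.e (nat_lit 483382) (nat_lit 23) (.e (nat_lit 336324) (nat_lit 18) (.e (nat_lit 204831) (nat_lit 18) (.e (nat_lit 57854) (nat_lit 252) .nil)))))) (.g (nat_lit 5) .nil .nil))) 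
(.lf (nat_lit 153524) (.g (nat_lit 3697) (.e (nat_lit 57406) (nat_lit 12) (.e (nat_lit 336456) (nat_lit 34) (.e (nat_lit 483383) (nat_lit 23) (.e (nat_lit 336326) (nat_lit 18) (.e (nat_lit 204831) (nat_lit 18) (.e (nat_lit 57854) (nat_lit 252) .nil)))))) (.g (nat_lit 0) .nil .nil))))) (.nd (nat_lit 4) (.nd (nat_lit 5) 
(.lf (nat_lit 153484) (.g (nat_lit 2794) (.e (nat_lit 57406) (nat_lit 12) (.e (nat_lit 336456) (nat_lit 34) (.e (nat_lit 483380) (nat_lit 23) (.e (nat_lit 336326) (nat_lit 18) (.e (nat_lit 204831) (nat_lit 18) (.e (nat_lit 57846) (nat_lit 252) .nil)))))) (.g (nat_lit 4) .nil .nil))) 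
(.lf (nat_lit 153516) (.g (nat_lit 4445) (.e (nat_lit 57406) (nat_lit 12) (.e (nat_lit 336456) (nat_lit 34) (.e (nat_lit 483383) (nat_lit 23) (.e (nat_lit 336324) (nat_lit 18) (.e (nat_lit 204831) (nat_lit 18) (.e (nat_lit 57854) (nat_lit 252) .nil)))))) (.g (nat_lit 0) .nil .nil)))) (.nd (nat_lit 5) 
(.lf (nat_lit 153500) (.g (nat_lit 3479) (.e (nat_lit 57406) (nat_lit 12) (.e (nat_lit 336456) (nat_lit 34) (.e (nat_lit 483383) (nat_lit 23) (.e (nat_lit 336019) (nat_lit 3) (.e (nat_lit 98335) (nat_lit 18) (.e (nat_lit 164177) (nat_lit 154) .nil)))))) (.g (nat_lit 0) .nil .nil))) 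
(.lf (nat_lit 153532) (.g (nat_lit 386) (.e (nat_lit 57406) (nat_lit 12) (.e (nat_lit 336456) (nat_lit 34) (.e (nat_lit 483393) (nat_lit 23) .nil))) .nil)))))) (.nd (nat_lit 2) (.nd (nat_lit 3) (.nd (nat_lit 4) (.nd (nat_lit 5) 
(.lf (nat_lit 153474) (.g (nat_lit 3224) (.e (nat_lit 57406) (nat_lit 12) (.e (nat_lit 336456) (nat_lit 34) (.e (nat_lit 483379) (nat_lit 23) (.e (nat_lit 336324) (nat_lit 18) (.e (nat_lit 204829) (nat_lit 18) (.e (nat_lit 57854) (nat_lit 252) .nil)))))) (.g (nat_lit 6) .nil .nil))) 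
(.lf (nat_lit 153506) (.g (nat_lit 2878) (.e (nat_lit 57406) (nat_lit 12) (.e (nat_lit 336456) (nat_lit 34) (.e (nat_lit 483383) (nat_lit 23) (.e (nat_lit 336324) (nat_lit 18) (.e (nat_lit 204829) (nat_lit 18) (.e (nat_lit 57853) (nat_lit 252) .nil)))))) (.g (nat_lit 4) .nil .nil)))) (.nd (nat_lit 5) 
(.lf (nat_lit 153490) (.g (nat_lit 2099) (.e (nat_lit 57406) (nat_lit 12) (.e (nat_lit 336456) (nat_lit 34) (.e (nat_lit 483382) (nat_lit 23) (.e (nat_lit 336324) (nat_lit 18) (.e (nat_lit 204830) (nat_lit 18) (.e (nat_lit 57851) (nat_lit 252) .nil)))))) (.g (nat_lit 4) .nil .nil))) 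
(.lf (nat_lit 153522) (.g (nat_lit 2899) (.e (nat_lit 57406) (nat_lit 12) (.e (nat_lit 336456) (nat_lit 34) (.e (nat_lit 483383) (nat_lit 23) (.e (nat_lit 336326) (nat_lit 18) (.e (nat_lit 204831) (nat_lit 18) (.e (nat_lit 57846) (nat_lit 252) .nil)))))) (.g (nat_lit 4) .nil .nil))))) (.nd (nat_lit 4) (.nd (nat_lit 5) 
(.lf (nat_lit 153482) (.g (nat_lit 3294) (.e (nat_lit 57406) (nat_lit 12) (.e (nat_lit 336456) (nat_lit 34) (.e (nat_lit 483380) (nat_lit 23) (.e (nat_lit 336326) (nat_lit 18) (.e (nat_lit 204830) (nat_lit 18) (.e (nat_lit 57851) (nat_lit 252) .nil)))))) (.g (nat_lit 0) .nil .nil))) 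
(.lf (nat_lit 153514) (.g (nat_lit 4477) (.e (nat_lit 57406) (nat_lit 12) (.e (nat_lit 336456) (nat_lit 34) (.e (nat_lit 483383) (nat_lit 23) (.e (nat_lit 336324) (nat_lit 18) (.e (nat_lit 204831) (nat_lit 18) (.e (nat_lit 57852) (nat_lit 252) .nil)))))) (.g (nat_lit 6) .nil .nil)))) (.nd (nat_lit 5) 
(.lf (nat_lit 153498) (.g (nat_lit 3792) (.e (nat_lit 57406) (nat_lit 12) (.e (nat_lit 336456) (nat_lit 34) (.e (nat_lit 483383) (nat_lit 23) (.e (nat_lit 336019) (nat_lit 3) (.e (nat_lit 98334) (nat_lit 18) (.e (nat_lit 164176) (nat_lit 154) .nil)))))) (.g (nat_lit 0) .nil .nil))) 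
(.lf (nat_lit 153530) (.g (nat_lit 2051) (.e (nat_lit 57406) (nat_lit 12) (.e (nat_lit 336456) (nat_lit 34) (.e (nat_lit 483391) (nat_lit 23) (.e (nat_lit 336017) (nat_lit 3) (.e (nat_lit 98335) (nat_lit 18) (.e (nat_lit 164177) (nat_lit 154) .nil)))))) (.g (nat_lit 4) .nil .nil)))))) (.nd (nat_lit 3) (.nd (nat_lit 4) (.nd (nat_lit 5) 
(.lf (nat_lit 153478) (.g (nat_lit 2782) (.e (nat_lit 57406) (nat_lit 12) (.e (nat_lit 336456) (nat_lit 34) (.e (nat_lit 483380) (nat_lit 23) (.e (nat_lit 336324) (nat_lit 18) (.e (nat_lit 204829) (nat_lit 18) (.e (nat_lit 57851) (nat_lit 252) .nil)))))) (.g (nat_lit 5) .nil .nil))) 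
(.lf (nat_lit 153510) (.g (nat_lit 2835) (.e (nat_lit 57406) (nat_lit 12) (.e (nat_lit 336456) (nat_lit 34) (.e (nat_lit 483383) (nat_lit 23) (.e (nat_lit 336324) (nat_lit 18) (.e (nat_lit 204830) (nat_lit 18) (.e (nat_lit 57853) (nat_lit 252) .nil)))))) (.g (nat_lit 4) .nil .nil)))) (.nd (nat_lit 5) 
(.lf (nat_lit 153494) (.g (nat_lit 1847) (.e (nat_lit 57406) (nat_lit 12) (.e (nat_lit 336456) (nat_lit 34) (.e (nat_lit 483382) (nat_lit 23) (.e (nat_lit 336326) (nat_lit 18) (.e (nat_lit 204831) (nat_lit 18) (.e (nat_lit 57851) (nat_lit 252) .nil)))))) (.g (nat_lit 4) .nil .nil))) 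
(.lf (nat_lit 153526) (.g (nat_lit 719) (.e (nat_lit 57406) (nat_lit 12) (.e (nat_lit 336456) (nat_lit 34) (.e (nat_lit 483388) (nat_lit 23) .nil))) .nil)))) (.nd (nat_lit 4) (.nd (nat_lit 5) 
(.lf (nat_lit 153486) (.g (nat_lit 3541) (.e (nat_lit 57406) (nat_lit 12) (.e (nat_lit 336456) (nat_lit 34) (.e (nat_lit 483380) (nat_lit 23) (.e (nat_lit 336326) (nat_lit 18) (.e (nat_lit 204831) (nat_lit 18) (.e (nat_lit 57854) (nat_lit 252) .nil)))))) (.g (nat_lit 0) .nil .nil))) 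
(.lf (nat_lit 153518) (.g (nat_lit 2875) (.e (nat_lit 57406) (nat_lit 12) (.e (nat_lit 336456) (nat_lit 34) (.e (nat_lit 483383) (nat_lit 23) (.e (nat_lit 336325) (nat_lit 18) (.e (nat_lit 204830) (nat_lit 18) (.e (nat_lit 57851) (nat_lit 252) .nil)))))) (.g (nat_lit 6) .nil .nil)))) (.nd (nat_lit 5) 
(.lf (nat_lit 153502) (.g (nat_lit 1949) (.e (nat_lit 57406) (nat_lit 12) (.e (nat_lit 336456) (nat_lit 34) (.e (nat_lit 483383) (nat_lit 23) (.e (nat_lit 336269) (nat_lit 15) .nil)))) .nil)) 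
(.lf (nat_lit 153534) (.g (nat_lit 2568) (.e (nat_lit 57406) (nat_lit 12) (.e (nat_lit 336456) (nat_lit 34) (.e (nat_lit 483393) (nat_lit 23) (.e (nat_lit 336012) (nat_lit 2) (.e (nat_lit 90181) (nat_lit 16) (.e (nat_lit 237312) (nat_lit 0) (.e (nat_lit 6393) (nat_lit 339) .nil))))))) (.g (nat_lit 4) .nil .nil)))))))) 
(.nd (nat_lit 1) (.nd (nat_lit 2) (.nd (nat_lit 3) (.nd (nat_lit 4) (.nd (nat_lit 5) 
(.lf (nat_lit 153473) (.g (nat_lit 3026) (.e (nat_lit 57406) (nat_lit 12) (.e (nat_lit 336456) (nat_lit 34) (.e (nat_lit 483379) (nat_lit 23) (.e (nat_lit 336322) (nat_lit 18) (.e (nat_lit 204830) (nat_lit 18) (.e (nat_lit 57851) (nat_lit 252) .nil)))))) (.g (nat_lit 0) .nil .nil))) 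
(.lf (nat_lit 153505) (.g (nat_lit 3336) (.e (nat_lit 57406) (nat_lit 12) (.e (nat_lit 336456) (nat_lit 34) (.e (nat_lit 483383) (nat_lit 23) (.e (nat_lit 336324) (nat_lit 18) (.e (nat_lit 204829) (nat_lit 18) (.e (nat_lit 57851) (nat_lit 252) .nil)))))) (.g (nat_lit 5) .nil .nil)))) (.nd (nat_lit 5) 
(.lf (nat_lit 153489) (.g (nat_lit 2789) (.e (nat_lit 57406) (nat_lit 12) (.e (nat_lit 336456) (nat_lit 34) (.e (nat_lit 483382) (nat_lit 23) (.e (nat_lit 336324) (nat_lit 18) (.e (nat_lit 204829) (nat_lit 18) (.e (nat_lit 57854) (nat_lit 252) .nil)))))) (.g (nat_lit 5) .nil .nil))) 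
(.lf (nat_lit 153521) (.g (nat_lit 3763) (.e (nat_lit 57406) (nat_lit 12) (.e (nat_lit 336456) (nat_lit 34) (.e (nat_lit 483383) (nat_lit 23) (.e (nat_lit 336326) (nat_lit 18) (.e (nat_lit 204830) (nat_lit 18) (.e (nat_lit 57854) (nat_lit 252) .nil)))))) (.g (nat_lit 0) .nil .nil))))) (.nd (nat_lit 4) (.nd (nat_lit 5) 
(.lf (nat_lit 153481) (.g (nat_lit 3830) (.e (nat_lit 57406) (nat_lit 12) (.e (nat_lit 336456) (nat_lit 34) (.e (nat_lit 483380) (nat_lit 23) (.e (nat_lit 336324) (nat_lit 18) (.e (nat_lit 204830) (nat_lit 18) (.e (nat_lit 57854) (nat_lit 252) .nil)))))) (.g (nat_lit 0) .nil .nil))) 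
(.lf (nat_lit 153513) (.g (nat_lit 3764) (.e (nat_lit 57406) (nat_lit 12) (.e (nat_lit 336456) (nat_lit 34) (.e (nat_lit 483383) (nat_lit 23) (.e (nat_lit 336324) (nat_lit 18) (.e (nat_lit 204831) (nat_lit 18) (.e (nat_lit 57846) (nat_lit 252) .nil)))))) (.g (nat_lit 5) .nil .nil)))) (.nd (nat_lit 5) 
(.lf (nat_lit 153497) (.g (nat_lit 3165) (.e (nat_lit 57406) (nat_lit 12) (.e (nat_lit 336456) (nat_lit 34) (.e (nat_lit 483383) (nat_lit 23) (.e (nat_lit 336019) (nat_lit 3) (.e (nat_lit 98333) (nat_lit 18) (.e (nat_lit 164178) (nat_lit 154) .nil)))))) (.g (nat_lit 5) .nil .nil))) 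
(.lf (nat_lit 153529) (.g (nat_lit 3276) (.e (nat_lit 57406) (nat_lit 12) (.e (nat_lit 336456) (nat_lit 34) (.e (nat_lit 483391) (nat_lit 23) (.e (nat_lit 336017) (nat_lit 3) (.e (nat_lit 98333) (nat_lit 18) (.e (nat_lit 164179) (nat_lit 154) .nil)))))) (.g (nat_lit 0) .nil .nil)))))) (.nd (nat_lit 3) (.nd (nat_lit 4) (.nd (nat_lit 5) 
(.lf (nat_lit 153477) (.g (nat_lit 3341) (.e (nat_lit 57406) (nat_lit 12) (.e (nat_lit 336456) (nat_lit 34) (.e (nat_lit 483379) (nat_lit 23) (.e (nat_lit 336326) (nat_lit 18) (.e (nat_lit 204831) (nat_lit 18) (.e (nat_lit 57854) (nat_lit 252) .nil)))))) (.g (nat_lit 0) .nil .nil))) 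
(.lf (nat_lit 153509) (.g (nat_lit 4124) (.e (nat_lit 57406) (nat_lit 12) (.e (nat_lit 336456) (nat_lit 34) (.e (nat_lit 483383) (nat_lit 23) (.e (nat_lit 336324) (nat_lit 18) (.e (nat_lit 204830) (nat_lit 18) (.e (nat_lit 57851) (nat_lit 252) .nil)))))) (.g (nat_lit 0) .nil .nil)))) (.nd (nat_lit 5) 
(.lf (nat_lit 153493) (.g (nat_lit 2010) (.e (nat_lit 57406) (nat_lit 12) (.e (nat_lit 336456) (nat_lit 34) (.e (nat_lit 483382) (nat_lit 23) (.e (nat_lit 336326) (nat_lit 18) (.e (nat_lit 204830) (nat_lit 18) (.e (nat_lit 57851) (nat_lit 252) .nil)))))) (.g (nat_lit 4) .nil .nil))) 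
(.lf (nat_lit 153525) (.g (nat_lit 1926) (.e (nat_lit 57406) (nat_lit 12) (.e (nat_lit 336456) (nat_lit 34) (.e (nat_lit 483386) (nat_lit 23) (.e (nat_lit 336295) (nat_lit 15) (.e (nat_lit 3251) (nat_lit 197) .nil))))) .nil)))) (.nd (nat_lit 4) (.nd (nat_lit 5) 
(.lf (nat_lit 153485) (.g (nat_lit 3134) (.e (nat_lit 57406) (nat_lit 12) (.e (nat_lit 336456) (nat_lit 34) (.e (nat_lit 483380) (nat_lit 23) (.e (nat_lit 336326) (nat_lit 18) (.e (nat_lit 204831) (nat_lit 18) (.e (nat_lit 57851) (nat_lit 252) .nil)))))) (.g (nat_lit 6) .nil .nil))) 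
(.lf (nat_lit 153517) (.g (nat_lit 1800) (.e (nat_lit 57406) (nat_lit 12) (.e (nat_lit 336456) (nat_lit 34) (.e (nat_lit 483383) (nat_lit 23) (.e (nat_lit 336325) (nat_lit 18) (.e (nat_lit 204830) (nat_lit 18) .nil))))) .nil))) (.nd (nat_lit 5) 
(.lf (nat_lit 153501) (.g (nat_lit 2501) (.e (nat_lit 57406) (nat_lit 12) (.e (nat_lit 336456) (nat_lit 34) (.e (nat_lit 483383) (nat_lit 23) (.e (nat_lit 336260) (nat_lit 15) (.e (nat_lit 3251) (nat_lit 197) .nil))))) .nil)) 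
(.lf (nat_lit 153533) (.g (nat_lit 1380) (.e (nat_lit 57406) (nat_lit 12) (.e (nat_lit 336456) (nat_lit 34) (.e (nat_lit 483393) (nat_lit 23) (.e (nat_lit 336012) (nat_lit 2) (.e (nat_lit 90181) (nat_lit 16) .nil))))) .nil)))))) (.nd (nat_lit 2) (.nd (nat_lit 3) (.nd (nat_lit 4) (.nd (nat_lit 5) 
(.lf (nat_lit 153475) (.g (nat_lit 3085) (.e (nat_lit 57406) (nat_lit 12) (.e (nat_lit 336456) (nat_lit 34) (.e (nat_lit 483379) (nat_lit 23) (.e (nat_lit 336324) (nat_lit 18) (.e (nat_lit 204830) (nat_lit 18) (.e (nat_lit 57851) (nat_lit 252) .nil)))))) (.g (nat_lit 5) .nil .nil))) 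
(.lf (nat_lit 153507) (.g (nat_lit 4173) (.e (nat_lit 57406) (nat_lit 12) (.e (nat_lit 336456) (nat_lit 34) (.e (nat_lit 483383) (nat_lit 23) (.e (nat_lit 336324) (nat_lit 18) (.e (nat_lit 204829) (nat_lit 18) (.e (nat_lit 57854) (nat_lit 252) .nil)))))) (.g (nat_lit 0) .nil .nil)))) (.nd (nat_lit 5) 
(.lf (nat_lit 153491) (.g (nat_lit 3002) (.e (nat_lit 57406) (nat_lit 12) (.e (nat_lit 336456) (nat_lit 34) (.e (nat_lit 483382) (nat_lit 23) (.e (nat_lit 336324) (nat_lit 18) (.e (nat_lit 204830) (nat_lit 18) (.e (nat_lit 57854) (nat_lit 252) .nil)))))) (.g (nat_lit 5) .nil .nil))) 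
(.lf (nat_lit 153523) (.g (nat_lit 3276) (.e (nat_lit 57406) (nat_lit 12) (.e (nat_lit 336456) (nat_lit 34) (.e (nat_lit 483383) (nat_lit 23) (.e (nat_lit 336326) (nat_lit 18) (.e (nat_lit 204831) (nat_lit 18) (.e (nat_lit 57851) (nat_lit 252) .nil)))))) (.g (nat_lit 6) .nil .nil))))) (.nd (nat_lit 4) (.nd (nat_lit 5) 
(.lf (nat_lit 153483) (.g (nat_lit 3648) (.e (nat_lit 57406) (nat_lit 12) (.e (nat_lit 336456) (nat_lit 34) (.e (nat_lit 483380) (nat_lit 23) (.e (nat_lit 336326) (nat_lit 18) (.e (nat_lit 204830) (nat_lit 18) (.e (nat_lit 57854) (nat_lit 252) .nil)))))) (.g (nat_lit 0) .nil .nil))) 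
(.lf (nat_lit 153515) (.g (nat_lit 3145) (.e (nat_lit 57406) (nat_lit 12) (.e (nat_lit 336456) (nat_lit 34) (.e (nat_lit 483383) (nat_lit 23) (.e (nat_lit 336324) (nat_lit 18) (.e (nat_lit 204831) (nat_lit 18) (.e (nat_lit 57853) (nat_lit 252) .nil)))))) (.g (nat_lit 4) .nil .nil)))) (.nd (nat_lit 5) 
(.lf (nat_lit 153499) (.g (nat_lit 2903) (.e (nat_lit 57406) (nat_lit 12) (.e (nat_lit 336456) (nat_lit 34) (.e (nat_lit 483383) (nat_lit 23) (.e (nat_lit 336019) (nat_lit 3) (.e (nat_lit 98335) (nat_lit 18) (.e (nat_lit 164176) (nat_lit 154) .nil)))))) (.g (nat_lit 5) .nil .nil))) 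
(.lf (nat_lit 153531) (.g (nat_lit 2875) (.e (nat_lit 57406) (nat_lit 12) (.e (nat_lit 336456) (nat_lit 34) (.e (nat_lit 483391) (nat_lit 23) (.e (nat_lit 336323) (nat_lit 18) (.e (nat_lit 204830) (nat_lit 18) (.e (nat_lit 57851) (nat_lit 252) .nil)))))) (.g (nat_lit 0) .nil .nil)))))) (.nd (nat_lit 3) (.nd (nat_lit 4) (.nd (nat_lit 5) 
(.lf (nat_lit 153479) (.g (nat_lit 3629) (.e (nat_lit 57406) (nat_lit 12) (.e (nat_lit 336456) (nat_lit 34) (.e (nat_lit 483380) (nat_lit 23) (.e (nat_lit 336324) (nat_lit 18) (.e (nat_lit 204829) (nat_lit 18) (.e (nat_lit 57854) (nat_lit 252) .nil)))))) (.g (nat_lit 0) .nil .nil))) 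
(.lf (nat_lit 153511) (.g (nat_lit 4385) (.e (nat_lit 57406) (nat_lit 12) (.e (nat_lit 336456) (nat_lit 34) (.e (nat_lit 483383) (nat_lit 23) (.e (nat_lit 336324) (nat_lit 18) (.e (nat_lit 204830) (nat_lit 18) (.e (nat_lit 57854) (nat_lit 252) .nil)))))) (.g (nat_lit 0) .nil .nil)))) (.nd (nat_lit 5) 
(.lf (nat_lit 153495) (.g (nat_lit 2574) (.e (nat_lit 57406) (nat_lit 12) (.e (nat_lit 336456) (nat_lit 34) (.e (nat_lit 483382) (nat_lit 23) (.e (nat_lit 336326) (nat_lit 18) (.e (nat_lit 204831) (nat_lit 18) (.e (nat_lit 57852) (nat_lit 252) .nil)))))) (.g (nat_lit 4) .nil .nil))) 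
(.lf (nat_lit 153527) (.g (nat_lit 1095) (.e (nat_lit 57406) (nat_lit 12) (.e (nat_lit 336456) (nat_lit 34) (.e (nat_lit 483389) (nat_lit 23) (.e (nat_lit 336028) (nat_lit 3) (.e (nat_lit 98325) (nat_lit 17) .nil))))) .nil)))) (.nd (nat_lit 4) (.nd (nat_lit 5) 
(.lf (nat_lit 153487) (.g (nat_lit 2159) (.e (nat_lit 57406) (nat_lit 12) (.e (nat_lit 336456) (nat_lit 34) (.e (nat_lit 483381) (nat_lit 23) (.e (nat_lit 336324) (nat_lit 18) (.e (nat_lit 204830) (nat_lit 18) (.e (nat_lit 57851) (nat_lit 252) .nil)))))) (.g (nat_lit 4) .nil .nil))) 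
(.lf (nat_lit 153519) (.g (nat_lit 2665) (.e (nat_lit 57406) (nat_lit 12) (.e (nat_lit 336456) (nat_lit 34) (.e (nat_lit 483383) (nat_lit 23) (.e (nat_lit 336326) (nat_lit 18) (.e (nat_lit 204830) (nat_lit 18) (.e (nat_lit 57844) (nat_lit 252) .nil)))))) (.g (nat_lit 4) .nil .nil)))) (.nd (nat_lit 5) 
(.lf (nat_lit 153503) (.g (nat_lit 2677) (.e (nat_lit 57406) (nat_lit 12) (.e (nat_lit 336456) (nat_lit 34) (.e (nat_lit 483383) (nat_lit 23) (.e (nat_lit 336322) (nat_lit 18) (.e (nat_lit 204830) (nat_lit 18) (.e (nat_lit 57851) (nat_lit 252) .nil)))))) (.g (nat_lit 5) .nil .nil))) 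
(.lf (nat_lit 153535) (.g (nat_lit 3069) (.e (nat_lit 57406) (nat_lit 12) (.e (nat_lit 336456) (nat_lit 34) (.e (nat_lit 483393) (nat_lit 23) (.e (nat_lit 336025) (nat_lit 3) (.e (nat_lit 98333) (nat_lit 18) (.e (nat_lit 164177) (nat_lit 154) .nil)))))) (.g (nat_lit 5) .nil .nil)))))))))

noncomputable def tv2046 : DT := (.nd (nat_lit 0) (.nd (nat_lit 1) (.nd (nat_lit 2) (.nd (nat_lit 3) (.nd (nat_lit 4) (.nd (nat_lit 5) 
(.lf (nat_lit 153536) (.g (nat_lit 2091) (.e (nat_lit 57406) (nat_lit 12) (.e (nat_lit 336456) (nat_lit 34) (.e (nat_lit 483393) (nat_lit 23) (.e (nat_lit 336026) (nat_lit 3) (.e (nat_lit 98333) (nat_lit 18) (.e (nat_lit 164177) (nat_lit 154) .nil)))))) (.g (nat_lit 4) .nil .nil))) 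
(.lf (nat_lit 153568) (.g (nat_lit 2489) (.e (nat_lit 57406) (nat_lit 12) (.e (nat_lit 336456) (nat_lit 34) (.e (nat_lit 483399) (nat_lit 25) (.e (nat_lit 368676) (nat_lit 21) (.e (nat_lit 516119) (nat_lit 1) (.e (nat_lit 164177) (nat_lit 154) .nil)))))) (.g (nat_lit 5) .nil .nil)))) (.nd (nat_lit 5) 
(.lf (nat_lit 153552) (.g (nat_lit 2608) (.e (nat_lit 57406) (nat_lit 12) (.e (nat_lit 336456) (nat_lit 34) (.e (nat_lit 483395) (nat_lit 24) (.e (nat_lit 344117) (nat_lit 21) (.e (nat_lit 516106) (nat_lit 0) (.e (nat_lit 2478) (nat_lit 157) (.e (nat_lit 6393) (nat_lit 339) .nil))))))) (.g (nat_lit 4) .nil .nil))) 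
(.lf (nat_lit 153584) (.g (nat_lit 2425) (.e (nat_lit 57406) (nat_lit 12) (.e (nat_lit 336456) (nat_lit 34) (.e (nat_lit 483403) (nat_lit 26) (.e (nat_lit 385066) (nat_lit 26) (.e (nat_lit 532503) (nat_lit 1) (.e (nat_lit 57854) (nat_lit 252) .nil)))))) (.g (nat_lit 4) .nil .nil))))) (.nd (nat_lit 4) (.nd (nat_lit 5) 
(.lf (nat_lit 153544) (.g (nat_lit 1888) (.e (nat_lit 57406) (nat_lit 12) (.e (nat_lit 336456) (nat_lit 34) (.e (nat_lit 483394) (nat_lit 24) (.e (nat_lit 344119) (nat_lit 21) (.e (nat_lit 516115) (nat_lit 1) (.e (nat_lit 164177) (nat_lit 154) .nil)))))) (.g (nat_lit 4) .nil .nil))) 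
(.lf (nat_lit 153576) (.g (nat_lit 2753) (.e (nat_lit 57406) (nat_lit 12) (.e (nat_lit 336456) (nat_lit 34) (.e (nat_lit 483403) (nat_lit 26) (.e (nat_lit 385066) (nat_lit 26) (.e (nat_lit 532499) (nat_lit 1) (.e (nat_lit 57851) (nat_lit 252) .nil)))))) (.g (nat_lit 5) .nil .nil)))) (.nd (nat_lit 5) 
(.lf (nat_lit 153560) (.g (nat_lit 2779) (.e (nat_lit 57406) (nat_lit 12) (.e (nat_lit 336456) (nat_lit 34) (.e (nat_lit 483396) (nat_lit 24) (.e (nat_lit 344117) (nat_lit 21) (.e (nat_lit 516115) (nat_lit 1) (.e (nat_lit 164179) (nat_lit 154) .nil)))))) (.g (nat_lit 4) .nil .nil))) 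
(.lf (nat_lit 153592) (.g (nat_lit 3727) (.e (nat_lit 57406) (nat_lit 12) (.e (nat_lit 336456) (nat_lit 34) (.e (nat_lit 483403) (nat_lit 26) (.e (nat_lit 385068) (nat_lit 26) (.e (nat_lit 532504) (nat_lit 1) (.e (nat_lit 57851) (nat_lit 252) .nil)))))) (.g (nat_lit 0) .nil .nil)))))) (.nd (nat_lit 3) (.nd (nat_lit 4) (.nd (nat_lit 5) 
(.lf (nat_lit 153540) (.g (nat_lit 3115) (.e (nat_lit 57406) (nat_lit 12) (.e (nat_lit 336456) (nat_lit 34) (.e (nat_lit 483394) (nat_lit 24) (.e (nat_lit 344117) (nat_lit 21) (.e (nat_lit 516106) (nat_lit 0) (.e (nat_lit 2478) (nat_lit 157) (.e (nat_lit 6391) (nat_lit 339) .nil))))))) (.g (nat_lit 5) .nil .nil))) 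
(.lf (nat_lit 153572) (.g (nat_lit 3665) (.e (nat_lit 57406) (nat_lit 12) (.e (nat_lit 336456) (nat_lit 34) (.e (nat_lit 483402) (nat_lit 26) (.e (nat_lit 385068) (nat_lit 26) (.e (nat_lit 532501) (nat_lit 1) (.e (nat_lit 57854) (nat_lit 252) .nil)))))) (.g (nat_lit 0) .nil .nil)))) (.nd (nat_lit 5) 
(.lf (nat_lit 153556) (.g (nat_lit 1781) (.e (nat_lit 57406) (nat_lit 12) (.e (nat_lit 336456) (nat_lit 34) (.e (nat_lit 483395) (nat_lit 24) (.e (nat_lit 344118) (nat_lit 21) (.e (nat_lit 516119) (nat_lit 1) (.e (nat_lit 164177) (nat_lit 154) .nil)))))) (.g (nat_lit 4) .nil .nil))) 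
(.lf (nat_lit 153588) (.g (nat_lit 3932) (.e (nat_lit 57406) (nat_lit 12) (.e (nat_lit 336456) (nat_lit 34) (.e (nat_lit 483403) (nat_lit 26) (.e (nat_lit 385068) (nat_lit 26) (.e (nat_lit 532501) (nat_lit 1) (.e (nat_lit 57851) (nat_lit 252) .nil)))))) (.g (nat_lit 0) .nil .nil))))) (.nd (nat_lit 4) (.nd (nat_lit 5) 
(.lf (nat_lit 153548) (.g (nat_lit 3208) (.e (nat_lit 57406) (nat_lit 12) (.e (nat_lit 336456) (nat_lit 34) (.e (nat_lit 483395) (nat_lit 24) (.e (nat_lit 344117) (nat_lit 21) (.e (nat_lit 516099) (nat_lit 0) (.e (nat_lit 2474) (nat_lit 157) (.e (nat_lit 6391) (nat_lit 339) .nil))))))) (.g (nat_lit 4) .nil .nil))) 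
(.lf (nat_lit 153580) (.g (nat_lit 3665) (.e (nat_lit 57406) (nat_lit 12) (.e (nat_lit 336456) (nat_lit 34) (.e (nat_lit 483403) (nat_lit 26) (.e (nat_lit 385066) (nat_lit 26) (.e (nat_lit 532501) (nat_lit 1) (.e (nat_lit 57854) (nat_lit 252) .nil)))))) (.g (nat_lit 0) .nil .nil)))) (.nd (nat_lit 5) 
(.lf (nat_lit 153564) (.g (nat_lit 2956) (.e (nat_lit 57406) (nat_lit 12) (.e (nat_lit 336456) (nat_lit 34) (.e (nat_lit 483398) (nat_lit 25) (.e (nat_lit 368676) (nat_lit 21) (.e (nat_lit 516117) (nat_lit 1) (.e (nat_lit 164176) (nat_lit 154) .nil)))))) (.g (nat_lit 6) .nil .nil))) 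
(.lf (nat_lit 153596) (.g (nat_lit 2367) (.e (nat_lit 57406) (nat_lit 12) (.e (nat_lit 336456) (nat_lit 34) (.e (nat_lit 483404) (nat_lit 26) (.e (nat_lit 385066) (nat_lit 26) (.e (nat_lit 532501) (nat_lit 1) (.e (nat_lit 57854) (nat_lit 252) .nil)))))) (.g (nat_lit 4) .nil .nil))))))) (.nd (nat_lit 2) (.nd (nat_lit 3) (.nd (nat_lit 4) (.nd (nat_lit 5) 
(.lf (nat_lit 153538) (.g (nat_lit 3302) (.e (nat_lit 57406) (nat_lit 12) (.e (nat_lit 336456) (nat_lit 34) (.e (nat_lit 483393) (nat_lit 23) (.e (nat_lit 336027) (nat_lit 3) (.e (nat_lit 98333) (nat_lit 18) (.e (nat_lit 164177) (nat_lit 154) .nil)))))) (.g (nat_lit 5) .nil .nil))) 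
(.lf (nat_lit 153570) (.g (nat_lit 1691) (.e (nat_lit 57406) (nat_lit 12) (.e (nat_lit 336456) (nat_lit 34) (.e (nat_lit 483402) (nat_lit 26) (.e (nat_lit 385067) (nat_lit 26) (.e (nat_lit 532501) (nat_lit 1) (.e (nat_lit 57851) (nat_lit 252) .nil)))))) (.g (nat_lit 4) .nil .nil)))) (.nd (nat_lit 5) 
(.lf (nat_lit 153554) (.g (nat_lit 2236) (.e (nat_lit 57406) (nat_lit 12) (.e (nat_lit 336456) (nat_lit 34) (.e (nat_lit 483395) (nat_lit 24) (.e (nat_lit 344117) (nat_lit 21) (.e (nat_lit 516118) (nat_lit 1) (.e (nat_lit 164177) (nat_lit 154) .nil)))))) (.g (nat_lit 4) .nil .nil))) 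
(.lf (nat_lit 153586) (.g (nat_lit 3228) (.e (nat_lit 57406) (nat_lit 12) (.e (nat_lit 336456) (nat_lit 34) (.e (nat_lit 483403) (nat_lit 26) (.e (nat_lit 385067) (nat_lit 26) (.e (nat_lit 532504) (nat_lit 1) (.e (nat_lit 57851) (nat_lit 252) .nil)))))) (.g (nat_lit 0) .nil .nil))))) (.nd (nat_lit 4) (.nd (nat_lit 5) 
(.lf (nat_lit 153546) (.g (nat_lit 2056) (.e (nat_lit 57406) (nat_lit 12) (.e (nat_lit 336456) (nat_lit 34) (.e (nat_lit 483394) (nat_lit 24) (.e (nat_lit 344119) (nat_lit 21) (.e (nat_lit 516119) (nat_lit 1) (.e (nat_lit 164178) (nat_lit 154) .nil)))))) (.g (nat_lit 4) .nil .nil))) 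
(.lf (nat_lit 153578) (.g (nat_lit 3823) (.e (nat_lit 57406) (nat_lit 12) (.e (nat_lit 336456) (nat_lit 34) (.e (nat_lit 483403) (nat_lit 26) (.e (nat_lit 385066) (nat_lit 26) (.e (nat_lit 532500) (nat_lit 1) (.e (nat_lit 57851) (nat_lit 252) .nil)))))) (.g (nat_lit 0) .nil .nil)))) (.nd (nat_lit 5) 
(.lf (nat_lit 153562) (.g (nat_lit 2302) (.e (nat_lit 57406) (nat_lit 12) (.e (nat_lit 336456) (nat_lit 34) (.e (nat_lit 483396) (nat_lit 24) (.e (nat_lit 344119) (nat_lit 21) (.e (nat_lit 516118) (nat_lit 1) (.e (nat_lit 164177) (nat_lit 154) .nil)))))) (.g (nat_lit 4) .nil .nil))) 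
(.lf (nat_lit 153594) (.g (nat_lit 3979) (.e (nat_lit 57406) (nat_lit 12) (.e (nat_lit 336456) (nat_lit 34) (.e (nat_lit 483403) (nat_lit 26) (.e (nat_lit 385068) (nat_lit 26) (.e (nat_lit 532504) (nat_lit 1) (.e (nat_lit 57854) (nat_lit 252) .nil)))))) (.g (nat_lit 0) .nil .nil)))))) (.nd (nat_lit 3) (.nd (nat_lit 4) (.nd (nat_lit 5) 
(.lf (nat_lit 153542) (.g (nat_lit 2284) (.e (nat_lit 57406) (nat_lit 12) (.e (nat_lit 336456) (nat_lit 34) (.e (nat_lit 483394) (nat_lit 24) (.e (nat_lit 344117) (nat_lit 21) (.e (nat_lit 516118) (nat_lit 1) (.e (nat_lit 164177) (nat_lit 154) .nil)))))) (.g (nat_lit 4) .nil .nil))) 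
(.lf (nat_lit 153574) (.g (nat_lit 2250) (.e (nat_lit 57406) (nat_lit 12) (.e (nat_lit 336456) (nat_lit 34) (.e (nat_lit 483403) (nat_lit 26) (.e (nat_lit 385064) (nat_lit 26) (.e (nat_lit 532503) (nat_lit 1) (.e (nat_lit 57844) (nat_lit 252) .nil)))))) (.g (nat_lit 4) .nil .nil)))) (.nd (nat_lit 5) 
(.lf (nat_lit 153558) (.g (nat_lit 3393) (.e (nat_lit 57406) (nat_lit 12) (.e (nat_lit 336456) (nat_lit 34) (.e (nat_lit 483395) (nat_lit 24) (.e (nat_lit 344120) (nat_lit 21) (.e (nat_lit 516119) (nat_lit 1) (.e (nat_lit 164179) (nat_lit 154) .nil)))))) (.g (nat_lit 6) .nil .nil))) 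
(.lf (nat_lit 153590) (.g (nat_lit 3954) (.e (nat_lit 57406) (nat_lit 12) (.e (nat_lit 336456) (nat_lit 34) (.e (nat_lit 483403) (nat_lit 26) (.e (nat_lit 385068) (nat_lit 26) (.e (nat_lit 532501) (nat_lit 1) (.e (nat_lit 57854) (nat_lit 252) .nil)))))) (.g (nat_lit 0) .nil .nil))))) (.nd (nat_lit 4) (.nd (nat_lit 5) 
(.lf (nat_lit 153550) (.g (nat_lit 3284) (.e (nat_lit 57406) (nat_lit 12) (.e (nat_lit 336456) (nat_lit 34) (.e (nat_lit 483395) (nat_lit 24) (.e (nat_lit 344117) (nat_lit 21) (.e (nat_lit 516099) (nat_lit 0) (.e (nat_lit 2474) (nat_lit 157) (.e (nat_lit 6393) (nat_lit 339) .nil))))))) (.g (nat_lit 4) .nil .nil))) 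
(.lf (nat_lit 153582) (.g (nat_lit 3239) (.e (nat_lit 57406) (nat_lit 12) (.e (nat_lit 336456) (nat_lit 34) (.e (nat_lit 483403) (nat_lit 26) (.e (nat_lit 385066) (nat_lit 26) (.e (nat_lit 532503) (nat_lit 1) (.e (nat_lit 57844) (nat_lit 252) .nil)))))) (.g (nat_lit 5) .nil .nil)))) (.nd (nat_lit 5) 
(.lf (nat_lit 153566) (.g (nat_lit 2536) (.e (nat_lit 57406) (nat_lit 12) (.e (nat_lit 336456) (nat_lit 34) (.e (nat_lit 483398) (nat_lit 25) (.e (nat_lit 368676) (nat_lit 21) (.e (nat_lit 516119) (nat_lit 1) (.e (nat_lit 164177) (nat_lit 154) .nil)))))) (.g (nat_lit 5) .nil .nil))) 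
(.lf (nat_lit 153598) (.g (nat_lit 2315) (.e (nat_lit 57406) (nat_lit 12) (.e (nat_lit 336456) (nat_lit 34) (.e (nat_lit 483404) (nat_lit 26) (.e (nat_lit 385066) (nat_lit 26) (.e (nat_lit 532504) (nat_lit 1) (.e (nat_lit 57854) (nat_lit 252) .nil)))))) (.g (nat_lit 4) .nil .nil)))))))) (.nd (nat_lit 1) (.nd (nat_lit 2) (.nd (nat_lit 3) (.nd (nat_lit 4) (.nd (nat_lit 5) 
(.lf (nat_lit 153537) (.g (nat_lit 1978) (.e (nat_lit 57406) (nat_lit 12) (.e (nat_lit 336456) (nat_lit 34) (.e (nat_lit 483393) (nat_lit 23) (.e (nat_lit 336026) (nat_lit 3) (.e (nat_lit 98335) (nat_lit 18) (.e (nat_lit 164177) (nat_lit 154) .nil)))))) (.g (nat_lit 4) .nil .nil))) 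
(.lf (nat_lit 153569) (.g (nat_lit 761) (.e (nat_lit 57406) (nat_lit 12) (.e (nat_lit 336456) (nat_lit 34) (.e (nat_lit 483401) (nat_lit 25) .nil))) .nil))) (.nd (nat_lit 5) 
(.lf (nat_lit 153553) (.g (nat_lit 3455) (.e (nat_lit 57406) (nat_lit 12) (.e (nat_lit 336456) (nat_lit 34) (.e (nat_lit 483395) (nat_lit 24) (.e (nat_lit 344117) (nat_lit 21) (.e (nat_lit 516116) (nat_lit 1) (.e (nat_lit 164176) (nat_lit 154) .nil)))))) (.g (nat_lit 6) .nil .nil))) 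
(.lf (nat_lit 153585) (.g (nat_lit 3543) (.e (nat_lit 57406) (nat_lit 12) (.e (nat_lit 336456) (nat_lit 34) (.e (nat_lit 483403) (nat_lit 26) (.e (nat_lit 385066) (nat_lit 26) (.e (nat_lit 532504) (nat_lit 1) (.e (nat_lit 57851) (nat_lit 252) .nil)))))) (.g (nat_lit 0) .nil .nil))))) (.nd (nat_lit 4) (.nd (nat_lit 5) 
(.lf (nat_lit 153545) (.g (nat_lit 2227) (.e (nat_lit 57406) (nat_lit 12) (.e (nat_lit 336456) (nat_lit 34) (.e (nat_lit 483394) (nat_lit 24) (.e (nat_lit 344119) (nat_lit 21) (.e (nat_lit 516119) (nat_lit 1) (.e (nat_lit 164176) (nat_lit 154) .nil)))))) (.g (nat_lit 4) .nil .nil))) 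
(.lf (nat_lit 153577) (.g (nat_lit 3810) (.e (nat_lit 57406) (nat_lit 12) (.e (nat_lit 336456) (nat_lit 34) (.e (nat_lit 483403) (nat_lit 26) (.e (nat_lit 385066) (nat_lit 26) (.e (nat_lit 532499) (nat_lit 1) (.e (nat_lit 57854) (nat_lit 252) .nil)))))) (.g (nat_lit 0) .nil .nil)))) (.nd (nat_lit 5) 
(.lf (nat_lit 153561) (.g (nat_lit 3281) (.e (nat_lit 57406) (nat_lit 12) (.e (nat_lit 336456) (nat_lit 34) (.e (nat_lit 483396) (nat_lit 24) (.e (nat_lit 344119) (nat_lit 21) (.e (nat_lit 516115) (nat_lit 1) (.e (nat_lit 164177) (nat_lit 154) .nil)))))) (.g (nat_lit 6) .nil .nil))) 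
(.lf (nat_lit 153593) (.g (nat_lit 2432) (.e (nat_lit 57406) (nat_lit 12) (.e (nat_lit 336456) (nat_lit 34) (.e (nat_lit 483403) (nat_lit 26) (.e (nat_lit 385068) (nat_lit 26) (.e (nat_lit 532504) (nat_lit 1) (.e (nat_lit 57853) (nat_lit 252) .nil)))))) (.g (nat_lit 4) .nil .nil)))))) (.nd (nat_lit 3) (.nd (nat_lit 4) (.nd (nat_lit 5) 
(.lf (nat_lit 153541) (.g (nat_lit 3295) (.e (nat_lit 57406) (nat_lit 12) (.e (nat_lit 336456) (nat_lit 34) (.e (nat_lit 483394) (nat_lit 24) (.e (nat_lit 344117) (nat_lit 21) (.e (nat_lit 516116) (nat_lit 1) (.e (nat_lit 164176) (nat_lit 154) .nil)))))) (.g (nat_lit 5) .nil .nil))) 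
(.lf (nat_lit 153573) (.g (nat_lit 3622) (.e (nat_lit 57406) (nat_lit 12) (.e (nat_lit 336456) (nat_lit 34) (.e (nat_lit 483402) (nat_lit 26) (.e (nat_lit 385068) (nat_lit 26) (.e (nat_lit 532504) (nat_lit 1) (.e (nat_lit 57854) (nat_lit 252) .nil)))))) (.g (nat_lit 0) .nil .nil)))) (.nd (nat_lit 5) 
(.lf (nat_lit 153557) (.g (nat_lit 2872) (.e (nat_lit 57406) (nat_lit 12) (.e (nat_lit 336456) (nat_lit 34) (.e (nat_lit 483395) (nat_lit 24) (.e (nat_lit 344120) (nat_lit 21) (.e (nat_lit 516115) (nat_lit 1) (.e (nat_lit 164177) (nat_lit 154) .nil)))))) (.g (nat_lit 6) .nil .nil))) 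
(.lf (nat_lit 153589) (.g (nat_lit 2844) (.e (nat_lit 57406) (nat_lit 12) (.e (nat_lit 336456) (nat_lit 34) (.e (nat_lit 483403) (nat_lit 26) (.e (nat_lit 385068) (nat_lit 26) (.e (nat_lit 532501) (nat_lit 1) (.e (nat_lit 57852) (nat_lit 252) .nil)))))) (.g (nat_lit 4) .nil .nil))))) (.nd (nat_lit 4) (.nd (nat_lit 5) 
(.lf (nat_lit 153549) (.g (nat_lit 2811) (.e (nat_lit 57406) (nat_lit 12) (.e (nat_lit 336456) (nat_lit 34) (.e (nat_lit 483395) (nat_lit 24) (.e (nat_lit 344117) (nat_lit 21) (.e (nat_lit 516099) (nat_lit 0) (.e (nat_lit 2474) (nat_lit 157) (.e (nat_lit 6392) (nat_lit 339) .nil))))))) (.g (nat_lit 4) .nil .nil))) 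
(.lf (nat_lit 153581) (.g (nat_lit 2786) (.e (nat_lit 57406) (nat_lit 12) (.e (nat_lit 336456) (nat_lit 34) (.e (nat_lit 483403) (nat_lit 26) (.e (nat_lit 385066) (nat_lit 26) (.e (nat_lit 532502) (nat_lit 1) (.e (nat_lit 57846) (nat_lit 252) .nil)))))) (.g (nat_lit 4) .nil .nil)))) (.nd (nat_lit 5) 
(.lf (nat_lit 153565) (.g (nat_lit 2792) (.e (nat_lit 57406) (nat_lit 12) (.e (nat_lit 336456) (nat_lit 34) (.e (nat_lit 483398) (nat_lit 25) (.e (nat_lit 368676) (nat_lit 21) (.e (nat_lit 516118) (nat_lit 1) (.e (nat_lit 164177) (nat_lit 154) .nil)))))) (.g (nat_lit 6) .nil .nil))) 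
(.lf (nat_lit 153597) (.g (nat_lit 1918) (.e (nat_lit 57406) (nat_lit 12) (.e (nat_lit 336456) (nat_lit 34) (.e (nat_lit 483404) (nat_lit 26) (.e (nat_lit 385066) (nat_lit 26) (.e (nat_lit 532504) (nat_lit 1) (.e (nat_lit 57851) (nat_lit 252) .nil)))))) (.g (nat_lit 4) .nil .nil))))))) (.nd (nat_lit 2) (.nd (nat_lit 3) (.nd (nat_lit 4) (.nd (nat_lit 5) 
(.lf (nat_lit 153539) (.g (nat_lit 2978) (.e (nat_lit 57406) (nat_lit 12) (.e (nat_lit 336456) (nat_lit 34) (.e (nat_lit 483393) (nat_lit 23) (.e (nat_lit 336027) (nat_lit 3) (.e (nat_lit 98333) (nat_lit 18) (.e (nat_lit 164179) (nat_lit 154) .nil)))))) (.g (nat_lit 5) .nil .nil))) 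
(.lf (nat_lit 153571) (.g (nat_lit 3497) (.e (nat_lit 57406) (nat_lit 12) (.e (nat_lit 336456) (nat_lit 34) (.e (nat_lit 483402) (nat_lit 26) (.e (nat_lit 385068) (nat_lit 26) (.e (nat_lit 532501) (nat_lit 1) (.e (nat_lit 57851) (nat_lit 252) .nil)))))) (.g (nat_lit 6) .nil .nil)))) (.nd (nat_lit 5) 
(.lf (nat_lit 153555) (.g (nat_lit 3040) (.e (nat_lit 57406) (nat_lit 12) (.e (nat_lit 336456) (nat_lit 34) (.e (nat_lit 483395) (nat_lit 24) (.e (nat_lit 344117) (nat_lit 21) (.e (nat_lit 516118) (nat_lit 1) (.e (nat_lit 164179) (nat_lit 154) .nil)))))) (.g (nat_lit 5) .nil .nil))) 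
(.lf (nat_lit 153587) (.g (nat_lit 2617) (.e (nat_lit 57406) (nat_lit 12) (.e (nat_lit 336456) (nat_lit 34) (.e (nat_lit 483403) (nat_lit 26) (.e (nat_lit 385068) (nat_lit 26) (.e (nat_lit 532499) (nat_lit 1) (.e (nat_lit 57854) (nat_lit 252) .nil)))))) (.g (nat_lit 4) .nil .nil))))) (.nd (nat_lit 4) (.nd (nat_lit 5) 
(.lf (nat_lit 153547) (.g (nat_lit 2599) (.e (nat_lit 57406) (nat_lit 12) (.e (nat_lit 336456) (nat_lit 34) (.e (nat_lit 483395) (nat_lit 24) (.e (nat_lit 344117) (nat_lit 21) (.e (nat_lit 516099) (nat_lit 0) (.e (nat_lit 2474) (nat_lit 157) (.e (nat_lit 6390) (nat_lit 339) .nil))))))) (.g (nat_lit 4) .nil .nil))) 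
(.lf (nat_lit 153579) (.g (nat_lit 3563) (.e (nat_lit 57406) (nat_lit 12) (.e (nat_lit 336456) (nat_lit 34) (.e (nat_lit 483403) (nat_lit 26) (.e (nat_lit 385066) (nat_lit 26) (.e (nat_lit 532501) (nat_lit 1) (.e (nat_lit 57851) (nat_lit 252) .nil)))))) (.g (nat_lit 0) .nil .nil)))) (.nd (nat_lit 5) 
(.lf (nat_lit 153563) (.g (nat_lit 3180) (.e (nat_lit 57406) (nat_lit 12) (.e (nat_lit 336456) (nat_lit 34) (.e (nat_lit 483396) (nat_lit 24) (.e (nat_lit 344119) (nat_lit 21) (.e (nat_lit 516119) (nat_lit 1) (.e (nat_lit 164176) (nat_lit 154) .nil)))))) (.g (nat_lit 6) .nil .nil))) 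
(.lf (nat_lit 153595) (.g (nat_lit 2571) (.e (nat_lit 57406) (nat_lit 12) (.e (nat_lit 336456) (nat_lit 34) (.e (nat_lit 483404) (nat_lit 26) (.e (nat_lit 385066) (nat_lit 26) (.e (nat_lit 532499) (nat_lit 1) (.e (nat_lit 57854) (nat_lit 252) .nil)))))) (.g (nat_lit 5) .nil .nil)))))) (.nd (nat_lit 3) (.nd (nat_lit 4) (.nd (nat_lit 5) 
(.lf (nat_lit 153543) (.g (nat_lit 3089) (.e (nat_lit 57406) (nat_lit 12) (.e (nat_lit 336456) (nat_lit 34) (.e (nat_lit 483394) (nat_lit 24) (.e (nat_lit 344117) (nat_lit 21) (.e (nat_lit 516118) (nat_lit 1) (.e (nat_lit 164179) (nat_lit 154) .nil)))))) (.g (nat_lit 5) .nil .nil))) 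
(.lf (nat_lit 153575) (.g (nat_lit 3039) (.e (nat_lit 57406) (nat_lit 12) (.e (nat_lit 336456) (nat_lit 34) (.e (nat_lit 483403) (nat_lit 26) (.e (nat_lit 385064) (nat_lit 26) (.e (nat_lit 532504) (nat_lit 1) (.e (nat_lit 57851) (nat_lit 252) .nil)))))) (.g (nat_lit 0) .nil .nil)))) (.nd (nat_lit 5) 
(.lf (nat_lit 153559) (.g (nat_lit 2637) (.e (nat_lit 57406) (nat_lit 12) (.e (nat_lit 336456) (nat_lit 34) (.e (nat_lit 483395) (nat_lit 24) (.e (nat_lit 344133) (nat_lit 26) (.e (nat_lit 557089) (nat_lit 12) (.e (nat_lit 163846) (nat_lit 0) (.e (nat_lit 5206) (nat_lit 294) .nil))))))) (.g (nat_lit 4) .nil .nil))) 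
(.lf (nat_lit 153591) (.g (nat_lit 3405) (.e (nat_lit 57406) (nat_lit 12) (.e (nat_lit 336456) (nat_lit 34) (.e (nat_lit 483403) (nat_lit 26) (.e (nat_lit 385068) (nat_lit 26) (.e (nat_lit 532503) (nat_lit 1) (.e (nat_lit 57844) (nat_lit 252) .nil)))))) (.g (nat_lit 5) .nil .nil))))) (.nd (nat_lit 4) (.nd (nat_lit 5) 
(.lf (nat_lit 153551) (.g (nat_lit 1657) (.e (nat_lit 57406) (nat_lit 12) (.e (nat_lit 336456) (nat_lit 34) (.e (nat_lit 483395) (nat_lit 24) (.e (nat_lit 344117) (nat_lit 21) (.e (nat_lit 516106) (nat_lit 0) .nil))))) .nil)) 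
(.lf (nat_lit 153583) (.g (nat_lit 2152) (.e (nat_lit 57406) (nat_lit 12) (.e (nat_lit 336456) (nat_lit 34) (.e (nat_lit 483403) (nat_lit 26) (.e (nat_lit 385066) (nat_lit 26) (.e (nat_lit 532503) (nat_lit 1) (.e (nat_lit 57851) (nat_lit 252) .nil)))))) (.g (nat_lit 4) .nil .nil)))) (.nd (nat_lit 5) 
(.lf (nat_lit 153567) (.g (nat_lit 2756) (.e (nat_lit 57406) (nat_lit 12) (.e (nat_lit 336456) (nat_lit 34) (.e (nat_lit 483399) (nat_lit 25) (.e (nat_lit 368676) (nat_lit 21) (.e (nat_lit 516118) (nat_lit 1) (.e (nat_lit 164177) (nat_lit 154) .nil)))))) (.g (nat_lit 6) .nil .nil))) 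
(.lf (nat_lit 153599) (.g (nat_lit 2912) (.e (nat_lit 57406) (nat_lit 12) (.e (nat_lit 336456) (nat_lit 34) (.e (nat_lit 483404) (nat_lit 26) (.e (nat_lit 385067) (nat_lit 26) (.e (nat_lit 532504) (nat_lit 1) (.e (nat_lit 57851) (nat_lit 252) .nil)))))) (.g (nat_lit 0) .nil .nil)))))))))

noncomputable def tv2047 : DT := (.nd (nat_lit 0) (.nd (nat_lit 1) (.nd (nat_lit 2) (.nd (nat_lit 3) (.nd (nat_lit 4) (.nd (nat_lit 5) 
(.lf (nat_lit 153600) (.g (nat_lit 3171) (.e (nat_lit 57406) (nat_lit 12) (.e (nat_lit 336456) (nat_lit 34) (.e (nat_lit 483404) (nat_lit 26) (.e (nat_lit 385068) (nat_lit 26) (.e (nat_lit 532501) (nat_lit 1) (.e (nat_lit 57851) (nat_lit 252) .nil)))))) (.g (nat_lit 5) .nil .nil))) 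
(.lf (nat_lit 153632) (.g (nat_lit 3161) (.e (nat_lit 57406) (nat_lit 12) (.e (nat_lit 336456) (nat_lit 34) (.e (nat_lit 483406) (nat_lit 26) (.e (nat_lit 385066) (nat_lit 26) (.e (nat_lit 532502) (nat_lit 1) (.e (nat_lit 57852) (nat_lit 252) .nil)))))) (.g (nat_lit 5) .nil .nil)))) (.nd (nat_lit 5) 
(.lf (nat_lit 153616) (.g (nat_lit 2898) (.e (nat_lit 57406) (nat_lit 12) (.e (nat_lit 336456) (nat_lit 34) (.e (nat_lit 483406) (nat_lit 26) (.e (nat_lit 385064) (nat_lit 26) (.e (nat_lit 532500) (nat_lit 1) (.e (nat_lit 57851) (nat_lit 252) .nil)))))) (.g (nat_lit 5) .nil .nil))) 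
(.lf (nat_lit 153648) (.g (nat_lit 2732) (.e (nat_lit 57406) (nat_lit 12) (.e (nat_lit 336456) (nat_lit 34) (.e (nat_lit 483406) (nat_lit 26) (.e (nat_lit 385068) (nat_lit 26) (.e (nat_lit 532504) (nat_lit 1) (.e (nat_lit 57853) (nat_lit 252) .nil)))))) (.g (nat_lit 4) .nil .nil))))) (.nd (nat_lit 4) (.nd (nat_lit 5) 
(.lf (nat_lit 153608) (.g (nat_lit 2733) (.e (nat_lit 57406) (nat_lit 12) (.e (nat_lit 336456) (nat_lit 34) (.e (nat_lit 483405) (nat_lit 26) (.e (nat_lit 385066) (nat_lit 26) (.e (nat_lit 532504) (nat_lit 1) (.e (nat_lit 57851) (nat_lit 252) .nil)))))) (.g (nat_lit 5) .nil .nil))) 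
(.lf (nat_lit 153640) (.g (nat_lit 3733) (.e (nat_lit 57406) (nat_lit 12) (.e (nat_lit 336456) (nat_lit 34) (.e (nat_lit 483406) (nat_lit 26) (.e (nat_lit 385067) (nat_lit 26) (.e (nat_lit 532504) (nat_lit 1) (.e (nat_lit 57851) (nat_lit 252) .nil)))))) (.g (nat_lit 0) .nil .nil)))) (.nd (nat_lit 5) 
(.lf (nat_lit 153624) (.g (nat_lit 3134) (.e (nat_lit 57406) (nat_lit 12) (.e (nat_lit 336456) (nat_lit 34) (.e (nat_lit 483406) (nat_lit 26) (.e (nat_lit 385066) (nat_lit 26) (.e (nat_lit 532499) (nat_lit 1) (.e (nat_lit 57847) (nat_lit 252) .nil)))))) (.g (nat_lit 4) .nil .nil))) 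
(.lf (nat_lit 153656) (.g (nat_lit 2465) (.e (nat_lit 57407) (nat_lit 12) (.e (nat_lit 336210) (nat_lit 13) (.e (nat_lit 393301) (nat_lit 27) (.e (nat_lit 491558) (nat_lit 10) (.e (nat_lit 344090) (nat_lit 18) .nil))))) .nil))))) (.nd (nat_lit 3) (.nd (nat_lit 4) (.nd (nat_lit 5) 
(.lf (nat_lit 153604) (.g (nat_lit 2712) (.e (nat_lit 57406) (nat_lit 12) (.e (nat_lit 336456) (nat_lit 34) (.e (nat_lit 483405) (nat_lit 26) (.e (nat_lit 385066) (nat_lit 26) (.e (nat_lit 532499) (nat_lit 1) (.e (nat_lit 57854) (nat_lit 252) .nil)))))) (.g (nat_lit 5) .nil .nil))) 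
(.lf (nat_lit 153636) (.g (nat_lit 3013) (.e (nat_lit 57406) (nat_lit 12) (.e (nat_lit 336456) (nat_lit 34) (.e (nat_lit 483406) (nat_lit 26) (.e (nat_lit 385066) (nat_lit 26) (.e (nat_lit 532504) (nat_lit 1) (.e (nat_lit 57844) (nat_lit 252) .nil)))))) (.g (nat_lit 5) .nil .nil)))) (.nd (nat_lit 5) 
(.lf (nat_lit 153620) (.g (nat_lit 4041) (.e (nat_lit 57406) (nat_lit 12) (.e (nat_lit 336456) (nat_lit 34) (.e (nat_lit 483406) (nat_lit 26) (.e (nat_lit 385065) (nat_lit 26) (.e (nat_lit 532501) (nat_lit 1) (.e (nat_lit 57851) (nat_lit 252) .nil)))))) (.g (nat_lit 0) .nil .nil))) 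
(.lf (nat_lit 153652) (.g (nat_lit 2252) (.e (nat_lit 57407) (nat_lit 12) (.e (nat_lit 336019) (nat_lit 3) (.e (nat_lit 98372) (nat_lit 29) (.e (nat_lit 450586) (nat_lit 10) (.e (nat_lit 573477) (nat_lit 12) .nil))))) .nil)))) (.nd (nat_lit 4) (.nd (nat_lit 5) 
(.lf (nat_lit 153612) (.g (nat_lit 3134) (.e (nat_lit 57406) (nat_lit 12) (.e (nat_lit 336456) (nat_lit 34) (.e (nat_lit 483405) (nat_lit 26) (.e (nat_lit 385068) (nat_lit 26) (.e (nat_lit 532501) (nat_lit 1) (.e (nat_lit 57851) (nat_lit 252) .nil)))))) (.g (nat_lit 5) .nil .nil))) 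
(.lf (nat_lit 153644) (.g (nat_lit 2960) (.e (nat_lit 57406) (nat_lit 12) (.e (nat_lit 336456) (nat_lit 34) (.e (nat_lit 483406) (nat_lit 26) (.e (nat_lit 385068) (nat_lit 26) (.e (nat_lit 532501) (nat_lit 1) (.e (nat_lit 57852) (nat_lit 252) .nil)))))) (.g (nat_lit 4) .nil .nil)))) (.nd (nat_lit 5) 
(.lf (nat_lit 153628) (.g (nat_lit 4019) (.e (nat_lit 57406) (nat_lit 12) (.e (nat_lit 336456) (nat_lit 34) (.e (nat_lit 483406) (nat_lit 26) (.e (nat_lit 385066) (nat_lit 26) (.e (nat_lit 532501) (nat_lit 1) (.e (nat_lit 57851) (nat_lit 252) .nil)))))) (.g (nat_lit 0) .nil .nil))) 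
(.lf (nat_lit 153660) (.g (nat_lit 1927) (.e (nat_lit 57407) (nat_lit 12) (.e (nat_lit 336211) (nat_lit 13) (.e (nat_lit 393231) (nat_lit 17) (.e (nat_lit 7593) (nat_lit 407) (.e (nat_lit 73730) (nat_lit 0) (.e (nat_lit 7261) (nat_lit 384) .nil)))))) (.g (nat_lit 4) .nil .nil))))))) (.nd (nat_lit 2) (.nd (nat_lit 3) (.nd (nat_lit 4) (.nd (nat_lit 5) 
(.lf (nat_lit 153602) (.g (nat_lit 2771) (.e (nat_lit 57406) (nat_lit 12) (.e (nat_lit 336456) (nat_lit 34) (.e (nat_lit 483404) (nat_lit 26) (.e (nat_lit 385068) (nat_lit 26) (.e (nat_lit 532504) (nat_lit 1) (.e (nat_lit 57851) (nat_lit 252) .nil)))))) (.g (nat_lit 5) .nil .nil))) 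
(.lf (nat_lit 153634) (.g (nat_lit 3665) (.e (nat_lit 57406) (nat_lit 12) (.e (nat_lit 336456) (nat_lit 34) (.e (nat_lit 483406) (nat_lit 26) (.e (nat_lit 385066) (nat_lit 26) (.e (nat_lit 532503) (nat_lit 1) (.e (nat_lit 57844) (nat_lit 252) .nil)))))) (.g (nat_lit 5) .nil .nil)))) (.nd (nat_lit 5) 
(.lf (nat_lit 153618) (.g (nat_lit 2665) (.e (nat_lit 57406) (nat_lit 12) (.e (nat_lit 336456) (nat_lit 34) (.e (nat_lit 483406) (nat_lit 26) (.e (nat_lit 385064) (nat_lit 26) (.e (nat_lit 532503) (nat_lit 1) (.e (nat_lit 57844) (nat_lit 252) .nil)))))) (.g (nat_lit 4) .nil .nil))) 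
(.lf (nat_lit 153650) (.g (nat_lit 2937) (.e (nat_lit 57406) (nat_lit 12) (.e (nat_lit 336456) (nat_lit 34) (.e (nat_lit 483407) (nat_lit 26) (.e (nat_lit 385067) (nat_lit 26) (.e (nat_lit 532504) (nat_lit 1) (.e (nat_lit 57851) (nat_lit 252) .nil)))))) (.g (nat_lit 0) .nil .nil))))) (.nd (nat_lit 4) (.nd (nat_lit 5) 
(.lf (nat_lit 153610) (.g (nat_lit 3068) (.e (nat_lit 57406) (nat_lit 12) (.e (nat_lit 336456) (nat_lit 34) (.e (nat_lit 483405) (nat_lit 26) (.e (nat_lit 385067) (nat_lit 26) (.e (nat_lit 532501) (nat_lit 1) (.e (nat_lit 57851) (nat_lit 252) .nil)))))) (.g (nat_lit 0) .nil .nil))) 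
(.lf (nat_lit 153642) (.g (nat_lit 3502) (.e (nat_lit 57406) (nat_lit 12) (.e (nat_lit 336456) (nat_lit 34) (.e (nat_lit 483406) (nat_lit 26) (.e (nat_lit 385068) (nat_lit 26) (.e (nat_lit 532501) (nat_lit 1) (.e (nat_lit 57844) (nat_lit 252) .nil)))))) (.g (nat_lit 5) .nil .nil)))) (.nd (nat_lit 5) 
(.lf (nat_lit 153626) (.g (nat_lit 4262) (.e (nat_lit 57406) (nat_lit 12) (.e (nat_lit 336456) (nat_lit 34) (.e (nat_lit 483406) (nat_lit 26) (.e (nat_lit 385066) (nat_lit 26) (.e (nat_lit 532499) (nat_lit 1) (.e (nat_lit 57854) (nat_lit 252) .nil)))))) (.g (nat_lit 0) .nil .nil))) 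
(.lf (nat_lit 153658) (.g (nat_lit 3307) (.e (nat_lit 57407) (nat_lit 12) (.e (nat_lit 336210) (nat_lit 13) (.e (nat_lit 393301) (nat_lit 27) (.e (nat_lit 491559) (nat_lit 10) (.e (nat_lit 344095) (nat_lit 18) .nil))))) .nil))))) (.nd (nat_lit 3) (.nd (nat_lit 4) (.nd (nat_lit 5) 
(.lf (nat_lit 153606) (.g (nat_lit 2531) (.e (nat_lit 57406) (nat_lit 12) (.e (nat_lit 336456) (nat_lit 34) (.e (nat_lit 483405) (nat_lit 26) (.e (nat_lit 385066) (nat_lit 26) (.e (nat_lit 532501) (nat_lit 1) (.e (nat_lit 57854) (nat_lit 252) .nil)))))) (.g (nat_lit 5) .nil .nil))) 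
(.lf (nat_lit 153638) (.g (nat_lit 2672) (.e (nat_lit 57406) (nat_lit 12) (.e (nat_lit 336456) (nat_lit 34) (.e (nat_lit 483406) (nat_lit 26) (.e (nat_lit 385066) (nat_lit 26) (.e (nat_lit 532504) (nat_lit 1) (.e (nat_lit 57853) (nat_lit 252) .nil)))))) (.g (nat_lit 4) .nil .nil)))) (.nd (nat_lit 5) 
(.lf (nat_lit 153622) (.g (nat_lit 2992) (.e (nat_lit 57406) (nat_lit 12) (.e (nat_lit 336456) (nat_lit 34) (.e (nat_lit 483406) (nat_lit 26) (.e (nat_lit 385065) (nat_lit 26) (.e (nat_lit 532504) (nat_lit 1) (.e (nat_lit 57851) (nat_lit 252) .nil)))))) (.g (nat_lit 0) .nil .nil))) 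
(.lf (nat_lit 153654) (.g (nat_lit 1722) (.e (nat_lit 57407) (nat_lit 12) (.e (nat_lit 336210) (nat_lit 13) (.e (nat_lit 393270) (nat_lit 23) (.e (nat_lit 426448) (nat_lit 20) (.e (nat_lit 114710) (nat_lit 21) (.e (nat_lit 57848) (nat_lit 252) .nil)))))) (.g (nat_lit 4) .nil .nil))))) (.nd (nat_lit 4) (.nd (nat_lit 5) 
(.lf (nat_lit 153614) (.g (nat_lit 3004) (.e (nat_lit 57406) (nat_lit 12) (.e (nat_lit 336456) (nat_lit 34) (.e (nat_lit 483405) (nat_lit 26) (.e (nat_lit 385068) (nat_lit 26) (.e (nat_lit 532504) (nat_lit 1) (.e (nat_lit 57851) (nat_lit 252) .nil)))))) (.g (nat_lit 5) .nil .nil))) 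
(.lf (nat_lit 153646) (.g (nat_lit 3675) (.e (nat_lit 57406) (nat_lit 12) (.e (nat_lit 336456) (nat_lit 34) (.e (nat_lit 483406) (nat_lit 26) (.e (nat_lit 385068) (nat_lit 26) (.e (nat_lit 532503) (nat_lit 1) (.e (nat_lit 57844) (nat_lit 252) .nil)))))) (.g (nat_lit 5) .nil .nil)))) (.nd (nat_lit 5) 
(.lf (nat_lit 153630) (.g (nat_lit 3051) (.e (nat_lit 57406) (nat_lit 12) (.e (nat_lit 336456) (nat_lit 34) (.e (nat_lit 483406) (nat_lit 26) (.e (nat_lit 385066) (nat_lit 26) (.e (nat_lit 532502) (nat_lit 1) (.e (nat_lit 57844) (nat_lit 252) .nil)))))) (.g (nat_lit 5) .nil .nil))) 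
(.lf (nat_lit 153662) (.g (nat_lit 3408) (.e (nat_lit 57407) (nat_lit 12) (.e (nat_lit 336211) (nat_lit 13) (.e (nat_lit 393233) (nat_lit 17) (.e (nat_lit 7593) (nat_lit 407) (.e (nat_lit 73729) (nat_lit 0) (.e (nat_lit 7261) (nat_lit 384) .nil)))))) (.g (nat_lit 0) .nil .nil)))))))) (.nd (nat_lit 1) (.nd (nat_lit 2) (.nd (nat_lit 3) (.nd (nat_lit 4) (.nd (nat_lit 5) 
(.lf (nat_lit 153601) (.g (nat_lit 3263) (.e (nat_lit 57406) (nat_lit 12) (.e (nat_lit 336456) (nat_lit 34) (.e (nat_lit 483404) (nat_lit 26) (.e (nat_lit 385068) (nat_lit 26) (.e (nat_lit 532501) (nat_lit 1) (.e (nat_lit 57854) (nat_lit 252) .nil)))))) (.g (nat_lit 5) .nil .nil))) 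
(.lf (nat_lit 153633) (.g (nat_lit 2654) (.e (nat_lit 57406) (nat_lit 12) (.e (nat_lit 336456) (nat_lit 34) (.e (nat_lit 483406) (nat_lit 26) (.e (nat_lit 385066) (nat_lit 26) (.e (nat_lit 532502) (nat_lit 1) (.e (nat_lit 57853) (nat_lit 252) .nil)))))) (.g (nat_lit 4) .nil .nil)))) (.nd (nat_lit 5) 
(.lf (nat_lit 153617) (.g (nat_lit 2077) (.e (nat_lit 57406) (nat_lit 12) (.e (nat_lit 336456) (nat_lit 34) (.e (nat_lit 483406) (nat_lit 26) (.e (nat_lit 385064) (nat_lit 26) (.e (nat_lit 532501) (nat_lit 1) (.e (nat_lit 57851) (nat_lit 252) .nil)))))) (.g (nat_lit 4) .nil .nil))) 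
(.lf (nat_lit 153649) (.g (nat_lit 4233) (.e (nat_lit 57406) (nat_lit 12) (.e (nat_lit 336456) (nat_lit 34) (.e (nat_lit 483406) (nat_lit 26) (.e (nat_lit 385068) (nat_lit 26) (.e (nat_lit 532504) (nat_lit 1) (.e (nat_lit 57854) (nat_lit 252) .nil)))))) (.g (nat_lit 0) .nil .nil))))) (.nd (nat_lit 4) (.nd (nat_lit 5) 
(.lf (nat_lit 153609) (.g (nat_lit 2626) (.e (nat_lit 57406) (nat_lit 12) (.e (nat_lit 336456) (nat_lit 34) (.e (nat_lit 483405) (nat_lit 26) (.e (nat_lit 385066) (nat_lit 26) (.e (nat_lit 532504) (nat_lit 1) (.e (nat_lit 57854) (nat_lit 252) .nil)))))) (.g (nat_lit 5) .nil .nil))) 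
(.lf (nat_lit 153641) (.g (nat_lit 2905) (.e (nat_lit 57406) (nat_lit 12) (.e (nat_lit 336456) (nat_lit 34) (.e (nat_lit 483406) (nat_lit 26) (.e (nat_lit 385068) (nat_lit 26) (.e (nat_lit 532499) (nat_lit 1) (.e (nat_lit 57854) (nat_lit 252) .nil)))))) (.g (nat_lit 4) .nil .nil)))) (.nd (nat_lit 5) 
(.lf (nat_lit 153625) (.g (nat_lit 2695) (.e (nat_lit 57406) (nat_lit 12) (.e (nat_lit 336456) (nat_lit 34) (.e (nat_lit 483406) (nat_lit 26) (.e (nat_lit 385066) (nat_lit 26) (.e (nat_lit 532499) (nat_lit 1) (.e (nat_lit 57853) (nat_lit 252) .nil)))))) (.g (nat_lit 4) .nil .nil))) 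
(.lf (nat_lit 153657) (.g (nat_lit 3662) (.e (nat_lit 57407) (nat_lit 12) (.e (nat_lit 336210) (nat_lit 13) (.e (nat_lit 393301) (nat_lit 27) (.e (nat_lit 491559) (nat_lit 10) (.e (nat_lit 344091) (nat_lit 18) (.e (nat_lit 7261) (nat_lit 384) .nil)))))) (.g (nat_lit 4) .nil .nil)))))) (.nd (nat_lit 3) (.nd (nat_lit 4) (.nd (nat_lit 5) 
(.lf (nat_lit 153605) (.g (nat_lit 2681) (.e (nat_lit 57406) (nat_lit 12) (.e (nat_lit 336456) (nat_lit 34) (.e (nat_lit 483405) (nat_lit 26) (.e (nat_lit 385066) (nat_lit 26) (.e (nat_lit 532501) (nat_lit 1) (.e (nat_lit 57851) (nat_lit 252) .nil)))))) (.g (nat_lit 5) .nil .nil))) 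
(.lf (nat_lit 153637) (.g (nat_lit 3999) (.e (nat_lit 57406) (nat_lit 12) (.e (nat_lit 336456) (nat_lit 34) (.e (nat_lit 483406) (nat_lit 26) (.e (nat_lit 385066) (nat_lit 26) (.e (nat_lit 532504) (nat_lit 1) (.e (nat_lit 57851) (nat_lit 252) .nil)))))) (.g (nat_lit 0) .nil .nil)))) (.nd (nat_lit 5) 
(.lf (nat_lit 153621) (.g (nat_lit 2536) (.e (nat_lit 57406) (nat_lit 12) (.e (nat_lit 336456) (nat_lit 34) (.e (nat_lit 483406) (nat_lit 26) (.e (nat_lit 385065) (nat_lit 26) (.e (nat_lit 532501) (nat_lit 1) (.e (nat_lit 57854) (nat_lit 252) .nil)))))) (.g (nat_lit 5) .nil .nil))) 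
(.lf (nat_lit 153653) (.g (nat_lit 4344) (.e (nat_lit 57407) (nat_lit 12) (.e (nat_lit 336019) (nat_lit 3) (.e (nat_lit 98373) (nat_lit 29) (.e (nat_lit 450587) (nat_lit 10) (.e (nat_lit 573477) (nat_lit 12) .nil))))) .nil)))) (.nd (nat_lit 4) (.nd (nat_lit 5) 
(.lf (nat_lit 153613) (.g (nat_lit 3337) (.e (nat_lit 57406) (nat_lit 12) (.e (nat_lit 336456) (nat_lit 34) (.e (nat_lit 483405) (nat_lit 26) (.e (nat_lit 385068) (nat_lit 26) (.e (nat_lit 532501) (nat_lit 1) (.e (nat_lit 57854) (nat_lit 252) .nil)))))) (.g (nat_lit 6) .nil .nil))) 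
(.lf (nat_lit 153645) (.g (nat_lit 4238) (.e (nat_lit 57406) (nat_lit 12) (.e (nat_lit 336456) (nat_lit 34) (.e (nat_lit 483406) (nat_lit 26) (.e (nat_lit 385068) (nat_lit 26) (.e (nat_lit 532501) (nat_lit 1) (.e (nat_lit 57854) (nat_lit 252) .nil)))))) (.g (nat_lit 0) .nil .nil)))) (.nd (nat_lit 5) 
(.lf (nat_lit 153629) (.g (nat_lit 4113) (.e (nat_lit 57406) (nat_lit 12) (.e (nat_lit 336456) (nat_lit 34) (.e (nat_lit 483406) (nat_lit 26) (.e (nat_lit 385066) (nat_lit 26) (.e (nat_lit 532501) (nat_lit 1) (.e (nat_lit 57854) (nat_lit 252) .nil)))))) (.g (nat_lit 0) .nil .nil))) 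
(.lf (nat_lit 153661) (.g (nat_lit 3150) (.e (nat_lit 57407) (nat_lit 12) (.e (nat_lit 336211) (nat_lit 13) (.e (nat_lit 393233) (nat_lit 17) (.e (nat_lit 7591) (nat_lit 407) (.e (nat_lit 73729) (nat_lit 0) (.e (nat_lit 7261) (nat_lit 384) .nil)))))) (.g (nat_lit 6) .nil .nil))))))) (.nd (nat_lit 2) (.nd (nat_lit 3) (.nd (nat_lit 4) (.nd (nat_lit 5) 
(.lf (nat_lit 153603) (.g (nat_lit 3006) (.e (nat_lit 57406) (nat_lit 12) (.e (nat_lit 336456) (nat_lit 34) (.e (nat_lit 483404) (nat_lit 26) (.e (nat_lit 385068) (nat_lit 26) (.e (nat_lit 532504) (nat_lit 1) (.e (nat_lit 57854) (nat_lit 252) .nil)))))) (.g (nat_lit 5) .nil .nil))) 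
(.lf (nat_lit 153635) (.g (nat_lit 3575) (.e (nat_lit 57406) (nat_lit 12) (.e (nat_lit 336456) (nat_lit 34) (.e (nat_lit 483406) (nat_lit 26) (.e (nat_lit 385066) (nat_lit 26) (.e (nat_lit 532503) (nat_lit 1) (.e (nat_lit 57846) (nat_lit 252) .nil)))))) (.g (nat_lit 5) .nil .nil)))) (.nd (nat_lit 5) 
(.lf (nat_lit 153619) (.g (nat_lit 3431) (.e (nat_lit 57406) (nat_lit 12) (.e (nat_lit 336456) (nat_lit 34) (.e (nat_lit 483406) (nat_lit 26) (.e (nat_lit 385064) (nat_lit 26) (.e (nat_lit 532504) (nat_lit 1) (.e (nat_lit 57851) (nat_lit 252) .nil)))))) (.g (nat_lit 0) .nil .nil))) 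
(.lf (nat_lit 153651) (.g (nat_lit 2368) (.e (nat_lit 57407) (nat_lit 12) (.e (nat_lit 336019) (nat_lit 3) (.e (nat_lit 98341) (nat_lit 20) (.e (nat_lit 221220) (nat_lit 25) (.e (nat_lit 229120) (nat_lit 5) (.e (nat_lit 114711) (nat_lit 21) (.e (nat_lit 57848) (nat_lit 252) .nil))))))) (.g (nat_lit 4) .nil .nil))))) (.nd (nat_lit 4) (.nd (nat_lit 5) 
(.lf (nat_lit 153611) (.g (nat_lit 3213) (.e (nat_lit 57406) (nat_lit 12) (.e (nat_lit 336456) (nat_lit 34) (.e (nat_lit 483405) (nat_lit 26) (.e (nat_lit 385067) (nat_lit 26) (.e (nat_lit 532504) (nat_lit 1) (.e (nat_lit 57851) (nat_lit 252) .nil)))))) (.g (nat_lit 0) .nil .nil))) 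
(.lf (nat_lit 153643) (.g (nat_lit 4173) (.e (nat_lit 57406) (nat_lit 12) (.e (nat_lit 336456) (nat_lit 34) (.e (nat_lit 483406) (nat_lit 26) (.e (nat_lit 385068) (nat_lit 26) (.e (nat_lit 532501) (nat_lit 1) (.e (nat_lit 57851) (nat_lit 252) .nil)))))) (.g (nat_lit 0) .nil .nil)))) (.nd (nat_lit 5) 
(.lf (nat_lit 153627) (.g (nat_lit 3151) (.e (nat_lit 57406) (nat_lit 12) (.e (nat_lit 336456) (nat_lit 34) (.e (nat_lit 483406) (nat_lit 26) (.e (nat_lit 385066) (nat_lit 26) (.e (nat_lit 532501) (nat_lit 1) (.e (nat_lit 57844) (nat_lit 252) .nil)))))) (.g (nat_lit 5) .nil .nil))) 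
(.lf (nat_lit 153659) (.g (nat_lit 3503) (.e (nat_lit 57407) (nat_lit 12) (.e (nat_lit 336210) (nat_lit 13) (.e (nat_lit 393301) (nat_lit 27) (.e (nat_lit 491560) (nat_lit 10) (.e (nat_lit 344090) (nat_lit 18) (.e (nat_lit 7261) (nat_lit 384) .nil)))))) (.g (nat_lit 4) .nil .nil)))))) (.nd (nat_lit 3) (.nd (nat_lit 4) (.nd (nat_lit 5) 
(.lf (nat_lit 153607) (.g (nat_lit 2540) (.e (nat_lit 57406) (nat_lit 12) (.e (nat_lit 336456) (nat_lit 34) (.e (nat_lit 483405) (nat_lit 26) (.e (nat_lit 385066) (nat_lit 26) (.e (nat_lit 532502) (nat_lit 1) (.e (nat_lit 57854) (nat_lit 252) .nil)))))) (.g (nat_lit 5) .nil .nil))) 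
(.lf (nat_lit 153639) (.g (nat_lit 3590) (.e (nat_lit 57406) (nat_lit 12) (.e (nat_lit 336456) (nat_lit 34) (.e (nat_lit 483406) (nat_lit 26) (.e (nat_lit 385067) (nat_lit 26) (.e (nat_lit 532501) (nat_lit 1) (.e (nat_lit 57851) (nat_lit 252) .nil)))))) (.g (nat_lit 0) .nil .nil)))) (.nd (nat_lit 5) 
(.lf (nat_lit 153623) (.g (nat_lit 3263) (.e (nat_lit 57406) (nat_lit 12) (.e (nat_lit 336456) (nat_lit 34) (.e (nat_lit 483406) (nat_lit 26) (.e (nat_lit 385066) (nat_lit 26) (.e (nat_lit 532498) (nat_lit 1) (.e (nat_lit 57851) (nat_lit 252) .nil)))))) (.g (nat_lit 0) .nil .nil))) 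
(.lf (nat_lit 153655) (.g (nat_lit 2971) (.e (nat_lit 57407) (nat_lit 12) (.e (nat_lit 336210) (nat_lit 13) (.e (nat_lit 393271) (nat_lit 23) (.e (nat_lit 426448) (nat_lit 20) (.e (nat_lit 114711) (nat_lit 21) .nil))))) .nil)))) (.nd (nat_lit 4) (.nd (nat_lit 5) 
(.lf (nat_lit 153615) (.g (nat_lit 3344) (.e (nat_lit 57406) (nat_lit 12) (.e (nat_lit 336456) (nat_lit 34) (.e (nat_lit 483405) (nat_lit 26) (.e (nat_lit 385068) (nat_lit 26) (.e (nat_lit 532504) (nat_lit 1) (.e (nat_lit 57854) (nat_lit 252) .nil)))))) (.g (nat_lit 6) .nil .nil))) 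
(.lf (nat_lit 153647) (.g (nat_lit 3977) (.e (nat_lit 57406) (nat_lit 12) (.e (nat_lit 336456) (nat_lit 34) (.e (nat_lit 483406) (nat_lit 26) (.e (nat_lit 385068) (nat_lit 26) (.e (nat_lit 532504) (nat_lit 1) (.e (nat_lit 57851) (nat_lit 252) .nil)))))) (.g (nat_lit 0) .nil .nil)))) (.nd (nat_lit 5) 
(.lf (nat_lit 153631) (.g (nat_lit 3235) (.e (nat_lit 57406) (nat_lit 12) (.e (nat_lit 336456) (nat_lit 34) (.e (nat_lit 483406) (nat_lit 26) (.e (nat_lit 385066) (nat_lit 26) (.e (nat_lit 532502) (nat_lit 1) (.e (nat_lit 57846) (nat_lit 252) .nil)))))) (.g (nat_lit 4) .nil .nil))) 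
(.lf (nat_lit 153663) (.g (nat_lit 3240) (.e (nat_lit 57407) (nat_lit 12) (.e (nat_lit 336211) (nat_lit 13) (.e (nat_lit 393234) (nat_lit 17) (.e (nat_lit 7591) (nat_lit 407) (.e (nat_lit 73729) (nat_lit 0) (.e (nat_lit 7261) (nat_lit 384) .nil)))))) (.g (nat_lit 5) .nil .nil)))))))))

noncomputable def tv2048 : DT := (.nd (nat_lit 0) (.nd (nat_lit 1) (.nd (nat_lit 2) (.nd (nat_lit 3) (.nd (nat_lit 4) (.nd (nat_lit 5) 
(.lf (nat_lit 153664) (.g (nat_lit 2659) (.e (nat_lit 57407) (nat_lit 12) (.e (nat_lit 336211) (nat_lit 13) (.e (nat_lit 393234) (nat_lit 17) (.e (nat_lit 7593) (nat_lit 407) (.e (nat_lit 73730) (nat_lit 0) (.e (nat_lit 7261) (nat_lit 384) .nil)))))) (.g (nat_lit 4) .nil .nil))) 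
(.lf (nat_lit 153696) (.g (nat_lit 3073) (.e (nat_lit 57407) (nat_lit 12) (.e (nat_lit 336211) (nat_lit 13) (.e (nat_lit 393301) (nat_lit 27) (.e (nat_lit 491559) (nat_lit 10) (.e (nat_lit 344090) (nat_lit 18) .nil))))) .nil))) (.nd (nat_lit 5) 
(.lf (nat_lit 153680) (.g (nat_lit 2900) (.e (nat_lit 57407) (nat_lit 12) (.e (nat_lit 336211) (nat_lit 13) (.e (nat_lit 393271) (nat_lit 23) (.e (nat_lit 426449) (nat_lit 20) (.e (nat_lit 114711) (nat_lit 21) (.e (nat_lit 57847) (nat_lit 252) .nil)))))) (.g (nat_lit 4) .nil .nil))) 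
(.lf (nat_lit 153712) (.g (nat_lit 2905) (.e (nat_lit 57407) (nat_lit 12) (.e (nat_lit 336316) (nat_lit 17) (.e (nat_lit 196666) (nat_lit 13) (.e (nat_lit 65626) (nat_lit 13) (.e (nat_lit 393253) (nat_lit 18) (.e (nat_lit 164178) (nat_lit 154) .nil)))))) (.g (nat_lit 4) .nil .nil))))) (.nd (nat_lit 4) (.nd (nat_lit 5) 
(.lf (nat_lit 153672) (.g (nat_lit 3069) (.e (nat_lit 57407) (nat_lit 12) (.e (nat_lit 336211) (nat_lit 13) (.e (nat_lit 393268) (nat_lit 23) (.e (nat_lit 426448) (nat_lit 20) (.e (nat_lit 114711) (nat_lit 21) (.e (nat_lit 57849) (nat_lit 252) .nil)))))) (.g (nat_lit 6) .nil .nil))) 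
(.lf (nat_lit 153704) (.g (nat_lit 2454) (.e (nat_lit 57407) (nat_lit 12) (.e (nat_lit 336316) (nat_lit 17) (.e (nat_lit 196666) (nat_lit 13) (.e (nat_lit 65610) (nat_lit 10) (.e (nat_lit 344090) (nat_lit 18) .nil))))) .nil))) (.nd (nat_lit 5) 
(.lf (nat_lit 153688) (.g (nat_lit 2164) (.e (nat_lit 57407) (nat_lit 12) (.e (nat_lit 336211) (nat_lit 13) (.e (nat_lit 393292) (nat_lit 26) (.e (nat_lit 475212) (nat_lit 42) (.e (nat_lit 720933) (nat_lit 21) (.e (nat_lit 57848) (nat_lit 252) .nil)))))) (.g (nat_lit 4) .nil .nil))) 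
(.lf (nat_lit 153720) (.g (nat_lit 2432) (.e (nat_lit 57407) (nat_lit 12) (.e (nat_lit 336320) (nat_lit 17) (.e (nat_lit 196674) (nat_lit 15) (.e (nat_lit 81925) (nat_lit 11) (.e (nat_lit 426098) (nat_lit 1) (.e (nat_lit 164179) (nat_lit 154) .nil)))))) (.g (nat_lit 4) .nil .nil)))))) (.nd (nat_lit 3) (.nd (nat_lit 4) (.nd (nat_lit 5) 
(.lf (nat_lit 153668) (.g (nat_lit 2360) (.e (nat_lit 57407) (nat_lit 12) (.e (nat_lit 336211) (nat_lit 13) (.e (nat_lit 393267) (nat_lit 23) (.e (nat_lit 426448) (nat_lit 20) (.e (nat_lit 114711) (nat_lit 21) (.e (nat_lit 57847) (nat_lit 252) .nil)))))) (.g (nat_lit 4) .nil .nil))) 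
(.lf (nat_lit 153700) (.g (nat_lit 3763) (.e (nat_lit 57407) (nat_lit 12) (.e (nat_lit 336211) (nat_lit 13) (.e (nat_lit 393301) (nat_lit 27) (.e (nat_lit 491560) (nat_lit 10) (.e (nat_lit 344091) (nat_lit 18) (.e (nat_lit 7261) (nat_lit 384) .nil)))))) (.g (nat_lit 4) .nil .nil)))) (.nd (nat_lit 5) 
(.lf (nat_lit 153684) (.g (nat_lit 449) (.e (nat_lit 57407) (nat_lit 12) (.e (nat_lit 336211) (nat_lit 13) (.e (nat_lit 393274) (nat_lit 23) .nil))) .nil)) 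
(.lf (nat_lit 153716) (.g (nat_lit 2641) (.e (nat_lit 57407) (nat_lit 12) (.e (nat_lit 336316) (nat_lit 17) (.e (nat_lit 196672) (nat_lit 15) (.e (nat_lit 81925) (nat_lit 11) (.e (nat_lit 426107) (nat_lit 1) (.e (nat_lit 164178) (nat_lit 154) .nil)))))) (.g (nat_lit 4) .nil .nil))))) (.nd (nat_lit 4) (.nd (nat_lit 5) 
(.lf (nat_lit 153676) (.g (nat_lit 2233) (.e (nat_lit 57407) (nat_lit 12) (.e (nat_lit 336211) (nat_lit 13) (.e (nat_lit 393269) (nat_lit 23) (.e (nat_lit 426446) (nat_lit 20) (.e (nat_lit 114710) (nat_lit 21) (.e (nat_lit 57848) (nat_lit 252) .nil)))))) (.g (nat_lit 5) .nil .nil))) 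
(.lf (nat_lit 153708) (.g (nat_lit 1907) (.e (nat_lit 57407) (nat_lit 12) (.e (nat_lit 336316) (nat_lit 17) (.e (nat_lit 196666) (nat_lit 13) (.e (nat_lit 65617) (nat_lit 10) (.e (nat_lit 344095) (nat_lit 18) .nil))))) .nil))) (.nd (nat_lit 5) 
(.lf (nat_lit 153692) (.g (nat_lit 2500) (.e (nat_lit 57407) (nat_lit 12) (.e (nat_lit 336211) (nat_lit 13) (.e (nat_lit 393299) (nat_lit 27) (.e (nat_lit 491560) (nat_lit 10) (.e (nat_lit 344094) (nat_lit 18) (.e (nat_lit 7261) (nat_lit 384) .nil)))))) (.g (nat_lit 4) .nil .nil))) 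
(.lf (nat_lit 153724) (.g (nat_lit 1933) (.e (nat_lit 57407) (nat_lit 12) (.e (nat_lit 336324) (nat_lit 18) (.e (nat_lit 204854) (nat_lit 26) (.e (nat_lit 336210) (nat_lit 13) (.e (nat_lit 393251) (nat_lit 18) (.e (nat_lit 164179) (nat_lit 154) .nil)))))) (.g (nat_lit 4) .nil .nil))))))) (.nd (nat_lit 2) (.nd (nat_lit 3) (.nd (nat_lit 4) (.nd (nat_lit 5) 
(.lf (nat_lit 153666) (.g (nat_lit 2303) (.e (nat_lit 57407) (nat_lit 12) (.e (nat_lit 336211) (nat_lit 13) (.e (nat_lit 393267) (nat_lit 23) (.e (nat_lit 426448) (nat_lit 20) (.e (nat_lit 114710) (nat_lit 21) (.e (nat_lit 57847) (nat_lit 252) .nil)))))) (.g (nat_lit 4) .nil .nil))) 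
(.lf (nat_lit 153698) (.g (nat_lit 3131) (.e (nat_lit 57407) (nat_lit 12) (.e (nat_lit 336211) (nat_lit 13) (.e (nat_lit 393301) (nat_lit 27) (.e (nat_lit 491559) (nat_lit 10) (.e (nat_lit 344095) (nat_lit 18) (.e (nat_lit 7261) (nat_lit 384) .nil)))))) (.g (nat_lit 4) .nil .nil)))) (.nd (nat_lit 5) 
(.lf (nat_lit 153682) (.g (nat_lit 2548) (.e (nat_lit 57407) (nat_lit 12) (.e (nat_lit 336211) (nat_lit 13) (.e (nat_lit 393272) (nat_lit 23) (.e (nat_lit 426446) (nat_lit 20) (.e (nat_lit 114710) (nat_lit 21) (.e (nat_lit 57848) (nat_lit 252) .nil)))))) (.g (nat_lit 5) .nil .nil))) 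
(.lf (nat_lit 153714) (.g (nat_lit 1301) (.e (nat_lit 57407) (nat_lit 12) (.e (nat_lit 336316) (nat_lit 17) (.e (nat_lit 196670) (nat_lit 14) (.e (nat_lit 73794) (nat_lit 46) .nil)))) .nil)))) (.nd (nat_lit 4) (.nd (nat_lit 5) 
(.lf (nat_lit 153674) (.g (nat_lit 1933) (.e (nat_lit 57407) (nat_lit 12) (.e (nat_lit 336211) (nat_lit 13) (.e (nat_lit 393268) (nat_lit 23) (.e (nat_lit 426449) (nat_lit 20) (.e (nat_lit 114711) (nat_lit 21) (.e (nat_lit 57848) (nat_lit 252) .nil)))))) (.g (nat_lit 4) .nil .nil))) 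
(.lf (nat_lit 153706) (.g (nat_lit 2724) (.e (nat_lit 57407) (nat_lit 12) (.e (nat_lit 336316) (nat_lit 17) (.e (nat_lit 196666) (nat_lit 13) (.e (nat_lit 65610) (nat_lit 10) (.e (nat_lit 344183) (nat_lit 49) (.e (nat_lit 819228) (nat_lit 9) (.e (nat_lit 1183) (nat_lit 87) (.e (nat_lit 57848) (nat_lit 252) .nil)))))))) (.g (nat_lit 4) .nil .nil)))) (.nd (nat_lit 5) 
(.lf (nat_lit 153690) (.g (nat_lit 1883) (.e (nat_lit 57407) (nat_lit 12) (.e (nat_lit 336211) (nat_lit 13) (.e (nat_lit 393294) (nat_lit 26) (.e (nat_lit 475214) (nat_lit 42) (.e (nat_lit 720933) (nat_lit 21) (.e (nat_lit 57849) (nat_lit 252) .nil)))))) (.g (nat_lit 4) .nil .nil))) 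
(.lf (nat_lit 153722) (.g (nat_lit 1855) (.e (nat_lit 57407) (nat_lit 12) (.e (nat_lit 336324) (nat_lit 18) (.e (nat_lit 204854) (nat_lit 26) (.e (nat_lit 336115) (nat_lit 9) .nil)))) .nil))))) (.nd (nat_lit 3) (.nd (nat_lit 4) (.nd (nat_lit 5) 
(.lf (nat_lit 153670) (.g (nat_lit 2456) (.e (nat_lit 57407) (nat_lit 12) (.e (nat_lit 336211) (nat_lit 13) (.e (nat_lit 393268) (nat_lit 23) (.e (nat_lit 426446) (nat_lit 20) (.e (nat_lit 114710) (nat_lit 21) (.e (nat_lit 57848) (nat_lit 252) .nil)))))) (.g (nat_lit 5) .nil .nil))) 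
(.lf (nat_lit 153702) (.g (nat_lit 363) (.e (nat_lit 57407) (nat_lit 12) (.e (nat_lit 336316) (nat_lit 17) (.e (nat_lit 196666) (nat_lit 13) .nil))) .nil))) (.nd (nat_lit 5) 
(.lf (nat_lit 153686) (.g (nat_lit 380) (.e (nat_lit 57407) (nat_lit 12) (.e (nat_lit 336211) (nat_lit 13) (.e (nat_lit 393291) (nat_lit 26) .nil))) .nil)) 
(.lf (nat_lit 153718) (.g (nat_lit 2081) (.e (nat_lit 57407) (nat_lit 12) (.e (nat_lit 336320) (nat_lit 17) (.e (nat_lit 196672) (nat_lit 15) (.e (nat_lit 81927) (nat_lit 11) (.e (nat_lit 426098) (nat_lit 1) (.e (nat_lit 164177) (nat_lit 154) .nil)))))) (.g (nat_lit 4) .nil .nil))))) (.nd (nat_lit 4) (.nd (nat_lit 5) 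
(.lf (nat_lit 153678) (.g (nat_lit 3249) (.e (nat_lit 57407) (nat_lit 12) (.e (nat_lit 336211) (nat_lit 13) (.e (nat_lit 393271) (nat_lit 23) (.e (nat_lit 426446) (nat_lit 20) (.e (nat_lit 114711) (nat_lit 21) (.e (nat_lit 57848) (nat_lit 252) .nil)))))) (.g (nat_lit 6) .nil .nil))) 
(.lf (nat_lit 153710) (.g (nat_lit 3613) (.e (nat_lit 57407) (nat_lit 12) (.e (nat_lit 336316) (nat_lit 17) (.e (nat_lit 196666) (nat_lit 13) (.e (nat_lit 65626) (nat_lit 13) (.e (nat_lit 393251) (nat_lit 18) (.e (nat_lit 164177) (nat_lit 154) .nil)))))) (.g (nat_lit 5) .nil .nil)))) (.nd (nat_lit 5) 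
(.lf (nat_lit 153694) (.g (nat_lit 2829) (.e (nat_lit 57407) (nat_lit 12) (.e (nat_lit 336211) (nat_lit 13) (.e (nat_lit 393299) (nat_lit 27) (.e (nat_lit 491560) (nat_lit 10) (.e (nat_lit 344096) (nat_lit 18) (.e (nat_lit 7261) (nat_lit 384) .nil)))))) (.g (nat_lit 4) .nil .nil))) 
(.lf (nat_lit 153726) (.g (nat_lit 3558) (.e (nat_lit 57407) (nat_lit 12) (.e (nat_lit 336324) (nat_lit 18) (.e (nat_lit 204854) (nat_lit 26) (.e (nat_lit 336211) (nat_lit 13) (.e (nat_lit 393251) (nat_lit 18) (.e (nat_lit 164179) (nat_lit 154) .nil)))))) (.g (nat_lit 0) .nil .nil)))))))) (.nd (nat_lit 1) (.nd (nat_lit 2) (.nd (nat_lit 3) (.nd (nat_lit 4) (.nd (nat_lit 5) 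
(.lf (nat_lit 153665) (.g (nat_lit 2138) (.e (nat_lit 57407) (nat_lit 12) (.e (nat_lit 336211) (nat_lit 13) (.e (nat_lit 393267) (nat_lit 23) (.e (nat_lit 426446) (nat_lit 20) (.e (nat_lit 114710) (nat_lit 21) (.e (nat_lit 57848) (nat_lit 252) .nil)))))) (.g (nat_lit 5) .nil .nil))) 
(.lf (nat_lit 153697) (.g (nat_lit 3519) (.e (nat_lit 57407) (nat_lit 12) (.e (nat_lit 336211) (nat_lit 13) (.e (nat_lit 393301) (nat_lit 27) (.e (nat_lit 491559) (nat_lit 10) (.e (nat_lit 344091) (nat_lit 18) (.e (nat_lit 7261) (nat_lit 384) .nil)))))) (.g (nat_lit 4) .nil .nil)))) (.nd (nat_lit 5) 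
(.lf (nat_lit 153681) (.g (nat_lit 1554) (.e (nat_lit 57407) (nat_lit 12) (.e (nat_lit 336211) (nat_lit 13) (.e (nat_lit 393271) (nat_lit 23) (.e (nat_lit 433920) (nat_lit 20) .nil)))) .nil)) 
(.lf (nat_lit 153713) (.g (nat_lit 4360) (.e (nat_lit 57407) (nat_lit 12) (.e (nat_lit 336316) (nat_lit 17) (.e (nat_lit 196666) (nat_lit 13) (.e (nat_lit 65627) (nat_lit 13) (.e (nat_lit 393253) (nat_lit 18) (.e (nat_lit 164178) (nat_lit 154) .nil)))))) (.g (nat_lit 6) .nil .nil))))) (.nd (nat_lit 4) (.nd (nat_lit 5) 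
(.lf (nat_lit 153673) (.g (nat_lit 1493) (.e (nat_lit 57407) (nat_lit 12) (.e (nat_lit 336211) (nat_lit 13) (.e (nat_lit 393268) (nat_lit 23) (.e (nat_lit 426449) (nat_lit 20) (.e (nat_lit 114710) (nat_lit 21) .nil))))) .nil)) 
(.lf (nat_lit 153705) (.g (nat_lit 2885) (.e (nat_lit 57407) (nat_lit 12) (.e (nat_lit 336316) (nat_lit 17) (.e (nat_lit 196666) (nat_lit 13) (.e (nat_lit 65610) (nat_lit 10) (.e (nat_lit 344090) (nat_lit 18) (.e (nat_lit 7605) (nat_lit 410) (.e (nat_lit 999) (nat_lit 81) (.e (nat_lit 1183) (nat_lit 87) (.e (nat_lit 57848) (nat_lit 252) .nil))))))))) (.g (nat_lit 4) .nil .nil)))) (.nd (nat_lit 5) 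
(.lf (nat_lit 153689) (.g (nat_lit 2208) (.e (nat_lit 57407) (nat_lit 12) (.e (nat_lit 336211) (nat_lit 13) (.e (nat_lit 393294) (nat_lit 26) (.e (nat_lit 475214) (nat_lit 42) (.e (nat_lit 720933) (nat_lit 21) (.e (nat_lit 57848) (nat_lit 252) .nil)))))) (.g (nat_lit 4) .nil .nil))) 
(.lf (nat_lit 153721) (.g (nat_lit 792) (.e (nat_lit 57407) (nat_lit 12) (.e (nat_lit 336324) (nat_lit 18) (.e (nat_lit 204851) (nat_lit 26) .nil))) .nil))))) (.nd (nat_lit 3) (.nd (nat_lit 4) (.nd (nat_lit 5) 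
(.lf (nat_lit 153669) (.g (nat_lit 1680) (.e (nat_lit 57407) (nat_lit 12) (.e (nat_lit 336211) (nat_lit 13) (.e (nat_lit 393268) (nat_lit 23) (.e (nat_lit 426361) (nat_lit 15) (.e (nat_lit 2195) (nat_lit 144) .nil))))) .nil)) 
(.lf (nat_lit 153701) (.g (nat_lit 3987) (.e (nat_lit 57407) (nat_lit 12) (.e (nat_lit 336211) (nat_lit 13) (.e (nat_lit 393301) (nat_lit 27) (.e (nat_lit 491560) (nat_lit 10) (.e (nat_lit 344095) (nat_lit 18) (.e (nat_lit 7261) (nat_lit 384) .nil)))))) (.g (nat_lit 4) .nil .nil)))) (.nd (nat_lit 5) 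
(.lf (nat_lit 153685) (.g (nat_lit 447) (.e (nat_lit 57407) (nat_lit 12) (.e (nat_lit 336211) (nat_lit 13) (.e (nat_lit 393279) (nat_lit 23) .nil))) .nil)) 
(.lf (nat_lit 153717) (.g (nat_lit 3258) (.e (nat_lit 57407) (nat_lit 12) (.e (nat_lit 336316) (nat_lit 17) (.e (nat_lit 196681) (nat_lit 17) (.e (nat_lit 131127) (nat_lit 13) (.e (nat_lit 393253) (nat_lit 18) (.e (nat_lit 164179) (nat_lit 154) .nil)))))) (.g (nat_lit 6) .nil .nil))))) (.nd (nat_lit 4) (.nd (nat_lit 5) 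
(.lf (nat_lit 153677) (.g (nat_lit 2761) (.e (nat_lit 57407) (nat_lit 12) (.e (nat_lit 336211) (nat_lit 13) (.e (nat_lit 393271) (nat_lit 23) (.e (nat_lit 426446) (nat_lit 20) (.e (nat_lit 114710) (nat_lit 21) (.e (nat_lit 57848) (nat_lit 252) .nil)))))) (.g (nat_lit 5) .nil .nil))) 
(.lf (nat_lit 153709) (.g (nat_lit 2125) (.e (nat_lit 57407) (nat_lit 12) (.e (nat_lit 336316) (nat_lit 17) (.e (nat_lit 196666) (nat_lit 13) (.e (nat_lit 65625) (nat_lit 13) (.e (nat_lit 393254) (nat_lit 18) (.e (nat_lit 164179) (nat_lit 154) .nil)))))) (.g (nat_lit 4) .nil .nil)))) (.nd (nat_lit 5) 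
(.lf (nat_lit 153693) (.g (nat_lit 2490) (.e (nat_lit 57407) (nat_lit 12) (.e (nat_lit 336211) (nat_lit 13) (.e (nat_lit 393299) (nat_lit 27) (.e (nat_lit 491560) (nat_lit 10) (.e (nat_lit 344095) (nat_lit 18) .nil))))) .nil)) 
(.lf (nat_lit 153725) (.g (nat_lit 2396) (.e (nat_lit 57407) (nat_lit 12) (.e (nat_lit 336324) (nat_lit 18) (.e (nat_lit 204854) (nat_lit 26) (.e (nat_lit 336211) (nat_lit 13) (.e (nat_lit 393251) (nat_lit 18) (.e (nat_lit 164177) (nat_lit 154) .nil)))))) (.g (nat_lit 4) .nil .nil))))))) (.nd (nat_lit 2) (.nd (nat_lit 3) (.nd (nat_lit 4) (.nd (nat_lit 5) 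
(.lf (nat_lit 153667) (.g (nat_lit 1845) (.e (nat_lit 57407) (nat_lit 12) (.e (nat_lit 336211) (nat_lit 13) (.e (nat_lit 393267) (nat_lit 23) (.e (nat_lit 426448) (nat_lit 20) (.e (nat_lit 114710) (nat_lit 21) (.e (nat_lit 57848) (nat_lit 252) .nil)))))) (.g (nat_lit 4) .nil .nil))) 
(.lf (nat_lit 153699) (.g (nat_lit 3041) (.e (nat_lit 57407) (nat_lit 12) (.e (nat_lit 336211) (nat_lit 13) (.e (nat_lit 393301) (nat_lit 27) (.e (nat_lit 491560) (nat_lit 10) (.e (nat_lit 344087) (nat_lit 18) .nil))))) .nil))) (.nd (nat_lit 5) 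
(.lf (nat_lit 153683) (.g (nat_lit 2840) (.e (nat_lit 57407) (nat_lit 12) (.e (nat_lit 336211) (nat_lit 13) (.e (nat_lit 393273) (nat_lit 23) (.e (nat_lit 426446) (nat_lit 20) (.e (nat_lit 114710) (nat_lit 21) (.e (nat_lit 57848) (nat_lit 252) .nil)))))) (.g (nat_lit 5) .nil .nil))) 
(.lf (nat_lit 153715) (.g (nat_lit 1309) (.e (nat_lit 57407) (nat_lit 12) (.e (nat_lit 336316) (nat_lit 17) (.e (nat_lit 196672) (nat_lit 15) (.e (nat_lit 81925) (nat_lit 11) .nil)))) .nil)))) (.nd (nat_lit 4) (.nd (nat_lit 5) 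
(.lf (nat_lit 153675) (.g (nat_lit 1743) (.e (nat_lit 57407) (nat_lit 12) (.e (nat_lit 336211) (nat_lit 13) (.e (nat_lit 393268) (nat_lit 23) (.e (nat_lit 433920) (nat_lit 20) .nil)))) .nil)) 
(.lf (nat_lit 153707) (.g (nat_lit 1958) (.e (nat_lit 57407) (nat_lit 12) (.e (nat_lit 336316) (nat_lit 17) (.e (nat_lit 196666) (nat_lit 13) (.e (nat_lit 65617) (nat_lit 10) (.e (nat_lit 344087) (nat_lit 18) .nil))))) .nil))) (.nd (nat_lit 5) 
(.lf (nat_lit 153691) (.g (nat_lit 2824) (.e (nat_lit 57407) (nat_lit 12) (.e (nat_lit 336211) (nat_lit 13) (.e (nat_lit 393299) (nat_lit 27) (.e (nat_lit 491560) (nat_lit 10) (.e (nat_lit 344091) (nat_lit 18) (.e (nat_lit 7261) (nat_lit 384) .nil)))))) (.g (nat_lit 4) .nil .nil))) 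
(.lf (nat_lit 153723) (.g (nat_lit 1449) (.e (nat_lit 57407) (nat_lit 12) (.e (nat_lit 336324) (nat_lit 18) (.e (nat_lit 204854) (nat_lit 26) (.e (nat_lit 336210) (nat_lit 13) .nil)))) .nil))))) (.nd (nat_lit 3) (.nd (nat_lit 4) (.nd (nat_lit 5) 
(.lf (nat_lit 153671) (.g (nat_lit 3247) (.e (nat_lit 57407) (nat_lit 12) (.e (nat_lit 336211) (nat_lit 13) (.e (nat_lit 393268) (nat_lit 23) (.e (nat_lit 426448) (nat_lit 20) (.e (nat_lit 114711) (nat_lit 21) (.e (nat_lit 57848) (nat_lit 252) .nil)))))) (.g (nat_lit 6) .nil .nil))) 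
(.lf (nat_lit 153703) (.g (nat_lit 1390) (.e (nat_lit 57407) (nat_lit 12) (.e (nat_lit 336316) (nat_lit 17) (.e (nat_lit 196666) (nat_lit 13) (.e (nat_lit 65583) (nat_lit 7) .nil)))) .nil))) (.nd (nat_lit 5) 
(.lf (nat_lit 153687) (.g (nat_lit 2416) (.e (nat_lit 57407) (nat_lit 12) (.e (nat_lit 336211) (nat_lit 13) (.e (nat_lit 393291) (nat_lit 26) (.e (nat_lit 475214) (nat_lit 42) (.e (nat_lit 720933) (nat_lit 21) (.e (nat_lit 57848) (nat_lit 252) .nil)))))) (.g (nat_lit 4) .nil .nil))) 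
(.lf (nat_lit 153719) (.g (nat_lit 2024) (.e (nat_lit 57407) (nat_lit 12) (.e (nat_lit 336320) (nat_lit 17) (.e (nat_lit 196674) (nat_lit 15) (.e (nat_lit 81925) (nat_lit 11) (.e (nat_lit 426098) (nat_lit 1) (.e (nat_lit 164177) (nat_lit 154) .nil)))))) (.g (nat_lit 4) .nil .nil))))) (.nd (nat_lit 4) (.nd (nat_lit 5) 
(.lf (nat_lit 153679) (.g (nat_lit 3508) (.e (nat_lit 57407) (nat_lit 12) (.e (nat_lit 336211) (nat_lit 13) (.e (nat_lit 393271) (nat_lit 23) (.e (nat_lit 426448) (nat_lit 20) (.e (nat_lit 114711) (nat_lit 21) (.e (nat_lit 57848) (nat_lit 252) .nil)))))) (.g (nat_lit 6) .nil .nil))) 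
(.lf (nat_lit 153711) (.g (nat_lit 3030) (.e (nat_lit 57407) (nat_lit 12) (.e (nat_lit 336316) (nat_lit 17) (.e (nat_lit 196666) (nat_lit 13) (.e (nat_lit 65626) (nat_lit 13) (.e (nat_lit 393251) (nat_lit 18) (.e (nat_lit 164179) (nat_lit 154) .nil)))))) (.g (nat_lit 5) .nil .nil)))) (.nd (nat_lit 5) 
(.lf (nat_lit 153695) (.g (nat_lit 2963) (.e (nat_lit 57407) (nat_lit 12) (.e (nat_lit 336211) (nat_lit 13) (.e (nat_lit 393300) (nat_lit 27) (.e (nat_lit 491560) (nat_lit 10) (.e (nat_lit 344095) (nat_lit 18) (.e (nat_lit 7261) (nat_lit 384) .nil)))))) (.g (nat_lit 4) .nil .nil))) 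
(.lf (nat_lit 153727) (.g (nat_lit 3545) (.e (nat_lit 57407) (nat_lit 12) (.e (nat_lit 336324) (nat_lit 18) (.e (nat_lit 204854) (nat_lit 26) (.e (nat_lit 336211) (nat_lit 13) (.e (nat_lit 393253) (nat_lit 18) (.e (nat_lit 164178) (nat_lit 154) .nil)))))) (.g (nat_lit 0) .nil .nil)))))))))

noncomputable def tv2049 : DT := (.nd (nat_lit 0) (.nd (nat_lit 1) (.nd (nat_lit 2) (.nd (nat_lit 3) (.nd (nat_lit 4) (.nd (nat_lit 5) 
(.lf (nat_lit 153728) (.g (nat_lit 3459) (.e (nat_lit 57407) (nat_lit 12) (.e (nat_lit 336324) (nat_lit 18) (.e (nat_lit 204854) (nat_lit 26) (.e (nat_lit 336211) (nat_lit 13) (.e (nat_lit 393253) (nat_lit 18) (.e (nat_lit 164179) (nat_lit 154) .nil)))))) (.g (nat_lit 0) .nil .nil))) 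
(.lf (nat_lit 153760) (.g (nat_lit 3501) (.e (nat_lit 57407) (nat_lit 12) (.e (nat_lit 336326) (nat_lit 18) (.e (nat_lit 204869) (nat_lit 29) (.e (nat_lit 360450) (nat_lit 0) (.e (nat_lit 7697) (nat_lit 412) .nil))))) .nil))) (.nd (nat_lit 5) 
(.lf (nat_lit 153744) (.g (nat_lit 3200) (.e (nat_lit 57407) (nat_lit 12) (.e (nat_lit 336326) (nat_lit 18) (.e (nat_lit 204854) (nat_lit 26) (.e (nat_lit 336211) (nat_lit 13) (.e (nat_lit 393251) (nat_lit 18) (.e (nat_lit 164178) (nat_lit 154) .nil)))))) (.g (nat_lit 5) .nil .nil))) 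
(.lf (nat_lit 153776) (.g (nat_lit 1822) (.e (nat_lit 57407) (nat_lit 12) (.e (nat_lit 336326) (nat_lit 18) (.e (nat_lit 204877) (nat_lit 31) (.e (nat_lit 376842) (nat_lit 11) (.e (nat_lit 426097) (nat_lit 1) (.e (nat_lit 164177) (nat_lit 154) .nil)))))) (.g (nat_lit 4) .nil .nil))))) (.nd (nat_lit 4) (.nd (nat_lit 5) 
(.lf (nat_lit 153736) (.g (nat_lit 2659) (.e (nat_lit 57407) (nat_lit 12) (.e (nat_lit 336324) (nat_lit 18) (.e (nat_lit 204877) (nat_lit 31) (.e (nat_lit 376842) (nat_lit 11) (.e (nat_lit 426098) (nat_lit 1) (.e (nat_lit 164178) (nat_lit 154) .nil)))))) (.g (nat_lit 5) .nil .nil))) 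
(.lf (nat_lit 153768) (.g (nat_lit 1565) (.e (nat_lit 57407) (nat_lit 12) (.e (nat_lit 336326) (nat_lit 18) (.e (nat_lit 204869) (nat_lit 29) (.e (nat_lit 368384) (nat_lit 24) .nil)))) .nil))) (.nd (nat_lit 5) 
(.lf (nat_lit 153752) (.g (nat_lit 2068) (.e (nat_lit 57407) (nat_lit 12) (.e (nat_lit 336326) (nat_lit 18) (.e (nat_lit 204868) (nat_lit 29) (.e (nat_lit 360452) (nat_lit 0) (.e (nat_lit 7936) (nat_lit 412) .nil))))) .nil)) 
(.lf (nat_lit 153784) (.g (nat_lit 2261) (.e (nat_lit 57407) (nat_lit 12) (.e (nat_lit 336366) (nat_lit 27) (.e (nat_lit 426499) (nat_lit 27) (.e (nat_lit 336196) (nat_lit 12) (.e (nat_lit 385066) (nat_lit 26) .nil))))) .nil))))) (.nd (nat_lit 3) (.nd (nat_lit 4) (.nd (nat_lit 5) 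
(.lf (nat_lit 153732) (.g (nat_lit 2406) (.e (nat_lit 57407) (nat_lit 12) (.e (nat_lit 336324) (nat_lit 18) (.e (nat_lit 204866) (nat_lit 28) (.e (nat_lit 352273) (nat_lit 11) (.e (nat_lit 426107) (nat_lit 1) (.e (nat_lit 164179) (nat_lit 154) .nil)))))) (.g (nat_lit 4) .nil .nil))) 
(.lf (nat_lit 153764) (.g (nat_lit 3450) (.e (nat_lit 57407) (nat_lit 12) (.e (nat_lit 336326) (nat_lit 18) (.e (nat_lit 204869) (nat_lit 29) (.e (nat_lit 360451) (nat_lit 0) (.e (nat_lit 7695) (nat_lit 412) .nil))))) .nil))) (.nd (nat_lit 5) 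
(.lf (nat_lit 153748) (.g (nat_lit 2572) (.e (nat_lit 57407) (nat_lit 12) (.e (nat_lit 336326) (nat_lit 18) (.e (nat_lit 204866) (nat_lit 28) (.e (nat_lit 352273) (nat_lit 11) (.e (nat_lit 426107) (nat_lit 1) (.e (nat_lit 164179) (nat_lit 154) .nil)))))) (.g (nat_lit 5) .nil .nil))) 
(.lf (nat_lit 153780) (.g (nat_lit 2246) (.e (nat_lit 57407) (nat_lit 12) (.e (nat_lit 336366) (nat_lit 27) (.e (nat_lit 426498) (nat_lit 27) (.e (nat_lit 336076) (nat_lit 9) (.e (nat_lit 336324) (nat_lit 18) (.e (nat_lit 204831) (nat_lit 18) (.e (nat_lit 57849) (nat_lit 252) .nil))))))) (.g (nat_lit 4) .nil .nil))))) (.nd (nat_lit 4) (.nd (nat_lit 5) 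
(.lf (nat_lit 153740) (.g (nat_lit 3389) (.e (nat_lit 57407) (nat_lit 12) (.e (nat_lit 336325) (nat_lit 18) (.e (nat_lit 204861) (nat_lit 26) (.e (nat_lit 336213) (nat_lit 13) (.e (nat_lit 393251) (nat_lit 18) (.e (nat_lit 164179) (nat_lit 154) .nil)))))) (.g (nat_lit 6) .nil .nil))) 
(.lf (nat_lit 153772) (.g (nat_lit 484) (.e (nat_lit 57407) (nat_lit 12) (.e (nat_lit 336326) (nat_lit 18) (.e (nat_lit 204870) (nat_lit 29) .nil))) .nil))) (.nd (nat_lit 5) 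
(.lf (nat_lit 153756) (.g (nat_lit 1749) (.e (nat_lit 57407) (nat_lit 12) (.e (nat_lit 336326) (nat_lit 18) (.e (nat_lit 204869) (nat_lit 29) (.e (nat_lit 360448) (nat_lit 0) .nil)))) .nil)) 
(.lf (nat_lit 153788) (.g (nat_lit 2385) (.e (nat_lit 57407) (nat_lit 12) (.e (nat_lit 336366) (nat_lit 27) (.e (nat_lit 426499) (nat_lit 27) (.e (nat_lit 336196) (nat_lit 12) (.e (nat_lit 385066) (nat_lit 26) (.e (nat_lit 532503) (nat_lit 1) (.e (nat_lit 57848) (nat_lit 252) .nil))))))) (.g (nat_lit 4) .nil .nil))))))) (.nd (nat_lit 2) (.nd (nat_lit 3) (.nd (nat_lit 4) (.nd (nat_lit 5) 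
(.lf (nat_lit 153730) (.g (nat_lit 2078) (.e (nat_lit 57407) (nat_lit 12) (.e (nat_lit 336324) (nat_lit 18) (.e (nat_lit 204855) (nat_lit 26) (.e (nat_lit 336212) (nat_lit 13) (.e (nat_lit 393251) (nat_lit 18) .nil))))) .nil)) 
(.lf (nat_lit 153762) (.g (nat_lit 3048) (.e (nat_lit 57407) (nat_lit 12) (.e (nat_lit 336326) (nat_lit 18) (.e (nat_lit 204869) (nat_lit 29) (.e (nat_lit 360450) (nat_lit 0) (.e (nat_lit 7936) (nat_lit 412) .nil))))) .nil))) (.nd (nat_lit 5) 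
(.lf (nat_lit 153746) (.g (nat_lit 2069) (.e (nat_lit 57407) (nat_lit 12) (.e (nat_lit 336326) (nat_lit 18) (.e (nat_lit 204854) (nat_lit 26) (.e (nat_lit 336314) (nat_lit 16) .nil)))) .nil)) 
(.lf (nat_lit 153778) (.g (nat_lit 2150) (.e (nat_lit 57407) (nat_lit 12) (.e (nat_lit 336326) (nat_lit 18) (.e (nat_lit 204877) (nat_lit 31) (.e (nat_lit 376860) (nat_lit 21) (.e (nat_lit 57692) (nat_lit 156) (.e (nat_lit 171776) (nat_lit 62) (.e (nat_lit 57847) (nat_lit 252) .nil))))))) (.g (nat_lit 5) .nil .nil))))) (.nd (nat_lit 4) (.nd (nat_lit 5) 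
(.lf (nat_lit 153738) (.g (nat_lit 3068) (.e (nat_lit 57407) (nat_lit 12) (.e (nat_lit 336324) (nat_lit 18) (.e (nat_lit 204877) (nat_lit 31) (.e (nat_lit 376842) (nat_lit 11) (.e (nat_lit 426107) (nat_lit 1) (.e (nat_lit 164179) (nat_lit 154) .nil)))))) (.g (nat_lit 0) .nil .nil))) 
(.lf (nat_lit 153770) (.g (nat_lit 1467) (.e (nat_lit 57407) (nat_lit 12) (.e (nat_lit 336326) (nat_lit 18) (.e (nat_lit 204869) (nat_lit 29) (.e (nat_lit 360493) (nat_lit 27) .nil)))) .nil))) (.nd (nat_lit 5) 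
(.lf (nat_lit 153754) (.g (nat_lit 1383) (.e (nat_lit 57407) (nat_lit 12) (.e (nat_lit 336326) (nat_lit 18) (.e (nat_lit 204868) (nat_lit 29) (.e (nat_lit 360493) (nat_lit 27) .nil)))) .nil)) 
(.lf (nat_lit 153786) (.g (nat_lit 2943) (.e (nat_lit 57407) (nat_lit 12) (.e (nat_lit 336366) (nat_lit 27) (.e (nat_lit 426499) (nat_lit 27) (.e (nat_lit 336196) (nat_lit 12) (.e (nat_lit 385066) (nat_lit 26) (.e (nat_lit 532502) (nat_lit 1) (.e (nat_lit 57849) (nat_lit 252) .nil))))))) (.g (nat_lit 4) .nil .nil)))))) (.nd (nat_lit 3) (.nd (nat_lit 4) (.nd (nat_lit 5) 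
(.lf (nat_lit 153734) (.g (nat_lit 792) (.e (nat_lit 57407) (nat_lit 12) (.e (nat_lit 336324) (nat_lit 18) (.e (nat_lit 204868) (nat_lit 29) .nil))) .nil)) 
(.lf (nat_lit 153766) (.g (nat_lit 3495) (.e (nat_lit 57407) (nat_lit 12) (.e (nat_lit 336326) (nat_lit 18) (.e (nat_lit 204869) (nat_lit 29) (.e (nat_lit 360451) (nat_lit 0) (.e (nat_lit 7697) (nat_lit 412) (.e (nat_lit 57363) (nat_lit 1) (.e (nat_lit 57847) (nat_lit 252) .nil))))))) (.g (nat_lit 4) .nil .nil)))) (.nd (nat_lit 5) 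
(.lf (nat_lit 153750) (.g (nat_lit 472) (.e (nat_lit 57407) (nat_lit 12) (.e (nat_lit 336326) (nat_lit 18) (.e (nat_lit 204868) (nat_lit 29) .nil))) .nil)) 
(.lf (nat_lit 153782) (.g (nat_lit 2392) (.e (nat_lit 57407) (nat_lit 12) (.e (nat_lit 336366) (nat_lit 27) (.e (nat_lit 426499) (nat_lit 27) (.e (nat_lit 336078) (nat_lit 9) (.e (nat_lit 336324) (nat_lit 18) (.e (nat_lit 204831) (nat_lit 18) (.e (nat_lit 57849) (nat_lit 252) .nil))))))) (.g (nat_lit 4) .nil .nil))))) (.nd (nat_lit 4) (.nd (nat_lit 5) 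
(.lf (nat_lit 153742) (.g (nat_lit 1834) (.e (nat_lit 57407) (nat_lit 12) (.e (nat_lit 336325) (nat_lit 18) (.e (nat_lit 204877) (nat_lit 31) (.e (nat_lit 376842) (nat_lit 11) (.e (nat_lit 426098) (nat_lit 1) (.e (nat_lit 164179) (nat_lit 154) .nil)))))) (.g (nat_lit 4) .nil .nil))) 
(.lf (nat_lit 153774) (.g (nat_lit 1811) (.e (nat_lit 57407) (nat_lit 12) (.e (nat_lit 336326) (nat_lit 18) (.e (nat_lit 204876) (nat_lit 31) (.e (nat_lit 376842) (nat_lit 11) (.e (nat_lit 426097) (nat_lit 1) (.e (nat_lit 164177) (nat_lit 154) .nil)))))) (.g (nat_lit 4) .nil .nil)))) (.nd (nat_lit 5) 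
(.lf (nat_lit 153758) (.g (nat_lit 2363) (.e (nat_lit 57407) (nat_lit 12) (.e (nat_lit 336326) (nat_lit 18) (.e (nat_lit 204869) (nat_lit 29) (.e (nat_lit 360448) (nat_lit 0) (.e (nat_lit 7695) (nat_lit 412) .nil))))) .nil)) 
(.lf (nat_lit 153790) (.g (nat_lit 3303) (.e (nat_lit 57407) (nat_lit 12) (.e (nat_lit 336366) (nat_lit 27) (.e (nat_lit 426499) (nat_lit 27) (.e (nat_lit 336196) (nat_lit 12) (.e (nat_lit 385068) (nat_lit 26) (.e (nat_lit 532499) (nat_lit 1) (.e (nat_lit 57847) (nat_lit 252) .nil))))))) (.g (nat_lit 5) .nil .nil)))))))) 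
(.nd (nat_lit 1) (.nd (nat_lit 2) (.nd (nat_lit 3) (.nd (nat_lit 4) (.nd (nat_lit 5) 
(.lf (nat_lit 153729) (.g (nat_lit 1376) (.e (nat_lit 57407) (nat_lit 12) (.e (nat_lit 336324) (nat_lit 18) (.e (nat_lit 204854) (nat_lit 26) (.e (nat_lit 343808) (nat_lit 13) .nil)))) .nil)) 
(.lf (nat_lit 153761) (.g (nat_lit 3553) (.e (nat_lit 57407) (nat_lit 12) (.e (nat_lit 336326) (nat_lit 18) (.e (nat_lit 204869) (nat_lit 29) (.e (nat_lit 360450) (nat_lit 0) (.e (nat_lit 7697) (nat_lit 412) (.e (nat_lit 57363) (nat_lit 1) (.e (nat_lit 57847) (nat_lit 252) .nil))))))) (.g (nat_lit 4) .nil .nil)))) (.nd (nat_lit 5) 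
(.lf (nat_lit 153745) (.g (nat_lit 2463) (.e (nat_lit 57407) (nat_lit 12) (.e (nat_lit 336326) (nat_lit 18) (.e (nat_lit 204854) (nat_lit 26) (.e (nat_lit 336310) (nat_lit 16) (.e (nat_lit 164179) (nat_lit 154) .nil))))) .nil)) 
(.lf (nat_lit 153777) (.g (nat_lit 2193) (.e (nat_lit 57407) (nat_lit 12) (.e (nat_lit 336326) (nat_lit 18) (.e (nat_lit 204877) (nat_lit 31) (.e (nat_lit 376842) (nat_lit 11) (.e (nat_lit 426105) (nat_lit 1) (.e (nat_lit 164179) (nat_lit 154) .nil)))))) (.g (nat_lit 4) .nil .nil))))) (.nd (nat_lit 4) (.nd (nat_lit 5) 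
(.lf (nat_lit 153737) (.g (nat_lit 3013) (.e (nat_lit 57407) (nat_lit 12) (.e (nat_lit 336324) (nat_lit 18) (.e (nat_lit 204877) (nat_lit 31) (.e (nat_lit 376842) (nat_lit 11) (.e (nat_lit 426098) (nat_lit 1) (.e (nat_lit 164179) (nat_lit 154) .nil)))))) (.g (nat_lit 0) .nil .nil))) 
(.lf (nat_lit 153769) (.g (nat_lit 1565) (.e (nat_lit 57407) (nat_lit 12) (.e (nat_lit 336326) (nat_lit 18) (.e (nat_lit 204869) (nat_lit 29) (.e (nat_lit 368384) (nat_lit 26) .nil)))) .nil))) (.nd (nat_lit 5) 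
(.lf (nat_lit 153753) (.g (nat_lit 1772) (.e (nat_lit 57407) (nat_lit 12) (.e (nat_lit 336326) (nat_lit 18) (.e (nat_lit 204868) (nat_lit 29) (.e (nat_lit 360456) (nat_lit 0) (.e (nat_lit 7936) (nat_lit 412) .nil))))) .nil)) 
(.lf (nat_lit 153785) (.g (nat_lit 2865) (.e (nat_lit 57407) (nat_lit 12) (.e (nat_lit 336366) (nat_lit 27) (.e (nat_lit 426499) (nat_lit 27) (.e (nat_lit 336196) (nat_lit 12) (.e (nat_lit 385066) (nat_lit 26) (.e (nat_lit 532499) (nat_lit 1) (.e (nat_lit 57847) (nat_lit 252) .nil))))))) (.g (nat_lit 4) .nil .nil)))))) (.nd (nat_lit 3) (.nd (nat_lit 4) (.nd (nat_lit 5) 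
(.lf (nat_lit 153733) (.g (nat_lit 3133) (.e (nat_lit 57407) (nat_lit 12) (.e (nat_lit 336324) (nat_lit 18) (.e (nat_lit 204866) (nat_lit 28) (.e (nat_lit 352277) (nat_lit 11) (.e (nat_lit 426098) (nat_lit 1) (.e (nat_lit 164179) (nat_lit 154) .nil)))))) (.g (nat_lit 6) .nil .nil))) 
(.lf (nat_lit 153765) (.g (nat_lit 3480) (.e (nat_lit 57407) (nat_lit 12) (.e (nat_lit 336326) (nat_lit 18) (.e (nat_lit 204869) (nat_lit 29) (.e (nat_lit 360451) (nat_lit 0) (.e (nat_lit 7697) (nat_lit 412) .nil))))) .nil))) (.nd (nat_lit 5) 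
(.lf (nat_lit 153749) (.g (nat_lit 1246) (.e (nat_lit 57407) (nat_lit 12) (.e (nat_lit 336326) (nat_lit 18) (.e (nat_lit 204866) (nat_lit 28) (.e (nat_lit 352324) (nat_lit 26) .nil)))) .nil)) 
(.lf (nat_lit 153781) (.g (nat_lit 2001) (.e (nat_lit 57407) (nat_lit 12) (.e (nat_lit 336366) (nat_lit 27) (.e (nat_lit 426498) (nat_lit 27) (.e (nat_lit 336194) (nat_lit 12) (.e (nat_lit 385066) (nat_lit 26) (.e (nat_lit 532503) (nat_lit 1) (.e (nat_lit 57849) (nat_lit 252) .nil))))))) (.g (nat_lit 4) .nil .nil))))) (.nd (nat_lit 4) (.nd (nat_lit 5) 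
(.lf (nat_lit 153741) (.g (nat_lit 2077) (.e (nat_lit 57407) (nat_lit 12) (.e (nat_lit 336325) (nat_lit 18) (.e (nat_lit 204865) (nat_lit 28) (.e (nat_lit 352277) (nat_lit 11) (.e (nat_lit 426098) (nat_lit 1) (.e (nat_lit 164179) (nat_lit 154) .nil)))))) (.g (nat_lit 5) .nil .nil))) 
(.lf (nat_lit 153773) (.g (nat_lit 974) (.e (nat_lit 57407) (nat_lit 12) (.e (nat_lit 336326) (nat_lit 18) (.e (nat_lit 204870) (nat_lit 29) (.e (nat_lit 360493) (nat_lit 27) .nil)))) .nil))) (.nd (nat_lit 5) 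
(.lf (nat_lit 153757) (.g (nat_lit 2362) (.e (nat_lit 57407) (nat_lit 12) (.e (nat_lit 336326) (nat_lit 18) (.e (nat_lit 204869) (nat_lit 29) (.e (nat_lit 360448) (nat_lit 0) (.e (nat_lit 7291) (nat_lit 386) .nil))))) .nil)) 
(.lf (nat_lit 153789) (.g (nat_lit 3298) (.e (nat_lit 57407) (nat_lit 12) (.e (nat_lit 336366) (nat_lit 27) (.e (nat_lit 426499) (nat_lit 27) (.e (nat_lit 336196) (nat_lit 12) (.e (nat_lit 385066) (nat_lit 26) (.e (nat_lit 532503) (nat_lit 1) (.e (nat_lit 57849) (nat_lit 252) .nil))))))) (.g (nat_lit 5) .nil .nil))))))) (.nd (nat_lit 2) (.nd (nat_lit 3) (.nd (nat_lit 4) (.nd (nat_lit 5) 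
(.lf (nat_lit 153731) (.g (nat_lit 1782) (.e (nat_lit 57407) (nat_lit 12) (.e (nat_lit 336324) (nat_lit 18) (.e (nat_lit 204855) (nat_lit 26) (.e (nat_lit 336219) (nat_lit 13) .nil)))) .nil)) 
(.lf (nat_lit 153763) (.g (nat_lit 3630) (.e (nat_lit 57407) (nat_lit 12) (.e (nat_lit 336326) (nat_lit 18) (.e (nat_lit 204869) (nat_lit 29) (.e (nat_lit 360451) (nat_lit 0) (.e (nat_lit 7301) (nat_lit 387) .nil))))) .nil))) (.nd (nat_lit 5) 
(.lf (nat_lit 153747) (.g (nat_lit 2140) (.e (nat_lit 57407) (nat_lit 12) (.e (nat_lit 336326) (nat_lit 18) (.e (nat_lit 204855) (nat_lit 26) (.e (nat_lit 336212) (nat_lit 13) (.e (nat_lit 393251) (nat_lit 18) (.e (nat_lit 164177) (nat_lit 154) .nil)))))) (.g (nat_lit 4) .nil .nil))) 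
(.lf (nat_lit 153779) (.g (nat_lit 2214) (.e (nat_lit 57407) (nat_lit 12) (.e (nat_lit 336366) (nat_lit 27) (.e (nat_lit 426497) (nat_lit 27) (.e (nat_lit 336076) (nat_lit 9) (.e (nat_lit 336324) (nat_lit 18) (.e (nat_lit 204831) (nat_lit 18) (.e (nat_lit 57849) (nat_lit 252) .nil))))))) (.g (nat_lit 4) .nil .nil))))) (.nd (nat_lit 4) (.nd (nat_lit 5) 
(.lf (nat_lit 153739) (.g (nat_lit 2199) (.e (nat_lit 57407) (nat_lit 12) (.e (nat_lit 336325) (nat_lit 18) (.e (nat_lit 204855) (nat_lit 26) (.e (nat_lit 336212) (nat_lit 13) (.e (nat_lit 393251) (nat_lit 18) (.e (nat_lit 164179) (nat_lit 154) .nil)))))) (.g (nat_lit 4) .nil .nil))) 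
(.lf (nat_lit 153771) (.g (nat_lit 2062) (.e (nat_lit 57407) (nat_lit 12) (.e (nat_lit 336326) (nat_lit 18) (.e (nat_lit 204869) (nat_lit 29) (.e (nat_lit 360493) (nat_lit 27) (.e (nat_lit 819232) (nat_lit 9) .nil))))) .nil))) (.nd (nat_lit 5) 
(.lf (nat_lit 153755) (.g (nat_lit 410) (.e (nat_lit 57407) (nat_lit 12) (.e (nat_lit 336326) (nat_lit 18) (.e (nat_lit 204869) (nat_lit 29) .nil))) .nil)) 
(.lf (nat_lit 153787) (.g (nat_lit 2298) (.e (nat_lit 57407) (nat_lit 12) (.e (nat_lit 336366) (nat_lit 27) (.e (nat_lit 426499) (nat_lit 27) (.e (nat_lit 336196) (nat_lit 12) (.e (nat_lit 385066) (nat_lit 26) (.e (nat_lit 532503) (nat_lit 1) (.e (nat_lit 57847) (nat_lit 252) .nil))))))) (.g (nat_lit 4) .nil .nil)))))) (.nd (nat_lit 3) (.nd (nat_lit 4) (.nd (nat_lit 5) 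
(.lf (nat_lit 153735) (.g (nat_lit 2522) (.e (nat_lit 57407) (nat_lit 12) (.e (nat_lit 336324) (nat_lit 18) (.e (nat_lit 204876) (nat_lit 31) (.e (nat_lit 376842) (nat_lit 11) (.e (nat_lit 426098) (nat_lit 1) (.e (nat_lit 164178) (nat_lit 154) .nil)))))) (.g (nat_lit 5) .nil .nil))) 
(.lf (nat_lit 153767) (.g (nat_lit 2540) (.e (nat_lit 57407) (nat_lit 12) (.e (nat_lit 336326) (nat_lit 18) (.e (nat_lit 204869) (nat_lit 29) (.e (nat_lit 360456) (nat_lit 0) (.e (nat_lit 7936) (nat_lit 412) .nil))))) .nil))) (.nd (nat_lit 5) 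
(.lf (nat_lit 153751) (.g (nat_lit 2027) (.e (nat_lit 57407) (nat_lit 12) (.e (nat_lit 336326) (nat_lit 18) (.e (nat_lit 204868) (nat_lit 29) (.e (nat_lit 360449) (nat_lit 0) (.e (nat_lit 7695) (nat_lit 412) .nil))))) .nil)) 
(.lf (nat_lit 153783) (.g (nat_lit 2580) (.e (nat_lit 57407) (nat_lit 12) (.e (nat_lit 336366) (nat_lit 27) (.e (nat_lit 426499) (nat_lit 27) (.e (nat_lit 336196) (nat_lit 12) (.e (nat_lit 385064) (nat_lit 26) (.e (nat_lit 532503) (nat_lit 1) (.e (nat_lit 57848) (nat_lit 252) .nil))))))) (.g (nat_lit 4) .nil .nil))))) (.nd (nat_lit 4) (.nd (nat_lit 5) 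
(.lf (nat_lit 153743) (.g (nat_lit 1983) (.e (nat_lit 57407) (nat_lit 12) (.e (nat_lit 336325) (nat_lit 18) (.e (nat_lit 204877) (nat_lit 31) (.e (nat_lit 376842) (nat_lit 11) (.e (nat_lit 426107) (nat_lit 1) (.e (nat_lit 164179) (nat_lit 154) .nil)))))) (.g (nat_lit 4) .nil .nil))) 
(.lf (nat_lit 153775) (.g (nat_lit 2985) (.e (nat_lit 57407) (nat_lit 12) (.e (nat_lit 336326) (nat_lit 18) (.e (nat_lit 204876) (nat_lit 31) (.e (nat_lit 376842) (nat_lit 11) (.e (nat_lit 426098) (nat_lit 1) (.e (nat_lit 164179) (nat_lit 154) .nil)))))) (.g (nat_lit 0) .nil .nil)))) (.nd (nat_lit 5) 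
(.lf (nat_lit 153759) (.g (nat_lit 3493) (.e (nat_lit 57407) (nat_lit 12) (.e (nat_lit 336326) (nat_lit 18) (.e (nat_lit 204869) (nat_lit 29) (.e (nat_lit 360450) (nat_lit 0) (.e (nat_lit 7695) (nat_lit 412) .nil))))) .nil)) 
(.lf (nat_lit 153791) (.g (nat_lit 2741) (.e (nat_lit 57407) (nat_lit 12) (.e (nat_lit 336366) (nat_lit 27) (.e (nat_lit 426499) (nat_lit 27) (.e (nat_lit 336196) (nat_lit 12) (.e (nat_lit 385068) (nat_lit 26) (.e (nat_lit 532503) (nat_lit 1) (.e (nat_lit 57847) (nat_lit 252) .nil))))))) (.g (nat_lit 4) .nil .nil)))))))))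

noncomputable def tv2050 : DT := (.nd (nat_lit 0) (.nd (nat_lit 1) (.nd (nat_lit 2) (.nd (nat_lit 3) (.nd (nat_lit 4) (.nd (nat_lit 5) 
(.lf (nat_lit 153792) (.g (nat_lit 2969) (.e (nat_lit 57407) (nat_lit 12) (.e (nat_lit 336366) (nat_lit 27) (.e (nat_lit 426499) (nat_lit 27) (.e (nat_lit 336196) (nat_lit 12) (.e (nat_lit 385068) (nat_lit 26) (.e (nat_lit 532503) (nat_lit 1) (.e (nat_lit 57849) (nat_lit 252) .nil))))))) (.g (nat_lit 4) .nil .nil))) 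
(.lf (nat_lit 153824) (.g (nat_lit 3117) (.e (nat_lit 57407) (nat_lit 12) (.e (nat_lit 336369) (nat_lit 27) (.e (nat_lit 426499) (nat_lit 27) (.e (nat_lit 336196) (nat_lit 12) (.e (nat_lit 385066) (nat_lit 26) (.e (nat_lit 532503) (nat_lit 1) (.e (nat_lit 57849) (nat_lit 252) .nil))))))) (.g (nat_lit 4) .nil .nil)))) (.nd (nat_lit 5) 
(.lf (nat_lit 153808) (.g (nat_lit 3455) (.e (nat_lit 57407) (nat_lit 12) (.e (nat_lit 336367) (nat_lit 27) (.e (nat_lit 426544) (nat_lit 30) (.e (nat_lit 360467) (nat_lit 3) (.e (nat_lit 516119) (nat_lit 1) (.e (nat_lit 164178) (nat_lit 154) .nil)))))) (.g (nat_lit 6) .nil .nil))) 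
(.lf (nat_lit 153840) (.g (nat_lit 2900) (.e (nat_lit 57407) (nat_lit 12) (.e (nat_lit 336370) (nat_lit 27) (.e (nat_lit 426499) (nat_lit 27) (.e (nat_lit 336196) (nat_lit 12) (.e (nat_lit 385066) (nat_lit 26) (.e (nat_lit 532503) (nat_lit 1) (.e (nat_lit 57847) (nat_lit 252) .nil))))))) (.g (nat_lit 5) .nil .nil))))) (.nd (nat_lit 4) (.nd (nat_lit 5) 
(.lf (nat_lit 153800) (.g (nat_lit 3176) (.e (nat_lit 57407) (nat_lit 12) (.e (nat_lit 336367) (nat_lit 27) (.e (nat_lit 426542) (nat_lit 29) (.e (nat_lit 352315) (nat_lit 23) (.e (nat_lit 98333) (nat_lit 18) (.e (nat_lit 164177) (nat_lit 154) .nil)))))) (.g (nat_lit 0) .nil .nil))) 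
(.lf (nat_lit 153832) (.g (nat_lit 2220) (.e (nat_lit 57407) (nat_lit 12) (.e (nat_lit 336370) (nat_lit 27) (.e (nat_lit 426499) (nat_lit 27) (.e (nat_lit 336078) (nat_lit 9) (.e (nat_lit 336324) (nat_lit 18) (.e (nat_lit 204831) (nat_lit 18) (.e (nat_lit 57846) (nat_lit 252) .nil))))))) (.g (nat_lit 4) .nil .nil)))) (.nd (nat_lit 5) 
(.lf (nat_lit 153816) (.g (nat_lit 1430) (.e (nat_lit 57407) (nat_lit 12) (.e (nat_lit 336367) (nat_lit 27) (.e (nat_lit 426546) (nat_lit 30) (.e (nat_lit 360473) (nat_lit 8) (.e (nat_lit 557089) (nat_lit 12) (.e (nat_lit 171776) (nat_lit 0) (.e (nat_lit 5193) (nat_lit 294) .nil))))))) (.g (nat_lit 4) .nil .nil))) 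
(.lf (nat_lit 153848) (.g (nat_lit 2333) (.e (nat_lit 57407) (nat_lit 12) (.e (nat_lit 336426) (nat_lit 29) (.e (nat_lit 442427) (nat_lit 23) (.e (nat_lit 204808) (nat_lit 9) (.e (nat_lit 426099) (nat_lit 1) (.e (nat_lit 164399) (nat_lit 256) .nil)))))) (.g (nat_lit 4) .nil .nil)))))) (.nd (nat_lit 3) (.nd (nat_lit 4) (.nd (nat_lit 5) 
(.lf (nat_lit 153796) (.g (nat_lit 2982) (.e (nat_lit 57407) (nat_lit 12) (.e (nat_lit 336367) (nat_lit 27) (.e (nat_lit 426542) (nat_lit 29) (.e (nat_lit 352313) (nat_lit 23) (.e (nat_lit 98333) (nat_lit 18) (.e (nat_lit 164177) (nat_lit 154) .nil)))))) (.g (nat_lit 0) .nil .nil))) 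
(.lf (nat_lit 153828) (.g (nat_lit 2581) (.e (nat_lit 57407) (nat_lit 12) (.e (nat_lit 336370) (nat_lit 27) (.e (nat_lit 426497) (nat_lit 27) (.e (nat_lit 336194) (nat_lit 12) (.e (nat_lit 385066) (nat_lit 26) (.e (nat_lit 532503) (nat_lit 1) (.e (nat_lit 57849) (nat_lit 252) .nil))))))) (.g (nat_lit 5) .nil .nil)))) (.nd (nat_lit 5) 
(.lf (nat_lit 153812) (.g (nat_lit 3098) (.e (nat_lit 57407) (nat_lit 12) (.e (nat_lit 336367) (nat_lit 27) (.e (nat_lit 426544) (nat_lit 30) (.e (nat_lit 360475) (nat_lit 8) (.e (nat_lit 557091) (nat_lit 12) (.e (nat_lit 171776) (nat_lit 0) (.e (nat_lit 5199) (nat_lit 294) .nil))))))) (.g (nat_lit 5) .nil .nil))) 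
(.lf (nat_lit 153844) (.g (nat_lit 2477) (.e (nat_lit 57407) (nat_lit 12) (.e (nat_lit 336370) (nat_lit 27) (.e (nat_lit 426501) (nat_lit 27) (.e (nat_lit 336194) (nat_lit 12) (.e (nat_lit 385066) (nat_lit 26) (.e (nat_lit 532502) (nat_lit 1) (.e (nat_lit 57849) (nat_lit 252) .nil))))))) (.g (nat_lit 5) .nil .nil))))) (.nd (nat_lit 4) (.nd (nat_lit 5) 
(.lf (nat_lit 153804) (.g (nat_lit 1669) (.e (nat_lit 57407) (nat_lit 12) (.e (nat_lit 336367) (nat_lit 27) (.e (nat_lit 426544) (nat_lit 30) (.e (nat_lit 360466) (nat_lit 3) (.e (nat_lit 516120) (nat_lit 1) (.e (nat_lit 164176) (nat_lit 154) .nil)))))) (.g (nat_lit 4) .nil .nil))) 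
(.lf (nat_lit 153836) (.g (nat_lit 2813) (.e (nat_lit 57407) (nat_lit 12) (.e (nat_lit 336370) (nat_lit 27) (.e (nat_lit 426499) (nat_lit 27) (.e (nat_lit 336196) (nat_lit 12) (.e (nat_lit 385066) (nat_lit 26) (.e (nat_lit 532502) (nat_lit 1) (.e (nat_lit 57846) (nat_lit 252) .nil))))))) (.g (nat_lit 5) .nil .nil)))) (.nd (nat_lit 5) 
(.lf (nat_lit 153820) (.g (nat_lit 2371) (.e (nat_lit 57407) (nat_lit 12) (.e (nat_lit 336368) (nat_lit 27) (.e (nat_lit 426499) (nat_lit 27) (.e (nat_lit 336196) (nat_lit 12) (.e (nat_lit 385066) (nat_lit 26) (.e (nat_lit 532503) (nat_lit 1) (.e (nat_lit 57849) (nat_lit 252) .nil))))))) (.g (nat_lit 4) .nil .nil))) 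
(.lf (nat_lit 153852) (.g (nat_lit 2630) (.e (nat_lit 57407) (nat_lit 12) (.e (nat_lit 336426) (nat_lit 29) (.e (nat_lit 442427) (nat_lit 23) (.e (nat_lit 204809) (nat_lit 9) (.e (nat_lit 426098) (nat_lit 1) (.e (nat_lit 164399) (nat_lit 256) .nil)))))) (.g (nat_lit 5) .nil .nil))))))) (.nd (nat_lit 2) (.nd (nat_lit 3) (.nd (nat_lit 4) (.nd (nat_lit 5) 
(.lf (nat_lit 153794) (.g (nat_lit 1228) (.e (nat_lit 57407) (nat_lit 12) (.e (nat_lit 336367) (nat_lit 27) (.e (nat_lit 426542) (nat_lit 29) (.e (nat_lit 352267) (nat_lit 0) (.e (nat_lit 3251) (nat_lit 197) .nil))))) .nil)) 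
(.lf (nat_lit 153826) (.g (nat_lit 3159) (.e (nat_lit 57407) (nat_lit 12) (.e (nat_lit 336369) (nat_lit 27) (.e (nat_lit 426499) (nat_lit 27) (.e (nat_lit 336196) (nat_lit 12) (.e (nat_lit 385068) (nat_lit 26) (.e (nat_lit 532499) (nat_lit 1) (.e (nat_lit 57849) (nat_lit 252) .nil))))))) (.g (nat_lit 4) .nil .nil)))) (.nd (nat_lit 5) 
(.lf (nat_lit 153810) (.g (nat_lit 3289) (.e (nat_lit 57407) (nat_lit 12) (.e (nat_lit 336367) (nat_lit 27) (.e (nat_lit 426544) (nat_lit 30) (.e (nat_lit 360475) (nat_lit 8) (.e (nat_lit 557091) (nat_lit 12) (.e (nat_lit 171776) (nat_lit 0) (.e (nat_lit 5193) (nat_lit 294) .nil))))))) (.g (nat_lit 5) .nil .nil))) 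
(.lf (nat_lit 153842) (.g (nat_lit 3905) (.e (nat_lit 57407) (nat_lit 12) (.e (nat_lit 336370) (nat_lit 27) (.e (nat_lit 426499) (nat_lit 27) (.e (nat_lit 336196) (nat_lit 12) (.e (nat_lit 385068) (nat_lit 26) (.e (nat_lit 532499) (nat_lit 1) (.e (nat_lit 57847) (nat_lit 252) .nil))))))) (.g (nat_lit 6) .nil .nil))))) (.nd (nat_lit 4) (.nd (nat_lit 5) 
(.lf (nat_lit 153802) (.g (nat_lit 2457) (.e (nat_lit 57407) (nat_lit 12) (.e (nat_lit 336367) (nat_lit 27) (.e (nat_lit 426542) (nat_lit 29) (.e (nat_lit 352315) (nat_lit 23) (.e (nat_lit 98334) (nat_lit 18) (.e (nat_lit 164176) (nat_lit 154) .nil)))))) (.g (nat_lit 5) .nil .nil))) 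
(.lf (nat_lit 153834) (.g (nat_lit 3132) (.e (nat_lit 57407) (nat_lit 12) (.e (nat_lit 336370) (nat_lit 27) (.e (nat_lit 426499) (nat_lit 27) (.e (nat_lit 336078) (nat_lit 9) (.e (nat_lit 336324) (nat_lit 18) (.e (nat_lit 204831) (nat_lit 18) (.e (nat_lit 57849) (nat_lit 252) .nil))))))) (.g (nat_lit 5) .nil .nil)))) (.nd (nat_lit 5) 
(.lf (nat_lit 153818) (.g (nat_lit 1449) (.e (nat_lit 57407) (nat_lit 12) (.e (nat_lit 336367) (nat_lit 27) (.e (nat_lit 426555) (nat_lit 32) (.e (nat_lit 376866) (nat_lit 23) .nil)))) .nil)) 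
(.lf (nat_lit 153850) (.g (nat_lit 3088) (.e (nat_lit 57407) (nat_lit 12) (.e (nat_lit 336426) (nat_lit 29) (.e (nat_lit 442427) (nat_lit 23) (.e (nat_lit 204808) (nat_lit 9) (.e (nat_lit 426100) (nat_lit 1) (.e (nat_lit 164399) (nat_lit 256) .nil)))))) (.g (nat_lit 5) .nil .nil)))))) (.nd (nat_lit 3) (.nd (nat_lit 4) (.nd (nat_lit 5) 
(.lf (nat_lit 153798) (.g (nat_lit 2305) (.e (nat_lit 57407) (nat_lit 12) (.e (nat_lit 336367) (nat_lit 27) (.e (nat_lit 426542) (nat_lit 29) (.e (nat_lit 352315) (nat_lit 23) (.e (nat_lit 98325) (nat_lit 17) (.e (nat_lit 2478) (nat_lit 157) (.e (nat_lit 6391) (nat_lit 339) .nil))))))) (.g (nat_lit 4) .nil .nil))) 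
(.lf (nat_lit 153830) (.g (nat_lit 2610) (.e (nat_lit 57407) (nat_lit 12) (.e (nat_lit 336370) (nat_lit 27) (.e (nat_lit 426498) (nat_lit 27) (.e (nat_lit 336194) (nat_lit 12) (.e (nat_lit 385066) (nat_lit 26) (.e (nat_lit 532503) (nat_lit 1) (.e (nat_lit 57849) (nat_lit 252) .nil))))))) (.g (nat_lit 5) .nil .nil)))) (.nd (nat_lit 5) 
(.lf (nat_lit 153814) (.g (nat_lit 3007) (.e (nat_lit 57407) (nat_lit 12) (.e (nat_lit 336367) (nat_lit 27) (.e (nat_lit 426546) (nat_lit 30) (.e (nat_lit 360466) (nat_lit 3) (.e (nat_lit 516119) (nat_lit 1) (.e (nat_lit 164176) (nat_lit 154) .nil)))))) (.g (nat_lit 0) .nil .nil))) 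
(.lf (nat_lit 153846) (.g (nat_lit 1243) (.e (nat_lit 57407) (nat_lit 12) (.e (nat_lit 336426) (nat_lit 29) (.e (nat_lit 442424) (nat_lit 22) (.e (nat_lit 196656) (nat_lit 11) .nil)))) .nil)))) (.nd (nat_lit 4) (.nd (nat_lit 5) 
(.lf (nat_lit 153806) (.g (nat_lit 2014) (.e (nat_lit 57407) (nat_lit 12) (.e (nat_lit 336367) (nat_lit 27) (.e (nat_lit 426544) (nat_lit 30) (.e (nat_lit 360467) (nat_lit 3) (.e (nat_lit 516118) (nat_lit 1) (.e (nat_lit 164179) (nat_lit 154) .nil)))))) (.g (nat_lit 4) .nil .nil))) 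
(.lf (nat_lit 153838) (.g (nat_lit 3762) (.e (nat_lit 57407) (nat_lit 12) (.e (nat_lit 336370) (nat_lit 27) (.e (nat_lit 426499) (nat_lit 27) (.e (nat_lit 336196) (nat_lit 12) (.e (nat_lit 385066) (nat_lit 26) (.e (nat_lit 532502) (nat_lit 1) (.e (nat_lit 57849) (nat_lit 252) .nil))))))) (.g (nat_lit 6) .nil .nil)))) (.nd (nat_lit 5) 
(.lf (nat_lit 153822) (.g (nat_lit 2926) (.e (nat_lit 57407) (nat_lit 12) (.e (nat_lit 336369) (nat_lit 27) (.e (nat_lit 426499) (nat_lit 27) (.e (nat_lit 336196) (nat_lit 12) (.e (nat_lit 385066) (nat_lit 26) .nil))))) .nil)) 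
(.lf (nat_lit 153854) (.g (nat_lit 2407) (.e (nat_lit 57407) (nat_lit 12) (.e (nat_lit 336426) (nat_lit 29) (.e (nat_lit 442427) (nat_lit 23) (.e (nat_lit 204809) (nat_lit 9) (.e (nat_lit 426100) (nat_lit 1) (.e (nat_lit 164398) (nat_lit 256) .nil)))))) (.g (nat_lit 4) .nil .nil)))))))) (.nd (nat_lit 1) (.nd (nat_lit 2) (.nd (nat_lit 3) (.nd (nat_lit 4) (.nd (nat_lit 5) 
(.lf (nat_lit 153793) (.g (nat_lit 815) (.e (nat_lit 57407) (nat_lit 12) (.e (nat_lit 336367) (nat_lit 27) (.e (nat_lit 426257) (nat_lit 9) (.e (nat_lit 426133) (nat_lit 3) (.e (nat_lit 204813) (nat_lit 9) .nil))))) .nil)) 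
(.lf (nat_lit 153825) (.g (nat_lit 2913) (.e (nat_lit 57407) (nat_lit 12) (.e (nat_lit 336369) (nat_lit 27) (.e (nat_lit 426499) (nat_lit 27) (.e (nat_lit 336196) (nat_lit 12) (.e (nat_lit 385068) (nat_lit 26) .nil))))) .nil))) (.nd (nat_lit 5) 
(.lf (nat_lit 153809) (.g (nat_lit 3200) (.e (nat_lit 57407) (nat_lit 12) (.e (nat_lit 336367) (nat_lit 27) (.e (nat_lit 426544) (nat_lit 30) (.e (nat_lit 360475) (nat_lit 8) (.e (nat_lit 557089) (nat_lit 12) (.e (nat_lit 163846) (nat_lit 0) (.e (nat_lit 5190) (nat_lit 294) .nil))))))) (.g (nat_lit 5) .nil .nil))) 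
(.lf (nat_lit 153841) (.g (nat_lit 3106) (.e (nat_lit 57407) (nat_lit 12) (.e (nat_lit 336370) (nat_lit 27) (.e (nat_lit 426499) (nat_lit 27) (.e (nat_lit 336196) (nat_lit 12) (.e (nat_lit 385066) (nat_lit 26) (.e (nat_lit 532503) (nat_lit 1) (.e (nat_lit 57848) (nat_lit 252) .nil))))))) (.g (nat_lit 5) .nil .nil))))) (.nd (nat_lit 4) (.nd (nat_lit 5) 
(.lf (nat_lit 153801) (.g (nat_lit 2812) (.e (nat_lit 57407) (nat_lit 12) (.e (nat_lit 336367) (nat_lit 27) (.e (nat_lit 426542) (nat_lit 29) (.e (nat_lit 352315) (nat_lit 23) (.e (nat_lit 98333) (nat_lit 18) (.e (nat_lit 164178) (nat_lit 154) .nil)))))) (.g (nat_lit 5) .nil .nil))) 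
(.lf (nat_lit 153833) (.g (nat_lit 2014) (.e (nat_lit 57407) (nat_lit 12) (.e (nat_lit 336370) (nat_lit 27) (.e (nat_lit 426499) (nat_lit 27) (.e (nat_lit 336078) (nat_lit 9) (.e (nat_lit 336324) (nat_lit 18) (.e (nat_lit 204831) (nat_lit 18) (.e (nat_lit 57848) (nat_lit 252) .nil))))))) (.g (nat_lit 4) .nil .nil)))) (.nd (nat_lit 5) 
(.lf (nat_lit 153817) (.g (nat_lit 1864) (.e (nat_lit 57407) (nat_lit 12) (.e (nat_lit 336367) (nat_lit 27) (.e (nat_lit 426546) (nat_lit 30) (.e (nat_lit 360473) (nat_lit 8) (.e (nat_lit 557091) (nat_lit 12) (.e (nat_lit 171776) (nat_lit 0) (.e (nat_lit 5193) (nat_lit 294) .nil))))))) (.g (nat_lit 5) .nil .nil))) 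
(.lf (nat_lit 153849) (.g (nat_lit 2571) (.e (nat_lit 57407) (nat_lit 12) (.e (nat_lit 336426) (nat_lit 29) (.e (nat_lit 442427) (nat_lit 23) (.e (nat_lit 204808) (nat_lit 9) (.e (nat_lit 426100) (nat_lit 1) (.e (nat_lit 164398) (nat_lit 256) .nil)))))) (.g (nat_lit 4) .nil .nil)))))) (.nd (nat_lit 3) (.nd (nat_lit 4) (.nd (nat_lit 5) 
(.lf (nat_lit 153797) (.g (nat_lit 2995) (.e (nat_lit 57407) (nat_lit 12) (.e (nat_lit 336367) (nat_lit 27) (.e (nat_lit 426542) (nat_lit 29) (.e (nat_lit 352313) (nat_lit 23) (.e (nat_lit 98335) (nat_lit 18) (.e (nat_lit 164179) (nat_lit 154) .nil)))))) (.g (nat_lit 6) .nil .nil))) 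
(.lf (nat_lit 153829) (.g (nat_lit 2327) (.e (nat_lit 57407) (nat_lit 12) (.e (nat_lit 336370) (nat_lit 27) (.e (nat_lit 426498) (nat_lit 27) (.e (nat_lit 336194) (nat_lit 12) (.e (nat_lit 385066) (nat_lit 26) (.e (nat_lit 532502) (nat_lit 1) (.e (nat_lit 57849) (nat_lit 252) .nil))))))) (.g (nat_lit 5) .nil .nil)))) (.nd (nat_lit 5) 
(.lf (nat_lit 153813) (.g (nat_lit 1462) (.e (nat_lit 57407) (nat_lit 12) (.e (nat_lit 336367) (nat_lit 27) (.e (nat_lit 426546) (nat_lit 30) (.e (nat_lit 360466) (nat_lit 3) (.e (nat_lit 516118) (nat_lit 1) (.e (nat_lit 164177) (nat_lit 154) .nil)))))) (.g (nat_lit 4) .nil .nil))) 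
(.lf (nat_lit 153845) (.g (nat_lit 2659) (.e (nat_lit 57407) (nat_lit 12) (.e (nat_lit 336370) (nat_lit 27) (.e (nat_lit 426501) (nat_lit 27) (.e (nat_lit 336194) (nat_lit 12) (.e (nat_lit 385066) (nat_lit 26) (.e (nat_lit 532503) (nat_lit 1) (.e (nat_lit 57849) (nat_lit 252) .nil))))))) (.g (nat_lit 5) .nil .nil))))) (.nd (nat_lit 4) (.nd (nat_lit 5) 
(.lf (nat_lit 153805) (.g (nat_lit 2416) (.e (nat_lit 57407) (nat_lit 12) (.e (nat_lit 336367) (nat_lit 27) (.e (nat_lit 426544) (nat_lit 30) (.e (nat_lit 360467) (nat_lit 3) (.e (nat_lit 516117) (nat_lit 1) (.e (nat_lit 164176) (nat_lit 154) .nil)))))) (.g (nat_lit 5) .nil .nil))) 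
(.lf (nat_lit 153837) (.g (nat_lit 2313) (.e (nat_lit 57407) (nat_lit 12) (.e (nat_lit 336370) (nat_lit 27) (.e (nat_lit 426499) (nat_lit 27) (.e (nat_lit 336196) (nat_lit 12) (.e (nat_lit 385066) (nat_lit 26) (.e (nat_lit 532502) (nat_lit 1) (.e (nat_lit 57847) (nat_lit 252) .nil))))))) (.g (nat_lit 4) .nil .nil)))) (.nd (nat_lit 5) 
(.lf (nat_lit 153821) (.g (nat_lit 1860) (.e (nat_lit 57407) (nat_lit 12) (.e (nat_lit 336369) (nat_lit 27) (.e (nat_lit 426499) (nat_lit 27) (.e (nat_lit 336196) (nat_lit 12) .nil)))) .nil)) 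
(.lf (nat_lit 153853) (.g (nat_lit 2693) (.e (nat_lit 57407) (nat_lit 12) (.e (nat_lit 336426) (nat_lit 29) (.e (nat_lit 442427) (nat_lit 23) (.e (nat_lit 204809) (nat_lit 9) (.e (nat_lit 426099) (nat_lit 1) (.e (nat_lit 164399) (nat_lit 256) .nil)))))) (.g (nat_lit 5) .nil .nil))))))) (.nd (nat_lit 2) (.nd (nat_lit 3) (.nd (nat_lit 4) (.nd (nat_lit 5) 
(.lf (nat_lit 153795) (.g (nat_lit 1536) (.e (nat_lit 57407) (nat_lit 12) (.e (nat_lit 336367) (nat_lit 27) (.e (nat_lit 426542) (nat_lit 29) (.e (nat_lit 352313) (nat_lit 23) (.e (nat_lit 98332) (nat_lit 18) (.e (nat_lit 164177) (nat_lit 154) .nil)))))) (.g (nat_lit 4) .nil .nil))) 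
(.lf (nat_lit 153827) (.g (nat_lit 2314) (.e (nat_lit 57407) (nat_lit 12) (.e (nat_lit 336370) (nat_lit 27) (.e (nat_lit 426497) (nat_lit 27) (.e (nat_lit 336194) (nat_lit 12) (.e (nat_lit 385066) (nat_lit 26) (.e (nat_lit 532502) (nat_lit 1) (.e (nat_lit 57849) (nat_lit 252) .nil))))))) (.g (nat_lit 5) .nil .nil)))) (.nd (nat_lit 5) 
(.lf (nat_lit 153811) (.g (nat_lit 3918) (.e (nat_lit 57407) (nat_lit 12) (.e (nat_lit 336367) (nat_lit 27) (.e (nat_lit 426544) (nat_lit 30) (.e (nat_lit 360475) (nat_lit 8) (.e (nat_lit 557091) (nat_lit 12) (.e (nat_lit 171776) (nat_lit 0) (.e (nat_lit 5195) (nat_lit 294) .nil))))))) (.g (nat_lit 5) .nil .nil))) 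
(.lf (nat_lit 153843) (.g (nat_lit 3819) (.e (nat_lit 57407) (nat_lit 12) (.e (nat_lit 336370) (nat_lit 27) (.e (nat_lit 426499) (nat_lit 27) (.e (nat_lit 336196) (nat_lit 12) (.e (nat_lit 385068) (nat_lit 26) (.e (nat_lit 532503) (nat_lit 1) (.e (nat_lit 57848) (nat_lit 252) .nil))))))) (.g (nat_lit 6) .nil .nil))))) (.nd (nat_lit 4) (.nd (nat_lit 5) 
(.lf (nat_lit 153803) (.g (nat_lit 3188) (.e (nat_lit 57407) (nat_lit 12) (.e (nat_lit 336367) (nat_lit 27) (.e (nat_lit 426542) (nat_lit 29) (.e (nat_lit 352315) (nat_lit 23) (.e (nat_lit 98335) (nat_lit 18) (.e (nat_lit 164178) (nat_lit 154) .nil)))))) (.g (nat_lit 5) .nil .nil))) 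
(.lf (nat_lit 153835) (.g (nat_lit 2340) (.e (nat_lit 57407) (nat_lit 12) (.e (nat_lit 336370) (nat_lit 27) (.e (nat_lit 426499) (nat_lit 27) (.e (nat_lit 336194) (nat_lit 12) (.e (nat_lit 385066) (nat_lit 26) .nil))))) .nil))) (.nd (nat_lit 5) 
(.lf (nat_lit 153819) (.g (nat_lit 2313) (.e (nat_lit 57407) (nat_lit 12) (.e (nat_lit 336368) (nat_lit 27) (.e (nat_lit 426497) (nat_lit 27) (.e (nat_lit 336076) (nat_lit 9) (.e (nat_lit 336324) (nat_lit 18) (.e (nat_lit 204831) (nat_lit 18) (.e (nat_lit 57849) (nat_lit 252) .nil))))))) (.g (nat_lit 4) .nil .nil))) 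
(.lf (nat_lit 153851) (.g (nat_lit 2369) (.e (nat_lit 57407) (nat_lit 12) (.e (nat_lit 336426) (nat_lit 29) (.e (nat_lit 442427) (nat_lit 23) (.e (nat_lit 204809) (nat_lit 9) (.e (nat_lit 426098) (nat_lit 1) (.e (nat_lit 164398) (nat_lit 256) .nil)))))) (.g (nat_lit 4) .nil .nil)))))) (.nd (nat_lit 3) (.nd (nat_lit 4) (.nd (nat_lit 5) 
(.lf (nat_lit 153799) (.g (nat_lit 1933) (.e (nat_lit 57407) (nat_lit 12) (.e (nat_lit 336367) (nat_lit 27) (.e (nat_lit 426542) (nat_lit 29) (.e (nat_lit 352315) (nat_lit 23) (.e (nat_lit 98332) (nat_lit 18) (.e (nat_lit 164177) (nat_lit 154) .nil)))))) (.g (nat_lit 4) .nil .nil))) 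
(.lf (nat_lit 153831) (.g (nat_lit 2583) (.e (nat_lit 57407) (nat_lit 12) (.e (nat_lit 336370) (nat_lit 27) (.e (nat_lit 426499) (nat_lit 27) (.e (nat_lit 336078) (nat_lit 9) (.e (nat_lit 336324) (nat_lit 18) (.e (nat_lit 204829) (nat_lit 18) (.e (nat_lit 57849) (nat_lit 252) .nil))))))) (.g (nat_lit 4) .nil .nil)))) (.nd (nat_lit 5) 
(.lf (nat_lit 153815) (.g (nat_lit 2583) (.e (nat_lit 57407) (nat_lit 12) (.e (nat_lit 336367) (nat_lit 27) (.e (nat_lit 426546) (nat_lit 30) (.e (nat_lit 360466) (nat_lit 3) (.e (nat_lit 516120) (nat_lit 1) (.e (nat_lit 164176) (nat_lit 154) .nil)))))) (.g (nat_lit 0) .nil .nil))) 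
(.lf (nat_lit 153847) (.g (nat_lit 2596) (.e (nat_lit 57407) (nat_lit 12) (.e (nat_lit 336426) (nat_lit 29) (.e (nat_lit 442427) (nat_lit 23) (.e (nat_lit 204808) (nat_lit 9) (.e (nat_lit 426098) (nat_lit 1) (.e (nat_lit 164399) (nat_lit 256) .nil)))))) (.g (nat_lit 5) .nil .nil))))) (.nd (nat_lit 4) (.nd (nat_lit 5) 
(.lf (nat_lit 153807) (.g (nat_lit 2530) (.e (nat_lit 57407) (nat_lit 12) (.e (nat_lit 336367) (nat_lit 27) (.e (nat_lit 426544) (nat_lit 30) (.e (nat_lit 360467) (nat_lit 3) (.e (nat_lit 516119) (nat_lit 1) (.e (nat_lit 164176) (nat_lit 154) .nil)))))) (.g (nat_lit 5) .nil .nil))) 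
(.lf (nat_lit 153839) (.g (nat_lit 3301) (.e (nat_lit 57407) (nat_lit 12) (.e (nat_lit 336370) (nat_lit 27) (.e (nat_lit 426499) (nat_lit 27) (.e (nat_lit 336196) (nat_lit 12) (.e (nat_lit 385066) (nat_lit 26) (.e (nat_lit 532503) (nat_lit 1) (.e (nat_lit 57846) (nat_lit 252) .nil))))))) (.g (nat_lit 5) .nil .nil)))) (.nd (nat_lit 5) 
(.lf (nat_lit 153823) (.g (nat_lit 3120) (.e (nat_lit 57407) (nat_lit 12) (.e (nat_lit 336369) (nat_lit 27) (.e (nat_lit 426499) (nat_lit 27) (.e (nat_lit 336196) (nat_lit 12) (.e (nat_lit 385066) (nat_lit 26) (.e (nat_lit 532499) (nat_lit 1) (.e (nat_lit 57849) (nat_lit 252) .nil))))))) (.g (nat_lit 4) .nil .nil))) 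
(.lf (nat_lit 153855) (.g (nat_lit 2758) (.e (nat_lit 57407) (nat_lit 12) (.e (nat_lit 336426) (nat_lit 29) (.e (nat_lit 442427) (nat_lit 23) (.e (nat_lit 204809) (nat_lit 9) (.e (nat_lit 426100) (nat_lit 1) (.e (nat_lit 164399) (nat_lit 256) .nil)))))) (.g (nat_lit 5) .nil .nil)))))))))

noncomputable def tv2051 : DT := (.nd (nat_lit 0) (.nd (nat_lit 1) (.nd (nat_lit 2) (.nd (nat_lit 3) (.nd (nat_lit 4) (.nd (nat_lit 5) 
(.lf (nat_lit 153856) (.g (nat_lit 2642) (.e (nat_lit 57407) (nat_lit 12) (.e (nat_lit 336426) (nat_lit 29) (.e (nat_lit 442427) (nat_lit 23) (.e (nat_lit 204812) (nat_lit 9) (.e (nat_lit 426100) (nat_lit 1) (.e (nat_lit 164399) (nat_lit 256) .nil)))))) (.g (nat_lit 5) .nil .nil))) 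
(.lf (nat_lit 153888) (.g (nat_lit 2913) (.e (nat_lit 57407) (nat_lit 12) (.e (nat_lit 336454) (nat_lit 34) (.e (nat_lit 483380) (nat_lit 23) (.e (nat_lit 336316) (nat_lit 17) (.e (nat_lit 196661) (nat_lit 12) (.e (nat_lit 57357) (nat_lit 0) (.e (nat_lit 5195) (nat_lit 294) .nil))))))) (.g (nat_lit 4) .nil .nil)))) (.nd (nat_lit 5) 
(.lf (nat_lit 153872) (.g (nat_lit 2600) (.e (nat_lit 57407) (nat_lit 12) (.e (nat_lit 336443) (nat_lit 32) (.e (nat_lit 466977) (nat_lit 22) (.e (nat_lit 196654) (nat_lit 11) (.e (nat_lit 16407) (nat_lit 1) (.e (nat_lit 164396) (nat_lit 256) .nil)))))) (.g (nat_lit 4) .nil .nil))) 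
(.lf (nat_lit 153904) (.g (nat_lit 2853) (.e (nat_lit 57407) (nat_lit 12) (.e (nat_lit 336454) (nat_lit 34) (.e (nat_lit 483383) (nat_lit 23) (.e (nat_lit 336324) (nat_lit 18) (.e (nat_lit 204829) (nat_lit 18) (.e (nat_lit 57848) (nat_lit 252) .nil)))))) (.g (nat_lit 5) .nil .nil))))) (.nd (nat_lit 4) (.nd (nat_lit 5) 
(.lf (nat_lit 153864) (.g (nat_lit 1370) (.e (nat_lit 57407) (nat_lit 12) (.e (nat_lit 336433) (nat_lit 30) (.e (nat_lit 450588) (nat_lit 10) (.e (nat_lit 581376) (nat_lit 0) .nil)))) .nil)) 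
(.lf (nat_lit 153896) (.g (nat_lit 3400) (.e (nat_lit 57407) (nat_lit 12) (.e (nat_lit 336454) (nat_lit 34) (.e (nat_lit 483382) (nat_lit 23) (.e (nat_lit 336326) (nat_lit 18) (.e (nat_lit 204831) (nat_lit 18) (.e (nat_lit 57846) (nat_lit 252) .nil)))))) (.g (nat_lit 6) .nil .nil)))) (.nd (nat_lit 5) 
(.lf (nat_lit 153880) (.g (nat_lit 2557) (.e (nat_lit 57407) (nat_lit 12) (.e (nat_lit 336443) (nat_lit 32) (.e (nat_lit 466981) (nat_lit 23) (.e (nat_lit 204809) (nat_lit 9) (.e (nat_lit 426099) (nat_lit 1) (.e (nat_lit 164399) (nat_lit 256) .nil)))))) (.g (nat_lit 6) .nil .nil))) 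
(.lf (nat_lit 153912) (.g (nat_lit 3589) (.e (nat_lit 57407) (nat_lit 12) (.e (nat_lit 336454) (nat_lit 34) (.e (nat_lit 483385) (nat_lit 23) (.e (nat_lit 336326) (nat_lit 18) (.e (nat_lit 204829) (nat_lit 18) (.e (nat_lit 57849) (nat_lit 252) .nil)))))) (.g (nat_lit 6) .nil .nil)))))) (.nd (nat_lit 3) (.nd (nat_lit 4) (.nd (nat_lit 5) 
(.lf (nat_lit 153860) (.g (nat_lit 1623) (.e (nat_lit 57407) (nat_lit 12) (.e (nat_lit 336432) (nat_lit 30) (.e (nat_lit 450579) (nat_lit 5) (.e (nat_lit 532579) (nat_lit 26) (.e (nat_lit 426098) (nat_lit 1) .nil))))) .nil)) 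
(.lf (nat_lit 153892) (.g (nat_lit 712) (.e (nat_lit 57407) (nat_lit 12) (.e (nat_lit 336454) (nat_lit 34) (.e (nat_lit 483381) (nat_lit 23) .nil))) .nil))) (.nd (nat_lit 5) 
(.lf (nat_lit 153876) (.g (nat_lit 2517) (.e (nat_lit 57407) (nat_lit 12) (.e (nat_lit 336443) (nat_lit 32) (.e (nat_lit 466979) (nat_lit 23) (.e (nat_lit 204809) (nat_lit 9) (.e (nat_lit 426099) (nat_lit 1) (.e (nat_lit 164399) (nat_lit 256) .nil)))))) (.g (nat_lit 6) .nil .nil))) 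
(.lf (nat_lit 153908) (.g (nat_lit 2194) (.e (nat_lit 57407) (nat_lit 12) (.e (nat_lit 336454) (nat_lit 34) (.e (nat_lit 483384) (nat_lit 23) (.e (nat_lit 336019) (nat_lit 3) (.e (nat_lit 98335) (nat_lit 18) (.e (nat_lit 164178) (nat_lit 154) .nil)))))) (.g (nat_lit 0) .nil .nil))))) (.nd (nat_lit 4) (.nd (nat_lit 5) 
(.lf (nat_lit 153868) (.g (nat_lit 1056) (.e (nat_lit 57407) (nat_lit 12) (.e (nat_lit 336443) (nat_lit 32) (.e (nat_lit 466974) (nat_lit 22) (.e (nat_lit 196654) (nat_lit 11) .nil)))) .nil)) 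
(.lf (nat_lit 153900) (.g (nat_lit 2702) (.e (nat_lit 57407) (nat_lit 12) (.e (nat_lit 336454) (nat_lit 34) (.e (nat_lit 483383) (nat_lit 23) (.e (nat_lit 336019) (nat_lit 3) (.e (nat_lit 98335) (nat_lit 18) (.e (nat_lit 164178) (nat_lit 154) .nil)))))) (.g (nat_lit 0) .nil .nil)))) (.nd (nat_lit 5) 
(.lf (nat_lit 153884) (.g (nat_lit 1804) (.e (nat_lit 57407) (nat_lit 12) (.e (nat_lit 336452) (nat_lit 34) (.e (nat_lit 483403) (nat_lit 26) (.e (nat_lit 385066) (nat_lit 26) (.e (nat_lit 532502) (nat_lit 1) .nil))))) .nil)) 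
(.lf (nat_lit 153916) (.g (nat_lit 2465) (.e (nat_lit 57407) (nat_lit 12) (.e (nat_lit 336454) (nat_lit 34) (.e (nat_lit 483396) (nat_lit 24) (.e (nat_lit 344119) (nat_lit 21) (.e (nat_lit 516115) (nat_lit 1) (.e (nat_lit 164179) (nat_lit 154) .nil)))))) (.g (nat_lit 4) .nil .nil))))))) (.nd (nat_lit 2) (.nd (nat_lit 3) (.nd (nat_lit 4) (.nd (nat_lit 5) 
(.lf (nat_lit 153858) (.g (nat_lit 2436) (.e (nat_lit 57407) (nat_lit 12) (.e (nat_lit 336426) (nat_lit 29) (.e (nat_lit 442427) (nat_lit 23) (.e (nat_lit 204813) (nat_lit 9) (.e (nat_lit 426100) (nat_lit 1) (.e (nat_lit 164398) (nat_lit 256) .nil)))))) (.g (nat_lit 4) .nil .nil))) 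
(.lf (nat_lit 153890) (.g (nat_lit 3171) (.e (nat_lit 57407) (nat_lit 12) (.e (nat_lit 336454) (nat_lit 34) (.e (nat_lit 483380) (nat_lit 23) (.e (nat_lit 336326) (nat_lit 18) (.e (nat_lit 204831) (nat_lit 18) (.e (nat_lit 57848) (nat_lit 252) .nil)))))) (.g (nat_lit 6) .nil .nil)))) (.nd (nat_lit 5) 
(.lf (nat_lit 153874) (.g (nat_lit 1237) (.e (nat_lit 57407) (nat_lit 12) (.e (nat_lit 336443) (nat_lit 32) (.e (nat_lit 466977) (nat_lit 22) (.e (nat_lit 196656) (nat_lit 11) .nil)))) .nil)) 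
(.lf (nat_lit 153906) (.g (nat_lit 3047) (.e (nat_lit 57407) (nat_lit 12) (.e (nat_lit 336454) (nat_lit 34) (.e (nat_lit 483383) (nat_lit 23) (.e (nat_lit 336326) (nat_lit 18) (.e (nat_lit 204831) (nat_lit 18) (.e (nat_lit 57848) (nat_lit 252) .nil)))))) (.g (nat_lit 6) .nil .nil))))) (.nd (nat_lit 4) (.nd (nat_lit 5) 
(.lf (nat_lit 153866) (.g (nat_lit 2172) (.e (nat_lit 57407) (nat_lit 12) (.e (nat_lit 336443) (nat_lit 32) (.e (nat_lit 466974) (nat_lit 22) (.e (nat_lit 196624) (nat_lit 9) (.e (nat_lit 452) (nat_lit 33) .nil))))) .nil)) 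
(.lf (nat_lit 153898) (.g (nat_lit 3280) (.e (nat_lit 57407) (nat_lit 12) (.e (nat_lit 336454) (nat_lit 34) (.e (nat_lit 483382) (nat_lit 23) (.e (nat_lit 336326) (nat_lit 18) (.e (nat_lit 204831) (nat_lit 18) (.e (nat_lit 57849) (nat_lit 252) .nil)))))) (.g (nat_lit 6) .nil .nil)))) (.nd (nat_lit 5) 
(.lf (nat_lit 153882) (.g (nat_lit 3090) (.e (nat_lit 57407) (nat_lit 12) (.e (nat_lit 336443) (nat_lit 32) (.e (nat_lit 466981) (nat_lit 23) (.e (nat_lit 204813) (nat_lit 9) (.e (nat_lit 426100) (nat_lit 1) (.e (nat_lit 164398) (nat_lit 256) .nil)))))) (.g (nat_lit 6) .nil .nil))) 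
(.lf (nat_lit 153914) (.g (nat_lit 3584) (.e (nat_lit 57407) (nat_lit 12) (.e (nat_lit 336454) (nat_lit 34) (.e (nat_lit 483385) (nat_lit 23) (.e (nat_lit 336326) (nat_lit 18) (.e (nat_lit 204831) (nat_lit 18) (.e (nat_lit 57849) (nat_lit 252) .nil)))))) (.g (nat_lit 6) .nil .nil)))))) (.nd (nat_lit 3) (.nd (nat_lit 4) (.nd (nat_lit 5) 
(.lf (nat_lit 153862) (.g (nat_lit 2106) (.e (nat_lit 57407) (nat_lit 12) (.e (nat_lit 336432) (nat_lit 30) (.e (nat_lit 450580) (nat_lit 5) (.e (nat_lit 532583) (nat_lit 26) (.e (nat_lit 426098) (nat_lit 1) (.e (nat_lit 164399) (nat_lit 256) .nil)))))) (.g (nat_lit 4) .nil .nil))) 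
(.lf (nat_lit 153894) (.g (nat_lit 2195) (.e (nat_lit 57407) (nat_lit 12) (.e (nat_lit 336454) (nat_lit 34) (.e (nat_lit 483382) (nat_lit 23) (.e (nat_lit 336019) (nat_lit 3) (.e (nat_lit 98335) (nat_lit 18) (.e (nat_lit 164179) (nat_lit 154) .nil)))))) (.g (nat_lit 5) .nil .nil)))) (.nd (nat_lit 5) 
(.lf (nat_lit 153878) (.g (nat_lit 1970) (.e (nat_lit 57407) (nat_lit 12) (.e (nat_lit 336443) (nat_lit 32) (.e (nat_lit 466979) (nat_lit 23) (.e (nat_lit 204813) (nat_lit 9) (.e (nat_lit 426099) (nat_lit 1) (.e (nat_lit 164399) (nat_lit 256) .nil)))))) (.g (nat_lit 4) .nil .nil))) 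
(.lf (nat_lit 153910) (.g (nat_lit 3452) (.e (nat_lit 57407) (nat_lit 12) (.e (nat_lit 336454) (nat_lit 34) (.e (nat_lit 483385) (nat_lit 23) (.e (nat_lit 336019) (nat_lit 3) (.e (nat_lit 98333) (nat_lit 18) (.e (nat_lit 164179) (nat_lit 154) .nil)))))) (.g (nat_lit 6) .nil .nil))))) (.nd (nat_lit 4) (.nd (nat_lit 5) 
(.lf (nat_lit 153870) (.g (nat_lit 1887) (.e (nat_lit 57407) (nat_lit 12) (.e (nat_lit 336443) (nat_lit 32) (.e (nat_lit 466977) (nat_lit 22) (.e (nat_lit 196653) (nat_lit 11) (.e (nat_lit 16405) (nat_lit 1) .nil))))) .nil)) 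
(.lf (nat_lit 153902) (.g (nat_lit 1575) (.e (nat_lit 57407) (nat_lit 12) (.e (nat_lit 336454) (nat_lit 34) (.e (nat_lit 483383) (nat_lit 23) (.e (nat_lit 343808) (nat_lit 3) .nil)))) .nil))) (.nd (nat_lit 5) 
(.lf (nat_lit 153886) (.g (nat_lit 2031) (.e (nat_lit 57407) (nat_lit 12) (.e (nat_lit 336452) (nat_lit 34) (.e (nat_lit 483403) (nat_lit 26) (.e (nat_lit 385066) (nat_lit 26) (.e (nat_lit 532503) (nat_lit 1) (.e (nat_lit 57846) (nat_lit 252) .nil)))))) (.g (nat_lit 4) .nil .nil))) 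
(.lf (nat_lit 153918) (.g (nat_lit 2731) (.e (nat_lit 57407) (nat_lit 12) (.e (nat_lit 336454) (nat_lit 34) (.e (nat_lit 483397) (nat_lit 25) (.e (nat_lit 368676) (nat_lit 21) (.e (nat_lit 516118) (nat_lit 1) (.e (nat_lit 164179) (nat_lit 154) .nil)))))) (.g (nat_lit 5) .nil .nil)))))))) (.nd (nat_lit 1) (.nd (nat_lit 2) (.nd (nat_lit 3) (.nd (nat_lit 4) (.nd (nat_lit 5) 
(.lf (nat_lit 153857) (.g (nat_lit 2871) (.e (nat_lit 57407) (nat_lit 12) (.e (nat_lit 336426) (nat_lit 29) (.e (nat_lit 442427) (nat_lit 23) (.e (nat_lit 204813) (nat_lit 9) (.e (nat_lit 426098) (nat_lit 1) (.e (nat_lit 164399) (nat_lit 256) .nil)))))) (.g (nat_lit 4) .nil .nil))) 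
(.lf (nat_lit 153889) (.g (nat_lit 3305) (.e (nat_lit 57407) (nat_lit 12) (.e (nat_lit 336454) (nat_lit 34) (.e (nat_lit 483380) (nat_lit 23) (.e (nat_lit 336326) (nat_lit 18) (.e (nat_lit 204829) (nat_lit 18) (.e (nat_lit 57849) (nat_lit 252) .nil)))))) (.g (nat_lit 6) .nil .nil)))) (.nd (nat_lit 5) 
(.lf (nat_lit 153873) (.g (nat_lit 2040) (.e (nat_lit 57407) (nat_lit 12) (.e (nat_lit 336443) (nat_lit 32) (.e (nat_lit 466977) (nat_lit 22) (.e (nat_lit 196655) (nat_lit 11) (.e (nat_lit 16405) (nat_lit 1) .nil))))) .nil)) 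
(.lf (nat_lit 153905) (.g (nat_lit 4021) (.e (nat_lit 57407) (nat_lit 12) (.e (nat_lit 336454) (nat_lit 34) (.e (nat_lit 483383) (nat_lit 23) (.e (nat_lit 336324) (nat_lit 18) (.e (nat_lit 204829) (nat_lit 18) (.e (nat_lit 57849) (nat_lit 252) .nil)))))) (.g (nat_lit 0) .nil .nil))))) (.nd (nat_lit 4) (.nd (nat_lit 5) 
(.lf (nat_lit 153865) (.g (nat_lit 1748) (.e (nat_lit 57407) (nat_lit 12) (.e (nat_lit 336441) (nat_lit 32) (.e (nat_lit 466977) (nat_lit 22) (.e (nat_lit 196656) (nat_lit 11) (.e (nat_lit 16406) (nat_lit 1) .nil))))) .nil)) 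
(.lf (nat_lit 153897) (.g (nat_lit 2421) (.e (nat_lit 57407) (nat_lit 12) (.e (nat_lit 336454) (nat_lit 34) (.e (nat_lit 483382) (nat_lit 23) (.e (nat_lit 336326) (nat_lit 18) (.e (nat_lit 204831) (nat_lit 18) (.e (nat_lit 57848) (nat_lit 252) .nil)))))) (.g (nat_lit 5) .nil .nil)))) (.nd (nat_lit 5) 
(.lf (nat_lit 153881) (.g (nat_lit 2027) (.e (nat_lit 57407) (nat_lit 12) (.e (nat_lit 336443) (nat_lit 32) (.e (nat_lit 466981) (nat_lit 23) (.e (nat_lit 204813) (nat_lit 9) (.e (nat_lit 426099) (nat_lit 1) (.e (nat_lit 164399) (nat_lit 256) .nil)))))) (.g (nat_lit 4) .nil .nil))) 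
(.lf (nat_lit 153913) (.g (nat_lit 3697) (.e (nat_lit 57407) (nat_lit 12) (.e (nat_lit 336454) (nat_lit 34) (.e (nat_lit 483385) (nat_lit 23) (.e (nat_lit 336326) (nat_lit 18) (.e (nat_lit 204831) (nat_lit 18) (.e (nat_lit 57846) (nat_lit 252) .nil)))))) (.g (nat_lit 6) .nil .nil)))))) (.nd (nat_lit 3) (.nd (nat_lit 4) (.nd (nat_lit 5) 
(.lf (nat_lit 153861) (.g (nat_lit 3703) (.e (nat_lit 57407) (nat_lit 12) (.e (nat_lit 336432) (nat_lit 30) (.e (nat_lit 450580) (nat_lit 5) (.e (nat_lit 532579) (nat_lit 26) (.e (nat_lit 426098) (nat_lit 1) (.e (nat_lit 164398) (nat_lit 256) .nil)))))) (.g (nat_lit 6) .nil .nil))) 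
(.lf (nat_lit 153893) (.g (nat_lit 2860) (.e (nat_lit 57407) (nat_lit 12) (.e (nat_lit 336454) (nat_lit 34) (.e (nat_lit 483382) (nat_lit 23) (.e (nat_lit 336019) (nat_lit 3) (.e (nat_lit 98333) (nat_lit 18) (.e (nat_lit 164179) (nat_lit 154) .nil)))))) (.g (nat_lit 5) .nil .nil)))) (.nd (nat_lit 5) 
(.lf (nat_lit 153877) (.g (nat_lit 3255) (.e (nat_lit 57407) (nat_lit 12) (.e (nat_lit 336443) (nat_lit 32) (.e (nat_lit 466979) (nat_lit 23) (.e (nat_lit 204809) (nat_lit 9) (.e (nat_lit 426100) (nat_lit 1) (.e (nat_lit 164398) (nat_lit 256) .nil)))))) (.g (nat_lit 0) .nil .nil))) 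
(.lf (nat_lit 153909) (.g (nat_lit 3015) (.e (nat_lit 57407) (nat_lit 12) (.e (nat_lit 336454) (nat_lit 34) (.e (nat_lit 483384) (nat_lit 23) (.e (nat_lit 336019) (nat_lit 3) (.e (nat_lit 98335) (nat_lit 18) (.e (nat_lit 164179) (nat_lit 154) .nil)))))) (.g (nat_lit 0) .nil .nil))))) (.nd (nat_lit 4) (.nd (nat_lit 5) 
(.lf (nat_lit 153869) (.g (nat_lit 1294) (.e (nat_lit 57407) (nat_lit 12) (.e (nat_lit 336443) (nat_lit 32) (.e (nat_lit 466977) (nat_lit 22) (.e (nat_lit 196624) (nat_lit 9) .nil)))) .nil)) 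
(.lf (nat_lit 153901) (.g (nat_lit 3324) (.e (nat_lit 57407) (nat_lit 12) (.e (nat_lit 336454) (nat_lit 34) (.e (nat_lit 483383) (nat_lit 23) (.e (nat_lit 336019) (nat_lit 3) (.e (nat_lit 98335) (nat_lit 18) (.e (nat_lit 164179) (nat_lit 154) .nil)))))) (.g (nat_lit 0) .nil .nil)))) (.nd (nat_lit 5) 
(.lf (nat_lit 153885) (.g (nat_lit 2670) (.e (nat_lit 57407) (nat_lit 12) (.e (nat_lit 336452) (nat_lit 34) (.e (nat_lit 483403) (nat_lit 26) (.e (nat_lit 385066) (nat_lit 26) (.e (nat_lit 532502) (nat_lit 1) (.e (nat_lit 57849) (nat_lit 252) .nil)))))) (.g (nat_lit 5) .nil .nil))) 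
(.lf (nat_lit 153917) (.g (nat_lit 2653) (.e (nat_lit 57407) (nat_lit 12) (.e (nat_lit 336454) (nat_lit 34) (.e (nat_lit 483396) (nat_lit 24) (.e (nat_lit 344119) (nat_lit 21) (.e (nat_lit 516119) (nat_lit 1) (.e (nat_lit 164179) (nat_lit 154) .nil)))))) (.g (nat_lit 4) .nil .nil))))))) (.nd (nat_lit 2) (.nd (nat_lit 3) (.nd (nat_lit 4) (.nd (nat_lit 5) 
(.lf (nat_lit 153859) (.g (nat_lit 2972) (.e (nat_lit 57407) (nat_lit 12) (.e (nat_lit 336426) (nat_lit 29) (.e (nat_lit 442427) (nat_lit 23) (.e (nat_lit 204813) (nat_lit 9) (.e (nat_lit 426100) (nat_lit 1) (.e (nat_lit 164399) (nat_lit 256) .nil)))))) (.g (nat_lit 5) .nil .nil))) 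
(.lf (nat_lit 153891) (.g (nat_lit 3337) (.e (nat_lit 57407) (nat_lit 12) (.e (nat_lit 336454) (nat_lit 34) (.e (nat_lit 483380) (nat_lit 23) (.e (nat_lit 336326) (nat_lit 18) (.e (nat_lit 204831) (nat_lit 18) (.e (nat_lit 57849) (nat_lit 252) .nil)))))) (.g (nat_lit 6) .nil .nil)))) (.nd (nat_lit 5) 
(.lf (nat_lit 153875) (.g (nat_lit 402) (.e (nat_lit 57407) (nat_lit 12) (.e (nat_lit 336443) (nat_lit 32) (.e (nat_lit 466979) (nat_lit 23) .nil))) .nil)) 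
(.lf (nat_lit 153907) (.g (nat_lit 3229) (.e (nat_lit 57407) (nat_lit 12) (.e (nat_lit 336454) (nat_lit 34) (.e (nat_lit 483383) (nat_lit 23) (.e (nat_lit 336326) (nat_lit 18) (.e (nat_lit 204831) (nat_lit 18) (.e (nat_lit 57849) (nat_lit 252) .nil)))))) (.g (nat_lit 6) .nil .nil))))) (.nd (nat_lit 4) (.nd (nat_lit 5) 
(.lf (nat_lit 153867) (.g (nat_lit 1856) (.e (nat_lit 57407) (nat_lit 12) (.e (nat_lit 336443) (nat_lit 32) (.e (nat_lit 466974) (nat_lit 22) (.e (nat_lit 196653) (nat_lit 11) (.e (nat_lit 16405) (nat_lit 1) .nil))))) .nil)) 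
(.lf (nat_lit 153899) (.g (nat_lit 3750) (.e (nat_lit 57407) (nat_lit 12) (.e (nat_lit 336454) (nat_lit 34) (.e (nat_lit 483383) (nat_lit 23) (.e (nat_lit 336019) (nat_lit 3) (.e (nat_lit 98333) (nat_lit 18) (.e (nat_lit 164179) (nat_lit 154) .nil)))))) (.g (nat_lit 0) .nil .nil)))) (.nd (nat_lit 5) 
(.lf (nat_lit 153883) (.g (nat_lit 1444) (.e (nat_lit 57407) (nat_lit 12) (.e (nat_lit 336450) (nat_lit 33) (.e (nat_lit 475212) (nat_lit 42) (.e (nat_lit 720956) (nat_lit 25) .nil)))) .nil)) 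
(.lf (nat_lit 153915) (.g (nat_lit 2695) (.e (nat_lit 57407) (nat_lit 12) (.e (nat_lit 336454) (nat_lit 34) (.e (nat_lit 483394) (nat_lit 24) (.e (nat_lit 344119) (nat_lit 21) (.e (nat_lit 516119) (nat_lit 1) (.e (nat_lit 164179) (nat_lit 154) .nil)))))) (.g (nat_lit 5) .nil .nil)))))) (.nd (nat_lit 3) (.nd (nat_lit 4) (.nd (nat_lit 5) 
(.lf (nat_lit 153863) (.g (nat_lit 2480) (.e (nat_lit 57407) (nat_lit 12) (.e (nat_lit 336432) (nat_lit 30) (.e (nat_lit 450580) (nat_lit 5) (.e (nat_lit 532583) (nat_lit 26) (.e (nat_lit 426100) (nat_lit 1) (.e (nat_lit 164399) (nat_lit 256) .nil)))))) (.g (nat_lit 4) .nil .nil))) 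
(.lf (nat_lit 153895) (.g (nat_lit 3257) (.e (nat_lit 57407) (nat_lit 12) (.e (nat_lit 336454) (nat_lit 34) (.e (nat_lit 483382) (nat_lit 23) (.e (nat_lit 336326) (nat_lit 18) (.e (nat_lit 204829) (nat_lit 18) (.e (nat_lit 57849) (nat_lit 252) .nil)))))) (.g (nat_lit 6) .nil .nil)))) (.nd (nat_lit 5) 
(.lf (nat_lit 153879) (.g (nat_lit 1747) (.e (nat_lit 57407) (nat_lit 12) (.e (nat_lit 336443) (nat_lit 32) (.e (nat_lit 466981) (nat_lit 23) (.e (nat_lit 204808) (nat_lit 9) (.e (nat_lit 426098) (nat_lit 1) (.e (nat_lit 164399) (nat_lit 256) .nil)))))) (.g (nat_lit 4) .nil .nil))) 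
(.lf (nat_lit 153911) (.g (nat_lit 3130) (.e (nat_lit 57407) (nat_lit 12) (.e (nat_lit 336454) (nat_lit 34) (.e (nat_lit 483385) (nat_lit 23) (.e (nat_lit 336019) (nat_lit 3) (.e (nat_lit 98335) (nat_lit 18) (.e (nat_lit 164179) (nat_lit 154) .nil)))))) (.g (nat_lit 0) .nil .nil))))) (.nd (nat_lit 4) (.nd (nat_lit 5) 
(.lf (nat_lit 153871) (.g (nat_lit 1139) (.e (nat_lit 57407) (nat_lit 12) (.e (nat_lit 336443) (nat_lit 32) (.e (nat_lit 466977) (nat_lit 22) (.e (nat_lit 196654) (nat_lit 11) .nil)))) .nil)) 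
(.lf (nat_lit 153903) (.g (nat_lit 2176) (.e (nat_lit 57407) (nat_lit 12) (.e (nat_lit 336454) (nat_lit 34) (.e (nat_lit 483383) (nat_lit 23) (.e (nat_lit 336322) (nat_lit 18) (.e (nat_lit 204829) (nat_lit 18) .nil))))) .nil))) (.nd (nat_lit 5) 
(.lf (nat_lit 153887) (.g (nat_lit 2478) (.e (nat_lit 57407) (nat_lit 12) (.e (nat_lit 336454) (nat_lit 34) (.e (nat_lit 483378) (nat_lit 23) (.e (nat_lit 336028) (nat_lit 3) (.e (nat_lit 98335) (nat_lit 18) (.e (nat_lit 164179) (nat_lit 154) .nil)))))) (.g (nat_lit 4) .nil .nil))) 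
(.lf (nat_lit 153919) (.g (nat_lit 2447) (.e (nat_lit 57407) (nat_lit 12) (.e (nat_lit 336454) (nat_lit 34) (.e (nat_lit 483397) (nat_lit 25) (.e (nat_lit 368676) (nat_lit 21) (.e (nat_lit 516119) (nat_lit 1) (.e (nat_lit 164179) (nat_lit 154) .nil)))))) (.g (nat_lit 4) .nil .nil)))))))))

noncomputable def tv2052 : DT := (.nd (nat_lit 0) (.nd (nat_lit 1) (.nd (nat_lit 2) (.nd (nat_lit 3) (.nd (nat_lit 4) (.nd (nat_lit 5) 
(.lf (nat_lit 153920) (.g (nat_lit 2141) (.e (nat_lit 57407) (nat_lit 12) (.e (nat_lit 336454) (nat_lit 34) (.e (nat_lit 483398) (nat_lit 25) (.e (nat_lit 368676) (nat_lit 21) (.e (nat_lit 516115) (nat_lit 1) (.e (nat_lit 164178) (nat_lit 154) .nil)))))) (.g (nat_lit 5) .nil .nil))) 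
(.lf (nat_lit 153952) (.g (nat_lit 2874) (.e (nat_lit 57407) (nat_lit 12) (.e (nat_lit 336454) (nat_lit 34) (.e (nat_lit 483407) (nat_lit 26) (.e (nat_lit 385066) (nat_lit 26) (.e (nat_lit 532503) (nat_lit 1) (.e (nat_lit 57848) (nat_lit 252) .nil)))))) (.g (nat_lit 5) .nil .nil)))) (.nd (nat_lit 5) 
(.lf (nat_lit 153936) (.g (nat_lit 2313) (.e (nat_lit 57407) (nat_lit 12) (.e (nat_lit 336454) (nat_lit 34) (.e (nat_lit 483405) (nat_lit 26) (.e (nat_lit 385065) (nat_lit 26) (.e (nat_lit 532499) (nat_lit 1) (.e (nat_lit 57847) (nat_lit 252) .nil)))))) (.g (nat_lit 4) .nil .nil))) 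
(.lf (nat_lit 153968) (.g (nat_lit 2531) (.e (nat_lit 57407) (nat_lit 12) (.e (nat_lit 336455) (nat_lit 34) (.e (nat_lit 483380) (nat_lit 23) (.e (nat_lit 336326) (nat_lit 18) (.e (nat_lit 204831) (nat_lit 18) (.e (nat_lit 57848) (nat_lit 252) .nil)))))) (.g (nat_lit 5) .nil .nil))))) (.nd (nat_lit 4) (.nd (nat_lit 5) 
(.lf (nat_lit 153928) (.g (nat_lit 3763) (.e (nat_lit 57407) (nat_lit 12) (.e (nat_lit 336454) (nat_lit 34) (.e (nat_lit 483402) (nat_lit 26) (.e (nat_lit 385068) (nat_lit 26) (.e (nat_lit 532503) (nat_lit 1) (.e (nat_lit 57848) (nat_lit 252) .nil)))))) (.g (nat_lit 5) .nil .nil))) 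
(.lf (nat_lit 153960) (.g (nat_lit 3393) (.e (nat_lit 57407) (nat_lit 12) (.e (nat_lit 336454) (nat_lit 34) (.e (nat_lit 483408) (nat_lit 26) (.e (nat_lit 385066) (nat_lit 26) (.e (nat_lit 532502) (nat_lit 1) (.e (nat_lit 57846) (nat_lit 252) .nil)))))) (.g (nat_lit 6) .nil .nil)))) (.nd (nat_lit 5) 
(.lf (nat_lit 153944) (.g (nat_lit 2961) (.e (nat_lit 57407) (nat_lit 12) (.e (nat_lit 336454) (nat_lit 34) (.e (nat_lit 483406) (nat_lit 26) (.e (nat_lit 385065) (nat_lit 26) (.e (nat_lit 532499) (nat_lit 1) (.e (nat_lit 57847) (nat_lit 252) .nil)))))) (.g (nat_lit 4) .nil .nil))) 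
(.lf (nat_lit 153976) (.g (nat_lit 2319) (.e (nat_lit 57407) (nat_lit 12) (.e (nat_lit 336455) (nat_lit 34) (.e (nat_lit 483403) (nat_lit 26) (.e (nat_lit 385068) (nat_lit 26) (.e (nat_lit 532503) (nat_lit 1) (.e (nat_lit 57847) (nat_lit 252) .nil)))))) (.g (nat_lit 4) .nil .nil)))))) (.nd (nat_lit 3) (.nd (nat_lit 4) (.nd (nat_lit 5) 
(.lf (nat_lit 153924) (.g (nat_lit 2408) (.e (nat_lit 57407) (nat_lit 12) (.e (nat_lit 336454) (nat_lit 34) (.e (nat_lit 483401) (nat_lit 25) (.e (nat_lit 368676) (nat_lit 21) (.e (nat_lit 516115) (nat_lit 1) (.e (nat_lit 164179) (nat_lit 154) .nil)))))) (.g (nat_lit 5) .nil .nil))) 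
(.lf (nat_lit 153956) (.g (nat_lit 2156) (.e (nat_lit 57407) (nat_lit 12) (.e (nat_lit 336454) (nat_lit 34) (.e (nat_lit 483408) (nat_lit 26) (.e (nat_lit 385065) (nat_lit 26) (.e (nat_lit 532502) (nat_lit 1) (.e (nat_lit 57847) (nat_lit 252) .nil)))))) (.g (nat_lit 4) .nil .nil)))) (.nd (nat_lit 5) 
(.lf (nat_lit 153940) (.g (nat_lit 3535) (.e (nat_lit 57407) (nat_lit 12) (.e (nat_lit 336454) (nat_lit 34) (.e (nat_lit 483405) (nat_lit 26) (.e (nat_lit 385068) (nat_lit 26) (.e (nat_lit 532503) (nat_lit 1) (.e (nat_lit 57848) (nat_lit 252) .nil)))))) (.g (nat_lit 6) .nil .nil))) 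
(.lf (nat_lit 153972) (.g (nat_lit 3490) (.e (nat_lit 57407) (nat_lit 12) (.e (nat_lit 336455) (nat_lit 34) (.e (nat_lit 483383) (nat_lit 23) (.e (nat_lit 336324) (nat_lit 18) (.e (nat_lit 204829) (nat_lit 18) (.e (nat_lit 57849) (nat_lit 252) .nil)))))) (.g (nat_lit 5) .nil .nil))))) (.nd (nat_lit 4) (.nd (nat_lit 5) 
(.lf (nat_lit 153932) (.g (nat_lit 3253) (.e (nat_lit 57407) (nat_lit 12) (.e (nat_lit 336454) (nat_lit 34) (.e (nat_lit 483403) (nat_lit 26) (.e (nat_lit 385068) (nat_lit 26) (.e (nat_lit 532499) (nat_lit 1) (.e (nat_lit 57849) (nat_lit 252) .nil)))))) (.g (nat_lit 5) .nil .nil))) 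
(.lf (nat_lit 153964) (.g (nat_lit 4021) (.e (nat_lit 57407) (nat_lit 12) (.e (nat_lit 336454) (nat_lit 34) (.e (nat_lit 483408) (nat_lit 26) (.e (nat_lit 385068) (nat_lit 26) (.e (nat_lit 532490) (nat_lit 0) (.e (nat_lit 1040) (nat_lit 81) (.e (nat_lit 5195) (nat_lit 294) .nil))))))) (.g (nat_lit 5) .nil .nil)))) (.nd (nat_lit 5) 
(.lf (nat_lit 153948) (.g (nat_lit 3491) (.e (nat_lit 57407) (nat_lit 12) (.e (nat_lit 336454) (nat_lit 34) (.e (nat_lit 483406) (nat_lit 26) (.e (nat_lit 385068) (nat_lit 26) (.e (nat_lit 532499) (nat_lit 1) (.e (nat_lit 57849) (nat_lit 252) .nil)))))) (.g (nat_lit 5) .nil .nil))) 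
(.lf (nat_lit 153980) (.g (nat_lit 2634) (.e (nat_lit 57407) (nat_lit 12) (.e (nat_lit 336455) (nat_lit 34) (.e (nat_lit 483406) (nat_lit 26) (.e (nat_lit 385066) (nat_lit 26) (.e (nat_lit 532503) (nat_lit 1) (.e (nat_lit 57846) (nat_lit 252) .nil)))))) (.g (nat_lit 4) .nil .nil))))))) (.nd (nat_lit 2) (.nd (nat_lit 3) (.nd (nat_lit 4) (.nd (nat_lit 5) 
(.lf (nat_lit 153922) (.g (nat_lit 2166) (.e (nat_lit 57407) (nat_lit 12) (.e (nat_lit 336454) (nat_lit 34) (.e (nat_lit 483399) (nat_lit 25) (.e (nat_lit 368676) (nat_lit 21) (.e (nat_lit 516115) (nat_lit 1) (.e (nat_lit 164178) (nat_lit 154) .nil)))))) (.g (nat_lit 5) .nil .nil))) 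
(.lf (nat_lit 153954) (.g (nat_lit 3495) (.e (nat_lit 57407) (nat_lit 12) (.e (nat_lit 336454) (nat_lit 34) (.e (nat_lit 483407) (nat_lit 26) (.e (nat_lit 385068) (nat_lit 26) (.e (nat_lit 532503) (nat_lit 1) (.e (nat_lit 57848) (nat_lit 252) .nil)))))) (.g (nat_lit 5) .nil .nil)))) (.nd (nat_lit 5) 
(.lf (nat_lit 153938) (.g (nat_lit 2061) (.e (nat_lit 57407) (nat_lit 12) (.e (nat_lit 336454) (nat_lit 34) (.e (nat_lit 483405) (nat_lit 26) (.e (nat_lit 385066) (nat_lit 26) (.e (nat_lit 532502) (nat_lit 1) (.e (nat_lit 57848) (nat_lit 252) .nil)))))) (.g (nat_lit 4) .nil .nil))) 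
(.lf (nat_lit 153970) (.g (nat_lit 3071) (.e (nat_lit 57407) (nat_lit 12) (.e (nat_lit 336455) (nat_lit 34) (.e (nat_lit 483383) (nat_lit 23) (.e (nat_lit 336019) (nat_lit 3) (.e (nat_lit 98333) (nat_lit 18) (.e (nat_lit 164179) (nat_lit 154) .nil)))))) (.g (nat_lit 4) .nil .nil))))) (.nd (nat_lit 4) (.nd (nat_lit 5) 
(.lf (nat_lit 153930) (.g (nat_lit 3113) (.e (nat_lit 57407) (nat_lit 12) (.e (nat_lit 336454) (nat_lit 34) (.e (nat_lit 483403) (nat_lit 26) (.e (nat_lit 385066) (nat_lit 26) (.e (nat_lit 532499) (nat_lit 1) (.e (nat_lit 57848) (nat_lit 252) .nil)))))) (.g (nat_lit 5) .nil .nil))) 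
(.lf (nat_lit 153962) (.g (nat_lit 3286) (.e (nat_lit 57407) (nat_lit 12) (.e (nat_lit 336454) (nat_lit 34) (.e (nat_lit 483408) (nat_lit 26) (.e (nat_lit 385067) (nat_lit 26) (.e (nat_lit 532490) (nat_lit 0) (.e (nat_lit 1040) (nat_lit 81) (.e (nat_lit 5195) (nat_lit 294) .nil))))))) (.g (nat_lit 5) .nil .nil)))) (.nd (nat_lit 5) 
(.lf (nat_lit 153946) (.g (nat_lit 3361) (.e (nat_lit 57407) (nat_lit 12) (.e (nat_lit 336454) (nat_lit 34) (.e (nat_lit 483406) (nat_lit 26) (.e (nat_lit 385066) (nat_lit 26) (.e (nat_lit 532499) (nat_lit 1) (.e (nat_lit 57848) (nat_lit 252) .nil)))))) (.g (nat_lit 5) .nil .nil))) 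
(.lf (nat_lit 153978) (.g (nat_lit 2338) (.e (nat_lit 57407) (nat_lit 12) (.e (nat_lit 336455) (nat_lit 34) (.e (nat_lit 483406) (nat_lit 26) (.e (nat_lit 385066) (nat_lit 26) (.e (nat_lit 532502) (nat_lit 1) .nil))))) .nil))))) (.nd (nat_lit 3) (.nd (nat_lit 4) (.nd (nat_lit 5) 
(.lf (nat_lit 153926) (.g (nat_lit 2614) (.e (nat_lit 57407) (nat_lit 12) (.e (nat_lit 336454) (nat_lit 34) (.e (nat_lit 483402) (nat_lit 26) (.e (nat_lit 385066) (nat_lit 26) (.e (nat_lit 532499) (nat_lit 1) (.e (nat_lit 57847) (nat_lit 252) .nil)))))) (.g (nat_lit 4) .nil .nil))) 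
(.lf (nat_lit 153958) (.g (nat_lit 2186) (.e (nat_lit 57407) (nat_lit 12) (.e (nat_lit 336454) (nat_lit 34) (.e (nat_lit 483408) (nat_lit 26) (.e (nat_lit 385065) (nat_lit 26) (.e (nat_lit 532503) (nat_lit 1) (.e (nat_lit 57846) (nat_lit 252) .nil)))))) (.g (nat_lit 4) .nil .nil)))) (.nd (nat_lit 5) 
(.lf (nat_lit 153942) (.g (nat_lit 3091) (.e (nat_lit 57407) (nat_lit 12) (.e (nat_lit 336454) (nat_lit 34) (.e (nat_lit 483406) (nat_lit 26) (.e (nat_lit 385064) (nat_lit 26) (.e (nat_lit 532503) (nat_lit 1) (.e (nat_lit 57848) (nat_lit 252) .nil)))))) (.g (nat_lit 5) .nil .nil))) 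
(.lf (nat_lit 153974) (.g (nat_lit 2000) (.e (nat_lit 57407) (nat_lit 12) (.e (nat_lit 336455) (nat_lit 34) (.e (nat_lit 483403) (nat_lit 26) (.e (nat_lit 385066) (nat_lit 26) (.e (nat_lit 532502) (nat_lit 1) (.e (nat_lit 57846) (nat_lit 252) .nil)))))) (.g (nat_lit 4) .nil .nil))))) (.nd (nat_lit 4) (.nd (nat_lit 5) 
(.lf (nat_lit 153934) (.g (nat_lit 3180) (.e (nat_lit 57407) (nat_lit 12) (.e (nat_lit 336454) (nat_lit 34) (.e (nat_lit 483404) (nat_lit 26) (.e (nat_lit 385068) (nat_lit 26) (.e (nat_lit 532499) (nat_lit 1) (.e (nat_lit 57847) (nat_lit 252) .nil)))))) (.g (nat_lit 4) .nil .nil))) 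
(.lf (nat_lit 153966) (.g (nat_lit 4080) (.e (nat_lit 57407) (nat_lit 12) (.e (nat_lit 336454) (nat_lit 34) (.e (nat_lit 483408) (nat_lit 26) (.e (nat_lit 385068) (nat_lit 26) (.e (nat_lit 532503) (nat_lit 1) (.e (nat_lit 57849) (nat_lit 252) .nil)))))) (.g (nat_lit 6) .nil .nil)))) (.nd (nat_lit 5) 
(.lf (nat_lit 153950) (.g (nat_lit 3081) (.e (nat_lit 57407) (nat_lit 12) (.e (nat_lit 336454) (nat_lit 34) (.e (nat_lit 483407) (nat_lit 26) (.e (nat_lit 385066) (nat_lit 26) (.e (nat_lit 532502) (nat_lit 1) (.e (nat_lit 57846) (nat_lit 252) .nil)))))) (.g (nat_lit 6) .nil .nil))) 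
(.lf (nat_lit 153982) (.g (nat_lit 3088) (.e (nat_lit 57407) (nat_lit 12) (.e (nat_lit 336455) (nat_lit 34) (.e (nat_lit 483406) (nat_lit 26) (.e (nat_lit 385068) (nat_lit 26) (.e (nat_lit 532503) (nat_lit 1) (.e (nat_lit 57847) (nat_lit 252) .nil)))))) (.g (nat_lit 5) .nil .nil)))))))) (.nd (nat_lit 1) (.nd (nat_lit 2) (.nd (nat_lit 3) (.nd (nat_lit 4) (.nd (nat_lit 5) 
(.lf (nat_lit 153921) (.g (nat_lit 2340) (.e (nat_lit 57407) (nat_lit 12) (.e (nat_lit 336454) (nat_lit 34) (.e (nat_lit 483398) (nat_lit 25) (.e (nat_lit 368676) (nat_lit 21) (.e (nat_lit 516119) (nat_lit 1) (.e (nat_lit 164178) (nat_lit 154) .nil)))))) (.g (nat_lit 5) .nil .nil))) 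
(.lf (nat_lit 153953) (.g (nat_lit 3317) (.e (nat_lit 57407) (nat_lit 12) (.e (nat_lit 336454) (nat_lit 34) (.e (nat_lit 483407) (nat_lit 26) (.e (nat_lit 385068) (nat_lit 26) (.e (nat_lit 532499) (nat_lit 1) (.e (nat_lit 57849) (nat_lit 252) .nil)))))) (.g (nat_lit 5) .nil .nil)))) (.nd (nat_lit 5) 
(.lf (nat_lit 153937) (.g (nat_lit 3037) (.e (nat_lit 57407) (nat_lit 12) (.e (nat_lit 336454) (nat_lit 34) (.e (nat_lit 483405) (nat_lit 26) (.e (nat_lit 385066) (nat_lit 26) (.e (nat_lit 532502) (nat_lit 1) (.e (nat_lit 57846) (nat_lit 252) .nil)))))) (.g (nat_lit 6) .nil .nil))) 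
(.lf (nat_lit 153969) (.g (nat_lit 1972) (.e (nat_lit 57407) (nat_lit 12) (.e (nat_lit 336455) (nat_lit 34) (.e (nat_lit 483382) (nat_lit 23) (.e (nat_lit 336326) (nat_lit 18) (.e (nat_lit 204831) (nat_lit 18) (.e (nat_lit 57848) (nat_lit 252) .nil)))))) (.g (nat_lit 4) .nil .nil))))) (.nd (nat_lit 4) (.nd (nat_lit 5) 
(.lf (nat_lit 153929) (.g (nat_lit 2294) (.e (nat_lit 57407) (nat_lit 12) (.e (nat_lit 336454) (nat_lit 34) (.e (nat_lit 483403) (nat_lit 26) (.e (nat_lit 385064) (nat_lit 26) (.e (nat_lit 532503) (nat_lit 1) (.e (nat_lit 57848) (nat_lit 252) .nil)))))) (.g (nat_lit 4) .nil .nil))) 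
(.lf (nat_lit 153961) (.g (nat_lit 2533) (.e (nat_lit 57407) (nat_lit 12) (.e (nat_lit 336454) (nat_lit 34) (.e (nat_lit 483408) (nat_lit 26) (.e (nat_lit 385066) (nat_lit 26) (.e (nat_lit 532503) (nat_lit 1) (.e (nat_lit 57848) (nat_lit 252) .nil)))))) (.g (nat_lit 4) .nil .nil)))) (.nd (nat_lit 5) 
(.lf (nat_lit 153945) (.g (nat_lit 2834) (.e (nat_lit 57407) (nat_lit 12) (.e (nat_lit 336454) (nat_lit 34) (.e (nat_lit 483406) (nat_lit 26) (.e (nat_lit 385065) (nat_lit 26) (.e (nat_lit 532503) (nat_lit 1) (.e (nat_lit 57848) (nat_lit 252) .nil)))))) (.g (nat_lit 4) .nil .nil))) 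
(.lf (nat_lit 153977) (.g (nat_lit 2794) (.e (nat_lit 57407) (nat_lit 12) (.e (nat_lit 336455) (nat_lit 34) (.e (nat_lit 483406) (nat_lit 26) (.e (nat_lit 385066) (nat_lit 26) (.e (nat_lit 532499) (nat_lit 1) (.e (nat_lit 57847) (nat_lit 252) .nil)))))) (.g (nat_lit 4) .nil .nil)))))) (.nd (nat_lit 3) (.nd (nat_lit 4) (.nd (nat_lit 5) 
(.lf (nat_lit 153925) (.g (nat_lit 1915) (.e (nat_lit 57407) (nat_lit 12) (.e (nat_lit 336454) (nat_lit 34) (.e (nat_lit 483401) (nat_lit 25) (.e (nat_lit 368676) (nat_lit 21) (.e (nat_lit 516119) (nat_lit 1) (.e (nat_lit 164179) (nat_lit 154) .nil)))))) (.g (nat_lit 4) .nil .nil))) 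
(.lf (nat_lit 153957) (.g (nat_lit 2114) (.e (nat_lit 57407) (nat_lit 12) (.e (nat_lit 336454) (nat_lit 34) (.e (nat_lit 483408) (nat_lit 26) (.e (nat_lit 385065) (nat_lit 26) (.e (nat_lit 532502) (nat_lit 1) (.e (nat_lit 57849) (nat_lit 252) .nil)))))) (.g (nat_lit 4) .nil .nil)))) (.nd (nat_lit 5) 
(.lf (nat_lit 153941) (.g (nat_lit 2177) (.e (nat_lit 57407) (nat_lit 12) (.e (nat_lit 336454) (nat_lit 34) (.e (nat_lit 483406) (nat_lit 26) (.e (nat_lit 385059) (nat_lit 22) .nil)))) .nil)) 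
(.lf (nat_lit 153973) (.g (nat_lit 3467) (.e (nat_lit 57407) (nat_lit 12) (.e (nat_lit 336455) (nat_lit 34) (.e (nat_lit 483383) (nat_lit 23) (.e (nat_lit 336324) (nat_lit 18) (.e (nat_lit 204831) (nat_lit 18) (.e (nat_lit 57849) (nat_lit 252) .nil)))))) (.g (nat_lit 5) .nil .nil))))) (.nd (nat_lit 4) (.nd (nat_lit 5) 
(.lf (nat_lit 153933) (.g (nat_lit 2245) (.e (nat_lit 57407) (nat_lit 12) (.e (nat_lit 336454) (nat_lit 34) (.e (nat_lit 483403) (nat_lit 26) (.e (nat_lit 385068) (nat_lit 26) (.e (nat_lit 532503) (nat_lit 1) (.e (nat_lit 57846) (nat_lit 252) .nil)))))) (.g (nat_lit 4) .nil .nil))) 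
(.lf (nat_lit 153965) (.g (nat_lit 4066) (.e (nat_lit 57407) (nat_lit 12) (.e (nat_lit 336454) (nat_lit 34) (.e (nat_lit 483408) (nat_lit 26) (.e (nat_lit 385068) (nat_lit 26) (.e (nat_lit 532503) (nat_lit 1) (.e (nat_lit 57846) (nat_lit 252) .nil)))))) (.g (nat_lit 6) .nil .nil)))) (.nd (nat_lit 5) 
(.lf (nat_lit 153949) (.g (nat_lit 2418) (.e (nat_lit 57407) (nat_lit 12) (.e (nat_lit 336454) (nat_lit 34) (.e (nat_lit 483406) (nat_lit 26) (.e (nat_lit 385068) (nat_lit 26) (.e (nat_lit 532503) (nat_lit 1) (.e (nat_lit 57846) (nat_lit 252) .nil)))))) (.g (nat_lit 4) .nil .nil))) 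
(.lf (nat_lit 153981) (.g (nat_lit 3197) (.e (nat_lit 57407) (nat_lit 12) (.e (nat_lit 336455) (nat_lit 34) (.e (nat_lit 483406) (nat_lit 26) (.e (nat_lit 385066) (nat_lit 26) (.e (nat_lit 532503) (nat_lit 1) (.e (nat_lit 57849) (nat_lit 252) .nil)))))) (.g (nat_lit 5) .nil .nil))))))) (.nd (nat_lit 2) (.nd (nat_lit 3) (.nd (nat_lit 4) (.nd (nat_lit 5) 
(.lf (nat_lit 153923) (.g (nat_lit 2340) (.e (nat_lit 57407) (nat_lit 12) (.e (nat_lit 336454) (nat_lit 34) (.e (nat_lit 483399) (nat_lit 25) (.e (nat_lit 368676) (nat_lit 21) (.e (nat_lit 516119) (nat_lit 1) (.e (nat_lit 164178) (nat_lit 154) .nil)))))) (.g (nat_lit 5) .nil .nil))) 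
(.lf (nat_lit 153955) (.g (nat_lit 3590) (.e (nat_lit 57407) (nat_lit 12) (.e (nat_lit 336454) (nat_lit 34) (.e (nat_lit 483408) (nat_lit 26) (.e (nat_lit 385064) (nat_lit 26) (.e (nat_lit 532503) (nat_lit 1) (.e (nat_lit 57847) (nat_lit 252) .nil)))))) (.g (nat_lit 6) .nil .nil)))) (.nd (nat_lit 5) 
(.lf (nat_lit 153939) (.g (nat_lit 3423) (.e (nat_lit 57407) (nat_lit 12) (.e (nat_lit 336454) (nat_lit 34) (.e (nat_lit 483405) (nat_lit 26) (.e (nat_lit 385068) (nat_lit 26) (.e (nat_lit 532499) (nat_lit 1) (.e (nat_lit 57849) (nat_lit 252) .nil)))))) (.g (nat_lit 5) .nil .nil))) 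
(.lf (nat_lit 153971) (.g (nat_lit 2907) (.e (nat_lit 57407) (nat_lit 12) (.e (nat_lit 336455) (nat_lit 34) (.e (nat_lit 483383) (nat_lit 23) (.e (nat_lit 336324) (nat_lit 18) (.e (nat_lit 204829) (nat_lit 18) (.e (nat_lit 57847) (nat_lit 252) .nil)))))) (.g (nat_lit 4) .nil .nil))))) (.nd (nat_lit 4) (.nd (nat_lit 5) 
(.lf (nat_lit 153931) (.g (nat_lit 3937) (.e (nat_lit 57407) (nat_lit 12) (.e (nat_lit 336454) (nat_lit 34) (.e (nat_lit 483403) (nat_lit 26) (.e (nat_lit 385066) (nat_lit 26) (.e (nat_lit 532499) (nat_lit 1) (.e (nat_lit 57849) (nat_lit 252) .nil)))))) (.g (nat_lit 0) .nil .nil))) 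
(.lf (nat_lit 153963) (.g (nat_lit 1792) (.e (nat_lit 57407) (nat_lit 12) (.e (nat_lit 336454) (nat_lit 34) (.e (nat_lit 483408) (nat_lit 26) (.e (nat_lit 385067) (nat_lit 26) (.e (nat_lit 532502) (nat_lit 1) (.e (nat_lit 57847) (nat_lit 252) .nil)))))) (.g (nat_lit 4) .nil .nil)))) (.nd (nat_lit 5) 
(.lf (nat_lit 153947) (.g (nat_lit 4236) (.e (nat_lit 57407) (nat_lit 12) (.e (nat_lit 336454) (nat_lit 34) (.e (nat_lit 483406) (nat_lit 26) (.e (nat_lit 385066) (nat_lit 26) (.e (nat_lit 532499) (nat_lit 1) (.e (nat_lit 57849) (nat_lit 252) .nil)))))) (.g (nat_lit 0) .nil .nil))) 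
(.lf (nat_lit 153979) (.g (nat_lit 2972) (.e (nat_lit 57407) (nat_lit 12) (.e (nat_lit 336455) (nat_lit 34) (.e (nat_lit 483406) (nat_lit 26) (.e (nat_lit 385066) (nat_lit 26) (.e (nat_lit 532502) (nat_lit 1) (.e (nat_lit 57849) (nat_lit 252) .nil)))))) (.g (nat_lit 4) .nil .nil)))))) (.nd (nat_lit 3) (.nd (nat_lit 4) (.nd (nat_lit 5) 
(.lf (nat_lit 153927) (.g (nat_lit 3693) (.e (nat_lit 57407) (nat_lit 12) (.e (nat_lit 336454) (nat_lit 34) (.e (nat_lit 483402) (nat_lit 26) (.e (nat_lit 385068) (nat_lit 26) (.e (nat_lit 532499) (nat_lit 1) (.e (nat_lit 57849) (nat_lit 252) .nil)))))) (.g (nat_lit 5) .nil .nil))) 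
(.lf (nat_lit 153959) (.g (nat_lit 3164) (.e (nat_lit 57407) (nat_lit 12) (.e (nat_lit 336454) (nat_lit 34) (.e (nat_lit 483408) (nat_lit 26) (.e (nat_lit 385065) (nat_lit 26) (.e (nat_lit 532503) (nat_lit 1) (.e (nat_lit 57847) (nat_lit 252) .nil)))))) (.g (nat_lit 5) .nil .nil)))) (.nd (nat_lit 5) 
(.lf (nat_lit 153943) (.g (nat_lit 2029) (.e (nat_lit 57407) (nat_lit 12) (.e (nat_lit 336454) (nat_lit 34) (.e (nat_lit 483406) (nat_lit 26) (.e (nat_lit 385065) (nat_lit 26) .nil)))) .nil)) 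
(.lf (nat_lit 153975) (.g (nat_lit 2645) (.e (nat_lit 57407) (nat_lit 12) (.e (nat_lit 336455) (nat_lit 34) (.e (nat_lit 483403) (nat_lit 26) (.e (nat_lit 385066) (nat_lit 26) (.e (nat_lit 532502) (nat_lit 1) (.e (nat_lit 57849) (nat_lit 252) .nil)))))) (.g (nat_lit 5) .nil .nil))))) (.nd (nat_lit 4) (.nd (nat_lit 5) 
(.lf (nat_lit 153935) (.g (nat_lit 2769) (.e (nat_lit 57407) (nat_lit 12) (.e (nat_lit 336454) (nat_lit 34) (.e (nat_lit 483404) (nat_lit 26) (.e (nat_lit 385068) (nat_lit 26) (.e (nat_lit 532503) (nat_lit 1) (.e (nat_lit 57848) (nat_lit 252) .nil)))))) (.g (nat_lit 4) .nil .nil))) 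
(.lf (nat_lit 153967) (.g (nat_lit 2770) (.e (nat_lit 57407) (nat_lit 12) (.e (nat_lit 336455) (nat_lit 34) (.e (nat_lit 483380) (nat_lit 23) (.e (nat_lit 336324) (nat_lit 18) (.e (nat_lit 204829) (nat_lit 18) (.e (nat_lit 57849) (nat_lit 252) .nil)))))) (.g (nat_lit 4) .nil .nil)))) (.nd (nat_lit 5) 
(.lf (nat_lit 153951) (.g (nat_lit 3547) (.e (nat_lit 57407) (nat_lit 12) (.e (nat_lit 336454) (nat_lit 34) (.e (nat_lit 483407) (nat_lit 26) (.e (nat_lit 385066) (nat_lit 26) (.e (nat_lit 532503) (nat_lit 1) (.e (nat_lit 57846) (nat_lit 252) .nil)))))) (.g (nat_lit 6) .nil .nil))) 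
(.lf (nat_lit 153983) (.g (nat_lit 3183) (.e (nat_lit 57407) (nat_lit 12) (.e (nat_lit 336455) (nat_lit 34) (.e (nat_lit 483406) (nat_lit 26) (.e (nat_lit 385068) (nat_lit 26) (.e (nat_lit 532503) (nat_lit 1) (.e (nat_lit 57848) (nat_lit 252) .nil)))))) (.g (nat_lit 5) .nil .nil)))))))))

noncomputable def tv2053 : DT := (.nd (nat_lit 0) (.nd (nat_lit 1) (.nd (nat_lit 2) (.nd (nat_lit 3) (.nd (nat_lit 4) (.nd (nat_lit 5) 
(.lf (nat_lit 153984) (.g (nat_lit 541) (.e (nat_lit 57407) (nat_lit 12) (.e (nat_lit 336456) (nat_lit 34) (.e (nat_lit 483346) (nat_lit 17) .nil))) .nil)) 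
(.lf (nat_lit 154016) (.g (nat_lit 4206) (.e (nat_lit 57407) (nat_lit 12) (.e (nat_lit 336456) (nat_lit 34) (.e (nat_lit 483383) (nat_lit 23) (.e (nat_lit 336324) (nat_lit 18) (.e (nat_lit 204831) (nat_lit 18) (.e (nat_lit 57846) (nat_lit 252) .nil)))))) (.g (nat_lit 0) .nil .nil)))) (.nd (nat_lit 5) 
(.lf (nat_lit 154000) (.g (nat_lit 3109) (.e (nat_lit 57407) (nat_lit 12) (.e (nat_lit 336456) (nat_lit 34) (.e (nat_lit 483382) (nat_lit 23) (.e (nat_lit 336324) (nat_lit 18) (.e (nat_lit 204829) (nat_lit 18) (.e (nat_lit 57847) (nat_lit 252) .nil)))))) (.g (nat_lit 6) .nil .nil))) 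
(.lf (nat_lit 154032) (.g (nat_lit 1574) (.e (nat_lit 57407) (nat_lit 12) (.e (nat_lit 336456) (nat_lit 34) (.e (nat_lit 483395) (nat_lit 24) (.e (nat_lit 344120) (nat_lit 21) (.e (nat_lit 516118) (nat_lit 1) (.e (nat_lit 164177) (nat_lit 154) .nil)))))) (.g (nat_lit 4) .nil .nil))))) (.nd (nat_lit 4) (.nd (nat_lit 5) 
(.lf (nat_lit 153992) (.g (nat_lit 3854) (.e (nat_lit 57407) (nat_lit 12) (.e (nat_lit 336456) (nat_lit 34) (.e (nat_lit 483380) (nat_lit 23) (.e (nat_lit 336324) (nat_lit 18) (.e (nat_lit 204829) (nat_lit 18) (.e (nat_lit 57847) (nat_lit 252) .nil)))))) (.g (nat_lit 0) .nil .nil))) 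
(.lf (nat_lit 154024) (.g (nat_lit 1824) (.e (nat_lit 57407) (nat_lit 12) (.e (nat_lit 336456) (nat_lit 34) (.e (nat_lit 483384) (nat_lit 23) (.e (nat_lit 336326) (nat_lit 18) (.e (nat_lit 204831) (nat_lit 18) .nil))))) .nil))) (.nd (nat_lit 5) 
(.lf (nat_lit 154008) (.g (nat_lit 3602) (.e (nat_lit 57407) (nat_lit 12) (.e (nat_lit 336456) (nat_lit 34) (.e (nat_lit 483383) (nat_lit 23) (.e (nat_lit 336019) (nat_lit 3) (.e (nat_lit 98335) (nat_lit 18) (.e (nat_lit 164177) (nat_lit 154) .nil)))))) (.g (nat_lit 0) .nil .nil))) 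
(.lf (nat_lit 154040) (.g (nat_lit 2405) (.e (nat_lit 57407) (nat_lit 12) (.e (nat_lit 336456) (nat_lit 34) (.e (nat_lit 483399) (nat_lit 25) (.e (nat_lit 368676) (nat_lit 21) (.e (nat_lit 516117) (nat_lit 1) (.e (nat_lit 164176) (nat_lit 154) .nil)))))) (.g (nat_lit 5) .nil .nil)))))) (.nd (nat_lit 3) (.nd (nat_lit 4) (.nd (nat_lit 5) 
(.lf (nat_lit 153988) (.g (nat_lit 2181) (.e (nat_lit 57407) (nat_lit 12) (.e (nat_lit 336456) (nat_lit 34) (.e (nat_lit 483372) (nat_lit 21) (.e (nat_lit 319519) (nat_lit 12) (.e (nat_lit 32774) (nat_lit 5) .nil))))) .nil)) 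
(.lf (nat_lit 154020) (.g (nat_lit 3351) (.e (nat_lit 57407) (nat_lit 12) (.e (nat_lit 336456) (nat_lit 34) (.e (nat_lit 483383) (nat_lit 23) (.e (nat_lit 336326) (nat_lit 18) (.e (nat_lit 204831) (nat_lit 18) (.e (nat_lit 57846) (nat_lit 252) .nil)))))) (.g (nat_lit 6) .nil .nil)))) (.nd (nat_lit 5) 
(.lf (nat_lit 154004) (.g (nat_lit 2597) (.e (nat_lit 57407) (nat_lit 12) (.e (nat_lit 336456) (nat_lit 34) (.e (nat_lit 483382) (nat_lit 23) (.e (nat_lit 336326) (nat_lit 18) (.e (nat_lit 204831) (nat_lit 18) (.e (nat_lit 57849) (nat_lit 252) .nil)))))) (.g (nat_lit 5) .nil .nil))) 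
(.lf (nat_lit 154036) (.g (nat_lit 2259) (.e (nat_lit 57407) (nat_lit 12) (.e (nat_lit 336456) (nat_lit 34) (.e (nat_lit 483396) (nat_lit 24) (.e (nat_lit 344119) (nat_lit 21) (.e (nat_lit 516118) (nat_lit 1) (.e (nat_lit 164177) (nat_lit 154) .nil)))))) (.g (nat_lit 5) .nil .nil))))) (.nd (nat_lit 4) (.nd (nat_lit 5) 
(.lf (nat_lit 153996) (.g (nat_lit 3094) (.e (nat_lit 57407) (nat_lit 12) (.e (nat_lit 336456) (nat_lit 34) (.e (nat_lit 483380) (nat_lit 23) (.e (nat_lit 336326) (nat_lit 18) (.e (nat_lit 204831) (nat_lit 18) (.e (nat_lit 57848) (nat_lit 252) .nil)))))) (.g (nat_lit 6) .nil .nil))) 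
(.lf (nat_lit 154028) (.g (nat_lit 3353) (.e (nat_lit 57407) (nat_lit 12) (.e (nat_lit 336456) (nat_lit 34) (.e (nat_lit 483395) (nat_lit 24) (.e (nat_lit 344117) (nat_lit 21) (.e (nat_lit 516115) (nat_lit 1) (.e (nat_lit 164178) (nat_lit 154) .nil)))))) (.g (nat_lit 5) .nil .nil)))) (.nd (nat_lit 5) 
(.lf (nat_lit 154012) (.g (nat_lit 3027) (.e (nat_lit 57407) (nat_lit 12) (.e (nat_lit 336456) (nat_lit 34) (.e (nat_lit 483383) (nat_lit 23) (.e (nat_lit 336320) (nat_lit 17) (.e (nat_lit 196626) (nat_lit 9) .nil))))) .nil)) 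
(.lf (nat_lit 154044) (.g (nat_lit 3698) (.e (nat_lit 57407) (nat_lit 12) (.e (nat_lit 336456) (nat_lit 34) (.e (nat_lit 483402) (nat_lit 26) (.e (nat_lit 385068) (nat_lit 26) (.e (nat_lit 532503) (nat_lit 1) (.e (nat_lit 57848) (nat_lit 252) .nil)))))) (.g (nat_lit 0) .nil .nil))))))) (.nd (nat_lit 2) (.nd (nat_lit 3) (.nd (nat_lit 4) (.nd (nat_lit 5) 
(.lf (nat_lit 153986) (.g (nat_lit 1565) (.e (nat_lit 57407) (nat_lit 12) (.e (nat_lit 336456) (nat_lit 34) (.e (nat_lit 483346) (nat_lit 17) (.e (nat_lit 6506) (nat_lit 344) .nil)))) .nil)) 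
(.lf (nat_lit 154018) (.g (nat_lit 4282) (.e (nat_lit 57407) (nat_lit 12) (.e (nat_lit 336456) (nat_lit 34) (.e (nat_lit 483383) (nat_lit 23) (.e (nat_lit 336324) (nat_lit 18) (.e (nat_lit 204831) (nat_lit 18) (.e (nat_lit 57849) (nat_lit 252) .nil)))))) (.g (nat_lit 0) .nil .nil)))) (.nd (nat_lit 5) 
(.lf (nat_lit 154002) (.g (nat_lit 2946) (.e (nat_lit 57407) (nat_lit 12) (.e (nat_lit 336456) (nat_lit 34) (.e (nat_lit 483382) (nat_lit 23) (.e (nat_lit 336324) (nat_lit 18) (.e (nat_lit 204831) (nat_lit 18) (.e (nat_lit 57849) (nat_lit 252) .nil)))))) (.g (nat_lit 5) .nil .nil))) 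
(.lf (nat_lit 154034) (.g (nat_lit 1837) (.e (nat_lit 57407) (nat_lit 12) (.e (nat_lit 336456) (nat_lit 34) (.e (nat_lit 483395) (nat_lit 24) (.e (nat_lit 344133) (nat_lit 26) (.e (nat_lit 557089) (nat_lit 12) .nil))))) .nil)))) (.nd (nat_lit 4) (.nd (nat_lit 5) 
(.lf (nat_lit 153994) (.g (nat_lit 3180) (.e (nat_lit 57407) (nat_lit 12) (.e (nat_lit 336456) (nat_lit 34) (.e (nat_lit 483380) (nat_lit 23) (.e (nat_lit 336326) (nat_lit 18) (.e (nat_lit 204831) (nat_lit 18) (.e (nat_lit 57846) (nat_lit 252) .nil)))))) (.g (nat_lit 6) .nil .nil))) 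
(.lf (nat_lit 154026) (.g (nat_lit 2457) (.e (nat_lit 57407) (nat_lit 12) (.e (nat_lit 336456) (nat_lit 34) (.e (nat_lit 483394) (nat_lit 24) (.e (nat_lit 344117) (nat_lit 21) (.e (nat_lit 516118) (nat_lit 1) (.e (nat_lit 164177) (nat_lit 154) .nil)))))) (.g (nat_lit 4) .nil .nil)))) (.nd (nat_lit 5) 
(.lf (nat_lit 154010) (.g (nat_lit 2044) (.e (nat_lit 57407) (nat_lit 12) (.e (nat_lit 336456) (nat_lit 34) (.e (nat_lit 483383) (nat_lit 23) (.e (nat_lit 336315) (nat_lit 17) .nil)))) .nil)) 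
(.lf (nat_lit 154042) (.g (nat_lit 3971) (.e (nat_lit 57407) (nat_lit 12) (.e (nat_lit 336456) (nat_lit 34) (.e (nat_lit 483402) (nat_lit 26) (.e (nat_lit 385068) (nat_lit 26) (.e (nat_lit 532499) (nat_lit 1) (.e (nat_lit 57847) (nat_lit 252) .nil)))))) (.g (nat_lit 0) .nil .nil)))))) (.nd (nat_lit 3) (.nd (nat_lit 4) (.nd (nat_lit 5) 
(.lf (nat_lit 153990) (.g (nat_lit 3622) (.e (nat_lit 57407) (nat_lit 12) (.e (nat_lit 336456) (nat_lit 34) (.e (nat_lit 483379) (nat_lit 23) (.e (nat_lit 336326) (nat_lit 18) (.e (nat_lit 204829) (nat_lit 18) (.e (nat_lit 57847) (nat_lit 252) .nil)))))) (.g (nat_lit 0) .nil .nil))) 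
(.lf (nat_lit 154022) (.g (nat_lit 3243) (.e (nat_lit 57407) (nat_lit 12) (.e (nat_lit 336456) (nat_lit 34) (.e (nat_lit 483383) (nat_lit 23) (.e (nat_lit 336326) (nat_lit 18) (.e (nat_lit 204831) (nat_lit 18) (.e (nat_lit 57848) (nat_lit 252) .nil)))))) (.g (nat_lit 6) .nil .nil)))) (.nd (nat_lit 5) 
(.lf (nat_lit 154006) (.g (nat_lit 3434) (.e (nat_lit 57407) (nat_lit 12) (.e (nat_lit 336456) (nat_lit 34) (.e (nat_lit 483383) (nat_lit 23) (.e (nat_lit 336019) (nat_lit 3) (.e (nat_lit 98334) (nat_lit 18) (.e (nat_lit 164176) (nat_lit 154) .nil)))))) (.g (nat_lit 6) .nil .nil))) 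
(.lf (nat_lit 154038) (.g (nat_lit 2577) (.e (nat_lit 57407) (nat_lit 12) (.e (nat_lit 336456) (nat_lit 34) (.e (nat_lit 483398) (nat_lit 25) (.e (nat_lit 368676) (nat_lit 21) (.e (nat_lit 516117) (nat_lit 1) (.e (nat_lit 164176) (nat_lit 154) .nil)))))) (.g (nat_lit 5) .nil .nil))))) (.nd (nat_lit 4) (.nd (nat_lit 5) 
(.lf (nat_lit 153998) (.g (nat_lit 3849) (.e (nat_lit 57407) (nat_lit 12) (.e (nat_lit 336456) (nat_lit 34) (.e (nat_lit 483381) (nat_lit 23) (.e (nat_lit 336324) (nat_lit 18) (.e (nat_lit 204831) (nat_lit 18) (.e (nat_lit 57849) (nat_lit 252) .nil)))))) (.g (nat_lit 5) .nil .nil))) 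
(.lf (nat_lit 154030) (.g (nat_lit 2415) (.e (nat_lit 57407) (nat_lit 12) (.e (nat_lit 336456) (nat_lit 34) (.e (nat_lit 483395) (nat_lit 24) (.e (nat_lit 344117) (nat_lit 21) (.e (nat_lit 516118) (nat_lit 1) (.e (nat_lit 164177) (nat_lit 154) .nil)))))) (.g (nat_lit 5) .nil .nil)))) (.nd (nat_lit 5) 
(.lf (nat_lit 154014) (.g (nat_lit 4424) (.e (nat_lit 57407) (nat_lit 12) (.e (nat_lit 336456) (nat_lit 34) (.e (nat_lit 483383) (nat_lit 23) (.e (nat_lit 336324) (nat_lit 18) (.e (nat_lit 204829) (nat_lit 18) (.e (nat_lit 57847) (nat_lit 252) .nil)))))) (.g (nat_lit 0) .nil .nil))) 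
(.lf (nat_lit 154046) (.g (nat_lit 1499) (.e (nat_lit 57407) (nat_lit 12) (.e (nat_lit 336456) (nat_lit 34) (.e (nat_lit 483403) (nat_lit 26) (.e (nat_lit 385059) (nat_lit 22) .nil)))) .nil))))))) (.nd (nat_lit 1) (.nd (nat_lit 2) (.nd (nat_lit 3) (.nd (nat_lit 4) (.nd (nat_lit 5) 
(.lf (nat_lit 153985) (.g (nat_lit 1588) (.e (nat_lit 57407) (nat_lit 12) (.e (nat_lit 336456) (nat_lit 34) (.e (nat_lit 483346) (nat_lit 17) (.e (nat_lit 6446) (nat_lit 343) .nil)))) .nil)) 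
(.lf (nat_lit 154017) (.g (nat_lit 4168) (.e (nat_lit 57407) (nat_lit 12) (.e (nat_lit 336456) (nat_lit 34) (.e (nat_lit 483383) (nat_lit 23) (.e (nat_lit 336324) (nat_lit 18) (.e (nat_lit 204831) (nat_lit 18) (.e (nat_lit 57848) (nat_lit 252) .nil)))))) (.g (nat_lit 0) .nil .nil)))) (.nd (nat_lit 5) 
(.lf (nat_lit 154001) (.g (nat_lit 3154) (.e (nat_lit 57407) (nat_lit 12) (.e (nat_lit 336456) (nat_lit 34) (.e (nat_lit 483382) (nat_lit 23) (.e (nat_lit 336324) (nat_lit 18) (.e (nat_lit 204831) (nat_lit 18) (.e (nat_lit 57848) (nat_lit 252) .nil)))))) (.g (nat_lit 0) .nil .nil))) 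
(.lf (nat_lit 154033) (.g (nat_lit 3189) (.e (nat_lit 57407) (nat_lit 12) (.e (nat_lit 336456) (nat_lit 34) (.e (nat_lit 483395) (nat_lit 24) (.e (nat_lit 344120) (nat_lit 21) (.e (nat_lit 516119) (nat_lit 1) (.e (nat_lit 164179) (nat_lit 154) .nil)))))) (.g (nat_lit 6) .nil .nil))))) (.nd (nat_lit 4) (.nd (nat_lit 5) 
(.lf (nat_lit 153993) (.g (nat_lit 3713) (.e (nat_lit 57407) (nat_lit 12) (.e (nat_lit 336456) (nat_lit 34) (.e (nat_lit 483380) (nat_lit 23) (.e (nat_lit 336326) (nat_lit 18) (.e (nat_lit 204829) (nat_lit 18) (.e (nat_lit 57847) (nat_lit 252) .nil)))))) (.g (nat_lit 0) .nil .nil))) 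
(.lf (nat_lit 154025) (.g (nat_lit 3221) (.e (nat_lit 57407) (nat_lit 12) (.e (nat_lit 336456) (nat_lit 34) (.e (nat_lit 483393) (nat_lit 23) (.e (nat_lit 336025) (nat_lit 3) (.e (nat_lit 98333) (nat_lit 18) (.e (nat_lit 164177) (nat_lit 154) .nil)))))) (.g (nat_lit 5) .nil .nil)))) (.nd (nat_lit 5) 
(.lf (nat_lit 154009) (.g (nat_lit 1693) (.e (nat_lit 57407) (nat_lit 12) (.e (nat_lit 336456) (nat_lit 34) (.e (nat_lit 483383) (nat_lit 23) (.e (nat_lit 336306) (nat_lit 15) .nil)))) .nil)) 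
(.lf (nat_lit 154041) (.g (nat_lit 2893) (.e (nat_lit 57407) (nat_lit 12) (.e (nat_lit 336456) (nat_lit 34) (.e (nat_lit 483399) (nat_lit 25) (.e (nat_lit 368676) (nat_lit 21) (.e (nat_lit 516118) (nat_lit 1) (.e (nat_lit 164177) (nat_lit 154) .nil)))))) (.g (nat_lit 0) .nil .nil)))))) (.nd (nat_lit 3) (.nd (nat_lit 4) (.nd (nat_lit 5) 
(.lf (nat_lit 153989) (.g (nat_lit 2690) (.e (nat_lit 57407) (nat_lit 12) (.e (nat_lit 336456) (nat_lit 34) (.e (nat_lit 483378) (nat_lit 23) (.e (nat_lit 336326) (nat_lit 18) (.e (nat_lit 204831) (nat_lit 18) (.e (nat_lit 57849) (nat_lit 252) .nil)))))) (.g (nat_lit 5) .nil .nil))) 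
(.lf (nat_lit 154021) (.g (nat_lit 3557) (.e (nat_lit 57407) (nat_lit 12) (.e (nat_lit 336456) (nat_lit 34) (.e (nat_lit 483383) (nat_lit 23) (.e (nat_lit 336326) (nat_lit 18) (.e (nat_lit 204831) (nat_lit 18) (.e (nat_lit 57847) (nat_lit 252) .nil)))))) (.g (nat_lit 0) .nil .nil)))) (.nd (nat_lit 5) 
(.lf (nat_lit 154005) (.g (nat_lit 3761) (.e (nat_lit 57407) (nat_lit 12) (.e (nat_lit 336456) (nat_lit 34) (.e (nat_lit 483383) (nat_lit 23) (.e (nat_lit 336019) (nat_lit 3) (.e (nat_lit 98333) (nat_lit 18) (.e (nat_lit 164178) (nat_lit 154) .nil)))))) (.g (nat_lit 6) .nil .nil))) 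
(.lf (nat_lit 154037) (.g (nat_lit 2751) (.e (nat_lit 57407) (nat_lit 12) (.e (nat_lit 336456) (nat_lit 34) (.e (nat_lit 483396) (nat_lit 24) (.e (nat_lit 344119) (nat_lit 21) (.e (nat_lit 516119) (nat_lit 1) (.e (nat_lit 164176) (nat_lit 154) .nil)))))) (.g (nat_lit 5) .nil .nil))))) (.nd (nat_lit 4) (.nd (nat_lit 5) 
(.lf (nat_lit 153997) (.g (nat_lit 3135) (.e (nat_lit 57407) (nat_lit 12) (.e (nat_lit 336456) (nat_lit 34) (.e (nat_lit 483380) (nat_lit 23) (.e (nat_lit 336326) (nat_lit 18) (.e (nat_lit 204831) (nat_lit 18) (.e (nat_lit 57849) (nat_lit 252) .nil)))))) (.g (nat_lit 6) .nil .nil))) 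
(.lf (nat_lit 154029) (.g (nat_lit 3175) (.e (nat_lit 57407) (nat_lit 12) (.e (nat_lit 336456) (nat_lit 34) (.e (nat_lit 483395) (nat_lit 24) (.e (nat_lit 344117) (nat_lit 21) (.e (nat_lit 516116) (nat_lit 1) (.e (nat_lit 164176) (nat_lit 154) .nil)))))) (.g (nat_lit 5) .nil .nil)))) (.nd (nat_lit 5) 
(.lf (nat_lit 154013) (.g (nat_lit 1412) (.e (nat_lit 57407) (nat_lit 12) (.e (nat_lit 336456) (nat_lit 34) (.e (nat_lit 483383) (nat_lit 23) (.e (nat_lit 336322) (nat_lit 18) .nil)))) .nil)) 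
(.lf (nat_lit 154045) (.g (nat_lit 1554) (.e (nat_lit 57407) (nat_lit 12) (.e (nat_lit 336456) (nat_lit 34) (.e (nat_lit 483403) (nat_lit 26) (.e (nat_lit 385057) (nat_lit 22) .nil)))) .nil)))))) (.nd (nat_lit 2) (.nd (nat_lit 3) (.nd (nat_lit 4) (.nd (nat_lit 5) 
(.lf (nat_lit 153987) (.g (nat_lit 2472) (.e (nat_lit 57407) (nat_lit 12) (.e (nat_lit 336456) (nat_lit 34) (.e (nat_lit 483372) (nat_lit 21) (.e (nat_lit 319504) (nat_lit 10) (.e (nat_lit 577) (nat_lit 43) .nil))))) .nil)) 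
(.lf (nat_lit 154019) (.g (nat_lit 3876) (.e (nat_lit 57407) (nat_lit 12) (.e (nat_lit 336456) (nat_lit 34) (.e (nat_lit 483383) (nat_lit 23) (.e (nat_lit 336326) (nat_lit 18) (.e (nat_lit 204829) (nat_lit 18) (.e (nat_lit 57847) (nat_lit 252) .nil)))))) (.g (nat_lit 0) .nil .nil)))) (.nd (nat_lit 5) 
(.lf (nat_lit 154003) (.g (nat_lit 2264) (.e (nat_lit 57407) (nat_lit 12) (.e (nat_lit 336456) (nat_lit 34) (.e (nat_lit 483382) (nat_lit 23) (.e (nat_lit 336326) (nat_lit 18) (.e (nat_lit 204831) (nat_lit 18) (.e (nat_lit 57848) (nat_lit 252) .nil)))))) (.g (nat_lit 5) .nil .nil))) 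
(.lf (nat_lit 154035) (.g (nat_lit 2191) (.e (nat_lit 57407) (nat_lit 12) (.e (nat_lit 336456) (nat_lit 34) (.e (nat_lit 483395) (nat_lit 24) (.e (nat_lit 344133) (nat_lit 26) (.e (nat_lit 557091) (nat_lit 12) (.e (nat_lit 171776) (nat_lit 0) (.e (nat_lit 5193) (nat_lit 294) .nil))))))) (.g (nat_lit 4) .nil .nil))))) (.nd (nat_lit 4) (.nd (nat_lit 5) 
(.lf (nat_lit 153995) (.g (nat_lit 3400) (.e (nat_lit 57407) (nat_lit 12) (.e (nat_lit 336456) (nat_lit 34) (.e (nat_lit 483380) (nat_lit 23) (.e (nat_lit 336326) (nat_lit 18) (.e (nat_lit 204831) (nat_lit 18) (.e (nat_lit 57847) (nat_lit 252) .nil)))))) (.g (nat_lit 0) .nil .nil))) 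
(.lf (nat_lit 154027) (.g (nat_lit 1822) (.e (nat_lit 57407) (nat_lit 12) (.e (nat_lit 336456) (nat_lit 34) (.e (nat_lit 483394) (nat_lit 24) (.e (nat_lit 344119) (nat_lit 21) (.e (nat_lit 516119) (nat_lit 1) (.e (nat_lit 164176) (nat_lit 154) .nil)))))) (.g (nat_lit 4) .nil .nil)))) (.nd (nat_lit 5) 
(.lf (nat_lit 154011) (.g (nat_lit 1433) (.e (nat_lit 57407) (nat_lit 12) (.e (nat_lit 336456) (nat_lit 34) (.e (nat_lit 483383) (nat_lit 23) (.e (nat_lit 336316) (nat_lit 17) .nil)))) .nil)) 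
(.lf (nat_lit 154043) (.g (nat_lit 3487) (.e (nat_lit 57407) (nat_lit 12) (.e (nat_lit 336456) (nat_lit 34) (.e (nat_lit 483402) (nat_lit 26) (.e (nat_lit 385068) (nat_lit 26) (.e (nat_lit 532503) (nat_lit 1) (.e (nat_lit 57847) (nat_lit 252) .nil)))))) (.g (nat_lit 0) .nil .nil)))))) (.nd (nat_lit 3) (.nd (nat_lit 4) (.nd (nat_lit 5) 
(.lf (nat_lit 153991) (.g (nat_lit 2850) (.e (nat_lit 57407) (nat_lit 12) (.e (nat_lit 336456) (nat_lit 34) (.e (nat_lit 483379) (nat_lit 23) (.e (nat_lit 336326) (nat_lit 18) (.e (nat_lit 204831) (nat_lit 18) (.e (nat_lit 57848) (nat_lit 252) .nil)))))) (.g (nat_lit 6) .nil .nil))) 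
(.lf (nat_lit 154023) (.g (nat_lit 3288) (.e (nat_lit 57407) (nat_lit 12) (.e (nat_lit 336456) (nat_lit 34) (.e (nat_lit 483383) (nat_lit 23) (.e (nat_lit 336326) (nat_lit 18) (.e (nat_lit 204831) (nat_lit 18) (.e (nat_lit 57849) (nat_lit 252) .nil)))))) (.g (nat_lit 6) .nil .nil)))) (.nd (nat_lit 5) 
(.lf (nat_lit 154007) (.g (nat_lit 2546) (.e (nat_lit 57407) (nat_lit 12) (.e (nat_lit 336456) (nat_lit 34) (.e (nat_lit 483383) (nat_lit 23) (.e (nat_lit 336019) (nat_lit 3) (.e (nat_lit 98335) (nat_lit 18) (.e (nat_lit 164176) (nat_lit 154) .nil)))))) (.g (nat_lit 5) .nil .nil))) 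
(.lf (nat_lit 154039) (.g (nat_lit 2929) (.e (nat_lit 57407) (nat_lit 12) (.e (nat_lit 336456) (nat_lit 34) (.e (nat_lit 483398) (nat_lit 25) (.e (nat_lit 368676) (nat_lit 21) (.e (nat_lit 516118) (nat_lit 1) (.e (nat_lit 164177) (nat_lit 154) .nil)))))) (.g (nat_lit 0) .nil .nil))))) (.nd (nat_lit 4) (.nd (nat_lit 5) 
(.lf (nat_lit 153999) (.g (nat_lit 1250) (.e (nat_lit 57407) (nat_lit 12) (.e (nat_lit 336456) (nat_lit 34) (.e (nat_lit 483381) (nat_lit 23) (.e (nat_lit 336326) (nat_lit 18) (.e (nat_lit 204831) (nat_lit 18) .nil))))) .nil)) 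
(.lf (nat_lit 154031) (.g (nat_lit 2791) (.e (nat_lit 57407) (nat_lit 12) (.e (nat_lit 336456) (nat_lit 34) (.e (nat_lit 483395) (nat_lit 24) (.e (nat_lit 344117) (nat_lit 21) (.e (nat_lit 516118) (nat_lit 1) (.e (nat_lit 164179) (nat_lit 154) .nil)))))) (.g (nat_lit 5) .nil .nil)))) (.nd (nat_lit 5) 
(.lf (nat_lit 154015) (.g (nat_lit 2609) (.e (nat_lit 57407) (nat_lit 12) (.e (nat_lit 336456) (nat_lit 34) (.e (nat_lit 483383) (nat_lit 23) (.e (nat_lit 336324) (nat_lit 18) (.e (nat_lit 204829) (nat_lit 18) (.e (nat_lit 57848) (nat_lit 252) .nil)))))) (.g (nat_lit 4) .nil .nil))) 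
(.lf (nat_lit 154047) (.g (nat_lit 4185) (.e (nat_lit 57407) (nat_lit 12) (.e (nat_lit 336456) (nat_lit 34) (.e (nat_lit 483403) (nat_lit 26) (.e (nat_lit 385066) (nat_lit 26) (.e (nat_lit 532499) (nat_lit 1) (.e (nat_lit 57847) (nat_lit 252) .nil)))))) (.g (nat_lit 0) .nil .nil)))))))))

noncomputable def tv2054 : DT := (.nd (nat_lit 0) (.nd (nat_lit 1) (.nd (nat_lit 2) (.nd (nat_lit 3) (.nd (nat_lit 4) (.nd (nat_lit 5) 
(.lf (nat_lit 154048) (.g (nat_lit 3268) (.e (nat_lit 57407) (nat_lit 12) (.e (nat_lit 336456) (nat_lit 34) (.e (nat_lit 483403) (nat_lit 26) (.e (nat_lit 385066) (nat_lit 26) (.e (nat_lit 532502) (nat_lit 1) (.e (nat_lit 57846) (nat_lit 252) .nil)))))) (.g (nat_lit 0) .nil .nil))) 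
(.lf (nat_lit 154080) (.g (nat_lit 3063) (.e (nat_lit 57407) (nat_lit 12) (.e (nat_lit 336456) (nat_lit 34) (.e (nat_lit 483413) (nat_lit 27) (.e (nat_lit 401414) (nat_lit 0) (.e (nat_lit 3289) (nat_lit 201) (.e (nat_lit 565252) (nat_lit 0) (.e (nat_lit 1183) (nat_lit 87) (.e (nat_lit 57848) (nat_lit 252) .nil)))))))) (.g (nat_lit 4) .nil .nil)))) (.nd (nat_lit 5) 
(.lf (nat_lit 154064) (.g (nat_lit 3694) (.e (nat_lit 57407) (nat_lit 12) (.e (nat_lit 336456) (nat_lit 34) (.e (nat_lit 483405) (nat_lit 26) (.e (nat_lit 385068) (nat_lit 26) (.e (nat_lit 532499) (nat_lit 1) (.e (nat_lit 57847) (nat_lit 252) .nil)))))) (.g (nat_lit 0) .nil .nil))) 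
(.lf (nat_lit 154096) (.g (nat_lit 1990) (.e (nat_lit 57408) (nat_lit 12) (.e (nat_lit 336324) (nat_lit 18) (.e (nat_lit 204854) (nat_lit 26) (.e (nat_lit 336211) (nat_lit 13) .nil)))) .nil)))) (.nd (nat_lit 4) (.nd (nat_lit 5) 
(.lf (nat_lit 154056) (.g (nat_lit 2440) (.e (nat_lit 57407) (nat_lit 12) (.e (nat_lit 336456) (nat_lit 34) (.e (nat_lit 483403) (nat_lit 26) (.e (nat_lit 385068) (nat_lit 26) (.e (nat_lit 532503) (nat_lit 1) (.e (nat_lit 57849) (nat_lit 252) .nil)))))) (.g (nat_lit 4) .nil .nil))) 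
(.lf (nat_lit 154088) (.g (nat_lit 1911) (.e (nat_lit 57408) (nat_lit 12) (.e (nat_lit 336211) (nat_lit 13) (.e (nat_lit 393271) (nat_lit 23) (.e (nat_lit 426448) (nat_lit 20) (.e (nat_lit 114710) (nat_lit 21) .nil))))) .nil))) (.nd (nat_lit 5) 
(.lf (nat_lit 154072) (.g (nat_lit 4016) (.e (nat_lit 57407) (nat_lit 12) (.e (nat_lit 336456) (nat_lit 34) (.e (nat_lit 483406) (nat_lit 26) (.e (nat_lit 385066) (nat_lit 26) (.e (nat_lit 532503) (nat_lit 1) (.e (nat_lit 57846) (nat_lit 252) .nil)))))) (.g (nat_lit 0) .nil .nil))) 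
(.lf (nat_lit 154104) (.g (nat_lit 1391) (.e (nat_lit 57408) (nat_lit 12) (.e (nat_lit 336443) (nat_lit 32) (.e (nat_lit 466974) (nat_lit 22) (.e (nat_lit 196653) (nat_lit 11) .nil)))) .nil))))) (.nd (nat_lit 3) (.nd (nat_lit 4) (.nd (nat_lit 5) 
(.lf (nat_lit 154052) (.g (nat_lit 3747) (.e (nat_lit 57407) (nat_lit 12) (.e (nat_lit 336456) (nat_lit 34) (.e (nat_lit 483403) (nat_lit 26) (.e (nat_lit 385066) (nat_lit 26) (.e (nat_lit 532503) (nat_lit 1) (.e (nat_lit 57848) (nat_lit 252) .nil)))))) (.g (nat_lit 0) .nil .nil))) 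
(.lf (nat_lit 154084) (.g (nat_lit 773) (.e (nat_lit 57408) (nat_lit 12) (.e (nat_lit 336211) (nat_lit 13) (.e (nat_lit 393233) (nat_lit 17) (.e (nat_lit 7591) (nat_lit 407) .nil)))) .nil))) (.nd (nat_lit 5) 
(.lf (nat_lit 154068) (.g (nat_lit 3442) (.e (nat_lit 57407) (nat_lit 12) (.e (nat_lit 336456) (nat_lit 34) (.e (nat_lit 483406) (nat_lit 26) (.e (nat_lit 385065) (nat_lit 26) (.e (nat_lit 532503) (nat_lit 1) (.e (nat_lit 57848) (nat_lit 252) .nil)))))) (.g (nat_lit 0) .nil .nil))) 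
(.lf (nat_lit 154100) (.g (nat_lit 2064) (.e (nat_lit 57408) (nat_lit 12) (.e (nat_lit 336324) (nat_lit 18) (.e (nat_lit 204877) (nat_lit 31) (.e (nat_lit 376842) (nat_lit 11) (.e (nat_lit 426098) (nat_lit 1) (.e (nat_lit 164179) (nat_lit 154) .nil)))))) (.g (nat_lit 4) .nil .nil))))) (.nd (nat_lit 4) (.nd (nat_lit 5) 
(.lf (nat_lit 154060) (.g (nat_lit 2695) (.e (nat_lit 57407) (nat_lit 12) (.e (nat_lit 336456) (nat_lit 34) (.e (nat_lit 483405) (nat_lit 26) (.e (nat_lit 385064) (nat_lit 26) (.e (nat_lit 532503) (nat_lit 1) (.e (nat_lit 57848) (nat_lit 252) .nil)))))) (.g (nat_lit 0) .nil .nil))) 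
(.lf (nat_lit 154092) (.g (nat_lit 1024) (.e (nat_lit 57408) (nat_lit 12) (.e (nat_lit 336211) (nat_lit 13) (.e (nat_lit 393300) (nat_lit 27) (.e (nat_lit 491558) (nat_lit 10) .nil)))) .nil))) (.nd (nat_lit 5) 
(.lf (nat_lit 154076) (.g (nat_lit 4201) (.e (nat_lit 57407) (nat_lit 12) (.e (nat_lit 336456) (nat_lit 34) (.e (nat_lit 483406) (nat_lit 26) (.e (nat_lit 385068) (nat_lit 26) (.e (nat_lit 532503) (nat_lit 1) (.e (nat_lit 57848) (nat_lit 252) .nil)))))) (.g (nat_lit 0) .nil .nil))) 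
(.lf (nat_lit 154108) (.g (nat_lit 2457) (.e (nat_lit 57408) (nat_lit 12) (.e (nat_lit 336443) (nat_lit 32) (.e (nat_lit 466974) (nat_lit 22) (.e (nat_lit 196654) (nat_lit 11) (.e (nat_lit 16406) (nat_lit 1) (.e (nat_lit 164399) (nat_lit 256) .nil)))))) (.g (nat_lit 0) .nil .nil))))))) (.nd (nat_lit 2) (.nd (nat_lit 3) (.nd (nat_lit 4) (.nd (nat_lit 5) 
(.lf (nat_lit 154050) (.g (nat_lit 3583) (.e (nat_lit 57407) (nat_lit 12) (.e (nat_lit 336456) (nat_lit 34) (.e (nat_lit 483403) (nat_lit 26) (.e (nat_lit 385066) (nat_lit 26) (.e (nat_lit 532503) (nat_lit 1) (.e (nat_lit 57846) (nat_lit 252) .nil)))))) (.g (nat_lit 0) .nil .nil))) 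
(.lf (nat_lit 154082) (.g (nat_lit 1121) (.e (nat_lit 57408) (nat_lit 12) (.e (nat_lit 336211) (nat_lit 13) (.e (nat_lit 393232) (nat_lit 17) (.e (nat_lit 7591) (nat_lit 407) .nil)))) .nil))) (.nd (nat_lit 5) 
(.lf (nat_lit 154066) (.g (nat_lit 1965) (.e (nat_lit 57407) (nat_lit 12) (.e (nat_lit 336456) (nat_lit 34) (.e (nat_lit 483406) (nat_lit 26) (.e (nat_lit 385059) (nat_lit 22) .nil)))) .nil)) 
(.lf (nat_lit 154098) (.g (nat_lit 2452) (.e (nat_lit 57408) (nat_lit 12) (.e (nat_lit 336324) (nat_lit 18) (.e (nat_lit 204854) (nat_lit 26) (.e (nat_lit 336211) (nat_lit 13) (.e (nat_lit 393253) (nat_lit 18) .nil))))) .nil)))) (.nd (nat_lit 4) (.nd (nat_lit 5) 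
(.lf (nat_lit 154058) (.g (nat_lit 2479) (.e (nat_lit 57407) (nat_lit 12) (.e (nat_lit 336456) (nat_lit 34) (.e (nat_lit 483404) (nat_lit 26) (.e (nat_lit 385066) (nat_lit 26) (.e (nat_lit 532503) (nat_lit 1) (.e (nat_lit 57848) (nat_lit 252) .nil)))))) (.g (nat_lit 5) .nil .nil))) 
(.lf (nat_lit 154090) (.g (nat_lit 1310) (.e (nat_lit 57408) (nat_lit 12) (.e (nat_lit 336211) (nat_lit 13) (.e (nat_lit 393299) (nat_lit 27) (.e (nat_lit 491558) (nat_lit 10) .nil)))) .nil))) (.nd (nat_lit 5) 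
(.lf (nat_lit 154074) (.g (nat_lit 4192) (.e (nat_lit 57407) (nat_lit 12) (.e (nat_lit 336456) (nat_lit 34) (.e (nat_lit 483406) (nat_lit 26) (.e (nat_lit 385066) (nat_lit 26) (.e (nat_lit 532503) (nat_lit 1) (.e (nat_lit 57848) (nat_lit 252) .nil)))))) (.g (nat_lit 0) .nil .nil))) 
(.lf (nat_lit 154106) (.g (nat_lit 1718) (.e (nat_lit 57408) (nat_lit 12) (.e (nat_lit 336443) (nat_lit 32) (.e (nat_lit 466974) (nat_lit 22) (.e (nat_lit 196654) (nat_lit 11) (.e (nat_lit 16393) (nat_lit 0) .nil))))) .nil))))) (.nd (nat_lit 3) (.nd (nat_lit 4) (.nd (nat_lit 5) 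
(.lf (nat_lit 154054) (.g (nat_lit 3852) (.e (nat_lit 57407) (nat_lit 12) (.e (nat_lit 336456) (nat_lit 34) (.e (nat_lit 483403) (nat_lit 26) (.e (nat_lit 385068) (nat_lit 26) (.e (nat_lit 532503) (nat_lit 1) (.e (nat_lit 57847) (nat_lit 252) .nil)))))) (.g (nat_lit 0) .nil .nil))) 
(.lf (nat_lit 154086) (.g (nat_lit 702) (.e (nat_lit 57408) (nat_lit 12) (.e (nat_lit 336211) (nat_lit 13) (.e (nat_lit 393268) (nat_lit 23) .nil))) .nil))) (.nd (nat_lit 5) 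
(.lf (nat_lit 154070) (.g (nat_lit 3673) (.e (nat_lit 57407) (nat_lit 12) (.e (nat_lit 336456) (nat_lit 34) (.e (nat_lit 483406) (nat_lit 26) (.e (nat_lit 385066) (nat_lit 26) (.e (nat_lit 532502) (nat_lit 1) (.e (nat_lit 57846) (nat_lit 252) .nil)))))) (.g (nat_lit 0) .nil .nil))) 
(.lf (nat_lit 154102) (.g (nat_lit 1705) (.e (nat_lit 57408) (nat_lit 12) (.e (nat_lit 336326) (nat_lit 18) (.e (nat_lit 204861) (nat_lit 26) (.e (nat_lit 336213) (nat_lit 13) (.e (nat_lit 393251) (nat_lit 18) .nil))))) .nil)))) (.nd (nat_lit 4) (.nd (nat_lit 5) 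
(.lf (nat_lit 154062) (.g (nat_lit 2860) (.e (nat_lit 57407) (nat_lit 12) (.e (nat_lit 336456) (nat_lit 34) (.e (nat_lit 483405) (nat_lit 26) (.e (nat_lit 385066) (nat_lit 26) (.e (nat_lit 532503) (nat_lit 1) (.e (nat_lit 57846) (nat_lit 252) .nil)))))) (.g (nat_lit 6) .nil .nil))) 
(.lf (nat_lit 154094) (.g (nat_lit 3021) (.e (nat_lit 57408) (nat_lit 12) (.e (nat_lit 336211) (nat_lit 13) (.e (nat_lit 393301) (nat_lit 27) (.e (nat_lit 491560) (nat_lit 10) (.e (nat_lit 344090) (nat_lit 18) .nil))))) .nil))) (.nd (nat_lit 5) 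
(.lf (nat_lit 154078) (.g (nat_lit 1848) (.e (nat_lit 57407) (nat_lit 12) (.e (nat_lit 336456) (nat_lit 34) (.e (nat_lit 483408) (nat_lit 26) (.e (nat_lit 385068) (nat_lit 26) (.e (nat_lit 532503) (nat_lit 1) .nil))))) .nil)) 
(.lf (nat_lit 154110) (.g (nat_lit 2706) (.e (nat_lit 57408) (nat_lit 12) (.e (nat_lit 336443) (nat_lit 32) (.e (nat_lit 466974) (nat_lit 22) (.e (nat_lit 196654) (nat_lit 11) (.e (nat_lit 16407) (nat_lit 1) (.e (nat_lit 164403) (nat_lit 256) .nil)))))) (.g (nat_lit 0) .nil .nil)))))))) (.nd (nat_lit 1) (.nd (nat_lit 2) (.nd (nat_lit 3) (.nd (nat_lit 4) (.nd (nat_lit 5) 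
(.lf (nat_lit 154049) (.g (nat_lit 3447) (.e (nat_lit 57407) (nat_lit 12) (.e (nat_lit 336456) (nat_lit 34) (.e (nat_lit 483403) (nat_lit 26) (.e (nat_lit 385066) (nat_lit 26) (.e (nat_lit 532502) (nat_lit 1) (.e (nat_lit 57847) (nat_lit 252) .nil)))))) (.g (nat_lit 0) .nil .nil))) 
(.lf (nat_lit 154081) (.g (nat_lit 2613) (.e (nat_lit 57407) (nat_lit 12) (.e (nat_lit 336456) (nat_lit 34) (.e (nat_lit 483413) (nat_lit 27) (.e (nat_lit 401427) (nat_lit 3) (.e (nat_lit 204831) (nat_lit 18) .nil))))) .nil))) (.nd (nat_lit 5) 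
(.lf (nat_lit 154065) (.g (nat_lit 3671) (.e (nat_lit 57407) (nat_lit 12) (.e (nat_lit 336456) (nat_lit 34) (.e (nat_lit 483405) (nat_lit 26) (.e (nat_lit 385068) (nat_lit 26) (.e (nat_lit 532503) (nat_lit 1) (.e (nat_lit 57848) (nat_lit 252) .nil)))))) (.g (nat_lit 0) .nil .nil))) 
(.lf (nat_lit 154097) (.g (nat_lit 2601) (.e (nat_lit 57408) (nat_lit 12) (.e (nat_lit 336324) (nat_lit 18) (.e (nat_lit 204854) (nat_lit 26) (.e (nat_lit 336211) (nat_lit 13) (.e (nat_lit 393251) (nat_lit 18) (.e (nat_lit 164179) (nat_lit 154) .nil)))))) (.g (nat_lit 4) .nil .nil))))) (.nd (nat_lit 4) (.nd (nat_lit 5) 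
(.lf (nat_lit 154057) (.g (nat_lit 2359) (.e (nat_lit 57407) (nat_lit 12) (.e (nat_lit 336456) (nat_lit 34) (.e (nat_lit 483404) (nat_lit 26) (.e (nat_lit 385066) (nat_lit 26) (.e (nat_lit 532503) (nat_lit 1) (.e (nat_lit 57847) (nat_lit 252) .nil)))))) (.g (nat_lit 5) .nil .nil))) 
(.lf (nat_lit 154089) (.g (nat_lit 468) (.e (nat_lit 57408) (nat_lit 12) (.e (nat_lit 336211) (nat_lit 13) (.e (nat_lit 393272) (nat_lit 23) .nil))) .nil))) (.nd (nat_lit 5) 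
(.lf (nat_lit 154073) (.g (nat_lit 4135) (.e (nat_lit 57407) (nat_lit 12) (.e (nat_lit 336456) (nat_lit 34) (.e (nat_lit 483406) (nat_lit 26) (.e (nat_lit 385066) (nat_lit 26) (.e (nat_lit 532503) (nat_lit 1) (.e (nat_lit 57847) (nat_lit 252) .nil)))))) (.g (nat_lit 0) .nil .nil))) 
(.lf (nat_lit 154105) (.g (nat_lit 1053) (.e (nat_lit 57408) (nat_lit 12) (.e (nat_lit 336443) (nat_lit 32) (.e (nat_lit 466974) (nat_lit 22) (.e (nat_lit 196654) (nat_lit 11) .nil)))) .nil))))) (.nd (nat_lit 3) (.nd (nat_lit 4) (.nd (nat_lit 5) 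
(.lf (nat_lit 154053) (.g (nat_lit 4247) (.e (nat_lit 57407) (nat_lit 12) (.e (nat_lit 336456) (nat_lit 34) (.e (nat_lit 483403) (nat_lit 26) (.e (nat_lit 385068) (nat_lit 26) (.e (nat_lit 532499) (nat_lit 1) (.e (nat_lit 57847) (nat_lit 252) .nil)))))) (.g (nat_lit 0) .nil .nil))) 
(.lf (nat_lit 154085) (.g (nat_lit 1501) (.e (nat_lit 57408) (nat_lit 12) (.e (nat_lit 336211) (nat_lit 13) (.e (nat_lit 393233) (nat_lit 17) (.e (nat_lit 7593) (nat_lit 407) (.e (nat_lit 73729) (nat_lit 0) .nil))))) .nil))) (.nd (nat_lit 5) 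
(.lf (nat_lit 154069) (.g (nat_lit 4633) (.e (nat_lit 57407) (nat_lit 12) (.e (nat_lit 336456) (nat_lit 34) (.e (nat_lit 483406) (nat_lit 26) (.e (nat_lit 385066) (nat_lit 26) (.e (nat_lit 532499) (nat_lit 1) (.e (nat_lit 57847) (nat_lit 252) .nil)))))) (.g (nat_lit 0) .nil .nil))) 
(.lf (nat_lit 154101) (.g (nat_lit 776) (.e (nat_lit 57408) (nat_lit 12) (.e (nat_lit 336324) (nat_lit 18) (.e (nat_lit 204878) (nat_lit 31) .nil))) .nil)))) (.nd (nat_lit 4) (.nd (nat_lit 5) 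
(.lf (nat_lit 154061) (.g (nat_lit 2083) (.e (nat_lit 57407) (nat_lit 12) (.e (nat_lit 336456) (nat_lit 34) (.e (nat_lit 483405) (nat_lit 26) (.e (nat_lit 385066) (nat_lit 26) (.e (nat_lit 532502) (nat_lit 1) (.e (nat_lit 57848) (nat_lit 252) .nil)))))) (.g (nat_lit 5) .nil .nil))) 
(.lf (nat_lit 154093) (.g (nat_lit 986) (.e (nat_lit 57408) (nat_lit 12) (.e (nat_lit 336211) (nat_lit 13) (.e (nat_lit 393300) (nat_lit 27) (.e (nat_lit 491560) (nat_lit 10) .nil)))) .nil))) (.nd (nat_lit 5) 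
(.lf (nat_lit 154077) (.g (nat_lit 2603) (.e (nat_lit 57407) (nat_lit 12) (.e (nat_lit 336456) (nat_lit 34) (.e (nat_lit 483407) (nat_lit 26) (.e (nat_lit 385068) (nat_lit 26) (.e (nat_lit 532503) (nat_lit 1) (.e (nat_lit 57848) (nat_lit 252) .nil)))))) (.g (nat_lit 4) .nil .nil))) 
(.lf (nat_lit 154109) (.g (nat_lit 1579) (.e (nat_lit 57408) (nat_lit 12) (.e (nat_lit 336443) (nat_lit 32) (.e (nat_lit 466974) (nat_lit 22) (.e (nat_lit 196654) (nat_lit 11) (.e (nat_lit 16407) (nat_lit 1) .nil))))) .nil)))))) (.nd (nat_lit 2) (.nd (nat_lit 3) (.nd (nat_lit 4) (.nd (nat_lit 5) 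
(.lf (nat_lit 154051) (.g (nat_lit 3701) (.e (nat_lit 57407) (nat_lit 12) (.e (nat_lit 336456) (nat_lit 34) (.e (nat_lit 483403) (nat_lit 26) (.e (nat_lit 385066) (nat_lit 26) (.e (nat_lit 532503) (nat_lit 1) (.e (nat_lit 57847) (nat_lit 252) .nil)))))) (.g (nat_lit 0) .nil .nil))) 
(.lf (nat_lit 154083) (.g (nat_lit 1107) (.e (nat_lit 57408) (nat_lit 12) (.e (nat_lit 336211) (nat_lit 13) (.e (nat_lit 393232) (nat_lit 17) (.e (nat_lit 7593) (nat_lit 407) .nil)))) .nil))) (.nd (nat_lit 5) 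
(.lf (nat_lit 154067) (.g (nat_lit 2931) (.e (nat_lit 57407) (nat_lit 12) (.e (nat_lit 336456) (nat_lit 34) (.e (nat_lit 483406) (nat_lit 26) (.e (nat_lit 385064) (nat_lit 26) (.e (nat_lit 532503) (nat_lit 1) (.e (nat_lit 57848) (nat_lit 252) .nil)))))) (.g (nat_lit 5) .nil .nil))) 
(.lf (nat_lit 154099) (.g (nat_lit 1402) (.e (nat_lit 57408) (nat_lit 12) (.e (nat_lit 336324) (nat_lit 18) (.e (nat_lit 204877) (nat_lit 31) (.e (nat_lit 376838) (nat_lit 11) .nil)))) .nil)))) (.nd (nat_lit 4) (.nd (nat_lit 5) 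
(.lf (nat_lit 154059) (.g (nat_lit 2936) (.e (nat_lit 57407) (nat_lit 12) (.e (nat_lit 336456) (nat_lit 34) (.e (nat_lit 483404) (nat_lit 26) (.e (nat_lit 385068) (nat_lit 26) (.e (nat_lit 532503) (nat_lit 1) (.e (nat_lit 57847) (nat_lit 252) .nil)))))) (.g (nat_lit 5) .nil .nil))) 
(.lf (nat_lit 154091) (.g (nat_lit 1153) (.e (nat_lit 57408) (nat_lit 12) (.e (nat_lit 336211) (nat_lit 13) (.e (nat_lit 393299) (nat_lit 27) (.e (nat_lit 491560) (nat_lit 10) .nil)))) .nil))) (.nd (nat_lit 5) 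
(.lf (nat_lit 154075) (.g (nat_lit 4492) (.e (nat_lit 57407) (nat_lit 12) (.e (nat_lit 336456) (nat_lit 34) (.e (nat_lit 483406) (nat_lit 26) (.e (nat_lit 385068) (nat_lit 26) (.e (nat_lit 532499) (nat_lit 1) (.e (nat_lit 57847) (nat_lit 252) .nil)))))) (.g (nat_lit 0) .nil .nil))) 
(.lf (nat_lit 154107) (.g (nat_lit 2468) (.e (nat_lit 57408) (nat_lit 12) (.e (nat_lit 336443) (nat_lit 32) (.e (nat_lit 466974) (nat_lit 22) (.e (nat_lit 196654) (nat_lit 11) (.e (nat_lit 16405) (nat_lit 1) (.e (nat_lit 164399) (nat_lit 256) .nil)))))) (.g (nat_lit 0) .nil .nil)))))) (.nd (nat_lit 3) (.nd (nat_lit 4) (.nd (nat_lit 5) 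
(.lf (nat_lit 154055) (.g (nat_lit 3964) (.e (nat_lit 57407) (nat_lit 12) (.e (nat_lit 336456) (nat_lit 34) (.e (nat_lit 483403) (nat_lit 26) (.e (nat_lit 385068) (nat_lit 26) (.e (nat_lit 532503) (nat_lit 1) (.e (nat_lit 57848) (nat_lit 252) .nil)))))) (.g (nat_lit 0) .nil .nil))) 
(.lf (nat_lit 154087) (.g (nat_lit 458) (.e (nat_lit 57408) (nat_lit 12) (.e (nat_lit 336211) (nat_lit 13) (.e (nat_lit 393270) (nat_lit 23) .nil))) .nil))) (.nd (nat_lit 5) 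
(.lf (nat_lit 154071) (.g (nat_lit 3849) (.e (nat_lit 57407) (nat_lit 12) (.e (nat_lit 336456) (nat_lit 34) (.e (nat_lit 483406) (nat_lit 26) (.e (nat_lit 385066) (nat_lit 26) (.e (nat_lit 532502) (nat_lit 1) (.e (nat_lit 57847) (nat_lit 252) .nil)))))) (.g (nat_lit 0) .nil .nil))) 
(.lf (nat_lit 154103) (.g (nat_lit 1555) (.e (nat_lit 57408) (nat_lit 12) (.e (nat_lit 336432) (nat_lit 30) (.e (nat_lit 450580) (nat_lit 5) (.e (nat_lit 532579) (nat_lit 26) (.e (nat_lit 426100) (nat_lit 1) .nil))))) .nil)))) (.nd (nat_lit 4) (.nd (nat_lit 5) 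
(.lf (nat_lit 154063) (.g (nat_lit 3062) (.e (nat_lit 57407) (nat_lit 12) (.e (nat_lit 336456) (nat_lit 34) (.e (nat_lit 483405) (nat_lit 26) (.e (nat_lit 385066) (nat_lit 26) (.e (nat_lit 532503) (nat_lit 1) (.e (nat_lit 57848) (nat_lit 252) .nil)))))) (.g (nat_lit 6) .nil .nil))) 
(.lf (nat_lit 154095) (.g (nat_lit 1145) (.e (nat_lit 57408) (nat_lit 12) (.e (nat_lit 336316) (nat_lit 17) (.e (nat_lit 196672) (nat_lit 15) (.e (nat_lit 81927) (nat_lit 11) .nil)))) .nil))) (.nd (nat_lit 5) 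
(.lf (nat_lit 154079) (.g (nat_lit 3155) (.e (nat_lit 57407) (nat_lit 12) (.e (nat_lit 336456) (nat_lit 34) (.e (nat_lit 483408) (nat_lit 26) (.e (nat_lit 385068) (nat_lit 26) (.e (nat_lit 532503) (nat_lit 1) (.e (nat_lit 57848) (nat_lit 252) .nil)))))) (.g (nat_lit 5) .nil .nil))) 
(.lf (nat_lit 154111) (.g (nat_lit 1821) (.e (nat_lit 57408) (nat_lit 12) (.e (nat_lit 336443) (nat_lit 32) (.e (nat_lit 466974) (nat_lit 22) (.e (nat_lit 196656) (nat_lit 11) (.e (nat_lit 16407) (nat_lit 1) (.e (nat_lit 164401) (nat_lit 256) .nil)))))) (.g (nat_lit 4) .nil .nil)))))))))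

noncomputable def tv2055 : DT := (.nd (nat_lit 0) (.nd (nat_lit 1) (.nd (nat_lit 2) (.nd (nat_lit 3) (.nd (nat_lit 4) (.nd (nat_lit 5) 
(.lf (nat_lit 154112) (.g (nat_lit 2792) (.e (nat_lit 57408) (nat_lit 12) (.e (nat_lit 336443) (nat_lit 32) (.e (nat_lit 466974) (nat_lit 22) (.e (nat_lit 196656) (nat_lit 11) (.e (nat_lit 16407) (nat_lit 1) (.e (nat_lit 164403) (nat_lit 256) .nil)))))) (.g (nat_lit 0) .nil .nil))) 
(.lf (nat_lit 154144) (.g (nat_lit 2483) (.e (nat_lit 57408) (nat_lit 12) (.e (nat_lit 336443) (nat_lit 32) (.e (nat_lit 466981) (nat_lit 23) (.e (nat_lit 204809) (nat_lit 9) (.e (nat_lit 426100) (nat_lit 1) (.e (nat_lit 164399) (nat_lit 256) .nil)))))) (.g (nat_lit 0) .nil .nil)))) (.nd (nat_lit 5) 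
(.lf (nat_lit 154128) (.g (nat_lit 410) (.e (nat_lit 57408) (nat_lit 12) (.e (nat_lit 336443) (nat_lit 32) (.e (nat_lit 466979) (nat_lit 23) .nil))) .nil)) 
(.lf (nat_lit 154160) (.g (nat_lit 3035) (.e (nat_lit 57408) (nat_lit 12) (.e (nat_lit 336454) (nat_lit 34) (.e (nat_lit 483380) (nat_lit 23) (.e (nat_lit 336324) (nat_lit 18) (.e (nat_lit 204830) (nat_lit 18) (.e (nat_lit 57854) (nat_lit 252) .nil)))))) (.g (nat_lit 0) .nil .nil))))) (.nd (nat_lit 4) (.nd (nat_lit 5) 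
(.lf (nat_lit 154120) (.g (nat_lit 2767) (.e (nat_lit 57408) (nat_lit 12) (.e (nat_lit 336443) (nat_lit 32) (.e (nat_lit 466977) (nat_lit 22) (.e (nat_lit 196654) (nat_lit 11) (.e (nat_lit 16407) (nat_lit 1) (.e (nat_lit 164403) (nat_lit 256) .nil)))))) (.g (nat_lit 0) .nil .nil))) 
(.lf (nat_lit 154152) (.g (nat_lit 1444) (.e (nat_lit 57408) (nat_lit 12) (.e (nat_lit 336450) (nat_lit 33) (.e (nat_lit 475212) (nat_lit 42) (.e (nat_lit 720956) (nat_lit 25) .nil)))) .nil))) (.nd (nat_lit 5) 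
(.lf (nat_lit 154136) (.g (nat_lit 2469) (.e (nat_lit 57408) (nat_lit 12) (.e (nat_lit 336443) (nat_lit 32) (.e (nat_lit 466979) (nat_lit 23) (.e (nat_lit 204813) (nat_lit 9) (.e (nat_lit 426100) (nat_lit 1) (.e (nat_lit 164399) (nat_lit 256) .nil)))))) (.g (nat_lit 0) .nil .nil))) 
(.lf (nat_lit 154168) (.g (nat_lit 2894) (.e (nat_lit 57408) (nat_lit 12) (.e (nat_lit 336454) (nat_lit 34) (.e (nat_lit 483380) (nat_lit 23) (.e (nat_lit 336326) (nat_lit 18) (.e (nat_lit 204830) (nat_lit 18) (.e (nat_lit 57854) (nat_lit 252) .nil)))))) (.g (nat_lit 0) .nil .nil)))))) (.nd (nat_lit 3) (.nd (nat_lit 4) (.nd (nat_lit 5) 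
(.lf (nat_lit 154116) (.g (nat_lit 1836) (.e (nat_lit 57408) (nat_lit 12) (.e (nat_lit 336443) (nat_lit 32) (.e (nat_lit 466977) (nat_lit 22) (.e (nat_lit 196654) (nat_lit 11) (.e (nat_lit 16393) (nat_lit 0) .nil))))) .nil)) 
(.lf (nat_lit 154148) (.g (nat_lit 1886) (.e (nat_lit 57408) (nat_lit 12) (.e (nat_lit 336443) (nat_lit 32) (.e (nat_lit 466981) (nat_lit 23) (.e (nat_lit 204813) (nat_lit 9) (.e (nat_lit 426099) (nat_lit 1) .nil))))) .nil))) (.nd (nat_lit 5) 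
(.lf (nat_lit 154132) (.g (nat_lit 2455) (.e (nat_lit 57408) (nat_lit 12) (.e (nat_lit 336443) (nat_lit 32) (.e (nat_lit 466979) (nat_lit 23) (.e (nat_lit 204809) (nat_lit 9) (.e (nat_lit 426100) (nat_lit 1) (.e (nat_lit 164399) (nat_lit 256) .nil)))))) (.g (nat_lit 0) .nil .nil))) 
(.lf (nat_lit 154164) (.g (nat_lit 3088) (.e (nat_lit 57408) (nat_lit 12) (.e (nat_lit 336454) (nat_lit 34) (.e (nat_lit 483380) (nat_lit 23) (.e (nat_lit 336324) (nat_lit 18) (.e (nat_lit 204831) (nat_lit 18) (.e (nat_lit 57851) (nat_lit 252) .nil)))))) (.g (nat_lit 0) .nil .nil))))) (.nd (nat_lit 4) (.nd (nat_lit 5) 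
(.lf (nat_lit 154124) (.g (nat_lit 2332) (.e (nat_lit 57408) (nat_lit 12) (.e (nat_lit 336443) (nat_lit 32) (.e (nat_lit 466977) (nat_lit 22) (.e (nat_lit 196656) (nat_lit 11) (.e (nat_lit 16404) (nat_lit 1) .nil))))) .nil)) 
(.lf (nat_lit 154156) (.g (nat_lit 3309) (.e (nat_lit 57408) (nat_lit 12) (.e (nat_lit 336454) (nat_lit 34) (.e (nat_lit 483380) (nat_lit 23) (.e (nat_lit 336324) (nat_lit 18) (.e (nat_lit 204829) (nat_lit 18) (.e (nat_lit 57847) (nat_lit 252) .nil)))))) (.g (nat_lit 0) .nil .nil)))) (.nd (nat_lit 5) 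
(.lf (nat_lit 154140) (.g (nat_lit 398) (.e (nat_lit 57408) (nat_lit 12) (.e (nat_lit 336443) (nat_lit 32) (.e (nat_lit 466981) (nat_lit 23) .nil))) .nil)) 
(.lf (nat_lit 154172) (.g (nat_lit 2600) (.e (nat_lit 57408) (nat_lit 12) (.e (nat_lit 336454) (nat_lit 34) (.e (nat_lit 483380) (nat_lit 23) (.e (nat_lit 336326) (nat_lit 18) (.e (nat_lit 204831) (nat_lit 18) (.e (nat_lit 57851) (nat_lit 252) .nil)))))) (.g (nat_lit 6) .nil .nil))))))) (.nd (nat_lit 2) (.nd (nat_lit 3) (.nd (nat_lit 4) (.nd (nat_lit 5) 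
(.lf (nat_lit 154114) (.g (nat_lit 1432) (.e (nat_lit 57408) (nat_lit 12) (.e (nat_lit 336443) (nat_lit 32) (.e (nat_lit 466977) (nat_lit 22) (.e (nat_lit 196653) (nat_lit 11) .nil)))) .nil)) 
(.lf (nat_lit 154146) (.g (nat_lit 2675) (.e (nat_lit 57408) (nat_lit 12) (.e (nat_lit 336443) (nat_lit 32) (.e (nat_lit 466981) (nat_lit 23) (.e (nat_lit 204809) (nat_lit 9) (.e (nat_lit 426108) (nat_lit 1) (.e (nat_lit 164403) (nat_lit 256) .nil)))))) (.g (nat_lit 0) .nil .nil)))) (.nd (nat_lit 5) 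
(.lf (nat_lit 154130) (.g (nat_lit 2300) (.e (nat_lit 57408) (nat_lit 12) (.e (nat_lit 336443) (nat_lit 32) (.e (nat_lit 466979) (nat_lit 23) (.e (nat_lit 204809) (nat_lit 9) (.e (nat_lit 426098) (nat_lit 1) (.e (nat_lit 164399) (nat_lit 256) .nil)))))) (.g (nat_lit 0) .nil .nil))) 
(.lf (nat_lit 154162) (.g (nat_lit 3206) (.e (nat_lit 57408) (nat_lit 12) (.e (nat_lit 336454) (nat_lit 34) (.e (nat_lit 483380) (nat_lit 23) (.e (nat_lit 336324) (nat_lit 18) (.e (nat_lit 204831) (nat_lit 18) (.e (nat_lit 57847) (nat_lit 252) .nil)))))) (.g (nat_lit 0) .nil .nil))))) (.nd (nat_lit 4) (.nd (nat_lit 5) 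
(.lf (nat_lit 154122) (.g (nat_lit 1902) (.e (nat_lit 57408) (nat_lit 12) (.e (nat_lit 336443) (nat_lit 32) (.e (nat_lit 466977) (nat_lit 22) (.e (nat_lit 196656) (nat_lit 11) (.e (nat_lit 16392) (nat_lit 0) .nil))))) .nil)) 
(.lf (nat_lit 154154) (.g (nat_lit 309) (.e (nat_lit 57408) (nat_lit 12) (.e (nat_lit 336454) (nat_lit 34) (.e (nat_lit 483380) (nat_lit 23) .nil))) .nil))) (.nd (nat_lit 5) 
(.lf (nat_lit 154138) (.g (nat_lit 2586) (.e (nat_lit 57408) (nat_lit 12) (.e (nat_lit 336443) (nat_lit 32) (.e (nat_lit 466979) (nat_lit 23) (.e (nat_lit 204813) (nat_lit 9) (.e (nat_lit 426108) (nat_lit 1) (.e (nat_lit 164403) (nat_lit 256) .nil)))))) (.g (nat_lit 0) .nil .nil))) 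
(.lf (nat_lit 154170) (.g (nat_lit 2943) (.e (nat_lit 57408) (nat_lit 12) (.e (nat_lit 336454) (nat_lit 34) (.e (nat_lit 483380) (nat_lit 23) (.e (nat_lit 336326) (nat_lit 18) (.e (nat_lit 204831) (nat_lit 18) (.e (nat_lit 57847) (nat_lit 252) .nil)))))) (.g (nat_lit 0) .nil .nil)))))) (.nd (nat_lit 3) (.nd (nat_lit 4) (.nd (nat_lit 5) 
(.lf (nat_lit 154118) (.g (nat_lit 2518) (.e (nat_lit 57408) (nat_lit 12) (.e (nat_lit 336443) (nat_lit 32) (.e (nat_lit 466977) (nat_lit 22) (.e (nat_lit 196654) (nat_lit 11) (.e (nat_lit 16406) (nat_lit 1) (.e (nat_lit 164399) (nat_lit 256) .nil)))))) (.g (nat_lit 0) .nil .nil))) 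
(.lf (nat_lit 154150) (.g (nat_lit 2612) (.e (nat_lit 57408) (nat_lit 12) (.e (nat_lit 336443) (nat_lit 32) (.e (nat_lit 466981) (nat_lit 23) (.e (nat_lit 204813) (nat_lit 9) (.e (nat_lit 426107) (nat_lit 1) (.e (nat_lit 164403) (nat_lit 256) .nil)))))) (.g (nat_lit 0) .nil .nil)))) (.nd (nat_lit 5) 
(.lf (nat_lit 154134) (.g (nat_lit 2656) (.e (nat_lit 57408) (nat_lit 12) (.e (nat_lit 336443) (nat_lit 32) (.e (nat_lit 466979) (nat_lit 23) (.e (nat_lit 204809) (nat_lit 9) (.e (nat_lit 426108) (nat_lit 1) (.e (nat_lit 164403) (nat_lit 256) .nil)))))) (.g (nat_lit 0) .nil .nil))) 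
(.lf (nat_lit 154166) (.g (nat_lit 3233) (.e (nat_lit 57408) (nat_lit 12) (.e (nat_lit 336454) (nat_lit 34) (.e (nat_lit 483380) (nat_lit 23) (.e (nat_lit 336326) (nat_lit 18) (.e (nat_lit 204829) (nat_lit 18) (.e (nat_lit 57847) (nat_lit 252) .nil)))))) (.g (nat_lit 0) .nil .nil))))) (.nd (nat_lit 4) (.nd (nat_lit 5) 
(.lf (nat_lit 154126) (.g (nat_lit 1999) (.e (nat_lit 57408) (nat_lit 12) (.e (nat_lit 336443) (nat_lit 32) (.e (nat_lit 466977) (nat_lit 22) (.e (nat_lit 196656) (nat_lit 11) (.e (nat_lit 16406) (nat_lit 1) (.e (nat_lit 164401) (nat_lit 256) .nil)))))) (.g (nat_lit 4) .nil .nil))) 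
(.lf (nat_lit 154158) (.g (nat_lit 2862) (.e (nat_lit 57408) (nat_lit 12) (.e (nat_lit 336454) (nat_lit 34) (.e (nat_lit 483380) (nat_lit 23) (.e (nat_lit 336324) (nat_lit 18) (.e (nat_lit 204829) (nat_lit 18) (.e (nat_lit 57854) (nat_lit 252) .nil)))))) (.g (nat_lit 0) .nil .nil)))) (.nd (nat_lit 5) 
(.lf (nat_lit 154142) (.g (nat_lit 2329) (.e (nat_lit 57408) (nat_lit 12) (.e (nat_lit 336443) (nat_lit 32) (.e (nat_lit 466981) (nat_lit 23) (.e (nat_lit 204809) (nat_lit 9) (.e (nat_lit 426098) (nat_lit 1) (.e (nat_lit 164399) (nat_lit 256) .nil)))))) (.g (nat_lit 0) .nil .nil))) 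
(.lf (nat_lit 154174) (.g (nat_lit 998) (.e (nat_lit 57408) (nat_lit 12) (.e (nat_lit 336454) (nat_lit 34) (.e (nat_lit 483381) (nat_lit 23) .nil))) .nil))))))) (.nd (nat_lit 1) (.nd (nat_lit 2) (.nd (nat_lit 3) (.nd (nat_lit 4) (.nd (nat_lit 5) 
(.lf (nat_lit 154113) (.g (nat_lit 2043) (.e (nat_lit 57408) (nat_lit 12) (.e (nat_lit 336443) (nat_lit 32) (.e (nat_lit 466977) (nat_lit 22) (.e (nat_lit 196624) (nat_lit 9) (.e (nat_lit 442) (nat_lit 33) .nil))))) .nil)) 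
(.lf (nat_lit 154145) (.g (nat_lit 2745) (.e (nat_lit 57408) (nat_lit 12) (.e (nat_lit 336443) (nat_lit 32) (.e (nat_lit 466981) (nat_lit 23) (.e (nat_lit 204809) (nat_lit 9) (.e (nat_lit 426107) (nat_lit 1) (.e (nat_lit 164403) (nat_lit 256) .nil)))))) (.g (nat_lit 0) .nil .nil)))) (.nd (nat_lit 5) 
(.lf (nat_lit 154129) (.g (nat_lit 2635) (.e (nat_lit 57408) (nat_lit 12) (.e (nat_lit 336443) (nat_lit 32) (.e (nat_lit 466979) (nat_lit 23) (.e (nat_lit 204809) (nat_lit 9) (.e (nat_lit 426098) (nat_lit 1) (.e (nat_lit 164398) (nat_lit 256) .nil)))))) (.g (nat_lit 0) .nil .nil))) 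
(.lf (nat_lit 154161) (.g (nat_lit 3638) (.e (nat_lit 57408) (nat_lit 12) (.e (nat_lit 336454) (nat_lit 34) (.e (nat_lit 483380) (nat_lit 23) (.e (nat_lit 336324) (nat_lit 18) (.e (nat_lit 204831) (nat_lit 18) (.e (nat_lit 57844) (nat_lit 252) .nil)))))) (.g (nat_lit 0) .nil .nil))))) (.nd (nat_lit 4) (.nd (nat_lit 5) 
(.lf (nat_lit 154121) (.g (nat_lit 1256) (.e (nat_lit 57408) (nat_lit 12) (.e (nat_lit 336443) (nat_lit 32) (.e (nat_lit 466977) (nat_lit 22) (.e (nat_lit 196656) (nat_lit 11) .nil)))) .nil)) 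
(.lf (nat_lit 154153) (.g (nat_lit 1000) (.e (nat_lit 57408) (nat_lit 12) (.e (nat_lit 336454) (nat_lit 34) (.e (nat_lit 483378) (nat_lit 23) .nil))) .nil))) (.nd (nat_lit 5) 
(.lf (nat_lit 154137) (.g (nat_lit 2546) (.e (nat_lit 57408) (nat_lit 12) (.e (nat_lit 336443) (nat_lit 32) (.e (nat_lit 466979) (nat_lit 23) (.e (nat_lit 204813) (nat_lit 9) (.e (nat_lit 426107) (nat_lit 1) (.e (nat_lit 164403) (nat_lit 256) .nil)))))) (.g (nat_lit 0) .nil .nil))) 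
(.lf (nat_lit 154169) (.g (nat_lit 2713) (.e (nat_lit 57408) (nat_lit 12) (.e (nat_lit 336454) (nat_lit 34) (.e (nat_lit 483380) (nat_lit 23) (.e (nat_lit 336326) (nat_lit 18) (.e (nat_lit 204831) (nat_lit 18) (.e (nat_lit 57846) (nat_lit 252) .nil)))))) (.g (nat_lit 6) .nil .nil)))))) (.nd (nat_lit 3) (.nd (nat_lit 4) (.nd (nat_lit 5) 
(.lf (nat_lit 154117) (.g (nat_lit 2529) (.e (nat_lit 57408) (nat_lit 12) (.e (nat_lit 336443) (nat_lit 32) (.e (nat_lit 466977) (nat_lit 22) (.e (nat_lit 196654) (nat_lit 11) (.e (nat_lit 16405) (nat_lit 1) (.e (nat_lit 164399) (nat_lit 256) .nil)))))) (.g (nat_lit 0) .nil .nil))) 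
(.lf (nat_lit 154149) (.g (nat_lit 2544) (.e (nat_lit 57408) (nat_lit 12) (.e (nat_lit 336443) (nat_lit 32) (.e (nat_lit 466981) (nat_lit 23) (.e (nat_lit 204813) (nat_lit 9) (.e (nat_lit 426100) (nat_lit 1) (.e (nat_lit 164399) (nat_lit 256) .nil)))))) (.g (nat_lit 0) .nil .nil)))) (.nd (nat_lit 5) 
(.lf (nat_lit 154133) (.g (nat_lit 2714) (.e (nat_lit 57408) (nat_lit 12) (.e (nat_lit 336443) (nat_lit 32) (.e (nat_lit 466979) (nat_lit 23) (.e (nat_lit 204809) (nat_lit 9) (.e (nat_lit 426107) (nat_lit 1) (.e (nat_lit 164403) (nat_lit 256) .nil)))))) (.g (nat_lit 0) .nil .nil))) 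
(.lf (nat_lit 154165) (.g (nat_lit 2431) (.e (nat_lit 57408) (nat_lit 12) (.e (nat_lit 336454) (nat_lit 34) (.e (nat_lit 483380) (nat_lit 23) (.e (nat_lit 336325) (nat_lit 18) (.e (nat_lit 204829) (nat_lit 18) (.e (nat_lit 57847) (nat_lit 252) .nil)))))) (.g (nat_lit 5) .nil .nil))))) (.nd (nat_lit 4) (.nd (nat_lit 5) 
(.lf (nat_lit 154125) (.g (nat_lit 2728) (.e (nat_lit 57408) (nat_lit 12) (.e (nat_lit 336443) (nat_lit 32) (.e (nat_lit 466977) (nat_lit 22) (.e (nat_lit 196656) (nat_lit 11) (.e (nat_lit 16405) (nat_lit 1) (.e (nat_lit 164399) (nat_lit 256) .nil)))))) (.g (nat_lit 0) .nil .nil))) 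
(.lf (nat_lit 154157) (.g (nat_lit 3050) (.e (nat_lit 57408) (nat_lit 12) (.e (nat_lit 336454) (nat_lit 34) (.e (nat_lit 483380) (nat_lit 23) (.e (nat_lit 336324) (nat_lit 18) (.e (nat_lit 204829) (nat_lit 18) (.e (nat_lit 57853) (nat_lit 252) .nil)))))) (.g (nat_lit 6) .nil .nil)))) (.nd (nat_lit 5) 
(.lf (nat_lit 154141) (.g (nat_lit 2686) (.e (nat_lit 57408) (nat_lit 12) (.e (nat_lit 336443) (nat_lit 32) (.e (nat_lit 466981) (nat_lit 23) (.e (nat_lit 204809) (nat_lit 9) (.e (nat_lit 426098) (nat_lit 1) (.e (nat_lit 164398) (nat_lit 256) .nil)))))) (.g (nat_lit 0) .nil .nil))) 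
(.lf (nat_lit 154173) (.g (nat_lit 2834) (.e (nat_lit 57408) (nat_lit 12) (.e (nat_lit 336454) (nat_lit 34) (.e (nat_lit 483380) (nat_lit 23) (.e (nat_lit 336326) (nat_lit 18) (.e (nat_lit 204831) (nat_lit 18) (.e (nat_lit 57854) (nat_lit 252) .nil)))))) (.g (nat_lit 0) .nil .nil))))))) (.nd (nat_lit 2) (.nd (nat_lit 3) (.nd (nat_lit 4) (.nd (nat_lit 5) 
(.lf (nat_lit 154115) (.g (nat_lit 1144) (.e (nat_lit 57408) (nat_lit 12) (.e (nat_lit 336443) (nat_lit 32) (.e (nat_lit 466977) (nat_lit 22) (.e (nat_lit 196654) (nat_lit 11) .nil)))) .nil)) 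
(.lf (nat_lit 154147) (.g (nat_lit 2395) (.e (nat_lit 57408) (nat_lit 12) (.e (nat_lit 336443) (nat_lit 32) (.e (nat_lit 466981) (nat_lit 23) (.e (nat_lit 204813) (nat_lit 9) (.e (nat_lit 426098) (nat_lit 1) (.e (nat_lit 164399) (nat_lit 256) .nil)))))) (.g (nat_lit 0) .nil .nil)))) (.nd (nat_lit 5) 
(.lf (nat_lit 154131) (.g (nat_lit 2617) (.e (nat_lit 57408) (nat_lit 12) (.e (nat_lit 336443) (nat_lit 32) (.e (nat_lit 466979) (nat_lit 23) (.e (nat_lit 204809) (nat_lit 9) (.e (nat_lit 426100) (nat_lit 1) (.e (nat_lit 164398) (nat_lit 256) .nil)))))) (.g (nat_lit 6) .nil .nil))) 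
(.lf (nat_lit 154163) (.g (nat_lit 2941) (.e (nat_lit 57408) (nat_lit 12) (.e (nat_lit 336454) (nat_lit 34) (.e (nat_lit 483380) (nat_lit 23) (.e (nat_lit 336324) (nat_lit 18) (.e (nat_lit 204831) (nat_lit 18) (.e (nat_lit 57848) (nat_lit 252) .nil)))))) (.g (nat_lit 0) .nil .nil))))) (.nd (nat_lit 4) (.nd (nat_lit 5) 
(.lf (nat_lit 154123) (.g (nat_lit 2287) (.e (nat_lit 57408) (nat_lit 12) (.e (nat_lit 336443) (nat_lit 32) (.e (nat_lit 466977) (nat_lit 22) (.e (nat_lit 196656) (nat_lit 11) (.e (nat_lit 16396) (nat_lit 0) .nil))))) .nil)) 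
(.lf (nat_lit 154155) (.g (nat_lit 1304) (.e (nat_lit 57408) (nat_lit 12) (.e (nat_lit 336454) (nat_lit 34) (.e (nat_lit 483380) (nat_lit 23) (.e (nat_lit 336258) (nat_lit 15) .nil)))) .nil))) (.nd (nat_lit 5) 
(.lf (nat_lit 154139) (.g (nat_lit 1765) (.e (nat_lit 57408) (nat_lit 12) (.e (nat_lit 336443) (nat_lit 32) (.e (nat_lit 466980) (nat_lit 23) (.e (nat_lit 204813) (nat_lit 9) (.e (nat_lit 426100) (nat_lit 1) .nil))))) .nil)) 
(.lf (nat_lit 154171) (.g (nat_lit 2534) (.e (nat_lit 57408) (nat_lit 12) (.e (nat_lit 336454) (nat_lit 34) (.e (nat_lit 483380) (nat_lit 23) (.e (nat_lit 336326) (nat_lit 18) (.e (nat_lit 204831) (nat_lit 18) (.e (nat_lit 57848) (nat_lit 252) .nil)))))) (.g (nat_lit 6) .nil .nil)))))) (.nd (nat_lit 3) (.nd (nat_lit 4) (.nd (nat_lit 5) 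
(.lf (nat_lit 154119) (.g (nat_lit 1704) (.e (nat_lit 57408) (nat_lit 12) (.e (nat_lit 336443) (nat_lit 32) (.e (nat_lit 466977) (nat_lit 22) (.e (nat_lit 196654) (nat_lit 11) (.e (nat_lit 16407) (nat_lit 1) .nil))))) .nil)) 
(.lf (nat_lit 154151) (.g (nat_lit 2655) (.e (nat_lit 57408) (nat_lit 12) (.e (nat_lit 336443) (nat_lit 32) (.e (nat_lit 466981) (nat_lit 23) (.e (nat_lit 204813) (nat_lit 9) (.e (nat_lit 426108) (nat_lit 1) (.e (nat_lit 164403) (nat_lit 256) .nil)))))) (.g (nat_lit 0) .nil .nil)))) (.nd (nat_lit 5) 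
(.lf (nat_lit 154135) (.g (nat_lit 2322) (.e (nat_lit 57408) (nat_lit 12) (.e (nat_lit 336443) (nat_lit 32) (.e (nat_lit 466979) (nat_lit 23) (.e (nat_lit 204813) (nat_lit 9) (.e (nat_lit 426098) (nat_lit 1) (.e (nat_lit 164399) (nat_lit 256) .nil)))))) (.g (nat_lit 0) .nil .nil))) 
(.lf (nat_lit 154167) (.g (nat_lit 2783) (.e (nat_lit 57408) (nat_lit 12) (.e (nat_lit 336454) (nat_lit 34) (.e (nat_lit 483380) (nat_lit 23) (.e (nat_lit 336326) (nat_lit 18) (.e (nat_lit 204830) (nat_lit 18) (.e (nat_lit 57851) (nat_lit 252) .nil)))))) (.g (nat_lit 0) .nil .nil))))) (.nd (nat_lit 4) (.nd (nat_lit 5) 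
(.lf (nat_lit 154127) (.g (nat_lit 2940) (.e (nat_lit 57408) (nat_lit 12) (.e (nat_lit 336443) (nat_lit 32) (.e (nat_lit 466977) (nat_lit 22) (.e (nat_lit 196656) (nat_lit 11) (.e (nat_lit 16407) (nat_lit 1) (.e (nat_lit 164403) (nat_lit 256) .nil)))))) (.g (nat_lit 0) .nil .nil))) 
(.lf (nat_lit 154159) (.g (nat_lit 2973) (.e (nat_lit 57408) (nat_lit 12) (.e (nat_lit 336454) (nat_lit 34) (.e (nat_lit 483380) (nat_lit 23) (.e (nat_lit 336324) (nat_lit 18) (.e (nat_lit 204830) (nat_lit 18) (.e (nat_lit 57851) (nat_lit 252) .nil)))))) (.g (nat_lit 0) .nil .nil)))) (.nd (nat_lit 5) 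
(.lf (nat_lit 154143) (.g (nat_lit 2668) (.e (nat_lit 57408) (nat_lit 12) (.e (nat_lit 336443) (nat_lit 32) (.e (nat_lit 466981) (nat_lit 23) (.e (nat_lit 204809) (nat_lit 9) (.e (nat_lit 426100) (nat_lit 1) (.e (nat_lit 164398) (nat_lit 256) .nil)))))) (.g (nat_lit 6) .nil .nil))) 
(.lf (nat_lit 154175) (.g (nat_lit 1061) (.e (nat_lit 57408) (nat_lit 12) (.e (nat_lit 336454) (nat_lit 34) (.e (nat_lit 483382) (nat_lit 23) (.e (nat_lit 336324) (nat_lit 18) .nil)))) .nil))))))))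

noncomputable def tv2056 : DT := (.nd (nat_lit 0) (.nd (nat_lit 1) (.nd (nat_lit 2) (.nd (nat_lit 3) (.nd (nat_lit 4) (.nd (nat_lit 5) 
(.lf (nat_lit 154176) (.g (nat_lit 1571) (.e (nat_lit 57408) (nat_lit 12) (.e (nat_lit 336454) (nat_lit 34) (.e (nat_lit 483382) (nat_lit 23) (.e (nat_lit 336324) (nat_lit 18) (.e (nat_lit 204831) (nat_lit 18) .nil))))) .nil)) 
(.lf (nat_lit 154208) (.g (nat_lit 2661) (.e (nat_lit 57408) (nat_lit 12) (.e (nat_lit 336454) (nat_lit 34) (.e (nat_lit 483398) (nat_lit 25) (.e (nat_lit 368676) (nat_lit 21) (.e (nat_lit 516119) (nat_lit 1) (.e (nat_lit 164179) (nat_lit 154) .nil)))))) (.g (nat_lit 6) .nil .nil)))) (.nd (nat_lit 5) 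
(.lf (nat_lit 154192) (.g (nat_lit 3350) (.e (nat_lit 57408) (nat_lit 12) (.e (nat_lit 336454) (nat_lit 34) (.e (nat_lit 483383) (nat_lit 23) (.e (nat_lit 336324) (nat_lit 18) (.e (nat_lit 204830) (nat_lit 18) (.e (nat_lit 57854) (nat_lit 252) .nil)))))) (.g (nat_lit 0) .nil .nil))) 
(.lf (nat_lit 154224) (.g (nat_lit 3275) (.e (nat_lit 57408) (nat_lit 12) (.e (nat_lit 336454) (nat_lit 34) (.e (nat_lit 483403) (nat_lit 26) (.e (nat_lit 385066) (nat_lit 26) (.e (nat_lit 532500) (nat_lit 1) (.e (nat_lit 57851) (nat_lit 252) .nil)))))) (.g (nat_lit 0) .nil .nil))))) (.nd (nat_lit 4) (.nd (nat_lit 5) 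
(.lf (nat_lit 154184) (.g (nat_lit 3008) (.e (nat_lit 57408) (nat_lit 12) (.e (nat_lit 336454) (nat_lit 34) (.e (nat_lit 483383) (nat_lit 23) (.e (nat_lit 336019) (nat_lit 3) (.e (nat_lit 98335) (nat_lit 18) (.e (nat_lit 164179) (nat_lit 154) .nil)))))) (.g (nat_lit 6) .nil .nil))) 
(.lf (nat_lit 154216) (.g (nat_lit 1953) (.e (nat_lit 57408) (nat_lit 12) (.e (nat_lit 336454) (nat_lit 34) (.e (nat_lit 483402) (nat_lit 26) (.e (nat_lit 385068) (nat_lit 26) (.e (nat_lit 532504) (nat_lit 1) .nil))))) .nil))) (.nd (nat_lit 5) 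
(.lf (nat_lit 154200) (.g (nat_lit 2444) (.e (nat_lit 57408) (nat_lit 12) (.e (nat_lit 336454) (nat_lit 34) (.e (nat_lit 483383) (nat_lit 23) (.e (nat_lit 336326) (nat_lit 18) (.e (nat_lit 204831) (nat_lit 18) (.e (nat_lit 57848) (nat_lit 252) .nil)))))) (.g (nat_lit 6) .nil .nil))) 
(.lf (nat_lit 154232) (.g (nat_lit 2507) (.e (nat_lit 57408) (nat_lit 12) (.e (nat_lit 336454) (nat_lit 34) (.e (nat_lit 483403) (nat_lit 26) (.e (nat_lit 385066) (nat_lit 26) (.e (nat_lit 532502) (nat_lit 1) (.e (nat_lit 57851) (nat_lit 252) .nil)))))) (.g (nat_lit 0) .nil .nil)))))) (.nd (nat_lit 3) (.nd (nat_lit 4) (.nd (nat_lit 5) 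
(.lf (nat_lit 154180) (.g (nat_lit 1208) (.e (nat_lit 57408) (nat_lit 12) (.e (nat_lit 336454) (nat_lit 34) (.e (nat_lit 483383) (nat_lit 23) (.e (nat_lit 335878) (nat_lit 0) .nil)))) .nil)) 
(.lf (nat_lit 154212) (.g (nat_lit 2623) (.e (nat_lit 57408) (nat_lit 12) (.e (nat_lit 336454) (nat_lit 34) (.e (nat_lit 483399) (nat_lit 25) (.e (nat_lit 368676) (nat_lit 21) (.e (nat_lit 516119) (nat_lit 1) (.e (nat_lit 164179) (nat_lit 154) .nil)))))) (.g (nat_lit 6) .nil .nil)))) (.nd (nat_lit 5) 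
(.lf (nat_lit 154196) (.g (nat_lit 2721) (.e (nat_lit 57408) (nat_lit 12) (.e (nat_lit 336454) (nat_lit 34) (.e (nat_lit 483383) (nat_lit 23) (.e (nat_lit 336326) (nat_lit 18) (.e (nat_lit 204830) (nat_lit 18) (.e (nat_lit 57851) (nat_lit 252) .nil)))))) (.g (nat_lit 0) .nil .nil))) 
(.lf (nat_lit 154228) (.g (nat_lit 2869) (.e (nat_lit 57408) (nat_lit 12) (.e (nat_lit 336454) (nat_lit 34) (.e (nat_lit 483403) (nat_lit 26) (.e (nat_lit 385066) (nat_lit 26) (.e (nat_lit 532502) (nat_lit 1) (.e (nat_lit 57844) (nat_lit 252) .nil)))))) (.g (nat_lit 0) .nil .nil))))) (.nd (nat_lit 4) (.nd (nat_lit 5) 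
(.lf (nat_lit 154188) (.g (nat_lit 3171) (.e (nat_lit 57408) (nat_lit 12) (.e (nat_lit 336454) (nat_lit 34) (.e (nat_lit 483383) (nat_lit 23) (.e (nat_lit 336324) (nat_lit 18) (.e (nat_lit 204829) (nat_lit 18) (.e (nat_lit 57854) (nat_lit 252) .nil)))))) (.g (nat_lit 0) .nil .nil))) 
(.lf (nat_lit 154220) (.g (nat_lit 1793) (.e (nat_lit 57408) (nat_lit 12) (.e (nat_lit 336454) (nat_lit 34) (.e (nat_lit 483403) (nat_lit 26) (.e (nat_lit 385066) (nat_lit 26) (.e (nat_lit 532498) (nat_lit 1) (.e (nat_lit 57851) (nat_lit 252) .nil)))))) (.g (nat_lit 4) .nil .nil)))) (.nd (nat_lit 5) 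
(.lf (nat_lit 154204) (.g (nat_lit 2215) (.e (nat_lit 57408) (nat_lit 12) (.e (nat_lit 336454) (nat_lit 34) (.e (nat_lit 483384) (nat_lit 23) (.e (nat_lit 336324) (nat_lit 18) (.e (nat_lit 204831) (nat_lit 18) (.e (nat_lit 57851) (nat_lit 252) .nil)))))) (.g (nat_lit 5) .nil .nil))) 
(.lf (nat_lit 154236) (.g (nat_lit 3070) (.e (nat_lit 57408) (nat_lit 12) (.e (nat_lit 336454) (nat_lit 34) (.e (nat_lit 483403) (nat_lit 26) (.e (nat_lit 385066) (nat_lit 26) (.e (nat_lit 532503) (nat_lit 1) (.e (nat_lit 57846) (nat_lit 252) .nil)))))) (.g (nat_lit 0) .nil .nil))))))) (.nd (nat_lit 2) (.nd (nat_lit 3) (.nd (nat_lit 4) (.nd (nat_lit 5) 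
(.lf (nat_lit 154178) (.g (nat_lit 1080) (.e (nat_lit 57408) (nat_lit 12) (.e (nat_lit 336454) (nat_lit 34) (.e (nat_lit 483382) (nat_lit 23) (.e (nat_lit 336326) (nat_lit 18) .nil)))) .nil)) 
(.lf (nat_lit 154210) (.g (nat_lit 1703) (.e (nat_lit 57408) (nat_lit 12) (.e (nat_lit 336454) (nat_lit 34) (.e (nat_lit 483399) (nat_lit 25) (.e (nat_lit 368676) (nat_lit 21) (.e (nat_lit 516117) (nat_lit 1) (.e (nat_lit 164176) (nat_lit 154) .nil)))))) (.g (nat_lit 5) .nil .nil)))) (.nd (nat_lit 5) 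
(.lf (nat_lit 154194) (.g (nat_lit 3537) (.e (nat_lit 57408) (nat_lit 12) (.e (nat_lit 336454) (nat_lit 34) (.e (nat_lit 483383) (nat_lit 23) (.e (nat_lit 336324) (nat_lit 18) (.e (nat_lit 204831) (nat_lit 18) (.e (nat_lit 57846) (nat_lit 252) .nil)))))) (.g (nat_lit 0) .nil .nil))) 
(.lf (nat_lit 154226) (.g (nat_lit 2902) (.e (nat_lit 57408) (nat_lit 12) (.e (nat_lit 336454) (nat_lit 34) (.e (nat_lit 483403) (nat_lit 26) (.e (nat_lit 385066) (nat_lit 26) (.e (nat_lit 532501) (nat_lit 1) (.e (nat_lit 57851) (nat_lit 252) .nil)))))) (.g (nat_lit 0) .nil .nil))))) (.nd (nat_lit 4) (.nd (nat_lit 5) 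
(.lf (nat_lit 154186) (.g (nat_lit 1354) (.e (nat_lit 57408) (nat_lit 12) (.e (nat_lit 336454) (nat_lit 34) (.e (nat_lit 483383) (nat_lit 23) (.e (nat_lit 336322) (nat_lit 18) .nil)))) .nil)) 
(.lf (nat_lit 154218) (.g (nat_lit 1551) (.e (nat_lit 57408) (nat_lit 12) (.e (nat_lit 336454) (nat_lit 34) (.e (nat_lit 483403) (nat_lit 26) (.e (nat_lit 385064) (nat_lit 26) (.e (nat_lit 532500) (nat_lit 1) (.e (nat_lit 57851) (nat_lit 252) .nil)))))) (.g (nat_lit 4) .nil .nil)))) (.nd (nat_lit 5) 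
(.lf (nat_lit 154202) (.g (nat_lit 2757) (.e (nat_lit 57408) (nat_lit 12) (.e (nat_lit 336454) (nat_lit 34) (.e (nat_lit 483383) (nat_lit 23) (.e (nat_lit 336326) (nat_lit 18) (.e (nat_lit 204831) (nat_lit 18) (.e (nat_lit 57854) (nat_lit 252) .nil)))))) (.g (nat_lit 0) .nil .nil))) 
(.lf (nat_lit 154234) (.g (nat_lit 3187) (.e (nat_lit 57408) (nat_lit 12) (.e (nat_lit 336454) (nat_lit 34) (.e (nat_lit 483403) (nat_lit 26) (.e (nat_lit 385066) (nat_lit 26) (.e (nat_lit 532502) (nat_lit 1) (.e (nat_lit 57853) (nat_lit 252) .nil)))))) (.g (nat_lit 0) .nil .nil)))))) (.nd (nat_lit 3) (.nd (nat_lit 4) (.nd (nat_lit 5) 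
(.lf (nat_lit 154182) (.g (nat_lit 2555) (.e (nat_lit 57408) (nat_lit 12) (.e (nat_lit 336454) (nat_lit 34) (.e (nat_lit 483383) (nat_lit 23) (.e (nat_lit 336019) (nat_lit 3) (.e (nat_lit 98334) (nat_lit 18) (.e (nat_lit 164176) (nat_lit 154) .nil)))))) (.g (nat_lit 5) .nil .nil))) 
(.lf (nat_lit 154214) (.g (nat_lit 2209) (.e (nat_lit 57408) (nat_lit 12) (.e (nat_lit 336454) (nat_lit 34) (.e (nat_lit 483402) (nat_lit 26) (.e (nat_lit 385068) (nat_lit 26) (.e (nat_lit 532499) (nat_lit 1) (.e (nat_lit 57847) (nat_lit 252) .nil)))))) (.g (nat_lit 4) .nil .nil)))) (.nd (nat_lit 5) 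
(.lf (nat_lit 154198) (.g (nat_lit 2648) (.e (nat_lit 57408) (nat_lit 12) (.e (nat_lit 336454) (nat_lit 34) (.e (nat_lit 483383) (nat_lit 23) (.e (nat_lit 336326) (nat_lit 18) (.e (nat_lit 204831) (nat_lit 18) (.e (nat_lit 57846) (nat_lit 252) .nil)))))) (.g (nat_lit 6) .nil .nil))) 
(.lf (nat_lit 154230) (.g (nat_lit 2983) (.e (nat_lit 57408) (nat_lit 12) (.e (nat_lit 336454) (nat_lit 34) (.e (nat_lit 483403) (nat_lit 26) (.e (nat_lit 385066) (nat_lit 26) (.e (nat_lit 532502) (nat_lit 1) (.e (nat_lit 57847) (nat_lit 252) .nil)))))) (.g (nat_lit 0) .nil .nil))))) (.nd (nat_lit 4) (.nd (nat_lit 5) 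
(.lf (nat_lit 154190) (.g (nat_lit 3318) (.e (nat_lit 57408) (nat_lit 12) (.e (nat_lit 336454) (nat_lit 34) (.e (nat_lit 483383) (nat_lit 23) (.e (nat_lit 336324) (nat_lit 18) (.e (nat_lit 204830) (nat_lit 18) (.e (nat_lit 57851) (nat_lit 252) .nil)))))) (.g (nat_lit 0) .nil .nil))) 
(.lf (nat_lit 154222) (.g (nat_lit 3067) (.e (nat_lit 57408) (nat_lit 12) (.e (nat_lit 336454) (nat_lit 34) (.e (nat_lit 483403) (nat_lit 26) (.e (nat_lit 385066) (nat_lit 26) (.e (nat_lit 532499) (nat_lit 1) (.e (nat_lit 57853) (nat_lit 252) .nil)))))) (.g (nat_lit 6) .nil .nil)))) (.nd (nat_lit 5) 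
(.lf (nat_lit 154206) (.g (nat_lit 2569) (.e (nat_lit 57408) (nat_lit 12) (.e (nat_lit 336454) (nat_lit 34) (.e (nat_lit 483394) (nat_lit 24) (.e (nat_lit 344117) (nat_lit 21) (.e (nat_lit 516115) (nat_lit 1) (.e (nat_lit 164179) (nat_lit 154) .nil)))))) (.g (nat_lit 4) .nil .nil))) 
(.lf (nat_lit 154238) (.g (nat_lit 2980) (.e (nat_lit 57408) (nat_lit 12) (.e (nat_lit 336454) (nat_lit 34) (.e (nat_lit 483403) (nat_lit 26) (.e (nat_lit 385066) (nat_lit 26) (.e (nat_lit 532503) (nat_lit 1) (.e (nat_lit 57848) (nat_lit 252) .nil)))))) (.g (nat_lit 6) .nil .nil)))))))) (.nd (nat_lit 1) (.nd (nat_lit 2) (.nd (nat_lit 3) (.nd (nat_lit 4) (.nd (nat_lit 5) 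
(.lf (nat_lit 154177) (.g (nat_lit 2354) (.e (nat_lit 57408) (nat_lit 12) (.e (nat_lit 336454) (nat_lit 34) (.e (nat_lit 483382) (nat_lit 23) (.e (nat_lit 336324) (nat_lit 18) (.e (nat_lit 204831) (nat_lit 18) (.e (nat_lit 57851) (nat_lit 252) .nil)))))) (.g (nat_lit 5) .nil .nil))) 
(.lf (nat_lit 154209) (.g (nat_lit 2875) (.e (nat_lit 57408) (nat_lit 12) (.e (nat_lit 336454) (nat_lit 34) (.e (nat_lit 483399) (nat_lit 25) (.e (nat_lit 368676) (nat_lit 21) (.e (nat_lit 516115) (nat_lit 1) (.e (nat_lit 164179) (nat_lit 154) .nil)))))) (.g (nat_lit 0) .nil .nil)))) (.nd (nat_lit 5) 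
(.lf (nat_lit 154193) (.g (nat_lit 3951) (.e (nat_lit 57408) (nat_lit 12) (.e (nat_lit 336454) (nat_lit 34) (.e (nat_lit 483383) (nat_lit 23) (.e (nat_lit 336324) (nat_lit 18) (.e (nat_lit 204831) (nat_lit 18) (.e (nat_lit 57844) (nat_lit 252) .nil)))))) (.g (nat_lit 0) .nil .nil))) 
(.lf (nat_lit 154225) (.g (nat_lit 3169) (.e (nat_lit 57408) (nat_lit 12) (.e (nat_lit 336454) (nat_lit 34) (.e (nat_lit 483403) (nat_lit 26) (.e (nat_lit 385066) (nat_lit 26) (.e (nat_lit 532501) (nat_lit 1) (.e (nat_lit 57844) (nat_lit 252) .nil)))))) (.g (nat_lit 0) .nil .nil))))) (.nd (nat_lit 4) (.nd (nat_lit 5) 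
(.lf (nat_lit 154185) (.g (nat_lit 2441) (.e (nat_lit 57408) (nat_lit 12) (.e (nat_lit 336454) (nat_lit 34) (.e (nat_lit 483383) (nat_lit 23) (.e (nat_lit 336316) (nat_lit 17) (.e (nat_lit 196630) (nat_lit 9) (.e (nat_lit 1183) (nat_lit 87) (.e (nat_lit 57848) (nat_lit 252) .nil))))))) (.g (nat_lit 5) .nil .nil))) 
(.lf (nat_lit 154217) (.g (nat_lit 1067) (.e (nat_lit 57408) (nat_lit 12) (.e (nat_lit 336454) (nat_lit 34) (.e (nat_lit 483403) (nat_lit 26) (.e (nat_lit 385057) (nat_lit 22) .nil)))) .nil))) (.nd (nat_lit 5) 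
(.lf (nat_lit 154201) (.g (nat_lit 2527) (.e (nat_lit 57408) (nat_lit 12) (.e (nat_lit 336454) (nat_lit 34) (.e (nat_lit 483383) (nat_lit 23) (.e (nat_lit 336326) (nat_lit 18) (.e (nat_lit 204831) (nat_lit 18) (.e (nat_lit 57851) (nat_lit 252) .nil)))))) (.g (nat_lit 6) .nil .nil))) 
(.lf (nat_lit 154233) (.g (nat_lit 2935) (.e (nat_lit 57408) (nat_lit 12) (.e (nat_lit 336454) (nat_lit 34) (.e (nat_lit 483403) (nat_lit 26) (.e (nat_lit 385066) (nat_lit 26) (.e (nat_lit 532502) (nat_lit 1) (.e (nat_lit 57852) (nat_lit 252) .nil)))))) (.g (nat_lit 0) .nil .nil)))))) (.nd (nat_lit 3) (.nd (nat_lit 4) (.nd (nat_lit 5) 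
(.lf (nat_lit 154181) (.g (nat_lit 3452) (.e (nat_lit 57408) (nat_lit 12) (.e (nat_lit 336454) (nat_lit 34) (.e (nat_lit 483383) (nat_lit 23) (.e (nat_lit 336019) (nat_lit 3) (.e (nat_lit 98333) (nat_lit 18) (.e (nat_lit 164179) (nat_lit 154) .nil)))))) (.g (nat_lit 0) .nil .nil))) 
(.lf (nat_lit 154213) (.g (nat_lit 1000) (.e (nat_lit 57408) (nat_lit 12) (.e (nat_lit 336454) (nat_lit 34) (.e (nat_lit 483402) (nat_lit 26) .nil))) .nil))) (.nd (nat_lit 5) 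
(.lf (nat_lit 154197) (.g (nat_lit 2810) (.e (nat_lit 57408) (nat_lit 12) (.e (nat_lit 336454) (nat_lit 34) (.e (nat_lit 483383) (nat_lit 23) (.e (nat_lit 336326) (nat_lit 18) (.e (nat_lit 204830) (nat_lit 18) (.e (nat_lit 57854) (nat_lit 252) .nil)))))) (.g (nat_lit 0) .nil .nil))) 
(.lf (nat_lit 154229) (.g (nat_lit 2906) (.e (nat_lit 57408) (nat_lit 12) (.e (nat_lit 336454) (nat_lit 34) (.e (nat_lit 483403) (nat_lit 26) (.e (nat_lit 385066) (nat_lit 26) (.e (nat_lit 532502) (nat_lit 1) (.e (nat_lit 57846) (nat_lit 252) .nil)))))) (.g (nat_lit 0) .nil .nil))))) (.nd (nat_lit 4) (.nd (nat_lit 5) 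
(.lf (nat_lit 154189) (.g (nat_lit 3307) (.e (nat_lit 57408) (nat_lit 12) (.e (nat_lit 336454) (nat_lit 34) (.e (nat_lit 483383) (nat_lit 23) (.e (nat_lit 336324) (nat_lit 18) (.e (nat_lit 204830) (nat_lit 18) (.e (nat_lit 57844) (nat_lit 252) .nil)))))) (.g (nat_lit 0) .nil .nil))) 
(.lf (nat_lit 154221) (.g (nat_lit 3645) (.e (nat_lit 57408) (nat_lit 12) (.e (nat_lit 336454) (nat_lit 34) (.e (nat_lit 483403) (nat_lit 26) (.e (nat_lit 385066) (nat_lit 26) (.e (nat_lit 532499) (nat_lit 1) (.e (nat_lit 57847) (nat_lit 252) .nil)))))) (.g (nat_lit 0) .nil .nil)))) (.nd (nat_lit 5) 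
(.lf (nat_lit 154205) (.g (nat_lit 998) (.e (nat_lit 57408) (nat_lit 12) (.e (nat_lit 336454) (nat_lit 34) (.e (nat_lit 483390) (nat_lit 23) .nil))) .nil)) 
(.lf (nat_lit 154237) (.g (nat_lit 3086) (.e (nat_lit 57408) (nat_lit 12) (.e (nat_lit 336454) (nat_lit 34) (.e (nat_lit 483403) (nat_lit 26) (.e (nat_lit 385066) (nat_lit 26) (.e (nat_lit 532503) (nat_lit 1) (.e (nat_lit 57847) (nat_lit 252) .nil)))))) (.g (nat_lit 0) .nil .nil))))))) (.nd (nat_lit 2) (.nd (nat_lit 3) (.nd (nat_lit 4) (.nd (nat_lit 5) 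
(.lf (nat_lit 154179) (.g (nat_lit 334) (.e (nat_lit 57408) (nat_lit 12) (.e (nat_lit 336454) (nat_lit 34) (.e (nat_lit 483383) (nat_lit 23) .nil))) .nil)) 
(.lf (nat_lit 154211) (.g (nat_lit 2532) (.e (nat_lit 57408) (nat_lit 12) (.e (nat_lit 336454) (nat_lit 34) (.e (nat_lit 483399) (nat_lit 25) (.e (nat_lit 368676) (nat_lit 21) (.e (nat_lit 516118) (nat_lit 1) (.e (nat_lit 164179) (nat_lit 154) .nil)))))) (.g (nat_lit 6) .nil .nil)))) (.nd (nat_lit 5) 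
(.lf (nat_lit 154195) (.g (nat_lit 3157) (.e (nat_lit 57408) (nat_lit 12) (.e (nat_lit 336454) (nat_lit 34) (.e (nat_lit 483383) (nat_lit 23) (.e (nat_lit 336326) (nat_lit 18) (.e (nat_lit 204829) (nat_lit 18) (.e (nat_lit 57847) (nat_lit 252) .nil)))))) (.g (nat_lit 0) .nil .nil))) 
(.lf (nat_lit 154227) (.g (nat_lit 2789) (.e (nat_lit 57408) (nat_lit 12) (.e (nat_lit 336454) (nat_lit 34) (.e (nat_lit 483403) (nat_lit 26) (.e (nat_lit 385066) (nat_lit 26) (.e (nat_lit 532501) (nat_lit 1) (.e (nat_lit 57854) (nat_lit 252) .nil)))))) (.g (nat_lit 0) .nil .nil))))) (.nd (nat_lit 4) (.nd (nat_lit 5) 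
(.lf (nat_lit 154187) (.g (nat_lit 3619) (.e (nat_lit 57408) (nat_lit 12) (.e (nat_lit 336454) (nat_lit 34) (.e (nat_lit 483383) (nat_lit 23) (.e (nat_lit 336324) (nat_lit 18) (.e (nat_lit 204829) (nat_lit 18) (.e (nat_lit 57847) (nat_lit 252) .nil)))))) (.g (nat_lit 0) .nil .nil))) 
(.lf (nat_lit 154219) (.g (nat_lit 1466) (.e (nat_lit 57408) (nat_lit 12) (.e (nat_lit 336454) (nat_lit 34) (.e (nat_lit 483403) (nat_lit 26) (.e (nat_lit 385064) (nat_lit 26) (.e (nat_lit 532503) (nat_lit 1) (.e (nat_lit 57848) (nat_lit 252) .nil)))))) (.g (nat_lit 4) .nil .nil)))) (.nd (nat_lit 5) 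
(.lf (nat_lit 154203) (.g (nat_lit 1212) (.e (nat_lit 57408) (nat_lit 12) (.e (nat_lit 336454) (nat_lit 34) (.e (nat_lit 483383) (nat_lit 23) (.e (nat_lit 343808) (nat_lit 18) .nil)))) .nil)) 
(.lf (nat_lit 154235) (.g (nat_lit 3435) (.e (nat_lit 57408) (nat_lit 12) (.e (nat_lit 336454) (nat_lit 34) (.e (nat_lit 483403) (nat_lit 26) (.e (nat_lit 385066) (nat_lit 26) (.e (nat_lit 532503) (nat_lit 1) (.e (nat_lit 57844) (nat_lit 252) .nil)))))) (.g (nat_lit 0) .nil .nil)))))) (.nd (nat_lit 3) (.nd (nat_lit 4) (.nd (nat_lit 5) 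
(.lf (nat_lit 154183) (.g (nat_lit 1662) (.e (nat_lit 57408) (nat_lit 12) (.e (nat_lit 336454) (nat_lit 34) (.e (nat_lit 483383) (nat_lit 23) (.e (nat_lit 336019) (nat_lit 3) (.e (nat_lit 98335) (nat_lit 18) (.e (nat_lit 164176) (nat_lit 154) .nil)))))) (.g (nat_lit 4) .nil .nil))) 
(.lf (nat_lit 154215) (.g (nat_lit 2032) (.e (nat_lit 57408) (nat_lit 12) (.e (nat_lit 336454) (nat_lit 34) (.e (nat_lit 483402) (nat_lit 26) (.e (nat_lit 385068) (nat_lit 26) (.e (nat_lit 532501) (nat_lit 1) .nil))))) .nil))) (.nd (nat_lit 5) 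
(.lf (nat_lit 154199) (.g (nat_lit 2866) (.e (nat_lit 57408) (nat_lit 12) (.e (nat_lit 336454) (nat_lit 34) (.e (nat_lit 483383) (nat_lit 23) (.e (nat_lit 336326) (nat_lit 18) (.e (nat_lit 204831) (nat_lit 18) (.e (nat_lit 57847) (nat_lit 252) .nil)))))) (.g (nat_lit 0) .nil .nil))) 
(.lf (nat_lit 154231) (.g (nat_lit 2540) (.e (nat_lit 57408) (nat_lit 12) (.e (nat_lit 336454) (nat_lit 34) (.e (nat_lit 483403) (nat_lit 26) (.e (nat_lit 385066) (nat_lit 26) (.e (nat_lit 532502) (nat_lit 1) (.e (nat_lit 57848) (nat_lit 252) .nil)))))) (.g (nat_lit 0) .nil .nil))))) (.nd (nat_lit 4) (.nd (nat_lit 5) 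
(.lf (nat_lit 154191) (.g (nat_lit 3493) (.e (nat_lit 57408) (nat_lit 12) (.e (nat_lit 336454) (nat_lit 34) (.e (nat_lit 483383) (nat_lit 23) (.e (nat_lit 336324) (nat_lit 18) (.e (nat_lit 204830) (nat_lit 18) (.e (nat_lit 57853) (nat_lit 252) .nil)))))) (.g (nat_lit 6) .nil .nil))) 
(.lf (nat_lit 154223) (.g (nat_lit 3007) (.e (nat_lit 57408) (nat_lit 12) (.e (nat_lit 336454) (nat_lit 34) (.e (nat_lit 483403) (nat_lit 26) (.e (nat_lit 385066) (nat_lit 26) (.e (nat_lit 532499) (nat_lit 1) (.e (nat_lit 57854) (nat_lit 252) .nil)))))) (.g (nat_lit 0) .nil .nil)))) (.nd (nat_lit 5) 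
(.lf (nat_lit 154207) (.g (nat_lit 2567) (.e (nat_lit 57408) (nat_lit 12) (.e (nat_lit 336454) (nat_lit 34) (.e (nat_lit 483398) (nat_lit 25) (.e (nat_lit 368676) (nat_lit 21) (.e (nat_lit 516118) (nat_lit 1) (.e (nat_lit 164179) (nat_lit 154) .nil)))))) (.g (nat_lit 6) .nil .nil))) 
(.lf (nat_lit 154239) (.g (nat_lit 3190) (.e (nat_lit 57408) (nat_lit 12) (.e (nat_lit 336454) (nat_lit 34) (.e (nat_lit 483403) (nat_lit 26) (.e (nat_lit 385066) (nat_lit 26) (.e (nat_lit 532504) (nat_lit 1) (.e (nat_lit 57844) (nat_lit 252) .nil)))))) (.g (nat_lit 0) .nil .nil)))))))))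

noncomputable def tv2057 : DT := (.nd (nat_lit 0) (.nd (nat_lit 1) (.nd (nat_lit 2) (.nd (nat_lit 3) (.nd (nat_lit 4) (.nd (nat_lit 5) 
(.lf (nat_lit 154240) (.g (nat_lit 2816) (.e (nat_lit 57408) (nat_lit 12) (.e (nat_lit 336454) (nat_lit 34) (.e (nat_lit 483403) (nat_lit 26) (.e (nat_lit 385066) (nat_lit 26) (.e (nat_lit 532504) (nat_lit 1) (.e (nat_lit 57851) (nat_lit 252) .nil)))))) (.g (nat_lit 0) .nil .nil))) 
(.lf (nat_lit 154272) (.g (nat_lit 3296) (.e (nat_lit 57408) (nat_lit 12) (.e (nat_lit 336454) (nat_lit 34) (.e (nat_lit 483406) (nat_lit 26) (.e (nat_lit 385066) (nat_lit 26) (.e (nat_lit 532499) (nat_lit 1) (.e (nat_lit 57854) (nat_lit 252) .nil)))))) (.g (nat_lit 0) .nil .nil)))) (.nd (nat_lit 5) 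
(.lf (nat_lit 154256) (.g (nat_lit 457) (.e (nat_lit 57408) (nat_lit 12) (.e (nat_lit 336454) (nat_lit 34) (.e (nat_lit 483405) (nat_lit 26) .nil))) .nil)) 
(.lf (nat_lit 154288) (.g (nat_lit 3473) (.e (nat_lit 57408) (nat_lit 12) (.e (nat_lit 336454) (nat_lit 34) (.e (nat_lit 483406) (nat_lit 26) (.e (nat_lit 385066) (nat_lit 26) (.e (nat_lit 532504) (nat_lit 1) (.e (nat_lit 57844) (nat_lit 252) .nil)))))) (.g (nat_lit 0) .nil .nil))))) (.nd (nat_lit 4) (.nd (nat_lit 5) 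
(.lf (nat_lit 154248) (.g (nat_lit 3573) (.e (nat_lit 57408) (nat_lit 12) (.e (nat_lit 336454) (nat_lit 34) (.e (nat_lit 483403) (nat_lit 26) (.e (nat_lit 385068) (nat_lit 26) (.e (nat_lit 532503) (nat_lit 1) (.e (nat_lit 57844) (nat_lit 252) .nil)))))) (.g (nat_lit 0) .nil .nil))) 
(.lf (nat_lit 154280) (.g (nat_lit 2763) (.e (nat_lit 57408) (nat_lit 12) (.e (nat_lit 336454) (nat_lit 34) (.e (nat_lit 483406) (nat_lit 26) (.e (nat_lit 385066) (nat_lit 26) (.e (nat_lit 532502) (nat_lit 1) (.e (nat_lit 57851) (nat_lit 252) .nil)))))) (.g (nat_lit 0) .nil .nil)))) (.nd (nat_lit 5) 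
(.lf (nat_lit 154264) (.g (nat_lit 1399) (.e (nat_lit 57408) (nat_lit 12) (.e (nat_lit 336454) (nat_lit 34) (.e (nat_lit 483406) (nat_lit 26) (.e (nat_lit 385064) (nat_lit 26) .nil)))) .nil)) 
(.lf (nat_lit 154296) (.g (nat_lit 3457) (.e (nat_lit 57408) (nat_lit 12) (.e (nat_lit 336454) (nat_lit 34) (.e (nat_lit 483406) (nat_lit 26) (.e (nat_lit 385068) (nat_lit 26) (.e (nat_lit 532501) (nat_lit 1) (.e (nat_lit 57851) (nat_lit 252) .nil)))))) (.g (nat_lit 0) .nil .nil)))))) (.nd (nat_lit 3) (.nd (nat_lit 4) (.nd (nat_lit 5) 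
(.lf (nat_lit 154244) (.g (nat_lit 3459) (.e (nat_lit 57408) (nat_lit 12) (.e (nat_lit 336454) (nat_lit 34) (.e (nat_lit 483403) (nat_lit 26) (.e (nat_lit 385068) (nat_lit 26) (.e (nat_lit 532501) (nat_lit 1) (.e (nat_lit 57844) (nat_lit 252) .nil)))))) (.g (nat_lit 6) .nil .nil))) 
(.lf (nat_lit 154276) (.g (nat_lit 3120) (.e (nat_lit 57408) (nat_lit 12) (.e (nat_lit 336454) (nat_lit 34) (.e (nat_lit 483406) (nat_lit 26) (.e (nat_lit 385066) (nat_lit 26) (.e (nat_lit 532502) (nat_lit 1) (.e (nat_lit 57844) (nat_lit 252) .nil)))))) (.g (nat_lit 0) .nil .nil)))) (.nd (nat_lit 5) 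
(.lf (nat_lit 154260) (.g (nat_lit 3159) (.e (nat_lit 57408) (nat_lit 12) (.e (nat_lit 336454) (nat_lit 34) (.e (nat_lit 483405) (nat_lit 26) (.e (nat_lit 385067) (nat_lit 26) (.e (nat_lit 532499) (nat_lit 1) (.e (nat_lit 57847) (nat_lit 252) .nil)))))) (.g (nat_lit 6) .nil .nil))) 
(.lf (nat_lit 154292) (.g (nat_lit 2885) (.e (nat_lit 57408) (nat_lit 12) (.e (nat_lit 336454) (nat_lit 34) (.e (nat_lit 483406) (nat_lit 26) (.e (nat_lit 385067) (nat_lit 26) (.e (nat_lit 532501) (nat_lit 1) (.e (nat_lit 57851) (nat_lit 252) .nil)))))) (.g (nat_lit 6) .nil .nil))))) (.nd (nat_lit 4) (.nd (nat_lit 5) 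
(.lf (nat_lit 154252) (.g (nat_lit 3368) (.e (nat_lit 57408) (nat_lit 12) (.e (nat_lit 336454) (nat_lit 34) (.e (nat_lit 483403) (nat_lit 26) (.e (nat_lit 385068) (nat_lit 26) (.e (nat_lit 532504) (nat_lit 1) (.e (nat_lit 57852) (nat_lit 252) .nil)))))) (.g (nat_lit 0) .nil .nil))) 
(.lf (nat_lit 154284) (.g (nat_lit 3329) (.e (nat_lit 57408) (nat_lit 12) (.e (nat_lit 336454) (nat_lit 34) (.e (nat_lit 483406) (nat_lit 26) (.e (nat_lit 385066) (nat_lit 26) (.e (nat_lit 532503) (nat_lit 1) (.e (nat_lit 57846) (nat_lit 252) .nil)))))) (.g (nat_lit 0) .nil .nil)))) (.nd (nat_lit 5) 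
(.lf (nat_lit 154268) (.g (nat_lit 1173) (.e (nat_lit 57408) (nat_lit 12) (.e (nat_lit 336454) (nat_lit 34) (.e (nat_lit 483406) (nat_lit 26) (.e (nat_lit 385066) (nat_lit 26) .nil)))) .nil)) 
(.lf (nat_lit 154300) (.g (nat_lit 3430) (.e (nat_lit 57408) (nat_lit 12) (.e (nat_lit 336454) (nat_lit 34) (.e (nat_lit 483406) (nat_lit 26) (.e (nat_lit 385068) (nat_lit 26) (.e (nat_lit 532503) (nat_lit 1) (.e (nat_lit 57848) (nat_lit 252) .nil)))))) (.g (nat_lit 0) .nil .nil))))))) (.nd (nat_lit 2) (.nd (nat_lit 3) (.nd (nat_lit 4) (.nd (nat_lit 5) 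
(.lf (nat_lit 154242) (.g (nat_lit 2862) (.e (nat_lit 57408) (nat_lit 12) (.e (nat_lit 336454) (nat_lit 34) (.e (nat_lit 483403) (nat_lit 26) (.e (nat_lit 385066) (nat_lit 26) (.e (nat_lit 532504) (nat_lit 1) (.e (nat_lit 57854) (nat_lit 252) .nil)))))) (.g (nat_lit 0) .nil .nil))) 
(.lf (nat_lit 154274) (.g (nat_lit 3205) (.e (nat_lit 57408) (nat_lit 12) (.e (nat_lit 336454) (nat_lit 34) (.e (nat_lit 483406) (nat_lit 26) (.e (nat_lit 385066) (nat_lit 26) (.e (nat_lit 532501) (nat_lit 1) (.e (nat_lit 57851) (nat_lit 252) .nil)))))) (.g (nat_lit 0) .nil .nil)))) (.nd (nat_lit 5) 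
(.lf (nat_lit 154258) (.g (nat_lit 1851) (.e (nat_lit 57408) (nat_lit 12) (.e (nat_lit 336454) (nat_lit 34) (.e (nat_lit 483405) (nat_lit 26) (.e (nat_lit 385064) (nat_lit 26) (.e (nat_lit 532504) (nat_lit 1) (.e (nat_lit 57851) (nat_lit 252) .nil)))))) (.g (nat_lit 4) .nil .nil))) 
(.lf (nat_lit 154290) (.g (nat_lit 3291) (.e (nat_lit 57408) (nat_lit 12) (.e (nat_lit 336454) (nat_lit 34) (.e (nat_lit 483406) (nat_lit 26) (.e (nat_lit 385066) (nat_lit 26) (.e (nat_lit 532504) (nat_lit 1) (.e (nat_lit 57853) (nat_lit 252) .nil)))))) (.g (nat_lit 0) .nil .nil))))) (.nd (nat_lit 4) (.nd (nat_lit 5) 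
(.lf (nat_lit 154250) (.g (nat_lit 3202) (.e (nat_lit 57408) (nat_lit 12) (.e (nat_lit 336454) (nat_lit 34) (.e (nat_lit 483403) (nat_lit 26) (.e (nat_lit 385068) (nat_lit 26) (.e (nat_lit 532503) (nat_lit 1) (.e (nat_lit 57848) (nat_lit 252) .nil)))))) (.g (nat_lit 0) .nil .nil))) 
(.lf (nat_lit 154282) (.g (nat_lit 3441) (.e (nat_lit 57408) (nat_lit 12) (.e (nat_lit 336454) (nat_lit 34) (.e (nat_lit 483406) (nat_lit 26) (.e (nat_lit 385066) (nat_lit 26) (.e (nat_lit 532502) (nat_lit 1) (.e (nat_lit 57853) (nat_lit 252) .nil)))))) (.g (nat_lit 0) .nil .nil)))) (.nd (nat_lit 5) 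
(.lf (nat_lit 154266) (.g (nat_lit 1333) (.e (nat_lit 57408) (nat_lit 12) (.e (nat_lit 336454) (nat_lit 34) (.e (nat_lit 483406) (nat_lit 26) (.e (nat_lit 385065) (nat_lit 26) .nil)))) .nil)) 
(.lf (nat_lit 154298) (.g (nat_lit 3858) (.e (nat_lit 57408) (nat_lit 12) (.e (nat_lit 336454) (nat_lit 34) (.e (nat_lit 483406) (nat_lit 26) (.e (nat_lit 385068) (nat_lit 26) (.e (nat_lit 532503) (nat_lit 1) (.e (nat_lit 57844) (nat_lit 252) .nil)))))) (.g (nat_lit 0) .nil .nil)))))) (.nd (nat_lit 3) (.nd (nat_lit 4) (.nd (nat_lit 5) 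
(.lf (nat_lit 154246) (.g (nat_lit 3119) (.e (nat_lit 57408) (nat_lit 12) (.e (nat_lit 336454) (nat_lit 34) (.e (nat_lit 483403) (nat_lit 26) (.e (nat_lit 385068) (nat_lit 26) (.e (nat_lit 532501) (nat_lit 1) (.e (nat_lit 57854) (nat_lit 252) .nil)))))) (.g (nat_lit 0) .nil .nil))) 
(.lf (nat_lit 154278) (.g (nat_lit 3231) (.e (nat_lit 57408) (nat_lit 12) (.e (nat_lit 336454) (nat_lit 34) (.e (nat_lit 483406) (nat_lit 26) (.e (nat_lit 385066) (nat_lit 26) (.e (nat_lit 532502) (nat_lit 1) (.e (nat_lit 57847) (nat_lit 252) .nil)))))) (.g (nat_lit 0) .nil .nil)))) (.nd (nat_lit 5) 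
(.lf (nat_lit 154262) (.g (nat_lit 2109) (.e (nat_lit 57408) (nat_lit 12) (.e (nat_lit 336454) (nat_lit 34) (.e (nat_lit 483405) (nat_lit 26) (.e (nat_lit 385067) (nat_lit 26) (.e (nat_lit 532504) (nat_lit 1) (.e (nat_lit 57851) (nat_lit 252) .nil)))))) (.g (nat_lit 4) .nil .nil))) 
(.lf (nat_lit 154294) (.g (nat_lit 3918) (.e (nat_lit 57408) (nat_lit 12) (.e (nat_lit 336454) (nat_lit 34) (.e (nat_lit 483406) (nat_lit 26) (.e (nat_lit 385068) (nat_lit 26) (.e (nat_lit 532499) (nat_lit 1) (.e (nat_lit 57847) (nat_lit 252) .nil)))))) (.g (nat_lit 0) .nil .nil))))) (.nd (nat_lit 4) (.nd (nat_lit 5) 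
(.lf (nat_lit 154254) (.g (nat_lit 3086) (.e (nat_lit 57408) (nat_lit 12) (.e (nat_lit 336454) (nat_lit 34) (.e (nat_lit 483403) (nat_lit 26) (.e (nat_lit 385068) (nat_lit 26) (.e (nat_lit 532504) (nat_lit 1) (.e (nat_lit 57854) (nat_lit 252) .nil)))))) (.g (nat_lit 0) .nil .nil))) 
(.lf (nat_lit 154286) (.g (nat_lit 3257) (.e (nat_lit 57408) (nat_lit 12) (.e (nat_lit 336454) (nat_lit 34) (.e (nat_lit 483406) (nat_lit 26) (.e (nat_lit 385066) (nat_lit 26) (.e (nat_lit 532503) (nat_lit 1) (.e (nat_lit 57848) (nat_lit 252) .nil)))))) (.g (nat_lit 6) .nil .nil)))) (.nd (nat_lit 5) 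
(.lf (nat_lit 154270) (.g (nat_lit 3933) (.e (nat_lit 57408) (nat_lit 12) (.e (nat_lit 336454) (nat_lit 34) (.e (nat_lit 483406) (nat_lit 26) (.e (nat_lit 385066) (nat_lit 26) (.e (nat_lit 532499) (nat_lit 1) (.e (nat_lit 57847) (nat_lit 252) .nil)))))) (.g (nat_lit 0) .nil .nil))) 
(.lf (nat_lit 154302) (.g (nat_lit 3612) (.e (nat_lit 57408) (nat_lit 12) (.e (nat_lit 336454) (nat_lit 34) (.e (nat_lit 483406) (nat_lit 26) (.e (nat_lit 385068) (nat_lit 26) (.e (nat_lit 532504) (nat_lit 1) (.e (nat_lit 57852) (nat_lit 252) .nil)))))) (.g (nat_lit 0) .nil .nil)))))))) (.nd (nat_lit 1) (.nd (nat_lit 2) (.nd (nat_lit 3) (.nd (nat_lit 4) (.nd (nat_lit 5) 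
(.lf (nat_lit 154241) (.g (nat_lit 3011) (.e (nat_lit 57408) (nat_lit 12) (.e (nat_lit 336454) (nat_lit 34) (.e (nat_lit 483403) (nat_lit 26) (.e (nat_lit 385066) (nat_lit 26) (.e (nat_lit 532504) (nat_lit 1) (.e (nat_lit 57853) (nat_lit 252) .nil)))))) (.g (nat_lit 0) .nil .nil))) 
(.lf (nat_lit 154273) (.g (nat_lit 3439) (.e (nat_lit 57408) (nat_lit 12) (.e (nat_lit 336454) (nat_lit 34) (.e (nat_lit 483406) (nat_lit 26) (.e (nat_lit 385066) (nat_lit 26) (.e (nat_lit 532501) (nat_lit 1) (.e (nat_lit 57844) (nat_lit 252) .nil)))))) (.g (nat_lit 0) .nil .nil)))) (.nd (nat_lit 5) 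
(.lf (nat_lit 154257) (.g (nat_lit 1890) (.e (nat_lit 57408) (nat_lit 12) (.e (nat_lit 336454) (nat_lit 34) (.e (nat_lit 483405) (nat_lit 26) (.e (nat_lit 385064) (nat_lit 26) (.e (nat_lit 532503) (nat_lit 1) (.e (nat_lit 57844) (nat_lit 252) .nil)))))) (.g (nat_lit 4) .nil .nil))) 
(.lf (nat_lit 154289) (.g (nat_lit 3118) (.e (nat_lit 57408) (nat_lit 12) (.e (nat_lit 336454) (nat_lit 34) (.e (nat_lit 483406) (nat_lit 26) (.e (nat_lit 385066) (nat_lit 26) (.e (nat_lit 532504) (nat_lit 1) (.e (nat_lit 57851) (nat_lit 252) .nil)))))) (.g (nat_lit 0) .nil .nil))))) (.nd (nat_lit 4) (.nd (nat_lit 5) 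
(.lf (nat_lit 154249) (.g (nat_lit 3228) (.e (nat_lit 57408) (nat_lit 12) (.e (nat_lit 336454) (nat_lit 34) (.e (nat_lit 483403) (nat_lit 26) (.e (nat_lit 385068) (nat_lit 26) (.e (nat_lit 532503) (nat_lit 1) (.e (nat_lit 57847) (nat_lit 252) .nil)))))) (.g (nat_lit 0) .nil .nil))) 
(.lf (nat_lit 154281) (.g (nat_lit 3164) (.e (nat_lit 57408) (nat_lit 12) (.e (nat_lit 336454) (nat_lit 34) (.e (nat_lit 483406) (nat_lit 26) (.e (nat_lit 385066) (nat_lit 26) (.e (nat_lit 532502) (nat_lit 1) (.e (nat_lit 57852) (nat_lit 252) .nil)))))) (.g (nat_lit 0) .nil .nil)))) (.nd (nat_lit 5) 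
(.lf (nat_lit 154265) (.g (nat_lit 1803) (.e (nat_lit 57408) (nat_lit 12) (.e (nat_lit 336454) (nat_lit 34) (.e (nat_lit 483406) (nat_lit 26) (.e (nat_lit 385064) (nat_lit 26) (.e (nat_lit 532500) (nat_lit 1) .nil))))) .nil)) 
(.lf (nat_lit 154297) (.g (nat_lit 3334) (.e (nat_lit 57408) (nat_lit 12) (.e (nat_lit 336454) (nat_lit 34) (.e (nat_lit 483406) (nat_lit 26) (.e (nat_lit 385068) (nat_lit 26) (.e (nat_lit 532501) (nat_lit 1) (.e (nat_lit 57854) (nat_lit 252) .nil)))))) (.g (nat_lit 0) .nil .nil)))))) (.nd (nat_lit 3) (.nd (nat_lit 4) (.nd (nat_lit 5) 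
(.lf (nat_lit 154245) (.g (nat_lit 3279) (.e (nat_lit 57408) (nat_lit 12) (.e (nat_lit 336454) (nat_lit 34) (.e (nat_lit 483403) (nat_lit 26) (.e (nat_lit 385068) (nat_lit 26) (.e (nat_lit 532501) (nat_lit 1) (.e (nat_lit 57851) (nat_lit 252) .nil)))))) (.g (nat_lit 0) .nil .nil))) 
(.lf (nat_lit 154277) (.g (nat_lit 3143) (.e (nat_lit 57408) (nat_lit 12) (.e (nat_lit 336454) (nat_lit 34) (.e (nat_lit 483406) (nat_lit 26) (.e (nat_lit 385066) (nat_lit 26) (.e (nat_lit 532502) (nat_lit 1) (.e (nat_lit 57846) (nat_lit 252) .nil)))))) (.g (nat_lit 0) .nil .nil)))) (.nd (nat_lit 5) 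
(.lf (nat_lit 154261) (.g (nat_lit 2000) (.e (nat_lit 57408) (nat_lit 12) (.e (nat_lit 336454) (nat_lit 34) (.e (nat_lit 483405) (nat_lit 26) (.e (nat_lit 385067) (nat_lit 26) (.e (nat_lit 532501) (nat_lit 1) (.e (nat_lit 57851) (nat_lit 252) .nil)))))) (.g (nat_lit 4) .nil .nil))) 
(.lf (nat_lit 154293) (.g (nat_lit 2988) (.e (nat_lit 57408) (nat_lit 12) (.e (nat_lit 336454) (nat_lit 34) (.e (nat_lit 483406) (nat_lit 26) (.e (nat_lit 385067) (nat_lit 26) (.e (nat_lit 532504) (nat_lit 1) (.e (nat_lit 57851) (nat_lit 252) .nil)))))) (.g (nat_lit 6) .nil .nil))))) (.nd (nat_lit 4) (.nd (nat_lit 5) 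
(.lf (nat_lit 154253) (.g (nat_lit 3171) (.e (nat_lit 57408) (nat_lit 12) (.e (nat_lit 336454) (nat_lit 34) (.e (nat_lit 483403) (nat_lit 26) (.e (nat_lit 385068) (nat_lit 26) (.e (nat_lit 532504) (nat_lit 1) (.e (nat_lit 57853) (nat_lit 252) .nil)))))) (.g (nat_lit 0) .nil .nil))) 
(.lf (nat_lit 154285) (.g (nat_lit 3360) (.e (nat_lit 57408) (nat_lit 12) (.e (nat_lit 336454) (nat_lit 34) (.e (nat_lit 483406) (nat_lit 26) (.e (nat_lit 385066) (nat_lit 26) (.e (nat_lit 532503) (nat_lit 1) (.e (nat_lit 57847) (nat_lit 252) .nil)))))) (.g (nat_lit 0) .nil .nil)))) (.nd (nat_lit 5) 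
(.lf (nat_lit 154269) (.g (nat_lit 2465) (.e (nat_lit 57408) (nat_lit 12) (.e (nat_lit 336454) (nat_lit 34) (.e (nat_lit 483406) (nat_lit 26) (.e (nat_lit 385066) (nat_lit 26) (.e (nat_lit 532498) (nat_lit 1) .nil))))) .nil)) 
(.lf (nat_lit 154301) (.g (nat_lit 3287) (.e (nat_lit 57408) (nat_lit 12) (.e (nat_lit 336454) (nat_lit 34) (.e (nat_lit 483406) (nat_lit 26) (.e (nat_lit 385068) (nat_lit 26) (.e (nat_lit 532504) (nat_lit 1) (.e (nat_lit 57851) (nat_lit 252) .nil)))))) (.g (nat_lit 0) .nil .nil))))))) (.nd (nat_lit 2) (.nd (nat_lit 3) (.nd (nat_lit 4) (.nd (nat_lit 5) 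
(.lf (nat_lit 154243) (.g (nat_lit 3702) (.e (nat_lit 57408) (nat_lit 12) (.e (nat_lit 336454) (nat_lit 34) (.e (nat_lit 483403) (nat_lit 26) (.e (nat_lit 385068) (nat_lit 26) (.e (nat_lit 532499) (nat_lit 1) (.e (nat_lit 57847) (nat_lit 252) .nil)))))) (.g (nat_lit 0) .nil .nil))) 
(.lf (nat_lit 154275) (.g (nat_lit 3078) (.e (nat_lit 57408) (nat_lit 12) (.e (nat_lit 336454) (nat_lit 34) (.e (nat_lit 483406) (nat_lit 26) (.e (nat_lit 385066) (nat_lit 26) (.e (nat_lit 532501) (nat_lit 1) (.e (nat_lit 57854) (nat_lit 252) .nil)))))) (.g (nat_lit 0) .nil .nil)))) (.nd (nat_lit 5) 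
(.lf (nat_lit 154259) (.g (nat_lit 971) (.e (nat_lit 57408) (nat_lit 12) (.e (nat_lit 336454) (nat_lit 34) (.e (nat_lit 483405) (nat_lit 26) (.e (nat_lit 385066) (nat_lit 26) .nil)))) .nil)) 
(.lf (nat_lit 154291) (.g (nat_lit 3149) (.e (nat_lit 57408) (nat_lit 12) (.e (nat_lit 336454) (nat_lit 34) (.e (nat_lit 483406) (nat_lit 26) (.e (nat_lit 385066) (nat_lit 26) (.e (nat_lit 532504) (nat_lit 1) (.e (nat_lit 57854) (nat_lit 252) .nil)))))) (.g (nat_lit 0) .nil .nil))))) (.nd (nat_lit 4) (.nd (nat_lit 5) 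
(.lf (nat_lit 154251) (.g (nat_lit 3039) (.e (nat_lit 57408) (nat_lit 12) (.e (nat_lit 336454) (nat_lit 34) (.e (nat_lit 483403) (nat_lit 26) (.e (nat_lit 385068) (nat_lit 26) (.e (nat_lit 532504) (nat_lit 1) (.e (nat_lit 57851) (nat_lit 252) .nil)))))) (.g (nat_lit 0) .nil .nil))) 
(.lf (nat_lit 154283) (.g (nat_lit 3719) (.e (nat_lit 57408) (nat_lit 12) (.e (nat_lit 336454) (nat_lit 34) (.e (nat_lit 483406) (nat_lit 26) (.e (nat_lit 385066) (nat_lit 26) (.e (nat_lit 532503) (nat_lit 1) (.e (nat_lit 57844) (nat_lit 252) .nil)))))) (.g (nat_lit 0) .nil .nil)))) (.nd (nat_lit 5) 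
(.lf (nat_lit 154267) (.g (nat_lit 3902) (.e (nat_lit 57408) (nat_lit 12) (.e (nat_lit 336454) (nat_lit 34) (.e (nat_lit 483406) (nat_lit 26) (.e (nat_lit 385065) (nat_lit 26) (.e (nat_lit 532499) (nat_lit 1) (.e (nat_lit 57847) (nat_lit 252) .nil)))))) (.g (nat_lit 6) .nil .nil))) 
(.lf (nat_lit 154299) (.g (nat_lit 3468) (.e (nat_lit 57408) (nat_lit 12) (.e (nat_lit 336454) (nat_lit 34) (.e (nat_lit 483406) (nat_lit 26) (.e (nat_lit 385068) (nat_lit 26) (.e (nat_lit 532503) (nat_lit 1) (.e (nat_lit 57847) (nat_lit 252) .nil)))))) (.g (nat_lit 0) .nil .nil)))))) (.nd (nat_lit 3) (.nd (nat_lit 4) (.nd (nat_lit 5) 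
(.lf (nat_lit 154247) (.g (nat_lit 1431) (.e (nat_lit 57408) (nat_lit 12) (.e (nat_lit 336454) (nat_lit 34) (.e (nat_lit 483403) (nat_lit 26) (.e (nat_lit 385068) (nat_lit 26) (.e (nat_lit 532503) (nat_lit 1) .nil))))) .nil)) 
(.lf (nat_lit 154279) (.g (nat_lit 2788) (.e (nat_lit 57408) (nat_lit 12) (.e (nat_lit 336454) (nat_lit 34) (.e (nat_lit 483406) (nat_lit 26) (.e (nat_lit 385066) (nat_lit 26) (.e (nat_lit 532502) (nat_lit 1) (.e (nat_lit 57848) (nat_lit 252) .nil)))))) (.g (nat_lit 0) .nil .nil)))) (.nd (nat_lit 5) 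
(.lf (nat_lit 154263) (.g (nat_lit 1792) (.e (nat_lit 57408) (nat_lit 12) (.e (nat_lit 336454) (nat_lit 34) (.e (nat_lit 483405) (nat_lit 26) (.e (nat_lit 385068) (nat_lit 26) (.e (nat_lit 532504) (nat_lit 1) .nil))))) .nil)) 
(.lf (nat_lit 154295) (.g (nat_lit 3710) (.e (nat_lit 57408) (nat_lit 12) (.e (nat_lit 336454) (nat_lit 34) (.e (nat_lit 483406) (nat_lit 26) (.e (nat_lit 385068) (nat_lit 26) (.e (nat_lit 532501) (nat_lit 1) (.e (nat_lit 57844) (nat_lit 252) .nil)))))) (.g (nat_lit 6) .nil .nil))))) (.nd (nat_lit 4) (.nd (nat_lit 5) 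
(.lf (nat_lit 154255) (.g (nat_lit 998) (.e (nat_lit 57408) (nat_lit 12) (.e (nat_lit 336454) (nat_lit 34) (.e (nat_lit 483404) (nat_lit 26) .nil))) .nil)) 
(.lf (nat_lit 154287) (.g (nat_lit 1796) (.e (nat_lit 57408) (nat_lit 12) (.e (nat_lit 336454) (nat_lit 34) (.e (nat_lit 483406) (nat_lit 26) (.e (nat_lit 385066) (nat_lit 26) (.e (nat_lit 532503) (nat_lit 1) (.e (nat_lit 57850) (nat_lit 252) .nil)))))) (.g (nat_lit 4) .nil .nil)))) (.nd (nat_lit 5) 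
(.lf (nat_lit 154271) (.g (nat_lit 3369) (.e (nat_lit 57408) (nat_lit 12) (.e (nat_lit 336454) (nat_lit 34) (.e (nat_lit 483406) (nat_lit 26) (.e (nat_lit 385066) (nat_lit 26) (.e (nat_lit 532499) (nat_lit 1) (.e (nat_lit 57853) (nat_lit 252) .nil)))))) (.g (nat_lit 6) .nil .nil))) 
(.lf (nat_lit 154303) (.g (nat_lit 3426) (.e (nat_lit 57408) (nat_lit 12) (.e (nat_lit 336454) (nat_lit 34) (.e (nat_lit 483406) (nat_lit 26) (.e (nat_lit 385068) (nat_lit 26) (.e (nat_lit 532504) (nat_lit 1) (.e (nat_lit 57853) (nat_lit 252) .nil)))))) (.g (nat_lit 0) .nil .nil)))))))))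

noncomputable def tv2058 : DT := (.nd (nat_lit 0) (.nd (nat_lit 1) (.nd (nat_lit 2) (.nd (nat_lit 3) (.nd (nat_lit 4) (.nd (nat_lit 5) 
(.lf (nat_lit 154304) (.g (nat_lit 3332) (.e (nat_lit 57408) (nat_lit 12) (.e (nat_lit 336454) (nat_lit 34) (.e (nat_lit 483406) (nat_lit 26) (.e (nat_lit 385068) (nat_lit 26) (.e (nat_lit 532504) (nat_lit 1) (.e (nat_lit 57854) (nat_lit 252) .nil)))))) (.g (nat_lit 0) .nil .nil))) 
(.lf (nat_lit 154336) (.g (nat_lit 2769) (.e (nat_lit 57409) (nat_lit 12) (.e (nat_lit 336208) (nat_lit 12) (.e (nat_lit 392960) (nat_lit 24) (.e (nat_lit 516166) (nat_lit 12) (.e (nat_lit 450562) (nat_lit 0) (.e (nat_lit 6830) (nat_lit 367) .nil)))))) (.g (nat_lit 5) .nil .nil)))) (.nd (nat_lit 5) 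
(.lf (nat_lit 154320) (.g (nat_lit 1567) (.e (nat_lit 57409) (nat_lit 12) (.e (nat_lit 336019) (nat_lit 3) (.e (nat_lit 98358) (nat_lit 26) (.e (nat_lit 426294) (nat_lit 11) .nil)))) .nil)) 
(.lf (nat_lit 154352) (.g (nat_lit 1011) (.e (nat_lit 57409) (nat_lit 12) (.e (nat_lit 336208) (nat_lit 12) (.e (nat_lit 385106) (nat_lit 50) (.e (nat_lit 786480) (nat_lit 29) .nil)))) .nil)))) (.nd (nat_lit 4) (.nd (nat_lit 5) 
(.lf (nat_lit 154312) (.g (nat_lit 2357) (.e (nat_lit 57408) (nat_lit 12) (.e (nat_lit 336456) (nat_lit 34) (.e (nat_lit 483383) (nat_lit 23) (.e (nat_lit 336019) (nat_lit 3) (.e (nat_lit 98333) (nat_lit 18) (.e (nat_lit 164179) (nat_lit 154) .nil)))))) (.g (nat_lit 4) .nil .nil))) 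
(.lf (nat_lit 154344) (.g (nat_lit 2769) (.e (nat_lit 57409) (nat_lit 12) (.e (nat_lit 336208) (nat_lit 12) (.e (nat_lit 385104) (nat_lit 50) (.e (nat_lit 786478) (nat_lit 29) (.e (nat_lit 352318) (nat_lit 24) (.e (nat_lit 123198) (nat_lit 266) .nil)))))) (.g (nat_lit 6) .nil .nil)))) (.nd (nat_lit 5) 
(.lf (nat_lit 154328) (.g (nat_lit 5122) (.e (nat_lit 57409) (nat_lit 12) (.e (nat_lit 336019) (nat_lit 3) (.e (nat_lit 98373) (nat_lit 29) (.e (nat_lit 450587) (nat_lit 10) (.e (nat_lit 573475) (nat_lit 12) .nil))))) .nil)) 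
(.lf (nat_lit 154360) (.g (nat_lit 1640) (.e (nat_lit 57409) (nat_lit 12) (.e (nat_lit 336210) (nat_lit 13) (.e (nat_lit 393292) (nat_lit 26) (.e (nat_lit 475214) (nat_lit 42) (.e (nat_lit 720931) (nat_lit 21) (.e (nat_lit 57854) (nat_lit 252) .nil)))))) (.g (nat_lit 4) .nil .nil)))))) (.nd (nat_lit 3) (.nd (nat_lit 4) (.nd (nat_lit 5) 
(.lf (nat_lit 154308) (.g (nat_lit 2105) (.e (nat_lit 57408) (nat_lit 12) (.e (nat_lit 336454) (nat_lit 34) (.e (nat_lit 483410) (nat_lit 27) (.e (nat_lit 401428) (nat_lit 3) .nil)))) .nil)) 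
(.lf (nat_lit 154340) (.g (nat_lit 2535) (.e (nat_lit 57409) (nat_lit 12) (.e (nat_lit 336208) (nat_lit 12) (.e (nat_lit 385093) (nat_lit 49) (.e (nat_lit 778326) (nat_lit 6) (.e (nat_lit 81957) (nat_lit 24) (.e (nat_lit 123198) (nat_lit 266) .nil)))))) (.g (nat_lit 5) .nil .nil)))) (.nd (nat_lit 5) 
(.lf (nat_lit 154324) (.g (nat_lit 2679) (.e (nat_lit 57409) (nat_lit 12) (.e (nat_lit 336019) (nat_lit 3) (.e (nat_lit 98372) (nat_lit 29) (.e (nat_lit 450579) (nat_lit 5) (.e (nat_lit 532499) (nat_lit 1) (.e (nat_lit 65280) (nat_lit 223) .nil)))))) (.g (nat_lit 4) .nil .nil))) 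
(.lf (nat_lit 154356) (.g (nat_lit 2196) (.e (nat_lit 57409) (nat_lit 12) (.e (nat_lit 336208) (nat_lit 12) (.e (nat_lit 385106) (nat_lit 50) (.e (nat_lit 786483) (nat_lit 30) (.e (nat_lit 368384) (nat_lit 0) (.e (nat_lit 5937) (nat_lit 322) .nil)))))) (.g (nat_lit 4) .nil .nil))))) (.nd (nat_lit 4) (.nd (nat_lit 5) 
(.lf (nat_lit 154316) (.g (nat_lit 2318) (.e (nat_lit 57409) (nat_lit 12) (.e (nat_lit 336016) (nat_lit 2) (.e (nat_lit 90176) (nat_lit 15) (.e (nat_lit 188450) (nat_lit 23) (.e (nat_lit 204830) (nat_lit 18) (.e (nat_lit 65280) (nat_lit 223) .nil)))))) (.g (nat_lit 4) .nil .nil))) 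
(.lf (nat_lit 154348) (.g (nat_lit 982) (.e (nat_lit 57409) (nat_lit 12) (.e (nat_lit 336208) (nat_lit 12) (.e (nat_lit 385105) (nat_lit 50) (.e (nat_lit 786483) (nat_lit 30) .nil)))) .nil))) (.nd (nat_lit 5) 
(.lf (nat_lit 154332) (.g (nat_lit 851) (.e (nat_lit 57409) (nat_lit 12) (.e (nat_lit 336019) (nat_lit 3) (.e (nat_lit 98374) (nat_lit 29) .nil))) .nil)) 
(.lf (nat_lit 154364) (.g (nat_lit 1857) (.e (nat_lit 57409) (nat_lit 12) (.e (nat_lit 336210) (nat_lit 13) (.e (nat_lit 393293) (nat_lit 26) (.e (nat_lit 475214) (nat_lit 42) (.e (nat_lit 720931) (nat_lit 21) (.e (nat_lit 57854) (nat_lit 252) .nil)))))) (.g (nat_lit 4) .nil .nil))))))) (.nd (nat_lit 2) (.nd (nat_lit 3) (.nd (nat_lit 4) (.nd (nat_lit 5) 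
(.lf (nat_lit 154306) (.g (nat_lit 2227) (.e (nat_lit 57408) (nat_lit 12) (.e (nat_lit 336454) (nat_lit 34) (.e (nat_lit 483407) (nat_lit 26) (.e (nat_lit 385067) (nat_lit 26) (.e (nat_lit 532504) (nat_lit 1) (.e (nat_lit 57851) (nat_lit 252) .nil)))))) (.g (nat_lit 5) .nil .nil))) 
(.lf (nat_lit 154338) (.g (nat_lit 1873) (.e (nat_lit 57409) (nat_lit 12) (.e (nat_lit 336208) (nat_lit 12) (.e (nat_lit 385091) (nat_lit 49) (.e (nat_lit 778327) (nat_lit 6) (.e (nat_lit 81957) (nat_lit 24) (.e (nat_lit 123198) (nat_lit 266) .nil)))))) (.g (nat_lit 5) .nil .nil)))) (.nd (nat_lit 5) 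
(.lf (nat_lit 154322) (.g (nat_lit 725) (.e (nat_lit 57409) (nat_lit 12) (.e (nat_lit 336019) (nat_lit 3) (.e (nat_lit 98372) (nat_lit 29) .nil))) .nil)) 
(.lf (nat_lit 154354) (.g (nat_lit 2113) (.e (nat_lit 57409) (nat_lit 12) (.e (nat_lit 336208) (nat_lit 12) (.e (nat_lit 385106) (nat_lit 50) (.e (nat_lit 786480) (nat_lit 29) (.e (nat_lit 352318) (nat_lit 24) (.e (nat_lit 123198) (nat_lit 266) .nil)))))) (.g (nat_lit 4) .nil .nil))))) (.nd (nat_lit 4) (.nd (nat_lit 5) 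
(.lf (nat_lit 154314) (.g (nat_lit 627) (.e (nat_lit 57408) (nat_lit 12) (.e (nat_lit 336456) (nat_lit 34) (.e (nat_lit 483395) (nat_lit 24) .nil))) .nil)) 
(.lf (nat_lit 154346) (.g (nat_lit 2356) (.e (nat_lit 57409) (nat_lit 12) (.e (nat_lit 336208) (nat_lit 12) (.e (nat_lit 385104) (nat_lit 50) (.e (nat_lit 786483) (nat_lit 30) (.e (nat_lit 368384) (nat_lit 0) (.e (nat_lit 5937) (nat_lit 322) .nil)))))) (.g (nat_lit 4) .nil .nil)))) (.nd (nat_lit 5) 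
(.lf (nat_lit 154330) (.g (nat_lit 4875) (.e (nat_lit 57409) (nat_lit 12) (.e (nat_lit 336019) (nat_lit 3) (.e (nat_lit 98373) (nat_lit 29) (.e (nat_lit 450588) (nat_lit 10) (.e (nat_lit 573473) (nat_lit 12) .nil))))) .nil)) 
(.lf (nat_lit 154362) (.g (nat_lit 1741) (.e (nat_lit 57409) (nat_lit 12) (.e (nat_lit 336210) (nat_lit 13) (.e (nat_lit 393293) (nat_lit 26) (.e (nat_lit 475212) (nat_lit 42) (.e (nat_lit 720931) (nat_lit 21) (.e (nat_lit 57854) (nat_lit 252) .nil)))))) (.g (nat_lit 4) .nil .nil)))))) (.nd (nat_lit 3) (.nd (nat_lit 4) (.nd (nat_lit 5) 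
(.lf (nat_lit 154310) (.g (nat_lit 831) (.e (nat_lit 57408) (nat_lit 12) (.e (nat_lit 336454) (nat_lit 34) (.e (nat_lit 483412) (nat_lit 27) .nil))) .nil)) 
(.lf (nat_lit 154342) (.g (nat_lit 2561) (.e (nat_lit 57409) (nat_lit 12) (.e (nat_lit 336208) (nat_lit 12) (.e (nat_lit 385093) (nat_lit 49) (.e (nat_lit 778327) (nat_lit 6) (.e (nat_lit 81959) (nat_lit 24) (.e (nat_lit 123198) (nat_lit 266) .nil)))))) (.g (nat_lit 6) .nil .nil)))) (.nd (nat_lit 5) 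
(.lf (nat_lit 154326) (.g (nat_lit 2952) (.e (nat_lit 57409) (nat_lit 12) (.e (nat_lit 336019) (nat_lit 3) (.e (nat_lit 98372) (nat_lit 29) (.e (nat_lit 450579) (nat_lit 5) (.e (nat_lit 532503) (nat_lit 1) (.e (nat_lit 65280) (nat_lit 223) .nil)))))) (.g (nat_lit 4) .nil .nil))) 
(.lf (nat_lit 154358) (.g (nat_lit 1513) (.e (nat_lit 57409) (nat_lit 12) (.e (nat_lit 336210) (nat_lit 13) (.e (nat_lit 393267) (nat_lit 23) (.e (nat_lit 426446) (nat_lit 20) (.e (nat_lit 114712) (nat_lit 21) (.e (nat_lit 57854) (nat_lit 252) .nil)))))) (.g (nat_lit 4) .nil .nil))))) (.nd (nat_lit 4) (.nd (nat_lit 5) 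
(.lf (nat_lit 154318) (.g (nat_lit 1361) (.e (nat_lit 57409) (nat_lit 12) (.e (nat_lit 336019) (nat_lit 3) (.e (nat_lit 98341) (nat_lit 20) (.e (nat_lit 221220) (nat_lit 25) .nil)))) .nil)) 
(.lf (nat_lit 154350) (.g (nat_lit 2247) (.e (nat_lit 57409) (nat_lit 12) (.e (nat_lit 336208) (nat_lit 12) (.e (nat_lit 385105) (nat_lit 50) (.e (nat_lit 786483) (nat_lit 30) (.e (nat_lit 368384) (nat_lit 0) (.e (nat_lit 5937) (nat_lit 322) .nil)))))) (.g (nat_lit 4) .nil .nil)))) (.nd (nat_lit 5) 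
(.lf (nat_lit 154334) (.g (nat_lit 2102) (.e (nat_lit 57409) (nat_lit 12) (.e (nat_lit 336182) (nat_lit 11) (.e (nat_lit 368695) (nat_lit 40) (.e (nat_lit 671764) (nat_lit 6) (.e (nat_lit 81959) (nat_lit 24) (.e (nat_lit 123198) (nat_lit 266) .nil)))))) (.g (nat_lit 5) .nil .nil))) 
(.lf (nat_lit 154366) (.g (nat_lit 1540) (.e (nat_lit 57409) (nat_lit 12) (.e (nat_lit 336211) (nat_lit 13) (.e (nat_lit 393231) (nat_lit 17) (.e (nat_lit 7593) (nat_lit 407) (.e (nat_lit 73730) (nat_lit 0) (.e (nat_lit 7263) (nat_lit 384) .nil)))))) (.g (nat_lit 4) .nil .nil)))))))) (.nd (nat_lit 1) (.nd (nat_lit 2) (.nd (nat_lit 3) (.nd (nat_lit 4) (.nd (nat_lit 5) 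
(.lf (nat_lit 154305) (.g (nat_lit 2099) (.e (nat_lit 57408) (nat_lit 12) (.e (nat_lit 336454) (nat_lit 34) (.e (nat_lit 483407) (nat_lit 26) (.e (nat_lit 385067) (nat_lit 26) (.e (nat_lit 532501) (nat_lit 1) (.e (nat_lit 57851) (nat_lit 252) .nil)))))) (.g (nat_lit 5) .nil .nil))) 
(.lf (nat_lit 154337) (.g (nat_lit 2827) (.e (nat_lit 57409) (nat_lit 12) (.e (nat_lit 336208) (nat_lit 12) (.e (nat_lit 392960) (nat_lit 24) (.e (nat_lit 516166) (nat_lit 12) (.e (nat_lit 450563) (nat_lit 0) (.e (nat_lit 6828) (nat_lit 367) .nil)))))) (.g (nat_lit 5) .nil .nil)))) (.nd (nat_lit 5) 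
(.lf (nat_lit 154321) (.g (nat_lit 2767) (.e (nat_lit 57409) (nat_lit 12) (.e (nat_lit 336019) (nat_lit 3) (.e (nat_lit 98358) (nat_lit 26) (.e (nat_lit 426294) (nat_lit 11) (.e (nat_lit 466688) (nat_lit 21) (.e (nat_lit 516106) (nat_lit 0) (.e (nat_lit 2515) (nat_lit 157) (.e (nat_lit 5201) (nat_lit 294) .nil)))))))) (.g (nat_lit 4) .nil .nil))) 
(.lf (nat_lit 154353) (.g (nat_lit 1945) (.e (nat_lit 57409) (nat_lit 12) (.e (nat_lit 336208) (nat_lit 12) (.e (nat_lit 385106) (nat_lit 50) (.e (nat_lit 786480) (nat_lit 29) (.e (nat_lit 352316) (nat_lit 24) (.e (nat_lit 123198) (nat_lit 266) .nil)))))) (.g (nat_lit 4) .nil .nil))))) (.nd (nat_lit 4) (.nd (nat_lit 5) 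
(.lf (nat_lit 154313) (.g (nat_lit 2215) (.e (nat_lit 57408) (nat_lit 12) (.e (nat_lit 336456) (nat_lit 34) (.e (nat_lit 483383) (nat_lit 23) (.e (nat_lit 336019) (nat_lit 3) (.e (nat_lit 98335) (nat_lit 18) .nil))))) .nil)) 
(.lf (nat_lit 154345) (.g (nat_lit 1995) (.e (nat_lit 57409) (nat_lit 12) (.e (nat_lit 336208) (nat_lit 12) (.e (nat_lit 385104) (nat_lit 50) (.e (nat_lit 786481) (nat_lit 30) (.e (nat_lit 368384) (nat_lit 0) (.e (nat_lit 5937) (nat_lit 322) .nil)))))) (.g (nat_lit 4) .nil .nil)))) (.nd (nat_lit 5) 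
(.lf (nat_lit 154329) (.g (nat_lit 4370) (.e (nat_lit 57409) (nat_lit 12) (.e (nat_lit 336019) (nat_lit 3) (.e (nat_lit 98373) (nat_lit 29) (.e (nat_lit 450587) (nat_lit 10) (.e (nat_lit 573477) (nat_lit 12) .nil))))) .nil)) 
(.lf (nat_lit 154361) (.g (nat_lit 1674) (.e (nat_lit 57409) (nat_lit 12) (.e (nat_lit 336210) (nat_lit 13) (.e (nat_lit 393293) (nat_lit 26) (.e (nat_lit 475212) (nat_lit 42) (.e (nat_lit 720930) (nat_lit 21) (.e (nat_lit 57854) (nat_lit 252) .nil)))))) (.g (nat_lit 4) .nil .nil)))))) (.nd (nat_lit 3) (.nd (nat_lit 4) (.nd (nat_lit 5) 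
(.lf (nat_lit 154309) (.g (nat_lit 2298) (.e (nat_lit 57408) (nat_lit 12) (.e (nat_lit 336454) (nat_lit 34) (.e (nat_lit 483411) (nat_lit 27) (.e (nat_lit 401426) (nat_lit 3) .nil)))) .nil)) 
(.lf (nat_lit 154341) (.g (nat_lit 2427) (.e (nat_lit 57409) (nat_lit 12) (.e (nat_lit 336208) (nat_lit 12) (.e (nat_lit 385093) (nat_lit 49) (.e (nat_lit 778326) (nat_lit 6) (.e (nat_lit 81959) (nat_lit 24) (.e (nat_lit 123198) (nat_lit 266) .nil)))))) (.g (nat_lit 5) .nil .nil)))) (.nd (nat_lit 5) 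
(.lf (nat_lit 154325) (.g (nat_lit 3246) (.e (nat_lit 57409) (nat_lit 12) (.e (nat_lit 336019) (nat_lit 3) (.e (nat_lit 98372) (nat_lit 29) (.e (nat_lit 450579) (nat_lit 5) (.e (nat_lit 532501) (nat_lit 1) (.e (nat_lit 65280) (nat_lit 223) .nil)))))) (.g (nat_lit 4) .nil .nil))) 
(.lf (nat_lit 154357) (.g (nat_lit 1570) (.e (nat_lit 57409) (nat_lit 12) (.e (nat_lit 336210) (nat_lit 13) (.e (nat_lit 393267) (nat_lit 23) (.e (nat_lit 426446) (nat_lit 20) (.e (nat_lit 114710) (nat_lit 21) (.e (nat_lit 57854) (nat_lit 252) .nil)))))) (.g (nat_lit 4) .nil .nil))))) (.nd (nat_lit 4) (.nd (nat_lit 5) 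
(.lf (nat_lit 154317) (.g (nat_lit 2683) (.e (nat_lit 57409) (nat_lit 12) (.e (nat_lit 336016) (nat_lit 2) (.e (nat_lit 90178) (nat_lit 15) (.e (nat_lit 188455) (nat_lit 24) (.e (nat_lit 237312) (nat_lit 137) (.e (nat_lit 122889) (nat_lit 1) (.e (nat_lit 57854) (nat_lit 252) .nil))))))) (.g (nat_lit 4) .nil .nil))) 
(.lf (nat_lit 154349) (.g (nat_lit 3098) (.e (nat_lit 57409) (nat_lit 12) (.e (nat_lit 336208) (nat_lit 12) (.e (nat_lit 385105) (nat_lit 50) (.e (nat_lit 786483) (nat_lit 30) (.e (nat_lit 360457) (nat_lit 0) (.e (nat_lit 5949) (nat_lit 322) .nil)))))) (.g (nat_lit 5) .nil .nil)))) (.nd (nat_lit 5) 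
(.lf (nat_lit 154333) (.g (nat_lit 2111) (.e (nat_lit 57409) (nat_lit 12) (.e (nat_lit 336182) (nat_lit 11) (.e (nat_lit 368695) (nat_lit 40) (.e (nat_lit 671764) (nat_lit 6) (.e (nat_lit 81957) (nat_lit 24) (.e (nat_lit 123198) (nat_lit 266) .nil)))))) (.g (nat_lit 5) .nil .nil))) 
(.lf (nat_lit 154365) (.g (nat_lit 1553) (.e (nat_lit 57409) (nat_lit 12) (.e (nat_lit 336211) (nat_lit 13) (.e (nat_lit 393231) (nat_lit 17) (.e (nat_lit 7593) (nat_lit 407) (.e (nat_lit 73729) (nat_lit 0) (.e (nat_lit 7265) (nat_lit 384) .nil)))))) (.g (nat_lit 4) .nil .nil))))))) (.nd (nat_lit 2) (.nd (nat_lit 3) (.nd (nat_lit 4) (.nd (nat_lit 5) 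
(.lf (nat_lit 154307) (.g (nat_lit 998) (.e (nat_lit 57408) (nat_lit 12) (.e (nat_lit 336454) (nat_lit 34) (.e (nat_lit 483409) (nat_lit 27) .nil))) .nil)) 
(.lf (nat_lit 154339) (.g (nat_lit 1943) (.e (nat_lit 57409) (nat_lit 12) (.e (nat_lit 336208) (nat_lit 12) (.e (nat_lit 385091) (nat_lit 49) (.e (nat_lit 778327) (nat_lit 6) (.e (nat_lit 81959) (nat_lit 24) (.e (nat_lit 123198) (nat_lit 266) .nil)))))) (.g (nat_lit 5) .nil .nil)))) (.nd (nat_lit 5) 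
(.lf (nat_lit 154323) (.g (nat_lit 2719) (.e (nat_lit 57409) (nat_lit 12) (.e (nat_lit 336019) (nat_lit 3) (.e (nat_lit 98372) (nat_lit 29) (.e (nat_lit 450579) (nat_lit 5) (.e (nat_lit 532484) (nat_lit 0) .nil))))) .nil)) 
(.lf (nat_lit 154355) (.g (nat_lit 2223) (.e (nat_lit 57409) (nat_lit 12) (.e (nat_lit 336208) (nat_lit 12) (.e (nat_lit 385106) (nat_lit 50) (.e (nat_lit 786481) (nat_lit 30) (.e (nat_lit 368384) (nat_lit 0) (.e (nat_lit 5937) (nat_lit 322) .nil)))))) (.g (nat_lit 4) .nil .nil))))) (.nd (nat_lit 4) (.nd (nat_lit 5) 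
(.lf (nat_lit 154315) (.g (nat_lit 583) (.e (nat_lit 57408) (nat_lit 12) (.e (nat_lit 336456) (nat_lit 34) (.e (nat_lit 483399) (nat_lit 25) .nil))) .nil)) 
(.lf (nat_lit 154347) (.g (nat_lit 2073) (.e (nat_lit 57409) (nat_lit 12) (.e (nat_lit 336208) (nat_lit 12) (.e (nat_lit 385105) (nat_lit 50) (.e (nat_lit 786478) (nat_lit 29) (.e (nat_lit 352318) (nat_lit 24) (.e (nat_lit 123198) (nat_lit 266) .nil)))))) (.g (nat_lit 4) .nil .nil)))) (.nd (nat_lit 5) 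
(.lf (nat_lit 154331) (.g (nat_lit 4847) (.e (nat_lit 57409) (nat_lit 12) (.e (nat_lit 336019) (nat_lit 3) (.e (nat_lit 98373) (nat_lit 29) (.e (nat_lit 450588) (nat_lit 10) (.e (nat_lit 573475) (nat_lit 12) .nil))))) .nil)) 
(.lf (nat_lit 154363) (.g (nat_lit 1673) (.e (nat_lit 57409) (nat_lit 12) (.e (nat_lit 336210) (nat_lit 13) (.e (nat_lit 393293) (nat_lit 26) (.e (nat_lit 475214) (nat_lit 42) (.e (nat_lit 720930) (nat_lit 21) (.e (nat_lit 57854) (nat_lit 252) .nil)))))) (.g (nat_lit 4) .nil .nil)))))) (.nd (nat_lit 3) (.nd (nat_lit 4) (.nd (nat_lit 5) 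
(.lf (nat_lit 154311) (.g (nat_lit 1686) (.e (nat_lit 57408) (nat_lit 12) (.e (nat_lit 336456) (nat_lit 34) (.e (nat_lit 483383) (nat_lit 23) (.e (nat_lit 336019) (nat_lit 3) .nil)))) .nil)) 
(.lf (nat_lit 154343) (.g (nat_lit 429) (.e (nat_lit 57409) (nat_lit 12) (.e (nat_lit 336208) (nat_lit 12) (.e (nat_lit 385099) (nat_lit 49) .nil))) .nil))) (.nd (nat_lit 5) 
(.lf (nat_lit 154327) (.g (nat_lit 3185) (.e (nat_lit 57409) (nat_lit 12) (.e (nat_lit 336019) (nat_lit 3) (.e (nat_lit 98372) (nat_lit 29) (.e (nat_lit 450579) (nat_lit 5) (.e (nat_lit 532504) (nat_lit 1) (.e (nat_lit 65280) (nat_lit 223) .nil)))))) (.g (nat_lit 4) .nil .nil))) 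
(.lf (nat_lit 154359) (.g (nat_lit 1426) (.e (nat_lit 57409) (nat_lit 12) (.e (nat_lit 336210) (nat_lit 13) (.e (nat_lit 393292) (nat_lit 26) (.e (nat_lit 475212) (nat_lit 42) (.e (nat_lit 720931) (nat_lit 21) (.e (nat_lit 57854) (nat_lit 252) .nil)))))) (.g (nat_lit 4) .nil .nil))))) (.nd (nat_lit 4) (.nd (nat_lit 5) 
(.lf (nat_lit 154319) (.g (nat_lit 514) (.e (nat_lit 57409) (nat_lit 12) (.e (nat_lit 336019) (nat_lit 3) (.e (nat_lit 98342) (nat_lit 20) .nil))) .nil)) 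
(.lf (nat_lit 154351) (.g (nat_lit 1945) (.e (nat_lit 57409) (nat_lit 12) (.e (nat_lit 336208) (nat_lit 12) (.e (nat_lit 385106) (nat_lit 50) (.e (nat_lit 786478) (nat_lit 29) (.e (nat_lit 352318) (nat_lit 24) (.e (nat_lit 123198) (nat_lit 266) .nil)))))) (.g (nat_lit 4) .nil .nil)))) (.nd (nat_lit 5) 
(.lf (nat_lit 154335) (.g (nat_lit 2155) (.e (nat_lit 57409) (nat_lit 12) (.e (nat_lit 336182) (nat_lit 11) (.e (nat_lit 368698) (nat_lit 43) (.e (nat_lit 770072) (nat_lit 8) (.e (nat_lit 65583) (nat_lit 7) (.e (nat_lit 319516) (nat_lit 11) (.e (nat_lit 8553) (nat_lit 232) .nil))))))) (.g (nat_lit 5) .nil .nil))) 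
(.lf (nat_lit 154367) (.g (nat_lit 1879) (.e (nat_lit 57409) (nat_lit 12) (.e (nat_lit 336211) (nat_lit 13) (.e (nat_lit 393232) (nat_lit 17) (.e (nat_lit 7591) (nat_lit 407) (.e (nat_lit 73729) (nat_lit 0) (.e (nat_lit 7261) (nat_lit 384) .nil)))))) (.g (nat_lit 4) .nil .nil)))))))))

noncomputable def tv2059 : DT := (.nd (nat_lit 0) (.nd (nat_lit 1) (.nd (nat_lit 2) (.nd (nat_lit 3) (.nd (nat_lit 4) (.nd (nat_lit 5) 
(.lf (nat_lit 154368) (.g (nat_lit 2362) (.e (nat_lit 57409) (nat_lit 12) (.e (nat_lit 336211) (nat_lit 13) (.e (nat_lit 393232) (nat_lit 17) (.e (nat_lit 7591) (nat_lit 407) (.e (nat_lit 73729) (nat_lit 0) (.e (nat_lit 7265) (nat_lit 384) .nil)))))) (.g (nat_lit 5) .nil .nil))) 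
(.lf (nat_lit 154400) (.g (nat_lit 1897) (.e (nat_lit 57409) (nat_lit 12) (.e (nat_lit 336211) (nat_lit 13) (.e (nat_lit 393268) (nat_lit 23) (.e (nat_lit 426448) (nat_lit 20) (.e (nat_lit 114710) (nat_lit 21) (.e (nat_lit 57848) (nat_lit 252) .nil)))))) (.g (nat_lit 4) .nil .nil)))) (.nd (nat_lit 5) 
(.lf (nat_lit 154384) (.g (nat_lit 1782) (.e (nat_lit 57409) (nat_lit 12) (.e (nat_lit 336211) (nat_lit 13) (.e (nat_lit 393234) (nat_lit 17) (.e (nat_lit 7591) (nat_lit 407) (.e (nat_lit 73731) (nat_lit 0) .nil))))) .nil)) 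
(.lf (nat_lit 154416) (.g (nat_lit 3147) (.e (nat_lit 57409) (nat_lit 12) (.e (nat_lit 336211) (nat_lit 13) (.e (nat_lit 393270) (nat_lit 23) (.e (nat_lit 426448) (nat_lit 20) (.e (nat_lit 114711) (nat_lit 21) (.e (nat_lit 57847) (nat_lit 252) .nil)))))) (.g (nat_lit 6) .nil .nil))))) (.nd (nat_lit 4) (.nd (nat_lit 5) 
(.lf (nat_lit 154376) (.g (nat_lit 1724) (.e (nat_lit 57409) (nat_lit 12) (.e (nat_lit 336211) (nat_lit 13) (.e (nat_lit 393233) (nat_lit 17) (.e (nat_lit 7591) (nat_lit 407) (.e (nat_lit 73729) (nat_lit 0) (.e (nat_lit 7261) (nat_lit 384) .nil)))))) (.g (nat_lit 4) .nil .nil))) 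
(.lf (nat_lit 154408) (.g (nat_lit 2271) (.e (nat_lit 57409) (nat_lit 12) (.e (nat_lit 336211) (nat_lit 13) (.e (nat_lit 393269) (nat_lit 23) (.e (nat_lit 426446) (nat_lit 20) (.e (nat_lit 114712) (nat_lit 21) (.e (nat_lit 57852) (nat_lit 252) .nil)))))) (.g (nat_lit 0) .nil .nil)))) (.nd (nat_lit 5) 
(.lf (nat_lit 154392) (.g (nat_lit 2531) (.e (nat_lit 57409) (nat_lit 12) (.e (nat_lit 336211) (nat_lit 13) (.e (nat_lit 393267) (nat_lit 23) (.e (nat_lit 426446) (nat_lit 20) (.e (nat_lit 114710) (nat_lit 21) (.e (nat_lit 57852) (nat_lit 252) .nil)))))) (.g (nat_lit 6) .nil .nil))) 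
(.lf (nat_lit 154424) (.g (nat_lit 2355) (.e (nat_lit 57409) (nat_lit 12) (.e (nat_lit 336211) (nat_lit 13) (.e (nat_lit 393271) (nat_lit 23) (.e (nat_lit 426446) (nat_lit 20) (.e (nat_lit 114712) (nat_lit 21) (.e (nat_lit 57853) (nat_lit 252) .nil)))))) (.g (nat_lit 4) .nil .nil)))))) (.nd (nat_lit 3) (.nd (nat_lit 4) (.nd (nat_lit 5) 
(.lf (nat_lit 154372) (.g (nat_lit 1682) (.e (nat_lit 57409) (nat_lit 12) (.e (nat_lit 336211) (nat_lit 13) (.e (nat_lit 393232) (nat_lit 17) (.e (nat_lit 7593) (nat_lit 407) (.e (nat_lit 73730) (nat_lit 0) .nil))))) .nil)) 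
(.lf (nat_lit 154404) (.g (nat_lit 2110) (.e (nat_lit 57409) (nat_lit 12) (.e (nat_lit 336211) (nat_lit 13) (.e (nat_lit 393268) (nat_lit 23) (.e (nat_lit 426449) (nat_lit 20) (.e (nat_lit 114710) (nat_lit 21) (.e (nat_lit 57852) (nat_lit 252) .nil)))))) (.g (nat_lit 5) .nil .nil)))) (.nd (nat_lit 5) 
(.lf (nat_lit 154388) (.g (nat_lit 3269) (.e (nat_lit 57409) (nat_lit 12) (.e (nat_lit 336211) (nat_lit 13) (.e (nat_lit 393234) (nat_lit 17) (.e (nat_lit 7593) (nat_lit 407) (.e (nat_lit 73729) (nat_lit 0) (.e (nat_lit 7266) (nat_lit 384) .nil)))))) (.g (nat_lit 6) .nil .nil))) 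
(.lf (nat_lit 154420) (.g (nat_lit 1783) (.e (nat_lit 57409) (nat_lit 12) (.e (nat_lit 336211) (nat_lit 13) (.e (nat_lit 393271) (nat_lit 23) (.e (nat_lit 426354) (nat_lit 15) (.e (nat_lit 2198) (nat_lit 144) .nil))))) .nil)))) (.nd (nat_lit 4) (.nd (nat_lit 5) 
(.lf (nat_lit 154380) (.g (nat_lit 1335) (.e (nat_lit 57409) (nat_lit 12) (.e (nat_lit 336211) (nat_lit 13) (.e (nat_lit 393233) (nat_lit 17) (.e (nat_lit 7593) (nat_lit 407) (.e (nat_lit 73731) (nat_lit 0) .nil))))) .nil)) 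
(.lf (nat_lit 154412) (.g (nat_lit 2855) (.e (nat_lit 57409) (nat_lit 12) (.e (nat_lit 336211) (nat_lit 13) (.e (nat_lit 393270) (nat_lit 23) (.e (nat_lit 426446) (nat_lit 20) (.e (nat_lit 114711) (nat_lit 21) (.e (nat_lit 57847) (nat_lit 252) .nil)))))) (.g (nat_lit 6) .nil .nil)))) (.nd (nat_lit 5) 
(.lf (nat_lit 154396) (.g (nat_lit 2530) (.e (nat_lit 57409) (nat_lit 12) (.e (nat_lit 336211) (nat_lit 13) (.e (nat_lit 393267) (nat_lit 23) (.e (nat_lit 426446) (nat_lit 20) (.e (nat_lit 114712) (nat_lit 21) (.e (nat_lit 57854) (nat_lit 252) .nil)))))) (.g (nat_lit 6) .nil .nil))) 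
(.lf (nat_lit 154428) (.g (nat_lit 3599) (.e (nat_lit 57409) (nat_lit 12) (.e (nat_lit 336211) (nat_lit 13) (.e (nat_lit 393271) (nat_lit 23) (.e (nat_lit 426448) (nat_lit 20) (.e (nat_lit 114710) (nat_lit 21) (.e (nat_lit 57852) (nat_lit 252) .nil)))))) (.g (nat_lit 0) .nil .nil))))))) (.nd (nat_lit 2) (.nd (nat_lit 3) (.nd (nat_lit 4) (.nd (nat_lit 5) 
(.lf (nat_lit 154370) (.g (nat_lit 2948) (.e (nat_lit 57409) (nat_lit 12) (.e (nat_lit 336211) (nat_lit 13) (.e (nat_lit 393232) (nat_lit 17) (.e (nat_lit 7591) (nat_lit 407) (.e (nat_lit 73731) (nat_lit 0) (.e (nat_lit 7266) (nat_lit 384) .nil)))))) (.g (nat_lit 6) .nil .nil))) 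
(.lf (nat_lit 154402) (.g (nat_lit 3711) (.e (nat_lit 57409) (nat_lit 12) (.e (nat_lit 336211) (nat_lit 13) (.e (nat_lit 393268) (nat_lit 23) (.e (nat_lit 426448) (nat_lit 20) (.e (nat_lit 114711) (nat_lit 21) (.e (nat_lit 57847) (nat_lit 252) .nil)))))) (.g (nat_lit 6) .nil .nil)))) (.nd (nat_lit 5) 
(.lf (nat_lit 154386) (.g (nat_lit 3140) (.e (nat_lit 57409) (nat_lit 12) (.e (nat_lit 336211) (nat_lit 13) (.e (nat_lit 393234) (nat_lit 17) (.e (nat_lit 7591) (nat_lit 407) (.e (nat_lit 73731) (nat_lit 0) (.e (nat_lit 7266) (nat_lit 384) .nil)))))) (.g (nat_lit 6) .nil .nil))) 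
(.lf (nat_lit 154418) (.g (nat_lit 1752) (.e (nat_lit 57409) (nat_lit 12) (.e (nat_lit 336211) (nat_lit 13) (.e (nat_lit 393270) (nat_lit 23) (.e (nat_lit 426448) (nat_lit 20) (.e (nat_lit 114712) (nat_lit 21) (.e (nat_lit 57853) (nat_lit 252) .nil)))))) (.g (nat_lit 4) .nil .nil))))) (.nd (nat_lit 4) (.nd (nat_lit 5) 
(.lf (nat_lit 154378) (.g (nat_lit 2910) (.e (nat_lit 57409) (nat_lit 12) (.e (nat_lit 336211) (nat_lit 13) (.e (nat_lit 393233) (nat_lit 17) (.e (nat_lit 7593) (nat_lit 407) (.e (nat_lit 73729) (nat_lit 0) (.e (nat_lit 7263) (nat_lit 384) .nil)))))) (.g (nat_lit 6) .nil .nil))) 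
(.lf (nat_lit 154410) (.g (nat_lit 2714) (.e (nat_lit 57409) (nat_lit 12) (.e (nat_lit 336211) (nat_lit 13) (.e (nat_lit 393270) (nat_lit 23) (.e (nat_lit 426446) (nat_lit 20) (.e (nat_lit 114710) (nat_lit 21) (.e (nat_lit 57847) (nat_lit 252) .nil)))))) (.g (nat_lit 6) .nil .nil)))) (.nd (nat_lit 5) 
(.lf (nat_lit 154394) (.g (nat_lit 2575) (.e (nat_lit 57409) (nat_lit 12) (.e (nat_lit 336211) (nat_lit 13) (.e (nat_lit 393267) (nat_lit 23) (.e (nat_lit 426446) (nat_lit 20) (.e (nat_lit 114710) (nat_lit 21) (.e (nat_lit 57854) (nat_lit 252) .nil)))))) (.g (nat_lit 6) .nil .nil))) 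
(.lf (nat_lit 154426) (.g (nat_lit 3553) (.e (nat_lit 57409) (nat_lit 12) (.e (nat_lit 336211) (nat_lit 13) (.e (nat_lit 393271) (nat_lit 23) (.e (nat_lit 426448) (nat_lit 20) (.e (nat_lit 114710) (nat_lit 21) (.e (nat_lit 57847) (nat_lit 252) .nil)))))) (.g (nat_lit 6) .nil .nil)))))) (.nd (nat_lit 3) (.nd (nat_lit 4) (.nd (nat_lit 5) 
(.lf (nat_lit 154374) (.g (nat_lit 768) (.e (nat_lit 57409) (nat_lit 12) (.e (nat_lit 336211) (nat_lit 13) (.e (nat_lit 393232) (nat_lit 17) (.e (nat_lit 7936) (nat_lit 407) .nil)))) .nil)) 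
(.lf (nat_lit 154406) (.g (nat_lit 1579) (.e (nat_lit 57409) (nat_lit 12) (.e (nat_lit 336211) (nat_lit 13) (.e (nat_lit 393268) (nat_lit 23) (.e (nat_lit 433920) (nat_lit 20) .nil)))) .nil))) (.nd (nat_lit 5) 
(.lf (nat_lit 154390) (.g (nat_lit 1834) (.e (nat_lit 57409) (nat_lit 12) (.e (nat_lit 336211) (nat_lit 13) (.e (nat_lit 393234) (nat_lit 17) (.e (nat_lit 7593) (nat_lit 407) (.e (nat_lit 73731) (nat_lit 0) .nil))))) .nil)) 
(.lf (nat_lit 154422) (.g (nat_lit 2331) (.e (nat_lit 57409) (nat_lit 12) (.e (nat_lit 336211) (nat_lit 13) (.e (nat_lit 393271) (nat_lit 23) (.e (nat_lit 426446) (nat_lit 20) (.e (nat_lit 114710) (nat_lit 21) (.e (nat_lit 57853) (nat_lit 252) .nil)))))) (.g (nat_lit 4) .nil .nil))))) (.nd (nat_lit 4) (.nd (nat_lit 5) 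
(.lf (nat_lit 154382) (.g (nat_lit 3417) (.e (nat_lit 57409) (nat_lit 12) (.e (nat_lit 336211) (nat_lit 13) (.e (nat_lit 393234) (nat_lit 17) (.e (nat_lit 7591) (nat_lit 407) (.e (nat_lit 73729) (nat_lit 0) (.e (nat_lit 7266) (nat_lit 384) .nil)))))) (.g (nat_lit 6) .nil .nil))) 
(.lf (nat_lit 154414) (.g (nat_lit 2945) (.e (nat_lit 57409) (nat_lit 12) (.e (nat_lit 336211) (nat_lit 13) (.e (nat_lit 393270) (nat_lit 23) (.e (nat_lit 426448) (nat_lit 20) (.e (nat_lit 114710) (nat_lit 21) (.e (nat_lit 57847) (nat_lit 252) .nil)))))) (.g (nat_lit 6) .nil .nil)))) (.nd (nat_lit 5) 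
(.lf (nat_lit 154398) (.g (nat_lit 1728) (.e (nat_lit 57409) (nat_lit 12) (.e (nat_lit 336211) (nat_lit 13) (.e (nat_lit 393268) (nat_lit 23) (.e (nat_lit 426440) (nat_lit 19) (.e (nat_lit 106520) (nat_lit 9) .nil))))) .nil)) 
(.lf (nat_lit 154430) (.g (nat_lit 3711) (.e (nat_lit 57409) (nat_lit 12) (.e (nat_lit 336211) (nat_lit 13) (.e (nat_lit 393271) (nat_lit 23) (.e (nat_lit 426448) (nat_lit 20) (.e (nat_lit 114711) (nat_lit 21) (.e (nat_lit 57847) (nat_lit 252) .nil)))))) (.g (nat_lit 6) .nil .nil)))))))) (.nd (nat_lit 1) (.nd (nat_lit 2) (.nd (nat_lit 3) (.nd (nat_lit 4) (.nd (nat_lit 5) 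
(.lf (nat_lit 154369) (.g (nat_lit 1910) (.e (nat_lit 57409) (nat_lit 12) (.e (nat_lit 336211) (nat_lit 13) (.e (nat_lit 393232) (nat_lit 17) (.e (nat_lit 7591) (nat_lit 407) (.e (nat_lit 73731) (nat_lit 0) (.e (nat_lit 7265) (nat_lit 384) .nil)))))) (.g (nat_lit 4) .nil .nil))) 
(.lf (nat_lit 154401) (.g (nat_lit 2139) (.e (nat_lit 57409) (nat_lit 12) (.e (nat_lit 336211) (nat_lit 13) (.e (nat_lit 393268) (nat_lit 23) (.e (nat_lit 426448) (nat_lit 20) (.e (nat_lit 114711) (nat_lit 21) (.e (nat_lit 57846) (nat_lit 252) .nil)))))) (.g (nat_lit 4) .nil .nil)))) (.nd (nat_lit 5) 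
(.lf (nat_lit 154385) (.g (nat_lit 2007) (.e (nat_lit 57409) (nat_lit 12) (.e (nat_lit 336211) (nat_lit 13) (.e (nat_lit 393234) (nat_lit 17) (.e (nat_lit 7591) (nat_lit 407) (.e (nat_lit 73731) (nat_lit 0) (.e (nat_lit 7265) (nat_lit 384) .nil)))))) (.g (nat_lit 4) .nil .nil))) 
(.lf (nat_lit 154417) (.g (nat_lit 2508) (.e (nat_lit 57409) (nat_lit 12) (.e (nat_lit 336211) (nat_lit 13) (.e (nat_lit 393270) (nat_lit 23) (.e (nat_lit 426448) (nat_lit 20) (.e (nat_lit 114712) (nat_lit 21) (.e (nat_lit 57852) (nat_lit 252) .nil)))))) (.g (nat_lit 0) .nil .nil))))) (.nd (nat_lit 4) (.nd (nat_lit 5) 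
(.lf (nat_lit 154377) (.g (nat_lit 1742) (.e (nat_lit 57409) (nat_lit 12) (.e (nat_lit 336211) (nat_lit 13) (.e (nat_lit 393233) (nat_lit 17) (.e (nat_lit 7591) (nat_lit 407) (.e (nat_lit 73731) (nat_lit 0) (.e (nat_lit 7265) (nat_lit 384) .nil)))))) (.g (nat_lit 4) .nil .nil))) 
(.lf (nat_lit 154409) (.g (nat_lit 2303) (.e (nat_lit 57409) (nat_lit 12) (.e (nat_lit 336211) (nat_lit 13) (.e (nat_lit 393269) (nat_lit 23) (.e (nat_lit 426446) (nat_lit 20) (.e (nat_lit 114712) (nat_lit 21) (.e (nat_lit 57854) (nat_lit 252) .nil)))))) (.g (nat_lit 6) .nil .nil)))) (.nd (nat_lit 5) 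
(.lf (nat_lit 154393) (.g (nat_lit 1736) (.e (nat_lit 57409) (nat_lit 12) (.e (nat_lit 336211) (nat_lit 13) (.e (nat_lit 393267) (nat_lit 23) (.e (nat_lit 426446) (nat_lit 20) (.e (nat_lit 114710) (nat_lit 21) (.e (nat_lit 57853) (nat_lit 252) .nil)))))) (.g (nat_lit 4) .nil .nil))) 
(.lf (nat_lit 154425) (.g (nat_lit 2353) (.e (nat_lit 57409) (nat_lit 12) (.e (nat_lit 336211) (nat_lit 13) (.e (nat_lit 393271) (nat_lit 23) (.e (nat_lit 426448) (nat_lit 20) (.e (nat_lit 114710) (nat_lit 21) (.e (nat_lit 57846) (nat_lit 252) .nil)))))) (.g (nat_lit 4) .nil .nil)))))) (.nd (nat_lit 3) (.nd (nat_lit 4) (.nd (nat_lit 5) 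
(.lf (nat_lit 154373) (.g (nat_lit 1525) (.e (nat_lit 57409) (nat_lit 12) (.e (nat_lit 336211) (nat_lit 13) (.e (nat_lit 393232) (nat_lit 17) (.e (nat_lit 7593) (nat_lit 407) (.e (nat_lit 73731) (nat_lit 0) .nil))))) .nil)) 
(.lf (nat_lit 154405) (.g (nat_lit 2218) (.e (nat_lit 57409) (nat_lit 12) (.e (nat_lit 336211) (nat_lit 13) (.e (nat_lit 393268) (nat_lit 23) (.e (nat_lit 426449) (nat_lit 20) (.e (nat_lit 114710) (nat_lit 21) (.e (nat_lit 57854) (nat_lit 252) .nil)))))) (.g (nat_lit 5) .nil .nil)))) (.nd (nat_lit 5) 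
(.lf (nat_lit 154389) (.g (nat_lit 2267) (.e (nat_lit 57409) (nat_lit 12) (.e (nat_lit 336211) (nat_lit 13) (.e (nat_lit 393234) (nat_lit 17) (.e (nat_lit 7593) (nat_lit 407) (.e (nat_lit 73730) (nat_lit 0) (.e (nat_lit 7263) (nat_lit 384) .nil)))))) (.g (nat_lit 4) .nil .nil))) 
(.lf (nat_lit 154421) (.g (nat_lit 3126) (.e (nat_lit 57409) (nat_lit 12) (.e (nat_lit 336211) (nat_lit 13) (.e (nat_lit 393271) (nat_lit 23) (.e (nat_lit 426446) (nat_lit 20) (.e (nat_lit 114710) (nat_lit 21) (.e (nat_lit 57852) (nat_lit 252) .nil)))))) (.g (nat_lit 6) .nil .nil))))) (.nd (nat_lit 4) (.nd (nat_lit 5) 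
(.lf (nat_lit 154381) (.g (nat_lit 1988) (.e (nat_lit 57409) (nat_lit 12) (.e (nat_lit 336211) (nat_lit 13) (.e (nat_lit 393234) (nat_lit 17) (.e (nat_lit 7591) (nat_lit 407) (.e (nat_lit 73729) (nat_lit 0) (.e (nat_lit 7261) (nat_lit 384) .nil)))))) (.g (nat_lit 4) .nil .nil))) 
(.lf (nat_lit 154413) (.g (nat_lit 2429) (.e (nat_lit 57409) (nat_lit 12) (.e (nat_lit 336211) (nat_lit 13) (.e (nat_lit 393270) (nat_lit 23) (.e (nat_lit 426446) (nat_lit 20) (.e (nat_lit 114712) (nat_lit 21) (.e (nat_lit 57854) (nat_lit 252) .nil)))))) (.g (nat_lit 6) .nil .nil)))) (.nd (nat_lit 5) 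
(.lf (nat_lit 154397) (.g (nat_lit 2046) (.e (nat_lit 57409) (nat_lit 12) (.e (nat_lit 336211) (nat_lit 13) (.e (nat_lit 393267) (nat_lit 23) (.e (nat_lit 426448) (nat_lit 20) (.e (nat_lit 114710) (nat_lit 21) (.e (nat_lit 57854) (nat_lit 252) .nil)))))) (.g (nat_lit 4) .nil .nil))) 
(.lf (nat_lit 154429) (.g (nat_lit 2133) (.e (nat_lit 57409) (nat_lit 12) (.e (nat_lit 336211) (nat_lit 13) (.e (nat_lit 393271) (nat_lit 23) (.e (nat_lit 426448) (nat_lit 20) (.e (nat_lit 114711) (nat_lit 21) (.e (nat_lit 57846) (nat_lit 252) .nil)))))) (.g (nat_lit 4) .nil .nil))))))) (.nd (nat_lit 2) (.nd (nat_lit 3) (.nd (nat_lit 4) (.nd (nat_lit 5) 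
(.lf (nat_lit 154371) (.g (nat_lit 3036) (.e (nat_lit 57409) (nat_lit 12) (.e (nat_lit 336211) (nat_lit 13) (.e (nat_lit 393232) (nat_lit 17) (.e (nat_lit 7593) (nat_lit 407) (.e (nat_lit 73729) (nat_lit 0) (.e (nat_lit 7263) (nat_lit 384) .nil)))))) (.g (nat_lit 6) .nil .nil))) 
(.lf (nat_lit 154403) (.g (nat_lit 1929) (.e (nat_lit 57409) (nat_lit 12) (.e (nat_lit 336211) (nat_lit 13) (.e (nat_lit 393268) (nat_lit 23) (.e (nat_lit 426448) (nat_lit 20) (.e (nat_lit 114711) (nat_lit 21) (.e (nat_lit 57853) (nat_lit 252) .nil)))))) (.g (nat_lit 4) .nil .nil)))) (.nd (nat_lit 5) 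
(.lf (nat_lit 154387) (.g (nat_lit 2081) (.e (nat_lit 57409) (nat_lit 12) (.e (nat_lit 336211) (nat_lit 13) (.e (nat_lit 393234) (nat_lit 17) (.e (nat_lit 7593) (nat_lit 407) (.e (nat_lit 73729) (nat_lit 0) (.e (nat_lit 7261) (nat_lit 384) .nil)))))) (.g (nat_lit 4) .nil .nil))) 
(.lf (nat_lit 154419) (.g (nat_lit 916) (.e (nat_lit 57409) (nat_lit 12) (.e (nat_lit 336211) (nat_lit 13) (.e (nat_lit 393271) (nat_lit 23) (.e (nat_lit 426354) (nat_lit 15) .nil)))) .nil)))) (.nd (nat_lit 4) (.nd (nat_lit 5) 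
(.lf (nat_lit 154379) (.g (nat_lit 1569) (.e (nat_lit 57409) (nat_lit 12) (.e (nat_lit 336211) (nat_lit 13) (.e (nat_lit 393233) (nat_lit 17) (.e (nat_lit 7593) (nat_lit 407) (.e (nat_lit 73730) (nat_lit 0) (.e (nat_lit 7261) (nat_lit 384) .nil)))))) (.g (nat_lit 4) .nil .nil))) 
(.lf (nat_lit 154411) (.g (nat_lit 2659) (.e (nat_lit 57409) (nat_lit 12) (.e (nat_lit 336211) (nat_lit 13) (.e (nat_lit 393270) (nat_lit 23) (.e (nat_lit 426446) (nat_lit 20) (.e (nat_lit 114710) (nat_lit 21) (.e (nat_lit 57854) (nat_lit 252) .nil)))))) (.g (nat_lit 6) .nil .nil)))) (.nd (nat_lit 5) 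
(.lf (nat_lit 154395) (.g (nat_lit 2941) (.e (nat_lit 57409) (nat_lit 12) (.e (nat_lit 336211) (nat_lit 13) (.e (nat_lit 393267) (nat_lit 23) (.e (nat_lit 426446) (nat_lit 20) (.e (nat_lit 114711) (nat_lit 21) (.e (nat_lit 57847) (nat_lit 252) .nil)))))) (.g (nat_lit 6) .nil .nil))) 
(.lf (nat_lit 154427) (.g (nat_lit 2020) (.e (nat_lit 57409) (nat_lit 12) (.e (nat_lit 336211) (nat_lit 13) (.e (nat_lit 393271) (nat_lit 23) (.e (nat_lit 426448) (nat_lit 20) (.e (nat_lit 114710) (nat_lit 21) (.e (nat_lit 57848) (nat_lit 252) .nil)))))) (.g (nat_lit 4) .nil .nil)))))) (.nd (nat_lit 3) (.nd (nat_lit 4) (.nd (nat_lit 5) 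
(.lf (nat_lit 154375) (.g (nat_lit 346) (.e (nat_lit 57409) (nat_lit 12) (.e (nat_lit 336211) (nat_lit 13) (.e (nat_lit 393233) (nat_lit 17) .nil))) .nil)) 
(.lf (nat_lit 154407) (.g (nat_lit 2503) (.e (nat_lit 57409) (nat_lit 12) (.e (nat_lit 336211) (nat_lit 13) (.e (nat_lit 393269) (nat_lit 23) (.e (nat_lit 426446) (nat_lit 20) (.e (nat_lit 114710) (nat_lit 21) (.e (nat_lit 57852) (nat_lit 252) .nil)))))) (.g (nat_lit 6) .nil .nil)))) (.nd (nat_lit 5) 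
(.lf (nat_lit 154391) (.g (nat_lit 1651) (.e (nat_lit 57409) (nat_lit 12) (.e (nat_lit 336211) (nat_lit 13) (.e (nat_lit 393266) (nat_lit 23) (.e (nat_lit 426448) (nat_lit 20) (.e (nat_lit 114710) (nat_lit 21) .nil))))) .nil)) 
(.lf (nat_lit 154423) (.g (nat_lit 2998) (.e (nat_lit 57409) (nat_lit 12) (.e (nat_lit 336211) (nat_lit 13) (.e (nat_lit 393271) (nat_lit 23) (.e (nat_lit 426446) (nat_lit 20) (.e (nat_lit 114710) (nat_lit 21) (.e (nat_lit 57854) (nat_lit 252) .nil)))))) (.g (nat_lit 5) .nil .nil))))) (.nd (nat_lit 4) (.nd (nat_lit 5) 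
(.lf (nat_lit 154383) (.g (nat_lit 1796) (.e (nat_lit 57409) (nat_lit 12) (.e (nat_lit 336211) (nat_lit 13) (.e (nat_lit 393234) (nat_lit 17) (.e (nat_lit 7591) (nat_lit 407) (.e (nat_lit 73730) (nat_lit 0) .nil))))) .nil)) 
(.lf (nat_lit 154415) (.g (nat_lit 2409) (.e (nat_lit 57409) (nat_lit 12) (.e (nat_lit 336211) (nat_lit 13) (.e (nat_lit 393270) (nat_lit 23) (.e (nat_lit 426448) (nat_lit 20) (.e (nat_lit 114710) (nat_lit 21) (.e (nat_lit 57853) (nat_lit 252) .nil)))))) (.g (nat_lit 5) .nil .nil)))) (.nd (nat_lit 5) 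
(.lf (nat_lit 154399) (.g (nat_lit 2215) (.e (nat_lit 57409) (nat_lit 12) (.e (nat_lit 336211) (nat_lit 13) (.e (nat_lit 393268) (nat_lit 23) (.e (nat_lit 426448) (nat_lit 20) (.e (nat_lit 114710) (nat_lit 21) (.e (nat_lit 57846) (nat_lit 252) .nil)))))) (.g (nat_lit 4) .nil .nil))) 
(.lf (nat_lit 154431) (.g (nat_lit 1923) (.e (nat_lit 57409) (nat_lit 12) (.e (nat_lit 336211) (nat_lit 13) (.e (nat_lit 393271) (nat_lit 23) (.e (nat_lit 426448) (nat_lit 20) (.e (nat_lit 114711) (nat_lit 21) (.e (nat_lit 57853) (nat_lit 252) .nil)))))) (.g (nat_lit 4) .nil .nil)))))))))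

noncomputable def tv2060 : DT := (.nd (nat_lit 0) (.nd (nat_lit 1) (.nd (nat_lit 2) (.nd (nat_lit 3) (.nd (nat_lit 4) (.nd (nat_lit 5) 
(.lf (nat_lit 154432) (.g (nat_lit 3044) (.e (nat_lit 57409) (nat_lit 12) (.e (nat_lit 336211) (nat_lit 13) (.e (nat_lit 393271) (nat_lit 23) (.e (nat_lit 426448) (nat_lit 20) (.e (nat_lit 114712) (nat_lit 21) (.e (nat_lit 57852) (nat_lit 252) .nil)))))) (.g (nat_lit 0) .nil .nil))) 
(.lf (nat_lit 154464) (.g (nat_lit 2304) (.e (nat_lit 57409) (nat_lit 12) (.e (nat_lit 336211) (nat_lit 13) (.e (nat_lit 393291) (nat_lit 26) (.e (nat_lit 475219) (nat_lit 44) (.e (nat_lit 737315) (nat_lit 12) (.e (nat_lit 8424) (nat_lit 134) .nil)))))) (.g (nat_lit 4) .nil .nil)))) (.nd (nat_lit 5) 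
(.lf (nat_lit 154448) (.g (nat_lit 3394) (.e (nat_lit 57409) (nat_lit 12) (.e (nat_lit 336211) (nat_lit 13) (.e (nat_lit 393273) (nat_lit 23) (.e (nat_lit 426446) (nat_lit 20) (.e (nat_lit 114711) (nat_lit 21) (.e (nat_lit 57847) (nat_lit 252) .nil)))))) (.g (nat_lit 6) .nil .nil))) 
(.lf (nat_lit 154480) (.g (nat_lit 1958) (.e (nat_lit 57409) (nat_lit 12) (.e (nat_lit 336211) (nat_lit 13) (.e (nat_lit 393295) (nat_lit 26) (.e (nat_lit 475212) (nat_lit 42) (.e (nat_lit 720930) (nat_lit 21) (.e (nat_lit 57852) (nat_lit 252) .nil)))))) (.g (nat_lit 4) .nil .nil))))) (.nd (nat_lit 4) (.nd (nat_lit 5) 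
(.lf (nat_lit 154440) (.g (nat_lit 2053) (.e (nat_lit 57409) (nat_lit 12) (.e (nat_lit 336211) (nat_lit 13) (.e (nat_lit 393272) (nat_lit 23) (.e (nat_lit 426446) (nat_lit 20) (.e (nat_lit 114712) (nat_lit 21) (.e (nat_lit 57853) (nat_lit 252) .nil)))))) (.g (nat_lit 5) .nil .nil))) 
(.lf (nat_lit 154472) (.g (nat_lit 2314) (.e (nat_lit 57409) (nat_lit 12) (.e (nat_lit 336211) (nat_lit 13) (.e (nat_lit 393294) (nat_lit 26) (.e (nat_lit 475212) (nat_lit 42) (.e (nat_lit 720931) (nat_lit 21) (.e (nat_lit 57852) (nat_lit 252) .nil)))))) (.g (nat_lit 4) .nil .nil)))) (.nd (nat_lit 5) 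
(.lf (nat_lit 154456) (.g (nat_lit 1942) (.e (nat_lit 57409) (nat_lit 12) (.e (nat_lit 336211) (nat_lit 13) (.e (nat_lit 393273) (nat_lit 23) (.e (nat_lit 426448) (nat_lit 20) (.e (nat_lit 114712) (nat_lit 21) (.e (nat_lit 57853) (nat_lit 252) .nil)))))) (.g (nat_lit 4) .nil .nil))) 
(.lf (nat_lit 154488) (.g (nat_lit 2204) (.e (nat_lit 57409) (nat_lit 12) (.e (nat_lit 336211) (nat_lit 13) (.e (nat_lit 393295) (nat_lit 26) (.e (nat_lit 475214) (nat_lit 42) (.e (nat_lit 720934) (nat_lit 21) .nil))))) .nil))))) (.nd (nat_lit 3) (.nd (nat_lit 4) (.nd (nat_lit 5) 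
(.lf (nat_lit 154436) (.g (nat_lit 1470) (.e (nat_lit 57409) (nat_lit 12) (.e (nat_lit 336211) (nat_lit 13) (.e (nat_lit 393271) (nat_lit 23) (.e (nat_lit 433920) (nat_lit 20) .nil)))) .nil)) 
(.lf (nat_lit 154468) (.g (nat_lit 1996) (.e (nat_lit 57409) (nat_lit 12) (.e (nat_lit 336211) (nat_lit 13) (.e (nat_lit 393292) (nat_lit 26) (.e (nat_lit 475214) (nat_lit 42) (.e (nat_lit 720934) (nat_lit 21) (.e (nat_lit 57854) (nat_lit 252) .nil)))))) (.g (nat_lit 4) .nil .nil)))) (.nd (nat_lit 5) 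
(.lf (nat_lit 154452) (.g (nat_lit 3135) (.e (nat_lit 57409) (nat_lit 12) (.e (nat_lit 336211) (nat_lit 13) (.e (nat_lit 393273) (nat_lit 23) (.e (nat_lit 426448) (nat_lit 20) (.e (nat_lit 114710) (nat_lit 21) (.e (nat_lit 57847) (nat_lit 252) .nil)))))) (.g (nat_lit 6) .nil .nil))) 
(.lf (nat_lit 154484) (.g (nat_lit 2046) (.e (nat_lit 57409) (nat_lit 12) (.e (nat_lit 336211) (nat_lit 13) (.e (nat_lit 393295) (nat_lit 26) (.e (nat_lit 475212) (nat_lit 42) (.e (nat_lit 720934) (nat_lit 21) (.e (nat_lit 57852) (nat_lit 252) .nil)))))) (.g (nat_lit 4) .nil .nil))))) (.nd (nat_lit 4) (.nd (nat_lit 5) 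
(.lf (nat_lit 154444) (.g (nat_lit 1739) (.e (nat_lit 57409) (nat_lit 12) (.e (nat_lit 336211) (nat_lit 13) (.e (nat_lit 393273) (nat_lit 23) (.e (nat_lit 426364) (nat_lit 15) (.e (nat_lit 2191) (nat_lit 144) .nil))))) .nil)) 
(.lf (nat_lit 154476) (.g (nat_lit 1431) (.e (nat_lit 57409) (nat_lit 12) (.e (nat_lit 336211) (nat_lit 13) (.e (nat_lit 393294) (nat_lit 26) (.e (nat_lit 475213) (nat_lit 42) .nil)))) .nil))) (.nd (nat_lit 5) 
(.lf (nat_lit 154460) (.g (nat_lit 2255) (.e (nat_lit 57409) (nat_lit 12) (.e (nat_lit 336211) (nat_lit 13) (.e (nat_lit 393273) (nat_lit 23) (.e (nat_lit 426449) (nat_lit 20) (.e (nat_lit 114712) (nat_lit 21) (.e (nat_lit 57854) (nat_lit 252) .nil)))))) (.g (nat_lit 4) .nil .nil))) 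
(.lf (nat_lit 154492) (.g (nat_lit 1810) (.e (nat_lit 57409) (nat_lit 12) (.e (nat_lit 336211) (nat_lit 13) (.e (nat_lit 393296) (nat_lit 26) (.e (nat_lit 475212) (nat_lit 42) (.e (nat_lit 720934) (nat_lit 21) (.e (nat_lit 57852) (nat_lit 252) .nil)))))) (.g (nat_lit 4) .nil .nil))))))) (.nd (nat_lit 2) (.nd (nat_lit 3) (.nd (nat_lit 4) (.nd (nat_lit 5) 
(.lf (nat_lit 154434) (.g (nat_lit 2432) (.e (nat_lit 57409) (nat_lit 12) (.e (nat_lit 336211) (nat_lit 13) (.e (nat_lit 393271) (nat_lit 23) (.e (nat_lit 426449) (nat_lit 20) (.e (nat_lit 114711) (nat_lit 21) (.e (nat_lit 57847) (nat_lit 252) .nil)))))) (.g (nat_lit 4) .nil .nil))) 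
(.lf (nat_lit 154466) (.g (nat_lit 1876) (.e (nat_lit 57409) (nat_lit 12) (.e (nat_lit 336211) (nat_lit 13) (.e (nat_lit 393292) (nat_lit 26) (.e (nat_lit 475214) (nat_lit 42) (.e (nat_lit 720932) (nat_lit 21) .nil))))) .nil))) (.nd (nat_lit 5) 
(.lf (nat_lit 154450) (.g (nat_lit 2894) (.e (nat_lit 57409) (nat_lit 12) (.e (nat_lit 336211) (nat_lit 13) (.e (nat_lit 393273) (nat_lit 23) (.e (nat_lit 426446) (nat_lit 20) (.e (nat_lit 114712) (nat_lit 21) (.e (nat_lit 57854) (nat_lit 252) .nil)))))) (.g (nat_lit 6) .nil .nil))) 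
(.lf (nat_lit 154482) (.g (nat_lit 2048) (.e (nat_lit 57409) (nat_lit 12) (.e (nat_lit 336211) (nat_lit 13) (.e (nat_lit 393295) (nat_lit 26) (.e (nat_lit 475212) (nat_lit 42) (.e (nat_lit 720931) (nat_lit 21) (.e (nat_lit 57852) (nat_lit 252) .nil)))))) (.g (nat_lit 4) .nil .nil))))) (.nd (nat_lit 4) (.nd (nat_lit 5) 
(.lf (nat_lit 154442) (.g (nat_lit 3121) (.e (nat_lit 57409) (nat_lit 12) (.e (nat_lit 336211) (nat_lit 13) (.e (nat_lit 393272) (nat_lit 23) (.e (nat_lit 426448) (nat_lit 20) (.e (nat_lit 114710) (nat_lit 21) (.e (nat_lit 57847) (nat_lit 252) .nil)))))) (.g (nat_lit 6) .nil .nil))) 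
(.lf (nat_lit 154474) (.g (nat_lit 2214) (.e (nat_lit 57409) (nat_lit 12) (.e (nat_lit 336211) (nat_lit 13) (.e (nat_lit 393294) (nat_lit 26) (.e (nat_lit 475212) (nat_lit 42) (.e (nat_lit 720934) (nat_lit 21) .nil))))) .nil))) (.nd (nat_lit 5) 
(.lf (nat_lit 154458) (.g (nat_lit 2117) (.e (nat_lit 57409) (nat_lit 12) (.e (nat_lit 336211) (nat_lit 13) (.e (nat_lit 393273) (nat_lit 23) (.e (nat_lit 426449) (nat_lit 20) (.e (nat_lit 114710) (nat_lit 21) (.e (nat_lit 57854) (nat_lit 252) .nil)))))) (.g (nat_lit 4) .nil .nil))) 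
(.lf (nat_lit 154490) (.g (nat_lit 2026) (.e (nat_lit 57409) (nat_lit 12) (.e (nat_lit 336211) (nat_lit 13) (.e (nat_lit 393296) (nat_lit 26) (.e (nat_lit 475212) (nat_lit 42) (.e (nat_lit 720931) (nat_lit 21) (.e (nat_lit 57852) (nat_lit 252) .nil)))))) (.g (nat_lit 4) .nil .nil)))))) (.nd (nat_lit 3) (.nd (nat_lit 4) (.nd (nat_lit 5) 
(.lf (nat_lit 154438) (.g (nat_lit 2757) (.e (nat_lit 57409) (nat_lit 12) (.e (nat_lit 336211) (nat_lit 13) (.e (nat_lit 393272) (nat_lit 23) (.e (nat_lit 426446) (nat_lit 20) (.e (nat_lit 114710) (nat_lit 21) (.e (nat_lit 57854) (nat_lit 252) .nil)))))) (.g (nat_lit 6) .nil .nil))) 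
(.lf (nat_lit 154470) (.g (nat_lit 1724) (.e (nat_lit 57409) (nat_lit 12) (.e (nat_lit 336211) (nat_lit 13) (.e (nat_lit 393293) (nat_lit 26) (.e (nat_lit 475214) (nat_lit 42) (.e (nat_lit 720934) (nat_lit 21) .nil))))) .nil))) (.nd (nat_lit 5) 
(.lf (nat_lit 154454) (.g (nat_lit 1728) (.e (nat_lit 57409) (nat_lit 12) (.e (nat_lit 336211) (nat_lit 13) (.e (nat_lit 393273) (nat_lit 23) (.e (nat_lit 426448) (nat_lit 20) (.e (nat_lit 114711) (nat_lit 21) (.e (nat_lit 57846) (nat_lit 252) .nil)))))) (.g (nat_lit 4) .nil .nil))) 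
(.lf (nat_lit 154486) (.g (nat_lit 2216) (.e (nat_lit 57409) (nat_lit 12) (.e (nat_lit 336211) (nat_lit 13) (.e (nat_lit 393295) (nat_lit 26) (.e (nat_lit 475214) (nat_lit 42) (.e (nat_lit 720930) (nat_lit 21) (.e (nat_lit 57852) (nat_lit 252) .nil)))))) (.g (nat_lit 4) .nil .nil))))) (.nd (nat_lit 4) (.nd (nat_lit 5) 
(.lf (nat_lit 154446) (.g (nat_lit 3246) (.e (nat_lit 57409) (nat_lit 12) (.e (nat_lit 336211) (nat_lit 13) (.e (nat_lit 393273) (nat_lit 23) (.e (nat_lit 426446) (nat_lit 20) (.e (nat_lit 114710) (nat_lit 21) (.e (nat_lit 57852) (nat_lit 252) .nil)))))) (.g (nat_lit 0) .nil .nil))) 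
(.lf (nat_lit 154478) (.g (nat_lit 3661) (.e (nat_lit 57409) (nat_lit 12) (.e (nat_lit 336211) (nat_lit 13) (.e (nat_lit 393294) (nat_lit 26) (.e (nat_lit 475214) (nat_lit 42) (.e (nat_lit 720929) (nat_lit 21) (.e (nat_lit 57847) (nat_lit 252) .nil)))))) (.g (nat_lit 6) .nil .nil)))) (.nd (nat_lit 5) 
(.lf (nat_lit 154462) (.g (nat_lit 818) (.e (nat_lit 57409) (nat_lit 12) (.e (nat_lit 336211) (nat_lit 13) (.e (nat_lit 393291) (nat_lit 26) (.e (nat_lit 475214) (nat_lit 42) .nil)))) .nil)) 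
(.lf (nat_lit 154494) (.g (nat_lit 1398) (.e (nat_lit 57409) (nat_lit 12) (.e (nat_lit 336211) (nat_lit 13) (.e (nat_lit 393298) (nat_lit 27) (.e (nat_lit 491560) (nat_lit 10) .nil)))) .nil))))))) (.nd (nat_lit 1) (.nd (nat_lit 2) (.nd (nat_lit 3) (.nd (nat_lit 4) (.nd (nat_lit 5) 
(.lf (nat_lit 154433) (.g (nat_lit 2251) (.e (nat_lit 57409) (nat_lit 12) (.e (nat_lit 336211) (nat_lit 13) (.e (nat_lit 393271) (nat_lit 23) (.e (nat_lit 426449) (nat_lit 20) (.e (nat_lit 114710) (nat_lit 21) .nil))))) .nil)) 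
(.lf (nat_lit 154465) (.g (nat_lit 2751) (.e (nat_lit 57409) (nat_lit 12) (.e (nat_lit 336211) (nat_lit 13) (.e (nat_lit 393292) (nat_lit 26) (.e (nat_lit 475214) (nat_lit 42) (.e (nat_lit 720931) (nat_lit 21) (.e (nat_lit 57852) (nat_lit 252) .nil)))))) (.g (nat_lit 0) .nil .nil)))) (.nd (nat_lit 5) 
(.lf (nat_lit 154449) (.g (nat_lit 2989) (.e (nat_lit 57409) (nat_lit 12) (.e (nat_lit 336211) (nat_lit 13) (.e (nat_lit 393273) (nat_lit 23) (.e (nat_lit 426446) (nat_lit 20) (.e (nat_lit 114712) (nat_lit 21) (.e (nat_lit 57852) (nat_lit 252) .nil)))))) (.g (nat_lit 0) .nil .nil))) 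
(.lf (nat_lit 154481) (.g (nat_lit 2086) (.e (nat_lit 57409) (nat_lit 12) (.e (nat_lit 336211) (nat_lit 13) (.e (nat_lit 393295) (nat_lit 26) (.e (nat_lit 475212) (nat_lit 42) (.e (nat_lit 720930) (nat_lit 21) (.e (nat_lit 57854) (nat_lit 252) .nil)))))) (.g (nat_lit 4) .nil .nil))))) (.nd (nat_lit 4) (.nd (nat_lit 5) 
(.lf (nat_lit 154441) (.g (nat_lit 2538) (.e (nat_lit 57409) (nat_lit 12) (.e (nat_lit 336211) (nat_lit 13) (.e (nat_lit 393272) (nat_lit 23) (.e (nat_lit 426446) (nat_lit 20) (.e (nat_lit 114712) (nat_lit 21) (.e (nat_lit 57854) (nat_lit 252) .nil)))))) (.g (nat_lit 6) .nil .nil))) 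
(.lf (nat_lit 154473) (.g (nat_lit 2185) (.e (nat_lit 57409) (nat_lit 12) (.e (nat_lit 336211) (nat_lit 13) (.e (nat_lit 393294) (nat_lit 26) (.e (nat_lit 475212) (nat_lit 42) (.e (nat_lit 720931) (nat_lit 21) (.e (nat_lit 57854) (nat_lit 252) .nil)))))) (.g (nat_lit 4) .nil .nil)))) (.nd (nat_lit 5) 
(.lf (nat_lit 154457) (.g (nat_lit 2015) (.e (nat_lit 57409) (nat_lit 12) (.e (nat_lit 336211) (nat_lit 13) (.e (nat_lit 393273) (nat_lit 23) (.e (nat_lit 426449) (nat_lit 20) (.e (nat_lit 114710) (nat_lit 21) (.e (nat_lit 57852) (nat_lit 252) .nil)))))) (.g (nat_lit 4) .nil .nil))) 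
(.lf (nat_lit 154489) (.g (nat_lit 1854) (.e (nat_lit 57409) (nat_lit 12) (.e (nat_lit 336211) (nat_lit 13) (.e (nat_lit 393296) (nat_lit 26) (.e (nat_lit 475212) (nat_lit 42) (.e (nat_lit 720930) (nat_lit 21) .nil))))) .nil))))) (.nd (nat_lit 3) (.nd (nat_lit 4) (.nd (nat_lit 5) 
(.lf (nat_lit 154437) (.g (nat_lit 2849) (.e (nat_lit 57409) (nat_lit 12) (.e (nat_lit 336211) (nat_lit 13) (.e (nat_lit 393272) (nat_lit 23) (.e (nat_lit 426446) (nat_lit 20) (.e (nat_lit 114710) (nat_lit 21) (.e (nat_lit 57847) (nat_lit 252) .nil)))))) (.g (nat_lit 6) .nil .nil))) 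
(.lf (nat_lit 154469) (.g (nat_lit 2760) (.e (nat_lit 57409) (nat_lit 12) (.e (nat_lit 336211) (nat_lit 13) (.e (nat_lit 393293) (nat_lit 26) (.e (nat_lit 475214) (nat_lit 42) (.e (nat_lit 720931) (nat_lit 21) (.e (nat_lit 57852) (nat_lit 252) .nil)))))) (.g (nat_lit 0) .nil .nil)))) (.nd (nat_lit 5) 
(.lf (nat_lit 154453) (.g (nat_lit 1619) (.e (nat_lit 57409) (nat_lit 12) (.e (nat_lit 336211) (nat_lit 13) (.e (nat_lit 393273) (nat_lit 23) (.e (nat_lit 426448) (nat_lit 20) (.e (nat_lit 114710) (nat_lit 21) (.e (nat_lit 57848) (nat_lit 252) .nil)))))) (.g (nat_lit 4) .nil .nil))) 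
(.lf (nat_lit 154485) (.g (nat_lit 1964) (.e (nat_lit 57409) (nat_lit 12) (.e (nat_lit 336211) (nat_lit 13) (.e (nat_lit 393295) (nat_lit 26) (.e (nat_lit 475212) (nat_lit 42) (.e (nat_lit 720934) (nat_lit 21) (.e (nat_lit 57854) (nat_lit 252) .nil)))))) (.g (nat_lit 4) .nil .nil))))) (.nd (nat_lit 4) (.nd (nat_lit 5) 
(.lf (nat_lit 154445) (.g (nat_lit 3208) (.e (nat_lit 57409) (nat_lit 12) (.e (nat_lit 336211) (nat_lit 13) (.e (nat_lit 393273) (nat_lit 23) (.e (nat_lit 426446) (nat_lit 20) (.e (nat_lit 114710) (nat_lit 21) (.e (nat_lit 57847) (nat_lit 252) .nil)))))) (.g (nat_lit 6) .nil .nil))) 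
(.lf (nat_lit 154477) (.g (nat_lit 3165) (.e (nat_lit 57409) (nat_lit 12) (.e (nat_lit 336211) (nat_lit 13) (.e (nat_lit 393294) (nat_lit 26) (.e (nat_lit 475213) (nat_lit 42) (.e (nat_lit 720931) (nat_lit 21) (.e (nat_lit 57852) (nat_lit 252) .nil)))))) (.g (nat_lit 6) .nil .nil)))) (.nd (nat_lit 5) 
(.lf (nat_lit 154461) (.g (nat_lit 1809) (.e (nat_lit 57409) (nat_lit 12) (.e (nat_lit 336211) (nat_lit 13) (.e (nat_lit 393290) (nat_lit 26) (.e (nat_lit 475212) (nat_lit 42) (.e (nat_lit 720934) (nat_lit 21) .nil))))) .nil)) 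
(.lf (nat_lit 154493) (.g (nat_lit 2072) (.e (nat_lit 57409) (nat_lit 12) (.e (nat_lit 336211) (nat_lit 13) (.e (nat_lit 393296) (nat_lit 26) (.e (nat_lit 475214) (nat_lit 42) (.e (nat_lit 720934) (nat_lit 21) .nil))))) .nil)))))) (.nd (nat_lit 2) (.nd (nat_lit 3) (.nd (nat_lit 4) (.nd (nat_lit 5) 
(.lf (nat_lit 154435) (.g (nat_lit 2141) (.e (nat_lit 57409) (nat_lit 12) (.e (nat_lit 336211) (nat_lit 13) (.e (nat_lit 393271) (nat_lit 23) (.e (nat_lit 426449) (nat_lit 20) (.e (nat_lit 114712) (nat_lit 21) .nil))))) .nil)) 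
(.lf (nat_lit 154467) (.g (nat_lit 2129) (.e (nat_lit 57409) (nat_lit 12) (.e (nat_lit 336211) (nat_lit 13) (.e (nat_lit 393292) (nat_lit 26) (.e (nat_lit 475214) (nat_lit 42) (.e (nat_lit 720934) (nat_lit 21) (.e (nat_lit 57852) (nat_lit 252) .nil)))))) (.g (nat_lit 4) .nil .nil)))) (.nd (nat_lit 5) 
(.lf (nat_lit 154451) (.g (nat_lit 1971) (.e (nat_lit 57409) (nat_lit 12) (.e (nat_lit 336211) (nat_lit 13) (.e (nat_lit 393273) (nat_lit 23) (.e (nat_lit 426448) (nat_lit 20) (.e (nat_lit 114710) (nat_lit 21) (.e (nat_lit 57846) (nat_lit 252) .nil)))))) (.g (nat_lit 4) .nil .nil))) 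
(.lf (nat_lit 154483) (.g (nat_lit 2084) (.e (nat_lit 57409) (nat_lit 12) (.e (nat_lit 336211) (nat_lit 13) (.e (nat_lit 393295) (nat_lit 26) (.e (nat_lit 475212) (nat_lit 42) (.e (nat_lit 720931) (nat_lit 21) (.e (nat_lit 57854) (nat_lit 252) .nil)))))) (.g (nat_lit 4) .nil .nil))))) (.nd (nat_lit 4) (.nd (nat_lit 5) 
(.lf (nat_lit 154443) (.g (nat_lit 1742) (.e (nat_lit 57409) (nat_lit 12) (.e (nat_lit 336211) (nat_lit 13) (.e (nat_lit 393272) (nat_lit 23) (.e (nat_lit 426448) (nat_lit 20) (.e (nat_lit 114711) (nat_lit 21) (.e (nat_lit 57846) (nat_lit 252) .nil)))))) (.g (nat_lit 4) .nil .nil))) 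
(.lf (nat_lit 154475) (.g (nat_lit 2374) (.e (nat_lit 57409) (nat_lit 12) (.e (nat_lit 336211) (nat_lit 13) (.e (nat_lit 393294) (nat_lit 26) (.e (nat_lit 475212) (nat_lit 42) (.e (nat_lit 720934) (nat_lit 21) (.e (nat_lit 57852) (nat_lit 252) .nil)))))) (.g (nat_lit 4) .nil .nil)))) (.nd (nat_lit 5) 
(.lf (nat_lit 154459) (.g (nat_lit 2404) (.e (nat_lit 57409) (nat_lit 12) (.e (nat_lit 336211) (nat_lit 13) (.e (nat_lit 393273) (nat_lit 23) (.e (nat_lit 426449) (nat_lit 20) (.e (nat_lit 114711) (nat_lit 21) (.e (nat_lit 57847) (nat_lit 252) .nil)))))) (.g (nat_lit 4) .nil .nil))) 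
(.lf (nat_lit 154491) (.g (nat_lit 1893) (.e (nat_lit 57409) (nat_lit 12) (.e (nat_lit 336211) (nat_lit 13) (.e (nat_lit 393296) (nat_lit 26) (.e (nat_lit 475212) (nat_lit 42) (.e (nat_lit 720931) (nat_lit 21) (.e (nat_lit 57854) (nat_lit 252) .nil)))))) (.g (nat_lit 4) .nil .nil)))))) (.nd (nat_lit 3) (.nd (nat_lit 4) (.nd (nat_lit 5) 
(.lf (nat_lit 154439) (.g (nat_lit 2990) (.e (nat_lit 57409) (nat_lit 12) (.e (nat_lit 336211) (nat_lit 13) (.e (nat_lit 393272) (nat_lit 23) (.e (nat_lit 426446) (nat_lit 20) (.e (nat_lit 114711) (nat_lit 21) (.e (nat_lit 57847) (nat_lit 252) .nil)))))) (.g (nat_lit 6) .nil .nil))) 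
(.lf (nat_lit 154471) (.g (nat_lit 2202) (.e (nat_lit 57409) (nat_lit 12) (.e (nat_lit 336211) (nat_lit 13) (.e (nat_lit 393294) (nat_lit 26) (.e (nat_lit 475212) (nat_lit 42) (.e (nat_lit 720930) (nat_lit 21) .nil))))) .nil))) (.nd (nat_lit 5) 
(.lf (nat_lit 154455) (.g (nat_lit 3320) (.e (nat_lit 57409) (nat_lit 12) (.e (nat_lit 336211) (nat_lit 13) (.e (nat_lit 393273) (nat_lit 23) (.e (nat_lit 426448) (nat_lit 20) (.e (nat_lit 114711) (nat_lit 21) (.e (nat_lit 57847) (nat_lit 252) .nil)))))) (.g (nat_lit 6) .nil .nil))) 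
(.lf (nat_lit 154487) (.g (nat_lit 2377) (.e (nat_lit 57409) (nat_lit 12) (.e (nat_lit 336211) (nat_lit 13) (.e (nat_lit 393295) (nat_lit 26) (.e (nat_lit 475214) (nat_lit 42) (.e (nat_lit 720930) (nat_lit 21) (.e (nat_lit 57854) (nat_lit 252) .nil)))))) (.g (nat_lit 4) .nil .nil))))) (.nd (nat_lit 4) (.nd (nat_lit 5) 
(.lf (nat_lit 154447) (.g (nat_lit 3125) (.e (nat_lit 57409) (nat_lit 12) (.e (nat_lit 336211) (nat_lit 13) (.e (nat_lit 393273) (nat_lit 23) (.e (nat_lit 426446) (nat_lit 20) (.e (nat_lit 114710) (nat_lit 21) (.e (nat_lit 57854) (nat_lit 252) .nil)))))) (.g (nat_lit 6) .nil .nil))) 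
(.lf (nat_lit 154479) (.g (nat_lit 2244) (.e (nat_lit 57409) (nat_lit 12) (.e (nat_lit 336211) (nat_lit 13) (.e (nat_lit 393294) (nat_lit 26) (.e (nat_lit 475214) (nat_lit 42) (.e (nat_lit 720934) (nat_lit 21) (.e (nat_lit 57854) (nat_lit 252) .nil)))))) (.g (nat_lit 4) .nil .nil)))) (.nd (nat_lit 5) 
(.lf (nat_lit 154463) (.g (nat_lit 1952) (.e (nat_lit 57409) (nat_lit 12) (.e (nat_lit 336211) (nat_lit 13) (.e (nat_lit 393291) (nat_lit 26) (.e (nat_lit 475214) (nat_lit 42) (.e (nat_lit 720933) (nat_lit 21) (.e (nat_lit 57847) (nat_lit 252) .nil)))))) (.g (nat_lit 4) .nil .nil))) 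
(.lf (nat_lit 154495) (.g (nat_lit 2180) (.e (nat_lit 57409) (nat_lit 12) (.e (nat_lit 336211) (nat_lit 13) (.e (nat_lit 393299) (nat_lit 27) (.e (nat_lit 491558) (nat_lit 10) (.e (nat_lit 344090) (nat_lit 18) (.e (nat_lit 7263) (nat_lit 384) .nil)))))) (.g (nat_lit 4) .nil .nil)))))))))


end

end Pool.Agent.Lib.MP_5854e1_co.Cz
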