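import Pool.Agent.Lib.MP_5854e1_co.DtD

/-!
# Windows and cells of the rings
-/

set_option autoImplicit false
set_option maxRecDepth 100000
set_option deprecated.oldSectionVars true

namespace Pool.Agent.Lib.MP_5854e1_co.Cz

open Pool.Agent.Lib.MP_5854e1_co

noncomputable section

noncomputable def tv2061 : DT := (.nd (nat_lit 0) (.nd (nat_lit 1) (.nd (nat_lit 2) (.nd (nat_lit 3) (.nd (nat_lit 4) (.nd (nat_lit 5) 
(.lf (nat_lit 154496) (.g (nat_lit 2132) (.e (nat_lit 57409) (nat_lit 12) (.e (nat_lit 336211) (nat_lit 13) (.e (nat_lit 393299) (nat_lit 27) (.e (nat_lit 491558) (nat_lit 10) (.e (nat_lit 344090) (nat_lit 18) (.e (nat_lit 7265) (nat_lit 384) .nil)))))) (.g (nat_lit 4) .nil .nil))) 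
(.lf (nat_lit 154528) (.g (nat_lit 2746) (.e (nat_lit 57409) (nat_lit 12) (.e (nat_lit 336211) (nat_lit 13) (.e (nat_lit 393301) (nat_lit 27) (.e (nat_lit 491558) (nat_lit 10) (.e (nat_lit 344091) (nat_lit 18) (.e (nat_lit 7261) (nat_lit 384) .nil)))))) (.g (nat_lit 4) .nil .nil)))) (.nd (nat_lit 5) 
(.lf (nat_lit 154512) (.g (nat_lit 1961) (.e (nat_lit 57409) (nat_lit 12) (.e (nat_lit 336211) (nat_lit 13) (.e (nat_lit 393300) (nat_lit 27) (.e (nat_lit 491558) (nat_lit 10) (.e (nat_lit 344091) (nat_lit 18) (.e (nat_lit 7261) (nat_lit 384) .nil)))))) (.g (nat_lit 4) .nil .nil))) 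
(.lf (nat_lit 154544) (.g (nat_lit 3233) (.e (nat_lit 57409) (nat_lit 12) (.e (nat_lit 336211) (nat_lit 13) (.e (nat_lit 393301) (nat_lit 27) (.e (nat_lit 491560) (nat_lit 10) (.e (nat_lit 344096) (nat_lit 18) (.e (nat_lit 7265) (nat_lit 384) .nil)))))) (.g (nat_lit 4) .nil .nil))))) (.nd (nat_lit 4) (.nd (nat_lit 5) 
(.lf (nat_lit 154504) (.g (nat_lit 2256) (.e (nat_lit 57409) (nat_lit 12) (.e (nat_lit 336211) (nat_lit 13) (.e (nat_lit 393299) (nat_lit 27) (.e (nat_lit 491560) (nat_lit 10) (.e (nat_lit 344091) (nat_lit 18) (.e (nat_lit 7263) (nat_lit 384) .nil)))))) (.g (nat_lit 4) .nil .nil))) 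
(.lf (nat_lit 154536) (.g (nat_lit 3189) (.e (nat_lit 57409) (nat_lit 12) (.e (nat_lit 336211) (nat_lit 13) (.e (nat_lit 393301) (nat_lit 27) (.e (nat_lit 491560) (nat_lit 10) (.e (nat_lit 344090) (nat_lit 18) (.e (nat_lit 7261) (nat_lit 384) .nil)))))) (.g (nat_lit 4) .nil .nil)))) (.nd (nat_lit 5) 
(.lf (nat_lit 154520) (.g (nat_lit 2155) (.e (nat_lit 57409) (nat_lit 12) (.e (nat_lit 336211) (nat_lit 13) (.e (nat_lit 393300) (nat_lit 27) (.e (nat_lit 491560) (nat_lit 10) (.e (nat_lit 344094) (nat_lit 18) (.e (nat_lit 7265) (nat_lit 384) .nil)))))) (.g (nat_lit 4) .nil .nil))) 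
(.lf (nat_lit 154552) (.g (nat_lit 2762) (.e (nat_lit 57409) (nat_lit 12) (.e (nat_lit 336316) (nat_lit 17) (.e (nat_lit 196666) (nat_lit 13) (.e (nat_lit 65625) (nat_lit 13) (.e (nat_lit 393253) (nat_lit 18) (.e (nat_lit 164183) (nat_lit 154) .nil)))))) (.g (nat_lit 5) .nil .nil)))))) (.nd (nat_lit 3) (.nd (nat_lit 4) (.nd (nat_lit 5) 
(.lf (nat_lit 154500) (.g (nat_lit 2316) (.e (nat_lit 57409) (nat_lit 12) (.e (nat_lit 336211) (nat_lit 13) (.e (nat_lit 393299) (nat_lit 27) (.e (nat_lit 491558) (nat_lit 10) (.e (nat_lit 344096) (nat_lit 18) (.e (nat_lit 7261) (nat_lit 384) .nil)))))) (.g (nat_lit 4) .nil .nil))) 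
(.lf (nat_lit 154532) (.g (nat_lit 2906) (.e (nat_lit 57409) (nat_lit 12) (.e (nat_lit 336211) (nat_lit 13) (.e (nat_lit 393301) (nat_lit 27) (.e (nat_lit 491558) (nat_lit 10) (.e (nat_lit 344096) (nat_lit 18) (.e (nat_lit 7261) (nat_lit 384) .nil)))))) (.g (nat_lit 4) .nil .nil)))) (.nd (nat_lit 5) 
(.lf (nat_lit 154516) (.g (nat_lit 1997) (.e (nat_lit 57409) (nat_lit 12) (.e (nat_lit 336211) (nat_lit 13) (.e (nat_lit 393300) (nat_lit 27) (.e (nat_lit 491560) (nat_lit 10) (.e (nat_lit 344090) (nat_lit 18) (.e (nat_lit 7261) (nat_lit 384) .nil)))))) (.g (nat_lit 4) .nil .nil))) 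
(.lf (nat_lit 154548) (.g (nat_lit 2110) (.e (nat_lit 57409) (nat_lit 12) (.e (nat_lit 336316) (nat_lit 17) (.e (nat_lit 196666) (nat_lit 13) (.e (nat_lit 65617) (nat_lit 10) (.e (nat_lit 344088) (nat_lit 18) .nil))))) .nil)))) (.nd (nat_lit 4) (.nd (nat_lit 5) 
(.lf (nat_lit 154508) (.g (nat_lit 2305) (.e (nat_lit 57409) (nat_lit 12) (.e (nat_lit 336211) (nat_lit 13) (.e (nat_lit 393299) (nat_lit 27) (.e (nat_lit 491560) (nat_lit 10) (.e (nat_lit 344094) (nat_lit 18) (.e (nat_lit 7266) (nat_lit 384) .nil)))))) (.g (nat_lit 4) .nil .nil))) 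
(.lf (nat_lit 154540) (.g (nat_lit 2592) (.e (nat_lit 57409) (nat_lit 12) (.e (nat_lit 336211) (nat_lit 13) (.e (nat_lit 393301) (nat_lit 27) (.e (nat_lit 491560) (nat_lit 10) (.e (nat_lit 344094) (nat_lit 18) (.e (nat_lit 7261) (nat_lit 384) .nil)))))) (.g (nat_lit 4) .nil .nil)))) (.nd (nat_lit 5) 
(.lf (nat_lit 154524) (.g (nat_lit 2473) (.e (nat_lit 57409) (nat_lit 12) (.e (nat_lit 336211) (nat_lit 13) (.e (nat_lit 393301) (nat_lit 27) (.e (nat_lit 491558) (nat_lit 10) (.e (nat_lit 344090) (nat_lit 18) (.e (nat_lit 7261) (nat_lit 384) .nil)))))) (.g (nat_lit 4) .nil .nil))) 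
(.lf (nat_lit 154556) (.g (nat_lit 3170) (.e (nat_lit 57409) (nat_lit 12) (.e (nat_lit 336316) (nat_lit 17) (.e (nat_lit 196666) (nat_lit 13) (.e (nat_lit 65626) (nat_lit 13) (.e (nat_lit 393251) (nat_lit 18) (.e (nat_lit 164183) (nat_lit 154) .nil)))))) (.g (nat_lit 5) .nil .nil))))))) (.nd (nat_lit 2) (.nd (nat_lit 3) (.nd (nat_lit 4) (.nd (nat_lit 5) 
(.lf (nat_lit 154498) (.g (nat_lit 2902) (.e (nat_lit 57409) (nat_lit 12) (.e (nat_lit 336211) (nat_lit 13) (.e (nat_lit 393299) (nat_lit 27) (.e (nat_lit 491558) (nat_lit 10) (.e (nat_lit 344091) (nat_lit 18) (.e (nat_lit 7263) (nat_lit 384) .nil)))))) (.g (nat_lit 5) .nil .nil))) 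
(.lf (nat_lit 154530) (.g (nat_lit 2587) (.e (nat_lit 57409) (nat_lit 12) (.e (nat_lit 336211) (nat_lit 13) (.e (nat_lit 393301) (nat_lit 27) (.e (nat_lit 491558) (nat_lit 10) (.e (nat_lit 344095) (nat_lit 18) (.e (nat_lit 7261) (nat_lit 384) .nil)))))) (.g (nat_lit 4) .nil .nil)))) (.nd (nat_lit 5) 
(.lf (nat_lit 154514) (.g (nat_lit 2063) (.e (nat_lit 57409) (nat_lit 12) (.e (nat_lit 336211) (nat_lit 13) (.e (nat_lit 393300) (nat_lit 27) (.e (nat_lit 491558) (nat_lit 10) (.e (nat_lit 344096) (nat_lit 18) (.e (nat_lit 7261) (nat_lit 384) .nil)))))) (.g (nat_lit 4) .nil .nil))) 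
(.lf (nat_lit 154546) (.g (nat_lit 2704) (.e (nat_lit 57409) (nat_lit 12) (.e (nat_lit 336316) (nat_lit 17) (.e (nat_lit 196666) (nat_lit 13) (.e (nat_lit 65610) (nat_lit 10) (.e (nat_lit 344088) (nat_lit 18) .nil))))) .nil)))) (.nd (nat_lit 4) (.nd (nat_lit 5) 
(.lf (nat_lit 154506) (.g (nat_lit 1876) (.e (nat_lit 57409) (nat_lit 12) (.e (nat_lit 336211) (nat_lit 13) (.e (nat_lit 393299) (nat_lit 27) (.e (nat_lit 491560) (nat_lit 10) (.e (nat_lit 344094) (nat_lit 18) .nil))))) .nil)) 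
(.lf (nat_lit 154538) (.g (nat_lit 2952) (.e (nat_lit 57409) (nat_lit 12) (.e (nat_lit 336211) (nat_lit 13) (.e (nat_lit 393301) (nat_lit 27) (.e (nat_lit 491560) (nat_lit 10) (.e (nat_lit 344091) (nat_lit 18) .nil))))) .nil))) (.nd (nat_lit 5) 
(.lf (nat_lit 154522) (.g (nat_lit 2251) (.e (nat_lit 57409) (nat_lit 12) (.e (nat_lit 336211) (nat_lit 13) (.e (nat_lit 393300) (nat_lit 27) (.e (nat_lit 491560) (nat_lit 10) (.e (nat_lit 344096) (nat_lit 18) (.e (nat_lit 7265) (nat_lit 384) .nil)))))) (.g (nat_lit 4) .nil .nil))) 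
(.lf (nat_lit 154554) (.g (nat_lit 1496) (.e (nat_lit 57409) (nat_lit 12) (.e (nat_lit 336316) (nat_lit 17) (.e (nat_lit 196666) (nat_lit 13) (.e (nat_lit 65626) (nat_lit 13) .nil)))) .nil))))) (.nd (nat_lit 3) (.nd (nat_lit 4) (.nd (nat_lit 5) 
(.lf (nat_lit 154502) (.g (nat_lit 1931) (.e (nat_lit 57409) (nat_lit 12) (.e (nat_lit 336211) (nat_lit 13) (.e (nat_lit 393299) (nat_lit 27) (.e (nat_lit 491560) (nat_lit 10) (.e (nat_lit 344090) (nat_lit 18) (.e (nat_lit 7261) (nat_lit 384) .nil)))))) (.g (nat_lit 4) .nil .nil))) 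
(.lf (nat_lit 154534) (.g (nat_lit 3036) (.e (nat_lit 57409) (nat_lit 12) (.e (nat_lit 336211) (nat_lit 13) (.e (nat_lit 393301) (nat_lit 27) (.e (nat_lit 491559) (nat_lit 10) (.e (nat_lit 344090) (nat_lit 18) .nil))))) .nil))) (.nd (nat_lit 5) 
(.lf (nat_lit 154518) (.g (nat_lit 2038) (.e (nat_lit 57409) (nat_lit 12) (.e (nat_lit 336211) (nat_lit 13) (.e (nat_lit 393300) (nat_lit 27) (.e (nat_lit 491560) (nat_lit 10) (.e (nat_lit 344091) (nat_lit 18) (.e (nat_lit 7265) (nat_lit 384) .nil)))))) (.g (nat_lit 4) .nil .nil))) 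
(.lf (nat_lit 154550) (.g (nat_lit 3942) (.e (nat_lit 57409) (nat_lit 12) (.e (nat_lit 336316) (nat_lit 17) (.e (nat_lit 196666) (nat_lit 13) (.e (nat_lit 65625) (nat_lit 13) (.e (nat_lit 393251) (nat_lit 18) (.e (nat_lit 164179) (nat_lit 154) .nil)))))) (.g (nat_lit 0) .nil .nil))))) (.nd (nat_lit 4) (.nd (nat_lit 5) 
(.lf (nat_lit 154510) (.g (nat_lit 1867) (.e (nat_lit 57409) (nat_lit 12) (.e (nat_lit 336211) (nat_lit 13) (.e (nat_lit 393300) (nat_lit 27) (.e (nat_lit 491558) (nat_lit 10) (.e (nat_lit 344090) (nat_lit 18) (.e (nat_lit 7265) (nat_lit 384) .nil)))))) (.g (nat_lit 4) .nil .nil))) 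
(.lf (nat_lit 154542) (.g (nat_lit 2955) (.e (nat_lit 57409) (nat_lit 12) (.e (nat_lit 336211) (nat_lit 13) (.e (nat_lit 393301) (nat_lit 27) (.e (nat_lit 491560) (nat_lit 10) (.e (nat_lit 344096) (nat_lit 18) .nil))))) .nil))) (.nd (nat_lit 5) 
(.lf (nat_lit 154526) (.g (nat_lit 2645) (.e (nat_lit 57409) (nat_lit 12) (.e (nat_lit 336211) (nat_lit 13) (.e (nat_lit 393301) (nat_lit 27) (.e (nat_lit 491558) (nat_lit 10) (.e (nat_lit 344090) (nat_lit 18) (.e (nat_lit 7265) (nat_lit 384) .nil)))))) (.g (nat_lit 4) .nil .nil))) 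
(.lf (nat_lit 154558) (.g (nat_lit 1840) (.e (nat_lit 57409) (nat_lit 12) (.e (nat_lit 336316) (nat_lit 17) (.e (nat_lit 196666) (nat_lit 13) (.e (nat_lit 65627) (nat_lit 13) (.e (nat_lit 393250) (nat_lit 18) .nil))))) .nil))))))) (.nd (nat_lit 1) (.nd (nat_lit 2) (.nd (nat_lit 3) (.nd (nat_lit 4) (.nd (nat_lit 5) 
(.lf (nat_lit 154497) (.g (nat_lit 2177) (.e (nat_lit 57409) (nat_lit 12) (.e (nat_lit 336211) (nat_lit 13) (.e (nat_lit 393299) (nat_lit 27) (.e (nat_lit 491558) (nat_lit 10) (.e (nat_lit 344091) (nat_lit 18) (.e (nat_lit 7261) (nat_lit 384) .nil)))))) (.g (nat_lit 4) .nil .nil))) 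
(.lf (nat_lit 154529) (.g (nat_lit 3451) (.e (nat_lit 57409) (nat_lit 12) (.e (nat_lit 336211) (nat_lit 13) (.e (nat_lit 393301) (nat_lit 27) (.e (nat_lit 491558) (nat_lit 10) (.e (nat_lit 344091) (nat_lit 18) (.e (nat_lit 7263) (nat_lit 384) .nil)))))) (.g (nat_lit 5) .nil .nil)))) (.nd (nat_lit 5) 
(.lf (nat_lit 154513) (.g (nat_lit 2724) (.e (nat_lit 57409) (nat_lit 12) (.e (nat_lit 336211) (nat_lit 13) (.e (nat_lit 393300) (nat_lit 27) (.e (nat_lit 491558) (nat_lit 10) (.e (nat_lit 344091) (nat_lit 18) (.e (nat_lit 7263) (nat_lit 384) .nil)))))) (.g (nat_lit 5) .nil .nil))) 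
(.lf (nat_lit 154545) (.g (nat_lit 1107) (.e (nat_lit 57409) (nat_lit 12) (.e (nat_lit 336316) (nat_lit 17) (.e (nat_lit 196630) (nat_lit 9) (.e (nat_lit 1573) (nat_lit 110) .nil)))) .nil)))) (.nd (nat_lit 4) (.nd (nat_lit 5) 
(.lf (nat_lit 154505) (.g (nat_lit 1942) (.e (nat_lit 57409) (nat_lit 12) (.e (nat_lit 336211) (nat_lit 13) (.e (nat_lit 393299) (nat_lit 27) (.e (nat_lit 491560) (nat_lit 10) (.e (nat_lit 344091) (nat_lit 18) (.e (nat_lit 7265) (nat_lit 384) .nil)))))) (.g (nat_lit 4) .nil .nil))) 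
(.lf (nat_lit 154537) (.g (nat_lit 4269) (.e (nat_lit 57409) (nat_lit 12) (.e (nat_lit 336211) (nat_lit 13) (.e (nat_lit 393301) (nat_lit 27) (.e (nat_lit 491560) (nat_lit 10) (.e (nat_lit 344090) (nat_lit 18) (.e (nat_lit 7266) (nat_lit 384) .nil)))))) (.g (nat_lit 6) .nil .nil)))) (.nd (nat_lit 5) 
(.lf (nat_lit 154521) (.g (nat_lit 2074) (.e (nat_lit 57409) (nat_lit 12) (.e (nat_lit 336211) (nat_lit 13) (.e (nat_lit 393300) (nat_lit 27) (.e (nat_lit 491560) (nat_lit 10) (.e (nat_lit 344095) (nat_lit 18) (.e (nat_lit 7263) (nat_lit 384) .nil)))))) (.g (nat_lit 4) .nil .nil))) 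
(.lf (nat_lit 154553) (.g (nat_lit 1931) (.e (nat_lit 57409) (nat_lit 12) (.e (nat_lit 336316) (nat_lit 17) (.e (nat_lit 196666) (nat_lit 13) (.e (nat_lit 65625) (nat_lit 13) (.e (nat_lit 393254) (nat_lit 18) (.e (nat_lit 164183) (nat_lit 154) .nil)))))) (.g (nat_lit 4) .nil .nil)))))) (.nd (nat_lit 3) (.nd (nat_lit 4) (.nd (nat_lit 5) 
(.lf (nat_lit 154501) (.g (nat_lit 2751) (.e (nat_lit 57409) (nat_lit 12) (.e (nat_lit 336211) (nat_lit 13) (.e (nat_lit 393299) (nat_lit 27) (.e (nat_lit 491558) (nat_lit 10) (.e (nat_lit 344096) (nat_lit 18) (.e (nat_lit 7263) (nat_lit 384) .nil)))))) (.g (nat_lit 5) .nil .nil))) 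
(.lf (nat_lit 154533) (.g (nat_lit 3320) (.e (nat_lit 57409) (nat_lit 12) (.e (nat_lit 336211) (nat_lit 13) (.e (nat_lit 393301) (nat_lit 27) (.e (nat_lit 491558) (nat_lit 10) (.e (nat_lit 344096) (nat_lit 18) (.e (nat_lit 7263) (nat_lit 384) .nil)))))) (.g (nat_lit 5) .nil .nil)))) (.nd (nat_lit 5) 
(.lf (nat_lit 154517) (.g (nat_lit 2409) (.e (nat_lit 57409) (nat_lit 12) (.e (nat_lit 336211) (nat_lit 13) (.e (nat_lit 393300) (nat_lit 27) (.e (nat_lit 491560) (nat_lit 10) (.e (nat_lit 344090) (nat_lit 18) (.e (nat_lit 7263) (nat_lit 384) .nil)))))) (.g (nat_lit 5) .nil .nil))) 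
(.lf (nat_lit 154549) (.g (nat_lit 1879) (.e (nat_lit 57409) (nat_lit 12) (.e (nat_lit 336316) (nat_lit 17) (.e (nat_lit 196666) (nat_lit 13) (.e (nat_lit 65617) (nat_lit 10) (.e (nat_lit 344095) (nat_lit 18) .nil))))) .nil)))) (.nd (nat_lit 4) (.nd (nat_lit 5) 
(.lf (nat_lit 154509) (.g (nat_lit 1955) (.e (nat_lit 57409) (nat_lit 12) (.e (nat_lit 336211) (nat_lit 13) (.e (nat_lit 393300) (nat_lit 27) (.e (nat_lit 491558) (nat_lit 10) (.e (nat_lit 344090) (nat_lit 18) (.e (nat_lit 7263) (nat_lit 384) .nil)))))) (.g (nat_lit 4) .nil .nil))) 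
(.lf (nat_lit 154541) (.g (nat_lit 3361) (.e (nat_lit 57409) (nat_lit 12) (.e (nat_lit 336211) (nat_lit 13) (.e (nat_lit 393301) (nat_lit 27) (.e (nat_lit 491560) (nat_lit 10) (.e (nat_lit 344095) (nat_lit 18) .nil))))) .nil))) (.nd (nat_lit 5) 
(.lf (nat_lit 154525) (.g (nat_lit 2705) (.e (nat_lit 57409) (nat_lit 12) (.e (nat_lit 336211) (nat_lit 13) (.e (nat_lit 393301) (nat_lit 27) (.e (nat_lit 491558) (nat_lit 10) (.e (nat_lit 344090) (nat_lit 18) (.e (nat_lit 7263) (nat_lit 384) .nil)))))) (.g (nat_lit 4) .nil .nil))) 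
(.lf (nat_lit 154557) (.g (nat_lit 1965) (.e (nat_lit 57409) (nat_lit 12) (.e (nat_lit 336316) (nat_lit 17) (.e (nat_lit 196666) (nat_lit 13) (.e (nat_lit 65626) (nat_lit 13) (.e (nat_lit 393253) (nat_lit 18) .nil))))) .nil)))))) (.nd (nat_lit 2) (.nd (nat_lit 3) (.nd (nat_lit 4) (.nd (nat_lit 5) 
(.lf (nat_lit 154499) (.g (nat_lit 3365) (.e (nat_lit 57409) (nat_lit 12) (.e (nat_lit 336211) (nat_lit 13) (.e (nat_lit 393299) (nat_lit 27) (.e (nat_lit 491558) (nat_lit 10) (.e (nat_lit 344091) (nat_lit 18) (.e (nat_lit 7266) (nat_lit 384) .nil)))))) (.g (nat_lit 6) .nil .nil))) 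
(.lf (nat_lit 154531) (.g (nat_lit 2532) (.e (nat_lit 57409) (nat_lit 12) (.e (nat_lit 336211) (nat_lit 13) (.e (nat_lit 393301) (nat_lit 27) (.e (nat_lit 491558) (nat_lit 10) (.e (nat_lit 344095) (nat_lit 18) (.e (nat_lit 7266) (nat_lit 384) .nil)))))) (.g (nat_lit 4) .nil .nil)))) (.nd (nat_lit 5) 
(.lf (nat_lit 154515) (.g (nat_lit 2547) (.e (nat_lit 57409) (nat_lit 12) (.e (nat_lit 336211) (nat_lit 13) (.e (nat_lit 393300) (nat_lit 27) (.e (nat_lit 491558) (nat_lit 10) (.e (nat_lit 344096) (nat_lit 18) (.e (nat_lit 7263) (nat_lit 384) .nil)))))) (.g (nat_lit 5) .nil .nil))) 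
(.lf (nat_lit 154547) (.g (nat_lit 1926) (.e (nat_lit 57409) (nat_lit 12) (.e (nat_lit 336316) (nat_lit 17) (.e (nat_lit 196666) (nat_lit 13) (.e (nat_lit 65617) (nat_lit 10) (.e (nat_lit 344087) (nat_lit 18) .nil))))) .nil)))) (.nd (nat_lit 4) (.nd (nat_lit 5) 
(.lf (nat_lit 154507) (.g (nat_lit 2002) (.e (nat_lit 57409) (nat_lit 12) (.e (nat_lit 336211) (nat_lit 13) (.e (nat_lit 393299) (nat_lit 27) (.e (nat_lit 491560) (nat_lit 10) (.e (nat_lit 344094) (nat_lit 18) (.e (nat_lit 7263) (nat_lit 384) .nil)))))) (.g (nat_lit 4) .nil .nil))) 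
(.lf (nat_lit 154539) (.g (nat_lit 3069) (.e (nat_lit 57409) (nat_lit 12) (.e (nat_lit 336211) (nat_lit 13) (.e (nat_lit 393301) (nat_lit 27) (.e (nat_lit 491560) (nat_lit 10) (.e (nat_lit 344091) (nat_lit 18) (.e (nat_lit 7263) (nat_lit 384) .nil)))))) (.g (nat_lit 4) .nil .nil)))) (.nd (nat_lit 5) 
(.lf (nat_lit 154523) (.g (nat_lit 3273) (.e (nat_lit 57409) (nat_lit 12) (.e (nat_lit 336211) (nat_lit 13) (.e (nat_lit 393300) (nat_lit 27) (.e (nat_lit 491560) (nat_lit 10) (.e (nat_lit 344096) (nat_lit 18) (.e (nat_lit 7266) (nat_lit 384) .nil)))))) (.g (nat_lit 6) .nil .nil))) 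
(.lf (nat_lit 154555) (.g (nat_lit 3180) (.e (nat_lit 57409) (nat_lit 12) (.e (nat_lit 336316) (nat_lit 17) (.e (nat_lit 196666) (nat_lit 13) (.e (nat_lit 65626) (nat_lit 13) (.e (nat_lit 393251) (nat_lit 18) (.e (nat_lit 164179) (nat_lit 154) .nil)))))) (.g (nat_lit 5) .nil .nil)))))) (.nd (nat_lit 3) (.nd (nat_lit 4) (.nd (nat_lit 5) 
(.lf (nat_lit 154503) (.g (nat_lit 1782) (.e (nat_lit 57409) (nat_lit 12) (.e (nat_lit 336211) (nat_lit 13) (.e (nat_lit 393299) (nat_lit 27) (.e (nat_lit 491560) (nat_lit 10) (.e (nat_lit 344091) (nat_lit 18) .nil))))) .nil)) 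
(.lf (nat_lit 154535) (.g (nat_lit 2980) (.e (nat_lit 57409) (nat_lit 12) (.e (nat_lit 336211) (nat_lit 13) (.e (nat_lit 393301) (nat_lit 27) (.e (nat_lit 491559) (nat_lit 10) (.e (nat_lit 344091) (nat_lit 18) .nil))))) .nil))) (.nd (nat_lit 5) 
(.lf (nat_lit 154519) (.g (nat_lit 1634) (.e (nat_lit 57409) (nat_lit 12) (.e (nat_lit 336211) (nat_lit 13) (.e (nat_lit 393300) (nat_lit 27) (.e (nat_lit 491560) (nat_lit 10) (.e (nat_lit 344094) (nat_lit 18) .nil))))) .nil)) 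
(.lf (nat_lit 154551) (.g (nat_lit 3598) (.e (nat_lit 57409) (nat_lit 12) (.e (nat_lit 336316) (nat_lit 17) (.e (nat_lit 196666) (nat_lit 13) (.e (nat_lit 65625) (nat_lit 13) (.e (nat_lit 393251) (nat_lit 18) (.e (nat_lit 164182) (nat_lit 154) .nil)))))) (.g (nat_lit 0) .nil .nil))))) (.nd (nat_lit 4) (.nd (nat_lit 5) 
(.lf (nat_lit 154511) (.g (nat_lit 2900) (.e (nat_lit 57409) (nat_lit 12) (.e (nat_lit 336211) (nat_lit 13) (.e (nat_lit 393300) (nat_lit 27) (.e (nat_lit 491558) (nat_lit 10) (.e (nat_lit 344090) (nat_lit 18) (.e (nat_lit 7266) (nat_lit 384) .nil)))))) (.g (nat_lit 0) .nil .nil))) 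
(.lf (nat_lit 154543) (.g (nat_lit 3334) (.e (nat_lit 57409) (nat_lit 12) (.e (nat_lit 336211) (nat_lit 13) (.e (nat_lit 393301) (nat_lit 27) (.e (nat_lit 491560) (nat_lit 10) (.e (nat_lit 344096) (nat_lit 18) (.e (nat_lit 7263) (nat_lit 384) .nil)))))) (.g (nat_lit 4) .nil .nil)))) (.nd (nat_lit 5) 
(.lf (nat_lit 154527) (.g (nat_lit 3690) (.e (nat_lit 57409) (nat_lit 12) (.e (nat_lit 336211) (nat_lit 13) (.e (nat_lit 393301) (nat_lit 27) (.e (nat_lit 491558) (nat_lit 10) (.e (nat_lit 344090) (nat_lit 18) (.e (nat_lit 7266) (nat_lit 384) .nil)))))) (.g (nat_lit 6) .nil .nil))) 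
(.lf (nat_lit 154559) (.g (nat_lit 4165) (.e (nat_lit 57409) (nat_lit 12) (.e (nat_lit 336316) (nat_lit 17) (.e (nat_lit 196666) (nat_lit 13) (.e (nat_lit 65627) (nat_lit 13) (.e (nat_lit 393251) (nat_lit 18) (.e (nat_lit 164179) (nat_lit 154) .nil)))))) (.g (nat_lit 0) .nil .nil)))))))))

noncomputable def tv2062 : DT := (.nd (nat_lit 0) (.nd (nat_lit 1) (.nd (nat_lit 2) (.nd (nat_lit 3) (.nd (nat_lit 4) (.nd (nat_lit 5) 
(.lf (nat_lit 154560) (.g (nat_lit 3845) (.e (nat_lit 57409) (nat_lit 12) (.e (nat_lit 336316) (nat_lit 17) (.e (nat_lit 196666) (nat_lit 13) (.e (nat_lit 65627) (nat_lit 13) (.e (nat_lit 393251) (nat_lit 18) (.e (nat_lit 164182) (nat_lit 154) .nil)))))) (.g (nat_lit 0) .nil .nil))) 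
(.lf (nat_lit 154592) (.g (nat_lit 2535) (.e (nat_lit 57409) (nat_lit 12) (.e (nat_lit 336324) (nat_lit 18) (.e (nat_lit 204854) (nat_lit 26) (.e (nat_lit 336211) (nat_lit 13) (.e (nat_lit 393253) (nat_lit 18) (.e (nat_lit 164182) (nat_lit 154) .nil)))))) (.g (nat_lit 4) .nil .nil)))) (.nd (nat_lit 5) 
(.lf (nat_lit 154576) (.g (nat_lit 3703) (.e (nat_lit 57409) (nat_lit 12) (.e (nat_lit 336316) (nat_lit 17) (.e (nat_lit 196674) (nat_lit 15) (.e (nat_lit 81925) (nat_lit 11) (.e (nat_lit 426108) (nat_lit 1) (.e (nat_lit 164182) (nat_lit 154) .nil)))))) (.g (nat_lit 6) .nil .nil))) 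
(.lf (nat_lit 154608) (.g (nat_lit 2395) (.e (nat_lit 57409) (nat_lit 12) (.e (nat_lit 336324) (nat_lit 18) (.e (nat_lit 204877) (nat_lit 31) (.e (nat_lit 376842) (nat_lit 11) (.e (nat_lit 426106) (nat_lit 1) (.e (nat_lit 164183) (nat_lit 154) .nil)))))) (.g (nat_lit 0) .nil .nil))))) (.nd (nat_lit 4) (.nd (nat_lit 5) 
(.lf (nat_lit 154568) (.g (nat_lit 1623) (.e (nat_lit 57409) (nat_lit 12) (.e (nat_lit 336316) (nat_lit 17) (.e (nat_lit 196672) (nat_lit 15) (.e (nat_lit 81925) (nat_lit 11) (.e (nat_lit 426108) (nat_lit 1) .nil))))) .nil)) 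
(.lf (nat_lit 154600) (.g (nat_lit 2611) (.e (nat_lit 57409) (nat_lit 12) (.e (nat_lit 336324) (nat_lit 18) (.e (nat_lit 204876) (nat_lit 31) (.e (nat_lit 376842) (nat_lit 11) (.e (nat_lit 426098) (nat_lit 1) (.e (nat_lit 164183) (nat_lit 154) .nil)))))) (.g (nat_lit 0) .nil .nil)))) (.nd (nat_lit 5) 
(.lf (nat_lit 154584) (.g (nat_lit 2475) (.e (nat_lit 57409) (nat_lit 12) (.e (nat_lit 336322) (nat_lit 18) (.e (nat_lit 204861) (nat_lit 26) (.e (nat_lit 336213) (nat_lit 13) (.e (nat_lit 393251) (nat_lit 18) (.e (nat_lit 164183) (nat_lit 154) .nil)))))) (.g (nat_lit 5) .nil .nil))) 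
(.lf (nat_lit 154616) (.g (nat_lit 1405) (.e (nat_lit 57409) (nat_lit 12) (.e (nat_lit 336326) (nat_lit 18) (.e (nat_lit 204854) (nat_lit 26) (.e (nat_lit 336211) (nat_lit 13) (.e (nat_lit 393251) (nat_lit 18) .nil))))) .nil))))) (.nd (nat_lit 3) (.nd (nat_lit 4) (.nd (nat_lit 5) 
(.lf (nat_lit 154564) (.g (nat_lit 2039) (.e (nat_lit 57409) (nat_lit 12) (.e (nat_lit 336316) (nat_lit 17) (.e (nat_lit 196666) (nat_lit 13) (.e (nat_lit 65627) (nat_lit 13) (.e (nat_lit 393254) (nat_lit 18) (.e (nat_lit 164182) (nat_lit 154) .nil)))))) (.g (nat_lit 4) .nil .nil))) 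
(.lf (nat_lit 154596) (.g (nat_lit 597) (.e (nat_lit 57409) (nat_lit 12) (.e (nat_lit 336324) (nat_lit 18) (.e (nat_lit 204859) (nat_lit 26) .nil))) .nil))) (.nd (nat_lit 5) 
(.lf (nat_lit 154580) (.g (nat_lit 1191) (.e (nat_lit 57409) (nat_lit 12) (.e (nat_lit 336320) (nat_lit 17) (.e (nat_lit 196674) (nat_lit 15) (.e (nat_lit 81925) (nat_lit 11) .nil)))) .nil)) 
(.lf (nat_lit 154612) (.g (nat_lit 3035) (.e (nat_lit 57409) (nat_lit 12) (.e (nat_lit 336325) (nat_lit 18) (.e (nat_lit 204861) (nat_lit 26) (.e (nat_lit 336213) (nat_lit 13) (.e (nat_lit 393251) (nat_lit 18) (.e (nat_lit 164183) (nat_lit 154) .nil)))))) (.g (nat_lit 6) .nil .nil))))) (.nd (nat_lit 4) (.nd (nat_lit 5) 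
(.lf (nat_lit 154572) (.g (nat_lit 1561) (.e (nat_lit 57409) (nat_lit 12) (.e (nat_lit 336316) (nat_lit 17) (.e (nat_lit 196674) (nat_lit 15) (.e (nat_lit 81925) (nat_lit 11) (.e (nat_lit 426099) (nat_lit 1) .nil))))) .nil)) 
(.lf (nat_lit 154604) (.g (nat_lit 2757) (.e (nat_lit 57409) (nat_lit 12) (.e (nat_lit 336324) (nat_lit 18) (.e (nat_lit 204876) (nat_lit 31) (.e (nat_lit 376842) (nat_lit 11) (.e (nat_lit 426108) (nat_lit 1) (.e (nat_lit 164183) (nat_lit 154) .nil)))))) (.g (nat_lit 0) .nil .nil)))) (.nd (nat_lit 5) 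
(.lf (nat_lit 154588) (.g (nat_lit 3283) (.e (nat_lit 57409) (nat_lit 12) (.e (nat_lit 336324) (nat_lit 18) (.e (nat_lit 204854) (nat_lit 26) (.e (nat_lit 336211) (nat_lit 13) (.e (nat_lit 393251) (nat_lit 18) (.e (nat_lit 164183) (nat_lit 154) .nil)))))) (.g (nat_lit 0) .nil .nil))) 
(.lf (nat_lit 154620) (.g (nat_lit 2997) (.e (nat_lit 57409) (nat_lit 12) (.e (nat_lit 336326) (nat_lit 18) (.e (nat_lit 204854) (nat_lit 26) (.e (nat_lit 336211) (nat_lit 13) (.e (nat_lit 393254) (nat_lit 18) (.e (nat_lit 164179) (nat_lit 154) .nil)))))) (.g (nat_lit 6) .nil .nil))))))) (.nd (nat_lit 2) (.nd (nat_lit 3) (.nd (nat_lit 4) (.nd (nat_lit 5) 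
(.lf (nat_lit 154562) (.g (nat_lit 3106) (.e (nat_lit 57409) (nat_lit 12) (.e (nat_lit 336316) (nat_lit 17) (.e (nat_lit 196666) (nat_lit 13) (.e (nat_lit 65627) (nat_lit 13) (.e (nat_lit 393253) (nat_lit 18) (.e (nat_lit 164179) (nat_lit 154) .nil)))))) (.g (nat_lit 5) .nil .nil))) 
(.lf (nat_lit 154594) (.g (nat_lit 2870) (.e (nat_lit 57409) (nat_lit 12) (.e (nat_lit 336324) (nat_lit 18) (.e (nat_lit 204854) (nat_lit 26) (.e (nat_lit 336211) (nat_lit 13) (.e (nat_lit 393254) (nat_lit 18) (.e (nat_lit 164183) (nat_lit 154) .nil)))))) (.g (nat_lit 0) .nil .nil)))) (.nd (nat_lit 5) 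
(.lf (nat_lit 154578) (.g (nat_lit 1476) (.e (nat_lit 57409) (nat_lit 12) (.e (nat_lit 336320) (nat_lit 17) (.e (nat_lit 196672) (nat_lit 15) (.e (nat_lit 81927) (nat_lit 11) (.e (nat_lit 426098) (nat_lit 1) .nil))))) .nil)) 
(.lf (nat_lit 154610) (.g (nat_lit 2952) (.e (nat_lit 57409) (nat_lit 12) (.e (nat_lit 336325) (nat_lit 18) (.e (nat_lit 204861) (nat_lit 26) (.e (nat_lit 336213) (nat_lit 13) (.e (nat_lit 393251) (nat_lit 18) (.e (nat_lit 164179) (nat_lit 154) .nil)))))) (.g (nat_lit 5) .nil .nil))))) (.nd (nat_lit 4) (.nd (nat_lit 5) 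
(.lf (nat_lit 154570) (.g (nat_lit 3362) (.e (nat_lit 57409) (nat_lit 12) (.e (nat_lit 336316) (nat_lit 17) (.e (nat_lit 196672) (nat_lit 15) (.e (nat_lit 81927) (nat_lit 11) (.e (nat_lit 426108) (nat_lit 1) (.e (nat_lit 164183) (nat_lit 154) .nil)))))) (.g (nat_lit 6) .nil .nil))) 
(.lf (nat_lit 154602) (.g (nat_lit 1717) (.e (nat_lit 57409) (nat_lit 12) (.e (nat_lit 336324) (nat_lit 18) (.e (nat_lit 204876) (nat_lit 31) (.e (nat_lit 376842) (nat_lit 11) (.e (nat_lit 426105) (nat_lit 1) .nil))))) .nil))) (.nd (nat_lit 5) 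
(.lf (nat_lit 154586) (.g (nat_lit 3031) (.e (nat_lit 57409) (nat_lit 12) (.e (nat_lit 336324) (nat_lit 18) (.e (nat_lit 204854) (nat_lit 26) (.e (nat_lit 336211) (nat_lit 13) (.e (nat_lit 393251) (nat_lit 18) (.e (nat_lit 164179) (nat_lit 154) .nil)))))) (.g (nat_lit 5) .nil .nil))) 
(.lf (nat_lit 154618) (.g (nat_lit 3129) (.e (nat_lit 57409) (nat_lit 12) (.e (nat_lit 336326) (nat_lit 18) (.e (nat_lit 204854) (nat_lit 26) (.e (nat_lit 336211) (nat_lit 13) (.e (nat_lit 393253) (nat_lit 18) (.e (nat_lit 164179) (nat_lit 154) .nil)))))) (.g (nat_lit 6) .nil .nil)))))) (.nd (nat_lit 3) (.nd (nat_lit 4) (.nd (nat_lit 5) 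
(.lf (nat_lit 154566) (.g (nat_lit 2224) (.e (nat_lit 57409) (nat_lit 12) (.e (nat_lit 336316) (nat_lit 17) (.e (nat_lit 196670) (nat_lit 14) (.e (nat_lit 73792) (nat_lit 45) (.e (nat_lit 1162) (nat_lit 86) .nil))))) .nil)) 
(.lf (nat_lit 154598) (.g (nat_lit 3114) (.e (nat_lit 57409) (nat_lit 12) (.e (nat_lit 336324) (nat_lit 18) (.e (nat_lit 204866) (nat_lit 28) (.e (nat_lit 352277) (nat_lit 11) (.e (nat_lit 426098) (nat_lit 1) (.e (nat_lit 164183) (nat_lit 154) .nil)))))) (.g (nat_lit 6) .nil .nil)))) (.nd (nat_lit 5) 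
(.lf (nat_lit 154582) (.g (nat_lit 2067) (.e (nat_lit 57409) (nat_lit 12) (.e (nat_lit 336320) (nat_lit 17) (.e (nat_lit 196674) (nat_lit 15) (.e (nat_lit 81925) (nat_lit 11) (.e (nat_lit 426100) (nat_lit 1) (.e (nat_lit 164183) (nat_lit 154) .nil)))))) (.g (nat_lit 4) .nil .nil))) 
(.lf (nat_lit 154614) (.g (nat_lit 1783) (.e (nat_lit 57409) (nat_lit 12) (.e (nat_lit 336325) (nat_lit 18) (.e (nat_lit 204877) (nat_lit 31) (.e (nat_lit 376842) (nat_lit 11) (.e (nat_lit 426100) (nat_lit 1) (.e (nat_lit 164183) (nat_lit 154) .nil)))))) (.g (nat_lit 4) .nil .nil))))) (.nd (nat_lit 4) (.nd (nat_lit 5) 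
(.lf (nat_lit 154574) (.g (nat_lit 2152) (.e (nat_lit 57409) (nat_lit 12) (.e (nat_lit 336316) (nat_lit 17) (.e (nat_lit 196674) (nat_lit 15) (.e (nat_lit 81925) (nat_lit 11) (.e (nat_lit 426107) (nat_lit 1) (.e (nat_lit 164178) (nat_lit 154) .nil)))))) (.g (nat_lit 4) .nil .nil))) 
(.lf (nat_lit 154606) (.g (nat_lit 2711) (.e (nat_lit 57409) (nat_lit 12) (.e (nat_lit 336324) (nat_lit 18) (.e (nat_lit 204877) (nat_lit 31) (.e (nat_lit 376842) (nat_lit 11) (.e (nat_lit 426098) (nat_lit 1) (.e (nat_lit 164183) (nat_lit 154) .nil)))))) (.g (nat_lit 0) .nil .nil)))) (.nd (nat_lit 5) 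
(.lf (nat_lit 154590) (.g (nat_lit 3140) (.e (nat_lit 57409) (nat_lit 12) (.e (nat_lit 336324) (nat_lit 18) (.e (nat_lit 204854) (nat_lit 26) (.e (nat_lit 336211) (nat_lit 13) (.e (nat_lit 393252) (nat_lit 18) (.e (nat_lit 164183) (nat_lit 154) .nil)))))) (.g (nat_lit 0) .nil .nil))) 
(.lf (nat_lit 154622) (.g (nat_lit 3085) (.e (nat_lit 57409) (nat_lit 12) (.e (nat_lit 336326) (nat_lit 18) (.e (nat_lit 204859) (nat_lit 26) (.e (nat_lit 336209) (nat_lit 13) (.e (nat_lit 393251) (nat_lit 18) (.e (nat_lit 164179) (nat_lit 154) .nil)))))) (.g (nat_lit 0) .nil .nil)))))))) (.nd (nat_lit 1) (.nd (nat_lit 2) (.nd (nat_lit 3) (.nd (nat_lit 4) (.nd (nat_lit 5) 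
(.lf (nat_lit 154561) (.g (nat_lit 1841) (.e (nat_lit 57409) (nat_lit 12) (.e (nat_lit 336316) (nat_lit 17) (.e (nat_lit 196666) (nat_lit 13) (.e (nat_lit 65627) (nat_lit 13) (.e (nat_lit 393252) (nat_lit 18) .nil))))) .nil)) 
(.lf (nat_lit 154593) (.g (nat_lit 3201) (.e (nat_lit 57409) (nat_lit 12) (.e (nat_lit 336324) (nat_lit 18) (.e (nat_lit 204854) (nat_lit 26) (.e (nat_lit 336211) (nat_lit 13) (.e (nat_lit 393253) (nat_lit 18) (.e (nat_lit 164183) (nat_lit 154) .nil)))))) (.g (nat_lit 0) .nil .nil)))) (.nd (nat_lit 5) 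
(.lf (nat_lit 154577) (.g (nat_lit 1162) (.e (nat_lit 57409) (nat_lit 12) (.e (nat_lit 336316) (nat_lit 17) (.e (nat_lit 196674) (nat_lit 15) (.e (nat_lit 81926) (nat_lit 11) .nil)))) .nil)) 
(.lf (nat_lit 154609) (.g (nat_lit 2835) (.e (nat_lit 57409) (nat_lit 12) (.e (nat_lit 336324) (nat_lit 18) (.e (nat_lit 204877) (nat_lit 31) (.e (nat_lit 376842) (nat_lit 11) (.e (nat_lit 426108) (nat_lit 1) (.e (nat_lit 164183) (nat_lit 154) .nil)))))) (.g (nat_lit 0) .nil .nil))))) (.nd (nat_lit 4) (.nd (nat_lit 5) 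
(.lf (nat_lit 154569) (.g (nat_lit 874) (.e (nat_lit 57409) (nat_lit 12) (.e (nat_lit 336316) (nat_lit 17) (.e (nat_lit 196672) (nat_lit 15) (.e (nat_lit 81927) (nat_lit 11) .nil)))) .nil)) 
(.lf (nat_lit 154601) (.g (nat_lit 2748) (.e (nat_lit 57409) (nat_lit 12) (.e (nat_lit 336324) (nat_lit 18) (.e (nat_lit 204876) (nat_lit 31) (.e (nat_lit 376842) (nat_lit 11) (.e (nat_lit 426100) (nat_lit 1) (.e (nat_lit 164183) (nat_lit 154) .nil)))))) (.g (nat_lit 0) .nil .nil)))) (.nd (nat_lit 5) 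
(.lf (nat_lit 154585) (.g (nat_lit 1494) (.e (nat_lit 57409) (nat_lit 12) (.e (nat_lit 336324) (nat_lit 18) (.e (nat_lit 204854) (nat_lit 26) (.e (nat_lit 336210) (nat_lit 13) .nil)))) .nil)) 
(.lf (nat_lit 154617) (.g (nat_lit 3456) (.e (nat_lit 57409) (nat_lit 12) (.e (nat_lit 336326) (nat_lit 18) (.e (nat_lit 204854) (nat_lit 26) (.e (nat_lit 336211) (nat_lit 13) (.e (nat_lit 393251) (nat_lit 18) (.e (nat_lit 164182) (nat_lit 154) .nil)))))) (.g (nat_lit 0) .nil .nil)))))) (.nd (nat_lit 3) (.nd (nat_lit 4) (.nd (nat_lit 5) 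
(.lf (nat_lit 154565) (.g (nat_lit 2634) (.e (nat_lit 57409) (nat_lit 12) (.e (nat_lit 336316) (nat_lit 17) (.e (nat_lit 196666) (nat_lit 13) (.e (nat_lit 65627) (nat_lit 13) (.e (nat_lit 393254) (nat_lit 18) (.e (nat_lit 164183) (nat_lit 154) .nil)))))) (.g (nat_lit 5) .nil .nil))) 
(.lf (nat_lit 154597) (.g (nat_lit 2539) (.e (nat_lit 57409) (nat_lit 12) (.e (nat_lit 336324) (nat_lit 18) (.e (nat_lit 204865) (nat_lit 28) (.e (nat_lit 352277) (nat_lit 11) (.e (nat_lit 426098) (nat_lit 1) (.e (nat_lit 164183) (nat_lit 154) .nil)))))) (.g (nat_lit 0) .nil .nil)))) (.nd (nat_lit 5) 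
(.lf (nat_lit 154581) (.g (nat_lit 1944) (.e (nat_lit 57409) (nat_lit 12) (.e (nat_lit 336320) (nat_lit 17) (.e (nat_lit 196674) (nat_lit 15) (.e (nat_lit 81925) (nat_lit 11) (.e (nat_lit 426098) (nat_lit 1) (.e (nat_lit 164183) (nat_lit 154) .nil)))))) (.g (nat_lit 4) .nil .nil))) 
(.lf (nat_lit 154613) (.g (nat_lit 1618) (.e (nat_lit 57409) (nat_lit 12) (.e (nat_lit 336325) (nat_lit 18) (.e (nat_lit 204877) (nat_lit 31) (.e (nat_lit 376842) (nat_lit 11) (.e (nat_lit 426098) (nat_lit 1) (.e (nat_lit 164183) (nat_lit 154) .nil)))))) (.g (nat_lit 4) .nil .nil))))) (.nd (nat_lit 4) (.nd (nat_lit 5) 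
(.lf (nat_lit 154573) (.g (nat_lit 4046) (.e (nat_lit 57409) (nat_lit 12) (.e (nat_lit 336316) (nat_lit 17) (.e (nat_lit 196674) (nat_lit 15) (.e (nat_lit 81925) (nat_lit 11) (.e (nat_lit 426100) (nat_lit 1) (.e (nat_lit 164182) (nat_lit 154) .nil)))))) (.g (nat_lit 0) .nil .nil))) 
(.lf (nat_lit 154605) (.g (nat_lit 2228) (.e (nat_lit 57409) (nat_lit 12) (.e (nat_lit 336324) (nat_lit 18) (.e (nat_lit 204877) (nat_lit 31) (.e (nat_lit 376842) (nat_lit 11) (.e (nat_lit 426098) (nat_lit 1) (.e (nat_lit 164179) (nat_lit 154) .nil)))))) (.g (nat_lit 4) .nil .nil)))) (.nd (nat_lit 5) 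
(.lf (nat_lit 154589) (.g (nat_lit 2364) (.e (nat_lit 57409) (nat_lit 12) (.e (nat_lit 336324) (nat_lit 18) (.e (nat_lit 204854) (nat_lit 26) (.e (nat_lit 336211) (nat_lit 13) (.e (nat_lit 393252) (nat_lit 18) (.e (nat_lit 164182) (nat_lit 154) .nil)))))) (.g (nat_lit 4) .nil .nil))) 
(.lf (nat_lit 154621) (.g (nat_lit 3158) (.e (nat_lit 57409) (nat_lit 12) (.e (nat_lit 336326) (nat_lit 18) (.e (nat_lit 204854) (nat_lit 26) (.e (nat_lit 336211) (nat_lit 13) (.e (nat_lit 393254) (nat_lit 18) (.e (nat_lit 164182) (nat_lit 154) .nil)))))) (.g (nat_lit 0) .nil .nil))))))) (.nd (nat_lit 2) (.nd (nat_lit 3) (.nd (nat_lit 4) (.nd (nat_lit 5) 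
(.lf (nat_lit 154563) (.g (nat_lit 2462) (.e (nat_lit 57409) (nat_lit 12) (.e (nat_lit 336316) (nat_lit 17) (.e (nat_lit 196666) (nat_lit 13) (.e (nat_lit 65627) (nat_lit 13) (.e (nat_lit 393254) (nat_lit 18) (.e (nat_lit 164179) (nat_lit 154) .nil)))))) (.g (nat_lit 4) .nil .nil))) 
(.lf (nat_lit 154595) (.g (nat_lit 2179) (.e (nat_lit 57409) (nat_lit 12) (.e (nat_lit 336324) (nat_lit 18) (.e (nat_lit 204857) (nat_lit 26) (.e (nat_lit 336217) (nat_lit 13) (.e (nat_lit 393251) (nat_lit 18) (.e (nat_lit 164183) (nat_lit 154) .nil)))))) (.g (nat_lit 6) .nil .nil)))) (.nd (nat_lit 5) 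
(.lf (nat_lit 154579) (.g (nat_lit 2048) (.e (nat_lit 57409) (nat_lit 12) (.e (nat_lit 336320) (nat_lit 17) (.e (nat_lit 196672) (nat_lit 15) (.e (nat_lit 81927) (nat_lit 11) (.e (nat_lit 426098) (nat_lit 1) (.e (nat_lit 164183) (nat_lit 154) .nil)))))) (.g (nat_lit 4) .nil .nil))) 
(.lf (nat_lit 154611) (.g (nat_lit 2667) (.e (nat_lit 57409) (nat_lit 12) (.e (nat_lit 336325) (nat_lit 18) (.e (nat_lit 204861) (nat_lit 26) (.e (nat_lit 336213) (nat_lit 13) (.e (nat_lit 393251) (nat_lit 18) (.e (nat_lit 164182) (nat_lit 154) .nil)))))) (.g (nat_lit 5) .nil .nil))))) (.nd (nat_lit 4) (.nd (nat_lit 5) 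
(.lf (nat_lit 154571) (.g (nat_lit 3961) (.e (nat_lit 57409) (nat_lit 12) (.e (nat_lit 336316) (nat_lit 17) (.e (nat_lit 196674) (nat_lit 15) (.e (nat_lit 81925) (nat_lit 11) (.e (nat_lit 426098) (nat_lit 1) (.e (nat_lit 164179) (nat_lit 154) .nil)))))) (.g (nat_lit 0) .nil .nil))) 
(.lf (nat_lit 154603) (.g (nat_lit 2322) (.e (nat_lit 57409) (nat_lit 12) (.e (nat_lit 336324) (nat_lit 18) (.e (nat_lit 204876) (nat_lit 31) (.e (nat_lit 376842) (nat_lit 11) (.e (nat_lit 426106) (nat_lit 1) (.e (nat_lit 164183) (nat_lit 154) .nil)))))) (.g (nat_lit 0) .nil .nil)))) (.nd (nat_lit 5) 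
(.lf (nat_lit 154587) (.g (nat_lit 2492) (.e (nat_lit 57409) (nat_lit 12) (.e (nat_lit 336324) (nat_lit 18) (.e (nat_lit 204854) (nat_lit 26) (.e (nat_lit 336211) (nat_lit 13) (.e (nat_lit 393251) (nat_lit 18) (.e (nat_lit 164182) (nat_lit 154) .nil)))))) (.g (nat_lit 4) .nil .nil))) 
(.lf (nat_lit 154619) (.g (nat_lit 3047) (.e (nat_lit 57409) (nat_lit 12) (.e (nat_lit 336326) (nat_lit 18) (.e (nat_lit 204854) (nat_lit 26) (.e (nat_lit 336211) (nat_lit 13) (.e (nat_lit 393253) (nat_lit 18) (.e (nat_lit 164183) (nat_lit 154) .nil)))))) (.g (nat_lit 0) .nil .nil)))))) (.nd (nat_lit 3) (.nd (nat_lit 4) (.nd (nat_lit 5) 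
(.lf (nat_lit 154567) (.g (nat_lit 1304) (.e (nat_lit 57409) (nat_lit 12) (.e (nat_lit 336316) (nat_lit 17) (.e (nat_lit 196672) (nat_lit 15) (.e (nat_lit 81925) (nat_lit 11) .nil)))) .nil)) 
(.lf (nat_lit 154599) (.g (nat_lit 2337) (.e (nat_lit 57409) (nat_lit 12) (.e (nat_lit 336324) (nat_lit 18) (.e (nat_lit 204875) (nat_lit 31) (.e (nat_lit 376842) (nat_lit 11) (.e (nat_lit 426098) (nat_lit 1) (.e (nat_lit 164183) (nat_lit 154) .nil)))))) (.g (nat_lit 5) .nil .nil)))) (.nd (nat_lit 5) 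
(.lf (nat_lit 154583) (.g (nat_lit 2106) (.e (nat_lit 57409) (nat_lit 12) (.e (nat_lit 336320) (nat_lit 17) (.e (nat_lit 196674) (nat_lit 15) (.e (nat_lit 81925) (nat_lit 11) (.e (nat_lit 426108) (nat_lit 1) (.e (nat_lit 164183) (nat_lit 154) .nil)))))) (.g (nat_lit 4) .nil .nil))) 
(.lf (nat_lit 154615) (.g (nat_lit 1747) (.e (nat_lit 57409) (nat_lit 12) (.e (nat_lit 336325) (nat_lit 18) (.e (nat_lit 204877) (nat_lit 31) (.e (nat_lit 376842) (nat_lit 11) (.e (nat_lit 426108) (nat_lit 1) (.e (nat_lit 164183) (nat_lit 154) .nil)))))) (.g (nat_lit 4) .nil .nil))))) (.nd (nat_lit 4) (.nd (nat_lit 5) 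
(.lf (nat_lit 154575) (.g (nat_lit 4017) (.e (nat_lit 57409) (nat_lit 12) (.e (nat_lit 336316) (nat_lit 17) (.e (nat_lit 196674) (nat_lit 15) (.e (nat_lit 81925) (nat_lit 11) (.e (nat_lit 426107) (nat_lit 1) (.e (nat_lit 164182) (nat_lit 154) .nil)))))) (.g (nat_lit 0) .nil .nil))) 
(.lf (nat_lit 154607) (.g (nat_lit 2838) (.e (nat_lit 57409) (nat_lit 12) (.e (nat_lit 336324) (nat_lit 18) (.e (nat_lit 204877) (nat_lit 31) (.e (nat_lit 376842) (nat_lit 11) (.e (nat_lit 426100) (nat_lit 1) (.e (nat_lit 164183) (nat_lit 154) .nil)))))) (.g (nat_lit 0) .nil .nil)))) (.nd (nat_lit 5) 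
(.lf (nat_lit 154591) (.g (nat_lit 2369) (.e (nat_lit 57409) (nat_lit 12) (.e (nat_lit 336324) (nat_lit 18) (.e (nat_lit 204854) (nat_lit 26) (.e (nat_lit 336211) (nat_lit 13) (.e (nat_lit 393253) (nat_lit 18) (.e (nat_lit 164179) (nat_lit 154) .nil)))))) (.g (nat_lit 4) .nil .nil))) 
(.lf (nat_lit 154623) (.g (nat_lit 3608) (.e (nat_lit 57409) (nat_lit 12) (.e (nat_lit 336326) (nat_lit 18) (.e (nat_lit 204861) (nat_lit 26) (.e (nat_lit 336213) (nat_lit 13) (.e (nat_lit 393251) (nat_lit 18) (.e (nat_lit 164179) (nat_lit 154) .nil)))))) (.g (nat_lit 0) .nil .nil)))))))))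

noncomputable def tv2063 : DT := (.nd (nat_lit 0) (.nd (nat_lit 1) (.nd (nat_lit 2) (.nd (nat_lit 3) (.nd (nat_lit 4) (.nd (nat_lit 5) 
(.lf (nat_lit 154624) (.g (nat_lit 2821) (.e (nat_lit 57409) (nat_lit 12) (.e (nat_lit 336326) (nat_lit 18) (.e (nat_lit 204865) (nat_lit 28) (.e (nat_lit 352277) (nat_lit 11) (.e (nat_lit 426098) (nat_lit 1) (.e (nat_lit 164179) (nat_lit 154) .nil)))))) (.g (nat_lit 6) .nil .nil))) 
(.lf (nat_lit 154656) (.g (nat_lit 2753) (.e (nat_lit 57409) (nat_lit 12) (.e (nat_lit 336366) (nat_lit 27) (.e (nat_lit 426499) (nat_lit 27) (.e (nat_lit 336196) (nat_lit 12) (.e (nat_lit 385066) (nat_lit 26) (.e (nat_lit 532499) (nat_lit 1) (.e (nat_lit 57854) (nat_lit 252) .nil))))))) (.g (nat_lit 4) .nil .nil)))) (.nd (nat_lit 5) 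
(.lf (nat_lit 154640) (.g (nat_lit 1788) (.e (nat_lit 57409) (nat_lit 12) (.e (nat_lit 336326) (nat_lit 18) (.e (nat_lit 204877) (nat_lit 31) (.e (nat_lit 376842) (nat_lit 11) (.e (nat_lit 426105) (nat_lit 1) (.e (nat_lit 164183) (nat_lit 154) .nil)))))) (.g (nat_lit 4) .nil .nil))) 
(.lf (nat_lit 154672) (.g (nat_lit 2998) (.e (nat_lit 57409) (nat_lit 12) (.e (nat_lit 336367) (nat_lit 27) (.e (nat_lit 426542) (nat_lit 29) (.e (nat_lit 352313) (nat_lit 23) (.e (nat_lit 98335) (nat_lit 18) (.e (nat_lit 164183) (nat_lit 154) .nil)))))) (.g (nat_lit 6) .nil .nil))))) (.nd (nat_lit 4) (.nd (nat_lit 5) 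
(.lf (nat_lit 154632) (.g (nat_lit 1480) (.e (nat_lit 57409) (nat_lit 12) (.e (nat_lit 336326) (nat_lit 18) (.e (nat_lit 204869) (nat_lit 29) (.e (nat_lit 360493) (nat_lit 27) .nil)))) .nil)) 
(.lf (nat_lit 154664) (.g (nat_lit 2666) (.e (nat_lit 57409) (nat_lit 12) (.e (nat_lit 336366) (nat_lit 27) (.e (nat_lit 426501) (nat_lit 27) (.e (nat_lit 336076) (nat_lit 9) (.e (nat_lit 336324) (nat_lit 18) (.e (nat_lit 204830) (nat_lit 18) (.e (nat_lit 57852) (nat_lit 252) .nil))))))) (.g (nat_lit 5) .nil .nil)))) (.nd (nat_lit 5) 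
(.lf (nat_lit 154648) (.g (nat_lit 2460) (.e (nat_lit 57409) (nat_lit 12) (.e (nat_lit 336366) (nat_lit 27) (.e (nat_lit 426497) (nat_lit 27) (.e (nat_lit 336076) (nat_lit 9) (.e (nat_lit 336324) (nat_lit 18) (.e (nat_lit 204830) (nat_lit 18) (.e (nat_lit 57852) (nat_lit 252) .nil))))))) (.g (nat_lit 5) .nil .nil))) 
(.lf (nat_lit 154680) (.g (nat_lit 3506) (.e (nat_lit 57409) (nat_lit 12) (.e (nat_lit 336367) (nat_lit 27) (.e (nat_lit 426544) (nat_lit 30) (.e (nat_lit 360467) (nat_lit 3) (.e (nat_lit 516115) (nat_lit 1) (.e (nat_lit 164182) (nat_lit 154) .nil)))))) (.g (nat_lit 0) .nil .nil)))))) (.nd (nat_lit 3) (.nd (nat_lit 4) (.nd (nat_lit 5) 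
(.lf (nat_lit 154628) (.g (nat_lit 1815) (.e (nat_lit 57409) (nat_lit 12) (.e (nat_lit 336326) (nat_lit 18) (.e (nat_lit 204868) (nat_lit 29) (.e (nat_lit 360456) (nat_lit 0) (.e (nat_lit 7936) (nat_lit 412) .nil))))) .nil)) 
(.lf (nat_lit 154660) (.g (nat_lit 2653) (.e (nat_lit 57409) (nat_lit 12) (.e (nat_lit 336366) (nat_lit 27) (.e (nat_lit 426499) (nat_lit 27) (.e (nat_lit 336196) (nat_lit 12) (.e (nat_lit 385066) (nat_lit 26) (.e (nat_lit 532504) (nat_lit 1) (.e (nat_lit 57854) (nat_lit 252) .nil))))))) (.g (nat_lit 4) .nil .nil)))) (.nd (nat_lit 5) 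
(.lf (nat_lit 154644) (.g (nat_lit 3232) (.e (nat_lit 57409) (nat_lit 12) (.e (nat_lit 336326) (nat_lit 18) (.e (nat_lit 204877) (nat_lit 31) (.e (nat_lit 376842) (nat_lit 11) (.e (nat_lit 426108) (nat_lit 1) (.e (nat_lit 164182) (nat_lit 154) .nil)))))) (.g (nat_lit 0) .nil .nil))) 
(.lf (nat_lit 154676) (.g (nat_lit 1729) (.e (nat_lit 57409) (nat_lit 12) (.e (nat_lit 336367) (nat_lit 27) (.e (nat_lit 426544) (nat_lit 30) (.e (nat_lit 360466) (nat_lit 3) (.e (nat_lit 516117) (nat_lit 1) (.e (nat_lit 164180) (nat_lit 154) .nil)))))) (.g (nat_lit 4) .nil .nil))))) (.nd (nat_lit 4) (.nd (nat_lit 5) 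
(.lf (nat_lit 154636) (.g (nat_lit 2635) (.e (nat_lit 57409) (nat_lit 12) (.e (nat_lit 336326) (nat_lit 18) (.e (nat_lit 204876) (nat_lit 31) (.e (nat_lit 376842) (nat_lit 11) (.e (nat_lit 426106) (nat_lit 1) (.e (nat_lit 164182) (nat_lit 154) .nil)))))) (.g (nat_lit 0) .nil .nil))) 
(.lf (nat_lit 154668) (.g (nat_lit 2498) (.e (nat_lit 57409) (nat_lit 12) (.e (nat_lit 336366) (nat_lit 27) (.e (nat_lit 426555) (nat_lit 32) (.e (nat_lit 376867) (nat_lit 23) (.e (nat_lit 98334) (nat_lit 18) (.e (nat_lit 164183) (nat_lit 154) .nil)))))) (.g (nat_lit 5) .nil .nil)))) (.nd (nat_lit 5) 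
(.lf (nat_lit 154652) (.g (nat_lit 2548) (.e (nat_lit 57409) (nat_lit 12) (.e (nat_lit 336366) (nat_lit 27) (.e (nat_lit 426498) (nat_lit 27) (.e (nat_lit 336194) (nat_lit 12) (.e (nat_lit 385066) (nat_lit 26) (.e (nat_lit 532504) (nat_lit 1) (.e (nat_lit 57852) (nat_lit 252) .nil))))))) (.g (nat_lit 5) .nil .nil))) 
(.lf (nat_lit 154684) (.g (nat_lit 2579) (.e (nat_lit 57409) (nat_lit 12) (.e (nat_lit 336367) (nat_lit 27) (.e (nat_lit 426546) (nat_lit 30) (.e (nat_lit 360466) (nat_lit 3) (.e (nat_lit 516117) (nat_lit 1) (.e (nat_lit 164176) (nat_lit 154) .nil)))))) (.g (nat_lit 0) .nil .nil))))))) (.nd (nat_lit 2) (.nd (nat_lit 3) (.nd (nat_lit 4) (.nd (nat_lit 5) 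
(.lf (nat_lit 154626) (.g (nat_lit 3162) (.e (nat_lit 57409) (nat_lit 12) (.e (nat_lit 336326) (nat_lit 18) (.e (nat_lit 204866) (nat_lit 28) (.e (nat_lit 352277) (nat_lit 11) (.e (nat_lit 426098) (nat_lit 1) (.e (nat_lit 164179) (nat_lit 154) .nil)))))) (.g (nat_lit 6) .nil .nil))) 
(.lf (nat_lit 154658) (.g (nat_lit 2395) (.e (nat_lit 57409) (nat_lit 12) (.e (nat_lit 336366) (nat_lit 27) (.e (nat_lit 426499) (nat_lit 27) (.e (nat_lit 336196) (nat_lit 12) (.e (nat_lit 385066) (nat_lit 26) (.e (nat_lit 532501) (nat_lit 1) (.e (nat_lit 57854) (nat_lit 252) .nil))))))) (.g (nat_lit 4) .nil .nil)))) (.nd (nat_lit 5) 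
(.lf (nat_lit 154642) (.g (nat_lit 2993) (.e (nat_lit 57409) (nat_lit 12) (.e (nat_lit 336326) (nat_lit 18) (.e (nat_lit 204877) (nat_lit 31) (.e (nat_lit 376842) (nat_lit 11) (.e (nat_lit 426107) (nat_lit 1) (.e (nat_lit 164179) (nat_lit 154) .nil)))))) (.g (nat_lit 6) .nil .nil))) 
(.lf (nat_lit 154674) (.g (nat_lit 2418) (.e (nat_lit 57409) (nat_lit 12) (.e (nat_lit 336367) (nat_lit 27) (.e (nat_lit 426542) (nat_lit 29) (.e (nat_lit 352315) (nat_lit 23) (.e (nat_lit 98334) (nat_lit 18) (.e (nat_lit 164176) (nat_lit 154) .nil)))))) (.g (nat_lit 5) .nil .nil))))) (.nd (nat_lit 4) (.nd (nat_lit 5) 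
(.lf (nat_lit 154634) (.g (nat_lit 2941) (.e (nat_lit 57409) (nat_lit 12) (.e (nat_lit 336326) (nat_lit 18) (.e (nat_lit 204876) (nat_lit 31) (.e (nat_lit 376842) (nat_lit 11) (.e (nat_lit 426098) (nat_lit 1) (.e (nat_lit 164179) (nat_lit 154) .nil)))))) (.g (nat_lit 0) .nil .nil))) 
(.lf (nat_lit 154666) (.g (nat_lit 2438) (.e (nat_lit 57409) (nat_lit 12) (.e (nat_lit 336366) (nat_lit 27) (.e (nat_lit 426501) (nat_lit 27) (.e (nat_lit 336194) (nat_lit 12) (.e (nat_lit 385066) (nat_lit 26) (.e (nat_lit 532504) (nat_lit 1) (.e (nat_lit 57852) (nat_lit 252) .nil))))))) (.g (nat_lit 5) .nil .nil)))) (.nd (nat_lit 5) 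
(.lf (nat_lit 154650) (.g (nat_lit 2380) (.e (nat_lit 57409) (nat_lit 12) (.e (nat_lit 336366) (nat_lit 27) (.e (nat_lit 426497) (nat_lit 27) (.e (nat_lit 336194) (nat_lit 12) (.e (nat_lit 385066) (nat_lit 26) (.e (nat_lit 532501) (nat_lit 1) (.e (nat_lit 57852) (nat_lit 252) .nil))))))) (.g (nat_lit 4) .nil .nil))) 
(.lf (nat_lit 154682) (.g (nat_lit 2534) (.e (nat_lit 57409) (nat_lit 12) (.e (nat_lit 336367) (nat_lit 27) (.e (nat_lit 426544) (nat_lit 30) (.e (nat_lit 360467) (nat_lit 3) (.e (nat_lit 516119) (nat_lit 1) (.e (nat_lit 164176) (nat_lit 154) .nil)))))) (.g (nat_lit 5) .nil .nil)))))) (.nd (nat_lit 3) (.nd (nat_lit 4) (.nd (nat_lit 5) 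
(.lf (nat_lit 154630) (.g (nat_lit 3701) (.e (nat_lit 57409) (nat_lit 12) (.e (nat_lit 336326) (nat_lit 18) (.e (nat_lit 204869) (nat_lit 29) (.e (nat_lit 360450) (nat_lit 0) (.e (nat_lit 7702) (nat_lit 413) .nil))))) .nil)) 
(.lf (nat_lit 154662) (.g (nat_lit 3289) (.e (nat_lit 57409) (nat_lit 12) (.e (nat_lit 336366) (nat_lit 27) (.e (nat_lit 426499) (nat_lit 27) (.e (nat_lit 336196) (nat_lit 12) (.e (nat_lit 385068) (nat_lit 26) (.e (nat_lit 532504) (nat_lit 1) (.e (nat_lit 57852) (nat_lit 252) .nil))))))) (.g (nat_lit 5) .nil .nil)))) (.nd (nat_lit 5) 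
(.lf (nat_lit 154646) (.g (nat_lit 2149) (.e (nat_lit 57409) (nat_lit 12) (.e (nat_lit 336360) (nat_lit 25) (.e (nat_lit 409649) (nat_lit 18) (.e (nat_lit 303140) (nat_lit 10) (.e (nat_lit 434209) (nat_lit 18) .nil))))) .nil)) 
(.lf (nat_lit 154678) (.g (nat_lit 1561) (.e (nat_lit 57409) (nat_lit 12) (.e (nat_lit 336367) (nat_lit 27) (.e (nat_lit 426544) (nat_lit 30) (.e (nat_lit 360466) (nat_lit 3) (.e (nat_lit 516120) (nat_lit 1) (.e (nat_lit 164181) (nat_lit 154) .nil)))))) (.g (nat_lit 4) .nil .nil))))) (.nd (nat_lit 4) (.nd (nat_lit 5) 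
(.lf (nat_lit 154638) (.g (nat_lit 3212) (.e (nat_lit 57409) (nat_lit 12) (.e (nat_lit 336326) (nat_lit 18) (.e (nat_lit 204876) (nat_lit 31) (.e (nat_lit 376842) (nat_lit 11) (.e (nat_lit 426108) (nat_lit 1) (.e (nat_lit 164182) (nat_lit 154) .nil)))))) (.g (nat_lit 0) .nil .nil))) 
(.lf (nat_lit 154670) (.g (nat_lit 2630) (.e (nat_lit 57409) (nat_lit 12) (.e (nat_lit 336366) (nat_lit 27) (.e (nat_lit 426555) (nat_lit 32) (.e (nat_lit 376869) (nat_lit 23) (.e (nat_lit 98334) (nat_lit 18) (.e (nat_lit 164183) (nat_lit 154) .nil)))))) (.g (nat_lit 5) .nil .nil)))) (.nd (nat_lit 5) 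
(.lf (nat_lit 154654) (.g (nat_lit 2444) (.e (nat_lit 57409) (nat_lit 12) (.e (nat_lit 336366) (nat_lit 27) (.e (nat_lit 426499) (nat_lit 27) (.e (nat_lit 336078) (nat_lit 9) (.e (nat_lit 336324) (nat_lit 18) (.e (nat_lit 204831) (nat_lit 18) (.e (nat_lit 57852) (nat_lit 252) .nil))))))) (.g (nat_lit 4) .nil .nil))) 
(.lf (nat_lit 154686) (.g (nat_lit 2935) (.e (nat_lit 57409) (nat_lit 12) (.e (nat_lit 336367) (nat_lit 27) (.e (nat_lit 426546) (nat_lit 30) (.e (nat_lit 360466) (nat_lit 3) (.e (nat_lit 516119) (nat_lit 1) (.e (nat_lit 164176) (nat_lit 154) .nil)))))) (.g (nat_lit 0) .nil .nil)))))))) (.nd (nat_lit 1) (.nd (nat_lit 2) (.nd (nat_lit 3) (.nd (nat_lit 4) (.nd (nat_lit 5) 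
(.lf (nat_lit 154625) (.g (nat_lit 2630) (.e (nat_lit 57409) (nat_lit 12) (.e (nat_lit 336326) (nat_lit 18) (.e (nat_lit 204866) (nat_lit 28) (.e (nat_lit 352273) (nat_lit 11) (.e (nat_lit 426108) (nat_lit 1) (.e (nat_lit 164183) (nat_lit 154) .nil)))))) (.g (nat_lit 5) .nil .nil))) 
(.lf (nat_lit 154657) (.g (nat_lit 3760) (.e (nat_lit 57409) (nat_lit 12) (.e (nat_lit 336366) (nat_lit 27) (.e (nat_lit 426499) (nat_lit 27) (.e (nat_lit 336196) (nat_lit 12) (.e (nat_lit 385066) (nat_lit 26) (.e (nat_lit 532501) (nat_lit 1) (.e (nat_lit 57852) (nat_lit 252) .nil))))))) (.g (nat_lit 6) .nil .nil)))) (.nd (nat_lit 5) 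
(.lf (nat_lit 154641) (.g (nat_lit 2686) (.e (nat_lit 57409) (nat_lit 12) (.e (nat_lit 336326) (nat_lit 18) (.e (nat_lit 204877) (nat_lit 31) (.e (nat_lit 376842) (nat_lit 11) (.e (nat_lit 426106) (nat_lit 1) (.e (nat_lit 164182) (nat_lit 154) .nil)))))) (.g (nat_lit 0) .nil .nil))) 
(.lf (nat_lit 154673) (.g (nat_lit 3286) (.e (nat_lit 57409) (nat_lit 12) (.e (nat_lit 336367) (nat_lit 27) (.e (nat_lit 426542) (nat_lit 29) (.e (nat_lit 352315) (nat_lit 23) (.e (nat_lit 98333) (nat_lit 18) (.e (nat_lit 164182) (nat_lit 154) .nil)))))) (.g (nat_lit 0) .nil .nil))))) (.nd (nat_lit 4) (.nd (nat_lit 5) 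
(.lf (nat_lit 154633) (.g (nat_lit 2076) (.e (nat_lit 57409) (nat_lit 12) (.e (nat_lit 336326) (nat_lit 18) (.e (nat_lit 204869) (nat_lit 29) (.e (nat_lit 360493) (nat_lit 27) (.e (nat_lit 819232) (nat_lit 9) .nil))))) .nil)) 
(.lf (nat_lit 154665) (.g (nat_lit 2611) (.e (nat_lit 57409) (nat_lit 12) (.e (nat_lit 336366) (nat_lit 27) (.e (nat_lit 426501) (nat_lit 27) (.e (nat_lit 336076) (nat_lit 9) (.e (nat_lit 336324) (nat_lit 18) (.e (nat_lit 204831) (nat_lit 18) (.e (nat_lit 57852) (nat_lit 252) .nil))))))) (.g (nat_lit 5) .nil .nil)))) (.nd (nat_lit 5) 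
(.lf (nat_lit 154649) (.g (nat_lit 2461) (.e (nat_lit 57409) (nat_lit 12) (.e (nat_lit 336366) (nat_lit 27) (.e (nat_lit 426497) (nat_lit 27) (.e (nat_lit 336076) (nat_lit 9) (.e (nat_lit 336324) (nat_lit 18) (.e (nat_lit 204831) (nat_lit 18) (.e (nat_lit 57852) (nat_lit 252) .nil))))))) (.g (nat_lit 5) .nil .nil))) 
(.lf (nat_lit 154681) (.g (nat_lit 2372) (.e (nat_lit 57409) (nat_lit 12) (.e (nat_lit 336367) (nat_lit 27) (.e (nat_lit 426544) (nat_lit 30) (.e (nat_lit 360467) (nat_lit 3) (.e (nat_lit 516117) (nat_lit 1) (.e (nat_lit 164176) (nat_lit 154) .nil)))))) (.g (nat_lit 5) .nil .nil)))))) (.nd (nat_lit 3) (.nd (nat_lit 4) (.nd (nat_lit 5) 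
(.lf (nat_lit 154629) (.g (nat_lit 2387) (.e (nat_lit 57409) (nat_lit 12) (.e (nat_lit 336326) (nat_lit 18) (.e (nat_lit 204869) (nat_lit 29) (.e (nat_lit 360448) (nat_lit 0) (.e (nat_lit 7695) (nat_lit 412) .nil))))) .nil)) 
(.lf (nat_lit 154661) (.g (nat_lit 3082) (.e (nat_lit 57409) (nat_lit 12) (.e (nat_lit 336366) (nat_lit 27) (.e (nat_lit 426499) (nat_lit 27) (.e (nat_lit 336196) (nat_lit 12) (.e (nat_lit 385068) (nat_lit 26) (.e (nat_lit 532501) (nat_lit 1) (.e (nat_lit 57854) (nat_lit 252) .nil))))))) (.g (nat_lit 4) .nil .nil)))) (.nd (nat_lit 5) 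
(.lf (nat_lit 154645) (.g (nat_lit 2323) (.e (nat_lit 57409) (nat_lit 12) (.e (nat_lit 336360) (nat_lit 25) (.e (nat_lit 409649) (nat_lit 18) (.e (nat_lit 303140) (nat_lit 10) (.e (nat_lit 434205) (nat_lit 18) .nil))))) .nil)) 
(.lf (nat_lit 154677) (.g (nat_lit 1660) (.e (nat_lit 57409) (nat_lit 12) (.e (nat_lit 336367) (nat_lit 27) (.e (nat_lit 426544) (nat_lit 30) (.e (nat_lit 360466) (nat_lit 3) (.e (nat_lit 516120) (nat_lit 1) (.e (nat_lit 164176) (nat_lit 154) .nil)))))) (.g (nat_lit 4) .nil .nil))))) (.nd (nat_lit 4) (.nd (nat_lit 5) 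
(.lf (nat_lit 154637) (.g (nat_lit 3164) (.e (nat_lit 57409) (nat_lit 12) (.e (nat_lit 336326) (nat_lit 18) (.e (nat_lit 204876) (nat_lit 31) (.e (nat_lit 376842) (nat_lit 11) (.e (nat_lit 426107) (nat_lit 1) (.e (nat_lit 164182) (nat_lit 154) .nil)))))) (.g (nat_lit 0) .nil .nil))) 
(.lf (nat_lit 154669) (.g (nat_lit 2882) (.e (nat_lit 57409) (nat_lit 12) (.e (nat_lit 336366) (nat_lit 27) (.e (nat_lit 426555) (nat_lit 32) (.e (nat_lit 376869) (nat_lit 23) (.e (nat_lit 98333) (nat_lit 18) (.e (nat_lit 164183) (nat_lit 154) .nil)))))) (.g (nat_lit 5) .nil .nil)))) (.nd (nat_lit 5) 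
(.lf (nat_lit 154653) (.g (nat_lit 2475) (.e (nat_lit 57409) (nat_lit 12) (.e (nat_lit 336366) (nat_lit 27) (.e (nat_lit 426499) (nat_lit 27) (.e (nat_lit 336078) (nat_lit 9) (.e (nat_lit 336324) (nat_lit 18) (.e (nat_lit 204830) (nat_lit 18) (.e (nat_lit 57852) (nat_lit 252) .nil))))))) (.g (nat_lit 4) .nil .nil))) 
(.lf (nat_lit 154685) (.g (nat_lit 2243) (.e (nat_lit 57409) (nat_lit 12) (.e (nat_lit 336367) (nat_lit 27) (.e (nat_lit 426546) (nat_lit 30) (.e (nat_lit 360466) (nat_lit 3) (.e (nat_lit 516117) (nat_lit 1) (.e (nat_lit 164181) (nat_lit 154) .nil)))))) (.g (nat_lit 6) .nil .nil))))))) (.nd (nat_lit 2) (.nd (nat_lit 3) (.nd (nat_lit 4) (.nd (nat_lit 5) 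
(.lf (nat_lit 154627) (.g (nat_lit 2111) (.e (nat_lit 57409) (nat_lit 12) (.e (nat_lit 336326) (nat_lit 18) (.e (nat_lit 204868) (nat_lit 29) (.e (nat_lit 360452) (nat_lit 0) (.e (nat_lit 7936) (nat_lit 412) .nil))))) .nil)) 
(.lf (nat_lit 154659) (.g (nat_lit 3837) (.e (nat_lit 57409) (nat_lit 12) (.e (nat_lit 336366) (nat_lit 27) (.e (nat_lit 426499) (nat_lit 27) (.e (nat_lit 336196) (nat_lit 12) (.e (nat_lit 385066) (nat_lit 26) (.e (nat_lit 532504) (nat_lit 1) (.e (nat_lit 57852) (nat_lit 252) .nil))))))) (.g (nat_lit 6) .nil .nil)))) (.nd (nat_lit 5) 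
(.lf (nat_lit 154643) (.g (nat_lit 3200) (.e (nat_lit 57409) (nat_lit 12) (.e (nat_lit 336326) (nat_lit 18) (.e (nat_lit 204877) (nat_lit 31) (.e (nat_lit 376842) (nat_lit 11) (.e (nat_lit 426107) (nat_lit 1) (.e (nat_lit 164182) (nat_lit 154) .nil)))))) (.g (nat_lit 0) .nil .nil))) 
(.lf (nat_lit 154675) (.g (nat_lit 1830) (.e (nat_lit 57409) (nat_lit 12) (.e (nat_lit 336367) (nat_lit 27) (.e (nat_lit 426542) (nat_lit 29) (.e (nat_lit 352315) (nat_lit 23) (.e (nat_lit 98334) (nat_lit 18) (.e (nat_lit 164180) (nat_lit 154) .nil)))))) (.g (nat_lit 4) .nil .nil))))) (.nd (nat_lit 4) (.nd (nat_lit 5) 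
(.lf (nat_lit 154635) (.g (nat_lit 1779) (.e (nat_lit 57409) (nat_lit 12) (.e (nat_lit 336326) (nat_lit 18) (.e (nat_lit 204876) (nat_lit 31) (.e (nat_lit 376842) (nat_lit 11) (.e (nat_lit 426105) (nat_lit 1) (.e (nat_lit 164183) (nat_lit 154) .nil)))))) (.g (nat_lit 4) .nil .nil))) 
(.lf (nat_lit 154667) (.g (nat_lit 2764) (.e (nat_lit 57409) (nat_lit 12) (.e (nat_lit 336366) (nat_lit 27) (.e (nat_lit 426555) (nat_lit 32) (.e (nat_lit 376867) (nat_lit 23) (.e (nat_lit 98333) (nat_lit 18) (.e (nat_lit 164183) (nat_lit 154) .nil)))))) (.g (nat_lit 5) .nil .nil)))) (.nd (nat_lit 5) 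
(.lf (nat_lit 154651) (.g (nat_lit 2379) (.e (nat_lit 57409) (nat_lit 12) (.e (nat_lit 336366) (nat_lit 27) (.e (nat_lit 426497) (nat_lit 27) (.e (nat_lit 336194) (nat_lit 12) (.e (nat_lit 385066) (nat_lit 26) (.e (nat_lit 532504) (nat_lit 1) (.e (nat_lit 57852) (nat_lit 252) .nil))))))) (.g (nat_lit 4) .nil .nil))) 
(.lf (nat_lit 154683) (.g (nat_lit 2876) (.e (nat_lit 57409) (nat_lit 12) (.e (nat_lit 336367) (nat_lit 27) (.e (nat_lit 426546) (nat_lit 30) (.e (nat_lit 360466) (nat_lit 3) (.e (nat_lit 516115) (nat_lit 1) (.e (nat_lit 164182) (nat_lit 154) .nil)))))) (.g (nat_lit 0) .nil .nil)))))) (.nd (nat_lit 3) (.nd (nat_lit 4) (.nd (nat_lit 5) 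
(.lf (nat_lit 154631) (.g (nat_lit 3654) (.e (nat_lit 57409) (nat_lit 12) (.e (nat_lit 336326) (nat_lit 18) (.e (nat_lit 204869) (nat_lit 29) (.e (nat_lit 360451) (nat_lit 0) (.e (nat_lit 7702) (nat_lit 413) .nil))))) .nil)) 
(.lf (nat_lit 154663) (.g (nat_lit 3199) (.e (nat_lit 57409) (nat_lit 12) (.e (nat_lit 336366) (nat_lit 27) (.e (nat_lit 426499) (nat_lit 27) (.e (nat_lit 336196) (nat_lit 12) (.e (nat_lit 385068) (nat_lit 26) (.e (nat_lit 532504) (nat_lit 1) (.e (nat_lit 57854) (nat_lit 252) .nil))))))) (.g (nat_lit 5) .nil .nil)))) (.nd (nat_lit 5) 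
(.lf (nat_lit 154647) (.g (nat_lit 2871) (.e (nat_lit 57409) (nat_lit 12) (.e (nat_lit 336360) (nat_lit 25) (.e (nat_lit 409649) (nat_lit 18) (.e (nat_lit 303140) (nat_lit 10) (.e (nat_lit 434211) (nat_lit 18) (.e (nat_lit 6398) (nat_lit 339) (.e (nat_lit 57368) (nat_lit 1) (.e (nat_lit 57854) (nat_lit 252) .nil)))))))) (.g (nat_lit 4) .nil .nil))) 
(.lf (nat_lit 154679) (.g (nat_lit 2103) (.e (nat_lit 57409) (nat_lit 12) (.e (nat_lit 336367) (nat_lit 27) (.e (nat_lit 426544) (nat_lit 30) (.e (nat_lit 360467) (nat_lit 3) (.e (nat_lit 516115) (nat_lit 1) (.e (nat_lit 164178) (nat_lit 154) .nil)))))) (.g (nat_lit 4) .nil .nil))))) (.nd (nat_lit 4) (.nd (nat_lit 5) 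
(.lf (nat_lit 154639) (.g (nat_lit 2997) (.e (nat_lit 57409) (nat_lit 12) (.e (nat_lit 336326) (nat_lit 18) (.e (nat_lit 204877) (nat_lit 31) (.e (nat_lit 376842) (nat_lit 11) (.e (nat_lit 426098) (nat_lit 1) (.e (nat_lit 164179) (nat_lit 154) .nil)))))) (.g (nat_lit 0) .nil .nil))) 
(.lf (nat_lit 154671) (.g (nat_lit 2247) (.e (nat_lit 57409) (nat_lit 12) (.e (nat_lit 336367) (nat_lit 27) (.e (nat_lit 426542) (nat_lit 29) (.e (nat_lit 352313) (nat_lit 23) (.e (nat_lit 98334) (nat_lit 18) (.e (nat_lit 164181) (nat_lit 154) .nil)))))) (.g (nat_lit 6) .nil .nil)))) (.nd (nat_lit 5) 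
(.lf (nat_lit 154655) (.g (nat_lit 2458) (.e (nat_lit 57409) (nat_lit 12) (.e (nat_lit 336366) (nat_lit 27) (.e (nat_lit 426499) (nat_lit 27) (.e (nat_lit 336194) (nat_lit 12) (.e (nat_lit 385066) (nat_lit 26) .nil))))) .nil)) 
(.lf (nat_lit 154687) (.g (nat_lit 2668) (.e (nat_lit 57409) (nat_lit 12) (.e (nat_lit 336367) (nat_lit 27) (.e (nat_lit 426546) (nat_lit 30) (.e (nat_lit 360466) (nat_lit 3) (.e (nat_lit 516119) (nat_lit 1) (.e (nat_lit 164183) (nat_lit 154) .nil)))))) (.g (nat_lit 0) .nil .nil)))))))))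

noncomputable def tv2064 : DT := (.nd (nat_lit 0) (.nd (nat_lit 1) (.nd (nat_lit 2) (.nd (nat_lit 3) (.nd (nat_lit 4) (.nd (nat_lit 5) 
(.lf (nat_lit 154688) (.g (nat_lit 2499) (.e (nat_lit 57409) (nat_lit 12) (.e (nat_lit 336367) (nat_lit 27) (.e (nat_lit 426546) (nat_lit 30) (.e (nat_lit 360466) (nat_lit 3) (.e (nat_lit 516120) (nat_lit 1) (.e (nat_lit 164176) (nat_lit 154) .nil)))))) (.g (nat_lit 0) .nil .nil))) 
(.lf (nat_lit 154720) (.g (nat_lit 2509) (.e (nat_lit 57409) (nat_lit 12) (.e (nat_lit 336369) (nat_lit 27) (.e (nat_lit 426497) (nat_lit 27) (.e (nat_lit 336088) (nat_lit 9) (.e (nat_lit 336324) (nat_lit 18) (.e (nat_lit 204831) (nat_lit 18) (.e (nat_lit 57852) (nat_lit 252) .nil))))))) (.g (nat_lit 4) .nil .nil)))) (.nd (nat_lit 5) 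
(.lf (nat_lit 154704) (.g (nat_lit 4745) (.e (nat_lit 57409) (nat_lit 12) (.e (nat_lit 336369) (nat_lit 27) (.e (nat_lit 426497) (nat_lit 27) (.e (nat_lit 336075) (nat_lit 9) (.e (nat_lit 336324) (nat_lit 18) (.e (nat_lit 204831) (nat_lit 18) (.e (nat_lit 57852) (nat_lit 252) .nil))))))) (.g (nat_lit 6) .nil .nil))) 
(.lf (nat_lit 154736) (.g (nat_lit 2599) (.e (nat_lit 57409) (nat_lit 12) (.e (nat_lit 336369) (nat_lit 27) (.e (nat_lit 426498) (nat_lit 27) (.e (nat_lit 336075) (nat_lit 9) (.e (nat_lit 336324) (nat_lit 18) (.e (nat_lit 204830) (nat_lit 18) (.e (nat_lit 57852) (nat_lit 252) .nil))))))) (.g (nat_lit 5) .nil .nil))))) (.nd (nat_lit 4) (.nd (nat_lit 5) 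
(.lf (nat_lit 154696) (.g (nat_lit 3026) (.e (nat_lit 57409) (nat_lit 12) (.e (nat_lit 336368) (nat_lit 27) (.e (nat_lit 426499) (nat_lit 27) (.e (nat_lit 336196) (nat_lit 12) (.e (nat_lit 385066) (nat_lit 26) (.e (nat_lit 532501) (nat_lit 1) (.e (nat_lit 57852) (nat_lit 252) .nil))))))) (.g (nat_lit 4) .nil .nil))) 
(.lf (nat_lit 154728) (.g (nat_lit 2493) (.e (nat_lit 57409) (nat_lit 12) (.e (nat_lit 336369) (nat_lit 27) (.e (nat_lit 426497) (nat_lit 27) (.e (nat_lit 336196) (nat_lit 12) (.e (nat_lit 385066) (nat_lit 26) (.e (nat_lit 532501) (nat_lit 1) (.e (nat_lit 57852) (nat_lit 252) .nil))))))) (.g (nat_lit 4) .nil .nil)))) (.nd (nat_lit 5) 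
(.lf (nat_lit 154712) (.g (nat_lit 2900) (.e (nat_lit 57409) (nat_lit 12) (.e (nat_lit 336369) (nat_lit 27) (.e (nat_lit 426497) (nat_lit 27) (.e (nat_lit 336078) (nat_lit 9) (.e (nat_lit 336324) (nat_lit 18) (.e (nat_lit 204831) (nat_lit 18) (.e (nat_lit 57852) (nat_lit 252) .nil))))))) (.g (nat_lit 5) .nil .nil))) 
(.lf (nat_lit 154744) (.g (nat_lit 3078) (.e (nat_lit 57409) (nat_lit 12) (.e (nat_lit 336369) (nat_lit 27) (.e (nat_lit 426498) (nat_lit 27) (.e (nat_lit 336078) (nat_lit 9) (.e (nat_lit 336324) (nat_lit 18) (.e (nat_lit 204831) (nat_lit 18) (.e (nat_lit 57854) (nat_lit 252) .nil))))))) (.g (nat_lit 4) .nil .nil)))))) (.nd (nat_lit 3) (.nd (nat_lit 4) (.nd (nat_lit 5) 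
(.lf (nat_lit 154692) (.g (nat_lit 2644) (.e (nat_lit 57409) (nat_lit 12) (.e (nat_lit 336368) (nat_lit 27) (.e (nat_lit 426497) (nat_lit 27) (.e (nat_lit 336076) (nat_lit 9) (.e (nat_lit 336324) (nat_lit 18) (.e (nat_lit 204831) (nat_lit 18) (.e (nat_lit 57852) (nat_lit 252) .nil))))))) (.g (nat_lit 5) .nil .nil))) 
(.lf (nat_lit 154724) (.g (nat_lit 4032) (.e (nat_lit 57409) (nat_lit 12) (.e (nat_lit 336369) (nat_lit 27) (.e (nat_lit 426497) (nat_lit 27) (.e (nat_lit 336194) (nat_lit 12) (.e (nat_lit 385066) (nat_lit 26) (.e (nat_lit 532504) (nat_lit 1) (.e (nat_lit 57852) (nat_lit 252) .nil))))))) (.g (nat_lit 6) .nil .nil)))) (.nd (nat_lit 5) 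
(.lf (nat_lit 154708) (.g (nat_lit 4515) (.e (nat_lit 57409) (nat_lit 12) (.e (nat_lit 336369) (nat_lit 27) (.e (nat_lit 426497) (nat_lit 27) (.e (nat_lit 336076) (nat_lit 9) (.e (nat_lit 336324) (nat_lit 18) (.e (nat_lit 204831) (nat_lit 18) (.e (nat_lit 57852) (nat_lit 252) .nil))))))) (.g (nat_lit 7) .nil .nil))) 
(.lf (nat_lit 154740) (.g (nat_lit 2775) (.e (nat_lit 57409) (nat_lit 12) (.e (nat_lit 336369) (nat_lit 27) (.e (nat_lit 426498) (nat_lit 27) (.e (nat_lit 336076) (nat_lit 9) (.e (nat_lit 336324) (nat_lit 18) (.e (nat_lit 204830) (nat_lit 18) (.e (nat_lit 57854) (nat_lit 252) .nil))))))) (.g (nat_lit 4) .nil .nil))))) (.nd (nat_lit 4) (.nd (nat_lit 5) 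
(.lf (nat_lit 154700) (.g (nat_lit 2014) (.e (nat_lit 57409) (nat_lit 12) (.e (nat_lit 336368) (nat_lit 27) (.e (nat_lit 426501) (nat_lit 27) (.e (nat_lit 336194) (nat_lit 12) (.e (nat_lit 385066) (nat_lit 26) (.e (nat_lit 532501) (nat_lit 1) (.e (nat_lit 57852) (nat_lit 252) .nil))))))) (.g (nat_lit 4) .nil .nil))) 
(.lf (nat_lit 154732) (.g (nat_lit 2966) (.e (nat_lit 57409) (nat_lit 12) (.e (nat_lit 336369) (nat_lit 27) (.e (nat_lit 426497) (nat_lit 27) (.e (nat_lit 336204) (nat_lit 12) (.e (nat_lit 385066) (nat_lit 26) (.e (nat_lit 532504) (nat_lit 1) (.e (nat_lit 57852) (nat_lit 252) .nil))))))) (.g (nat_lit 5) .nil .nil)))) (.nd (nat_lit 5) 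
(.lf (nat_lit 154716) (.g (nat_lit 2926) (.e (nat_lit 57409) (nat_lit 12) (.e (nat_lit 336369) (nat_lit 27) (.e (nat_lit 426497) (nat_lit 27) (.e (nat_lit 336087) (nat_lit 9) (.e (nat_lit 336019) (nat_lit 3) (.e (nat_lit 98335) (nat_lit 18) (.e (nat_lit 164183) (nat_lit 154) .nil))))))) (.g (nat_lit 4) .nil .nil))) 
(.lf (nat_lit 154748) (.g (nat_lit 2403) (.e (nat_lit 57409) (nat_lit 12) (.e (nat_lit 336369) (nat_lit 27) (.e (nat_lit 426498) (nat_lit 27) (.e (nat_lit 336088) (nat_lit 9) (.e (nat_lit 336019) (nat_lit 3) (.e (nat_lit 98334) (nat_lit 18) (.e (nat_lit 164183) (nat_lit 154) .nil))))))) (.g (nat_lit 4) .nil .nil))))))) (.nd (nat_lit 2) (.nd (nat_lit 3) (.nd (nat_lit 4) (.nd (nat_lit 5) 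
(.lf (nat_lit 154690) (.g (nat_lit 3144) (.e (nat_lit 57409) (nat_lit 12) (.e (nat_lit 336367) (nat_lit 27) (.e (nat_lit 426555) (nat_lit 32) (.e (nat_lit 376867) (nat_lit 23) (.e (nat_lit 98333) (nat_lit 18) (.e (nat_lit 164182) (nat_lit 154) .nil)))))) (.g (nat_lit 0) .nil .nil))) 
(.lf (nat_lit 154722) (.g (nat_lit 3135) (.e (nat_lit 57409) (nat_lit 12) (.e (nat_lit 336369) (nat_lit 27) (.e (nat_lit 426497) (nat_lit 27) (.e (nat_lit 336194) (nat_lit 12) (.e (nat_lit 385066) (nat_lit 26) (.e (nat_lit 532499) (nat_lit 1) (.e (nat_lit 57854) (nat_lit 252) .nil))))))) (.g (nat_lit 4) .nil .nil)))) (.nd (nat_lit 5) 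
(.lf (nat_lit 154706) (.g (nat_lit 4190) (.e (nat_lit 57409) (nat_lit 12) (.e (nat_lit 336369) (nat_lit 27) (.e (nat_lit 426497) (nat_lit 27) (.e (nat_lit 336076) (nat_lit 9) (.e (nat_lit 336324) (nat_lit 18) (.e (nat_lit 204830) (nat_lit 18) (.e (nat_lit 57852) (nat_lit 252) .nil))))))) (.g (nat_lit 7) .nil .nil))) 
(.lf (nat_lit 154738) (.g (nat_lit 2694) (.e (nat_lit 57409) (nat_lit 12) (.e (nat_lit 336369) (nat_lit 27) (.e (nat_lit 426498) (nat_lit 27) (.e (nat_lit 336076) (nat_lit 9) (.e (nat_lit 336324) (nat_lit 18) (.e (nat_lit 204829) (nat_lit 18) (.e (nat_lit 57854) (nat_lit 252) .nil))))))) (.g (nat_lit 4) .nil .nil))))) (.nd (nat_lit 4) (.nd (nat_lit 5) 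
(.lf (nat_lit 154698) (.g (nat_lit 3103) (.e (nat_lit 57409) (nat_lit 12) (.e (nat_lit 336368) (nat_lit 27) (.e (nat_lit 426499) (nat_lit 27) (.e (nat_lit 336196) (nat_lit 12) (.e (nat_lit 385066) (nat_lit 26) (.e (nat_lit 532504) (nat_lit 1) (.e (nat_lit 57852) (nat_lit 252) .nil))))))) (.g (nat_lit 5) .nil .nil))) 
(.lf (nat_lit 154730) (.g (nat_lit 2947) (.e (nat_lit 57409) (nat_lit 12) (.e (nat_lit 336369) (nat_lit 27) (.e (nat_lit 426497) (nat_lit 27) (.e (nat_lit 336204) (nat_lit 12) (.e (nat_lit 385066) (nat_lit 26) (.e (nat_lit 532501) (nat_lit 1) (.e (nat_lit 57852) (nat_lit 252) .nil))))))) (.g (nat_lit 5) .nil .nil)))) (.nd (nat_lit 5) 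
(.lf (nat_lit 154714) (.g (nat_lit 3459) (.e (nat_lit 57409) (nat_lit 12) (.e (nat_lit 336369) (nat_lit 27) (.e (nat_lit 426497) (nat_lit 27) (.e (nat_lit 336087) (nat_lit 9) (.e (nat_lit 336019) (nat_lit 3) (.e (nat_lit 98333) (nat_lit 18) (.e (nat_lit 164183) (nat_lit 154) .nil))))))) (.g (nat_lit 5) .nil .nil))) 
(.lf (nat_lit 154746) (.g (nat_lit 2459) (.e (nat_lit 57409) (nat_lit 12) (.e (nat_lit 336369) (nat_lit 27) (.e (nat_lit 426498) (nat_lit 27) (.e (nat_lit 336087) (nat_lit 9) (.e (nat_lit 336019) (nat_lit 3) (.e (nat_lit 98334) (nat_lit 18) (.e (nat_lit 164183) (nat_lit 154) .nil))))))) (.g (nat_lit 4) .nil .nil)))))) (.nd (nat_lit 3) (.nd (nat_lit 4) (.nd (nat_lit 5) 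
(.lf (nat_lit 154694) (.g (nat_lit 2206) (.e (nat_lit 57409) (nat_lit 12) (.e (nat_lit 336368) (nat_lit 27) (.e (nat_lit 426497) (nat_lit 27) (.e (nat_lit 336194) (nat_lit 12) (.e (nat_lit 385066) (nat_lit 26) (.e (nat_lit 532504) (nat_lit 1) (.e (nat_lit 57852) (nat_lit 252) .nil))))))) (.g (nat_lit 4) .nil .nil))) 
(.lf (nat_lit 154726) (.g (nat_lit 3912) (.e (nat_lit 57409) (nat_lit 12) (.e (nat_lit 336369) (nat_lit 27) (.e (nat_lit 426497) (nat_lit 27) (.e (nat_lit 336194) (nat_lit 12) (.e (nat_lit 385068) (nat_lit 26) (.e (nat_lit 532501) (nat_lit 1) (.e (nat_lit 57854) (nat_lit 252) .nil))))))) (.g (nat_lit 5) .nil .nil)))) (.nd (nat_lit 5) 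
(.lf (nat_lit 154710) (.g (nat_lit 2900) (.e (nat_lit 57409) (nat_lit 12) (.e (nat_lit 336369) (nat_lit 27) (.e (nat_lit 426497) (nat_lit 27) (.e (nat_lit 336076) (nat_lit 9) (.e (nat_lit 336326) (nat_lit 18) (.e (nat_lit 204831) (nat_lit 18) (.e (nat_lit 57854) (nat_lit 252) .nil))))))) (.g (nat_lit 4) .nil .nil))) 
(.lf (nat_lit 154742) (.g (nat_lit 2707) (.e (nat_lit 57409) (nat_lit 12) (.e (nat_lit 336369) (nat_lit 27) (.e (nat_lit 426498) (nat_lit 27) (.e (nat_lit 336078) (nat_lit 9) (.e (nat_lit 336324) (nat_lit 18) (.e (nat_lit 204830) (nat_lit 18) (.e (nat_lit 57852) (nat_lit 252) .nil))))))) (.g (nat_lit 4) .nil .nil))))) (.nd (nat_lit 4) (.nd (nat_lit 5) 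
(.lf (nat_lit 154702) (.g (nat_lit 556) (.e (nat_lit 57409) (nat_lit 12) (.e (nat_lit 336369) (nat_lit 27) (.e (nat_lit 426497) (nat_lit 27) .nil))) .nil)) 
(.lf (nat_lit 154734) (.g (nat_lit 3445) (.e (nat_lit 57409) (nat_lit 12) (.e (nat_lit 336369) (nat_lit 27) (.e (nat_lit 426497) (nat_lit 27) (.e (nat_lit 336204) (nat_lit 12) (.e (nat_lit 385068) (nat_lit 26) (.e (nat_lit 532504) (nat_lit 1) (.e (nat_lit 57852) (nat_lit 252) .nil))))))) (.g (nat_lit 5) .nil .nil)))) (.nd (nat_lit 5) 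
(.lf (nat_lit 154718) (.g (nat_lit 3470) (.e (nat_lit 57409) (nat_lit 12) (.e (nat_lit 336369) (nat_lit 27) (.e (nat_lit 426497) (nat_lit 27) (.e (nat_lit 336088) (nat_lit 9) (.e (nat_lit 336019) (nat_lit 3) (.e (nat_lit 98334) (nat_lit 18) (.e (nat_lit 164183) (nat_lit 154) .nil))))))) (.g (nat_lit 5) .nil .nil))) 
(.lf (nat_lit 154750) (.g (nat_lit 3714) (.e (nat_lit 57409) (nat_lit 12) (.e (nat_lit 336369) (nat_lit 27) (.e (nat_lit 426498) (nat_lit 27) (.e (nat_lit 336194) (nat_lit 12) (.e (nat_lit 385066) (nat_lit 26) (.e (nat_lit 532501) (nat_lit 1) (.e (nat_lit 57852) (nat_lit 252) .nil))))))) (.g (nat_lit 6) .nil .nil)))))))) 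
(.nd (nat_lit 1) (.nd (nat_lit 2) (.nd (nat_lit 3) (.nd (nat_lit 4) (.nd (nat_lit 5) 
(.lf (nat_lit 154689) (.g (nat_lit 1503) (.e (nat_lit 57409) (nat_lit 12) (.e (nat_lit 336367) (nat_lit 27) (.e (nat_lit 426555) (nat_lit 32) (.e (nat_lit 376837) (nat_lit 0) .nil)))) .nil)) 
(.lf (nat_lit 154721) (.g (nat_lit 2401) (.e (nat_lit 57409) (nat_lit 12) (.e (nat_lit 336369) (nat_lit 27) (.e (nat_lit 426497) (nat_lit 27) (.e (nat_lit 336185) (nat_lit 11) (.e (nat_lit 368676) (nat_lit 21) (.e (nat_lit 516118) (nat_lit 1) (.e (nat_lit 164183) (nat_lit 154) .nil))))))) (.g (nat_lit 4) .nil .nil)))) (.nd (nat_lit 5) 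
(.lf (nat_lit 154705) (.g (nat_lit 3288) (.e (nat_lit 57409) (nat_lit 12) (.e (nat_lit 336369) (nat_lit 27) (.e (nat_lit 426497) (nat_lit 27) (.e (nat_lit 336076) (nat_lit 9) (.e (nat_lit 336324) (nat_lit 18) (.e (nat_lit 204829) (nat_lit 18) (.e (nat_lit 57854) (nat_lit 252) .nil))))))) (.g (nat_lit 5) .nil .nil))) 
(.lf (nat_lit 154737) (.g (nat_lit 4732) (.e (nat_lit 57409) (nat_lit 12) (.e (nat_lit 336369) (nat_lit 27) (.e (nat_lit 426498) (nat_lit 27) (.e (nat_lit 336075) (nat_lit 9) (.e (nat_lit 336324) (nat_lit 18) (.e (nat_lit 204831) (nat_lit 18) (.e (nat_lit 57852) (nat_lit 252) .nil))))))) (.g (nat_lit 6) .nil .nil))))) (.nd (nat_lit 4) (.nd (nat_lit 5) 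
(.lf (nat_lit 154697) (.g (nat_lit 2982) (.e (nat_lit 57409) (nat_lit 12) (.e (nat_lit 336368) (nat_lit 27) (.e (nat_lit 426499) (nat_lit 27) (.e (nat_lit 336196) (nat_lit 12) (.e (nat_lit 385066) (nat_lit 26) (.e (nat_lit 532502) (nat_lit 1) (.e (nat_lit 57854) (nat_lit 252) .nil))))))) (.g (nat_lit 4) .nil .nil))) 
(.lf (nat_lit 154729) (.g (nat_lit 2512) (.e (nat_lit 57409) (nat_lit 12) (.e (nat_lit 336369) (nat_lit 27) (.e (nat_lit 426497) (nat_lit 27) (.e (nat_lit 336196) (nat_lit 12) (.e (nat_lit 385066) (nat_lit 26) (.e (nat_lit 532504) (nat_lit 1) (.e (nat_lit 57852) (nat_lit 252) .nil))))))) (.g (nat_lit 4) .nil .nil)))) (.nd (nat_lit 5) 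
(.lf (nat_lit 154713) (.g (nat_lit 2985) (.e (nat_lit 57409) (nat_lit 12) (.e (nat_lit 336369) (nat_lit 27) (.e (nat_lit 426497) (nat_lit 27) (.e (nat_lit 336078) (nat_lit 9) (.e (nat_lit 336324) (nat_lit 18) (.e (nat_lit 204831) (nat_lit 18) (.e (nat_lit 57854) (nat_lit 252) .nil))))))) (.g (nat_lit 4) .nil .nil))) 
(.lf (nat_lit 154745) (.g (nat_lit 2759) (.e (nat_lit 57409) (nat_lit 12) (.e (nat_lit 336369) (nat_lit 27) (.e (nat_lit 426498) (nat_lit 27) (.e (nat_lit 336087) (nat_lit 9) (.e (nat_lit 336019) (nat_lit 3) (.e (nat_lit 98333) (nat_lit 18) (.e (nat_lit 164183) (nat_lit 154) .nil))))))) (.g (nat_lit 4) .nil .nil)))))) (.nd (nat_lit 3) (.nd (nat_lit 4) (.nd (nat_lit 5) 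
(.lf (nat_lit 154693) (.g (nat_lit 2207) (.e (nat_lit 57409) (nat_lit 12) (.e (nat_lit 336368) (nat_lit 27) (.e (nat_lit 426497) (nat_lit 27) (.e (nat_lit 336194) (nat_lit 12) (.e (nat_lit 385066) (nat_lit 26) (.e (nat_lit 532501) (nat_lit 1) (.e (nat_lit 57852) (nat_lit 252) .nil))))))) (.g (nat_lit 4) .nil .nil))) 
(.lf (nat_lit 154725) (.g (nat_lit 2945) (.e (nat_lit 57409) (nat_lit 12) (.e (nat_lit 336369) (nat_lit 27) (.e (nat_lit 426497) (nat_lit 27) (.e (nat_lit 336194) (nat_lit 12) (.e (nat_lit 385066) (nat_lit 26) (.e (nat_lit 532504) (nat_lit 1) (.e (nat_lit 57854) (nat_lit 252) .nil))))))) (.g (nat_lit 4) .nil .nil)))) (.nd (nat_lit 5) 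
(.lf (nat_lit 154709) (.g (nat_lit 2079) (.e (nat_lit 57409) (nat_lit 12) (.e (nat_lit 336369) (nat_lit 27) (.e (nat_lit 426497) (nat_lit 27) (.e (nat_lit 336076) (nat_lit 9) (.e (nat_lit 336326) (nat_lit 18) (.e (nat_lit 204831) (nat_lit 18) (.e (nat_lit 57852) (nat_lit 252) .nil))))))) (.g (nat_lit 4) .nil .nil))) 
(.lf (nat_lit 154741) (.g (nat_lit 4119) (.e (nat_lit 57409) (nat_lit 12) (.e (nat_lit 336369) (nat_lit 27) (.e (nat_lit 426498) (nat_lit 27) (.e (nat_lit 336076) (nat_lit 9) (.e (nat_lit 336324) (nat_lit 18) (.e (nat_lit 204831) (nat_lit 18) (.e (nat_lit 57852) (nat_lit 252) .nil))))))) (.g (nat_lit 6) .nil .nil))))) (.nd (nat_lit 4) (.nd (nat_lit 5) 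
(.lf (nat_lit 154701) (.g (nat_lit 2039) (.e (nat_lit 57409) (nat_lit 12) (.e (nat_lit 336368) (nat_lit 27) (.e (nat_lit 426501) (nat_lit 27) (.e (nat_lit 336194) (nat_lit 12) (.e (nat_lit 385066) (nat_lit 26) (.e (nat_lit 532504) (nat_lit 1) (.e (nat_lit 57852) (nat_lit 252) .nil))))))) (.g (nat_lit 4) .nil .nil))) 
(.lf (nat_lit 154733) (.g (nat_lit 3324) (.e (nat_lit 57409) (nat_lit 12) (.e (nat_lit 336369) (nat_lit 27) (.e (nat_lit 426497) (nat_lit 27) (.e (nat_lit 336204) (nat_lit 12) (.e (nat_lit 385068) (nat_lit 26) (.e (nat_lit 532501) (nat_lit 1) (.e (nat_lit 57854) (nat_lit 252) .nil))))))) (.g (nat_lit 5) .nil .nil)))) (.nd (nat_lit 5) 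
(.lf (nat_lit 154717) (.g (nat_lit 3767) (.e (nat_lit 57409) (nat_lit 12) (.e (nat_lit 336369) (nat_lit 27) (.e (nat_lit 426497) (nat_lit 27) (.e (nat_lit 336088) (nat_lit 9) (.e (nat_lit 336019) (nat_lit 3) (.e (nat_lit 98333) (nat_lit 18) (.e (nat_lit 164183) (nat_lit 154) .nil))))))) (.g (nat_lit 5) .nil .nil))) 
(.lf (nat_lit 154749) (.g (nat_lit 2753) (.e (nat_lit 57409) (nat_lit 12) (.e (nat_lit 336369) (nat_lit 27) (.e (nat_lit 426498) (nat_lit 27) (.e (nat_lit 336194) (nat_lit 12) (.e (nat_lit 385066) (nat_lit 26) (.e (nat_lit 532499) (nat_lit 1) (.e (nat_lit 57854) (nat_lit 252) .nil))))))) (.g (nat_lit 4) .nil .nil))))))) (.nd (nat_lit 2) (.nd (nat_lit 3) (.nd (nat_lit 4) (.nd (nat_lit 5) 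
(.lf (nat_lit 154691) (.g (nat_lit 2253) (.e (nat_lit 57409) (nat_lit 12) (.e (nat_lit 336368) (nat_lit 27) (.e (nat_lit 426497) (nat_lit 27) (.e (nat_lit 336076) (nat_lit 9) (.e (nat_lit 336324) (nat_lit 18) (.e (nat_lit 204830) (nat_lit 18) (.e (nat_lit 57852) (nat_lit 252) .nil))))))) (.g (nat_lit 4) .nil .nil))) 
(.lf (nat_lit 154723) (.g (nat_lit 2775) (.e (nat_lit 57409) (nat_lit 12) (.e (nat_lit 336369) (nat_lit 27) (.e (nat_lit 426497) (nat_lit 27) (.e (nat_lit 336194) (nat_lit 12) (.e (nat_lit 385066) (nat_lit 26) (.e (nat_lit 532501) (nat_lit 1) (.e (nat_lit 57854) (nat_lit 252) .nil))))))) (.g (nat_lit 4) .nil .nil)))) (.nd (nat_lit 5) 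
(.lf (nat_lit 154707) (.g (nat_lit 3303) (.e (nat_lit 57409) (nat_lit 12) (.e (nat_lit 336369) (nat_lit 27) (.e (nat_lit 426497) (nat_lit 27) (.e (nat_lit 336076) (nat_lit 9) (.e (nat_lit 336324) (nat_lit 18) (.e (nat_lit 204830) (nat_lit 18) (.e (nat_lit 57854) (nat_lit 252) .nil))))))) (.g (nat_lit 5) .nil .nil))) 
(.lf (nat_lit 154739) (.g (nat_lit 3761) (.e (nat_lit 57409) (nat_lit 12) (.e (nat_lit 336369) (nat_lit 27) (.e (nat_lit 426498) (nat_lit 27) (.e (nat_lit 336076) (nat_lit 9) (.e (nat_lit 336324) (nat_lit 18) (.e (nat_lit 204830) (nat_lit 18) (.e (nat_lit 57852) (nat_lit 252) .nil))))))) (.g (nat_lit 6) .nil .nil))))) (.nd (nat_lit 4) (.nd (nat_lit 5) 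
(.lf (nat_lit 154699) (.g (nat_lit 2555) (.e (nat_lit 57409) (nat_lit 12) (.e (nat_lit 336368) (nat_lit 27) (.e (nat_lit 426499) (nat_lit 27) (.e (nat_lit 336196) (nat_lit 12) (.e (nat_lit 385068) (nat_lit 26) (.e (nat_lit 532504) (nat_lit 1) (.e (nat_lit 57852) (nat_lit 252) .nil))))))) (.g (nat_lit 4) .nil .nil))) 
(.lf (nat_lit 154731) (.g (nat_lit 3146) (.e (nat_lit 57409) (nat_lit 12) (.e (nat_lit 336369) (nat_lit 27) (.e (nat_lit 426497) (nat_lit 27) (.e (nat_lit 336204) (nat_lit 12) (.e (nat_lit 385066) (nat_lit 26) (.e (nat_lit 532502) (nat_lit 1) (.e (nat_lit 57854) (nat_lit 252) .nil))))))) (.g (nat_lit 4) .nil .nil)))) (.nd (nat_lit 5) 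
(.lf (nat_lit 154715) (.g (nat_lit 3159) (.e (nat_lit 57409) (nat_lit 12) (.e (nat_lit 336369) (nat_lit 27) (.e (nat_lit 426497) (nat_lit 27) (.e (nat_lit 336087) (nat_lit 9) (.e (nat_lit 336019) (nat_lit 3) (.e (nat_lit 98334) (nat_lit 18) (.e (nat_lit 164183) (nat_lit 154) .nil))))))) (.g (nat_lit 5) .nil .nil))) 
(.lf (nat_lit 154747) (.g (nat_lit 2685) (.e (nat_lit 57409) (nat_lit 12) (.e (nat_lit 336369) (nat_lit 27) (.e (nat_lit 426498) (nat_lit 27) (.e (nat_lit 336088) (nat_lit 9) (.e (nat_lit 336019) (nat_lit 3) (.e (nat_lit 98333) (nat_lit 18) (.e (nat_lit 164183) (nat_lit 154) .nil))))))) (.g (nat_lit 4) .nil .nil)))))) (.nd (nat_lit 3) (.nd (nat_lit 4) (.nd (nat_lit 5) 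
(.lf (nat_lit 154695) (.g (nat_lit 2227) (.e (nat_lit 57409) (nat_lit 12) (.e (nat_lit 336368) (nat_lit 27) (.e (nat_lit 426499) (nat_lit 27) (.e (nat_lit 336078) (nat_lit 9) (.e (nat_lit 336324) (nat_lit 18) (.e (nat_lit 204831) (nat_lit 18) (.e (nat_lit 57852) (nat_lit 252) .nil))))))) (.g (nat_lit 4) .nil .nil))) 
(.lf (nat_lit 154727) (.g (nat_lit 3803) (.e (nat_lit 57409) (nat_lit 12) (.e (nat_lit 336369) (nat_lit 27) (.e (nat_lit 426497) (nat_lit 27) (.e (nat_lit 336194) (nat_lit 12) (.e (nat_lit 385068) (nat_lit 26) (.e (nat_lit 532504) (nat_lit 1) (.e (nat_lit 57854) (nat_lit 252) .nil))))))) (.g (nat_lit 5) .nil .nil)))) (.nd (nat_lit 5) 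
(.lf (nat_lit 154711) (.g (nat_lit 2617) (.e (nat_lit 57409) (nat_lit 12) (.e (nat_lit 336369) (nat_lit 27) (.e (nat_lit 426497) (nat_lit 27) (.e (nat_lit 336078) (nat_lit 9) (.e (nat_lit 336324) (nat_lit 18) (.e (nat_lit 204830) (nat_lit 18) (.e (nat_lit 57852) (nat_lit 252) .nil))))))) (.g (nat_lit 4) .nil .nil))) 
(.lf (nat_lit 154743) (.g (nat_lit 3092) (.e (nat_lit 57409) (nat_lit 12) (.e (nat_lit 336369) (nat_lit 27) (.e (nat_lit 426498) (nat_lit 27) (.e (nat_lit 336078) (nat_lit 9) (.e (nat_lit 336324) (nat_lit 18) (.e (nat_lit 204831) (nat_lit 18) (.e (nat_lit 57852) (nat_lit 252) .nil))))))) (.g (nat_lit 5) .nil .nil))))) (.nd (nat_lit 4) (.nd (nat_lit 5) 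
(.lf (nat_lit 154703) (.g (nat_lit 2612) (.e (nat_lit 57409) (nat_lit 12) (.e (nat_lit 336369) (nat_lit 27) (.e (nat_lit 426497) (nat_lit 27) (.e (nat_lit 336075) (nat_lit 9) (.e (nat_lit 336324) (nat_lit 18) (.e (nat_lit 204830) (nat_lit 18) (.e (nat_lit 57852) (nat_lit 252) .nil))))))) (.g (nat_lit 5) .nil .nil))) 
(.lf (nat_lit 154735) (.g (nat_lit 3401) (.e (nat_lit 57409) (nat_lit 12) (.e (nat_lit 336369) (nat_lit 27) (.e (nat_lit 426497) (nat_lit 27) (.e (nat_lit 336204) (nat_lit 12) (.e (nat_lit 385068) (nat_lit 26) (.e (nat_lit 532504) (nat_lit 1) (.e (nat_lit 57854) (nat_lit 252) .nil))))))) (.g (nat_lit 5) .nil .nil)))) (.nd (nat_lit 5) 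
(.lf (nat_lit 154719) (.g (nat_lit 3220) (.e (nat_lit 57409) (nat_lit 12) (.e (nat_lit 336369) (nat_lit 27) (.e (nat_lit 426497) (nat_lit 27) (.e (nat_lit 336088) (nat_lit 9) (.e (nat_lit 336019) (nat_lit 3) (.e (nat_lit 98335) (nat_lit 18) (.e (nat_lit 164183) (nat_lit 154) .nil))))))) (.g (nat_lit 4) .nil .nil))) 
(.lf (nat_lit 154751) (.g (nat_lit 3758) (.e (nat_lit 57409) (nat_lit 12) (.e (nat_lit 336369) (nat_lit 27) (.e (nat_lit 426498) (nat_lit 27) (.e (nat_lit 336194) (nat_lit 12) (.e (nat_lit 385066) (nat_lit 26) (.e (nat_lit 532502) (nat_lit 1) (.e (nat_lit 57854) (nat_lit 252) .nil))))))) (.g (nat_lit 5) .nil .nil)))))))))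

noncomputable def tv2065 : DT := (.nd (nat_lit 0) (.nd (nat_lit 1) (.nd (nat_lit 2) (.nd (nat_lit 3) (.nd (nat_lit 4) (.nd (nat_lit 5) 
(.lf (nat_lit 154752) (.g (nat_lit 3775) (.e (nat_lit 57409) (nat_lit 12) (.e (nat_lit 336369) (nat_lit 27) (.e (nat_lit 426498) (nat_lit 27) (.e (nat_lit 336194) (nat_lit 12) (.e (nat_lit 385066) (nat_lit 26) (.e (nat_lit 532504) (nat_lit 1) (.e (nat_lit 57852) (nat_lit 252) .nil))))))) (.g (nat_lit 6) .nil .nil))) 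
(.lf (nat_lit 154784) (.g (nat_lit 2721) (.e (nat_lit 57409) (nat_lit 12) (.e (nat_lit 336369) (nat_lit 27) (.e (nat_lit 426501) (nat_lit 27) (.e (nat_lit 336075) (nat_lit 9) (.e (nat_lit 336324) (nat_lit 18) (.e (nat_lit 204830) (nat_lit 18) (.e (nat_lit 57852) (nat_lit 252) .nil))))))) (.g (nat_lit 5) .nil .nil)))) (.nd (nat_lit 5) 
(.lf (nat_lit 154768) (.g (nat_lit 2690) (.e (nat_lit 57409) (nat_lit 12) (.e (nat_lit 336369) (nat_lit 27) (.e (nat_lit 426499) (nat_lit 27) (.e (nat_lit 336078) (nat_lit 9) (.e (nat_lit 336326) (nat_lit 18) .nil))))) .nil)) 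
(.lf (nat_lit 154800) (.g (nat_lit 2556) (.e (nat_lit 57409) (nat_lit 12) (.e (nat_lit 336369) (nat_lit 27) (.e (nat_lit 426501) (nat_lit 27) (.e (nat_lit 336194) (nat_lit 12) (.e (nat_lit 385066) (nat_lit 26) (.e (nat_lit 532501) (nat_lit 1) (.e (nat_lit 57854) (nat_lit 252) .nil))))))) (.g (nat_lit 4) .nil .nil))))) (.nd (nat_lit 4) (.nd (nat_lit 5) 
(.lf (nat_lit 154760) (.g (nat_lit 2509) (.e (nat_lit 57409) (nat_lit 12) (.e (nat_lit 336369) (nat_lit 27) (.e (nat_lit 426498) (nat_lit 27) (.e (nat_lit 336204) (nat_lit 12) (.e (nat_lit 385068) (nat_lit 26) (.e (nat_lit 532504) (nat_lit 1) (.e (nat_lit 57852) (nat_lit 252) .nil))))))) (.g (nat_lit 4) .nil .nil))) 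
(.lf (nat_lit 154792) (.g (nat_lit 3114) (.e (nat_lit 57409) (nat_lit 12) (.e (nat_lit 336369) (nat_lit 27) (.e (nat_lit 426501) (nat_lit 27) (.e (nat_lit 336078) (nat_lit 9) (.e (nat_lit 336324) (nat_lit 18) (.e (nat_lit 204831) (nat_lit 18) (.e (nat_lit 57852) (nat_lit 252) .nil))))))) (.g (nat_lit 5) .nil .nil)))) (.nd (nat_lit 5) 
(.lf (nat_lit 154776) (.g (nat_lit 3408) (.e (nat_lit 57409) (nat_lit 12) (.e (nat_lit 336369) (nat_lit 27) (.e (nat_lit 426499) (nat_lit 27) (.e (nat_lit 336194) (nat_lit 12) (.e (nat_lit 385068) (nat_lit 26) (.e (nat_lit 532504) (nat_lit 1) (.e (nat_lit 57854) (nat_lit 252) .nil))))))) (.g (nat_lit 4) .nil .nil))) 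
(.lf (nat_lit 154808) (.g (nat_lit 2929) (.e (nat_lit 57409) (nat_lit 12) (.e (nat_lit 336369) (nat_lit 27) (.e (nat_lit 426501) (nat_lit 27) (.e (nat_lit 336204) (nat_lit 12) (.e (nat_lit 385068) (nat_lit 26) (.e (nat_lit 532501) (nat_lit 1) (.e (nat_lit 57854) (nat_lit 252) .nil))))))) (.g (nat_lit 5) .nil .nil)))))) (.nd (nat_lit 3) (.nd (nat_lit 4) (.nd (nat_lit 5) 
(.lf (nat_lit 154756) (.g (nat_lit 3299) (.e (nat_lit 57409) (nat_lit 12) (.e (nat_lit 336369) (nat_lit 27) (.e (nat_lit 426498) (nat_lit 27) (.e (nat_lit 336194) (nat_lit 12) (.e (nat_lit 385068) (nat_lit 26) (.e (nat_lit 532504) (nat_lit 1) (.e (nat_lit 57854) (nat_lit 252) .nil))))))) (.g (nat_lit 5) .nil .nil))) 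
(.lf (nat_lit 154788) (.g (nat_lit 3242) (.e (nat_lit 57409) (nat_lit 12) (.e (nat_lit 336369) (nat_lit 27) (.e (nat_lit 426501) (nat_lit 27) (.e (nat_lit 336076) (nat_lit 9) (.e (nat_lit 336324) (nat_lit 18) (.e (nat_lit 204830) (nat_lit 18) (.e (nat_lit 57854) (nat_lit 252) .nil))))))) (.g (nat_lit 5) .nil .nil)))) (.nd (nat_lit 5) 
(.lf (nat_lit 154772) (.g (nat_lit 3906) (.e (nat_lit 57409) (nat_lit 12) (.e (nat_lit 336369) (nat_lit 27) (.e (nat_lit 426499) (nat_lit 27) (.e (nat_lit 336194) (nat_lit 12) (.e (nat_lit 385066) (nat_lit 26) (.e (nat_lit 532504) (nat_lit 1) (.e (nat_lit 57852) (nat_lit 252) .nil))))))) (.g (nat_lit 5) .nil .nil))) 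
(.lf (nat_lit 154804) (.g (nat_lit 2221) (.e (nat_lit 57409) (nat_lit 12) (.e (nat_lit 336369) (nat_lit 27) (.e (nat_lit 426501) (nat_lit 27) (.e (nat_lit 336196) (nat_lit 12) (.e (nat_lit 385066) (nat_lit 26) (.e (nat_lit 532501) (nat_lit 1) (.e (nat_lit 57852) (nat_lit 252) .nil))))))) (.g (nat_lit 4) .nil .nil))))) (.nd (nat_lit 4) (.nd (nat_lit 5) 
(.lf (nat_lit 154764) (.g (nat_lit 3185) (.e (nat_lit 57409) (nat_lit 12) (.e (nat_lit 336369) (nat_lit 27) (.e (nat_lit 426499) (nat_lit 27) (.e (nat_lit 336078) (nat_lit 9) (.e (nat_lit 336324) (nat_lit 18) (.e (nat_lit 204829) (nat_lit 18) (.e (nat_lit 57854) (nat_lit 252) .nil))))))) (.g (nat_lit 4) .nil .nil))) 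
(.lf (nat_lit 154796) (.g (nat_lit 3328) (.e (nat_lit 57409) (nat_lit 12) (.e (nat_lit 336369) (nat_lit 27) (.e (nat_lit 426501) (nat_lit 27) (.e (nat_lit 336088) (nat_lit 9) (.e (nat_lit 336019) (nat_lit 3) (.e (nat_lit 98333) (nat_lit 18) (.e (nat_lit 164183) (nat_lit 154) .nil))))))) (.g (nat_lit 5) .nil .nil)))) (.nd (nat_lit 5) 
(.lf (nat_lit 154780) (.g (nat_lit 2903) (.e (nat_lit 57409) (nat_lit 12) (.e (nat_lit 336369) (nat_lit 27) (.e (nat_lit 426499) (nat_lit 27) (.e (nat_lit 336196) (nat_lit 12) (.e (nat_lit 385068) (nat_lit 26) (.e (nat_lit 532499) (nat_lit 1) (.e (nat_lit 57847) (nat_lit 252) .nil))))))) (.g (nat_lit 4) .nil .nil))) 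
(.lf (nat_lit 154812) (.g (nat_lit 3182) (.e (nat_lit 57409) (nat_lit 12) (.e (nat_lit 336369) (nat_lit 27) (.e (nat_lit 426528) (nat_lit 27) (.e (nat_lit 336078) (nat_lit 9) (.e (nat_lit 336324) (nat_lit 18) (.e (nat_lit 204830) (nat_lit 18) (.e (nat_lit 57852) (nat_lit 252) .nil))))))) (.g (nat_lit 5) .nil .nil))))))) (.nd (nat_lit 2) (.nd (nat_lit 3) (.nd (nat_lit 4) (.nd (nat_lit 5) 
(.lf (nat_lit 154754) (.g (nat_lit 3357) (.e (nat_lit 57409) (nat_lit 12) (.e (nat_lit 336369) (nat_lit 27) (.e (nat_lit 426498) (nat_lit 27) (.e (nat_lit 336194) (nat_lit 12) (.e (nat_lit 385068) (nat_lit 26) (.e (nat_lit 532501) (nat_lit 1) (.e (nat_lit 57854) (nat_lit 252) .nil))))))) (.g (nat_lit 5) .nil .nil))) 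
(.lf (nat_lit 154786) (.g (nat_lit 3138) (.e (nat_lit 57409) (nat_lit 12) (.e (nat_lit 336369) (nat_lit 27) (.e (nat_lit 426501) (nat_lit 27) (.e (nat_lit 336076) (nat_lit 9) (.e (nat_lit 336324) (nat_lit 18) (.e (nat_lit 204829) (nat_lit 18) (.e (nat_lit 57854) (nat_lit 252) .nil))))))) (.g (nat_lit 5) .nil .nil)))) (.nd (nat_lit 5) 
(.lf (nat_lit 154770) (.g (nat_lit 3933) (.e (nat_lit 57409) (nat_lit 12) (.e (nat_lit 336369) (nat_lit 27) (.e (nat_lit 426499) (nat_lit 27) (.e (nat_lit 336194) (nat_lit 12) (.e (nat_lit 385066) (nat_lit 26) (.e (nat_lit 532501) (nat_lit 1) (.e (nat_lit 57852) (nat_lit 252) .nil))))))) (.g (nat_lit 5) .nil .nil))) 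
(.lf (nat_lit 154802) (.g (nat_lit 3783) (.e (nat_lit 57409) (nat_lit 12) (.e (nat_lit 336369) (nat_lit 27) (.e (nat_lit 426501) (nat_lit 27) (.e (nat_lit 336194) (nat_lit 12) (.e (nat_lit 385068) (nat_lit 26) (.e (nat_lit 532501) (nat_lit 1) (.e (nat_lit 57854) (nat_lit 252) .nil))))))) (.g (nat_lit 6) .nil .nil))))) (.nd (nat_lit 4) (.nd (nat_lit 5) 
(.lf (nat_lit 154762) (.g (nat_lit 3513) (.e (nat_lit 57409) (nat_lit 12) (.e (nat_lit 336369) (nat_lit 27) (.e (nat_lit 426499) (nat_lit 27) (.e (nat_lit 336076) (nat_lit 9) (.e (nat_lit 336324) (nat_lit 18) (.e (nat_lit 204831) (nat_lit 18) (.e (nat_lit 57852) (nat_lit 252) .nil))))))) (.g (nat_lit 4) .nil .nil))) 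
(.lf (nat_lit 154794) (.g (nat_lit 2956) (.e (nat_lit 57409) (nat_lit 12) (.e (nat_lit 336369) (nat_lit 27) (.e (nat_lit 426501) (nat_lit 27) (.e (nat_lit 336087) (nat_lit 9) (.e (nat_lit 336019) (nat_lit 3) (.e (nat_lit 98334) (nat_lit 18) (.e (nat_lit 164183) (nat_lit 154) .nil))))))) (.g (nat_lit 5) .nil .nil)))) (.nd (nat_lit 5) 
(.lf (nat_lit 154778) (.g (nat_lit 2826) (.e (nat_lit 57409) (nat_lit 12) (.e (nat_lit 336369) (nat_lit 27) (.e (nat_lit 426499) (nat_lit 27) (.e (nat_lit 336196) (nat_lit 12) (.e (nat_lit 385066) (nat_lit 26) (.e (nat_lit 532503) (nat_lit 1) (.e (nat_lit 57854) (nat_lit 252) .nil))))))) (.g (nat_lit 4) .nil .nil))) 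
(.lf (nat_lit 154810) (.g (nat_lit 2321) (.e (nat_lit 57409) (nat_lit 12) (.e (nat_lit 336369) (nat_lit 27) (.e (nat_lit 426528) (nat_lit 27) (.e (nat_lit 336076) (nat_lit 9) (.e (nat_lit 336324) (nat_lit 18) (.e (nat_lit 204830) (nat_lit 18) (.e (nat_lit 57852) (nat_lit 252) .nil))))))) (.g (nat_lit 4) .nil .nil)))))) (.nd (nat_lit 3) (.nd (nat_lit 4) (.nd (nat_lit 5) 
(.lf (nat_lit 154758) (.g (nat_lit 2346) (.e (nat_lit 57409) (nat_lit 12) (.e (nat_lit 336369) (nat_lit 27) (.e (nat_lit 426498) (nat_lit 27) (.e (nat_lit 336196) (nat_lit 12) (.e (nat_lit 385066) (nat_lit 26) (.e (nat_lit 532501) (nat_lit 1) (.e (nat_lit 57852) (nat_lit 252) .nil))))))) (.g (nat_lit 4) .nil .nil))) 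
(.lf (nat_lit 154790) (.g (nat_lit 2063) (.e (nat_lit 57409) (nat_lit 12) (.e (nat_lit 336369) (nat_lit 27) (.e (nat_lit 426501) (nat_lit 27) (.e (nat_lit 336076) (nat_lit 9) (.e (nat_lit 336326) (nat_lit 18) (.e (nat_lit 204831) (nat_lit 18) (.e (nat_lit 57852) (nat_lit 252) .nil))))))) (.g (nat_lit 4) .nil .nil)))) (.nd (nat_lit 5) 
(.lf (nat_lit 154774) (.g (nat_lit 3289) (.e (nat_lit 57409) (nat_lit 12) (.e (nat_lit 336369) (nat_lit 27) (.e (nat_lit 426499) (nat_lit 27) (.e (nat_lit 336194) (nat_lit 12) (.e (nat_lit 385068) (nat_lit 26) (.e (nat_lit 532501) (nat_lit 1) (.e (nat_lit 57854) (nat_lit 252) .nil))))))) (.g (nat_lit 4) .nil .nil))) 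
(.lf (nat_lit 154806) (.g (nat_lit 2884) (.e (nat_lit 57409) (nat_lit 12) (.e (nat_lit 336369) (nat_lit 27) (.e (nat_lit 426501) (nat_lit 27) (.e (nat_lit 336204) (nat_lit 12) (.e (nat_lit 385066) (nat_lit 26) (.e (nat_lit 532501) (nat_lit 1) (.e (nat_lit 57852) (nat_lit 252) .nil))))))) (.g (nat_lit 5) .nil .nil))))) (.nd (nat_lit 4) (.nd (nat_lit 5) 
(.lf (nat_lit 154766) (.g (nat_lit 3311) (.e (nat_lit 57409) (nat_lit 12) (.e (nat_lit 336369) (nat_lit 27) (.e (nat_lit 426499) (nat_lit 27) (.e (nat_lit 336078) (nat_lit 9) (.e (nat_lit 336324) (nat_lit 18) (.e (nat_lit 204830) (nat_lit 18) (.e (nat_lit 57854) (nat_lit 252) .nil))))))) (.g (nat_lit 4) .nil .nil))) 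
(.lf (nat_lit 154798) (.g (nat_lit 2749) (.e (nat_lit 57409) (nat_lit 12) (.e (nat_lit 336369) (nat_lit 27) (.e (nat_lit 426501) (nat_lit 27) (.e (nat_lit 336088) (nat_lit 9) (.e (nat_lit 336019) (nat_lit 3) (.e (nat_lit 98335) (nat_lit 18) (.e (nat_lit 164183) (nat_lit 154) .nil))))))) (.g (nat_lit 4) .nil .nil)))) (.nd (nat_lit 5) 
(.lf (nat_lit 154782) (.g (nat_lit 4618) (.e (nat_lit 57409) (nat_lit 12) (.e (nat_lit 336369) (nat_lit 27) (.e (nat_lit 426499) (nat_lit 27) (.e (nat_lit 336196) (nat_lit 12) (.e (nat_lit 385068) (nat_lit 26) (.e (nat_lit 532501) (nat_lit 1) (.e (nat_lit 57854) (nat_lit 252) .nil))))))) (.g (nat_lit 6) .nil .nil))) 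
(.lf (nat_lit 154814) (.g (nat_lit 2432) (.e (nat_lit 57409) (nat_lit 12) (.e (nat_lit 336369) (nat_lit 27) (.e (nat_lit 426528) (nat_lit 27) (.e (nat_lit 336194) (nat_lit 12) (.e (nat_lit 385066) (nat_lit 26) (.e (nat_lit 532504) (nat_lit 1) (.e (nat_lit 57852) (nat_lit 252) .nil))))))) (.g (nat_lit 4) .nil .nil)))))))) 
(.nd (nat_lit 1) (.nd (nat_lit 2) (.nd (nat_lit 3) (.nd (nat_lit 4) (.nd (nat_lit 5) 
(.lf (nat_lit 154753) (.g (nat_lit 2589) (.e (nat_lit 57409) (nat_lit 12) (.e (nat_lit 336369) (nat_lit 27) (.e (nat_lit 426498) (nat_lit 27) (.e (nat_lit 336194) (nat_lit 12) (.e (nat_lit 385066) (nat_lit 26) (.e (nat_lit 532504) (nat_lit 1) (.e (nat_lit 57854) (nat_lit 252) .nil))))))) (.g (nat_lit 4) .nil .nil))) 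
(.lf (nat_lit 154785) (.g (nat_lit 4854) (.e (nat_lit 57409) (nat_lit 12) (.e (nat_lit 336369) (nat_lit 27) (.e (nat_lit 426501) (nat_lit 27) (.e (nat_lit 336075) (nat_lit 9) (.e (nat_lit 336324) (nat_lit 18) (.e (nat_lit 204831) (nat_lit 18) (.e (nat_lit 57852) (nat_lit 252) .nil))))))) (.g (nat_lit 7) .nil .nil)))) (.nd (nat_lit 5) 
(.lf (nat_lit 154769) (.g (nat_lit 2984) (.e (nat_lit 57409) (nat_lit 12) (.e (nat_lit 336369) (nat_lit 27) (.e (nat_lit 426499) (nat_lit 27) (.e (nat_lit 336194) (nat_lit 12) (.e (nat_lit 385066) (nat_lit 26) (.e (nat_lit 532499) (nat_lit 1) (.e (nat_lit 57854) (nat_lit 252) .nil))))))) (.g (nat_lit 4) .nil .nil))) 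
(.lf (nat_lit 154801) (.g (nat_lit 2752) (.e (nat_lit 57409) (nat_lit 12) (.e (nat_lit 336369) (nat_lit 27) (.e (nat_lit 426501) (nat_lit 27) (.e (nat_lit 336194) (nat_lit 12) (.e (nat_lit 385066) (nat_lit 26) (.e (nat_lit 532504) (nat_lit 1) (.e (nat_lit 57854) (nat_lit 252) .nil))))))) (.g (nat_lit 4) .nil .nil))))) (.nd (nat_lit 4) (.nd (nat_lit 5) 
(.lf (nat_lit 154761) (.g (nat_lit 3127) (.e (nat_lit 57409) (nat_lit 12) (.e (nat_lit 336369) (nat_lit 27) (.e (nat_lit 426499) (nat_lit 27) (.e (nat_lit 336076) (nat_lit 9) (.e (nat_lit 336324) (nat_lit 18) (.e (nat_lit 204830) (nat_lit 18) (.e (nat_lit 57852) (nat_lit 252) .nil))))))) (.g (nat_lit 4) .nil .nil))) 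
(.lf (nat_lit 154793) (.g (nat_lit 3256) (.e (nat_lit 57409) (nat_lit 12) (.e (nat_lit 336369) (nat_lit 27) (.e (nat_lit 426501) (nat_lit 27) (.e (nat_lit 336087) (nat_lit 9) (.e (nat_lit 336019) (nat_lit 3) (.e (nat_lit 98333) (nat_lit 18) (.e (nat_lit 164183) (nat_lit 154) .nil))))))) (.g (nat_lit 5) .nil .nil)))) (.nd (nat_lit 5) 
(.lf (nat_lit 154777) (.g (nat_lit 3926) (.e (nat_lit 57409) (nat_lit 12) (.e (nat_lit 336369) (nat_lit 27) (.e (nat_lit 426499) (nat_lit 27) (.e (nat_lit 336196) (nat_lit 12) (.e (nat_lit 385066) (nat_lit 26) (.e (nat_lit 532501) (nat_lit 1) (.e (nat_lit 57854) (nat_lit 252) .nil))))))) (.g (nat_lit 5) .nil .nil))) 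
(.lf (nat_lit 154809) (.g (nat_lit 591) (.e (nat_lit 57409) (nat_lit 12) (.e (nat_lit 336369) (nat_lit 27) (.e (nat_lit 426526) (nat_lit 27) .nil))) .nil))))) (.nd (nat_lit 3) (.nd (nat_lit 4) (.nd (nat_lit 5) 
(.lf (nat_lit 154757) (.g (nat_lit 2097) (.e (nat_lit 57409) (nat_lit 12) (.e (nat_lit 336369) (nat_lit 27) (.e (nat_lit 426498) (nat_lit 27) (.e (nat_lit 336195) (nat_lit 12) (.e (nat_lit 385066) (nat_lit 26) (.e (nat_lit 532501) (nat_lit 1) (.e (nat_lit 57852) (nat_lit 252) .nil))))))) (.g (nat_lit 4) .nil .nil))) 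
(.lf (nat_lit 154789) (.g (nat_lit 4403) (.e (nat_lit 57409) (nat_lit 12) (.e (nat_lit 336369) (nat_lit 27) (.e (nat_lit 426501) (nat_lit 27) (.e (nat_lit 336076) (nat_lit 9) (.e (nat_lit 336324) (nat_lit 18) (.e (nat_lit 204831) (nat_lit 18) (.e (nat_lit 57852) (nat_lit 252) .nil))))))) (.g (nat_lit 7) .nil .nil)))) (.nd (nat_lit 5) 
(.lf (nat_lit 154773) (.g (nat_lit 2952) (.e (nat_lit 57409) (nat_lit 12) (.e (nat_lit 336369) (nat_lit 27) (.e (nat_lit 426499) (nat_lit 27) (.e (nat_lit 336194) (nat_lit 12) (.e (nat_lit 385068) (nat_lit 26) (.e (nat_lit 532501) (nat_lit 1) (.e (nat_lit 57852) (nat_lit 252) .nil))))))) (.g (nat_lit 4) .nil .nil))) 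
(.lf (nat_lit 154805) (.g (nat_lit 2240) (.e (nat_lit 57409) (nat_lit 12) (.e (nat_lit 336369) (nat_lit 27) (.e (nat_lit 426501) (nat_lit 27) (.e (nat_lit 336196) (nat_lit 12) (.e (nat_lit 385066) (nat_lit 26) (.e (nat_lit 532504) (nat_lit 1) (.e (nat_lit 57852) (nat_lit 252) .nil))))))) (.g (nat_lit 4) .nil .nil))))) (.nd (nat_lit 4) (.nd (nat_lit 5) 
(.lf (nat_lit 154765) (.g (nat_lit 4188) (.e (nat_lit 57409) (nat_lit 12) (.e (nat_lit 336369) (nat_lit 27) (.e (nat_lit 426499) (nat_lit 27) (.e (nat_lit 336078) (nat_lit 9) (.e (nat_lit 336324) (nat_lit 18) (.e (nat_lit 204830) (nat_lit 18) (.e (nat_lit 57852) (nat_lit 252) .nil))))))) (.g (nat_lit 6) .nil .nil))) 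
(.lf (nat_lit 154797) (.g (nat_lit 3052) (.e (nat_lit 57409) (nat_lit 12) (.e (nat_lit 336369) (nat_lit 27) (.e (nat_lit 426501) (nat_lit 27) (.e (nat_lit 336088) (nat_lit 9) (.e (nat_lit 336019) (nat_lit 3) (.e (nat_lit 98334) (nat_lit 18) (.e (nat_lit 164183) (nat_lit 154) .nil))))))) (.g (nat_lit 5) .nil .nil)))) (.nd (nat_lit 5) 
(.lf (nat_lit 154781) (.g (nat_lit 4919) (.e (nat_lit 57409) (nat_lit 12) (.e (nat_lit 336369) (nat_lit 27) (.e (nat_lit 426499) (nat_lit 27) (.e (nat_lit 336196) (nat_lit 12) (.e (nat_lit 385068) (nat_lit 26) (.e (nat_lit 532501) (nat_lit 1) (.e (nat_lit 57852) (nat_lit 252) .nil))))))) (.g (nat_lit 6) .nil .nil))) 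
(.lf (nat_lit 154813) (.g (nat_lit 2450) (.e (nat_lit 57409) (nat_lit 12) (.e (nat_lit 336369) (nat_lit 27) (.e (nat_lit 426528) (nat_lit 27) (.e (nat_lit 336194) (nat_lit 12) (.e (nat_lit 385066) (nat_lit 26) (.e (nat_lit 532501) (nat_lit 1) (.e (nat_lit 57852) (nat_lit 252) .nil))))))) (.g (nat_lit 4) .nil .nil))))))) (.nd (nat_lit 2) (.nd (nat_lit 3) (.nd (nat_lit 4) (.nd (nat_lit 5) 
(.lf (nat_lit 154755) (.g (nat_lit 3420) (.e (nat_lit 57409) (nat_lit 12) (.e (nat_lit 336369) (nat_lit 27) (.e (nat_lit 426498) (nat_lit 27) (.e (nat_lit 336194) (nat_lit 12) (.e (nat_lit 385068) (nat_lit 26) (.e (nat_lit 532504) (nat_lit 1) (.e (nat_lit 57852) (nat_lit 252) .nil))))))) (.g (nat_lit 5) .nil .nil))) 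
(.lf (nat_lit 154787) (.g (nat_lit 4134) (.e (nat_lit 57409) (nat_lit 12) (.e (nat_lit 336369) (nat_lit 27) (.e (nat_lit 426501) (nat_lit 27) (.e (nat_lit 336076) (nat_lit 9) (.e (nat_lit 336324) (nat_lit 18) (.e (nat_lit 204830) (nat_lit 18) (.e (nat_lit 57852) (nat_lit 252) .nil))))))) (.g (nat_lit 7) .nil .nil)))) (.nd (nat_lit 5) 
(.lf (nat_lit 154771) (.g (nat_lit 4090) (.e (nat_lit 57409) (nat_lit 12) (.e (nat_lit 336369) (nat_lit 27) (.e (nat_lit 426499) (nat_lit 27) (.e (nat_lit 336194) (nat_lit 12) (.e (nat_lit 385066) (nat_lit 26) (.e (nat_lit 532502) (nat_lit 1) (.e (nat_lit 57854) (nat_lit 252) .nil))))))) (.g (nat_lit 4) .nil .nil))) 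
(.lf (nat_lit 154803) (.g (nat_lit 2404) (.e (nat_lit 57409) (nat_lit 12) (.e (nat_lit 336369) (nat_lit 27) (.e (nat_lit 426501) (nat_lit 27) (.e (nat_lit 336195) (nat_lit 12) (.e (nat_lit 385066) (nat_lit 26) (.e (nat_lit 532504) (nat_lit 1) (.e (nat_lit 57852) (nat_lit 252) .nil))))))) (.g (nat_lit 5) .nil .nil))))) (.nd (nat_lit 4) (.nd (nat_lit 5) 
(.lf (nat_lit 154763) (.g (nat_lit 3613) (.e (nat_lit 57409) (nat_lit 12) (.e (nat_lit 336369) (nat_lit 27) (.e (nat_lit 426499) (nat_lit 27) (.e (nat_lit 336076) (nat_lit 9) (.e (nat_lit 336324) (nat_lit 18) (.e (nat_lit 204831) (nat_lit 18) (.e (nat_lit 57854) (nat_lit 252) .nil))))))) (.g (nat_lit 4) .nil .nil))) 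
(.lf (nat_lit 154795) (.g (nat_lit 2679) (.e (nat_lit 57409) (nat_lit 12) (.e (nat_lit 336369) (nat_lit 27) (.e (nat_lit 426501) (nat_lit 27) (.e (nat_lit 336087) (nat_lit 9) (.e (nat_lit 336019) (nat_lit 3) (.e (nat_lit 98335) (nat_lit 18) (.e (nat_lit 164183) (nat_lit 154) .nil))))))) (.g (nat_lit 4) .nil .nil)))) (.nd (nat_lit 5) 
(.lf (nat_lit 154779) (.g (nat_lit 4184) (.e (nat_lit 57409) (nat_lit 12) (.e (nat_lit 336369) (nat_lit 27) (.e (nat_lit 426499) (nat_lit 27) (.e (nat_lit 336196) (nat_lit 12) (.e (nat_lit 385066) (nat_lit 26) (.e (nat_lit 532504) (nat_lit 1) (.e (nat_lit 57854) (nat_lit 252) .nil))))))) (.g (nat_lit 5) .nil .nil))) 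
(.lf (nat_lit 154811) (.g (nat_lit 2704) (.e (nat_lit 57409) (nat_lit 12) (.e (nat_lit 336369) (nat_lit 27) (.e (nat_lit 426528) (nat_lit 27) (.e (nat_lit 336076) (nat_lit 9) (.e (nat_lit 336324) (nat_lit 18) (.e (nat_lit 204831) (nat_lit 18) (.e (nat_lit 57852) (nat_lit 252) .nil))))))) (.g (nat_lit 4) .nil .nil)))))) (.nd (nat_lit 3) (.nd (nat_lit 4) (.nd (nat_lit 5) 
(.lf (nat_lit 154759) (.g (nat_lit 2365) (.e (nat_lit 57409) (nat_lit 12) (.e (nat_lit 336369) (nat_lit 27) (.e (nat_lit 426498) (nat_lit 27) (.e (nat_lit 336196) (nat_lit 12) (.e (nat_lit 385066) (nat_lit 26) (.e (nat_lit 532504) (nat_lit 1) (.e (nat_lit 57852) (nat_lit 252) .nil))))))) (.g (nat_lit 4) .nil .nil))) 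
(.lf (nat_lit 154791) (.g (nat_lit 2729) (.e (nat_lit 57409) (nat_lit 12) (.e (nat_lit 336369) (nat_lit 27) (.e (nat_lit 426501) (nat_lit 27) (.e (nat_lit 336078) (nat_lit 9) (.e (nat_lit 336324) (nat_lit 18) (.e (nat_lit 204830) (nat_lit 18) (.e (nat_lit 57852) (nat_lit 252) .nil))))))) (.g (nat_lit 5) .nil .nil)))) (.nd (nat_lit 5) 
(.lf (nat_lit 154775) (.g (nat_lit 3423) (.e (nat_lit 57409) (nat_lit 12) (.e (nat_lit 336369) (nat_lit 27) (.e (nat_lit 426499) (nat_lit 27) (.e (nat_lit 336194) (nat_lit 12) (.e (nat_lit 385068) (nat_lit 26) (.e (nat_lit 532504) (nat_lit 1) (.e (nat_lit 57852) (nat_lit 252) .nil))))))) (.g (nat_lit 4) .nil .nil))) 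
(.lf (nat_lit 154807) (.g (nat_lit 2903) (.e (nat_lit 57409) (nat_lit 12) (.e (nat_lit 336369) (nat_lit 27) (.e (nat_lit 426501) (nat_lit 27) (.e (nat_lit 336204) (nat_lit 12) (.e (nat_lit 385066) (nat_lit 26) (.e (nat_lit 532504) (nat_lit 1) (.e (nat_lit 57852) (nat_lit 252) .nil))))))) (.g (nat_lit 5) .nil .nil))))) (.nd (nat_lit 4) (.nd (nat_lit 5) 
(.lf (nat_lit 154767) (.g (nat_lit 4481) (.e (nat_lit 57409) (nat_lit 12) (.e (nat_lit 336369) (nat_lit 27) (.e (nat_lit 426499) (nat_lit 27) (.e (nat_lit 336078) (nat_lit 9) (.e (nat_lit 336324) (nat_lit 18) (.e (nat_lit 204831) (nat_lit 18) (.e (nat_lit 57852) (nat_lit 252) .nil))))))) (.g (nat_lit 6) .nil .nil))) 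
(.lf (nat_lit 154799) (.g (nat_lit 2226) (.e (nat_lit 57409) (nat_lit 12) (.e (nat_lit 336369) (nat_lit 27) (.e (nat_lit 426501) (nat_lit 27) (.e (nat_lit 336088) (nat_lit 9) (.e (nat_lit 336324) (nat_lit 18) (.e (nat_lit 204831) (nat_lit 18) (.e (nat_lit 57852) (nat_lit 252) .nil))))))) (.g (nat_lit 4) .nil .nil)))) (.nd (nat_lit 5) 
(.lf (nat_lit 154783) (.g (nat_lit 4735) (.e (nat_lit 57409) (nat_lit 12) (.e (nat_lit 336369) (nat_lit 27) (.e (nat_lit 426499) (nat_lit 27) (.e (nat_lit 336196) (nat_lit 12) (.e (nat_lit 385068) (nat_lit 26) (.e (nat_lit 532504) (nat_lit 1) (.e (nat_lit 57854) (nat_lit 252) .nil))))))) (.g (nat_lit 6) .nil .nil))) 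
(.lf (nat_lit 154815) (.g (nat_lit 2581) (.e (nat_lit 57409) (nat_lit 12) (.e (nat_lit 336370) (nat_lit 27) (.e (nat_lit 426497) (nat_lit 27) (.e (nat_lit 336194) (nat_lit 12) (.e (nat_lit 385066) (nat_lit 26) (.e (nat_lit 532501) (nat_lit 1) (.e (nat_lit 57852) (nat_lit 252) .nil))))))) (.g (nat_lit 5) .nil .nil)))))))))

noncomputable def tv2066 : DT := (.nd (nat_lit 0) (.nd (nat_lit 1) (.nd (nat_lit 2) (.nd (nat_lit 3) (.nd (nat_lit 4) (.nd (nat_lit 5) 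
(.lf (nat_lit 154816) (.g (nat_lit 2659) (.e (nat_lit 57409) (nat_lit 12) (.e (nat_lit 336370) (nat_lit 27) (.e (nat_lit 426497) (nat_lit 27) (.e (nat_lit 336194) (nat_lit 12) (.e (nat_lit 385066) (nat_lit 26) (.e (nat_lit 532504) (nat_lit 1) (.e (nat_lit 57852) (nat_lit 252) .nil))))))) (.g (nat_lit 5) .nil .nil))) 
(.lf (nat_lit 154848) (.g (nat_lit 2044) (.e (nat_lit 57409) (nat_lit 12) (.e (nat_lit 336414) (nat_lit 27) (.e (nat_lit 426503) (nat_lit 27) (.e (nat_lit 336075) (nat_lit 9) (.e (nat_lit 336324) (nat_lit 18) (.e (nat_lit 204830) (nat_lit 18) (.e (nat_lit 57852) (nat_lit 252) .nil))))))) (.g (nat_lit 4) .nil .nil)))) (.nd (nat_lit 5) 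
(.lf (nat_lit 154832) (.g (nat_lit 2814) (.e (nat_lit 57409) (nat_lit 12) (.e (nat_lit 336379) (nat_lit 27) (.e (nat_lit 426522) (nat_lit 27) (.e (nat_lit 336194) (nat_lit 12) (.e (nat_lit 385068) (nat_lit 26) (.e (nat_lit 532501) (nat_lit 1) (.e (nat_lit 57854) (nat_lit 252) .nil))))))) (.g (nat_lit 5) .nil .nil))) 
(.lf (nat_lit 154864) (.g (nat_lit 3708) (.e (nat_lit 57409) (nat_lit 12) (.e (nat_lit 336414) (nat_lit 27) (.e (nat_lit 426503) (nat_lit 27) (.e (nat_lit 336196) (nat_lit 12) (.e (nat_lit 385068) (nat_lit 26) (.e (nat_lit 532504) (nat_lit 1) (.e (nat_lit 57854) (nat_lit 252) .nil))))))) (.g (nat_lit 6) .nil .nil))))) (.nd (nat_lit 4) (.nd (nat_lit 5) 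
(.lf (nat_lit 154824) (.g (nat_lit 4218) (.e (nat_lit 57409) (nat_lit 12) (.e (nat_lit 336370) (nat_lit 27) (.e (nat_lit 426499) (nat_lit 27) (.e (nat_lit 336196) (nat_lit 12) (.e (nat_lit 385066) (nat_lit 26) (.e (nat_lit 532504) (nat_lit 1) (.e (nat_lit 57852) (nat_lit 252) .nil))))))) (.g (nat_lit 7) .nil .nil))) 
(.lf (nat_lit 154856) (.g (nat_lit 3356) (.e (nat_lit 57409) (nat_lit 12) (.e (nat_lit 336414) (nat_lit 27) (.e (nat_lit 426503) (nat_lit 27) (.e (nat_lit 336194) (nat_lit 12) (.e (nat_lit 385066) (nat_lit 26) (.e (nat_lit 532504) (nat_lit 1) (.e (nat_lit 57852) (nat_lit 252) .nil))))))) (.g (nat_lit 5) .nil .nil)))) (.nd (nat_lit 5) 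
(.lf (nat_lit 154840) (.g (nat_lit 3140) (.e (nat_lit 57409) (nat_lit 12) (.e (nat_lit 336395) (nat_lit 27) (.e (nat_lit 426528) (nat_lit 27) (.e (nat_lit 336194) (nat_lit 12) (.e (nat_lit 385066) (nat_lit 26) (.e (nat_lit 532502) (nat_lit 1) (.e (nat_lit 57854) (nat_lit 252) .nil))))))) (.g (nat_lit 5) .nil .nil))) 
(.lf (nat_lit 154872) (.g (nat_lit 2333) (.e (nat_lit 57409) (nat_lit 12) (.e (nat_lit 336430) (nat_lit 29) (.e (nat_lit 442425) (nat_lit 23) (.e (nat_lit 204808) (nat_lit 9) (.e (nat_lit 426100) (nat_lit 1) (.e (nat_lit 164399) (nat_lit 256) .nil)))))) (.g (nat_lit 6) .nil .nil)))))) (.nd (nat_lit 3) (.nd (nat_lit 4) (.nd (nat_lit 5) 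
(.lf (nat_lit 154820) (.g (nat_lit 2670) (.e (nat_lit 57409) (nat_lit 12) (.e (nat_lit 336370) (nat_lit 27) (.e (nat_lit 426499) (nat_lit 27) (.e (nat_lit 336078) (nat_lit 9) (.e (nat_lit 336324) (nat_lit 18) (.e (nat_lit 204830) (nat_lit 18) (.e (nat_lit 57852) (nat_lit 252) .nil))))))) (.g (nat_lit 5) .nil .nil))) 
(.lf (nat_lit 154852) (.g (nat_lit 3136) (.e (nat_lit 57409) (nat_lit 12) (.e (nat_lit 336414) (nat_lit 27) (.e (nat_lit 426503) (nat_lit 27) (.e (nat_lit 336078) (nat_lit 9) (.e (nat_lit 336324) (nat_lit 18) (.e (nat_lit 204830) (nat_lit 18) (.e (nat_lit 57854) (nat_lit 252) .nil))))))) (.g (nat_lit 5) .nil .nil)))) (.nd (nat_lit 5) 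
(.lf (nat_lit 154836) (.g (nat_lit 2849) (.e (nat_lit 57409) (nat_lit 12) (.e (nat_lit 336395) (nat_lit 27) (.e (nat_lit 426499) (nat_lit 27) (.e (nat_lit 336196) (nat_lit 12) (.e (nat_lit 385066) (nat_lit 26) (.e (nat_lit 532504) (nat_lit 1) (.e (nat_lit 57852) (nat_lit 252) .nil))))))) (.g (nat_lit 4) .nil .nil))) 
(.lf (nat_lit 154868) (.g (nat_lit 1109) (.e (nat_lit 57409) (nat_lit 12) (.e (nat_lit 336426) (nat_lit 29) (.e (nat_lit 442427) (nat_lit 23) (.e (nat_lit 204808) (nat_lit 9) .nil)))) .nil)))) (.nd (nat_lit 4) (.nd (nat_lit 5) 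
(.lf (nat_lit 154828) (.g (nat_lit 1944) (.e (nat_lit 57409) (nat_lit 12) (.e (nat_lit 336377) (nat_lit 27) (.e (nat_lit 426524) (nat_lit 27) (.e (nat_lit 336088) (nat_lit 9) (.e (nat_lit 336019) (nat_lit 3) (.e (nat_lit 98335) (nat_lit 18) (.e (nat_lit 164183) (nat_lit 154) .nil))))))) (.g (nat_lit 4) .nil .nil))) 
(.lf (nat_lit 154860) (.g (nat_lit 4587) (.e (nat_lit 57409) (nat_lit 12) (.e (nat_lit 336414) (nat_lit 27) (.e (nat_lit 426503) (nat_lit 27) (.e (nat_lit 336196) (nat_lit 12) (.e (nat_lit 385066) (nat_lit 26) (.e (nat_lit 532501) (nat_lit 1) (.e (nat_lit 57852) (nat_lit 252) .nil))))))) (.g (nat_lit 0) .nil .nil)))) (.nd (nat_lit 5) 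
(.lf (nat_lit 154844) (.g (nat_lit 2710) (.e (nat_lit 57409) (nat_lit 12) (.e (nat_lit 336398) (nat_lit 27) (.e (nat_lit 426499) (nat_lit 27) (.e (nat_lit 336196) (nat_lit 12) (.e (nat_lit 385066) (nat_lit 26) (.e (nat_lit 532501) (nat_lit 1) (.e (nat_lit 57852) (nat_lit 252) .nil))))))) (.g (nat_lit 4) .nil .nil))) 
(.lf (nat_lit 154876) (.g (nat_lit 2280) (.e (nat_lit 57409) (nat_lit 12) (.e (nat_lit 336430) (nat_lit 29) (.e (nat_lit 442425) (nat_lit 23) (.e (nat_lit 204809) (nat_lit 9) (.e (nat_lit 426099) (nat_lit 1) (.e (nat_lit 164399) (nat_lit 256) .nil)))))) (.g (nat_lit 6) .nil .nil))))))) (.nd (nat_lit 2) (.nd (nat_lit 3) (.nd (nat_lit 4) (.nd (nat_lit 5) 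
(.lf (nat_lit 154818) (.g (nat_lit 2525) (.e (nat_lit 57409) (nat_lit 12) (.e (nat_lit 336370) (nat_lit 27) (.e (nat_lit 426498) (nat_lit 27) (.e (nat_lit 336194) (nat_lit 12) (.e (nat_lit 385066) (nat_lit 26) (.e (nat_lit 532501) (nat_lit 1) (.e (nat_lit 57852) (nat_lit 252) .nil))))))) (.g (nat_lit 5) .nil .nil))) 
(.lf (nat_lit 154850) (.g (nat_lit 3645) (.e (nat_lit 57409) (nat_lit 12) (.e (nat_lit 336414) (nat_lit 27) (.e (nat_lit 426503) (nat_lit 27) (.e (nat_lit 336076) (nat_lit 9) (.e (nat_lit 336324) (nat_lit 18) (.e (nat_lit 204831) (nat_lit 18) (.e (nat_lit 57854) (nat_lit 252) .nil))))))) (.g (nat_lit 5) .nil .nil)))) (.nd (nat_lit 5) 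
(.lf (nat_lit 154834) (.g (nat_lit 2037) (.e (nat_lit 57409) (nat_lit 12) (.e (nat_lit 336393) (nat_lit 27) (.e (nat_lit 426523) (nat_lit 27) (.e (nat_lit 336076) (nat_lit 9) (.e (nat_lit 336324) (nat_lit 18) (.e (nat_lit 204831) (nat_lit 18) (.e (nat_lit 57852) (nat_lit 252) .nil))))))) (.g (nat_lit 4) .nil .nil))) 
(.lf (nat_lit 154866) (.g (nat_lit 1766) (.e (nat_lit 57409) (nat_lit 12) (.e (nat_lit 336414) (nat_lit 27) (.e (nat_lit 426552) (nat_lit 32) (.e (nat_lit 376869) (nat_lit 23) (.e (nat_lit 98333) (nat_lit 18) (.e (nat_lit 164183) (nat_lit 154) .nil)))))) (.g (nat_lit 4) .nil .nil))))) (.nd (nat_lit 4) (.nd (nat_lit 5) 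
(.lf (nat_lit 154826) (.g (nat_lit 3330) (.e (nat_lit 57409) (nat_lit 12) (.e (nat_lit 336370) (nat_lit 27) (.e (nat_lit 426499) (nat_lit 27) (.e (nat_lit 336196) (nat_lit 12) (.e (nat_lit 385068) (nat_lit 26) (.e (nat_lit 532501) (nat_lit 1) (.e (nat_lit 57854) (nat_lit 252) .nil))))))) (.g (nat_lit 5) .nil .nil))) 
(.lf (nat_lit 154858) (.g (nat_lit 2742) (.e (nat_lit 57409) (nat_lit 12) (.e (nat_lit 336414) (nat_lit 27) (.e (nat_lit 426503) (nat_lit 27) (.e (nat_lit 336194) (nat_lit 12) (.e (nat_lit 385068) (nat_lit 26) (.e (nat_lit 532504) (nat_lit 1) (.e (nat_lit 57854) (nat_lit 252) .nil))))))) (.g (nat_lit 4) .nil .nil)))) (.nd (nat_lit 5) 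
(.lf (nat_lit 154842) (.g (nat_lit 2362) (.e (nat_lit 57409) (nat_lit 12) (.e (nat_lit 336395) (nat_lit 27) (.e (nat_lit 426528) (nat_lit 27) (.e (nat_lit 336194) (nat_lit 12) (.e (nat_lit 385068) (nat_lit 26) (.e (nat_lit 532504) (nat_lit 1) (.e (nat_lit 57854) (nat_lit 252) .nil))))))) (.g (nat_lit 4) .nil .nil))) 
(.lf (nat_lit 154874) (.g (nat_lit 2822) (.e (nat_lit 57409) (nat_lit 12) (.e (nat_lit 336430) (nat_lit 29) (.e (nat_lit 442425) (nat_lit 23) (.e (nat_lit 204809) (nat_lit 9) (.e (nat_lit 426098) (nat_lit 1) (.e (nat_lit 164398) (nat_lit 256) .nil)))))) (.g (nat_lit 0) .nil .nil)))))) (.nd (nat_lit 3) (.nd (nat_lit 4) (.nd (nat_lit 5) 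
(.lf (nat_lit 154822) (.g (nat_lit 3001) (.e (nat_lit 57409) (nat_lit 12) (.e (nat_lit 336370) (nat_lit 27) (.e (nat_lit 426499) (nat_lit 27) (.e (nat_lit 336196) (nat_lit 12) (.e (nat_lit 385066) (nat_lit 26) (.e (nat_lit 532499) (nat_lit 1) (.e (nat_lit 57854) (nat_lit 252) .nil))))))) (.g (nat_lit 5) .nil .nil))) 
(.lf (nat_lit 154854) (.g (nat_lit 2252) (.e (nat_lit 57409) (nat_lit 12) (.e (nat_lit 336414) (nat_lit 27) (.e (nat_lit 426503) (nat_lit 27) (.e (nat_lit 336194) (nat_lit 12) (.e (nat_lit 385066) (nat_lit 26) .nil))))) .nil))) (.nd (nat_lit 5) 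
(.lf (nat_lit 154838) (.g (nat_lit 3802) (.e (nat_lit 57409) (nat_lit 12) (.e (nat_lit 336395) (nat_lit 27) (.e (nat_lit 426528) (nat_lit 27) (.e (nat_lit 336078) (nat_lit 9) (.e (nat_lit 336324) (nat_lit 18) (.e (nat_lit 204830) (nat_lit 18) (.e (nat_lit 57852) (nat_lit 252) .nil))))))) (.g (nat_lit 0) .nil .nil))) 
(.lf (nat_lit 154870) (.g (nat_lit 483) (.e (nat_lit 57409) (nat_lit 12) (.e (nat_lit 336430) (nat_lit 29) (.e (nat_lit 442422) (nat_lit 22) .nil))) .nil)))) (.nd (nat_lit 4) (.nd (nat_lit 5) 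
(.lf (nat_lit 154830) (.g (nat_lit 2545) (.e (nat_lit 57409) (nat_lit 12) (.e (nat_lit 336379) (nat_lit 27) (.e (nat_lit 426521) (nat_lit 27) (.e (nat_lit 336076) (nat_lit 9) (.e (nat_lit 336324) (nat_lit 18) (.e (nat_lit 204831) (nat_lit 18) (.e (nat_lit 57852) (nat_lit 252) .nil))))))) (.g (nat_lit 5) .nil .nil))) 
(.lf (nat_lit 154862) (.g (nat_lit 4479) (.e (nat_lit 57409) (nat_lit 12) (.e (nat_lit 336414) (nat_lit 27) (.e (nat_lit 426503) (nat_lit 27) (.e (nat_lit 336196) (nat_lit 12) (.e (nat_lit 385066) (nat_lit 26) (.e (nat_lit 532504) (nat_lit 1) (.e (nat_lit 57852) (nat_lit 252) .nil))))))) (.g (nat_lit 0) .nil .nil)))) (.nd (nat_lit 5) 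
(.lf (nat_lit 154846) (.g (nat_lit 2507) (.e (nat_lit 57409) (nat_lit 12) (.e (nat_lit 336399) (nat_lit 27) (.e (nat_lit 426523) (nat_lit 27) (.e (nat_lit 336194) (nat_lit 12) (.e (nat_lit 385066) (nat_lit 26) (.e (nat_lit 532501) (nat_lit 1) (.e (nat_lit 57852) (nat_lit 252) .nil))))))) (.g (nat_lit 5) .nil .nil))) 
(.lf (nat_lit 154878) (.g (nat_lit 2612) (.e (nat_lit 57409) (nat_lit 12) (.e (nat_lit 336430) (nat_lit 29) (.e (nat_lit 442425) (nat_lit 23) (.e (nat_lit 204809) (nat_lit 9) (.e (nat_lit 426100) (nat_lit 1) (.e (nat_lit 164399) (nat_lit 256) .nil)))))) (.g (nat_lit 0) .nil .nil)))))))) (.nd (nat_lit 1) (.nd (nat_lit 2) (.nd (nat_lit 3) (.nd (nat_lit 4) (.nd (nat_lit 5) 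
(.lf (nat_lit 154817) (.g (nat_lit 2456) (.e (nat_lit 57409) (nat_lit 12) (.e (nat_lit 336370) (nat_lit 27) (.e (nat_lit 426498) (nat_lit 27) (.e (nat_lit 336076) (nat_lit 9) (.e (nat_lit 336324) (nat_lit 18) (.e (nat_lit 204830) (nat_lit 18) (.e (nat_lit 57852) (nat_lit 252) .nil))))))) (.g (nat_lit 5) .nil .nil))) 
(.lf (nat_lit 154849) (.g (nat_lit 3570) (.e (nat_lit 57409) (nat_lit 12) (.e (nat_lit 336414) (nat_lit 27) (.e (nat_lit 426503) (nat_lit 27) (.e (nat_lit 336076) (nat_lit 9) (.e (nat_lit 336324) (nat_lit 18) (.e (nat_lit 204831) (nat_lit 18) (.e (nat_lit 57852) (nat_lit 252) .nil))))))) (.g (nat_lit 6) .nil .nil)))) (.nd (nat_lit 5) 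
(.lf (nat_lit 154833) (.g (nat_lit 2233) (.e (nat_lit 57409) (nat_lit 12) (.e (nat_lit 336392) (nat_lit 27) (.e (nat_lit 426497) (nat_lit 27) (.e (nat_lit 336076) (nat_lit 9) (.e (nat_lit 336324) (nat_lit 18) (.e (nat_lit 204831) (nat_lit 18) (.e (nat_lit 57852) (nat_lit 252) .nil))))))) (.g (nat_lit 4) .nil .nil))) 
(.lf (nat_lit 154865) (.g (nat_lit 414) (.e (nat_lit 57409) (nat_lit 12) (.e (nat_lit 336414) (nat_lit 27) (.e (nat_lit 433920) (nat_lit 30) .nil))) .nil)))) (.nd (nat_lit 4) (.nd (nat_lit 5) 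
(.lf (nat_lit 154825) (.g (nat_lit 2901) (.e (nat_lit 57409) (nat_lit 12) (.e (nat_lit 336370) (nat_lit 27) (.e (nat_lit 426499) (nat_lit 27) (.e (nat_lit 336196) (nat_lit 12) (.e (nat_lit 385066) (nat_lit 26) (.e (nat_lit 532504) (nat_lit 1) (.e (nat_lit 57854) (nat_lit 252) .nil))))))) (.g (nat_lit 5) .nil .nil))) 
(.lf (nat_lit 154857) (.g (nat_lit 2623) (.e (nat_lit 57409) (nat_lit 12) (.e (nat_lit 336414) (nat_lit 27) (.e (nat_lit 426503) (nat_lit 27) (.e (nat_lit 336194) (nat_lit 12) (.e (nat_lit 385068) (nat_lit 26) (.e (nat_lit 532501) (nat_lit 1) (.e (nat_lit 57854) (nat_lit 252) .nil))))))) (.g (nat_lit 4) .nil .nil)))) (.nd (nat_lit 5) 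
(.lf (nat_lit 154841) (.g (nat_lit 2251) (.e (nat_lit 57409) (nat_lit 12) (.e (nat_lit 336395) (nat_lit 27) (.e (nat_lit 426528) (nat_lit 27) (.e (nat_lit 336194) (nat_lit 12) (.e (nat_lit 385068) (nat_lit 26) (.e (nat_lit 532501) (nat_lit 1) (.e (nat_lit 57854) (nat_lit 252) .nil))))))) (.g (nat_lit 4) .nil .nil))) 
(.lf (nat_lit 154873) (.g (nat_lit 2077) (.e (nat_lit 57409) (nat_lit 12) (.e (nat_lit 336430) (nat_lit 29) (.e (nat_lit 442425) (nat_lit 23) (.e (nat_lit 204808) (nat_lit 9) (.e (nat_lit 426108) (nat_lit 1) (.e (nat_lit 164403) (nat_lit 256) .nil)))))) (.g (nat_lit 5) .nil .nil)))))) (.nd (nat_lit 3) (.nd (nat_lit 4) (.nd (nat_lit 5) 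
(.lf (nat_lit 154821) (.g (nat_lit 2930) (.e (nat_lit 57409) (nat_lit 12) (.e (nat_lit 336370) (nat_lit 27) (.e (nat_lit 426499) (nat_lit 27) (.e (nat_lit 336078) (nat_lit 9) (.e (nat_lit 336324) (nat_lit 18) (.e (nat_lit 204831) (nat_lit 18) (.e (nat_lit 57852) (nat_lit 252) .nil))))))) (.g (nat_lit 5) .nil .nil))) 
(.lf (nat_lit 154853) (.g (nat_lit 2106) (.e (nat_lit 57409) (nat_lit 12) (.e (nat_lit 336414) (nat_lit 27) (.e (nat_lit 426503) (nat_lit 27) (.e (nat_lit 336078) (nat_lit 9) (.e (nat_lit 336326) (nat_lit 18) .nil))))) .nil))) (.nd (nat_lit 5) 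
(.lf (nat_lit 154837) (.g (nat_lit 2301) (.e (nat_lit 57409) (nat_lit 12) (.e (nat_lit 336395) (nat_lit 27) (.e (nat_lit 426499) (nat_lit 27) (.e (nat_lit 336196) (nat_lit 12) (.e (nat_lit 385068) (nat_lit 26) (.e (nat_lit 532504) (nat_lit 1) (.e (nat_lit 57852) (nat_lit 252) .nil))))))) (.g (nat_lit 4) .nil .nil))) 
(.lf (nat_lit 154869) (.g (nat_lit 902) (.e (nat_lit 57409) (nat_lit 12) (.e (nat_lit 336428) (nat_lit 29) (.e (nat_lit 442425) (nat_lit 23) (.e (nat_lit 204813) (nat_lit 9) .nil)))) .nil)))) (.nd (nat_lit 4) (.nd (nat_lit 5) 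
(.lf (nat_lit 154829) (.g (nat_lit 2436) (.e (nat_lit 57409) (nat_lit 12) (.e (nat_lit 336379) (nat_lit 27) (.e (nat_lit 426521) (nat_lit 27) (.e (nat_lit 336076) (nat_lit 9) (.e (nat_lit 336324) (nat_lit 18) (.e (nat_lit 204830) (nat_lit 18) (.e (nat_lit 57852) (nat_lit 252) .nil))))))) (.g (nat_lit 5) .nil .nil))) 
(.lf (nat_lit 154861) (.g (nat_lit 2999) (.e (nat_lit 57409) (nat_lit 12) (.e (nat_lit 336414) (nat_lit 27) (.e (nat_lit 426503) (nat_lit 27) (.e (nat_lit 336196) (nat_lit 12) (.e (nat_lit 385066) (nat_lit 26) (.e (nat_lit 532501) (nat_lit 1) (.e (nat_lit 57854) (nat_lit 252) .nil))))))) (.g (nat_lit 5) .nil .nil)))) (.nd (nat_lit 5) 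
(.lf (nat_lit 154845) (.g (nat_lit 2783) (.e (nat_lit 57409) (nat_lit 12) (.e (nat_lit 336398) (nat_lit 27) (.e (nat_lit 426499) (nat_lit 27) (.e (nat_lit 336196) (nat_lit 12) (.e (nat_lit 385066) (nat_lit 26) (.e (nat_lit 532504) (nat_lit 1) (.e (nat_lit 57852) (nat_lit 252) .nil))))))) (.g (nat_lit 4) .nil .nil))) 
(.lf (nat_lit 154877) (.g (nat_lit 2921) (.e (nat_lit 57409) (nat_lit 12) (.e (nat_lit 336430) (nat_lit 29) (.e (nat_lit 442425) (nat_lit 23) (.e (nat_lit 204809) (nat_lit 9) (.e (nat_lit 426100) (nat_lit 1) (.e (nat_lit 164398) (nat_lit 256) .nil)))))) (.g (nat_lit 0) .nil .nil))))))) (.nd (nat_lit 2) (.nd (nat_lit 3) (.nd (nat_lit 4) (.nd (nat_lit 5) 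
(.lf (nat_lit 154819) (.g (nat_lit 2723) (.e (nat_lit 57409) (nat_lit 12) (.e (nat_lit 336370) (nat_lit 27) (.e (nat_lit 426498) (nat_lit 27) (.e (nat_lit 336194) (nat_lit 12) (.e (nat_lit 385066) (nat_lit 26) (.e (nat_lit 532504) (nat_lit 1) (.e (nat_lit 57852) (nat_lit 252) .nil))))))) (.g (nat_lit 5) .nil .nil))) 
(.lf (nat_lit 154851) (.g (nat_lit 3010) (.e (nat_lit 57409) (nat_lit 12) (.e (nat_lit 336414) (nat_lit 27) (.e (nat_lit 426503) (nat_lit 27) (.e (nat_lit 336078) (nat_lit 9) (.e (nat_lit 336324) (nat_lit 18) (.e (nat_lit 204829) (nat_lit 18) (.e (nat_lit 57854) (nat_lit 252) .nil))))))) (.g (nat_lit 5) .nil .nil)))) (.nd (nat_lit 5) 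
(.lf (nat_lit 154835) (.g (nat_lit 2774) (.e (nat_lit 57409) (nat_lit 12) (.e (nat_lit 336395) (nat_lit 27) (.e (nat_lit 426499) (nat_lit 27) (.e (nat_lit 336196) (nat_lit 12) (.e (nat_lit 385066) (nat_lit 26) (.e (nat_lit 532501) (nat_lit 1) (.e (nat_lit 57852) (nat_lit 252) .nil))))))) (.g (nat_lit 4) .nil .nil))) 
(.lf (nat_lit 154867) (.g (nat_lit 260) (.e (nat_lit 57409) (nat_lit 12) (.e (nat_lit 336421) (nat_lit 28) (.e (nat_lit 442112) (nat_lit 3) .nil))) .nil)))) (.nd (nat_lit 4) (.nd (nat_lit 5) 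
(.lf (nat_lit 154827) (.g (nat_lit 1849) (.e (nat_lit 57409) (nat_lit 12) (.e (nat_lit 336370) (nat_lit 27) (.e (nat_lit 426501) (nat_lit 27) (.e (nat_lit 336076) (nat_lit 9) (.e (nat_lit 336324) (nat_lit 18) (.e (nat_lit 204829) (nat_lit 18) (.e (nat_lit 57854) (nat_lit 252) .nil))))))) (.g (nat_lit 4) .nil .nil))) 
(.lf (nat_lit 154859) (.g (nat_lit 3360) (.e (nat_lit 57409) (nat_lit 12) (.e (nat_lit 336414) (nat_lit 27) (.e (nat_lit 426503) (nat_lit 27) (.e (nat_lit 336196) (nat_lit 12) (.e (nat_lit 385066) (nat_lit 26) (.e (nat_lit 532499) (nat_lit 1) (.e (nat_lit 57854) (nat_lit 252) .nil))))))) (.g (nat_lit 5) .nil .nil)))) (.nd (nat_lit 5) 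
(.lf (nat_lit 154843) (.g (nat_lit 2189) (.e (nat_lit 57409) (nat_lit 12) (.e (nat_lit 336398) (nat_lit 27) (.e (nat_lit 426497) (nat_lit 27) (.e (nat_lit 336076) (nat_lit 9) (.e (nat_lit 336324) (nat_lit 18) (.e (nat_lit 204831) (nat_lit 18) (.e (nat_lit 57852) (nat_lit 252) .nil))))))) (.g (nat_lit 4) .nil .nil))) 
(.lf (nat_lit 154875) (.g (nat_lit 2456) (.e (nat_lit 57409) (nat_lit 12) (.e (nat_lit 336430) (nat_lit 29) (.e (nat_lit 442425) (nat_lit 23) (.e (nat_lit 204809) (nat_lit 9) (.e (nat_lit 426098) (nat_lit 1) (.e (nat_lit 164399) (nat_lit 256) .nil)))))) (.g (nat_lit 0) .nil .nil)))))) (.nd (nat_lit 3) (.nd (nat_lit 4) (.nd (nat_lit 5) 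
(.lf (nat_lit 154823) (.g (nat_lit 2643) (.e (nat_lit 57409) (nat_lit 12) (.e (nat_lit 336370) (nat_lit 27) (.e (nat_lit 426499) (nat_lit 27) (.e (nat_lit 336196) (nat_lit 12) (.e (nat_lit 385066) (nat_lit 26) (.e (nat_lit 532501) (nat_lit 1) (.e (nat_lit 57854) (nat_lit 252) .nil))))))) (.g (nat_lit 4) .nil .nil))) 
(.lf (nat_lit 154855) (.g (nat_lit 3513) (.e (nat_lit 57409) (nat_lit 12) (.e (nat_lit 336414) (nat_lit 27) (.e (nat_lit 426503) (nat_lit 27) (.e (nat_lit 336194) (nat_lit 12) (.e (nat_lit 385066) (nat_lit 26) (.e (nat_lit 532501) (nat_lit 1) (.e (nat_lit 57852) (nat_lit 252) .nil))))))) (.g (nat_lit 5) .nil .nil)))) (.nd (nat_lit 5) 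
(.lf (nat_lit 154839) (.g (nat_lit 3959) (.e (nat_lit 57409) (nat_lit 12) (.e (nat_lit 336395) (nat_lit 27) (.e (nat_lit 426528) (nat_lit 27) (.e (nat_lit 336078) (nat_lit 9) (.e (nat_lit 336324) (nat_lit 18) (.e (nat_lit 204831) (nat_lit 18) (.e (nat_lit 57852) (nat_lit 252) .nil))))))) (.g (nat_lit 0) .nil .nil))) 
(.lf (nat_lit 154871) (.g (nat_lit 371) (.e (nat_lit 57409) (nat_lit 12) (.e (nat_lit 336430) (nat_lit 29) (.e (nat_lit 442425) (nat_lit 23) .nil))) .nil)))) (.nd (nat_lit 4) (.nd (nat_lit 5) 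
(.lf (nat_lit 154831) (.g (nat_lit 2245) (.e (nat_lit 57409) (nat_lit 12) (.e (nat_lit 336379) (nat_lit 27) (.e (nat_lit 426521) (nat_lit 27) (.e (nat_lit 336194) (nat_lit 12) (.e (nat_lit 385068) (nat_lit 26) (.e (nat_lit 532501) (nat_lit 1) (.e (nat_lit 57854) (nat_lit 252) .nil))))))) (.g (nat_lit 4) .nil .nil))) 
(.lf (nat_lit 154863) (.g (nat_lit 3260) (.e (nat_lit 57409) (nat_lit 12) (.e (nat_lit 336414) (nat_lit 27) (.e (nat_lit 426503) (nat_lit 27) (.e (nat_lit 336196) (nat_lit 12) (.e (nat_lit 385066) (nat_lit 26) (.e (nat_lit 532504) (nat_lit 1) (.e (nat_lit 57854) (nat_lit 252) .nil))))))) (.g (nat_lit 5) .nil .nil)))) (.nd (nat_lit 5) 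
(.lf (nat_lit 154847) (.g (nat_lit 2516) (.e (nat_lit 57409) (nat_lit 12) (.e (nat_lit 336399) (nat_lit 27) (.e (nat_lit 426523) (nat_lit 27) (.e (nat_lit 336194) (nat_lit 12) (.e (nat_lit 385066) (nat_lit 26) (.e (nat_lit 532504) (nat_lit 1) (.e (nat_lit 57852) (nat_lit 252) .nil))))))) (.g (nat_lit 5) .nil .nil))) 
(.lf (nat_lit 154879) (.g (nat_lit 2535) (.e (nat_lit 57409) (nat_lit 12) (.e (nat_lit 336430) (nat_lit 29) (.e (nat_lit 442425) (nat_lit 23) (.e (nat_lit 204809) (nat_lit 9) (.e (nat_lit 426107) (nat_lit 1) (.e (nat_lit 164401) (nat_lit 256) .nil)))))) (.g (nat_lit 0) .nil .nil)))))))))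

noncomputable def tv2067 : DT := (.nd (nat_lit 0) (.nd (nat_lit 1) (.nd (nat_lit 2) (.nd (nat_lit 3) (.nd (nat_lit 4) (.nd (nat_lit 5) 
(.lf (nat_lit 154880) (.g (nat_lit 2903) (.e (nat_lit 57409) (nat_lit 12) (.e (nat_lit 336430) (nat_lit 29) (.e (nat_lit 442425) (nat_lit 23) (.e (nat_lit 204809) (nat_lit 9) (.e (nat_lit 426107) (nat_lit 1) (.e (nat_lit 164403) (nat_lit 256) .nil)))))) (.g (nat_lit 0) .nil .nil))) 
(.lf (nat_lit 154912) (.g (nat_lit 2024) (.e (nat_lit 57409) (nat_lit 12) (.e (nat_lit 336432) (nat_lit 30) (.e (nat_lit 450580) (nat_lit 5) (.e (nat_lit 532583) (nat_lit 26) (.e (nat_lit 426108) (nat_lit 1) (.e (nat_lit 164401) (nat_lit 256) .nil)))))) (.g (nat_lit 4) .nil .nil)))) (.nd (nat_lit 5) 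
(.lf (nat_lit 154896) (.g (nat_lit 3229) (.e (nat_lit 57409) (nat_lit 12) (.e (nat_lit 336430) (nat_lit 29) (.e (nat_lit 442427) (nat_lit 23) (.e (nat_lit 204809) (nat_lit 9) (.e (nat_lit 426107) (nat_lit 1) (.e (nat_lit 164403) (nat_lit 256) .nil)))))) (.g (nat_lit 0) .nil .nil))) 
(.lf (nat_lit 154928) (.g (nat_lit 376) (.e (nat_lit 57409) (nat_lit 12) (.e (nat_lit 336443) (nat_lit 32) (.e (nat_lit 466974) (nat_lit 22) .nil))) .nil)))) (.nd (nat_lit 4) (.nd (nat_lit 5) 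
(.lf (nat_lit 154888) (.g (nat_lit 1133) (.e (nat_lit 57409) (nat_lit 12) (.e (nat_lit 336430) (nat_lit 29) (.e (nat_lit 442427) (nat_lit 23) (.e (nat_lit 204808) (nat_lit 9) .nil)))) .nil)) 
(.lf (nat_lit 154920) (.g (nat_lit 3069) (.e (nat_lit 57409) (nat_lit 12) (.e (nat_lit 336434) (nat_lit 30) (.e (nat_lit 450579) (nat_lit 5) (.e (nat_lit 532579) (nat_lit 26) (.e (nat_lit 426108) (nat_lit 1) (.e (nat_lit 164401) (nat_lit 256) .nil)))))) (.g (nat_lit 0) .nil .nil)))) (.nd (nat_lit 5) 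
(.lf (nat_lit 154904) (.g (nat_lit 1049) (.e (nat_lit 57409) (nat_lit 12) (.e (nat_lit 336430) (nat_lit 29) (.e (nat_lit 442427) (nat_lit 23) (.e (nat_lit 212736) (nat_lit 10) .nil)))) .nil)) 
(.lf (nat_lit 154936) (.g (nat_lit 2743) (.e (nat_lit 57409) (nat_lit 12) (.e (nat_lit 336443) (nat_lit 32) (.e (nat_lit 466974) (nat_lit 22) (.e (nat_lit 196654) (nat_lit 11) (.e (nat_lit 16405) (nat_lit 1) (.e (nat_lit 164399) (nat_lit 256) .nil)))))) (.g (nat_lit 0) .nil .nil)))))) (.nd (nat_lit 3) (.nd (nat_lit 4) (.nd (nat_lit 5) 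
(.lf (nat_lit 154884) (.g (nat_lit 2687) (.e (nat_lit 57409) (nat_lit 12) (.e (nat_lit 336430) (nat_lit 29) (.e (nat_lit 442425) (nat_lit 23) (.e (nat_lit 204813) (nat_lit 9) (.e (nat_lit 426100) (nat_lit 1) (.e (nat_lit 164399) (nat_lit 256) .nil)))))) (.g (nat_lit 0) .nil .nil))) 
(.lf (nat_lit 154916) (.g (nat_lit 2020) (.e (nat_lit 57409) (nat_lit 12) (.e (nat_lit 336434) (nat_lit 30) (.e (nat_lit 450579) (nat_lit 5) (.e (nat_lit 532579) (nat_lit 26) (.e (nat_lit 426099) (nat_lit 1) (.e (nat_lit 164399) (nat_lit 256) .nil)))))) (.g (nat_lit 5) .nil .nil)))) (.nd (nat_lit 5) 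
(.lf (nat_lit 154900) (.g (nat_lit 3114) (.e (nat_lit 57409) (nat_lit 12) (.e (nat_lit 336430) (nat_lit 29) (.e (nat_lit 442427) (nat_lit 23) (.e (nat_lit 204813) (nat_lit 9) (.e (nat_lit 426098) (nat_lit 1) (.e (nat_lit 164399) (nat_lit 256) .nil)))))) (.g (nat_lit 6) .nil .nil))) 
(.lf (nat_lit 154932) (.g (nat_lit 1711) (.e (nat_lit 57409) (nat_lit 12) (.e (nat_lit 336443) (nat_lit 32) (.e (nat_lit 466974) (nat_lit 22) (.e (nat_lit 196653) (nat_lit 11) (.e (nat_lit 16405) (nat_lit 1) .nil))))) .nil)))) (.nd (nat_lit 4) (.nd (nat_lit 5) 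
(.lf (nat_lit 154892) (.g (nat_lit 1606) (.e (nat_lit 57409) (nat_lit 12) (.e (nat_lit 336430) (nat_lit 29) (.e (nat_lit 442427) (nat_lit 23) (.e (nat_lit 204809) (nat_lit 9) (.e (nat_lit 426099) (nat_lit 1) (.e (nat_lit 164398) (nat_lit 256) .nil)))))) (.g (nat_lit 4) .nil .nil))) 
(.lf (nat_lit 154924) (.g (nat_lit 2906) (.e (nat_lit 57409) (nat_lit 12) (.e (nat_lit 336438) (nat_lit 31) (.e (nat_lit 466688) (nat_lit 3) (.e (nat_lit 57478) (nat_lit 28) (.e (nat_lit 557105) (nat_lit 14) (.e (nat_lit 180233) (nat_lit 0) (.e (nat_lit 5949) (nat_lit 322) .nil))))))) (.g (nat_lit 5) .nil .nil)))) (.nd (nat_lit 5) 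
(.lf (nat_lit 154908) (.g (nat_lit 1196) (.e (nat_lit 57409) (nat_lit 12) (.e (nat_lit 336432) (nat_lit 30) (.e (nat_lit 450580) (nat_lit 5) (.e (nat_lit 532583) (nat_lit 26) .nil)))) .nil)) 
(.lf (nat_lit 154940) (.g (nat_lit 1505) (.e (nat_lit 57409) (nat_lit 12) (.e (nat_lit 336443) (nat_lit 32) (.e (nat_lit 466974) (nat_lit 22) (.e (nat_lit 196655) (nat_lit 11) .nil)))) .nil)))))) (.nd (nat_lit 2) (.nd (nat_lit 3) (.nd (nat_lit 4) (.nd (nat_lit 5) 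
(.lf (nat_lit 154882) (.g (nat_lit 2845) (.e (nat_lit 57409) (nat_lit 12) (.e (nat_lit 336430) (nat_lit 29) (.e (nat_lit 442425) (nat_lit 23) (.e (nat_lit 204809) (nat_lit 9) (.e (nat_lit 426108) (nat_lit 1) (.e (nat_lit 164403) (nat_lit 256) .nil)))))) (.g (nat_lit 0) .nil .nil))) 
(.lf (nat_lit 154914) (.g (nat_lit 3157) (.e (nat_lit 57409) (nat_lit 12) (.e (nat_lit 336434) (nat_lit 30) (.e (nat_lit 450579) (nat_lit 5) (.e (nat_lit 532579) (nat_lit 26) (.e (nat_lit 426098) (nat_lit 1) (.e (nat_lit 164398) (nat_lit 256) .nil)))))) (.g (nat_lit 0) .nil .nil)))) (.nd (nat_lit 5) 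
(.lf (nat_lit 154898) (.g (nat_lit 3193) (.e (nat_lit 57409) (nat_lit 12) (.e (nat_lit 336430) (nat_lit 29) (.e (nat_lit 442427) (nat_lit 23) (.e (nat_lit 204809) (nat_lit 9) (.e (nat_lit 426108) (nat_lit 1) (.e (nat_lit 164403) (nat_lit 256) .nil)))))) (.g (nat_lit 0) .nil .nil))) 
(.lf (nat_lit 154930) (.g (nat_lit 2734) (.e (nat_lit 57409) (nat_lit 12) (.e (nat_lit 336443) (nat_lit 32) (.e (nat_lit 466974) (nat_lit 22) (.e (nat_lit 196624) (nat_lit 9) (.e (nat_lit 442) (nat_lit 33) (.e (nat_lit 434212) (nat_lit 18) (.e (nat_lit 5953) (nat_lit 322) .nil))))))) (.g (nat_lit 4) .nil .nil))))) (.nd (nat_lit 4) (.nd (nat_lit 5) 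
(.lf (nat_lit 154890) (.g (nat_lit 3166) (.e (nat_lit 57409) (nat_lit 12) (.e (nat_lit 336430) (nat_lit 29) (.e (nat_lit 442427) (nat_lit 23) (.e (nat_lit 204809) (nat_lit 9) (.e (nat_lit 426098) (nat_lit 1) (.e (nat_lit 164398) (nat_lit 256) .nil)))))) (.g (nat_lit 0) .nil .nil))) 
(.lf (nat_lit 154922) (.g (nat_lit 1004) (.e (nat_lit 57409) (nat_lit 12) (.e (nat_lit 336434) (nat_lit 30) (.e (nat_lit 450579) (nat_lit 5) (.e (nat_lit 532582) (nat_lit 26) .nil)))) .nil))) (.nd (nat_lit 5) 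
(.lf (nat_lit 154906) (.g (nat_lit 1998) (.e (nat_lit 57409) (nat_lit 12) (.e (nat_lit 336432) (nat_lit 30) (.e (nat_lit 450580) (nat_lit 5) (.e (nat_lit 532579) (nat_lit 26) (.e (nat_lit 426105) (nat_lit 1) (.e (nat_lit 164403) (nat_lit 256) .nil)))))) (.g (nat_lit 4) .nil .nil))) 
(.lf (nat_lit 154938) (.g (nat_lit 2747) (.e (nat_lit 57409) (nat_lit 12) (.e (nat_lit 336443) (nat_lit 32) (.e (nat_lit 466974) (nat_lit 22) (.e (nat_lit 196654) (nat_lit 11) (.e (nat_lit 16406) (nat_lit 1) (.e (nat_lit 164399) (nat_lit 256) .nil)))))) (.g (nat_lit 0) .nil .nil)))))) (.nd (nat_lit 3) (.nd (nat_lit 4) (.nd (nat_lit 5) 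
(.lf (nat_lit 154886) (.g (nat_lit 2806) (.e (nat_lit 57409) (nat_lit 12) (.e (nat_lit 336430) (nat_lit 29) (.e (nat_lit 442425) (nat_lit 23) (.e (nat_lit 204813) (nat_lit 9) (.e (nat_lit 426108) (nat_lit 1) (.e (nat_lit 164403) (nat_lit 256) .nil)))))) (.g (nat_lit 0) .nil .nil))) 
(.lf (nat_lit 154918) (.g (nat_lit 1668) (.e (nat_lit 57409) (nat_lit 12) (.e (nat_lit 336434) (nat_lit 30) (.e (nat_lit 450579) (nat_lit 5) (.e (nat_lit 532579) (nat_lit 26) (.e (nat_lit 426105) (nat_lit 1) (.e (nat_lit 164403) (nat_lit 256) .nil)))))) (.g (nat_lit 4) .nil .nil)))) (.nd (nat_lit 5) 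
(.lf (nat_lit 154902) (.g (nat_lit 3064) (.e (nat_lit 57409) (nat_lit 12) (.e (nat_lit 336430) (nat_lit 29) (.e (nat_lit 442427) (nat_lit 23) (.e (nat_lit 204813) (nat_lit 9) (.e (nat_lit 426107) (nat_lit 1) (.e (nat_lit 164403) (nat_lit 256) .nil)))))) (.g (nat_lit 6) .nil .nil))) 
(.lf (nat_lit 154934) (.g (nat_lit 1639) (.e (nat_lit 57409) (nat_lit 12) (.e (nat_lit 336443) (nat_lit 32) (.e (nat_lit 466974) (nat_lit 22) (.e (nat_lit 196654) (nat_lit 11) (.e (nat_lit 16386) (nat_lit 0) .nil))))) .nil)))) (.nd (nat_lit 4) (.nd (nat_lit 5) 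
(.lf (nat_lit 154894) (.g (nat_lit 3266) (.e (nat_lit 57409) (nat_lit 12) (.e (nat_lit 336430) (nat_lit 29) (.e (nat_lit 442427) (nat_lit 23) (.e (nat_lit 204809) (nat_lit 9) (.e (nat_lit 426100) (nat_lit 1) (.e (nat_lit 164398) (nat_lit 256) .nil)))))) (.g (nat_lit 0) .nil .nil))) 
(.lf (nat_lit 154926) (.g (nat_lit 852) (.e (nat_lit 57409) (nat_lit 12) (.e (nat_lit 336443) (nat_lit 32) (.e (nat_lit 466969) (nat_lit 21) .nil))) .nil))) (.nd (nat_lit 5) 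
(.lf (nat_lit 154910) (.g (nat_lit 2234) (.e (nat_lit 57409) (nat_lit 12) (.e (nat_lit 336432) (nat_lit 30) (.e (nat_lit 450580) (nat_lit 5) (.e (nat_lit 532583) (nat_lit 26) (.e (nat_lit 426100) (nat_lit 1) (.e (nat_lit 164399) (nat_lit 256) .nil)))))) (.g (nat_lit 4) .nil .nil))) 
(.lf (nat_lit 154942) (.g (nat_lit 2259) (.e (nat_lit 57409) (nat_lit 12) (.e (nat_lit 336443) (nat_lit 32) (.e (nat_lit 466974) (nat_lit 22) (.e (nat_lit 196656) (nat_lit 11) (.e (nat_lit 16388) (nat_lit 0) .nil))))) .nil))))))) (.nd (nat_lit 1) (.nd (nat_lit 2) (.nd (nat_lit 3) (.nd (nat_lit 4) (.nd (nat_lit 5) 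
(.lf (nat_lit 154881) (.g (nat_lit 2850) (.e (nat_lit 57409) (nat_lit 12) (.e (nat_lit 336430) (nat_lit 29) (.e (nat_lit 442425) (nat_lit 23) (.e (nat_lit 204809) (nat_lit 9) (.e (nat_lit 426108) (nat_lit 1) (.e (nat_lit 164401) (nat_lit 256) .nil)))))) (.g (nat_lit 0) .nil .nil))) 
(.lf (nat_lit 154913) (.g (nat_lit 237) (.e (nat_lit 57409) (nat_lit 12) (.e (nat_lit 336434) (nat_lit 30) (.e (nat_lit 450571) (nat_lit 1) .nil))) .nil))) (.nd (nat_lit 5) 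
(.lf (nat_lit 154897) (.g (nat_lit 3198) (.e (nat_lit 57409) (nat_lit 12) (.e (nat_lit 336430) (nat_lit 29) (.e (nat_lit 442427) (nat_lit 23) (.e (nat_lit 204809) (nat_lit 9) (.e (nat_lit 426108) (nat_lit 1) (.e (nat_lit 164401) (nat_lit 256) .nil)))))) (.g (nat_lit 0) .nil .nil))) 
(.lf (nat_lit 154929) (.g (nat_lit 1999) (.e (nat_lit 57409) (nat_lit 12) (.e (nat_lit 336443) (nat_lit 32) (.e (nat_lit 466974) (nat_lit 22) (.e (nat_lit 196624) (nat_lit 9) (.e (nat_lit 442) (nat_lit 33) .nil))))) .nil)))) (.nd (nat_lit 4) (.nd (nat_lit 5) 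
(.lf (nat_lit 154889) (.g (nat_lit 3108) (.e (nat_lit 57409) (nat_lit 12) (.e (nat_lit 336430) (nat_lit 29) (.e (nat_lit 442427) (nat_lit 23) (.e (nat_lit 204808) (nat_lit 9) (.e (nat_lit 426100) (nat_lit 1) (.e (nat_lit 164399) (nat_lit 256) .nil)))))) (.g (nat_lit 6) .nil .nil))) 
(.lf (nat_lit 154921) (.g (nat_lit 3107) (.e (nat_lit 57409) (nat_lit 12) (.e (nat_lit 336434) (nat_lit 30) (.e (nat_lit 450579) (nat_lit 5) (.e (nat_lit 532579) (nat_lit 26) (.e (nat_lit 426108) (nat_lit 1) (.e (nat_lit 164403) (nat_lit 256) .nil)))))) (.g (nat_lit 0) .nil .nil)))) (.nd (nat_lit 5) 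
(.lf (nat_lit 154905) (.g (nat_lit 2306) (.e (nat_lit 57409) (nat_lit 12) (.e (nat_lit 336432) (nat_lit 30) (.e (nat_lit 450580) (nat_lit 5) (.e (nat_lit 532579) (nat_lit 26) (.e (nat_lit 426099) (nat_lit 1) (.e (nat_lit 164399) (nat_lit 256) .nil)))))) (.g (nat_lit 4) .nil .nil))) 
(.lf (nat_lit 154937) (.g (nat_lit 3015) (.e (nat_lit 57409) (nat_lit 12) (.e (nat_lit 336443) (nat_lit 32) (.e (nat_lit 466974) (nat_lit 22) (.e (nat_lit 196654) (nat_lit 11) (.e (nat_lit 16406) (nat_lit 1) (.e (nat_lit 164398) (nat_lit 256) .nil)))))) (.g (nat_lit 0) .nil .nil)))))) (.nd (nat_lit 3) (.nd (nat_lit 4) (.nd (nat_lit 5) 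
(.lf (nat_lit 154885) (.g (nat_lit 2760) (.e (nat_lit 57409) (nat_lit 12) (.e (nat_lit 336430) (nat_lit 29) (.e (nat_lit 442425) (nat_lit 23) (.e (nat_lit 204813) (nat_lit 9) (.e (nat_lit 426107) (nat_lit 1) (.e (nat_lit 164403) (nat_lit 256) .nil)))))) (.g (nat_lit 0) .nil .nil))) 
(.lf (nat_lit 154917) (.g (nat_lit 3235) (.e (nat_lit 57409) (nat_lit 12) (.e (nat_lit 336434) (nat_lit 30) (.e (nat_lit 450579) (nat_lit 5) (.e (nat_lit 532579) (nat_lit 26) (.e (nat_lit 426100) (nat_lit 1) (.e (nat_lit 164398) (nat_lit 256) .nil)))))) (.g (nat_lit 0) .nil .nil)))) (.nd (nat_lit 5) 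
(.lf (nat_lit 154901) (.g (nat_lit 3257) (.e (nat_lit 57409) (nat_lit 12) (.e (nat_lit 336430) (nat_lit 29) (.e (nat_lit 442427) (nat_lit 23) (.e (nat_lit 204813) (nat_lit 9) (.e (nat_lit 426100) (nat_lit 1) (.e (nat_lit 164399) (nat_lit 256) .nil)))))) (.g (nat_lit 6) .nil .nil))) 
(.lf (nat_lit 154933) (.g (nat_lit 965) (.e (nat_lit 57409) (nat_lit 12) (.e (nat_lit 336443) (nat_lit 32) (.e (nat_lit 466974) (nat_lit 22) (.e (nat_lit 196654) (nat_lit 11) .nil)))) .nil)))) (.nd (nat_lit 4) (.nd (nat_lit 5) 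
(.lf (nat_lit 154893) (.g (nat_lit 2687) (.e (nat_lit 57409) (nat_lit 12) (.e (nat_lit 336430) (nat_lit 29) (.e (nat_lit 442427) (nat_lit 23) (.e (nat_lit 204809) (nat_lit 9) (.e (nat_lit 426099) (nat_lit 1) (.e (nat_lit 164399) (nat_lit 256) .nil)))))) (.g (nat_lit 6) .nil .nil))) 
(.lf (nat_lit 154925) (.g (nat_lit 877) (.e (nat_lit 57409) (nat_lit 12) (.e (nat_lit 336443) (nat_lit 32) (.e (nat_lit 466959) (nat_lit 20) .nil))) .nil))) (.nd (nat_lit 5) 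
(.lf (nat_lit 154909) (.g (nat_lit 1944) (.e (nat_lit 57409) (nat_lit 12) (.e (nat_lit 336432) (nat_lit 30) (.e (nat_lit 450580) (nat_lit 5) (.e (nat_lit 532583) (nat_lit 26) (.e (nat_lit 426098) (nat_lit 1) (.e (nat_lit 164399) (nat_lit 256) .nil)))))) (.g (nat_lit 4) .nil .nil))) 
(.lf (nat_lit 154941) (.g (nat_lit 1039) (.e (nat_lit 57409) (nat_lit 12) (.e (nat_lit 336443) (nat_lit 32) (.e (nat_lit 466974) (nat_lit 22) (.e (nat_lit 196656) (nat_lit 11) .nil)))) .nil)))))) (.nd (nat_lit 2) (.nd (nat_lit 3) (.nd (nat_lit 4) (.nd (nat_lit 5) 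
(.lf (nat_lit 154883) (.g (nat_lit 2539) (.e (nat_lit 57409) (nat_lit 12) (.e (nat_lit 336430) (nat_lit 29) (.e (nat_lit 442425) (nat_lit 23) (.e (nat_lit 204813) (nat_lit 9) (.e (nat_lit 426098) (nat_lit 1) (.e (nat_lit 164399) (nat_lit 256) .nil)))))) (.g (nat_lit 0) .nil .nil))) 
(.lf (nat_lit 154915) (.g (nat_lit 2799) (.e (nat_lit 57409) (nat_lit 12) (.e (nat_lit 336434) (nat_lit 30) (.e (nat_lit 450579) (nat_lit 5) (.e (nat_lit 532579) (nat_lit 26) (.e (nat_lit 426098) (nat_lit 1) (.e (nat_lit 164399) (nat_lit 256) .nil)))))) (.g (nat_lit 0) .nil .nil)))) (.nd (nat_lit 5) 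
(.lf (nat_lit 154899) (.g (nat_lit 1441) (.e (nat_lit 57409) (nat_lit 12) (.e (nat_lit 336430) (nat_lit 29) (.e (nat_lit 442427) (nat_lit 23) (.e (nat_lit 204809) (nat_lit 9) (.e (nat_lit 433920) (nat_lit 1) .nil))))) .nil)) 
(.lf (nat_lit 154931) (.g (nat_lit 1708) (.e (nat_lit 57409) (nat_lit 12) (.e (nat_lit 336443) (nat_lit 32) (.e (nat_lit 466974) (nat_lit 22) (.e (nat_lit 196653) (nat_lit 11) (.e (nat_lit 16388) (nat_lit 0) .nil))))) .nil)))) (.nd (nat_lit 4) (.nd (nat_lit 5) 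
(.lf (nat_lit 154891) (.g (nat_lit 2798) (.e (nat_lit 57409) (nat_lit 12) (.e (nat_lit 336430) (nat_lit 29) (.e (nat_lit 442427) (nat_lit 23) (.e (nat_lit 204809) (nat_lit 9) (.e (nat_lit 426098) (nat_lit 1) (.e (nat_lit 164399) (nat_lit 256) .nil)))))) (.g (nat_lit 0) .nil .nil))) 
(.lf (nat_lit 154923) (.g (nat_lit 358) (.e (nat_lit 57409) (nat_lit 12) (.e (nat_lit 336438) (nat_lit 31) (.e (nat_lit 466688) (nat_lit 3) .nil))) .nil))) (.nd (nat_lit 5) 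
(.lf (nat_lit 154907) (.g (nat_lit 3530) (.e (nat_lit 57409) (nat_lit 12) (.e (nat_lit 336432) (nat_lit 30) (.e (nat_lit 450580) (nat_lit 5) (.e (nat_lit 532579) (nat_lit 26) (.e (nat_lit 426108) (nat_lit 1) (.e (nat_lit 164401) (nat_lit 256) .nil)))))) (.g (nat_lit 0) .nil .nil))) 
(.lf (nat_lit 154939) (.g (nat_lit 3058) (.e (nat_lit 57409) (nat_lit 12) (.e (nat_lit 336443) (nat_lit 32) (.e (nat_lit 466974) (nat_lit 22) (.e (nat_lit 196654) (nat_lit 11) (.e (nat_lit 16407) (nat_lit 1) (.e (nat_lit 164403) (nat_lit 256) .nil)))))) (.g (nat_lit 0) .nil .nil)))))) (.nd (nat_lit 3) (.nd (nat_lit 4) (.nd (nat_lit 5) 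
(.lf (nat_lit 154887) (.g (nat_lit 444) (.e (nat_lit 57409) (nat_lit 12) (.e (nat_lit 336430) (nat_lit 29) (.e (nat_lit 442427) (nat_lit 23) .nil))) .nil)) 
(.lf (nat_lit 154919) (.g (nat_lit 3064) (.e (nat_lit 57409) (nat_lit 12) (.e (nat_lit 336434) (nat_lit 30) (.e (nat_lit 450579) (nat_lit 5) (.e (nat_lit 532579) (nat_lit 26) (.e (nat_lit 426107) (nat_lit 1) (.e (nat_lit 164403) (nat_lit 256) .nil)))))) (.g (nat_lit 0) .nil .nil)))) (.nd (nat_lit 5) 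
(.lf (nat_lit 154903) (.g (nat_lit 3133) (.e (nat_lit 57409) (nat_lit 12) (.e (nat_lit 336430) (nat_lit 29) (.e (nat_lit 442427) (nat_lit 23) (.e (nat_lit 204813) (nat_lit 9) (.e (nat_lit 426108) (nat_lit 1) (.e (nat_lit 164403) (nat_lit 256) .nil)))))) (.g (nat_lit 6) .nil .nil))) 
(.lf (nat_lit 154935) (.g (nat_lit 1645) (.e (nat_lit 57409) (nat_lit 12) (.e (nat_lit 336443) (nat_lit 32) (.e (nat_lit 466974) (nat_lit 22) (.e (nat_lit 196654) (nat_lit 11) (.e (nat_lit 16388) (nat_lit 0) .nil))))) .nil)))) (.nd (nat_lit 4) (.nd (nat_lit 5) 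
(.lf (nat_lit 154895) (.g (nat_lit 2957) (.e (nat_lit 57409) (nat_lit 12) (.e (nat_lit 336430) (nat_lit 29) (.e (nat_lit 442427) (nat_lit 23) (.e (nat_lit 204809) (nat_lit 9) (.e (nat_lit 426100) (nat_lit 1) (.e (nat_lit 164399) (nat_lit 256) .nil)))))) (.g (nat_lit 0) .nil .nil))) 
(.lf (nat_lit 154927) (.g (nat_lit 837) (.e (nat_lit 57409) (nat_lit 12) (.e (nat_lit 336443) (nat_lit 32) (.e (nat_lit 466973) (nat_lit 22) .nil))) .nil))) (.nd (nat_lit 5) 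
(.lf (nat_lit 154911) (.g (nat_lit 2350) (.e (nat_lit 57409) (nat_lit 12) (.e (nat_lit 336432) (nat_lit 30) (.e (nat_lit 450580) (nat_lit 5) (.e (nat_lit 532583) (nat_lit 26) (.e (nat_lit 426107) (nat_lit 1) (.e (nat_lit 164403) (nat_lit 256) .nil)))))) (.g (nat_lit 4) .nil .nil))) 
(.lf (nat_lit 154943) (.g (nat_lit 1761) (.e (nat_lit 57409) (nat_lit 12) (.e (nat_lit 336443) (nat_lit 32) (.e (nat_lit 466974) (nat_lit 22) (.e (nat_lit 196656) (nat_lit 11) (.e (nat_lit 16392) (nat_lit 0) .nil))))) .nil))))))))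

noncomputable def tv2068 : DT := (.nd (nat_lit 0) (.nd (nat_lit 1) (.nd (nat_lit 2) (.nd (nat_lit 3) (.nd (nat_lit 4) (.nd (nat_lit 5) 
(.lf (nat_lit 154944) (.g (nat_lit 2270) (.e (nat_lit 57409) (nat_lit 12) (.e (nat_lit 336443) (nat_lit 32) (.e (nat_lit 466974) (nat_lit 22) (.e (nat_lit 196656) (nat_lit 11) (.e (nat_lit 16396) (nat_lit 0) .nil))))) .nil)) 
(.lf (nat_lit 154976) (.g (nat_lit 2216) (.e (nat_lit 57409) (nat_lit 12) (.e (nat_lit 336443) (nat_lit 32) (.e (nat_lit 466980) (nat_lit 23) (.e (nat_lit 204813) (nat_lit 9) (.e (nat_lit 426098) (nat_lit 1) (.e (nat_lit 164399) (nat_lit 256) .nil)))))) (.g (nat_lit 4) .nil .nil)))) (.nd (nat_lit 5) 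
(.lf (nat_lit 154960) (.g (nat_lit 1135) (.e (nat_lit 57409) (nat_lit 12) (.e (nat_lit 336443) (nat_lit 32) (.e (nat_lit 466977) (nat_lit 22) (.e (nat_lit 196656) (nat_lit 11) .nil)))) .nil)) 
(.lf (nat_lit 154992) (.g (nat_lit 2464) (.e (nat_lit 57409) (nat_lit 12) (.e (nat_lit 336452) (nat_lit 34) (.e (nat_lit 483406) (nat_lit 26) (.e (nat_lit 385066) (nat_lit 26) (.e (nat_lit 532504) (nat_lit 1) .nil))))) .nil)))) (.nd (nat_lit 4) (.nd (nat_lit 5) 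
(.lf (nat_lit 154952) (.g (nat_lit 1798) (.e (nat_lit 57409) (nat_lit 12) (.e (nat_lit 336443) (nat_lit 32) (.e (nat_lit 466977) (nat_lit 22) (.e (nat_lit 196653) (nat_lit 11) (.e (nat_lit 16405) (nat_lit 1) .nil))))) .nil)) 
(.lf (nat_lit 154984) (.g (nat_lit 3353) (.e (nat_lit 57409) (nat_lit 12) (.e (nat_lit 336443) (nat_lit 32) (.e (nat_lit 466981) (nat_lit 23) (.e (nat_lit 204813) (nat_lit 9) (.e (nat_lit 426100) (nat_lit 1) (.e (nat_lit 164403) (nat_lit 256) .nil)))))) (.g (nat_lit 6) .nil .nil)))) (.nd (nat_lit 5) 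
(.lf (nat_lit 154968) (.g (nat_lit 515) (.e (nat_lit 57409) (nat_lit 12) (.e (nat_lit 336443) (nat_lit 32) (.e (nat_lit 466978) (nat_lit 23) .nil))) .nil)) 
(.lf (nat_lit 155000) (.g (nat_lit 2789) (.e (nat_lit 57409) (nat_lit 12) (.e (nat_lit 336454) (nat_lit 34) (.e (nat_lit 483382) (nat_lit 23) (.e (nat_lit 336324) (nat_lit 18) (.e (nat_lit 204831) (nat_lit 18) (.e (nat_lit 57847) (nat_lit 252) .nil)))))) (.g (nat_lit 5) .nil .nil)))))) (.nd (nat_lit 3) (.nd (nat_lit 4) (.nd (nat_lit 5) 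
(.lf (nat_lit 154948) (.g (nat_lit 1241) (.e (nat_lit 57409) (nat_lit 12) (.e (nat_lit 336443) (nat_lit 32) (.e (nat_lit 466977) (nat_lit 22) (.e (nat_lit 196624) (nat_lit 9) .nil)))) .nil)) 
(.lf (nat_lit 154980) (.g (nat_lit 2114) (.e (nat_lit 57409) (nat_lit 12) (.e (nat_lit 336443) (nat_lit 32) (.e (nat_lit 466981) (nat_lit 23) (.e (nat_lit 204808) (nat_lit 9) (.e (nat_lit 426100) (nat_lit 1) (.e (nat_lit 164399) (nat_lit 256) .nil)))))) (.g (nat_lit 5) .nil .nil)))) (.nd (nat_lit 5) 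
(.lf (nat_lit 154964) (.g (nat_lit 2568) (.e (nat_lit 57409) (nat_lit 12) (.e (nat_lit 336443) (nat_lit 32) (.e (nat_lit 466977) (nat_lit 22) (.e (nat_lit 196656) (nat_lit 11) (.e (nat_lit 16396) (nat_lit 0) (.e (nat_lit 2478) (nat_lit 157) (.e (nat_lit 5953) (nat_lit 322) .nil))))))) (.g (nat_lit 4) .nil .nil))) 
(.lf (nat_lit 154996) (.g (nat_lit 2846) (.e (nat_lit 57409) (nat_lit 12) (.e (nat_lit 336454) (nat_lit 34) (.e (nat_lit 483380) (nat_lit 23) (.e (nat_lit 336326) (nat_lit 18) (.e (nat_lit 204831) (nat_lit 18) (.e (nat_lit 57847) (nat_lit 252) .nil)))))) (.g (nat_lit 0) .nil .nil))))) (.nd (nat_lit 4) (.nd (nat_lit 5) 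
(.lf (nat_lit 154956) (.g (nat_lit 3084) (.e (nat_lit 57409) (nat_lit 12) (.e (nat_lit 336443) (nat_lit 32) (.e (nat_lit 466977) (nat_lit 22) (.e (nat_lit 196654) (nat_lit 11) (.e (nat_lit 16406) (nat_lit 1) (.e (nat_lit 164398) (nat_lit 256) .nil)))))) (.g (nat_lit 0) .nil .nil))) 
(.lf (nat_lit 154988) (.g (nat_lit 2292) (.e (nat_lit 57409) (nat_lit 12) (.e (nat_lit 336452) (nat_lit 34) (.e (nat_lit 483403) (nat_lit 26) (.e (nat_lit 385066) (nat_lit 26) (.e (nat_lit 532499) (nat_lit 1) (.e (nat_lit 57854) (nat_lit 252) .nil)))))) (.g (nat_lit 4) .nil .nil)))) (.nd (nat_lit 5) 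
(.lf (nat_lit 154972) (.g (nat_lit 1970) (.e (nat_lit 57409) (nat_lit 12) (.e (nat_lit 336443) (nat_lit 32) (.e (nat_lit 466979) (nat_lit 23) (.e (nat_lit 204813) (nat_lit 9) (.e (nat_lit 426099) (nat_lit 1) (.e (nat_lit 164399) (nat_lit 256) .nil)))))) (.g (nat_lit 4) .nil .nil))) 
(.lf (nat_lit 155004) (.g (nat_lit 3405) (.e (nat_lit 57409) (nat_lit 12) (.e (nat_lit 336454) (nat_lit 34) (.e (nat_lit 483383) (nat_lit 23) (.e (nat_lit 336019) (nat_lit 3) (.e (nat_lit 98333) (nat_lit 18) (.e (nat_lit 164183) (nat_lit 154) .nil)))))) (.g (nat_lit 0) .nil .nil))))))) (.nd (nat_lit 2) (.nd (nat_lit 3) (.nd (nat_lit 4) (.nd (nat_lit 5) 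
(.lf (nat_lit 154946) (.g (nat_lit 337) (.e (nat_lit 57409) (nat_lit 12) (.e (nat_lit 336443) (nat_lit 32) (.e (nat_lit 466977) (nat_lit 22) .nil))) .nil)) 
(.lf (nat_lit 154978) (.g (nat_lit 389) (.e (nat_lit 57409) (nat_lit 12) (.e (nat_lit 336443) (nat_lit 32) (.e (nat_lit 466981) (nat_lit 23) .nil))) .nil))) (.nd (nat_lit 5) 
(.lf (nat_lit 154962) (.g (nat_lit 2674) (.e (nat_lit 57409) (nat_lit 12) (.e (nat_lit 336443) (nat_lit 32) (.e (nat_lit 466977) (nat_lit 22) (.e (nat_lit 196656) (nat_lit 11) (.e (nat_lit 16388) (nat_lit 0) (.e (nat_lit 2536) (nat_lit 157) (.e (nat_lit 5953) (nat_lit 322) .nil))))))) (.g (nat_lit 4) .nil .nil))) 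
(.lf (nat_lit 154994) (.g (nat_lit 3261) (.e (nat_lit 57409) (nat_lit 12) (.e (nat_lit 336454) (nat_lit 34) (.e (nat_lit 483380) (nat_lit 23) (.e (nat_lit 336324) (nat_lit 18) (.e (nat_lit 204829) (nat_lit 18) (.e (nat_lit 57847) (nat_lit 252) .nil)))))) (.g (nat_lit 0) .nil .nil))))) (.nd (nat_lit 4) (.nd (nat_lit 5) 
(.lf (nat_lit 154954) (.g (nat_lit 1764) (.e (nat_lit 57409) (nat_lit 12) (.e (nat_lit 336443) (nat_lit 32) (.e (nat_lit 466977) (nat_lit 22) (.e (nat_lit 196654) (nat_lit 11) (.e (nat_lit 16386) (nat_lit 0) .nil))))) .nil)) 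
(.lf (nat_lit 154986) (.g (nat_lit 2659) (.e (nat_lit 57409) (nat_lit 12) (.e (nat_lit 336443) (nat_lit 32) (.e (nat_lit 466981) (nat_lit 23) (.e (nat_lit 204813) (nat_lit 9) (.e (nat_lit 426108) (nat_lit 1) (.e (nat_lit 164402) (nat_lit 256) .nil)))))) (.g (nat_lit 5) .nil .nil)))) (.nd (nat_lit 5) 
(.lf (nat_lit 154970) (.g (nat_lit 2459) (.e (nat_lit 57409) (nat_lit 12) (.e (nat_lit 336443) (nat_lit 32) (.e (nat_lit 466978) (nat_lit 23) (.e (nat_lit 204813) (nat_lit 9) (.e (nat_lit 426100) (nat_lit 1) (.e (nat_lit 164399) (nat_lit 256) .nil)))))) (.g (nat_lit 5) .nil .nil))) 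
(.lf (nat_lit 155002) (.g (nat_lit 3683) (.e (nat_lit 57409) (nat_lit 12) (.e (nat_lit 336454) (nat_lit 34) (.e (nat_lit 483383) (nat_lit 23) (.e (nat_lit 336019) (nat_lit 3) (.e (nat_lit 98333) (nat_lit 18) (.e (nat_lit 164179) (nat_lit 154) .nil)))))) (.g (nat_lit 5) .nil .nil)))))) (.nd (nat_lit 3) (.nd (nat_lit 4) (.nd (nat_lit 5) 
(.lf (nat_lit 154950) (.g (nat_lit 3337) (.e (nat_lit 57409) (nat_lit 12) (.e (nat_lit 336443) (nat_lit 32) (.e (nat_lit 466977) (nat_lit 22) (.e (nat_lit 196624) (nat_lit 9) (.e (nat_lit 442) (nat_lit 33) (.e (nat_lit 434216) (nat_lit 18) (.e (nat_lit 5948) (nat_lit 322) .nil))))))) (.g (nat_lit 4) .nil .nil))) 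
(.lf (nat_lit 154982) (.g (nat_lit 1047) (.e (nat_lit 57409) (nat_lit 12) (.e (nat_lit 336443) (nat_lit 32) (.e (nat_lit 466981) (nat_lit 23) (.e (nat_lit 204812) (nat_lit 9) (.e (nat_lit 426107) (nat_lit 1) .nil))))) .nil))) (.nd (nat_lit 5) 
(.lf (nat_lit 154966) (.g (nat_lit 3012) (.e (nat_lit 57409) (nat_lit 12) (.e (nat_lit 336443) (nat_lit 32) (.e (nat_lit 466977) (nat_lit 22) (.e (nat_lit 196656) (nat_lit 11) (.e (nat_lit 16405) (nat_lit 1) (.e (nat_lit 164399) (nat_lit 256) .nil)))))) (.g (nat_lit 0) .nil .nil))) 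
(.lf (nat_lit 154998) (.g (nat_lit 2142) (.e (nat_lit 57409) (nat_lit 12) (.e (nat_lit 336454) (nat_lit 34) (.e (nat_lit 483382) (nat_lit 23) (.e (nat_lit 336019) (nat_lit 3) (.e (nat_lit 98335) (nat_lit 18) (.e (nat_lit 164183) (nat_lit 154) .nil)))))) (.g (nat_lit 5) .nil .nil))))) (.nd (nat_lit 4) (.nd (nat_lit 5) 
(.lf (nat_lit 154958) (.g (nat_lit 3121) (.e (nat_lit 57409) (nat_lit 12) (.e (nat_lit 336443) (nat_lit 32) (.e (nat_lit 466977) (nat_lit 22) (.e (nat_lit 196654) (nat_lit 11) (.e (nat_lit 16407) (nat_lit 1) (.e (nat_lit 164403) (nat_lit 256) .nil)))))) (.g (nat_lit 0) .nil .nil))) 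
(.lf (nat_lit 154990) (.g (nat_lit 2130) (.e (nat_lit 57409) (nat_lit 12) (.e (nat_lit 336452) (nat_lit 34) (.e (nat_lit 483403) (nat_lit 26) (.e (nat_lit 385066) (nat_lit 26) (.e (nat_lit 532504) (nat_lit 1) (.e (nat_lit 57854) (nat_lit 252) .nil)))))) (.g (nat_lit 4) .nil .nil)))) (.nd (nat_lit 5) 
(.lf (nat_lit 154974) (.g (nat_lit 2522) (.e (nat_lit 57409) (nat_lit 12) (.e (nat_lit 336443) (nat_lit 32) (.e (nat_lit 466979) (nat_lit 23) (.e (nat_lit 204813) (nat_lit 9) (.e (nat_lit 426108) (nat_lit 1) (.e (nat_lit 164402) (nat_lit 256) .nil)))))) (.g (nat_lit 5) .nil .nil))) 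
(.lf (nat_lit 155006) (.g (nat_lit 3322) (.e (nat_lit 57409) (nat_lit 12) (.e (nat_lit 336454) (nat_lit 34) (.e (nat_lit 483383) (nat_lit 23) (.e (nat_lit 336019) (nat_lit 3) (.e (nat_lit 98334) (nat_lit 18) (.e (nat_lit 164183) (nat_lit 154) .nil)))))) (.g (nat_lit 0) .nil .nil)))))))) (.nd (nat_lit 1) (.nd (nat_lit 2) (.nd (nat_lit 3) (.nd (nat_lit 4) (.nd (nat_lit 5) 
(.lf (nat_lit 154945) (.g (nat_lit 565) (.e (nat_lit 57409) (nat_lit 12) (.e (nat_lit 336443) (nat_lit 32) (.e (nat_lit 466976) (nat_lit 22) .nil))) .nil)) 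
(.lf (nat_lit 154977) (.g (nat_lit 2439) (.e (nat_lit 57409) (nat_lit 12) (.e (nat_lit 336443) (nat_lit 32) (.e (nat_lit 466980) (nat_lit 23) (.e (nat_lit 204813) (nat_lit 9) (.e (nat_lit 426107) (nat_lit 1) (.e (nat_lit 164403) (nat_lit 256) .nil)))))) (.g (nat_lit 4) .nil .nil)))) (.nd (nat_lit 5) 
(.lf (nat_lit 154961) (.g (nat_lit 2005) (.e (nat_lit 57409) (nat_lit 12) (.e (nat_lit 336443) (nat_lit 32) (.e (nat_lit 466977) (nat_lit 22) (.e (nat_lit 196656) (nat_lit 11) (.e (nat_lit 16388) (nat_lit 0) .nil))))) .nil)) 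
(.lf (nat_lit 154993) (.g (nat_lit 2331) (.e (nat_lit 57409) (nat_lit 12) (.e (nat_lit 336452) (nat_lit 34) (.e (nat_lit 483406) (nat_lit 26) (.e (nat_lit 385068) (nat_lit 26) (.e (nat_lit 532504) (nat_lit 1) (.e (nat_lit 57852) (nat_lit 252) .nil)))))) (.g (nat_lit 4) .nil .nil))))) (.nd (nat_lit 4) (.nd (nat_lit 5) 
(.lf (nat_lit 154953) (.g (nat_lit 1069) (.e (nat_lit 57409) (nat_lit 12) (.e (nat_lit 336443) (nat_lit 32) (.e (nat_lit 466977) (nat_lit 22) (.e (nat_lit 196654) (nat_lit 11) .nil)))) .nil)) 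
(.lf (nat_lit 154985) (.g (nat_lit 2064) (.e (nat_lit 57409) (nat_lit 12) (.e (nat_lit 336443) (nat_lit 32) (.e (nat_lit 466981) (nat_lit 23) (.e (nat_lit 204813) (nat_lit 9) (.e (nat_lit 426106) (nat_lit 1) (.e (nat_lit 164403) (nat_lit 256) .nil)))))) (.g (nat_lit 4) .nil .nil)))) (.nd (nat_lit 5) 
(.lf (nat_lit 154969) (.g (nat_lit 2337) (.e (nat_lit 57409) (nat_lit 12) (.e (nat_lit 336443) (nat_lit 32) (.e (nat_lit 466978) (nat_lit 23) (.e (nat_lit 204813) (nat_lit 9) (.e (nat_lit 426098) (nat_lit 1) (.e (nat_lit 164399) (nat_lit 256) .nil)))))) (.g (nat_lit 5) .nil .nil))) 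
(.lf (nat_lit 155001) (.g (nat_lit 2493) (.e (nat_lit 57409) (nat_lit 12) (.e (nat_lit 336454) (nat_lit 34) (.e (nat_lit 483382) (nat_lit 23) (.e (nat_lit 336326) (nat_lit 18) (.e (nat_lit 204831) (nat_lit 18) (.e (nat_lit 57847) (nat_lit 252) .nil)))))) (.g (nat_lit 5) .nil .nil)))))) (.nd (nat_lit 3) (.nd (nat_lit 4) (.nd (nat_lit 5) 
(.lf (nat_lit 154949) (.g (nat_lit 1946) (.e (nat_lit 57409) (nat_lit 12) (.e (nat_lit 336443) (nat_lit 32) (.e (nat_lit 466977) (nat_lit 22) (.e (nat_lit 196624) (nat_lit 9) (.e (nat_lit 442) (nat_lit 33) .nil))))) .nil)) 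
(.lf (nat_lit 154981) (.g (nat_lit 3570) (.e (nat_lit 57409) (nat_lit 12) (.e (nat_lit 336443) (nat_lit 32) (.e (nat_lit 466981) (nat_lit 23) (.e (nat_lit 204809) (nat_lit 9) (.e (nat_lit 426108) (nat_lit 1) (.e (nat_lit 164402) (nat_lit 256) .nil)))))) (.g (nat_lit 6) .nil .nil)))) (.nd (nat_lit 5) 
(.lf (nat_lit 154965) (.g (nat_lit 2197) (.e (nat_lit 57409) (nat_lit 12) (.e (nat_lit 336443) (nat_lit 32) (.e (nat_lit 466977) (nat_lit 22) (.e (nat_lit 196656) (nat_lit 11) (.e (nat_lit 16401) (nat_lit 0) .nil))))) .nil)) 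
(.lf (nat_lit 154997) (.g (nat_lit 2645) (.e (nat_lit 57409) (nat_lit 12) (.e (nat_lit 336454) (nat_lit 34) (.e (nat_lit 483382) (nat_lit 23) (.e (nat_lit 336019) (nat_lit 3) (.e (nat_lit 98333) (nat_lit 18) (.e (nat_lit 164183) (nat_lit 154) .nil)))))) (.g (nat_lit 5) .nil .nil))))) (.nd (nat_lit 4) (.nd (nat_lit 5) 
(.lf (nat_lit 154957) (.g (nat_lit 2814) (.e (nat_lit 57409) (nat_lit 12) (.e (nat_lit 336443) (nat_lit 32) (.e (nat_lit 466977) (nat_lit 22) (.e (nat_lit 196654) (nat_lit 11) (.e (nat_lit 16406) (nat_lit 1) (.e (nat_lit 164399) (nat_lit 256) .nil)))))) (.g (nat_lit 0) .nil .nil))) 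
(.lf (nat_lit 154989) (.g (nat_lit 3149) (.e (nat_lit 57409) (nat_lit 12) (.e (nat_lit 336452) (nat_lit 34) (.e (nat_lit 483403) (nat_lit 26) (.e (nat_lit 385066) (nat_lit 26) (.e (nat_lit 532501) (nat_lit 1) (.e (nat_lit 57852) (nat_lit 252) .nil)))))) (.g (nat_lit 6) .nil .nil)))) (.nd (nat_lit 5) 
(.lf (nat_lit 154973) (.g (nat_lit 2010) (.e (nat_lit 57409) (nat_lit 12) (.e (nat_lit 336443) (nat_lit 32) (.e (nat_lit 466979) (nat_lit 23) (.e (nat_lit 204813) (nat_lit 9) (.e (nat_lit 426106) (nat_lit 1) (.e (nat_lit 164403) (nat_lit 256) .nil)))))) (.g (nat_lit 4) .nil .nil))) 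
(.lf (nat_lit 155005) (.g (nat_lit 2527) (.e (nat_lit 57409) (nat_lit 12) (.e (nat_lit 336454) (nat_lit 34) (.e (nat_lit 483383) (nat_lit 23) (.e (nat_lit 336019) (nat_lit 3) (.e (nat_lit 98334) (nat_lit 18) (.e (nat_lit 164180) (nat_lit 154) .nil)))))) (.g (nat_lit 4) .nil .nil))))))) (.nd (nat_lit 2) (.nd (nat_lit 3) (.nd (nat_lit 4) (.nd (nat_lit 5) 
(.lf (nat_lit 154947) (.g (nat_lit 1382) (.e (nat_lit 57409) (nat_lit 12) (.e (nat_lit 336443) (nat_lit 32) (.e (nat_lit 466977) (nat_lit 22) (.e (nat_lit 196622) (nat_lit 9) .nil)))) .nil)) 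
(.lf (nat_lit 154979) (.g (nat_lit 1618) (.e (nat_lit 57409) (nat_lit 12) (.e (nat_lit 336443) (nat_lit 32) (.e (nat_lit 466981) (nat_lit 23) (.e (nat_lit 204808) (nat_lit 9) (.e (nat_lit 426098) (nat_lit 1) (.e (nat_lit 164399) (nat_lit 256) .nil)))))) (.g (nat_lit 4) .nil .nil)))) (.nd (nat_lit 5) 
(.lf (nat_lit 154963) (.g (nat_lit 2171) (.e (nat_lit 57409) (nat_lit 12) (.e (nat_lit 336443) (nat_lit 32) (.e (nat_lit 466977) (nat_lit 22) (.e (nat_lit 196656) (nat_lit 11) (.e (nat_lit 16396) (nat_lit 0) .nil))))) .nil)) 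
(.lf (nat_lit 154995) (.g (nat_lit 3187) (.e (nat_lit 57409) (nat_lit 12) (.e (nat_lit 336454) (nat_lit 34) (.e (nat_lit 483380) (nat_lit 23) (.e (nat_lit 336326) (nat_lit 18) (.e (nat_lit 204829) (nat_lit 18) (.e (nat_lit 57847) (nat_lit 252) .nil)))))) (.g (nat_lit 0) .nil .nil))))) (.nd (nat_lit 4) (.nd (nat_lit 5) 
(.lf (nat_lit 154955) (.g (nat_lit 2810) (.e (nat_lit 57409) (nat_lit 12) (.e (nat_lit 336443) (nat_lit 32) (.e (nat_lit 466977) (nat_lit 22) (.e (nat_lit 196654) (nat_lit 11) (.e (nat_lit 16405) (nat_lit 1) (.e (nat_lit 164399) (nat_lit 256) .nil)))))) (.g (nat_lit 0) .nil .nil))) 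
(.lf (nat_lit 154987) (.g (nat_lit 635) (.e (nat_lit 57409) (nat_lit 12) (.e (nat_lit 336443) (nat_lit 32) (.e (nat_lit 466981) (nat_lit 23) (.e (nat_lit 212736) (nat_lit 10) .nil)))) .nil))) (.nd (nat_lit 5) 
(.lf (nat_lit 154971) (.g (nat_lit 391) (.e (nat_lit 57409) (nat_lit 12) (.e (nat_lit 336443) (nat_lit 32) (.e (nat_lit 466979) (nat_lit 23) .nil))) .nil)) 
(.lf (nat_lit 155003) (.g (nat_lit 2854) (.e (nat_lit 57409) (nat_lit 12) (.e (nat_lit 336454) (nat_lit 34) (.e (nat_lit 483383) (nat_lit 23) (.e (nat_lit 336019) (nat_lit 3) (.e (nat_lit 98333) (nat_lit 18) (.e (nat_lit 164182) (nat_lit 154) .nil)))))) (.g (nat_lit 4) .nil .nil)))))) (.nd (nat_lit 3) (.nd (nat_lit 4) (.nd (nat_lit 5) 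
(.lf (nat_lit 154951) (.g (nat_lit 1329) (.e (nat_lit 57409) (nat_lit 12) (.e (nat_lit 336443) (nat_lit 32) (.e (nat_lit 466977) (nat_lit 22) (.e (nat_lit 196653) (nat_lit 11) .nil)))) .nil)) 
(.lf (nat_lit 154983) (.g (nat_lit 2049) (.e (nat_lit 57409) (nat_lit 12) (.e (nat_lit 336443) (nat_lit 32) (.e (nat_lit 466981) (nat_lit 23) (.e (nat_lit 204813) (nat_lit 9) (.e (nat_lit 426099) (nat_lit 1) (.e (nat_lit 164399) (nat_lit 256) .nil)))))) (.g (nat_lit 4) .nil .nil)))) (.nd (nat_lit 5) 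
(.lf (nat_lit 154967) (.g (nat_lit 3294) (.e (nat_lit 57409) (nat_lit 12) (.e (nat_lit 336443) (nat_lit 32) (.e (nat_lit 466977) (nat_lit 22) (.e (nat_lit 196656) (nat_lit 11) (.e (nat_lit 16407) (nat_lit 1) (.e (nat_lit 164403) (nat_lit 256) .nil)))))) (.g (nat_lit 0) .nil .nil))) 
(.lf (nat_lit 154999) (.g (nat_lit 1764) (.e (nat_lit 57409) (nat_lit 12) (.e (nat_lit 336454) (nat_lit 34) (.e (nat_lit 483382) (nat_lit 23) (.e (nat_lit 336322) (nat_lit 18) (.e (nat_lit 204829) (nat_lit 18) (.e (nat_lit 57847) (nat_lit 252) .nil)))))) (.g (nat_lit 4) .nil .nil))))) (.nd (nat_lit 4) (.nd (nat_lit 5) 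
(.lf (nat_lit 154959) (.g (nat_lit 1198) (.e (nat_lit 57409) (nat_lit 12) (.e (nat_lit 336443) (nat_lit 32) (.e (nat_lit 466977) (nat_lit 22) (.e (nat_lit 196654) (nat_lit 11) (.e (nat_lit 24320) (nat_lit 1) .nil))))) .nil)) 
(.lf (nat_lit 154991) (.g (nat_lit 2470) (.e (nat_lit 57409) (nat_lit 12) (.e (nat_lit 336452) (nat_lit 34) (.e (nat_lit 483406) (nat_lit 26) (.e (nat_lit 385066) (nat_lit 26) (.e (nat_lit 532501) (nat_lit 1) .nil))))) .nil))) (.nd (nat_lit 5) 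
(.lf (nat_lit 154975) (.g (nat_lit 752) (.e (nat_lit 57409) (nat_lit 12) (.e (nat_lit 336443) (nat_lit 32) (.e (nat_lit 466980) (nat_lit 23) .nil))) .nil)) 
(.lf (nat_lit 155007) (.g (nat_lit 2963) (.e (nat_lit 57409) (nat_lit 12) (.e (nat_lit 336454) (nat_lit 34) (.e (nat_lit 483383) (nat_lit 23) (.e (nat_lit 336019) (nat_lit 3) (.e (nat_lit 98335) (nat_lit 18) (.e (nat_lit 164179) (nat_lit 154) .nil)))))) (.g (nat_lit 4) .nil .nil)))))))))

noncomputable def tv2069 : DT := (.nd (nat_lit 0) (.nd (nat_lit 1) (.nd (nat_lit 2) (.nd (nat_lit 3) (.nd (nat_lit 4) (.nd (nat_lit 5) 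
(.lf (nat_lit 155008) (.g (nat_lit 3045) (.e (nat_lit 57409) (nat_lit 12) (.e (nat_lit 336454) (nat_lit 34) (.e (nat_lit 483383) (nat_lit 23) (.e (nat_lit 336019) (nat_lit 3) (.e (nat_lit 98335) (nat_lit 18) (.e (nat_lit 164183) (nat_lit 154) .nil)))))) (.g (nat_lit 0) .nil .nil))) 
(.lf (nat_lit 155040) (.g (nat_lit 2773) (.e (nat_lit 57409) (nat_lit 12) (.e (nat_lit 336454) (nat_lit 34) (.e (nat_lit 483397) (nat_lit 25) (.e (nat_lit 368676) (nat_lit 21) (.e (nat_lit 516115) (nat_lit 1) (.e (nat_lit 164179) (nat_lit 154) .nil)))))) (.g (nat_lit 4) .nil .nil)))) (.nd (nat_lit 5) 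
(.lf (nat_lit 155024) (.g (nat_lit 2197) (.e (nat_lit 57409) (nat_lit 12) (.e (nat_lit 336454) (nat_lit 34) (.e (nat_lit 483384) (nat_lit 23) (.e (nat_lit 336326) (nat_lit 18) (.e (nat_lit 204831) (nat_lit 18) (.e (nat_lit 57847) (nat_lit 252) .nil)))))) (.g (nat_lit 4) .nil .nil))) 
(.lf (nat_lit 155056) (.g (nat_lit 3023) (.e (nat_lit 57409) (nat_lit 12) (.e (nat_lit 336454) (nat_lit 34) (.e (nat_lit 483403) (nat_lit 26) (.e (nat_lit 385066) (nat_lit 26) (.e (nat_lit 532503) (nat_lit 1) (.e (nat_lit 57847) (nat_lit 252) .nil)))))) (.g (nat_lit 0) .nil .nil))))) (.nd (nat_lit 4) (.nd (nat_lit 5) 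
(.lf (nat_lit 155016) (.g (nat_lit 3029) (.e (nat_lit 57409) (nat_lit 12) (.e (nat_lit 336454) (nat_lit 34) (.e (nat_lit 483384) (nat_lit 23) (.e (nat_lit 336019) (nat_lit 3) (.e (nat_lit 98333) (nat_lit 18) (.e (nat_lit 164183) (nat_lit 154) .nil)))))) (.g (nat_lit 0) .nil .nil))) 
(.lf (nat_lit 155048) (.g (nat_lit 2595) (.e (nat_lit 57409) (nat_lit 12) (.e (nat_lit 336454) (nat_lit 34) (.e (nat_lit 483399) (nat_lit 25) (.e (nat_lit 368676) (nat_lit 21) (.e (nat_lit 516120) (nat_lit 1) (.e (nat_lit 164183) (nat_lit 154) .nil)))))) (.g (nat_lit 0) .nil .nil)))) (.nd (nat_lit 5) 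
(.lf (nat_lit 155032) (.g (nat_lit 2623) (.e (nat_lit 57409) (nat_lit 12) (.e (nat_lit 336454) (nat_lit 34) (.e (nat_lit 483385) (nat_lit 23) (.e (nat_lit 336325) (nat_lit 18) (.e (nat_lit 204829) (nat_lit 18) (.e (nat_lit 57847) (nat_lit 252) .nil)))))) (.g (nat_lit 5) .nil .nil))) 
(.lf (nat_lit 155064) (.g (nat_lit 2183) (.e (nat_lit 57409) (nat_lit 12) (.e (nat_lit 336454) (nat_lit 34) (.e (nat_lit 483405) (nat_lit 26) (.e (nat_lit 385066) (nat_lit 26) (.e (nat_lit 532502) (nat_lit 1) (.e (nat_lit 57846) (nat_lit 252) .nil)))))) (.g (nat_lit 4) .nil .nil)))))) (.nd (nat_lit 3) (.nd (nat_lit 4) (.nd (nat_lit 5) 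
(.lf (nat_lit 155012) (.g (nat_lit 3565) (.e (nat_lit 57409) (nat_lit 12) (.e (nat_lit 336454) (nat_lit 34) (.e (nat_lit 483383) (nat_lit 23) (.e (nat_lit 336324) (nat_lit 18) (.e (nat_lit 204830) (nat_lit 18) (.e (nat_lit 57854) (nat_lit 252) .nil)))))) (.g (nat_lit 0) .nil .nil))) 
(.lf (nat_lit 155044) (.g (nat_lit 2587) (.e (nat_lit 57409) (nat_lit 12) (.e (nat_lit 336454) (nat_lit 34) (.e (nat_lit 483398) (nat_lit 25) (.e (nat_lit 368676) (nat_lit 21) (.e (nat_lit 516120) (nat_lit 1) (.e (nat_lit 164183) (nat_lit 154) .nil)))))) (.g (nat_lit 0) .nil .nil)))) (.nd (nat_lit 5) 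
(.lf (nat_lit 155028) (.g (nat_lit 3063) (.e (nat_lit 57409) (nat_lit 12) (.e (nat_lit 336454) (nat_lit 34) (.e (nat_lit 483385) (nat_lit 23) (.e (nat_lit 336019) (nat_lit 3) (.e (nat_lit 98334) (nat_lit 18) (.e (nat_lit 164183) (nat_lit 154) .nil)))))) (.g (nat_lit 6) .nil .nil))) 
(.lf (nat_lit 155060) (.g (nat_lit 2149) (.e (nat_lit 57409) (nat_lit 12) (.e (nat_lit 336454) (nat_lit 34) (.e (nat_lit 483404) (nat_lit 26) (.e (nat_lit 385066) (nat_lit 26) (.e (nat_lit 532499) (nat_lit 1) (.e (nat_lit 57854) (nat_lit 252) .nil)))))) (.g (nat_lit 4) .nil .nil))))) (.nd (nat_lit 4) (.nd (nat_lit 5) 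
(.lf (nat_lit 155020) (.g (nat_lit 2834) (.e (nat_lit 57409) (nat_lit 12) (.e (nat_lit 336454) (nat_lit 34) (.e (nat_lit 483384) (nat_lit 23) (.e (nat_lit 336324) (nat_lit 18) (.e (nat_lit 204829) (nat_lit 18) (.e (nat_lit 57847) (nat_lit 252) .nil)))))) (.g (nat_lit 5) .nil .nil))) 
(.lf (nat_lit 155052) (.g (nat_lit 2786) (.e (nat_lit 57409) (nat_lit 12) (.e (nat_lit 336454) (nat_lit 34) (.e (nat_lit 483402) (nat_lit 26) (.e (nat_lit 385068) (nat_lit 26) (.e (nat_lit 532503) (nat_lit 1) (.e (nat_lit 57847) (nat_lit 252) .nil)))))) (.g (nat_lit 5) .nil .nil)))) (.nd (nat_lit 5) 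
(.lf (nat_lit 155036) (.g (nat_lit 2911) (.e (nat_lit 57409) (nat_lit 12) (.e (nat_lit 336454) (nat_lit 34) (.e (nat_lit 483385) (nat_lit 23) (.e (nat_lit 336326) (nat_lit 18) (.e (nat_lit 204831) (nat_lit 18) (.e (nat_lit 57846) (nat_lit 252) .nil)))))) (.g (nat_lit 4) .nil .nil))) 
(.lf (nat_lit 155068) (.g (nat_lit 3236) (.e (nat_lit 57409) (nat_lit 12) (.e (nat_lit 336454) (nat_lit 34) (.e (nat_lit 483405) (nat_lit 26) (.e (nat_lit 385068) (nat_lit 26) (.e (nat_lit 532499) (nat_lit 1) (.e (nat_lit 57847) (nat_lit 252) .nil)))))) (.g (nat_lit 6) .nil .nil))))))) (.nd (nat_lit 2) (.nd (nat_lit 3) (.nd (nat_lit 4) (.nd (nat_lit 5) 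
(.lf (nat_lit 155010) (.g (nat_lit 1465) (.e (nat_lit 57409) (nat_lit 12) (.e (nat_lit 336454) (nat_lit 34) (.e (nat_lit 483383) (nat_lit 23) (.e (nat_lit 336316) (nat_lit 17) .nil)))) .nil)) 
(.lf (nat_lit 155042) (.g (nat_lit 2685) (.e (nat_lit 57409) (nat_lit 12) (.e (nat_lit 336454) (nat_lit 34) (.e (nat_lit 483398) (nat_lit 25) (.e (nat_lit 368676) (nat_lit 21) (.e (nat_lit 516117) (nat_lit 1) (.e (nat_lit 164183) (nat_lit 154) .nil)))))) (.g (nat_lit 0) .nil .nil)))) (.nd (nat_lit 5) 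
(.lf (nat_lit 155026) (.g (nat_lit 3235) (.e (nat_lit 57409) (nat_lit 12) (.e (nat_lit 336454) (nat_lit 34) (.e (nat_lit 483385) (nat_lit 23) (.e (nat_lit 336019) (nat_lit 3) (.e (nat_lit 98333) (nat_lit 18) (.e (nat_lit 164183) (nat_lit 154) .nil)))))) (.g (nat_lit 6) .nil .nil))) 
(.lf (nat_lit 155058) (.g (nat_lit 3169) (.e (nat_lit 57409) (nat_lit 12) (.e (nat_lit 336454) (nat_lit 34) (.e (nat_lit 483403) (nat_lit 26) (.e (nat_lit 385068) (nat_lit 26) (.e (nat_lit 532503) (nat_lit 1) (.e (nat_lit 57847) (nat_lit 252) .nil)))))) (.g (nat_lit 0) .nil .nil))))) (.nd (nat_lit 4) (.nd (nat_lit 5) 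
(.lf (nat_lit 155018) (.g (nat_lit 3077) (.e (nat_lit 57409) (nat_lit 12) (.e (nat_lit 336454) (nat_lit 34) (.e (nat_lit 483384) (nat_lit 23) (.e (nat_lit 336019) (nat_lit 3) (.e (nat_lit 98334) (nat_lit 18) (.e (nat_lit 164183) (nat_lit 154) .nil)))))) (.g (nat_lit 6) .nil .nil))) 
(.lf (nat_lit 155050) (.g (nat_lit 2741) (.e (nat_lit 57409) (nat_lit 12) (.e (nat_lit 336454) (nat_lit 34) (.e (nat_lit 483401) (nat_lit 25) (.e (nat_lit 368676) (nat_lit 21) (.e (nat_lit 516118) (nat_lit 1) (.e (nat_lit 164183) (nat_lit 154) .nil)))))) (.g (nat_lit 6) .nil .nil)))) (.nd (nat_lit 5) 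
(.lf (nat_lit 155034) (.g (nat_lit 2504) (.e (nat_lit 57409) (nat_lit 12) (.e (nat_lit 336454) (nat_lit 34) (.e (nat_lit 483385) (nat_lit 23) (.e (nat_lit 336326) (nat_lit 18) (.e (nat_lit 204829) (nat_lit 18) (.e (nat_lit 57847) (nat_lit 252) .nil)))))) (.g (nat_lit 4) .nil .nil))) 
(.lf (nat_lit 155066) (.g (nat_lit 2643) (.e (nat_lit 57409) (nat_lit 12) (.e (nat_lit 336454) (nat_lit 34) (.e (nat_lit 483405) (nat_lit 26) (.e (nat_lit 385066) (nat_lit 26) (.e (nat_lit 532502) (nat_lit 1) (.e (nat_lit 57854) (nat_lit 252) .nil)))))) (.g (nat_lit 6) .nil .nil)))))) (.nd (nat_lit 3) (.nd (nat_lit 4) (.nd (nat_lit 5) 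
(.lf (nat_lit 155014) (.g (nat_lit 3088) (.e (nat_lit 57409) (nat_lit 12) (.e (nat_lit 336454) (nat_lit 34) (.e (nat_lit 483383) (nat_lit 23) (.e (nat_lit 336326) (nat_lit 18) (.e (nat_lit 204829) (nat_lit 18) (.e (nat_lit 57847) (nat_lit 252) .nil)))))) (.g (nat_lit 0) .nil .nil))) 
(.lf (nat_lit 155046) (.g (nat_lit 2684) (.e (nat_lit 57409) (nat_lit 12) (.e (nat_lit 336454) (nat_lit 34) (.e (nat_lit 483399) (nat_lit 25) (.e (nat_lit 368676) (nat_lit 21) (.e (nat_lit 516117) (nat_lit 1) (.e (nat_lit 164183) (nat_lit 154) .nil)))))) (.g (nat_lit 0) .nil .nil)))) (.nd (nat_lit 5) 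
(.lf (nat_lit 155030) (.g (nat_lit 2618) (.e (nat_lit 57409) (nat_lit 12) (.e (nat_lit 336454) (nat_lit 34) (.e (nat_lit 483385) (nat_lit 23) (.e (nat_lit 336322) (nat_lit 18) (.e (nat_lit 204830) (nat_lit 18) (.e (nat_lit 57852) (nat_lit 252) .nil)))))) (.g (nat_lit 5) .nil .nil))) 
(.lf (nat_lit 155062) (.g (nat_lit 2280) (.e (nat_lit 57409) (nat_lit 12) (.e (nat_lit 336454) (nat_lit 34) (.e (nat_lit 483404) (nat_lit 26) (.e (nat_lit 385068) (nat_lit 26) (.e (nat_lit 532499) (nat_lit 1) (.e (nat_lit 57847) (nat_lit 252) .nil)))))) (.g (nat_lit 4) .nil .nil))))) (.nd (nat_lit 4) (.nd (nat_lit 5) 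
(.lf (nat_lit 155022) (.g (nat_lit 2616) (.e (nat_lit 57409) (nat_lit 12) (.e (nat_lit 336454) (nat_lit 34) (.e (nat_lit 483384) (nat_lit 23) (.e (nat_lit 336326) (nat_lit 18) (.e (nat_lit 204829) (nat_lit 18) (.e (nat_lit 57847) (nat_lit 252) .nil)))))) (.g (nat_lit 5) .nil .nil))) 
(.lf (nat_lit 155054) (.g (nat_lit 2834) (.e (nat_lit 57409) (nat_lit 12) (.e (nat_lit 336454) (nat_lit 34) (.e (nat_lit 483403) (nat_lit 26) (.e (nat_lit 385066) (nat_lit 26) (.e (nat_lit 532502) (nat_lit 1) (.e (nat_lit 57847) (nat_lit 252) .nil)))))) (.g (nat_lit 0) .nil .nil)))) (.nd (nat_lit 5) 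
(.lf (nat_lit 155038) (.g (nat_lit 2480) (.e (nat_lit 57409) (nat_lit 12) (.e (nat_lit 336454) (nat_lit 34) (.e (nat_lit 483391) (nat_lit 23) (.e (nat_lit 336017) (nat_lit 3) (.e (nat_lit 98334) (nat_lit 18) (.e (nat_lit 164183) (nat_lit 154) .nil)))))) (.g (nat_lit 0) .nil .nil))) 
(.lf (nat_lit 155070) (.g (nat_lit 2005) (.e (nat_lit 57409) (nat_lit 12) (.e (nat_lit 336454) (nat_lit 34) (.e (nat_lit 483406) (nat_lit 26) (.e (nat_lit 385065) (nat_lit 26) .nil)))) .nil))))))) (.nd (nat_lit 1) (.nd (nat_lit 2) (.nd (nat_lit 3) (.nd (nat_lit 4) (.nd (nat_lit 5) 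
(.lf (nat_lit 155009) (.g (nat_lit 1481) (.e (nat_lit 57409) (nat_lit 12) (.e (nat_lit 336454) (nat_lit 34) (.e (nat_lit 483383) (nat_lit 23) (.e (nat_lit 343808) (nat_lit 3) .nil)))) .nil)) 
(.lf (nat_lit 155041) (.g (nat_lit 2674) (.e (nat_lit 57409) (nat_lit 12) (.e (nat_lit 336454) (nat_lit 34) (.e (nat_lit 483398) (nat_lit 25) (.e (nat_lit 368676) (nat_lit 21) (.e (nat_lit 516115) (nat_lit 1) (.e (nat_lit 164183) (nat_lit 154) .nil)))))) (.g (nat_lit 0) .nil .nil)))) (.nd (nat_lit 5) 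
(.lf (nat_lit 155025) (.g (nat_lit 2764) (.e (nat_lit 57409) (nat_lit 12) (.e (nat_lit 336454) (nat_lit 34) (.e (nat_lit 483384) (nat_lit 23) (.e (nat_lit 336326) (nat_lit 18) (.e (nat_lit 204831) (nat_lit 18) (.e (nat_lit 57854) (nat_lit 252) .nil)))))) (.g (nat_lit 6) .nil .nil))) 
(.lf (nat_lit 155057) (.g (nat_lit 3636) (.e (nat_lit 57409) (nat_lit 12) (.e (nat_lit 336454) (nat_lit 34) (.e (nat_lit 483403) (nat_lit 26) (.e (nat_lit 385068) (nat_lit 26) (.e (nat_lit 532499) (nat_lit 1) (.e (nat_lit 57847) (nat_lit 252) .nil)))))) (.g (nat_lit 0) .nil .nil))))) (.nd (nat_lit 4) (.nd (nat_lit 5) 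
(.lf (nat_lit 155017) (.g (nat_lit 2041) (.e (nat_lit 57409) (nat_lit 12) (.e (nat_lit 336454) (nat_lit 34) (.e (nat_lit 483384) (nat_lit 23) (.e (nat_lit 336019) (nat_lit 3) (.e (nat_lit 98334) (nat_lit 18) (.e (nat_lit 164180) (nat_lit 154) .nil)))))) (.g (nat_lit 4) .nil .nil))) 
(.lf (nat_lit 155049) (.g (nat_lit 2226) (.e (nat_lit 57409) (nat_lit 12) (.e (nat_lit 336454) (nat_lit 34) (.e (nat_lit 483401) (nat_lit 25) (.e (nat_lit 368676) (nat_lit 21) (.e (nat_lit 516115) (nat_lit 1) (.e (nat_lit 164183) (nat_lit 154) .nil)))))) (.g (nat_lit 5) .nil .nil)))) (.nd (nat_lit 5) 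
(.lf (nat_lit 155033) (.g (nat_lit 2908) (.e (nat_lit 57409) (nat_lit 12) (.e (nat_lit 336454) (nat_lit 34) (.e (nat_lit 483385) (nat_lit 23) (.e (nat_lit 336325) (nat_lit 18) (.e (nat_lit 204829) (nat_lit 18) (.e (nat_lit 57854) (nat_lit 252) .nil)))))) (.g (nat_lit 5) .nil .nil))) 
(.lf (nat_lit 155065) (.g (nat_lit 2172) (.e (nat_lit 57409) (nat_lit 12) (.e (nat_lit 336454) (nat_lit 34) (.e (nat_lit 483405) (nat_lit 26) (.e (nat_lit 385066) (nat_lit 26) (.e (nat_lit 532502) (nat_lit 1) (.e (nat_lit 57847) (nat_lit 252) .nil)))))) (.g (nat_lit 5) .nil .nil)))))) (.nd (nat_lit 3) (.nd (nat_lit 4) (.nd (nat_lit 5) 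
(.lf (nat_lit 155013) (.g (nat_lit 3737) (.e (nat_lit 57409) (nat_lit 12) (.e (nat_lit 336454) (nat_lit 34) (.e (nat_lit 483383) (nat_lit 23) (.e (nat_lit 336324) (nat_lit 18) (.e (nat_lit 204831) (nat_lit 18) (.e (nat_lit 57846) (nat_lit 252) .nil)))))) (.g (nat_lit 6) .nil .nil))) 
(.lf (nat_lit 155045) (.g (nat_lit 2697) (.e (nat_lit 57409) (nat_lit 12) (.e (nat_lit 336454) (nat_lit 34) (.e (nat_lit 483399) (nat_lit 25) (.e (nat_lit 368676) (nat_lit 21) (.e (nat_lit 516115) (nat_lit 1) (.e (nat_lit 164183) (nat_lit 154) .nil)))))) (.g (nat_lit 0) .nil .nil)))) (.nd (nat_lit 5) 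
(.lf (nat_lit 155029) (.g (nat_lit 2911) (.e (nat_lit 57409) (nat_lit 12) (.e (nat_lit 336454) (nat_lit 34) (.e (nat_lit 483385) (nat_lit 23) (.e (nat_lit 336019) (nat_lit 3) (.e (nat_lit 98335) (nat_lit 18) (.e (nat_lit 164179) (nat_lit 154) .nil)))))) (.g (nat_lit 4) .nil .nil))) 
(.lf (nat_lit 155061) (.g (nat_lit 2628) (.e (nat_lit 57409) (nat_lit 12) (.e (nat_lit 336454) (nat_lit 34) (.e (nat_lit 483404) (nat_lit 26) (.e (nat_lit 385066) (nat_lit 26) (.e (nat_lit 532504) (nat_lit 1) (.e (nat_lit 57852) (nat_lit 252) .nil)))))) (.g (nat_lit 4) .nil .nil))))) (.nd (nat_lit 4) (.nd (nat_lit 5) 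
(.lf (nat_lit 155021) (.g (nat_lit 3003) (.e (nat_lit 57409) (nat_lit 12) (.e (nat_lit 336454) (nat_lit 34) (.e (nat_lit 483384) (nat_lit 23) (.e (nat_lit 336324) (nat_lit 18) (.e (nat_lit 204829) (nat_lit 18) (.e (nat_lit 57854) (nat_lit 252) .nil)))))) (.g (nat_lit 6) .nil .nil))) 
(.lf (nat_lit 155053) (.g (nat_lit 3577) (.e (nat_lit 57409) (nat_lit 12) (.e (nat_lit 336454) (nat_lit 34) (.e (nat_lit 483403) (nat_lit 26) (.e (nat_lit 385066) (nat_lit 26) (.e (nat_lit 532499) (nat_lit 1) (.e (nat_lit 57847) (nat_lit 252) .nil)))))) (.g (nat_lit 0) .nil .nil)))) (.nd (nat_lit 5) 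
(.lf (nat_lit 155037) (.g (nat_lit 2586) (.e (nat_lit 57409) (nat_lit 12) (.e (nat_lit 336454) (nat_lit 34) (.e (nat_lit 483391) (nat_lit 23) (.e (nat_lit 336017) (nat_lit 3) (.e (nat_lit 98333) (nat_lit 18) (.e (nat_lit 164183) (nat_lit 154) .nil)))))) (.g (nat_lit 0) .nil .nil))) 
(.lf (nat_lit 155069) (.g (nat_lit 2810) (.e (nat_lit 57409) (nat_lit 12) (.e (nat_lit 336454) (nat_lit 34) (.e (nat_lit 483405) (nat_lit 26) (.e (nat_lit 385068) (nat_lit 26) (.e (nat_lit 532503) (nat_lit 1) (.e (nat_lit 57847) (nat_lit 252) .nil)))))) (.g (nat_lit 5) .nil .nil))))))) (.nd (nat_lit 2) (.nd (nat_lit 3) (.nd (nat_lit 4) (.nd (nat_lit 5) 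
(.lf (nat_lit 155011) (.g (nat_lit 3551) (.e (nat_lit 57409) (nat_lit 12) (.e (nat_lit 336454) (nat_lit 34) (.e (nat_lit 483383) (nat_lit 23) (.e (nat_lit 336324) (nat_lit 18) (.e (nat_lit 204829) (nat_lit 18) (.e (nat_lit 57847) (nat_lit 252) .nil)))))) (.g (nat_lit 0) .nil .nil))) 
(.lf (nat_lit 155043) (.g (nat_lit 2527) (.e (nat_lit 57409) (nat_lit 12) (.e (nat_lit 336454) (nat_lit 34) (.e (nat_lit 483398) (nat_lit 25) (.e (nat_lit 368676) (nat_lit 21) (.e (nat_lit 516118) (nat_lit 1) (.e (nat_lit 164183) (nat_lit 154) .nil)))))) (.g (nat_lit 0) .nil .nil)))) (.nd (nat_lit 5) 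
(.lf (nat_lit 155027) (.g (nat_lit 2289) (.e (nat_lit 57409) (nat_lit 12) (.e (nat_lit 336454) (nat_lit 34) (.e (nat_lit 483385) (nat_lit 23) (.e (nat_lit 336019) (nat_lit 3) (.e (nat_lit 98334) (nat_lit 18) (.e (nat_lit 164180) (nat_lit 154) .nil)))))) (.g (nat_lit 4) .nil .nil))) 
(.lf (nat_lit 155059) (.g (nat_lit 745) (.e (nat_lit 57409) (nat_lit 12) (.e (nat_lit 336454) (nat_lit 34) (.e (nat_lit 483404) (nat_lit 26) .nil))) .nil)))) (.nd (nat_lit 4) (.nd (nat_lit 5) 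
(.lf (nat_lit 155019) (.g (nat_lit 2769) (.e (nat_lit 57409) (nat_lit 12) (.e (nat_lit 336454) (nat_lit 34) (.e (nat_lit 483384) (nat_lit 23) (.e (nat_lit 336019) (nat_lit 3) (.e (nat_lit 98335) (nat_lit 18) (.e (nat_lit 164183) (nat_lit 154) .nil)))))) (.g (nat_lit 0) .nil .nil))) 
(.lf (nat_lit 155051) (.g (nat_lit 2218) (.e (nat_lit 57409) (nat_lit 12) (.e (nat_lit 336454) (nat_lit 34) (.e (nat_lit 483401) (nat_lit 25) (.e (nat_lit 368676) (nat_lit 21) (.e (nat_lit 516120) (nat_lit 1) (.e (nat_lit 164183) (nat_lit 154) .nil)))))) (.g (nat_lit 4) .nil .nil)))) (.nd (nat_lit 5) 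
(.lf (nat_lit 155035) (.g (nat_lit 2901) (.e (nat_lit 57409) (nat_lit 12) (.e (nat_lit 336454) (nat_lit 34) (.e (nat_lit 483385) (nat_lit 23) (.e (nat_lit 336326) (nat_lit 18) (.e (nat_lit 204830) (nat_lit 18) (.e (nat_lit 57852) (nat_lit 252) .nil)))))) (.g (nat_lit 5) .nil .nil))) 
(.lf (nat_lit 155067) (.g (nat_lit 2485) (.e (nat_lit 57409) (nat_lit 12) (.e (nat_lit 336454) (nat_lit 34) (.e (nat_lit 483405) (nat_lit 26) (.e (nat_lit 385066) (nat_lit 26) (.e (nat_lit 532503) (nat_lit 1) (.e (nat_lit 57847) (nat_lit 252) .nil)))))) (.g (nat_lit 5) .nil .nil)))))) (.nd (nat_lit 3) (.nd (nat_lit 4) (.nd (nat_lit 5) 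
(.lf (nat_lit 155015) (.g (nat_lit 2746) (.e (nat_lit 57409) (nat_lit 12) (.e (nat_lit 336454) (nat_lit 34) (.e (nat_lit 483383) (nat_lit 23) (.e (nat_lit 336326) (nat_lit 18) (.e (nat_lit 204831) (nat_lit 18) (.e (nat_lit 57847) (nat_lit 252) .nil)))))) (.g (nat_lit 0) .nil .nil))) 
(.lf (nat_lit 155047) (.g (nat_lit 2533) (.e (nat_lit 57409) (nat_lit 12) (.e (nat_lit 336454) (nat_lit 34) (.e (nat_lit 483399) (nat_lit 25) (.e (nat_lit 368676) (nat_lit 21) (.e (nat_lit 516118) (nat_lit 1) (.e (nat_lit 164183) (nat_lit 154) .nil)))))) (.g (nat_lit 0) .nil .nil)))) (.nd (nat_lit 5) 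
(.lf (nat_lit 155031) (.g (nat_lit 2361) (.e (nat_lit 57409) (nat_lit 12) (.e (nat_lit 336454) (nat_lit 34) (.e (nat_lit 483385) (nat_lit 23) (.e (nat_lit 336324) (nat_lit 18) (.e (nat_lit 204829) (nat_lit 18) (.e (nat_lit 57847) (nat_lit 252) .nil)))))) (.g (nat_lit 4) .nil .nil))) 
(.lf (nat_lit 155063) (.g (nat_lit 2827) (.e (nat_lit 57409) (nat_lit 12) (.e (nat_lit 336454) (nat_lit 34) (.e (nat_lit 483404) (nat_lit 26) (.e (nat_lit 385068) (nat_lit 26) (.e (nat_lit 532501) (nat_lit 1) (.e (nat_lit 57854) (nat_lit 252) .nil)))))) (.g (nat_lit 5) .nil .nil))))) (.nd (nat_lit 4) (.nd (nat_lit 5) 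
(.lf (nat_lit 155023) (.g (nat_lit 2855) (.e (nat_lit 57409) (nat_lit 12) (.e (nat_lit 336454) (nat_lit 34) (.e (nat_lit 483384) (nat_lit 23) (.e (nat_lit 336326) (nat_lit 18) (.e (nat_lit 204830) (nat_lit 18) (.e (nat_lit 57854) (nat_lit 252) .nil)))))) (.g (nat_lit 6) .nil .nil))) 
(.lf (nat_lit 155055) (.g (nat_lit 3235) (.e (nat_lit 57409) (nat_lit 12) (.e (nat_lit 336454) (nat_lit 34) (.e (nat_lit 483403) (nat_lit 26) (.e (nat_lit 385066) (nat_lit 26) (.e (nat_lit 532503) (nat_lit 1) (.e (nat_lit 57846) (nat_lit 252) .nil)))))) (.g (nat_lit 6) .nil .nil)))) (.nd (nat_lit 5) 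
(.lf (nat_lit 155039) (.g (nat_lit 2975) (.e (nat_lit 57409) (nat_lit 12) (.e (nat_lit 336454) (nat_lit 34) (.e (nat_lit 483394) (nat_lit 24) (.e (nat_lit 344117) (nat_lit 21) (.e (nat_lit 516115) (nat_lit 1) (.e (nat_lit 164183) (nat_lit 154) .nil)))))) (.g (nat_lit 6) .nil .nil))) 
(.lf (nat_lit 155071) (.g (nat_lit 3194) (.e (nat_lit 57409) (nat_lit 12) (.e (nat_lit 336454) (nat_lit 34) (.e (nat_lit 483406) (nat_lit 26) (.e (nat_lit 385065) (nat_lit 26) (.e (nat_lit 532499) (nat_lit 1) (.e (nat_lit 57847) (nat_lit 252) .nil)))))) (.g (nat_lit 5) .nil .nil)))))))))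

noncomputable def tv2070 : DT := (.nd (nat_lit 0) (.nd (nat_lit 1) (.nd (nat_lit 2) (.nd (nat_lit 3) (.nd (nat_lit 4) (.nd (nat_lit 5) 
(.lf (nat_lit 155072) (.g (nat_lit 3875) (.e (nat_lit 57409) (nat_lit 12) (.e (nat_lit 336454) (nat_lit 34) (.e (nat_lit 483406) (nat_lit 26) (.e (nat_lit 385066) (nat_lit 26) (.e (nat_lit 532499) (nat_lit 1) (.e (nat_lit 57847) (nat_lit 252) .nil)))))) (.g (nat_lit 0) .nil .nil))) 
(.lf (nat_lit 155104) (.g (nat_lit 3088) (.e (nat_lit 57409) (nat_lit 12) (.e (nat_lit 336454) (nat_lit 34) (.e (nat_lit 483408) (nat_lit 26) (.e (nat_lit 385068) (nat_lit 26) (.e (nat_lit 532499) (nat_lit 1) (.e (nat_lit 57854) (nat_lit 252) .nil)))))) (.g (nat_lit 5) .nil .nil)))) (.nd (nat_lit 5) 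
(.lf (nat_lit 155088) (.g (nat_lit 2723) (.e (nat_lit 57409) (nat_lit 12) (.e (nat_lit 336454) (nat_lit 34) (.e (nat_lit 483407) (nat_lit 26) (.e (nat_lit 385068) (nat_lit 26) (.e (nat_lit 532503) (nat_lit 1) (.e (nat_lit 57847) (nat_lit 252) .nil)))))) (.g (nat_lit 5) .nil .nil))) 
(.lf (nat_lit 155120) (.g (nat_lit 1667) (.e (nat_lit 57409) (nat_lit 12) (.e (nat_lit 336456) (nat_lit 34) (.e (nat_lit 483346) (nat_lit 17) (.e (nat_lit 6506) (nat_lit 344) .nil)))) .nil)))) (.nd (nat_lit 4) (.nd (nat_lit 5) 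
(.lf (nat_lit 155080) (.g (nat_lit 3110) (.e (nat_lit 57409) (nat_lit 12) (.e (nat_lit 336454) (nat_lit 34) (.e (nat_lit 483407) (nat_lit 26) (.e (nat_lit 385066) (nat_lit 26) (.e (nat_lit 532499) (nat_lit 1) (.e (nat_lit 57847) (nat_lit 252) .nil)))))) (.g (nat_lit 5) .nil .nil))) 
(.lf (nat_lit 155112) (.g (nat_lit 2323) (.e (nat_lit 57409) (nat_lit 12) (.e (nat_lit 336455) (nat_lit 34) (.e (nat_lit 483403) (nat_lit 26) (.e (nat_lit 385068) (nat_lit 26) (.e (nat_lit 532504) (nat_lit 1) (.e (nat_lit 57852) (nat_lit 252) .nil)))))) (.g (nat_lit 4) .nil .nil)))) (.nd (nat_lit 5) 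
(.lf (nat_lit 155096) (.g (nat_lit 3817) (.e (nat_lit 57409) (nat_lit 12) (.e (nat_lit 336454) (nat_lit 34) (.e (nat_lit 483408) (nat_lit 26) (.e (nat_lit 385067) (nat_lit 26) (.e (nat_lit 532499) (nat_lit 1) (.e (nat_lit 57854) (nat_lit 252) .nil)))))) (.g (nat_lit 6) .nil .nil))) 
(.lf (nat_lit 155128) (.g (nat_lit 3433) (.e (nat_lit 57409) (nat_lit 12) (.e (nat_lit 336456) (nat_lit 34) (.e (nat_lit 483379) (nat_lit 23) (.e (nat_lit 336324) (nat_lit 18) (.e (nat_lit 204831) (nat_lit 18) (.e (nat_lit 57852) (nat_lit 252) .nil)))))) (.g (nat_lit 5) .nil .nil)))))) (.nd (nat_lit 3) (.nd (nat_lit 4) (.nd (nat_lit 5) 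
(.lf (nat_lit 155076) (.g (nat_lit 2252) (.e (nat_lit 57409) (nat_lit 12) (.e (nat_lit 336454) (nat_lit 34) (.e (nat_lit 483406) (nat_lit 26) (.e (nat_lit 385066) (nat_lit 26) (.e (nat_lit 532503) (nat_lit 1) (.e (nat_lit 57854) (nat_lit 252) .nil)))))) (.g (nat_lit 4) .nil .nil))) 
(.lf (nat_lit 155108) (.g (nat_lit 3702) (.e (nat_lit 57409) (nat_lit 12) (.e (nat_lit 336454) (nat_lit 34) (.e (nat_lit 483408) (nat_lit 26) (.e (nat_lit 385068) (nat_lit 26) (.e (nat_lit 532504) (nat_lit 1) (.e (nat_lit 57854) (nat_lit 252) .nil)))))) (.g (nat_lit 0) .nil .nil)))) (.nd (nat_lit 5) 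
(.lf (nat_lit 155092) (.g (nat_lit 2416) (.e (nat_lit 57409) (nat_lit 12) (.e (nat_lit 336454) (nat_lit 34) (.e (nat_lit 483408) (nat_lit 26) (.e (nat_lit 385066) (nat_lit 26) (.e (nat_lit 532499) (nat_lit 1) (.e (nat_lit 57847) (nat_lit 252) .nil)))))) (.g (nat_lit 4) .nil .nil))) 
(.lf (nat_lit 155124) (.g (nat_lit 2694) (.e (nat_lit 57409) (nat_lit 12) (.e (nat_lit 336456) (nat_lit 34) (.e (nat_lit 483378) (nat_lit 23) (.e (nat_lit 336326) (nat_lit 18) (.e (nat_lit 204831) (nat_lit 18) (.e (nat_lit 57854) (nat_lit 252) .nil)))))) (.g (nat_lit 6) .nil .nil))))) (.nd (nat_lit 4) (.nd (nat_lit 5) 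
(.lf (nat_lit 155084) (.g (nat_lit 2801) (.e (nat_lit 57409) (nat_lit 12) (.e (nat_lit 336454) (nat_lit 34) (.e (nat_lit 483407) (nat_lit 26) (.e (nat_lit 385066) (nat_lit 26) (.e (nat_lit 532502) (nat_lit 1) (.e (nat_lit 57854) (nat_lit 252) .nil)))))) (.g (nat_lit 6) .nil .nil))) 
(.lf (nat_lit 155116) (.g (nat_lit 2932) (.e (nat_lit 57409) (nat_lit 12) (.e (nat_lit 336455) (nat_lit 34) (.e (nat_lit 483406) (nat_lit 26) (.e (nat_lit 385066) (nat_lit 26) (.e (nat_lit 532502) (nat_lit 1) (.e (nat_lit 57854) (nat_lit 252) .nil)))))) (.g (nat_lit 4) .nil .nil)))) (.nd (nat_lit 5) 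
(.lf (nat_lit 155100) (.g (nat_lit 3251) (.e (nat_lit 57409) (nat_lit 12) (.e (nat_lit 336454) (nat_lit 34) (.e (nat_lit 483408) (nat_lit 26) (.e (nat_lit 385067) (nat_lit 26) (.e (nat_lit 532503) (nat_lit 1) (.e (nat_lit 57854) (nat_lit 252) .nil)))))) (.g (nat_lit 6) .nil .nil))) 
(.lf (nat_lit 155132) (.g (nat_lit 1983) (.e (nat_lit 57409) (nat_lit 12) (.e (nat_lit 336456) (nat_lit 34) (.e (nat_lit 483380) (nat_lit 23) (.e (nat_lit 336316) (nat_lit 17) (.e (nat_lit 196626) (nat_lit 9) .nil))))) .nil)))))) (.nd (nat_lit 2) (.nd (nat_lit 3) (.nd (nat_lit 4) (.nd (nat_lit 5) 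
(.lf (nat_lit 155074) (.g (nat_lit 3534) (.e (nat_lit 57409) (nat_lit 12) (.e (nat_lit 336454) (nat_lit 34) (.e (nat_lit 483406) (nat_lit 26) (.e (nat_lit 385066) (nat_lit 26) (.e (nat_lit 532503) (nat_lit 1) (.e (nat_lit 57846) (nat_lit 252) .nil)))))) (.g (nat_lit 6) .nil .nil))) 
(.lf (nat_lit 155106) (.g (nat_lit 3444) (.e (nat_lit 57409) (nat_lit 12) (.e (nat_lit 336454) (nat_lit 34) (.e (nat_lit 483408) (nat_lit 26) (.e (nat_lit 385068) (nat_lit 26) (.e (nat_lit 532503) (nat_lit 1) (.e (nat_lit 57846) (nat_lit 252) .nil)))))) (.g (nat_lit 4) .nil .nil)))) (.nd (nat_lit 5) 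
(.lf (nat_lit 155090) (.g (nat_lit 2704) (.e (nat_lit 57409) (nat_lit 12) (.e (nat_lit 336454) (nat_lit 34) (.e (nat_lit 483408) (nat_lit 26) (.e (nat_lit 385065) (nat_lit 26) (.e (nat_lit 532499) (nat_lit 1) (.e (nat_lit 57854) (nat_lit 252) .nil)))))) (.g (nat_lit 5) .nil .nil))) 
(.lf (nat_lit 155122) (.g (nat_lit 2943) (.e (nat_lit 57409) (nat_lit 12) (.e (nat_lit 336456) (nat_lit 34) (.e (nat_lit 483372) (nat_lit 21) (.e (nat_lit 319519) (nat_lit 12) .nil)))) .nil)))) (.nd (nat_lit 4) (.nd (nat_lit 5) 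
(.lf (nat_lit 155082) (.g (nat_lit 2914) (.e (nat_lit 57409) (nat_lit 12) (.e (nat_lit 336454) (nat_lit 34) (.e (nat_lit 483407) (nat_lit 26) (.e (nat_lit 385066) (nat_lit 26) (.e (nat_lit 532501) (nat_lit 1) (.e (nat_lit 57854) (nat_lit 252) .nil)))))) (.g (nat_lit 6) .nil .nil))) 
(.lf (nat_lit 155114) (.g (nat_lit 2442) (.e (nat_lit 57409) (nat_lit 12) (.e (nat_lit 336455) (nat_lit 34) (.e (nat_lit 483405) (nat_lit 26) (.e (nat_lit 385068) (nat_lit 26) (.e (nat_lit 532501) (nat_lit 1) (.e (nat_lit 57854) (nat_lit 252) .nil)))))) (.g (nat_lit 5) .nil .nil)))) (.nd (nat_lit 5) 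
(.lf (nat_lit 155098) (.g (nat_lit 1530) (.e (nat_lit 57409) (nat_lit 12) (.e (nat_lit 336454) (nat_lit 34) (.e (nat_lit 483408) (nat_lit 26) (.e (nat_lit 385067) (nat_lit 26) (.e (nat_lit 532502) (nat_lit 1) (.e (nat_lit 57854) (nat_lit 252) .nil)))))) (.g (nat_lit 4) .nil .nil))) 
(.lf (nat_lit 155130) (.g (nat_lit 2945) (.e (nat_lit 57409) (nat_lit 12) (.e (nat_lit 336456) (nat_lit 34) (.e (nat_lit 483379) (nat_lit 23) (.e (nat_lit 336326) (nat_lit 18) (.e (nat_lit 204830) (nat_lit 18) (.e (nat_lit 57854) (nat_lit 252) .nil)))))) (.g (nat_lit 6) .nil .nil)))))) (.nd (nat_lit 3) (.nd (nat_lit 4) (.nd (nat_lit 5) 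
(.lf (nat_lit 155078) (.g (nat_lit 3418) (.e (nat_lit 57409) (nat_lit 12) (.e (nat_lit 336454) (nat_lit 34) (.e (nat_lit 483406) (nat_lit 26) (.e (nat_lit 385068) (nat_lit 26) (.e (nat_lit 532503) (nat_lit 1) (.e (nat_lit 57847) (nat_lit 252) .nil)))))) (.g (nat_lit 0) .nil .nil))) 
(.lf (nat_lit 155110) (.g (nat_lit 3407) (.e (nat_lit 57409) (nat_lit 12) (.e (nat_lit 336455) (nat_lit 34) (.e (nat_lit 483382) (nat_lit 23) (.e (nat_lit 336324) (nat_lit 18) (.e (nat_lit 204831) (nat_lit 18) (.e (nat_lit 57852) (nat_lit 252) .nil)))))) (.g (nat_lit 0) .nil .nil)))) (.nd (nat_lit 5) 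
(.lf (nat_lit 155094) (.g (nat_lit 3287) (.e (nat_lit 57409) (nat_lit 12) (.e (nat_lit 336454) (nat_lit 34) (.e (nat_lit 483408) (nat_lit 26) (.e (nat_lit 385066) (nat_lit 26) (.e (nat_lit 532503) (nat_lit 1) (.e (nat_lit 57846) (nat_lit 252) .nil)))))) (.g (nat_lit 4) .nil .nil))) 
(.lf (nat_lit 155126) (.g (nat_lit 2195) (.e (nat_lit 57409) (nat_lit 12) (.e (nat_lit 336456) (nat_lit 34) (.e (nat_lit 483379) (nat_lit 23) (.e (nat_lit 336324) (nat_lit 18) (.e (nat_lit 204830) (nat_lit 18) (.e (nat_lit 57852) (nat_lit 252) .nil)))))) (.g (nat_lit 4) .nil .nil))))) (.nd (nat_lit 4) (.nd (nat_lit 5) 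
(.lf (nat_lit 155086) (.g (nat_lit 3112) (.e (nat_lit 57409) (nat_lit 12) (.e (nat_lit 336454) (nat_lit 34) (.e (nat_lit 483407) (nat_lit 26) (.e (nat_lit 385066) (nat_lit 26) (.e (nat_lit 532504) (nat_lit 1) (.e (nat_lit 57854) (nat_lit 252) .nil)))))) (.g (nat_lit 6) .nil .nil))) 
(.lf (nat_lit 155118) (.g (nat_lit 2835) (.e (nat_lit 57409) (nat_lit 12) (.e (nat_lit 336455) (nat_lit 34) (.e (nat_lit 483406) (nat_lit 26) (.e (nat_lit 385068) (nat_lit 26) (.e (nat_lit 532501) (nat_lit 1) (.e (nat_lit 57854) (nat_lit 252) .nil)))))) (.g (nat_lit 5) .nil .nil)))) (.nd (nat_lit 5) 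
(.lf (nat_lit 155102) (.g (nat_lit 2890) (.e (nat_lit 57409) (nat_lit 12) (.e (nat_lit 336454) (nat_lit 34) (.e (nat_lit 483408) (nat_lit 26) (.e (nat_lit 385067) (nat_lit 26) (.e (nat_lit 532504) (nat_lit 1) (.e (nat_lit 57852) (nat_lit 252) .nil)))))) (.g (nat_lit 5) .nil .nil))) 
(.lf (nat_lit 155134) (.g (nat_lit 2889) (.e (nat_lit 57409) (nat_lit 12) (.e (nat_lit 336456) (nat_lit 34) (.e (nat_lit 483380) (nat_lit 23) (.e (nat_lit 336324) (nat_lit 18) (.e (nat_lit 204830) (nat_lit 18) (.e (nat_lit 57852) (nat_lit 252) .nil)))))) (.g (nat_lit 5) .nil .nil)))))))) (.nd (nat_lit 1) (.nd (nat_lit 2) (.nd (nat_lit 3) (.nd (nat_lit 4) (.nd (nat_lit 5) 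
(.lf (nat_lit 155073) (.g (nat_lit 3092) (.e (nat_lit 57409) (nat_lit 12) (.e (nat_lit 336454) (nat_lit 34) (.e (nat_lit 483406) (nat_lit 26) (.e (nat_lit 385066) (nat_lit 26) (.e (nat_lit 532502) (nat_lit 1) (.e (nat_lit 57847) (nat_lit 252) .nil)))))) (.g (nat_lit 0) .nil .nil))) 
(.lf (nat_lit 155105) (.g (nat_lit 2268) (.e (nat_lit 57409) (nat_lit 12) (.e (nat_lit 336454) (nat_lit 34) (.e (nat_lit 483408) (nat_lit 26) (.e (nat_lit 385068) (nat_lit 26) (.e (nat_lit 532500) (nat_lit 1) (.e (nat_lit 57854) (nat_lit 252) .nil)))))) (.g (nat_lit 4) .nil .nil)))) (.nd (nat_lit 5) 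
(.lf (nat_lit 155089) (.g (nat_lit 1265) (.e (nat_lit 57409) (nat_lit 12) (.e (nat_lit 336454) (nat_lit 34) (.e (nat_lit 483408) (nat_lit 26) (.e (nat_lit 385064) (nat_lit 26) .nil)))) .nil)) 
(.lf (nat_lit 155121) (.g (nat_lit 1332) (.e (nat_lit 57409) (nat_lit 12) (.e (nat_lit 336456) (nat_lit 34) (.e (nat_lit 483372) (nat_lit 21) .nil))) .nil)))) (.nd (nat_lit 4) (.nd (nat_lit 5) 
(.lf (nat_lit 155081) (.g (nat_lit 3173) (.e (nat_lit 57409) (nat_lit 12) (.e (nat_lit 336454) (nat_lit 34) (.e (nat_lit 483407) (nat_lit 26) (.e (nat_lit 385066) (nat_lit 26) (.e (nat_lit 532499) (nat_lit 1) (.e (nat_lit 57854) (nat_lit 252) .nil)))))) (.g (nat_lit 6) .nil .nil))) 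
(.lf (nat_lit 155113) (.g (nat_lit 1553) (.e (nat_lit 57409) (nat_lit 12) (.e (nat_lit 336455) (nat_lit 34) (.e (nat_lit 483405) (nat_lit 26) (.e (nat_lit 385066) (nat_lit 26) (.e (nat_lit 532504) (nat_lit 1) (.e (nat_lit 57854) (nat_lit 252) .nil)))))) (.g (nat_lit 4) .nil .nil)))) (.nd (nat_lit 5) 
(.lf (nat_lit 155097) (.g (nat_lit 2990) (.e (nat_lit 57409) (nat_lit 12) (.e (nat_lit 336454) (nat_lit 34) (.e (nat_lit 483408) (nat_lit 26) (.e (nat_lit 385067) (nat_lit 26) (.e (nat_lit 532501) (nat_lit 1) (.e (nat_lit 57851) (nat_lit 252) .nil)))))) (.g (nat_lit 6) .nil .nil))) 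
(.lf (nat_lit 155129) (.g (nat_lit 3493) (.e (nat_lit 57409) (nat_lit 12) (.e (nat_lit 336456) (nat_lit 34) (.e (nat_lit 483379) (nat_lit 23) (.e (nat_lit 336324) (nat_lit 18) (.e (nat_lit 204831) (nat_lit 18) (.e (nat_lit 57854) (nat_lit 252) .nil)))))) (.g (nat_lit 6) .nil .nil)))))) (.nd (nat_lit 3) (.nd (nat_lit 4) (.nd (nat_lit 5) 
(.lf (nat_lit 155077) (.g (nat_lit 3861) (.e (nat_lit 57409) (nat_lit 12) (.e (nat_lit 336454) (nat_lit 34) (.e (nat_lit 483406) (nat_lit 26) (.e (nat_lit 385068) (nat_lit 26) (.e (nat_lit 532499) (nat_lit 1) (.e (nat_lit 57847) (nat_lit 252) .nil)))))) (.g (nat_lit 0) .nil .nil))) 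
(.lf (nat_lit 155109) (.g (nat_lit 3418) (.e (nat_lit 57409) (nat_lit 12) (.e (nat_lit 336455) (nat_lit 34) (.e (nat_lit 483380) (nat_lit 23) (.e (nat_lit 336326) (nat_lit 18) (.e (nat_lit 204831) (nat_lit 18) (.e (nat_lit 57852) (nat_lit 252) .nil)))))) (.g (nat_lit 6) .nil .nil)))) (.nd (nat_lit 5) 
(.lf (nat_lit 155093) (.g (nat_lit 3036) (.e (nat_lit 57409) (nat_lit 12) (.e (nat_lit 336454) (nat_lit 34) (.e (nat_lit 483408) (nat_lit 26) (.e (nat_lit 385066) (nat_lit 26) (.e (nat_lit 532501) (nat_lit 1) (.e (nat_lit 57854) (nat_lit 252) .nil)))))) (.g (nat_lit 0) .nil .nil))) 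
(.lf (nat_lit 155125) (.g (nat_lit 2807) (.e (nat_lit 57409) (nat_lit 12) (.e (nat_lit 336456) (nat_lit 34) (.e (nat_lit 483379) (nat_lit 23) (.e (nat_lit 336324) (nat_lit 18) (.e (nat_lit 204829) (nat_lit 18) (.e (nat_lit 57854) (nat_lit 252) .nil)))))) (.g (nat_lit 6) .nil .nil))))) (.nd (nat_lit 4) (.nd (nat_lit 5) 
(.lf (nat_lit 155085) (.g (nat_lit 2626) (.e (nat_lit 57409) (nat_lit 12) (.e (nat_lit 336454) (nat_lit 34) (.e (nat_lit 483407) (nat_lit 26) (.e (nat_lit 385066) (nat_lit 26) (.e (nat_lit 532503) (nat_lit 1) (.e (nat_lit 57847) (nat_lit 252) .nil)))))) (.g (nat_lit 5) .nil .nil))) 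
(.lf (nat_lit 155117) (.g (nat_lit 3436) (.e (nat_lit 57409) (nat_lit 12) (.e (nat_lit 336455) (nat_lit 34) (.e (nat_lit 483406) (nat_lit 26) (.e (nat_lit 385066) (nat_lit 26) (.e (nat_lit 532504) (nat_lit 1) (.e (nat_lit 57852) (nat_lit 252) .nil)))))) (.g (nat_lit 5) .nil .nil)))) (.nd (nat_lit 5) 
(.lf (nat_lit 155101) (.g (nat_lit 3030) (.e (nat_lit 57409) (nat_lit 12) (.e (nat_lit 336454) (nat_lit 34) (.e (nat_lit 483408) (nat_lit 26) (.e (nat_lit 385067) (nat_lit 26) (.e (nat_lit 532504) (nat_lit 1) (.e (nat_lit 57851) (nat_lit 252) .nil)))))) (.g (nat_lit 6) .nil .nil))) 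
(.lf (nat_lit 155133) (.g (nat_lit 3186) (.e (nat_lit 57409) (nat_lit 12) (.e (nat_lit 336456) (nat_lit 34) (.e (nat_lit 483380) (nat_lit 23) (.e (nat_lit 336324) (nat_lit 18) (.e (nat_lit 204829) (nat_lit 18) (.e (nat_lit 57854) (nat_lit 252) .nil)))))) (.g (nat_lit 0) .nil .nil))))))) (.nd (nat_lit 2) (.nd (nat_lit 3) (.nd (nat_lit 4) (.nd (nat_lit 5) 
(.lf (nat_lit 155075) (.g (nat_lit 3307) (.e (nat_lit 57409) (nat_lit 12) (.e (nat_lit 336454) (nat_lit 34) (.e (nat_lit 483406) (nat_lit 26) (.e (nat_lit 385066) (nat_lit 26) (.e (nat_lit 532503) (nat_lit 1) (.e (nat_lit 57847) (nat_lit 252) .nil)))))) (.g (nat_lit 0) .nil .nil))) 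
(.lf (nat_lit 155107) (.g (nat_lit 2343) (.e (nat_lit 57409) (nat_lit 12) (.e (nat_lit 336454) (nat_lit 34) (.e (nat_lit 483408) (nat_lit 26) (.e (nat_lit 385068) (nat_lit 26) (.e (nat_lit 532503) (nat_lit 1) (.e (nat_lit 57847) (nat_lit 252) .nil)))))) (.g (nat_lit 4) .nil .nil)))) (.nd (nat_lit 5) 
(.lf (nat_lit 155091) (.g (nat_lit 1883) (.e (nat_lit 57409) (nat_lit 12) (.e (nat_lit 336454) (nat_lit 34) (.e (nat_lit 483408) (nat_lit 26) (.e (nat_lit 385065) (nat_lit 26) (.e (nat_lit 532502) (nat_lit 1) (.e (nat_lit 57854) (nat_lit 252) .nil)))))) (.g (nat_lit 4) .nil .nil))) 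
(.lf (nat_lit 155123) (.g (nat_lit 2868) (.e (nat_lit 57409) (nat_lit 12) (.e (nat_lit 336456) (nat_lit 34) (.e (nat_lit 483378) (nat_lit 23) (.e (nat_lit 336326) (nat_lit 18) (.e (nat_lit 204830) (nat_lit 18) (.e (nat_lit 57854) (nat_lit 252) .nil)))))) (.g (nat_lit 6) .nil .nil))))) (.nd (nat_lit 4) (.nd (nat_lit 5) 
(.lf (nat_lit 155083) (.g (nat_lit 2132) (.e (nat_lit 57409) (nat_lit 12) (.e (nat_lit 336454) (nat_lit 34) (.e (nat_lit 483407) (nat_lit 26) (.e (nat_lit 385066) (nat_lit 26) (.e (nat_lit 532502) (nat_lit 1) (.e (nat_lit 57847) (nat_lit 252) .nil)))))) (.g (nat_lit 4) .nil .nil))) 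
(.lf (nat_lit 155115) (.g (nat_lit 3425) (.e (nat_lit 57409) (nat_lit 12) (.e (nat_lit 336455) (nat_lit 34) (.e (nat_lit 483406) (nat_lit 26) (.e (nat_lit 385066) (nat_lit 26) (.e (nat_lit 532501) (nat_lit 1) (.e (nat_lit 57852) (nat_lit 252) .nil)))))) (.g (nat_lit 5) .nil .nil)))) (.nd (nat_lit 5) 
(.lf (nat_lit 155099) (.g (nat_lit 2364) (.e (nat_lit 57409) (nat_lit 12) (.e (nat_lit 336454) (nat_lit 34) (.e (nat_lit 483408) (nat_lit 26) (.e (nat_lit 385067) (nat_lit 26) (.e (nat_lit 532503) (nat_lit 1) (.e (nat_lit 57847) (nat_lit 252) .nil)))))) (.g (nat_lit 4) .nil .nil))) 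
(.lf (nat_lit 155131) (.g (nat_lit 2869) (.e (nat_lit 57409) (nat_lit 12) (.e (nat_lit 336456) (nat_lit 34) (.e (nat_lit 483379) (nat_lit 23) (.e (nat_lit 336326) (nat_lit 18) (.e (nat_lit 204831) (nat_lit 18) (.e (nat_lit 57854) (nat_lit 252) .nil)))))) (.g (nat_lit 6) .nil .nil)))))) (.nd (nat_lit 3) (.nd (nat_lit 4) (.nd (nat_lit 5) 
(.lf (nat_lit 155079) (.g (nat_lit 2868) (.e (nat_lit 57409) (nat_lit 12) (.e (nat_lit 336454) (nat_lit 34) (.e (nat_lit 483406) (nat_lit 26) (.e (nat_lit 385068) (nat_lit 26) (.e (nat_lit 532504) (nat_lit 1) (.e (nat_lit 57852) (nat_lit 252) .nil)))))) (.g (nat_lit 5) .nil .nil))) 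
(.lf (nat_lit 155111) (.g (nat_lit 1582) (.e (nat_lit 57409) (nat_lit 12) (.e (nat_lit 336455) (nat_lit 34) (.e (nat_lit 483403) (nat_lit 26) (.e (nat_lit 385066) (nat_lit 26) (.e (nat_lit 532501) (nat_lit 1) .nil))))) .nil))) (.nd (nat_lit 5) 
(.lf (nat_lit 155095) (.g (nat_lit 4035) (.e (nat_lit 57409) (nat_lit 12) (.e (nat_lit 336454) (nat_lit 34) (.e (nat_lit 483408) (nat_lit 26) (.e (nat_lit 385067) (nat_lit 26) (.e (nat_lit 532499) (nat_lit 1) (.e (nat_lit 57847) (nat_lit 252) .nil)))))) (.g (nat_lit 0) .nil .nil))) 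
(.lf (nat_lit 155127) (.g (nat_lit 2956) (.e (nat_lit 57409) (nat_lit 12) (.e (nat_lit 336456) (nat_lit 34) (.e (nat_lit 483379) (nat_lit 23) (.e (nat_lit 336324) (nat_lit 18) (.e (nat_lit 204830) (nat_lit 18) (.e (nat_lit 57854) (nat_lit 252) .nil)))))) (.g (nat_lit 6) .nil .nil))))) (.nd (nat_lit 4) (.nd (nat_lit 5) 
(.lf (nat_lit 155087) (.g (nat_lit 3181) (.e (nat_lit 57409) (nat_lit 12) (.e (nat_lit 336454) (nat_lit 34) (.e (nat_lit 483407) (nat_lit 26) (.e (nat_lit 385068) (nat_lit 26) (.e (nat_lit 532499) (nat_lit 1) (.e (nat_lit 57847) (nat_lit 252) .nil)))))) (.g (nat_lit 5) .nil .nil))) 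
(.lf (nat_lit 155119) (.g (nat_lit 2966) (.e (nat_lit 57409) (nat_lit 12) (.e (nat_lit 336455) (nat_lit 34) (.e (nat_lit 483406) (nat_lit 26) (.e (nat_lit 385068) (nat_lit 26) (.e (nat_lit 532504) (nat_lit 1) (.e (nat_lit 57854) (nat_lit 252) .nil)))))) (.g (nat_lit 5) .nil .nil)))) (.nd (nat_lit 5) 
(.lf (nat_lit 155103) (.g (nat_lit 2784) (.e (nat_lit 57409) (nat_lit 12) (.e (nat_lit 336454) (nat_lit 34) (.e (nat_lit 483408) (nat_lit 26) (.e (nat_lit 385068) (nat_lit 26) (.e (nat_lit 532499) (nat_lit 1) (.e (nat_lit 57847) (nat_lit 252) .nil)))))) (.g (nat_lit 4) .nil .nil))) 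
(.lf (nat_lit 155135) (.g (nat_lit 3351) (.e (nat_lit 57409) (nat_lit 12) (.e (nat_lit 336456) (nat_lit 34) (.e (nat_lit 483380) (nat_lit 23) (.e (nat_lit 336324) (nat_lit 18) (.e (nat_lit 204830) (nat_lit 18) (.e (nat_lit 57854) (nat_lit 252) .nil)))))) (.g (nat_lit 0) .nil .nil)))))))))

noncomputable def tv2071 : DT := (.nd (nat_lit 0) (.nd (nat_lit 1) (.nd (nat_lit 2) (.nd (nat_lit 3) (.nd (nat_lit 4) (.nd (nat_lit 5) 
(.lf (nat_lit 155136) (.g (nat_lit 2962) (.e (nat_lit 57409) (nat_lit 12) (.e (nat_lit 336456) (nat_lit 34) (.e (nat_lit 483380) (nat_lit 23) (.e (nat_lit 336324) (nat_lit 18) (.e (nat_lit 204831) (nat_lit 18) (.e (nat_lit 57852) (nat_lit 252) .nil)))))) (.g (nat_lit 5) .nil .nil))) 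
(.lf (nat_lit 155168) (.g (nat_lit 3577) (.e (nat_lit 57409) (nat_lit 12) (.e (nat_lit 336456) (nat_lit 34) (.e (nat_lit 483393) (nat_lit 23) (.e (nat_lit 336021) (nat_lit 3) (.e (nat_lit 98333) (nat_lit 18) (.e (nat_lit 164182) (nat_lit 154) .nil)))))) (.g (nat_lit 0) .nil .nil)))) (.nd (nat_lit 5) 
(.lf (nat_lit 155152) (.g (nat_lit 2511) (.e (nat_lit 57409) (nat_lit 12) (.e (nat_lit 336456) (nat_lit 34) (.e (nat_lit 483383) (nat_lit 23) (.e (nat_lit 336019) (nat_lit 3) (.e (nat_lit 98335) (nat_lit 18) (.e (nat_lit 164176) (nat_lit 154) .nil)))))) (.g (nat_lit 5) .nil .nil))) 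
(.lf (nat_lit 155184) (.g (nat_lit 2718) (.e (nat_lit 57409) (nat_lit 12) (.e (nat_lit 336456) (nat_lit 34) (.e (nat_lit 483396) (nat_lit 24) (.e (nat_lit 344119) (nat_lit 21) (.e (nat_lit 516120) (nat_lit 1) (.e (nat_lit 164183) (nat_lit 154) .nil)))))) (.g (nat_lit 5) .nil .nil))))) (.nd (nat_lit 4) (.nd (nat_lit 5) 
(.lf (nat_lit 155144) (.g (nat_lit 2960) (.e (nat_lit 57409) (nat_lit 12) (.e (nat_lit 336456) (nat_lit 34) (.e (nat_lit 483382) (nat_lit 23) (.e (nat_lit 336324) (nat_lit 18) (.e (nat_lit 204830) (nat_lit 18) (.e (nat_lit 57854) (nat_lit 252) .nil)))))) (.g (nat_lit 6) .nil .nil))) 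
(.lf (nat_lit 155176) (.g (nat_lit 2977) (.e (nat_lit 57409) (nat_lit 12) (.e (nat_lit 336456) (nat_lit 34) (.e (nat_lit 483395) (nat_lit 24) (.e (nat_lit 344117) (nat_lit 21) (.e (nat_lit 516116) (nat_lit 1) (.e (nat_lit 164180) (nat_lit 154) .nil)))))) (.g (nat_lit 5) .nil .nil)))) (.nd (nat_lit 5) 
(.lf (nat_lit 155160) (.g (nat_lit 1630) (.e (nat_lit 57409) (nat_lit 12) (.e (nat_lit 336456) (nat_lit 34) (.e (nat_lit 483383) (nat_lit 23) (.e (nat_lit 336325) (nat_lit 18) .nil)))) .nil)) 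
(.lf (nat_lit 155192) (.g (nat_lit 3180) (.e (nat_lit 57409) (nat_lit 12) (.e (nat_lit 336456) (nat_lit 34) (.e (nat_lit 483402) (nat_lit 26) (.e (nat_lit 385068) (nat_lit 26) (.e (nat_lit 532501) (nat_lit 1) (.e (nat_lit 57854) (nat_lit 252) .nil)))))) (.g (nat_lit 0) .nil .nil)))))) (.nd (nat_lit 3) (.nd (nat_lit 4) (.nd (nat_lit 5) 
(.lf (nat_lit 155140) (.g (nat_lit 3923) (.e (nat_lit 57409) (nat_lit 12) (.e (nat_lit 336456) (nat_lit 34) (.e (nat_lit 483381) (nat_lit 23) (.e (nat_lit 336324) (nat_lit 18) (.e (nat_lit 204831) (nat_lit 18) (.e (nat_lit 57854) (nat_lit 252) .nil)))))) (.g (nat_lit 5) .nil .nil))) 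
(.lf (nat_lit 155172) (.g (nat_lit 2963) (.e (nat_lit 57409) (nat_lit 12) (.e (nat_lit 336456) (nat_lit 34) (.e (nat_lit 483394) (nat_lit 24) (.e (nat_lit 344117) (nat_lit 21) (.e (nat_lit 516116) (nat_lit 1) (.e (nat_lit 164183) (nat_lit 154) .nil)))))) (.g (nat_lit 5) .nil .nil)))) (.nd (nat_lit 5) 
(.lf (nat_lit 155156) (.g (nat_lit 2053) (.e (nat_lit 57409) (nat_lit 12) (.e (nat_lit 336456) (nat_lit 34) (.e (nat_lit 483383) (nat_lit 23) (.e (nat_lit 336322) (nat_lit 18) (.e (nat_lit 204830) (nat_lit 18) (.e (nat_lit 57854) (nat_lit 252) .nil)))))) (.g (nat_lit 4) .nil .nil))) 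
(.lf (nat_lit 155188) (.g (nat_lit 3592) (.e (nat_lit 57409) (nat_lit 12) (.e (nat_lit 336456) (nat_lit 34) (.e (nat_lit 483398) (nat_lit 25) (.e (nat_lit 368676) (nat_lit 21) (.e (nat_lit 516120) (nat_lit 1) (.e (nat_lit 164182) (nat_lit 154) .nil)))))) (.g (nat_lit 0) .nil .nil))))) (.nd (nat_lit 4) (.nd (nat_lit 5) 
(.lf (nat_lit 155148) (.g (nat_lit 2792) (.e (nat_lit 57409) (nat_lit 12) (.e (nat_lit 336456) (nat_lit 34) (.e (nat_lit 483382) (nat_lit 23) (.e (nat_lit 336326) (nat_lit 18) (.e (nat_lit 204831) (nat_lit 18) (.e (nat_lit 57854) (nat_lit 252) .nil)))))) (.g (nat_lit 6) .nil .nil))) 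
(.lf (nat_lit 155180) (.g (nat_lit 894) (.e (nat_lit 57409) (nat_lit 12) (.e (nat_lit 336456) (nat_lit 34) (.e (nat_lit 483395) (nat_lit 24) (.e (nat_lit 344118) (nat_lit 21) .nil)))) .nil))) (.nd (nat_lit 5) 
(.lf (nat_lit 155164) (.g (nat_lit 3011) (.e (nat_lit 57409) (nat_lit 12) (.e (nat_lit 336456) (nat_lit 34) (.e (nat_lit 483391) (nat_lit 23) (.e (nat_lit 336017) (nat_lit 3) (.e (nat_lit 98333) (nat_lit 18) (.e (nat_lit 164179) (nat_lit 154) .nil)))))) (.g (nat_lit 6) .nil .nil))) 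
(.lf (nat_lit 155196) (.g (nat_lit 3182) (.e (nat_lit 57409) (nat_lit 12) (.e (nat_lit 336456) (nat_lit 34) (.e (nat_lit 483403) (nat_lit 26) (.e (nat_lit 385066) (nat_lit 26) (.e (nat_lit 532501) (nat_lit 1) (.e (nat_lit 57854) (nat_lit 252) .nil)))))) (.g (nat_lit 0) .nil .nil))))))) (.nd (nat_lit 2) (.nd (nat_lit 3) (.nd (nat_lit 4) (.nd (nat_lit 5) 
(.lf (nat_lit 155138) (.g (nat_lit 3111) (.e (nat_lit 57409) (nat_lit 12) (.e (nat_lit 336456) (nat_lit 34) (.e (nat_lit 483380) (nat_lit 23) (.e (nat_lit 336326) (nat_lit 18) (.e (nat_lit 204831) (nat_lit 18) (.e (nat_lit 57854) (nat_lit 252) .nil)))))) (.g (nat_lit 0) .nil .nil))) 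
(.lf (nat_lit 155170) (.g (nat_lit 2027) (.e (nat_lit 57409) (nat_lit 12) (.e (nat_lit 336456) (nat_lit 34) (.e (nat_lit 483393) (nat_lit 23) (.e (nat_lit 336027) (nat_lit 3) (.e (nat_lit 98334) (nat_lit 18) (.e (nat_lit 164183) (nat_lit 154) .nil)))))) (.g (nat_lit 4) .nil .nil)))) (.nd (nat_lit 5) 
(.lf (nat_lit 155154) (.g (nat_lit 3526) (.e (nat_lit 57409) (nat_lit 12) (.e (nat_lit 336456) (nat_lit 34) (.e (nat_lit 483383) (nat_lit 23) (.e (nat_lit 336019) (nat_lit 3) (.e (nat_lit 98335) (nat_lit 18) (.e (nat_lit 164179) (nat_lit 154) .nil)))))) (.g (nat_lit 6) .nil .nil))) 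
(.lf (nat_lit 155186) (.g (nat_lit 3550) (.e (nat_lit 57409) (nat_lit 12) (.e (nat_lit 336456) (nat_lit 34) (.e (nat_lit 483398) (nat_lit 25) (.e (nat_lit 368676) (nat_lit 21) (.e (nat_lit 516115) (nat_lit 1) (.e (nat_lit 164179) (nat_lit 154) .nil)))))) (.g (nat_lit 0) .nil .nil))))) (.nd (nat_lit 4) (.nd (nat_lit 5) 
(.lf (nat_lit 155146) (.g (nat_lit 2993) (.e (nat_lit 57409) (nat_lit 12) (.e (nat_lit 336456) (nat_lit 34) (.e (nat_lit 483382) (nat_lit 23) (.e (nat_lit 336324) (nat_lit 18) (.e (nat_lit 204831) (nat_lit 18) (.e (nat_lit 57854) (nat_lit 252) .nil)))))) (.g (nat_lit 6) .nil .nil))) 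
(.lf (nat_lit 155178) (.g (nat_lit 2109) (.e (nat_lit 57409) (nat_lit 12) (.e (nat_lit 336456) (nat_lit 34) (.e (nat_lit 483395) (nat_lit 24) (.e (nat_lit 344117) (nat_lit 21) (.e (nat_lit 516118) (nat_lit 1) (.e (nat_lit 164182) (nat_lit 154) .nil)))))) (.g (nat_lit 4) .nil .nil)))) (.nd (nat_lit 5) 
(.lf (nat_lit 155162) (.g (nat_lit 3272) (.e (nat_lit 57409) (nat_lit 12) (.e (nat_lit 336456) (nat_lit 34) (.e (nat_lit 483383) (nat_lit 23) (.e (nat_lit 336326) (nat_lit 18) (.e (nat_lit 204831) (nat_lit 18) (.e (nat_lit 57854) (nat_lit 252) .nil)))))) (.g (nat_lit 0) .nil .nil))) 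
(.lf (nat_lit 155194) (.g (nat_lit 3373) (.e (nat_lit 57409) (nat_lit 12) (.e (nat_lit 336456) (nat_lit 34) (.e (nat_lit 483403) (nat_lit 26) (.e (nat_lit 385066) (nat_lit 26) (.e (nat_lit 532499) (nat_lit 1) (.e (nat_lit 57854) (nat_lit 252) .nil)))))) (.g (nat_lit 0) .nil .nil)))))) (.nd (nat_lit 3) (.nd (nat_lit 4) (.nd (nat_lit 5) 
(.lf (nat_lit 155142) (.g (nat_lit 2783) (.e (nat_lit 57409) (nat_lit 12) (.e (nat_lit 336456) (nat_lit 34) (.e (nat_lit 483382) (nat_lit 23) (.e (nat_lit 336324) (nat_lit 18) (.e (nat_lit 204829) (nat_lit 18) (.e (nat_lit 57854) (nat_lit 252) .nil)))))) (.g (nat_lit 6) .nil .nil))) 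
(.lf (nat_lit 155174) (.g (nat_lit 3676) (.e (nat_lit 57409) (nat_lit 12) (.e (nat_lit 336456) (nat_lit 34) (.e (nat_lit 483395) (nat_lit 24) (.e (nat_lit 344117) (nat_lit 21) (.e (nat_lit 516115) (nat_lit 1) (.e (nat_lit 164182) (nat_lit 154) .nil)))))) (.g (nat_lit 0) .nil .nil)))) (.nd (nat_lit 5) 
(.lf (nat_lit 155158) (.g (nat_lit 3939) (.e (nat_lit 57409) (nat_lit 12) (.e (nat_lit 336456) (nat_lit 34) (.e (nat_lit 483383) (nat_lit 23) (.e (nat_lit 336324) (nat_lit 18) (.e (nat_lit 204830) (nat_lit 18) (.e (nat_lit 57854) (nat_lit 252) .nil)))))) (.g (nat_lit 0) .nil .nil))) 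
(.lf (nat_lit 155190) (.g (nat_lit 2314) (.e (nat_lit 57409) (nat_lit 12) (.e (nat_lit 336456) (nat_lit 34) (.e (nat_lit 483399) (nat_lit 25) (.e (nat_lit 368676) (nat_lit 21) (.e (nat_lit 516117) (nat_lit 1) (.e (nat_lit 164176) (nat_lit 154) .nil)))))) (.g (nat_lit 5) .nil .nil))))) (.nd (nat_lit 4) (.nd (nat_lit 5) 
(.lf (nat_lit 155150) (.g (nat_lit 3110) (.e (nat_lit 57409) (nat_lit 12) (.e (nat_lit 336456) (nat_lit 34) (.e (nat_lit 483383) (nat_lit 23) (.e (nat_lit 336019) (nat_lit 3) (.e (nat_lit 98334) (nat_lit 18) (.e (nat_lit 164180) (nat_lit 154) .nil)))))) (.g (nat_lit 5) .nil .nil))) 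
(.lf (nat_lit 155182) (.g (nat_lit 3700) (.e (nat_lit 57409) (nat_lit 12) (.e (nat_lit 336456) (nat_lit 34) (.e (nat_lit 483395) (nat_lit 24) (.e (nat_lit 344118) (nat_lit 21) (.e (nat_lit 516120) (nat_lit 1) (.e (nat_lit 164182) (nat_lit 154) .nil)))))) (.g (nat_lit 0) .nil .nil)))) (.nd (nat_lit 5) 
(.lf (nat_lit 155166) (.g (nat_lit 3209) (.e (nat_lit 57409) (nat_lit 12) (.e (nat_lit 336456) (nat_lit 34) (.e (nat_lit 483391) (nat_lit 23) (.e (nat_lit 336017) (nat_lit 3) (.e (nat_lit 98334) (nat_lit 18) (.e (nat_lit 164182) (nat_lit 154) .nil)))))) (.g (nat_lit 0) .nil .nil))) 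
(.lf (nat_lit 155198) (.g (nat_lit 2968) (.e (nat_lit 57409) (nat_lit 12) (.e (nat_lit 336456) (nat_lit 34) (.e (nat_lit 483403) (nat_lit 26) (.e (nat_lit 385066) (nat_lit 26) (.e (nat_lit 532504) (nat_lit 1) (.e (nat_lit 57852) (nat_lit 252) .nil)))))) (.g (nat_lit 5) .nil .nil)))))))) (.nd (nat_lit 1) (.nd (nat_lit 2) (.nd (nat_lit 3) (.nd (nat_lit 4) (.nd (nat_lit 5) 
(.lf (nat_lit 155137) (.g (nat_lit 3182) (.e (nat_lit 57409) (nat_lit 12) (.e (nat_lit 336456) (nat_lit 34) (.e (nat_lit 483380) (nat_lit 23) (.e (nat_lit 336326) (nat_lit 18) (.e (nat_lit 204830) (nat_lit 18) (.e (nat_lit 57854) (nat_lit 252) .nil)))))) (.g (nat_lit 0) .nil .nil))) 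
(.lf (nat_lit 155169) (.g (nat_lit 3714) (.e (nat_lit 57409) (nat_lit 12) (.e (nat_lit 336456) (nat_lit 34) (.e (nat_lit 483393) (nat_lit 23) (.e (nat_lit 336027) (nat_lit 3) (.e (nat_lit 98334) (nat_lit 18) (.e (nat_lit 164182) (nat_lit 154) .nil)))))) (.g (nat_lit 0) .nil .nil)))) (.nd (nat_lit 5) 
(.lf (nat_lit 155153) (.g (nat_lit 2721) (.e (nat_lit 57409) (nat_lit 12) (.e (nat_lit 336456) (nat_lit 34) (.e (nat_lit 483383) (nat_lit 23) (.e (nat_lit 336019) (nat_lit 3) (.e (nat_lit 98335) (nat_lit 18) (.e (nat_lit 164178) (nat_lit 154) .nil)))))) (.g (nat_lit 4) .nil .nil))) 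
(.lf (nat_lit 155185) (.g (nat_lit 795) (.e (nat_lit 57409) (nat_lit 12) (.e (nat_lit 336456) (nat_lit 34) (.e (nat_lit 483397) (nat_lit 25) .nil))) .nil)))) (.nd (nat_lit 4) (.nd (nat_lit 5) 
(.lf (nat_lit 155145) (.g (nat_lit 2435) (.e (nat_lit 57409) (nat_lit 12) (.e (nat_lit 336456) (nat_lit 34) (.e (nat_lit 483382) (nat_lit 23) (.e (nat_lit 336324) (nat_lit 18) (.e (nat_lit 204831) (nat_lit 18) (.e (nat_lit 57852) (nat_lit 252) .nil)))))) (.g (nat_lit 5) .nil .nil))) 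
(.lf (nat_lit 155177) (.g (nat_lit 2333) (.e (nat_lit 57409) (nat_lit 12) (.e (nat_lit 336456) (nat_lit 34) (.e (nat_lit 483395) (nat_lit 24) (.e (nat_lit 344117) (nat_lit 21) (.e (nat_lit 516118) (nat_lit 1) (.e (nat_lit 164179) (nat_lit 154) .nil)))))) (.g (nat_lit 4) .nil .nil)))) (.nd (nat_lit 5) 
(.lf (nat_lit 155161) (.g (nat_lit 3302) (.e (nat_lit 57409) (nat_lit 12) (.e (nat_lit 336456) (nat_lit 34) (.e (nat_lit 483383) (nat_lit 23) (.e (nat_lit 336326) (nat_lit 18) (.e (nat_lit 204830) (nat_lit 18) (.e (nat_lit 57854) (nat_lit 252) .nil)))))) (.g (nat_lit 0) .nil .nil))) 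
(.lf (nat_lit 155193) (.g (nat_lit 3155) (.e (nat_lit 57409) (nat_lit 12) (.e (nat_lit 336456) (nat_lit 34) (.e (nat_lit 483402) (nat_lit 26) (.e (nat_lit 385068) (nat_lit 26) (.e (nat_lit 532504) (nat_lit 1) (.e (nat_lit 57854) (nat_lit 252) .nil)))))) (.g (nat_lit 0) .nil .nil)))))) (.nd (nat_lit 3) (.nd (nat_lit 4) (.nd (nat_lit 5) 
(.lf (nat_lit 155141) (.g (nat_lit 1506) (.e (nat_lit 57409) (nat_lit 12) (.e (nat_lit 336456) (nat_lit 34) (.e (nat_lit 483382) (nat_lit 23) (.e (nat_lit 336322) (nat_lit 18) (.e (nat_lit 204830) (nat_lit 18) (.e (nat_lit 57854) (nat_lit 252) .nil)))))) (.g (nat_lit 4) .nil .nil))) 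
(.lf (nat_lit 155173) (.g (nat_lit 4132) (.e (nat_lit 57409) (nat_lit 12) (.e (nat_lit 336456) (nat_lit 34) (.e (nat_lit 483395) (nat_lit 24) (.e (nat_lit 344117) (nat_lit 21) (.e (nat_lit 516115) (nat_lit 1) (.e (nat_lit 164179) (nat_lit 154) .nil)))))) (.g (nat_lit 6) .nil .nil)))) (.nd (nat_lit 5) 
(.lf (nat_lit 155157) (.g (nat_lit 3763) (.e (nat_lit 57409) (nat_lit 12) (.e (nat_lit 336456) (nat_lit 34) (.e (nat_lit 483383) (nat_lit 23) (.e (nat_lit 336324) (nat_lit 18) (.e (nat_lit 204829) (nat_lit 18) (.e (nat_lit 57854) (nat_lit 252) .nil)))))) (.g (nat_lit 0) .nil .nil))) 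
(.lf (nat_lit 155189) (.g (nat_lit 3524) (.e (nat_lit 57409) (nat_lit 12) (.e (nat_lit 336456) (nat_lit 34) (.e (nat_lit 483399) (nat_lit 25) (.e (nat_lit 368676) (nat_lit 21) (.e (nat_lit 516115) (nat_lit 1) (.e (nat_lit 164179) (nat_lit 154) .nil)))))) (.g (nat_lit 0) .nil .nil))))) (.nd (nat_lit 4) (.nd (nat_lit 5) 
(.lf (nat_lit 155149) (.g (nat_lit 4156) (.e (nat_lit 57409) (nat_lit 12) (.e (nat_lit 336456) (nat_lit 34) (.e (nat_lit 483383) (nat_lit 23) (.e (nat_lit 336019) (nat_lit 3) (.e (nat_lit 98333) (nat_lit 18) (.e (nat_lit 164179) (nat_lit 154) .nil)))))) (.g (nat_lit 0) .nil .nil))) 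
(.lf (nat_lit 155181) (.g (nat_lit 1793) (.e (nat_lit 57409) (nat_lit 12) (.e (nat_lit 336456) (nat_lit 34) (.e (nat_lit 483395) (nat_lit 24) (.e (nat_lit 344118) (nat_lit 21) (.e (nat_lit 516119) (nat_lit 1) (.e (nat_lit 164176) (nat_lit 154) .nil)))))) (.g (nat_lit 4) .nil .nil)))) (.nd (nat_lit 5) 
(.lf (nat_lit 155165) (.g (nat_lit 3113) (.e (nat_lit 57409) (nat_lit 12) (.e (nat_lit 336456) (nat_lit 34) (.e (nat_lit 483391) (nat_lit 23) (.e (nat_lit 336017) (nat_lit 3) (.e (nat_lit 98333) (nat_lit 18) (.e (nat_lit 164182) (nat_lit 154) .nil)))))) (.g (nat_lit 0) .nil .nil))) 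
(.lf (nat_lit 155197) (.g (nat_lit 2144) (.e (nat_lit 57409) (nat_lit 12) (.e (nat_lit 336456) (nat_lit 34) (.e (nat_lit 483403) (nat_lit 26) (.e (nat_lit 385066) (nat_lit 26) (.e (nat_lit 532503) (nat_lit 1) (.e (nat_lit 57854) (nat_lit 252) .nil)))))) (.g (nat_lit 4) .nil .nil))))))) (.nd (nat_lit 2) (.nd (nat_lit 3) (.nd (nat_lit 4) (.nd (nat_lit 5) 
(.lf (nat_lit 155139) (.g (nat_lit 1823) (.e (nat_lit 57409) (nat_lit 12) (.e (nat_lit 336456) (nat_lit 34) (.e (nat_lit 483381) (nat_lit 23) (.e (nat_lit 336324) (nat_lit 18) (.e (nat_lit 204829) (nat_lit 18) (.e (nat_lit 57854) (nat_lit 252) .nil)))))) (.g (nat_lit 4) .nil .nil))) 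
(.lf (nat_lit 155171) (.g (nat_lit 3546) (.e (nat_lit 57409) (nat_lit 12) (.e (nat_lit 336456) (nat_lit 34) (.e (nat_lit 483394) (nat_lit 24) (.e (nat_lit 344117) (nat_lit 21) (.e (nat_lit 516115) (nat_lit 1) (.e (nat_lit 164182) (nat_lit 154) .nil)))))) (.g (nat_lit 0) .nil .nil)))) (.nd (nat_lit 5) 
(.lf (nat_lit 155155) (.g (nat_lit 3426) (.e (nat_lit 57409) (nat_lit 12) (.e (nat_lit 336456) (nat_lit 34) (.e (nat_lit 483383) (nat_lit 23) (.e (nat_lit 336019) (nat_lit 3) (.e (nat_lit 98335) (nat_lit 18) (.e (nat_lit 164183) (nat_lit 154) .nil)))))) (.g (nat_lit 0) .nil .nil))) 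
(.lf (nat_lit 155187) (.g (nat_lit 2361) (.e (nat_lit 57409) (nat_lit 12) (.e (nat_lit 336456) (nat_lit 34) (.e (nat_lit 483398) (nat_lit 25) (.e (nat_lit 368676) (nat_lit 21) (.e (nat_lit 516117) (nat_lit 1) (.e (nat_lit 164176) (nat_lit 154) .nil)))))) (.g (nat_lit 5) .nil .nil))))) (.nd (nat_lit 4) (.nd (nat_lit 5) 
(.lf (nat_lit 155147) (.g (nat_lit 2881) (.e (nat_lit 57409) (nat_lit 12) (.e (nat_lit 336456) (nat_lit 34) (.e (nat_lit 483382) (nat_lit 23) (.e (nat_lit 336326) (nat_lit 18) (.e (nat_lit 204830) (nat_lit 18) (.e (nat_lit 57854) (nat_lit 252) .nil)))))) (.g (nat_lit 6) .nil .nil))) 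
(.lf (nat_lit 155179) (.g (nat_lit 2308) (.e (nat_lit 57409) (nat_lit 12) (.e (nat_lit 336456) (nat_lit 34) (.e (nat_lit 483395) (nat_lit 24) (.e (nat_lit 344117) (nat_lit 21) (.e (nat_lit 516118) (nat_lit 1) (.e (nat_lit 164183) (nat_lit 154) .nil)))))) (.g (nat_lit 5) .nil .nil)))) (.nd (nat_lit 5) 
(.lf (nat_lit 155163) (.g (nat_lit 1693) (.e (nat_lit 57409) (nat_lit 12) (.e (nat_lit 336456) (nat_lit 34) (.e (nat_lit 483384) (nat_lit 23) (.e (nat_lit 336324) (nat_lit 18) (.e (nat_lit 204830) (nat_lit 18) .nil))))) .nil)) 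
(.lf (nat_lit 155195) (.g (nat_lit 2897) (.e (nat_lit 57409) (nat_lit 12) (.e (nat_lit 336456) (nat_lit 34) (.e (nat_lit 483403) (nat_lit 26) (.e (nat_lit 385066) (nat_lit 26) (.e (nat_lit 532501) (nat_lit 1) (.e (nat_lit 57852) (nat_lit 252) .nil)))))) (.g (nat_lit 5) .nil .nil)))))) (.nd (nat_lit 3) (.nd (nat_lit 4) (.nd (nat_lit 5) 
(.lf (nat_lit 155143) (.g (nat_lit 2462) (.e (nat_lit 57409) (nat_lit 12) (.e (nat_lit 336456) (nat_lit 34) (.e (nat_lit 483382) (nat_lit 23) (.e (nat_lit 336324) (nat_lit 18) (.e (nat_lit 204830) (nat_lit 18) (.e (nat_lit 57852) (nat_lit 252) .nil)))))) (.g (nat_lit 5) .nil .nil))) 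
(.lf (nat_lit 155175) (.g (nat_lit 2829) (.e (nat_lit 57409) (nat_lit 12) (.e (nat_lit 336456) (nat_lit 34) (.e (nat_lit 483395) (nat_lit 24) (.e (nat_lit 344117) (nat_lit 21) (.e (nat_lit 516116) (nat_lit 1) (.e (nat_lit 164176) (nat_lit 154) .nil)))))) (.g (nat_lit 5) .nil .nil)))) (.nd (nat_lit 5) 
(.lf (nat_lit 155159) (.g (nat_lit 3465) (.e (nat_lit 57409) (nat_lit 12) (.e (nat_lit 336456) (nat_lit 34) (.e (nat_lit 483383) (nat_lit 23) (.e (nat_lit 336324) (nat_lit 18) (.e (nat_lit 204831) (nat_lit 18) (.e (nat_lit 57852) (nat_lit 252) .nil)))))) (.g (nat_lit 5) .nil .nil))) 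
(.lf (nat_lit 155191) (.g (nat_lit 3540) (.e (nat_lit 57409) (nat_lit 12) (.e (nat_lit 336456) (nat_lit 34) (.e (nat_lit 483399) (nat_lit 25) (.e (nat_lit 368676) (nat_lit 21) (.e (nat_lit 516120) (nat_lit 1) (.e (nat_lit 164182) (nat_lit 154) .nil)))))) (.g (nat_lit 0) .nil .nil))))) (.nd (nat_lit 4) (.nd (nat_lit 5) 
(.lf (nat_lit 155151) (.g (nat_lit 2042) (.e (nat_lit 57409) (nat_lit 12) (.e (nat_lit 336456) (nat_lit 34) (.e (nat_lit 483383) (nat_lit 23) (.e (nat_lit 336019) (nat_lit 3) (.e (nat_lit 98334) (nat_lit 18) (.e (nat_lit 164181) (nat_lit 154) .nil)))))) (.g (nat_lit 4) .nil .nil))) 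
(.lf (nat_lit 155183) (.g (nat_lit 1459) (.e (nat_lit 57409) (nat_lit 12) (.e (nat_lit 336456) (nat_lit 34) (.e (nat_lit 483395) (nat_lit 24) (.e (nat_lit 344120) (nat_lit 21) (.e (nat_lit 516118) (nat_lit 1) (.e (nat_lit 164183) (nat_lit 154) .nil)))))) (.g (nat_lit 4) .nil .nil)))) (.nd (nat_lit 5) 
(.lf (nat_lit 155167) (.g (nat_lit 3550) (.e (nat_lit 57409) (nat_lit 12) (.e (nat_lit 336456) (nat_lit 34) (.e (nat_lit 483393) (nat_lit 23) (.e (nat_lit 336021) (nat_lit 3) (.e (nat_lit 98333) (nat_lit 18) (.e (nat_lit 164179) (nat_lit 154) .nil)))))) (.g (nat_lit 6) .nil .nil))) 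
(.lf (nat_lit 155199) (.g (nat_lit 3295) (.e (nat_lit 57409) (nat_lit 12) (.e (nat_lit 336456) (nat_lit 34) (.e (nat_lit 483403) (nat_lit 26) (.e (nat_lit 385066) (nat_lit 26) (.e (nat_lit 532504) (nat_lit 1) (.e (nat_lit 57854) (nat_lit 252) .nil)))))) (.g (nat_lit 0) .nil .nil)))))))))

noncomputable def tv2072 : DT := (.nd (nat_lit 0) (.nd (nat_lit 1) (.nd (nat_lit 2) (.nd (nat_lit 3) (.nd (nat_lit 4) (.nd (nat_lit 5) 
(.lf (nat_lit 155200) (.g (nat_lit 3484) (.e (nat_lit 57409) (nat_lit 12) (.e (nat_lit 336456) (nat_lit 34) (.e (nat_lit 483403) (nat_lit 26) (.e (nat_lit 385068) (nat_lit 26) (.e (nat_lit 532501) (nat_lit 1) (.e (nat_lit 57854) (nat_lit 252) .nil)))))) (.g (nat_lit 0) .nil .nil))) 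
(.lf (nat_lit 155232) (.g (nat_lit 5015) (.e (nat_lit 57410) (nat_lit 12) (.e (nat_lit 336019) (nat_lit 3) (.e (nat_lit 98373) (nat_lit 29) (.e (nat_lit 450588) (nat_lit 10) (.e (nat_lit 573475) (nat_lit 12) .nil))))) .nil))) (.nd (nat_lit 5) 
(.lf (nat_lit 155216) (.g (nat_lit 3780) (.e (nat_lit 57409) (nat_lit 12) (.e (nat_lit 336456) (nat_lit 34) (.e (nat_lit 483406) (nat_lit 26) (.e (nat_lit 385068) (nat_lit 26) (.e (nat_lit 532501) (nat_lit 1) (.e (nat_lit 57854) (nat_lit 252) .nil)))))) (.g (nat_lit 0) .nil .nil))) 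
(.lf (nat_lit 155248) (.g (nat_lit 2033) (.e (nat_lit 57410) (nat_lit 12) (.e (nat_lit 336211) (nat_lit 13) (.e (nat_lit 393234) (nat_lit 17) (.e (nat_lit 7591) (nat_lit 407) (.e (nat_lit 73730) (nat_lit 0) (.e (nat_lit 7261) (nat_lit 384) .nil)))))) (.g (nat_lit 4) .nil .nil))))) (.nd (nat_lit 4) (.nd (nat_lit 5) 
(.lf (nat_lit 155208) (.g (nat_lit 2614) (.e (nat_lit 57409) (nat_lit 12) (.e (nat_lit 336456) (nat_lit 34) (.e (nat_lit 483405) (nat_lit 26) (.e (nat_lit 385066) (nat_lit 26) (.e (nat_lit 532504) (nat_lit 1) (.e (nat_lit 57854) (nat_lit 252) .nil)))))) (.g (nat_lit 6) .nil .nil))) 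
(.lf (nat_lit 155240) (.g (nat_lit 1616) (.e (nat_lit 57410) (nat_lit 12) (.e (nat_lit 336019) (nat_lit 3) (.e (nat_lit 98384) (nat_lit 32) (.e (nat_lit 475163) (nat_lit 21) .nil)))) .nil))) (.nd (nat_lit 5) 
(.lf (nat_lit 155224) (.g (nat_lit 869) (.e (nat_lit 57410) (nat_lit 12) (.e (nat_lit 336019) (nat_lit 3) (.e (nat_lit 98369) (nat_lit 28) .nil))) .nil)) 
(.lf (nat_lit 155256) (.g (nat_lit 1992) (.e (nat_lit 57410) (nat_lit 12) (.e (nat_lit 336211) (nat_lit 13) (.e (nat_lit 393260) (nat_lit 21) (.e (nat_lit 409648) (nat_lit 18) (.e (nat_lit 303114) (nat_lit 1) (.e (nat_lit 164182) (nat_lit 154) .nil)))))) (.g (nat_lit 4) .nil .nil)))))) (.nd (nat_lit 3) (.nd (nat_lit 4) (.nd (nat_lit 5) 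
(.lf (nat_lit 155204) (.g (nat_lit 2870) (.e (nat_lit 57409) (nat_lit 12) (.e (nat_lit 336456) (nat_lit 34) (.e (nat_lit 483404) (nat_lit 26) (.e (nat_lit 385068) (nat_lit 26) (.e (nat_lit 532501) (nat_lit 1) (.e (nat_lit 57854) (nat_lit 252) .nil)))))) (.g (nat_lit 5) .nil .nil))) 
(.lf (nat_lit 155236) (.g (nat_lit 1055) (.e (nat_lit 57410) (nat_lit 12) (.e (nat_lit 336019) (nat_lit 3) (.e (nat_lit 98381) (nat_lit 31) (.e (nat_lit 466977) (nat_lit 22) .nil)))) .nil))) (.nd (nat_lit 5) 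
(.lf (nat_lit 155220) (.g (nat_lit 588) (.e (nat_lit 57409) (nat_lit 12) (.e (nat_lit 336456) (nat_lit 34) (.e (nat_lit 483408) (nat_lit 26) .nil))) .nil)) 
(.lf (nat_lit 155252) (.g (nat_lit 1634) (.e (nat_lit 57410) (nat_lit 12) (.e (nat_lit 336211) (nat_lit 13) (.e (nat_lit 393238) (nat_lit 17) (.e (nat_lit 6989) (nat_lit 377) (.e (nat_lit 2810) (nat_lit 180) .nil))))) .nil)))) (.nd (nat_lit 4) (.nd (nat_lit 5) 
(.lf (nat_lit 155212) (.g (nat_lit 3654) (.e (nat_lit 57409) (nat_lit 12) (.e (nat_lit 336456) (nat_lit 34) (.e (nat_lit 483406) (nat_lit 26) (.e (nat_lit 385066) (nat_lit 26) (.e (nat_lit 532501) (nat_lit 1) (.e (nat_lit 57854) (nat_lit 252) .nil)))))) (.g (nat_lit 0) .nil .nil))) 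
(.lf (nat_lit 155244) (.g (nat_lit 2709) (.e (nat_lit 57410) (nat_lit 12) (.e (nat_lit 336211) (nat_lit 13) (.e (nat_lit 393232) (nat_lit 17) (.e (nat_lit 7593) (nat_lit 407) (.e (nat_lit 73729) (nat_lit 0) (.e (nat_lit 7261) (nat_lit 384) .nil)))))) (.g (nat_lit 6) .nil .nil)))) (.nd (nat_lit 5) 
(.lf (nat_lit 155228) (.g (nat_lit 3182) (.e (nat_lit 57410) (nat_lit 12) (.e (nat_lit 336019) (nat_lit 3) (.e (nat_lit 98372) (nat_lit 29) (.e (nat_lit 450579) (nat_lit 5) (.e (nat_lit 532504) (nat_lit 1) (.e (nat_lit 65280) (nat_lit 223) .nil)))))) (.g (nat_lit 5) .nil .nil))) 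
(.lf (nat_lit 155260) (.g (nat_lit 396) (.e (nat_lit 57410) (nat_lit 12) (.e (nat_lit 336211) (nat_lit 13) (.e (nat_lit 393263) (nat_lit 22) .nil))) .nil)))))) (.nd (nat_lit 2) (.nd (nat_lit 3) (.nd (nat_lit 4) (.nd (nat_lit 5) 
(.lf (nat_lit 155202) (.g (nat_lit 1964) (.e (nat_lit 57409) (nat_lit 12) (.e (nat_lit 336456) (nat_lit 34) (.e (nat_lit 483404) (nat_lit 26) (.e (nat_lit 385066) (nat_lit 26) (.e (nat_lit 532501) (nat_lit 1) (.e (nat_lit 57854) (nat_lit 252) .nil)))))) (.g (nat_lit 4) .nil .nil))) 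
(.lf (nat_lit 155234) (.g (nat_lit 507) (.e (nat_lit 57410) (nat_lit 12) (.e (nat_lit 336019) (nat_lit 3) (.e (nat_lit 98381) (nat_lit 31) .nil))) .nil))) (.nd (nat_lit 5) 
(.lf (nat_lit 155218) (.g (nat_lit 3793) (.e (nat_lit 57409) (nat_lit 12) (.e (nat_lit 336456) (nat_lit 34) (.e (nat_lit 483406) (nat_lit 26) (.e (nat_lit 385068) (nat_lit 26) (.e (nat_lit 532504) (nat_lit 1) (.e (nat_lit 57854) (nat_lit 252) .nil)))))) (.g (nat_lit 0) .nil .nil))) 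
(.lf (nat_lit 155250) (.g (nat_lit 2026) (.e (nat_lit 57410) (nat_lit 12) (.e (nat_lit 336211) (nat_lit 13) (.e (nat_lit 393234) (nat_lit 17) (.e (nat_lit 7593) (nat_lit 407) (.e (nat_lit 73730) (nat_lit 0) .nil))))) .nil)))) (.nd (nat_lit 4) (.nd (nat_lit 5) 
(.lf (nat_lit 155210) (.g (nat_lit 3849) (.e (nat_lit 57409) (nat_lit 12) (.e (nat_lit 336456) (nat_lit 34) (.e (nat_lit 483406) (nat_lit 26) (.e (nat_lit 385066) (nat_lit 26) (.e (nat_lit 532499) (nat_lit 1) (.e (nat_lit 57854) (nat_lit 252) .nil)))))) (.g (nat_lit 0) .nil .nil))) 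
(.lf (nat_lit 155242) (.g (nat_lit 440) (.e (nat_lit 57410) (nat_lit 12) (.e (nat_lit 336208) (nat_lit 12) (.e (nat_lit 385099) (nat_lit 49) .nil))) .nil))) (.nd (nat_lit 5) 
(.lf (nat_lit 155226) (.g (nat_lit 2607) (.e (nat_lit 57410) (nat_lit 12) (.e (nat_lit 336019) (nat_lit 3) (.e (nat_lit 98372) (nat_lit 29) (.e (nat_lit 450579) (nat_lit 5) (.e (nat_lit 532484) (nat_lit 0) .nil))))) .nil)) 
(.lf (nat_lit 155258) (.g (nat_lit 2240) (.e (nat_lit 57410) (nat_lit 12) (.e (nat_lit 336211) (nat_lit 13) (.e (nat_lit 393260) (nat_lit 21) (.e (nat_lit 409649) (nat_lit 18) (.e (nat_lit 303114) (nat_lit 1) (.e (nat_lit 164182) (nat_lit 154) .nil)))))) (.g (nat_lit 4) .nil .nil)))))) (.nd (nat_lit 3) (.nd (nat_lit 4) (.nd (nat_lit 5) 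
(.lf (nat_lit 155206) (.g (nat_lit 2731) (.e (nat_lit 57409) (nat_lit 12) (.e (nat_lit 336456) (nat_lit 34) (.e (nat_lit 483405) (nat_lit 26) (.e (nat_lit 385066) (nat_lit 26) (.e (nat_lit 532499) (nat_lit 1) (.e (nat_lit 57854) (nat_lit 252) .nil)))))) (.g (nat_lit 6) .nil .nil))) 
(.lf (nat_lit 155238) (.g (nat_lit 1902) (.e (nat_lit 57410) (nat_lit 12) (.e (nat_lit 336019) (nat_lit 3) (.e (nat_lit 98381) (nat_lit 31) (.e (nat_lit 466977) (nat_lit 22) (.e (nat_lit 196651) (nat_lit 10) .nil))))) .nil))) (.nd (nat_lit 5) 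
(.lf (nat_lit 155222) (.g (nat_lit 591) (.e (nat_lit 57410) (nat_lit 12) (.e (nat_lit 336019) (nat_lit 3) (.e (nat_lit 98342) (nat_lit 20) .nil))) .nil)) 
(.lf (nat_lit 155254) (.g (nat_lit 1973) (.e (nat_lit 57410) (nat_lit 12) (.e (nat_lit 336211) (nat_lit 13) (.e (nat_lit 393260) (nat_lit 21) (.e (nat_lit 409644) (nat_lit 18) (.e (nat_lit 303115) (nat_lit 1) .nil))))) .nil)))) (.nd (nat_lit 4) (.nd (nat_lit 5) 
(.lf (nat_lit 155214) (.g (nat_lit 3766) (.e (nat_lit 57409) (nat_lit 12) (.e (nat_lit 336456) (nat_lit 34) (.e (nat_lit 483406) (nat_lit 26) (.e (nat_lit 385066) (nat_lit 26) (.e (nat_lit 532504) (nat_lit 1) (.e (nat_lit 57854) (nat_lit 252) .nil)))))) (.g (nat_lit 0) .nil .nil))) 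
(.lf (nat_lit 155246) (.g (nat_lit 1558) (.e (nat_lit 57410) (nat_lit 12) (.e (nat_lit 336211) (nat_lit 13) (.e (nat_lit 393232) (nat_lit 17) (.e (nat_lit 7593) (nat_lit 407) (.e (nat_lit 73732) (nat_lit 0) .nil))))) .nil))) (.nd (nat_lit 5) 
(.lf (nat_lit 155230) (.g (nat_lit 2164) (.e (nat_lit 57410) (nat_lit 12) (.e (nat_lit 336019) (nat_lit 3) (.e (nat_lit 98372) (nat_lit 29) (.e (nat_lit 450579) (nat_lit 5) (.e (nat_lit 540416) (nat_lit 18) (.e (nat_lit 164182) (nat_lit 154) .nil)))))) (.g (nat_lit 4) .nil .nil))) 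
(.lf (nat_lit 155262) (.g (nat_lit 2373) (.e (nat_lit 57410) (nat_lit 12) (.e (nat_lit 336211) (nat_lit 13) (.e (nat_lit 393267) (nat_lit 23) (.e (nat_lit 426446) (nat_lit 20) (.e (nat_lit 114710) (nat_lit 21) (.e (nat_lit 57847) (nat_lit 252) .nil)))))) (.g (nat_lit 6) .nil .nil)))))))) (.nd (nat_lit 1) (.nd (nat_lit 2) (.nd (nat_lit 3) (.nd (nat_lit 4) (.nd (nat_lit 5) 
(.lf (nat_lit 155201) (.g (nat_lit 3527) (.e (nat_lit 57409) (nat_lit 12) (.e (nat_lit 336456) (nat_lit 34) (.e (nat_lit 483403) (nat_lit 26) (.e (nat_lit 385068) (nat_lit 26) (.e (nat_lit 532504) (nat_lit 1) (.e (nat_lit 57854) (nat_lit 252) .nil)))))) (.g (nat_lit 0) .nil .nil))) 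
(.lf (nat_lit 155233) (.g (nat_lit 1287) (.e (nat_lit 57410) (nat_lit 12) (.e (nat_lit 336019) (nat_lit 3) (.e (nat_lit 98374) (nat_lit 29) (.e (nat_lit 458496) (nat_lit 3) .nil)))) .nil))) (.nd (nat_lit 5) 
(.lf (nat_lit 155217) (.g (nat_lit 2241) (.e (nat_lit 57409) (nat_lit 12) (.e (nat_lit 336456) (nat_lit 34) (.e (nat_lit 483406) (nat_lit 26) (.e (nat_lit 385068) (nat_lit 26) (.e (nat_lit 532504) (nat_lit 1) (.e (nat_lit 57852) (nat_lit 252) .nil)))))) (.g (nat_lit 4) .nil .nil))) 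
(.lf (nat_lit 155249) (.g (nat_lit 2452) (.e (nat_lit 57410) (nat_lit 12) (.e (nat_lit 336211) (nat_lit 13) (.e (nat_lit 393234) (nat_lit 17) (.e (nat_lit 7593) (nat_lit 407) (.e (nat_lit 73729) (nat_lit 0) (.e (nat_lit 7261) (nat_lit 384) .nil)))))) (.g (nat_lit 5) .nil .nil))))) (.nd (nat_lit 4) (.nd (nat_lit 5) 
(.lf (nat_lit 155209) (.g (nat_lit 3219) (.e (nat_lit 57409) (nat_lit 12) (.e (nat_lit 336456) (nat_lit 34) (.e (nat_lit 483405) (nat_lit 26) (.e (nat_lit 385068) (nat_lit 26) (.e (nat_lit 532504) (nat_lit 1) (.e (nat_lit 57854) (nat_lit 252) .nil)))))) (.g (nat_lit 0) .nil .nil))) 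
(.lf (nat_lit 155241) (.g (nat_lit 2304) (.e (nat_lit 57410) (nat_lit 12) (.e (nat_lit 336053) (nat_lit 7) (.e (nat_lit 319534) (nat_lit 16) (.e (nat_lit 286756) (nat_lit 10) (.e (nat_lit 344097) (nat_lit 18) (.e (nat_lit 5194) (nat_lit 294) (.e (nat_lit 57367) (nat_lit 1) (.e (nat_lit 57847) (nat_lit 252) .nil)))))))) (.g (nat_lit 4) .nil .nil)))) (.nd (nat_lit 5) 
(.lf (nat_lit 155225) (.g (nat_lit 1628) (.e (nat_lit 57410) (nat_lit 12) (.e (nat_lit 336019) (nat_lit 3) (.e (nat_lit 98372) (nat_lit 29) (.e (nat_lit 458496) (nat_lit 3) .nil)))) .nil)) 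
(.lf (nat_lit 155257) (.g (nat_lit 2213) (.e (nat_lit 57410) (nat_lit 12) (.e (nat_lit 336211) (nat_lit 13) (.e (nat_lit 393260) (nat_lit 21) (.e (nat_lit 409649) (nat_lit 18) (.e (nat_lit 303114) (nat_lit 1) .nil))))) .nil))))) (.nd (nat_lit 3) (.nd (nat_lit 4) (.nd (nat_lit 5) 
(.lf (nat_lit 155205) (.g (nat_lit 2631) (.e (nat_lit 57409) (nat_lit 12) (.e (nat_lit 336456) (nat_lit 34) (.e (nat_lit 483404) (nat_lit 26) (.e (nat_lit 385068) (nat_lit 26) (.e (nat_lit 532504) (nat_lit 1) (.e (nat_lit 57854) (nat_lit 252) .nil)))))) (.g (nat_lit 5) .nil .nil))) 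
(.lf (nat_lit 155237) (.g (nat_lit 1858) (.e (nat_lit 57410) (nat_lit 12) (.e (nat_lit 336019) (nat_lit 3) (.e (nat_lit 98381) (nat_lit 31) (.e (nat_lit 466977) (nat_lit 22) (.e (nat_lit 196624) (nat_lit 9) .nil))))) .nil))) (.nd (nat_lit 5) 
(.lf (nat_lit 155221) (.g (nat_lit 2137) (.e (nat_lit 57410) (nat_lit 12) (.e (nat_lit 336016) (nat_lit 2) (.e (nat_lit 90176) (nat_lit 15) (.e (nat_lit 188450) (nat_lit 23) (.e (nat_lit 212736) (nat_lit 1) .nil))))) .nil)) 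
(.lf (nat_lit 155253) (.g (nat_lit 1680) (.e (nat_lit 57410) (nat_lit 12) (.e (nat_lit 336211) (nat_lit 13) (.e (nat_lit 393260) (nat_lit 21) (.e (nat_lit 409643) (nat_lit 18) (.e (nat_lit 303115) (nat_lit 1) .nil))))) .nil)))) (.nd (nat_lit 4) (.nd (nat_lit 5) 
(.lf (nat_lit 155213) (.g (nat_lit 3249) (.e (nat_lit 57409) (nat_lit 12) (.e (nat_lit 336456) (nat_lit 34) (.e (nat_lit 483406) (nat_lit 26) (.e (nat_lit 385066) (nat_lit 26) (.e (nat_lit 532504) (nat_lit 1) (.e (nat_lit 57852) (nat_lit 252) .nil)))))) (.g (nat_lit 5) .nil .nil))) 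
(.lf (nat_lit 155245) (.g (nat_lit 1703) (.e (nat_lit 57410) (nat_lit 12) (.e (nat_lit 336211) (nat_lit 13) (.e (nat_lit 393232) (nat_lit 17) (.e (nat_lit 7593) (nat_lit 407) (.e (nat_lit 73731) (nat_lit 0) (.e (nat_lit 7261) (nat_lit 384) .nil)))))) (.g (nat_lit 4) .nil .nil)))) (.nd (nat_lit 5) 
(.lf (nat_lit 155229) (.g (nat_lit 2140) (.e (nat_lit 57410) (nat_lit 12) (.e (nat_lit 336019) (nat_lit 3) (.e (nat_lit 98372) (nat_lit 29) (.e (nat_lit 450579) (nat_lit 5) (.e (nat_lit 540416) (nat_lit 18) .nil))))) .nil)) 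
(.lf (nat_lit 155261) (.g (nat_lit 1098) (.e (nat_lit 57410) (nat_lit 12) (.e (nat_lit 336211) (nat_lit 13) (.e (nat_lit 393265) (nat_lit 22) (.e (nat_lit 417820) (nat_lit 10) (.e (nat_lit 5761) (nat_lit 315) .nil))))) .nil)))))) (.nd (nat_lit 2) (.nd (nat_lit 3) (.nd (nat_lit 4) (.nd (nat_lit 5) 
(.lf (nat_lit 155203) (.g (nat_lit 1927) (.e (nat_lit 57409) (nat_lit 12) (.e (nat_lit 336456) (nat_lit 34) (.e (nat_lit 483404) (nat_lit 26) (.e (nat_lit 385066) (nat_lit 26) (.e (nat_lit 532504) (nat_lit 1) (.e (nat_lit 57854) (nat_lit 252) .nil)))))) (.g (nat_lit 4) .nil .nil))) 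
(.lf (nat_lit 155235) (.g (nat_lit 1080) (.e (nat_lit 57410) (nat_lit 12) (.e (nat_lit 336019) (nat_lit 3) (.e (nat_lit 98381) (nat_lit 31) (.e (nat_lit 466967) (nat_lit 20) .nil)))) .nil))) (.nd (nat_lit 5) 
(.lf (nat_lit 155219) (.g (nat_lit 1986) (.e (nat_lit 57409) (nat_lit 12) (.e (nat_lit 336456) (nat_lit 34) (.e (nat_lit 483407) (nat_lit 26) (.e (nat_lit 385068) (nat_lit 26) (.e (nat_lit 532501) (nat_lit 1) .nil))))) .nil)) 
(.lf (nat_lit 155251) (.g (nat_lit 1901) (.e (nat_lit 57410) (nat_lit 12) (.e (nat_lit 336211) (nat_lit 13) (.e (nat_lit 393234) (nat_lit 17) (.e (nat_lit 7593) (nat_lit 407) (.e (nat_lit 73731) (nat_lit 0) .nil))))) .nil)))) (.nd (nat_lit 4) (.nd (nat_lit 5) 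
(.lf (nat_lit 155211) (.g (nat_lit 3183) (.e (nat_lit 57409) (nat_lit 12) (.e (nat_lit 336456) (nat_lit 34) (.e (nat_lit 483406) (nat_lit 26) (.e (nat_lit 385066) (nat_lit 26) (.e (nat_lit 532501) (nat_lit 1) (.e (nat_lit 57852) (nat_lit 252) .nil)))))) (.g (nat_lit 5) .nil .nil))) 
(.lf (nat_lit 155243) (.g (nat_lit 1337) (.e (nat_lit 57410) (nat_lit 12) (.e (nat_lit 336211) (nat_lit 13) (.e (nat_lit 393231) (nat_lit 17) (.e (nat_lit 7593) (nat_lit 407) (.e (nat_lit 73730) (nat_lit 0) .nil))))) .nil))) (.nd (nat_lit 5) 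
(.lf (nat_lit 155227) (.g (nat_lit 3243) (.e (nat_lit 57410) (nat_lit 12) (.e (nat_lit 336019) (nat_lit 3) (.e (nat_lit 98372) (nat_lit 29) (.e (nat_lit 450579) (nat_lit 5) (.e (nat_lit 532501) (nat_lit 1) (.e (nat_lit 65280) (nat_lit 223) .nil)))))) (.g (nat_lit 5) .nil .nil))) 
(.lf (nat_lit 155259) (.g (nat_lit 1960) (.e (nat_lit 57410) (nat_lit 12) (.e (nat_lit 336211) (nat_lit 13) (.e (nat_lit 393260) (nat_lit 21) (.e (nat_lit 409649) (nat_lit 18) (.e (nat_lit 303115) (nat_lit 1) .nil))))) .nil))))) (.nd (nat_lit 3) (.nd (nat_lit 4) (.nd (nat_lit 5) 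
(.lf (nat_lit 155207) (.g (nat_lit 2504) (.e (nat_lit 57409) (nat_lit 12) (.e (nat_lit 336456) (nat_lit 34) (.e (nat_lit 483405) (nat_lit 26) (.e (nat_lit 385066) (nat_lit 26) (.e (nat_lit 532501) (nat_lit 1) (.e (nat_lit 57854) (nat_lit 252) .nil)))))) (.g (nat_lit 6) .nil .nil))) 
(.lf (nat_lit 155239) (.g (nat_lit 944) (.e (nat_lit 57410) (nat_lit 12) (.e (nat_lit 336019) (nat_lit 3) (.e (nat_lit 98381) (nat_lit 31) (.e (nat_lit 466981) (nat_lit 23) .nil)))) .nil))) (.nd (nat_lit 5) 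
(.lf (nat_lit 155223) (.g (nat_lit 1603) (.e (nat_lit 57410) (nat_lit 12) (.e (nat_lit 336019) (nat_lit 3) (.e (nat_lit 98358) (nat_lit 26) (.e (nat_lit 426294) (nat_lit 11) .nil)))) .nil)) 
(.lf (nat_lit 155255) (.g (nat_lit 1225) (.e (nat_lit 57410) (nat_lit 12) (.e (nat_lit 336211) (nat_lit 13) (.e (nat_lit 393260) (nat_lit 21) (.e (nat_lit 409645) (nat_lit 18) .nil)))) .nil)))) (.nd (nat_lit 4) (.nd (nat_lit 5) 
(.lf (nat_lit 155215) (.g (nat_lit 2477) (.e (nat_lit 57409) (nat_lit 12) (.e (nat_lit 336456) (nat_lit 34) (.e (nat_lit 483406) (nat_lit 26) (.e (nat_lit 385068) (nat_lit 26) (.e (nat_lit 532499) (nat_lit 1) (.e (nat_lit 57854) (nat_lit 252) .nil)))))) (.g (nat_lit 4) .nil .nil))) 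
(.lf (nat_lit 155247) (.g (nat_lit 1223) (.e (nat_lit 57410) (nat_lit 12) (.e (nat_lit 336211) (nat_lit 13) (.e (nat_lit 393233) (nat_lit 17) (.e (nat_lit 7593) (nat_lit 407) (.e (nat_lit 73732) (nat_lit 0) .nil))))) .nil))) (.nd (nat_lit 5) 
(.lf (nat_lit 155231) (.g (nat_lit 5043) (.e (nat_lit 57410) (nat_lit 12) (.e (nat_lit 336019) (nat_lit 3) (.e (nat_lit 98373) (nat_lit 29) (.e (nat_lit 450588) (nat_lit 10) (.e (nat_lit 573473) (nat_lit 12) .nil))))) .nil)) 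
(.lf (nat_lit 155263) (.g (nat_lit 1360) (.e (nat_lit 57410) (nat_lit 12) (.e (nat_lit 336211) (nat_lit 13) (.e (nat_lit 393267) (nat_lit 23) (.e (nat_lit 426446) (nat_lit 20) (.e (nat_lit 114710) (nat_lit 21) (.e (nat_lit 57848) (nat_lit 252) .nil)))))) (.g (nat_lit 4) .nil .nil)))))))))

noncomputable def tv2073 : DT := (.nd (nat_lit 0) (.nd (nat_lit 1) (.nd (nat_lit 2) (.nd (nat_lit 3) (.nd (nat_lit 4) (.nd (nat_lit 5) 
(.lf (nat_lit 155264) (.g (nat_lit 1932) (.e (nat_lit 57410) (nat_lit 12) (.e (nat_lit 336211) (nat_lit 13) (.e (nat_lit 393267) (nat_lit 23) (.e (nat_lit 426446) (nat_lit 20) (.e (nat_lit 114711) (nat_lit 21) (.e (nat_lit 57848) (nat_lit 252) .nil)))))) (.g (nat_lit 6) .nil .nil))) 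
(.lf (nat_lit 155296) (.g (nat_lit 1832) (.e (nat_lit 57410) (nat_lit 12) (.e (nat_lit 336211) (nat_lit 13) (.e (nat_lit 393271) (nat_lit 23) (.e (nat_lit 426354) (nat_lit 15) (.e (nat_lit 2198) (nat_lit 144) .nil))))) .nil))) (.nd (nat_lit 5) 
(.lf (nat_lit 155280) (.g (nat_lit 1542) (.e (nat_lit 57410) (nat_lit 12) (.e (nat_lit 336211) (nat_lit 13) (.e (nat_lit 393268) (nat_lit 23) (.e (nat_lit 426449) (nat_lit 20) (.e (nat_lit 114711) (nat_lit 21) (.e (nat_lit 57849) (nat_lit 252) .nil)))))) (.g (nat_lit 4) .nil .nil))) 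
(.lf (nat_lit 155312) (.g (nat_lit 2251) (.e (nat_lit 57410) (nat_lit 12) (.e (nat_lit 336211) (nat_lit 13) (.e (nat_lit 393273) (nat_lit 23) (.e (nat_lit 426448) (nat_lit 20) (.e (nat_lit 114711) (nat_lit 21) (.e (nat_lit 57848) (nat_lit 252) .nil)))))) (.g (nat_lit 5) .nil .nil))))) (.nd (nat_lit 4) (.nd (nat_lit 5) 
(.lf (nat_lit 155272) (.g (nat_lit 2716) (.e (nat_lit 57410) (nat_lit 12) (.e (nat_lit 336211) (nat_lit 13) (.e (nat_lit 393268) (nat_lit 23) (.e (nat_lit 426446) (nat_lit 20) (.e (nat_lit 114710) (nat_lit 21) (.e (nat_lit 57847) (nat_lit 252) .nil)))))) (.g (nat_lit 0) .nil .nil))) 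
(.lf (nat_lit 155304) (.g (nat_lit 2013) (.e (nat_lit 57410) (nat_lit 12) (.e (nat_lit 336211) (nat_lit 13) (.e (nat_lit 393272) (nat_lit 23) (.e (nat_lit 426446) (nat_lit 20) (.e (nat_lit 114711) (nat_lit 21) (.e (nat_lit 57848) (nat_lit 252) .nil)))))) (.g (nat_lit 6) .nil .nil)))) (.nd (nat_lit 5) 
(.lf (nat_lit 155288) (.g (nat_lit 2298) (.e (nat_lit 57410) (nat_lit 12) (.e (nat_lit 336211) (nat_lit 13) (.e (nat_lit 393269) (nat_lit 23) (.e (nat_lit 426448) (nat_lit 20) (.e (nat_lit 114711) (nat_lit 21) (.e (nat_lit 57849) (nat_lit 252) .nil)))))) (.g (nat_lit 6) .nil .nil))) 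
(.lf (nat_lit 155320) (.g (nat_lit 1347) (.e (nat_lit 57410) (nat_lit 12) (.e (nat_lit 336211) (nat_lit 13) (.e (nat_lit 393291) (nat_lit 26) (.e (nat_lit 475204) (nat_lit 40) .nil)))) .nil))))) (.nd (nat_lit 3) (.nd (nat_lit 4) (.nd (nat_lit 5) 
(.lf (nat_lit 155268) (.g (nat_lit 1260) (.e (nat_lit 57410) (nat_lit 12) (.e (nat_lit 336211) (nat_lit 13) (.e (nat_lit 393268) (nat_lit 23) (.e (nat_lit 426361) (nat_lit 15) .nil)))) .nil)) 
(.lf (nat_lit 155300) (.g (nat_lit 3635) (.e (nat_lit 57410) (nat_lit 12) (.e (nat_lit 336211) (nat_lit 13) (.e (nat_lit 393271) (nat_lit 23) (.e (nat_lit 426448) (nat_lit 20) (.e (nat_lit 114711) (nat_lit 21) (.e (nat_lit 57847) (nat_lit 252) .nil)))))) (.g (nat_lit 0) .nil .nil)))) (.nd (nat_lit 5) 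
(.lf (nat_lit 155284) (.g (nat_lit 1737) (.e (nat_lit 57410) (nat_lit 12) (.e (nat_lit 336211) (nat_lit 13) (.e (nat_lit 393269) (nat_lit 23) (.e (nat_lit 426446) (nat_lit 20) (.e (nat_lit 114711) (nat_lit 21) (.e (nat_lit 57848) (nat_lit 252) .nil)))))) (.g (nat_lit 5) .nil .nil))) 
(.lf (nat_lit 155316) (.g (nat_lit 348) (.e (nat_lit 57410) (nat_lit 12) (.e (nat_lit 336211) (nat_lit 13) (.e (nat_lit 393291) (nat_lit 26) .nil))) .nil)))) (.nd (nat_lit 4) (.nd (nat_lit 5) 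
(.lf (nat_lit 155276) (.g (nat_lit 2575) (.e (nat_lit 57410) (nat_lit 12) (.e (nat_lit 336211) (nat_lit 13) (.e (nat_lit 393268) (nat_lit 23) (.e (nat_lit 426448) (nat_lit 20) (.e (nat_lit 114710) (nat_lit 21) (.e (nat_lit 57848) (nat_lit 252) .nil)))))) (.g (nat_lit 6) .nil .nil))) 
(.lf (nat_lit 155308) (.g (nat_lit 1769) (.e (nat_lit 57410) (nat_lit 12) (.e (nat_lit 336211) (nat_lit 13) (.e (nat_lit 393273) (nat_lit 23) (.e (nat_lit 426364) (nat_lit 15) (.e (nat_lit 2191) (nat_lit 144) .nil))))) .nil))) (.nd (nat_lit 5) 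
(.lf (nat_lit 155292) (.g (nat_lit 3139) (.e (nat_lit 57410) (nat_lit 12) (.e (nat_lit 336211) (nat_lit 13) (.e (nat_lit 393270) (nat_lit 23) (.e (nat_lit 426448) (nat_lit 20) (.e (nat_lit 114711) (nat_lit 21) (.e (nat_lit 57847) (nat_lit 252) .nil)))))) (.g (nat_lit 0) .nil .nil))) 
(.lf (nat_lit 155324) (.g (nat_lit 1539) (.e (nat_lit 57410) (nat_lit 12) (.e (nat_lit 336211) (nat_lit 13) (.e (nat_lit 393291) (nat_lit 26) (.e (nat_lit 475212) (nat_lit 42) (.e (nat_lit 720933) (nat_lit 21) .nil))))) .nil)))))) (.nd (nat_lit 2) (.nd (nat_lit 3) (.nd (nat_lit 4) (.nd (nat_lit 5) 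
(.lf (nat_lit 155266) (.g (nat_lit 1598) (.e (nat_lit 57410) (nat_lit 12) (.e (nat_lit 336211) (nat_lit 13) (.e (nat_lit 393268) (nat_lit 23) (.e (nat_lit 426350) (nat_lit 15) .nil)))) .nil)) 
(.lf (nat_lit 155298) (.g (nat_lit 3215) (.e (nat_lit 57410) (nat_lit 12) (.e (nat_lit 336211) (nat_lit 13) (.e (nat_lit 393271) (nat_lit 23) (.e (nat_lit 426446) (nat_lit 20) (.e (nat_lit 114711) (nat_lit 21) (.e (nat_lit 57847) (nat_lit 252) .nil)))))) (.g (nat_lit 6) .nil .nil)))) (.nd (nat_lit 5) 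
(.lf (nat_lit 155282) (.g (nat_lit 2150) (.e (nat_lit 57410) (nat_lit 12) (.e (nat_lit 336211) (nat_lit 13) (.e (nat_lit 393268) (nat_lit 23) (.e (nat_lit 426467) (nat_lit 24) (.e (nat_lit 155667) (nat_lit 9) .nil))))) .nil)) 
(.lf (nat_lit 155314) (.g (nat_lit 396) (.e (nat_lit 57410) (nat_lit 12) (.e (nat_lit 336211) (nat_lit 13) (.e (nat_lit 393290) (nat_lit 26) .nil))) .nil)))) (.nd (nat_lit 4) (.nd (nat_lit 5) 
(.lf (nat_lit 155274) (.g (nat_lit 2186) (.e (nat_lit 57410) (nat_lit 12) (.e (nat_lit 336211) (nat_lit 13) (.e (nat_lit 393268) (nat_lit 23) (.e (nat_lit 426446) (nat_lit 20) (.e (nat_lit 114711) (nat_lit 21) (.e (nat_lit 57848) (nat_lit 252) .nil)))))) (.g (nat_lit 6) .nil .nil))) 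
(.lf (nat_lit 155306) (.g (nat_lit 1290) (.e (nat_lit 57410) (nat_lit 12) (.e (nat_lit 336211) (nat_lit 13) (.e (nat_lit 393273) (nat_lit 23) (.e (nat_lit 426354) (nat_lit 15) .nil)))) .nil))) (.nd (nat_lit 5) 
(.lf (nat_lit 155290) (.g (nat_lit 1950) (.e (nat_lit 57410) (nat_lit 12) (.e (nat_lit 336211) (nat_lit 13) (.e (nat_lit 393270) (nat_lit 23) (.e (nat_lit 426446) (nat_lit 20) (.e (nat_lit 114711) (nat_lit 21) (.e (nat_lit 57848) (nat_lit 252) .nil)))))) (.g (nat_lit 6) .nil .nil))) 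
(.lf (nat_lit 155322) (.g (nat_lit 1363) (.e (nat_lit 57410) (nat_lit 12) (.e (nat_lit 336211) (nat_lit 13) (.e (nat_lit 393291) (nat_lit 26) (.e (nat_lit 475206) (nat_lit 40) .nil)))) .nil))))) (.nd (nat_lit 3) (.nd (nat_lit 4) (.nd (nat_lit 5) 
(.lf (nat_lit 155270) (.g (nat_lit 1875) (.e (nat_lit 57410) (nat_lit 12) (.e (nat_lit 336211) (nat_lit 13) (.e (nat_lit 393268) (nat_lit 23) (.e (nat_lit 426440) (nat_lit 19) (.e (nat_lit 106515) (nat_lit 9) .nil))))) .nil)) 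
(.lf (nat_lit 155302) (.g (nat_lit 1523) (.e (nat_lit 57410) (nat_lit 12) (.e (nat_lit 336211) (nat_lit 13) (.e (nat_lit 393271) (nat_lit 23) (.e (nat_lit 433920) (nat_lit 20) .nil)))) .nil))) (.nd (nat_lit 5) 
(.lf (nat_lit 155286) (.g (nat_lit 1979) (.e (nat_lit 57410) (nat_lit 12) (.e (nat_lit 336211) (nat_lit 13) (.e (nat_lit 393269) (nat_lit 23) (.e (nat_lit 426448) (nat_lit 20) (.e (nat_lit 114710) (nat_lit 21) (.e (nat_lit 57848) (nat_lit 252) .nil)))))) (.g (nat_lit 5) .nil .nil))) 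
(.lf (nat_lit 155318) (.g (nat_lit 654) (.e (nat_lit 57410) (nat_lit 12) (.e (nat_lit 336211) (nat_lit 13) (.e (nat_lit 393291) (nat_lit 26) (.e (nat_lit 475201) (nat_lit 40) .nil)))) .nil)))) (.nd (nat_lit 4) (.nd (nat_lit 5) 
(.lf (nat_lit 155278) (.g (nat_lit 2525) (.e (nat_lit 57410) (nat_lit 12) (.e (nat_lit 336211) (nat_lit 13) (.e (nat_lit 393268) (nat_lit 23) (.e (nat_lit 426448) (nat_lit 20) (.e (nat_lit 114711) (nat_lit 21) (.e (nat_lit 57848) (nat_lit 252) .nil)))))) (.g (nat_lit 5) .nil .nil))) 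
(.lf (nat_lit 155310) (.g (nat_lit 2340) (.e (nat_lit 57410) (nat_lit 12) (.e (nat_lit 336211) (nat_lit 13) (.e (nat_lit 393273) (nat_lit 23) (.e (nat_lit 426448) (nat_lit 20) (.e (nat_lit 114710) (nat_lit 21) (.e (nat_lit 57848) (nat_lit 252) .nil)))))) (.g (nat_lit 6) .nil .nil)))) (.nd (nat_lit 5) 
(.lf (nat_lit 155294) (.g (nat_lit 1837) (.e (nat_lit 57410) (nat_lit 12) (.e (nat_lit 336211) (nat_lit 13) (.e (nat_lit 393271) (nat_lit 23) (.e (nat_lit 426354) (nat_lit 15) (.e (nat_lit 2192) (nat_lit 144) .nil))))) .nil)) 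
(.lf (nat_lit 155326) (.g (nat_lit 2478) (.e (nat_lit 57410) (nat_lit 12) (.e (nat_lit 336211) (nat_lit 13) (.e (nat_lit 393291) (nat_lit 26) (.e (nat_lit 475214) (nat_lit 42) (.e (nat_lit 720928) (nat_lit 21) .nil))))) .nil))))))) (.nd (nat_lit 1) (.nd (nat_lit 2) (.nd (nat_lit 3) (.nd (nat_lit 4) (.nd (nat_lit 5) 
(.lf (nat_lit 155265) (.g (nat_lit 340) (.e (nat_lit 57410) (nat_lit 12) (.e (nat_lit 336211) (nat_lit 13) (.e (nat_lit 393268) (nat_lit 23) .nil))) .nil)) 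
(.lf (nat_lit 155297) (.g (nat_lit 1934) (.e (nat_lit 57410) (nat_lit 12) (.e (nat_lit 336211) (nat_lit 13) (.e (nat_lit 393271) (nat_lit 23) (.e (nat_lit 426446) (nat_lit 20) (.e (nat_lit 114711) (nat_lit 21) .nil))))) .nil))) (.nd (nat_lit 5) 
(.lf (nat_lit 155281) (.g (nat_lit 1716) (.e (nat_lit 57410) (nat_lit 12) (.e (nat_lit 336211) (nat_lit 13) (.e (nat_lit 393268) (nat_lit 23) (.e (nat_lit 433920) (nat_lit 20) .nil)))) .nil)) 
(.lf (nat_lit 155313) (.g (nat_lit 1907) (.e (nat_lit 57410) (nat_lit 12) (.e (nat_lit 336211) (nat_lit 13) (.e (nat_lit 393273) (nat_lit 23) (.e (nat_lit 426449) (nat_lit 20) (.e (nat_lit 114710) (nat_lit 21) .nil))))) .nil)))) (.nd (nat_lit 4) (.nd (nat_lit 5) 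
(.lf (nat_lit 155273) (.g (nat_lit 2027) (.e (nat_lit 57410) (nat_lit 12) (.e (nat_lit 336211) (nat_lit 13) (.e (nat_lit 393268) (nat_lit 23) (.e (nat_lit 426446) (nat_lit 20) (.e (nat_lit 114710) (nat_lit 21) (.e (nat_lit 57849) (nat_lit 252) .nil)))))) (.g (nat_lit 5) .nil .nil))) 
(.lf (nat_lit 155305) (.g (nat_lit 3138) (.e (nat_lit 57410) (nat_lit 12) (.e (nat_lit 336211) (nat_lit 13) (.e (nat_lit 393272) (nat_lit 23) (.e (nat_lit 426448) (nat_lit 20) (.e (nat_lit 114711) (nat_lit 21) (.e (nat_lit 57847) (nat_lit 252) .nil)))))) (.g (nat_lit 0) .nil .nil)))) (.nd (nat_lit 5) 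
(.lf (nat_lit 155289) (.g (nat_lit 2595) (.e (nat_lit 57410) (nat_lit 12) (.e (nat_lit 336211) (nat_lit 13) (.e (nat_lit 393270) (nat_lit 23) (.e (nat_lit 426446) (nat_lit 20) (.e (nat_lit 114710) (nat_lit 21) (.e (nat_lit 57847) (nat_lit 252) .nil)))))) (.g (nat_lit 0) .nil .nil))) 
(.lf (nat_lit 155321) (.g (nat_lit 1691) (.e (nat_lit 57410) (nat_lit 12) (.e (nat_lit 336211) (nat_lit 13) (.e (nat_lit 393291) (nat_lit 26) (.e (nat_lit 475205) (nat_lit 40) (.e (nat_lit 704613) (nat_lit 9) .nil))))) .nil))))) (.nd (nat_lit 3) (.nd (nat_lit 4) (.nd (nat_lit 5) 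
(.lf (nat_lit 155269) (.g (nat_lit 1595) (.e (nat_lit 57410) (nat_lit 12) (.e (nat_lit 336211) (nat_lit 13) (.e (nat_lit 393268) (nat_lit 23) (.e (nat_lit 426361) (nat_lit 15) (.e (nat_lit 2195) (nat_lit 144) .nil))))) .nil)) 
(.lf (nat_lit 155301) (.g (nat_lit 2623) (.e (nat_lit 57410) (nat_lit 12) (.e (nat_lit 336211) (nat_lit 13) (.e (nat_lit 393271) (nat_lit 23) (.e (nat_lit 426448) (nat_lit 20) (.e (nat_lit 114711) (nat_lit 21) (.e (nat_lit 57848) (nat_lit 252) .nil)))))) (.g (nat_lit 5) .nil .nil)))) (.nd (nat_lit 5) 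
(.lf (nat_lit 155285) (.g (nat_lit 1801) (.e (nat_lit 57410) (nat_lit 12) (.e (nat_lit 336211) (nat_lit 13) (.e (nat_lit 393269) (nat_lit 23) (.e (nat_lit 426446) (nat_lit 20) (.e (nat_lit 114711) (nat_lit 21) (.e (nat_lit 57849) (nat_lit 252) .nil)))))) (.g (nat_lit 5) .nil .nil))) 
(.lf (nat_lit 155317) (.g (nat_lit 1454) (.e (nat_lit 57410) (nat_lit 12) (.e (nat_lit 336211) (nat_lit 13) (.e (nat_lit 393291) (nat_lit 26) (.e (nat_lit 475195) (nat_lit 40) .nil)))) .nil)))) (.nd (nat_lit 4) (.nd (nat_lit 5) 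
(.lf (nat_lit 155277) (.g (nat_lit 3547) (.e (nat_lit 57410) (nat_lit 12) (.e (nat_lit 336211) (nat_lit 13) (.e (nat_lit 393268) (nat_lit 23) (.e (nat_lit 426448) (nat_lit 20) (.e (nat_lit 114711) (nat_lit 21) (.e (nat_lit 57847) (nat_lit 252) .nil)))))) (.g (nat_lit 0) .nil .nil))) 
(.lf (nat_lit 155309) (.g (nat_lit 2448) (.e (nat_lit 57410) (nat_lit 12) (.e (nat_lit 336211) (nat_lit 13) (.e (nat_lit 393273) (nat_lit 23) (.e (nat_lit 426446) (nat_lit 20) (.e (nat_lit 114711) (nat_lit 21) (.e (nat_lit 57848) (nat_lit 252) .nil)))))) (.g (nat_lit 6) .nil .nil)))) (.nd (nat_lit 5) 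
(.lf (nat_lit 155293) (.g (nat_lit 965) (.e (nat_lit 57410) (nat_lit 12) (.e (nat_lit 336211) (nat_lit 13) (.e (nat_lit 393271) (nat_lit 23) (.e (nat_lit 426354) (nat_lit 15) .nil)))) .nil)) 
(.lf (nat_lit 155325) (.g (nat_lit 2915) (.e (nat_lit 57410) (nat_lit 12) (.e (nat_lit 336211) (nat_lit 13) (.e (nat_lit 393291) (nat_lit 26) (.e (nat_lit 475212) (nat_lit 42) (.e (nat_lit 720933) (nat_lit 21) (.e (nat_lit 57847) (nat_lit 252) .nil)))))) (.g (nat_lit 0) .nil .nil))))))) (.nd (nat_lit 2) (.nd (nat_lit 3) (.nd (nat_lit 4) (.nd (nat_lit 5) 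
(.lf (nat_lit 155267) (.g (nat_lit 1656) (.e (nat_lit 57410) (nat_lit 12) (.e (nat_lit 336211) (nat_lit 13) (.e (nat_lit 393268) (nat_lit 23) (.e (nat_lit 426354) (nat_lit 15) (.e (nat_lit 2198) (nat_lit 144) .nil))))) .nil)) 
(.lf (nat_lit 155299) (.g (nat_lit 2708) (.e (nat_lit 57410) (nat_lit 12) (.e (nat_lit 336211) (nat_lit 13) (.e (nat_lit 393271) (nat_lit 23) (.e (nat_lit 426448) (nat_lit 20) (.e (nat_lit 114710) (nat_lit 21) (.e (nat_lit 57848) (nat_lit 252) .nil)))))) (.g (nat_lit 6) .nil .nil)))) (.nd (nat_lit 5) 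
(.lf (nat_lit 155283) (.g (nat_lit 2261) (.e (nat_lit 57410) (nat_lit 12) (.e (nat_lit 336211) (nat_lit 13) (.e (nat_lit 393269) (nat_lit 23) (.e (nat_lit 426446) (nat_lit 20) (.e (nat_lit 114710) (nat_lit 21) (.e (nat_lit 57847) (nat_lit 252) .nil)))))) (.g (nat_lit 6) .nil .nil))) 
(.lf (nat_lit 155315) (.g (nat_lit 1803) (.e (nat_lit 57410) (nat_lit 12) (.e (nat_lit 336211) (nat_lit 13) (.e (nat_lit 393290) (nat_lit 26) (.e (nat_lit 475212) (nat_lit 42) (.e (nat_lit 720933) (nat_lit 21) (.e (nat_lit 57847) (nat_lit 252) .nil)))))) (.g (nat_lit 4) .nil .nil))))) (.nd (nat_lit 4) (.nd (nat_lit 5) 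
(.lf (nat_lit 155275) (.g (nat_lit 960) (.e (nat_lit 57410) (nat_lit 12) (.e (nat_lit 336211) (nat_lit 13) (.e (nat_lit 393268) (nat_lit 23) (.e (nat_lit 426448) (nat_lit 20) .nil)))) .nil)) 
(.lf (nat_lit 155307) (.g (nat_lit 1796) (.e (nat_lit 57410) (nat_lit 12) (.e (nat_lit 336211) (nat_lit 13) (.e (nat_lit 393273) (nat_lit 23) (.e (nat_lit 426364) (nat_lit 15) (.e (nat_lit 2184) (nat_lit 144) .nil))))) .nil))) (.nd (nat_lit 5) 
(.lf (nat_lit 155291) (.g (nat_lit 2150) (.e (nat_lit 57410) (nat_lit 12) (.e (nat_lit 336211) (nat_lit 13) (.e (nat_lit 393270) (nat_lit 23) (.e (nat_lit 426448) (nat_lit 20) (.e (nat_lit 114710) (nat_lit 21) (.e (nat_lit 57848) (nat_lit 252) .nil)))))) (.g (nat_lit 6) .nil .nil))) 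
(.lf (nat_lit 155323) (.g (nat_lit 2815) (.e (nat_lit 57410) (nat_lit 12) (.e (nat_lit 336211) (nat_lit 13) (.e (nat_lit 393291) (nat_lit 26) (.e (nat_lit 475212) (nat_lit 42) (.e (nat_lit 720929) (nat_lit 21) (.e (nat_lit 57847) (nat_lit 252) .nil)))))) (.g (nat_lit 0) .nil .nil)))))) (.nd (nat_lit 3) (.nd (nat_lit 4) (.nd (nat_lit 5) 
(.lf (nat_lit 155271) (.g (nat_lit 1192) (.e (nat_lit 57410) (nat_lit 12) (.e (nat_lit 336211) (nat_lit 13) (.e (nat_lit 393268) (nat_lit 23) (.e (nat_lit 426444) (nat_lit 19) (.e (nat_lit 106520) (nat_lit 9) .nil))))) .nil)) 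
(.lf (nat_lit 155303) (.g (nat_lit 2661) (.e (nat_lit 57410) (nat_lit 12) (.e (nat_lit 336211) (nat_lit 13) (.e (nat_lit 393272) (nat_lit 23) (.e (nat_lit 426446) (nat_lit 20) (.e (nat_lit 114710) (nat_lit 21) (.e (nat_lit 57847) (nat_lit 252) .nil)))))) (.g (nat_lit 0) .nil .nil)))) (.nd (nat_lit 5) 
(.lf (nat_lit 155287) (.g (nat_lit 2266) (.e (nat_lit 57410) (nat_lit 12) (.e (nat_lit 336211) (nat_lit 13) (.e (nat_lit 393269) (nat_lit 23) (.e (nat_lit 426448) (nat_lit 20) (.e (nat_lit 114710) (nat_lit 21) (.e (nat_lit 57849) (nat_lit 252) .nil)))))) (.g (nat_lit 6) .nil .nil))) 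
(.lf (nat_lit 155319) (.g (nat_lit 1394) (.e (nat_lit 57410) (nat_lit 12) (.e (nat_lit 336211) (nat_lit 13) (.e (nat_lit 393291) (nat_lit 26) (.e (nat_lit 475203) (nat_lit 40) .nil)))) .nil)))) (.nd (nat_lit 4) (.nd (nat_lit 5) 
(.lf (nat_lit 155279) (.g (nat_lit 1332) (.e (nat_lit 57410) (nat_lit 12) (.e (nat_lit 336211) (nat_lit 13) (.e (nat_lit 393268) (nat_lit 23) (.e (nat_lit 426448) (nat_lit 20) (.e (nat_lit 122624) (nat_lit 21) .nil))))) .nil)) 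
(.lf (nat_lit 155311) (.g (nat_lit 3288) (.e (nat_lit 57410) (nat_lit 12) (.e (nat_lit 336211) (nat_lit 13) (.e (nat_lit 393273) (nat_lit 23) (.e (nat_lit 426448) (nat_lit 20) (.e (nat_lit 114711) (nat_lit 21) (.e (nat_lit 57847) (nat_lit 252) .nil)))))) (.g (nat_lit 0) .nil .nil)))) (.nd (nat_lit 5) 
(.lf (nat_lit 155295) (.g (nat_lit 1833) (.e (nat_lit 57410) (nat_lit 12) (.e (nat_lit 336211) (nat_lit 13) (.e (nat_lit 393271) (nat_lit 23) (.e (nat_lit 426354) (nat_lit 15) (.e (nat_lit 2196) (nat_lit 144) .nil))))) .nil)) 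
(.lf (nat_lit 155327) (.g (nat_lit 2961) (.e (nat_lit 57410) (nat_lit 12) (.e (nat_lit 336211) (nat_lit 13) (.e (nat_lit 393291) (nat_lit 26) (.e (nat_lit 475214) (nat_lit 42) (.e (nat_lit 720929) (nat_lit 21) (.e (nat_lit 57847) (nat_lit 252) .nil)))))) (.g (nat_lit 0) .nil .nil)))))))))

noncomputable def tv2074 : DT := (.nd (nat_lit 0) (.nd (nat_lit 1) (.nd (nat_lit 2) (.nd (nat_lit 3) (.nd (nat_lit 4) (.nd (nat_lit 5) 
(.lf (nat_lit 155328) (.g (nat_lit 2735) (.e (nat_lit 57410) (nat_lit 12) (.e (nat_lit 336211) (nat_lit 13) (.e (nat_lit 393291) (nat_lit 26) (.e (nat_lit 475214) (nat_lit 42) (.e (nat_lit 720932) (nat_lit 21) (.e (nat_lit 57847) (nat_lit 252) .nil)))))) (.g (nat_lit 0) .nil .nil))) 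
(.lf (nat_lit 155360) (.g (nat_lit 2206) (.e (nat_lit 57410) (nat_lit 12) (.e (nat_lit 336211) (nat_lit 13) (.e (nat_lit 393297) (nat_lit 27) (.e (nat_lit 491566) (nat_lit 12) (.e (nat_lit 385045) (nat_lit 21) (.e (nat_lit 4525) (nat_lit 265) .nil)))))) (.g (nat_lit 4) .nil .nil)))) (.nd (nat_lit 5) 
(.lf (nat_lit 155344) (.g (nat_lit 2357) (.e (nat_lit 57410) (nat_lit 12) (.e (nat_lit 336211) (nat_lit 13) (.e (nat_lit 393294) (nat_lit 26) (.e (nat_lit 475214) (nat_lit 42) (.e (nat_lit 720932) (nat_lit 21) (.e (nat_lit 57849) (nat_lit 252) .nil)))))) (.g (nat_lit 6) .nil .nil))) 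
(.lf (nat_lit 155376) (.g (nat_lit 3320) (.e (nat_lit 57410) (nat_lit 12) (.e (nat_lit 336211) (nat_lit 13) (.e (nat_lit 393301) (nat_lit 27) (.e (nat_lit 491560) (nat_lit 10) (.e (nat_lit 344089) (nat_lit 18) .nil))))) .nil)))) (.nd (nat_lit 4) (.nd (nat_lit 5) 
(.lf (nat_lit 155336) (.g (nat_lit 2611) (.e (nat_lit 57410) (nat_lit 12) (.e (nat_lit 336211) (nat_lit 13) (.e (nat_lit 393293) (nat_lit 26) (.e (nat_lit 475214) (nat_lit 42) (.e (nat_lit 720929) (nat_lit 21) (.e (nat_lit 57847) (nat_lit 252) .nil)))))) (.g (nat_lit 0) .nil .nil))) 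
(.lf (nat_lit 155368) (.g (nat_lit 1914) (.e (nat_lit 57410) (nat_lit 12) (.e (nat_lit 336211) (nat_lit 13) (.e (nat_lit 393299) (nat_lit 27) (.e (nat_lit 491560) (nat_lit 10) (.e (nat_lit 344091) (nat_lit 18) (.e (nat_lit 7261) (nat_lit 384) .nil)))))) (.g (nat_lit 4) .nil .nil)))) (.nd (nat_lit 5) 
(.lf (nat_lit 155352) (.g (nat_lit 1573) (.e (nat_lit 57410) (nat_lit 12) (.e (nat_lit 336211) (nat_lit 13) (.e (nat_lit 393296) (nat_lit 26) (.e (nat_lit 475205) (nat_lit 40) (.e (nat_lit 704606) (nat_lit 9) .nil))))) .nil)) 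
(.lf (nat_lit 155384) (.g (nat_lit 503) (.e (nat_lit 57410) (nat_lit 12) (.e (nat_lit 336316) (nat_lit 17) (.e (nat_lit 196674) (nat_lit 15) .nil))) .nil))))) (.nd (nat_lit 3) (.nd (nat_lit 4) (.nd (nat_lit 5) 
(.lf (nat_lit 155332) (.g (nat_lit 2811) (.e (nat_lit 57410) (nat_lit 12) (.e (nat_lit 336211) (nat_lit 13) (.e (nat_lit 393292) (nat_lit 26) (.e (nat_lit 475212) (nat_lit 42) (.e (nat_lit 720933) (nat_lit 21) (.e (nat_lit 57847) (nat_lit 252) .nil)))))) (.g (nat_lit 0) .nil .nil))) 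
(.lf (nat_lit 155364) (.g (nat_lit 2167) (.e (nat_lit 57410) (nat_lit 12) (.e (nat_lit 336211) (nat_lit 13) (.e (nat_lit 393299) (nat_lit 27) (.e (nat_lit 491546) (nat_lit 9) (.e (nat_lit 335997) (nat_lit 1) .nil))))) .nil))) (.nd (nat_lit 5) 
(.lf (nat_lit 155348) (.g (nat_lit 2258) (.e (nat_lit 57410) (nat_lit 12) (.e (nat_lit 336211) (nat_lit 13) (.e (nat_lit 393295) (nat_lit 26) (.e (nat_lit 475214) (nat_lit 42) (.e (nat_lit 720933) (nat_lit 21) .nil))))) .nil)) 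
(.lf (nat_lit 155380) (.g (nat_lit 1847) (.e (nat_lit 57410) (nat_lit 12) (.e (nat_lit 336316) (nat_lit 17) (.e (nat_lit 196666) (nat_lit 13) (.e (nat_lit 65627) (nat_lit 13) (.e (nat_lit 393251) (nat_lit 18) .nil))))) .nil)))) (.nd (nat_lit 4) (.nd (nat_lit 5) 
(.lf (nat_lit 155340) (.g (nat_lit 2543) (.e (nat_lit 57410) (nat_lit 12) (.e (nat_lit 336211) (nat_lit 13) (.e (nat_lit 393294) (nat_lit 26) (.e (nat_lit 475212) (nat_lit 42) (.e (nat_lit 720933) (nat_lit 21) (.e (nat_lit 57847) (nat_lit 252) .nil)))))) (.g (nat_lit 5) .nil .nil))) 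
(.lf (nat_lit 155372) (.g (nat_lit 2048) (.e (nat_lit 57410) (nat_lit 12) (.e (nat_lit 336211) (nat_lit 13) (.e (nat_lit 393300) (nat_lit 27) (.e (nat_lit 491560) (nat_lit 10) (.e (nat_lit 344095) (nat_lit 18) (.e (nat_lit 7261) (nat_lit 384) .nil)))))) (.g (nat_lit 4) .nil .nil)))) (.nd (nat_lit 5) 
(.lf (nat_lit 155356) (.g (nat_lit 2191) (.e (nat_lit 57410) (nat_lit 12) (.e (nat_lit 336211) (nat_lit 13) (.e (nat_lit 393297) (nat_lit 27) (.e (nat_lit 491566) (nat_lit 12) (.e (nat_lit 385043) (nat_lit 21) .nil))))) .nil)) 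
(.lf (nat_lit 155388) (.g (nat_lit 1997) (.e (nat_lit 57410) (nat_lit 12) (.e (nat_lit 336324) (nat_lit 18) (.e (nat_lit 204854) (nat_lit 26) (.e (nat_lit 336211) (nat_lit 13) .nil)))) .nil)))))) (.nd (nat_lit 2) (.nd (nat_lit 3) (.nd (nat_lit 4) (.nd (nat_lit 5) 
(.lf (nat_lit 155330) (.g (nat_lit 3287) (.e (nat_lit 57410) (nat_lit 12) (.e (nat_lit 336211) (nat_lit 13) (.e (nat_lit 393291) (nat_lit 26) (.e (nat_lit 475214) (nat_lit 42) (.e (nat_lit 720933) (nat_lit 21) (.e (nat_lit 57847) (nat_lit 252) .nil)))))) (.g (nat_lit 0) .nil .nil))) 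
(.lf (nat_lit 155362) (.g (nat_lit 2388) (.e (nat_lit 57410) (nat_lit 12) (.e (nat_lit 336211) (nat_lit 13) (.e (nat_lit 393298) (nat_lit 27) (.e (nat_lit 491566) (nat_lit 12) (.e (nat_lit 385043) (nat_lit 21) .nil))))) .nil))) (.nd (nat_lit 5) 
(.lf (nat_lit 155346) (.g (nat_lit 1822) (.e (nat_lit 57410) (nat_lit 12) (.e (nat_lit 336211) (nat_lit 13) (.e (nat_lit 393295) (nat_lit 26) (.e (nat_lit 475212) (nat_lit 42) (.e (nat_lit 720929) (nat_lit 21) .nil))))) .nil)) 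
(.lf (nat_lit 155378) (.g (nat_lit 3468) (.e (nat_lit 57410) (nat_lit 12) (.e (nat_lit 336211) (nat_lit 13) (.e (nat_lit 393301) (nat_lit 27) (.e (nat_lit 491560) (nat_lit 10) (.e (nat_lit 344095) (nat_lit 18) .nil))))) .nil)))) (.nd (nat_lit 4) (.nd (nat_lit 5) 
(.lf (nat_lit 155338) (.g (nat_lit 2304) (.e (nat_lit 57410) (nat_lit 12) (.e (nat_lit 336211) (nat_lit 13) (.e (nat_lit 393294) (nat_lit 26) (.e (nat_lit 475212) (nat_lit 42) (.e (nat_lit 720929) (nat_lit 21) (.e (nat_lit 57847) (nat_lit 252) .nil)))))) (.g (nat_lit 4) .nil .nil))) 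
(.lf (nat_lit 155370) (.g (nat_lit 1833) (.e (nat_lit 57410) (nat_lit 12) (.e (nat_lit 336211) (nat_lit 13) (.e (nat_lit 393300) (nat_lit 27) (.e (nat_lit 491560) (nat_lit 10) (.e (nat_lit 344089) (nat_lit 18) .nil))))) .nil))) (.nd (nat_lit 5) 
(.lf (nat_lit 155354) (.g (nat_lit 1503) (.e (nat_lit 57410) (nat_lit 12) (.e (nat_lit 336211) (nat_lit 13) (.e (nat_lit 393296) (nat_lit 26) (.e (nat_lit 475213) (nat_lit 42) (.e (nat_lit 720929) (nat_lit 21) .nil))))) .nil)) 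
(.lf (nat_lit 155386) (.g (nat_lit 1195) (.e (nat_lit 57410) (nat_lit 12) (.e (nat_lit 336320) (nat_lit 17) (.e (nat_lit 196674) (nat_lit 15) (.e (nat_lit 81925) (nat_lit 11) .nil)))) .nil))))) (.nd (nat_lit 3) (.nd (nat_lit 4) (.nd (nat_lit 5) 
(.lf (nat_lit 155334) (.g (nat_lit 2502) (.e (nat_lit 57410) (nat_lit 12) (.e (nat_lit 336211) (nat_lit 13) (.e (nat_lit 393293) (nat_lit 26) (.e (nat_lit 475212) (nat_lit 42) (.e (nat_lit 720929) (nat_lit 21) (.e (nat_lit 57847) (nat_lit 252) .nil)))))) (.g (nat_lit 0) .nil .nil))) 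
(.lf (nat_lit 155366) (.g (nat_lit 2647) (.e (nat_lit 57410) (nat_lit 12) (.e (nat_lit 336211) (nat_lit 13) (.e (nat_lit 393299) (nat_lit 27) (.e (nat_lit 491558) (nat_lit 10) (.e (nat_lit 344096) (nat_lit 18) (.e (nat_lit 7261) (nat_lit 384) .nil)))))) (.g (nat_lit 5) .nil .nil)))) (.nd (nat_lit 5) 
(.lf (nat_lit 155350) (.g (nat_lit 1298) (.e (nat_lit 57410) (nat_lit 12) (.e (nat_lit 336211) (nat_lit 13) (.e (nat_lit 393296) (nat_lit 26) (.e (nat_lit 475196) (nat_lit 40) .nil)))) .nil)) 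
(.lf (nat_lit 155382) (.g (nat_lit 2017) (.e (nat_lit 57410) (nat_lit 12) (.e (nat_lit 336316) (nat_lit 17) (.e (nat_lit 196666) (nat_lit 13) (.e (nat_lit 65627) (nat_lit 13) (.e (nat_lit 393254) (nat_lit 18) .nil))))) .nil)))) (.nd (nat_lit 4) (.nd (nat_lit 5) 
(.lf (nat_lit 155342) (.g (nat_lit 3012) (.e (nat_lit 57410) (nat_lit 12) (.e (nat_lit 336211) (nat_lit 13) (.e (nat_lit 393294) (nat_lit 26) (.e (nat_lit 475214) (nat_lit 42) (.e (nat_lit 720929) (nat_lit 21) (.e (nat_lit 57847) (nat_lit 252) .nil)))))) (.g (nat_lit 0) .nil .nil))) 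
(.lf (nat_lit 155374) (.g (nat_lit 3095) (.e (nat_lit 57410) (nat_lit 12) (.e (nat_lit 336211) (nat_lit 13) (.e (nat_lit 393301) (nat_lit 27) (.e (nat_lit 491558) (nat_lit 10) (.e (nat_lit 344091) (nat_lit 18) (.e (nat_lit 7261) (nat_lit 384) .nil)))))) (.g (nat_lit 5) .nil .nil)))) (.nd (nat_lit 5) 
(.lf (nat_lit 155358) (.g (nat_lit 2615) (.e (nat_lit 57410) (nat_lit 12) (.e (nat_lit 336211) (nat_lit 13) (.e (nat_lit 393297) (nat_lit 27) (.e (nat_lit 491566) (nat_lit 12) (.e (nat_lit 385044) (nat_lit 21) .nil))))) .nil)) 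
(.lf (nat_lit 155390) (.g (nat_lit 2431) (.e (nat_lit 57410) (nat_lit 12) (.e (nat_lit 336324) (nat_lit 18) (.e (nat_lit 204854) (nat_lit 26) (.e (nat_lit 336211) (nat_lit 13) (.e (nat_lit 393252) (nat_lit 18) .nil))))) .nil))))))) (.nd (nat_lit 1) (.nd (nat_lit 2) (.nd (nat_lit 3) (.nd (nat_lit 4) (.nd (nat_lit 5) 
(.lf (nat_lit 155329) (.g (nat_lit 1811) (.e (nat_lit 57410) (nat_lit 12) (.e (nat_lit 336211) (nat_lit 13) (.e (nat_lit 393291) (nat_lit 26) (.e (nat_lit 475214) (nat_lit 42) (.e (nat_lit 720933) (nat_lit 21) .nil))))) .nil)) 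
(.lf (nat_lit 155361) (.g (nat_lit 1462) (.e (nat_lit 57410) (nat_lit 12) (.e (nat_lit 336211) (nat_lit 13) (.e (nat_lit 393298) (nat_lit 27) (.e (nat_lit 491560) (nat_lit 10) .nil)))) .nil))) (.nd (nat_lit 5) 
(.lf (nat_lit 155345) (.g (nat_lit 1912) (.e (nat_lit 57410) (nat_lit 12) (.e (nat_lit 336211) (nat_lit 13) (.e (nat_lit 393294) (nat_lit 26) (.e (nat_lit 475214) (nat_lit 42) (.e (nat_lit 720933) (nat_lit 21) (.e (nat_lit 57849) (nat_lit 252) .nil)))))) (.g (nat_lit 4) .nil .nil))) 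
(.lf (nat_lit 155377) (.g (nat_lit 3060) (.e (nat_lit 57410) (nat_lit 12) (.e (nat_lit 336211) (nat_lit 13) (.e (nat_lit 393301) (nat_lit 27) (.e (nat_lit 491560) (nat_lit 10) (.e (nat_lit 344091) (nat_lit 18) .nil))))) .nil)))) (.nd (nat_lit 4) (.nd (nat_lit 5) 
(.lf (nat_lit 155337) (.g (nat_lit 2210) (.e (nat_lit 57410) (nat_lit 12) (.e (nat_lit 336211) (nat_lit 13) (.e (nat_lit 393294) (nat_lit 26) (.e (nat_lit 475212) (nat_lit 42) (.e (nat_lit 720929) (nat_lit 21) .nil))))) .nil)) 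
(.lf (nat_lit 155369) (.g (nat_lit 1968) (.e (nat_lit 57410) (nat_lit 12) (.e (nat_lit 336211) (nat_lit 13) (.e (nat_lit 393299) (nat_lit 27) (.e (nat_lit 491560) (nat_lit 10) (.e (nat_lit 344094) (nat_lit 18) .nil))))) .nil))) (.nd (nat_lit 5) 
(.lf (nat_lit 155353) (.g (nat_lit 1845) (.e (nat_lit 57410) (nat_lit 12) (.e (nat_lit 336211) (nat_lit 13) (.e (nat_lit 393296) (nat_lit 26) (.e (nat_lit 475212) (nat_lit 42) (.e (nat_lit 720929) (nat_lit 21) .nil))))) .nil)) 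
(.lf (nat_lit 155385) (.g (nat_lit 1446) (.e (nat_lit 57410) (nat_lit 12) (.e (nat_lit 336316) (nat_lit 17) (.e (nat_lit 196681) (nat_lit 17) (.e (nat_lit 131127) (nat_lit 13) .nil)))) .nil))))) (.nd (nat_lit 3) (.nd (nat_lit 4) (.nd (nat_lit 5) 
(.lf (nat_lit 155333) (.g (nat_lit 1935) (.e (nat_lit 57410) (nat_lit 12) (.e (nat_lit 336211) (nat_lit 13) (.e (nat_lit 393292) (nat_lit 26) (.e (nat_lit 475214) (nat_lit 42) (.e (nat_lit 720932) (nat_lit 21) .nil))))) .nil)) 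
(.lf (nat_lit 155365) (.g (nat_lit 2555) (.e (nat_lit 57410) (nat_lit 12) (.e (nat_lit 336211) (nat_lit 13) (.e (nat_lit 393299) (nat_lit 27) (.e (nat_lit 491558) (nat_lit 10) (.e (nat_lit 344091) (nat_lit 18) (.e (nat_lit 7261) (nat_lit 384) .nil)))))) (.g (nat_lit 5) .nil .nil)))) (.nd (nat_lit 5) 
(.lf (nat_lit 155349) (.g (nat_lit 1361) (.e (nat_lit 57410) (nat_lit 12) (.e (nat_lit 336211) (nat_lit 13) (.e (nat_lit 393296) (nat_lit 26) (.e (nat_lit 475195) (nat_lit 40) .nil)))) .nil)) 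
(.lf (nat_lit 155381) (.g (nat_lit 1994) (.e (nat_lit 57410) (nat_lit 12) (.e (nat_lit 336316) (nat_lit 17) (.e (nat_lit 196666) (nat_lit 13) (.e (nat_lit 65627) (nat_lit 13) (.e (nat_lit 393253) (nat_lit 18) .nil))))) .nil)))) (.nd (nat_lit 4) (.nd (nat_lit 5) 
(.lf (nat_lit 155341) (.g (nat_lit 2242) (.e (nat_lit 57410) (nat_lit 12) (.e (nat_lit 336211) (nat_lit 13) (.e (nat_lit 393294) (nat_lit 26) (.e (nat_lit 475213) (nat_lit 42) (.e (nat_lit 720929) (nat_lit 21) (.e (nat_lit 57847) (nat_lit 252) .nil)))))) (.g (nat_lit 4) .nil .nil))) 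
(.lf (nat_lit 155373) (.g (nat_lit 2383) (.e (nat_lit 57410) (nat_lit 12) (.e (nat_lit 336211) (nat_lit 13) (.e (nat_lit 393300) (nat_lit 27) (.e (nat_lit 491560) (nat_lit 10) (.e (nat_lit 344096) (nat_lit 18) (.e (nat_lit 7261) (nat_lit 384) .nil)))))) (.g (nat_lit 5) .nil .nil)))) (.nd (nat_lit 5) 
(.lf (nat_lit 155357) (.g (nat_lit 2371) (.e (nat_lit 57410) (nat_lit 12) (.e (nat_lit 336211) (nat_lit 13) (.e (nat_lit 393297) (nat_lit 27) (.e (nat_lit 491566) (nat_lit 12) (.e (nat_lit 385043) (nat_lit 21) (.e (nat_lit 4525) (nat_lit 265) .nil)))))) (.g (nat_lit 4) .nil .nil))) 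
(.lf (nat_lit 155389) (.g (nat_lit 2479) (.e (nat_lit 57410) (nat_lit 12) (.e (nat_lit 336324) (nat_lit 18) (.e (nat_lit 204854) (nat_lit 26) (.e (nat_lit 336211) (nat_lit 13) (.e (nat_lit 393251) (nat_lit 18) .nil))))) .nil)))))) (.nd (nat_lit 2) (.nd (nat_lit 3) (.nd (nat_lit 4) (.nd (nat_lit 5) 
(.lf (nat_lit 155331) (.g (nat_lit 1376) (.e (nat_lit 57410) (nat_lit 12) (.e (nat_lit 336211) (nat_lit 13) (.e (nat_lit 393292) (nat_lit 26) (.e (nat_lit 475212) (nat_lit 42) (.e (nat_lit 720933) (nat_lit 21) .nil))))) .nil)) 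
(.lf (nat_lit 155363) (.g (nat_lit 2306) (.e (nat_lit 57410) (nat_lit 12) (.e (nat_lit 336211) (nat_lit 13) (.e (nat_lit 393298) (nat_lit 27) (.e (nat_lit 491566) (nat_lit 12) (.e (nat_lit 385045) (nat_lit 21) .nil))))) .nil))) (.nd (nat_lit 5) 
(.lf (nat_lit 155347) (.g (nat_lit 1775) (.e (nat_lit 57410) (nat_lit 12) (.e (nat_lit 336211) (nat_lit 13) (.e (nat_lit 393295) (nat_lit 26) (.e (nat_lit 475214) (nat_lit 42) (.e (nat_lit 720929) (nat_lit 21) .nil))))) .nil)) 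
(.lf (nat_lit 155379) (.g (nat_lit 2102) (.e (nat_lit 57410) (nat_lit 12) (.e (nat_lit 336316) (nat_lit 17) (.e (nat_lit 196666) (nat_lit 13) (.e (nat_lit 65626) (nat_lit 13) (.e (nat_lit 393251) (nat_lit 18) .nil))))) .nil)))) (.nd (nat_lit 4) (.nd (nat_lit 5) 
(.lf (nat_lit 155339) (.g (nat_lit 2086) (.e (nat_lit 57410) (nat_lit 12) (.e (nat_lit 336211) (nat_lit 13) (.e (nat_lit 393294) (nat_lit 26) (.e (nat_lit 475212) (nat_lit 42) (.e (nat_lit 720933) (nat_lit 21) .nil))))) .nil)) 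
(.lf (nat_lit 155371) (.g (nat_lit 2155) (.e (nat_lit 57410) (nat_lit 12) (.e (nat_lit 336211) (nat_lit 13) (.e (nat_lit 393300) (nat_lit 27) (.e (nat_lit 491560) (nat_lit 10) (.e (nat_lit 344091) (nat_lit 18) (.e (nat_lit 7261) (nat_lit 384) .nil)))))) (.g (nat_lit 5) .nil .nil)))) (.nd (nat_lit 5) 
(.lf (nat_lit 155355) (.g (nat_lit 2647) (.e (nat_lit 57410) (nat_lit 12) (.e (nat_lit 336211) (nat_lit 13) (.e (nat_lit 393296) (nat_lit 26) (.e (nat_lit 475214) (nat_lit 42) (.e (nat_lit 720929) (nat_lit 21) (.e (nat_lit 57847) (nat_lit 252) .nil)))))) (.g (nat_lit 0) .nil .nil))) 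
(.lf (nat_lit 155387) (.g (nat_lit 970) (.e (nat_lit 57410) (nat_lit 12) (.e (nat_lit 336324) (nat_lit 18) (.e (nat_lit 204850) (nat_lit 26) .nil))) .nil))))) (.nd (nat_lit 3) (.nd (nat_lit 4) (.nd (nat_lit 5) 
(.lf (nat_lit 155335) (.g (nat_lit 2589) (.e (nat_lit 57410) (nat_lit 12) (.e (nat_lit 336211) (nat_lit 13) (.e (nat_lit 393293) (nat_lit 26) (.e (nat_lit 475212) (nat_lit 42) (.e (nat_lit 720933) (nat_lit 21) (.e (nat_lit 57847) (nat_lit 252) .nil)))))) (.g (nat_lit 0) .nil .nil))) 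
(.lf (nat_lit 155367) (.g (nat_lit 2361) (.e (nat_lit 57410) (nat_lit 12) (.e (nat_lit 336211) (nat_lit 13) (.e (nat_lit 393299) (nat_lit 27) (.e (nat_lit 491560) (nat_lit 10) (.e (nat_lit 344090) (nat_lit 18) (.e (nat_lit 7261) (nat_lit 384) .nil)))))) (.g (nat_lit 5) .nil .nil)))) (.nd (nat_lit 5) 
(.lf (nat_lit 155351) (.g (nat_lit 1361) (.e (nat_lit 57410) (nat_lit 12) (.e (nat_lit 336211) (nat_lit 13) (.e (nat_lit 393296) (nat_lit 26) (.e (nat_lit 475205) (nat_lit 40) .nil)))) .nil)) 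
(.lf (nat_lit 155383) (.g (nat_lit 2020) (.e (nat_lit 57410) (nat_lit 12) (.e (nat_lit 336316) (nat_lit 17) (.e (nat_lit 196672) (nat_lit 15) (.e (nat_lit 81927) (nat_lit 11) (.e (nat_lit 426098) (nat_lit 1) (.e (nat_lit 164183) (nat_lit 154) .nil)))))) (.g (nat_lit 5) .nil .nil))))) (.nd (nat_lit 4) (.nd (nat_lit 5) 
(.lf (nat_lit 155343) (.g (nat_lit 2532) (.e (nat_lit 57410) (nat_lit 12) (.e (nat_lit 336211) (nat_lit 13) (.e (nat_lit 393294) (nat_lit 26) (.e (nat_lit 475214) (nat_lit 42) (.e (nat_lit 720929) (nat_lit 21) (.e (nat_lit 57849) (nat_lit 252) .nil)))))) (.g (nat_lit 0) .nil .nil))) 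
(.lf (nat_lit 155375) (.g (nat_lit 3208) (.e (nat_lit 57410) (nat_lit 12) (.e (nat_lit 336211) (nat_lit 13) (.e (nat_lit 393301) (nat_lit 27) (.e (nat_lit 491558) (nat_lit 10) (.e (nat_lit 344096) (nat_lit 18) (.e (nat_lit 7261) (nat_lit 384) .nil)))))) (.g (nat_lit 5) .nil .nil)))) (.nd (nat_lit 5) 
(.lf (nat_lit 155359) (.g (nat_lit 2179) (.e (nat_lit 57410) (nat_lit 12) (.e (nat_lit 336211) (nat_lit 13) (.e (nat_lit 393297) (nat_lit 27) (.e (nat_lit 491566) (nat_lit 12) (.e (nat_lit 385045) (nat_lit 21) .nil))))) .nil)) 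
(.lf (nat_lit 155391) (.g (nat_lit 2461) (.e (nat_lit 57410) (nat_lit 12) (.e (nat_lit 336324) (nat_lit 18) (.e (nat_lit 204854) (nat_lit 26) (.e (nat_lit 336211) (nat_lit 13) (.e (nat_lit 393253) (nat_lit 18) (.e (nat_lit 164183) (nat_lit 154) .nil)))))) (.g (nat_lit 4) .nil .nil)))))))))

noncomputable def tv2075 : DT := (.nd (nat_lit 0) (.nd (nat_lit 1) (.nd (nat_lit 2) (.nd (nat_lit 3) (.nd (nat_lit 4) (.nd (nat_lit 5) 
(.lf (nat_lit 155392) (.g (nat_lit 2480) (.e (nat_lit 57410) (nat_lit 12) (.e (nat_lit 336324) (nat_lit 18) (.e (nat_lit 204854) (nat_lit 26) (.e (nat_lit 336211) (nat_lit 13) (.e (nat_lit 393254) (nat_lit 18) .nil))))) .nil)) 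
(.lf (nat_lit 155424) (.g (nat_lit 2913) (.e (nat_lit 57410) (nat_lit 12) (.e (nat_lit 336369) (nat_lit 27) (.e (nat_lit 426499) (nat_lit 27) (.e (nat_lit 336196) (nat_lit 12) (.e (nat_lit 385068) (nat_lit 26) .nil))))) .nil))) (.nd (nat_lit 5) 
(.lf (nat_lit 155408) (.g (nat_lit 2597) (.e (nat_lit 57410) (nat_lit 12) (.e (nat_lit 336326) (nat_lit 18) (.e (nat_lit 204854) (nat_lit 26) (.e (nat_lit 336211) (nat_lit 13) (.e (nat_lit 393254) (nat_lit 18) (.e (nat_lit 164183) (nat_lit 154) .nil)))))) (.g (nat_lit 6) .nil .nil))) 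
(.lf (nat_lit 155440) (.g (nat_lit 2286) (.e (nat_lit 57410) (nat_lit 12) (.e (nat_lit 336454) (nat_lit 34) (.e (nat_lit 483406) (nat_lit 26) (.e (nat_lit 385066) (nat_lit 26) (.e (nat_lit 532502) (nat_lit 1) .nil))))) .nil)))) (.nd (nat_lit 4) (.nd (nat_lit 5) 
(.lf (nat_lit 155400) (.g (nat_lit 1948) (.e (nat_lit 57410) (nat_lit 12) (.e (nat_lit 336324) (nat_lit 18) (.e (nat_lit 204876) (nat_lit 31) (.e (nat_lit 376842) (nat_lit 11) (.e (nat_lit 426100) (nat_lit 1) (.e (nat_lit 164183) (nat_lit 154) .nil)))))) (.g (nat_lit 4) .nil .nil))) 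
(.lf (nat_lit 155432) (.g (nat_lit 1774) (.e (nat_lit 57410) (nat_lit 12) (.e (nat_lit 336443) (nat_lit 32) (.e (nat_lit 466981) (nat_lit 23) (.e (nat_lit 204809) (nat_lit 9) (.e (nat_lit 426099) (nat_lit 1) (.e (nat_lit 164399) (nat_lit 256) .nil)))))) (.g (nat_lit 4) .nil .nil)))) (.nd (nat_lit 5) 
(.lf (nat_lit 155416) (.g (nat_lit 2517) (.e (nat_lit 57410) (nat_lit 12) (.e (nat_lit 336326) (nat_lit 18) (.e (nat_lit 204876) (nat_lit 31) (.e (nat_lit 376842) (nat_lit 11) (.e (nat_lit 426108) (nat_lit 1) (.e (nat_lit 164183) (nat_lit 154) .nil)))))) (.g (nat_lit 6) .nil .nil))) 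
(.lf (nat_lit 155448) (.g (nat_lit 2649) (.e (nat_lit 57411) (nat_lit 12) (.e (nat_lit 336016) (nat_lit 2) (.e (nat_lit 90176) (nat_lit 15) (.e (nat_lit 188450) (nat_lit 23) (.e (nat_lit 204821) (nat_lit 17) (.e (nat_lit 7936) (nat_lit 81) (.e (nat_lit 4527) (nat_lit 265) .nil))))))) (.g (nat_lit 4) .nil .nil)))))) (.nd (nat_lit 3) (.nd (nat_lit 4) (.nd (nat_lit 5) 
(.lf (nat_lit 155396) (.g (nat_lit 1730) (.e (nat_lit 57410) (nat_lit 12) (.e (nat_lit 336324) (nat_lit 18) (.e (nat_lit 204866) (nat_lit 28) (.e (nat_lit 352277) (nat_lit 11) .nil)))) .nil)) 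
(.lf (nat_lit 155428) (.g (nat_lit 1751) (.e (nat_lit 57410) (nat_lit 12) (.e (nat_lit 336443) (nat_lit 32) (.e (nat_lit 466977) (nat_lit 22) (.e (nat_lit 196653) (nat_lit 11) .nil)))) .nil))) (.nd (nat_lit 5) 
(.lf (nat_lit 155412) (.g (nat_lit 1606) (.e (nat_lit 57410) (nat_lit 12) (.e (nat_lit 336326) (nat_lit 18) (.e (nat_lit 204866) (nat_lit 28) (.e (nat_lit 352277) (nat_lit 11) (.e (nat_lit 426098) (nat_lit 1) (.e (nat_lit 164182) (nat_lit 154) .nil)))))) (.g (nat_lit 4) .nil .nil))) 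
(.lf (nat_lit 155444) (.g (nat_lit 1391) (.e (nat_lit 57410) (nat_lit 12) (.e (nat_lit 336454) (nat_lit 34) (.e (nat_lit 483408) (nat_lit 26) (.e (nat_lit 385067) (nat_lit 26) .nil)))) .nil)))) (.nd (nat_lit 4) (.nd (nat_lit 5) 
(.lf (nat_lit 155404) (.g (nat_lit 2017) (.e (nat_lit 57410) (nat_lit 12) (.e (nat_lit 336324) (nat_lit 18) (.e (nat_lit 204877) (nat_lit 31) (.e (nat_lit 376842) (nat_lit 11) (.e (nat_lit 426100) (nat_lit 1) (.e (nat_lit 164183) (nat_lit 154) .nil)))))) (.g (nat_lit 4) .nil .nil))) 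
(.lf (nat_lit 155436) (.g (nat_lit 2932) (.e (nat_lit 57410) (nat_lit 12) (.e (nat_lit 336454) (nat_lit 34) (.e (nat_lit 483403) (nat_lit 26) (.e (nat_lit 385066) (nat_lit 26) (.e (nat_lit 532503) (nat_lit 1) (.e (nat_lit 57847) (nat_lit 252) .nil)))))) (.g (nat_lit 6) .nil .nil)))) (.nd (nat_lit 5) 
(.lf (nat_lit 155420) (.g (nat_lit 1335) (.e (nat_lit 57410) (nat_lit 12) (.e (nat_lit 336366) (nat_lit 27) (.e (nat_lit 426555) (nat_lit 32) (.e (nat_lit 376867) (nat_lit 23) (.e (nat_lit 98334) (nat_lit 18) (.e (nat_lit 164183) (nat_lit 154) .nil)))))) (.g (nat_lit 4) .nil .nil))) 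
(.lf (nat_lit 155452) (.g (nat_lit 2921) (.e (nat_lit 57411) (nat_lit 12) (.e (nat_lit 336019) (nat_lit 3) (.e (nat_lit 98342) (nat_lit 20) (.e (nat_lit 221207) (nat_lit 21) (.e (nat_lit 164242) (nat_lit 195) (.e (nat_lit 2638) (nat_lit 165) (.e (nat_lit 180229) (nat_lit 0) (.e (nat_lit 6400) (nat_lit 339) .nil)))))))) (.g (nat_lit 4) .nil .nil))))))) 
(.nd (nat_lit 2) (.nd (nat_lit 3) (.nd (nat_lit 4) (.nd (nat_lit 5) 
(.lf (nat_lit 155394) (.g (nat_lit 975) (.e (nat_lit 57410) (nat_lit 12) (.e (nat_lit 336324) (nat_lit 18) (.e (nat_lit 204859) (nat_lit 26) .nil))) .nil)) 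
(.lf (nat_lit 155426) (.g (nat_lit 1818) (.e (nat_lit 57410) (nat_lit 12) (.e (nat_lit 336431) (nat_lit 29) (.e (nat_lit 442427) (nat_lit 23) (.e (nat_lit 204813) (nat_lit 9) (.e (nat_lit 426100) (nat_lit 1) .nil))))) .nil))) (.nd (nat_lit 5) 
(.lf (nat_lit 155410) (.g (nat_lit 2280) (.e (nat_lit 57410) (nat_lit 12) (.e (nat_lit 336326) (nat_lit 18) (.e (nat_lit 204865) (nat_lit 28) (.e (nat_lit 352277) (nat_lit 11) (.e (nat_lit 426098) (nat_lit 1) (.e (nat_lit 164183) (nat_lit 154) .nil)))))) (.g (nat_lit 6) .nil .nil))) 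
(.lf (nat_lit 155442) (.g (nat_lit 1708) (.e (nat_lit 57410) (nat_lit 12) (.e (nat_lit 336454) (nat_lit 34) (.e (nat_lit 483406) (nat_lit 26) (.e (nat_lit 385068) (nat_lit 26) .nil)))) .nil)))) (.nd (nat_lit 4) (.nd (nat_lit 5) 
(.lf (nat_lit 155402) (.g (nat_lit 842) (.e (nat_lit 57410) (nat_lit 12) (.e (nat_lit 336324) (nat_lit 18) (.e (nat_lit 204877) (nat_lit 31) .nil))) .nil)) 
(.lf (nat_lit 155434) (.g (nat_lit 1937) (.e (nat_lit 57410) (nat_lit 12) (.e (nat_lit 336454) (nat_lit 34) (.e (nat_lit 483403) (nat_lit 26) (.e (nat_lit 385066) (nat_lit 26) (.e (nat_lit 532502) (nat_lit 1) .nil))))) .nil))) (.nd (nat_lit 5) 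
(.lf (nat_lit 155418) (.g (nat_lit 1774) (.e (nat_lit 57410) (nat_lit 12) (.e (nat_lit 336326) (nat_lit 18) (.e (nat_lit 204877) (nat_lit 31) (.e (nat_lit 376842) (nat_lit 11) (.e (nat_lit 426099) (nat_lit 1) (.e (nat_lit 164183) (nat_lit 154) .nil)))))) (.g (nat_lit 4) .nil .nil))) 
(.lf (nat_lit 155450) (.g (nat_lit 2462) (.e (nat_lit 57411) (nat_lit 12) (.e (nat_lit 336016) (nat_lit 2) (.e (nat_lit 90176) (nat_lit 15) (.e (nat_lit 188452) (nat_lit 23) (.e (nat_lit 212736) (nat_lit 1) (.e (nat_lit 164182) (nat_lit 154) .nil)))))) (.g (nat_lit 4) .nil .nil)))))) (.nd (nat_lit 3) (.nd (nat_lit 4) (.nd (nat_lit 5) 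
(.lf (nat_lit 155398) (.g (nat_lit 1291) (.e (nat_lit 57410) (nat_lit 12) (.e (nat_lit 336324) (nat_lit 18) (.e (nat_lit 204876) (nat_lit 31) (.e (nat_lit 376842) (nat_lit 11) .nil)))) .nil)) 
(.lf (nat_lit 155430) (.g (nat_lit 2554) (.e (nat_lit 57410) (nat_lit 12) (.e (nat_lit 336443) (nat_lit 32) (.e (nat_lit 466979) (nat_lit 23) (.e (nat_lit 204809) (nat_lit 9) (.e (nat_lit 426098) (nat_lit 1) (.e (nat_lit 164398) (nat_lit 256) .nil)))))) (.g (nat_lit 6) .nil .nil)))) (.nd (nat_lit 5) 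
(.lf (nat_lit 155414) (.g (nat_lit 1453) (.e (nat_lit 57410) (nat_lit 12) (.e (nat_lit 336326) (nat_lit 18) (.e (nat_lit 204866) (nat_lit 28) (.e (nat_lit 352278) (nat_lit 11) .nil)))) .nil)) 
(.lf (nat_lit 155446) (.g (nat_lit 2700) (.e (nat_lit 57411) (nat_lit 12) (.e (nat_lit 336016) (nat_lit 2) (.e (nat_lit 90176) (nat_lit 15) (.e (nat_lit 188450) (nat_lit 23) (.e (nat_lit 212736) (nat_lit 1) (.e (nat_lit 164183) (nat_lit 154) .nil)))))) (.g (nat_lit 4) .nil .nil))))) (.nd (nat_lit 4) (.nd (nat_lit 5) 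
(.lf (nat_lit 155406) (.g (nat_lit 2027) (.e (nat_lit 57410) (nat_lit 12) (.e (nat_lit 336324) (nat_lit 18) (.e (nat_lit 204877) (nat_lit 31) (.e (nat_lit 376842) (nat_lit 11) (.e (nat_lit 426108) (nat_lit 1) (.e (nat_lit 164183) (nat_lit 154) .nil)))))) (.g (nat_lit 4) .nil .nil))) 
(.lf (nat_lit 155438) (.g (nat_lit 3412) (.e (nat_lit 57410) (nat_lit 12) (.e (nat_lit 336454) (nat_lit 34) (.e (nat_lit 483405) (nat_lit 26) (.e (nat_lit 385066) (nat_lit 26) (.e (nat_lit 532499) (nat_lit 1) (.e (nat_lit 57847) (nat_lit 252) .nil)))))) (.g (nat_lit 6) .nil .nil)))) (.nd (nat_lit 5) 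
(.lf (nat_lit 155422) (.g (nat_lit 1526) (.e (nat_lit 57410) (nat_lit 12) (.e (nat_lit 336366) (nat_lit 27) (.e (nat_lit 426555) (nat_lit 32) (.e (nat_lit 376869) (nat_lit 23) (.e (nat_lit 98334) (nat_lit 18) (.e (nat_lit 164182) (nat_lit 154) .nil)))))) (.g (nat_lit 4) .nil .nil))) 
(.lf (nat_lit 155454) (.g (nat_lit 2831) (.e (nat_lit 57411) (nat_lit 12) (.e (nat_lit 336019) (nat_lit 3) (.e (nat_lit 98342) (nat_lit 20) (.e (nat_lit 221207) (nat_lit 21) (.e (nat_lit 164243) (nat_lit 195) (.e (nat_lit 2638) (nat_lit 165) (.e (nat_lit 180229) (nat_lit 0) (.e (nat_lit 6400) (nat_lit 339) .nil)))))))) (.g (nat_lit 4) .nil .nil)))))))) 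
(.nd (nat_lit 1) (.nd (nat_lit 2) (.nd (nat_lit 3) (.nd (nat_lit 4) (.nd (nat_lit 5) 
(.lf (nat_lit 155393) (.g (nat_lit 1955) (.e (nat_lit 57410) (nat_lit 12) (.e (nat_lit 336324) (nat_lit 18) (.e (nat_lit 204854) (nat_lit 26) (.e (nat_lit 343808) (nat_lit 13) .nil)))) .nil)) 
(.lf (nat_lit 155425) (.g (nat_lit 2321) (.e (nat_lit 57410) (nat_lit 12) (.e (nat_lit 336398) (nat_lit 27) (.e (nat_lit 426499) (nat_lit 27) (.e (nat_lit 336196) (nat_lit 12) (.e (nat_lit 385066) (nat_lit 26) (.e (nat_lit 532499) (nat_lit 1) (.e (nat_lit 57847) (nat_lit 252) .nil))))))) (.g (nat_lit 4) .nil .nil)))) (.nd (nat_lit 5) 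
(.lf (nat_lit 155409) (.g (nat_lit 1698) (.e (nat_lit 57410) (nat_lit 12) (.e (nat_lit 336326) (nat_lit 18) (.e (nat_lit 204861) (nat_lit 26) (.e (nat_lit 336213) (nat_lit 13) (.e (nat_lit 393251) (nat_lit 18) (.e (nat_lit 164182) (nat_lit 154) .nil)))))) (.g (nat_lit 4) .nil .nil))) 
(.lf (nat_lit 155441) (.g (nat_lit 2262) (.e (nat_lit 57410) (nat_lit 12) (.e (nat_lit 336454) (nat_lit 34) (.e (nat_lit 483406) (nat_lit 26) (.e (nat_lit 385066) (nat_lit 26) (.e (nat_lit 532503) (nat_lit 1) .nil))))) .nil)))) (.nd (nat_lit 4) (.nd (nat_lit 5) 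
(.lf (nat_lit 155401) (.g (nat_lit 1970) (.e (nat_lit 57410) (nat_lit 12) (.e (nat_lit 336324) (nat_lit 18) (.e (nat_lit 204876) (nat_lit 31) (.e (nat_lit 376842) (nat_lit 11) (.e (nat_lit 426108) (nat_lit 1) (.e (nat_lit 164183) (nat_lit 154) .nil)))))) (.g (nat_lit 4) .nil .nil))) 
(.lf (nat_lit 155433) (.g (nat_lit 3668) (.e (nat_lit 57410) (nat_lit 12) (.e (nat_lit 336454) (nat_lit 34) (.e (nat_lit 483383) (nat_lit 23) (.e (nat_lit 336324) (nat_lit 18) (.e (nat_lit 204831) (nat_lit 18) (.e (nat_lit 57847) (nat_lit 252) .nil)))))) (.g (nat_lit 6) .nil .nil)))) (.nd (nat_lit 5) 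
(.lf (nat_lit 155417) (.g (nat_lit 2534) (.e (nat_lit 57410) (nat_lit 12) (.e (nat_lit 336326) (nat_lit 18) (.e (nat_lit 204877) (nat_lit 31) (.e (nat_lit 376842) (nat_lit 11) (.e (nat_lit 426098) (nat_lit 1) (.e (nat_lit 164183) (nat_lit 154) .nil)))))) (.g (nat_lit 6) .nil .nil))) 
(.lf (nat_lit 155449) (.g (nat_lit 2629) (.e (nat_lit 57411) (nat_lit 12) (.e (nat_lit 336016) (nat_lit 2) (.e (nat_lit 90176) (nat_lit 15) (.e (nat_lit 188450) (nat_lit 23) (.e (nat_lit 204830) (nat_lit 18) (.e (nat_lit 65280) (nat_lit 223) .nil)))))) (.g (nat_lit 4) .nil .nil)))))) (.nd (nat_lit 3) (.nd (nat_lit 4) (.nd (nat_lit 5) 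
(.lf (nat_lit 155397) (.g (nat_lit 972) (.e (nat_lit 57410) (nat_lit 12) (.e (nat_lit 336324) (nat_lit 18) (.e (nat_lit 204875) (nat_lit 31) .nil))) .nil)) 
(.lf (nat_lit 155429) (.g (nat_lit 1176) (.e (nat_lit 57410) (nat_lit 12) (.e (nat_lit 336443) (nat_lit 32) (.e (nat_lit 466978) (nat_lit 23) .nil))) .nil))) (.nd (nat_lit 5) 
(.lf (nat_lit 155413) (.g (nat_lit 2687) (.e (nat_lit 57410) (nat_lit 12) (.e (nat_lit 336326) (nat_lit 18) (.e (nat_lit 204866) (nat_lit 28) (.e (nat_lit 352277) (nat_lit 11) (.e (nat_lit 426098) (nat_lit 1) (.e (nat_lit 164183) (nat_lit 154) .nil)))))) (.g (nat_lit 6) .nil .nil))) 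
(.lf (nat_lit 155445) (.g (nat_lit 1553) (.e (nat_lit 57410) (nat_lit 12) (.e (nat_lit 336454) (nat_lit 34) (.e (nat_lit 483408) (nat_lit 26) (.e (nat_lit 385068) (nat_lit 26) .nil)))) .nil)))) (.nd (nat_lit 4) (.nd (nat_lit 5) 
(.lf (nat_lit 155405) (.g (nat_lit 1886) (.e (nat_lit 57410) (nat_lit 12) (.e (nat_lit 336324) (nat_lit 18) (.e (nat_lit 204877) (nat_lit 31) (.e (nat_lit 376842) (nat_lit 11) (.e (nat_lit 426106) (nat_lit 1) .nil))))) .nil)) 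
(.lf (nat_lit 155437) (.g (nat_lit 2964) (.e (nat_lit 57410) (nat_lit 12) (.e (nat_lit 336454) (nat_lit 34) (.e (nat_lit 483403) (nat_lit 26) (.e (nat_lit 385068) (nat_lit 26) (.e (nat_lit 532503) (nat_lit 1) (.e (nat_lit 57847) (nat_lit 252) .nil)))))) (.g (nat_lit 6) .nil .nil)))) (.nd (nat_lit 5) 
(.lf (nat_lit 155421) (.g (nat_lit 1533) (.e (nat_lit 57410) (nat_lit 12) (.e (nat_lit 336366) (nat_lit 27) (.e (nat_lit 426555) (nat_lit 32) (.e (nat_lit 376869) (nat_lit 23) (.e (nat_lit 98333) (nat_lit 18) (.e (nat_lit 164182) (nat_lit 154) .nil)))))) (.g (nat_lit 4) .nil .nil))) 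
(.lf (nat_lit 155453) (.g (nat_lit 2027) (.e (nat_lit 57411) (nat_lit 12) (.e (nat_lit 336019) (nat_lit 3) (.e (nat_lit 98342) (nat_lit 20) (.e (nat_lit 221207) (nat_lit 21) (.e (nat_lit 164243) (nat_lit 195) .nil))))) .nil)))))) (.nd (nat_lit 2) (.nd (nat_lit 3) (.nd (nat_lit 4) (.nd (nat_lit 5) 
(.lf (nat_lit 155395) (.g (nat_lit 1428) (.e (nat_lit 57410) (nat_lit 12) (.e (nat_lit 336324) (nat_lit 18) (.e (nat_lit 204865) (nat_lit 28) (.e (nat_lit 352277) (nat_lit 11) .nil)))) .nil)) 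
(.lf (nat_lit 155427) (.g (nat_lit 733) (.e (nat_lit 57410) (nat_lit 12) (.e (nat_lit 336443) (nat_lit 32) (.e (nat_lit 466977) (nat_lit 22) .nil))) .nil))) (.nd (nat_lit 5) 
(.lf (nat_lit 155411) (.g (nat_lit 2693) (.e (nat_lit 57410) (nat_lit 12) (.e (nat_lit 336326) (nat_lit 18) (.e (nat_lit 204866) (nat_lit 28) (.e (nat_lit 352273) (nat_lit 11) (.e (nat_lit 426108) (nat_lit 1) (.e (nat_lit 164183) (nat_lit 154) .nil)))))) (.g (nat_lit 5) .nil .nil))) 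
(.lf (nat_lit 155443) (.g (nat_lit 2270) (.e (nat_lit 57410) (nat_lit 12) (.e (nat_lit 336454) (nat_lit 34) (.e (nat_lit 483408) (nat_lit 26) (.e (nat_lit 385066) (nat_lit 26) (.e (nat_lit 532499) (nat_lit 1) (.e (nat_lit 57847) (nat_lit 252) .nil)))))) (.g (nat_lit 4) .nil .nil))))) (.nd (nat_lit 4) (.nd (nat_lit 5) 
(.lf (nat_lit 155403) (.g (nat_lit 2049) (.e (nat_lit 57410) (nat_lit 12) (.e (nat_lit 336324) (nat_lit 18) (.e (nat_lit 204877) (nat_lit 31) (.e (nat_lit 376842) (nat_lit 11) (.e (nat_lit 426098) (nat_lit 1) (.e (nat_lit 164183) (nat_lit 154) .nil)))))) (.g (nat_lit 4) .nil .nil))) 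
(.lf (nat_lit 155435) (.g (nat_lit 2854) (.e (nat_lit 57410) (nat_lit 12) (.e (nat_lit 336454) (nat_lit 34) (.e (nat_lit 483403) (nat_lit 26) (.e (nat_lit 385066) (nat_lit 26) (.e (nat_lit 532502) (nat_lit 1) (.e (nat_lit 57847) (nat_lit 252) .nil)))))) (.g (nat_lit 6) .nil .nil)))) (.nd (nat_lit 5) 
(.lf (nat_lit 155419) (.g (nat_lit 2557) (.e (nat_lit 57410) (nat_lit 12) (.e (nat_lit 336326) (nat_lit 18) (.e (nat_lit 204877) (nat_lit 31) (.e (nat_lit 376842) (nat_lit 11) (.e (nat_lit 426108) (nat_lit 1) (.e (nat_lit 164183) (nat_lit 154) .nil)))))) (.g (nat_lit 6) .nil .nil))) 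
(.lf (nat_lit 155451) (.g (nat_lit 2027) (.e (nat_lit 57411) (nat_lit 12) (.e (nat_lit 336019) (nat_lit 3) (.e (nat_lit 98342) (nat_lit 20) (.e (nat_lit 221207) (nat_lit 21) (.e (nat_lit 164242) (nat_lit 195) .nil))))) .nil))))) (.nd (nat_lit 3) (.nd (nat_lit 4) (.nd (nat_lit 5) 
(.lf (nat_lit 155399) (.g (nat_lit 1970) (.e (nat_lit 57410) (nat_lit 12) (.e (nat_lit 336324) (nat_lit 18) (.e (nat_lit 204876) (nat_lit 31) (.e (nat_lit 376842) (nat_lit 11) (.e (nat_lit 426098) (nat_lit 1) (.e (nat_lit 164183) (nat_lit 154) .nil)))))) (.g (nat_lit 4) .nil .nil))) 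
(.lf (nat_lit 155431) (.g (nat_lit 1382) (.e (nat_lit 57410) (nat_lit 12) (.e (nat_lit 336443) (nat_lit 32) (.e (nat_lit 466981) (nat_lit 23) (.e (nat_lit 204808) (nat_lit 9) .nil)))) .nil))) (.nd (nat_lit 5) 
(.lf (nat_lit 155415) (.g (nat_lit 2475) (.e (nat_lit 57410) (nat_lit 12) (.e (nat_lit 336326) (nat_lit 18) (.e (nat_lit 204876) (nat_lit 31) (.e (nat_lit 376842) (nat_lit 11) (.e (nat_lit 426098) (nat_lit 1) (.e (nat_lit 164183) (nat_lit 154) .nil)))))) (.g (nat_lit 6) .nil .nil))) 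
(.lf (nat_lit 155447) (.g (nat_lit 3095) (.e (nat_lit 57411) (nat_lit 12) (.e (nat_lit 336016) (nat_lit 2) (.e (nat_lit 90176) (nat_lit 15) (.e (nat_lit 188450) (nat_lit 23) (.e (nat_lit 204817) (nat_lit 17) (.e (nat_lit 7936) (nat_lit 81) (.e (nat_lit 4527) (nat_lit 265) .nil))))))) (.g (nat_lit 4) .nil .nil))))) (.nd (nat_lit 4) (.nd (nat_lit 5) 
(.lf (nat_lit 155407) (.g (nat_lit 1260) (.e (nat_lit 57410) (nat_lit 12) (.e (nat_lit 336325) (nat_lit 18) (.e (nat_lit 204877) (nat_lit 31) (.e (nat_lit 376842) (nat_lit 11) (.e (nat_lit 426106) (nat_lit 1) .nil))))) .nil)) 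
(.lf (nat_lit 155439) (.g (nat_lit 2267) (.e (nat_lit 57410) (nat_lit 12) (.e (nat_lit 336454) (nat_lit 34) (.e (nat_lit 483406) (nat_lit 26) (.e (nat_lit 385066) (nat_lit 26) (.e (nat_lit 532499) (nat_lit 1) .nil))))) .nil))) (.nd (nat_lit 5) 
(.lf (nat_lit 155423) (.g (nat_lit 1497) (.e (nat_lit 57410) (nat_lit 12) (.e (nat_lit 336366) (nat_lit 27) (.e (nat_lit 426555) (nat_lit 32) (.e (nat_lit 376869) (nat_lit 23) (.e (nat_lit 98334) (nat_lit 18) (.e (nat_lit 164183) (nat_lit 154) .nil)))))) (.g (nat_lit 4) .nil .nil))) 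
(.lf (nat_lit 155455) (.g (nat_lit 1619) (.e (nat_lit 57411) (nat_lit 12) (.e (nat_lit 336019) (nat_lit 3) (.e (nat_lit 98342) (nat_lit 20) (.e (nat_lit 221208) (nat_lit 21) (.e (nat_lit 164242) (nat_lit 195) .nil))))) .nil))))))))

noncomputable def tv2076 : DT := (.nd (nat_lit 0) (.nd (nat_lit 1) (.nd (nat_lit 2) (.nd (nat_lit 3) (.nd (nat_lit 4) (.nd (nat_lit 5) 
(.lf (nat_lit 155456) (.g (nat_lit 2687) (.e (nat_lit 57411) (nat_lit 12) (.e (nat_lit 336019) (nat_lit 3) (.e (nat_lit 98342) (nat_lit 20) (.e (nat_lit 221208) (nat_lit 21) (.e (nat_lit 164242) (nat_lit 195) (.e (nat_lit 2638) (nat_lit 165) (.e (nat_lit 180229) (nat_lit 0) (.e (nat_lit 6400) (nat_lit 339) .nil)))))))) (.g (nat_lit 4) .nil .nil))) 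
(.lf (nat_lit 155488) (.g (nat_lit 2561) (.e (nat_lit 57411) (nat_lit 12) (.e (nat_lit 336019) (nat_lit 3) (.e (nat_lit 98381) (nat_lit 31) (.e (nat_lit 466977) (nat_lit 22) (.e (nat_lit 196651) (nat_lit 10) (.e (nat_lit 8192) (nat_lit 0) (.e (nat_lit 6402) (nat_lit 339) .nil))))))) (.g (nat_lit 4) .nil .nil)))) (.nd (nat_lit 5) 
(.lf (nat_lit 155472) (.g (nat_lit 1434) (.e (nat_lit 57411) (nat_lit 12) (.e (nat_lit 336019) (nat_lit 3) (.e (nat_lit 98373) (nat_lit 29) (.e (nat_lit 450587) (nat_lit 10) .nil)))) .nil)) 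
(.lf (nat_lit 155504) (.g (nat_lit 2813) (.e (nat_lit 57411) (nat_lit 12) (.e (nat_lit 336115) (nat_lit 9) (.e (nat_lit 336369) (nat_lit 27) (.e (nat_lit 426173) (nat_lit 7) (.e (nat_lit 409649) (nat_lit 18) (.e (nat_lit 303114) (nat_lit 1) (.e (nat_lit 164183) (nat_lit 154) .nil))))))) (.g (nat_lit 5) .nil .nil))))) (.nd (nat_lit 4) (.nd (nat_lit 5) 
(.lf (nat_lit 155464) (.g (nat_lit 1909) (.e (nat_lit 57411) (nat_lit 12) (.e (nat_lit 336019) (nat_lit 3) (.e (nat_lit 98371) (nat_lit 28) (.e (nat_lit 442427) (nat_lit 23) (.e (nat_lit 212736) (nat_lit 1) .nil))))) .nil)) 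
(.lf (nat_lit 155496) (.g (nat_lit 3247) (.e (nat_lit 57411) (nat_lit 12) (.e (nat_lit 336114) (nat_lit 9) (.e (nat_lit 336369) (nat_lit 27) (.e (nat_lit 426173) (nat_lit 7) (.e (nat_lit 409649) (nat_lit 18) (.e (nat_lit 303114) (nat_lit 1) (.e (nat_lit 164182) (nat_lit 154) .nil))))))) (.g (nat_lit 5) .nil .nil)))) (.nd (nat_lit 5) 
(.lf (nat_lit 155480) (.g (nat_lit 380) (.e (nat_lit 57411) (nat_lit 12) (.e (nat_lit 336019) (nat_lit 3) (.e (nat_lit 98381) (nat_lit 31) .nil))) .nil)) 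
(.lf (nat_lit 155512) (.g (nat_lit 2194) (.e (nat_lit 57411) (nat_lit 12) (.e (nat_lit 336208) (nat_lit 12) (.e (nat_lit 385094) (nat_lit 49) (.e (nat_lit 778326) (nat_lit 6) (.e (nat_lit 81959) (nat_lit 24) (.e (nat_lit 123194) (nat_lit 266) .nil)))))) (.g (nat_lit 4) .nil .nil)))))) (.nd (nat_lit 3) (.nd (nat_lit 4) (.nd (nat_lit 5) 
(.lf (nat_lit 155460) (.g (nat_lit 1700) (.e (nat_lit 57411) (nat_lit 12) (.e (nat_lit 336019) (nat_lit 3) (.e (nat_lit 98359) (nat_lit 26) (.e (nat_lit 426211) (nat_lit 9) .nil)))) .nil)) 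
(.lf (nat_lit 155492) (.g (nat_lit 1879) (.e (nat_lit 57411) (nat_lit 12) (.e (nat_lit 336019) (nat_lit 3) (.e (nat_lit 98381) (nat_lit 31) (.e (nat_lit 466979) (nat_lit 23) (.e (nat_lit 212736) (nat_lit 1) (.e (nat_lit 164183) (nat_lit 154) .nil)))))) (.g (nat_lit 4) .nil .nil)))) (.nd (nat_lit 5) 
(.lf (nat_lit 155476) (.g (nat_lit 1313) (.e (nat_lit 57411) (nat_lit 12) (.e (nat_lit 336019) (nat_lit 3) (.e (nat_lit 98373) (nat_lit 29) (.e (nat_lit 450588) (nat_lit 10) .nil)))) .nil)) 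
(.lf (nat_lit 155508) (.g (nat_lit 1832) (.e (nat_lit 57411) (nat_lit 12) (.e (nat_lit 336208) (nat_lit 12) (.e (nat_lit 392960) (nat_lit 24) (.e (nat_lit 516151) (nat_lit 9) (.e (nat_lit 426285) (nat_lit 10) (.e (nat_lit 434201) (nat_lit 18) (.e (nat_lit 6827) (nat_lit 367) .nil))))))) (.g (nat_lit 5) .nil .nil))))) (.nd (nat_lit 4) (.nd (nat_lit 5) 
(.lf (nat_lit 155468) (.g (nat_lit 3853) (.e (nat_lit 57411) (nat_lit 12) (.e (nat_lit 336019) (nat_lit 3) (.e (nat_lit 98372) (nat_lit 29) (.e (nat_lit 450579) (nat_lit 5) (.e (nat_lit 532504) (nat_lit 1) (.e (nat_lit 65280) (nat_lit 223) .nil)))))) (.g (nat_lit 5) .nil .nil))) 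
(.lf (nat_lit 155500) (.g (nat_lit 1932) (.e (nat_lit 57411) (nat_lit 12) (.e (nat_lit 336115) (nat_lit 9) (.e (nat_lit 336369) (nat_lit 27) (.e (nat_lit 426173) (nat_lit 7) (.e (nat_lit 409649) (nat_lit 18) (.e (nat_lit 303111) (nat_lit 0) (.e (nat_lit 2438) (nat_lit 157) (.e (nat_lit 6402) (nat_lit 339) .nil)))))))) (.g (nat_lit 4) .nil .nil)))) (.nd (nat_lit 5) 
(.lf (nat_lit 155484) (.g (nat_lit 2179) (.e (nat_lit 57411) (nat_lit 12) (.e (nat_lit 336019) (nat_lit 3) (.e (nat_lit 98381) (nat_lit 31) (.e (nat_lit 466977) (nat_lit 22) (.e (nat_lit 196628) (nat_lit 9) .nil))))) .nil)) 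
(.lf (nat_lit 155516) (.g (nat_lit 1575) (.e (nat_lit 57411) (nat_lit 12) (.e (nat_lit 336208) (nat_lit 12) (.e (nat_lit 385106) (nat_lit 50) (.e (nat_lit 786481) (nat_lit 30) (.e (nat_lit 368384) (nat_lit 0) .nil))))) .nil)))))) (.nd (nat_lit 2) (.nd (nat_lit 3) (.nd (nat_lit 4) (.nd (nat_lit 5) 
(.lf (nat_lit 155458) (.g (nat_lit 1217) (.e (nat_lit 57411) (nat_lit 12) (.e (nat_lit 336019) (nat_lit 3) (.e (nat_lit 98342) (nat_lit 20) (.e (nat_lit 221220) (nat_lit 25) .nil)))) .nil)) 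
(.lf (nat_lit 155490) (.g (nat_lit 2373) (.e (nat_lit 57411) (nat_lit 12) (.e (nat_lit 336019) (nat_lit 3) (.e (nat_lit 98381) (nat_lit 31) (.e (nat_lit 466977) (nat_lit 22) (.e (nat_lit 196651) (nat_lit 10) (.e (nat_lit 8199) (nat_lit 0) (.e (nat_lit 6398) (nat_lit 339) .nil))))))) (.g (nat_lit 4) .nil .nil)))) (.nd (nat_lit 5) 
(.lf (nat_lit 155474) (.g (nat_lit 4233) (.e (nat_lit 57411) (nat_lit 12) (.e (nat_lit 336019) (nat_lit 3) (.e (nat_lit 98373) (nat_lit 29) (.e (nat_lit 450587) (nat_lit 10) (.e (nat_lit 573477) (nat_lit 12) .nil))))) .nil)) 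
(.lf (nat_lit 155506) (.g (nat_lit 2173) (.e (nat_lit 57411) (nat_lit 12) (.e (nat_lit 336182) (nat_lit 11) (.e (nat_lit 368698) (nat_lit 43) (.e (nat_lit 770072) (nat_lit 8) (.e (nat_lit 65583) (nat_lit 7) (.e (nat_lit 319516) (nat_lit 11) (.e (nat_lit 8553) (nat_lit 232) .nil))))))) (.g (nat_lit 5) .nil .nil))))) (.nd (nat_lit 4) (.nd (nat_lit 5) 
(.lf (nat_lit 155466) (.g (nat_lit 3914) (.e (nat_lit 57411) (nat_lit 12) (.e (nat_lit 336019) (nat_lit 3) (.e (nat_lit 98372) (nat_lit 29) (.e (nat_lit 450579) (nat_lit 5) (.e (nat_lit 532501) (nat_lit 1) (.e (nat_lit 65280) (nat_lit 223) .nil)))))) (.g (nat_lit 5) .nil .nil))) 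
(.lf (nat_lit 155498) (.g (nat_lit 3252) (.e (nat_lit 57411) (nat_lit 12) (.e (nat_lit 336114) (nat_lit 9) (.e (nat_lit 336369) (nat_lit 27) (.e (nat_lit 426173) (nat_lit 7) (.e (nat_lit 409649) (nat_lit 18) (.e (nat_lit 303115) (nat_lit 1) (.e (nat_lit 164182) (nat_lit 154) .nil))))))) (.g (nat_lit 5) .nil .nil)))) (.nd (nat_lit 5) 
(.lf (nat_lit 155482) (.g (nat_lit 2752) (.e (nat_lit 57411) (nat_lit 12) (.e (nat_lit 336019) (nat_lit 3) (.e (nat_lit 98381) (nat_lit 31) (.e (nat_lit 466977) (nat_lit 22) (.e (nat_lit 196619) (nat_lit 9) (.e (nat_lit 153) (nat_lit 10) (.e (nat_lit 164183) (nat_lit 154) .nil))))))) (.g (nat_lit 4) .nil .nil))) 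
(.lf (nat_lit 155514) (.g (nat_lit 2382) (.e (nat_lit 57411) (nat_lit 12) (.e (nat_lit 336208) (nat_lit 12) (.e (nat_lit 385104) (nat_lit 50) (.e (nat_lit 786483) (nat_lit 30) (.e (nat_lit 360450) (nat_lit 0) (.e (nat_lit 7936) (nat_lit 322) .nil)))))) (.g (nat_lit 4) .nil .nil)))))) (.nd (nat_lit 3) (.nd (nat_lit 4) (.nd (nat_lit 5) 
(.lf (nat_lit 155462) (.g (nat_lit 2977) (.e (nat_lit 57411) (nat_lit 12) (.e (nat_lit 336019) (nat_lit 3) (.e (nat_lit 98370) (nat_lit 28) (.e (nat_lit 442427) (nat_lit 23) (.e (nat_lit 212736) (nat_lit 1) .nil))))) .nil)) 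
(.lf (nat_lit 155494) (.g (nat_lit 2362) (.e (nat_lit 57411) (nat_lit 12) (.e (nat_lit 336114) (nat_lit 9) (.e (nat_lit 336369) (nat_lit 27) (.e (nat_lit 426173) (nat_lit 7) (.e (nat_lit 409648) (nat_lit 18) (.e (nat_lit 303114) (nat_lit 1) (.e (nat_lit 164182) (nat_lit 154) .nil))))))) (.g (nat_lit 4) .nil .nil)))) (.nd (nat_lit 5) 
(.lf (nat_lit 155478) (.g (nat_lit 1254) (.e (nat_lit 57411) (nat_lit 12) (.e (nat_lit 336019) (nat_lit 3) (.e (nat_lit 98374) (nat_lit 29) (.e (nat_lit 458496) (nat_lit 3) .nil)))) .nil)) 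
(.lf (nat_lit 155510) (.g (nat_lit 3277) (.e (nat_lit 57411) (nat_lit 12) (.e (nat_lit 336208) (nat_lit 12) (.e (nat_lit 385074) (nat_lit 31) (.e (nat_lit 573491) (nat_lit 15) (.e (nat_lit 81957) (nat_lit 24) .nil))))) .nil)))) (.nd (nat_lit 4) (.nd (nat_lit 5) 
(.lf (nat_lit 155470) (.g (nat_lit 3797) (.e (nat_lit 57411) (nat_lit 12) (.e (nat_lit 336019) (nat_lit 3) (.e (nat_lit 98372) (nat_lit 29) (.e (nat_lit 450588) (nat_lit 10) (.e (nat_lit 573475) (nat_lit 12) (.e (nat_lit 57347) (nat_lit 0) (.e (nat_lit 7261) (nat_lit 384) .nil))))))) (.g (nat_lit 4) .nil .nil))) 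
(.lf (nat_lit 155502) (.g (nat_lit 1825) (.e (nat_lit 57411) (nat_lit 12) (.e (nat_lit 336115) (nat_lit 9) (.e (nat_lit 336369) (nat_lit 27) (.e (nat_lit 426173) (nat_lit 7) (.e (nat_lit 409649) (nat_lit 18) (.e (nat_lit 303111) (nat_lit 0) (.e (nat_lit 2481) (nat_lit 157) (.e (nat_lit 6401) (nat_lit 339) .nil)))))))) (.g (nat_lit 4) .nil .nil)))) (.nd (nat_lit 5) 
(.lf (nat_lit 155486) (.g (nat_lit 2582) (.e (nat_lit 57411) (nat_lit 12) (.e (nat_lit 336019) (nat_lit 3) (.e (nat_lit 98381) (nat_lit 31) (.e (nat_lit 466977) (nat_lit 22) (.e (nat_lit 196649) (nat_lit 10) (.e (nat_lit 8192) (nat_lit 0) (.e (nat_lit 6400) (nat_lit 339) .nil))))))) (.g (nat_lit 4) .nil .nil))) 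
(.lf (nat_lit 155518) (.g (nat_lit 2303) (.e (nat_lit 57411) (nat_lit 12) (.e (nat_lit 336210) (nat_lit 13) (.e (nat_lit 393259) (nat_lit 21) (.e (nat_lit 409645) (nat_lit 18) (.e (nat_lit 303115) (nat_lit 1) (.e (nat_lit 164182) (nat_lit 154) .nil)))))) (.g (nat_lit 4) .nil .nil)))))))) (.nd (nat_lit 1) (.nd (nat_lit 2) (.nd (nat_lit 3) (.nd (nat_lit 4) (.nd (nat_lit 5) 
(.lf (nat_lit 155457) (.g (nat_lit 710) (.e (nat_lit 57411) (nat_lit 12) (.e (nat_lit 336019) (nat_lit 3) (.e (nat_lit 98342) (nat_lit 20) (.e (nat_lit 221219) (nat_lit 24) .nil)))) .nil)) 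
(.lf (nat_lit 155489) (.g (nat_lit 2612) (.e (nat_lit 57411) (nat_lit 12) (.e (nat_lit 336019) (nat_lit 3) (.e (nat_lit 98381) (nat_lit 31) (.e (nat_lit 466977) (nat_lit 22) (.e (nat_lit 196651) (nat_lit 10) (.e (nat_lit 8197) (nat_lit 0) (.e (nat_lit 6398) (nat_lit 339) .nil))))))) (.g (nat_lit 4) .nil .nil)))) (.nd (nat_lit 5) 
(.lf (nat_lit 155473) (.g (nat_lit 4986) (.e (nat_lit 57411) (nat_lit 12) (.e (nat_lit 336019) (nat_lit 3) (.e (nat_lit 98373) (nat_lit 29) (.e (nat_lit 450587) (nat_lit 10) (.e (nat_lit 573475) (nat_lit 12) .nil))))) .nil)) 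
(.lf (nat_lit 155505) (.g (nat_lit 2286) (.e (nat_lit 57411) (nat_lit 12) (.e (nat_lit 336182) (nat_lit 11) (.e (nat_lit 368698) (nat_lit 43) (.e (nat_lit 770071) (nat_lit 8) (.e (nat_lit 65619) (nat_lit 10) (.e (nat_lit 344090) (nat_lit 18) (.e (nat_lit 7261) (nat_lit 384) .nil))))))) (.g (nat_lit 5) .nil .nil))))) (.nd (nat_lit 4) (.nd (nat_lit 5) 
(.lf (nat_lit 155465) (.g (nat_lit 3347) (.e (nat_lit 57411) (nat_lit 12) (.e (nat_lit 336019) (nat_lit 3) (.e (nat_lit 98372) (nat_lit 29) (.e (nat_lit 450579) (nat_lit 5) (.e (nat_lit 532499) (nat_lit 1) (.e (nat_lit 65280) (nat_lit 223) .nil)))))) (.g (nat_lit 5) .nil .nil))) 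
(.lf (nat_lit 155497) (.g (nat_lit 2450) (.e (nat_lit 57411) (nat_lit 12) (.e (nat_lit 336114) (nat_lit 9) (.e (nat_lit 336369) (nat_lit 27) (.e (nat_lit 426173) (nat_lit 7) (.e (nat_lit 409649) (nat_lit 18) (.e (nat_lit 303114) (nat_lit 1) (.e (nat_lit 164183) (nat_lit 154) .nil))))))) (.g (nat_lit 4) .nil .nil)))) (.nd (nat_lit 5) 
(.lf (nat_lit 155481) (.g (nat_lit 2180) (.e (nat_lit 57411) (nat_lit 12) (.e (nat_lit 336019) (nat_lit 3) (.e (nat_lit 98381) (nat_lit 31) (.e (nat_lit 466977) (nat_lit 22) (.e (nat_lit 196619) (nat_lit 9) .nil))))) .nil)) 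
(.lf (nat_lit 155513) (.g (nat_lit 2525) (.e (nat_lit 57411) (nat_lit 12) (.e (nat_lit 336208) (nat_lit 12) (.e (nat_lit 385104) (nat_lit 50) (.e (nat_lit 786480) (nat_lit 29) (.e (nat_lit 352309) (nat_lit 21) (.e (nat_lit 65280) (nat_lit 266) .nil)))))) (.g (nat_lit 5) .nil .nil)))))) (.nd (nat_lit 3) (.nd (nat_lit 4) (.nd (nat_lit 5) 
(.lf (nat_lit 155461) (.g (nat_lit 2219) (.e (nat_lit 57411) (nat_lit 12) (.e (nat_lit 336019) (nat_lit 3) (.e (nat_lit 98369) (nat_lit 28) (.e (nat_lit 442427) (nat_lit 23) (.e (nat_lit 212736) (nat_lit 1) .nil))))) .nil)) 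
(.lf (nat_lit 155493) (.g (nat_lit 4457) (.e (nat_lit 57411) (nat_lit 12) (.e (nat_lit 336114) (nat_lit 9) (.e (nat_lit 336369) (nat_lit 27) (.e (nat_lit 426173) (nat_lit 7) (.e (nat_lit 409646) (nat_lit 18) (.e (nat_lit 303115) (nat_lit 1) (.e (nat_lit 164179) (nat_lit 154) .nil))))))) (.g (nat_lit 5) .nil .nil)))) (.nd (nat_lit 5) 
(.lf (nat_lit 155477) (.g (nat_lit 4715) (.e (nat_lit 57411) (nat_lit 12) (.e (nat_lit 336019) (nat_lit 3) (.e (nat_lit 98373) (nat_lit 29) (.e (nat_lit 450588) (nat_lit 10) (.e (nat_lit 573475) (nat_lit 12) .nil))))) .nil)) 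
(.lf (nat_lit 155509) (.g (nat_lit 2510) (.e (nat_lit 57411) (nat_lit 12) (.e (nat_lit 336208) (nat_lit 12) (.e (nat_lit 385063) (nat_lit 25) (.e (nat_lit 524322) (nat_lit 12) (.e (nat_lit 450563) (nat_lit 0) (.e (nat_lit 6828) (nat_lit 367) .nil)))))) (.g (nat_lit 6) .nil .nil))))) (.nd (nat_lit 4) (.nd (nat_lit 5) 
(.lf (nat_lit 155469) (.g (nat_lit 2610) (.e (nat_lit 57411) (nat_lit 12) (.e (nat_lit 336019) (nat_lit 3) (.e (nat_lit 98372) (nat_lit 29) (.e (nat_lit 450579) (nat_lit 5) (.e (nat_lit 540416) (nat_lit 18) (.e (nat_lit 164183) (nat_lit 154) .nil)))))) (.g (nat_lit 4) .nil .nil))) 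
(.lf (nat_lit 155501) (.g (nat_lit 2127) (.e (nat_lit 57411) (nat_lit 12) (.e (nat_lit 336115) (nat_lit 9) (.e (nat_lit 336369) (nat_lit 27) (.e (nat_lit 426173) (nat_lit 7) (.e (nat_lit 409649) (nat_lit 18) (.e (nat_lit 303111) (nat_lit 0) (.e (nat_lit 2468) (nat_lit 157) (.e (nat_lit 6400) (nat_lit 339) .nil)))))))) (.g (nat_lit 4) .nil .nil)))) (.nd (nat_lit 5) 
(.lf (nat_lit 155485) (.g (nat_lit 2146) (.e (nat_lit 57411) (nat_lit 12) (.e (nat_lit 336019) (nat_lit 3) (.e (nat_lit 98381) (nat_lit 31) (.e (nat_lit 466977) (nat_lit 22) (.e (nat_lit 196649) (nat_lit 10) .nil))))) .nil)) 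
(.lf (nat_lit 155517) (.g (nat_lit 2202) (.e (nat_lit 57411) (nat_lit 12) (.e (nat_lit 336208) (nat_lit 12) (.e (nat_lit 385106) (nat_lit 50) (.e (nat_lit 786483) (nat_lit 30) (.e (nat_lit 360450) (nat_lit 0) (.e (nat_lit 7936) (nat_lit 322) .nil)))))) (.g (nat_lit 4) .nil .nil))))))) (.nd (nat_lit 2) (.nd (nat_lit 3) (.nd (nat_lit 4) (.nd (nat_lit 5) 
(.lf (nat_lit 155459) (.g (nat_lit 1996) (.e (nat_lit 57411) (nat_lit 12) (.e (nat_lit 336019) (nat_lit 3) (.e (nat_lit 98358) (nat_lit 26) (.e (nat_lit 426294) (nat_lit 11) (.e (nat_lit 466688) (nat_lit 21) .nil))))) .nil)) 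
(.lf (nat_lit 155491) (.g (nat_lit 1763) (.e (nat_lit 57411) (nat_lit 12) (.e (nat_lit 336019) (nat_lit 3) (.e (nat_lit 98381) (nat_lit 31) (.e (nat_lit 466978) (nat_lit 23) (.e (nat_lit 212736) (nat_lit 1) (.e (nat_lit 164183) (nat_lit 154) .nil)))))) (.g (nat_lit 4) .nil .nil)))) (.nd (nat_lit 5) 
(.lf (nat_lit 155475) (.g (nat_lit 4152) (.e (nat_lit 57411) (nat_lit 12) (.e (nat_lit 336019) (nat_lit 3) (.e (nat_lit 98373) (nat_lit 29) (.e (nat_lit 450587) (nat_lit 10) (.e (nat_lit 573478) (nat_lit 12) .nil))))) .nil)) 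
(.lf (nat_lit 155507) (.g (nat_lit 2175) (.e (nat_lit 57411) (nat_lit 12) (.e (nat_lit 336207) (nat_lit 12) (.e (nat_lit 385106) (nat_lit 50) (.e (nat_lit 786481) (nat_lit 30) (.e (nat_lit 368384) (nat_lit 0) (.e (nat_lit 5937) (nat_lit 322) .nil)))))) (.g (nat_lit 4) .nil .nil))))) (.nd (nat_lit 4) (.nd (nat_lit 5) 
(.lf (nat_lit 155467) (.g (nat_lit 3620) (.e (nat_lit 57411) (nat_lit 12) (.e (nat_lit 336019) (nat_lit 3) (.e (nat_lit 98372) (nat_lit 29) (.e (nat_lit 450579) (nat_lit 5) (.e (nat_lit 532503) (nat_lit 1) (.e (nat_lit 65280) (nat_lit 223) .nil)))))) (.g (nat_lit 5) .nil .nil))) 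
(.lf (nat_lit 155499) (.g (nat_lit 2183) (.e (nat_lit 57411) (nat_lit 12) (.e (nat_lit 336115) (nat_lit 9) (.e (nat_lit 336369) (nat_lit 27) (.e (nat_lit 426173) (nat_lit 7) (.e (nat_lit 409648) (nat_lit 18) (.e (nat_lit 303114) (nat_lit 1) (.e (nat_lit 164183) (nat_lit 154) .nil))))))) (.g (nat_lit 5) .nil .nil)))) (.nd (nat_lit 5) 
(.lf (nat_lit 155483) (.g (nat_lit 2739) (.e (nat_lit 57411) (nat_lit 12) (.e (nat_lit 336019) (nat_lit 3) (.e (nat_lit 98381) (nat_lit 31) (.e (nat_lit 466977) (nat_lit 22) (.e (nat_lit 196619) (nat_lit 9) (.e (nat_lit 155) (nat_lit 10) (.e (nat_lit 164183) (nat_lit 154) .nil))))))) (.g (nat_lit 4) .nil .nil))) 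
(.lf (nat_lit 155515) (.g (nat_lit 2029) (.e (nat_lit 57411) (nat_lit 12) (.e (nat_lit 336208) (nat_lit 12) (.e (nat_lit 385104) (nat_lit 50) (.e (nat_lit 786483) (nat_lit 30) (.e (nat_lit 360451) (nat_lit 0) (.e (nat_lit 7936) (nat_lit 322) .nil)))))) (.g (nat_lit 4) .nil .nil)))))) (.nd (nat_lit 3) (.nd (nat_lit 4) (.nd (nat_lit 5) 
(.lf (nat_lit 155463) (.g (nat_lit 3112) (.e (nat_lit 57411) (nat_lit 12) (.e (nat_lit 336019) (nat_lit 3) (.e (nat_lit 98370) (nat_lit 28) (.e (nat_lit 442427) (nat_lit 23) (.e (nat_lit 212736) (nat_lit 1) (.e (nat_lit 164182) (nat_lit 154) .nil)))))) (.g (nat_lit 4) .nil .nil))) 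
(.lf (nat_lit 155495) (.g (nat_lit 2314) (.e (nat_lit 57411) (nat_lit 12) (.e (nat_lit 336114) (nat_lit 9) (.e (nat_lit 336369) (nat_lit 27) (.e (nat_lit 426173) (nat_lit 7) (.e (nat_lit 409648) (nat_lit 18) (.e (nat_lit 303115) (nat_lit 1) (.e (nat_lit 164182) (nat_lit 154) .nil))))))) (.g (nat_lit 4) .nil .nil)))) (.nd (nat_lit 5) 
(.lf (nat_lit 155479) (.g (nat_lit 1774) (.e (nat_lit 57411) (nat_lit 12) (.e (nat_lit 336019) (nat_lit 3) (.e (nat_lit 98380) (nat_lit 31) (.e (nat_lit 466979) (nat_lit 23) (.e (nat_lit 212736) (nat_lit 1) (.e (nat_lit 164183) (nat_lit 154) .nil)))))) (.g (nat_lit 4) .nil .nil))) 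
(.lf (nat_lit 155511) (.g (nat_lit 1985) (.e (nat_lit 57411) (nat_lit 12) (.e (nat_lit 336208) (nat_lit 12) (.e (nat_lit 385093) (nat_lit 49) (.e (nat_lit 778327) (nat_lit 6) (.e (nat_lit 81959) (nat_lit 24) (.e (nat_lit 123194) (nat_lit 266) .nil)))))) (.g (nat_lit 4) .nil .nil))))) (.nd (nat_lit 4) (.nd (nat_lit 5) 
(.lf (nat_lit 155471) (.g (nat_lit 1762) (.e (nat_lit 57411) (nat_lit 12) (.e (nat_lit 336019) (nat_lit 3) (.e (nat_lit 98373) (nat_lit 29) (.e (nat_lit 458496) (nat_lit 3) .nil)))) .nil)) 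
(.lf (nat_lit 155503) (.g (nat_lit 3809) (.e (nat_lit 57411) (nat_lit 12) (.e (nat_lit 336115) (nat_lit 9) (.e (nat_lit 336369) (nat_lit 27) (.e (nat_lit 426173) (nat_lit 7) (.e (nat_lit 409649) (nat_lit 18) (.e (nat_lit 303114) (nat_lit 1) (.e (nat_lit 164182) (nat_lit 154) .nil))))))) (.g (nat_lit 0) .nil .nil)))) (.nd (nat_lit 5) 
(.lf (nat_lit 155487) (.g (nat_lit 1795) (.e (nat_lit 57411) (nat_lit 12) (.e (nat_lit 336019) (nat_lit 3) (.e (nat_lit 98381) (nat_lit 31) (.e (nat_lit 466977) (nat_lit 22) (.e (nat_lit 196651) (nat_lit 10) .nil))))) .nil)) 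
(.lf (nat_lit 155519) (.g (nat_lit 2754) (.e (nat_lit 57411) (nat_lit 12) (.e (nat_lit 336210) (nat_lit 13) (.e (nat_lit 393260) (nat_lit 21) (.e (nat_lit 409645) (nat_lit 18) (.e (nat_lit 303115) (nat_lit 1) (.e (nat_lit 164179) (nat_lit 154) .nil)))))) (.g (nat_lit 4) .nil .nil)))))))))

noncomputable def tv2077 : DT := (.nd (nat_lit 0) (.nd (nat_lit 1) (.nd (nat_lit 2) (.nd (nat_lit 3) (.nd (nat_lit 4) (.nd (nat_lit 5) 
(.lf (nat_lit 155520) (.g (nat_lit 2523) (.e (nat_lit 57411) (nat_lit 12) (.e (nat_lit 336210) (nat_lit 13) (.e (nat_lit 393260) (nat_lit 21) (.e (nat_lit 409648) (nat_lit 18) (.e (nat_lit 303114) (nat_lit 1) (.e (nat_lit 164182) (nat_lit 154) .nil)))))) (.g (nat_lit 4) .nil .nil))) 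
(.lf (nat_lit 155552) (.g (nat_lit 2217) (.e (nat_lit 57411) (nat_lit 12) (.e (nat_lit 336211) (nat_lit 13) (.e (nat_lit 393260) (nat_lit 21) (.e (nat_lit 409649) (nat_lit 18) (.e (nat_lit 303114) (nat_lit 1) (.e (nat_lit 164179) (nat_lit 154) .nil)))))) (.g (nat_lit 4) .nil .nil)))) (.nd (nat_lit 5) 
(.lf (nat_lit 155536) (.g (nat_lit 2144) (.e (nat_lit 57411) (nat_lit 12) (.e (nat_lit 336211) (nat_lit 13) (.e (nat_lit 393259) (nat_lit 21) (.e (nat_lit 409645) (nat_lit 18) (.e (nat_lit 303114) (nat_lit 1) (.e (nat_lit 164182) (nat_lit 154) .nil)))))) (.g (nat_lit 4) .nil .nil))) 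
(.lf (nat_lit 155568) (.g (nat_lit 2072) (.e (nat_lit 57411) (nat_lit 12) (.e (nat_lit 336211) (nat_lit 13) (.e (nat_lit 393267) (nat_lit 23) (.e (nat_lit 426448) (nat_lit 20) (.e (nat_lit 114710) (nat_lit 21) (.e (nat_lit 57847) (nat_lit 252) .nil)))))) (.g (nat_lit 4) .nil .nil))))) (.nd (nat_lit 4) (.nd (nat_lit 5) 
(.lf (nat_lit 155528) (.g (nat_lit 1552) (.e (nat_lit 57411) (nat_lit 12) (.e (nat_lit 336211) (nat_lit 13) (.e (nat_lit 393233) (nat_lit 17) (.e (nat_lit 7591) (nat_lit 407) (.e (nat_lit 73737) (nat_lit 0) .nil))))) .nil)) 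
(.lf (nat_lit 155560) (.g (nat_lit 2521) (.e (nat_lit 57411) (nat_lit 12) (.e (nat_lit 336211) (nat_lit 13) (.e (nat_lit 393263) (nat_lit 22) (.e (nat_lit 417829) (nat_lit 18) (.e (nat_lit 303115) (nat_lit 1) (.e (nat_lit 164182) (nat_lit 154) .nil)))))) (.g (nat_lit 6) .nil .nil)))) (.nd (nat_lit 5) 
(.lf (nat_lit 155544) (.g (nat_lit 4091) (.e (nat_lit 57411) (nat_lit 12) (.e (nat_lit 336211) (nat_lit 13) (.e (nat_lit 393260) (nat_lit 21) (.e (nat_lit 409645) (nat_lit 18) (.e (nat_lit 303115) (nat_lit 1) (.e (nat_lit 164179) (nat_lit 154) .nil)))))) (.g (nat_lit 0) .nil .nil))) 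
(.lf (nat_lit 155576) (.g (nat_lit 2221) (.e (nat_lit 57411) (nat_lit 12) (.e (nat_lit 336211) (nat_lit 13) (.e (nat_lit 393268) (nat_lit 23) (.e (nat_lit 426446) (nat_lit 20) (.e (nat_lit 114711) (nat_lit 21) (.e (nat_lit 57844) (nat_lit 252) .nil)))))) (.g (nat_lit 5) .nil .nil)))))) (.nd (nat_lit 3) (.nd (nat_lit 4) (.nd (nat_lit 5) 
(.lf (nat_lit 155524) (.g (nat_lit 1443) (.e (nat_lit 57411) (nat_lit 12) (.e (nat_lit 336211) (nat_lit 13) (.e (nat_lit 393231) (nat_lit 17) (.e (nat_lit 7593) (nat_lit 407) (.e (nat_lit 73732) (nat_lit 0) (.e (nat_lit 7936) (nat_lit 384) .nil)))))) (.g (nat_lit 4) .nil .nil))) 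
(.lf (nat_lit 155556) (.g (nat_lit 1845) (.e (nat_lit 57411) (nat_lit 12) (.e (nat_lit 336211) (nat_lit 13) (.e (nat_lit 393260) (nat_lit 21) (.e (nat_lit 409650) (nat_lit 19) .nil)))) .nil))) (.nd (nat_lit 5) 
(.lf (nat_lit 155540) (.g (nat_lit 2749) (.e (nat_lit 57411) (nat_lit 12) (.e (nat_lit 336211) (nat_lit 13) (.e (nat_lit 393260) (nat_lit 21) (.e (nat_lit 409643) (nat_lit 18) (.e (nat_lit 303115) (nat_lit 1) (.e (nat_lit 164182) (nat_lit 154) .nil)))))) (.g (nat_lit 6) .nil .nil))) 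
(.lf (nat_lit 155572) (.g (nat_lit 1581) (.e (nat_lit 57411) (nat_lit 12) (.e (nat_lit 336211) (nat_lit 13) (.e (nat_lit 393268) (nat_lit 23) (.e (nat_lit 426361) (nat_lit 15) (.e (nat_lit 2195) (nat_lit 144) .nil))))) .nil)))) (.nd (nat_lit 4) (.nd (nat_lit 5) 
(.lf (nat_lit 155532) (.g (nat_lit 2929) (.e (nat_lit 57411) (nat_lit 12) (.e (nat_lit 336211) (nat_lit 13) (.e (nat_lit 393234) (nat_lit 17) (.e (nat_lit 7593) (nat_lit 407) (.e (nat_lit 73729) (nat_lit 0) (.e (nat_lit 7261) (nat_lit 384) .nil)))))) (.g (nat_lit 5) .nil .nil))) 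
(.lf (nat_lit 155564) (.g (nat_lit 1722) (.e (nat_lit 57411) (nat_lit 12) (.e (nat_lit 336211) (nat_lit 13) (.e (nat_lit 393266) (nat_lit 23) (.e (nat_lit 426448) (nat_lit 20) (.e (nat_lit 114710) (nat_lit 21) .nil))))) .nil))) (.nd (nat_lit 5) 
(.lf (nat_lit 155548) (.g (nat_lit 2019) (.e (nat_lit 57411) (nat_lit 12) (.e (nat_lit 336211) (nat_lit 13) (.e (nat_lit 393260) (nat_lit 21) (.e (nat_lit 409647) (nat_lit 18) (.e (nat_lit 303114) (nat_lit 1) .nil))))) .nil)) 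
(.lf (nat_lit 155580) (.g (nat_lit 1096) (.e (nat_lit 57411) (nat_lit 12) (.e (nat_lit 336211) (nat_lit 13) (.e (nat_lit 393268) (nat_lit 23) (.e (nat_lit 426449) (nat_lit 20) .nil)))) .nil)))))) (.nd (nat_lit 2) (.nd (nat_lit 3) (.nd (nat_lit 4) (.nd (nat_lit 5) 
(.lf (nat_lit 155522) (.g (nat_lit 2838) (.e (nat_lit 57411) (nat_lit 12) (.e (nat_lit 336210) (nat_lit 13) (.e (nat_lit 393260) (nat_lit 21) (.e (nat_lit 409649) (nat_lit 18) (.e (nat_lit 303115) (nat_lit 1) (.e (nat_lit 164179) (nat_lit 154) .nil)))))) (.g (nat_lit 4) .nil .nil))) 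
(.lf (nat_lit 155554) (.g (nat_lit 2639) (.e (nat_lit 57411) (nat_lit 12) (.e (nat_lit 336211) (nat_lit 13) (.e (nat_lit 393260) (nat_lit 21) (.e (nat_lit 409649) (nat_lit 18) (.e (nat_lit 303114) (nat_lit 1) (.e (nat_lit 164183) (nat_lit 154) .nil)))))) (.g (nat_lit 4) .nil .nil)))) (.nd (nat_lit 5) 
(.lf (nat_lit 155538) (.g (nat_lit 2031) (.e (nat_lit 57411) (nat_lit 12) (.e (nat_lit 336211) (nat_lit 13) (.e (nat_lit 393259) (nat_lit 21) (.e (nat_lit 409645) (nat_lit 18) (.e (nat_lit 303115) (nat_lit 1) (.e (nat_lit 164183) (nat_lit 154) .nil)))))) (.g (nat_lit 4) .nil .nil))) 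
(.lf (nat_lit 155570) (.g (nat_lit 1657) (.e (nat_lit 57411) (nat_lit 12) (.e (nat_lit 336211) (nat_lit 13) (.e (nat_lit 393267) (nat_lit 23) (.e (nat_lit 426448) (nat_lit 20) (.e (nat_lit 114711) (nat_lit 21) .nil))))) .nil)))) (.nd (nat_lit 4) (.nd (nat_lit 5) 
(.lf (nat_lit 155530) (.g (nat_lit 2470) (.e (nat_lit 57411) (nat_lit 12) (.e (nat_lit 336211) (nat_lit 13) (.e (nat_lit 393234) (nat_lit 17) (.e (nat_lit 7591) (nat_lit 407) (.e (nat_lit 73730) (nat_lit 0) (.e (nat_lit 7261) (nat_lit 384) .nil)))))) (.g (nat_lit 4) .nil .nil))) 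
(.lf (nat_lit 155562) (.g (nat_lit 1358) (.e (nat_lit 57411) (nat_lit 12) (.e (nat_lit 336211) (nat_lit 13) (.e (nat_lit 393264) (nat_lit 22) (.e (nat_lit 417828) (nat_lit 18) (.e (nat_lit 303115) (nat_lit 1) .nil))))) .nil))) (.nd (nat_lit 5) 
(.lf (nat_lit 155546) (.g (nat_lit 2309) (.e (nat_lit 57411) (nat_lit 12) (.e (nat_lit 336211) (nat_lit 13) (.e (nat_lit 393260) (nat_lit 21) (.e (nat_lit 409646) (nat_lit 18) (.e (nat_lit 303114) (nat_lit 1) .nil))))) .nil)) 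
(.lf (nat_lit 155578) (.g (nat_lit 2778) (.e (nat_lit 57411) (nat_lit 12) (.e (nat_lit 336211) (nat_lit 13) (.e (nat_lit 393268) (nat_lit 23) (.e (nat_lit 426448) (nat_lit 20) (.e (nat_lit 114711) (nat_lit 21) (.e (nat_lit 57844) (nat_lit 252) .nil)))))) (.g (nat_lit 5) .nil .nil)))))) (.nd (nat_lit 3) (.nd (nat_lit 4) (.nd (nat_lit 5) 
(.lf (nat_lit 155526) (.g (nat_lit 2260) (.e (nat_lit 57411) (nat_lit 12) (.e (nat_lit 336211) (nat_lit 13) (.e (nat_lit 393232) (nat_lit 17) (.e (nat_lit 7593) (nat_lit 407) (.e (nat_lit 73731) (nat_lit 0) (.e (nat_lit 7261) (nat_lit 384) .nil)))))) (.g (nat_lit 4) .nil .nil))) 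
(.lf (nat_lit 155558) (.g (nat_lit 381) (.e (nat_lit 57411) (nat_lit 12) (.e (nat_lit 336211) (nat_lit 13) (.e (nat_lit 393263) (nat_lit 22) .nil))) .nil))) (.nd (nat_lit 5) 
(.lf (nat_lit 155542) (.g (nat_lit 2316) (.e (nat_lit 57411) (nat_lit 12) (.e (nat_lit 336211) (nat_lit 13) (.e (nat_lit 393260) (nat_lit 21) (.e (nat_lit 409645) (nat_lit 18) (.e (nat_lit 303114) (nat_lit 1) .nil))))) .nil)) 
(.lf (nat_lit 155574) (.g (nat_lit 2251) (.e (nat_lit 57411) (nat_lit 12) (.e (nat_lit 336211) (nat_lit 13) (.e (nat_lit 393268) (nat_lit 23) (.e (nat_lit 426446) (nat_lit 20) (.e (nat_lit 114710) (nat_lit 21) (.e (nat_lit 57848) (nat_lit 252) .nil)))))) (.g (nat_lit 5) .nil .nil))))) (.nd (nat_lit 4) (.nd (nat_lit 5) 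
(.lf (nat_lit 155534) (.g (nat_lit 2050) (.e (nat_lit 57411) (nat_lit 12) (.e (nat_lit 336211) (nat_lit 13) (.e (nat_lit 393234) (nat_lit 17) (.e (nat_lit 7593) (nat_lit 407) (.e (nat_lit 73732) (nat_lit 0) (.e (nat_lit 7936) (nat_lit 384) .nil)))))) (.g (nat_lit 4) .nil .nil))) 
(.lf (nat_lit 155566) (.g (nat_lit 1981) (.e (nat_lit 57411) (nat_lit 12) (.e (nat_lit 336211) (nat_lit 13) (.e (nat_lit 393267) (nat_lit 23) (.e (nat_lit 426446) (nat_lit 20) (.e (nat_lit 114710) (nat_lit 21) (.e (nat_lit 57848) (nat_lit 252) .nil)))))) (.g (nat_lit 4) .nil .nil)))) (.nd (nat_lit 5) 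
(.lf (nat_lit 155550) (.g (nat_lit 3092) (.e (nat_lit 57411) (nat_lit 12) (.e (nat_lit 336211) (nat_lit 13) (.e (nat_lit 393260) (nat_lit 21) (.e (nat_lit 409648) (nat_lit 18) (.e (nat_lit 303114) (nat_lit 1) (.e (nat_lit 164182) (nat_lit 154) .nil)))))) (.g (nat_lit 0) .nil .nil))) 
(.lf (nat_lit 155582) (.g (nat_lit 1730) (.e (nat_lit 57411) (nat_lit 12) (.e (nat_lit 336211) (nat_lit 13) (.e (nat_lit 393268) (nat_lit 23) (.e (nat_lit 426449) (nat_lit 20) (.e (nat_lit 114711) (nat_lit 21) (.e (nat_lit 57848) (nat_lit 252) .nil)))))) (.g (nat_lit 4) .nil .nil)))))))) (.nd (nat_lit 1) (.nd (nat_lit 2) (.nd (nat_lit 3) (.nd (nat_lit 4) (.nd (nat_lit 5) 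
(.lf (nat_lit 155521) (.g (nat_lit 2426) (.e (nat_lit 57411) (nat_lit 12) (.e (nat_lit 336210) (nat_lit 13) (.e (nat_lit 393260) (nat_lit 21) (.e (nat_lit 409649) (nat_lit 18) (.e (nat_lit 303114) (nat_lit 1) (.e (nat_lit 164182) (nat_lit 154) .nil)))))) (.g (nat_lit 4) .nil .nil))) 
(.lf (nat_lit 155553) (.g (nat_lit 3395) (.e (nat_lit 57411) (nat_lit 12) (.e (nat_lit 336211) (nat_lit 13) (.e (nat_lit 393260) (nat_lit 21) (.e (nat_lit 409649) (nat_lit 18) (.e (nat_lit 303114) (nat_lit 1) (.e (nat_lit 164182) (nat_lit 154) .nil)))))) (.g (nat_lit 0) .nil .nil)))) (.nd (nat_lit 5) 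
(.lf (nat_lit 155537) (.g (nat_lit 3542) (.e (nat_lit 57411) (nat_lit 12) (.e (nat_lit 336211) (nat_lit 13) (.e (nat_lit 393259) (nat_lit 21) (.e (nat_lit 409645) (nat_lit 18) (.e (nat_lit 303115) (nat_lit 1) (.e (nat_lit 164182) (nat_lit 154) .nil)))))) (.g (nat_lit 0) .nil .nil))) 
(.lf (nat_lit 155569) (.g (nat_lit 1888) (.e (nat_lit 57411) (nat_lit 12) (.e (nat_lit 336211) (nat_lit 13) (.e (nat_lit 393267) (nat_lit 23) (.e (nat_lit 426448) (nat_lit 20) (.e (nat_lit 114710) (nat_lit 21) (.e (nat_lit 57849) (nat_lit 252) .nil)))))) (.g (nat_lit 4) .nil .nil))))) (.nd (nat_lit 4) (.nd (nat_lit 5) 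
(.lf (nat_lit 155529) (.g (nat_lit 2415) (.e (nat_lit 57411) (nat_lit 12) (.e (nat_lit 336211) (nat_lit 13) (.e (nat_lit 393233) (nat_lit 17) (.e (nat_lit 7593) (nat_lit 407) (.e (nat_lit 73732) (nat_lit 0) (.e (nat_lit 7936) (nat_lit 384) .nil)))))) (.g (nat_lit 5) .nil .nil))) 
(.lf (nat_lit 155561) (.g (nat_lit 412) (.e (nat_lit 57411) (nat_lit 12) (.e (nat_lit 336211) (nat_lit 13) (.e (nat_lit 393264) (nat_lit 22) .nil))) .nil))) (.nd (nat_lit 5) 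
(.lf (nat_lit 155545) (.g (nat_lit 2384) (.e (nat_lit 57411) (nat_lit 12) (.e (nat_lit 336211) (nat_lit 13) (.e (nat_lit 393260) (nat_lit 21) (.e (nat_lit 409645) (nat_lit 18) (.e (nat_lit 303115) (nat_lit 1) (.e (nat_lit 164183) (nat_lit 154) .nil)))))) (.g (nat_lit 4) .nil .nil))) 
(.lf (nat_lit 155577) (.g (nat_lit 2007) (.e (nat_lit 57411) (nat_lit 12) (.e (nat_lit 336211) (nat_lit 13) (.e (nat_lit 393268) (nat_lit 23) (.e (nat_lit 426448) (nat_lit 20) (.e (nat_lit 114710) (nat_lit 21) (.e (nat_lit 57844) (nat_lit 252) .nil)))))) (.g (nat_lit 4) .nil .nil)))))) (.nd (nat_lit 3) (.nd (nat_lit 4) (.nd (nat_lit 5) 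
(.lf (nat_lit 155525) (.g (nat_lit 3257) (.e (nat_lit 57411) (nat_lit 12) (.e (nat_lit 336211) (nat_lit 13) (.e (nat_lit 393232) (nat_lit 17) (.e (nat_lit 7593) (nat_lit 407) (.e (nat_lit 73729) (nat_lit 0) (.e (nat_lit 7261) (nat_lit 384) .nil)))))) (.g (nat_lit 6) .nil .nil))) 
(.lf (nat_lit 155557) (.g (nat_lit 1978) (.e (nat_lit 57411) (nat_lit 12) (.e (nat_lit 336211) (nat_lit 13) (.e (nat_lit 393260) (nat_lit 21) (.e (nat_lit 409651) (nat_lit 19) .nil)))) .nil))) (.nd (nat_lit 5) 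
(.lf (nat_lit 155541) (.g (nat_lit 2957) (.e (nat_lit 57411) (nat_lit 12) (.e (nat_lit 336211) (nat_lit 13) (.e (nat_lit 393260) (nat_lit 21) (.e (nat_lit 409644) (nat_lit 18) (.e (nat_lit 303115) (nat_lit 1) (.e (nat_lit 164182) (nat_lit 154) .nil)))))) (.g (nat_lit 6) .nil .nil))) 
(.lf (nat_lit 155573) (.g (nat_lit 2054) (.e (nat_lit 57411) (nat_lit 12) (.e (nat_lit 336211) (nat_lit 13) (.e (nat_lit 393268) (nat_lit 23) (.e (nat_lit 426446) (nat_lit 20) (.e (nat_lit 114710) (nat_lit 21) (.e (nat_lit 57846) (nat_lit 252) .nil)))))) (.g (nat_lit 4) .nil .nil))))) (.nd (nat_lit 4) (.nd (nat_lit 5) 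
(.lf (nat_lit 155533) (.g (nat_lit 2269) (.e (nat_lit 57411) (nat_lit 12) (.e (nat_lit 336211) (nat_lit 13) (.e (nat_lit 393234) (nat_lit 17) (.e (nat_lit 7593) (nat_lit 407) (.e (nat_lit 73730) (nat_lit 0) (.e (nat_lit 7261) (nat_lit 384) .nil)))))) (.g (nat_lit 4) .nil .nil))) 
(.lf (nat_lit 155565) (.g (nat_lit 2746) (.e (nat_lit 57411) (nat_lit 12) (.e (nat_lit 336211) (nat_lit 13) (.e (nat_lit 393267) (nat_lit 23) (.e (nat_lit 426446) (nat_lit 20) (.e (nat_lit 114710) (nat_lit 21) (.e (nat_lit 57847) (nat_lit 252) .nil)))))) (.g (nat_lit 6) .nil .nil)))) (.nd (nat_lit 5) 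
(.lf (nat_lit 155549) (.g (nat_lit 2287) (.e (nat_lit 57411) (nat_lit 12) (.e (nat_lit 336211) (nat_lit 13) (.e (nat_lit 393260) (nat_lit 21) (.e (nat_lit 409647) (nat_lit 18) (.e (nat_lit 303115) (nat_lit 1) (.e (nat_lit 164182) (nat_lit 154) .nil)))))) (.g (nat_lit 4) .nil .nil))) 
(.lf (nat_lit 155581) (.g (nat_lit 1878) (.e (nat_lit 57411) (nat_lit 12) (.e (nat_lit 336211) (nat_lit 13) (.e (nat_lit 393268) (nat_lit 23) (.e (nat_lit 426449) (nat_lit 20) (.e (nat_lit 114710) (nat_lit 21) (.e (nat_lit 57847) (nat_lit 252) .nil)))))) (.g (nat_lit 4) .nil .nil))))))) (.nd (nat_lit 2) (.nd (nat_lit 3) (.nd (nat_lit 4) (.nd (nat_lit 5) 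
(.lf (nat_lit 155523) (.g (nat_lit 2559) (.e (nat_lit 57411) (nat_lit 12) (.e (nat_lit 336210) (nat_lit 13) (.e (nat_lit 393260) (nat_lit 21) (.e (nat_lit 409649) (nat_lit 18) (.e (nat_lit 303115) (nat_lit 1) (.e (nat_lit 164182) (nat_lit 154) .nil)))))) (.g (nat_lit 4) .nil .nil))) 
(.lf (nat_lit 155555) (.g (nat_lit 1830) (.e (nat_lit 57411) (nat_lit 12) (.e (nat_lit 336211) (nat_lit 13) (.e (nat_lit 393260) (nat_lit 21) (.e (nat_lit 409649) (nat_lit 18) (.e (nat_lit 303115) (nat_lit 1) .nil))))) .nil))) (.nd (nat_lit 5) 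
(.lf (nat_lit 155539) (.g (nat_lit 3173) (.e (nat_lit 57411) (nat_lit 12) (.e (nat_lit 336211) (nat_lit 13) (.e (nat_lit 393259) (nat_lit 21) (.e (nat_lit 409646) (nat_lit 18) (.e (nat_lit 303115) (nat_lit 1) (.e (nat_lit 164182) (nat_lit 154) .nil)))))) (.g (nat_lit 5) .nil .nil))) 
(.lf (nat_lit 155571) (.g (nat_lit 1832) (.e (nat_lit 57411) (nat_lit 12) (.e (nat_lit 336211) (nat_lit 13) (.e (nat_lit 393268) (nat_lit 23) (.e (nat_lit 426350) (nat_lit 15) (.e (nat_lit 2198) (nat_lit 144) .nil))))) .nil)))) (.nd (nat_lit 4) (.nd (nat_lit 5) 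
(.lf (nat_lit 155531) (.g (nat_lit 2558) (.e (nat_lit 57411) (nat_lit 12) (.e (nat_lit 336211) (nat_lit 13) (.e (nat_lit 393234) (nat_lit 17) (.e (nat_lit 7591) (nat_lit 407) (.e (nat_lit 73731) (nat_lit 0) (.e (nat_lit 7261) (nat_lit 384) .nil)))))) (.g (nat_lit 4) .nil .nil))) 
(.lf (nat_lit 155563) (.g (nat_lit 387) (.e (nat_lit 57411) (nat_lit 12) (.e (nat_lit 336211) (nat_lit 13) (.e (nat_lit 393265) (nat_lit 22) .nil))) .nil))) (.nd (nat_lit 5) 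
(.lf (nat_lit 155547) (.g (nat_lit 3530) (.e (nat_lit 57411) (nat_lit 12) (.e (nat_lit 336211) (nat_lit 13) (.e (nat_lit 393260) (nat_lit 21) (.e (nat_lit 409646) (nat_lit 18) (.e (nat_lit 303115) (nat_lit 1) (.e (nat_lit 164182) (nat_lit 154) .nil)))))) (.g (nat_lit 0) .nil .nil))) 
(.lf (nat_lit 155579) (.g (nat_lit 3098) (.e (nat_lit 57411) (nat_lit 12) (.e (nat_lit 336211) (nat_lit 13) (.e (nat_lit 393268) (nat_lit 23) (.e (nat_lit 426448) (nat_lit 20) (.e (nat_lit 114711) (nat_lit 21) (.e (nat_lit 57848) (nat_lit 252) .nil)))))) (.g (nat_lit 6) .nil .nil)))))) (.nd (nat_lit 3) (.nd (nat_lit 4) (.nd (nat_lit 5) 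
(.lf (nat_lit 155527) (.g (nat_lit 2462) (.e (nat_lit 57411) (nat_lit 12) (.e (nat_lit 336211) (nat_lit 13) (.e (nat_lit 393232) (nat_lit 17) (.e (nat_lit 7593) (nat_lit 407) (.e (nat_lit 73732) (nat_lit 0) (.e (nat_lit 7936) (nat_lit 384) .nil)))))) (.g (nat_lit 5) .nil .nil))) 
(.lf (nat_lit 155559) (.g (nat_lit 2501) (.e (nat_lit 57411) (nat_lit 12) (.e (nat_lit 336211) (nat_lit 13) (.e (nat_lit 393263) (nat_lit 22) (.e (nat_lit 417828) (nat_lit 18) (.e (nat_lit 303115) (nat_lit 1) (.e (nat_lit 164182) (nat_lit 154) .nil)))))) (.g (nat_lit 5) .nil .nil)))) (.nd (nat_lit 5) 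
(.lf (nat_lit 155543) (.g (nat_lit 2630) (.e (nat_lit 57411) (nat_lit 12) (.e (nat_lit 336211) (nat_lit 13) (.e (nat_lit 393260) (nat_lit 21) (.e (nat_lit 409645) (nat_lit 18) (.e (nat_lit 303114) (nat_lit 1) (.e (nat_lit 164182) (nat_lit 154) .nil)))))) (.g (nat_lit 4) .nil .nil))) 
(.lf (nat_lit 155575) (.g (nat_lit 2513) (.e (nat_lit 57411) (nat_lit 12) (.e (nat_lit 336211) (nat_lit 13) (.e (nat_lit 393268) (nat_lit 23) (.e (nat_lit 426446) (nat_lit 20) (.e (nat_lit 114710) (nat_lit 21) (.e (nat_lit 57849) (nat_lit 252) .nil)))))) (.g (nat_lit 5) .nil .nil))))) (.nd (nat_lit 4) (.nd (nat_lit 5) 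
(.lf (nat_lit 155535) (.g (nat_lit 374) (.e (nat_lit 57411) (nat_lit 12) (.e (nat_lit 336211) (nat_lit 13) (.e (nat_lit 393259) (nat_lit 21) .nil))) .nil)) 
(.lf (nat_lit 155567) (.g (nat_lit 2240) (.e (nat_lit 57411) (nat_lit 12) (.e (nat_lit 336211) (nat_lit 13) (.e (nat_lit 393267) (nat_lit 23) (.e (nat_lit 426446) (nat_lit 20) (.e (nat_lit 114710) (nat_lit 21) (.e (nat_lit 57849) (nat_lit 252) .nil)))))) (.g (nat_lit 5) .nil .nil)))) (.nd (nat_lit 5) 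
(.lf (nat_lit 155551) (.g (nat_lit 2334) (.e (nat_lit 57411) (nat_lit 12) (.e (nat_lit 336211) (nat_lit 13) (.e (nat_lit 393260) (nat_lit 21) (.e (nat_lit 409648) (nat_lit 18) (.e (nat_lit 303114) (nat_lit 1) (.e (nat_lit 164183) (nat_lit 154) .nil)))))) (.g (nat_lit 4) .nil .nil))) 
(.lf (nat_lit 155583) (.g (nat_lit 2057) (.e (nat_lit 57411) (nat_lit 12) (.e (nat_lit 336211) (nat_lit 13) (.e (nat_lit 393268) (nat_lit 23) (.e (nat_lit 426449) (nat_lit 20) (.e (nat_lit 114711) (nat_lit 21) (.e (nat_lit 57849) (nat_lit 252) .nil)))))) (.g (nat_lit 4) .nil .nil)))))))))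

noncomputable def tv2078 : DT := (.nd (nat_lit 0) (.nd (nat_lit 1) (.nd (nat_lit 2) (.nd (nat_lit 3) (.nd (nat_lit 4) (.nd (nat_lit 5) 
(.lf (nat_lit 155584) (.g (nat_lit 1703) (.e (nat_lit 57411) (nat_lit 12) (.e (nat_lit 336211) (nat_lit 13) (.e (nat_lit 393268) (nat_lit 23) (.e (nat_lit 433920) (nat_lit 20) .nil)))) .nil)) 
(.lf (nat_lit 155616) (.g (nat_lit 2770) (.e (nat_lit 57411) (nat_lit 12) (.e (nat_lit 336211) (nat_lit 13) (.e (nat_lit 393271) (nat_lit 23) (.e (nat_lit 426449) (nat_lit 20) (.e (nat_lit 114711) (nat_lit 21) (.e (nat_lit 57847) (nat_lit 252) .nil)))))) (.g (nat_lit 4) .nil .nil)))) (.nd (nat_lit 5) 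
(.lf (nat_lit 155600) (.g (nat_lit 1574) (.e (nat_lit 57411) (nat_lit 12) (.e (nat_lit 336211) (nat_lit 13) (.e (nat_lit 393271) (nat_lit 23) (.e (nat_lit 425986) (nat_lit 0) .nil)))) .nil)) 
(.lf (nat_lit 155632) (.g (nat_lit 2520) (.e (nat_lit 57411) (nat_lit 12) (.e (nat_lit 336211) (nat_lit 13) (.e (nat_lit 393273) (nat_lit 23) (.e (nat_lit 426448) (nat_lit 20) (.e (nat_lit 114711) (nat_lit 21) (.e (nat_lit 57844) (nat_lit 252) .nil)))))) (.g (nat_lit 5) .nil .nil))))) (.nd (nat_lit 4) (.nd (nat_lit 5) 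
(.lf (nat_lit 155592) (.g (nat_lit 2667) (.e (nat_lit 57411) (nat_lit 12) (.e (nat_lit 336211) (nat_lit 13) (.e (nat_lit 393269) (nat_lit 23) (.e (nat_lit 426448) (nat_lit 20) (.e (nat_lit 114710) (nat_lit 21) (.e (nat_lit 57848) (nat_lit 252) .nil)))))) (.g (nat_lit 6) .nil .nil))) 
(.lf (nat_lit 155624) (.g (nat_lit 1776) (.e (nat_lit 57411) (nat_lit 12) (.e (nat_lit 336211) (nat_lit 13) (.e (nat_lit 393273) (nat_lit 23) (.e (nat_lit 426364) (nat_lit 15) (.e (nat_lit 2063) (nat_lit 142) .nil))))) .nil))) (.nd (nat_lit 5) 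
(.lf (nat_lit 155608) (.g (nat_lit 2535) (.e (nat_lit 57411) (nat_lit 12) (.e (nat_lit 336211) (nat_lit 13) (.e (nat_lit 393271) (nat_lit 23) (.e (nat_lit 426446) (nat_lit 20) (.e (nat_lit 114711) (nat_lit 21) (.e (nat_lit 57846) (nat_lit 252) .nil)))))) (.g (nat_lit 4) .nil .nil))) 
(.lf (nat_lit 155640) (.g (nat_lit 1333) (.e (nat_lit 57411) (nat_lit 12) (.e (nat_lit 336211) (nat_lit 13) (.e (nat_lit 393291) (nat_lit 26) (.e (nat_lit 475206) (nat_lit 40) .nil)))) .nil))))) (.nd (nat_lit 3) (.nd (nat_lit 4) (.nd (nat_lit 5) 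
(.lf (nat_lit 155588) (.g (nat_lit 2173) (.e (nat_lit 57411) (nat_lit 12) (.e (nat_lit 336211) (nat_lit 13) (.e (nat_lit 393269) (nat_lit 23) (.e (nat_lit 426446) (nat_lit 20) (.e (nat_lit 114710) (nat_lit 21) (.e (nat_lit 57849) (nat_lit 252) .nil)))))) (.g (nat_lit 5) .nil .nil))) 
(.lf (nat_lit 155620) (.g (nat_lit 2546) (.e (nat_lit 57411) (nat_lit 12) (.e (nat_lit 336211) (nat_lit 13) (.e (nat_lit 393272) (nat_lit 23) (.e (nat_lit 426448) (nat_lit 20) (.e (nat_lit 114711) (nat_lit 21) (.e (nat_lit 57844) (nat_lit 252) .nil)))))) (.g (nat_lit 5) .nil .nil)))) (.nd (nat_lit 5) 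
(.lf (nat_lit 155604) (.g (nat_lit 3268) (.e (nat_lit 57411) (nat_lit 12) (.e (nat_lit 336211) (nat_lit 13) (.e (nat_lit 393271) (nat_lit 23) (.e (nat_lit 426446) (nat_lit 20) (.e (nat_lit 114710) (nat_lit 21) (.e (nat_lit 57847) (nat_lit 252) .nil)))))) (.g (nat_lit 6) .nil .nil))) 
(.lf (nat_lit 155636) (.g (nat_lit 2291) (.e (nat_lit 57411) (nat_lit 12) (.e (nat_lit 336211) (nat_lit 13) (.e (nat_lit 393290) (nat_lit 26) (.e (nat_lit 475212) (nat_lit 42) (.e (nat_lit 720933) (nat_lit 21) (.e (nat_lit 57847) (nat_lit 252) .nil)))))) (.g (nat_lit 4) .nil .nil))))) (.nd (nat_lit 4) (.nd (nat_lit 5) 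
(.lf (nat_lit 155596) (.g (nat_lit 2883) (.e (nat_lit 57411) (nat_lit 12) (.e (nat_lit 336211) (nat_lit 13) (.e (nat_lit 393269) (nat_lit 23) (.e (nat_lit 426448) (nat_lit 20) (.e (nat_lit 114711) (nat_lit 21) (.e (nat_lit 57849) (nat_lit 252) .nil)))))) (.g (nat_lit 6) .nil .nil))) 
(.lf (nat_lit 155628) (.g (nat_lit 2649) (.e (nat_lit 57411) (nat_lit 12) (.e (nat_lit 336211) (nat_lit 13) (.e (nat_lit 393273) (nat_lit 23) (.e (nat_lit 426446) (nat_lit 20) (.e (nat_lit 114711) (nat_lit 21) (.e (nat_lit 57846) (nat_lit 252) .nil)))))) (.g (nat_lit 5) .nil .nil)))) (.nd (nat_lit 5) 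
(.lf (nat_lit 155612) (.g (nat_lit 2213) (.e (nat_lit 57411) (nat_lit 12) (.e (nat_lit 336211) (nat_lit 13) (.e (nat_lit 393271) (nat_lit 23) (.e (nat_lit 426448) (nat_lit 20) (.e (nat_lit 114710) (nat_lit 21) (.e (nat_lit 57844) (nat_lit 252) .nil)))))) (.g (nat_lit 4) .nil .nil))) 
(.lf (nat_lit 155644) (.g (nat_lit 2189) (.e (nat_lit 57411) (nat_lit 12) (.e (nat_lit 336211) (nat_lit 13) (.e (nat_lit 393291) (nat_lit 26) (.e (nat_lit 475214) (nat_lit 42) (.e (nat_lit 720933) (nat_lit 21) (.e (nat_lit 57844) (nat_lit 252) .nil)))))) (.g (nat_lit 4) .nil .nil))))))) (.nd (nat_lit 2) (.nd (nat_lit 3) (.nd (nat_lit 4) (.nd (nat_lit 5) 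
(.lf (nat_lit 155586) (.g (nat_lit 2679) (.e (nat_lit 57411) (nat_lit 12) (.e (nat_lit 336211) (nat_lit 13) (.e (nat_lit 393269) (nat_lit 23) (.e (nat_lit 426446) (nat_lit 20) (.e (nat_lit 114710) (nat_lit 21) (.e (nat_lit 57847) (nat_lit 252) .nil)))))) (.g (nat_lit 6) .nil .nil))) 
(.lf (nat_lit 155618) (.g (nat_lit 2273) (.e (nat_lit 57411) (nat_lit 12) (.e (nat_lit 336211) (nat_lit 13) (.e (nat_lit 393272) (nat_lit 23) (.e (nat_lit 426446) (nat_lit 20) (.e (nat_lit 114710) (nat_lit 21) (.e (nat_lit 57848) (nat_lit 252) .nil)))))) (.g (nat_lit 5) .nil .nil)))) (.nd (nat_lit 5) 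
(.lf (nat_lit 155602) (.g (nat_lit 1830) (.e (nat_lit 57411) (nat_lit 12) (.e (nat_lit 336211) (nat_lit 13) (.e (nat_lit 393271) (nat_lit 23) (.e (nat_lit 426354) (nat_lit 15) (.e (nat_lit 2184) (nat_lit 144) .nil))))) .nil)) 
(.lf (nat_lit 155634) (.g (nat_lit 2819) (.e (nat_lit 57411) (nat_lit 12) (.e (nat_lit 336211) (nat_lit 13) (.e (nat_lit 393273) (nat_lit 23) (.e (nat_lit 426448) (nat_lit 20) (.e (nat_lit 114711) (nat_lit 21) (.e (nat_lit 57848) (nat_lit 252) .nil)))))) (.g (nat_lit 6) .nil .nil))))) (.nd (nat_lit 4) (.nd (nat_lit 5) 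
(.lf (nat_lit 155594) (.g (nat_lit 3303) (.e (nat_lit 57411) (nat_lit 12) (.e (nat_lit 336211) (nat_lit 13) (.e (nat_lit 393269) (nat_lit 23) (.e (nat_lit 426448) (nat_lit 20) (.e (nat_lit 114711) (nat_lit 21) (.e (nat_lit 57847) (nat_lit 252) .nil)))))) (.g (nat_lit 6) .nil .nil))) 
(.lf (nat_lit 155626) (.g (nat_lit 2613) (.e (nat_lit 57411) (nat_lit 12) (.e (nat_lit 336211) (nat_lit 13) (.e (nat_lit 393273) (nat_lit 23) (.e (nat_lit 426446) (nat_lit 20) (.e (nat_lit 114710) (nat_lit 21) (.e (nat_lit 57848) (nat_lit 252) .nil)))))) (.g (nat_lit 5) .nil .nil)))) (.nd (nat_lit 5) 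
(.lf (nat_lit 155610) (.g (nat_lit 2980) (.e (nat_lit 57411) (nat_lit 12) (.e (nat_lit 336211) (nat_lit 13) (.e (nat_lit 393271) (nat_lit 23) (.e (nat_lit 426446) (nat_lit 20) (.e (nat_lit 114711) (nat_lit 21) (.e (nat_lit 57848) (nat_lit 252) .nil)))))) (.g (nat_lit 5) .nil .nil))) 
(.lf (nat_lit 155642) (.g (nat_lit 1985) (.e (nat_lit 57411) (nat_lit 12) (.e (nat_lit 336211) (nat_lit 13) (.e (nat_lit 393291) (nat_lit 26) (.e (nat_lit 475212) (nat_lit 42) (.e (nat_lit 720933) (nat_lit 21) (.e (nat_lit 57848) (nat_lit 252) .nil)))))) (.g (nat_lit 4) .nil .nil)))))) (.nd (nat_lit 3) (.nd (nat_lit 4) (.nd (nat_lit 5) 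
(.lf (nat_lit 155590) (.g (nat_lit 2466) (.e (nat_lit 57411) (nat_lit 12) (.e (nat_lit 336211) (nat_lit 13) (.e (nat_lit 393269) (nat_lit 23) (.e (nat_lit 426448) (nat_lit 20) (.e (nat_lit 114710) (nat_lit 21) (.e (nat_lit 57846) (nat_lit 252) .nil)))))) (.g (nat_lit 5) .nil .nil))) 
(.lf (nat_lit 155622) (.g (nat_lit 2537) (.e (nat_lit 57411) (nat_lit 12) (.e (nat_lit 336211) (nat_lit 13) (.e (nat_lit 393273) (nat_lit 23) (.e (nat_lit 426354) (nat_lit 15) (.e (nat_lit 2198) (nat_lit 144) (.e (nat_lit 720933) (nat_lit 21) (.e (nat_lit 57847) (nat_lit 252) .nil))))))) (.g (nat_lit 4) .nil .nil)))) (.nd (nat_lit 5) 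
(.lf (nat_lit 155606) (.g (nat_lit 2729) (.e (nat_lit 57411) (nat_lit 12) (.e (nat_lit 336211) (nat_lit 13) (.e (nat_lit 393271) (nat_lit 23) (.e (nat_lit 426446) (nat_lit 20) (.e (nat_lit 114710) (nat_lit 21) (.e (nat_lit 57849) (nat_lit 252) .nil)))))) (.g (nat_lit 5) .nil .nil))) 
(.lf (nat_lit 155638) (.g (nat_lit 1371) (.e (nat_lit 57411) (nat_lit 12) (.e (nat_lit 336211) (nat_lit 13) (.e (nat_lit 393291) (nat_lit 26) (.e (nat_lit 475203) (nat_lit 40) .nil)))) .nil)))) (.nd (nat_lit 4) (.nd (nat_lit 5) 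
(.lf (nat_lit 155598) (.g (nat_lit 2512) (.e (nat_lit 57411) (nat_lit 12) (.e (nat_lit 336211) (nat_lit 13) (.e (nat_lit 393270) (nat_lit 23) (.e (nat_lit 426446) (nat_lit 20) (.e (nat_lit 114711) (nat_lit 21) (.e (nat_lit 57849) (nat_lit 252) .nil)))))) (.g (nat_lit 6) .nil .nil))) 
(.lf (nat_lit 155630) (.g (nat_lit 1859) (.e (nat_lit 57411) (nat_lit 12) (.e (nat_lit 336211) (nat_lit 13) (.e (nat_lit 393273) (nat_lit 23) (.e (nat_lit 426448) (nat_lit 20) (.e (nat_lit 114710) (nat_lit 21) (.e (nat_lit 57844) (nat_lit 252) .nil)))))) (.g (nat_lit 4) .nil .nil)))) (.nd (nat_lit 5) 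
(.lf (nat_lit 155614) (.g (nat_lit 2895) (.e (nat_lit 57411) (nat_lit 12) (.e (nat_lit 336211) (nat_lit 13) (.e (nat_lit 393271) (nat_lit 23) (.e (nat_lit 426448) (nat_lit 20) (.e (nat_lit 114711) (nat_lit 21) (.e (nat_lit 57844) (nat_lit 252) .nil)))))) (.g (nat_lit 5) .nil .nil))) 
(.lf (nat_lit 155646) (.g (nat_lit 2690) (.e (nat_lit 57411) (nat_lit 12) (.e (nat_lit 336211) (nat_lit 13) (.e (nat_lit 393291) (nat_lit 26) (.e (nat_lit 475214) (nat_lit 42) (.e (nat_lit 720933) (nat_lit 21) (.e (nat_lit 57849) (nat_lit 252) .nil)))))) (.g (nat_lit 5) .nil .nil)))))))) (.nd (nat_lit 1) (.nd (nat_lit 2) (.nd (nat_lit 3) (.nd (nat_lit 4) (.nd (nat_lit 5) 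
(.lf (nat_lit 155585) (.g (nat_lit 1571) (.e (nat_lit 57411) (nat_lit 12) (.e (nat_lit 336211) (nat_lit 13) (.e (nat_lit 393268) (nat_lit 23) (.e (nat_lit 426467) (nat_lit 24) .nil)))) .nil)) 
(.lf (nat_lit 155617) (.g (nat_lit 2007) (.e (nat_lit 57411) (nat_lit 12) (.e (nat_lit 336211) (nat_lit 13) (.e (nat_lit 393272) (nat_lit 23) (.e (nat_lit 426446) (nat_lit 20) (.e (nat_lit 114710) (nat_lit 21) (.e (nat_lit 57846) (nat_lit 252) .nil)))))) (.g (nat_lit 4) .nil .nil)))) (.nd (nat_lit 5) 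
(.lf (nat_lit 155601) (.g (nat_lit 963) (.e (nat_lit 57411) (nat_lit 12) (.e (nat_lit 336211) (nat_lit 13) (.e (nat_lit 393271) (nat_lit 23) (.e (nat_lit 426354) (nat_lit 15) .nil)))) .nil)) 
(.lf (nat_lit 155633) (.g (nat_lit 2712) (.e (nat_lit 57411) (nat_lit 12) (.e (nat_lit 336211) (nat_lit 13) (.e (nat_lit 393273) (nat_lit 23) (.e (nat_lit 426448) (nat_lit 20) (.e (nat_lit 114711) (nat_lit 21) (.e (nat_lit 57846) (nat_lit 252) .nil)))))) (.g (nat_lit 6) .nil .nil))))) (.nd (nat_lit 4) (.nd (nat_lit 5) 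
(.lf (nat_lit 155593) (.g (nat_lit 2849) (.e (nat_lit 57411) (nat_lit 12) (.e (nat_lit 336211) (nat_lit 13) (.e (nat_lit 393269) (nat_lit 23) (.e (nat_lit 426448) (nat_lit 20) (.e (nat_lit 114710) (nat_lit 21) (.e (nat_lit 57849) (nat_lit 252) .nil)))))) (.g (nat_lit 6) .nil .nil))) 
(.lf (nat_lit 155625) (.g (nat_lit 1780) (.e (nat_lit 57411) (nat_lit 12) (.e (nat_lit 336211) (nat_lit 13) (.e (nat_lit 393273) (nat_lit 23) (.e (nat_lit 426364) (nat_lit 15) (.e (nat_lit 2201) (nat_lit 144) .nil))))) .nil))) (.nd (nat_lit 5) 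
(.lf (nat_lit 155609) (.g (nat_lit 3588) (.e (nat_lit 57411) (nat_lit 12) (.e (nat_lit 336211) (nat_lit 13) (.e (nat_lit 393271) (nat_lit 23) (.e (nat_lit 426446) (nat_lit 20) (.e (nat_lit 114711) (nat_lit 21) (.e (nat_lit 57847) (nat_lit 252) .nil)))))) (.g (nat_lit 6) .nil .nil))) 
(.lf (nat_lit 155641) (.g (nat_lit 1949) (.e (nat_lit 57411) (nat_lit 12) (.e (nat_lit 336211) (nat_lit 13) (.e (nat_lit 393291) (nat_lit 26) (.e (nat_lit 475212) (nat_lit 42) (.e (nat_lit 720933) (nat_lit 21) (.e (nat_lit 57844) (nat_lit 252) .nil)))))) (.g (nat_lit 4) .nil .nil)))))) (.nd (nat_lit 3) (.nd (nat_lit 4) (.nd (nat_lit 5) 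
(.lf (nat_lit 155589) (.g (nat_lit 2440) (.e (nat_lit 57411) (nat_lit 12) (.e (nat_lit 336211) (nat_lit 13) (.e (nat_lit 393269) (nat_lit 23) (.e (nat_lit 426446) (nat_lit 20) (.e (nat_lit 114711) (nat_lit 21) (.e (nat_lit 57848) (nat_lit 252) .nil)))))) (.g (nat_lit 6) .nil .nil))) 
(.lf (nat_lit 155621) (.g (nat_lit 2693) (.e (nat_lit 57411) (nat_lit 12) (.e (nat_lit 336211) (nat_lit 13) (.e (nat_lit 393272) (nat_lit 23) (.e (nat_lit 426448) (nat_lit 20) (.e (nat_lit 114711) (nat_lit 21) (.e (nat_lit 57846) (nat_lit 252) .nil)))))) (.g (nat_lit 6) .nil .nil)))) (.nd (nat_lit 5) 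
(.lf (nat_lit 155605) (.g (nat_lit 2506) (.e (nat_lit 57411) (nat_lit 12) (.e (nat_lit 336211) (nat_lit 13) (.e (nat_lit 393271) (nat_lit 23) (.e (nat_lit 426446) (nat_lit 20) (.e (nat_lit 114710) (nat_lit 21) (.e (nat_lit 57848) (nat_lit 252) .nil)))))) (.g (nat_lit 4) .nil .nil))) 
(.lf (nat_lit 155637) (.g (nat_lit 1805) (.e (nat_lit 57411) (nat_lit 12) (.e (nat_lit 336211) (nat_lit 13) (.e (nat_lit 393291) (nat_lit 26) (.e (nat_lit 475201) (nat_lit 40) (.e (nat_lit 704748) (nat_lit 12) (.e (nat_lit 57354) (nat_lit 0) (.e (nat_lit 5195) (nat_lit 294) .nil))))))) (.g (nat_lit 4) .nil .nil))))) (.nd (nat_lit 4) (.nd (nat_lit 5) 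
(.lf (nat_lit 155597) (.g (nat_lit 2199) (.e (nat_lit 57411) (nat_lit 12) (.e (nat_lit 336211) (nat_lit 13) (.e (nat_lit 393270) (nat_lit 23) (.e (nat_lit 426446) (nat_lit 20) (.e (nat_lit 114710) (nat_lit 21) (.e (nat_lit 57848) (nat_lit 252) .nil)))))) (.g (nat_lit 5) .nil .nil))) 
(.lf (nat_lit 155629) (.g (nat_lit 3037) (.e (nat_lit 57411) (nat_lit 12) (.e (nat_lit 336211) (nat_lit 13) (.e (nat_lit 393273) (nat_lit 23) (.e (nat_lit 426446) (nat_lit 20) (.e (nat_lit 114711) (nat_lit 21) (.e (nat_lit 57849) (nat_lit 252) .nil)))))) (.g (nat_lit 6) .nil .nil)))) (.nd (nat_lit 5) 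
(.lf (nat_lit 155613) (.g (nat_lit 3308) (.e (nat_lit 57411) (nat_lit 12) (.e (nat_lit 336211) (nat_lit 13) (.e (nat_lit 393271) (nat_lit 23) (.e (nat_lit 426448) (nat_lit 20) (.e (nat_lit 114710) (nat_lit 21) (.e (nat_lit 57846) (nat_lit 252) .nil)))))) (.g (nat_lit 6) .nil .nil))) 
(.lf (nat_lit 155645) (.g (nat_lit 2129) (.e (nat_lit 57411) (nat_lit 12) (.e (nat_lit 336211) (nat_lit 13) (.e (nat_lit 393291) (nat_lit 26) (.e (nat_lit 475214) (nat_lit 42) (.e (nat_lit 720933) (nat_lit 21) (.e (nat_lit 57848) (nat_lit 252) .nil)))))) (.g (nat_lit 4) .nil .nil))))))) (.nd (nat_lit 2) (.nd (nat_lit 3) (.nd (nat_lit 4) (.nd (nat_lit 5) 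
(.lf (nat_lit 155587) (.g (nat_lit 1953) (.e (nat_lit 57411) (nat_lit 12) (.e (nat_lit 336211) (nat_lit 13) (.e (nat_lit 393269) (nat_lit 23) (.e (nat_lit 426446) (nat_lit 20) (.e (nat_lit 114710) (nat_lit 21) (.e (nat_lit 57848) (nat_lit 252) .nil)))))) (.g (nat_lit 5) .nil .nil))) 
(.lf (nat_lit 155619) (.g (nat_lit 1798) (.e (nat_lit 57411) (nat_lit 12) (.e (nat_lit 336211) (nat_lit 13) (.e (nat_lit 393272) (nat_lit 23) (.e (nat_lit 426448) (nat_lit 20) (.e (nat_lit 114710) (nat_lit 21) (.e (nat_lit 57844) (nat_lit 252) .nil)))))) (.g (nat_lit 4) .nil .nil)))) (.nd (nat_lit 5) 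
(.lf (nat_lit 155603) (.g (nat_lit 2288) (.e (nat_lit 57411) (nat_lit 12) (.e (nat_lit 336211) (nat_lit 13) (.e (nat_lit 393271) (nat_lit 23) (.e (nat_lit 426446) (nat_lit 20) (.e (nat_lit 114710) (nat_lit 21) (.e (nat_lit 57846) (nat_lit 252) .nil)))))) (.g (nat_lit 4) .nil .nil))) 
(.lf (nat_lit 155635) (.g (nat_lit 1953) (.e (nat_lit 57411) (nat_lit 12) (.e (nat_lit 336211) (nat_lit 13) (.e (nat_lit 393290) (nat_lit 26) (.e (nat_lit 475212) (nat_lit 42) (.e (nat_lit 720929) (nat_lit 21) (.e (nat_lit 57847) (nat_lit 252) .nil)))))) (.g (nat_lit 4) .nil .nil))))) (.nd (nat_lit 4) (.nd (nat_lit 5) 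
(.lf (nat_lit 155595) (.g (nat_lit 2502) (.e (nat_lit 57411) (nat_lit 12) (.e (nat_lit 336211) (nat_lit 13) (.e (nat_lit 393269) (nat_lit 23) (.e (nat_lit 426448) (nat_lit 20) (.e (nat_lit 114711) (nat_lit 21) (.e (nat_lit 57848) (nat_lit 252) .nil)))))) (.g (nat_lit 5) .nil .nil))) 
(.lf (nat_lit 155627) (.g (nat_lit 2520) (.e (nat_lit 57411) (nat_lit 12) (.e (nat_lit 336211) (nat_lit 13) (.e (nat_lit 393273) (nat_lit 23) (.e (nat_lit 426446) (nat_lit 20) (.e (nat_lit 114711) (nat_lit 21) (.e (nat_lit 57844) (nat_lit 252) .nil)))))) (.g (nat_lit 5) .nil .nil)))) (.nd (nat_lit 5) 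
(.lf (nat_lit 155611) (.g (nat_lit 2909) (.e (nat_lit 57411) (nat_lit 12) (.e (nat_lit 336211) (nat_lit 13) (.e (nat_lit 393271) (nat_lit 23) (.e (nat_lit 426446) (nat_lit 20) (.e (nat_lit 114711) (nat_lit 21) (.e (nat_lit 57849) (nat_lit 252) .nil)))))) (.g (nat_lit 5) .nil .nil))) 
(.lf (nat_lit 155643) (.g (nat_lit 2529) (.e (nat_lit 57411) (nat_lit 12) (.e (nat_lit 336211) (nat_lit 13) (.e (nat_lit 393291) (nat_lit 26) (.e (nat_lit 475214) (nat_lit 42) (.e (nat_lit 720928) (nat_lit 21) (.e (nat_lit 57849) (nat_lit 252) .nil)))))) (.g (nat_lit 4) .nil .nil)))))) (.nd (nat_lit 3) (.nd (nat_lit 4) (.nd (nat_lit 5) 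
(.lf (nat_lit 155591) (.g (nat_lit 3033) (.e (nat_lit 57411) (nat_lit 12) (.e (nat_lit 336211) (nat_lit 13) (.e (nat_lit 393269) (nat_lit 23) (.e (nat_lit 426448) (nat_lit 20) (.e (nat_lit 114710) (nat_lit 21) (.e (nat_lit 57847) (nat_lit 252) .nil)))))) (.g (nat_lit 6) .nil .nil))) 
(.lf (nat_lit 155623) (.g (nat_lit 1082) (.e (nat_lit 57411) (nat_lit 12) (.e (nat_lit 336211) (nat_lit 13) (.e (nat_lit 393273) (nat_lit 23) (.e (nat_lit 426364) (nat_lit 15) .nil)))) .nil))) (.nd (nat_lit 5) 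
(.lf (nat_lit 155607) (.g (nat_lit 2405) (.e (nat_lit 57411) (nat_lit 12) (.e (nat_lit 336211) (nat_lit 13) (.e (nat_lit 393271) (nat_lit 23) (.e (nat_lit 426446) (nat_lit 20) (.e (nat_lit 114711) (nat_lit 21) (.e (nat_lit 57844) (nat_lit 252) .nil)))))) (.g (nat_lit 4) .nil .nil))) 
(.lf (nat_lit 155639) (.g (nat_lit 1342) (.e (nat_lit 57411) (nat_lit 12) (.e (nat_lit 336211) (nat_lit 13) (.e (nat_lit 393291) (nat_lit 26) (.e (nat_lit 475204) (nat_lit 40) .nil)))) .nil)))) (.nd (nat_lit 4) (.nd (nat_lit 5) 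
(.lf (nat_lit 155599) (.g (nat_lit 1674) (.e (nat_lit 57411) (nat_lit 12) (.e (nat_lit 336211) (nat_lit 13) (.e (nat_lit 393270) (nat_lit 23) (.e (nat_lit 426448) (nat_lit 20) (.e (nat_lit 114710) (nat_lit 21) (.e (nat_lit 57844) (nat_lit 252) .nil)))))) (.g (nat_lit 4) .nil .nil))) 
(.lf (nat_lit 155631) (.g (nat_lit 2955) (.e (nat_lit 57411) (nat_lit 12) (.e (nat_lit 336211) (nat_lit 13) (.e (nat_lit 393273) (nat_lit 23) (.e (nat_lit 426448) (nat_lit 20) (.e (nat_lit 114710) (nat_lit 21) (.e (nat_lit 57846) (nat_lit 252) .nil)))))) (.g (nat_lit 6) .nil .nil)))) (.nd (nat_lit 5) 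
(.lf (nat_lit 155615) (.g (nat_lit 3230) (.e (nat_lit 57411) (nat_lit 12) (.e (nat_lit 336211) (nat_lit 13) (.e (nat_lit 393271) (nat_lit 23) (.e (nat_lit 426448) (nat_lit 20) (.e (nat_lit 114711) (nat_lit 21) (.e (nat_lit 57848) (nat_lit 252) .nil)))))) (.g (nat_lit 6) .nil .nil))) 
(.lf (nat_lit 155647) (.g (nat_lit 1964) (.e (nat_lit 57411) (nat_lit 12) (.e (nat_lit 336211) (nat_lit 13) (.e (nat_lit 393291) (nat_lit 26) (.e (nat_lit 475219) (nat_lit 44) (.e (nat_lit 737315) (nat_lit 12) .nil))))) .nil))))))))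

noncomputable def tv2079 : DT := (.nd (nat_lit 0) (.nd (nat_lit 1) (.nd (nat_lit 2) (.nd (nat_lit 3) (.nd (nat_lit 4) (.nd (nat_lit 5) 
(.lf (nat_lit 155648) (.g (nat_lit 1924) (.e (nat_lit 57411) (nat_lit 12) (.e (nat_lit 336211) (nat_lit 13) (.e (nat_lit 393292) (nat_lit 26) (.e (nat_lit 475212) (nat_lit 42) (.e (nat_lit 720933) (nat_lit 21) (.e (nat_lit 57844) (nat_lit 252) .nil)))))) (.g (nat_lit 4) .nil .nil))) 
(.lf (nat_lit 155680) (.g (nat_lit 1676) (.e (nat_lit 57411) (nat_lit 12) (.e (nat_lit 336211) (nat_lit 13) (.e (nat_lit 393296) (nat_lit 26) (.e (nat_lit 475212) (nat_lit 42) (.e (nat_lit 720933) (nat_lit 21) .nil))))) .nil))) (.nd (nat_lit 5) 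
(.lf (nat_lit 155664) (.g (nat_lit 1893) (.e (nat_lit 57411) (nat_lit 12) (.e (nat_lit 336211) (nat_lit 13) (.e (nat_lit 393294) (nat_lit 26) (.e (nat_lit 475214) (nat_lit 42) (.e (nat_lit 720933) (nat_lit 21) (.e (nat_lit 57844) (nat_lit 252) .nil)))))) (.g (nat_lit 4) .nil .nil))) 
(.lf (nat_lit 155696) (.g (nat_lit 2379) (.e (nat_lit 57411) (nat_lit 12) (.e (nat_lit 336211) (nat_lit 13) (.e (nat_lit 393298) (nat_lit 27) (.e (nat_lit 491566) (nat_lit 12) (.e (nat_lit 385045) (nat_lit 21) (.e (nat_lit 4525) (nat_lit 265) .nil)))))) (.g (nat_lit 4) .nil .nil))))) (.nd (nat_lit 4) (.nd (nat_lit 5) 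
(.lf (nat_lit 155656) (.g (nat_lit 2305) (.e (nat_lit 57411) (nat_lit 12) (.e (nat_lit 336211) (nat_lit 13) (.e (nat_lit 393294) (nat_lit 26) (.e (nat_lit 475212) (nat_lit 42) (.e (nat_lit 720929) (nat_lit 21) (.e (nat_lit 57849) (nat_lit 252) .nil)))))) (.g (nat_lit 4) .nil .nil))) 
(.lf (nat_lit 155688) (.g (nat_lit 2527) (.e (nat_lit 57411) (nat_lit 12) (.e (nat_lit 336211) (nat_lit 13) (.e (nat_lit 393297) (nat_lit 27) (.e (nat_lit 491566) (nat_lit 12) (.e (nat_lit 385045) (nat_lit 21) (.e (nat_lit 4525) (nat_lit 265) .nil)))))) (.g (nat_lit 4) .nil .nil)))) (.nd (nat_lit 5) 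
(.lf (nat_lit 155672) (.g (nat_lit 2681) (.e (nat_lit 57411) (nat_lit 12) (.e (nat_lit 336211) (nat_lit 13) (.e (nat_lit 393295) (nat_lit 26) (.e (nat_lit 475214) (nat_lit 42) (.e (nat_lit 720929) (nat_lit 21) (.e (nat_lit 57847) (nat_lit 252) .nil)))))) (.g (nat_lit 5) .nil .nil))) 
(.lf (nat_lit 155704) (.g (nat_lit 2441) (.e (nat_lit 57411) (nat_lit 12) (.e (nat_lit 336211) (nat_lit 13) (.e (nat_lit 393299) (nat_lit 27) (.e (nat_lit 491560) (nat_lit 10) (.e (nat_lit 344095) (nat_lit 18) .nil))))) .nil))))) (.nd (nat_lit 3) (.nd (nat_lit 4) (.nd (nat_lit 5) 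
(.lf (nat_lit 155652) (.g (nat_lit 1704) (.e (nat_lit 57411) (nat_lit 12) (.e (nat_lit 336211) (nat_lit 13) (.e (nat_lit 393293) (nat_lit 26) (.e (nat_lit 475212) (nat_lit 42) (.e (nat_lit 720933) (nat_lit 21) (.e (nat_lit 57844) (nat_lit 252) .nil)))))) (.g (nat_lit 4) .nil .nil))) 
(.lf (nat_lit 155684) (.g (nat_lit 2249) (.e (nat_lit 57411) (nat_lit 12) (.e (nat_lit 336211) (nat_lit 13) (.e (nat_lit 393297) (nat_lit 27) (.e (nat_lit 491566) (nat_lit 12) (.e (nat_lit 385043) (nat_lit 21) (.e (nat_lit 4523) (nat_lit 265) .nil)))))) (.g (nat_lit 4) .nil .nil)))) (.nd (nat_lit 5) 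
(.lf (nat_lit 155668) (.g (nat_lit 2708) (.e (nat_lit 57411) (nat_lit 12) (.e (nat_lit 336211) (nat_lit 13) (.e (nat_lit 393295) (nat_lit 26) (.e (nat_lit 475212) (nat_lit 42) (.e (nat_lit 720929) (nat_lit 21) (.e (nat_lit 57847) (nat_lit 252) .nil)))))) (.g (nat_lit 5) .nil .nil))) 
(.lf (nat_lit 155700) (.g (nat_lit 2395) (.e (nat_lit 57411) (nat_lit 12) (.e (nat_lit 336211) (nat_lit 13) (.e (nat_lit 393299) (nat_lit 27) (.e (nat_lit 491560) (nat_lit 10) (.e (nat_lit 344089) (nat_lit 18) .nil))))) .nil)))) (.nd (nat_lit 4) (.nd (nat_lit 5) 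
(.lf (nat_lit 155660) (.g (nat_lit 2399) (.e (nat_lit 57411) (nat_lit 12) (.e (nat_lit 336211) (nat_lit 13) (.e (nat_lit 393294) (nat_lit 26) (.e (nat_lit 475213) (nat_lit 42) (.e (nat_lit 720929) (nat_lit 21) (.e (nat_lit 57847) (nat_lit 252) .nil)))))) (.g (nat_lit 4) .nil .nil))) 
(.lf (nat_lit 155692) (.g (nat_lit 2357) (.e (nat_lit 57411) (nat_lit 12) (.e (nat_lit 336211) (nat_lit 13) (.e (nat_lit 393298) (nat_lit 27) (.e (nat_lit 491566) (nat_lit 12) (.e (nat_lit 385043) (nat_lit 21) .nil))))) .nil))) (.nd (nat_lit 5) 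
(.lf (nat_lit 155676) (.g (nat_lit 1778) (.e (nat_lit 57411) (nat_lit 12) (.e (nat_lit 336211) (nat_lit 13) (.e (nat_lit 393296) (nat_lit 26) (.e (nat_lit 475195) (nat_lit 40) (.e (nat_lit 704749) (nat_lit 12) .nil))))) .nil)) 
(.lf (nat_lit 155708) (.g (nat_lit 2175) (.e (nat_lit 57411) (nat_lit 12) (.e (nat_lit 336211) (nat_lit 13) (.e (nat_lit 393300) (nat_lit 27) (.e (nat_lit 491560) (nat_lit 10) (.e (nat_lit 344089) (nat_lit 18) (.e (nat_lit 7260) (nat_lit 384) .nil)))))) (.g (nat_lit 4) .nil .nil))))))) (.nd (nat_lit 2) (.nd (nat_lit 3) (.nd (nat_lit 4) (.nd (nat_lit 5) 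
(.lf (nat_lit 155650) (.g (nat_lit 1922) (.e (nat_lit 57411) (nat_lit 12) (.e (nat_lit 336211) (nat_lit 13) (.e (nat_lit 393292) (nat_lit 26) (.e (nat_lit 475214) (nat_lit 42) (.e (nat_lit 720932) (nat_lit 21) .nil))))) .nil)) 
(.lf (nat_lit 155682) (.g (nat_lit 1936) (.e (nat_lit 57411) (nat_lit 12) (.e (nat_lit 336211) (nat_lit 13) (.e (nat_lit 393296) (nat_lit 26) (.e (nat_lit 475214) (nat_lit 42) (.e (nat_lit 720932) (nat_lit 21) .nil))))) .nil))) (.nd (nat_lit 5) 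
(.lf (nat_lit 155666) (.g (nat_lit 1819) (.e (nat_lit 57411) (nat_lit 12) (.e (nat_lit 336211) (nat_lit 13) (.e (nat_lit 393294) (nat_lit 26) (.e (nat_lit 475214) (nat_lit 42) (.e (nat_lit 720933) (nat_lit 21) (.e (nat_lit 57848) (nat_lit 252) .nil)))))) (.g (nat_lit 4) .nil .nil))) 
(.lf (nat_lit 155698) (.g (nat_lit 3120) (.e (nat_lit 57411) (nat_lit 12) (.e (nat_lit 336211) (nat_lit 13) (.e (nat_lit 393299) (nat_lit 27) (.e (nat_lit 491558) (nat_lit 10) (.e (nat_lit 344091) (nat_lit 18) (.e (nat_lit 7261) (nat_lit 384) .nil)))))) (.g (nat_lit 5) .nil .nil))))) (.nd (nat_lit 4) (.nd (nat_lit 5) 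
(.lf (nat_lit 155658) (.g (nat_lit 2873) (.e (nat_lit 57411) (nat_lit 12) (.e (nat_lit 336211) (nat_lit 13) (.e (nat_lit 393294) (nat_lit 26) (.e (nat_lit 475212) (nat_lit 42) (.e (nat_lit 720933) (nat_lit 21) (.e (nat_lit 57847) (nat_lit 252) .nil)))))) (.g (nat_lit 5) .nil .nil))) 
(.lf (nat_lit 155690) (.g (nat_lit 1433) (.e (nat_lit 57411) (nat_lit 12) (.e (nat_lit 336211) (nat_lit 13) (.e (nat_lit 393298) (nat_lit 27) (.e (nat_lit 491560) (nat_lit 10) .nil)))) .nil))) (.nd (nat_lit 5) 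
(.lf (nat_lit 155674) (.g (nat_lit 2620) (.e (nat_lit 57411) (nat_lit 12) (.e (nat_lit 336211) (nat_lit 13) (.e (nat_lit 393295) (nat_lit 26) (.e (nat_lit 475214) (nat_lit 42) (.e (nat_lit 720933) (nat_lit 21) (.e (nat_lit 57847) (nat_lit 252) .nil)))))) (.g (nat_lit 4) .nil .nil))) 
(.lf (nat_lit 155706) (.g (nat_lit 1346) (.e (nat_lit 57411) (nat_lit 12) (.e (nat_lit 336211) (nat_lit 13) (.e (nat_lit 393299) (nat_lit 27) (.e (nat_lit 491572) (nat_lit 14) .nil)))) .nil))))) (.nd (nat_lit 3) (.nd (nat_lit 4) (.nd (nat_lit 5) 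
(.lf (nat_lit 155654) (.g (nat_lit 2583) (.e (nat_lit 57411) (nat_lit 12) (.e (nat_lit 336211) (nat_lit 13) (.e (nat_lit 393293) (nat_lit 26) (.e (nat_lit 475214) (nat_lit 42) (.e (nat_lit 720933) (nat_lit 21) (.e (nat_lit 57847) (nat_lit 252) .nil)))))) (.g (nat_lit 5) .nil .nil))) 
(.lf (nat_lit 155686) (.g (nat_lit 2595) (.e (nat_lit 57411) (nat_lit 12) (.e (nat_lit 336211) (nat_lit 13) (.e (nat_lit 393297) (nat_lit 27) (.e (nat_lit 491566) (nat_lit 12) (.e (nat_lit 385044) (nat_lit 21) .nil))))) .nil))) (.nd (nat_lit 5) 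
(.lf (nat_lit 155670) (.g (nat_lit 1617) (.e (nat_lit 57411) (nat_lit 12) (.e (nat_lit 336211) (nat_lit 13) (.e (nat_lit 393295) (nat_lit 26) (.e (nat_lit 475212) (nat_lit 42) (.e (nat_lit 720933) (nat_lit 21) .nil))))) .nil)) 
(.lf (nat_lit 155702) (.g (nat_lit 2475) (.e (nat_lit 57411) (nat_lit 12) (.e (nat_lit 336211) (nat_lit 13) (.e (nat_lit 393299) (nat_lit 27) (.e (nat_lit 491560) (nat_lit 10) (.e (nat_lit 344091) (nat_lit 18) (.e (nat_lit 7261) (nat_lit 384) .nil)))))) (.g (nat_lit 4) .nil .nil))))) (.nd (nat_lit 4) (.nd (nat_lit 5) 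
(.lf (nat_lit 155662) (.g (nat_lit 3052) (.e (nat_lit 57411) (nat_lit 12) (.e (nat_lit 336211) (nat_lit 13) (.e (nat_lit 393294) (nat_lit 26) (.e (nat_lit 475214) (nat_lit 42) (.e (nat_lit 720929) (nat_lit 21) (.e (nat_lit 57849) (nat_lit 252) .nil)))))) (.g (nat_lit 0) .nil .nil))) 
(.lf (nat_lit 155694) (.g (nat_lit 3481) (.e (nat_lit 57411) (nat_lit 12) (.e (nat_lit 336211) (nat_lit 13) (.e (nat_lit 393298) (nat_lit 27) (.e (nat_lit 491566) (nat_lit 12) (.e (nat_lit 385044) (nat_lit 21) (.e (nat_lit 4527) (nat_lit 265) .nil)))))) (.g (nat_lit 4) .nil .nil)))) (.nd (nat_lit 5) 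
(.lf (nat_lit 155678) (.g (nat_lit 2438) (.e (nat_lit 57411) (nat_lit 12) (.e (nat_lit 336211) (nat_lit 13) (.e (nat_lit 393296) (nat_lit 26) (.e (nat_lit 475212) (nat_lit 42) (.e (nat_lit 720929) (nat_lit 21) (.e (nat_lit 57847) (nat_lit 252) .nil)))))) (.g (nat_lit 4) .nil .nil))) 
(.lf (nat_lit 155710) (.g (nat_lit 2592) (.e (nat_lit 57411) (nat_lit 12) (.e (nat_lit 336211) (nat_lit 13) (.e (nat_lit 393300) (nat_lit 27) (.e (nat_lit 491560) (nat_lit 10) (.e (nat_lit 344095) (nat_lit 18) (.e (nat_lit 7261) (nat_lit 384) .nil)))))) (.g (nat_lit 4) .nil .nil)))))))) (.nd (nat_lit 1) (.nd (nat_lit 2) (.nd (nat_lit 3) (.nd (nat_lit 4) (.nd (nat_lit 5) 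
(.lf (nat_lit 155649) (.g (nat_lit 2012) (.e (nat_lit 57411) (nat_lit 12) (.e (nat_lit 336211) (nat_lit 13) (.e (nat_lit 393292) (nat_lit 26) (.e (nat_lit 475212) (nat_lit 42) (.e (nat_lit 720933) (nat_lit 21) (.e (nat_lit 57848) (nat_lit 252) .nil)))))) (.g (nat_lit 4) .nil .nil))) 
(.lf (nat_lit 155681) (.g (nat_lit 1938) (.e (nat_lit 57411) (nat_lit 12) (.e (nat_lit 336211) (nat_lit 13) (.e (nat_lit 393296) (nat_lit 26) (.e (nat_lit 475212) (nat_lit 42) (.e (nat_lit 720933) (nat_lit 21) (.e (nat_lit 57849) (nat_lit 252) .nil)))))) (.g (nat_lit 4) .nil .nil)))) (.nd (nat_lit 5) 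
(.lf (nat_lit 155665) (.g (nat_lit 3222) (.e (nat_lit 57411) (nat_lit 12) (.e (nat_lit 336211) (nat_lit 13) (.e (nat_lit 393294) (nat_lit 26) (.e (nat_lit 475214) (nat_lit 42) (.e (nat_lit 720933) (nat_lit 21) (.e (nat_lit 57847) (nat_lit 252) .nil)))))) (.g (nat_lit 6) .nil .nil))) 
(.lf (nat_lit 155697) (.g (nat_lit 3063) (.e (nat_lit 57411) (nat_lit 12) (.e (nat_lit 336211) (nat_lit 13) (.e (nat_lit 393299) (nat_lit 27) (.e (nat_lit 491546) (nat_lit 9) (.e (nat_lit 335997) (nat_lit 1) (.e (nat_lit 65280) (nat_lit 154) .nil)))))) (.g (nat_lit 5) .nil .nil))))) (.nd (nat_lit 4) (.nd (nat_lit 5) 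
(.lf (nat_lit 155657) (.g (nat_lit 2085) (.e (nat_lit 57411) (nat_lit 12) (.e (nat_lit 336211) (nat_lit 13) (.e (nat_lit 393294) (nat_lit 26) (.e (nat_lit 475212) (nat_lit 42) (.e (nat_lit 720933) (nat_lit 21) .nil))))) .nil)) 
(.lf (nat_lit 155689) (.g (nat_lit 1444) (.e (nat_lit 57411) (nat_lit 12) (.e (nat_lit 336211) (nat_lit 13) (.e (nat_lit 393298) (nat_lit 27) (.e (nat_lit 491546) (nat_lit 9) .nil)))) .nil))) (.nd (nat_lit 5) 
(.lf (nat_lit 155673) (.g (nat_lit 2376) (.e (nat_lit 57411) (nat_lit 12) (.e (nat_lit 336211) (nat_lit 13) (.e (nat_lit 393295) (nat_lit 26) (.e (nat_lit 475214) (nat_lit 42) (.e (nat_lit 720929) (nat_lit 21) (.e (nat_lit 57849) (nat_lit 252) .nil)))))) (.g (nat_lit 4) .nil .nil))) 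
(.lf (nat_lit 155705) (.g (nat_lit 2504) (.e (nat_lit 57411) (nat_lit 12) (.e (nat_lit 336211) (nat_lit 13) (.e (nat_lit 393299) (nat_lit 27) (.e (nat_lit 491560) (nat_lit 10) (.e (nat_lit 344096) (nat_lit 18) (.e (nat_lit 7261) (nat_lit 384) .nil)))))) (.g (nat_lit 4) .nil .nil)))))) (.nd (nat_lit 3) (.nd (nat_lit 4) (.nd (nat_lit 5) 
(.lf (nat_lit 155653) (.g (nat_lit 1776) (.e (nat_lit 57411) (nat_lit 12) (.e (nat_lit 336211) (nat_lit 13) (.e (nat_lit 393293) (nat_lit 26) (.e (nat_lit 475212) (nat_lit 42) (.e (nat_lit 720933) (nat_lit 21) (.e (nat_lit 57848) (nat_lit 252) .nil)))))) (.g (nat_lit 4) .nil .nil))) 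
(.lf (nat_lit 155685) (.g (nat_lit 2686) (.e (nat_lit 57411) (nat_lit 12) (.e (nat_lit 336211) (nat_lit 13) (.e (nat_lit 393297) (nat_lit 27) (.e (nat_lit 491566) (nat_lit 12) (.e (nat_lit 385043) (nat_lit 21) (.e (nat_lit 4525) (nat_lit 265) .nil)))))) (.g (nat_lit 4) .nil .nil)))) (.nd (nat_lit 5) 
(.lf (nat_lit 155669) (.g (nat_lit 2371) (.e (nat_lit 57411) (nat_lit 12) (.e (nat_lit 336211) (nat_lit 13) (.e (nat_lit 393295) (nat_lit 26) (.e (nat_lit 475212) (nat_lit 42) (.e (nat_lit 720929) (nat_lit 21) (.e (nat_lit 57849) (nat_lit 252) .nil)))))) (.g (nat_lit 4) .nil .nil))) 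
(.lf (nat_lit 155701) (.g (nat_lit 2881) (.e (nat_lit 57411) (nat_lit 12) (.e (nat_lit 336211) (nat_lit 13) (.e (nat_lit 393299) (nat_lit 27) (.e (nat_lit 491560) (nat_lit 10) (.e (nat_lit 344090) (nat_lit 18) (.e (nat_lit 7261) (nat_lit 384) .nil)))))) (.g (nat_lit 5) .nil .nil))))) (.nd (nat_lit 4) (.nd (nat_lit 5) 
(.lf (nat_lit 155661) (.g (nat_lit 3313) (.e (nat_lit 57411) (nat_lit 12) (.e (nat_lit 336211) (nat_lit 13) (.e (nat_lit 393294) (nat_lit 26) (.e (nat_lit 475214) (nat_lit 42) (.e (nat_lit 720929) (nat_lit 21) (.e (nat_lit 57847) (nat_lit 252) .nil)))))) (.g (nat_lit 0) .nil .nil))) 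
(.lf (nat_lit 155693) (.g (nat_lit 2773) (.e (nat_lit 57411) (nat_lit 12) (.e (nat_lit 336211) (nat_lit 13) (.e (nat_lit 393298) (nat_lit 27) (.e (nat_lit 491566) (nat_lit 12) (.e (nat_lit 385043) (nat_lit 21) (.e (nat_lit 4525) (nat_lit 265) .nil)))))) (.g (nat_lit 4) .nil .nil)))) (.nd (nat_lit 5) 
(.lf (nat_lit 155677) (.g (nat_lit 1656) (.e (nat_lit 57411) (nat_lit 12) (.e (nat_lit 336211) (nat_lit 13) (.e (nat_lit 393296) (nat_lit 26) (.e (nat_lit 475205) (nat_lit 40) (.e (nat_lit 704756) (nat_lit 12) .nil))))) .nil)) 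
(.lf (nat_lit 155709) (.g (nat_lit 2692) (.e (nat_lit 57411) (nat_lit 12) (.e (nat_lit 336211) (nat_lit 13) (.e (nat_lit 393300) (nat_lit 27) (.e (nat_lit 491560) (nat_lit 10) (.e (nat_lit 344091) (nat_lit 18) (.e (nat_lit 7261) (nat_lit 384) .nil)))))) (.g (nat_lit 5) .nil .nil))))))) (.nd (nat_lit 2) (.nd (nat_lit 3) (.nd (nat_lit 4) (.nd (nat_lit 5) 
(.lf (nat_lit 155651) (.g (nat_lit 2719) (.e (nat_lit 57411) (nat_lit 12) (.e (nat_lit 336211) (nat_lit 13) (.e (nat_lit 393292) (nat_lit 26) (.e (nat_lit 475214) (nat_lit 42) (.e (nat_lit 720933) (nat_lit 21) (.e (nat_lit 57847) (nat_lit 252) .nil)))))) (.g (nat_lit 5) .nil .nil))) 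
(.lf (nat_lit 155683) (.g (nat_lit 2561) (.e (nat_lit 57411) (nat_lit 12) (.e (nat_lit 336211) (nat_lit 13) (.e (nat_lit 393296) (nat_lit 26) (.e (nat_lit 475214) (nat_lit 42) (.e (nat_lit 720933) (nat_lit 21) (.e (nat_lit 57847) (nat_lit 252) .nil)))))) (.g (nat_lit 4) .nil .nil)))) (.nd (nat_lit 5) 
(.lf (nat_lit 155667) (.g (nat_lit 2297) (.e (nat_lit 57411) (nat_lit 12) (.e (nat_lit 336211) (nat_lit 13) (.e (nat_lit 393294) (nat_lit 26) (.e (nat_lit 475214) (nat_lit 42) (.e (nat_lit 720933) (nat_lit 21) (.e (nat_lit 57849) (nat_lit 252) .nil)))))) (.g (nat_lit 4) .nil .nil))) 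
(.lf (nat_lit 155699) (.g (nat_lit 3226) (.e (nat_lit 57411) (nat_lit 12) (.e (nat_lit 336211) (nat_lit 13) (.e (nat_lit 393299) (nat_lit 27) (.e (nat_lit 491558) (nat_lit 10) (.e (nat_lit 344096) (nat_lit 18) (.e (nat_lit 7261) (nat_lit 384) .nil)))))) (.g (nat_lit 5) .nil .nil))))) (.nd (nat_lit 4) (.nd (nat_lit 5) 
(.lf (nat_lit 155659) (.g (nat_lit 2134) (.e (nat_lit 57411) (nat_lit 12) (.e (nat_lit 336211) (nat_lit 13) (.e (nat_lit 393294) (nat_lit 26) (.e (nat_lit 475212) (nat_lit 42) (.e (nat_lit 720933) (nat_lit 21) (.e (nat_lit 57849) (nat_lit 252) .nil)))))) (.g (nat_lit 4) .nil .nil))) 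
(.lf (nat_lit 155691) (.g (nat_lit 2459) (.e (nat_lit 57411) (nat_lit 12) (.e (nat_lit 336211) (nat_lit 13) (.e (nat_lit 393298) (nat_lit 27) (.e (nat_lit 491560) (nat_lit 10) (.e (nat_lit 344090) (nat_lit 18) .nil))))) .nil))) (.nd (nat_lit 5) 
(.lf (nat_lit 155675) (.g (nat_lit 1371) (.e (nat_lit 57411) (nat_lit 12) (.e (nat_lit 336211) (nat_lit 13) (.e (nat_lit 393296) (nat_lit 26) (.e (nat_lit 475195) (nat_lit 40) .nil)))) .nil)) 
(.lf (nat_lit 155707) (.g (nat_lit 3141) (.e (nat_lit 57411) (nat_lit 12) (.e (nat_lit 336211) (nat_lit 13) (.e (nat_lit 393300) (nat_lit 27) (.e (nat_lit 491546) (nat_lit 9) (.e (nat_lit 335997) (nat_lit 1) (.e (nat_lit 65280) (nat_lit 154) .nil)))))) (.g (nat_lit 5) .nil .nil)))))) (.nd (nat_lit 3) (.nd (nat_lit 4) (.nd (nat_lit 5) 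
(.lf (nat_lit 155655) (.g (nat_lit 2616) (.e (nat_lit 57411) (nat_lit 12) (.e (nat_lit 336211) (nat_lit 13) (.e (nat_lit 393294) (nat_lit 26) (.e (nat_lit 475212) (nat_lit 42) (.e (nat_lit 720929) (nat_lit 21) (.e (nat_lit 57847) (nat_lit 252) .nil)))))) (.g (nat_lit 4) .nil .nil))) 
(.lf (nat_lit 155687) (.g (nat_lit 2267) (.e (nat_lit 57411) (nat_lit 12) (.e (nat_lit 336211) (nat_lit 13) (.e (nat_lit 393297) (nat_lit 27) (.e (nat_lit 491566) (nat_lit 12) (.e (nat_lit 385045) (nat_lit 21) (.e (nat_lit 4523) (nat_lit 265) .nil)))))) (.g (nat_lit 4) .nil .nil)))) (.nd (nat_lit 5) 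
(.lf (nat_lit 155671) (.g (nat_lit 2108) (.e (nat_lit 57411) (nat_lit 12) (.e (nat_lit 336211) (nat_lit 13) (.e (nat_lit 393295) (nat_lit 26) (.e (nat_lit 475212) (nat_lit 42) (.e (nat_lit 720933) (nat_lit 21) (.e (nat_lit 57849) (nat_lit 252) .nil)))))) (.g (nat_lit 4) .nil .nil))) 
(.lf (nat_lit 155703) (.g (nat_lit 2075) (.e (nat_lit 57411) (nat_lit 12) (.e (nat_lit 336211) (nat_lit 13) (.e (nat_lit 393299) (nat_lit 27) (.e (nat_lit 491560) (nat_lit 10) (.e (nat_lit 344094) (nat_lit 18) (.e (nat_lit 7261) (nat_lit 384) .nil)))))) (.g (nat_lit 4) .nil .nil))))) (.nd (nat_lit 4) (.nd (nat_lit 5) 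
(.lf (nat_lit 155663) (.g (nat_lit 2872) (.e (nat_lit 57411) (nat_lit 12) (.e (nat_lit 336211) (nat_lit 13) (.e (nat_lit 393294) (nat_lit 26) (.e (nat_lit 475214) (nat_lit 42) (.e (nat_lit 720932) (nat_lit 21) (.e (nat_lit 57849) (nat_lit 252) .nil)))))) (.g (nat_lit 6) .nil .nil))) 
(.lf (nat_lit 155695) (.g (nat_lit 2274) (.e (nat_lit 57411) (nat_lit 12) (.e (nat_lit 336211) (nat_lit 13) (.e (nat_lit 393298) (nat_lit 27) (.e (nat_lit 491566) (nat_lit 12) (.e (nat_lit 385045) (nat_lit 21) .nil))))) .nil))) (.nd (nat_lit 5) 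
(.lf (nat_lit 155679) (.g (nat_lit 2129) (.e (nat_lit 57411) (nat_lit 12) (.e (nat_lit 336211) (nat_lit 13) (.e (nat_lit 393296) (nat_lit 26) (.e (nat_lit 475212) (nat_lit 42) (.e (nat_lit 720929) (nat_lit 21) (.e (nat_lit 57849) (nat_lit 252) .nil)))))) (.g (nat_lit 4) .nil .nil))) 
(.lf (nat_lit 155711) (.g (nat_lit 2940) (.e (nat_lit 57411) (nat_lit 12) (.e (nat_lit 336211) (nat_lit 13) (.e (nat_lit 393300) (nat_lit 27) (.e (nat_lit 491560) (nat_lit 10) (.e (nat_lit 344096) (nat_lit 18) (.e (nat_lit 7261) (nat_lit 384) .nil)))))) (.g (nat_lit 5) .nil .nil)))))))))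

noncomputable def tv2080 : DT := (.nd (nat_lit 0) (.nd (nat_lit 1) (.nd (nat_lit 2) (.nd (nat_lit 3) (.nd (nat_lit 4) (.nd (nat_lit 5) 
(.lf (nat_lit 155712) (.g (nat_lit 1966) (.e (nat_lit 57411) (nat_lit 12) (.e (nat_lit 336211) (nat_lit 13) (.e (nat_lit 393300) (nat_lit 27) (.e (nat_lit 491560) (nat_lit 10) (.e (nat_lit 344103) (nat_lit 18) .nil))))) .nil)) 
(.lf (nat_lit 155744) (.g (nat_lit 2398) (.e (nat_lit 57411) (nat_lit 12) (.e (nat_lit 336320) (nat_lit 17) (.e (nat_lit 196674) (nat_lit 15) (.e (nat_lit 81925) (nat_lit 11) (.e (nat_lit 426100) (nat_lit 1) (.e (nat_lit 164183) (nat_lit 154) .nil)))))) (.g (nat_lit 4) .nil .nil)))) (.nd (nat_lit 5) 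
(.lf (nat_lit 155728) (.g (nat_lit 738) (.e (nat_lit 57411) (nat_lit 12) (.e (nat_lit 336316) (nat_lit 17) (.e (nat_lit 196661) (nat_lit 12) (.e (nat_lit 57740) (nat_lit 187) .nil)))) .nil)) 
(.lf (nat_lit 155760) (.g (nat_lit 2436) (.e (nat_lit 57411) (nat_lit 12) (.e (nat_lit 336324) (nat_lit 18) (.e (nat_lit 204866) (nat_lit 28) (.e (nat_lit 352273) (nat_lit 11) (.e (nat_lit 426108) (nat_lit 1) (.e (nat_lit 164182) (nat_lit 154) .nil)))))) (.g (nat_lit 4) .nil .nil))))) (.nd (nat_lit 4) (.nd (nat_lit 5) 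
(.lf (nat_lit 155720) (.g (nat_lit 4081) (.e (nat_lit 57411) (nat_lit 12) (.e (nat_lit 336211) (nat_lit 13) (.e (nat_lit 393301) (nat_lit 27) (.e (nat_lit 491560) (nat_lit 10) (.e (nat_lit 344090) (nat_lit 18) (.e (nat_lit 7261) (nat_lit 384) .nil)))))) (.g (nat_lit 5) .nil .nil))) 
(.lf (nat_lit 155752) (.g (nat_lit 3393) (.e (nat_lit 57411) (nat_lit 12) (.e (nat_lit 336324) (nat_lit 18) (.e (nat_lit 204854) (nat_lit 26) (.e (nat_lit 336211) (nat_lit 13) (.e (nat_lit 393251) (nat_lit 18) (.e (nat_lit 164182) (nat_lit 154) .nil)))))) (.g (nat_lit 6) .nil .nil)))) (.nd (nat_lit 5) 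
(.lf (nat_lit 155736) (.g (nat_lit 879) (.e (nat_lit 57411) (nat_lit 12) (.e (nat_lit 336316) (nat_lit 17) (.e (nat_lit 196672) (nat_lit 15) (.e (nat_lit 81927) (nat_lit 11) .nil)))) .nil)) 
(.lf (nat_lit 155768) (.g (nat_lit 2469) (.e (nat_lit 57411) (nat_lit 12) (.e (nat_lit 336324) (nat_lit 18) (.e (nat_lit 204876) (nat_lit 31) (.e (nat_lit 376842) (nat_lit 11) (.e (nat_lit 426106) (nat_lit 1) (.e (nat_lit 164183) (nat_lit 154) .nil)))))) (.g (nat_lit 0) .nil .nil)))))) (.nd (nat_lit 3) (.nd (nat_lit 4) (.nd (nat_lit 5) 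
(.lf (nat_lit 155716) (.g (nat_lit 3085) (.e (nat_lit 57411) (nat_lit 12) (.e (nat_lit 336211) (nat_lit 13) (.e (nat_lit 393301) (nat_lit 27) (.e (nat_lit 491559) (nat_lit 10) (.e (nat_lit 344091) (nat_lit 18) (.e (nat_lit 7261) (nat_lit 384) .nil)))))) (.g (nat_lit 4) .nil .nil))) 
(.lf (nat_lit 155748) (.g (nat_lit 587) (.e (nat_lit 57411) (nat_lit 12) (.e (nat_lit 336324) (nat_lit 18) (.e (nat_lit 204850) (nat_lit 26) .nil))) .nil))) (.nd (nat_lit 5) 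
(.lf (nat_lit 155732) (.g (nat_lit 3067) (.e (nat_lit 57411) (nat_lit 12) (.e (nat_lit 336316) (nat_lit 17) (.e (nat_lit 196666) (nat_lit 13) (.e (nat_lit 65626) (nat_lit 13) (.e (nat_lit 393251) (nat_lit 18) (.e (nat_lit 164183) (nat_lit 154) .nil)))))) (.g (nat_lit 5) .nil .nil))) 
(.lf (nat_lit 155764) (.g (nat_lit 835) (.e (nat_lit 57411) (nat_lit 12) (.e (nat_lit 336324) (nat_lit 18) (.e (nat_lit 204868) (nat_lit 29) .nil))) .nil)))) (.nd (nat_lit 4) (.nd (nat_lit 5) 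
(.lf (nat_lit 155724) (.g (nat_lit 3493) (.e (nat_lit 57411) (nat_lit 12) (.e (nat_lit 336211) (nat_lit 13) (.e (nat_lit 393301) (nat_lit 27) (.e (nat_lit 491560) (nat_lit 10) (.e (nat_lit 344102) (nat_lit 18) .nil))))) .nil)) 
(.lf (nat_lit 155756) (.g (nat_lit 2991) (.e (nat_lit 57411) (nat_lit 12) (.e (nat_lit 336324) (nat_lit 18) (.e (nat_lit 204854) (nat_lit 26) (.e (nat_lit 336211) (nat_lit 13) (.e (nat_lit 393254) (nat_lit 18) (.e (nat_lit 164183) (nat_lit 154) .nil)))))) (.g (nat_lit 0) .nil .nil)))) (.nd (nat_lit 5) 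
(.lf (nat_lit 155740) (.g (nat_lit 1157) (.e (nat_lit 57411) (nat_lit 12) (.e (nat_lit 336316) (nat_lit 17) (.e (nat_lit 196674) (nat_lit 15) (.e (nat_lit 81926) (nat_lit 11) .nil)))) .nil)) 
(.lf (nat_lit 155772) (.g (nat_lit 2938) (.e (nat_lit 57411) (nat_lit 12) (.e (nat_lit 336324) (nat_lit 18) (.e (nat_lit 204877) (nat_lit 31) (.e (nat_lit 376842) (nat_lit 11) (.e (nat_lit 426100) (nat_lit 1) (.e (nat_lit 164182) (nat_lit 154) .nil)))))) (.g (nat_lit 6) .nil .nil))))))) (.nd (nat_lit 2) (.nd (nat_lit 3) (.nd (nat_lit 4) (.nd (nat_lit 5) 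
(.lf (nat_lit 155714) (.g (nat_lit 3613) (.e (nat_lit 57411) (nat_lit 12) (.e (nat_lit 336211) (nat_lit 13) (.e (nat_lit 393301) (nat_lit 27) (.e (nat_lit 491558) (nat_lit 10) (.e (nat_lit 344091) (nat_lit 18) (.e (nat_lit 7261) (nat_lit 384) .nil)))))) (.g (nat_lit 5) .nil .nil))) 
(.lf (nat_lit 155746) (.g (nat_lit 2480) (.e (nat_lit 57411) (nat_lit 12) (.e (nat_lit 336320) (nat_lit 17) (.e (nat_lit 196674) (nat_lit 15) (.e (nat_lit 81925) (nat_lit 11) (.e (nat_lit 426108) (nat_lit 1) (.e (nat_lit 164183) (nat_lit 154) .nil)))))) (.g (nat_lit 4) .nil .nil)))) (.nd (nat_lit 5) 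
(.lf (nat_lit 155730) (.g (nat_lit 2148) (.e (nat_lit 57411) (nat_lit 12) (.e (nat_lit 336316) (nat_lit 17) (.e (nat_lit 196666) (nat_lit 13) (.e (nat_lit 65617) (nat_lit 10) (.e (nat_lit 344088) (nat_lit 18) .nil))))) .nil)) 
(.lf (nat_lit 155762) (.g (nat_lit 3257) (.e (nat_lit 57411) (nat_lit 12) (.e (nat_lit 336324) (nat_lit 18) (.e (nat_lit 204866) (nat_lit 28) (.e (nat_lit 352277) (nat_lit 11) (.e (nat_lit 426098) (nat_lit 1) (.e (nat_lit 164183) (nat_lit 154) .nil)))))) (.g (nat_lit 6) .nil .nil))))) (.nd (nat_lit 4) (.nd (nat_lit 5) 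
(.lf (nat_lit 155722) (.g (nat_lit 3571) (.e (nat_lit 57411) (nat_lit 12) (.e (nat_lit 336211) (nat_lit 13) (.e (nat_lit 393301) (nat_lit 27) (.e (nat_lit 491560) (nat_lit 10) (.e (nat_lit 344095) (nat_lit 18) (.e (nat_lit 7261) (nat_lit 384) .nil)))))) (.g (nat_lit 4) .nil .nil))) 
(.lf (nat_lit 155754) (.g (nat_lit 3288) (.e (nat_lit 57411) (nat_lit 12) (.e (nat_lit 336324) (nat_lit 18) (.e (nat_lit 204854) (nat_lit 26) (.e (nat_lit 336211) (nat_lit 13) (.e (nat_lit 393252) (nat_lit 18) (.e (nat_lit 164183) (nat_lit 154) .nil)))))) (.g (nat_lit 0) .nil .nil)))) (.nd (nat_lit 5) 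
(.lf (nat_lit 155738) (.g (nat_lit 4168) (.e (nat_lit 57411) (nat_lit 12) (.e (nat_lit 336316) (nat_lit 17) (.e (nat_lit 196674) (nat_lit 15) (.e (nat_lit 81925) (nat_lit 11) (.e (nat_lit 426100) (nat_lit 1) (.e (nat_lit 164182) (nat_lit 154) .nil)))))) (.g (nat_lit 0) .nil .nil))) 
(.lf (nat_lit 155770) (.g (nat_lit 2866) (.e (nat_lit 57411) (nat_lit 12) (.e (nat_lit 336324) (nat_lit 18) (.e (nat_lit 204877) (nat_lit 31) (.e (nat_lit 376842) (nat_lit 11) (.e (nat_lit 426098) (nat_lit 1) (.e (nat_lit 164183) (nat_lit 154) .nil)))))) (.g (nat_lit 0) .nil .nil)))))) (.nd (nat_lit 3) (.nd (nat_lit 4) (.nd (nat_lit 5) 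
(.lf (nat_lit 155718) (.g (nat_lit 3276) (.e (nat_lit 57411) (nat_lit 12) (.e (nat_lit 336211) (nat_lit 13) (.e (nat_lit 393301) (nat_lit 27) (.e (nat_lit 491560) (nat_lit 10) (.e (nat_lit 344089) (nat_lit 18) (.e (nat_lit 7259) (nat_lit 384) .nil)))))) (.g (nat_lit 4) .nil .nil))) 
(.lf (nat_lit 155750) (.g (nat_lit 1979) (.e (nat_lit 57411) (nat_lit 12) (.e (nat_lit 336324) (nat_lit 18) (.e (nat_lit 204851) (nat_lit 26) (.e (nat_lit 336211) (nat_lit 13) (.e (nat_lit 393251) (nat_lit 18) (.e (nat_lit 164183) (nat_lit 154) .nil)))))) (.g (nat_lit 4) .nil .nil)))) (.nd (nat_lit 5) 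
(.lf (nat_lit 155734) (.g (nat_lit 2131) (.e (nat_lit 57411) (nat_lit 12) (.e (nat_lit 336316) (nat_lit 17) (.e (nat_lit 196666) (nat_lit 13) (.e (nat_lit 65627) (nat_lit 13) (.e (nat_lit 393254) (nat_lit 18) (.e (nat_lit 164182) (nat_lit 154) .nil)))))) (.g (nat_lit 4) .nil .nil))) 
(.lf (nat_lit 155766) (.g (nat_lit 2764) (.e (nat_lit 57411) (nat_lit 12) (.e (nat_lit 336324) (nat_lit 18) (.e (nat_lit 204876) (nat_lit 31) (.e (nat_lit 376842) (nat_lit 11) (.e (nat_lit 426098) (nat_lit 1) (.e (nat_lit 164183) (nat_lit 154) .nil)))))) (.g (nat_lit 0) .nil .nil))))) (.nd (nat_lit 4) (.nd (nat_lit 5) 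
(.lf (nat_lit 155726) (.g (nat_lit 53) (.e (nat_lit 57411) (nat_lit 12) (.e (nat_lit 336257) (nat_lit 15) (.e (nat_lit 3247) (nat_lit 197) .nil))) .nil)) 
(.lf (nat_lit 155758) (.g (nat_lit 1012) (.e (nat_lit 57411) (nat_lit 12) (.e (nat_lit 336324) (nat_lit 18) (.e (nat_lit 204859) (nat_lit 26) (.e (nat_lit 336209) (nat_lit 13) .nil)))) .nil))) (.nd (nat_lit 5) 
(.lf (nat_lit 155742) (.g (nat_lit 2584) (.e (nat_lit 57411) (nat_lit 12) (.e (nat_lit 336320) (nat_lit 17) (.e (nat_lit 196674) (nat_lit 15) (.e (nat_lit 81925) (nat_lit 11) (.e (nat_lit 426098) (nat_lit 1) (.e (nat_lit 164182) (nat_lit 154) .nil)))))) (.g (nat_lit 4) .nil .nil))) 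
(.lf (nat_lit 155774) (.g (nat_lit 1882) (.e (nat_lit 57411) (nat_lit 12) (.e (nat_lit 336324) (nat_lit 18) (.e (nat_lit 204877) (nat_lit 31) (.e (nat_lit 376842) (nat_lit 11) (.e (nat_lit 426105) (nat_lit 1) .nil))))) .nil))))))) (.nd (nat_lit 1) (.nd (nat_lit 2) (.nd (nat_lit 3) (.nd (nat_lit 4) (.nd (nat_lit 5) 
(.lf (nat_lit 155713) (.g (nat_lit 3046) (.e (nat_lit 57411) (nat_lit 12) (.e (nat_lit 336211) (nat_lit 13) (.e (nat_lit 393301) (nat_lit 27) (.e (nat_lit 491546) (nat_lit 9) (.e (nat_lit 335997) (nat_lit 1) (.e (nat_lit 65280) (nat_lit 154) .nil)))))) (.g (nat_lit 4) .nil .nil))) 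
(.lf (nat_lit 155745) (.g (nat_lit 2620) (.e (nat_lit 57411) (nat_lit 12) (.e (nat_lit 336320) (nat_lit 17) (.e (nat_lit 196674) (nat_lit 15) (.e (nat_lit 81925) (nat_lit 11) (.e (nat_lit 426107) (nat_lit 1) (.e (nat_lit 164182) (nat_lit 154) .nil)))))) (.g (nat_lit 4) .nil .nil)))) (.nd (nat_lit 5) 
(.lf (nat_lit 155729) (.g (nat_lit 2708) (.e (nat_lit 57411) (nat_lit 12) (.e (nat_lit 336316) (nat_lit 17) (.e (nat_lit 196666) (nat_lit 13) (.e (nat_lit 65610) (nat_lit 10) (.e (nat_lit 344088) (nat_lit 18) .nil))))) .nil)) 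
(.lf (nat_lit 155761) (.g (nat_lit 2972) (.e (nat_lit 57411) (nat_lit 12) (.e (nat_lit 336324) (nat_lit 18) (.e (nat_lit 204866) (nat_lit 28) (.e (nat_lit 352273) (nat_lit 11) (.e (nat_lit 426108) (nat_lit 1) (.e (nat_lit 164183) (nat_lit 154) .nil)))))) (.g (nat_lit 5) .nil .nil))))) (.nd (nat_lit 4) (.nd (nat_lit 5) 
(.lf (nat_lit 155721) (.g (nat_lit 3330) (.e (nat_lit 57411) (nat_lit 12) (.e (nat_lit 336211) (nat_lit 13) (.e (nat_lit 393301) (nat_lit 27) (.e (nat_lit 491560) (nat_lit 10) (.e (nat_lit 344091) (nat_lit 18) (.e (nat_lit 7261) (nat_lit 384) .nil)))))) (.g (nat_lit 4) .nil .nil))) 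
(.lf (nat_lit 155753) (.g (nat_lit 3429) (.e (nat_lit 57411) (nat_lit 12) (.e (nat_lit 336324) (nat_lit 18) (.e (nat_lit 204854) (nat_lit 26) (.e (nat_lit 336211) (nat_lit 13) (.e (nat_lit 393251) (nat_lit 18) (.e (nat_lit 164183) (nat_lit 154) .nil)))))) (.g (nat_lit 0) .nil .nil)))) (.nd (nat_lit 5) 
(.lf (nat_lit 155737) (.g (nat_lit 2441) (.e (nat_lit 57411) (nat_lit 12) (.e (nat_lit 336316) (nat_lit 17) (.e (nat_lit 196674) (nat_lit 15) (.e (nat_lit 81925) (nat_lit 11) (.e (nat_lit 426098) (nat_lit 1) (.e (nat_lit 164177) (nat_lit 154) .nil)))))) (.g (nat_lit 4) .nil .nil))) 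
(.lf (nat_lit 155769) (.g (nat_lit 2899) (.e (nat_lit 57411) (nat_lit 12) (.e (nat_lit 336324) (nat_lit 18) (.e (nat_lit 204876) (nat_lit 31) (.e (nat_lit 376842) (nat_lit 11) (.e (nat_lit 426108) (nat_lit 1) (.e (nat_lit 164183) (nat_lit 154) .nil)))))) (.g (nat_lit 0) .nil .nil)))))) (.nd (nat_lit 3) (.nd (nat_lit 4) (.nd (nat_lit 5) 
(.lf (nat_lit 155717) (.g (nat_lit 3051) (.e (nat_lit 57411) (nat_lit 12) (.e (nat_lit 336211) (nat_lit 13) (.e (nat_lit 393301) (nat_lit 27) (.e (nat_lit 491559) (nat_lit 10) (.e (nat_lit 344095) (nat_lit 18) .nil))))) .nil)) 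
(.lf (nat_lit 155749) (.g (nat_lit 1963) (.e (nat_lit 57411) (nat_lit 12) (.e (nat_lit 336324) (nat_lit 18) (.e (nat_lit 204850) (nat_lit 26) (.e (nat_lit 336224) (nat_lit 13) (.e (nat_lit 393254) (nat_lit 18) (.e (nat_lit 164183) (nat_lit 154) .nil)))))) (.g (nat_lit 4) .nil .nil)))) (.nd (nat_lit 5) 
(.lf (nat_lit 155733) (.g (nat_lit 2733) (.e (nat_lit 57411) (nat_lit 12) (.e (nat_lit 336316) (nat_lit 17) (.e (nat_lit 196666) (nat_lit 13) (.e (nat_lit 65627) (nat_lit 13) (.e (nat_lit 393251) (nat_lit 18) (.e (nat_lit 164177) (nat_lit 154) .nil)))))) (.g (nat_lit 4) .nil .nil))) 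
(.lf (nat_lit 155765) (.g (nat_lit 2459) (.e (nat_lit 57411) (nat_lit 12) (.e (nat_lit 336324) (nat_lit 18) (.e (nat_lit 204875) (nat_lit 31) (.e (nat_lit 376842) (nat_lit 11) (.e (nat_lit 426098) (nat_lit 1) (.e (nat_lit 164183) (nat_lit 154) .nil)))))) (.g (nat_lit 5) .nil .nil))))) (.nd (nat_lit 4) (.nd (nat_lit 5) 
(.lf (nat_lit 155725) (.g (nat_lit 3806) (.e (nat_lit 57411) (nat_lit 12) (.e (nat_lit 336211) (nat_lit 13) (.e (nat_lit 393301) (nat_lit 27) (.e (nat_lit 491560) (nat_lit 10) (.e (nat_lit 344103) (nat_lit 18) (.e (nat_lit 7936) (nat_lit 384) .nil)))))) (.g (nat_lit 4) .nil .nil))) 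
(.lf (nat_lit 155757) (.g (nat_lit 537) (.e (nat_lit 57411) (nat_lit 12) (.e (nat_lit 336324) (nat_lit 18) (.e (nat_lit 204857) (nat_lit 26) .nil))) .nil))) (.nd (nat_lit 5) 
(.lf (nat_lit 155741) (.g (nat_lit 1185) (.e (nat_lit 57411) (nat_lit 12) (.e (nat_lit 336320) (nat_lit 17) (.e (nat_lit 196664) (nat_lit 13) (.e (nat_lit 65627) (nat_lit 13) (.e (nat_lit 393251) (nat_lit 18) .nil))))) .nil)) 
(.lf (nat_lit 155773) (.g (nat_lit 2981) (.e (nat_lit 57411) (nat_lit 12) (.e (nat_lit 336324) (nat_lit 18) (.e (nat_lit 204877) (nat_lit 31) (.e (nat_lit 376842) (nat_lit 11) (.e (nat_lit 426100) (nat_lit 1) (.e (nat_lit 164183) (nat_lit 154) .nil)))))) (.g (nat_lit 0) .nil .nil))))))) (.nd (nat_lit 2) (.nd (nat_lit 3) (.nd (nat_lit 4) (.nd (nat_lit 5) 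
(.lf (nat_lit 155715) (.g (nat_lit 941) (.e (nat_lit 57411) (nat_lit 12) (.e (nat_lit 336211) (nat_lit 13) (.e (nat_lit 393301) (nat_lit 27) (.e (nat_lit 491559) (nat_lit 10) .nil)))) .nil)) 
(.lf (nat_lit 155747) (.g (nat_lit 2023) (.e (nat_lit 57411) (nat_lit 12) (.e (nat_lit 336322) (nat_lit 18) (.e (nat_lit 204877) (nat_lit 31) (.e (nat_lit 376842) (nat_lit 11) (.e (nat_lit 426099) (nat_lit 1) (.e (nat_lit 164183) (nat_lit 154) .nil)))))) (.g (nat_lit 4) .nil .nil)))) (.nd (nat_lit 5) 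
(.lf (nat_lit 155731) (.g (nat_lit 2103) (.e (nat_lit 57411) (nat_lit 12) (.e (nat_lit 336316) (nat_lit 17) (.e (nat_lit 196666) (nat_lit 13) (.e (nat_lit 65625) (nat_lit 13) (.e (nat_lit 393254) (nat_lit 18) (.e (nat_lit 164183) (nat_lit 154) .nil)))))) (.g (nat_lit 4) .nil .nil))) 
(.lf (nat_lit 155763) (.g (nat_lit 1818) (.e (nat_lit 57411) (nat_lit 12) (.e (nat_lit 336324) (nat_lit 18) (.e (nat_lit 204866) (nat_lit 28) (.e (nat_lit 352278) (nat_lit 11) (.e (nat_lit 426099) (nat_lit 1) .nil))))) .nil)))) (.nd (nat_lit 4) (.nd (nat_lit 5) 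
(.lf (nat_lit 155723) (.g (nat_lit 3007) (.e (nat_lit 57411) (nat_lit 12) (.e (nat_lit 336211) (nat_lit 13) (.e (nat_lit 393301) (nat_lit 27) (.e (nat_lit 491560) (nat_lit 10) (.e (nat_lit 344097) (nat_lit 18) .nil))))) .nil)) 
(.lf (nat_lit 155755) (.g (nat_lit 3330) (.e (nat_lit 57411) (nat_lit 12) (.e (nat_lit 336324) (nat_lit 18) (.e (nat_lit 204854) (nat_lit 26) (.e (nat_lit 336211) (nat_lit 13) (.e (nat_lit 393253) (nat_lit 18) (.e (nat_lit 164183) (nat_lit 154) .nil)))))) (.g (nat_lit 0) .nil .nil)))) (.nd (nat_lit 5) 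
(.lf (nat_lit 155739) (.g (nat_lit 1555) (.e (nat_lit 57411) (nat_lit 12) (.e (nat_lit 336316) (nat_lit 17) (.e (nat_lit 196674) (nat_lit 15) (.e (nat_lit 81925) (nat_lit 11) (.e (nat_lit 426106) (nat_lit 1) .nil))))) .nil)) 
(.lf (nat_lit 155771) (.g (nat_lit 2257) (.e (nat_lit 57411) (nat_lit 12) (.e (nat_lit 336324) (nat_lit 18) (.e (nat_lit 204877) (nat_lit 31) (.e (nat_lit 376842) (nat_lit 11) (.e (nat_lit 426099) (nat_lit 1) (.e (nat_lit 164182) (nat_lit 154) .nil)))))) (.g (nat_lit 4) .nil .nil)))))) (.nd (nat_lit 3) (.nd (nat_lit 4) (.nd (nat_lit 5) 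
(.lf (nat_lit 155719) (.g (nat_lit 3504) (.e (nat_lit 57411) (nat_lit 12) (.e (nat_lit 336211) (nat_lit 13) (.e (nat_lit 393301) (nat_lit 27) (.e (nat_lit 491560) (nat_lit 10) (.e (nat_lit 344089) (nat_lit 18) (.e (nat_lit 7260) (nat_lit 384) .nil)))))) (.g (nat_lit 4) .nil .nil))) 
(.lf (nat_lit 155751) (.g (nat_lit 1484) (.e (nat_lit 57411) (nat_lit 12) (.e (nat_lit 336324) (nat_lit 18) (.e (nat_lit 204854) (nat_lit 26) (.e (nat_lit 336210) (nat_lit 13) .nil)))) .nil))) (.nd (nat_lit 5) 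
(.lf (nat_lit 155735) (.g (nat_lit 2801) (.e (nat_lit 57411) (nat_lit 12) (.e (nat_lit 336316) (nat_lit 17) (.e (nat_lit 196666) (nat_lit 13) (.e (nat_lit 65627) (nat_lit 13) (.e (nat_lit 393254) (nat_lit 18) (.e (nat_lit 164183) (nat_lit 154) .nil)))))) (.g (nat_lit 5) .nil .nil))) 
(.lf (nat_lit 155767) (.g (nat_lit 2889) (.e (nat_lit 57411) (nat_lit 12) (.e (nat_lit 336324) (nat_lit 18) (.e (nat_lit 204876) (nat_lit 31) (.e (nat_lit 376842) (nat_lit 11) (.e (nat_lit 426100) (nat_lit 1) (.e (nat_lit 164183) (nat_lit 154) .nil)))))) (.g (nat_lit 0) .nil .nil))))) (.nd (nat_lit 4) (.nd (nat_lit 5) 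
(.lf (nat_lit 155727) (.g (nat_lit 1110) (.e (nat_lit 57411) (nat_lit 12) (.e (nat_lit 336316) (nat_lit 17) (.e (nat_lit 196630) (nat_lit 9) (.e (nat_lit 1573) (nat_lit 110) .nil)))) .nil)) 
(.lf (nat_lit 155759) (.g (nat_lit 2687) (.e (nat_lit 57411) (nat_lit 12) (.e (nat_lit 336324) (nat_lit 18) (.e (nat_lit 204865) (nat_lit 28) (.e (nat_lit 352277) (nat_lit 11) (.e (nat_lit 426098) (nat_lit 1) (.e (nat_lit 164183) (nat_lit 154) .nil)))))) (.g (nat_lit 0) .nil .nil)))) (.nd (nat_lit 5) 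
(.lf (nat_lit 155743) (.g (nat_lit 2234) (.e (nat_lit 57411) (nat_lit 12) (.e (nat_lit 336320) (nat_lit 17) (.e (nat_lit 196674) (nat_lit 15) (.e (nat_lit 81925) (nat_lit 11) (.e (nat_lit 426098) (nat_lit 1) (.e (nat_lit 164183) (nat_lit 154) .nil)))))) (.g (nat_lit 4) .nil .nil))) 
(.lf (nat_lit 155775) (.g (nat_lit 2021) (.e (nat_lit 57411) (nat_lit 12) (.e (nat_lit 336324) (nat_lit 18) (.e (nat_lit 204877) (nat_lit 31) (.e (nat_lit 376842) (nat_lit 11) (.e (nat_lit 426105) (nat_lit 1) (.e (nat_lit 164182) (nat_lit 154) .nil)))))) (.g (nat_lit 4) .nil .nil)))))))))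

noncomputable def tv2081 : DT := (.nd (nat_lit 0) (.nd (nat_lit 1) (.nd (nat_lit 2) (.nd (nat_lit 3) (.nd (nat_lit 4) (.nd (nat_lit 5) 
(.lf (nat_lit 155776) (.g (nat_lit 2544) (.e (nat_lit 57411) (nat_lit 12) (.e (nat_lit 336324) (nat_lit 18) (.e (nat_lit 204877) (nat_lit 31) (.e (nat_lit 376842) (nat_lit 11) (.e (nat_lit 426106) (nat_lit 1) (.e (nat_lit 164183) (nat_lit 154) .nil)))))) (.g (nat_lit 0) .nil .nil))) 
(.lf (nat_lit 155808) (.g (nat_lit 2358) (.e (nat_lit 57411) (nat_lit 12) (.e (nat_lit 336367) (nat_lit 27) (.e (nat_lit 426542) (nat_lit 29) (.e (nat_lit 352313) (nat_lit 23) (.e (nat_lit 98334) (nat_lit 18) (.e (nat_lit 164181) (nat_lit 154) .nil)))))) (.g (nat_lit 6) .nil .nil)))) (.nd (nat_lit 5) 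
(.lf (nat_lit 155792) (.g (nat_lit 2752) (.e (nat_lit 57411) (nat_lit 12) (.e (nat_lit 336326) (nat_lit 18) (.e (nat_lit 204876) (nat_lit 31) (.e (nat_lit 376842) (nat_lit 11) (.e (nat_lit 426098) (nat_lit 1) (.e (nat_lit 164183) (nat_lit 154) .nil)))))) (.g (nat_lit 0) .nil .nil))) 
(.lf (nat_lit 155824) (.g (nat_lit 3164) (.e (nat_lit 57411) (nat_lit 12) (.e (nat_lit 336369) (nat_lit 27) (.e (nat_lit 426499) (nat_lit 27) (.e (nat_lit 336196) (nat_lit 12) (.e (nat_lit 385068) (nat_lit 26) (.e (nat_lit 532499) (nat_lit 1) (.e (nat_lit 57847) (nat_lit 252) .nil))))))) (.g (nat_lit 4) .nil .nil))))) (.nd (nat_lit 4) (.nd (nat_lit 5) 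
(.lf (nat_lit 155784) (.g (nat_lit 1890) (.e (nat_lit 57411) (nat_lit 12) (.e (nat_lit 336325) (nat_lit 18) (.e (nat_lit 204877) (nat_lit 31) (.e (nat_lit 376842) (nat_lit 11) (.e (nat_lit 426106) (nat_lit 1) (.e (nat_lit 164183) (nat_lit 154) .nil)))))) (.g (nat_lit 4) .nil .nil))) 
(.lf (nat_lit 155816) (.g (nat_lit 2122) (.e (nat_lit 57411) (nat_lit 12) (.e (nat_lit 336367) (nat_lit 27) (.e (nat_lit 426544) (nat_lit 30) (.e (nat_lit 360467) (nat_lit 3) (.e (nat_lit 516119) (nat_lit 1) (.e (nat_lit 164176) (nat_lit 154) .nil)))))) (.g (nat_lit 4) .nil .nil)))) (.nd (nat_lit 5) 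
(.lf (nat_lit 155800) (.g (nat_lit 3296) (.e (nat_lit 57411) (nat_lit 12) (.e (nat_lit 336366) (nat_lit 27) (.e (nat_lit 426546) (nat_lit 30) (.e (nat_lit 360466) (nat_lit 3) (.e (nat_lit 516115) (nat_lit 1) (.e (nat_lit 164179) (nat_lit 154) .nil)))))) (.g (nat_lit 0) .nil .nil))) 
(.lf (nat_lit 155832) (.g (nat_lit 2832) (.e (nat_lit 57411) (nat_lit 12) (.e (nat_lit 336370) (nat_lit 27) (.e (nat_lit 426498) (nat_lit 27) (.e (nat_lit 336194) (nat_lit 12) (.e (nat_lit 385068) (nat_lit 26) (.e (nat_lit 532499) (nat_lit 1) (.e (nat_lit 57847) (nat_lit 252) .nil))))))) (.g (nat_lit 5) .nil .nil)))))) (.nd (nat_lit 3) (.nd (nat_lit 4) (.nd (nat_lit 5) 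
(.lf (nat_lit 155780) (.g (nat_lit 1079) (.e (nat_lit 57411) (nat_lit 12) (.e (nat_lit 336325) (nat_lit 18) (.e (nat_lit 204855) (nat_lit 26) (.e (nat_lit 336219) (nat_lit 13) .nil)))) .nil)) 
(.lf (nat_lit 155812) (.g (nat_lit 1618) (.e (nat_lit 57411) (nat_lit 12) (.e (nat_lit 336367) (nat_lit 27) (.e (nat_lit 426544) (nat_lit 30) (.e (nat_lit 360466) (nat_lit 3) (.e (nat_lit 516117) (nat_lit 1) (.e (nat_lit 164180) (nat_lit 154) .nil)))))) (.g (nat_lit 4) .nil .nil)))) (.nd (nat_lit 5) 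
(.lf (nat_lit 155796) (.g (nat_lit 2938) (.e (nat_lit 57411) (nat_lit 12) (.e (nat_lit 336366) (nat_lit 27) (.e (nat_lit 426499) (nat_lit 27) (.e (nat_lit 336196) (nat_lit 12) (.e (nat_lit 385066) (nat_lit 26) (.e (nat_lit 532499) (nat_lit 1) (.e (nat_lit 57847) (nat_lit 252) .nil))))))) (.g (nat_lit 4) .nil .nil))) 
(.lf (nat_lit 155828) (.g (nat_lit 2192) (.e (nat_lit 57411) (nat_lit 12) (.e (nat_lit 336370) (nat_lit 27) (.e (nat_lit 426497) (nat_lit 27) (.e (nat_lit 336194) (nat_lit 12) (.e (nat_lit 385066) (nat_lit 26) (.e (nat_lit 532499) (nat_lit 1) (.e (nat_lit 57847) (nat_lit 252) .nil))))))) (.g (nat_lit 4) .nil .nil))))) (.nd (nat_lit 4) (.nd (nat_lit 5) 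
(.lf (nat_lit 155788) (.g (nat_lit 2646) (.e (nat_lit 57411) (nat_lit 12) (.e (nat_lit 336326) (nat_lit 18) (.e (nat_lit 204854) (nat_lit 26) (.e (nat_lit 336211) (nat_lit 13) (.e (nat_lit 393253) (nat_lit 18) (.e (nat_lit 164178) (nat_lit 154) .nil)))))) (.g (nat_lit 4) .nil .nil))) 
(.lf (nat_lit 155820) (.g (nat_lit 1507) (.e (nat_lit 57411) (nat_lit 12) (.e (nat_lit 336367) (nat_lit 27) (.e (nat_lit 426555) (nat_lit 32) (.e (nat_lit 376834) (nat_lit 0) .nil)))) .nil))) (.nd (nat_lit 5) 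
(.lf (nat_lit 155804) (.g (nat_lit 1997) (.e (nat_lit 57411) (nat_lit 12) (.e (nat_lit 336367) (nat_lit 27) (.e (nat_lit 426530) (nat_lit 27) (.e (nat_lit 336116) (nat_lit 9) (.e (nat_lit 336323) (nat_lit 18) (.e (nat_lit 204831) (nat_lit 18) (.e (nat_lit 57847) (nat_lit 252) .nil))))))) (.g (nat_lit 7) .nil .nil))) 
(.lf (nat_lit 155836) (.g (nat_lit 2279) (.e (nat_lit 57411) (nat_lit 12) (.e (nat_lit 336370) (nat_lit 27) (.e (nat_lit 426499) (nat_lit 27) (.e (nat_lit 336196) (nat_lit 12) (.e (nat_lit 385064) (nat_lit 26) (.e (nat_lit 532503) (nat_lit 1) (.e (nat_lit 57847) (nat_lit 252) .nil))))))) (.g (nat_lit 4) .nil .nil))))))) (.nd (nat_lit 2) (.nd (nat_lit 3) (.nd (nat_lit 4) (.nd (nat_lit 5) 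
(.lf (nat_lit 155778) (.g (nat_lit 2979) (.e (nat_lit 57411) (nat_lit 12) (.e (nat_lit 336324) (nat_lit 18) (.e (nat_lit 204877) (nat_lit 31) (.e (nat_lit 376842) (nat_lit 11) (.e (nat_lit 426108) (nat_lit 1) (.e (nat_lit 164183) (nat_lit 154) .nil)))))) (.g (nat_lit 0) .nil .nil))) 
(.lf (nat_lit 155810) (.g (nat_lit 1782) (.e (nat_lit 57411) (nat_lit 12) (.e (nat_lit 336367) (nat_lit 27) (.e (nat_lit 426542) (nat_lit 29) (.e (nat_lit 352315) (nat_lit 23) (.e (nat_lit 98334) (nat_lit 18) (.e (nat_lit 164176) (nat_lit 154) .nil)))))) (.g (nat_lit 4) .nil .nil)))) (.nd (nat_lit 5) 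
(.lf (nat_lit 155794) (.g (nat_lit 2126) (.e (nat_lit 57411) (nat_lit 12) (.e (nat_lit 336326) (nat_lit 18) (.e (nat_lit 204877) (nat_lit 31) (.e (nat_lit 376842) (nat_lit 11) (.e (nat_lit 426105) (nat_lit 1) (.e (nat_lit 164183) (nat_lit 154) .nil)))))) (.g (nat_lit 4) .nil .nil))) 
(.lf (nat_lit 155826) (.g (nat_lit 1881) (.e (nat_lit 57411) (nat_lit 12) (.e (nat_lit 336370) (nat_lit 27) (.e (nat_lit 426497) (nat_lit 27) (.e (nat_lit 336087) (nat_lit 9) (.e (nat_lit 336019) (nat_lit 3) (.e (nat_lit 98335) (nat_lit 18) (.e (nat_lit 164183) (nat_lit 154) .nil))))))) (.g (nat_lit 4) .nil .nil))))) (.nd (nat_lit 4) (.nd (nat_lit 5) 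
(.lf (nat_lit 155786) (.g (nat_lit 1414) (.e (nat_lit 57411) (nat_lit 12) (.e (nat_lit 336326) (nat_lit 18) (.e (nat_lit 204854) (nat_lit 26) (.e (nat_lit 336211) (nat_lit 13) (.e (nat_lit 393251) (nat_lit 18) .nil))))) .nil)) 
(.lf (nat_lit 155818) (.g (nat_lit 1976) (.e (nat_lit 57411) (nat_lit 12) (.e (nat_lit 336367) (nat_lit 27) (.e (nat_lit 426546) (nat_lit 30) (.e (nat_lit 360466) (nat_lit 3) (.e (nat_lit 516117) (nat_lit 1) (.e (nat_lit 164176) (nat_lit 154) .nil)))))) (.g (nat_lit 5) .nil .nil)))) (.nd (nat_lit 5) 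
(.lf (nat_lit 155802) (.g (nat_lit 3203) (.e (nat_lit 57411) (nat_lit 12) (.e (nat_lit 336366) (nat_lit 27) (.e (nat_lit 426555) (nat_lit 32) (.e (nat_lit 376869) (nat_lit 23) (.e (nat_lit 98333) (nat_lit 18) (.e (nat_lit 164183) (nat_lit 154) .nil)))))) (.g (nat_lit 6) .nil .nil))) 
(.lf (nat_lit 155834) (.g (nat_lit 2186) (.e (nat_lit 57411) (nat_lit 12) (.e (nat_lit 336370) (nat_lit 27) (.e (nat_lit 426499) (nat_lit 27) (.e (nat_lit 336078) (nat_lit 9) (.e (nat_lit 336324) (nat_lit 18) (.e (nat_lit 204831) (nat_lit 18) (.e (nat_lit 57847) (nat_lit 252) .nil))))))) (.g (nat_lit 4) .nil .nil)))))) (.nd (nat_lit 3) (.nd (nat_lit 4) (.nd (nat_lit 5) 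
(.lf (nat_lit 155782) (.g (nat_lit 2114) (.e (nat_lit 57411) (nat_lit 12) (.e (nat_lit 336325) (nat_lit 18) (.e (nat_lit 204877) (nat_lit 31) (.e (nat_lit 376842) (nat_lit 11) (.e (nat_lit 426098) (nat_lit 1) (.e (nat_lit 164183) (nat_lit 154) .nil)))))) (.g (nat_lit 5) .nil .nil))) 
(.lf (nat_lit 155814) (.g (nat_lit 1699) (.e (nat_lit 57411) (nat_lit 12) (.e (nat_lit 336367) (nat_lit 27) (.e (nat_lit 426544) (nat_lit 30) (.e (nat_lit 360466) (nat_lit 3) (.e (nat_lit 516120) (nat_lit 1) (.e (nat_lit 164181) (nat_lit 154) .nil)))))) (.g (nat_lit 4) .nil .nil)))) (.nd (nat_lit 5) 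
(.lf (nat_lit 155798) (.g (nat_lit 3394) (.e (nat_lit 57411) (nat_lit 12) (.e (nat_lit 336366) (nat_lit 27) (.e (nat_lit 426499) (nat_lit 27) (.e (nat_lit 336196) (nat_lit 12) (.e (nat_lit 385068) (nat_lit 26) (.e (nat_lit 532499) (nat_lit 1) (.e (nat_lit 57847) (nat_lit 252) .nil))))))) (.g (nat_lit 5) .nil .nil))) 
(.lf (nat_lit 155830) (.g (nat_lit 2372) (.e (nat_lit 57411) (nat_lit 12) (.e (nat_lit 336370) (nat_lit 27) (.e (nat_lit 426497) (nat_lit 27) (.e (nat_lit 336194) (nat_lit 12) (.e (nat_lit 385068) (nat_lit 26) (.e (nat_lit 532503) (nat_lit 1) (.e (nat_lit 57847) (nat_lit 252) .nil))))))) (.g (nat_lit 5) .nil .nil))))) (.nd (nat_lit 4) (.nd (nat_lit 5) 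
(.lf (nat_lit 155790) (.g (nat_lit 1802) (.e (nat_lit 57411) (nat_lit 12) (.e (nat_lit 336326) (nat_lit 18) (.e (nat_lit 204869) (nat_lit 29) (.e (nat_lit 360448) (nat_lit 0) .nil)))) .nil)) 
(.lf (nat_lit 155822) (.g (nat_lit 2605) (.e (nat_lit 57411) (nat_lit 12) (.e (nat_lit 336368) (nat_lit 27) (.e (nat_lit 426499) (nat_lit 27) (.e (nat_lit 336196) (nat_lit 12) (.e (nat_lit 385068) (nat_lit 26) (.e (nat_lit 532499) (nat_lit 1) (.e (nat_lit 57847) (nat_lit 252) .nil))))))) (.g (nat_lit 4) .nil .nil)))) (.nd (nat_lit 5) 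
(.lf (nat_lit 155806) (.g (nat_lit 2874) (.e (nat_lit 57411) (nat_lit 12) (.e (nat_lit 336367) (nat_lit 27) (.e (nat_lit 426530) (nat_lit 27) (.e (nat_lit 336206) (nat_lit 12) (.e (nat_lit 385068) (nat_lit 26) (.e (nat_lit 532499) (nat_lit 1) (.e (nat_lit 57847) (nat_lit 252) .nil))))))) (.g (nat_lit 0) .nil .nil))) 
(.lf (nat_lit 155838) (.g (nat_lit 3236) (.e (nat_lit 57411) (nat_lit 12) (.e (nat_lit 336370) (nat_lit 27) (.e (nat_lit 426499) (nat_lit 27) (.e (nat_lit 336196) (nat_lit 12) (.e (nat_lit 385066) (nat_lit 26) (.e (nat_lit 532503) (nat_lit 1) (.e (nat_lit 57847) (nat_lit 252) .nil))))))) (.g (nat_lit 5) .nil .nil)))))))) 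
(.nd (nat_lit 1) (.nd (nat_lit 2) (.nd (nat_lit 3) (.nd (nat_lit 4) (.nd (nat_lit 5) 
(.lf (nat_lit 155777) (.g (nat_lit 3090) (.e (nat_lit 57411) (nat_lit 12) (.e (nat_lit 336324) (nat_lit 18) (.e (nat_lit 204877) (nat_lit 31) (.e (nat_lit 376842) (nat_lit 11) (.e (nat_lit 426108) (nat_lit 1) (.e (nat_lit 164182) (nat_lit 154) .nil)))))) (.g (nat_lit 6) .nil .nil))) 
(.lf (nat_lit 155809) (.g (nat_lit 2810) (.e (nat_lit 57411) (nat_lit 12) (.e (nat_lit 336367) (nat_lit 27) (.e (nat_lit 426542) (nat_lit 29) (.e (nat_lit 352313) (nat_lit 23) (.e (nat_lit 98335) (nat_lit 18) (.e (nat_lit 164183) (nat_lit 154) .nil)))))) (.g (nat_lit 6) .nil .nil)))) (.nd (nat_lit 5) 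
(.lf (nat_lit 155793) (.g (nat_lit 2118) (.e (nat_lit 57411) (nat_lit 12) (.e (nat_lit 336326) (nat_lit 18) (.e (nat_lit 204876) (nat_lit 31) (.e (nat_lit 376842) (nat_lit 11) (.e (nat_lit 426105) (nat_lit 1) (.e (nat_lit 164183) (nat_lit 154) .nil)))))) (.g (nat_lit 4) .nil .nil))) 
(.lf (nat_lit 155825) (.g (nat_lit 2066) (.e (nat_lit 57411) (nat_lit 12) (.e (nat_lit 336369) (nat_lit 27) (.e (nat_lit 426501) (nat_lit 27) (.e (nat_lit 336194) (nat_lit 12) (.e (nat_lit 385068) (nat_lit 26) .nil))))) .nil)))) (.nd (nat_lit 4) (.nd (nat_lit 5) 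
(.lf (nat_lit 155785) (.g (nat_lit 508) (.e (nat_lit 57411) (nat_lit 12) (.e (nat_lit 336326) (nat_lit 18) (.e (nat_lit 204850) (nat_lit 26) .nil))) .nil)) 
(.lf (nat_lit 155817) (.g (nat_lit 2768) (.e (nat_lit 57411) (nat_lit 12) (.e (nat_lit 336367) (nat_lit 27) (.e (nat_lit 426544) (nat_lit 30) (.e (nat_lit 360467) (nat_lit 3) (.e (nat_lit 516120) (nat_lit 1) (.e (nat_lit 164182) (nat_lit 154) .nil)))))) (.g (nat_lit 5) .nil .nil)))) (.nd (nat_lit 5) 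
(.lf (nat_lit 155801) (.g (nat_lit 3080) (.e (nat_lit 57411) (nat_lit 12) (.e (nat_lit 336366) (nat_lit 27) (.e (nat_lit 426555) (nat_lit 32) (.e (nat_lit 376867) (nat_lit 23) (.e (nat_lit 98333) (nat_lit 18) (.e (nat_lit 164183) (nat_lit 154) .nil)))))) (.g (nat_lit 6) .nil .nil))) 
(.lf (nat_lit 155833) (.g (nat_lit 2117) (.e (nat_lit 57411) (nat_lit 12) (.e (nat_lit 336370) (nat_lit 27) (.e (nat_lit 426499) (nat_lit 27) (.e (nat_lit 336078) (nat_lit 9) (.e (nat_lit 336324) (nat_lit 18) (.e (nat_lit 204829) (nat_lit 18) (.e (nat_lit 57847) (nat_lit 252) .nil))))))) (.g (nat_lit 4) .nil .nil)))))) (.nd (nat_lit 3) (.nd (nat_lit 4) (.nd (nat_lit 5) 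
(.lf (nat_lit 155781) (.g (nat_lit 2333) (.e (nat_lit 57411) (nat_lit 12) (.e (nat_lit 336325) (nat_lit 18) (.e (nat_lit 204865) (nat_lit 28) (.e (nat_lit 352277) (nat_lit 11) (.e (nat_lit 426098) (nat_lit 1) (.e (nat_lit 164183) (nat_lit 154) .nil)))))) (.g (nat_lit 6) .nil .nil))) 
(.lf (nat_lit 155813) (.g (nat_lit 1837) (.e (nat_lit 57411) (nat_lit 12) (.e (nat_lit 336367) (nat_lit 27) (.e (nat_lit 426544) (nat_lit 30) (.e (nat_lit 360466) (nat_lit 3) (.e (nat_lit 516119) (nat_lit 1) (.e (nat_lit 164176) (nat_lit 154) .nil)))))) (.g (nat_lit 4) .nil .nil)))) (.nd (nat_lit 5) 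
(.lf (nat_lit 155797) (.g (nat_lit 2507) (.e (nat_lit 57411) (nat_lit 12) (.e (nat_lit 336366) (nat_lit 27) (.e (nat_lit 426499) (nat_lit 27) (.e (nat_lit 336196) (nat_lit 12) (.e (nat_lit 385066) (nat_lit 26) (.e (nat_lit 532503) (nat_lit 1) (.e (nat_lit 57847) (nat_lit 252) .nil))))))) (.g (nat_lit 4) .nil .nil))) 
(.lf (nat_lit 155829) (.g (nat_lit 2955) (.e (nat_lit 57411) (nat_lit 12) (.e (nat_lit 336370) (nat_lit 27) (.e (nat_lit 426497) (nat_lit 27) (.e (nat_lit 336194) (nat_lit 12) (.e (nat_lit 385068) (nat_lit 26) (.e (nat_lit 532499) (nat_lit 1) (.e (nat_lit 57847) (nat_lit 252) .nil))))))) (.g (nat_lit 5) .nil .nil))))) (.nd (nat_lit 4) (.nd (nat_lit 5) 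
(.lf (nat_lit 155789) (.g (nat_lit 2758) (.e (nat_lit 57411) (nat_lit 12) (.e (nat_lit 336326) (nat_lit 18) (.e (nat_lit 204866) (nat_lit 28) (.e (nat_lit 352273) (nat_lit 11) (.e (nat_lit 426108) (nat_lit 1) (.e (nat_lit 164183) (nat_lit 154) .nil)))))) (.g (nat_lit 5) .nil .nil))) 
(.lf (nat_lit 155821) (.g (nat_lit 729) (.e (nat_lit 57411) (nat_lit 12) (.e (nat_lit 336367) (nat_lit 27) (.e (nat_lit 426555) (nat_lit 32) (.e (nat_lit 376869) (nat_lit 23) .nil)))) .nil))) (.nd (nat_lit 5) 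
(.lf (nat_lit 155805) (.g (nat_lit 1709) (.e (nat_lit 57411) (nat_lit 12) (.e (nat_lit 336367) (nat_lit 27) (.e (nat_lit 426530) (nat_lit 27) (.e (nat_lit 336119) (nat_lit 9) (.e (nat_lit 336323) (nat_lit 18) (.e (nat_lit 204831) (nat_lit 18) (.e (nat_lit 57847) (nat_lit 252) .nil))))))) (.g (nat_lit 6) .nil .nil))) 
(.lf (nat_lit 155837) (.g (nat_lit 2825) (.e (nat_lit 57411) (nat_lit 12) (.e (nat_lit 336370) (nat_lit 27) (.e (nat_lit 426499) (nat_lit 27) (.e (nat_lit 336196) (nat_lit 12) (.e (nat_lit 385066) (nat_lit 26) (.e (nat_lit 532502) (nat_lit 1) (.e (nat_lit 57847) (nat_lit 252) .nil))))))) (.g (nat_lit 4) .nil .nil))))))) (.nd (nat_lit 2) (.nd (nat_lit 3) (.nd (nat_lit 4) (.nd (nat_lit 5) 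
(.lf (nat_lit 155779) (.g (nat_lit 2225) (.e (nat_lit 57411) (nat_lit 12) (.e (nat_lit 336325) (nat_lit 18) (.e (nat_lit 204855) (nat_lit 26) (.e (nat_lit 336212) (nat_lit 13) (.e (nat_lit 393251) (nat_lit 18) (.e (nat_lit 164183) (nat_lit 154) .nil)))))) (.g (nat_lit 4) .nil .nil))) 
(.lf (nat_lit 155811) (.g (nat_lit 1783) (.e (nat_lit 57411) (nat_lit 12) (.e (nat_lit 336367) (nat_lit 27) (.e (nat_lit 426542) (nat_lit 29) (.e (nat_lit 352315) (nat_lit 23) (.e (nat_lit 98334) (nat_lit 18) (.e (nat_lit 164180) (nat_lit 154) .nil)))))) (.g (nat_lit 4) .nil .nil)))) (.nd (nat_lit 5) 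
(.lf (nat_lit 155795) (.g (nat_lit 2162) (.e (nat_lit 57411) (nat_lit 12) (.e (nat_lit 336366) (nat_lit 27) (.e (nat_lit 426498) (nat_lit 27) (.e (nat_lit 336194) (nat_lit 12) (.e (nat_lit 385068) (nat_lit 26) (.e (nat_lit 532499) (nat_lit 1) (.e (nat_lit 57847) (nat_lit 252) .nil))))))) (.g (nat_lit 4) .nil .nil))) 
(.lf (nat_lit 155827) (.g (nat_lit 2098) (.e (nat_lit 57411) (nat_lit 12) (.e (nat_lit 336370) (nat_lit 27) (.e (nat_lit 426497) (nat_lit 27) (.e (nat_lit 336088) (nat_lit 9) (.e (nat_lit 336019) (nat_lit 3) (.e (nat_lit 98335) (nat_lit 18) (.e (nat_lit 164183) (nat_lit 154) .nil))))))) (.g (nat_lit 4) .nil .nil))))) (.nd (nat_lit 4) (.nd (nat_lit 5) 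
(.lf (nat_lit 155787) (.g (nat_lit 2272) (.e (nat_lit 57411) (nat_lit 12) (.e (nat_lit 336326) (nat_lit 18) (.e (nat_lit 204854) (nat_lit 26) (.e (nat_lit 336211) (nat_lit 13) (.e (nat_lit 393252) (nat_lit 18) (.e (nat_lit 164181) (nat_lit 154) .nil)))))) (.g (nat_lit 4) .nil .nil))) 
(.lf (nat_lit 155819) (.g (nat_lit 1911) (.e (nat_lit 57411) (nat_lit 12) (.e (nat_lit 336367) (nat_lit 27) (.e (nat_lit 426546) (nat_lit 30) (.e (nat_lit 360466) (nat_lit 3) (.e (nat_lit 516120) (nat_lit 1) (.e (nat_lit 164176) (nat_lit 154) .nil)))))) (.g (nat_lit 5) .nil .nil)))) (.nd (nat_lit 5) 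
(.lf (nat_lit 155803) (.g (nat_lit 2928) (.e (nat_lit 57411) (nat_lit 12) (.e (nat_lit 336366) (nat_lit 27) (.e (nat_lit 426555) (nat_lit 32) (.e (nat_lit 376869) (nat_lit 23) (.e (nat_lit 98334) (nat_lit 18) (.e (nat_lit 164183) (nat_lit 154) .nil)))))) (.g (nat_lit 6) .nil .nil))) 
(.lf (nat_lit 155835) (.g (nat_lit 2253) (.e (nat_lit 57411) (nat_lit 12) (.e (nat_lit 336370) (nat_lit 27) (.e (nat_lit 426499) (nat_lit 27) (.e (nat_lit 336194) (nat_lit 12) (.e (nat_lit 385068) (nat_lit 26) .nil))))) .nil))))) (.nd (nat_lit 3) (.nd (nat_lit 4) (.nd (nat_lit 5) 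
(.lf (nat_lit 155783) (.g (nat_lit 2374) (.e (nat_lit 57411) (nat_lit 12) (.e (nat_lit 336325) (nat_lit 18) (.e (nat_lit 204877) (nat_lit 31) (.e (nat_lit 376842) (nat_lit 11) (.e (nat_lit 426100) (nat_lit 1) (.e (nat_lit 164183) (nat_lit 154) .nil)))))) (.g (nat_lit 5) .nil .nil))) 
(.lf (nat_lit 155815) (.g (nat_lit 2067) (.e (nat_lit 57411) (nat_lit 12) (.e (nat_lit 336367) (nat_lit 27) (.e (nat_lit 426544) (nat_lit 30) (.e (nat_lit 360467) (nat_lit 3) (.e (nat_lit 516117) (nat_lit 1) (.e (nat_lit 164181) (nat_lit 154) .nil)))))) (.g (nat_lit 4) .nil .nil)))) (.nd (nat_lit 5) 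
(.lf (nat_lit 155799) (.g (nat_lit 2958) (.e (nat_lit 57411) (nat_lit 12) (.e (nat_lit 336366) (nat_lit 27) (.e (nat_lit 426499) (nat_lit 27) (.e (nat_lit 336196) (nat_lit 12) (.e (nat_lit 385068) (nat_lit 26) (.e (nat_lit 532503) (nat_lit 1) (.e (nat_lit 57847) (nat_lit 252) .nil))))))) (.g (nat_lit 4) .nil .nil))) 
(.lf (nat_lit 155831) (.g (nat_lit 2035) (.e (nat_lit 57411) (nat_lit 12) (.e (nat_lit 336370) (nat_lit 27) (.e (nat_lit 426498) (nat_lit 27) (.e (nat_lit 336076) (nat_lit 9) (.e (nat_lit 336324) (nat_lit 18) (.e (nat_lit 204831) (nat_lit 18) (.e (nat_lit 57847) (nat_lit 252) .nil))))))) (.g (nat_lit 4) .nil .nil))))) (.nd (nat_lit 4) (.nd (nat_lit 5) 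
(.lf (nat_lit 155791) (.g (nat_lit 3380) (.e (nat_lit 57411) (nat_lit 12) (.e (nat_lit 336326) (nat_lit 18) (.e (nat_lit 204876) (nat_lit 31) (.e (nat_lit 376842) (nat_lit 11) (.e (nat_lit 426098) (nat_lit 1) (.e (nat_lit 164179) (nat_lit 154) .nil)))))) (.g (nat_lit 0) .nil .nil))) 
(.lf (nat_lit 155823) (.g (nat_lit 1947) (.e (nat_lit 57411) (nat_lit 12) (.e (nat_lit 336369) (nat_lit 27) (.e (nat_lit 426499) (nat_lit 27) (.e (nat_lit 336078) (nat_lit 9) .nil)))) .nil))) (.nd (nat_lit 5) 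
(.lf (nat_lit 155807) (.g (nat_lit 1940) (.e (nat_lit 57411) (nat_lit 12) (.e (nat_lit 336367) (nat_lit 27) (.e (nat_lit 426542) (nat_lit 29) (.e (nat_lit 352313) (nat_lit 23) (.e (nat_lit 98334) (nat_lit 18) (.e (nat_lit 164176) (nat_lit 154) .nil)))))) (.g (nat_lit 5) .nil .nil))) 
(.lf (nat_lit 155839) (.g (nat_lit 4123) (.e (nat_lit 57411) (nat_lit 12) (.e (nat_lit 336370) (nat_lit 27) (.e (nat_lit 426499) (nat_lit 27) (.e (nat_lit 336196) (nat_lit 12) (.e (nat_lit 385068) (nat_lit 26) (.e (nat_lit 532499) (nat_lit 1) (.e (nat_lit 57847) (nat_lit 252) .nil))))))) (.g (nat_lit 6) .nil .nil)))))))))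

noncomputable def tv2082 : DT := (.nd (nat_lit 0) (.nd (nat_lit 1) (.nd (nat_lit 2) (.nd (nat_lit 3) (.nd (nat_lit 4) (.nd (nat_lit 5) 
(.lf (nat_lit 155840) (.g (nat_lit 3687) (.e (nat_lit 57411) (nat_lit 12) (.e (nat_lit 336370) (nat_lit 27) (.e (nat_lit 426499) (nat_lit 27) (.e (nat_lit 336196) (nat_lit 12) (.e (nat_lit 385068) (nat_lit 26) (.e (nat_lit 532503) (nat_lit 1) (.e (nat_lit 57847) (nat_lit 252) .nil))))))) (.g (nat_lit 6) .nil .nil))) 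
(.lf (nat_lit 155872) (.g (nat_lit 1194) (.e (nat_lit 57411) (nat_lit 12) (.e (nat_lit 336443) (nat_lit 32) (.e (nat_lit 466977) (nat_lit 22) (.e (nat_lit 196654) (nat_lit 11) .nil)))) .nil))) (.nd (nat_lit 5) 
(.lf (nat_lit 155856) (.g (nat_lit 1101) (.e (nat_lit 57411) (nat_lit 12) (.e (nat_lit 336443) (nat_lit 32) (.e (nat_lit 466974) (nat_lit 22) (.e (nat_lit 196654) (nat_lit 11) .nil)))) .nil)) 
(.lf (nat_lit 155888) (.g (nat_lit 1831) (.e (nat_lit 57411) (nat_lit 12) (.e (nat_lit 336443) (nat_lit 32) (.e (nat_lit 466977) (nat_lit 22) (.e (nat_lit 196656) (nat_lit 11) (.e (nat_lit 16405) (nat_lit 1) .nil))))) .nil)))) (.nd (nat_lit 4) (.nd (nat_lit 5) 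
(.lf (nat_lit 155848) (.g (nat_lit 1255) (.e (nat_lit 57411) (nat_lit 12) (.e (nat_lit 336432) (nat_lit 30) (.e (nat_lit 450580) (nat_lit 5) (.e (nat_lit 532583) (nat_lit 26) .nil)))) .nil)) 
(.lf (nat_lit 155880) (.g (nat_lit 2105) (.e (nat_lit 57411) (nat_lit 12) (.e (nat_lit 336443) (nat_lit 32) (.e (nat_lit 466977) (nat_lit 22) (.e (nat_lit 196655) (nat_lit 11) (.e (nat_lit 16388) (nat_lit 0) .nil))))) .nil))) (.nd (nat_lit 5) 
(.lf (nat_lit 155864) (.g (nat_lit 1175) (.e (nat_lit 57411) (nat_lit 12) (.e (nat_lit 336443) (nat_lit 32) (.e (nat_lit 466974) (nat_lit 22) (.e (nat_lit 196656) (nat_lit 11) .nil)))) .nil)) 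
(.lf (nat_lit 155896) (.g (nat_lit 346) (.e (nat_lit 57411) (nat_lit 12) (.e (nat_lit 336443) (nat_lit 32) (.e (nat_lit 466981) (nat_lit 23) .nil))) .nil))))) (.nd (nat_lit 3) (.nd (nat_lit 4) (.nd (nat_lit 5) 
(.lf (nat_lit 155844) (.g (nat_lit 4046) (.e (nat_lit 57411) (nat_lit 12) (.e (nat_lit 336432) (nat_lit 30) (.e (nat_lit 450580) (nat_lit 5) (.e (nat_lit 532579) (nat_lit 26) (.e (nat_lit 426098) (nat_lit 1) (.e (nat_lit 164398) (nat_lit 256) .nil)))))) (.g (nat_lit 0) .nil .nil))) 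
(.lf (nat_lit 155876) (.g (nat_lit 1723) (.e (nat_lit 57411) (nat_lit 12) (.e (nat_lit 336443) (nat_lit 32) (.e (nat_lit 466977) (nat_lit 22) (.e (nat_lit 196654) (nat_lit 11) (.e (nat_lit 16406) (nat_lit 1) .nil))))) .nil))) (.nd (nat_lit 5) 
(.lf (nat_lit 155860) (.g (nat_lit 2876) (.e (nat_lit 57411) (nat_lit 12) (.e (nat_lit 336443) (nat_lit 32) (.e (nat_lit 466974) (nat_lit 22) (.e (nat_lit 196654) (nat_lit 11) (.e (nat_lit 16405) (nat_lit 1) (.e (nat_lit 164399) (nat_lit 256) .nil)))))) (.g (nat_lit 0) .nil .nil))) 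
(.lf (nat_lit 155892) (.g (nat_lit 1175) (.e (nat_lit 57411) (nat_lit 12) (.e (nat_lit 336443) (nat_lit 32) (.e (nat_lit 466978) (nat_lit 23) .nil))) .nil)))) (.nd (nat_lit 4) (.nd (nat_lit 5) 
(.lf (nat_lit 155852) (.g (nat_lit 446) (.e (nat_lit 57411) (nat_lit 12) (.e (nat_lit 336443) (nat_lit 32) (.e (nat_lit 466974) (nat_lit 22) .nil))) .nil)) 
(.lf (nat_lit 155884) (.g (nat_lit 2722) (.e (nat_lit 57411) (nat_lit 12) (.e (nat_lit 336443) (nat_lit 32) (.e (nat_lit 466977) (nat_lit 22) (.e (nat_lit 196656) (nat_lit 11) (.e (nat_lit 16388) (nat_lit 0) (.e (nat_lit 2536) (nat_lit 157) (.e (nat_lit 5937) (nat_lit 322) .nil))))))) (.g (nat_lit 4) .nil .nil)))) (.nd (nat_lit 5) 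
(.lf (nat_lit 155868) (.g (nat_lit 2142) (.e (nat_lit 57411) (nat_lit 12) (.e (nat_lit 336443) (nat_lit 32) (.e (nat_lit 466977) (nat_lit 22) (.e (nat_lit 196624) (nat_lit 9) (.e (nat_lit 473) (nat_lit 36) .nil))))) .nil)) 
(.lf (nat_lit 155900) (.g (nat_lit 2938) (.e (nat_lit 57411) (nat_lit 12) (.e (nat_lit 336443) (nat_lit 32) (.e (nat_lit 466981) (nat_lit 23) (.e (nat_lit 204813) (nat_lit 9) (.e (nat_lit 426100) (nat_lit 1) (.e (nat_lit 164398) (nat_lit 256) .nil)))))) (.g (nat_lit 6) .nil .nil))))))) (.nd (nat_lit 2) (.nd (nat_lit 3) (.nd (nat_lit 4) (.nd (nat_lit 5) 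
(.lf (nat_lit 155842) (.g (nat_lit 2584) (.e (nat_lit 57411) (nat_lit 12) (.e (nat_lit 336370) (nat_lit 27) (.e (nat_lit 426501) (nat_lit 27) (.e (nat_lit 336194) (nat_lit 12) (.e (nat_lit 385068) (nat_lit 26) (.e (nat_lit 532503) (nat_lit 1) (.e (nat_lit 57847) (nat_lit 252) .nil))))))) (.g (nat_lit 5) .nil .nil))) 
(.lf (nat_lit 155874) (.g (nat_lit 1725) (.e (nat_lit 57411) (nat_lit 12) (.e (nat_lit 336443) (nat_lit 32) (.e (nat_lit 466977) (nat_lit 22) (.e (nat_lit 196654) (nat_lit 11) (.e (nat_lit 16405) (nat_lit 1) .nil))))) .nil))) (.nd (nat_lit 5) 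
(.lf (nat_lit 155858) (.g (nat_lit 1781) (.e (nat_lit 57411) (nat_lit 12) (.e (nat_lit 336443) (nat_lit 32) (.e (nat_lit 466974) (nat_lit 22) (.e (nat_lit 196654) (nat_lit 11) (.e (nat_lit 16388) (nat_lit 0) .nil))))) .nil)) 
(.lf (nat_lit 155890) (.g (nat_lit 1846) (.e (nat_lit 57411) (nat_lit 12) (.e (nat_lit 336443) (nat_lit 32) (.e (nat_lit 466977) (nat_lit 22) (.e (nat_lit 196656) (nat_lit 11) (.e (nat_lit 16406) (nat_lit 1) .nil))))) .nil)))) (.nd (nat_lit 4) (.nd (nat_lit 5) 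
(.lf (nat_lit 155850) (.g (nat_lit 2398) (.e (nat_lit 57411) (nat_lit 12) (.e (nat_lit 336432) (nat_lit 30) (.e (nat_lit 450580) (nat_lit 5) (.e (nat_lit 532583) (nat_lit 26) (.e (nat_lit 426100) (nat_lit 1) (.e (nat_lit 164399) (nat_lit 256) .nil)))))) (.g (nat_lit 4) .nil .nil))) 
(.lf (nat_lit 155882) (.g (nat_lit 2414) (.e (nat_lit 57411) (nat_lit 12) (.e (nat_lit 336443) (nat_lit 32) (.e (nat_lit 466977) (nat_lit 22) (.e (nat_lit 196656) (nat_lit 11) (.e (nat_lit 16384) (nat_lit 0) .nil))))) .nil))) (.nd (nat_lit 5) 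
(.lf (nat_lit 155866) (.g (nat_lit 1343) (.e (nat_lit 57411) (nat_lit 12) (.e (nat_lit 336443) (nat_lit 32) (.e (nat_lit 466977) (nat_lit 22) (.e (nat_lit 196624) (nat_lit 9) .nil)))) .nil)) 
(.lf (nat_lit 155898) (.g (nat_lit 2777) (.e (nat_lit 57411) (nat_lit 12) (.e (nat_lit 336443) (nat_lit 32) (.e (nat_lit 466981) (nat_lit 23) (.e (nat_lit 204809) (nat_lit 9) (.e (nat_lit 426098) (nat_lit 1) (.e (nat_lit 164399) (nat_lit 256) .nil)))))) (.g (nat_lit 0) .nil .nil)))))) (.nd (nat_lit 3) (.nd (nat_lit 4) (.nd (nat_lit 5) 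
(.lf (nat_lit 155846) (.g (nat_lit 4168) (.e (nat_lit 57411) (nat_lit 12) (.e (nat_lit 336432) (nat_lit 30) (.e (nat_lit 450580) (nat_lit 5) (.e (nat_lit 532579) (nat_lit 26) (.e (nat_lit 426100) (nat_lit 1) (.e (nat_lit 164398) (nat_lit 256) .nil)))))) (.g (nat_lit 0) .nil .nil))) 
(.lf (nat_lit 155878) (.g (nat_lit 2434) (.e (nat_lit 57411) (nat_lit 12) (.e (nat_lit 336443) (nat_lit 32) (.e (nat_lit 466977) (nat_lit 22) (.e (nat_lit 196654) (nat_lit 11) (.e (nat_lit 16407) (nat_lit 1) (.e (nat_lit 164396) (nat_lit 256) .nil)))))) (.g (nat_lit 4) .nil .nil)))) (.nd (nat_lit 5) 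
(.lf (nat_lit 155862) (.g (nat_lit 2867) (.e (nat_lit 57411) (nat_lit 12) (.e (nat_lit 336443) (nat_lit 32) (.e (nat_lit 466974) (nat_lit 22) (.e (nat_lit 196654) (nat_lit 11) (.e (nat_lit 16406) (nat_lit 1) (.e (nat_lit 164399) (nat_lit 256) .nil)))))) (.g (nat_lit 0) .nil .nil))) 
(.lf (nat_lit 155894) (.g (nat_lit 1948) (.e (nat_lit 57411) (nat_lit 12) (.e (nat_lit 336443) (nat_lit 32) (.e (nat_lit 466979) (nat_lit 23) (.e (nat_lit 204813) (nat_lit 9) (.e (nat_lit 426099) (nat_lit 1) (.e (nat_lit 164399) (nat_lit 256) .nil)))))) (.g (nat_lit 4) .nil .nil))))) (.nd (nat_lit 4) (.nd (nat_lit 5) 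
(.lf (nat_lit 155854) (.g (nat_lit 1849) (.e (nat_lit 57411) (nat_lit 12) (.e (nat_lit 336443) (nat_lit 32) (.e (nat_lit 466974) (nat_lit 22) (.e (nat_lit 196653) (nat_lit 11) (.e (nat_lit 16388) (nat_lit 0) .nil))))) .nil)) 
(.lf (nat_lit 155886) (.g (nat_lit 1902) (.e (nat_lit 57411) (nat_lit 12) (.e (nat_lit 336443) (nat_lit 32) (.e (nat_lit 466977) (nat_lit 22) (.e (nat_lit 196656) (nat_lit 11) (.e (nat_lit 16392) (nat_lit 0) .nil))))) .nil))) (.nd (nat_lit 5) 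
(.lf (nat_lit 155870) (.g (nat_lit 1877) (.e (nat_lit 57411) (nat_lit 12) (.e (nat_lit 336443) (nat_lit 32) (.e (nat_lit 466977) (nat_lit 22) (.e (nat_lit 196653) (nat_lit 11) (.e (nat_lit 16388) (nat_lit 0) .nil))))) .nil)) 
(.lf (nat_lit 155902) (.g (nat_lit 2937) (.e (nat_lit 57411) (nat_lit 12) (.e (nat_lit 336452) (nat_lit 34) (.e (nat_lit 483403) (nat_lit 26) (.e (nat_lit 385066) (nat_lit 26) (.e (nat_lit 532502) (nat_lit 1) (.e (nat_lit 57847) (nat_lit 252) .nil)))))) (.g (nat_lit 5) .nil .nil)))))))) (.nd (nat_lit 1) (.nd (nat_lit 2) (.nd (nat_lit 3) (.nd (nat_lit 4) (.nd (nat_lit 5) 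
(.lf (nat_lit 155841) (.g (nat_lit 2424) (.e (nat_lit 57411) (nat_lit 12) (.e (nat_lit 336370) (nat_lit 27) (.e (nat_lit 426501) (nat_lit 27) (.e (nat_lit 336076) (nat_lit 9) (.e (nat_lit 336324) (nat_lit 18) (.e (nat_lit 204831) (nat_lit 18) (.e (nat_lit 57847) (nat_lit 252) .nil))))))) (.g (nat_lit 5) .nil .nil))) 
(.lf (nat_lit 155873) (.g (nat_lit 1925) (.e (nat_lit 57411) (nat_lit 12) (.e (nat_lit 336443) (nat_lit 32) (.e (nat_lit 466977) (nat_lit 22) (.e (nat_lit 196654) (nat_lit 11) (.e (nat_lit 16391) (nat_lit 0) .nil))))) .nil))) (.nd (nat_lit 5) 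
(.lf (nat_lit 155857) (.g (nat_lit 1775) (.e (nat_lit 57411) (nat_lit 12) (.e (nat_lit 336443) (nat_lit 32) (.e (nat_lit 466974) (nat_lit 22) (.e (nat_lit 196654) (nat_lit 11) (.e (nat_lit 16386) (nat_lit 0) .nil))))) .nil)) 
(.lf (nat_lit 155889) (.g (nat_lit 3162) (.e (nat_lit 57411) (nat_lit 12) (.e (nat_lit 336443) (nat_lit 32) (.e (nat_lit 466977) (nat_lit 22) (.e (nat_lit 196656) (nat_lit 11) (.e (nat_lit 16405) (nat_lit 1) (.e (nat_lit 164399) (nat_lit 256) .nil)))))) (.g (nat_lit 0) .nil .nil))))) (.nd (nat_lit 4) (.nd (nat_lit 5) 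
(.lf (nat_lit 155849) (.g (nat_lit 2067) (.e (nat_lit 57411) (nat_lit 12) (.e (nat_lit 336432) (nat_lit 30) (.e (nat_lit 450580) (nat_lit 5) (.e (nat_lit 532583) (nat_lit 26) (.e (nat_lit 426098) (nat_lit 1) (.e (nat_lit 164399) (nat_lit 256) .nil)))))) (.g (nat_lit 4) .nil .nil))) 
(.lf (nat_lit 155881) (.g (nat_lit 1250) (.e (nat_lit 57411) (nat_lit 12) (.e (nat_lit 336443) (nat_lit 32) (.e (nat_lit 466977) (nat_lit 22) (.e (nat_lit 196656) (nat_lit 11) .nil)))) .nil))) (.nd (nat_lit 5) 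
(.lf (nat_lit 155865) (.g (nat_lit 426) (.e (nat_lit 57411) (nat_lit 12) (.e (nat_lit 336443) (nat_lit 32) (.e (nat_lit 466977) (nat_lit 22) .nil))) .nil)) 
(.lf (nat_lit 155897) (.g (nat_lit 2374) (.e (nat_lit 57411) (nat_lit 12) (.e (nat_lit 336443) (nat_lit 32) (.e (nat_lit 466981) (nat_lit 23) (.e (nat_lit 204808) (nat_lit 9) (.e (nat_lit 426100) (nat_lit 1) (.e (nat_lit 164399) (nat_lit 256) .nil)))))) (.g (nat_lit 5) .nil .nil)))))) (.nd (nat_lit 3) (.nd (nat_lit 4) (.nd (nat_lit 5) 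
(.lf (nat_lit 155845) (.g (nat_lit 2514) (.e (nat_lit 57411) (nat_lit 12) (.e (nat_lit 336432) (nat_lit 30) (.e (nat_lit 450580) (nat_lit 5) (.e (nat_lit 532579) (nat_lit 26) (.e (nat_lit 426099) (nat_lit 1) (.e (nat_lit 164399) (nat_lit 256) .nil)))))) (.g (nat_lit 4) .nil .nil))) 
(.lf (nat_lit 155877) (.g (nat_lit 2953) (.e (nat_lit 57411) (nat_lit 12) (.e (nat_lit 336443) (nat_lit 32) (.e (nat_lit 466977) (nat_lit 22) (.e (nat_lit 196654) (nat_lit 11) (.e (nat_lit 16406) (nat_lit 1) (.e (nat_lit 164399) (nat_lit 256) .nil)))))) (.g (nat_lit 0) .nil .nil)))) (.nd (nat_lit 5) 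
(.lf (nat_lit 155861) (.g (nat_lit 1604) (.e (nat_lit 57411) (nat_lit 12) (.e (nat_lit 336443) (nat_lit 32) (.e (nat_lit 466974) (nat_lit 22) (.e (nat_lit 196654) (nat_lit 11) (.e (nat_lit 16406) (nat_lit 1) .nil))))) .nil)) 
(.lf (nat_lit 155893) (.g (nat_lit 374) (.e (nat_lit 57411) (nat_lit 12) (.e (nat_lit 336443) (nat_lit 32) (.e (nat_lit 466979) (nat_lit 23) .nil))) .nil)))) (.nd (nat_lit 4) (.nd (nat_lit 5) 
(.lf (nat_lit 155853) (.g (nat_lit 2111) (.e (nat_lit 57411) (nat_lit 12) (.e (nat_lit 336443) (nat_lit 32) (.e (nat_lit 466974) (nat_lit 22) (.e (nat_lit 196624) (nat_lit 9) (.e (nat_lit 442) (nat_lit 33) .nil))))) .nil)) 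
(.lf (nat_lit 155885) (.g (nat_lit 2414) (.e (nat_lit 57411) (nat_lit 12) (.e (nat_lit 336443) (nat_lit 32) (.e (nat_lit 466977) (nat_lit 22) (.e (nat_lit 196656) (nat_lit 11) (.e (nat_lit 16389) (nat_lit 0) .nil))))) .nil))) (.nd (nat_lit 5) 
(.lf (nat_lit 155869) (.g (nat_lit 1411) (.e (nat_lit 57411) (nat_lit 12) (.e (nat_lit 336443) (nat_lit 32) (.e (nat_lit 466977) (nat_lit 22) (.e (nat_lit 196653) (nat_lit 11) .nil)))) .nil)) 
(.lf (nat_lit 155901) (.g (nat_lit 2174) (.e (nat_lit 57411) (nat_lit 12) (.e (nat_lit 336443) (nat_lit 32) (.e (nat_lit 466981) (nat_lit 23) (.e (nat_lit 204813) (nat_lit 9) (.e (nat_lit 433920) (nat_lit 1) (.e (nat_lit 164399) (nat_lit 256) .nil)))))) (.g (nat_lit 4) .nil .nil))))))) (.nd (nat_lit 2) (.nd (nat_lit 3) (.nd (nat_lit 4) (.nd (nat_lit 5) 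
(.lf (nat_lit 155843) (.g (nat_lit 2145) (.e (nat_lit 57411) (nat_lit 12) (.e (nat_lit 336398) (nat_lit 27) (.e (nat_lit 426499) (nat_lit 27) (.e (nat_lit 336196) (nat_lit 12) (.e (nat_lit 385068) (nat_lit 26) .nil))))) .nil)) 
(.lf (nat_lit 155875) (.g (nat_lit 2962) (.e (nat_lit 57411) (nat_lit 12) (.e (nat_lit 336443) (nat_lit 32) (.e (nat_lit 466977) (nat_lit 22) (.e (nat_lit 196654) (nat_lit 11) (.e (nat_lit 16405) (nat_lit 1) (.e (nat_lit 164399) (nat_lit 256) .nil)))))) (.g (nat_lit 0) .nil .nil)))) (.nd (nat_lit 5) 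
(.lf (nat_lit 155859) (.g (nat_lit 1807) (.e (nat_lit 57411) (nat_lit 12) (.e (nat_lit 336443) (nat_lit 32) (.e (nat_lit 466974) (nat_lit 22) (.e (nat_lit 196654) (nat_lit 11) (.e (nat_lit 16391) (nat_lit 0) .nil))))) .nil)) 
(.lf (nat_lit 155891) (.g (nat_lit 2256) (.e (nat_lit 57411) (nat_lit 12) (.e (nat_lit 336443) (nat_lit 32) (.e (nat_lit 466977) (nat_lit 22) (.e (nat_lit 196656) (nat_lit 11) (.e (nat_lit 24320) (nat_lit 1) .nil))))) .nil)))) (.nd (nat_lit 4) (.nd (nat_lit 5) 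
(.lf (nat_lit 155851) (.g (nat_lit 1353) (.e (nat_lit 57411) (nat_lit 12) (.e (nat_lit 336433) (nat_lit 30) (.e (nat_lit 450588) (nat_lit 10) (.e (nat_lit 581376) (nat_lit 0) .nil)))) .nil)) 
(.lf (nat_lit 155883) (.g (nat_lit 2121) (.e (nat_lit 57411) (nat_lit 12) (.e (nat_lit 336443) (nat_lit 32) (.e (nat_lit 466977) (nat_lit 22) (.e (nat_lit 196656) (nat_lit 11) (.e (nat_lit 16388) (nat_lit 0) .nil))))) .nil))) (.nd (nat_lit 5) 
(.lf (nat_lit 155867) (.g (nat_lit 2048) (.e (nat_lit 57411) (nat_lit 12) (.e (nat_lit 336443) (nat_lit 32) (.e (nat_lit 466977) (nat_lit 22) (.e (nat_lit 196624) (nat_lit 9) (.e (nat_lit 442) (nat_lit 33) .nil))))) .nil)) 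
(.lf (nat_lit 155899) (.g (nat_lit 2017) (.e (nat_lit 57411) (nat_lit 12) (.e (nat_lit 336443) (nat_lit 32) (.e (nat_lit 466981) (nat_lit 23) (.e (nat_lit 204813) (nat_lit 9) (.e (nat_lit 426099) (nat_lit 1) (.e (nat_lit 164399) (nat_lit 256) .nil)))))) (.g (nat_lit 4) .nil .nil)))))) (.nd (nat_lit 3) (.nd (nat_lit 4) (.nd (nat_lit 5) 
(.lf (nat_lit 155847) (.g (nat_lit 4036) (.e (nat_lit 57411) (nat_lit 12) (.e (nat_lit 336432) (nat_lit 30) (.e (nat_lit 450580) (nat_lit 5) (.e (nat_lit 532579) (nat_lit 26) (.e (nat_lit 426100) (nat_lit 1) (.e (nat_lit 164399) (nat_lit 256) .nil)))))) (.g (nat_lit 0) .nil .nil))) 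
(.lf (nat_lit 155879) (.g (nat_lit 1476) (.e (nat_lit 57411) (nat_lit 12) (.e (nat_lit 336443) (nat_lit 32) (.e (nat_lit 466977) (nat_lit 22) (.e (nat_lit 196655) (nat_lit 11) .nil)))) .nil))) (.nd (nat_lit 5) 
(.lf (nat_lit 155863) (.g (nat_lit 2377) (.e (nat_lit 57411) (nat_lit 12) (.e (nat_lit 336443) (nat_lit 32) (.e (nat_lit 466974) (nat_lit 22) (.e (nat_lit 196654) (nat_lit 11) (.e (nat_lit 16407) (nat_lit 1) (.e (nat_lit 164396) (nat_lit 256) .nil)))))) (.g (nat_lit 4) .nil .nil))) 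
(.lf (nat_lit 155895) (.g (nat_lit 2105) (.e (nat_lit 57411) (nat_lit 12) (.e (nat_lit 336443) (nat_lit 32) (.e (nat_lit 466979) (nat_lit 23) (.e (nat_lit 204813) (nat_lit 9) (.e (nat_lit 433920) (nat_lit 1) (.e (nat_lit 164399) (nat_lit 256) .nil)))))) (.g (nat_lit 4) .nil .nil))))) (.nd (nat_lit 4) (.nd (nat_lit 5) 
(.lf (nat_lit 155855) (.g (nat_lit 1852) (.e (nat_lit 57411) (nat_lit 12) (.e (nat_lit 336443) (nat_lit 32) (.e (nat_lit 466974) (nat_lit 22) (.e (nat_lit 196653) (nat_lit 11) (.e (nat_lit 16405) (nat_lit 1) .nil))))) .nil)) 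
(.lf (nat_lit 155887) (.g (nat_lit 2313) (.e (nat_lit 57411) (nat_lit 12) (.e (nat_lit 336443) (nat_lit 32) (.e (nat_lit 466977) (nat_lit 22) (.e (nat_lit 196656) (nat_lit 11) (.e (nat_lit 16401) (nat_lit 0) .nil))))) .nil))) (.nd (nat_lit 5) 
(.lf (nat_lit 155871) (.g (nat_lit 1880) (.e (nat_lit 57411) (nat_lit 12) (.e (nat_lit 336443) (nat_lit 32) (.e (nat_lit 466977) (nat_lit 22) (.e (nat_lit 196653) (nat_lit 11) (.e (nat_lit 16405) (nat_lit 1) .nil))))) .nil)) 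
(.lf (nat_lit 155903) (.g (nat_lit 3093) (.e (nat_lit 57411) (nat_lit 12) (.e (nat_lit 336452) (nat_lit 34) (.e (nat_lit 483405) (nat_lit 26) (.e (nat_lit 385068) (nat_lit 26) (.e (nat_lit 532499) (nat_lit 1) (.e (nat_lit 57847) (nat_lit 252) .nil)))))) (.g (nat_lit 5) .nil .nil)))))))))

noncomputable def tv2083 : DT := (.nd (nat_lit 0) (.nd (nat_lit 1) (.nd (nat_lit 2) (.nd (nat_lit 3) (.nd (nat_lit 4) (.nd (nat_lit 5) 
(.lf (nat_lit 155904) (.g (nat_lit 3556) (.e (nat_lit 57411) (nat_lit 12) (.e (nat_lit 336452) (nat_lit 34) (.e (nat_lit 483406) (nat_lit 26) (.e (nat_lit 385068) (nat_lit 26) (.e (nat_lit 532499) (nat_lit 1) (.e (nat_lit 57847) (nat_lit 252) .nil)))))) (.g (nat_lit 5) .nil .nil))) 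
(.lf (nat_lit 155936) (.g (nat_lit 2749) (.e (nat_lit 57411) (nat_lit 12) (.e (nat_lit 336454) (nat_lit 34) (.e (nat_lit 483384) (nat_lit 23) (.e (nat_lit 336326) (nat_lit 18) (.e (nat_lit 204831) (nat_lit 18) (.e (nat_lit 57847) (nat_lit 252) .nil)))))) (.g (nat_lit 6) .nil .nil)))) (.nd (nat_lit 5) 
(.lf (nat_lit 155920) (.g (nat_lit 3281) (.e (nat_lit 57411) (nat_lit 12) (.e (nat_lit 336454) (nat_lit 34) (.e (nat_lit 483383) (nat_lit 23) (.e (nat_lit 336019) (nat_lit 3) (.e (nat_lit 98333) (nat_lit 18) (.e (nat_lit 164182) (nat_lit 154) .nil)))))) (.g (nat_lit 5) .nil .nil))) 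
(.lf (nat_lit 155952) (.g (nat_lit 2947) (.e (nat_lit 57411) (nat_lit 12) (.e (nat_lit 336454) (nat_lit 34) (.e (nat_lit 483398) (nat_lit 25) (.e (nat_lit 368676) (nat_lit 21) (.e (nat_lit 516115) (nat_lit 1) (.e (nat_lit 164183) (nat_lit 154) .nil)))))) (.g (nat_lit 0) .nil .nil))))) (.nd (nat_lit 4) (.nd (nat_lit 5) 
(.lf (nat_lit 155912) (.g (nat_lit 1983) (.e (nat_lit 57411) (nat_lit 12) (.e (nat_lit 336454) (nat_lit 34) (.e (nat_lit 483382) (nat_lit 23) (.e (nat_lit 336019) (nat_lit 3) (.e (nat_lit 98334) (nat_lit 18) (.e (nat_lit 164183) (nat_lit 154) .nil)))))) (.g (nat_lit 4) .nil .nil))) 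
(.lf (nat_lit 155944) (.g (nat_lit 3193) (.e (nat_lit 57411) (nat_lit 12) (.e (nat_lit 336454) (nat_lit 34) (.e (nat_lit 483385) (nat_lit 23) (.e (nat_lit 336326) (nat_lit 18) (.e (nat_lit 204831) (nat_lit 18) (.e (nat_lit 57849) (nat_lit 252) .nil)))))) (.g (nat_lit 6) .nil .nil)))) (.nd (nat_lit 5) 
(.lf (nat_lit 155928) (.g (nat_lit 3572) (.e (nat_lit 57411) (nat_lit 12) (.e (nat_lit 336454) (nat_lit 34) (.e (nat_lit 483383) (nat_lit 23) (.e (nat_lit 336324) (nat_lit 18) (.e (nat_lit 204829) (nat_lit 18) (.e (nat_lit 57849) (nat_lit 252) .nil)))))) (.g (nat_lit 0) .nil .nil))) 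
(.lf (nat_lit 155960) (.g (nat_lit 1746) (.e (nat_lit 57411) (nat_lit 12) (.e (nat_lit 336454) (nat_lit 34) (.e (nat_lit 483400) (nat_lit 25) (.e (nat_lit 368676) (nat_lit 21) (.e (nat_lit 516115) (nat_lit 1) .nil))))) .nil))))) (.nd (nat_lit 3) (.nd (nat_lit 4) (.nd (nat_lit 5) 
(.lf (nat_lit 155908) (.g (nat_lit 3260) (.e (nat_lit 57411) (nat_lit 12) (.e (nat_lit 336454) (nat_lit 34) (.e (nat_lit 483380) (nat_lit 23) (.e (nat_lit 336324) (nat_lit 18) (.e (nat_lit 204829) (nat_lit 18) (.e (nat_lit 57849) (nat_lit 252) .nil)))))) (.g (nat_lit 0) .nil .nil))) 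
(.lf (nat_lit 155940) (.g (nat_lit 1293) (.e (nat_lit 57411) (nat_lit 12) (.e (nat_lit 336454) (nat_lit 34) (.e (nat_lit 483385) (nat_lit 23) (.e (nat_lit 336247) (nat_lit 15) .nil)))) .nil))) (.nd (nat_lit 5) 
(.lf (nat_lit 155924) (.g (nat_lit 3086) (.e (nat_lit 57411) (nat_lit 12) (.e (nat_lit 336454) (nat_lit 34) (.e (nat_lit 483383) (nat_lit 23) (.e (nat_lit 336019) (nat_lit 3) (.e (nat_lit 98335) (nat_lit 18) (.e (nat_lit 164182) (nat_lit 154) .nil)))))) (.g (nat_lit 6) .nil .nil))) 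
(.lf (nat_lit 155956) (.g (nat_lit 2973) (.e (nat_lit 57411) (nat_lit 12) (.e (nat_lit 336454) (nat_lit 34) (.e (nat_lit 483399) (nat_lit 25) (.e (nat_lit 368676) (nat_lit 21) (.e (nat_lit 516115) (nat_lit 1) (.e (nat_lit 164183) (nat_lit 154) .nil)))))) (.g (nat_lit 0) .nil .nil))))) (.nd (nat_lit 4) (.nd (nat_lit 5) 
(.lf (nat_lit 155916) (.g (nat_lit 2454) (.e (nat_lit 57411) (nat_lit 12) (.e (nat_lit 336454) (nat_lit 34) (.e (nat_lit 483382) (nat_lit 23) (.e (nat_lit 336324) (nat_lit 18) (.e (nat_lit 204831) (nat_lit 18) (.e (nat_lit 57846) (nat_lit 252) .nil)))))) (.g (nat_lit 4) .nil .nil))) 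
(.lf (nat_lit 155948) (.g (nat_lit 2683) (.e (nat_lit 57411) (nat_lit 12) (.e (nat_lit 336454) (nat_lit 34) (.e (nat_lit 483391) (nat_lit 23) (.e (nat_lit 336017) (nat_lit 3) (.e (nat_lit 98334) (nat_lit 18) (.e (nat_lit 164183) (nat_lit 154) .nil)))))) (.g (nat_lit 0) .nil .nil)))) (.nd (nat_lit 5) 
(.lf (nat_lit 155932) (.g (nat_lit 3268) (.e (nat_lit 57411) (nat_lit 12) (.e (nat_lit 336454) (nat_lit 34) (.e (nat_lit 483384) (nat_lit 23) (.e (nat_lit 336019) (nat_lit 3) (.e (nat_lit 98333) (nat_lit 18) (.e (nat_lit 164183) (nat_lit 154) .nil)))))) (.g (nat_lit 0) .nil .nil))) 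
(.lf (nat_lit 155964) (.g (nat_lit 3474) (.e (nat_lit 57411) (nat_lit 12) (.e (nat_lit 336454) (nat_lit 34) (.e (nat_lit 483403) (nat_lit 26) (.e (nat_lit 385066) (nat_lit 26) (.e (nat_lit 532499) (nat_lit 1) (.e (nat_lit 57849) (nat_lit 252) .nil)))))) (.g (nat_lit 0) .nil .nil))))))) (.nd (nat_lit 2) (.nd (nat_lit 3) (.nd (nat_lit 4) (.nd (nat_lit 5) 
(.lf (nat_lit 155906) (.g (nat_lit 2587) (.e (nat_lit 57411) (nat_lit 12) (.e (nat_lit 336452) (nat_lit 34) (.e (nat_lit 483408) (nat_lit 26) (.e (nat_lit 385068) (nat_lit 26) (.e (nat_lit 532499) (nat_lit 1) .nil))))) .nil)) 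
(.lf (nat_lit 155938) (.g (nat_lit 3239) (.e (nat_lit 57411) (nat_lit 12) (.e (nat_lit 336454) (nat_lit 34) (.e (nat_lit 483385) (nat_lit 23) (.e (nat_lit 336019) (nat_lit 3) (.e (nat_lit 98334) (nat_lit 18) (.e (nat_lit 164183) (nat_lit 154) .nil)))))) (.g (nat_lit 6) .nil .nil)))) (.nd (nat_lit 5) 
(.lf (nat_lit 155922) (.g (nat_lit 2294) (.e (nat_lit 57411) (nat_lit 12) (.e (nat_lit 336454) (nat_lit 34) (.e (nat_lit 483383) (nat_lit 23) (.e (nat_lit 336019) (nat_lit 3) (.e (nat_lit 98334) (nat_lit 18) (.e (nat_lit 164180) (nat_lit 154) .nil)))))) (.g (nat_lit 4) .nil .nil))) 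
(.lf (nat_lit 155954) (.g (nat_lit 2789) (.e (nat_lit 57411) (nat_lit 12) (.e (nat_lit 336454) (nat_lit 34) (.e (nat_lit 483398) (nat_lit 25) (.e (nat_lit 368676) (nat_lit 21) (.e (nat_lit 516118) (nat_lit 1) (.e (nat_lit 164183) (nat_lit 154) .nil)))))) (.g (nat_lit 0) .nil .nil))))) (.nd (nat_lit 4) (.nd (nat_lit 5) 
(.lf (nat_lit 155914) (.g (nat_lit 2195) (.e (nat_lit 57411) (nat_lit 12) (.e (nat_lit 336454) (nat_lit 34) (.e (nat_lit 483382) (nat_lit 23) (.e (nat_lit 336019) (nat_lit 3) (.e (nat_lit 98335) (nat_lit 18) (.e (nat_lit 164183) (nat_lit 154) .nil)))))) (.g (nat_lit 5) .nil .nil))) 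
(.lf (nat_lit 155946) (.g (nat_lit 510) (.e (nat_lit 57411) (nat_lit 12) (.e (nat_lit 336454) (nat_lit 34) (.e (nat_lit 483388) (nat_lit 23) .nil))) .nil))) (.nd (nat_lit 5) 
(.lf (nat_lit 155930) (.g (nat_lit 3692) (.e (nat_lit 57411) (nat_lit 12) (.e (nat_lit 336454) (nat_lit 34) (.e (nat_lit 483383) (nat_lit 23) (.e (nat_lit 336324) (nat_lit 18) (.e (nat_lit 204831) (nat_lit 18) (.e (nat_lit 57849) (nat_lit 252) .nil)))))) (.g (nat_lit 0) .nil .nil))) 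
(.lf (nat_lit 155962) (.g (nat_lit 2813) (.e (nat_lit 57411) (nat_lit 12) (.e (nat_lit 336454) (nat_lit 34) (.e (nat_lit 483401) (nat_lit 25) (.e (nat_lit 368676) (nat_lit 21) (.e (nat_lit 516118) (nat_lit 1) (.e (nat_lit 164183) (nat_lit 154) .nil)))))) (.g (nat_lit 6) .nil .nil)))))) (.nd (nat_lit 3) (.nd (nat_lit 4) (.nd (nat_lit 5) 
(.lf (nat_lit 155910) (.g (nat_lit 2905) (.e (nat_lit 57411) (nat_lit 12) (.e (nat_lit 336454) (nat_lit 34) (.e (nat_lit 483380) (nat_lit 23) (.e (nat_lit 336326) (nat_lit 18) (.e (nat_lit 204831) (nat_lit 18) (.e (nat_lit 57849) (nat_lit 252) .nil)))))) (.g (nat_lit 6) .nil .nil))) 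
(.lf (nat_lit 155942) (.g (nat_lit 986) (.e (nat_lit 57411) (nat_lit 12) (.e (nat_lit 336454) (nat_lit 34) (.e (nat_lit 483385) (nat_lit 23) (.e (nat_lit 336325) (nat_lit 18) .nil)))) .nil))) (.nd (nat_lit 5) 
(.lf (nat_lit 155926) (.g (nat_lit 1326) (.e (nat_lit 57411) (nat_lit 12) (.e (nat_lit 336454) (nat_lit 34) (.e (nat_lit 483383) (nat_lit 23) (.e (nat_lit 336316) (nat_lit 17) .nil)))) .nil)) 
(.lf (nat_lit 155958) (.g (nat_lit 2798) (.e (nat_lit 57411) (nat_lit 12) (.e (nat_lit 336454) (nat_lit 34) (.e (nat_lit 483399) (nat_lit 25) (.e (nat_lit 368676) (nat_lit 21) (.e (nat_lit 516118) (nat_lit 1) (.e (nat_lit 164183) (nat_lit 154) .nil)))))) (.g (nat_lit 0) .nil .nil))))) (.nd (nat_lit 4) (.nd (nat_lit 5) 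
(.lf (nat_lit 155918) (.g (nat_lit 2701) (.e (nat_lit 57411) (nat_lit 12) (.e (nat_lit 336454) (nat_lit 34) (.e (nat_lit 483382) (nat_lit 23) (.e (nat_lit 336326) (nat_lit 18) (.e (nat_lit 204829) (nat_lit 18) (.e (nat_lit 57849) (nat_lit 252) .nil)))))) (.g (nat_lit 6) .nil .nil))) 
(.lf (nat_lit 155950) (.g (nat_lit 1979) (.e (nat_lit 57411) (nat_lit 12) (.e (nat_lit 336454) (nat_lit 34) (.e (nat_lit 483395) (nat_lit 24) (.e (nat_lit 344117) (nat_lit 21) (.e (nat_lit 516115) (nat_lit 1) .nil))))) .nil))) (.nd (nat_lit 5) 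
(.lf (nat_lit 155934) (.g (nat_lit 3135) (.e (nat_lit 57411) (nat_lit 12) (.e (nat_lit 336454) (nat_lit 34) (.e (nat_lit 483384) (nat_lit 23) (.e (nat_lit 336326) (nat_lit 18) (.e (nat_lit 204829) (nat_lit 18) (.e (nat_lit 57847) (nat_lit 252) .nil)))))) (.g (nat_lit 6) .nil .nil))) 
(.lf (nat_lit 155966) (.g (nat_lit 1974) (.e (nat_lit 57411) (nat_lit 12) (.e (nat_lit 336454) (nat_lit 34) (.e (nat_lit 483404) (nat_lit 26) (.e (nat_lit 385066) (nat_lit 26) (.e (nat_lit 532499) (nat_lit 1) (.e (nat_lit 57849) (nat_lit 252) .nil)))))) (.g (nat_lit 4) .nil .nil)))))))) (.nd (nat_lit 1) (.nd (nat_lit 2) (.nd (nat_lit 3) (.nd (nat_lit 4) (.nd (nat_lit 5) 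
(.lf (nat_lit 155905) (.g (nat_lit 3113) (.e (nat_lit 57411) (nat_lit 12) (.e (nat_lit 336452) (nat_lit 34) (.e (nat_lit 483406) (nat_lit 26) (.e (nat_lit 385068) (nat_lit 26) (.e (nat_lit 532503) (nat_lit 1) (.e (nat_lit 57847) (nat_lit 252) .nil)))))) (.g (nat_lit 5) .nil .nil))) 
(.lf (nat_lit 155937) (.g (nat_lit 3156) (.e (nat_lit 57411) (nat_lit 12) (.e (nat_lit 336454) (nat_lit 34) (.e (nat_lit 483385) (nat_lit 23) (.e (nat_lit 336019) (nat_lit 3) (.e (nat_lit 98333) (nat_lit 18) (.e (nat_lit 164182) (nat_lit 154) .nil)))))) (.g (nat_lit 5) .nil .nil)))) (.nd (nat_lit 5) 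
(.lf (nat_lit 155921) (.g (nat_lit 3711) (.e (nat_lit 57411) (nat_lit 12) (.e (nat_lit 336454) (nat_lit 34) (.e (nat_lit 483383) (nat_lit 23) (.e (nat_lit 336019) (nat_lit 3) (.e (nat_lit 98333) (nat_lit 18) (.e (nat_lit 164183) (nat_lit 154) .nil)))))) (.g (nat_lit 0) .nil .nil))) 
(.lf (nat_lit 155953) (.g (nat_lit 2951) (.e (nat_lit 57411) (nat_lit 12) (.e (nat_lit 336454) (nat_lit 34) (.e (nat_lit 483398) (nat_lit 25) (.e (nat_lit 368676) (nat_lit 21) (.e (nat_lit 516117) (nat_lit 1) (.e (nat_lit 164183) (nat_lit 154) .nil)))))) (.g (nat_lit 0) .nil .nil))))) (.nd (nat_lit 4) (.nd (nat_lit 5) 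
(.lf (nat_lit 155913) (.g (nat_lit 1753) (.e (nat_lit 57411) (nat_lit 12) (.e (nat_lit 336454) (nat_lit 34) (.e (nat_lit 483382) (nat_lit 23) (.e (nat_lit 336019) (nat_lit 3) (.e (nat_lit 98335) (nat_lit 18) (.e (nat_lit 164182) (nat_lit 154) .nil)))))) (.g (nat_lit 4) .nil .nil))) 
(.lf (nat_lit 155945) (.g (nat_lit 744) (.e (nat_lit 57411) (nat_lit 12) (.e (nat_lit 336454) (nat_lit 34) (.e (nat_lit 483387) (nat_lit 23) .nil))) .nil))) (.nd (nat_lit 5) 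
(.lf (nat_lit 155929) (.g (nat_lit 2972) (.e (nat_lit 57411) (nat_lit 12) (.e (nat_lit 336454) (nat_lit 34) (.e (nat_lit 483383) (nat_lit 23) (.e (nat_lit 336324) (nat_lit 18) (.e (nat_lit 204831) (nat_lit 18) (.e (nat_lit 57846) (nat_lit 252) .nil)))))) (.g (nat_lit 4) .nil .nil))) 
(.lf (nat_lit 155961) (.g (nat_lit 2309) (.e (nat_lit 57411) (nat_lit 12) (.e (nat_lit 336454) (nat_lit 34) (.e (nat_lit 483401) (nat_lit 25) (.e (nat_lit 368676) (nat_lit 21) (.e (nat_lit 516115) (nat_lit 1) (.e (nat_lit 164183) (nat_lit 154) .nil)))))) (.g (nat_lit 5) .nil .nil)))))) (.nd (nat_lit 3) (.nd (nat_lit 4) (.nd (nat_lit 5) 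
(.lf (nat_lit 155909) (.g (nat_lit 2736) (.e (nat_lit 57411) (nat_lit 12) (.e (nat_lit 336454) (nat_lit 34) (.e (nat_lit 483380) (nat_lit 23) (.e (nat_lit 336326) (nat_lit 18) (.e (nat_lit 204829) (nat_lit 18) (.e (nat_lit 57849) (nat_lit 252) .nil)))))) (.g (nat_lit 6) .nil .nil))) 
(.lf (nat_lit 155941) (.g (nat_lit 3418) (.e (nat_lit 57411) (nat_lit 12) (.e (nat_lit 336454) (nat_lit 34) (.e (nat_lit 483385) (nat_lit 23) (.e (nat_lit 336324) (nat_lit 18) (.e (nat_lit 204829) (nat_lit 18) (.e (nat_lit 57849) (nat_lit 252) .nil)))))) (.g (nat_lit 0) .nil .nil)))) (.nd (nat_lit 5) 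
(.lf (nat_lit 155925) (.g (nat_lit 3297) (.e (nat_lit 57411) (nat_lit 12) (.e (nat_lit 336454) (nat_lit 34) (.e (nat_lit 483383) (nat_lit 23) (.e (nat_lit 336019) (nat_lit 3) (.e (nat_lit 98335) (nat_lit 18) (.e (nat_lit 164183) (nat_lit 154) .nil)))))) (.g (nat_lit 0) .nil .nil))) 
(.lf (nat_lit 155957) (.g (nat_lit 2953) (.e (nat_lit 57411) (nat_lit 12) (.e (nat_lit 336454) (nat_lit 34) (.e (nat_lit 483399) (nat_lit 25) (.e (nat_lit 368676) (nat_lit 21) (.e (nat_lit 516117) (nat_lit 1) (.e (nat_lit 164183) (nat_lit 154) .nil)))))) (.g (nat_lit 0) .nil .nil))))) (.nd (nat_lit 4) (.nd (nat_lit 5) 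
(.lf (nat_lit 155917) (.g (nat_lit 3337) (.e (nat_lit 57411) (nat_lit 12) (.e (nat_lit 336454) (nat_lit 34) (.e (nat_lit 483382) (nat_lit 23) (.e (nat_lit 336324) (nat_lit 18) (.e (nat_lit 204831) (nat_lit 18) (.e (nat_lit 57849) (nat_lit 252) .nil)))))) (.g (nat_lit 0) .nil .nil))) 
(.lf (nat_lit 155949) (.g (nat_lit 3158) (.e (nat_lit 57411) (nat_lit 12) (.e (nat_lit 336454) (nat_lit 34) (.e (nat_lit 483394) (nat_lit 24) (.e (nat_lit 344117) (nat_lit 21) (.e (nat_lit 516115) (nat_lit 1) (.e (nat_lit 164183) (nat_lit 154) .nil)))))) (.g (nat_lit 6) .nil .nil)))) (.nd (nat_lit 5) 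
(.lf (nat_lit 155933) (.g (nat_lit 2954) (.e (nat_lit 57411) (nat_lit 12) (.e (nat_lit 336454) (nat_lit 34) (.e (nat_lit 483384) (nat_lit 23) (.e (nat_lit 336019) (nat_lit 3) (.e (nat_lit 98335) (nat_lit 18) (.e (nat_lit 164183) (nat_lit 154) .nil)))))) (.g (nat_lit 0) .nil .nil))) 
(.lf (nat_lit 155965) (.g (nat_lit 3267) (.e (nat_lit 57411) (nat_lit 12) (.e (nat_lit 336454) (nat_lit 34) (.e (nat_lit 483403) (nat_lit 26) (.e (nat_lit 385066) (nat_lit 26) (.e (nat_lit 532503) (nat_lit 1) (.e (nat_lit 57849) (nat_lit 252) .nil)))))) (.g (nat_lit 0) .nil .nil))))))) (.nd (nat_lit 2) (.nd (nat_lit 3) (.nd (nat_lit 4) (.nd (nat_lit 5) 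
(.lf (nat_lit 155907) (.g (nat_lit 2430) (.e (nat_lit 57411) (nat_lit 12) (.e (nat_lit 336454) (nat_lit 34) (.e (nat_lit 483378) (nat_lit 23) (.e (nat_lit 336028) (nat_lit 3) (.e (nat_lit 98332) (nat_lit 18) (.e (nat_lit 164182) (nat_lit 154) .nil)))))) (.g (nat_lit 4) .nil .nil))) 
(.lf (nat_lit 155939) (.g (nat_lit 3106) (.e (nat_lit 57411) (nat_lit 12) (.e (nat_lit 336454) (nat_lit 34) (.e (nat_lit 483385) (nat_lit 23) (.e (nat_lit 336019) (nat_lit 3) (.e (nat_lit 98335) (nat_lit 18) (.e (nat_lit 164183) (nat_lit 154) .nil)))))) (.g (nat_lit 0) .nil .nil)))) (.nd (nat_lit 5) 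
(.lf (nat_lit 155923) (.g (nat_lit 3599) (.e (nat_lit 57411) (nat_lit 12) (.e (nat_lit 336454) (nat_lit 34) (.e (nat_lit 483383) (nat_lit 23) (.e (nat_lit 336019) (nat_lit 3) (.e (nat_lit 98334) (nat_lit 18) (.e (nat_lit 164183) (nat_lit 154) .nil)))))) (.g (nat_lit 0) .nil .nil))) 
(.lf (nat_lit 155955) (.g (nat_lit 2850) (.e (nat_lit 57411) (nat_lit 12) (.e (nat_lit 336454) (nat_lit 34) (.e (nat_lit 483398) (nat_lit 25) (.e (nat_lit 368676) (nat_lit 21) (.e (nat_lit 516120) (nat_lit 1) (.e (nat_lit 164183) (nat_lit 154) .nil)))))) (.g (nat_lit 0) .nil .nil))))) (.nd (nat_lit 4) (.nd (nat_lit 5) 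
(.lf (nat_lit 155915) (.g (nat_lit 3110) (.e (nat_lit 57411) (nat_lit 12) (.e (nat_lit 336454) (nat_lit 34) (.e (nat_lit 483382) (nat_lit 23) (.e (nat_lit 336324) (nat_lit 18) (.e (nat_lit 204829) (nat_lit 18) (.e (nat_lit 57849) (nat_lit 252) .nil)))))) (.g (nat_lit 0) .nil .nil))) 
(.lf (nat_lit 155947) (.g (nat_lit 2812) (.e (nat_lit 57411) (nat_lit 12) (.e (nat_lit 336454) (nat_lit 34) (.e (nat_lit 483391) (nat_lit 23) (.e (nat_lit 336017) (nat_lit 3) (.e (nat_lit 98333) (nat_lit 18) (.e (nat_lit 164183) (nat_lit 154) .nil)))))) (.g (nat_lit 0) .nil .nil)))) (.nd (nat_lit 5) 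
(.lf (nat_lit 155931) (.g (nat_lit 2821) (.e (nat_lit 57411) (nat_lit 12) (.e (nat_lit 336454) (nat_lit 34) (.e (nat_lit 483383) (nat_lit 23) (.e (nat_lit 336326) (nat_lit 18) (.e (nat_lit 204831) (nat_lit 18) (.e (nat_lit 57849) (nat_lit 252) .nil)))))) (.g (nat_lit 6) .nil .nil))) 
(.lf (nat_lit 155963) (.g (nat_lit 2291) (.e (nat_lit 57411) (nat_lit 12) (.e (nat_lit 336454) (nat_lit 34) (.e (nat_lit 483401) (nat_lit 25) (.e (nat_lit 368676) (nat_lit 21) (.e (nat_lit 516120) (nat_lit 1) (.e (nat_lit 164183) (nat_lit 154) .nil)))))) (.g (nat_lit 4) .nil .nil)))))) (.nd (nat_lit 3) (.nd (nat_lit 4) (.nd (nat_lit 5) 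
(.lf (nat_lit 155911) (.g (nat_lit 2752) (.e (nat_lit 57411) (nat_lit 12) (.e (nat_lit 336454) (nat_lit 34) (.e (nat_lit 483382) (nat_lit 23) (.e (nat_lit 336019) (nat_lit 3) (.e (nat_lit 98333) (nat_lit 18) (.e (nat_lit 164183) (nat_lit 154) .nil)))))) (.g (nat_lit 5) .nil .nil))) 
(.lf (nat_lit 155943) (.g (nat_lit 3061) (.e (nat_lit 57411) (nat_lit 12) (.e (nat_lit 336454) (nat_lit 34) (.e (nat_lit 483385) (nat_lit 23) (.e (nat_lit 336326) (nat_lit 18) (.e (nat_lit 204829) (nat_lit 18) (.e (nat_lit 57849) (nat_lit 252) .nil)))))) (.g (nat_lit 6) .nil .nil)))) (.nd (nat_lit 5) 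
(.lf (nat_lit 155927) (.g (nat_lit 1894) (.e (nat_lit 57411) (nat_lit 12) (.e (nat_lit 336454) (nat_lit 34) (.e (nat_lit 483383) (nat_lit 23) (.e (nat_lit 336322) (nat_lit 18) .nil)))) .nil)) 
(.lf (nat_lit 155959) (.g (nat_lit 2861) (.e (nat_lit 57411) (nat_lit 12) (.e (nat_lit 336454) (nat_lit 34) (.e (nat_lit 483399) (nat_lit 25) (.e (nat_lit 368676) (nat_lit 21) (.e (nat_lit 516120) (nat_lit 1) (.e (nat_lit 164183) (nat_lit 154) .nil)))))) (.g (nat_lit 0) .nil .nil))))) (.nd (nat_lit 4) (.nd (nat_lit 5) 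
(.lf (nat_lit 155919) (.g (nat_lit 2861) (.e (nat_lit 57411) (nat_lit 12) (.e (nat_lit 336454) (nat_lit 34) (.e (nat_lit 483382) (nat_lit 23) (.e (nat_lit 336326) (nat_lit 18) (.e (nat_lit 204831) (nat_lit 18) (.e (nat_lit 57849) (nat_lit 252) .nil)))))) (.g (nat_lit 6) .nil .nil))) 
(.lf (nat_lit 155951) (.g (nat_lit 1294) (.e (nat_lit 57411) (nat_lit 12) (.e (nat_lit 336454) (nat_lit 34) (.e (nat_lit 483395) (nat_lit 24) (.e (nat_lit 344118) (nat_lit 21) .nil)))) .nil))) (.nd (nat_lit 5) 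
(.lf (nat_lit 155935) (.g (nat_lit 2371) (.e (nat_lit 57411) (nat_lit 12) (.e (nat_lit 336454) (nat_lit 34) (.e (nat_lit 483384) (nat_lit 23) (.e (nat_lit 336326) (nat_lit 18) (.e (nat_lit 204829) (nat_lit 18) (.e (nat_lit 57849) (nat_lit 252) .nil)))))) (.g (nat_lit 5) .nil .nil))) 
(.lf (nat_lit 155967) (.g (nat_lit 1651) (.e (nat_lit 57411) (nat_lit 12) (.e (nat_lit 336454) (nat_lit 34) (.e (nat_lit 483404) (nat_lit 26) (.e (nat_lit 385066) (nat_lit 26) (.e (nat_lit 532502) (nat_lit 1) .nil))))) .nil))))))))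

noncomputable def tv2084 : DT := (.nd (nat_lit 0) (.nd (nat_lit 1) (.nd (nat_lit 2) (.nd (nat_lit 3) (.nd (nat_lit 4) (.nd (nat_lit 5) 
(.lf (nat_lit 155968) (.g (nat_lit 2454) (.e (nat_lit 57411) (nat_lit 12) (.e (nat_lit 336454) (nat_lit 34) (.e (nat_lit 483404) (nat_lit 26) (.e (nat_lit 385068) (nat_lit 26) (.e (nat_lit 532503) (nat_lit 1) (.e (nat_lit 57847) (nat_lit 252) .nil)))))) (.g (nat_lit 4) .nil .nil))) 
(.lf (nat_lit 156000) (.g (nat_lit 3084) (.e (nat_lit 57411) (nat_lit 12) (.e (nat_lit 336455) (nat_lit 34) (.e (nat_lit 483403) (nat_lit 26) (.e (nat_lit 385066) (nat_lit 26) (.e (nat_lit 532499) (nat_lit 1) (.e (nat_lit 57847) (nat_lit 252) .nil)))))) (.g (nat_lit 5) .nil .nil)))) (.nd (nat_lit 5) 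
(.lf (nat_lit 155984) (.g (nat_lit 1512) (.e (nat_lit 57411) (nat_lit 12) (.e (nat_lit 336454) (nat_lit 34) (.e (nat_lit 483408) (nat_lit 26) (.e (nat_lit 385065) (nat_lit 26) (.e (nat_lit 532502) (nat_lit 1) .nil))))) .nil)) 
(.lf (nat_lit 156016) (.g (nat_lit 2715) (.e (nat_lit 57411) (nat_lit 12) (.e (nat_lit 336456) (nat_lit 34) (.e (nat_lit 483379) (nat_lit 23) (.e (nat_lit 336326) (nat_lit 18) (.e (nat_lit 204831) (nat_lit 18) (.e (nat_lit 57847) (nat_lit 252) .nil)))))) (.g (nat_lit 6) .nil .nil))))) (.nd (nat_lit 4) (.nd (nat_lit 5) 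
(.lf (nat_lit 155976) (.g (nat_lit 2852) (.e (nat_lit 57411) (nat_lit 12) (.e (nat_lit 336454) (nat_lit 34) (.e (nat_lit 483406) (nat_lit 26) (.e (nat_lit 385066) (nat_lit 26) (.e (nat_lit 532503) (nat_lit 1) (.e (nat_lit 57846) (nat_lit 252) .nil)))))) (.g (nat_lit 4) .nil .nil))) 
(.lf (nat_lit 156008) (.g (nat_lit 4047) (.e (nat_lit 57411) (nat_lit 12) (.e (nat_lit 336455) (nat_lit 34) (.e (nat_lit 483406) (nat_lit 26) (.e (nat_lit 385068) (nat_lit 26) (.e (nat_lit 532499) (nat_lit 1) (.e (nat_lit 57847) (nat_lit 252) .nil)))))) (.g (nat_lit 6) .nil .nil)))) (.nd (nat_lit 5) 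
(.lf (nat_lit 155992) (.g (nat_lit 2110) (.e (nat_lit 57411) (nat_lit 12) (.e (nat_lit 336454) (nat_lit 34) (.e (nat_lit 483408) (nat_lit 26) (.e (nat_lit 385067) (nat_lit 26) (.e (nat_lit 532490) (nat_lit 0) (.e (nat_lit 1040) (nat_lit 81) (.e (nat_lit 5195) (nat_lit 294) .nil))))))) (.g (nat_lit 4) .nil .nil))) 
(.lf (nat_lit 156024) (.g (nat_lit 2865) (.e (nat_lit 57411) (nat_lit 12) (.e (nat_lit 336456) (nat_lit 34) (.e (nat_lit 483382) (nat_lit 23) (.e (nat_lit 336326) (nat_lit 18) (.e (nat_lit 204829) (nat_lit 18) (.e (nat_lit 57847) (nat_lit 252) .nil)))))) (.g (nat_lit 6) .nil .nil)))))) (.nd (nat_lit 3) (.nd (nat_lit 4) (.nd (nat_lit 5) 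
(.lf (nat_lit 155972) (.g (nat_lit 3011) (.e (nat_lit 57411) (nat_lit 12) (.e (nat_lit 336454) (nat_lit 34) (.e (nat_lit 483405) (nat_lit 26) (.e (nat_lit 385066) (nat_lit 26) (.e (nat_lit 532503) (nat_lit 1) (.e (nat_lit 57849) (nat_lit 252) .nil)))))) (.g (nat_lit 0) .nil .nil))) 
(.lf (nat_lit 156004) (.g (nat_lit 2841) (.e (nat_lit 57411) (nat_lit 12) (.e (nat_lit 336455) (nat_lit 34) (.e (nat_lit 483403) (nat_lit 26) (.e (nat_lit 385068) (nat_lit 26) (.e (nat_lit 532503) (nat_lit 1) (.e (nat_lit 57847) (nat_lit 252) .nil)))))) (.g (nat_lit 5) .nil .nil)))) (.nd (nat_lit 5) 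
(.lf (nat_lit 155988) (.g (nat_lit 2555) (.e (nat_lit 57411) (nat_lit 12) (.e (nat_lit 336454) (nat_lit 34) (.e (nat_lit 483408) (nat_lit 26) (.e (nat_lit 385066) (nat_lit 26) (.e (nat_lit 532502) (nat_lit 1) (.e (nat_lit 57846) (nat_lit 252) .nil)))))) (.g (nat_lit 4) .nil .nil))) 
(.lf (nat_lit 156020) (.g (nat_lit 1880) (.e (nat_lit 57411) (nat_lit 12) (.e (nat_lit 336456) (nat_lit 34) (.e (nat_lit 483381) (nat_lit 23) (.e (nat_lit 336324) (nat_lit 18) (.e (nat_lit 204829) (nat_lit 18) (.e (nat_lit 57847) (nat_lit 252) .nil)))))) (.g (nat_lit 4) .nil .nil))))) (.nd (nat_lit 4) (.nd (nat_lit 5) 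
(.lf (nat_lit 155980) (.g (nat_lit 2710) (.e (nat_lit 57411) (nat_lit 12) (.e (nat_lit 336454) (nat_lit 34) (.e (nat_lit 483407) (nat_lit 26) (.e (nat_lit 385066) (nat_lit 26) (.e (nat_lit 532502) (nat_lit 1) (.e (nat_lit 57847) (nat_lit 252) .nil)))))) (.g (nat_lit 6) .nil .nil))) 
(.lf (nat_lit 156012) (.g (nat_lit 2826) (.e (nat_lit 57411) (nat_lit 12) (.e (nat_lit 336456) (nat_lit 34) (.e (nat_lit 483372) (nat_lit 21) (.e (nat_lit 319519) (nat_lit 12) .nil)))) .nil))) (.nd (nat_lit 5) 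
(.lf (nat_lit 155996) (.g (nat_lit 2818) (.e (nat_lit 57411) (nat_lit 12) (.e (nat_lit 336454) (nat_lit 34) (.e (nat_lit 483408) (nat_lit 26) (.e (nat_lit 385068) (nat_lit 26) (.e (nat_lit 532490) (nat_lit 0) (.e (nat_lit 1040) (nat_lit 81) (.e (nat_lit 5195) (nat_lit 294) .nil))))))) (.g (nat_lit 4) .nil .nil))) 
(.lf (nat_lit 156028) (.g (nat_lit 3750) (.e (nat_lit 57411) (nat_lit 12) (.e (nat_lit 336456) (nat_lit 34) (.e (nat_lit 483383) (nat_lit 23) (.e (nat_lit 336019) (nat_lit 3) (.e (nat_lit 98334) (nat_lit 18) (.e (nat_lit 164180) (nat_lit 154) .nil)))))) (.g (nat_lit 0) .nil .nil))))))) (.nd (nat_lit 2) (.nd (nat_lit 3) (.nd (nat_lit 4) (.nd (nat_lit 5) 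
(.lf (nat_lit 155970) (.g (nat_lit 2670) (.e (nat_lit 57411) (nat_lit 12) (.e (nat_lit 336454) (nat_lit 34) (.e (nat_lit 483405) (nat_lit 26) (.e (nat_lit 385066) (nat_lit 26) (.e (nat_lit 532502) (nat_lit 1) (.e (nat_lit 57847) (nat_lit 252) .nil)))))) (.g (nat_lit 6) .nil .nil))) 
(.lf (nat_lit 156002) (.g (nat_lit 2409) (.e (nat_lit 57411) (nat_lit 12) (.e (nat_lit 336455) (nat_lit 34) (.e (nat_lit 483403) (nat_lit 26) (.e (nat_lit 385066) (nat_lit 26) (.e (nat_lit 532503) (nat_lit 1) (.e (nat_lit 57847) (nat_lit 252) .nil)))))) (.g (nat_lit 4) .nil .nil)))) (.nd (nat_lit 5) 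
(.lf (nat_lit 155986) (.g (nat_lit 2710) (.e (nat_lit 57411) (nat_lit 12) (.e (nat_lit 336454) (nat_lit 34) (.e (nat_lit 483408) (nat_lit 26) (.e (nat_lit 385065) (nat_lit 26) (.e (nat_lit 532503) (nat_lit 1) (.e (nat_lit 57847) (nat_lit 252) .nil)))))) (.g (nat_lit 5) .nil .nil))) 
(.lf (nat_lit 156018) (.g (nat_lit 3271) (.e (nat_lit 57411) (nat_lit 12) (.e (nat_lit 336456) (nat_lit 34) (.e (nat_lit 483380) (nat_lit 23) (.e (nat_lit 336326) (nat_lit 18) (.e (nat_lit 204829) (nat_lit 18) (.e (nat_lit 57847) (nat_lit 252) .nil)))))) (.g (nat_lit 0) .nil .nil))))) (.nd (nat_lit 4) (.nd (nat_lit 5) 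
(.lf (nat_lit 155978) (.g (nat_lit 3011) (.e (nat_lit 57411) (nat_lit 12) (.e (nat_lit 336454) (nat_lit 34) (.e (nat_lit 483406) (nat_lit 26) (.e (nat_lit 385068) (nat_lit 26) (.e (nat_lit 532499) (nat_lit 1) (.e (nat_lit 57849) (nat_lit 252) .nil)))))) (.g (nat_lit 5) .nil .nil))) 
(.lf (nat_lit 156010) (.g (nat_lit 1979) (.e (nat_lit 57411) (nat_lit 12) (.e (nat_lit 336456) (nat_lit 34) (.e (nat_lit 483346) (nat_lit 17) (.e (nat_lit 6506) (nat_lit 344) (.e (nat_lit 8228) (nat_lit 15) .nil))))) .nil))) (.nd (nat_lit 5) 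
(.lf (nat_lit 155994) (.g (nat_lit 1463) (.e (nat_lit 57411) (nat_lit 12) (.e (nat_lit 336454) (nat_lit 34) (.e (nat_lit 483408) (nat_lit 26) (.e (nat_lit 385067) (nat_lit 26) (.e (nat_lit 532502) (nat_lit 1) .nil))))) .nil)) 
(.lf (nat_lit 156026) (.g (nat_lit 4702) (.e (nat_lit 57411) (nat_lit 12) (.e (nat_lit 336456) (nat_lit 34) (.e (nat_lit 483383) (nat_lit 23) (.e (nat_lit 336019) (nat_lit 3) (.e (nat_lit 98333) (nat_lit 18) (.e (nat_lit 164179) (nat_lit 154) .nil)))))) (.g (nat_lit 0) .nil .nil)))))) (.nd (nat_lit 3) (.nd (nat_lit 4) (.nd (nat_lit 5) 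
(.lf (nat_lit 155974) (.g (nat_lit 3800) (.e (nat_lit 57411) (nat_lit 12) (.e (nat_lit 336454) (nat_lit 34) (.e (nat_lit 483406) (nat_lit 26) (.e (nat_lit 385066) (nat_lit 26) (.e (nat_lit 532499) (nat_lit 1) (.e (nat_lit 57849) (nat_lit 252) .nil)))))) (.g (nat_lit 0) .nil .nil))) 
(.lf (nat_lit 156006) (.g (nat_lit 2467) (.e (nat_lit 57411) (nat_lit 12) (.e (nat_lit 336455) (nat_lit 34) (.e (nat_lit 483406) (nat_lit 26) (.e (nat_lit 385066) (nat_lit 26) (.e (nat_lit 532502) (nat_lit 1) (.e (nat_lit 57847) (nat_lit 252) .nil)))))) (.g (nat_lit 4) .nil .nil)))) (.nd (nat_lit 5) 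
(.lf (nat_lit 155990) (.g (nat_lit 2813) (.e (nat_lit 57411) (nat_lit 12) (.e (nat_lit 336454) (nat_lit 34) (.e (nat_lit 483408) (nat_lit 26) (.e (nat_lit 385066) (nat_lit 26) (.e (nat_lit 532503) (nat_lit 1) (.e (nat_lit 57846) (nat_lit 252) .nil)))))) (.g (nat_lit 4) .nil .nil))) 
(.lf (nat_lit 156022) (.g (nat_lit 2857) (.e (nat_lit 57411) (nat_lit 12) (.e (nat_lit 336456) (nat_lit 34) (.e (nat_lit 483382) (nat_lit 23) (.e (nat_lit 336324) (nat_lit 18) (.e (nat_lit 204829) (nat_lit 18) (.e (nat_lit 57847) (nat_lit 252) .nil)))))) (.g (nat_lit 6) .nil .nil))))) (.nd (nat_lit 4) (.nd (nat_lit 5) 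
(.lf (nat_lit 155982) (.g (nat_lit 3151) (.e (nat_lit 57411) (nat_lit 12) (.e (nat_lit 336454) (nat_lit 34) (.e (nat_lit 483408) (nat_lit 26) (.e (nat_lit 385064) (nat_lit 26) (.e (nat_lit 532503) (nat_lit 1) (.e (nat_lit 57847) (nat_lit 252) .nil)))))) (.g (nat_lit 6) .nil .nil))) 
(.lf (nat_lit 156014) (.g (nat_lit 2563) (.e (nat_lit 57411) (nat_lit 12) (.e (nat_lit 336456) (nat_lit 34) (.e (nat_lit 483378) (nat_lit 23) (.e (nat_lit 336326) (nat_lit 18) (.e (nat_lit 204831) (nat_lit 18) (.e (nat_lit 57847) (nat_lit 252) .nil)))))) (.g (nat_lit 6) .nil .nil)))) (.nd (nat_lit 5) 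
(.lf (nat_lit 155998) (.g (nat_lit 2966) (.e (nat_lit 57411) (nat_lit 12) (.e (nat_lit 336454) (nat_lit 34) (.e (nat_lit 483408) (nat_lit 26) (.e (nat_lit 385068) (nat_lit 26) (.e (nat_lit 532503) (nat_lit 1) (.e (nat_lit 57846) (nat_lit 252) .nil)))))) (.g (nat_lit 4) .nil .nil))) 
(.lf (nat_lit 156030) (.g (nat_lit 2244) (.e (nat_lit 57411) (nat_lit 12) (.e (nat_lit 336456) (nat_lit 34) (.e (nat_lit 483383) (nat_lit 23) (.e (nat_lit 336019) (nat_lit 3) (.e (nat_lit 98335) (nat_lit 18) (.e (nat_lit 164176) (nat_lit 154) .nil)))))) (.g (nat_lit 4) .nil .nil)))))))) (.nd (nat_lit 1) (.nd (nat_lit 2) (.nd (nat_lit 3) (.nd (nat_lit 4) (.nd (nat_lit 5) 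
(.lf (nat_lit 155969) (.g (nat_lit 3180) (.e (nat_lit 57411) (nat_lit 12) (.e (nat_lit 336454) (nat_lit 34) (.e (nat_lit 483405) (nat_lit 26) (.e (nat_lit 385066) (nat_lit 26) (.e (nat_lit 532499) (nat_lit 1) (.e (nat_lit 57849) (nat_lit 252) .nil)))))) (.g (nat_lit 0) .nil .nil))) 
(.lf (nat_lit 156001) (.g (nat_lit 2186) (.e (nat_lit 57411) (nat_lit 12) (.e (nat_lit 336455) (nat_lit 34) (.e (nat_lit 483403) (nat_lit 26) (.e (nat_lit 385066) (nat_lit 26) (.e (nat_lit 532502) (nat_lit 1) (.e (nat_lit 57847) (nat_lit 252) .nil)))))) (.g (nat_lit 4) .nil .nil)))) (.nd (nat_lit 5) 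
(.lf (nat_lit 155985) (.g (nat_lit 1714) (.e (nat_lit 57411) (nat_lit 12) (.e (nat_lit 336454) (nat_lit 34) (.e (nat_lit 483408) (nat_lit 26) (.e (nat_lit 385065) (nat_lit 26) (.e (nat_lit 532502) (nat_lit 1) (.e (nat_lit 57849) (nat_lit 252) .nil)))))) (.g (nat_lit 4) .nil .nil))) 
(.lf (nat_lit 156017) (.g (nat_lit 3399) (.e (nat_lit 57411) (nat_lit 12) (.e (nat_lit 336456) (nat_lit 34) (.e (nat_lit 483380) (nat_lit 23) (.e (nat_lit 336324) (nat_lit 18) (.e (nat_lit 204829) (nat_lit 18) (.e (nat_lit 57847) (nat_lit 252) .nil)))))) (.g (nat_lit 0) .nil .nil))))) (.nd (nat_lit 4) (.nd (nat_lit 5) 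
(.lf (nat_lit 155977) (.g (nat_lit 3577) (.e (nat_lit 57411) (nat_lit 12) (.e (nat_lit 336454) (nat_lit 34) (.e (nat_lit 483406) (nat_lit 26) (.e (nat_lit 385066) (nat_lit 26) (.e (nat_lit 532503) (nat_lit 1) (.e (nat_lit 57849) (nat_lit 252) .nil)))))) (.g (nat_lit 0) .nil .nil))) 
(.lf (nat_lit 156009) (.g (nat_lit 3610) (.e (nat_lit 57411) (nat_lit 12) (.e (nat_lit 336455) (nat_lit 34) (.e (nat_lit 483406) (nat_lit 26) (.e (nat_lit 385068) (nat_lit 26) (.e (nat_lit 532503) (nat_lit 1) (.e (nat_lit 57847) (nat_lit 252) .nil)))))) (.g (nat_lit 6) .nil .nil)))) (.nd (nat_lit 5) 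
(.lf (nat_lit 155993) (.g (nat_lit 4034) (.e (nat_lit 57411) (nat_lit 12) (.e (nat_lit 336454) (nat_lit 34) (.e (nat_lit 483408) (nat_lit 26) (.e (nat_lit 385067) (nat_lit 26) (.e (nat_lit 532499) (nat_lit 1) (.e (nat_lit 57849) (nat_lit 252) .nil)))))) (.g (nat_lit 0) .nil .nil))) 
(.lf (nat_lit 156025) (.g (nat_lit 2510) (.e (nat_lit 57411) (nat_lit 12) (.e (nat_lit 336456) (nat_lit 34) (.e (nat_lit 483382) (nat_lit 23) (.e (nat_lit 336326) (nat_lit 18) (.e (nat_lit 204831) (nat_lit 18) (.e (nat_lit 57847) (nat_lit 252) .nil)))))) (.g (nat_lit 6) .nil .nil)))))) (.nd (nat_lit 3) (.nd (nat_lit 4) (.nd (nat_lit 5) 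
(.lf (nat_lit 155973) (.g (nat_lit 2952) (.e (nat_lit 57411) (nat_lit 12) (.e (nat_lit 336454) (nat_lit 34) (.e (nat_lit 483405) (nat_lit 26) (.e (nat_lit 385068) (nat_lit 26) (.e (nat_lit 532499) (nat_lit 1) (.e (nat_lit 57849) (nat_lit 252) .nil)))))) (.g (nat_lit 5) .nil .nil))) 
(.lf (nat_lit 156005) (.g (nat_lit 3164) (.e (nat_lit 57411) (nat_lit 12) (.e (nat_lit 336455) (nat_lit 34) (.e (nat_lit 483406) (nat_lit 26) (.e (nat_lit 385066) (nat_lit 26) (.e (nat_lit 532499) (nat_lit 1) (.e (nat_lit 57847) (nat_lit 252) .nil)))))) (.g (nat_lit 4) .nil .nil)))) (.nd (nat_lit 5) 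
(.lf (nat_lit 155989) (.g (nat_lit 3034) (.e (nat_lit 57411) (nat_lit 12) (.e (nat_lit 336454) (nat_lit 34) (.e (nat_lit 483408) (nat_lit 26) (.e (nat_lit 385066) (nat_lit 26) (.e (nat_lit 532502) (nat_lit 1) (.e (nat_lit 57847) (nat_lit 252) .nil)))))) (.g (nat_lit 6) .nil .nil))) 
(.lf (nat_lit 156021) (.g (nat_lit 3670) (.e (nat_lit 57411) (nat_lit 12) (.e (nat_lit 336456) (nat_lit 34) (.e (nat_lit 483381) (nat_lit 23) (.e (nat_lit 336324) (nat_lit 18) (.e (nat_lit 204831) (nat_lit 18) (.e (nat_lit 57847) (nat_lit 252) .nil)))))) (.g (nat_lit 5) .nil .nil))))) (.nd (nat_lit 4) (.nd (nat_lit 5) 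
(.lf (nat_lit 155981) (.g (nat_lit 2723) (.e (nat_lit 57411) (nat_lit 12) (.e (nat_lit 336454) (nat_lit 34) (.e (nat_lit 483407) (nat_lit 26) (.e (nat_lit 385066) (nat_lit 26) (.e (nat_lit 532502) (nat_lit 1) (.e (nat_lit 57849) (nat_lit 252) .nil)))))) (.g (nat_lit 6) .nil .nil))) 
(.lf (nat_lit 156013) (.g (nat_lit 3032) (.e (nat_lit 57411) (nat_lit 12) (.e (nat_lit 336456) (nat_lit 34) (.e (nat_lit 483378) (nat_lit 23) (.e (nat_lit 336326) (nat_lit 18) (.e (nat_lit 204829) (nat_lit 18) (.e (nat_lit 57847) (nat_lit 252) .nil)))))) (.g (nat_lit 6) .nil .nil)))) (.nd (nat_lit 5) 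
(.lf (nat_lit 155997) (.g (nat_lit 3569) (.e (nat_lit 57411) (nat_lit 12) (.e (nat_lit 336454) (nat_lit 34) (.e (nat_lit 483408) (nat_lit 26) (.e (nat_lit 385068) (nat_lit 26) (.e (nat_lit 532499) (nat_lit 1) (.e (nat_lit 57849) (nat_lit 252) .nil)))))) (.g (nat_lit 6) .nil .nil))) 
(.lf (nat_lit 156029) (.g (nat_lit 2659) (.e (nat_lit 57411) (nat_lit 12) (.e (nat_lit 336456) (nat_lit 34) (.e (nat_lit 483383) (nat_lit 23) (.e (nat_lit 336019) (nat_lit 3) (.e (nat_lit 98334) (nat_lit 18) (.e (nat_lit 164181) (nat_lit 154) .nil)))))) (.g (nat_lit 5) .nil .nil))))))) (.nd (nat_lit 2) (.nd (nat_lit 3) (.nd (nat_lit 4) (.nd (nat_lit 5) 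
(.lf (nat_lit 155971) (.g (nat_lit 2757) (.e (nat_lit 57411) (nat_lit 12) (.e (nat_lit 336454) (nat_lit 34) (.e (nat_lit 483405) (nat_lit 26) (.e (nat_lit 385066) (nat_lit 26) (.e (nat_lit 532502) (nat_lit 1) (.e (nat_lit 57849) (nat_lit 252) .nil)))))) (.g (nat_lit 6) .nil .nil))) 
(.lf (nat_lit 156003) (.g (nat_lit 3207) (.e (nat_lit 57411) (nat_lit 12) (.e (nat_lit 336455) (nat_lit 34) (.e (nat_lit 483403) (nat_lit 26) (.e (nat_lit 385068) (nat_lit 26) (.e (nat_lit 532499) (nat_lit 1) (.e (nat_lit 57847) (nat_lit 252) .nil)))))) (.g (nat_lit 5) .nil .nil)))) (.nd (nat_lit 5) 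
(.lf (nat_lit 155987) (.g (nat_lit 3502) (.e (nat_lit 57411) (nat_lit 12) (.e (nat_lit 336454) (nat_lit 34) (.e (nat_lit 483408) (nat_lit 26) (.e (nat_lit 385066) (nat_lit 26) (.e (nat_lit 532499) (nat_lit 1) (.e (nat_lit 57849) (nat_lit 252) .nil)))))) (.g (nat_lit 0) .nil .nil))) 
(.lf (nat_lit 156019) (.g (nat_lit 2974) (.e (nat_lit 57411) (nat_lit 12) (.e (nat_lit 336456) (nat_lit 34) (.e (nat_lit 483380) (nat_lit 23) (.e (nat_lit 336326) (nat_lit 18) (.e (nat_lit 204831) (nat_lit 18) (.e (nat_lit 57847) (nat_lit 252) .nil)))))) (.g (nat_lit 0) .nil .nil))))) (.nd (nat_lit 4) (.nd (nat_lit 5) 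
(.lf (nat_lit 155979) (.g (nat_lit 3284) (.e (nat_lit 57411) (nat_lit 12) (.e (nat_lit 336454) (nat_lit 34) (.e (nat_lit 483407) (nat_lit 26) (.e (nat_lit 385066) (nat_lit 26) (.e (nat_lit 532499) (nat_lit 1) (.e (nat_lit 57849) (nat_lit 252) .nil)))))) (.g (nat_lit 0) .nil .nil))) 
(.lf (nat_lit 156011) (.g (nat_lit 751) (.e (nat_lit 57411) (nat_lit 12) (.e (nat_lit 336456) (nat_lit 34) (.e (nat_lit 483350) (nat_lit 17) .nil))) .nil))) (.nd (nat_lit 5) 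
(.lf (nat_lit 155995) (.g (nat_lit 3646) (.e (nat_lit 57411) (nat_lit 12) (.e (nat_lit 336454) (nat_lit 34) (.e (nat_lit 483408) (nat_lit 26) (.e (nat_lit 385067) (nat_lit 26) (.e (nat_lit 532503) (nat_lit 1) (.e (nat_lit 57849) (nat_lit 252) .nil)))))) (.g (nat_lit 0) .nil .nil))) 
(.lf (nat_lit 156027) (.g (nat_lit 3092) (.e (nat_lit 57411) (nat_lit 12) (.e (nat_lit 336456) (nat_lit 34) (.e (nat_lit 483383) (nat_lit 23) (.e (nat_lit 336019) (nat_lit 3) (.e (nat_lit 98334) (nat_lit 18) (.e (nat_lit 164176) (nat_lit 154) .nil)))))) (.g (nat_lit 5) .nil .nil)))))) (.nd (nat_lit 3) (.nd (nat_lit 4) (.nd (nat_lit 5) 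
(.lf (nat_lit 155975) (.g (nat_lit 2715) (.e (nat_lit 57411) (nat_lit 12) (.e (nat_lit 336454) (nat_lit 34) (.e (nat_lit 483406) (nat_lit 26) (.e (nat_lit 385066) (nat_lit 26) (.e (nat_lit 532502) (nat_lit 1) (.e (nat_lit 57846) (nat_lit 252) .nil)))))) (.g (nat_lit 4) .nil .nil))) 
(.lf (nat_lit 156007) (.g (nat_lit 2706) (.e (nat_lit 57411) (nat_lit 12) (.e (nat_lit 336455) (nat_lit 34) (.e (nat_lit 483406) (nat_lit 26) (.e (nat_lit 385066) (nat_lit 26) (.e (nat_lit 532503) (nat_lit 1) (.e (nat_lit 57847) (nat_lit 252) .nil)))))) (.g (nat_lit 4) .nil .nil)))) (.nd (nat_lit 5) 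
(.lf (nat_lit 155991) (.g (nat_lit 3361) (.e (nat_lit 57411) (nat_lit 12) (.e (nat_lit 336454) (nat_lit 34) (.e (nat_lit 483408) (nat_lit 26) (.e (nat_lit 385066) (nat_lit 26) (.e (nat_lit 532503) (nat_lit 1) (.e (nat_lit 57849) (nat_lit 252) .nil)))))) (.g (nat_lit 0) .nil .nil))) 
(.lf (nat_lit 156023) (.g (nat_lit 2671) (.e (nat_lit 57411) (nat_lit 12) (.e (nat_lit 336456) (nat_lit 34) (.e (nat_lit 483382) (nat_lit 23) (.e (nat_lit 336324) (nat_lit 18) (.e (nat_lit 204831) (nat_lit 18) (.e (nat_lit 57847) (nat_lit 252) .nil)))))) (.g (nat_lit 5) .nil .nil))))) (.nd (nat_lit 4) (.nd (nat_lit 5) 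
(.lf (nat_lit 155983) (.g (nat_lit 3420) (.e (nat_lit 57411) (nat_lit 12) (.e (nat_lit 336454) (nat_lit 34) (.e (nat_lit 483408) (nat_lit 26) (.e (nat_lit 385065) (nat_lit 26) (.e (nat_lit 532499) (nat_lit 1) (.e (nat_lit 57849) (nat_lit 252) .nil)))))) (.g (nat_lit 0) .nil .nil))) 
(.lf (nat_lit 156015) (.g (nat_lit 2992) (.e (nat_lit 57411) (nat_lit 12) (.e (nat_lit 336456) (nat_lit 34) (.e (nat_lit 483379) (nat_lit 23) (.e (nat_lit 336324) (nat_lit 18) (.e (nat_lit 204829) (nat_lit 18) (.e (nat_lit 57847) (nat_lit 252) .nil)))))) (.g (nat_lit 6) .nil .nil)))) (.nd (nat_lit 5) 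
(.lf (nat_lit 155999) (.g (nat_lit 3624) (.e (nat_lit 57411) (nat_lit 12) (.e (nat_lit 336454) (nat_lit 34) (.e (nat_lit 483408) (nat_lit 26) (.e (nat_lit 385068) (nat_lit 26) (.e (nat_lit 532503) (nat_lit 1) (.e (nat_lit 57849) (nat_lit 252) .nil)))))) (.g (nat_lit 6) .nil .nil))) 
(.lf (nat_lit 156031) (.g (nat_lit 3981) (.e (nat_lit 57411) (nat_lit 12) (.e (nat_lit 336456) (nat_lit 34) (.e (nat_lit 483383) (nat_lit 23) (.e (nat_lit 336324) (nat_lit 18) (.e (nat_lit 204829) (nat_lit 18) (.e (nat_lit 57847) (nat_lit 252) .nil)))))) (.g (nat_lit 0) .nil .nil)))))))))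

noncomputable def tv2085 : DT := (.nd (nat_lit 0) (.nd (nat_lit 1) (.nd (nat_lit 2) (.nd (nat_lit 3) (.nd (nat_lit 4) (.nd (nat_lit 5) 
(.lf (nat_lit 156032) (.g (nat_lit 1588) (.e (nat_lit 57411) (nat_lit 12) (.e (nat_lit 336456) (nat_lit 34) (.e (nat_lit 483383) (nat_lit 23) (.e (nat_lit 336325) (nat_lit 18) .nil)))) .nil)) 
(.lf (nat_lit 156064) (.g (nat_lit 2088) (.e (nat_lit 57411) (nat_lit 12) (.e (nat_lit 336456) (nat_lit 34) (.e (nat_lit 483407) (nat_lit 26) (.e (nat_lit 385068) (nat_lit 26) (.e (nat_lit 532503) (nat_lit 1) .nil))))) .nil))) (.nd (nat_lit 5) 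
(.lf (nat_lit 156048) (.g (nat_lit 3035) (.e (nat_lit 57411) (nat_lit 12) (.e (nat_lit 336456) (nat_lit 34) (.e (nat_lit 483403) (nat_lit 26) (.e (nat_lit 385066) (nat_lit 26) (.e (nat_lit 532502) (nat_lit 1) (.e (nat_lit 57847) (nat_lit 252) .nil)))))) (.g (nat_lit 0) .nil .nil))) 
(.lf (nat_lit 156080) (.g (nat_lit 3623) (.e (nat_lit 57412) (nat_lit 12) (.e (nat_lit 336020) (nat_lit 3) (.e (nat_lit 98359) (nat_lit 26) (.e (nat_lit 426286) (nat_lit 10) (.e (nat_lit 434248) (nat_lit 28) (.e (nat_lit 573473) (nat_lit 12) (.e (nat_lit 57353) (nat_lit 0) (.e (nat_lit 7261) (nat_lit 384) .nil)))))))) (.g (nat_lit 0) .nil .nil))))) (.nd (nat_lit 4) (.nd (nat_lit 5) 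
(.lf (nat_lit 156040) (.g (nat_lit 1987) (.e (nat_lit 57411) (nat_lit 12) (.e (nat_lit 336456) (nat_lit 34) (.e (nat_lit 483395) (nat_lit 24) (.e (nat_lit 344117) (nat_lit 21) (.e (nat_lit 516118) (nat_lit 1) (.e (nat_lit 164182) (nat_lit 154) .nil)))))) (.g (nat_lit 4) .nil .nil))) 
(.lf (nat_lit 156072) (.g (nat_lit 2441) (.e (nat_lit 57412) (nat_lit 12) (.e (nat_lit 336020) (nat_lit 3) (.e (nat_lit 98359) (nat_lit 26) (.e (nat_lit 426286) (nat_lit 10) (.e (nat_lit 434245) (nat_lit 28) (.e (nat_lit 573473) (nat_lit 12) (.e (nat_lit 57353) (nat_lit 0) (.e (nat_lit 7263) (nat_lit 384) .nil)))))))) (.g (nat_lit 5) .nil .nil)))) (.nd (nat_lit 5) 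
(.lf (nat_lit 156056) (.g (nat_lit 2612) (.e (nat_lit 57411) (nat_lit 12) (.e (nat_lit 336456) (nat_lit 34) (.e (nat_lit 483405) (nat_lit 26) (.e (nat_lit 385066) (nat_lit 26) (.e (nat_lit 532503) (nat_lit 1) (.e (nat_lit 57847) (nat_lit 252) .nil)))))) (.g (nat_lit 6) .nil .nil))) 
(.lf (nat_lit 156088) (.g (nat_lit 3402) (.e (nat_lit 57412) (nat_lit 12) (.e (nat_lit 336020) (nat_lit 3) (.e (nat_lit 98372) (nat_lit 29) (.e (nat_lit 450586) (nat_lit 10) (.e (nat_lit 573475) (nat_lit 12) (.e (nat_lit 57347) (nat_lit 0) (.e (nat_lit 7261) (nat_lit 384) .nil))))))) (.g (nat_lit 6) .nil .nil)))))) (.nd (nat_lit 3) (.nd (nat_lit 4) (.nd (nat_lit 5) 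
(.lf (nat_lit 156036) (.g (nat_lit 863) (.e (nat_lit 57411) (nat_lit 12) (.e (nat_lit 336456) (nat_lit 34) (.e (nat_lit 483392) (nat_lit 23) .nil))) .nil)) 
(.lf (nat_lit 156068) (.g (nat_lit 4412) (.e (nat_lit 57412) (nat_lit 12) (.e (nat_lit 336001) (nat_lit 2) (.e (nat_lit 90170) (nat_lit 13) (.e (nat_lit 172106) (nat_lit 10) (.e (nat_lit 434231) (nat_lit 23) (.e (nat_lit 532499) (nat_lit 1) (.e (nat_lit 65280) (nat_lit 223) .nil))))))) (.g (nat_lit 6) .nil .nil)))) (.nd (nat_lit 5) 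
(.lf (nat_lit 156052) (.g (nat_lit 2637) (.e (nat_lit 57411) (nat_lit 12) (.e (nat_lit 336456) (nat_lit 34) (.e (nat_lit 483404) (nat_lit 26) (.e (nat_lit 385066) (nat_lit 26) (.e (nat_lit 532499) (nat_lit 1) (.e (nat_lit 57847) (nat_lit 252) .nil)))))) (.g (nat_lit 5) .nil .nil))) 
(.lf (nat_lit 156084) (.g (nat_lit 3845) (.e (nat_lit 57412) (nat_lit 12) (.e (nat_lit 336020) (nat_lit 3) (.e (nat_lit 98359) (nat_lit 26) (.e (nat_lit 426286) (nat_lit 10) (.e (nat_lit 434248) (nat_lit 28) (.e (nat_lit 573475) (nat_lit 12) (.e (nat_lit 57351) (nat_lit 0) (.e (nat_lit 7261) (nat_lit 384) .nil)))))))) (.g (nat_lit 0) .nil .nil))))) (.nd (nat_lit 4) (.nd (nat_lit 5) 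
(.lf (nat_lit 156044) (.g (nat_lit 2091) (.e (nat_lit 57411) (nat_lit 12) (.e (nat_lit 336456) (nat_lit 34) (.e (nat_lit 483399) (nat_lit 25) (.e (nat_lit 368676) (nat_lit 21) (.e (nat_lit 516117) (nat_lit 1) (.e (nat_lit 164176) (nat_lit 154) .nil)))))) (.g (nat_lit 4) .nil .nil))) 
(.lf (nat_lit 156076) (.g (nat_lit 2868) (.e (nat_lit 57412) (nat_lit 12) (.e (nat_lit 336020) (nat_lit 3) (.e (nat_lit 98359) (nat_lit 26) (.e (nat_lit 426286) (nat_lit 10) (.e (nat_lit 434247) (nat_lit 28) (.e (nat_lit 573478) (nat_lit 12) (.e (nat_lit 57352) (nat_lit 0) (.e (nat_lit 7261) (nat_lit 384) .nil)))))))) (.g (nat_lit 6) .nil .nil)))) (.nd (nat_lit 5) 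
(.lf (nat_lit 156060) (.g (nat_lit 3465) (.e (nat_lit 57411) (nat_lit 12) (.e (nat_lit 336456) (nat_lit 34) (.e (nat_lit 483406) (nat_lit 26) (.e (nat_lit 385066) (nat_lit 26) (.e (nat_lit 532502) (nat_lit 1) (.e (nat_lit 57847) (nat_lit 252) .nil)))))) (.g (nat_lit 0) .nil .nil))) 
(.lf (nat_lit 156092) (.g (nat_lit 1692) (.e (nat_lit 57412) (nat_lit 12) (.e (nat_lit 336020) (nat_lit 3) (.e (nat_lit 98372) (nat_lit 29) (.e (nat_lit 450586) (nat_lit 10) (.e (nat_lit 573477) (nat_lit 12) (.e (nat_lit 57351) (nat_lit 0) (.e (nat_lit 7265) (nat_lit 384) .nil))))))) (.g (nat_lit 4) .nil .nil))))))) (.nd (nat_lit 2) (.nd (nat_lit 3) (.nd (nat_lit 4) (.nd (nat_lit 5) 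
(.lf (nat_lit 156034) (.g (nat_lit 3137) (.e (nat_lit 57411) (nat_lit 12) (.e (nat_lit 336456) (nat_lit 34) (.e (nat_lit 483383) (nat_lit 23) (.e (nat_lit 336326) (nat_lit 18) (.e (nat_lit 204831) (nat_lit 18) (.e (nat_lit 57847) (nat_lit 252) .nil)))))) (.g (nat_lit 0) .nil .nil))) 
(.lf (nat_lit 156066) (.g (nat_lit 1770) (.e (nat_lit 57412) (nat_lit 12) (.e (nat_lit 335901) (nat_lit 0) (.e (nat_lit 6508) (nat_lit 345) (.e (nat_lit 16473) (nat_lit 14) (.e (nat_lit 491558) (nat_lit 10) .nil))))) .nil))) (.nd (nat_lit 5) 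
(.lf (nat_lit 156050) (.g (nat_lit 3801) (.e (nat_lit 57411) (nat_lit 12) (.e (nat_lit 336456) (nat_lit 34) (.e (nat_lit 483403) (nat_lit 26) (.e (nat_lit 385068) (nat_lit 26) (.e (nat_lit 532499) (nat_lit 1) (.e (nat_lit 57847) (nat_lit 252) .nil)))))) (.g (nat_lit 0) .nil .nil))) 
(.lf (nat_lit 156082) (.g (nat_lit 4157) (.e (nat_lit 57412) (nat_lit 12) (.e (nat_lit 336020) (nat_lit 3) (.e (nat_lit 98359) (nat_lit 26) (.e (nat_lit 426286) (nat_lit 10) (.e (nat_lit 434248) (nat_lit 28) (.e (nat_lit 573475) (nat_lit 12) (.e (nat_lit 57347) (nat_lit 0) (.e (nat_lit 7263) (nat_lit 384) .nil)))))))) (.g (nat_lit 7) .nil .nil))))) (.nd (nat_lit 4) (.nd (nat_lit 5) 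
(.lf (nat_lit 156042) (.g (nat_lit 2697) (.e (nat_lit 57411) (nat_lit 12) (.e (nat_lit 336456) (nat_lit 34) (.e (nat_lit 483396) (nat_lit 24) (.e (nat_lit 344119) (nat_lit 21) (.e (nat_lit 516120) (nat_lit 1) (.e (nat_lit 164183) (nat_lit 154) .nil)))))) (.g (nat_lit 5) .nil .nil))) 
(.lf (nat_lit 156074) (.g (nat_lit 3985) (.e (nat_lit 57412) (nat_lit 12) (.e (nat_lit 336020) (nat_lit 3) (.e (nat_lit 98359) (nat_lit 26) (.e (nat_lit 426286) (nat_lit 10) (.e (nat_lit 434245) (nat_lit 28) (.e (nat_lit 573474) (nat_lit 12) (.e (nat_lit 57348) (nat_lit 0) (.e (nat_lit 7263) (nat_lit 384) .nil)))))))) (.g (nat_lit 7) .nil .nil)))) (.nd (nat_lit 5) 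
(.lf (nat_lit 156058) (.g (nat_lit 3152) (.e (nat_lit 57411) (nat_lit 12) (.e (nat_lit 336456) (nat_lit 34) (.e (nat_lit 483406) (nat_lit 26) (.e (nat_lit 385065) (nat_lit 26) (.e (nat_lit 532499) (nat_lit 1) (.e (nat_lit 57847) (nat_lit 252) .nil)))))) (.g (nat_lit 6) .nil .nil))) 
(.lf (nat_lit 156090) (.g (nat_lit 2769) (.e (nat_lit 57412) (nat_lit 12) (.e (nat_lit 336020) (nat_lit 3) (.e (nat_lit 98372) (nat_lit 29) (.e (nat_lit 450586) (nat_lit 10) (.e (nat_lit 573475) (nat_lit 12) (.e (nat_lit 57348) (nat_lit 0) (.e (nat_lit 7261) (nat_lit 384) .nil))))))) (.g (nat_lit 5) .nil .nil)))))) (.nd (nat_lit 3) (.nd (nat_lit 4) (.nd (nat_lit 5) 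
(.lf (nat_lit 156038) (.g (nat_lit 2964) (.e (nat_lit 57411) (nat_lit 12) (.e (nat_lit 336456) (nat_lit 34) (.e (nat_lit 483394) (nat_lit 24) (.e (nat_lit 344117) (nat_lit 21) (.e (nat_lit 516116) (nat_lit 1) (.e (nat_lit 164180) (nat_lit 154) .nil)))))) (.g (nat_lit 5) .nil .nil))) 
(.lf (nat_lit 156070) (.g (nat_lit 1739) (.e (nat_lit 57412) (nat_lit 12) (.e (nat_lit 336001) (nat_lit 2) (.e (nat_lit 90176) (nat_lit 15) (.e (nat_lit 188450) (nat_lit 23) (.e (nat_lit 212736) (nat_lit 1) (.e (nat_lit 164179) (nat_lit 154) .nil)))))) (.g (nat_lit 4) .nil .nil)))) (.nd (nat_lit 5) 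
(.lf (nat_lit 156054) (.g (nat_lit 2868) (.e (nat_lit 57411) (nat_lit 12) (.e (nat_lit 336456) (nat_lit 34) (.e (nat_lit 483404) (nat_lit 26) (.e (nat_lit 385068) (nat_lit 26) (.e (nat_lit 532499) (nat_lit 1) (.e (nat_lit 57847) (nat_lit 252) .nil)))))) (.g (nat_lit 5) .nil .nil))) 
(.lf (nat_lit 156086) (.g (nat_lit 1553) (.e (nat_lit 57412) (nat_lit 12) (.e (nat_lit 336020) (nat_lit 3) (.e (nat_lit 98370) (nat_lit 28) (.e (nat_lit 442424) (nat_lit 22) (.e (nat_lit 204544) (nat_lit 0) .nil))))) .nil)))) (.nd (nat_lit 4) (.nd (nat_lit 5) 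
(.lf (nat_lit 156046) (.g (nat_lit 3074) (.e (nat_lit 57411) (nat_lit 12) (.e (nat_lit 336456) (nat_lit 34) (.e (nat_lit 483402) (nat_lit 26) (.e (nat_lit 385068) (nat_lit 26) (.e (nat_lit 532503) (nat_lit 1) (.e (nat_lit 57847) (nat_lit 252) .nil)))))) (.g (nat_lit 0) .nil .nil))) 
(.lf (nat_lit 156078) (.g (nat_lit 1845) (.e (nat_lit 57412) (nat_lit 12) (.e (nat_lit 336020) (nat_lit 3) (.e (nat_lit 98359) (nat_lit 26) (.e (nat_lit 426286) (nat_lit 10) (.e (nat_lit 434247) (nat_lit 28) (.e (nat_lit 573478) (nat_lit 12) (.e (nat_lit 57353) (nat_lit 0) (.e (nat_lit 7263) (nat_lit 384) .nil)))))))) (.g (nat_lit 4) .nil .nil)))) (.nd (nat_lit 5) 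
(.lf (nat_lit 156062) (.g (nat_lit 4056) (.e (nat_lit 57411) (nat_lit 12) (.e (nat_lit 336456) (nat_lit 34) (.e (nat_lit 483406) (nat_lit 26) (.e (nat_lit 385068) (nat_lit 26) (.e (nat_lit 532499) (nat_lit 1) (.e (nat_lit 57847) (nat_lit 252) .nil)))))) (.g (nat_lit 0) .nil .nil))) 
(.lf (nat_lit 156094) (.g (nat_lit 2397) (.e (nat_lit 57412) (nat_lit 12) (.e (nat_lit 336020) (nat_lit 3) (.e (nat_lit 98372) (nat_lit 29) (.e (nat_lit 450586) (nat_lit 10) (.e (nat_lit 573478) (nat_lit 12) (.e (nat_lit 57351) (nat_lit 0) (.e (nat_lit 7261) (nat_lit 384) .nil))))))) (.g (nat_lit 0) .nil .nil)))))))) 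
(.nd (nat_lit 1) (.nd (nat_lit 2) (.nd (nat_lit 3) (.nd (nat_lit 4) (.nd (nat_lit 5) 
(.lf (nat_lit 156033) (.g (nat_lit 3440) (.e (nat_lit 57411) (nat_lit 12) (.e (nat_lit 336456) (nat_lit 34) (.e (nat_lit 483383) (nat_lit 23) (.e (nat_lit 336326) (nat_lit 18) (.e (nat_lit 204829) (nat_lit 18) (.e (nat_lit 57847) (nat_lit 252) .nil)))))) (.g (nat_lit 0) .nil .nil))) 
(.lf (nat_lit 156065) (.g (nat_lit 2497) (.e (nat_lit 57411) (nat_lit 12) (.e (nat_lit 343808) (nat_lit 34) (.e (nat_lit 483403) (nat_lit 26) (.e (nat_lit 385068) (nat_lit 26) (.e (nat_lit 532503) (nat_lit 1) (.e (nat_lit 57847) (nat_lit 252) .nil)))))) (.g (nat_lit 5) .nil .nil)))) (.nd (nat_lit 5) 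
(.lf (nat_lit 156049) (.g (nat_lit 3238) (.e (nat_lit 57411) (nat_lit 12) (.e (nat_lit 336456) (nat_lit 34) (.e (nat_lit 483403) (nat_lit 26) (.e (nat_lit 385066) (nat_lit 26) (.e (nat_lit 532503) (nat_lit 1) (.e (nat_lit 57847) (nat_lit 252) .nil)))))) (.g (nat_lit 0) .nil .nil))) 
(.lf (nat_lit 156081) (.g (nat_lit 2546) (.e (nat_lit 57412) (nat_lit 12) (.e (nat_lit 336020) (nat_lit 3) (.e (nat_lit 98359) (nat_lit 26) (.e (nat_lit 426286) (nat_lit 10) (.e (nat_lit 434248) (nat_lit 28) (.e (nat_lit 573473) (nat_lit 12) (.e (nat_lit 57353) (nat_lit 0) (.e (nat_lit 7263) (nat_lit 384) .nil)))))))) (.g (nat_lit 5) .nil .nil))))) (.nd (nat_lit 4) (.nd (nat_lit 5) 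
(.lf (nat_lit 156041) (.g (nat_lit 1147) (.e (nat_lit 57411) (nat_lit 12) (.e (nat_lit 336456) (nat_lit 34) (.e (nat_lit 483396) (nat_lit 24) (.e (nat_lit 344119) (nat_lit 21) .nil)))) .nil)) 
(.lf (nat_lit 156073) (.g (nat_lit 4067) (.e (nat_lit 57412) (nat_lit 12) (.e (nat_lit 336020) (nat_lit 3) (.e (nat_lit 98359) (nat_lit 26) (.e (nat_lit 426286) (nat_lit 10) (.e (nat_lit 434245) (nat_lit 28) (.e (nat_lit 573474) (nat_lit 12) (.e (nat_lit 57347) (nat_lit 0) (.e (nat_lit 7263) (nat_lit 384) .nil)))))))) (.g (nat_lit 7) .nil .nil)))) (.nd (nat_lit 5) 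
(.lf (nat_lit 156057) (.g (nat_lit 3492) (.e (nat_lit 57411) (nat_lit 12) (.e (nat_lit 336456) (nat_lit 34) (.e (nat_lit 483405) (nat_lit 26) (.e (nat_lit 385068) (nat_lit 26) (.e (nat_lit 532499) (nat_lit 1) (.e (nat_lit 57847) (nat_lit 252) .nil)))))) (.g (nat_lit 0) .nil .nil))) 
(.lf (nat_lit 156089) (.g (nat_lit 3533) (.e (nat_lit 57412) (nat_lit 12) (.e (nat_lit 336020) (nat_lit 3) (.e (nat_lit 98372) (nat_lit 29) (.e (nat_lit 450586) (nat_lit 10) (.e (nat_lit 573475) (nat_lit 12) (.e (nat_lit 57347) (nat_lit 0) (.e (nat_lit 7265) (nat_lit 384) .nil))))))) (.g (nat_lit 6) .nil .nil)))))) (.nd (nat_lit 3) (.nd (nat_lit 4) (.nd (nat_lit 5) 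
(.lf (nat_lit 156037) (.g (nat_lit 2116) (.e (nat_lit 57411) (nat_lit 12) (.e (nat_lit 336456) (nat_lit 34) (.e (nat_lit 483393) (nat_lit 23) (.e (nat_lit 336027) (nat_lit 3) (.e (nat_lit 98334) (nat_lit 18) (.e (nat_lit 164183) (nat_lit 154) .nil)))))) (.g (nat_lit 4) .nil .nil))) 
(.lf (nat_lit 156069) (.g (nat_lit 4743) (.e (nat_lit 57412) (nat_lit 12) (.e (nat_lit 336001) (nat_lit 2) (.e (nat_lit 90170) (nat_lit 13) (.e (nat_lit 172106) (nat_lit 10) (.e (nat_lit 434231) (nat_lit 23) (.e (nat_lit 532500) (nat_lit 1) (.e (nat_lit 65280) (nat_lit 223) .nil))))))) (.g (nat_lit 6) .nil .nil)))) (.nd (nat_lit 5) 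
(.lf (nat_lit 156053) (.g (nat_lit 1799) (.e (nat_lit 57411) (nat_lit 12) (.e (nat_lit 336456) (nat_lit 34) (.e (nat_lit 483404) (nat_lit 26) (.e (nat_lit 385066) (nat_lit 26) (.e (nat_lit 532503) (nat_lit 1) (.e (nat_lit 57847) (nat_lit 252) .nil)))))) (.g (nat_lit 4) .nil .nil))) 
(.lf (nat_lit 156085) (.g (nat_lit 3396) (.e (nat_lit 57412) (nat_lit 12) (.e (nat_lit 336020) (nat_lit 3) (.e (nat_lit 98359) (nat_lit 26) (.e (nat_lit 426286) (nat_lit 10) (.e (nat_lit 434248) (nat_lit 28) (.e (nat_lit 573475) (nat_lit 12) (.e (nat_lit 57353) (nat_lit 0) (.e (nat_lit 7261) (nat_lit 384) .nil)))))))) (.g (nat_lit 6) .nil .nil))))) (.nd (nat_lit 4) (.nd (nat_lit 5) 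
(.lf (nat_lit 156045) (.g (nat_lit 3557) (.e (nat_lit 57411) (nat_lit 12) (.e (nat_lit 336456) (nat_lit 34) (.e (nat_lit 483402) (nat_lit 26) (.e (nat_lit 385068) (nat_lit 26) (.e (nat_lit 532499) (nat_lit 1) (.e (nat_lit 57847) (nat_lit 252) .nil)))))) (.g (nat_lit 0) .nil .nil))) 
(.lf (nat_lit 156077) (.g (nat_lit 2746) (.e (nat_lit 57412) (nat_lit 12) (.e (nat_lit 336020) (nat_lit 3) (.e (nat_lit 98359) (nat_lit 26) (.e (nat_lit 426286) (nat_lit 10) (.e (nat_lit 434247) (nat_lit 28) (.e (nat_lit 573478) (nat_lit 12) (.e (nat_lit 57352) (nat_lit 0) (.e (nat_lit 7263) (nat_lit 384) .nil)))))))) (.g (nat_lit 6) .nil .nil)))) (.nd (nat_lit 5) 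
(.lf (nat_lit 156061) (.g (nat_lit 3700) (.e (nat_lit 57411) (nat_lit 12) (.e (nat_lit 336456) (nat_lit 34) (.e (nat_lit 483406) (nat_lit 26) (.e (nat_lit 385066) (nat_lit 26) (.e (nat_lit 532503) (nat_lit 1) (.e (nat_lit 57847) (nat_lit 252) .nil)))))) (.g (nat_lit 0) .nil .nil))) 
(.lf (nat_lit 156093) (.g (nat_lit 1426) (.e (nat_lit 57412) (nat_lit 12) (.e (nat_lit 336020) (nat_lit 3) (.e (nat_lit 98372) (nat_lit 29) (.e (nat_lit 450586) (nat_lit 10) (.e (nat_lit 573477) (nat_lit 12) (.e (nat_lit 57353) (nat_lit 0) (.e (nat_lit 7263) (nat_lit 384) .nil))))))) (.g (nat_lit 4) .nil .nil))))))) (.nd (nat_lit 2) (.nd (nat_lit 3) (.nd (nat_lit 4) (.nd (nat_lit 5) 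
(.lf (nat_lit 156035) (.g (nat_lit 2584) (.e (nat_lit 57411) (nat_lit 12) (.e (nat_lit 336456) (nat_lit 34) (.e (nat_lit 483391) (nat_lit 23) (.e (nat_lit 336323) (nat_lit 18) (.e (nat_lit 204829) (nat_lit 18) (.e (nat_lit 57847) (nat_lit 252) .nil)))))) (.g (nat_lit 0) .nil .nil))) 
(.lf (nat_lit 156067) (.g (nat_lit 1775) (.e (nat_lit 57412) (nat_lit 12) (.e (nat_lit 336001) (nat_lit 2) (.e (nat_lit 90170) (nat_lit 13) (.e (nat_lit 172082) (nat_lit 7) .nil)))) .nil))) (.nd (nat_lit 5) 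
(.lf (nat_lit 156051) (.g (nat_lit 3407) (.e (nat_lit 57411) (nat_lit 12) (.e (nat_lit 336456) (nat_lit 34) (.e (nat_lit 483403) (nat_lit 26) (.e (nat_lit 385068) (nat_lit 26) (.e (nat_lit 532503) (nat_lit 1) (.e (nat_lit 57847) (nat_lit 252) .nil)))))) (.g (nat_lit 0) .nil .nil))) 
(.lf (nat_lit 156083) (.g (nat_lit 3909) (.e (nat_lit 57412) (nat_lit 12) (.e (nat_lit 336020) (nat_lit 3) (.e (nat_lit 98359) (nat_lit 26) (.e (nat_lit 426286) (nat_lit 10) (.e (nat_lit 434248) (nat_lit 28) (.e (nat_lit 573475) (nat_lit 12) (.e (nat_lit 57348) (nat_lit 0) (.e (nat_lit 7261) (nat_lit 384) .nil)))))))) (.g (nat_lit 7) .nil .nil))))) (.nd (nat_lit 4) (.nd (nat_lit 5) 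
(.lf (nat_lit 156043) (.g (nat_lit 2194) (.e (nat_lit 57411) (nat_lit 12) (.e (nat_lit 336456) (nat_lit 34) (.e (nat_lit 483398) (nat_lit 25) (.e (nat_lit 368676) (nat_lit 21) (.e (nat_lit 516117) (nat_lit 1) (.e (nat_lit 164176) (nat_lit 154) .nil)))))) (.g (nat_lit 4) .nil .nil))) 
(.lf (nat_lit 156075) (.g (nat_lit 2514) (.e (nat_lit 57412) (nat_lit 12) (.e (nat_lit 336020) (nat_lit 3) (.e (nat_lit 98359) (nat_lit 26) (.e (nat_lit 426286) (nat_lit 10) (.e (nat_lit 434247) (nat_lit 28) (.e (nat_lit 573477) (nat_lit 12) (.e (nat_lit 57351) (nat_lit 0) (.e (nat_lit 7265) (nat_lit 384) .nil)))))))) (.g (nat_lit 5) .nil .nil)))) (.nd (nat_lit 5) 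
(.lf (nat_lit 156059) (.g (nat_lit 4187) (.e (nat_lit 57411) (nat_lit 12) (.e (nat_lit 336456) (nat_lit 34) (.e (nat_lit 483406) (nat_lit 26) (.e (nat_lit 385066) (nat_lit 26) (.e (nat_lit 532499) (nat_lit 1) (.e (nat_lit 57847) (nat_lit 252) .nil)))))) (.g (nat_lit 0) .nil .nil))) 
(.lf (nat_lit 156091) (.g (nat_lit 2971) (.e (nat_lit 57412) (nat_lit 12) (.e (nat_lit 336020) (nat_lit 3) (.e (nat_lit 98372) (nat_lit 29) (.e (nat_lit 450586) (nat_lit 10) (.e (nat_lit 573475) (nat_lit 12) (.e (nat_lit 57351) (nat_lit 0) (.e (nat_lit 7261) (nat_lit 384) .nil))))))) (.g (nat_lit 0) .nil .nil)))))) (.nd (nat_lit 3) (.nd (nat_lit 4) (.nd (nat_lit 5) 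
(.lf (nat_lit 156039) (.g (nat_lit 3055) (.e (nat_lit 57411) (nat_lit 12) (.e (nat_lit 336456) (nat_lit 34) (.e (nat_lit 483394) (nat_lit 24) (.e (nat_lit 344117) (nat_lit 21) (.e (nat_lit 516116) (nat_lit 1) (.e (nat_lit 164183) (nat_lit 154) .nil)))))) (.g (nat_lit 5) .nil .nil))) 
(.lf (nat_lit 156071) (.g (nat_lit 2642) (.e (nat_lit 57412) (nat_lit 12) (.e (nat_lit 336001) (nat_lit 2) (.e (nat_lit 90176) (nat_lit 15) (.e (nat_lit 188450) (nat_lit 23) (.e (nat_lit 204830) (nat_lit 18) (.e (nat_lit 65280) (nat_lit 223) .nil)))))) (.g (nat_lit 5) .nil .nil)))) (.nd (nat_lit 5) 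
(.lf (nat_lit 156055) (.g (nat_lit 3072) (.e (nat_lit 57411) (nat_lit 12) (.e (nat_lit 336456) (nat_lit 34) (.e (nat_lit 483405) (nat_lit 26) (.e (nat_lit 385066) (nat_lit 26) (.e (nat_lit 532499) (nat_lit 1) (.e (nat_lit 57847) (nat_lit 252) .nil)))))) (.g (nat_lit 6) .nil .nil))) 
(.lf (nat_lit 156087) (.g (nat_lit 2128) (.e (nat_lit 57412) (nat_lit 12) (.e (nat_lit 336020) (nat_lit 3) (.e (nat_lit 98372) (nat_lit 29) (.e (nat_lit 450579) (nat_lit 5) (.e (nat_lit 532499) (nat_lit 1) (.e (nat_lit 65280) (nat_lit 223) .nil)))))) (.g (nat_lit 4) .nil .nil))))) (.nd (nat_lit 4) (.nd (nat_lit 5) 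
(.lf (nat_lit 156047) (.g (nat_lit 3711) (.e (nat_lit 57411) (nat_lit 12) (.e (nat_lit 336456) (nat_lit 34) (.e (nat_lit 483403) (nat_lit 26) (.e (nat_lit 385066) (nat_lit 26) (.e (nat_lit 532499) (nat_lit 1) (.e (nat_lit 57847) (nat_lit 252) .nil)))))) (.g (nat_lit 0) .nil .nil))) 
(.lf (nat_lit 156079) (.g (nat_lit 3516) (.e (nat_lit 57412) (nat_lit 12) (.e (nat_lit 336020) (nat_lit 3) (.e (nat_lit 98359) (nat_lit 26) (.e (nat_lit 426286) (nat_lit 10) (.e (nat_lit 434248) (nat_lit 28) (.e (nat_lit 573473) (nat_lit 12) (.e (nat_lit 57352) (nat_lit 0) (.e (nat_lit 7261) (nat_lit 384) .nil)))))))) (.g (nat_lit 0) .nil .nil)))) (.nd (nat_lit 5) 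
(.lf (nat_lit 156063) (.g (nat_lit 3658) (.e (nat_lit 57411) (nat_lit 12) (.e (nat_lit 336456) (nat_lit 34) (.e (nat_lit 483406) (nat_lit 26) (.e (nat_lit 385068) (nat_lit 26) (.e (nat_lit 532503) (nat_lit 1) (.e (nat_lit 57847) (nat_lit 252) .nil)))))) (.g (nat_lit 0) .nil .nil))) 
(.lf (nat_lit 156095) (.g (nat_lit 2204) (.e (nat_lit 57412) (nat_lit 12) (.e (nat_lit 336020) (nat_lit 3) (.e (nat_lit 98372) (nat_lit 29) (.e (nat_lit 450586) (nat_lit 10) (.e (nat_lit 573478) (nat_lit 12) (.e (nat_lit 57352) (nat_lit 0) (.e (nat_lit 7261) (nat_lit 384) .nil))))))) (.g (nat_lit 5) .nil .nil)))))))))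

noncomputable def tv2086 : DT := (.nd (nat_lit 0) (.nd (nat_lit 1) (.nd (nat_lit 2) (.nd (nat_lit 3) (.nd (nat_lit 4) (.nd (nat_lit 5) 
(.lf (nat_lit 156096) (.g (nat_lit 2081) (.e (nat_lit 57412) (nat_lit 12) (.e (nat_lit 336020) (nat_lit 3) (.e (nat_lit 98372) (nat_lit 29) (.e (nat_lit 450586) (nat_lit 10) (.e (nat_lit 573478) (nat_lit 12) (.e (nat_lit 57352) (nat_lit 0) (.e (nat_lit 7263) (nat_lit 384) .nil))))))) (.g (nat_lit 5) .nil .nil))) 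
(.lf (nat_lit 156128) (.g (nat_lit 3214) (.e (nat_lit 57412) (nat_lit 12) (.e (nat_lit 336024) (nat_lit 3) (.e (nat_lit 98373) (nat_lit 29) (.e (nat_lit 450587) (nat_lit 10) (.e (nat_lit 573475) (nat_lit 12) .nil))))) .nil))) (.nd (nat_lit 5) 
(.lf (nat_lit 156112) (.g (nat_lit 2770) (.e (nat_lit 57412) (nat_lit 12) (.e (nat_lit 336020) (nat_lit 3) (.e (nat_lit 98373) (nat_lit 29) (.e (nat_lit 450587) (nat_lit 10) (.e (nat_lit 573478) (nat_lit 12) (.e (nat_lit 57352) (nat_lit 0) (.e (nat_lit 7261) (nat_lit 384) .nil))))))) (.g (nat_lit 5) .nil .nil))) 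
(.lf (nat_lit 156144) (.g (nat_lit 2597) (.e (nat_lit 57412) (nat_lit 12) (.e (nat_lit 336054) (nat_lit 7) (.e (nat_lit 319533) (nat_lit 16) (.e (nat_lit 286753) (nat_lit 10) (.e (nat_lit 344160) (nat_lit 37) (.e (nat_lit 647201) (nat_lit 12) (.e (nat_lit 57351) (nat_lit 0) (.e (nat_lit 7265) (nat_lit 384) .nil)))))))) (.g (nat_lit 6) .nil .nil))))) (.nd (nat_lit 4) (.nd (nat_lit 5) 
(.lf (nat_lit 156104) (.g (nat_lit 4118) (.e (nat_lit 57412) (nat_lit 12) (.e (nat_lit 336020) (nat_lit 3) (.e (nat_lit 98372) (nat_lit 29) (.e (nat_lit 450588) (nat_lit 10) (.e (nat_lit 573475) (nat_lit 12) (.e (nat_lit 57351) (nat_lit 0) (.e (nat_lit 7265) (nat_lit 384) .nil))))))) (.g (nat_lit 5) .nil .nil))) 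
(.lf (nat_lit 156136) (.g (nat_lit 3319) (.e (nat_lit 57412) (nat_lit 12) (.e (nat_lit 336024) (nat_lit 3) (.e (nat_lit 98373) (nat_lit 29) (.e (nat_lit 450588) (nat_lit 10) (.e (nat_lit 573475) (nat_lit 12) (.e (nat_lit 57344) (nat_lit 0) (.e (nat_lit 7263) (nat_lit 384) .nil))))))) (.g (nat_lit 4) .nil .nil)))) (.nd (nat_lit 5) 
(.lf (nat_lit 156120) (.g (nat_lit 3940) (.e (nat_lit 57412) (nat_lit 12) (.e (nat_lit 336020) (nat_lit 3) (.e (nat_lit 98373) (nat_lit 29) (.e (nat_lit 450588) (nat_lit 10) (.e (nat_lit 573475) (nat_lit 12) (.e (nat_lit 57348) (nat_lit 0) (.e (nat_lit 7265) (nat_lit 384) .nil))))))) (.g (nat_lit 6) .nil .nil))) 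
(.lf (nat_lit 156152) (.g (nat_lit 1989) (.e (nat_lit 57412) (nat_lit 12) (.e (nat_lit 336058) (nat_lit 7) (.e (nat_lit 319533) (nat_lit 16) (.e (nat_lit 286753) (nat_lit 10) (.e (nat_lit 344160) (nat_lit 37) (.e (nat_lit 647200) (nat_lit 12) (.e (nat_lit 57348) (nat_lit 0) (.e (nat_lit 7261) (nat_lit 384) .nil)))))))) (.g (nat_lit 4) .nil .nil)))))) 
(.nd (nat_lit 3) (.nd (nat_lit 4) (.nd (nat_lit 5) 
(.lf (nat_lit 156100) (.g (nat_lit 3970) (.e (nat_lit 57412) (nat_lit 12) (.e (nat_lit 336020) (nat_lit 3) (.e (nat_lit 98372) (nat_lit 29) (.e (nat_lit 450588) (nat_lit 10) (.e (nat_lit 573473) (nat_lit 12) (.e (nat_lit 57353) (nat_lit 0) (.e (nat_lit 7261) (nat_lit 384) .nil))))))) (.g (nat_lit 5) .nil .nil))) 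
(.lf (nat_lit 156132) (.g (nat_lit 4014) (.e (nat_lit 57412) (nat_lit 12) (.e (nat_lit 336024) (nat_lit 3) (.e (nat_lit 98373) (nat_lit 29) (.e (nat_lit 450588) (nat_lit 10) (.e (nat_lit 573473) (nat_lit 12) (.e (nat_lit 57347) (nat_lit 0) (.e (nat_lit 7261) (nat_lit 384) .nil))))))) (.g (nat_lit 5) .nil .nil)))) (.nd (nat_lit 5) 
(.lf (nat_lit 156116) (.g (nat_lit 3948) (.e (nat_lit 57412) (nat_lit 12) (.e (nat_lit 336020) (nat_lit 3) (.e (nat_lit 98373) (nat_lit 29) (.e (nat_lit 450588) (nat_lit 10) (.e (nat_lit 573473) (nat_lit 12) (.e (nat_lit 57353) (nat_lit 0) (.e (nat_lit 7265) (nat_lit 384) .nil))))))) (.g (nat_lit 0) .nil .nil))) 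
(.lf (nat_lit 156148) (.g (nat_lit 1098) (.e (nat_lit 57412) (nat_lit 12) (.e (nat_lit 336058) (nat_lit 7) (.e (nat_lit 319523) (nat_lit 14) (.e (nat_lit 270353) (nat_lit 8) (.e (nat_lit 303131) (nat_lit 9) (.e (nat_lit 426109) (nat_lit 1) (.e (nat_lit 164319) (nat_lit 228) .nil))))))) (.g (nat_lit 0) .nil .nil))))) (.nd (nat_lit 4) (.nd (nat_lit 5) 
(.lf (nat_lit 156108) (.g (nat_lit 2310) (.e (nat_lit 57412) (nat_lit 12) (.e (nat_lit 336020) (nat_lit 3) (.e (nat_lit 98373) (nat_lit 29) (.e (nat_lit 450587) (nat_lit 10) (.e (nat_lit 573477) (nat_lit 12) (.e (nat_lit 57351) (nat_lit 0) (.e (nat_lit 7263) (nat_lit 384) .nil))))))) (.g (nat_lit 4) .nil .nil))) 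
(.lf (nat_lit 156140) (.g (nat_lit 4757) (.e (nat_lit 57412) (nat_lit 12) (.e (nat_lit 336024) (nat_lit 3) (.e (nat_lit 98373) (nat_lit 29) (.e (nat_lit 450588) (nat_lit 10) (.e (nat_lit 573475) (nat_lit 12) (.e (nat_lit 57348) (nat_lit 0) (.e (nat_lit 7265) (nat_lit 384) .nil))))))) (.g (nat_lit 6) .nil .nil)))) (.nd (nat_lit 5) 
(.lf (nat_lit 156124) (.g (nat_lit 1637) (.e (nat_lit 57412) (nat_lit 12) (.e (nat_lit 336024) (nat_lit 3) (.e (nat_lit 98372) (nat_lit 29) (.e (nat_lit 450586) (nat_lit 10) (.e (nat_lit 573477) (nat_lit 12) (.e (nat_lit 57353) (nat_lit 0) (.e (nat_lit 7265) (nat_lit 384) .nil))))))) (.g (nat_lit 4) .nil .nil))) 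
(.lf (nat_lit 156156) (.g (nat_lit 1904) (.e (nat_lit 57412) (nat_lit 12) (.e (nat_lit 336058) (nat_lit 7) (.e (nat_lit 319533) (nat_lit 16) (.e (nat_lit 286753) (nat_lit 10) (.e (nat_lit 344160) (nat_lit 37) (.e (nat_lit 647200) (nat_lit 12) (.e (nat_lit 57353) (nat_lit 0) (.e (nat_lit 7265) (nat_lit 384) .nil)))))))) (.g (nat_lit 4) .nil .nil))))))) 
(.nd (nat_lit 2) (.nd (nat_lit 3) (.nd (nat_lit 4) (.nd (nat_lit 5) 
(.lf (nat_lit 156098) (.g (nat_lit 4064) (.e (nat_lit 57412) (nat_lit 12) (.e (nat_lit 336020) (nat_lit 3) (.e (nat_lit 98372) (nat_lit 29) (.e (nat_lit 450588) (nat_lit 10) (.e (nat_lit 573473) (nat_lit 12) (.e (nat_lit 57348) (nat_lit 0) (.e (nat_lit 7261) (nat_lit 384) .nil))))))) (.g (nat_lit 5) .nil .nil))) 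
(.lf (nat_lit 156130) (.g (nat_lit 2511) (.e (nat_lit 57412) (nat_lit 12) (.e (nat_lit 336024) (nat_lit 3) (.e (nat_lit 98373) (nat_lit 29) (.e (nat_lit 450587) (nat_lit 10) (.e (nat_lit 573478) (nat_lit 12) (.e (nat_lit 57353) (nat_lit 0) (.e (nat_lit 7261) (nat_lit 384) .nil))))))) (.g (nat_lit 4) .nil .nil)))) (.nd (nat_lit 5) 
(.lf (nat_lit 156114) (.g (nat_lit 3690) (.e (nat_lit 57412) (nat_lit 12) (.e (nat_lit 336020) (nat_lit 3) (.e (nat_lit 98373) (nat_lit 29) (.e (nat_lit 450588) (nat_lit 10) (.e (nat_lit 573473) (nat_lit 12) (.e (nat_lit 57352) (nat_lit 0) (.e (nat_lit 7261) (nat_lit 384) .nil))))))) (.g (nat_lit 0) .nil .nil))) 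
(.lf (nat_lit 156146) (.g (nat_lit 2267) (.e (nat_lit 57412) (nat_lit 12) (.e (nat_lit 336054) (nat_lit 7) (.e (nat_lit 319534) (nat_lit 16) (.e (nat_lit 286749) (nat_lit 9) (.e (nat_lit 335997) (nat_lit 1) (.e (nat_lit 57848) (nat_lit 252) (.e (nat_lit 57367) (nat_lit 1) (.e (nat_lit 57844) (nat_lit 252) .nil)))))))) (.g (nat_lit 4) .nil .nil))))) (.nd (nat_lit 4) (.nd (nat_lit 5) 
(.lf (nat_lit 156106) (.g (nat_lit 814) (.e (nat_lit 57412) (nat_lit 12) (.e (nat_lit 336020) (nat_lit 3) (.e (nat_lit 98373) (nat_lit 29) (.e (nat_lit 450586) (nat_lit 10) .nil)))) .nil)) 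
(.lf (nat_lit 156138) (.g (nat_lit 4669) (.e (nat_lit 57412) (nat_lit 12) (.e (nat_lit 336024) (nat_lit 3) (.e (nat_lit 98373) (nat_lit 29) (.e (nat_lit 450588) (nat_lit 10) (.e (nat_lit 573475) (nat_lit 12) (.e (nat_lit 57348) (nat_lit 0) (.e (nat_lit 7261) (nat_lit 384) .nil))))))) (.g (nat_lit 6) .nil .nil)))) (.nd (nat_lit 5) 
(.lf (nat_lit 156122) (.g (nat_lit 3257) (.e (nat_lit 57412) (nat_lit 12) (.e (nat_lit 336020) (nat_lit 3) (.e (nat_lit 98373) (nat_lit 29) (.e (nat_lit 450588) (nat_lit 10) (.e (nat_lit 573475) (nat_lit 12) (.e (nat_lit 57353) (nat_lit 0) (.e (nat_lit 7265) (nat_lit 384) .nil))))))) (.g (nat_lit 5) .nil .nil))) 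
(.lf (nat_lit 156154) (.g (nat_lit 1783) (.e (nat_lit 57412) (nat_lit 12) (.e (nat_lit 336058) (nat_lit 7) (.e (nat_lit 319533) (nat_lit 16) (.e (nat_lit 286753) (nat_lit 10) (.e (nat_lit 344160) (nat_lit 37) (.e (nat_lit 647200) (nat_lit 12) (.e (nat_lit 57352) (nat_lit 0) (.e (nat_lit 7261) (nat_lit 384) .nil)))))))) (.g (nat_lit 4) .nil .nil)))))) 
(.nd (nat_lit 3) (.nd (nat_lit 4) (.nd (nat_lit 5) 
(.lf (nat_lit 156102) (.g (nat_lit 3979) (.e (nat_lit 57412) (nat_lit 12) (.e (nat_lit 336020) (nat_lit 3) (.e (nat_lit 98372) (nat_lit 29) (.e (nat_lit 450588) (nat_lit 10) (.e (nat_lit 573475) (nat_lit 12) (.e (nat_lit 57351) (nat_lit 0) (.e (nat_lit 7261) (nat_lit 384) .nil))))))) (.g (nat_lit 5) .nil .nil))) 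
(.lf (nat_lit 156134) (.g (nat_lit 4027) (.e (nat_lit 57412) (nat_lit 12) (.e (nat_lit 336024) (nat_lit 3) (.e (nat_lit 98373) (nat_lit 29) (.e (nat_lit 450588) (nat_lit 10) (.e (nat_lit 573473) (nat_lit 12) (.e (nat_lit 57347) (nat_lit 0) (.e (nat_lit 7265) (nat_lit 384) .nil))))))) (.g (nat_lit 5) .nil .nil)))) (.nd (nat_lit 5) 
(.lf (nat_lit 156118) (.g (nat_lit 4107) (.e (nat_lit 57412) (nat_lit 12) (.e (nat_lit 336020) (nat_lit 3) (.e (nat_lit 98373) (nat_lit 29) (.e (nat_lit 450588) (nat_lit 10) (.e (nat_lit 573475) (nat_lit 12) (.e (nat_lit 57347) (nat_lit 0) (.e (nat_lit 7263) (nat_lit 384) .nil))))))) (.g (nat_lit 6) .nil .nil))) 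
(.lf (nat_lit 156150) (.g (nat_lit 2019) (.e (nat_lit 57412) (nat_lit 12) (.e (nat_lit 336058) (nat_lit 7) (.e (nat_lit 319524) (nat_lit 14) (.e (nat_lit 270354) (nat_lit 8) (.e (nat_lit 303132) (nat_lit 9) (.e (nat_lit 426109) (nat_lit 1) (.e (nat_lit 164319) (nat_lit 228) .nil))))))) (.g (nat_lit 0) .nil .nil))))) (.nd (nat_lit 4) (.nd (nat_lit 5) 
(.lf (nat_lit 156110) (.g (nat_lit 1810) (.e (nat_lit 57412) (nat_lit 12) (.e (nat_lit 336020) (nat_lit 3) (.e (nat_lit 98373) (nat_lit 29) (.e (nat_lit 450587) (nat_lit 10) (.e (nat_lit 573478) (nat_lit 12) .nil))))) .nil)) 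
(.lf (nat_lit 156142) (.g (nat_lit 2591) (.e (nat_lit 57412) (nat_lit 12) (.e (nat_lit 336054) (nat_lit 7) (.e (nat_lit 319533) (nat_lit 16) (.e (nat_lit 286753) (nat_lit 10) (.e (nat_lit 344160) (nat_lit 37) (.e (nat_lit 647201) (nat_lit 12) (.e (nat_lit 57351) (nat_lit 0) (.e (nat_lit 7261) (nat_lit 384) .nil)))))))) (.g (nat_lit 6) .nil .nil)))) (.nd (nat_lit 5) 
(.lf (nat_lit 156126) (.g (nat_lit 2546) (.e (nat_lit 57412) (nat_lit 12) (.e (nat_lit 336024) (nat_lit 3) (.e (nat_lit 98372) (nat_lit 29) (.e (nat_lit 450588) (nat_lit 10) (.e (nat_lit 573473) (nat_lit 12) .nil))))) .nil)) 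
(.lf (nat_lit 156158) (.g (nat_lit 2043) (.e (nat_lit 57412) (nat_lit 12) (.e (nat_lit 336058) (nat_lit 7) (.e (nat_lit 319534) (nat_lit 16) (.e (nat_lit 286756) (nat_lit 10) (.e (nat_lit 344097) (nat_lit 18) .nil))))) .nil))))))) (.nd (nat_lit 1) (.nd (nat_lit 2) (.nd (nat_lit 3) (.nd (nat_lit 4) (.nd (nat_lit 5) 
(.lf (nat_lit 156097) (.g (nat_lit 865) (.e (nat_lit 57412) (nat_lit 12) (.e (nat_lit 336020) (nat_lit 3) (.e (nat_lit 98372) (nat_lit 29) (.e (nat_lit 450587) (nat_lit 10) .nil)))) .nil)) 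
(.lf (nat_lit 156129) (.g (nat_lit 2404) (.e (nat_lit 57412) (nat_lit 12) (.e (nat_lit 336024) (nat_lit 3) (.e (nat_lit 98373) (nat_lit 29) (.e (nat_lit 450587) (nat_lit 10) (.e (nat_lit 573478) (nat_lit 12) (.e (nat_lit 57352) (nat_lit 0) (.e (nat_lit 7261) (nat_lit 384) .nil))))))) (.g (nat_lit 4) .nil .nil)))) (.nd (nat_lit 5) 
(.lf (nat_lit 156113) (.g (nat_lit 2648) (.e (nat_lit 57412) (nat_lit 12) (.e (nat_lit 336020) (nat_lit 3) (.e (nat_lit 98373) (nat_lit 29) (.e (nat_lit 450587) (nat_lit 10) (.e (nat_lit 573478) (nat_lit 12) (.e (nat_lit 57352) (nat_lit 0) (.e (nat_lit 7263) (nat_lit 384) .nil))))))) (.g (nat_lit 5) .nil .nil))) 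
(.lf (nat_lit 156145) (.g (nat_lit 2221) (.e (nat_lit 57412) (nat_lit 12) (.e (nat_lit 336054) (nat_lit 7) (.e (nat_lit 319534) (nat_lit 16) (.e (nat_lit 286749) (nat_lit 9) (.e (nat_lit 335997) (nat_lit 1) (.e (nat_lit 57844) (nat_lit 252) (.e (nat_lit 57364) (nat_lit 1) (.e (nat_lit 57851) (nat_lit 252) .nil)))))))) (.g (nat_lit 4) .nil .nil))))) (.nd (nat_lit 4) (.nd (nat_lit 5) 
(.lf (nat_lit 156105) (.g (nat_lit 2547) (.e (nat_lit 57412) (nat_lit 12) (.e (nat_lit 336020) (nat_lit 3) (.e (nat_lit 98373) (nat_lit 29) (.e (nat_lit 450585) (nat_lit 10) (.e (nat_lit 573474) (nat_lit 12) .nil))))) .nil)) 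
(.lf (nat_lit 156137) (.g (nat_lit 4875) (.e (nat_lit 57412) (nat_lit 12) (.e (nat_lit 336024) (nat_lit 3) (.e (nat_lit 98373) (nat_lit 29) (.e (nat_lit 450588) (nat_lit 10) (.e (nat_lit 573475) (nat_lit 12) (.e (nat_lit 57347) (nat_lit 0) (.e (nat_lit 7263) (nat_lit 384) .nil))))))) (.g (nat_lit 6) .nil .nil)))) (.nd (nat_lit 5) 
(.lf (nat_lit 156121) (.g (nat_lit 3689) (.e (nat_lit 57412) (nat_lit 12) (.e (nat_lit 336020) (nat_lit 3) (.e (nat_lit 98373) (nat_lit 29) (.e (nat_lit 450588) (nat_lit 10) (.e (nat_lit 573475) (nat_lit 12) (.e (nat_lit 57351) (nat_lit 0) (.e (nat_lit 7261) (nat_lit 384) .nil))))))) (.g (nat_lit 0) .nil .nil))) 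
(.lf (nat_lit 156153) (.g (nat_lit 1788) (.e (nat_lit 57412) (nat_lit 12) (.e (nat_lit 336058) (nat_lit 7) (.e (nat_lit 319533) (nat_lit 16) (.e (nat_lit 286753) (nat_lit 10) (.e (nat_lit 344160) (nat_lit 37) (.e (nat_lit 647200) (nat_lit 12) (.e (nat_lit 57348) (nat_lit 0) (.e (nat_lit 7263) (nat_lit 384) .nil)))))))) (.g (nat_lit 4) .nil .nil)))))) 
(.nd (nat_lit 3) (.nd (nat_lit 4) (.nd (nat_lit 5) 
(.lf (nat_lit 156101) (.g (nat_lit 4123) (.e (nat_lit 57412) (nat_lit 12) (.e (nat_lit 336020) (nat_lit 3) (.e (nat_lit 98372) (nat_lit 29) (.e (nat_lit 450588) (nat_lit 10) (.e (nat_lit 573473) (nat_lit 12) (.e (nat_lit 57353) (nat_lit 0) (.e (nat_lit 7265) (nat_lit 384) .nil))))))) (.g (nat_lit 5) .nil .nil))) 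
(.lf (nat_lit 156133) (.g (nat_lit 3164) (.e (nat_lit 57412) (nat_lit 12) (.e (nat_lit 336024) (nat_lit 3) (.e (nat_lit 98373) (nat_lit 29) (.e (nat_lit 450588) (nat_lit 10) (.e (nat_lit 573473) (nat_lit 12) (.e (nat_lit 57347) (nat_lit 0) (.e (nat_lit 7263) (nat_lit 384) .nil))))))) (.g (nat_lit 4) .nil .nil)))) (.nd (nat_lit 5) 
(.lf (nat_lit 156117) (.g (nat_lit 2034) (.e (nat_lit 57412) (nat_lit 12) (.e (nat_lit 336020) (nat_lit 3) (.e (nat_lit 98373) (nat_lit 29) (.e (nat_lit 450588) (nat_lit 10) (.e (nat_lit 573475) (nat_lit 12) .nil))))) .nil)) 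
(.lf (nat_lit 156149) (.g (nat_lit 1167) (.e (nat_lit 57412) (nat_lit 12) (.e (nat_lit 336058) (nat_lit 7) (.e (nat_lit 319524) (nat_lit 14) (.e (nat_lit 270354) (nat_lit 8) (.e (nat_lit 303131) (nat_lit 9) (.e (nat_lit 426109) (nat_lit 1) (.e (nat_lit 164319) (nat_lit 228) .nil))))))) (.g (nat_lit 0) .nil .nil))))) (.nd (nat_lit 4) (.nd (nat_lit 5) 
(.lf (nat_lit 156109) (.g (nat_lit 1975) (.e (nat_lit 57412) (nat_lit 12) (.e (nat_lit 336020) (nat_lit 3) (.e (nat_lit 98373) (nat_lit 29) (.e (nat_lit 450587) (nat_lit 10) (.e (nat_lit 573477) (nat_lit 12) (.e (nat_lit 57353) (nat_lit 0) (.e (nat_lit 7263) (nat_lit 384) .nil))))))) (.g (nat_lit 4) .nil .nil))) 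
(.lf (nat_lit 156141) (.g (nat_lit 4063) (.e (nat_lit 57412) (nat_lit 12) (.e (nat_lit 336024) (nat_lit 3) (.e (nat_lit 98373) (nat_lit 29) (.e (nat_lit 450588) (nat_lit 10) (.e (nat_lit 573475) (nat_lit 12) (.e (nat_lit 57353) (nat_lit 0) (.e (nat_lit 7265) (nat_lit 384) .nil))))))) (.g (nat_lit 5) .nil .nil)))) (.nd (nat_lit 5) 
(.lf (nat_lit 156125) (.g (nat_lit 1532) (.e (nat_lit 57412) (nat_lit 12) (.e (nat_lit 336024) (nat_lit 3) (.e (nat_lit 98372) (nat_lit 29) (.e (nat_lit 450586) (nat_lit 10) (.e (nat_lit 573478) (nat_lit 12) .nil))))) .nil)) 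
(.lf (nat_lit 156157) (.g (nat_lit 2237) (.e (nat_lit 57412) (nat_lit 12) (.e (nat_lit 336058) (nat_lit 7) (.e (nat_lit 319534) (nat_lit 16) (.e (nat_lit 286749) (nat_lit 9) (.e (nat_lit 335997) (nat_lit 1) (.e (nat_lit 57844) (nat_lit 252) (.e (nat_lit 57364) (nat_lit 1) (.e (nat_lit 57851) (nat_lit 252) .nil)))))))) (.g (nat_lit 4) .nil .nil))))))) 
(.nd (nat_lit 2) (.nd (nat_lit 3) (.nd (nat_lit 4) (.nd (nat_lit 5) 
(.lf (nat_lit 156099) (.g (nat_lit 4187) (.e (nat_lit 57412) (nat_lit 12) (.e (nat_lit 336020) (nat_lit 3) (.e (nat_lit 98372) (nat_lit 29) (.e (nat_lit 450588) (nat_lit 10) (.e (nat_lit 573473) (nat_lit 12) (.e (nat_lit 57348) (nat_lit 0) (.e (nat_lit 7265) (nat_lit 384) .nil))))))) (.g (nat_lit 5) .nil .nil))) 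
(.lf (nat_lit 156131) (.g (nat_lit 2933) (.e (nat_lit 57412) (nat_lit 12) (.e (nat_lit 336024) (nat_lit 3) (.e (nat_lit 98373) (nat_lit 29) (.e (nat_lit 450588) (nat_lit 10) (.e (nat_lit 573473) (nat_lit 12) .nil))))) .nil))) (.nd (nat_lit 5) 
(.lf (nat_lit 156115) (.g (nat_lit 3795) (.e (nat_lit 57412) (nat_lit 12) (.e (nat_lit 336020) (nat_lit 3) (.e (nat_lit 98373) (nat_lit 29) (.e (nat_lit 450588) (nat_lit 10) (.e (nat_lit 573473) (nat_lit 12) (.e (nat_lit 57353) (nat_lit 0) (.e (nat_lit 7261) (nat_lit 384) .nil))))))) (.g (nat_lit 0) .nil .nil))) 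
(.lf (nat_lit 156147) (.g (nat_lit 2385) (.e (nat_lit 57412) (nat_lit 12) (.e (nat_lit 336054) (nat_lit 7) (.e (nat_lit 319534) (nat_lit 16) (.e (nat_lit 286756) (nat_lit 10) (.e (nat_lit 344097) (nat_lit 18) (.e (nat_lit 5194) (nat_lit 294) (.e (nat_lit 57367) (nat_lit 1) (.e (nat_lit 57844) (nat_lit 252) .nil)))))))) (.g (nat_lit 4) .nil .nil))))) (.nd (nat_lit 4) (.nd (nat_lit 5) 
(.lf (nat_lit 156107) (.g (nat_lit 2852) (.e (nat_lit 57412) (nat_lit 12) (.e (nat_lit 336020) (nat_lit 3) (.e (nat_lit 98373) (nat_lit 29) (.e (nat_lit 450587) (nat_lit 10) (.e (nat_lit 573473) (nat_lit 12) (.e (nat_lit 57347) (nat_lit 0) (.e (nat_lit 7265) (nat_lit 384) .nil))))))) (.g (nat_lit 4) .nil .nil))) 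
(.lf (nat_lit 156139) (.g (nat_lit 4268) (.e (nat_lit 57412) (nat_lit 12) (.e (nat_lit 336024) (nat_lit 3) (.e (nat_lit 98373) (nat_lit 29) (.e (nat_lit 450588) (nat_lit 10) (.e (nat_lit 573475) (nat_lit 12) (.e (nat_lit 57348) (nat_lit 0) (.e (nat_lit 7263) (nat_lit 384) .nil))))))) (.g (nat_lit 5) .nil .nil)))) (.nd (nat_lit 5) 
(.lf (nat_lit 156123) (.g (nat_lit 1591) (.e (nat_lit 57412) (nat_lit 12) (.e (nat_lit 336024) (nat_lit 3) (.e (nat_lit 98372) (nat_lit 29) (.e (nat_lit 450586) (nat_lit 10) (.e (nat_lit 573477) (nat_lit 12) (.e (nat_lit 57353) (nat_lit 0) (.e (nat_lit 7261) (nat_lit 384) .nil))))))) (.g (nat_lit 4) .nil .nil))) 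
(.lf (nat_lit 156155) (.g (nat_lit 1764) (.e (nat_lit 57412) (nat_lit 12) (.e (nat_lit 336058) (nat_lit 7) (.e (nat_lit 319533) (nat_lit 16) (.e (nat_lit 286753) (nat_lit 10) (.e (nat_lit 344160) (nat_lit 37) (.e (nat_lit 647200) (nat_lit 12) (.e (nat_lit 57352) (nat_lit 0) (.e (nat_lit 7263) (nat_lit 384) .nil)))))))) (.g (nat_lit 4) .nil .nil)))))) 
(.nd (nat_lit 3) (.nd (nat_lit 4) (.nd (nat_lit 5) 
(.lf (nat_lit 156103) (.g (nat_lit 3984) (.e (nat_lit 57412) (nat_lit 12) (.e (nat_lit 336020) (nat_lit 3) (.e (nat_lit 98372) (nat_lit 29) (.e (nat_lit 450588) (nat_lit 10) (.e (nat_lit 573475) (nat_lit 12) (.e (nat_lit 57351) (nat_lit 0) (.e (nat_lit 7263) (nat_lit 384) .nil))))))) (.g (nat_lit 5) .nil .nil))) 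
(.lf (nat_lit 156135) (.g (nat_lit 2977) (.e (nat_lit 57412) (nat_lit 12) (.e (nat_lit 336024) (nat_lit 3) (.e (nat_lit 98373) (nat_lit 29) (.e (nat_lit 450588) (nat_lit 10) (.e (nat_lit 573475) (nat_lit 12) .nil))))) .nil))) (.nd (nat_lit 5) 
(.lf (nat_lit 156119) (.g (nat_lit 3813) (.e (nat_lit 57412) (nat_lit 12) (.e (nat_lit 336020) (nat_lit 3) (.e (nat_lit 98373) (nat_lit 29) (.e (nat_lit 450588) (nat_lit 10) (.e (nat_lit 573475) (nat_lit 12) (.e (nat_lit 57348) (nat_lit 0) (.e (nat_lit 7261) (nat_lit 384) .nil))))))) (.g (nat_lit 6) .nil .nil))) 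
(.lf (nat_lit 156151) (.g (nat_lit 1526) (.e (nat_lit 57412) (nat_lit 12) (.e (nat_lit 336058) (nat_lit 7) (.e (nat_lit 319526) (nat_lit 15) (.e (nat_lit 278546) (nat_lit 8) (.e (nat_lit 303131) (nat_lit 9) (.e (nat_lit 426109) (nat_lit 1) (.e (nat_lit 164319) (nat_lit 228) .nil))))))) (.g (nat_lit 0) .nil .nil))))) (.nd (nat_lit 4) (.nd (nat_lit 5) 
(.lf (nat_lit 156111) (.g (nat_lit 2959) (.e (nat_lit 57412) (nat_lit 12) (.e (nat_lit 336020) (nat_lit 3) (.e (nat_lit 98373) (nat_lit 29) (.e (nat_lit 450587) (nat_lit 10) (.e (nat_lit 573478) (nat_lit 12) (.e (nat_lit 57351) (nat_lit 0) (.e (nat_lit 7261) (nat_lit 384) .nil))))))) (.g (nat_lit 0) .nil .nil))) 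
(.lf (nat_lit 156143) (.g (nat_lit 2459) (.e (nat_lit 57412) (nat_lit 12) (.e (nat_lit 336054) (nat_lit 7) (.e (nat_lit 319533) (nat_lit 16) (.e (nat_lit 286753) (nat_lit 10) (.e (nat_lit 344160) (nat_lit 37) (.e (nat_lit 647201) (nat_lit 12) (.e (nat_lit 57351) (nat_lit 0) (.e (nat_lit 7263) (nat_lit 384) .nil)))))))) (.g (nat_lit 6) .nil .nil)))) (.nd (nat_lit 5) 
(.lf (nat_lit 156127) (.g (nat_lit 2506) (.e (nat_lit 57412) (nat_lit 12) (.e (nat_lit 336024) (nat_lit 3) (.e (nat_lit 98372) (nat_lit 29) (.e (nat_lit 450588) (nat_lit 10) (.e (nat_lit 573475) (nat_lit 12) .nil))))) .nil)) 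
(.lf (nat_lit 156159) (.g (nat_lit 2722) (.e (nat_lit 57412) (nat_lit 12) (.e (nat_lit 336058) (nat_lit 7) (.e (nat_lit 319534) (nat_lit 16) (.e (nat_lit 286756) (nat_lit 10) (.e (nat_lit 344097) (nat_lit 18) (.e (nat_lit 5195) (nat_lit 294) (.e (nat_lit 57367) (nat_lit 1) (.e (nat_lit 57848) (nat_lit 252) .nil)))))))) (.g (nat_lit 4) .nil .nil)))))))))

noncomputable def tv2087 : DT := (.nd (nat_lit 0) (.nd (nat_lit 1) (.nd (nat_lit 2) (.nd (nat_lit 3) (.nd (nat_lit 4) (.nd (nat_lit 5) 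
(.lf (nat_lit 156160) (.g (nat_lit 2382) (.e (nat_lit 57412) (nat_lit 12) (.e (nat_lit 336058) (nat_lit 7) (.e (nat_lit 319534) (nat_lit 16) (.e (nat_lit 286756) (nat_lit 10) (.e (nat_lit 344160) (nat_lit 37) (.e (nat_lit 647200) (nat_lit 12) (.e (nat_lit 57348) (nat_lit 0) (.e (nat_lit 7261) (nat_lit 384) .nil)))))))) (.g (nat_lit 4) .nil .nil))) 
(.lf (nat_lit 156192) (.g (nat_lit 1521) (.e (nat_lit 57412) (nat_lit 12) (.e (nat_lit 336061) (nat_lit 7) (.e (nat_lit 319531) (nat_lit 16) (.e (nat_lit 286727) (nat_lit 0) (.e (nat_lit 7936) (nat_lit 362) .nil))))) .nil))) (.nd (nat_lit 5) 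
(.lf (nat_lit 156176) (.g (nat_lit 4299) (.e (nat_lit 57412) (nat_lit 12) (.e (nat_lit 336061) (nat_lit 7) (.e (nat_lit 319505) (nat_lit 10) (.e (nat_lit 720) (nat_lit 64) (.e (nat_lit 688177) (nat_lit 16) (.e (nat_lit 65617) (nat_lit 10) (.e (nat_lit 344091) (nat_lit 18) (.e (nat_lit 7261) (nat_lit 384) .nil)))))))) (.g (nat_lit 7) .nil .nil))) 
(.lf (nat_lit 156208) (.g (nat_lit 1732) (.e (nat_lit 57412) (nat_lit 12) (.e (nat_lit 336061) (nat_lit 7) (.e (nat_lit 319531) (nat_lit 16) (.e (nat_lit 286748) (nat_lit 9) (.e (nat_lit 335938) (nat_lit 0) (.e (nat_lit 1023) (nat_lit 81) (.e (nat_lit 5195) (nat_lit 294) (.e (nat_lit 57367) (nat_lit 1) (.e (nat_lit 57844) (nat_lit 252) .nil))))))))) (.g (nat_lit 4) .nil .nil))))) 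
(.nd (nat_lit 4) (.nd (nat_lit 5) 
(.lf (nat_lit 156168) (.g (nat_lit 2523) (.e (nat_lit 57412) (nat_lit 12) (.e (nat_lit 336060) (nat_lit 7) (.e (nat_lit 319534) (nat_lit 16) (.e (nat_lit 286756) (nat_lit 10) (.e (nat_lit 344097) (nat_lit 18) (.e (nat_lit 5195) (nat_lit 294) (.e (nat_lit 57367) (nat_lit 1) (.e (nat_lit 57850) (nat_lit 252) .nil)))))))) (.g (nat_lit 5) .nil .nil))) 
(.lf (nat_lit 156200) (.g (nat_lit 2062) (.e (nat_lit 57412) (nat_lit 12) (.e (nat_lit 336061) (nat_lit 7) (.e (nat_lit 319531) (nat_lit 16) (.e (nat_lit 286743) (nat_lit 9) (.e (nat_lit 336337) (nat_lit 20) (.e (nat_lit 229120) (nat_lit 1) (.e (nat_lit 57844) (nat_lit 252) .nil))))))) (.g (nat_lit 4) .nil .nil)))) (.nd (nat_lit 5) 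
(.lf (nat_lit 156184) (.g (nat_lit 2813) (.e (nat_lit 57412) (nat_lit 12) (.e (nat_lit 336061) (nat_lit 7) (.e (nat_lit 319526) (nat_lit 15) (.e (nat_lit 278546) (nat_lit 8) (.e (nat_lit 303132) (nat_lit 9) (.e (nat_lit 426109) (nat_lit 1) (.e (nat_lit 164319) (nat_lit 228) .nil))))))) (.g (nat_lit 6) .nil .nil))) 
(.lf (nat_lit 156216) (.g (nat_lit 1700) (.e (nat_lit 57412) (nat_lit 12) (.e (nat_lit 336061) (nat_lit 7) (.e (nat_lit 319531) (nat_lit 16) (.e (nat_lit 286748) (nat_lit 9) (.e (nat_lit 335985) (nat_lit 1) (.e (nat_lit 57854) (nat_lit 252) (.e (nat_lit 57364) (nat_lit 1) (.e (nat_lit 57851) (nat_lit 252) .nil)))))))) (.g (nat_lit 4) .nil .nil)))))) 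
(.nd (nat_lit 3) (.nd (nat_lit 4) (.nd (nat_lit 5) 
(.lf (nat_lit 156164) (.g (nat_lit 2381) (.e (nat_lit 57412) (nat_lit 12) (.e (nat_lit 336058) (nat_lit 7) (.e (nat_lit 319534) (nat_lit 16) (.e (nat_lit 286756) (nat_lit 10) (.e (nat_lit 344160) (nat_lit 37) (.e (nat_lit 647200) (nat_lit 12) (.e (nat_lit 57353) (nat_lit 0) (.e (nat_lit 7265) (nat_lit 384) .nil)))))))) (.g (nat_lit 4) .nil .nil))) 
(.lf (nat_lit 156196) (.g (nat_lit 3002) (.e (nat_lit 57412) (nat_lit 12) (.e (nat_lit 336061) (nat_lit 7) (.e (nat_lit 319531) (nat_lit 16) (.e (nat_lit 286742) (nat_lit 9) (.e (nat_lit 335985) (nat_lit 1) (.e (nat_lit 57847) (nat_lit 252) (.e (nat_lit 57365) (nat_lit 1) (.e (nat_lit 57851) (nat_lit 252) .nil)))))))) (.g (nat_lit 6) .nil .nil)))) (.nd (nat_lit 5) 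
(.lf (nat_lit 156180) (.g (nat_lit 4407) (.e (nat_lit 57412) (nat_lit 12) (.e (nat_lit 336061) (nat_lit 7) (.e (nat_lit 319505) (nat_lit 10) (.e (nat_lit 720) (nat_lit 64) (.e (nat_lit 688177) (nat_lit 16) (.e (nat_lit 65617) (nat_lit 10) (.e (nat_lit 344096) (nat_lit 18) (.e (nat_lit 7265) (nat_lit 384) .nil)))))))) (.g (nat_lit 7) .nil .nil))) 
(.lf (nat_lit 156212) (.g (nat_lit 2702) (.e (nat_lit 57412) (nat_lit 12) (.e (nat_lit 336061) (nat_lit 7) (.e (nat_lit 319531) (nat_lit 16) (.e (nat_lit 286748) (nat_lit 9) (.e (nat_lit 335985) (nat_lit 1) (.e (nat_lit 57847) (nat_lit 252) (.e (nat_lit 57368) (nat_lit 1) (.e (nat_lit 57851) (nat_lit 252) .nil)))))))) (.g (nat_lit 6) .nil .nil))))) (.nd (nat_lit 4) (.nd (nat_lit 5) 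
(.lf (nat_lit 156172) (.g (nat_lit 2031) (.e (nat_lit 57412) (nat_lit 12) (.e (nat_lit 336060) (nat_lit 7) (.e (nat_lit 319534) (nat_lit 16) (.e (nat_lit 286756) (nat_lit 10) (.e (nat_lit 344160) (nat_lit 37) (.e (nat_lit 647200) (nat_lit 12) (.e (nat_lit 57353) (nat_lit 0) (.e (nat_lit 7261) (nat_lit 384) .nil)))))))) (.g (nat_lit 4) .nil .nil))) 
(.lf (nat_lit 156204) (.g (nat_lit 1801) (.e (nat_lit 57412) (nat_lit 12) (.e (nat_lit 336061) (nat_lit 7) (.e (nat_lit 319531) (nat_lit 16) (.e (nat_lit 286745) (nat_lit 9) .nil)))) .nil))) (.nd (nat_lit 5) 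
(.lf (nat_lit 156188) (.g (nat_lit 2694) (.e (nat_lit 57412) (nat_lit 12) (.e (nat_lit 336061) (nat_lit 7) (.e (nat_lit 319529) (nat_lit 16) (.e (nat_lit 286749) (nat_lit 9) (.e (nat_lit 335997) (nat_lit 1) (.e (nat_lit 57848) (nat_lit 252) (.e (nat_lit 57365) (nat_lit 1) (.e (nat_lit 57851) (nat_lit 252) .nil)))))))) (.g (nat_lit 5) .nil .nil))) 
(.lf (nat_lit 156220) (.g (nat_lit 1839) (.e (nat_lit 57412) (nat_lit 12) (.e (nat_lit 336061) (nat_lit 7) (.e (nat_lit 319531) (nat_lit 16) (.e (nat_lit 286748) (nat_lit 9) (.e (nat_lit 335990) (nat_lit 1) (.e (nat_lit 57854) (nat_lit 252) (.e (nat_lit 57364) (nat_lit 1) (.e (nat_lit 57851) (nat_lit 252) .nil)))))))) (.g (nat_lit 4) .nil .nil))))))) 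
(.nd (nat_lit 2) (.nd (nat_lit 3) (.nd (nat_lit 4) (.nd (nat_lit 5) 
(.lf (nat_lit 156162) (.g (nat_lit 2225) (.e (nat_lit 57412) (nat_lit 12) (.e (nat_lit 336058) (nat_lit 7) (.e (nat_lit 319534) (nat_lit 16) (.e (nat_lit 286756) (nat_lit 10) (.e (nat_lit 344160) (nat_lit 37) (.e (nat_lit 647200) (nat_lit 12) (.e (nat_lit 57352) (nat_lit 0) (.e (nat_lit 7261) (nat_lit 384) .nil)))))))) (.g (nat_lit 4) .nil .nil))) 
(.lf (nat_lit 156194) (.g (nat_lit 1813) (.e (nat_lit 57412) (nat_lit 12) (.e (nat_lit 336061) (nat_lit 7) (.e (nat_lit 319531) (nat_lit 16) (.e (nat_lit 286728) (nat_lit 0) .nil)))) .nil))) (.nd (nat_lit 5) 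
(.lf (nat_lit 156178) (.g (nat_lit 3753) (.e (nat_lit 57412) (nat_lit 12) (.e (nat_lit 336061) (nat_lit 7) (.e (nat_lit 319505) (nat_lit 10) (.e (nat_lit 720) (nat_lit 64) (.e (nat_lit 688177) (nat_lit 16) (.e (nat_lit 65617) (nat_lit 10) (.e (nat_lit 344095) (nat_lit 18) (.e (nat_lit 7263) (nat_lit 384) .nil)))))))) (.g (nat_lit 6) .nil .nil))) 
(.lf (nat_lit 156210) (.g (nat_lit 1512) (.e (nat_lit 57412) (nat_lit 12) (.e (nat_lit 336061) (nat_lit 7) (.e (nat_lit 319531) (nat_lit 16) (.e (nat_lit 286748) (nat_lit 9) (.e (nat_lit 335985) (nat_lit 1) .nil))))) .nil)))) (.nd (nat_lit 4) (.nd (nat_lit 5) 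
(.lf (nat_lit 156170) (.g (nat_lit 2131) (.e (nat_lit 57412) (nat_lit 12) (.e (nat_lit 336060) (nat_lit 7) (.e (nat_lit 319534) (nat_lit 16) (.e (nat_lit 286756) (nat_lit 10) (.e (nat_lit 344160) (nat_lit 37) (.e (nat_lit 647200) (nat_lit 12) (.e (nat_lit 57352) (nat_lit 0) (.e (nat_lit 7261) (nat_lit 384) .nil)))))))) (.g (nat_lit 4) .nil .nil))) 
(.lf (nat_lit 156202) (.g (nat_lit 2147) (.e (nat_lit 57412) (nat_lit 12) (.e (nat_lit 336061) (nat_lit 7) (.e (nat_lit 319531) (nat_lit 16) (.e (nat_lit 286743) (nat_lit 9) (.e (nat_lit 336337) (nat_lit 20) (.e (nat_lit 229120) (nat_lit 1) (.e (nat_lit 57852) (nat_lit 252) .nil))))))) (.g (nat_lit 4) .nil .nil)))) (.nd (nat_lit 5) 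
(.lf (nat_lit 156186) (.g (nat_lit 1507) (.e (nat_lit 57412) (nat_lit 12) (.e (nat_lit 336061) (nat_lit 7) (.e (nat_lit 319527) (nat_lit 15) (.e (nat_lit 278546) (nat_lit 8) (.e (nat_lit 303131) (nat_lit 9) (.e (nat_lit 426109) (nat_lit 1) (.e (nat_lit 164319) (nat_lit 228) .nil))))))) (.g (nat_lit 4) .nil .nil))) 
(.lf (nat_lit 156218) (.g (nat_lit 1744) (.e (nat_lit 57412) (nat_lit 12) (.e (nat_lit 336061) (nat_lit 7) (.e (nat_lit 319531) (nat_lit 16) (.e (nat_lit 286748) (nat_lit 9) (.e (nat_lit 335989) (nat_lit 1) (.e (nat_lit 57854) (nat_lit 252) (.e (nat_lit 57364) (nat_lit 1) (.e (nat_lit 57851) (nat_lit 252) .nil)))))))) (.g (nat_lit 4) .nil .nil)))))) 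
(.nd (nat_lit 3) (.nd (nat_lit 4) (.nd (nat_lit 5) 
(.lf (nat_lit 156166) (.g (nat_lit 1879) (.e (nat_lit 57412) (nat_lit 12) (.e (nat_lit 336060) (nat_lit 7) (.e (nat_lit 319533) (nat_lit 16) (.e (nat_lit 286753) (nat_lit 10) (.e (nat_lit 344160) (nat_lit 37) (.e (nat_lit 647200) (nat_lit 12) (.e (nat_lit 57352) (nat_lit 0) (.e (nat_lit 7263) (nat_lit 384) .nil)))))))) (.g (nat_lit 4) .nil .nil))) 
(.lf (nat_lit 156198) (.g (nat_lit 2178) (.e (nat_lit 57412) (nat_lit 12) (.e (nat_lit 336061) (nat_lit 7) (.e (nat_lit 319531) (nat_lit 16) (.e (nat_lit 286743) (nat_lit 9) (.e (nat_lit 336000) (nat_lit 1) (.e (nat_lit 57849) (nat_lit 252) (.e (nat_lit 57367) (nat_lit 1) (.e (nat_lit 57844) (nat_lit 252) .nil)))))))) (.g (nat_lit 4) .nil .nil)))) (.nd (nat_lit 5) 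
(.lf (nat_lit 156182) (.g (nat_lit 1357) (.e (nat_lit 57412) (nat_lit 12) (.e (nat_lit 336061) (nat_lit 7) (.e (nat_lit 319524) (nat_lit 14) (.e (nat_lit 270353) (nat_lit 8) (.e (nat_lit 303131) (nat_lit 9) (.e (nat_lit 426109) (nat_lit 1) (.e (nat_lit 164319) (nat_lit 228) .nil))))))) (.g (nat_lit 4) .nil .nil))) 
(.lf (nat_lit 156214) (.g (nat_lit 2197) (.e (nat_lit 57412) (nat_lit 12) (.e (nat_lit 336061) (nat_lit 7) (.e (nat_lit 319531) (nat_lit 16) (.e (nat_lit 286748) (nat_lit 9) (.e (nat_lit 335985) (nat_lit 1) (.e (nat_lit 57849) (nat_lit 252) (.e (nat_lit 57368) (nat_lit 1) (.e (nat_lit 57853) (nat_lit 252) .nil)))))))) (.g (nat_lit 4) .nil .nil))))) (.nd (nat_lit 4) (.nd (nat_lit 5) 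
(.lf (nat_lit 156174) (.g (nat_lit 3685) (.e (nat_lit 57412) (nat_lit 12) (.e (nat_lit 336061) (nat_lit 7) (.e (nat_lit 319505) (nat_lit 10) (.e (nat_lit 618) (nat_lit 48) (.e (nat_lit 557098) (nat_lit 13) (.e (nat_lit 172115) (nat_lit 10) (.e (nat_lit 434202) (nat_lit 18) (.e (nat_lit 6828) (nat_lit 367) .nil)))))))) (.g (nat_lit 6) .nil .nil))) 
(.lf (nat_lit 156206) (.g (nat_lit 735) (.e (nat_lit 57412) (nat_lit 12) (.e (nat_lit 336061) (nat_lit 7) (.e (nat_lit 319531) (nat_lit 16) (.e (nat_lit 286748) (nat_lit 9) .nil)))) .nil))) (.nd (nat_lit 5) 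
(.lf (nat_lit 156190) (.g (nat_lit 1803) (.e (nat_lit 57412) (nat_lit 12) (.e (nat_lit 336061) (nat_lit 7) (.e (nat_lit 319531) (nat_lit 16) (.e (nat_lit 286721) (nat_lit 0) .nil)))) .nil)) 
(.lf (nat_lit 156222) (.g (nat_lit 1821) (.e (nat_lit 57412) (nat_lit 12) (.e (nat_lit 336061) (nat_lit 7) (.e (nat_lit 319531) (nat_lit 16) (.e (nat_lit 286748) (nat_lit 9) (.e (nat_lit 335992) (nat_lit 1) (.e (nat_lit 57854) (nat_lit 252) (.e (nat_lit 57364) (nat_lit 1) (.e (nat_lit 57851) (nat_lit 252) .nil)))))))) (.g (nat_lit 4) .nil .nil)))))))) 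
(.nd (nat_lit 1) (.nd (nat_lit 2) (.nd (nat_lit 3) (.nd (nat_lit 4) (.nd (nat_lit 5) 
(.lf (nat_lit 156161) (.g (nat_lit 2181) (.e (nat_lit 57412) (nat_lit 12) (.e (nat_lit 336058) (nat_lit 7) (.e (nat_lit 319534) (nat_lit 16) (.e (nat_lit 286756) (nat_lit 10) (.e (nat_lit 344160) (nat_lit 37) (.e (nat_lit 647200) (nat_lit 12) (.e (nat_lit 57348) (nat_lit 0) (.e (nat_lit 7263) (nat_lit 384) .nil)))))))) (.g (nat_lit 4) .nil .nil))) 
(.lf (nat_lit 156193) (.g (nat_lit 1998) (.e (nat_lit 57412) (nat_lit 12) (.e (nat_lit 336061) (nat_lit 7) (.e (nat_lit 319531) (nat_lit 16) (.e (nat_lit 286727) (nat_lit 0) (.e (nat_lit 7936) (nat_lit 362) (.e (nat_lit 180233) (nat_lit 0) (.e (nat_lit 5190) (nat_lit 294) .nil))))))) (.g (nat_lit 4) .nil .nil)))) (.nd (nat_lit 5) 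
(.lf (nat_lit 156177) (.g (nat_lit 4296) (.e (nat_lit 57412) (nat_lit 12) (.e (nat_lit 336061) (nat_lit 7) (.e (nat_lit 319505) (nat_lit 10) (.e (nat_lit 720) (nat_lit 64) (.e (nat_lit 688177) (nat_lit 16) (.e (nat_lit 65617) (nat_lit 10) (.e (nat_lit 344091) (nat_lit 18) (.e (nat_lit 7265) (nat_lit 384) .nil)))))))) (.g (nat_lit 7) .nil .nil))) 
(.lf (nat_lit 156209) (.g (nat_lit 1910) (.e (nat_lit 57412) (nat_lit 12) (.e (nat_lit 336061) (nat_lit 7) (.e (nat_lit 319531) (nat_lit 16) (.e (nat_lit 286748) (nat_lit 9) (.e (nat_lit 335938) (nat_lit 0) (.e (nat_lit 1023) (nat_lit 81) (.e (nat_lit 5195) (nat_lit 294) (.e (nat_lit 57368) (nat_lit 1) (.e (nat_lit 57851) (nat_lit 252) .nil))))))))) (.g (nat_lit 4) .nil .nil))))) 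
(.nd (nat_lit 4) (.nd (nat_lit 5) 
(.lf (nat_lit 156169) (.g (nat_lit 2178) (.e (nat_lit 57412) (nat_lit 12) (.e (nat_lit 336060) (nat_lit 7) (.e (nat_lit 319534) (nat_lit 16) (.e (nat_lit 286756) (nat_lit 10) (.e (nat_lit 344160) (nat_lit 37) (.e (nat_lit 647200) (nat_lit 12) (.e (nat_lit 57348) (nat_lit 0) (.e (nat_lit 7263) (nat_lit 384) .nil)))))))) (.g (nat_lit 4) .nil .nil))) 
(.lf (nat_lit 156201) (.g (nat_lit 2121) (.e (nat_lit 57412) (nat_lit 12) (.e (nat_lit 336061) (nat_lit 7) (.e (nat_lit 319531) (nat_lit 16) (.e (nat_lit 286743) (nat_lit 9) (.e (nat_lit 336337) (nat_lit 20) (.e (nat_lit 229120) (nat_lit 1) (.e (nat_lit 57850) (nat_lit 252) .nil))))))) (.g (nat_lit 4) .nil .nil)))) (.nd (nat_lit 5) 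
(.lf (nat_lit 156185) (.g (nat_lit 385) (.e (nat_lit 57412) (nat_lit 12) (.e (nat_lit 336061) (nat_lit 7) (.e (nat_lit 319527) (nat_lit 15) .nil))) .nil)) 
(.lf (nat_lit 156217) (.g (nat_lit 3568) (.e (nat_lit 57412) (nat_lit 12) (.e (nat_lit 336061) (nat_lit 7) (.e (nat_lit 319531) (nat_lit 16) (.e (nat_lit 286748) (nat_lit 9) (.e (nat_lit 335989) (nat_lit 1) (.e (nat_lit 57847) (nat_lit 252) (.e (nat_lit 57365) (nat_lit 1) (.e (nat_lit 57851) (nat_lit 252) .nil)))))))) (.g (nat_lit 7) .nil .nil)))))) 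
(.nd (nat_lit 3) (.nd (nat_lit 4) (.nd (nat_lit 5) 
(.lf (nat_lit 156165) (.g (nat_lit 2199) (.e (nat_lit 57412) (nat_lit 12) (.e (nat_lit 336060) (nat_lit 7) (.e (nat_lit 319533) (nat_lit 16) (.e (nat_lit 286753) (nat_lit 10) (.e (nat_lit 344097) (nat_lit 18) (.e (nat_lit 5195) (nat_lit 294) (.e (nat_lit 57367) (nat_lit 1) (.e (nat_lit 57850) (nat_lit 252) .nil)))))))) (.g (nat_lit 4) .nil .nil))) 
(.lf (nat_lit 156197) (.g (nat_lit 3210) (.e (nat_lit 57412) (nat_lit 12) (.e (nat_lit 336061) (nat_lit 7) (.e (nat_lit 319531) (nat_lit 16) (.e (nat_lit 286742) (nat_lit 9) (.e (nat_lit 335985) (nat_lit 1) (.e (nat_lit 57849) (nat_lit 252) (.e (nat_lit 57365) (nat_lit 1) (.e (nat_lit 57851) (nat_lit 252) .nil)))))))) (.g (nat_lit 6) .nil .nil)))) (.nd (nat_lit 5) 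
(.lf (nat_lit 156181) (.g (nat_lit 1965) (.e (nat_lit 57412) (nat_lit 12) (.e (nat_lit 336061) (nat_lit 7) (.e (nat_lit 319505) (nat_lit 10) (.e (nat_lit 720) (nat_lit 64) (.e (nat_lit 688178) (nat_lit 16) .nil))))) .nil)) 
(.lf (nat_lit 156213) (.g (nat_lit 1773) (.e (nat_lit 57412) (nat_lit 12) (.e (nat_lit 336061) (nat_lit 7) (.e (nat_lit 319531) (nat_lit 16) (.e (nat_lit 286748) (nat_lit 9) (.e (nat_lit 335985) (nat_lit 1) (.e (nat_lit 57848) (nat_lit 252) (.e (nat_lit 57365) (nat_lit 1) (.e (nat_lit 57851) (nat_lit 252) .nil)))))))) (.g (nat_lit 4) .nil .nil))))) (.nd (nat_lit 4) (.nd (nat_lit 5) 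
(.lf (nat_lit 156173) (.g (nat_lit 2257) (.e (nat_lit 57412) (nat_lit 12) (.e (nat_lit 336060) (nat_lit 7) (.e (nat_lit 319534) (nat_lit 16) (.e (nat_lit 286762) (nat_lit 14) (.e (nat_lit 401434) (nat_lit 9) (.e (nat_lit 426109) (nat_lit 1) (.e (nat_lit 164319) (nat_lit 228) .nil))))))) (.g (nat_lit 4) .nil .nil))) 
(.lf (nat_lit 156205) (.g (nat_lit 1373) (.e (nat_lit 57412) (nat_lit 12) (.e (nat_lit 336061) (nat_lit 7) (.e (nat_lit 319531) (nat_lit 16) (.e (nat_lit 286747) (nat_lit 9) .nil)))) .nil))) (.nd (nat_lit 5) 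
(.lf (nat_lit 156189) (.g (nat_lit 2694) (.e (nat_lit 57412) (nat_lit 12) (.e (nat_lit 336061) (nat_lit 7) (.e (nat_lit 319529) (nat_lit 16) (.e (nat_lit 286749) (nat_lit 9) (.e (nat_lit 335997) (nat_lit 1) (.e (nat_lit 57848) (nat_lit 252) (.e (nat_lit 57368) (nat_lit 1) (.e (nat_lit 57851) (nat_lit 252) .nil)))))))) (.g (nat_lit 5) .nil .nil))) 
(.lf (nat_lit 156221) (.g (nat_lit 3822) (.e (nat_lit 57412) (nat_lit 12) (.e (nat_lit 336061) (nat_lit 7) (.e (nat_lit 319531) (nat_lit 16) (.e (nat_lit 286748) (nat_lit 9) (.e (nat_lit 335992) (nat_lit 1) (.e (nat_lit 57847) (nat_lit 252) (.e (nat_lit 57365) (nat_lit 1) (.e (nat_lit 57851) (nat_lit 252) .nil)))))))) (.g (nat_lit 7) .nil .nil))))))) 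
(.nd (nat_lit 2) (.nd (nat_lit 3) (.nd (nat_lit 4) (.nd (nat_lit 5) 
(.lf (nat_lit 156163) (.g (nat_lit 2206) (.e (nat_lit 57412) (nat_lit 12) (.e (nat_lit 336058) (nat_lit 7) (.e (nat_lit 319534) (nat_lit 16) (.e (nat_lit 286756) (nat_lit 10) (.e (nat_lit 344160) (nat_lit 37) (.e (nat_lit 647200) (nat_lit 12) (.e (nat_lit 57352) (nat_lit 0) (.e (nat_lit 7263) (nat_lit 384) .nil)))))))) (.g (nat_lit 4) .nil .nil))) 
(.lf (nat_lit 156195) (.g (nat_lit 1568) (.e (nat_lit 57412) (nat_lit 12) (.e (nat_lit 336061) (nat_lit 7) (.e (nat_lit 319531) (nat_lit 16) (.e (nat_lit 286742) (nat_lit 9) .nil)))) .nil))) (.nd (nat_lit 5) 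
(.lf (nat_lit 156179) (.g (nat_lit 4405) (.e (nat_lit 57412) (nat_lit 12) (.e (nat_lit 336061) (nat_lit 7) (.e (nat_lit 319505) (nat_lit 10) (.e (nat_lit 720) (nat_lit 64) (.e (nat_lit 688177) (nat_lit 16) (.e (nat_lit 65617) (nat_lit 10) (.e (nat_lit 344096) (nat_lit 18) (.e (nat_lit 7261) (nat_lit 384) .nil)))))))) (.g (nat_lit 7) .nil .nil))) 
(.lf (nat_lit 156211) (.g (nat_lit 3599) (.e (nat_lit 57412) (nat_lit 12) (.e (nat_lit 336061) (nat_lit 7) (.e (nat_lit 319531) (nat_lit 16) (.e (nat_lit 286748) (nat_lit 9) (.e (nat_lit 335985) (nat_lit 1) (.e (nat_lit 57847) (nat_lit 252) (.e (nat_lit 57365) (nat_lit 1) (.e (nat_lit 57851) (nat_lit 252) .nil)))))))) (.g (nat_lit 7) .nil .nil))))) (.nd (nat_lit 4) (.nd (nat_lit 5) 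
(.lf (nat_lit 156171) (.g (nat_lit 2129) (.e (nat_lit 57412) (nat_lit 12) (.e (nat_lit 336060) (nat_lit 7) (.e (nat_lit 319534) (nat_lit 16) (.e (nat_lit 286756) (nat_lit 10) (.e (nat_lit 344160) (nat_lit 37) (.e (nat_lit 647200) (nat_lit 12) (.e (nat_lit 57352) (nat_lit 0) (.e (nat_lit 7263) (nat_lit 384) .nil)))))))) (.g (nat_lit 4) .nil .nil))) 
(.lf (nat_lit 156203) (.g (nat_lit 2167) (.e (nat_lit 57412) (nat_lit 12) (.e (nat_lit 336061) (nat_lit 7) (.e (nat_lit 319531) (nat_lit 16) (.e (nat_lit 286743) (nat_lit 9) (.e (nat_lit 336337) (nat_lit 20) (.e (nat_lit 229120) (nat_lit 1) (.e (nat_lit 57853) (nat_lit 252) .nil))))))) (.g (nat_lit 4) .nil .nil)))) (.nd (nat_lit 5) 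
(.lf (nat_lit 156187) (.g (nat_lit 1527) (.e (nat_lit 57412) (nat_lit 12) (.e (nat_lit 336061) (nat_lit 7) (.e (nat_lit 319529) (nat_lit 16) (.e (nat_lit 286749) (nat_lit 9) (.e (nat_lit 335997) (nat_lit 1) .nil))))) .nil)) 
(.lf (nat_lit 156219) (.g (nat_lit 1844) (.e (nat_lit 57412) (nat_lit 12) (.e (nat_lit 336061) (nat_lit 7) (.e (nat_lit 319531) (nat_lit 16) (.e (nat_lit 286748) (nat_lit 9) (.e (nat_lit 335990) (nat_lit 1) (.e (nat_lit 57851) (nat_lit 252) (.e (nat_lit 57364) (nat_lit 1) (.e (nat_lit 57851) (nat_lit 252) .nil)))))))) (.g (nat_lit 4) .nil .nil)))))) 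
(.nd (nat_lit 3) (.nd (nat_lit 4) (.nd (nat_lit 5) 
(.lf (nat_lit 156167) (.g (nat_lit 1756) (.e (nat_lit 57412) (nat_lit 12) (.e (nat_lit 336060) (nat_lit 7) (.e (nat_lit 319533) (nat_lit 16) (.e (nat_lit 286753) (nat_lit 10) (.e (nat_lit 344160) (nat_lit 37) (.e (nat_lit 647200) (nat_lit 12) (.e (nat_lit 57353) (nat_lit 0) (.e (nat_lit 7261) (nat_lit 384) .nil)))))))) (.g (nat_lit 4) .nil .nil))) 
(.lf (nat_lit 156199) (.g (nat_lit 1937) (.e (nat_lit 57412) (nat_lit 12) (.e (nat_lit 336061) (nat_lit 7) (.e (nat_lit 319531) (nat_lit 16) (.e (nat_lit 286743) (nat_lit 9) (.e (nat_lit 336337) (nat_lit 20) .nil))))) .nil))) (.nd (nat_lit 5) 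
(.lf (nat_lit 156183) (.g (nat_lit 2019) (.e (nat_lit 57412) (nat_lit 12) (.e (nat_lit 336061) (nat_lit 7) (.e (nat_lit 319524) (nat_lit 14) (.e (nat_lit 270354) (nat_lit 8) (.e (nat_lit 303131) (nat_lit 9) (.e (nat_lit 426109) (nat_lit 1) (.e (nat_lit 164319) (nat_lit 228) .nil))))))) (.g (nat_lit 0) .nil .nil))) 
(.lf (nat_lit 156215) (.g (nat_lit 1792) (.e (nat_lit 57412) (nat_lit 12) (.e (nat_lit 336061) (nat_lit 7) (.e (nat_lit 319531) (nat_lit 16) (.e (nat_lit 286748) (nat_lit 9) (.e (nat_lit 335985) (nat_lit 1) (.e (nat_lit 57851) (nat_lit 252) (.e (nat_lit 57364) (nat_lit 1) (.e (nat_lit 57851) (nat_lit 252) .nil)))))))) (.g (nat_lit 4) .nil .nil))))) (.nd (nat_lit 4) (.nd (nat_lit 5) 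
(.lf (nat_lit 156175) (.g (nat_lit 4676) (.e (nat_lit 57412) (nat_lit 12) (.e (nat_lit 336061) (nat_lit 7) (.e (nat_lit 319505) (nat_lit 10) (.e (nat_lit 618) (nat_lit 48) (.e (nat_lit 557098) (nat_lit 13) (.e (nat_lit 172115) (nat_lit 10) (.e (nat_lit 434202) (nat_lit 18) (.e (nat_lit 6830) (nat_lit 367) .nil)))))))) (.g (nat_lit 7) .nil .nil))) 
(.lf (nat_lit 156207) (.g (nat_lit 1657) (.e (nat_lit 57412) (nat_lit 12) (.e (nat_lit 336061) (nat_lit 7) (.e (nat_lit 319531) (nat_lit 16) (.e (nat_lit 286748) (nat_lit 9) (.e (nat_lit 335916) (nat_lit 0) .nil))))) .nil))) (.nd (nat_lit 5) 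
(.lf (nat_lit 156191) (.g (nat_lit 1579) (.e (nat_lit 57412) (nat_lit 12) (.e (nat_lit 336061) (nat_lit 7) (.e (nat_lit 319531) (nat_lit 16) (.e (nat_lit 286727) (nat_lit 0) (.e (nat_lit 6206) (nat_lit 333) (.e (nat_lit 57810) (nat_lit 246) (.e (nat_lit 57584) (nat_lit 61) (.e (nat_lit 5193) (nat_lit 294) .nil)))))))) (.g (nat_lit 4) .nil .nil))) 
(.lf (nat_lit 156223) (.g (nat_lit 2288) (.e (nat_lit 57412) (nat_lit 12) (.e (nat_lit 336061) (nat_lit 7) (.e (nat_lit 319531) (nat_lit 16) (.e (nat_lit 286749) (nat_lit 9) (.e (nat_lit 335997) (nat_lit 1) .nil))))) .nil))))))))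

noncomputable def tv2088 : DT := (.nd (nat_lit 0) (.nd (nat_lit 1) (.nd (nat_lit 2) (.nd (nat_lit 3) (.nd (nat_lit 4) (.nd (nat_lit 5) 
(.lf (nat_lit 156224) (.g (nat_lit 3436) (.e (nat_lit 57412) (nat_lit 12) (.e (nat_lit 336061) (nat_lit 7) (.e (nat_lit 319531) (nat_lit 16) (.e (nat_lit 286749) (nat_lit 9) (.e (nat_lit 335997) (nat_lit 1) (.e (nat_lit 57846) (nat_lit 252) (.e (nat_lit 57365) (nat_lit 1) (.e (nat_lit 57851) (nat_lit 252) .nil)))))))) (.g (nat_lit 5) .nil .nil))) 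
(.lf (nat_lit 156256) (.g (nat_lit 2518) (.e (nat_lit 57412) (nat_lit 12) (.e (nat_lit 336061) (nat_lit 7) (.e (nat_lit 319531) (nat_lit 16) (.e (nat_lit 286759) (nat_lit 12) (.e (nat_lit 385107) (nat_lit 51) (.e (nat_lit 802560) (nat_lit 1) (.e (nat_lit 57853) (nat_lit 252) .nil))))))) (.g (nat_lit 5) .nil .nil)))) (.nd (nat_lit 5) 
(.lf (nat_lit 156240) (.g (nat_lit 2347) (.e (nat_lit 57412) (nat_lit 12) (.e (nat_lit 336061) (nat_lit 7) (.e (nat_lit 319531) (nat_lit 16) (.e (nat_lit 286756) (nat_lit 10) (.e (nat_lit 344097) (nat_lit 18) .nil))))) .nil)) 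
(.lf (nat_lit 156272) (.g (nat_lit 2373) (.e (nat_lit 57412) (nat_lit 12) (.e (nat_lit 336061) (nat_lit 7) (.e (nat_lit 319533) (nat_lit 16) (.e (nat_lit 286753) (nat_lit 10) (.e (nat_lit 344097) (nat_lit 18) .nil))))) .nil)))) (.nd (nat_lit 4) (.nd (nat_lit 5) 
(.lf (nat_lit 156232) (.g (nat_lit 3573) (.e (nat_lit 57412) (nat_lit 12) (.e (nat_lit 336061) (nat_lit 7) (.e (nat_lit 319531) (nat_lit 16) (.e (nat_lit 286753) (nat_lit 10) (.e (nat_lit 344097) (nat_lit 18) (.e (nat_lit 5195) (nat_lit 294) (.e (nat_lit 57365) (nat_lit 1) (.e (nat_lit 57851) (nat_lit 252) .nil)))))))) (.g (nat_lit 6) .nil .nil))) 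
(.lf (nat_lit 156264) (.g (nat_lit 3954) (.e (nat_lit 57412) (nat_lit 12) (.e (nat_lit 336061) (nat_lit 7) (.e (nat_lit 319531) (nat_lit 16) (.e (nat_lit 286767) (nat_lit 27) (.e (nat_lit 426107) (nat_lit 1) (.e (nat_lit 164326) (nat_lit 230) (.e (nat_lit 163864) (nat_lit 1) (.e (nat_lit 164401) (nat_lit 256) .nil)))))))) (.g (nat_lit 6) .nil .nil)))) (.nd (nat_lit 5) 
(.lf (nat_lit 156248) (.g (nat_lit 1801) (.e (nat_lit 57412) (nat_lit 12) (.e (nat_lit 336061) (nat_lit 7) (.e (nat_lit 319531) (nat_lit 16) (.e (nat_lit 286757) (nat_lit 11) .nil)))) .nil)) 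
(.lf (nat_lit 156280) (.g (nat_lit 2900) (.e (nat_lit 57412) (nat_lit 12) (.e (nat_lit 336061) (nat_lit 7) (.e (nat_lit 319533) (nat_lit 16) (.e (nat_lit 286762) (nat_lit 14) (.e (nat_lit 401434) (nat_lit 9) (.e (nat_lit 426109) (nat_lit 1) (.e (nat_lit 164319) (nat_lit 228) .nil))))))) (.g (nat_lit 4) .nil .nil)))))) (.nd (nat_lit 3) (.nd (nat_lit 4) (.nd (nat_lit 5) 
(.lf (nat_lit 156228) (.g (nat_lit 2646) (.e (nat_lit 57412) (nat_lit 12) (.e (nat_lit 336061) (nat_lit 7) (.e (nat_lit 319531) (nat_lit 16) (.e (nat_lit 286751) (nat_lit 10) (.e (nat_lit 344160) (nat_lit 37) (.e (nat_lit 647201) (nat_lit 12) (.e (nat_lit 57351) (nat_lit 0) (.e (nat_lit 7263) (nat_lit 384) .nil)))))))) (.g (nat_lit 5) .nil .nil))) 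
(.lf (nat_lit 156260) (.g (nat_lit 1805) (.e (nat_lit 57412) (nat_lit 12) (.e (nat_lit 336061) (nat_lit 7) (.e (nat_lit 319531) (nat_lit 16) (.e (nat_lit 286767) (nat_lit 27) .nil)))) .nil))) (.nd (nat_lit 5) 
(.lf (nat_lit 156244) (.g (nat_lit 2676) (.e (nat_lit 57412) (nat_lit 12) (.e (nat_lit 336061) (nat_lit 7) (.e (nat_lit 319531) (nat_lit 16) (.e (nat_lit 286756) (nat_lit 10) (.e (nat_lit 344160) (nat_lit 37) (.e (nat_lit 647200) (nat_lit 12) (.e (nat_lit 57352) (nat_lit 0) (.e (nat_lit 7263) (nat_lit 384) .nil)))))))) (.g (nat_lit 4) .nil .nil))) 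
(.lf (nat_lit 156276) (.g (nat_lit 2564) (.e (nat_lit 57412) (nat_lit 12) (.e (nat_lit 336061) (nat_lit 7) (.e (nat_lit 319533) (nat_lit 16) (.e (nat_lit 286753) (nat_lit 10) (.e (nat_lit 344160) (nat_lit 37) (.e (nat_lit 647200) (nat_lit 12) (.e (nat_lit 57352) (nat_lit 0) (.e (nat_lit 7263) (nat_lit 384) .nil)))))))) (.g (nat_lit 4) .nil .nil))))) (.nd (nat_lit 4) (.nd (nat_lit 5) 
(.lf (nat_lit 156236) (.g (nat_lit 3356) (.e (nat_lit 57412) (nat_lit 12) (.e (nat_lit 336061) (nat_lit 7) (.e (nat_lit 319531) (nat_lit 16) (.e (nat_lit 286755) (nat_lit 10) (.e (nat_lit 344097) (nat_lit 18) (.e (nat_lit 5195) (nat_lit 294) (.e (nat_lit 57368) (nat_lit 1) (.e (nat_lit 57851) (nat_lit 252) .nil)))))))) (.g (nat_lit 6) .nil .nil))) 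
(.lf (nat_lit 156268) (.g (nat_lit 2694) (.e (nat_lit 57412) (nat_lit 12) (.e (nat_lit 336061) (nat_lit 7) (.e (nat_lit 319532) (nat_lit 16) (.e (nat_lit 286749) (nat_lit 9) (.e (nat_lit 335997) (nat_lit 1) (.e (nat_lit 57848) (nat_lit 252) (.e (nat_lit 57365) (nat_lit 1) (.e (nat_lit 57851) (nat_lit 252) .nil)))))))) (.g (nat_lit 5) .nil .nil)))) (.nd (nat_lit 5) 
(.lf (nat_lit 156252) (.g (nat_lit 3049) (.e (nat_lit 57412) (nat_lit 12) (.e (nat_lit 336061) (nat_lit 7) (.e (nat_lit 319531) (nat_lit 16) (.e (nat_lit 286759) (nat_lit 12) (.e (nat_lit 385094) (nat_lit 49) (.e (nat_lit 778318) (nat_lit 3) (.e (nat_lit 57354) (nat_lit 0) (.e (nat_lit 6390) (nat_lit 339) .nil)))))))) (.g (nat_lit 5) .nil .nil))) 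
(.lf (nat_lit 156284) (.g (nat_lit 2852) (.e (nat_lit 57412) (nat_lit 12) (.e (nat_lit 336061) (nat_lit 7) (.e (nat_lit 319534) (nat_lit 16) (.e (nat_lit 286749) (nat_lit 9) (.e (nat_lit 335997) (nat_lit 1) (.e (nat_lit 57844) (nat_lit 252) (.e (nat_lit 57364) (nat_lit 1) (.e (nat_lit 57851) (nat_lit 252) .nil)))))))) (.g (nat_lit 4) .nil .nil))))))) 
(.nd (nat_lit 2) (.nd (nat_lit 3) (.nd (nat_lit 4) (.nd (nat_lit 5) 
(.lf (nat_lit 156226) (.g (nat_lit 1772) (.e (nat_lit 57412) (nat_lit 12) (.e (nat_lit 336061) (nat_lit 7) (.e (nat_lit 319531) (nat_lit 16) (.e (nat_lit 286750) (nat_lit 9) .nil)))) .nil)) 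
(.lf (nat_lit 156258) (.g (nat_lit 2445) (.e (nat_lit 57412) (nat_lit 12) (.e (nat_lit 336061) (nat_lit 7) (.e (nat_lit 319531) (nat_lit 16) (.e (nat_lit 286762) (nat_lit 14) (.e (nat_lit 401436) (nat_lit 9) (.e (nat_lit 426112) (nat_lit 1) (.e (nat_lit 164319) (nat_lit 228) .nil))))))) (.g (nat_lit 4) .nil .nil)))) (.nd (nat_lit 5) 
(.lf (nat_lit 156242) (.g (nat_lit 2651) (.e (nat_lit 57412) (nat_lit 12) (.e (nat_lit 336061) (nat_lit 7) (.e (nat_lit 319531) (nat_lit 16) (.e (nat_lit 286756) (nat_lit 10) (.e (nat_lit 344160) (nat_lit 37) (.e (nat_lit 647200) (nat_lit 12) (.e (nat_lit 57348) (nat_lit 0) (.e (nat_lit 7263) (nat_lit 384) .nil)))))))) (.g (nat_lit 4) .nil .nil))) 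
(.lf (nat_lit 156274) (.g (nat_lit 2588) (.e (nat_lit 57412) (nat_lit 12) (.e (nat_lit 336061) (nat_lit 7) (.e (nat_lit 319533) (nat_lit 16) (.e (nat_lit 286753) (nat_lit 10) (.e (nat_lit 344160) (nat_lit 37) (.e (nat_lit 647200) (nat_lit 12) (.e (nat_lit 57348) (nat_lit 0) (.e (nat_lit 7263) (nat_lit 384) .nil)))))))) (.g (nat_lit 4) .nil .nil))))) (.nd (nat_lit 4) (.nd (nat_lit 5) 
(.lf (nat_lit 156234) (.g (nat_lit 3796) (.e (nat_lit 57412) (nat_lit 12) (.e (nat_lit 336061) (nat_lit 7) (.e (nat_lit 319531) (nat_lit 16) (.e (nat_lit 286753) (nat_lit 10) (.e (nat_lit 344160) (nat_lit 37) (.e (nat_lit 647201) (nat_lit 12) (.e (nat_lit 57351) (nat_lit 0) (.e (nat_lit 7265) (nat_lit 384) .nil)))))))) (.g (nat_lit 6) .nil .nil))) 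
(.lf (nat_lit 156266) (.g (nat_lit 3465) (.e (nat_lit 57412) (nat_lit 12) (.e (nat_lit 336061) (nat_lit 7) (.e (nat_lit 319531) (nat_lit 16) (.e (nat_lit 286767) (nat_lit 27) (.e (nat_lit 426107) (nat_lit 1) (.e (nat_lit 164327) (nat_lit 230) (.e (nat_lit 163864) (nat_lit 1) (.e (nat_lit 164401) (nat_lit 256) .nil)))))))) (.g (nat_lit 5) .nil .nil)))) (.nd (nat_lit 5) 
(.lf (nat_lit 156250) (.g (nat_lit 2968) (.e (nat_lit 57412) (nat_lit 12) (.e (nat_lit 336061) (nat_lit 7) (.e (nat_lit 319531) (nat_lit 16) (.e (nat_lit 286759) (nat_lit 12) (.e (nat_lit 385094) (nat_lit 49) (.e (nat_lit 778246) (nat_lit 0) (.e (nat_lit 1183) (nat_lit 87) (.e (nat_lit 57735) (nat_lit 183) .nil)))))))) (.g (nat_lit 5) .nil .nil))) 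
(.lf (nat_lit 156282) (.g (nat_lit 2151) (.e (nat_lit 57412) (nat_lit 12) (.e (nat_lit 336061) (nat_lit 7) (.e (nat_lit 319534) (nat_lit 16) (.e (nat_lit 286747) (nat_lit 9) .nil)))) .nil))))) (.nd (nat_lit 3) (.nd (nat_lit 4) (.nd (nat_lit 5) 
(.lf (nat_lit 156230) (.g (nat_lit 1801) (.e (nat_lit 57412) (nat_lit 12) (.e (nat_lit 336061) (nat_lit 7) (.e (nat_lit 319531) (nat_lit 16) (.e (nat_lit 286753) (nat_lit 10) .nil)))) .nil)) 
(.lf (nat_lit 156262) (.g (nat_lit 3824) (.e (nat_lit 57412) (nat_lit 12) (.e (nat_lit 336061) (nat_lit 7) (.e (nat_lit 319531) (nat_lit 16) (.e (nat_lit 286767) (nat_lit 27) (.e (nat_lit 426098) (nat_lit 1) (.e (nat_lit 164325) (nat_lit 230) (.e (nat_lit 163861) (nat_lit 1) (.e (nat_lit 164401) (nat_lit 256) .nil)))))))) (.g (nat_lit 6) .nil .nil)))) (.nd (nat_lit 5) 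
(.lf (nat_lit 156246) (.g (nat_lit 2393) (.e (nat_lit 57412) (nat_lit 12) (.e (nat_lit 336061) (nat_lit 7) (.e (nat_lit 319531) (nat_lit 16) (.e (nat_lit 286756) (nat_lit 10) (.e (nat_lit 344160) (nat_lit 37) (.e (nat_lit 647201) (nat_lit 12) (.e (nat_lit 57353) (nat_lit 0) (.e (nat_lit 7261) (nat_lit 384) .nil)))))))) (.g (nat_lit 4) .nil .nil))) 
(.lf (nat_lit 156278) (.g (nat_lit 2788) (.e (nat_lit 57412) (nat_lit 12) (.e (nat_lit 336061) (nat_lit 7) (.e (nat_lit 319533) (nat_lit 16) (.e (nat_lit 286753) (nat_lit 10) (.e (nat_lit 344160) (nat_lit 37) (.e (nat_lit 647200) (nat_lit 12) (.e (nat_lit 57353) (nat_lit 0) (.e (nat_lit 7265) (nat_lit 384) .nil)))))))) (.g (nat_lit 4) .nil .nil))))) (.nd (nat_lit 4) (.nd (nat_lit 5) 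
(.lf (nat_lit 156238) (.g (nat_lit 2548) (.e (nat_lit 57412) (nat_lit 12) (.e (nat_lit 336061) (nat_lit 7) (.e (nat_lit 319531) (nat_lit 16) (.e (nat_lit 286755) (nat_lit 10) (.e (nat_lit 344161) (nat_lit 37) (.e (nat_lit 647201) (nat_lit 12) (.e (nat_lit 57351) (nat_lit 0) (.e (nat_lit 7265) (nat_lit 384) .nil)))))))) (.g (nat_lit 5) .nil .nil))) 
(.lf (nat_lit 156270) (.g (nat_lit 1812) (.e (nat_lit 57412) (nat_lit 12) (.e (nat_lit 336061) (nat_lit 7) (.e (nat_lit 319533) (nat_lit 16) (.e (nat_lit 286749) (nat_lit 9) .nil)))) .nil))) (.nd (nat_lit 5) 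
(.lf (nat_lit 156254) (.g (nat_lit 1897) (.e (nat_lit 57412) (nat_lit 12) (.e (nat_lit 336061) (nat_lit 7) (.e (nat_lit 319531) (nat_lit 16) (.e (nat_lit 286759) (nat_lit 12) (.e (nat_lit 385107) (nat_lit 51) (.e (nat_lit 802560) (nat_lit 1) (.e (nat_lit 57846) (nat_lit 252) .nil))))))) (.g (nat_lit 4) .nil .nil))) 
(.lf (nat_lit 156286) (.g (nat_lit 3529) (.e (nat_lit 57412) (nat_lit 12) (.e (nat_lit 336061) (nat_lit 7) (.e (nat_lit 319534) (nat_lit 16) (.e (nat_lit 286749) (nat_lit 9) (.e (nat_lit 335997) (nat_lit 1) (.e (nat_lit 57847) (nat_lit 252) (.e (nat_lit 57365) (nat_lit 1) (.e (nat_lit 57851) (nat_lit 252) .nil)))))))) (.g (nat_lit 5) .nil .nil)))))))) 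
(.nd (nat_lit 1) (.nd (nat_lit 2) (.nd (nat_lit 3) (.nd (nat_lit 4) (.nd (nat_lit 5) 
(.lf (nat_lit 156225) (.g (nat_lit 2317) (.e (nat_lit 57412) (nat_lit 12) (.e (nat_lit 336061) (nat_lit 7) (.e (nat_lit 319531) (nat_lit 16) (.e (nat_lit 286749) (nat_lit 9) (.e (nat_lit 335997) (nat_lit 1) (.e (nat_lit 57849) (nat_lit 252) (.e (nat_lit 57368) (nat_lit 1) (.e (nat_lit 57851) (nat_lit 252) .nil)))))))) (.g (nat_lit 4) .nil .nil))) 
(.lf (nat_lit 156257) (.g (nat_lit 1999) (.e (nat_lit 57412) (nat_lit 12) (.e (nat_lit 336061) (nat_lit 7) (.e (nat_lit 319531) (nat_lit 16) (.e (nat_lit 286759) (nat_lit 12) (.e (nat_lit 385115) (nat_lit 53) .nil))))) .nil))) (.nd (nat_lit 5) 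
(.lf (nat_lit 156241) (.g (nat_lit 2310) (.e (nat_lit 57412) (nat_lit 12) (.e (nat_lit 336061) (nat_lit 7) (.e (nat_lit 319531) (nat_lit 16) (.e (nat_lit 286756) (nat_lit 10) (.e (nat_lit 344160) (nat_lit 37) .nil))))) .nil)) 
(.lf (nat_lit 156273) (.g (nat_lit 2261) (.e (nat_lit 57412) (nat_lit 12) (.e (nat_lit 336061) (nat_lit 7) (.e (nat_lit 319533) (nat_lit 16) (.e (nat_lit 286753) (nat_lit 10) (.e (nat_lit 344160) (nat_lit 37) .nil))))) .nil)))) (.nd (nat_lit 4) (.nd (nat_lit 5) 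
(.lf (nat_lit 156233) (.g (nat_lit 3780) (.e (nat_lit 57412) (nat_lit 12) (.e (nat_lit 336061) (nat_lit 7) (.e (nat_lit 319531) (nat_lit 16) (.e (nat_lit 286753) (nat_lit 10) (.e (nat_lit 344160) (nat_lit 37) (.e (nat_lit 647201) (nat_lit 12) (.e (nat_lit 57351) (nat_lit 0) (.e (nat_lit 7261) (nat_lit 384) .nil)))))))) (.g (nat_lit 6) .nil .nil))) 
(.lf (nat_lit 156265) (.g (nat_lit 3371) (.e (nat_lit 57412) (nat_lit 12) (.e (nat_lit 336061) (nat_lit 7) (.e (nat_lit 319531) (nat_lit 16) (.e (nat_lit 286767) (nat_lit 27) (.e (nat_lit 426107) (nat_lit 1) (.e (nat_lit 164327) (nat_lit 230) (.e (nat_lit 163863) (nat_lit 1) (.e (nat_lit 164401) (nat_lit 256) .nil)))))))) (.g (nat_lit 5) .nil .nil)))) (.nd (nat_lit 5) 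
(.lf (nat_lit 156249) (.g (nat_lit 1069) (.e (nat_lit 57412) (nat_lit 12) (.e (nat_lit 336061) (nat_lit 7) (.e (nat_lit 319531) (nat_lit 16) (.e (nat_lit 286759) (nat_lit 12) .nil)))) .nil)) 
(.lf (nat_lit 156281) (.g (nat_lit 2178) (.e (nat_lit 57412) (nat_lit 12) (.e (nat_lit 336061) (nat_lit 7) (.e (nat_lit 319534) (nat_lit 16) (.e (nat_lit 286740) (nat_lit 7) .nil)))) .nil))))) (.nd (nat_lit 3) (.nd (nat_lit 4) (.nd (nat_lit 5) 
(.lf (nat_lit 156229) (.g (nat_lit 1801) (.e (nat_lit 57412) (nat_lit 12) (.e (nat_lit 336061) (nat_lit 7) (.e (nat_lit 319531) (nat_lit 16) (.e (nat_lit 286752) (nat_lit 10) .nil)))) .nil)) 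
(.lf (nat_lit 156261) (.g (nat_lit 3246) (.e (nat_lit 57412) (nat_lit 12) (.e (nat_lit 336061) (nat_lit 7) (.e (nat_lit 319531) (nat_lit 16) (.e (nat_lit 286767) (nat_lit 27) (.e (nat_lit 426098) (nat_lit 1) (.e (nat_lit 164325) (nat_lit 230) (.e (nat_lit 163861) (nat_lit 1) (.e (nat_lit 164400) (nat_lit 256) .nil)))))))) (.g (nat_lit 5) .nil .nil)))) (.nd (nat_lit 5) 
(.lf (nat_lit 156245) (.g (nat_lit 2346) (.e (nat_lit 57412) (nat_lit 12) (.e (nat_lit 336061) (nat_lit 7) (.e (nat_lit 319531) (nat_lit 16) (.e (nat_lit 286756) (nat_lit 10) (.e (nat_lit 344160) (nat_lit 37) (.e (nat_lit 647201) (nat_lit 12) (.e (nat_lit 57352) (nat_lit 0) (.e (nat_lit 7261) (nat_lit 384) .nil)))))))) (.g (nat_lit 4) .nil .nil))) 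
(.lf (nat_lit 156277) (.g (nat_lit 2713) (.e (nat_lit 57412) (nat_lit 12) (.e (nat_lit 336061) (nat_lit 7) (.e (nat_lit 319533) (nat_lit 16) (.e (nat_lit 286753) (nat_lit 10) (.e (nat_lit 344160) (nat_lit 37) (.e (nat_lit 647200) (nat_lit 12) (.e (nat_lit 57353) (nat_lit 0) (.e (nat_lit 7261) (nat_lit 384) .nil)))))))) (.g (nat_lit 4) .nil .nil))))) (.nd (nat_lit 4) (.nd (nat_lit 5) 
(.lf (nat_lit 156237) (.g (nat_lit 2530) (.e (nat_lit 57412) (nat_lit 12) (.e (nat_lit 336061) (nat_lit 7) (.e (nat_lit 319531) (nat_lit 16) (.e (nat_lit 286755) (nat_lit 10) (.e (nat_lit 344161) (nat_lit 37) (.e (nat_lit 647201) (nat_lit 12) (.e (nat_lit 57351) (nat_lit 0) (.e (nat_lit 7261) (nat_lit 384) .nil)))))))) (.g (nat_lit 5) .nil .nil))) 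
(.lf (nat_lit 156269) (.g (nat_lit 2694) (.e (nat_lit 57412) (nat_lit 12) (.e (nat_lit 336061) (nat_lit 7) (.e (nat_lit 319532) (nat_lit 16) (.e (nat_lit 286749) (nat_lit 9) (.e (nat_lit 335997) (nat_lit 1) (.e (nat_lit 57848) (nat_lit 252) (.e (nat_lit 57368) (nat_lit 1) (.e (nat_lit 57851) (nat_lit 252) .nil)))))))) (.g (nat_lit 5) .nil .nil)))) (.nd (nat_lit 5) 
(.lf (nat_lit 156253) (.g (nat_lit 3190) (.e (nat_lit 57412) (nat_lit 12) (.e (nat_lit 336061) (nat_lit 7) (.e (nat_lit 319531) (nat_lit 16) (.e (nat_lit 286759) (nat_lit 12) (.e (nat_lit 385094) (nat_lit 49) (.e (nat_lit 778583) (nat_lit 17) (.e (nat_lit 164080) (nat_lit 61) (.e (nat_lit 6393) (nat_lit 339) .nil)))))))) (.g (nat_lit 5) .nil .nil))) 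
(.lf (nat_lit 156285) (.g (nat_lit 3394) (.e (nat_lit 57412) (nat_lit 12) (.e (nat_lit 336061) (nat_lit 7) (.e (nat_lit 319534) (nat_lit 16) (.e (nat_lit 286749) (nat_lit 9) (.e (nat_lit 335997) (nat_lit 1) (.e (nat_lit 57846) (nat_lit 252) (.e (nat_lit 57365) (nat_lit 1) (.e (nat_lit 57851) (nat_lit 252) .nil)))))))) (.g (nat_lit 5) .nil .nil))))))) 
(.nd (nat_lit 2) (.nd (nat_lit 3) (.nd (nat_lit 4) (.nd (nat_lit 5) 
(.lf (nat_lit 156227) (.g (nat_lit 1529) (.e (nat_lit 57412) (nat_lit 12) (.e (nat_lit 336061) (nat_lit 7) (.e (nat_lit 319531) (nat_lit 16) (.e (nat_lit 286751) (nat_lit 10) .nil)))) .nil)) 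
(.lf (nat_lit 156259) (.g (nat_lit 2626) (.e (nat_lit 57412) (nat_lit 12) (.e (nat_lit 336061) (nat_lit 7) (.e (nat_lit 319531) (nat_lit 16) (.e (nat_lit 286762) (nat_lit 14) (.e (nat_lit 401442) (nat_lit 9) .nil))))) .nil))) (.nd (nat_lit 5) 
(.lf (nat_lit 156243) (.g (nat_lit 3158) (.e (nat_lit 57412) (nat_lit 12) (.e (nat_lit 336061) (nat_lit 7) (.e (nat_lit 319531) (nat_lit 16) (.e (nat_lit 286756) (nat_lit 10) (.e (nat_lit 344160) (nat_lit 37) (.e (nat_lit 647200) (nat_lit 12) (.e (nat_lit 57348) (nat_lit 0) (.e (nat_lit 7265) (nat_lit 384) .nil)))))))) (.g (nat_lit 5) .nil .nil))) 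
(.lf (nat_lit 156275) (.g (nat_lit 2849) (.e (nat_lit 57412) (nat_lit 12) (.e (nat_lit 336061) (nat_lit 7) (.e (nat_lit 319533) (nat_lit 16) (.e (nat_lit 286753) (nat_lit 10) (.e (nat_lit 344160) (nat_lit 37) (.e (nat_lit 647200) (nat_lit 12) (.e (nat_lit 57352) (nat_lit 0) (.e (nat_lit 7261) (nat_lit 384) .nil)))))))) (.g (nat_lit 4) .nil .nil))))) (.nd (nat_lit 4) (.nd (nat_lit 5) 
(.lf (nat_lit 156235) (.g (nat_lit 3274) (.e (nat_lit 57412) (nat_lit 12) (.e (nat_lit 336061) (nat_lit 7) (.e (nat_lit 319531) (nat_lit 16) (.e (nat_lit 286755) (nat_lit 10) (.e (nat_lit 344097) (nat_lit 18) (.e (nat_lit 5195) (nat_lit 294) (.e (nat_lit 57367) (nat_lit 1) (.e (nat_lit 57844) (nat_lit 252) .nil)))))))) (.g (nat_lit 6) .nil .nil))) 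
(.lf (nat_lit 156267) (.g (nat_lit 1527) (.e (nat_lit 57412) (nat_lit 12) (.e (nat_lit 336061) (nat_lit 7) (.e (nat_lit 319532) (nat_lit 16) (.e (nat_lit 286749) (nat_lit 9) (.e (nat_lit 335997) (nat_lit 1) .nil))))) .nil))) (.nd (nat_lit 5) 
(.lf (nat_lit 156251) (.g (nat_lit 3156) (.e (nat_lit 57412) (nat_lit 12) (.e (nat_lit 336061) (nat_lit 7) (.e (nat_lit 319531) (nat_lit 16) (.e (nat_lit 286759) (nat_lit 12) (.e (nat_lit 385094) (nat_lit 49) (.e (nat_lit 778317) (nat_lit 3) (.e (nat_lit 57354) (nat_lit 0) (.e (nat_lit 6390) (nat_lit 339) .nil)))))))) (.g (nat_lit 5) .nil .nil))) 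
(.lf (nat_lit 156283) (.g (nat_lit 2288) (.e (nat_lit 57412) (nat_lit 12) (.e (nat_lit 336061) (nat_lit 7) (.e (nat_lit 319534) (nat_lit 16) (.e (nat_lit 286749) (nat_lit 9) (.e (nat_lit 335997) (nat_lit 1) .nil))))) .nil))))) (.nd (nat_lit 3) (.nd (nat_lit 4) (.nd (nat_lit 5) 
(.lf (nat_lit 156231) (.g (nat_lit 2357) (.e (nat_lit 57412) (nat_lit 12) (.e (nat_lit 336061) (nat_lit 7) (.e (nat_lit 319531) (nat_lit 16) (.e (nat_lit 286753) (nat_lit 10) (.e (nat_lit 344097) (nat_lit 18) .nil))))) .nil)) 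
(.lf (nat_lit 156263) (.g (nat_lit 3488) (.e (nat_lit 57412) (nat_lit 12) (.e (nat_lit 336061) (nat_lit 7) (.e (nat_lit 319531) (nat_lit 16) (.e (nat_lit 286767) (nat_lit 27) (.e (nat_lit 426107) (nat_lit 1) (.e (nat_lit 164325) (nat_lit 230) (.e (nat_lit 163861) (nat_lit 1) (.e (nat_lit 164401) (nat_lit 256) .nil)))))))) (.g (nat_lit 5) .nil .nil)))) (.nd (nat_lit 5) 
(.lf (nat_lit 156247) (.g (nat_lit 2419) (.e (nat_lit 57412) (nat_lit 12) (.e (nat_lit 336061) (nat_lit 7) (.e (nat_lit 319531) (nat_lit 16) (.e (nat_lit 286756) (nat_lit 10) (.e (nat_lit 344160) (nat_lit 37) (.e (nat_lit 647201) (nat_lit 12) (.e (nat_lit 57353) (nat_lit 0) (.e (nat_lit 7265) (nat_lit 384) .nil)))))))) (.g (nat_lit 4) .nil .nil))) 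
(.lf (nat_lit 156279) (.g (nat_lit 1614) (.e (nat_lit 57412) (nat_lit 12) (.e (nat_lit 336061) (nat_lit 7) (.e (nat_lit 319533) (nat_lit 16) (.e (nat_lit 286754) (nat_lit 10) .nil)))) .nil)))) (.nd (nat_lit 4) (.nd (nat_lit 5) 
(.lf (nat_lit 156239) (.g (nat_lit 1406) (.e (nat_lit 57412) (nat_lit 12) (.e (nat_lit 336061) (nat_lit 7) (.e (nat_lit 319531) (nat_lit 16) (.e (nat_lit 286756) (nat_lit 10) .nil)))) .nil)) 
(.lf (nat_lit 156271) (.g (nat_lit 1812) (.e (nat_lit 57412) (nat_lit 12) (.e (nat_lit 336061) (nat_lit 7) (.e (nat_lit 319533) (nat_lit 16) (.e (nat_lit 286751) (nat_lit 10) .nil)))) .nil))) (.nd (nat_lit 5) 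
(.lf (nat_lit 156255) (.g (nat_lit 2472) (.e (nat_lit 57412) (nat_lit 12) (.e (nat_lit 336061) (nat_lit 7) (.e (nat_lit 319531) (nat_lit 16) (.e (nat_lit 286759) (nat_lit 12) (.e (nat_lit 385107) (nat_lit 51) (.e (nat_lit 802560) (nat_lit 1) (.e (nat_lit 57850) (nat_lit 252) .nil))))))) (.g (nat_lit 5) .nil .nil))) 
(.lf (nat_lit 156287) (.g (nat_lit 2259) (.e (nat_lit 57412) (nat_lit 12) (.e (nat_lit 336061) (nat_lit 7) (.e (nat_lit 319534) (nat_lit 16) (.e (nat_lit 286750) (nat_lit 9) .nil)))) .nil))))))))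

noncomputable def tv2089 : DT := (.nd (nat_lit 0) (.nd (nat_lit 1) (.nd (nat_lit 2) (.nd (nat_lit 3) (.nd (nat_lit 4) (.nd (nat_lit 5) 
(.lf (nat_lit 156288) (.g (nat_lit 2248) (.e (nat_lit 57412) (nat_lit 12) (.e (nat_lit 336061) (nat_lit 7) (.e (nat_lit 319534) (nat_lit 16) (.e (nat_lit 286751) (nat_lit 10) .nil)))) .nil)) 
(.lf (nat_lit 156320) (.g (nat_lit 2259) (.e (nat_lit 57412) (nat_lit 12) (.e (nat_lit 336099) (nat_lit 9) (.e (nat_lit 335997) (nat_lit 1) (.e (nat_lit 57681) (nat_lit 155) (.e (nat_lit 122919) (nat_lit 15) (.e (nat_lit 360450) (nat_lit 0) (.e (nat_lit 7263) (nat_lit 384) .nil))))))) (.g (nat_lit 4) .nil .nil)))) (.nd (nat_lit 5) 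
(.lf (nat_lit 156304) (.g (nat_lit 3010) (.e (nat_lit 57412) (nat_lit 12) (.e (nat_lit 336061) (nat_lit 7) (.e (nat_lit 319534) (nat_lit 16) (.e (nat_lit 286756) (nat_lit 10) (.e (nat_lit 344160) (nat_lit 37) (.e (nat_lit 647200) (nat_lit 12) (.e (nat_lit 57353) (nat_lit 0) (.e (nat_lit 7265) (nat_lit 384) .nil)))))))) (.g (nat_lit 4) .nil .nil))) 
(.lf (nat_lit 156336) (.g (nat_lit 3489) (.e (nat_lit 57412) (nat_lit 12) (.e (nat_lit 336173) (nat_lit 10) (.e (nat_lit 344156) (nat_lit 36) (.e (nat_lit 638998) (nat_lit 8) (.e (nat_lit 172097) (nat_lit 9) (.e (nat_lit 426109) (nat_lit 1) (.e (nat_lit 164319) (nat_lit 228) .nil))))))) (.g (nat_lit 0) .nil .nil))))) (.nd (nat_lit 4) (.nd (nat_lit 5) 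
(.lf (nat_lit 156296) (.g (nat_lit 2382) (.e (nat_lit 57412) (nat_lit 12) (.e (nat_lit 336061) (nat_lit 7) (.e (nat_lit 319534) (nat_lit 16) (.e (nat_lit 286756) (nat_lit 10) (.e (nat_lit 344097) (nat_lit 18) .nil))))) .nil)) 
(.lf (nat_lit 156328) (.g (nat_lit 407) (.e (nat_lit 57412) (nat_lit 12) (.e (nat_lit 336173) (nat_lit 10) (.e (nat_lit 344123) (nat_lit 24) .nil))) .nil))) (.nd (nat_lit 5) 
(.lf (nat_lit 156312) (.g (nat_lit 1994) (.e (nat_lit 57412) (nat_lit 12) (.e (nat_lit 336061) (nat_lit 7) (.e (nat_lit 319539) (nat_lit 19) (.e (nat_lit 311358) (nat_lit 29) (.e (nat_lit 352316) (nat_lit 24) (.e (nat_lit 123194) (nat_lit 266) .nil)))))) (.g (nat_lit 4) .nil .nil))) 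
(.lf (nat_lit 156344) (.g (nat_lit 1486) (.e (nat_lit 57412) (nat_lit 12) (.e (nat_lit 336173) (nat_lit 10) (.e (nat_lit 344177) (nat_lit 43) (.e (nat_lit 770055) (nat_lit 5) (.e (nat_lit 1595) (nat_lit 111) .nil))))) .nil))))) (.nd (nat_lit 3) (.nd (nat_lit 4) (.nd (nat_lit 5) 
(.lf (nat_lit 156292) (.g (nat_lit 3359) (.e (nat_lit 57412) (nat_lit 12) (.e (nat_lit 336061) (nat_lit 7) (.e (nat_lit 319534) (nat_lit 16) (.e (nat_lit 286753) (nat_lit 10) (.e (nat_lit 344160) (nat_lit 37) (.e (nat_lit 647201) (nat_lit 12) (.e (nat_lit 57351) (nat_lit 0) (.e (nat_lit 7261) (nat_lit 384) .nil)))))))) (.g (nat_lit 4) .nil .nil))) 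
(.lf (nat_lit 156324) (.g (nat_lit 257) (.e (nat_lit 57412) (nat_lit 12) (.e (nat_lit 336099) (nat_lit 9) (.e (nat_lit 336013) (nat_lit 2) .nil))) .nil))) (.nd (nat_lit 5) 
(.lf (nat_lit 156308) (.g (nat_lit 2489) (.e (nat_lit 57412) (nat_lit 12) (.e (nat_lit 336061) (nat_lit 7) (.e (nat_lit 319534) (nat_lit 16) (.e (nat_lit 286762) (nat_lit 14) (.e (nat_lit 401436) (nat_lit 9) .nil))))) .nil)) 
(.lf (nat_lit 156340) (.g (nat_lit 422) (.e (nat_lit 57412) (nat_lit 12) (.e (nat_lit 336173) (nat_lit 10) (.e (nat_lit 344174) (nat_lit 42) .nil))) .nil)))) (.nd (nat_lit 4) (.nd (nat_lit 5) 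
(.lf (nat_lit 156300) (.g (nat_lit 2726) (.e (nat_lit 57412) (nat_lit 12) (.e (nat_lit 336061) (nat_lit 7) (.e (nat_lit 319534) (nat_lit 16) (.e (nat_lit 286756) (nat_lit 10) (.e (nat_lit 344160) (nat_lit 37) (.e (nat_lit 647200) (nat_lit 12) (.e (nat_lit 57348) (nat_lit 0) (.e (nat_lit 7263) (nat_lit 384) .nil)))))))) (.g (nat_lit 4) .nil .nil))) 
(.lf (nat_lit 156332) (.g (nat_lit 2445) (.e (nat_lit 57412) (nat_lit 12) (.e (nat_lit 336173) (nat_lit 10) (.e (nat_lit 344153) (nat_lit 35) (.e (nat_lit 630801) (nat_lit 8) (.e (nat_lit 172094) (nat_lit 9) (.e (nat_lit 426109) (nat_lit 1) (.e (nat_lit 164319) (nat_lit 228) .nil))))))) (.g (nat_lit 0) .nil .nil)))) (.nd (nat_lit 5) 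
(.lf (nat_lit 156316) (.g (nat_lit 1434) (.e (nat_lit 57412) (nat_lit 12) (.e (nat_lit 336099) (nat_lit 9) (.e (nat_lit 335907) (nat_lit 0) (.e (nat_lit 1994) (nat_lit 137) (.e (nat_lit 663569) (nat_lit 6) .nil))))) .nil)) 
(.lf (nat_lit 156348) (.g (nat_lit 3949) (.e (nat_lit 57412) (nat_lit 12) (.e (nat_lit 336173) (nat_lit 10) (.e (nat_lit 344177) (nat_lit 43) (.e (nat_lit 770071) (nat_lit 8) (.e (nat_lit 65617) (nat_lit 10) (.e (nat_lit 344096) (nat_lit 18) (.e (nat_lit 7261) (nat_lit 384) .nil))))))) (.g (nat_lit 0) .nil .nil))))))) (.nd (nat_lit 2) (.nd (nat_lit 3) (.nd (nat_lit 4) (.nd (nat_lit 5) 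
(.lf (nat_lit 156290) (.g (nat_lit 3022) (.e (nat_lit 57412) (nat_lit 12) (.e (nat_lit 336061) (nat_lit 7) (.e (nat_lit 319534) (nat_lit 16) (.e (nat_lit 286753) (nat_lit 10) (.e (nat_lit 344097) (nat_lit 18) .nil))))) .nil)) 
(.lf (nat_lit 156322) (.g (nat_lit 2008) (.e (nat_lit 57412) (nat_lit 12) (.e (nat_lit 336099) (nat_lit 9) (.e (nat_lit 335997) (nat_lit 1) (.e (nat_lit 57857) (nat_lit 254) (.e (nat_lit 163908) (nat_lit 12) (.e (nat_lit 426211) (nat_lit 9) (.e (nat_lit 426109) (nat_lit 1) (.e (nat_lit 164319) (nat_lit 228) .nil)))))))) (.g (nat_lit 0) .nil .nil)))) (.nd (nat_lit 5) 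
(.lf (nat_lit 156306) (.g (nat_lit 2475) (.e (nat_lit 57412) (nat_lit 12) (.e (nat_lit 336061) (nat_lit 7) (.e (nat_lit 319534) (nat_lit 16) (.e (nat_lit 286756) (nat_lit 10) (.e (nat_lit 344160) (nat_lit 37) (.e (nat_lit 647201) (nat_lit 12) (.e (nat_lit 57353) (nat_lit 0) (.e (nat_lit 7261) (nat_lit 384) .nil)))))))) (.g (nat_lit 4) .nil .nil))) 
(.lf (nat_lit 156338) (.g (nat_lit 1872) (.e (nat_lit 57412) (nat_lit 12) (.e (nat_lit 336173) (nat_lit 10) (.e (nat_lit 344169) (nat_lit 40) (.e (nat_lit 671764) (nat_lit 6) (.e (nat_lit 81959) (nat_lit 24) (.e (nat_lit 123194) (nat_lit 266) .nil)))))) (.g (nat_lit 4) .nil .nil))))) (.nd (nat_lit 4) (.nd (nat_lit 5) 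
(.lf (nat_lit 156298) (.g (nat_lit 3141) (.e (nat_lit 57412) (nat_lit 12) (.e (nat_lit 336061) (nat_lit 7) (.e (nat_lit 319534) (nat_lit 16) (.e (nat_lit 286756) (nat_lit 10) (.e (nat_lit 344097) (nat_lit 18) (.e (nat_lit 5195) (nat_lit 294) (.e (nat_lit 57367) (nat_lit 1) (.e (nat_lit 57848) (nat_lit 252) .nil)))))))) (.g (nat_lit 4) .nil .nil))) 
(.lf (nat_lit 156330) (.g (nat_lit 2326) (.e (nat_lit 57412) (nat_lit 12) (.e (nat_lit 336173) (nat_lit 10) (.e (nat_lit 344138) (nat_lit 29) (.e (nat_lit 581651) (nat_lit 4) (.e (nat_lit 172106) (nat_lit 10) (.e (nat_lit 434202) (nat_lit 18) (.e (nat_lit 6828) (nat_lit 367) .nil))))))) (.g (nat_lit 5) .nil .nil)))) (.nd (nat_lit 5) 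
(.lf (nat_lit 156314) (.g (nat_lit 2643) (.e (nat_lit 57412) (nat_lit 12) (.e (nat_lit 336061) (nat_lit 7) (.e (nat_lit 319539) (nat_lit 19) (.e (nat_lit 311358) (nat_lit 29) (.e (nat_lit 352318) (nat_lit 24) (.e (nat_lit 123198) (nat_lit 266) .nil)))))) (.g (nat_lit 0) .nil .nil))) 
(.lf (nat_lit 156346) (.g (nat_lit 2773) (.e (nat_lit 57412) (nat_lit 12) (.e (nat_lit 336173) (nat_lit 10) (.e (nat_lit 344177) (nat_lit 43) (.e (nat_lit 770058) (nat_lit 5) (.e (nat_lit 1595) (nat_lit 111) (.e (nat_lit 360449) (nat_lit 0) (.e (nat_lit 7261) (nat_lit 384) .nil))))))) (.g (nat_lit 5) .nil .nil)))))) (.nd (nat_lit 3) (.nd (nat_lit 4) (.nd (nat_lit 5) 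
(.lf (nat_lit 156294) (.g (nat_lit 3385) (.e (nat_lit 57412) (nat_lit 12) (.e (nat_lit 336061) (nat_lit 7) (.e (nat_lit 319534) (nat_lit 16) (.e (nat_lit 286753) (nat_lit 10) (.e (nat_lit 344160) (nat_lit 37) (.e (nat_lit 647201) (nat_lit 12) (.e (nat_lit 57351) (nat_lit 0) (.e (nat_lit 7265) (nat_lit 384) .nil)))))))) (.g (nat_lit 4) .nil .nil))) 
(.lf (nat_lit 156326) (.g (nat_lit 2962) (.e (nat_lit 57412) (nat_lit 12) (.e (nat_lit 336102) (nat_lit 9) (.e (nat_lit 335997) (nat_lit 1) (.e (nat_lit 57681) (nat_lit 155) (.e (nat_lit 122919) (nat_lit 15) (.e (nat_lit 360451) (nat_lit 0) (.e (nat_lit 7261) (nat_lit 384) .nil))))))) (.g (nat_lit 6) .nil .nil)))) (.nd (nat_lit 5) 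
(.lf (nat_lit 156310) (.g (nat_lit 465) (.e (nat_lit 57412) (nat_lit 12) (.e (nat_lit 336061) (nat_lit 7) (.e (nat_lit 319538) (nat_lit 19) .nil))) .nil)) 
(.lf (nat_lit 156342) (.g (nat_lit 2236) (.e (nat_lit 57412) (nat_lit 12) (.e (nat_lit 336173) (nat_lit 10) (.e (nat_lit 344174) (nat_lit 42) (.e (nat_lit 761866) (nat_lit 5) (.e (nat_lit 1454) (nat_lit 108) (.e (nat_lit 336176) (nat_lit 10) (.e (nat_lit 344095) (nat_lit 18) (.e (nat_lit 7263) (nat_lit 384) .nil)))))))) (.g (nat_lit 5) .nil .nil))))) (.nd (nat_lit 4) (.nd (nat_lit 5) 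
(.lf (nat_lit 156302) (.g (nat_lit 2751) (.e (nat_lit 57412) (nat_lit 12) (.e (nat_lit 336061) (nat_lit 7) (.e (nat_lit 319534) (nat_lit 16) (.e (nat_lit 286756) (nat_lit 10) (.e (nat_lit 344160) (nat_lit 37) (.e (nat_lit 647200) (nat_lit 12) (.e (nat_lit 57352) (nat_lit 0) (.e (nat_lit 7263) (nat_lit 384) .nil)))))))) (.g (nat_lit 4) .nil .nil))) 
(.lf (nat_lit 156334) (.g (nat_lit 3516) (.e (nat_lit 57412) (nat_lit 12) (.e (nat_lit 336173) (nat_lit 10) (.e (nat_lit 344156) (nat_lit 36) (.e (nat_lit 638998) (nat_lit 8) (.e (nat_lit 172094) (nat_lit 9) (.e (nat_lit 426109) (nat_lit 1) (.e (nat_lit 164319) (nat_lit 228) .nil))))))) (.g (nat_lit 0) .nil .nil)))) (.nd (nat_lit 5) 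
(.lf (nat_lit 156318) (.g (nat_lit 2822) (.e (nat_lit 57412) (nat_lit 12) (.e (nat_lit 336099) (nat_lit 9) (.e (nat_lit 335992) (nat_lit 1) (.e (nat_lit 57681) (nat_lit 155) (.e (nat_lit 122919) (nat_lit 15) (.e (nat_lit 360451) (nat_lit 0) (.e (nat_lit 7265) (nat_lit 384) .nil))))))) (.g (nat_lit 5) .nil .nil))) 
(.lf (nat_lit 156350) (.g (nat_lit 4022) (.e (nat_lit 57412) (nat_lit 12) (.e (nat_lit 336173) (nat_lit 10) (.e (nat_lit 344177) (nat_lit 43) (.e (nat_lit 770071) (nat_lit 8) (.e (nat_lit 65617) (nat_lit 10) (.e (nat_lit 344096) (nat_lit 18) (.e (nat_lit 7265) (nat_lit 384) .nil))))))) (.g (nat_lit 0) .nil .nil)))))))) 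
(.nd (nat_lit 1) (.nd (nat_lit 2) (.nd (nat_lit 3) (.nd (nat_lit 4) (.nd (nat_lit 5) 
(.lf (nat_lit 156289) (.g (nat_lit 2074) (.e (nat_lit 57412) (nat_lit 12) (.e (nat_lit 336061) (nat_lit 7) (.e (nat_lit 319534) (nat_lit 16) (.e (nat_lit 286752) (nat_lit 10) .nil)))) .nil)) 
(.lf (nat_lit 156321) (.g (nat_lit 4107) (.e (nat_lit 57412) (nat_lit 12) (.e (nat_lit 336099) (nat_lit 9) (.e (nat_lit 335997) (nat_lit 1) (.e (nat_lit 57681) (nat_lit 155) (.e (nat_lit 122919) (nat_lit 15) (.e (nat_lit 360451) (nat_lit 0) (.e (nat_lit 7263) (nat_lit 384) .nil))))))) (.g (nat_lit 6) .nil .nil)))) (.nd (nat_lit 5) 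
(.lf (nat_lit 156305) (.g (nat_lit 2428) (.e (nat_lit 57412) (nat_lit 12) (.e (nat_lit 336061) (nat_lit 7) (.e (nat_lit 319534) (nat_lit 16) (.e (nat_lit 286756) (nat_lit 10) (.e (nat_lit 344160) (nat_lit 37) (.e (nat_lit 647201) (nat_lit 12) (.e (nat_lit 57352) (nat_lit 0) (.e (nat_lit 7261) (nat_lit 384) .nil)))))))) (.g (nat_lit 4) .nil .nil))) 
(.lf (nat_lit 156337) (.g (nat_lit 1241) (.e (nat_lit 57412) (nat_lit 12) (.e (nat_lit 336173) (nat_lit 10) (.e (nat_lit 344157) (nat_lit 36) (.e (nat_lit 639001) (nat_lit 10) (.e (nat_lit 188446) (nat_lit 21) (.e (nat_lit 164319) (nat_lit 228) .nil)))))) (.g (nat_lit 4) .nil .nil))))) (.nd (nat_lit 4) (.nd (nat_lit 5) 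
(.lf (nat_lit 156297) (.g (nat_lit 3203) (.e (nat_lit 57412) (nat_lit 12) (.e (nat_lit 336061) (nat_lit 7) (.e (nat_lit 319534) (nat_lit 16) (.e (nat_lit 286756) (nat_lit 10) (.e (nat_lit 344097) (nat_lit 18) (.e (nat_lit 5195) (nat_lit 294) (.e (nat_lit 57367) (nat_lit 1) (.e (nat_lit 57846) (nat_lit 252) .nil)))))))) (.g (nat_lit 4) .nil .nil))) 
(.lf (nat_lit 156329) (.g (nat_lit 666) (.e (nat_lit 57412) (nat_lit 12) (.e (nat_lit 336173) (nat_lit 10) (.e (nat_lit 344138) (nat_lit 29) (.e (nat_lit 581651) (nat_lit 4) .nil)))) .nil))) (.nd (nat_lit 5) 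
(.lf (nat_lit 156313) (.g (nat_lit 2511) (.e (nat_lit 57412) (nat_lit 12) (.e (nat_lit 336061) (nat_lit 7) (.e (nat_lit 319539) (nat_lit 19) (.e (nat_lit 311358) (nat_lit 29) (.e (nat_lit 352318) (nat_lit 24) (.e (nat_lit 123194) (nat_lit 266) .nil)))))) (.g (nat_lit 5) .nil .nil))) 
(.lf (nat_lit 156345) (.g (nat_lit 2775) (.e (nat_lit 57412) (nat_lit 12) (.e (nat_lit 336173) (nat_lit 10) (.e (nat_lit 344177) (nat_lit 43) (.e (nat_lit 770057) (nat_lit 5) (.e (nat_lit 1589) (nat_lit 111) (.e (nat_lit 360449) (nat_lit 0) (.e (nat_lit 7263) (nat_lit 384) .nil))))))) (.g (nat_lit 5) .nil .nil)))))) (.nd (nat_lit 3) (.nd (nat_lit 4) (.nd (nat_lit 5) 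
(.lf (nat_lit 156293) (.g (nat_lit 3150) (.e (nat_lit 57412) (nat_lit 12) (.e (nat_lit 336061) (nat_lit 7) (.e (nat_lit 319534) (nat_lit 16) (.e (nat_lit 286753) (nat_lit 10) (.e (nat_lit 344160) (nat_lit 37) (.e (nat_lit 647201) (nat_lit 12) (.e (nat_lit 57351) (nat_lit 0) (.e (nat_lit 7263) (nat_lit 384) .nil)))))))) (.g (nat_lit 4) .nil .nil))) 
(.lf (nat_lit 156325) (.g (nat_lit 2228) (.e (nat_lit 57412) (nat_lit 12) (.e (nat_lit 336099) (nat_lit 9) (.e (nat_lit 336013) (nat_lit 2) (.e (nat_lit 90187) (nat_lit 18) .nil)))) .nil))) (.nd (nat_lit 5) 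
(.lf (nat_lit 156309) (.g (nat_lit 1987) (.e (nat_lit 57412) (nat_lit 12) (.e (nat_lit 336061) (nat_lit 7) (.e (nat_lit 319534) (nat_lit 16) (.e (nat_lit 286767) (nat_lit 27) .nil)))) .nil)) 
(.lf (nat_lit 156341) (.g (nat_lit 2407) (.e (nat_lit 57412) (nat_lit 12) (.e (nat_lit 336173) (nat_lit 10) (.e (nat_lit 344174) (nat_lit 42) (.e (nat_lit 761866) (nat_lit 5) (.e (nat_lit 1454) (nat_lit 108) (.e (nat_lit 336176) (nat_lit 10) (.e (nat_lit 344095) (nat_lit 18) (.e (nat_lit 7261) (nat_lit 384) .nil)))))))) (.g (nat_lit 5) .nil .nil))))) (.nd (nat_lit 4) (.nd (nat_lit 5) 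
(.lf (nat_lit 156301) (.g (nat_lit 3027) (.e (nat_lit 57412) (nat_lit 12) (.e (nat_lit 336061) (nat_lit 7) (.e (nat_lit 319534) (nat_lit 16) (.e (nat_lit 286756) (nat_lit 10) (.e (nat_lit 344160) (nat_lit 37) (.e (nat_lit 647200) (nat_lit 12) (.e (nat_lit 57352) (nat_lit 0) (.e (nat_lit 7261) (nat_lit 384) .nil)))))))) (.g (nat_lit 4) .nil .nil))) 
(.lf (nat_lit 156333) (.g (nat_lit 2415) (.e (nat_lit 57412) (nat_lit 12) (.e (nat_lit 336173) (nat_lit 10) (.e (nat_lit 344154) (nat_lit 35) (.e (nat_lit 630802) (nat_lit 8) (.e (nat_lit 172094) (nat_lit 9) (.e (nat_lit 426109) (nat_lit 1) (.e (nat_lit 164319) (nat_lit 228) .nil))))))) (.g (nat_lit 0) .nil .nil)))) (.nd (nat_lit 5) 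
(.lf (nat_lit 156317) (.g (nat_lit 1047) (.e (nat_lit 57412) (nat_lit 12) (.e (nat_lit 336099) (nat_lit 9) (.e (nat_lit 335907) (nat_lit 0) (.e (nat_lit 2370) (nat_lit 154) .nil)))) .nil)) 
(.lf (nat_lit 156349) (.g (nat_lit 3951) (.e (nat_lit 57412) (nat_lit 12) (.e (nat_lit 336173) (nat_lit 10) (.e (nat_lit 344177) (nat_lit 43) (.e (nat_lit 770071) (nat_lit 8) (.e (nat_lit 65617) (nat_lit 10) (.e (nat_lit 344096) (nat_lit 18) (.e (nat_lit 7263) (nat_lit 384) .nil))))))) (.g (nat_lit 7) .nil .nil))))))) (.nd (nat_lit 2) (.nd (nat_lit 3) (.nd (nat_lit 4) (.nd (nat_lit 5) 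
(.lf (nat_lit 156291) (.g (nat_lit 3135) (.e (nat_lit 57412) (nat_lit 12) (.e (nat_lit 336061) (nat_lit 7) (.e (nat_lit 319534) (nat_lit 16) (.e (nat_lit 286753) (nat_lit 10) (.e (nat_lit 344097) (nat_lit 18) (.e (nat_lit 5195) (nat_lit 294) (.e (nat_lit 57365) (nat_lit 1) (.e (nat_lit 57851) (nat_lit 252) .nil)))))))) (.g (nat_lit 4) .nil .nil))) 
(.lf (nat_lit 156323) (.g (nat_lit 2689) (.e (nat_lit 57412) (nat_lit 12) (.e (nat_lit 336099) (nat_lit 9) (.e (nat_lit 335997) (nat_lit 1) (.e (nat_lit 57857) (nat_lit 254) (.e (nat_lit 163920) (nat_lit 14) (.e (nat_lit 442421) (nat_lit 21) (.e (nat_lit 164319) (nat_lit 228) .nil))))))) (.g (nat_lit 0) .nil .nil)))) (.nd (nat_lit 5) 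
(.lf (nat_lit 156307) (.g (nat_lit 2511) (.e (nat_lit 57412) (nat_lit 12) (.e (nat_lit 336061) (nat_lit 7) (.e (nat_lit 319534) (nat_lit 16) (.e (nat_lit 286756) (nat_lit 10) (.e (nat_lit 344160) (nat_lit 37) (.e (nat_lit 647201) (nat_lit 12) (.e (nat_lit 57353) (nat_lit 0) (.e (nat_lit 7265) (nat_lit 384) .nil)))))))) (.g (nat_lit 4) .nil .nil))) 
(.lf (nat_lit 156339) (.g (nat_lit 444) (.e (nat_lit 57412) (nat_lit 12) (.e (nat_lit 336173) (nat_lit 10) (.e (nat_lit 344173) (nat_lit 42) .nil))) .nil)))) (.nd (nat_lit 4) (.nd (nat_lit 5) 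
(.lf (nat_lit 156299) (.g (nat_lit 2426) (.e (nat_lit 57412) (nat_lit 12) (.e (nat_lit 336061) (nat_lit 7) (.e (nat_lit 319534) (nat_lit 16) (.e (nat_lit 286756) (nat_lit 10) (.e (nat_lit 344160) (nat_lit 37) .nil))))) .nil)) 
(.lf (nat_lit 156331) (.g (nat_lit 3815) (.e (nat_lit 57412) (nat_lit 12) (.e (nat_lit 336173) (nat_lit 10) (.e (nat_lit 344138) (nat_lit 29) (.e (nat_lit 581651) (nat_lit 4) (.e (nat_lit 172115) (nat_lit 10) (.e (nat_lit 434202) (nat_lit 18) (.e (nat_lit 6830) (nat_lit 367) .nil))))))) (.g (nat_lit 0) .nil .nil)))) (.nd (nat_lit 5) 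
(.lf (nat_lit 156315) (.g (nat_lit 880) (.e (nat_lit 57412) (nat_lit 12) (.e (nat_lit 336061) (nat_lit 7) (.e (nat_lit 319539) (nat_lit 19) (.e (nat_lit 319232) (nat_lit 30) .nil)))) .nil)) 
(.lf (nat_lit 156347) (.g (nat_lit 2699) (.e (nat_lit 57412) (nat_lit 12) (.e (nat_lit 336173) (nat_lit 10) (.e (nat_lit 344177) (nat_lit 43) (.e (nat_lit 770058) (nat_lit 5) (.e (nat_lit 1595) (nat_lit 111) (.e (nat_lit 360449) (nat_lit 0) (.e (nat_lit 7263) (nat_lit 384) .nil))))))) (.g (nat_lit 5) .nil .nil)))))) (.nd (nat_lit 3) (.nd (nat_lit 4) (.nd (nat_lit 5) 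
(.lf (nat_lit 156295) (.g (nat_lit 2361) (.e (nat_lit 57412) (nat_lit 12) (.e (nat_lit 336061) (nat_lit 7) (.e (nat_lit 319534) (nat_lit 16) (.e (nat_lit 286755) (nat_lit 10) .nil)))) .nil)) 
(.lf (nat_lit 156327) (.g (nat_lit 2943) (.e (nat_lit 57412) (nat_lit 12) (.e (nat_lit 336111) (nat_lit 9) (.e (nat_lit 335997) (nat_lit 1) (.e (nat_lit 57681) (nat_lit 155) (.e (nat_lit 122919) (nat_lit 15) (.e (nat_lit 360451) (nat_lit 0) (.e (nat_lit 7261) (nat_lit 384) .nil))))))) (.g (nat_lit 6) .nil .nil)))) (.nd (nat_lit 5) 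
(.lf (nat_lit 156311) (.g (nat_lit 1290) (.e (nat_lit 57412) (nat_lit 12) (.e (nat_lit 336061) (nat_lit 7) (.e (nat_lit 319538) (nat_lit 19) (.e (nat_lit 311358) (nat_lit 29) .nil)))) .nil)) 
(.lf (nat_lit 156343) (.g (nat_lit 2744) (.e (nat_lit 57412) (nat_lit 12) (.e (nat_lit 336173) (nat_lit 10) (.e (nat_lit 344174) (nat_lit 42) (.e (nat_lit 761866) (nat_lit 5) (.e (nat_lit 1597) (nat_lit 111) (.e (nat_lit 360449) (nat_lit 0) (.e (nat_lit 7263) (nat_lit 384) .nil))))))) (.g (nat_lit 6) .nil .nil))))) (.nd (nat_lit 4) (.nd (nat_lit 5) 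
(.lf (nat_lit 156303) (.g (nat_lit 2926) (.e (nat_lit 57412) (nat_lit 12) (.e (nat_lit 336061) (nat_lit 7) (.e (nat_lit 319534) (nat_lit 16) (.e (nat_lit 286756) (nat_lit 10) (.e (nat_lit 344160) (nat_lit 37) (.e (nat_lit 647200) (nat_lit 12) (.e (nat_lit 57353) (nat_lit 0) (.e (nat_lit 7261) (nat_lit 384) .nil)))))))) (.g (nat_lit 4) .nil .nil))) 
(.lf (nat_lit 156335) (.g (nat_lit 2015) (.e (nat_lit 57412) (nat_lit 12) (.e (nat_lit 336173) (nat_lit 10) (.e (nat_lit 344156) (nat_lit 36) (.e (nat_lit 638998) (nat_lit 8) (.e (nat_lit 172095) (nat_lit 9) (.e (nat_lit 426109) (nat_lit 1) (.e (nat_lit 164319) (nat_lit 228) .nil))))))) (.g (nat_lit 4) .nil .nil)))) (.nd (nat_lit 5) 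
(.lf (nat_lit 156319) (.g (nat_lit 1865) (.e (nat_lit 57412) (nat_lit 12) (.e (nat_lit 336099) (nat_lit 9) (.e (nat_lit 335997) (nat_lit 1) (.e (nat_lit 57681) (nat_lit 155) (.e (nat_lit 122919) (nat_lit 15) .nil))))) .nil)) 
(.lf (nat_lit 156351) (.g (nat_lit 2851) (.e (nat_lit 57412) (nat_lit 12) (.e (nat_lit 336173) (nat_lit 10) (.e (nat_lit 344177) (nat_lit 43) (.e (nat_lit 770071) (nat_lit 8) (.e (nat_lit 65619) (nat_lit 10) (.e (nat_lit 344090) (nat_lit 18) (.e (nat_lit 7265) (nat_lit 384) .nil))))))) (.g (nat_lit 5) .nil .nil)))))))))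

noncomputable def tv2090 : DT := (.nd (nat_lit 0) (.nd (nat_lit 1) (.nd (nat_lit 2) (.nd (nat_lit 3) (.nd (nat_lit 4) 
(.lf (nat_lit 156352) (.g (nat_lit 4095) (.e (nat_lit 57412) (nat_lit 12) (.e (nat_lit 336173) (nat_lit 10) (.e (nat_lit 344177) (nat_lit 43) (.e (nat_lit 770072) (nat_lit 8) (.e (nat_lit 65617) (nat_lit 10) (.e (nat_lit 344096) (nat_lit 18) (.e (nat_lit 7261) (nat_lit 384) .nil))))))) (.g (nat_lit 0) .nil .nil))) 
(.lf (nat_lit 156368) (.g (nat_lit 878) (.e (nat_lit 57412) (nat_lit 12) (.e (nat_lit 336176) (nat_lit 10) (.e (nat_lit 344091) (nat_lit 18) (.e (nat_lit 7261) (nat_lit 384) .nil)))) .nil))) (.nd (nat_lit 4) 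
(.lf (nat_lit 156360) (.g (nat_lit 3714) (.e (nat_lit 57412) (nat_lit 12) (.e (nat_lit 336176) (nat_lit 10) (.e (nat_lit 344091) (nat_lit 18) (.e (nat_lit 7122) (nat_lit 382) (.e (nat_lit 1201) (nat_lit 88) (.e (nat_lit 65617) (nat_lit 10) (.e (nat_lit 344091) (nat_lit 18) (.e (nat_lit 7265) (nat_lit 384) .nil)))))))) (.g (nat_lit 7) .nil .nil))) 
(.lf (nat_lit 156376) (.g (nat_lit 3075) (.e (nat_lit 57412) (nat_lit 12) (.e (nat_lit 336176) (nat_lit 10) (.e (nat_lit 344091) (nat_lit 18) (.e (nat_lit 7265) (nat_lit 384) (.e (nat_lit 57426) (nat_lit 15) (.e (nat_lit 360449) (nat_lit 0) (.e (nat_lit 7261) (nat_lit 384) .nil))))))) (.g (nat_lit 0) .nil .nil))))) (.nd (nat_lit 3) (.nd (nat_lit 4) 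
(.lf (nat_lit 156356) (.g (nat_lit 3733) (.e (nat_lit 57412) (nat_lit 12) (.e (nat_lit 336173) (nat_lit 10) (.e (nat_lit 344177) (nat_lit 43) (.e (nat_lit 770072) (nat_lit 8) (.e (nat_lit 65619) (nat_lit 10) (.e (nat_lit 344090) (nat_lit 18) (.e (nat_lit 7265) (nat_lit 384) .nil))))))) (.g (nat_lit 6) .nil .nil))) 
(.lf (nat_lit 156372) (.g (nat_lit 1951) (.e (nat_lit 57412) (nat_lit 12) (.e (nat_lit 336176) (nat_lit 10) (.e (nat_lit 344091) (nat_lit 18) (.e (nat_lit 7263) (nat_lit 384) (.e (nat_lit 57426) (nat_lit 15) (.e (nat_lit 360451) (nat_lit 0) (.e (nat_lit 7261) (nat_lit 384) .nil))))))) (.g (nat_lit 5) .nil .nil)))) (.nd (nat_lit 4) 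
(.lf (nat_lit 156364) (.g (nat_lit 3880) (.e (nat_lit 57412) (nat_lit 12) (.e (nat_lit 336176) (nat_lit 10) (.e (nat_lit 344091) (nat_lit 18) (.e (nat_lit 7122) (nat_lit 382) (.e (nat_lit 1201) (nat_lit 88) (.e (nat_lit 65617) (nat_lit 10) (.e (nat_lit 344096) (nat_lit 18) (.e (nat_lit 7263) (nat_lit 384) .nil)))))))) (.g (nat_lit 7) .nil .nil))) 
(.lf (nat_lit 156380) (.g (nat_lit 3037) (.e (nat_lit 57412) (nat_lit 12) (.e (nat_lit 336176) (nat_lit 10) (.e (nat_lit 344091) (nat_lit 18) (.e (nat_lit 7265) (nat_lit 384) (.e (nat_lit 57427) (nat_lit 15) (.e (nat_lit 360449) (nat_lit 0) (.e (nat_lit 7265) (nat_lit 384) .nil))))))) (.g (nat_lit 6) .nil .nil)))))) (.nd (nat_lit 2) (.nd (nat_lit 3) (.nd (nat_lit 4) 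
(.lf (nat_lit 156354) (.g (nat_lit 4167) (.e (nat_lit 57412) (nat_lit 12) (.e (nat_lit 336173) (nat_lit 10) (.e (nat_lit 344177) (nat_lit 43) (.e (nat_lit 770072) (nat_lit 8) (.e (nat_lit 65617) (nat_lit 10) (.e (nat_lit 344096) (nat_lit 18) (.e (nat_lit 7265) (nat_lit 384) .nil))))))) (.g (nat_lit 0) .nil .nil))) 
(.lf (nat_lit 156370) (.g (nat_lit 1920) (.e (nat_lit 57412) (nat_lit 12) (.e (nat_lit 336176) (nat_lit 10) (.e (nat_lit 344091) (nat_lit 18) (.e (nat_lit 7261) (nat_lit 384) (.e (nat_lit 57427) (nat_lit 15) (.e (nat_lit 360449) (nat_lit 0) (.e (nat_lit 7261) (nat_lit 384) .nil))))))) (.g (nat_lit 5) .nil .nil)))) (.nd (nat_lit 4) 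
(.lf (nat_lit 156362) (.g (nat_lit 3283) (.e (nat_lit 57412) (nat_lit 12) (.e (nat_lit 336176) (nat_lit 10) (.e (nat_lit 344091) (nat_lit 18) (.e (nat_lit 7122) (nat_lit 382) (.e (nat_lit 1201) (nat_lit 88) (.e (nat_lit 65617) (nat_lit 10) (.e (nat_lit 344095) (nat_lit 18) (.e (nat_lit 7263) (nat_lit 384) .nil)))))))) (.g (nat_lit 6) .nil .nil))) 
(.lf (nat_lit 156378) (.g (nat_lit 2530) (.e (nat_lit 57412) (nat_lit 12) (.e (nat_lit 336176) (nat_lit 10) (.e (nat_lit 344091) (nat_lit 18) (.e (nat_lit 7265) (nat_lit 384) (.e (nat_lit 57427) (nat_lit 15) (.e (nat_lit 360449) (nat_lit 0) (.e (nat_lit 7261) (nat_lit 384) .nil))))))) (.g (nat_lit 5) .nil .nil))))) (.nd (nat_lit 3) (.nd (nat_lit 4) 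
(.lf (nat_lit 156358) (.g (nat_lit 3303) (.e (nat_lit 57412) (nat_lit 12) (.e (nat_lit 336176) (nat_lit 10) (.e (nat_lit 344091) (nat_lit 18) (.e (nat_lit 7122) (nat_lit 382) (.e (nat_lit 1201) (nat_lit 88) (.e (nat_lit 65610) (nat_lit 10) (.e (nat_lit 344090) (nat_lit 18) (.e (nat_lit 7263) (nat_lit 384) .nil)))))))) (.g (nat_lit 6) .nil .nil))) 
(.lf (nat_lit 156374) (.g (nat_lit 3371) (.e (nat_lit 57412) (nat_lit 12) (.e (nat_lit 336176) (nat_lit 10) (.e (nat_lit 344091) (nat_lit 18) (.e (nat_lit 7263) (nat_lit 384) (.e (nat_lit 57427) (nat_lit 15) (.e (nat_lit 360450) (nat_lit 0) (.e (nat_lit 7263) (nat_lit 384) .nil))))))) (.g (nat_lit 7) .nil .nil)))) (.nd (nat_lit 4) 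
(.lf (nat_lit 156366) (.g (nat_lit 3864) (.e (nat_lit 57412) (nat_lit 12) (.e (nat_lit 336176) (nat_lit 10) (.e (nat_lit 344091) (nat_lit 18) (.e (nat_lit 7125) (nat_lit 382) (.e (nat_lit 1201) (nat_lit 88) (.e (nat_lit 65617) (nat_lit 10) (.e (nat_lit 344095) (nat_lit 18) (.e (nat_lit 7261) (nat_lit 384) .nil)))))))) (.g (nat_lit 0) .nil .nil))) 
(.lf (nat_lit 156382) (.g (nat_lit 3017) (.e (nat_lit 57412) (nat_lit 12) (.e (nat_lit 336176) (nat_lit 10) (.e (nat_lit 344091) (nat_lit 18) (.e (nat_lit 7266) (nat_lit 384) (.e (nat_lit 57426) (nat_lit 15) (.e (nat_lit 360449) (nat_lit 0) (.e (nat_lit 7261) (nat_lit 384) .nil))))))) (.g (nat_lit 0) .nil .nil))))))) (.nd (nat_lit 1) (.nd (nat_lit 2) (.nd (nat_lit 3) (.nd (nat_lit 4) 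
(.lf (nat_lit 156353) (.g (nat_lit 4101) (.e (nat_lit 57412) (nat_lit 12) (.e (nat_lit 336173) (nat_lit 10) (.e (nat_lit 344177) (nat_lit 43) (.e (nat_lit 770072) (nat_lit 8) (.e (nat_lit 65617) (nat_lit 10) (.e (nat_lit 344096) (nat_lit 18) (.e (nat_lit 7263) (nat_lit 384) .nil))))))) (.g (nat_lit 7) .nil .nil))) 
(.lf (nat_lit 156369) (.g (nat_lit 2068) (.e (nat_lit 57412) (nat_lit 12) (.e (nat_lit 336176) (nat_lit 10) (.e (nat_lit 344091) (nat_lit 18) (.e (nat_lit 7261) (nat_lit 384) (.e (nat_lit 57426) (nat_lit 15) (.e (nat_lit 360451) (nat_lit 0) (.e (nat_lit 7261) (nat_lit 384) .nil))))))) (.g (nat_lit 5) .nil .nil)))) (.nd (nat_lit 4) 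
(.lf (nat_lit 156361) (.g (nat_lit 3438) (.e (nat_lit 57412) (nat_lit 12) (.e (nat_lit 336176) (nat_lit 10) (.e (nat_lit 344091) (nat_lit 18) (.e (nat_lit 7122) (nat_lit 382) (.e (nat_lit 1201) (nat_lit 88) (.e (nat_lit 65617) (nat_lit 10) (.e (nat_lit 344095) (nat_lit 18) (.e (nat_lit 7261) (nat_lit 384) .nil)))))))) (.g (nat_lit 6) .nil .nil))) 
(.lf (nat_lit 156377) (.g (nat_lit 3374) (.e (nat_lit 57412) (nat_lit 12) (.e (nat_lit 336176) (nat_lit 10) (.e (nat_lit 344091) (nat_lit 18) (.e (nat_lit 7265) (nat_lit 384) (.e (nat_lit 57426) (nat_lit 15) (.e (nat_lit 360451) (nat_lit 0) (.e (nat_lit 7265) (nat_lit 384) .nil))))))) (.g (nat_lit 7) .nil .nil))))) (.nd (nat_lit 3) (.nd (nat_lit 4) 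
(.lf (nat_lit 156357) (.g (nat_lit 2684) (.e (nat_lit 57412) (nat_lit 12) (.e (nat_lit 336176) (nat_lit 10) (.e (nat_lit 344087) (nat_lit 18) (.e (nat_lit 7270) (nat_lit 385) (.e (nat_lit 122919) (nat_lit 15) (.e (nat_lit 360451) (nat_lit 0) (.e (nat_lit 7265) (nat_lit 384) .nil))))))) (.g (nat_lit 5) .nil .nil))) 
(.lf (nat_lit 156373) (.g (nat_lit 3386) (.e (nat_lit 57412) (nat_lit 12) (.e (nat_lit 336176) (nat_lit 10) (.e (nat_lit 344091) (nat_lit 18) (.e (nat_lit 7263) (nat_lit 384) (.e (nat_lit 57427) (nat_lit 15) (.e (nat_lit 360450) (nat_lit 0) (.e (nat_lit 7261) (nat_lit 384) .nil))))))) (.g (nat_lit 7) .nil .nil)))) (.nd (nat_lit 4) 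
(.lf (nat_lit 156365) (.g (nat_lit 3874) (.e (nat_lit 57412) (nat_lit 12) (.e (nat_lit 336176) (nat_lit 10) (.e (nat_lit 344091) (nat_lit 18) (.e (nat_lit 7122) (nat_lit 382) (.e (nat_lit 1201) (nat_lit 88) (.e (nat_lit 65617) (nat_lit 10) (.e (nat_lit 344096) (nat_lit 18) (.e (nat_lit 7265) (nat_lit 384) .nil)))))))) (.g (nat_lit 7) .nil .nil))) 
(.lf (nat_lit 156381) (.g (nat_lit 3199) (.e (nat_lit 57412) (nat_lit 12) (.e (nat_lit 336176) (nat_lit 10) (.e (nat_lit 344091) (nat_lit 18) (.e (nat_lit 7265) (nat_lit 384) (.e (nat_lit 57427) (nat_lit 15) (.e (nat_lit 360450) (nat_lit 0) (.e (nat_lit 7265) (nat_lit 384) .nil))))))) (.g (nat_lit 6) .nil .nil)))))) (.nd (nat_lit 2) (.nd (nat_lit 3) (.nd (nat_lit 4) 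
(.lf (nat_lit 156355) (.g (nat_lit 3375) (.e (nat_lit 57412) (nat_lit 12) (.e (nat_lit 336173) (nat_lit 10) (.e (nat_lit 344177) (nat_lit 43) (.e (nat_lit 770072) (nat_lit 8) (.e (nat_lit 65619) (nat_lit 10) (.e (nat_lit 344090) (nat_lit 18) (.e (nat_lit 7263) (nat_lit 384) .nil))))))) (.g (nat_lit 6) .nil .nil))) 
(.lf (nat_lit 156371) (.g (nat_lit 3292) (.e (nat_lit 57412) (nat_lit 12) (.e (nat_lit 336176) (nat_lit 10) (.e (nat_lit 344091) (nat_lit 18) (.e (nat_lit 7263) (nat_lit 384) (.e (nat_lit 57412) (nat_lit 12) (.e (nat_lit 336176) (nat_lit 10) (.e (nat_lit 344091) (nat_lit 18) (.e (nat_lit 7263) (nat_lit 384) .nil)))))))) (.g (nat_lit 7) .nil .nil)))) (.nd (nat_lit 4) 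
(.lf (nat_lit 156363) (.g (nat_lit 3766) (.e (nat_lit 57412) (nat_lit 12) (.e (nat_lit 336176) (nat_lit 10) (.e (nat_lit 344091) (nat_lit 18) (.e (nat_lit 7122) (nat_lit 382) (.e (nat_lit 1201) (nat_lit 88) (.e (nat_lit 65617) (nat_lit 10) (.e (nat_lit 344096) (nat_lit 18) (.e (nat_lit 7261) (nat_lit 384) .nil)))))))) (.g (nat_lit 7) .nil .nil))) 
(.lf (nat_lit 156379) (.g (nat_lit 2554) (.e (nat_lit 57412) (nat_lit 12) (.e (nat_lit 336176) (nat_lit 10) (.e (nat_lit 344091) (nat_lit 18) (.e (nat_lit 7265) (nat_lit 384) (.e (nat_lit 57427) (nat_lit 15) (.e (nat_lit 360449) (nat_lit 0) (.e (nat_lit 7263) (nat_lit 384) .nil))))))) (.g (nat_lit 5) .nil .nil))))) (.nd (nat_lit 3) (.nd (nat_lit 4) 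
(.lf (nat_lit 156359) (.g (nat_lit 3612) (.e (nat_lit 57412) (nat_lit 12) (.e (nat_lit 336176) (nat_lit 10) (.e (nat_lit 344091) (nat_lit 18) (.e (nat_lit 7122) (nat_lit 382) (.e (nat_lit 1201) (nat_lit 88) (.e (nat_lit 65617) (nat_lit 10) (.e (nat_lit 344091) (nat_lit 18) (.e (nat_lit 7261) (nat_lit 384) .nil)))))))) (.g (nat_lit 7) .nil .nil))) 
(.lf (nat_lit 156375) (.g (nat_lit 3664) (.e (nat_lit 57412) (nat_lit 12) (.e (nat_lit 336176) (nat_lit 10) (.e (nat_lit 344091) (nat_lit 18) (.e (nat_lit 7265) (nat_lit 384) (.e (nat_lit 57412) (nat_lit 12) (.e (nat_lit 336176) (nat_lit 10) (.e (nat_lit 344096) (nat_lit 18) (.e (nat_lit 7265) (nat_lit 384) .nil)))))))) (.g (nat_lit 0) .nil .nil)))) (.nd (nat_lit 4) 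
(.lf (nat_lit 156367) (.g (nat_lit 4295) (.e (nat_lit 57412) (nat_lit 12) (.e (nat_lit 336176) (nat_lit 10) (.e (nat_lit 344091) (nat_lit 18) (.e (nat_lit 7125) (nat_lit 382) (.e (nat_lit 1201) (nat_lit 88) (.e (nat_lit 65617) (nat_lit 10) (.e (nat_lit 344096) (nat_lit 18) (.e (nat_lit 7265) (nat_lit 384) .nil)))))))) (.g (nat_lit 0) .nil .nil))) 
(.lf (nat_lit 156383) (.g (nat_lit 2191) (.e (nat_lit 57412) (nat_lit 12) (.e (nat_lit 336176) (nat_lit 10) (.e (nat_lit 344091) (nat_lit 18) (.e (nat_lit 7266) (nat_lit 384) (.e (nat_lit 57426) (nat_lit 15) (.e (nat_lit 360451) (nat_lit 0) (.e (nat_lit 7261) (nat_lit 384) .nil))))))) (.g (nat_lit 5) .nil .nil))))))))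

noncomputable def tv2091 : DT := (.nd (nat_lit 0) (.nd (nat_lit 1) (.nd (nat_lit 2) (.nd (nat_lit 3) (.nd (nat_lit 4) 
(.lf (nat_lit 156384) (.g (nat_lit 2522) (.e (nat_lit 57412) (nat_lit 12) (.e (nat_lit 336176) (nat_lit 10) (.e (nat_lit 344091) (nat_lit 18) (.e (nat_lit 7266) (nat_lit 384) (.e (nat_lit 57427) (nat_lit 15) (.e (nat_lit 360449) (nat_lit 0) (.e (nat_lit 7261) (nat_lit 384) .nil))))))) (.g (nat_lit 5) .nil .nil))) 
(.lf (nat_lit 156400) (.g (nat_lit 1999) (.e (nat_lit 57412) (nat_lit 12) (.e (nat_lit 336176) (nat_lit 10) (.e (nat_lit 344096) (nat_lit 18) (.e (nat_lit 7261) (nat_lit 384) (.e (nat_lit 57427) (nat_lit 15) (.e (nat_lit 360449) (nat_lit 0) (.e (nat_lit 7261) (nat_lit 384) .nil))))))) (.g (nat_lit 5) .nil .nil)))) (.nd (nat_lit 4) 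
(.lf (nat_lit 156392) (.g (nat_lit 4100) (.e (nat_lit 57412) (nat_lit 12) (.e (nat_lit 336176) (nat_lit 10) (.e (nat_lit 344096) (nat_lit 18) (.e (nat_lit 7122) (nat_lit 382) (.e (nat_lit 1201) (nat_lit 88) (.e (nat_lit 65610) (nat_lit 10) (.e (nat_lit 344090) (nat_lit 18) (.e (nat_lit 7261) (nat_lit 384) .nil)))))))) (.g (nat_lit 7) .nil .nil))) 
(.lf (nat_lit 156408) (.g (nat_lit 2593) (.e (nat_lit 57412) (nat_lit 12) (.e (nat_lit 336176) (nat_lit 10) (.e (nat_lit 344096) (nat_lit 18) (.e (nat_lit 7265) (nat_lit 384) (.e (nat_lit 57427) (nat_lit 15) (.e (nat_lit 360449) (nat_lit 0) (.e (nat_lit 7261) (nat_lit 384) .nil))))))) (.g (nat_lit 5) .nil .nil))))) (.nd (nat_lit 3) (.nd (nat_lit 4) 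
(.lf (nat_lit 156388) (.g (nat_lit 3902) (.e (nat_lit 57412) (nat_lit 12) (.e (nat_lit 336176) (nat_lit 10) (.e (nat_lit 344091) (nat_lit 18) (.e (nat_lit 7266) (nat_lit 384) (.e (nat_lit 57427) (nat_lit 15) (.e (nat_lit 360450) (nat_lit 0) (.e (nat_lit 7263) (nat_lit 384) .nil))))))) (.g (nat_lit 0) .nil .nil))) 
(.lf (nat_lit 156404) (.g (nat_lit 3307) (.e (nat_lit 57412) (nat_lit 12) (.e (nat_lit 336176) (nat_lit 10) (.e (nat_lit 344096) (nat_lit 18) (.e (nat_lit 7263) (nat_lit 384) (.e (nat_lit 57427) (nat_lit 15) (.e (nat_lit 360450) (nat_lit 0) (.e (nat_lit 7263) (nat_lit 384) .nil))))))) (.g (nat_lit 7) .nil .nil)))) (.nd (nat_lit 4) 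
(.lf (nat_lit 156396) (.g (nat_lit 4252) (.e (nat_lit 57412) (nat_lit 12) (.e (nat_lit 336176) (nat_lit 10) (.e (nat_lit 344096) (nat_lit 18) (.e (nat_lit 7122) (nat_lit 382) (.e (nat_lit 1201) (nat_lit 88) (.e (nat_lit 65617) (nat_lit 10) (.e (nat_lit 344096) (nat_lit 18) (.e (nat_lit 7261) (nat_lit 384) .nil)))))))) (.g (nat_lit 7) .nil .nil))) 
(.lf (nat_lit 156412) (.g (nat_lit 3574) (.e (nat_lit 57412) (nat_lit 12) (.e (nat_lit 336176) (nat_lit 10) (.e (nat_lit 344096) (nat_lit 18) (.e (nat_lit 7266) (nat_lit 384) (.e (nat_lit 57426) (nat_lit 15) (.e (nat_lit 360449) (nat_lit 0) (.e (nat_lit 7265) (nat_lit 384) .nil))))))) (.g (nat_lit 0) .nil .nil)))))) (.nd (nat_lit 2) (.nd (nat_lit 3) (.nd (nat_lit 4) 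
(.lf (nat_lit 156386) (.g (nat_lit 3029) (.e (nat_lit 57412) (nat_lit 12) (.e (nat_lit 336176) (nat_lit 10) (.e (nat_lit 344091) (nat_lit 18) (.e (nat_lit 7266) (nat_lit 384) (.e (nat_lit 57427) (nat_lit 15) (.e (nat_lit 360449) (nat_lit 0) (.e (nat_lit 7265) (nat_lit 384) .nil))))))) (.g (nat_lit 6) .nil .nil))) 
(.lf (nat_lit 156402) (.g (nat_lit 3114) (.e (nat_lit 57412) (nat_lit 12) (.e (nat_lit 336176) (nat_lit 10) (.e (nat_lit 344096) (nat_lit 18) (.e (nat_lit 7263) (nat_lit 384) (.e (nat_lit 57412) (nat_lit 12) (.e (nat_lit 336176) (nat_lit 10) (.e (nat_lit 344096) (nat_lit 18) (.e (nat_lit 7263) (nat_lit 384) .nil)))))))) (.g (nat_lit 7) .nil .nil)))) (.nd (nat_lit 4) 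
(.lf (nat_lit 156394) (.g (nat_lit 4098) (.e (nat_lit 57412) (nat_lit 12) (.e (nat_lit 336176) (nat_lit 10) (.e (nat_lit 344096) (nat_lit 18) (.e (nat_lit 7122) (nat_lit 382) (.e (nat_lit 1201) (nat_lit 88) (.e (nat_lit 65617) (nat_lit 10) (.e (nat_lit 344091) (nat_lit 18) (.e (nat_lit 7261) (nat_lit 384) .nil)))))))) (.g (nat_lit 7) .nil .nil))) 
(.lf (nat_lit 156410) (.g (nat_lit 3096) (.e (nat_lit 57412) (nat_lit 12) (.e (nat_lit 336176) (nat_lit 10) (.e (nat_lit 344096) (nat_lit 18) (.e (nat_lit 7265) (nat_lit 384) (.e (nat_lit 57427) (nat_lit 15) (.e (nat_lit 360449) (nat_lit 0) (.e (nat_lit 7265) (nat_lit 384) .nil))))))) (.g (nat_lit 6) .nil .nil))))) (.nd (nat_lit 3) (.nd (nat_lit 4) 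
(.lf (nat_lit 156390) (.g (nat_lit 1552) (.e (nat_lit 57412) (nat_lit 12) (.e (nat_lit 336176) (nat_lit 10) (.e (nat_lit 344095) (nat_lit 18) (.e (nat_lit 7266) (nat_lit 384) (.e (nat_lit 57426) (nat_lit 15) (.e (nat_lit 360449) (nat_lit 0) (.e (nat_lit 7261) (nat_lit 384) .nil))))))) (.g (nat_lit 4) .nil .nil))) 
(.lf (nat_lit 156406) (.g (nat_lit 3130) (.e (nat_lit 57412) (nat_lit 12) (.e (nat_lit 336176) (nat_lit 10) (.e (nat_lit 344096) (nat_lit 18) (.e (nat_lit 7265) (nat_lit 384) (.e (nat_lit 57426) (nat_lit 15) (.e (nat_lit 360449) (nat_lit 0) (.e (nat_lit 7261) (nat_lit 384) .nil))))))) (.g (nat_lit 0) .nil .nil)))) (.nd (nat_lit 4) 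
(.lf (nat_lit 156398) (.g (nat_lit 1837) (.e (nat_lit 57412) (nat_lit 12) (.e (nat_lit 336176) (nat_lit 10) (.e (nat_lit 344096) (nat_lit 18) (.e (nat_lit 7125) (nat_lit 382) (.e (nat_lit 1224) (nat_lit 90) (.e (nat_lit 81946) (nat_lit 20) (.e (nat_lit 1014) (nat_lit 81) (.e (nat_lit 7263) (nat_lit 384) .nil)))))))) (.g (nat_lit 4) .nil .nil))) 
(.lf (nat_lit 156414) (.g (nat_lit 2740) (.e (nat_lit 57412) (nat_lit 12) (.e (nat_lit 336176) (nat_lit 10) (.e (nat_lit 344096) (nat_lit 18) (.e (nat_lit 7266) (nat_lit 384) (.e (nat_lit 57427) (nat_lit 15) (.e (nat_lit 360449) (nat_lit 0) (.e (nat_lit 7261) (nat_lit 384) .nil))))))) (.g (nat_lit 5) .nil .nil))))))) (.nd (nat_lit 1) (.nd (nat_lit 2) (.nd (nat_lit 3) (.nd (nat_lit 4) 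
(.lf (nat_lit 156385) (.g (nat_lit 2546) (.e (nat_lit 57412) (nat_lit 12) (.e (nat_lit 336176) (nat_lit 10) (.e (nat_lit 344091) (nat_lit 18) (.e (nat_lit 7266) (nat_lit 384) (.e (nat_lit 57427) (nat_lit 15) (.e (nat_lit 360449) (nat_lit 0) (.e (nat_lit 7263) (nat_lit 384) .nil))))))) (.g (nat_lit 5) .nil .nil))) 
(.lf (nat_lit 156401) (.g (nat_lit 3203) (.e (nat_lit 57412) (nat_lit 12) (.e (nat_lit 336176) (nat_lit 10) (.e (nat_lit 344096) (nat_lit 18) (.e (nat_lit 7263) (nat_lit 384) (.e (nat_lit 57412) (nat_lit 12) (.e (nat_lit 336176) (nat_lit 10) (.e (nat_lit 344091) (nat_lit 18) (.e (nat_lit 7263) (nat_lit 384) .nil)))))))) (.g (nat_lit 7) .nil .nil)))) (.nd (nat_lit 4) 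
(.lf (nat_lit 156393) (.g (nat_lit 4062) (.e (nat_lit 57412) (nat_lit 12) (.e (nat_lit 336176) (nat_lit 10) (.e (nat_lit 344096) (nat_lit 18) (.e (nat_lit 7122) (nat_lit 382) (.e (nat_lit 1201) (nat_lit 88) (.e (nat_lit 65610) (nat_lit 10) (.e (nat_lit 344090) (nat_lit 18) (.e (nat_lit 7265) (nat_lit 384) .nil)))))))) (.g (nat_lit 7) .nil .nil))) 
(.lf (nat_lit 156409) (.g (nat_lit 2614) (.e (nat_lit 57412) (nat_lit 12) (.e (nat_lit 336176) (nat_lit 10) (.e (nat_lit 344096) (nat_lit 18) (.e (nat_lit 7265) (nat_lit 384) (.e (nat_lit 57427) (nat_lit 15) (.e (nat_lit 360449) (nat_lit 0) (.e (nat_lit 7263) (nat_lit 384) .nil))))))) (.g (nat_lit 5) .nil .nil))))) (.nd (nat_lit 3) (.nd (nat_lit 4) 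
(.lf (nat_lit 156389) (.g (nat_lit 3489) (.e (nat_lit 57412) (nat_lit 12) (.e (nat_lit 336176) (nat_lit 10) (.e (nat_lit 344091) (nat_lit 18) (.e (nat_lit 7277) (nat_lit 385) (.e (nat_lit 122919) (nat_lit 15) (.e (nat_lit 360451) (nat_lit 0) (.e (nat_lit 7265) (nat_lit 384) .nil))))))) (.g (nat_lit 0) .nil .nil))) 
(.lf (nat_lit 156405) (.g (nat_lit 3716) (.e (nat_lit 57412) (nat_lit 12) (.e (nat_lit 336176) (nat_lit 10) (.e (nat_lit 344096) (nat_lit 18) (.e (nat_lit 7265) (nat_lit 384) (.e (nat_lit 57412) (nat_lit 12) (.e (nat_lit 336176) (nat_lit 10) (.e (nat_lit 344096) (nat_lit 18) (.e (nat_lit 7265) (nat_lit 384) .nil)))))))) (.g (nat_lit 0) .nil .nil)))) (.nd (nat_lit 4) 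
(.lf (nat_lit 156397) (.g (nat_lit 4085) (.e (nat_lit 57412) (nat_lit 12) (.e (nat_lit 336176) (nat_lit 10) (.e (nat_lit 344096) (nat_lit 18) (.e (nat_lit 7125) (nat_lit 382) (.e (nat_lit 1201) (nat_lit 88) (.e (nat_lit 65617) (nat_lit 10) (.e (nat_lit 344095) (nat_lit 18) (.e (nat_lit 7261) (nat_lit 384) .nil)))))))) (.g (nat_lit 0) .nil .nil))) 
(.lf (nat_lit 156413) (.g (nat_lit 2465) (.e (nat_lit 57412) (nat_lit 12) (.e (nat_lit 336176) (nat_lit 10) (.e (nat_lit 344096) (nat_lit 18) (.e (nat_lit 7266) (nat_lit 384) (.e (nat_lit 57426) (nat_lit 15) (.e (nat_lit 360451) (nat_lit 0) (.e (nat_lit 7261) (nat_lit 384) .nil))))))) (.g (nat_lit 5) .nil .nil)))))) (.nd (nat_lit 2) (.nd (nat_lit 3) (.nd (nat_lit 4) 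
(.lf (nat_lit 156387) (.g (nat_lit 3917) (.e (nat_lit 57412) (nat_lit 12) (.e (nat_lit 336176) (nat_lit 10) (.e (nat_lit 344091) (nat_lit 18) (.e (nat_lit 7266) (nat_lit 384) (.e (nat_lit 57427) (nat_lit 15) (.e (nat_lit 360450) (nat_lit 0) (.e (nat_lit 7261) (nat_lit 384) .nil))))))) (.g (nat_lit 0) .nil .nil))) 
(.lf (nat_lit 156403) (.g (nat_lit 3325) (.e (nat_lit 57412) (nat_lit 12) (.e (nat_lit 336176) (nat_lit 10) (.e (nat_lit 344096) (nat_lit 18) (.e (nat_lit 7263) (nat_lit 384) (.e (nat_lit 57427) (nat_lit 15) (.e (nat_lit 360450) (nat_lit 0) (.e (nat_lit 7261) (nat_lit 384) .nil))))))) (.g (nat_lit 7) .nil .nil)))) (.nd (nat_lit 4) 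
(.lf (nat_lit 156395) (.g (nat_lit 4170) (.e (nat_lit 57412) (nat_lit 12) (.e (nat_lit 336176) (nat_lit 10) (.e (nat_lit 344096) (nat_lit 18) (.e (nat_lit 7122) (nat_lit 382) (.e (nat_lit 1201) (nat_lit 88) (.e (nat_lit 65617) (nat_lit 10) (.e (nat_lit 344091) (nat_lit 18) (.e (nat_lit 7263) (nat_lit 384) .nil)))))))) (.g (nat_lit 7) .nil .nil))) 
(.lf (nat_lit 156411) (.g (nat_lit 3249) (.e (nat_lit 57412) (nat_lit 12) (.e (nat_lit 336176) (nat_lit 10) (.e (nat_lit 344096) (nat_lit 18) (.e (nat_lit 7265) (nat_lit 384) (.e (nat_lit 57427) (nat_lit 15) (.e (nat_lit 360450) (nat_lit 0) (.e (nat_lit 7265) (nat_lit 384) .nil))))))) (.g (nat_lit 6) .nil .nil))))) (.nd (nat_lit 3) (.nd (nat_lit 4) 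
(.lf (nat_lit 156391) (.g (nat_lit 1511) (.e (nat_lit 57412) (nat_lit 12) (.e (nat_lit 336176) (nat_lit 10) (.e (nat_lit 344095) (nat_lit 18) (.e (nat_lit 7266) (nat_lit 384) (.e (nat_lit 57426) (nat_lit 15) (.e (nat_lit 360449) (nat_lit 0) (.e (nat_lit 7263) (nat_lit 384) .nil))))))) (.g (nat_lit 4) .nil .nil))) 
(.lf (nat_lit 156407) (.g (nat_lit 3437) (.e (nat_lit 57412) (nat_lit 12) (.e (nat_lit 336176) (nat_lit 10) (.e (nat_lit 344096) (nat_lit 18) (.e (nat_lit 7265) (nat_lit 384) (.e (nat_lit 57426) (nat_lit 15) (.e (nat_lit 360451) (nat_lit 0) (.e (nat_lit 7265) (nat_lit 384) .nil))))))) (.g (nat_lit 7) .nil .nil)))) (.nd (nat_lit 4) 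
(.lf (nat_lit 156399) (.g (nat_lit 2776) (.e (nat_lit 57412) (nat_lit 12) (.e (nat_lit 336176) (nat_lit 10) (.e (nat_lit 344096) (nat_lit 18) (.e (nat_lit 7261) (nat_lit 384) (.e (nat_lit 57426) (nat_lit 15) (.e (nat_lit 360449) (nat_lit 0) (.e (nat_lit 7261) (nat_lit 384) .nil))))))) (.g (nat_lit 0) .nil .nil))) 
(.lf (nat_lit 156415) (.g (nat_lit 2761) (.e (nat_lit 57412) (nat_lit 12) (.e (nat_lit 336176) (nat_lit 10) (.e (nat_lit 344096) (nat_lit 18) (.e (nat_lit 7266) (nat_lit 384) (.e (nat_lit 57427) (nat_lit 15) (.e (nat_lit 360449) (nat_lit 0) (.e (nat_lit 7263) (nat_lit 384) .nil))))))) (.g (nat_lit 5) .nil .nil))))))))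

noncomputable def tv2092 : DT := (.nd (nat_lit 0) (.nd (nat_lit 1) (.nd (nat_lit 2) (.nd (nat_lit 3) (.nd (nat_lit 4) (.nd (nat_lit 5) 
(.lf (nat_lit 156416) (.g (nat_lit 4063) (.e (nat_lit 57412) (nat_lit 12) (.e (nat_lit 336176) (nat_lit 10) (.e (nat_lit 344096) (nat_lit 18) (.e (nat_lit 7266) (nat_lit 384) (.e (nat_lit 57427) (nat_lit 15) (.e (nat_lit 360450) (nat_lit 0) (.e (nat_lit 7263) (nat_lit 384) .nil))))))) (.g (nat_lit 0) .nil .nil))) 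
(.lf (nat_lit 156448) (.g (nat_lit 1075) (.e (nat_lit 57412) (nat_lit 12) (.e (nat_lit 336176) (nat_lit 10) (.e (nat_lit 344177) (nat_lit 43) (.e (nat_lit 770058) (nat_lit 5) .nil)))) .nil))) (.nd (nat_lit 5) 
(.lf (nat_lit 156432) (.g (nat_lit 1028) (.e (nat_lit 57412) (nat_lit 12) (.e (nat_lit 336176) (nat_lit 10) (.e (nat_lit 344169) (nat_lit 40) (.e (nat_lit 671747) (nat_lit 0) .nil)))) .nil)) 
(.lf (nat_lit 156464) (.g (nat_lit 1867) (.e (nat_lit 57412) (nat_lit 12) (.e (nat_lit 336193) (nat_lit 12) (.e (nat_lit 385092) (nat_lit 49) (.e (nat_lit 778327) (nat_lit 6) (.e (nat_lit 81957) (nat_lit 24) (.e (nat_lit 123195) (nat_lit 266) .nil)))))) (.g (nat_lit 4) .nil .nil))))) (.nd (nat_lit 4) (.nd (nat_lit 5) 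
(.lf (nat_lit 156424) (.g (nat_lit 1977) (.e (nat_lit 57412) (nat_lit 12) (.e (nat_lit 336176) (nat_lit 10) (.e (nat_lit 344156) (nat_lit 36) (.e (nat_lit 638998) (nat_lit 8) (.e (nat_lit 172095) (nat_lit 9) (.e (nat_lit 426109) (nat_lit 1) (.e (nat_lit 164319) (nat_lit 228) .nil))))))) (.g (nat_lit 4) .nil .nil))) 
(.lf (nat_lit 156456) (.g (nat_lit 3977) (.e (nat_lit 57412) (nat_lit 12) (.e (nat_lit 336176) (nat_lit 10) (.e (nat_lit 344177) (nat_lit 43) (.e (nat_lit 770072) (nat_lit 8) (.e (nat_lit 65617) (nat_lit 10) (.e (nat_lit 344096) (nat_lit 18) (.e (nat_lit 7265) (nat_lit 384) .nil))))))) (.g (nat_lit 0) .nil .nil)))) (.nd (nat_lit 5) 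
(.lf (nat_lit 156440) (.g (nat_lit 1851) (.e (nat_lit 57412) (nat_lit 12) (.e (nat_lit 336176) (nat_lit 10) (.e (nat_lit 344176) (nat_lit 43) (.e (nat_lit 770072) (nat_lit 8) (.e (nat_lit 65617) (nat_lit 10) (.e (nat_lit 344096) (nat_lit 18) (.e (nat_lit 7261) (nat_lit 384) .nil))))))) (.g (nat_lit 4) .nil .nil))) 
(.lf (nat_lit 156472) (.g (nat_lit 2897) (.e (nat_lit 57412) (nat_lit 12) (.e (nat_lit 336193) (nat_lit 12) (.e (nat_lit 385093) (nat_lit 49) (.e (nat_lit 778327) (nat_lit 6) (.e (nat_lit 81959) (nat_lit 24) (.e (nat_lit 123194) (nat_lit 266) .nil)))))) (.g (nat_lit 5) .nil .nil)))))) (.nd (nat_lit 3) (.nd (nat_lit 4) (.nd (nat_lit 5) 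
(.lf (nat_lit 156420) (.g (nat_lit 2444) (.e (nat_lit 57412) (nat_lit 12) (.e (nat_lit 336176) (nat_lit 10) (.e (nat_lit 344133) (nat_lit 26) (.e (nat_lit 557119) (nat_lit 18) (.e (nat_lit 2798) (nat_lit 180) (.e (nat_lit 303140) (nat_lit 10) (.e (nat_lit 434202) (nat_lit 18) (.e (nat_lit 6830) (nat_lit 367) .nil)))))))) (.g (nat_lit 4) .nil .nil))) 
(.lf (nat_lit 156452) (.g (nat_lit 3874) (.e (nat_lit 57412) (nat_lit 12) (.e (nat_lit 336176) (nat_lit 10) (.e (nat_lit 344177) (nat_lit 43) (.e (nat_lit 770071) (nat_lit 8) (.e (nat_lit 65617) (nat_lit 10) (.e (nat_lit 344096) (nat_lit 18) (.e (nat_lit 7265) (nat_lit 384) .nil))))))) (.g (nat_lit 0) .nil .nil)))) (.nd (nat_lit 5) 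
(.lf (nat_lit 156436) (.g (nat_lit 2258) (.e (nat_lit 57412) (nat_lit 12) (.e (nat_lit 336176) (nat_lit 10) (.e (nat_lit 344174) (nat_lit 42) (.e (nat_lit 761866) (nat_lit 5) (.e (nat_lit 1454) (nat_lit 108) (.e (nat_lit 336176) (nat_lit 10) (.e (nat_lit 344095) (nat_lit 18) (.e (nat_lit 7263) (nat_lit 384) .nil)))))))) (.g (nat_lit 5) .nil .nil))) 
(.lf (nat_lit 156468) (.g (nat_lit 3807) (.e (nat_lit 57412) (nat_lit 12) (.e (nat_lit 336193) (nat_lit 12) (.e (nat_lit 385093) (nat_lit 49) (.e (nat_lit 778326) (nat_lit 6) (.e (nat_lit 81959) (nat_lit 24) (.e (nat_lit 123195) (nat_lit 266) .nil)))))) (.g (nat_lit 0) .nil .nil))))) (.nd (nat_lit 4) (.nd (nat_lit 5) 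
(.lf (nat_lit 156428) (.g (nat_lit 1301) (.e (nat_lit 57412) (nat_lit 12) (.e (nat_lit 336176) (nat_lit 10) (.e (nat_lit 344164) (nat_lit 37) (.e (nat_lit 647195) (nat_lit 9) (.e (nat_lit 7936) (nat_lit 35) .nil))))) .nil)) 
(.lf (nat_lit 156460) (.g (nat_lit 2015) (.e (nat_lit 57412) (nat_lit 12) (.e (nat_lit 336178) (nat_lit 10) (.e (nat_lit 344156) (nat_lit 36) (.e (nat_lit 638998) (nat_lit 8) (.e (nat_lit 172094) (nat_lit 9) (.e (nat_lit 426109) (nat_lit 1) (.e (nat_lit 164319) (nat_lit 228) .nil))))))) (.g (nat_lit 4) .nil .nil)))) (.nd (nat_lit 5) 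
(.lf (nat_lit 156444) (.g (nat_lit 947) (.e (nat_lit 57412) (nat_lit 12) (.e (nat_lit 336176) (nat_lit 10) (.e (nat_lit 344177) (nat_lit 43) (.e (nat_lit 770057) (nat_lit 5) .nil)))) .nil)) 
(.lf (nat_lit 156476) (.g (nat_lit 3839) (.e (nat_lit 57412) (nat_lit 12) (.e (nat_lit 336193) (nat_lit 12) (.e (nat_lit 385094) (nat_lit 49) (.e (nat_lit 778326) (nat_lit 6) (.e (nat_lit 81957) (nat_lit 24) (.e (nat_lit 123195) (nat_lit 266) .nil)))))) (.g (nat_lit 0) .nil .nil))))))) (.nd (nat_lit 2) (.nd (nat_lit 3) (.nd (nat_lit 4) (.nd (nat_lit 5) 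
(.lf (nat_lit 156418) (.g (nat_lit 2414) (.e (nat_lit 57412) (nat_lit 12) (.e (nat_lit 336176) (nat_lit 10) (.e (nat_lit 344097) (nat_lit 18) (.e (nat_lit 7270) (nat_lit 385) (.e (nat_lit 122919) (nat_lit 15) (.e (nat_lit 360451) (nat_lit 0) (.e (nat_lit 7265) (nat_lit 384) .nil))))))) (.g (nat_lit 4) .nil .nil))) 
(.lf (nat_lit 156450) (.g (nat_lit 3452) (.e (nat_lit 57412) (nat_lit 12) (.e (nat_lit 336176) (nat_lit 10) (.e (nat_lit 344177) (nat_lit 43) (.e (nat_lit 770071) (nat_lit 8) (.e (nat_lit 65617) (nat_lit 10) (.e (nat_lit 344095) (nat_lit 18) (.e (nat_lit 7261) (nat_lit 384) .nil))))))) (.g (nat_lit 0) .nil .nil)))) (.nd (nat_lit 5) 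
(.lf (nat_lit 156434) (.g (nat_lit 935) (.e (nat_lit 57412) (nat_lit 12) (.e (nat_lit 336176) (nat_lit 10) (.e (nat_lit 344169) (nat_lit 40) (.e (nat_lit 671764) (nat_lit 6) .nil)))) .nil)) 
(.lf (nat_lit 156466) (.g (nat_lit 3649) (.e (nat_lit 57412) (nat_lit 12) (.e (nat_lit 336193) (nat_lit 12) (.e (nat_lit 385093) (nat_lit 49) (.e (nat_lit 778326) (nat_lit 6) (.e (nat_lit 81957) (nat_lit 24) (.e (nat_lit 123195) (nat_lit 266) .nil)))))) (.g (nat_lit 0) .nil .nil))))) (.nd (nat_lit 4) (.nd (nat_lit 5) 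
(.lf (nat_lit 156426) (.g (nat_lit 1686) (.e (nat_lit 57412) (nat_lit 12) (.e (nat_lit 336176) (nat_lit 10) (.e (nat_lit 344161) (nat_lit 37) (.e (nat_lit 647195) (nat_lit 9) (.e (nat_lit 7936) (nat_lit 34) .nil))))) .nil)) 
(.lf (nat_lit 156458) (.g (nat_lit 2665) (.e (nat_lit 57412) (nat_lit 12) (.e (nat_lit 336178) (nat_lit 10) (.e (nat_lit 344100) (nat_lit 18) (.e (nat_lit 7270) (nat_lit 385) (.e (nat_lit 122919) (nat_lit 15) (.e (nat_lit 360451) (nat_lit 0) (.e (nat_lit 7261) (nat_lit 384) .nil))))))) (.g (nat_lit 6) .nil .nil)))) (.nd (nat_lit 5) 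
(.lf (nat_lit 156442) (.g (nat_lit 1956) (.e (nat_lit 57412) (nat_lit 12) (.e (nat_lit 336176) (nat_lit 10) (.e (nat_lit 344176) (nat_lit 43) (.e (nat_lit 770072) (nat_lit 8) (.e (nat_lit 65617) (nat_lit 10) (.e (nat_lit 344096) (nat_lit 18) (.e (nat_lit 7265) (nat_lit 384) .nil))))))) (.g (nat_lit 4) .nil .nil))) 
(.lf (nat_lit 156474) (.g (nat_lit 1370) (.e (nat_lit 57412) (nat_lit 12) (.e (nat_lit 336193) (nat_lit 12) (.e (nat_lit 385093) (nat_lit 49) (.e (nat_lit 786176) (nat_lit 6) .nil)))) .nil))))) (.nd (nat_lit 3) (.nd (nat_lit 4) (.nd (nat_lit 5) 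
(.lf (nat_lit 156422) (.g (nat_lit 2106) (.e (nat_lit 57412) (nat_lit 12) (.e (nat_lit 336176) (nat_lit 10) (.e (nat_lit 344138) (nat_lit 29) (.e (nat_lit 581651) (nat_lit 4) (.e (nat_lit 172106) (nat_lit 10) (.e (nat_lit 434202) (nat_lit 18) (.e (nat_lit 6828) (nat_lit 367) .nil))))))) (.g (nat_lit 5) .nil .nil))) 
(.lf (nat_lit 156454) (.g (nat_lit 3567) (.e (nat_lit 57412) (nat_lit 12) (.e (nat_lit 336176) (nat_lit 10) (.e (nat_lit 344177) (nat_lit 43) (.e (nat_lit 770072) (nat_lit 8) (.e (nat_lit 65617) (nat_lit 10) (.e (nat_lit 344095) (nat_lit 18) (.e (nat_lit 7261) (nat_lit 384) .nil))))))) (.g (nat_lit 0) .nil .nil)))) (.nd (nat_lit 5) 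
(.lf (nat_lit 156438) (.g (nat_lit 1718) (.e (nat_lit 57412) (nat_lit 12) (.e (nat_lit 336176) (nat_lit 10) (.e (nat_lit 344175) (nat_lit 43) (.e (nat_lit 770072) (nat_lit 8) (.e (nat_lit 65617) (nat_lit 10) (.e (nat_lit 344091) (nat_lit 18) (.e (nat_lit 7265) (nat_lit 384) .nil))))))) (.g (nat_lit 4) .nil .nil))) 
(.lf (nat_lit 156470) (.g (nat_lit 1909) (.e (nat_lit 57412) (nat_lit 12) (.e (nat_lit 336193) (nat_lit 12) (.e (nat_lit 385093) (nat_lit 49) (.e (nat_lit 778327) (nat_lit 6) (.e (nat_lit 81957) (nat_lit 24) (.e (nat_lit 123194) (nat_lit 266) .nil)))))) (.g (nat_lit 4) .nil .nil))))) (.nd (nat_lit 4) (.nd (nat_lit 5) 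
(.lf (nat_lit 156430) (.g (nat_lit 3191) (.e (nat_lit 57412) (nat_lit 12) (.e (nat_lit 336176) (nat_lit 10) (.e (nat_lit 344168) (nat_lit 40) (.e (nat_lit 671764) (nat_lit 6) (.e (nat_lit 81957) (nat_lit 24) (.e (nat_lit 123195) (nat_lit 266) .nil)))))) (.g (nat_lit 6) .nil .nil))) 
(.lf (nat_lit 156462) (.g (nat_lit 3209) (.e (nat_lit 57412) (nat_lit 12) (.e (nat_lit 336193) (nat_lit 12) (.e (nat_lit 385063) (nat_lit 25) (.e (nat_lit 524322) (nat_lit 12) (.e (nat_lit 450563) (nat_lit 0) (.e (nat_lit 6830) (nat_lit 367) .nil)))))) (.g (nat_lit 0) .nil .nil)))) (.nd (nat_lit 5) 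
(.lf (nat_lit 156446) (.g (nat_lit 2763) (.e (nat_lit 57412) (nat_lit 12) (.e (nat_lit 336176) (nat_lit 10) (.e (nat_lit 344177) (nat_lit 43) (.e (nat_lit 770057) (nat_lit 5) (.e (nat_lit 1589) (nat_lit 111) (.e (nat_lit 360449) (nat_lit 0) (.e (nat_lit 7263) (nat_lit 384) .nil))))))) (.g (nat_lit 6) .nil .nil))) 
(.lf (nat_lit 156478) (.g (nat_lit 2578) (.e (nat_lit 57412) (nat_lit 12) (.e (nat_lit 336193) (nat_lit 12) (.e (nat_lit 385094) (nat_lit 49) (.e (nat_lit 778326) (nat_lit 6) (.e (nat_lit 81959) (nat_lit 24) (.e (nat_lit 123194) (nat_lit 266) .nil)))))) (.g (nat_lit 5) .nil .nil)))))))) (.nd (nat_lit 1) (.nd (nat_lit 2) (.nd (nat_lit 3) (.nd (nat_lit 4) (.nd (nat_lit 5) 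
(.lf (nat_lit 156417) (.g (nat_lit 3086) (.e (nat_lit 57412) (nat_lit 12) (.e (nat_lit 336176) (nat_lit 10) (.e (nat_lit 344096) (nat_lit 18) (.e (nat_lit 7277) (nat_lit 385) (.e (nat_lit 122919) (nat_lit 15) (.e (nat_lit 360451) (nat_lit 0) (.e (nat_lit 7261) (nat_lit 384) .nil))))))) (.g (nat_lit 6) .nil .nil))) 
(.lf (nat_lit 156449) (.g (nat_lit 2608) (.e (nat_lit 57412) (nat_lit 12) (.e (nat_lit 336176) (nat_lit 10) (.e (nat_lit 344177) (nat_lit 43) (.e (nat_lit 770058) (nat_lit 5) (.e (nat_lit 1589) (nat_lit 111) (.e (nat_lit 360451) (nat_lit 0) (.e (nat_lit 7261) (nat_lit 384) .nil))))))) (.g (nat_lit 5) .nil .nil)))) (.nd (nat_lit 5) 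
(.lf (nat_lit 156433) (.g (nat_lit 985) (.e (nat_lit 57412) (nat_lit 12) (.e (nat_lit 336176) (nat_lit 10) (.e (nat_lit 344169) (nat_lit 40) (.e (nat_lit 671748) (nat_lit 0) .nil)))) .nil)) 
(.lf (nat_lit 156465) (.g (nat_lit 1267) (.e (nat_lit 57412) (nat_lit 12) (.e (nat_lit 336193) (nat_lit 12) (.e (nat_lit 385093) (nat_lit 49) (.e (nat_lit 778326) (nat_lit 6) .nil)))) .nil)))) (.nd (nat_lit 4) (.nd (nat_lit 5) 
(.lf (nat_lit 156425) (.g (nat_lit 1214) (.e (nat_lit 57412) (nat_lit 12) (.e (nat_lit 336176) (nat_lit 10) (.e (nat_lit 344161) (nat_lit 37) (.e (nat_lit 647190) (nat_lit 9) (.e (nat_lit 7936) (nat_lit 35) .nil))))) .nil)) 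
(.lf (nat_lit 156457) (.g (nat_lit 3605) (.e (nat_lit 57412) (nat_lit 12) (.e (nat_lit 336176) (nat_lit 10) (.e (nat_lit 344177) (nat_lit 43) (.e (nat_lit 770072) (nat_lit 8) (.e (nat_lit 65619) (nat_lit 10) (.e (nat_lit 344090) (nat_lit 18) (.e (nat_lit 7265) (nat_lit 384) .nil))))))) (.g (nat_lit 6) .nil .nil)))) (.nd (nat_lit 5) 
(.lf (nat_lit 156441) (.g (nat_lit 1912) (.e (nat_lit 57412) (nat_lit 12) (.e (nat_lit 336176) (nat_lit 10) (.e (nat_lit 344176) (nat_lit 43) (.e (nat_lit 770072) (nat_lit 8) (.e (nat_lit 65617) (nat_lit 10) (.e (nat_lit 344096) (nat_lit 18) (.e (nat_lit 7263) (nat_lit 384) .nil))))))) (.g (nat_lit 4) .nil .nil))) 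
(.lf (nat_lit 156473) (.g (nat_lit 4097) (.e (nat_lit 57412) (nat_lit 12) (.e (nat_lit 336193) (nat_lit 12) (.e (nat_lit 385093) (nat_lit 49) (.e (nat_lit 778327) (nat_lit 6) (.e (nat_lit 81959) (nat_lit 24) (.e (nat_lit 123195) (nat_lit 266) .nil)))))) (.g (nat_lit 0) .nil .nil)))))) (.nd (nat_lit 3) (.nd (nat_lit 4) (.nd (nat_lit 5) 
(.lf (nat_lit 156421) (.g (nat_lit 2543) (.e (nat_lit 57412) (nat_lit 12) (.e (nat_lit 336176) (nat_lit 10) (.e (nat_lit 344133) (nat_lit 26) (.e (nat_lit 557119) (nat_lit 18) (.e (nat_lit 2808) (nat_lit 180) (.e (nat_lit 303140) (nat_lit 10) (.e (nat_lit 434202) (nat_lit 18) (.e (nat_lit 6830) (nat_lit 367) .nil)))))))) (.g (nat_lit 4) .nil .nil))) 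
(.lf (nat_lit 156453) (.g (nat_lit 2699) (.e (nat_lit 57412) (nat_lit 12) (.e (nat_lit 336176) (nat_lit 10) (.e (nat_lit 344177) (nat_lit 43) (.e (nat_lit 770071) (nat_lit 8) (.e (nat_lit 65619) (nat_lit 10) (.e (nat_lit 344090) (nat_lit 18) (.e (nat_lit 7265) (nat_lit 384) .nil))))))) (.g (nat_lit 5) .nil .nil)))) (.nd (nat_lit 5) 
(.lf (nat_lit 156437) (.g (nat_lit 2063) (.e (nat_lit 57412) (nat_lit 12) (.e (nat_lit 336176) (nat_lit 10) (.e (nat_lit 344174) (nat_lit 42) (.e (nat_lit 761867) (nat_lit 5) (.e (nat_lit 1454) (nat_lit 108) (.e (nat_lit 336176) (nat_lit 10) (.e (nat_lit 344095) (nat_lit 18) (.e (nat_lit 7263) (nat_lit 384) .nil)))))))) (.g (nat_lit 5) .nil .nil))) 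
(.lf (nat_lit 156469) (.g (nat_lit 1309) (.e (nat_lit 57412) (nat_lit 12) (.e (nat_lit 336193) (nat_lit 12) (.e (nat_lit 385093) (nat_lit 49) (.e (nat_lit 778327) (nat_lit 6) .nil)))) .nil)))) (.nd (nat_lit 4) (.nd (nat_lit 5) 
(.lf (nat_lit 156429) (.g (nat_lit 379) (.e (nat_lit 57412) (nat_lit 12) (.e (nat_lit 336176) (nat_lit 10) (.e (nat_lit 344168) (nat_lit 40) .nil))) .nil)) 
(.lf (nat_lit 156461) (.g (nat_lit 1977) (.e (nat_lit 57412) (nat_lit 12) (.e (nat_lit 336178) (nat_lit 10) (.e (nat_lit 344156) (nat_lit 36) (.e (nat_lit 638998) (nat_lit 8) (.e (nat_lit 172097) (nat_lit 9) (.e (nat_lit 426109) (nat_lit 1) (.e (nat_lit 164319) (nat_lit 228) .nil))))))) (.g (nat_lit 4) .nil .nil)))) (.nd (nat_lit 5) 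
(.lf (nat_lit 156445) (.g (nat_lit 2771) (.e (nat_lit 57412) (nat_lit 12) (.e (nat_lit 336176) (nat_lit 10) (.e (nat_lit 344177) (nat_lit 43) (.e (nat_lit 770057) (nat_lit 5) (.e (nat_lit 1589) (nat_lit 111) (.e (nat_lit 360449) (nat_lit 0) (.e (nat_lit 7261) (nat_lit 384) .nil))))))) (.g (nat_lit 6) .nil .nil))) 
(.lf (nat_lit 156477) (.g (nat_lit 1848) (.e (nat_lit 57412) (nat_lit 12) (.e (nat_lit 336193) (nat_lit 12) (.e (nat_lit 385094) (nat_lit 49) (.e (nat_lit 778326) (nat_lit 6) (.e (nat_lit 81958) (nat_lit 24) .nil))))) .nil)))))) (.nd (nat_lit 2) (.nd (nat_lit 3) (.nd (nat_lit 4) (.nd (nat_lit 5) 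
(.lf (nat_lit 156419) (.g (nat_lit 1298) (.e (nat_lit 57412) (nat_lit 12) (.e (nat_lit 336176) (nat_lit 10) (.e (nat_lit 344133) (nat_lit 26) (.e (nat_lit 557119) (nat_lit 18) .nil)))) .nil)) 
(.lf (nat_lit 156451) (.g (nat_lit 3823) (.e (nat_lit 57412) (nat_lit 12) (.e (nat_lit 336176) (nat_lit 10) (.e (nat_lit 344177) (nat_lit 43) (.e (nat_lit 770071) (nat_lit 8) (.e (nat_lit 65617) (nat_lit 10) (.e (nat_lit 344096) (nat_lit 18) (.e (nat_lit 7263) (nat_lit 384) .nil))))))) (.g (nat_lit 7) .nil .nil)))) (.nd (nat_lit 5) 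
(.lf (nat_lit 156435) (.g (nat_lit 2831) (.e (nat_lit 57412) (nat_lit 12) (.e (nat_lit 336176) (nat_lit 10) (.e (nat_lit 344169) (nat_lit 40) (.e (nat_lit 671764) (nat_lit 6) (.e (nat_lit 81959) (nat_lit 24) (.e (nat_lit 123194) (nat_lit 266) .nil)))))) (.g (nat_lit 6) .nil .nil))) 
(.lf (nat_lit 156467) (.g (nat_lit 2608) (.e (nat_lit 57412) (nat_lit 12) (.e (nat_lit 336193) (nat_lit 12) (.e (nat_lit 385093) (nat_lit 49) (.e (nat_lit 778326) (nat_lit 6) (.e (nat_lit 81959) (nat_lit 24) (.e (nat_lit 123194) (nat_lit 266) .nil)))))) (.g (nat_lit 5) .nil .nil))))) (.nd (nat_lit 4) (.nd (nat_lit 5) 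
(.lf (nat_lit 156427) (.g (nat_lit 1686) (.e (nat_lit 57412) (nat_lit 12) (.e (nat_lit 336176) (nat_lit 10) (.e (nat_lit 344161) (nat_lit 37) (.e (nat_lit 647195) (nat_lit 9) (.e (nat_lit 7936) (nat_lit 35) .nil))))) .nil)) 
(.lf (nat_lit 156459) (.g (nat_lit 2895) (.e (nat_lit 57412) (nat_lit 12) (.e (nat_lit 336178) (nat_lit 10) (.e (nat_lit 344100) (nat_lit 18) (.e (nat_lit 7270) (nat_lit 385) (.e (nat_lit 122919) (nat_lit 15) (.e (nat_lit 360451) (nat_lit 0) (.e (nat_lit 7265) (nat_lit 384) .nil))))))) (.g (nat_lit 7) .nil .nil)))) (.nd (nat_lit 5) 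
(.lf (nat_lit 156443) (.g (nat_lit 2555) (.e (nat_lit 57412) (nat_lit 12) (.e (nat_lit 336176) (nat_lit 10) (.e (nat_lit 344177) (nat_lit 43) (.e (nat_lit 770055) (nat_lit 5) (.e (nat_lit 1598) (nat_lit 111) (.e (nat_lit 360449) (nat_lit 0) (.e (nat_lit 7261) (nat_lit 384) .nil))))))) (.g (nat_lit 0) .nil .nil))) 
(.lf (nat_lit 156475) (.g (nat_lit 1184) (.e (nat_lit 57412) (nat_lit 12) (.e (nat_lit 336193) (nat_lit 12) (.e (nat_lit 385094) (nat_lit 49) (.e (nat_lit 778326) (nat_lit 6) .nil)))) .nil))))) (.nd (nat_lit 3) (.nd (nat_lit 4) (.nd (nat_lit 5) 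
(.lf (nat_lit 156423) (.g (nat_lit 3489) (.e (nat_lit 57412) (nat_lit 12) (.e (nat_lit 336176) (nat_lit 10) (.e (nat_lit 344156) (nat_lit 36) (.e (nat_lit 638998) (nat_lit 8) (.e (nat_lit 172094) (nat_lit 9) (.e (nat_lit 426109) (nat_lit 1) (.e (nat_lit 164319) (nat_lit 228) .nil))))))) (.g (nat_lit 0) .nil .nil))) 
(.lf (nat_lit 156455) (.g (nat_lit 3931) (.e (nat_lit 57412) (nat_lit 12) (.e (nat_lit 336176) (nat_lit 10) (.e (nat_lit 344177) (nat_lit 43) (.e (nat_lit 770072) (nat_lit 8) (.e (nat_lit 65617) (nat_lit 10) (.e (nat_lit 344096) (nat_lit 18) (.e (nat_lit 7263) (nat_lit 384) .nil))))))) (.g (nat_lit 7) .nil .nil)))) (.nd (nat_lit 5) 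
(.lf (nat_lit 156439) (.g (nat_lit 1791) (.e (nat_lit 57412) (nat_lit 12) (.e (nat_lit 336176) (nat_lit 10) (.e (nat_lit 344176) (nat_lit 43) (.e (nat_lit 770072) (nat_lit 8) (.e (nat_lit 65617) (nat_lit 10) (.e (nat_lit 344091) (nat_lit 18) (.e (nat_lit 7265) (nat_lit 384) .nil))))))) (.g (nat_lit 4) .nil .nil))) 
(.lf (nat_lit 156471) (.g (nat_lit 3551) (.e (nat_lit 57412) (nat_lit 12) (.e (nat_lit 336193) (nat_lit 12) (.e (nat_lit 385093) (nat_lit 49) (.e (nat_lit 778327) (nat_lit 6) (.e (nat_lit 81957) (nat_lit 24) (.e (nat_lit 123195) (nat_lit 266) .nil)))))) (.g (nat_lit 0) .nil .nil))))) (.nd (nat_lit 4) (.nd (nat_lit 5) 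
(.lf (nat_lit 156431) (.g (nat_lit 386) (.e (nat_lit 57412) (nat_lit 12) (.e (nat_lit 336176) (nat_lit 10) (.e (nat_lit 344169) (nat_lit 40) .nil))) .nil)) 
(.lf (nat_lit 156463) (.g (nat_lit 2685) (.e (nat_lit 57412) (nat_lit 12) (.e (nat_lit 336193) (nat_lit 12) (.e (nat_lit 385092) (nat_lit 49) (.e (nat_lit 778326) (nat_lit 6) (.e (nat_lit 81957) (nat_lit 24) (.e (nat_lit 123195) (nat_lit 266) .nil)))))) (.g (nat_lit 5) .nil .nil)))) (.nd (nat_lit 5) 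
(.lf (nat_lit 156447) (.g (nat_lit 2625) (.e (nat_lit 57412) (nat_lit 12) (.e (nat_lit 336176) (nat_lit 10) (.e (nat_lit 344177) (nat_lit 43) (.e (nat_lit 770057) (nat_lit 5) (.e (nat_lit 1598) (nat_lit 111) (.e (nat_lit 360449) (nat_lit 0) (.e (nat_lit 7261) (nat_lit 384) .nil))))))) (.g (nat_lit 0) .nil .nil))) 
(.lf (nat_lit 156479) (.g (nat_lit 3913) (.e (nat_lit 57412) (nat_lit 12) (.e (nat_lit 336193) (nat_lit 12) (.e (nat_lit 385094) (nat_lit 49) (.e (nat_lit 778326) (nat_lit 6) (.e (nat_lit 81959) (nat_lit 24) (.e (nat_lit 123195) (nat_lit 266) .nil)))))) (.g (nat_lit 0) .nil .nil)))))))))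

noncomputable def tv2093 : DT := (.nd (nat_lit 0) (.nd (nat_lit 1) (.nd (nat_lit 2) (.nd (nat_lit 3) (.nd (nat_lit 4) (.nd (nat_lit 5) 
(.lf (nat_lit 156480) (.g (nat_lit 1138) (.e (nat_lit 57412) (nat_lit 12) (.e (nat_lit 336193) (nat_lit 12) (.e (nat_lit 385094) (nat_lit 49) (.e (nat_lit 778327) (nat_lit 6) .nil)))) .nil)) 
(.lf (nat_lit 156512) (.g (nat_lit 2259) (.e (nat_lit 57412) (nat_lit 12) (.e (nat_lit 336193) (nat_lit 12) (.e (nat_lit 385106) (nat_lit 50) (.e (nat_lit 786478) (nat_lit 29) (.e (nat_lit 352318) (nat_lit 24) (.e (nat_lit 123194) (nat_lit 266) .nil)))))) (.g (nat_lit 4) .nil .nil)))) (.nd (nat_lit 5) 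
(.lf (nat_lit 156496) (.g (nat_lit 2030) (.e (nat_lit 57412) (nat_lit 12) (.e (nat_lit 336193) (nat_lit 12) (.e (nat_lit 385105) (nat_lit 50) (.e (nat_lit 786481) (nat_lit 30) (.e (nat_lit 360455) (nat_lit 0) .nil))))) .nil)) 
(.lf (nat_lit 156528) (.g (nat_lit 2652) (.e (nat_lit 57412) (nat_lit 12) (.e (nat_lit 336193) (nat_lit 12) (.e (nat_lit 385106) (nat_lit 50) (.e (nat_lit 786483) (nat_lit 30) (.e (nat_lit 360457) (nat_lit 0) (.e (nat_lit 5949) (nat_lit 322) .nil)))))) (.g (nat_lit 4) .nil .nil))))) (.nd (nat_lit 4) (.nd (nat_lit 5) 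
(.lf (nat_lit 156488) (.g (nat_lit 2915) (.e (nat_lit 57412) (nat_lit 12) (.e (nat_lit 336193) (nat_lit 12) (.e (nat_lit 385105) (nat_lit 50) (.e (nat_lit 786478) (nat_lit 29) (.e (nat_lit 352318) (nat_lit 24) (.e (nat_lit 123197) (nat_lit 266) .nil)))))) (.g (nat_lit 4) .nil .nil))) 
(.lf (nat_lit 156520) (.g (nat_lit 1996) (.e (nat_lit 57412) (nat_lit 12) (.e (nat_lit 336193) (nat_lit 12) (.e (nat_lit 385106) (nat_lit 50) (.e (nat_lit 786481) (nat_lit 30) (.e (nat_lit 368384) (nat_lit 0) .nil))))) .nil))) (.nd (nat_lit 5) 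
(.lf (nat_lit 156504) (.g (nat_lit 3498) (.e (nat_lit 57412) (nat_lit 12) (.e (nat_lit 336193) (nat_lit 12) (.e (nat_lit 385105) (nat_lit 50) (.e (nat_lit 786483) (nat_lit 30) (.e (nat_lit 360450) (nat_lit 0) (.e (nat_lit 7936) (nat_lit 322) .nil)))))) (.g (nat_lit 5) .nil .nil))) 
(.lf (nat_lit 156536) (.g (nat_lit 1762) (.e (nat_lit 57412) (nat_lit 12) (.e (nat_lit 336200) (nat_lit 12) (.e (nat_lit 385094) (nat_lit 49) (.e (nat_lit 778326) (nat_lit 6) (.e (nat_lit 81959) (nat_lit 24) (.e (nat_lit 123196) (nat_lit 266) .nil)))))) (.g (nat_lit 5) .nil .nil)))))) (.nd (nat_lit 3) (.nd (nat_lit 4) (.nd (nat_lit 5) 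
(.lf (nat_lit 156484) (.g (nat_lit 4025) (.e (nat_lit 57412) (nat_lit 12) (.e (nat_lit 336193) (nat_lit 12) (.e (nat_lit 385094) (nat_lit 49) (.e (nat_lit 778327) (nat_lit 6) (.e (nat_lit 81959) (nat_lit 24) (.e (nat_lit 123195) (nat_lit 266) .nil)))))) (.g (nat_lit 0) .nil .nil))) 
(.lf (nat_lit 156516) (.g (nat_lit 1082) (.e (nat_lit 57412) (nat_lit 12) (.e (nat_lit 336193) (nat_lit 12) (.e (nat_lit 385106) (nat_lit 50) (.e (nat_lit 786481) (nat_lit 30) .nil)))) .nil))) (.nd (nat_lit 5) 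
(.lf (nat_lit 156500) (.g (nat_lit 2684) (.e (nat_lit 57412) (nat_lit 12) (.e (nat_lit 336193) (nat_lit 12) (.e (nat_lit 385105) (nat_lit 50) (.e (nat_lit 786481) (nat_lit 30) (.e (nat_lit 360457) (nat_lit 0) (.e (nat_lit 5947) (nat_lit 322) .nil)))))) (.g (nat_lit 4) .nil .nil))) 
(.lf (nat_lit 156532) (.g (nat_lit 1733) (.e (nat_lit 57412) (nat_lit 12) (.e (nat_lit 336200) (nat_lit 12) (.e (nat_lit 385094) (nat_lit 49) (.e (nat_lit 778326) (nat_lit 6) (.e (nat_lit 81957) (nat_lit 24) (.e (nat_lit 123198) (nat_lit 266) .nil)))))) (.g (nat_lit 5) .nil .nil))))) (.nd (nat_lit 4) (.nd (nat_lit 5) 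
(.lf (nat_lit 156492) (.g (nat_lit 3987) (.e (nat_lit 57412) (nat_lit 12) (.e (nat_lit 336193) (nat_lit 12) (.e (nat_lit 385105) (nat_lit 50) (.e (nat_lit 786480) (nat_lit 29) (.e (nat_lit 352318) (nat_lit 24) (.e (nat_lit 123194) (nat_lit 266) .nil)))))) (.g (nat_lit 6) .nil .nil))) 
(.lf (nat_lit 156524) (.g (nat_lit 2474) (.e (nat_lit 57412) (nat_lit 12) (.e (nat_lit 336193) (nat_lit 12) (.e (nat_lit 385106) (nat_lit 50) (.e (nat_lit 786483) (nat_lit 30) (.e (nat_lit 360456) (nat_lit 0) (.e (nat_lit 5949) (nat_lit 322) .nil)))))) (.g (nat_lit 4) .nil .nil)))) (.nd (nat_lit 5) 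
(.lf (nat_lit 156508) (.g (nat_lit 3068) (.e (nat_lit 57412) (nat_lit 12) (.e (nat_lit 336193) (nat_lit 12) (.e (nat_lit 385105) (nat_lit 50) (.e (nat_lit 786483) (nat_lit 30) (.e (nat_lit 360457) (nat_lit 0) (.e (nat_lit 5947) (nat_lit 322) .nil)))))) (.g (nat_lit 4) .nil .nil))) 
(.lf (nat_lit 156540) (.g (nat_lit 1590) (.e (nat_lit 57412) (nat_lit 12) (.e (nat_lit 336200) (nat_lit 12) (.e (nat_lit 385094) (nat_lit 49) (.e (nat_lit 778327) (nat_lit 6) (.e (nat_lit 81958) (nat_lit 24) (.e (nat_lit 123194) (nat_lit 266) .nil)))))) (.g (nat_lit 4) .nil .nil))))))) (.nd (nat_lit 2) (.nd (nat_lit 3) (.nd (nat_lit 4) (.nd (nat_lit 5) 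
(.lf (nat_lit 156482) (.g (nat_lit 1771) (.e (nat_lit 57412) (nat_lit 12) (.e (nat_lit 336193) (nat_lit 12) (.e (nat_lit 385094) (nat_lit 49) (.e (nat_lit 778327) (nat_lit 6) (.e (nat_lit 81958) (nat_lit 24) .nil))))) .nil)) 
(.lf (nat_lit 156514) (.g (nat_lit 2958) (.e (nat_lit 57412) (nat_lit 12) (.e (nat_lit 336193) (nat_lit 12) (.e (nat_lit 385106) (nat_lit 50) (.e (nat_lit 786480) (nat_lit 29) (.e (nat_lit 352318) (nat_lit 24) (.e (nat_lit 123194) (nat_lit 266) .nil)))))) (.g (nat_lit 5) .nil .nil)))) (.nd (nat_lit 5) 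
(.lf (nat_lit 156498) (.g (nat_lit 2517) (.e (nat_lit 57412) (nat_lit 12) (.e (nat_lit 336193) (nat_lit 12) (.e (nat_lit 385105) (nat_lit 50) (.e (nat_lit 786481) (nat_lit 30) (.e (nat_lit 360457) (nat_lit 0) (.e (nat_lit 5934) (nat_lit 322) .nil)))))) (.g (nat_lit 4) .nil .nil))) 
(.lf (nat_lit 156530) (.g (nat_lit 1172) (.e (nat_lit 57412) (nat_lit 12) (.e (nat_lit 336200) (nat_lit 12) (.e (nat_lit 385093) (nat_lit 49) (.e (nat_lit 778326) (nat_lit 6) .nil)))) .nil)))) (.nd (nat_lit 4) (.nd (nat_lit 5) 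
(.lf (nat_lit 156490) (.g (nat_lit 2396) (.e (nat_lit 57412) (nat_lit 12) (.e (nat_lit 336193) (nat_lit 12) (.e (nat_lit 385105) (nat_lit 50) (.e (nat_lit 786480) (nat_lit 29) (.e (nat_lit 352316) (nat_lit 24) .nil))))) .nil)) 
(.lf (nat_lit 156522) (.g (nat_lit 3039) (.e (nat_lit 57412) (nat_lit 12) (.e (nat_lit 336193) (nat_lit 12) (.e (nat_lit 385106) (nat_lit 50) (.e (nat_lit 786483) (nat_lit 30) (.e (nat_lit 360451) (nat_lit 0) (.e (nat_lit 7936) (nat_lit 322) .nil)))))) (.g (nat_lit 5) .nil .nil)))) (.nd (nat_lit 5) 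
(.lf (nat_lit 156506) (.g (nat_lit 2435) (.e (nat_lit 57412) (nat_lit 12) (.e (nat_lit 336193) (nat_lit 12) (.e (nat_lit 385105) (nat_lit 50) (.e (nat_lit 786483) (nat_lit 30) (.e (nat_lit 360455) (nat_lit 0) .nil))))) .nil)) 
(.lf (nat_lit 156538) (.g (nat_lit 2081) (.e (nat_lit 57412) (nat_lit 12) (.e (nat_lit 336200) (nat_lit 12) (.e (nat_lit 385094) (nat_lit 49) (.e (nat_lit 778327) (nat_lit 6) (.e (nat_lit 81957) (nat_lit 24) (.e (nat_lit 123194) (nat_lit 266) .nil)))))) (.g (nat_lit 5) .nil .nil)))))) (.nd (nat_lit 3) (.nd (nat_lit 4) (.nd (nat_lit 5) 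
(.lf (nat_lit 156486) (.g (nat_lit 3606) (.e (nat_lit 57412) (nat_lit 12) (.e (nat_lit 336193) (nat_lit 12) (.e (nat_lit 385105) (nat_lit 50) (.e (nat_lit 786478) (nat_lit 29) (.e (nat_lit 352318) (nat_lit 24) (.e (nat_lit 123194) (nat_lit 266) .nil)))))) (.g (nat_lit 5) .nil .nil))) 
(.lf (nat_lit 156518) (.g (nat_lit 1931) (.e (nat_lit 57412) (nat_lit 12) (.e (nat_lit 336193) (nat_lit 12) (.e (nat_lit 385106) (nat_lit 50) (.e (nat_lit 786481) (nat_lit 30) (.e (nat_lit 360457) (nat_lit 0) .nil))))) .nil))) (.nd (nat_lit 5) 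
(.lf (nat_lit 156502) (.g (nat_lit 2370) (.e (nat_lit 57412) (nat_lit 12) (.e (nat_lit 336193) (nat_lit 12) (.e (nat_lit 385105) (nat_lit 50) (.e (nat_lit 786481) (nat_lit 30) (.e (nat_lit 368384) (nat_lit 0) (.e (nat_lit 5936) (nat_lit 322) .nil)))))) (.g (nat_lit 4) .nil .nil))) 
(.lf (nat_lit 156534) (.g (nat_lit 1853) (.e (nat_lit 57412) (nat_lit 12) (.e (nat_lit 336200) (nat_lit 12) (.e (nat_lit 385094) (nat_lit 49) (.e (nat_lit 778326) (nat_lit 6) (.e (nat_lit 81958) (nat_lit 24) (.e (nat_lit 123195) (nat_lit 266) .nil)))))) (.g (nat_lit 4) .nil .nil))))) (.nd (nat_lit 4) (.nd (nat_lit 5) 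
(.lf (nat_lit 156494) (.g (nat_lit 2349) (.e (nat_lit 57412) (nat_lit 12) (.e (nat_lit 336193) (nat_lit 12) (.e (nat_lit 385105) (nat_lit 50) (.e (nat_lit 786480) (nat_lit 29) (.e (nat_lit 352318) (nat_lit 24) (.e (nat_lit 123198) (nat_lit 266) .nil)))))) (.g (nat_lit 4) .nil .nil))) 
(.lf (nat_lit 156526) (.g (nat_lit 2548) (.e (nat_lit 57412) (nat_lit 12) (.e (nat_lit 336193) (nat_lit 12) (.e (nat_lit 385106) (nat_lit 50) (.e (nat_lit 786483) (nat_lit 30) (.e (nat_lit 360457) (nat_lit 0) (.e (nat_lit 5946) (nat_lit 322) .nil)))))) (.g (nat_lit 4) .nil .nil)))) (.nd (nat_lit 5) 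
(.lf (nat_lit 156510) (.g (nat_lit 420) (.e (nat_lit 57412) (nat_lit 12) (.e (nat_lit 336193) (nat_lit 12) (.e (nat_lit 385106) (nat_lit 50) .nil))) .nil)) 
(.lf (nat_lit 156542) (.g (nat_lit 1052) (.e (nat_lit 57412) (nat_lit 12) (.e (nat_lit 336200) (nat_lit 12) (.e (nat_lit 385106) (nat_lit 50) (.e (nat_lit 786481) (nat_lit 30) .nil)))) .nil))))))) (.nd (nat_lit 1) (.nd (nat_lit 2) (.nd (nat_lit 3) (.nd (nat_lit 4) (.nd (nat_lit 5) 
(.lf (nat_lit 156481) (.g (nat_lit 3515) (.e (nat_lit 57412) (nat_lit 12) (.e (nat_lit 336193) (nat_lit 12) (.e (nat_lit 385094) (nat_lit 49) (.e (nat_lit 778327) (nat_lit 6) (.e (nat_lit 81957) (nat_lit 24) (.e (nat_lit 123195) (nat_lit 266) .nil)))))) (.g (nat_lit 0) .nil .nil))) 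
(.lf (nat_lit 156513) (.g (nat_lit 2442) (.e (nat_lit 57412) (nat_lit 12) (.e (nat_lit 336193) (nat_lit 12) (.e (nat_lit 385106) (nat_lit 50) (.e (nat_lit 786478) (nat_lit 29) (.e (nat_lit 352318) (nat_lit 24) (.e (nat_lit 123195) (nat_lit 266) .nil)))))) (.g (nat_lit 4) .nil .nil)))) (.nd (nat_lit 5) 
(.lf (nat_lit 156497) (.g (nat_lit 1902) (.e (nat_lit 57412) (nat_lit 12) (.e (nat_lit 336193) (nat_lit 12) (.e (nat_lit 385105) (nat_lit 50) (.e (nat_lit 786481) (nat_lit 30) (.e (nat_lit 360456) (nat_lit 0) .nil))))) .nil)) 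
(.lf (nat_lit 156529) (.g (nat_lit 2052) (.e (nat_lit 57412) (nat_lit 12) (.e (nat_lit 336193) (nat_lit 12) (.e (nat_lit 385106) (nat_lit 50) (.e (nat_lit 786483) (nat_lit 30) (.e (nat_lit 368384) (nat_lit 0) .nil))))) .nil)))) (.nd (nat_lit 4) (.nd (nat_lit 5) 
(.lf (nat_lit 156489) (.g (nat_lit 2447) (.e (nat_lit 57412) (nat_lit 12) (.e (nat_lit 336193) (nat_lit 12) (.e (nat_lit 385105) (nat_lit 50) (.e (nat_lit 786478) (nat_lit 29) (.e (nat_lit 352318) (nat_lit 24) (.e (nat_lit 123198) (nat_lit 266) .nil)))))) (.g (nat_lit 4) .nil .nil))) 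
(.lf (nat_lit 156521) (.g (nat_lit 3047) (.e (nat_lit 57412) (nat_lit 12) (.e (nat_lit 336193) (nat_lit 12) (.e (nat_lit 385106) (nat_lit 50) (.e (nat_lit 786483) (nat_lit 30) (.e (nat_lit 360450) (nat_lit 0) (.e (nat_lit 7936) (nat_lit 322) .nil)))))) (.g (nat_lit 4) .nil .nil)))) (.nd (nat_lit 5) 
(.lf (nat_lit 156505) (.g (nat_lit 3520) (.e (nat_lit 57412) (nat_lit 12) (.e (nat_lit 336193) (nat_lit 12) (.e (nat_lit 385105) (nat_lit 50) (.e (nat_lit 786483) (nat_lit 30) (.e (nat_lit 360451) (nat_lit 0) (.e (nat_lit 7936) (nat_lit 322) .nil)))))) (.g (nat_lit 5) .nil .nil))) 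
(.lf (nat_lit 156537) (.g (nat_lit 1598) (.e (nat_lit 57412) (nat_lit 12) (.e (nat_lit 336200) (nat_lit 12) (.e (nat_lit 385094) (nat_lit 49) (.e (nat_lit 778326) (nat_lit 6) (.e (nat_lit 81959) (nat_lit 24) (.e (nat_lit 123198) (nat_lit 266) .nil)))))) (.g (nat_lit 4) .nil .nil)))))) (.nd (nat_lit 3) (.nd (nat_lit 4) (.nd (nat_lit 5) 
(.lf (nat_lit 156485) (.g (nat_lit 1529) (.e (nat_lit 57412) (nat_lit 12) (.e (nat_lit 336193) (nat_lit 12) (.e (nat_lit 385105) (nat_lit 50) (.e (nat_lit 786478) (nat_lit 29) .nil)))) .nil)) 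
(.lf (nat_lit 156517) (.g (nat_lit 1910) (.e (nat_lit 57412) (nat_lit 12) (.e (nat_lit 336193) (nat_lit 12) (.e (nat_lit 385106) (nat_lit 50) (.e (nat_lit 786481) (nat_lit 30) (.e (nat_lit 360456) (nat_lit 0) .nil))))) .nil))) (.nd (nat_lit 5) 
(.lf (nat_lit 156501) (.g (nat_lit 1984) (.e (nat_lit 57412) (nat_lit 12) (.e (nat_lit 336193) (nat_lit 12) (.e (nat_lit 385105) (nat_lit 50) (.e (nat_lit 786481) (nat_lit 30) (.e (nat_lit 368384) (nat_lit 0) .nil))))) .nil)) 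
(.lf (nat_lit 156533) (.g (nat_lit 1852) (.e (nat_lit 57412) (nat_lit 12) (.e (nat_lit 336200) (nat_lit 12) (.e (nat_lit 385094) (nat_lit 49) (.e (nat_lit 778326) (nat_lit 6) (.e (nat_lit 81958) (nat_lit 24) (.e (nat_lit 123194) (nat_lit 266) .nil)))))) (.g (nat_lit 4) .nil .nil))))) (.nd (nat_lit 4) (.nd (nat_lit 5) 
(.lf (nat_lit 156493) (.g (nat_lit 3112) (.e (nat_lit 57412) (nat_lit 12) (.e (nat_lit 336193) (nat_lit 12) (.e (nat_lit 385105) (nat_lit 50) (.e (nat_lit 786480) (nat_lit 29) (.e (nat_lit 352318) (nat_lit 24) (.e (nat_lit 123196) (nat_lit 266) .nil)))))) (.g (nat_lit 5) .nil .nil))) 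
(.lf (nat_lit 156525) (.g (nat_lit 2161) (.e (nat_lit 57412) (nat_lit 12) (.e (nat_lit 336193) (nat_lit 12) (.e (nat_lit 385106) (nat_lit 50) (.e (nat_lit 786483) (nat_lit 30) (.e (nat_lit 360457) (nat_lit 0) .nil))))) .nil))) (.nd (nat_lit 5) 
(.lf (nat_lit 156509) (.g (nat_lit 2776) (.e (nat_lit 57412) (nat_lit 12) (.e (nat_lit 336193) (nat_lit 12) (.e (nat_lit 385105) (nat_lit 50) (.e (nat_lit 786483) (nat_lit 30) (.e (nat_lit 360457) (nat_lit 0) (.e (nat_lit 5948) (nat_lit 322) .nil)))))) (.g (nat_lit 4) .nil .nil))) 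
(.lf (nat_lit 156541) (.g (nat_lit 1410) (.e (nat_lit 57412) (nat_lit 12) (.e (nat_lit 336200) (nat_lit 12) (.e (nat_lit 385094) (nat_lit 49) (.e (nat_lit 778327) (nat_lit 6) (.e (nat_lit 81959) (nat_lit 24) (.e (nat_lit 123198) (nat_lit 266) .nil)))))) (.g (nat_lit 4) .nil .nil))))))) (.nd (nat_lit 2) (.nd (nat_lit 3) (.nd (nat_lit 4) (.nd (nat_lit 5) 
(.lf (nat_lit 156483) (.g (nat_lit 2781) (.e (nat_lit 57412) (nat_lit 12) (.e (nat_lit 336193) (nat_lit 12) (.e (nat_lit 385094) (nat_lit 49) (.e (nat_lit 778327) (nat_lit 6) (.e (nat_lit 81959) (nat_lit 24) (.e (nat_lit 123194) (nat_lit 266) .nil)))))) (.g (nat_lit 5) .nil .nil))) 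
(.lf (nat_lit 156515) (.g (nat_lit 3309) (.e (nat_lit 57412) (nat_lit 12) (.e (nat_lit 336193) (nat_lit 12) (.e (nat_lit 385106) (nat_lit 50) (.e (nat_lit 786480) (nat_lit 29) (.e (nat_lit 352318) (nat_lit 24) (.e (nat_lit 123195) (nat_lit 266) .nil)))))) (.g (nat_lit 5) .nil .nil)))) (.nd (nat_lit 5) 
(.lf (nat_lit 156499) (.g (nat_lit 2554) (.e (nat_lit 57412) (nat_lit 12) (.e (nat_lit 336193) (nat_lit 12) (.e (nat_lit 385105) (nat_lit 50) (.e (nat_lit 786481) (nat_lit 30) (.e (nat_lit 360457) (nat_lit 0) (.e (nat_lit 5946) (nat_lit 322) .nil)))))) (.g (nat_lit 4) .nil .nil))) 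
(.lf (nat_lit 156531) (.g (nat_lit 2230) (.e (nat_lit 57412) (nat_lit 12) (.e (nat_lit 336200) (nat_lit 12) (.e (nat_lit 385094) (nat_lit 49) (.e (nat_lit 778326) (nat_lit 6) (.e (nat_lit 81957) (nat_lit 24) (.e (nat_lit 123194) (nat_lit 266) .nil)))))) (.g (nat_lit 5) .nil .nil))))) (.nd (nat_lit 4) (.nd (nat_lit 5) 
(.lf (nat_lit 156491) (.g (nat_lit 2403) (.e (nat_lit 57412) (nat_lit 12) (.e (nat_lit 336193) (nat_lit 12) (.e (nat_lit 385105) (nat_lit 50) (.e (nat_lit 786480) (nat_lit 29) (.e (nat_lit 352316) (nat_lit 24) (.e (nat_lit 123195) (nat_lit 266) .nil)))))) (.g (nat_lit 4) .nil .nil))) 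
(.lf (nat_lit 156523) (.g (nat_lit 1879) (.e (nat_lit 57412) (nat_lit 12) (.e (nat_lit 336193) (nat_lit 12) (.e (nat_lit 385106) (nat_lit 50) (.e (nat_lit 786483) (nat_lit 30) (.e (nat_lit 360456) (nat_lit 0) .nil))))) .nil))) (.nd (nat_lit 5) 
(.lf (nat_lit 156507) (.g (nat_lit 2917) (.e (nat_lit 57412) (nat_lit 12) (.e (nat_lit 336193) (nat_lit 12) (.e (nat_lit 385105) (nat_lit 50) (.e (nat_lit 786483) (nat_lit 30) (.e (nat_lit 360457) (nat_lit 0) (.e (nat_lit 5934) (nat_lit 322) .nil)))))) (.g (nat_lit 4) .nil .nil))) 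
(.lf (nat_lit 156539) (.g (nat_lit 1538) (.e (nat_lit 57412) (nat_lit 12) (.e (nat_lit 336200) (nat_lit 12) (.e (nat_lit 385094) (nat_lit 49) (.e (nat_lit 778327) (nat_lit 6) (.e (nat_lit 81957) (nat_lit 24) (.e (nat_lit 123198) (nat_lit 266) .nil)))))) (.g (nat_lit 4) .nil .nil)))))) (.nd (nat_lit 3) (.nd (nat_lit 4) (.nd (nat_lit 5) 
(.lf (nat_lit 156487) (.g (nat_lit 3024) (.e (nat_lit 57412) (nat_lit 12) (.e (nat_lit 336193) (nat_lit 12) (.e (nat_lit 385105) (nat_lit 50) (.e (nat_lit 786478) (nat_lit 29) (.e (nat_lit 352318) (nat_lit 24) (.e (nat_lit 123196) (nat_lit 266) .nil)))))) (.g (nat_lit 4) .nil .nil))) 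
(.lf (nat_lit 156519) (.g (nat_lit 2476) (.e (nat_lit 57412) (nat_lit 12) (.e (nat_lit 336193) (nat_lit 12) (.e (nat_lit 385106) (nat_lit 50) (.e (nat_lit 786481) (nat_lit 30) (.e (nat_lit 360457) (nat_lit 0) (.e (nat_lit 5949) (nat_lit 322) .nil)))))) (.g (nat_lit 4) .nil .nil)))) (.nd (nat_lit 5) 
(.lf (nat_lit 156503) (.g (nat_lit 1370) (.e (nat_lit 57412) (nat_lit 12) (.e (nat_lit 336193) (nat_lit 12) (.e (nat_lit 385105) (nat_lit 50) (.e (nat_lit 786483) (nat_lit 30) .nil)))) .nil)) 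
(.lf (nat_lit 156535) (.g (nat_lit 2867) (.e (nat_lit 57412) (nat_lit 12) (.e (nat_lit 336200) (nat_lit 12) (.e (nat_lit 385094) (nat_lit 49) (.e (nat_lit 778326) (nat_lit 6) (.e (nat_lit 81959) (nat_lit 24) (.e (nat_lit 123194) (nat_lit 266) .nil)))))) (.g (nat_lit 0) .nil .nil))))) (.nd (nat_lit 4) (.nd (nat_lit 5) 
(.lf (nat_lit 156495) (.g (nat_lit 2069) (.e (nat_lit 57412) (nat_lit 12) (.e (nat_lit 336193) (nat_lit 12) (.e (nat_lit 385105) (nat_lit 50) (.e (nat_lit 786481) (nat_lit 30) (.e (nat_lit 360449) (nat_lit 0) .nil))))) .nil)) 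
(.lf (nat_lit 156527) (.g (nat_lit 2417) (.e (nat_lit 57412) (nat_lit 12) (.e (nat_lit 336193) (nat_lit 12) (.e (nat_lit 385106) (nat_lit 50) (.e (nat_lit 786483) (nat_lit 30) (.e (nat_lit 360457) (nat_lit 0) (.e (nat_lit 5947) (nat_lit 322) .nil)))))) (.g (nat_lit 4) .nil .nil)))) (.nd (nat_lit 5) 
(.lf (nat_lit 156511) (.g (nat_lit 1899) (.e (nat_lit 57412) (nat_lit 12) (.e (nat_lit 336193) (nat_lit 12) (.e (nat_lit 385106) (nat_lit 50) (.e (nat_lit 786478) (nat_lit 29) (.e (nat_lit 352318) (nat_lit 24) .nil))))) .nil)) 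
(.lf (nat_lit 156543) (.g (nat_lit 1088) (.e (nat_lit 57412) (nat_lit 12) (.e (nat_lit 336200) (nat_lit 12) (.e (nat_lit 385106) (nat_lit 50) (.e (nat_lit 786483) (nat_lit 30) .nil)))) .nil))))))))

noncomputable def tv2094 : DT := (.nd (nat_lit 0) (.nd (nat_lit 1) (.nd (nat_lit 2) (.nd (nat_lit 3) (.nd (nat_lit 4) (.nd (nat_lit 5) 
(.lf (nat_lit 156544) (.g (nat_lit 1923) (.e (nat_lit 57412) (nat_lit 12) (.e (nat_lit 336212) (nat_lit 13) (.e (nat_lit 393231) (nat_lit 17) (.e (nat_lit 7591) (nat_lit 407) (.e (nat_lit 73729) (nat_lit 0) (.e (nat_lit 7261) (nat_lit 384) .nil)))))) (.g (nat_lit 5) .nil .nil))) 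
(.lf (nat_lit 156576) (.g (nat_lit 1925) (.e (nat_lit 57412) (nat_lit 12) (.e (nat_lit 336212) (nat_lit 13) (.e (nat_lit 393293) (nat_lit 26) (.e (nat_lit 475212) (nat_lit 42) (.e (nat_lit 720933) (nat_lit 21) (.e (nat_lit 57844) (nat_lit 252) .nil)))))) (.g (nat_lit 5) .nil .nil)))) (.nd (nat_lit 5) 
(.lf (nat_lit 156560) (.g (nat_lit 2352) (.e (nat_lit 57412) (nat_lit 12) (.e (nat_lit 336212) (nat_lit 13) (.e (nat_lit 393234) (nat_lit 17) (.e (nat_lit 7591) (nat_lit 407) (.e (nat_lit 73730) (nat_lit 0) (.e (nat_lit 7261) (nat_lit 384) .nil)))))) (.g (nat_lit 0) .nil .nil))) 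
(.lf (nat_lit 156592) (.g (nat_lit 2633) (.e (nat_lit 57412) (nat_lit 12) (.e (nat_lit 336212) (nat_lit 13) (.e (nat_lit 393299) (nat_lit 27) (.e (nat_lit 491560) (nat_lit 10) (.e (nat_lit 344096) (nat_lit 18) (.e (nat_lit 7261) (nat_lit 384) .nil)))))) (.g (nat_lit 5) .nil .nil))))) (.nd (nat_lit 4) (.nd (nat_lit 5) 
(.lf (nat_lit 156552) (.g (nat_lit 2434) (.e (nat_lit 57412) (nat_lit 12) (.e (nat_lit 336212) (nat_lit 13) (.e (nat_lit 393233) (nat_lit 17) (.e (nat_lit 7591) (nat_lit 407) (.e (nat_lit 73729) (nat_lit 0) (.e (nat_lit 7261) (nat_lit 384) .nil)))))) (.g (nat_lit 6) .nil .nil))) 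
(.lf (nat_lit 156584) (.g (nat_lit 2632) (.e (nat_lit 57412) (nat_lit 12) (.e (nat_lit 336212) (nat_lit 13) (.e (nat_lit 393299) (nat_lit 27) (.e (nat_lit 491558) (nat_lit 10) (.e (nat_lit 344090) (nat_lit 18) (.e (nat_lit 7265) (nat_lit 384) .nil)))))) (.g (nat_lit 5) .nil .nil)))) (.nd (nat_lit 5) 
(.lf (nat_lit 156568) (.g (nat_lit 2099) (.e (nat_lit 57412) (nat_lit 12) (.e (nat_lit 336212) (nat_lit 13) (.e (nat_lit 393270) (nat_lit 23) (.e (nat_lit 426446) (nat_lit 20) (.e (nat_lit 114710) (nat_lit 21) (.e (nat_lit 57851) (nat_lit 252) .nil)))))) (.g (nat_lit 6) .nil .nil))) 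
(.lf (nat_lit 156600) (.g (nat_lit 3054) (.e (nat_lit 57412) (nat_lit 12) (.e (nat_lit 336212) (nat_lit 13) (.e (nat_lit 393301) (nat_lit 27) (.e (nat_lit 491560) (nat_lit 10) (.e (nat_lit 344095) (nat_lit 18) (.e (nat_lit 7263) (nat_lit 384) .nil)))))) (.g (nat_lit 4) .nil .nil)))))) (.nd (nat_lit 3) (.nd (nat_lit 4) (.nd (nat_lit 5) 
(.lf (nat_lit 156548) (.g (nat_lit 1430) (.e (nat_lit 57412) (nat_lit 12) (.e (nat_lit 336212) (nat_lit 13) (.e (nat_lit 393231) (nat_lit 17) (.e (nat_lit 7593) (nat_lit 407) (.e (nat_lit 73731) (nat_lit 0) (.e (nat_lit 7261) (nat_lit 384) .nil)))))) (.g (nat_lit 4) .nil .nil))) 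
(.lf (nat_lit 156580) (.g (nat_lit 2239) (.e (nat_lit 57412) (nat_lit 12) (.e (nat_lit 336212) (nat_lit 13) (.e (nat_lit 393298) (nat_lit 27) (.e (nat_lit 491560) (nat_lit 10) (.e (nat_lit 344090) (nat_lit 18) (.e (nat_lit 7261) (nat_lit 384) .nil)))))) (.g (nat_lit 4) .nil .nil)))) (.nd (nat_lit 5) 
(.lf (nat_lit 156564) (.g (nat_lit 2017) (.e (nat_lit 57412) (nat_lit 12) (.e (nat_lit 336212) (nat_lit 13) (.e (nat_lit 393260) (nat_lit 21) (.e (nat_lit 409648) (nat_lit 18) (.e (nat_lit 303115) (nat_lit 1) .nil))))) .nil)) 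
(.lf (nat_lit 156596) (.g (nat_lit 2673) (.e (nat_lit 57412) (nat_lit 12) (.e (nat_lit 336212) (nat_lit 13) (.e (nat_lit 393301) (nat_lit 27) (.e (nat_lit 491559) (nat_lit 10) (.e (nat_lit 344090) (nat_lit 18) (.e (nat_lit 7263) (nat_lit 384) .nil)))))) (.g (nat_lit 4) .nil .nil))))) (.nd (nat_lit 4) (.nd (nat_lit 5) 
(.lf (nat_lit 156556) (.g (nat_lit 2632) (.e (nat_lit 57412) (nat_lit 12) (.e (nat_lit 336212) (nat_lit 13) (.e (nat_lit 393233) (nat_lit 17) (.e (nat_lit 7593) (nat_lit 407) (.e (nat_lit 73729) (nat_lit 0) (.e (nat_lit 7261) (nat_lit 384) .nil)))))) (.g (nat_lit 0) .nil .nil))) 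
(.lf (nat_lit 156588) (.g (nat_lit 2480) (.e (nat_lit 57412) (nat_lit 12) (.e (nat_lit 336212) (nat_lit 13) (.e (nat_lit 393299) (nat_lit 27) (.e (nat_lit 491560) (nat_lit 10) (.e (nat_lit 344091) (nat_lit 18) (.e (nat_lit 7261) (nat_lit 384) .nil)))))) (.g (nat_lit 5) .nil .nil)))) (.nd (nat_lit 5) 
(.lf (nat_lit 156572) (.g (nat_lit 1475) (.e (nat_lit 57412) (nat_lit 12) (.e (nat_lit 336212) (nat_lit 13) (.e (nat_lit 393292) (nat_lit 26) (.e (nat_lit 475212) (nat_lit 42) (.e (nat_lit 720931) (nat_lit 21) (.e (nat_lit 57851) (nat_lit 252) .nil)))))) (.g (nat_lit 4) .nil .nil))) 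
(.lf (nat_lit 156604) (.g (nat_lit 1341) (.e (nat_lit 57412) (nat_lit 12) (.e (nat_lit 336217) (nat_lit 13) (.e (nat_lit 393232) (nat_lit 17) (.e (nat_lit 7591) (nat_lit 407) (.e (nat_lit 73730) (nat_lit 0) (.e (nat_lit 7261) (nat_lit 384) .nil)))))) (.g (nat_lit 4) .nil .nil))))))) (.nd (nat_lit 2) (.nd (nat_lit 3) (.nd (nat_lit 4) (.nd (nat_lit 5) 
(.lf (nat_lit 156546) (.g (nat_lit 1719) (.e (nat_lit 57412) (nat_lit 12) (.e (nat_lit 336212) (nat_lit 13) (.e (nat_lit 393231) (nat_lit 17) (.e (nat_lit 7591) (nat_lit 407) (.e (nat_lit 73730) (nat_lit 0) (.e (nat_lit 7261) (nat_lit 384) .nil)))))) (.g (nat_lit 0) .nil .nil))) 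
(.lf (nat_lit 156578) (.g (nat_lit 2319) (.e (nat_lit 57412) (nat_lit 12) (.e (nat_lit 336212) (nat_lit 13) (.e (nat_lit 393298) (nat_lit 27) (.e (nat_lit 491558) (nat_lit 10) (.e (nat_lit 344095) (nat_lit 18) .nil))))) .nil))) (.nd (nat_lit 5) 
(.lf (nat_lit 156562) (.g (nat_lit 1862) (.e (nat_lit 57412) (nat_lit 12) (.e (nat_lit 336212) (nat_lit 13) (.e (nat_lit 393234) (nat_lit 17) (.e (nat_lit 7593) (nat_lit 407) (.e (nat_lit 73731) (nat_lit 0) (.e (nat_lit 7261) (nat_lit 384) .nil)))))) (.g (nat_lit 4) .nil .nil))) 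
(.lf (nat_lit 156594) (.g (nat_lit 2120) (.e (nat_lit 57412) (nat_lit 12) (.e (nat_lit 336212) (nat_lit 13) (.e (nat_lit 393300) (nat_lit 27) (.e (nat_lit 491560) (nat_lit 10) (.e (nat_lit 344095) (nat_lit 18) (.e (nat_lit 7263) (nat_lit 384) .nil)))))) (.g (nat_lit 4) .nil .nil))))) (.nd (nat_lit 4) (.nd (nat_lit 5) 
(.lf (nat_lit 156554) (.g (nat_lit 2654) (.e (nat_lit 57412) (nat_lit 12) (.e (nat_lit 336212) (nat_lit 13) (.e (nat_lit 393233) (nat_lit 17) (.e (nat_lit 7591) (nat_lit 407) (.e (nat_lit 73729) (nat_lit 0) (.e (nat_lit 7265) (nat_lit 384) .nil)))))) (.g (nat_lit 6) .nil .nil))) 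
(.lf (nat_lit 156586) (.g (nat_lit 2895) (.e (nat_lit 57412) (nat_lit 12) (.e (nat_lit 336212) (nat_lit 13) (.e (nat_lit 393299) (nat_lit 27) (.e (nat_lit 491560) (nat_lit 10) (.e (nat_lit 344090) (nat_lit 18) (.e (nat_lit 7261) (nat_lit 384) .nil)))))) (.g (nat_lit 6) .nil .nil)))) (.nd (nat_lit 5) 
(.lf (nat_lit 156570) (.g (nat_lit 2525) (.e (nat_lit 57412) (nat_lit 12) (.e (nat_lit 336212) (nat_lit 13) (.e (nat_lit 393270) (nat_lit 23) (.e (nat_lit 426448) (nat_lit 20) (.e (nat_lit 114711) (nat_lit 21) (.e (nat_lit 57844) (nat_lit 252) .nil)))))) (.g (nat_lit 5) .nil .nil))) 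
(.lf (nat_lit 156602) (.g (nat_lit 3235) (.e (nat_lit 57412) (nat_lit 12) (.e (nat_lit 336212) (nat_lit 13) (.e (nat_lit 393301) (nat_lit 27) (.e (nat_lit 491560) (nat_lit 10) (.e (nat_lit 344096) (nat_lit 18) (.e (nat_lit 7265) (nat_lit 384) .nil)))))) (.g (nat_lit 5) .nil .nil)))))) (.nd (nat_lit 3) (.nd (nat_lit 4) (.nd (nat_lit 5) 
(.lf (nat_lit 156550) (.g (nat_lit 2998) (.e (nat_lit 57412) (nat_lit 12) (.e (nat_lit 336212) (nat_lit 13) (.e (nat_lit 393232) (nat_lit 17) (.e (nat_lit 7593) (nat_lit 407) (.e (nat_lit 73729) (nat_lit 0) (.e (nat_lit 7265) (nat_lit 384) .nil)))))) (.g (nat_lit 0) .nil .nil))) 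
(.lf (nat_lit 156582) (.g (nat_lit 2098) (.e (nat_lit 57412) (nat_lit 12) (.e (nat_lit 336212) (nat_lit 13) (.e (nat_lit 393298) (nat_lit 27) (.e (nat_lit 491560) (nat_lit 10) (.e (nat_lit 344094) (nat_lit 18) (.e (nat_lit 7263) (nat_lit 384) .nil)))))) (.g (nat_lit 4) .nil .nil)))) (.nd (nat_lit 5) 
(.lf (nat_lit 156566) (.g (nat_lit 2328) (.e (nat_lit 57412) (nat_lit 12) (.e (nat_lit 336212) (nat_lit 13) (.e (nat_lit 393260) (nat_lit 21) (.e (nat_lit 409649) (nat_lit 18) (.e (nat_lit 303115) (nat_lit 1) (.e (nat_lit 164179) (nat_lit 154) .nil)))))) (.g (nat_lit 4) .nil .nil))) 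
(.lf (nat_lit 156598) (.g (nat_lit 2626) (.e (nat_lit 57412) (nat_lit 12) (.e (nat_lit 336212) (nat_lit 13) (.e (nat_lit 393301) (nat_lit 27) (.e (nat_lit 491560) (nat_lit 10) (.e (nat_lit 344087) (nat_lit 18) (.e (nat_lit 7265) (nat_lit 384) .nil)))))) (.g (nat_lit 4) .nil .nil))))) (.nd (nat_lit 4) (.nd (nat_lit 5) 
(.lf (nat_lit 156558) (.g (nat_lit 2742) (.e (nat_lit 57412) (nat_lit 12) (.e (nat_lit 336212) (nat_lit 13) (.e (nat_lit 393234) (nat_lit 17) (.e (nat_lit 7591) (nat_lit 407) (.e (nat_lit 73729) (nat_lit 0) (.e (nat_lit 7263) (nat_lit 384) .nil)))))) (.g (nat_lit 6) .nil .nil))) 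
(.lf (nat_lit 156590) (.g (nat_lit 2133) (.e (nat_lit 57412) (nat_lit 12) (.e (nat_lit 336212) (nat_lit 13) (.e (nat_lit 393299) (nat_lit 27) (.e (nat_lit 491560) (nat_lit 10) (.e (nat_lit 344094) (nat_lit 18) (.e (nat_lit 7261) (nat_lit 384) .nil)))))) (.g (nat_lit 4) .nil .nil)))) (.nd (nat_lit 5) 
(.lf (nat_lit 156574) (.g (nat_lit 1386) (.e (nat_lit 57412) (nat_lit 12) (.e (nat_lit 336212) (nat_lit 13) (.e (nat_lit 393292) (nat_lit 26) (.e (nat_lit 475212) (nat_lit 42) (.e (nat_lit 720934) (nat_lit 21) (.e (nat_lit 57851) (nat_lit 252) .nil)))))) (.g (nat_lit 4) .nil .nil))) 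
(.lf (nat_lit 156606) (.g (nat_lit 1396) (.e (nat_lit 57412) (nat_lit 12) (.e (nat_lit 336217) (nat_lit 13) (.e (nat_lit 393232) (nat_lit 17) (.e (nat_lit 7591) (nat_lit 407) (.e (nat_lit 73731) (nat_lit 0) (.e (nat_lit 7261) (nat_lit 384) .nil)))))) (.g (nat_lit 4) .nil .nil)))))))) (.nd (nat_lit 1) (.nd (nat_lit 2) (.nd (nat_lit 3) (.nd (nat_lit 4) (.nd (nat_lit 5) 
(.lf (nat_lit 156545) (.g (nat_lit 1916) (.e (nat_lit 57412) (nat_lit 12) (.e (nat_lit 336212) (nat_lit 13) (.e (nat_lit 393231) (nat_lit 17) (.e (nat_lit 7591) (nat_lit 407) (.e (nat_lit 73729) (nat_lit 0) (.e (nat_lit 7263) (nat_lit 384) .nil)))))) (.g (nat_lit 5) .nil .nil))) 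
(.lf (nat_lit 156577) (.g (nat_lit 2282) (.e (nat_lit 57412) (nat_lit 12) (.e (nat_lit 336212) (nat_lit 13) (.e (nat_lit 393298) (nat_lit 27) (.e (nat_lit 491558) (nat_lit 10) (.e (nat_lit 344091) (nat_lit 18) .nil))))) .nil))) (.nd (nat_lit 5) 
(.lf (nat_lit 156561) (.g (nat_lit 2859) (.e (nat_lit 57412) (nat_lit 12) (.e (nat_lit 336212) (nat_lit 13) (.e (nat_lit 393234) (nat_lit 17) (.e (nat_lit 7593) (nat_lit 407) (.e (nat_lit 73729) (nat_lit 0) (.e (nat_lit 7261) (nat_lit 384) .nil)))))) (.g (nat_lit 0) .nil .nil))) 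
(.lf (nat_lit 156593) (.g (nat_lit 2715) (.e (nat_lit 57412) (nat_lit 12) (.e (nat_lit 336212) (nat_lit 13) (.e (nat_lit 393299) (nat_lit 27) (.e (nat_lit 491560) (nat_lit 10) (.e (nat_lit 344096) (nat_lit 18) (.e (nat_lit 7265) (nat_lit 384) .nil)))))) (.g (nat_lit 5) .nil .nil))))) (.nd (nat_lit 4) (.nd (nat_lit 5) 
(.lf (nat_lit 156553) (.g (nat_lit 2419) (.e (nat_lit 57412) (nat_lit 12) (.e (nat_lit 336212) (nat_lit 13) (.e (nat_lit 393233) (nat_lit 17) (.e (nat_lit 7591) (nat_lit 407) (.e (nat_lit 73729) (nat_lit 0) (.e (nat_lit 7263) (nat_lit 384) .nil)))))) (.g (nat_lit 6) .nil .nil))) 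
(.lf (nat_lit 156585) (.g (nat_lit 3162) (.e (nat_lit 57412) (nat_lit 12) (.e (nat_lit 336212) (nat_lit 13) (.e (nat_lit 393299) (nat_lit 27) (.e (nat_lit 491558) (nat_lit 10) (.e (nat_lit 344096) (nat_lit 18) (.e (nat_lit 7265) (nat_lit 384) .nil)))))) (.g (nat_lit 0) .nil .nil)))) (.nd (nat_lit 5) 
(.lf (nat_lit 156569) (.g (nat_lit 2243) (.e (nat_lit 57412) (nat_lit 12) (.e (nat_lit 336212) (nat_lit 13) (.e (nat_lit 393270) (nat_lit 23) (.e (nat_lit 426446) (nat_lit 20) (.e (nat_lit 114711) (nat_lit 21) (.e (nat_lit 57844) (nat_lit 252) .nil)))))) (.g (nat_lit 0) .nil .nil))) 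
(.lf (nat_lit 156601) (.g (nat_lit 3158) (.e (nat_lit 57412) (nat_lit 12) (.e (nat_lit 336212) (nat_lit 13) (.e (nat_lit 393301) (nat_lit 27) (.e (nat_lit 491560) (nat_lit 10) (.e (nat_lit 344096) (nat_lit 18) (.e (nat_lit 7261) (nat_lit 384) .nil)))))) (.g (nat_lit 5) .nil .nil)))))) (.nd (nat_lit 3) (.nd (nat_lit 4) (.nd (nat_lit 5) 
(.lf (nat_lit 156549) (.g (nat_lit 2633) (.e (nat_lit 57412) (nat_lit 12) (.e (nat_lit 336212) (nat_lit 13) (.e (nat_lit 393232) (nat_lit 17) (.e (nat_lit 7591) (nat_lit 407) (.e (nat_lit 73729) (nat_lit 0) (.e (nat_lit 7265) (nat_lit 384) .nil)))))) (.g (nat_lit 6) .nil .nil))) 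
(.lf (nat_lit 156581) (.g (nat_lit 1952) (.e (nat_lit 57412) (nat_lit 12) (.e (nat_lit 336212) (nat_lit 13) (.e (nat_lit 393298) (nat_lit 27) (.e (nat_lit 491560) (nat_lit 10) (.e (nat_lit 344094) (nat_lit 18) (.e (nat_lit 7261) (nat_lit 384) .nil)))))) (.g (nat_lit 4) .nil .nil)))) (.nd (nat_lit 5) 
(.lf (nat_lit 156565) (.g (nat_lit 2333) (.e (nat_lit 57412) (nat_lit 12) (.e (nat_lit 336212) (nat_lit 13) (.e (nat_lit 393260) (nat_lit 21) (.e (nat_lit 409649) (nat_lit 18) (.e (nat_lit 303115) (nat_lit 1) (.e (nat_lit 164178) (nat_lit 154) .nil)))))) (.g (nat_lit 4) .nil .nil))) 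
(.lf (nat_lit 156597) (.g (nat_lit 2464) (.e (nat_lit 57412) (nat_lit 12) (.e (nat_lit 336212) (nat_lit 13) (.e (nat_lit 393301) (nat_lit 27) (.e (nat_lit 491559) (nat_lit 10) (.e (nat_lit 344096) (nat_lit 18) .nil))))) .nil)))) (.nd (nat_lit 4) (.nd (nat_lit 5) 
(.lf (nat_lit 156557) (.g (nat_lit 2762) (.e (nat_lit 57412) (nat_lit 12) (.e (nat_lit 336212) (nat_lit 13) (.e (nat_lit 393234) (nat_lit 17) (.e (nat_lit 7591) (nat_lit 407) (.e (nat_lit 73729) (nat_lit 0) (.e (nat_lit 7261) (nat_lit 384) .nil)))))) (.g (nat_lit 6) .nil .nil))) 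
(.lf (nat_lit 156589) (.g (nat_lit 2538) (.e (nat_lit 57412) (nat_lit 12) (.e (nat_lit 336212) (nat_lit 13) (.e (nat_lit 393299) (nat_lit 27) (.e (nat_lit 491560) (nat_lit 10) (.e (nat_lit 344091) (nat_lit 18) (.e (nat_lit 7265) (nat_lit 384) .nil)))))) (.g (nat_lit 5) .nil .nil)))) (.nd (nat_lit 5) 
(.lf (nat_lit 156573) (.g (nat_lit 1411) (.e (nat_lit 57412) (nat_lit 12) (.e (nat_lit 336212) (nat_lit 13) (.e (nat_lit 393292) (nat_lit 26) (.e (nat_lit 475212) (nat_lit 42) (.e (nat_lit 720933) (nat_lit 21) (.e (nat_lit 57844) (nat_lit 252) .nil)))))) (.g (nat_lit 4) .nil .nil))) 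
(.lf (nat_lit 156605) (.g (nat_lit 1251) (.e (nat_lit 57412) (nat_lit 12) (.e (nat_lit 336217) (nat_lit 13) (.e (nat_lit 393232) (nat_lit 17) (.e (nat_lit 7591) (nat_lit 407) (.e (nat_lit 73730) (nat_lit 0) (.e (nat_lit 7263) (nat_lit 384) .nil)))))) (.g (nat_lit 4) .nil .nil))))))) (.nd (nat_lit 2) (.nd (nat_lit 3) (.nd (nat_lit 4) (.nd (nat_lit 5) 
(.lf (nat_lit 156547) (.g (nat_lit 2378) (.e (nat_lit 57412) (nat_lit 12) (.e (nat_lit 336212) (nat_lit 13) (.e (nat_lit 393231) (nat_lit 17) (.e (nat_lit 7593) (nat_lit 407) (.e (nat_lit 73729) (nat_lit 0) (.e (nat_lit 7261) (nat_lit 384) .nil)))))) (.g (nat_lit 0) .nil .nil))) 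
(.lf (nat_lit 156579) (.g (nat_lit 2270) (.e (nat_lit 57412) (nat_lit 12) (.e (nat_lit 336212) (nat_lit 13) (.e (nat_lit 393298) (nat_lit 27) (.e (nat_lit 491558) (nat_lit 10) (.e (nat_lit 344096) (nat_lit 18) .nil))))) .nil))) (.nd (nat_lit 5) 
(.lf (nat_lit 156563) (.g (nat_lit 1864) (.e (nat_lit 57412) (nat_lit 12) (.e (nat_lit 336212) (nat_lit 13) (.e (nat_lit 393260) (nat_lit 21) (.e (nat_lit 409643) (nat_lit 18) (.e (nat_lit 303115) (nat_lit 1) .nil))))) .nil)) 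
(.lf (nat_lit 156595) (.g (nat_lit 2452) (.e (nat_lit 57412) (nat_lit 12) (.e (nat_lit 336212) (nat_lit 13) (.e (nat_lit 393300) (nat_lit 27) (.e (nat_lit 491560) (nat_lit 10) (.e (nat_lit 344096) (nat_lit 18) (.e (nat_lit 7263) (nat_lit 384) .nil)))))) (.g (nat_lit 5) .nil .nil))))) (.nd (nat_lit 4) (.nd (nat_lit 5) 
(.lf (nat_lit 156555) (.g (nat_lit 2047) (.e (nat_lit 57412) (nat_lit 12) (.e (nat_lit 336212) (nat_lit 13) (.e (nat_lit 393233) (nat_lit 17) (.e (nat_lit 7591) (nat_lit 407) (.e (nat_lit 73730) (nat_lit 0) (.e (nat_lit 7261) (nat_lit 384) .nil)))))) (.g (nat_lit 0) .nil .nil))) 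
(.lf (nat_lit 156587) (.g (nat_lit 2682) (.e (nat_lit 57412) (nat_lit 12) (.e (nat_lit 336212) (nat_lit 13) (.e (nat_lit 393299) (nat_lit 27) (.e (nat_lit 491560) (nat_lit 10) (.e (nat_lit 344090) (nat_lit 18) (.e (nat_lit 7263) (nat_lit 384) .nil)))))) (.g (nat_lit 5) .nil .nil)))) (.nd (nat_lit 5) 
(.lf (nat_lit 156571) (.g (nat_lit 1302) (.e (nat_lit 57412) (nat_lit 12) (.e (nat_lit 336212) (nat_lit 13) (.e (nat_lit 393292) (nat_lit 26) (.e (nat_lit 475212) (nat_lit 42) (.e (nat_lit 720930) (nat_lit 21) (.e (nat_lit 57851) (nat_lit 252) .nil)))))) (.g (nat_lit 4) .nil .nil))) 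
(.lf (nat_lit 156603) (.g (nat_lit 625) (.e (nat_lit 57412) (nat_lit 12) (.e (nat_lit 336217) (nat_lit 13) (.e (nat_lit 393231) (nat_lit 17) (.e (nat_lit 7591) (nat_lit 407) (.e (nat_lit 73730) (nat_lit 0) .nil))))) .nil))))) (.nd (nat_lit 3) (.nd (nat_lit 4) (.nd (nat_lit 5) 
(.lf (nat_lit 156551) (.g (nat_lit 1784) (.e (nat_lit 57412) (nat_lit 12) (.e (nat_lit 336212) (nat_lit 13) (.e (nat_lit 393232) (nat_lit 17) (.e (nat_lit 7593) (nat_lit 407) (.e (nat_lit 73731) (nat_lit 0) (.e (nat_lit 7261) (nat_lit 384) .nil)))))) (.g (nat_lit 4) .nil .nil))) 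
(.lf (nat_lit 156583) (.g (nat_lit 2124) (.e (nat_lit 57412) (nat_lit 12) (.e (nat_lit 336212) (nat_lit 13) (.e (nat_lit 393298) (nat_lit 27) (.e (nat_lit 491560) (nat_lit 10) (.e (nat_lit 344094) (nat_lit 18) (.e (nat_lit 7265) (nat_lit 384) .nil)))))) (.g (nat_lit 4) .nil .nil)))) (.nd (nat_lit 5) 
(.lf (nat_lit 156567) (.g (nat_lit 2070) (.e (nat_lit 57412) (nat_lit 12) (.e (nat_lit 336212) (nat_lit 13) (.e (nat_lit 393270) (nat_lit 23) (.e (nat_lit 426446) (nat_lit 20) (.e (nat_lit 114710) (nat_lit 21) (.e (nat_lit 57844) (nat_lit 252) .nil)))))) (.g (nat_lit 5) .nil .nil))) 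
(.lf (nat_lit 156599) (.g (nat_lit 3147) (.e (nat_lit 57412) (nat_lit 12) (.e (nat_lit 336212) (nat_lit 13) (.e (nat_lit 393301) (nat_lit 27) (.e (nat_lit 491560) (nat_lit 10) (.e (nat_lit 344094) (nat_lit 18) (.e (nat_lit 7265) (nat_lit 384) .nil)))))) (.g (nat_lit 0) .nil .nil))))) (.nd (nat_lit 4) (.nd (nat_lit 5) 
(.lf (nat_lit 156559) (.g (nat_lit 2979) (.e (nat_lit 57412) (nat_lit 12) (.e (nat_lit 336212) (nat_lit 13) (.e (nat_lit 393234) (nat_lit 17) (.e (nat_lit 7591) (nat_lit 407) (.e (nat_lit 73729) (nat_lit 0) (.e (nat_lit 7265) (nat_lit 384) .nil)))))) (.g (nat_lit 6) .nil .nil))) 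
(.lf (nat_lit 156591) (.g (nat_lit 2261) (.e (nat_lit 57412) (nat_lit 12) (.e (nat_lit 336212) (nat_lit 13) (.e (nat_lit 393299) (nat_lit 27) (.e (nat_lit 491560) (nat_lit 10) (.e (nat_lit 344094) (nat_lit 18) (.e (nat_lit 7263) (nat_lit 384) .nil)))))) (.g (nat_lit 4) .nil .nil)))) (.nd (nat_lit 5) 
(.lf (nat_lit 156575) (.g (nat_lit 1443) (.e (nat_lit 57412) (nat_lit 12) (.e (nat_lit 336212) (nat_lit 13) (.e (nat_lit 393292) (nat_lit 26) (.e (nat_lit 475214) (nat_lit 42) (.e (nat_lit 720930) (nat_lit 21) (.e (nat_lit 57851) (nat_lit 252) .nil)))))) (.g (nat_lit 4) .nil .nil))) 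
(.lf (nat_lit 156607) (.g (nat_lit 1430) (.e (nat_lit 57412) (nat_lit 12) (.e (nat_lit 336217) (nat_lit 13) (.e (nat_lit 393233) (nat_lit 17) (.e (nat_lit 7591) (nat_lit 407) (.e (nat_lit 73730) (nat_lit 0) (.e (nat_lit 7263) (nat_lit 384) .nil)))))) (.g (nat_lit 4) .nil .nil)))))))))

noncomputable def tv2095 : DT := (.nd (nat_lit 0) (.nd (nat_lit 1) (.nd (nat_lit 2) (.nd (nat_lit 3) (.nd (nat_lit 4) (.nd (nat_lit 5) 
(.lf (nat_lit 156608) (.g (nat_lit 1354) (.e (nat_lit 57412) (nat_lit 12) (.e (nat_lit 336217) (nat_lit 13) (.e (nat_lit 393233) (nat_lit 17) (.e (nat_lit 7591) (nat_lit 407) (.e (nat_lit 73731) (nat_lit 0) (.e (nat_lit 7265) (nat_lit 384) .nil)))))) (.g (nat_lit 4) .nil .nil))) 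
(.lf (nat_lit 156640) (.g (nat_lit 1351) (.e (nat_lit 57412) (nat_lit 12) (.e (nat_lit 336219) (nat_lit 13) (.e (nat_lit 393232) (nat_lit 17) (.e (nat_lit 7593) (nat_lit 407) (.e (nat_lit 73729) (nat_lit 0) .nil))))) .nil))) (.nd (nat_lit 5) 
(.lf (nat_lit 156624) (.g (nat_lit 1712) (.e (nat_lit 57412) (nat_lit 12) (.e (nat_lit 336217) (nat_lit 13) (.e (nat_lit 393300) (nat_lit 27) (.e (nat_lit 491560) (nat_lit 10) (.e (nat_lit 344094) (nat_lit 18) (.e (nat_lit 7263) (nat_lit 384) .nil)))))) (.g (nat_lit 4) .nil .nil))) 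
(.lf (nat_lit 156656) (.g (nat_lit 2257) (.e (nat_lit 57412) (nat_lit 12) (.e (nat_lit 336219) (nat_lit 13) (.e (nat_lit 393260) (nat_lit 21) (.e (nat_lit 409644) (nat_lit 18) (.e (nat_lit 303115) (nat_lit 1) (.e (nat_lit 164179) (nat_lit 154) .nil)))))) (.g (nat_lit 4) .nil .nil))))) (.nd (nat_lit 4) (.nd (nat_lit 5) 
(.lf (nat_lit 156616) (.g (nat_lit 2071) (.e (nat_lit 57412) (nat_lit 12) (.e (nat_lit 336217) (nat_lit 13) (.e (nat_lit 393300) (nat_lit 27) (.e (nat_lit 491558) (nat_lit 10) (.e (nat_lit 344091) (nat_lit 18) (.e (nat_lit 7261) (nat_lit 384) .nil)))))) (.g (nat_lit 5) .nil .nil))) 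
(.lf (nat_lit 156648) (.g (nat_lit 1764) (.e (nat_lit 57412) (nat_lit 12) (.e (nat_lit 336219) (nat_lit 13) (.e (nat_lit 393233) (nat_lit 17) (.e (nat_lit 7593) (nat_lit 407) (.e (nat_lit 73730) (nat_lit 0) (.e (nat_lit 7263) (nat_lit 384) .nil)))))) (.g (nat_lit 4) .nil .nil)))) (.nd (nat_lit 5) 
(.lf (nat_lit 156632) (.g (nat_lit 3089) (.e (nat_lit 57412) (nat_lit 12) (.e (nat_lit 336217) (nat_lit 13) (.e (nat_lit 393301) (nat_lit 27) (.e (nat_lit 491558) (nat_lit 10) (.e (nat_lit 344096) (nat_lit 18) (.e (nat_lit 7265) (nat_lit 384) .nil)))))) (.g (nat_lit 5) .nil .nil))) 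
(.lf (nat_lit 156664) (.g (nat_lit 1900) (.e (nat_lit 57412) (nat_lit 12) (.e (nat_lit 336219) (nat_lit 13) (.e (nat_lit 393270) (nat_lit 23) (.e (nat_lit 426446) (nat_lit 20) (.e (nat_lit 114711) (nat_lit 21) (.e (nat_lit 57844) (nat_lit 252) .nil)))))) (.g (nat_lit 5) .nil .nil)))))) (.nd (nat_lit 3) (.nd (nat_lit 4) (.nd (nat_lit 5) 
(.lf (nat_lit 156612) (.g (nat_lit 1055) (.e (nat_lit 57412) (nat_lit 12) (.e (nat_lit 336217) (nat_lit 13) (.e (nat_lit 393233) (nat_lit 17) (.e (nat_lit 7593) (nat_lit 407) (.e (nat_lit 73731) (nat_lit 0) .nil))))) .nil)) 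
(.lf (nat_lit 156644) (.g (nat_lit 1752) (.e (nat_lit 57412) (nat_lit 12) (.e (nat_lit 336219) (nat_lit 13) (.e (nat_lit 393233) (nat_lit 17) (.e (nat_lit 7591) (nat_lit 407) (.e (nat_lit 73731) (nat_lit 0) (.e (nat_lit 7261) (nat_lit 384) .nil)))))) (.g (nat_lit 4) .nil .nil)))) (.nd (nat_lit 5) 
(.lf (nat_lit 156628) (.g (nat_lit 2600) (.e (nat_lit 57412) (nat_lit 12) (.e (nat_lit 336217) (nat_lit 13) (.e (nat_lit 393301) (nat_lit 27) (.e (nat_lit 491558) (nat_lit 10) (.e (nat_lit 344090) (nat_lit 18) (.e (nat_lit 7261) (nat_lit 384) .nil)))))) (.g (nat_lit 4) .nil .nil))) 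
(.lf (nat_lit 156660) (.g (nat_lit 2661) (.e (nat_lit 57412) (nat_lit 12) (.e (nat_lit 336219) (nat_lit 13) (.e (nat_lit 393260) (nat_lit 21) (.e (nat_lit 409648) (nat_lit 18) (.e (nat_lit 303115) (nat_lit 1) (.e (nat_lit 164178) (nat_lit 154) .nil)))))) (.g (nat_lit 5) .nil .nil))))) (.nd (nat_lit 4) (.nd (nat_lit 5) 
(.lf (nat_lit 156620) (.g (nat_lit 2232) (.e (nat_lit 57412) (nat_lit 12) (.e (nat_lit 336217) (nat_lit 13) (.e (nat_lit 393300) (nat_lit 27) (.e (nat_lit 491558) (nat_lit 10) (.e (nat_lit 344096) (nat_lit 18) (.e (nat_lit 7265) (nat_lit 384) .nil)))))) (.g (nat_lit 5) .nil .nil))) 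
(.lf (nat_lit 156652) (.g (nat_lit 2972) (.e (nat_lit 57412) (nat_lit 12) (.e (nat_lit 336219) (nat_lit 13) (.e (nat_lit 393234) (nat_lit 17) (.e (nat_lit 7591) (nat_lit 407) (.e (nat_lit 73729) (nat_lit 0) (.e (nat_lit 7265) (nat_lit 384) .nil)))))) (.g (nat_lit 6) .nil .nil)))) (.nd (nat_lit 5) 
(.lf (nat_lit 156636) (.g (nat_lit 769) (.e (nat_lit 57412) (nat_lit 12) (.e (nat_lit 336219) (nat_lit 13) (.e (nat_lit 393231) (nat_lit 17) (.e (nat_lit 7591) (nat_lit 407) (.e (nat_lit 73730) (nat_lit 0) .nil))))) .nil)) 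
(.lf (nat_lit 156668) (.g (nat_lit 2258) (.e (nat_lit 57412) (nat_lit 12) (.e (nat_lit 336219) (nat_lit 13) (.e (nat_lit 393300) (nat_lit 27) (.e (nat_lit 491558) (nat_lit 10) (.e (nat_lit 344090) (nat_lit 18) (.e (nat_lit 7265) (nat_lit 384) .nil)))))) (.g (nat_lit 5) .nil .nil))))))) (.nd (nat_lit 2) (.nd (nat_lit 3) (.nd (nat_lit 4) (.nd (nat_lit 5) 
(.lf (nat_lit 156610) (.g (nat_lit 1528) (.e (nat_lit 57412) (nat_lit 12) (.e (nat_lit 336217) (nat_lit 13) (.e (nat_lit 393233) (nat_lit 17) (.e (nat_lit 7593) (nat_lit 407) (.e (nat_lit 73730) (nat_lit 0) (.e (nat_lit 7261) (nat_lit 384) .nil)))))) (.g (nat_lit 4) .nil .nil))) 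
(.lf (nat_lit 156642) (.g (nat_lit 1696) (.e (nat_lit 57412) (nat_lit 12) (.e (nat_lit 336219) (nat_lit 13) (.e (nat_lit 393233) (nat_lit 17) (.e (nat_lit 7591) (nat_lit 407) (.e (nat_lit 73730) (nat_lit 0) (.e (nat_lit 7261) (nat_lit 384) .nil)))))) (.g (nat_lit 4) .nil .nil)))) (.nd (nat_lit 5) 
(.lf (nat_lit 156626) (.g (nat_lit 1702) (.e (nat_lit 57412) (nat_lit 12) (.e (nat_lit 336217) (nat_lit 13) (.e (nat_lit 393300) (nat_lit 27) (.e (nat_lit 491560) (nat_lit 10) (.e (nat_lit 344095) (nat_lit 18) .nil))))) .nil)) 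
(.lf (nat_lit 156658) (.g (nat_lit 3299) (.e (nat_lit 57412) (nat_lit 12) (.e (nat_lit 336219) (nat_lit 13) (.e (nat_lit 393260) (nat_lit 21) (.e (nat_lit 409645) (nat_lit 18) (.e (nat_lit 303115) (nat_lit 1) (.e (nat_lit 164179) (nat_lit 154) .nil)))))) (.g (nat_lit 5) .nil .nil))))) (.nd (nat_lit 4) (.nd (nat_lit 5) 
(.lf (nat_lit 156618) (.g (nat_lit 1802) (.e (nat_lit 57412) (nat_lit 12) (.e (nat_lit 336217) (nat_lit 13) (.e (nat_lit 393300) (nat_lit 27) (.e (nat_lit 491558) (nat_lit 10) (.e (nat_lit 344095) (nat_lit 18) (.e (nat_lit 7263) (nat_lit 384) .nil)))))) (.g (nat_lit 4) .nil .nil))) 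
(.lf (nat_lit 156650) (.g (nat_lit 2753) (.e (nat_lit 57412) (nat_lit 12) (.e (nat_lit 336219) (nat_lit 13) (.e (nat_lit 393234) (nat_lit 17) (.e (nat_lit 7591) (nat_lit 407) (.e (nat_lit 73729) (nat_lit 0) (.e (nat_lit 7261) (nat_lit 384) .nil)))))) (.g (nat_lit 6) .nil .nil)))) (.nd (nat_lit 5) 
(.lf (nat_lit 156634) (.g (nat_lit 1161) (.e (nat_lit 57412) (nat_lit 12) (.e (nat_lit 336218) (nat_lit 13) (.e (nat_lit 393232) (nat_lit 17) (.e (nat_lit 7591) (nat_lit 407) (.e (nat_lit 73730) (nat_lit 0) .nil))))) .nil)) 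
(.lf (nat_lit 156666) (.g (nat_lit 1739) (.e (nat_lit 57412) (nat_lit 12) (.e (nat_lit 336219) (nat_lit 13) (.e (nat_lit 393293) (nat_lit 26) (.e (nat_lit 475212) (nat_lit 42) (.e (nat_lit 720933) (nat_lit 21) (.e (nat_lit 57844) (nat_lit 252) .nil)))))) (.g (nat_lit 5) .nil .nil)))))) (.nd (nat_lit 3) (.nd (nat_lit 4) (.nd (nat_lit 5) 
(.lf (nat_lit 156614) (.g (nat_lit 1903) (.e (nat_lit 57412) (nat_lit 12) (.e (nat_lit 336217) (nat_lit 13) (.e (nat_lit 393299) (nat_lit 27) (.e (nat_lit 491558) (nat_lit 10) (.e (nat_lit 344095) (nat_lit 18) (.e (nat_lit 7261) (nat_lit 384) .nil)))))) (.g (nat_lit 4) .nil .nil))) 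
(.lf (nat_lit 156646) (.g (nat_lit 2354) (.e (nat_lit 57412) (nat_lit 12) (.e (nat_lit 336219) (nat_lit 13) (.e (nat_lit 393233) (nat_lit 17) (.e (nat_lit 7593) (nat_lit 407) (.e (nat_lit 73729) (nat_lit 0) (.e (nat_lit 7263) (nat_lit 384) .nil)))))) (.g (nat_lit 5) .nil .nil)))) (.nd (nat_lit 5) 
(.lf (nat_lit 156630) (.g (nat_lit 2584) (.e (nat_lit 57412) (nat_lit 12) (.e (nat_lit 336217) (nat_lit 13) (.e (nat_lit 393301) (nat_lit 27) (.e (nat_lit 491558) (nat_lit 10) (.e (nat_lit 344095) (nat_lit 18) (.e (nat_lit 7263) (nat_lit 384) .nil)))))) (.g (nat_lit 4) .nil .nil))) 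
(.lf (nat_lit 156662) (.g (nat_lit 1074) (.e (nat_lit 57412) (nat_lit 12) (.e (nat_lit 336219) (nat_lit 13) (.e (nat_lit 393267) (nat_lit 23) (.e (nat_lit 426446) (nat_lit 20) (.e (nat_lit 114711) (nat_lit 21) (.e (nat_lit 57844) (nat_lit 252) .nil)))))) (.g (nat_lit 4) .nil .nil))))) (.nd (nat_lit 4) (.nd (nat_lit 5) 
(.lf (nat_lit 156622) (.g (nat_lit 2030) (.e (nat_lit 57412) (nat_lit 12) (.e (nat_lit 336217) (nat_lit 13) (.e (nat_lit 393300) (nat_lit 27) (.e (nat_lit 491560) (nat_lit 10) (.e (nat_lit 344090) (nat_lit 18) (.e (nat_lit 7265) (nat_lit 384) .nil)))))) (.g (nat_lit 5) .nil .nil))) 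
(.lf (nat_lit 156654) (.g (nat_lit 2549) (.e (nat_lit 57412) (nat_lit 12) (.e (nat_lit 336219) (nat_lit 13) (.e (nat_lit 393260) (nat_lit 21) (.e (nat_lit 409643) (nat_lit 18) (.e (nat_lit 303115) (nat_lit 1) (.e (nat_lit 164178) (nat_lit 154) .nil)))))) (.g (nat_lit 5) .nil .nil)))) (.nd (nat_lit 5) 
(.lf (nat_lit 156638) (.g (nat_lit 1051) (.e (nat_lit 57412) (nat_lit 12) (.e (nat_lit 336219) (nat_lit 13) (.e (nat_lit 393231) (nat_lit 17) (.e (nat_lit 7593) (nat_lit 407) (.e (nat_lit 73730) (nat_lit 0) .nil))))) .nil)) 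
(.lf (nat_lit 156670) (.g (nat_lit 2558) (.e (nat_lit 57412) (nat_lit 12) (.e (nat_lit 336219) (nat_lit 13) (.e (nat_lit 393300) (nat_lit 27) (.e (nat_lit 491558) (nat_lit 10) (.e (nat_lit 344096) (nat_lit 18) (.e (nat_lit 7263) (nat_lit 384) .nil)))))) (.g (nat_lit 5) .nil .nil)))))))) (.nd (nat_lit 1) (.nd (nat_lit 2) (.nd (nat_lit 3) (.nd (nat_lit 4) (.nd (nat_lit 5) 
(.lf (nat_lit 156609) (.g (nat_lit 1960) (.e (nat_lit 57412) (nat_lit 12) (.e (nat_lit 336217) (nat_lit 13) (.e (nat_lit 393233) (nat_lit 17) (.e (nat_lit 7593) (nat_lit 407) (.e (nat_lit 73729) (nat_lit 0) (.e (nat_lit 7263) (nat_lit 384) .nil)))))) (.g (nat_lit 5) .nil .nil))) 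
(.lf (nat_lit 156641) (.g (nat_lit 2270) (.e (nat_lit 57412) (nat_lit 12) (.e (nat_lit 336219) (nat_lit 13) (.e (nat_lit 393233) (nat_lit 17) (.e (nat_lit 7591) (nat_lit 407) (.e (nat_lit 73729) (nat_lit 0) (.e (nat_lit 7265) (nat_lit 384) .nil)))))) (.g (nat_lit 5) .nil .nil)))) (.nd (nat_lit 5) 
(.lf (nat_lit 156625) (.g (nat_lit 1712) (.e (nat_lit 57412) (nat_lit 12) (.e (nat_lit 336217) (nat_lit 13) (.e (nat_lit 393300) (nat_lit 27) (.e (nat_lit 491560) (nat_lit 10) (.e (nat_lit 344094) (nat_lit 18) (.e (nat_lit 7265) (nat_lit 384) .nil)))))) (.g (nat_lit 4) .nil .nil))) 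
(.lf (nat_lit 156657) (.g (nat_lit 3151) (.e (nat_lit 57412) (nat_lit 12) (.e (nat_lit 336219) (nat_lit 13) (.e (nat_lit 393260) (nat_lit 21) (.e (nat_lit 409645) (nat_lit 18) (.e (nat_lit 303115) (nat_lit 1) (.e (nat_lit 164178) (nat_lit 154) .nil)))))) (.g (nat_lit 5) .nil .nil))))) (.nd (nat_lit 4) (.nd (nat_lit 5) 
(.lf (nat_lit 156617) (.g (nat_lit 2053) (.e (nat_lit 57412) (nat_lit 12) (.e (nat_lit 336217) (nat_lit 13) (.e (nat_lit 393300) (nat_lit 27) (.e (nat_lit 491558) (nat_lit 10) (.e (nat_lit 344091) (nat_lit 18) (.e (nat_lit 7265) (nat_lit 384) .nil)))))) (.g (nat_lit 5) .nil .nil))) 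
(.lf (nat_lit 156649) (.g (nat_lit 1529) (.e (nat_lit 57412) (nat_lit 12) (.e (nat_lit 336219) (nat_lit 13) (.e (nat_lit 393233) (nat_lit 17) (.e (nat_lit 7593) (nat_lit 407) (.e (nat_lit 73731) (nat_lit 0) (.e (nat_lit 7265) (nat_lit 384) .nil)))))) (.g (nat_lit 4) .nil .nil)))) (.nd (nat_lit 5) 
(.lf (nat_lit 156633) (.g (nat_lit 2785) (.e (nat_lit 57412) (nat_lit 12) (.e (nat_lit 336217) (nat_lit 13) (.e (nat_lit 393301) (nat_lit 27) (.e (nat_lit 491560) (nat_lit 10) (.e (nat_lit 344096) (nat_lit 18) .nil))))) .nil)) 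
(.lf (nat_lit 156665) (.g (nat_lit 2229) (.e (nat_lit 57412) (nat_lit 12) (.e (nat_lit 336219) (nat_lit 13) (.e (nat_lit 393270) (nat_lit 23) (.e (nat_lit 426448) (nat_lit 20) (.e (nat_lit 114710) (nat_lit 21) (.e (nat_lit 57851) (nat_lit 252) .nil)))))) (.g (nat_lit 6) .nil .nil)))))) (.nd (nat_lit 3) (.nd (nat_lit 4) (.nd (nat_lit 5) 
(.lf (nat_lit 156613) (.g (nat_lit 1486) (.e (nat_lit 57412) (nat_lit 12) (.e (nat_lit 336217) (nat_lit 13) (.e (nat_lit 393234) (nat_lit 17) (.e (nat_lit 7591) (nat_lit 407) (.e (nat_lit 73731) (nat_lit 0) (.e (nat_lit 7261) (nat_lit 384) .nil)))))) (.g (nat_lit 4) .nil .nil))) 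
(.lf (nat_lit 156645) (.g (nat_lit 2288) (.e (nat_lit 57412) (nat_lit 12) (.e (nat_lit 336219) (nat_lit 13) (.e (nat_lit 393233) (nat_lit 17) (.e (nat_lit 7593) (nat_lit 407) (.e (nat_lit 73729) (nat_lit 0) (.e (nat_lit 7261) (nat_lit 384) .nil)))))) (.g (nat_lit 5) .nil .nil)))) (.nd (nat_lit 5) 
(.lf (nat_lit 156629) (.g (nat_lit 2882) (.e (nat_lit 57412) (nat_lit 12) (.e (nat_lit 336217) (nat_lit 13) (.e (nat_lit 393301) (nat_lit 27) (.e (nat_lit 491558) (nat_lit 10) (.e (nat_lit 344091) (nat_lit 18) (.e (nat_lit 7261) (nat_lit 384) .nil)))))) (.g (nat_lit 5) .nil .nil))) 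
(.lf (nat_lit 156661) (.g (nat_lit 2477) (.e (nat_lit 57412) (nat_lit 12) (.e (nat_lit 336219) (nat_lit 13) (.e (nat_lit 393260) (nat_lit 21) (.e (nat_lit 409649) (nat_lit 18) (.e (nat_lit 303115) (nat_lit 1) (.e (nat_lit 164178) (nat_lit 154) .nil)))))) (.g (nat_lit 5) .nil .nil))))) (.nd (nat_lit 4) (.nd (nat_lit 5) 
(.lf (nat_lit 156621) (.g (nat_lit 2086) (.e (nat_lit 57412) (nat_lit 12) (.e (nat_lit 336217) (nat_lit 13) (.e (nat_lit 393300) (nat_lit 27) (.e (nat_lit 491560) (nat_lit 10) (.e (nat_lit 344090) (nat_lit 18) (.e (nat_lit 7261) (nat_lit 384) .nil)))))) (.g (nat_lit 5) .nil .nil))) 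
(.lf (nat_lit 156653) (.g (nat_lit 1806) (.e (nat_lit 57412) (nat_lit 12) (.e (nat_lit 336219) (nat_lit 13) (.e (nat_lit 393234) (nat_lit 17) (.e (nat_lit 7593) (nat_lit 407) (.e (nat_lit 73731) (nat_lit 0) (.e (nat_lit 7261) (nat_lit 384) .nil)))))) (.g (nat_lit 4) .nil .nil)))) (.nd (nat_lit 5) 
(.lf (nat_lit 156637) (.g (nat_lit 1322) (.e (nat_lit 57412) (nat_lit 12) (.e (nat_lit 336219) (nat_lit 13) (.e (nat_lit 393231) (nat_lit 17) (.e (nat_lit 7593) (nat_lit 407) (.e (nat_lit 73729) (nat_lit 0) (.e (nat_lit 7263) (nat_lit 384) .nil)))))) (.g (nat_lit 4) .nil .nil))) 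
(.lf (nat_lit 156669) (.g (nat_lit 2713) (.e (nat_lit 57412) (nat_lit 12) (.e (nat_lit 336219) (nat_lit 13) (.e (nat_lit 393300) (nat_lit 27) (.e (nat_lit 491558) (nat_lit 10) (.e (nat_lit 344091) (nat_lit 18) (.e (nat_lit 7263) (nat_lit 384) .nil)))))) (.g (nat_lit 5) .nil .nil))))))) (.nd (nat_lit 2) (.nd (nat_lit 3) (.nd (nat_lit 4) (.nd (nat_lit 5) 
(.lf (nat_lit 156611) (.g (nat_lit 1413) (.e (nat_lit 57412) (nat_lit 12) (.e (nat_lit 336217) (nat_lit 13) (.e (nat_lit 393233) (nat_lit 17) (.e (nat_lit 7593) (nat_lit 407) (.e (nat_lit 73730) (nat_lit 0) (.e (nat_lit 7263) (nat_lit 384) .nil)))))) (.g (nat_lit 4) .nil .nil))) 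
(.lf (nat_lit 156643) (.g (nat_lit 1695) (.e (nat_lit 57412) (nat_lit 12) (.e (nat_lit 336219) (nat_lit 13) (.e (nat_lit 393233) (nat_lit 17) (.e (nat_lit 7591) (nat_lit 407) (.e (nat_lit 73730) (nat_lit 0) (.e (nat_lit 7263) (nat_lit 384) .nil)))))) (.g (nat_lit 4) .nil .nil)))) (.nd (nat_lit 5) 
(.lf (nat_lit 156627) (.g (nat_lit 2176) (.e (nat_lit 57412) (nat_lit 12) (.e (nat_lit 336217) (nat_lit 13) (.e (nat_lit 393301) (nat_lit 27) (.e (nat_lit 491558) (nat_lit 10) (.e (nat_lit 344090) (nat_lit 18) .nil))))) .nil)) 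
(.lf (nat_lit 156659) (.g (nat_lit 2462) (.e (nat_lit 57412) (nat_lit 12) (.e (nat_lit 336219) (nat_lit 13) (.e (nat_lit 393260) (nat_lit 21) (.e (nat_lit 409646) (nat_lit 18) (.e (nat_lit 303115) (nat_lit 1) (.e (nat_lit 164178) (nat_lit 154) .nil)))))) (.g (nat_lit 5) .nil .nil))))) (.nd (nat_lit 4) (.nd (nat_lit 5) 
(.lf (nat_lit 156619) (.g (nat_lit 2250) (.e (nat_lit 57412) (nat_lit 12) (.e (nat_lit 336217) (nat_lit 13) (.e (nat_lit 393300) (nat_lit 27) (.e (nat_lit 491558) (nat_lit 10) (.e (nat_lit 344096) (nat_lit 18) (.e (nat_lit 7261) (nat_lit 384) .nil)))))) (.g (nat_lit 5) .nil .nil))) 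
(.lf (nat_lit 156651) (.g (nat_lit 2718) (.e (nat_lit 57412) (nat_lit 12) (.e (nat_lit 336219) (nat_lit 13) (.e (nat_lit 393234) (nat_lit 17) (.e (nat_lit 7591) (nat_lit 407) (.e (nat_lit 73729) (nat_lit 0) (.e (nat_lit 7263) (nat_lit 384) .nil)))))) (.g (nat_lit 6) .nil .nil)))) (.nd (nat_lit 5) 
(.lf (nat_lit 156635) (.g (nat_lit 1743) (.e (nat_lit 57412) (nat_lit 12) (.e (nat_lit 336218) (nat_lit 13) (.e (nat_lit 393232) (nat_lit 17) (.e (nat_lit 7593) (nat_lit 407) (.e (nat_lit 73729) (nat_lit 0) (.e (nat_lit 7261) (nat_lit 384) .nil)))))) (.g (nat_lit 4) .nil .nil))) 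
(.lf (nat_lit 156667) (.g (nat_lit 2283) (.e (nat_lit 57412) (nat_lit 12) (.e (nat_lit 336219) (nat_lit 13) (.e (nat_lit 393298) (nat_lit 27) (.e (nat_lit 491560) (nat_lit 10) (.e (nat_lit 344090) (nat_lit 18) .nil))))) .nil))))) (.nd (nat_lit 3) (.nd (nat_lit 4) (.nd (nat_lit 5) 
(.lf (nat_lit 156615) (.g (nat_lit 1692) (.e (nat_lit 57412) (nat_lit 12) (.e (nat_lit 336217) (nat_lit 13) (.e (nat_lit 393299) (nat_lit 27) (.e (nat_lit 491558) (nat_lit 10) (.e (nat_lit 344095) (nat_lit 18) (.e (nat_lit 7263) (nat_lit 384) .nil)))))) (.g (nat_lit 4) .nil .nil))) 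
(.lf (nat_lit 156647) (.g (nat_lit 1784) (.e (nat_lit 57412) (nat_lit 12) (.e (nat_lit 336219) (nat_lit 13) (.e (nat_lit 393233) (nat_lit 17) (.e (nat_lit 7593) (nat_lit 407) (.e (nat_lit 73730) (nat_lit 0) (.e (nat_lit 7261) (nat_lit 384) .nil)))))) (.g (nat_lit 4) .nil .nil)))) (.nd (nat_lit 5) 
(.lf (nat_lit 156631) (.g (nat_lit 3108) (.e (nat_lit 57412) (nat_lit 12) (.e (nat_lit 336217) (nat_lit 13) (.e (nat_lit 393301) (nat_lit 27) (.e (nat_lit 491558) (nat_lit 10) (.e (nat_lit 344096) (nat_lit 18) (.e (nat_lit 7261) (nat_lit 384) .nil)))))) (.g (nat_lit 5) .nil .nil))) 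
(.lf (nat_lit 156663) (.g (nat_lit 1939) (.e (nat_lit 57412) (nat_lit 12) (.e (nat_lit 336219) (nat_lit 13) (.e (nat_lit 393270) (nat_lit 23) (.e (nat_lit 426446) (nat_lit 20) (.e (nat_lit 114710) (nat_lit 21) (.e (nat_lit 57851) (nat_lit 252) .nil)))))) (.g (nat_lit 5) .nil .nil))))) (.nd (nat_lit 4) (.nd (nat_lit 5) 
(.lf (nat_lit 156623) (.g (nat_lit 1703) (.e (nat_lit 57412) (nat_lit 12) (.e (nat_lit 336217) (nat_lit 13) (.e (nat_lit 393300) (nat_lit 27) (.e (nat_lit 491560) (nat_lit 10) (.e (nat_lit 344094) (nat_lit 18) (.e (nat_lit 7261) (nat_lit 384) .nil)))))) (.g (nat_lit 4) .nil .nil))) 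
(.lf (nat_lit 156655) (.g (nat_lit 2174) (.e (nat_lit 57412) (nat_lit 12) (.e (nat_lit 336219) (nat_lit 13) (.e (nat_lit 393260) (nat_lit 21) (.e (nat_lit 409644) (nat_lit 18) (.e (nat_lit 303115) (nat_lit 1) (.e (nat_lit 164178) (nat_lit 154) .nil)))))) (.g (nat_lit 4) .nil .nil)))) (.nd (nat_lit 5) 
(.lf (nat_lit 156639) (.g (nat_lit 675) (.e (nat_lit 57412) (nat_lit 12) (.e (nat_lit 336219) (nat_lit 13) (.e (nat_lit 393232) (nat_lit 17) (.e (nat_lit 7591) (nat_lit 407) .nil)))) .nil)) 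
(.lf (nat_lit 156671) (.g (nat_lit 2372) (.e (nat_lit 57412) (nat_lit 12) (.e (nat_lit 336219) (nat_lit 13) (.e (nat_lit 393300) (nat_lit 27) (.e (nat_lit 491560) (nat_lit 10) (.e (nat_lit 344090) (nat_lit 18) (.e (nat_lit 7263) (nat_lit 384) .nil)))))) (.g (nat_lit 5) .nil .nil)))))))))

noncomputable def tv2096 : DT := (.nd (nat_lit 0) (.nd (nat_lit 1) (.nd (nat_lit 2) (.nd (nat_lit 3) (.nd (nat_lit 4) (.nd (nat_lit 5) 
(.lf (nat_lit 156672) (.g (nat_lit 2343) (.e (nat_lit 57412) (nat_lit 12) (.e (nat_lit 336219) (nat_lit 13) (.e (nat_lit 393300) (nat_lit 27) (.e (nat_lit 491560) (nat_lit 10) (.e (nat_lit 344091) (nat_lit 18) (.e (nat_lit 7261) (nat_lit 384) .nil)))))) (.g (nat_lit 5) .nil .nil))) 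
(.lf (nat_lit 156704) (.g (nat_lit 1794) (.e (nat_lit 57412) (nat_lit 12) (.e (nat_lit 336226) (nat_lit 14) (.e (nat_lit 401436) (nat_lit 9) (.e (nat_lit 426542) (nat_lit 29) (.e (nat_lit 352318) (nat_lit 24) (.e (nat_lit 123198) (nat_lit 266) .nil)))))) (.g (nat_lit 4) .nil .nil)))) (.nd (nat_lit 5) 
(.lf (nat_lit 156688) (.g (nat_lit 3282) (.e (nat_lit 57412) (nat_lit 12) (.e (nat_lit 336219) (nat_lit 13) (.e (nat_lit 393301) (nat_lit 27) (.e (nat_lit 491560) (nat_lit 10) (.e (nat_lit 344095) (nat_lit 18) (.e (nat_lit 7261) (nat_lit 384) .nil)))))) (.g (nat_lit 4) .nil .nil))) 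
(.lf (nat_lit 156720) (.g (nat_lit 4747) (.e (nat_lit 57412) (nat_lit 12) (.e (nat_lit 336226) (nat_lit 14) (.e (nat_lit 401437) (nat_lit 9) (.e (nat_lit 426542) (nat_lit 29) (.e (nat_lit 352318) (nat_lit 24) (.e (nat_lit 123195) (nat_lit 266) .nil)))))) (.g (nat_lit 0) .nil .nil))))) (.nd (nat_lit 4) (.nd (nat_lit 5) 
(.lf (nat_lit 156680) (.g (nat_lit 3328) (.e (nat_lit 57412) (nat_lit 12) (.e (nat_lit 336219) (nat_lit 13) (.e (nat_lit 393301) (nat_lit 27) (.e (nat_lit 491558) (nat_lit 10) (.e (nat_lit 344096) (nat_lit 18) (.e (nat_lit 7263) (nat_lit 384) .nil)))))) (.g (nat_lit 5) .nil .nil))) 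
(.lf (nat_lit 156712) (.g (nat_lit 3602) (.e (nat_lit 57412) (nat_lit 12) (.e (nat_lit 336226) (nat_lit 14) (.e (nat_lit 401437) (nat_lit 9) (.e (nat_lit 426540) (nat_lit 29) (.e (nat_lit 352316) (nat_lit 24) (.e (nat_lit 123195) (nat_lit 266) .nil)))))) (.g (nat_lit 5) .nil .nil)))) (.nd (nat_lit 5) 
(.lf (nat_lit 156696) (.g (nat_lit 3610) (.e (nat_lit 57412) (nat_lit 12) (.e (nat_lit 336226) (nat_lit 14) (.e (nat_lit 401428) (nat_lit 3) (.e (nat_lit 204869) (nat_lit 29) (.e (nat_lit 360456) (nat_lit 0) (.e (nat_lit 7936) (nat_lit 241) .nil)))))) (.g (nat_lit 5) .nil .nil))) 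
(.lf (nat_lit 156728) (.g (nat_lit 1468) (.e (nat_lit 57412) (nat_lit 12) (.e (nat_lit 336226) (nat_lit 14) (.e (nat_lit 401437) (nat_lit 9) (.e (nat_lit 426546) (nat_lit 30) .nil)))) .nil))))) (.nd (nat_lit 3) (.nd (nat_lit 4) (.nd (nat_lit 5) 
(.lf (nat_lit 156676) (.g (nat_lit 2603) (.e (nat_lit 57412) (nat_lit 12) (.e (nat_lit 336219) (nat_lit 13) (.e (nat_lit 393300) (nat_lit 27) (.e (nat_lit 491560) (nat_lit 10) (.e (nat_lit 344096) (nat_lit 18) (.e (nat_lit 7261) (nat_lit 384) .nil)))))) (.g (nat_lit 5) .nil .nil))) 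
(.lf (nat_lit 156708) (.g (nat_lit 3125) (.e (nat_lit 57412) (nat_lit 12) (.e (nat_lit 336226) (nat_lit 14) (.e (nat_lit 401437) (nat_lit 9) (.e (nat_lit 426538) (nat_lit 29) (.e (nat_lit 352318) (nat_lit 24) (.e (nat_lit 123196) (nat_lit 266) .nil)))))) (.g (nat_lit 4) .nil .nil)))) (.nd (nat_lit 5) 
(.lf (nat_lit 156692) (.g (nat_lit 2826) (.e (nat_lit 57412) (nat_lit 12) (.e (nat_lit 336226) (nat_lit 14) (.e (nat_lit 401428) (nat_lit 3) (.e (nat_lit 204866) (nat_lit 28) (.e (nat_lit 352318) (nat_lit 24) (.e (nat_lit 130816) (nat_lit 142) .nil)))))) (.g (nat_lit 5) .nil .nil))) 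
(.lf (nat_lit 156724) (.g (nat_lit 1520) (.e (nat_lit 57412) (nat_lit 12) (.e (nat_lit 336226) (nat_lit 14) (.e (nat_lit 401437) (nat_lit 9) (.e (nat_lit 426544) (nat_lit 30) .nil)))) .nil)))) (.nd (nat_lit 4) (.nd (nat_lit 5) 
(.lf (nat_lit 156684) (.g (nat_lit 2875) (.e (nat_lit 57412) (nat_lit 12) (.e (nat_lit 336219) (nat_lit 13) (.e (nat_lit 393301) (nat_lit 27) (.e (nat_lit 491559) (nat_lit 10) (.e (nat_lit 344095) (nat_lit 18) (.e (nat_lit 7263) (nat_lit 384) .nil)))))) (.g (nat_lit 4) .nil .nil))) 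
(.lf (nat_lit 156716) (.g (nat_lit 2857) (.e (nat_lit 57412) (nat_lit 12) (.e (nat_lit 336226) (nat_lit 14) (.e (nat_lit 401437) (nat_lit 9) (.e (nat_lit 426542) (nat_lit 29) (.e (nat_lit 352280) (nat_lit 20) .nil))))) .nil))) (.nd (nat_lit 5) 
(.lf (nat_lit 156700) (.g (nat_lit 1957) (.e (nat_lit 57412) (nat_lit 12) (.e (nat_lit 336226) (nat_lit 14) (.e (nat_lit 401436) (nat_lit 9) (.e (nat_lit 426542) (nat_lit 29) (.e (nat_lit 352316) (nat_lit 24) (.e (nat_lit 123194) (nat_lit 266) .nil)))))) (.g (nat_lit 4) .nil .nil))) 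
(.lf (nat_lit 156732) (.g (nat_lit 2951) (.e (nat_lit 57412) (nat_lit 12) (.e (nat_lit 336226) (nat_lit 14) (.e (nat_lit 401437) (nat_lit 9) (.e (nat_lit 426555) (nat_lit 32) (.e (nat_lit 376857) (nat_lit 21) (.e (nat_lit 65280) (nat_lit 266) .nil)))))) (.g (nat_lit 4) .nil .nil))))))) (.nd (nat_lit 2) (.nd (nat_lit 3) (.nd (nat_lit 4) (.nd (nat_lit 5) 
(.lf (nat_lit 156674) (.g (nat_lit 2287) (.e (nat_lit 57412) (nat_lit 12) (.e (nat_lit 336219) (nat_lit 13) (.e (nat_lit 393300) (nat_lit 27) (.e (nat_lit 491560) (nat_lit 10) (.e (nat_lit 344095) (nat_lit 18) (.e (nat_lit 7261) (nat_lit 384) .nil)))))) (.g (nat_lit 4) .nil .nil))) 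
(.lf (nat_lit 156706) (.g (nat_lit 3526) (.e (nat_lit 57412) (nat_lit 12) (.e (nat_lit 336226) (nat_lit 14) (.e (nat_lit 401437) (nat_lit 9) (.e (nat_lit 426538) (nat_lit 29) (.e (nat_lit 352318) (nat_lit 24) (.e (nat_lit 123194) (nat_lit 266) .nil)))))) (.g (nat_lit 5) .nil .nil)))) (.nd (nat_lit 5) 
(.lf (nat_lit 156690) (.g (nat_lit 3562) (.e (nat_lit 57412) (nat_lit 12) (.e (nat_lit 336219) (nat_lit 13) (.e (nat_lit 393301) (nat_lit 27) (.e (nat_lit 491560) (nat_lit 10) (.e (nat_lit 344096) (nat_lit 18) (.e (nat_lit 7261) (nat_lit 384) .nil)))))) (.g (nat_lit 5) .nil .nil))) 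
(.lf (nat_lit 156722) (.g (nat_lit 4290) (.e (nat_lit 57412) (nat_lit 12) (.e (nat_lit 336226) (nat_lit 14) (.e (nat_lit 401437) (nat_lit 9) (.e (nat_lit 426542) (nat_lit 29) (.e (nat_lit 352318) (nat_lit 24) (.e (nat_lit 123197) (nat_lit 266) .nil)))))) (.g (nat_lit 6) .nil .nil))))) (.nd (nat_lit 4) (.nd (nat_lit 5) 
(.lf (nat_lit 156682) (.g (nat_lit 3627) (.e (nat_lit 57412) (nat_lit 12) (.e (nat_lit 336219) (nat_lit 13) (.e (nat_lit 393301) (nat_lit 27) (.e (nat_lit 491559) (nat_lit 10) (.e (nat_lit 344091) (nat_lit 18) (.e (nat_lit 7265) (nat_lit 384) .nil)))))) (.g (nat_lit 5) .nil .nil))) 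
(.lf (nat_lit 156714) (.g (nat_lit 3122) (.e (nat_lit 57412) (nat_lit 12) (.e (nat_lit 336226) (nat_lit 14) (.e (nat_lit 401437) (nat_lit 9) (.e (nat_lit 426540) (nat_lit 29) (.e (nat_lit 352316) (nat_lit 24) (.e (nat_lit 123198) (nat_lit 266) .nil)))))) (.g (nat_lit 4) .nil .nil)))) (.nd (nat_lit 5) 
(.lf (nat_lit 156698) (.g (nat_lit 1206) (.e (nat_lit 57412) (nat_lit 12) (.e (nat_lit 336226) (nat_lit 14) (.e (nat_lit 401435) (nat_lit 9) (.e (nat_lit 426544) (nat_lit 30) .nil)))) .nil)) 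
(.lf (nat_lit 156730) (.g (nat_lit 2266) (.e (nat_lit 57412) (nat_lit 12) (.e (nat_lit 336226) (nat_lit 14) (.e (nat_lit 401437) (nat_lit 9) (.e (nat_lit 426546) (nat_lit 30) (.e (nat_lit 368384) (nat_lit 0) .nil))))) .nil))))) (.nd (nat_lit 3) (.nd (nat_lit 4) (.nd (nat_lit 5) 
(.lf (nat_lit 156678) (.g (nat_lit 3235) (.e (nat_lit 57412) (nat_lit 12) (.e (nat_lit 336219) (nat_lit 13) (.e (nat_lit 393301) (nat_lit 27) (.e (nat_lit 491558) (nat_lit 10) (.e (nat_lit 344090) (nat_lit 18) (.e (nat_lit 7265) (nat_lit 384) .nil)))))) (.g (nat_lit 5) .nil .nil))) 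
(.lf (nat_lit 156710) (.g (nat_lit 1767) (.e (nat_lit 57412) (nat_lit 12) (.e (nat_lit 336226) (nat_lit 14) (.e (nat_lit 401437) (nat_lit 9) (.e (nat_lit 426540) (nat_lit 29) .nil)))) .nil))) (.nd (nat_lit 5) 
(.lf (nat_lit 156694) (.g (nat_lit 1580) (.e (nat_lit 57412) (nat_lit 12) (.e (nat_lit 336226) (nat_lit 14) (.e (nat_lit 401428) (nat_lit 3) (.e (nat_lit 204868) (nat_lit 29) (.e (nat_lit 360456) (nat_lit 0) (.e (nat_lit 7936) (nat_lit 241) .nil)))))) (.g (nat_lit 4) .nil .nil))) 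
(.lf (nat_lit 156726) (.g (nat_lit 2464) (.e (nat_lit 57412) (nat_lit 12) (.e (nat_lit 336226) (nat_lit 14) (.e (nat_lit 401437) (nat_lit 9) (.e (nat_lit 426544) (nat_lit 30) (.e (nat_lit 360456) (nat_lit 0) .nil))))) .nil)))) (.nd (nat_lit 4) (.nd (nat_lit 5) 
(.lf (nat_lit 156686) (.g (nat_lit 2824) (.e (nat_lit 57412) (nat_lit 12) (.e (nat_lit 336219) (nat_lit 13) (.e (nat_lit 393301) (nat_lit 27) (.e (nat_lit 491560) (nat_lit 10) (.e (nat_lit 344091) (nat_lit 18) (.e (nat_lit 7263) (nat_lit 384) .nil)))))) (.g (nat_lit 4) .nil .nil))) 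
(.lf (nat_lit 156718) (.g (nat_lit 3371) (.e (nat_lit 57412) (nat_lit 12) (.e (nat_lit 336226) (nat_lit 14) (.e (nat_lit 401437) (nat_lit 9) (.e (nat_lit 426542) (nat_lit 29) (.e (nat_lit 352316) (nat_lit 24) (.e (nat_lit 123196) (nat_lit 266) .nil)))))) (.g (nat_lit 4) .nil .nil)))) (.nd (nat_lit 5) 
(.lf (nat_lit 156702) (.g (nat_lit 2440) (.e (nat_lit 57412) (nat_lit 12) (.e (nat_lit 336226) (nat_lit 14) (.e (nat_lit 401436) (nat_lit 9) (.e (nat_lit 426542) (nat_lit 29) (.e (nat_lit 352318) (nat_lit 24) (.e (nat_lit 123194) (nat_lit 266) .nil)))))) (.g (nat_lit 5) .nil .nil))) 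
(.lf (nat_lit 156734) (.g (nat_lit 3049) (.e (nat_lit 57412) (nat_lit 12) (.e (nat_lit 336226) (nat_lit 14) (.e (nat_lit 401437) (nat_lit 9) (.e (nat_lit 426555) (nat_lit 32) (.e (nat_lit 376870) (nat_lit 24) .nil))))) .nil))))))) (.nd (nat_lit 1) (.nd (nat_lit 2) (.nd (nat_lit 3) (.nd (nat_lit 4) (.nd (nat_lit 5) 
(.lf (nat_lit 156673) (.g (nat_lit 2340) (.e (nat_lit 57412) (nat_lit 12) (.e (nat_lit 336219) (nat_lit 13) (.e (nat_lit 393300) (nat_lit 27) (.e (nat_lit 491560) (nat_lit 10) (.e (nat_lit 344091) (nat_lit 18) (.e (nat_lit 7263) (nat_lit 384) .nil)))))) (.g (nat_lit 5) .nil .nil))) 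
(.lf (nat_lit 156705) (.g (nat_lit 859) (.e (nat_lit 57412) (nat_lit 12) (.e (nat_lit 336226) (nat_lit 14) (.e (nat_lit 401436) (nat_lit 9) (.e (nat_lit 426544) (nat_lit 30) .nil)))) .nil))) (.nd (nat_lit 5) 
(.lf (nat_lit 156689) (.g (nat_lit 3056) (.e (nat_lit 57412) (nat_lit 12) (.e (nat_lit 336219) (nat_lit 13) (.e (nat_lit 393301) (nat_lit 27) (.e (nat_lit 491560) (nat_lit 10) (.e (nat_lit 344095) (nat_lit 18) (.e (nat_lit 7263) (nat_lit 384) .nil)))))) (.g (nat_lit 4) .nil .nil))) 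
(.lf (nat_lit 156721) (.g (nat_lit 3986) (.e (nat_lit 57412) (nat_lit 12) (.e (nat_lit 336226) (nat_lit 14) (.e (nat_lit 401437) (nat_lit 9) (.e (nat_lit 426542) (nat_lit 29) (.e (nat_lit 352318) (nat_lit 24) (.e (nat_lit 123196) (nat_lit 266) .nil)))))) (.g (nat_lit 5) .nil .nil))))) (.nd (nat_lit 4) (.nd (nat_lit 5) 
(.lf (nat_lit 156681) (.g (nat_lit 2779) (.e (nat_lit 57412) (nat_lit 12) (.e (nat_lit 336219) (nat_lit 13) (.e (nat_lit 393301) (nat_lit 27) (.e (nat_lit 491559) (nat_lit 10) (.e (nat_lit 344090) (nat_lit 18) .nil))))) .nil)) 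
(.lf (nat_lit 156713) (.g (nat_lit 3158) (.e (nat_lit 57412) (nat_lit 12) (.e (nat_lit 336226) (nat_lit 14) (.e (nat_lit 401437) (nat_lit 9) (.e (nat_lit 426540) (nat_lit 29) (.e (nat_lit 352316) (nat_lit 24) (.e (nat_lit 123197) (nat_lit 266) .nil)))))) (.g (nat_lit 4) .nil .nil)))) (.nd (nat_lit 5) 
(.lf (nat_lit 156697) (.g (nat_lit 1433) (.e (nat_lit 57412) (nat_lit 12) (.e (nat_lit 336226) (nat_lit 14) (.e (nat_lit 401435) (nat_lit 9) (.e (nat_lit 426542) (nat_lit 29) .nil)))) .nil)) 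
(.lf (nat_lit 156729) (.g (nat_lit 2353) (.e (nat_lit 57412) (nat_lit 12) (.e (nat_lit 336226) (nat_lit 14) (.e (nat_lit 401437) (nat_lit 9) (.e (nat_lit 426546) (nat_lit 30) (.e (nat_lit 360455) (nat_lit 0) .nil))))) .nil))))) (.nd (nat_lit 3) (.nd (nat_lit 4) (.nd (nat_lit 5) 
(.lf (nat_lit 156677) (.g (nat_lit 966) (.e (nat_lit 57412) (nat_lit 12) (.e (nat_lit 336219) (nat_lit 13) (.e (nat_lit 393301) (nat_lit 27) (.e (nat_lit 491558) (nat_lit 10) .nil)))) .nil)) 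
(.lf (nat_lit 156709) (.g (nat_lit 3195) (.e (nat_lit 57412) (nat_lit 12) (.e (nat_lit 336226) (nat_lit 14) (.e (nat_lit 401437) (nat_lit 9) (.e (nat_lit 426538) (nat_lit 29) (.e (nat_lit 352318) (nat_lit 24) (.e (nat_lit 123197) (nat_lit 266) .nil)))))) (.g (nat_lit 5) .nil .nil)))) (.nd (nat_lit 5) 
(.lf (nat_lit 156693) (.g (nat_lit 1631) (.e (nat_lit 57412) (nat_lit 12) (.e (nat_lit 336226) (nat_lit 14) (.e (nat_lit 401428) (nat_lit 3) (.e (nat_lit 204868) (nat_lit 29) (.e (nat_lit 360452) (nat_lit 0) (.e (nat_lit 7936) (nat_lit 241) .nil)))))) (.g (nat_lit 4) .nil .nil))) 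
(.lf (nat_lit 156725) (.g (nat_lit 2472) (.e (nat_lit 57412) (nat_lit 12) (.e (nat_lit 336226) (nat_lit 14) (.e (nat_lit 401437) (nat_lit 9) (.e (nat_lit 426544) (nat_lit 30) (.e (nat_lit 360455) (nat_lit 0) .nil))))) .nil)))) (.nd (nat_lit 4) (.nd (nat_lit 5) 
(.lf (nat_lit 156685) (.g (nat_lit 2853) (.e (nat_lit 57412) (nat_lit 12) (.e (nat_lit 336219) (nat_lit 13) (.e (nat_lit 393301) (nat_lit 27) (.e (nat_lit 491560) (nat_lit 10) (.e (nat_lit 344091) (nat_lit 18) (.e (nat_lit 7261) (nat_lit 384) .nil)))))) (.g (nat_lit 4) .nil .nil))) 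
(.lf (nat_lit 156717) (.g (nat_lit 3987) (.e (nat_lit 57412) (nat_lit 12) (.e (nat_lit 336226) (nat_lit 14) (.e (nat_lit 401437) (nat_lit 9) (.e (nat_lit 426542) (nat_lit 29) (.e (nat_lit 352316) (nat_lit 24) (.e (nat_lit 123194) (nat_lit 266) .nil)))))) (.g (nat_lit 5) .nil .nil)))) (.nd (nat_lit 5) 
(.lf (nat_lit 156701) (.g (nat_lit 2122) (.e (nat_lit 57412) (nat_lit 12) (.e (nat_lit 336226) (nat_lit 14) (.e (nat_lit 401436) (nat_lit 9) (.e (nat_lit 426542) (nat_lit 29) (.e (nat_lit 352316) (nat_lit 24) (.e (nat_lit 123198) (nat_lit 266) .nil)))))) (.g (nat_lit 5) .nil .nil))) 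
(.lf (nat_lit 156733) (.g (nat_lit 3822) (.e (nat_lit 57412) (nat_lit 12) (.e (nat_lit 336226) (nat_lit 14) (.e (nat_lit 401437) (nat_lit 9) (.e (nat_lit 426555) (nat_lit 32) (.e (nat_lit 376860) (nat_lit 21) (.e (nat_lit 65280) (nat_lit 266) .nil)))))) (.g (nat_lit 5) .nil .nil))))))) (.nd (nat_lit 2) (.nd (nat_lit 3) (.nd (nat_lit 4) (.nd (nat_lit 5) 
(.lf (nat_lit 156675) (.g (nat_lit 2075) (.e (nat_lit 57412) (nat_lit 12) (.e (nat_lit 336219) (nat_lit 13) (.e (nat_lit 393300) (nat_lit 27) (.e (nat_lit 491560) (nat_lit 10) (.e (nat_lit 344095) (nat_lit 18) (.e (nat_lit 7263) (nat_lit 384) .nil)))))) (.g (nat_lit 4) .nil .nil))) 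
(.lf (nat_lit 156707) (.g (nat_lit 2854) (.e (nat_lit 57412) (nat_lit 12) (.e (nat_lit 336226) (nat_lit 14) (.e (nat_lit 401437) (nat_lit 9) (.e (nat_lit 426538) (nat_lit 29) (.e (nat_lit 352318) (nat_lit 24) (.e (nat_lit 123195) (nat_lit 266) .nil)))))) (.g (nat_lit 4) .nil .nil)))) (.nd (nat_lit 5) 
(.lf (nat_lit 156691) (.g (nat_lit 3670) (.e (nat_lit 57412) (nat_lit 12) (.e (nat_lit 336219) (nat_lit 13) (.e (nat_lit 393301) (nat_lit 27) (.e (nat_lit 491560) (nat_lit 10) (.e (nat_lit 344096) (nat_lit 18) (.e (nat_lit 7265) (nat_lit 384) .nil)))))) (.g (nat_lit 5) .nil .nil))) 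
(.lf (nat_lit 156723) (.g (nat_lit 3757) (.e (nat_lit 57412) (nat_lit 12) (.e (nat_lit 336226) (nat_lit 14) (.e (nat_lit 401437) (nat_lit 9) (.e (nat_lit 426542) (nat_lit 29) (.e (nat_lit 352318) (nat_lit 24) (.e (nat_lit 123198) (nat_lit 266) .nil)))))) (.g (nat_lit 6) .nil .nil))))) (.nd (nat_lit 4) (.nd (nat_lit 5) 
(.lf (nat_lit 156683) (.g (nat_lit 3095) (.e (nat_lit 57412) (nat_lit 12) (.e (nat_lit 336219) (nat_lit 13) (.e (nat_lit 393301) (nat_lit 27) (.e (nat_lit 491559) (nat_lit 10) (.e (nat_lit 344095) (nat_lit 18) (.e (nat_lit 7261) (nat_lit 384) .nil)))))) (.g (nat_lit 4) .nil .nil))) 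
(.lf (nat_lit 156715) (.g (nat_lit 1742) (.e (nat_lit 57412) (nat_lit 12) (.e (nat_lit 336226) (nat_lit 14) (.e (nat_lit 401437) (nat_lit 9) (.e (nat_lit 426542) (nat_lit 29) .nil)))) .nil))) (.nd (nat_lit 5) 
(.lf (nat_lit 156699) (.g (nat_lit 463) (.e (nat_lit 57412) (nat_lit 12) (.e (nat_lit 336226) (nat_lit 14) (.e (nat_lit 401436) (nat_lit 9) .nil))) .nil)) 
(.lf (nat_lit 156731) (.g (nat_lit 1795) (.e (nat_lit 57412) (nat_lit 12) (.e (nat_lit 336226) (nat_lit 14) (.e (nat_lit 401437) (nat_lit 9) (.e (nat_lit 426555) (nat_lit 32) .nil)))) .nil))))) (.nd (nat_lit 3) (.nd (nat_lit 4) (.nd (nat_lit 5) 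
(.lf (nat_lit 156679) (.g (nat_lit 3241) (.e (nat_lit 57412) (nat_lit 12) (.e (nat_lit 336219) (nat_lit 13) (.e (nat_lit 393301) (nat_lit 27) (.e (nat_lit 491558) (nat_lit 10) (.e (nat_lit 344095) (nat_lit 18) (.e (nat_lit 7261) (nat_lit 384) .nil)))))) (.g (nat_lit 6) .nil .nil))) 
(.lf (nat_lit 156711) (.g (nat_lit 2970) (.e (nat_lit 57412) (nat_lit 12) (.e (nat_lit 336226) (nat_lit 14) (.e (nat_lit 401437) (nat_lit 9) (.e (nat_lit 426540) (nat_lit 29) (.e (nat_lit 352316) (nat_lit 24) .nil))))) .nil))) (.nd (nat_lit 5) 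
(.lf (nat_lit 156695) (.g (nat_lit 4049) (.e (nat_lit 57412) (nat_lit 12) (.e (nat_lit 336226) (nat_lit 14) (.e (nat_lit 401428) (nat_lit 3) (.e (nat_lit 204869) (nat_lit 29) (.e (nat_lit 360450) (nat_lit 0) (.e (nat_lit 7936) (nat_lit 241) .nil)))))) (.g (nat_lit 5) .nil .nil))) 
(.lf (nat_lit 156727) (.g (nat_lit 2359) (.e (nat_lit 57412) (nat_lit 12) (.e (nat_lit 336226) (nat_lit 14) (.e (nat_lit 401437) (nat_lit 9) (.e (nat_lit 426544) (nat_lit 30) (.e (nat_lit 368384) (nat_lit 0) .nil))))) .nil)))) (.nd (nat_lit 4) (.nd (nat_lit 5) 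
(.lf (nat_lit 156687) (.g (nat_lit 3332) (.e (nat_lit 57412) (nat_lit 12) (.e (nat_lit 336219) (nat_lit 13) (.e (nat_lit 393301) (nat_lit 27) (.e (nat_lit 491560) (nat_lit 10) (.e (nat_lit 344094) (nat_lit 18) (.e (nat_lit 7265) (nat_lit 384) .nil)))))) (.g (nat_lit 0) .nil .nil))) 
(.lf (nat_lit 156719) (.g (nat_lit 4403) (.e (nat_lit 57412) (nat_lit 12) (.e (nat_lit 336226) (nat_lit 14) (.e (nat_lit 401437) (nat_lit 9) (.e (nat_lit 426542) (nat_lit 29) (.e (nat_lit 352318) (nat_lit 24) (.e (nat_lit 123194) (nat_lit 266) .nil)))))) (.g (nat_lit 0) .nil .nil)))) (.nd (nat_lit 5) 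
(.lf (nat_lit 156703) (.g (nat_lit 2023) (.e (nat_lit 57412) (nat_lit 12) (.e (nat_lit 336226) (nat_lit 14) (.e (nat_lit 401436) (nat_lit 9) (.e (nat_lit 426542) (nat_lit 29) (.e (nat_lit 352318) (nat_lit 24) (.e (nat_lit 123196) (nat_lit 266) .nil)))))) (.g (nat_lit 4) .nil .nil))) 
(.lf (nat_lit 156735) (.g (nat_lit 476) (.e (nat_lit 57412) (nat_lit 12) (.e (nat_lit 336226) (nat_lit 14) (.e (nat_lit 401438) (nat_lit 9) .nil))) .nil))))))))

noncomputable def tv2097 : DT := (.nd (nat_lit 0) (.nd (nat_lit 1) (.nd (nat_lit 2) (.nd (nat_lit 3) (.nd (nat_lit 4) (.nd (nat_lit 5) 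
(.lf (nat_lit 156736) (.g (nat_lit 3025) (.e (nat_lit 57412) (nat_lit 12) (.e (nat_lit 336226) (nat_lit 14) (.e (nat_lit 401438) (nat_lit 9) (.e (nat_lit 426542) (nat_lit 29) (.e (nat_lit 352316) (nat_lit 24) (.e (nat_lit 123194) (nat_lit 266) .nil)))))) (.g (nat_lit 5) .nil .nil))) 
(.lf (nat_lit 156768) (.g (nat_lit 2668) (.e (nat_lit 57412) (nat_lit 12) (.e (nat_lit 336226) (nat_lit 14) (.e (nat_lit 401459) (nat_lit 13) (.e (nat_lit 483375) (nat_lit 22) (.e (nat_lit 327692) (nat_lit 1) (.e (nat_lit 8444) (nat_lit 140) .nil)))))) (.g (nat_lit 4) .nil .nil)))) (.nd (nat_lit 5) 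
(.lf (nat_lit 156752) (.g (nat_lit 2239) (.e (nat_lit 57412) (nat_lit 12) (.e (nat_lit 336226) (nat_lit 14) (.e (nat_lit 401458) (nat_lit 13) (.e (nat_lit 483350) (nat_lit 17) (.e (nat_lit 6097) (nat_lit 332) .nil))))) .nil)) 
(.lf (nat_lit 156784) (.g (nat_lit 2791) (.e (nat_lit 57412) (nat_lit 12) (.e (nat_lit 336389) (nat_lit 27) (.e (nat_lit 426011) (nat_lit 0) (.e (nat_lit 7581) (nat_lit 405) (.e (nat_lit 57476) (nat_lit 28) .nil))))) .nil)))) (.nd (nat_lit 4) (.nd (nat_lit 5) 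
(.lf (nat_lit 156744) (.g (nat_lit 1231) (.e (nat_lit 57412) (nat_lit 12) (.e (nat_lit 336226) (nat_lit 14) (.e (nat_lit 401438) (nat_lit 9) (.e (nat_lit 426544) (nat_lit 30) .nil)))) .nil)) 
(.lf (nat_lit 156776) (.g (nat_lit 2176) (.e (nat_lit 57412) (nat_lit 12) (.e (nat_lit 336226) (nat_lit 14) (.e (nat_lit 401459) (nat_lit 13) (.e (nat_lit 483395) (nat_lit 24) (.e (nat_lit 344102) (nat_lit 18) (.e (nat_lit 5944) (nat_lit 322) .nil)))))) (.g (nat_lit 4) .nil .nil)))) (.nd (nat_lit 5) 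
(.lf (nat_lit 156760) (.g (nat_lit 3292) (.e (nat_lit 57412) (nat_lit 12) (.e (nat_lit 336226) (nat_lit 14) (.e (nat_lit 401459) (nat_lit 13) (.e (nat_lit 483350) (nat_lit 17) (.e (nat_lit 6113) (nat_lit 332) (.e (nat_lit 2538) (nat_lit 158) (.e (nat_lit 8446) (nat_lit 140) .nil))))))) (.g (nat_lit 4) .nil .nil))) 
(.lf (nat_lit 156792) (.g (nat_lit 3066) (.e (nat_lit 57412) (nat_lit 12) (.e (nat_lit 336389) (nat_lit 27) (.e (nat_lit 426011) (nat_lit 0) (.e (nat_lit 7581) (nat_lit 405) (.e (nat_lit 57480) (nat_lit 28) (.e (nat_lit 557104) (nat_lit 14) (.e (nat_lit 180226) (nat_lit 0) (.e (nat_lit 5945) (nat_lit 322) .nil)))))))) (.g (nat_lit 4) .nil .nil)))))) 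
(.nd (nat_lit 3) (.nd (nat_lit 4) (.nd (nat_lit 5) 
(.lf (nat_lit 156740) (.g (nat_lit 3451) (.e (nat_lit 57412) (nat_lit 12) (.e (nat_lit 336226) (nat_lit 14) (.e (nat_lit 401438) (nat_lit 9) (.e (nat_lit 426542) (nat_lit 29) (.e (nat_lit 352318) (nat_lit 24) (.e (nat_lit 123194) (nat_lit 266) .nil)))))) (.g (nat_lit 5) .nil .nil))) 
(.lf (nat_lit 156772) (.g (nat_lit 2166) (.e (nat_lit 57412) (nat_lit 12) (.e (nat_lit 336226) (nat_lit 14) (.e (nat_lit 401459) (nat_lit 13) (.e (nat_lit 483393) (nat_lit 23) .nil)))) .nil))) (.nd (nat_lit 5) 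
(.lf (nat_lit 156756) (.g (nat_lit 2069) (.e (nat_lit 57412) (nat_lit 12) (.e (nat_lit 336226) (nat_lit 14) (.e (nat_lit 401458) (nat_lit 13) (.e (nat_lit 483395) (nat_lit 24) (.e (nat_lit 344102) (nat_lit 18) .nil))))) .nil)) 
(.lf (nat_lit 156788) (.g (nat_lit 3159) (.e (nat_lit 57412) (nat_lit 12) (.e (nat_lit 336389) (nat_lit 27) (.e (nat_lit 426011) (nat_lit 0) (.e (nat_lit 7581) (nat_lit 405) (.e (nat_lit 57477) (nat_lit 28) (.e (nat_lit 557104) (nat_lit 14) (.e (nat_lit 180226) (nat_lit 0) (.e (nat_lit 5945) (nat_lit 322) .nil)))))))) (.g (nat_lit 4) .nil .nil))))) (.nd (nat_lit 4) (.nd (nat_lit 5) 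
(.lf (nat_lit 156748) (.g (nat_lit 1493) (.e (nat_lit 57412) (nat_lit 12) (.e (nat_lit 336226) (nat_lit 14) (.e (nat_lit 401457) (nat_lit 13) (.e (nat_lit 483393) (nat_lit 23) .nil)))) .nil)) 
(.lf (nat_lit 156780) (.g (nat_lit 2372) (.e (nat_lit 57412) (nat_lit 12) (.e (nat_lit 336295) (nat_lit 15) (.e (nat_lit 3253) (nat_lit 197) (.e (nat_lit 532560) (nat_lit 14) (.e (nat_lit 376838) (nat_lit 11) .nil))))) .nil))) (.nd (nat_lit 5) 
(.lf (nat_lit 156764) (.g (nat_lit 3758) (.e (nat_lit 57412) (nat_lit 12) (.e (nat_lit 336226) (nat_lit 14) (.e (nat_lit 401459) (nat_lit 13) (.e (nat_lit 483372) (nat_lit 21) (.e (nat_lit 327424) (nat_lit 1) .nil))))) .nil)) 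
(.lf (nat_lit 156796) (.g (nat_lit 4550) (.e (nat_lit 57412) (nat_lit 12) (.e (nat_lit 336389) (nat_lit 27) (.e (nat_lit 426012) (nat_lit 0) (.e (nat_lit 7581) (nat_lit 405) (.e (nat_lit 57479) (nat_lit 28) (.e (nat_lit 557105) (nat_lit 14) (.e (nat_lit 180227) (nat_lit 0) (.e (nat_lit 5945) (nat_lit 322) .nil)))))))) (.g (nat_lit 6) .nil .nil))))))) 
(.nd (nat_lit 2) (.nd (nat_lit 3) (.nd (nat_lit 4) (.nd (nat_lit 5) 
(.lf (nat_lit 156738) (.g (nat_lit 3480) (.e (nat_lit 57412) (nat_lit 12) (.e (nat_lit 336226) (nat_lit 14) (.e (nat_lit 401438) (nat_lit 9) (.e (nat_lit 426542) (nat_lit 29) (.e (nat_lit 352316) (nat_lit 24) (.e (nat_lit 123197) (nat_lit 266) .nil)))))) (.g (nat_lit 5) .nil .nil))) 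
(.lf (nat_lit 156770) (.g (nat_lit 2169) (.e (nat_lit 57412) (nat_lit 12) (.e (nat_lit 336226) (nat_lit 14) (.e (nat_lit 401459) (nat_lit 13) (.e (nat_lit 483386) (nat_lit 23) (.e (nat_lit 336030) (nat_lit 4) (.e (nat_lit 123195) (nat_lit 266) .nil)))))) (.g (nat_lit 4) .nil .nil)))) (.nd (nat_lit 5) 
(.lf (nat_lit 156754) (.g (nat_lit 3141) (.e (nat_lit 57412) (nat_lit 12) (.e (nat_lit 336226) (nat_lit 14) (.e (nat_lit 401458) (nat_lit 13) (.e (nat_lit 483393) (nat_lit 23) (.e (nat_lit 335988) (nat_lit 1) (.e (nat_lit 65280) (nat_lit 266) .nil)))))) (.g (nat_lit 5) .nil .nil))) 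
(.lf (nat_lit 156786) (.g (nat_lit 3777) (.e (nat_lit 57412) (nat_lit 12) (.e (nat_lit 336389) (nat_lit 27) (.e (nat_lit 426011) (nat_lit 0) (.e (nat_lit 7581) (nat_lit 405) (.e (nat_lit 57476) (nat_lit 28) (.e (nat_lit 557104) (nat_lit 14) (.e (nat_lit 180227) (nat_lit 0) (.e (nat_lit 5945) (nat_lit 322) .nil)))))))) (.g (nat_lit 4) .nil .nil))))) (.nd (nat_lit 4) (.nd (nat_lit 5) 
(.lf (nat_lit 156746) (.g (nat_lit 1236) (.e (nat_lit 57412) (nat_lit 12) (.e (nat_lit 336226) (nat_lit 14) (.e (nat_lit 401438) (nat_lit 9) (.e (nat_lit 426546) (nat_lit 30) .nil)))) .nil)) 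
(.lf (nat_lit 156778) (.g (nat_lit 604) (.e (nat_lit 57412) (nat_lit 12) (.e (nat_lit 336295) (nat_lit 15) (.e (nat_lit 3234) (nat_lit 197) .nil))) .nil))) (.nd (nat_lit 5) 
(.lf (nat_lit 156762) (.g (nat_lit 4732) (.e (nat_lit 57412) (nat_lit 12) (.e (nat_lit 336226) (nat_lit 14) (.e (nat_lit 401459) (nat_lit 13) (.e (nat_lit 483372) (nat_lit 21) (.e (nat_lit 319490) (nat_lit 0) (.e (nat_lit 75) (nat_lit 0) (.e (nat_lit 5935) (nat_lit 322) .nil))))))) (.g (nat_lit 4) .nil .nil))) 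
(.lf (nat_lit 156794) (.g (nat_lit 2365) (.e (nat_lit 57412) (nat_lit 12) (.e (nat_lit 336389) (nat_lit 27) (.e (nat_lit 426012) (nat_lit 0) (.e (nat_lit 7581) (nat_lit 405) (.e (nat_lit 57476) (nat_lit 28) (.e (nat_lit 557104) (nat_lit 14) (.e (nat_lit 180226) (nat_lit 0) (.e (nat_lit 5945) (nat_lit 322) .nil)))))))) (.g (nat_lit 4) .nil .nil)))))) 
(.nd (nat_lit 3) (.nd (nat_lit 4) (.nd (nat_lit 5) 
(.lf (nat_lit 156742) (.g (nat_lit 3338) (.e (nat_lit 57412) (nat_lit 12) (.e (nat_lit 336226) (nat_lit 14) (.e (nat_lit 401438) (nat_lit 9) (.e (nat_lit 426542) (nat_lit 29) (.e (nat_lit 352318) (nat_lit 24) (.e (nat_lit 123197) (nat_lit 266) .nil)))))) (.g (nat_lit 5) .nil .nil))) 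
(.lf (nat_lit 156774) (.g (nat_lit 1377) (.e (nat_lit 57412) (nat_lit 12) (.e (nat_lit 336226) (nat_lit 14) (.e (nat_lit 401459) (nat_lit 13) (.e (nat_lit 483394) (nat_lit 24) .nil)))) .nil))) (.nd (nat_lit 5) 
(.lf (nat_lit 156758) (.g (nat_lit 432) (.e (nat_lit 57412) (nat_lit 12) (.e (nat_lit 336226) (nat_lit 14) (.e (nat_lit 401459) (nat_lit 13) .nil))) .nil)) 
(.lf (nat_lit 156790) (.g (nat_lit 4818) (.e (nat_lit 57412) (nat_lit 12) (.e (nat_lit 336389) (nat_lit 27) (.e (nat_lit 426011) (nat_lit 0) (.e (nat_lit 7581) (nat_lit 405) (.e (nat_lit 57479) (nat_lit 28) (.e (nat_lit 557105) (nat_lit 14) (.e (nat_lit 180227) (nat_lit 0) (.e (nat_lit 5945) (nat_lit 322) .nil)))))))) (.g (nat_lit 6) .nil .nil))))) (.nd (nat_lit 4) (.nd (nat_lit 5) 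
(.lf (nat_lit 156750) (.g (nat_lit 3063) (.e (nat_lit 57412) (nat_lit 12) (.e (nat_lit 336226) (nat_lit 14) (.e (nat_lit 401457) (nat_lit 13) (.e (nat_lit 483393) (nat_lit 23) (.e (nat_lit 335988) (nat_lit 1) (.e (nat_lit 65280) (nat_lit 266) .nil)))))) (.g (nat_lit 5) .nil .nil))) 
(.lf (nat_lit 156782) (.g (nat_lit 2463) (.e (nat_lit 57412) (nat_lit 12) (.e (nat_lit 336295) (nat_lit 15) (.e (nat_lit 3632) (nat_lit 227) (.e (nat_lit 778323) (nat_lit 5) (.e (nat_lit 81664) (nat_lit 37) .nil))))) .nil))) (.nd (nat_lit 5) 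
(.lf (nat_lit 156766) (.g (nat_lit 2623) (.e (nat_lit 57412) (nat_lit 12) (.e (nat_lit 336226) (nat_lit 14) (.e (nat_lit 401459) (nat_lit 13) (.e (nat_lit 483375) (nat_lit 22) (.e (nat_lit 327692) (nat_lit 1) .nil))))) .nil)) 
(.lf (nat_lit 156798) (.g (nat_lit 3718) (.e (nat_lit 57412) (nat_lit 12) (.e (nat_lit 336389) (nat_lit 27) (.e (nat_lit 426012) (nat_lit 0) (.e (nat_lit 7581) (nat_lit 405) (.e (nat_lit 57480) (nat_lit 28) (.e (nat_lit 557105) (nat_lit 14) (.e (nat_lit 180226) (nat_lit 0) (.e (nat_lit 5945) (nat_lit 322) .nil)))))))) (.g (nat_lit 6) .nil .nil)))))))) 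
(.nd (nat_lit 1) (.nd (nat_lit 2) (.nd (nat_lit 3) (.nd (nat_lit 4) (.nd (nat_lit 5) 
(.lf (nat_lit 156737) (.g (nat_lit 2409) (.e (nat_lit 57412) (nat_lit 12) (.e (nat_lit 336226) (nat_lit 14) (.e (nat_lit 401438) (nat_lit 9) (.e (nat_lit 426542) (nat_lit 29) (.e (nat_lit 352316) (nat_lit 24) (.e (nat_lit 123196) (nat_lit 266) .nil)))))) (.g (nat_lit 4) .nil .nil))) 
(.lf (nat_lit 156769) (.g (nat_lit 2143) (.e (nat_lit 57412) (nat_lit 12) (.e (nat_lit 336226) (nat_lit 14) (.e (nat_lit 401459) (nat_lit 13) (.e (nat_lit 483386) (nat_lit 23) (.e (nat_lit 336030) (nat_lit 4) .nil))))) .nil))) (.nd (nat_lit 5) 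
(.lf (nat_lit 156753) (.g (nat_lit 1254) (.e (nat_lit 57412) (nat_lit 12) (.e (nat_lit 336226) (nat_lit 14) (.e (nat_lit 401458) (nat_lit 13) (.e (nat_lit 483393) (nat_lit 23) .nil)))) .nil)) 
(.lf (nat_lit 156785) (.g (nat_lit 3271) (.e (nat_lit 57412) (nat_lit 12) (.e (nat_lit 336389) (nat_lit 27) (.e (nat_lit 426011) (nat_lit 0) (.e (nat_lit 7581) (nat_lit 405) (.e (nat_lit 57476) (nat_lit 28) (.e (nat_lit 557103) (nat_lit 14) (.e (nat_lit 180225) (nat_lit 0) (.e (nat_lit 5945) (nat_lit 322) .nil)))))))) (.g (nat_lit 4) .nil .nil))))) (.nd (nat_lit 4) (.nd (nat_lit 5) 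
(.lf (nat_lit 156745) (.g (nat_lit 1670) (.e (nat_lit 57412) (nat_lit 12) (.e (nat_lit 336226) (nat_lit 14) (.e (nat_lit 401438) (nat_lit 9) (.e (nat_lit 426544) (nat_lit 30) (.e (nat_lit 360457) (nat_lit 0) .nil))))) .nil)) 
(.lf (nat_lit 156777) (.g (nat_lit 1609) (.e (nat_lit 57412) (nat_lit 12) (.e (nat_lit 336226) (nat_lit 14) (.e (nat_lit 401459) (nat_lit 13) (.e (nat_lit 483398) (nat_lit 25) .nil)))) .nil))) (.nd (nat_lit 5) 
(.lf (nat_lit 156761) (.g (nat_lit 4614) (.e (nat_lit 57412) (nat_lit 12) (.e (nat_lit 336226) (nat_lit 14) (.e (nat_lit 401459) (nat_lit 13) (.e (nat_lit 483372) (nat_lit 21) (.e (nat_lit 319490) (nat_lit 0) .nil))))) .nil)) 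
(.lf (nat_lit 156793) (.g (nat_lit 4099) (.e (nat_lit 57412) (nat_lit 12) (.e (nat_lit 336389) (nat_lit 27) (.e (nat_lit 426011) (nat_lit 0) (.e (nat_lit 7581) (nat_lit 405) (.e (nat_lit 57480) (nat_lit 28) (.e (nat_lit 557105) (nat_lit 14) (.e (nat_lit 180226) (nat_lit 0) (.e (nat_lit 5945) (nat_lit 322) .nil)))))))) (.g (nat_lit 6) .nil .nil)))))) 
(.nd (nat_lit 3) (.nd (nat_lit 4) (.nd (nat_lit 5) 
(.lf (nat_lit 156741) (.g (nat_lit 3034) (.e (nat_lit 57412) (nat_lit 12) (.e (nat_lit 336226) (nat_lit 14) (.e (nat_lit 401438) (nat_lit 9) (.e (nat_lit 426542) (nat_lit 29) (.e (nat_lit 352318) (nat_lit 24) (.e (nat_lit 123196) (nat_lit 266) .nil)))))) (.g (nat_lit 4) .nil .nil))) 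
(.lf (nat_lit 156773) (.g (nat_lit 3046) (.e (nat_lit 57412) (nat_lit 12) (.e (nat_lit 336226) (nat_lit 14) (.e (nat_lit 401459) (nat_lit 13) (.e (nat_lit 483393) (nat_lit 23) (.e (nat_lit 335988) (nat_lit 1) (.e (nat_lit 65280) (nat_lit 266) .nil)))))) (.g (nat_lit 4) .nil .nil)))) (.nd (nat_lit 5) 
(.lf (nat_lit 156757) (.g (nat_lit 1254) (.e (nat_lit 57412) (nat_lit 12) (.e (nat_lit 336226) (nat_lit 14) (.e (nat_lit 401458) (nat_lit 13) (.e (nat_lit 483396) (nat_lit 24) .nil)))) .nil)) 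
(.lf (nat_lit 156789) (.g (nat_lit 2774) (.e (nat_lit 57412) (nat_lit 12) (.e (nat_lit 336389) (nat_lit 27) (.e (nat_lit 426011) (nat_lit 0) (.e (nat_lit 7581) (nat_lit 405) (.e (nat_lit 57479) (nat_lit 28) (.e (nat_lit 557105) (nat_lit 14) (.e (nat_lit 180226) (nat_lit 0) (.e (nat_lit 5945) (nat_lit 322) .nil)))))))) (.g (nat_lit 4) .nil .nil))))) (.nd (nat_lit 4) (.nd (nat_lit 5) 
(.lf (nat_lit 156749) (.g (nat_lit 2167) (.e (nat_lit 57412) (nat_lit 12) (.e (nat_lit 336226) (nat_lit 14) (.e (nat_lit 401457) (nat_lit 13) (.e (nat_lit 483393) (nat_lit 23) (.e (nat_lit 335987) (nat_lit 1) .nil))))) .nil)) 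
(.lf (nat_lit 156781) (.g (nat_lit 579) (.e (nat_lit 57412) (nat_lit 12) (.e (nat_lit 336295) (nat_lit 15) (.e (nat_lit 3632) (nat_lit 227) .nil))) .nil))) (.nd (nat_lit 5) 
(.lf (nat_lit 156765) (.g (nat_lit 1688) (.e (nat_lit 57412) (nat_lit 12) (.e (nat_lit 336226) (nat_lit 14) (.e (nat_lit 401459) (nat_lit 13) (.e (nat_lit 483374) (nat_lit 22) .nil)))) .nil)) 
(.lf (nat_lit 156797) (.g (nat_lit 4075) (.e (nat_lit 57412) (nat_lit 12) (.e (nat_lit 336389) (nat_lit 27) (.e (nat_lit 426012) (nat_lit 0) (.e (nat_lit 7581) (nat_lit 405) (.e (nat_lit 57480) (nat_lit 28) (.e (nat_lit 557103) (nat_lit 14) (.e (nat_lit 180225) (nat_lit 0) (.e (nat_lit 5945) (nat_lit 322) .nil)))))))) (.g (nat_lit 6) .nil .nil))))))) 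
(.nd (nat_lit 2) (.nd (nat_lit 3) (.nd (nat_lit 4) (.nd (nat_lit 5) 
(.lf (nat_lit 156739) (.g (nat_lit 3190) (.e (nat_lit 57412) (nat_lit 12) (.e (nat_lit 336226) (nat_lit 14) (.e (nat_lit 401438) (nat_lit 9) (.e (nat_lit 426542) (nat_lit 29) (.e (nat_lit 352316) (nat_lit 24) (.e (nat_lit 123198) (nat_lit 266) .nil)))))) (.g (nat_lit 5) .nil .nil))) 
(.lf (nat_lit 156771) (.g (nat_lit 2428) (.e (nat_lit 57412) (nat_lit 12) (.e (nat_lit 336226) (nat_lit 14) (.e (nat_lit 401459) (nat_lit 13) (.e (nat_lit 483386) (nat_lit 23) (.e (nat_lit 336030) (nat_lit 4) (.e (nat_lit 123197) (nat_lit 266) .nil)))))) (.g (nat_lit 4) .nil .nil)))) (.nd (nat_lit 5) 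
(.lf (nat_lit 156755) (.g (nat_lit 1869) (.e (nat_lit 57412) (nat_lit 12) (.e (nat_lit 336226) (nat_lit 14) (.e (nat_lit 401458) (nat_lit 13) (.e (nat_lit 483394) (nat_lit 24) (.e (nat_lit 344104) (nat_lit 18) .nil))))) .nil)) 
(.lf (nat_lit 156787) (.g (nat_lit 3950) (.e (nat_lit 57412) (nat_lit 12) (.e (nat_lit 336389) (nat_lit 27) (.e (nat_lit 426011) (nat_lit 0) (.e (nat_lit 7581) (nat_lit 405) (.e (nat_lit 57477) (nat_lit 28) (.e (nat_lit 557103) (nat_lit 14) (.e (nat_lit 180225) (nat_lit 0) (.e (nat_lit 5945) (nat_lit 322) .nil)))))))) (.g (nat_lit 6) .nil .nil))))) (.nd (nat_lit 4) (.nd (nat_lit 5) 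
(.lf (nat_lit 156747) (.g (nat_lit 1469) (.e (nat_lit 57412) (nat_lit 12) (.e (nat_lit 336226) (nat_lit 14) (.e (nat_lit 401444) (nat_lit 9) (.e (nat_lit 426541) (nat_lit 29) .nil)))) .nil)) 
(.lf (nat_lit 156779) (.g (nat_lit 2115) (.e (nat_lit 57412) (nat_lit 12) (.e (nat_lit 336295) (nat_lit 15) (.e (nat_lit 3253) (nat_lit 197) (.e (nat_lit 532534) (nat_lit 9) (.e (nat_lit 336211) (nat_lit 13) .nil))))) .nil))) (.nd (nat_lit 5) 
(.lf (nat_lit 156763) (.g (nat_lit 5023) (.e (nat_lit 57412) (nat_lit 12) (.e (nat_lit 336226) (nat_lit 14) (.e (nat_lit 401459) (nat_lit 13) (.e (nat_lit 483372) (nat_lit 21) (.e (nat_lit 319490) (nat_lit 0) (.e (nat_lit 75) (nat_lit 0) (.e (nat_lit 5953) (nat_lit 322) .nil))))))) (.g (nat_lit 4) .nil .nil))) 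
(.lf (nat_lit 156795) (.g (nat_lit 3650) (.e (nat_lit 57412) (nat_lit 12) (.e (nat_lit 336389) (nat_lit 27) (.e (nat_lit 426012) (nat_lit 0) (.e (nat_lit 7581) (nat_lit 405) (.e (nat_lit 57477) (nat_lit 28) (.e (nat_lit 557103) (nat_lit 14) (.e (nat_lit 180225) (nat_lit 0) (.e (nat_lit 5945) (nat_lit 322) .nil)))))))) (.g (nat_lit 6) .nil .nil)))))) 
(.nd (nat_lit 3) (.nd (nat_lit 4) (.nd (nat_lit 5) 
(.lf (nat_lit 156743) (.g (nat_lit 2805) (.e (nat_lit 57412) (nat_lit 12) (.e (nat_lit 336226) (nat_lit 14) (.e (nat_lit 401438) (nat_lit 9) (.e (nat_lit 426542) (nat_lit 29) (.e (nat_lit 352318) (nat_lit 24) (.e (nat_lit 123198) (nat_lit 266) .nil)))))) (.g (nat_lit 4) .nil .nil))) 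
(.lf (nat_lit 156775) (.g (nat_lit 2288) (.e (nat_lit 57412) (nat_lit 12) (.e (nat_lit 336226) (nat_lit 14) (.e (nat_lit 401459) (nat_lit 13) (.e (nat_lit 483394) (nat_lit 24) (.e (nat_lit 344104) (nat_lit 18) .nil))))) .nil))) (.nd (nat_lit 5) 
(.lf (nat_lit 156759) (.g (nat_lit 2794) (.e (nat_lit 57412) (nat_lit 12) (.e (nat_lit 336226) (nat_lit 14) (.e (nat_lit 401459) (nat_lit 13) (.e (nat_lit 483350) (nat_lit 17) (.e (nat_lit 6097) (nat_lit 332) .nil))))) .nil)) 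
(.lf (nat_lit 156791) (.g (nat_lit 4415) (.e (nat_lit 57412) (nat_lit 12) (.e (nat_lit 336389) (nat_lit 27) (.e (nat_lit 426011) (nat_lit 0) (.e (nat_lit 7581) (nat_lit 405) (.e (nat_lit 57480) (nat_lit 28) (.e (nat_lit 557103) (nat_lit 14) (.e (nat_lit 180225) (nat_lit 0) (.e (nat_lit 5945) (nat_lit 322) .nil)))))))) (.g (nat_lit 6) .nil .nil))))) (.nd (nat_lit 4) (.nd (nat_lit 5) 
(.lf (nat_lit 156751) (.g (nat_lit 430) (.e (nat_lit 57412) (nat_lit 12) (.e (nat_lit 336226) (nat_lit 14) (.e (nat_lit 401458) (nat_lit 13) .nil))) .nil)) 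
(.lf (nat_lit 156783) (.g (nat_lit 1441) (.e (nat_lit 57412) (nat_lit 12) (.e (nat_lit 336389) (nat_lit 27) (.e (nat_lit 426011) (nat_lit 0) (.e (nat_lit 7581) (nat_lit 405) .nil)))) .nil))) (.nd (nat_lit 5) 
(.lf (nat_lit 156767) (.g (nat_lit 2715) (.e (nat_lit 57412) (nat_lit 12) (.e (nat_lit 336226) (nat_lit 14) (.e (nat_lit 401459) (nat_lit 13) (.e (nat_lit 483375) (nat_lit 22) (.e (nat_lit 327692) (nat_lit 1) (.e (nat_lit 8443) (nat_lit 140) .nil)))))) (.g (nat_lit 4) .nil .nil))) 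
(.lf (nat_lit 156799) (.g (nat_lit 2001) (.e (nat_lit 57412) (nat_lit 12) (.e (nat_lit 336389) (nat_lit 27) (.e (nat_lit 426497) (nat_lit 27) (.e (nat_lit 336076) (nat_lit 9) (.e (nat_lit 336324) (nat_lit 18) .nil))))) .nil))))))))

noncomputable def tv2098 : DT := (.nd (nat_lit 0) (.nd (nat_lit 1) (.nd (nat_lit 2) (.nd (nat_lit 3) (.nd (nat_lit 4) (.nd (nat_lit 5) 
(.lf (nat_lit 156800) (.g (nat_lit 540) (.e (nat_lit 57412) (nat_lit 12) (.e (nat_lit 336389) (nat_lit 27) (.e (nat_lit 426500) (nat_lit 27) .nil))) .nil)) 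
(.lf (nat_lit 156832) (.g (nat_lit 4283) (.e (nat_lit 57413) (nat_lit 12) (.e (nat_lit 336013) (nat_lit 2) (.e (nat_lit 90170) (nat_lit 13) (.e (nat_lit 172106) (nat_lit 10) (.e (nat_lit 434244) (nat_lit 28) (.e (nat_lit 573474) (nat_lit 12) (.e (nat_lit 57347) (nat_lit 0) (.e (nat_lit 7266) (nat_lit 384) .nil)))))))) (.g (nat_lit 6) .nil .nil)))) (.nd (nat_lit 5) 
(.lf (nat_lit 156816) (.g (nat_lit 1390) (.e (nat_lit 57412) (nat_lit 12) (.e (nat_lit 336412) (nat_lit 27) (.e (nat_lit 426011) (nat_lit 0) (.e (nat_lit 7581) (nat_lit 405) .nil)))) .nil)) 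
(.lf (nat_lit 156848) (.g (nat_lit 1248) (.e (nat_lit 57413) (nat_lit 12) (.e (nat_lit 336028) (nat_lit 3) (.e (nat_lit 98359) (nat_lit 26) (.e (nat_lit 426171) (nat_lit 7) .nil)))) .nil)))) (.nd (nat_lit 4) (.nd (nat_lit 5) 
(.lf (nat_lit 156808) (.g (nat_lit 3484) (.e (nat_lit 57412) (nat_lit 12) (.e (nat_lit 336389) (nat_lit 27) (.e (nat_lit 426500) (nat_lit 27) (.e (nat_lit 336204) (nat_lit 12) (.e (nat_lit 385066) (nat_lit 26) (.e (nat_lit 532504) (nat_lit 1) (.e (nat_lit 57852) (nat_lit 252) .nil))))))) (.g (nat_lit 6) .nil .nil))) 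
(.lf (nat_lit 156840) (.g (nat_lit 3919) (.e (nat_lit 57413) (nat_lit 12) (.e (nat_lit 336013) (nat_lit 2) (.e (nat_lit 90170) (nat_lit 13) (.e (nat_lit 172113) (nat_lit 10) (.e (nat_lit 434245) (nat_lit 28) (.e (nat_lit 573473) (nat_lit 12) (.e (nat_lit 57353) (nat_lit 0) (.e (nat_lit 7265) (nat_lit 384) .nil)))))))) (.g (nat_lit 5) .nil .nil)))) (.nd (nat_lit 5) 
(.lf (nat_lit 156824) (.g (nat_lit 3790) (.e (nat_lit 57413) (nat_lit 12) (.e (nat_lit 336013) (nat_lit 2) (.e (nat_lit 90170) (nat_lit 13) (.e (nat_lit 172106) (nat_lit 10) (.e (nat_lit 434231) (nat_lit 23) (.e (nat_lit 532481) (nat_lit 0) (.e (nat_lit 996) (nat_lit 81) (.e (nat_lit 4529) (nat_lit 265) .nil)))))))) (.g (nat_lit 5) .nil .nil))) 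
(.lf (nat_lit 156856) (.g (nat_lit 2753) (.e (nat_lit 57413) (nat_lit 12) (.e (nat_lit 336028) (nat_lit 3) (.e (nat_lit 98359) (nat_lit 26) (.e (nat_lit 426286) (nat_lit 10) (.e (nat_lit 434248) (nat_lit 28) (.e (nat_lit 573473) (nat_lit 12) (.e (nat_lit 57348) (nat_lit 0) (.e (nat_lit 7265) (nat_lit 384) .nil)))))))) (.g (nat_lit 5) .nil .nil)))))) 
(.nd (nat_lit 3) (.nd (nat_lit 4) (.nd (nat_lit 5) 
(.lf (nat_lit 156804) (.g (nat_lit 3462) (.e (nat_lit 57412) (nat_lit 12) (.e (nat_lit 336389) (nat_lit 27) (.e (nat_lit 426500) (nat_lit 27) (.e (nat_lit 336194) (nat_lit 12) (.e (nat_lit 385066) (nat_lit 26) (.e (nat_lit 532501) (nat_lit 1) (.e (nat_lit 57852) (nat_lit 252) .nil))))))) (.g (nat_lit 6) .nil .nil))) 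
(.lf (nat_lit 156836) (.g (nat_lit 3050) (.e (nat_lit 57413) (nat_lit 12) (.e (nat_lit 336013) (nat_lit 2) (.e (nat_lit 90170) (nat_lit 13) (.e (nat_lit 172113) (nat_lit 10) (.e (nat_lit 434242) (nat_lit 28) (.e (nat_lit 573474) (nat_lit 12) (.e (nat_lit 57347) (nat_lit 0) (.e (nat_lit 7263) (nat_lit 384) .nil)))))))) (.g (nat_lit 4) .nil .nil)))) (.nd (nat_lit 5) 
(.lf (nat_lit 156820) (.g (nat_lit 468) (.e (nat_lit 57413) (nat_lit 12) (.e (nat_lit 336013) (nat_lit 2) (.e (nat_lit 90170) (nat_lit 13) .nil))) .nil)) 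
(.lf (nat_lit 156852) (.g (nat_lit 4349) (.e (nat_lit 57413) (nat_lit 12) (.e (nat_lit 336028) (nat_lit 3) (.e (nat_lit 98359) (nat_lit 26) (.e (nat_lit 426286) (nat_lit 10) (.e (nat_lit 434245) (nat_lit 28) (.e (nat_lit 573474) (nat_lit 12) (.e (nat_lit 57348) (nat_lit 0) (.e (nat_lit 7261) (nat_lit 384) .nil)))))))) (.g (nat_lit 7) .nil .nil))))) (.nd (nat_lit 4) (.nd (nat_lit 5) 
(.lf (nat_lit 156812) (.g (nat_lit 2508) (.e (nat_lit 57412) (nat_lit 12) (.e (nat_lit 336389) (nat_lit 27) (.e (nat_lit 426521) (nat_lit 27) (.e (nat_lit 336088) (nat_lit 9) (.e (nat_lit 336019) (nat_lit 3) (.e (nat_lit 98333) (nat_lit 18) (.e (nat_lit 164179) (nat_lit 154) .nil))))))) (.g (nat_lit 4) .nil .nil))) 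
(.lf (nat_lit 156844) (.g (nat_lit 4026) (.e (nat_lit 57413) (nat_lit 12) (.e (nat_lit 336013) (nat_lit 2) (.e (nat_lit 90170) (nat_lit 13) (.e (nat_lit 172113) (nat_lit 10) (.e (nat_lit 434247) (nat_lit 28) (.e (nat_lit 573477) (nat_lit 12) (.e (nat_lit 57353) (nat_lit 0) (.e (nat_lit 7265) (nat_lit 384) .nil)))))))) (.g (nat_lit 5) .nil .nil)))) (.nd (nat_lit 5) 
(.lf (nat_lit 156828) (.g (nat_lit 2470) (.e (nat_lit 57413) (nat_lit 12) (.e (nat_lit 336013) (nat_lit 2) (.e (nat_lit 90170) (nat_lit 13) (.e (nat_lit 172106) (nat_lit 10) (.e (nat_lit 434231) (nat_lit 23) (.e (nat_lit 532490) (nat_lit 0) (.e (nat_lit 7936) (nat_lit 81) (.e (nat_lit 4528) (nat_lit 265) .nil)))))))) (.g (nat_lit 5) .nil .nil))) 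
(.lf (nat_lit 156860) (.g (nat_lit 2258) (.e (nat_lit 57413) (nat_lit 12) (.e (nat_lit 336028) (nat_lit 3) (.e (nat_lit 98372) (nat_lit 29) (.e (nat_lit 450579) (nat_lit 5) (.e (nat_lit 532503) (nat_lit 1) .nil))))) .nil)))))) (.nd (nat_lit 2) (.nd (nat_lit 3) (.nd (nat_lit 4) (.nd (nat_lit 5) 
(.lf (nat_lit 156802) (.g (nat_lit 2524) (.e (nat_lit 57412) (nat_lit 12) (.e (nat_lit 336389) (nat_lit 27) (.e (nat_lit 426500) (nat_lit 27) (.e (nat_lit 336088) (nat_lit 9) (.e (nat_lit 336019) (nat_lit 3) (.e (nat_lit 98333) (nat_lit 18) (.e (nat_lit 164179) (nat_lit 154) .nil))))))) (.g (nat_lit 4) .nil .nil))) 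
(.lf (nat_lit 156834) (.g (nat_lit 2890) (.e (nat_lit 57413) (nat_lit 12) (.e (nat_lit 336013) (nat_lit 2) (.e (nat_lit 90170) (nat_lit 13) (.e (nat_lit 172113) (nat_lit 10) (.e (nat_lit 434242) (nat_lit 28) .nil))))) .nil))) (.nd (nat_lit 5) 
(.lf (nat_lit 156818) (.g (nat_lit 2750) (.e (nat_lit 57412) (nat_lit 12) (.e (nat_lit 336412) (nat_lit 27) (.e (nat_lit 426500) (nat_lit 27) (.e (nat_lit 336194) (nat_lit 12) (.e (nat_lit 385066) (nat_lit 26) (.e (nat_lit 532501) (nat_lit 1) (.e (nat_lit 57852) (nat_lit 252) .nil))))))) (.g (nat_lit 5) .nil .nil))) 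
(.lf (nat_lit 156850) (.g (nat_lit 2625) (.e (nat_lit 57413) (nat_lit 12) (.e (nat_lit 336028) (nat_lit 3) (.e (nat_lit 98359) (nat_lit 26) (.e (nat_lit 426286) (nat_lit 10) (.e (nat_lit 434245) (nat_lit 28) (.e (nat_lit 573473) (nat_lit 12) (.e (nat_lit 57348) (nat_lit 0) (.e (nat_lit 7265) (nat_lit 384) .nil)))))))) (.g (nat_lit 5) .nil .nil))))) (.nd (nat_lit 4) (.nd (nat_lit 5) 
(.lf (nat_lit 156810) (.g (nat_lit 2167) (.e (nat_lit 57412) (nat_lit 12) (.e (nat_lit 336389) (nat_lit 27) (.e (nat_lit 426521) (nat_lit 27) (.e (nat_lit 336076) (nat_lit 9) (.e (nat_lit 336324) (nat_lit 18) (.e (nat_lit 204830) (nat_lit 18) (.e (nat_lit 57852) (nat_lit 252) .nil))))))) (.g (nat_lit 4) .nil .nil))) 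
(.lf (nat_lit 156842) (.g (nat_lit 3111) (.e (nat_lit 57413) (nat_lit 12) (.e (nat_lit 336013) (nat_lit 2) (.e (nat_lit 90170) (nat_lit 13) (.e (nat_lit 172113) (nat_lit 10) (.e (nat_lit 434247) (nat_lit 28) .nil))))) .nil))) (.nd (nat_lit 5) 
(.lf (nat_lit 156826) (.g (nat_lit 3353) (.e (nat_lit 57413) (nat_lit 12) (.e (nat_lit 336013) (nat_lit 2) (.e (nat_lit 90170) (nat_lit 13) (.e (nat_lit 172106) (nat_lit 10) (.e (nat_lit 434231) (nat_lit 23) (.e (nat_lit 532483) (nat_lit 0) (.e (nat_lit 982) (nat_lit 81) (.e (nat_lit 4528) (nat_lit 265) .nil)))))))) (.g (nat_lit 5) .nil .nil))) 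
(.lf (nat_lit 156858) (.g (nat_lit 2238) (.e (nat_lit 57413) (nat_lit 12) (.e (nat_lit 336028) (nat_lit 3) (.e (nat_lit 98372) (nat_lit 29) (.e (nat_lit 450579) (nat_lit 5) (.e (nat_lit 532499) (nat_lit 1) .nil))))) .nil))))) (.nd (nat_lit 3) (.nd (nat_lit 4) (.nd (nat_lit 5) 
(.lf (nat_lit 156806) (.g (nat_lit 2108) (.e (nat_lit 57412) (nat_lit 12) (.e (nat_lit 336389) (nat_lit 27) (.e (nat_lit 426500) (nat_lit 27) (.e (nat_lit 336204) (nat_lit 12) (.e (nat_lit 385064) (nat_lit 26) .nil))))) .nil)) 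
(.lf (nat_lit 156838) (.g (nat_lit 3034) (.e (nat_lit 57413) (nat_lit 12) (.e (nat_lit 336013) (nat_lit 2) (.e (nat_lit 90170) (nat_lit 13) (.e (nat_lit 172113) (nat_lit 10) (.e (nat_lit 434245) (nat_lit 28) .nil))))) .nil))) (.nd (nat_lit 5) 
(.lf (nat_lit 156822) (.g (nat_lit 3133) (.e (nat_lit 57413) (nat_lit 12) (.e (nat_lit 336013) (nat_lit 2) (.e (nat_lit 90170) (nat_lit 13) (.e (nat_lit 172082) (nat_lit 7) .nil)))) .nil)) 
(.lf (nat_lit 156854) (.g (nat_lit 2034) (.e (nat_lit 57413) (nat_lit 12) (.e (nat_lit 336028) (nat_lit 3) (.e (nat_lit 98359) (nat_lit 26) (.e (nat_lit 426286) (nat_lit 10) (.e (nat_lit 434247) (nat_lit 28) (.e (nat_lit 573478) (nat_lit 12) (.e (nat_lit 57351) (nat_lit 0) (.e (nat_lit 7266) (nat_lit 384) .nil)))))))) (.g (nat_lit 4) .nil .nil))))) (.nd (nat_lit 4) (.nd (nat_lit 5) 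
(.lf (nat_lit 156814) (.g (nat_lit 2292) (.e (nat_lit 57412) (nat_lit 12) (.e (nat_lit 336389) (nat_lit 27) (.e (nat_lit 426523) (nat_lit 27) (.e (nat_lit 336088) (nat_lit 9) (.e (nat_lit 336019) (nat_lit 3) (.e (nat_lit 98334) (nat_lit 18) (.e (nat_lit 164176) (nat_lit 154) .nil))))))) (.g (nat_lit 4) .nil .nil))) 
(.lf (nat_lit 156846) (.g (nat_lit 4569) (.e (nat_lit 57413) (nat_lit 12) (.e (nat_lit 336013) (nat_lit 2) (.e (nat_lit 90170) (nat_lit 13) (.e (nat_lit 172113) (nat_lit 10) (.e (nat_lit 434248) (nat_lit 28) (.e (nat_lit 573473) (nat_lit 12) (.e (nat_lit 57347) (nat_lit 0) (.e (nat_lit 7261) (nat_lit 384) .nil)))))))) (.g (nat_lit 6) .nil .nil)))) (.nd (nat_lit 5) 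
(.lf (nat_lit 156830) (.g (nat_lit 3079) (.e (nat_lit 57413) (nat_lit 12) (.e (nat_lit 336013) (nat_lit 2) (.e (nat_lit 90170) (nat_lit 13) (.e (nat_lit 172106) (nat_lit 10) (.e (nat_lit 434244) (nat_lit 28) (.e (nat_lit 573468) (nat_lit 10) (.e (nat_lit 8192) (nat_lit 0) (.e (nat_lit 4523) (nat_lit 265) .nil)))))))) (.g (nat_lit 6) .nil .nil))) 
(.lf (nat_lit 156862) (.g (nat_lit 2755) (.e (nat_lit 57413) (nat_lit 12) (.e (nat_lit 336028) (nat_lit 3) (.e (nat_lit 98372) (nat_lit 29) (.e (nat_lit 450586) (nat_lit 10) (.e (nat_lit 573473) (nat_lit 12) (.e (nat_lit 57347) (nat_lit 0) (.e (nat_lit 7261) (nat_lit 384) .nil))))))) (.g (nat_lit 5) .nil .nil)))))))) 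
(.nd (nat_lit 1) (.nd (nat_lit 2) (.nd (nat_lit 3) (.nd (nat_lit 4) (.nd (nat_lit 5) 
(.lf (nat_lit 156801) (.g (nat_lit 3293) (.e (nat_lit 57412) (nat_lit 12) (.e (nat_lit 336389) (nat_lit 27) (.e (nat_lit 426500) (nat_lit 27) (.e (nat_lit 336076) (nat_lit 9) (.e (nat_lit 336324) (nat_lit 18) (.e (nat_lit 204830) (nat_lit 18) (.e (nat_lit 57852) (nat_lit 252) .nil))))))) (.g (nat_lit 6) .nil .nil))) 
(.lf (nat_lit 156833) (.g (nat_lit 2244) (.e (nat_lit 57413) (nat_lit 12) (.e (nat_lit 336013) (nat_lit 2) (.e (nat_lit 90170) (nat_lit 13) (.e (nat_lit 172113) (nat_lit 10) .nil)))) .nil))) (.nd (nat_lit 5) 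
(.lf (nat_lit 156817) (.g (nat_lit 2481) (.e (nat_lit 57412) (nat_lit 12) (.e (nat_lit 336412) (nat_lit 27) (.e (nat_lit 426011) (nat_lit 0) (.e (nat_lit 7581) (nat_lit 405) (.e (nat_lit 57480) (nat_lit 28) (.e (nat_lit 557105) (nat_lit 14) (.e (nat_lit 180227) (nat_lit 0) (.e (nat_lit 5945) (nat_lit 322) .nil)))))))) (.g (nat_lit 4) .nil .nil))) 
(.lf (nat_lit 156849) (.g (nat_lit 1920) (.e (nat_lit 57413) (nat_lit 12) (.e (nat_lit 336028) (nat_lit 3) (.e (nat_lit 98359) (nat_lit 26) (.e (nat_lit 426286) (nat_lit 10) (.e (nat_lit 434245) (nat_lit 28) (.e (nat_lit 573473) (nat_lit 12) (.e (nat_lit 57347) (nat_lit 0) (.e (nat_lit 7265) (nat_lit 384) .nil)))))))) (.g (nat_lit 4) .nil .nil))))) (.nd (nat_lit 4) (.nd (nat_lit 5) 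
(.lf (nat_lit 156809) (.g (nat_lit 592) (.e (nat_lit 57412) (nat_lit 12) (.e (nat_lit 336389) (nat_lit 27) (.e (nat_lit 426521) (nat_lit 27) .nil))) .nil)) 
(.lf (nat_lit 156841) (.g (nat_lit 3241) (.e (nat_lit 57413) (nat_lit 12) (.e (nat_lit 336013) (nat_lit 2) (.e (nat_lit 90170) (nat_lit 13) (.e (nat_lit 172113) (nat_lit 10) (.e (nat_lit 434245) (nat_lit 28) (.e (nat_lit 573474) (nat_lit 12) (.e (nat_lit 57353) (nat_lit 0) (.e (nat_lit 7266) (nat_lit 384) .nil)))))))) (.g (nat_lit 4) .nil .nil)))) (.nd (nat_lit 5) 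
(.lf (nat_lit 156825) (.g (nat_lit 3815) (.e (nat_lit 57413) (nat_lit 12) (.e (nat_lit 336013) (nat_lit 2) (.e (nat_lit 90170) (nat_lit 13) (.e (nat_lit 172106) (nat_lit 10) (.e (nat_lit 434231) (nat_lit 23) (.e (nat_lit 532481) (nat_lit 0) (.e (nat_lit 997) (nat_lit 81) (.e (nat_lit 4528) (nat_lit 265) .nil)))))))) (.g (nat_lit 5) .nil .nil))) 
(.lf (nat_lit 156857) (.g (nat_lit 2662) (.e (nat_lit 57413) (nat_lit 12) (.e (nat_lit 336028) (nat_lit 3) (.e (nat_lit 98359) (nat_lit 26) (.e (nat_lit 426286) (nat_lit 10) (.e (nat_lit 434248) (nat_lit 28) (.e (nat_lit 573473) (nat_lit 12) (.e (nat_lit 57353) (nat_lit 0) (.e (nat_lit 7265) (nat_lit 384) .nil)))))))) (.g (nat_lit 5) .nil .nil)))))) 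
(.nd (nat_lit 3) (.nd (nat_lit 4) (.nd (nat_lit 5) 
(.lf (nat_lit 156805) (.g (nat_lit 3354) (.e (nat_lit 57412) (nat_lit 12) (.e (nat_lit 336389) (nat_lit 27) (.e (nat_lit 426500) (nat_lit 27) (.e (nat_lit 336194) (nat_lit 12) (.e (nat_lit 385066) (nat_lit 26) (.e (nat_lit 532504) (nat_lit 1) (.e (nat_lit 57852) (nat_lit 252) .nil))))))) (.g (nat_lit 5) .nil .nil))) 
(.lf (nat_lit 156837) (.g (nat_lit 2990) (.e (nat_lit 57413) (nat_lit 12) (.e (nat_lit 336013) (nat_lit 2) (.e (nat_lit 90170) (nat_lit 13) (.e (nat_lit 172113) (nat_lit 10) (.e (nat_lit 434242) (nat_lit 28) (.e (nat_lit 573474) (nat_lit 12) (.e (nat_lit 57353) (nat_lit 0) (.e (nat_lit 7261) (nat_lit 384) .nil)))))))) (.g (nat_lit 4) .nil .nil)))) (.nd (nat_lit 5) 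
(.lf (nat_lit 156821) (.g (nat_lit 2873) (.e (nat_lit 57413) (nat_lit 12) (.e (nat_lit 336013) (nat_lit 2) (.e (nat_lit 90170) (nat_lit 13) (.e (nat_lit 172079) (nat_lit 7) (.e (nat_lit 409611) (nat_lit 10) .nil))))) .nil)) 
(.lf (nat_lit 156853) (.g (nat_lit 1958) (.e (nat_lit 57413) (nat_lit 12) (.e (nat_lit 336028) (nat_lit 3) (.e (nat_lit 98359) (nat_lit 26) (.e (nat_lit 426286) (nat_lit 10) (.e (nat_lit 434245) (nat_lit 28) (.e (nat_lit 573474) (nat_lit 12) (.e (nat_lit 57351) (nat_lit 0) (.e (nat_lit 7263) (nat_lit 384) .nil)))))))) (.g (nat_lit 4) .nil .nil))))) (.nd (nat_lit 4) (.nd (nat_lit 5) 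
(.lf (nat_lit 156813) (.g (nat_lit 2701) (.e (nat_lit 57412) (nat_lit 12) (.e (nat_lit 336389) (nat_lit 27) (.e (nat_lit 426521) (nat_lit 27) (.e (nat_lit 336194) (nat_lit 12) (.e (nat_lit 385066) (nat_lit 26) (.e (nat_lit 532504) (nat_lit 1) (.e (nat_lit 57852) (nat_lit 252) .nil))))))) (.g (nat_lit 4) .nil .nil))) 
(.lf (nat_lit 156845) (.g (nat_lit 3039) (.e (nat_lit 57413) (nat_lit 12) (.e (nat_lit 336013) (nat_lit 2) (.e (nat_lit 90170) (nat_lit 13) (.e (nat_lit 172113) (nat_lit 10) (.e (nat_lit 434248) (nat_lit 28) .nil))))) .nil))) (.nd (nat_lit 5) 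
(.lf (nat_lit 156829) (.g (nat_lit 4930) (.e (nat_lit 57413) (nat_lit 12) (.e (nat_lit 336013) (nat_lit 2) (.e (nat_lit 90170) (nat_lit 13) (.e (nat_lit 172106) (nat_lit 10) (.e (nat_lit 434231) (nat_lit 23) (.e (nat_lit 532500) (nat_lit 1) (.e (nat_lit 65280) (nat_lit 223) .nil))))))) (.g (nat_lit 6) .nil .nil))) 
(.lf (nat_lit 156861) (.g (nat_lit 2276) (.e (nat_lit 57413) (nat_lit 12) (.e (nat_lit 336028) (nat_lit 3) (.e (nat_lit 98372) (nat_lit 29) (.e (nat_lit 450579) (nat_lit 5) (.e (nat_lit 532504) (nat_lit 1) .nil))))) .nil)))))) (.nd (nat_lit 2) (.nd (nat_lit 3) (.nd (nat_lit 4) (.nd (nat_lit 5) 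
(.lf (nat_lit 156803) (.g (nat_lit 946) (.e (nat_lit 57412) (nat_lit 12) (.e (nat_lit 336389) (nat_lit 27) (.e (nat_lit 426500) (nat_lit 27) (.e (nat_lit 336186) (nat_lit 11) .nil)))) .nil)) 
(.lf (nat_lit 156835) (.g (nat_lit 5542) (.e (nat_lit 57413) (nat_lit 12) (.e (nat_lit 336013) (nat_lit 2) (.e (nat_lit 90170) (nat_lit 13) (.e (nat_lit 172113) (nat_lit 10) (.e (nat_lit 434242) (nat_lit 28) (.e (nat_lit 573474) (nat_lit 12) (.e (nat_lit 57347) (nat_lit 0) (.e (nat_lit 7261) (nat_lit 384) .nil)))))))) (.g (nat_lit 7) .nil .nil)))) (.nd (nat_lit 5) 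
(.lf (nat_lit 156819) (.g (nat_lit 2621) (.e (nat_lit 57412) (nat_lit 12) (.e (nat_lit 336412) (nat_lit 27) (.e (nat_lit 426500) (nat_lit 27) (.e (nat_lit 336194) (nat_lit 12) (.e (nat_lit 385066) (nat_lit 26) (.e (nat_lit 532504) (nat_lit 1) (.e (nat_lit 57852) (nat_lit 252) .nil))))))) (.g (nat_lit 5) .nil .nil))) 
(.lf (nat_lit 156851) (.g (nat_lit 2548) (.e (nat_lit 57413) (nat_lit 12) (.e (nat_lit 336028) (nat_lit 3) (.e (nat_lit 98359) (nat_lit 26) (.e (nat_lit 426286) (nat_lit 10) (.e (nat_lit 434245) (nat_lit 28) (.e (nat_lit 573473) (nat_lit 12) (.e (nat_lit 57353) (nat_lit 0) (.e (nat_lit 7265) (nat_lit 384) .nil)))))))) (.g (nat_lit 5) .nil .nil))))) (.nd (nat_lit 4) (.nd (nat_lit 5) 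
(.lf (nat_lit 156811) (.g (nat_lit 2447) (.e (nat_lit 57412) (nat_lit 12) (.e (nat_lit 336389) (nat_lit 27) (.e (nat_lit 426521) (nat_lit 27) (.e (nat_lit 336076) (nat_lit 9) (.e (nat_lit 336324) (nat_lit 18) (.e (nat_lit 204831) (nat_lit 18) (.e (nat_lit 57852) (nat_lit 252) .nil))))))) (.g (nat_lit 4) .nil .nil))) 
(.lf (nat_lit 156843) (.g (nat_lit 3153) (.e (nat_lit 57413) (nat_lit 12) (.e (nat_lit 336013) (nat_lit 2) (.e (nat_lit 90170) (nat_lit 13) (.e (nat_lit 172113) (nat_lit 10) (.e (nat_lit 434247) (nat_lit 28) (.e (nat_lit 573475) (nat_lit 12) (.e (nat_lit 57347) (nat_lit 0) (.e (nat_lit 7261) (nat_lit 384) .nil)))))))) (.g (nat_lit 4) .nil .nil)))) (.nd (nat_lit 5) 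
(.lf (nat_lit 156827) (.g (nat_lit 3476) (.e (nat_lit 57413) (nat_lit 12) (.e (nat_lit 336013) (nat_lit 2) (.e (nat_lit 90170) (nat_lit 13) (.e (nat_lit 172106) (nat_lit 10) (.e (nat_lit 434231) (nat_lit 23) (.e (nat_lit 532483) (nat_lit 0) (.e (nat_lit 982) (nat_lit 81) (.e (nat_lit 4529) (nat_lit 265) .nil)))))))) (.g (nat_lit 5) .nil .nil))) 
(.lf (nat_lit 156859) (.g (nat_lit 2297) (.e (nat_lit 57413) (nat_lit 12) (.e (nat_lit 336028) (nat_lit 3) (.e (nat_lit 98372) (nat_lit 29) (.e (nat_lit 450579) (nat_lit 5) (.e (nat_lit 532501) (nat_lit 1) (.e (nat_lit 65280) (nat_lit 223) .nil)))))) (.g (nat_lit 4) .nil .nil)))))) (.nd (nat_lit 3) (.nd (nat_lit 4) (.nd (nat_lit 5) 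
(.lf (nat_lit 156807) (.g (nat_lit 3581) (.e (nat_lit 57412) (nat_lit 12) (.e (nat_lit 336389) (nat_lit 27) (.e (nat_lit 426500) (nat_lit 27) (.e (nat_lit 336204) (nat_lit 12) (.e (nat_lit 385066) (nat_lit 26) (.e (nat_lit 532501) (nat_lit 1) (.e (nat_lit 57852) (nat_lit 252) .nil))))))) (.g (nat_lit 6) .nil .nil))) 
(.lf (nat_lit 156839) (.g (nat_lit 4481) (.e (nat_lit 57413) (nat_lit 12) (.e (nat_lit 336013) (nat_lit 2) (.e (nat_lit 90170) (nat_lit 13) (.e (nat_lit 172113) (nat_lit 10) (.e (nat_lit 434245) (nat_lit 28) (.e (nat_lit 573473) (nat_lit 12) (.e (nat_lit 57347) (nat_lit 0) (.e (nat_lit 7261) (nat_lit 384) .nil)))))))) (.g (nat_lit 6) .nil .nil)))) (.nd (nat_lit 5) 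
(.lf (nat_lit 156823) (.g (nat_lit 3681) (.e (nat_lit 57413) (nat_lit 12) (.e (nat_lit 336013) (nat_lit 2) (.e (nat_lit 90170) (nat_lit 13) (.e (nat_lit 172082) (nat_lit 7) (.e (nat_lit 409612) (nat_lit 10) .nil))))) .nil)) 
(.lf (nat_lit 156855) (.g (nat_lit 2031) (.e (nat_lit 57413) (nat_lit 12) (.e (nat_lit 336028) (nat_lit 3) (.e (nat_lit 98359) (nat_lit 26) (.e (nat_lit 426286) (nat_lit 10) (.e (nat_lit 434247) (nat_lit 28) (.e (nat_lit 573478) (nat_lit 12) (.e (nat_lit 57353) (nat_lit 0) (.e (nat_lit 7265) (nat_lit 384) .nil)))))))) (.g (nat_lit 4) .nil .nil))))) (.nd (nat_lit 4) (.nd (nat_lit 5) 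
(.lf (nat_lit 156815) (.g (nat_lit 3295) (.e (nat_lit 57412) (nat_lit 12) (.e (nat_lit 336389) (nat_lit 27) (.e (nat_lit 426523) (nat_lit 27) (.e (nat_lit 336194) (nat_lit 12) (.e (nat_lit 385066) (nat_lit 26) (.e (nat_lit 532501) (nat_lit 1) (.e (nat_lit 57852) (nat_lit 252) .nil))))))) (.g (nat_lit 6) .nil .nil))) 
(.lf (nat_lit 156847) (.g (nat_lit 3089) (.e (nat_lit 57413) (nat_lit 12) (.e (nat_lit 336013) (nat_lit 2) (.e (nat_lit 90170) (nat_lit 13) (.e (nat_lit 172113) (nat_lit 10) (.e (nat_lit 434248) (nat_lit 28) (.e (nat_lit 573475) (nat_lit 12) (.e (nat_lit 57348) (nat_lit 0) (.e (nat_lit 7263) (nat_lit 384) .nil)))))))) (.g (nat_lit 4) .nil .nil)))) (.nd (nat_lit 5) 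
(.lf (nat_lit 156831) (.g (nat_lit 4256) (.e (nat_lit 57413) (nat_lit 12) (.e (nat_lit 336013) (nat_lit 2) (.e (nat_lit 90170) (nat_lit 13) (.e (nat_lit 172106) (nat_lit 10) (.e (nat_lit 434244) (nat_lit 28) (.e (nat_lit 573473) (nat_lit 12) (.e (nat_lit 57352) (nat_lit 0) (.e (nat_lit 7261) (nat_lit 384) .nil)))))))) (.g (nat_lit 6) .nil .nil))) 
(.lf (nat_lit 156863) (.g (nat_lit 1939) (.e (nat_lit 57413) (nat_lit 12) (.e (nat_lit 336028) (nat_lit 3) (.e (nat_lit 98372) (nat_lit 29) (.e (nat_lit 450586) (nat_lit 10) (.e (nat_lit 573475) (nat_lit 12) .nil))))) .nil))))))))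

noncomputable def tv2099 : DT := (.nd (nat_lit 0) (.nd (nat_lit 1) (.nd (nat_lit 2) (.nd (nat_lit 3) (.nd (nat_lit 4) (.nd (nat_lit 5) 
(.lf (nat_lit 156864) (.g (nat_lit 1970) (.e (nat_lit 57413) (nat_lit 12) (.e (nat_lit 336028) (nat_lit 3) (.e (nat_lit 98372) (nat_lit 29) (.e (nat_lit 450586) (nat_lit 10) (.e (nat_lit 573477) (nat_lit 12) .nil))))) .nil)) 
(.lf (nat_lit 156896) (.g (nat_lit 1684) (.e (nat_lit 57414) (nat_lit 12) (.e (nat_lit 336028) (nat_lit 3) (.e (nat_lit 98373) (nat_lit 29) (.e (nat_lit 450587) (nat_lit 10) .nil)))) .nil))) (.nd (nat_lit 5) 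
(.lf (nat_lit 156880) (.g (nat_lit 1843) (.e (nat_lit 57413) (nat_lit 12) (.e (nat_lit 336224) (nat_lit 13) (.e (nat_lit 393301) (nat_lit 27) (.e (nat_lit 491558) (nat_lit 10) (.e (nat_lit 344091) (nat_lit 18) (.e (nat_lit 7265) (nat_lit 384) .nil)))))) (.g (nat_lit 4) .nil .nil))) 
(.lf (nat_lit 156912) (.g (nat_lit 1993) (.e (nat_lit 57415) (nat_lit 12) (.e (nat_lit 336028) (nat_lit 3) (.e (nat_lit 98359) (nat_lit 26) (.e (nat_lit 426286) (nat_lit 10) (.e (nat_lit 434247) (nat_lit 28) .nil))))) .nil)))) (.nd (nat_lit 4) (.nd (nat_lit 5) 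
(.lf (nat_lit 156872) (.g (nat_lit 2413) (.e (nat_lit 57413) (nat_lit 12) (.e (nat_lit 336056) (nat_lit 7) (.e (nat_lit 319534) (nat_lit 16) (.e (nat_lit 286756) (nat_lit 10) (.e (nat_lit 344097) (nat_lit 18) (.e (nat_lit 5195) (nat_lit 294) (.e (nat_lit 57367) (nat_lit 1) (.e (nat_lit 57846) (nat_lit 252) .nil)))))))) (.g (nat_lit 4) .nil .nil))) 
(.lf (nat_lit 156904) (.g (nat_lit 1829) (.e (nat_lit 57414) (nat_lit 12) (.e (nat_lit 336219) (nat_lit 13) (.e (nat_lit 393260) (nat_lit 21) (.e (nat_lit 409649) (nat_lit 18) (.e (nat_lit 303115) (nat_lit 1) .nil))))) .nil))) (.nd (nat_lit 5) 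
(.lf (nat_lit 156888) (.g (nat_lit 2145) (.e (nat_lit 57414) (nat_lit 12) (.e (nat_lit 336013) (nat_lit 2) (.e (nat_lit 90170) (nat_lit 13) (.e (nat_lit 172106) (nat_lit 10) (.e (nat_lit 434244) (nat_lit 28) .nil))))) .nil)) 
(.lf (nat_lit 156920) (.g (nat_lit 2419) (.e (nat_lit 57415) (nat_lit 12) (.e (nat_lit 336028) (nat_lit 3) (.e (nat_lit 98373) (nat_lit 29) (.e (nat_lit 450587) (nat_lit 10) (.e (nat_lit 573478) (nat_lit 12) .nil))))) .nil))))) (.nd (nat_lit 3) (.nd (nat_lit 4) (.nd (nat_lit 5) 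
(.lf (nat_lit 156868) (.g (nat_lit 2253) (.e (nat_lit 57413) (nat_lit 12) (.e (nat_lit 336028) (nat_lit 3) (.e (nat_lit 98373) (nat_lit 29) (.e (nat_lit 450587) (nat_lit 10) (.e (nat_lit 573478) (nat_lit 12) .nil))))) .nil)) 
(.lf (nat_lit 156900) (.g (nat_lit 1504) (.e (nat_lit 57414) (nat_lit 12) (.e (nat_lit 336060) (nat_lit 7) (.e (nat_lit 319533) (nat_lit 16) (.e (nat_lit 286753) (nat_lit 10) (.e (nat_lit 344097) (nat_lit 18) .nil))))) .nil))) (.nd (nat_lit 5) 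
(.lf (nat_lit 156884) (.g (nat_lit 1668) (.e (nat_lit 57413) (nat_lit 12) (.e (nat_lit 336224) (nat_lit 13) (.e (nat_lit 393301) (nat_lit 27) (.e (nat_lit 491560) (nat_lit 10) (.e (nat_lit 344094) (nat_lit 18) .nil))))) .nil)) 
(.lf (nat_lit 156916) (.g (nat_lit 2122) (.e (nat_lit 57415) (nat_lit 12) (.e (nat_lit 336028) (nat_lit 3) (.e (nat_lit 98372) (nat_lit 29) (.e (nat_lit 450586) (nat_lit 10) (.e (nat_lit 573475) (nat_lit 12) .nil))))) .nil)))) (.nd (nat_lit 4) (.nd (nat_lit 5) 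
(.lf (nat_lit 156876) (.g (nat_lit 3725) (.e (nat_lit 57413) (nat_lit 12) (.e (nat_lit 336060) (nat_lit 7) (.e (nat_lit 319534) (nat_lit 16) (.e (nat_lit 286756) (nat_lit 10) (.e (nat_lit 344097) (nat_lit 18) (.e (nat_lit 5195) (nat_lit 294) (.e (nat_lit 57367) (nat_lit 1) (.e (nat_lit 57848) (nat_lit 252) .nil)))))))) (.g (nat_lit 8) .nil .nil))) 
(.lf (nat_lit 156908) (.g (nat_lit 3811) (.e (nat_lit 57415) (nat_lit 12) (.e (nat_lit 336013) (nat_lit 2) (.e (nat_lit 90170) (nat_lit 13) (.e (nat_lit 172113) (nat_lit 10) (.e (nat_lit 434245) (nat_lit 28) .nil))))) .nil))) (.nd (nat_lit 5) 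
(.lf (nat_lit 156892) (.g (nat_lit 3827) (.e (nat_lit 57414) (nat_lit 12) (.e (nat_lit 336013) (nat_lit 2) (.e (nat_lit 90170) (nat_lit 13) (.e (nat_lit 172113) (nat_lit 10) (.e (nat_lit 434248) (nat_lit 28) .nil))))) .nil)) 
(.lf (nat_lit 156924) (.g (nat_lit 1063) (.e (nat_lit 57415) (nat_lit 12) (.e (nat_lit 336173) (nat_lit 10) (.e (nat_lit 344169) (nat_lit 40) (.e (nat_lit 671764) (nat_lit 6) .nil)))) .nil)))))) (.nd (nat_lit 2) (.nd (nat_lit 3) (.nd (nat_lit 4) (.nd (nat_lit 5) 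
(.lf (nat_lit 156866) (.g (nat_lit 2294) (.e (nat_lit 57413) (nat_lit 12) (.e (nat_lit 336028) (nat_lit 3) (.e (nat_lit 98373) (nat_lit 29) (.e (nat_lit 450587) (nat_lit 10) (.e (nat_lit 573477) (nat_lit 12) .nil))))) .nil)) 
(.lf (nat_lit 156898) (.g (nat_lit 2049) (.e (nat_lit 57414) (nat_lit 12) (.e (nat_lit 336058) (nat_lit 7) (.e (nat_lit 319534) (nat_lit 16) (.e (nat_lit 286756) (nat_lit 10) (.e (nat_lit 344097) (nat_lit 18) .nil))))) .nil))) (.nd (nat_lit 5) 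
(.lf (nat_lit 156882) (.g (nat_lit 1681) (.e (nat_lit 57413) (nat_lit 12) (.e (nat_lit 336224) (nat_lit 13) (.e (nat_lit 393301) (nat_lit 27) (.e (nat_lit 491560) (nat_lit 10) (.e (nat_lit 344090) (nat_lit 18) (.e (nat_lit 7265) (nat_lit 384) .nil)))))) (.g (nat_lit 4) .nil .nil))) 
(.lf (nat_lit 156914) (.g (nat_lit 2335) (.e (nat_lit 57415) (nat_lit 12) (.e (nat_lit 336028) (nat_lit 3) (.e (nat_lit 98372) (nat_lit 29) (.e (nat_lit 450579) (nat_lit 5) (.e (nat_lit 532504) (nat_lit 1) .nil))))) .nil)))) (.nd (nat_lit 4) (.nd (nat_lit 5) 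
(.lf (nat_lit 156874) (.g (nat_lit 3296) (.e (nat_lit 57413) (nat_lit 12) (.e (nat_lit 336060) (nat_lit 7) (.e (nat_lit 319533) (nat_lit 16) (.e (nat_lit 286753) (nat_lit 10) (.e (nat_lit 344097) (nat_lit 18) (.e (nat_lit 5195) (nat_lit 294) (.e (nat_lit 57367) (nat_lit 1) (.e (nat_lit 57848) (nat_lit 252) .nil)))))))) (.g (nat_lit 8) .nil .nil))) 
(.lf (nat_lit 156906) (.g (nat_lit 3375) (.e (nat_lit 57415) (nat_lit 12) (.e (nat_lit 336013) (nat_lit 2) (.e (nat_lit 90170) (nat_lit 13) (.e (nat_lit 172082) (nat_lit 7) .nil)))) .nil))) (.nd (nat_lit 5) 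
(.lf (nat_lit 156890) (.g (nat_lit 3028) (.e (nat_lit 57414) (nat_lit 12) (.e (nat_lit 336013) (nat_lit 2) (.e (nat_lit 90170) (nat_lit 13) (.e (nat_lit 172113) (nat_lit 10) .nil)))) .nil)) 
(.lf (nat_lit 156922) (.g (nat_lit 1254) (.e (nat_lit 57415) (nat_lit 12) (.e (nat_lit 336058) (nat_lit 7) (.e (nat_lit 319539) (nat_lit 19) (.e (nat_lit 311358) (nat_lit 29) (.e (nat_lit 352316) (nat_lit 24) (.e (nat_lit 123198) (nat_lit 266) .nil)))))) (.g (nat_lit 5) .nil .nil)))))) (.nd (nat_lit 3) (.nd (nat_lit 4) (.nd (nat_lit 5) 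
(.lf (nat_lit 156870) (.g (nat_lit 3399) (.e (nat_lit 57413) (nat_lit 12) (.e (nat_lit 336028) (nat_lit 3) (.e (nat_lit 98373) (nat_lit 29) (.e (nat_lit 450588) (nat_lit 10) (.e (nat_lit 573473) (nat_lit 12) (.e (nat_lit 57347) (nat_lit 0) (.e (nat_lit 7266) (nat_lit 384) .nil))))))) (.g (nat_lit 5) .nil .nil))) 
(.lf (nat_lit 156902) (.g (nat_lit 1779) (.e (nat_lit 57414) (nat_lit 12) (.e (nat_lit 336219) (nat_lit 13) (.e (nat_lit 393260) (nat_lit 21) (.e (nat_lit 409643) (nat_lit 18) (.e (nat_lit 303115) (nat_lit 1) .nil))))) .nil))) (.nd (nat_lit 5) 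
(.lf (nat_lit 156886) (.g (nat_lit 725) (.e (nat_lit 57414) (nat_lit 12) (.e (nat_lit 336013) (nat_lit 2) (.e (nat_lit 90170) (nat_lit 13) .nil))) .nil)) 
(.lf (nat_lit 156918) (.g (nat_lit 3303) (.e (nat_lit 57415) (nat_lit 12) (.e (nat_lit 336028) (nat_lit 3) (.e (nat_lit 98372) (nat_lit 29) (.e (nat_lit 450588) (nat_lit 10) (.e (nat_lit 573473) (nat_lit 12) .nil))))) .nil)))) (.nd (nat_lit 4) (.nd (nat_lit 5) 
(.lf (nat_lit 156878) (.g (nat_lit 732) (.e (nat_lit 57413) (nat_lit 12) (.e (nat_lit 336224) (nat_lit 13) (.e (nat_lit 393270) (nat_lit 23) (.e (nat_lit 426448) (nat_lit 20) .nil)))) .nil)) 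
(.lf (nat_lit 156910) (.g (nat_lit 4728) (.e (nat_lit 57415) (nat_lit 12) (.e (nat_lit 336023) (nat_lit 3) (.e (nat_lit 98373) (nat_lit 29) (.e (nat_lit 450588) (nat_lit 10) (.e (nat_lit 573473) (nat_lit 12) (.e (nat_lit 57353) (nat_lit 0) (.e (nat_lit 7266) (nat_lit 384) .nil))))))) (.g (nat_lit 5) .nil .nil)))) (.nd (nat_lit 5) 
(.lf (nat_lit 156894) (.g (nat_lit 2285) (.e (nat_lit 57414) (nat_lit 12) (.e (nat_lit 336028) (nat_lit 3) (.e (nat_lit 98372) (nat_lit 29) (.e (nat_lit 450579) (nat_lit 5) (.e (nat_lit 532501) (nat_lit 1) .nil))))) .nil)) 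
(.lf (nat_lit 156926) (.g (nat_lit 1220) (.e (nat_lit 57415) (nat_lit 12) (.e (nat_lit 336200) (nat_lit 12) (.e (nat_lit 385094) (nat_lit 49) (.e (nat_lit 778326) (nat_lit 6) (.e (nat_lit 81957) (nat_lit 24) .nil))))) .nil))))))) (.nd (nat_lit 1) (.nd (nat_lit 2) (.nd (nat_lit 3) (.nd (nat_lit 4) (.nd (nat_lit 5) 
(.lf (nat_lit 156865) (.g (nat_lit 1916) (.e (nat_lit 57413) (nat_lit 12) (.e (nat_lit 336028) (nat_lit 3) (.e (nat_lit 98372) (nat_lit 29) (.e (nat_lit 450586) (nat_lit 10) (.e (nat_lit 573478) (nat_lit 12) .nil))))) .nil)) 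
(.lf (nat_lit 156897) (.g (nat_lit 1631) (.e (nat_lit 57414) (nat_lit 12) (.e (nat_lit 336058) (nat_lit 7) (.e (nat_lit 319533) (nat_lit 16) (.e (nat_lit 286753) (nat_lit 10) (.e (nat_lit 344097) (nat_lit 18) .nil))))) .nil))) (.nd (nat_lit 5) 
(.lf (nat_lit 156881) (.g (nat_lit 1895) (.e (nat_lit 57413) (nat_lit 12) (.e (nat_lit 336224) (nat_lit 13) (.e (nat_lit 393301) (nat_lit 27) (.e (nat_lit 491558) (nat_lit 10) (.e (nat_lit 344096) (nat_lit 18) (.e (nat_lit 7265) (nat_lit 384) .nil)))))) (.g (nat_lit 4) .nil .nil))) 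
(.lf (nat_lit 156913) (.g (nat_lit 2271) (.e (nat_lit 57415) (nat_lit 12) (.e (nat_lit 336028) (nat_lit 3) (.e (nat_lit 98372) (nat_lit 29) (.e (nat_lit 450579) (nat_lit 5) (.e (nat_lit 532501) (nat_lit 1) .nil))))) .nil)))) (.nd (nat_lit 4) (.nd (nat_lit 5) 
(.lf (nat_lit 156873) (.g (nat_lit 2049) (.e (nat_lit 57413) (nat_lit 12) (.e (nat_lit 336058) (nat_lit 7) (.e (nat_lit 319534) (nat_lit 16) (.e (nat_lit 286756) (nat_lit 10) (.e (nat_lit 344097) (nat_lit 18) .nil))))) .nil)) 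
(.lf (nat_lit 156905) (.g (nat_lit 2825) (.e (nat_lit 57415) (nat_lit 12) (.e (nat_lit 336013) (nat_lit 2) (.e (nat_lit 90170) (nat_lit 13) (.e (nat_lit 172079) (nat_lit 7) .nil)))) .nil))) (.nd (nat_lit 5) 
(.lf (nat_lit 156889) (.g (nat_lit 2196) (.e (nat_lit 57414) (nat_lit 12) (.e (nat_lit 336013) (nat_lit 2) (.e (nat_lit 90170) (nat_lit 13) (.e (nat_lit 172106) (nat_lit 10) (.e (nat_lit 434244) (nat_lit 28) (.e (nat_lit 573468) (nat_lit 10) (.e (nat_lit 8192) (nat_lit 0) (.e (nat_lit 4525) (nat_lit 265) .nil)))))))) (.g (nat_lit 4) .nil .nil))) 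
(.lf (nat_lit 156921) (.g (nat_lit 3605) (.e (nat_lit 57415) (nat_lit 12) (.e (nat_lit 336028) (nat_lit 3) (.e (nat_lit 98373) (nat_lit 29) (.e (nat_lit 450588) (nat_lit 10) (.e (nat_lit 573473) (nat_lit 12) (.e (nat_lit 57347) (nat_lit 0) (.e (nat_lit 7266) (nat_lit 384) .nil))))))) (.g (nat_lit 5) .nil .nil)))))) (.nd (nat_lit 3) (.nd (nat_lit 4) (.nd (nat_lit 5) 
(.lf (nat_lit 156869) (.g (nat_lit 2491) (.e (nat_lit 57413) (nat_lit 12) (.e (nat_lit 336028) (nat_lit 3) (.e (nat_lit 98373) (nat_lit 29) (.e (nat_lit 450588) (nat_lit 10) (.e (nat_lit 573473) (nat_lit 12) .nil))))) .nil)) 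
(.lf (nat_lit 156901) (.g (nat_lit 1686) (.e (nat_lit 57414) (nat_lit 12) (.e (nat_lit 336060) (nat_lit 7) (.e (nat_lit 319534) (nat_lit 16) (.e (nat_lit 286756) (nat_lit 10) (.e (nat_lit 344097) (nat_lit 18) .nil))))) .nil))) (.nd (nat_lit 5) 
(.lf (nat_lit 156885) (.g (nat_lit 2834) (.e (nat_lit 57413) (nat_lit 12) (.e (nat_lit 336224) (nat_lit 13) (.e (nat_lit 393301) (nat_lit 27) (.e (nat_lit 491560) (nat_lit 10) (.e (nat_lit 344095) (nat_lit 18) .nil))))) .nil)) 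
(.lf (nat_lit 156917) (.g (nat_lit 2152) (.e (nat_lit 57415) (nat_lit 12) (.e (nat_lit 336028) (nat_lit 3) (.e (nat_lit 98372) (nat_lit 29) (.e (nat_lit 450586) (nat_lit 10) (.e (nat_lit 573477) (nat_lit 12) .nil))))) .nil)))) (.nd (nat_lit 4) (.nd (nat_lit 5) 
(.lf (nat_lit 156877) (.g (nat_lit 393) (.e (nat_lit 57413) (nat_lit 12) (.e (nat_lit 336224) (nat_lit 13) (.e (nat_lit 393270) (nat_lit 23) .nil))) .nil)) 
(.lf (nat_lit 156909) (.g (nat_lit 3820) (.e (nat_lit 57415) (nat_lit 12) (.e (nat_lit 336013) (nat_lit 2) (.e (nat_lit 90170) (nat_lit 13) (.e (nat_lit 172113) (nat_lit 10) (.e (nat_lit 434248) (nat_lit 28) .nil))))) .nil))) (.nd (nat_lit 5) 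
(.lf (nat_lit 156893) (.g (nat_lit 3971) (.e (nat_lit 57414) (nat_lit 12) (.e (nat_lit 336023) (nat_lit 3) (.e (nat_lit 98373) (nat_lit 29) (.e (nat_lit 450588) (nat_lit 10) (.e (nat_lit 573475) (nat_lit 12) .nil))))) .nil)) 
(.lf (nat_lit 156925) (.g (nat_lit 1815) (.e (nat_lit 57415) (nat_lit 12) (.e (nat_lit 336198) (nat_lit 12) (.e (nat_lit 385105) (nat_lit 50) (.e (nat_lit 786481) (nat_lit 30) (.e (nat_lit 360457) (nat_lit 0) (.e (nat_lit 5949) (nat_lit 322) .nil)))))) (.g (nat_lit 6) .nil .nil))))))) (.nd (nat_lit 2) (.nd (nat_lit 3) (.nd (nat_lit 4) (.nd (nat_lit 5) 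
(.lf (nat_lit 156867) (.g (nat_lit 2334) (.e (nat_lit 57413) (nat_lit 12) (.e (nat_lit 336028) (nat_lit 3) (.e (nat_lit 98373) (nat_lit 29) (.e (nat_lit 450587) (nat_lit 10) (.e (nat_lit 573477) (nat_lit 12) (.e (nat_lit 57353) (nat_lit 0) (.e (nat_lit 7265) (nat_lit 384) .nil))))))) (.g (nat_lit 4) .nil .nil))) 
(.lf (nat_lit 156899) (.g (nat_lit 2240) (.e (nat_lit 57414) (nat_lit 12) (.e (nat_lit 336058) (nat_lit 7) (.e (nat_lit 319534) (nat_lit 16) (.e (nat_lit 286756) (nat_lit 10) (.e (nat_lit 344097) (nat_lit 18) (.e (nat_lit 5195) (nat_lit 294) (.e (nat_lit 57365) (nat_lit 1) (.e (nat_lit 57854) (nat_lit 252) .nil)))))))) (.g (nat_lit 4) .nil .nil)))) (.nd (nat_lit 5) 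
(.lf (nat_lit 156883) (.g (nat_lit 2353) (.e (nat_lit 57413) (nat_lit 12) (.e (nat_lit 336224) (nat_lit 13) (.e (nat_lit 393301) (nat_lit 27) (.e (nat_lit 491560) (nat_lit 10) (.e (nat_lit 344091) (nat_lit 18) .nil))))) .nil)) 
(.lf (nat_lit 156915) (.g (nat_lit 1536) (.e (nat_lit 57415) (nat_lit 12) (.e (nat_lit 336028) (nat_lit 3) (.e (nat_lit 98372) (nat_lit 29) (.e (nat_lit 450586) (nat_lit 10) .nil)))) .nil)))) (.nd (nat_lit 4) (.nd (nat_lit 5) 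
(.lf (nat_lit 156875) (.g (nat_lit 1241) (.e (nat_lit 57413) (nat_lit 12) (.e (nat_lit 336060) (nat_lit 7) (.e (nat_lit 319534) (nat_lit 16) (.e (nat_lit 286749) (nat_lit 9) .nil)))) .nil)) 
(.lf (nat_lit 156907) (.g (nat_lit 3671) (.e (nat_lit 57415) (nat_lit 12) (.e (nat_lit 336013) (nat_lit 2) (.e (nat_lit 90170) (nat_lit 13) (.e (nat_lit 172113) (nat_lit 10) (.e (nat_lit 434242) (nat_lit 28) .nil))))) .nil))) (.nd (nat_lit 5) 
(.lf (nat_lit 156891) (.g (nat_lit 3817) (.e (nat_lit 57414) (nat_lit 12) (.e (nat_lit 336013) (nat_lit 2) (.e (nat_lit 90170) (nat_lit 13) (.e (nat_lit 172113) (nat_lit 10) (.e (nat_lit 434245) (nat_lit 28) .nil))))) .nil)) 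
(.lf (nat_lit 156923) (.g (nat_lit 1804) (.e (nat_lit 57415) (nat_lit 12) (.e (nat_lit 336060) (nat_lit 7) (.e (nat_lit 319534) (nat_lit 16) (.e (nat_lit 286756) (nat_lit 10) (.e (nat_lit 344097) (nat_lit 18) .nil))))) .nil))))) (.nd (nat_lit 3) (.nd (nat_lit 4) (.nd (nat_lit 5) 
(.lf (nat_lit 156871) (.g (nat_lit 2409) (.e (nat_lit 57413) (nat_lit 12) (.e (nat_lit 336056) (nat_lit 7) (.e (nat_lit 319534) (nat_lit 16) (.e (nat_lit 286756) (nat_lit 10) (.e (nat_lit 344097) (nat_lit 18) (.e (nat_lit 5194) (nat_lit 294) (.e (nat_lit 57368) (nat_lit 1) (.e (nat_lit 57853) (nat_lit 252) .nil)))))))) (.g (nat_lit 4) .nil .nil))) 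
(.lf (nat_lit 156903) (.g (nat_lit 1619) (.e (nat_lit 57414) (nat_lit 12) (.e (nat_lit 336219) (nat_lit 13) (.e (nat_lit 393260) (nat_lit 21) (.e (nat_lit 409646) (nat_lit 18) (.e (nat_lit 303115) (nat_lit 1) .nil))))) .nil))) (.nd (nat_lit 5) 
(.lf (nat_lit 156887) (.g (nat_lit 3211) (.e (nat_lit 57414) (nat_lit 12) (.e (nat_lit 336013) (nat_lit 2) (.e (nat_lit 90170) (nat_lit 13) (.e (nat_lit 172106) (nat_lit 10) (.e (nat_lit 434231) (nat_lit 23) (.e (nat_lit 532490) (nat_lit 0) (.e (nat_lit 7936) (nat_lit 81) (.e (nat_lit 4527) (nat_lit 265) .nil)))))))) (.g (nat_lit 5) .nil .nil))) 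
(.lf (nat_lit 156919) (.g (nat_lit 2459) (.e (nat_lit 57415) (nat_lit 12) (.e (nat_lit 336028) (nat_lit 3) (.e (nat_lit 98373) (nat_lit 29) (.e (nat_lit 450587) (nat_lit 10) (.e (nat_lit 573477) (nat_lit 12) .nil))))) .nil)))) (.nd (nat_lit 4) (.nd (nat_lit 5) 
(.lf (nat_lit 156879) (.g (nat_lit 1114) (.e (nat_lit 57413) (nat_lit 12) (.e (nat_lit 336224) (nat_lit 13) (.e (nat_lit 393300) (nat_lit 27) (.e (nat_lit 491558) (nat_lit 10) .nil)))) .nil)) 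
(.lf (nat_lit 156911) (.g (nat_lit 1351) (.e (nat_lit 57415) (nat_lit 12) (.e (nat_lit 336028) (nat_lit 3) (.e (nat_lit 98359) (nat_lit 26) (.e (nat_lit 426171) (nat_lit 7) .nil)))) .nil))) (.nd (nat_lit 5) 
(.lf (nat_lit 156895) (.g (nat_lit 2349) (.e (nat_lit 57414) (nat_lit 12) (.e (nat_lit 336028) (nat_lit 3) (.e (nat_lit 98372) (nat_lit 29) (.e (nat_lit 450579) (nat_lit 5) (.e (nat_lit 532504) (nat_lit 1) .nil))))) .nil)) 
(.lf (nat_lit 156927) (.g (nat_lit 1208) (.e (nat_lit 57415) (nat_lit 12) (.e (nat_lit 336200) (nat_lit 12) (.e (nat_lit 385094) (nat_lit 49) (.e (nat_lit 778326) (nat_lit 6) (.e (nat_lit 81959) (nat_lit 24) .nil))))) .nil))))))))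

noncomputable def tv2100 : DT := (.nd (nat_lit 0) (.nd (nat_lit 1) (.nd (nat_lit 2) (.nd (nat_lit 3) (.nd (nat_lit 4) (.nd (nat_lit 5) 
(.lf (nat_lit 156928) (.g (nat_lit 1296) (.e (nat_lit 57415) (nat_lit 12) (.e (nat_lit 336200) (nat_lit 12) (.e (nat_lit 385094) (nat_lit 49) (.e (nat_lit 778327) (nat_lit 6) (.e (nat_lit 81957) (nat_lit 24) .nil))))) .nil)) 
(.lf (nat_lit 156960) (.g (nat_lit 5878) (.e (nat_lit 57417) (nat_lit 12) (.e (nat_lit 336017) (nat_lit 3) (.e (nat_lit 98373) (nat_lit 29) (.e (nat_lit 450587) (nat_lit 10) (.e (nat_lit 573475) (nat_lit 12) (.e (nat_lit 57347) (nat_lit 0) (.e (nat_lit 7266) (nat_lit 384) .nil))))))) (.g (nat_lit 5) .nil .nil)))) (.nd (nat_lit 5) 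
(.lf (nat_lit 156944) (.g (nat_lit 1941) (.e (nat_lit 57415) (nat_lit 12) (.e (nat_lit 336228) (nat_lit 14) (.e (nat_lit 401437) (nat_lit 9) (.e (nat_lit 426546) (nat_lit 30) (.e (nat_lit 360456) (nat_lit 0) .nil))))) .nil)) 
(.lf (nat_lit 156976) (.g (nat_lit 2068) (.e (nat_lit 57417) (nat_lit 12) (.e (nat_lit 336206) (nat_lit 12) (.e (nat_lit 385093) (nat_lit 49) (.e (nat_lit 778327) (nat_lit 6) (.e (nat_lit 81957) (nat_lit 24) (.e (nat_lit 123198) (nat_lit 266) .nil)))))) (.g (nat_lit 0) .nil .nil))))) (.nd (nat_lit 4) (.nd (nat_lit 5) 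
(.lf (nat_lit 156936) (.g (nat_lit 1797) (.e (nat_lit 57415) (nat_lit 12) (.e (nat_lit 336219) (nat_lit 13) (.e (nat_lit 393260) (nat_lit 21) (.e (nat_lit 409649) (nat_lit 18) (.e (nat_lit 303115) (nat_lit 1) .nil))))) .nil)) 
(.lf (nat_lit 156968) (.g (nat_lit 6004) (.e (nat_lit 57417) (nat_lit 12) (.e (nat_lit 336017) (nat_lit 3) (.e (nat_lit 98373) (nat_lit 29) (.e (nat_lit 450588) (nat_lit 10) (.e (nat_lit 573475) (nat_lit 12) (.e (nat_lit 57347) (nat_lit 0) (.e (nat_lit 7266) (nat_lit 384) .nil))))))) (.g (nat_lit 7) .nil .nil)))) (.nd (nat_lit 5) 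
(.lf (nat_lit 156952) (.g (nat_lit 3601) (.e (nat_lit 57416) (nat_lit 12) (.e (nat_lit 336060) (nat_lit 7) (.e (nat_lit 319534) (nat_lit 16) (.e (nat_lit 286756) (nat_lit 10) (.e (nat_lit 344097) (nat_lit 18) (.e (nat_lit 5195) (nat_lit 294) (.e (nat_lit 57367) (nat_lit 1) (.e (nat_lit 57848) (nat_lit 252) .nil)))))))) (.g (nat_lit 8) .nil .nil))) 
(.lf (nat_lit 156984) (.g (nat_lit 1788) (.e (nat_lit 57417) (nat_lit 12) (.e (nat_lit 336206) (nat_lit 12) (.e (nat_lit 385105) (nat_lit 50) (.e (nat_lit 786481) (nat_lit 30) (.e (nat_lit 360457) (nat_lit 0) (.e (nat_lit 5948) (nat_lit 322) .nil)))))) (.g (nat_lit 4) .nil .nil)))))) (.nd (nat_lit 3) (.nd (nat_lit 4) (.nd (nat_lit 5) 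
(.lf (nat_lit 156932) (.g (nat_lit 1778) (.e (nat_lit 57415) (nat_lit 12) (.e (nat_lit 336219) (nat_lit 13) (.e (nat_lit 393260) (nat_lit 21) (.e (nat_lit 409643) (nat_lit 18) (.e (nat_lit 303115) (nat_lit 1) .nil))))) .nil)) 
(.lf (nat_lit 156964) (.g (nat_lit 5832) (.e (nat_lit 57417) (nat_lit 12) (.e (nat_lit 336017) (nat_lit 3) (.e (nat_lit 98373) (nat_lit 29) (.e (nat_lit 450588) (nat_lit 10) (.e (nat_lit 573473) (nat_lit 12) (.e (nat_lit 57347) (nat_lit 0) (.e (nat_lit 7266) (nat_lit 384) .nil))))))) (.g (nat_lit 7) .nil .nil)))) (.nd (nat_lit 5) 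
(.lf (nat_lit 156948) (.g (nat_lit 2827) (.e (nat_lit 57416) (nat_lit 12) (.e (nat_lit 336028) (nat_lit 3) (.e (nat_lit 98373) (nat_lit 29) (.e (nat_lit 450588) (nat_lit 10) (.e (nat_lit 573475) (nat_lit 12) .nil))))) .nil)) 
(.lf (nat_lit 156980) (.g (nat_lit 2785) (.e (nat_lit 57417) (nat_lit 12) (.e (nat_lit 336206) (nat_lit 12) (.e (nat_lit 385105) (nat_lit 50) (.e (nat_lit 786478) (nat_lit 29) (.e (nat_lit 352318) (nat_lit 24) (.e (nat_lit 123198) (nat_lit 266) .nil)))))) (.g (nat_lit 6) .nil .nil))))) (.nd (nat_lit 4) (.nd (nat_lit 5) 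
(.lf (nat_lit 156940) (.g (nat_lit 1919) (.e (nat_lit 57415) (nat_lit 12) (.e (nat_lit 336224) (nat_lit 13) (.e (nat_lit 393301) (nat_lit 27) (.e (nat_lit 491558) (nat_lit 10) (.e (nat_lit 344096) (nat_lit 18) .nil))))) .nil)) 
(.lf (nat_lit 156972) (.g (nat_lit 2219) (.e (nat_lit 57417) (nat_lit 12) (.e (nat_lit 336206) (nat_lit 12) (.e (nat_lit 385093) (nat_lit 49) (.e (nat_lit 778326) (nat_lit 6) (.e (nat_lit 81957) (nat_lit 24) (.e (nat_lit 123197) (nat_lit 266) .nil)))))) (.g (nat_lit 5) .nil .nil)))) (.nd (nat_lit 5) 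
(.lf (nat_lit 156956) (.g (nat_lit 2683) (.e (nat_lit 57417) (nat_lit 12) (.e (nat_lit 336017) (nat_lit 3) (.e (nat_lit 98372) (nat_lit 29) (.e (nat_lit 450579) (nat_lit 5) (.e (nat_lit 532504) (nat_lit 1) (.e (nat_lit 65280) (nat_lit 223) .nil)))))) (.g (nat_lit 4) .nil .nil))) 
(.lf (nat_lit 156988) (.g (nat_lit 2692) (.e (nat_lit 57417) (nat_lit 12) (.e (nat_lit 336206) (nat_lit 12) (.e (nat_lit 385105) (nat_lit 50) (.e (nat_lit 786483) (nat_lit 30) (.e (nat_lit 360457) (nat_lit 0) (.e (nat_lit 5949) (nat_lit 322) .nil)))))) (.g (nat_lit 5) .nil .nil))))))) (.nd (nat_lit 2) (.nd (nat_lit 3) (.nd (nat_lit 4) (.nd (nat_lit 5) 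
(.lf (nat_lit 156930) (.g (nat_lit 407) (.e (nat_lit 57415) (nat_lit 12) (.e (nat_lit 336217) (nat_lit 13) (.e (nat_lit 393299) (nat_lit 27) (.e (nat_lit 491560) (nat_lit 10) .nil)))) .nil)) 
(.lf (nat_lit 156962) (.g (nat_lit 2564) (.e (nat_lit 57417) (nat_lit 12) (.e (nat_lit 336017) (nat_lit 3) (.e (nat_lit 98373) (nat_lit 29) (.e (nat_lit 450587) (nat_lit 10) (.e (nat_lit 573478) (nat_lit 12) .nil))))) .nil))) (.nd (nat_lit 5) 
(.lf (nat_lit 156946) (.g (nat_lit 3189) (.e (nat_lit 57416) (nat_lit 12) (.e (nat_lit 336013) (nat_lit 2) (.e (nat_lit 90170) (nat_lit 13) (.e (nat_lit 172106) (nat_lit 10) (.e (nat_lit 434231) (nat_lit 23) .nil))))) .nil)) 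
(.lf (nat_lit 156978) (.g (nat_lit 2060) (.e (nat_lit 57417) (nat_lit 12) (.e (nat_lit 336206) (nat_lit 12) (.e (nat_lit 385093) (nat_lit 49) (.e (nat_lit 778327) (nat_lit 6) (.e (nat_lit 81959) (nat_lit 24) (.e (nat_lit 123198) (nat_lit 266) .nil)))))) (.g (nat_lit 6) .nil .nil))))) (.nd (nat_lit 4) (.nd (nat_lit 5) 
(.lf (nat_lit 156938) (.g (nat_lit 1869) (.e (nat_lit 57415) (nat_lit 12) (.e (nat_lit 336224) (nat_lit 13) (.e (nat_lit 393301) (nat_lit 27) (.e (nat_lit 491558) (nat_lit 10) (.e (nat_lit 344091) (nat_lit 18) .nil))))) .nil)) 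
(.lf (nat_lit 156970) (.g (nat_lit 1674) (.e (nat_lit 57417) (nat_lit 12) (.e (nat_lit 336051) (nat_lit 6) (.e (nat_lit 147466) (nat_lit 9) (.e (nat_lit 304) (nat_lit 22) .nil)))) .nil))) (.nd (nat_lit 5) 
(.lf (nat_lit 156954) (.g (nat_lit 1767) (.e (nat_lit 57416) (nat_lit 12) (.e (nat_lit 336219) (nat_lit 13) (.e (nat_lit 393260) (nat_lit 21) (.e (nat_lit 409648) (nat_lit 18) (.e (nat_lit 303114) (nat_lit 1) .nil))))) .nil)) 
(.lf (nat_lit 156986) (.g (nat_lit 2656) (.e (nat_lit 57417) (nat_lit 12) (.e (nat_lit 336206) (nat_lit 12) (.e (nat_lit 385105) (nat_lit 50) (.e (nat_lit 786483) (nat_lit 30) (.e (nat_lit 360456) (nat_lit 0) (.e (nat_lit 5949) (nat_lit 322) .nil)))))) (.g (nat_lit 0) .nil .nil)))))) (.nd (nat_lit 3) (.nd (nat_lit 4) (.nd (nat_lit 5) 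
(.lf (nat_lit 156934) (.g (nat_lit 1964) (.e (nat_lit 57415) (nat_lit 12) (.e (nat_lit 336219) (nat_lit 13) (.e (nat_lit 393260) (nat_lit 21) (.e (nat_lit 409648) (nat_lit 18) (.e (nat_lit 303115) (nat_lit 1) .nil))))) .nil)) 
(.lf (nat_lit 156966) (.g (nat_lit 2588) (.e (nat_lit 57417) (nat_lit 12) (.e (nat_lit 336017) (nat_lit 3) (.e (nat_lit 98373) (nat_lit 29) (.e (nat_lit 450588) (nat_lit 10) (.e (nat_lit 573475) (nat_lit 12) .nil))))) .nil))) (.nd (nat_lit 5) 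
(.lf (nat_lit 156950) (.g (nat_lit 3219) (.e (nat_lit 57416) (nat_lit 12) (.e (nat_lit 336060) (nat_lit 7) (.e (nat_lit 319533) (nat_lit 16) (.e (nat_lit 286753) (nat_lit 10) (.e (nat_lit 344097) (nat_lit 18) (.e (nat_lit 5195) (nat_lit 294) (.e (nat_lit 57367) (nat_lit 1) (.e (nat_lit 57848) (nat_lit 252) .nil)))))))) (.g (nat_lit 8) .nil .nil))) 
(.lf (nat_lit 156982) (.g (nat_lit 2451) (.e (nat_lit 57417) (nat_lit 12) (.e (nat_lit 336206) (nat_lit 12) (.e (nat_lit 385105) (nat_lit 50) (.e (nat_lit 786480) (nat_lit 29) (.e (nat_lit 352318) (nat_lit 24) (.e (nat_lit 123198) (nat_lit 266) .nil)))))) (.g (nat_lit 5) .nil .nil))))) (.nd (nat_lit 4) (.nd (nat_lit 5) 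
(.lf (nat_lit 156942) (.g (nat_lit 1820) (.e (nat_lit 57415) (nat_lit 12) (.e (nat_lit 336224) (nat_lit 13) (.e (nat_lit 393301) (nat_lit 27) (.e (nat_lit 491560) (nat_lit 10) (.e (nat_lit 344094) (nat_lit 18) .nil))))) .nil)) 
(.lf (nat_lit 156974) (.g (nat_lit 1894) (.e (nat_lit 57417) (nat_lit 12) (.e (nat_lit 336206) (nat_lit 12) (.e (nat_lit 385093) (nat_lit 49) (.e (nat_lit 778326) (nat_lit 6) (.e (nat_lit 81959) (nat_lit 24) (.e (nat_lit 123197) (nat_lit 266) .nil)))))) (.g (nat_lit 5) .nil .nil)))) (.nd (nat_lit 5) 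
(.lf (nat_lit 156958) (.g (nat_lit 4561) (.e (nat_lit 57417) (nat_lit 12) (.e (nat_lit 336017) (nat_lit 3) (.e (nat_lit 98373) (nat_lit 29) (.e (nat_lit 450587) (nat_lit 10) (.e (nat_lit 573473) (nat_lit 12) (.e (nat_lit 57348) (nat_lit 0) (.e (nat_lit 7266) (nat_lit 384) .nil))))))) (.g (nat_lit 4) .nil .nil))) 
(.lf (nat_lit 156990) (.g (nat_lit 2738) (.e (nat_lit 57417) (nat_lit 12) (.e (nat_lit 336206) (nat_lit 12) (.e (nat_lit 385106) (nat_lit 50) (.e (nat_lit 786478) (nat_lit 29) (.e (nat_lit 352318) (nat_lit 24) (.e (nat_lit 123198) (nat_lit 266) .nil)))))) (.g (nat_lit 6) .nil .nil)))))))) (.nd (nat_lit 1) (.nd (nat_lit 2) (.nd (nat_lit 3) (.nd (nat_lit 4) (.nd (nat_lit 5) 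
(.lf (nat_lit 156929) (.g (nat_lit 1746) (.e (nat_lit 57415) (nat_lit 12) (.e (nat_lit 336217) (nat_lit 13) (.e (nat_lit 393293) (nat_lit 26) (.e (nat_lit 475212) (nat_lit 42) (.e (nat_lit 720934) (nat_lit 21) (.e (nat_lit 57852) (nat_lit 252) .nil)))))) (.g (nat_lit 0) .nil .nil))) 
(.lf (nat_lit 156961) (.g (nat_lit 2688) (.e (nat_lit 57417) (nat_lit 12) (.e (nat_lit 336017) (nat_lit 3) (.e (nat_lit 98373) (nat_lit 29) (.e (nat_lit 450587) (nat_lit 10) (.e (nat_lit 573477) (nat_lit 12) (.e (nat_lit 57352) (nat_lit 0) (.e (nat_lit 7266) (nat_lit 384) .nil))))))) (.g (nat_lit 4) .nil .nil)))) (.nd (nat_lit 5) 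
(.lf (nat_lit 156945) (.g (nat_lit 2619) (.e (nat_lit 57416) (nat_lit 12) (.e (nat_lit 336013) (nat_lit 2) (.e (nat_lit 90170) (nat_lit 13) (.e (nat_lit 172106) (nat_lit 10) .nil)))) .nil)) 
(.lf (nat_lit 156977) (.g (nat_lit 2196) (.e (nat_lit 57417) (nat_lit 12) (.e (nat_lit 336206) (nat_lit 12) (.e (nat_lit 385093) (nat_lit 49) (.e (nat_lit 778327) (nat_lit 6) (.e (nat_lit 81959) (nat_lit 24) (.e (nat_lit 123197) (nat_lit 266) .nil)))))) (.g (nat_lit 6) .nil .nil))))) (.nd (nat_lit 4) (.nd (nat_lit 5) 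
(.lf (nat_lit 156937) (.g (nat_lit 1460) (.e (nat_lit 57415) (nat_lit 12) (.e (nat_lit 336224) (nat_lit 13) (.e (nat_lit 393234) (nat_lit 17) (.e (nat_lit 7593) (nat_lit 407) (.e (nat_lit 73729) (nat_lit 0) .nil))))) .nil)) 
(.lf (nat_lit 156969) (.g (nat_lit 4162) (.e (nat_lit 57417) (nat_lit 12) (.e (nat_lit 336017) (nat_lit 3) (.e (nat_lit 98373) (nat_lit 29) (.e (nat_lit 450588) (nat_lit 10) (.e (nat_lit 573475) (nat_lit 12) (.e (nat_lit 57353) (nat_lit 0) (.e (nat_lit 7266) (nat_lit 384) .nil))))))) (.g (nat_lit 5) .nil .nil)))) (.nd (nat_lit 5) 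
(.lf (nat_lit 156953) (.g (nat_lit 1616) (.e (nat_lit 57416) (nat_lit 12) (.e (nat_lit 336219) (nat_lit 13) (.e (nat_lit 393260) (nat_lit 21) (.e (nat_lit 409646) (nat_lit 18) (.e (nat_lit 303115) (nat_lit 1) .nil))))) .nil)) 
(.lf (nat_lit 156985) (.g (nat_lit 2538) (.e (nat_lit 57417) (nat_lit 12) (.e (nat_lit 336206) (nat_lit 12) (.e (nat_lit 385105) (nat_lit 50) (.e (nat_lit 786481) (nat_lit 30) (.e (nat_lit 360457) (nat_lit 0) (.e (nat_lit 5949) (nat_lit 322) .nil)))))) (.g (nat_lit 0) .nil .nil)))))) (.nd (nat_lit 3) (.nd (nat_lit 4) (.nd (nat_lit 5) 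
(.lf (nat_lit 156933) (.g (nat_lit 930) (.e (nat_lit 57415) (nat_lit 12) (.e (nat_lit 336219) (nat_lit 13) (.e (nat_lit 393260) (nat_lit 21) (.e (nat_lit 409648) (nat_lit 18) .nil)))) .nil)) 
(.lf (nat_lit 156965) (.g (nat_lit 5196) (.e (nat_lit 57417) (nat_lit 12) (.e (nat_lit 336017) (nat_lit 3) (.e (nat_lit 98373) (nat_lit 29) (.e (nat_lit 450588) (nat_lit 10) (.e (nat_lit 573474) (nat_lit 12) .nil))))) .nil))) (.nd (nat_lit 5) 
(.lf (nat_lit 156949) (.g (nat_lit 3289) (.e (nat_lit 57416) (nat_lit 12) (.e (nat_lit 336060) (nat_lit 7) (.e (nat_lit 319533) (nat_lit 16) (.e (nat_lit 286753) (nat_lit 10) (.e (nat_lit 344097) (nat_lit 18) (.e (nat_lit 5195) (nat_lit 294) (.e (nat_lit 57363) (nat_lit 1) (.e (nat_lit 57847) (nat_lit 252) .nil)))))))) (.g (nat_lit 8) .nil .nil))) 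
(.lf (nat_lit 156981) (.g (nat_lit 2061) (.e (nat_lit 57417) (nat_lit 12) (.e (nat_lit 336206) (nat_lit 12) (.e (nat_lit 385105) (nat_lit 50) (.e (nat_lit 786480) (nat_lit 29) (.e (nat_lit 352316) (nat_lit 24) (.e (nat_lit 123198) (nat_lit 266) .nil)))))) (.g (nat_lit 4) .nil .nil))))) (.nd (nat_lit 4) (.nd (nat_lit 5) 
(.lf (nat_lit 156941) (.g (nat_lit 1781) (.e (nat_lit 57415) (nat_lit 12) (.e (nat_lit 336224) (nat_lit 13) (.e (nat_lit 393301) (nat_lit 27) (.e (nat_lit 491560) (nat_lit 10) (.e (nat_lit 344090) (nat_lit 18) .nil))))) .nil)) 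
(.lf (nat_lit 156973) (.g (nat_lit 1867) (.e (nat_lit 57417) (nat_lit 12) (.e (nat_lit 336206) (nat_lit 12) (.e (nat_lit 385093) (nat_lit 49) (.e (nat_lit 778326) (nat_lit 6) (.e (nat_lit 81957) (nat_lit 24) (.e (nat_lit 123198) (nat_lit 266) .nil)))))) (.g (nat_lit 5) .nil .nil)))) (.nd (nat_lit 5) 
(.lf (nat_lit 156957) (.g (nat_lit 1506) (.e (nat_lit 57417) (nat_lit 12) (.e (nat_lit 336017) (nat_lit 3) (.e (nat_lit 98373) (nat_lit 29) (.e (nat_lit 450586) (nat_lit 10) .nil)))) .nil)) 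
(.lf (nat_lit 156989) (.g (nat_lit 3127) (.e (nat_lit 57417) (nat_lit 12) (.e (nat_lit 336206) (nat_lit 12) (.e (nat_lit 385106) (nat_lit 50) (.e (nat_lit 786478) (nat_lit 29) (.e (nat_lit 352318) (nat_lit 24) (.e (nat_lit 123197) (nat_lit 266) .nil)))))) (.g (nat_lit 6) .nil .nil))))))) (.nd (nat_lit 2) (.nd (nat_lit 3) (.nd (nat_lit 4) (.nd (nat_lit 5) 
(.lf (nat_lit 156931) (.g (nat_lit 2153) (.e (nat_lit 57415) (nat_lit 12) (.e (nat_lit 336217) (nat_lit 13) (.e (nat_lit 393301) (nat_lit 27) (.e (nat_lit 491558) (nat_lit 10) (.e (nat_lit 344090) (nat_lit 18) .nil))))) .nil)) 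
(.lf (nat_lit 156963) (.g (nat_lit 3034) (.e (nat_lit 57417) (nat_lit 12) (.e (nat_lit 336017) (nat_lit 3) (.e (nat_lit 98373) (nat_lit 29) (.e (nat_lit 450588) (nat_lit 10) (.e (nat_lit 573473) (nat_lit 12) .nil))))) .nil))) (.nd (nat_lit 5) 
(.lf (nat_lit 156947) (.g (nat_lit 630) (.e (nat_lit 57416) (nat_lit 12) (.e (nat_lit 336028) (nat_lit 3) (.e (nat_lit 98370) (nat_lit 28) .nil))) .nil)) 
(.lf (nat_lit 156979) (.g (nat_lit 3175) (.e (nat_lit 57417) (nat_lit 12) (.e (nat_lit 336206) (nat_lit 12) (.e (nat_lit 385105) (nat_lit 50) (.e (nat_lit 786478) (nat_lit 29) (.e (nat_lit 352318) (nat_lit 24) (.e (nat_lit 123197) (nat_lit 266) .nil)))))) (.g (nat_lit 6) .nil .nil))))) (.nd (nat_lit 4) (.nd (nat_lit 5) 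
(.lf (nat_lit 156939) (.g (nat_lit 1930) (.e (nat_lit 57415) (nat_lit 12) (.e (nat_lit 336224) (nat_lit 13) (.e (nat_lit 393301) (nat_lit 27) (.e (nat_lit 491558) (nat_lit 10) (.e (nat_lit 344091) (nat_lit 18) (.e (nat_lit 7266) (nat_lit 384) .nil)))))) (.g (nat_lit 4) .nil .nil))) 
(.lf (nat_lit 156971) (.g (nat_lit 1943) (.e (nat_lit 57417) (nat_lit 12) (.e (nat_lit 336051) (nat_lit 6) (.e (nat_lit 147466) (nat_lit 9) (.e (nat_lit 305) (nat_lit 22) (.e (nat_lit 344130) (nat_lit 26) .nil))))) .nil))) (.nd (nat_lit 5) 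
(.lf (nat_lit 156955) (.g (nat_lit 2732) (.e (nat_lit 57417) (nat_lit 12) (.e (nat_lit 336017) (nat_lit 3) (.e (nat_lit 98372) (nat_lit 29) (.e (nat_lit 450579) (nat_lit 5) (.e (nat_lit 532501) (nat_lit 1) (.e (nat_lit 65280) (nat_lit 223) .nil)))))) (.g (nat_lit 4) .nil .nil))) 
(.lf (nat_lit 156987) (.g (nat_lit 2279) (.e (nat_lit 57417) (nat_lit 12) (.e (nat_lit 336206) (nat_lit 12) (.e (nat_lit 385105) (nat_lit 50) (.e (nat_lit 786483) (nat_lit 30) (.e (nat_lit 360457) (nat_lit 0) (.e (nat_lit 5948) (nat_lit 322) .nil)))))) (.g (nat_lit 5) .nil .nil)))))) (.nd (nat_lit 3) (.nd (nat_lit 4) (.nd (nat_lit 5) 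
(.lf (nat_lit 156935) (.g (nat_lit 2007) (.e (nat_lit 57415) (nat_lit 12) (.e (nat_lit 336219) (nat_lit 13) (.e (nat_lit 393260) (nat_lit 21) (.e (nat_lit 409649) (nat_lit 18) (.e (nat_lit 303114) (nat_lit 1) .nil))))) .nil)) 
(.lf (nat_lit 156967) (.g (nat_lit 3162) (.e (nat_lit 57417) (nat_lit 12) (.e (nat_lit 336017) (nat_lit 3) (.e (nat_lit 98373) (nat_lit 29) (.e (nat_lit 450588) (nat_lit 10) (.e (nat_lit 573475) (nat_lit 12) (.e (nat_lit 57344) (nat_lit 0) (.e (nat_lit 7266) (nat_lit 384) .nil))))))) (.g (nat_lit 4) .nil .nil)))) (.nd (nat_lit 5) 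
(.lf (nat_lit 156951) (.g (nat_lit 3620) (.e (nat_lit 57416) (nat_lit 12) (.e (nat_lit 336060) (nat_lit 7) (.e (nat_lit 319534) (nat_lit 16) (.e (nat_lit 286756) (nat_lit 10) (.e (nat_lit 344097) (nat_lit 18) (.e (nat_lit 5195) (nat_lit 294) (.e (nat_lit 57363) (nat_lit 1) (.e (nat_lit 57847) (nat_lit 252) .nil)))))))) (.g (nat_lit 8) .nil .nil))) 
(.lf (nat_lit 156983) (.g (nat_lit 2472) (.e (nat_lit 57417) (nat_lit 12) (.e (nat_lit 336206) (nat_lit 12) (.e (nat_lit 385105) (nat_lit 50) (.e (nat_lit 786481) (nat_lit 30) (.e (nat_lit 360456) (nat_lit 0) (.e (nat_lit 5949) (nat_lit 322) .nil)))))) (.g (nat_lit 0) .nil .nil))))) (.nd (nat_lit 4) (.nd (nat_lit 5) 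
(.lf (nat_lit 156943) (.g (nat_lit 1922) (.e (nat_lit 57415) (nat_lit 12) (.e (nat_lit 336226) (nat_lit 14) (.e (nat_lit 401437) (nat_lit 9) (.e (nat_lit 426542) (nat_lit 29) .nil)))) .nil)) 
(.lf (nat_lit 156975) (.g (nat_lit 1746) (.e (nat_lit 57417) (nat_lit 12) (.e (nat_lit 336206) (nat_lit 12) (.e (nat_lit 385093) (nat_lit 49) (.e (nat_lit 778326) (nat_lit 6) (.e (nat_lit 81959) (nat_lit 24) (.e (nat_lit 123198) (nat_lit 266) .nil)))))) (.g (nat_lit 5) .nil .nil)))) (.nd (nat_lit 5) 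
(.lf (nat_lit 156959) (.g (nat_lit 4611) (.e (nat_lit 57417) (nat_lit 12) (.e (nat_lit 336017) (nat_lit 3) (.e (nat_lit 98373) (nat_lit 29) (.e (nat_lit 450587) (nat_lit 10) (.e (nat_lit 573473) (nat_lit 12) (.e (nat_lit 57353) (nat_lit 0) (.e (nat_lit 7266) (nat_lit 384) .nil))))))) (.g (nat_lit 4) .nil .nil))) 
(.lf (nat_lit 156991) (.g (nat_lit 2481) (.e (nat_lit 57417) (nat_lit 12) (.e (nat_lit 336206) (nat_lit 12) (.e (nat_lit 385106) (nat_lit 50) (.e (nat_lit 786480) (nat_lit 29) (.e (nat_lit 352316) (nat_lit 24) (.e (nat_lit 123198) (nat_lit 266) .nil)))))) (.g (nat_lit 5) .nil .nil)))))))))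

noncomputable def tv2101 : DT := (.nd (nat_lit 0) (.nd (nat_lit 1) (.nd (nat_lit 2) (.nd (nat_lit 3) (.nd (nat_lit 4) (.nd (nat_lit 5) 
(.lf (nat_lit 156992) (.g (nat_lit 1820) (.e (nat_lit 57417) (nat_lit 12) (.e (nat_lit 336206) (nat_lit 12) (.e (nat_lit 385106) (nat_lit 50) (.e (nat_lit 786481) (nat_lit 30) (.e (nat_lit 360457) (nat_lit 0) (.e (nat_lit 5948) (nat_lit 322) .nil)))))) (.g (nat_lit 4) .nil .nil))) 
(.lf (nat_lit 157024) (.g (nat_lit 2546) (.e (nat_lit 57417) (nat_lit 12) (.e (nat_lit 336235) (nat_lit 14) (.e (nat_lit 401438) (nat_lit 9) (.e (nat_lit 426542) (nat_lit 29) (.e (nat_lit 352316) (nat_lit 24) .nil))))) .nil))) (.nd (nat_lit 5) 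
(.lf (nat_lit 157008) (.g (nat_lit 2734) (.e (nat_lit 57417) (nat_lit 12) (.e (nat_lit 336209) (nat_lit 13) (.e (nat_lit 393293) (nat_lit 26) (.e (nat_lit 475214) (nat_lit 42) (.e (nat_lit 720931) (nat_lit 21) (.e (nat_lit 57852) (nat_lit 252) .nil)))))) (.g (nat_lit 0) .nil .nil))) 
(.lf (nat_lit 157040) (.g (nat_lit 2200) (.e (nat_lit 57418) (nat_lit 12) (.e (nat_lit 336011) (nat_lit 2) (.e (nat_lit 90170) (nat_lit 13) (.e (nat_lit 172106) (nat_lit 10) (.e (nat_lit 434244) (nat_lit 28) .nil))))) .nil)))) (.nd (nat_lit 4) (.nd (nat_lit 5) 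
(.lf (nat_lit 157000) (.g (nat_lit 2425) (.e (nat_lit 57417) (nat_lit 12) (.e (nat_lit 336209) (nat_lit 13) (.e (nat_lit 393260) (nat_lit 21) (.e (nat_lit 409648) (nat_lit 18) (.e (nat_lit 303104) (nat_lit 0) (.e (nat_lit 2420) (nat_lit 157) (.e (nat_lit 6402) (nat_lit 339) .nil))))))) (.g (nat_lit 4) .nil .nil))) 
(.lf (nat_lit 157032) (.g (nat_lit 1986) (.e (nat_lit 57417) (nat_lit 12) (.e (nat_lit 336390) (nat_lit 27) (.e (nat_lit 426523) (nat_lit 27) (.e (nat_lit 336194) (nat_lit 12) (.e (nat_lit 385066) (nat_lit 26) (.e (nat_lit 532504) (nat_lit 1) (.e (nat_lit 57852) (nat_lit 252) .nil))))))) (.g (nat_lit 4) .nil .nil)))) (.nd (nat_lit 5) 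
(.lf (nat_lit 157016) (.g (nat_lit 3535) (.e (nat_lit 57417) (nat_lit 12) (.e (nat_lit 336209) (nat_lit 13) (.e (nat_lit 393301) (nat_lit 27) (.e (nat_lit 491559) (nat_lit 10) (.e (nat_lit 344096) (nat_lit 18) (.e (nat_lit 7266) (nat_lit 384) .nil)))))) (.g (nat_lit 4) .nil .nil))) 
(.lf (nat_lit 157048) (.g (nat_lit 1059) (.e (nat_lit 57418) (nat_lit 12) (.e (nat_lit 336076) (nat_lit 9) (.e (nat_lit 336438) (nat_lit 31) (.e (nat_lit 466688) (nat_lit 5) .nil)))) .nil))))) (.nd (nat_lit 3) (.nd (nat_lit 4) (.nd (nat_lit 5) 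
(.lf (nat_lit 156996) (.g (nat_lit 2877) (.e (nat_lit 57417) (nat_lit 12) (.e (nat_lit 336206) (nat_lit 12) (.e (nat_lit 385106) (nat_lit 50) (.e (nat_lit 786483) (nat_lit 30) (.e (nat_lit 360457) (nat_lit 0) (.e (nat_lit 5949) (nat_lit 322) .nil)))))) (.g (nat_lit 0) .nil .nil))) 
(.lf (nat_lit 157028) (.g (nat_lit 2774) (.e (nat_lit 57417) (nat_lit 12) (.e (nat_lit 336390) (nat_lit 27) (.e (nat_lit 426500) (nat_lit 27) (.e (nat_lit 336196) (nat_lit 12) (.e (nat_lit 385066) (nat_lit 26) (.e (nat_lit 532501) (nat_lit 1) (.e (nat_lit 57852) (nat_lit 252) .nil))))))) (.g (nat_lit 5) .nil .nil)))) (.nd (nat_lit 5) 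
(.lf (nat_lit 157012) (.g (nat_lit 600) (.e (nat_lit 57417) (nat_lit 12) (.e (nat_lit 336209) (nat_lit 13) (.e (nat_lit 393299) (nat_lit 27) (.e (nat_lit 491560) (nat_lit 10) .nil)))) .nil)) 
(.lf (nat_lit 157044) (.g (nat_lit 3214) (.e (nat_lit 57418) (nat_lit 12) (.e (nat_lit 336012) (nat_lit 2) (.e (nat_lit 90176) (nat_lit 15) (.e (nat_lit 188452) (nat_lit 23) (.e (nat_lit 212736) (nat_lit 1) .nil))))) .nil)))) (.nd (nat_lit 4) (.nd (nat_lit 5) 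
(.lf (nat_lit 157004) (.g (nat_lit 2413) (.e (nat_lit 57417) (nat_lit 12) (.e (nat_lit 336209) (nat_lit 13) (.e (nat_lit 393270) (nat_lit 23) (.e (nat_lit 426448) (nat_lit 20) (.e (nat_lit 114712) (nat_lit 21) (.e (nat_lit 57852) (nat_lit 252) .nil)))))) (.g (nat_lit 0) .nil .nil))) 
(.lf (nat_lit 157036) (.g (nat_lit 2359) (.e (nat_lit 57418) (nat_lit 12) (.e (nat_lit 336004) (nat_lit 2) (.e (nat_lit 90176) (nat_lit 15) (.e (nat_lit 188450) (nat_lit 23) (.e (nat_lit 204817) (nat_lit 17) (.e (nat_lit 7936) (nat_lit 81) (.e (nat_lit 4527) (nat_lit 265) .nil))))))) (.g (nat_lit 4) .nil .nil)))) (.nd (nat_lit 5) 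
(.lf (nat_lit 157020) (.g (nat_lit 2652) (.e (nat_lit 57417) (nat_lit 12) (.e (nat_lit 336235) (nat_lit 14) (.e (nat_lit 401437) (nat_lit 9) (.e (nat_lit 426544) (nat_lit 30) (.e (nat_lit 360457) (nat_lit 0) .nil))))) .nil)) 
(.lf (nat_lit 157052) (.g (nat_lit 678) (.e (nat_lit 57418) (nat_lit 12) (.e (nat_lit 336194) (nat_lit 12) (.e (nat_lit 385094) (nat_lit 49) .nil))) .nil)))))) (.nd (nat_lit 2) (.nd (nat_lit 3) (.nd (nat_lit 4) (.nd (nat_lit 5) 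
(.lf (nat_lit 156994) (.g (nat_lit 1549) (.e (nat_lit 57417) (nat_lit 12) (.e (nat_lit 336206) (nat_lit 12) (.e (nat_lit 385106) (nat_lit 50) (.e (nat_lit 786483) (nat_lit 30) (.e (nat_lit 360456) (nat_lit 0) (.e (nat_lit 5948) (nat_lit 322) .nil)))))) (.g (nat_lit 4) .nil .nil))) 
(.lf (nat_lit 157026) (.g (nat_lit 4161) (.e (nat_lit 57417) (nat_lit 12) (.e (nat_lit 336390) (nat_lit 27) (.e (nat_lit 426500) (nat_lit 27) (.e (nat_lit 336194) (nat_lit 12) (.e (nat_lit 385066) (nat_lit 26) (.e (nat_lit 532504) (nat_lit 1) (.e (nat_lit 57852) (nat_lit 252) .nil))))))) (.g (nat_lit 7) .nil .nil)))) (.nd (nat_lit 5) 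
(.lf (nat_lit 157010) (.g (nat_lit 1796) (.e (nat_lit 57417) (nat_lit 12) (.e (nat_lit 336209) (nat_lit 13) (.e (nat_lit 393293) (nat_lit 26) (.e (nat_lit 475214) (nat_lit 42) (.e (nat_lit 720934) (nat_lit 21) (.e (nat_lit 57852) (nat_lit 252) .nil)))))) (.g (nat_lit 4) .nil .nil))) 
(.lf (nat_lit 157042) (.g (nat_lit 2245) (.e (nat_lit 57418) (nat_lit 12) (.e (nat_lit 336012) (nat_lit 2) (.e (nat_lit 90176) (nat_lit 15) (.e (nat_lit 188450) (nat_lit 23) (.e (nat_lit 204821) (nat_lit 17) .nil))))) .nil)))) (.nd (nat_lit 4) (.nd (nat_lit 5) 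
(.lf (nat_lit 157002) (.g (nat_lit 2383) (.e (nat_lit 57417) (nat_lit 12) (.e (nat_lit 336209) (nat_lit 13) (.e (nat_lit 393270) (nat_lit 23) (.e (nat_lit 426446) (nat_lit 20) (.e (nat_lit 114712) (nat_lit 21) (.e (nat_lit 57852) (nat_lit 252) .nil)))))) (.g (nat_lit 0) .nil .nil))) 
(.lf (nat_lit 157034) (.g (nat_lit 1801) (.e (nat_lit 57418) (nat_lit 12) (.e (nat_lit 336003) (nat_lit 2) (.e (nat_lit 90176) (nat_lit 15) (.e (nat_lit 188450) (nat_lit 23) (.e (nat_lit 212736) (nat_lit 1) .nil))))) .nil))) (.nd (nat_lit 5) 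
(.lf (nat_lit 157018) (.g (nat_lit 2549) (.e (nat_lit 57417) (nat_lit 12) (.e (nat_lit 336235) (nat_lit 14) (.e (nat_lit 401437) (nat_lit 9) (.e (nat_lit 426542) (nat_lit 29) (.e (nat_lit 352318) (nat_lit 24) .nil))))) .nil)) 
(.lf (nat_lit 157050) (.g (nat_lit 1217) (.e (nat_lit 57418) (nat_lit 12) (.e (nat_lit 336088) (nat_lit 9) (.e (nat_lit 336438) (nat_lit 31) (.e (nat_lit 466688) (nat_lit 5) .nil)))) .nil))))) (.nd (nat_lit 3) (.nd (nat_lit 4) (.nd (nat_lit 5) 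
(.lf (nat_lit 156998) (.g (nat_lit 3042) (.e (nat_lit 57417) (nat_lit 12) (.e (nat_lit 336209) (nat_lit 13) (.e (nat_lit 393234) (nat_lit 17) (.e (nat_lit 7593) (nat_lit 407) (.e (nat_lit 73729) (nat_lit 0) (.e (nat_lit 7266) (nat_lit 384) .nil)))))) (.g (nat_lit 6) .nil .nil))) 
(.lf (nat_lit 157030) (.g (nat_lit 4268) (.e (nat_lit 57417) (nat_lit 12) (.e (nat_lit 336390) (nat_lit 27) (.e (nat_lit 426500) (nat_lit 27) (.e (nat_lit 336204) (nat_lit 12) (.e (nat_lit 385068) (nat_lit 26) (.e (nat_lit 532504) (nat_lit 1) (.e (nat_lit 57852) (nat_lit 252) .nil))))))) (.g (nat_lit 7) .nil .nil)))) (.nd (nat_lit 5) 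
(.lf (nat_lit 157014) (.g (nat_lit 1376) (.e (nat_lit 57417) (nat_lit 12) (.e (nat_lit 336209) (nat_lit 13) (.e (nat_lit 393300) (nat_lit 27) (.e (nat_lit 491558) (nat_lit 10) (.e (nat_lit 344096) (nat_lit 18) .nil))))) .nil)) 
(.lf (nat_lit 157046) (.g (nat_lit 1691) (.e (nat_lit 57418) (nat_lit 12) (.e (nat_lit 336027) (nat_lit 3) (.e (nat_lit 98372) (nat_lit 29) (.e (nat_lit 450579) (nat_lit 5) .nil)))) .nil)))) (.nd (nat_lit 4) (.nd (nat_lit 5) 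
(.lf (nat_lit 157006) (.g (nat_lit 1438) (.e (nat_lit 57417) (nat_lit 12) (.e (nat_lit 336209) (nat_lit 13) (.e (nat_lit 393292) (nat_lit 26) (.e (nat_lit 475212) (nat_lit 42) (.e (nat_lit 720930) (nat_lit 21) (.e (nat_lit 57852) (nat_lit 252) .nil)))))) (.g (nat_lit 4) .nil .nil))) 
(.lf (nat_lit 157038) (.g (nat_lit 3231) (.e (nat_lit 57418) (nat_lit 12) (.e (nat_lit 336004) (nat_lit 2) (.e (nat_lit 90176) (nat_lit 15) (.e (nat_lit 188452) (nat_lit 23) (.e (nat_lit 212736) (nat_lit 1) .nil))))) .nil))) (.nd (nat_lit 5) 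
(.lf (nat_lit 157022) (.g (nat_lit 3140) (.e (nat_lit 57417) (nat_lit 12) (.e (nat_lit 336235) (nat_lit 14) (.e (nat_lit 401437) (nat_lit 9) (.e (nat_lit 426546) (nat_lit 30) (.e (nat_lit 360456) (nat_lit 0) (.e (nat_lit 5949) (nat_lit 322) .nil)))))) (.g (nat_lit 4) .nil .nil))) 
(.lf (nat_lit 157054) (.g (nat_lit 1684) (.e (nat_lit 57418) (nat_lit 12) (.e (nat_lit 336194) (nat_lit 12) (.e (nat_lit 385105) (nat_lit 50) (.e (nat_lit 786481) (nat_lit 30) .nil)))) .nil))))))) (.nd (nat_lit 1) (.nd (nat_lit 2) (.nd (nat_lit 3) (.nd (nat_lit 4) (.nd (nat_lit 5) 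
(.lf (nat_lit 156993) (.g (nat_lit 2586) (.e (nat_lit 57417) (nat_lit 12) (.e (nat_lit 336206) (nat_lit 12) (.e (nat_lit 385106) (nat_lit 50) (.e (nat_lit 786481) (nat_lit 30) (.e (nat_lit 360457) (nat_lit 0) (.e (nat_lit 5949) (nat_lit 322) .nil)))))) (.g (nat_lit 0) .nil .nil))) 
(.lf (nat_lit 157025) (.g (nat_lit 4186) (.e (nat_lit 57417) (nat_lit 12) (.e (nat_lit 336390) (nat_lit 27) (.e (nat_lit 426500) (nat_lit 27) (.e (nat_lit 336194) (nat_lit 12) (.e (nat_lit 385066) (nat_lit 26) (.e (nat_lit 532501) (nat_lit 1) (.e (nat_lit 57852) (nat_lit 252) .nil))))))) (.g (nat_lit 7) .nil .nil)))) (.nd (nat_lit 5) 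
(.lf (nat_lit 157009) (.g (nat_lit 1599) (.e (nat_lit 57417) (nat_lit 12) (.e (nat_lit 336209) (nat_lit 13) (.e (nat_lit 393293) (nat_lit 26) (.e (nat_lit 475214) (nat_lit 42) (.e (nat_lit 720932) (nat_lit 21) (.e (nat_lit 57852) (nat_lit 252) .nil)))))) (.g (nat_lit 4) .nil .nil))) 
(.lf (nat_lit 157041) (.g (nat_lit 2365) (.e (nat_lit 57418) (nat_lit 12) (.e (nat_lit 336012) (nat_lit 2) (.e (nat_lit 90176) (nat_lit 15) (.e (nat_lit 188450) (nat_lit 23) (.e (nat_lit 212736) (nat_lit 1) .nil))))) .nil)))) (.nd (nat_lit 4) (.nd (nat_lit 5) 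
(.lf (nat_lit 157001) (.g (nat_lit 2790) (.e (nat_lit 57417) (nat_lit 12) (.e (nat_lit 336209) (nat_lit 13) (.e (nat_lit 393270) (nat_lit 23) (.e (nat_lit 426446) (nat_lit 20) (.e (nat_lit 114710) (nat_lit 21) (.e (nat_lit 57847) (nat_lit 252) .nil)))))) (.g (nat_lit 6) .nil .nil))) 
(.lf (nat_lit 157033) (.g (nat_lit 2094) (.e (nat_lit 57417) (nat_lit 12) (.e (nat_lit 336394) (nat_lit 27) (.e (nat_lit 426499) (nat_lit 27) (.e (nat_lit 336196) (nat_lit 12) (.e (nat_lit 385066) (nat_lit 26) .nil))))) .nil))) (.nd (nat_lit 5) 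
(.lf (nat_lit 157017) (.g (nat_lit 2543) (.e (nat_lit 57417) (nat_lit 12) (.e (nat_lit 336235) (nat_lit 14) (.e (nat_lit 401437) (nat_lit 9) (.e (nat_lit 426542) (nat_lit 29) (.e (nat_lit 352316) (nat_lit 24) (.e (nat_lit 123198) (nat_lit 266) .nil)))))) (.g (nat_lit 4) .nil .nil))) 
(.lf (nat_lit 157049) (.g (nat_lit 1374) (.e (nat_lit 57418) (nat_lit 12) (.e (nat_lit 336086) (nat_lit 9) (.e (nat_lit 336369) (nat_lit 27) (.e (nat_lit 426173) (nat_lit 7) .nil)))) .nil))))) (.nd (nat_lit 3) (.nd (nat_lit 4) (.nd (nat_lit 5) 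
(.lf (nat_lit 156997) (.g (nat_lit 2788) (.e (nat_lit 57417) (nat_lit 12) (.e (nat_lit 336209) (nat_lit 13) (.e (nat_lit 393232) (nat_lit 17) (.e (nat_lit 7591) (nat_lit 407) (.e (nat_lit 73729) (nat_lit 0) (.e (nat_lit 7266) (nat_lit 384) .nil)))))) (.g (nat_lit 6) .nil .nil))) 
(.lf (nat_lit 157029) (.g (nat_lit 2801) (.e (nat_lit 57417) (nat_lit 12) (.e (nat_lit 336390) (nat_lit 27) (.e (nat_lit 426500) (nat_lit 27) (.e (nat_lit 336196) (nat_lit 12) (.e (nat_lit 385066) (nat_lit 26) (.e (nat_lit 532504) (nat_lit 1) (.e (nat_lit 57852) (nat_lit 252) .nil))))))) (.g (nat_lit 5) .nil .nil)))) (.nd (nat_lit 5) 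
(.lf (nat_lit 157013) (.g (nat_lit 658) (.e (nat_lit 57417) (nat_lit 12) (.e (nat_lit 336209) (nat_lit 13) (.e (nat_lit 393300) (nat_lit 27) (.e (nat_lit 491558) (nat_lit 10) .nil)))) .nil)) 
(.lf (nat_lit 157045) (.g (nat_lit 1604) (.e (nat_lit 57418) (nat_lit 12) (.e (nat_lit 336021) (nat_lit 3) (.e (nat_lit 98365) (nat_lit 26) (.e (nat_lit 426298) (nat_lit 11) .nil)))) .nil)))) (.nd (nat_lit 4) (.nd (nat_lit 5) 
(.lf (nat_lit 157005) (.g (nat_lit 1354) (.e (nat_lit 57417) (nat_lit 12) (.e (nat_lit 336209) (nat_lit 13) (.e (nat_lit 393273) (nat_lit 23) (.e (nat_lit 426448) (nat_lit 20) (.e (nat_lit 114710) (nat_lit 21) .nil))))) .nil)) 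
(.lf (nat_lit 157037) (.g (nat_lit 2340) (.e (nat_lit 57418) (nat_lit 12) (.e (nat_lit 336004) (nat_lit 2) (.e (nat_lit 90176) (nat_lit 15) (.e (nat_lit 188450) (nat_lit 23) (.e (nat_lit 204821) (nat_lit 17) .nil))))) .nil))) (.nd (nat_lit 5) 
(.lf (nat_lit 157021) (.g (nat_lit 1898) (.e (nat_lit 57417) (nat_lit 12) (.e (nat_lit 336235) (nat_lit 14) (.e (nat_lit 401437) (nat_lit 9) (.e (nat_lit 426546) (nat_lit 30) .nil)))) .nil)) 
(.lf (nat_lit 157053) (.g (nat_lit 696) (.e (nat_lit 57418) (nat_lit 12) (.e (nat_lit 336194) (nat_lit 12) (.e (nat_lit 385096) (nat_lit 49) .nil))) .nil)))))) (.nd (nat_lit 2) (.nd (nat_lit 3) (.nd (nat_lit 4) (.nd (nat_lit 5) 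
(.lf (nat_lit 156995) (.g (nat_lit 2462) (.e (nat_lit 57417) (nat_lit 12) (.e (nat_lit 336206) (nat_lit 12) (.e (nat_lit 385106) (nat_lit 50) (.e (nat_lit 786483) (nat_lit 30) (.e (nat_lit 360457) (nat_lit 0) (.e (nat_lit 5948) (nat_lit 322) .nil)))))) (.g (nat_lit 5) .nil .nil))) 
(.lf (nat_lit 157027) (.g (nat_lit 4401) (.e (nat_lit 57417) (nat_lit 12) (.e (nat_lit 336390) (nat_lit 27) (.e (nat_lit 426500) (nat_lit 27) (.e (nat_lit 336194) (nat_lit 12) (.e (nat_lit 385068) (nat_lit 26) (.e (nat_lit 532504) (nat_lit 1) (.e (nat_lit 57852) (nat_lit 252) .nil))))))) (.g (nat_lit 7) .nil .nil)))) (.nd (nat_lit 5) 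
(.lf (nat_lit 157011) (.g (nat_lit 1273) (.e (nat_lit 57417) (nat_lit 12) (.e (nat_lit 336209) (nat_lit 13) (.e (nat_lit 393298) (nat_lit 27) (.e (nat_lit 491558) (nat_lit 10) .nil)))) .nil)) 
(.lf (nat_lit 157043) (.g (nat_lit 2232) (.e (nat_lit 57418) (nat_lit 12) (.e (nat_lit 336012) (nat_lit 2) (.e (nat_lit 90176) (nat_lit 15) (.e (nat_lit 188450) (nat_lit 23) (.e (nat_lit 204830) (nat_lit 18) (.e (nat_lit 65280) (nat_lit 223) .nil)))))) (.g (nat_lit 4) .nil .nil))))) (.nd (nat_lit 4) (.nd (nat_lit 5) 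
(.lf (nat_lit 157003) (.g (nat_lit 3059) (.e (nat_lit 57417) (nat_lit 12) (.e (nat_lit 336209) (nat_lit 13) (.e (nat_lit 393270) (nat_lit 23) (.e (nat_lit 426448) (nat_lit 20) (.e (nat_lit 114710) (nat_lit 21) (.e (nat_lit 57847) (nat_lit 252) .nil)))))) (.g (nat_lit 0) .nil .nil))) 
(.lf (nat_lit 157035) (.g (nat_lit 2421) (.e (nat_lit 57418) (nat_lit 12) (.e (nat_lit 336004) (nat_lit 2) (.e (nat_lit 90176) (nat_lit 15) (.e (nat_lit 188450) (nat_lit 23) (.e (nat_lit 212736) (nat_lit 1) .nil))))) .nil))) (.nd (nat_lit 5) 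
(.lf (nat_lit 157019) (.g (nat_lit 1774) (.e (nat_lit 57417) (nat_lit 12) (.e (nat_lit 336235) (nat_lit 14) (.e (nat_lit 401437) (nat_lit 9) (.e (nat_lit 426544) (nat_lit 30) .nil)))) .nil)) 
(.lf (nat_lit 157051) (.g (nat_lit 808) (.e (nat_lit 57418) (nat_lit 12) (.e (nat_lit 336194) (nat_lit 12) (.e (nat_lit 385063) (nat_lit 25) .nil))) .nil))))) (.nd (nat_lit 3) (.nd (nat_lit 4) (.nd (nat_lit 5) 
(.lf (nat_lit 156999) (.g (nat_lit 2752) (.e (nat_lit 57417) (nat_lit 12) (.e (nat_lit 336209) (nat_lit 13) (.e (nat_lit 393234) (nat_lit 17) (.e (nat_lit 7593) (nat_lit 407) (.e (nat_lit 73731) (nat_lit 0) (.e (nat_lit 7266) (nat_lit 384) .nil)))))) (.g (nat_lit 6) .nil .nil))) 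
(.lf (nat_lit 157031) (.g (nat_lit 2012) (.e (nat_lit 57417) (nat_lit 12) (.e (nat_lit 336390) (nat_lit 27) (.e (nat_lit 426523) (nat_lit 27) (.e (nat_lit 336194) (nat_lit 12) (.e (nat_lit 385066) (nat_lit 26) (.e (nat_lit 532501) (nat_lit 1) (.e (nat_lit 57852) (nat_lit 252) .nil))))))) (.g (nat_lit 4) .nil .nil)))) (.nd (nat_lit 5) 
(.lf (nat_lit 157015) (.g (nat_lit 3295) (.e (nat_lit 57417) (nat_lit 12) (.e (nat_lit 336209) (nat_lit 13) (.e (nat_lit 393300) (nat_lit 27) (.e (nat_lit 491560) (nat_lit 10) (.e (nat_lit 344096) (nat_lit 18) (.e (nat_lit 7266) (nat_lit 384) .nil)))))) (.g (nat_lit 0) .nil .nil))) 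
(.lf (nat_lit 157047) (.g (nat_lit 1879) (.e (nat_lit 57418) (nat_lit 12) (.e (nat_lit 336027) (nat_lit 3) (.e (nat_lit 98372) (nat_lit 29) (.e (nat_lit 450586) (nat_lit 10) .nil)))) .nil)))) (.nd (nat_lit 4) (.nd (nat_lit 5) 
(.lf (nat_lit 157007) (.g (nat_lit 2537) (.e (nat_lit 57417) (nat_lit 12) (.e (nat_lit 336209) (nat_lit 13) (.e (nat_lit 393293) (nat_lit 26) (.e (nat_lit 475212) (nat_lit 42) (.e (nat_lit 720931) (nat_lit 21) (.e (nat_lit 57852) (nat_lit 252) .nil)))))) (.g (nat_lit 0) .nil .nil))) 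
(.lf (nat_lit 157039) (.g (nat_lit 3953) (.e (nat_lit 57418) (nat_lit 12) (.e (nat_lit 336011) (nat_lit 2) (.e (nat_lit 90170) (nat_lit 13) (.e (nat_lit 172106) (nat_lit 10) (.e (nat_lit 434231) (nat_lit 23) (.e (nat_lit 540416) (nat_lit 18) (.e (nat_lit 164182) (nat_lit 154) .nil))))))) (.g (nat_lit 5) .nil .nil)))) (.nd (nat_lit 5) 
(.lf (nat_lit 157023) (.g (nat_lit 1907) (.e (nat_lit 57417) (nat_lit 12) (.e (nat_lit 336235) (nat_lit 14) (.e (nat_lit 401438) (nat_lit 9) (.e (nat_lit 426542) (nat_lit 29) .nil)))) .nil)) 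
(.lf (nat_lit 157055) (.g (nat_lit 1753) (.e (nat_lit 57418) (nat_lit 12) (.e (nat_lit 336194) (nat_lit 12) (.e (nat_lit 385105) (nat_lit 50) (.e (nat_lit 786483) (nat_lit 30) .nil)))) .nil))))))))

noncomputable def tv2102 : DT := (.nd (nat_lit 0) (.nd (nat_lit 1) (.nd (nat_lit 2) (.nd (nat_lit 3) (.nd (nat_lit 4) (.nd (nat_lit 5) (.nd (nat_lit 6) 
(.lf (nat_lit 157056) (.g (nat_lit 829) (.e (nat_lit 57418) (nat_lit 12) (.e (nat_lit 336194) (nat_lit 12) (.e (nat_lit 385106) (nat_lit 50) .nil))) .nil)) 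
(.lf (nat_lit 157120) (.g (nat_lit 3685) (.e (nat_lit 57419) (nat_lit 12) (.e (nat_lit 336021) (nat_lit 3) (.e (nat_lit 98372) (nat_lit 29) (.e (nat_lit 450588) (nat_lit 10) (.e (nat_lit 573475) (nat_lit 12) (.e (nat_lit 57347) (nat_lit 0) (.e (nat_lit 7266) (nat_lit 384) .nil))))))) (.g (nat_lit 4) .nil .nil)))) (.nd (nat_lit 6) 
(.lf (nat_lit 157088) (.g (nat_lit 1814) (.e (nat_lit 57418) (nat_lit 12) (.e (nat_lit 336223) (nat_lit 13) (.e (nat_lit 393234) (nat_lit 17) (.e (nat_lit 7591) (nat_lit 407) .nil)))) .nil)) 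
(.lf (nat_lit 157152) (.g (nat_lit 2501) (.e (nat_lit 57419) (nat_lit 12) (.e (nat_lit 336194) (nat_lit 12) (.e (nat_lit 385103) (nat_lit 50) (.e (nat_lit 786480) (nat_lit 29) (.e (nat_lit 352318) (nat_lit 24) (.e (nat_lit 123196) (nat_lit 266) .nil)))))) (.g (nat_lit 5) .nil .nil))))) (.nd (nat_lit 5) (.nd (nat_lit 6) 
(.lf (nat_lit 157072) (.g (nat_lit 1165) (.e (nat_lit 57418) (nat_lit 12) (.e (nat_lit 336213) (nat_lit 13) (.e (nat_lit 393298) (nat_lit 27) .nil))) .nil)) 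
(.lf (nat_lit 157136) (.g (nat_lit 3580) (.e (nat_lit 57419) (nat_lit 12) (.e (nat_lit 336186) (nat_lit 11) (.e (nat_lit 368676) (nat_lit 21) (.e (nat_lit 516183) (nat_lit 16) (.e (nat_lit 491566) (nat_lit 12) (.e (nat_lit 385045) (nat_lit 21) (.e (nat_lit 4284) (nat_lit 253) .nil))))))) (.g (nat_lit 5) .nil .nil)))) (.nd (nat_lit 6) 
(.lf (nat_lit 157104) (.g (nat_lit 1818) (.e (nat_lit 57419) (nat_lit 12) (.e (nat_lit 336011) (nat_lit 2) (.e (nat_lit 90170) (nat_lit 13) (.e (nat_lit 172079) (nat_lit 7) (.e (nat_lit 409611) (nat_lit 10) .nil))))) .nil)) 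
(.lf (nat_lit 157168) (.g (nat_lit 1136) (.e (nat_lit 57419) (nat_lit 12) (.e (nat_lit 336194) (nat_lit 12) (.e (nat_lit 385106) (nat_lit 50) (.e (nat_lit 786478) (nat_lit 29) .nil)))) .nil))))) (.nd (nat_lit 4) (.nd (nat_lit 5) (.nd (nat_lit 6) 
(.lf (nat_lit 157064) (.g (nat_lit 986) (.e (nat_lit 57418) (nat_lit 12) (.e (nat_lit 336213) (nat_lit 13) (.e (nat_lit 393270) (nat_lit 23) .nil))) .nil)) 
(.lf (nat_lit 157128) (.g (nat_lit 1025) (.e (nat_lit 57419) (nat_lit 12) (.e (nat_lit 336076) (nat_lit 9) (.e (nat_lit 336423) (nat_lit 28) (.e (nat_lit 442112) (nat_lit 5) .nil)))) .nil))) (.nd (nat_lit 6) 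
(.lf (nat_lit 157096) (.g (nat_lit 1522) (.e (nat_lit 57419) (nat_lit 12) (.e (nat_lit 335988) (nat_lit 1) (.e (nat_lit 57854) (nat_lit 252) (.e (nat_lit 57364) (nat_lit 1) .nil)))) .nil)) 
(.lf (nat_lit 157160) (.g (nat_lit 3720) (.e (nat_lit 57419) (nat_lit 12) (.e (nat_lit 336194) (nat_lit 12) (.e (nat_lit 385105) (nat_lit 50) (.e (nat_lit 786478) (nat_lit 29) (.e (nat_lit 352318) (nat_lit 24) (.e (nat_lit 123197) (nat_lit 266) .nil)))))) (.g (nat_lit 0) .nil .nil))))) (.nd (nat_lit 5) (.nd (nat_lit 6) 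
(.lf (nat_lit 157080) (.g (nat_lit 2207) (.e (nat_lit 57418) (nat_lit 12) (.e (nat_lit 336222) (nat_lit 13) (.e (nat_lit 393260) (nat_lit 21) (.e (nat_lit 409646) (nat_lit 18) (.e (nat_lit 303114) (nat_lit 1) .nil))))) .nil)) 
(.lf (nat_lit 157144) (.g (nat_lit 1557) (.e (nat_lit 57419) (nat_lit 12) (.e (nat_lit 336194) (nat_lit 12) (.e (nat_lit 385093) (nat_lit 49) (.e (nat_lit 778327) (nat_lit 6) (.e (nat_lit 81957) (nat_lit 24) (.e (nat_lit 123198) (nat_lit 266) .nil)))))) (.g (nat_lit 4) .nil .nil)))) (.nd (nat_lit 6) 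
(.lf (nat_lit 157112) (.g (nat_lit 2926) (.e (nat_lit 57419) (nat_lit 12) (.e (nat_lit 336021) (nat_lit 3) (.e (nat_lit 98356) (nat_lit 26) (.e (nat_lit 426422) (nat_lit 16) (.e (nat_lit 57686) (nat_lit 156) .nil))))) .nil)) 
(.lf (nat_lit 157176) (.g (nat_lit 531) (.e (nat_lit 57419) (nat_lit 12) (.e (nat_lit 336203) (nat_lit 12) (.e (nat_lit 385102) (nat_lit 50) .nil))) .nil)))))) (.nd (nat_lit 3) (.nd (nat_lit 4) (.nd (nat_lit 5) (.nd (nat_lit 6) 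
(.lf (nat_lit 157060) (.g (nat_lit 1228) (.e (nat_lit 57418) (nat_lit 12) (.e (nat_lit 336213) (nat_lit 13) (.e (nat_lit 393233) (nat_lit 17) (.e (nat_lit 7591) (nat_lit 407) .nil)))) .nil)) 
(.lf (nat_lit 157124) (.g (nat_lit 3573) (.e (nat_lit 57419) (nat_lit 12) (.e (nat_lit 336027) (nat_lit 3) (.e (nat_lit 98373) (nat_lit 29) (.e (nat_lit 450587) (nat_lit 10) (.e (nat_lit 573473) (nat_lit 12) .nil))))) .nil))) (.nd (nat_lit 6) 
(.lf (nat_lit 157092) (.g (nat_lit 1876) (.e (nat_lit 57418) (nat_lit 12) (.e (nat_lit 336223) (nat_lit 13) (.e (nat_lit 393301) (nat_lit 27) (.e (nat_lit 491560) (nat_lit 10) .nil)))) .nil)) 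
(.lf (nat_lit 157156) (.g (nat_lit 1875) (.e (nat_lit 57419) (nat_lit 12) (.e (nat_lit 336194) (nat_lit 12) (.e (nat_lit 385104) (nat_lit 50) (.e (nat_lit 786480) (nat_lit 29) (.e (nat_lit 352318) (nat_lit 24) (.e (nat_lit 123198) (nat_lit 266) .nil)))))) (.g (nat_lit 4) .nil .nil))))) (.nd (nat_lit 5) (.nd (nat_lit 6) 
(.lf (nat_lit 157076) (.g (nat_lit 1420) (.e (nat_lit 57418) (nat_lit 12) (.e (nat_lit 336213) (nat_lit 13) (.e (nat_lit 393300) (nat_lit 27) (.e (nat_lit 491560) (nat_lit 10) .nil)))) .nil)) 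
(.lf (nat_lit 157140) (.g (nat_lit 1905) (.e (nat_lit 57419) (nat_lit 12) (.e (nat_lit 336194) (nat_lit 12) (.e (nat_lit 385093) (nat_lit 49) (.e (nat_lit 778326) (nat_lit 6) (.e (nat_lit 81957) (nat_lit 24) .nil))))) .nil))) (.nd (nat_lit 6) 
(.lf (nat_lit 157108) (.g (nat_lit 1678) (.e (nat_lit 57419) (nat_lit 12) (.e (nat_lit 336012) (nat_lit 2) (.e (nat_lit 90174) (nat_lit 14) (.e (nat_lit 188160) (nat_lit 33) .nil)))) .nil)) 
(.lf (nat_lit 157172) (.g (nat_lit 2099) (.e (nat_lit 57419) (nat_lit 12) (.e (nat_lit 336194) (nat_lit 12) (.e (nat_lit 385106) (nat_lit 50) (.e (nat_lit 786480) (nat_lit 29) (.e (nat_lit 352316) (nat_lit 24) (.e (nat_lit 123197) (nat_lit 266) .nil)))))) (.g (nat_lit 4) .nil .nil)))))) (.nd (nat_lit 4) (.nd (nat_lit 5) (.nd (nat_lit 6) 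
(.lf (nat_lit 157068) (.g (nat_lit 2121) (.e (nat_lit 57418) (nat_lit 12) (.e (nat_lit 336213) (nat_lit 13) (.e (nat_lit 393273) (nat_lit 23) (.e (nat_lit 426446) (nat_lit 20) (.e (nat_lit 114711) (nat_lit 21) .nil))))) .nil)) 
(.lf (nat_lit 157132) (.g (nat_lit 755) (.e (nat_lit 57419) (nat_lit 12) (.e (nat_lit 336076) (nat_lit 9) (.e (nat_lit 336438) (nat_lit 31) (.e (nat_lit 466688) (nat_lit 5) .nil)))) .nil))) (.nd (nat_lit 6) 
(.lf (nat_lit 157100) (.g (nat_lit 1966) (.e (nat_lit 57419) (nat_lit 12) (.e (nat_lit 336004) (nat_lit 2) (.e (nat_lit 90172) (nat_lit 14) (.e (nat_lit 180285) (nat_lit 45) (.e (nat_lit 2422) (nat_lit 157) .nil))))) .nil)) 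
(.lf (nat_lit 157164) (.g (nat_lit 3603) (.e (nat_lit 57419) (nat_lit 12) (.e (nat_lit 336194) (nat_lit 12) (.e (nat_lit 385105) (nat_lit 50) (.e (nat_lit 786480) (nat_lit 29) (.e (nat_lit 352318) (nat_lit 24) (.e (nat_lit 123197) (nat_lit 266) .nil)))))) (.g (nat_lit 0) .nil .nil))))) (.nd (nat_lit 5) (.nd (nat_lit 6) 
(.lf (nat_lit 157084) (.g (nat_lit 1780) (.e (nat_lit 57418) (nat_lit 12) (.e (nat_lit 336222) (nat_lit 13) (.e (nat_lit 393260) (nat_lit 21) (.e (nat_lit 409649) (nat_lit 18) (.e (nat_lit 303115) (nat_lit 1) .nil))))) .nil)) 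
(.lf (nat_lit 157148) (.g (nat_lit 1768) (.e (nat_lit 57419) (nat_lit 12) (.e (nat_lit 336194) (nat_lit 12) (.e (nat_lit 385094) (nat_lit 49) (.e (nat_lit 778327) (nat_lit 6) (.e (nat_lit 81959) (nat_lit 24) (.e (nat_lit 123196) (nat_lit 266) .nil)))))) (.g (nat_lit 5) .nil .nil)))) (.nd (nat_lit 6) 
(.lf (nat_lit 157116) (.g (nat_lit 1926) (.e (nat_lit 57419) (nat_lit 12) (.e (nat_lit 336021) (nat_lit 3) (.e (nat_lit 98372) (nat_lit 29) (.e (nat_lit 450586) (nat_lit 10) .nil)))) .nil)) 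
(.lf (nat_lit 157180) (.g (nat_lit 1760) (.e (nat_lit 57419) (nat_lit 12) (.e (nat_lit 336213) (nat_lit 13) (.e (nat_lit 393232) (nat_lit 17) (.e (nat_lit 7591) (nat_lit 407) (.e (nat_lit 73731) (nat_lit 0) .nil))))) .nil))))))) (.nd (nat_lit 2) (.nd (nat_lit 3) (.nd (nat_lit 4) (.nd (nat_lit 5) (.nd (nat_lit 6) 
(.lf (nat_lit 157058) (.g (nat_lit 1176) (.e (nat_lit 57418) (nat_lit 12) (.e (nat_lit 336213) (nat_lit 13) (.e (nat_lit 393232) (nat_lit 17) .nil))) .nil)) 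
(.lf (nat_lit 157122) (.g (nat_lit 4054) (.e (nat_lit 57419) (nat_lit 12) (.e (nat_lit 336021) (nat_lit 3) (.e (nat_lit 98373) (nat_lit 29) (.e (nat_lit 450588) (nat_lit 10) (.e (nat_lit 573475) (nat_lit 12) .nil))))) .nil))) (.nd (nat_lit 6) 
(.lf (nat_lit 157090) (.g (nat_lit 910) (.e (nat_lit 57418) (nat_lit 12) (.e (nat_lit 336223) (nat_lit 13) (.e (nat_lit 393301) (nat_lit 27) .nil))) .nil)) 
(.lf (nat_lit 157154) (.g (nat_lit 1842) (.e (nat_lit 57419) (nat_lit 12) (.e (nat_lit 336194) (nat_lit 12) (.e (nat_lit 385104) (nat_lit 50) (.e (nat_lit 786478) (nat_lit 29) (.e (nat_lit 352318) (nat_lit 24) .nil))))) .nil)))) (.nd (nat_lit 5) (.nd (nat_lit 6) 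
(.lf (nat_lit 157074) (.g (nat_lit 1432) (.e (nat_lit 57418) (nat_lit 12) (.e (nat_lit 336213) (nat_lit 13) (.e (nat_lit 393300) (nat_lit 27) (.e (nat_lit 491558) (nat_lit 10) .nil)))) .nil)) 
(.lf (nat_lit 157138) (.g (nat_lit 2115) (.e (nat_lit 57419) (nat_lit 12) (.e (nat_lit 336194) (nat_lit 12) (.e (nat_lit 385063) (nat_lit 25) (.e (nat_lit 524322) (nat_lit 12) (.e (nat_lit 450563) (nat_lit 0) (.e (nat_lit 6828) (nat_lit 367) .nil)))))) (.g (nat_lit 6) .nil .nil)))) (.nd (nat_lit 6) 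
(.lf (nat_lit 157106) (.g (nat_lit 557) (.e (nat_lit 57419) (nat_lit 12) (.e (nat_lit 336012) (nat_lit 2) (.e (nat_lit 90172) (nat_lit 14) .nil))) .nil)) 
(.lf (nat_lit 157170) (.g (nat_lit 1420) (.e (nat_lit 57419) (nat_lit 12) (.e (nat_lit 336194) (nat_lit 12) (.e (nat_lit 385106) (nat_lit 50) (.e (nat_lit 786479) (nat_lit 29) .nil)))) .nil))))) (.nd (nat_lit 4) (.nd (nat_lit 5) (.nd (nat_lit 6) 
(.lf (nat_lit 157066) (.g (nat_lit 2131) (.e (nat_lit 57418) (nat_lit 12) (.e (nat_lit 336213) (nat_lit 13) (.e (nat_lit 393270) (nat_lit 23) (.e (nat_lit 426448) (nat_lit 20) (.e (nat_lit 114710) (nat_lit 21) (.e (nat_lit 57847) (nat_lit 252) .nil)))))) (.g (nat_lit 4) .nil .nil))) 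
(.lf (nat_lit 157130) (.g (nat_lit 589) (.e (nat_lit 57419) (nat_lit 12) (.e (nat_lit 336076) (nat_lit 9) (.e (nat_lit 336431) (nat_lit 29) .nil))) .nil))) (.nd (nat_lit 6) 
(.lf (nat_lit 157098) (.g (nat_lit 615) (.e (nat_lit 57419) (nat_lit 12) (.e (nat_lit 336004) (nat_lit 2) (.e (nat_lit 90172) (nat_lit 14) .nil))) .nil)) 
(.lf (nat_lit 157162) (.g (nat_lit 2547) (.e (nat_lit 57419) (nat_lit 12) (.e (nat_lit 336194) (nat_lit 12) (.e (nat_lit 385105) (nat_lit 50) (.e (nat_lit 786480) (nat_lit 29) (.e (nat_lit 352316) (nat_lit 24) (.e (nat_lit 123197) (nat_lit 266) .nil)))))) (.g (nat_lit 4) .nil .nil))))) (.nd (nat_lit 5) (.nd (nat_lit 6) 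
(.lf (nat_lit 157082) (.g (nat_lit 1809) (.e (nat_lit 57418) (nat_lit 12) (.e (nat_lit 336222) (nat_lit 13) (.e (nat_lit 393260) (nat_lit 21) (.e (nat_lit 409648) (nat_lit 18) (.e (nat_lit 303114) (nat_lit 1) .nil))))) .nil)) 
(.lf (nat_lit 157146) (.g (nat_lit 1558) (.e (nat_lit 57419) (nat_lit 12) (.e (nat_lit 336194) (nat_lit 12) (.e (nat_lit 385093) (nat_lit 49) (.e (nat_lit 778327) (nat_lit 6) (.e (nat_lit 81959) (nat_lit 24) (.e (nat_lit 123198) (nat_lit 266) .nil)))))) (.g (nat_lit 4) .nil .nil)))) (.nd (nat_lit 6) 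
(.lf (nat_lit 157114) (.g (nat_lit 1497) (.e (nat_lit 57419) (nat_lit 12) (.e (nat_lit 336021) (nat_lit 3) (.e (nat_lit 98365) (nat_lit 26) (.e (nat_lit 426298) (nat_lit 11) .nil)))) .nil)) 
(.lf (nat_lit 157178) (.g (nat_lit 2101) (.e (nat_lit 57419) (nat_lit 12) (.e (nat_lit 336213) (nat_lit 13) (.e (nat_lit 393232) (nat_lit 17) (.e (nat_lit 7591) (nat_lit 407) (.e (nat_lit 73729) (nat_lit 0) (.e (nat_lit 7265) (nat_lit 384) .nil)))))) (.g (nat_lit 4) .nil .nil))))))) (.nd (nat_lit 3) (.nd (nat_lit 4) (.nd (nat_lit 5) (.nd (nat_lit 6) 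
(.lf (nat_lit 157062) (.g (nat_lit 1177) (.e (nat_lit 57418) (nat_lit 12) (.e (nat_lit 336213) (nat_lit 13) (.e (nat_lit 393269) (nat_lit 23) .nil))) .nil)) 
(.lf (nat_lit 157126) (.g (nat_lit 781) (.e (nat_lit 57419) (nat_lit 12) (.e (nat_lit 336074) (nat_lit 9) (.e (nat_lit 336430) (nat_lit 29) (.e (nat_lit 450304) (nat_lit 5) .nil)))) .nil))) (.nd (nat_lit 6) 
(.lf (nat_lit 157094) (.g (nat_lit 2099) (.e (nat_lit 57419) (nat_lit 12) (.e (nat_lit 335986) (nat_lit 1) (.e (nat_lit 57847) (nat_lit 252) (.e (nat_lit 57363) (nat_lit 1) .nil)))) .nil)) 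
(.lf (nat_lit 157158) (.g (nat_lit 1545) (.e (nat_lit 57419) (nat_lit 12) (.e (nat_lit 336194) (nat_lit 12) (.e (nat_lit 385105) (nat_lit 50) (.e (nat_lit 786478) (nat_lit 29) .nil)))) .nil)))) (.nd (nat_lit 5) (.nd (nat_lit 6) 
(.lf (nat_lit 157078) (.g (nat_lit 1617) (.e (nat_lit 57418) (nat_lit 12) (.e (nat_lit 336222) (nat_lit 13) (.e (nat_lit 393260) (nat_lit 21) (.e (nat_lit 409643) (nat_lit 18) (.e (nat_lit 303115) (nat_lit 1) .nil))))) .nil)) 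
(.lf (nat_lit 157142) (.g (nat_lit 1835) (.e (nat_lit 57419) (nat_lit 12) (.e (nat_lit 336194) (nat_lit 12) (.e (nat_lit 385093) (nat_lit 49) (.e (nat_lit 778326) (nat_lit 6) (.e (nat_lit 81959) (nat_lit 24) .nil))))) .nil))) (.nd (nat_lit 6) 
(.lf (nat_lit 157110) (.g (nat_lit 2028) (.e (nat_lit 57419) (nat_lit 12) (.e (nat_lit 336012) (nat_lit 2) (.e (nat_lit 90176) (nat_lit 15) (.e (nat_lit 188450) (nat_lit 23) (.e (nat_lit 212736) (nat_lit 1) .nil))))) .nil)) 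
(.lf (nat_lit 157174) (.g (nat_lit 3053) (.e (nat_lit 57419) (nat_lit 12) (.e (nat_lit 336194) (nat_lit 12) (.e (nat_lit 385106) (nat_lit 50) (.e (nat_lit 786480) (nat_lit 29) (.e (nat_lit 352318) (nat_lit 24) (.e (nat_lit 123197) (nat_lit 266) .nil)))))) (.g (nat_lit 6) .nil .nil)))))) (.nd (nat_lit 4) (.nd (nat_lit 5) (.nd (nat_lit 6) 
(.lf (nat_lit 157070) (.g (nat_lit 774) (.e (nat_lit 57418) (nat_lit 12) (.e (nat_lit 336213) (nat_lit 13) (.e (nat_lit 393296) (nat_lit 26) .nil))) .nil)) 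
(.lf (nat_lit 157134) (.g (nat_lit 894) (.e (nat_lit 57419) (nat_lit 12) (.e (nat_lit 336077) (nat_lit 9) (.e (nat_lit 336430) (nat_lit 29) (.e (nat_lit 450304) (nat_lit 5) .nil)))) .nil))) (.nd (nat_lit 6) 
(.lf (nat_lit 157102) (.g (nat_lit 2222) (.e (nat_lit 57419) (nat_lit 12) (.e (nat_lit 336004) (nat_lit 2) (.e (nat_lit 90176) (nat_lit 15) (.e (nat_lit 188450) (nat_lit 23) (.e (nat_lit 212736) (nat_lit 1) .nil))))) .nil)) 
(.lf (nat_lit 157166) (.g (nat_lit 1442) (.e (nat_lit 57419) (nat_lit 12) (.e (nat_lit 336194) (nat_lit 12) (.e (nat_lit 385105) (nat_lit 50) (.e (nat_lit 786481) (nat_lit 30) .nil)))) .nil)))) (.nd (nat_lit 5) (.nd (nat_lit 6) 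
(.lf (nat_lit 157086) (.g (nat_lit 1781) (.e (nat_lit 57418) (nat_lit 12) (.e (nat_lit 336222) (nat_lit 13) (.e (nat_lit 393260) (nat_lit 21) (.e (nat_lit 409649) (nat_lit 18) (.e (nat_lit 303115) (nat_lit 1) (.e (nat_lit 164181) (nat_lit 154) .nil)))))) (.g (nat_lit 4) .nil .nil))) 
(.lf (nat_lit 157150) (.g (nat_lit 1870) (.e (nat_lit 57419) (nat_lit 12) (.e (nat_lit 336194) (nat_lit 12) (.e (nat_lit 385102) (nat_lit 50) (.e (nat_lit 786480) (nat_lit 29) (.e (nat_lit 352318) (nat_lit 24) (.e (nat_lit 123196) (nat_lit 266) .nil)))))) (.g (nat_lit 4) .nil .nil)))) (.nd (nat_lit 6) 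
(.lf (nat_lit 157118) (.g (nat_lit 3490) (.e (nat_lit 57419) (nat_lit 12) (.e (nat_lit 336021) (nat_lit 3) (.e (nat_lit 98372) (nat_lit 29) (.e (nat_lit 450588) (nat_lit 10) (.e (nat_lit 573473) (nat_lit 12) .nil))))) .nil)) 
(.lf (nat_lit 157182) (.g (nat_lit 2008) (.e (nat_lit 57419) (nat_lit 12) (.e (nat_lit 336213) (nat_lit 13) (.e (nat_lit 393232) (nat_lit 17) (.e (nat_lit 7593) (nat_lit 407) (.e (nat_lit 73730) (nat_lit 0) .nil))))) .nil)))))))) (.nd (nat_lit 1) (.nd (nat_lit 2) (.nd (nat_lit 3) (.nd (nat_lit 4) (.nd (nat_lit 5) (.nd (nat_lit 6) 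
(.lf (nat_lit 157057) (.g (nat_lit 1779) (.e (nat_lit 57418) (nat_lit 12) (.e (nat_lit 336194) (nat_lit 12) (.e (nat_lit 385106) (nat_lit 50) (.e (nat_lit 786483) (nat_lit 30) .nil)))) .nil)) 
(.lf (nat_lit 157121) (.g (nat_lit 4175) (.e (nat_lit 57419) (nat_lit 12) (.e (nat_lit 336021) (nat_lit 3) (.e (nat_lit 98373) (nat_lit 29) (.e (nat_lit 450588) (nat_lit 10) (.e (nat_lit 573473) (nat_lit 12) .nil))))) .nil))) (.nd (nat_lit 6) 
(.lf (nat_lit 157089) (.g (nat_lit 1796) (.e (nat_lit 57418) (nat_lit 12) (.e (nat_lit 336223) (nat_lit 13) (.e (nat_lit 393234) (nat_lit 17) (.e (nat_lit 7593) (nat_lit 407) .nil)))) .nil)) 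
(.lf (nat_lit 157153) (.g (nat_lit 633) (.e (nat_lit 57419) (nat_lit 12) (.e (nat_lit 336194) (nat_lit 12) (.e (nat_lit 385104) (nat_lit 50) .nil))) .nil)))) (.nd (nat_lit 5) (.nd (nat_lit 6) 
(.lf (nat_lit 157073) (.g (nat_lit 1112) (.e (nat_lit 57418) (nat_lit 12) (.e (nat_lit 336213) (nat_lit 13) (.e (nat_lit 393299) (nat_lit 27) .nil))) .nil)) 
(.lf (nat_lit 157137) (.g (nat_lit 531) (.e (nat_lit 57419) (nat_lit 12) (.e (nat_lit 336194) (nat_lit 12) (.e (nat_lit 385063) (nat_lit 25) .nil))) .nil))) (.nd (nat_lit 6) 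
(.lf (nat_lit 157105) (.g (nat_lit 2814) (.e (nat_lit 57419) (nat_lit 12) (.e (nat_lit 336011) (nat_lit 2) (.e (nat_lit 90170) (nat_lit 13) (.e (nat_lit 172082) (nat_lit 7) .nil)))) .nil)) 
(.lf (nat_lit 157169) (.g (nat_lit 2753) (.e (nat_lit 57419) (nat_lit 12) (.e (nat_lit 336194) (nat_lit 12) (.e (nat_lit 385106) (nat_lit 50) (.e (nat_lit 786478) (nat_lit 29) (.e (nat_lit 352318) (nat_lit 24) (.e (nat_lit 123196) (nat_lit 266) .nil)))))) (.g (nat_lit 5) .nil .nil)))))) (.nd (nat_lit 4) (.nd (nat_lit 5) (.nd (nat_lit 6) 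
(.lf (nat_lit 157065) (.g (nat_lit 1404) (.e (nat_lit 57418) (nat_lit 12) (.e (nat_lit 336213) (nat_lit 13) (.e (nat_lit 393270) (nat_lit 23) (.e (nat_lit 426446) (nat_lit 20) .nil)))) .nil)) 
(.lf (nat_lit 157129) (.g (nat_lit 1179) (.e (nat_lit 57419) (nat_lit 12) (.e (nat_lit 336076) (nat_lit 9) (.e (nat_lit 336426) (nat_lit 29) (.e (nat_lit 450304) (nat_lit 5) .nil)))) .nil))) (.nd (nat_lit 6) 
(.lf (nat_lit 157097) (.g (nat_lit 1857) (.e (nat_lit 57419) (nat_lit 12) (.e (nat_lit 336003) (nat_lit 2) (.e (nat_lit 90176) (nat_lit 15) (.e (nat_lit 188450) (nat_lit 23) (.e (nat_lit 204821) (nat_lit 17) (.e (nat_lit 7936) (nat_lit 81) (.e (nat_lit 4527) (nat_lit 265) .nil))))))) (.g (nat_lit 4) .nil .nil))) 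
(.lf (nat_lit 157161) (.g (nat_lit 3423) (.e (nat_lit 57419) (nat_lit 12) (.e (nat_lit 336194) (nat_lit 12) (.e (nat_lit 385105) (nat_lit 50) (.e (nat_lit 786478) (nat_lit 29) (.e (nat_lit 352318) (nat_lit 24) (.e (nat_lit 123198) (nat_lit 266) .nil)))))) (.g (nat_lit 0) .nil .nil))))) (.nd (nat_lit 5) (.nd (nat_lit 6) 
(.lf (nat_lit 157081) (.g (nat_lit 1892) (.e (nat_lit 57418) (nat_lit 12) (.e (nat_lit 336222) (nat_lit 13) (.e (nat_lit 393260) (nat_lit 21) (.e (nat_lit 409646) (nat_lit 18) (.e (nat_lit 303115) (nat_lit 1) .nil))))) .nil)) 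
(.lf (nat_lit 157145) (.g (nat_lit 1648) (.e (nat_lit 57419) (nat_lit 12) (.e (nat_lit 336194) (nat_lit 12) (.e (nat_lit 385093) (nat_lit 49) (.e (nat_lit 778327) (nat_lit 6) (.e (nat_lit 81959) (nat_lit 24) (.e (nat_lit 123197) (nat_lit 266) .nil)))))) (.g (nat_lit 4) .nil .nil)))) (.nd (nat_lit 6) 
(.lf (nat_lit 157113) (.g (nat_lit 789) (.e (nat_lit 57419) (nat_lit 12) (.e (nat_lit 336021) (nat_lit 3) (.e (nat_lit 98365) (nat_lit 26) .nil))) .nil)) 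
(.lf (nat_lit 157177) (.g (nat_lit 873) (.e (nat_lit 57419) (nat_lit 12) (.e (nat_lit 336213) (nat_lit 13) (.e (nat_lit 393231) (nat_lit 17) .nil))) .nil)))))) (.nd (nat_lit 3) (.nd (nat_lit 4) (.nd (nat_lit 5) (.nd (nat_lit 6) 
(.lf (nat_lit 157061) (.g (nat_lit 1860) (.e (nat_lit 57418) (nat_lit 12) (.e (nat_lit 336213) (nat_lit 13) (.e (nat_lit 393233) (nat_lit 17) (.e (nat_lit 7593) (nat_lit 407) (.e (nat_lit 73729) (nat_lit 0) .nil))))) .nil)) 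
(.lf (nat_lit 157125) (.g (nat_lit 1367) (.e (nat_lit 57419) (nat_lit 12) (.e (nat_lit 336059) (nat_lit 7) (.e (nat_lit 319534) (nat_lit 16) (.e (nat_lit 286756) (nat_lit 10) .nil)))) .nil))) (.nd (nat_lit 6) 
(.lf (nat_lit 157093) (.g (nat_lit 1384) (.e (nat_lit 57419) (nat_lit 12) (.e (nat_lit 335986) (nat_lit 1) (.e (nat_lit 57655) (nat_lit 152) (.e (nat_lit 1206) (nat_lit 89) .nil)))) .nil)) 
(.lf (nat_lit 157157) (.g (nat_lit 493) (.e (nat_lit 57419) (nat_lit 12) (.e (nat_lit 336194) (nat_lit 12) (.e (nat_lit 385105) (nat_lit 50) .nil))) .nil)))) (.nd (nat_lit 5) (.nd (nat_lit 6) 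
(.lf (nat_lit 157077) (.g (nat_lit 2085) (.e (nat_lit 57418) (nat_lit 12) (.e (nat_lit 336213) (nat_lit 13) (.e (nat_lit 393301) (nat_lit 27) (.e (nat_lit 491558) (nat_lit 10) .nil)))) .nil)) 
(.lf (nat_lit 157141) (.g (nat_lit 1963) (.e (nat_lit 57419) (nat_lit 12) (.e (nat_lit 336194) (nat_lit 12) (.e (nat_lit 385093) (nat_lit 49) (.e (nat_lit 778326) (nat_lit 6) (.e (nat_lit 81957) (nat_lit 24) (.e (nat_lit 123197) (nat_lit 266) .nil)))))) (.g (nat_lit 4) .nil .nil)))) (.nd (nat_lit 6) 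
(.lf (nat_lit 157109) (.g (nat_lit 441) (.e (nat_lit 57419) (nat_lit 12) (.e (nat_lit 336012) (nat_lit 2) (.e (nat_lit 90176) (nat_lit 15) .nil))) .nil)) 
(.lf (nat_lit 157173) (.g (nat_lit 2816) (.e (nat_lit 57419) (nat_lit 12) (.e (nat_lit 336194) (nat_lit 12) (.e (nat_lit 385106) (nat_lit 50) (.e (nat_lit 786480) (nat_lit 29) (.e (nat_lit 352318) (nat_lit 24) (.e (nat_lit 123196) (nat_lit 266) .nil)))))) (.g (nat_lit 5) .nil .nil)))))) (.nd (nat_lit 4) (.nd (nat_lit 5) (.nd (nat_lit 6) 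
(.lf (nat_lit 157069) (.g (nat_lit 2316) (.e (nat_lit 57418) (nat_lit 12) (.e (nat_lit 336213) (nat_lit 13) (.e (nat_lit 393273) (nat_lit 23) (.e (nat_lit 426448) (nat_lit 20) (.e (nat_lit 114710) (nat_lit 21) .nil))))) .nil)) 
(.lf (nat_lit 157133) (.g (nat_lit 1012) (.e (nat_lit 57419) (nat_lit 12) (.e (nat_lit 336076) (nat_lit 9) (.e (nat_lit 336443) (nat_lit 32) (.e (nat_lit 474880) (nat_lit 5) .nil)))) .nil))) (.nd (nat_lit 6) 
(.lf (nat_lit 157101) (.g (nat_lit 514) (.e (nat_lit 57419) (nat_lit 12) (.e (nat_lit 336004) (nat_lit 2) (.e (nat_lit 90176) (nat_lit 15) .nil))) .nil)) 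
(.lf (nat_lit 157165) (.g (nat_lit 3122) (.e (nat_lit 57419) (nat_lit 12) (.e (nat_lit 336194) (nat_lit 12) (.e (nat_lit 385105) (nat_lit 50) (.e (nat_lit 786480) (nat_lit 29) (.e (nat_lit 352318) (nat_lit 24) (.e (nat_lit 123198) (nat_lit 266) .nil)))))) (.g (nat_lit 5) .nil .nil))))) (.nd (nat_lit 5) (.nd (nat_lit 6) 
(.lf (nat_lit 157085) (.g (nat_lit 3197) (.e (nat_lit 57418) (nat_lit 12) (.e (nat_lit 336222) (nat_lit 13) (.e (nat_lit 393260) (nat_lit 21) (.e (nat_lit 409649) (nat_lit 18) (.e (nat_lit 303115) (nat_lit 1) (.e (nat_lit 164179) (nat_lit 154) .nil)))))) (.g (nat_lit 6) .nil .nil))) 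
(.lf (nat_lit 157149) (.g (nat_lit 908) (.e (nat_lit 57419) (nat_lit 12) (.e (nat_lit 336194) (nat_lit 12) (.e (nat_lit 385100) (nat_lit 49) (.e (nat_lit 778325) (nat_lit 6) (.e (nat_lit 81959) (nat_lit 24) .nil))))) .nil))) (.nd (nat_lit 6) 
(.lf (nat_lit 157117) (.g (nat_lit 2678) (.e (nat_lit 57419) (nat_lit 12) (.e (nat_lit 336021) (nat_lit 3) (.e (nat_lit 98372) (nat_lit 29) (.e (nat_lit 450586) (nat_lit 10) (.e (nat_lit 573475) (nat_lit 12) .nil))))) .nil)) 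
(.lf (nat_lit 157181) (.g (nat_lit 2263) (.e (nat_lit 57419) (nat_lit 12) (.e (nat_lit 336213) (nat_lit 13) (.e (nat_lit 393232) (nat_lit 17) (.e (nat_lit 7591) (nat_lit 407) (.e (nat_lit 73731) (nat_lit 0) (.e (nat_lit 7266) (nat_lit 384) .nil)))))) (.g (nat_lit 4) .nil .nil)))))))) (.nd (nat_lit 2) (.nd (nat_lit 3) (.nd (nat_lit 4) (.nd (nat_lit 5) (.nd (nat_lit 6) 
(.lf (nat_lit 157059) (.g (nat_lit 856) (.e (nat_lit 57418) (nat_lit 12) (.e (nat_lit 336213) (nat_lit 13) (.e (nat_lit 393233) (nat_lit 17) .nil))) .nil)) 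
(.lf (nat_lit 157123) (.g (nat_lit 2405) (.e (nat_lit 57419) (nat_lit 12) (.e (nat_lit 336025) (nat_lit 3) (.e (nat_lit 98373) (nat_lit 29) (.e (nat_lit 450588) (nat_lit 10) (.e (nat_lit 573475) (nat_lit 12) .nil))))) .nil))) (.nd (nat_lit 6) 
(.lf (nat_lit 157091) (.g (nat_lit 2270) (.e (nat_lit 57418) (nat_lit 12) (.e (nat_lit 336223) (nat_lit 13) (.e (nat_lit 393301) (nat_lit 27) (.e (nat_lit 491558) (nat_lit 10) .nil)))) .nil)) 
(.lf (nat_lit 157155) (.g (nat_lit 1881) (.e (nat_lit 57419) (nat_lit 12) (.e (nat_lit 336194) (nat_lit 12) (.e (nat_lit 385104) (nat_lit 50) (.e (nat_lit 786480) (nat_lit 29) (.e (nat_lit 352316) (nat_lit 24) .nil))))) .nil)))) (.nd (nat_lit 5) (.nd (nat_lit 6) 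
(.lf (nat_lit 157075) (.g (nat_lit 2087) (.e (nat_lit 57418) (nat_lit 12) (.e (nat_lit 336213) (nat_lit 13) (.e (nat_lit 393300) (nat_lit 27) (.e (nat_lit 491558) (nat_lit 10) (.e (nat_lit 344096) (nat_lit 18) .nil))))) .nil)) 
(.lf (nat_lit 157139) (.g (nat_lit 950) (.e (nat_lit 57419) (nat_lit 12) (.e (nat_lit 336194) (nat_lit 12) (.e (nat_lit 385090) (nat_lit 49) (.e (nat_lit 778327) (nat_lit 6) .nil)))) .nil))) (.nd (nat_lit 6) 
(.lf (nat_lit 157107) (.g (nat_lit 1651) (.e (nat_lit 57419) (nat_lit 12) (.e (nat_lit 336012) (nat_lit 2) (.e (nat_lit 90172) (nat_lit 14) (.e (nat_lit 180283) (nat_lit 45) .nil)))) .nil)) 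
(.lf (nat_lit 157171) (.g (nat_lit 1830) (.e (nat_lit 57419) (nat_lit 12) (.e (nat_lit 336194) (nat_lit 12) (.e (nat_lit 385106) (nat_lit 50) (.e (nat_lit 786479) (nat_lit 29) (.e (nat_lit 352318) (nat_lit 24) (.e (nat_lit 123197) (nat_lit 266) .nil)))))) (.g (nat_lit 4) .nil .nil)))))) (.nd (nat_lit 4) (.nd (nat_lit 5) (.nd (nat_lit 6) 
(.lf (nat_lit 157067) (.g (nat_lit 802) (.e (nat_lit 57418) (nat_lit 12) (.e (nat_lit 336213) (nat_lit 13) (.e (nat_lit 393273) (nat_lit 23) .nil))) .nil)) 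
(.lf (nat_lit 157131) (.g (nat_lit 879) (.e (nat_lit 57419) (nat_lit 12) (.e (nat_lit 336076) (nat_lit 9) (.e (nat_lit 336436) (nat_lit 31) (.e (nat_lit 466688) (nat_lit 5) .nil)))) .nil))) (.nd (nat_lit 6) 
(.lf (nat_lit 157099) (.g (nat_lit 1647) (.e (nat_lit 57419) (nat_lit 12) (.e (nat_lit 336004) (nat_lit 2) (.e (nat_lit 90172) (nat_lit 14) (.e (nat_lit 188160) (nat_lit 33) .nil)))) .nil)) 
(.lf (nat_lit 157163) (.g (nat_lit 3379) (.e (nat_lit 57419) (nat_lit 12) (.e (nat_lit 336194) (nat_lit 12) (.e (nat_lit 385105) (nat_lit 50) (.e (nat_lit 786480) (nat_lit 29) (.e (nat_lit 352318) (nat_lit 24) (.e (nat_lit 123196) (nat_lit 266) .nil)))))) (.g (nat_lit 6) .nil .nil))))) (.nd (nat_lit 5) (.nd (nat_lit 6) 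
(.lf (nat_lit 157083) (.g (nat_lit 1962) (.e (nat_lit 57418) (nat_lit 12) (.e (nat_lit 336222) (nat_lit 13) (.e (nat_lit 393260) (nat_lit 21) (.e (nat_lit 409648) (nat_lit 18) (.e (nat_lit 303115) (nat_lit 1) (.e (nat_lit 164178) (nat_lit 154) .nil)))))) (.g (nat_lit 4) .nil .nil))) 
(.lf (nat_lit 157147) (.g (nat_lit 1929) (.e (nat_lit 57419) (nat_lit 12) (.e (nat_lit 336194) (nat_lit 12) (.e (nat_lit 385094) (nat_lit 49) (.e (nat_lit 778326) (nat_lit 6) (.e (nat_lit 81959) (nat_lit 24) (.e (nat_lit 123196) (nat_lit 266) .nil)))))) (.g (nat_lit 5) .nil .nil)))) (.nd (nat_lit 6) 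
(.lf (nat_lit 157115) (.g (nat_lit 1155) (.e (nat_lit 57419) (nat_lit 12) (.e (nat_lit 336021) (nat_lit 3) (.e (nat_lit 98372) (nat_lit 29) .nil))) .nil)) 
(.lf (nat_lit 157179) (.g (nat_lit 1755) (.e (nat_lit 57419) (nat_lit 12) (.e (nat_lit 336213) (nat_lit 13) (.e (nat_lit 393232) (nat_lit 17) (.e (nat_lit 7591) (nat_lit 407) (.e (nat_lit 73730) (nat_lit 0) .nil))))) .nil)))))) (.nd (nat_lit 3) (.nd (nat_lit 4) (.nd (nat_lit 5) (.nd (nat_lit 6) 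
(.lf (nat_lit 157063) (.g (nat_lit 1446) (.e (nat_lit 57418) (nat_lit 12) (.e (nat_lit 336213) (nat_lit 13) (.e (nat_lit 393269) (nat_lit 23) (.e (nat_lit 426448) (nat_lit 20) .nil)))) .nil)) 
(.lf (nat_lit 157127) (.g (nat_lit 929) (.e (nat_lit 57419) (nat_lit 12) (.e (nat_lit 336076) (nat_lit 9) (.e (nat_lit 336330) (nat_lit 19) (.e (nat_lit 220928) (nat_lit 6) .nil)))) .nil))) (.nd (nat_lit 6) 
(.lf (nat_lit 157095) (.g (nat_lit 1180) (.e (nat_lit 57419) (nat_lit 12) (.e (nat_lit 335988) (nat_lit 1) (.e (nat_lit 57696) (nat_lit 158) .nil))) .nil)) 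
(.lf (nat_lit 157159) (.g (nat_lit 3477) (.e (nat_lit 57419) (nat_lit 12) (.e (nat_lit 336194) (nat_lit 12) (.e (nat_lit 385105) (nat_lit 50) (.e (nat_lit 786478) (nat_lit 29) (.e (nat_lit 352318) (nat_lit 24) (.e (nat_lit 123196) (nat_lit 266) .nil)))))) (.g (nat_lit 6) .nil .nil))))) (.nd (nat_lit 5) (.nd (nat_lit 6) 
(.lf (nat_lit 157079) (.g (nat_lit 1850) (.e (nat_lit 57418) (nat_lit 12) (.e (nat_lit 336222) (nat_lit 13) (.e (nat_lit 393260) (nat_lit 21) (.e (nat_lit 409644) (nat_lit 18) (.e (nat_lit 303115) (nat_lit 1) .nil))))) .nil)) 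
(.lf (nat_lit 157143) (.g (nat_lit 1896) (.e (nat_lit 57419) (nat_lit 12) (.e (nat_lit 336194) (nat_lit 12) (.e (nat_lit 385093) (nat_lit 49) (.e (nat_lit 778327) (nat_lit 6) (.e (nat_lit 81957) (nat_lit 24) (.e (nat_lit 123197) (nat_lit 266) .nil)))))) (.g (nat_lit 5) .nil .nil)))) (.nd (nat_lit 6) 
(.lf (nat_lit 157111) (.g (nat_lit 3035) (.e (nat_lit 57419) (nat_lit 12) (.e (nat_lit 336012) (nat_lit 2) (.e (nat_lit 90176) (nat_lit 15) (.e (nat_lit 188452) (nat_lit 23) (.e (nat_lit 212736) (nat_lit 1) .nil))))) .nil)) 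
(.lf (nat_lit 157175) (.g (nat_lit 2560) (.e (nat_lit 57419) (nat_lit 12) (.e (nat_lit 336194) (nat_lit 12) (.e (nat_lit 385106) (nat_lit 50) (.e (nat_lit 786480) (nat_lit 29) (.e (nat_lit 352318) (nat_lit 24) (.e (nat_lit 123198) (nat_lit 266) .nil)))))) (.g (nat_lit 5) .nil .nil)))))) (.nd (nat_lit 4) (.nd (nat_lit 5) (.nd (nat_lit 6) 
(.lf (nat_lit 157071) (.g (nat_lit 1500) (.e (nat_lit 57418) (nat_lit 12) (.e (nat_lit 336213) (nat_lit 13) (.e (nat_lit 393296) (nat_lit 26) (.e (nat_lit 475214) (nat_lit 42) .nil)))) .nil)) 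
(.lf (nat_lit 157135) (.g (nat_lit 2890) (.e (nat_lit 57419) (nat_lit 12) (.e (nat_lit 336186) (nat_lit 11) (.e (nat_lit 368662) (nat_lit 18) (.e (nat_lit 5906) (nat_lit 320) (.e (nat_lit 1221) (nat_lit 90) (.e (nat_lit 81959) (nat_lit 24) (.e (nat_lit 123196) (nat_lit 266) .nil))))))) (.g (nat_lit 6) .nil .nil)))) (.nd (nat_lit 6) 
(.lf (nat_lit 157103) (.g (nat_lit 3198) (.e (nat_lit 57419) (nat_lit 12) (.e (nat_lit 336004) (nat_lit 2) (.e (nat_lit 90176) (nat_lit 15) (.e (nat_lit 188452) (nat_lit 23) (.e (nat_lit 212736) (nat_lit 1) .nil))))) .nil)) 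
(.lf (nat_lit 157167) (.g (nat_lit 1335) (.e (nat_lit 57419) (nat_lit 12) (.e (nat_lit 336194) (nat_lit 12) (.e (nat_lit 385105) (nat_lit 50) (.e (nat_lit 786483) (nat_lit 30) .nil)))) .nil)))) (.nd (nat_lit 5) (.nd (nat_lit 6) 
(.lf (nat_lit 157087) (.g (nat_lit 1800) (.e (nat_lit 57418) (nat_lit 12) (.e (nat_lit 336222) (nat_lit 13) (.e (nat_lit 393260) (nat_lit 21) (.e (nat_lit 409650) (nat_lit 19) .nil)))) .nil)) 
(.lf (nat_lit 157151) (.g (nat_lit 618) (.e (nat_lit 57419) (nat_lit 12) (.e (nat_lit 336194) (nat_lit 12) (.e (nat_lit 385103) (nat_lit 50) .nil))) .nil))) (.nd (nat_lit 6) 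
(.lf (nat_lit 157119) (.g (nat_lit 3408) (.e (nat_lit 57419) (nat_lit 12) (.e (nat_lit 336021) (nat_lit 3) (.e (nat_lit 98372) (nat_lit 29) (.e (nat_lit 450588) (nat_lit 10) (.e (nat_lit 573475) (nat_lit 12) .nil))))) .nil)) 
(.lf (nat_lit 157183) (.g (nat_lit 2295) (.e (nat_lit 57419) (nat_lit 12) (.e (nat_lit 336213) (nat_lit 13) (.e (nat_lit 393232) (nat_lit 17) (.e (nat_lit 7593) (nat_lit 407) (.e (nat_lit 73731) (nat_lit 0) (.e (nat_lit 7266) (nat_lit 384) .nil)))))) (.g (nat_lit 4) .nil .nil))))))))))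

noncomputable def tv2103 : DT := (.nd (nat_lit 0) (.nd (nat_lit 1) (.nd (nat_lit 2) (.nd (nat_lit 3) (.nd (nat_lit 4) (.nd (nat_lit 5) 
(.lf (nat_lit 157184) (.g (nat_lit 1691) (.e (nat_lit 57419) (nat_lit 12) (.e (nat_lit 336213) (nat_lit 13) (.e (nat_lit 393233) (nat_lit 17) (.e (nat_lit 7591) (nat_lit 407) (.e (nat_lit 73729) (nat_lit 0) (.e (nat_lit 7261) (nat_lit 384) .nil)))))) (.g (nat_lit 4) .nil .nil))) 
(.lf (nat_lit 157216) (.g (nat_lit 389) (.e (nat_lit 57419) (nat_lit 12) (.e (nat_lit 336213) (nat_lit 13) (.e (nat_lit 393273) (nat_lit 23) .nil))) .nil))) (.nd (nat_lit 5) 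
(.lf (nat_lit 157200) (.g (nat_lit 906) (.e (nat_lit 57419) (nat_lit 12) (.e (nat_lit 336213) (nat_lit 13) (.e (nat_lit 393267) (nat_lit 23) .nil))) .nil)) 
(.lf (nat_lit 157232) (.g (nat_lit 1130) (.e (nat_lit 57419) (nat_lit 12) (.e (nat_lit 336213) (nat_lit 13) (.e (nat_lit 393274) (nat_lit 23) .nil))) .nil)))) (.nd (nat_lit 4) (.nd (nat_lit 5) 
(.lf (nat_lit 157192) (.g (nat_lit 2068) (.e (nat_lit 57419) (nat_lit 12) (.e (nat_lit 336213) (nat_lit 13) (.e (nat_lit 393234) (nat_lit 17) (.e (nat_lit 7591) (nat_lit 407) (.e (nat_lit 73730) (nat_lit 0) .nil))))) .nil)) 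
(.lf (nat_lit 157224) (.g (nat_lit 2460) (.e (nat_lit 57419) (nat_lit 12) (.e (nat_lit 336213) (nat_lit 13) (.e (nat_lit 393273) (nat_lit 23) (.e (nat_lit 426446) (nat_lit 20) (.e (nat_lit 114712) (nat_lit 21) (.e (nat_lit 57853) (nat_lit 252) .nil)))))) (.g (nat_lit 5) .nil .nil)))) (.nd (nat_lit 5) 
(.lf (nat_lit 157208) (.g (nat_lit 447) (.e (nat_lit 57419) (nat_lit 12) (.e (nat_lit 336213) (nat_lit 13) (.e (nat_lit 393270) (nat_lit 23) .nil))) .nil)) 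
(.lf (nat_lit 157240) (.g (nat_lit 2151) (.e (nat_lit 57419) (nat_lit 12) (.e (nat_lit 336213) (nat_lit 13) (.e (nat_lit 393292) (nat_lit 26) (.e (nat_lit 475214) (nat_lit 42) (.e (nat_lit 720931) (nat_lit 21) (.e (nat_lit 57851) (nat_lit 252) .nil)))))) (.g (nat_lit 5) .nil .nil)))))) (.nd (nat_lit 3) (.nd (nat_lit 4) (.nd (nat_lit 5) 
(.lf (nat_lit 157188) (.g (nat_lit 1511) (.e (nat_lit 57419) (nat_lit 12) (.e (nat_lit 336213) (nat_lit 13) (.e (nat_lit 393233) (nat_lit 17) (.e (nat_lit 7593) (nat_lit 407) (.e (nat_lit 73730) (nat_lit 0) .nil))))) .nil)) 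
(.lf (nat_lit 157220) (.g (nat_lit 3247) (.e (nat_lit 57419) (nat_lit 12) (.e (nat_lit 336213) (nat_lit 13) (.e (nat_lit 393273) (nat_lit 23) (.e (nat_lit 426446) (nat_lit 20) (.e (nat_lit 114710) (nat_lit 21) (.e (nat_lit 57852) (nat_lit 252) .nil)))))) (.g (nat_lit 0) .nil .nil)))) (.nd (nat_lit 5) 
(.lf (nat_lit 157204) (.g (nat_lit 3182) (.e (nat_lit 57419) (nat_lit 12) (.e (nat_lit 336213) (nat_lit 13) (.e (nat_lit 393267) (nat_lit 23) (.e (nat_lit 426446) (nat_lit 20) (.e (nat_lit 114712) (nat_lit 21) (.e (nat_lit 57852) (nat_lit 252) .nil)))))) (.g (nat_lit 0) .nil .nil))) 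
(.lf (nat_lit 157236) (.g (nat_lit 2322) (.e (nat_lit 57419) (nat_lit 12) (.e (nat_lit 336213) (nat_lit 13) (.e (nat_lit 393290) (nat_lit 26) (.e (nat_lit 475212) (nat_lit 42) (.e (nat_lit 720934) (nat_lit 21) .nil))))) .nil)))) (.nd (nat_lit 4) (.nd (nat_lit 5) 
(.lf (nat_lit 157196) (.g (nat_lit 1004) (.e (nat_lit 57419) (nat_lit 12) (.e (nat_lit 336213) (nat_lit 13) (.e (nat_lit 393237) (nat_lit 17) .nil))) .nil)) 
(.lf (nat_lit 157228) (.g (nat_lit 2158) (.e (nat_lit 57419) (nat_lit 12) (.e (nat_lit 336213) (nat_lit 13) (.e (nat_lit 393273) (nat_lit 23) (.e (nat_lit 426448) (nat_lit 20) (.e (nat_lit 114712) (nat_lit 21) (.e (nat_lit 57852) (nat_lit 252) .nil)))))) (.g (nat_lit 4) .nil .nil)))) (.nd (nat_lit 5) 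
(.lf (nat_lit 157212) (.g (nat_lit 2628) (.e (nat_lit 57419) (nat_lit 12) (.e (nat_lit 336213) (nat_lit 13) (.e (nat_lit 393270) (nat_lit 23) (.e (nat_lit 426448) (nat_lit 20) (.e (nat_lit 114710) (nat_lit 21) (.e (nat_lit 57851) (nat_lit 252) .nil)))))) (.g (nat_lit 6) .nil .nil))) 
(.lf (nat_lit 157244) (.g (nat_lit 2910) (.e (nat_lit 57419) (nat_lit 12) (.e (nat_lit 336213) (nat_lit 13) (.e (nat_lit 393293) (nat_lit 26) (.e (nat_lit 475212) (nat_lit 42) (.e (nat_lit 720931) (nat_lit 21) (.e (nat_lit 57852) (nat_lit 252) .nil)))))) (.g (nat_lit 0) .nil .nil))))))) (.nd (nat_lit 2) (.nd (nat_lit 3) (.nd (nat_lit 4) (.nd (nat_lit 5) 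
(.lf (nat_lit 157186) (.g (nat_lit 2855) (.e (nat_lit 57419) (nat_lit 12) (.e (nat_lit 336213) (nat_lit 13) (.e (nat_lit 393233) (nat_lit 17) (.e (nat_lit 7591) (nat_lit 407) (.e (nat_lit 73729) (nat_lit 0) (.e (nat_lit 7265) (nat_lit 384) .nil)))))) (.g (nat_lit 6) .nil .nil))) 
(.lf (nat_lit 157218) (.g (nat_lit 1284) (.e (nat_lit 57419) (nat_lit 12) (.e (nat_lit 336213) (nat_lit 13) (.e (nat_lit 393273) (nat_lit 23) (.e (nat_lit 426364) (nat_lit 15) (.e (nat_lit 2201) (nat_lit 144) .nil))))) .nil))) (.nd (nat_lit 5) 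
(.lf (nat_lit 157202) (.g (nat_lit 3161) (.e (nat_lit 57419) (nat_lit 12) (.e (nat_lit 336213) (nat_lit 13) (.e (nat_lit 393267) (nat_lit 23) (.e (nat_lit 426446) (nat_lit 20) (.e (nat_lit 114710) (nat_lit 21) (.e (nat_lit 57852) (nat_lit 252) .nil)))))) (.g (nat_lit 6) .nil .nil))) 
(.lf (nat_lit 157234) (.g (nat_lit 1562) (.e (nat_lit 57419) (nat_lit 12) (.e (nat_lit 336213) (nat_lit 13) (.e (nat_lit 393281) (nat_lit 23) (.e (nat_lit 426100) (nat_lit 1) .nil)))) .nil)))) (.nd (nat_lit 4) (.nd (nat_lit 5) 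
(.lf (nat_lit 157194) (.g (nat_lit 2069) (.e (nat_lit 57419) (nat_lit 12) (.e (nat_lit 336213) (nat_lit 13) (.e (nat_lit 393234) (nat_lit 17) (.e (nat_lit 7593) (nat_lit 407) (.e (nat_lit 73729) (nat_lit 0) .nil))))) .nil)) 
(.lf (nat_lit 157226) (.g (nat_lit 2665) (.e (nat_lit 57419) (nat_lit 12) (.e (nat_lit 336213) (nat_lit 13) (.e (nat_lit 393273) (nat_lit 23) (.e (nat_lit 426448) (nat_lit 20) (.e (nat_lit 114710) (nat_lit 21) (.e (nat_lit 57852) (nat_lit 252) .nil)))))) (.g (nat_lit 5) .nil .nil)))) (.nd (nat_lit 5) 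
(.lf (nat_lit 157210) (.g (nat_lit 2319) (.e (nat_lit 57419) (nat_lit 12) (.e (nat_lit 336213) (nat_lit 13) (.e (nat_lit 393270) (nat_lit 23) (.e (nat_lit 426446) (nat_lit 20) (.e (nat_lit 114710) (nat_lit 21) (.e (nat_lit 57853) (nat_lit 252) .nil)))))) (.g (nat_lit 5) .nil .nil))) 
(.lf (nat_lit 157242) (.g (nat_lit 2347) (.e (nat_lit 57419) (nat_lit 12) (.e (nat_lit 336213) (nat_lit 13) (.e (nat_lit 393292) (nat_lit 26) (.e (nat_lit 475214) (nat_lit 42) (.e (nat_lit 720932) (nat_lit 21) (.e (nat_lit 57852) (nat_lit 252) .nil)))))) (.g (nat_lit 4) .nil .nil)))))) (.nd (nat_lit 3) (.nd (nat_lit 4) (.nd (nat_lit 5) 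
(.lf (nat_lit 157190) (.g (nat_lit 2098) (.e (nat_lit 57419) (nat_lit 12) (.e (nat_lit 336213) (nat_lit 13) (.e (nat_lit 393234) (nat_lit 17) (.e (nat_lit 7591) (nat_lit 407) (.e (nat_lit 73729) (nat_lit 0) .nil))))) .nil)) 
(.lf (nat_lit 157222) (.g (nat_lit 1943) (.e (nat_lit 57419) (nat_lit 12) (.e (nat_lit 336213) (nat_lit 13) (.e (nat_lit 393273) (nat_lit 23) (.e (nat_lit 426446) (nat_lit 20) (.e (nat_lit 114711) (nat_lit 21) (.e (nat_lit 57853) (nat_lit 252) .nil)))))) (.g (nat_lit 4) .nil .nil)))) (.nd (nat_lit 5) 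
(.lf (nat_lit 157206) (.g (nat_lit 465) (.e (nat_lit 57419) (nat_lit 12) (.e (nat_lit 336213) (nat_lit 13) (.e (nat_lit 393269) (nat_lit 23) .nil))) .nil)) 
(.lf (nat_lit 157238) (.g (nat_lit 2753) (.e (nat_lit 57419) (nat_lit 12) (.e (nat_lit 336213) (nat_lit 13) (.e (nat_lit 393292) (nat_lit 26) (.e (nat_lit 475212) (nat_lit 42) (.e (nat_lit 720931) (nat_lit 21) (.e (nat_lit 57852) (nat_lit 252) .nil)))))) (.g (nat_lit 0) .nil .nil))))) (.nd (nat_lit 4) (.nd (nat_lit 5) 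
(.lf (nat_lit 157198) (.g (nat_lit 900) (.e (nat_lit 57419) (nat_lit 12) (.e (nat_lit 336213) (nat_lit 13) (.e (nat_lit 393249) (nat_lit 17) .nil))) .nil)) 
(.lf (nat_lit 157230) (.g (nat_lit 2473) (.e (nat_lit 57419) (nat_lit 12) (.e (nat_lit 336213) (nat_lit 13) (.e (nat_lit 393273) (nat_lit 23) (.e (nat_lit 426449) (nat_lit 20) (.e (nat_lit 114710) (nat_lit 21) (.e (nat_lit 57852) (nat_lit 252) .nil)))))) (.g (nat_lit 5) .nil .nil)))) (.nd (nat_lit 5) 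
(.lf (nat_lit 157214) (.g (nat_lit 2800) (.e (nat_lit 57419) (nat_lit 12) (.e (nat_lit 336213) (nat_lit 13) (.e (nat_lit 393270) (nat_lit 23) (.e (nat_lit 426448) (nat_lit 20) (.e (nat_lit 114712) (nat_lit 21) (.e (nat_lit 57852) (nat_lit 252) .nil)))))) (.g (nat_lit 0) .nil .nil))) 
(.lf (nat_lit 157246) (.g (nat_lit 1165) (.e (nat_lit 57419) (nat_lit 12) (.e (nat_lit 336213) (nat_lit 13) (.e (nat_lit 393293) (nat_lit 26) (.e (nat_lit 475213) (nat_lit 42) .nil)))) .nil))))))) (.nd (nat_lit 1) (.nd (nat_lit 2) (.nd (nat_lit 3) (.nd (nat_lit 4) (.nd (nat_lit 5) 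
(.lf (nat_lit 157185) (.g (nat_lit 2402) (.e (nat_lit 57419) (nat_lit 12) (.e (nat_lit 336213) (nat_lit 13) (.e (nat_lit 393233) (nat_lit 17) (.e (nat_lit 7591) (nat_lit 407) (.e (nat_lit 73729) (nat_lit 0) (.e (nat_lit 7263) (nat_lit 384) .nil)))))) (.g (nat_lit 5) .nil .nil))) 
(.lf (nat_lit 157217) (.g (nat_lit 1277) (.e (nat_lit 57419) (nat_lit 12) (.e (nat_lit 336213) (nat_lit 13) (.e (nat_lit 393273) (nat_lit 23) (.e (nat_lit 426364) (nat_lit 15) (.e (nat_lit 2191) (nat_lit 144) .nil))))) .nil))) (.nd (nat_lit 5) 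
(.lf (nat_lit 157201) (.g (nat_lit 2080) (.e (nat_lit 57419) (nat_lit 12) (.e (nat_lit 336213) (nat_lit 13) (.e (nat_lit 393267) (nat_lit 23) (.e (nat_lit 426446) (nat_lit 20) (.e (nat_lit 114710) (nat_lit 21) (.e (nat_lit 57851) (nat_lit 252) .nil)))))) (.g (nat_lit 4) .nil .nil))) 
(.lf (nat_lit 157233) (.g (nat_lit 949) (.e (nat_lit 57419) (nat_lit 12) (.e (nat_lit 336213) (nat_lit 13) (.e (nat_lit 393279) (nat_lit 23) .nil))) .nil)))) (.nd (nat_lit 4) (.nd (nat_lit 5) 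
(.lf (nat_lit 157193) (.g (nat_lit 1314) (.e (nat_lit 57419) (nat_lit 12) (.e (nat_lit 336213) (nat_lit 13) (.e (nat_lit 393234) (nat_lit 17) (.e (nat_lit 7593) (nat_lit 407) .nil)))) .nil)) 
(.lf (nat_lit 157225) (.g (nat_lit 2116) (.e (nat_lit 57419) (nat_lit 12) (.e (nat_lit 336213) (nat_lit 13) (.e (nat_lit 393273) (nat_lit 23) (.e (nat_lit 426448) (nat_lit 20) (.e (nat_lit 114710) (nat_lit 21) (.e (nat_lit 57851) (nat_lit 252) .nil)))))) (.g (nat_lit 4) .nil .nil)))) (.nd (nat_lit 5) 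
(.lf (nat_lit 157209) (.g (nat_lit 2143) (.e (nat_lit 57419) (nat_lit 12) (.e (nat_lit 336213) (nat_lit 13) (.e (nat_lit 393270) (nat_lit 23) (.e (nat_lit 426446) (nat_lit 20) (.e (nat_lit 114710) (nat_lit 21) (.e (nat_lit 57851) (nat_lit 252) .nil)))))) (.g (nat_lit 5) .nil .nil))) 
(.lf (nat_lit 157241) (.g (nat_lit 2901) (.e (nat_lit 57419) (nat_lit 12) (.e (nat_lit 336213) (nat_lit 13) (.e (nat_lit 393292) (nat_lit 26) (.e (nat_lit 475214) (nat_lit 42) (.e (nat_lit 720931) (nat_lit 21) (.e (nat_lit 57852) (nat_lit 252) .nil)))))) (.g (nat_lit 0) .nil .nil)))))) (.nd (nat_lit 3) (.nd (nat_lit 4) (.nd (nat_lit 5) 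
(.lf (nat_lit 157189) (.g (nat_lit 648) (.e (nat_lit 57419) (nat_lit 12) (.e (nat_lit 336213) (nat_lit 13) (.e (nat_lit 393234) (nat_lit 17) .nil))) .nil)) 
(.lf (nat_lit 157221) (.g (nat_lit 2592) (.e (nat_lit 57419) (nat_lit 12) (.e (nat_lit 336213) (nat_lit 13) (.e (nat_lit 393273) (nat_lit 23) (.e (nat_lit 426446) (nat_lit 20) (.e (nat_lit 114710) (nat_lit 21) (.e (nat_lit 57853) (nat_lit 252) .nil)))))) (.g (nat_lit 5) .nil .nil)))) (.nd (nat_lit 5) 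
(.lf (nat_lit 157205) (.g (nat_lit 2237) (.e (nat_lit 57419) (nat_lit 12) (.e (nat_lit 336213) (nat_lit 13) (.e (nat_lit 393267) (nat_lit 23) (.e (nat_lit 426448) (nat_lit 20) (.e (nat_lit 114710) (nat_lit 21) .nil))))) .nil)) 
(.lf (nat_lit 157237) (.g (nat_lit 1846) (.e (nat_lit 57419) (nat_lit 12) (.e (nat_lit 336213) (nat_lit 13) (.e (nat_lit 393292) (nat_lit 26) (.e (nat_lit 475212) (nat_lit 42) (.e (nat_lit 720930) (nat_lit 21) (.e (nat_lit 57851) (nat_lit 252) .nil)))))) (.g (nat_lit 4) .nil .nil))))) (.nd (nat_lit 4) (.nd (nat_lit 5) 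
(.lf (nat_lit 157197) (.g (nat_lit 1130) (.e (nat_lit 57419) (nat_lit 12) (.e (nat_lit 336213) (nat_lit 13) (.e (nat_lit 393242) (nat_lit 17) .nil))) .nil)) 
(.lf (nat_lit 157229) (.g (nat_lit 1465) (.e (nat_lit 57419) (nat_lit 12) (.e (nat_lit 336213) (nat_lit 13) (.e (nat_lit 393273) (nat_lit 23) (.e (nat_lit 426449) (nat_lit 20) .nil)))) .nil))) (.nd (nat_lit 5) 
(.lf (nat_lit 157213) (.g (nat_lit 1883) (.e (nat_lit 57419) (nat_lit 12) (.e (nat_lit 336213) (nat_lit 13) (.e (nat_lit 393270) (nat_lit 23) (.e (nat_lit 426448) (nat_lit 20) (.e (nat_lit 114711) (nat_lit 21) (.e (nat_lit 57853) (nat_lit 252) .nil)))))) (.g (nat_lit 4) .nil .nil))) 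
(.lf (nat_lit 157245) (.g (nat_lit 2931) (.e (nat_lit 57419) (nat_lit 12) (.e (nat_lit 336213) (nat_lit 13) (.e (nat_lit 393293) (nat_lit 26) (.e (nat_lit 475212) (nat_lit 42) (.e (nat_lit 720934) (nat_lit 21) (.e (nat_lit 57852) (nat_lit 252) .nil)))))) (.g (nat_lit 0) .nil .nil))))))) (.nd (nat_lit 2) (.nd (nat_lit 3) (.nd (nat_lit 4) (.nd (nat_lit 5) 
(.lf (nat_lit 157187) (.g (nat_lit 1964) (.e (nat_lit 57419) (nat_lit 12) (.e (nat_lit 336213) (nat_lit 13) (.e (nat_lit 393233) (nat_lit 17) (.e (nat_lit 7593) (nat_lit 407) (.e (nat_lit 73729) (nat_lit 0) (.e (nat_lit 7261) (nat_lit 384) .nil)))))) (.g (nat_lit 4) .nil .nil))) 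
(.lf (nat_lit 157219) (.g (nat_lit 2303) (.e (nat_lit 57419) (nat_lit 12) (.e (nat_lit 336213) (nat_lit 13) (.e (nat_lit 393273) (nat_lit 23) (.e (nat_lit 426446) (nat_lit 20) (.e (nat_lit 114710) (nat_lit 21) (.e (nat_lit 57851) (nat_lit 252) .nil)))))) (.g (nat_lit 5) .nil .nil)))) (.nd (nat_lit 5) 
(.lf (nat_lit 157203) (.g (nat_lit 2308) (.e (nat_lit 57419) (nat_lit 12) (.e (nat_lit 336213) (nat_lit 13) (.e (nat_lit 393267) (nat_lit 23) (.e (nat_lit 426446) (nat_lit 20) (.e (nat_lit 114710) (nat_lit 21) (.e (nat_lit 57853) (nat_lit 252) .nil)))))) (.g (nat_lit 4) .nil .nil))) 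
(.lf (nat_lit 157235) (.g (nat_lit 1130) (.e (nat_lit 57419) (nat_lit 12) (.e (nat_lit 336213) (nat_lit 13) (.e (nat_lit 393283) (nat_lit 24) .nil))) .nil)))) (.nd (nat_lit 4) (.nd (nat_lit 5) 
(.lf (nat_lit 157195) (.g (nat_lit 2147) (.e (nat_lit 57419) (nat_lit 12) (.e (nat_lit 336213) (nat_lit 13) (.e (nat_lit 393234) (nat_lit 17) (.e (nat_lit 7593) (nat_lit 407) (.e (nat_lit 73731) (nat_lit 0) .nil))))) .nil)) 
(.lf (nat_lit 157227) (.g (nat_lit 2300) (.e (nat_lit 57419) (nat_lit 12) (.e (nat_lit 336213) (nat_lit 13) (.e (nat_lit 393273) (nat_lit 23) (.e (nat_lit 426448) (nat_lit 20) (.e (nat_lit 114710) (nat_lit 21) (.e (nat_lit 57853) (nat_lit 252) .nil)))))) (.g (nat_lit 4) .nil .nil)))) (.nd (nat_lit 5) 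
(.lf (nat_lit 157211) (.g (nat_lit 2768) (.e (nat_lit 57419) (nat_lit 12) (.e (nat_lit 336213) (nat_lit 13) (.e (nat_lit 393270) (nat_lit 23) (.e (nat_lit 426446) (nat_lit 20) (.e (nat_lit 114712) (nat_lit 21) (.e (nat_lit 57852) (nat_lit 252) .nil)))))) (.g (nat_lit 0) .nil .nil))) 
(.lf (nat_lit 157243) (.g (nat_lit 1954) (.e (nat_lit 57419) (nat_lit 12) (.e (nat_lit 336213) (nat_lit 13) (.e (nat_lit 393292) (nat_lit 26) (.e (nat_lit 475214) (nat_lit 42) (.e (nat_lit 720934) (nat_lit 21) .nil))))) .nil))))) (.nd (nat_lit 3) (.nd (nat_lit 4) (.nd (nat_lit 5) 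
(.lf (nat_lit 157191) (.g (nat_lit 2351) (.e (nat_lit 57419) (nat_lit 12) (.e (nat_lit 336213) (nat_lit 13) (.e (nat_lit 393234) (nat_lit 17) (.e (nat_lit 7591) (nat_lit 407) (.e (nat_lit 73729) (nat_lit 0) (.e (nat_lit 7266) (nat_lit 384) .nil)))))) (.g (nat_lit 4) .nil .nil))) 
(.lf (nat_lit 157223) (.g (nat_lit 3106) (.e (nat_lit 57419) (nat_lit 12) (.e (nat_lit 336213) (nat_lit 13) (.e (nat_lit 393273) (nat_lit 23) (.e (nat_lit 426446) (nat_lit 20) (.e (nat_lit 114712) (nat_lit 21) (.e (nat_lit 57852) (nat_lit 252) .nil)))))) (.g (nat_lit 0) .nil .nil)))) (.nd (nat_lit 5) 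
(.lf (nat_lit 157207) (.g (nat_lit 1820) (.e (nat_lit 57419) (nat_lit 12) (.e (nat_lit 336213) (nat_lit 13) (.e (nat_lit 393269) (nat_lit 23) (.e (nat_lit 426448) (nat_lit 20) (.e (nat_lit 114710) (nat_lit 21) (.e (nat_lit 57851) (nat_lit 252) .nil)))))) (.g (nat_lit 4) .nil .nil))) 
(.lf (nat_lit 157239) (.g (nat_lit 1941) (.e (nat_lit 57419) (nat_lit 12) (.e (nat_lit 336213) (nat_lit 13) (.e (nat_lit 393292) (nat_lit 26) (.e (nat_lit 475214) (nat_lit 42) (.e (nat_lit 720930) (nat_lit 21) (.e (nat_lit 57851) (nat_lit 252) .nil)))))) (.g (nat_lit 5) .nil .nil))))) (.nd (nat_lit 4) (.nd (nat_lit 5) 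
(.lf (nat_lit 157199) (.g (nat_lit 1078) (.e (nat_lit 57419) (nat_lit 12) (.e (nat_lit 336213) (nat_lit 13) (.e (nat_lit 393265) (nat_lit 22) .nil))) .nil)) 
(.lf (nat_lit 157231) (.g (nat_lit 1328) (.e (nat_lit 57419) (nat_lit 12) (.e (nat_lit 336213) (nat_lit 13) (.e (nat_lit 393273) (nat_lit 23) (.e (nat_lit 433920) (nat_lit 20) .nil)))) .nil))) (.nd (nat_lit 5) 
(.lf (nat_lit 157215) (.g (nat_lit 989) (.e (nat_lit 57419) (nat_lit 12) (.e (nat_lit 336213) (nat_lit 13) (.e (nat_lit 393271) (nat_lit 23) .nil))) .nil)) 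
(.lf (nat_lit 157247) (.g (nat_lit 2507) (.e (nat_lit 57419) (nat_lit 12) (.e (nat_lit 336213) (nat_lit 13) (.e (nat_lit 393293) (nat_lit 26) (.e (nat_lit 475214) (nat_lit 42) (.e (nat_lit 720931) (nat_lit 21) (.e (nat_lit 57851) (nat_lit 252) .nil)))))) (.g (nat_lit 6) .nil .nil)))))))))

noncomputable def tv2104 : DT := (.nd (nat_lit 0) (.nd (nat_lit 1) (.nd (nat_lit 2) (.nd (nat_lit 3) (.nd (nat_lit 4) (.nd (nat_lit 5) 
(.lf (nat_lit 157248) (.g (nat_lit 3107) (.e (nat_lit 57419) (nat_lit 12) (.e (nat_lit 336213) (nat_lit 13) (.e (nat_lit 393293) (nat_lit 26) (.e (nat_lit 475214) (nat_lit 42) (.e (nat_lit 720931) (nat_lit 21) (.e (nat_lit 57852) (nat_lit 252) .nil)))))) (.g (nat_lit 0) .nil .nil))) 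
(.lf (nat_lit 157280) (.g (nat_lit 1774) (.e (nat_lit 57419) (nat_lit 12) (.e (nat_lit 336213) (nat_lit 13) (.e (nat_lit 393299) (nat_lit 27) (.e (nat_lit 491560) (nat_lit 10) (.e (nat_lit 344090) (nat_lit 18) (.e (nat_lit 7263) (nat_lit 384) .nil)))))) (.g (nat_lit 4) .nil .nil)))) (.nd (nat_lit 5) 
(.lf (nat_lit 157264) (.g (nat_lit 1195) (.e (nat_lit 57419) (nat_lit 12) (.e (nat_lit 336213) (nat_lit 13) (.e (nat_lit 393296) (nat_lit 26) (.e (nat_lit 475212) (nat_lit 42) .nil)))) .nil)) 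
(.lf (nat_lit 157296) (.g (nat_lit 1827) (.e (nat_lit 57419) (nat_lit 12) (.e (nat_lit 336213) (nat_lit 13) (.e (nat_lit 393300) (nat_lit 27) (.e (nat_lit 491560) (nat_lit 10) (.e (nat_lit 344091) (nat_lit 18) (.e (nat_lit 7261) (nat_lit 384) .nil)))))) (.g (nat_lit 4) .nil .nil))))) (.nd (nat_lit 4) (.nd (nat_lit 5) 
(.lf (nat_lit 157256) (.g (nat_lit 2642) (.e (nat_lit 57419) (nat_lit 12) (.e (nat_lit 336213) (nat_lit 13) (.e (nat_lit 393295) (nat_lit 26) (.e (nat_lit 475212) (nat_lit 42) (.e (nat_lit 720931) (nat_lit 21) (.e (nat_lit 57852) (nat_lit 252) .nil)))))) (.g (nat_lit 4) .nil .nil))) 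
(.lf (nat_lit 157288) (.g (nat_lit 1844) (.e (nat_lit 57419) (nat_lit 12) (.e (nat_lit 336213) (nat_lit 13) (.e (nat_lit 393300) (nat_lit 27) (.e (nat_lit 491558) (nat_lit 10) (.e (nat_lit 344090) (nat_lit 18) (.e (nat_lit 7261) (nat_lit 384) .nil)))))) (.g (nat_lit 4) .nil .nil)))) (.nd (nat_lit 5) 
(.lf (nat_lit 157272) (.g (nat_lit 3052) (.e (nat_lit 57419) (nat_lit 12) (.e (nat_lit 336213) (nat_lit 13) (.e (nat_lit 393296) (nat_lit 26) (.e (nat_lit 475214) (nat_lit 42) (.e (nat_lit 720934) (nat_lit 21) (.e (nat_lit 57852) (nat_lit 252) .nil)))))) (.g (nat_lit 4) .nil .nil))) 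
(.lf (nat_lit 157304) (.g (nat_lit 2916) (.e (nat_lit 57419) (nat_lit 12) (.e (nat_lit 336213) (nat_lit 13) (.e (nat_lit 393301) (nat_lit 27) (.e (nat_lit 491558) (nat_lit 10) (.e (nat_lit 344090) (nat_lit 18) .nil))))) .nil))))) (.nd (nat_lit 3) (.nd (nat_lit 4) (.nd (nat_lit 5) 
(.lf (nat_lit 157252) (.g (nat_lit 1021) (.e (nat_lit 57419) (nat_lit 12) (.e (nat_lit 336213) (nat_lit 13) (.e (nat_lit 393294) (nat_lit 26) .nil))) .nil)) 
(.lf (nat_lit 157284) (.g (nat_lit 1951) (.e (nat_lit 57419) (nat_lit 12) (.e (nat_lit 336213) (nat_lit 13) (.e (nat_lit 393299) (nat_lit 27) (.e (nat_lit 491560) (nat_lit 10) (.e (nat_lit 344094) (nat_lit 18) .nil))))) .nil))) (.nd (nat_lit 5) 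
(.lf (nat_lit 157268) (.g (nat_lit 2827) (.e (nat_lit 57419) (nat_lit 12) (.e (nat_lit 336213) (nat_lit 13) (.e (nat_lit 393296) (nat_lit 26) (.e (nat_lit 475214) (nat_lit 42) (.e (nat_lit 720930) (nat_lit 21) (.e (nat_lit 57851) (nat_lit 252) .nil)))))) (.g (nat_lit 6) .nil .nil))) 
(.lf (nat_lit 157300) (.g (nat_lit 2146) (.e (nat_lit 57419) (nat_lit 12) (.e (nat_lit 336213) (nat_lit 13) (.e (nat_lit 393300) (nat_lit 27) (.e (nat_lit 491560) (nat_lit 10) (.e (nat_lit 344095) (nat_lit 18) (.e (nat_lit 7263) (nat_lit 384) .nil)))))) (.g (nat_lit 4) .nil .nil))))) (.nd (nat_lit 4) (.nd (nat_lit 5) 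
(.lf (nat_lit 157260) (.g (nat_lit 2425) (.e (nat_lit 57419) (nat_lit 12) (.e (nat_lit 336213) (nat_lit 13) (.e (nat_lit 393295) (nat_lit 26) (.e (nat_lit 475214) (nat_lit 42) (.e (nat_lit 720931) (nat_lit 21) (.e (nat_lit 57851) (nat_lit 252) .nil)))))) (.g (nat_lit 4) .nil .nil))) 
(.lf (nat_lit 157292) (.g (nat_lit 2134) (.e (nat_lit 57419) (nat_lit 12) (.e (nat_lit 336213) (nat_lit 13) (.e (nat_lit 393300) (nat_lit 27) (.e (nat_lit 491558) (nat_lit 10) (.e (nat_lit 344095) (nat_lit 18) (.e (nat_lit 7261) (nat_lit 384) .nil)))))) (.g (nat_lit 4) .nil .nil)))) (.nd (nat_lit 5) 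
(.lf (nat_lit 157276) (.g (nat_lit 2132) (.e (nat_lit 57419) (nat_lit 12) (.e (nat_lit 336213) (nat_lit 13) (.e (nat_lit 393299) (nat_lit 27) (.e (nat_lit 491558) (nat_lit 10) (.e (nat_lit 344091) (nat_lit 18) (.e (nat_lit 7263) (nat_lit 384) .nil)))))) (.g (nat_lit 4) .nil .nil))) 
(.lf (nat_lit 157308) (.g (nat_lit 3241) (.e (nat_lit 57419) (nat_lit 12) (.e (nat_lit 336213) (nat_lit 13) (.e (nat_lit 393301) (nat_lit 27) (.e (nat_lit 491558) (nat_lit 10) (.e (nat_lit 344091) (nat_lit 18) (.e (nat_lit 7266) (nat_lit 384) .nil)))))) (.g (nat_lit 4) .nil .nil))))))) (.nd (nat_lit 2) (.nd (nat_lit 3) (.nd (nat_lit 4) (.nd (nat_lit 5) 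
(.lf (nat_lit 157250) (.g (nat_lit 1935) (.e (nat_lit 57419) (nat_lit 12) (.e (nat_lit 336213) (nat_lit 13) (.e (nat_lit 393293) (nat_lit 26) (.e (nat_lit 475214) (nat_lit 42) (.e (nat_lit 720934) (nat_lit 21) .nil))))) .nil)) 
(.lf (nat_lit 157282) (.g (nat_lit 1679) (.e (nat_lit 57419) (nat_lit 12) (.e (nat_lit 336213) (nat_lit 13) (.e (nat_lit 393299) (nat_lit 27) (.e (nat_lit 491560) (nat_lit 10) (.e (nat_lit 344091) (nat_lit 18) .nil))))) .nil))) (.nd (nat_lit 5) 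
(.lf (nat_lit 157266) (.g (nat_lit 1350) (.e (nat_lit 57419) (nat_lit 12) (.e (nat_lit 336213) (nat_lit 13) (.e (nat_lit 393296) (nat_lit 26) (.e (nat_lit 475213) (nat_lit 42) .nil)))) .nil)) 
(.lf (nat_lit 157298) (.g (nat_lit 1592) (.e (nat_lit 57419) (nat_lit 12) (.e (nat_lit 336213) (nat_lit 13) (.e (nat_lit 393300) (nat_lit 27) (.e (nat_lit 491560) (nat_lit 10) (.e (nat_lit 344094) (nat_lit 18) .nil))))) .nil)))) (.nd (nat_lit 4) (.nd (nat_lit 5) 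
(.lf (nat_lit 157258) (.g (nat_lit 2529) (.e (nat_lit 57419) (nat_lit 12) (.e (nat_lit 336213) (nat_lit 13) (.e (nat_lit 393295) (nat_lit 26) (.e (nat_lit 475214) (nat_lit 42) (.e (nat_lit 720930) (nat_lit 21) .nil))))) .nil)) 
(.lf (nat_lit 157290) (.g (nat_lit 2567) (.e (nat_lit 57419) (nat_lit 12) (.e (nat_lit 336213) (nat_lit 13) (.e (nat_lit 393300) (nat_lit 27) (.e (nat_lit 491558) (nat_lit 10) (.e (nat_lit 344090) (nat_lit 18) (.e (nat_lit 7265) (nat_lit 384) .nil)))))) (.g (nat_lit 5) .nil .nil)))) (.nd (nat_lit 5) 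
(.lf (nat_lit 157274) (.g (nat_lit 1254) (.e (nat_lit 57419) (nat_lit 12) (.e (nat_lit 336213) (nat_lit 13) (.e (nat_lit 393298) (nat_lit 27) (.e (nat_lit 491566) (nat_lit 12) .nil)))) .nil)) 
(.lf (nat_lit 157306) (.g (nat_lit 2758) (.e (nat_lit 57419) (nat_lit 12) (.e (nat_lit 336213) (nat_lit 13) (.e (nat_lit 393301) (nat_lit 27) (.e (nat_lit 491558) (nat_lit 10) (.e (nat_lit 344091) (nat_lit 18) .nil))))) .nil))))) (.nd (nat_lit 3) (.nd (nat_lit 4) (.nd (nat_lit 5) 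
(.lf (nat_lit 157254) (.g (nat_lit 1103) (.e (nat_lit 57419) (nat_lit 12) (.e (nat_lit 336213) (nat_lit 13) (.e (nat_lit 393295) (nat_lit 26) .nil))) .nil)) 
(.lf (nat_lit 157286) (.g (nat_lit 1752) (.e (nat_lit 57419) (nat_lit 12) (.e (nat_lit 336213) (nat_lit 13) (.e (nat_lit 393299) (nat_lit 27) (.e (nat_lit 491560) (nat_lit 10) (.e (nat_lit 344096) (nat_lit 18) .nil))))) .nil))) (.nd (nat_lit 5) 
(.lf (nat_lit 157270) (.g (nat_lit 2721) (.e (nat_lit 57419) (nat_lit 12) (.e (nat_lit 336213) (nat_lit 13) (.e (nat_lit 393296) (nat_lit 26) (.e (nat_lit 475214) (nat_lit 42) (.e (nat_lit 720932) (nat_lit 21) (.e (nat_lit 57852) (nat_lit 252) .nil)))))) (.g (nat_lit 4) .nil .nil))) 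
(.lf (nat_lit 157302) (.g (nat_lit 2757) (.e (nat_lit 57419) (nat_lit 12) (.e (nat_lit 336213) (nat_lit 13) (.e (nat_lit 393300) (nat_lit 27) (.e (nat_lit 491560) (nat_lit 10) (.e (nat_lit 344096) (nat_lit 18) (.e (nat_lit 7265) (nat_lit 384) .nil)))))) (.g (nat_lit 5) .nil .nil))))) (.nd (nat_lit 4) (.nd (nat_lit 5) 
(.lf (nat_lit 157262) (.g (nat_lit 2969) (.e (nat_lit 57419) (nat_lit 12) (.e (nat_lit 336213) (nat_lit 13) (.e (nat_lit 393295) (nat_lit 26) (.e (nat_lit 475214) (nat_lit 42) (.e (nat_lit 720934) (nat_lit 21) .nil))))) .nil)) 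
(.lf (nat_lit 157294) (.g (nat_lit 2139) (.e (nat_lit 57419) (nat_lit 12) (.e (nat_lit 336213) (nat_lit 13) (.e (nat_lit 393300) (nat_lit 27) (.e (nat_lit 491560) (nat_lit 10) (.e (nat_lit 344089) (nat_lit 18) (.e (nat_lit 7259) (nat_lit 384) .nil)))))) (.g (nat_lit 4) .nil .nil)))) (.nd (nat_lit 5) 
(.lf (nat_lit 157278) (.g (nat_lit 1980) (.e (nat_lit 57419) (nat_lit 12) (.e (nat_lit 336213) (nat_lit 13) (.e (nat_lit 393299) (nat_lit 27) (.e (nat_lit 491558) (nat_lit 10) (.e (nat_lit 344096) (nat_lit 18) (.e (nat_lit 7263) (nat_lit 384) .nil)))))) (.g (nat_lit 4) .nil .nil))) 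
(.lf (nat_lit 157310) (.g (nat_lit 2788) (.e (nat_lit 57419) (nat_lit 12) (.e (nat_lit 336213) (nat_lit 13) (.e (nat_lit 393301) (nat_lit 27) (.e (nat_lit 491558) (nat_lit 10) (.e (nat_lit 344096) (nat_lit 18) .nil))))) .nil))))))) (.nd (nat_lit 1) (.nd (nat_lit 2) (.nd (nat_lit 3) (.nd (nat_lit 4) (.nd (nat_lit 5) 
(.lf (nat_lit 157249) (.g (nat_lit 2019) (.e (nat_lit 57419) (nat_lit 12) (.e (nat_lit 336213) (nat_lit 13) (.e (nat_lit 393293) (nat_lit 26) (.e (nat_lit 475214) (nat_lit 42) (.e (nat_lit 720932) (nat_lit 21) (.e (nat_lit 57852) (nat_lit 252) .nil)))))) (.g (nat_lit 4) .nil .nil))) 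
(.lf (nat_lit 157281) (.g (nat_lit 2393) (.e (nat_lit 57419) (nat_lit 12) (.e (nat_lit 336213) (nat_lit 13) (.e (nat_lit 393299) (nat_lit 27) (.e (nat_lit 491560) (nat_lit 10) (.e (nat_lit 344090) (nat_lit 18) (.e (nat_lit 7265) (nat_lit 384) .nil)))))) (.g (nat_lit 5) .nil .nil)))) (.nd (nat_lit 5) 
(.lf (nat_lit 157265) (.g (nat_lit 2499) (.e (nat_lit 57419) (nat_lit 12) (.e (nat_lit 336213) (nat_lit 13) (.e (nat_lit 393296) (nat_lit 26) (.e (nat_lit 475212) (nat_lit 42) (.e (nat_lit 720930) (nat_lit 21) (.e (nat_lit 57851) (nat_lit 252) .nil)))))) (.g (nat_lit 4) .nil .nil))) 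
(.lf (nat_lit 157297) (.g (nat_lit 2430) (.e (nat_lit 57419) (nat_lit 12) (.e (nat_lit 336213) (nat_lit 13) (.e (nat_lit 393300) (nat_lit 27) (.e (nat_lit 491560) (nat_lit 10) (.e (nat_lit 344091) (nat_lit 18) (.e (nat_lit 7263) (nat_lit 384) .nil)))))) (.g (nat_lit 5) .nil .nil))))) (.nd (nat_lit 4) (.nd (nat_lit 5) 
(.lf (nat_lit 157257) (.g (nat_lit 2953) (.e (nat_lit 57419) (nat_lit 12) (.e (nat_lit 336213) (nat_lit 13) (.e (nat_lit 393295) (nat_lit 26) (.e (nat_lit 475212) (nat_lit 42) (.e (nat_lit 720934) (nat_lit 21) (.e (nat_lit 57852) (nat_lit 252) .nil)))))) (.g (nat_lit 4) .nil .nil))) 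
(.lf (nat_lit 157289) (.g (nat_lit 2047) (.e (nat_lit 57419) (nat_lit 12) (.e (nat_lit 336213) (nat_lit 13) (.e (nat_lit 393300) (nat_lit 27) (.e (nat_lit 491558) (nat_lit 10) (.e (nat_lit 344090) (nat_lit 18) (.e (nat_lit 7263) (nat_lit 384) .nil)))))) (.g (nat_lit 4) .nil .nil)))) (.nd (nat_lit 5) 
(.lf (nat_lit 157273) (.g (nat_lit 557) (.e (nat_lit 57419) (nat_lit 12) (.e (nat_lit 336213) (nat_lit 13) (.e (nat_lit 393298) (nat_lit 27) .nil))) .nil)) 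
(.lf (nat_lit 157305) (.g (nat_lit 3045) (.e (nat_lit 57419) (nat_lit 12) (.e (nat_lit 336213) (nat_lit 13) (.e (nat_lit 393301) (nat_lit 27) (.e (nat_lit 491558) (nat_lit 10) (.e (nat_lit 344090) (nat_lit 18) (.e (nat_lit 7266) (nat_lit 384) .nil)))))) (.g (nat_lit 4) .nil .nil)))))) (.nd (nat_lit 3) (.nd (nat_lit 4) (.nd (nat_lit 5) 
(.lf (nat_lit 157253) (.g (nat_lit 2153) (.e (nat_lit 57419) (nat_lit 12) (.e (nat_lit 336213) (nat_lit 13) (.e (nat_lit 393294) (nat_lit 26) (.e (nat_lit 475213) (nat_lit 42) .nil)))) .nil)) 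
(.lf (nat_lit 157285) (.g (nat_lit 2264) (.e (nat_lit 57419) (nat_lit 12) (.e (nat_lit 336213) (nat_lit 13) (.e (nat_lit 393299) (nat_lit 27) (.e (nat_lit 491560) (nat_lit 10) (.e (nat_lit 344094) (nat_lit 18) (.e (nat_lit 7266) (nat_lit 384) .nil)))))) (.g (nat_lit 4) .nil .nil)))) (.nd (nat_lit 5) 
(.lf (nat_lit 157269) (.g (nat_lit 2998) (.e (nat_lit 57419) (nat_lit 12) (.e (nat_lit 336213) (nat_lit 13) (.e (nat_lit 393296) (nat_lit 26) (.e (nat_lit 475214) (nat_lit 42) (.e (nat_lit 720931) (nat_lit 21) (.e (nat_lit 57851) (nat_lit 252) .nil)))))) (.g (nat_lit 6) .nil .nil))) 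
(.lf (nat_lit 157301) (.g (nat_lit 1849) (.e (nat_lit 57419) (nat_lit 12) (.e (nat_lit 336213) (nat_lit 13) (.e (nat_lit 393300) (nat_lit 27) (.e (nat_lit 491560) (nat_lit 10) (.e (nat_lit 344096) (nat_lit 18) (.e (nat_lit 7261) (nat_lit 384) .nil)))))) (.g (nat_lit 4) .nil .nil))))) (.nd (nat_lit 4) (.nd (nat_lit 5) 
(.lf (nat_lit 157261) (.g (nat_lit 3112) (.e (nat_lit 57419) (nat_lit 12) (.e (nat_lit 336213) (nat_lit 13) (.e (nat_lit 393295) (nat_lit 26) (.e (nat_lit 475214) (nat_lit 42) (.e (nat_lit 720931) (nat_lit 21) (.e (nat_lit 57852) (nat_lit 252) .nil)))))) (.g (nat_lit 5) .nil .nil))) 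
(.lf (nat_lit 157293) (.g (nat_lit 2657) (.e (nat_lit 57419) (nat_lit 12) (.e (nat_lit 336213) (nat_lit 13) (.e (nat_lit 393300) (nat_lit 27) (.e (nat_lit 491558) (nat_lit 10) (.e (nat_lit 344096) (nat_lit 18) (.e (nat_lit 7263) (nat_lit 384) .nil)))))) (.g (nat_lit 5) .nil .nil)))) (.nd (nat_lit 5) 
(.lf (nat_lit 157277) (.g (nat_lit 1873) (.e (nat_lit 57419) (nat_lit 12) (.e (nat_lit 336213) (nat_lit 13) (.e (nat_lit 393299) (nat_lit 27) (.e (nat_lit 491558) (nat_lit 10) (.e (nat_lit 344095) (nat_lit 18) .nil))))) .nil)) 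
(.lf (nat_lit 157309) (.g (nat_lit 2839) (.e (nat_lit 57419) (nat_lit 12) (.e (nat_lit 336213) (nat_lit 13) (.e (nat_lit 393301) (nat_lit 27) (.e (nat_lit 491558) (nat_lit 10) (.e (nat_lit 344095) (nat_lit 18) .nil))))) .nil)))))) (.nd (nat_lit 2) (.nd (nat_lit 3) (.nd (nat_lit 4) (.nd (nat_lit 5) 
(.lf (nat_lit 157251) (.g (nat_lit 2185) (.e (nat_lit 57419) (nat_lit 12) (.e (nat_lit 336213) (nat_lit 13) (.e (nat_lit 393293) (nat_lit 26) (.e (nat_lit 475214) (nat_lit 42) (.e (nat_lit 720934) (nat_lit 21) (.e (nat_lit 57852) (nat_lit 252) .nil)))))) (.g (nat_lit 4) .nil .nil))) 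
(.lf (nat_lit 157283) (.g (nat_lit 1957) (.e (nat_lit 57419) (nat_lit 12) (.e (nat_lit 336213) (nat_lit 13) (.e (nat_lit 393299) (nat_lit 27) (.e (nat_lit 491560) (nat_lit 10) (.e (nat_lit 344091) (nat_lit 18) (.e (nat_lit 7265) (nat_lit 384) .nil)))))) (.g (nat_lit 4) .nil .nil)))) (.nd (nat_lit 5) 
(.lf (nat_lit 157267) (.g (nat_lit 2794) (.e (nat_lit 57419) (nat_lit 12) (.e (nat_lit 336213) (nat_lit 13) (.e (nat_lit 393296) (nat_lit 26) (.e (nat_lit 475213) (nat_lit 42) (.e (nat_lit 720931) (nat_lit 21) (.e (nat_lit 57851) (nat_lit 252) .nil)))))) (.g (nat_lit 6) .nil .nil))) 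
(.lf (nat_lit 157299) (.g (nat_lit 2033) (.e (nat_lit 57419) (nat_lit 12) (.e (nat_lit 336213) (nat_lit 13) (.e (nat_lit 393300) (nat_lit 27) (.e (nat_lit 491560) (nat_lit 10) (.e (nat_lit 344095) (nat_lit 18) .nil))))) .nil)))) (.nd (nat_lit 4) (.nd (nat_lit 5) 
(.lf (nat_lit 157259) (.g (nat_lit 2822) (.e (nat_lit 57419) (nat_lit 12) (.e (nat_lit 336213) (nat_lit 13) (.e (nat_lit 393295) (nat_lit 26) (.e (nat_lit 475214) (nat_lit 42) (.e (nat_lit 720930) (nat_lit 21) (.e (nat_lit 57852) (nat_lit 252) .nil)))))) (.g (nat_lit 4) .nil .nil))) 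
(.lf (nat_lit 157291) (.g (nat_lit 2819) (.e (nat_lit 57419) (nat_lit 12) (.e (nat_lit 336213) (nat_lit 13) (.e (nat_lit 393300) (nat_lit 27) (.e (nat_lit 491558) (nat_lit 10) (.e (nat_lit 344091) (nat_lit 18) (.e (nat_lit 7263) (nat_lit 384) .nil)))))) (.g (nat_lit 5) .nil .nil)))) (.nd (nat_lit 5) 
(.lf (nat_lit 157275) (.g (nat_lit 2044) (.e (nat_lit 57419) (nat_lit 12) (.e (nat_lit 336213) (nat_lit 13) (.e (nat_lit 393299) (nat_lit 27) (.e (nat_lit 491558) (nat_lit 10) (.e (nat_lit 344090) (nat_lit 18) (.e (nat_lit 7265) (nat_lit 384) .nil)))))) (.g (nat_lit 4) .nil .nil))) 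
(.lf (nat_lit 157307) (.g (nat_lit 2920) (.e (nat_lit 57419) (nat_lit 12) (.e (nat_lit 336213) (nat_lit 13) (.e (nat_lit 393301) (nat_lit 27) (.e (nat_lit 491558) (nat_lit 10) (.e (nat_lit 344091) (nat_lit 18) (.e (nat_lit 7265) (nat_lit 384) .nil)))))) (.g (nat_lit 4) .nil .nil)))))) (.nd (nat_lit 3) (.nd (nat_lit 4) (.nd (nat_lit 5) 
(.lf (nat_lit 157255) (.g (nat_lit 2544) (.e (nat_lit 57419) (nat_lit 12) (.e (nat_lit 336213) (nat_lit 13) (.e (nat_lit 393295) (nat_lit 26) (.e (nat_lit 475212) (nat_lit 42) (.e (nat_lit 720930) (nat_lit 21) (.e (nat_lit 57852) (nat_lit 252) .nil)))))) (.g (nat_lit 4) .nil .nil))) 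
(.lf (nat_lit 157287) (.g (nat_lit 1996) (.e (nat_lit 57419) (nat_lit 12) (.e (nat_lit 336213) (nat_lit 13) (.e (nat_lit 393299) (nat_lit 27) (.e (nat_lit 491560) (nat_lit 10) (.e (nat_lit 344096) (nat_lit 18) (.e (nat_lit 7265) (nat_lit 384) .nil)))))) (.g (nat_lit 4) .nil .nil)))) (.nd (nat_lit 5) 
(.lf (nat_lit 157271) (.g (nat_lit 2633) (.e (nat_lit 57419) (nat_lit 12) (.e (nat_lit 336213) (nat_lit 13) (.e (nat_lit 393296) (nat_lit 26) (.e (nat_lit 475214) (nat_lit 42) (.e (nat_lit 720934) (nat_lit 21) .nil))))) .nil)) 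
(.lf (nat_lit 157303) (.g (nat_lit 3549) (.e (nat_lit 57419) (nat_lit 12) (.e (nat_lit 336213) (nat_lit 13) (.e (nat_lit 393300) (nat_lit 27) (.e (nat_lit 491560) (nat_lit 10) (.e (nat_lit 344096) (nat_lit 18) (.e (nat_lit 7266) (nat_lit 384) .nil)))))) (.g (nat_lit 0) .nil .nil))))) (.nd (nat_lit 4) (.nd (nat_lit 5) 
(.lf (nat_lit 157263) (.g (nat_lit 469) (.e (nat_lit 57419) (nat_lit 12) (.e (nat_lit 336213) (nat_lit 13) (.e (nat_lit 393296) (nat_lit 26) .nil))) .nil)) 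
(.lf (nat_lit 157295) (.g (nat_lit 2493) (.e (nat_lit 57419) (nat_lit 12) (.e (nat_lit 336213) (nat_lit 13) (.e (nat_lit 393300) (nat_lit 27) (.e (nat_lit 491560) (nat_lit 10) (.e (nat_lit 344090) (nat_lit 18) (.e (nat_lit 7263) (nat_lit 384) .nil)))))) (.g (nat_lit 5) .nil .nil)))) (.nd (nat_lit 5) 
(.lf (nat_lit 157279) (.g (nat_lit 1487) (.e (nat_lit 57419) (nat_lit 12) (.e (nat_lit 336213) (nat_lit 13) (.e (nat_lit 393299) (nat_lit 27) (.e (nat_lit 491560) (nat_lit 10) (.e (nat_lit 344090) (nat_lit 18) .nil))))) .nil)) 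
(.lf (nat_lit 157311) (.g (nat_lit 2966) (.e (nat_lit 57419) (nat_lit 12) (.e (nat_lit 336213) (nat_lit 13) (.e (nat_lit 393301) (nat_lit 27) (.e (nat_lit 491558) (nat_lit 10) (.e (nat_lit 344096) (nat_lit 18) (.e (nat_lit 7265) (nat_lit 384) .nil)))))) (.g (nat_lit 4) .nil .nil)))))))))

noncomputable def tv2105 : DT := (.nd (nat_lit 0) (.nd (nat_lit 1) (.nd (nat_lit 2) (.nd (nat_lit 3) (.nd (nat_lit 4) (.nd (nat_lit 5) (.nd (nat_lit 6) 
(.lf (nat_lit 157312) (.g (nat_lit 3245) (.e (nat_lit 57419) (nat_lit 12) (.e (nat_lit 336213) (nat_lit 13) (.e (nat_lit 393301) (nat_lit 27) (.e (nat_lit 491559) (nat_lit 10) (.e (nat_lit 344091) (nat_lit 18) .nil))))) .nil)) 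
(.lf (nat_lit 157376) (.g (nat_lit 2449) (.e (nat_lit 65280) (nat_lit 12) (.e (nat_lit 336223) (nat_lit 13) (.e (nat_lit 393301) (nat_lit 27) (.e (nat_lit 491558) (nat_lit 10) (.e (nat_lit 344091) (nat_lit 18) .nil))))) .nil))) (.nd (nat_lit 6) 
(.lf (nat_lit 157344) (.g (nat_lit 2020) (.e (nat_lit 57419) (nat_lit 12) (.e (nat_lit 336231) (nat_lit 14) (.e (nat_lit 401444) (nat_lit 9) (.e (nat_lit 426541) (nat_lit 29) .nil)))) .nil)) 
(.lf (nat_lit 157408) (.g (nat_lit 1829) (.e (nat_lit 57420) (nat_lit 13) (.e (nat_lit 344117) (nat_lit 21) (.e (nat_lit 516151) (nat_lit 9) (.e (nat_lit 426171) (nat_lit 7) .nil)))) .nil)))) (.nd (nat_lit 5) (.nd (nat_lit 6) 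
(.lf (nat_lit 157328) (.g (nat_lit 2246) (.e (nat_lit 57419) (nat_lit 12) (.e (nat_lit 336222) (nat_lit 13) (.e (nat_lit 393260) (nat_lit 21) (.e (nat_lit 409646) (nat_lit 18) (.e (nat_lit 303114) (nat_lit 1) .nil))))) .nil)) 
(.lf (nat_lit 157392) (.g (nat_lit 735) (.e (nat_lit 65280) (nat_lit 12) (.e (nat_lit 336454) (nat_lit 34) (.e (nat_lit 483397) (nat_lit 25) .nil))) .nil))) (.nd (nat_lit 6) 
(.lf (nat_lit 157360) (.g (nat_lit 2492) (.e (nat_lit 65280) (nat_lit 12) (.e (nat_lit 336027) (nat_lit 3) (.e (nat_lit 98373) (nat_lit 29) (.e (nat_lit 450587) (nat_lit 10) (.e (nat_lit 573477) (nat_lit 12) .nil))))) .nil)) 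
(.lf (nat_lit 157424) (.g (nat_lit 3268) (.e (nat_lit 57420) (nat_lit 13) (.e (nat_lit 344117) (nat_lit 21) (.e (nat_lit 516151) (nat_lit 9) (.e (nat_lit 426285) (nat_lit 10) .nil)))) .nil))))) (.nd (nat_lit 4) (.nd (nat_lit 5) (.nd (nat_lit 6) 
(.lf (nat_lit 157320) (.g (nat_lit 147) (.e (nat_lit 57419) (nat_lit 12) (.e (nat_lit 336214) (nat_lit 13) (.e (nat_lit 393292) (nat_lit 26) .nil))) .nil)) 
(.lf (nat_lit 157384) (.g (nat_lit 952) (.e (nat_lit 65280) (nat_lit 12) (.e (nat_lit 336316) (nat_lit 17) (.e (nat_lit 196672) (nat_lit 15) (.e (nat_lit 81927) (nat_lit 11) .nil)))) .nil))) (.nd (nat_lit 6) 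
(.lf (nat_lit 157352) (.g (nat_lit 1632) (.e (nat_lit 65280) (nat_lit 12) (.e (nat_lit 336027) (nat_lit 3) (.e (nat_lit 98372) (nat_lit 29) (.e (nat_lit 450586) (nat_lit 10) (.e (nat_lit 573473) (nat_lit 12) .nil))))) .nil)) 
(.lf (nat_lit 157416) (.g (nat_lit 3829) (.e (nat_lit 57420) (nat_lit 13) (.e (nat_lit 344117) (nat_lit 21) (.e (nat_lit 516151) (nat_lit 9) (.e (nat_lit 426211) (nat_lit 9) .nil)))) .nil)))) (.nd (nat_lit 5) (.nd (nat_lit 6) 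
(.lf (nat_lit 157336) (.g (nat_lit 3107) (.e (nat_lit 57419) (nat_lit 12) (.e (nat_lit 336223) (nat_lit 13) (.e (nat_lit 393301) (nat_lit 27) (.e (nat_lit 491558) (nat_lit 10) (.e (nat_lit 344091) (nat_lit 18) .nil))))) .nil)) 
(.lf (nat_lit 157400) (.g (nat_lit 1796) (.e (nat_lit 57420) (nat_lit 13) (.e (nat_lit 344117) (nat_lit 21) (.e (nat_lit 516129) (nat_lit 3) (.e (nat_lit 221217) (nat_lit 24) .nil)))) .nil))) (.nd (nat_lit 6) 
(.lf (nat_lit 157368) (.g (nat_lit 1870) (.e (nat_lit 65280) (nat_lit 12) (.e (nat_lit 336222) (nat_lit 13) (.e (nat_lit 393260) (nat_lit 21) (.e (nat_lit 409648) (nat_lit 18) (.e (nat_lit 303114) (nat_lit 1) .nil))))) .nil)) 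
(.lf (nat_lit 157432) (.g (nat_lit 4526) (.e (nat_lit 57420) (nat_lit 13) (.e (nat_lit 344117) (nat_lit 21) (.e (nat_lit 516151) (nat_lit 9) (.e (nat_lit 426286) (nat_lit 10) (.e (nat_lit 434245) (nat_lit 28) (.e (nat_lit 573474) (nat_lit 12) (.e (nat_lit 57347) (nat_lit 0) (.e (nat_lit 7263) (nat_lit 384) .nil)))))))) (.g (nat_lit 7) .nil .nil))))))) 
(.nd (nat_lit 3) (.nd (nat_lit 4) (.nd (nat_lit 5) (.nd (nat_lit 6) 
(.lf (nat_lit 157316) (.g (nat_lit 2900) (.e (nat_lit 57419) (nat_lit 12) (.e (nat_lit 336213) (nat_lit 13) (.e (nat_lit 393301) (nat_lit 27) (.e (nat_lit 491560) (nat_lit 10) (.e (nat_lit 344094) (nat_lit 18) .nil))))) .nil)) 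
(.lf (nat_lit 157380) (.g (nat_lit 2509) (.e (nat_lit 65280) (nat_lit 12) (.e (nat_lit 336223) (nat_lit 13) (.e (nat_lit 393301) (nat_lit 27) (.e (nat_lit 491559) (nat_lit 10) (.e (nat_lit 344091) (nat_lit 18) .nil))))) .nil))) (.nd (nat_lit 6) 
(.lf (nat_lit 157348) (.g (nat_lit 2851) (.e (nat_lit 65280) (nat_lit 12) (.e (nat_lit 336011) (nat_lit 2) (.e (nat_lit 90170) (nat_lit 13) (.e (nat_lit 172113) (nat_lit 10) (.e (nat_lit 434248) (nat_lit 28) .nil))))) .nil)) 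
(.lf (nat_lit 157412) (.g (nat_lit 4581) (.e (nat_lit 57420) (nat_lit 13) (.e (nat_lit 344117) (nat_lit 21) (.e (nat_lit 516151) (nat_lit 9) (.e (nat_lit 426171) (nat_lit 7) (.e (nat_lit 409612) (nat_lit 10) (.e (nat_lit 604) (nat_lit 45) (.e (nat_lit 532501) (nat_lit 1) (.e (nat_lit 57851) (nat_lit 252) .nil)))))))) (.g (nat_lit 8) .nil .nil))))) (.nd (nat_lit 5) (.nd (nat_lit 6) 
(.lf (nat_lit 157332) (.g (nat_lit 1887) (.e (nat_lit 57419) (nat_lit 12) (.e (nat_lit 336222) (nat_lit 13) (.e (nat_lit 393260) (nat_lit 21) (.e (nat_lit 409649) (nat_lit 18) (.e (nat_lit 303115) (nat_lit 1) .nil))))) .nil)) 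
(.lf (nat_lit 157396) (.g (nat_lit 1489) (.e (nat_lit 65280) (nat_lit 12) (.e (nat_lit 336456) (nat_lit 34) (.e (nat_lit 483383) (nat_lit 23) (.e (nat_lit 336019) (nat_lit 3) (.e (nat_lit 98335) (nat_lit 18) .nil))))) .nil))) (.nd (nat_lit 6) 
(.lf (nat_lit 157364) (.g (nat_lit 2529) (.e (nat_lit 65280) (nat_lit 12) (.e (nat_lit 336027) (nat_lit 3) (.e (nat_lit 98373) (nat_lit 29) (.e (nat_lit 450588) (nat_lit 10) (.e (nat_lit 573475) (nat_lit 12) .nil))))) .nil)) 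
(.lf (nat_lit 157428) (.g (nat_lit 3423) (.e (nat_lit 57420) (nat_lit 13) (.e (nat_lit 344117) (nat_lit 21) (.e (nat_lit 516151) (nat_lit 9) (.e (nat_lit 426286) (nat_lit 10) (.e (nat_lit 434245) (nat_lit 28) (.e (nat_lit 573473) (nat_lit 12) (.e (nat_lit 57347) (nat_lit 0) (.e (nat_lit 7265) (nat_lit 384) .nil)))))))) (.g (nat_lit 6) .nil .nil)))))) 
(.nd (nat_lit 4) (.nd (nat_lit 5) (.nd (nat_lit 6) 
(.lf (nat_lit 157324) (.g (nat_lit 1668) (.e (nat_lit 57419) (nat_lit 12) (.e (nat_lit 336215) (nat_lit 13) (.e (nat_lit 393294) (nat_lit 26) (.e (nat_lit 475213) (nat_lit 42) (.e (nat_lit 720931) (nat_lit 21) .nil))))) .nil)) 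
(.lf (nat_lit 157388) (.g (nat_lit 1832) (.e (nat_lit 65280) (nat_lit 12) (.e (nat_lit 336326) (nat_lit 18) (.e (nat_lit 204854) (nat_lit 26) (.e (nat_lit 336211) (nat_lit 13) (.e (nat_lit 393251) (nat_lit 18) .nil))))) .nil))) (.nd (nat_lit 6) 
(.lf (nat_lit 157356) (.g (nat_lit 3107) (.e (nat_lit 65280) (nat_lit 12) (.e (nat_lit 336027) (nat_lit 3) (.e (nat_lit 98372) (nat_lit 29) (.e (nat_lit 450588) (nat_lit 10) (.e (nat_lit 573473) (nat_lit 12) .nil))))) .nil)) 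
(.lf (nat_lit 157420) (.g (nat_lit 4956) (.e (nat_lit 57420) (nat_lit 13) (.e (nat_lit 344117) (nat_lit 21) (.e (nat_lit 516151) (nat_lit 9) (.e (nat_lit 426211) (nat_lit 9) (.e (nat_lit 426125) (nat_lit 2) (.e (nat_lit 196686) (nat_lit 18) (.e (nat_lit 1117) (nat_lit 82) (.e (nat_lit 8423) (nat_lit 134) .nil)))))))) (.g (nat_lit 4) .nil .nil))))) (.nd (nat_lit 5) (.nd (nat_lit 6) 
(.lf (nat_lit 157340) (.g (nat_lit 2952) (.e (nat_lit 57419) (nat_lit 12) (.e (nat_lit 336223) (nat_lit 13) (.e (nat_lit 393301) (nat_lit 27) (.e (nat_lit 491560) (nat_lit 10) (.e (nat_lit 344094) (nat_lit 18) .nil))))) .nil)) 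
(.lf (nat_lit 157404) (.g (nat_lit 3196) (.e (nat_lit 57420) (nat_lit 13) (.e (nat_lit 344117) (nat_lit 21) (.e (nat_lit 516151) (nat_lit 9) (.e (nat_lit 426166) (nat_lit 7) (.e (nat_lit 409612) (nat_lit 10) .nil))))) .nil))) (.nd (nat_lit 6) 
(.lf (nat_lit 157372) (.g (nat_lit 1626) (.e (nat_lit 65280) (nat_lit 12) (.e (nat_lit 336223) (nat_lit 13) (.e (nat_lit 393234) (nat_lit 17) (.e (nat_lit 7591) (nat_lit 407) (.e (nat_lit 73730) (nat_lit 0) .nil))))) .nil)) 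
(.lf (nat_lit 157436) (.g (nat_lit 2799) (.e (nat_lit 57420) (nat_lit 13) (.e (nat_lit 344117) (nat_lit 21) (.e (nat_lit 516151) (nat_lit 9) (.e (nat_lit 426286) (nat_lit 10) (.e (nat_lit 434247) (nat_lit 28) (.e (nat_lit 573477) (nat_lit 12) (.e (nat_lit 57351) (nat_lit 0) (.e (nat_lit 7263) (nat_lit 384) .nil)))))))) (.g (nat_lit 5) .nil .nil)))))))) 
(.nd (nat_lit 2) (.nd (nat_lit 3) (.nd (nat_lit 4) (.nd (nat_lit 5) (.nd (nat_lit 6) 
(.lf (nat_lit 157314) (.g (nat_lit 3756) (.e (nat_lit 57419) (nat_lit 12) (.e (nat_lit 336213) (nat_lit 13) (.e (nat_lit 393301) (nat_lit 27) (.e (nat_lit 491560) (nat_lit 10) (.e (nat_lit 344090) (nat_lit 18) (.e (nat_lit 7265) (nat_lit 384) .nil)))))) (.g (nat_lit 4) .nil .nil))) 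
(.lf (nat_lit 157378) (.g (nat_lit 2384) (.e (nat_lit 65280) (nat_lit 12) (.e (nat_lit 336223) (nat_lit 13) (.e (nat_lit 393301) (nat_lit 27) (.e (nat_lit 491558) (nat_lit 10) (.e (nat_lit 344096) (nat_lit 18) .nil))))) .nil))) (.nd (nat_lit 6) 
(.lf (nat_lit 157346) (.g (nat_lit 2902) (.e (nat_lit 65280) (nat_lit 12) (.e (nat_lit 336011) (nat_lit 2) (.e (nat_lit 90170) (nat_lit 13) (.e (nat_lit 172113) (nat_lit 10) (.e (nat_lit 434245) (nat_lit 28) .nil))))) .nil)) 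
(.lf (nat_lit 157410) (.g (nat_lit 2506) (.e (nat_lit 57420) (nat_lit 13) (.e (nat_lit 344117) (nat_lit 21) (.e (nat_lit 516151) (nat_lit 9) (.e (nat_lit 426171) (nat_lit 7) (.e (nat_lit 409611) (nat_lit 10) .nil))))) .nil)))) (.nd (nat_lit 5) (.nd (nat_lit 6) 
(.lf (nat_lit 157330) (.g (nat_lit 1937) (.e (nat_lit 57419) (nat_lit 12) (.e (nat_lit 336222) (nat_lit 13) (.e (nat_lit 393260) (nat_lit 21) (.e (nat_lit 409648) (nat_lit 18) (.e (nat_lit 303114) (nat_lit 1) .nil))))) .nil)) 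
(.lf (nat_lit 157394) (.g (nat_lit 1213) (.e (nat_lit 65280) (nat_lit 12) (.e (nat_lit 336454) (nat_lit 34) (.e (nat_lit 483408) (nat_lit 26) (.e (nat_lit 385067) (nat_lit 26) .nil)))) .nil))) (.nd (nat_lit 6) 
(.lf (nat_lit 157362) (.g (nat_lit 1185) (.e (nat_lit 65280) (nat_lit 12) (.e (nat_lit 336027) (nat_lit 3) (.e (nat_lit 98373) (nat_lit 29) (.e (nat_lit 450588) (nat_lit 10) .nil)))) .nil)) 
(.lf (nat_lit 157426) (.g (nat_lit 1966) (.e (nat_lit 57420) (nat_lit 13) (.e (nat_lit 344117) (nat_lit 21) (.e (nat_lit 516151) (nat_lit 9) (.e (nat_lit 426286) (nat_lit 10) (.e (nat_lit 434245) (nat_lit 28) .nil))))) .nil))))) (.nd (nat_lit 4) (.nd (nat_lit 5) (.nd (nat_lit 6) 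
(.lf (nat_lit 157322) (.g (nat_lit 886) (.e (nat_lit 57419) (nat_lit 12) (.e (nat_lit 336215) (nat_lit 13) (.e (nat_lit 393279) (nat_lit 23) .nil))) .nil)) 
(.lf (nat_lit 157386) (.g (nat_lit 2424) (.e (nat_lit 65280) (nat_lit 12) (.e (nat_lit 336324) (nat_lit 18) (.e (nat_lit 204854) (nat_lit 26) (.e (nat_lit 336211) (nat_lit 13) (.e (nat_lit 393252) (nat_lit 18) .nil))))) .nil))) (.nd (nat_lit 6) 
(.lf (nat_lit 157354) (.g (nat_lit 1796) (.e (nat_lit 65280) (nat_lit 12) (.e (nat_lit 336027) (nat_lit 3) (.e (nat_lit 98372) (nat_lit 29) (.e (nat_lit 450586) (nat_lit 10) (.e (nat_lit 573477) (nat_lit 12) .nil))))) .nil)) 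
(.lf (nat_lit 157418) (.g (nat_lit 4962) (.e (nat_lit 57420) (nat_lit 13) (.e (nat_lit 344117) (nat_lit 21) (.e (nat_lit 516151) (nat_lit 9) (.e (nat_lit 426211) (nat_lit 9) (.e (nat_lit 426125) (nat_lit 2) (.e (nat_lit 196683) (nat_lit 18) (.e (nat_lit 1120) (nat_lit 82) (.e (nat_lit 8424) (nat_lit 134) .nil)))))))) (.g (nat_lit 4) .nil .nil))))) (.nd (nat_lit 5) (.nd (nat_lit 6) 
(.lf (nat_lit 157338) (.g (nat_lit 3183) (.e (nat_lit 57419) (nat_lit 12) (.e (nat_lit 336223) (nat_lit 13) (.e (nat_lit 393301) (nat_lit 27) (.e (nat_lit 491559) (nat_lit 10) (.e (nat_lit 344091) (nat_lit 18) .nil))))) .nil)) 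
(.lf (nat_lit 157402) (.g (nat_lit 1649) (.e (nat_lit 57420) (nat_lit 13) (.e (nat_lit 344117) (nat_lit 21) (.e (nat_lit 516143) (nat_lit 9) (.e (nat_lit 426173) (nat_lit 7) .nil)))) .nil))) (.nd (nat_lit 6) 
(.lf (nat_lit 157370) (.g (nat_lit 1840) (.e (nat_lit 65280) (nat_lit 12) (.e (nat_lit 336222) (nat_lit 13) (.e (nat_lit 393260) (nat_lit 21) (.e (nat_lit 409650) (nat_lit 19) .nil)))) .nil)) 
(.lf (nat_lit 157434) (.g (nat_lit 2071) (.e (nat_lit 57420) (nat_lit 13) (.e (nat_lit 344117) (nat_lit 21) (.e (nat_lit 516151) (nat_lit 9) (.e (nat_lit 426286) (nat_lit 10) (.e (nat_lit 434247) (nat_lit 28) .nil))))) .nil)))))) (.nd (nat_lit 3) (.nd (nat_lit 4) (.nd (nat_lit 5) (.nd (nat_lit 6) 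
(.lf (nat_lit 157318) (.g (nat_lit 3314) (.e (nat_lit 57419) (nat_lit 12) (.e (nat_lit 336213) (nat_lit 13) (.e (nat_lit 393301) (nat_lit 27) (.e (nat_lit 491560) (nat_lit 10) (.e (nat_lit 344096) (nat_lit 18) .nil))))) .nil)) 
(.lf (nat_lit 157382) (.g (nat_lit 2745) (.e (nat_lit 65280) (nat_lit 12) (.e (nat_lit 336223) (nat_lit 13) (.e (nat_lit 393301) (nat_lit 27) (.e (nat_lit 491560) (nat_lit 10) (.e (nat_lit 344091) (nat_lit 18) .nil))))) .nil))) (.nd (nat_lit 6) 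
(.lf (nat_lit 157350) (.g (nat_lit 2412) (.e (nat_lit 65280) (nat_lit 12) (.e (nat_lit 336013) (nat_lit 2) (.e (nat_lit 90170) (nat_lit 13) (.e (nat_lit 172079) (nat_lit 7) .nil)))) .nil)) 
(.lf (nat_lit 157414) (.g (nat_lit 2986) (.e (nat_lit 57420) (nat_lit 13) (.e (nat_lit 344117) (nat_lit 21) (.e (nat_lit 516151) (nat_lit 9) (.e (nat_lit 426173) (nat_lit 7) .nil)))) .nil)))) (.nd (nat_lit 5) (.nd (nat_lit 6) 
(.lf (nat_lit 157334) (.g (nat_lit 1558) (.e (nat_lit 57419) (nat_lit 12) (.e (nat_lit 336223) (nat_lit 13) (.e (nat_lit 393234) (nat_lit 17) (.e (nat_lit 7593) (nat_lit 407) .nil)))) .nil)) 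
(.lf (nat_lit 157398) (.g (nat_lit 1234) (.e (nat_lit 65280) (nat_lit 12) (.e (nat_lit 336456) (nat_lit 34) (.e (nat_lit 483396) (nat_lit 24) (.e (nat_lit 344119) (nat_lit 21) .nil)))) .nil))) (.nd (nat_lit 6) 
(.lf (nat_lit 157366) (.g (nat_lit 871) (.e (nat_lit 65280) (nat_lit 12) (.e (nat_lit 336213) (nat_lit 13) (.e (nat_lit 393233) (nat_lit 17) .nil))) .nil)) 
(.lf (nat_lit 157430) (.g (nat_lit 2111) (.e (nat_lit 57420) (nat_lit 13) (.e (nat_lit 344117) (nat_lit 21) (.e (nat_lit 516151) (nat_lit 9) (.e (nat_lit 426286) (nat_lit 10) (.e (nat_lit 434245) (nat_lit 28) (.e (nat_lit 573473) (nat_lit 12) (.e (nat_lit 57352) (nat_lit 0) (.e (nat_lit 7265) (nat_lit 384) .nil)))))))) (.g (nat_lit 4) .nil .nil)))))) 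
(.nd (nat_lit 4) (.nd (nat_lit 5) (.nd (nat_lit 6) 
(.lf (nat_lit 157326) (.g (nat_lit 2321) (.e (nat_lit 57419) (nat_lit 12) (.e (nat_lit 336222) (nat_lit 13) (.e (nat_lit 393260) (nat_lit 21) (.e (nat_lit 409643) (nat_lit 18) (.e (nat_lit 303115) (nat_lit 1) (.e (nat_lit 164182) (nat_lit 154) .nil)))))) (.g (nat_lit 5) .nil .nil))) 
(.lf (nat_lit 157390) (.g (nat_lit 1223) (.e (nat_lit 65280) (nat_lit 12) (.e (nat_lit 336454) (nat_lit 34) (.e (nat_lit 483383) (nat_lit 23) (.e (nat_lit 336019) (nat_lit 3) .nil)))) .nil))) (.nd (nat_lit 6) 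
(.lf (nat_lit 157358) (.g (nat_lit 1799) (.e (nat_lit 65280) (nat_lit 12) (.e (nat_lit 336027) (nat_lit 3) (.e (nat_lit 98373) (nat_lit 29) (.e (nat_lit 450586) (nat_lit 10) .nil)))) .nil)) 
(.lf (nat_lit 157422) (.g (nat_lit 4705) (.e (nat_lit 57420) (nat_lit 13) (.e (nat_lit 344117) (nat_lit 21) (.e (nat_lit 516151) (nat_lit 9) (.e (nat_lit 426211) (nat_lit 9) (.e (nat_lit 426125) (nat_lit 2) (.e (nat_lit 204544) (nat_lit 19) (.e (nat_lit 57586) (nat_lit 61) (.e (nat_lit 5201) (nat_lit 294) .nil)))))))) (.g (nat_lit 4) .nil .nil))))) (.nd (nat_lit 5) (.nd (nat_lit 6) 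
(.lf (nat_lit 157342) (.g (nat_lit 1922) (.e (nat_lit 57419) (nat_lit 12) (.e (nat_lit 336226) (nat_lit 14) (.e (nat_lit 401437) (nat_lit 9) (.e (nat_lit 426542) (nat_lit 29) .nil)))) .nil)) 
(.lf (nat_lit 157406) (.g (nat_lit 3655) (.e (nat_lit 57420) (nat_lit 13) (.e (nat_lit 344117) (nat_lit 21) (.e (nat_lit 516151) (nat_lit 9) (.e (nat_lit 426170) (nat_lit 7) (.e (nat_lit 409611) (nat_lit 10) .nil))))) .nil))) (.nd (nat_lit 6) 
(.lf (nat_lit 157374) (.g (nat_lit 1639) (.e (nat_lit 65280) (nat_lit 12) (.e (nat_lit 336223) (nat_lit 13) (.e (nat_lit 393234) (nat_lit 17) (.e (nat_lit 7593) (nat_lit 407) (.e (nat_lit 73731) (nat_lit 0) .nil))))) .nil)) 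
(.lf (nat_lit 157438) (.g (nat_lit 2073) (.e (nat_lit 57420) (nat_lit 13) (.e (nat_lit 344117) (nat_lit 21) (.e (nat_lit 516151) (nat_lit 9) (.e (nat_lit 426286) (nat_lit 10) (.e (nat_lit 434247) (nat_lit 28) (.e (nat_lit 573478) (nat_lit 12) (.e (nat_lit 57344) (nat_lit 0) (.e (nat_lit 7263) (nat_lit 384) .nil)))))))) (.g (nat_lit 4) .nil .nil))))))))) 
(.nd (nat_lit 1) (.nd (nat_lit 2) (.nd (nat_lit 3) (.nd (nat_lit 4) (.nd (nat_lit 5) 
(.nd (nat_lit 6) 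
(.lf (nat_lit 157313) (.g (nat_lit 3332) (.e (nat_lit 57419) (nat_lit 12) (.e (nat_lit 336213) (nat_lit 13) (.e (nat_lit 393301) (nat_lit 27) (.e (nat_lit 491560) (nat_lit 10) (.e (nat_lit 344090) (nat_lit 18) .nil))))) .nil)) 
(.lf (nat_lit 157377) (.g (nat_lit 2259) (.e (nat_lit 65280) (nat_lit 12) (.e (nat_lit 336223) (nat_lit 13) (.e (nat_lit 393301) (nat_lit 27) (.e (nat_lit 491558) (nat_lit 10) (.e (nat_lit 344095) (nat_lit 18) .nil))))) .nil))) (.nd (nat_lit 6) 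
(.lf (nat_lit 157345) (.g (nat_lit 1835) (.e (nat_lit 65280) (nat_lit 12) (.e (nat_lit 336004) (nat_lit 2) (.e (nat_lit 90176) (nat_lit 15) (.e (nat_lit 188450) (nat_lit 23) (.e (nat_lit 212736) (nat_lit 1) .nil))))) .nil)) 
(.lf (nat_lit 157409) (.g (nat_lit 2506) (.e (nat_lit 57420) (nat_lit 13) (.e (nat_lit 344117) (nat_lit 21) (.e (nat_lit 516151) (nat_lit 9) (.e (nat_lit 426171) (nat_lit 7) (.e (nat_lit 409609) (nat_lit 10) .nil))))) .nil)))) (.nd (nat_lit 5) (.nd (nat_lit 6) 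
(.lf (nat_lit 157329) (.g (nat_lit 2049) (.e (nat_lit 57419) (nat_lit 12) (.e (nat_lit 336222) (nat_lit 13) (.e (nat_lit 393260) (nat_lit 21) (.e (nat_lit 409646) (nat_lit 18) (.e (nat_lit 303115) (nat_lit 1) (.e (nat_lit 164181) (nat_lit 154) .nil)))))) (.g (nat_lit 4) .nil .nil))) 
(.lf (nat_lit 157393) (.g (nat_lit 735) (.e (nat_lit 65280) (nat_lit 12) (.e (nat_lit 336454) (nat_lit 34) (.e (nat_lit 483401) (nat_lit 25) .nil))) .nil))) (.nd (nat_lit 6) 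
(.lf (nat_lit 157361) (.g (nat_lit 2381) (.e (nat_lit 65280) (nat_lit 12) (.e (nat_lit 336027) (nat_lit 3) (.e (nat_lit 98373) (nat_lit 29) (.e (nat_lit 450587) (nat_lit 10) (.e (nat_lit 573478) (nat_lit 12) .nil))))) .nil)) 
(.lf (nat_lit 157425) (.g (nat_lit 1234) (.e (nat_lit 57420) (nat_lit 13) (.e (nat_lit 344117) (nat_lit 21) (.e (nat_lit 516151) (nat_lit 9) (.e (nat_lit 426286) (nat_lit 10) .nil)))) .nil))))) (.nd (nat_lit 4) (.nd (nat_lit 5) (.nd (nat_lit 6) 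
(.lf (nat_lit 157321) (.g (nat_lit 1378) (.e (nat_lit 57419) (nat_lit 12) (.e (nat_lit 336215) (nat_lit 13) (.e (nat_lit 393274) (nat_lit 23) (.e (nat_lit 433920) (nat_lit 20) .nil)))) .nil)) 
(.lf (nat_lit 157385) (.g (nat_lit 1990) (.e (nat_lit 65280) (nat_lit 12) (.e (nat_lit 336324) (nat_lit 18) (.e (nat_lit 204854) (nat_lit 26) (.e (nat_lit 336211) (nat_lit 13) .nil)))) .nil))) (.nd (nat_lit 6) 
(.lf (nat_lit 157353) (.g (nat_lit 1764) (.e (nat_lit 65280) (nat_lit 12) (.e (nat_lit 336027) (nat_lit 3) (.e (nat_lit 98372) (nat_lit 29) (.e (nat_lit 450586) (nat_lit 10) (.e (nat_lit 573475) (nat_lit 12) .nil))))) .nil)) 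
(.lf (nat_lit 157417) (.g (nat_lit 4697) (.e (nat_lit 57420) (nat_lit 13) (.e (nat_lit 344117) (nat_lit 21) (.e (nat_lit 516151) (nat_lit 9) (.e (nat_lit 426211) (nat_lit 9) (.e (nat_lit 426125) (nat_lit 2) .nil))))) .nil)))) (.nd (nat_lit 5) (.nd (nat_lit 6) 
(.lf (nat_lit 157337) (.g (nat_lit 3036) (.e (nat_lit 57419) (nat_lit 12) (.e (nat_lit 336223) (nat_lit 13) (.e (nat_lit 393301) (nat_lit 27) (.e (nat_lit 491558) (nat_lit 10) (.e (nat_lit 344096) (nat_lit 18) .nil))))) .nil)) 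
(.lf (nat_lit 157401) (.g (nat_lit 1510) (.e (nat_lit 57420) (nat_lit 13) (.e (nat_lit 344117) (nat_lit 21) (.e (nat_lit 516130) (nat_lit 3) (.e (nat_lit 229120) (nat_lit 1) .nil)))) .nil))) (.nd (nat_lit 6) 
(.lf (nat_lit 157369) (.g (nat_lit 1933) (.e (nat_lit 65280) (nat_lit 12) (.e (nat_lit 336222) (nat_lit 13) (.e (nat_lit 393260) (nat_lit 21) (.e (nat_lit 409649) (nat_lit 18) (.e (nat_lit 303114) (nat_lit 1) .nil))))) .nil)) 
(.lf (nat_lit 157433) (.g (nat_lit 4444) (.e (nat_lit 57420) (nat_lit 13) (.e (nat_lit 344117) (nat_lit 21) (.e (nat_lit 516151) (nat_lit 9) (.e (nat_lit 426286) (nat_lit 10) (.e (nat_lit 434245) (nat_lit 28) (.e (nat_lit 573474) (nat_lit 12) (.e (nat_lit 57348) (nat_lit 0) (.e (nat_lit 7263) (nat_lit 384) .nil)))))))) (.g (nat_lit 7) .nil .nil))))))) 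
(.nd (nat_lit 3) (.nd (nat_lit 4) (.nd (nat_lit 5) (.nd (nat_lit 6) 
(.lf (nat_lit 157317) (.g (nat_lit 3277) (.e (nat_lit 57419) (nat_lit 12) (.e (nat_lit 336213) (nat_lit 13) (.e (nat_lit 393301) (nat_lit 27) (.e (nat_lit 491560) (nat_lit 10) (.e (nat_lit 344094) (nat_lit 18) (.e (nat_lit 7265) (nat_lit 384) .nil)))))) (.g (nat_lit 4) .nil .nil))) 
(.lf (nat_lit 157381) (.g (nat_lit 2559) (.e (nat_lit 65280) (nat_lit 12) (.e (nat_lit 336223) (nat_lit 13) (.e (nat_lit 393301) (nat_lit 27) (.e (nat_lit 491559) (nat_lit 10) (.e (nat_lit 344096) (nat_lit 18) .nil))))) .nil))) (.nd (nat_lit 6) 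
(.lf (nat_lit 157349) (.g (nat_lit 2007) (.e (nat_lit 65280) (nat_lit 12) (.e (nat_lit 336012) (nat_lit 2) (.e (nat_lit 90176) (nat_lit 15) (.e (nat_lit 188450) (nat_lit 23) (.e (nat_lit 212736) (nat_lit 1) .nil))))) .nil)) 
(.lf (nat_lit 157413) (.g (nat_lit 4696) (.e (nat_lit 57420) (nat_lit 13) (.e (nat_lit 344117) (nat_lit 21) (.e (nat_lit 516151) (nat_lit 9) (.e (nat_lit 426171) (nat_lit 7) (.e (nat_lit 409617) (nat_lit 10) (.e (nat_lit 604) (nat_lit 45) (.e (nat_lit 532501) (nat_lit 1) (.e (nat_lit 57851) (nat_lit 252) .nil)))))))) (.g (nat_lit 8) .nil .nil))))) (.nd (nat_lit 5) (.nd (nat_lit 6) 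
(.lf (nat_lit 157333) (.g (nat_lit 1581) (.e (nat_lit 57419) (nat_lit 12) (.e (nat_lit 336223) (nat_lit 13) (.e (nat_lit 393234) (nat_lit 17) (.e (nat_lit 7591) (nat_lit 407) .nil)))) .nil)) 
(.lf (nat_lit 157397) (.g (nat_lit 1140) (.e (nat_lit 65280) (nat_lit 12) (.e (nat_lit 336456) (nat_lit 34) (.e (nat_lit 483391) (nat_lit 23) (.e (nat_lit 336017) (nat_lit 3) (.e (nat_lit 98334) (nat_lit 18) .nil))))) .nil))) (.nd (nat_lit 6) 
(.lf (nat_lit 157365) (.g (nat_lit 1316) (.e (nat_lit 65280) (nat_lit 12) (.e (nat_lit 336059) (nat_lit 7) (.e (nat_lit 319534) (nat_lit 16) (.e (nat_lit 286756) (nat_lit 10) .nil)))) .nil)) 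
(.lf (nat_lit 157429) (.g (nat_lit 4570) (.e (nat_lit 57420) (nat_lit 13) (.e (nat_lit 344117) (nat_lit 21) (.e (nat_lit 516151) (nat_lit 9) (.e (nat_lit 426286) (nat_lit 10) (.e (nat_lit 434245) (nat_lit 28) (.e (nat_lit 573473) (nat_lit 12) (.e (nat_lit 57347) (nat_lit 0) (.e (nat_lit 7266) (nat_lit 384) .nil)))))))) (.g (nat_lit 8) .nil .nil)))))) 
(.nd (nat_lit 4) (.nd (nat_lit 5) (.nd (nat_lit 6) 
(.lf (nat_lit 157325) (.g (nat_lit 1931) (.e (nat_lit 57419) (nat_lit 12) (.e (nat_lit 336222) (nat_lit 13) (.e (nat_lit 393260) (nat_lit 21) (.e (nat_lit 409643) (nat_lit 18) (.e (nat_lit 303115) (nat_lit 1) (.e (nat_lit 164176) (nat_lit 154) .nil)))))) (.g (nat_lit 4) .nil .nil))) 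
(.lf (nat_lit 157389) (.g (nat_lit 1834) (.e (nat_lit 65280) (nat_lit 12) (.e (nat_lit 336326) (nat_lit 18) (.e (nat_lit 204854) (nat_lit 26) (.e (nat_lit 336211) (nat_lit 13) (.e (nat_lit 393253) (nat_lit 18) .nil))))) .nil))) (.nd (nat_lit 6) 
(.lf (nat_lit 157357) (.g (nat_lit 3067) (.e (nat_lit 65280) (nat_lit 12) (.e (nat_lit 336027) (nat_lit 3) (.e (nat_lit 98372) (nat_lit 29) (.e (nat_lit 450588) (nat_lit 10) (.e (nat_lit 573475) (nat_lit 12) .nil))))) .nil)) 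
(.lf (nat_lit 157421) (.g (nat_lit 5114) (.e (nat_lit 57420) (nat_lit 13) (.e (nat_lit 344117) (nat_lit 21) (.e (nat_lit 516151) (nat_lit 9) (.e (nat_lit 426211) (nat_lit 9) (.e (nat_lit 426125) (nat_lit 2) (.e (nat_lit 204544) (nat_lit 19) (.e (nat_lit 57585) (nat_lit 61) (.e (nat_lit 5201) (nat_lit 294) .nil)))))))) (.g (nat_lit 5) .nil .nil))))) (.nd (nat_lit 5) (.nd (nat_lit 6) 
(.lf (nat_lit 157341) (.g (nat_lit 3329) (.e (nat_lit 57419) (nat_lit 12) (.e (nat_lit 336223) (nat_lit 13) (.e (nat_lit 393301) (nat_lit 27) (.e (nat_lit 491560) (nat_lit 10) (.e (nat_lit 344096) (nat_lit 18) .nil))))) .nil)) 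
(.lf (nat_lit 157405) (.g (nat_lit 3171) (.e (nat_lit 57420) (nat_lit 13) (.e (nat_lit 344117) (nat_lit 21) (.e (nat_lit 516151) (nat_lit 9) (.e (nat_lit 426170) (nat_lit 7) .nil)))) .nil))) (.nd (nat_lit 6) 
(.lf (nat_lit 157373) (.g (nat_lit 1758) (.e (nat_lit 65280) (nat_lit 12) (.e (nat_lit 336223) (nat_lit 13) (.e (nat_lit 393234) (nat_lit 17) (.e (nat_lit 7593) (nat_lit 407) (.e (nat_lit 73730) (nat_lit 0) .nil))))) .nil)) 
(.lf (nat_lit 157437) (.g (nat_lit 2892) (.e (nat_lit 57420) (nat_lit 13) (.e (nat_lit 344117) (nat_lit 21) (.e (nat_lit 516151) (nat_lit 9) (.e (nat_lit 426286) (nat_lit 10) (.e (nat_lit 434247) (nat_lit 28) (.e (nat_lit 573477) (nat_lit 12) (.e (nat_lit 57351) (nat_lit 0) (.e (nat_lit 7265) (nat_lit 384) .nil)))))))) (.g (nat_lit 5) .nil .nil)))))))) 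
(.nd (nat_lit 2) (.nd (nat_lit 3) (.nd (nat_lit 4) (.nd (nat_lit 5) (.nd (nat_lit 6) 
(.lf (nat_lit 157315) (.g (nat_lit 3382) (.e (nat_lit 57419) (nat_lit 12) (.e (nat_lit 336213) (nat_lit 13) (.e (nat_lit 393301) (nat_lit 27) (.e (nat_lit 491560) (nat_lit 10) (.e (nat_lit 344091) (nat_lit 18) .nil))))) .nil)) 
(.lf (nat_lit 157379) (.g (nat_lit 2600) (.e (nat_lit 65280) (nat_lit 12) (.e (nat_lit 336223) (nat_lit 13) (.e (nat_lit 393301) (nat_lit 27) (.e (nat_lit 491559) (nat_lit 10) (.e (nat_lit 344090) (nat_lit 18) .nil))))) .nil))) (.nd (nat_lit 6) 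
(.lf (nat_lit 157347) (.g (nat_lit 2930) (.e (nat_lit 65280) (nat_lit 12) (.e (nat_lit 336011) (nat_lit 2) (.e (nat_lit 90170) (nat_lit 13) (.e (nat_lit 172113) (nat_lit 10) (.e (nat_lit 434247) (nat_lit 28) .nil))))) .nil)) 
(.lf (nat_lit 157411) (.g (nat_lit 2573) (.e (nat_lit 57420) (nat_lit 13) (.e (nat_lit 344117) (nat_lit 21) (.e (nat_lit 516151) (nat_lit 9) (.e (nat_lit 426171) (nat_lit 7) (.e (nat_lit 409611) (nat_lit 10) (.e (nat_lit 604) (nat_lit 45) (.e (nat_lit 532501) (nat_lit 1) (.e (nat_lit 57851) (nat_lit 252) .nil)))))))) (.g (nat_lit 4) .nil .nil))))) (.nd (nat_lit 5) (.nd (nat_lit 6) 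
(.lf (nat_lit 157331) (.g (nat_lit 1992) (.e (nat_lit 57419) (nat_lit 12) (.e (nat_lit 336222) (nat_lit 13) (.e (nat_lit 393260) (nat_lit 21) (.e (nat_lit 409649) (nat_lit 18) (.e (nat_lit 303114) (nat_lit 1) .nil))))) .nil)) 
(.lf (nat_lit 157395) (.g (nat_lit 964) (.e (nat_lit 65280) (nat_lit 12) (.e (nat_lit 336456) (nat_lit 34) (.e (nat_lit 483383) (nat_lit 23) (.e (nat_lit 336019) (nat_lit 3) .nil)))) .nil))) (.nd (nat_lit 6) 
(.lf (nat_lit 157363) (.g (nat_lit 2546) (.e (nat_lit 65280) (nat_lit 12) (.e (nat_lit 336027) (nat_lit 3) (.e (nat_lit 98373) (nat_lit 29) (.e (nat_lit 450588) (nat_lit 10) (.e (nat_lit 573473) (nat_lit 12) .nil))))) .nil)) 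
(.lf (nat_lit 157427) (.g (nat_lit 3428) (.e (nat_lit 57420) (nat_lit 13) (.e (nat_lit 344117) (nat_lit 21) (.e (nat_lit 516151) (nat_lit 9) (.e (nat_lit 426286) (nat_lit 10) (.e (nat_lit 434245) (nat_lit 28) (.e (nat_lit 573473) (nat_lit 12) (.e (nat_lit 57347) (nat_lit 0) (.e (nat_lit 7261) (nat_lit 384) .nil)))))))) (.g (nat_lit 6) .nil .nil)))))) 
(.nd (nat_lit 4) (.nd (nat_lit 5) (.nd (nat_lit 6) 
(.lf (nat_lit 157323) (.g (nat_lit 642) (.e (nat_lit 57419) (nat_lit 12) (.e (nat_lit 336215) (nat_lit 13) (.e (nat_lit 393294) (nat_lit 26) .nil))) .nil)) 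
(.lf (nat_lit 157387) (.g (nat_lit 1232) (.e (nat_lit 65280) (nat_lit 12) (.e (nat_lit 336324) (nat_lit 18) (.e (nat_lit 204876) (nat_lit 31) (.e (nat_lit 376842) (nat_lit 11) .nil)))) .nil))) (.nd (nat_lit 6) 
(.lf (nat_lit 157355) (.g (nat_lit 1742) (.e (nat_lit 65280) (nat_lit 12) (.e (nat_lit 336027) (nat_lit 3) (.e (nat_lit 98372) (nat_lit 29) (.e (nat_lit 450586) (nat_lit 10) (.e (nat_lit 573478) (nat_lit 12) .nil))))) .nil)) 
(.lf (nat_lit 157419) (.g (nat_lit 4969) (.e (nat_lit 57420) (nat_lit 13) (.e (nat_lit 344117) (nat_lit 21) (.e (nat_lit 516151) (nat_lit 9) (.e (nat_lit 426211) (nat_lit 9) (.e (nat_lit 426125) (nat_lit 2) (.e (nat_lit 196686) (nat_lit 18) (.e (nat_lit 1112) (nat_lit 82) (.e (nat_lit 8424) (nat_lit 134) .nil)))))))) (.g (nat_lit 4) .nil .nil))))) (.nd (nat_lit 5) (.nd (nat_lit 6) 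
(.lf (nat_lit 157339) (.g (nat_lit 3169) (.e (nat_lit 57419) (nat_lit 12) (.e (nat_lit 336223) (nat_lit 13) (.e (nat_lit 393301) (nat_lit 27) (.e (nat_lit 491560) (nat_lit 10) (.e (nat_lit 344090) (nat_lit 18) .nil))))) .nil)) 
(.lf (nat_lit 157403) (.g (nat_lit 3075) (.e (nat_lit 57420) (nat_lit 13) (.e (nat_lit 344117) (nat_lit 21) (.e (nat_lit 516151) (nat_lit 9) (.e (nat_lit 426166) (nat_lit 7) .nil)))) .nil))) (.nd (nat_lit 6) 
(.lf (nat_lit 157371) (.g (nat_lit 1876) (.e (nat_lit 65280) (nat_lit 12) (.e (nat_lit 336223) (nat_lit 13) (.e (nat_lit 393234) (nat_lit 17) (.e (nat_lit 7591) (nat_lit 407) (.e (nat_lit 73729) (nat_lit 0) .nil))))) .nil)) 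
(.lf (nat_lit 157435) (.g (nat_lit 2795) (.e (nat_lit 57420) (nat_lit 13) (.e (nat_lit 344117) (nat_lit 21) (.e (nat_lit 516151) (nat_lit 9) (.e (nat_lit 426286) (nat_lit 10) (.e (nat_lit 434247) (nat_lit 28) (.e (nat_lit 573477) (nat_lit 12) (.e (nat_lit 57351) (nat_lit 0) (.e (nat_lit 7261) (nat_lit 384) .nil)))))))) (.g (nat_lit 5) .nil .nil))))))) 
(.nd (nat_lit 3) (.nd (nat_lit 4) (.nd (nat_lit 5) (.nd (nat_lit 6) 
(.lf (nat_lit 157319) (.g (nat_lit 3763) (.e (nat_lit 57419) (nat_lit 12) (.e (nat_lit 336213) (nat_lit 13) (.e (nat_lit 393301) (nat_lit 27) (.e (nat_lit 491560) (nat_lit 10) (.e (nat_lit 344096) (nat_lit 18) (.e (nat_lit 7266) (nat_lit 384) .nil)))))) (.g (nat_lit 4) .nil .nil))) 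
(.lf (nat_lit 157383) (.g (nat_lit 2656) (.e (nat_lit 65280) (nat_lit 12) (.e (nat_lit 336223) (nat_lit 13) (.e (nat_lit 393301) (nat_lit 27) (.e (nat_lit 491560) (nat_lit 10) (.e (nat_lit 344096) (nat_lit 18) .nil))))) .nil))) (.nd (nat_lit 6) 
(.lf (nat_lit 157351) (.g (nat_lit 1045) (.e (nat_lit 65280) (nat_lit 12) (.e (nat_lit 336027) (nat_lit 3) (.e (nat_lit 98372) (nat_lit 29) (.e (nat_lit 450579) (nat_lit 5) .nil)))) .nil)) 
(.lf (nat_lit 157415) (.g (nat_lit 4209) (.e (nat_lit 57420) (nat_lit 13) (.e (nat_lit 344117) (nat_lit 21) (.e (nat_lit 516151) (nat_lit 9) (.e (nat_lit 426173) (nat_lit 7) (.e (nat_lit 409617) (nat_lit 10) (.e (nat_lit 604) (nat_lit 45) (.e (nat_lit 532501) (nat_lit 1) (.e (nat_lit 57851) (nat_lit 252) .nil)))))))) (.g (nat_lit 5) .nil .nil))))) (.nd (nat_lit 5) (.nd (nat_lit 6) 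
(.lf (nat_lit 157335) (.g (nat_lit 2063) (.e (nat_lit 57419) (nat_lit 12) (.e (nat_lit 336223) (nat_lit 13) (.e (nat_lit 393301) (nat_lit 27) (.e (nat_lit 491558) (nat_lit 10) .nil)))) .nil)) 
(.lf (nat_lit 157399) (.g (nat_lit 1744) (.e (nat_lit 57420) (nat_lit 13) (.e (nat_lit 344117) (nat_lit 21) (.e (nat_lit 516129) (nat_lit 3) (.e (nat_lit 229120) (nat_lit 1) .nil)))) .nil))) (.nd (nat_lit 6) 
(.lf (nat_lit 157367) (.g (nat_lit 870) (.e (nat_lit 65280) (nat_lit 12) (.e (nat_lit 336213) (nat_lit 13) (.e (nat_lit 393300) (nat_lit 27) .nil))) .nil)) 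
(.lf (nat_lit 157431) (.g (nat_lit 2905) (.e (nat_lit 57420) (nat_lit 13) (.e (nat_lit 344117) (nat_lit 21) (.e (nat_lit 516151) (nat_lit 9) (.e (nat_lit 426286) (nat_lit 10) (.e (nat_lit 434245) (nat_lit 28) (.e (nat_lit 573473) (nat_lit 12) (.e (nat_lit 57353) (nat_lit 0) (.e (nat_lit 7263) (nat_lit 384) .nil)))))))) (.g (nat_lit 5) .nil .nil)))))) 
(.nd (nat_lit 4) (.nd (nat_lit 5) (.nd (nat_lit 6) 
(.lf (nat_lit 157327) (.g (nat_lit 2061) (.e (nat_lit 57419) (nat_lit 12) (.e (nat_lit 336222) (nat_lit 13) (.e (nat_lit 393260) (nat_lit 21) (.e (nat_lit 409644) (nat_lit 18) (.e (nat_lit 303115) (nat_lit 1) (.e (nat_lit 164182) (nat_lit 154) .nil)))))) (.g (nat_lit 4) .nil .nil))) 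
(.lf (nat_lit 157391) (.g (nat_lit 741) (.e (nat_lit 65280) (nat_lit 12) (.e (nat_lit 336454) (nat_lit 34) (.e (nat_lit 483394) (nat_lit 24) .nil))) .nil))) (.nd (nat_lit 6) 
(.lf (nat_lit 157359) (.g (nat_lit 3112) (.e (nat_lit 65280) (nat_lit 12) (.e (nat_lit 336027) (nat_lit 3) (.e (nat_lit 98373) (nat_lit 29) (.e (nat_lit 450587) (nat_lit 10) (.e (nat_lit 573473) (nat_lit 12) .nil))))) .nil)) 
(.lf (nat_lit 157423) (.g (nat_lit 4850) (.e (nat_lit 57420) (nat_lit 13) (.e (nat_lit 344117) (nat_lit 21) (.e (nat_lit 516151) (nat_lit 9) (.e (nat_lit 426211) (nat_lit 9) (.e (nat_lit 426140) (nat_lit 3) (.e (nat_lit 212736) (nat_lit 1) (.e (nat_lit 164179) (nat_lit 154) .nil))))))) (.g (nat_lit 4) .nil .nil))))) (.nd (nat_lit 5) (.nd (nat_lit 6) 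
(.lf (nat_lit 157343) (.g (nat_lit 1295) (.e (nat_lit 57419) (nat_lit 12) (.e (nat_lit 336230) (nat_lit 14) (.e (nat_lit 401444) (nat_lit 9) (.e (nat_lit 426541) (nat_lit 29) .nil)))) .nil)) 
(.lf (nat_lit 157407) (.g (nat_lit 3655) (.e (nat_lit 57420) (nat_lit 13) (.e (nat_lit 344117) (nat_lit 21) (.e (nat_lit 516151) (nat_lit 9) (.e (nat_lit 426170) (nat_lit 7) (.e (nat_lit 409617) (nat_lit 10) .nil))))) .nil))) (.nd (nat_lit 6) 
(.lf (nat_lit 157375) (.g (nat_lit 2302) (.e (nat_lit 65280) (nat_lit 12) (.e (nat_lit 336223) (nat_lit 13) (.e (nat_lit 393301) (nat_lit 27) (.e (nat_lit 491558) (nat_lit 10) (.e (nat_lit 344090) (nat_lit 18) .nil))))) .nil)) 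
(.lf (nat_lit 157439) (.g (nat_lit 3301) (.e (nat_lit 57420) (nat_lit 13) (.e (nat_lit 344117) (nat_lit 21) (.e (nat_lit 516151) (nat_lit 9) (.e (nat_lit 426286) (nat_lit 10) (.e (nat_lit 434247) (nat_lit 28) (.e (nat_lit 573478) (nat_lit 12) (.e (nat_lit 57352) (nat_lit 0) (.e (nat_lit 7261) (nat_lit 384) .nil)))))))) (.g (nat_lit 6) .nil .nil))))))))))

noncomputable def tv2106 : DT := (.nd (nat_lit 0) (.nd (nat_lit 1) (.nd (nat_lit 2) (.nd (nat_lit 3) (.nd (nat_lit 4) (.nd (nat_lit 5) 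
(.lf (nat_lit 157440) (.g (nat_lit 3183) (.e (nat_lit 57420) (nat_lit 13) (.e (nat_lit 344117) (nat_lit 21) (.e (nat_lit 516151) (nat_lit 9) (.e (nat_lit 426286) (nat_lit 10) (.e (nat_lit 434247) (nat_lit 28) (.e (nat_lit 573478) (nat_lit 12) (.e (nat_lit 57352) (nat_lit 0) (.e (nat_lit 7263) (nat_lit 384) .nil)))))))) (.g (nat_lit 6) .nil .nil))) 
(.lf (nat_lit 157472) (.g (nat_lit 3192) (.e (nat_lit 57420) (nat_lit 13) (.e (nat_lit 344117) (nat_lit 21) (.e (nat_lit 516166) (nat_lit 12) (.e (nat_lit 450562) (nat_lit 0) (.e (nat_lit 4000) (nat_lit 241) .nil))))) .nil))) (.nd (nat_lit 5) 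
(.lf (nat_lit 157456) (.g (nat_lit 3239) (.e (nat_lit 57420) (nat_lit 13) (.e (nat_lit 344117) (nat_lit 21) (.e (nat_lit 516165) (nat_lit 12) (.e (nat_lit 450579) (nat_lit 5) (.e (nat_lit 532501) (nat_lit 1) (.e (nat_lit 65280) (nat_lit 223) .nil)))))) (.g (nat_lit 5) .nil .nil))) 
(.lf (nat_lit 157488) (.g (nat_lit 3966) (.e (nat_lit 57420) (nat_lit 13) (.e (nat_lit 344117) (nat_lit 21) (.e (nat_lit 516166) (nat_lit 12) (.e (nat_lit 450588) (nat_lit 10) (.e (nat_lit 573475) (nat_lit 12) (.e (nat_lit 57348) (nat_lit 0) (.e (nat_lit 7261) (nat_lit 384) .nil))))))) (.g (nat_lit 6) .nil .nil))))) (.nd (nat_lit 4) (.nd (nat_lit 5) 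
(.lf (nat_lit 157448) (.g (nat_lit 3023) (.e (nat_lit 57420) (nat_lit 13) (.e (nat_lit 344117) (nat_lit 21) (.e (nat_lit 516151) (nat_lit 9) (.e (nat_lit 426286) (nat_lit 10) (.e (nat_lit 434248) (nat_lit 28) (.e (nat_lit 573473) (nat_lit 12) (.e (nat_lit 57353) (nat_lit 0) (.e (nat_lit 7263) (nat_lit 384) .nil)))))))) (.g (nat_lit 5) .nil .nil))) 
(.lf (nat_lit 157480) (.g (nat_lit 1933) (.e (nat_lit 57420) (nat_lit 13) (.e (nat_lit 344117) (nat_lit 21) (.e (nat_lit 516166) (nat_lit 12) (.e (nat_lit 450587) (nat_lit 10) (.e (nat_lit 573478) (nat_lit 12) .nil))))) .nil))) (.nd (nat_lit 5) 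
(.lf (nat_lit 157464) (.g (nat_lit 3762) (.e (nat_lit 57420) (nat_lit 13) (.e (nat_lit 344117) (nat_lit 21) (.e (nat_lit 516165) (nat_lit 12) (.e (nat_lit 450586) (nat_lit 10) (.e (nat_lit 573475) (nat_lit 12) (.e (nat_lit 57351) (nat_lit 0) (.e (nat_lit 7266) (nat_lit 384) .nil))))))) (.g (nat_lit 0) .nil .nil))) 
(.lf (nat_lit 157496) (.g (nat_lit 2950) (.e (nat_lit 57420) (nat_lit 13) (.e (nat_lit 344129) (nat_lit 26) (.e (nat_lit 557090) (nat_lit 12) (.e (nat_lit 164238) (nat_lit 187) (.e (nat_lit 1660) (nat_lit 115) .nil))))) .nil))))) (.nd (nat_lit 3) (.nd (nat_lit 4) (.nd (nat_lit 5) 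
(.lf (nat_lit 157444) (.g (nat_lit 2846) (.e (nat_lit 57420) (nat_lit 13) (.e (nat_lit 344117) (nat_lit 21) (.e (nat_lit 516151) (nat_lit 9) (.e (nat_lit 426286) (nat_lit 10) (.e (nat_lit 434248) (nat_lit 28) (.e (nat_lit 573473) (nat_lit 12) (.e (nat_lit 57347) (nat_lit 0) (.e (nat_lit 7263) (nat_lit 384) .nil)))))))) (.g (nat_lit 5) .nil .nil))) 
(.lf (nat_lit 157476) (.g (nat_lit 2223) (.e (nat_lit 57420) (nat_lit 13) (.e (nat_lit 344117) (nat_lit 21) (.e (nat_lit 516166) (nat_lit 12) (.e (nat_lit 450587) (nat_lit 10) (.e (nat_lit 573477) (nat_lit 12) (.e (nat_lit 57351) (nat_lit 0) (.e (nat_lit 7261) (nat_lit 384) .nil))))))) (.g (nat_lit 4) .nil .nil)))) (.nd (nat_lit 5) 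
(.lf (nat_lit 157460) (.g (nat_lit 2895) (.e (nat_lit 57420) (nat_lit 13) (.e (nat_lit 344117) (nat_lit 21) (.e (nat_lit 516165) (nat_lit 12) (.e (nat_lit 450586) (nat_lit 10) (.e (nat_lit 573473) (nat_lit 12) (.e (nat_lit 57347) (nat_lit 0) (.e (nat_lit 7265) (nat_lit 384) .nil))))))) (.g (nat_lit 5) .nil .nil))) 
(.lf (nat_lit 157492) (.g (nat_lit 623) (.e (nat_lit 57420) (nat_lit 13) (.e (nat_lit 344129) (nat_lit 26) (.e (nat_lit 557090) (nat_lit 12) .nil))) .nil)))) (.nd (nat_lit 4) (.nd (nat_lit 5) 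
(.lf (nat_lit 157452) (.g (nat_lit 2853) (.e (nat_lit 57420) (nat_lit 13) (.e (nat_lit 344117) (nat_lit 21) (.e (nat_lit 516163) (nat_lit 11) (.e (nat_lit 442427) (nat_lit 23) (.e (nat_lit 212736) (nat_lit 1) (.e (nat_lit 164182) (nat_lit 154) .nil)))))) (.g (nat_lit 4) .nil .nil))) 
(.lf (nat_lit 157484) (.g (nat_lit 3297) (.e (nat_lit 57420) (nat_lit 13) (.e (nat_lit 344117) (nat_lit 21) (.e (nat_lit 516166) (nat_lit 12) (.e (nat_lit 450588) (nat_lit 10) (.e (nat_lit 573473) (nat_lit 12) (.e (nat_lit 57347) (nat_lit 0) (.e (nat_lit 7261) (nat_lit 384) .nil))))))) (.g (nat_lit 5) .nil .nil)))) (.nd (nat_lit 5) 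
(.lf (nat_lit 157468) (.g (nat_lit 2016) (.e (nat_lit 57420) (nat_lit 13) (.e (nat_lit 344117) (nat_lit 21) (.e (nat_lit 516165) (nat_lit 12) (.e (nat_lit 450586) (nat_lit 10) (.e (nat_lit 573478) (nat_lit 12) .nil))))) .nil)) 
(.lf (nat_lit 157500) (.g (nat_lit 2159) (.e (nat_lit 57420) (nat_lit 13) (.e (nat_lit 344129) (nat_lit 26) (.e (nat_lit 557090) (nat_lit 12) (.e (nat_lit 171776) (nat_lit 194) .nil)))) .nil)))))) (.nd (nat_lit 2) (.nd (nat_lit 3) (.nd (nat_lit 4) (.nd (nat_lit 5) 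
(.lf (nat_lit 157442) (.g (nat_lit 2320) (.e (nat_lit 57420) (nat_lit 13) (.e (nat_lit 344117) (nat_lit 21) (.e (nat_lit 516151) (nat_lit 9) (.e (nat_lit 426286) (nat_lit 10) (.e (nat_lit 434247) (nat_lit 28) (.e (nat_lit 573478) (nat_lit 12) (.e (nat_lit 57353) (nat_lit 0) (.e (nat_lit 7263) (nat_lit 384) .nil)))))))) (.g (nat_lit 4) .nil .nil))) 
(.lf (nat_lit 157474) (.g (nat_lit 1526) (.e (nat_lit 57420) (nat_lit 13) (.e (nat_lit 344117) (nat_lit 21) (.e (nat_lit 516166) (nat_lit 12) (.e (nat_lit 458496) (nat_lit 3) .nil)))) .nil))) (.nd (nat_lit 5) 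
(.lf (nat_lit 157458) (.g (nat_lit 2381) (.e (nat_lit 57420) (nat_lit 13) (.e (nat_lit 344117) (nat_lit 21) (.e (nat_lit 516165) (nat_lit 12) (.e (nat_lit 450579) (nat_lit 5) (.e (nat_lit 540416) (nat_lit 18) .nil))))) .nil)) 
(.lf (nat_lit 157490) (.g (nat_lit 4062) (.e (nat_lit 57420) (nat_lit 13) (.e (nat_lit 344117) (nat_lit 21) (.e (nat_lit 516166) (nat_lit 12) (.e (nat_lit 450588) (nat_lit 10) (.e (nat_lit 573475) (nat_lit 12) (.e (nat_lit 57351) (nat_lit 0) (.e (nat_lit 7266) (nat_lit 384) .nil))))))) (.g (nat_lit 0) .nil .nil))))) (.nd (nat_lit 4) (.nd (nat_lit 5) 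
(.lf (nat_lit 157450) (.g (nat_lit 4352) (.e (nat_lit 57420) (nat_lit 13) (.e (nat_lit 344117) (nat_lit 21) (.e (nat_lit 516151) (nat_lit 9) (.e (nat_lit 426286) (nat_lit 10) (.e (nat_lit 434248) (nat_lit 28) (.e (nat_lit 573475) (nat_lit 12) (.e (nat_lit 57348) (nat_lit 0) (.e (nat_lit 7261) (nat_lit 384) .nil)))))))) (.g (nat_lit 7) .nil .nil))) 
(.lf (nat_lit 157482) (.g (nat_lit 2646) (.e (nat_lit 57420) (nat_lit 13) (.e (nat_lit 344117) (nat_lit 21) (.e (nat_lit 516166) (nat_lit 12) (.e (nat_lit 450587) (nat_lit 10) (.e (nat_lit 573478) (nat_lit 12) (.e (nat_lit 57352) (nat_lit 0) (.e (nat_lit 7261) (nat_lit 384) .nil))))))) (.g (nat_lit 5) .nil .nil)))) (.nd (nat_lit 5) 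
(.lf (nat_lit 157466) (.g (nat_lit 2082) (.e (nat_lit 57420) (nat_lit 13) (.e (nat_lit 344117) (nat_lit 21) (.e (nat_lit 516165) (nat_lit 12) (.e (nat_lit 450586) (nat_lit 10) (.e (nat_lit 573477) (nat_lit 12) .nil))))) .nil)) 
(.lf (nat_lit 157498) (.g (nat_lit 3889) (.e (nat_lit 57420) (nat_lit 13) (.e (nat_lit 344129) (nat_lit 26) (.e (nat_lit 557090) (nat_lit 12) (.e (nat_lit 164238) (nat_lit 187) (.e (nat_lit 1661) (nat_lit 115) (.e (nat_lit 393251) (nat_lit 18) (.e (nat_lit 164179) (nat_lit 154) .nil))))))) (.g (nat_lit 5) .nil .nil)))))) (.nd (nat_lit 3) (.nd (nat_lit 4) (.nd (nat_lit 5) 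
(.lf (nat_lit 157446) (.g (nat_lit 4706) (.e (nat_lit 57420) (nat_lit 13) (.e (nat_lit 344117) (nat_lit 21) (.e (nat_lit 516151) (nat_lit 9) (.e (nat_lit 426286) (nat_lit 10) (.e (nat_lit 434248) (nat_lit 28) (.e (nat_lit 573473) (nat_lit 12) (.e (nat_lit 57347) (nat_lit 0) (.e (nat_lit 7266) (nat_lit 384) .nil)))))))) (.g (nat_lit 8) .nil .nil))) 
(.lf (nat_lit 157478) (.g (nat_lit 2146) (.e (nat_lit 57420) (nat_lit 13) (.e (nat_lit 344117) (nat_lit 21) (.e (nat_lit 516166) (nat_lit 12) (.e (nat_lit 450587) (nat_lit 10) (.e (nat_lit 573477) (nat_lit 12) (.e (nat_lit 57352) (nat_lit 0) (.e (nat_lit 7266) (nat_lit 384) .nil))))))) (.g (nat_lit 4) .nil .nil)))) (.nd (nat_lit 5) 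
(.lf (nat_lit 157462) (.g (nat_lit 2264) (.e (nat_lit 57420) (nat_lit 13) (.e (nat_lit 344117) (nat_lit 21) (.e (nat_lit 516165) (nat_lit 12) (.e (nat_lit 450586) (nat_lit 10) (.e (nat_lit 573475) (nat_lit 12) (.e (nat_lit 57344) (nat_lit 0) (.e (nat_lit 7263) (nat_lit 384) .nil))))))) (.g (nat_lit 4) .nil .nil))) 
(.lf (nat_lit 157494) (.g (nat_lit 2990) (.e (nat_lit 57420) (nat_lit 13) (.e (nat_lit 344129) (nat_lit 26) (.e (nat_lit 557090) (nat_lit 12) (.e (nat_lit 164238) (nat_lit 187) (.e (nat_lit 1658) (nat_lit 115) .nil))))) .nil)))) (.nd (nat_lit 4) (.nd (nat_lit 5) 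
(.lf (nat_lit 157454) (.g (nat_lit 2107) (.e (nat_lit 57420) (nat_lit 13) (.e (nat_lit 344117) (nat_lit 21) (.e (nat_lit 516165) (nat_lit 12) (.e (nat_lit 458496) (nat_lit 3) (.e (nat_lit 516106) (nat_lit 0) (.e (nat_lit 2515) (nat_lit 157) (.e (nat_lit 5201) (nat_lit 294) .nil))))))) (.g (nat_lit 5) .nil .nil))) 
(.lf (nat_lit 157486) (.g (nat_lit 4224) (.e (nat_lit 57420) (nat_lit 13) (.e (nat_lit 344117) (nat_lit 21) (.e (nat_lit 516166) (nat_lit 12) (.e (nat_lit 450588) (nat_lit 10) (.e (nat_lit 573475) (nat_lit 12) (.e (nat_lit 57347) (nat_lit 0) (.e (nat_lit 7263) (nat_lit 384) .nil))))))) (.g (nat_lit 6) .nil .nil)))) (.nd (nat_lit 5) 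
(.lf (nat_lit 157470) (.g (nat_lit 1771) (.e (nat_lit 57420) (nat_lit 13) (.e (nat_lit 344117) (nat_lit 21) (.e (nat_lit 516165) (nat_lit 12) (.e (nat_lit 450587) (nat_lit 10) .nil)))) .nil)) 
(.lf (nat_lit 157502) (.g (nat_lit 713) (.e (nat_lit 57420) (nat_lit 13) (.e (nat_lit 344129) (nat_lit 26) (.e (nat_lit 557103) (nat_lit 14) .nil))) .nil))))))) (.nd (nat_lit 1) (.nd (nat_lit 2) (.nd (nat_lit 3) (.nd (nat_lit 4) (.nd (nat_lit 5) 
(.lf (nat_lit 157441) (.g (nat_lit 2175) (.e (nat_lit 57420) (nat_lit 13) (.e (nat_lit 344117) (nat_lit 21) (.e (nat_lit 516151) (nat_lit 9) (.e (nat_lit 426286) (nat_lit 10) (.e (nat_lit 434247) (nat_lit 28) (.e (nat_lit 573478) (nat_lit 12) (.e (nat_lit 57352) (nat_lit 0) (.e (nat_lit 7266) (nat_lit 384) .nil)))))))) (.g (nat_lit 4) .nil .nil))) 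
(.lf (nat_lit 157473) (.g (nat_lit 2854) (.e (nat_lit 57420) (nat_lit 13) (.e (nat_lit 344117) (nat_lit 21) (.e (nat_lit 516166) (nat_lit 12) (.e (nat_lit 450563) (nat_lit 0) (.e (nat_lit 4000) (nat_lit 241) .nil))))) .nil))) (.nd (nat_lit 5) 
(.lf (nat_lit 157457) (.g (nat_lit 3185) (.e (nat_lit 57420) (nat_lit 13) (.e (nat_lit 344117) (nat_lit 21) (.e (nat_lit 516165) (nat_lit 12) (.e (nat_lit 450579) (nat_lit 5) (.e (nat_lit 532504) (nat_lit 1) (.e (nat_lit 65280) (nat_lit 223) .nil)))))) (.g (nat_lit 5) .nil .nil))) 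
(.lf (nat_lit 157489) (.g (nat_lit 4043) (.e (nat_lit 57420) (nat_lit 13) (.e (nat_lit 344117) (nat_lit 21) (.e (nat_lit 516166) (nat_lit 12) (.e (nat_lit 450588) (nat_lit 10) (.e (nat_lit 573475) (nat_lit 12) (.e (nat_lit 57348) (nat_lit 0) (.e (nat_lit 7265) (nat_lit 384) .nil))))))) (.g (nat_lit 6) .nil .nil))))) (.nd (nat_lit 4) (.nd (nat_lit 5) 
(.lf (nat_lit 157449) (.g (nat_lit 4637) (.e (nat_lit 57420) (nat_lit 13) (.e (nat_lit 344117) (nat_lit 21) (.e (nat_lit 516151) (nat_lit 9) (.e (nat_lit 426286) (nat_lit 10) (.e (nat_lit 434248) (nat_lit 28) (.e (nat_lit 573475) (nat_lit 12) (.e (nat_lit 57347) (nat_lit 0) (.e (nat_lit 7263) (nat_lit 384) .nil)))))))) (.g (nat_lit 7) .nil .nil))) 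
(.lf (nat_lit 157481) (.g (nat_lit 3196) (.e (nat_lit 57420) (nat_lit 13) (.e (nat_lit 344117) (nat_lit 21) (.e (nat_lit 516166) (nat_lit 12) (.e (nat_lit 450587) (nat_lit 10) (.e (nat_lit 573478) (nat_lit 12) (.e (nat_lit 57351) (nat_lit 0) (.e (nat_lit 7266) (nat_lit 384) .nil))))))) (.g (nat_lit 0) .nil .nil)))) (.nd (nat_lit 5) 
(.lf (nat_lit 157465) (.g (nat_lit 3253) (.e (nat_lit 57420) (nat_lit 13) (.e (nat_lit 344117) (nat_lit 21) (.e (nat_lit 516165) (nat_lit 12) (.e (nat_lit 450586) (nat_lit 10) (.e (nat_lit 573475) (nat_lit 12) (.e (nat_lit 57353) (nat_lit 0) (.e (nat_lit 7266) (nat_lit 384) .nil))))))) (.g (nat_lit 5) .nil .nil))) 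
(.lf (nat_lit 157497) (.g (nat_lit 2801) (.e (nat_lit 57420) (nat_lit 13) (.e (nat_lit 344129) (nat_lit 26) (.e (nat_lit 557090) (nat_lit 12) (.e (nat_lit 164238) (nat_lit 187) (.e (nat_lit 1661) (nat_lit 115) .nil))))) .nil))))) (.nd (nat_lit 3) (.nd (nat_lit 4) (.nd (nat_lit 5) 
(.lf (nat_lit 157445) (.g (nat_lit 3560) (.e (nat_lit 57420) (nat_lit 13) (.e (nat_lit 344117) (nat_lit 21) (.e (nat_lit 516151) (nat_lit 9) (.e (nat_lit 426286) (nat_lit 10) (.e (nat_lit 434248) (nat_lit 28) (.e (nat_lit 573473) (nat_lit 12) (.e (nat_lit 57347) (nat_lit 0) (.e (nat_lit 7265) (nat_lit 384) .nil)))))))) (.g (nat_lit 6) .nil .nil))) 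
(.lf (nat_lit 157477) (.g (nat_lit 2223) (.e (nat_lit 57420) (nat_lit 13) (.e (nat_lit 344117) (nat_lit 21) (.e (nat_lit 516166) (nat_lit 12) (.e (nat_lit 450587) (nat_lit 10) (.e (nat_lit 573477) (nat_lit 12) (.e (nat_lit 57351) (nat_lit 0) (.e (nat_lit 7263) (nat_lit 384) .nil))))))) (.g (nat_lit 4) .nil .nil)))) (.nd (nat_lit 5) 
(.lf (nat_lit 157461) (.g (nat_lit 4050) (.e (nat_lit 57420) (nat_lit 13) (.e (nat_lit 344117) (nat_lit 21) (.e (nat_lit 516165) (nat_lit 12) (.e (nat_lit 450586) (nat_lit 10) (.e (nat_lit 573473) (nat_lit 12) (.e (nat_lit 57347) (nat_lit 0) (.e (nat_lit 7266) (nat_lit 384) .nil))))))) (.g (nat_lit 7) .nil .nil))) 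
(.lf (nat_lit 157493) (.g (nat_lit 3037) (.e (nat_lit 57420) (nat_lit 13) (.e (nat_lit 344129) (nat_lit 26) (.e (nat_lit 557090) (nat_lit 12) (.e (nat_lit 164235) (nat_lit 187) .nil)))) .nil)))) (.nd (nat_lit 4) (.nd (nat_lit 5) 
(.lf (nat_lit 157453) (.g (nat_lit 1528) (.e (nat_lit 57420) (nat_lit 13) (.e (nat_lit 344117) (nat_lit 21) (.e (nat_lit 516165) (nat_lit 12) (.e (nat_lit 458496) (nat_lit 3) .nil)))) .nil)) 
(.lf (nat_lit 157485) (.g (nat_lit 3299) (.e (nat_lit 57420) (nat_lit 13) (.e (nat_lit 344117) (nat_lit 21) (.e (nat_lit 516166) (nat_lit 12) (.e (nat_lit 450588) (nat_lit 10) (.e (nat_lit 573473) (nat_lit 12) (.e (nat_lit 57347) (nat_lit 0) (.e (nat_lit 7265) (nat_lit 384) .nil))))))) (.g (nat_lit 5) .nil .nil)))) (.nd (nat_lit 5) 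
(.lf (nat_lit 157469) (.g (nat_lit 2632) (.e (nat_lit 57420) (nat_lit 13) (.e (nat_lit 344117) (nat_lit 21) (.e (nat_lit 516165) (nat_lit 12) (.e (nat_lit 450586) (nat_lit 10) (.e (nat_lit 573478) (nat_lit 12) (.e (nat_lit 57352) (nat_lit 0) (.e (nat_lit 7263) (nat_lit 384) .nil))))))) (.g (nat_lit 5) .nil .nil))) 
(.lf (nat_lit 157501) (.g (nat_lit 710) (.e (nat_lit 57420) (nat_lit 13) (.e (nat_lit 344129) (nat_lit 26) (.e (nat_lit 557097) (nat_lit 13) .nil))) .nil)))))) (.nd (nat_lit 2) (.nd (nat_lit 3) (.nd (nat_lit 4) (.nd (nat_lit 5) 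
(.lf (nat_lit 157443) (.g (nat_lit 3565) (.e (nat_lit 57420) (nat_lit 13) (.e (nat_lit 344117) (nat_lit 21) (.e (nat_lit 516151) (nat_lit 9) (.e (nat_lit 426286) (nat_lit 10) (.e (nat_lit 434248) (nat_lit 28) (.e (nat_lit 573473) (nat_lit 12) (.e (nat_lit 57347) (nat_lit 0) (.e (nat_lit 7261) (nat_lit 384) .nil)))))))) (.g (nat_lit 6) .nil .nil))) 
(.lf (nat_lit 157475) (.g (nat_lit 3003) (.e (nat_lit 57420) (nat_lit 13) (.e (nat_lit 344117) (nat_lit 21) (.e (nat_lit 516166) (nat_lit 12) (.e (nat_lit 450587) (nat_lit 10) (.e (nat_lit 573472) (nat_lit 12) .nil))))) .nil))) (.nd (nat_lit 5) 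
(.lf (nat_lit 157459) (.g (nat_lit 2893) (.e (nat_lit 57420) (nat_lit 13) (.e (nat_lit 344117) (nat_lit 21) (.e (nat_lit 516165) (nat_lit 12) (.e (nat_lit 450586) (nat_lit 10) (.e (nat_lit 573473) (nat_lit 12) (.e (nat_lit 57347) (nat_lit 0) (.e (nat_lit 7261) (nat_lit 384) .nil))))))) (.g (nat_lit 5) .nil .nil))) 
(.lf (nat_lit 157491) (.g (nat_lit 1699) (.e (nat_lit 57420) (nat_lit 13) (.e (nat_lit 344129) (nat_lit 26) (.e (nat_lit 557089) (nat_lit 12) (.e (nat_lit 171776) (nat_lit 194) .nil)))) .nil)))) (.nd (nat_lit 4) (.nd (nat_lit 5) 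
(.lf (nat_lit 157451) (.g (nat_lit 3836) (.e (nat_lit 57420) (nat_lit 13) (.e (nat_lit 344117) (nat_lit 21) (.e (nat_lit 516151) (nat_lit 9) (.e (nat_lit 426286) (nat_lit 10) (.e (nat_lit 434248) (nat_lit 28) (.e (nat_lit 573475) (nat_lit 12) (.e (nat_lit 57353) (nat_lit 0) (.e (nat_lit 7261) (nat_lit 384) .nil)))))))) (.g (nat_lit 6) .nil .nil))) 
(.lf (nat_lit 157483) (.g (nat_lit 2524) (.e (nat_lit 57420) (nat_lit 13) (.e (nat_lit 344117) (nat_lit 21) (.e (nat_lit 516166) (nat_lit 12) (.e (nat_lit 450587) (nat_lit 10) (.e (nat_lit 573478) (nat_lit 12) (.e (nat_lit 57352) (nat_lit 0) (.e (nat_lit 7263) (nat_lit 384) .nil))))))) (.g (nat_lit 5) .nil .nil)))) (.nd (nat_lit 5) 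
(.lf (nat_lit 157467) (.g (nat_lit 2175) (.e (nat_lit 57420) (nat_lit 13) (.e (nat_lit 344117) (nat_lit 21) (.e (nat_lit 516165) (nat_lit 12) (.e (nat_lit 450586) (nat_lit 10) (.e (nat_lit 573477) (nat_lit 12) (.e (nat_lit 57351) (nat_lit 0) (.e (nat_lit 7265) (nat_lit 384) .nil))))))) (.g (nat_lit 4) .nil .nil))) 
(.lf (nat_lit 157499) (.g (nat_lit 2159) (.e (nat_lit 57420) (nat_lit 13) (.e (nat_lit 344129) (nat_lit 26) (.e (nat_lit 557090) (nat_lit 12) (.e (nat_lit 171776) (nat_lit 187) .nil)))) .nil))))) (.nd (nat_lit 3) (.nd (nat_lit 4) (.nd (nat_lit 5) 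
(.lf (nat_lit 157447) (.g (nat_lit 2224) (.e (nat_lit 57420) (nat_lit 13) (.e (nat_lit 344117) (nat_lit 21) (.e (nat_lit 516151) (nat_lit 9) (.e (nat_lit 426286) (nat_lit 10) (.e (nat_lit 434248) (nat_lit 28) (.e (nat_lit 573473) (nat_lit 12) (.e (nat_lit 57352) (nat_lit 0) (.e (nat_lit 7265) (nat_lit 384) .nil)))))))) (.g (nat_lit 4) .nil .nil))) 
(.lf (nat_lit 157479) (.g (nat_lit 2034) (.e (nat_lit 57420) (nat_lit 13) (.e (nat_lit 344117) (nat_lit 21) (.e (nat_lit 516166) (nat_lit 12) (.e (nat_lit 450587) (nat_lit 10) (.e (nat_lit 573477) (nat_lit 12) (.e (nat_lit 57353) (nat_lit 0) (.e (nat_lit 7263) (nat_lit 384) .nil))))))) (.g (nat_lit 4) .nil .nil)))) (.nd (nat_lit 5) 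
(.lf (nat_lit 157463) (.g (nat_lit 3309) (.e (nat_lit 57420) (nat_lit 13) (.e (nat_lit 344117) (nat_lit 21) (.e (nat_lit 516165) (nat_lit 12) (.e (nat_lit 450586) (nat_lit 10) (.e (nat_lit 573475) (nat_lit 12) (.e (nat_lit 57348) (nat_lit 0) (.e (nat_lit 7261) (nat_lit 384) .nil))))))) (.g (nat_lit 5) .nil .nil))) 
(.lf (nat_lit 157495) (.g (nat_lit 3206) (.e (nat_lit 57420) (nat_lit 13) (.e (nat_lit 344129) (nat_lit 26) (.e (nat_lit 557090) (nat_lit 12) (.e (nat_lit 164238) (nat_lit 187) (.e (nat_lit 1659) (nat_lit 115) (.e (nat_lit 393251) (nat_lit 18) (.e (nat_lit 164179) (nat_lit 154) .nil))))))) (.g (nat_lit 4) .nil .nil))))) (.nd (nat_lit 4) (.nd (nat_lit 5) 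
(.lf (nat_lit 157455) (.g (nat_lit 2451) (.e (nat_lit 57420) (nat_lit 13) (.e (nat_lit 344117) (nat_lit 21) (.e (nat_lit 516165) (nat_lit 12) (.e (nat_lit 450579) (nat_lit 5) (.e (nat_lit 532499) (nat_lit 1) (.e (nat_lit 65280) (nat_lit 223) .nil)))))) (.g (nat_lit 4) .nil .nil))) 
(.lf (nat_lit 157487) (.g (nat_lit 5028) (.e (nat_lit 57420) (nat_lit 13) (.e (nat_lit 344117) (nat_lit 21) (.e (nat_lit 516166) (nat_lit 12) (.e (nat_lit 450588) (nat_lit 10) (.e (nat_lit 573475) (nat_lit 12) (.e (nat_lit 57347) (nat_lit 0) (.e (nat_lit 7266) (nat_lit 384) .nil))))))) (.g (nat_lit 0) .nil .nil)))) (.nd (nat_lit 5) 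
(.lf (nat_lit 157471) (.g (nat_lit 2590) (.e (nat_lit 57420) (nat_lit 13) (.e (nat_lit 344117) (nat_lit 21) (.e (nat_lit 516165) (nat_lit 12) (.e (nat_lit 450587) (nat_lit 10) (.e (nat_lit 573477) (nat_lit 12) .nil))))) .nil)) 
(.lf (nat_lit 157503) (.g (nat_lit 682) (.e (nat_lit 57420) (nat_lit 13) (.e (nat_lit 344129) (nat_lit 26) (.e (nat_lit 557104) (nat_lit 14) .nil))) .nil))))))))

noncomputable def tv2107 : DT := (.nd (nat_lit 0) (.nd (nat_lit 1) (.nd (nat_lit 2) (.nd (nat_lit 3) (.nd (nat_lit 4) (.nd (nat_lit 5) 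
(.lf (nat_lit 157504) (.g (nat_lit 2146) (.e (nat_lit 57420) (nat_lit 13) (.e (nat_lit 344129) (nat_lit 26) (.e (nat_lit 557104) (nat_lit 14) (.e (nat_lit 180233) (nat_lit 0) .nil)))) .nil)) 
(.lf (nat_lit 157536) (.g (nat_lit 3631) (.e (nat_lit 57421) (nat_lit 13) (.e (nat_lit 344117) (nat_lit 21) (.e (nat_lit 516151) (nat_lit 9) (.e (nat_lit 426166) (nat_lit 7) (.e (nat_lit 409612) (nat_lit 10) .nil))))) .nil))) (.nd (nat_lit 5) 
(.lf (nat_lit 157520) (.g (nat_lit 1944) (.e (nat_lit 57420) (nat_lit 13) (.e (nat_lit 344133) (nat_lit 26) (.e (nat_lit 557098) (nat_lit 13) (.e (nat_lit 172061) (nat_lit 1) .nil)))) .nil)) 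
(.lf (nat_lit 157552) (.g (nat_lit 5296) (.e (nat_lit 57421) (nat_lit 13) (.e (nat_lit 344117) (nat_lit 21) (.e (nat_lit 516151) (nat_lit 9) (.e (nat_lit 426211) (nat_lit 9) (.e (nat_lit 426125) (nat_lit 2) (.e (nat_lit 196686) (nat_lit 18) (.e (nat_lit 1115) (nat_lit 82) (.e (nat_lit 8423) (nat_lit 134) .nil)))))))) (.g (nat_lit 4) .nil .nil))))) (.nd (nat_lit 4) (.nd (nat_lit 5) 
(.lf (nat_lit 157512) (.g (nat_lit 2874) (.e (nat_lit 57420) (nat_lit 13) (.e (nat_lit 344132) (nat_lit 26) (.e (nat_lit 557093) (nat_lit 12) (.e (nat_lit 164239) (nat_lit 187) (.e (nat_lit 1661) (nat_lit 115) (.e (nat_lit 393252) (nat_lit 18) (.e (nat_lit 164181) (nat_lit 154) .nil))))))) (.g (nat_lit 6) .nil .nil))) 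
(.lf (nat_lit 157544) (.g (nat_lit 3095) (.e (nat_lit 57421) (nat_lit 13) (.e (nat_lit 344117) (nat_lit 21) (.e (nat_lit 516151) (nat_lit 9) (.e (nat_lit 426171) (nat_lit 7) (.e (nat_lit 409611) (nat_lit 10) (.e (nat_lit 604) (nat_lit 45) (.e (nat_lit 532504) (nat_lit 1) (.e (nat_lit 57852) (nat_lit 252) .nil)))))))) (.g (nat_lit 4) .nil .nil)))) (.nd (nat_lit 5) 
(.lf (nat_lit 157528) (.g (nat_lit 1573) (.e (nat_lit 57421) (nat_lit 13) (.e (nat_lit 344068) (nat_lit 0) (.e (nat_lit 2857) (nat_lit 184) (.e (nat_lit 426542) (nat_lit 29) (.e (nat_lit 352316) (nat_lit 24) .nil))))) .nil)) 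
(.lf (nat_lit 157560) (.g (nat_lit 5540) (.e (nat_lit 57421) (nat_lit 13) (.e (nat_lit 344117) (nat_lit 21) (.e (nat_lit 516151) (nat_lit 9) (.e (nat_lit 426211) (nat_lit 9) (.e (nat_lit 426125) (nat_lit 2) (.e (nat_lit 196697) (nat_lit 19) (.e (nat_lit 57585) (nat_lit 61) (.e (nat_lit 5201) (nat_lit 294) .nil)))))))) (.g (nat_lit 4) .nil .nil)))))) 
(.nd (nat_lit 3) (.nd (nat_lit 4) (.nd (nat_lit 5) 
(.lf (nat_lit 157508) (.g (nat_lit 3635) (.e (nat_lit 57420) (nat_lit 13) (.e (nat_lit 344132) (nat_lit 26) (.e (nat_lit 557093) (nat_lit 12) (.e (nat_lit 164238) (nat_lit 187) (.e (nat_lit 1661) (nat_lit 115) (.e (nat_lit 393251) (nat_lit 18) (.e (nat_lit 164182) (nat_lit 154) .nil))))))) (.g (nat_lit 6) .nil .nil))) 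
(.lf (nat_lit 157540) (.g (nat_lit 3622) (.e (nat_lit 57421) (nat_lit 13) (.e (nat_lit 344117) (nat_lit 21) (.e (nat_lit 516151) (nat_lit 9) (.e (nat_lit 426170) (nat_lit 7) (.e (nat_lit 409616) (nat_lit 10) .nil))))) .nil))) (.nd (nat_lit 5) 
(.lf (nat_lit 157524) (.g (nat_lit 2181) (.e (nat_lit 57420) (nat_lit 13) (.e (nat_lit 344133) (nat_lit 26) (.e (nat_lit 557105) (nat_lit 14) (.e (nat_lit 180260) (nat_lit 18) .nil)))) .nil)) 
(.lf (nat_lit 157556) (.g (nat_lit 5327) (.e (nat_lit 57421) (nat_lit 13) (.e (nat_lit 344117) (nat_lit 21) (.e (nat_lit 516151) (nat_lit 9) (.e (nat_lit 426211) (nat_lit 9) (.e (nat_lit 426125) (nat_lit 2) (.e (nat_lit 196686) (nat_lit 18) (.e (nat_lit 1118) (nat_lit 82) (.e (nat_lit 8423) (nat_lit 134) .nil)))))))) (.g (nat_lit 4) .nil .nil))))) (.nd (nat_lit 4) (.nd (nat_lit 5) 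
(.lf (nat_lit 157516) (.g (nat_lit 2186) (.e (nat_lit 57420) (nat_lit 13) (.e (nat_lit 344133) (nat_lit 26) (.e (nat_lit 557091) (nat_lit 12) (.e (nat_lit 164238) (nat_lit 187) (.e (nat_lit 1660) (nat_lit 115) .nil))))) .nil)) 
(.lf (nat_lit 157548) (.g (nat_lit 3020) (.e (nat_lit 57421) (nat_lit 13) (.e (nat_lit 344117) (nat_lit 21) (.e (nat_lit 516151) (nat_lit 9) (.e (nat_lit 426173) (nat_lit 7) .nil)))) .nil))) (.nd (nat_lit 5) 
(.lf (nat_lit 157532) (.g (nat_lit 1633) (.e (nat_lit 57421) (nat_lit 13) (.e (nat_lit 344117) (nat_lit 21) (.e (nat_lit 516129) (nat_lit 3) (.e (nat_lit 221217) (nat_lit 24) .nil)))) .nil)) 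
(.lf (nat_lit 157564) (.g (nat_lit 3595) (.e (nat_lit 57421) (nat_lit 13) (.e (nat_lit 344117) (nat_lit 21) (.e (nat_lit 516151) (nat_lit 9) (.e (nat_lit 426285) (nat_lit 10) .nil)))) .nil)))))) (.nd (nat_lit 2) (.nd (nat_lit 3) (.nd (nat_lit 4) (.nd (nat_lit 5) 
(.lf (nat_lit 157506) (.g (nat_lit 2329) (.e (nat_lit 57420) (nat_lit 13) (.e (nat_lit 344129) (nat_lit 26) (.e (nat_lit 557104) (nat_lit 14) (.e (nat_lit 180260) (nat_lit 18) .nil)))) .nil)) 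
(.lf (nat_lit 157538) (.g (nat_lit 3623) (.e (nat_lit 57421) (nat_lit 13) (.e (nat_lit 344117) (nat_lit 21) (.e (nat_lit 516151) (nat_lit 9) (.e (nat_lit 426170) (nat_lit 7) (.e (nat_lit 409611) (nat_lit 10) .nil))))) .nil))) (.nd (nat_lit 5) 
(.lf (nat_lit 157522) (.g (nat_lit 2138) (.e (nat_lit 57420) (nat_lit 13) (.e (nat_lit 344133) (nat_lit 26) (.e (nat_lit 557105) (nat_lit 14) (.e (nat_lit 180232) (nat_lit 0) .nil)))) .nil)) 
(.lf (nat_lit 157554) (.g (nat_lit 5416) (.e (nat_lit 57421) (nat_lit 13) (.e (nat_lit 344117) (nat_lit 21) (.e (nat_lit 516151) (nat_lit 9) (.e (nat_lit 426211) (nat_lit 9) (.e (nat_lit 426125) (nat_lit 2) (.e (nat_lit 196686) (nat_lit 18) (.e (nat_lit 1116) (nat_lit 82) (.e (nat_lit 8423) (nat_lit 134) .nil)))))))) (.g (nat_lit 4) .nil .nil))))) (.nd (nat_lit 4) (.nd (nat_lit 5) 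
(.lf (nat_lit 157514) (.g (nat_lit 1389) (.e (nat_lit 57420) (nat_lit 13) (.e (nat_lit 344133) (nat_lit 26) (.e (nat_lit 557089) (nat_lit 12) (.e (nat_lit 171776) (nat_lit 194) .nil)))) .nil)) 
(.lf (nat_lit 157546) (.g (nat_lit 4001) (.e (nat_lit 57421) (nat_lit 13) (.e (nat_lit 344117) (nat_lit 21) (.e (nat_lit 516151) (nat_lit 9) (.e (nat_lit 426171) (nat_lit 7) (.e (nat_lit 409616) (nat_lit 10) (.e (nat_lit 604) (nat_lit 45) (.e (nat_lit 532501) (nat_lit 1) (.e (nat_lit 57851) (nat_lit 252) .nil)))))))) (.g (nat_lit 5) .nil .nil)))) (.nd (nat_lit 5) 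
(.lf (nat_lit 157530) (.g (nat_lit 822) (.e (nat_lit 57421) (nat_lit 13) (.e (nat_lit 344080) (nat_lit 13) (.e (nat_lit 1385) (nat_lit 105) (.e (nat_lit 311358) (nat_lit 29) (.e (nat_lit 352318) (nat_lit 24) .nil))))) .nil)) 
(.lf (nat_lit 157562) (.g (nat_lit 5209) (.e (nat_lit 57421) (nat_lit 13) (.e (nat_lit 344117) (nat_lit 21) (.e (nat_lit 516151) (nat_lit 9) (.e (nat_lit 426211) (nat_lit 9) (.e (nat_lit 426125) (nat_lit 2) (.e (nat_lit 196697) (nat_lit 19) (.e (nat_lit 57586) (nat_lit 61) (.e (nat_lit 5201) (nat_lit 294) .nil)))))))) (.g (nat_lit 4) .nil .nil)))))) 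
(.nd (nat_lit 3) (.nd (nat_lit 4) (.nd (nat_lit 5) 
(.lf (nat_lit 157510) (.g (nat_lit 3270) (.e (nat_lit 57420) (nat_lit 13) (.e (nat_lit 344132) (nat_lit 26) (.e (nat_lit 557093) (nat_lit 12) (.e (nat_lit 164238) (nat_lit 187) (.e (nat_lit 1661) (nat_lit 115) (.e (nat_lit 393252) (nat_lit 18) (.e (nat_lit 164183) (nat_lit 154) .nil))))))) (.g (nat_lit 6) .nil .nil))) 
(.lf (nat_lit 157542) (.g (nat_lit 2856) (.e (nat_lit 57421) (nat_lit 13) (.e (nat_lit 344117) (nat_lit 21) (.e (nat_lit 516151) (nat_lit 9) (.e (nat_lit 426171) (nat_lit 7) (.e (nat_lit 409611) (nat_lit 10) .nil))))) .nil))) (.nd (nat_lit 5) 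
(.lf (nat_lit 157526) (.g (nat_lit 1476) (.e (nat_lit 57421) (nat_lit 13) (.e (nat_lit 344068) (nat_lit 0) (.e (nat_lit 2856) (nat_lit 184) (.e (nat_lit 426544) (nat_lit 30) .nil)))) .nil)) 
(.lf (nat_lit 157558) (.g (nat_lit 5596) (.e (nat_lit 57421) (nat_lit 13) (.e (nat_lit 344117) (nat_lit 21) (.e (nat_lit 516151) (nat_lit 9) (.e (nat_lit 426211) (nat_lit 9) (.e (nat_lit 426125) (nat_lit 2) (.e (nat_lit 196697) (nat_lit 19) (.e (nat_lit 57584) (nat_lit 61) (.e (nat_lit 5193) (nat_lit 294) .nil)))))))) (.g (nat_lit 4) .nil .nil))))) (.nd (nat_lit 4) (.nd (nat_lit 5) 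
(.lf (nat_lit 157518) (.g (nat_lit 3263) (.e (nat_lit 57420) (nat_lit 13) (.e (nat_lit 344133) (nat_lit 26) (.e (nat_lit 557091) (nat_lit 12) (.e (nat_lit 164238) (nat_lit 187) (.e (nat_lit 1661) (nat_lit 115) (.e (nat_lit 393252) (nat_lit 18) (.e (nat_lit 164181) (nat_lit 154) .nil))))))) (.g (nat_lit 5) .nil .nil))) 
(.lf (nat_lit 157550) (.g (nat_lit 5160) (.e (nat_lit 57421) (nat_lit 13) (.e (nat_lit 344117) (nat_lit 21) (.e (nat_lit 516151) (nat_lit 9) (.e (nat_lit 426211) (nat_lit 9) (.e (nat_lit 426125) (nat_lit 2) (.e (nat_lit 196683) (nat_lit 18) (.e (nat_lit 1120) (nat_lit 82) (.e (nat_lit 8424) (nat_lit 134) .nil)))))))) (.g (nat_lit 4) .nil .nil)))) (.nd (nat_lit 5) 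
(.lf (nat_lit 157534) (.g (nat_lit 2156) (.e (nat_lit 57421) (nat_lit 13) (.e (nat_lit 344117) (nat_lit 21) (.e (nat_lit 516143) (nat_lit 9) (.e (nat_lit 426173) (nat_lit 7) (.e (nat_lit 409617) (nat_lit 10) .nil))))) .nil)) 
(.lf (nat_lit 157566) (.g (nat_lit 1731) (.e (nat_lit 57421) (nat_lit 13) (.e (nat_lit 344117) (nat_lit 21) (.e (nat_lit 516151) (nat_lit 9) (.e (nat_lit 426286) (nat_lit 10) (.e (nat_lit 434245) (nat_lit 28) .nil))))) .nil))))))) (.nd (nat_lit 1) (.nd (nat_lit 2) (.nd (nat_lit 3) (.nd (nat_lit 4) (.nd (nat_lit 5) 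
(.lf (nat_lit 157505) (.g (nat_lit 2682) (.e (nat_lit 57420) (nat_lit 13) (.e (nat_lit 344129) (nat_lit 26) (.e (nat_lit 557104) (nat_lit 14) (.e (nat_lit 180233) (nat_lit 0) (.e (nat_lit 5448) (nat_lit 306) .nil))))) .nil)) 
(.lf (nat_lit 157537) (.g (nat_lit 3139) (.e (nat_lit 57421) (nat_lit 13) (.e (nat_lit 344117) (nat_lit 21) (.e (nat_lit 516151) (nat_lit 9) (.e (nat_lit 426170) (nat_lit 7) .nil)))) .nil))) (.nd (nat_lit 5) 
(.lf (nat_lit 157521) (.g (nat_lit 2402) (.e (nat_lit 57420) (nat_lit 13) (.e (nat_lit 344133) (nat_lit 26) (.e (nat_lit 557105) (nat_lit 14) (.e (nat_lit 180224) (nat_lit 0) (.e (nat_lit 5206) (nat_lit 294) .nil))))) .nil)) 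
(.lf (nat_lit 157553) (.g (nat_lit 5528) (.e (nat_lit 57421) (nat_lit 13) (.e (nat_lit 344117) (nat_lit 21) (.e (nat_lit 516151) (nat_lit 9) (.e (nat_lit 426211) (nat_lit 9) (.e (nat_lit 426125) (nat_lit 2) (.e (nat_lit 196686) (nat_lit 18) (.e (nat_lit 1115) (nat_lit 82) (.e (nat_lit 8424) (nat_lit 134) .nil)))))))) (.g (nat_lit 4) .nil .nil))))) (.nd (nat_lit 4) (.nd (nat_lit 5) 
(.lf (nat_lit 157513) (.g (nat_lit 1195) (.e (nat_lit 57420) (nat_lit 13) (.e (nat_lit 344132) (nat_lit 26) (.e (nat_lit 557101) (nat_lit 13) (.e (nat_lit 172070) (nat_lit 4) .nil)))) .nil)) 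
(.lf (nat_lit 157545) (.g (nat_lit 5008) (.e (nat_lit 57421) (nat_lit 13) (.e (nat_lit 344117) (nat_lit 21) (.e (nat_lit 516151) (nat_lit 9) (.e (nat_lit 426171) (nat_lit 7) (.e (nat_lit 409612) (nat_lit 10) (.e (nat_lit 604) (nat_lit 45) (.e (nat_lit 532501) (nat_lit 1) (.e (nat_lit 57851) (nat_lit 252) .nil)))))))) (.g (nat_lit 8) .nil .nil)))) (.nd (nat_lit 5) 
(.lf (nat_lit 157529) (.g (nat_lit 1634) (.e (nat_lit 57421) (nat_lit 13) (.e (nat_lit 344068) (nat_lit 0) (.e (nat_lit 2857) (nat_lit 184) (.e (nat_lit 426542) (nat_lit 29) (.e (nat_lit 352318) (nat_lit 24) .nil))))) .nil)) 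
(.lf (nat_lit 157561) (.g (nat_lit 5516) (.e (nat_lit 57421) (nat_lit 13) (.e (nat_lit 344117) (nat_lit 21) (.e (nat_lit 516151) (nat_lit 9) (.e (nat_lit 426211) (nat_lit 9) (.e (nat_lit 426125) (nat_lit 2) (.e (nat_lit 196697) (nat_lit 19) (.e (nat_lit 57586) (nat_lit 61) (.e (nat_lit 5190) (nat_lit 294) .nil)))))))) (.g (nat_lit 4) .nil .nil)))))) 
(.nd (nat_lit 3) (.nd (nat_lit 4) (.nd (nat_lit 5) 
(.lf (nat_lit 157509) (.g (nat_lit 3667) (.e (nat_lit 57420) (nat_lit 13) (.e (nat_lit 344132) (nat_lit 26) (.e (nat_lit 557093) (nat_lit 12) (.e (nat_lit 164238) (nat_lit 187) (.e (nat_lit 1661) (nat_lit 115) (.e (nat_lit 393251) (nat_lit 18) (.e (nat_lit 164183) (nat_lit 154) .nil))))))) (.g (nat_lit 6) .nil .nil))) 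
(.lf (nat_lit 157541) (.g (nat_lit 2180) (.e (nat_lit 57421) (nat_lit 13) (.e (nat_lit 344117) (nat_lit 21) (.e (nat_lit 516151) (nat_lit 9) (.e (nat_lit 426171) (nat_lit 7) .nil)))) .nil))) (.nd (nat_lit 5) 
(.lf (nat_lit 157525) (.g (nat_lit 1664) (.e (nat_lit 57420) (nat_lit 13) (.e (nat_lit 344133) (nat_lit 26) (.e (nat_lit 557105) (nat_lit 14) (.e (nat_lit 180265) (nat_lit 21) .nil)))) .nil)) 
(.lf (nat_lit 157557) (.g (nat_lit 5579) (.e (nat_lit 57421) (nat_lit 13) (.e (nat_lit 344117) (nat_lit 21) (.e (nat_lit 516151) (nat_lit 9) (.e (nat_lit 426211) (nat_lit 9) (.e (nat_lit 426125) (nat_lit 2) (.e (nat_lit 196686) (nat_lit 18) (.e (nat_lit 1118) (nat_lit 82) (.e (nat_lit 8424) (nat_lit 134) .nil)))))))) (.g (nat_lit 4) .nil .nil))))) (.nd (nat_lit 4) (.nd (nat_lit 5) 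
(.lf (nat_lit 157517) (.g (nat_lit 3440) (.e (nat_lit 57420) (nat_lit 13) (.e (nat_lit 344133) (nat_lit 26) (.e (nat_lit 557091) (nat_lit 12) (.e (nat_lit 164238) (nat_lit 187) (.e (nat_lit 1661) (nat_lit 115) (.e (nat_lit 393251) (nat_lit 18) (.e (nat_lit 164177) (nat_lit 154) .nil))))))) (.g (nat_lit 5) .nil .nil))) 
(.lf (nat_lit 157549) (.g (nat_lit 5150) (.e (nat_lit 57421) (nat_lit 13) (.e (nat_lit 344117) (nat_lit 21) (.e (nat_lit 516151) (nat_lit 9) (.e (nat_lit 426211) (nat_lit 9) (.e (nat_lit 426125) (nat_lit 2) .nil))))) .nil))) (.nd (nat_lit 5) 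
(.lf (nat_lit 157533) (.g (nat_lit 611) (.e (nat_lit 57421) (nat_lit 13) (.e (nat_lit 344117) (nat_lit 21) (.e (nat_lit 516130) (nat_lit 3) .nil))) .nil)) 
(.lf (nat_lit 157565) (.g (nat_lit 4148) (.e (nat_lit 57421) (nat_lit 13) (.e (nat_lit 344117) (nat_lit 21) (.e (nat_lit 516151) (nat_lit 9) (.e (nat_lit 426286) (nat_lit 10) (.e (nat_lit 434242) (nat_lit 28) (.e (nat_lit 573474) (nat_lit 12) (.e (nat_lit 57347) (nat_lit 0) (.e (nat_lit 7266) (nat_lit 384) .nil)))))))) (.g (nat_lit 6) .nil .nil))))))) 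
(.nd (nat_lit 2) (.nd (nat_lit 3) (.nd (nat_lit 4) (.nd (nat_lit 5) 
(.lf (nat_lit 157507) (.g (nat_lit 1727) (.e (nat_lit 57420) (nat_lit 13) (.e (nat_lit 344130) (nat_lit 26) (.e (nat_lit 557104) (nat_lit 14) (.e (nat_lit 180233) (nat_lit 0) (.e (nat_lit 5448) (nat_lit 306) .nil))))) .nil)) 
(.lf (nat_lit 157539) (.g (nat_lit 3623) (.e (nat_lit 57421) (nat_lit 13) (.e (nat_lit 344117) (nat_lit 21) (.e (nat_lit 516151) (nat_lit 9) (.e (nat_lit 426170) (nat_lit 7) (.e (nat_lit 409612) (nat_lit 10) .nil))))) .nil))) (.nd (nat_lit 5) 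
(.lf (nat_lit 157523) (.g (nat_lit 2104) (.e (nat_lit 57420) (nat_lit 13) (.e (nat_lit 344133) (nat_lit 26) (.e (nat_lit 557105) (nat_lit 14) (.e (nat_lit 180233) (nat_lit 0) .nil)))) .nil)) 
(.lf (nat_lit 157555) (.g (nat_lit 5569) (.e (nat_lit 57421) (nat_lit 13) (.e (nat_lit 344117) (nat_lit 21) (.e (nat_lit 516151) (nat_lit 9) (.e (nat_lit 426211) (nat_lit 9) (.e (nat_lit 426125) (nat_lit 2) (.e (nat_lit 196686) (nat_lit 18) (.e (nat_lit 1116) (nat_lit 82) (.e (nat_lit 8424) (nat_lit 134) .nil)))))))) (.g (nat_lit 4) .nil .nil))))) (.nd (nat_lit 4) (.nd (nat_lit 5) 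
(.lf (nat_lit 157515) (.g (nat_lit 1472) (.e (nat_lit 57420) (nat_lit 13) (.e (nat_lit 344133) (nat_lit 26) (.e (nat_lit 557091) (nat_lit 12) (.e (nat_lit 164238) (nat_lit 187) .nil)))) .nil)) 
(.lf (nat_lit 157547) (.g (nat_lit 5123) (.e (nat_lit 57421) (nat_lit 13) (.e (nat_lit 344117) (nat_lit 21) (.e (nat_lit 516151) (nat_lit 9) (.e (nat_lit 426171) (nat_lit 7) (.e (nat_lit 409617) (nat_lit 10) (.e (nat_lit 604) (nat_lit 45) (.e (nat_lit 532501) (nat_lit 1) (.e (nat_lit 57851) (nat_lit 252) .nil)))))))) (.g (nat_lit 8) .nil .nil)))) (.nd (nat_lit 5) 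
(.lf (nat_lit 157531) (.g (nat_lit 2094) (.e (nat_lit 57421) (nat_lit 13) (.e (nat_lit 344097) (nat_lit 18) (.e (nat_lit 7270) (nat_lit 385) (.e (nat_lit 122913) (nat_lit 13) .nil)))) .nil)) 
(.lf (nat_lit 157563) (.g (nat_lit 5178) (.e (nat_lit 57421) (nat_lit 13) (.e (nat_lit 344117) (nat_lit 21) (.e (nat_lit 516151) (nat_lit 9) (.e (nat_lit 426211) (nat_lit 9) (.e (nat_lit 426140) (nat_lit 3) .nil))))) .nil))))) (.nd (nat_lit 3) (.nd (nat_lit 4) (.nd (nat_lit 5) 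
(.lf (nat_lit 157511) (.g (nat_lit 2242) (.e (nat_lit 57420) (nat_lit 13) (.e (nat_lit 344132) (nat_lit 26) (.e (nat_lit 557093) (nat_lit 12) (.e (nat_lit 164239) (nat_lit 187) (.e (nat_lit 1661) (nat_lit 115) (.e (nat_lit 393252) (nat_lit 18) (.e (nat_lit 164176) (nat_lit 154) .nil))))))) (.g (nat_lit 5) .nil .nil))) 
(.lf (nat_lit 157543) (.g (nat_lit 3000) (.e (nat_lit 57421) (nat_lit 13) (.e (nat_lit 344117) (nat_lit 21) (.e (nat_lit 516151) (nat_lit 9) (.e (nat_lit 426171) (nat_lit 7) (.e (nat_lit 409611) (nat_lit 10) (.e (nat_lit 604) (nat_lit 45) (.e (nat_lit 532501) (nat_lit 1) (.e (nat_lit 57851) (nat_lit 252) .nil)))))))) (.g (nat_lit 4) .nil .nil)))) (.nd (nat_lit 5) 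
(.lf (nat_lit 157527) (.g (nat_lit 1314) (.e (nat_lit 57421) (nat_lit 13) (.e (nat_lit 344068) (nat_lit 0) (.e (nat_lit 2856) (nat_lit 184) (.e (nat_lit 426546) (nat_lit 30) .nil)))) .nil)) 
(.lf (nat_lit 157559) (.g (nat_lit 5419) (.e (nat_lit 57421) (nat_lit 13) (.e (nat_lit 344117) (nat_lit 21) (.e (nat_lit 516151) (nat_lit 9) (.e (nat_lit 426211) (nat_lit 9) (.e (nat_lit 426125) (nat_lit 2) (.e (nat_lit 196697) (nat_lit 19) (.e (nat_lit 57584) (nat_lit 61) (.e (nat_lit 5205) (nat_lit 294) .nil)))))))) (.g (nat_lit 4) .nil .nil))))) (.nd (nat_lit 4) (.nd (nat_lit 5) 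
(.lf (nat_lit 157519) (.g (nat_lit 3404) (.e (nat_lit 57420) (nat_lit 13) (.e (nat_lit 344133) (nat_lit 26) (.e (nat_lit 557091) (nat_lit 12) (.e (nat_lit 164238) (nat_lit 187) (.e (nat_lit 1661) (nat_lit 115) (.e (nat_lit 393252) (nat_lit 18) (.e (nat_lit 164183) (nat_lit 154) .nil))))))) (.g (nat_lit 5) .nil .nil))) 
(.lf (nat_lit 157551) (.g (nat_lit 5167) (.e (nat_lit 57421) (nat_lit 13) (.e (nat_lit 344117) (nat_lit 21) (.e (nat_lit 516151) (nat_lit 9) (.e (nat_lit 426211) (nat_lit 9) (.e (nat_lit 426125) (nat_lit 2) (.e (nat_lit 196686) (nat_lit 18) (.e (nat_lit 1112) (nat_lit 82) (.e (nat_lit 8424) (nat_lit 134) .nil)))))))) (.g (nat_lit 4) .nil .nil)))) (.nd (nat_lit 5) 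
(.lf (nat_lit 157535) (.g (nat_lit 3510) (.e (nat_lit 57421) (nat_lit 13) (.e (nat_lit 344117) (nat_lit 21) (.e (nat_lit 516151) (nat_lit 9) (.e (nat_lit 426166) (nat_lit 7) .nil)))) .nil)) 
(.lf (nat_lit 157567) (.g (nat_lit 3343) (.e (nat_lit 57421) (nat_lit 13) (.e (nat_lit 344117) (nat_lit 21) (.e (nat_lit 516151) (nat_lit 9) (.e (nat_lit 426286) (nat_lit 10) (.e (nat_lit 434245) (nat_lit 28) (.e (nat_lit 573473) (nat_lit 12) (.e (nat_lit 57347) (nat_lit 0) (.e (nat_lit 7261) (nat_lit 384) .nil)))))))) (.g (nat_lit 6) .nil .nil)))))))))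

noncomputable def tv2108 : DT := (.nd (nat_lit 0) (.nd (nat_lit 1) (.nd (nat_lit 2) (.nd (nat_lit 3) (.nd (nat_lit 4) (.nd (nat_lit 5) 
(.lf (nat_lit 157568) (.g (nat_lit 3357) (.e (nat_lit 57421) (nat_lit 13) (.e (nat_lit 344117) (nat_lit 21) (.e (nat_lit 516151) (nat_lit 9) (.e (nat_lit 426286) (nat_lit 10) (.e (nat_lit 434245) (nat_lit 28) (.e (nat_lit 573473) (nat_lit 12) (.e (nat_lit 57347) (nat_lit 0) (.e (nat_lit 7265) (nat_lit 384) .nil)))))))) (.g (nat_lit 6) .nil .nil))) 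
(.lf (nat_lit 157600) (.g (nat_lit 2916) (.e (nat_lit 57421) (nat_lit 13) (.e (nat_lit 344117) (nat_lit 21) (.e (nat_lit 516165) (nat_lit 12) (.e (nat_lit 450579) (nat_lit 5) (.e (nat_lit 532499) (nat_lit 1) (.e (nat_lit 65280) (nat_lit 223) .nil)))))) (.g (nat_lit 4) .nil .nil)))) (.nd (nat_lit 5) 
(.lf (nat_lit 157584) (.g (nat_lit 2222) (.e (nat_lit 57421) (nat_lit 13) (.e (nat_lit 344117) (nat_lit 21) (.e (nat_lit 516151) (nat_lit 9) (.e (nat_lit 426286) (nat_lit 10) (.e (nat_lit 434247) (nat_lit 28) (.e (nat_lit 573478) (nat_lit 12) (.e (nat_lit 57353) (nat_lit 0) (.e (nat_lit 7263) (nat_lit 384) .nil)))))))) (.g (nat_lit 4) .nil .nil))) 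
(.lf (nat_lit 157616) (.g (nat_lit 2208) (.e (nat_lit 57421) (nat_lit 13) (.e (nat_lit 344117) (nat_lit 21) (.e (nat_lit 516165) (nat_lit 12) (.e (nat_lit 450586) (nat_lit 10) (.e (nat_lit 573477) (nat_lit 12) (.e (nat_lit 57351) (nat_lit 0) (.e (nat_lit 7265) (nat_lit 384) .nil))))))) (.g (nat_lit 4) .nil .nil))))) (.nd (nat_lit 4) (.nd (nat_lit 5) 
(.lf (nat_lit 157576) (.g (nat_lit 2718) (.e (nat_lit 57421) (nat_lit 13) (.e (nat_lit 344117) (nat_lit 21) (.e (nat_lit 516151) (nat_lit 9) (.e (nat_lit 426286) (nat_lit 10) (.e (nat_lit 434247) (nat_lit 28) (.e (nat_lit 573477) (nat_lit 12) (.e (nat_lit 57351) (nat_lit 0) (.e (nat_lit 7261) (nat_lit 384) .nil)))))))) (.g (nat_lit 5) .nil .nil))) 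
(.lf (nat_lit 157608) (.g (nat_lit 4472) (.e (nat_lit 57421) (nat_lit 13) (.e (nat_lit 344117) (nat_lit 21) (.e (nat_lit 516165) (nat_lit 12) (.e (nat_lit 450586) (nat_lit 10) (.e (nat_lit 573475) (nat_lit 12) (.e (nat_lit 57347) (nat_lit 0) (.e (nat_lit 7266) (nat_lit 384) .nil))))))) (.g (nat_lit 7) .nil .nil)))) (.nd (nat_lit 5) 
(.lf (nat_lit 157592) (.g (nat_lit 4272) (.e (nat_lit 57421) (nat_lit 13) (.e (nat_lit 344117) (nat_lit 21) (.e (nat_lit 516151) (nat_lit 9) (.e (nat_lit 426286) (nat_lit 10) (.e (nat_lit 434248) (nat_lit 28) (.e (nat_lit 573475) (nat_lit 12) (.e (nat_lit 57348) (nat_lit 0) (.e (nat_lit 7261) (nat_lit 384) .nil)))))))) (.g (nat_lit 7) .nil .nil))) 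
(.lf (nat_lit 157624) (.g (nat_lit 3153) (.e (nat_lit 57421) (nat_lit 13) (.e (nat_lit 344117) (nat_lit 21) (.e (nat_lit 516166) (nat_lit 12) (.e (nat_lit 450563) (nat_lit 0) (.e (nat_lit 4000) (nat_lit 241) .nil))))) .nil))))) (.nd (nat_lit 3) (.nd (nat_lit 4) (.nd (nat_lit 5) 
(.lf (nat_lit 157572) (.g (nat_lit 4428) (.e (nat_lit 57421) (nat_lit 13) (.e (nat_lit 344117) (nat_lit 21) (.e (nat_lit 516151) (nat_lit 9) (.e (nat_lit 426286) (nat_lit 10) (.e (nat_lit 434245) (nat_lit 28) (.e (nat_lit 573474) (nat_lit 12) (.e (nat_lit 57347) (nat_lit 0) (.e (nat_lit 7263) (nat_lit 384) .nil)))))))) (.g (nat_lit 7) .nil .nil))) 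
(.lf (nat_lit 157604) (.g (nat_lit 2929) (.e (nat_lit 57421) (nat_lit 13) (.e (nat_lit 344117) (nat_lit 21) (.e (nat_lit 516165) (nat_lit 12) (.e (nat_lit 450586) (nat_lit 10) (.e (nat_lit 573473) (nat_lit 12) (.e (nat_lit 57347) (nat_lit 0) (.e (nat_lit 7265) (nat_lit 384) .nil))))))) (.g (nat_lit 5) .nil .nil)))) (.nd (nat_lit 5) 
(.lf (nat_lit 157588) (.g (nat_lit 2118) (.e (nat_lit 57421) (nat_lit 13) (.e (nat_lit 344117) (nat_lit 21) (.e (nat_lit 516151) (nat_lit 9) (.e (nat_lit 426286) (nat_lit 10) (.e (nat_lit 434248) (nat_lit 28) (.e (nat_lit 573473) (nat_lit 12) (.e (nat_lit 57352) (nat_lit 0) (.e (nat_lit 7265) (nat_lit 384) .nil)))))))) (.g (nat_lit 4) .nil .nil))) 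
(.lf (nat_lit 157620) (.g (nat_lit 2782) (.e (nat_lit 57421) (nat_lit 13) (.e (nat_lit 344117) (nat_lit 21) (.e (nat_lit 516165) (nat_lit 12) (.e (nat_lit 450587) (nat_lit 10) (.e (nat_lit 573478) (nat_lit 12) .nil))))) .nil)))) (.nd (nat_lit 4) (.nd (nat_lit 5) 
(.lf (nat_lit 157580) (.g (nat_lit 1973) (.e (nat_lit 57421) (nat_lit 13) (.e (nat_lit 344117) (nat_lit 21) (.e (nat_lit 516151) (nat_lit 9) (.e (nat_lit 426286) (nat_lit 10) (.e (nat_lit 434247) (nat_lit 28) (.e (nat_lit 573478) (nat_lit 12) (.e (nat_lit 57344) (nat_lit 0) (.e (nat_lit 7263) (nat_lit 384) .nil)))))))) (.g (nat_lit 4) .nil .nil))) 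
(.lf (nat_lit 157612) (.g (nat_lit 3248) (.e (nat_lit 57421) (nat_lit 13) (.e (nat_lit 344117) (nat_lit 21) (.e (nat_lit 516165) (nat_lit 12) (.e (nat_lit 450586) (nat_lit 10) (.e (nat_lit 573475) (nat_lit 12) (.e (nat_lit 57353) (nat_lit 0) (.e (nat_lit 7266) (nat_lit 384) .nil))))))) (.g (nat_lit 5) .nil .nil)))) (.nd (nat_lit 5) 
(.lf (nat_lit 157596) (.g (nat_lit 1650) (.e (nat_lit 57421) (nat_lit 13) (.e (nat_lit 344117) (nat_lit 21) (.e (nat_lit 516163) (nat_lit 11) (.e (nat_lit 442424) (nat_lit 22) .nil)))) .nil)) 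
(.lf (nat_lit 157628) (.g (nat_lit 2238) (.e (nat_lit 57421) (nat_lit 13) (.e (nat_lit 344117) (nat_lit 21) (.e (nat_lit 516166) (nat_lit 12) (.e (nat_lit 450587) (nat_lit 10) (.e (nat_lit 573477) (nat_lit 12) (.e (nat_lit 57351) (nat_lit 0) (.e (nat_lit 7261) (nat_lit 384) .nil))))))) (.g (nat_lit 4) .nil .nil))))))) (.nd (nat_lit 2) (.nd (nat_lit 3) (.nd (nat_lit 4) (.nd (nat_lit 5) 
(.lf (nat_lit 157570) (.g (nat_lit 2005) (.e (nat_lit 57421) (nat_lit 13) (.e (nat_lit 344117) (nat_lit 21) (.e (nat_lit 516151) (nat_lit 9) (.e (nat_lit 426286) (nat_lit 10) (.e (nat_lit 434245) (nat_lit 28) (.e (nat_lit 573473) (nat_lit 12) (.e (nat_lit 57352) (nat_lit 0) (.e (nat_lit 7265) (nat_lit 384) .nil)))))))) (.g (nat_lit 4) .nil .nil))) 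
(.lf (nat_lit 157602) (.g (nat_lit 3650) (.e (nat_lit 57421) (nat_lit 13) (.e (nat_lit 344117) (nat_lit 21) (.e (nat_lit 516165) (nat_lit 12) (.e (nat_lit 450579) (nat_lit 5) (.e (nat_lit 532504) (nat_lit 1) (.e (nat_lit 65280) (nat_lit 223) .nil)))))) (.g (nat_lit 5) .nil .nil)))) (.nd (nat_lit 5) 
(.lf (nat_lit 157586) (.g (nat_lit 3494) (.e (nat_lit 57421) (nat_lit 13) (.e (nat_lit 344117) (nat_lit 21) (.e (nat_lit 516151) (nat_lit 9) (.e (nat_lit 426286) (nat_lit 10) (.e (nat_lit 434248) (nat_lit 28) (.e (nat_lit 573473) (nat_lit 12) (.e (nat_lit 57347) (nat_lit 0) (.e (nat_lit 7265) (nat_lit 384) .nil)))))))) (.g (nat_lit 6) .nil .nil))) 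
(.lf (nat_lit 157618) (.g (nat_lit 2630) (.e (nat_lit 57421) (nat_lit 13) (.e (nat_lit 344117) (nat_lit 21) (.e (nat_lit 516165) (nat_lit 12) (.e (nat_lit 450586) (nat_lit 10) (.e (nat_lit 573478) (nat_lit 12) (.e (nat_lit 57352) (nat_lit 0) (.e (nat_lit 7263) (nat_lit 384) .nil))))))) (.g (nat_lit 5) .nil .nil))))) (.nd (nat_lit 4) (.nd (nat_lit 5) 
(.lf (nat_lit 157578) (.g (nat_lit 2825) (.e (nat_lit 57421) (nat_lit 13) (.e (nat_lit 344117) (nat_lit 21) (.e (nat_lit 516151) (nat_lit 9) (.e (nat_lit 426286) (nat_lit 10) (.e (nat_lit 434247) (nat_lit 28) (.e (nat_lit 573477) (nat_lit 12) (.e (nat_lit 57351) (nat_lit 0) (.e (nat_lit 7265) (nat_lit 384) .nil)))))))) (.g (nat_lit 5) .nil .nil))) 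
(.lf (nat_lit 157610) (.g (nat_lit 3042) (.e (nat_lit 57421) (nat_lit 13) (.e (nat_lit 344117) (nat_lit 21) (.e (nat_lit 516165) (nat_lit 12) (.e (nat_lit 450586) (nat_lit 10) (.e (nat_lit 573475) (nat_lit 12) (.e (nat_lit 57348) (nat_lit 0) (.e (nat_lit 7263) (nat_lit 384) .nil))))))) (.g (nat_lit 5) .nil .nil)))) (.nd (nat_lit 5) 
(.lf (nat_lit 157594) (.g (nat_lit 3760) (.e (nat_lit 57421) (nat_lit 13) (.e (nat_lit 344117) (nat_lit 21) (.e (nat_lit 516151) (nat_lit 9) (.e (nat_lit 426286) (nat_lit 10) (.e (nat_lit 434248) (nat_lit 28) (.e (nat_lit 573475) (nat_lit 12) (.e (nat_lit 57353) (nat_lit 0) (.e (nat_lit 7261) (nat_lit 384) .nil)))))))) (.g (nat_lit 6) .nil .nil))) 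
(.lf (nat_lit 157626) (.g (nat_lit 1820) (.e (nat_lit 57421) (nat_lit 13) (.e (nat_lit 344117) (nat_lit 21) (.e (nat_lit 516166) (nat_lit 12) (.e (nat_lit 450586) (nat_lit 10) .nil)))) .nil))))) (.nd (nat_lit 3) (.nd (nat_lit 4) (.nd (nat_lit 5) 
(.lf (nat_lit 157574) (.g (nat_lit 4346) (.e (nat_lit 57421) (nat_lit 13) (.e (nat_lit 344117) (nat_lit 21) (.e (nat_lit 516151) (nat_lit 9) (.e (nat_lit 426286) (nat_lit 10) (.e (nat_lit 434245) (nat_lit 28) (.e (nat_lit 573474) (nat_lit 12) (.e (nat_lit 57348) (nat_lit 0) (.e (nat_lit 7263) (nat_lit 384) .nil)))))))) (.g (nat_lit 7) .nil .nil))) 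
(.lf (nat_lit 157606) (.g (nat_lit 2276) (.e (nat_lit 57421) (nat_lit 13) (.e (nat_lit 344117) (nat_lit 21) (.e (nat_lit 516165) (nat_lit 12) (.e (nat_lit 450586) (nat_lit 10) (.e (nat_lit 573475) (nat_lit 12) (.e (nat_lit 57344) (nat_lit 0) (.e (nat_lit 7263) (nat_lit 384) .nil))))))) (.g (nat_lit 4) .nil .nil)))) (.nd (nat_lit 5) 
(.lf (nat_lit 157590) (.g (nat_lit 2925) (.e (nat_lit 57421) (nat_lit 13) (.e (nat_lit 344117) (nat_lit 21) (.e (nat_lit 516151) (nat_lit 9) (.e (nat_lit 426286) (nat_lit 10) (.e (nat_lit 434248) (nat_lit 28) (.e (nat_lit 573473) (nat_lit 12) (.e (nat_lit 57353) (nat_lit 0) (.e (nat_lit 7263) (nat_lit 384) .nil)))))))) (.g (nat_lit 5) .nil .nil))) 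
(.lf (nat_lit 157622) (.g (nat_lit 3583) (.e (nat_lit 57421) (nat_lit 13) (.e (nat_lit 344117) (nat_lit 21) (.e (nat_lit 516165) (nat_lit 12) (.e (nat_lit 450588) (nat_lit 10) (.e (nat_lit 573473) (nat_lit 12) (.e (nat_lit 57347) (nat_lit 0) (.e (nat_lit 7265) (nat_lit 384) .nil))))))) (.g (nat_lit 4) .nil .nil))))) (.nd (nat_lit 4) (.nd (nat_lit 5) 
(.lf (nat_lit 157582) (.g (nat_lit 3227) (.e (nat_lit 57421) (nat_lit 13) (.e (nat_lit 344117) (nat_lit 21) (.e (nat_lit 516151) (nat_lit 9) (.e (nat_lit 426286) (nat_lit 10) (.e (nat_lit 434247) (nat_lit 28) (.e (nat_lit 573478) (nat_lit 12) (.e (nat_lit 57352) (nat_lit 0) (.e (nat_lit 7261) (nat_lit 384) .nil)))))))) (.g (nat_lit 6) .nil .nil))) 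
(.lf (nat_lit 157614) (.g (nat_lit 2101) (.e (nat_lit 57421) (nat_lit 13) (.e (nat_lit 344117) (nat_lit 21) (.e (nat_lit 516165) (nat_lit 12) (.e (nat_lit 450586) (nat_lit 10) (.e (nat_lit 573477) (nat_lit 12) (.e (nat_lit 57351) (nat_lit 0) (.e (nat_lit 7261) (nat_lit 384) .nil))))))) (.g (nat_lit 4) .nil .nil)))) (.nd (nat_lit 5) 
(.lf (nat_lit 157598) (.g (nat_lit 1555) (.e (nat_lit 57421) (nat_lit 13) (.e (nat_lit 344117) (nat_lit 21) (.e (nat_lit 516165) (nat_lit 12) (.e (nat_lit 458496) (nat_lit 3) .nil)))) .nil)) 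
(.lf (nat_lit 157630) (.g (nat_lit 2032) (.e (nat_lit 57421) (nat_lit 13) (.e (nat_lit 344117) (nat_lit 21) (.e (nat_lit 516166) (nat_lit 12) (.e (nat_lit 450587) (nat_lit 10) (.e (nat_lit 573477) (nat_lit 12) (.e (nat_lit 57353) (nat_lit 0) (.e (nat_lit 7263) (nat_lit 384) .nil))))))) (.g (nat_lit 4) .nil .nil)))))))) 
(.nd (nat_lit 1) (.nd (nat_lit 2) (.nd (nat_lit 3) (.nd (nat_lit 4) (.nd (nat_lit 5) 
(.lf (nat_lit 157569) (.g (nat_lit 4518) (.e (nat_lit 57421) (nat_lit 13) (.e (nat_lit 344117) (nat_lit 21) (.e (nat_lit 516151) (nat_lit 9) (.e (nat_lit 426286) (nat_lit 10) (.e (nat_lit 434245) (nat_lit 28) (.e (nat_lit 573473) (nat_lit 12) (.e (nat_lit 57347) (nat_lit 0) (.e (nat_lit 7266) (nat_lit 384) .nil)))))))) (.g (nat_lit 8) .nil .nil))) 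
(.lf (nat_lit 157601) (.g (nat_lit 3704) (.e (nat_lit 57421) (nat_lit 13) (.e (nat_lit 344117) (nat_lit 21) (.e (nat_lit 516165) (nat_lit 12) (.e (nat_lit 450579) (nat_lit 5) (.e (nat_lit 532501) (nat_lit 1) (.e (nat_lit 65280) (nat_lit 223) .nil)))))) (.g (nat_lit 5) .nil .nil)))) (.nd (nat_lit 5) 
(.lf (nat_lit 157585) (.g (nat_lit 3480) (.e (nat_lit 57421) (nat_lit 13) (.e (nat_lit 344117) (nat_lit 21) (.e (nat_lit 516151) (nat_lit 9) (.e (nat_lit 426286) (nat_lit 10) (.e (nat_lit 434248) (nat_lit 28) (.e (nat_lit 573473) (nat_lit 12) (.e (nat_lit 57347) (nat_lit 0) (.e (nat_lit 7261) (nat_lit 384) .nil)))))))) (.g (nat_lit 6) .nil .nil))) 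
(.lf (nat_lit 157617) (.g (nat_lit 1961) (.e (nat_lit 57421) (nat_lit 13) (.e (nat_lit 344117) (nat_lit 21) (.e (nat_lit 516165) (nat_lit 12) (.e (nat_lit 450586) (nat_lit 10) (.e (nat_lit 573478) (nat_lit 12) .nil))))) .nil)))) (.nd (nat_lit 4) (.nd (nat_lit 5) 
(.lf (nat_lit 157577) (.g (nat_lit 2681) (.e (nat_lit 57421) (nat_lit 13) (.e (nat_lit 344117) (nat_lit 21) (.e (nat_lit 516151) (nat_lit 9) (.e (nat_lit 426286) (nat_lit 10) (.e (nat_lit 434247) (nat_lit 28) (.e (nat_lit 573477) (nat_lit 12) (.e (nat_lit 57351) (nat_lit 0) (.e (nat_lit 7263) (nat_lit 384) .nil)))))))) (.g (nat_lit 5) .nil .nil))) 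
(.lf (nat_lit 157609) (.g (nat_lit 3336) (.e (nat_lit 57421) (nat_lit 13) (.e (nat_lit 344117) (nat_lit 21) (.e (nat_lit 516165) (nat_lit 12) (.e (nat_lit 450586) (nat_lit 10) (.e (nat_lit 573475) (nat_lit 12) (.e (nat_lit 57348) (nat_lit 0) (.e (nat_lit 7261) (nat_lit 384) .nil))))))) (.g (nat_lit 5) .nil .nil)))) (.nd (nat_lit 5) 
(.lf (nat_lit 157593) (.g (nat_lit 4494) (.e (nat_lit 57421) (nat_lit 13) (.e (nat_lit 344117) (nat_lit 21) (.e (nat_lit 516151) (nat_lit 9) (.e (nat_lit 426286) (nat_lit 10) (.e (nat_lit 434248) (nat_lit 28) (.e (nat_lit 573475) (nat_lit 12) (.e (nat_lit 57351) (nat_lit 0) (.e (nat_lit 7266) (nat_lit 384) .nil)))))))) (.g (nat_lit 0) .nil .nil))) 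
(.lf (nat_lit 157625) (.g (nat_lit 1621) (.e (nat_lit 57421) (nat_lit 13) (.e (nat_lit 344117) (nat_lit 21) (.e (nat_lit 516166) (nat_lit 12) (.e (nat_lit 458496) (nat_lit 3) .nil)))) .nil))))) (.nd (nat_lit 3) (.nd (nat_lit 4) (.nd (nat_lit 5) 
(.lf (nat_lit 157573) (.g (nat_lit 5353) (.e (nat_lit 57421) (nat_lit 13) (.e (nat_lit 344117) (nat_lit 21) (.e (nat_lit 516151) (nat_lit 9) (.e (nat_lit 426286) (nat_lit 10) (.e (nat_lit 434245) (nat_lit 28) (.e (nat_lit 573474) (nat_lit 12) (.e (nat_lit 57347) (nat_lit 0) (.e (nat_lit 7266) (nat_lit 384) .nil)))))))) (.g (nat_lit 0) .nil .nil))) 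
(.lf (nat_lit 157605) (.g (nat_lit 4090) (.e (nat_lit 57421) (nat_lit 13) (.e (nat_lit 344117) (nat_lit 21) (.e (nat_lit 516165) (nat_lit 12) (.e (nat_lit 450586) (nat_lit 10) (.e (nat_lit 573473) (nat_lit 12) (.e (nat_lit 57347) (nat_lit 0) (.e (nat_lit 7266) (nat_lit 384) .nil))))))) (.g (nat_lit 7) .nil .nil)))) (.nd (nat_lit 5) 
(.lf (nat_lit 157589) (.g (nat_lit 2962) (.e (nat_lit 57421) (nat_lit 13) (.e (nat_lit 344117) (nat_lit 21) (.e (nat_lit 516151) (nat_lit 9) (.e (nat_lit 426286) (nat_lit 10) (.e (nat_lit 434248) (nat_lit 28) (.e (nat_lit 573473) (nat_lit 12) (.e (nat_lit 57352) (nat_lit 0) (.e (nat_lit 7266) (nat_lit 384) .nil)))))))) (.g (nat_lit 5) .nil .nil))) 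
(.lf (nat_lit 157621) (.g (nat_lit 3569) (.e (nat_lit 57421) (nat_lit 13) (.e (nat_lit 344117) (nat_lit 21) (.e (nat_lit 516165) (nat_lit 12) (.e (nat_lit 450588) (nat_lit 10) (.e (nat_lit 573473) (nat_lit 12) (.e (nat_lit 57347) (nat_lit 0) (.e (nat_lit 7261) (nat_lit 384) .nil))))))) (.g (nat_lit 4) .nil .nil))))) (.nd (nat_lit 4) (.nd (nat_lit 5) 
(.lf (nat_lit 157581) (.g (nat_lit 2169) (.e (nat_lit 57421) (nat_lit 13) (.e (nat_lit 344117) (nat_lit 21) (.e (nat_lit 516151) (nat_lit 9) (.e (nat_lit 426286) (nat_lit 10) (.e (nat_lit 434247) (nat_lit 28) (.e (nat_lit 573478) (nat_lit 12) (.e (nat_lit 57344) (nat_lit 0) (.e (nat_lit 7266) (nat_lit 384) .nil)))))))) (.g (nat_lit 4) .nil .nil))) 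
(.lf (nat_lit 157613) (.g (nat_lit 2027) (.e (nat_lit 57421) (nat_lit 13) (.e (nat_lit 344117) (nat_lit 21) (.e (nat_lit 516165) (nat_lit 12) (.e (nat_lit 450586) (nat_lit 10) (.e (nat_lit 573477) (nat_lit 12) .nil))))) .nil))) (.nd (nat_lit 5) 
(.lf (nat_lit 157597) (.g (nat_lit 1726) (.e (nat_lit 57421) (nat_lit 13) (.e (nat_lit 344117) (nat_lit 21) (.e (nat_lit 516163) (nat_lit 11) (.e (nat_lit 442430) (nat_lit 24) .nil)))) .nil)) 
(.lf (nat_lit 157629) (.g (nat_lit 2201) (.e (nat_lit 57421) (nat_lit 13) (.e (nat_lit 344117) (nat_lit 21) (.e (nat_lit 516166) (nat_lit 12) (.e (nat_lit 450587) (nat_lit 10) (.e (nat_lit 573477) (nat_lit 12) (.e (nat_lit 57351) (nat_lit 0) (.e (nat_lit 7263) (nat_lit 384) .nil))))))) (.g (nat_lit 4) .nil .nil))))))) (.nd (nat_lit 2) (.nd (nat_lit 3) (.nd (nat_lit 4) (.nd (nat_lit 5) 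
(.lf (nat_lit 157571) (.g (nat_lit 2807) (.e (nat_lit 57421) (nat_lit 13) (.e (nat_lit 344117) (nat_lit 21) (.e (nat_lit 516151) (nat_lit 9) (.e (nat_lit 426286) (nat_lit 10) (.e (nat_lit 434245) (nat_lit 28) (.e (nat_lit 573473) (nat_lit 12) (.e (nat_lit 57353) (nat_lit 0) (.e (nat_lit 7263) (nat_lit 384) .nil)))))))) (.g (nat_lit 5) .nil .nil))) 
(.lf (nat_lit 157603) (.g (nat_lit 2915) (.e (nat_lit 57421) (nat_lit 13) (.e (nat_lit 344117) (nat_lit 21) (.e (nat_lit 516165) (nat_lit 12) (.e (nat_lit 450586) (nat_lit 10) (.e (nat_lit 573473) (nat_lit 12) (.e (nat_lit 57347) (nat_lit 0) (.e (nat_lit 7261) (nat_lit 384) .nil))))))) (.g (nat_lit 5) .nil .nil)))) (.nd (nat_lit 5) 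
(.lf (nat_lit 157587) (.g (nat_lit 4654) (.e (nat_lit 57421) (nat_lit 13) (.e (nat_lit 344117) (nat_lit 21) (.e (nat_lit 516151) (nat_lit 9) (.e (nat_lit 426286) (nat_lit 10) (.e (nat_lit 434248) (nat_lit 28) (.e (nat_lit 573473) (nat_lit 12) (.e (nat_lit 57347) (nat_lit 0) (.e (nat_lit 7266) (nat_lit 384) .nil)))))))) (.g (nat_lit 8) .nil .nil))) 
(.lf (nat_lit 157619) (.g (nat_lit 2826) (.e (nat_lit 57421) (nat_lit 13) (.e (nat_lit 344117) (nat_lit 21) (.e (nat_lit 516165) (nat_lit 12) (.e (nat_lit 450587) (nat_lit 10) (.e (nat_lit 573477) (nat_lit 12) .nil))))) .nil)))) (.nd (nat_lit 4) (.nd (nat_lit 5) 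
(.lf (nat_lit 157579) (.g (nat_lit 2637) (.e (nat_lit 57421) (nat_lit 13) (.e (nat_lit 344117) (nat_lit 21) (.e (nat_lit 516151) (nat_lit 9) (.e (nat_lit 426286) (nat_lit 10) (.e (nat_lit 434247) (nat_lit 28) (.e (nat_lit 573477) (nat_lit 12) (.e (nat_lit 57353) (nat_lit 0) (.e (nat_lit 7263) (nat_lit 384) .nil)))))))) (.g (nat_lit 5) .nil .nil))) 
(.lf (nat_lit 157611) (.g (nat_lit 3798) (.e (nat_lit 57421) (nat_lit 13) (.e (nat_lit 344117) (nat_lit 21) (.e (nat_lit 516165) (nat_lit 12) (.e (nat_lit 450586) (nat_lit 10) (.e (nat_lit 573475) (nat_lit 12) (.e (nat_lit 57351) (nat_lit 0) (.e (nat_lit 7266) (nat_lit 384) .nil))))))) (.g (nat_lit 0) .nil .nil)))) (.nd (nat_lit 5) 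
(.lf (nat_lit 157595) (.g (nat_lit 640) (.e (nat_lit 57421) (nat_lit 13) (.e (nat_lit 344117) (nat_lit 21) (.e (nat_lit 516163) (nat_lit 11) .nil))) .nil)) 
(.lf (nat_lit 157627) (.g (nat_lit 2943) (.e (nat_lit 57421) (nat_lit 13) (.e (nat_lit 344117) (nat_lit 21) (.e (nat_lit 516166) (nat_lit 12) (.e (nat_lit 450587) (nat_lit 10) (.e (nat_lit 573472) (nat_lit 12) .nil))))) .nil))))) (.nd (nat_lit 3) (.nd (nat_lit 4) (.nd (nat_lit 5) 
(.lf (nat_lit 157575) (.g (nat_lit 5121) (.e (nat_lit 57421) (nat_lit 13) (.e (nat_lit 344117) (nat_lit 21) (.e (nat_lit 516151) (nat_lit 9) (.e (nat_lit 426286) (nat_lit 10) (.e (nat_lit 434245) (nat_lit 28) (.e (nat_lit 573474) (nat_lit 12) (.e (nat_lit 57348) (nat_lit 0) (.e (nat_lit 7266) (nat_lit 384) .nil)))))))) (.g (nat_lit 8) .nil .nil))) 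
(.lf (nat_lit 157607) (.g (nat_lit 4014) (.e (nat_lit 57421) (nat_lit 13) (.e (nat_lit 344117) (nat_lit 21) (.e (nat_lit 516165) (nat_lit 12) (.e (nat_lit 450586) (nat_lit 10) (.e (nat_lit 573475) (nat_lit 12) (.e (nat_lit 57347) (nat_lit 0) (.e (nat_lit 7265) (nat_lit 384) .nil))))))) (.g (nat_lit 6) .nil .nil)))) (.nd (nat_lit 5) 
(.lf (nat_lit 157591) (.g (nat_lit 4539) (.e (nat_lit 57421) (nat_lit 13) (.e (nat_lit 344117) (nat_lit 21) (.e (nat_lit 516151) (nat_lit 9) (.e (nat_lit 426286) (nat_lit 10) (.e (nat_lit 434248) (nat_lit 28) (.e (nat_lit 573475) (nat_lit 12) (.e (nat_lit 57347) (nat_lit 0) (.e (nat_lit 7263) (nat_lit 384) .nil)))))))) (.g (nat_lit 7) .nil .nil))) 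
(.lf (nat_lit 157623) (.g (nat_lit 4961) (.e (nat_lit 57421) (nat_lit 13) (.e (nat_lit 344117) (nat_lit 21) (.e (nat_lit 516165) (nat_lit 12) (.e (nat_lit 450588) (nat_lit 10) (.e (nat_lit 573475) (nat_lit 12) (.e (nat_lit 57347) (nat_lit 0) (.e (nat_lit 7266) (nat_lit 384) .nil))))))) (.g (nat_lit 5) .nil .nil))))) (.nd (nat_lit 4) (.nd (nat_lit 5) 
(.lf (nat_lit 157583) (.g (nat_lit 3069) (.e (nat_lit 57421) (nat_lit 13) (.e (nat_lit 344117) (nat_lit 21) (.e (nat_lit 516151) (nat_lit 9) (.e (nat_lit 426286) (nat_lit 10) (.e (nat_lit 434247) (nat_lit 28) (.e (nat_lit 573478) (nat_lit 12) (.e (nat_lit 57352) (nat_lit 0) (.e (nat_lit 7263) (nat_lit 384) .nil)))))))) (.g (nat_lit 6) .nil .nil))) 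
(.lf (nat_lit 157615) (.g (nat_lit 2064) (.e (nat_lit 57421) (nat_lit 13) (.e (nat_lit 344117) (nat_lit 21) (.e (nat_lit 516165) (nat_lit 12) (.e (nat_lit 450586) (nat_lit 10) (.e (nat_lit 573477) (nat_lit 12) (.e (nat_lit 57351) (nat_lit 0) (.e (nat_lit 7263) (nat_lit 384) .nil))))))) (.g (nat_lit 4) .nil .nil)))) (.nd (nat_lit 5) 
(.lf (nat_lit 157599) (.g (nat_lit 2418) (.e (nat_lit 57421) (nat_lit 13) (.e (nat_lit 344117) (nat_lit 21) (.e (nat_lit 516165) (nat_lit 12) (.e (nat_lit 458496) (nat_lit 3) (.e (nat_lit 516115) (nat_lit 1) (.e (nat_lit 164319) (nat_lit 228) .nil)))))) (.g (nat_lit 5) .nil .nil))) 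
(.lf (nat_lit 157631) (.g (nat_lit 1859) (.e (nat_lit 57421) (nat_lit 13) (.e (nat_lit 344117) (nat_lit 21) (.e (nat_lit 516166) (nat_lit 12) (.e (nat_lit 450587) (nat_lit 10) (.e (nat_lit 573478) (nat_lit 12) .nil))))) .nil))))))))

noncomputable def tv2109 : DT := (.nd (nat_lit 0) (.nd (nat_lit 1) (.nd (nat_lit 2) (.nd (nat_lit 3) (.nd (nat_lit 4) (.nd (nat_lit 5) 
(.lf (nat_lit 157632) (.g (nat_lit 3214) (.e (nat_lit 57421) (nat_lit 13) (.e (nat_lit 344117) (nat_lit 21) (.e (nat_lit 516166) (nat_lit 12) (.e (nat_lit 450587) (nat_lit 10) (.e (nat_lit 573478) (nat_lit 12) (.e (nat_lit 57351) (nat_lit 0) (.e (nat_lit 7266) (nat_lit 384) .nil))))))) (.g (nat_lit 0) .nil .nil))) 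
(.lf (nat_lit 157664) (.g (nat_lit 2857) (.e (nat_lit 57421) (nat_lit 13) (.e (nat_lit 344129) (nat_lit 26) (.e (nat_lit 557090) (nat_lit 12) (.e (nat_lit 164235) (nat_lit 187) .nil)))) .nil))) (.nd (nat_lit 5) 
(.lf (nat_lit 157648) (.g (nat_lit 5062) (.e (nat_lit 57421) (nat_lit 13) (.e (nat_lit 344126) (nat_lit 25) (.e (nat_lit 548874) (nat_lit 5) (.e (nat_lit 1586) (nat_lit 111) (.e (nat_lit 360475) (nat_lit 8) (.e (nat_lit 557089) (nat_lit 12) (.e (nat_lit 163844) (nat_lit 0) (.e (nat_lit 6068) (nat_lit 328) .nil)))))))) (.g (nat_lit 6) .nil .nil))) 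
(.lf (nat_lit 157680) (.g (nat_lit 1417) (.e (nat_lit 57421) (nat_lit 13) (.e (nat_lit 344130) (nat_lit 26) (.e (nat_lit 557104) (nat_lit 14) (.e (nat_lit 180224) (nat_lit 0) .nil)))) .nil)))) (.nd (nat_lit 4) (.nd (nat_lit 5) 
(.lf (nat_lit 157640) (.g (nat_lit 3980) (.e (nat_lit 57421) (nat_lit 13) (.e (nat_lit 344117) (nat_lit 21) (.e (nat_lit 516166) (nat_lit 12) (.e (nat_lit 450588) (nat_lit 10) (.e (nat_lit 573475) (nat_lit 12) (.e (nat_lit 57348) (nat_lit 0) (.e (nat_lit 7261) (nat_lit 384) .nil))))))) (.g (nat_lit 6) .nil .nil))) 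
(.lf (nat_lit 157672) (.g (nat_lit 2523) (.e (nat_lit 57421) (nat_lit 13) (.e (nat_lit 344129) (nat_lit 26) (.e (nat_lit 557104) (nat_lit 14) (.e (nat_lit 180229) (nat_lit 0) (.e (nat_lit 5548) (nat_lit 306) .nil))))) .nil))) (.nd (nat_lit 5) 
(.lf (nat_lit 157656) (.g (nat_lit 1502) (.e (nat_lit 57421) (nat_lit 13) (.e (nat_lit 344126) (nat_lit 25) (.e (nat_lit 548874) (nat_lit 5) (.e (nat_lit 1589) (nat_lit 111) .nil)))) .nil)) 
(.lf (nat_lit 157688) (.g (nat_lit 2541) (.e (nat_lit 57421) (nat_lit 13) (.e (nat_lit 344132) (nat_lit 26) (.e (nat_lit 557100) (nat_lit 13) (.e (nat_lit 172059) (nat_lit 1) (.e (nat_lit 164327) (nat_lit 230) .nil))))) .nil))))) (.nd (nat_lit 3) (.nd (nat_lit 4) (.nd (nat_lit 5) 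
(.lf (nat_lit 157636) (.g (nat_lit 3321) (.e (nat_lit 57421) (nat_lit 13) (.e (nat_lit 344117) (nat_lit 21) (.e (nat_lit 516166) (nat_lit 12) (.e (nat_lit 450588) (nat_lit 10) (.e (nat_lit 573473) (nat_lit 12) (.e (nat_lit 57347) (nat_lit 0) (.e (nat_lit 7265) (nat_lit 384) .nil))))))) (.g (nat_lit 5) .nil .nil))) 
(.lf (nat_lit 157668) (.g (nat_lit 2035) (.e (nat_lit 57421) (nat_lit 13) (.e (nat_lit 344129) (nat_lit 26) (.e (nat_lit 557103) (nat_lit 14) (.e (nat_lit 180229) (nat_lit 0) (.e (nat_lit 5224) (nat_lit 296) .nil))))) .nil))) (.nd (nat_lit 5) 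
(.lf (nat_lit 157652) (.g (nat_lit 4735) (.e (nat_lit 57421) (nat_lit 13) (.e (nat_lit 344126) (nat_lit 25) (.e (nat_lit 548874) (nat_lit 5) (.e (nat_lit 1586) (nat_lit 111) (.e (nat_lit 360475) (nat_lit 8) (.e (nat_lit 557091) (nat_lit 12) (.e (nat_lit 163841) (nat_lit 0) (.e (nat_lit 6068) (nat_lit 328) .nil)))))))) (.g (nat_lit 6) .nil .nil))) 
(.lf (nat_lit 157684) (.g (nat_lit 1273) (.e (nat_lit 57421) (nat_lit 13) (.e (nat_lit 344130) (nat_lit 26) (.e (nat_lit 557104) (nat_lit 14) (.e (nat_lit 180233) (nat_lit 0) .nil)))) .nil)))) (.nd (nat_lit 4) (.nd (nat_lit 5) 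
(.lf (nat_lit 157644) (.g (nat_lit 1960) (.e (nat_lit 57421) (nat_lit 13) (.e (nat_lit 344126) (nat_lit 25) (.e (nat_lit 548872) (nat_lit 5) (.e (nat_lit 1598) (nat_lit 111) (.e (nat_lit 360473) (nat_lit 8) (.e (nat_lit 557089) (nat_lit 12) (.e (nat_lit 163844) (nat_lit 0) (.e (nat_lit 6068) (nat_lit 328) .nil)))))))) (.g (nat_lit 5) .nil .nil))) 
(.lf (nat_lit 157676) (.g (nat_lit 3869) (.e (nat_lit 57421) (nat_lit 13) (.e (nat_lit 344130) (nat_lit 26) (.e (nat_lit 557090) (nat_lit 12) (.e (nat_lit 164238) (nat_lit 187) (.e (nat_lit 1661) (nat_lit 115) (.e (nat_lit 393251) (nat_lit 18) (.e (nat_lit 164179) (nat_lit 154) .nil))))))) (.g (nat_lit 6) .nil .nil)))) (.nd (nat_lit 5) 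
(.lf (nat_lit 157660) (.g (nat_lit 2783) (.e (nat_lit 57421) (nat_lit 13) (.e (nat_lit 344126) (nat_lit 25) (.e (nat_lit 548889) (nat_lit 9) (.e (nat_lit 65617) (nat_lit 10) (.e (nat_lit 344130) (nat_lit 26) .nil))))) .nil)) 
(.lf (nat_lit 157692) (.g (nat_lit 1985) (.e (nat_lit 57421) (nat_lit 13) (.e (nat_lit 344132) (nat_lit 26) (.e (nat_lit 557100) (nat_lit 13) (.e (nat_lit 172061) (nat_lit 1) (.e (nat_lit 164326) (nat_lit 230) .nil))))) .nil)))))) (.nd (nat_lit 2) (.nd (nat_lit 3) (.nd (nat_lit 4) (.nd (nat_lit 5) 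
(.lf (nat_lit 157634) (.g (nat_lit 2506) (.e (nat_lit 57421) (nat_lit 13) (.e (nat_lit 344117) (nat_lit 21) (.e (nat_lit 516166) (nat_lit 12) (.e (nat_lit 450587) (nat_lit 10) (.e (nat_lit 573478) (nat_lit 12) (.e (nat_lit 57352) (nat_lit 0) (.e (nat_lit 7263) (nat_lit 384) .nil))))))) (.g (nat_lit 5) .nil .nil))) 
(.lf (nat_lit 157666) (.g (nat_lit 1459) (.e (nat_lit 57421) (nat_lit 13) (.e (nat_lit 344129) (nat_lit 26) (.e (nat_lit 557097) (nat_lit 13) (.e (nat_lit 172061) (nat_lit 1) .nil)))) .nil))) (.nd (nat_lit 5) 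
(.lf (nat_lit 157650) (.g (nat_lit 3138) (.e (nat_lit 57421) (nat_lit 13) (.e (nat_lit 344126) (nat_lit 25) (.e (nat_lit 548874) (nat_lit 5) (.e (nat_lit 1586) (nat_lit 111) (.e (nat_lit 360475) (nat_lit 8) (.e (nat_lit 557091) (nat_lit 12) (.e (nat_lit 163840) (nat_lit 0) (.e (nat_lit 6067) (nat_lit 328) .nil)))))))) (.g (nat_lit 5) .nil .nil))) 
(.lf (nat_lit 157682) (.g (nat_lit 2743) (.e (nat_lit 57421) (nat_lit 13) (.e (nat_lit 344130) (nat_lit 26) (.e (nat_lit 557104) (nat_lit 14) (.e (nat_lit 180229) (nat_lit 0) (.e (nat_lit 5224) (nat_lit 296) (.e (nat_lit 163886) (nat_lit 5) (.e (nat_lit 221207) (nat_lit 21) (.e (nat_lit 164319) (nat_lit 228) .nil)))))))) (.g (nat_lit 5) .nil .nil))))) (.nd (nat_lit 4) (.nd (nat_lit 5) 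
(.lf (nat_lit 157642) (.g (nat_lit 4082) (.e (nat_lit 57421) (nat_lit 13) (.e (nat_lit 344117) (nat_lit 21) (.e (nat_lit 516166) (nat_lit 12) (.e (nat_lit 450588) (nat_lit 10) (.e (nat_lit 573475) (nat_lit 12) (.e (nat_lit 57351) (nat_lit 0) (.e (nat_lit 7266) (nat_lit 384) .nil))))))) (.g (nat_lit 0) .nil .nil))) 
(.lf (nat_lit 157674) (.g (nat_lit 1338) (.e (nat_lit 57421) (nat_lit 13) (.e (nat_lit 344129) (nat_lit 26) (.e (nat_lit 557104) (nat_lit 14) (.e (nat_lit 188160) (nat_lit 0) .nil)))) .nil))) (.nd (nat_lit 5) 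
(.lf (nat_lit 157658) (.g (nat_lit 2952) (.e (nat_lit 57421) (nat_lit 13) (.e (nat_lit 344126) (nat_lit 25) (.e (nat_lit 548874) (nat_lit 5) (.e (nat_lit 1598) (nat_lit 111) (.e (nat_lit 360473) (nat_lit 8) (.e (nat_lit 557089) (nat_lit 12) (.e (nat_lit 163844) (nat_lit 0) (.e (nat_lit 6068) (nat_lit 328) .nil)))))))) (.g (nat_lit 6) .nil .nil))) 
(.lf (nat_lit 157690) (.g (nat_lit 2510) (.e (nat_lit 57421) (nat_lit 13) (.e (nat_lit 344132) (nat_lit 26) (.e (nat_lit 557100) (nat_lit 13) (.e (nat_lit 172059) (nat_lit 1) (.e (nat_lit 164332) (nat_lit 230) .nil))))) .nil))))) (.nd (nat_lit 3) (.nd (nat_lit 4) (.nd (nat_lit 5) 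
(.lf (nat_lit 157638) (.g (nat_lit 4224) (.e (nat_lit 57421) (nat_lit 13) (.e (nat_lit 344117) (nat_lit 21) (.e (nat_lit 516166) (nat_lit 12) (.e (nat_lit 450588) (nat_lit 10) (.e (nat_lit 573475) (nat_lit 12) (.e (nat_lit 57347) (nat_lit 0) (.e (nat_lit 7263) (nat_lit 384) .nil))))))) (.g (nat_lit 6) .nil .nil))) 
(.lf (nat_lit 157670) (.g (nat_lit 1690) (.e (nat_lit 57421) (nat_lit 13) (.e (nat_lit 344129) (nat_lit 26) (.e (nat_lit 557104) (nat_lit 14) (.e (nat_lit 180224) (nat_lit 0) .nil)))) .nil))) (.nd (nat_lit 5) 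
(.lf (nat_lit 157654) (.g (nat_lit 4655) (.e (nat_lit 57421) (nat_lit 13) (.e (nat_lit 344126) (nat_lit 25) (.e (nat_lit 548874) (nat_lit 5) (.e (nat_lit 1586) (nat_lit 111) (.e (nat_lit 360475) (nat_lit 8) (.e (nat_lit 557091) (nat_lit 12) (.e (nat_lit 163844) (nat_lit 0) (.e (nat_lit 6065) (nat_lit 328) .nil)))))))) (.g (nat_lit 6) .nil .nil))) 
(.lf (nat_lit 157686) (.g (nat_lit 1118) (.e (nat_lit 57421) (nat_lit 13) (.e (nat_lit 344130) (nat_lit 26) (.e (nat_lit 557104) (nat_lit 14) (.e (nat_lit 188160) (nat_lit 0) .nil)))) .nil)))) (.nd (nat_lit 4) (.nd (nat_lit 5) 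
(.lf (nat_lit 157646) (.g (nat_lit 1231) (.e (nat_lit 57421) (nat_lit 13) (.e (nat_lit 344126) (nat_lit 25) (.e (nat_lit 548874) (nat_lit 5) (.e (nat_lit 1586) (nat_lit 111) .nil)))) .nil)) 
(.lf (nat_lit 157678) (.g (nat_lit 2012) (.e (nat_lit 57421) (nat_lit 13) (.e (nat_lit 344130) (nat_lit 26) (.e (nat_lit 557103) (nat_lit 14) (.e (nat_lit 180229) (nat_lit 0) (.e (nat_lit 5224) (nat_lit 296) (.e (nat_lit 163886) (nat_lit 5) (.e (nat_lit 221207) (nat_lit 21) (.e (nat_lit 164319) (nat_lit 228) .nil)))))))) (.g (nat_lit 4) .nil .nil)))) (.nd (nat_lit 5) 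
(.lf (nat_lit 157662) (.g (nat_lit 572) (.e (nat_lit 57421) (nat_lit 13) (.e (nat_lit 344126) (nat_lit 25) (.e (nat_lit 548907) (nat_lit 16) .nil))) .nil)) 
(.lf (nat_lit 157694) (.g (nat_lit 1287) (.e (nat_lit 57421) (nat_lit 13) (.e (nat_lit 344132) (nat_lit 26) (.e (nat_lit 557101) (nat_lit 13) (.e (nat_lit 172070) (nat_lit 4) .nil)))) .nil))))))) (.nd (nat_lit 1) (.nd (nat_lit 2) (.nd (nat_lit 3) (.nd (nat_lit 4) (.nd (nat_lit 5) 
(.lf (nat_lit 157633) (.g (nat_lit 2664) (.e (nat_lit 57421) (nat_lit 13) (.e (nat_lit 344117) (nat_lit 21) (.e (nat_lit 516166) (nat_lit 12) (.e (nat_lit 450587) (nat_lit 10) (.e (nat_lit 573478) (nat_lit 12) (.e (nat_lit 57352) (nat_lit 0) (.e (nat_lit 7261) (nat_lit 384) .nil))))))) (.g (nat_lit 5) .nil .nil))) 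
(.lf (nat_lit 157665) (.g (nat_lit 3281) (.e (nat_lit 57421) (nat_lit 13) (.e (nat_lit 344129) (nat_lit 26) (.e (nat_lit 557090) (nat_lit 12) (.e (nat_lit 164238) (nat_lit 187) (.e (nat_lit 1661) (nat_lit 115) (.e (nat_lit 393251) (nat_lit 18) (.e (nat_lit 164177) (nat_lit 154) .nil))))))) (.g (nat_lit 4) .nil .nil)))) (.nd (nat_lit 5) 
(.lf (nat_lit 157649) (.g (nat_lit 3209) (.e (nat_lit 57421) (nat_lit 13) (.e (nat_lit 344126) (nat_lit 25) (.e (nat_lit 548874) (nat_lit 5) (.e (nat_lit 1586) (nat_lit 111) (.e (nat_lit 360475) (nat_lit 8) (.e (nat_lit 557091) (nat_lit 12) (.e (nat_lit 163840) (nat_lit 0) (.e (nat_lit 6065) (nat_lit 328) .nil)))))))) (.g (nat_lit 5) .nil .nil))) 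
(.lf (nat_lit 157681) (.g (nat_lit 2070) (.e (nat_lit 57421) (nat_lit 13) (.e (nat_lit 344130) (nat_lit 26) (.e (nat_lit 557104) (nat_lit 14) (.e (nat_lit 180229) (nat_lit 0) (.e (nat_lit 5224) (nat_lit 296) .nil))))) .nil)))) (.nd (nat_lit 4) (.nd (nat_lit 5) 
(.lf (nat_lit 157641) (.g (nat_lit 4063) (.e (nat_lit 57421) (nat_lit 13) (.e (nat_lit 344117) (nat_lit 21) (.e (nat_lit 516166) (nat_lit 12) (.e (nat_lit 450588) (nat_lit 10) (.e (nat_lit 573475) (nat_lit 12) (.e (nat_lit 57348) (nat_lit 0) (.e (nat_lit 7265) (nat_lit 384) .nil))))))) (.g (nat_lit 6) .nil .nil))) 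
(.lf (nat_lit 157673) (.g (nat_lit 1670) (.e (nat_lit 57421) (nat_lit 13) (.e (nat_lit 344129) (nat_lit 26) (.e (nat_lit 557104) (nat_lit 14) (.e (nat_lit 180233) (nat_lit 0) .nil)))) .nil))) (.nd (nat_lit 5) 
(.lf (nat_lit 157657) (.g (nat_lit 2857) (.e (nat_lit 57421) (nat_lit 13) (.e (nat_lit 344126) (nat_lit 25) (.e (nat_lit 548874) (nat_lit 5) (.e (nat_lit 1598) (nat_lit 111) (.e (nat_lit 360473) (nat_lit 8) (.e (nat_lit 557089) (nat_lit 12) (.e (nat_lit 163844) (nat_lit 0) (.e (nat_lit 6065) (nat_lit 328) .nil)))))))) (.g (nat_lit 6) .nil .nil))) 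
(.lf (nat_lit 157689) (.g (nat_lit 2576) (.e (nat_lit 57421) (nat_lit 13) (.e (nat_lit 344132) (nat_lit 26) (.e (nat_lit 557100) (nat_lit 13) (.e (nat_lit 172059) (nat_lit 1) (.e (nat_lit 164327) (nat_lit 230) (.e (nat_lit 163886) (nat_lit 5) (.e (nat_lit 221207) (nat_lit 21) (.e (nat_lit 164319) (nat_lit 228) .nil)))))))) (.g (nat_lit 4) .nil .nil)))))) 
(.nd (nat_lit 3) (.nd (nat_lit 4) (.nd (nat_lit 5) 
(.lf (nat_lit 157637) (.g (nat_lit 4502) (.e (nat_lit 57421) (nat_lit 13) (.e (nat_lit 344117) (nat_lit 21) (.e (nat_lit 516166) (nat_lit 12) (.e (nat_lit 450588) (nat_lit 10) (.e (nat_lit 573473) (nat_lit 12) (.e (nat_lit 57347) (nat_lit 0) (.e (nat_lit 7266) (nat_lit 384) .nil))))))) (.g (nat_lit 7) .nil .nil))) 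
(.lf (nat_lit 157669) (.g (nat_lit 1321) (.e (nat_lit 57421) (nat_lit 13) (.e (nat_lit 344129) (nat_lit 26) (.e (nat_lit 557103) (nat_lit 14) (.e (nat_lit 188160) (nat_lit 0) .nil)))) .nil))) (.nd (nat_lit 5) 
(.lf (nat_lit 157653) (.g (nat_lit 4738) (.e (nat_lit 57421) (nat_lit 13) (.e (nat_lit 344126) (nat_lit 25) (.e (nat_lit 548874) (nat_lit 5) (.e (nat_lit 1586) (nat_lit 111) (.e (nat_lit 360475) (nat_lit 8) (.e (nat_lit 557091) (nat_lit 12) (.e (nat_lit 163843) (nat_lit 0) (.e (nat_lit 6068) (nat_lit 328) .nil)))))))) (.g (nat_lit 6) .nil .nil))) 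
(.lf (nat_lit 157685) (.g (nat_lit 1808) (.e (nat_lit 57421) (nat_lit 13) (.e (nat_lit 344130) (nat_lit 26) (.e (nat_lit 557104) (nat_lit 14) (.e (nat_lit 180233) (nat_lit 0) (.e (nat_lit 5448) (nat_lit 306) .nil))))) .nil)))) (.nd (nat_lit 4) (.nd (nat_lit 5) 
(.lf (nat_lit 157645) (.g (nat_lit 4291) (.e (nat_lit 57421) (nat_lit 13) (.e (nat_lit 344126) (nat_lit 25) (.e (nat_lit 548873) (nat_lit 5) (.e (nat_lit 1586) (nat_lit 111) (.e (nat_lit 360475) (nat_lit 8) (.e (nat_lit 557089) (nat_lit 12) (.e (nat_lit 163844) (nat_lit 0) (.e (nat_lit 6068) (nat_lit 328) .nil)))))))) (.g (nat_lit 6) .nil .nil))) 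
(.lf (nat_lit 157677) (.g (nat_lit 1313) (.e (nat_lit 57421) (nat_lit 13) (.e (nat_lit 344130) (nat_lit 26) (.e (nat_lit 557097) (nat_lit 13) (.e (nat_lit 172061) (nat_lit 1) .nil)))) .nil))) (.nd (nat_lit 5) 
(.lf (nat_lit 157661) (.g (nat_lit 2459) (.e (nat_lit 57421) (nat_lit 13) (.e (nat_lit 344126) (nat_lit 25) (.e (nat_lit 548889) (nat_lit 9) (.e (nat_lit 65617) (nat_lit 10) (.e (nat_lit 344133) (nat_lit 26) .nil))))) .nil)) 
(.lf (nat_lit 157693) (.g (nat_lit 1313) (.e (nat_lit 57421) (nat_lit 13) (.e (nat_lit 344132) (nat_lit 26) (.e (nat_lit 557101) (nat_lit 13) (.e (nat_lit 172061) (nat_lit 1) .nil)))) .nil)))))) (.nd (nat_lit 2) (.nd (nat_lit 3) (.nd (nat_lit 4) (.nd (nat_lit 5) 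
(.lf (nat_lit 157635) (.g (nat_lit 3306) (.e (nat_lit 57421) (nat_lit 13) (.e (nat_lit 344117) (nat_lit 21) (.e (nat_lit 516166) (nat_lit 12) (.e (nat_lit 450588) (nat_lit 10) (.e (nat_lit 573473) (nat_lit 12) (.e (nat_lit 57347) (nat_lit 0) (.e (nat_lit 7261) (nat_lit 384) .nil))))))) (.g (nat_lit 5) .nil .nil))) 
(.lf (nat_lit 157667) (.g (nat_lit 1909) (.e (nat_lit 57421) (nat_lit 13) (.e (nat_lit 344129) (nat_lit 26) (.e (nat_lit 557097) (nat_lit 13) (.e (nat_lit 172061) (nat_lit 1) (.e (nat_lit 164326) (nat_lit 230) .nil))))) .nil))) (.nd (nat_lit 5) 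
(.lf (nat_lit 157651) (.g (nat_lit 3448) (.e (nat_lit 57421) (nat_lit 13) (.e (nat_lit 344126) (nat_lit 25) (.e (nat_lit 548874) (nat_lit 5) (.e (nat_lit 1586) (nat_lit 111) (.e (nat_lit 360475) (nat_lit 8) (.e (nat_lit 557091) (nat_lit 12) (.e (nat_lit 163840) (nat_lit 0) (.e (nat_lit 6068) (nat_lit 328) .nil)))))))) (.g (nat_lit 5) .nil .nil))) 
(.lf (nat_lit 157683) (.g (nat_lit 2204) (.e (nat_lit 57421) (nat_lit 13) (.e (nat_lit 344130) (nat_lit 26) (.e (nat_lit 557104) (nat_lit 14) (.e (nat_lit 180229) (nat_lit 0) (.e (nat_lit 5548) (nat_lit 306) .nil))))) .nil)))) (.nd (nat_lit 4) (.nd (nat_lit 5) 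
(.lf (nat_lit 157643) (.g (nat_lit 3708) (.e (nat_lit 57421) (nat_lit 13) (.e (nat_lit 344117) (nat_lit 21) (.e (nat_lit 516166) (nat_lit 12) (.e (nat_lit 450588) (nat_lit 10) (.e (nat_lit 573475) (nat_lit 12) (.e (nat_lit 57353) (nat_lit 0) (.e (nat_lit 7266) (nat_lit 384) .nil))))))) (.g (nat_lit 5) .nil .nil))) 
(.lf (nat_lit 157675) (.g (nat_lit 3325) (.e (nat_lit 57421) (nat_lit 13) (.e (nat_lit 344130) (nat_lit 26) (.e (nat_lit 557090) (nat_lit 12) (.e (nat_lit 164238) (nat_lit 187) (.e (nat_lit 1661) (nat_lit 115) (.e (nat_lit 393251) (nat_lit 18) (.e (nat_lit 164177) (nat_lit 154) .nil))))))) (.g (nat_lit 5) .nil .nil)))) (.nd (nat_lit 5) 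
(.lf (nat_lit 157659) (.g (nat_lit 1430) (.e (nat_lit 57421) (nat_lit 13) (.e (nat_lit 344126) (nat_lit 25) (.e (nat_lit 548874) (nat_lit 5) (.e (nat_lit 1599) (nat_lit 111) .nil)))) .nil)) 
(.lf (nat_lit 157691) (.g (nat_lit 1459) (.e (nat_lit 57421) (nat_lit 13) (.e (nat_lit 344132) (nat_lit 26) (.e (nat_lit 557100) (nat_lit 13) (.e (nat_lit 172061) (nat_lit 1) .nil)))) .nil))))) (.nd (nat_lit 3) (.nd (nat_lit 4) (.nd (nat_lit 5) 
(.lf (nat_lit 157639) (.g (nat_lit 5051) (.e (nat_lit 57421) (nat_lit 13) (.e (nat_lit 344117) (nat_lit 21) (.e (nat_lit 516166) (nat_lit 12) (.e (nat_lit 450588) (nat_lit 10) (.e (nat_lit 573475) (nat_lit 12) (.e (nat_lit 57347) (nat_lit 0) (.e (nat_lit 7266) (nat_lit 384) .nil))))))) (.g (nat_lit 0) .nil .nil))) 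
(.lf (nat_lit 157671) (.g (nat_lit 2388) (.e (nat_lit 57421) (nat_lit 13) (.e (nat_lit 344129) (nat_lit 26) (.e (nat_lit 557104) (nat_lit 14) (.e (nat_lit 180229) (nat_lit 0) (.e (nat_lit 5224) (nat_lit 296) .nil))))) .nil))) (.nd (nat_lit 5) 
(.lf (nat_lit 157655) (.g (nat_lit 4736) (.e (nat_lit 57421) (nat_lit 13) (.e (nat_lit 344126) (nat_lit 25) (.e (nat_lit 548874) (nat_lit 5) (.e (nat_lit 1586) (nat_lit 111) (.e (nat_lit 360475) (nat_lit 8) (.e (nat_lit 557091) (nat_lit 12) (.e (nat_lit 163844) (nat_lit 0) (.e (nat_lit 6068) (nat_lit 328) .nil)))))))) (.g (nat_lit 6) .nil .nil))) 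
(.lf (nat_lit 157687) (.g (nat_lit 3406) (.e (nat_lit 57421) (nat_lit 13) (.e (nat_lit 344132) (nat_lit 26) (.e (nat_lit 557094) (nat_lit 12) (.e (nat_lit 164238) (nat_lit 187) (.e (nat_lit 1661) (nat_lit 115) (.e (nat_lit 393251) (nat_lit 18) (.e (nat_lit 164177) (nat_lit 154) .nil))))))) (.g (nat_lit 6) .nil .nil))))) (.nd (nat_lit 4) (.nd (nat_lit 5) 
(.lf (nat_lit 157647) (.g (nat_lit 4967) (.e (nat_lit 57421) (nat_lit 13) (.e (nat_lit 344126) (nat_lit 25) (.e (nat_lit 548874) (nat_lit 5) (.e (nat_lit 1586) (nat_lit 111) (.e (nat_lit 360475) (nat_lit 8) (.e (nat_lit 557089) (nat_lit 12) (.e (nat_lit 163844) (nat_lit 0) (.e (nat_lit 6065) (nat_lit 328) .nil)))))))) (.g (nat_lit 6) .nil .nil))) 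
(.lf (nat_lit 157679) (.g (nat_lit 1273) (.e (nat_lit 57421) (nat_lit 13) (.e (nat_lit 344130) (nat_lit 26) (.e (nat_lit 557103) (nat_lit 14) (.e (nat_lit 188160) (nat_lit 0) .nil)))) .nil))) (.nd (nat_lit 5) 
(.lf (nat_lit 157663) (.g (nat_lit 643) (.e (nat_lit 57421) (nat_lit 13) (.e (nat_lit 344129) (nat_lit 26) (.e (nat_lit 557090) (nat_lit 12) .nil))) .nil)) 
(.lf (nat_lit 157695) (.g (nat_lit 1736) (.e (nat_lit 57421) (nat_lit 13) (.e (nat_lit 344133) (nat_lit 26) (.e (nat_lit 557065) (nat_lit 9) (.e (nat_lit 3098) (nat_lit 192) .nil)))) .nil))))))))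

noncomputable def tv2110 : DT := (.nd (nat_lit 0) (.nd (nat_lit 1) (.nd (nat_lit 2) (.nd (nat_lit 3) (.nd (nat_lit 4) (.nd (nat_lit 5) 
(.lf (nat_lit 157696) (.g (nat_lit 1666) (.e (nat_lit 57421) (nat_lit 13) (.e (nat_lit 344133) (nat_lit 26) (.e (nat_lit 557089) (nat_lit 12) (.e (nat_lit 171776) (nat_lit 187) .nil)))) .nil)) 
(.lf (nat_lit 157728) (.g (nat_lit 1668) (.e (nat_lit 57421) (nat_lit 13) (.e (nat_lit 344133) (nat_lit 26) (.e (nat_lit 557103) (nat_lit 14) (.e (nat_lit 188160) (nat_lit 0) .nil)))) .nil))) (.nd (nat_lit 5) 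
(.lf (nat_lit 157712) (.g (nat_lit 3623) (.e (nat_lit 57421) (nat_lit 13) (.e (nat_lit 344133) (nat_lit 26) (.e (nat_lit 557098) (nat_lit 13) (.e (nat_lit 172061) (nat_lit 1) (.e (nat_lit 164327) (nat_lit 230) (.e (nat_lit 163884) (nat_lit 5) (.e (nat_lit 221206) (nat_lit 21) (.e (nat_lit 164319) (nat_lit 228) .nil)))))))) (.g (nat_lit 5) .nil .nil))) 
(.lf (nat_lit 157744) (.g (nat_lit 1382) (.e (nat_lit 57421) (nat_lit 13) (.e (nat_lit 344169) (nat_lit 40) (.e (nat_lit 671759) (nat_lit 3) (.e (nat_lit 57548) (nat_lit 47) .nil)))) .nil)))) (.nd (nat_lit 4) (.nd (nat_lit 5) 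
(.lf (nat_lit 157704) (.g (nat_lit 2627) (.e (nat_lit 57421) (nat_lit 13) (.e (nat_lit 344133) (nat_lit 26) (.e (nat_lit 557098) (nat_lit 13) (.e (nat_lit 172059) (nat_lit 1) (.e (nat_lit 164332) (nat_lit 230) (.e (nat_lit 163885) (nat_lit 5) (.e (nat_lit 221206) (nat_lit 21) (.e (nat_lit 164319) (nat_lit 228) .nil)))))))) (.g (nat_lit 4) .nil .nil))) 
(.lf (nat_lit 157736) (.g (nat_lit 2077) (.e (nat_lit 57421) (nat_lit 13) (.e (nat_lit 344133) (nat_lit 26) (.e (nat_lit 557105) (nat_lit 14) (.e (nat_lit 180264) (nat_lit 21) .nil)))) .nil))) (.nd (nat_lit 5) 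
(.lf (nat_lit 157720) (.g (nat_lit 3283) (.e (nat_lit 57421) (nat_lit 13) (.e (nat_lit 344133) (nat_lit 26) (.e (nat_lit 557098) (nat_lit 13) (.e (nat_lit 172133) (nat_lit 15) (.e (nat_lit 2059) (nat_lit 142) (.e (nat_lit 704596) (nat_lit 5) (.e (nat_lit 180225) (nat_lit 0) (.e (nat_lit 6403) (nat_lit 339) .nil)))))))) (.g (nat_lit 5) .nil .nil))) 
(.lf (nat_lit 157752) (.g (nat_lit 1526) (.e (nat_lit 57421) (nat_lit 13) (.e (nat_lit 344177) (nat_lit 43) (.e (nat_lit 770073) (nat_lit 9) (.e (nat_lit 73755) (nat_lit 8) (.e (nat_lit 557105) (nat_lit 14) .nil))))) .nil))))) (.nd (nat_lit 3) (.nd (nat_lit 4) (.nd (nat_lit 5) 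
(.lf (nat_lit 157700) (.g (nat_lit 4869) (.e (nat_lit 57421) (nat_lit 13) (.e (nat_lit 344133) (nat_lit 26) (.e (nat_lit 557091) (nat_lit 12) (.e (nat_lit 164238) (nat_lit 187) (.e (nat_lit 1661) (nat_lit 115) (.e (nat_lit 393251) (nat_lit 18) (.e (nat_lit 164179) (nat_lit 154) .nil))))))) (.g (nat_lit 7) .nil .nil))) 
(.lf (nat_lit 157732) (.g (nat_lit 2142) (.e (nat_lit 57421) (nat_lit 13) (.e (nat_lit 344133) (nat_lit 26) (.e (nat_lit 557105) (nat_lit 14) (.e (nat_lit 180230) (nat_lit 0) .nil)))) .nil))) (.nd (nat_lit 5) 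
(.lf (nat_lit 157716) (.g (nat_lit 2691) (.e (nat_lit 57421) (nat_lit 13) (.e (nat_lit 344133) (nat_lit 26) (.e (nat_lit 557098) (nat_lit 13) (.e (nat_lit 172061) (nat_lit 1) (.e (nat_lit 164332) (nat_lit 230) (.e (nat_lit 163885) (nat_lit 5) (.e (nat_lit 221206) (nat_lit 21) (.e (nat_lit 164319) (nat_lit 228) .nil)))))))) (.g (nat_lit 4) .nil .nil))) 
(.lf (nat_lit 157748) (.g (nat_lit 1118) (.e (nat_lit 57421) (nat_lit 13) (.e (nat_lit 344177) (nat_lit 43) (.e (nat_lit 770058) (nat_lit 5) (.e (nat_lit 1548) (nat_lit 109) .nil)))) .nil)))) (.nd (nat_lit 4) (.nd (nat_lit 5) 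
(.lf (nat_lit 157708) (.g (nat_lit 2987) (.e (nat_lit 57421) (nat_lit 13) (.e (nat_lit 344133) (nat_lit 26) (.e (nat_lit 557098) (nat_lit 13) (.e (nat_lit 172061) (nat_lit 1) (.e (nat_lit 164324) (nat_lit 230) (.e (nat_lit 163886) (nat_lit 5) (.e (nat_lit 221207) (nat_lit 21) (.e (nat_lit 164319) (nat_lit 228) .nil)))))))) (.g (nat_lit 4) .nil .nil))) 
(.lf (nat_lit 157740) (.g (nat_lit 2264) (.e (nat_lit 57421) (nat_lit 13) (.e (nat_lit 344169) (nat_lit 40) (.e (nat_lit 671759) (nat_lit 3) (.e (nat_lit 57547) (nat_lit 47) (.e (nat_lit 712752) (nat_lit 29) .nil))))) .nil))) (.nd (nat_lit 5) 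
(.lf (nat_lit 157724) (.g (nat_lit 2063) (.e (nat_lit 57421) (nat_lit 13) (.e (nat_lit 344133) (nat_lit 26) (.e (nat_lit 557103) (nat_lit 14) (.e (nat_lit 180228) (nat_lit 0) .nil)))) .nil)) 
(.lf (nat_lit 157756) (.g (nat_lit 3549) (.e (nat_lit 57422) (nat_lit 13) (.e (nat_lit 344117) (nat_lit 21) (.e (nat_lit 516151) (nat_lit 9) (.e (nat_lit 426171) (nat_lit 7) (.e (nat_lit 409617) (nat_lit 10) .nil))))) .nil)))))) (.nd (nat_lit 2) (.nd (nat_lit 3) (.nd (nat_lit 4) (.nd (nat_lit 5) 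
(.lf (nat_lit 157698) (.g (nat_lit 2617) (.e (nat_lit 57421) (nat_lit 13) (.e (nat_lit 344133) (nat_lit 26) (.e (nat_lit 557091) (nat_lit 12) (.e (nat_lit 164238) (nat_lit 187) (.e (nat_lit 1660) (nat_lit 115) (.e (nat_lit 393253) (nat_lit 18) (.e (nat_lit 164178) (nat_lit 154) .nil))))))) (.g (nat_lit 4) .nil .nil))) 
(.lf (nat_lit 157730) (.g (nat_lit 2133) (.e (nat_lit 57421) (nat_lit 13) (.e (nat_lit 344133) (nat_lit 26) (.e (nat_lit 557105) (nat_lit 14) (.e (nat_lit 180224) (nat_lit 0) .nil)))) .nil))) (.nd (nat_lit 5) 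
(.lf (nat_lit 157714) (.g (nat_lit 4258) (.e (nat_lit 57421) (nat_lit 13) (.e (nat_lit 344133) (nat_lit 26) (.e (nat_lit 557098) (nat_lit 13) (.e (nat_lit 172061) (nat_lit 1) (.e (nat_lit 164327) (nat_lit 230) (.e (nat_lit 163886) (nat_lit 5) (.e (nat_lit 221207) (nat_lit 21) (.e (nat_lit 164319) (nat_lit 228) .nil)))))))) (.g (nat_lit 6) .nil .nil))) 
(.lf (nat_lit 157746) (.g (nat_lit 1539) (.e (nat_lit 57421) (nat_lit 13) (.e (nat_lit 344169) (nat_lit 40) (.e (nat_lit 671762) (nat_lit 4) (.e (nat_lit 65630) (nat_lit 14) .nil)))) .nil)))) (.nd (nat_lit 4) (.nd (nat_lit 5) 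
(.lf (nat_lit 157706) (.g (nat_lit 2382) (.e (nat_lit 57421) (nat_lit 13) (.e (nat_lit 344133) (nat_lit 26) (.e (nat_lit 557098) (nat_lit 13) (.e (nat_lit 172061) (nat_lit 1) (.e (nat_lit 164319) (nat_lit 228) .nil))))) .nil)) 
(.lf (nat_lit 157738) (.g (nat_lit 620) (.e (nat_lit 57421) (nat_lit 13) (.e (nat_lit 344169) (nat_lit 40) (.e (nat_lit 671748) (nat_lit 0) .nil))) .nil))) (.nd (nat_lit 5) 
(.lf (nat_lit 157722) (.g (nat_lit 2014) (.e (nat_lit 57421) (nat_lit 13) (.e (nat_lit 344133) (nat_lit 26) (.e (nat_lit 557098) (nat_lit 13) (.e (nat_lit 172139) (nat_lit 21) .nil)))) .nil)) 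
(.lf (nat_lit 157754) (.g (nat_lit 4338) (.e (nat_lit 57422) (nat_lit 13) (.e (nat_lit 344117) (nat_lit 21) (.e (nat_lit 516151) (nat_lit 9) (.e (nat_lit 426170) (nat_lit 7) .nil)))) .nil))))) (.nd (nat_lit 3) (.nd (nat_lit 4) (.nd (nat_lit 5) 
(.lf (nat_lit 157702) (.g (nat_lit 630) (.e (nat_lit 57421) (nat_lit 13) (.e (nat_lit 344133) (nat_lit 26) (.e (nat_lit 557098) (nat_lit 13) .nil))) .nil)) 
(.lf (nat_lit 157734) (.g (nat_lit 2126) (.e (nat_lit 57421) (nat_lit 13) (.e (nat_lit 344133) (nat_lit 26) (.e (nat_lit 557105) (nat_lit 14) (.e (nat_lit 180260) (nat_lit 18) .nil)))) .nil))) (.nd (nat_lit 5) 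
(.lf (nat_lit 157718) (.g (nat_lit 2014) (.e (nat_lit 57421) (nat_lit 13) (.e (nat_lit 344133) (nat_lit 26) (.e (nat_lit 557098) (nat_lit 13) (.e (nat_lit 172070) (nat_lit 4) .nil)))) .nil)) 
(.lf (nat_lit 157750) (.g (nat_lit 1767) (.e (nat_lit 57421) (nat_lit 13) (.e (nat_lit 344177) (nat_lit 43) (.e (nat_lit 770073) (nat_lit 9) (.e (nat_lit 73753) (nat_lit 8) (.e (nat_lit 557104) (nat_lit 14) .nil))))) .nil)))) (.nd (nat_lit 4) (.nd (nat_lit 5) 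
(.lf (nat_lit 157710) (.g (nat_lit 2884) (.e (nat_lit 57421) (nat_lit 13) (.e (nat_lit 344133) (nat_lit 26) (.e (nat_lit 557098) (nat_lit 13) (.e (nat_lit 172061) (nat_lit 1) (.e (nat_lit 164326) (nat_lit 230) (.e (nat_lit 163884) (nat_lit 5) (.e (nat_lit 221206) (nat_lit 21) (.e (nat_lit 164319) (nat_lit 228) .nil)))))))) (.g (nat_lit 4) .nil .nil))) 
(.lf (nat_lit 157742) (.g (nat_lit 2210) (.e (nat_lit 57421) (nat_lit 13) (.e (nat_lit 344169) (nat_lit 40) (.e (nat_lit 671759) (nat_lit 3) (.e (nat_lit 57547) (nat_lit 47) (.e (nat_lit 712755) (nat_lit 30) .nil))))) .nil))) (.nd (nat_lit 5) 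
(.lf (nat_lit 157726) (.g (nat_lit 2662) (.e (nat_lit 57421) (nat_lit 13) (.e (nat_lit 344133) (nat_lit 26) (.e (nat_lit 557103) (nat_lit 14) (.e (nat_lit 180229) (nat_lit 0) (.e (nat_lit 5224) (nat_lit 296) (.e (nat_lit 163886) (nat_lit 5) (.e (nat_lit 221207) (nat_lit 21) (.e (nat_lit 164319) (nat_lit 228) .nil)))))))) (.g (nat_lit 4) .nil .nil))) 
(.lf (nat_lit 157758) (.g (nat_lit 4957) (.e (nat_lit 57422) (nat_lit 13) (.e (nat_lit 344117) (nat_lit 21) (.e (nat_lit 516151) (nat_lit 9) (.e (nat_lit 426211) (nat_lit 9) .nil)))) .nil))))))) (.nd (nat_lit 1) (.nd (nat_lit 2) (.nd (nat_lit 3) (.nd (nat_lit 4) (.nd (nat_lit 5) 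
(.lf (nat_lit 157697) (.g (nat_lit 2197) (.e (nat_lit 57421) (nat_lit 13) (.e (nat_lit 344133) (nat_lit 26) (.e (nat_lit 557091) (nat_lit 12) (.e (nat_lit 164238) (nat_lit 187) (.e (nat_lit 1658) (nat_lit 115) .nil))))) .nil)) 
(.lf (nat_lit 157729) (.g (nat_lit 623) (.e (nat_lit 57421) (nat_lit 13) (.e (nat_lit 344133) (nat_lit 26) (.e (nat_lit 557105) (nat_lit 14) .nil))) .nil))) (.nd (nat_lit 5) 
(.lf (nat_lit 157713) (.g (nat_lit 2763) (.e (nat_lit 57421) (nat_lit 13) (.e (nat_lit 344133) (nat_lit 26) (.e (nat_lit 557098) (nat_lit 13) (.e (nat_lit 172061) (nat_lit 1) (.e (nat_lit 164327) (nat_lit 230) (.e (nat_lit 163884) (nat_lit 5) (.e (nat_lit 221207) (nat_lit 21) (.e (nat_lit 164319) (nat_lit 228) .nil)))))))) (.g (nat_lit 4) .nil .nil))) 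
(.lf (nat_lit 157745) (.g (nat_lit 2166) (.e (nat_lit 57421) (nat_lit 13) (.e (nat_lit 344169) (nat_lit 40) (.e (nat_lit 671759) (nat_lit 3) (.e (nat_lit 57548) (nat_lit 47) (.e (nat_lit 712755) (nat_lit 30) (.e (nat_lit 450562) (nat_lit 0) (.e (nat_lit 5945) (nat_lit 322) .nil))))))) (.g (nat_lit 4) .nil .nil))))) (.nd (nat_lit 4) (.nd (nat_lit 5) 
(.lf (nat_lit 157705) (.g (nat_lit 2014) (.e (nat_lit 57421) (nat_lit 13) (.e (nat_lit 344133) (nat_lit 26) (.e (nat_lit 557098) (nat_lit 13) (.e (nat_lit 172060) (nat_lit 1) .nil)))) .nil)) 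
(.lf (nat_lit 157737) (.g (nat_lit 1776) (.e (nat_lit 57421) (nat_lit 13) (.e (nat_lit 344133) (nat_lit 26) (.e (nat_lit 557105) (nat_lit 14) (.e (nat_lit 180265) (nat_lit 21) .nil)))) .nil))) (.nd (nat_lit 5) 
(.lf (nat_lit 157721) (.g (nat_lit 1711) (.e (nat_lit 57421) (nat_lit 13) (.e (nat_lit 344133) (nat_lit 26) (.e (nat_lit 557098) (nat_lit 13) (.e (nat_lit 172136) (nat_lit 15) .nil)))) .nil)) 
(.lf (nat_lit 157753) (.g (nat_lit 4189) (.e (nat_lit 57422) (nat_lit 13) (.e (nat_lit 344117) (nat_lit 21) (.e (nat_lit 516151) (nat_lit 9) (.e (nat_lit 426166) (nat_lit 7) .nil)))) .nil))))) (.nd (nat_lit 3) (.nd (nat_lit 4) (.nd (nat_lit 5) 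
(.lf (nat_lit 157701) (.g (nat_lit 3205) (.e (nat_lit 57421) (nat_lit 13) (.e (nat_lit 344133) (nat_lit 26) (.e (nat_lit 557091) (nat_lit 12) (.e (nat_lit 164238) (nat_lit 187) (.e (nat_lit 1661) (nat_lit 115) (.e (nat_lit 393252) (nat_lit 18) (.e (nat_lit 164176) (nat_lit 154) .nil))))))) (.g (nat_lit 5) .nil .nil))) 
(.lf (nat_lit 157733) (.g (nat_lit 1691) (.e (nat_lit 57421) (nat_lit 13) (.e (nat_lit 344133) (nat_lit 26) (.e (nat_lit 557105) (nat_lit 14) (.e (nat_lit 188160) (nat_lit 0) .nil)))) .nil))) (.nd (nat_lit 5) 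
(.lf (nat_lit 157717) (.g (nat_lit 1850) (.e (nat_lit 57421) (nat_lit 13) (.e (nat_lit 344133) (nat_lit 26) (.e (nat_lit 557098) (nat_lit 13) (.e (nat_lit 172068) (nat_lit 4) .nil)))) .nil)) 
(.lf (nat_lit 157749) (.g (nat_lit 614) (.e (nat_lit 57421) (nat_lit 13) (.e (nat_lit 344177) (nat_lit 43) (.e (nat_lit 770073) (nat_lit 9) .nil))) .nil)))) (.nd (nat_lit 4) (.nd (nat_lit 5) 
(.lf (nat_lit 157709) (.g (nat_lit 2596) (.e (nat_lit 57421) (nat_lit 13) (.e (nat_lit 344133) (nat_lit 26) (.e (nat_lit 557098) (nat_lit 13) (.e (nat_lit 172061) (nat_lit 1) (.e (nat_lit 164326) (nat_lit 230) .nil))))) .nil)) 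
(.lf (nat_lit 157741) (.g (nat_lit 2264) (.e (nat_lit 57421) (nat_lit 13) (.e (nat_lit 344169) (nat_lit 40) (.e (nat_lit 671759) (nat_lit 3) (.e (nat_lit 57547) (nat_lit 47) (.e (nat_lit 712753) (nat_lit 30) .nil))))) .nil))) (.nd (nat_lit 5) 
(.lf (nat_lit 157725) (.g (nat_lit 2340) (.e (nat_lit 57421) (nat_lit 13) (.e (nat_lit 344133) (nat_lit 26) (.e (nat_lit 557103) (nat_lit 14) (.e (nat_lit 180229) (nat_lit 0) (.e (nat_lit 5224) (nat_lit 296) .nil))))) .nil)) 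
(.lf (nat_lit 157757) (.g (nat_lit 4136) (.e (nat_lit 57422) (nat_lit 13) (.e (nat_lit 344117) (nat_lit 21) (.e (nat_lit 516151) (nat_lit 9) (.e (nat_lit 426173) (nat_lit 7) .nil)))) .nil)))))) (.nd (nat_lit 2) (.nd (nat_lit 3) (.nd (nat_lit 4) (.nd (nat_lit 5) 
(.lf (nat_lit 157699) (.g (nat_lit 4325) (.e (nat_lit 57421) (nat_lit 13) (.e (nat_lit 344133) (nat_lit 26) (.e (nat_lit 557091) (nat_lit 12) (.e (nat_lit 164238) (nat_lit 187) (.e (nat_lit 1661) (nat_lit 115) (.e (nat_lit 393251) (nat_lit 18) (.e (nat_lit 164177) (nat_lit 154) .nil))))))) (.g (nat_lit 6) .nil .nil))) 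
(.lf (nat_lit 157731) (.g (nat_lit 2347) (.e (nat_lit 57421) (nat_lit 13) (.e (nat_lit 344133) (nat_lit 26) (.e (nat_lit 557105) (nat_lit 14) (.e (nat_lit 180224) (nat_lit 0) (.e (nat_lit 5196) (nat_lit 294) .nil))))) .nil))) (.nd (nat_lit 5) 
(.lf (nat_lit 157715) (.g (nat_lit 2767) (.e (nat_lit 57421) (nat_lit 13) (.e (nat_lit 344133) (nat_lit 26) (.e (nat_lit 557098) (nat_lit 13) (.e (nat_lit 172061) (nat_lit 1) (.e (nat_lit 164327) (nat_lit 230) (.e (nat_lit 163886) (nat_lit 5) (.e (nat_lit 221208) (nat_lit 21) (.e (nat_lit 164319) (nat_lit 228) .nil)))))))) (.g (nat_lit 4) .nil .nil))) 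
(.lf (nat_lit 157747) (.g (nat_lit 1015) (.e (nat_lit 57421) (nat_lit 13) (.e (nat_lit 344169) (nat_lit 40) (.e (nat_lit 671763) (nat_lit 5) (.e (nat_lit 81664) (nat_lit 37) .nil)))) .nil)))) (.nd (nat_lit 4) (.nd (nat_lit 5) 
(.lf (nat_lit 157707) (.g (nat_lit 2728) (.e (nat_lit 57421) (nat_lit 13) (.e (nat_lit 344133) (nat_lit 26) (.e (nat_lit 557098) (nat_lit 13) (.e (nat_lit 172061) (nat_lit 1) (.e (nat_lit 164322) (nat_lit 230) (.e (nat_lit 163885) (nat_lit 5) (.e (nat_lit 221207) (nat_lit 21) (.e (nat_lit 164319) (nat_lit 228) .nil)))))))) (.g (nat_lit 4) .nil .nil))) 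
(.lf (nat_lit 157739) (.g (nat_lit 4168) (.e (nat_lit 57421) (nat_lit 13) (.e (nat_lit 344169) (nat_lit 40) (.e (nat_lit 671759) (nat_lit 3) (.e (nat_lit 57479) (nat_lit 28) (.e (nat_lit 557109) (nat_lit 15) (.e (nat_lit 188455) (nat_lit 24) (.e (nat_lit 237312) (nat_lit 142) .nil))))))) (.g (nat_lit 6) .nil .nil)))) (.nd (nat_lit 5) 
(.lf (nat_lit 157723) (.g (nat_lit 706) (.e (nat_lit 57421) (nat_lit 13) (.e (nat_lit 344133) (nat_lit 26) (.e (nat_lit 557103) (nat_lit 14) .nil))) .nil)) 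
(.lf (nat_lit 157755) (.g (nat_lit 2940) (.e (nat_lit 57422) (nat_lit 13) (.e (nat_lit 344117) (nat_lit 21) (.e (nat_lit 516151) (nat_lit 9) (.e (nat_lit 426171) (nat_lit 7) .nil)))) .nil))))) (.nd (nat_lit 3) (.nd (nat_lit 4) (.nd (nat_lit 5) 
(.lf (nat_lit 157703) (.g (nat_lit 1944) (.e (nat_lit 57421) (nat_lit 13) (.e (nat_lit 344133) (nat_lit 26) (.e (nat_lit 557098) (nat_lit 13) (.e (nat_lit 172059) (nat_lit 1) .nil)))) .nil)) 
(.lf (nat_lit 157735) (.g (nat_lit 2020) (.e (nat_lit 57421) (nat_lit 13) (.e (nat_lit 344133) (nat_lit 26) (.e (nat_lit 557105) (nat_lit 14) (.e (nat_lit 180261) (nat_lit 20) .nil)))) .nil))) (.nd (nat_lit 5) 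
(.lf (nat_lit 157719) (.g (nat_lit 2263) (.e (nat_lit 57421) (nat_lit 13) (.e (nat_lit 344133) (nat_lit 26) (.e (nat_lit 557098) (nat_lit 13) (.e (nat_lit 172133) (nat_lit 15) (.e (nat_lit 2059) (nat_lit 142) .nil))))) .nil)) 
(.lf (nat_lit 157751) (.g (nat_lit 2101) (.e (nat_lit 57421) (nat_lit 13) (.e (nat_lit 344177) (nat_lit 43) (.e (nat_lit 770073) (nat_lit 9) (.e (nat_lit 73755) (nat_lit 8) (.e (nat_lit 557104) (nat_lit 14) .nil))))) .nil)))) (.nd (nat_lit 4) (.nd (nat_lit 5) 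
(.lf (nat_lit 157711) (.g (nat_lit 3409) (.e (nat_lit 57421) (nat_lit 13) (.e (nat_lit 344133) (nat_lit 26) (.e (nat_lit 557098) (nat_lit 13) (.e (nat_lit 172061) (nat_lit 1) (.e (nat_lit 164326) (nat_lit 230) (.e (nat_lit 163886) (nat_lit 5) (.e (nat_lit 221207) (nat_lit 21) (.e (nat_lit 164319) (nat_lit 228) .nil)))))))) (.g (nat_lit 5) .nil .nil))) 
(.lf (nat_lit 157743) (.g (nat_lit 2475) (.e (nat_lit 57421) (nat_lit 13) (.e (nat_lit 344169) (nat_lit 40) (.e (nat_lit 671759) (nat_lit 3) (.e (nat_lit 57547) (nat_lit 47) (.e (nat_lit 712755) (nat_lit 30) (.e (nat_lit 450569) (nat_lit 0) (.e (nat_lit 5948) (nat_lit 322) .nil))))))) (.g (nat_lit 4) .nil .nil)))) (.nd (nat_lit 5) 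
(.lf (nat_lit 157727) (.g (nat_lit 2355) (.e (nat_lit 57421) (nat_lit 13) (.e (nat_lit 344133) (nat_lit 26) (.e (nat_lit 557103) (nat_lit 14) (.e (nat_lit 180229) (nat_lit 0) (.e (nat_lit 5548) (nat_lit 306) .nil))))) .nil)) 
(.lf (nat_lit 157759) (.g (nat_lit 3450) (.e (nat_lit 57422) (nat_lit 13) (.e (nat_lit 344117) (nat_lit 21) (.e (nat_lit 516151) (nat_lit 9) (.e (nat_lit 426286) (nat_lit 10) (.e (nat_lit 434242) (nat_lit 28) .nil))))) .nil))))))))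

noncomputable def tv2111 : DT := (.nd (nat_lit 0) (.nd (nat_lit 1) (.nd (nat_lit 2) (.nd (nat_lit 3) (.nd (nat_lit 4) (.nd (nat_lit 5) 
(.lf (nat_lit 157760) (.g (nat_lit 3296) (.e (nat_lit 57422) (nat_lit 13) (.e (nat_lit 344117) (nat_lit 21) (.e (nat_lit 516151) (nat_lit 9) (.e (nat_lit 426286) (nat_lit 10) (.e (nat_lit 434245) (nat_lit 28) .nil))))) .nil)) 
(.lf (nat_lit 157792) (.g (nat_lit 1999) (.e (nat_lit 57423) (nat_lit 14) (.e (nat_lit 352258) (nat_lit 0) (.e (nat_lit 7088) (nat_lit 379) (.e (nat_lit 123214) (nat_lit 275) (.e (nat_lit 73729) (nat_lit 0) (.e (nat_lit 7265) (nat_lit 384) .nil)))))) (.g (nat_lit 0) .nil .nil)))) (.nd (nat_lit 5) 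
(.lf (nat_lit 157776) (.g (nat_lit 1598) (.e (nat_lit 57422) (nat_lit 13) (.e (nat_lit 344133) (nat_lit 26) (.e (nat_lit 557089) (nat_lit 12) (.e (nat_lit 171776) (nat_lit 194) .nil)))) .nil)) 
(.lf (nat_lit 157808) (.g (nat_lit 2440) (.e (nat_lit 57423) (nat_lit 14) (.e (nat_lit 352271) (nat_lit 9) (.e (nat_lit 409602) (nat_lit 0) (.e (nat_lit 5411) (nat_lit 303) (.e (nat_lit 73729) (nat_lit 0) (.e (nat_lit 7265) (nat_lit 384) .nil)))))) (.g (nat_lit 0) .nil .nil))))) (.nd (nat_lit 4) (.nd (nat_lit 5) 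
(.lf (nat_lit 157768) (.g (nat_lit 4226) (.e (nat_lit 57422) (nat_lit 13) (.e (nat_lit 344117) (nat_lit 21) (.e (nat_lit 516165) (nat_lit 12) (.e (nat_lit 450588) (nat_lit 10) (.e (nat_lit 573475) (nat_lit 12) .nil))))) .nil)) 
(.lf (nat_lit 157800) (.g (nat_lit 1143) (.e (nat_lit 57423) (nat_lit 14) (.e (nat_lit 352262) (nat_lit 0) (.e (nat_lit 3632) (nat_lit 227) (.e (nat_lit 778326) (nat_lit 6) .nil)))) .nil))) (.nd (nat_lit 5) 
(.lf (nat_lit 157784) (.g (nat_lit 2815) (.e (nat_lit 65280) (nat_lit 13) (.e (nat_lit 344129) (nat_lit 26) (.e (nat_lit 557090) (nat_lit 12) (.e (nat_lit 164238) (nat_lit 187) (.e (nat_lit 1661) (nat_lit 115) .nil))))) .nil)) 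
(.lf (nat_lit 157816) (.g (nat_lit 1618) (.e (nat_lit 57423) (nat_lit 14) (.e (nat_lit 352275) (nat_lit 11) (.e (nat_lit 426011) (nat_lit 0) (.e (nat_lit 7591) (nat_lit 407) .nil)))) .nil))))) (.nd (nat_lit 3) (.nd (nat_lit 4) (.nd (nat_lit 5) 
(.lf (nat_lit 157764) (.g (nat_lit 3196) (.e (nat_lit 57422) (nat_lit 13) (.e (nat_lit 344117) (nat_lit 21) (.e (nat_lit 516165) (nat_lit 12) (.e (nat_lit 450586) (nat_lit 10) (.e (nat_lit 573475) (nat_lit 12) .nil))))) .nil)) 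
(.lf (nat_lit 157796) (.g (nat_lit 2251) (.e (nat_lit 57423) (nat_lit 14) (.e (nat_lit 352258) (nat_lit 0) (.e (nat_lit 7089) (nat_lit 379) (.e (nat_lit 123214) (nat_lit 275) (.e (nat_lit 73729) (nat_lit 0) (.e (nat_lit 7266) (nat_lit 384) .nil)))))) (.g (nat_lit 0) .nil .nil)))) (.nd (nat_lit 5) 
(.lf (nat_lit 157780) (.g (nat_lit 1719) (.e (nat_lit 57422) (nat_lit 13) (.e (nat_lit 344133) (nat_lit 26) (.e (nat_lit 557105) (nat_lit 14) (.e (nat_lit 188160) (nat_lit 0) .nil)))) .nil)) 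
(.lf (nat_lit 157812) (.g (nat_lit 2586) (.e (nat_lit 57423) (nat_lit 14) (.e (nat_lit 352272) (nat_lit 10) (.e (nat_lit 417811) (nat_lit 6) (.e (nat_lit 286756) (nat_lit 10) (.e (nat_lit 344090) (nat_lit 18) (.e (nat_lit 7266) (nat_lit 384) .nil)))))) (.g (nat_lit 0) .nil .nil))))) (.nd (nat_lit 4) (.nd (nat_lit 5) 
(.lf (nat_lit 157772) (.g (nat_lit 3430) (.e (nat_lit 57422) (nat_lit 13) (.e (nat_lit 344117) (nat_lit 21) (.e (nat_lit 516166) (nat_lit 12) (.e (nat_lit 450588) (nat_lit 10) (.e (nat_lit 573473) (nat_lit 12) (.e (nat_lit 57352) (nat_lit 0) (.e (nat_lit 7261) (nat_lit 384) .nil))))))) (.g (nat_lit 4) .nil .nil))) 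
(.lf (nat_lit 157804) (.g (nat_lit 2585) (.e (nat_lit 57423) (nat_lit 14) (.e (nat_lit 352269) (nat_lit 7) (.e (nat_lit 245776) (nat_lit 4) (.e (nat_lit 172113) (nat_lit 10) (.e (nat_lit 434203) (nat_lit 18) (.e (nat_lit 6828) (nat_lit 367) .nil)))))) (.g (nat_lit 5) .nil .nil)))) (.nd (nat_lit 5) 
(.lf (nat_lit 157788) (.g (nat_lit 2202) (.e (nat_lit 57423) (nat_lit 14) (.e (nat_lit 352257) (nat_lit 0) (.e (nat_lit 7077) (nat_lit 378) (.e (nat_lit 57898) (nat_lit 275) (.e (nat_lit 73729) (nat_lit 0) (.e (nat_lit 7266) (nat_lit 384) .nil)))))) (.g (nat_lit 0) .nil .nil))) 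
(.lf (nat_lit 157820) (.g (nat_lit 1636) (.e (nat_lit 57423) (nat_lit 14) (.e (nat_lit 352275) (nat_lit 11) (.e (nat_lit 426343) (nat_lit 14) (.e (nat_lit 491560) (nat_lit 10) .nil)))) .nil)))))) (.nd (nat_lit 2) (.nd (nat_lit 3) (.nd (nat_lit 4) (.nd (nat_lit 5) 
(.lf (nat_lit 157762) (.g (nat_lit 3368) (.e (nat_lit 57422) (nat_lit 13) (.e (nat_lit 344117) (nat_lit 21) (.e (nat_lit 516151) (nat_lit 9) (.e (nat_lit 426286) (nat_lit 10) (.e (nat_lit 434248) (nat_lit 28) .nil))))) .nil)) 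
(.lf (nat_lit 157794) (.g (nat_lit 1616) (.e (nat_lit 57423) (nat_lit 14) (.e (nat_lit 352258) (nat_lit 0) (.e (nat_lit 7089) (nat_lit 379) (.e (nat_lit 123214) (nat_lit 275) (.e (nat_lit 73729) (nat_lit 0) (.e (nat_lit 7261) (nat_lit 384) .nil)))))) (.g (nat_lit 0) .nil .nil)))) (.nd (nat_lit 5) 
(.lf (nat_lit 157778) (.g (nat_lit 2014) (.e (nat_lit 57422) (nat_lit 13) (.e (nat_lit 344133) (nat_lit 26) (.e (nat_lit 557098) (nat_lit 13) (.e (nat_lit 172061) (nat_lit 1) .nil)))) .nil)) 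
(.lf (nat_lit 157810) (.g (nat_lit 2902) (.e (nat_lit 57423) (nat_lit 14) (.e (nat_lit 352272) (nat_lit 10) (.e (nat_lit 417795) (nat_lit 0) (.e (nat_lit 5409) (nat_lit 303) (.e (nat_lit 73729) (nat_lit 0) (.e (nat_lit 7266) (nat_lit 384) .nil)))))) (.g (nat_lit 0) .nil .nil))))) (.nd (nat_lit 4) (.nd (nat_lit 5) 
(.lf (nat_lit 157770) (.g (nat_lit 3176) (.e (nat_lit 57422) (nat_lit 13) (.e (nat_lit 344117) (nat_lit 21) (.e (nat_lit 516166) (nat_lit 12) (.e (nat_lit 450587) (nat_lit 10) (.e (nat_lit 573478) (nat_lit 12) .nil))))) .nil)) 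
(.lf (nat_lit 157802) (.g (nat_lit 3211) (.e (nat_lit 57423) (nat_lit 14) (.e (nat_lit 352262) (nat_lit 0) (.e (nat_lit 3632) (nat_lit 227) (.e (nat_lit 778327) (nat_lit 6) (.e (nat_lit 81957) (nat_lit 24) (.e (nat_lit 123197) (nat_lit 266) .nil)))))) (.g (nat_lit 0) .nil .nil)))) (.nd (nat_lit 5) 
(.lf (nat_lit 157786) (.g (nat_lit 2158) (.e (nat_lit 65280) (nat_lit 13) (.e (nat_lit 344133) (nat_lit 26) (.e (nat_lit 557091) (nat_lit 12) (.e (nat_lit 164238) (nat_lit 187) (.e (nat_lit 1658) (nat_lit 115) .nil))))) .nil)) 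
(.lf (nat_lit 157818) (.g (nat_lit 1785) (.e (nat_lit 57423) (nat_lit 14) (.e (nat_lit 352275) (nat_lit 11) (.e (nat_lit 426190) (nat_lit 9) (.e (nat_lit 426448) (nat_lit 20) (.e (nat_lit 114710) (nat_lit 21) .nil))))) .nil))))) (.nd (nat_lit 3) (.nd (nat_lit 4) (.nd (nat_lit 5) 
(.lf (nat_lit 157766) (.g (nat_lit 3176) (.e (nat_lit 57422) (nat_lit 13) (.e (nat_lit 344117) (nat_lit 21) (.e (nat_lit 516165) (nat_lit 12) (.e (nat_lit 450586) (nat_lit 10) (.e (nat_lit 573478) (nat_lit 12) .nil))))) .nil)) 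
(.lf (nat_lit 157798) (.g (nat_lit 471) (.e (nat_lit 57423) (nat_lit 14) (.e (nat_lit 352262) (nat_lit 0) (.e (nat_lit 3630) (nat_lit 227) .nil))) .nil))) (.nd (nat_lit 5) 
(.lf (nat_lit 157782) (.g (nat_lit 511) (.e (nat_lit 57422) (nat_lit 13) (.e (nat_lit 344174) (nat_lit 42) (.e (nat_lit 761911) (nat_lit 18) .nil))) .nil)) 
(.lf (nat_lit 157814) (.g (nat_lit 925) (.e (nat_lit 57423) (nat_lit 14) (.e (nat_lit 352273) (nat_lit 11) (.e (nat_lit 426343) (nat_lit 14) (.e (nat_lit 491558) (nat_lit 10) .nil)))) .nil)))) (.nd (nat_lit 4) (.nd (nat_lit 5) 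
(.lf (nat_lit 157774) (.g (nat_lit 2212) (.e (nat_lit 57422) (nat_lit 13) (.e (nat_lit 344129) (nat_lit 26) (.e (nat_lit 557090) (nat_lit 12) (.e (nat_lit 164238) (nat_lit 187) .nil)))) .nil)) 
(.lf (nat_lit 157806) (.g (nat_lit 1779) (.e (nat_lit 57423) (nat_lit 14) (.e (nat_lit 352270) (nat_lit 8) (.e (nat_lit 262148) (nat_lit 0) (.e (nat_lit 1597) (nat_lit 111) (.e (nat_lit 360456) (nat_lit 0) (.e (nat_lit 5949) (nat_lit 322) .nil)))))) (.g (nat_lit 0) .nil .nil)))) (.nd (nat_lit 5) 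
(.lf (nat_lit 157790) (.g (nat_lit 1656) (.e (nat_lit 57423) (nat_lit 14) (.e (nat_lit 352258) (nat_lit 0) (.e (nat_lit 3716) (nat_lit 227) (.e (nat_lit 778325) (nat_lit 6) (.e (nat_lit 81957) (nat_lit 24) (.e (nat_lit 123198) (nat_lit 266) .nil)))))) (.g (nat_lit 0) .nil .nil))) 
(.lf (nat_lit 157822) (.g (nat_lit 2076) (.e (nat_lit 57423) (nat_lit 14) (.e (nat_lit 352276) (nat_lit 11) (.e (nat_lit 425984) (nat_lit 0) (.e (nat_lit 7592) (nat_lit 407) (.e (nat_lit 73729) (nat_lit 0) (.e (nat_lit 7265) (nat_lit 384) .nil)))))) (.g (nat_lit 0) .nil .nil)))))))) (.nd (nat_lit 1) (.nd (nat_lit 2) (.nd (nat_lit 3) (.nd (nat_lit 4) (.nd (nat_lit 5) 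
(.lf (nat_lit 157761) (.g (nat_lit 3401) (.e (nat_lit 57422) (nat_lit 13) (.e (nat_lit 344117) (nat_lit 21) (.e (nat_lit 516151) (nat_lit 9) (.e (nat_lit 426286) (nat_lit 10) (.e (nat_lit 434247) (nat_lit 28) .nil))))) .nil)) 
(.lf (nat_lit 157793) (.g (nat_lit 2226) (.e (nat_lit 57423) (nat_lit 14) (.e (nat_lit 352258) (nat_lit 0) (.e (nat_lit 7088) (nat_lit 379) (.e (nat_lit 123214) (nat_lit 275) (.e (nat_lit 73729) (nat_lit 0) (.e (nat_lit 7266) (nat_lit 384) .nil)))))) (.g (nat_lit 0) .nil .nil)))) (.nd (nat_lit 5) 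
(.lf (nat_lit 157777) (.g (nat_lit 2186) (.e (nat_lit 57422) (nat_lit 13) (.e (nat_lit 344133) (nat_lit 26) (.e (nat_lit 557091) (nat_lit 12) (.e (nat_lit 164238) (nat_lit 187) (.e (nat_lit 1660) (nat_lit 115) .nil))))) .nil)) 
(.lf (nat_lit 157809) (.g (nat_lit 2334) (.e (nat_lit 57423) (nat_lit 14) (.e (nat_lit 352271) (nat_lit 9) (.e (nat_lit 409603) (nat_lit 0) (.e (nat_lit 5407) (nat_lit 303) (.e (nat_lit 73731) (nat_lit 0) (.e (nat_lit 7266) (nat_lit 384) .nil)))))) (.g (nat_lit 0) .nil .nil))))) (.nd (nat_lit 4) (.nd (nat_lit 5) 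
(.lf (nat_lit 157769) (.g (nat_lit 3254) (.e (nat_lit 57422) (nat_lit 13) (.e (nat_lit 344117) (nat_lit 21) (.e (nat_lit 516166) (nat_lit 12) (.e (nat_lit 450587) (nat_lit 10) (.e (nat_lit 573477) (nat_lit 12) .nil))))) .nil)) 
(.lf (nat_lit 157801) (.g (nat_lit 2702) (.e (nat_lit 57423) (nat_lit 14) (.e (nat_lit 352262) (nat_lit 0) (.e (nat_lit 3632) (nat_lit 227) (.e (nat_lit 778326) (nat_lit 6) (.e (nat_lit 81959) (nat_lit 24) (.e (nat_lit 123198) (nat_lit 266) .nil)))))) (.g (nat_lit 0) .nil .nil)))) (.nd (nat_lit 5) 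
(.lf (nat_lit 157785) (.g (nat_lit 1095) (.e (nat_lit 65280) (nat_lit 13) (.e (nat_lit 344133) (nat_lit 26) (.e (nat_lit 557068) (nat_lit 9) (.e (nat_lit 3104) (nat_lit 192) .nil)))) .nil)) 
(.lf (nat_lit 157817) (.g (nat_lit 1617) (.e (nat_lit 57423) (nat_lit 14) (.e (nat_lit 352275) (nat_lit 11) (.e (nat_lit 426011) (nat_lit 0) (.e (nat_lit 7593) (nat_lit 407) .nil)))) .nil))))) (.nd (nat_lit 3) (.nd (nat_lit 4) (.nd (nat_lit 5) 
(.lf (nat_lit 157765) (.g (nat_lit 3242) (.e (nat_lit 57422) (nat_lit 13) (.e (nat_lit 344117) (nat_lit 21) (.e (nat_lit 516165) (nat_lit 12) (.e (nat_lit 450586) (nat_lit 10) (.e (nat_lit 573477) (nat_lit 12) .nil))))) .nil)) 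
(.lf (nat_lit 157797) (.g (nat_lit 383) (.e (nat_lit 57423) (nat_lit 14) (.e (nat_lit 352262) (nat_lit 0) (.e (nat_lit 3253) (nat_lit 197) .nil))) .nil))) (.nd (nat_lit 5) 
(.lf (nat_lit 157781) (.g (nat_lit 2154) (.e (nat_lit 57422) (nat_lit 13) (.e (nat_lit 344133) (nat_lit 26) (.e (nat_lit 557105) (nat_lit 14) (.e (nat_lit 180260) (nat_lit 18) .nil)))) .nil)) 
(.lf (nat_lit 157813) (.g (nat_lit 1856) (.e (nat_lit 57423) (nat_lit 14) (.e (nat_lit 352273) (nat_lit 11) (.e (nat_lit 426190) (nat_lit 9) (.e (nat_lit 426448) (nat_lit 20) (.e (nat_lit 114710) (nat_lit 21) (.e (nat_lit 57851) (nat_lit 252) .nil)))))) (.g (nat_lit 4) .nil .nil))))) (.nd (nat_lit 4) (.nd (nat_lit 5) 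
(.lf (nat_lit 157773) (.g (nat_lit 3476) (.e (nat_lit 57422) (nat_lit 13) (.e (nat_lit 344117) (nat_lit 21) (.e (nat_lit 516166) (nat_lit 12) (.e (nat_lit 450588) (nat_lit 10) (.e (nat_lit 573475) (nat_lit 12) .nil))))) .nil)) 
(.lf (nat_lit 157805) (.g (nat_lit 1611) (.e (nat_lit 57423) (nat_lit 14) (.e (nat_lit 352270) (nat_lit 8) (.e (nat_lit 262148) (nat_lit 0) (.e (nat_lit 1582) (nat_lit 111) (.e (nat_lit 360456) (nat_lit 0) (.e (nat_lit 5949) (nat_lit 322) .nil)))))) (.g (nat_lit 0) .nil .nil)))) (.nd (nat_lit 5) 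
(.lf (nat_lit 157789) (.g (nat_lit 2206) (.e (nat_lit 57423) (nat_lit 14) (.e (nat_lit 352257) (nat_lit 0) (.e (nat_lit 7081) (nat_lit 378) (.e (nat_lit 57898) (nat_lit 275) (.e (nat_lit 73729) (nat_lit 0) (.e (nat_lit 7266) (nat_lit 384) .nil)))))) (.g (nat_lit 0) .nil .nil))) 
(.lf (nat_lit 157821) (.g (nat_lit 1684) (.e (nat_lit 57423) (nat_lit 14) (.e (nat_lit 352276) (nat_lit 11) (.e (nat_lit 425984) (nat_lit 0) (.e (nat_lit 7592) (nat_lit 407) (.e (nat_lit 73729) (nat_lit 0) (.e (nat_lit 7261) (nat_lit 384) .nil)))))) (.g (nat_lit 0) .nil .nil))))))) (.nd (nat_lit 2) (.nd (nat_lit 3) (.nd (nat_lit 4) (.nd (nat_lit 5) 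
(.lf (nat_lit 157763) (.g (nat_lit 3092) (.e (nat_lit 57422) (nat_lit 13) (.e (nat_lit 344117) (nat_lit 21) (.e (nat_lit 516165) (nat_lit 12) (.e (nat_lit 450586) (nat_lit 10) (.e (nat_lit 573473) (nat_lit 12) .nil))))) .nil)) 
(.lf (nat_lit 157795) (.g (nat_lit 2018) (.e (nat_lit 57423) (nat_lit 14) (.e (nat_lit 352258) (nat_lit 0) (.e (nat_lit 7089) (nat_lit 379) (.e (nat_lit 123214) (nat_lit 275) (.e (nat_lit 73729) (nat_lit 0) (.e (nat_lit 7265) (nat_lit 384) .nil)))))) (.g (nat_lit 0) .nil .nil)))) (.nd (nat_lit 5) 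
(.lf (nat_lit 157779) (.g (nat_lit 2161) (.e (nat_lit 57422) (nat_lit 13) (.e (nat_lit 344133) (nat_lit 26) (.e (nat_lit 557105) (nat_lit 14) (.e (nat_lit 180224) (nat_lit 0) .nil)))) .nil)) 
(.lf (nat_lit 157811) (.g (nat_lit 2569) (.e (nat_lit 57423) (nat_lit 14) (.e (nat_lit 352272) (nat_lit 10) (.e (nat_lit 417811) (nat_lit 6) (.e (nat_lit 286753) (nat_lit 10) (.e (nat_lit 344090) (nat_lit 18) (.e (nat_lit 7266) (nat_lit 384) .nil)))))) (.g (nat_lit 0) .nil .nil))))) (.nd (nat_lit 4) (.nd (nat_lit 5) 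
(.lf (nat_lit 157771) (.g (nat_lit 3428) (.e (nat_lit 57422) (nat_lit 13) (.e (nat_lit 344117) (nat_lit 21) (.e (nat_lit 516166) (nat_lit 12) (.e (nat_lit 450588) (nat_lit 10) (.e (nat_lit 573473) (nat_lit 12) .nil))))) .nil)) 
(.lf (nat_lit 157803) (.g (nat_lit 3064) (.e (nat_lit 57423) (nat_lit 14) (.e (nat_lit 352262) (nat_lit 0) (.e (nat_lit 3632) (nat_lit 227) (.e (nat_lit 778327) (nat_lit 6) (.e (nat_lit 81959) (nat_lit 24) (.e (nat_lit 123197) (nat_lit 266) .nil)))))) (.g (nat_lit 0) .nil .nil)))) (.nd (nat_lit 5) 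
(.lf (nat_lit 157787) (.g (nat_lit 2151) (.e (nat_lit 65280) (nat_lit 13) (.e (nat_lit 344133) (nat_lit 26) (.e (nat_lit 557091) (nat_lit 12) (.e (nat_lit 164238) (nat_lit 187) (.e (nat_lit 1660) (nat_lit 115) .nil))))) .nil)) 
(.lf (nat_lit 157819) (.g (nat_lit 1600) (.e (nat_lit 57423) (nat_lit 14) (.e (nat_lit 352275) (nat_lit 11) (.e (nat_lit 426343) (nat_lit 14) (.e (nat_lit 491558) (nat_lit 10) .nil)))) .nil))))) (.nd (nat_lit 3) (.nd (nat_lit 4) (.nd (nat_lit 5) 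
(.lf (nat_lit 157767) (.g (nat_lit 4343) (.e (nat_lit 57422) (nat_lit 13) (.e (nat_lit 344117) (nat_lit 21) (.e (nat_lit 516165) (nat_lit 12) (.e (nat_lit 450588) (nat_lit 10) (.e (nat_lit 573473) (nat_lit 12) .nil))))) .nil)) 
(.lf (nat_lit 157799) (.g (nat_lit 1166) (.e (nat_lit 57423) (nat_lit 14) (.e (nat_lit 352262) (nat_lit 0) (.e (nat_lit 3631) (nat_lit 227) (.e (nat_lit 778327) (nat_lit 6) .nil)))) .nil))) (.nd (nat_lit 5) 
(.lf (nat_lit 157783) (.g (nat_lit 2206) (.e (nat_lit 65280) (nat_lit 13) (.e (nat_lit 344129) (nat_lit 26) (.e (nat_lit 557090) (nat_lit 12) (.e (nat_lit 164238) (nat_lit 187) .nil)))) .nil)) 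
(.lf (nat_lit 157815) (.g (nat_lit 1019) (.e (nat_lit 57423) (nat_lit 14) (.e (nat_lit 352273) (nat_lit 11) (.e (nat_lit 426343) (nat_lit 14) (.e (nat_lit 491560) (nat_lit 10) .nil)))) .nil)))) (.nd (nat_lit 4) (.nd (nat_lit 5) 
(.lf (nat_lit 157775) (.g (nat_lit 1124) (.e (nat_lit 57422) (nat_lit 13) (.e (nat_lit 344132) (nat_lit 26) (.e (nat_lit 557093) (nat_lit 12) (.e (nat_lit 164239) (nat_lit 187) .nil)))) .nil)) 
(.lf (nat_lit 157807) (.g (nat_lit 2041) (.e (nat_lit 57423) (nat_lit 14) (.e (nat_lit 352271) (nat_lit 9) (.e (nat_lit 409602) (nat_lit 0) (.e (nat_lit 5411) (nat_lit 303) (.e (nat_lit 73729) (nat_lit 0) (.e (nat_lit 7261) (nat_lit 384) .nil)))))) (.g (nat_lit 0) .nil .nil)))) (.nd (nat_lit 5) 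
(.lf (nat_lit 157791) (.g (nat_lit 1594) (.e (nat_lit 57423) (nat_lit 14) (.e (nat_lit 352258) (nat_lit 0) (.e (nat_lit 7088) (nat_lit 379) (.e (nat_lit 123214) (nat_lit 275) (.e (nat_lit 73729) (nat_lit 0) (.e (nat_lit 7261) (nat_lit 384) .nil)))))) (.g (nat_lit 0) .nil .nil))) 
(.lf (nat_lit 157823) (.g (nat_lit 1637) (.e (nat_lit 57423) (nat_lit 14) (.e (nat_lit 352276) (nat_lit 11) (.e (nat_lit 425989) (nat_lit 0) (.e (nat_lit 7592) (nat_lit 407) (.e (nat_lit 73729) (nat_lit 0) (.e (nat_lit 7261) (nat_lit 384) .nil)))))) (.g (nat_lit 0) .nil .nil)))))))))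

noncomputable def tv2112 : DT := (.nd (nat_lit 0) (.nd (nat_lit 1) (.nd (nat_lit 2) (.nd (nat_lit 3) (.nd (nat_lit 4) 
(.lf (nat_lit 157824) (.g (nat_lit 2031) (.e (nat_lit 57423) (nat_lit 14) (.e (nat_lit 352276) (nat_lit 11) (.e (nat_lit 425989) (nat_lit 0) (.e (nat_lit 7592) (nat_lit 407) (.e (nat_lit 73729) (nat_lit 0) (.e (nat_lit 7265) (nat_lit 384) .nil)))))) (.g (nat_lit 0) .nil .nil))) 
(.lf (nat_lit 157840) (.g (nat_lit 3868) (.e (nat_lit 57423) (nat_lit 14) (.e (nat_lit 352277) (nat_lit 11) (.e (nat_lit 426012) (nat_lit 0) (.e (nat_lit 7593) (nat_lit 407) (.e (nat_lit 73729) (nat_lit 0) (.e (nat_lit 7266) (nat_lit 384) .nil)))))) (.g (nat_lit 0) .nil .nil)))) (.nd (nat_lit 4) 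
(.lf (nat_lit 157832) (.g (nat_lit 2341) (.e (nat_lit 57423) (nat_lit 14) (.e (nat_lit 352277) (nat_lit 11) (.e (nat_lit 426011) (nat_lit 0) (.e (nat_lit 7591) (nat_lit 407) (.e (nat_lit 73731) (nat_lit 0) (.e (nat_lit 7263) (nat_lit 384) .nil)))))) (.g (nat_lit 4) .nil .nil))) 
(.lf (nat_lit 157848) (.g (nat_lit 1794) (.e (nat_lit 57423) (nat_lit 14) (.e (nat_lit 352277) (nat_lit 11) (.e (nat_lit 426189) (nat_lit 9) (.e (nat_lit 426448) (nat_lit 20) (.e (nat_lit 114712) (nat_lit 21) (.e (nat_lit 57852) (nat_lit 252) .nil)))))) (.g (nat_lit 4) .nil .nil))))) (.nd (nat_lit 3) (.nd (nat_lit 4) 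
(.lf (nat_lit 157828) (.g (nat_lit 2975) (.e (nat_lit 57423) (nat_lit 14) (.e (nat_lit 352277) (nat_lit 11) (.e (nat_lit 426009) (nat_lit 0) (.e (nat_lit 7593) (nat_lit 407) (.e (nat_lit 73731) (nat_lit 0) (.e (nat_lit 7266) (nat_lit 384) .nil)))))) (.g (nat_lit 0) .nil .nil))) 
(.lf (nat_lit 157844) (.g (nat_lit 1140) (.e (nat_lit 57423) (nat_lit 14) (.e (nat_lit 352277) (nat_lit 11) (.e (nat_lit 426187) (nat_lit 9) (.e (nat_lit 426446) (nat_lit 20) .nil)))) .nil))) (.nd (nat_lit 4) 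
(.lf (nat_lit 157836) (.g (nat_lit 2276) (.e (nat_lit 57423) (nat_lit 14) (.e (nat_lit 352277) (nat_lit 11) (.e (nat_lit 426011) (nat_lit 0) (.e (nat_lit 7593) (nat_lit 407) (.e (nat_lit 73730) (nat_lit 0) .nil))))) .nil)) 
(.lf (nat_lit 157852) (.g (nat_lit 3471) (.e (nat_lit 57423) (nat_lit 14) (.e (nat_lit 352277) (nat_lit 11) (.e (nat_lit 426190) (nat_lit 9) (.e (nat_lit 426446) (nat_lit 20) (.e (nat_lit 114710) (nat_lit 21) (.e (nat_lit 57847) (nat_lit 252) .nil)))))) (.g (nat_lit 6) .nil .nil)))))) (.nd (nat_lit 2) (.nd (nat_lit 3) (.nd (nat_lit 4) 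
(.lf (nat_lit 157826) (.g (nat_lit 2896) (.e (nat_lit 57423) (nat_lit 14) (.e (nat_lit 352277) (nat_lit 11) (.e (nat_lit 426009) (nat_lit 0) (.e (nat_lit 7591) (nat_lit 407) (.e (nat_lit 73731) (nat_lit 0) (.e (nat_lit 7266) (nat_lit 384) .nil)))))) (.g (nat_lit 0) .nil .nil))) 
(.lf (nat_lit 157842) (.g (nat_lit 542) (.e (nat_lit 57423) (nat_lit 14) (.e (nat_lit 352277) (nat_lit 11) (.e (nat_lit 426186) (nat_lit 9) .nil))) .nil))) (.nd (nat_lit 4) 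
(.lf (nat_lit 157834) (.g (nat_lit 3980) (.e (nat_lit 57423) (nat_lit 14) (.e (nat_lit 352277) (nat_lit 11) (.e (nat_lit 426011) (nat_lit 0) (.e (nat_lit 7593) (nat_lit 407) (.e (nat_lit 73729) (nat_lit 0) (.e (nat_lit 7265) (nat_lit 384) .nil)))))) (.g (nat_lit 0) .nil .nil))) 
(.lf (nat_lit 157850) (.g (nat_lit 2643) (.e (nat_lit 57423) (nat_lit 14) (.e (nat_lit 352277) (nat_lit 11) (.e (nat_lit 426190) (nat_lit 9) (.e (nat_lit 426446) (nat_lit 20) (.e (nat_lit 114710) (nat_lit 21) (.e (nat_lit 57844) (nat_lit 252) .nil)))))) (.g (nat_lit 5) .nil .nil))))) (.nd (nat_lit 3) (.nd (nat_lit 4) 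
(.lf (nat_lit 157830) (.g (nat_lit 4262) (.e (nat_lit 57423) (nat_lit 14) (.e (nat_lit 352277) (nat_lit 11) (.e (nat_lit 426011) (nat_lit 0) (.e (nat_lit 7591) (nat_lit 407) (.e (nat_lit 73729) (nat_lit 0) (.e (nat_lit 7266) (nat_lit 384) .nil)))))) (.g (nat_lit 0) .nil .nil))) 
(.lf (nat_lit 157846) (.g (nat_lit 1946) (.e (nat_lit 57423) (nat_lit 14) (.e (nat_lit 352277) (nat_lit 11) (.e (nat_lit 426189) (nat_lit 9) (.e (nat_lit 426448) (nat_lit 20) (.e (nat_lit 114710) (nat_lit 21) (.e (nat_lit 57844) (nat_lit 252) .nil)))))) (.g (nat_lit 4) .nil .nil)))) (.nd (nat_lit 4) 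
(.lf (nat_lit 157838) (.g (nat_lit 3711) (.e (nat_lit 57423) (nat_lit 14) (.e (nat_lit 352277) (nat_lit 11) (.e (nat_lit 426012) (nat_lit 0) (.e (nat_lit 7591) (nat_lit 407) (.e (nat_lit 73729) (nat_lit 0) (.e (nat_lit 7266) (nat_lit 384) .nil)))))) (.g (nat_lit 0) .nil .nil))) 
(.lf (nat_lit 157854) (.g (nat_lit 3267) (.e (nat_lit 57423) (nat_lit 14) (.e (nat_lit 352277) (nat_lit 11) (.e (nat_lit 426190) (nat_lit 9) (.e (nat_lit 426446) (nat_lit 20) (.e (nat_lit 114710) (nat_lit 21) (.e (nat_lit 57852) (nat_lit 252) .nil)))))) (.g (nat_lit 0) .nil .nil))))))) (.nd (nat_lit 1) (.nd (nat_lit 2) (.nd (nat_lit 3) (.nd (nat_lit 4) 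
(.lf (nat_lit 157825) (.g (nat_lit 1840) (.e (nat_lit 57423) (nat_lit 14) (.e (nat_lit 352276) (nat_lit 11) (.e (nat_lit 426234) (nat_lit 9) (.e (nat_lit 426447) (nat_lit 20) (.e (nat_lit 114710) (nat_lit 21) (.e (nat_lit 57851) (nat_lit 252) .nil)))))) (.g (nat_lit 0) .nil .nil))) 
(.lf (nat_lit 157841) (.g (nat_lit 3491) (.e (nat_lit 57423) (nat_lit 14) (.e (nat_lit 352277) (nat_lit 11) (.e (nat_lit 426012) (nat_lit 0) (.e (nat_lit 7593) (nat_lit 407) (.e (nat_lit 73731) (nat_lit 0) (.e (nat_lit 7266) (nat_lit 384) .nil)))))) (.g (nat_lit 0) .nil .nil)))) (.nd (nat_lit 4) 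
(.lf (nat_lit 157833) (.g (nat_lit 3934) (.e (nat_lit 57423) (nat_lit 14) (.e (nat_lit 352277) (nat_lit 11) (.e (nat_lit 426011) (nat_lit 0) (.e (nat_lit 7591) (nat_lit 407) (.e (nat_lit 73731) (nat_lit 0) (.e (nat_lit 7266) (nat_lit 384) .nil)))))) (.g (nat_lit 0) .nil .nil))) 
(.lf (nat_lit 157849) (.g (nat_lit 425) (.e (nat_lit 57423) (nat_lit 14) (.e (nat_lit 352277) (nat_lit 11) (.e (nat_lit 426190) (nat_lit 9) .nil))) .nil)))) (.nd (nat_lit 3) (.nd (nat_lit 4) 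
(.lf (nat_lit 157829) (.g (nat_lit 3118) (.e (nat_lit 57423) (nat_lit 14) (.e (nat_lit 352277) (nat_lit 11) (.e (nat_lit 426010) (nat_lit 0) (.e (nat_lit 7593) (nat_lit 407) (.e (nat_lit 73731) (nat_lit 0) (.e (nat_lit 7266) (nat_lit 384) .nil)))))) (.g (nat_lit 0) .nil .nil))) 
(.lf (nat_lit 157845) (.g (nat_lit 1885) (.e (nat_lit 57423) (nat_lit 14) (.e (nat_lit 352277) (nat_lit 11) (.e (nat_lit 426187) (nat_lit 9) (.e (nat_lit 426448) (nat_lit 20) (.e (nat_lit 114710) (nat_lit 21) .nil))))) .nil))) (.nd (nat_lit 4) 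
(.lf (nat_lit 157837) (.g (nat_lit 3949) (.e (nat_lit 57423) (nat_lit 14) (.e (nat_lit 352277) (nat_lit 11) (.e (nat_lit 426011) (nat_lit 0) (.e (nat_lit 7593) (nat_lit 407) (.e (nat_lit 73731) (nat_lit 0) (.e (nat_lit 7266) (nat_lit 384) .nil)))))) (.g (nat_lit 0) .nil .nil))) 
(.lf (nat_lit 157853) (.g (nat_lit 2663) (.e (nat_lit 57423) (nat_lit 14) (.e (nat_lit 352277) (nat_lit 11) (.e (nat_lit 426190) (nat_lit 9) (.e (nat_lit 426446) (nat_lit 20) (.e (nat_lit 114710) (nat_lit 21) (.e (nat_lit 57851) (nat_lit 252) .nil)))))) (.g (nat_lit 6) .nil .nil)))))) (.nd (nat_lit 2) (.nd (nat_lit 3) (.nd (nat_lit 4) 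
(.lf (nat_lit 157827) (.g (nat_lit 3280) (.e (nat_lit 57423) (nat_lit 14) (.e (nat_lit 352277) (nat_lit 11) (.e (nat_lit 426009) (nat_lit 0) (.e (nat_lit 7593) (nat_lit 407) (.e (nat_lit 73729) (nat_lit 0) (.e (nat_lit 7266) (nat_lit 384) .nil)))))) (.g (nat_lit 0) .nil .nil))) 
(.lf (nat_lit 157843) (.g (nat_lit 1553) (.e (nat_lit 57423) (nat_lit 14) (.e (nat_lit 352277) (nat_lit 11) (.e (nat_lit 426186) (nat_lit 9) (.e (nat_lit 426448) (nat_lit 20) (.e (nat_lit 114710) (nat_lit 21) .nil))))) .nil))) (.nd (nat_lit 4) 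
(.lf (nat_lit 157835) (.g (nat_lit 4315) (.e (nat_lit 57423) (nat_lit 14) (.e (nat_lit 352277) (nat_lit 11) (.e (nat_lit 426011) (nat_lit 0) (.e (nat_lit 7593) (nat_lit 407) (.e (nat_lit 73729) (nat_lit 0) (.e (nat_lit 7266) (nat_lit 384) .nil)))))) (.g (nat_lit 0) .nil .nil))) 
(.lf (nat_lit 157851) (.g (nat_lit 3366) (.e (nat_lit 57423) (nat_lit 14) (.e (nat_lit 352277) (nat_lit 11) (.e (nat_lit 426190) (nat_lit 9) (.e (nat_lit 426446) (nat_lit 20) (.e (nat_lit 114710) (nat_lit 21) (.e (nat_lit 57846) (nat_lit 252) .nil)))))) (.g (nat_lit 6) .nil .nil))))) (.nd (nat_lit 3) (.nd (nat_lit 4) 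
(.lf (nat_lit 157831) (.g (nat_lit 1926) (.e (nat_lit 57423) (nat_lit 14) (.e (nat_lit 352277) (nat_lit 11) (.e (nat_lit 426011) (nat_lit 0) (.e (nat_lit 7591) (nat_lit 407) (.e (nat_lit 73730) (nat_lit 0) .nil))))) .nil)) 
(.lf (nat_lit 157847) (.g (nat_lit 2239) (.e (nat_lit 57423) (nat_lit 14) (.e (nat_lit 352277) (nat_lit 11) (.e (nat_lit 426189) (nat_lit 9) (.e (nat_lit 426448) (nat_lit 20) (.e (nat_lit 114711) (nat_lit 21) (.e (nat_lit 57844) (nat_lit 252) .nil)))))) (.g (nat_lit 4) .nil .nil)))) (.nd (nat_lit 4) 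
(.lf (nat_lit 157839) (.g (nat_lit 3449) (.e (nat_lit 57423) (nat_lit 14) (.e (nat_lit 352277) (nat_lit 11) (.e (nat_lit 426012) (nat_lit 0) (.e (nat_lit 7591) (nat_lit 407) (.e (nat_lit 73731) (nat_lit 0) (.e (nat_lit 7266) (nat_lit 384) .nil)))))) (.g (nat_lit 0) .nil .nil))) 
(.lf (nat_lit 157855) (.g (nat_lit 3497) (.e (nat_lit 57423) (nat_lit 14) (.e (nat_lit 352277) (nat_lit 11) (.e (nat_lit 426190) (nat_lit 9) (.e (nat_lit 426446) (nat_lit 20) (.e (nat_lit 114711) (nat_lit 21) (.e (nat_lit 57846) (nat_lit 252) .nil)))))) (.g (nat_lit 6) .nil .nil))))))))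

noncomputable def tv2113 : DT := (.nd (nat_lit 0) (.nd (nat_lit 1) (.nd (nat_lit 2) (.nd (nat_lit 3) (.nd (nat_lit 4) 
(.lf (nat_lit 157856) (.g (nat_lit 3378) (.e (nat_lit 57423) (nat_lit 14) (.e (nat_lit 352277) (nat_lit 11) (.e (nat_lit 426190) (nat_lit 9) (.e (nat_lit 426446) (nat_lit 20) (.e (nat_lit 114711) (nat_lit 21) (.e (nat_lit 57847) (nat_lit 252) .nil)))))) (.g (nat_lit 6) .nil .nil))) 
(.lf (nat_lit 157872) (.g (nat_lit 1743) (.e (nat_lit 57423) (nat_lit 14) (.e (nat_lit 352277) (nat_lit 11) (.e (nat_lit 426307) (nat_lit 12) (.e (nat_lit 475212) (nat_lit 42) (.e (nat_lit 720930) (nat_lit 21) (.e (nat_lit 57852) (nat_lit 252) .nil)))))) (.g (nat_lit 4) .nil .nil)))) (.nd (nat_lit 4) 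
(.lf (nat_lit 157864) (.g (nat_lit 2908) (.e (nat_lit 57423) (nat_lit 14) (.e (nat_lit 352277) (nat_lit 11) (.e (nat_lit 426190) (nat_lit 9) (.e (nat_lit 426448) (nat_lit 20) (.e (nat_lit 114710) (nat_lit 21) (.e (nat_lit 57853) (nat_lit 252) .nil)))))) (.g (nat_lit 5) .nil .nil))) 
(.lf (nat_lit 157880) (.g (nat_lit 3154) (.e (nat_lit 57423) (nat_lit 14) (.e (nat_lit 352277) (nat_lit 11) (.e (nat_lit 426308) (nat_lit 12) (.e (nat_lit 475212) (nat_lit 42) (.e (nat_lit 720931) (nat_lit 21) (.e (nat_lit 57852) (nat_lit 252) .nil)))))) (.g (nat_lit 0) .nil .nil))))) (.nd (nat_lit 3) (.nd (nat_lit 4) 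
(.lf (nat_lit 157860) (.g (nat_lit 3096) (.e (nat_lit 57423) (nat_lit 14) (.e (nat_lit 352277) (nat_lit 11) (.e (nat_lit 426190) (nat_lit 9) (.e (nat_lit 426448) (nat_lit 20) (.e (nat_lit 114710) (nat_lit 21) (.e (nat_lit 57844) (nat_lit 252) .nil)))))) (.g (nat_lit 6) .nil .nil))) 
(.lf (nat_lit 157876) (.g (nat_lit 1816) (.e (nat_lit 57423) (nat_lit 14) (.e (nat_lit 352277) (nat_lit 11) (.e (nat_lit 426307) (nat_lit 12) (.e (nat_lit 475214) (nat_lit 42) (.e (nat_lit 720931) (nat_lit 21) (.e (nat_lit 57851) (nat_lit 252) .nil)))))) (.g (nat_lit 4) .nil .nil)))) (.nd (nat_lit 4) 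
(.lf (nat_lit 157868) (.g (nat_lit 1847) (.e (nat_lit 57423) (nat_lit 14) (.e (nat_lit 352277) (nat_lit 11) (.e (nat_lit 426190) (nat_lit 9) (.e (nat_lit 426448) (nat_lit 20) (.e (nat_lit 114711) (nat_lit 21) (.e (nat_lit 57850) (nat_lit 252) .nil)))))) (.g (nat_lit 4) .nil .nil))) 
(.lf (nat_lit 157884) (.g (nat_lit 3346) (.e (nat_lit 57423) (nat_lit 14) (.e (nat_lit 352277) (nat_lit 11) (.e (nat_lit 426308) (nat_lit 12) (.e (nat_lit 475214) (nat_lit 42) (.e (nat_lit 720931) (nat_lit 21) (.e (nat_lit 57852) (nat_lit 252) .nil)))))) (.g (nat_lit 0) .nil .nil)))))) (.nd (nat_lit 2) (.nd (nat_lit 3) (.nd (nat_lit 4) 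
(.lf (nat_lit 157858) (.g (nat_lit 2989) (.e (nat_lit 57423) (nat_lit 14) (.e (nat_lit 352277) (nat_lit 11) (.e (nat_lit 426190) (nat_lit 9) (.e (nat_lit 426446) (nat_lit 20) (.e (nat_lit 114712) (nat_lit 21) (.e (nat_lit 57852) (nat_lit 252) .nil)))))) (.g (nat_lit 0) .nil .nil))) 
(.lf (nat_lit 157874) (.g (nat_lit 1647) (.e (nat_lit 57423) (nat_lit 14) (.e (nat_lit 352277) (nat_lit 11) (.e (nat_lit 426307) (nat_lit 12) (.e (nat_lit 475214) (nat_lit 42) (.e (nat_lit 720930) (nat_lit 21) (.e (nat_lit 57851) (nat_lit 252) .nil)))))) (.g (nat_lit 4) .nil .nil)))) (.nd (nat_lit 4) 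
(.lf (nat_lit 157866) (.g (nat_lit 3741) (.e (nat_lit 57423) (nat_lit 14) (.e (nat_lit 352277) (nat_lit 11) (.e (nat_lit 426190) (nat_lit 9) (.e (nat_lit 426448) (nat_lit 20) (.e (nat_lit 114711) (nat_lit 21) (.e (nat_lit 57846) (nat_lit 252) .nil)))))) (.g (nat_lit 0) .nil .nil))) 
(.lf (nat_lit 157882) (.g (nat_lit 3216) (.e (nat_lit 57423) (nat_lit 14) (.e (nat_lit 352277) (nat_lit 11) (.e (nat_lit 426308) (nat_lit 12) (.e (nat_lit 475212) (nat_lit 42) (.e (nat_lit 720934) (nat_lit 21) (.e (nat_lit 57852) (nat_lit 252) .nil)))))) (.g (nat_lit 0) .nil .nil))))) (.nd (nat_lit 3) (.nd (nat_lit 4) 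
(.lf (nat_lit 157862) (.g (nat_lit 3776) (.e (nat_lit 57423) (nat_lit 14) (.e (nat_lit 352277) (nat_lit 11) (.e (nat_lit 426190) (nat_lit 9) (.e (nat_lit 426448) (nat_lit 20) (.e (nat_lit 114710) (nat_lit 21) (.e (nat_lit 57847) (nat_lit 252) .nil)))))) (.g (nat_lit 0) .nil .nil))) 
(.lf (nat_lit 157878) (.g (nat_lit 1912) (.e (nat_lit 57423) (nat_lit 14) (.e (nat_lit 352277) (nat_lit 11) (.e (nat_lit 426307) (nat_lit 12) (.e (nat_lit 475214) (nat_lit 42) (.e (nat_lit 720934) (nat_lit 21) .nil))))) .nil))) (.nd (nat_lit 4) 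
(.lf (nat_lit 157870) (.g (nat_lit 3013) (.e (nat_lit 57423) (nat_lit 14) (.e (nat_lit 352277) (nat_lit 11) (.e (nat_lit 426190) (nat_lit 9) (.e (nat_lit 426448) (nat_lit 20) (.e (nat_lit 114712) (nat_lit 21) (.e (nat_lit 57852) (nat_lit 252) .nil)))))) (.g (nat_lit 0) .nil .nil))) 
(.lf (nat_lit 157886) (.g (nat_lit 2632) (.e (nat_lit 57423) (nat_lit 14) (.e (nat_lit 352277) (nat_lit 11) (.e (nat_lit 426308) (nat_lit 12) (.e (nat_lit 475214) (nat_lit 42) (.e (nat_lit 720932) (nat_lit 21) (.e (nat_lit 57852) (nat_lit 252) .nil)))))) (.g (nat_lit 4) .nil .nil))))))) (.nd (nat_lit 1) (.nd (nat_lit 2) (.nd (nat_lit 3) (.nd (nat_lit 4) 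
(.lf (nat_lit 157857) (.g (nat_lit 2058) (.e (nat_lit 57423) (nat_lit 14) (.e (nat_lit 352277) (nat_lit 11) (.e (nat_lit 426190) (nat_lit 9) (.e (nat_lit 426446) (nat_lit 20) (.e (nat_lit 114712) (nat_lit 21) (.e (nat_lit 57851) (nat_lit 252) .nil)))))) (.g (nat_lit 5) .nil .nil))) 
(.lf (nat_lit 157873) (.g (nat_lit 1651) (.e (nat_lit 57423) (nat_lit 14) (.e (nat_lit 352277) (nat_lit 11) (.e (nat_lit 426307) (nat_lit 12) (.e (nat_lit 475212) (nat_lit 42) (.e (nat_lit 720931) (nat_lit 21) (.e (nat_lit 57851) (nat_lit 252) .nil)))))) (.g (nat_lit 4) .nil .nil)))) (.nd (nat_lit 4) 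
(.lf (nat_lit 157865) (.g (nat_lit 3480) (.e (nat_lit 57423) (nat_lit 14) (.e (nat_lit 352277) (nat_lit 11) (.e (nat_lit 426190) (nat_lit 9) (.e (nat_lit 426448) (nat_lit 20) (.e (nat_lit 114711) (nat_lit 21) (.e (nat_lit 57844) (nat_lit 252) .nil)))))) (.g (nat_lit 6) .nil .nil))) 
(.lf (nat_lit 157881) (.g (nat_lit 2315) (.e (nat_lit 57423) (nat_lit 14) (.e (nat_lit 352277) (nat_lit 11) (.e (nat_lit 426308) (nat_lit 12) (.e (nat_lit 475212) (nat_lit 42) (.e (nat_lit 720933) (nat_lit 21) (.e (nat_lit 57846) (nat_lit 252) .nil)))))) (.g (nat_lit 4) .nil .nil))))) (.nd (nat_lit 3) (.nd (nat_lit 4) 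
(.lf (nat_lit 157861) (.g (nat_lit 3778) (.e (nat_lit 57423) (nat_lit 14) (.e (nat_lit 352277) (nat_lit 11) (.e (nat_lit 426190) (nat_lit 9) (.e (nat_lit 426448) (nat_lit 20) (.e (nat_lit 114710) (nat_lit 21) (.e (nat_lit 57846) (nat_lit 252) .nil)))))) (.g (nat_lit 0) .nil .nil))) 
(.lf (nat_lit 157877) (.g (nat_lit 2110) (.e (nat_lit 57423) (nat_lit 14) (.e (nat_lit 352277) (nat_lit 11) (.e (nat_lit 426307) (nat_lit 12) (.e (nat_lit 475214) (nat_lit 42) (.e (nat_lit 720931) (nat_lit 21) (.e (nat_lit 57852) (nat_lit 252) .nil)))))) (.g (nat_lit 5) .nil .nil)))) (.nd (nat_lit 4) 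
(.lf (nat_lit 157869) (.g (nat_lit 1922) (.e (nat_lit 57423) (nat_lit 14) (.e (nat_lit 352277) (nat_lit 11) (.e (nat_lit 426190) (nat_lit 9) (.e (nat_lit 426448) (nat_lit 20) (.e (nat_lit 114712) (nat_lit 21) (.e (nat_lit 57851) (nat_lit 252) .nil)))))) (.g (nat_lit 4) .nil .nil))) 
(.lf (nat_lit 157885) (.g (nat_lit 2181) (.e (nat_lit 57423) (nat_lit 14) (.e (nat_lit 352277) (nat_lit 11) (.e (nat_lit 426308) (nat_lit 12) (.e (nat_lit 475214) (nat_lit 42) (.e (nat_lit 720932) (nat_lit 21) .nil))))) .nil))))) (.nd (nat_lit 2) (.nd (nat_lit 3) (.nd (nat_lit 4) 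
(.lf (nat_lit 157859) (.g (nat_lit 2212) (.e (nat_lit 57423) (nat_lit 14) (.e (nat_lit 352277) (nat_lit 11) (.e (nat_lit 426190) (nat_lit 9) (.e (nat_lit 426446) (nat_lit 20) (.e (nat_lit 114712) (nat_lit 21) (.e (nat_lit 57854) (nat_lit 252) .nil)))))) (.g (nat_lit 4) .nil .nil))) 
(.lf (nat_lit 157875) (.g (nat_lit 1765) (.e (nat_lit 57423) (nat_lit 14) (.e (nat_lit 352277) (nat_lit 11) (.e (nat_lit 426307) (nat_lit 12) (.e (nat_lit 475214) (nat_lit 42) (.e (nat_lit 720930) (nat_lit 21) (.e (nat_lit 57852) (nat_lit 252) .nil)))))) (.g (nat_lit 4) .nil .nil)))) (.nd (nat_lit 4) 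
(.lf (nat_lit 157867) (.g (nat_lit 3664) (.e (nat_lit 57423) (nat_lit 14) (.e (nat_lit 352277) (nat_lit 11) (.e (nat_lit 426190) (nat_lit 9) (.e (nat_lit 426448) (nat_lit 20) (.e (nat_lit 114711) (nat_lit 21) (.e (nat_lit 57847) (nat_lit 252) .nil)))))) (.g (nat_lit 6) .nil .nil))) 
(.lf (nat_lit 157883) (.g (nat_lit 3045) (.e (nat_lit 57423) (nat_lit 14) (.e (nat_lit 352277) (nat_lit 11) (.e (nat_lit 426308) (nat_lit 12) (.e (nat_lit 475214) (nat_lit 42) (.e (nat_lit 720930) (nat_lit 21) (.e (nat_lit 57852) (nat_lit 252) .nil)))))) (.g (nat_lit 0) .nil .nil))))) (.nd (nat_lit 3) (.nd (nat_lit 4) 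
(.lf (nat_lit 157863) (.g (nat_lit 3494) (.e (nat_lit 57423) (nat_lit 14) (.e (nat_lit 352277) (nat_lit 11) (.e (nat_lit 426190) (nat_lit 9) (.e (nat_lit 426448) (nat_lit 20) (.e (nat_lit 114710) (nat_lit 21) (.e (nat_lit 57852) (nat_lit 252) .nil)))))) (.g (nat_lit 0) .nil .nil))) 
(.lf (nat_lit 157879) (.g (nat_lit 414) (.e (nat_lit 57423) (nat_lit 14) (.e (nat_lit 352277) (nat_lit 11) (.e (nat_lit 426308) (nat_lit 12) .nil))) .nil))) (.nd (nat_lit 4) 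
(.lf (nat_lit 157871) (.g (nat_lit 2190) (.e (nat_lit 57423) (nat_lit 14) (.e (nat_lit 352277) (nat_lit 11) (.e (nat_lit 426190) (nat_lit 9) (.e (nat_lit 426448) (nat_lit 20) (.e (nat_lit 114712) (nat_lit 21) (.e (nat_lit 57853) (nat_lit 252) .nil)))))) (.g (nat_lit 4) .nil .nil))) 
(.lf (nat_lit 157887) (.g (nat_lit 2274) (.e (nat_lit 57423) (nat_lit 14) (.e (nat_lit 352277) (nat_lit 11) (.e (nat_lit 426308) (nat_lit 12) (.e (nat_lit 475214) (nat_lit 42) (.e (nat_lit 720933) (nat_lit 21) (.e (nat_lit 57844) (nat_lit 252) .nil)))))) (.g (nat_lit 4) .nil .nil))))))))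

noncomputable def tv2114 : DT := (.nd (nat_lit 0) (.nd (nat_lit 1) (.nd (nat_lit 2) (.nd (nat_lit 3) (.nd (nat_lit 4) (.nd (nat_lit 5) 
(.lf (nat_lit 157888) (.g (nat_lit 2168) (.e (nat_lit 57423) (nat_lit 14) (.e (nat_lit 352277) (nat_lit 11) (.e (nat_lit 426308) (nat_lit 12) (.e (nat_lit 475214) (nat_lit 42) (.e (nat_lit 720934) (nat_lit 21) .nil))))) .nil)) 
(.lf (nat_lit 157920) (.g (nat_lit 1757) (.e (nat_lit 57423) (nat_lit 14) (.e (nat_lit 352309) (nat_lit 21) (.e (nat_lit 57683) (nat_lit 155) (.e (nat_lit 122919) (nat_lit 15) .nil)))) .nil))) (.nd (nat_lit 5) 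
(.lf (nat_lit 157904) (.g (nat_lit 3501) (.e (nat_lit 57423) (nat_lit 14) (.e (nat_lit 352277) (nat_lit 11) (.e (nat_lit 426344) (nat_lit 14) (.e (nat_lit 491558) (nat_lit 10) (.e (nat_lit 344090) (nat_lit 18) (.e (nat_lit 7266) (nat_lit 384) .nil)))))) (.g (nat_lit 0) .nil .nil))) 
(.lf (nat_lit 157936) (.g (nat_lit 2608) (.e (nat_lit 57423) (nat_lit 14) (.e (nat_lit 352318) (nat_lit 24) (.e (nat_lit 123195) (nat_lit 266) (.e (nat_lit 57424) (nat_lit 14) (.e (nat_lit 352318) (nat_lit 24) (.e (nat_lit 123197) (nat_lit 266) .nil)))))) (.g (nat_lit 4) .nil .nil))))) (.nd (nat_lit 4) (.nd (nat_lit 5) 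
(.lf (nat_lit 157896) (.g (nat_lit 3734) (.e (nat_lit 57423) (nat_lit 14) (.e (nat_lit 352277) (nat_lit 11) (.e (nat_lit 426343) (nat_lit 14) (.e (nat_lit 491558) (nat_lit 10) (.e (nat_lit 344090) (nat_lit 18) (.e (nat_lit 7266) (nat_lit 384) .nil)))))) (.g (nat_lit 0) .nil .nil))) 
(.lf (nat_lit 157928) (.g (nat_lit 1595) (.e (nat_lit 57423) (nat_lit 14) (.e (nat_lit 352318) (nat_lit 24) (.e (nat_lit 123182) (nat_lit 264) (.e (nat_lit 1224) (nat_lit 90) .nil)))) .nil))) (.nd (nat_lit 5) 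
(.lf (nat_lit 157912) (.g (nat_lit 3607) (.e (nat_lit 57423) (nat_lit 14) (.e (nat_lit 352277) (nat_lit 11) (.e (nat_lit 426344) (nat_lit 14) (.e (nat_lit 491560) (nat_lit 10) (.e (nat_lit 344094) (nat_lit 18) (.e (nat_lit 7266) (nat_lit 384) .nil)))))) (.g (nat_lit 0) .nil .nil))) 
(.lf (nat_lit 157944) (.g (nat_lit 2561) (.e (nat_lit 57423) (nat_lit 14) (.e (nat_lit 352318) (nat_lit 24) (.e (nat_lit 123198) (nat_lit 266) (.e (nat_lit 57424) (nat_lit 14) (.e (nat_lit 352316) (nat_lit 24) .nil))))) .nil))))) (.nd (nat_lit 3) (.nd (nat_lit 4) (.nd (nat_lit 5) 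
(.lf (nat_lit 157892) (.g (nat_lit 3450) (.e (nat_lit 57423) (nat_lit 14) (.e (nat_lit 352277) (nat_lit 11) (.e (nat_lit 426342) (nat_lit 14) (.e (nat_lit 491558) (nat_lit 10) (.e (nat_lit 344096) (nat_lit 18) (.e (nat_lit 7266) (nat_lit 384) .nil)))))) (.g (nat_lit 0) .nil .nil))) 
(.lf (nat_lit 157924) (.g (nat_lit 875) (.e (nat_lit 57423) (nat_lit 14) (.e (nat_lit 352315) (nat_lit 23) (.e (nat_lit 98387) (nat_lit 33) .nil))) .nil))) (.nd (nat_lit 5) 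
(.lf (nat_lit 157908) (.g (nat_lit 2118) (.e (nat_lit 57423) (nat_lit 14) (.e (nat_lit 352277) (nat_lit 11) (.e (nat_lit 426344) (nat_lit 14) (.e (nat_lit 491560) (nat_lit 10) (.e (nat_lit 344088) (nat_lit 18) .nil))))) .nil)) 
(.lf (nat_lit 157940) (.g (nat_lit 3497) (.e (nat_lit 57423) (nat_lit 14) (.e (nat_lit 352318) (nat_lit 24) (.e (nat_lit 123197) (nat_lit 266) (.e (nat_lit 57424) (nat_lit 14) (.e (nat_lit 352318) (nat_lit 24) (.e (nat_lit 123197) (nat_lit 266) .nil)))))) (.g (nat_lit 5) .nil .nil))))) (.nd (nat_lit 4) (.nd (nat_lit 5) 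
(.lf (nat_lit 157900) (.g (nat_lit 3996) (.e (nat_lit 57423) (nat_lit 14) (.e (nat_lit 352277) (nat_lit 11) (.e (nat_lit 426343) (nat_lit 14) (.e (nat_lit 491560) (nat_lit 10) (.e (nat_lit 344090) (nat_lit 18) (.e (nat_lit 7266) (nat_lit 384) .nil)))))) (.g (nat_lit 0) .nil .nil))) 
(.lf (nat_lit 157932) (.g (nat_lit 2114) (.e (nat_lit 57423) (nat_lit 14) (.e (nat_lit 352318) (nat_lit 24) (.e (nat_lit 123184) (nat_lit 264) (.e (nat_lit 1224) (nat_lit 90) (.e (nat_lit 81957) (nat_lit 24) (.e (nat_lit 123198) (nat_lit 266) .nil)))))) (.g (nat_lit 4) .nil .nil)))) (.nd (nat_lit 5) 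
(.lf (nat_lit 157916) (.g (nat_lit 708) (.e (nat_lit 57423) (nat_lit 14) (.e (nat_lit 352307) (nat_lit 21) (.e (nat_lit 57683) (nat_lit 155) .nil))) .nil)) 
(.lf (nat_lit 157948) (.g (nat_lit 1217) (.e (nat_lit 57423) (nat_lit 14) (.e (nat_lit 352322) (nat_lit 26) (.e (nat_lit 147495) (nat_lit 11) (.e (nat_lit 24639) (nat_lit 10) .nil)))) .nil)))))) (.nd (nat_lit 2) (.nd (nat_lit 3) (.nd (nat_lit 4) (.nd (nat_lit 5) 
(.lf (nat_lit 157890) (.g (nat_lit 2595) (.e (nat_lit 57423) (nat_lit 14) (.e (nat_lit 352277) (nat_lit 11) (.e (nat_lit 426308) (nat_lit 12) (.e (nat_lit 475214) (nat_lit 42) (.e (nat_lit 720934) (nat_lit 21) (.e (nat_lit 57852) (nat_lit 252) .nil)))))) (.g (nat_lit 4) .nil .nil))) 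
(.lf (nat_lit 157922) (.g (nat_lit 1681) (.e (nat_lit 57423) (nat_lit 14) (.e (nat_lit 352309) (nat_lit 21) (.e (nat_lit 57684) (nat_lit 155) (.e (nat_lit 122919) (nat_lit 15) .nil)))) .nil))) (.nd (nat_lit 5) 
(.lf (nat_lit 157906) (.g (nat_lit 3911) (.e (nat_lit 57423) (nat_lit 14) (.e (nat_lit 352277) (nat_lit 11) (.e (nat_lit 426344) (nat_lit 14) (.e (nat_lit 491558) (nat_lit 10) (.e (nat_lit 344096) (nat_lit 18) (.e (nat_lit 7266) (nat_lit 384) .nil)))))) (.g (nat_lit 0) .nil .nil))) 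
(.lf (nat_lit 157938) (.g (nat_lit 3046) (.e (nat_lit 57423) (nat_lit 14) (.e (nat_lit 352318) (nat_lit 24) (.e (nat_lit 123197) (nat_lit 266) (.e (nat_lit 57423) (nat_lit 14) (.e (nat_lit 352318) (nat_lit 24) (.e (nat_lit 123197) (nat_lit 266) .nil)))))) (.g (nat_lit 5) .nil .nil))))) (.nd (nat_lit 4) (.nd (nat_lit 5) 
(.lf (nat_lit 157898) (.g (nat_lit 4126) (.e (nat_lit 57423) (nat_lit 14) (.e (nat_lit 352277) (nat_lit 11) (.e (nat_lit 426343) (nat_lit 14) (.e (nat_lit 491558) (nat_lit 10) (.e (nat_lit 344096) (nat_lit 18) (.e (nat_lit 7266) (nat_lit 384) .nil)))))) (.g (nat_lit 0) .nil .nil))) 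
(.lf (nat_lit 157930) (.g (nat_lit 1950) (.e (nat_lit 57423) (nat_lit 14) (.e (nat_lit 352318) (nat_lit 24) (.e (nat_lit 123183) (nat_lit 264) (.e (nat_lit 1222) (nat_lit 90) (.e (nat_lit 81959) (nat_lit 24) .nil))))) .nil))) (.nd (nat_lit 5) 
(.lf (nat_lit 157914) (.g (nat_lit 752) (.e (nat_lit 57423) (nat_lit 14) (.e (nat_lit 352307) (nat_lit 21) (.e (nat_lit 57681) (nat_lit 155) .nil))) .nil)) 
(.lf (nat_lit 157946) (.g (nat_lit 2200) (.e (nat_lit 57423) (nat_lit 14) (.e (nat_lit 352318) (nat_lit 24) (.e (nat_lit 123198) (nat_lit 266) (.e (nat_lit 57427) (nat_lit 15) (.e (nat_lit 360456) (nat_lit 0) (.e (nat_lit 5949) (nat_lit 322) .nil)))))) (.g (nat_lit 4) .nil .nil)))))) (.nd (nat_lit 3) (.nd (nat_lit 4) (.nd (nat_lit 5) 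
(.lf (nat_lit 157894) (.g (nat_lit 2575) (.e (nat_lit 57423) (nat_lit 14) (.e (nat_lit 352277) (nat_lit 11) (.e (nat_lit 426342) (nat_lit 14) (.e (nat_lit 491560) (nat_lit 10) (.e (nat_lit 344096) (nat_lit 18) (.e (nat_lit 7261) (nat_lit 384) .nil)))))) (.g (nat_lit 5) .nil .nil))) 
(.lf (nat_lit 157926) (.g (nat_lit 2591) (.e (nat_lit 57423) (nat_lit 14) (.e (nat_lit 352318) (nat_lit 24) (.e (nat_lit 123182) (nat_lit 264) (.e (nat_lit 1222) (nat_lit 90) (.e (nat_lit 81959) (nat_lit 24) (.e (nat_lit 123197) (nat_lit 266) .nil)))))) (.g (nat_lit 4) .nil .nil)))) (.nd (nat_lit 5) 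
(.lf (nat_lit 157910) (.g (nat_lit 2380) (.e (nat_lit 57423) (nat_lit 14) (.e (nat_lit 352277) (nat_lit 11) (.e (nat_lit 426344) (nat_lit 14) (.e (nat_lit 491560) (nat_lit 10) (.e (nat_lit 344089) (nat_lit 18) (.e (nat_lit 7259) (nat_lit 384) .nil)))))) (.g (nat_lit 4) .nil .nil))) 
(.lf (nat_lit 157942) (.g (nat_lit 2349) (.e (nat_lit 57423) (nat_lit 14) (.e (nat_lit 352318) (nat_lit 24) (.e (nat_lit 123197) (nat_lit 266) (.e (nat_lit 57427) (nat_lit 15) (.e (nat_lit 360457) (nat_lit 0) (.e (nat_lit 5949) (nat_lit 322) .nil)))))) (.g (nat_lit 4) .nil .nil))))) (.nd (nat_lit 4) (.nd (nat_lit 5) 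
(.lf (nat_lit 157902) (.g (nat_lit 2488) (.e (nat_lit 57423) (nat_lit 14) (.e (nat_lit 352277) (nat_lit 11) (.e (nat_lit 426343) (nat_lit 14) (.e (nat_lit 491560) (nat_lit 10) (.e (nat_lit 344095) (nat_lit 18) .nil))))) .nil)) 
(.lf (nat_lit 157934) (.g (nat_lit 958) (.e (nat_lit 57423) (nat_lit 14) (.e (nat_lit 352318) (nat_lit 24) (.e (nat_lit 123185) (nat_lit 264) (.e (nat_lit 7936) (nat_lit 90) .nil)))) .nil))) (.nd (nat_lit 5) 
(.lf (nat_lit 157918) (.g (nat_lit 2002) (.e (nat_lit 57423) (nat_lit 14) (.e (nat_lit 352309) (nat_lit 21) (.e (nat_lit 57681) (nat_lit 155) (.e (nat_lit 122919) (nat_lit 15) (.e (nat_lit 360451) (nat_lit 0) .nil))))) .nil)) 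
(.lf (nat_lit 157950) (.g (nat_lit 2186) (.e (nat_lit 57423) (nat_lit 14) (.e (nat_lit 352322) (nat_lit 26) (.e (nat_lit 147495) (nat_lit 11) (.e (nat_lit 24640) (nat_lit 10) (.e (nat_lit 344096) (nat_lit 18) .nil))))) .nil))))))) (.nd (nat_lit 1) (.nd (nat_lit 2) (.nd (nat_lit 3) (.nd (nat_lit 4) (.nd (nat_lit 5) 
(.lf (nat_lit 157889) (.g (nat_lit 2174) (.e (nat_lit 57423) (nat_lit 14) (.e (nat_lit 352277) (nat_lit 11) (.e (nat_lit 426308) (nat_lit 12) (.e (nat_lit 475214) (nat_lit 42) (.e (nat_lit 720934) (nat_lit 21) (.e (nat_lit 57851) (nat_lit 252) .nil)))))) (.g (nat_lit 4) .nil .nil))) 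
(.lf (nat_lit 157921) (.g (nat_lit 863) (.e (nat_lit 57423) (nat_lit 14) (.e (nat_lit 352309) (nat_lit 21) (.e (nat_lit 57684) (nat_lit 155) .nil))) .nil))) (.nd (nat_lit 5) 
(.lf (nat_lit 157905) (.g (nat_lit 3777) (.e (nat_lit 57423) (nat_lit 14) (.e (nat_lit 352277) (nat_lit 11) (.e (nat_lit 426344) (nat_lit 14) (.e (nat_lit 491558) (nat_lit 10) (.e (nat_lit 344091) (nat_lit 18) (.e (nat_lit 7266) (nat_lit 384) .nil)))))) (.g (nat_lit 0) .nil .nil))) 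
(.lf (nat_lit 157937) (.g (nat_lit 573) (.e (nat_lit 57423) (nat_lit 14) (.e (nat_lit 352318) (nat_lit 24) (.e (nat_lit 123197) (nat_lit 266) .nil))) .nil)))) (.nd (nat_lit 4) (.nd (nat_lit 5) 
(.lf (nat_lit 157897) (.g (nat_lit 3989) (.e (nat_lit 57423) (nat_lit 14) (.e (nat_lit 352277) (nat_lit 11) (.e (nat_lit 426343) (nat_lit 14) (.e (nat_lit 491558) (nat_lit 10) (.e (nat_lit 344091) (nat_lit 18) (.e (nat_lit 7266) (nat_lit 384) .nil)))))) (.g (nat_lit 0) .nil .nil))) 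
(.lf (nat_lit 157929) (.g (nat_lit 2321) (.e (nat_lit 57423) (nat_lit 14) (.e (nat_lit 352318) (nat_lit 24) (.e (nat_lit 123182) (nat_lit 264) (.e (nat_lit 1224) (nat_lit 90) (.e (nat_lit 81957) (nat_lit 24) .nil))))) .nil))) (.nd (nat_lit 5) 
(.lf (nat_lit 157913) (.g (nat_lit 2618) (.e (nat_lit 57423) (nat_lit 14) (.e (nat_lit 352277) (nat_lit 11) (.e (nat_lit 426344) (nat_lit 14) (.e (nat_lit 491560) (nat_lit 10) (.e (nat_lit 344096) (nat_lit 18) (.e (nat_lit 7261) (nat_lit 384) .nil)))))) (.g (nat_lit 5) .nil .nil))) 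
(.lf (nat_lit 157945) (.g (nat_lit 3372) (.e (nat_lit 57423) (nat_lit 14) (.e (nat_lit 352318) (nat_lit 24) (.e (nat_lit 123198) (nat_lit 266) (.e (nat_lit 57424) (nat_lit 14) (.e (nat_lit 352318) (nat_lit 24) (.e (nat_lit 123197) (nat_lit 266) .nil)))))) (.g (nat_lit 5) .nil .nil)))))) (.nd (nat_lit 3) (.nd (nat_lit 4) (.nd (nat_lit 5) 
(.lf (nat_lit 157893) (.g (nat_lit 2271) (.e (nat_lit 57423) (nat_lit 14) (.e (nat_lit 352277) (nat_lit 11) (.e (nat_lit 426342) (nat_lit 14) (.e (nat_lit 491560) (nat_lit 10) (.e (nat_lit 344095) (nat_lit 18) (.e (nat_lit 7261) (nat_lit 384) .nil)))))) (.g (nat_lit 4) .nil .nil))) 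
(.lf (nat_lit 157925) (.g (nat_lit 1793) (.e (nat_lit 57423) (nat_lit 14) (.e (nat_lit 352318) (nat_lit 24) (.e (nat_lit 123182) (nat_lit 264) (.e (nat_lit 1218) (nat_lit 90) (.e (nat_lit 81959) (nat_lit 24) .nil))))) .nil))) (.nd (nat_lit 5) 
(.lf (nat_lit 157909) (.g (nat_lit 2336) (.e (nat_lit 57423) (nat_lit 14) (.e (nat_lit 352277) (nat_lit 11) (.e (nat_lit 426344) (nat_lit 14) (.e (nat_lit 491560) (nat_lit 10) (.e (nat_lit 344089) (nat_lit 18) .nil))))) .nil)) 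
(.lf (nat_lit 157941) (.g (nat_lit 1819) (.e (nat_lit 57423) (nat_lit 14) (.e (nat_lit 352318) (nat_lit 24) (.e (nat_lit 123197) (nat_lit 266) (.e (nat_lit 57426) (nat_lit 15) (.e (nat_lit 360457) (nat_lit 0) .nil))))) .nil)))) (.nd (nat_lit 4) (.nd (nat_lit 5) 
(.lf (nat_lit 157901) (.g (nat_lit 3749) (.e (nat_lit 57423) (nat_lit 14) (.e (nat_lit 352277) (nat_lit 11) (.e (nat_lit 426343) (nat_lit 14) (.e (nat_lit 491560) (nat_lit 10) (.e (nat_lit 344091) (nat_lit 18) (.e (nat_lit 7266) (nat_lit 384) .nil)))))) (.g (nat_lit 0) .nil .nil))) 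
(.lf (nat_lit 157933) (.g (nat_lit 1155) (.e (nat_lit 57423) (nat_lit 14) (.e (nat_lit 352318) (nat_lit 24) (.e (nat_lit 123184) (nat_lit 264) (.e (nat_lit 7936) (nat_lit 90) .nil)))) .nil))) (.nd (nat_lit 5) 
(.lf (nat_lit 157917) (.g (nat_lit 2177) (.e (nat_lit 57423) (nat_lit 14) (.e (nat_lit 352308) (nat_lit 21) (.e (nat_lit 57681) (nat_lit 155) (.e (nat_lit 122919) (nat_lit 15) (.e (nat_lit 360451) (nat_lit 0) (.e (nat_lit 7261) (nat_lit 384) .nil)))))) (.g (nat_lit 5) .nil .nil))) 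
(.lf (nat_lit 157949) (.g (nat_lit 1233) (.e (nat_lit 57423) (nat_lit 14) (.e (nat_lit 352322) (nat_lit 26) (.e (nat_lit 147495) (nat_lit 11) (.e (nat_lit 24640) (nat_lit 10) .nil)))) .nil)))))) (.nd (nat_lit 2) (.nd (nat_lit 3) (.nd (nat_lit 4) (.nd (nat_lit 5) 
(.lf (nat_lit 157891) (.g (nat_lit 1126) (.e (nat_lit 57423) (nat_lit 14) (.e (nat_lit 352277) (nat_lit 11) (.e (nat_lit 426341) (nat_lit 14) (.e (nat_lit 491560) (nat_lit 10) .nil)))) .nil)) 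
(.lf (nat_lit 157923) (.g (nat_lit 1717) (.e (nat_lit 57423) (nat_lit 14) (.e (nat_lit 352309) (nat_lit 21) (.e (nat_lit 57872) (nat_lit 264) (.e (nat_lit 1219) (nat_lit 90) (.e (nat_lit 81957) (nat_lit 24) .nil))))) .nil))) (.nd (nat_lit 5) 
(.lf (nat_lit 157907) (.g (nat_lit 2070) (.e (nat_lit 57423) (nat_lit 14) (.e (nat_lit 352277) (nat_lit 11) (.e (nat_lit 426344) (nat_lit 14) (.e (nat_lit 491560) (nat_lit 10) (.e (nat_lit 344087) (nat_lit 18) .nil))))) .nil)) 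
(.lf (nat_lit 157939) (.g (nat_lit 2323) (.e (nat_lit 57423) (nat_lit 14) (.e (nat_lit 352318) (nat_lit 24) (.e (nat_lit 123197) (nat_lit 266) (.e (nat_lit 57423) (nat_lit 14) (.e (nat_lit 352318) (nat_lit 24) (.e (nat_lit 123198) (nat_lit 266) .nil)))))) (.g (nat_lit 4) .nil .nil))))) (.nd (nat_lit 4) (.nd (nat_lit 5) 
(.lf (nat_lit 157899) (.g (nat_lit 2437) (.e (nat_lit 57423) (nat_lit 14) (.e (nat_lit 352277) (nat_lit 11) (.e (nat_lit 426343) (nat_lit 14) (.e (nat_lit 491560) (nat_lit 10) (.e (nat_lit 344087) (nat_lit 18) .nil))))) .nil)) 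
(.lf (nat_lit 157931) (.g (nat_lit 2194) (.e (nat_lit 57423) (nat_lit 14) (.e (nat_lit 352318) (nat_lit 24) (.e (nat_lit 123184) (nat_lit 264) (.e (nat_lit 1222) (nat_lit 90) (.e (nat_lit 81959) (nat_lit 24) .nil))))) .nil))) (.nd (nat_lit 5) 
(.lf (nat_lit 157915) (.g (nat_lit 2369) (.e (nat_lit 57423) (nat_lit 14) (.e (nat_lit 352307) (nat_lit 21) (.e (nat_lit 57681) (nat_lit 155) (.e (nat_lit 122919) (nat_lit 15) (.e (nat_lit 360451) (nat_lit 0) .nil))))) .nil)) 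
(.lf (nat_lit 157947) (.g (nat_lit 750) (.e (nat_lit 57423) (nat_lit 14) (.e (nat_lit 352318) (nat_lit 24) (.e (nat_lit 123199) (nat_lit 267) .nil))) .nil))))) (.nd (nat_lit 3) (.nd (nat_lit 4) (.nd (nat_lit 5) 
(.lf (nat_lit 157895) (.g (nat_lit 1019) (.e (nat_lit 57423) (nat_lit 14) (.e (nat_lit 352277) (nat_lit 11) (.e (nat_lit 426343) (nat_lit 14) (.e (nat_lit 491558) (nat_lit 10) .nil)))) .nil)) 
(.lf (nat_lit 157927) (.g (nat_lit 2320) (.e (nat_lit 57423) (nat_lit 14) (.e (nat_lit 352318) (nat_lit 24) (.e (nat_lit 123182) (nat_lit 264) (.e (nat_lit 1222) (nat_lit 90) (.e (nat_lit 81959) (nat_lit 24) (.e (nat_lit 123198) (nat_lit 266) .nil)))))) (.g (nat_lit 4) .nil .nil)))) (.nd (nat_lit 5) 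
(.lf (nat_lit 157911) (.g (nat_lit 3812) (.e (nat_lit 57423) (nat_lit 14) (.e (nat_lit 352277) (nat_lit 11) (.e (nat_lit 426344) (nat_lit 14) (.e (nat_lit 491560) (nat_lit 10) (.e (nat_lit 344090) (nat_lit 18) (.e (nat_lit 7266) (nat_lit 384) .nil)))))) (.g (nat_lit 0) .nil .nil))) 
(.lf (nat_lit 157943) (.g (nat_lit 1845) (.e (nat_lit 57423) (nat_lit 14) (.e (nat_lit 352318) (nat_lit 24) (.e (nat_lit 123198) (nat_lit 266) (.e (nat_lit 57423) (nat_lit 14) (.e (nat_lit 352318) (nat_lit 24) .nil))))) .nil)))) (.nd (nat_lit 4) (.nd (nat_lit 5) 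
(.lf (nat_lit 157903) (.g (nat_lit 2902) (.e (nat_lit 57423) (nat_lit 14) (.e (nat_lit 352277) (nat_lit 11) (.e (nat_lit 426343) (nat_lit 14) (.e (nat_lit 491560) (nat_lit 10) (.e (nat_lit 344096) (nat_lit 18) (.e (nat_lit 7261) (nat_lit 384) .nil)))))) (.g (nat_lit 5) .nil .nil))) 
(.lf (nat_lit 157935) (.g (nat_lit 2092) (.e (nat_lit 57423) (nat_lit 14) (.e (nat_lit 352318) (nat_lit 24) (.e (nat_lit 123195) (nat_lit 266) (.e (nat_lit 57424) (nat_lit 14) (.e (nat_lit 352318) (nat_lit 24) .nil))))) .nil))) (.nd (nat_lit 5) 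
(.lf (nat_lit 157919) (.g (nat_lit 950) (.e (nat_lit 57423) (nat_lit 14) (.e (nat_lit 352309) (nat_lit 21) (.e (nat_lit 57682) (nat_lit 155) .nil))) .nil)) 
(.lf (nat_lit 157951) (.g (nat_lit 574) (.e (nat_lit 57423) (nat_lit 14) (.e (nat_lit 352322) (nat_lit 26) (.e (nat_lit 147496) (nat_lit 11) .nil))) .nil))))))))

noncomputable def tv2115 : DT := (.nd (nat_lit 0) (.nd (nat_lit 1) (.nd (nat_lit 2) (.nd (nat_lit 3) (.nd (nat_lit 4) (.nd (nat_lit 5) 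
(.lf (nat_lit 157952) (.g (nat_lit 1269) (.e (nat_lit 57423) (nat_lit 14) (.e (nat_lit 352322) (nat_lit 26) (.e (nat_lit 147496) (nat_lit 11) (.e (nat_lit 24640) (nat_lit 10) .nil)))) .nil)) 
(.lf (nat_lit 157984) (.g (nat_lit 1917) (.e (nat_lit 57424) (nat_lit 14) (.e (nat_lit 352273) (nat_lit 11) (.e (nat_lit 426307) (nat_lit 12) (.e (nat_lit 475214) (nat_lit 42) (.e (nat_lit 720933) (nat_lit 21) (.e (nat_lit 57844) (nat_lit 252) .nil)))))) (.g (nat_lit 4) .nil .nil)))) (.nd (nat_lit 5) 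
(.lf (nat_lit 157968) (.g (nat_lit 1393) (.e (nat_lit 57424) (nat_lit 14) (.e (nat_lit 352272) (nat_lit 10) (.e (nat_lit 417796) (nat_lit 0) (.e (nat_lit 5409) (nat_lit 303) (.e (nat_lit 73737) (nat_lit 0) (.e (nat_lit 7936) (nat_lit 384) .nil)))))) (.g (nat_lit 4) .nil .nil))) 
(.lf (nat_lit 158000) (.g (nat_lit 1835) (.e (nat_lit 57424) (nat_lit 14) (.e (nat_lit 352274) (nat_lit 11) (.e (nat_lit 426307) (nat_lit 12) (.e (nat_lit 475214) (nat_lit 42) (.e (nat_lit 720934) (nat_lit 21) (.e (nat_lit 57851) (nat_lit 252) .nil)))))) (.g (nat_lit 4) .nil .nil))))) (.nd (nat_lit 4) (.nd (nat_lit 5) 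
(.lf (nat_lit 157960) (.g (nat_lit 1508) (.e (nat_lit 57424) (nat_lit 14) (.e (nat_lit 352262) (nat_lit 0) (.e (nat_lit 3748) (nat_lit 228) (.e (nat_lit 786479) (nat_lit 29) (.e (nat_lit 352318) (nat_lit 24) .nil))))) .nil)) 
(.lf (nat_lit 157992) (.g (nat_lit 1855) (.e (nat_lit 57424) (nat_lit 14) (.e (nat_lit 352273) (nat_lit 11) (.e (nat_lit 426343) (nat_lit 14) (.e (nat_lit 491558) (nat_lit 10) (.e (nat_lit 344090) (nat_lit 18) .nil))))) .nil))) (.nd (nat_lit 5) 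
(.lf (nat_lit 157976) (.g (nat_lit 2547) (.e (nat_lit 57424) (nat_lit 14) (.e (nat_lit 352273) (nat_lit 11) (.e (nat_lit 426190) (nat_lit 9) (.e (nat_lit 426446) (nat_lit 20) (.e (nat_lit 114710) (nat_lit 21) (.e (nat_lit 57844) (nat_lit 252) .nil)))))) (.g (nat_lit 5) .nil .nil))) 
(.lf (nat_lit 158008) (.g (nat_lit 3049) (.e (nat_lit 57424) (nat_lit 14) (.e (nat_lit 352277) (nat_lit 11) (.e (nat_lit 426009) (nat_lit 0) (.e (nat_lit 7593) (nat_lit 407) (.e (nat_lit 73729) (nat_lit 0) (.e (nat_lit 7266) (nat_lit 384) .nil)))))) (.g (nat_lit 0) .nil .nil)))))) (.nd (nat_lit 3) (.nd (nat_lit 4) (.nd (nat_lit 5) 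
(.lf (nat_lit 157956) (.g (nat_lit 1694) (.e (nat_lit 57423) (nat_lit 14) (.e (nat_lit 352324) (nat_lit 26) (.e (nat_lit 147495) (nat_lit 11) (.e (nat_lit 24640) (nat_lit 10) .nil)))) .nil)) 
(.lf (nat_lit 157988) (.g (nat_lit 2432) (.e (nat_lit 57424) (nat_lit 14) (.e (nat_lit 352273) (nat_lit 11) (.e (nat_lit 426316) (nat_lit 12) (.e (nat_lit 475212) (nat_lit 42) (.e (nat_lit 720934) (nat_lit 21) .nil))))) .nil))) (.nd (nat_lit 5) 
(.lf (nat_lit 157972) (.g (nat_lit 958) (.e (nat_lit 57424) (nat_lit 14) (.e (nat_lit 352273) (nat_lit 11) (.e (nat_lit 426011) (nat_lit 0) (.e (nat_lit 7591) (nat_lit 407) .nil)))) .nil)) 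
(.lf (nat_lit 158004) (.g (nat_lit 2031) (.e (nat_lit 57424) (nat_lit 14) (.e (nat_lit 352274) (nat_lit 11) (.e (nat_lit 426308) (nat_lit 12) (.e (nat_lit 475214) (nat_lit 42) (.e (nat_lit 720930) (nat_lit 21) (.e (nat_lit 57851) (nat_lit 252) .nil)))))) (.g (nat_lit 4) .nil .nil))))) (.nd (nat_lit 4) (.nd (nat_lit 5) 
(.lf (nat_lit 157964) (.g (nat_lit 1772) (.e (nat_lit 57424) (nat_lit 14) (.e (nat_lit 352270) (nat_lit 8) (.e (nat_lit 262148) (nat_lit 0) (.e (nat_lit 1582) (nat_lit 111) (.e (nat_lit 360456) (nat_lit 0) (.e (nat_lit 5949) (nat_lit 322) .nil)))))) (.g (nat_lit 0) .nil .nil))) 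
(.lf (nat_lit 157996) (.g (nat_lit 1921) (.e (nat_lit 57424) (nat_lit 14) (.e (nat_lit 352273) (nat_lit 11) (.e (nat_lit 426343) (nat_lit 14) (.e (nat_lit 491560) (nat_lit 10) (.e (nat_lit 344090) (nat_lit 18) .nil))))) .nil))) (.nd (nat_lit 5) 
(.lf (nat_lit 157980) (.g (nat_lit 2095) (.e (nat_lit 57424) (nat_lit 14) (.e (nat_lit 352273) (nat_lit 11) (.e (nat_lit 426190) (nat_lit 9) (.e (nat_lit 426448) (nat_lit 20) (.e (nat_lit 114711) (nat_lit 21) (.e (nat_lit 57846) (nat_lit 252) .nil)))))) (.g (nat_lit 4) .nil .nil))) 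
(.lf (nat_lit 158012) (.g (nat_lit 1971) (.e (nat_lit 57424) (nat_lit 14) (.e (nat_lit 352277) (nat_lit 11) (.e (nat_lit 426011) (nat_lit 0) (.e (nat_lit 7591) (nat_lit 407) (.e (nat_lit 73731) (nat_lit 0) .nil))))) .nil)))))) (.nd (nat_lit 2) (.nd (nat_lit 3) (.nd (nat_lit 4) (.nd (nat_lit 5) 
(.lf (nat_lit 157954) (.g (nat_lit 1407) (.e (nat_lit 57423) (nat_lit 14) (.e (nat_lit 352324) (nat_lit 26) (.e (nat_lit 147467) (nat_lit 9) (.e (nat_lit 324) (nat_lit 24) .nil)))) .nil)) 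
(.lf (nat_lit 157986) (.g (nat_lit 2038) (.e (nat_lit 57424) (nat_lit 14) (.e (nat_lit 352273) (nat_lit 11) (.e (nat_lit 426308) (nat_lit 12) (.e (nat_lit 475214) (nat_lit 42) (.e (nat_lit 720934) (nat_lit 21) .nil))))) .nil))) (.nd (nat_lit 5) 
(.lf (nat_lit 157970) (.g (nat_lit 2481) (.e (nat_lit 57424) (nat_lit 14) (.e (nat_lit 352272) (nat_lit 10) (.e (nat_lit 417811) (nat_lit 6) (.e (nat_lit 286755) (nat_lit 10) (.e (nat_lit 344096) (nat_lit 18) (.e (nat_lit 7266) (nat_lit 384) .nil)))))) (.g (nat_lit 0) .nil .nil))) 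
(.lf (nat_lit 158002) (.g (nat_lit 2022) (.e (nat_lit 57424) (nat_lit 14) (.e (nat_lit 352274) (nat_lit 11) (.e (nat_lit 426308) (nat_lit 12) (.e (nat_lit 475212) (nat_lit 42) (.e (nat_lit 720931) (nat_lit 21) (.e (nat_lit 57851) (nat_lit 252) .nil)))))) (.g (nat_lit 4) .nil .nil))))) (.nd (nat_lit 4) (.nd (nat_lit 5) 
(.lf (nat_lit 157962) (.g (nat_lit 1945) (.e (nat_lit 57424) (nat_lit 14) (.e (nat_lit 352262) (nat_lit 0) (.e (nat_lit 3748) (nat_lit 228) (.e (nat_lit 786483) (nat_lit 30) (.e (nat_lit 360450) (nat_lit 0) .nil))))) .nil)) 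
(.lf (nat_lit 157994) (.g (nat_lit 1969) (.e (nat_lit 57424) (nat_lit 14) (.e (nat_lit 352273) (nat_lit 11) (.e (nat_lit 426343) (nat_lit 14) (.e (nat_lit 491558) (nat_lit 10) (.e (nat_lit 344095) (nat_lit 18) .nil))))) .nil))) (.nd (nat_lit 5) 
(.lf (nat_lit 157978) (.g (nat_lit 2791) (.e (nat_lit 57424) (nat_lit 14) (.e (nat_lit 352273) (nat_lit 11) (.e (nat_lit 426190) (nat_lit 9) (.e (nat_lit 426446) (nat_lit 20) (.e (nat_lit 114710) (nat_lit 21) (.e (nat_lit 57853) (nat_lit 252) .nil)))))) (.g (nat_lit 5) .nil .nil))) 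
(.lf (nat_lit 158010) (.g (nat_lit 2901) (.e (nat_lit 57424) (nat_lit 14) (.e (nat_lit 352277) (nat_lit 11) (.e (nat_lit 426010) (nat_lit 0) (.e (nat_lit 7593) (nat_lit 407) (.e (nat_lit 73731) (nat_lit 0) (.e (nat_lit 7266) (nat_lit 384) .nil)))))) (.g (nat_lit 0) .nil .nil)))))) (.nd (nat_lit 3) (.nd (nat_lit 4) (.nd (nat_lit 5) 
(.lf (nat_lit 157958) (.g (nat_lit 1544) (.e (nat_lit 57423) (nat_lit 14) (.e (nat_lit 352324) (nat_lit 26) (.e (nat_lit 147496) (nat_lit 11) (.e (nat_lit 24640) (nat_lit 10) .nil)))) .nil)) 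
(.lf (nat_lit 157990) (.g (nat_lit 2701) (.e (nat_lit 57424) (nat_lit 14) (.e (nat_lit 352273) (nat_lit 11) (.e (nat_lit 426316) (nat_lit 12) (.e (nat_lit 475214) (nat_lit 42) (.e (nat_lit 720931) (nat_lit 21) (.e (nat_lit 57851) (nat_lit 252) .nil)))))) (.g (nat_lit 5) .nil .nil)))) (.nd (nat_lit 5) 
(.lf (nat_lit 157974) (.g (nat_lit 2115) (.e (nat_lit 57424) (nat_lit 14) (.e (nat_lit 352273) (nat_lit 11) (.e (nat_lit 426187) (nat_lit 9) (.e (nat_lit 426448) (nat_lit 20) (.e (nat_lit 114710) (nat_lit 21) (.e (nat_lit 57847) (nat_lit 252) .nil)))))) (.g (nat_lit 4) .nil .nil))) 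
(.lf (nat_lit 158006) (.g (nat_lit 2295) (.e (nat_lit 57424) (nat_lit 14) (.e (nat_lit 352276) (nat_lit 11) (.e (nat_lit 426234) (nat_lit 9) (.e (nat_lit 426447) (nat_lit 20) (.e (nat_lit 114710) (nat_lit 21) (.e (nat_lit 57853) (nat_lit 252) .nil)))))) (.g (nat_lit 0) .nil .nil))))) (.nd (nat_lit 4) (.nd (nat_lit 5) 
(.lf (nat_lit 157966) (.g (nat_lit 2938) (.e (nat_lit 57424) (nat_lit 14) (.e (nat_lit 352272) (nat_lit 10) (.e (nat_lit 417795) (nat_lit 0) (.e (nat_lit 5409) (nat_lit 303) (.e (nat_lit 73729) (nat_lit 0) (.e (nat_lit 7266) (nat_lit 384) .nil)))))) (.g (nat_lit 0) .nil .nil))) 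
(.lf (nat_lit 157998) (.g (nat_lit 2631) (.e (nat_lit 57424) (nat_lit 14) (.e (nat_lit 352273) (nat_lit 11) (.e (nat_lit 426343) (nat_lit 14) (.e (nat_lit 491560) (nat_lit 10) (.e (nat_lit 344094) (nat_lit 18) (.e (nat_lit 7265) (nat_lit 384) .nil)))))) (.g (nat_lit 4) .nil .nil)))) (.nd (nat_lit 5) 
(.lf (nat_lit 157982) (.g (nat_lit 2341) (.e (nat_lit 57424) (nat_lit 14) (.e (nat_lit 352273) (nat_lit 11) (.e (nat_lit 426200) (nat_lit 9) (.e (nat_lit 426448) (nat_lit 20) (.e (nat_lit 114710) (nat_lit 21) (.e (nat_lit 57851) (nat_lit 252) .nil)))))) (.g (nat_lit 4) .nil .nil))) 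
(.lf (nat_lit 158014) (.g (nat_lit 4080) (.e (nat_lit 57424) (nat_lit 14) (.e (nat_lit 352277) (nat_lit 11) (.e (nat_lit 426011) (nat_lit 0) (.e (nat_lit 7593) (nat_lit 407) (.e (nat_lit 73729) (nat_lit 0) (.e (nat_lit 7266) (nat_lit 384) .nil)))))) (.g (nat_lit 0) .nil .nil)))))))) (.nd (nat_lit 1) (.nd (nat_lit 2) (.nd (nat_lit 3) (.nd (nat_lit 4) (.nd (nat_lit 5) 
(.lf (nat_lit 157953) (.g (nat_lit 705) (.e (nat_lit 57423) (nat_lit 14) (.e (nat_lit 352324) (nat_lit 26) (.e (nat_lit 147467) (nat_lit 9) .nil))) .nil)) 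
(.lf (nat_lit 157985) (.g (nat_lit 2370) (.e (nat_lit 57424) (nat_lit 14) (.e (nat_lit 352273) (nat_lit 11) (.e (nat_lit 426308) (nat_lit 12) (.e (nat_lit 475212) (nat_lit 42) (.e (nat_lit 720933) (nat_lit 21) (.e (nat_lit 57844) (nat_lit 252) .nil)))))) (.g (nat_lit 5) .nil .nil)))) (.nd (nat_lit 5) 
(.lf (nat_lit 157969) (.g (nat_lit 2628) (.e (nat_lit 57424) (nat_lit 14) (.e (nat_lit 352272) (nat_lit 10) (.e (nat_lit 417811) (nat_lit 6) (.e (nat_lit 286753) (nat_lit 10) (.e (nat_lit 344090) (nat_lit 18) (.e (nat_lit 7266) (nat_lit 384) .nil)))))) (.g (nat_lit 0) .nil .nil))) 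
(.lf (nat_lit 158001) (.g (nat_lit 1752) (.e (nat_lit 57424) (nat_lit 14) (.e (nat_lit 352274) (nat_lit 11) (.e (nat_lit 426308) (nat_lit 12) (.e (nat_lit 475212) (nat_lit 42) (.e (nat_lit 720930) (nat_lit 21) (.e (nat_lit 57851) (nat_lit 252) .nil)))))) (.g (nat_lit 4) .nil .nil))))) (.nd (nat_lit 4) (.nd (nat_lit 5) 
(.lf (nat_lit 157961) (.g (nat_lit 1836) (.e (nat_lit 57424) (nat_lit 14) (.e (nat_lit 352262) (nat_lit 0) (.e (nat_lit 3748) (nat_lit 228) (.e (nat_lit 786480) (nat_lit 29) (.e (nat_lit 352316) (nat_lit 24) .nil))))) .nil)) 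
(.lf (nat_lit 157993) (.g (nat_lit 1871) (.e (nat_lit 57424) (nat_lit 14) (.e (nat_lit 352273) (nat_lit 11) (.e (nat_lit 426343) (nat_lit 14) (.e (nat_lit 491558) (nat_lit 10) (.e (nat_lit 344091) (nat_lit 18) .nil))))) .nil))) (.nd (nat_lit 5) 
(.lf (nat_lit 157977) (.g (nat_lit 2431) (.e (nat_lit 57424) (nat_lit 14) (.e (nat_lit 352273) (nat_lit 11) (.e (nat_lit 426190) (nat_lit 9) (.e (nat_lit 426446) (nat_lit 20) (.e (nat_lit 114710) (nat_lit 21) (.e (nat_lit 57847) (nat_lit 252) .nil)))))) (.g (nat_lit 4) .nil .nil))) 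
(.lf (nat_lit 158009) (.g (nat_lit 2753) (.e (nat_lit 57424) (nat_lit 14) (.e (nat_lit 352277) (nat_lit 11) (.e (nat_lit 426009) (nat_lit 0) (.e (nat_lit 7593) (nat_lit 407) (.e (nat_lit 73731) (nat_lit 0) (.e (nat_lit 7266) (nat_lit 384) .nil)))))) (.g (nat_lit 0) .nil .nil)))))) (.nd (nat_lit 3) (.nd (nat_lit 4) (.nd (nat_lit 5) 
(.lf (nat_lit 157957) (.g (nat_lit 1557) (.e (nat_lit 57423) (nat_lit 14) (.e (nat_lit 352324) (nat_lit 26) (.e (nat_lit 147496) (nat_lit 11) (.e (nat_lit 24639) (nat_lit 10) .nil)))) .nil)) 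
(.lf (nat_lit 157989) (.g (nat_lit 2569) (.e (nat_lit 57424) (nat_lit 14) (.e (nat_lit 352273) (nat_lit 11) (.e (nat_lit 426316) (nat_lit 12) (.e (nat_lit 475214) (nat_lit 42) (.e (nat_lit 720930) (nat_lit 21) (.e (nat_lit 57851) (nat_lit 252) .nil)))))) (.g (nat_lit 4) .nil .nil)))) (.nd (nat_lit 5) 
(.lf (nat_lit 157973) (.g (nat_lit 1819) (.e (nat_lit 57424) (nat_lit 14) (.e (nat_lit 352273) (nat_lit 11) (.e (nat_lit 426187) (nat_lit 9) (.e (nat_lit 426446) (nat_lit 20) (.e (nat_lit 114712) (nat_lit 21) (.e (nat_lit 57853) (nat_lit 252) .nil)))))) (.g (nat_lit 4) .nil .nil))) 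
(.lf (nat_lit 158005) (.g (nat_lit 2127) (.e (nat_lit 57424) (nat_lit 14) (.e (nat_lit 352276) (nat_lit 11) (.e (nat_lit 426234) (nat_lit 9) (.e (nat_lit 426447) (nat_lit 20) (.e (nat_lit 114710) (nat_lit 21) (.e (nat_lit 57852) (nat_lit 252) .nil)))))) (.g (nat_lit 0) .nil .nil))))) (.nd (nat_lit 4) (.nd (nat_lit 5) 
(.lf (nat_lit 157965) (.g (nat_lit 1940) (.e (nat_lit 57424) (nat_lit 14) (.e (nat_lit 352270) (nat_lit 8) (.e (nat_lit 262148) (nat_lit 0) (.e (nat_lit 1597) (nat_lit 111) (.e (nat_lit 360456) (nat_lit 0) (.e (nat_lit 5949) (nat_lit 322) .nil)))))) (.g (nat_lit 0) .nil .nil))) 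
(.lf (nat_lit 157997) (.g (nat_lit 2062) (.e (nat_lit 57424) (nat_lit 14) (.e (nat_lit 352273) (nat_lit 11) (.e (nat_lit 426343) (nat_lit 14) (.e (nat_lit 491560) (nat_lit 10) (.e (nat_lit 344091) (nat_lit 18) .nil))))) .nil))) (.nd (nat_lit 5) 
(.lf (nat_lit 157981) (.g (nat_lit 2736) (.e (nat_lit 57424) (nat_lit 14) (.e (nat_lit 352273) (nat_lit 11) (.e (nat_lit 426190) (nat_lit 9) (.e (nat_lit 426448) (nat_lit 20) (.e (nat_lit 114711) (nat_lit 21) (.e (nat_lit 57853) (nat_lit 252) .nil)))))) (.g (nat_lit 5) .nil .nil))) 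
(.lf (nat_lit 158013) (.g (nat_lit 3716) (.e (nat_lit 57424) (nat_lit 14) (.e (nat_lit 352277) (nat_lit 11) (.e (nat_lit 426011) (nat_lit 0) (.e (nat_lit 7591) (nat_lit 407) (.e (nat_lit 73731) (nat_lit 0) (.e (nat_lit 7266) (nat_lit 384) .nil)))))) (.g (nat_lit 0) .nil .nil))))))) (.nd (nat_lit 2) (.nd (nat_lit 3) (.nd (nat_lit 4) (.nd (nat_lit 5) 
(.lf (nat_lit 157955) (.g (nat_lit 1546) (.e (nat_lit 57423) (nat_lit 14) (.e (nat_lit 352324) (nat_lit 26) (.e (nat_lit 147495) (nat_lit 11) (.e (nat_lit 24639) (nat_lit 10) .nil)))) .nil)) 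
(.lf (nat_lit 157987) (.g (nat_lit 1625) (.e (nat_lit 57424) (nat_lit 14) (.e (nat_lit 352273) (nat_lit 11) (.e (nat_lit 426313) (nat_lit 12) (.e (nat_lit 475214) (nat_lit 42) (.e (nat_lit 720930) (nat_lit 21) .nil))))) .nil))) (.nd (nat_lit 5) 
(.lf (nat_lit 157971) (.g (nat_lit 2652) (.e (nat_lit 57424) (nat_lit 14) (.e (nat_lit 352272) (nat_lit 10) (.e (nat_lit 417811) (nat_lit 6) (.e (nat_lit 286756) (nat_lit 10) (.e (nat_lit 344090) (nat_lit 18) (.e (nat_lit 7266) (nat_lit 384) .nil)))))) (.g (nat_lit 0) .nil .nil))) 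
(.lf (nat_lit 158003) (.g (nat_lit 1943) (.e (nat_lit 57424) (nat_lit 14) (.e (nat_lit 352274) (nat_lit 11) (.e (nat_lit 426308) (nat_lit 12) (.e (nat_lit 475212) (nat_lit 42) (.e (nat_lit 720934) (nat_lit 21) (.e (nat_lit 57851) (nat_lit 252) .nil)))))) (.g (nat_lit 4) .nil .nil))))) (.nd (nat_lit 4) (.nd (nat_lit 5) 
(.lf (nat_lit 157963) (.g (nat_lit 2620) (.e (nat_lit 57424) (nat_lit 14) (.e (nat_lit 352269) (nat_lit 7) (.e (nat_lit 245776) (nat_lit 4) (.e (nat_lit 172113) (nat_lit 10) (.e (nat_lit 434203) (nat_lit 18) (.e (nat_lit 6828) (nat_lit 367) .nil)))))) (.g (nat_lit 5) .nil .nil))) 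
(.lf (nat_lit 157995) (.g (nat_lit 1902) (.e (nat_lit 57424) (nat_lit 14) (.e (nat_lit 352273) (nat_lit 11) (.e (nat_lit 426343) (nat_lit 14) (.e (nat_lit 491558) (nat_lit 10) (.e (nat_lit 344096) (nat_lit 18) .nil))))) .nil))) (.nd (nat_lit 5) 
(.lf (nat_lit 157979) (.g (nat_lit 2167) (.e (nat_lit 57424) (nat_lit 14) (.e (nat_lit 352273) (nat_lit 11) (.e (nat_lit 426190) (nat_lit 9) (.e (nat_lit 426448) (nat_lit 20) (.e (nat_lit 114710) (nat_lit 21) (.e (nat_lit 57846) (nat_lit 252) .nil)))))) (.g (nat_lit 4) .nil .nil))) 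
(.lf (nat_lit 158011) (.g (nat_lit 4014) (.e (nat_lit 57424) (nat_lit 14) (.e (nat_lit 352277) (nat_lit 11) (.e (nat_lit 426011) (nat_lit 0) (.e (nat_lit 7591) (nat_lit 407) (.e (nat_lit 73729) (nat_lit 0) (.e (nat_lit 7266) (nat_lit 384) .nil)))))) (.g (nat_lit 0) .nil .nil)))))) (.nd (nat_lit 3) (.nd (nat_lit 4) (.nd (nat_lit 5) 
(.lf (nat_lit 157959) (.g (nat_lit 2940) (.e (nat_lit 57424) (nat_lit 14) (.e (nat_lit 352262) (nat_lit 0) (.e (nat_lit 3632) (nat_lit 227) (.e (nat_lit 778326) (nat_lit 6) (.e (nat_lit 81959) (nat_lit 24) (.e (nat_lit 123198) (nat_lit 266) .nil)))))) (.g (nat_lit 0) .nil .nil))) 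
(.lf (nat_lit 157991) (.g (nat_lit 2303) (.e (nat_lit 57424) (nat_lit 14) (.e (nat_lit 352273) (nat_lit 11) (.e (nat_lit 426316) (nat_lit 12) (.e (nat_lit 475214) (nat_lit 42) (.e (nat_lit 720934) (nat_lit 21) (.e (nat_lit 57851) (nat_lit 252) .nil)))))) (.g (nat_lit 4) .nil .nil)))) (.nd (nat_lit 5) 
(.lf (nat_lit 157975) (.g (nat_lit 2165) (.e (nat_lit 57424) (nat_lit 14) (.e (nat_lit 352273) (nat_lit 11) (.e (nat_lit 426187) (nat_lit 9) (.e (nat_lit 426448) (nat_lit 20) (.e (nat_lit 114711) (nat_lit 21) (.e (nat_lit 57853) (nat_lit 252) .nil)))))) (.g (nat_lit 4) .nil .nil))) 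
(.lf (nat_lit 158007) (.g (nat_lit 2672) (.e (nat_lit 57424) (nat_lit 14) (.e (nat_lit 352277) (nat_lit 11) (.e (nat_lit 426009) (nat_lit 0) (.e (nat_lit 7591) (nat_lit 407) (.e (nat_lit 73731) (nat_lit 0) (.e (nat_lit 7266) (nat_lit 384) .nil)))))) (.g (nat_lit 0) .nil .nil))))) (.nd (nat_lit 4) (.nd (nat_lit 5) 
(.lf (nat_lit 157967) (.g (nat_lit 3249) (.e (nat_lit 57424) (nat_lit 14) (.e (nat_lit 352272) (nat_lit 10) (.e (nat_lit 417796) (nat_lit 0) (.e (nat_lit 5409) (nat_lit 303) (.e (nat_lit 73729) (nat_lit 0) (.e (nat_lit 7266) (nat_lit 384) .nil)))))) (.g (nat_lit 0) .nil .nil))) 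
(.lf (nat_lit 157999) (.g (nat_lit 2234) (.e (nat_lit 57424) (nat_lit 14) (.e (nat_lit 352273) (nat_lit 11) (.e (nat_lit 426343) (nat_lit 14) (.e (nat_lit 491560) (nat_lit 10) (.e (nat_lit 344096) (nat_lit 18) .nil))))) .nil))) (.nd (nat_lit 5) 
(.lf (nat_lit 157983) (.g (nat_lit 1924) (.e (nat_lit 57424) (nat_lit 14) (.e (nat_lit 352273) (nat_lit 11) (.e (nat_lit 426200) (nat_lit 9) (.e (nat_lit 426448) (nat_lit 20) (.e (nat_lit 114710) (nat_lit 21) (.e (nat_lit 57853) (nat_lit 252) .nil)))))) (.g (nat_lit 4) .nil .nil))) 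
(.lf (nat_lit 158015) (.g (nat_lit 2316) (.e (nat_lit 57424) (nat_lit 14) (.e (nat_lit 352277) (nat_lit 11) (.e (nat_lit 426011) (nat_lit 0) (.e (nat_lit 7593) (nat_lit 407) (.e (nat_lit 73730) (nat_lit 0) .nil))))) .nil))))))))

noncomputable def tv2116 : DT := (.nd (nat_lit 0) (.nd (nat_lit 1) (.nd (nat_lit 2) (.nd (nat_lit 3) (.nd (nat_lit 4) (.nd (nat_lit 5) 
(.lf (nat_lit 158016) (.g (nat_lit 2032) (.e (nat_lit 57424) (nat_lit 14) (.e (nat_lit 352277) (nat_lit 11) (.e (nat_lit 426011) (nat_lit 0) (.e (nat_lit 7593) (nat_lit 407) (.e (nat_lit 73731) (nat_lit 0) .nil))))) .nil)) 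
(.lf (nat_lit 158048) (.g (nat_lit 3024) (.e (nat_lit 57424) (nat_lit 14) (.e (nat_lit 352277) (nat_lit 11) (.e (nat_lit 426190) (nat_lit 9) (.e (nat_lit 426448) (nat_lit 20) (.e (nat_lit 114712) (nat_lit 21) (.e (nat_lit 57853) (nat_lit 252) .nil)))))) (.g (nat_lit 6) .nil .nil)))) (.nd (nat_lit 5) 
(.lf (nat_lit 158032) (.g (nat_lit 2320) (.e (nat_lit 57424) (nat_lit 14) (.e (nat_lit 352277) (nat_lit 11) (.e (nat_lit 426189) (nat_lit 9) (.e (nat_lit 426448) (nat_lit 20) (.e (nat_lit 114710) (nat_lit 21) (.e (nat_lit 57851) (nat_lit 252) .nil)))))) (.g (nat_lit 5) .nil .nil))) 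
(.lf (nat_lit 158064) (.g (nat_lit 2132) (.e (nat_lit 57424) (nat_lit 14) (.e (nat_lit 352277) (nat_lit 11) (.e (nat_lit 426342) (nat_lit 14) (.e (nat_lit 491560) (nat_lit 10) (.e (nat_lit 344095) (nat_lit 18) (.e (nat_lit 7263) (nat_lit 384) .nil)))))) (.g (nat_lit 4) .nil .nil))))) (.nd (nat_lit 4) (.nd (nat_lit 5) 
(.lf (nat_lit 158024) (.g (nat_lit 3282) (.e (nat_lit 57424) (nat_lit 14) (.e (nat_lit 352277) (nat_lit 11) (.e (nat_lit 426012) (nat_lit 0) (.e (nat_lit 7593) (nat_lit 407) (.e (nat_lit 73731) (nat_lit 0) (.e (nat_lit 7266) (nat_lit 384) .nil)))))) (.g (nat_lit 0) .nil .nil))) 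
(.lf (nat_lit 158056) (.g (nat_lit 2983) (.e (nat_lit 57424) (nat_lit 14) (.e (nat_lit 352277) (nat_lit 11) (.e (nat_lit 426308) (nat_lit 12) (.e (nat_lit 475214) (nat_lit 42) (.e (nat_lit 720930) (nat_lit 21) (.e (nat_lit 57852) (nat_lit 252) .nil)))))) (.g (nat_lit 0) .nil .nil)))) (.nd (nat_lit 5) 
(.lf (nat_lit 158040) (.g (nat_lit 2917) (.e (nat_lit 57424) (nat_lit 14) (.e (nat_lit 352277) (nat_lit 11) (.e (nat_lit 426190) (nat_lit 9) (.e (nat_lit 426446) (nat_lit 20) (.e (nat_lit 114712) (nat_lit 21) (.e (nat_lit 57852) (nat_lit 252) .nil)))))) (.g (nat_lit 0) .nil .nil))) 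
(.lf (nat_lit 158072) (.g (nat_lit 2877) (.e (nat_lit 57424) (nat_lit 14) (.e (nat_lit 352277) (nat_lit 11) (.e (nat_lit 426343) (nat_lit 14) (.e (nat_lit 491560) (nat_lit 10) (.e (nat_lit 344095) (nat_lit 18) (.e (nat_lit 7263) (nat_lit 384) .nil)))))) (.g (nat_lit 4) .nil .nil)))))) (.nd (nat_lit 3) (.nd (nat_lit 4) (.nd (nat_lit 5) 
(.lf (nat_lit 158020) (.g (nat_lit 3237) (.e (nat_lit 57424) (nat_lit 14) (.e (nat_lit 352277) (nat_lit 11) (.e (nat_lit 426012) (nat_lit 0) (.e (nat_lit 7591) (nat_lit 407) (.e (nat_lit 73731) (nat_lit 0) (.e (nat_lit 7266) (nat_lit 384) .nil)))))) (.g (nat_lit 0) .nil .nil))) 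
(.lf (nat_lit 158052) (.g (nat_lit 2257) (.e (nat_lit 57424) (nat_lit 14) (.e (nat_lit 352277) (nat_lit 11) (.e (nat_lit 426307) (nat_lit 12) (.e (nat_lit 475214) (nat_lit 42) (.e (nat_lit 720931) (nat_lit 21) (.e (nat_lit 57851) (nat_lit 252) .nil)))))) (.g (nat_lit 5) .nil .nil)))) (.nd (nat_lit 5) 
(.lf (nat_lit 158036) (.g (nat_lit 3197) (.e (nat_lit 57424) (nat_lit 14) (.e (nat_lit 352277) (nat_lit 11) (.e (nat_lit 426190) (nat_lit 9) (.e (nat_lit 426446) (nat_lit 20) (.e (nat_lit 114710) (nat_lit 21) (.e (nat_lit 57852) (nat_lit 252) .nil)))))) (.g (nat_lit 0) .nil .nil))) 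
(.lf (nat_lit 158068) (.g (nat_lit 3790) (.e (nat_lit 57424) (nat_lit 14) (.e (nat_lit 352277) (nat_lit 11) (.e (nat_lit 426343) (nat_lit 14) (.e (nat_lit 491558) (nat_lit 10) (.e (nat_lit 344091) (nat_lit 18) (.e (nat_lit 7266) (nat_lit 384) .nil)))))) (.g (nat_lit 0) .nil .nil))))) (.nd (nat_lit 4) (.nd (nat_lit 5) 
(.lf (nat_lit 158028) (.g (nat_lit 1548) (.e (nat_lit 57424) (nat_lit 14) (.e (nat_lit 352277) (nat_lit 11) (.e (nat_lit 426186) (nat_lit 9) (.e (nat_lit 426448) (nat_lit 20) (.e (nat_lit 114710) (nat_lit 21) .nil))))) .nil)) 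
(.lf (nat_lit 158060) (.g (nat_lit 2391) (.e (nat_lit 57424) (nat_lit 14) (.e (nat_lit 352277) (nat_lit 11) (.e (nat_lit 426308) (nat_lit 12) (.e (nat_lit 475214) (nat_lit 42) (.e (nat_lit 720934) (nat_lit 21) (.e (nat_lit 57851) (nat_lit 252) .nil)))))) (.g (nat_lit 4) .nil .nil)))) (.nd (nat_lit 5) 
(.lf (nat_lit 158044) (.g (nat_lit 3641) (.e (nat_lit 57424) (nat_lit 14) (.e (nat_lit 352277) (nat_lit 11) (.e (nat_lit 426190) (nat_lit 9) (.e (nat_lit 426448) (nat_lit 20) (.e (nat_lit 114710) (nat_lit 21) (.e (nat_lit 57853) (nat_lit 252) .nil)))))) (.g (nat_lit 0) .nil .nil))) 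
(.lf (nat_lit 158076) (.g (nat_lit 2461) (.e (nat_lit 57424) (nat_lit 14) (.e (nat_lit 352277) (nat_lit 11) (.e (nat_lit 426344) (nat_lit 14) (.e (nat_lit 491560) (nat_lit 10) (.e (nat_lit 344087) (nat_lit 18) (.e (nat_lit 7265) (nat_lit 384) .nil)))))) (.g (nat_lit 4) .nil .nil))))))) (.nd (nat_lit 2) (.nd (nat_lit 3) (.nd (nat_lit 4) (.nd (nat_lit 5) 
(.lf (nat_lit 158018) (.g (nat_lit 3469) (.e (nat_lit 57424) (nat_lit 14) (.e (nat_lit 352277) (nat_lit 11) (.e (nat_lit 426012) (nat_lit 0) (.e (nat_lit 7591) (nat_lit 407) (.e (nat_lit 73729) (nat_lit 0) (.e (nat_lit 7266) (nat_lit 384) .nil)))))) (.g (nat_lit 0) .nil .nil))) 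
(.lf (nat_lit 158050) (.g (nat_lit 1845) (.e (nat_lit 57424) (nat_lit 14) (.e (nat_lit 352277) (nat_lit 11) (.e (nat_lit 426307) (nat_lit 12) (.e (nat_lit 475212) (nat_lit 42) (.e (nat_lit 720930) (nat_lit 21) (.e (nat_lit 57852) (nat_lit 252) .nil)))))) (.g (nat_lit 5) .nil .nil)))) (.nd (nat_lit 5) 
(.lf (nat_lit 158034) (.g (nat_lit 2801) (.e (nat_lit 57424) (nat_lit 14) (.e (nat_lit 352277) (nat_lit 11) (.e (nat_lit 426190) (nat_lit 9) (.e (nat_lit 426446) (nat_lit 20) (.e (nat_lit 114710) (nat_lit 21) (.e (nat_lit 57844) (nat_lit 252) .nil)))))) (.g (nat_lit 6) .nil .nil))) 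
(.lf (nat_lit 158066) (.g (nat_lit 2553) (.e (nat_lit 57424) (nat_lit 14) (.e (nat_lit 352277) (nat_lit 11) (.e (nat_lit 426342) (nat_lit 14) (.e (nat_lit 491560) (nat_lit 10) (.e (nat_lit 344096) (nat_lit 18) (.e (nat_lit 7263) (nat_lit 384) .nil)))))) (.g (nat_lit 5) .nil .nil))))) (.nd (nat_lit 4) (.nd (nat_lit 5) 
(.lf (nat_lit 158026) (.g (nat_lit 540) (.e (nat_lit 57424) (nat_lit 14) (.e (nat_lit 352277) (nat_lit 11) (.e (nat_lit 426172) (nat_lit 7) .nil))) .nil)) 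
(.lf (nat_lit 158058) (.g (nat_lit 2492) (.e (nat_lit 57424) (nat_lit 14) (.e (nat_lit 352277) (nat_lit 11) (.e (nat_lit 426308) (nat_lit 12) (.e (nat_lit 475214) (nat_lit 42) (.e (nat_lit 720932) (nat_lit 21) (.e (nat_lit 57852) (nat_lit 252) .nil)))))) (.g (nat_lit 4) .nil .nil)))) (.nd (nat_lit 5) 
(.lf (nat_lit 158042) (.g (nat_lit 3718) (.e (nat_lit 57424) (nat_lit 14) (.e (nat_lit 352277) (nat_lit 11) (.e (nat_lit 426190) (nat_lit 9) (.e (nat_lit 426448) (nat_lit 20) (.e (nat_lit 114710) (nat_lit 21) (.e (nat_lit 57847) (nat_lit 252) .nil)))))) (.g (nat_lit 6) .nil .nil))) 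
(.lf (nat_lit 158074) (.g (nat_lit 3309) (.e (nat_lit 57424) (nat_lit 14) (.e (nat_lit 352277) (nat_lit 11) (.e (nat_lit 426344) (nat_lit 14) (.e (nat_lit 491558) (nat_lit 10) (.e (nat_lit 344090) (nat_lit 18) (.e (nat_lit 7266) (nat_lit 384) .nil)))))) (.g (nat_lit 0) .nil .nil)))))) (.nd (nat_lit 3) (.nd (nat_lit 4) (.nd (nat_lit 5) 
(.lf (nat_lit 158022) (.g (nat_lit 1749) (.e (nat_lit 57424) (nat_lit 14) (.e (nat_lit 352277) (nat_lit 11) (.e (nat_lit 426012) (nat_lit 0) (.e (nat_lit 7593) (nat_lit 407) (.e (nat_lit 73730) (nat_lit 0) .nil))))) .nil)) 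
(.lf (nat_lit 158054) (.g (nat_lit 1908) (.e (nat_lit 57424) (nat_lit 14) (.e (nat_lit 352277) (nat_lit 11) (.e (nat_lit 426307) (nat_lit 12) (.e (nat_lit 475214) (nat_lit 42) (.e (nat_lit 720934) (nat_lit 21) .nil))))) .nil))) (.nd (nat_lit 5) 
(.lf (nat_lit 158038) (.g (nat_lit 3522) (.e (nat_lit 57424) (nat_lit 14) (.e (nat_lit 352277) (nat_lit 11) (.e (nat_lit 426190) (nat_lit 9) (.e (nat_lit 426446) (nat_lit 20) (.e (nat_lit 114711) (nat_lit 21) (.e (nat_lit 57847) (nat_lit 252) .nil)))))) (.g (nat_lit 6) .nil .nil))) 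
(.lf (nat_lit 158070) (.g (nat_lit 3781) (.e (nat_lit 57424) (nat_lit 14) (.e (nat_lit 352277) (nat_lit 11) (.e (nat_lit 426343) (nat_lit 14) (.e (nat_lit 491560) (nat_lit 10) (.e (nat_lit 344090) (nat_lit 18) (.e (nat_lit 7266) (nat_lit 384) .nil)))))) (.g (nat_lit 0) .nil .nil))))) (.nd (nat_lit 4) (.nd (nat_lit 5) 
(.lf (nat_lit 158030) (.g (nat_lit 1880) (.e (nat_lit 57424) (nat_lit 14) (.e (nat_lit 352277) (nat_lit 11) (.e (nat_lit 426187) (nat_lit 9) (.e (nat_lit 426448) (nat_lit 20) (.e (nat_lit 114710) (nat_lit 21) .nil))))) .nil)) 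
(.lf (nat_lit 158062) (.g (nat_lit 1122) (.e (nat_lit 57424) (nat_lit 14) (.e (nat_lit 352277) (nat_lit 11) (.e (nat_lit 426341) (nat_lit 14) (.e (nat_lit 491560) (nat_lit 10) .nil)))) .nil))) (.nd (nat_lit 5) 
(.lf (nat_lit 158046) (.g (nat_lit 2091) (.e (nat_lit 57424) (nat_lit 14) (.e (nat_lit 352277) (nat_lit 11) (.e (nat_lit 426190) (nat_lit 9) (.e (nat_lit 426448) (nat_lit 20) (.e (nat_lit 114711) (nat_lit 21) (.e (nat_lit 57850) (nat_lit 252) .nil)))))) (.g (nat_lit 4) .nil .nil))) 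
(.lf (nat_lit 158078) (.g (nat_lit 2387) (.e (nat_lit 57424) (nat_lit 14) (.e (nat_lit 352277) (nat_lit 11) (.e (nat_lit 426344) (nat_lit 14) (.e (nat_lit 491560) (nat_lit 10) (.e (nat_lit 344089) (nat_lit 18) .nil))))) .nil))))))) (.nd (nat_lit 1) (.nd (nat_lit 2) (.nd (nat_lit 3) (.nd (nat_lit 4) (.nd (nat_lit 5) 
(.lf (nat_lit 158017) (.g (nat_lit 3723) (.e (nat_lit 57424) (nat_lit 14) (.e (nat_lit 352277) (nat_lit 11) (.e (nat_lit 426011) (nat_lit 0) (.e (nat_lit 7593) (nat_lit 407) (.e (nat_lit 73731) (nat_lit 0) (.e (nat_lit 7266) (nat_lit 384) .nil)))))) (.g (nat_lit 0) .nil .nil))) 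
(.lf (nat_lit 158049) (.g (nat_lit 537) (.e (nat_lit 57424) (nat_lit 14) (.e (nat_lit 352277) (nat_lit 11) (.e (nat_lit 426258) (nat_lit 9) .nil))) .nil))) (.nd (nat_lit 5) 
(.lf (nat_lit 158033) (.g (nat_lit 1662) (.e (nat_lit 57424) (nat_lit 14) (.e (nat_lit 352277) (nat_lit 11) (.e (nat_lit 426189) (nat_lit 9) (.e (nat_lit 426448) (nat_lit 20) (.e (nat_lit 114712) (nat_lit 21) (.e (nat_lit 57852) (nat_lit 252) .nil)))))) (.g (nat_lit 4) .nil .nil))) 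
(.lf (nat_lit 158065) (.g (nat_lit 2508) (.e (nat_lit 57424) (nat_lit 14) (.e (nat_lit 352277) (nat_lit 11) (.e (nat_lit 426342) (nat_lit 14) (.e (nat_lit 491560) (nat_lit 10) (.e (nat_lit 344096) (nat_lit 18) (.e (nat_lit 7261) (nat_lit 384) .nil)))))) (.g (nat_lit 5) .nil .nil))))) (.nd (nat_lit 4) (.nd (nat_lit 5) 
(.lf (nat_lit 158025) (.g (nat_lit 1245) (.e (nat_lit 57424) (nat_lit 14) (.e (nat_lit 352277) (nat_lit 11) (.e (nat_lit 426166) (nat_lit 7) (.e (nat_lit 409645) (nat_lit 18) (.e (nat_lit 303115) (nat_lit 1) .nil))))) .nil)) 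
(.lf (nat_lit 158057) (.g (nat_lit 3275) (.e (nat_lit 57424) (nat_lit 14) (.e (nat_lit 352277) (nat_lit 11) (.e (nat_lit 426308) (nat_lit 12) (.e (nat_lit 475214) (nat_lit 42) (.e (nat_lit 720931) (nat_lit 21) (.e (nat_lit 57852) (nat_lit 252) .nil)))))) (.g (nat_lit 0) .nil .nil)))) (.nd (nat_lit 5) 
(.lf (nat_lit 158041) (.g (nat_lit 3109) (.e (nat_lit 57424) (nat_lit 14) (.e (nat_lit 352277) (nat_lit 11) (.e (nat_lit 426190) (nat_lit 9) (.e (nat_lit 426446) (nat_lit 20) (.e (nat_lit 114712) (nat_lit 21) (.e (nat_lit 57853) (nat_lit 252) .nil)))))) (.g (nat_lit 0) .nil .nil))) 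
(.lf (nat_lit 158073) (.g (nat_lit 2829) (.e (nat_lit 57424) (nat_lit 14) (.e (nat_lit 352277) (nat_lit 11) (.e (nat_lit 426343) (nat_lit 14) (.e (nat_lit 491560) (nat_lit 10) (.e (nat_lit 344096) (nat_lit 18) (.e (nat_lit 7261) (nat_lit 384) .nil)))))) (.g (nat_lit 5) .nil .nil)))))) (.nd (nat_lit 3) (.nd (nat_lit 4) (.nd (nat_lit 5) 
(.lf (nat_lit 158021) (.g (nat_lit 3650) (.e (nat_lit 57424) (nat_lit 14) (.e (nat_lit 352277) (nat_lit 11) (.e (nat_lit 426012) (nat_lit 0) (.e (nat_lit 7593) (nat_lit 407) (.e (nat_lit 73729) (nat_lit 0) (.e (nat_lit 7266) (nat_lit 384) .nil)))))) (.g (nat_lit 0) .nil .nil))) 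
(.lf (nat_lit 158053) (.g (nat_lit 1956) (.e (nat_lit 57424) (nat_lit 14) (.e (nat_lit 352277) (nat_lit 11) (.e (nat_lit 426307) (nat_lit 12) (.e (nat_lit 475214) (nat_lit 42) (.e (nat_lit 720933) (nat_lit 21) .nil))))) .nil))) (.nd (nat_lit 5) 
(.lf (nat_lit 158037) (.g (nat_lit 3355) (.e (nat_lit 57424) (nat_lit 14) (.e (nat_lit 352277) (nat_lit 11) (.e (nat_lit 426190) (nat_lit 9) (.e (nat_lit 426446) (nat_lit 20) (.e (nat_lit 114710) (nat_lit 21) (.e (nat_lit 57853) (nat_lit 252) .nil)))))) (.g (nat_lit 6) .nil .nil))) 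
(.lf (nat_lit 158069) (.g (nat_lit 2468) (.e (nat_lit 57424) (nat_lit 14) (.e (nat_lit 352277) (nat_lit 11) (.e (nat_lit 426343) (nat_lit 14) (.e (nat_lit 491560) (nat_lit 10) (.e (nat_lit 344087) (nat_lit 18) .nil))))) .nil)))) (.nd (nat_lit 4) (.nd (nat_lit 5) 
(.lf (nat_lit 158029) (.g (nat_lit 1136) (.e (nat_lit 57424) (nat_lit 14) (.e (nat_lit 352277) (nat_lit 11) (.e (nat_lit 426187) (nat_lit 9) (.e (nat_lit 426446) (nat_lit 20) .nil)))) .nil)) 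
(.lf (nat_lit 158061) (.g (nat_lit 2487) (.e (nat_lit 57424) (nat_lit 14) (.e (nat_lit 352277) (nat_lit 11) (.e (nat_lit 426308) (nat_lit 12) (.e (nat_lit 475214) (nat_lit 42) (.e (nat_lit 720934) (nat_lit 21) (.e (nat_lit 57852) (nat_lit 252) .nil)))))) (.g (nat_lit 4) .nil .nil)))) (.nd (nat_lit 5) 
(.lf (nat_lit 158045) (.g (nat_lit 3817) (.e (nat_lit 57424) (nat_lit 14) (.e (nat_lit 352277) (nat_lit 11) (.e (nat_lit 426190) (nat_lit 9) (.e (nat_lit 426448) (nat_lit 20) (.e (nat_lit 114711) (nat_lit 21) (.e (nat_lit 57847) (nat_lit 252) .nil)))))) (.g (nat_lit 6) .nil .nil))) 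
(.lf (nat_lit 158077) (.g (nat_lit 2168) (.e (nat_lit 57424) (nat_lit 14) (.e (nat_lit 352277) (nat_lit 11) (.e (nat_lit 426344) (nat_lit 14) (.e (nat_lit 491560) (nat_lit 10) (.e (nat_lit 344088) (nat_lit 18) .nil))))) .nil)))))) (.nd (nat_lit 2) (.nd (nat_lit 3) (.nd (nat_lit 4) (.nd (nat_lit 5) 
(.lf (nat_lit 158019) (.g (nat_lit 1507) (.e (nat_lit 57424) (nat_lit 14) (.e (nat_lit 352277) (nat_lit 11) (.e (nat_lit 426012) (nat_lit 0) (.e (nat_lit 7591) (nat_lit 407) (.e (nat_lit 73731) (nat_lit 0) .nil))))) .nil)) 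
(.lf (nat_lit 158051) (.g (nat_lit 1851) (.e (nat_lit 57424) (nat_lit 14) (.e (nat_lit 352277) (nat_lit 11) (.e (nat_lit 426307) (nat_lit 12) (.e (nat_lit 475214) (nat_lit 42) (.e (nat_lit 720930) (nat_lit 21) (.e (nat_lit 57852) (nat_lit 252) .nil)))))) (.g (nat_lit 5) .nil .nil)))) (.nd (nat_lit 5) 
(.lf (nat_lit 158035) (.g (nat_lit 3427) (.e (nat_lit 57424) (nat_lit 14) (.e (nat_lit 352277) (nat_lit 11) (.e (nat_lit 426190) (nat_lit 9) (.e (nat_lit 426446) (nat_lit 20) (.e (nat_lit 114710) (nat_lit 21) (.e (nat_lit 57847) (nat_lit 252) .nil)))))) (.g (nat_lit 6) .nil .nil))) 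
(.lf (nat_lit 158067) (.g (nat_lit 3520) (.e (nat_lit 57424) (nat_lit 14) (.e (nat_lit 352277) (nat_lit 11) (.e (nat_lit 426343) (nat_lit 14) (.e (nat_lit 491558) (nat_lit 10) (.e (nat_lit 344090) (nat_lit 18) (.e (nat_lit 7266) (nat_lit 384) .nil)))))) (.g (nat_lit 0) .nil .nil))))) (.nd (nat_lit 4) (.nd (nat_lit 5) 
(.lf (nat_lit 158027) (.g (nat_lit 715) (.e (nat_lit 57424) (nat_lit 14) (.e (nat_lit 352277) (nat_lit 11) (.e (nat_lit 426186) (nat_lit 9) (.e (nat_lit 426446) (nat_lit 20) .nil)))) .nil)) 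
(.lf (nat_lit 158059) (.g (nat_lit 2574) (.e (nat_lit 57424) (nat_lit 14) (.e (nat_lit 352277) (nat_lit 11) (.e (nat_lit 426308) (nat_lit 12) (.e (nat_lit 475214) (nat_lit 42) (.e (nat_lit 720933) (nat_lit 21) (.e (nat_lit 57844) (nat_lit 252) .nil)))))) (.g (nat_lit 4) .nil .nil)))) (.nd (nat_lit 5) 
(.lf (nat_lit 158043) (.g (nat_lit 3426) (.e (nat_lit 57424) (nat_lit 14) (.e (nat_lit 352277) (nat_lit 11) (.e (nat_lit 426190) (nat_lit 9) (.e (nat_lit 426448) (nat_lit 20) (.e (nat_lit 114710) (nat_lit 21) (.e (nat_lit 57852) (nat_lit 252) .nil)))))) (.g (nat_lit 0) .nil .nil))) 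
(.lf (nat_lit 158075) (.g (nat_lit 3600) (.e (nat_lit 57424) (nat_lit 14) (.e (nat_lit 352277) (nat_lit 11) (.e (nat_lit 426344) (nat_lit 14) (.e (nat_lit 491558) (nat_lit 10) (.e (nat_lit 344091) (nat_lit 18) (.e (nat_lit 7266) (nat_lit 384) .nil)))))) (.g (nat_lit 0) .nil .nil)))))) (.nd (nat_lit 3) (.nd (nat_lit 4) (.nd (nat_lit 5) 
(.lf (nat_lit 158023) (.g (nat_lit 1621) (.e (nat_lit 57424) (nat_lit 14) (.e (nat_lit 352277) (nat_lit 11) (.e (nat_lit 426012) (nat_lit 0) (.e (nat_lit 7593) (nat_lit 407) (.e (nat_lit 73731) (nat_lit 0) .nil))))) .nil)) 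
(.lf (nat_lit 158055) (.g (nat_lit 3083) (.e (nat_lit 57424) (nat_lit 14) (.e (nat_lit 352277) (nat_lit 11) (.e (nat_lit 426308) (nat_lit 12) (.e (nat_lit 475212) (nat_lit 42) (.e (nat_lit 720931) (nat_lit 21) (.e (nat_lit 57852) (nat_lit 252) .nil)))))) (.g (nat_lit 0) .nil .nil)))) (.nd (nat_lit 5) 
(.lf (nat_lit 158039) (.g (nat_lit 3155) (.e (nat_lit 57424) (nat_lit 14) (.e (nat_lit 352277) (nat_lit 11) (.e (nat_lit 426190) (nat_lit 9) (.e (nat_lit 426446) (nat_lit 20) (.e (nat_lit 114711) (nat_lit 21) (.e (nat_lit 57853) (nat_lit 252) .nil)))))) (.g (nat_lit 6) .nil .nil))) 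
(.lf (nat_lit 158071) (.g (nat_lit 2519) (.e (nat_lit 57424) (nat_lit 14) (.e (nat_lit 352277) (nat_lit 11) (.e (nat_lit 426343) (nat_lit 14) (.e (nat_lit 491560) (nat_lit 10) (.e (nat_lit 344095) (nat_lit 18) .nil))))) .nil)))) (.nd (nat_lit 4) (.nd (nat_lit 5) 
(.lf (nat_lit 158031) (.g (nat_lit 2238) (.e (nat_lit 57424) (nat_lit 14) (.e (nat_lit 352277) (nat_lit 11) (.e (nat_lit 426189) (nat_lit 9) (.e (nat_lit 426448) (nat_lit 20) (.e (nat_lit 114710) (nat_lit 21) (.e (nat_lit 57846) (nat_lit 252) .nil)))))) (.g (nat_lit 4) .nil .nil))) 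
(.lf (nat_lit 158063) (.g (nat_lit 2204) (.e (nat_lit 57424) (nat_lit 14) (.e (nat_lit 352277) (nat_lit 11) (.e (nat_lit 426342) (nat_lit 14) (.e (nat_lit 491560) (nat_lit 10) (.e (nat_lit 344095) (nat_lit 18) (.e (nat_lit 7261) (nat_lit 384) .nil)))))) (.g (nat_lit 4) .nil .nil)))) (.nd (nat_lit 5) 
(.lf (nat_lit 158047) (.g (nat_lit 2940) (.e (nat_lit 57424) (nat_lit 14) (.e (nat_lit 352277) (nat_lit 11) (.e (nat_lit 426190) (nat_lit 9) (.e (nat_lit 426448) (nat_lit 20) (.e (nat_lit 114712) (nat_lit 21) (.e (nat_lit 57852) (nat_lit 252) .nil)))))) (.g (nat_lit 0) .nil .nil))) 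
(.lf (nat_lit 158079) (.g (nat_lit 3607) (.e (nat_lit 57424) (nat_lit 14) (.e (nat_lit 352277) (nat_lit 11) (.e (nat_lit 426344) (nat_lit 14) (.e (nat_lit 491560) (nat_lit 10) (.e (nat_lit 344090) (nat_lit 18) (.e (nat_lit 7266) (nat_lit 384) .nil)))))) (.g (nat_lit 0) .nil .nil)))))))))

noncomputable def tv2117 : DT := (.nd (nat_lit 0) (.nd (nat_lit 1) (.nd (nat_lit 2) (.nd (nat_lit 3) (.nd (nat_lit 4) (.nd (nat_lit 5) (.nd (nat_lit 6) 
(.lf (nat_lit 158080) (.g (nat_lit 3400) (.e (nat_lit 57424) (nat_lit 14) (.e (nat_lit 352277) (nat_lit 11) (.e (nat_lit 426344) (nat_lit 14) (.e (nat_lit 491560) (nat_lit 10) (.e (nat_lit 344094) (nat_lit 18) (.e (nat_lit 7266) (nat_lit 384) .nil)))))) (.g (nat_lit 0) .nil .nil))) 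
(.lf (nat_lit 158144) (.g (nat_lit 1842) (.e (nat_lit 57424) (nat_lit 14) (.e (nat_lit 352318) (nat_lit 24) (.e (nat_lit 123182) (nat_lit 264) (.e (nat_lit 1222) (nat_lit 90) (.e (nat_lit 81958) (nat_lit 24) .nil))))) .nil))) (.nd (nat_lit 6) 
(.lf (nat_lit 158112) (.g (nat_lit 1368) (.e (nat_lit 57424) (nat_lit 14) (.e (nat_lit 352309) (nat_lit 21) (.e (nat_lit 57871) (nat_lit 264) (.e (nat_lit 1220) (nat_lit 90) (.e (nat_lit 81959) (nat_lit 24) .nil))))) .nil)) 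
(.lf (nat_lit 158176) (.g (nat_lit 3421) (.e (nat_lit 57424) (nat_lit 14) (.e (nat_lit 352318) (nat_lit 24) (.e (nat_lit 123197) (nat_lit 266) (.e (nat_lit 57423) (nat_lit 14) (.e (nat_lit 352318) (nat_lit 24) (.e (nat_lit 123196) (nat_lit 266) .nil)))))) (.g (nat_lit 5) .nil .nil))))) (.nd (nat_lit 5) (.nd (nat_lit 6) 
(.lf (nat_lit 158096) (.g (nat_lit 435) (.e (nat_lit 57424) (nat_lit 14) (.e (nat_lit 352307) (nat_lit 21) (.e (nat_lit 57872) (nat_lit 264) .nil))) .nil)) 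
(.lf (nat_lit 158160) (.g (nat_lit 3354) (.e (nat_lit 57424) (nat_lit 14) (.e (nat_lit 352318) (nat_lit 24) (.e (nat_lit 123194) (nat_lit 266) (.e (nat_lit 57424) (nat_lit 14) (.e (nat_lit 352318) (nat_lit 24) (.e (nat_lit 123194) (nat_lit 266) .nil)))))) (.g (nat_lit 5) .nil .nil)))) (.nd (nat_lit 6) 
(.lf (nat_lit 158128) (.g (nat_lit 3370) (.e (nat_lit 57424) (nat_lit 14) (.e (nat_lit 352318) (nat_lit 24) (.e (nat_lit 123056) (nat_lit 155) (.e (nat_lit 122919) (nat_lit 15) (.e (nat_lit 360451) (nat_lit 0) (.e (nat_lit 7265) (nat_lit 384) .nil)))))) (.g (nat_lit 0) .nil .nil))) 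
(.lf (nat_lit 158192) (.g (nat_lit 2821) (.e (nat_lit 57424) (nat_lit 14) (.e (nat_lit 352318) (nat_lit 24) (.e (nat_lit 123197) (nat_lit 266) (.e (nat_lit 57427) (nat_lit 15) (.e (nat_lit 360457) (nat_lit 0) (.e (nat_lit 5946) (nat_lit 322) .nil)))))) (.g (nat_lit 4) .nil .nil)))))) (.nd (nat_lit 4) (.nd (nat_lit 5) (.nd (nat_lit 6) 
(.lf (nat_lit 158088) (.g (nat_lit 1202) (.e (nat_lit 57424) (nat_lit 14) (.e (nat_lit 352302) (nat_lit 20) (.e (nat_lit 2270) (nat_lit 149) (.e (nat_lit 761868) (nat_lit 5) (.e (nat_lit 1597) (nat_lit 111) .nil))))) .nil)) 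
(.lf (nat_lit 158152) (.g (nat_lit 1417) (.e (nat_lit 57424) (nat_lit 14) (.e (nat_lit 352318) (nat_lit 24) (.e (nat_lit 123184) (nat_lit 264) (.e (nat_lit 1222) (nat_lit 90) (.e (nat_lit 81935) (nat_lit 20) .nil))))) .nil))) (.nd (nat_lit 6) 
(.lf (nat_lit 158120) (.g (nat_lit 847) (.e (nat_lit 57424) (nat_lit 14) (.e (nat_lit 352316) (nat_lit 24) (.e (nat_lit 123185) (nat_lit 264) (.e (nat_lit 1223) (nat_lit 90) .nil)))) .nil)) 
(.lf (nat_lit 158184) (.g (nat_lit 2558) (.e (nat_lit 57424) (nat_lit 14) (.e (nat_lit 352318) (nat_lit 24) (.e (nat_lit 123197) (nat_lit 266) (.e (nat_lit 57426) (nat_lit 15) (.e (nat_lit 360455) (nat_lit 0) (.e (nat_lit 5934) (nat_lit 322) .nil)))))) (.g (nat_lit 4) .nil .nil))))) (.nd (nat_lit 5) (.nd (nat_lit 6) 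
(.lf (nat_lit 158104) (.g (nat_lit 615) (.e (nat_lit 57424) (nat_lit 14) (.e (nat_lit 352309) (nat_lit 21) (.e (nat_lit 57682) (nat_lit 155) .nil))) .nil)) 
(.lf (nat_lit 158168) (.g (nat_lit 4006) (.e (nat_lit 57424) (nat_lit 14) (.e (nat_lit 352318) (nat_lit 24) (.e (nat_lit 123195) (nat_lit 266) (.e (nat_lit 57427) (nat_lit 15) (.e (nat_lit 360450) (nat_lit 0) (.e (nat_lit 7936) (nat_lit 322) .nil)))))) (.g (nat_lit 5) .nil .nil)))) (.nd (nat_lit 6) 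
(.lf (nat_lit 158136) (.g (nat_lit 1180) (.e (nat_lit 57424) (nat_lit 14) (.e (nat_lit 352318) (nat_lit 24) (.e (nat_lit 123182) (nat_lit 264) (.e (nat_lit 1193) (nat_lit 88) .nil)))) .nil)) 
(.lf (nat_lit 158200) (.g (nat_lit 4418) (.e (nat_lit 57424) (nat_lit 14) (.e (nat_lit 352318) (nat_lit 24) (.e (nat_lit 123198) (nat_lit 266) (.e (nat_lit 57424) (nat_lit 14) (.e (nat_lit 352318) (nat_lit 24) (.e (nat_lit 123198) (nat_lit 266) .nil)))))) (.g (nat_lit 6) .nil .nil))))))) (.nd (nat_lit 3) (.nd (nat_lit 4) (.nd (nat_lit 5) (.nd (nat_lit 6) 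
(.lf (nat_lit 158084) (.g (nat_lit 2093) (.e (nat_lit 57424) (nat_lit 14) (.e (nat_lit 352278) (nat_lit 11) (.e (nat_lit 426313) (nat_lit 12) (.e (nat_lit 475214) (nat_lit 42) (.e (nat_lit 720931) (nat_lit 21) (.e (nat_lit 57851) (nat_lit 252) .nil)))))) (.g (nat_lit 4) .nil .nil))) 
(.lf (nat_lit 158148) (.g (nat_lit 1516) (.e (nat_lit 57424) (nat_lit 14) (.e (nat_lit 352318) (nat_lit 24) (.e (nat_lit 123183) (nat_lit 264) (.e (nat_lit 1222) (nat_lit 90) (.e (nat_lit 81948) (nat_lit 21) (.e (nat_lit 65280) (nat_lit 266) .nil)))))) (.g (nat_lit 4) .nil .nil)))) (.nd (nat_lit 6) 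
(.lf (nat_lit 158116) (.g (nat_lit 3277) (.e (nat_lit 57424) (nat_lit 14) (.e (nat_lit 352315) (nat_lit 23) (.e (nat_lit 98387) (nat_lit 33) (.e (nat_lit 491566) (nat_lit 12) (.e (nat_lit 385044) (nat_lit 21) .nil))))) .nil)) 
(.lf (nat_lit 158180) (.g (nat_lit 4015) (.e (nat_lit 57424) (nat_lit 14) (.e (nat_lit 352318) (nat_lit 24) (.e (nat_lit 123197) (nat_lit 266) (.e (nat_lit 57424) (nat_lit 14) (.e (nat_lit 352318) (nat_lit 24) (.e (nat_lit 123194) (nat_lit 266) .nil)))))) (.g (nat_lit 5) .nil .nil))))) (.nd (nat_lit 5) (.nd (nat_lit 6) 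
(.lf (nat_lit 158100) (.g (nat_lit 1040) (.e (nat_lit 57424) (nat_lit 14) (.e (nat_lit 352308) (nat_lit 21) (.e (nat_lit 57681) (nat_lit 155) (.e (nat_lit 122919) (nat_lit 15) (.e (nat_lit 360450) (nat_lit 0) .nil))))) .nil)) 
(.lf (nat_lit 158164) (.g (nat_lit 2341) (.e (nat_lit 57424) (nat_lit 14) (.e (nat_lit 352318) (nat_lit 24) (.e (nat_lit 123195) (nat_lit 266) (.e (nat_lit 57423) (nat_lit 14) (.e (nat_lit 352318) (nat_lit 24) .nil))))) .nil))) (.nd (nat_lit 6) 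
(.lf (nat_lit 158132) (.g (nat_lit 3172) (.e (nat_lit 57424) (nat_lit 14) (.e (nat_lit 352318) (nat_lit 24) (.e (nat_lit 123159) (nat_lit 254) (.e (nat_lit 163933) (nat_lit 17) (.e (nat_lit 466971) (nat_lit 21) (.e (nat_lit 164319) (nat_lit 228) .nil)))))) (.g (nat_lit 0) .nil .nil))) 
(.lf (nat_lit 158196) (.g (nat_lit 2804) (.e (nat_lit 57424) (nat_lit 14) (.e (nat_lit 352318) (nat_lit 24) (.e (nat_lit 123198) (nat_lit 266) (.e (nat_lit 57423) (nat_lit 14) (.e (nat_lit 352318) (nat_lit 24) (.e (nat_lit 123196) (nat_lit 266) .nil)))))) (.g (nat_lit 4) .nil .nil)))))) (.nd (nat_lit 4) (.nd (nat_lit 5) (.nd (nat_lit 6) 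
(.lf (nat_lit 158092) (.g (nat_lit 2064) (.e (nat_lit 57424) (nat_lit 14) (.e (nat_lit 352307) (nat_lit 21) (.e (nat_lit 57681) (nat_lit 155) (.e (nat_lit 122919) (nat_lit 15) (.e (nat_lit 360450) (nat_lit 0) .nil))))) .nil)) 
(.lf (nat_lit 158156) (.g (nat_lit 3505) (.e (nat_lit 57424) (nat_lit 14) (.e (nat_lit 352318) (nat_lit 24) (.e (nat_lit 123184) (nat_lit 264) (.e (nat_lit 1224) (nat_lit 90) (.e (nat_lit 81959) (nat_lit 24) (.e (nat_lit 123196) (nat_lit 266) .nil)))))) (.g (nat_lit 6) .nil .nil)))) (.nd (nat_lit 6) 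
(.lf (nat_lit 158124) (.g (nat_lit 3842) (.e (nat_lit 57424) (nat_lit 14) (.e (nat_lit 352316) (nat_lit 24) (.e (nat_lit 123198) (nat_lit 266) (.e (nat_lit 57424) (nat_lit 14) (.e (nat_lit 352318) (nat_lit 24) (.e (nat_lit 123198) (nat_lit 266) .nil)))))) (.g (nat_lit 5) .nil .nil))) 
(.lf (nat_lit 158188) (.g (nat_lit 1805) (.e (nat_lit 57424) (nat_lit 14) (.e (nat_lit 352318) (nat_lit 24) (.e (nat_lit 123197) (nat_lit 266) (.e (nat_lit 57426) (nat_lit 15) (.e (nat_lit 368384) (nat_lit 0) (.e (nat_lit 5944) (nat_lit 322) .nil)))))) (.g (nat_lit 4) .nil .nil))))) (.nd (nat_lit 5) (.nd (nat_lit 6) 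
(.lf (nat_lit 158108) (.g (nat_lit 1063) (.e (nat_lit 57424) (nat_lit 14) (.e (nat_lit 352309) (nat_lit 21) (.e (nat_lit 57684) (nat_lit 155) (.e (nat_lit 122917) (nat_lit 15) .nil)))) .nil)) 
(.lf (nat_lit 158172) (.g (nat_lit 3194) (.e (nat_lit 57424) (nat_lit 14) (.e (nat_lit 352318) (nat_lit 24) (.e (nat_lit 123195) (nat_lit 266) (.e (nat_lit 57427) (nat_lit 15) (.e (nat_lit 360457) (nat_lit 0) (.e (nat_lit 5949) (nat_lit 322) .nil)))))) (.g (nat_lit 4) .nil .nil)))) (.nd (nat_lit 6) 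
(.lf (nat_lit 158140) (.g (nat_lit 1217) (.e (nat_lit 57424) (nat_lit 14) (.e (nat_lit 352318) (nat_lit 24) (.e (nat_lit 123182) (nat_lit 264) (.e (nat_lit 1218) (nat_lit 90) .nil)))) .nil)) 
(.lf (nat_lit 158204) (.g (nat_lit 2488) (.e (nat_lit 57424) (nat_lit 14) (.e (nat_lit 352318) (nat_lit 24) (.e (nat_lit 123198) (nat_lit 266) (.e (nat_lit 57427) (nat_lit 15) (.e (nat_lit 360457) (nat_lit 0) (.e (nat_lit 5934) (nat_lit 322) .nil)))))) (.g (nat_lit 4) .nil .nil)))))))) (.nd (nat_lit 2) (.nd (nat_lit 3) (.nd (nat_lit 4) (.nd (nat_lit 5) (.nd (nat_lit 6) 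
(.lf (nat_lit 158082) (.g (nat_lit 2574) (.e (nat_lit 57424) (nat_lit 14) (.e (nat_lit 352277) (nat_lit 11) (.e (nat_lit 426344) (nat_lit 14) (.e (nat_lit 491560) (nat_lit 10) (.e (nat_lit 344096) (nat_lit 18) (.e (nat_lit 7261) (nat_lit 384) .nil)))))) (.g (nat_lit 5) .nil .nil))) 
(.lf (nat_lit 158146) (.g (nat_lit 3705) (.e (nat_lit 57424) (nat_lit 14) (.e (nat_lit 352318) (nat_lit 24) (.e (nat_lit 123182) (nat_lit 264) (.e (nat_lit 1224) (nat_lit 90) (.e (nat_lit 81959) (nat_lit 24) (.e (nat_lit 123196) (nat_lit 266) .nil)))))) (.g (nat_lit 6) .nil .nil)))) (.nd (nat_lit 6) 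
(.lf (nat_lit 158114) (.g (nat_lit 1052) (.e (nat_lit 57424) (nat_lit 14) (.e (nat_lit 352315) (nat_lit 23) (.e (nat_lit 98309) (nat_lit 0) (.e (nat_lit 7936) (nat_lit 362) .nil)))) .nil)) 
(.lf (nat_lit 158178) (.g (nat_lit 2672) (.e (nat_lit 57424) (nat_lit 14) (.e (nat_lit 352318) (nat_lit 24) (.e (nat_lit 123197) (nat_lit 266) (.e (nat_lit 57424) (nat_lit 14) (.e (nat_lit 352283) (nat_lit 20) .nil))))) .nil)))) (.nd (nat_lit 5) (.nd (nat_lit 6) 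
(.lf (nat_lit 158098) (.g (nat_lit 672) (.e (nat_lit 57424) (nat_lit 14) (.e (nat_lit 352307) (nat_lit 21) (.e (nat_lit 57873) (nat_lit 264) .nil))) .nil)) 
(.lf (nat_lit 158162) (.g (nat_lit 3954) (.e (nat_lit 57424) (nat_lit 14) (.e (nat_lit 352318) (nat_lit 24) (.e (nat_lit 123194) (nat_lit 266) (.e (nat_lit 57424) (nat_lit 14) (.e (nat_lit 352318) (nat_lit 24) (.e (nat_lit 123198) (nat_lit 266) .nil)))))) (.g (nat_lit 5) .nil .nil)))) (.nd (nat_lit 6) 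
(.lf (nat_lit 158130) (.g (nat_lit 612) (.e (nat_lit 57424) (nat_lit 14) (.e (nat_lit 352318) (nat_lit 24) (.e (nat_lit 123159) (nat_lit 254) .nil))) .nil)) 
(.lf (nat_lit 158194) (.g (nat_lit 2344) (.e (nat_lit 57424) (nat_lit 14) (.e (nat_lit 352318) (nat_lit 24) (.e (nat_lit 123197) (nat_lit 266) (.e (nat_lit 57428) (nat_lit 15) (.e (nat_lit 360457) (nat_lit 0) (.e (nat_lit 5948) (nat_lit 322) .nil)))))) (.g (nat_lit 4) .nil .nil)))))) (.nd (nat_lit 4) (.nd (nat_lit 5) (.nd (nat_lit 6) 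
(.lf (nat_lit 158090) (.g (nat_lit 1712) (.e (nat_lit 57424) (nat_lit 14) (.e (nat_lit 352302) (nat_lit 20) (.e (nat_lit 2281) (nat_lit 150) (.e (nat_lit 770072) (nat_lit 8) (.e (nat_lit 65617) (nat_lit 10) .nil))))) .nil)) 
(.lf (nat_lit 158154) (.g (nat_lit 1781) (.e (nat_lit 57424) (nat_lit 14) (.e (nat_lit 352318) (nat_lit 24) (.e (nat_lit 123184) (nat_lit 264) (.e (nat_lit 1222) (nat_lit 90) (.e (nat_lit 81958) (nat_lit 24) .nil))))) .nil))) (.nd (nat_lit 6) 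
(.lf (nat_lit 158122) (.g (nat_lit 2598) (.e (nat_lit 57424) (nat_lit 14) (.e (nat_lit 352316) (nat_lit 24) (.e (nat_lit 123198) (nat_lit 266) (.e (nat_lit 57424) (nat_lit 14) (.e (nat_lit 352316) (nat_lit 24) (.e (nat_lit 123198) (nat_lit 266) .nil)))))) (.g (nat_lit 4) .nil .nil))) 
(.lf (nat_lit 158186) (.g (nat_lit 2493) (.e (nat_lit 57424) (nat_lit 14) (.e (nat_lit 352318) (nat_lit 24) (.e (nat_lit 123197) (nat_lit 266) (.e (nat_lit 57426) (nat_lit 15) (.e (nat_lit 360457) (nat_lit 0) (.e (nat_lit 5947) (nat_lit 322) .nil)))))) (.g (nat_lit 4) .nil .nil))))) (.nd (nat_lit 5) (.nd (nat_lit 6) 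
(.lf (nat_lit 158106) (.g (nat_lit 1866) (.e (nat_lit 57424) (nat_lit 14) (.e (nat_lit 352309) (nat_lit 21) (.e (nat_lit 57683) (nat_lit 155) (.e (nat_lit 122919) (nat_lit 15) (.e (nat_lit 360450) (nat_lit 0) .nil))))) .nil)) 
(.lf (nat_lit 158170) (.g (nat_lit 3105) (.e (nat_lit 57424) (nat_lit 14) (.e (nat_lit 352318) (nat_lit 24) (.e (nat_lit 123195) (nat_lit 266) (.e (nat_lit 57427) (nat_lit 15) (.e (nat_lit 360457) (nat_lit 0) .nil))))) .nil))) (.nd (nat_lit 6) 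
(.lf (nat_lit 158138) (.g (nat_lit 3029) (.e (nat_lit 57424) (nat_lit 14) (.e (nat_lit 352318) (nat_lit 24) (.e (nat_lit 123182) (nat_lit 264) (.e (nat_lit 1201) (nat_lit 88) (.e (nat_lit 65617) (nat_lit 10) (.e (nat_lit 344103) (nat_lit 18) (.e (nat_lit 5949) (nat_lit 322) .nil))))))) (.g (nat_lit 4) .nil .nil))) 
(.lf (nat_lit 158202) (.g (nat_lit 2329) (.e (nat_lit 57424) (nat_lit 14) (.e (nat_lit 352318) (nat_lit 24) (.e (nat_lit 123198) (nat_lit 266) (.e (nat_lit 57427) (nat_lit 15) (.e (nat_lit 360450) (nat_lit 0) (.e (nat_lit 7936) (nat_lit 322) .nil)))))) (.g (nat_lit 4) .nil .nil))))))) (.nd (nat_lit 3) (.nd (nat_lit 4) (.nd (nat_lit 5) (.nd (nat_lit 6) 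
(.lf (nat_lit 158086) (.g (nat_lit 1122) (.e (nat_lit 57424) (nat_lit 14) (.e (nat_lit 352279) (nat_lit 19) (.e (nat_lit 499456) (nat_lit 30) (.e (nat_lit 450563) (nat_lit 0) (.e (nat_lit 7936) (nat_lit 247) .nil))))) (.g (nat_lit 4) .nil .nil))) 
(.lf (nat_lit 158150) (.g (nat_lit 193) (.e (nat_lit 57424) (nat_lit 14) (.e (nat_lit 352318) (nat_lit 24) (.e (nat_lit 123184) (nat_lit 264) .nil))) .nil))) (.nd (nat_lit 6) 
(.lf (nat_lit 158118) (.g (nat_lit 2670) (.e (nat_lit 57424) (nat_lit 14) (.e (nat_lit 352315) (nat_lit 23) (.e (nat_lit 98387) (nat_lit 33) (.e (nat_lit 491566) (nat_lit 12) (.e (nat_lit 385046) (nat_lit 21) .nil))))) .nil)) 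
(.lf (nat_lit 158182) (.g (nat_lit 3954) (.e (nat_lit 57424) (nat_lit 14) (.e (nat_lit 352318) (nat_lit 24) (.e (nat_lit 123197) (nat_lit 266) (.e (nat_lit 57424) (nat_lit 14) (.e (nat_lit 352318) (nat_lit 24) (.e (nat_lit 123197) (nat_lit 266) .nil)))))) (.g (nat_lit 6) .nil .nil))))) (.nd (nat_lit 5) (.nd (nat_lit 6) 
(.lf (nat_lit 158102) (.g (nat_lit 1649) (.e (nat_lit 57424) (nat_lit 14) (.e (nat_lit 352309) (nat_lit 21) (.e (nat_lit 57681) (nat_lit 155) (.e (nat_lit 122919) (nat_lit 15) (.e (nat_lit 360450) (nat_lit 0) .nil))))) .nil)) 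
(.lf (nat_lit 158166) (.g (nat_lit 3858) (.e (nat_lit 57424) (nat_lit 14) (.e (nat_lit 352318) (nat_lit 24) (.e (nat_lit 123195) (nat_lit 266) (.e (nat_lit 57424) (nat_lit 14) (.e (nat_lit 352318) (nat_lit 24) (.e (nat_lit 123197) (nat_lit 266) .nil)))))) (.g (nat_lit 5) .nil .nil)))) (.nd (nat_lit 6) 
(.lf (nat_lit 158134) (.g (nat_lit 2898) (.e (nat_lit 57424) (nat_lit 14) (.e (nat_lit 352318) (nat_lit 24) (.e (nat_lit 123161) (nat_lit 255) (.e (nat_lit 229412) (nat_lit 14) (.e (nat_lit 442421) (nat_lit 21) (.e (nat_lit 164319) (nat_lit 228) .nil)))))) (.g (nat_lit 6) .nil .nil))) 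
(.lf (nat_lit 158198) (.g (nat_lit 2147) (.e (nat_lit 57424) (nat_lit 14) (.e (nat_lit 352318) (nat_lit 24) (.e (nat_lit 123198) (nat_lit 266) (.e (nat_lit 57424) (nat_lit 14) (.e (nat_lit 352317) (nat_lit 24) .nil))))) .nil))))) (.nd (nat_lit 4) (.nd (nat_lit 5) (.nd (nat_lit 6) 
(.lf (nat_lit 158094) (.g (nat_lit 679) (.e (nat_lit 57424) (nat_lit 14) (.e (nat_lit 352307) (nat_lit 21) (.e (nat_lit 57683) (nat_lit 155) .nil))) .nil)) 
(.lf (nat_lit 158158) (.g (nat_lit 713) (.e (nat_lit 57424) (nat_lit 14) (.e (nat_lit 352318) (nat_lit 24) (.e (nat_lit 123191) (nat_lit 264) .nil))) .nil))) (.nd (nat_lit 6) 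
(.lf (nat_lit 158126) (.g (nat_lit 668) (.e (nat_lit 57424) (nat_lit 14) (.e (nat_lit 352318) (nat_lit 24) (.e (nat_lit 130816) (nat_lit 154) .nil))) .nil)) 
(.lf (nat_lit 158190) (.g (nat_lit 2526) (.e (nat_lit 57424) (nat_lit 14) (.e (nat_lit 352318) (nat_lit 24) (.e (nat_lit 123197) (nat_lit 266) (.e (nat_lit 57427) (nat_lit 15) (.e (nat_lit 360455) (nat_lit 0) (.e (nat_lit 5934) (nat_lit 322) .nil)))))) (.g (nat_lit 4) .nil .nil))))) (.nd (nat_lit 5) (.nd (nat_lit 6) 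
(.lf (nat_lit 158110) (.g (nat_lit 376) (.e (nat_lit 57424) (nat_lit 14) (.e (nat_lit 352309) (nat_lit 21) (.e (nat_lit 57857) (nat_lit 254) .nil))) .nil)) 
(.lf (nat_lit 158174) (.g (nat_lit 4168) (.e (nat_lit 57424) (nat_lit 14) (.e (nat_lit 352318) (nat_lit 24) (.e (nat_lit 123196) (nat_lit 266) (.e (nat_lit 57424) (nat_lit 14) (.e (nat_lit 352318) (nat_lit 24) (.e (nat_lit 123196) (nat_lit 266) .nil)))))) (.g (nat_lit 0) .nil .nil)))) (.nd (nat_lit 6) 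
(.lf (nat_lit 158142) (.g (nat_lit 1492) (.e (nat_lit 57424) (nat_lit 14) (.e (nat_lit 352318) (nat_lit 24) (.e (nat_lit 123182) (nat_lit 264) (.e (nat_lit 1222) (nat_lit 90) (.e (nat_lit 81935) (nat_lit 20) .nil))))) .nil)) 
(.lf (nat_lit 158206) (.g (nat_lit 1322) (.e (nat_lit 57424) (nat_lit 14) (.e (nat_lit 352318) (nat_lit 24) (.e (nat_lit 123198) (nat_lit 266) (.e (nat_lit 57427) (nat_lit 15) (.e (nat_lit 368384) (nat_lit 0) .nil))))) .nil)))))))) (.nd (nat_lit 1) (.nd (nat_lit 2) (.nd (nat_lit 3) (.nd (nat_lit 4) (.nd (nat_lit 5) (.nd (nat_lit 6) 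
(.lf (nat_lit 158081) (.g (nat_lit 1916) (.e (nat_lit 57424) (nat_lit 14) (.e (nat_lit 352277) (nat_lit 11) (.e (nat_lit 426344) (nat_lit 14) (.e (nat_lit 491560) (nat_lit 10) (.e (nat_lit 344095) (nat_lit 18) .nil))))) .nil)) 
(.lf (nat_lit 158145) (.g (nat_lit 3245) (.e (nat_lit 57424) (nat_lit 14) (.e (nat_lit 352318) (nat_lit 24) (.e (nat_lit 123182) (nat_lit 264) (.e (nat_lit 1224) (nat_lit 90) (.e (nat_lit 81957) (nat_lit 24) (.e (nat_lit 123196) (nat_lit 266) .nil)))))) (.g (nat_lit 5) .nil .nil)))) (.nd (nat_lit 6) 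
(.lf (nat_lit 158113) (.g (nat_lit 846) (.e (nat_lit 57424) (nat_lit 14) (.e (nat_lit 352312) (nat_lit 22) (.e (nat_lit 90153) (nat_lit 10) .nil))) .nil)) 
(.lf (nat_lit 158177) (.g (nat_lit 2673) (.e (nat_lit 57424) (nat_lit 14) (.e (nat_lit 352318) (nat_lit 24) (.e (nat_lit 123197) (nat_lit 266) (.e (nat_lit 57424) (nat_lit 14) (.e (nat_lit 352281) (nat_lit 20) .nil))))) .nil)))) (.nd (nat_lit 5) (.nd (nat_lit 6) 
(.lf (nat_lit 158097) (.g (nat_lit 1347) (.e (nat_lit 57424) (nat_lit 14) (.e (nat_lit 352307) (nat_lit 21) (.e (nat_lit 57872) (nat_lit 264) (.e (nat_lit 1221) (nat_lit 90) .nil)))) .nil)) 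
(.lf (nat_lit 158161) (.g (nat_lit 3761) (.e (nat_lit 57424) (nat_lit 14) (.e (nat_lit 352318) (nat_lit 24) (.e (nat_lit 123194) (nat_lit 266) (.e (nat_lit 57424) (nat_lit 14) (.e (nat_lit 352318) (nat_lit 24) (.e (nat_lit 123196) (nat_lit 266) .nil)))))) (.g (nat_lit 5) .nil .nil)))) (.nd (nat_lit 6) 
(.lf (nat_lit 158129) (.g (nat_lit 668) (.e (nat_lit 57424) (nat_lit 14) (.e (nat_lit 352318) (nat_lit 24) (.e (nat_lit 130816) (nat_lit 155) .nil))) .nil)) 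
(.lf (nat_lit 158193) (.g (nat_lit 1897) (.e (nat_lit 57424) (nat_lit 14) (.e (nat_lit 352318) (nat_lit 24) (.e (nat_lit 123197) (nat_lit 266) (.e (nat_lit 57428) (nat_lit 15) (.e (nat_lit 360457) (nat_lit 0) .nil))))) .nil))))) (.nd (nat_lit 4) (.nd (nat_lit 5) (.nd (nat_lit 6) 
(.lf (nat_lit 158089) (.g (nat_lit 1350) (.e (nat_lit 57424) (nat_lit 14) (.e (nat_lit 352302) (nat_lit 20) (.e (nat_lit 2281) (nat_lit 150) (.e (nat_lit 770058) (nat_lit 5) (.e (nat_lit 1586) (nat_lit 111) .nil))))) .nil)) 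
(.lf (nat_lit 158153) (.g (nat_lit 1933) (.e (nat_lit 57424) (nat_lit 14) (.e (nat_lit 352318) (nat_lit 24) (.e (nat_lit 123184) (nat_lit 264) (.e (nat_lit 1222) (nat_lit 90) (.e (nat_lit 81948) (nat_lit 21) (.e (nat_lit 65280) (nat_lit 266) .nil)))))) (.g (nat_lit 4) .nil .nil)))) (.nd (nat_lit 6) 
(.lf (nat_lit 158121) (.g (nat_lit 2913) (.e (nat_lit 57424) (nat_lit 14) (.e (nat_lit 352316) (nat_lit 24) (.e (nat_lit 123197) (nat_lit 266) (.e (nat_lit 57424) (nat_lit 14) (.e (nat_lit 352318) (nat_lit 24) (.e (nat_lit 123198) (nat_lit 266) .nil)))))) (.g (nat_lit 4) .nil .nil))) 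
(.lf (nat_lit 158185) (.g (nat_lit 3037) (.e (nat_lit 57424) (nat_lit 14) (.e (nat_lit 352318) (nat_lit 24) (.e (nat_lit 123197) (nat_lit 266) (.e (nat_lit 57426) (nat_lit 15) (.e (nat_lit 360456) (nat_lit 0) (.e (nat_lit 5934) (nat_lit 322) .nil)))))) (.g (nat_lit 5) .nil .nil))))) (.nd (nat_lit 5) (.nd (nat_lit 6) 
(.lf (nat_lit 158105) (.g (nat_lit 2622) (.e (nat_lit 57424) (nat_lit 14) (.e (nat_lit 352309) (nat_lit 21) (.e (nat_lit 57682) (nat_lit 155) (.e (nat_lit 122919) (nat_lit 15) (.e (nat_lit 360451) (nat_lit 0) (.e (nat_lit 7261) (nat_lit 384) .nil)))))) (.g (nat_lit 5) .nil .nil))) 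
(.lf (nat_lit 158169) (.g (nat_lit 2770) (.e (nat_lit 57424) (nat_lit 14) (.e (nat_lit 352318) (nat_lit 24) (.e (nat_lit 123195) (nat_lit 266) (.e (nat_lit 57427) (nat_lit 15) (.e (nat_lit 360456) (nat_lit 0) .nil))))) .nil))) (.nd (nat_lit 6) 
(.lf (nat_lit 158137) (.g (nat_lit 2811) (.e (nat_lit 57424) (nat_lit 14) (.e (nat_lit 352318) (nat_lit 24) (.e (nat_lit 123182) (nat_lit 264) (.e (nat_lit 1201) (nat_lit 88) (.e (nat_lit 65617) (nat_lit 10) (.e (nat_lit 344103) (nat_lit 18) (.e (nat_lit 5948) (nat_lit 322) .nil))))))) (.g (nat_lit 4) .nil .nil))) 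
(.lf (nat_lit 158201) (.g (nat_lit 2200) (.e (nat_lit 57424) (nat_lit 14) (.e (nat_lit 352318) (nat_lit 24) (.e (nat_lit 123198) (nat_lit 266) (.e (nat_lit 57426) (nat_lit 15) (.e (nat_lit 360455) (nat_lit 0) (.e (nat_lit 5944) (nat_lit 322) .nil)))))) (.g (nat_lit 4) .nil .nil))))))) (.nd (nat_lit 3) (.nd (nat_lit 4) (.nd (nat_lit 5) (.nd (nat_lit 6) 
(.lf (nat_lit 158085) (.g (nat_lit 1063) (.e (nat_lit 57424) (nat_lit 14) (.e (nat_lit 352279) (nat_lit 19) (.e (nat_lit 499456) (nat_lit 30) (.e (nat_lit 450561) (nat_lit 0) (.e (nat_lit 7936) (nat_lit 247) .nil))))) (.g (nat_lit 4) .nil .nil))) 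
(.lf (nat_lit 158149) (.g (nat_lit 1488) (.e (nat_lit 57424) (nat_lit 14) (.e (nat_lit 352318) (nat_lit 24) (.e (nat_lit 123183) (nat_lit 264) (.e (nat_lit 1222) (nat_lit 90) (.e (nat_lit 81958) (nat_lit 24) .nil))))) .nil))) (.nd (nat_lit 6) 
(.lf (nat_lit 158117) (.g (nat_lit 3631) (.e (nat_lit 57424) (nat_lit 14) (.e (nat_lit 352315) (nat_lit 23) (.e (nat_lit 98387) (nat_lit 33) (.e (nat_lit 491566) (nat_lit 12) (.e (nat_lit 385045) (nat_lit 21) (.e (nat_lit 4281) (nat_lit 253) .nil)))))) (.g (nat_lit 4) .nil .nil))) 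
(.lf (nat_lit 158181) (.g (nat_lit 4403) (.e (nat_lit 57424) (nat_lit 14) (.e (nat_lit 352318) (nat_lit 24) (.e (nat_lit 123197) (nat_lit 266) (.e (nat_lit 57424) (nat_lit 14) (.e (nat_lit 352318) (nat_lit 24) (.e (nat_lit 123196) (nat_lit 266) .nil)))))) (.g (nat_lit 5) .nil .nil))))) (.nd (nat_lit 5) (.nd (nat_lit 6) 
(.lf (nat_lit 158101) (.g (nat_lit 2867) (.e (nat_lit 57424) (nat_lit 14) (.e (nat_lit 352309) (nat_lit 21) (.e (nat_lit 57680) (nat_lit 155) (.e (nat_lit 122919) (nat_lit 15) (.e (nat_lit 360451) (nat_lit 0) (.e (nat_lit 7261) (nat_lit 384) .nil)))))) (.g (nat_lit 5) .nil .nil))) 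
(.lf (nat_lit 158165) (.g (nat_lit 3593) (.e (nat_lit 57424) (nat_lit 14) (.e (nat_lit 352318) (nat_lit 24) (.e (nat_lit 123195) (nat_lit 266) (.e (nat_lit 57424) (nat_lit 14) (.e (nat_lit 352318) (nat_lit 24) (.e (nat_lit 123196) (nat_lit 266) .nil)))))) (.g (nat_lit 5) .nil .nil)))) (.nd (nat_lit 6) 
(.lf (nat_lit 158133) (.g (nat_lit 569) (.e (nat_lit 57424) (nat_lit 14) (.e (nat_lit 352318) (nat_lit 24) (.e (nat_lit 123160) (nat_lit 254) .nil))) .nil)) 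
(.lf (nat_lit 158197) (.g (nat_lit 3299) (.e (nat_lit 57424) (nat_lit 14) (.e (nat_lit 352318) (nat_lit 24) (.e (nat_lit 123198) (nat_lit 266) (.e (nat_lit 57424) (nat_lit 14) (.e (nat_lit 352285) (nat_lit 20) (.e (nat_lit 970) (nat_lit 81) (.e (nat_lit 5954) (nat_lit 322) .nil))))))) (.g (nat_lit 4) .nil .nil)))))) (.nd (nat_lit 4) (.nd (nat_lit 5) (.nd (nat_lit 6) 
(.lf (nat_lit 158093) (.g (nat_lit 2454) (.e (nat_lit 57424) (nat_lit 14) (.e (nat_lit 352307) (nat_lit 21) (.e (nat_lit 57682) (nat_lit 155) (.e (nat_lit 122919) (nat_lit 15) (.e (nat_lit 360451) (nat_lit 0) (.e (nat_lit 7261) (nat_lit 384) .nil)))))) (.g (nat_lit 5) .nil .nil))) 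
(.lf (nat_lit 158157) (.g (nat_lit 416) (.e (nat_lit 57424) (nat_lit 14) (.e (nat_lit 352318) (nat_lit 24) (.e (nat_lit 123185) (nat_lit 264) .nil))) .nil))) (.nd (nat_lit 6) 
(.lf (nat_lit 158125) (.g (nat_lit 1444) (.e (nat_lit 57424) (nat_lit 14) (.e (nat_lit 352317) (nat_lit 24) (.e (nat_lit 123161) (nat_lit 255) (.e (nat_lit 229412) (nat_lit 14) (.e (nat_lit 442421) (nat_lit 21) (.e (nat_lit 164319) (nat_lit 228) .nil)))))) (.g (nat_lit 4) .nil .nil))) 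
(.lf (nat_lit 158189) (.g (nat_lit 2668) (.e (nat_lit 57424) (nat_lit 14) (.e (nat_lit 352318) (nat_lit 24) (.e (nat_lit 123197) (nat_lit 266) (.e (nat_lit 57427) (nat_lit 15) (.e (nat_lit 360450) (nat_lit 0) (.e (nat_lit 7936) (nat_lit 322) .nil)))))) (.g (nat_lit 5) .nil .nil))))) (.nd (nat_lit 5) (.nd (nat_lit 6) 
(.lf (nat_lit 158109) (.g (nat_lit 1597) (.e (nat_lit 57424) (nat_lit 14) (.e (nat_lit 352309) (nat_lit 21) (.e (nat_lit 57684) (nat_lit 155) (.e (nat_lit 122919) (nat_lit 15) (.e (nat_lit 360450) (nat_lit 0) .nil))))) .nil)) 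
(.lf (nat_lit 158173) (.g (nat_lit 574) (.e (nat_lit 57424) (nat_lit 14) (.e (nat_lit 352318) (nat_lit 24) (.e (nat_lit 123196) (nat_lit 266) .nil))) .nil))) (.nd (nat_lit 6) 
(.lf (nat_lit 158141) (.g (nat_lit 2896) (.e (nat_lit 57424) (nat_lit 14) (.e (nat_lit 352318) (nat_lit 24) (.e (nat_lit 123182) (nat_lit 264) (.e (nat_lit 1222) (nat_lit 90) (.e (nat_lit 81933) (nat_lit 20) (.e (nat_lit 970) (nat_lit 81) (.e (nat_lit 5954) (nat_lit 322) .nil))))))) (.g (nat_lit 4) .nil .nil))) 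
(.lf (nat_lit 158205) (.g (nat_lit 3218) (.e (nat_lit 57424) (nat_lit 14) (.e (nat_lit 352318) (nat_lit 24) (.e (nat_lit 123198) (nat_lit 266) (.e (nat_lit 57427) (nat_lit 15) (.e (nat_lit 360457) (nat_lit 0) (.e (nat_lit 5947) (nat_lit 322) .nil)))))) (.g (nat_lit 5) .nil .nil)))))))) (.nd (nat_lit 2) (.nd (nat_lit 3) (.nd (nat_lit 4) (.nd (nat_lit 5) (.nd (nat_lit 6) 
(.lf (nat_lit 158083) (.g (nat_lit 1891) (.e (nat_lit 57424) (nat_lit 14) (.e (nat_lit 352278) (nat_lit 11) (.e (nat_lit 426313) (nat_lit 12) (.e (nat_lit 475214) (nat_lit 42) (.e (nat_lit 720930) (nat_lit 21) (.e (nat_lit 57851) (nat_lit 252) .nil)))))) (.g (nat_lit 4) .nil .nil))) 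
(.lf (nat_lit 158147) (.g (nat_lit 1063) (.e (nat_lit 57424) (nat_lit 14) (.e (nat_lit 352318) (nat_lit 24) (.e (nat_lit 123182) (nat_lit 264) (.e (nat_lit 7936) (nat_lit 90) .nil)))) .nil))) (.nd (nat_lit 6) 
(.lf (nat_lit 158115) (.g (nat_lit 674) (.e (nat_lit 57424) (nat_lit 14) (.e (nat_lit 352315) (nat_lit 23) (.e (nat_lit 106240) (nat_lit 15) .nil))) .nil)) 
(.lf (nat_lit 158179) (.g (nat_lit 2407) (.e (nat_lit 57424) (nat_lit 14) (.e (nat_lit 352318) (nat_lit 24) (.e (nat_lit 123197) (nat_lit 266) (.e (nat_lit 57424) (nat_lit 14) (.e (nat_lit 352317) (nat_lit 24) .nil))))) .nil)))) (.nd (nat_lit 5) (.nd (nat_lit 6) 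
(.lf (nat_lit 158099) (.g (nat_lit 2353) (.e (nat_lit 57424) (nat_lit 14) (.e (nat_lit 352307) (nat_lit 21) (.e (nat_lit 57873) (nat_lit 264) (.e (nat_lit 1221) (nat_lit 90) (.e (nat_lit 81959) (nat_lit 24) .nil))))) .nil)) 
(.lf (nat_lit 158163) (.g (nat_lit 433) (.e (nat_lit 57424) (nat_lit 14) (.e (nat_lit 352318) (nat_lit 24) (.e (nat_lit 123195) (nat_lit 266) .nil))) .nil))) (.nd (nat_lit 6) 
(.lf (nat_lit 158131) (.g (nat_lit 3036) (.e (nat_lit 57424) (nat_lit 14) (.e (nat_lit 352318) (nat_lit 24) (.e (nat_lit 123159) (nat_lit 254) (.e (nat_lit 163932) (nat_lit 17) (.e (nat_lit 466972) (nat_lit 21) (.e (nat_lit 164319) (nat_lit 228) .nil)))))) (.g (nat_lit 0) .nil .nil))) 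
(.lf (nat_lit 158195) (.g (nat_lit 3122) (.e (nat_lit 57424) (nat_lit 14) (.e (nat_lit 352318) (nat_lit 24) (.e (nat_lit 123197) (nat_lit 266) (.e (nat_lit 57436) (nat_lit 17) (.e (nat_lit 376860) (nat_lit 21) (.e (nat_lit 65280) (nat_lit 266) .nil)))))) (.g (nat_lit 5) .nil .nil)))))) (.nd (nat_lit 4) (.nd (nat_lit 5) (.nd (nat_lit 6) 
(.lf (nat_lit 158091) (.g (nat_lit 1747) (.e (nat_lit 57424) (nat_lit 14) (.e (nat_lit 352307) (nat_lit 21) (.e (nat_lit 57681) (nat_lit 155) (.e (nat_lit 122917) (nat_lit 15) .nil)))) .nil)) 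
(.lf (nat_lit 158155) (.g (nat_lit 3018) (.e (nat_lit 57424) (nat_lit 14) (.e (nat_lit 352318) (nat_lit 24) (.e (nat_lit 123184) (nat_lit 264) (.e (nat_lit 1224) (nat_lit 90) (.e (nat_lit 81957) (nat_lit 24) (.e (nat_lit 123194) (nat_lit 266) .nil)))))) (.g (nat_lit 5) .nil .nil)))) (.nd (nat_lit 6) 
(.lf (nat_lit 158123) (.g (nat_lit 2780) (.e (nat_lit 57424) (nat_lit 14) (.e (nat_lit 352316) (nat_lit 24) (.e (nat_lit 123198) (nat_lit 266) (.e (nat_lit 57424) (nat_lit 14) (.e (nat_lit 352318) (nat_lit 24) (.e (nat_lit 123197) (nat_lit 266) .nil)))))) (.g (nat_lit 4) .nil .nil))) 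
(.lf (nat_lit 158187) (.g (nat_lit 2756) (.e (nat_lit 57424) (nat_lit 14) (.e (nat_lit 352318) (nat_lit 24) (.e (nat_lit 123197) (nat_lit 266) (.e (nat_lit 57426) (nat_lit 15) (.e (nat_lit 368384) (nat_lit 0) (.e (nat_lit 5937) (nat_lit 322) .nil)))))) (.g (nat_lit 4) .nil .nil))))) (.nd (nat_lit 5) (.nd (nat_lit 6) 
(.lf (nat_lit 158107) (.g (nat_lit 1915) (.e (nat_lit 57424) (nat_lit 14) (.e (nat_lit 352309) (nat_lit 21) (.e (nat_lit 57683) (nat_lit 155) (.e (nat_lit 122919) (nat_lit 15) (.e (nat_lit 360451) (nat_lit 0) .nil))))) .nil)) 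
(.lf (nat_lit 158171) (.g (nat_lit 3626) (.e (nat_lit 57424) (nat_lit 14) (.e (nat_lit 352318) (nat_lit 24) (.e (nat_lit 123195) (nat_lit 266) (.e (nat_lit 57427) (nat_lit 15) (.e (nat_lit 360457) (nat_lit 0) (.e (nat_lit 5948) (nat_lit 322) .nil)))))) (.g (nat_lit 4) .nil .nil)))) (.nd (nat_lit 6) 
(.lf (nat_lit 158139) (.g (nat_lit 2336) (.e (nat_lit 57424) (nat_lit 14) (.e (nat_lit 352318) (nat_lit 24) (.e (nat_lit 123182) (nat_lit 264) (.e (nat_lit 1212) (nat_lit 89) (.e (nat_lit 73787) (nat_lit 45) (.e (nat_lit 2538) (nat_lit 158) (.e (nat_lit 8446) (nat_lit 140) .nil))))))) (.g (nat_lit 4) .nil .nil))) 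
(.lf (nat_lit 158203) (.g (nat_lit 2535) (.e (nat_lit 57424) (nat_lit 14) (.e (nat_lit 352318) (nat_lit 24) (.e (nat_lit 123198) (nat_lit 266) (.e (nat_lit 57427) (nat_lit 15) (.e (nat_lit 360456) (nat_lit 0) (.e (nat_lit 5934) (nat_lit 322) .nil)))))) (.g (nat_lit 4) .nil .nil))))))) (.nd (nat_lit 3) (.nd (nat_lit 4) (.nd (nat_lit 5) (.nd (nat_lit 6) 
(.lf (nat_lit 158087) (.g (nat_lit 970) (.e (nat_lit 57424) (nat_lit 14) (.e (nat_lit 352302) (nat_lit 20) (.e (nat_lit 2270) (nat_lit 149) (.e (nat_lit 761867) (nat_lit 5) .nil)))) .nil)) 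
(.lf (nat_lit 158151) (.g (nat_lit 2784) (.e (nat_lit 57424) (nat_lit 14) (.e (nat_lit 352318) (nat_lit 24) (.e (nat_lit 123184) (nat_lit 264) (.e (nat_lit 1222) (nat_lit 90) (.e (nat_lit 81933) (nat_lit 20) (.e (nat_lit 970) (nat_lit 81) (.e (nat_lit 5954) (nat_lit 322) .nil))))))) (.g (nat_lit 4) .nil .nil)))) (.nd (nat_lit 6) 
(.lf (nat_lit 158119) (.g (nat_lit 3114) (.e (nat_lit 57424) (nat_lit 14) (.e (nat_lit 352315) (nat_lit 23) (.e (nat_lit 98387) (nat_lit 33) (.e (nat_lit 491566) (nat_lit 12) (.e (nat_lit 385051) (nat_lit 21) .nil))))) .nil)) 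
(.lf (nat_lit 158183) (.g (nat_lit 3925) (.e (nat_lit 57424) (nat_lit 14) (.e (nat_lit 352318) (nat_lit 24) (.e (nat_lit 123197) (nat_lit 266) (.e (nat_lit 57424) (nat_lit 14) (.e (nat_lit 352318) (nat_lit 24) (.e (nat_lit 123198) (nat_lit 266) .nil)))))) (.g (nat_lit 5) .nil .nil))))) (.nd (nat_lit 5) (.nd (nat_lit 6) 
(.lf (nat_lit 158103) (.g (nat_lit 3228) (.e (nat_lit 57424) (nat_lit 14) (.e (nat_lit 352309) (nat_lit 21) (.e (nat_lit 57681) (nat_lit 155) (.e (nat_lit 122919) (nat_lit 15) (.e (nat_lit 360451) (nat_lit 0) (.e (nat_lit 7261) (nat_lit 384) .nil)))))) (.g (nat_lit 6) .nil .nil))) 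
(.lf (nat_lit 158167) (.g (nat_lit 3804) (.e (nat_lit 57424) (nat_lit 14) (.e (nat_lit 352318) (nat_lit 24) (.e (nat_lit 123195) (nat_lit 266) (.e (nat_lit 57424) (nat_lit 14) (.e (nat_lit 352318) (nat_lit 24) (.e (nat_lit 123198) (nat_lit 266) .nil)))))) (.g (nat_lit 5) .nil .nil)))) (.nd (nat_lit 6) 
(.lf (nat_lit 158135) (.g (nat_lit 857) (.e (nat_lit 57424) (nat_lit 14) (.e (nat_lit 352318) (nat_lit 24) (.e (nat_lit 123181) (nat_lit 264) (.e (nat_lit 1217) (nat_lit 90) .nil)))) .nil)) 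
(.lf (nat_lit 158199) (.g (nat_lit 4331) (.e (nat_lit 57424) (nat_lit 14) (.e (nat_lit 352318) (nat_lit 24) (.e (nat_lit 123198) (nat_lit 266) (.e (nat_lit 57424) (nat_lit 14) (.e (nat_lit 352318) (nat_lit 24) (.e (nat_lit 123196) (nat_lit 266) .nil)))))) (.g (nat_lit 5) .nil .nil)))))) (.nd (nat_lit 4) (.nd (nat_lit 5) (.nd (nat_lit 6) 
(.lf (nat_lit 158095) (.g (nat_lit 2418) (.e (nat_lit 57424) (nat_lit 14) (.e (nat_lit 352307) (nat_lit 21) (.e (nat_lit 57683) (nat_lit 155) (.e (nat_lit 122919) (nat_lit 15) (.e (nat_lit 360451) (nat_lit 0) .nil))))) .nil)) 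
(.lf (nat_lit 158159) (.g (nat_lit 640) (.e (nat_lit 57424) (nat_lit 14) (.e (nat_lit 352318) (nat_lit 24) (.e (nat_lit 123194) (nat_lit 266) .nil))) .nil))) (.nd (nat_lit 6) 
(.lf (nat_lit 158127) (.g (nat_lit 2412) (.e (nat_lit 57424) (nat_lit 14) (.e (nat_lit 352318) (nat_lit 24) (.e (nat_lit 130816) (nat_lit 154) (.e (nat_lit 57427) (nat_lit 15) (.e (nat_lit 360451) (nat_lit 0) (.e (nat_lit 7265) (nat_lit 384) .nil)))))) (.g (nat_lit 5) .nil .nil))) 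
(.lf (nat_lit 158191) (.g (nat_lit 2709) (.e (nat_lit 57424) (nat_lit 14) (.e (nat_lit 352318) (nat_lit 24) (.e (nat_lit 123197) (nat_lit 266) (.e (nat_lit 57427) (nat_lit 15) (.e (nat_lit 360457) (nat_lit 0) (.e (nat_lit 5934) (nat_lit 322) .nil)))))) (.g (nat_lit 4) .nil .nil))))) (.nd (nat_lit 5) (.nd (nat_lit 6) 
(.lf (nat_lit 158111) (.g (nat_lit 2651) (.e (nat_lit 57424) (nat_lit 14) (.e (nat_lit 352309) (nat_lit 21) (.e (nat_lit 57857) (nat_lit 254) (.e (nat_lit 163920) (nat_lit 14) (.e (nat_lit 442430) (nat_lit 24) (.e (nat_lit 229637) (nat_lit 228) .nil)))))) (.g (nat_lit 5) .nil .nil))) 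
(.lf (nat_lit 158175) (.g (nat_lit 318) (.e (nat_lit 57424) (nat_lit 14) (.e (nat_lit 352318) (nat_lit 24) (.e (nat_lit 123197) (nat_lit 266) .nil))) .nil))) (.nd (nat_lit 6) 
(.lf (nat_lit 158143) (.g (nat_lit 1886) (.e (nat_lit 57424) (nat_lit 14) (.e (nat_lit 352318) (nat_lit 24) (.e (nat_lit 123182) (nat_lit 264) (.e (nat_lit 1222) (nat_lit 90) (.e (nat_lit 81948) (nat_lit 21) (.e (nat_lit 65280) (nat_lit 266) .nil)))))) (.g (nat_lit 4) .nil .nil))) 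
(.lf (nat_lit 158207) (.g (nat_lit 2652) (.e (nat_lit 57424) (nat_lit 14) (.e (nat_lit 352318) (nat_lit 24) (.e (nat_lit 123198) (nat_lit 266) (.e (nat_lit 57428) (nat_lit 15) (.e (nat_lit 360457) (nat_lit 0) (.e (nat_lit 5947) (nat_lit 322) .nil)))))) (.g (nat_lit 4) .nil .nil))))))))))

noncomputable def tv2118 : DT := (.nd (nat_lit 0) (.nd (nat_lit 1) (.nd (nat_lit 2) (.nd (nat_lit 3) (.nd (nat_lit 4) (.nd (nat_lit 5) 
(.lf (nat_lit 158208) (.g (nat_lit 3306) (.e (nat_lit 57424) (nat_lit 14) (.e (nat_lit 352318) (nat_lit 24) (.e (nat_lit 123198) (nat_lit 266) (.e (nat_lit 57436) (nat_lit 17) (.e (nat_lit 376860) (nat_lit 21) (.e (nat_lit 65280) (nat_lit 266) .nil)))))) (.g (nat_lit 5) .nil .nil))) 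
(.lf (nat_lit 158240) (.g (nat_lit 2180) (.e (nat_lit 57424) (nat_lit 14) (.e (nat_lit 352323) (nat_lit 26) (.e (nat_lit 147496) (nat_lit 11) (.e (nat_lit 24640) (nat_lit 10) (.e (nat_lit 344095) (nat_lit 18) (.e (nat_lit 7261) (nat_lit 384) .nil)))))) (.g (nat_lit 4) .nil .nil)))) (.nd (nat_lit 5) 
(.lf (nat_lit 158224) (.g (nat_lit 2172) (.e (nat_lit 57424) (nat_lit 14) (.e (nat_lit 352322) (nat_lit 26) (.e (nat_lit 147496) (nat_lit 11) (.e (nat_lit 24639) (nat_lit 10) (.e (nat_lit 344095) (nat_lit 18) (.e (nat_lit 7261) (nat_lit 384) .nil)))))) (.g (nat_lit 4) .nil .nil))) 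
(.lf (nat_lit 158256) (.g (nat_lit 738) (.e (nat_lit 57424) (nat_lit 14) (.e (nat_lit 352324) (nat_lit 26) (.e (nat_lit 147494) (nat_lit 11) (.e (nat_lit 24641) (nat_lit 10) .nil)))) .nil)))) (.nd (nat_lit 4) (.nd (nat_lit 5) 
(.lf (nat_lit 158216) (.g (nat_lit 2339) (.e (nat_lit 57424) (nat_lit 14) (.e (nat_lit 352322) (nat_lit 26) (.e (nat_lit 147495) (nat_lit 11) (.e (nat_lit 24640) (nat_lit 10) (.e (nat_lit 344091) (nat_lit 18) (.e (nat_lit 7261) (nat_lit 384) .nil)))))) (.g (nat_lit 4) .nil .nil))) 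
(.lf (nat_lit 158248) (.g (nat_lit 632) (.e (nat_lit 57424) (nat_lit 14) (.e (nat_lit 352324) (nat_lit 26) (.e (nat_lit 147492) (nat_lit 11) .nil))) .nil))) (.nd (nat_lit 5) 
(.lf (nat_lit 158232) (.g (nat_lit 1352) (.e (nat_lit 57424) (nat_lit 14) (.e (nat_lit 352322) (nat_lit 26) (.e (nat_lit 147496) (nat_lit 11) (.e (nat_lit 24641) (nat_lit 10) .nil)))) .nil)) 
(.lf (nat_lit 158264) (.g (nat_lit 2937) (.e (nat_lit 57424) (nat_lit 14) (.e (nat_lit 352324) (nat_lit 26) (.e (nat_lit 147495) (nat_lit 11) (.e (nat_lit 24640) (nat_lit 10) (.e (nat_lit 344094) (nat_lit 18) (.e (nat_lit 7261) (nat_lit 384) .nil)))))) (.g (nat_lit 4) .nil .nil)))))) (.nd (nat_lit 3) (.nd (nat_lit 4) (.nd (nat_lit 5) 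
(.lf (nat_lit 158212) (.g (nat_lit 1801) (.e (nat_lit 57424) (nat_lit 14) (.e (nat_lit 352322) (nat_lit 26) (.e (nat_lit 147495) (nat_lit 11) (.e (nat_lit 24639) (nat_lit 10) (.e (nat_lit 344091) (nat_lit 18) .nil))))) .nil)) 
(.lf (nat_lit 158244) (.g (nat_lit 2039) (.e (nat_lit 57424) (nat_lit 14) (.e (nat_lit 352324) (nat_lit 26) (.e (nat_lit 147465) (nat_lit 9) (.e (nat_lit 334) (nat_lit 26) (.e (nat_lit 376857) (nat_lit 21) (.e (nat_lit 65280) (nat_lit 154) .nil)))))) (.g (nat_lit 4) .nil .nil)))) (.nd (nat_lit 5) 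
(.lf (nat_lit 158228) (.g (nat_lit 2246) (.e (nat_lit 57424) (nat_lit 14) (.e (nat_lit 352322) (nat_lit 26) (.e (nat_lit 147496) (nat_lit 11) (.e (nat_lit 24640) (nat_lit 10) (.e (nat_lit 344094) (nat_lit 18) .nil))))) .nil)) 
(.lf (nat_lit 158260) (.g (nat_lit 3364) (.e (nat_lit 57424) (nat_lit 14) (.e (nat_lit 352324) (nat_lit 26) (.e (nat_lit 147495) (nat_lit 11) (.e (nat_lit 24639) (nat_lit 10) (.e (nat_lit 344096) (nat_lit 18) (.e (nat_lit 7263) (nat_lit 384) .nil)))))) (.g (nat_lit 5) .nil .nil))))) (.nd (nat_lit 4) (.nd (nat_lit 5) 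
(.lf (nat_lit 158220) (.g (nat_lit 3201) (.e (nat_lit 57424) (nat_lit 14) (.e (nat_lit 352322) (nat_lit 26) (.e (nat_lit 147495) (nat_lit 11) (.e (nat_lit 24640) (nat_lit 10) (.e (nat_lit 344096) (nat_lit 18) (.e (nat_lit 7261) (nat_lit 384) .nil)))))) (.g (nat_lit 5) .nil .nil))) 
(.lf (nat_lit 158252) (.g (nat_lit 1835) (.e (nat_lit 57424) (nat_lit 14) (.e (nat_lit 352324) (nat_lit 26) (.e (nat_lit 147494) (nat_lit 11) (.e (nat_lit 24640) (nat_lit 10) (.e (nat_lit 344094) (nat_lit 18) .nil))))) .nil))) (.nd (nat_lit 5) 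
(.lf (nat_lit 158236) (.g (nat_lit 1921) (.e (nat_lit 57424) (nat_lit 14) (.e (nat_lit 352323) (nat_lit 26) (.e (nat_lit 147496) (nat_lit 11) (.e (nat_lit 24639) (nat_lit 10) (.e (nat_lit 344095) (nat_lit 18) (.e (nat_lit 7261) (nat_lit 384) .nil)))))) (.g (nat_lit 4) .nil .nil))) 
(.lf (nat_lit 158268) (.g (nat_lit 2208) (.e (nat_lit 57424) (nat_lit 14) (.e (nat_lit 352324) (nat_lit 26) (.e (nat_lit 147495) (nat_lit 11) (.e (nat_lit 24665) (nat_lit 14) (.e (nat_lit 401420) (nat_lit 1) .nil))))) .nil)))))) (.nd (nat_lit 2) (.nd (nat_lit 3) (.nd (nat_lit 4) (.nd (nat_lit 5) 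
(.lf (nat_lit 158210) (.g (nat_lit 2463) (.e (nat_lit 57424) (nat_lit 14) (.e (nat_lit 352318) (nat_lit 24) (.e (nat_lit 123199) (nat_lit 267) (.e (nat_lit 122919) (nat_lit 15) (.e (nat_lit 360457) (nat_lit 0) (.e (nat_lit 5947) (nat_lit 322) .nil)))))) (.g (nat_lit 4) .nil .nil))) 
(.lf (nat_lit 158242) (.g (nat_lit 1502) (.e (nat_lit 57424) (nat_lit 14) (.e (nat_lit 352323) (nat_lit 26) (.e (nat_lit 147496) (nat_lit 11) (.e (nat_lit 24641) (nat_lit 10) (.e (nat_lit 344095) (nat_lit 18) .nil))))) .nil))) (.nd (nat_lit 5) 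
(.lf (nat_lit 158226) (.g (nat_lit 1139) (.e (nat_lit 57424) (nat_lit 14) (.e (nat_lit 352322) (nat_lit 26) (.e (nat_lit 147496) (nat_lit 11) (.e (nat_lit 24640) (nat_lit 10) .nil)))) .nil)) 
(.lf (nat_lit 158258) (.g (nat_lit 2357) (.e (nat_lit 57424) (nat_lit 14) (.e (nat_lit 352324) (nat_lit 26) (.e (nat_lit 147495) (nat_lit 11) (.e (nat_lit 24639) (nat_lit 10) (.e (nat_lit 344091) (nat_lit 18) (.e (nat_lit 7261) (nat_lit 384) .nil)))))) (.g (nat_lit 4) .nil .nil))))) (.nd (nat_lit 4) (.nd (nat_lit 5) 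
(.lf (nat_lit 158218) (.g (nat_lit 2265) (.e (nat_lit 57424) (nat_lit 14) (.e (nat_lit 352322) (nat_lit 26) (.e (nat_lit 147495) (nat_lit 11) (.e (nat_lit 24640) (nat_lit 10) (.e (nat_lit 344094) (nat_lit 18) (.e (nat_lit 7261) (nat_lit 384) .nil)))))) (.g (nat_lit 4) .nil .nil))) 
(.lf (nat_lit 158250) (.g (nat_lit 2221) (.e (nat_lit 57424) (nat_lit 14) (.e (nat_lit 352324) (nat_lit 26) (.e (nat_lit 147494) (nat_lit 11) (.e (nat_lit 24640) (nat_lit 10) (.e (nat_lit 344091) (nat_lit 18) (.e (nat_lit 7261) (nat_lit 384) .nil)))))) (.g (nat_lit 4) .nil .nil)))) (.nd (nat_lit 5) 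
(.lf (nat_lit 158234) (.g (nat_lit 2035) (.e (nat_lit 57424) (nat_lit 14) (.e (nat_lit 352323) (nat_lit 26) (.e (nat_lit 147495) (nat_lit 11) (.e (nat_lit 24639) (nat_lit 10) (.e (nat_lit 344095) (nat_lit 18) (.e (nat_lit 7261) (nat_lit 384) .nil)))))) (.g (nat_lit 4) .nil .nil))) 
(.lf (nat_lit 158266) (.g (nat_lit 1818) (.e (nat_lit 57424) (nat_lit 14) (.e (nat_lit 352324) (nat_lit 26) (.e (nat_lit 147495) (nat_lit 11) (.e (nat_lit 24641) (nat_lit 10) (.e (nat_lit 344091) (nat_lit 18) .nil))))) .nil))))) (.nd (nat_lit 3) (.nd (nat_lit 4) (.nd (nat_lit 5) 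
(.lf (nat_lit 158214) (.g (nat_lit 1000) (.e (nat_lit 57424) (nat_lit 14) (.e (nat_lit 352322) (nat_lit 26) (.e (nat_lit 147495) (nat_lit 11) (.e (nat_lit 24640) (nat_lit 10) .nil)))) .nil)) 
(.lf (nat_lit 158246) (.g (nat_lit 692) (.e (nat_lit 57424) (nat_lit 14) (.e (nat_lit 352324) (nat_lit 26) (.e (nat_lit 147489) (nat_lit 10) .nil))) .nil))) (.nd (nat_lit 5) 
(.lf (nat_lit 158230) (.g (nat_lit 2468) (.e (nat_lit 57424) (nat_lit 14) (.e (nat_lit 352322) (nat_lit 26) (.e (nat_lit 147496) (nat_lit 11) (.e (nat_lit 24640) (nat_lit 10) (.e (nat_lit 344095) (nat_lit 18) (.e (nat_lit 7261) (nat_lit 384) .nil)))))) (.g (nat_lit 4) .nil .nil))) 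
(.lf (nat_lit 158262) (.g (nat_lit 2058) (.e (nat_lit 57424) (nat_lit 14) (.e (nat_lit 352324) (nat_lit 26) (.e (nat_lit 147495) (nat_lit 11) (.e (nat_lit 24640) (nat_lit 10) (.e (nat_lit 344088) (nat_lit 18) .nil))))) .nil)))) (.nd (nat_lit 4) (.nd (nat_lit 5) 
(.lf (nat_lit 158222) (.g (nat_lit 1269) (.e (nat_lit 57424) (nat_lit 14) (.e (nat_lit 352322) (nat_lit 26) (.e (nat_lit 147495) (nat_lit 11) (.e (nat_lit 24641) (nat_lit 10) .nil)))) .nil)) 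
(.lf (nat_lit 158254) (.g (nat_lit 2668) (.e (nat_lit 57424) (nat_lit 14) (.e (nat_lit 352324) (nat_lit 26) (.e (nat_lit 147494) (nat_lit 11) (.e (nat_lit 24640) (nat_lit 10) (.e (nat_lit 344096) (nat_lit 18) (.e (nat_lit 7261) (nat_lit 384) .nil)))))) (.g (nat_lit 5) .nil .nil)))) (.nd (nat_lit 5) 
(.lf (nat_lit 158238) (.g (nat_lit 1908) (.e (nat_lit 57424) (nat_lit 14) (.e (nat_lit 352323) (nat_lit 26) (.e (nat_lit 147496) (nat_lit 11) (.e (nat_lit 24639) (nat_lit 10) (.e (nat_lit 344096) (nat_lit 18) (.e (nat_lit 7261) (nat_lit 384) .nil)))))) (.g (nat_lit 4) .nil .nil))) 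
(.lf (nat_lit 158270) (.g (nat_lit 1919) (.e (nat_lit 57424) (nat_lit 14) (.e (nat_lit 352324) (nat_lit 26) (.e (nat_lit 147496) (nat_lit 11) (.e (nat_lit 24640) (nat_lit 10) (.e (nat_lit 344088) (nat_lit 18) .nil))))) .nil))))))) (.nd (nat_lit 1) (.nd (nat_lit 2) (.nd (nat_lit 3) (.nd (nat_lit 4) (.nd (nat_lit 5) 
(.lf (nat_lit 158209) (.g (nat_lit 688) (.e (nat_lit 57424) (nat_lit 14) (.e (nat_lit 352318) (nat_lit 24) (.e (nat_lit 123199) (nat_lit 267) .nil))) .nil)) 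
(.lf (nat_lit 158241) (.g (nat_lit 2352) (.e (nat_lit 57424) (nat_lit 14) (.e (nat_lit 352323) (nat_lit 26) (.e (nat_lit 147496) (nat_lit 11) (.e (nat_lit 24640) (nat_lit 10) (.e (nat_lit 344095) (nat_lit 18) (.e (nat_lit 7263) (nat_lit 384) .nil)))))) (.g (nat_lit 4) .nil .nil)))) (.nd (nat_lit 5) 
(.lf (nat_lit 158225) (.g (nat_lit 2159) (.e (nat_lit 57424) (nat_lit 14) (.e (nat_lit 352322) (nat_lit 26) (.e (nat_lit 147496) (nat_lit 11) (.e (nat_lit 24639) (nat_lit 10) (.e (nat_lit 344096) (nat_lit 18) (.e (nat_lit 7261) (nat_lit 384) .nil)))))) (.g (nat_lit 4) .nil .nil))) 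
(.lf (nat_lit 158257) (.g (nat_lit 1027) (.e (nat_lit 57424) (nat_lit 14) (.e (nat_lit 352324) (nat_lit 26) (.e (nat_lit 147495) (nat_lit 11) (.e (nat_lit 24639) (nat_lit 10) .nil)))) .nil)))) (.nd (nat_lit 4) (.nd (nat_lit 5) 
(.lf (nat_lit 158217) (.g (nat_lit 2548) (.e (nat_lit 57424) (nat_lit 14) (.e (nat_lit 352322) (nat_lit 26) (.e (nat_lit 147495) (nat_lit 11) (.e (nat_lit 24640) (nat_lit 10) (.e (nat_lit 344091) (nat_lit 18) (.e (nat_lit 7263) (nat_lit 384) .nil)))))) (.g (nat_lit 4) .nil .nil))) 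
(.lf (nat_lit 158249) (.g (nat_lit 1621) (.e (nat_lit 57424) (nat_lit 14) (.e (nat_lit 352324) (nat_lit 26) (.e (nat_lit 147492) (nat_lit 11) (.e (nat_lit 24640) (nat_lit 10) (.e (nat_lit 344096) (nat_lit 18) .nil))))) .nil))) (.nd (nat_lit 5) 
(.lf (nat_lit 158233) (.g (nat_lit 1884) (.e (nat_lit 57424) (nat_lit 14) (.e (nat_lit 352322) (nat_lit 26) (.e (nat_lit 147496) (nat_lit 11) (.e (nat_lit 24641) (nat_lit 10) (.e (nat_lit 344095) (nat_lit 18) .nil))))) .nil)) 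
(.lf (nat_lit 158265) (.g (nat_lit 3230) (.e (nat_lit 57424) (nat_lit 14) (.e (nat_lit 352324) (nat_lit 26) (.e (nat_lit 147495) (nat_lit 11) (.e (nat_lit 24640) (nat_lit 10) (.e (nat_lit 344095) (nat_lit 18) (.e (nat_lit 7261) (nat_lit 384) .nil)))))) (.g (nat_lit 5) .nil .nil)))))) (.nd (nat_lit 3) (.nd (nat_lit 4) (.nd (nat_lit 5) 
(.lf (nat_lit 158213) (.g (nat_lit 2856) (.e (nat_lit 57424) (nat_lit 14) (.e (nat_lit 352322) (nat_lit 26) (.e (nat_lit 147495) (nat_lit 11) (.e (nat_lit 24639) (nat_lit 10) (.e (nat_lit 344096) (nat_lit 18) (.e (nat_lit 7261) (nat_lit 384) .nil)))))) (.g (nat_lit 5) .nil .nil))) 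
(.lf (nat_lit 158245) (.g (nat_lit 2652) (.e (nat_lit 57424) (nat_lit 14) (.e (nat_lit 352324) (nat_lit 26) (.e (nat_lit 147465) (nat_lit 9) (.e (nat_lit 334) (nat_lit 26) (.e (nat_lit 376860) (nat_lit 21) (.e (nat_lit 65280) (nat_lit 154) .nil)))))) (.g (nat_lit 5) .nil .nil)))) (.nd (nat_lit 5) 
(.lf (nat_lit 158229) (.g (nat_lit 2303) (.e (nat_lit 57424) (nat_lit 14) (.e (nat_lit 352322) (nat_lit 26) (.e (nat_lit 147496) (nat_lit 11) (.e (nat_lit 24640) (nat_lit 10) (.e (nat_lit 344094) (nat_lit 18) (.e (nat_lit 7263) (nat_lit 384) .nil)))))) (.g (nat_lit 4) .nil .nil))) 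
(.lf (nat_lit 158261) (.g (nat_lit 1142) (.e (nat_lit 57424) (nat_lit 14) (.e (nat_lit 352324) (nat_lit 26) (.e (nat_lit 147495) (nat_lit 11) (.e (nat_lit 24640) (nat_lit 10) .nil)))) .nil)))) (.nd (nat_lit 4) (.nd (nat_lit 5) 
(.lf (nat_lit 158221) (.g (nat_lit 3264) (.e (nat_lit 57424) (nat_lit 14) (.e (nat_lit 352322) (nat_lit 26) (.e (nat_lit 147495) (nat_lit 11) (.e (nat_lit 24640) (nat_lit 10) (.e (nat_lit 344096) (nat_lit 18) (.e (nat_lit 7263) (nat_lit 384) .nil)))))) (.g (nat_lit 5) .nil .nil))) 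
(.lf (nat_lit 158253) (.g (nat_lit 2183) (.e (nat_lit 57424) (nat_lit 14) (.e (nat_lit 352324) (nat_lit 26) (.e (nat_lit 147494) (nat_lit 11) (.e (nat_lit 24640) (nat_lit 10) (.e (nat_lit 344094) (nat_lit 18) (.e (nat_lit 7263) (nat_lit 384) .nil)))))) (.g (nat_lit 4) .nil .nil)))) (.nd (nat_lit 5) 
(.lf (nat_lit 158237) (.g (nat_lit 1975) (.e (nat_lit 57424) (nat_lit 14) (.e (nat_lit 352323) (nat_lit 26) (.e (nat_lit 147496) (nat_lit 11) (.e (nat_lit 24639) (nat_lit 10) (.e (nat_lit 344095) (nat_lit 18) (.e (nat_lit 7263) (nat_lit 384) .nil)))))) (.g (nat_lit 4) .nil .nil))) 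
(.lf (nat_lit 158269) (.g (nat_lit 3114) (.e (nat_lit 57424) (nat_lit 14) (.e (nat_lit 352324) (nat_lit 26) (.e (nat_lit 147496) (nat_lit 11) (.e (nat_lit 24639) (nat_lit 10) (.e (nat_lit 344096) (nat_lit 18) (.e (nat_lit 7263) (nat_lit 384) .nil)))))) (.g (nat_lit 5) .nil .nil))))))) (.nd (nat_lit 2) (.nd (nat_lit 3) (.nd (nat_lit 4) (.nd (nat_lit 5) 
(.lf (nat_lit 158211) (.g (nat_lit 2950) (.e (nat_lit 57424) (nat_lit 14) (.e (nat_lit 352318) (nat_lit 24) (.e (nat_lit 123199) (nat_lit 267) (.e (nat_lit 122919) (nat_lit 15) (.e (nat_lit 360457) (nat_lit 0) (.e (nat_lit 5948) (nat_lit 322) .nil)))))) (.g (nat_lit 4) .nil .nil))) 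
(.lf (nat_lit 158243) (.g (nat_lit 704) (.e (nat_lit 57424) (nat_lit 14) (.e (nat_lit 352324) (nat_lit 26) (.e (nat_lit 147463) (nat_lit 9) (.e (nat_lit 249) (nat_lit 21) .nil)))) .nil))) (.nd (nat_lit 5) 
(.lf (nat_lit 158227) (.g (nat_lit 2212) (.e (nat_lit 57424) (nat_lit 14) (.e (nat_lit 352322) (nat_lit 26) (.e (nat_lit 147496) (nat_lit 11) (.e (nat_lit 24640) (nat_lit 10) (.e (nat_lit 344091) (nat_lit 18) .nil))))) .nil)) 
(.lf (nat_lit 158259) (.g (nat_lit 2561) (.e (nat_lit 57424) (nat_lit 14) (.e (nat_lit 352324) (nat_lit 26) (.e (nat_lit 147495) (nat_lit 11) (.e (nat_lit 24639) (nat_lit 10) (.e (nat_lit 344091) (nat_lit 18) (.e (nat_lit 7263) (nat_lit 384) .nil)))))) (.g (nat_lit 4) .nil .nil))))) (.nd (nat_lit 4) (.nd (nat_lit 5) 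
(.lf (nat_lit 158219) (.g (nat_lit 2594) (.e (nat_lit 57424) (nat_lit 14) (.e (nat_lit 352322) (nat_lit 26) (.e (nat_lit 147495) (nat_lit 11) (.e (nat_lit 24640) (nat_lit 10) (.e (nat_lit 344094) (nat_lit 18) (.e (nat_lit 7263) (nat_lit 384) .nil)))))) (.g (nat_lit 4) .nil .nil))) 
(.lf (nat_lit 158251) (.g (nat_lit 2439) (.e (nat_lit 57424) (nat_lit 14) (.e (nat_lit 352324) (nat_lit 26) (.e (nat_lit 147494) (nat_lit 11) (.e (nat_lit 24640) (nat_lit 10) (.e (nat_lit 344091) (nat_lit 18) (.e (nat_lit 7263) (nat_lit 384) .nil)))))) (.g (nat_lit 4) .nil .nil)))) (.nd (nat_lit 5) 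
(.lf (nat_lit 158235) (.g (nat_lit 2106) (.e (nat_lit 57424) (nat_lit 14) (.e (nat_lit 352323) (nat_lit 26) (.e (nat_lit 147495) (nat_lit 11) (.e (nat_lit 24639) (nat_lit 10) (.e (nat_lit 344095) (nat_lit 18) (.e (nat_lit 7263) (nat_lit 384) .nil)))))) (.g (nat_lit 4) .nil .nil))) 
(.lf (nat_lit 158267) (.g (nat_lit 1965) (.e (nat_lit 57424) (nat_lit 14) (.e (nat_lit 352324) (nat_lit 26) (.e (nat_lit 147495) (nat_lit 11) (.e (nat_lit 24641) (nat_lit 10) (.e (nat_lit 344096) (nat_lit 18) .nil))))) .nil))))) (.nd (nat_lit 3) (.nd (nat_lit 4) (.nd (nat_lit 5) 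
(.lf (nat_lit 158215) (.g (nat_lit 2856) (.e (nat_lit 57424) (nat_lit 14) (.e (nat_lit 352322) (nat_lit 26) (.e (nat_lit 147495) (nat_lit 11) (.e (nat_lit 24640) (nat_lit 10) (.e (nat_lit 344090) (nat_lit 18) (.e (nat_lit 7261) (nat_lit 384) .nil)))))) (.g (nat_lit 5) .nil .nil))) 
(.lf (nat_lit 158247) (.g (nat_lit 702) (.e (nat_lit 57424) (nat_lit 14) (.e (nat_lit 352324) (nat_lit 26) (.e (nat_lit 147491) (nat_lit 10) .nil))) .nil))) (.nd (nat_lit 5) 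
(.lf (nat_lit 158231) (.g (nat_lit 2506) (.e (nat_lit 57424) (nat_lit 14) (.e (nat_lit 352322) (nat_lit 26) (.e (nat_lit 147496) (nat_lit 11) (.e (nat_lit 24640) (nat_lit 10) (.e (nat_lit 344095) (nat_lit 18) (.e (nat_lit 7263) (nat_lit 384) .nil)))))) (.g (nat_lit 4) .nil .nil))) 
(.lf (nat_lit 158263) (.g (nat_lit 2960) (.e (nat_lit 57424) (nat_lit 14) (.e (nat_lit 352324) (nat_lit 26) (.e (nat_lit 147495) (nat_lit 11) (.e (nat_lit 24640) (nat_lit 10) (.e (nat_lit 344091) (nat_lit 18) (.e (nat_lit 7261) (nat_lit 384) .nil)))))) (.g (nat_lit 4) .nil .nil))))) (.nd (nat_lit 4) (.nd (nat_lit 5) 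
(.lf (nat_lit 158223) (.g (nat_lit 1121) (.e (nat_lit 57424) (nat_lit 14) (.e (nat_lit 352322) (nat_lit 26) (.e (nat_lit 147496) (nat_lit 11) (.e (nat_lit 24639) (nat_lit 10) .nil)))) .nil)) 
(.lf (nat_lit 158255) (.g (nat_lit 2743) (.e (nat_lit 57424) (nat_lit 14) (.e (nat_lit 352324) (nat_lit 26) (.e (nat_lit 147494) (nat_lit 11) (.e (nat_lit 24640) (nat_lit 10) (.e (nat_lit 344096) (nat_lit 18) (.e (nat_lit 7263) (nat_lit 384) .nil)))))) (.g (nat_lit 5) .nil .nil)))) (.nd (nat_lit 5) 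
(.lf (nat_lit 158239) (.g (nat_lit 2149) (.e (nat_lit 57424) (nat_lit 14) (.e (nat_lit 352323) (nat_lit 26) (.e (nat_lit 147496) (nat_lit 11) (.e (nat_lit 24640) (nat_lit 10) (.e (nat_lit 344094) (nat_lit 18) (.e (nat_lit 7263) (nat_lit 384) .nil)))))) (.g (nat_lit 4) .nil .nil))) 
(.lf (nat_lit 158271) (.g (nat_lit 2776) (.e (nat_lit 57424) (nat_lit 14) (.e (nat_lit 352324) (nat_lit 26) (.e (nat_lit 147496) (nat_lit 11) (.e (nat_lit 24640) (nat_lit 10) (.e (nat_lit 344091) (nat_lit 18) (.e (nat_lit 7261) (nat_lit 384) .nil)))))) (.g (nat_lit 4) .nil .nil)))))))))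

noncomputable def tv2119 : DT := (.nd (nat_lit 0) (.nd (nat_lit 1) (.nd (nat_lit 2) (.nd (nat_lit 3) (.nd (nat_lit 4) (.nd (nat_lit 5) 
(.lf (nat_lit 158272) (.g (nat_lit 2891) (.e (nat_lit 57424) (nat_lit 14) (.e (nat_lit 352324) (nat_lit 26) (.e (nat_lit 147496) (nat_lit 11) (.e (nat_lit 24640) (nat_lit 10) (.e (nat_lit 344094) (nat_lit 18) (.e (nat_lit 7261) (nat_lit 384) .nil)))))) (.g (nat_lit 4) .nil .nil))) 
(.lf (nat_lit 158304) (.g (nat_lit 2096) (.e (nat_lit 57425) (nat_lit 14) (.e (nat_lit 352318) (nat_lit 24) (.e (nat_lit 123198) (nat_lit 266) (.e (nat_lit 57424) (nat_lit 14) (.e (nat_lit 352318) (nat_lit 24) .nil))))) .nil))) (.nd (nat_lit 5) 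
(.lf (nat_lit 158288) (.g (nat_lit 2174) (.e (nat_lit 57425) (nat_lit 14) (.e (nat_lit 352318) (nat_lit 24) (.e (nat_lit 123182) (nat_lit 264) (.e (nat_lit 1224) (nat_lit 90) (.e (nat_lit 81959) (nat_lit 24) .nil))))) .nil)) 
(.lf (nat_lit 158320) (.g (nat_lit 3626) (.e (nat_lit 57426) (nat_lit 15) (.e (nat_lit 360449) (nat_lit 0) (.e (nat_lit 7125) (nat_lit 382) (.e (nat_lit 1201) (nat_lit 88) (.e (nat_lit 65617) (nat_lit 10) (.e (nat_lit 344091) (nat_lit 18) (.e (nat_lit 7261) (nat_lit 384) .nil))))))) (.g (nat_lit 0) .nil .nil))))) (.nd (nat_lit 4) (.nd (nat_lit 5) 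
(.lf (nat_lit 158280) (.g (nat_lit 511) (.e (nat_lit 57425) (nat_lit 14) (.e (nat_lit 352277) (nat_lit 11) (.e (nat_lit 426343) (nat_lit 14) .nil))) .nil)) 
(.lf (nat_lit 158312) (.g (nat_lit 1701) (.e (nat_lit 57425) (nat_lit 14) (.e (nat_lit 352324) (nat_lit 26) (.e (nat_lit 147495) (nat_lit 11) (.e (nat_lit 24640) (nat_lit 10) .nil)))) .nil))) (.nd (nat_lit 5) 
(.lf (nat_lit 158296) (.g (nat_lit 1485) (.e (nat_lit 57425) (nat_lit 14) (.e (nat_lit 352318) (nat_lit 24) (.e (nat_lit 123195) (nat_lit 266) (.e (nat_lit 57424) (nat_lit 14) .nil)))) .nil)) 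
(.lf (nat_lit 158328) (.g (nat_lit 3019) (.e (nat_lit 57426) (nat_lit 15) (.e (nat_lit 360449) (nat_lit 0) (.e (nat_lit 7266) (nat_lit 384) (.e (nat_lit 57426) (nat_lit 15) (.e (nat_lit 360451) (nat_lit 0) (.e (nat_lit 7265) (nat_lit 384) .nil)))))) (.g (nat_lit 6) .nil .nil)))))) (.nd (nat_lit 3) (.nd (nat_lit 4) (.nd (nat_lit 5) 
(.lf (nat_lit 158276) (.g (nat_lit 701) (.e (nat_lit 57425) (nat_lit 14) (.e (nat_lit 352272) (nat_lit 10) (.e (nat_lit 417796) (nat_lit 0) (.e (nat_lit 5412) (nat_lit 303) .nil)))) .nil)) 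
(.lf (nat_lit 158308) (.g (nat_lit 1269) (.e (nat_lit 57425) (nat_lit 14) (.e (nat_lit 352322) (nat_lit 26) (.e (nat_lit 147496) (nat_lit 11) (.e (nat_lit 24640) (nat_lit 10) .nil)))) .nil))) (.nd (nat_lit 5) 
(.lf (nat_lit 158292) (.g (nat_lit 1549) (.e (nat_lit 57425) (nat_lit 14) (.e (nat_lit 352318) (nat_lit 24) (.e (nat_lit 123185) (nat_lit 264) (.e (nat_lit 1222) (nat_lit 90) (.e (nat_lit 81957) (nat_lit 24) .nil))))) .nil)) 
(.lf (nat_lit 158324) (.g (nat_lit 1343) (.e (nat_lit 57426) (nat_lit 15) (.e (nat_lit 360449) (nat_lit 0) (.e (nat_lit 7261) (nat_lit 384) (.e (nat_lit 57426) (nat_lit 15) (.e (nat_lit 360451) (nat_lit 0) (.e (nat_lit 7261) (nat_lit 384) .nil)))))) (.g (nat_lit 4) .nil .nil))))) (.nd (nat_lit 4) (.nd (nat_lit 5) 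
(.lf (nat_lit 158284) (.g (nat_lit 1982) (.e (nat_lit 57425) (nat_lit 14) (.e (nat_lit 352309) (nat_lit 21) (.e (nat_lit 57681) (nat_lit 155) (.e (nat_lit 122919) (nat_lit 15) (.e (nat_lit 360451) (nat_lit 0) .nil))))) .nil)) 
(.lf (nat_lit 158316) (.g (nat_lit 1787) (.e (nat_lit 57425) (nat_lit 14) (.e (nat_lit 352324) (nat_lit 26) (.e (nat_lit 147496) (nat_lit 11) (.e (nat_lit 24641) (nat_lit 10) .nil)))) .nil))) (.nd (nat_lit 5) 
(.lf (nat_lit 158300) (.g (nat_lit 2168) (.e (nat_lit 57425) (nat_lit 14) (.e (nat_lit 352318) (nat_lit 24) (.e (nat_lit 123197) (nat_lit 266) (.e (nat_lit 57424) (nat_lit 14) (.e (nat_lit 352318) (nat_lit 24) .nil))))) .nil)) 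
(.lf (nat_lit 158332) (.g (nat_lit 2239) (.e (nat_lit 57426) (nat_lit 15) (.e (nat_lit 360450) (nat_lit 0) (.e (nat_lit 7122) (nat_lit 382) (.e (nat_lit 1201) (nat_lit 88) (.e (nat_lit 65617) (nat_lit 10) (.e (nat_lit 344096) (nat_lit 18) (.e (nat_lit 7261) (nat_lit 384) .nil))))))) (.g (nat_lit 4) .nil .nil))))))) (.nd (nat_lit 2) (.nd (nat_lit 3) (.nd (nat_lit 4) (.nd (nat_lit 5) 
(.lf (nat_lit 158274) (.g (nat_lit 2821) (.e (nat_lit 57424) (nat_lit 14) (.e (nat_lit 352324) (nat_lit 26) (.e (nat_lit 147496) (nat_lit 11) (.e (nat_lit 24641) (nat_lit 10) (.e (nat_lit 344096) (nat_lit 18) (.e (nat_lit 7263) (nat_lit 384) .nil)))))) (.g (nat_lit 4) .nil .nil))) 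
(.lf (nat_lit 158306) (.g (nat_lit 1217) (.e (nat_lit 57425) (nat_lit 14) (.e (nat_lit 352322) (nat_lit 26) (.e (nat_lit 147495) (nat_lit 11) (.e (nat_lit 24639) (nat_lit 10) .nil)))) .nil))) (.nd (nat_lit 5) 
(.lf (nat_lit 158290) (.g (nat_lit 1688) (.e (nat_lit 57425) (nat_lit 14) (.e (nat_lit 352318) (nat_lit 24) (.e (nat_lit 123184) (nat_lit 264) (.e (nat_lit 1224) (nat_lit 90) (.e (nat_lit 81959) (nat_lit 24) .nil))))) .nil)) 
(.lf (nat_lit 158322) (.g (nat_lit 3434) (.e (nat_lit 57426) (nat_lit 15) (.e (nat_lit 360449) (nat_lit 0) (.e (nat_lit 7125) (nat_lit 382) (.e (nat_lit 1201) (nat_lit 88) (.e (nat_lit 65617) (nat_lit 10) (.e (nat_lit 344095) (nat_lit 18) (.e (nat_lit 7261) (nat_lit 384) .nil))))))) (.g (nat_lit 0) .nil .nil))))) (.nd (nat_lit 4) (.nd (nat_lit 5) 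
(.lf (nat_lit 158282) (.g (nat_lit 712) (.e (nat_lit 57425) (nat_lit 14) (.e (nat_lit 352307) (nat_lit 21) (.e (nat_lit 57683) (nat_lit 155) .nil))) .nil)) 
(.lf (nat_lit 158314) (.g (nat_lit 1453) (.e (nat_lit 57425) (nat_lit 14) (.e (nat_lit 352324) (nat_lit 26) (.e (nat_lit 147496) (nat_lit 11) (.e (nat_lit 24640) (nat_lit 10) .nil)))) .nil))) (.nd (nat_lit 5) 
(.lf (nat_lit 158298) (.g (nat_lit 623) (.e (nat_lit 57425) (nat_lit 14) (.e (nat_lit 352318) (nat_lit 24) (.e (nat_lit 123197) (nat_lit 266) .nil))) .nil)) 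
(.lf (nat_lit 158330) (.g (nat_lit 1995) (.e (nat_lit 57426) (nat_lit 15) (.e (nat_lit 360449) (nat_lit 0) (.e (nat_lit 7266) (nat_lit 384) (.e (nat_lit 57427) (nat_lit 15) (.e (nat_lit 360449) (nat_lit 0) (.e (nat_lit 7263) (nat_lit 384) .nil)))))) (.g (nat_lit 4) .nil .nil)))))) (.nd (nat_lit 3) (.nd (nat_lit 4) (.nd (nat_lit 5) 
(.lf (nat_lit 158278) (.g (nat_lit 1600) (.e (nat_lit 57425) (nat_lit 14) (.e (nat_lit 352275) (nat_lit 11) (.e (nat_lit 426343) (nat_lit 14) (.e (nat_lit 491558) (nat_lit 10) .nil)))) .nil)) 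
(.lf (nat_lit 158310) (.g (nat_lit 705) (.e (nat_lit 57425) (nat_lit 14) (.e (nat_lit 352324) (nat_lit 26) (.e (nat_lit 147467) (nat_lit 9) .nil))) .nil))) (.nd (nat_lit 5) 
(.lf (nat_lit 158294) (.g (nat_lit 909) (.e (nat_lit 57425) (nat_lit 14) (.e (nat_lit 352318) (nat_lit 24) (.e (nat_lit 123185) (nat_lit 264) (.e (nat_lit 1224) (nat_lit 90) .nil)))) .nil)) 
(.lf (nat_lit 158326) (.g (nat_lit 2016) (.e (nat_lit 57426) (nat_lit 15) (.e (nat_lit 360449) (nat_lit 0) (.e (nat_lit 7265) (nat_lit 384) (.e (nat_lit 57427) (nat_lit 15) (.e (nat_lit 360449) (nat_lit 0) (.e (nat_lit 7261) (nat_lit 384) .nil)))))) (.g (nat_lit 4) .nil .nil))))) (.nd (nat_lit 4) (.nd (nat_lit 5) 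
(.lf (nat_lit 158286) (.g (nat_lit 1589) (.e (nat_lit 57425) (nat_lit 14) (.e (nat_lit 352318) (nat_lit 24) (.e (nat_lit 123182) (nat_lit 264) (.e (nat_lit 1218) (nat_lit 90) .nil)))) .nil)) 
(.lf (nat_lit 158318) (.g (nat_lit 3155) (.e (nat_lit 57426) (nat_lit 15) (.e (nat_lit 360449) (nat_lit 0) (.e (nat_lit 7124) (nat_lit 382) (.e (nat_lit 1201) (nat_lit 88) (.e (nat_lit 65617) (nat_lit 10) (.e (nat_lit 344091) (nat_lit 18) (.e (nat_lit 7261) (nat_lit 384) .nil))))))) (.g (nat_lit 0) .nil .nil)))) (.nd (nat_lit 5) 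
(.lf (nat_lit 158302) (.g (nat_lit 1847) (.e (nat_lit 57425) (nat_lit 14) (.e (nat_lit 352318) (nat_lit 24) (.e (nat_lit 123197) (nat_lit 266) (.e (nat_lit 57427) (nat_lit 15) (.e (nat_lit 360456) (nat_lit 0) .nil))))) .nil)) 
(.lf (nat_lit 158334) (.g (nat_lit 1270) (.e (nat_lit 57426) (nat_lit 15) (.e (nat_lit 360450) (nat_lit 0) (.e (nat_lit 7261) (nat_lit 384) (.e (nat_lit 57412) (nat_lit 12) (.e (nat_lit 336176) (nat_lit 10) .nil))))) .nil))))))) (.nd (nat_lit 1) (.nd (nat_lit 2) (.nd (nat_lit 3) (.nd (nat_lit 4) (.nd (nat_lit 5) 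
(.lf (nat_lit 158273) (.g (nat_lit 2846) (.e (nat_lit 57424) (nat_lit 14) (.e (nat_lit 352324) (nat_lit 26) (.e (nat_lit 147496) (nat_lit 11) (.e (nat_lit 24641) (nat_lit 10) (.e (nat_lit 344096) (nat_lit 18) (.e (nat_lit 7261) (nat_lit 384) .nil)))))) (.g (nat_lit 4) .nil .nil))) 
(.lf (nat_lit 158305) (.g (nat_lit 1032) (.e (nat_lit 57425) (nat_lit 14) (.e (nat_lit 352318) (nat_lit 24) (.e (nat_lit 123198) (nat_lit 266) (.e (nat_lit 57426) (nat_lit 15) .nil)))) .nil))) (.nd (nat_lit 5) 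
(.lf (nat_lit 158289) (.g (nat_lit 1669) (.e (nat_lit 57425) (nat_lit 14) (.e (nat_lit 352318) (nat_lit 24) (.e (nat_lit 123184) (nat_lit 264) (.e (nat_lit 1224) (nat_lit 90) (.e (nat_lit 81957) (nat_lit 24) .nil))))) .nil)) 
(.lf (nat_lit 158321) (.g (nat_lit 3887) (.e (nat_lit 57426) (nat_lit 15) (.e (nat_lit 360449) (nat_lit 0) (.e (nat_lit 7125) (nat_lit 382) (.e (nat_lit 1201) (nat_lit 88) (.e (nat_lit 65617) (nat_lit 10) (.e (nat_lit 344091) (nat_lit 18) (.e (nat_lit 7266) (nat_lit 384) .nil))))))) (.g (nat_lit 0) .nil .nil))))) (.nd (nat_lit 4) (.nd (nat_lit 5) 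
(.lf (nat_lit 158281) (.g (nat_lit 2261) (.e (nat_lit 57425) (nat_lit 14) (.e (nat_lit 352307) (nat_lit 21) (.e (nat_lit 57681) (nat_lit 155) (.e (nat_lit 122919) (nat_lit 15) (.e (nat_lit 360451) (nat_lit 0) .nil))))) .nil)) 
(.lf (nat_lit 158313) (.g (nat_lit 1548) (.e (nat_lit 57425) (nat_lit 14) (.e (nat_lit 352324) (nat_lit 26) (.e (nat_lit 147496) (nat_lit 11) (.e (nat_lit 24639) (nat_lit 10) .nil)))) .nil))) (.nd (nat_lit 5) 
(.lf (nat_lit 158297) (.g (nat_lit 1039) (.e (nat_lit 57425) (nat_lit 14) (.e (nat_lit 352318) (nat_lit 24) (.e (nat_lit 123196) (nat_lit 266) (.e (nat_lit 57424) (nat_lit 14) .nil)))) .nil)) 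
(.lf (nat_lit 158329) (.g (nat_lit 2039) (.e (nat_lit 57426) (nat_lit 15) (.e (nat_lit 360449) (nat_lit 0) (.e (nat_lit 7266) (nat_lit 384) (.e (nat_lit 57427) (nat_lit 15) (.e (nat_lit 360449) (nat_lit 0) (.e (nat_lit 7261) (nat_lit 384) .nil)))))) (.g (nat_lit 4) .nil .nil)))))) (.nd (nat_lit 3) (.nd (nat_lit 4) (.nd (nat_lit 5) 
(.lf (nat_lit 158277) (.g (nat_lit 1162) (.e (nat_lit 57425) (nat_lit 14) (.e (nat_lit 352275) (nat_lit 11) (.e (nat_lit 426190) (nat_lit 9) (.e (nat_lit 426448) (nat_lit 20) .nil)))) .nil)) 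
(.lf (nat_lit 158309) (.g (nat_lit 768) (.e (nat_lit 57425) (nat_lit 14) (.e (nat_lit 352324) (nat_lit 26) (.e (nat_lit 147466) (nat_lit 9) .nil))) .nil))) (.nd (nat_lit 5) 
(.lf (nat_lit 158293) (.g (nat_lit 1287) (.e (nat_lit 57425) (nat_lit 14) (.e (nat_lit 352318) (nat_lit 24) (.e (nat_lit 123185) (nat_lit 264) (.e (nat_lit 1223) (nat_lit 90) (.e (nat_lit 81959) (nat_lit 24) .nil))))) .nil)) 
(.lf (nat_lit 158325) (.g (nat_lit 1206) (.e (nat_lit 57426) (nat_lit 15) (.e (nat_lit 360449) (nat_lit 0) (.e (nat_lit 7265) (nat_lit 384) (.e (nat_lit 57426) (nat_lit 15) (.e (nat_lit 368384) (nat_lit 0) .nil))))) .nil)))) (.nd (nat_lit 4) (.nd (nat_lit 5) 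
(.lf (nat_lit 158285) (.g (nat_lit 1113) (.e (nat_lit 57425) (nat_lit 14) (.e (nat_lit 352309) (nat_lit 21) (.e (nat_lit 57857) (nat_lit 254) (.e (nat_lit 163920) (nat_lit 14) .nil)))) .nil)) 
(.lf (nat_lit 158317) (.g (nat_lit 1022) (.e (nat_lit 65280) (nat_lit 14) (.e (nat_lit 352309) (nat_lit 21) (.e (nat_lit 57872) (nat_lit 264) (.e (nat_lit 1221) (nat_lit 90) .nil)))) .nil))) (.nd (nat_lit 5) 
(.lf (nat_lit 158301) (.g (nat_lit 1850) (.e (nat_lit 57425) (nat_lit 14) (.e (nat_lit 352318) (nat_lit 24) (.e (nat_lit 123197) (nat_lit 266) (.e (nat_lit 57426) (nat_lit 15) (.e (nat_lit 360456) (nat_lit 0) .nil))))) .nil)) 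
(.lf (nat_lit 158333) (.g (nat_lit 2281) (.e (nat_lit 57426) (nat_lit 15) (.e (nat_lit 360450) (nat_lit 0) (.e (nat_lit 7122) (nat_lit 382) (.e (nat_lit 1201) (nat_lit 88) (.e (nat_lit 65617) (nat_lit 10) (.e (nat_lit 344096) (nat_lit 18) (.e (nat_lit 7263) (nat_lit 384) .nil))))))) (.g (nat_lit 4) .nil .nil))))))) (.nd (nat_lit 2) (.nd (nat_lit 3) (.nd (nat_lit 4) (.nd (nat_lit 5) 
(.lf (nat_lit 158275) (.g (nat_lit 698) (.e (nat_lit 57424) (nat_lit 14) (.e (nat_lit 352324) (nat_lit 26) (.e (nat_lit 147499) (nat_lit 12) .nil))) .nil)) 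
(.lf (nat_lit 158307) (.g (nat_lit 1233) (.e (nat_lit 57425) (nat_lit 14) (.e (nat_lit 352322) (nat_lit 26) (.e (nat_lit 147495) (nat_lit 11) (.e (nat_lit 24640) (nat_lit 10) .nil)))) .nil))) (.nd (nat_lit 5) 
(.lf (nat_lit 158291) (.g (nat_lit 595) (.e (nat_lit 57425) (nat_lit 14) (.e (nat_lit 352318) (nat_lit 24) (.e (nat_lit 123185) (nat_lit 264) .nil))) .nil)) 
(.lf (nat_lit 158323) (.g (nat_lit 3768) (.e (nat_lit 57426) (nat_lit 15) (.e (nat_lit 360449) (nat_lit 0) (.e (nat_lit 7125) (nat_lit 382) (.e (nat_lit 1201) (nat_lit 88) (.e (nat_lit 65617) (nat_lit 10) (.e (nat_lit 344096) (nat_lit 18) (.e (nat_lit 7261) (nat_lit 384) .nil))))))) (.g (nat_lit 0) .nil .nil))))) (.nd (nat_lit 4) (.nd (nat_lit 5) 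
(.lf (nat_lit 158283) (.g (nat_lit 487) (.e (nat_lit 57425) (nat_lit 14) (.e (nat_lit 352307) (nat_lit 21) (.e (nat_lit 57871) (nat_lit 264) .nil))) .nil)) 
(.lf (nat_lit 158315) (.g (nat_lit 2290) (.e (nat_lit 57425) (nat_lit 14) (.e (nat_lit 352324) (nat_lit 26) (.e (nat_lit 147496) (nat_lit 11) (.e (nat_lit 24640) (nat_lit 10) (.e (nat_lit 344096) (nat_lit 18) .nil))))) .nil))) (.nd (nat_lit 5) 
(.lf (nat_lit 158299) (.g (nat_lit 2281) (.e (nat_lit 57425) (nat_lit 14) (.e (nat_lit 352318) (nat_lit 24) (.e (nat_lit 123197) (nat_lit 266) (.e (nat_lit 57423) (nat_lit 14) (.e (nat_lit 352318) (nat_lit 24) .nil))))) .nil)) 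
(.lf (nat_lit 158331) (.g (nat_lit 2419) (.e (nat_lit 57426) (nat_lit 15) (.e (nat_lit 360449) (nat_lit 0) (.e (nat_lit 7277) (nat_lit 385) (.e (nat_lit 122919) (nat_lit 15) (.e (nat_lit 360451) (nat_lit 0) (.e (nat_lit 7265) (nat_lit 384) .nil)))))) (.g (nat_lit 6) .nil .nil)))))) (.nd (nat_lit 3) (.nd (nat_lit 4) (.nd (nat_lit 5) 
(.lf (nat_lit 158279) (.g (nat_lit 1636) (.e (nat_lit 57425) (nat_lit 14) (.e (nat_lit 352275) (nat_lit 11) (.e (nat_lit 426343) (nat_lit 14) (.e (nat_lit 491560) (nat_lit 10) .nil)))) .nil)) 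
(.lf (nat_lit 158311) (.g (nat_lit 1546) (.e (nat_lit 57425) (nat_lit 14) (.e (nat_lit 352324) (nat_lit 26) (.e (nat_lit 147495) (nat_lit 11) (.e (nat_lit 24639) (nat_lit 10) .nil)))) .nil))) (.nd (nat_lit 5) 
(.lf (nat_lit 158295) (.g (nat_lit 1257) (.e (nat_lit 57425) (nat_lit 14) (.e (nat_lit 352318) (nat_lit 24) (.e (nat_lit 123194) (nat_lit 266) (.e (nat_lit 57424) (nat_lit 14) .nil)))) .nil)) 
(.lf (nat_lit 158327) (.g (nat_lit 1974) (.e (nat_lit 57426) (nat_lit 15) (.e (nat_lit 360449) (nat_lit 0) (.e (nat_lit 7265) (nat_lit 384) (.e (nat_lit 57427) (nat_lit 15) (.e (nat_lit 360449) (nat_lit 0) (.e (nat_lit 7263) (nat_lit 384) .nil)))))) (.g (nat_lit 4) .nil .nil))))) (.nd (nat_lit 4) (.nd (nat_lit 5) 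
(.lf (nat_lit 158287) (.g (nat_lit 1624) (.e (nat_lit 57425) (nat_lit 14) (.e (nat_lit 352318) (nat_lit 24) (.e (nat_lit 123182) (nat_lit 264) (.e (nat_lit 1224) (nat_lit 90) .nil)))) .nil)) 
(.lf (nat_lit 158319) (.g (nat_lit 3406) (.e (nat_lit 57426) (nat_lit 15) (.e (nat_lit 360449) (nat_lit 0) (.e (nat_lit 7124) (nat_lit 382) (.e (nat_lit 1201) (nat_lit 88) (.e (nat_lit 65617) (nat_lit 10) (.e (nat_lit 344091) (nat_lit 18) (.e (nat_lit 7266) (nat_lit 384) .nil))))))) (.g (nat_lit 0) .nil .nil)))) (.nd (nat_lit 5) 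
(.lf (nat_lit 158303) (.g (nat_lit 600) (.e (nat_lit 57425) (nat_lit 14) (.e (nat_lit 352318) (nat_lit 24) (.e (nat_lit 123198) (nat_lit 266) .nil))) .nil)) 
(.lf (nat_lit 158335) (.g (nat_lit 893) (.e (nat_lit 57426) (nat_lit 15) (.e (nat_lit 360450) (nat_lit 0) (.e (nat_lit 7261) (nat_lit 384) (.e (nat_lit 57426) (nat_lit 15) .nil)))) .nil))))))))

noncomputable def tv2120 : DT := (.nd (nat_lit 0) (.nd (nat_lit 1) (.nd (nat_lit 2) (.nd (nat_lit 3) (.nd (nat_lit 4) (.nd (nat_lit 5) 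
(.lf (nat_lit 158336) (.g (nat_lit 1326) (.e (nat_lit 57426) (nat_lit 15) (.e (nat_lit 360450) (nat_lit 0) (.e (nat_lit 7261) (nat_lit 384) (.e (nat_lit 57427) (nat_lit 15) (.e (nat_lit 360451) (nat_lit 0) .nil))))) .nil)) 
(.lf (nat_lit 158368) (.g (nat_lit 1744) (.e (nat_lit 57426) (nat_lit 15) (.e (nat_lit 360452) (nat_lit 0) (.e (nat_lit 5905) (nat_lit 320) (.e (nat_lit 1220) (nat_lit 90) (.e (nat_lit 81959) (nat_lit 24) .nil))))) .nil))) (.nd (nat_lit 5) 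
(.lf (nat_lit 158352) (.g (nat_lit 892) (.e (nat_lit 57426) (nat_lit 15) (.e (nat_lit 360451) (nat_lit 0) (.e (nat_lit 7261) (nat_lit 384) (.e (nat_lit 57426) (nat_lit 15) .nil)))) .nil)) 
(.lf (nat_lit 158384) (.g (nat_lit 1536) (.e (nat_lit 57426) (nat_lit 15) (.e (nat_lit 360452) (nat_lit 0) (.e (nat_lit 5907) (nat_lit 320) (.e (nat_lit 1218) (nat_lit 90) (.e (nat_lit 81959) (nat_lit 24) .nil))))) .nil)))) (.nd (nat_lit 4) (.nd (nat_lit 5) 
(.lf (nat_lit 158344) (.g (nat_lit 2110) (.e (nat_lit 57426) (nat_lit 15) (.e (nat_lit 360451) (nat_lit 0) (.e (nat_lit 7122) (nat_lit 382) (.e (nat_lit 1201) (nat_lit 88) (.e (nat_lit 65617) (nat_lit 10) .nil))))) .nil)) 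
(.lf (nat_lit 158376) (.g (nat_lit 1624) (.e (nat_lit 57426) (nat_lit 15) (.e (nat_lit 360452) (nat_lit 0) (.e (nat_lit 5906) (nat_lit 320) (.e (nat_lit 1219) (nat_lit 90) (.e (nat_lit 81959) (nat_lit 24) .nil))))) .nil))) (.nd (nat_lit 5) 
(.lf (nat_lit 158360) (.g (nat_lit 2590) (.e (nat_lit 57426) (nat_lit 15) (.e (nat_lit 360451) (nat_lit 0) (.e (nat_lit 7265) (nat_lit 384) (.e (nat_lit 57427) (nat_lit 15) (.e (nat_lit 360449) (nat_lit 0) (.e (nat_lit 7266) (nat_lit 384) .nil)))))) (.g (nat_lit 4) .nil .nil))) 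
(.lf (nat_lit 158392) (.g (nat_lit 3476) (.e (nat_lit 57426) (nat_lit 15) (.e (nat_lit 360452) (nat_lit 0) (.e (nat_lit 5907) (nat_lit 320) (.e (nat_lit 1221) (nat_lit 90) (.e (nat_lit 81959) (nat_lit 24) (.e (nat_lit 123194) (nat_lit 266) .nil)))))) (.g (nat_lit 5) .nil .nil)))))) (.nd (nat_lit 3) (.nd (nat_lit 4) (.nd (nat_lit 5) 
(.lf (nat_lit 158340) (.g (nat_lit 550) (.e (nat_lit 57426) (nat_lit 15) (.e (nat_lit 360450) (nat_lit 0) (.e (nat_lit 7265) (nat_lit 384) .nil))) .nil)) 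
(.lf (nat_lit 158372) (.g (nat_lit 3078) (.e (nat_lit 57426) (nat_lit 15) (.e (nat_lit 360452) (nat_lit 0) (.e (nat_lit 5905) (nat_lit 320) (.e (nat_lit 1221) (nat_lit 90) (.e (nat_lit 81959) (nat_lit 24) (.e (nat_lit 123196) (nat_lit 266) .nil)))))) (.g (nat_lit 5) .nil .nil)))) (.nd (nat_lit 5) 
(.lf (nat_lit 158356) (.g (nat_lit 2589) (.e (nat_lit 57426) (nat_lit 15) (.e (nat_lit 360451) (nat_lit 0) (.e (nat_lit 7265) (nat_lit 384) (.e (nat_lit 57412) (nat_lit 12) (.e (nat_lit 336176) (nat_lit 10) (.e (nat_lit 344095) (nat_lit 18) (.e (nat_lit 7263) (nat_lit 384) .nil))))))) (.g (nat_lit 5) .nil .nil))) 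
(.lf (nat_lit 158388) (.g (nat_lit 3711) (.e (nat_lit 57426) (nat_lit 15) (.e (nat_lit 360452) (nat_lit 0) (.e (nat_lit 5907) (nat_lit 320) (.e (nat_lit 1220) (nat_lit 90) (.e (nat_lit 81959) (nat_lit 24) (.e (nat_lit 123197) (nat_lit 266) .nil)))))) (.g (nat_lit 6) .nil .nil))))) (.nd (nat_lit 4) (.nd (nat_lit 5) 
(.lf (nat_lit 158348) (.g (nat_lit 3184) (.e (nat_lit 57426) (nat_lit 15) (.e (nat_lit 360451) (nat_lit 0) (.e (nat_lit 7124) (nat_lit 382) (.e (nat_lit 1201) (nat_lit 88) (.e (nat_lit 65617) (nat_lit 10) (.e (nat_lit 344096) (nat_lit 18) (.e (nat_lit 7261) (nat_lit 384) .nil))))))) (.g (nat_lit 6) .nil .nil))) 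
(.lf (nat_lit 158380) (.g (nat_lit 3131) (.e (nat_lit 57426) (nat_lit 15) (.e (nat_lit 360452) (nat_lit 0) (.e (nat_lit 5906) (nat_lit 320) (.e (nat_lit 1221) (nat_lit 90) (.e (nat_lit 81959) (nat_lit 24) (.e (nat_lit 123198) (nat_lit 266) .nil)))))) (.g (nat_lit 6) .nil .nil)))) (.nd (nat_lit 5) 
(.lf (nat_lit 158364) (.g (nat_lit 1839) (.e (nat_lit 57426) (nat_lit 15) (.e (nat_lit 360451) (nat_lit 0) (.e (nat_lit 7266) (nat_lit 384) (.e (nat_lit 57426) (nat_lit 15) (.e (nat_lit 360451) (nat_lit 0) (.e (nat_lit 7261) (nat_lit 384) .nil)))))) (.g (nat_lit 4) .nil .nil))) 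
(.lf (nat_lit 158396) (.g (nat_lit 1159) (.e (nat_lit 57426) (nat_lit 15) (.e (nat_lit 360452) (nat_lit 0) (.e (nat_lit 5907) (nat_lit 320) (.e (nat_lit 7936) (nat_lit 90) .nil)))) .nil)))))) (.nd (nat_lit 2) (.nd (nat_lit 3) (.nd (nat_lit 4) (.nd (nat_lit 5) 
(.lf (nat_lit 158338) (.g (nat_lit 878) (.e (nat_lit 57426) (nat_lit 15) (.e (nat_lit 360450) (nat_lit 0) (.e (nat_lit 7263) (nat_lit 384) (.e (nat_lit 57426) (nat_lit 15) .nil)))) .nil)) 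
(.lf (nat_lit 158370) (.g (nat_lit 1514) (.e (nat_lit 57426) (nat_lit 15) (.e (nat_lit 360452) (nat_lit 0) (.e (nat_lit 5905) (nat_lit 320) (.e (nat_lit 1221) (nat_lit 90) (.e (nat_lit 81958) (nat_lit 24) .nil))))) .nil))) (.nd (nat_lit 5) 
(.lf (nat_lit 158354) (.g (nat_lit 1316) (.e (nat_lit 57426) (nat_lit 15) (.e (nat_lit 360451) (nat_lit 0) (.e (nat_lit 7263) (nat_lit 384) (.e (nat_lit 57412) (nat_lit 12) (.e (nat_lit 336176) (nat_lit 10) .nil))))) .nil)) 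
(.lf (nat_lit 158386) (.g (nat_lit 1977) (.e (nat_lit 57426) (nat_lit 15) (.e (nat_lit 360452) (nat_lit 0) (.e (nat_lit 5907) (nat_lit 320) (.e (nat_lit 1219) (nat_lit 90) (.e (nat_lit 81958) (nat_lit 24) .nil))))) .nil)))) (.nd (nat_lit 4) (.nd (nat_lit 5) 
(.lf (nat_lit 158346) (.g (nat_lit 3053) (.e (nat_lit 57426) (nat_lit 15) (.e (nat_lit 360451) (nat_lit 0) (.e (nat_lit 7124) (nat_lit 382) (.e (nat_lit 1201) (nat_lit 88) (.e (nat_lit 65617) (nat_lit 10) (.e (nat_lit 344091) (nat_lit 18) (.e (nat_lit 7261) (nat_lit 384) .nil))))))) (.g (nat_lit 6) .nil .nil))) 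
(.lf (nat_lit 158378) (.g (nat_lit 2846) (.e (nat_lit 57426) (nat_lit 15) (.e (nat_lit 360452) (nat_lit 0) (.e (nat_lit 5906) (nat_lit 320) (.e (nat_lit 1221) (nat_lit 90) (.e (nat_lit 81959) (nat_lit 24) (.e (nat_lit 123194) (nat_lit 266) .nil)))))) (.g (nat_lit 5) .nil .nil)))) (.nd (nat_lit 5) 
(.lf (nat_lit 158362) (.g (nat_lit 3165) (.e (nat_lit 57426) (nat_lit 15) (.e (nat_lit 360451) (nat_lit 0) (.e (nat_lit 7265) (nat_lit 384) (.e (nat_lit 57427) (nat_lit 15) (.e (nat_lit 360451) (nat_lit 0) (.e (nat_lit 7261) (nat_lit 384) .nil)))))) (.g (nat_lit 6) .nil .nil))) 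
(.lf (nat_lit 158394) (.g (nat_lit 4133) (.e (nat_lit 57426) (nat_lit 15) (.e (nat_lit 360452) (nat_lit 0) (.e (nat_lit 5907) (nat_lit 320) (.e (nat_lit 1221) (nat_lit 90) (.e (nat_lit 81959) (nat_lit 24) (.e (nat_lit 123197) (nat_lit 266) .nil)))))) (.g (nat_lit 0) .nil .nil)))))) (.nd (nat_lit 3) (.nd (nat_lit 4) (.nd (nat_lit 5) 
(.lf (nat_lit 158342) (.g (nat_lit 524) (.e (nat_lit 57426) (nat_lit 15) (.e (nat_lit 360451) (nat_lit 0) (.e (nat_lit 6923) (nat_lit 371) .nil))) .nil)) 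
(.lf (nat_lit 158374) (.g (nat_lit 3509) (.e (nat_lit 57426) (nat_lit 15) (.e (nat_lit 360452) (nat_lit 0) (.e (nat_lit 5905) (nat_lit 320) (.e (nat_lit 1221) (nat_lit 90) (.e (nat_lit 81959) (nat_lit 24) (.e (nat_lit 123198) (nat_lit 266) .nil)))))) (.g (nat_lit 0) .nil .nil)))) (.nd (nat_lit 5) 
(.lf (nat_lit 158358) (.g (nat_lit 2008) (.e (nat_lit 57426) (nat_lit 15) (.e (nat_lit 360451) (nat_lit 0) (.e (nat_lit 7265) (nat_lit 384) (.e (nat_lit 57426) (nat_lit 15) (.e (nat_lit 360451) (nat_lit 0) .nil))))) .nil)) 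
(.lf (nat_lit 158390) (.g (nat_lit 2905) (.e (nat_lit 57426) (nat_lit 15) (.e (nat_lit 360452) (nat_lit 0) (.e (nat_lit 5907) (nat_lit 320) (.e (nat_lit 1221) (nat_lit 90) (.e (nat_lit 81957) (nat_lit 24) (.e (nat_lit 123198) (nat_lit 266) .nil)))))) (.g (nat_lit 5) .nil .nil))))) (.nd (nat_lit 4) (.nd (nat_lit 5) 
(.lf (nat_lit 158350) (.g (nat_lit 1911) (.e (nat_lit 57426) (nat_lit 15) (.e (nat_lit 360451) (nat_lit 0) (.e (nat_lit 7125) (nat_lit 382) (.e (nat_lit 1224) (nat_lit 90) (.e (nat_lit 81946) (nat_lit 20) .nil))))) .nil)) 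
(.lf (nat_lit 158382) (.g (nat_lit 1282) (.e (nat_lit 57426) (nat_lit 15) (.e (nat_lit 360452) (nat_lit 0) (.e (nat_lit 5907) (nat_lit 320) (.e (nat_lit 993) (nat_lit 81) .nil)))) .nil))) (.nd (nat_lit 5) 
(.lf (nat_lit 158366) (.g (nat_lit 2093) (.e (nat_lit 57426) (nat_lit 15) (.e (nat_lit 360451) (nat_lit 0) (.e (nat_lit 7266) (nat_lit 384) (.e (nat_lit 57427) (nat_lit 15) (.e (nat_lit 360449) (nat_lit 0) (.e (nat_lit 7263) (nat_lit 384) .nil)))))) (.g (nat_lit 4) .nil .nil))) 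
(.lf (nat_lit 158398) (.g (nat_lit 1359) (.e (nat_lit 57426) (nat_lit 15) (.e (nat_lit 360452) (nat_lit 0) (.e (nat_lit 7147) (nat_lit 382) (.e (nat_lit 1217) (nat_lit 90) (.e (nat_lit 81944) (nat_lit 20) .nil))))) .nil))))))) (.nd (nat_lit 1) (.nd (nat_lit 2) (.nd (nat_lit 3) (.nd (nat_lit 4) (.nd (nat_lit 5) 
(.lf (nat_lit 158337) (.g (nat_lit 1300) (.e (nat_lit 57426) (nat_lit 15) (.e (nat_lit 360450) (nat_lit 0) (.e (nat_lit 7263) (nat_lit 384) (.e (nat_lit 57412) (nat_lit 12) (.e (nat_lit 336176) (nat_lit 10) .nil))))) .nil)) 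
(.lf (nat_lit 158369) (.g (nat_lit 3403) (.e (nat_lit 57426) (nat_lit 15) (.e (nat_lit 360452) (nat_lit 0) (.e (nat_lit 5905) (nat_lit 320) (.e (nat_lit 1220) (nat_lit 90) (.e (nat_lit 81959) (nat_lit 24) (.e (nat_lit 123198) (nat_lit 266) .nil)))))) (.g (nat_lit 6) .nil .nil)))) (.nd (nat_lit 5) 
(.lf (nat_lit 158353) (.g (nat_lit 1498) (.e (nat_lit 57426) (nat_lit 15) (.e (nat_lit 360451) (nat_lit 0) (.e (nat_lit 7261) (nat_lit 384) (.e (nat_lit 57427) (nat_lit 15) (.e (nat_lit 360449) (nat_lit 0) .nil))))) .nil)) 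
(.lf (nat_lit 158385) (.g (nat_lit 3867) (.e (nat_lit 57426) (nat_lit 15) (.e (nat_lit 360452) (nat_lit 0) (.e (nat_lit 5907) (nat_lit 320) (.e (nat_lit 1219) (nat_lit 90) (.e (nat_lit 81957) (nat_lit 24) (.e (nat_lit 123197) (nat_lit 266) .nil)))))) (.g (nat_lit 0) .nil .nil))))) (.nd (nat_lit 4) (.nd (nat_lit 5) 
(.lf (nat_lit 158345) (.g (nat_lit 3112) (.e (nat_lit 57426) (nat_lit 15) (.e (nat_lit 360451) (nat_lit 0) (.e (nat_lit 7124) (nat_lit 382) (.e (nat_lit 1201) (nat_lit 88) (.e (nat_lit 65610) (nat_lit 10) (.e (nat_lit 344090) (nat_lit 18) (.e (nat_lit 7261) (nat_lit 384) .nil))))))) (.g (nat_lit 6) .nil .nil))) 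
(.lf (nat_lit 158377) (.g (nat_lit 1849) (.e (nat_lit 57426) (nat_lit 15) (.e (nat_lit 360452) (nat_lit 0) (.e (nat_lit 5906) (nat_lit 320) (.e (nat_lit 1221) (nat_lit 90) (.e (nat_lit 81957) (nat_lit 24) .nil))))) .nil))) (.nd (nat_lit 5) 
(.lf (nat_lit 158361) (.g (nat_lit 3154) (.e (nat_lit 57426) (nat_lit 15) (.e (nat_lit 360451) (nat_lit 0) (.e (nat_lit 7265) (nat_lit 384) (.e (nat_lit 57427) (nat_lit 15) (.e (nat_lit 360450) (nat_lit 0) (.e (nat_lit 7265) (nat_lit 384) .nil)))))) (.g (nat_lit 5) .nil .nil))) 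
(.lf (nat_lit 158393) (.g (nat_lit 3111) (.e (nat_lit 57426) (nat_lit 15) (.e (nat_lit 360452) (nat_lit 0) (.e (nat_lit 5907) (nat_lit 320) (.e (nat_lit 1221) (nat_lit 90) (.e (nat_lit 81959) (nat_lit 24) (.e (nat_lit 123196) (nat_lit 266) .nil)))))) (.g (nat_lit 5) .nil .nil)))))) (.nd (nat_lit 3) (.nd (nat_lit 4) (.nd (nat_lit 5) 
(.lf (nat_lit 158341) (.g (nat_lit 1090) (.e (nat_lit 57426) (nat_lit 15) (.e (nat_lit 360450) (nat_lit 0) (.e (nat_lit 7266) (nat_lit 384) (.e (nat_lit 57427) (nat_lit 15) .nil)))) .nil)) 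
(.lf (nat_lit 158373) (.g (nat_lit 3791) (.e (nat_lit 57426) (nat_lit 15) (.e (nat_lit 360452) (nat_lit 0) (.e (nat_lit 5905) (nat_lit 320) (.e (nat_lit 1221) (nat_lit 90) (.e (nat_lit 81959) (nat_lit 24) (.e (nat_lit 123197) (nat_lit 266) .nil)))))) (.g (nat_lit 0) .nil .nil)))) (.nd (nat_lit 5) 
(.lf (nat_lit 158357) (.g (nat_lit 3076) (.e (nat_lit 57426) (nat_lit 15) (.e (nat_lit 360451) (nat_lit 0) (.e (nat_lit 7265) (nat_lit 384) (.e (nat_lit 57412) (nat_lit 12) (.e (nat_lit 336176) (nat_lit 10) (.e (nat_lit 344096) (nat_lit 18) (.e (nat_lit 7261) (nat_lit 384) .nil))))))) (.g (nat_lit 6) .nil .nil))) 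
(.lf (nat_lit 158389) (.g (nat_lit 3266) (.e (nat_lit 57426) (nat_lit 15) (.e (nat_lit 360452) (nat_lit 0) (.e (nat_lit 5907) (nat_lit 320) (.e (nat_lit 1220) (nat_lit 90) (.e (nat_lit 81959) (nat_lit 24) (.e (nat_lit 123198) (nat_lit 266) .nil)))))) (.g (nat_lit 5) .nil .nil))))) (.nd (nat_lit 4) (.nd (nat_lit 5) 
(.lf (nat_lit 158349) (.g (nat_lit 3228) (.e (nat_lit 57426) (nat_lit 15) (.e (nat_lit 360451) (nat_lit 0) (.e (nat_lit 7124) (nat_lit 382) (.e (nat_lit 1201) (nat_lit 88) (.e (nat_lit 65617) (nat_lit 10) (.e (nat_lit 344096) (nat_lit 18) (.e (nat_lit 7263) (nat_lit 384) .nil))))))) (.g (nat_lit 6) .nil .nil))) 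
(.lf (nat_lit 158381) (.g (nat_lit 395) (.e (nat_lit 57426) (nat_lit 15) (.e (nat_lit 360452) (nat_lit 0) (.e (nat_lit 5907) (nat_lit 320) .nil))) .nil))) (.nd (nat_lit 5) 
(.lf (nat_lit 158365) (.g (nat_lit 2155) (.e (nat_lit 57426) (nat_lit 15) (.e (nat_lit 360451) (nat_lit 0) (.e (nat_lit 7266) (nat_lit 384) (.e (nat_lit 57427) (nat_lit 15) (.e (nat_lit 360449) (nat_lit 0) (.e (nat_lit 7261) (nat_lit 384) .nil)))))) (.g (nat_lit 4) .nil .nil))) 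
(.lf (nat_lit 158397) (.g (nat_lit 401) (.e (nat_lit 57426) (nat_lit 15) (.e (nat_lit 360452) (nat_lit 0) (.e (nat_lit 7936) (nat_lit 323) .nil))) .nil)))))) (.nd (nat_lit 2) (.nd (nat_lit 3) (.nd (nat_lit 4) (.nd (nat_lit 5) 
(.lf (nat_lit 158339) (.g (nat_lit 1399) (.e (nat_lit 57426) (nat_lit 15) (.e (nat_lit 360450) (nat_lit 0) (.e (nat_lit 7263) (nat_lit 384) (.e (nat_lit 57427) (nat_lit 15) (.e (nat_lit 360451) (nat_lit 0) .nil))))) .nil)) 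
(.lf (nat_lit 158371) (.g (nat_lit 3460) (.e (nat_lit 57426) (nat_lit 15) (.e (nat_lit 360452) (nat_lit 0) (.e (nat_lit 5905) (nat_lit 320) (.e (nat_lit 1221) (nat_lit 90) (.e (nat_lit 81959) (nat_lit 24) (.e (nat_lit 123194) (nat_lit 266) .nil)))))) (.g (nat_lit 5) .nil .nil)))) (.nd (nat_lit 5) 
(.lf (nat_lit 158355) (.g (nat_lit 3013) (.e (nat_lit 57426) (nat_lit 15) (.e (nat_lit 360451) (nat_lit 0) (.e (nat_lit 7265) (nat_lit 384) (.e (nat_lit 57412) (nat_lit 12) (.e (nat_lit 336176) (nat_lit 10) (.e (nat_lit 344091) (nat_lit 18) (.e (nat_lit 7261) (nat_lit 384) .nil))))))) (.g (nat_lit 6) .nil .nil))) 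
(.lf (nat_lit 158387) (.g (nat_lit 1692) (.e (nat_lit 57426) (nat_lit 15) (.e (nat_lit 360452) (nat_lit 0) (.e (nat_lit 5907) (nat_lit 320) (.e (nat_lit 1220) (nat_lit 90) (.e (nat_lit 81959) (nat_lit 24) .nil))))) .nil)))) (.nd (nat_lit 4) (.nd (nat_lit 5) 
(.lf (nat_lit 158347) (.g (nat_lit 3050) (.e (nat_lit 57426) (nat_lit 15) (.e (nat_lit 360451) (nat_lit 0) (.e (nat_lit 7124) (nat_lit 382) (.e (nat_lit 1201) (nat_lit 88) (.e (nat_lit 65617) (nat_lit 10) (.e (nat_lit 344091) (nat_lit 18) (.e (nat_lit 7263) (nat_lit 384) .nil))))))) (.g (nat_lit 6) .nil .nil))) 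
(.lf (nat_lit 158379) (.g (nat_lit 2541) (.e (nat_lit 57426) (nat_lit 15) (.e (nat_lit 360452) (nat_lit 0) (.e (nat_lit 5906) (nat_lit 320) (.e (nat_lit 1221) (nat_lit 90) (.e (nat_lit 81959) (nat_lit 24) (.e (nat_lit 123196) (nat_lit 266) .nil)))))) (.g (nat_lit 5) .nil .nil)))) (.nd (nat_lit 5) 
(.lf (nat_lit 158363) (.g (nat_lit 3166) (.e (nat_lit 57426) (nat_lit 15) (.e (nat_lit 360451) (nat_lit 0) (.e (nat_lit 7265) (nat_lit 384) (.e (nat_lit 57427) (nat_lit 15) (.e (nat_lit 360451) (nat_lit 0) (.e (nat_lit 7263) (nat_lit 384) .nil)))))) (.g (nat_lit 5) .nil .nil))) 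
(.lf (nat_lit 158395) (.g (nat_lit 3851) (.e (nat_lit 57426) (nat_lit 15) (.e (nat_lit 360452) (nat_lit 0) (.e (nat_lit 5907) (nat_lit 320) (.e (nat_lit 1221) (nat_lit 90) (.e (nat_lit 81959) (nat_lit 24) (.e (nat_lit 123198) (nat_lit 266) .nil)))))) (.g (nat_lit 0) .nil .nil)))))) (.nd (nat_lit 3) (.nd (nat_lit 4) (.nd (nat_lit 5) 
(.lf (nat_lit 158343) (.g (nat_lit 1479) (.e (nat_lit 57426) (nat_lit 15) (.e (nat_lit 360451) (nat_lit 0) (.e (nat_lit 6923) (nat_lit 371) (.e (nat_lit 2628) (nat_lit 164) (.e (nat_lit 179968) (nat_lit 20) .nil))))) .nil)) 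
(.lf (nat_lit 158375) (.g (nat_lit 1846) (.e (nat_lit 57426) (nat_lit 15) (.e (nat_lit 360452) (nat_lit 0) (.e (nat_lit 5906) (nat_lit 320) (.e (nat_lit 1219) (nat_lit 90) (.e (nat_lit 81957) (nat_lit 24) (.e (nat_lit 123198) (nat_lit 266) .nil)))))) (.g (nat_lit 4) .nil .nil)))) (.nd (nat_lit 5) 
(.lf (nat_lit 158359) (.g (nat_lit 2138) (.e (nat_lit 57426) (nat_lit 15) (.e (nat_lit 360451) (nat_lit 0) (.e (nat_lit 7265) (nat_lit 384) (.e (nat_lit 57427) (nat_lit 15) (.e (nat_lit 360449) (nat_lit 0) .nil))))) .nil)) 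
(.lf (nat_lit 158391) (.g (nat_lit 2093) (.e (nat_lit 57426) (nat_lit 15) (.e (nat_lit 360452) (nat_lit 0) (.e (nat_lit 5907) (nat_lit 320) (.e (nat_lit 1221) (nat_lit 90) (.e (nat_lit 81958) (nat_lit 24) (.e (nat_lit 123197) (nat_lit 266) .nil)))))) (.g (nat_lit 4) .nil .nil))))) (.nd (nat_lit 4) (.nd (nat_lit 5) 
(.lf (nat_lit 158351) (.g (nat_lit 1649) (.e (nat_lit 57426) (nat_lit 15) (.e (nat_lit 360451) (nat_lit 0) (.e (nat_lit 7261) (nat_lit 384) (.e (nat_lit 57412) (nat_lit 12) (.e (nat_lit 336176) (nat_lit 10) (.e (nat_lit 344095) (nat_lit 18) (.e (nat_lit 7263) (nat_lit 384) .nil))))))) (.g (nat_lit 4) .nil .nil))) 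
(.lf (nat_lit 158383) (.g (nat_lit 1902) (.e (nat_lit 57426) (nat_lit 15) (.e (nat_lit 360452) (nat_lit 0) (.e (nat_lit 5907) (nat_lit 320) (.e (nat_lit 1190) (nat_lit 88) (.e (nat_lit 65595) (nat_lit 9) .nil))))) .nil))) (.nd (nat_lit 5) 
(.lf (nat_lit 158367) (.g (nat_lit 315) (.e (nat_lit 57426) (nat_lit 15) (.e (nat_lit 360452) (nat_lit 0) (.e (nat_lit 5905) (nat_lit 320) .nil))) .nil)) 
(.lf (nat_lit 158399) (.g (nat_lit 1225) (.e (nat_lit 57426) (nat_lit 15) (.e (nat_lit 360452) (nat_lit 0) (.e (nat_lit 7270) (nat_lit 385) (.e (nat_lit 122906) (nat_lit 12) .nil)))) .nil))))))))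

noncomputable def tv2121 : DT := (.nd (nat_lit 0) (.nd (nat_lit 1) (.nd (nat_lit 2) (.nd (nat_lit 3) (.nd (nat_lit 4) (.nd (nat_lit 5) 
(.lf (nat_lit 158400) (.g (nat_lit 2434) (.e (nat_lit 57426) (nat_lit 15) (.e (nat_lit 360452) (nat_lit 0) (.e (nat_lit 7270) (nat_lit 385) (.e (nat_lit 122917) (nat_lit 15) (.e (nat_lit 360450) (nat_lit 0) (.e (nat_lit 7261) (nat_lit 384) .nil)))))) (.g (nat_lit 4) .nil .nil))) 
(.lf (nat_lit 158432) (.g (nat_lit 2399) (.e (nat_lit 57426) (nat_lit 15) (.e (nat_lit 360452) (nat_lit 0) (.e (nat_lit 7272) (nat_lit 385) (.e (nat_lit 122918) (nat_lit 15) (.e (nat_lit 360451) (nat_lit 0) (.e (nat_lit 7261) (nat_lit 384) .nil)))))) (.g (nat_lit 5) .nil .nil)))) (.nd (nat_lit 5) 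
(.lf (nat_lit 158416) (.g (nat_lit 2475) (.e (nat_lit 57426) (nat_lit 15) (.e (nat_lit 360452) (nat_lit 0) (.e (nat_lit 7271) (nat_lit 385) (.e (nat_lit 122917) (nat_lit 15) (.e (nat_lit 360451) (nat_lit 0) (.e (nat_lit 7261) (nat_lit 384) .nil)))))) (.g (nat_lit 5) .nil .nil))) 
(.lf (nat_lit 158448) (.g (nat_lit 1713) (.e (nat_lit 57426) (nat_lit 15) (.e (nat_lit 360456) (nat_lit 0) (.e (nat_lit 5949) (nat_lit 322) (.e (nat_lit 57427) (nat_lit 15) (.e (nat_lit 360457) (nat_lit 0) (.e (nat_lit 5948) (nat_lit 322) .nil)))))) (.g (nat_lit 4) .nil .nil))))) (.nd (nat_lit 4) (.nd (nat_lit 5) 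
(.lf (nat_lit 158408) (.g (nat_lit 3040) (.e (nat_lit 57426) (nat_lit 15) (.e (nat_lit 360452) (nat_lit 0) (.e (nat_lit 7270) (nat_lit 385) (.e (nat_lit 122919) (nat_lit 15) (.e (nat_lit 360449) (nat_lit 0) (.e (nat_lit 7263) (nat_lit 384) .nil)))))) (.g (nat_lit 5) .nil .nil))) 
(.lf (nat_lit 158440) (.g (nat_lit 1971) (.e (nat_lit 57426) (nat_lit 15) (.e (nat_lit 360452) (nat_lit 0) (.e (nat_lit 7273) (nat_lit 385) (.e (nat_lit 122917) (nat_lit 15) (.e (nat_lit 360451) (nat_lit 0) (.e (nat_lit 7261) (nat_lit 384) .nil)))))) (.g (nat_lit 4) .nil .nil)))) (.nd (nat_lit 5) 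
(.lf (nat_lit 158424) (.g (nat_lit 3703) (.e (nat_lit 57426) (nat_lit 15) (.e (nat_lit 360452) (nat_lit 0) (.e (nat_lit 7271) (nat_lit 385) (.e (nat_lit 122919) (nat_lit 15) (.e (nat_lit 360451) (nat_lit 0) (.e (nat_lit 7261) (nat_lit 384) .nil)))))) (.g (nat_lit 0) .nil .nil))) 
(.lf (nat_lit 158456) (.g (nat_lit 423) (.e (nat_lit 57426) (nat_lit 15) (.e (nat_lit 360466) (nat_lit 3) (.e (nat_lit 516117) (nat_lit 1) .nil))) .nil))))) (.nd (nat_lit 3) (.nd (nat_lit 4) (.nd (nat_lit 5) 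
(.lf (nat_lit 158404) (.g (nat_lit 2576) (.e (nat_lit 57426) (nat_lit 15) (.e (nat_lit 360452) (nat_lit 0) (.e (nat_lit 7270) (nat_lit 385) (.e (nat_lit 122918) (nat_lit 15) (.e (nat_lit 360449) (nat_lit 0) (.e (nat_lit 7266) (nat_lit 384) .nil)))))) (.g (nat_lit 5) .nil .nil))) 
(.lf (nat_lit 158436) (.g (nat_lit 3583) (.e (nat_lit 57426) (nat_lit 15) (.e (nat_lit 360452) (nat_lit 0) (.e (nat_lit 7272) (nat_lit 385) (.e (nat_lit 122919) (nat_lit 15) (.e (nat_lit 360449) (nat_lit 0) (.e (nat_lit 7266) (nat_lit 384) .nil)))))) (.g (nat_lit 0) .nil .nil)))) (.nd (nat_lit 5) 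
(.lf (nat_lit 158420) (.g (nat_lit 2533) (.e (nat_lit 57426) (nat_lit 15) (.e (nat_lit 360452) (nat_lit 0) (.e (nat_lit 7271) (nat_lit 385) (.e (nat_lit 122919) (nat_lit 15) (.e (nat_lit 360449) (nat_lit 0) (.e (nat_lit 7261) (nat_lit 384) .nil)))))) (.g (nat_lit 5) .nil .nil))) 
(.lf (nat_lit 158452) (.g (nat_lit 684) (.e (nat_lit 57426) (nat_lit 15) (.e (nat_lit 360457) (nat_lit 0) (.e (nat_lit 5818) (nat_lit 320) (.e (nat_lit 1224) (nat_lit 90) .nil)))) .nil)))) (.nd (nat_lit 4) (.nd (nat_lit 5) 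
(.lf (nat_lit 158412) (.g (nat_lit 4007) (.e (nat_lit 57426) (nat_lit 15) (.e (nat_lit 360452) (nat_lit 0) (.e (nat_lit 7270) (nat_lit 385) (.e (nat_lit 122919) (nat_lit 15) (.e (nat_lit 360451) (nat_lit 0) (.e (nat_lit 7263) (nat_lit 384) .nil)))))) (.g (nat_lit 5) .nil .nil))) 
(.lf (nat_lit 158444) (.g (nat_lit 2005) (.e (nat_lit 57426) (nat_lit 15) (.e (nat_lit 360456) (nat_lit 0) (.e (nat_lit 5818) (nat_lit 320) (.e (nat_lit 1222) (nat_lit 90) (.e (nat_lit 81957) (nat_lit 24) (.e (nat_lit 123198) (nat_lit 266) .nil)))))) (.g (nat_lit 0) .nil .nil)))) (.nd (nat_lit 5) 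
(.lf (nat_lit 158428) (.g (nat_lit 2103) (.e (nat_lit 57426) (nat_lit 15) (.e (nat_lit 360452) (nat_lit 0) (.e (nat_lit 7272) (nat_lit 385) (.e (nat_lit 122917) (nat_lit 15) (.e (nat_lit 360450) (nat_lit 0) .nil))))) .nil)) 
(.lf (nat_lit 158460) (.g (nat_lit 2855) (.e (nat_lit 57426) (nat_lit 15) (.e (nat_lit 360466) (nat_lit 3) (.e (nat_lit 516183) (nat_lit 16) (.e (nat_lit 491566) (nat_lit 12) (.e (nat_lit 385045) (nat_lit 21) .nil))))) .nil)))))) (.nd (nat_lit 2) (.nd (nat_lit 3) (.nd (nat_lit 4) (.nd (nat_lit 5) 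
(.lf (nat_lit 158402) (.g (nat_lit 3275) (.e (nat_lit 57426) (nat_lit 15) (.e (nat_lit 360452) (nat_lit 0) (.e (nat_lit 7270) (nat_lit 385) (.e (nat_lit 122917) (nat_lit 15) (.e (nat_lit 360451) (nat_lit 0) (.e (nat_lit 7261) (nat_lit 384) .nil)))))) (.g (nat_lit 5) .nil .nil))) 
(.lf (nat_lit 158434) (.g (nat_lit 2786) (.e (nat_lit 57426) (nat_lit 15) (.e (nat_lit 360452) (nat_lit 0) (.e (nat_lit 7272) (nat_lit 385) (.e (nat_lit 122919) (nat_lit 15) (.e (nat_lit 360449) (nat_lit 0) (.e (nat_lit 7263) (nat_lit 384) .nil)))))) (.g (nat_lit 5) .nil .nil)))) (.nd (nat_lit 5) 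
(.lf (nat_lit 158418) (.g (nat_lit 2572) (.e (nat_lit 57426) (nat_lit 15) (.e (nat_lit 360452) (nat_lit 0) (.e (nat_lit 7271) (nat_lit 385) (.e (nat_lit 122918) (nat_lit 15) (.e (nat_lit 360451) (nat_lit 0) (.e (nat_lit 7261) (nat_lit 384) .nil)))))) (.g (nat_lit 6) .nil .nil))) 
(.lf (nat_lit 158450) (.g (nat_lit 1776) (.e (nat_lit 57426) (nat_lit 15) (.e (nat_lit 360456) (nat_lit 0) (.e (nat_lit 5949) (nat_lit 322) (.e (nat_lit 57428) (nat_lit 15) (.e (nat_lit 360457) (nat_lit 0) (.e (nat_lit 5948) (nat_lit 322) .nil)))))) (.g (nat_lit 4) .nil .nil))))) (.nd (nat_lit 4) (.nd (nat_lit 5) 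
(.lf (nat_lit 158410) (.g (nat_lit 3843) (.e (nat_lit 57426) (nat_lit 15) (.e (nat_lit 360452) (nat_lit 0) (.e (nat_lit 7270) (nat_lit 385) (.e (nat_lit 122919) (nat_lit 15) (.e (nat_lit 360449) (nat_lit 0) (.e (nat_lit 7266) (nat_lit 384) .nil)))))) (.g (nat_lit 0) .nil .nil))) 
(.lf (nat_lit 158442) (.g (nat_lit 3355) (.e (nat_lit 57426) (nat_lit 15) (.e (nat_lit 360452) (nat_lit 0) (.e (nat_lit 7273) (nat_lit 385) (.e (nat_lit 122919) (nat_lit 15) (.e (nat_lit 360451) (nat_lit 0) (.e (nat_lit 7261) (nat_lit 384) .nil)))))) (.g (nat_lit 0) .nil .nil)))) (.nd (nat_lit 5) 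
(.lf (nat_lit 158426) (.g (nat_lit 1933) (.e (nat_lit 57426) (nat_lit 15) (.e (nat_lit 360452) (nat_lit 0) (.e (nat_lit 7272) (nat_lit 385) (.e (nat_lit 122916) (nat_lit 14) (.e (nat_lit 352309) (nat_lit 21) (.e (nat_lit 65280) (nat_lit 154) .nil)))))) (.g (nat_lit 4) .nil .nil))) 
(.lf (nat_lit 158458) (.g (nat_lit 2917) (.e (nat_lit 57426) (nat_lit 15) (.e (nat_lit 360466) (nat_lit 3) (.e (nat_lit 516183) (nat_lit 16) (.e (nat_lit 491566) (nat_lit 12) (.e (nat_lit 385043) (nat_lit 21) (.e (nat_lit 4284) (nat_lit 253) .nil)))))) (.g (nat_lit 4) .nil .nil)))))) (.nd (nat_lit 3) (.nd (nat_lit 4) (.nd (nat_lit 5) 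
(.lf (nat_lit 158406) (.g (nat_lit 2504) (.e (nat_lit 57426) (nat_lit 15) (.e (nat_lit 360452) (nat_lit 0) (.e (nat_lit 7270) (nat_lit 385) (.e (nat_lit 122919) (nat_lit 15) (.e (nat_lit 360448) (nat_lit 0) (.e (nat_lit 7266) (nat_lit 384) .nil)))))) (.g (nat_lit 4) .nil .nil))) 
(.lf (nat_lit 158438) (.g (nat_lit 3867) (.e (nat_lit 57426) (nat_lit 15) (.e (nat_lit 360452) (nat_lit 0) (.e (nat_lit 7272) (nat_lit 385) (.e (nat_lit 122919) (nat_lit 15) (.e (nat_lit 360451) (nat_lit 0) (.e (nat_lit 7261) (nat_lit 384) .nil)))))) (.g (nat_lit 0) .nil .nil)))) (.nd (nat_lit 5) 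
(.lf (nat_lit 158422) (.g (nat_lit 3267) (.e (nat_lit 57426) (nat_lit 15) (.e (nat_lit 360452) (nat_lit 0) (.e (nat_lit 7271) (nat_lit 385) (.e (nat_lit 122919) (nat_lit 15) (.e (nat_lit 360449) (nat_lit 0) (.e (nat_lit 7265) (nat_lit 384) .nil)))))) (.g (nat_lit 6) .nil .nil))) 
(.lf (nat_lit 158454) (.g (nat_lit 2779) (.e (nat_lit 57426) (nat_lit 15) (.e (nat_lit 368384) (nat_lit 0) (.e (nat_lit 5905) (nat_lit 320) (.e (nat_lit 1221) (nat_lit 90) (.e (nat_lit 81959) (nat_lit 24) (.e (nat_lit 123196) (nat_lit 266) .nil)))))) (.g (nat_lit 5) .nil .nil))))) (.nd (nat_lit 4) (.nd (nat_lit 5) 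
(.lf (nat_lit 158414) (.g (nat_lit 1516) (.e (nat_lit 57426) (nat_lit 15) (.e (nat_lit 360452) (nat_lit 0) (.e (nat_lit 7271) (nat_lit 385) (.e (nat_lit 122916) (nat_lit 14) (.e (nat_lit 352309) (nat_lit 21) (.e (nat_lit 65280) (nat_lit 154) .nil)))))) (.g (nat_lit 4) .nil .nil))) 
(.lf (nat_lit 158446) (.g (nat_lit 1124) (.e (nat_lit 57426) (nat_lit 15) (.e (nat_lit 360456) (nat_lit 0) (.e (nat_lit 5948) (nat_lit 322) (.e (nat_lit 57426) (nat_lit 15) (.e (nat_lit 360456) (nat_lit 0) .nil))))) .nil))) (.nd (nat_lit 5) 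
(.lf (nat_lit 158430) (.g (nat_lit 4007) (.e (nat_lit 57426) (nat_lit 15) (.e (nat_lit 360452) (nat_lit 0) (.e (nat_lit 7272) (nat_lit 385) (.e (nat_lit 122917) (nat_lit 15) (.e (nat_lit 360451) (nat_lit 0) (.e (nat_lit 7265) (nat_lit 384) .nil)))))) (.g (nat_lit 6) .nil .nil))) 
(.lf (nat_lit 158462) (.g (nat_lit 3746) (.e (nat_lit 57426) (nat_lit 15) (.e (nat_lit 360466) (nat_lit 3) (.e (nat_lit 516183) (nat_lit 16) (.e (nat_lit 491566) (nat_lit 12) (.e (nat_lit 385045) (nat_lit 21) (.e (nat_lit 4281) (nat_lit 253) .nil)))))) (.g (nat_lit 6) .nil .nil)))))))) (.nd (nat_lit 1) (.nd (nat_lit 2) (.nd (nat_lit 3) (.nd (nat_lit 4) (.nd (nat_lit 5) 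
(.lf (nat_lit 158401) (.g (nat_lit 2390) (.e (nat_lit 57426) (nat_lit 15) (.e (nat_lit 360452) (nat_lit 0) (.e (nat_lit 7270) (nat_lit 385) (.e (nat_lit 122917) (nat_lit 15) (.e (nat_lit 360450) (nat_lit 0) (.e (nat_lit 7263) (nat_lit 384) .nil)))))) (.g (nat_lit 4) .nil .nil))) 
(.lf (nat_lit 158433) (.g (nat_lit 2800) (.e (nat_lit 57426) (nat_lit 15) (.e (nat_lit 360452) (nat_lit 0) (.e (nat_lit 7272) (nat_lit 385) (.e (nat_lit 122919) (nat_lit 15) (.e (nat_lit 360449) (nat_lit 0) (.e (nat_lit 7261) (nat_lit 384) .nil)))))) (.g (nat_lit 5) .nil .nil)))) (.nd (nat_lit 5) 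
(.lf (nat_lit 158417) (.g (nat_lit 2869) (.e (nat_lit 57426) (nat_lit 15) (.e (nat_lit 360452) (nat_lit 0) (.e (nat_lit 7271) (nat_lit 385) (.e (nat_lit 122918) (nat_lit 15) (.e (nat_lit 360449) (nat_lit 0) (.e (nat_lit 7266) (nat_lit 384) .nil)))))) (.g (nat_lit 0) .nil .nil))) 
(.lf (nat_lit 158449) (.g (nat_lit 2091) (.e (nat_lit 57426) (nat_lit 15) (.e (nat_lit 360456) (nat_lit 0) (.e (nat_lit 5949) (nat_lit 322) (.e (nat_lit 57427) (nat_lit 15) (.e (nat_lit 360457) (nat_lit 0) (.e (nat_lit 5949) (nat_lit 322) .nil)))))) (.g (nat_lit 5) .nil .nil))))) (.nd (nat_lit 4) (.nd (nat_lit 5) 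
(.lf (nat_lit 158409) (.g (nat_lit 3757) (.e (nat_lit 57426) (nat_lit 15) (.e (nat_lit 360452) (nat_lit 0) (.e (nat_lit 7270) (nat_lit 385) (.e (nat_lit 122919) (nat_lit 15) (.e (nat_lit 360449) (nat_lit 0) (.e (nat_lit 7265) (nat_lit 384) .nil)))))) (.g (nat_lit 6) .nil .nil))) 
(.lf (nat_lit 158441) (.g (nat_lit 2820) (.e (nat_lit 57426) (nat_lit 15) (.e (nat_lit 360452) (nat_lit 0) (.e (nat_lit 7273) (nat_lit 385) (.e (nat_lit 122919) (nat_lit 15) (.e (nat_lit 360449) (nat_lit 0) (.e (nat_lit 7266) (nat_lit 384) .nil)))))) (.g (nat_lit 6) .nil .nil)))) (.nd (nat_lit 5) 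
(.lf (nat_lit 158425) (.g (nat_lit 1046) (.e (nat_lit 57426) (nat_lit 15) (.e (nat_lit 360452) (nat_lit 0) (.e (nat_lit 7272) (nat_lit 385) (.e (nat_lit 122906) (nat_lit 12) .nil)))) .nil)) 
(.lf (nat_lit 158457) (.g (nat_lit 2837) (.e (nat_lit 57426) (nat_lit 15) (.e (nat_lit 360466) (nat_lit 3) (.e (nat_lit 516183) (nat_lit 16) (.e (nat_lit 491566) (nat_lit 12) (.e (nat_lit 385043) (nat_lit 21) .nil))))) .nil))))) (.nd (nat_lit 3) (.nd (nat_lit 4) (.nd (nat_lit 5) 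
(.lf (nat_lit 158405) (.g (nat_lit 1493) (.e (nat_lit 57426) (nat_lit 15) (.e (nat_lit 360452) (nat_lit 0) (.e (nat_lit 7270) (nat_lit 385) (.e (nat_lit 122918) (nat_lit 15) (.e (nat_lit 360450) (nat_lit 0) .nil))))) .nil)) 
(.lf (nat_lit 158437) (.g (nat_lit 3109) (.e (nat_lit 57426) (nat_lit 15) (.e (nat_lit 360452) (nat_lit 0) (.e (nat_lit 7272) (nat_lit 385) (.e (nat_lit 122919) (nat_lit 15) (.e (nat_lit 360450) (nat_lit 0) (.e (nat_lit 7266) (nat_lit 384) .nil)))))) (.g (nat_lit 5) .nil .nil)))) (.nd (nat_lit 5) 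
(.lf (nat_lit 158421) (.g (nat_lit 2525) (.e (nat_lit 57426) (nat_lit 15) (.e (nat_lit 360452) (nat_lit 0) (.e (nat_lit 7271) (nat_lit 385) (.e (nat_lit 122919) (nat_lit 15) (.e (nat_lit 360449) (nat_lit 0) (.e (nat_lit 7263) (nat_lit 384) .nil)))))) (.g (nat_lit 5) .nil .nil))) 
(.lf (nat_lit 158453) (.g (nat_lit 3031) (.e (nat_lit 57426) (nat_lit 15) (.e (nat_lit 368384) (nat_lit 0) (.e (nat_lit 5905) (nat_lit 320) (.e (nat_lit 1221) (nat_lit 90) (.e (nat_lit 81959) (nat_lit 24) (.e (nat_lit 123194) (nat_lit 266) .nil)))))) (.g (nat_lit 5) .nil .nil))))) (.nd (nat_lit 4) (.nd (nat_lit 5) 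
(.lf (nat_lit 158413) (.g (nat_lit 674) (.e (nat_lit 57426) (nat_lit 15) (.e (nat_lit 360452) (nat_lit 0) (.e (nat_lit 7271) (nat_lit 385) (.e (nat_lit 122906) (nat_lit 12) .nil)))) .nil)) 
(.lf (nat_lit 158445) (.g (nat_lit 1813) (.e (nat_lit 57426) (nat_lit 15) (.e (nat_lit 360456) (nat_lit 0) (.e (nat_lit 5818) (nat_lit 320) (.e (nat_lit 1224) (nat_lit 90) (.e (nat_lit 81957) (nat_lit 24) (.e (nat_lit 123198) (nat_lit 266) .nil)))))) (.g (nat_lit 0) .nil .nil)))) (.nd (nat_lit 5) 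
(.lf (nat_lit 158429) (.g (nat_lit 2938) (.e (nat_lit 57426) (nat_lit 15) (.e (nat_lit 360452) (nat_lit 0) (.e (nat_lit 7272) (nat_lit 385) (.e (nat_lit 122917) (nat_lit 15) (.e (nat_lit 360451) (nat_lit 0) (.e (nat_lit 7261) (nat_lit 384) .nil)))))) (.g (nat_lit 5) .nil .nil))) 
(.lf (nat_lit 158461) (.g (nat_lit 2886) (.e (nat_lit 57426) (nat_lit 15) (.e (nat_lit 360466) (nat_lit 3) (.e (nat_lit 516183) (nat_lit 16) (.e (nat_lit 491566) (nat_lit 12) (.e (nat_lit 385045) (nat_lit 21) (.e (nat_lit 4278) (nat_lit 253) .nil)))))) (.g (nat_lit 4) .nil .nil))))))) (.nd (nat_lit 2) (.nd (nat_lit 3) (.nd (nat_lit 4) (.nd (nat_lit 5) 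
(.lf (nat_lit 158403) (.g (nat_lit 1162) (.e (nat_lit 57426) (nat_lit 15) (.e (nat_lit 360452) (nat_lit 0) (.e (nat_lit 7270) (nat_lit 385) (.e (nat_lit 122918) (nat_lit 15) .nil)))) .nil)) 
(.lf (nat_lit 158435) (.g (nat_lit 3517) (.e (nat_lit 57426) (nat_lit 15) (.e (nat_lit 360452) (nat_lit 0) (.e (nat_lit 7272) (nat_lit 385) (.e (nat_lit 122919) (nat_lit 15) (.e (nat_lit 360449) (nat_lit 0) (.e (nat_lit 7265) (nat_lit 384) .nil)))))) (.g (nat_lit 6) .nil .nil)))) (.nd (nat_lit 5) 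
(.lf (nat_lit 158419) (.g (nat_lit 2860) (.e (nat_lit 57426) (nat_lit 15) (.e (nat_lit 360452) (nat_lit 0) (.e (nat_lit 7271) (nat_lit 385) (.e (nat_lit 122918) (nat_lit 15) (.e (nat_lit 360451) (nat_lit 0) (.e (nat_lit 7266) (nat_lit 384) .nil)))))) (.g (nat_lit 0) .nil .nil))) 
(.lf (nat_lit 158451) (.g (nat_lit 837) (.e (nat_lit 57426) (nat_lit 15) (.e (nat_lit 360457) (nat_lit 0) (.e (nat_lit 5818) (nat_lit 320) (.e (nat_lit 1223) (nat_lit 90) .nil)))) .nil)))) (.nd (nat_lit 4) (.nd (nat_lit 5) 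
(.lf (nat_lit 158411) (.g (nat_lit 4255) (.e (nat_lit 57426) (nat_lit 15) (.e (nat_lit 360452) (nat_lit 0) (.e (nat_lit 7270) (nat_lit 385) (.e (nat_lit 122919) (nat_lit 15) (.e (nat_lit 360451) (nat_lit 0) (.e (nat_lit 7261) (nat_lit 384) .nil)))))) (.g (nat_lit 0) .nil .nil))) 
(.lf (nat_lit 158443) (.g (nat_lit 161) (.e (nat_lit 57426) (nat_lit 15) (.e (nat_lit 360456) (nat_lit 0) (.e (nat_lit 5818) (nat_lit 320) .nil))) .nil))) (.nd (nat_lit 5) 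
(.lf (nat_lit 158427) (.g (nat_lit 3517) (.e (nat_lit 57426) (nat_lit 15) (.e (nat_lit 360452) (nat_lit 0) (.e (nat_lit 7272) (nat_lit 385) (.e (nat_lit 122917) (nat_lit 15) (.e (nat_lit 360449) (nat_lit 0) (.e (nat_lit 7261) (nat_lit 384) .nil)))))) (.g (nat_lit 0) .nil .nil))) 
(.lf (nat_lit 158459) (.g (nat_lit 3297) (.e (nat_lit 57426) (nat_lit 15) (.e (nat_lit 360466) (nat_lit 3) (.e (nat_lit 516183) (nat_lit 16) (.e (nat_lit 491566) (nat_lit 12) (.e (nat_lit 385044) (nat_lit 21) .nil))))) .nil))))) (.nd (nat_lit 3) (.nd (nat_lit 4) (.nd (nat_lit 5) 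
(.lf (nat_lit 158407) (.g (nat_lit 3045) (.e (nat_lit 57426) (nat_lit 15) (.e (nat_lit 360452) (nat_lit 0) (.e (nat_lit 7270) (nat_lit 385) (.e (nat_lit 122919) (nat_lit 15) (.e (nat_lit 360449) (nat_lit 0) (.e (nat_lit 7261) (nat_lit 384) .nil)))))) (.g (nat_lit 5) .nil .nil))) 
(.lf (nat_lit 158439) (.g (nat_lit 400) (.e (nat_lit 57426) (nat_lit 15) (.e (nat_lit 360452) (nat_lit 0) (.e (nat_lit 7273) (nat_lit 385) .nil))) .nil))) (.nd (nat_lit 5) 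
(.lf (nat_lit 158423) (.g (nat_lit 3333) (.e (nat_lit 57426) (nat_lit 15) (.e (nat_lit 360452) (nat_lit 0) (.e (nat_lit 7271) (nat_lit 385) (.e (nat_lit 122919) (nat_lit 15) (.e (nat_lit 360449) (nat_lit 0) (.e (nat_lit 7266) (nat_lit 384) .nil)))))) (.g (nat_lit 0) .nil .nil))) 
(.lf (nat_lit 158455) (.g (nat_lit 1083) (.e (nat_lit 57426) (nat_lit 15) (.e (nat_lit 368384) (nat_lit 0) (.e (nat_lit 7237) (nat_lit 382) (.e (nat_lit 1221) (nat_lit 90) (.e (nat_lit 81959) (nat_lit 24) (.e (nat_lit 130816) (nat_lit 154) .nil)))))) (.g (nat_lit 5) .nil .nil))))) (.nd (nat_lit 4) (.nd (nat_lit 5) 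
(.lf (nat_lit 158415) (.g (nat_lit 1515) (.e (nat_lit 57426) (nat_lit 15) (.e (nat_lit 360452) (nat_lit 0) (.e (nat_lit 7271) (nat_lit 385) (.e (nat_lit 122917) (nat_lit 15) (.e (nat_lit 360450) (nat_lit 0) .nil))))) .nil)) 
(.lf (nat_lit 158447) (.g (nat_lit 3063) (.e (nat_lit 57426) (nat_lit 15) (.e (nat_lit 360456) (nat_lit 0) (.e (nat_lit 5949) (nat_lit 322) (.e (nat_lit 57424) (nat_lit 14) (.e (nat_lit 352318) (nat_lit 24) (.e (nat_lit 123198) (nat_lit 266) .nil)))))) (.g (nat_lit 6) .nil .nil)))) (.nd (nat_lit 5) 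
(.lf (nat_lit 158431) (.g (nat_lit 3773) (.e (nat_lit 57426) (nat_lit 15) (.e (nat_lit 360452) (nat_lit 0) (.e (nat_lit 7272) (nat_lit 385) (.e (nat_lit 122917) (nat_lit 15) (.e (nat_lit 360451) (nat_lit 0) (.e (nat_lit 7266) (nat_lit 384) .nil)))))) (.g (nat_lit 6) .nil .nil))) 
(.lf (nat_lit 158463) (.g (nat_lit 3453) (.e (nat_lit 57426) (nat_lit 15) (.e (nat_lit 360466) (nat_lit 3) (.e (nat_lit 516183) (nat_lit 16) (.e (nat_lit 491566) (nat_lit 12) (.e (nat_lit 385045) (nat_lit 21) (.e (nat_lit 4283) (nat_lit 253) .nil)))))) (.g (nat_lit 4) .nil .nil)))))))))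

noncomputable def tv2122 : DT := (.nd (nat_lit 0) (.nd (nat_lit 1) (.nd (nat_lit 2) (.nd (nat_lit 3) (.nd (nat_lit 4) (.nd (nat_lit 5) 
(.lf (nat_lit 158464) (.g (nat_lit 3148) (.e (nat_lit 57426) (nat_lit 15) (.e (nat_lit 360466) (nat_lit 3) (.e (nat_lit 516183) (nat_lit 16) (.e (nat_lit 491566) (nat_lit 12) (.e (nat_lit 385051) (nat_lit 21) .nil))))) .nil)) 
(.lf (nat_lit 158496) (.g (nat_lit 2511) (.e (nat_lit 57426) (nat_lit 15) (.e (nat_lit 360477) (nat_lit 11) (.e (nat_lit 581651) (nat_lit 4) (.e (nat_lit 172115) (nat_lit 10) (.e (nat_lit 434202) (nat_lit 18) (.e (nat_lit 6828) (nat_lit 367) .nil)))))) (.g (nat_lit 5) .nil .nil)))) (.nd (nat_lit 5) 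
(.lf (nat_lit 158480) (.g (nat_lit 2670) (.e (nat_lit 57426) (nat_lit 15) (.e (nat_lit 360475) (nat_lit 8) (.e (nat_lit 557091) (nat_lit 12) (.e (nat_lit 163856) (nat_lit 0) .nil)))) .nil)) 
(.lf (nat_lit 158512) (.g (nat_lit 2702) (.e (nat_lit 57426) (nat_lit 15) (.e (nat_lit 360489) (nat_lit 21) (.e (nat_lit 770072) (nat_lit 8) (.e (nat_lit 65617) (nat_lit 10) (.e (nat_lit 344096) (nat_lit 18) (.e (nat_lit 7263) (nat_lit 384) .nil)))))) (.g (nat_lit 6) .nil .nil))))) (.nd (nat_lit 4) (.nd (nat_lit 5) 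
(.lf (nat_lit 158472) (.g (nat_lit 1543) (.e (nat_lit 57426) (nat_lit 15) (.e (nat_lit 360473) (nat_lit 8) (.e (nat_lit 557087) (nat_lit 11) (.e (nat_lit 24625) (nat_lit 9) .nil)))) .nil)) 
(.lf (nat_lit 158504) (.g (nat_lit 359) (.e (nat_lit 57426) (nat_lit 15) (.e (nat_lit 360486) (nat_lit 18) (.e (nat_lit 671764) (nat_lit 6) .nil))) .nil))) (.nd (nat_lit 5) 
(.lf (nat_lit 158488) (.g (nat_lit 2994) (.e (nat_lit 57426) (nat_lit 15) (.e (nat_lit 360475) (nat_lit 8) (.e (nat_lit 557119) (nat_lit 18) (.e (nat_lit 2798) (nat_lit 180) (.e (nat_lit 303140) (nat_lit 10) (.e (nat_lit 434202) (nat_lit 18) (.e (nat_lit 6828) (nat_lit 367) .nil))))))) (.g (nat_lit 4) .nil .nil))) 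
(.lf (nat_lit 158520) (.g (nat_lit 2149) (.e (nat_lit 57426) (nat_lit 15) (.e (nat_lit 360491) (nat_lit 22) (.e (nat_lit 778465) (nat_lit 11) (.e (nat_lit 24639) (nat_lit 10) (.e (nat_lit 344096) (nat_lit 18) (.e (nat_lit 7261) (nat_lit 384) .nil)))))) (.g (nat_lit 5) .nil .nil)))))) (.nd (nat_lit 3) (.nd (nat_lit 4) (.nd (nat_lit 5) 
(.lf (nat_lit 158468) (.g (nat_lit 762) (.e (nat_lit 57426) (nat_lit 15) (.e (nat_lit 360466) (nat_lit 3) (.e (nat_lit 516196) (nat_lit 26) .nil))) .nil)) 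
(.lf (nat_lit 158500) (.g (nat_lit 911) (.e (nat_lit 57426) (nat_lit 15) (.e (nat_lit 360486) (nat_lit 18) (.e (nat_lit 671747) (nat_lit 0) (.e (nat_lit 1598) (nat_lit 111) .nil)))) .nil))) (.nd (nat_lit 5) 
(.lf (nat_lit 158484) (.g (nat_lit 3351) (.e (nat_lit 57426) (nat_lit 15) (.e (nat_lit 360475) (nat_lit 8) (.e (nat_lit 557119) (nat_lit 18) (.e (nat_lit 2797) (nat_lit 180) (.e (nat_lit 303135) (nat_lit 10) .nil))))) .nil)) 
(.lf (nat_lit 158516) (.g (nat_lit 1964) (.e (nat_lit 57426) (nat_lit 15) (.e (nat_lit 360491) (nat_lit 22) (.e (nat_lit 778464) (nat_lit 11) (.e (nat_lit 24640) (nat_lit 10) (.e (nat_lit 344095) (nat_lit 18) (.e (nat_lit 7263) (nat_lit 384) .nil)))))) (.g (nat_lit 5) .nil .nil))))) (.nd (nat_lit 4) (.nd (nat_lit 5) 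
(.lf (nat_lit 158476) (.g (nat_lit 830) (.e (nat_lit 57426) (nat_lit 15) (.e (nat_lit 360474) (nat_lit 8) (.e (nat_lit 557118) (nat_lit 18) .nil))) .nil)) 
(.lf (nat_lit 158508) (.g (nat_lit 302) (.e (nat_lit 57426) (nat_lit 15) (.e (nat_lit 360488) (nat_lit 20) (.e (nat_lit 761867) (nat_lit 5) .nil))) .nil))) (.nd (nat_lit 5) 
(.lf (nat_lit 158492) (.g (nat_lit 2462) (.e (nat_lit 57426) (nat_lit 15) (.e (nat_lit 360475) (nat_lit 8) (.e (nat_lit 557119) (nat_lit 18) (.e (nat_lit 2807) (nat_lit 180) (.e (nat_lit 303137) (nat_lit 10) .nil))))) .nil)) 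
(.lf (nat_lit 158524) (.g (nat_lit 2067) (.e (nat_lit 57426) (nat_lit 15) (.e (nat_lit 360491) (nat_lit 22) (.e (nat_lit 778465) (nat_lit 11) (.e (nat_lit 24640) (nat_lit 10) (.e (nat_lit 344095) (nat_lit 18) (.e (nat_lit 7263) (nat_lit 384) .nil)))))) (.g (nat_lit 5) .nil .nil))))))) (.nd (nat_lit 2) (.nd (nat_lit 3) (.nd (nat_lit 4) (.nd (nat_lit 5) 
(.lf (nat_lit 158466) (.g (nat_lit 587) (.e (nat_lit 57426) (nat_lit 15) (.e (nat_lit 360466) (nat_lit 3) (.e (nat_lit 516191) (nat_lit 17) .nil))) .nil)) 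
(.lf (nat_lit 158498) (.g (nat_lit 502) (.e (nat_lit 57426) (nat_lit 15) (.e (nat_lit 360486) (nat_lit 18) (.e (nat_lit 671745) (nat_lit 0) .nil))) .nil))) (.nd (nat_lit 5) 
(.lf (nat_lit 158482) (.g (nat_lit 2259) (.e (nat_lit 57426) (nat_lit 15) (.e (nat_lit 360475) (nat_lit 8) (.e (nat_lit 557119) (nat_lit 18) (.e (nat_lit 2448) (nat_lit 157) .nil)))) .nil)) 
(.lf (nat_lit 158514) (.g (nat_lit 1912) (.e (nat_lit 57426) (nat_lit 15) (.e (nat_lit 360491) (nat_lit 22) (.e (nat_lit 778464) (nat_lit 11) (.e (nat_lit 24640) (nat_lit 10) (.e (nat_lit 344090) (nat_lit 18) (.e (nat_lit 7263) (nat_lit 384) .nil)))))) (.g (nat_lit 5) .nil .nil))))) (.nd (nat_lit 4) (.nd (nat_lit 5) 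
(.lf (nat_lit 158474) (.g (nat_lit 1400) (.e (nat_lit 57426) (nat_lit 15) (.e (nat_lit 360473) (nat_lit 8) (.e (nat_lit 557119) (nat_lit 18) (.e (nat_lit 2798) (nat_lit 180) .nil)))) .nil)) 
(.lf (nat_lit 158506) (.g (nat_lit 535) (.e (nat_lit 57426) (nat_lit 15) (.e (nat_lit 360486) (nat_lit 18) (.e (nat_lit 679680) (nat_lit 6) .nil))) .nil))) (.nd (nat_lit 5) 
(.lf (nat_lit 158490) (.g (nat_lit 2998) (.e (nat_lit 57426) (nat_lit 15) (.e (nat_lit 360475) (nat_lit 8) (.e (nat_lit 557119) (nat_lit 18) (.e (nat_lit 2798) (nat_lit 180) (.e (nat_lit 303143) (nat_lit 12) (.e (nat_lit 475155) (nat_lit 21) (.e (nat_lit 4634) (nat_lit 271) .nil))))))) (.g (nat_lit 4) .nil .nil))) 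
(.lf (nat_lit 158522) (.g (nat_lit 2315) (.e (nat_lit 57426) (nat_lit 15) (.e (nat_lit 360491) (nat_lit 22) (.e (nat_lit 778465) (nat_lit 11) (.e (nat_lit 24640) (nat_lit 10) (.e (nat_lit 344094) (nat_lit 18) (.e (nat_lit 7261) (nat_lit 384) .nil)))))) (.g (nat_lit 5) .nil .nil)))))) (.nd (nat_lit 3) (.nd (nat_lit 4) (.nd (nat_lit 5) 
(.lf (nat_lit 158470) (.g (nat_lit 631) (.e (nat_lit 57426) (nat_lit 15) (.e (nat_lit 360467) (nat_lit 3) (.e (nat_lit 516195) (nat_lit 26) .nil))) .nil)) 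
(.lf (nat_lit 158502) (.g (nat_lit 418) (.e (nat_lit 57426) (nat_lit 15) (.e (nat_lit 360486) (nat_lit 18) (.e (nat_lit 671762) (nat_lit 4) .nil))) .nil))) (.nd (nat_lit 5) 
(.lf (nat_lit 158486) (.g (nat_lit 2023) (.e (nat_lit 57426) (nat_lit 15) (.e (nat_lit 360475) (nat_lit 8) (.e (nat_lit 557119) (nat_lit 18) (.e (nat_lit 2798) (nat_lit 180) .nil)))) .nil)) 
(.lf (nat_lit 158518) (.g (nat_lit 1694) (.e (nat_lit 57426) (nat_lit 15) (.e (nat_lit 360491) (nat_lit 22) (.e (nat_lit 778465) (nat_lit 11) (.e (nat_lit 24639) (nat_lit 10) (.e (nat_lit 344091) (nat_lit 18) (.e (nat_lit 7266) (nat_lit 384) .nil)))))) (.g (nat_lit 4) .nil .nil))))) (.nd (nat_lit 4) (.nd (nat_lit 5) 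
(.lf (nat_lit 158478) (.g (nat_lit 1174) (.e (nat_lit 57426) (nat_lit 15) (.e (nat_lit 360475) (nat_lit 8) (.e (nat_lit 557090) (nat_lit 12) .nil))) .nil)) 
(.lf (nat_lit 158510) (.g (nat_lit 925) (.e (nat_lit 57426) (nat_lit 15) (.e (nat_lit 360488) (nat_lit 20) (.e (nat_lit 761869) (nat_lit 5) (.e (nat_lit 1582) (nat_lit 111) (.e (nat_lit 360450) (nat_lit 0) .nil))))) .nil))) (.nd (nat_lit 5) 
(.lf (nat_lit 158494) (.g (nat_lit 1802) (.e (nat_lit 57426) (nat_lit 15) (.e (nat_lit 360477) (nat_lit 11) (.e (nat_lit 581651) (nat_lit 4) (.e (nat_lit 172106) (nat_lit 10) (.e (nat_lit 434202) (nat_lit 18) (.e (nat_lit 6828) (nat_lit 367) .nil)))))) (.g (nat_lit 4) .nil .nil))) 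
(.lf (nat_lit 158526) (.g (nat_lit 1450) (.e (nat_lit 57426) (nat_lit 15) (.e (nat_lit 360491) (nat_lit 22) (.e (nat_lit 778465) (nat_lit 11) (.e (nat_lit 24641) (nat_lit 10) (.e (nat_lit 344095) (nat_lit 18) (.e (nat_lit 7261) (nat_lit 384) .nil)))))) (.g (nat_lit 4) .nil .nil)))))))) (.nd (nat_lit 1) (.nd (nat_lit 2) (.nd (nat_lit 3) (.nd (nat_lit 4) (.nd (nat_lit 5) 
(.lf (nat_lit 158465) (.g (nat_lit 3687) (.e (nat_lit 57426) (nat_lit 15) (.e (nat_lit 360466) (nat_lit 3) (.e (nat_lit 516183) (nat_lit 16) (.e (nat_lit 491566) (nat_lit 12) (.e (nat_lit 385053) (nat_lit 21) (.e (nat_lit 4282) (nat_lit 253) .nil)))))) (.g (nat_lit 4) .nil .nil))) 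
(.lf (nat_lit 158497) (.g (nat_lit 358) (.e (nat_lit 57426) (nat_lit 15) (.e (nat_lit 360484) (nat_lit 15) (.e (nat_lit 647190) (nat_lit 9) .nil))) .nil))) (.nd (nat_lit 5) 
(.lf (nat_lit 158481) (.g (nat_lit 1377) (.e (nat_lit 57426) (nat_lit 15) (.e (nat_lit 360475) (nat_lit 8) (.e (nat_lit 557118) (nat_lit 18) .nil))) .nil)) 
(.lf (nat_lit 158513) (.g (nat_lit 1709) (.e (nat_lit 57426) (nat_lit 15) (.e (nat_lit 360489) (nat_lit 21) (.e (nat_lit 770072) (nat_lit 8) (.e (nat_lit 65619) (nat_lit 10) (.e (nat_lit 344090) (nat_lit 18) (.e (nat_lit 7263) (nat_lit 384) .nil)))))) (.g (nat_lit 4) .nil .nil))))) (.nd (nat_lit 4) (.nd (nat_lit 5) 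
(.lf (nat_lit 158473) (.g (nat_lit 540) (.e (nat_lit 57426) (nat_lit 15) (.e (nat_lit 360473) (nat_lit 8) (.e (nat_lit 557119) (nat_lit 18) .nil))) .nil)) 
(.lf (nat_lit 158505) (.g (nat_lit 2696) (.e (nat_lit 57426) (nat_lit 15) (.e (nat_lit 360486) (nat_lit 18) (.e (nat_lit 671764) (nat_lit 6) (.e (nat_lit 81957) (nat_lit 24) (.e (nat_lit 123197) (nat_lit 266) .nil))))) (.g (nat_lit 0) .nil .nil)))) (.nd (nat_lit 5) 
(.lf (nat_lit 158489) (.g (nat_lit 2714) (.e (nat_lit 57426) (nat_lit 15) (.e (nat_lit 360475) (nat_lit 8) (.e (nat_lit 557119) (nat_lit 18) (.e (nat_lit 2798) (nat_lit 180) (.e (nat_lit 303143) (nat_lit 12) .nil))))) .nil)) 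
(.lf (nat_lit 158521) (.g (nat_lit 2925) (.e (nat_lit 57426) (nat_lit 15) (.e (nat_lit 360491) (nat_lit 22) (.e (nat_lit 778465) (nat_lit 11) (.e (nat_lit 24640) (nat_lit 10) (.e (nat_lit 344090) (nat_lit 18) (.e (nat_lit 7266) (nat_lit 384) .nil)))))) (.g (nat_lit 0) .nil .nil)))))) (.nd (nat_lit 3) (.nd (nat_lit 4) (.nd (nat_lit 5) 
(.lf (nat_lit 158469) (.g (nat_lit 762) (.e (nat_lit 57426) (nat_lit 15) (.e (nat_lit 360466) (nat_lit 3) (.e (nat_lit 516197) (nat_lit 26) .nil))) .nil)) 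
(.lf (nat_lit 158501) (.g (nat_lit 1814) (.e (nat_lit 57426) (nat_lit 15) (.e (nat_lit 360486) (nat_lit 18) (.e (nat_lit 671748) (nat_lit 0) (.e (nat_lit 1589) (nat_lit 111) (.e (nat_lit 360457) (nat_lit 0) (.e (nat_lit 5949) (nat_lit 322) .nil)))))) (.g (nat_lit 4) .nil .nil)))) (.nd (nat_lit 5) 
(.lf (nat_lit 158485) (.g (nat_lit 2990) (.e (nat_lit 57426) (nat_lit 15) (.e (nat_lit 360475) (nat_lit 8) (.e (nat_lit 557119) (nat_lit 18) (.e (nat_lit 2797) (nat_lit 180) (.e (nat_lit 303140) (nat_lit 10) .nil))))) .nil)) 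
(.lf (nat_lit 158517) (.g (nat_lit 2686) (.e (nat_lit 57426) (nat_lit 15) (.e (nat_lit 360491) (nat_lit 22) (.e (nat_lit 778465) (nat_lit 11) (.e (nat_lit 24639) (nat_lit 10) (.e (nat_lit 344090) (nat_lit 18) (.e (nat_lit 7266) (nat_lit 384) .nil)))))) (.g (nat_lit 0) .nil .nil))))) (.nd (nat_lit 4) (.nd (nat_lit 5) 
(.lf (nat_lit 158477) (.g (nat_lit 1033) (.e (nat_lit 57426) (nat_lit 15) (.e (nat_lit 360475) (nat_lit 8) (.e (nat_lit 557086) (nat_lit 11) .nil))) .nil)) 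
(.lf (nat_lit 158509) (.g (nat_lit 2031) (.e (nat_lit 57426) (nat_lit 15) (.e (nat_lit 360488) (nat_lit 20) (.e (nat_lit 761868) (nat_lit 5) (.e (nat_lit 1597) (nat_lit 111) (.e (nat_lit 360449) (nat_lit 0) (.e (nat_lit 7261) (nat_lit 384) .nil)))))) (.g (nat_lit 0) .nil .nil)))) (.nd (nat_lit 5) 
(.lf (nat_lit 158493) (.g (nat_lit 2084) (.e (nat_lit 57426) (nat_lit 15) (.e (nat_lit 360475) (nat_lit 8) (.e (nat_lit 557119) (nat_lit 18) (.e (nat_lit 2808) (nat_lit 180) .nil)))) .nil)) 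
(.lf (nat_lit 158525) (.g (nat_lit 2489) (.e (nat_lit 57426) (nat_lit 15) (.e (nat_lit 360491) (nat_lit 22) (.e (nat_lit 778465) (nat_lit 11) (.e (nat_lit 24640) (nat_lit 10) (.e (nat_lit 344096) (nat_lit 18) (.e (nat_lit 7263) (nat_lit 384) .nil)))))) (.g (nat_lit 5) .nil .nil))))))) (.nd (nat_lit 2) (.nd (nat_lit 3) (.nd (nat_lit 4) (.nd (nat_lit 5) 
(.lf (nat_lit 158467) (.g (nat_lit 1104) (.e (nat_lit 57426) (nat_lit 15) (.e (nat_lit 360466) (nat_lit 3) (.e (nat_lit 516195) (nat_lit 26) (.e (nat_lit 343808) (nat_lit 20) .nil)))) .nil)) 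
(.lf (nat_lit 158499) (.g (nat_lit 502) (.e (nat_lit 57426) (nat_lit 15) (.e (nat_lit 360486) (nat_lit 18) (.e (nat_lit 671747) (nat_lit 0) .nil))) .nil))) (.nd (nat_lit 5) 
(.lf (nat_lit 158483) (.g (nat_lit 2185) (.e (nat_lit 57426) (nat_lit 15) (.e (nat_lit 360475) (nat_lit 8) (.e (nat_lit 557119) (nat_lit 18) (.e (nat_lit 2797) (nat_lit 180) .nil)))) .nil)) 
(.lf (nat_lit 158515) (.g (nat_lit 1683) (.e (nat_lit 57426) (nat_lit 15) (.e (nat_lit 360491) (nat_lit 22) (.e (nat_lit 778464) (nat_lit 11) (.e (nat_lit 24640) (nat_lit 10) (.e (nat_lit 344094) (nat_lit 18) (.e (nat_lit 7263) (nat_lit 384) .nil)))))) (.g (nat_lit 4) .nil .nil))))) (.nd (nat_lit 4) (.nd (nat_lit 5) 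
(.lf (nat_lit 158475) (.g (nat_lit 1720) (.e (nat_lit 57426) (nat_lit 15) (.e (nat_lit 360473) (nat_lit 8) (.e (nat_lit 557119) (nat_lit 18) (.e (nat_lit 2808) (nat_lit 180) .nil)))) .nil)) 
(.lf (nat_lit 158507) (.g (nat_lit 1984) (.e (nat_lit 57426) (nat_lit 15) (.e (nat_lit 360488) (nat_lit 20) (.e (nat_lit 761866) (nat_lit 5) (.e (nat_lit 1597) (nat_lit 111) (.e (nat_lit 360449) (nat_lit 0) (.e (nat_lit 7261) (nat_lit 384) .nil)))))) (.g (nat_lit 0) .nil .nil)))) (.nd (nat_lit 5) 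
(.lf (nat_lit 158491) (.g (nat_lit 1938) (.e (nat_lit 57426) (nat_lit 15) (.e (nat_lit 360475) (nat_lit 8) (.e (nat_lit 557119) (nat_lit 18) (.e (nat_lit 2807) (nat_lit 180) .nil)))) .nil)) 
(.lf (nat_lit 158523) (.g (nat_lit 2281) (.e (nat_lit 57426) (nat_lit 15) (.e (nat_lit 360491) (nat_lit 22) (.e (nat_lit 778465) (nat_lit 11) (.e (nat_lit 24640) (nat_lit 10) (.e (nat_lit 344094) (nat_lit 18) (.e (nat_lit 7263) (nat_lit 384) .nil)))))) (.g (nat_lit 5) .nil .nil)))))) (.nd (nat_lit 3) (.nd (nat_lit 4) (.nd (nat_lit 5) 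
(.lf (nat_lit 158471) (.g (nat_lit 3583) (.e (nat_lit 57426) (nat_lit 15) (.e (nat_lit 360471) (nat_lit 7) (.e (nat_lit 548889) (nat_lit 9) (.e (nat_lit 65624) (nat_lit 12) .nil)))) .nil)) 
(.lf (nat_lit 158503) (.g (nat_lit 2114) (.e (nat_lit 57426) (nat_lit 15) (.e (nat_lit 360486) (nat_lit 18) (.e (nat_lit 671762) (nat_lit 4) (.e (nat_lit 65598) (nat_lit 9) (.e (nat_lit 336032) (nat_lit 4) .nil))))) .nil))) (.nd (nat_lit 5) 
(.lf (nat_lit 158487) (.g (nat_lit 2862) (.e (nat_lit 57426) (nat_lit 15) (.e (nat_lit 360475) (nat_lit 8) (.e (nat_lit 557119) (nat_lit 18) (.e (nat_lit 2798) (nat_lit 180) (.e (nat_lit 303135) (nat_lit 10) .nil))))) .nil)) 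
(.lf (nat_lit 158519) (.g (nat_lit 1813) (.e (nat_lit 57426) (nat_lit 15) (.e (nat_lit 360491) (nat_lit 22) (.e (nat_lit 778465) (nat_lit 11) (.e (nat_lit 24639) (nat_lit 10) (.e (nat_lit 344095) (nat_lit 18) (.e (nat_lit 7263) (nat_lit 384) .nil)))))) (.g (nat_lit 5) .nil .nil))))) (.nd (nat_lit 4) (.nd (nat_lit 5) 
(.lf (nat_lit 158479) (.g (nat_lit 933) (.e (nat_lit 57426) (nat_lit 15) (.e (nat_lit 360475) (nat_lit 8) (.e (nat_lit 557091) (nat_lit 12) .nil))) .nil)) 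
(.lf (nat_lit 158511) (.g (nat_lit 2754) (.e (nat_lit 57426) (nat_lit 15) (.e (nat_lit 360489) (nat_lit 21) (.e (nat_lit 770071) (nat_lit 8) (.e (nat_lit 65617) (nat_lit 10) (.e (nat_lit 344096) (nat_lit 18) (.e (nat_lit 7263) (nat_lit 384) .nil)))))) (.g (nat_lit 6) .nil .nil)))) (.nd (nat_lit 5) 
(.lf (nat_lit 158495) (.g (nat_lit 1670) (.e (nat_lit 57426) (nat_lit 15) (.e (nat_lit 360477) (nat_lit 11) (.e (nat_lit 581651) (nat_lit 4) (.e (nat_lit 172113) (nat_lit 10) (.e (nat_lit 434203) (nat_lit 18) (.e (nat_lit 6828) (nat_lit 367) .nil)))))) (.g (nat_lit 4) .nil .nil))) 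
(.lf (nat_lit 158527) (.g (nat_lit 2403) (.e (nat_lit 57426) (nat_lit 15) (.e (nat_lit 360491) (nat_lit 22) (.e (nat_lit 778465) (nat_lit 11) (.e (nat_lit 24665) (nat_lit 14) (.e (nat_lit 401421) (nat_lit 1) (.e (nat_lit 164183) (nat_lit 154) .nil)))))) (.g (nat_lit 4) .nil .nil)))))))))

noncomputable def tv2123 : DT := (.nd (nat_lit 0) (.nd (nat_lit 1) (.nd (nat_lit 2) (.nd (nat_lit 3) (.nd (nat_lit 4) (.nd (nat_lit 5) 
(.lf (nat_lit 158528) (.g (nat_lit 2756) (.e (nat_lit 57426) (nat_lit 15) (.e (nat_lit 360491) (nat_lit 22) (.e (nat_lit 778466) (nat_lit 11) (.e (nat_lit 24617) (nat_lit 7) (.e (nat_lit 319505) (nat_lit 10) (.e (nat_lit 11) (nat_lit 0) (.e (nat_lit 6402) (nat_lit 339) .nil))))))) (.g (nat_lit 5) .nil .nil))) 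
(.lf (nat_lit 158560) (.g (nat_lit 2605) (.e (nat_lit 57427) (nat_lit 15) (.e (nat_lit 360449) (nat_lit 0) (.e (nat_lit 7125) (nat_lit 382) (.e (nat_lit 1201) (nat_lit 88) (.e (nat_lit 65617) (nat_lit 10) (.e (nat_lit 344095) (nat_lit 18) (.e (nat_lit 7263) (nat_lit 384) .nil))))))) (.g (nat_lit 5) .nil .nil)))) (.nd (nat_lit 5) 
(.lf (nat_lit 158544) (.g (nat_lit 1377) (.e (nat_lit 57426) (nat_lit 15) (.e (nat_lit 360492) (nat_lit 22) (.e (nat_lit 778466) (nat_lit 11) (.e (nat_lit 24639) (nat_lit 10) (.e (nat_lit 344090) (nat_lit 18) .nil))))) .nil)) 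
(.lf (nat_lit 158576) (.g (nat_lit 2816) (.e (nat_lit 57427) (nat_lit 15) (.e (nat_lit 360449) (nat_lit 0) (.e (nat_lit 7265) (nat_lit 384) (.e (nat_lit 57427) (nat_lit 15) (.e (nat_lit 360450) (nat_lit 0) (.e (nat_lit 7263) (nat_lit 384) .nil)))))) (.g (nat_lit 5) .nil .nil))))) (.nd (nat_lit 4) (.nd (nat_lit 5) 
(.lf (nat_lit 158536) (.g (nat_lit 2613) (.e (nat_lit 57426) (nat_lit 15) (.e (nat_lit 360491) (nat_lit 22) (.e (nat_lit 778466) (nat_lit 11) (.e (nat_lit 24640) (nat_lit 10) (.e (nat_lit 344094) (nat_lit 18) (.e (nat_lit 7263) (nat_lit 384) .nil)))))) (.g (nat_lit 6) .nil .nil))) 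
(.lf (nat_lit 158568) (.g (nat_lit 2419) (.e (nat_lit 57427) (nat_lit 15) (.e (nat_lit 360449) (nat_lit 0) (.e (nat_lit 7265) (nat_lit 384) (.e (nat_lit 57412) (nat_lit 12) (.e (nat_lit 336176) (nat_lit 10) (.e (nat_lit 344091) (nat_lit 18) (.e (nat_lit 7261) (nat_lit 384) .nil))))))) (.g (nat_lit 5) .nil .nil)))) (.nd (nat_lit 5) 
(.lf (nat_lit 158552) (.g (nat_lit 2139) (.e (nat_lit 57426) (nat_lit 15) (.e (nat_lit 360492) (nat_lit 22) (.e (nat_lit 778466) (nat_lit 11) (.e (nat_lit 24640) (nat_lit 10) (.e (nat_lit 344094) (nat_lit 18) (.e (nat_lit 7265) (nat_lit 384) .nil)))))) (.g (nat_lit 4) .nil .nil))) 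
(.lf (nat_lit 158584) (.g (nat_lit 2541) (.e (nat_lit 57427) (nat_lit 15) (.e (nat_lit 360449) (nat_lit 0) (.e (nat_lit 7266) (nat_lit 384) (.e (nat_lit 57427) (nat_lit 15) (.e (nat_lit 360451) (nat_lit 0) (.e (nat_lit 7261) (nat_lit 384) .nil)))))) (.g (nat_lit 5) .nil .nil)))))) (.nd (nat_lit 3) (.nd (nat_lit 4) (.nd (nat_lit 5) 
(.lf (nat_lit 158532) (.g (nat_lit 1824) (.e (nat_lit 57426) (nat_lit 15) (.e (nat_lit 360491) (nat_lit 22) (.e (nat_lit 778466) (nat_lit 11) (.e (nat_lit 24639) (nat_lit 10) (.e (nat_lit 344095) (nat_lit 18) (.e (nat_lit 7263) (nat_lit 384) .nil)))))) (.g (nat_lit 5) .nil .nil))) 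
(.lf (nat_lit 158564) (.g (nat_lit 1530) (.e (nat_lit 57427) (nat_lit 15) (.e (nat_lit 360449) (nat_lit 0) (.e (nat_lit 7263) (nat_lit 384) (.e (nat_lit 57412) (nat_lit 12) (.e (nat_lit 336176) (nat_lit 10) (.e (nat_lit 344095) (nat_lit 18) (.e (nat_lit 7263) (nat_lit 384) .nil))))))) (.g (nat_lit 4) .nil .nil)))) (.nd (nat_lit 5) 
(.lf (nat_lit 158548) (.g (nat_lit 1898) (.e (nat_lit 57426) (nat_lit 15) (.e (nat_lit 360492) (nat_lit 22) (.e (nat_lit 778466) (nat_lit 11) (.e (nat_lit 24640) (nat_lit 10) (.e (nat_lit 344090) (nat_lit 18) (.e (nat_lit 7265) (nat_lit 384) .nil)))))) (.g (nat_lit 4) .nil .nil))) 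
(.lf (nat_lit 158580) (.g (nat_lit 1960) (.e (nat_lit 57427) (nat_lit 15) (.e (nat_lit 360449) (nat_lit 0) (.e (nat_lit 7266) (nat_lit 384) (.e (nat_lit 57427) (nat_lit 15) (.e (nat_lit 360449) (nat_lit 0) .nil))))) .nil)))) (.nd (nat_lit 4) (.nd (nat_lit 5) 
(.lf (nat_lit 158540) (.g (nat_lit 1523) (.e (nat_lit 57426) (nat_lit 15) (.e (nat_lit 360492) (nat_lit 22) (.e (nat_lit 778465) (nat_lit 11) (.e (nat_lit 24639) (nat_lit 10) (.e (nat_lit 344090) (nat_lit 18) .nil))))) .nil)) 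
(.lf (nat_lit 158572) (.g (nat_lit 2020) (.e (nat_lit 57427) (nat_lit 15) (.e (nat_lit 360449) (nat_lit 0) (.e (nat_lit 7265) (nat_lit 384) (.e (nat_lit 57426) (nat_lit 15) (.e (nat_lit 360449) (nat_lit 0) (.e (nat_lit 7263) (nat_lit 384) .nil)))))) (.g (nat_lit 4) .nil .nil)))) (.nd (nat_lit 5) 
(.lf (nat_lit 158556) (.g (nat_lit 1733) (.e (nat_lit 57427) (nat_lit 15) (.e (nat_lit 360448) (nat_lit 0) (.e (nat_lit 7270) (nat_lit 385) (.e (nat_lit 122919) (nat_lit 15) (.e (nat_lit 360450) (nat_lit 0) .nil))))) .nil)) 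
(.lf (nat_lit 158588) (.g (nat_lit 1411) (.e (nat_lit 57427) (nat_lit 15) (.e (nat_lit 360450) (nat_lit 0) (.e (nat_lit 7936) (nat_lit 323) (.e (nat_lit 122917) (nat_lit 15) (.e (nat_lit 360457) (nat_lit 0) (.e (nat_lit 5949) (nat_lit 322) .nil)))))) (.g (nat_lit 4) .nil .nil))))))) (.nd (nat_lit 2) (.nd (nat_lit 3) (.nd (nat_lit 4) (.nd (nat_lit 5) 
(.lf (nat_lit 158530) (.g (nat_lit 1325) (.e (nat_lit 57426) (nat_lit 15) (.e (nat_lit 360491) (nat_lit 22) (.e (nat_lit 778466) (nat_lit 11) (.e (nat_lit 24639) (nat_lit 10) (.e (nat_lit 344091) (nat_lit 18) .nil))))) .nil)) 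
(.lf (nat_lit 158562) (.g (nat_lit 440) (.e (nat_lit 57427) (nat_lit 15) (.e (nat_lit 360449) (nat_lit 0) (.e (nat_lit 7261) (nat_lit 384) .nil))) .nil))) (.nd (nat_lit 5) 
(.lf (nat_lit 158546) (.g (nat_lit 1316) (.e (nat_lit 57426) (nat_lit 15) (.e (nat_lit 360492) (nat_lit 22) (.e (nat_lit 778466) (nat_lit 11) (.e (nat_lit 24640) (nat_lit 10) (.e (nat_lit 344088) (nat_lit 18) .nil))))) .nil)) 
(.lf (nat_lit 158578) (.g (nat_lit 1990) (.e (nat_lit 57427) (nat_lit 15) (.e (nat_lit 360449) (nat_lit 0) (.e (nat_lit 7266) (nat_lit 384) (.e (nat_lit 57426) (nat_lit 15) (.e (nat_lit 360449) (nat_lit 0) (.e (nat_lit 7261) (nat_lit 384) .nil)))))) (.g (nat_lit 4) .nil .nil))))) (.nd (nat_lit 4) (.nd (nat_lit 5) 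
(.lf (nat_lit 158538) (.g (nat_lit 2687) (.e (nat_lit 57426) (nat_lit 15) (.e (nat_lit 360491) (nat_lit 22) (.e (nat_lit 778466) (nat_lit 11) (.e (nat_lit 24640) (nat_lit 10) (.e (nat_lit 344096) (nat_lit 18) (.e (nat_lit 7263) (nat_lit 384) .nil)))))) (.g (nat_lit 5) .nil .nil))) 
(.lf (nat_lit 158570) (.g (nat_lit 2494) (.e (nat_lit 57427) (nat_lit 15) (.e (nat_lit 360449) (nat_lit 0) (.e (nat_lit 7265) (nat_lit 384) (.e (nat_lit 57412) (nat_lit 12) (.e (nat_lit 336176) (nat_lit 10) (.e (nat_lit 344096) (nat_lit 18) (.e (nat_lit 7261) (nat_lit 384) .nil))))))) (.g (nat_lit 5) .nil .nil)))) (.nd (nat_lit 5) 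
(.lf (nat_lit 158554) (.g (nat_lit 1356) (.e (nat_lit 57426) (nat_lit 15) (.e (nat_lit 360492) (nat_lit 22) (.e (nat_lit 778466) (nat_lit 11) (.e (nat_lit 24641) (nat_lit 10) (.e (nat_lit 344096) (nat_lit 18) .nil))))) .nil)) 
(.lf (nat_lit 158586) (.g (nat_lit 3430) (.e (nat_lit 57427) (nat_lit 15) (.e (nat_lit 360450) (nat_lit 0) (.e (nat_lit 5896) (nat_lit 320) (.e (nat_lit 1220) (nat_lit 90) (.e (nat_lit 81959) (nat_lit 24) (.e (nat_lit 123195) (nat_lit 266) .nil)))))) (.g (nat_lit 5) .nil .nil)))))) (.nd (nat_lit 3) (.nd (nat_lit 4) (.nd (nat_lit 5) 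
(.lf (nat_lit 158534) (.g (nat_lit 3021) (.e (nat_lit 57426) (nat_lit 15) (.e (nat_lit 360491) (nat_lit 22) (.e (nat_lit 778466) (nat_lit 11) (.e (nat_lit 24640) (nat_lit 10) (.e (nat_lit 344090) (nat_lit 18) (.e (nat_lit 7266) (nat_lit 384) .nil)))))) (.g (nat_lit 0) .nil .nil))) 
(.lf (nat_lit 158566) (.g (nat_lit 1167) (.e (nat_lit 57427) (nat_lit 15) (.e (nat_lit 360449) (nat_lit 0) (.e (nat_lit 7263) (nat_lit 384) (.e (nat_lit 57426) (nat_lit 15) (.e (nat_lit 360449) (nat_lit 0) .nil))))) .nil))) (.nd (nat_lit 5) 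
(.lf (nat_lit 158550) (.g (nat_lit 2179) (.e (nat_lit 57426) (nat_lit 15) (.e (nat_lit 360492) (nat_lit 22) (.e (nat_lit 778466) (nat_lit 11) (.e (nat_lit 24640) (nat_lit 10) (.e (nat_lit 344091) (nat_lit 18) (.e (nat_lit 7265) (nat_lit 384) .nil)))))) (.g (nat_lit 4) .nil .nil))) 
(.lf (nat_lit 158582) (.g (nat_lit 2876) (.e (nat_lit 57427) (nat_lit 15) (.e (nat_lit 360449) (nat_lit 0) (.e (nat_lit 7266) (nat_lit 384) (.e (nat_lit 57427) (nat_lit 15) (.e (nat_lit 360450) (nat_lit 0) (.e (nat_lit 7261) (nat_lit 384) .nil)))))) (.g (nat_lit 5) .nil .nil))))) (.nd (nat_lit 4) (.nd (nat_lit 5) 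
(.lf (nat_lit 158542) (.g (nat_lit 1601) (.e (nat_lit 57426) (nat_lit 15) (.e (nat_lit 360492) (nat_lit 22) (.e (nat_lit 778465) (nat_lit 11) (.e (nat_lit 24640) (nat_lit 10) (.e (nat_lit 344090) (nat_lit 18) .nil))))) .nil)) 
(.lf (nat_lit 158574) (.g (nat_lit 2394) (.e (nat_lit 57427) (nat_lit 15) (.e (nat_lit 360449) (nat_lit 0) (.e (nat_lit 7265) (nat_lit 384) (.e (nat_lit 57427) (nat_lit 15) (.e (nat_lit 360449) (nat_lit 0) (.e (nat_lit 7265) (nat_lit 384) .nil)))))) (.g (nat_lit 4) .nil .nil)))) (.nd (nat_lit 5) 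
(.lf (nat_lit 158558) (.g (nat_lit 2424) (.e (nat_lit 57427) (nat_lit 15) (.e (nat_lit 360449) (nat_lit 0) (.e (nat_lit 7122) (nat_lit 382) (.e (nat_lit 1201) (nat_lit 88) (.e (nat_lit 65617) (nat_lit 10) (.e (nat_lit 344095) (nat_lit 18) (.e (nat_lit 7261) (nat_lit 384) .nil))))))) (.g (nat_lit 5) .nil .nil))) 
(.lf (nat_lit 158590) (.g (nat_lit 3298) (.e (nat_lit 57427) (nat_lit 15) (.e (nat_lit 360450) (nat_lit 0) (.e (nat_lit 6938) (nat_lit 375) (.e (nat_lit 163902) (nat_lit 12) (.e (nat_lit 426448) (nat_lit 20) (.e (nat_lit 114710) (nat_lit 21) (.e (nat_lit 57851) (nat_lit 252) .nil))))))) (.g (nat_lit 4) .nil .nil)))))))) 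
(.nd (nat_lit 1) (.nd (nat_lit 2) (.nd (nat_lit 3) (.nd (nat_lit 4) (.nd (nat_lit 5) 
(.lf (nat_lit 158529) (.g (nat_lit 2553) (.e (nat_lit 57426) (nat_lit 15) (.e (nat_lit 360491) (nat_lit 22) (.e (nat_lit 778466) (nat_lit 11) (.e (nat_lit 24639) (nat_lit 10) (.e (nat_lit 344090) (nat_lit 18) (.e (nat_lit 7266) (nat_lit 384) .nil)))))) (.g (nat_lit 0) .nil .nil))) 
(.lf (nat_lit 158561) (.g (nat_lit 3148) (.e (nat_lit 57427) (nat_lit 15) (.e (nat_lit 360449) (nat_lit 0) (.e (nat_lit 7125) (nat_lit 382) (.e (nat_lit 1201) (nat_lit 88) (.e (nat_lit 65617) (nat_lit 10) (.e (nat_lit 344096) (nat_lit 18) (.e (nat_lit 7261) (nat_lit 384) .nil))))))) (.g (nat_lit 6) .nil .nil)))) (.nd (nat_lit 5) 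
(.lf (nat_lit 158545) (.g (nat_lit 1523) (.e (nat_lit 57426) (nat_lit 15) (.e (nat_lit 360492) (nat_lit 22) (.e (nat_lit 778466) (nat_lit 11) (.e (nat_lit 24639) (nat_lit 10) (.e (nat_lit 344096) (nat_lit 18) .nil))))) .nil)) 
(.lf (nat_lit 158577) (.g (nat_lit 2557) (.e (nat_lit 57427) (nat_lit 15) (.e (nat_lit 360449) (nat_lit 0) (.e (nat_lit 7265) (nat_lit 384) (.e (nat_lit 57427) (nat_lit 15) (.e (nat_lit 360451) (nat_lit 0) (.e (nat_lit 7261) (nat_lit 384) .nil)))))) (.g (nat_lit 5) .nil .nil))))) (.nd (nat_lit 4) (.nd (nat_lit 5) 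
(.lf (nat_lit 158537) (.g (nat_lit 2854) (.e (nat_lit 57426) (nat_lit 15) (.e (nat_lit 360491) (nat_lit 22) (.e (nat_lit 778466) (nat_lit 11) (.e (nat_lit 24640) (nat_lit 10) (.e (nat_lit 344096) (nat_lit 18) (.e (nat_lit 7261) (nat_lit 384) .nil)))))) (.g (nat_lit 6) .nil .nil))) 
(.lf (nat_lit 158569) (.g (nat_lit 2011) (.e (nat_lit 57427) (nat_lit 15) (.e (nat_lit 360449) (nat_lit 0) (.e (nat_lit 7265) (nat_lit 384) (.e (nat_lit 57412) (nat_lit 12) (.e (nat_lit 336176) (nat_lit 10) (.e (nat_lit 344095) (nat_lit 18) (.e (nat_lit 7263) (nat_lit 384) .nil))))))) (.g (nat_lit 4) .nil .nil)))) (.nd (nat_lit 5) 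
(.lf (nat_lit 158553) (.g (nat_lit 1812) (.e (nat_lit 57426) (nat_lit 15) (.e (nat_lit 360492) (nat_lit 22) (.e (nat_lit 778466) (nat_lit 11) (.e (nat_lit 24640) (nat_lit 10) (.e (nat_lit 344095) (nat_lit 18) .nil))))) .nil)) 
(.lf (nat_lit 158585) (.g (nat_lit 484) (.e (nat_lit 57427) (nat_lit 15) (.e (nat_lit 360450) (nat_lit 0) (.e (nat_lit 4825) (nat_lit 281) .nil))) .nil))))) (.nd (nat_lit 3) (.nd (nat_lit 4) (.nd (nat_lit 5) 
(.lf (nat_lit 158533) (.g (nat_lit 2020) (.e (nat_lit 57426) (nat_lit 15) (.e (nat_lit 360491) (nat_lit 22) (.e (nat_lit 778466) (nat_lit 11) (.e (nat_lit 24639) (nat_lit 10) (.e (nat_lit 344096) (nat_lit 18) (.e (nat_lit 7261) (nat_lit 384) .nil)))))) (.g (nat_lit 5) .nil .nil))) 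
(.lf (nat_lit 158565) (.g (nat_lit 2020) (.e (nat_lit 57427) (nat_lit 15) (.e (nat_lit 360449) (nat_lit 0) (.e (nat_lit 7263) (nat_lit 384) (.e (nat_lit 57412) (nat_lit 12) (.e (nat_lit 336176) (nat_lit 10) (.e (nat_lit 344096) (nat_lit 18) (.e (nat_lit 7261) (nat_lit 384) .nil))))))) (.g (nat_lit 5) .nil .nil)))) (.nd (nat_lit 5) 
(.lf (nat_lit 158549) (.g (nat_lit 1950) (.e (nat_lit 57426) (nat_lit 15) (.e (nat_lit 360492) (nat_lit 22) (.e (nat_lit 778466) (nat_lit 11) (.e (nat_lit 24640) (nat_lit 10) (.e (nat_lit 344091) (nat_lit 18) .nil))))) .nil)) 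
(.lf (nat_lit 158581) (.g (nat_lit 2572) (.e (nat_lit 57427) (nat_lit 15) (.e (nat_lit 360449) (nat_lit 0) (.e (nat_lit 7266) (nat_lit 384) (.e (nat_lit 57427) (nat_lit 15) (.e (nat_lit 360449) (nat_lit 0) (.e (nat_lit 7266) (nat_lit 384) .nil)))))) (.g (nat_lit 4) .nil .nil))))) (.nd (nat_lit 4) (.nd (nat_lit 5) 
(.lf (nat_lit 158541) (.g (nat_lit 1793) (.e (nat_lit 57426) (nat_lit 15) (.e (nat_lit 360492) (nat_lit 22) (.e (nat_lit 778465) (nat_lit 11) (.e (nat_lit 24639) (nat_lit 10) (.e (nat_lit 344096) (nat_lit 18) .nil))))) .nil)) 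
(.lf (nat_lit 158573) (.g (nat_lit 2160) (.e (nat_lit 57427) (nat_lit 15) (.e (nat_lit 360449) (nat_lit 0) (.e (nat_lit 7265) (nat_lit 384) (.e (nat_lit 57427) (nat_lit 15) (.e (nat_lit 360449) (nat_lit 0) .nil))))) .nil))) (.nd (nat_lit 5) 
(.lf (nat_lit 158557) (.g (nat_lit 2434) (.e (nat_lit 57427) (nat_lit 15) (.e (nat_lit 360448) (nat_lit 0) (.e (nat_lit 7270) (nat_lit 385) (.e (nat_lit 122919) (nat_lit 15) (.e (nat_lit 360451) (nat_lit 0) (.e (nat_lit 7261) (nat_lit 384) .nil)))))) (.g (nat_lit 5) .nil .nil))) 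
(.lf (nat_lit 158589) (.g (nat_lit 478) (.e (nat_lit 57427) (nat_lit 15) (.e (nat_lit 360450) (nat_lit 0) (.e (nat_lit 6923) (nat_lit 371) .nil))) .nil)))))) (.nd (nat_lit 2) (.nd (nat_lit 3) (.nd (nat_lit 4) (.nd (nat_lit 5) 
(.lf (nat_lit 158531) (.g (nat_lit 1671) (.e (nat_lit 57426) (nat_lit 15) (.e (nat_lit 360491) (nat_lit 22) (.e (nat_lit 778466) (nat_lit 11) (.e (nat_lit 24639) (nat_lit 10) (.e (nat_lit 344091) (nat_lit 18) (.e (nat_lit 7265) (nat_lit 384) .nil)))))) (.g (nat_lit 4) .nil .nil))) 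
(.lf (nat_lit 158563) (.g (nat_lit 463) (.e (nat_lit 57427) (nat_lit 15) (.e (nat_lit 360449) (nat_lit 0) (.e (nat_lit 7263) (nat_lit 384) .nil))) .nil))) (.nd (nat_lit 5) 
(.lf (nat_lit 158547) (.g (nat_lit 1578) (.e (nat_lit 57426) (nat_lit 15) (.e (nat_lit 360492) (nat_lit 22) (.e (nat_lit 778466) (nat_lit 11) (.e (nat_lit 24640) (nat_lit 10) (.e (nat_lit 344090) (nat_lit 18) .nil))))) .nil)) 
(.lf (nat_lit 158579) (.g (nat_lit 1930) (.e (nat_lit 57427) (nat_lit 15) (.e (nat_lit 360449) (nat_lit 0) (.e (nat_lit 7266) (nat_lit 384) (.e (nat_lit 57426) (nat_lit 15) (.e (nat_lit 360449) (nat_lit 0) (.e (nat_lit 7263) (nat_lit 384) .nil)))))) (.g (nat_lit 4) .nil .nil))))) (.nd (nat_lit 4) (.nd (nat_lit 5) 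
(.lf (nat_lit 158539) (.g (nat_lit 2181) (.e (nat_lit 57426) (nat_lit 15) (.e (nat_lit 360491) (nat_lit 22) (.e (nat_lit 778466) (nat_lit 11) (.e (nat_lit 24641) (nat_lit 10) (.e (nat_lit 344091) (nat_lit 18) (.e (nat_lit 7263) (nat_lit 384) .nil)))))) (.g (nat_lit 5) .nil .nil))) 
(.lf (nat_lit 158571) (.g (nat_lit 1222) (.e (nat_lit 57427) (nat_lit 15) (.e (nat_lit 360449) (nat_lit 0) (.e (nat_lit 7265) (nat_lit 384) (.e (nat_lit 57426) (nat_lit 15) .nil)))) .nil))) (.nd (nat_lit 5) 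
(.lf (nat_lit 158555) (.g (nat_lit 1688) (.e (nat_lit 57427) (nat_lit 15) (.e (nat_lit 360448) (nat_lit 0) (.e (nat_lit 5905) (nat_lit 320) (.e (nat_lit 1220) (nat_lit 90) (.e (nat_lit 81959) (nat_lit 24) .nil))))) .nil)) 
(.lf (nat_lit 158587) (.g (nat_lit 1510) (.e (nat_lit 57427) (nat_lit 15) (.e (nat_lit 360450) (nat_lit 0) (.e (nat_lit 7936) (nat_lit 323) (.e (nat_lit 122917) (nat_lit 15) (.e (nat_lit 360456) (nat_lit 0) (.e (nat_lit 5949) (nat_lit 322) .nil)))))) (.g (nat_lit 4) .nil .nil)))))) (.nd (nat_lit 3) (.nd (nat_lit 4) (.nd (nat_lit 5) 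
(.lf (nat_lit 158535) (.g (nat_lit 2440) (.e (nat_lit 57426) (nat_lit 15) (.e (nat_lit 360491) (nat_lit 22) (.e (nat_lit 778466) (nat_lit 11) (.e (nat_lit 24640) (nat_lit 10) (.e (nat_lit 344091) (nat_lit 18) (.e (nat_lit 7263) (nat_lit 384) .nil)))))) (.g (nat_lit 5) .nil .nil))) 
(.lf (nat_lit 158567) (.g (nat_lit 1696) (.e (nat_lit 57427) (nat_lit 15) (.e (nat_lit 360449) (nat_lit 0) (.e (nat_lit 7263) (nat_lit 384) (.e (nat_lit 57427) (nat_lit 15) (.e (nat_lit 360451) (nat_lit 0) (.e (nat_lit 7261) (nat_lit 384) .nil)))))) (.g (nat_lit 4) .nil .nil)))) (.nd (nat_lit 5) 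
(.lf (nat_lit 158551) (.g (nat_lit 2039) (.e (nat_lit 57426) (nat_lit 15) (.e (nat_lit 360492) (nat_lit 22) (.e (nat_lit 778466) (nat_lit 11) (.e (nat_lit 24640) (nat_lit 10) (.e (nat_lit 344094) (nat_lit 18) .nil))))) .nil)) 
(.lf (nat_lit 158583) (.g (nat_lit 2875) (.e (nat_lit 57427) (nat_lit 15) (.e (nat_lit 360449) (nat_lit 0) (.e (nat_lit 7266) (nat_lit 384) (.e (nat_lit 57427) (nat_lit 15) (.e (nat_lit 360450) (nat_lit 0) (.e (nat_lit 7263) (nat_lit 384) .nil)))))) (.g (nat_lit 5) .nil .nil))))) (.nd (nat_lit 4) (.nd (nat_lit 5) 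
(.lf (nat_lit 158543) (.g (nat_lit 808) (.e (nat_lit 57426) (nat_lit 15) (.e (nat_lit 360492) (nat_lit 22) (.e (nat_lit 778466) (nat_lit 11) (.e (nat_lit 24639) (nat_lit 10) .nil)))) .nil)) 
(.lf (nat_lit 158575) (.g (nat_lit 2814) (.e (nat_lit 57427) (nat_lit 15) (.e (nat_lit 360449) (nat_lit 0) (.e (nat_lit 7265) (nat_lit 384) (.e (nat_lit 57427) (nat_lit 15) (.e (nat_lit 360450) (nat_lit 0) (.e (nat_lit 7261) (nat_lit 384) .nil)))))) (.g (nat_lit 5) .nil .nil)))) (.nd (nat_lit 5) 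
(.lf (nat_lit 158559) (.g (nat_lit 2828) (.e (nat_lit 57427) (nat_lit 15) (.e (nat_lit 360449) (nat_lit 0) (.e (nat_lit 7125) (nat_lit 382) (.e (nat_lit 1201) (nat_lit 88) (.e (nat_lit 65617) (nat_lit 10) (.e (nat_lit 344095) (nat_lit 18) (.e (nat_lit 7261) (nat_lit 384) .nil))))))) (.g (nat_lit 5) .nil .nil))) 
(.lf (nat_lit 158591) (.g (nat_lit 1394) (.e (nat_lit 57427) (nat_lit 15) (.e (nat_lit 360450) (nat_lit 0) (.e (nat_lit 7122) (nat_lit 382) (.e (nat_lit 1016) (nat_lit 81) .nil)))) .nil))))))))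

noncomputable def tv2124 : DT := (.nd (nat_lit 0) (.nd (nat_lit 1) (.nd (nat_lit 2) (.nd (nat_lit 3) (.nd (nat_lit 4) (.nd (nat_lit 5) 
(.lf (nat_lit 158592) (.g (nat_lit 1241) (.e (nat_lit 57427) (nat_lit 15) (.e (nat_lit 360450) (nat_lit 0) (.e (nat_lit 7122) (nat_lit 382) (.e (nat_lit 7936) (nat_lit 90) .nil)))) .nil)) 
(.lf (nat_lit 158624) (.g (nat_lit 843) (.e (nat_lit 57427) (nat_lit 15) (.e (nat_lit 360451) (nat_lit 0) (.e (nat_lit 6923) (nat_lit 371) (.e (nat_lit 2628) (nat_lit 164) .nil)))) .nil))) (.nd (nat_lit 5) 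
(.lf (nat_lit 158608) (.g (nat_lit 1499) (.e (nat_lit 57427) (nat_lit 15) (.e (nat_lit 360450) (nat_lit 0) (.e (nat_lit 7265) (nat_lit 384) (.e (nat_lit 57426) (nat_lit 15) (.e (nat_lit 360450) (nat_lit 0) .nil))))) .nil)) 
(.lf (nat_lit 158640) (.g (nat_lit 1757) (.e (nat_lit 57427) (nat_lit 15) (.e (nat_lit 360451) (nat_lit 0) (.e (nat_lit 7265) (nat_lit 384) (.e (nat_lit 57426) (nat_lit 15) (.e (nat_lit 360450) (nat_lit 0) (.e (nat_lit 7261) (nat_lit 384) .nil)))))) (.g (nat_lit 4) .nil .nil))))) (.nd (nat_lit 4) (.nd (nat_lit 5) 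
(.lf (nat_lit 158600) (.g (nat_lit 4315) (.e (nat_lit 57427) (nat_lit 15) (.e (nat_lit 360450) (nat_lit 0) (.e (nat_lit 7125) (nat_lit 382) (.e (nat_lit 1201) (nat_lit 88) (.e (nat_lit 65617) (nat_lit 10) (.e (nat_lit 344096) (nat_lit 18) (.e (nat_lit 7263) (nat_lit 384) .nil))))))) (.g (nat_lit 6) .nil .nil))) 
(.lf (nat_lit 158632) (.g (nat_lit 1884) (.e (nat_lit 57427) (nat_lit 15) (.e (nat_lit 360451) (nat_lit 0) (.e (nat_lit 7125) (nat_lit 382) (.e (nat_lit 1224) (nat_lit 90) (.e (nat_lit 81946) (nat_lit 20) (.e (nat_lit 1014) (nat_lit 81) (.e (nat_lit 7261) (nat_lit 384) .nil))))))) (.g (nat_lit 4) .nil .nil)))) (.nd (nat_lit 5) 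
(.lf (nat_lit 158616) (.g (nat_lit 3704) (.e (nat_lit 57427) (nat_lit 15) (.e (nat_lit 360450) (nat_lit 0) (.e (nat_lit 7266) (nat_lit 384) (.e (nat_lit 57427) (nat_lit 15) (.e (nat_lit 360450) (nat_lit 0) (.e (nat_lit 7261) (nat_lit 384) .nil)))))) (.g (nat_lit 5) .nil .nil))) 
(.lf (nat_lit 158648) (.g (nat_lit 2391) (.e (nat_lit 57427) (nat_lit 15) (.e (nat_lit 360451) (nat_lit 0) (.e (nat_lit 7266) (nat_lit 384) (.e (nat_lit 57427) (nat_lit 15) (.e (nat_lit 360449) (nat_lit 0) (.e (nat_lit 7261) (nat_lit 384) .nil)))))) (.g (nat_lit 4) .nil .nil)))))) (.nd (nat_lit 3) (.nd (nat_lit 4) (.nd (nat_lit 5) 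
(.lf (nat_lit 158596) (.g (nat_lit 4286) (.e (nat_lit 57427) (nat_lit 15) (.e (nat_lit 360450) (nat_lit 0) (.e (nat_lit 7125) (nat_lit 382) (.e (nat_lit 1201) (nat_lit 88) (.e (nat_lit 65610) (nat_lit 10) (.e (nat_lit 344090) (nat_lit 18) (.e (nat_lit 7266) (nat_lit 384) .nil))))))) (.g (nat_lit 0) .nil .nil))) 
(.lf (nat_lit 158628) (.g (nat_lit 1413) (.e (nat_lit 57427) (nat_lit 15) (.e (nat_lit 360451) (nat_lit 0) (.e (nat_lit 7122) (nat_lit 382) (.e (nat_lit 1016) (nat_lit 81) (.e (nat_lit 1598) (nat_lit 111) .nil))))) .nil))) (.nd (nat_lit 5) 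
(.lf (nat_lit 158612) (.g (nat_lit 2967) (.e (nat_lit 57427) (nat_lit 15) (.e (nat_lit 360450) (nat_lit 0) (.e (nat_lit 7265) (nat_lit 384) (.e (nat_lit 57427) (nat_lit 15) (.e (nat_lit 360451) (nat_lit 0) (.e (nat_lit 7263) (nat_lit 384) .nil)))))) (.g (nat_lit 5) .nil .nil))) 
(.lf (nat_lit 158644) (.g (nat_lit 2349) (.e (nat_lit 57427) (nat_lit 15) (.e (nat_lit 360451) (nat_lit 0) (.e (nat_lit 7265) (nat_lit 384) (.e (nat_lit 57436) (nat_lit 17) (.e (nat_lit 376860) (nat_lit 21) (.e (nat_lit 65280) (nat_lit 154) .nil)))))) (.g (nat_lit 4) .nil .nil))))) (.nd (nat_lit 4) (.nd (nat_lit 5) 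
(.lf (nat_lit 158604) (.g (nat_lit 2703) (.e (nat_lit 57427) (nat_lit 15) (.e (nat_lit 360450) (nat_lit 0) (.e (nat_lit 7265) (nat_lit 384) (.e (nat_lit 57412) (nat_lit 12) (.e (nat_lit 336176) (nat_lit 10) (.e (nat_lit 344091) (nat_lit 18) (.e (nat_lit 7263) (nat_lit 384) .nil))))))) (.g (nat_lit 5) .nil .nil))) 
(.lf (nat_lit 158636) (.g (nat_lit 3021) (.e (nat_lit 57427) (nat_lit 15) (.e (nat_lit 360451) (nat_lit 0) (.e (nat_lit 7263) (nat_lit 384) (.e (nat_lit 57412) (nat_lit 12) (.e (nat_lit 336176) (nat_lit 10) (.e (nat_lit 344095) (nat_lit 18) (.e (nat_lit 7261) (nat_lit 384) .nil))))))) (.g (nat_lit 0) .nil .nil)))) (.nd (nat_lit 5) 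
(.lf (nat_lit 158620) (.g (nat_lit 2872) (.e (nat_lit 57427) (nat_lit 15) (.e (nat_lit 360450) (nat_lit 0) (.e (nat_lit 7277) (nat_lit 385) (.e (nat_lit 122919) (nat_lit 15) (.e (nat_lit 360451) (nat_lit 0) (.e (nat_lit 7261) (nat_lit 384) .nil)))))) (.g (nat_lit 5) .nil .nil))) 
(.lf (nat_lit 158652) (.g (nat_lit 3399) (.e (nat_lit 57427) (nat_lit 15) (.e (nat_lit 360451) (nat_lit 0) (.e (nat_lit 7266) (nat_lit 384) (.e (nat_lit 57427) (nat_lit 15) (.e (nat_lit 360450) (nat_lit 0) (.e (nat_lit 7265) (nat_lit 384) .nil)))))) (.g (nat_lit 0) .nil .nil))))))) (.nd (nat_lit 2) (.nd (nat_lit 3) (.nd (nat_lit 4) (.nd (nat_lit 5) 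
(.lf (nat_lit 158594) (.g (nat_lit 3084) (.e (nat_lit 57427) (nat_lit 15) (.e (nat_lit 360450) (nat_lit 0) (.e (nat_lit 7124) (nat_lit 382) (.e (nat_lit 1201) (nat_lit 88) (.e (nat_lit 65617) (nat_lit 10) (.e (nat_lit 344095) (nat_lit 18) (.e (nat_lit 7263) (nat_lit 384) .nil))))))) (.g (nat_lit 5) .nil .nil))) 
(.lf (nat_lit 158626) (.g (nat_lit 1252) (.e (nat_lit 57427) (nat_lit 15) (.e (nat_lit 360451) (nat_lit 0) (.e (nat_lit 7122) (nat_lit 382) (.e (nat_lit 1016) (nat_lit 81) .nil)))) .nil))) (.nd (nat_lit 5) 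
(.lf (nat_lit 158610) (.g (nat_lit 3243) (.e (nat_lit 57427) (nat_lit 15) (.e (nat_lit 360450) (nat_lit 0) (.e (nat_lit 7265) (nat_lit 384) (.e (nat_lit 57427) (nat_lit 15) (.e (nat_lit 360450) (nat_lit 0) (.e (nat_lit 7263) (nat_lit 384) .nil)))))) (.g (nat_lit 5) .nil .nil))) 
(.lf (nat_lit 158642) (.g (nat_lit 2320) (.e (nat_lit 57427) (nat_lit 15) (.e (nat_lit 360451) (nat_lit 0) (.e (nat_lit 7265) (nat_lit 384) (.e (nat_lit 57427) (nat_lit 15) (.e (nat_lit 360449) (nat_lit 0) (.e (nat_lit 7263) (nat_lit 384) .nil)))))) (.g (nat_lit 4) .nil .nil))))) (.nd (nat_lit 4) (.nd (nat_lit 5) 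
(.lf (nat_lit 158602) (.g (nat_lit 1667) (.e (nat_lit 57427) (nat_lit 15) (.e (nat_lit 360450) (nat_lit 0) (.e (nat_lit 7261) (nat_lit 384) (.e (nat_lit 57428) (nat_lit 15) (.e (nat_lit 360449) (nat_lit 0) .nil))))) .nil)) 
(.lf (nat_lit 158634) (.g (nat_lit 678) (.e (nat_lit 57427) (nat_lit 15) (.e (nat_lit 360451) (nat_lit 0) (.e (nat_lit 7247) (nat_lit 383) .nil))) .nil))) (.nd (nat_lit 5) 
(.lf (nat_lit 158618) (.g (nat_lit 3338) (.e (nat_lit 57427) (nat_lit 15) (.e (nat_lit 360450) (nat_lit 0) (.e (nat_lit 7266) (nat_lit 384) (.e (nat_lit 57427) (nat_lit 15) (.e (nat_lit 360451) (nat_lit 0) (.e (nat_lit 7261) (nat_lit 384) .nil)))))) (.g (nat_lit 5) .nil .nil))) 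
(.lf (nat_lit 158650) (.g (nat_lit 3770) (.e (nat_lit 57427) (nat_lit 15) (.e (nat_lit 360451) (nat_lit 0) (.e (nat_lit 7266) (nat_lit 384) (.e (nat_lit 57427) (nat_lit 15) (.e (nat_lit 360450) (nat_lit 0) (.e (nat_lit 7261) (nat_lit 384) .nil)))))) (.g (nat_lit 0) .nil .nil)))))) (.nd (nat_lit 3) (.nd (nat_lit 4) (.nd (nat_lit 5) 
(.lf (nat_lit 158598) (.g (nat_lit 3686) (.e (nat_lit 57427) (nat_lit 15) (.e (nat_lit 360450) (nat_lit 0) (.e (nat_lit 7125) (nat_lit 382) (.e (nat_lit 1201) (nat_lit 88) (.e (nat_lit 65617) (nat_lit 10) (.e (nat_lit 344095) (nat_lit 18) (.e (nat_lit 7263) (nat_lit 384) .nil))))))) (.g (nat_lit 5) .nil .nil))) 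
(.lf (nat_lit 158630) (.g (nat_lit 1133) (.e (nat_lit 57427) (nat_lit 15) (.e (nat_lit 360451) (nat_lit 0) (.e (nat_lit 7122) (nat_lit 382) (.e (nat_lit 1224) (nat_lit 90) .nil)))) .nil))) (.nd (nat_lit 5) 
(.lf (nat_lit 158614) (.g (nat_lit 2641) (.e (nat_lit 57427) (nat_lit 15) (.e (nat_lit 360450) (nat_lit 0) (.e (nat_lit 7266) (nat_lit 384) (.e (nat_lit 57426) (nat_lit 15) (.e (nat_lit 360449) (nat_lit 0) (.e (nat_lit 7263) (nat_lit 384) .nil)))))) (.g (nat_lit 4) .nil .nil))) 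
(.lf (nat_lit 158646) (.g (nat_lit 2082) (.e (nat_lit 57427) (nat_lit 15) (.e (nat_lit 360451) (nat_lit 0) (.e (nat_lit 7266) (nat_lit 384) (.e (nat_lit 57426) (nat_lit 15) (.e (nat_lit 360451) (nat_lit 0) (.e (nat_lit 7261) (nat_lit 384) .nil)))))) (.g (nat_lit 4) .nil .nil))))) (.nd (nat_lit 4) (.nd (nat_lit 5) 
(.lf (nat_lit 158606) (.g (nat_lit 2638) (.e (nat_lit 57427) (nat_lit 15) (.e (nat_lit 360450) (nat_lit 0) (.e (nat_lit 7265) (nat_lit 384) (.e (nat_lit 57412) (nat_lit 12) (.e (nat_lit 336176) (nat_lit 10) (.e (nat_lit 344096) (nat_lit 18) (.e (nat_lit 7263) (nat_lit 384) .nil))))))) (.g (nat_lit 5) .nil .nil))) 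
(.lf (nat_lit 158638) (.g (nat_lit 3264) (.e (nat_lit 57427) (nat_lit 15) (.e (nat_lit 360451) (nat_lit 0) (.e (nat_lit 7263) (nat_lit 384) (.e (nat_lit 57427) (nat_lit 15) (.e (nat_lit 360450) (nat_lit 0) (.e (nat_lit 7261) (nat_lit 384) .nil)))))) (.g (nat_lit 0) .nil .nil)))) (.nd (nat_lit 5) 
(.lf (nat_lit 158622) (.g (nat_lit 3155) (.e (nat_lit 57427) (nat_lit 15) (.e (nat_lit 360450) (nat_lit 0) (.e (nat_lit 7277) (nat_lit 385) (.e (nat_lit 122919) (nat_lit 15) (.e (nat_lit 360451) (nat_lit 0) (.e (nat_lit 7266) (nat_lit 384) .nil)))))) (.g (nat_lit 5) .nil .nil))) 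
(.lf (nat_lit 158654) (.g (nat_lit 2400) (.e (nat_lit 57427) (nat_lit 15) (.e (nat_lit 360451) (nat_lit 0) (.e (nat_lit 7277) (nat_lit 385) (.e (nat_lit 122919) (nat_lit 15) (.e (nat_lit 360451) (nat_lit 0) (.e (nat_lit 7261) (nat_lit 384) .nil)))))) (.g (nat_lit 5) .nil .nil)))))))) (.nd (nat_lit 1) (.nd (nat_lit 2) (.nd (nat_lit 3) (.nd (nat_lit 4) (.nd (nat_lit 5) 
(.lf (nat_lit 158593) (.g (nat_lit 3182) (.e (nat_lit 57427) (nat_lit 15) (.e (nat_lit 360450) (nat_lit 0) (.e (nat_lit 7124) (nat_lit 382) (.e (nat_lit 1201) (nat_lit 88) (.e (nat_lit 65610) (nat_lit 10) (.e (nat_lit 344090) (nat_lit 18) (.e (nat_lit 7263) (nat_lit 384) .nil))))))) (.g (nat_lit 5) .nil .nil))) 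
(.lf (nat_lit 158625) (.g (nat_lit 653) (.e (nat_lit 57427) (nat_lit 15) (.e (nat_lit 360451) (nat_lit 0) (.e (nat_lit 7119) (nat_lit 382) .nil))) .nil))) (.nd (nat_lit 5) 
(.lf (nat_lit 158609) (.g (nat_lit 3349) (.e (nat_lit 57427) (nat_lit 15) (.e (nat_lit 360450) (nat_lit 0) (.e (nat_lit 7265) (nat_lit 384) (.e (nat_lit 57427) (nat_lit 15) (.e (nat_lit 360450) (nat_lit 0) (.e (nat_lit 7261) (nat_lit 384) .nil)))))) (.g (nat_lit 5) .nil .nil))) 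
(.lf (nat_lit 158641) (.g (nat_lit 2333) (.e (nat_lit 57427) (nat_lit 15) (.e (nat_lit 360451) (nat_lit 0) (.e (nat_lit 7265) (nat_lit 384) (.e (nat_lit 57427) (nat_lit 15) (.e (nat_lit 360449) (nat_lit 0) (.e (nat_lit 7261) (nat_lit 384) .nil)))))) (.g (nat_lit 4) .nil .nil))))) (.nd (nat_lit 4) (.nd (nat_lit 5) 
(.lf (nat_lit 158601) (.g (nat_lit 4566) (.e (nat_lit 57427) (nat_lit 15) (.e (nat_lit 360450) (nat_lit 0) (.e (nat_lit 7125) (nat_lit 382) (.e (nat_lit 1201) (nat_lit 88) (.e (nat_lit 65617) (nat_lit 10) (.e (nat_lit 344096) (nat_lit 18) (.e (nat_lit 7265) (nat_lit 384) .nil))))))) (.g (nat_lit 6) .nil .nil))) 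
(.lf (nat_lit 158633) (.g (nat_lit 1991) (.e (nat_lit 57427) (nat_lit 15) (.e (nat_lit 360451) (nat_lit 0) (.e (nat_lit 7125) (nat_lit 382) (.e (nat_lit 1224) (nat_lit 90) (.e (nat_lit 81946) (nat_lit 20) (.e (nat_lit 1014) (nat_lit 81) (.e (nat_lit 7263) (nat_lit 384) .nil))))))) (.g (nat_lit 4) .nil .nil)))) (.nd (nat_lit 5) 
(.lf (nat_lit 158617) (.g (nat_lit 3604) (.e (nat_lit 57427) (nat_lit 15) (.e (nat_lit 360450) (nat_lit 0) (.e (nat_lit 7266) (nat_lit 384) (.e (nat_lit 57427) (nat_lit 15) (.e (nat_lit 360450) (nat_lit 0) (.e (nat_lit 7263) (nat_lit 384) .nil)))))) (.g (nat_lit 5) .nil .nil))) 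
(.lf (nat_lit 158649) (.g (nat_lit 2380) (.e (nat_lit 57427) (nat_lit 15) (.e (nat_lit 360451) (nat_lit 0) (.e (nat_lit 7266) (nat_lit 384) (.e (nat_lit 57427) (nat_lit 15) (.e (nat_lit 360449) (nat_lit 0) (.e (nat_lit 7263) (nat_lit 384) .nil)))))) (.g (nat_lit 4) .nil .nil)))))) (.nd (nat_lit 3) (.nd (nat_lit 4) (.nd (nat_lit 5) 
(.lf (nat_lit 158597) (.g (nat_lit 3873) (.e (nat_lit 57427) (nat_lit 15) (.e (nat_lit 360450) (nat_lit 0) (.e (nat_lit 7125) (nat_lit 382) (.e (nat_lit 1201) (nat_lit 88) (.e (nat_lit 65617) (nat_lit 10) (.e (nat_lit 344095) (nat_lit 18) (.e (nat_lit 7261) (nat_lit 384) .nil))))))) (.g (nat_lit 5) .nil .nil))) 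
(.lf (nat_lit 158629) (.g (nat_lit 4160) (.e (nat_lit 57427) (nat_lit 15) (.e (nat_lit 360451) (nat_lit 0) (.e (nat_lit 7122) (nat_lit 382) (.e (nat_lit 1201) (nat_lit 88) (.e (nat_lit 65617) (nat_lit 10) (.e (nat_lit 344096) (nat_lit 18) (.e (nat_lit 7261) (nat_lit 384) .nil))))))) (.g (nat_lit 0) .nil .nil)))) (.nd (nat_lit 5) 
(.lf (nat_lit 158613) (.g (nat_lit 2777) (.e (nat_lit 57427) (nat_lit 15) (.e (nat_lit 360450) (nat_lit 0) (.e (nat_lit 7266) (nat_lit 384) (.e (nat_lit 57426) (nat_lit 15) (.e (nat_lit 360449) (nat_lit 0) (.e (nat_lit 7261) (nat_lit 384) .nil)))))) (.g (nat_lit 4) .nil .nil))) 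
(.lf (nat_lit 158645) (.g (nat_lit 1352) (.e (nat_lit 57427) (nat_lit 15) (.e (nat_lit 360451) (nat_lit 0) (.e (nat_lit 7266) (nat_lit 384) (.e (nat_lit 57412) (nat_lit 12) .nil)))) .nil)))) (.nd (nat_lit 4) (.nd (nat_lit 5) 
(.lf (nat_lit 158605) (.g (nat_lit 2622) (.e (nat_lit 57427) (nat_lit 15) (.e (nat_lit 360450) (nat_lit 0) (.e (nat_lit 7265) (nat_lit 384) (.e (nat_lit 57412) (nat_lit 12) (.e (nat_lit 336176) (nat_lit 10) (.e (nat_lit 344095) (nat_lit 18) (.e (nat_lit 7261) (nat_lit 384) .nil))))))) (.g (nat_lit 5) .nil .nil))) 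
(.lf (nat_lit 158637) (.g (nat_lit 1718) (.e (nat_lit 57427) (nat_lit 15) (.e (nat_lit 360451) (nat_lit 0) (.e (nat_lit 7263) (nat_lit 384) (.e (nat_lit 57427) (nat_lit 15) (.e (nat_lit 360449) (nat_lit 0) (.e (nat_lit 7261) (nat_lit 384) .nil)))))) (.g (nat_lit 4) .nil .nil)))) (.nd (nat_lit 5) 
(.lf (nat_lit 158621) (.g (nat_lit 2229) (.e (nat_lit 57427) (nat_lit 15) (.e (nat_lit 360450) (nat_lit 0) (.e (nat_lit 7277) (nat_lit 385) (.e (nat_lit 122919) (nat_lit 15) (.e (nat_lit 360451) (nat_lit 0) (.e (nat_lit 7263) (nat_lit 384) .nil)))))) (.g (nat_lit 4) .nil .nil))) 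
(.lf (nat_lit 158653) (.g (nat_lit 1208) (.e (nat_lit 57427) (nat_lit 15) (.e (nat_lit 360451) (nat_lit 0) (.e (nat_lit 7266) (nat_lit 384) (.e (nat_lit 57428) (nat_lit 15) .nil)))) .nil)))))) (.nd (nat_lit 2) (.nd (nat_lit 3) (.nd (nat_lit 4) (.nd (nat_lit 5) 
(.lf (nat_lit 158595) (.g (nat_lit 3585) (.e (nat_lit 57427) (nat_lit 15) (.e (nat_lit 360450) (nat_lit 0) (.e (nat_lit 7125) (nat_lit 382) (.e (nat_lit 1201) (nat_lit 88) (.e (nat_lit 65610) (nat_lit 10) (.e (nat_lit 344090) (nat_lit 18) (.e (nat_lit 7263) (nat_lit 384) .nil))))))) (.g (nat_lit 5) .nil .nil))) 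
(.lf (nat_lit 158627) (.g (nat_lit 1413) (.e (nat_lit 57427) (nat_lit 15) (.e (nat_lit 360451) (nat_lit 0) (.e (nat_lit 7122) (nat_lit 382) (.e (nat_lit 1016) (nat_lit 81) (.e (nat_lit 1586) (nat_lit 111) .nil))))) .nil))) (.nd (nat_lit 5) 
(.lf (nat_lit 158611) (.g (nat_lit 3027) (.e (nat_lit 57427) (nat_lit 15) (.e (nat_lit 360450) (nat_lit 0) (.e (nat_lit 7265) (nat_lit 384) (.e (nat_lit 57427) (nat_lit 15) (.e (nat_lit 360451) (nat_lit 0) (.e (nat_lit 7261) (nat_lit 384) .nil)))))) (.g (nat_lit 5) .nil .nil))) 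
(.lf (nat_lit 158643) (.g (nat_lit 1058) (.e (nat_lit 57427) (nat_lit 15) (.e (nat_lit 360451) (nat_lit 0) (.e (nat_lit 7265) (nat_lit 384) (.e (nat_lit 57436) (nat_lit 17) .nil)))) .nil)))) (.nd (nat_lit 4) (.nd (nat_lit 5) 
(.lf (nat_lit 158603) (.g (nat_lit 1957) (.e (nat_lit 57427) (nat_lit 15) (.e (nat_lit 360450) (nat_lit 0) (.e (nat_lit 7263) (nat_lit 384) (.e (nat_lit 57427) (nat_lit 15) (.e (nat_lit 360449) (nat_lit 0) (.e (nat_lit 7261) (nat_lit 384) .nil)))))) (.g (nat_lit 4) .nil .nil))) 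
(.lf (nat_lit 158635) (.g (nat_lit 951) (.e (nat_lit 57427) (nat_lit 15) (.e (nat_lit 360451) (nat_lit 0) (.e (nat_lit 7261) (nat_lit 384) (.e (nat_lit 57428) (nat_lit 15) .nil)))) .nil))) (.nd (nat_lit 5) 
(.lf (nat_lit 158619) (.g (nat_lit 3264) (.e (nat_lit 57427) (nat_lit 15) (.e (nat_lit 360450) (nat_lit 0) (.e (nat_lit 7266) (nat_lit 384) (.e (nat_lit 57427) (nat_lit 15) (.e (nat_lit 360451) (nat_lit 0) (.e (nat_lit 7263) (nat_lit 384) .nil)))))) (.g (nat_lit 5) .nil .nil))) 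
(.lf (nat_lit 158651) (.g (nat_lit 3735) (.e (nat_lit 57427) (nat_lit 15) (.e (nat_lit 360451) (nat_lit 0) (.e (nat_lit 7266) (nat_lit 384) (.e (nat_lit 57427) (nat_lit 15) (.e (nat_lit 360450) (nat_lit 0) (.e (nat_lit 7263) (nat_lit 384) .nil)))))) (.g (nat_lit 0) .nil .nil)))))) (.nd (nat_lit 3) (.nd (nat_lit 4) (.nd (nat_lit 5) 
(.lf (nat_lit 158599) (.g (nat_lit 4196) (.e (nat_lit 57427) (nat_lit 15) (.e (nat_lit 360450) (nat_lit 0) (.e (nat_lit 7125) (nat_lit 382) (.e (nat_lit 1201) (nat_lit 88) (.e (nat_lit 65617) (nat_lit 10) (.e (nat_lit 344096) (nat_lit 18) (.e (nat_lit 7261) (nat_lit 384) .nil))))))) (.g (nat_lit 6) .nil .nil))) 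
(.lf (nat_lit 158631) (.g (nat_lit 4486) (.e (nat_lit 57427) (nat_lit 15) (.e (nat_lit 360451) (nat_lit 0) (.e (nat_lit 7125) (nat_lit 382) (.e (nat_lit 1201) (nat_lit 88) (.e (nat_lit 65617) (nat_lit 10) (.e (nat_lit 344091) (nat_lit 18) (.e (nat_lit 7266) (nat_lit 384) .nil))))))) (.g (nat_lit 0) .nil .nil)))) (.nd (nat_lit 5) 
(.lf (nat_lit 158615) (.g (nat_lit 3132) (.e (nat_lit 57427) (nat_lit 15) (.e (nat_lit 360450) (nat_lit 0) (.e (nat_lit 7266) (nat_lit 384) (.e (nat_lit 57427) (nat_lit 15) (.e (nat_lit 360449) (nat_lit 0) (.e (nat_lit 7265) (nat_lit 384) .nil)))))) (.g (nat_lit 4) .nil .nil))) 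
(.lf (nat_lit 158647) (.g (nat_lit 3395) (.e (nat_lit 57427) (nat_lit 15) (.e (nat_lit 360451) (nat_lit 0) (.e (nat_lit 7266) (nat_lit 384) (.e (nat_lit 57426) (nat_lit 15) (.e (nat_lit 360451) (nat_lit 0) (.e (nat_lit 7265) (nat_lit 384) .nil)))))) (.g (nat_lit 6) .nil .nil))))) (.nd (nat_lit 4) (.nd (nat_lit 5) 
(.lf (nat_lit 158607) (.g (nat_lit 2517) (.e (nat_lit 57427) (nat_lit 15) (.e (nat_lit 360450) (nat_lit 0) (.e (nat_lit 7265) (nat_lit 384) (.e (nat_lit 57426) (nat_lit 15) (.e (nat_lit 360449) (nat_lit 0) (.e (nat_lit 7263) (nat_lit 384) .nil)))))) (.g (nat_lit 4) .nil .nil))) 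
(.lf (nat_lit 158639) (.g (nat_lit 376) (.e (nat_lit 57427) (nat_lit 15) (.e (nat_lit 360451) (nat_lit 0) (.e (nat_lit 7265) (nat_lit 384) .nil))) .nil))) (.nd (nat_lit 5) 
(.lf (nat_lit 158623) (.g (nat_lit 3763) (.e (nat_lit 57427) (nat_lit 15) (.e (nat_lit 360451) (nat_lit 0) (.e (nat_lit 5896) (nat_lit 320) (.e (nat_lit 1221) (nat_lit 90) (.e (nat_lit 81959) (nat_lit 24) (.e (nat_lit 123195) (nat_lit 266) .nil)))))) (.g (nat_lit 6) .nil .nil))) 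
(.lf (nat_lit 158655) (.g (nat_lit 1591) (.e (nat_lit 57427) (nat_lit 15) (.e (nat_lit 360452) (nat_lit 0) (.e (nat_lit 5905) (nat_lit 320) (.e (nat_lit 1219) (nat_lit 90) .nil)))) .nil))))))))

noncomputable def tv2125 : DT := (.nd (nat_lit 0) (.nd (nat_lit 1) (.nd (nat_lit 2) (.nd (nat_lit 3) (.nd (nat_lit 4) (.nd (nat_lit 5) 
(.lf (nat_lit 158656) (.g (nat_lit 1554) (.e (nat_lit 57427) (nat_lit 15) (.e (nat_lit 360452) (nat_lit 0) (.e (nat_lit 5905) (nat_lit 320) (.e (nat_lit 1220) (nat_lit 90) .nil)))) .nil)) 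
(.lf (nat_lit 158688) (.g (nat_lit 2727) (.e (nat_lit 57427) (nat_lit 15) (.e (nat_lit 360454) (nat_lit 0) (.e (nat_lit 7273) (nat_lit 385) (.e (nat_lit 122919) (nat_lit 15) (.e (nat_lit 360451) (nat_lit 0) (.e (nat_lit 7266) (nat_lit 384) .nil)))))) (.g (nat_lit 0) .nil .nil)))) (.nd (nat_lit 5) 
(.lf (nat_lit 158672) (.g (nat_lit 1313) (.e (nat_lit 57427) (nat_lit 15) (.e (nat_lit 360452) (nat_lit 0) (.e (nat_lit 7271) (nat_lit 385) (.e (nat_lit 122917) (nat_lit 15) .nil)))) .nil)) 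
(.lf (nat_lit 158704) (.g (nat_lit 3582) (.e (nat_lit 57427) (nat_lit 15) (.e (nat_lit 360471) (nat_lit 7) (.e (nat_lit 548889) (nat_lit 9) (.e (nat_lit 65624) (nat_lit 12) .nil)))) .nil)))) (.nd (nat_lit 4) (.nd (nat_lit 5) 
(.lf (nat_lit 158664) (.g (nat_lit 2652) (.e (nat_lit 57427) (nat_lit 15) (.e (nat_lit 360452) (nat_lit 0) (.e (nat_lit 7270) (nat_lit 385) (.e (nat_lit 122917) (nat_lit 15) (.e (nat_lit 360449) (nat_lit 0) .nil))))) .nil)) 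
(.lf (nat_lit 158696) (.g (nat_lit 1976) (.e (nat_lit 57427) (nat_lit 15) (.e (nat_lit 360457) (nat_lit 0) (.e (nat_lit 5949) (nat_lit 322) (.e (nat_lit 57427) (nat_lit 15) (.e (nat_lit 360457) (nat_lit 0) (.e (nat_lit 5949) (nat_lit 322) .nil)))))) (.g (nat_lit 4) .nil .nil)))) (.nd (nat_lit 5) 
(.lf (nat_lit 158680) (.g (nat_lit 2557) (.e (nat_lit 57427) (nat_lit 15) (.e (nat_lit 360453) (nat_lit 0) (.e (nat_lit 7270) (nat_lit 385) (.e (nat_lit 122919) (nat_lit 15) (.e (nat_lit 360451) (nat_lit 0) (.e (nat_lit 7261) (nat_lit 384) .nil)))))) (.g (nat_lit 5) .nil .nil))) 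
(.lf (nat_lit 158712) (.g (nat_lit 3239) (.e (nat_lit 57427) (nat_lit 15) (.e (nat_lit 360474) (nat_lit 8) (.e (nat_lit 557059) (nat_lit 0) (.e (nat_lit 1633) (nat_lit 114) (.e (nat_lit 385115) (nat_lit 53) (.e (nat_lit 811043) (nat_lit 12) (.e (nat_lit 8443) (nat_lit 140) .nil))))))) (.g (nat_lit 4) .nil .nil)))))) (.nd (nat_lit 3) (.nd (nat_lit 4) (.nd (nat_lit 5) 
(.lf (nat_lit 158660) (.g (nat_lit 1588) (.e (nat_lit 57427) (nat_lit 15) (.e (nat_lit 360452) (nat_lit 0) (.e (nat_lit 5907) (nat_lit 320) (.e (nat_lit 1219) (nat_lit 90) .nil)))) .nil)) 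
(.lf (nat_lit 158692) (.g (nat_lit 2282) (.e (nat_lit 57427) (nat_lit 15) (.e (nat_lit 360456) (nat_lit 0) (.e (nat_lit 5949) (nat_lit 322) (.e (nat_lit 57427) (nat_lit 15) (.e (nat_lit 360457) (nat_lit 0) (.e (nat_lit 5949) (nat_lit 322) .nil)))))) (.g (nat_lit 5) .nil .nil)))) (.nd (nat_lit 5) 
(.lf (nat_lit 158676) (.g (nat_lit 1522) (.e (nat_lit 57427) (nat_lit 15) (.e (nat_lit 360452) (nat_lit 0) (.e (nat_lit 7272) (nat_lit 385) (.e (nat_lit 122918) (nat_lit 15) .nil)))) .nil)) 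
(.lf (nat_lit 158708) (.g (nat_lit 1150) (.e (nat_lit 57427) (nat_lit 15) (.e (nat_lit 360474) (nat_lit 8) (.e (nat_lit 557058) (nat_lit 0) .nil))) .nil)))) (.nd (nat_lit 4) (.nd (nat_lit 5) 
(.lf (nat_lit 158668) (.g (nat_lit 2940) (.e (nat_lit 57427) (nat_lit 15) (.e (nat_lit 360452) (nat_lit 0) (.e (nat_lit 7270) (nat_lit 385) (.e (nat_lit 122919) (nat_lit 15) (.e (nat_lit 360449) (nat_lit 0) .nil))))) .nil)) 
(.lf (nat_lit 158700) (.g (nat_lit 2247) (.e (nat_lit 57427) (nat_lit 15) (.e (nat_lit 368384) (nat_lit 0) (.e (nat_lit 5906) (nat_lit 320) (.e (nat_lit 1221) (nat_lit 90) (.e (nat_lit 81959) (nat_lit 24) (.e (nat_lit 123196) (nat_lit 266) .nil)))))) (.g (nat_lit 5) .nil .nil)))) (.nd (nat_lit 5) 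
(.lf (nat_lit 158684) (.g (nat_lit 3196) (.e (nat_lit 57427) (nat_lit 15) (.e (nat_lit 360454) (nat_lit 0) (.e (nat_lit 7270) (nat_lit 385) (.e (nat_lit 122919) (nat_lit 15) (.e (nat_lit 360451) (nat_lit 0) (.e (nat_lit 7263) (nat_lit 384) .nil)))))) (.g (nat_lit 5) .nil .nil))) 
(.lf (nat_lit 158716) (.g (nat_lit 1247) (.e (nat_lit 57427) (nat_lit 15) (.e (nat_lit 360474) (nat_lit 8) (.e (nat_lit 557062) (nat_lit 0) .nil))) .nil)))))) (.nd (nat_lit 2) (.nd (nat_lit 3) (.nd (nat_lit 4) (.nd (nat_lit 5) 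
(.lf (nat_lit 158658) (.g (nat_lit 707) (.e (nat_lit 57427) (nat_lit 15) (.e (nat_lit 360452) (nat_lit 0) (.e (nat_lit 5906) (nat_lit 320) .nil))) .nil)) 
(.lf (nat_lit 158690) (.g (nat_lit 1310) (.e (nat_lit 57427) (nat_lit 15) (.e (nat_lit 360456) (nat_lit 0) (.e (nat_lit 5949) (nat_lit 322) (.e (nat_lit 57426) (nat_lit 15) (.e (nat_lit 360457) (nat_lit 0) .nil))))) .nil))) (.nd (nat_lit 5) 
(.lf (nat_lit 158674) (.g (nat_lit 2224) (.e (nat_lit 57427) (nat_lit 15) (.e (nat_lit 360452) (nat_lit 0) (.e (nat_lit 7271) (nat_lit 385) (.e (nat_lit 122919) (nat_lit 15) (.e (nat_lit 360451) (nat_lit 0) .nil))))) .nil)) 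
(.lf (nat_lit 158706) (.g (nat_lit 795) (.e (nat_lit 57427) (nat_lit 15) (.e (nat_lit 360473) (nat_lit 8) (.e (nat_lit 557118) (nat_lit 18) .nil))) .nil)))) (.nd (nat_lit 4) (.nd (nat_lit 5) 
(.lf (nat_lit 158666) (.g (nat_lit 1751) (.e (nat_lit 57427) (nat_lit 15) (.e (nat_lit 360452) (nat_lit 0) (.e (nat_lit 7270) (nat_lit 385) (.e (nat_lit 122918) (nat_lit 15) .nil)))) .nil)) 
(.lf (nat_lit 158698) (.g (nat_lit 337) (.e (nat_lit 57427) (nat_lit 15) (.e (nat_lit 360457) (nat_lit 0) (.e (nat_lit 7936) (nat_lit 385) .nil))) .nil))) (.nd (nat_lit 5) 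
(.lf (nat_lit 158682) (.g (nat_lit 2116) (.e (nat_lit 57427) (nat_lit 15) (.e (nat_lit 360454) (nat_lit 0) (.e (nat_lit 5907) (nat_lit 320) (.e (nat_lit 1221) (nat_lit 90) (.e (nat_lit 81959) (nat_lit 24) (.e (nat_lit 123198) (nat_lit 266) .nil)))))) (.g (nat_lit 4) .nil .nil))) 
(.lf (nat_lit 158714) (.g (nat_lit 1447) (.e (nat_lit 57427) (nat_lit 15) (.e (nat_lit 360474) (nat_lit 8) (.e (nat_lit 557060) (nat_lit 0) (.e (nat_lit 1633) (nat_lit 114) .nil)))) .nil))))) (.nd (nat_lit 3) (.nd (nat_lit 4) (.nd (nat_lit 5) 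
(.lf (nat_lit 158662) (.g (nat_lit 2307) (.e (nat_lit 57427) (nat_lit 15) (.e (nat_lit 360452) (nat_lit 0) (.e (nat_lit 5907) (nat_lit 320) (.e (nat_lit 1221) (nat_lit 90) (.e (nat_lit 81959) (nat_lit 24) .nil))))) .nil)) 
(.lf (nat_lit 158694) (.g (nat_lit 2069) (.e (nat_lit 57427) (nat_lit 15) (.e (nat_lit 360457) (nat_lit 0) (.e (nat_lit 5948) (nat_lit 322) (.e (nat_lit 57427) (nat_lit 15) (.e (nat_lit 360456) (nat_lit 0) (.e (nat_lit 5949) (nat_lit 322) .nil)))))) (.g (nat_lit 4) .nil .nil)))) (.nd (nat_lit 5) 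
(.lf (nat_lit 158678) (.g (nat_lit 2089) (.e (nat_lit 57427) (nat_lit 15) (.e (nat_lit 360452) (nat_lit 0) (.e (nat_lit 7272) (nat_lit 385) (.e (nat_lit 122919) (nat_lit 15) (.e (nat_lit 360451) (nat_lit 0) .nil))))) .nil)) 
(.lf (nat_lit 158710) (.g (nat_lit 644) (.e (nat_lit 57427) (nat_lit 15) (.e (nat_lit 360474) (nat_lit 8) (.e (nat_lit 557059) (nat_lit 0) .nil))) .nil)))) (.nd (nat_lit 4) (.nd (nat_lit 5) 
(.lf (nat_lit 158670) (.g (nat_lit 2744) (.e (nat_lit 57427) (nat_lit 15) (.e (nat_lit 360452) (nat_lit 0) (.e (nat_lit 7270) (nat_lit 385) (.e (nat_lit 122919) (nat_lit 15) (.e (nat_lit 360451) (nat_lit 0) (.e (nat_lit 7261) (nat_lit 384) .nil)))))) (.g (nat_lit 4) .nil .nil))) 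
(.lf (nat_lit 158702) (.g (nat_lit 696) (.e (nat_lit 57427) (nat_lit 15) (.e (nat_lit 360466) (nat_lit 3) (.e (nat_lit 516194) (nat_lit 26) .nil))) .nil))) (.nd (nat_lit 5) 
(.lf (nat_lit 158686) (.g (nat_lit 1408) (.e (nat_lit 57427) (nat_lit 15) (.e (nat_lit 360454) (nat_lit 0) (.e (nat_lit 7273) (nat_lit 385) (.e (nat_lit 122917) (nat_lit 15) (.e (nat_lit 360449) (nat_lit 0) (.e (nat_lit 7261) (nat_lit 384) .nil)))))) (.g (nat_lit 4) .nil .nil))) 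
(.lf (nat_lit 158718) (.g (nat_lit 733) (.e (nat_lit 57427) (nat_lit 15) (.e (nat_lit 360474) (nat_lit 8) (.e (nat_lit 564992) (nat_lit 5) .nil))) .nil))))))) (.nd (nat_lit 1) (.nd (nat_lit 2) (.nd (nat_lit 3) (.nd (nat_lit 4) (.nd (nat_lit 5) 
(.lf (nat_lit 158657) (.g (nat_lit 1827) (.e (nat_lit 57427) (nat_lit 15) (.e (nat_lit 360452) (nat_lit 0) (.e (nat_lit 5905) (nat_lit 320) (.e (nat_lit 1221) (nat_lit 90) (.e (nat_lit 81959) (nat_lit 24) .nil))))) .nil)) 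
(.lf (nat_lit 158689) (.g (nat_lit 3308) (.e (nat_lit 57427) (nat_lit 15) (.e (nat_lit 360456) (nat_lit 0) (.e (nat_lit 5949) (nat_lit 322) (.e (nat_lit 57424) (nat_lit 14) (.e (nat_lit 352318) (nat_lit 24) (.e (nat_lit 123198) (nat_lit 266) .nil)))))) (.g (nat_lit 6) .nil .nil)))) (.nd (nat_lit 5) 
(.lf (nat_lit 158673) (.g (nat_lit 1426) (.e (nat_lit 57427) (nat_lit 15) (.e (nat_lit 360452) (nat_lit 0) (.e (nat_lit 7271) (nat_lit 385) (.e (nat_lit 122919) (nat_lit 15) .nil)))) .nil)) 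
(.lf (nat_lit 158705) (.g (nat_lit 1594) (.e (nat_lit 57427) (nat_lit 15) (.e (nat_lit 360471) (nat_lit 7) (.e (nat_lit 548891) (nat_lit 11) (.e (nat_lit 81957) (nat_lit 24) .nil)))) .nil)))) (.nd (nat_lit 4) (.nd (nat_lit 5) 
(.lf (nat_lit 158665) (.g (nat_lit 2917) (.e (nat_lit 57427) (nat_lit 15) (.e (nat_lit 360452) (nat_lit 0) (.e (nat_lit 7270) (nat_lit 385) (.e (nat_lit 122917) (nat_lit 15) (.e (nat_lit 360451) (nat_lit 0) .nil))))) .nil)) 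
(.lf (nat_lit 158697) (.g (nat_lit 2008) (.e (nat_lit 57427) (nat_lit 15) (.e (nat_lit 360457) (nat_lit 0) (.e (nat_lit 5949) (nat_lit 322) (.e (nat_lit 57428) (nat_lit 15) (.e (nat_lit 360457) (nat_lit 0) (.e (nat_lit 5949) (nat_lit 322) .nil)))))) (.g (nat_lit 4) .nil .nil)))) (.nd (nat_lit 5) 
(.lf (nat_lit 158681) (.g (nat_lit 1270) (.e (nat_lit 57427) (nat_lit 15) (.e (nat_lit 360454) (nat_lit 0) (.e (nat_lit 5907) (nat_lit 320) (.e (nat_lit 1219) (nat_lit 90) (.e (nat_lit 81959) (nat_lit 24) .nil))))) .nil)) 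
(.lf (nat_lit 158713) (.g (nat_lit 1000) (.e (nat_lit 57427) (nat_lit 15) (.e (nat_lit 360474) (nat_lit 8) (.e (nat_lit 557060) (nat_lit 0) .nil))) .nil))))) (.nd (nat_lit 3) (.nd (nat_lit 4) (.nd (nat_lit 5) 
(.lf (nat_lit 158661) (.g (nat_lit 2122) (.e (nat_lit 57427) (nat_lit 15) (.e (nat_lit 360452) (nat_lit 0) (.e (nat_lit 5907) (nat_lit 320) (.e (nat_lit 1219) (nat_lit 90) (.e (nat_lit 81957) (nat_lit 24) .nil))))) .nil)) 
(.lf (nat_lit 158693) (.g (nat_lit 2281) (.e (nat_lit 57427) (nat_lit 15) (.e (nat_lit 360457) (nat_lit 0) (.e (nat_lit 5818) (nat_lit 320) (.e (nat_lit 1222) (nat_lit 90) (.e (nat_lit 81957) (nat_lit 24) (.e (nat_lit 123198) (nat_lit 266) .nil)))))) (.g (nat_lit 5) .nil .nil)))) (.nd (nat_lit 5) 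
(.lf (nat_lit 158677) (.g (nat_lit 1498) (.e (nat_lit 57427) (nat_lit 15) (.e (nat_lit 360452) (nat_lit 0) (.e (nat_lit 7272) (nat_lit 385) (.e (nat_lit 122919) (nat_lit 15) .nil)))) .nil)) 
(.lf (nat_lit 158709) (.g (nat_lit 1933) (.e (nat_lit 57427) (nat_lit 15) (.e (nat_lit 360474) (nat_lit 8) (.e (nat_lit 557058) (nat_lit 0) (.e (nat_lit 1633) (nat_lit 114) (.e (nat_lit 385107) (nat_lit 51) .nil))))) .nil)))) (.nd (nat_lit 4) (.nd (nat_lit 5) 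
(.lf (nat_lit 158669) (.g (nat_lit 2667) (.e (nat_lit 57427) (nat_lit 15) (.e (nat_lit 360452) (nat_lit 0) (.e (nat_lit 7270) (nat_lit 385) (.e (nat_lit 122919) (nat_lit 15) (.e (nat_lit 360450) (nat_lit 0) .nil))))) .nil)) 
(.lf (nat_lit 158701) (.g (nat_lit 3477) (.e (nat_lit 57427) (nat_lit 15) (.e (nat_lit 360466) (nat_lit 3) (.e (nat_lit 516183) (nat_lit 16) (.e (nat_lit 491566) (nat_lit 12) (.e (nat_lit 385045) (nat_lit 21) (.e (nat_lit 4281) (nat_lit 253) .nil)))))) (.g (nat_lit 4) .nil .nil)))) (.nd (nat_lit 5) 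
(.lf (nat_lit 158685) (.g (nat_lit 3860) (.e (nat_lit 57427) (nat_lit 15) (.e (nat_lit 360454) (nat_lit 0) (.e (nat_lit 7270) (nat_lit 385) (.e (nat_lit 122919) (nat_lit 15) (.e (nat_lit 360451) (nat_lit 0) (.e (nat_lit 7266) (nat_lit 384) .nil)))))) (.g (nat_lit 0) .nil .nil))) 
(.lf (nat_lit 158717) (.g (nat_lit 987) (.e (nat_lit 57427) (nat_lit 15) (.e (nat_lit 360474) (nat_lit 8) (.e (nat_lit 557063) (nat_lit 0) .nil))) .nil)))))) (.nd (nat_lit 2) (.nd (nat_lit 3) (.nd (nat_lit 4) (.nd (nat_lit 5) 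
(.lf (nat_lit 158659) (.g (nat_lit 2359) (.e (nat_lit 57427) (nat_lit 15) (.e (nat_lit 360452) (nat_lit 0) (.e (nat_lit 5906) (nat_lit 320) (.e (nat_lit 1221) (nat_lit 90) (.e (nat_lit 81959) (nat_lit 24) .nil))))) .nil)) 
(.lf (nat_lit 158691) (.g (nat_lit 1703) (.e (nat_lit 57427) (nat_lit 15) (.e (nat_lit 360456) (nat_lit 0) (.e (nat_lit 5949) (nat_lit 322) (.e (nat_lit 57427) (nat_lit 15) (.e (nat_lit 360456) (nat_lit 0) (.e (nat_lit 5948) (nat_lit 322) .nil)))))) (.g (nat_lit 4) .nil .nil)))) (.nd (nat_lit 5) 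
(.lf (nat_lit 158675) (.g (nat_lit 1443) (.e (nat_lit 57427) (nat_lit 15) (.e (nat_lit 360452) (nat_lit 0) (.e (nat_lit 7272) (nat_lit 385) (.e (nat_lit 122917) (nat_lit 15) .nil)))) .nil)) 
(.lf (nat_lit 158707) (.g (nat_lit 1239) (.e (nat_lit 57427) (nat_lit 15) (.e (nat_lit 360474) (nat_lit 8) (.e (nat_lit 557056) (nat_lit 0) .nil))) .nil)))) (.nd (nat_lit 4) (.nd (nat_lit 5) 
(.lf (nat_lit 158667) (.g (nat_lit 1693) (.e (nat_lit 57427) (nat_lit 15) (.e (nat_lit 360452) (nat_lit 0) (.e (nat_lit 7270) (nat_lit 385) (.e (nat_lit 122919) (nat_lit 15) .nil)))) .nil)) 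
(.lf (nat_lit 158699) (.g (nat_lit 2049) (.e (nat_lit 57427) (nat_lit 15) (.e (nat_lit 368384) (nat_lit 0) (.e (nat_lit 5905) (nat_lit 320) (.e (nat_lit 1219) (nat_lit 90) (.e (nat_lit 81957) (nat_lit 24) (.e (nat_lit 123198) (nat_lit 266) .nil)))))) (.g (nat_lit 5) .nil .nil)))) (.nd (nat_lit 5) 
(.lf (nat_lit 158683) (.g (nat_lit 2124) (.e (nat_lit 57427) (nat_lit 15) (.e (nat_lit 360454) (nat_lit 0) (.e (nat_lit 7270) (nat_lit 385) (.e (nat_lit 122919) (nat_lit 15) (.e (nat_lit 360450) (nat_lit 0) (.e (nat_lit 7263) (nat_lit 384) .nil)))))) (.g (nat_lit 4) .nil .nil))) 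
(.lf (nat_lit 158715) (.g (nat_lit 3925) (.e (nat_lit 57427) (nat_lit 15) (.e (nat_lit 360474) (nat_lit 8) (.e (nat_lit 557060) (nat_lit 0) (.e (nat_lit 1633) (nat_lit 114) (.e (nat_lit 385115) (nat_lit 53) (.e (nat_lit 811043) (nat_lit 12) (.e (nat_lit 8446) (nat_lit 140) .nil))))))) (.g (nat_lit 4) .nil .nil)))))) (.nd (nat_lit 3) (.nd (nat_lit 4) (.nd (nat_lit 5) 
(.lf (nat_lit 158663) (.g (nat_lit 1748) (.e (nat_lit 57427) (nat_lit 15) (.e (nat_lit 360452) (nat_lit 0) (.e (nat_lit 7270) (nat_lit 385) (.e (nat_lit 122917) (nat_lit 15) .nil)))) .nil)) 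
(.lf (nat_lit 158695) (.g (nat_lit 1526) (.e (nat_lit 57427) (nat_lit 15) (.e (nat_lit 360457) (nat_lit 0) (.e (nat_lit 5948) (nat_lit 322) (.e (nat_lit 57427) (nat_lit 15) (.e (nat_lit 360457) (nat_lit 0) .nil))))) .nil))) (.nd (nat_lit 5) 
(.lf (nat_lit 158679) (.g (nat_lit 1009) (.e (nat_lit 57427) (nat_lit 15) (.e (nat_lit 360452) (nat_lit 0) (.e (nat_lit 7273) (nat_lit 385) (.e (nat_lit 122919) (nat_lit 15) .nil)))) .nil)) 
(.lf (nat_lit 158711) (.g (nat_lit 4363) (.e (nat_lit 57427) (nat_lit 15) (.e (nat_lit 360474) (nat_lit 8) (.e (nat_lit 557059) (nat_lit 0) (.e (nat_lit 1633) (nat_lit 114) (.e (nat_lit 385107) (nat_lit 51) (.e (nat_lit 794659) (nat_lit 21) (.e (nat_lit 164398) (nat_lit 256) .nil))))))) (.g (nat_lit 5) .nil .nil))))) (.nd (nat_lit 4) (.nd (nat_lit 5) 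
(.lf (nat_lit 158671) (.g (nat_lit 643) (.e (nat_lit 57427) (nat_lit 15) (.e (nat_lit 360452) (nat_lit 0) (.e (nat_lit 7271) (nat_lit 385) .nil))) .nil)) 
(.lf (nat_lit 158703) (.g (nat_lit 516) (.e (nat_lit 57427) (nat_lit 15) (.e (nat_lit 360471) (nat_lit 7) (.e (nat_lit 548874) (nat_lit 5) .nil))) .nil))) (.nd (nat_lit 5) 
(.lf (nat_lit 158687) (.g (nat_lit 1623) (.e (nat_lit 57427) (nat_lit 15) (.e (nat_lit 360454) (nat_lit 0) (.e (nat_lit 7273) (nat_lit 385) (.e (nat_lit 122919) (nat_lit 15) (.e (nat_lit 360450) (nat_lit 0) (.e (nat_lit 7261) (nat_lit 384) .nil)))))) (.g (nat_lit 4) .nil .nil))) 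
(.lf (nat_lit 158719) (.g (nat_lit 763) (.e (nat_lit 57427) (nat_lit 15) (.e (nat_lit 360474) (nat_lit 8) (.e (nat_lit 557070) (nat_lit 9) .nil))) .nil))))))))

noncomputable def tv2126 : DT := (.nd (nat_lit 0) (.nd (nat_lit 1) (.nd (nat_lit 2) (.nd (nat_lit 3) (.nd (nat_lit 4) (.nd (nat_lit 5) (.nd (nat_lit 6) 
(.lf (nat_lit 158720) (.g (nat_lit 2115) (.e (nat_lit 57427) (nat_lit 15) (.e (nat_lit 360474) (nat_lit 8) (.e (nat_lit 557070) (nat_lit 9) (.e (nat_lit 313) (nat_lit 23) .nil)))) .nil)) 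
(.lf (nat_lit 158784) (.g (nat_lit 358) (.e (nat_lit 57427) (nat_lit 15) (.e (nat_lit 360484) (nat_lit 15) (.e (nat_lit 647196) (nat_lit 9) .nil))) .nil))) (.nd (nat_lit 6) 
(.lf (nat_lit 158752) (.g (nat_lit 1956) (.e (nat_lit 57427) (nat_lit 15) (.e (nat_lit 360475) (nat_lit 8) (.e (nat_lit 557068) (nat_lit 9) (.e (nat_lit 2715) (nat_lit 171) .nil)))) .nil)) 
(.lf (nat_lit 158816) (.g (nat_lit 1624) (.e (nat_lit 57427) (nat_lit 15) (.e (nat_lit 360491) (nat_lit 22) (.e (nat_lit 778466) (nat_lit 11) (.e (nat_lit 24639) (nat_lit 10) (.e (nat_lit 344096) (nat_lit 18) (.e (nat_lit 7263) (nat_lit 384) .nil)))))) (.g (nat_lit 4) .nil .nil))))) (.nd (nat_lit 5) (.nd (nat_lit 6) 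
(.lf (nat_lit 158736) (.g (nat_lit 1919) (.e (nat_lit 57427) (nat_lit 15) (.e (nat_lit 360474) (nat_lit 8) (.e (nat_lit 557093) (nat_lit 12) (.e (nat_lit 163857) (nat_lit 0) .nil)))) .nil)) 
(.lf (nat_lit 158800) (.g (nat_lit 2377) (.e (nat_lit 57427) (nat_lit 15) (.e (nat_lit 360491) (nat_lit 22) (.e (nat_lit 778464) (nat_lit 11) (.e (nat_lit 24640) (nat_lit 10) (.e (nat_lit 344096) (nat_lit 18) (.e (nat_lit 7263) (nat_lit 384) .nil)))))) (.g (nat_lit 5) .nil .nil)))) (.nd (nat_lit 6) 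
(.lf (nat_lit 158768) (.g (nat_lit 3812) (.e (nat_lit 57427) (nat_lit 15) (.e (nat_lit 360475) (nat_lit 8) (.e (nat_lit 557119) (nat_lit 18) (.e (nat_lit 2798) (nat_lit 180) (.e (nat_lit 303140) (nat_lit 10) (.e (nat_lit 434202) (nat_lit 18) (.e (nat_lit 6828) (nat_lit 367) .nil))))))) (.g (nat_lit 6) .nil .nil))) 
(.lf (nat_lit 158832) (.g (nat_lit 2872) (.e (nat_lit 57427) (nat_lit 15) (.e (nat_lit 360492) (nat_lit 22) (.e (nat_lit 778465) (nat_lit 11) (.e (nat_lit 24640) (nat_lit 10) (.e (nat_lit 344096) (nat_lit 18) (.e (nat_lit 7265) (nat_lit 384) .nil)))))) (.g (nat_lit 5) .nil .nil)))))) (.nd (nat_lit 4) (.nd (nat_lit 5) (.nd (nat_lit 6) 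
(.lf (nat_lit 158728) (.g (nat_lit 2048) (.e (nat_lit 57427) (nat_lit 15) (.e (nat_lit 360474) (nat_lit 8) (.e (nat_lit 557091) (nat_lit 12) (.e (nat_lit 163855) (nat_lit 0) .nil)))) .nil)) 
(.lf (nat_lit 158792) (.g (nat_lit 3171) (.e (nat_lit 57427) (nat_lit 15) (.e (nat_lit 360489) (nat_lit 21) (.e (nat_lit 770071) (nat_lit 8) (.e (nat_lit 65617) (nat_lit 10) (.e (nat_lit 344096) (nat_lit 18) (.e (nat_lit 7266) (nat_lit 384) .nil)))))) (.g (nat_lit 0) .nil .nil)))) (.nd (nat_lit 6) 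
(.lf (nat_lit 158760) (.g (nat_lit 1893) (.e (nat_lit 57427) (nat_lit 15) (.e (nat_lit 360475) (nat_lit 8) (.e (nat_lit 557091) (nat_lit 12) (.e (nat_lit 164003) (nat_lit 40) .nil)))) .nil)) 
(.lf (nat_lit 158824) (.g (nat_lit 1656) (.e (nat_lit 57427) (nat_lit 15) (.e (nat_lit 360492) (nat_lit 22) (.e (nat_lit 778465) (nat_lit 11) (.e (nat_lit 24639) (nat_lit 10) (.e (nat_lit 344095) (nat_lit 18) .nil))))) .nil)))) (.nd (nat_lit 5) (.nd (nat_lit 6) 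
(.lf (nat_lit 158744) (.g (nat_lit 808) (.e (nat_lit 57427) (nat_lit 15) (.e (nat_lit 360475) (nat_lit 8) (.e (nat_lit 557057) (nat_lit 0) .nil))) .nil)) 
(.lf (nat_lit 158808) (.g (nat_lit 2424) (.e (nat_lit 57427) (nat_lit 15) (.e (nat_lit 360491) (nat_lit 22) (.e (nat_lit 778465) (nat_lit 11) (.e (nat_lit 24640) (nat_lit 10) (.e (nat_lit 344094) (nat_lit 18) (.e (nat_lit 7263) (nat_lit 384) .nil)))))) (.g (nat_lit 5) .nil .nil)))) (.nd (nat_lit 6) 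
(.lf (nat_lit 158776) (.g (nat_lit 3834) (.e (nat_lit 57427) (nat_lit 15) (.e (nat_lit 360475) (nat_lit 8) (.e (nat_lit 557119) (nat_lit 18) (.e (nat_lit 2808) (nat_lit 180) (.e (nat_lit 303140) (nat_lit 10) (.e (nat_lit 434202) (nat_lit 18) (.e (nat_lit 6828) (nat_lit 367) .nil))))))) (.g (nat_lit 6) .nil .nil))) 
(.lf (nat_lit 158840) (.g (nat_lit 1507) (.e (nat_lit 57427) (nat_lit 15) (.e (nat_lit 360492) (nat_lit 22) (.e (nat_lit 778466) (nat_lit 11) (.e (nat_lit 24641) (nat_lit 10) (.e (nat_lit 344095) (nat_lit 18) .nil))))) .nil)))))) (.nd (nat_lit 3) (.nd (nat_lit 4) (.nd (nat_lit 5) (.nd (nat_lit 6) 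
(.lf (nat_lit 158724) (.g (nat_lit 1633) (.e (nat_lit 57427) (nat_lit 15) (.e (nat_lit 360474) (nat_lit 8) (.e (nat_lit 557073) (nat_lit 9) (.e (nat_lit 7936) (nat_lit 24) .nil)))) .nil)) 
(.lf (nat_lit 158788) (.g (nat_lit 442) (.e (nat_lit 57427) (nat_lit 15) (.e (nat_lit 360486) (nat_lit 18) (.e (nat_lit 671762) (nat_lit 4) .nil))) .nil))) (.nd (nat_lit 6) 
(.lf (nat_lit 158756) (.g (nat_lit 2352) (.e (nat_lit 57427) (nat_lit 15) (.e (nat_lit 360475) (nat_lit 8) (.e (nat_lit 557090) (nat_lit 12) (.e (nat_lit 164003) (nat_lit 40) .nil)))) .nil)) 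
(.lf (nat_lit 158820) (.g (nat_lit 2288) (.e (nat_lit 57427) (nat_lit 15) (.e (nat_lit 360491) (nat_lit 22) (.e (nat_lit 778466) (nat_lit 11) (.e (nat_lit 24641) (nat_lit 10) (.e (nat_lit 344091) (nat_lit 18) (.e (nat_lit 7263) (nat_lit 384) .nil)))))) (.g (nat_lit 5) .nil .nil))))) (.nd (nat_lit 5) (.nd (nat_lit 6) 
(.lf (nat_lit 158740) (.g (nat_lit 1010) (.e (nat_lit 57427) (nat_lit 15) (.e (nat_lit 360474) (nat_lit 8) (.e (nat_lit 557115) (nat_lit 18) .nil))) .nil)) 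
(.lf (nat_lit 158804) (.g (nat_lit 1754) (.e (nat_lit 57427) (nat_lit 15) (.e (nat_lit 360491) (nat_lit 22) (.e (nat_lit 778465) (nat_lit 11) (.e (nat_lit 24639) (nat_lit 10) (.e (nat_lit 344096) (nat_lit 18) (.e (nat_lit 7263) (nat_lit 384) .nil)))))) (.g (nat_lit 4) .nil .nil)))) (.nd (nat_lit 6) 
(.lf (nat_lit 158772) (.g (nat_lit 2946) (.e (nat_lit 57427) (nat_lit 15) (.e (nat_lit 360475) (nat_lit 8) (.e (nat_lit 557119) (nat_lit 18) (.e (nat_lit 2807) (nat_lit 180) (.e (nat_lit 303137) (nat_lit 10) (.e (nat_lit 434202) (nat_lit 18) (.e (nat_lit 6828) (nat_lit 367) .nil))))))) (.g (nat_lit 5) .nil .nil))) 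
(.lf (nat_lit 158836) (.g (nat_lit 2399) (.e (nat_lit 57427) (nat_lit 15) (.e (nat_lit 360492) (nat_lit 22) (.e (nat_lit 778466) (nat_lit 11) (.e (nat_lit 24640) (nat_lit 10) (.e (nat_lit 344094) (nat_lit 18) (.e (nat_lit 7261) (nat_lit 384) .nil)))))) (.g (nat_lit 4) .nil .nil)))))) (.nd (nat_lit 4) (.nd (nat_lit 5) (.nd (nat_lit 6) 
(.lf (nat_lit 158732) (.g (nat_lit 3703) (.e (nat_lit 57427) (nat_lit 15) (.e (nat_lit 360474) (nat_lit 8) (.e (nat_lit 557091) (nat_lit 12) (.e (nat_lit 164003) (nat_lit 40) (.e (nat_lit 655364) (nat_lit 0) (.e (nat_lit 2707) (nat_lit 170) (.e (nat_lit 221207) (nat_lit 21) (.e (nat_lit 164401) (nat_lit 256) .nil)))))))) (.g (nat_lit 5) .nil .nil))) 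
(.lf (nat_lit 158796) (.g (nat_lit 75) (.e (nat_lit 57427) (nat_lit 15) (.e (nat_lit 360490) (nat_lit 22) (.e (nat_lit 778314) (nat_lit 2) .nil))) .nil))) (.nd (nat_lit 6) 
(.lf (nat_lit 158764) (.g (nat_lit 2570) (.e (nat_lit 57427) (nat_lit 15) (.e (nat_lit 360475) (nat_lit 8) (.e (nat_lit 557119) (nat_lit 18) (.e (nat_lit 2797) (nat_lit 180) (.e (nat_lit 303135) (nat_lit 10) .nil))))) .nil)) 
(.lf (nat_lit 158828) (.g (nat_lit 2262) (.e (nat_lit 57427) (nat_lit 15) (.e (nat_lit 360492) (nat_lit 22) (.e (nat_lit 778465) (nat_lit 11) (.e (nat_lit 24640) (nat_lit 10) (.e (nat_lit 344091) (nat_lit 18) (.e (nat_lit 7266) (nat_lit 384) .nil)))))) (.g (nat_lit 4) .nil .nil))))) (.nd (nat_lit 5) (.nd (nat_lit 6) 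
(.lf (nat_lit 158748) (.g (nat_lit 1845) (.e (nat_lit 57427) (nat_lit 15) (.e (nat_lit 360475) (nat_lit 8) (.e (nat_lit 557065) (nat_lit 9) (.e (nat_lit 2717) (nat_lit 171) .nil)))) .nil)) 
(.lf (nat_lit 158812) (.g (nat_lit 1800) (.e (nat_lit 57427) (nat_lit 15) (.e (nat_lit 360491) (nat_lit 22) (.e (nat_lit 778465) (nat_lit 11) (.e (nat_lit 24665) (nat_lit 14) (.e (nat_lit 401420) (nat_lit 1) .nil))))) .nil))) (.nd (nat_lit 6) 
(.lf (nat_lit 158780) (.g (nat_lit 1655) (.e (nat_lit 57427) (nat_lit 15) (.e (nat_lit 360480) (nat_lit 14) (.e (nat_lit 639001) (nat_lit 10) (.e (nat_lit 188446) (nat_lit 21) (.e (nat_lit 164319) (nat_lit 228) .nil))))) (.g (nat_lit 0) .nil .nil))) 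
(.lf (nat_lit 158844) (.g (nat_lit 1377) (.e (nat_lit 57428) (nat_lit 15) (.e (nat_lit 360449) (nat_lit 0) (.e (nat_lit 7124) (nat_lit 382) (.e (nat_lit 1201) (nat_lit 88) (.e (nat_lit 65617) (nat_lit 10) .nil))))) .nil))))))) (.nd (nat_lit 2) (.nd (nat_lit 3) (.nd (nat_lit 4) (.nd (nat_lit 5) (.nd (nat_lit 6) 
(.lf (nat_lit 158722) (.g (nat_lit 1877) (.e (nat_lit 57427) (nat_lit 15) (.e (nat_lit 360474) (nat_lit 8) (.e (nat_lit 557072) (nat_lit 9) (.e (nat_lit 290) (nat_lit 21) .nil)))) .nil)) 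
(.lf (nat_lit 158786) (.g (nat_lit 2191) (.e (nat_lit 57427) (nat_lit 15) (.e (nat_lit 360486) (nat_lit 18) (.e (nat_lit 671748) (nat_lit 0) (.e (nat_lit 1589) (nat_lit 111) (.e (nat_lit 360457) (nat_lit 0) (.e (nat_lit 5948) (nat_lit 322) .nil)))))) (.g (nat_lit 4) .nil .nil)))) (.nd (nat_lit 6) 
(.lf (nat_lit 158754) (.g (nat_lit 1789) (.e (nat_lit 57427) (nat_lit 15) (.e (nat_lit 360475) (nat_lit 8) (.e (nat_lit 557087) (nat_lit 11) (.e (nat_lit 24651) (nat_lit 12) .nil)))) .nil)) 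
(.lf (nat_lit 158818) (.g (nat_lit 2557) (.e (nat_lit 57427) (nat_lit 15) (.e (nat_lit 360491) (nat_lit 22) (.e (nat_lit 778466) (nat_lit 11) (.e (nat_lit 24640) (nat_lit 10) (.e (nat_lit 344091) (nat_lit 18) (.e (nat_lit 7263) (nat_lit 384) .nil)))))) (.g (nat_lit 5) .nil .nil))))) (.nd (nat_lit 5) (.nd (nat_lit 6) 
(.lf (nat_lit 158738) (.g (nat_lit 1749) (.e (nat_lit 57427) (nat_lit 15) (.e (nat_lit 360474) (nat_lit 8) (.e (nat_lit 557094) (nat_lit 12) (.e (nat_lit 163855) (nat_lit 0) .nil)))) .nil)) 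
(.lf (nat_lit 158802) (.g (nat_lit 1761) (.e (nat_lit 57427) (nat_lit 15) (.e (nat_lit 360491) (nat_lit 22) (.e (nat_lit 778465) (nat_lit 11) (.e (nat_lit 24639) (nat_lit 10) (.e (nat_lit 344091) (nat_lit 18) (.e (nat_lit 7266) (nat_lit 384) .nil)))))) (.g (nat_lit 4) .nil .nil)))) (.nd (nat_lit 6) 
(.lf (nat_lit 158770) (.g (nat_lit 2400) (.e (nat_lit 57427) (nat_lit 15) (.e (nat_lit 360475) (nat_lit 8) (.e (nat_lit 557119) (nat_lit 18) (.e (nat_lit 2798) (nat_lit 180) (.e (nat_lit 303143) (nat_lit 12) (.e (nat_lit 475159) (nat_lit 21) (.e (nat_lit 7936) (nat_lit 271) .nil))))))) (.g (nat_lit 4) .nil .nil))) 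
(.lf (nat_lit 158834) (.g (nat_lit 1833) (.e (nat_lit 57427) (nat_lit 15) (.e (nat_lit 360492) (nat_lit 22) (.e (nat_lit 778466) (nat_lit 11) (.e (nat_lit 24640) (nat_lit 10) (.e (nat_lit 344090) (nat_lit 18) (.e (nat_lit 7263) (nat_lit 384) .nil)))))) (.g (nat_lit 4) .nil .nil)))))) (.nd (nat_lit 4) (.nd (nat_lit 5) (.nd (nat_lit 6) 
(.lf (nat_lit 158730) (.g (nat_lit 1022) (.e (nat_lit 57427) (nat_lit 15) (.e (nat_lit 360474) (nat_lit 8) (.e (nat_lit 557091) (nat_lit 12) (.e (nat_lit 164002) (nat_lit 40) .nil)))) .nil)) 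
(.lf (nat_lit 158794) (.g (nat_lit 3090) (.e (nat_lit 57427) (nat_lit 15) (.e (nat_lit 360489) (nat_lit 21) (.e (nat_lit 770072) (nat_lit 8) (.e (nat_lit 65617) (nat_lit 10) (.e (nat_lit 344096) (nat_lit 18) (.e (nat_lit 7266) (nat_lit 384) .nil)))))) (.g (nat_lit 0) .nil .nil)))) (.nd (nat_lit 6) 
(.lf (nat_lit 158762) (.g (nat_lit 1710) (.e (nat_lit 57427) (nat_lit 15) (.e (nat_lit 360475) (nat_lit 8) (.e (nat_lit 557119) (nat_lit 18) (.e (nat_lit 2796) (nat_lit 180) .nil)))) .nil)) 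
(.lf (nat_lit 158826) (.g (nat_lit 2027) (.e (nat_lit 57427) (nat_lit 15) (.e (nat_lit 360492) (nat_lit 22) (.e (nat_lit 778465) (nat_lit 11) (.e (nat_lit 24640) (nat_lit 10) (.e (nat_lit 344090) (nat_lit 18) (.e (nat_lit 7261) (nat_lit 384) .nil)))))) (.g (nat_lit 4) .nil .nil))))) (.nd (nat_lit 5) (.nd (nat_lit 6) 
(.lf (nat_lit 158746) (.g (nat_lit 2072) (.e (nat_lit 57427) (nat_lit 15) (.e (nat_lit 360475) (nat_lit 8) (.e (nat_lit 557057) (nat_lit 0) (.e (nat_lit 1638) (nat_lit 114) (.e (nat_lit 385107) (nat_lit 51) .nil))))) .nil)) 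
(.lf (nat_lit 158810) (.g (nat_lit 2632) (.e (nat_lit 57427) (nat_lit 15) (.e (nat_lit 360491) (nat_lit 22) (.e (nat_lit 778465) (nat_lit 11) (.e (nat_lit 24640) (nat_lit 10) (.e (nat_lit 344096) (nat_lit 18) (.e (nat_lit 7263) (nat_lit 384) .nil)))))) (.g (nat_lit 5) .nil .nil)))) (.nd (nat_lit 6) 
(.lf (nat_lit 158778) (.g (nat_lit 2473) (.e (nat_lit 57427) (nat_lit 15) (.e (nat_lit 360477) (nat_lit 11) (.e (nat_lit 581651) (nat_lit 4) (.e (nat_lit 172115) (nat_lit 10) (.e (nat_lit 434202) (nat_lit 18) (.e (nat_lit 6828) (nat_lit 367) .nil)))))) (.g (nat_lit 5) .nil .nil))) 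
(.lf (nat_lit 158842) (.g (nat_lit 1768) (.e (nat_lit 57427) (nat_lit 15) (.e (nat_lit 360492) (nat_lit 22) (.e (nat_lit 778466) (nat_lit 11) (.e (nat_lit 24641) (nat_lit 10) (.e (nat_lit 344096) (nat_lit 18) (.e (nat_lit 7261) (nat_lit 384) .nil)))))) (.g (nat_lit 4) .nil .nil))))))) (.nd (nat_lit 3) (.nd (nat_lit 4) (.nd (nat_lit 5) (.nd (nat_lit 6) 
(.lf (nat_lit 158726) (.g (nat_lit 1189) (.e (nat_lit 57427) (nat_lit 15) (.e (nat_lit 360474) (nat_lit 8) (.e (nat_lit 557074) (nat_lit 9) .nil))) .nil)) 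
(.lf (nat_lit 158790) (.g (nat_lit 1590) (.e (nat_lit 57427) (nat_lit 15) (.e (nat_lit 360486) (nat_lit 18) (.e (nat_lit 671762) (nat_lit 4) (.e (nat_lit 65605) (nat_lit 9) .nil)))) .nil))) (.nd (nat_lit 6) 
(.lf (nat_lit 158758) (.g (nat_lit 2049) (.e (nat_lit 57427) (nat_lit 15) (.e (nat_lit 360475) (nat_lit 8) (.e (nat_lit 557091) (nat_lit 12) (.e (nat_lit 163855) (nat_lit 0) .nil)))) .nil)) 
(.lf (nat_lit 158822) (.g (nat_lit 1707) (.e (nat_lit 57427) (nat_lit 15) (.e (nat_lit 360492) (nat_lit 22) (.e (nat_lit 778464) (nat_lit 11) (.e (nat_lit 24640) (nat_lit 10) (.e (nat_lit 344091) (nat_lit 18) .nil))))) .nil)))) (.nd (nat_lit 5) (.nd (nat_lit 6) 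
(.lf (nat_lit 158742) (.g (nat_lit 984) (.e (nat_lit 57427) (nat_lit 15) (.e (nat_lit 360474) (nat_lit 8) (.e (nat_lit 557119) (nat_lit 18) .nil))) .nil)) 
(.lf (nat_lit 158806) (.g (nat_lit 1957) (.e (nat_lit 57427) (nat_lit 15) (.e (nat_lit 360491) (nat_lit 22) (.e (nat_lit 778465) (nat_lit 11) (.e (nat_lit 24640) (nat_lit 10) (.e (nat_lit 344091) (nat_lit 18) (.e (nat_lit 7263) (nat_lit 384) .nil)))))) (.g (nat_lit 4) .nil .nil)))) (.nd (nat_lit 6) 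
(.lf (nat_lit 158774) (.g (nat_lit 2766) (.e (nat_lit 57427) (nat_lit 15) (.e (nat_lit 360475) (nat_lit 8) (.e (nat_lit 557119) (nat_lit 18) (.e (nat_lit 2807) (nat_lit 180) (.e (nat_lit 303140) (nat_lit 10) .nil))))) .nil)) 
(.lf (nat_lit 158838) (.g (nat_lit 2632) (.e (nat_lit 57427) (nat_lit 15) (.e (nat_lit 360492) (nat_lit 22) (.e (nat_lit 778466) (nat_lit 11) (.e (nat_lit 24640) (nat_lit 10) (.e (nat_lit 344094) (nat_lit 18) (.e (nat_lit 7266) (nat_lit 384) .nil)))))) (.g (nat_lit 4) .nil .nil)))))) (.nd (nat_lit 4) (.nd (nat_lit 5) (.nd (nat_lit 6) 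
(.lf (nat_lit 158734) (.g (nat_lit 3030) (.e (nat_lit 57427) (nat_lit 15) (.e (nat_lit 360474) (nat_lit 8) (.e (nat_lit 557091) (nat_lit 12) (.e (nat_lit 164003) (nat_lit 40) (.e (nat_lit 655373) (nat_lit 3) (.e (nat_lit 164059) (nat_lit 57) (.e (nat_lit 794659) (nat_lit 21) (.e (nat_lit 164398) (nat_lit 256) .nil)))))))) (.g (nat_lit 4) .nil .nil))) 
(.lf (nat_lit 158798) (.g (nat_lit 1837) (.e (nat_lit 57427) (nat_lit 15) (.e (nat_lit 360491) (nat_lit 22) (.e (nat_lit 778464) (nat_lit 11) (.e (nat_lit 24640) (nat_lit 10) (.e (nat_lit 344094) (nat_lit 18) (.e (nat_lit 7263) (nat_lit 384) .nil)))))) (.g (nat_lit 4) .nil .nil)))) (.nd (nat_lit 6) 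
(.lf (nat_lit 158766) (.g (nat_lit 2209) (.e (nat_lit 57427) (nat_lit 15) (.e (nat_lit 360475) (nat_lit 8) (.e (nat_lit 557119) (nat_lit 18) (.e (nat_lit 2797) (nat_lit 180) (.e (nat_lit 303140) (nat_lit 10) .nil))))) .nil)) 
(.lf (nat_lit 158830) (.g (nat_lit 2205) (.e (nat_lit 57427) (nat_lit 15) (.e (nat_lit 360492) (nat_lit 22) (.e (nat_lit 778465) (nat_lit 11) (.e (nat_lit 24640) (nat_lit 10) (.e (nat_lit 344094) (nat_lit 18) (.e (nat_lit 7266) (nat_lit 384) .nil)))))) (.g (nat_lit 4) .nil .nil))))) (.nd (nat_lit 5) (.nd (nat_lit 6) 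
(.lf (nat_lit 158750) (.g (nat_lit 2444) (.e (nat_lit 57427) (nat_lit 15) (.e (nat_lit 360475) (nat_lit 8) (.e (nat_lit 557067) (nat_lit 9) (.e (nat_lit 2715) (nat_lit 171) .nil)))) .nil)) 
(.lf (nat_lit 158814) (.g (nat_lit 1945) (.e (nat_lit 57427) (nat_lit 15) (.e (nat_lit 360491) (nat_lit 22) (.e (nat_lit 778466) (nat_lit 11) (.e (nat_lit 24639) (nat_lit 10) (.e (nat_lit 344095) (nat_lit 18) (.e (nat_lit 7263) (nat_lit 384) .nil)))))) (.g (nat_lit 5) .nil .nil)))) (.nd (nat_lit 6) 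
(.lf (nat_lit 158782) (.g (nat_lit 866) (.e (nat_lit 57427) (nat_lit 15) (.e (nat_lit 360484) (nat_lit 15) (.e (nat_lit 647190) (nat_lit 9) (.e (nat_lit 7936) (nat_lit 35) .nil)))) .nil)) 
(.lf (nat_lit 158846) (.g (nat_lit 443) (.e (nat_lit 57428) (nat_lit 15) (.e (nat_lit 360449) (nat_lit 0) (.e (nat_lit 7261) (nat_lit 384) .nil))) .nil)))))))) (.nd (nat_lit 1) (.nd (nat_lit 2) (.nd (nat_lit 3) (.nd (nat_lit 4) (.nd (nat_lit 5) (.nd (nat_lit 6) 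
(.lf (nat_lit 158721) (.g (nat_lit 2149) (.e (nat_lit 57427) (nat_lit 15) (.e (nat_lit 360474) (nat_lit 8) (.e (nat_lit 557070) (nat_lit 9) (.e (nat_lit 7936) (nat_lit 24) .nil)))) .nil)) 
(.lf (nat_lit 158785) (.g (nat_lit 485) (.e (nat_lit 57427) (nat_lit 15) (.e (nat_lit 360486) (nat_lit 18) (.e (nat_lit 671745) (nat_lit 0) .nil))) .nil))) (.nd (nat_lit 6) 
(.lf (nat_lit 158753) (.g (nat_lit 2037) (.e (nat_lit 57427) (nat_lit 15) (.e (nat_lit 360475) (nat_lit 8) (.e (nat_lit 557087) (nat_lit 11) (.e (nat_lit 24647) (nat_lit 12) .nil)))) .nil)) 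
(.lf (nat_lit 158817) (.g (nat_lit 2348) (.e (nat_lit 57427) (nat_lit 15) (.e (nat_lit 360491) (nat_lit 22) (.e (nat_lit 778466) (nat_lit 11) (.e (nat_lit 24640) (nat_lit 10) (.e (nat_lit 344088) (nat_lit 18) (.e (nat_lit 7264) (nat_lit 384) .nil)))))) (.g (nat_lit 5) .nil .nil))))) (.nd (nat_lit 5) (.nd (nat_lit 6) 
(.lf (nat_lit 158737) (.g (nat_lit 3109) (.e (nat_lit 57427) (nat_lit 15) (.e (nat_lit 360474) (nat_lit 8) (.e (nat_lit 557093) (nat_lit 12) (.e (nat_lit 164022) (nat_lit 46) (.e (nat_lit 704738) (nat_lit 11) (.e (nat_lit 16392) (nat_lit 0) (.e (nat_lit 2397) (nat_lit 157) (.e (nat_lit 3902) (nat_lit 235) .nil)))))))) (.g (nat_lit 4) .nil .nil))) 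
(.lf (nat_lit 158801) (.g (nat_lit 1785) (.e (nat_lit 57427) (nat_lit 15) (.e (nat_lit 360491) (nat_lit 22) (.e (nat_lit 778465) (nat_lit 11) (.e (nat_lit 24639) (nat_lit 10) (.e (nat_lit 344091) (nat_lit 18) (.e (nat_lit 7265) (nat_lit 384) .nil)))))) (.g (nat_lit 4) .nil .nil)))) (.nd (nat_lit 6) 
(.lf (nat_lit 158769) (.g (nat_lit 2053) (.e (nat_lit 57427) (nat_lit 15) (.e (nat_lit 360475) (nat_lit 8) (.e (nat_lit 557119) (nat_lit 18) (.e (nat_lit 2798) (nat_lit 180) (.e (nat_lit 303143) (nat_lit 12) .nil))))) .nil)) 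
(.lf (nat_lit 158833) (.g (nat_lit 1564) (.e (nat_lit 57427) (nat_lit 15) (.e (nat_lit 360492) (nat_lit 22) (.e (nat_lit 778466) (nat_lit 11) (.e (nat_lit 24639) (nat_lit 10) (.e (nat_lit 344095) (nat_lit 18) (.e (nat_lit 7261) (nat_lit 384) .nil)))))) (.g (nat_lit 4) .nil .nil)))))) (.nd (nat_lit 4) (.nd (nat_lit 5) (.nd (nat_lit 6) 
(.lf (nat_lit 158729) (.g (nat_lit 2917) (.e (nat_lit 57427) (nat_lit 15) (.e (nat_lit 360474) (nat_lit 8) (.e (nat_lit 557091) (nat_lit 12) (.e (nat_lit 163999) (nat_lit 38) (.e (nat_lit 639020) (nat_lit 16) (.e (nat_lit 65574) (nat_lit 4) (.e (nat_lit 130816) (nat_lit 160) .nil))))))) (.g (nat_lit 5) .nil .nil))) 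
(.lf (nat_lit 158793) (.g (nat_lit 2575) (.e (nat_lit 57427) (nat_lit 15) (.e (nat_lit 360489) (nat_lit 21) (.e (nat_lit 770072) (nat_lit 8) (.e (nat_lit 65617) (nat_lit 10) (.e (nat_lit 344091) (nat_lit 18) (.e (nat_lit 7261) (nat_lit 384) .nil)))))) (.g (nat_lit 0) .nil .nil)))) (.nd (nat_lit 6) 
(.lf (nat_lit 158761) (.g (nat_lit 1200) (.e (nat_lit 57427) (nat_lit 15) (.e (nat_lit 360475) (nat_lit 8) (.e (nat_lit 557118) (nat_lit 18) .nil))) .nil)) 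
(.lf (nat_lit 158825) (.g (nat_lit 1920) (.e (nat_lit 57427) (nat_lit 15) (.e (nat_lit 360492) (nat_lit 22) (.e (nat_lit 778465) (nat_lit 11) (.e (nat_lit 24639) (nat_lit 10) (.e (nat_lit 344095) (nat_lit 18) (.e (nat_lit 7261) (nat_lit 384) .nil)))))) (.g (nat_lit 4) .nil .nil))))) (.nd (nat_lit 5) (.nd (nat_lit 6) 
(.lf (nat_lit 158745) (.g (nat_lit 2312) (.e (nat_lit 57427) (nat_lit 15) (.e (nat_lit 360475) (nat_lit 8) (.e (nat_lit 557057) (nat_lit 0) (.e (nat_lit 1427) (nat_lit 108) (.e (nat_lit 336336) (nat_lit 20) .nil))))) .nil)) 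
(.lf (nat_lit 158809) (.g (nat_lit 2199) (.e (nat_lit 57427) (nat_lit 15) (.e (nat_lit 360491) (nat_lit 22) (.e (nat_lit 778465) (nat_lit 11) (.e (nat_lit 24640) (nat_lit 10) (.e (nat_lit 344095) (nat_lit 18) (.e (nat_lit 7263) (nat_lit 384) .nil)))))) (.g (nat_lit 5) .nil .nil)))) (.nd (nat_lit 6) 
(.lf (nat_lit 158777) (.g (nat_lit 1749) (.e (nat_lit 57427) (nat_lit 15) (.e (nat_lit 360477) (nat_lit 11) (.e (nat_lit 581651) (nat_lit 4) (.e (nat_lit 172106) (nat_lit 10) (.e (nat_lit 434202) (nat_lit 18) (.e (nat_lit 6828) (nat_lit 367) .nil)))))) (.g (nat_lit 4) .nil .nil))) 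
(.lf (nat_lit 158841) (.g (nat_lit 1796) (.e (nat_lit 57427) (nat_lit 15) (.e (nat_lit 360492) (nat_lit 22) (.e (nat_lit 778466) (nat_lit 11) (.e (nat_lit 24641) (nat_lit 10) (.e (nat_lit 344095) (nat_lit 18) (.e (nat_lit 7261) (nat_lit 384) .nil)))))) (.g (nat_lit 4) .nil .nil))))))) (.nd (nat_lit 3) (.nd (nat_lit 4) (.nd (nat_lit 5) (.nd (nat_lit 6) 
(.lf (nat_lit 158725) (.g (nat_lit 1846) (.e (nat_lit 57427) (nat_lit 15) (.e (nat_lit 360474) (nat_lit 8) (.e (nat_lit 557073) (nat_lit 9) (.e (nat_lit 2715) (nat_lit 171) .nil)))) .nil)) 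
(.lf (nat_lit 158789) (.g (nat_lit 1454) (.e (nat_lit 57427) (nat_lit 15) (.e (nat_lit 360486) (nat_lit 18) (.e (nat_lit 671762) (nat_lit 4) (.e (nat_lit 65598) (nat_lit 9) .nil)))) .nil))) (.nd (nat_lit 6) 
(.lf (nat_lit 158757) (.g (nat_lit 2163) (.e (nat_lit 57427) (nat_lit 15) (.e (nat_lit 360475) (nat_lit 8) (.e (nat_lit 557090) (nat_lit 12) (.e (nat_lit 164020) (nat_lit 45) (.e (nat_lit 696344) (nat_lit 8) .nil))))) .nil)) 
(.lf (nat_lit 158821) (.g (nat_lit 1781) (.e (nat_lit 57427) (nat_lit 15) (.e (nat_lit 360492) (nat_lit 22) (.e (nat_lit 778464) (nat_lit 11) (.e (nat_lit 24640) (nat_lit 10) (.e (nat_lit 344090) (nat_lit 18) (.e (nat_lit 7265) (nat_lit 384) .nil)))))) (.g (nat_lit 4) .nil .nil))))) (.nd (nat_lit 5) (.nd (nat_lit 6) 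
(.lf (nat_lit 158741) (.g (nat_lit 1064) (.e (nat_lit 57427) (nat_lit 15) (.e (nat_lit 360474) (nat_lit 8) (.e (nat_lit 557118) (nat_lit 18) (.e (nat_lit 2807) (nat_lit 180) .nil)))) .nil)) 
(.lf (nat_lit 158805) (.g (nat_lit 1638) (.e (nat_lit 57427) (nat_lit 15) (.e (nat_lit 360491) (nat_lit 22) (.e (nat_lit 778465) (nat_lit 11) (.e (nat_lit 24640) (nat_lit 10) (.e (nat_lit 344088) (nat_lit 18) (.e (nat_lit 7263) (nat_lit 384) .nil)))))) (.g (nat_lit 4) .nil .nil)))) (.nd (nat_lit 6) 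
(.lf (nat_lit 158773) (.g (nat_lit 2243) (.e (nat_lit 57427) (nat_lit 15) (.e (nat_lit 360475) (nat_lit 8) (.e (nat_lit 557119) (nat_lit 18) (.e (nat_lit 2807) (nat_lit 180) (.e (nat_lit 303138) (nat_lit 10) .nil))))) .nil)) 
(.lf (nat_lit 158837) (.g (nat_lit 2320) (.e (nat_lit 57427) (nat_lit 15) (.e (nat_lit 360492) (nat_lit 22) (.e (nat_lit 778466) (nat_lit 11) (.e (nat_lit 24640) (nat_lit 10) (.e (nat_lit 344094) (nat_lit 18) (.e (nat_lit 7263) (nat_lit 384) .nil)))))) (.g (nat_lit 4) .nil .nil)))))) (.nd (nat_lit 4) (.nd (nat_lit 5) (.nd (nat_lit 6) 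
(.lf (nat_lit 158733) (.g (nat_lit 3050) (.e (nat_lit 57427) (nat_lit 15) (.e (nat_lit 360474) (nat_lit 8) (.e (nat_lit 557091) (nat_lit 12) (.e (nat_lit 164003) (nat_lit 40) (.e (nat_lit 655364) (nat_lit 0) (.e (nat_lit 2707) (nat_lit 170) (.e (nat_lit 221221) (nat_lit 26) (.e (nat_lit 229708) (nat_lit 256) .nil)))))))) (.g (nat_lit 4) .nil .nil))) 
(.lf (nat_lit 158797) (.g (nat_lit 2066) (.e (nat_lit 57427) (nat_lit 15) (.e (nat_lit 360491) (nat_lit 22) (.e (nat_lit 778464) (nat_lit 11) (.e (nat_lit 24640) (nat_lit 10) (.e (nat_lit 344090) (nat_lit 18) (.e (nat_lit 7263) (nat_lit 384) .nil)))))) (.g (nat_lit 5) .nil .nil)))) (.nd (nat_lit 6) 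
(.lf (nat_lit 158765) (.g (nat_lit 2796) (.e (nat_lit 57427) (nat_lit 15) (.e (nat_lit 360475) (nat_lit 8) (.e (nat_lit 557119) (nat_lit 18) (.e (nat_lit 2797) (nat_lit 180) (.e (nat_lit 303135) (nat_lit 10) (.e (nat_lit 434208) (nat_lit 18) (.e (nat_lit 6830) (nat_lit 367) .nil))))))) (.g (nat_lit 4) .nil .nil))) 
(.lf (nat_lit 158829) (.g (nat_lit 2100) (.e (nat_lit 57427) (nat_lit 15) (.e (nat_lit 360492) (nat_lit 22) (.e (nat_lit 778465) (nat_lit 11) (.e (nat_lit 24640) (nat_lit 10) (.e (nat_lit 344094) (nat_lit 18) .nil))))) .nil)))) (.nd (nat_lit 5) (.nd (nat_lit 6) 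
(.lf (nat_lit 158749) (.g (nat_lit 774) (.e (nat_lit 57427) (nat_lit 15) (.e (nat_lit 360475) (nat_lit 8) (.e (nat_lit 557066) (nat_lit 9) .nil))) .nil)) 
(.lf (nat_lit 158813) (.g (nat_lit 1360) (.e (nat_lit 57427) (nat_lit 15) (.e (nat_lit 360491) (nat_lit 22) (.e (nat_lit 778466) (nat_lit 11) (.e (nat_lit 24639) (nat_lit 10) (.e (nat_lit 344091) (nat_lit 18) .nil))))) .nil))) (.nd (nat_lit 6) 
(.lf (nat_lit 158781) (.g (nat_lit 359) (.e (nat_lit 57427) (nat_lit 15) (.e (nat_lit 360484) (nat_lit 15) (.e (nat_lit 647190) (nat_lit 9) .nil))) .nil)) 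
(.lf (nat_lit 158845) (.g (nat_lit 1920) (.e (nat_lit 57428) (nat_lit 15) (.e (nat_lit 360449) (nat_lit 0) (.e (nat_lit 7125) (nat_lit 382) (.e (nat_lit 1201) (nat_lit 88) (.e (nat_lit 65617) (nat_lit 10) .nil))))) .nil))))))) (.nd (nat_lit 2) (.nd (nat_lit 3) (.nd (nat_lit 4) (.nd (nat_lit 5) (.nd (nat_lit 6) 
(.lf (nat_lit 158723) (.g (nat_lit 2058) (.e (nat_lit 57427) (nat_lit 15) (.e (nat_lit 360474) (nat_lit 8) (.e (nat_lit 557072) (nat_lit 9) (.e (nat_lit 2717) (nat_lit 171) .nil)))) .nil)) 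
(.lf (nat_lit 158787) (.g (nat_lit 2061) (.e (nat_lit 57427) (nat_lit 15) (.e (nat_lit 360486) (nat_lit 18) (.e (nat_lit 671748) (nat_lit 0) (.e (nat_lit 1589) (nat_lit 111) (.e (nat_lit 360457) (nat_lit 0) (.e (nat_lit 5949) (nat_lit 322) .nil)))))) (.g (nat_lit 4) .nil .nil)))) (.nd (nat_lit 6) 
(.lf (nat_lit 158755) (.g (nat_lit 2692) (.e (nat_lit 57427) (nat_lit 15) (.e (nat_lit 360475) (nat_lit 8) (.e (nat_lit 557090) (nat_lit 12) (.e (nat_lit 163856) (nat_lit 0) .nil)))) .nil)) 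
(.lf (nat_lit 158819) (.g (nat_lit 2826) (.e (nat_lit 57427) (nat_lit 15) (.e (nat_lit 360491) (nat_lit 22) (.e (nat_lit 778466) (nat_lit 11) (.e (nat_lit 24640) (nat_lit 10) (.e (nat_lit 344096) (nat_lit 18) (.e (nat_lit 7263) (nat_lit 384) .nil)))))) (.g (nat_lit 5) .nil .nil))))) (.nd (nat_lit 5) (.nd (nat_lit 6) 
(.lf (nat_lit 158739) (.g (nat_lit 2528) (.e (nat_lit 57427) (nat_lit 15) (.e (nat_lit 360474) (nat_lit 8) (.e (nat_lit 557094) (nat_lit 12) (.e (nat_lit 164022) (nat_lit 46) (.e (nat_lit 704738) (nat_lit 11) (.e (nat_lit 16392) (nat_lit 0) (.e (nat_lit 2397) (nat_lit 157) (.e (nat_lit 3902) (nat_lit 235) .nil)))))))) (.g (nat_lit 4) .nil .nil))) 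
(.lf (nat_lit 158803) (.g (nat_lit 2231) (.e (nat_lit 57427) (nat_lit 15) (.e (nat_lit 360491) (nat_lit 22) (.e (nat_lit 778465) (nat_lit 11) (.e (nat_lit 24639) (nat_lit 10) (.e (nat_lit 344096) (nat_lit 18) (.e (nat_lit 7261) (nat_lit 384) .nil)))))) (.g (nat_lit 5) .nil .nil)))) (.nd (nat_lit 6) 
(.lf (nat_lit 158771) (.g (nat_lit 1357) (.e (nat_lit 57427) (nat_lit 15) (.e (nat_lit 360475) (nat_lit 8) (.e (nat_lit 557119) (nat_lit 18) (.e (nat_lit 2807) (nat_lit 180) .nil)))) .nil)) 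
(.lf (nat_lit 158835) (.g (nat_lit 2366) (.e (nat_lit 57427) (nat_lit 15) (.e (nat_lit 360492) (nat_lit 22) (.e (nat_lit 778466) (nat_lit 11) (.e (nat_lit 24640) (nat_lit 10) (.e (nat_lit 344091) (nat_lit 18) (.e (nat_lit 7261) (nat_lit 384) .nil)))))) (.g (nat_lit 4) .nil .nil)))))) (.nd (nat_lit 4) (.nd (nat_lit 5) (.nd (nat_lit 6) 
(.lf (nat_lit 158731) (.g (nat_lit 964) (.e (nat_lit 57427) (nat_lit 15) (.e (nat_lit 360474) (nat_lit 8) (.e (nat_lit 557091) (nat_lit 12) (.e (nat_lit 164003) (nat_lit 40) .nil)))) .nil)) 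
(.lf (nat_lit 158795) (.g (nat_lit 1476) (.e (nat_lit 57427) (nat_lit 15) (.e (nat_lit 360489) (nat_lit 21) (.e (nat_lit 770074) (nat_lit 10) (.e (nat_lit 81959) (nat_lit 24) (.e (nat_lit 130816) (nat_lit 154) .nil))))) (.g (nat_lit 4) .nil .nil)))) (.nd (nat_lit 6) 
(.lf (nat_lit 158763) (.g (nat_lit 1404) (.e (nat_lit 57427) (nat_lit 15) (.e (nat_lit 360475) (nat_lit 8) (.e (nat_lit 557119) (nat_lit 18) (.e (nat_lit 2797) (nat_lit 180) .nil)))) .nil)) 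
(.lf (nat_lit 158827) (.g (nat_lit 2092) (.e (nat_lit 57427) (nat_lit 15) (.e (nat_lit 360492) (nat_lit 22) (.e (nat_lit 778465) (nat_lit 11) (.e (nat_lit 24640) (nat_lit 10) (.e (nat_lit 344091) (nat_lit 18) .nil))))) .nil)))) (.nd (nat_lit 5) (.nd (nat_lit 6) 
(.lf (nat_lit 158747) (.g (nat_lit 1014) (.e (nat_lit 57427) (nat_lit 15) (.e (nat_lit 360475) (nat_lit 8) (.e (nat_lit 557065) (nat_lit 9) .nil))) .nil)) 
(.lf (nat_lit 158811) (.g (nat_lit 1294) (.e (nat_lit 57427) (nat_lit 15) (.e (nat_lit 360491) (nat_lit 22) (.e (nat_lit 778465) (nat_lit 11) (.e (nat_lit 24641) (nat_lit 10) (.e (nat_lit 344091) (nat_lit 18) .nil))))) .nil))) (.nd (nat_lit 6) 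
(.lf (nat_lit 158779) (.g (nat_lit 1421) (.e (nat_lit 57427) (nat_lit 15) (.e (nat_lit 360479) (nat_lit 13) (.e (nat_lit 630804) (nat_lit 10) (.e (nat_lit 188446) (nat_lit 21) (.e (nat_lit 164319) (nat_lit 228) .nil))))) (.g (nat_lit 0) .nil .nil))) 
(.lf (nat_lit 158843) (.g (nat_lit 1524) (.e (nat_lit 57428) (nat_lit 15) (.e (nat_lit 360449) (nat_lit 0) (.e (nat_lit 7122) (nat_lit 382) (.e (nat_lit 1201) (nat_lit 88) (.e (nat_lit 65617) (nat_lit 10) .nil))))) .nil)))))) (.nd (nat_lit 3) (.nd (nat_lit 4) (.nd (nat_lit 5) (.nd (nat_lit 6) 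
(.lf (nat_lit 158727) (.g (nat_lit 1881) (.e (nat_lit 57427) (nat_lit 15) (.e (nat_lit 360474) (nat_lit 8) (.e (nat_lit 557085) (nat_lit 11) (.e (nat_lit 24651) (nat_lit 12) .nil)))) .nil)) 
(.lf (nat_lit 158791) (.g (nat_lit 3011) (.e (nat_lit 57427) (nat_lit 15) (.e (nat_lit 360489) (nat_lit 21) (.e (nat_lit 770058) (nat_lit 5) (.e (nat_lit 1589) (nat_lit 111) (.e (nat_lit 360451) (nat_lit 0) (.e (nat_lit 7266) (nat_lit 384) .nil)))))) (.g (nat_lit 0) .nil .nil)))) (.nd (nat_lit 6) 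
(.lf (nat_lit 158759) (.g (nat_lit 2074) (.e (nat_lit 57427) (nat_lit 15) (.e (nat_lit 360475) (nat_lit 8) (.e (nat_lit 557091) (nat_lit 12) (.e (nat_lit 163856) (nat_lit 0) .nil)))) .nil)) 
(.lf (nat_lit 158823) (.g (nat_lit 1922) (.e (nat_lit 57427) (nat_lit 15) (.e (nat_lit 360492) (nat_lit 22) (.e (nat_lit 778464) (nat_lit 11) (.e (nat_lit 24640) (nat_lit 10) (.e (nat_lit 344096) (nat_lit 18) (.e (nat_lit 7266) (nat_lit 384) .nil)))))) (.g (nat_lit 4) .nil .nil))))) (.nd (nat_lit 5) (.nd (nat_lit 6) 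
(.lf (nat_lit 158743) (.g (nat_lit 1464) (.e (nat_lit 57427) (nat_lit 15) (.e (nat_lit 360474) (nat_lit 8) (.e (nat_lit 557119) (nat_lit 18) (.e (nat_lit 2807) (nat_lit 180) .nil)))) .nil)) 
(.lf (nat_lit 158807) (.g (nat_lit 2449) (.e (nat_lit 57427) (nat_lit 15) (.e (nat_lit 360491) (nat_lit 22) (.e (nat_lit 778465) (nat_lit 11) (.e (nat_lit 24640) (nat_lit 10) (.e (nat_lit 344094) (nat_lit 18) (.e (nat_lit 7261) (nat_lit 384) .nil)))))) (.g (nat_lit 5) .nil .nil)))) (.nd (nat_lit 6) 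
(.lf (nat_lit 158775) (.g (nat_lit 1482) (.e (nat_lit 57427) (nat_lit 15) (.e (nat_lit 360475) (nat_lit 8) (.e (nat_lit 557119) (nat_lit 18) (.e (nat_lit 2808) (nat_lit 180) .nil)))) .nil)) 
(.lf (nat_lit 158839) (.g (nat_lit 2043) (.e (nat_lit 57427) (nat_lit 15) (.e (nat_lit 360492) (nat_lit 22) (.e (nat_lit 778466) (nat_lit 11) (.e (nat_lit 24640) (nat_lit 10) (.e (nat_lit 344095) (nat_lit 18) (.e (nat_lit 7263) (nat_lit 384) .nil)))))) (.g (nat_lit 4) .nil .nil)))))) (.nd (nat_lit 4) (.nd (nat_lit 5) (.nd (nat_lit 6) 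
(.lf (nat_lit 158735) (.g (nat_lit 3370) (.e (nat_lit 57427) (nat_lit 15) (.e (nat_lit 360474) (nat_lit 8) (.e (nat_lit 557091) (nat_lit 12) (.e (nat_lit 164003) (nat_lit 40) (.e (nat_lit 655373) (nat_lit 3) (.e (nat_lit 164060) (nat_lit 57) (.e (nat_lit 794657) (nat_lit 21) (.e (nat_lit 164398) (nat_lit 256) .nil)))))))) (.g (nat_lit 5) .nil .nil))) 
(.lf (nat_lit 158799) (.g (nat_lit 2107) (.e (nat_lit 57427) (nat_lit 15) (.e (nat_lit 360491) (nat_lit 22) (.e (nat_lit 778464) (nat_lit 11) (.e (nat_lit 24640) (nat_lit 10) (.e (nat_lit 344095) (nat_lit 18) (.e (nat_lit 7263) (nat_lit 384) .nil)))))) (.g (nat_lit 5) .nil .nil)))) (.nd (nat_lit 6) 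
(.lf (nat_lit 158767) (.g (nat_lit 2701) (.e (nat_lit 57427) (nat_lit 15) (.e (nat_lit 360475) (nat_lit 8) (.e (nat_lit 557119) (nat_lit 18) (.e (nat_lit 2797) (nat_lit 180) (.e (nat_lit 303140) (nat_lit 10) (.e (nat_lit 434202) (nat_lit 18) (.e (nat_lit 6830) (nat_lit 367) .nil))))))) (.g (nat_lit 4) .nil .nil))) 
(.lf (nat_lit 158831) (.g (nat_lit 2042) (.e (nat_lit 57427) (nat_lit 15) (.e (nat_lit 360492) (nat_lit 22) (.e (nat_lit 778465) (nat_lit 11) (.e (nat_lit 24640) (nat_lit 10) (.e (nat_lit 344095) (nat_lit 18) (.e (nat_lit 7261) (nat_lit 384) .nil)))))) (.g (nat_lit 4) .nil .nil))))) (.nd (nat_lit 5) (.nd (nat_lit 6) 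
(.lf (nat_lit 158751) (.g (nat_lit 949) (.e (nat_lit 57427) (nat_lit 15) (.e (nat_lit 360475) (nat_lit 8) (.e (nat_lit 557068) (nat_lit 9) .nil))) .nil)) 
(.lf (nat_lit 158815) (.g (nat_lit 2099) (.e (nat_lit 57427) (nat_lit 15) (.e (nat_lit 360491) (nat_lit 22) (.e (nat_lit 778466) (nat_lit 11) (.e (nat_lit 24639) (nat_lit 10) (.e (nat_lit 344096) (nat_lit 18) (.e (nat_lit 7261) (nat_lit 384) .nil)))))) (.g (nat_lit 5) .nil .nil)))) (.nd (nat_lit 6) 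
(.lf (nat_lit 158783) (.g (nat_lit 993) (.e (nat_lit 57427) (nat_lit 15) (.e (nat_lit 360484) (nat_lit 15) (.e (nat_lit 647195) (nat_lit 9) (.e (nat_lit 7936) (nat_lit 35) .nil)))) .nil)) 
(.lf (nat_lit 158847) (.g (nat_lit 1565) (.e (nat_lit 57428) (nat_lit 15) (.e (nat_lit 360449) (nat_lit 0) (.e (nat_lit 7265) (nat_lit 384) (.e (nat_lit 57412) (nat_lit 12) (.e (nat_lit 336176) (nat_lit 10) .nil))))) .nil)))))))))

noncomputable def tv2127 : DT := (.nd (nat_lit 0) (.nd (nat_lit 1) (.nd (nat_lit 2) (.nd (nat_lit 3) (.nd (nat_lit 4) (.nd (nat_lit 5) (.nd (nat_lit 6) 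
(.lf (nat_lit 158848) (.g (nat_lit 1202) (.e (nat_lit 57428) (nat_lit 15) (.e (nat_lit 360449) (nat_lit 0) (.e (nat_lit 7265) (nat_lit 384) (.e (nat_lit 57426) (nat_lit 15) .nil)))) .nil)) 
(.lf (nat_lit 158912) (.g (nat_lit 1334) (.e (nat_lit 57430) (nat_lit 16) (.e (nat_lit 368676) (nat_lit 21) (.e (nat_lit 516131) (nat_lit 3) (.e (nat_lit 221218) (nat_lit 24) (.e (nat_lit 213000) (nat_lit 9) .nil))))) .nil))) (.nd (nat_lit 6) 
(.lf (nat_lit 158880) (.g (nat_lit 1513) (.e (nat_lit 57428) (nat_lit 15) (.e (nat_lit 360492) (nat_lit 22) (.e (nat_lit 778464) (nat_lit 11) (.e (nat_lit 24640) (nat_lit 10) (.e (nat_lit 344095) (nat_lit 18) .nil))))) .nil)) 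
(.lf (nat_lit 158944) (.g (nat_lit 1035) (.e (nat_lit 57430) (nat_lit 16) (.e (nat_lit 368676) (nat_lit 21) (.e (nat_lit 516174) (nat_lit 14) (.e (nat_lit 466945) (nat_lit 0) .nil)))) .nil)))) (.nd (nat_lit 5) (.nd (nat_lit 6) 
(.lf (nat_lit 158864) (.g (nat_lit 495) (.e (nat_lit 57428) (nat_lit 15) (.e (nat_lit 360471) (nat_lit 7) (.e (nat_lit 548889) (nat_lit 9) .nil))) .nil)) 
(.lf (nat_lit 158928) (.g (nat_lit 1913) (.e (nat_lit 57430) (nat_lit 16) (.e (nat_lit 368676) (nat_lit 21) (.e (nat_lit 516152) (nat_lit 9) (.e (nat_lit 426173) (nat_lit 7) (.e (nat_lit 409617) (nat_lit 10) .nil))))) .nil))) (.nd (nat_lit 6) 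
(.lf (nat_lit 158896) (.g (nat_lit 2676) (.e (nat_lit 57428) (nat_lit 15) (.e (nat_lit 360492) (nat_lit 22) (.e (nat_lit 778466) (nat_lit 11) (.e (nat_lit 24640) (nat_lit 10) (.e (nat_lit 344096) (nat_lit 18) (.e (nat_lit 7261) (nat_lit 384) .nil)))))) (.g (nat_lit 5) .nil .nil))) 
(.lf (nat_lit 158960) (.g (nat_lit 1437) (.e (nat_lit 57430) (nat_lit 16) (.e (nat_lit 368676) (nat_lit 21) (.e (nat_lit 516176) (nat_lit 14) (.e (nat_lit 466945) (nat_lit 0) .nil)))) .nil))))) (.nd (nat_lit 4) (.nd (nat_lit 5) (.nd (nat_lit 6) 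
(.lf (nat_lit 158856) (.g (nat_lit 1057) (.e (nat_lit 57428) (nat_lit 15) (.e (nat_lit 360453) (nat_lit 0) (.e (nat_lit 5907) (nat_lit 320) (.e (nat_lit 1221) (nat_lit 90) .nil)))) .nil)) 
(.lf (nat_lit 158920) (.g (nat_lit 1553) (.e (nat_lit 57430) (nat_lit 16) (.e (nat_lit 368676) (nat_lit 21) (.e (nat_lit 516150) (nat_lit 9) (.e (nat_lit 426294) (nat_lit 11) .nil)))) .nil))) (.nd (nat_lit 6) 
(.lf (nat_lit 158888) (.g (nat_lit 1472) (.e (nat_lit 57428) (nat_lit 15) (.e (nat_lit 360492) (nat_lit 22) (.e (nat_lit 778465) (nat_lit 11) (.e (nat_lit 24641) (nat_lit 10) (.e (nat_lit 344095) (nat_lit 18) .nil))))) .nil)) 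
(.lf (nat_lit 158952) (.g (nat_lit 2431) (.e (nat_lit 57430) (nat_lit 16) (.e (nat_lit 368676) (nat_lit 21) (.e (nat_lit 516174) (nat_lit 14) (.e (nat_lit 466967) (nat_lit 20) (.e (nat_lit 3304) (nat_lit 202) (.e (nat_lit 573477) (nat_lit 12) (.e (nat_lit 57353) (nat_lit 0) (.e (nat_lit 7261) (nat_lit 384) .nil)))))))) (.g (nat_lit 5) .nil .nil))))) (.nd (nat_lit 5) (.nd (nat_lit 6) 
(.lf (nat_lit 158872) (.g (nat_lit 570) (.e (nat_lit 57428) (nat_lit 15) (.e (nat_lit 360488) (nat_lit 20) (.e (nat_lit 761867) (nat_lit 5) .nil))) .nil)) 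
(.lf (nat_lit 158936) (.g (nat_lit 4671) (.e (nat_lit 57430) (nat_lit 16) (.e (nat_lit 368676) (nat_lit 21) (.e (nat_lit 516166) (nat_lit 12) (.e (nat_lit 450588) (nat_lit 10) (.e (nat_lit 573475) (nat_lit 12) .nil))))) .nil))) (.nd (nat_lit 6) 
(.lf (nat_lit 158904) (.g (nat_lit 993) (.e (nat_lit 57430) (nat_lit 16) (.e (nat_lit 368662) (nat_lit 18) (.e (nat_lit 7272) (nat_lit 385) (.e (nat_lit 122913) (nat_lit 13) .nil)))) .nil)) 
(.lf (nat_lit 158968) (.g (nat_lit 1861) (.e (nat_lit 57430) (nat_lit 16) (.e (nat_lit 368676) (nat_lit 21) (.e (nat_lit 516176) (nat_lit 14) (.e (nat_lit 466967) (nat_lit 20) (.e (nat_lit 2442) (nat_lit 157) .nil))))) .nil)))))) (.nd (nat_lit 3) (.nd (nat_lit 4) (.nd (nat_lit 5) (.nd (nat_lit 6) 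
(.lf (nat_lit 158852) (.g (nat_lit 644) (.e (nat_lit 57428) (nat_lit 15) (.e (nat_lit 360452) (nat_lit 0) (.e (nat_lit 5905) (nat_lit 320) .nil))) .nil)) 
(.lf (nat_lit 158916) (.g (nat_lit 1120) (.e (nat_lit 57430) (nat_lit 16) (.e (nat_lit 368676) (nat_lit 21) (.e (nat_lit 516143) (nat_lit 9) .nil))) .nil))) (.nd (nat_lit 6) 
(.lf (nat_lit 158884) (.g (nat_lit 2242) (.e (nat_lit 57428) (nat_lit 15) (.e (nat_lit 360492) (nat_lit 22) (.e (nat_lit 778465) (nat_lit 11) (.e (nat_lit 24640) (nat_lit 10) (.e (nat_lit 344091) (nat_lit 18) (.e (nat_lit 7266) (nat_lit 384) .nil)))))) (.g (nat_lit 4) .nil .nil))) 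
(.lf (nat_lit 158948) (.g (nat_lit 1506) (.e (nat_lit 57430) (nat_lit 16) (.e (nat_lit 368676) (nat_lit 21) (.e (nat_lit 516174) (nat_lit 14) (.e (nat_lit 466967) (nat_lit 20) (.e (nat_lit 2443) (nat_lit 157) .nil))))) .nil)))) (.nd (nat_lit 5) (.nd (nat_lit 6) 
(.lf (nat_lit 158868) (.g (nat_lit 1462) (.e (nat_lit 57428) (nat_lit 15) (.e (nat_lit 360486) (nat_lit 18) (.e (nat_lit 671747) (nat_lit 0) (.e (nat_lit 1595) (nat_lit 111) (.e (nat_lit 360457) (nat_lit 0) .nil))))) .nil)) 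
(.lf (nat_lit 158932) (.g (nat_lit 3033) (.e (nat_lit 57430) (nat_lit 16) (.e (nat_lit 368676) (nat_lit 21) (.e (nat_lit 516163) (nat_lit 11) (.e (nat_lit 442427) (nat_lit 23) (.e (nat_lit 212736) (nat_lit 1) .nil))))) .nil))) (.nd (nat_lit 6) 
(.lf (nat_lit 158900) (.g (nat_lit 2775) (.e (nat_lit 57429) (nat_lit 16) (.e (nat_lit 368676) (nat_lit 21) (.e (nat_lit 516176) (nat_lit 14) (.e (nat_lit 466967) (nat_lit 20) .nil)))) .nil)) 
(.lf (nat_lit 158964) (.g (nat_lit 1997) (.e (nat_lit 57430) (nat_lit 16) (.e (nat_lit 368676) (nat_lit 21) (.e (nat_lit 516176) (nat_lit 14) (.e (nat_lit 466960) (nat_lit 20) .nil)))) .nil))))) (.nd (nat_lit 4) (.nd (nat_lit 5) (.nd (nat_lit 6) 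
(.lf (nat_lit 158860) (.g (nat_lit 1565) (.e (nat_lit 57428) (nat_lit 15) (.e (nat_lit 360457) (nat_lit 0) (.e (nat_lit 5949) (nat_lit 322) (.e (nat_lit 57423) (nat_lit 14) (.e (nat_lit 352318) (nat_lit 24) .nil))))) .nil)) 
(.lf (nat_lit 158924) (.g (nat_lit 3821) (.e (nat_lit 57430) (nat_lit 16) (.e (nat_lit 368676) (nat_lit 21) (.e (nat_lit 516151) (nat_lit 9) (.e (nat_lit 426170) (nat_lit 7) (.e (nat_lit 409617) (nat_lit 10) .nil))))) .nil))) (.nd (nat_lit 6) 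
(.lf (nat_lit 158892) (.g (nat_lit 1967) (.e (nat_lit 57428) (nat_lit 15) (.e (nat_lit 360492) (nat_lit 22) (.e (nat_lit 778466) (nat_lit 11) (.e (nat_lit 24640) (nat_lit 10) (.e (nat_lit 344091) (nat_lit 18) .nil))))) .nil)) 
(.lf (nat_lit 158956) (.g (nat_lit 1551) (.e (nat_lit 57430) (nat_lit 16) (.e (nat_lit 368676) (nat_lit 21) (.e (nat_lit 516174) (nat_lit 14) (.e (nat_lit 466979) (nat_lit 23) (.e (nat_lit 212736) (nat_lit 1) .nil))))) .nil)))) (.nd (nat_lit 5) (.nd (nat_lit 6) 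
(.lf (nat_lit 158876) (.g (nat_lit 1209) (.e (nat_lit 57428) (nat_lit 15) (.e (nat_lit 360489) (nat_lit 21) (.e (nat_lit 770055) (nat_lit 5) (.e (nat_lit 1595) (nat_lit 111) (.e (nat_lit 360449) (nat_lit 0) .nil))))) .nil)) 
(.lf (nat_lit 158940) (.g (nat_lit 678) (.e (nat_lit 57430) (nat_lit 16) (.e (nat_lit 368676) (nat_lit 21) (.e (nat_lit 516169) (nat_lit 13) .nil))) .nil))) (.nd (nat_lit 6) 
(.lf (nat_lit 158908) (.g (nat_lit 1836) (.e (nat_lit 57430) (nat_lit 16) (.e (nat_lit 368676) (nat_lit 21) (.e (nat_lit 516129) (nat_lit 3) (.e (nat_lit 221217) (nat_lit 24) (.e (nat_lit 213004) (nat_lit 9) .nil))))) .nil)) 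
(.lf (nat_lit 158972) (.g (nat_lit 1661) (.e (nat_lit 57430) (nat_lit 16) (.e (nat_lit 368676) (nat_lit 21) (.e (nat_lit 516176) (nat_lit 14) (.e (nat_lit 466967) (nat_lit 20) (.e (nat_lit 3253) (nat_lit 197) .nil))))) .nil))))))) (.nd (nat_lit 2) (.nd (nat_lit 3) (.nd (nat_lit 4) (.nd (nat_lit 5) (.nd (nat_lit 6) 
(.lf (nat_lit 158850) (.g (nat_lit 1304) (.e (nat_lit 57428) (nat_lit 15) (.e (nat_lit 360449) (nat_lit 0) (.e (nat_lit 7266) (nat_lit 384) (.e (nat_lit 57426) (nat_lit 15) .nil)))) .nil)) 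
(.lf (nat_lit 158914) (.g (nat_lit 1493) (.e (nat_lit 57430) (nat_lit 16) (.e (nat_lit 368676) (nat_lit 21) (.e (nat_lit 516131) (nat_lit 3) (.e (nat_lit 221219) (nat_lit 24) (.e (nat_lit 213001) (nat_lit 9) .nil))))) .nil))) (.nd (nat_lit 6) 
(.lf (nat_lit 158882) (.g (nat_lit 1670) (.e (nat_lit 57428) (nat_lit 15) (.e (nat_lit 360492) (nat_lit 22) (.e (nat_lit 778465) (nat_lit 11) (.e (nat_lit 24640) (nat_lit 10) (.e (nat_lit 344090) (nat_lit 18) .nil))))) .nil)) 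
(.lf (nat_lit 158946) (.g (nat_lit 1387) (.e (nat_lit 57430) (nat_lit 16) (.e (nat_lit 368676) (nat_lit 21) (.e (nat_lit 516174) (nat_lit 14) (.e (nat_lit 466963) (nat_lit 20) .nil)))) .nil)))) (.nd (nat_lit 5) (.nd (nat_lit 6) 
(.lf (nat_lit 158866) (.g (nat_lit 3464) (.e (nat_lit 57428) (nat_lit 15) (.e (nat_lit 360477) (nat_lit 11) (.e (nat_lit 581651) (nat_lit 4) (.e (nat_lit 172115) (nat_lit 10) (.e (nat_lit 434202) (nat_lit 18) (.e (nat_lit 6830) (nat_lit 367) .nil)))))) (.g (nat_lit 6) .nil .nil))) 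
(.lf (nat_lit 158930) (.g (nat_lit 1121) (.e (nat_lit 57430) (nat_lit 16) (.e (nat_lit 368676) (nat_lit 21) (.e (nat_lit 516155) (nat_lit 9) .nil))) .nil))) (.nd (nat_lit 6) 
(.lf (nat_lit 158898) (.g (nat_lit 1261) (.e (nat_lit 57429) (nat_lit 16) (.e (nat_lit 368676) (nat_lit 21) (.e (nat_lit 516174) (nat_lit 14) .nil))) .nil)) 
(.lf (nat_lit 158962) (.g (nat_lit 1371) (.e (nat_lit 57430) (nat_lit 16) (.e (nat_lit 368676) (nat_lit 21) (.e (nat_lit 516176) (nat_lit 14) (.e (nat_lit 474880) (nat_lit 3) .nil)))) .nil))))) (.nd (nat_lit 4) (.nd (nat_lit 5) (.nd (nat_lit 6) 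
(.lf (nat_lit 158858) (.g (nat_lit 3149) (.e (nat_lit 57428) (nat_lit 15) (.e (nat_lit 360453) (nat_lit 0) (.e (nat_lit 7270) (nat_lit 385) (.e (nat_lit 122919) (nat_lit 15) (.e (nat_lit 360451) (nat_lit 0) (.e (nat_lit 7266) (nat_lit 384) .nil)))))) (.g (nat_lit 5) .nil .nil))) 
(.lf (nat_lit 158922) (.g (nat_lit 3821) (.e (nat_lit 57430) (nat_lit 16) (.e (nat_lit 368676) (nat_lit 21) (.e (nat_lit 516151) (nat_lit 9) (.e (nat_lit 426170) (nat_lit 7) (.e (nat_lit 409611) (nat_lit 10) .nil))))) .nil))) (.nd (nat_lit 6) 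
(.lf (nat_lit 158890) (.g (nat_lit 1476) (.e (nat_lit 57428) (nat_lit 15) (.e (nat_lit 360492) (nat_lit 22) (.e (nat_lit 778466) (nat_lit 11) (.e (nat_lit 24640) (nat_lit 10) (.e (nat_lit 344088) (nat_lit 18) (.e (nat_lit 7264) (nat_lit 384) .nil)))))) (.g (nat_lit 4) .nil .nil))) 
(.lf (nat_lit 158954) (.g (nat_lit 1367) (.e (nat_lit 57430) (nat_lit 16) (.e (nat_lit 368676) (nat_lit 21) (.e (nat_lit 516174) (nat_lit 14) (.e (nat_lit 466975) (nat_lit 22) .nil)))) .nil)))) (.nd (nat_lit 5) (.nd (nat_lit 6) 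
(.lf (nat_lit 158874) (.g (nat_lit 780) (.e (nat_lit 57428) (nat_lit 15) (.e (nat_lit 360488) (nat_lit 20) (.e (nat_lit 761868) (nat_lit 5) (.e (nat_lit 1597) (nat_lit 111) .nil)))) .nil)) 
(.lf (nat_lit 158938) (.g (nat_lit 1611) (.e (nat_lit 57430) (nat_lit 16) (.e (nat_lit 368676) (nat_lit 21) (.e (nat_lit 516167) (nat_lit 12) (.e (nat_lit 458496) (nat_lit 3) .nil)))) .nil))) (.nd (nat_lit 6) 
(.lf (nat_lit 158906) (.g (nat_lit 1510) (.e (nat_lit 57430) (nat_lit 16) (.e (nat_lit 368676) (nat_lit 21) (.e (nat_lit 516129) (nat_lit 3) (.e (nat_lit 229120) (nat_lit 1) .nil)))) .nil)) 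
(.lf (nat_lit 158970) (.g (nat_lit 2296) (.e (nat_lit 57430) (nat_lit 16) (.e (nat_lit 368676) (nat_lit 21) (.e (nat_lit 516176) (nat_lit 14) (.e (nat_lit 466967) (nat_lit 20) (.e (nat_lit 7936) (nat_lit 193) (.e (nat_lit 499910) (nat_lit 8) (.e (nat_lit 171776) (nat_lit 0) (.e (nat_lit 5193) (nat_lit 294) .nil)))))))) (.g (nat_lit 4) .nil .nil))))))) 
(.nd (nat_lit 3) (.nd (nat_lit 4) (.nd (nat_lit 5) (.nd (nat_lit 6) 
(.lf (nat_lit 158854) (.g (nat_lit 640) (.e (nat_lit 57428) (nat_lit 15) (.e (nat_lit 360452) (nat_lit 0) (.e (nat_lit 5907) (nat_lit 320) .nil))) .nil)) 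
(.lf (nat_lit 158918) (.g (nat_lit 1545) (.e (nat_lit 57430) (nat_lit 16) (.e (nat_lit 368676) (nat_lit 21) (.e (nat_lit 516146) (nat_lit 9) (.e (nat_lit 426422) (nat_lit 16) .nil)))) .nil))) (.nd (nat_lit 6) 
(.lf (nat_lit 158886) (.g (nat_lit 2253) (.e (nat_lit 57428) (nat_lit 15) (.e (nat_lit 360492) (nat_lit 22) (.e (nat_lit 778465) (nat_lit 11) (.e (nat_lit 24640) (nat_lit 10) (.e (nat_lit 344094) (nat_lit 18) (.e (nat_lit 7261) (nat_lit 384) .nil)))))) (.g (nat_lit 4) .nil .nil))) 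
(.lf (nat_lit 158950) (.g (nat_lit 1500) (.e (nat_lit 57430) (nat_lit 16) (.e (nat_lit 368676) (nat_lit 21) (.e (nat_lit 516174) (nat_lit 14) (.e (nat_lit 466967) (nat_lit 20) (.e (nat_lit 3304) (nat_lit 202) .nil))))) .nil)))) (.nd (nat_lit 5) (.nd (nat_lit 6) 
(.lf (nat_lit 158870) (.g (nat_lit 3612) (.e (nat_lit 57428) (nat_lit 15) (.e (nat_lit 360486) (nat_lit 18) (.e (nat_lit 671764) (nat_lit 6) (.e (nat_lit 81959) (nat_lit 24) (.e (nat_lit 123195) (nat_lit 266) .nil))))) (.g (nat_lit 5) .nil .nil))) 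
(.lf (nat_lit 158934) (.g (nat_lit 2752) (.e (nat_lit 57430) (nat_lit 16) (.e (nat_lit 368676) (nat_lit 21) (.e (nat_lit 516165) (nat_lit 12) (.e (nat_lit 450579) (nat_lit 5) (.e (nat_lit 532501) (nat_lit 1) (.e (nat_lit 65280) (nat_lit 223) .nil)))))) (.g (nat_lit 4) .nil .nil)))) (.nd (nat_lit 6) 
(.lf (nat_lit 158902) (.g (nat_lit 993) (.e (nat_lit 57430) (nat_lit 16) (.e (nat_lit 368662) (nat_lit 18) (.e (nat_lit 7147) (nat_lit 382) (.e (nat_lit 1206) (nat_lit 89) .nil)))) .nil)) 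
(.lf (nat_lit 158966) (.g (nat_lit 1999) (.e (nat_lit 57430) (nat_lit 16) (.e (nat_lit 368676) (nat_lit 21) (.e (nat_lit 516176) (nat_lit 14) (.e (nat_lit 466964) (nat_lit 20) .nil)))) .nil))))) (.nd (nat_lit 4) (.nd (nat_lit 5) (.nd (nat_lit 6) 
(.lf (nat_lit 158862) (.g (nat_lit 760) (.e (nat_lit 57428) (nat_lit 15) (.e (nat_lit 360467) (nat_lit 3) (.e (nat_lit 516196) (nat_lit 26) .nil))) .nil)) 
(.lf (nat_lit 158926) (.g (nat_lit 4101) (.e (nat_lit 57430) (nat_lit 16) (.e (nat_lit 368676) (nat_lit 21) (.e (nat_lit 516151) (nat_lit 9) (.e (nat_lit 426211) (nat_lit 9) (.e (nat_lit 426125) (nat_lit 2) .nil))))) .nil))) (.nd (nat_lit 6) 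
(.lf (nat_lit 158894) (.g (nat_lit 2316) (.e (nat_lit 57428) (nat_lit 15) (.e (nat_lit 360492) (nat_lit 22) (.e (nat_lit 778466) (nat_lit 11) (.e (nat_lit 24640) (nat_lit 10) (.e (nat_lit 344094) (nat_lit 18) (.e (nat_lit 7266) (nat_lit 384) .nil)))))) (.g (nat_lit 4) .nil .nil))) 
(.lf (nat_lit 158958) (.g (nat_lit 1756) (.e (nat_lit 57430) (nat_lit 16) (.e (nat_lit 368676) (nat_lit 21) (.e (nat_lit 516174) (nat_lit 14) (.e (nat_lit 466981) (nat_lit 23) (.e (nat_lit 212736) (nat_lit 1) .nil))))) .nil)))) (.nd (nat_lit 5) (.nd (nat_lit 6) 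
(.lf (nat_lit 158878) (.g (nat_lit 2084) (.e (nat_lit 57428) (nat_lit 15) (.e (nat_lit 360489) (nat_lit 21) (.e (nat_lit 770072) (nat_lit 8) (.e (nat_lit 65617) (nat_lit 10) (.e (nat_lit 344091) (nat_lit 18) (.e (nat_lit 7265) (nat_lit 384) .nil)))))) (.g (nat_lit 5) .nil .nil))) 
(.lf (nat_lit 158942) (.g (nat_lit 775) (.e (nat_lit 57430) (nat_lit 16) (.e (nat_lit 368676) (nat_lit 21) (.e (nat_lit 516171) (nat_lit 13) .nil))) .nil))) (.nd (nat_lit 6) 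
(.lf (nat_lit 158910) (.g (nat_lit 1170) (.e (nat_lit 57430) (nat_lit 16) (.e (nat_lit 368676) (nat_lit 21) (.e (nat_lit 516131) (nat_lit 3) (.e (nat_lit 221217) (nat_lit 24) .nil)))) .nil)) 
(.lf (nat_lit 158974) (.g (nat_lit 1847) (.e (nat_lit 57430) (nat_lit 16) (.e (nat_lit 368676) (nat_lit 21) (.e (nat_lit 516176) (nat_lit 14) (.e (nat_lit 466967) (nat_lit 20) (.e (nat_lit 3304) (nat_lit 202) .nil))))) .nil)))))))) (.nd (nat_lit 1) (.nd (nat_lit 2) (.nd (nat_lit 3) (.nd (nat_lit 4) (.nd (nat_lit 5) (.nd (nat_lit 6) 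
(.lf (nat_lit 158849) (.g (nat_lit 1173) (.e (nat_lit 57428) (nat_lit 15) (.e (nat_lit 360449) (nat_lit 0) (.e (nat_lit 7265) (nat_lit 384) (.e (nat_lit 57427) (nat_lit 15) .nil)))) .nil)) 
(.lf (nat_lit 158913) (.g (nat_lit 1125) (.e (nat_lit 57430) (nat_lit 16) (.e (nat_lit 368676) (nat_lit 21) (.e (nat_lit 516131) (nat_lit 3) (.e (nat_lit 221219) (nat_lit 24) .nil)))) .nil))) (.nd (nat_lit 6) 
(.lf (nat_lit 158881) (.g (nat_lit 964) (.e (nat_lit 57428) (nat_lit 15) (.e (nat_lit 360492) (nat_lit 22) (.e (nat_lit 778465) (nat_lit 11) (.e (nat_lit 24639) (nat_lit 10) .nil)))) .nil)) 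
(.lf (nat_lit 158945) (.g (nat_lit 1387) (.e (nat_lit 57430) (nat_lit 16) (.e (nat_lit 368676) (nat_lit 21) (.e (nat_lit 516174) (nat_lit 14) (.e (nat_lit 466956) (nat_lit 20) .nil)))) .nil)))) (.nd (nat_lit 5) (.nd (nat_lit 6) 
(.lf (nat_lit 158865) (.g (nat_lit 540) (.e (nat_lit 57428) (nat_lit 15) (.e (nat_lit 360477) (nat_lit 11) (.e (nat_lit 581651) (nat_lit 4) .nil))) .nil)) 
(.lf (nat_lit 158929) (.g (nat_lit 1121) (.e (nat_lit 57430) (nat_lit 16) (.e (nat_lit 368676) (nat_lit 21) (.e (nat_lit 516153) (nat_lit 9) .nil))) .nil))) (.nd (nat_lit 6) 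
(.lf (nat_lit 158897) (.g (nat_lit 2074) (.e (nat_lit 57429) (nat_lit 16) (.e (nat_lit 368676) (nat_lit 21) (.e (nat_lit 516165) (nat_lit 12) (.e (nat_lit 450586) (nat_lit 10) .nil)))) .nil)) 
(.lf (nat_lit 158961) (.g (nat_lit 2058) (.e (nat_lit 57430) (nat_lit 16) (.e (nat_lit 368676) (nat_lit 21) (.e (nat_lit 516176) (nat_lit 14) (.e (nat_lit 466947) (nat_lit 0) (.e (nat_lit 1800) (nat_lit 119) (.e (nat_lit 524032) (nat_lit 18) (.e (nat_lit 57849) (nat_lit 252) .nil))))))) (.g (nat_lit 5) .nil .nil)))))) (.nd (nat_lit 4) (.nd (nat_lit 5) (.nd (nat_lit 6) 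
(.lf (nat_lit 158857) (.g (nat_lit 3754) (.e (nat_lit 57428) (nat_lit 15) (.e (nat_lit 360453) (nat_lit 0) (.e (nat_lit 5907) (nat_lit 320) (.e (nat_lit 1221) (nat_lit 90) (.e (nat_lit 81959) (nat_lit 24) (.e (nat_lit 123195) (nat_lit 266) .nil)))))) (.g (nat_lit 6) .nil .nil))) 
(.lf (nat_lit 158921) (.g (nat_lit 2692) (.e (nat_lit 57430) (nat_lit 16) (.e (nat_lit 368676) (nat_lit 21) (.e (nat_lit 516151) (nat_lit 9) (.e (nat_lit 426170) (nat_lit 7) .nil)))) .nil))) (.nd (nat_lit 6) 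
(.lf (nat_lit 158889) (.g (nat_lit 825) (.e (nat_lit 57428) (nat_lit 15) (.e (nat_lit 360492) (nat_lit 22) (.e (nat_lit 778466) (nat_lit 11) (.e (nat_lit 24639) (nat_lit 10) .nil)))) .nil)) 
(.lf (nat_lit 158953) (.g (nat_lit 2286) (.e (nat_lit 57430) (nat_lit 16) (.e (nat_lit 368676) (nat_lit 21) (.e (nat_lit 516174) (nat_lit 14) (.e (nat_lit 466967) (nat_lit 20) (.e (nat_lit 3305) (nat_lit 202) (.e (nat_lit 573477) (nat_lit 12) (.e (nat_lit 57351) (nat_lit 0) (.e (nat_lit 7261) (nat_lit 384) .nil)))))))) (.g (nat_lit 5) .nil .nil))))) (.nd (nat_lit 5) (.nd (nat_lit 6) 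
(.lf (nat_lit 158873) (.g (nat_lit 566) (.e (nat_lit 57428) (nat_lit 15) (.e (nat_lit 360488) (nat_lit 20) (.e (nat_lit 761868) (nat_lit 5) .nil))) .nil)) 
(.lf (nat_lit 158937) (.g (nat_lit 1121) (.e (nat_lit 57430) (nat_lit 16) (.e (nat_lit 368676) (nat_lit 21) (.e (nat_lit 516167) (nat_lit 12) .nil))) .nil))) (.nd (nat_lit 6) 
(.lf (nat_lit 158905) (.g (nat_lit 1914) (.e (nat_lit 57430) (nat_lit 16) (.e (nat_lit 368676) (nat_lit 21) (.e (nat_lit 516097) (nat_lit 0) (.e (nat_lit 3776) (nat_lit 229) .nil)))) .nil)) 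
(.lf (nat_lit 158969) (.g (nat_lit 2090) (.e (nat_lit 57430) (nat_lit 16) (.e (nat_lit 368676) (nat_lit 21) (.e (nat_lit 516176) (nat_lit 14) (.e (nat_lit 466967) (nat_lit 20) (.e (nat_lit 7936) (nat_lit 193) .nil))))) .nil)))))) (.nd (nat_lit 3) (.nd (nat_lit 4) (.nd (nat_lit 5) (.nd (nat_lit 6) 
(.lf (nat_lit 158853) (.g (nat_lit 1579) (.e (nat_lit 57428) (nat_lit 15) (.e (nat_lit 360452) (nat_lit 0) (.e (nat_lit 5905) (nat_lit 320) (.e (nat_lit 1220) (nat_lit 90) .nil)))) .nil)) 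
(.lf (nat_lit 158917) (.g (nat_lit 1801) (.e (nat_lit 57430) (nat_lit 16) (.e (nat_lit 368676) (nat_lit 21) (.e (nat_lit 516146) (nat_lit 9) (.e (nat_lit 426294) (nat_lit 11) .nil)))) .nil))) (.nd (nat_lit 6) 
(.lf (nat_lit 158885) (.g (nat_lit 2186) (.e (nat_lit 57428) (nat_lit 15) (.e (nat_lit 360492) (nat_lit 22) (.e (nat_lit 778465) (nat_lit 11) (.e (nat_lit 24640) (nat_lit 10) (.e (nat_lit 344094) (nat_lit 18) .nil))))) .nil)) 
(.lf (nat_lit 158949) (.g (nat_lit 1493) (.e (nat_lit 57430) (nat_lit 16) (.e (nat_lit 368676) (nat_lit 21) (.e (nat_lit 516174) (nat_lit 14) (.e (nat_lit 466967) (nat_lit 20) (.e (nat_lit 7936) (nat_lit 195) .nil))))) .nil)))) (.nd (nat_lit 5) (.nd (nat_lit 6) 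
(.lf (nat_lit 158869) (.g (nat_lit 3091) (.e (nat_lit 57428) (nat_lit 15) (.e (nat_lit 360486) (nat_lit 18) (.e (nat_lit 671764) (nat_lit 6) (.e (nat_lit 81957) (nat_lit 24) (.e (nat_lit 123195) (nat_lit 266) .nil))))) (.g (nat_lit 5) .nil .nil))) 
(.lf (nat_lit 158933) (.g (nat_lit 1528) (.e (nat_lit 57430) (nat_lit 16) (.e (nat_lit 368676) (nat_lit 21) (.e (nat_lit 516165) (nat_lit 12) (.e (nat_lit 458496) (nat_lit 3) .nil)))) .nil))) (.nd (nat_lit 6) 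
(.lf (nat_lit 158901) (.g (nat_lit 577) (.e (nat_lit 57430) (nat_lit 16) (.e (nat_lit 368662) (nat_lit 18) (.e (nat_lit 7147) (nat_lit 382) .nil))) .nil)) 
(.lf (nat_lit 158965) (.g (nat_lit 1948) (.e (nat_lit 57430) (nat_lit 16) (.e (nat_lit 368676) (nat_lit 21) (.e (nat_lit 516176) (nat_lit 14) (.e (nat_lit 466963) (nat_lit 20) .nil)))) .nil))))) (.nd (nat_lit 4) (.nd (nat_lit 5) (.nd (nat_lit 6) 
(.lf (nat_lit 158861) (.g (nat_lit 1321) (.e (nat_lit 57428) (nat_lit 15) (.e (nat_lit 360467) (nat_lit 3) (.e (nat_lit 516195) (nat_lit 26) (.e (nat_lit 343808) (nat_lit 20) .nil)))) .nil)) 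
(.lf (nat_lit 158925) (.g (nat_lit 3441) (.e (nat_lit 57430) (nat_lit 16) (.e (nat_lit 368676) (nat_lit 21) (.e (nat_lit 516151) (nat_lit 9) (.e (nat_lit 426173) (nat_lit 7) (.e (nat_lit 409617) (nat_lit 10) .nil))))) .nil))) (.nd (nat_lit 6) 
(.lf (nat_lit 158893) (.g (nat_lit 2055) (.e (nat_lit 57428) (nat_lit 15) (.e (nat_lit 360492) (nat_lit 22) (.e (nat_lit 778466) (nat_lit 11) (.e (nat_lit 24640) (nat_lit 10) (.e (nat_lit 344094) (nat_lit 18) .nil))))) .nil)) 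
(.lf (nat_lit 158957) (.g (nat_lit 1871) (.e (nat_lit 57430) (nat_lit 16) (.e (nat_lit 368676) (nat_lit 21) (.e (nat_lit 516174) (nat_lit 14) (.e (nat_lit 466980) (nat_lit 23) (.e (nat_lit 212736) (nat_lit 1) .nil))))) .nil)))) (.nd (nat_lit 5) (.nd (nat_lit 6) 
(.lf (nat_lit 158877) (.g (nat_lit 2224) (.e (nat_lit 57428) (nat_lit 15) (.e (nat_lit 360489) (nat_lit 21) (.e (nat_lit 770071) (nat_lit 8) (.e (nat_lit 65617) (nat_lit 10) (.e (nat_lit 344091) (nat_lit 18) (.e (nat_lit 7265) (nat_lit 384) .nil)))))) (.g (nat_lit 5) .nil .nil))) 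
(.lf (nat_lit 158941) (.g (nat_lit 1404) (.e (nat_lit 57430) (nat_lit 16) (.e (nat_lit 368676) (nat_lit 21) (.e (nat_lit 516169) (nat_lit 13) (.e (nat_lit 458761) (nat_lit 13) .nil)))) .nil))) (.nd (nat_lit 6) 
(.lf (nat_lit 158909) (.g (nat_lit 1699) (.e (nat_lit 57430) (nat_lit 16) (.e (nat_lit 368676) (nat_lit 21) (.e (nat_lit 516129) (nat_lit 3) (.e (nat_lit 221220) (nat_lit 25) .nil)))) .nil)) 
(.lf (nat_lit 158973) (.g (nat_lit 2090) (.e (nat_lit 57430) (nat_lit 16) (.e (nat_lit 368676) (nat_lit 21) (.e (nat_lit 516176) (nat_lit 14) (.e (nat_lit 466967) (nat_lit 20) (.e (nat_lit 7936) (nat_lit 200) .nil))))) .nil))))))) (.nd (nat_lit 2) (.nd (nat_lit 3) (.nd (nat_lit 4) (.nd (nat_lit 5) (.nd (nat_lit 6) 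
(.lf (nat_lit 158851) (.g (nat_lit 1279) (.e (nat_lit 57428) (nat_lit 15) (.e (nat_lit 360449) (nat_lit 0) (.e (nat_lit 7266) (nat_lit 384) (.e (nat_lit 57427) (nat_lit 15) .nil)))) .nil)) 
(.lf (nat_lit 158915) (.g (nat_lit 883) (.e (nat_lit 57430) (nat_lit 16) (.e (nat_lit 368676) (nat_lit 21) (.e (nat_lit 516141) (nat_lit 8) .nil))) .nil))) (.nd (nat_lit 6) 
(.lf (nat_lit 158883) (.g (nat_lit 2341) (.e (nat_lit 57428) (nat_lit 15) (.e (nat_lit 360492) (nat_lit 22) (.e (nat_lit 778465) (nat_lit 11) (.e (nat_lit 24640) (nat_lit 10) (.e (nat_lit 344091) (nat_lit 18) (.e (nat_lit 7261) (nat_lit 384) .nil)))))) (.g (nat_lit 4) .nil .nil))) 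
(.lf (nat_lit 158947) (.g (nat_lit 1287) (.e (nat_lit 57430) (nat_lit 16) (.e (nat_lit 368676) (nat_lit 21) (.e (nat_lit 516174) (nat_lit 14) (.e (nat_lit 466967) (nat_lit 20) .nil)))) .nil)))) (.nd (nat_lit 5) (.nd (nat_lit 6) 
(.lf (nat_lit 158867) (.g (nat_lit 499) (.e (nat_lit 57428) (nat_lit 15) (.e (nat_lit 360486) (nat_lit 18) (.e (nat_lit 671745) (nat_lit 0) .nil))) .nil)) 
(.lf (nat_lit 158931) (.g (nat_lit 1374) (.e (nat_lit 57430) (nat_lit 16) (.e (nat_lit 368676) (nat_lit 21) (.e (nat_lit 516155) (nat_lit 9) (.e (nat_lit 426173) (nat_lit 7) .nil)))) .nil))) (.nd (nat_lit 6) 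
(.lf (nat_lit 158899) (.g (nat_lit 1269) (.e (nat_lit 57429) (nat_lit 16) (.e (nat_lit 368676) (nat_lit 21) (.e (nat_lit 516176) (nat_lit 14) .nil))) .nil)) 
(.lf (nat_lit 158963) (.g (nat_lit 1999) (.e (nat_lit 57430) (nat_lit 16) (.e (nat_lit 368676) (nat_lit 21) (.e (nat_lit 516176) (nat_lit 14) (.e (nat_lit 466956) (nat_lit 20) .nil)))) .nil))))) (.nd (nat_lit 4) (.nd (nat_lit 5) (.nd (nat_lit 6) 
(.lf (nat_lit 158859) (.g (nat_lit 1514) (.e (nat_lit 57428) (nat_lit 15) (.e (nat_lit 360457) (nat_lit 0) (.e (nat_lit 5948) (nat_lit 322) (.e (nat_lit 57427) (nat_lit 15) (.e (nat_lit 360457) (nat_lit 0) .nil))))) .nil)) 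
(.lf (nat_lit 158923) (.g (nat_lit 3821) (.e (nat_lit 57430) (nat_lit 16) (.e (nat_lit 368676) (nat_lit 21) (.e (nat_lit 516151) (nat_lit 9) (.e (nat_lit 426170) (nat_lit 7) (.e (nat_lit 409612) (nat_lit 10) .nil))))) .nil))) (.nd (nat_lit 6) 
(.lf (nat_lit 158891) (.g (nat_lit 1594) (.e (nat_lit 57428) (nat_lit 15) (.e (nat_lit 360492) (nat_lit 22) (.e (nat_lit 778466) (nat_lit 11) (.e (nat_lit 24640) (nat_lit 10) (.e (nat_lit 344090) (nat_lit 18) .nil))))) .nil)) 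
(.lf (nat_lit 158955) (.g (nat_lit 1463) (.e (nat_lit 57430) (nat_lit 16) (.e (nat_lit 368676) (nat_lit 21) (.e (nat_lit 516174) (nat_lit 14) (.e (nat_lit 466978) (nat_lit 23) (.e (nat_lit 212736) (nat_lit 1) .nil))))) .nil)))) (.nd (nat_lit 5) (.nd (nat_lit 6) 
(.lf (nat_lit 158875) (.g (nat_lit 569) (.e (nat_lit 57428) (nat_lit 15) (.e (nat_lit 360488) (nat_lit 20) (.e (nat_lit 761869) (nat_lit 5) .nil))) .nil)) 
(.lf (nat_lit 158939) (.g (nat_lit 1599) (.e (nat_lit 57430) (nat_lit 16) (.e (nat_lit 368676) (nat_lit 21) (.e (nat_lit 516167) (nat_lit 12) (.e (nat_lit 450586) (nat_lit 10) .nil)))) .nil))) (.nd (nat_lit 6) 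
(.lf (nat_lit 158907) (.g (nat_lit 1705) (.e (nat_lit 57430) (nat_lit 16) (.e (nat_lit 368676) (nat_lit 21) (.e (nat_lit 516129) (nat_lit 3) (.e (nat_lit 221217) (nat_lit 24) .nil)))) .nil)) 
(.lf (nat_lit 158971) (.g (nat_lit 2090) (.e (nat_lit 57430) (nat_lit 16) (.e (nat_lit 368676) (nat_lit 21) (.e (nat_lit 516176) (nat_lit 14) (.e (nat_lit 466967) (nat_lit 20) (.e (nat_lit 7936) (nat_lit 195) .nil))))) .nil)))))) (.nd (nat_lit 3) (.nd (nat_lit 4) (.nd (nat_lit 5) (.nd (nat_lit 6) 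
(.lf (nat_lit 158855) (.g (nat_lit 1750) (.e (nat_lit 57428) (nat_lit 15) (.e (nat_lit 360452) (nat_lit 0) (.e (nat_lit 7270) (nat_lit 385) (.e (nat_lit 122919) (nat_lit 15) .nil)))) .nil)) 
(.lf (nat_lit 158919) (.g (nat_lit 992) (.e (nat_lit 57430) (nat_lit 16) (.e (nat_lit 368676) (nat_lit 21) (.e (nat_lit 516149) (nat_lit 9) (.e (nat_lit 426294) (nat_lit 11) .nil)))) .nil))) (.nd (nat_lit 6) 
(.lf (nat_lit 158887) (.g (nat_lit 2731) (.e (nat_lit 57428) (nat_lit 15) (.e (nat_lit 360492) (nat_lit 22) (.e (nat_lit 778465) (nat_lit 11) (.e (nat_lit 24640) (nat_lit 10) (.e (nat_lit 344096) (nat_lit 18) (.e (nat_lit 7261) (nat_lit 384) .nil)))))) (.g (nat_lit 5) .nil .nil))) 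
(.lf (nat_lit 158951) (.g (nat_lit 2419) (.e (nat_lit 57430) (nat_lit 16) (.e (nat_lit 368676) (nat_lit 21) (.e (nat_lit 516174) (nat_lit 14) (.e (nat_lit 466967) (nat_lit 20) (.e (nat_lit 3304) (nat_lit 202) (.e (nat_lit 573477) (nat_lit 12) (.e (nat_lit 57352) (nat_lit 0) (.e (nat_lit 7261) (nat_lit 384) .nil)))))))) (.g (nat_lit 5) .nil .nil))))) (.nd (nat_lit 5) (.nd (nat_lit 6) 
(.lf (nat_lit 158871) (.g (nat_lit 569) (.e (nat_lit 57428) (nat_lit 15) (.e (nat_lit 360488) (nat_lit 20) (.e (nat_lit 761866) (nat_lit 5) .nil))) .nil)) 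
(.lf (nat_lit 158935) (.g (nat_lit 2702) (.e (nat_lit 57430) (nat_lit 16) (.e (nat_lit 368676) (nat_lit 21) (.e (nat_lit 516165) (nat_lit 12) (.e (nat_lit 450579) (nat_lit 5) (.e (nat_lit 532504) (nat_lit 1) (.e (nat_lit 65280) (nat_lit 223) .nil)))))) (.g (nat_lit 4) .nil .nil)))) (.nd (nat_lit 6) 
(.lf (nat_lit 158903) (.g (nat_lit 985) (.e (nat_lit 57430) (nat_lit 16) (.e (nat_lit 368662) (nat_lit 18) (.e (nat_lit 7147) (nat_lit 382) (.e (nat_lit 1207) (nat_lit 89) .nil)))) .nil)) 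
(.lf (nat_lit 158967) (.g (nat_lit 1600) (.e (nat_lit 57430) (nat_lit 16) (.e (nat_lit 368676) (nat_lit 21) (.e (nat_lit 516176) (nat_lit 14) (.e (nat_lit 466967) (nat_lit 20) .nil)))) .nil))))) (.nd (nat_lit 4) (.nd (nat_lit 5) (.nd (nat_lit 6) 
(.lf (nat_lit 158863) (.g (nat_lit 760) (.e (nat_lit 57428) (nat_lit 15) (.e (nat_lit 360467) (nat_lit 3) (.e (nat_lit 516197) (nat_lit 26) .nil))) .nil)) 
(.lf (nat_lit 158927) (.g (nat_lit 4451) (.e (nat_lit 57430) (nat_lit 16) (.e (nat_lit 368676) (nat_lit 21) (.e (nat_lit 516151) (nat_lit 9) (.e (nat_lit 426211) (nat_lit 9) (.e (nat_lit 426140) (nat_lit 3) (.e (nat_lit 212736) (nat_lit 1) (.e (nat_lit 164179) (nat_lit 154) .nil))))))) (.g (nat_lit 4) .nil .nil)))) (.nd (nat_lit 6) 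
(.lf (nat_lit 158895) (.g (nat_lit 1828) (.e (nat_lit 57428) (nat_lit 15) (.e (nat_lit 360492) (nat_lit 22) (.e (nat_lit 778466) (nat_lit 11) (.e (nat_lit 24640) (nat_lit 10) (.e (nat_lit 344095) (nat_lit 18) .nil))))) .nil)) 
(.lf (nat_lit 158959) (.g (nat_lit 473) (.e (nat_lit 57430) (nat_lit 16) (.e (nat_lit 368676) (nat_lit 21) (.e (nat_lit 516176) (nat_lit 14) .nil))) .nil)))) (.nd (nat_lit 5) (.nd (nat_lit 6) 
(.lf (nat_lit 158879) (.g (nat_lit 846) (.e (nat_lit 57428) (nat_lit 15) (.e (nat_lit 360492) (nat_lit 22) (.e (nat_lit 778362) (nat_lit 9) (.e (nat_lit 322) (nat_lit 24) .nil)))) .nil)) 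
(.lf (nat_lit 158943) (.g (nat_lit 353) (.e (nat_lit 57430) (nat_lit 16) (.e (nat_lit 368676) (nat_lit 21) (.e (nat_lit 516174) (nat_lit 14) .nil))) .nil))) (.nd (nat_lit 6) 
(.lf (nat_lit 158911) (.g (nat_lit 1129) (.e (nat_lit 57430) (nat_lit 16) (.e (nat_lit 368676) (nat_lit 21) (.e (nat_lit 516131) (nat_lit 3) (.e (nat_lit 221218) (nat_lit 24) .nil)))) .nil)) 
(.lf (nat_lit 158975) (.g (nat_lit 3181) (.e (nat_lit 57430) (nat_lit 16) (.e (nat_lit 368676) (nat_lit 21) (.e (nat_lit 516176) (nat_lit 14) (.e (nat_lit 466967) (nat_lit 20) (.e (nat_lit 3304) (nat_lit 202) (.e (nat_lit 573477) (nat_lit 12) (.e (nat_lit 57351) (nat_lit 0) (.e (nat_lit 7265) (nat_lit 384) .nil)))))))) (.g (nat_lit 6) .nil .nil))))))))))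

noncomputable def tv2128 : DT := (.nd (nat_lit 0) (.nd (nat_lit 1) (.nd (nat_lit 2) (.nd (nat_lit 3) (.nd (nat_lit 4) (.nd (nat_lit 5) (.nd (nat_lit 6) 
(.lf (nat_lit 158976) (.g (nat_lit 1810) (.e (nat_lit 57430) (nat_lit 16) (.e (nat_lit 368676) (nat_lit 21) (.e (nat_lit 516176) (nat_lit 14) (.e (nat_lit 466967) (nat_lit 20) (.e (nat_lit 3305) (nat_lit 202) .nil))))) .nil)) 
(.lf (nat_lit 159040) (.g (nat_lit 2472) (.e (nat_lit 57431) (nat_lit 16) (.e (nat_lit 368676) (nat_lit 21) (.e (nat_lit 516176) (nat_lit 14) (.e (nat_lit 466977) (nat_lit 22) (.e (nat_lit 196622) (nat_lit 9) .nil))))) .nil))) (.nd (nat_lit 6) 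
(.lf (nat_lit 159008) (.g (nat_lit 2899) (.e (nat_lit 57431) (nat_lit 16) (.e (nat_lit 368676) (nat_lit 21) (.e (nat_lit 516163) (nat_lit 11) (.e (nat_lit 442427) (nat_lit 23) (.e (nat_lit 212736) (nat_lit 1) .nil))))) .nil)) 
(.lf (nat_lit 159072) (.g (nat_lit 2118) (.e (nat_lit 57432) (nat_lit 16) (.e (nat_lit 368676) (nat_lit 21) (.e (nat_lit 516163) (nat_lit 11) (.e (nat_lit 442426) (nat_lit 23) .nil)))) .nil)))) (.nd (nat_lit 5) (.nd (nat_lit 6) 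
(.lf (nat_lit 158992) (.g (nat_lit 1844) (.e (nat_lit 57430) (nat_lit 16) (.e (nat_lit 368676) (nat_lit 21) (.e (nat_lit 516176) (nat_lit 14) (.e (nat_lit 466980) (nat_lit 23) (.e (nat_lit 212736) (nat_lit 1) (.e (nat_lit 164177) (nat_lit 154) .nil)))))) (.g (nat_lit 4) .nil .nil))) 
(.lf (nat_lit 159056) (.g (nat_lit 998) (.e (nat_lit 57432) (nat_lit 16) (.e (nat_lit 368676) (nat_lit 21) (.e (nat_lit 516141) (nat_lit 8) .nil))) .nil))) (.nd (nat_lit 6) 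
(.lf (nat_lit 159024) (.g (nat_lit 1290) (.e (nat_lit 57431) (nat_lit 16) (.e (nat_lit 368676) (nat_lit 21) (.e (nat_lit 516174) (nat_lit 14) (.e (nat_lit 466978) (nat_lit 23) .nil)))) .nil)) 
(.lf (nat_lit 159088) (.g (nat_lit 1454) (.e (nat_lit 57432) (nat_lit 16) (.e (nat_lit 368676) (nat_lit 21) (.e (nat_lit 516167) (nat_lit 12) (.e (nat_lit 450579) (nat_lit 5) .nil)))) .nil))))) (.nd (nat_lit 4) (.nd (nat_lit 5) (.nd (nat_lit 6) 
(.lf (nat_lit 158984) (.g (nat_lit 2449) (.e (nat_lit 57430) (nat_lit 16) (.e (nat_lit 368676) (nat_lit 21) (.e (nat_lit 516176) (nat_lit 14) (.e (nat_lit 466977) (nat_lit 22) (.e (nat_lit 196619) (nat_lit 9) .nil))))) .nil)) 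
(.lf (nat_lit 159048) (.g (nat_lit 1858) (.e (nat_lit 57432) (nat_lit 16) (.e (nat_lit 368676) (nat_lit 21) (.e (nat_lit 516097) (nat_lit 0) (.e (nat_lit 3776) (nat_lit 229) .nil)))) .nil))) (.nd (nat_lit 6) 
(.lf (nat_lit 159016) (.g (nat_lit 1187) (.e (nat_lit 57431) (nat_lit 16) (.e (nat_lit 368676) (nat_lit 21) (.e (nat_lit 516169) (nat_lit 13) (.e (nat_lit 458769) (nat_lit 16) .nil)))) .nil)) 
(.lf (nat_lit 159080) (.g (nat_lit 3747) (.e (nat_lit 57432) (nat_lit 16) (.e (nat_lit 368676) (nat_lit 21) (.e (nat_lit 516165) (nat_lit 12) (.e (nat_lit 450579) (nat_lit 5) (.e (nat_lit 532504) (nat_lit 1) (.e (nat_lit 65280) (nat_lit 223) .nil)))))) (.g (nat_lit 5) .nil .nil))))) (.nd (nat_lit 5) (.nd (nat_lit 6) 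
(.lf (nat_lit 159000) (.g (nat_lit 1757) (.e (nat_lit 57431) (nat_lit 16) (.e (nat_lit 368676) (nat_lit 21) (.e (nat_lit 516150) (nat_lit 9) (.e (nat_lit 426422) (nat_lit 16) .nil)))) .nil)) 
(.lf (nat_lit 159064) (.g (nat_lit 3669) (.e (nat_lit 57432) (nat_lit 16) (.e (nat_lit 368676) (nat_lit 21) (.e (nat_lit 516151) (nat_lit 9) (.e (nat_lit 426170) (nat_lit 7) (.e (nat_lit 409612) (nat_lit 10) .nil))))) .nil))) (.nd (nat_lit 6) 
(.lf (nat_lit 159032) (.g (nat_lit 1924) (.e (nat_lit 57431) (nat_lit 16) (.e (nat_lit 368676) (nat_lit 21) (.e (nat_lit 516176) (nat_lit 14) (.e (nat_lit 466967) (nat_lit 20) (.e (nat_lit 7936) (nat_lit 200) .nil))))) .nil)) 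
(.lf (nat_lit 159096) (.g (nat_lit 1202) (.e (nat_lit 57432) (nat_lit 16) (.e (nat_lit 368676) (nat_lit 21) (.e (nat_lit 516174) (nat_lit 14) (.e (nat_lit 466967) (nat_lit 20) .nil)))) .nil)))))) (.nd (nat_lit 3) (.nd (nat_lit 4) (.nd (nat_lit 5) (.nd (nat_lit 6) 
(.lf (nat_lit 158980) (.g (nat_lit 1536) (.e (nat_lit 57430) (nat_lit 16) (.e (nat_lit 368676) (nat_lit 21) (.e (nat_lit 516176) (nat_lit 14) (.e (nat_lit 466976) (nat_lit 22) .nil)))) .nil)) 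
(.lf (nat_lit 159044) (.g (nat_lit 1355) (.e (nat_lit 57431) (nat_lit 16) (.e (nat_lit 368676) (nat_lit 21) (.e (nat_lit 516176) (nat_lit 14) (.e (nat_lit 466979) (nat_lit 23) .nil)))) .nil))) (.nd (nat_lit 6) 
(.lf (nat_lit 159012) (.g (nat_lit 2670) (.e (nat_lit 57431) (nat_lit 16) (.e (nat_lit 368676) (nat_lit 21) (.e (nat_lit 516165) (nat_lit 12) (.e (nat_lit 450579) (nat_lit 5) (.e (nat_lit 532504) (nat_lit 1) (.e (nat_lit 65280) (nat_lit 223) .nil)))))) (.g (nat_lit 4) .nil .nil))) 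
(.lf (nat_lit 159076) (.g (nat_lit 1416) (.e (nat_lit 57432) (nat_lit 16) (.e (nat_lit 368676) (nat_lit 21) (.e (nat_lit 516165) (nat_lit 12) (.e (nat_lit 458496) (nat_lit 3) .nil)))) .nil)))) (.nd (nat_lit 5) (.nd (nat_lit 6) 
(.lf (nat_lit 158996) (.g (nat_lit 1580) (.e (nat_lit 57431) (nat_lit 16) (.e (nat_lit 368676) (nat_lit 21) (.e (nat_lit 516131) (nat_lit 3) (.e (nat_lit 221219) (nat_lit 24) (.e (nat_lit 213001) (nat_lit 9) .nil))))) .nil)) 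
(.lf (nat_lit 159060) (.g (nat_lit 1119) (.e (nat_lit 57432) (nat_lit 16) (.e (nat_lit 368676) (nat_lit 21) (.e (nat_lit 516149) (nat_lit 9) (.e (nat_lit 426294) (nat_lit 11) .nil)))) .nil))) (.nd (nat_lit 6) 
(.lf (nat_lit 159028) (.g (nat_lit 361) (.e (nat_lit 57431) (nat_lit 16) (.e (nat_lit 368676) (nat_lit 21) (.e (nat_lit 516176) (nat_lit 14) .nil))) .nil)) 
(.lf (nat_lit 159092) (.g (nat_lit 1123) (.e (nat_lit 57432) (nat_lit 16) (.e (nat_lit 368676) (nat_lit 21) (.e (nat_lit 516171) (nat_lit 13) (.e (nat_lit 458761) (nat_lit 13) .nil)))) .nil))))) (.nd (nat_lit 4) (.nd (nat_lit 5) (.nd (nat_lit 6) 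
(.lf (nat_lit 158988) (.g (nat_lit 2230) (.e (nat_lit 57430) (nat_lit 16) (.e (nat_lit 368676) (nat_lit 21) (.e (nat_lit 516176) (nat_lit 14) (.e (nat_lit 466977) (nat_lit 22) (.e (nat_lit 196651) (nat_lit 10) (.e (nat_lit 8198) (nat_lit 0) (.e (nat_lit 6392) (nat_lit 339) .nil))))))) (.g (nat_lit 4) .nil .nil))) 
(.lf (nat_lit 159052) (.g (nat_lit 1141) (.e (nat_lit 57432) (nat_lit 16) (.e (nat_lit 368676) (nat_lit 21) (.e (nat_lit 516131) (nat_lit 3) (.e (nat_lit 221217) (nat_lit 24) .nil)))) .nil))) (.nd (nat_lit 6) 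
(.lf (nat_lit 159020) (.g (nat_lit 1260) (.e (nat_lit 57431) (nat_lit 16) (.e (nat_lit 368676) (nat_lit 21) (.e (nat_lit 516174) (nat_lit 14) (.e (nat_lit 466963) (nat_lit 20) .nil)))) .nil)) 
(.lf (nat_lit 159084) (.g (nat_lit 2693) (.e (nat_lit 57432) (nat_lit 16) (.e (nat_lit 368676) (nat_lit 21) (.e (nat_lit 516165) (nat_lit 12) (.e (nat_lit 450586) (nat_lit 10) (.e (nat_lit 573478) (nat_lit 12) (.e (nat_lit 57352) (nat_lit 0) (.e (nat_lit 7261) (nat_lit 384) .nil))))))) (.g (nat_lit 4) .nil .nil))))) (.nd (nat_lit 5) (.nd (nat_lit 6) 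
(.lf (nat_lit 159004) (.g (nat_lit 3772) (.e (nat_lit 57431) (nat_lit 16) (.e (nat_lit 368676) (nat_lit 21) (.e (nat_lit 516151) (nat_lit 9) (.e (nat_lit 426170) (nat_lit 7) (.e (nat_lit 409617) (nat_lit 10) (.e (nat_lit 604) (nat_lit 45) (.e (nat_lit 532504) (nat_lit 1) (.e (nat_lit 57852) (nat_lit 252) .nil)))))))) (.g (nat_lit 4) .nil .nil))) 
(.lf (nat_lit 159068) (.g (nat_lit 994) (.e (nat_lit 57432) (nat_lit 16) (.e (nat_lit 368676) (nat_lit 21) (.e (nat_lit 516153) (nat_lit 9) .nil))) .nil))) (.nd (nat_lit 6) 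
(.lf (nat_lit 159036) (.g (nat_lit 1892) (.e (nat_lit 57431) (nat_lit 16) (.e (nat_lit 368676) (nat_lit 21) (.e (nat_lit 516176) (nat_lit 14) (.e (nat_lit 466975) (nat_lit 22) .nil)))) .nil)) 
(.lf (nat_lit 159100) (.g (nat_lit 1300) (.e (nat_lit 57432) (nat_lit 16) (.e (nat_lit 368676) (nat_lit 21) (.e (nat_lit 516174) (nat_lit 14) (.e (nat_lit 466974) (nat_lit 22) .nil)))) .nil))))))) (.nd (nat_lit 2) (.nd (nat_lit 3) (.nd (nat_lit 4) (.nd (nat_lit 5) (.nd (nat_lit 6) 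
(.lf (nat_lit 158978) (.g (nat_lit 2697) (.e (nat_lit 57430) (nat_lit 16) (.e (nat_lit 368676) (nat_lit 21) (.e (nat_lit 516176) (nat_lit 14) (.e (nat_lit 466972) (nat_lit 21) (.e (nat_lit 171776) (nat_lit 136) .nil))))) .nil)) 
(.lf (nat_lit 159042) (.g (nat_lit 2048) (.e (nat_lit 57431) (nat_lit 16) (.e (nat_lit 368676) (nat_lit 21) (.e (nat_lit 516176) (nat_lit 14) (.e (nat_lit 466977) (nat_lit 22) (.e (nat_lit 196651) (nat_lit 10) .nil))))) .nil))) (.nd (nat_lit 6) 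
(.lf (nat_lit 159010) (.g (nat_lit 724) (.e (nat_lit 57431) (nat_lit 16) (.e (nat_lit 368676) (nat_lit 21) (.e (nat_lit 516165) (nat_lit 12) .nil))) .nil)) 
(.lf (nat_lit 159074) (.g (nat_lit 995) (.e (nat_lit 57432) (nat_lit 16) (.e (nat_lit 368676) (nat_lit 21) (.e (nat_lit 516164) (nat_lit 11) .nil))) .nil)))) (.nd (nat_lit 5) (.nd (nat_lit 6) 
(.lf (nat_lit 158994) (.g (nat_lit 620) (.e (nat_lit 57431) (nat_lit 16) (.e (nat_lit 368676) (nat_lit 21) (.e (nat_lit 516131) (nat_lit 3) .nil))) .nil)) 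
(.lf (nat_lit 159058) (.g (nat_lit 1594) (.e (nat_lit 57432) (nat_lit 16) (.e (nat_lit 368676) (nat_lit 21) (.e (nat_lit 516146) (nat_lit 9) (.e (nat_lit 426294) (nat_lit 11) .nil)))) .nil))) (.nd (nat_lit 6) 
(.lf (nat_lit 159026) (.g (nat_lit 1880) (.e (nat_lit 57431) (nat_lit 16) (.e (nat_lit 368676) (nat_lit 21) (.e (nat_lit 516174) (nat_lit 14) (.e (nat_lit 466980) (nat_lit 23) (.e (nat_lit 212736) (nat_lit 1) .nil))))) .nil)) 
(.lf (nat_lit 159090) (.g (nat_lit 1113) (.e (nat_lit 57432) (nat_lit 16) (.e (nat_lit 368676) (nat_lit 21) (.e (nat_lit 516169) (nat_lit 13) (.e (nat_lit 458761) (nat_lit 13) .nil)))) .nil))))) (.nd (nat_lit 4) (.nd (nat_lit 5) (.nd (nat_lit 6) 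
(.lf (nat_lit 158986) (.g (nat_lit 2399) (.e (nat_lit 57430) (nat_lit 16) (.e (nat_lit 368676) (nat_lit 21) (.e (nat_lit 516176) (nat_lit 14) (.e (nat_lit 466977) (nat_lit 22) (.e (nat_lit 196649) (nat_lit 10) .nil))))) .nil)) 
(.lf (nat_lit 159050) (.g (nat_lit 1694) (.e (nat_lit 57432) (nat_lit 16) (.e (nat_lit 368676) (nat_lit 21) (.e (nat_lit 516117) (nat_lit 1) (.e (nat_lit 164203) (nat_lit 170) .nil)))) .nil))) (.nd (nat_lit 6) 
(.lf (nat_lit 159018) (.g (nat_lit 1181) (.e (nat_lit 57431) (nat_lit 16) (.e (nat_lit 368676) (nat_lit 21) (.e (nat_lit 516171) (nat_lit 13) (.e (nat_lit 458769) (nat_lit 16) .nil)))) .nil)) 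
(.lf (nat_lit 159082) (.g (nat_lit 3578) (.e (nat_lit 57432) (nat_lit 16) (.e (nat_lit 368676) (nat_lit 21) (.e (nat_lit 516165) (nat_lit 12) (.e (nat_lit 450586) (nat_lit 10) (.e (nat_lit 573473) (nat_lit 12) (.e (nat_lit 57353) (nat_lit 0) (.e (nat_lit 7261) (nat_lit 384) .nil))))))) (.g (nat_lit 5) .nil .nil))))) (.nd (nat_lit 5) (.nd (nat_lit 6) 
(.lf (nat_lit 159002) (.g (nat_lit 2566) (.e (nat_lit 57431) (nat_lit 16) (.e (nat_lit 368676) (nat_lit 21) (.e (nat_lit 516151) (nat_lit 9) (.e (nat_lit 426170) (nat_lit 7) .nil)))) .nil)) 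
(.lf (nat_lit 159066) (.g (nat_lit 3961) (.e (nat_lit 57432) (nat_lit 16) (.e (nat_lit 368676) (nat_lit 21) (.e (nat_lit 516151) (nat_lit 9) (.e (nat_lit 426211) (nat_lit 9) (.e (nat_lit 426125) (nat_lit 2) .nil))))) .nil))) (.nd (nat_lit 6) 
(.lf (nat_lit 159034) (.g (nat_lit 2394) (.e (nat_lit 57431) (nat_lit 16) (.e (nat_lit 368676) (nat_lit 21) (.e (nat_lit 516176) (nat_lit 14) (.e (nat_lit 466967) (nat_lit 20) (.e (nat_lit 3304) (nat_lit 202) (.e (nat_lit 573478) (nat_lit 12) (.e (nat_lit 57351) (nat_lit 0) (.e (nat_lit 7265) (nat_lit 384) .nil)))))))) (.g (nat_lit 5) .nil .nil))) 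
(.lf (nat_lit 159098) (.g (nat_lit 1416) (.e (nat_lit 57432) (nat_lit 16) (.e (nat_lit 368676) (nat_lit 21) (.e (nat_lit 516174) (nat_lit 14) (.e (nat_lit 466967) (nat_lit 20) (.e (nat_lit 3304) (nat_lit 202) .nil))))) .nil)))))) (.nd (nat_lit 3) (.nd (nat_lit 4) (.nd (nat_lit 5) (.nd (nat_lit 6) 
(.lf (nat_lit 158982) (.g (nat_lit 1566) (.e (nat_lit 57430) (nat_lit 16) (.e (nat_lit 368676) (nat_lit 21) (.e (nat_lit 516176) (nat_lit 14) (.e (nat_lit 466977) (nat_lit 22) .nil)))) .nil)) 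
(.lf (nat_lit 159046) (.g (nat_lit 2384) (.e (nat_lit 57431) (nat_lit 16) (.e (nat_lit 368676) (nat_lit 21) (.e (nat_lit 516176) (nat_lit 14) (.e (nat_lit 466981) (nat_lit 23) (.e (nat_lit 212736) (nat_lit 1) .nil))))) .nil))) (.nd (nat_lit 6) 
(.lf (nat_lit 159014) (.g (nat_lit 1085) (.e (nat_lit 57431) (nat_lit 16) (.e (nat_lit 368676) (nat_lit 21) (.e (nat_lit 516167) (nat_lit 12) .nil))) .nil)) 
(.lf (nat_lit 159078) (.g (nat_lit 3797) (.e (nat_lit 57432) (nat_lit 16) (.e (nat_lit 368676) (nat_lit 21) (.e (nat_lit 516165) (nat_lit 12) (.e (nat_lit 450579) (nat_lit 5) (.e (nat_lit 532501) (nat_lit 1) (.e (nat_lit 65280) (nat_lit 223) .nil)))))) (.g (nat_lit 5) .nil .nil))))) (.nd (nat_lit 5) (.nd (nat_lit 6) 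
(.lf (nat_lit 158998) (.g (nat_lit 1720) (.e (nat_lit 57431) (nat_lit 16) (.e (nat_lit 368676) (nat_lit 21) (.e (nat_lit 516150) (nat_lit 9) (.e (nat_lit 426294) (nat_lit 11) .nil)))) .nil)) 
(.lf (nat_lit 159062) (.g (nat_lit 2539) (.e (nat_lit 57432) (nat_lit 16) (.e (nat_lit 368676) (nat_lit 21) (.e (nat_lit 516151) (nat_lit 9) (.e (nat_lit 426170) (nat_lit 7) .nil)))) .nil))) (.nd (nat_lit 6) 
(.lf (nat_lit 159030) (.g (nat_lit 1824) (.e (nat_lit 57431) (nat_lit 16) (.e (nat_lit 368676) (nat_lit 21) (.e (nat_lit 516176) (nat_lit 14) (.e (nat_lit 466963) (nat_lit 20) .nil)))) .nil)) 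
(.lf (nat_lit 159094) (.g (nat_lit 1322) (.e (nat_lit 57432) (nat_lit 16) (.e (nat_lit 368676) (nat_lit 21) (.e (nat_lit 516174) (nat_lit 14) (.e (nat_lit 466956) (nat_lit 20) .nil)))) .nil))))) (.nd (nat_lit 4) (.nd (nat_lit 5) (.nd (nat_lit 6) 
(.lf (nat_lit 158990) (.g (nat_lit 1643) (.e (nat_lit 57430) (nat_lit 16) (.e (nat_lit 368676) (nat_lit 21) (.e (nat_lit 516176) (nat_lit 14) (.e (nat_lit 466978) (nat_lit 23) (.e (nat_lit 212736) (nat_lit 1) (.e (nat_lit 164179) (nat_lit 154) .nil)))))) (.g (nat_lit 4) .nil .nil))) 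
(.lf (nat_lit 159054) (.g (nat_lit 1077) (.e (nat_lit 57432) (nat_lit 16) (.e (nat_lit 368676) (nat_lit 21) (.e (nat_lit 516131) (nat_lit 3) (.e (nat_lit 221219) (nat_lit 24) .nil)))) .nil))) (.nd (nat_lit 6) 
(.lf (nat_lit 159022) (.g (nat_lit 2150) (.e (nat_lit 57431) (nat_lit 16) (.e (nat_lit 368676) (nat_lit 21) (.e (nat_lit 516174) (nat_lit 14) (.e (nat_lit 466967) (nat_lit 20) (.e (nat_lit 3304) (nat_lit 202) (.e (nat_lit 573477) (nat_lit 12) (.e (nat_lit 57351) (nat_lit 0) (.e (nat_lit 7265) (nat_lit 384) .nil)))))))) (.g (nat_lit 5) .nil .nil))) 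
(.lf (nat_lit 159086) (.g (nat_lit 995) (.e (nat_lit 57432) (nat_lit 16) (.e (nat_lit 368676) (nat_lit 21) (.e (nat_lit 516167) (nat_lit 12) .nil))) .nil)))) (.nd (nat_lit 5) (.nd (nat_lit 6) 
(.lf (nat_lit 159006) (.g (nat_lit 2673) (.e (nat_lit 57431) (nat_lit 16) (.e (nat_lit 368676) (nat_lit 21) (.e (nat_lit 516153) (nat_lit 9) (.e (nat_lit 426173) (nat_lit 7) (.e (nat_lit 409617) (nat_lit 10) (.e (nat_lit 604) (nat_lit 45) (.e (nat_lit 532501) (nat_lit 1) (.e (nat_lit 57851) (nat_lit 252) .nil)))))))) (.g (nat_lit 5) .nil .nil))) 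
(.lf (nat_lit 159070) (.g (nat_lit 994) (.e (nat_lit 57432) (nat_lit 16) (.e (nat_lit 368676) (nat_lit 21) (.e (nat_lit 516163) (nat_lit 11) .nil))) .nil))) (.nd (nat_lit 6) 
(.lf (nat_lit 159038) (.g (nat_lit 2070) (.e (nat_lit 57431) (nat_lit 16) (.e (nat_lit 368676) (nat_lit 21) (.e (nat_lit 516176) (nat_lit 14) (.e (nat_lit 466976) (nat_lit 22) (.e (nat_lit 196628) (nat_lit 9) .nil))))) .nil)) 
(.lf (nat_lit 159102) (.g (nat_lit 1999) (.e (nat_lit 57432) (nat_lit 16) (.e (nat_lit 368676) (nat_lit 21) (.e (nat_lit 516174) (nat_lit 14) (.e (nat_lit 466974) (nat_lit 22) (.e (nat_lit 196619) (nat_lit 9) .nil))))) .nil)))))))) (.nd (nat_lit 1) (.nd (nat_lit 2) (.nd (nat_lit 3) (.nd (nat_lit 4) (.nd (nat_lit 5) (.nd (nat_lit 6) 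
(.lf (nat_lit 158977) (.g (nat_lit 3422) (.e (nat_lit 57430) (nat_lit 16) (.e (nat_lit 368676) (nat_lit 21) (.e (nat_lit 516176) (nat_lit 14) (.e (nat_lit 466967) (nat_lit 20) (.e (nat_lit 3305) (nat_lit 202) (.e (nat_lit 573477) (nat_lit 12) (.e (nat_lit 57351) (nat_lit 0) (.e (nat_lit 7261) (nat_lit 384) .nil)))))))) (.g (nat_lit 6) .nil .nil))) 
(.lf (nat_lit 159041) (.g (nat_lit 2083) (.e (nat_lit 57431) (nat_lit 16) (.e (nat_lit 368676) (nat_lit 21) (.e (nat_lit 516176) (nat_lit 14) (.e (nat_lit 466977) (nat_lit 22) (.e (nat_lit 196624) (nat_lit 9) .nil))))) .nil))) (.nd (nat_lit 6) 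
(.lf (nat_lit 159009) (.g (nat_lit 1802) (.e (nat_lit 57431) (nat_lit 16) (.e (nat_lit 368676) (nat_lit 21) (.e (nat_lit 516163) (nat_lit 11) (.e (nat_lit 442430) (nat_lit 24) .nil)))) .nil)) 
(.lf (nat_lit 159073) (.g (nat_lit 2882) (.e (nat_lit 57432) (nat_lit 16) (.e (nat_lit 368676) (nat_lit 21) (.e (nat_lit 516163) (nat_lit 11) (.e (nat_lit 442427) (nat_lit 23) (.e (nat_lit 212736) (nat_lit 1) .nil))))) .nil)))) (.nd (nat_lit 5) (.nd (nat_lit 6) 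
(.lf (nat_lit 158993) (.g (nat_lit 1601) (.e (nat_lit 57430) (nat_lit 16) (.e (nat_lit 368676) (nat_lit 21) (.e (nat_lit 516176) (nat_lit 14) (.e (nat_lit 466981) (nat_lit 23) .nil)))) .nil)) 
(.lf (nat_lit 159057) (.g (nat_lit 995) (.e (nat_lit 57432) (nat_lit 16) (.e (nat_lit 368676) (nat_lit 21) (.e (nat_lit 516143) (nat_lit 9) .nil))) .nil))) (.nd (nat_lit 6) 
(.lf (nat_lit 159025) (.g (nat_lit 1063) (.e (nat_lit 57431) (nat_lit 16) (.e (nat_lit 368676) (nat_lit 21) (.e (nat_lit 516174) (nat_lit 14) (.e (nat_lit 466979) (nat_lit 23) .nil)))) .nil)) 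
(.lf (nat_lit 159089) (.g (nat_lit 471) (.e (nat_lit 57432) (nat_lit 16) (.e (nat_lit 368676) (nat_lit 21) (.e (nat_lit 516169) (nat_lit 13) .nil))) .nil))))) (.nd (nat_lit 4) (.nd (nat_lit 5) (.nd (nat_lit 6) 
(.lf (nat_lit 158985) (.g (nat_lit 2134) (.e (nat_lit 57430) (nat_lit 16) (.e (nat_lit 368676) (nat_lit 21) (.e (nat_lit 516176) (nat_lit 14) (.e (nat_lit 466977) (nat_lit 22) (.e (nat_lit 196624) (nat_lit 9) .nil))))) .nil)) 
(.lf (nat_lit 159049) (.g (nat_lit 544) (.e (nat_lit 57432) (nat_lit 16) (.e (nat_lit 368676) (nat_lit 21) (.e (nat_lit 516117) (nat_lit 1) .nil))) .nil))) (.nd (nat_lit 6) 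
(.lf (nat_lit 159017) (.g (nat_lit 677) (.e (nat_lit 57431) (nat_lit 16) (.e (nat_lit 368676) (nat_lit 21) (.e (nat_lit 516171) (nat_lit 13) .nil))) .nil)) 
(.lf (nat_lit 159081) (.g (nat_lit 3349) (.e (nat_lit 57432) (nat_lit 16) (.e (nat_lit 368676) (nat_lit 21) (.e (nat_lit 516165) (nat_lit 12) (.e (nat_lit 450586) (nat_lit 10) (.e (nat_lit 573473) (nat_lit 12) (.e (nat_lit 57352) (nat_lit 0) (.e (nat_lit 7261) (nat_lit 384) .nil))))))) (.g (nat_lit 5) .nil .nil))))) (.nd (nat_lit 5) (.nd (nat_lit 6) 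
(.lf (nat_lit 159001) (.g (nat_lit 1013) (.e (nat_lit 57431) (nat_lit 16) (.e (nat_lit 368676) (nat_lit 21) (.e (nat_lit 516151) (nat_lit 9) .nil))) .nil)) 
(.lf (nat_lit 159065) (.g (nat_lit 3289) (.e (nat_lit 57432) (nat_lit 16) (.e (nat_lit 368676) (nat_lit 21) (.e (nat_lit 516151) (nat_lit 9) (.e (nat_lit 426173) (nat_lit 7) (.e (nat_lit 409617) (nat_lit 10) .nil))))) .nil))) (.nd (nat_lit 6) 
(.lf (nat_lit 159033) (.g (nat_lit 1719) (.e (nat_lit 57431) (nat_lit 16) (.e (nat_lit 368676) (nat_lit 21) (.e (nat_lit 516176) (nat_lit 14) (.e (nat_lit 466967) (nat_lit 20) (.e (nat_lit 3304) (nat_lit 202) .nil))))) .nil)) 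
(.lf (nat_lit 159097) (.g (nat_lit 1408) (.e (nat_lit 57432) (nat_lit 16) (.e (nat_lit 368676) (nat_lit 21) (.e (nat_lit 516174) (nat_lit 14) (.e (nat_lit 466967) (nat_lit 20) (.e (nat_lit 7936) (nat_lit 195) .nil))))) .nil)))))) (.nd (nat_lit 3) (.nd (nat_lit 4) (.nd (nat_lit 5) (.nd (nat_lit 6) 
(.lf (nat_lit 158981) (.g (nat_lit 2047) (.e (nat_lit 57430) (nat_lit 16) (.e (nat_lit 368676) (nat_lit 21) (.e (nat_lit 516176) (nat_lit 14) (.e (nat_lit 466976) (nat_lit 22) (.e (nat_lit 196622) (nat_lit 9) .nil))))) .nil)) 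
(.lf (nat_lit 159045) (.g (nat_lit 1813) (.e (nat_lit 57431) (nat_lit 16) (.e (nat_lit 368676) (nat_lit 21) (.e (nat_lit 516176) (nat_lit 14) (.e (nat_lit 466980) (nat_lit 23) (.e (nat_lit 212736) (nat_lit 1) .nil))))) .nil))) (.nd (nat_lit 6) 
(.lf (nat_lit 159013) (.g (nat_lit 2599) (.e (nat_lit 57431) (nat_lit 16) (.e (nat_lit 368676) (nat_lit 21) (.e (nat_lit 516165) (nat_lit 12) (.e (nat_lit 450587) (nat_lit 10) (.e (nat_lit 573478) (nat_lit 12) .nil))))) .nil)) 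
(.lf (nat_lit 159077) (.g (nat_lit 3026) (.e (nat_lit 57432) (nat_lit 16) (.e (nat_lit 368676) (nat_lit 21) (.e (nat_lit 516165) (nat_lit 12) (.e (nat_lit 450579) (nat_lit 5) (.e (nat_lit 532499) (nat_lit 1) (.e (nat_lit 65280) (nat_lit 223) .nil)))))) (.g (nat_lit 5) .nil .nil))))) (.nd (nat_lit 5) (.nd (nat_lit 6) 
(.lf (nat_lit 158997) (.g (nat_lit 1582) (.e (nat_lit 57431) (nat_lit 16) (.e (nat_lit 368676) (nat_lit 21) (.e (nat_lit 516131) (nat_lit 3) (.e (nat_lit 221219) (nat_lit 24) (.e (nat_lit 213003) (nat_lit 9) .nil))))) .nil)) 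
(.lf (nat_lit 159061) (.g (nat_lit 1758) (.e (nat_lit 57432) (nat_lit 16) (.e (nat_lit 368676) (nat_lit 21) (.e (nat_lit 516150) (nat_lit 9) (.e (nat_lit 426294) (nat_lit 11) (.e (nat_lit 466688) (nat_lit 21) .nil))))) .nil))) (.nd (nat_lit 6) 
(.lf (nat_lit 159029) (.g (nat_lit 1222) (.e (nat_lit 57431) (nat_lit 16) (.e (nat_lit 368676) (nat_lit 21) (.e (nat_lit 516176) (nat_lit 14) (.e (nat_lit 474880) (nat_lit 3) .nil)))) .nil)) 
(.lf (nat_lit 159093) (.g (nat_lit 323) (.e (nat_lit 57432) (nat_lit 16) (.e (nat_lit 368676) (nat_lit 21) (.e (nat_lit 516174) (nat_lit 14) .nil))) .nil))))) (.nd (nat_lit 4) (.nd (nat_lit 5) (.nd (nat_lit 6) 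
(.lf (nat_lit 158989) (.g (nat_lit 1587) (.e (nat_lit 57430) (nat_lit 16) (.e (nat_lit 368676) (nat_lit 21) (.e (nat_lit 516176) (nat_lit 14) (.e (nat_lit 466978) (nat_lit 23) (.e (nat_lit 212736) (nat_lit 1) (.e (nat_lit 164177) (nat_lit 154) .nil)))))) (.g (nat_lit 4) .nil .nil))) 
(.lf (nat_lit 159053) (.g (nat_lit 1048) (.e (nat_lit 57432) (nat_lit 16) (.e (nat_lit 368676) (nat_lit 21) (.e (nat_lit 516131) (nat_lit 3) (.e (nat_lit 221218) (nat_lit 24) .nil)))) .nil))) (.nd (nat_lit 6) 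
(.lf (nat_lit 159021) (.g (nat_lit 1153) (.e (nat_lit 57431) (nat_lit 16) (.e (nat_lit 368676) (nat_lit 21) (.e (nat_lit 516174) (nat_lit 14) (.e (nat_lit 466967) (nat_lit 20) .nil)))) .nil)) 
(.lf (nat_lit 159085) (.g (nat_lit 2576) (.e (nat_lit 57432) (nat_lit 16) (.e (nat_lit 368676) (nat_lit 21) (.e (nat_lit 516165) (nat_lit 12) (.e (nat_lit 450587) (nat_lit 10) (.e (nat_lit 573478) (nat_lit 12) .nil))))) .nil)))) (.nd (nat_lit 5) (.nd (nat_lit 6) 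
(.lf (nat_lit 159005) (.g (nat_lit 2563) (.e (nat_lit 57431) (nat_lit 16) (.e (nat_lit 368676) (nat_lit 21) (.e (nat_lit 516151) (nat_lit 9) (.e (nat_lit 426171) (nat_lit 7) .nil)))) .nil)) 
(.lf (nat_lit 159069) (.g (nat_lit 995) (.e (nat_lit 57432) (nat_lit 16) (.e (nat_lit 368676) (nat_lit 21) (.e (nat_lit 516162) (nat_lit 11) .nil))) .nil))) (.nd (nat_lit 6) 
(.lf (nat_lit 159037) (.g (nat_lit 1601) (.e (nat_lit 57431) (nat_lit 16) (.e (nat_lit 368676) (nat_lit 21) (.e (nat_lit 516176) (nat_lit 14) (.e (nat_lit 466976) (nat_lit 22) .nil)))) .nil)) 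
(.lf (nat_lit 159101) (.g (nat_lit 2127) (.e (nat_lit 57432) (nat_lit 16) (.e (nat_lit 368676) (nat_lit 21) (.e (nat_lit 516174) (nat_lit 14) (.e (nat_lit 466974) (nat_lit 22) (.e (nat_lit 196618) (nat_lit 9) .nil))))) .nil))))))) (.nd (nat_lit 2) (.nd (nat_lit 3) (.nd (nat_lit 4) (.nd (nat_lit 5) (.nd (nat_lit 6) 
(.lf (nat_lit 158979) (.g (nat_lit 2016) (.e (nat_lit 57430) (nat_lit 16) (.e (nat_lit 368676) (nat_lit 21) (.e (nat_lit 516176) (nat_lit 14) (.e (nat_lit 466975) (nat_lit 22) .nil)))) .nil)) 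
(.lf (nat_lit 159043) (.g (nat_lit 1512) (.e (nat_lit 57431) (nat_lit 16) (.e (nat_lit 368676) (nat_lit 21) (.e (nat_lit 516176) (nat_lit 14) (.e (nat_lit 466978) (nat_lit 23) .nil)))) .nil))) (.nd (nat_lit 6) 
(.lf (nat_lit 159011) (.g (nat_lit 2720) (.e (nat_lit 57431) (nat_lit 16) (.e (nat_lit 368676) (nat_lit 21) (.e (nat_lit 516165) (nat_lit 12) (.e (nat_lit 450579) (nat_lit 5) (.e (nat_lit 532501) (nat_lit 1) (.e (nat_lit 65280) (nat_lit 223) .nil)))))) (.g (nat_lit 4) .nil .nil))) 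
(.lf (nat_lit 159075) (.g (nat_lit 634) (.e (nat_lit 57432) (nat_lit 16) (.e (nat_lit 368676) (nat_lit 21) (.e (nat_lit 516165) (nat_lit 12) .nil))) .nil)))) (.nd (nat_lit 5) (.nd (nat_lit 6) 
(.lf (nat_lit 158995) (.g (nat_lit 1208) (.e (nat_lit 57431) (nat_lit 16) (.e (nat_lit 368676) (nat_lit 21) (.e (nat_lit 516131) (nat_lit 3) (.e (nat_lit 221219) (nat_lit 24) .nil)))) .nil)) 
(.lf (nat_lit 159059) (.g (nat_lit 995) (.e (nat_lit 57432) (nat_lit 16) (.e (nat_lit 368676) (nat_lit 21) (.e (nat_lit 516148) (nat_lit 9) .nil))) .nil))) (.nd (nat_lit 6) 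
(.lf (nat_lit 159027) (.g (nat_lit 1629) (.e (nat_lit 57431) (nat_lit 16) (.e (nat_lit 368676) (nat_lit 21) (.e (nat_lit 516174) (nat_lit 14) (.e (nat_lit 466981) (nat_lit 23) (.e (nat_lit 212736) (nat_lit 1) .nil))))) .nil)) 
(.lf (nat_lit 159091) (.g (nat_lit 551) (.e (nat_lit 57432) (nat_lit 16) (.e (nat_lit 368676) (nat_lit 21) (.e (nat_lit 516171) (nat_lit 13) .nil))) .nil))))) (.nd (nat_lit 4) (.nd (nat_lit 5) (.nd (nat_lit 6) 
(.lf (nat_lit 158987) (.g (nat_lit 2099) (.e (nat_lit 57430) (nat_lit 16) (.e (nat_lit 368676) (nat_lit 21) (.e (nat_lit 516176) (nat_lit 14) (.e (nat_lit 466977) (nat_lit 22) (.e (nat_lit 196651) (nat_lit 10) .nil))))) .nil)) 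
(.lf (nat_lit 159051) (.g (nat_lit 1463) (.e (nat_lit 57432) (nat_lit 16) (.e (nat_lit 368676) (nat_lit 21) (.e (nat_lit 516129) (nat_lit 3) (.e (nat_lit 221220) (nat_lit 25) .nil)))) .nil))) (.nd (nat_lit 6) 
(.lf (nat_lit 159019) (.g (nat_lit 329) (.e (nat_lit 57431) (nat_lit 16) (.e (nat_lit 368676) (nat_lit 21) (.e (nat_lit 516174) (nat_lit 14) .nil))) .nil)) 
(.lf (nat_lit 159083) (.g (nat_lit 3588) (.e (nat_lit 57432) (nat_lit 16) (.e (nat_lit 368676) (nat_lit 21) (.e (nat_lit 516165) (nat_lit 12) (.e (nat_lit 450586) (nat_lit 10) (.e (nat_lit 573475) (nat_lit 12) (.e (nat_lit 57351) (nat_lit 0) (.e (nat_lit 7261) (nat_lit 384) .nil))))))) (.g (nat_lit 5) .nil .nil))))) (.nd (nat_lit 5) (.nd (nat_lit 6) 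
(.lf (nat_lit 159003) (.g (nat_lit 3695) (.e (nat_lit 57431) (nat_lit 16) (.e (nat_lit 368676) (nat_lit 21) (.e (nat_lit 516151) (nat_lit 9) (.e (nat_lit 426170) (nat_lit 7) (.e (nat_lit 409617) (nat_lit 10) .nil))))) .nil)) 
(.lf (nat_lit 159067) (.g (nat_lit 4090) (.e (nat_lit 57432) (nat_lit 16) (.e (nat_lit 368676) (nat_lit 21) (.e (nat_lit 516151) (nat_lit 9) (.e (nat_lit 426211) (nat_lit 9) (.e (nat_lit 426140) (nat_lit 3) .nil))))) .nil))) (.nd (nat_lit 6) 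
(.lf (nat_lit 159035) (.g (nat_lit 3699) (.e (nat_lit 57431) (nat_lit 16) (.e (nat_lit 368676) (nat_lit 21) (.e (nat_lit 516176) (nat_lit 14) (.e (nat_lit 466967) (nat_lit 20) (.e (nat_lit 3305) (nat_lit 202) (.e (nat_lit 573477) (nat_lit 12) (.e (nat_lit 57352) (nat_lit 0) (.e (nat_lit 7261) (nat_lit 384) .nil)))))))) (.g (nat_lit 8) .nil .nil))) 
(.lf (nat_lit 159099) (.g (nat_lit 2343) (.e (nat_lit 57432) (nat_lit 16) (.e (nat_lit 368676) (nat_lit 21) (.e (nat_lit 516174) (nat_lit 14) (.e (nat_lit 466967) (nat_lit 20) (.e (nat_lit 3305) (nat_lit 202) (.e (nat_lit 573477) (nat_lit 12) (.e (nat_lit 57351) (nat_lit 0) (.e (nat_lit 7261) (nat_lit 384) .nil)))))))) (.g (nat_lit 5) .nil .nil))))))) 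
(.nd (nat_lit 3) (.nd (nat_lit 4) (.nd (nat_lit 5) (.nd (nat_lit 6) 
(.lf (nat_lit 158983) (.g (nat_lit 2493) (.e (nat_lit 57430) (nat_lit 16) (.e (nat_lit 368676) (nat_lit 21) (.e (nat_lit 516176) (nat_lit 14) (.e (nat_lit 466977) (nat_lit 22) (.e (nat_lit 196618) (nat_lit 9) .nil))))) .nil)) 
(.lf (nat_lit 159047) (.g (nat_lit 577) (.e (nat_lit 57432) (nat_lit 16) (.e (nat_lit 368662) (nat_lit 18) (.e (nat_lit 7147) (nat_lit 382) .nil))) .nil))) (.nd (nat_lit 6) 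
(.lf (nat_lit 159015) (.g (nat_lit 614) (.e (nat_lit 57431) (nat_lit 16) (.e (nat_lit 368676) (nat_lit 21) (.e (nat_lit 516169) (nat_lit 13) .nil))) .nil)) 
(.lf (nat_lit 159079) (.g (nat_lit 3130) (.e (nat_lit 57432) (nat_lit 16) (.e (nat_lit 368676) (nat_lit 21) (.e (nat_lit 516165) (nat_lit 12) (.e (nat_lit 450579) (nat_lit 5) (.e (nat_lit 532503) (nat_lit 1) (.e (nat_lit 65280) (nat_lit 223) .nil)))))) (.g (nat_lit 5) .nil .nil))))) (.nd (nat_lit 5) (.nd (nat_lit 6) 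
(.lf (nat_lit 158999) (.g (nat_lit 2084) (.e (nat_lit 57431) (nat_lit 16) (.e (nat_lit 368676) (nat_lit 21) (.e (nat_lit 516150) (nat_lit 9) (.e (nat_lit 426294) (nat_lit 11) (.e (nat_lit 466688) (nat_lit 21) .nil))))) .nil)) 
(.lf (nat_lit 159063) (.g (nat_lit 3669) (.e (nat_lit 57432) (nat_lit 16) (.e (nat_lit 368676) (nat_lit 21) (.e (nat_lit 516151) (nat_lit 9) (.e (nat_lit 426170) (nat_lit 7) (.e (nat_lit 409611) (nat_lit 10) .nil))))) .nil))) (.nd (nat_lit 6) 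
(.lf (nat_lit 159031) (.g (nat_lit 1434) (.e (nat_lit 57431) (nat_lit 16) (.e (nat_lit 368676) (nat_lit 21) (.e (nat_lit 516176) (nat_lit 14) (.e (nat_lit 466967) (nat_lit 20) .nil)))) .nil)) 
(.lf (nat_lit 159095) (.g (nat_lit 1322) (.e (nat_lit 57432) (nat_lit 16) (.e (nat_lit 368676) (nat_lit 21) (.e (nat_lit 516174) (nat_lit 14) (.e (nat_lit 466963) (nat_lit 20) .nil)))) .nil))))) (.nd (nat_lit 4) (.nd (nat_lit 5) (.nd (nat_lit 6) 
(.lf (nat_lit 158991) (.g (nat_lit 1957) (.e (nat_lit 57430) (nat_lit 16) (.e (nat_lit 368676) (nat_lit 21) (.e (nat_lit 516176) (nat_lit 14) (.e (nat_lit 466979) (nat_lit 23) (.e (nat_lit 212736) (nat_lit 1) .nil))))) .nil)) 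
(.lf (nat_lit 159055) (.g (nat_lit 1447) (.e (nat_lit 57432) (nat_lit 16) (.e (nat_lit 368676) (nat_lit 21) (.e (nat_lit 516131) (nat_lit 3) (.e (nat_lit 221219) (nat_lit 24) (.e (nat_lit 213004) (nat_lit 9) .nil))))) .nil))) (.nd (nat_lit 6) 
(.lf (nat_lit 159023) (.g (nat_lit 2923) (.e (nat_lit 57431) (nat_lit 16) (.e (nat_lit 368676) (nat_lit 21) (.e (nat_lit 516174) (nat_lit 14) (.e (nat_lit 466967) (nat_lit 20) (.e (nat_lit 3305) (nat_lit 202) (.e (nat_lit 573477) (nat_lit 12) (.e (nat_lit 57353) (nat_lit 0) (.e (nat_lit 7265) (nat_lit 384) .nil)))))))) (.g (nat_lit 6) .nil .nil))) 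
(.lf (nat_lit 159087) (.g (nat_lit 1453) (.e (nat_lit 57432) (nat_lit 16) (.e (nat_lit 368676) (nat_lit 21) (.e (nat_lit 516167) (nat_lit 12) (.e (nat_lit 458496) (nat_lit 3) .nil)))) .nil)))) (.nd (nat_lit 5) (.nd (nat_lit 6) 
(.lf (nat_lit 159007) (.g (nat_lit 2653) (.e (nat_lit 57431) (nat_lit 16) (.e (nat_lit 368676) (nat_lit 21) (.e (nat_lit 516153) (nat_lit 9) (.e (nat_lit 426173) (nat_lit 7) (.e (nat_lit 409617) (nat_lit 10) (.e (nat_lit 604) (nat_lit 45) (.e (nat_lit 532504) (nat_lit 1) (.e (nat_lit 57851) (nat_lit 252) .nil)))))))) (.g (nat_lit 5) .nil .nil))) 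
(.lf (nat_lit 159071) (.g (nat_lit 2955) (.e (nat_lit 57432) (nat_lit 16) (.e (nat_lit 368676) (nat_lit 21) (.e (nat_lit 516163) (nat_lit 11) (.e (nat_lit 442424) (nat_lit 22) (.e (nat_lit 196697) (nat_lit 19) .nil))))) .nil))) (.nd (nat_lit 6) 
(.lf (nat_lit 159039) (.g (nat_lit 1515) (.e (nat_lit 57431) (nat_lit 16) (.e (nat_lit 368676) (nat_lit 21) (.e (nat_lit 516176) (nat_lit 14) (.e (nat_lit 466977) (nat_lit 22) .nil)))) .nil)) 
(.lf (nat_lit 159103) (.g (nat_lit 2091) (.e (nat_lit 57432) (nat_lit 16) (.e (nat_lit 368676) (nat_lit 21) (.e (nat_lit 516174) (nat_lit 14) (.e (nat_lit 466974) (nat_lit 22) (.e (nat_lit 196620) (nat_lit 9) .nil))))) .nil)))))))))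

noncomputable def tv2129 : DT := (.nd (nat_lit 0) (.nd (nat_lit 1) (.nd (nat_lit 2) (.nd (nat_lit 3) (.nd (nat_lit 4) (.nd (nat_lit 5) (.nd (nat_lit 6) 
(.lf (nat_lit 159104) (.g (nat_lit 2043) (.e (nat_lit 57432) (nat_lit 16) (.e (nat_lit 368676) (nat_lit 21) (.e (nat_lit 516174) (nat_lit 14) (.e (nat_lit 466974) (nat_lit 22) (.e (nat_lit 196622) (nat_lit 9) .nil))))) .nil)) 
(.lf (nat_lit 159168) (.g (nat_lit 2829) (.e (nat_lit 57434) (nat_lit 17) (.e (nat_lit 376842) (nat_lit 11) (.e (nat_lit 426011) (nat_lit 0) (.e (nat_lit 7593) (nat_lit 407) (.e (nat_lit 73729) (nat_lit 0) .nil))))) .nil))) (.nd (nat_lit 6) 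
(.lf (nat_lit 159136) (.g (nat_lit 1974) (.e (nat_lit 57432) (nat_lit 16) (.e (nat_lit 368676) (nat_lit 21) (.e (nat_lit 516176) (nat_lit 14) (.e (nat_lit 466975) (nat_lit 22) .nil)))) .nil)) 
(.lf (nat_lit 159200) (.g (nat_lit 1016) (.e (nat_lit 57434) (nat_lit 17) (.e (nat_lit 376842) (nat_lit 11) (.e (nat_lit 426306) (nat_lit 12) .nil))) .nil)))) (.nd (nat_lit 5) (.nd (nat_lit 6) 
(.lf (nat_lit 159120) (.g (nat_lit 2048) (.e (nat_lit 57432) (nat_lit 16) (.e (nat_lit 368676) (nat_lit 21) (.e (nat_lit 516176) (nat_lit 14) (.e (nat_lit 466964) (nat_lit 20) .nil)))) .nil)) 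
(.lf (nat_lit 159184) (.g (nat_lit 1182) (.e (nat_lit 57434) (nat_lit 17) (.e (nat_lit 376842) (nat_lit 11) (.e (nat_lit 426196) (nat_lit 9) .nil))) .nil))) (.nd (nat_lit 6) 
(.lf (nat_lit 159152) (.g (nat_lit 1882) (.e (nat_lit 57432) (nat_lit 16) (.e (nat_lit 368676) (nat_lit 21) (.e (nat_lit 516176) (nat_lit 14) (.e (nat_lit 466977) (nat_lit 22) (.e (nat_lit 196651) (nat_lit 10) (.e (nat_lit 8200) (nat_lit 0) (.e (nat_lit 6391) (nat_lit 339) .nil))))))) (.g (nat_lit 4) .nil .nil))) 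
(.lf (nat_lit 159216) (.g (nat_lit 1155) (.e (nat_lit 57434) (nat_lit 17) (.e (nat_lit 376842) (nat_lit 11) (.e (nat_lit 426344) (nat_lit 14) .nil))) .nil))))) (.nd (nat_lit 4) (.nd (nat_lit 5) (.nd (nat_lit 6) 
(.lf (nat_lit 159112) (.g (nat_lit 2143) (.e (nat_lit 57432) (nat_lit 16) (.e (nat_lit 368676) (nat_lit 21) (.e (nat_lit 516174) (nat_lit 14) (.e (nat_lit 466977) (nat_lit 22) (.e (nat_lit 196651) (nat_lit 10) .nil))))) .nil)) 
(.lf (nat_lit 159176) (.g (nat_lit 2001) (.e (nat_lit 57434) (nat_lit 17) (.e (nat_lit 376842) (nat_lit 11) (.e (nat_lit 426188) (nat_lit 9) (.e (nat_lit 426448) (nat_lit 20) .nil)))) .nil))) (.nd (nat_lit 6) 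
(.lf (nat_lit 159144) (.g (nat_lit 2229) (.e (nat_lit 57432) (nat_lit 16) (.e (nat_lit 368676) (nat_lit 21) (.e (nat_lit 516176) (nat_lit 14) (.e (nat_lit 466977) (nat_lit 22) (.e (nat_lit 196620) (nat_lit 9) .nil))))) .nil)) 
(.lf (nat_lit 159208) (.g (nat_lit 1978) (.e (nat_lit 57434) (nat_lit 17) (.e (nat_lit 376842) (nat_lit 11) (.e (nat_lit 426343) (nat_lit 14) (.e (nat_lit 491558) (nat_lit 10) .nil)))) .nil)))) (.nd (nat_lit 5) (.nd (nat_lit 6) 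
(.lf (nat_lit 159128) (.g (nat_lit 2463) (.e (nat_lit 57432) (nat_lit 16) (.e (nat_lit 368676) (nat_lit 21) (.e (nat_lit 516176) (nat_lit 14) (.e (nat_lit 466967) (nat_lit 20) (.e (nat_lit 3304) (nat_lit 202) (.e (nat_lit 581376) (nat_lit 0) (.e (nat_lit 2615) (nat_lit 163) (.e (nat_lit 164178) (nat_lit 154) .nil)))))))) (.g (nat_lit 5) .nil .nil))) 
(.lf (nat_lit 159192) (.g (nat_lit 854) (.e (nat_lit 57434) (nat_lit 17) (.e (nat_lit 376842) (nat_lit 11) (.e (nat_lit 426199) (nat_lit 9) .nil))) .nil))) (.nd (nat_lit 6) 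
(.lf (nat_lit 159160) (.g (nat_lit 1447) (.e (nat_lit 57433) (nat_lit 16) (.e (nat_lit 368676) (nat_lit 21) (.e (nat_lit 516174) (nat_lit 14) .nil))) .nil)) 
(.lf (nat_lit 159224) (.g (nat_lit 1815) (.e (nat_lit 57435) (nat_lit 17) (.e (nat_lit 376840) (nat_lit 11) (.e (nat_lit 425989) (nat_lit 0) (.e (nat_lit 7592) (nat_lit 407) (.e (nat_lit 73729) (nat_lit 0) (.e (nat_lit 7266) (nat_lit 384) .nil)))))) (.g (nat_lit 0) .nil .nil))))))) (.nd (nat_lit 3) (.nd (nat_lit 4) (.nd (nat_lit 5) (.nd (nat_lit 6) 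
(.lf (nat_lit 159108) (.g (nat_lit 1269) (.e (nat_lit 57432) (nat_lit 16) (.e (nat_lit 368676) (nat_lit 21) (.e (nat_lit 516174) (nat_lit 14) (.e (nat_lit 466977) (nat_lit 22) .nil)))) .nil)) 
(.lf (nat_lit 159172) (.g (nat_lit 2387) (.e (nat_lit 57434) (nat_lit 17) (.e (nat_lit 376842) (nat_lit 11) (.e (nat_lit 426187) (nat_lit 9) (.e (nat_lit 426446) (nat_lit 20) (.e (nat_lit 114710) (nat_lit 21) .nil))))) .nil))) (.nd (nat_lit 6) 
(.lf (nat_lit 159140) (.g (nat_lit 1302) (.e (nat_lit 57432) (nat_lit 16) (.e (nat_lit 368676) (nat_lit 21) (.e (nat_lit 516176) (nat_lit 14) (.e (nat_lit 466977) (nat_lit 22) .nil)))) .nil)) 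
(.lf (nat_lit 159204) (.g (nat_lit 1061) (.e (nat_lit 57434) (nat_lit 17) (.e (nat_lit 376842) (nat_lit 11) (.e (nat_lit 426314) (nat_lit 12) .nil))) .nil)))) (.nd (nat_lit 5) (.nd (nat_lit 6) 
(.lf (nat_lit 159124) (.g (nat_lit 2057) (.e (nat_lit 57432) (nat_lit 16) (.e (nat_lit 368676) (nat_lit 21) (.e (nat_lit 516176) (nat_lit 14) (.e (nat_lit 466967) (nat_lit 20) (.e (nat_lit 7936) (nat_lit 195) (.e (nat_lit 516106) (nat_lit 0) (.e (nat_lit 2478) (nat_lit 157) (.e (nat_lit 5190) (nat_lit 294) .nil)))))))) (.g (nat_lit 4) .nil .nil))) 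
(.lf (nat_lit 159188) (.g (nat_lit 1629) (.e (nat_lit 57434) (nat_lit 17) (.e (nat_lit 376842) (nat_lit 11) (.e (nat_lit 426198) (nat_lit 9) (.e (nat_lit 426446) (nat_lit 20) .nil)))) .nil))) (.nd (nat_lit 6) 
(.lf (nat_lit 159156) (.g (nat_lit 2381) (.e (nat_lit 57432) (nat_lit 16) (.e (nat_lit 368676) (nat_lit 21) (.e (nat_lit 516176) (nat_lit 14) (.e (nat_lit 466981) (nat_lit 23) (.e (nat_lit 204801) (nat_lit 0) .nil))))) .nil)) 
(.lf (nat_lit 159220) (.g (nat_lit 1757) (.e (nat_lit 57434) (nat_lit 17) (.e (nat_lit 376865) (nat_lit 22) (.e (nat_lit 90160) (nat_lit 11) (.e (nat_lit 32512) (nat_lit 20) .nil)))) .nil))))) (.nd (nat_lit 4) (.nd (nat_lit 5) (.nd (nat_lit 6) 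
(.lf (nat_lit 159116) (.g (nat_lit 1242) (.e (nat_lit 57432) (nat_lit 16) (.e (nat_lit 368676) (nat_lit 21) (.e (nat_lit 516176) (nat_lit 14) (.e (nat_lit 474880) (nat_lit 3) .nil)))) .nil)) 
(.lf (nat_lit 159180) (.g (nat_lit 1925) (.e (nat_lit 57434) (nat_lit 17) (.e (nat_lit 376842) (nat_lit 11) (.e (nat_lit 426189) (nat_lit 9) (.e (nat_lit 426446) (nat_lit 20) (.e (nat_lit 114711) (nat_lit 21) .nil))))) .nil))) (.nd (nat_lit 6) 
(.lf (nat_lit 159148) (.g (nat_lit 2252) (.e (nat_lit 57432) (nat_lit 16) (.e (nat_lit 368676) (nat_lit 21) (.e (nat_lit 516176) (nat_lit 14) (.e (nat_lit 466977) (nat_lit 22) (.e (nat_lit 196649) (nat_lit 10) (.e (nat_lit 16128) (nat_lit 0) (.e (nat_lit 6393) (nat_lit 339) .nil))))))) (.g (nat_lit 4) .nil .nil))) 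
(.lf (nat_lit 159212) (.g (nat_lit 2676) (.e (nat_lit 57434) (nat_lit 17) (.e (nat_lit 376842) (nat_lit 11) (.e (nat_lit 426343) (nat_lit 14) (.e (nat_lit 491560) (nat_lit 10) (.e (nat_lit 344090) (nat_lit 18) .nil))))) .nil)))) (.nd (nat_lit 5) (.nd (nat_lit 6) 
(.lf (nat_lit 159132) (.g (nat_lit 1919) (.e (nat_lit 57432) (nat_lit 16) (.e (nat_lit 368676) (nat_lit 21) (.e (nat_lit 516176) (nat_lit 14) (.e (nat_lit 466974) (nat_lit 22) .nil)))) .nil)) 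
(.lf (nat_lit 159196) (.g (nat_lit 2168) (.e (nat_lit 57434) (nat_lit 17) (.e (nat_lit 376842) (nat_lit 11) (.e (nat_lit 426200) (nat_lit 9) (.e (nat_lit 426446) (nat_lit 20) (.e (nat_lit 114711) (nat_lit 21) (.e (nat_lit 57847) (nat_lit 252) .nil)))))) (.g (nat_lit 4) .nil .nil)))) (.nd (nat_lit 6) 
(.lf (nat_lit 159164) (.g (nat_lit 2122) (.e (nat_lit 57434) (nat_lit 17) (.e (nat_lit 376842) (nat_lit 11) (.e (nat_lit 426011) (nat_lit 0) (.e (nat_lit 7591) (nat_lit 407) .nil)))) .nil)) 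
(.lf (nat_lit 159228) (.g (nat_lit 1887) (.e (nat_lit 57435) (nat_lit 17) (.e (nat_lit 376840) (nat_lit 11) (.e (nat_lit 426230) (nat_lit 9) (.e (nat_lit 426445) (nat_lit 20) (.e (nat_lit 114712) (nat_lit 21) (.e (nat_lit 57852) (nat_lit 252) .nil)))))) (.g (nat_lit 0) .nil .nil)))))))) (.nd (nat_lit 2) (.nd (nat_lit 3) (.nd (nat_lit 4) (.nd (nat_lit 5) (.nd (nat_lit 6) 
(.lf (nat_lit 159106) (.g (nat_lit 1162) (.e (nat_lit 57432) (nat_lit 16) (.e (nat_lit 368676) (nat_lit 21) (.e (nat_lit 516174) (nat_lit 14) (.e (nat_lit 466975) (nat_lit 22) .nil)))) .nil)) 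
(.lf (nat_lit 159170) (.g (nat_lit 2245) (.e (nat_lit 57434) (nat_lit 17) (.e (nat_lit 376842) (nat_lit 11) (.e (nat_lit 426186) (nat_lit 9) (.e (nat_lit 426448) (nat_lit 20) (.e (nat_lit 114710) (nat_lit 21) .nil))))) .nil))) (.nd (nat_lit 6) 
(.lf (nat_lit 159138) (.g (nat_lit 1425) (.e (nat_lit 57432) (nat_lit 16) (.e (nat_lit 368676) (nat_lit 21) (.e (nat_lit 516176) (nat_lit 14) (.e (nat_lit 466976) (nat_lit 22) .nil)))) .nil)) 
(.lf (nat_lit 159202) (.g (nat_lit 1539) (.e (nat_lit 57434) (nat_lit 17) (.e (nat_lit 376842) (nat_lit 11) (.e (nat_lit 426308) (nat_lit 12) (.e (nat_lit 475212) (nat_lit 42) .nil)))) .nil)))) (.nd (nat_lit 5) (.nd (nat_lit 6) 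
(.lf (nat_lit 159122) (.g (nat_lit 1709) (.e (nat_lit 57432) (nat_lit 16) (.e (nat_lit 368676) (nat_lit 21) (.e (nat_lit 516176) (nat_lit 14) (.e (nat_lit 466967) (nat_lit 20) (.e (nat_lit 2442) (nat_lit 157) .nil))))) .nil)) 
(.lf (nat_lit 159186) (.g (nat_lit 1687) (.e (nat_lit 57434) (nat_lit 17) (.e (nat_lit 376842) (nat_lit 11) (.e (nat_lit 426197) (nat_lit 9) (.e (nat_lit 426446) (nat_lit 20) (.e (nat_lit 114711) (nat_lit 21) .nil))))) .nil))) (.nd (nat_lit 6) 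
(.lf (nat_lit 159154) (.g (nat_lit 1661) (.e (nat_lit 57432) (nat_lit 16) (.e (nat_lit 368676) (nat_lit 21) (.e (nat_lit 516176) (nat_lit 14) (.e (nat_lit 466980) (nat_lit 23) (.e (nat_lit 212736) (nat_lit 1) (.e (nat_lit 164177) (nat_lit 154) .nil)))))) (.g (nat_lit 4) .nil .nil))) 
(.lf (nat_lit 159218) (.g (nat_lit 1555) (.e (nat_lit 57434) (nat_lit 17) (.e (nat_lit 376859) (nat_lit 21) (.e (nat_lit 57681) (nat_lit 155) (.e (nat_lit 122919) (nat_lit 15) .nil)))) .nil))))) (.nd (nat_lit 4) (.nd (nat_lit 5) (.nd (nat_lit 6) 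
(.lf (nat_lit 159114) (.g (nat_lit 1532) (.e (nat_lit 57432) (nat_lit 16) (.e (nat_lit 368676) (nat_lit 21) (.e (nat_lit 516174) (nat_lit 14) (.e (nat_lit 466981) (nat_lit 23) (.e (nat_lit 212736) (nat_lit 1) .nil))))) .nil)) 
(.lf (nat_lit 159178) (.g (nat_lit 2233) (.e (nat_lit 57434) (nat_lit 17) (.e (nat_lit 376842) (nat_lit 11) (.e (nat_lit 426188) (nat_lit 9) (.e (nat_lit 426449) (nat_lit 20) .nil)))) .nil))) (.nd (nat_lit 6) 
(.lf (nat_lit 159146) (.g (nat_lit 2229) (.e (nat_lit 57432) (nat_lit 16) (.e (nat_lit 368676) (nat_lit 21) (.e (nat_lit 516176) (nat_lit 14) (.e (nat_lit 466977) (nat_lit 22) (.e (nat_lit 196648) (nat_lit 10) .nil))))) .nil)) 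
(.lf (nat_lit 159210) (.g (nat_lit 2722) (.e (nat_lit 57434) (nat_lit 17) (.e (nat_lit 376842) (nat_lit 11) (.e (nat_lit 426343) (nat_lit 14) (.e (nat_lit 491558) (nat_lit 10) (.e (nat_lit 344096) (nat_lit 18) .nil))))) .nil)))) (.nd (nat_lit 5) (.nd (nat_lit 6) 
(.lf (nat_lit 159130) (.g (nat_lit 2746) (.e (nat_lit 57432) (nat_lit 16) (.e (nat_lit 368676) (nat_lit 21) (.e (nat_lit 516176) (nat_lit 14) (.e (nat_lit 466972) (nat_lit 21) (.e (nat_lit 171776) (nat_lit 136) .nil))))) .nil)) 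
(.lf (nat_lit 159194) (.g (nat_lit 1500) (.e (nat_lit 57434) (nat_lit 17) (.e (nat_lit 376842) (nat_lit 11) (.e (nat_lit 426200) (nat_lit 9) (.e (nat_lit 426446) (nat_lit 20) .nil)))) .nil))) (.nd (nat_lit 6) 
(.lf (nat_lit 159162) (.g (nat_lit 1160) (.e (nat_lit 57434) (nat_lit 17) (.e (nat_lit 376842) (nat_lit 11) (.e (nat_lit 426009) (nat_lit 0) .nil))) .nil)) 
(.lf (nat_lit 159226) (.g (nat_lit 1734) (.e (nat_lit 57435) (nat_lit 17) (.e (nat_lit 376840) (nat_lit 11) (.e (nat_lit 426230) (nat_lit 9) (.e (nat_lit 426445) (nat_lit 20) (.e (nat_lit 114711) (nat_lit 21) (.e (nat_lit 57848) (nat_lit 252) .nil)))))) (.g (nat_lit 0) .nil .nil))))))) (.nd (nat_lit 3) (.nd (nat_lit 4) (.nd (nat_lit 5) (.nd (nat_lit 6) 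
(.lf (nat_lit 159110) (.g (nat_lit 2318) (.e (nat_lit 57432) (nat_lit 16) (.e (nat_lit 368676) (nat_lit 21) (.e (nat_lit 516174) (nat_lit 14) (.e (nat_lit 466977) (nat_lit 22) (.e (nat_lit 196622) (nat_lit 9) .nil))))) .nil)) 
(.lf (nat_lit 159174) (.g (nat_lit 2049) (.e (nat_lit 57434) (nat_lit 17) (.e (nat_lit 376842) (nat_lit 11) (.e (nat_lit 426188) (nat_lit 9) (.e (nat_lit 426446) (nat_lit 20) .nil)))) .nil))) (.nd (nat_lit 6) 
(.lf (nat_lit 159142) (.g (nat_lit 2185) (.e (nat_lit 57432) (nat_lit 16) (.e (nat_lit 368676) (nat_lit 21) (.e (nat_lit 516176) (nat_lit 14) (.e (nat_lit 466977) (nat_lit 22) (.e (nat_lit 196619) (nat_lit 9) .nil))))) .nil)) 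
(.lf (nat_lit 159206) (.g (nat_lit 1751) (.e (nat_lit 57434) (nat_lit 17) (.e (nat_lit 376842) (nat_lit 11) (.e (nat_lit 426315) (nat_lit 12) (.e (nat_lit 475214) (nat_lit 42) .nil)))) .nil)))) (.nd (nat_lit 5) (.nd (nat_lit 6) 
(.lf (nat_lit 159126) (.g (nat_lit 1938) (.e (nat_lit 57432) (nat_lit 16) (.e (nat_lit 368676) (nat_lit 21) (.e (nat_lit 516176) (nat_lit 14) (.e (nat_lit 466967) (nat_lit 20) (.e (nat_lit 7936) (nat_lit 200) .nil))))) .nil)) 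
(.lf (nat_lit 159190) (.g (nat_lit 1865) (.e (nat_lit 57434) (nat_lit 17) (.e (nat_lit 376842) (nat_lit 11) (.e (nat_lit 426198) (nat_lit 9) (.e (nat_lit 426448) (nat_lit 20) (.e (nat_lit 114710) (nat_lit 21) .nil))))) .nil))) (.nd (nat_lit 6) 
(.lf (nat_lit 159158) (.g (nat_lit 2017) (.e (nat_lit 57432) (nat_lit 16) (.e (nat_lit 368676) (nat_lit 21) (.e (nat_lit 516179) (nat_lit 15) (.e (nat_lit 475161) (nat_lit 21) (.e (nat_lit 7281) (nat_lit 386) .nil))))) .nil)) 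
(.lf (nat_lit 159222) (.g (nat_lit 1439) (.e (nat_lit 57435) (nat_lit 17) (.e (nat_lit 376835) (nat_lit 0) (.e (nat_lit 3748) (nat_lit 228) (.e (nat_lit 786480) (nat_lit 29) (.e (nat_lit 352316) (nat_lit 24) .nil))))) .nil))))) (.nd (nat_lit 4) (.nd (nat_lit 5) (.nd (nat_lit 6) 
(.lf (nat_lit 159118) (.g (nat_lit 2049) (.e (nat_lit 57432) (nat_lit 16) (.e (nat_lit 368676) (nat_lit 21) (.e (nat_lit 516176) (nat_lit 14) (.e (nat_lit 466960) (nat_lit 20) .nil)))) .nil)) 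
(.lf (nat_lit 159182) (.g (nat_lit 1669) (.e (nat_lit 57434) (nat_lit 17) (.e (nat_lit 376842) (nat_lit 11) (.e (nat_lit 426190) (nat_lit 9) (.e (nat_lit 426446) (nat_lit 20) (.e (nat_lit 114710) (nat_lit 21) .nil))))) .nil))) (.nd (nat_lit 6) 
(.lf (nat_lit 159150) (.g (nat_lit 1944) (.e (nat_lit 57432) (nat_lit 16) (.e (nat_lit 368676) (nat_lit 21) (.e (nat_lit 516176) (nat_lit 14) (.e (nat_lit 466977) (nat_lit 22) (.e (nat_lit 196651) (nat_lit 10) (.e (nat_lit 8192) (nat_lit 0) (.e (nat_lit 6393) (nat_lit 339) .nil))))))) (.g (nat_lit 4) .nil .nil))) 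
(.lf (nat_lit 159214) (.g (nat_lit 2954) (.e (nat_lit 57434) (nat_lit 17) (.e (nat_lit 376842) (nat_lit 11) (.e (nat_lit 426343) (nat_lit 14) (.e (nat_lit 491560) (nat_lit 10) (.e (nat_lit 344094) (nat_lit 18) .nil))))) .nil)))) (.nd (nat_lit 5) (.nd (nat_lit 6) 
(.lf (nat_lit 159134) (.g (nat_lit 2574) (.e (nat_lit 57432) (nat_lit 16) (.e (nat_lit 368676) (nat_lit 21) (.e (nat_lit 516176) (nat_lit 14) (.e (nat_lit 466974) (nat_lit 22) (.e (nat_lit 196619) (nat_lit 9) .nil))))) .nil)) 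
(.lf (nat_lit 159198) (.g (nat_lit 1185) (.e (nat_lit 57434) (nat_lit 17) (.e (nat_lit 376842) (nat_lit 11) (.e (nat_lit 426204) (nat_lit 9) .nil))) .nil))) (.nd (nat_lit 6) 
(.lf (nat_lit 159166) (.g (nat_lit 2750) (.e (nat_lit 57434) (nat_lit 17) (.e (nat_lit 376842) (nat_lit 11) (.e (nat_lit 426011) (nat_lit 0) (.e (nat_lit 7591) (nat_lit 407) (.e (nat_lit 73731) (nat_lit 0) .nil))))) .nil)) 
(.lf (nat_lit 159230) (.g (nat_lit 2103) (.e (nat_lit 57435) (nat_lit 17) (.e (nat_lit 376840) (nat_lit 11) (.e (nat_lit 426230) (nat_lit 9) (.e (nat_lit 426447) (nat_lit 20) (.e (nat_lit 114710) (nat_lit 21) (.e (nat_lit 57846) (nat_lit 252) .nil)))))) (.g (nat_lit 0) .nil .nil))))))))) (.nd (nat_lit 1) (.nd (nat_lit 2) (.nd (nat_lit 3) (.nd (nat_lit 4) (.nd (nat_lit 5) (.nd (nat_lit 6) 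
(.lf (nat_lit 159105) (.g (nat_lit 2100) (.e (nat_lit 57432) (nat_lit 16) (.e (nat_lit 368676) (nat_lit 21) (.e (nat_lit 516174) (nat_lit 14) (.e (nat_lit 466974) (nat_lit 22) (.e (nat_lit 196622) (nat_lit 9) (.e (nat_lit 158) (nat_lit 10) (.e (nat_lit 164178) (nat_lit 154) .nil))))))) (.g (nat_lit 4) .nil .nil))) 
(.lf (nat_lit 159169) (.g (nat_lit 1183) (.e (nat_lit 57434) (nat_lit 17) (.e (nat_lit 376842) (nat_lit 11) (.e (nat_lit 426186) (nat_lit 9) .nil))) .nil))) (.nd (nat_lit 6) 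
(.lf (nat_lit 159137) (.g (nat_lit 2132) (.e (nat_lit 57432) (nat_lit 16) (.e (nat_lit 368676) (nat_lit 21) (.e (nat_lit 516176) (nat_lit 14) (.e (nat_lit 466975) (nat_lit 22) (.e (nat_lit 196628) (nat_lit 9) .nil))))) .nil)) 
(.lf (nat_lit 159201) (.g (nat_lit 1056) (.e (nat_lit 57434) (nat_lit 17) (.e (nat_lit 376842) (nat_lit 11) (.e (nat_lit 426307) (nat_lit 12) .nil))) .nil)))) (.nd (nat_lit 5) (.nd (nat_lit 6) 
(.lf (nat_lit 159121) (.g (nat_lit 1448) (.e (nat_lit 57432) (nat_lit 16) (.e (nat_lit 368676) (nat_lit 21) (.e (nat_lit 516176) (nat_lit 14) (.e (nat_lit 466967) (nat_lit 20) .nil)))) .nil)) 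
(.lf (nat_lit 159185) (.g (nat_lit 2302) (.e (nat_lit 57434) (nat_lit 17) (.e (nat_lit 376842) (nat_lit 11) (.e (nat_lit 426196) (nat_lit 9) (.e (nat_lit 426448) (nat_lit 20) (.e (nat_lit 114710) (nat_lit 21) .nil))))) .nil))) (.nd (nat_lit 6) 
(.lf (nat_lit 159153) (.g (nat_lit 2083) (.e (nat_lit 57432) (nat_lit 16) (.e (nat_lit 368676) (nat_lit 21) (.e (nat_lit 516176) (nat_lit 14) (.e (nat_lit 466977) (nat_lit 22) (.e (nat_lit 196651) (nat_lit 10) (.e (nat_lit 8200) (nat_lit 0) (.e (nat_lit 6393) (nat_lit 339) .nil))))))) (.g (nat_lit 4) .nil .nil))) 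
(.lf (nat_lit 159217) (.g (nat_lit 2276) (.e (nat_lit 57434) (nat_lit 17) (.e (nat_lit 376857) (nat_lit 21) (.e (nat_lit 57681) (nat_lit 155) (.e (nat_lit 122919) (nat_lit 15) (.e (nat_lit 360451) (nat_lit 0) .nil))))) .nil))))) (.nd (nat_lit 4) (.nd (nat_lit 5) (.nd (nat_lit 6) 
(.lf (nat_lit 159113) (.g (nat_lit 1783) (.e (nat_lit 57432) (nat_lit 16) (.e (nat_lit 368676) (nat_lit 21) (.e (nat_lit 516174) (nat_lit 14) (.e (nat_lit 466980) (nat_lit 23) (.e (nat_lit 212736) (nat_lit 1) (.e (nat_lit 164177) (nat_lit 154) .nil)))))) (.g (nat_lit 4) .nil .nil))) 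
(.lf (nat_lit 159177) (.g (nat_lit 2744) (.e (nat_lit 57434) (nat_lit 17) (.e (nat_lit 376842) (nat_lit 11) (.e (nat_lit 426188) (nat_lit 9) (.e (nat_lit 426448) (nat_lit 20) (.e (nat_lit 114711) (nat_lit 21) .nil))))) .nil))) (.nd (nat_lit 6) 
(.lf (nat_lit 159145) (.g (nat_lit 1892) (.e (nat_lit 57432) (nat_lit 16) (.e (nat_lit 368676) (nat_lit 21) (.e (nat_lit 516176) (nat_lit 14) (.e (nat_lit 466977) (nat_lit 22) (.e (nat_lit 196624) (nat_lit 9) .nil))))) .nil)) 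
(.lf (nat_lit 159209) (.g (nat_lit 2691) (.e (nat_lit 57434) (nat_lit 17) (.e (nat_lit 376842) (nat_lit 11) (.e (nat_lit 426343) (nat_lit 14) (.e (nat_lit 491558) (nat_lit 10) (.e (nat_lit 344091) (nat_lit 18) .nil))))) .nil)))) (.nd (nat_lit 5) (.nd (nat_lit 6) 
(.lf (nat_lit 159129) (.g (nat_lit 2053) (.e (nat_lit 57432) (nat_lit 16) (.e (nat_lit 368676) (nat_lit 21) (.e (nat_lit 516176) (nat_lit 14) (.e (nat_lit 466972) (nat_lit 21) .nil)))) .nil)) 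
(.lf (nat_lit 159193) (.g (nat_lit 1421) (.e (nat_lit 57434) (nat_lit 17) (.e (nat_lit 376842) (nat_lit 11) (.e (nat_lit 426199) (nat_lit 9) (.e (nat_lit 426448) (nat_lit 20) .nil)))) .nil))) (.nd (nat_lit 6) 
(.lf (nat_lit 159161) (.g (nat_lit 3062) (.e (nat_lit 57433) (nat_lit 16) (.e (nat_lit 368676) (nat_lit 21) (.e (nat_lit 516176) (nat_lit 14) (.e (nat_lit 466967) (nat_lit 20) .nil)))) .nil)) 
(.lf (nat_lit 159225) (.g (nat_lit 2344) (.e (nat_lit 57435) (nat_lit 17) (.e (nat_lit 376840) (nat_lit 11) (.e (nat_lit 426230) (nat_lit 9) (.e (nat_lit 426445) (nat_lit 20) (.e (nat_lit 114711) (nat_lit 21) (.e (nat_lit 57846) (nat_lit 252) .nil)))))) (.g (nat_lit 0) .nil .nil))))))) (.nd (nat_lit 3) (.nd (nat_lit 4) (.nd (nat_lit 5) (.nd (nat_lit 6) 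
(.lf (nat_lit 159109) (.g (nat_lit 2297) (.e (nat_lit 57432) (nat_lit 16) (.e (nat_lit 368676) (nat_lit 21) (.e (nat_lit 516174) (nat_lit 14) (.e (nat_lit 466977) (nat_lit 22) (.e (nat_lit 196619) (nat_lit 9) .nil))))) .nil)) 
(.lf (nat_lit 159173) (.g (nat_lit 2492) (.e (nat_lit 57434) (nat_lit 17) (.e (nat_lit 376842) (nat_lit 11) (.e (nat_lit 426187) (nat_lit 9) (.e (nat_lit 426448) (nat_lit 20) (.e (nat_lit 114710) (nat_lit 21) .nil))))) .nil))) (.nd (nat_lit 6) 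
(.lf (nat_lit 159141) (.g (nat_lit 2229) (.e (nat_lit 57432) (nat_lit 16) (.e (nat_lit 368676) (nat_lit 21) (.e (nat_lit 516176) (nat_lit 14) (.e (nat_lit 466977) (nat_lit 22) (.e (nat_lit 196618) (nat_lit 9) .nil))))) .nil)) 
(.lf (nat_lit 159205) (.g (nat_lit 937) (.e (nat_lit 57434) (nat_lit 17) (.e (nat_lit 376842) (nat_lit 11) (.e (nat_lit 426315) (nat_lit 12) .nil))) .nil)))) (.nd (nat_lit 5) (.nd (nat_lit 6) 
(.lf (nat_lit 159125) (.g (nat_lit 2759) (.e (nat_lit 57432) (nat_lit 16) (.e (nat_lit 368676) (nat_lit 21) (.e (nat_lit 516176) (nat_lit 14) (.e (nat_lit 466967) (nat_lit 20) (.e (nat_lit 3253) (nat_lit 197) (.e (nat_lit 532503) (nat_lit 1) (.e (nat_lit 65280) (nat_lit 223) .nil))))))) (.g (nat_lit 6) .nil .nil))) 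
(.lf (nat_lit 159189) (.g (nat_lit 2185) (.e (nat_lit 57434) (nat_lit 17) (.e (nat_lit 376842) (nat_lit 11) (.e (nat_lit 426198) (nat_lit 9) (.e (nat_lit 426446) (nat_lit 20) (.e (nat_lit 114711) (nat_lit 21) .nil))))) .nil))) (.nd (nat_lit 6) 
(.lf (nat_lit 159157) (.g (nat_lit 2193) (.e (nat_lit 57432) (nat_lit 16) (.e (nat_lit 368676) (nat_lit 21) (.e (nat_lit 516176) (nat_lit 14) (.e (nat_lit 466981) (nat_lit 23) (.e (nat_lit 212736) (nat_lit 1) .nil))))) .nil)) 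
(.lf (nat_lit 159221) (.g (nat_lit 229) (.e (nat_lit 57435) (nat_lit 17) (.e (nat_lit 376835) (nat_lit 0) (.e (nat_lit 3746) (nat_lit 228) .nil))) .nil))))) (.nd (nat_lit 4) (.nd (nat_lit 5) (.nd (nat_lit 6) 
(.lf (nat_lit 159117) (.g (nat_lit 2048) (.e (nat_lit 57432) (nat_lit 16) (.e (nat_lit 368676) (nat_lit 21) (.e (nat_lit 516176) (nat_lit 14) (.e (nat_lit 466956) (nat_lit 20) .nil)))) .nil)) 
(.lf (nat_lit 159181) (.g (nat_lit 2065) (.e (nat_lit 57434) (nat_lit 17) (.e (nat_lit 376842) (nat_lit 11) (.e (nat_lit 426189) (nat_lit 9) (.e (nat_lit 426448) (nat_lit 20) (.e (nat_lit 114710) (nat_lit 21) .nil))))) .nil))) (.nd (nat_lit 6) 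
(.lf (nat_lit 159149) (.g (nat_lit 1861) (.e (nat_lit 57432) (nat_lit 16) (.e (nat_lit 368676) (nat_lit 21) (.e (nat_lit 516176) (nat_lit 14) (.e (nat_lit 466977) (nat_lit 22) (.e (nat_lit 196651) (nat_lit 10) .nil))))) .nil)) 
(.lf (nat_lit 159213) (.g (nat_lit 2713) (.e (nat_lit 57434) (nat_lit 17) (.e (nat_lit 376842) (nat_lit 11) (.e (nat_lit 426343) (nat_lit 14) (.e (nat_lit 491560) (nat_lit 10) (.e (nat_lit 344091) (nat_lit 18) .nil))))) .nil)))) (.nd (nat_lit 5) (.nd (nat_lit 6) 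
(.lf (nat_lit 159133) (.g (nat_lit 2733) (.e (nat_lit 57432) (nat_lit 16) (.e (nat_lit 368676) (nat_lit 21) (.e (nat_lit 516176) (nat_lit 14) (.e (nat_lit 466974) (nat_lit 22) (.e (nat_lit 196618) (nat_lit 9) .nil))))) .nil)) 
(.lf (nat_lit 159197) (.g (nat_lit 1426) (.e (nat_lit 57434) (nat_lit 17) (.e (nat_lit 376842) (nat_lit 11) (.e (nat_lit 426200) (nat_lit 9) (.e (nat_lit 426448) (nat_lit 20) .nil)))) .nil))) (.nd (nat_lit 6) 
(.lf (nat_lit 159165) (.g (nat_lit 2790) (.e (nat_lit 57434) (nat_lit 17) (.e (nat_lit 376842) (nat_lit 11) (.e (nat_lit 426011) (nat_lit 0) (.e (nat_lit 7591) (nat_lit 407) (.e (nat_lit 73729) (nat_lit 0) .nil))))) .nil)) 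
(.lf (nat_lit 159229) (.g (nat_lit 1876) (.e (nat_lit 57435) (nat_lit 17) (.e (nat_lit 376840) (nat_lit 11) (.e (nat_lit 426230) (nat_lit 9) (.e (nat_lit 426445) (nat_lit 20) (.e (nat_lit 114712) (nat_lit 21) (.e (nat_lit 57853) (nat_lit 252) .nil)))))) (.g (nat_lit 0) .nil .nil)))))))) (.nd (nat_lit 2) (.nd (nat_lit 3) (.nd (nat_lit 4) (.nd (nat_lit 5) (.nd (nat_lit 6) 
(.lf (nat_lit 159107) (.g (nat_lit 1322) (.e (nat_lit 57432) (nat_lit 16) (.e (nat_lit 368676) (nat_lit 21) (.e (nat_lit 516174) (nat_lit 14) (.e (nat_lit 466976) (nat_lit 22) .nil)))) .nil)) 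
(.lf (nat_lit 159171) (.g (nat_lit 1821) (.e (nat_lit 57434) (nat_lit 17) (.e (nat_lit 376842) (nat_lit 11) (.e (nat_lit 426187) (nat_lit 9) (.e (nat_lit 426446) (nat_lit 20) .nil)))) .nil))) (.nd (nat_lit 6) 
(.lf (nat_lit 159139) (.g (nat_lit 1924) (.e (nat_lit 57432) (nat_lit 16) (.e (nat_lit 368676) (nat_lit 21) (.e (nat_lit 516176) (nat_lit 14) (.e (nat_lit 466976) (nat_lit 22) (.e (nat_lit 196620) (nat_lit 9) .nil))))) .nil)) 
(.lf (nat_lit 159203) (.g (nat_lit 1538) (.e (nat_lit 57434) (nat_lit 17) (.e (nat_lit 376842) (nat_lit 11) (.e (nat_lit 426308) (nat_lit 12) (.e (nat_lit 475214) (nat_lit 42) .nil)))) .nil)))) (.nd (nat_lit 5) (.nd (nat_lit 6) 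
(.lf (nat_lit 159123) (.g (nat_lit 2244) (.e (nat_lit 57432) (nat_lit 16) (.e (nat_lit 368676) (nat_lit 21) (.e (nat_lit 516176) (nat_lit 14) (.e (nat_lit 466967) (nat_lit 20) (.e (nat_lit 7936) (nat_lit 193) (.e (nat_lit 499910) (nat_lit 8) (.e (nat_lit 171776) (nat_lit 0) (.e (nat_lit 5193) (nat_lit 294) .nil)))))))) (.g (nat_lit 4) .nil .nil))) 
(.lf (nat_lit 159187) (.g (nat_lit 1931) (.e (nat_lit 57434) (nat_lit 17) (.e (nat_lit 376842) (nat_lit 11) (.e (nat_lit 426197) (nat_lit 9) (.e (nat_lit 426448) (nat_lit 20) (.e (nat_lit 114710) (nat_lit 21) .nil))))) .nil))) (.nd (nat_lit 6) 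
(.lf (nat_lit 159155) (.g (nat_lit 1407) (.e (nat_lit 57432) (nat_lit 16) (.e (nat_lit 368676) (nat_lit 21) (.e (nat_lit 516176) (nat_lit 14) (.e (nat_lit 466981) (nat_lit 23) .nil)))) .nil)) 
(.lf (nat_lit 159219) (.g (nat_lit 823) (.e (nat_lit 57434) (nat_lit 17) (.e (nat_lit 376865) (nat_lit 22) (.e (nat_lit 90158) (nat_lit 11) .nil))) .nil))))) (.nd (nat_lit 4) (.nd (nat_lit 5) (.nd (nat_lit 6) 
(.lf (nat_lit 159115) (.g (nat_lit 467) (.e (nat_lit 57432) (nat_lit 16) (.e (nat_lit 368676) (nat_lit 21) (.e (nat_lit 516176) (nat_lit 14) .nil))) .nil)) 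
(.lf (nat_lit 159179) (.g (nat_lit 1056) (.e (nat_lit 57434) (nat_lit 17) (.e (nat_lit 376842) (nat_lit 11) (.e (nat_lit 426189) (nat_lit 9) .nil))) .nil))) (.nd (nat_lit 6) 
(.lf (nat_lit 159147) (.g (nat_lit 2135) (.e (nat_lit 57432) (nat_lit 16) (.e (nat_lit 368676) (nat_lit 21) (.e (nat_lit 516176) (nat_lit 14) (.e (nat_lit 466977) (nat_lit 22) (.e (nat_lit 196649) (nat_lit 10) .nil))))) .nil)) 
(.lf (nat_lit 159211) (.g (nat_lit 1951) (.e (nat_lit 57434) (nat_lit 17) (.e (nat_lit 376842) (nat_lit 11) (.e (nat_lit 426343) (nat_lit 14) (.e (nat_lit 491560) (nat_lit 10) .nil)))) .nil)))) (.nd (nat_lit 5) (.nd (nat_lit 6) 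
(.lf (nat_lit 159131) (.g (nat_lit 2044) (.e (nat_lit 57432) (nat_lit 16) (.e (nat_lit 368676) (nat_lit 21) (.e (nat_lit 516176) (nat_lit 14) (.e (nat_lit 466973) (nat_lit 22) .nil)))) .nil)) 
(.lf (nat_lit 159195) (.g (nat_lit 2171) (.e (nat_lit 57434) (nat_lit 17) (.e (nat_lit 376842) (nat_lit 11) (.e (nat_lit 426200) (nat_lit 9) (.e (nat_lit 426446) (nat_lit 20) (.e (nat_lit 114710) (nat_lit 21) .nil))))) .nil))) (.nd (nat_lit 6) 
(.lf (nat_lit 159163) (.g (nat_lit 1182) (.e (nat_lit 57434) (nat_lit 17) (.e (nat_lit 376842) (nat_lit 11) (.e (nat_lit 426010) (nat_lit 0) .nil))) .nil)) 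
(.lf (nat_lit 159227) (.g (nat_lit 1874) (.e (nat_lit 57435) (nat_lit 17) (.e (nat_lit 376840) (nat_lit 11) (.e (nat_lit 426230) (nat_lit 9) (.e (nat_lit 426445) (nat_lit 20) (.e (nat_lit 114711) (nat_lit 21) (.e (nat_lit 57849) (nat_lit 252) .nil)))))) (.g (nat_lit 0) .nil .nil))))))) (.nd (nat_lit 3) (.nd (nat_lit 4) (.nd (nat_lit 5) (.nd (nat_lit 6) 
(.lf (nat_lit 159111) (.g (nat_lit 2141) (.e (nat_lit 57432) (nat_lit 16) (.e (nat_lit 368676) (nat_lit 21) (.e (nat_lit 516174) (nat_lit 14) (.e (nat_lit 466977) (nat_lit 22) (.e (nat_lit 196624) (nat_lit 9) .nil))))) .nil)) 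
(.lf (nat_lit 159175) (.g (nat_lit 2367) (.e (nat_lit 57434) (nat_lit 17) (.e (nat_lit 376842) (nat_lit 11) (.e (nat_lit 426188) (nat_lit 9) (.e (nat_lit 426446) (nat_lit 20) (.e (nat_lit 114711) (nat_lit 21) .nil))))) .nil))) (.nd (nat_lit 6) 
(.lf (nat_lit 159143) (.g (nat_lit 2270) (.e (nat_lit 57432) (nat_lit 16) (.e (nat_lit 368676) (nat_lit 21) (.e (nat_lit 516176) (nat_lit 14) (.e (nat_lit 466977) (nat_lit 22) (.e (nat_lit 196619) (nat_lit 9) (.e (nat_lit 153) (nat_lit 10) (.e (nat_lit 164178) (nat_lit 154) .nil))))))) (.g (nat_lit 4) .nil .nil))) 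
(.lf (nat_lit 159207) (.g (nat_lit 1150) (.e (nat_lit 57434) (nat_lit 17) (.e (nat_lit 376842) (nat_lit 11) (.e (nat_lit 426342) (nat_lit 14) .nil))) .nil)))) (.nd (nat_lit 5) (.nd (nat_lit 6) 
(.lf (nat_lit 159127) (.g (nat_lit 1733) (.e (nat_lit 57432) (nat_lit 16) (.e (nat_lit 368676) (nat_lit 21) (.e (nat_lit 516176) (nat_lit 14) (.e (nat_lit 466967) (nat_lit 20) (.e (nat_lit 3304) (nat_lit 202) .nil))))) .nil)) 
(.lf (nat_lit 159191) (.g (nat_lit 2625) (.e (nat_lit 57434) (nat_lit 17) (.e (nat_lit 376842) (nat_lit 11) (.e (nat_lit 426198) (nat_lit 9) (.e (nat_lit 426448) (nat_lit 20) (.e (nat_lit 114711) (nat_lit 21) (.e (nat_lit 57847) (nat_lit 252) .nil)))))) (.g (nat_lit 5) .nil .nil)))) (.nd (nat_lit 6) 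
(.lf (nat_lit 159159) (.g (nat_lit 2074) (.e (nat_lit 57433) (nat_lit 16) (.e (nat_lit 368676) (nat_lit 21) (.e (nat_lit 516165) (nat_lit 12) (.e (nat_lit 450586) (nat_lit 10) .nil)))) .nil)) 
(.lf (nat_lit 159223) (.g (nat_lit 1701) (.e (nat_lit 57435) (nat_lit 17) (.e (nat_lit 376840) (nat_lit 11) (.e (nat_lit 425989) (nat_lit 0) (.e (nat_lit 7592) (nat_lit 407) (.e (nat_lit 73729) (nat_lit 0) (.e (nat_lit 7265) (nat_lit 384) .nil)))))) (.g (nat_lit 0) .nil .nil)))))) (.nd (nat_lit 4) (.nd (nat_lit 5) (.nd (nat_lit 6) 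
(.lf (nat_lit 159119) (.g (nat_lit 1997) (.e (nat_lit 57432) (nat_lit 16) (.e (nat_lit 368676) (nat_lit 21) (.e (nat_lit 516176) (nat_lit 14) (.e (nat_lit 466963) (nat_lit 20) .nil)))) .nil)) 
(.lf (nat_lit 159183) (.g (nat_lit 1205) (.e (nat_lit 57434) (nat_lit 17) (.e (nat_lit 376842) (nat_lit 11) (.e (nat_lit 426190) (nat_lit 9) (.e (nat_lit 426448) (nat_lit 20) .nil)))) .nil))) (.nd (nat_lit 6) 
(.lf (nat_lit 159151) (.g (nat_lit 1934) (.e (nat_lit 57432) (nat_lit 16) (.e (nat_lit 368676) (nat_lit 21) (.e (nat_lit 516176) (nat_lit 14) (.e (nat_lit 466977) (nat_lit 22) (.e (nat_lit 196651) (nat_lit 10) (.e (nat_lit 8199) (nat_lit 0) (.e (nat_lit 6392) (nat_lit 339) .nil))))))) (.g (nat_lit 4) .nil .nil))) 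
(.lf (nat_lit 159215) (.g (nat_lit 2897) (.e (nat_lit 57434) (nat_lit 17) (.e (nat_lit 376842) (nat_lit 11) (.e (nat_lit 426343) (nat_lit 14) (.e (nat_lit 491560) (nat_lit 10) (.e (nat_lit 344096) (nat_lit 18) .nil))))) .nil)))) (.nd (nat_lit 5) (.nd (nat_lit 6) 
(.lf (nat_lit 159135) (.g (nat_lit 2616) (.e (nat_lit 57432) (nat_lit 16) (.e (nat_lit 368676) (nat_lit 21) (.e (nat_lit 516176) (nat_lit 14) (.e (nat_lit 466974) (nat_lit 22) (.e (nat_lit 196622) (nat_lit 9) .nil))))) .nil)) 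
(.lf (nat_lit 159199) (.g (nat_lit 1183) (.e (nat_lit 57434) (nat_lit 17) (.e (nat_lit 376842) (nat_lit 11) (.e (nat_lit 426258) (nat_lit 9) .nil))) .nil))) (.nd (nat_lit 6) 
(.lf (nat_lit 159167) (.g (nat_lit 2088) (.e (nat_lit 57434) (nat_lit 17) (.e (nat_lit 376842) (nat_lit 11) (.e (nat_lit 426011) (nat_lit 0) (.e (nat_lit 7593) (nat_lit 407) .nil)))) .nil)) 
(.lf (nat_lit 159231) (.g (nat_lit 1788) (.e (nat_lit 57435) (nat_lit 17) (.e (nat_lit 376840) (nat_lit 11) (.e (nat_lit 426230) (nat_lit 9) (.e (nat_lit 426447) (nat_lit 20) (.e (nat_lit 114710) (nat_lit 21) (.e (nat_lit 57849) (nat_lit 252) .nil)))))) (.g (nat_lit 0) .nil .nil))))))))))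

noncomputable def tv2130 : DT := (.nd (nat_lit 0) (.nd (nat_lit 1) (.nd (nat_lit 2) (.nd (nat_lit 3) (.nd (nat_lit 4) (.nd (nat_lit 5) 
(.lf (nat_lit 159232) (.g (nat_lit 1669) (.e (nat_lit 57435) (nat_lit 17) (.e (nat_lit 376840) (nat_lit 11) (.e (nat_lit 426230) (nat_lit 9) (.e (nat_lit 426447) (nat_lit 20) (.e (nat_lit 114710) (nat_lit 21) (.e (nat_lit 57851) (nat_lit 252) .nil)))))) (.g (nat_lit 0) .nil .nil))) 
(.lf (nat_lit 159264) (.g (nat_lit 1913) (.e (nat_lit 57435) (nat_lit 17) (.e (nat_lit 376840) (nat_lit 11) (.e (nat_lit 426261) (nat_lit 9) (.e (nat_lit 426447) (nat_lit 20) (.e (nat_lit 114710) (nat_lit 21) (.e (nat_lit 57852) (nat_lit 252) .nil)))))) (.g (nat_lit 0) .nil .nil)))) (.nd (nat_lit 5) 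
(.lf (nat_lit 159248) (.g (nat_lit 1818) (.e (nat_lit 57435) (nat_lit 17) (.e (nat_lit 376840) (nat_lit 11) (.e (nat_lit 426234) (nat_lit 9) (.e (nat_lit 426447) (nat_lit 20) (.e (nat_lit 114710) (nat_lit 21) (.e (nat_lit 57854) (nat_lit 252) .nil)))))) (.g (nat_lit 0) .nil .nil))) 
(.lf (nat_lit 159280) (.g (nat_lit 2932) (.e (nat_lit 57435) (nat_lit 17) (.e (nat_lit 376842) (nat_lit 11) (.e (nat_lit 426009) (nat_lit 0) (.e (nat_lit 7593) (nat_lit 407) (.e (nat_lit 73731) (nat_lit 0) (.e (nat_lit 7266) (nat_lit 384) .nil)))))) (.g (nat_lit 0) .nil .nil))))) (.nd (nat_lit 4) (.nd (nat_lit 5) 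
(.lf (nat_lit 159240) (.g (nat_lit 1845) (.e (nat_lit 57435) (nat_lit 17) (.e (nat_lit 376840) (nat_lit 11) (.e (nat_lit 426232) (nat_lit 9) (.e (nat_lit 426445) (nat_lit 20) (.e (nat_lit 114712) (nat_lit 21) (.e (nat_lit 57853) (nat_lit 252) .nil)))))) (.g (nat_lit 0) .nil .nil))) 
(.lf (nat_lit 159272) (.g (nat_lit 1632) (.e (nat_lit 57435) (nat_lit 17) (.e (nat_lit 376840) (nat_lit 11) (.e (nat_lit 426262) (nat_lit 9) (.e (nat_lit 426447) (nat_lit 20) (.e (nat_lit 114710) (nat_lit 21) (.e (nat_lit 57851) (nat_lit 252) .nil)))))) (.g (nat_lit 0) .nil .nil)))) (.nd (nat_lit 5) 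
(.lf (nat_lit 159256) (.g (nat_lit 1873) (.e (nat_lit 57435) (nat_lit 17) (.e (nat_lit 376840) (nat_lit 11) (.e (nat_lit 426260) (nat_lit 9) (.e (nat_lit 426447) (nat_lit 20) (.e (nat_lit 114710) (nat_lit 21) (.e (nat_lit 57853) (nat_lit 252) .nil)))))) (.g (nat_lit 0) .nil .nil))) 
(.lf (nat_lit 159288) (.g (nat_lit 2555) (.e (nat_lit 57435) (nat_lit 17) (.e (nat_lit 376842) (nat_lit 11) (.e (nat_lit 426012) (nat_lit 0) (.e (nat_lit 7593) (nat_lit 407) (.e (nat_lit 73730) (nat_lit 0) (.e (nat_lit 7261) (nat_lit 384) .nil)))))) (.g (nat_lit 4) .nil .nil)))))) (.nd (nat_lit 3) (.nd (nat_lit 4) (.nd (nat_lit 5) 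
(.lf (nat_lit 159236) (.g (nat_lit 2306) (.e (nat_lit 57435) (nat_lit 17) (.e (nat_lit 376840) (nat_lit 11) (.e (nat_lit 426232) (nat_lit 9) (.e (nat_lit 426445) (nat_lit 20) (.e (nat_lit 114711) (nat_lit 21) (.e (nat_lit 57846) (nat_lit 252) .nil)))))) (.g (nat_lit 0) .nil .nil))) 
(.lf (nat_lit 159268) (.g (nat_lit 1842) (.e (nat_lit 57435) (nat_lit 17) (.e (nat_lit 376840) (nat_lit 11) (.e (nat_lit 426262) (nat_lit 9) (.e (nat_lit 426445) (nat_lit 20) (.e (nat_lit 114711) (nat_lit 21) (.e (nat_lit 57849) (nat_lit 252) .nil)))))) (.g (nat_lit 0) .nil .nil)))) (.nd (nat_lit 5) 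
(.lf (nat_lit 159252) (.g (nat_lit 2011) (.e (nat_lit 57435) (nat_lit 17) (.e (nat_lit 376840) (nat_lit 11) (.e (nat_lit 426260) (nat_lit 9) (.e (nat_lit 426447) (nat_lit 20) (.e (nat_lit 114710) (nat_lit 21) (.e (nat_lit 57846) (nat_lit 252) .nil)))))) (.g (nat_lit 0) .nil .nil))) 
(.lf (nat_lit 159284) (.g (nat_lit 2578) (.e (nat_lit 57435) (nat_lit 17) (.e (nat_lit 376842) (nat_lit 11) (.e (nat_lit 426011) (nat_lit 0) (.e (nat_lit 7593) (nat_lit 407) (.e (nat_lit 73731) (nat_lit 0) (.e (nat_lit 7265) (nat_lit 384) .nil)))))) (.g (nat_lit 4) .nil .nil))))) (.nd (nat_lit 4) (.nd (nat_lit 5) 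
(.lf (nat_lit 159244) (.g (nat_lit 2071) (.e (nat_lit 57435) (nat_lit 17) (.e (nat_lit 376840) (nat_lit 11) (.e (nat_lit 426234) (nat_lit 9) (.e (nat_lit 426447) (nat_lit 20) (.e (nat_lit 114710) (nat_lit 21) (.e (nat_lit 57846) (nat_lit 252) .nil)))))) (.g (nat_lit 0) .nil .nil))) 
(.lf (nat_lit 159276) (.g (nat_lit 498) (.e (nat_lit 57435) (nat_lit 17) (.e (nat_lit 376842) (nat_lit 11) (.e (nat_lit 426009) (nat_lit 0) .nil))) .nil))) (.nd (nat_lit 5) 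
(.lf (nat_lit 159260) (.g (nat_lit 1882) (.e (nat_lit 57435) (nat_lit 17) (.e (nat_lit 376840) (nat_lit 11) (.e (nat_lit 426261) (nat_lit 9) (.e (nat_lit 426447) (nat_lit 20) (.e (nat_lit 114710) (nat_lit 21) (.e (nat_lit 57847) (nat_lit 252) .nil)))))) (.g (nat_lit 0) .nil .nil))) 
(.lf (nat_lit 159292) (.g (nat_lit 795) (.e (nat_lit 57435) (nat_lit 17) (.e (nat_lit 376842) (nat_lit 11) (.e (nat_lit 426024) (nat_lit 0) .nil))) .nil)))))) (.nd (nat_lit 2) (.nd (nat_lit 3) (.nd (nat_lit 4) (.nd (nat_lit 5) 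
(.lf (nat_lit 159234) (.g (nat_lit 1850) (.e (nat_lit 57435) (nat_lit 17) (.e (nat_lit 376840) (nat_lit 11) (.e (nat_lit 426230) (nat_lit 9) (.e (nat_lit 426447) (nat_lit 20) (.e (nat_lit 114710) (nat_lit 21) (.e (nat_lit 57854) (nat_lit 252) .nil)))))) (.g (nat_lit 0) .nil .nil))) 
(.lf (nat_lit 159266) (.g (nat_lit 1798) (.e (nat_lit 57435) (nat_lit 17) (.e (nat_lit 376840) (nat_lit 11) (.e (nat_lit 426261) (nat_lit 9) (.e (nat_lit 426447) (nat_lit 20) (.e (nat_lit 114710) (nat_lit 21) (.e (nat_lit 57854) (nat_lit 252) .nil)))))) (.g (nat_lit 0) .nil .nil)))) (.nd (nat_lit 5) 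
(.lf (nat_lit 159250) (.g (nat_lit 1762) (.e (nat_lit 57435) (nat_lit 17) (.e (nat_lit 376840) (nat_lit 11) (.e (nat_lit 426260) (nat_lit 9) (.e (nat_lit 426445) (nat_lit 20) (.e (nat_lit 114711) (nat_lit 21) (.e (nat_lit 57849) (nat_lit 252) .nil)))))) (.g (nat_lit 0) .nil .nil))) 
(.lf (nat_lit 159282) (.g (nat_lit 3342) (.e (nat_lit 57435) (nat_lit 17) (.e (nat_lit 376842) (nat_lit 11) (.e (nat_lit 426010) (nat_lit 0) (.e (nat_lit 7593) (nat_lit 407) (.e (nat_lit 73729) (nat_lit 0) (.e (nat_lit 7266) (nat_lit 384) .nil)))))) (.g (nat_lit 0) .nil .nil))))) (.nd (nat_lit 4) (.nd (nat_lit 5) 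
(.lf (nat_lit 159242) (.g (nat_lit 1719) (.e (nat_lit 57435) (nat_lit 17) (.e (nat_lit 376840) (nat_lit 11) (.e (nat_lit 426234) (nat_lit 9) (.e (nat_lit 426445) (nat_lit 20) (.e (nat_lit 114711) (nat_lit 21) (.e (nat_lit 57848) (nat_lit 252) .nil)))))) (.g (nat_lit 0) .nil .nil))) 
(.lf (nat_lit 159274) (.g (nat_lit 1811) (.e (nat_lit 57435) (nat_lit 17) (.e (nat_lit 376840) (nat_lit 11) (.e (nat_lit 426262) (nat_lit 9) (.e (nat_lit 426447) (nat_lit 20) (.e (nat_lit 114710) (nat_lit 21) (.e (nat_lit 57854) (nat_lit 252) .nil)))))) (.g (nat_lit 0) .nil .nil)))) (.nd (nat_lit 5) 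
(.lf (nat_lit 159258) (.g (nat_lit 1800) (.e (nat_lit 57435) (nat_lit 17) (.e (nat_lit 376840) (nat_lit 11) (.e (nat_lit 426260) (nat_lit 9) (.e (nat_lit 426447) (nat_lit 20) (.e (nat_lit 114712) (nat_lit 21) (.e (nat_lit 57852) (nat_lit 252) .nil)))))) (.g (nat_lit 0) .nil .nil))) 
(.lf (nat_lit 159290) (.g (nat_lit 607) (.e (nat_lit 57435) (nat_lit 17) (.e (nat_lit 376842) (nat_lit 11) (.e (nat_lit 426014) (nat_lit 0) .nil))) .nil))))) (.nd (nat_lit 3) (.nd (nat_lit 4) (.nd (nat_lit 5) 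
(.lf (nat_lit 159238) (.g (nat_lit 1837) (.e (nat_lit 57435) (nat_lit 17) (.e (nat_lit 376840) (nat_lit 11) (.e (nat_lit 426232) (nat_lit 9) (.e (nat_lit 426445) (nat_lit 20) (.e (nat_lit 114711) (nat_lit 21) (.e (nat_lit 57849) (nat_lit 252) .nil)))))) (.g (nat_lit 0) .nil .nil))) 
(.lf (nat_lit 159270) (.g (nat_lit 2063) (.e (nat_lit 57435) (nat_lit 17) (.e (nat_lit 376840) (nat_lit 11) (.e (nat_lit 426262) (nat_lit 9) (.e (nat_lit 426447) (nat_lit 20) (.e (nat_lit 114710) (nat_lit 21) (.e (nat_lit 57846) (nat_lit 252) .nil)))))) (.g (nat_lit 0) .nil .nil)))) (.nd (nat_lit 5) 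
(.lf (nat_lit 159254) (.g (nat_lit 1696) (.e (nat_lit 57435) (nat_lit 17) (.e (nat_lit 376840) (nat_lit 11) (.e (nat_lit 426260) (nat_lit 9) (.e (nat_lit 426447) (nat_lit 20) (.e (nat_lit 114710) (nat_lit 21) (.e (nat_lit 57849) (nat_lit 252) .nil)))))) (.g (nat_lit 0) .nil .nil))) 
(.lf (nat_lit 159286) (.g (nat_lit 2460) (.e (nat_lit 57435) (nat_lit 17) (.e (nat_lit 376842) (nat_lit 11) (.e (nat_lit 426012) (nat_lit 0) (.e (nat_lit 7591) (nat_lit 407) (.e (nat_lit 73730) (nat_lit 0) (.e (nat_lit 7261) (nat_lit 384) .nil)))))) (.g (nat_lit 4) .nil .nil))))) (.nd (nat_lit 4) (.nd (nat_lit 5) 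
(.lf (nat_lit 159246) (.g (nat_lit 1642) (.e (nat_lit 57435) (nat_lit 17) (.e (nat_lit 376840) (nat_lit 11) (.e (nat_lit 426234) (nat_lit 9) (.e (nat_lit 426447) (nat_lit 20) (.e (nat_lit 114710) (nat_lit 21) (.e (nat_lit 57851) (nat_lit 252) .nil)))))) (.g (nat_lit 0) .nil .nil))) 
(.lf (nat_lit 159278) (.g (nat_lit 3191) (.e (nat_lit 57435) (nat_lit 17) (.e (nat_lit 376842) (nat_lit 11) (.e (nat_lit 426009) (nat_lit 0) (.e (nat_lit 7593) (nat_lit 407) (.e (nat_lit 73729) (nat_lit 0) (.e (nat_lit 7266) (nat_lit 384) .nil)))))) (.g (nat_lit 0) .nil .nil)))) (.nd (nat_lit 5) 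
(.lf (nat_lit 159262) (.g (nat_lit 1736) (.e (nat_lit 57435) (nat_lit 17) (.e (nat_lit 376840) (nat_lit 11) (.e (nat_lit 426261) (nat_lit 9) (.e (nat_lit 426447) (nat_lit 20) (.e (nat_lit 114710) (nat_lit 21) (.e (nat_lit 57849) (nat_lit 252) .nil)))))) (.g (nat_lit 0) .nil .nil))) 
(.lf (nat_lit 159294) (.g (nat_lit 700) (.e (nat_lit 57435) (nat_lit 17) (.e (nat_lit 376842) (nat_lit 11) (.e (nat_lit 426028) (nat_lit 0) .nil))) .nil))))))) (.nd (nat_lit 1) (.nd (nat_lit 2) (.nd (nat_lit 3) (.nd (nat_lit 4) (.nd (nat_lit 5) 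
(.lf (nat_lit 159233) (.g (nat_lit 1962) (.e (nat_lit 57435) (nat_lit 17) (.e (nat_lit 376840) (nat_lit 11) (.e (nat_lit 426230) (nat_lit 9) (.e (nat_lit 426447) (nat_lit 20) (.e (nat_lit 114710) (nat_lit 21) (.e (nat_lit 57853) (nat_lit 252) .nil)))))) (.g (nat_lit 0) .nil .nil))) 
(.lf (nat_lit 159265) (.g (nat_lit 1912) (.e (nat_lit 57435) (nat_lit 17) (.e (nat_lit 376840) (nat_lit 11) (.e (nat_lit 426261) (nat_lit 9) (.e (nat_lit 426447) (nat_lit 20) (.e (nat_lit 114710) (nat_lit 21) (.e (nat_lit 57853) (nat_lit 252) .nil)))))) (.g (nat_lit 0) .nil .nil)))) (.nd (nat_lit 5) 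
(.lf (nat_lit 159249) (.g (nat_lit 2240) (.e (nat_lit 57435) (nat_lit 17) (.e (nat_lit 376840) (nat_lit 11) (.e (nat_lit 426260) (nat_lit 9) (.e (nat_lit 426445) (nat_lit 20) (.e (nat_lit 114711) (nat_lit 21) (.e (nat_lit 57846) (nat_lit 252) .nil)))))) (.g (nat_lit 0) .nil .nil))) 
(.lf (nat_lit 159281) (.g (nat_lit 2967) (.e (nat_lit 57435) (nat_lit 17) (.e (nat_lit 376842) (nat_lit 11) (.e (nat_lit 426010) (nat_lit 0) (.e (nat_lit 7591) (nat_lit 407) (.e (nat_lit 73731) (nat_lit 0) (.e (nat_lit 7266) (nat_lit 384) .nil)))))) (.g (nat_lit 0) .nil .nil))))) (.nd (nat_lit 4) (.nd (nat_lit 5) 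
(.lf (nat_lit 159241) (.g (nat_lit 2333) (.e (nat_lit 57435) (nat_lit 17) (.e (nat_lit 376840) (nat_lit 11) (.e (nat_lit 426234) (nat_lit 9) (.e (nat_lit 426445) (nat_lit 20) (.e (nat_lit 114711) (nat_lit 21) (.e (nat_lit 57846) (nat_lit 252) .nil)))))) (.g (nat_lit 0) .nil .nil))) 
(.lf (nat_lit 159273) (.g (nat_lit 1927) (.e (nat_lit 57435) (nat_lit 17) (.e (nat_lit 376840) (nat_lit 11) (.e (nat_lit 426262) (nat_lit 9) (.e (nat_lit 426447) (nat_lit 20) (.e (nat_lit 114710) (nat_lit 21) (.e (nat_lit 57853) (nat_lit 252) .nil)))))) (.g (nat_lit 0) .nil .nil)))) (.nd (nat_lit 5) 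
(.lf (nat_lit 159257) (.g (nat_lit 1760) (.e (nat_lit 57435) (nat_lit 17) (.e (nat_lit 376840) (nat_lit 11) (.e (nat_lit 426260) (nat_lit 9) (.e (nat_lit 426447) (nat_lit 20) (.e (nat_lit 114710) (nat_lit 21) (.e (nat_lit 57854) (nat_lit 252) .nil)))))) (.g (nat_lit 0) .nil .nil))) 
(.lf (nat_lit 159289) (.g (nat_lit 795) (.e (nat_lit 57435) (nat_lit 17) (.e (nat_lit 376842) (nat_lit 11) (.e (nat_lit 426013) (nat_lit 0) .nil))) .nil))))) (.nd (nat_lit 3) (.nd (nat_lit 4) (.nd (nat_lit 5) 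
(.lf (nat_lit 159237) (.g (nat_lit 1702) (.e (nat_lit 57435) (nat_lit 17) (.e (nat_lit 376840) (nat_lit 11) (.e (nat_lit 426232) (nat_lit 9) (.e (nat_lit 426445) (nat_lit 20) (.e (nat_lit 114711) (nat_lit 21) (.e (nat_lit 57848) (nat_lit 252) .nil)))))) (.g (nat_lit 0) .nil .nil))) 
(.lf (nat_lit 159269) (.g (nat_lit 1844) (.e (nat_lit 57435) (nat_lit 17) (.e (nat_lit 376840) (nat_lit 11) (.e (nat_lit 426262) (nat_lit 9) (.e (nat_lit 426445) (nat_lit 20) (.e (nat_lit 114712) (nat_lit 21) (.e (nat_lit 57853) (nat_lit 252) .nil)))))) (.g (nat_lit 0) .nil .nil)))) (.nd (nat_lit 5) 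
(.lf (nat_lit 159253) (.g (nat_lit 1532) (.e (nat_lit 57435) (nat_lit 17) (.e (nat_lit 376840) (nat_lit 11) (.e (nat_lit 426260) (nat_lit 9) (.e (nat_lit 426447) (nat_lit 20) (.e (nat_lit 114710) (nat_lit 21) (.e (nat_lit 57848) (nat_lit 252) .nil)))))) (.g (nat_lit 0) .nil .nil))) 
(.lf (nat_lit 159285) (.g (nat_lit 764) (.e (nat_lit 57435) (nat_lit 17) (.e (nat_lit 376842) (nat_lit 11) (.e (nat_lit 426012) (nat_lit 0) .nil))) .nil)))) (.nd (nat_lit 4) (.nd (nat_lit 5) 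
(.lf (nat_lit 159245) (.g (nat_lit 1756) (.e (nat_lit 57435) (nat_lit 17) (.e (nat_lit 376840) (nat_lit 11) (.e (nat_lit 426234) (nat_lit 9) (.e (nat_lit 426447) (nat_lit 20) (.e (nat_lit 114710) (nat_lit 21) (.e (nat_lit 57849) (nat_lit 252) .nil)))))) (.g (nat_lit 0) .nil .nil))) 
(.lf (nat_lit 159277) (.g (nat_lit 2766) (.e (nat_lit 57435) (nat_lit 17) (.e (nat_lit 376842) (nat_lit 11) (.e (nat_lit 426009) (nat_lit 0) (.e (nat_lit 7591) (nat_lit 407) (.e (nat_lit 73731) (nat_lit 0) (.e (nat_lit 7266) (nat_lit 384) .nil)))))) (.g (nat_lit 0) .nil .nil)))) (.nd (nat_lit 5) 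
(.lf (nat_lit 159261) (.g (nat_lit 1571) (.e (nat_lit 57435) (nat_lit 17) (.e (nat_lit 376840) (nat_lit 11) (.e (nat_lit 426261) (nat_lit 9) (.e (nat_lit 426447) (nat_lit 20) (.e (nat_lit 114710) (nat_lit 21) (.e (nat_lit 57848) (nat_lit 252) .nil)))))) (.g (nat_lit 0) .nil .nil))) 
(.lf (nat_lit 159293) (.g (nat_lit 1064) (.e (nat_lit 57435) (nat_lit 17) (.e (nat_lit 376842) (nat_lit 11) (.e (nat_lit 426027) (nat_lit 0) (.e (nat_lit 7936) (nat_lit 407) .nil)))) .nil)))))) (.nd (nat_lit 2) (.nd (nat_lit 3) (.nd (nat_lit 4) (.nd (nat_lit 5) 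
(.lf (nat_lit 159235) (.g (nat_lit 1903) (.e (nat_lit 57435) (nat_lit 17) (.e (nat_lit 376840) (nat_lit 11) (.e (nat_lit 426230) (nat_lit 9) (.e (nat_lit 426447) (nat_lit 20) (.e (nat_lit 114712) (nat_lit 21) (.e (nat_lit 57852) (nat_lit 252) .nil)))))) (.g (nat_lit 0) .nil .nil))) 
(.lf (nat_lit 159267) (.g (nat_lit 2300) (.e (nat_lit 57435) (nat_lit 17) (.e (nat_lit 376840) (nat_lit 11) (.e (nat_lit 426262) (nat_lit 9) (.e (nat_lit 426445) (nat_lit 20) (.e (nat_lit 114711) (nat_lit 21) (.e (nat_lit 57846) (nat_lit 252) .nil)))))) (.g (nat_lit 0) .nil .nil)))) (.nd (nat_lit 5) 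
(.lf (nat_lit 159251) (.g (nat_lit 1764) (.e (nat_lit 57435) (nat_lit 17) (.e (nat_lit 376840) (nat_lit 11) (.e (nat_lit 426260) (nat_lit 9) (.e (nat_lit 426445) (nat_lit 20) (.e (nat_lit 114712) (nat_lit 21) (.e (nat_lit 57853) (nat_lit 252) .nil)))))) (.g (nat_lit 0) .nil .nil))) 
(.lf (nat_lit 159283) (.g (nat_lit 2165) (.e (nat_lit 57435) (nat_lit 17) (.e (nat_lit 376842) (nat_lit 11) (.e (nat_lit 426010) (nat_lit 0) (.e (nat_lit 7593) (nat_lit 407) (.e (nat_lit 73731) (nat_lit 0) (.e (nat_lit 7261) (nat_lit 384) .nil)))))) (.g (nat_lit 4) .nil .nil))))) (.nd (nat_lit 4) (.nd (nat_lit 5) 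
(.lf (nat_lit 159243) (.g (nat_lit 1862) (.e (nat_lit 57435) (nat_lit 17) (.e (nat_lit 376840) (nat_lit 11) (.e (nat_lit 426234) (nat_lit 9) (.e (nat_lit 426445) (nat_lit 20) (.e (nat_lit 114711) (nat_lit 21) (.e (nat_lit 57849) (nat_lit 252) .nil)))))) (.g (nat_lit 0) .nil .nil))) 
(.lf (nat_lit 159275) (.g (nat_lit 1826) (.e (nat_lit 57435) (nat_lit 17) (.e (nat_lit 376840) (nat_lit 11) (.e (nat_lit 426262) (nat_lit 9) (.e (nat_lit 426447) (nat_lit 20) (.e (nat_lit 114712) (nat_lit 21) (.e (nat_lit 57852) (nat_lit 252) .nil)))))) (.g (nat_lit 0) .nil .nil)))) (.nd (nat_lit 5) 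
(.lf (nat_lit 159259) (.g (nat_lit 2050) (.e (nat_lit 57435) (nat_lit 17) (.e (nat_lit 376840) (nat_lit 11) (.e (nat_lit 426261) (nat_lit 9) (.e (nat_lit 426447) (nat_lit 20) (.e (nat_lit 114710) (nat_lit 21) (.e (nat_lit 57846) (nat_lit 252) .nil)))))) (.g (nat_lit 0) .nil .nil))) 
(.lf (nat_lit 159291) (.g (nat_lit 795) (.e (nat_lit 57435) (nat_lit 17) (.e (nat_lit 376842) (nat_lit 11) (.e (nat_lit 426016) (nat_lit 0) .nil))) .nil))))) (.nd (nat_lit 3) (.nd (nat_lit 4) (.nd (nat_lit 5) 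
(.lf (nat_lit 159239) (.g (nat_lit 1853) (.e (nat_lit 57435) (nat_lit 17) (.e (nat_lit 376840) (nat_lit 11) (.e (nat_lit 426232) (nat_lit 9) (.e (nat_lit 426445) (nat_lit 20) (.e (nat_lit 114712) (nat_lit 21) (.e (nat_lit 57852) (nat_lit 252) .nil)))))) (.g (nat_lit 0) .nil .nil))) 
(.lf (nat_lit 159271) (.g (nat_lit 1749) (.e (nat_lit 57435) (nat_lit 17) (.e (nat_lit 376840) (nat_lit 11) (.e (nat_lit 426262) (nat_lit 9) (.e (nat_lit 426447) (nat_lit 20) (.e (nat_lit 114710) (nat_lit 21) (.e (nat_lit 57849) (nat_lit 252) .nil)))))) (.g (nat_lit 0) .nil .nil)))) (.nd (nat_lit 5) 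
(.lf (nat_lit 159255) (.g (nat_lit 1579) (.e (nat_lit 57435) (nat_lit 17) (.e (nat_lit 376840) (nat_lit 11) (.e (nat_lit 426260) (nat_lit 9) (.e (nat_lit 426447) (nat_lit 20) (.e (nat_lit 114710) (nat_lit 21) (.e (nat_lit 57851) (nat_lit 252) .nil)))))) (.g (nat_lit 0) .nil .nil))) 
(.lf (nat_lit 159287) (.g (nat_lit 2493) (.e (nat_lit 57435) (nat_lit 17) (.e (nat_lit 376842) (nat_lit 11) (.e (nat_lit 426012) (nat_lit 0) (.e (nat_lit 7591) (nat_lit 407) (.e (nat_lit 73731) (nat_lit 0) (.e (nat_lit 7261) (nat_lit 384) .nil)))))) (.g (nat_lit 4) .nil .nil))))) (.nd (nat_lit 4) (.nd (nat_lit 5) 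
(.lf (nat_lit 159247) (.g (nat_lit 1933) (.e (nat_lit 57435) (nat_lit 17) (.e (nat_lit 376840) (nat_lit 11) (.e (nat_lit 426234) (nat_lit 9) (.e (nat_lit 426447) (nat_lit 20) (.e (nat_lit 114710) (nat_lit 21) (.e (nat_lit 57853) (nat_lit 252) .nil)))))) (.g (nat_lit 0) .nil .nil))) 
(.lf (nat_lit 159279) (.g (nat_lit 2007) (.e (nat_lit 57435) (nat_lit 17) (.e (nat_lit 376842) (nat_lit 11) (.e (nat_lit 426009) (nat_lit 0) (.e (nat_lit 7593) (nat_lit 407) (.e (nat_lit 73731) (nat_lit 0) (.e (nat_lit 7265) (nat_lit 384) .nil)))))) (.g (nat_lit 4) .nil .nil)))) (.nd (nat_lit 5) 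
(.lf (nat_lit 159263) (.g (nat_lit 1619) (.e (nat_lit 57435) (nat_lit 17) (.e (nat_lit 376840) (nat_lit 11) (.e (nat_lit 426261) (nat_lit 9) (.e (nat_lit 426447) (nat_lit 20) (.e (nat_lit 114710) (nat_lit 21) (.e (nat_lit 57851) (nat_lit 252) .nil)))))) (.g (nat_lit 0) .nil .nil))) 
(.lf (nat_lit 159295) (.g (nat_lit 796) (.e (nat_lit 57435) (nat_lit 17) (.e (nat_lit 376842) (nat_lit 11) (.e (nat_lit 426029) (nat_lit 0) .nil))) .nil))))))))

noncomputable def tv2131 : DT := (.nd (nat_lit 0) (.nd (nat_lit 1) (.nd (nat_lit 2) (.nd (nat_lit 3) (.nd (nat_lit 4) (.nd (nat_lit 5) 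
(.lf (nat_lit 159296) (.g (nat_lit 795) (.e (nat_lit 57435) (nat_lit 17) (.e (nat_lit 376842) (nat_lit 11) (.e (nat_lit 426030) (nat_lit 0) .nil))) .nil)) 
(.lf (nat_lit 159328) (.g (nat_lit 2926) (.e (nat_lit 57435) (nat_lit 17) (.e (nat_lit 376842) (nat_lit 11) (.e (nat_lit 426187) (nat_lit 9) (.e (nat_lit 426446) (nat_lit 20) (.e (nat_lit 114712) (nat_lit 21) (.e (nat_lit 57854) (nat_lit 252) .nil)))))) (.g (nat_lit 0) .nil .nil)))) (.nd (nat_lit 5) 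
(.lf (nat_lit 159312) (.g (nat_lit 2905) (.e (nat_lit 57435) (nat_lit 17) (.e (nat_lit 376842) (nat_lit 11) (.e (nat_lit 426186) (nat_lit 9) (.e (nat_lit 426448) (nat_lit 20) (.e (nat_lit 114711) (nat_lit 21) (.e (nat_lit 57848) (nat_lit 252) .nil)))))) (.g (nat_lit 5) .nil .nil))) 
(.lf (nat_lit 159344) (.g (nat_lit 435) (.e (nat_lit 57435) (nat_lit 17) (.e (nat_lit 376842) (nat_lit 11) (.e (nat_lit 426188) (nat_lit 9) .nil))) .nil)))) (.nd (nat_lit 4) (.nd (nat_lit 5) 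
(.lf (nat_lit 159304) (.g (nat_lit 2551) (.e (nat_lit 57435) (nat_lit 17) (.e (nat_lit 376842) (nat_lit 11) (.e (nat_lit 426172) (nat_lit 7) (.e (nat_lit 409645) (nat_lit 18) (.e (nat_lit 303115) (nat_lit 1) (.e (nat_lit 164179) (nat_lit 154) .nil)))))) (.g (nat_lit 4) .nil .nil))) 
(.lf (nat_lit 159336) (.g (nat_lit 3608) (.e (nat_lit 57435) (nat_lit 17) (.e (nat_lit 376842) (nat_lit 11) (.e (nat_lit 426187) (nat_lit 9) (.e (nat_lit 426448) (nat_lit 20) (.e (nat_lit 114710) (nat_lit 21) (.e (nat_lit 57854) (nat_lit 252) .nil)))))) (.g (nat_lit 0) .nil .nil)))) (.nd (nat_lit 5) 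
(.lf (nat_lit 159320) (.g (nat_lit 3132) (.e (nat_lit 57435) (nat_lit 17) (.e (nat_lit 376842) (nat_lit 11) (.e (nat_lit 426187) (nat_lit 9) (.e (nat_lit 426446) (nat_lit 20) (.e (nat_lit 114710) (nat_lit 21) (.e (nat_lit 57854) (nat_lit 252) .nil)))))) (.g (nat_lit 6) .nil .nil))) 
(.lf (nat_lit 159352) (.g (nat_lit 1957) (.e (nat_lit 57435) (nat_lit 17) (.e (nat_lit 376842) (nat_lit 11) (.e (nat_lit 426188) (nat_lit 9) (.e (nat_lit 426444) (nat_lit 19) (.e (nat_lit 106504) (nat_lit 9) .nil))))) .nil))))) (.nd (nat_lit 3) (.nd (nat_lit 4) (.nd (nat_lit 5) 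
(.lf (nat_lit 159300) (.g (nat_lit 795) (.e (nat_lit 57435) (nat_lit 17) (.e (nat_lit 376842) (nat_lit 11) (.e (nat_lit 426053) (nat_lit 0) .nil))) .nil)) 
(.lf (nat_lit 159332) (.g (nat_lit 3345) (.e (nat_lit 57435) (nat_lit 17) (.e (nat_lit 376842) (nat_lit 11) (.e (nat_lit 426187) (nat_lit 9) (.e (nat_lit 426448) (nat_lit 20) (.e (nat_lit 114710) (nat_lit 21) (.e (nat_lit 57848) (nat_lit 252) .nil)))))) (.g (nat_lit 0) .nil .nil)))) (.nd (nat_lit 5) 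
(.lf (nat_lit 159316) (.g (nat_lit 2697) (.e (nat_lit 57435) (nat_lit 17) (.e (nat_lit 376842) (nat_lit 11) (.e (nat_lit 426187) (nat_lit 9) (.e (nat_lit 426446) (nat_lit 20) (.e (nat_lit 114710) (nat_lit 21) (.e (nat_lit 57849) (nat_lit 252) .nil)))))) (.g (nat_lit 5) .nil .nil))) 
(.lf (nat_lit 159348) (.g (nat_lit 1519) (.e (nat_lit 57435) (nat_lit 17) (.e (nat_lit 376842) (nat_lit 11) (.e (nat_lit 426188) (nat_lit 9) (.e (nat_lit 426361) (nat_lit 15) .nil)))) .nil)))) (.nd (nat_lit 4) (.nd (nat_lit 5) 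
(.lf (nat_lit 159308) (.g (nat_lit 2344) (.e (nat_lit 57435) (nat_lit 17) (.e (nat_lit 376842) (nat_lit 11) (.e (nat_lit 426186) (nat_lit 9) (.e (nat_lit 426446) (nat_lit 20) (.e (nat_lit 114710) (nat_lit 21) (.e (nat_lit 57851) (nat_lit 252) .nil)))))) (.g (nat_lit 5) .nil .nil))) 
(.lf (nat_lit 159340) (.g (nat_lit 3309) (.e (nat_lit 57435) (nat_lit 17) (.e (nat_lit 376842) (nat_lit 11) (.e (nat_lit 426187) (nat_lit 9) (.e (nat_lit 426448) (nat_lit 20) (.e (nat_lit 114711) (nat_lit 21) (.e (nat_lit 57853) (nat_lit 252) .nil)))))) (.g (nat_lit 6) .nil .nil)))) (.nd (nat_lit 5) 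
(.lf (nat_lit 159324) (.g (nat_lit 2986) (.e (nat_lit 57435) (nat_lit 17) (.e (nat_lit 376842) (nat_lit 11) (.e (nat_lit 426187) (nat_lit 9) (.e (nat_lit 426446) (nat_lit 20) (.e (nat_lit 114711) (nat_lit 21) (.e (nat_lit 57849) (nat_lit 252) .nil)))))) (.g (nat_lit 6) .nil .nil))) 
(.lf (nat_lit 159356) (.g (nat_lit 2687) (.e (nat_lit 57435) (nat_lit 17) (.e (nat_lit 376842) (nat_lit 11) (.e (nat_lit 426188) (nat_lit 9) (.e (nat_lit 426446) (nat_lit 20) (.e (nat_lit 114710) (nat_lit 21) (.e (nat_lit 57848) (nat_lit 252) .nil)))))) (.g (nat_lit 5) .nil .nil))))))) (.nd (nat_lit 2) (.nd (nat_lit 3) (.nd (nat_lit 4) (.nd (nat_lit 5) 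
(.lf (nat_lit 159298) (.g (nat_lit 910) (.e (nat_lit 57435) (nat_lit 17) (.e (nat_lit 376842) (nat_lit 11) (.e (nat_lit 426035) (nat_lit 0) (.e (nat_lit 7936) (nat_lit 407) .nil)))) .nil)) 
(.lf (nat_lit 159330) (.g (nat_lit 3787) (.e (nat_lit 57435) (nat_lit 17) (.e (nat_lit 376842) (nat_lit 11) (.e (nat_lit 426187) (nat_lit 9) (.e (nat_lit 426448) (nat_lit 20) (.e (nat_lit 114710) (nat_lit 21) (.e (nat_lit 57846) (nat_lit 252) .nil)))))) (.g (nat_lit 0) .nil .nil)))) (.nd (nat_lit 5) 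
(.lf (nat_lit 159314) (.g (nat_lit 3278) (.e (nat_lit 57435) (nat_lit 17) (.e (nat_lit 376842) (nat_lit 11) (.e (nat_lit 426187) (nat_lit 9) (.e (nat_lit 426446) (nat_lit 20) (.e (nat_lit 114710) (nat_lit 21) (.e (nat_lit 57847) (nat_lit 252) .nil)))))) (.g (nat_lit 0) .nil .nil))) 
(.lf (nat_lit 159346) (.g (nat_lit 1534) (.e (nat_lit 57435) (nat_lit 17) (.e (nat_lit 376842) (nat_lit 11) (.e (nat_lit 426188) (nat_lit 9) (.e (nat_lit 426354) (nat_lit 15) .nil)))) .nil)))) (.nd (nat_lit 4) (.nd (nat_lit 5) 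
(.lf (nat_lit 159306) (.g (nat_lit 583) (.e (nat_lit 57435) (nat_lit 17) (.e (nat_lit 376842) (nat_lit 11) (.e (nat_lit 426186) (nat_lit 9) .nil))) .nil)) 
(.lf (nat_lit 159338) (.g (nat_lit 3916) (.e (nat_lit 57435) (nat_lit 17) (.e (nat_lit 376842) (nat_lit 11) (.e (nat_lit 426187) (nat_lit 9) (.e (nat_lit 426448) (nat_lit 20) (.e (nat_lit 114711) (nat_lit 21) (.e (nat_lit 57847) (nat_lit 252) .nil)))))) (.g (nat_lit 0) .nil .nil)))) (.nd (nat_lit 5) 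
(.lf (nat_lit 159322) (.g (nat_lit 3557) (.e (nat_lit 57435) (nat_lit 17) (.e (nat_lit 376842) (nat_lit 11) (.e (nat_lit 426187) (nat_lit 9) (.e (nat_lit 426446) (nat_lit 20) (.e (nat_lit 114711) (nat_lit 21) (.e (nat_lit 57847) (nat_lit 252) .nil)))))) (.g (nat_lit 0) .nil .nil))) 
(.lf (nat_lit 159354) (.g (nat_lit 2225) (.e (nat_lit 57435) (nat_lit 17) (.e (nat_lit 376842) (nat_lit 11) (.e (nat_lit 426188) (nat_lit 9) (.e (nat_lit 426446) (nat_lit 20) (.e (nat_lit 114710) (nat_lit 21) (.e (nat_lit 57844) (nat_lit 252) .nil)))))) (.g (nat_lit 4) .nil .nil)))))) (.nd (nat_lit 3) (.nd (nat_lit 4) (.nd (nat_lit 5) 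
(.lf (nat_lit 159302) (.g (nat_lit 795) (.e (nat_lit 57435) (nat_lit 17) (.e (nat_lit 376842) (nat_lit 11) (.e (nat_lit 426070) (nat_lit 0) .nil))) .nil)) 
(.lf (nat_lit 159334) (.g (nat_lit 3667) (.e (nat_lit 57435) (nat_lit 17) (.e (nat_lit 376842) (nat_lit 11) (.e (nat_lit 426187) (nat_lit 9) (.e (nat_lit 426448) (nat_lit 20) (.e (nat_lit 114710) (nat_lit 21) (.e (nat_lit 57852) (nat_lit 252) .nil)))))) (.g (nat_lit 0) .nil .nil)))) (.nd (nat_lit 5) 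
(.lf (nat_lit 159318) (.g (nat_lit 3296) (.e (nat_lit 57435) (nat_lit 17) (.e (nat_lit 376842) (nat_lit 11) (.e (nat_lit 426187) (nat_lit 9) (.e (nat_lit 426446) (nat_lit 20) (.e (nat_lit 114710) (nat_lit 21) (.e (nat_lit 57852) (nat_lit 252) .nil)))))) (.g (nat_lit 0) .nil .nil))) 
(.lf (nat_lit 159350) (.g (nat_lit 1795) (.e (nat_lit 57435) (nat_lit 17) (.e (nat_lit 376842) (nat_lit 11) (.e (nat_lit 426188) (nat_lit 9) (.e (nat_lit 426442) (nat_lit 19) .nil)))) .nil)))) (.nd (nat_lit 4) (.nd (nat_lit 5) 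
(.lf (nat_lit 159310) (.g (nat_lit 2674) (.e (nat_lit 57435) (nat_lit 17) (.e (nat_lit 376842) (nat_lit 11) (.e (nat_lit 426186) (nat_lit 9) (.e (nat_lit 426446) (nat_lit 20) (.e (nat_lit 114711) (nat_lit 21) (.e (nat_lit 57848) (nat_lit 252) .nil)))))) (.g (nat_lit 0) .nil .nil))) 
(.lf (nat_lit 159342) (.g (nat_lit 3034) (.e (nat_lit 57435) (nat_lit 17) (.e (nat_lit 376842) (nat_lit 11) (.e (nat_lit 426187) (nat_lit 9) (.e (nat_lit 426448) (nat_lit 20) (.e (nat_lit 114712) (nat_lit 21) (.e (nat_lit 57852) (nat_lit 252) .nil)))))) (.g (nat_lit 0) .nil .nil)))) (.nd (nat_lit 5) 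
(.lf (nat_lit 159326) (.g (nat_lit 3036) (.e (nat_lit 57435) (nat_lit 17) (.e (nat_lit 376842) (nat_lit 11) (.e (nat_lit 426187) (nat_lit 9) (.e (nat_lit 426446) (nat_lit 20) (.e (nat_lit 114712) (nat_lit 21) (.e (nat_lit 57852) (nat_lit 252) .nil)))))) (.g (nat_lit 0) .nil .nil))) 
(.lf (nat_lit 159358) (.g (nat_lit 2797) (.e (nat_lit 57435) (nat_lit 17) (.e (nat_lit 376842) (nat_lit 11) (.e (nat_lit 426188) (nat_lit 9) (.e (nat_lit 426446) (nat_lit 20) (.e (nat_lit 114710) (nat_lit 21) (.e (nat_lit 57851) (nat_lit 252) .nil)))))) (.g (nat_lit 6) .nil .nil)))))))) (.nd (nat_lit 1) (.nd (nat_lit 2) (.nd (nat_lit 3) (.nd (nat_lit 4) (.nd (nat_lit 5) 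
(.lf (nat_lit 159297) (.g (nat_lit 1049) (.e (nat_lit 57435) (nat_lit 17) (.e (nat_lit 376842) (nat_lit 11) (.e (nat_lit 426031) (nat_lit 0) (.e (nat_lit 7936) (nat_lit 407) .nil)))) .nil)) 
(.lf (nat_lit 159329) (.g (nat_lit 2672) (.e (nat_lit 57435) (nat_lit 17) (.e (nat_lit 376842) (nat_lit 11) (.e (nat_lit 426187) (nat_lit 9) (.e (nat_lit 426448) (nat_lit 20) (.e (nat_lit 114710) (nat_lit 21) (.e (nat_lit 57844) (nat_lit 252) .nil)))))) (.g (nat_lit 5) .nil .nil)))) (.nd (nat_lit 5) 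
(.lf (nat_lit 159313) (.g (nat_lit 2142) (.e (nat_lit 57435) (nat_lit 17) (.e (nat_lit 376842) (nat_lit 11) (.e (nat_lit 426187) (nat_lit 9) (.e (nat_lit 426446) (nat_lit 20) (.e (nat_lit 114710) (nat_lit 21) (.e (nat_lit 57844) (nat_lit 252) .nil)))))) (.g (nat_lit 4) .nil .nil))) 
(.lf (nat_lit 159345) (.g (nat_lit 1803) (.e (nat_lit 57435) (nat_lit 17) (.e (nat_lit 376842) (nat_lit 11) (.e (nat_lit 426188) (nat_lit 9) (.e (nat_lit 426350) (nat_lit 15) .nil)))) .nil)))) (.nd (nat_lit 4) (.nd (nat_lit 5) 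
(.lf (nat_lit 159305) (.g (nat_lit 725) (.e (nat_lit 57435) (nat_lit 17) (.e (nat_lit 376842) (nat_lit 11) (.e (nat_lit 426180) (nat_lit 8) .nil))) .nil)) 
(.lf (nat_lit 159337) (.g (nat_lit 3266) (.e (nat_lit 57435) (nat_lit 17) (.e (nat_lit 376842) (nat_lit 11) (.e (nat_lit 426187) (nat_lit 9) (.e (nat_lit 426448) (nat_lit 20) (.e (nat_lit 114711) (nat_lit 21) (.e (nat_lit 57844) (nat_lit 252) .nil)))))) (.g (nat_lit 5) .nil .nil)))) (.nd (nat_lit 5) 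
(.lf (nat_lit 159321) (.g (nat_lit 2855) (.e (nat_lit 57435) (nat_lit 17) (.e (nat_lit 376842) (nat_lit 11) (.e (nat_lit 426187) (nat_lit 9) (.e (nat_lit 426446) (nat_lit 20) (.e (nat_lit 114711) (nat_lit 21) (.e (nat_lit 57844) (nat_lit 252) .nil)))))) (.g (nat_lit 6) .nil .nil))) 
(.lf (nat_lit 159353) (.g (nat_lit 2751) (.e (nat_lit 57435) (nat_lit 17) (.e (nat_lit 376842) (nat_lit 11) (.e (nat_lit 426188) (nat_lit 9) (.e (nat_lit 426444) (nat_lit 19) (.e (nat_lit 106520) (nat_lit 9) (.e (nat_lit 1170) (nat_lit 87) (.e (nat_lit 57847) (nat_lit 252) .nil))))))) (.g (nat_lit 4) .nil .nil)))))) (.nd (nat_lit 3) (.nd (nat_lit 4) (.nd (nat_lit 5) 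
(.lf (nat_lit 159301) (.g (nat_lit 795) (.e (nat_lit 57435) (nat_lit 17) (.e (nat_lit 376842) (nat_lit 11) (.e (nat_lit 426054) (nat_lit 0) .nil))) .nil)) 
(.lf (nat_lit 159333) (.g (nat_lit 3375) (.e (nat_lit 57435) (nat_lit 17) (.e (nat_lit 376842) (nat_lit 11) (.e (nat_lit 426187) (nat_lit 9) (.e (nat_lit 426448) (nat_lit 20) (.e (nat_lit 114710) (nat_lit 21) (.e (nat_lit 57851) (nat_lit 252) .nil)))))) (.g (nat_lit 0) .nil .nil)))) (.nd (nat_lit 5) 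
(.lf (nat_lit 159317) (.g (nat_lit 2713) (.e (nat_lit 57435) (nat_lit 17) (.e (nat_lit 376842) (nat_lit 11) (.e (nat_lit 426187) (nat_lit 9) (.e (nat_lit 426446) (nat_lit 20) (.e (nat_lit 114710) (nat_lit 21) (.e (nat_lit 57851) (nat_lit 252) .nil)))))) (.g (nat_lit 5) .nil .nil))) 
(.lf (nat_lit 159349) (.g (nat_lit 1678) (.e (nat_lit 57435) (nat_lit 17) (.e (nat_lit 376842) (nat_lit 11) (.e (nat_lit 426188) (nat_lit 9) (.e (nat_lit 426440) (nat_lit 19) .nil)))) .nil)))) (.nd (nat_lit 4) (.nd (nat_lit 5) 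
(.lf (nat_lit 159309) (.g (nat_lit 2903) (.e (nat_lit 57435) (nat_lit 17) (.e (nat_lit 376842) (nat_lit 11) (.e (nat_lit 426186) (nat_lit 9) (.e (nat_lit 426446) (nat_lit 20) (.e (nat_lit 114710) (nat_lit 21) (.e (nat_lit 57852) (nat_lit 252) .nil)))))) (.g (nat_lit 0) .nil .nil))) 
(.lf (nat_lit 159341) (.g (nat_lit 2039) (.e (nat_lit 57435) (nat_lit 17) (.e (nat_lit 376842) (nat_lit 11) (.e (nat_lit 426187) (nat_lit 9) (.e (nat_lit 426448) (nat_lit 20) (.e (nat_lit 114712) (nat_lit 21) (.e (nat_lit 57851) (nat_lit 252) .nil)))))) (.g (nat_lit 4) .nil .nil)))) (.nd (nat_lit 5) 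
(.lf (nat_lit 159325) (.g (nat_lit 2135) (.e (nat_lit 57435) (nat_lit 17) (.e (nat_lit 376842) (nat_lit 11) (.e (nat_lit 426187) (nat_lit 9) (.e (nat_lit 426446) (nat_lit 20) (.e (nat_lit 114712) (nat_lit 21) (.e (nat_lit 57851) (nat_lit 252) .nil)))))) (.g (nat_lit 4) .nil .nil))) 
(.lf (nat_lit 159357) (.g (nat_lit 2725) (.e (nat_lit 57435) (nat_lit 17) (.e (nat_lit 376842) (nat_lit 11) (.e (nat_lit 426188) (nat_lit 9) (.e (nat_lit 426446) (nat_lit 20) (.e (nat_lit 114710) (nat_lit 21) (.e (nat_lit 57849) (nat_lit 252) .nil)))))) (.g (nat_lit 5) .nil .nil))))))) (.nd (nat_lit 2) (.nd (nat_lit 3) (.nd (nat_lit 4) (.nd (nat_lit 5) 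
(.lf (nat_lit 159299) (.g (nat_lit 796) (.e (nat_lit 57435) (nat_lit 17) (.e (nat_lit 376842) (nat_lit 11) (.e (nat_lit 426051) (nat_lit 0) .nil))) .nil)) 
(.lf (nat_lit 159331) (.g (nat_lit 3613) (.e (nat_lit 57435) (nat_lit 17) (.e (nat_lit 376842) (nat_lit 11) (.e (nat_lit 426187) (nat_lit 9) (.e (nat_lit 426448) (nat_lit 20) (.e (nat_lit 114710) (nat_lit 21) (.e (nat_lit 57847) (nat_lit 252) .nil)))))) (.g (nat_lit 0) .nil .nil)))) (.nd (nat_lit 5) 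
(.lf (nat_lit 159315) (.g (nat_lit 2655) (.e (nat_lit 57435) (nat_lit 17) (.e (nat_lit 376842) (nat_lit 11) (.e (nat_lit 426187) (nat_lit 9) (.e (nat_lit 426446) (nat_lit 20) (.e (nat_lit 114710) (nat_lit 21) (.e (nat_lit 57848) (nat_lit 252) .nil)))))) (.g (nat_lit 5) .nil .nil))) 
(.lf (nat_lit 159347) (.g (nat_lit 1770) (.e (nat_lit 57435) (nat_lit 17) (.e (nat_lit 376842) (nat_lit 11) (.e (nat_lit 426188) (nat_lit 9) (.e (nat_lit 426359) (nat_lit 15) .nil)))) .nil)))) (.nd (nat_lit 4) (.nd (nat_lit 5) 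
(.lf (nat_lit 159307) (.g (nat_lit 2264) (.e (nat_lit 57435) (nat_lit 17) (.e (nat_lit 376842) (nat_lit 11) (.e (nat_lit 426186) (nat_lit 9) (.e (nat_lit 426446) (nat_lit 20) (.e (nat_lit 114710) (nat_lit 21) (.e (nat_lit 57848) (nat_lit 252) .nil)))))) (.g (nat_lit 5) .nil .nil))) 
(.lf (nat_lit 159339) (.g (nat_lit 3544) (.e (nat_lit 57435) (nat_lit 17) (.e (nat_lit 376842) (nat_lit 11) (.e (nat_lit 426187) (nat_lit 9) (.e (nat_lit 426448) (nat_lit 20) (.e (nat_lit 114711) (nat_lit 21) (.e (nat_lit 57849) (nat_lit 252) .nil)))))) (.g (nat_lit 0) .nil .nil)))) (.nd (nat_lit 5) 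
(.lf (nat_lit 159323) (.g (nat_lit 3055) (.e (nat_lit 57435) (nat_lit 17) (.e (nat_lit 376842) (nat_lit 11) (.e (nat_lit 426187) (nat_lit 9) (.e (nat_lit 426446) (nat_lit 20) (.e (nat_lit 114711) (nat_lit 21) (.e (nat_lit 57848) (nat_lit 252) .nil)))))) (.g (nat_lit 0) .nil .nil))) 
(.lf (nat_lit 159355) (.g (nat_lit 3294) (.e (nat_lit 57435) (nat_lit 17) (.e (nat_lit 376842) (nat_lit 11) (.e (nat_lit 426188) (nat_lit 9) (.e (nat_lit 426446) (nat_lit 20) (.e (nat_lit 114710) (nat_lit 21) (.e (nat_lit 57846) (nat_lit 252) .nil)))))) (.g (nat_lit 6) .nil .nil)))))) (.nd (nat_lit 3) (.nd (nat_lit 4) (.nd (nat_lit 5) 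
(.lf (nat_lit 159303) (.g (nat_lit 795) (.e (nat_lit 57435) (nat_lit 17) (.e (nat_lit 376842) (nat_lit 11) (.e (nat_lit 426075) (nat_lit 0) .nil))) .nil)) 
(.lf (nat_lit 159335) (.g (nat_lit 3694) (.e (nat_lit 57435) (nat_lit 17) (.e (nat_lit 376842) (nat_lit 11) (.e (nat_lit 426187) (nat_lit 9) (.e (nat_lit 426448) (nat_lit 20) (.e (nat_lit 114710) (nat_lit 21) (.e (nat_lit 57853) (nat_lit 252) .nil)))))) (.g (nat_lit 0) .nil .nil)))) (.nd (nat_lit 5) 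
(.lf (nat_lit 159319) (.g (nat_lit 3108) (.e (nat_lit 57435) (nat_lit 17) (.e (nat_lit 376842) (nat_lit 11) (.e (nat_lit 426187) (nat_lit 9) (.e (nat_lit 426446) (nat_lit 20) (.e (nat_lit 114710) (nat_lit 21) (.e (nat_lit 57853) (nat_lit 252) .nil)))))) (.g (nat_lit 6) .nil .nil))) 
(.lf (nat_lit 159351) (.g (nat_lit 1325) (.e (nat_lit 57435) (nat_lit 17) (.e (nat_lit 376842) (nat_lit 11) (.e (nat_lit 426188) (nat_lit 9) (.e (nat_lit 426444) (nat_lit 19) .nil)))) .nil)))) (.nd (nat_lit 4) (.nd (nat_lit 5) 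
(.lf (nat_lit 159311) (.g (nat_lit 2645) (.e (nat_lit 57435) (nat_lit 17) (.e (nat_lit 376842) (nat_lit 11) (.e (nat_lit 426186) (nat_lit 9) (.e (nat_lit 426446) (nat_lit 20) (.e (nat_lit 114712) (nat_lit 21) (.e (nat_lit 57852) (nat_lit 252) .nil)))))) (.g (nat_lit 0) .nil .nil))) 
(.lf (nat_lit 159343) (.g (nat_lit 3076) (.e (nat_lit 57435) (nat_lit 17) (.e (nat_lit 376842) (nat_lit 11) (.e (nat_lit 426187) (nat_lit 9) (.e (nat_lit 426448) (nat_lit 20) (.e (nat_lit 114712) (nat_lit 21) (.e (nat_lit 57854) (nat_lit 252) .nil)))))) (.g (nat_lit 0) .nil .nil)))) (.nd (nat_lit 5) 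
(.lf (nat_lit 159327) (.g (nat_lit 3001) (.e (nat_lit 57435) (nat_lit 17) (.e (nat_lit 376842) (nat_lit 11) (.e (nat_lit 426187) (nat_lit 9) (.e (nat_lit 426446) (nat_lit 20) (.e (nat_lit 114712) (nat_lit 21) (.e (nat_lit 57853) (nat_lit 252) .nil)))))) (.g (nat_lit 0) .nil .nil))) 
(.lf (nat_lit 159359) (.g (nat_lit 3387) (.e (nat_lit 57435) (nat_lit 17) (.e (nat_lit 376842) (nat_lit 11) (.e (nat_lit 426188) (nat_lit 9) (.e (nat_lit 426446) (nat_lit 20) (.e (nat_lit 114710) (nat_lit 21) (.e (nat_lit 57852) (nat_lit 252) .nil)))))) (.g (nat_lit 0) .nil .nil)))))))))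

noncomputable def tv2132 : DT := (.nd (nat_lit 0) (.nd (nat_lit 1) (.nd (nat_lit 2) (.nd (nat_lit 3) (.nd (nat_lit 4) (.nd (nat_lit 5) 
(.lf (nat_lit 159360) (.g (nat_lit 3230) (.e (nat_lit 57435) (nat_lit 17) (.e (nat_lit 376842) (nat_lit 11) (.e (nat_lit 426188) (nat_lit 9) (.e (nat_lit 426446) (nat_lit 20) (.e (nat_lit 114710) (nat_lit 21) (.e (nat_lit 57853) (nat_lit 252) .nil)))))) (.g (nat_lit 6) .nil .nil))) 
(.lf (nat_lit 159392) (.g (nat_lit 2242) (.e (nat_lit 57435) (nat_lit 17) (.e (nat_lit 376842) (nat_lit 11) (.e (nat_lit 426189) (nat_lit 9) (.e (nat_lit 426446) (nat_lit 20) (.e (nat_lit 114710) (nat_lit 21) (.e (nat_lit 57848) (nat_lit 252) .nil)))))) (.g (nat_lit 4) .nil .nil)))) (.nd (nat_lit 5) 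
(.lf (nat_lit 159376) (.g (nat_lit 3372) (.e (nat_lit 57435) (nat_lit 17) (.e (nat_lit 376842) (nat_lit 11) (.e (nat_lit 426188) (nat_lit 9) (.e (nat_lit 426448) (nat_lit 20) (.e (nat_lit 114712) (nat_lit 21) (.e (nat_lit 57852) (nat_lit 252) .nil)))))) (.g (nat_lit 0) .nil .nil))) 
(.lf (nat_lit 159408) (.g (nat_lit 3247) (.e (nat_lit 57435) (nat_lit 17) (.e (nat_lit 376842) (nat_lit 11) (.e (nat_lit 426189) (nat_lit 9) (.e (nat_lit 426448) (nat_lit 20) (.e (nat_lit 114711) (nat_lit 21) (.e (nat_lit 57848) (nat_lit 252) .nil)))))) (.g (nat_lit 5) .nil .nil))))) (.nd (nat_lit 4) (.nd (nat_lit 5) 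
(.lf (nat_lit 159368) (.g (nat_lit 3919) (.e (nat_lit 57435) (nat_lit 17) (.e (nat_lit 376842) (nat_lit 11) (.e (nat_lit 426188) (nat_lit 9) (.e (nat_lit 426448) (nat_lit 20) (.e (nat_lit 114710) (nat_lit 21) (.e (nat_lit 57852) (nat_lit 252) .nil)))))) (.g (nat_lit 0) .nil .nil))) 
(.lf (nat_lit 159400) (.g (nat_lit 3702) (.e (nat_lit 57435) (nat_lit 17) (.e (nat_lit 376842) (nat_lit 11) (.e (nat_lit 426189) (nat_lit 9) (.e (nat_lit 426448) (nat_lit 20) (.e (nat_lit 114710) (nat_lit 21) (.e (nat_lit 57847) (nat_lit 252) .nil)))))) (.g (nat_lit 0) .nil .nil)))) (.nd (nat_lit 5) 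
(.lf (nat_lit 159384) (.g (nat_lit 3255) (.e (nat_lit 57435) (nat_lit 17) (.e (nat_lit 376842) (nat_lit 11) (.e (nat_lit 426188) (nat_lit 9) (.e (nat_lit 426449) (nat_lit 20) (.e (nat_lit 114711) (nat_lit 21) (.e (nat_lit 57847) (nat_lit 252) .nil)))))) (.g (nat_lit 5) .nil .nil))) 
(.lf (nat_lit 159416) (.g (nat_lit 3126) (.e (nat_lit 57435) (nat_lit 17) (.e (nat_lit 376842) (nat_lit 11) (.e (nat_lit 426190) (nat_lit 9) (.e (nat_lit 426446) (nat_lit 20) (.e (nat_lit 114710) (nat_lit 21) (.e (nat_lit 57853) (nat_lit 252) .nil)))))) (.g (nat_lit 6) .nil .nil)))))) (.nd (nat_lit 3) (.nd (nat_lit 4) (.nd (nat_lit 5) 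
(.lf (nat_lit 159364) (.g (nat_lit 3130) (.e (nat_lit 57435) (nat_lit 17) (.e (nat_lit 376842) (nat_lit 11) (.e (nat_lit 426188) (nat_lit 9) (.e (nat_lit 426446) (nat_lit 20) (.e (nat_lit 114712) (nat_lit 21) (.e (nat_lit 57852) (nat_lit 252) .nil)))))) (.g (nat_lit 0) .nil .nil))) 
(.lf (nat_lit 159396) (.g (nat_lit 2696) (.e (nat_lit 57435) (nat_lit 17) (.e (nat_lit 376842) (nat_lit 11) (.e (nat_lit 426189) (nat_lit 9) (.e (nat_lit 426446) (nat_lit 20) (.e (nat_lit 114710) (nat_lit 21) (.e (nat_lit 57854) (nat_lit 252) .nil)))))) (.g (nat_lit 5) .nil .nil)))) (.nd (nat_lit 5) 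
(.lf (nat_lit 159380) (.g (nat_lit 2809) (.e (nat_lit 57435) (nat_lit 17) (.e (nat_lit 376842) (nat_lit 11) (.e (nat_lit 426188) (nat_lit 9) (.e (nat_lit 426449) (nat_lit 20) (.e (nat_lit 114710) (nat_lit 21) (.e (nat_lit 57852) (nat_lit 252) .nil)))))) (.g (nat_lit 5) .nil .nil))) 
(.lf (nat_lit 159412) (.g (nat_lit 2619) (.e (nat_lit 57435) (nat_lit 17) (.e (nat_lit 376842) (nat_lit 11) (.e (nat_lit 426190) (nat_lit 9) (.e (nat_lit 426446) (nat_lit 20) (.e (nat_lit 114710) (nat_lit 21) (.e (nat_lit 57848) (nat_lit 252) .nil)))))) (.g (nat_lit 6) .nil .nil))))) (.nd (nat_lit 4) (.nd (nat_lit 5) 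
(.lf (nat_lit 159372) (.g (nat_lit 3451) (.e (nat_lit 57435) (nat_lit 17) (.e (nat_lit 376842) (nat_lit 11) (.e (nat_lit 426188) (nat_lit 9) (.e (nat_lit 426448) (nat_lit 20) (.e (nat_lit 114711) (nat_lit 21) (.e (nat_lit 57848) (nat_lit 252) .nil)))))) (.g (nat_lit 6) .nil .nil))) 
(.lf (nat_lit 159404) (.g (nat_lit 3769) (.e (nat_lit 57435) (nat_lit 17) (.e (nat_lit 376842) (nat_lit 11) (.e (nat_lit 426189) (nat_lit 9) (.e (nat_lit 426448) (nat_lit 20) (.e (nat_lit 114710) (nat_lit 21) (.e (nat_lit 57853) (nat_lit 252) .nil)))))) (.g (nat_lit 0) .nil .nil)))) (.nd (nat_lit 5) 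
(.lf (nat_lit 159388) (.g (nat_lit 2842) (.e (nat_lit 57435) (nat_lit 17) (.e (nat_lit 376842) (nat_lit 11) (.e (nat_lit 426188) (nat_lit 9) (.e (nat_lit 426449) (nat_lit 20) (.e (nat_lit 114712) (nat_lit 21) (.e (nat_lit 57853) (nat_lit 252) .nil)))))) (.g (nat_lit 5) .nil .nil))) 
(.lf (nat_lit 159420) (.g (nat_lit 2957) (.e (nat_lit 57435) (nat_lit 17) (.e (nat_lit 376842) (nat_lit 11) (.e (nat_lit 426190) (nat_lit 9) (.e (nat_lit 426446) (nat_lit 20) (.e (nat_lit 114711) (nat_lit 21) (.e (nat_lit 57848) (nat_lit 252) .nil)))))) (.g (nat_lit 0) .nil .nil))))))) (.nd (nat_lit 2) (.nd (nat_lit 3) (.nd (nat_lit 4) (.nd (nat_lit 5) 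
(.lf (nat_lit 159362) (.g (nat_lit 3624) (.e (nat_lit 57435) (nat_lit 17) (.e (nat_lit 376842) (nat_lit 11) (.e (nat_lit 426188) (nat_lit 9) (.e (nat_lit 426446) (nat_lit 20) (.e (nat_lit 114711) (nat_lit 21) (.e (nat_lit 57846) (nat_lit 252) .nil)))))) (.g (nat_lit 0) .nil .nil))) 
(.lf (nat_lit 159394) (.g (nat_lit 2314) (.e (nat_lit 57435) (nat_lit 17) (.e (nat_lit 376842) (nat_lit 11) (.e (nat_lit 426189) (nat_lit 9) (.e (nat_lit 426446) (nat_lit 20) (.e (nat_lit 114710) (nat_lit 21) (.e (nat_lit 57851) (nat_lit 252) .nil)))))) (.g (nat_lit 4) .nil .nil)))) (.nd (nat_lit 5) 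
(.lf (nat_lit 159378) (.g (nat_lit 3338) (.e (nat_lit 57435) (nat_lit 17) (.e (nat_lit 376842) (nat_lit 11) (.e (nat_lit 426188) (nat_lit 9) (.e (nat_lit 426448) (nat_lit 20) (.e (nat_lit 114712) (nat_lit 21) (.e (nat_lit 57854) (nat_lit 252) .nil)))))) (.g (nat_lit 0) .nil .nil))) 
(.lf (nat_lit 159410) (.g (nat_lit 3222) (.e (nat_lit 57435) (nat_lit 17) (.e (nat_lit 376842) (nat_lit 11) (.e (nat_lit 426189) (nat_lit 9) (.e (nat_lit 426448) (nat_lit 20) (.e (nat_lit 114712) (nat_lit 21) (.e (nat_lit 57854) (nat_lit 252) .nil)))))) (.g (nat_lit 0) .nil .nil))))) (.nd (nat_lit 4) (.nd (nat_lit 5) 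
(.lf (nat_lit 159370) (.g (nat_lit 3831) (.e (nat_lit 57435) (nat_lit 17) (.e (nat_lit 376842) (nat_lit 11) (.e (nat_lit 426188) (nat_lit 9) (.e (nat_lit 426448) (nat_lit 20) (.e (nat_lit 114710) (nat_lit 21) (.e (nat_lit 57854) (nat_lit 252) .nil)))))) (.g (nat_lit 0) .nil .nil))) 
(.lf (nat_lit 159402) (.g (nat_lit 3471) (.e (nat_lit 57435) (nat_lit 17) (.e (nat_lit 376842) (nat_lit 11) (.e (nat_lit 426189) (nat_lit 9) (.e (nat_lit 426448) (nat_lit 20) (.e (nat_lit 114710) (nat_lit 21) (.e (nat_lit 57851) (nat_lit 252) .nil)))))) (.g (nat_lit 0) .nil .nil)))) (.nd (nat_lit 5) 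
(.lf (nat_lit 159386) (.g (nat_lit 2154) (.e (nat_lit 57435) (nat_lit 17) (.e (nat_lit 376842) (nat_lit 11) (.e (nat_lit 426188) (nat_lit 9) (.e (nat_lit 426449) (nat_lit 20) (.e (nat_lit 114712) (nat_lit 21) (.e (nat_lit 57851) (nat_lit 252) .nil)))))) (.g (nat_lit 4) .nil .nil))) 
(.lf (nat_lit 159418) (.g (nat_lit 2780) (.e (nat_lit 57435) (nat_lit 17) (.e (nat_lit 376842) (nat_lit 11) (.e (nat_lit 426190) (nat_lit 9) (.e (nat_lit 426446) (nat_lit 20) (.e (nat_lit 114711) (nat_lit 21) (.e (nat_lit 57844) (nat_lit 252) .nil)))))) (.g (nat_lit 6) .nil .nil)))))) (.nd (nat_lit 3) (.nd (nat_lit 4) (.nd (nat_lit 5) 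
(.lf (nat_lit 159366) (.g (nat_lit 2999) (.e (nat_lit 57435) (nat_lit 17) (.e (nat_lit 376842) (nat_lit 11) (.e (nat_lit 426188) (nat_lit 9) (.e (nat_lit 426446) (nat_lit 20) (.e (nat_lit 114712) (nat_lit 21) (.e (nat_lit 57854) (nat_lit 252) .nil)))))) (.g (nat_lit 0) .nil .nil))) 
(.lf (nat_lit 159398) (.g (nat_lit 2752) (.e (nat_lit 57435) (nat_lit 17) (.e (nat_lit 376842) (nat_lit 11) (.e (nat_lit 426189) (nat_lit 9) (.e (nat_lit 426448) (nat_lit 20) (.e (nat_lit 114710) (nat_lit 21) (.e (nat_lit 57844) (nat_lit 252) .nil)))))) (.g (nat_lit 5) .nil .nil)))) (.nd (nat_lit 5) 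
(.lf (nat_lit 159382) (.g (nat_lit 2464) (.e (nat_lit 57435) (nat_lit 17) (.e (nat_lit 376842) (nat_lit 11) (.e (nat_lit 426188) (nat_lit 9) (.e (nat_lit 426449) (nat_lit 20) (.e (nat_lit 114710) (nat_lit 21) (.e (nat_lit 57854) (nat_lit 252) .nil)))))) (.g (nat_lit 4) .nil .nil))) 
(.lf (nat_lit 159414) (.g (nat_lit 2677) (.e (nat_lit 57435) (nat_lit 17) (.e (nat_lit 376842) (nat_lit 11) (.e (nat_lit 426190) (nat_lit 9) (.e (nat_lit 426446) (nat_lit 20) (.e (nat_lit 114710) (nat_lit 21) (.e (nat_lit 57851) (nat_lit 252) .nil)))))) (.g (nat_lit 6) .nil .nil))))) (.nd (nat_lit 4) (.nd (nat_lit 5) 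
(.lf (nat_lit 159374) (.g (nat_lit 3476) (.e (nat_lit 57435) (nat_lit 17) (.e (nat_lit 376842) (nat_lit 11) (.e (nat_lit 426188) (nat_lit 9) (.e (nat_lit 426448) (nat_lit 20) (.e (nat_lit 114711) (nat_lit 21) (.e (nat_lit 57854) (nat_lit 252) .nil)))))) (.g (nat_lit 6) .nil .nil))) 
(.lf (nat_lit 159406) (.g (nat_lit 3266) (.e (nat_lit 57435) (nat_lit 17) (.e (nat_lit 376842) (nat_lit 11) (.e (nat_lit 426189) (nat_lit 9) (.e (nat_lit 426448) (nat_lit 20) (.e (nat_lit 114711) (nat_lit 21) (.e (nat_lit 57844) (nat_lit 252) .nil)))))) (.g (nat_lit 5) .nil .nil)))) (.nd (nat_lit 5) 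
(.lf (nat_lit 159390) (.g (nat_lit 1847) (.e (nat_lit 57435) (nat_lit 17) (.e (nat_lit 376842) (nat_lit 11) (.e (nat_lit 426188) (nat_lit 9) (.e (nat_lit 433920) (nat_lit 20) .nil)))) .nil)) 
(.lf (nat_lit 159422) (.g (nat_lit 2072) (.e (nat_lit 57435) (nat_lit 17) (.e (nat_lit 376842) (nat_lit 11) (.e (nat_lit 426190) (nat_lit 9) (.e (nat_lit 426446) (nat_lit 20) (.e (nat_lit 114712) (nat_lit 21) (.e (nat_lit 57851) (nat_lit 252) .nil)))))) (.g (nat_lit 4) .nil .nil)))))))) (.nd (nat_lit 1) (.nd (nat_lit 2) (.nd (nat_lit 3) (.nd (nat_lit 4) (.nd (nat_lit 5) 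
(.lf (nat_lit 159361) (.g (nat_lit 3042) (.e (nat_lit 57435) (nat_lit 17) (.e (nat_lit 376842) (nat_lit 11) (.e (nat_lit 426188) (nat_lit 9) (.e (nat_lit 426446) (nat_lit 20) (.e (nat_lit 114711) (nat_lit 21) (.e (nat_lit 57844) (nat_lit 252) .nil)))))) (.g (nat_lit 6) .nil .nil))) 
(.lf (nat_lit 159393) (.g (nat_lit 2277) (.e (nat_lit 57435) (nat_lit 17) (.e (nat_lit 376842) (nat_lit 11) (.e (nat_lit 426189) (nat_lit 9) (.e (nat_lit 426446) (nat_lit 20) (.e (nat_lit 114710) (nat_lit 21) (.e (nat_lit 57849) (nat_lit 252) .nil)))))) (.g (nat_lit 4) .nil .nil)))) (.nd (nat_lit 5) 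
(.lf (nat_lit 159377) (.g (nat_lit 3225) (.e (nat_lit 57435) (nat_lit 17) (.e (nat_lit 376842) (nat_lit 11) (.e (nat_lit 426188) (nat_lit 9) (.e (nat_lit 426448) (nat_lit 20) (.e (nat_lit 114712) (nat_lit 21) (.e (nat_lit 57853) (nat_lit 252) .nil)))))) (.g (nat_lit 6) .nil .nil))) 
(.lf (nat_lit 159409) (.g (nat_lit 2171) (.e (nat_lit 57435) (nat_lit 17) (.e (nat_lit 376842) (nat_lit 11) (.e (nat_lit 426189) (nat_lit 9) (.e (nat_lit 426448) (nat_lit 20) (.e (nat_lit 114712) (nat_lit 21) (.e (nat_lit 57851) (nat_lit 252) .nil)))))) (.g (nat_lit 4) .nil .nil))))) (.nd (nat_lit 4) (.nd (nat_lit 5) 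
(.lf (nat_lit 159369) (.g (nat_lit 3927) (.e (nat_lit 57435) (nat_lit 17) (.e (nat_lit 376842) (nat_lit 11) (.e (nat_lit 426188) (nat_lit 9) (.e (nat_lit 426448) (nat_lit 20) (.e (nat_lit 114710) (nat_lit 21) (.e (nat_lit 57853) (nat_lit 252) .nil)))))) (.g (nat_lit 0) .nil .nil))) 
(.lf (nat_lit 159401) (.g (nat_lit 3427) (.e (nat_lit 57435) (nat_lit 17) (.e (nat_lit 376842) (nat_lit 11) (.e (nat_lit 426189) (nat_lit 9) (.e (nat_lit 426448) (nat_lit 20) (.e (nat_lit 114710) (nat_lit 21) (.e (nat_lit 57848) (nat_lit 252) .nil)))))) (.g (nat_lit 0) .nil .nil)))) (.nd (nat_lit 5) 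
(.lf (nat_lit 159385) (.g (nat_lit 2122) (.e (nat_lit 57435) (nat_lit 17) (.e (nat_lit 376842) (nat_lit 11) (.e (nat_lit 426188) (nat_lit 9) (.e (nat_lit 426449) (nat_lit 20) (.e (nat_lit 114711) (nat_lit 21) (.e (nat_lit 57853) (nat_lit 252) .nil)))))) (.g (nat_lit 4) .nil .nil))) 
(.lf (nat_lit 159417) (.g (nat_lit 3055) (.e (nat_lit 57435) (nat_lit 17) (.e (nat_lit 376842) (nat_lit 11) (.e (nat_lit 426190) (nat_lit 9) (.e (nat_lit 426446) (nat_lit 20) (.e (nat_lit 114710) (nat_lit 21) (.e (nat_lit 57854) (nat_lit 252) .nil)))))) (.g (nat_lit 6) .nil .nil)))))) (.nd (nat_lit 3) (.nd (nat_lit 4) (.nd (nat_lit 5) 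
(.lf (nat_lit 159365) (.g (nat_lit 3105) (.e (nat_lit 57435) (nat_lit 17) (.e (nat_lit 376842) (nat_lit 11) (.e (nat_lit 426188) (nat_lit 9) (.e (nat_lit 426446) (nat_lit 20) (.e (nat_lit 114712) (nat_lit 21) (.e (nat_lit 57853) (nat_lit 252) .nil)))))) (.g (nat_lit 0) .nil .nil))) 
(.lf (nat_lit 159397) (.g (nat_lit 2689) (.e (nat_lit 57435) (nat_lit 17) (.e (nat_lit 376842) (nat_lit 11) (.e (nat_lit 426189) (nat_lit 9) (.e (nat_lit 426446) (nat_lit 20) (.e (nat_lit 114711) (nat_lit 21) (.e (nat_lit 57848) (nat_lit 252) .nil)))))) (.g (nat_lit 5) .nil .nil)))) (.nd (nat_lit 5) 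
(.lf (nat_lit 159381) (.g (nat_lit 2503) (.e (nat_lit 57435) (nat_lit 17) (.e (nat_lit 376842) (nat_lit 11) (.e (nat_lit 426188) (nat_lit 9) (.e (nat_lit 426449) (nat_lit 20) (.e (nat_lit 114710) (nat_lit 21) (.e (nat_lit 57853) (nat_lit 252) .nil)))))) (.g (nat_lit 4) .nil .nil))) 
(.lf (nat_lit 159413) (.g (nat_lit 2646) (.e (nat_lit 57435) (nat_lit 17) (.e (nat_lit 376842) (nat_lit 11) (.e (nat_lit 426190) (nat_lit 9) (.e (nat_lit 426446) (nat_lit 20) (.e (nat_lit 114710) (nat_lit 21) (.e (nat_lit 57849) (nat_lit 252) .nil)))))) (.g (nat_lit 6) .nil .nil))))) (.nd (nat_lit 4) (.nd (nat_lit 5) 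
(.lf (nat_lit 159373) (.g (nat_lit 3589) (.e (nat_lit 57435) (nat_lit 17) (.e (nat_lit 376842) (nat_lit 11) (.e (nat_lit 426188) (nat_lit 9) (.e (nat_lit 426448) (nat_lit 20) (.e (nat_lit 114711) (nat_lit 21) (.e (nat_lit 57853) (nat_lit 252) .nil)))))) (.g (nat_lit 0) .nil .nil))) 
(.lf (nat_lit 159405) (.g (nat_lit 3667) (.e (nat_lit 57435) (nat_lit 17) (.e (nat_lit 376842) (nat_lit 11) (.e (nat_lit 426189) (nat_lit 9) (.e (nat_lit 426448) (nat_lit 20) (.e (nat_lit 114710) (nat_lit 21) (.e (nat_lit 57854) (nat_lit 252) .nil)))))) (.g (nat_lit 0) .nil .nil)))) (.nd (nat_lit 5) 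
(.lf (nat_lit 159389) (.g (nat_lit 2720) (.e (nat_lit 57435) (nat_lit 17) (.e (nat_lit 376842) (nat_lit 11) (.e (nat_lit 426188) (nat_lit 9) (.e (nat_lit 426449) (nat_lit 20) (.e (nat_lit 114712) (nat_lit 21) (.e (nat_lit 57854) (nat_lit 252) .nil)))))) (.g (nat_lit 5) .nil .nil))) 
(.lf (nat_lit 159421) (.g (nat_lit 2865) (.e (nat_lit 57435) (nat_lit 17) (.e (nat_lit 376842) (nat_lit 11) (.e (nat_lit 426190) (nat_lit 9) (.e (nat_lit 426446) (nat_lit 20) (.e (nat_lit 114711) (nat_lit 21) (.e (nat_lit 57849) (nat_lit 252) .nil)))))) (.g (nat_lit 6) .nil .nil))))))) (.nd (nat_lit 2) (.nd (nat_lit 3) (.nd (nat_lit 4) (.nd (nat_lit 5) 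
(.lf (nat_lit 159363) (.g (nat_lit 2208) (.e (nat_lit 57435) (nat_lit 17) (.e (nat_lit 376842) (nat_lit 11) (.e (nat_lit 426188) (nat_lit 9) (.e (nat_lit 426446) (nat_lit 20) (.e (nat_lit 114712) (nat_lit 21) (.e (nat_lit 57851) (nat_lit 252) .nil)))))) (.g (nat_lit 4) .nil .nil))) 
(.lf (nat_lit 159395) (.g (nat_lit 2688) (.e (nat_lit 57435) (nat_lit 17) (.e (nat_lit 376842) (nat_lit 11) (.e (nat_lit 426189) (nat_lit 9) (.e (nat_lit 426446) (nat_lit 20) (.e (nat_lit 114710) (nat_lit 21) (.e (nat_lit 57853) (nat_lit 252) .nil)))))) (.g (nat_lit 5) .nil .nil)))) (.nd (nat_lit 5) 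
(.lf (nat_lit 159379) (.g (nat_lit 2197) (.e (nat_lit 57435) (nat_lit 17) (.e (nat_lit 376842) (nat_lit 11) (.e (nat_lit 426188) (nat_lit 9) (.e (nat_lit 426449) (nat_lit 20) (.e (nat_lit 114710) (nat_lit 21) (.e (nat_lit 57846) (nat_lit 252) .nil)))))) (.g (nat_lit 4) .nil .nil))) 
(.lf (nat_lit 159411) (.g (nat_lit 2122) (.e (nat_lit 57435) (nat_lit 17) (.e (nat_lit 376842) (nat_lit 11) (.e (nat_lit 426190) (nat_lit 9) (.e (nat_lit 426446) (nat_lit 20) (.e (nat_lit 114710) (nat_lit 21) (.e (nat_lit 57844) (nat_lit 252) .nil)))))) (.g (nat_lit 4) .nil .nil))))) (.nd (nat_lit 4) (.nd (nat_lit 5) 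
(.lf (nat_lit 159371) (.g (nat_lit 3531) (.e (nat_lit 57435) (nat_lit 17) (.e (nat_lit 376842) (nat_lit 11) (.e (nat_lit 426188) (nat_lit 9) (.e (nat_lit 426448) (nat_lit 20) (.e (nat_lit 114711) (nat_lit 21) (.e (nat_lit 57844) (nat_lit 252) .nil)))))) (.g (nat_lit 6) .nil .nil))) 
(.lf (nat_lit 159403) (.g (nat_lit 3750) (.e (nat_lit 57435) (nat_lit 17) (.e (nat_lit 376842) (nat_lit 11) (.e (nat_lit 426189) (nat_lit 9) (.e (nat_lit 426448) (nat_lit 20) (.e (nat_lit 114710) (nat_lit 21) (.e (nat_lit 57852) (nat_lit 252) .nil)))))) (.g (nat_lit 0) .nil .nil)))) (.nd (nat_lit 5) 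
(.lf (nat_lit 159387) (.g (nat_lit 3072) (.e (nat_lit 57435) (nat_lit 17) (.e (nat_lit 376842) (nat_lit 11) (.e (nat_lit 426188) (nat_lit 9) (.e (nat_lit 426449) (nat_lit 20) (.e (nat_lit 114712) (nat_lit 21) (.e (nat_lit 57852) (nat_lit 252) .nil)))))) (.g (nat_lit 6) .nil .nil))) 
(.lf (nat_lit 159419) (.g (nat_lit 3404) (.e (nat_lit 57435) (nat_lit 17) (.e (nat_lit 376842) (nat_lit 11) (.e (nat_lit 426190) (nat_lit 9) (.e (nat_lit 426446) (nat_lit 20) (.e (nat_lit 114711) (nat_lit 21) (.e (nat_lit 57846) (nat_lit 252) .nil)))))) (.g (nat_lit 0) .nil .nil)))))) (.nd (nat_lit 3) (.nd (nat_lit 4) (.nd (nat_lit 5) 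
(.lf (nat_lit 159367) (.g (nat_lit 2921) (.e (nat_lit 57435) (nat_lit 17) (.e (nat_lit 376842) (nat_lit 11) (.e (nat_lit 426188) (nat_lit 9) (.e (nat_lit 426448) (nat_lit 20) (.e (nat_lit 114710) (nat_lit 21) (.e (nat_lit 57844) (nat_lit 252) .nil)))))) (.g (nat_lit 5) .nil .nil))) 
(.lf (nat_lit 159399) (.g (nat_lit 3857) (.e (nat_lit 57435) (nat_lit 17) (.e (nat_lit 376842) (nat_lit 11) (.e (nat_lit 426189) (nat_lit 9) (.e (nat_lit 426448) (nat_lit 20) (.e (nat_lit 114710) (nat_lit 21) (.e (nat_lit 57846) (nat_lit 252) .nil)))))) (.g (nat_lit 0) .nil .nil)))) (.nd (nat_lit 5) 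
(.lf (nat_lit 159383) (.g (nat_lit 1928) (.e (nat_lit 57435) (nat_lit 17) (.e (nat_lit 376842) (nat_lit 11) (.e (nat_lit 426188) (nat_lit 9) (.e (nat_lit 426449) (nat_lit 20) (.e (nat_lit 114711) (nat_lit 21) .nil))))) .nil)) 
(.lf (nat_lit 159415) (.g (nat_lit 3269) (.e (nat_lit 57435) (nat_lit 17) (.e (nat_lit 376842) (nat_lit 11) (.e (nat_lit 426190) (nat_lit 9) (.e (nat_lit 426446) (nat_lit 20) (.e (nat_lit 114710) (nat_lit 21) (.e (nat_lit 57852) (nat_lit 252) .nil)))))) (.g (nat_lit 0) .nil .nil))))) (.nd (nat_lit 4) (.nd (nat_lit 5) 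
(.lf (nat_lit 159375) (.g (nat_lit 2296) (.e (nat_lit 57435) (nat_lit 17) (.e (nat_lit 376842) (nat_lit 11) (.e (nat_lit 426188) (nat_lit 9) (.e (nat_lit 426448) (nat_lit 20) (.e (nat_lit 114712) (nat_lit 21) (.e (nat_lit 57851) (nat_lit 252) .nil)))))) (.g (nat_lit 4) .nil .nil))) 
(.lf (nat_lit 159407) (.g (nat_lit 3968) (.e (nat_lit 57435) (nat_lit 17) (.e (nat_lit 376842) (nat_lit 11) (.e (nat_lit 426189) (nat_lit 9) (.e (nat_lit 426448) (nat_lit 20) (.e (nat_lit 114711) (nat_lit 21) (.e (nat_lit 57847) (nat_lit 252) .nil)))))) (.g (nat_lit 0) .nil .nil)))) (.nd (nat_lit 5) 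
(.lf (nat_lit 159391) (.g (nat_lit 1855) (.e (nat_lit 57435) (nat_lit 17) (.e (nat_lit 376842) (nat_lit 11) (.e (nat_lit 426188) (nat_lit 9) (.e (nat_lit 426469) (nat_lit 24) .nil)))) .nil)) 
(.lf (nat_lit 159423) (.g (nat_lit 2995) (.e (nat_lit 57435) (nat_lit 17) (.e (nat_lit 376842) (nat_lit 11) (.e (nat_lit 426190) (nat_lit 9) (.e (nat_lit 426446) (nat_lit 20) (.e (nat_lit 114712) (nat_lit 21) (.e (nat_lit 57852) (nat_lit 252) .nil)))))) (.g (nat_lit 0) .nil .nil)))))))))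

noncomputable def tv2133 : DT := (.nd (nat_lit 0) (.nd (nat_lit 1) (.nd (nat_lit 2) (.nd (nat_lit 3) (.nd (nat_lit 4) (.nd (nat_lit 5) 
(.lf (nat_lit 159424) (.g (nat_lit 2980) (.e (nat_lit 57435) (nat_lit 17) (.e (nat_lit 376842) (nat_lit 11) (.e (nat_lit 426190) (nat_lit 9) (.e (nat_lit 426446) (nat_lit 20) (.e (nat_lit 114712) (nat_lit 21) (.e (nat_lit 57853) (nat_lit 252) .nil)))))) (.g (nat_lit 0) .nil .nil))) 
(.lf (nat_lit 159456) (.g (nat_lit 1633) (.e (nat_lit 57435) (nat_lit 17) (.e (nat_lit 376842) (nat_lit 11) (.e (nat_lit 426197) (nat_lit 9) (.e (nat_lit 426446) (nat_lit 20) (.e (nat_lit 114712) (nat_lit 21) (.e (nat_lit 57851) (nat_lit 252) .nil)))))) (.g (nat_lit 4) .nil .nil)))) (.nd (nat_lit 5) 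
(.lf (nat_lit 159440) (.g (nat_lit 2065) (.e (nat_lit 57435) (nat_lit 17) (.e (nat_lit 376842) (nat_lit 11) (.e (nat_lit 426196) (nat_lit 9) (.e (nat_lit 426446) (nat_lit 20) (.e (nat_lit 114711) (nat_lit 21) (.e (nat_lit 57848) (nat_lit 252) .nil)))))) (.g (nat_lit 4) .nil .nil))) 
(.lf (nat_lit 159472) (.g (nat_lit 3397) (.e (nat_lit 57435) (nat_lit 17) (.e (nat_lit 376842) (nat_lit 11) (.e (nat_lit 426198) (nat_lit 9) (.e (nat_lit 426446) (nat_lit 20) (.e (nat_lit 114710) (nat_lit 21) (.e (nat_lit 57847) (nat_lit 252) .nil)))))) (.g (nat_lit 0) .nil .nil))))) (.nd (nat_lit 4) (.nd (nat_lit 5) 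
(.lf (nat_lit 159432) (.g (nat_lit 3058) (.e (nat_lit 57435) (nat_lit 17) (.e (nat_lit 376842) (nat_lit 11) (.e (nat_lit 426190) (nat_lit 9) (.e (nat_lit 426448) (nat_lit 20) (.e (nat_lit 114711) (nat_lit 21) (.e (nat_lit 57848) (nat_lit 252) .nil)))))) (.g (nat_lit 6) .nil .nil))) 
(.lf (nat_lit 159464) (.g (nat_lit 1559) (.e (nat_lit 57435) (nat_lit 17) (.e (nat_lit 376842) (nat_lit 11) (.e (nat_lit 426197) (nat_lit 9) (.e (nat_lit 426448) (nat_lit 20) (.e (nat_lit 114712) (nat_lit 21) (.e (nat_lit 57851) (nat_lit 252) .nil)))))) (.g (nat_lit 4) .nil .nil)))) (.nd (nat_lit 5) 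
(.lf (nat_lit 159448) (.g (nat_lit 2163) (.e (nat_lit 57435) (nat_lit 17) (.e (nat_lit 376842) (nat_lit 11) (.e (nat_lit 426197) (nat_lit 9) (.e (nat_lit 426446) (nat_lit 20) (.e (nat_lit 114710) (nat_lit 21) (.e (nat_lit 57848) (nat_lit 252) .nil)))))) (.g (nat_lit 5) .nil .nil))) 
(.lf (nat_lit 159480) (.g (nat_lit 3171) (.e (nat_lit 57435) (nat_lit 17) (.e (nat_lit 376842) (nat_lit 11) (.e (nat_lit 426198) (nat_lit 9) (.e (nat_lit 426446) (nat_lit 20) (.e (nat_lit 114711) (nat_lit 21) (.e (nat_lit 57848) (nat_lit 252) .nil)))))) (.g (nat_lit 0) .nil .nil)))))) (.nd (nat_lit 3) (.nd (nat_lit 4) (.nd (nat_lit 5) 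
(.lf (nat_lit 159428) (.g (nat_lit 3496) (.e (nat_lit 57435) (nat_lit 17) (.e (nat_lit 376842) (nat_lit 11) (.e (nat_lit 426190) (nat_lit 9) (.e (nat_lit 426448) (nat_lit 20) (.e (nat_lit 114710) (nat_lit 21) (.e (nat_lit 57852) (nat_lit 252) .nil)))))) (.g (nat_lit 0) .nil .nil))) 
(.lf (nat_lit 159460) (.g (nat_lit 2912) (.e (nat_lit 57435) (nat_lit 17) (.e (nat_lit 376842) (nat_lit 11) (.e (nat_lit 426197) (nat_lit 9) (.e (nat_lit 426448) (nat_lit 20) (.e (nat_lit 114710) (nat_lit 21) (.e (nat_lit 57851) (nat_lit 252) .nil)))))) (.g (nat_lit 6) .nil .nil)))) (.nd (nat_lit 5) 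
(.lf (nat_lit 159444) (.g (nat_lit 3008) (.e (nat_lit 57435) (nat_lit 17) (.e (nat_lit 376842) (nat_lit 11) (.e (nat_lit 426196) (nat_lit 9) (.e (nat_lit 426448) (nat_lit 20) (.e (nat_lit 114711) (nat_lit 21) (.e (nat_lit 57854) (nat_lit 252) .nil)))))) (.g (nat_lit 5) .nil .nil))) 
(.lf (nat_lit 159476) (.g (nat_lit 3408) (.e (nat_lit 57435) (nat_lit 17) (.e (nat_lit 376842) (nat_lit 11) (.e (nat_lit 426198) (nat_lit 9) (.e (nat_lit 426446) (nat_lit 20) (.e (nat_lit 114710) (nat_lit 21) (.e (nat_lit 57852) (nat_lit 252) .nil)))))) (.g (nat_lit 0) .nil .nil))))) (.nd (nat_lit 4) (.nd (nat_lit 5) 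
(.lf (nat_lit 159436) (.g (nat_lit 3012) (.e (nat_lit 57435) (nat_lit 17) (.e (nat_lit 376842) (nat_lit 11) (.e (nat_lit 426190) (nat_lit 9) (.e (nat_lit 426448) (nat_lit 20) (.e (nat_lit 114712) (nat_lit 21) (.e (nat_lit 57852) (nat_lit 252) .nil)))))) (.g (nat_lit 0) .nil .nil))) 
(.lf (nat_lit 159468) (.g (nat_lit 442) (.e (nat_lit 57435) (nat_lit 17) (.e (nat_lit 376842) (nat_lit 11) (.e (nat_lit 426198) (nat_lit 9) .nil))) .nil))) (.nd (nat_lit 5) 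
(.lf (nat_lit 159452) (.g (nat_lit 2623) (.e (nat_lit 57435) (nat_lit 17) (.e (nat_lit 376842) (nat_lit 11) (.e (nat_lit 426197) (nat_lit 9) (.e (nat_lit 426446) (nat_lit 20) (.e (nat_lit 114710) (nat_lit 21) (.e (nat_lit 57854) (nat_lit 252) .nil)))))) (.g (nat_lit 6) .nil .nil))) 
(.lf (nat_lit 159484) (.g (nat_lit 3186) (.e (nat_lit 57435) (nat_lit 17) (.e (nat_lit 376842) (nat_lit 11) (.e (nat_lit 426198) (nat_lit 9) (.e (nat_lit 426446) (nat_lit 20) (.e (nat_lit 114712) (nat_lit 21) (.e (nat_lit 57852) (nat_lit 252) .nil)))))) (.g (nat_lit 0) .nil .nil))))))) (.nd (nat_lit 2) (.nd (nat_lit 3) (.nd (nat_lit 4) (.nd (nat_lit 5) 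
(.lf (nat_lit 159426) (.g (nat_lit 3160) (.e (nat_lit 57435) (nat_lit 17) (.e (nat_lit 376842) (nat_lit 11) (.e (nat_lit 426190) (nat_lit 9) (.e (nat_lit 426448) (nat_lit 20) (.e (nat_lit 114710) (nat_lit 21) (.e (nat_lit 57848) (nat_lit 252) .nil)))))) (.g (nat_lit 0) .nil .nil))) 
(.lf (nat_lit 159458) (.g (nat_lit 2436) (.e (nat_lit 57435) (nat_lit 17) (.e (nat_lit 376842) (nat_lit 11) (.e (nat_lit 426197) (nat_lit 9) (.e (nat_lit 426446) (nat_lit 20) (.e (nat_lit 114712) (nat_lit 21) (.e (nat_lit 57854) (nat_lit 252) .nil)))))) (.g (nat_lit 6) .nil .nil)))) (.nd (nat_lit 5) 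
(.lf (nat_lit 159442) (.g (nat_lit 3121) (.e (nat_lit 57435) (nat_lit 17) (.e (nat_lit 376842) (nat_lit 11) (.e (nat_lit 426196) (nat_lit 9) (.e (nat_lit 426448) (nat_lit 20) (.e (nat_lit 114711) (nat_lit 21) (.e (nat_lit 57844) (nat_lit 252) .nil)))))) (.g (nat_lit 5) .nil .nil))) 
(.lf (nat_lit 159474) (.g (nat_lit 2781) (.e (nat_lit 57435) (nat_lit 17) (.e (nat_lit 376842) (nat_lit 11) (.e (nat_lit 426198) (nat_lit 9) (.e (nat_lit 426446) (nat_lit 20) (.e (nat_lit 114710) (nat_lit 21) (.e (nat_lit 57849) (nat_lit 252) .nil)))))) (.g (nat_lit 5) .nil .nil))))) (.nd (nat_lit 4) (.nd (nat_lit 5) 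
(.lf (nat_lit 159434) (.g (nat_lit 3184) (.e (nat_lit 57435) (nat_lit 17) (.e (nat_lit 376842) (nat_lit 11) (.e (nat_lit 426190) (nat_lit 9) (.e (nat_lit 426448) (nat_lit 20) (.e (nat_lit 114711) (nat_lit 21) (.e (nat_lit 57853) (nat_lit 252) .nil)))))) (.g (nat_lit 6) .nil .nil))) 
(.lf (nat_lit 159466) (.g (nat_lit 2612) (.e (nat_lit 57435) (nat_lit 17) (.e (nat_lit 376842) (nat_lit 11) (.e (nat_lit 426197) (nat_lit 9) (.e (nat_lit 426448) (nat_lit 20) (.e (nat_lit 114712) (nat_lit 21) (.e (nat_lit 57854) (nat_lit 252) .nil)))))) (.g (nat_lit 0) .nil .nil)))) (.nd (nat_lit 5) 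
(.lf (nat_lit 159450) (.g (nat_lit 2192) (.e (nat_lit 57435) (nat_lit 17) (.e (nat_lit 376842) (nat_lit 11) (.e (nat_lit 426197) (nat_lit 9) (.e (nat_lit 426446) (nat_lit 20) (.e (nat_lit 114710) (nat_lit 21) (.e (nat_lit 57851) (nat_lit 252) .nil)))))) (.g (nat_lit 5) .nil .nil))) 
(.lf (nat_lit 159482) (.g (nat_lit 2746) (.e (nat_lit 57435) (nat_lit 17) (.e (nat_lit 376842) (nat_lit 11) (.e (nat_lit 426198) (nat_lit 9) (.e (nat_lit 426446) (nat_lit 20) (.e (nat_lit 114711) (nat_lit 21) (.e (nat_lit 57854) (nat_lit 252) .nil)))))) (.g (nat_lit 5) .nil .nil)))))) (.nd (nat_lit 3) (.nd (nat_lit 4) (.nd (nat_lit 5) 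
(.lf (nat_lit 159430) (.g (nat_lit 3404) (.e (nat_lit 57435) (nat_lit 17) (.e (nat_lit 376842) (nat_lit 11) (.e (nat_lit 426190) (nat_lit 9) (.e (nat_lit 426448) (nat_lit 20) (.e (nat_lit 114710) (nat_lit 21) (.e (nat_lit 57854) (nat_lit 252) .nil)))))) (.g (nat_lit 0) .nil .nil))) 
(.lf (nat_lit 159462) (.g (nat_lit 3071) (.e (nat_lit 57435) (nat_lit 17) (.e (nat_lit 376842) (nat_lit 11) (.e (nat_lit 426197) (nat_lit 9) (.e (nat_lit 426448) (nat_lit 20) (.e (nat_lit 114711) (nat_lit 21) (.e (nat_lit 57849) (nat_lit 252) .nil)))))) (.g (nat_lit 0) .nil .nil)))) (.nd (nat_lit 5) 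
(.lf (nat_lit 159446) (.g (nat_lit 426) (.e (nat_lit 57435) (nat_lit 17) (.e (nat_lit 376842) (nat_lit 11) (.e (nat_lit 426197) (nat_lit 9) .nil))) .nil)) 
(.lf (nat_lit 159478) (.g (nat_lit 3189) (.e (nat_lit 57435) (nat_lit 17) (.e (nat_lit 376842) (nat_lit 11) (.e (nat_lit 426198) (nat_lit 9) (.e (nat_lit 426446) (nat_lit 20) (.e (nat_lit 114710) (nat_lit 21) (.e (nat_lit 57854) (nat_lit 252) .nil)))))) (.g (nat_lit 6) .nil .nil))))) (.nd (nat_lit 4) (.nd (nat_lit 5) 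
(.lf (nat_lit 159438) (.g (nat_lit 2968) (.e (nat_lit 57435) (nat_lit 17) (.e (nat_lit 376842) (nat_lit 11) (.e (nat_lit 426190) (nat_lit 9) (.e (nat_lit 426448) (nat_lit 20) (.e (nat_lit 114712) (nat_lit 21) (.e (nat_lit 57854) (nat_lit 252) .nil)))))) (.g (nat_lit 0) .nil .nil))) 
(.lf (nat_lit 159470) (.g (nat_lit 2178) (.e (nat_lit 57435) (nat_lit 17) (.e (nat_lit 376842) (nat_lit 11) (.e (nat_lit 426198) (nat_lit 9) (.e (nat_lit 426446) (nat_lit 20) (.e (nat_lit 114710) (nat_lit 21) (.e (nat_lit 57844) (nat_lit 252) .nil)))))) (.g (nat_lit 4) .nil .nil)))) (.nd (nat_lit 5) 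
(.lf (nat_lit 159454) (.g (nat_lit 3152) (.e (nat_lit 57435) (nat_lit 17) (.e (nat_lit 376842) (nat_lit 11) (.e (nat_lit 426197) (nat_lit 9) (.e (nat_lit 426446) (nat_lit 20) (.e (nat_lit 114711) (nat_lit 21) (.e (nat_lit 57847) (nat_lit 252) .nil)))))) (.g (nat_lit 0) .nil .nil))) 
(.lf (nat_lit 159486) (.g (nat_lit 2426) (.e (nat_lit 57435) (nat_lit 17) (.e (nat_lit 376842) (nat_lit 11) (.e (nat_lit 426198) (nat_lit 9) (.e (nat_lit 426448) (nat_lit 20) (.e (nat_lit 114710) (nat_lit 21) (.e (nat_lit 57844) (nat_lit 252) .nil)))))) (.g (nat_lit 5) .nil .nil)))))))) (.nd (nat_lit 1) (.nd (nat_lit 2) (.nd (nat_lit 3) (.nd (nat_lit 4) (.nd (nat_lit 5) 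
(.lf (nat_lit 159425) (.g (nat_lit 2551) (.e (nat_lit 57435) (nat_lit 17) (.e (nat_lit 376842) (nat_lit 11) (.e (nat_lit 426190) (nat_lit 9) (.e (nat_lit 426448) (nat_lit 20) (.e (nat_lit 114710) (nat_lit 21) (.e (nat_lit 57844) (nat_lit 252) .nil)))))) (.g (nat_lit 5) .nil .nil))) 
(.lf (nat_lit 159457) (.g (nat_lit 2616) (.e (nat_lit 57435) (nat_lit 17) (.e (nat_lit 376842) (nat_lit 11) (.e (nat_lit 426197) (nat_lit 9) (.e (nat_lit 426446) (nat_lit 20) (.e (nat_lit 114712) (nat_lit 21) (.e (nat_lit 57852) (nat_lit 252) .nil)))))) (.g (nat_lit 0) .nil .nil)))) (.nd (nat_lit 5) 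
(.lf (nat_lit 159441) (.g (nat_lit 2687) (.e (nat_lit 57435) (nat_lit 17) (.e (nat_lit 376842) (nat_lit 11) (.e (nat_lit 426196) (nat_lit 9) (.e (nat_lit 426448) (nat_lit 20) (.e (nat_lit 114710) (nat_lit 21) (.e (nat_lit 57844) (nat_lit 252) .nil)))))) (.g (nat_lit 4) .nil .nil))) 
(.lf (nat_lit 159473) (.g (nat_lit 2731) (.e (nat_lit 57435) (nat_lit 17) (.e (nat_lit 376842) (nat_lit 11) (.e (nat_lit 426198) (nat_lit 9) (.e (nat_lit 426446) (nat_lit 20) (.e (nat_lit 114710) (nat_lit 21) (.e (nat_lit 57848) (nat_lit 252) .nil)))))) (.g (nat_lit 5) .nil .nil))))) (.nd (nat_lit 4) (.nd (nat_lit 5) 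
(.lf (nat_lit 159433) (.g (nat_lit 3399) (.e (nat_lit 57435) (nat_lit 17) (.e (nat_lit 376842) (nat_lit 11) (.e (nat_lit 426190) (nat_lit 9) (.e (nat_lit 426448) (nat_lit 20) (.e (nat_lit 114711) (nat_lit 21) (.e (nat_lit 57849) (nat_lit 252) .nil)))))) (.g (nat_lit 0) .nil .nil))) 
(.lf (nat_lit 159465) (.g (nat_lit 2650) (.e (nat_lit 57435) (nat_lit 17) (.e (nat_lit 376842) (nat_lit 11) (.e (nat_lit 426197) (nat_lit 9) (.e (nat_lit 426448) (nat_lit 20) (.e (nat_lit 114712) (nat_lit 21) (.e (nat_lit 57852) (nat_lit 252) .nil)))))) (.g (nat_lit 0) .nil .nil)))) (.nd (nat_lit 5) 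
(.lf (nat_lit 159449) (.g (nat_lit 2206) (.e (nat_lit 57435) (nat_lit 17) (.e (nat_lit 376842) (nat_lit 11) (.e (nat_lit 426197) (nat_lit 9) (.e (nat_lit 426446) (nat_lit 20) (.e (nat_lit 114710) (nat_lit 21) (.e (nat_lit 57849) (nat_lit 252) .nil)))))) (.g (nat_lit 5) .nil .nil))) 
(.lf (nat_lit 159481) (.g (nat_lit 3105) (.e (nat_lit 57435) (nat_lit 17) (.e (nat_lit 376842) (nat_lit 11) (.e (nat_lit 426198) (nat_lit 9) (.e (nat_lit 426446) (nat_lit 20) (.e (nat_lit 114711) (nat_lit 21) (.e (nat_lit 57849) (nat_lit 252) .nil)))))) (.g (nat_lit 6) .nil .nil)))))) (.nd (nat_lit 3) (.nd (nat_lit 4) (.nd (nat_lit 5) 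
(.lf (nat_lit 159429) (.g (nat_lit 3506) (.e (nat_lit 57435) (nat_lit 17) (.e (nat_lit 376842) (nat_lit 11) (.e (nat_lit 426190) (nat_lit 9) (.e (nat_lit 426448) (nat_lit 20) (.e (nat_lit 114710) (nat_lit 21) (.e (nat_lit 57853) (nat_lit 252) .nil)))))) (.g (nat_lit 0) .nil .nil))) 
(.lf (nat_lit 159461) (.g (nat_lit 2874) (.e (nat_lit 57435) (nat_lit 17) (.e (nat_lit 376842) (nat_lit 11) (.e (nat_lit 426197) (nat_lit 9) (.e (nat_lit 426448) (nat_lit 20) (.e (nat_lit 114711) (nat_lit 21) (.e (nat_lit 57848) (nat_lit 252) .nil)))))) (.g (nat_lit 0) .nil .nil)))) (.nd (nat_lit 5) 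
(.lf (nat_lit 159445) (.g (nat_lit 2884) (.e (nat_lit 57435) (nat_lit 17) (.e (nat_lit 376842) (nat_lit 11) (.e (nat_lit 426196) (nat_lit 9) (.e (nat_lit 426448) (nat_lit 20) (.e (nat_lit 114712) (nat_lit 21) (.e (nat_lit 57853) (nat_lit 252) .nil)))))) (.g (nat_lit 5) .nil .nil))) 
(.lf (nat_lit 159477) (.g (nat_lit 3070) (.e (nat_lit 57435) (nat_lit 17) (.e (nat_lit 376842) (nat_lit 11) (.e (nat_lit 426198) (nat_lit 9) (.e (nat_lit 426446) (nat_lit 20) (.e (nat_lit 114710) (nat_lit 21) (.e (nat_lit 57853) (nat_lit 252) .nil)))))) (.g (nat_lit 6) .nil .nil))))) (.nd (nat_lit 4) (.nd (nat_lit 5) 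
(.lf (nat_lit 159437) (.g (nat_lit 2881) (.e (nat_lit 57435) (nat_lit 17) (.e (nat_lit 376842) (nat_lit 11) (.e (nat_lit 426190) (nat_lit 9) (.e (nat_lit 426448) (nat_lit 20) (.e (nat_lit 114712) (nat_lit 21) (.e (nat_lit 57853) (nat_lit 252) .nil)))))) (.g (nat_lit 6) .nil .nil))) 
(.lf (nat_lit 159469) (.g (nat_lit 1206) (.e (nat_lit 57435) (nat_lit 17) (.e (nat_lit 376842) (nat_lit 11) (.e (nat_lit 426198) (nat_lit 9) (.e (nat_lit 426354) (nat_lit 15) .nil)))) .nil))) (.nd (nat_lit 5) 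
(.lf (nat_lit 159453) (.g (nat_lit 2371) (.e (nat_lit 57435) (nat_lit 17) (.e (nat_lit 376842) (nat_lit 11) (.e (nat_lit 426197) (nat_lit 9) (.e (nat_lit 426446) (nat_lit 20) (.e (nat_lit 114711) (nat_lit 21) (.e (nat_lit 57844) (nat_lit 252) .nil)))))) (.g (nat_lit 5) .nil .nil))) 
(.lf (nat_lit 159485) (.g (nat_lit 2980) (.e (nat_lit 57435) (nat_lit 17) (.e (nat_lit 376842) (nat_lit 11) (.e (nat_lit 426198) (nat_lit 9) (.e (nat_lit 426446) (nat_lit 20) (.e (nat_lit 114712) (nat_lit 21) (.e (nat_lit 57853) (nat_lit 252) .nil)))))) (.g (nat_lit 6) .nil .nil))))))) (.nd (nat_lit 2) (.nd (nat_lit 3) (.nd (nat_lit 4) (.nd (nat_lit 5) 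
(.lf (nat_lit 159427) (.g (nat_lit 3288) (.e (nat_lit 57435) (nat_lit 17) (.e (nat_lit 376842) (nat_lit 11) (.e (nat_lit 426190) (nat_lit 9) (.e (nat_lit 426448) (nat_lit 20) (.e (nat_lit 114710) (nat_lit 21) (.e (nat_lit 57849) (nat_lit 252) .nil)))))) (.g (nat_lit 0) .nil .nil))) 
(.lf (nat_lit 159459) (.g (nat_lit 2852) (.e (nat_lit 57435) (nat_lit 17) (.e (nat_lit 376842) (nat_lit 11) (.e (nat_lit 426197) (nat_lit 9) (.e (nat_lit 426448) (nat_lit 20) (.e (nat_lit 114710) (nat_lit 21) (.e (nat_lit 57848) (nat_lit 252) .nil)))))) (.g (nat_lit 6) .nil .nil)))) (.nd (nat_lit 5) 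
(.lf (nat_lit 159443) (.g (nat_lit 3104) (.e (nat_lit 57435) (nat_lit 17) (.e (nat_lit 376842) (nat_lit 11) (.e (nat_lit 426196) (nat_lit 9) (.e (nat_lit 426448) (nat_lit 20) (.e (nat_lit 114711) (nat_lit 21) (.e (nat_lit 57848) (nat_lit 252) .nil)))))) (.g (nat_lit 5) .nil .nil))) 
(.lf (nat_lit 159475) (.g (nat_lit 2740) (.e (nat_lit 57435) (nat_lit 17) (.e (nat_lit 376842) (nat_lit 11) (.e (nat_lit 426198) (nat_lit 9) (.e (nat_lit 426446) (nat_lit 20) (.e (nat_lit 114710) (nat_lit 21) (.e (nat_lit 57851) (nat_lit 252) .nil)))))) (.g (nat_lit 5) .nil .nil))))) (.nd (nat_lit 4) (.nd (nat_lit 5) 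
(.lf (nat_lit 159435) (.g (nat_lit 1926) (.e (nat_lit 57435) (nat_lit 17) (.e (nat_lit 376842) (nat_lit 11) (.e (nat_lit 426190) (nat_lit 9) (.e (nat_lit 426448) (nat_lit 20) (.e (nat_lit 114712) (nat_lit 21) (.e (nat_lit 57851) (nat_lit 252) .nil)))))) (.g (nat_lit 4) .nil .nil))) 
(.lf (nat_lit 159467) (.g (nat_lit 1432) (.e (nat_lit 57435) (nat_lit 17) (.e (nat_lit 376842) (nat_lit 11) (.e (nat_lit 426197) (nat_lit 9) (.e (nat_lit 426449) (nat_lit 20) (.e (nat_lit 114712) (nat_lit 21) (.e (nat_lit 57852) (nat_lit 252) .nil)))))) (.g (nat_lit 4) .nil .nil)))) (.nd (nat_lit 5) 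
(.lf (nat_lit 159451) (.g (nat_lit 2871) (.e (nat_lit 57435) (nat_lit 17) (.e (nat_lit 376842) (nat_lit 11) (.e (nat_lit 426197) (nat_lit 9) (.e (nat_lit 426446) (nat_lit 20) (.e (nat_lit 114710) (nat_lit 21) (.e (nat_lit 57852) (nat_lit 252) .nil)))))) (.g (nat_lit 0) .nil .nil))) 
(.lf (nat_lit 159483) (.g (nat_lit 2179) (.e (nat_lit 57435) (nat_lit 17) (.e (nat_lit 376842) (nat_lit 11) (.e (nat_lit 426198) (nat_lit 9) (.e (nat_lit 426446) (nat_lit 20) (.e (nat_lit 114712) (nat_lit 21) (.e (nat_lit 57851) (nat_lit 252) .nil)))))) (.g (nat_lit 4) .nil .nil)))))) (.nd (nat_lit 3) (.nd (nat_lit 4) (.nd (nat_lit 5) 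
(.lf (nat_lit 159431) (.g (nat_lit 3114) (.e (nat_lit 57435) (nat_lit 17) (.e (nat_lit 376842) (nat_lit 11) (.e (nat_lit 426190) (nat_lit 9) (.e (nat_lit 426448) (nat_lit 20) (.e (nat_lit 114711) (nat_lit 21) (.e (nat_lit 57844) (nat_lit 252) .nil)))))) (.g (nat_lit 5) .nil .nil))) 
(.lf (nat_lit 159463) (.g (nat_lit 2841) (.e (nat_lit 57435) (nat_lit 17) (.e (nat_lit 376842) (nat_lit 11) (.e (nat_lit 426197) (nat_lit 9) (.e (nat_lit 426448) (nat_lit 20) (.e (nat_lit 114711) (nat_lit 21) (.e (nat_lit 57853) (nat_lit 252) .nil)))))) (.g (nat_lit 0) .nil .nil)))) (.nd (nat_lit 5) 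
(.lf (nat_lit 159447) (.g (nat_lit 2838) (.e (nat_lit 57435) (nat_lit 17) (.e (nat_lit 376842) (nat_lit 11) (.e (nat_lit 426197) (nat_lit 9) (.e (nat_lit 426446) (nat_lit 20) (.e (nat_lit 114710) (nat_lit 21) (.e (nat_lit 57847) (nat_lit 252) .nil)))))) (.g (nat_lit 0) .nil .nil))) 
(.lf (nat_lit 159479) (.g (nat_lit 2926) (.e (nat_lit 57435) (nat_lit 17) (.e (nat_lit 376842) (nat_lit 11) (.e (nat_lit 426198) (nat_lit 9) (.e (nat_lit 426446) (nat_lit 20) (.e (nat_lit 114711) (nat_lit 21) (.e (nat_lit 57844) (nat_lit 252) .nil)))))) (.g (nat_lit 5) .nil .nil))))) (.nd (nat_lit 4) (.nd (nat_lit 5) 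
(.lf (nat_lit 159439) (.g (nat_lit 795) (.e (nat_lit 57435) (nat_lit 17) (.e (nat_lit 376842) (nat_lit 11) (.e (nat_lit 426196) (nat_lit 9) .nil))) .nil)) 
(.lf (nat_lit 159471) (.g (nat_lit 3081) (.e (nat_lit 57435) (nat_lit 17) (.e (nat_lit 376842) (nat_lit 11) (.e (nat_lit 426198) (nat_lit 9) (.e (nat_lit 426446) (nat_lit 20) (.e (nat_lit 114710) (nat_lit 21) (.e (nat_lit 57846) (nat_lit 252) .nil)))))) (.g (nat_lit 5) .nil .nil)))) (.nd (nat_lit 5) 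
(.lf (nat_lit 159455) (.g (nat_lit 2580) (.e (nat_lit 57435) (nat_lit 17) (.e (nat_lit 376842) (nat_lit 11) (.e (nat_lit 426197) (nat_lit 9) (.e (nat_lit 426446) (nat_lit 20) (.e (nat_lit 114711) (nat_lit 21) (.e (nat_lit 57848) (nat_lit 252) .nil)))))) (.g (nat_lit 6) .nil .nil))) 
(.lf (nat_lit 159487) (.g (nat_lit 3113) (.e (nat_lit 57435) (nat_lit 17) (.e (nat_lit 376842) (nat_lit 11) (.e (nat_lit 426198) (nat_lit 9) (.e (nat_lit 426448) (nat_lit 20) (.e (nat_lit 114710) (nat_lit 21) (.e (nat_lit 57848) (nat_lit 252) .nil)))))) (.g (nat_lit 0) .nil .nil)))))))))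

noncomputable def tv2134 : DT := (.nd (nat_lit 0) (.nd (nat_lit 1) (.nd (nat_lit 2) (.nd (nat_lit 3) (.nd (nat_lit 4) (.nd (nat_lit 5) 
(.lf (nat_lit 159488) (.g (nat_lit 3240) (.e (nat_lit 57435) (nat_lit 17) (.e (nat_lit 376842) (nat_lit 11) (.e (nat_lit 426198) (nat_lit 9) (.e (nat_lit 426448) (nat_lit 20) (.e (nat_lit 114710) (nat_lit 21) (.e (nat_lit 57849) (nat_lit 252) .nil)))))) (.g (nat_lit 0) .nil .nil))) 
(.lf (nat_lit 159520) (.g (nat_lit 3754) (.e (nat_lit 57435) (nat_lit 17) (.e (nat_lit 376842) (nat_lit 11) (.e (nat_lit 426199) (nat_lit 9) (.e (nat_lit 426448) (nat_lit 20) (.e (nat_lit 114710) (nat_lit 21) (.e (nat_lit 57852) (nat_lit 252) .nil)))))) (.g (nat_lit 6) .nil .nil)))) (.nd (nat_lit 5) 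
(.lf (nat_lit 159504) (.g (nat_lit 1971) (.e (nat_lit 57435) (nat_lit 17) (.e (nat_lit 376842) (nat_lit 11) (.e (nat_lit 426198) (nat_lit 9) (.e (nat_lit 426449) (nat_lit 20) (.e (nat_lit 114712) (nat_lit 21) (.e (nat_lit 57853) (nat_lit 252) .nil)))))) (.g (nat_lit 4) .nil .nil))) 
(.lf (nat_lit 159536) (.g (nat_lit 1429) (.e (nat_lit 57435) (nat_lit 17) (.e (nat_lit 376842) (nat_lit 11) (.e (nat_lit 426200) (nat_lit 9) (.e (nat_lit 426354) (nat_lit 15) (.e (nat_lit 2198) (nat_lit 144) .nil))))) .nil)))) (.nd (nat_lit 4) (.nd (nat_lit 5) 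
(.lf (nat_lit 159496) (.g (nat_lit 1834) (.e (nat_lit 57435) (nat_lit 17) (.e (nat_lit 376842) (nat_lit 11) (.e (nat_lit 426198) (nat_lit 9) (.e (nat_lit 426448) (nat_lit 20) (.e (nat_lit 114712) (nat_lit 21) (.e (nat_lit 57851) (nat_lit 252) .nil)))))) (.g (nat_lit 4) .nil .nil))) 
(.lf (nat_lit 159528) (.g (nat_lit 3050) (.e (nat_lit 57435) (nat_lit 17) (.e (nat_lit 376842) (nat_lit 11) (.e (nat_lit 426199) (nat_lit 9) (.e (nat_lit 426448) (nat_lit 20) (.e (nat_lit 114711) (nat_lit 21) (.e (nat_lit 57854) (nat_lit 252) .nil)))))) (.g (nat_lit 5) .nil .nil)))) (.nd (nat_lit 5) 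
(.lf (nat_lit 159512) (.g (nat_lit 2034) (.e (nat_lit 57435) (nat_lit 17) (.e (nat_lit 376842) (nat_lit 11) (.e (nat_lit 426199) (nat_lit 9) (.e (nat_lit 426446) (nat_lit 20) (.e (nat_lit 114711) (nat_lit 21) (.e (nat_lit 57846) (nat_lit 252) .nil)))))) (.g (nat_lit 4) .nil .nil))) 
(.lf (nat_lit 159544) (.g (nat_lit 3143) (.e (nat_lit 57435) (nat_lit 17) (.e (nat_lit 376842) (nat_lit 11) (.e (nat_lit 426200) (nat_lit 9) (.e (nat_lit 426446) (nat_lit 20) (.e (nat_lit 114710) (nat_lit 21) (.e (nat_lit 57853) (nat_lit 252) .nil)))))) (.g (nat_lit 6) .nil .nil)))))) (.nd (nat_lit 3) (.nd (nat_lit 4) (.nd (nat_lit 5) 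
(.lf (nat_lit 159492) (.g (nat_lit 3045) (.e (nat_lit 57435) (nat_lit 17) (.e (nat_lit 376842) (nat_lit 11) (.e (nat_lit 426198) (nat_lit 9) (.e (nat_lit 426448) (nat_lit 20) (.e (nat_lit 114711) (nat_lit 21) (.e (nat_lit 57844) (nat_lit 252) .nil)))))) (.g (nat_lit 5) .nil .nil))) 
(.lf (nat_lit 159524) (.g (nat_lit 3635) (.e (nat_lit 57435) (nat_lit 17) (.e (nat_lit 376842) (nat_lit 11) (.e (nat_lit 426199) (nat_lit 9) (.e (nat_lit 426448) (nat_lit 20) (.e (nat_lit 114711) (nat_lit 21) (.e (nat_lit 57846) (nat_lit 252) .nil)))))) (.g (nat_lit 6) .nil .nil)))) (.nd (nat_lit 5) 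
(.lf (nat_lit 159508) (.g (nat_lit 1927) (.e (nat_lit 57435) (nat_lit 17) (.e (nat_lit 376842) (nat_lit 11) (.e (nat_lit 426199) (nat_lit 9) (.e (nat_lit 426446) (nat_lit 20) (.e (nat_lit 114710) (nat_lit 21) (.e (nat_lit 57847) (nat_lit 252) .nil)))))) (.g (nat_lit 4) .nil .nil))) 
(.lf (nat_lit 159540) (.g (nat_lit 2723) (.e (nat_lit 57435) (nat_lit 17) (.e (nat_lit 376842) (nat_lit 11) (.e (nat_lit 426200) (nat_lit 9) (.e (nat_lit 426446) (nat_lit 20) (.e (nat_lit 114710) (nat_lit 21) (.e (nat_lit 57848) (nat_lit 252) .nil)))))) (.g (nat_lit 5) .nil .nil))))) (.nd (nat_lit 4) (.nd (nat_lit 5) 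
(.lf (nat_lit 159500) (.g (nat_lit 2138) (.e (nat_lit 57435) (nat_lit 17) (.e (nat_lit 376842) (nat_lit 11) (.e (nat_lit 426198) (nat_lit 9) (.e (nat_lit 426449) (nat_lit 20) (.e (nat_lit 114710) (nat_lit 21) (.e (nat_lit 57852) (nat_lit 252) .nil)))))) (.g (nat_lit 4) .nil .nil))) 
(.lf (nat_lit 159532) (.g (nat_lit 1612) (.e (nat_lit 57435) (nat_lit 17) (.e (nat_lit 376842) (nat_lit 11) (.e (nat_lit 426199) (nat_lit 9) (.e (nat_lit 426449) (nat_lit 20) (.e (nat_lit 114712) (nat_lit 21) .nil))))) .nil))) (.nd (nat_lit 5) 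
(.lf (nat_lit 159516) (.g (nat_lit 3710) (.e (nat_lit 57435) (nat_lit 17) (.e (nat_lit 376842) (nat_lit 11) (.e (nat_lit 426199) (nat_lit 9) (.e (nat_lit 426448) (nat_lit 20) (.e (nat_lit 114710) (nat_lit 21) (.e (nat_lit 57847) (nat_lit 252) .nil)))))) (.g (nat_lit 6) .nil .nil))) 
(.lf (nat_lit 159548) (.g (nat_lit 3133) (.e (nat_lit 57435) (nat_lit 17) (.e (nat_lit 376842) (nat_lit 11) (.e (nat_lit 426200) (nat_lit 9) (.e (nat_lit 426446) (nat_lit 20) (.e (nat_lit 114711) (nat_lit 21) (.e (nat_lit 57848) (nat_lit 252) .nil)))))) (.g (nat_lit 0) .nil .nil))))))) (.nd (nat_lit 2) (.nd (nat_lit 3) (.nd (nat_lit 4) (.nd (nat_lit 5) 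
(.lf (nat_lit 159490) (.g (nat_lit 3453) (.e (nat_lit 57435) (nat_lit 17) (.e (nat_lit 376842) (nat_lit 11) (.e (nat_lit 426198) (nat_lit 9) (.e (nat_lit 426448) (nat_lit 20) (.e (nat_lit 114710) (nat_lit 21) (.e (nat_lit 57853) (nat_lit 252) .nil)))))) (.g (nat_lit 0) .nil .nil))) 
(.lf (nat_lit 159522) (.g (nat_lit 3671) (.e (nat_lit 57435) (nat_lit 17) (.e (nat_lit 376842) (nat_lit 11) (.e (nat_lit 426199) (nat_lit 9) (.e (nat_lit 426448) (nat_lit 20) (.e (nat_lit 114710) (nat_lit 21) (.e (nat_lit 57854) (nat_lit 252) .nil)))))) (.g (nat_lit 6) .nil .nil)))) (.nd (nat_lit 5) 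
(.lf (nat_lit 159506) (.g (nat_lit 1188) (.e (nat_lit 57435) (nat_lit 17) (.e (nat_lit 376842) (nat_lit 11) (.e (nat_lit 426198) (nat_lit 9) (.e (nat_lit 433920) (nat_lit 20) .nil)))) .nil)) 
(.lf (nat_lit 159538) (.g (nat_lit 3179) (.e (nat_lit 57435) (nat_lit 17) (.e (nat_lit 376842) (nat_lit 11) (.e (nat_lit 426200) (nat_lit 9) (.e (nat_lit 426446) (nat_lit 20) (.e (nat_lit 114710) (nat_lit 21) (.e (nat_lit 57846) (nat_lit 252) .nil)))))) (.g (nat_lit 6) .nil .nil))))) (.nd (nat_lit 4) (.nd (nat_lit 5) 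
(.lf (nat_lit 159498) (.g (nat_lit 2927) (.e (nat_lit 57435) (nat_lit 17) (.e (nat_lit 376842) (nat_lit 11) (.e (nat_lit 426198) (nat_lit 9) (.e (nat_lit 426448) (nat_lit 20) (.e (nat_lit 114712) (nat_lit 21) (.e (nat_lit 57854) (nat_lit 252) .nil)))))) (.g (nat_lit 0) .nil .nil))) 
(.lf (nat_lit 159530) (.g (nat_lit 3026) (.e (nat_lit 57435) (nat_lit 17) (.e (nat_lit 376842) (nat_lit 11) (.e (nat_lit 426199) (nat_lit 9) (.e (nat_lit 426448) (nat_lit 20) (.e (nat_lit 114712) (nat_lit 21) (.e (nat_lit 57852) (nat_lit 252) .nil)))))) (.g (nat_lit 6) .nil .nil)))) (.nd (nat_lit 5) 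
(.lf (nat_lit 159514) (.g (nat_lit 1774) (.e (nat_lit 57435) (nat_lit 17) (.e (nat_lit 376842) (nat_lit 11) (.e (nat_lit 426199) (nat_lit 9) (.e (nat_lit 426446) (nat_lit 20) (.e (nat_lit 114712) (nat_lit 21) (.e (nat_lit 57852) (nat_lit 252) .nil)))))) (.g (nat_lit 4) .nil .nil))) 
(.lf (nat_lit 159546) (.g (nat_lit 2889) (.e (nat_lit 57435) (nat_lit 17) (.e (nat_lit 376842) (nat_lit 11) (.e (nat_lit 426200) (nat_lit 9) (.e (nat_lit 426446) (nat_lit 20) (.e (nat_lit 114711) (nat_lit 21) (.e (nat_lit 57844) (nat_lit 252) .nil)))))) (.g (nat_lit 6) .nil .nil)))))) (.nd (nat_lit 3) (.nd (nat_lit 4) (.nd (nat_lit 5) 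
(.lf (nat_lit 159494) (.g (nat_lit 3355) (.e (nat_lit 57435) (nat_lit 17) (.e (nat_lit 376842) (nat_lit 11) (.e (nat_lit 426198) (nat_lit 9) (.e (nat_lit 426448) (nat_lit 20) (.e (nat_lit 114711) (nat_lit 21) (.e (nat_lit 57849) (nat_lit 252) .nil)))))) (.g (nat_lit 0) .nil .nil))) 
(.lf (nat_lit 159526) (.g (nat_lit 3146) (.e (nat_lit 57435) (nat_lit 17) (.e (nat_lit 376842) (nat_lit 11) (.e (nat_lit 426199) (nat_lit 9) (.e (nat_lit 426448) (nat_lit 20) (.e (nat_lit 114711) (nat_lit 21) (.e (nat_lit 57848) (nat_lit 252) .nil)))))) (.g (nat_lit 5) .nil .nil)))) (.nd (nat_lit 5) 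
(.lf (nat_lit 159510) (.g (nat_lit 1735) (.e (nat_lit 57435) (nat_lit 17) (.e (nat_lit 376842) (nat_lit 11) (.e (nat_lit 426199) (nat_lit 9) (.e (nat_lit 426446) (nat_lit 20) (.e (nat_lit 114710) (nat_lit 21) (.e (nat_lit 57853) (nat_lit 252) .nil)))))) (.g (nat_lit 4) .nil .nil))) 
(.lf (nat_lit 159542) (.g (nat_lit 2745) (.e (nat_lit 57435) (nat_lit 17) (.e (nat_lit 376842) (nat_lit 11) (.e (nat_lit 426200) (nat_lit 9) (.e (nat_lit 426446) (nat_lit 20) (.e (nat_lit 114710) (nat_lit 21) (.e (nat_lit 57851) (nat_lit 252) .nil)))))) (.g (nat_lit 5) .nil .nil))))) (.nd (nat_lit 4) (.nd (nat_lit 5) 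
(.lf (nat_lit 159502) (.g (nat_lit 1771) (.e (nat_lit 57435) (nat_lit 17) (.e (nat_lit 376842) (nat_lit 11) (.e (nat_lit 426198) (nat_lit 9) (.e (nat_lit 426449) (nat_lit 20) (.e (nat_lit 114712) (nat_lit 21) .nil))))) .nil)) 
(.lf (nat_lit 159534) (.g (nat_lit 366) (.e (nat_lit 57435) (nat_lit 17) (.e (nat_lit 376842) (nat_lit 11) (.e (nat_lit 426200) (nat_lit 9) .nil))) .nil))) (.nd (nat_lit 5) 
(.lf (nat_lit 159518) (.g (nat_lit 3551) (.e (nat_lit 57435) (nat_lit 17) (.e (nat_lit 376842) (nat_lit 11) (.e (nat_lit 426199) (nat_lit 9) (.e (nat_lit 426448) (nat_lit 20) (.e (nat_lit 114710) (nat_lit 21) (.e (nat_lit 57849) (nat_lit 252) .nil)))))) (.g (nat_lit 6) .nil .nil))) 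
(.lf (nat_lit 159550) (.g (nat_lit 3027) (.e (nat_lit 57435) (nat_lit 17) (.e (nat_lit 376842) (nat_lit 11) (.e (nat_lit 426200) (nat_lit 9) (.e (nat_lit 426446) (nat_lit 20) (.e (nat_lit 114711) (nat_lit 21) (.e (nat_lit 57853) (nat_lit 252) .nil)))))) (.g (nat_lit 6) .nil .nil)))))))) (.nd (nat_lit 1) (.nd (nat_lit 2) (.nd (nat_lit 3) (.nd (nat_lit 4) (.nd (nat_lit 5) 
(.lf (nat_lit 159489) (.g (nat_lit 3443) (.e (nat_lit 57435) (nat_lit 17) (.e (nat_lit 376842) (nat_lit 11) (.e (nat_lit 426198) (nat_lit 9) (.e (nat_lit 426448) (nat_lit 20) (.e (nat_lit 114710) (nat_lit 21) (.e (nat_lit 57852) (nat_lit 252) .nil)))))) (.g (nat_lit 0) .nil .nil))) 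
(.lf (nat_lit 159521) (.g (nat_lit 3769) (.e (nat_lit 57435) (nat_lit 17) (.e (nat_lit 376842) (nat_lit 11) (.e (nat_lit 426199) (nat_lit 9) (.e (nat_lit 426448) (nat_lit 20) (.e (nat_lit 114710) (nat_lit 21) (.e (nat_lit 57853) (nat_lit 252) .nil)))))) (.g (nat_lit 6) .nil .nil)))) (.nd (nat_lit 5) 
(.lf (nat_lit 159505) (.g (nat_lit 1985) (.e (nat_lit 57435) (nat_lit 17) (.e (nat_lit 376842) (nat_lit 11) (.e (nat_lit 426198) (nat_lit 9) (.e (nat_lit 426449) (nat_lit 20) (.e (nat_lit 114712) (nat_lit 21) (.e (nat_lit 57854) (nat_lit 252) .nil)))))) (.g (nat_lit 4) .nil .nil))) 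
(.lf (nat_lit 159537) (.g (nat_lit 2170) (.e (nat_lit 57435) (nat_lit 17) (.e (nat_lit 376842) (nat_lit 11) (.e (nat_lit 426200) (nat_lit 9) (.e (nat_lit 426446) (nat_lit 20) (.e (nat_lit 114710) (nat_lit 21) (.e (nat_lit 57844) (nat_lit 252) .nil)))))) (.g (nat_lit 4) .nil .nil))))) (.nd (nat_lit 4) (.nd (nat_lit 5) 
(.lf (nat_lit 159497) (.g (nat_lit 2960) (.e (nat_lit 57435) (nat_lit 17) (.e (nat_lit 376842) (nat_lit 11) (.e (nat_lit 426198) (nat_lit 9) (.e (nat_lit 426448) (nat_lit 20) (.e (nat_lit 114712) (nat_lit 21) (.e (nat_lit 57852) (nat_lit 252) .nil)))))) (.g (nat_lit 0) .nil .nil))) 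
(.lf (nat_lit 159529) (.g (nat_lit 2022) (.e (nat_lit 57435) (nat_lit 17) (.e (nat_lit 376842) (nat_lit 11) (.e (nat_lit 426199) (nat_lit 9) (.e (nat_lit 426448) (nat_lit 20) (.e (nat_lit 114712) (nat_lit 21) (.e (nat_lit 57851) (nat_lit 252) .nil)))))) (.g (nat_lit 4) .nil .nil)))) (.nd (nat_lit 5) 
(.lf (nat_lit 159513) (.g (nat_lit 1741) (.e (nat_lit 57435) (nat_lit 17) (.e (nat_lit 376842) (nat_lit 11) (.e (nat_lit 426199) (nat_lit 9) (.e (nat_lit 426446) (nat_lit 20) (.e (nat_lit 114711) (nat_lit 21) (.e (nat_lit 57848) (nat_lit 252) .nil)))))) (.g (nat_lit 4) .nil .nil))) 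
(.lf (nat_lit 159545) (.g (nat_lit 3133) (.e (nat_lit 57435) (nat_lit 17) (.e (nat_lit 376842) (nat_lit 11) (.e (nat_lit 426200) (nat_lit 9) (.e (nat_lit 426446) (nat_lit 20) (.e (nat_lit 114710) (nat_lit 21) (.e (nat_lit 57854) (nat_lit 252) .nil)))))) (.g (nat_lit 6) .nil .nil)))))) (.nd (nat_lit 3) (.nd (nat_lit 4) (.nd (nat_lit 5) 
(.lf (nat_lit 159493) (.g (nat_lit 3050) (.e (nat_lit 57435) (nat_lit 17) (.e (nat_lit 376842) (nat_lit 11) (.e (nat_lit 426198) (nat_lit 9) (.e (nat_lit 426448) (nat_lit 20) (.e (nat_lit 114711) (nat_lit 21) (.e (nat_lit 57848) (nat_lit 252) .nil)))))) (.g (nat_lit 6) .nil .nil))) 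
(.lf (nat_lit 159525) (.g (nat_lit 3871) (.e (nat_lit 57435) (nat_lit 17) (.e (nat_lit 376842) (nat_lit 11) (.e (nat_lit 426199) (nat_lit 9) (.e (nat_lit 426448) (nat_lit 20) (.e (nat_lit 114711) (nat_lit 21) (.e (nat_lit 57847) (nat_lit 252) .nil)))))) (.g (nat_lit 6) .nil .nil)))) (.nd (nat_lit 5) 
(.lf (nat_lit 159509) (.g (nat_lit 1935) (.e (nat_lit 57435) (nat_lit 17) (.e (nat_lit 376842) (nat_lit 11) (.e (nat_lit 426199) (nat_lit 9) (.e (nat_lit 426446) (nat_lit 20) (.e (nat_lit 114710) (nat_lit 21) (.e (nat_lit 57852) (nat_lit 252) .nil)))))) (.g (nat_lit 4) .nil .nil))) 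
(.lf (nat_lit 159541) (.g (nat_lit 2724) (.e (nat_lit 57435) (nat_lit 17) (.e (nat_lit 376842) (nat_lit 11) (.e (nat_lit 426200) (nat_lit 9) (.e (nat_lit 426446) (nat_lit 20) (.e (nat_lit 114710) (nat_lit 21) (.e (nat_lit 57849) (nat_lit 252) .nil)))))) (.g (nat_lit 5) .nil .nil))))) (.nd (nat_lit 4) (.nd (nat_lit 5) 
(.lf (nat_lit 159501) (.g (nat_lit 1773) (.e (nat_lit 57435) (nat_lit 17) (.e (nat_lit 376842) (nat_lit 11) (.e (nat_lit 426198) (nat_lit 9) (.e (nat_lit 426449) (nat_lit 20) (.e (nat_lit 114711) (nat_lit 21) .nil))))) .nil)) 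
(.lf (nat_lit 159533) (.g (nat_lit 946) (.e (nat_lit 57435) (nat_lit 17) (.e (nat_lit 376842) (nat_lit 11) (.e (nat_lit 426199) (nat_lit 9) (.e (nat_lit 433920) (nat_lit 20) .nil)))) .nil))) (.nd (nat_lit 5) 
(.lf (nat_lit 159517) (.g (nat_lit 3429) (.e (nat_lit 57435) (nat_lit 17) (.e (nat_lit 376842) (nat_lit 11) (.e (nat_lit 426199) (nat_lit 9) (.e (nat_lit 426448) (nat_lit 20) (.e (nat_lit 114710) (nat_lit 21) (.e (nat_lit 57848) (nat_lit 252) .nil)))))) (.g (nat_lit 6) .nil .nil))) 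
(.lf (nat_lit 159549) (.g (nat_lit 3019) (.e (nat_lit 57435) (nat_lit 17) (.e (nat_lit 376842) (nat_lit 11) (.e (nat_lit 426200) (nat_lit 9) (.e (nat_lit 426446) (nat_lit 20) (.e (nat_lit 114711) (nat_lit 21) (.e (nat_lit 57849) (nat_lit 252) .nil)))))) (.g (nat_lit 6) .nil .nil))))))) (.nd (nat_lit 2) (.nd (nat_lit 3) (.nd (nat_lit 4) (.nd (nat_lit 5) 
(.lf (nat_lit 159491) (.g (nat_lit 3359) (.e (nat_lit 57435) (nat_lit 17) (.e (nat_lit 376842) (nat_lit 11) (.e (nat_lit 426198) (nat_lit 9) (.e (nat_lit 426448) (nat_lit 20) (.e (nat_lit 114710) (nat_lit 21) (.e (nat_lit 57854) (nat_lit 252) .nil)))))) (.g (nat_lit 0) .nil .nil))) 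
(.lf (nat_lit 159523) (.g (nat_lit 3163) (.e (nat_lit 57435) (nat_lit 17) (.e (nat_lit 376842) (nat_lit 11) (.e (nat_lit 426199) (nat_lit 9) (.e (nat_lit 426448) (nat_lit 20) (.e (nat_lit 114711) (nat_lit 21) (.e (nat_lit 57844) (nat_lit 252) .nil)))))) (.g (nat_lit 5) .nil .nil)))) (.nd (nat_lit 5) 
(.lf (nat_lit 159507) (.g (nat_lit 1569) (.e (nat_lit 57435) (nat_lit 17) (.e (nat_lit 376842) (nat_lit 11) (.e (nat_lit 426199) (nat_lit 9) (.e (nat_lit 426446) (nat_lit 20) (.e (nat_lit 114710) (nat_lit 21) .nil))))) .nil)) 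
(.lf (nat_lit 159539) (.g (nat_lit 3343) (.e (nat_lit 57435) (nat_lit 17) (.e (nat_lit 376842) (nat_lit 11) (.e (nat_lit 426200) (nat_lit 9) (.e (nat_lit 426446) (nat_lit 20) (.e (nat_lit 114710) (nat_lit 21) (.e (nat_lit 57847) (nat_lit 252) .nil)))))) (.g (nat_lit 0) .nil .nil))))) (.nd (nat_lit 4) (.nd (nat_lit 5) 
(.lf (nat_lit 159499) (.g (nat_lit 1828) (.e (nat_lit 57435) (nat_lit 17) (.e (nat_lit 376842) (nat_lit 11) (.e (nat_lit 426198) (nat_lit 9) (.e (nat_lit 426449) (nat_lit 20) (.e (nat_lit 114710) (nat_lit 21) .nil))))) .nil)) 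
(.lf (nat_lit 159531) (.g (nat_lit 2921) (.e (nat_lit 57435) (nat_lit 17) (.e (nat_lit 376842) (nat_lit 11) (.e (nat_lit 426199) (nat_lit 9) (.e (nat_lit 426448) (nat_lit 20) (.e (nat_lit 114712) (nat_lit 21) (.e (nat_lit 57853) (nat_lit 252) .nil)))))) (.g (nat_lit 5) .nil .nil)))) (.nd (nat_lit 5) 
(.lf (nat_lit 159515) (.g (nat_lit 2764) (.e (nat_lit 57435) (nat_lit 17) (.e (nat_lit 376842) (nat_lit 11) (.e (nat_lit 426199) (nat_lit 9) (.e (nat_lit 426448) (nat_lit 20) (.e (nat_lit 114710) (nat_lit 21) (.e (nat_lit 57844) (nat_lit 252) .nil)))))) (.g (nat_lit 5) .nil .nil))) 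
(.lf (nat_lit 159547) (.g (nat_lit 3402) (.e (nat_lit 57435) (nat_lit 17) (.e (nat_lit 376842) (nat_lit 11) (.e (nat_lit 426200) (nat_lit 9) (.e (nat_lit 426446) (nat_lit 20) (.e (nat_lit 114711) (nat_lit 21) (.e (nat_lit 57846) (nat_lit 252) .nil)))))) (.g (nat_lit 6) .nil .nil)))))) (.nd (nat_lit 3) (.nd (nat_lit 4) (.nd (nat_lit 5) 
(.lf (nat_lit 159495) (.g (nat_lit 2964) (.e (nat_lit 57435) (nat_lit 17) (.e (nat_lit 376842) (nat_lit 11) (.e (nat_lit 426198) (nat_lit 9) (.e (nat_lit 426448) (nat_lit 20) (.e (nat_lit 114711) (nat_lit 21) (.e (nat_lit 57854) (nat_lit 252) .nil)))))) (.g (nat_lit 6) .nil .nil))) 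
(.lf (nat_lit 159527) (.g (nat_lit 3480) (.e (nat_lit 57435) (nat_lit 17) (.e (nat_lit 376842) (nat_lit 11) (.e (nat_lit 426199) (nat_lit 9) (.e (nat_lit 426448) (nat_lit 20) (.e (nat_lit 114711) (nat_lit 21) (.e (nat_lit 57849) (nat_lit 252) .nil)))))) (.g (nat_lit 6) .nil .nil)))) (.nd (nat_lit 5) 
(.lf (nat_lit 159511) (.g (nat_lit 1747) (.e (nat_lit 57435) (nat_lit 17) (.e (nat_lit 376842) (nat_lit 11) (.e (nat_lit 426199) (nat_lit 9) (.e (nat_lit 426446) (nat_lit 20) (.e (nat_lit 114710) (nat_lit 21) (.e (nat_lit 57854) (nat_lit 252) .nil)))))) (.g (nat_lit 4) .nil .nil))) 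
(.lf (nat_lit 159543) (.g (nat_lit 3351) (.e (nat_lit 57435) (nat_lit 17) (.e (nat_lit 376842) (nat_lit 11) (.e (nat_lit 426200) (nat_lit 9) (.e (nat_lit 426446) (nat_lit 20) (.e (nat_lit 114710) (nat_lit 21) (.e (nat_lit 57852) (nat_lit 252) .nil)))))) (.g (nat_lit 0) .nil .nil))))) (.nd (nat_lit 4) (.nd (nat_lit 5) 
(.lf (nat_lit 159503) (.g (nat_lit 2355) (.e (nat_lit 57435) (nat_lit 17) (.e (nat_lit 376842) (nat_lit 11) (.e (nat_lit 426198) (nat_lit 9) (.e (nat_lit 426449) (nat_lit 20) (.e (nat_lit 114712) (nat_lit 21) (.e (nat_lit 57852) (nat_lit 252) .nil)))))) (.g (nat_lit 5) .nil .nil))) 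
(.lf (nat_lit 159535) (.g (nat_lit 747) (.e (nat_lit 57435) (nat_lit 17) (.e (nat_lit 376842) (nat_lit 11) (.e (nat_lit 426200) (nat_lit 9) (.e (nat_lit 426354) (nat_lit 15) .nil)))) .nil))) (.nd (nat_lit 5) 
(.lf (nat_lit 159519) (.g (nat_lit 3453) (.e (nat_lit 57435) (nat_lit 17) (.e (nat_lit 376842) (nat_lit 11) (.e (nat_lit 426199) (nat_lit 9) (.e (nat_lit 426448) (nat_lit 20) (.e (nat_lit 114710) (nat_lit 21) (.e (nat_lit 57851) (nat_lit 252) .nil)))))) (.g (nat_lit 6) .nil .nil))) 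
(.lf (nat_lit 159551) (.g (nat_lit 2185) (.e (nat_lit 57435) (nat_lit 17) (.e (nat_lit 376842) (nat_lit 11) (.e (nat_lit 426200) (nat_lit 9) (.e (nat_lit 426446) (nat_lit 20) (.e (nat_lit 114712) (nat_lit 21) (.e (nat_lit 57851) (nat_lit 252) .nil)))))) (.g (nat_lit 4) .nil .nil)))))))))

noncomputable def tv2135 : DT := (.nd (nat_lit 0) (.nd (nat_lit 1) (.nd (nat_lit 2) (.nd (nat_lit 3) (.nd (nat_lit 4) (.nd (nat_lit 5) 
(.lf (nat_lit 159552) (.g (nat_lit 3132) (.e (nat_lit 57435) (nat_lit 17) (.e (nat_lit 376842) (nat_lit 11) (.e (nat_lit 426200) (nat_lit 9) (.e (nat_lit 426446) (nat_lit 20) (.e (nat_lit 114712) (nat_lit 21) (.e (nat_lit 57852) (nat_lit 252) .nil)))))) (.g (nat_lit 0) .nil .nil))) 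
(.lf (nat_lit 159584) (.g (nat_lit 2255) (.e (nat_lit 57435) (nat_lit 17) (.e (nat_lit 376842) (nat_lit 11) (.e (nat_lit 426306) (nat_lit 12) (.e (nat_lit 475201) (nat_lit 40) (.e (nat_lit 704652) (nat_lit 9) (.e (nat_lit 1170) (nat_lit 87) (.e (nat_lit 57847) (nat_lit 252) .nil))))))) (.g (nat_lit 4) .nil .nil)))) (.nd (nat_lit 5) 
(.lf (nat_lit 159568) (.g (nat_lit 1955) (.e (nat_lit 57435) (nat_lit 17) (.e (nat_lit 376842) (nat_lit 11) (.e (nat_lit 426200) (nat_lit 9) (.e (nat_lit 426449) (nat_lit 20) (.e (nat_lit 114710) (nat_lit 21) (.e (nat_lit 57852) (nat_lit 252) .nil)))))) (.g (nat_lit 4) .nil .nil))) 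
(.lf (nat_lit 159600) (.g (nat_lit 2571) (.e (nat_lit 57435) (nat_lit 17) (.e (nat_lit 376842) (nat_lit 11) (.e (nat_lit 426306) (nat_lit 12) (.e (nat_lit 475212) (nat_lit 42) (.e (nat_lit 720933) (nat_lit 21) (.e (nat_lit 57844) (nat_lit 252) .nil)))))) (.g (nat_lit 5) .nil .nil))))) (.nd (nat_lit 4) (.nd (nat_lit 5) 
(.lf (nat_lit 159560) (.g (nat_lit 3115) (.e (nat_lit 57435) (nat_lit 17) (.e (nat_lit 376842) (nat_lit 11) (.e (nat_lit 426200) (nat_lit 9) (.e (nat_lit 426448) (nat_lit 20) (.e (nat_lit 114711) (nat_lit 21) (.e (nat_lit 57848) (nat_lit 252) .nil)))))) (.g (nat_lit 6) .nil .nil))) 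
(.lf (nat_lit 159592) (.g (nat_lit 1536) (.e (nat_lit 57435) (nat_lit 17) (.e (nat_lit 376842) (nat_lit 11) (.e (nat_lit 426306) (nat_lit 12) (.e (nat_lit 475201) (nat_lit 40) (.e (nat_lit 704764) (nat_lit 13) .nil))))) .nil))) (.nd (nat_lit 5) 
(.lf (nat_lit 159576) (.g (nat_lit 672) (.e (nat_lit 57435) (nat_lit 17) (.e (nat_lit 376842) (nat_lit 11) (.e (nat_lit 426298) (nat_lit 11) (.e (nat_lit 458804) (nat_lit 38) .nil)))) .nil)) 
(.lf (nat_lit 159608) (.g (nat_lit 3042) (.e (nat_lit 57435) (nat_lit 17) (.e (nat_lit 376842) (nat_lit 11) (.e (nat_lit 426306) (nat_lit 12) (.e (nat_lit 475214) (nat_lit 42) (.e (nat_lit 720931) (nat_lit 21) (.e (nat_lit 57851) (nat_lit 252) .nil)))))) (.g (nat_lit 6) .nil .nil)))))) (.nd (nat_lit 3) (.nd (nat_lit 4) (.nd (nat_lit 5) 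
(.lf (nat_lit 159556) (.g (nat_lit 3498) (.e (nat_lit 57435) (nat_lit 17) (.e (nat_lit 376842) (nat_lit 11) (.e (nat_lit 426200) (nat_lit 9) (.e (nat_lit 426448) (nat_lit 20) (.e (nat_lit 114710) (nat_lit 21) (.e (nat_lit 57852) (nat_lit 252) .nil)))))) (.g (nat_lit 0) .nil .nil))) 
(.lf (nat_lit 159588) (.g (nat_lit 2241) (.e (nat_lit 57435) (nat_lit 17) (.e (nat_lit 376842) (nat_lit 11) (.e (nat_lit 426306) (nat_lit 12) (.e (nat_lit 475201) (nat_lit 40) (.e (nat_lit 704657) (nat_lit 9) (.e (nat_lit 1170) (nat_lit 87) (.e (nat_lit 57847) (nat_lit 252) .nil))))))) (.g (nat_lit 4) .nil .nil)))) (.nd (nat_lit 5) 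
(.lf (nat_lit 159572) (.g (nat_lit 1211) (.e (nat_lit 57435) (nat_lit 17) (.e (nat_lit 376842) (nat_lit 11) (.e (nat_lit 426200) (nat_lit 9) (.e (nat_lit 433920) (nat_lit 20) .nil)))) .nil)) 
(.lf (nat_lit 159604) (.g (nat_lit 2678) (.e (nat_lit 57435) (nat_lit 17) (.e (nat_lit 376842) (nat_lit 11) (.e (nat_lit 426306) (nat_lit 12) (.e (nat_lit 475214) (nat_lit 42) (.e (nat_lit 720928) (nat_lit 21) (.e (nat_lit 57849) (nat_lit 252) .nil)))))) (.g (nat_lit 4) .nil .nil))))) (.nd (nat_lit 4) (.nd (nat_lit 5) 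
(.lf (nat_lit 159564) (.g (nat_lit 2957) (.e (nat_lit 57435) (nat_lit 17) (.e (nat_lit 376842) (nat_lit 11) (.e (nat_lit 426200) (nat_lit 9) (.e (nat_lit 426448) (nat_lit 20) (.e (nat_lit 114712) (nat_lit 21) (.e (nat_lit 57852) (nat_lit 252) .nil)))))) (.g (nat_lit 0) .nil .nil))) 
(.lf (nat_lit 159596) (.g (nat_lit 2877) (.e (nat_lit 57435) (nat_lit 17) (.e (nat_lit 376842) (nat_lit 11) (.e (nat_lit 426306) (nat_lit 12) (.e (nat_lit 475212) (nat_lit 42) (.e (nat_lit 720930) (nat_lit 21) (.e (nat_lit 57852) (nat_lit 252) .nil)))))) (.g (nat_lit 0) .nil .nil)))) (.nd (nat_lit 5) 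
(.lf (nat_lit 159580) (.g (nat_lit 327) (.e (nat_lit 57435) (nat_lit 17) (.e (nat_lit 376842) (nat_lit 11) (.e (nat_lit 426306) (nat_lit 12) .nil))) .nil)) 
(.lf (nat_lit 159612) (.g (nat_lit 3228) (.e (nat_lit 57435) (nat_lit 17) (.e (nat_lit 376842) (nat_lit 11) (.e (nat_lit 426306) (nat_lit 12) (.e (nat_lit 475214) (nat_lit 42) (.e (nat_lit 720932) (nat_lit 21) (.e (nat_lit 57846) (nat_lit 252) .nil)))))) (.g (nat_lit 0) .nil .nil))))))) (.nd (nat_lit 2) (.nd (nat_lit 3) (.nd (nat_lit 4) (.nd (nat_lit 5) 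
(.lf (nat_lit 159554) (.g (nat_lit 2477) (.e (nat_lit 57435) (nat_lit 17) (.e (nat_lit 376842) (nat_lit 11) (.e (nat_lit 426200) (nat_lit 9) (.e (nat_lit 426448) (nat_lit 20) (.e (nat_lit 114710) (nat_lit 21) (.e (nat_lit 57844) (nat_lit 252) .nil)))))) (.g (nat_lit 5) .nil .nil))) 
(.lf (nat_lit 159586) (.g (nat_lit 2226) (.e (nat_lit 57435) (nat_lit 17) (.e (nat_lit 376842) (nat_lit 11) (.e (nat_lit 426306) (nat_lit 12) (.e (nat_lit 475201) (nat_lit 40) (.e (nat_lit 704654) (nat_lit 9) (.e (nat_lit 1170) (nat_lit 87) (.e (nat_lit 57847) (nat_lit 252) .nil))))))) (.g (nat_lit 4) .nil .nil)))) (.nd (nat_lit 5) 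
(.lf (nat_lit 159570) (.g (nat_lit 1520) (.e (nat_lit 57435) (nat_lit 17) (.e (nat_lit 376842) (nat_lit 11) (.e (nat_lit 426200) (nat_lit 9) (.e (nat_lit 426449) (nat_lit 20) (.e (nat_lit 114712) (nat_lit 21) .nil))))) .nil)) 
(.lf (nat_lit 159602) (.g (nat_lit 936) (.e (nat_lit 57435) (nat_lit 17) (.e (nat_lit 376842) (nat_lit 11) (.e (nat_lit 426306) (nat_lit 12) (.e (nat_lit 475214) (nat_lit 42) .nil)))) .nil)))) (.nd (nat_lit 4) (.nd (nat_lit 5) 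
(.lf (nat_lit 159562) (.g (nat_lit 2982) (.e (nat_lit 57435) (nat_lit 17) (.e (nat_lit 376842) (nat_lit 11) (.e (nat_lit 426200) (nat_lit 9) (.e (nat_lit 426448) (nat_lit 20) (.e (nat_lit 114711) (nat_lit 21) (.e (nat_lit 57854) (nat_lit 252) .nil)))))) (.g (nat_lit 6) .nil .nil))) 
(.lf (nat_lit 159594) (.g (nat_lit 1602) (.e (nat_lit 57435) (nat_lit 17) (.e (nat_lit 376842) (nat_lit 11) (.e (nat_lit 426306) (nat_lit 12) (.e (nat_lit 475206) (nat_lit 40) .nil)))) .nil))) (.nd (nat_lit 5) 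
(.lf (nat_lit 159578) (.g (nat_lit 1705) (.e (nat_lit 57435) (nat_lit 17) (.e (nat_lit 376842) (nat_lit 11) (.e (nat_lit 426305) (nat_lit 12) (.e (nat_lit 475212) (nat_lit 42) .nil)))) .nil)) 
(.lf (nat_lit 159610) (.g (nat_lit 3253) (.e (nat_lit 57435) (nat_lit 17) (.e (nat_lit 376842) (nat_lit 11) (.e (nat_lit 426306) (nat_lit 12) (.e (nat_lit 475214) (nat_lit 42) (.e (nat_lit 720931) (nat_lit 21) (.e (nat_lit 57854) (nat_lit 252) .nil)))))) (.g (nat_lit 0) .nil .nil)))))) (.nd (nat_lit 3) (.nd (nat_lit 4) (.nd (nat_lit 5) 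
(.lf (nat_lit 159558) (.g (nat_lit 3411) (.e (nat_lit 57435) (nat_lit 17) (.e (nat_lit 376842) (nat_lit 11) (.e (nat_lit 426200) (nat_lit 9) (.e (nat_lit 426448) (nat_lit 20) (.e (nat_lit 114710) (nat_lit 21) (.e (nat_lit 57854) (nat_lit 252) .nil)))))) (.g (nat_lit 0) .nil .nil))) 
(.lf (nat_lit 159590) (.g (nat_lit 2166) (.e (nat_lit 57435) (nat_lit 17) (.e (nat_lit 376842) (nat_lit 11) (.e (nat_lit 426306) (nat_lit 12) (.e (nat_lit 475201) (nat_lit 40) (.e (nat_lit 704661) (nat_lit 9) (.e (nat_lit 1170) (nat_lit 87) (.e (nat_lit 57847) (nat_lit 252) .nil))))))) (.g (nat_lit 4) .nil .nil)))) (.nd (nat_lit 5) 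
(.lf (nat_lit 159574) (.g (nat_lit 2593) (.e (nat_lit 57435) (nat_lit 17) (.e (nat_lit 376842) (nat_lit 11) (.e (nat_lit 426258) (nat_lit 9) (.e (nat_lit 426447) (nat_lit 20) (.e (nat_lit 114710) (nat_lit 21) (.e (nat_lit 57852) (nat_lit 252) .nil)))))) (.g (nat_lit 0) .nil .nil))) 
(.lf (nat_lit 159606) (.g (nat_lit 2999) (.e (nat_lit 57435) (nat_lit 17) (.e (nat_lit 376842) (nat_lit 11) (.e (nat_lit 426306) (nat_lit 12) (.e (nat_lit 475214) (nat_lit 42) (.e (nat_lit 720930) (nat_lit 21) (.e (nat_lit 57852) (nat_lit 252) .nil)))))) (.g (nat_lit 0) .nil .nil))))) (.nd (nat_lit 4) (.nd (nat_lit 5) 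
(.lf (nat_lit 159566) (.g (nat_lit 2924) (.e (nat_lit 57435) (nat_lit 17) (.e (nat_lit 376842) (nat_lit 11) (.e (nat_lit 426200) (nat_lit 9) (.e (nat_lit 426448) (nat_lit 20) (.e (nat_lit 114712) (nat_lit 21) (.e (nat_lit 57854) (nat_lit 252) .nil)))))) (.g (nat_lit 0) .nil .nil))) 
(.lf (nat_lit 159598) (.g (nat_lit 3083) (.e (nat_lit 57435) (nat_lit 17) (.e (nat_lit 376842) (nat_lit 11) (.e (nat_lit 426306) (nat_lit 12) (.e (nat_lit 475212) (nat_lit 42) (.e (nat_lit 720931) (nat_lit 21) (.e (nat_lit 57852) (nat_lit 252) .nil)))))) (.g (nat_lit 0) .nil .nil)))) (.nd (nat_lit 5) 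
(.lf (nat_lit 159582) (.g (nat_lit 876) (.e (nat_lit 57435) (nat_lit 17) (.e (nat_lit 376842) (nat_lit 11) (.e (nat_lit 426306) (nat_lit 12) (.e (nat_lit 475201) (nat_lit 40) .nil)))) .nil)) 
(.lf (nat_lit 159614) (.g (nat_lit 3214) (.e (nat_lit 57435) (nat_lit 17) (.e (nat_lit 376842) (nat_lit 11) (.e (nat_lit 426306) (nat_lit 12) (.e (nat_lit 475214) (nat_lit 42) (.e (nat_lit 720932) (nat_lit 21) (.e (nat_lit 57852) (nat_lit 252) .nil)))))) (.g (nat_lit 0) .nil .nil)))))))) (.nd (nat_lit 1) (.nd (nat_lit 2) (.nd (nat_lit 3) (.nd (nat_lit 4) (.nd (nat_lit 5) 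
(.lf (nat_lit 159553) (.g (nat_lit 2945) (.e (nat_lit 57435) (nat_lit 17) (.e (nat_lit 376842) (nat_lit 11) (.e (nat_lit 426200) (nat_lit 9) (.e (nat_lit 426446) (nat_lit 20) (.e (nat_lit 114712) (nat_lit 21) (.e (nat_lit 57854) (nat_lit 252) .nil)))))) (.g (nat_lit 6) .nil .nil))) 
(.lf (nat_lit 159585) (.g (nat_lit 2245) (.e (nat_lit 57435) (nat_lit 17) (.e (nat_lit 376842) (nat_lit 11) (.e (nat_lit 426306) (nat_lit 12) (.e (nat_lit 475201) (nat_lit 40) (.e (nat_lit 704653) (nat_lit 9) (.e (nat_lit 1170) (nat_lit 87) (.e (nat_lit 57847) (nat_lit 252) .nil))))))) (.g (nat_lit 4) .nil .nil)))) (.nd (nat_lit 5) 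
(.lf (nat_lit 159569) (.g (nat_lit 1768) (.e (nat_lit 57435) (nat_lit 17) (.e (nat_lit 376842) (nat_lit 11) (.e (nat_lit 426200) (nat_lit 9) (.e (nat_lit 426449) (nat_lit 20) (.e (nat_lit 114711) (nat_lit 21) .nil))))) .nil)) 
(.lf (nat_lit 159601) (.g (nat_lit 1408) (.e (nat_lit 57435) (nat_lit 17) (.e (nat_lit 376842) (nat_lit 11) (.e (nat_lit 426306) (nat_lit 12) (.e (nat_lit 475213) (nat_lit 42) .nil)))) .nil)))) (.nd (nat_lit 4) (.nd (nat_lit 5) 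
(.lf (nat_lit 159561) (.g (nat_lit 3378) (.e (nat_lit 57435) (nat_lit 17) (.e (nat_lit 376842) (nat_lit 11) (.e (nat_lit 426200) (nat_lit 9) (.e (nat_lit 426448) (nat_lit 20) (.e (nat_lit 114711) (nat_lit 21) (.e (nat_lit 57849) (nat_lit 252) .nil)))))) (.g (nat_lit 0) .nil .nil))) 
(.lf (nat_lit 159593) (.g (nat_lit 1606) (.e (nat_lit 57435) (nat_lit 17) (.e (nat_lit 376842) (nat_lit 11) (.e (nat_lit 426306) (nat_lit 12) (.e (nat_lit 475205) (nat_lit 40) .nil)))) .nil))) (.nd (nat_lit 5) 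
(.lf (nat_lit 159577) (.g (nat_lit 1722) (.e (nat_lit 57435) (nat_lit 17) (.e (nat_lit 376842) (nat_lit 11) (.e (nat_lit 426305) (nat_lit 12) (.e (nat_lit 475197) (nat_lit 40) .nil)))) .nil)) 
(.lf (nat_lit 159609) (.g (nat_lit 3331) (.e (nat_lit 57435) (nat_lit 17) (.e (nat_lit 376842) (nat_lit 11) (.e (nat_lit 426306) (nat_lit 12) (.e (nat_lit 475214) (nat_lit 42) (.e (nat_lit 720931) (nat_lit 21) (.e (nat_lit 57852) (nat_lit 252) .nil)))))) (.g (nat_lit 0) .nil .nil)))))) (.nd (nat_lit 3) (.nd (nat_lit 4) (.nd (nat_lit 5) 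
(.lf (nat_lit 159557) (.g (nat_lit 3516) (.e (nat_lit 57435) (nat_lit 17) (.e (nat_lit 376842) (nat_lit 11) (.e (nat_lit 426200) (nat_lit 9) (.e (nat_lit 426448) (nat_lit 20) (.e (nat_lit 114710) (nat_lit 21) (.e (nat_lit 57853) (nat_lit 252) .nil)))))) (.g (nat_lit 0) .nil .nil))) 
(.lf (nat_lit 159589) (.g (nat_lit 1607) (.e (nat_lit 57435) (nat_lit 17) (.e (nat_lit 376842) (nat_lit 11) (.e (nat_lit 426306) (nat_lit 12) (.e (nat_lit 475201) (nat_lit 40) (.e (nat_lit 704659) (nat_lit 9) .nil))))) .nil))) (.nd (nat_lit 5) 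
(.lf (nat_lit 159573) (.g (nat_lit 794) (.e (nat_lit 57435) (nat_lit 17) (.e (nat_lit 376842) (nat_lit 11) (.e (nat_lit 426213) (nat_lit 9) .nil))) .nil)) 
(.lf (nat_lit 159605) (.g (nat_lit 1995) (.e (nat_lit 57435) (nat_lit 17) (.e (nat_lit 376842) (nat_lit 11) (.e (nat_lit 426306) (nat_lit 12) (.e (nat_lit 475214) (nat_lit 42) (.e (nat_lit 720929) (nat_lit 21) (.e (nat_lit 57854) (nat_lit 252) .nil)))))) (.g (nat_lit 4) .nil .nil))))) (.nd (nat_lit 4) (.nd (nat_lit 5) 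
(.lf (nat_lit 159565) (.g (nat_lit 2800) (.e (nat_lit 57435) (nat_lit 17) (.e (nat_lit 376842) (nat_lit 11) (.e (nat_lit 426200) (nat_lit 9) (.e (nat_lit 426448) (nat_lit 20) (.e (nat_lit 114712) (nat_lit 21) (.e (nat_lit 57853) (nat_lit 252) .nil)))))) (.g (nat_lit 6) .nil .nil))) 
(.lf (nat_lit 159597) (.g (nat_lit 2919) (.e (nat_lit 57435) (nat_lit 17) (.e (nat_lit 376842) (nat_lit 11) (.e (nat_lit 426306) (nat_lit 12) (.e (nat_lit 475212) (nat_lit 42) (.e (nat_lit 720930) (nat_lit 21) (.e (nat_lit 57854) (nat_lit 252) .nil)))))) (.g (nat_lit 0) .nil .nil)))) (.nd (nat_lit 5) 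
(.lf (nat_lit 159581) (.g (nat_lit 1661) (.e (nat_lit 57435) (nat_lit 17) (.e (nat_lit 376842) (nat_lit 11) (.e (nat_lit 426306) (nat_lit 12) (.e (nat_lit 475195) (nat_lit 40) .nil)))) .nil)) 
(.lf (nat_lit 159613) (.g (nat_lit 2267) (.e (nat_lit 57435) (nat_lit 17) (.e (nat_lit 376842) (nat_lit 11) (.e (nat_lit 426306) (nat_lit 12) (.e (nat_lit 475214) (nat_lit 42) (.e (nat_lit 720932) (nat_lit 21) (.e (nat_lit 57851) (nat_lit 252) .nil)))))) (.g (nat_lit 4) .nil .nil))))))) (.nd (nat_lit 2) (.nd (nat_lit 3) (.nd (nat_lit 4) (.nd (nat_lit 5) 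
(.lf (nat_lit 159555) (.g (nat_lit 3293) (.e (nat_lit 57435) (nat_lit 17) (.e (nat_lit 376842) (nat_lit 11) (.e (nat_lit 426200) (nat_lit 9) (.e (nat_lit 426448) (nat_lit 20) (.e (nat_lit 114710) (nat_lit 21) (.e (nat_lit 57849) (nat_lit 252) .nil)))))) (.g (nat_lit 0) .nil .nil))) 
(.lf (nat_lit 159587) (.g (nat_lit 2253) (.e (nat_lit 57435) (nat_lit 17) (.e (nat_lit 376842) (nat_lit 11) (.e (nat_lit 426306) (nat_lit 12) (.e (nat_lit 475201) (nat_lit 40) (.e (nat_lit 704656) (nat_lit 9) (.e (nat_lit 1170) (nat_lit 87) (.e (nat_lit 57847) (nat_lit 252) .nil))))))) (.g (nat_lit 4) .nil .nil)))) (.nd (nat_lit 5) 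
(.lf (nat_lit 159571) (.g (nat_lit 1706) (.e (nat_lit 57435) (nat_lit 17) (.e (nat_lit 376842) (nat_lit 11) (.e (nat_lit 426200) (nat_lit 9) (.e (nat_lit 426449) (nat_lit 20) (.e (nat_lit 114712) (nat_lit 21) (.e (nat_lit 57852) (nat_lit 252) .nil)))))) (.g (nat_lit 4) .nil .nil))) 
(.lf (nat_lit 159603) (.g (nat_lit 2423) (.e (nat_lit 57435) (nat_lit 17) (.e (nat_lit 376842) (nat_lit 11) (.e (nat_lit 426306) (nat_lit 12) (.e (nat_lit 475214) (nat_lit 42) (.e (nat_lit 720928) (nat_lit 21) .nil))))) .nil)))) (.nd (nat_lit 4) (.nd (nat_lit 5) 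
(.lf (nat_lit 159563) (.g (nat_lit 1893) (.e (nat_lit 57435) (nat_lit 17) (.e (nat_lit 376842) (nat_lit 11) (.e (nat_lit 426200) (nat_lit 9) (.e (nat_lit 426448) (nat_lit 20) (.e (nat_lit 114712) (nat_lit 21) (.e (nat_lit 57851) (nat_lit 252) .nil)))))) (.g (nat_lit 4) .nil .nil))) 
(.lf (nat_lit 159595) (.g (nat_lit 3318) (.e (nat_lit 57435) (nat_lit 17) (.e (nat_lit 376842) (nat_lit 11) (.e (nat_lit 426306) (nat_lit 12) (.e (nat_lit 475212) (nat_lit 42) (.e (nat_lit 720929) (nat_lit 21) (.e (nat_lit 57847) (nat_lit 252) .nil)))))) (.g (nat_lit 0) .nil .nil)))) (.nd (nat_lit 5) 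
(.lf (nat_lit 159579) (.g (nat_lit 1705) (.e (nat_lit 57435) (nat_lit 17) (.e (nat_lit 376842) (nat_lit 11) (.e (nat_lit 426305) (nat_lit 12) (.e (nat_lit 475214) (nat_lit 42) .nil)))) .nil)) 
(.lf (nat_lit 159611) (.g (nat_lit 1641) (.e (nat_lit 57435) (nat_lit 17) (.e (nat_lit 376842) (nat_lit 11) (.e (nat_lit 426306) (nat_lit 12) (.e (nat_lit 475214) (nat_lit 42) (.e (nat_lit 720932) (nat_lit 21) .nil))))) .nil))))) (.nd (nat_lit 3) (.nd (nat_lit 4) (.nd (nat_lit 5) 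
(.lf (nat_lit 159559) (.g (nat_lit 3111) (.e (nat_lit 57435) (nat_lit 17) (.e (nat_lit 376842) (nat_lit 11) (.e (nat_lit 426200) (nat_lit 9) (.e (nat_lit 426448) (nat_lit 20) (.e (nat_lit 114711) (nat_lit 21) (.e (nat_lit 57844) (nat_lit 252) .nil)))))) (.g (nat_lit 5) .nil .nil))) 
(.lf (nat_lit 159591) (.g (nat_lit 2185) (.e (nat_lit 57435) (nat_lit 17) (.e (nat_lit 376842) (nat_lit 11) (.e (nat_lit 426306) (nat_lit 12) (.e (nat_lit 475201) (nat_lit 40) (.e (nat_lit 704670) (nat_lit 9) (.e (nat_lit 1170) (nat_lit 87) (.e (nat_lit 57847) (nat_lit 252) .nil))))))) (.g (nat_lit 4) .nil .nil)))) (.nd (nat_lit 5) 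
(.lf (nat_lit 159575) (.g (nat_lit 2411) (.e (nat_lit 57435) (nat_lit 17) (.e (nat_lit 376842) (nat_lit 11) (.e (nat_lit 426258) (nat_lit 9) (.e (nat_lit 426447) (nat_lit 20) (.e (nat_lit 114712) (nat_lit 21) (.e (nat_lit 57852) (nat_lit 252) .nil)))))) (.g (nat_lit 6) .nil .nil))) 
(.lf (nat_lit 159607) (.g (nat_lit 3045) (.e (nat_lit 57435) (nat_lit 17) (.e (nat_lit 376842) (nat_lit 11) (.e (nat_lit 426306) (nat_lit 12) (.e (nat_lit 475214) (nat_lit 42) (.e (nat_lit 720930) (nat_lit 21) (.e (nat_lit 57854) (nat_lit 252) .nil)))))) (.g (nat_lit 0) .nil .nil))))) (.nd (nat_lit 4) (.nd (nat_lit 5) 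
(.lf (nat_lit 159567) (.g (nat_lit 1761) (.e (nat_lit 57435) (nat_lit 17) (.e (nat_lit 376842) (nat_lit 11) (.e (nat_lit 426200) (nat_lit 9) (.e (nat_lit 426449) (nat_lit 20) (.e (nat_lit 114710) (nat_lit 21) .nil))))) .nil)) 
(.lf (nat_lit 159599) (.g (nat_lit 3040) (.e (nat_lit 57435) (nat_lit 17) (.e (nat_lit 376842) (nat_lit 11) (.e (nat_lit 426306) (nat_lit 12) (.e (nat_lit 475212) (nat_lit 42) (.e (nat_lit 720931) (nat_lit 21) (.e (nat_lit 57854) (nat_lit 252) .nil)))))) (.g (nat_lit 0) .nil .nil)))) (.nd (nat_lit 5) 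
(.lf (nat_lit 159583) (.g (nat_lit 1539) (.e (nat_lit 57435) (nat_lit 17) (.e (nat_lit 376842) (nat_lit 11) (.e (nat_lit 426306) (nat_lit 12) (.e (nat_lit 475201) (nat_lit 40) (.e (nat_lit 704620) (nat_lit 9) .nil))))) .nil)) 
(.lf (nat_lit 159615) (.g (nat_lit 2305) (.e (nat_lit 57435) (nat_lit 17) (.e (nat_lit 376842) (nat_lit 11) (.e (nat_lit 426306) (nat_lit 12) (.e (nat_lit 475214) (nat_lit 42) (.e (nat_lit 720932) (nat_lit 21) (.e (nat_lit 57853) (nat_lit 252) .nil)))))) (.g (nat_lit 5) .nil .nil)))))))))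

noncomputable def tv2136 : DT := (.nd (nat_lit 0) (.nd (nat_lit 1) (.nd (nat_lit 2) (.nd (nat_lit 3) (.nd (nat_lit 4) (.nd (nat_lit 5) 
(.lf (nat_lit 159616) (.g (nat_lit 3055) (.e (nat_lit 57435) (nat_lit 17) (.e (nat_lit 376842) (nat_lit 11) (.e (nat_lit 426306) (nat_lit 12) (.e (nat_lit 475214) (nat_lit 42) (.e (nat_lit 720932) (nat_lit 21) (.e (nat_lit 57854) (nat_lit 252) .nil)))))) (.g (nat_lit 0) .nil .nil))) 
(.lf (nat_lit 159648) (.g (nat_lit 2220) (.e (nat_lit 57435) (nat_lit 17) (.e (nat_lit 376842) (nat_lit 11) (.e (nat_lit 426308) (nat_lit 12) (.e (nat_lit 475214) (nat_lit 42) (.e (nat_lit 720932) (nat_lit 21) .nil))))) .nil))) (.nd (nat_lit 5) 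
(.lf (nat_lit 159632) (.g (nat_lit 2612) (.e (nat_lit 57435) (nat_lit 17) (.e (nat_lit 376842) (nat_lit 11) (.e (nat_lit 426307) (nat_lit 12) (.e (nat_lit 475214) (nat_lit 42) (.e (nat_lit 720934) (nat_lit 21) (.e (nat_lit 57852) (nat_lit 252) .nil)))))) (.g (nat_lit 4) .nil .nil))) 
(.lf (nat_lit 159664) (.g (nat_lit 3212) (.e (nat_lit 57435) (nat_lit 17) (.e (nat_lit 376842) (nat_lit 11) (.e (nat_lit 426313) (nat_lit 12) (.e (nat_lit 475214) (nat_lit 42) (.e (nat_lit 720931) (nat_lit 21) (.e (nat_lit 57854) (nat_lit 252) .nil)))))) (.g (nat_lit 5) .nil .nil))))) (.nd (nat_lit 4) (.nd (nat_lit 5) 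
(.lf (nat_lit 159624) (.g (nat_lit 2970) (.e (nat_lit 57435) (nat_lit 17) (.e (nat_lit 376842) (nat_lit 11) (.e (nat_lit 426307) (nat_lit 12) (.e (nat_lit 475212) (nat_lit 42) (.e (nat_lit 720929) (nat_lit 21) (.e (nat_lit 57849) (nat_lit 252) .nil)))))) (.g (nat_lit 6) .nil .nil))) 
(.lf (nat_lit 159656) (.g (nat_lit 2081) (.e (nat_lit 57435) (nat_lit 17) (.e (nat_lit 376842) (nat_lit 11) (.e (nat_lit 426313) (nat_lit 12) (.e (nat_lit 475212) (nat_lit 42) (.e (nat_lit 720930) (nat_lit 21) .nil))))) .nil))) (.nd (nat_lit 5) 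
(.lf (nat_lit 159640) (.g (nat_lit 2479) (.e (nat_lit 57435) (nat_lit 17) (.e (nat_lit 376842) (nat_lit 11) (.e (nat_lit 426308) (nat_lit 12) (.e (nat_lit 475212) (nat_lit 42) (.e (nat_lit 720933) (nat_lit 21) (.e (nat_lit 57848) (nat_lit 252) .nil)))))) (.g (nat_lit 5) .nil .nil))) 
(.lf (nat_lit 159672) (.g (nat_lit 2875) (.e (nat_lit 57435) (nat_lit 17) (.e (nat_lit 376842) (nat_lit 11) (.e (nat_lit 426314) (nat_lit 12) (.e (nat_lit 475212) (nat_lit 42) (.e (nat_lit 720930) (nat_lit 21) (.e (nat_lit 57852) (nat_lit 252) .nil)))))) (.g (nat_lit 5) .nil .nil)))))) (.nd (nat_lit 3) (.nd (nat_lit 4) (.nd (nat_lit 5) 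
(.lf (nat_lit 159620) (.g (nat_lit 3032) (.e (nat_lit 57435) (nat_lit 17) (.e (nat_lit 376842) (nat_lit 11) (.e (nat_lit 426306) (nat_lit 12) (.e (nat_lit 475214) (nat_lit 42) (.e (nat_lit 720933) (nat_lit 21) (.e (nat_lit 57849) (nat_lit 252) .nil)))))) (.g (nat_lit 5) .nil .nil))) 
(.lf (nat_lit 159652) (.g (nat_lit 2397) (.e (nat_lit 57435) (nat_lit 17) (.e (nat_lit 376842) (nat_lit 11) (.e (nat_lit 426308) (nat_lit 12) (.e (nat_lit 475214) (nat_lit 42) (.e (nat_lit 720934) (nat_lit 21) (.e (nat_lit 57852) (nat_lit 252) .nil)))))) (.g (nat_lit 4) .nil .nil)))) (.nd (nat_lit 5) 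
(.lf (nat_lit 159636) (.g (nat_lit 3198) (.e (nat_lit 57435) (nat_lit 17) (.e (nat_lit 376842) (nat_lit 11) (.e (nat_lit 426308) (nat_lit 12) (.e (nat_lit 475212) (nat_lit 42) (.e (nat_lit 720931) (nat_lit 21) (.e (nat_lit 57852) (nat_lit 252) .nil)))))) (.g (nat_lit 0) .nil .nil))) 
(.lf (nat_lit 159668) (.g (nat_lit 2674) (.e (nat_lit 57435) (nat_lit 17) (.e (nat_lit 376842) (nat_lit 11) (.e (nat_lit 426313) (nat_lit 12) (.e (nat_lit 475214) (nat_lit 42) (.e (nat_lit 720934) (nat_lit 21) .nil))))) .nil)))) (.nd (nat_lit 4) (.nd (nat_lit 5) 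
(.lf (nat_lit 159628) (.g (nat_lit 2067) (.e (nat_lit 57435) (nat_lit 17) (.e (nat_lit 376842) (nat_lit 11) (.e (nat_lit 426307) (nat_lit 12) (.e (nat_lit 475214) (nat_lit 42) (.e (nat_lit 720932) (nat_lit 21) .nil))))) .nil)) 
(.lf (nat_lit 159660) (.g (nat_lit 2780) (.e (nat_lit 57435) (nat_lit 17) (.e (nat_lit 376842) (nat_lit 11) (.e (nat_lit 426313) (nat_lit 12) (.e (nat_lit 475214) (nat_lit 42) (.e (nat_lit 720930) (nat_lit 21) (.e (nat_lit 57851) (nat_lit 252) .nil)))))) (.g (nat_lit 4) .nil .nil)))) (.nd (nat_lit 5) 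
(.lf (nat_lit 159644) (.g (nat_lit 3129) (.e (nat_lit 57435) (nat_lit 17) (.e (nat_lit 376842) (nat_lit 11) (.e (nat_lit 426308) (nat_lit 12) (.e (nat_lit 475214) (nat_lit 42) (.e (nat_lit 720930) (nat_lit 21) (.e (nat_lit 57854) (nat_lit 252) .nil)))))) (.g (nat_lit 0) .nil .nil))) 
(.lf (nat_lit 159676) (.g (nat_lit 2550) (.e (nat_lit 57435) (nat_lit 17) (.e (nat_lit 376842) (nat_lit 11) (.e (nat_lit 426314) (nat_lit 12) (.e (nat_lit 475212) (nat_lit 42) (.e (nat_lit 720933) (nat_lit 21) (.e (nat_lit 57844) (nat_lit 252) .nil)))))) (.g (nat_lit 4) .nil .nil))))))) (.nd (nat_lit 2) (.nd (nat_lit 3) (.nd (nat_lit 4) (.nd (nat_lit 5) 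
(.lf (nat_lit 159618) (.g (nat_lit 3847) (.e (nat_lit 57435) (nat_lit 17) (.e (nat_lit 376842) (nat_lit 11) (.e (nat_lit 426306) (nat_lit 12) (.e (nat_lit 475214) (nat_lit 42) (.e (nat_lit 720933) (nat_lit 21) (.e (nat_lit 57847) (nat_lit 252) .nil)))))) (.g (nat_lit 0) .nil .nil))) 
(.lf (nat_lit 159650) (.g (nat_lit 2990) (.e (nat_lit 57435) (nat_lit 17) (.e (nat_lit 376842) (nat_lit 11) (.e (nat_lit 426308) (nat_lit 12) (.e (nat_lit 475214) (nat_lit 42) (.e (nat_lit 720933) (nat_lit 21) (.e (nat_lit 57847) (nat_lit 252) .nil)))))) (.g (nat_lit 5) .nil .nil)))) (.nd (nat_lit 5) 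
(.lf (nat_lit 159634) (.g (nat_lit 3289) (.e (nat_lit 57435) (nat_lit 17) (.e (nat_lit 376842) (nat_lit 11) (.e (nat_lit 426308) (nat_lit 12) (.e (nat_lit 475212) (nat_lit 42) (.e (nat_lit 720929) (nat_lit 21) (.e (nat_lit 57847) (nat_lit 252) .nil)))))) (.g (nat_lit 0) .nil .nil))) 
(.lf (nat_lit 159666) (.g (nat_lit 2722) (.e (nat_lit 57435) (nat_lit 17) (.e (nat_lit 376842) (nat_lit 11) (.e (nat_lit 426313) (nat_lit 12) (.e (nat_lit 475214) (nat_lit 42) (.e (nat_lit 720933) (nat_lit 21) .nil))))) .nil)))) (.nd (nat_lit 4) (.nd (nat_lit 5) 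
(.lf (nat_lit 159626) (.g (nat_lit 3294) (.e (nat_lit 57435) (nat_lit 17) (.e (nat_lit 376842) (nat_lit 11) (.e (nat_lit 426307) (nat_lit 12) (.e (nat_lit 475212) (nat_lit 42) (.e (nat_lit 720933) (nat_lit 21) (.e (nat_lit 57847) (nat_lit 252) .nil)))))) (.g (nat_lit 0) .nil .nil))) 
(.lf (nat_lit 159658) (.g (nat_lit 2802) (.e (nat_lit 57435) (nat_lit 17) (.e (nat_lit 376842) (nat_lit 11) (.e (nat_lit 426313) (nat_lit 12) (.e (nat_lit 475212) (nat_lit 42) (.e (nat_lit 720933) (nat_lit 21) (.e (nat_lit 57847) (nat_lit 252) .nil)))))) (.g (nat_lit 5) .nil .nil)))) (.nd (nat_lit 5) 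
(.lf (nat_lit 159642) (.g (nat_lit 3140) (.e (nat_lit 57435) (nat_lit 17) (.e (nat_lit 376842) (nat_lit 11) (.e (nat_lit 426308) (nat_lit 12) (.e (nat_lit 475214) (nat_lit 42) (.e (nat_lit 720929) (nat_lit 21) (.e (nat_lit 57849) (nat_lit 252) .nil)))))) (.g (nat_lit 0) .nil .nil))) 
(.lf (nat_lit 159674) (.g (nat_lit 2831) (.e (nat_lit 57435) (nat_lit 17) (.e (nat_lit 376842) (nat_lit 11) (.e (nat_lit 426314) (nat_lit 12) (.e (nat_lit 475212) (nat_lit 42) (.e (nat_lit 720931) (nat_lit 21) (.e (nat_lit 57851) (nat_lit 252) .nil)))))) (.g (nat_lit 4) .nil .nil)))))) (.nd (nat_lit 3) (.nd (nat_lit 4) (.nd (nat_lit 5) 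
(.lf (nat_lit 159622) (.g (nat_lit 3221) (.e (nat_lit 57435) (nat_lit 17) (.e (nat_lit 376842) (nat_lit 11) (.e (nat_lit 426306) (nat_lit 12) (.e (nat_lit 475214) (nat_lit 42) (.e (nat_lit 720934) (nat_lit 21) (.e (nat_lit 57852) (nat_lit 252) .nil)))))) (.g (nat_lit 0) .nil .nil))) 
(.lf (nat_lit 159654) (.g (nat_lit 2484) (.e (nat_lit 57435) (nat_lit 17) (.e (nat_lit 376842) (nat_lit 11) (.e (nat_lit 426313) (nat_lit 12) (.e (nat_lit 475212) (nat_lit 42) (.e (nat_lit 720929) (nat_lit 21) (.e (nat_lit 57847) (nat_lit 252) .nil)))))) (.g (nat_lit 4) .nil .nil)))) (.nd (nat_lit 5) 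
(.lf (nat_lit 159638) (.g (nat_lit 2521) (.e (nat_lit 57435) (nat_lit 17) (.e (nat_lit 376842) (nat_lit 11) (.e (nat_lit 426308) (nat_lit 12) (.e (nat_lit 475212) (nat_lit 42) (.e (nat_lit 720933) (nat_lit 21) (.e (nat_lit 57844) (nat_lit 252) .nil)))))) (.g (nat_lit 4) .nil .nil))) 
(.lf (nat_lit 159670) (.g (nat_lit 2980) (.e (nat_lit 57435) (nat_lit 17) (.e (nat_lit 376842) (nat_lit 11) (.e (nat_lit 426314) (nat_lit 12) (.e (nat_lit 475212) (nat_lit 42) (.e (nat_lit 720929) (nat_lit 21) (.e (nat_lit 57849) (nat_lit 252) .nil)))))) (.g (nat_lit 5) .nil .nil))))) (.nd (nat_lit 4) (.nd (nat_lit 5) 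
(.lf (nat_lit 159630) (.g (nat_lit 2929) (.e (nat_lit 57435) (nat_lit 17) (.e (nat_lit 376842) (nat_lit 11) (.e (nat_lit 426307) (nat_lit 12) (.e (nat_lit 475214) (nat_lit 42) (.e (nat_lit 720933) (nat_lit 21) (.e (nat_lit 57847) (nat_lit 252) .nil)))))) (.g (nat_lit 5) .nil .nil))) 
(.lf (nat_lit 159662) (.g (nat_lit 2945) (.e (nat_lit 57435) (nat_lit 17) (.e (nat_lit 376842) (nat_lit 11) (.e (nat_lit 426313) (nat_lit 12) (.e (nat_lit 475214) (nat_lit 42) (.e (nat_lit 720930) (nat_lit 21) (.e (nat_lit 57854) (nat_lit 252) .nil)))))) (.g (nat_lit 5) .nil .nil)))) (.nd (nat_lit 5) 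
(.lf (nat_lit 159646) (.g (nat_lit 3384) (.e (nat_lit 57435) (nat_lit 17) (.e (nat_lit 376842) (nat_lit 11) (.e (nat_lit 426308) (nat_lit 12) (.e (nat_lit 475214) (nat_lit 42) (.e (nat_lit 720931) (nat_lit 21) (.e (nat_lit 57852) (nat_lit 252) .nil)))))) (.g (nat_lit 0) .nil .nil))) 
(.lf (nat_lit 159678) (.g (nat_lit 3476) (.e (nat_lit 57435) (nat_lit 17) (.e (nat_lit 376842) (nat_lit 11) (.e (nat_lit 426314) (nat_lit 12) (.e (nat_lit 475212) (nat_lit 42) (.e (nat_lit 720933) (nat_lit 21) (.e (nat_lit 57847) (nat_lit 252) .nil)))))) (.g (nat_lit 6) .nil .nil)))))))) (.nd (nat_lit 1) (.nd (nat_lit 2) (.nd (nat_lit 3) (.nd (nat_lit 4) (.nd (nat_lit 5) 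
(.lf (nat_lit 159617) (.g (nat_lit 2848) (.e (nat_lit 57435) (nat_lit 17) (.e (nat_lit 376842) (nat_lit 11) (.e (nat_lit 426306) (nat_lit 12) (.e (nat_lit 475214) (nat_lit 42) (.e (nat_lit 720933) (nat_lit 21) (.e (nat_lit 57844) (nat_lit 252) .nil)))))) (.g (nat_lit 5) .nil .nil))) 
(.lf (nat_lit 159649) (.g (nat_lit 2302) (.e (nat_lit 57435) (nat_lit 17) (.e (nat_lit 376842) (nat_lit 11) (.e (nat_lit 426308) (nat_lit 12) (.e (nat_lit 475214) (nat_lit 42) (.e (nat_lit 720933) (nat_lit 21) .nil))))) .nil))) (.nd (nat_lit 5) 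
(.lf (nat_lit 159633) (.g (nat_lit 2477) (.e (nat_lit 57435) (nat_lit 17) (.e (nat_lit 376842) (nat_lit 11) (.e (nat_lit 426307) (nat_lit 12) (.e (nat_lit 475214) (nat_lit 42) (.e (nat_lit 720934) (nat_lit 21) (.e (nat_lit 57854) (nat_lit 252) .nil)))))) (.g (nat_lit 4) .nil .nil))) 
(.lf (nat_lit 159665) (.g (nat_lit 2304) (.e (nat_lit 57435) (nat_lit 17) (.e (nat_lit 376842) (nat_lit 11) (.e (nat_lit 426313) (nat_lit 12) (.e (nat_lit 475214) (nat_lit 42) (.e (nat_lit 720932) (nat_lit 21) .nil))))) .nil)))) (.nd (nat_lit 4) (.nd (nat_lit 5) 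
(.lf (nat_lit 159625) (.g (nat_lit 2794) (.e (nat_lit 57435) (nat_lit 17) (.e (nat_lit 376842) (nat_lit 11) (.e (nat_lit 426307) (nat_lit 12) (.e (nat_lit 475212) (nat_lit 42) (.e (nat_lit 720930) (nat_lit 21) (.e (nat_lit 57854) (nat_lit 252) .nil)))))) (.g (nat_lit 6) .nil .nil))) 
(.lf (nat_lit 159657) (.g (nat_lit 2114) (.e (nat_lit 57435) (nat_lit 17) (.e (nat_lit 376842) (nat_lit 11) (.e (nat_lit 426313) (nat_lit 12) (.e (nat_lit 475212) (nat_lit 42) (.e (nat_lit 720931) (nat_lit 21) (.e (nat_lit 57852) (nat_lit 252) .nil)))))) (.g (nat_lit 4) .nil .nil)))) (.nd (nat_lit 5) 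
(.lf (nat_lit 159641) (.g (nat_lit 3389) (.e (nat_lit 57435) (nat_lit 17) (.e (nat_lit 376842) (nat_lit 11) (.e (nat_lit 426308) (nat_lit 12) (.e (nat_lit 475214) (nat_lit 42) (.e (nat_lit 720929) (nat_lit 21) (.e (nat_lit 57847) (nat_lit 252) .nil)))))) (.g (nat_lit 0) .nil .nil))) 
(.lf (nat_lit 159673) (.g (nat_lit 2927) (.e (nat_lit 57435) (nat_lit 17) (.e (nat_lit 376842) (nat_lit 11) (.e (nat_lit 426314) (nat_lit 12) (.e (nat_lit 475212) (nat_lit 42) (.e (nat_lit 720930) (nat_lit 21) (.e (nat_lit 57854) (nat_lit 252) .nil)))))) (.g (nat_lit 5) .nil .nil)))))) (.nd (nat_lit 3) (.nd (nat_lit 4) (.nd (nat_lit 5) 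
(.lf (nat_lit 159621) (.g (nat_lit 3024) (.e (nat_lit 57435) (nat_lit 17) (.e (nat_lit 376842) (nat_lit 11) (.e (nat_lit 426306) (nat_lit 12) (.e (nat_lit 475214) (nat_lit 42) (.e (nat_lit 720934) (nat_lit 21) (.e (nat_lit 57851) (nat_lit 252) .nil)))))) (.g (nat_lit 0) .nil .nil))) 
(.lf (nat_lit 159653) (.g (nat_lit 2236) (.e (nat_lit 57435) (nat_lit 17) (.e (nat_lit 376842) (nat_lit 11) (.e (nat_lit 426308) (nat_lit 12) (.e (nat_lit 475214) (nat_lit 42) (.e (nat_lit 720934) (nat_lit 21) (.e (nat_lit 57854) (nat_lit 252) .nil)))))) (.g (nat_lit 4) .nil .nil)))) (.nd (nat_lit 5) 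
(.lf (nat_lit 159637) (.g (nat_lit 3127) (.e (nat_lit 57435) (nat_lit 17) (.e (nat_lit 376842) (nat_lit 11) (.e (nat_lit 426308) (nat_lit 12) (.e (nat_lit 475212) (nat_lit 42) (.e (nat_lit 720931) (nat_lit 21) (.e (nat_lit 57854) (nat_lit 252) .nil)))))) (.g (nat_lit 0) .nil .nil))) 
(.lf (nat_lit 159669) (.g (nat_lit 690) (.e (nat_lit 57435) (nat_lit 17) (.e (nat_lit 376842) (nat_lit 11) (.e (nat_lit 426314) (nat_lit 12) .nil))) .nil)))) (.nd (nat_lit 4) (.nd (nat_lit 5) 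
(.lf (nat_lit 159629) (.g (nat_lit 2072) (.e (nat_lit 57435) (nat_lit 17) (.e (nat_lit 376842) (nat_lit 11) (.e (nat_lit 426307) (nat_lit 12) (.e (nat_lit 475214) (nat_lit 42) (.e (nat_lit 720933) (nat_lit 21) .nil))))) .nil)) 
(.lf (nat_lit 159661) (.g (nat_lit 2873) (.e (nat_lit 57435) (nat_lit 17) (.e (nat_lit 376842) (nat_lit 11) (.e (nat_lit 426313) (nat_lit 12) (.e (nat_lit 475214) (nat_lit 42) (.e (nat_lit 720930) (nat_lit 21) (.e (nat_lit 57852) (nat_lit 252) .nil)))))) (.g (nat_lit 5) .nil .nil)))) (.nd (nat_lit 5) 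
(.lf (nat_lit 159645) (.g (nat_lit 3093) (.e (nat_lit 57435) (nat_lit 17) (.e (nat_lit 376842) (nat_lit 11) (.e (nat_lit 426308) (nat_lit 12) (.e (nat_lit 475214) (nat_lit 42) (.e (nat_lit 720931) (nat_lit 21) (.e (nat_lit 57851) (nat_lit 252) .nil)))))) (.g (nat_lit 6) .nil .nil))) 
(.lf (nat_lit 159677) (.g (nat_lit 2694) (.e (nat_lit 57435) (nat_lit 17) (.e (nat_lit 376842) (nat_lit 11) (.e (nat_lit 426314) (nat_lit 12) (.e (nat_lit 475212) (nat_lit 42) (.e (nat_lit 720933) (nat_lit 21) (.e (nat_lit 57846) (nat_lit 252) .nil)))))) (.g (nat_lit 4) .nil .nil))))))) (.nd (nat_lit 2) (.nd (nat_lit 3) (.nd (nat_lit 4) (.nd (nat_lit 5) 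
(.lf (nat_lit 159619) (.g (nat_lit 2689) (.e (nat_lit 57435) (nat_lit 17) (.e (nat_lit 376842) (nat_lit 11) (.e (nat_lit 426306) (nat_lit 12) (.e (nat_lit 475214) (nat_lit 42) (.e (nat_lit 720933) (nat_lit 21) (.e (nat_lit 57848) (nat_lit 252) .nil)))))) (.g (nat_lit 5) .nil .nil))) 
(.lf (nat_lit 159651) (.g (nat_lit 2219) (.e (nat_lit 57435) (nat_lit 17) (.e (nat_lit 376842) (nat_lit 11) (.e (nat_lit 426308) (nat_lit 12) (.e (nat_lit 475214) (nat_lit 42) (.e (nat_lit 720934) (nat_lit 21) (.e (nat_lit 57851) (nat_lit 252) .nil)))))) (.g (nat_lit 4) .nil .nil)))) (.nd (nat_lit 5) 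
(.lf (nat_lit 159635) (.g (nat_lit 2975) (.e (nat_lit 57435) (nat_lit 17) (.e (nat_lit 376842) (nat_lit 11) (.e (nat_lit 426308) (nat_lit 12) (.e (nat_lit 475212) (nat_lit 42) (.e (nat_lit 720930) (nat_lit 21) (.e (nat_lit 57852) (nat_lit 252) .nil)))))) (.g (nat_lit 0) .nil .nil))) 
(.lf (nat_lit 159667) (.g (nat_lit 2832) (.e (nat_lit 57435) (nat_lit 17) (.e (nat_lit 376842) (nat_lit 11) (.e (nat_lit 426313) (nat_lit 12) (.e (nat_lit 475214) (nat_lit 42) (.e (nat_lit 720933) (nat_lit 21) (.e (nat_lit 57847) (nat_lit 252) .nil)))))) (.g (nat_lit 4) .nil .nil))))) (.nd (nat_lit 4) (.nd (nat_lit 5) 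
(.lf (nat_lit 159627) (.g (nat_lit 2293) (.e (nat_lit 57435) (nat_lit 17) (.e (nat_lit 376842) (nat_lit 11) (.e (nat_lit 426307) (nat_lit 12) (.e (nat_lit 475212) (nat_lit 42) (.e (nat_lit 720933) (nat_lit 21) (.e (nat_lit 57848) (nat_lit 252) .nil)))))) (.g (nat_lit 5) .nil .nil))) 
(.lf (nat_lit 159659) (.g (nat_lit 3094) (.e (nat_lit 57435) (nat_lit 17) (.e (nat_lit 376842) (nat_lit 11) (.e (nat_lit 426313) (nat_lit 12) (.e (nat_lit 475214) (nat_lit 42) (.e (nat_lit 720929) (nat_lit 21) (.e (nat_lit 57849) (nat_lit 252) .nil)))))) (.g (nat_lit 5) .nil .nil)))) (.nd (nat_lit 5) 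
(.lf (nat_lit 159643) (.g (nat_lit 3092) (.e (nat_lit 57435) (nat_lit 17) (.e (nat_lit 376842) (nat_lit 11) (.e (nat_lit 426308) (nat_lit 12) (.e (nat_lit 475214) (nat_lit 42) (.e (nat_lit 720930) (nat_lit 21) (.e (nat_lit 57852) (nat_lit 252) .nil)))))) (.g (nat_lit 0) .nil .nil))) 
(.lf (nat_lit 159675) (.g (nat_lit 3024) (.e (nat_lit 57435) (nat_lit 17) (.e (nat_lit 376842) (nat_lit 11) (.e (nat_lit 426314) (nat_lit 12) (.e (nat_lit 475212) (nat_lit 42) (.e (nat_lit 720931) (nat_lit 21) (.e (nat_lit 57854) (nat_lit 252) .nil)))))) (.g (nat_lit 5) .nil .nil)))))) (.nd (nat_lit 3) (.nd (nat_lit 4) (.nd (nat_lit 5) 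
(.lf (nat_lit 159623) (.g (nat_lit 3077) (.e (nat_lit 57435) (nat_lit 17) (.e (nat_lit 376842) (nat_lit 11) (.e (nat_lit 426306) (nat_lit 12) (.e (nat_lit 475214) (nat_lit 42) (.e (nat_lit 720934) (nat_lit 21) (.e (nat_lit 57854) (nat_lit 252) .nil)))))) (.g (nat_lit 0) .nil .nil))) 
(.lf (nat_lit 159655) (.g (nat_lit 2286) (.e (nat_lit 57435) (nat_lit 17) (.e (nat_lit 376842) (nat_lit 11) (.e (nat_lit 426313) (nat_lit 12) (.e (nat_lit 475212) (nat_lit 42) (.e (nat_lit 720929) (nat_lit 21) (.e (nat_lit 57849) (nat_lit 252) .nil)))))) (.g (nat_lit 4) .nil .nil)))) (.nd (nat_lit 5) 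
(.lf (nat_lit 159639) (.g (nat_lit 3411) (.e (nat_lit 57435) (nat_lit 17) (.e (nat_lit 376842) (nat_lit 11) (.e (nat_lit 426308) (nat_lit 12) (.e (nat_lit 475212) (nat_lit 42) (.e (nat_lit 720933) (nat_lit 21) (.e (nat_lit 57847) (nat_lit 252) .nil)))))) (.g (nat_lit 0) .nil .nil))) 
(.lf (nat_lit 159671) (.g (nat_lit 2633) (.e (nat_lit 57435) (nat_lit 17) (.e (nat_lit 376842) (nat_lit 11) (.e (nat_lit 426314) (nat_lit 12) (.e (nat_lit 475212) (nat_lit 42) (.e (nat_lit 720930) (nat_lit 21) (.e (nat_lit 57851) (nat_lit 252) .nil)))))) (.g (nat_lit 4) .nil .nil))))) (.nd (nat_lit 4) (.nd (nat_lit 5) 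
(.lf (nat_lit 159631) (.g (nat_lit 2459) (.e (nat_lit 57435) (nat_lit 17) (.e (nat_lit 376842) (nat_lit 11) (.e (nat_lit 426307) (nat_lit 12) (.e (nat_lit 475214) (nat_lit 42) (.e (nat_lit 720934) (nat_lit 21) (.e (nat_lit 57851) (nat_lit 252) .nil)))))) (.g (nat_lit 4) .nil .nil))) 
(.lf (nat_lit 159663) (.g (nat_lit 2993) (.e (nat_lit 57435) (nat_lit 17) (.e (nat_lit 376842) (nat_lit 11) (.e (nat_lit 426313) (nat_lit 12) (.e (nat_lit 475214) (nat_lit 42) (.e (nat_lit 720931) (nat_lit 21) (.e (nat_lit 57851) (nat_lit 252) .nil)))))) (.g (nat_lit 4) .nil .nil)))) (.nd (nat_lit 5) 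
(.lf (nat_lit 159647) (.g (nat_lit 3296) (.e (nat_lit 57435) (nat_lit 17) (.e (nat_lit 376842) (nat_lit 11) (.e (nat_lit 426308) (nat_lit 12) (.e (nat_lit 475214) (nat_lit 42) (.e (nat_lit 720931) (nat_lit 21) (.e (nat_lit 57854) (nat_lit 252) .nil)))))) (.g (nat_lit 0) .nil .nil))) 
(.lf (nat_lit 159679) (.g (nat_lit 2434) (.e (nat_lit 57435) (nat_lit 17) (.e (nat_lit 376842) (nat_lit 11) (.e (nat_lit 426314) (nat_lit 12) (.e (nat_lit 475212) (nat_lit 42) (.e (nat_lit 720933) (nat_lit 21) (.e (nat_lit 57848) (nat_lit 252) .nil)))))) (.g (nat_lit 4) .nil .nil)))))))))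

noncomputable def tv2137 : DT := (.nd (nat_lit 0) (.nd (nat_lit 1) (.nd (nat_lit 2) (.nd (nat_lit 3) (.nd (nat_lit 4) (.nd (nat_lit 5) 
(.lf (nat_lit 159680) (.g (nat_lit 2833) (.e (nat_lit 57435) (nat_lit 17) (.e (nat_lit 376842) (nat_lit 11) (.e (nat_lit 426314) (nat_lit 12) (.e (nat_lit 475212) (nat_lit 42) (.e (nat_lit 720933) (nat_lit 21) (.e (nat_lit 57849) (nat_lit 252) .nil)))))) (.g (nat_lit 5) .nil .nil))) 
(.lf (nat_lit 159712) (.g (nat_lit 2680) (.e (nat_lit 57435) (nat_lit 17) (.e (nat_lit 376842) (nat_lit 11) (.e (nat_lit 426315) (nat_lit 12) (.e (nat_lit 475214) (nat_lit 42) (.e (nat_lit 720932) (nat_lit 21) (.e (nat_lit 57847) (nat_lit 252) .nil)))))) (.g (nat_lit 4) .nil .nil)))) (.nd (nat_lit 5) 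
(.lf (nat_lit 159696) (.g (nat_lit 3262) (.e (nat_lit 57435) (nat_lit 17) (.e (nat_lit 376842) (nat_lit 11) (.e (nat_lit 426315) (nat_lit 12) (.e (nat_lit 475212) (nat_lit 42) (.e (nat_lit 720929) (nat_lit 21) (.e (nat_lit 57847) (nat_lit 252) .nil)))))) (.g (nat_lit 6) .nil .nil))) 
(.lf (nat_lit 159728) (.g (nat_lit 2714) (.e (nat_lit 57435) (nat_lit 17) (.e (nat_lit 376842) (nat_lit 11) (.e (nat_lit 426316) (nat_lit 12) (.e (nat_lit 475212) (nat_lit 42) (.e (nat_lit 720930) (nat_lit 21) (.e (nat_lit 57854) (nat_lit 252) .nil)))))) (.g (nat_lit 4) .nil .nil))))) (.nd (nat_lit 4) (.nd (nat_lit 5) 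
(.lf (nat_lit 159688) (.g (nat_lit 3381) (.e (nat_lit 57435) (nat_lit 17) (.e (nat_lit 376842) (nat_lit 11) (.e (nat_lit 426314) (nat_lit 12) (.e (nat_lit 475214) (nat_lit 42) (.e (nat_lit 720931) (nat_lit 21) (.e (nat_lit 57854) (nat_lit 252) .nil)))))) (.g (nat_lit 6) .nil .nil))) 
(.lf (nat_lit 159720) (.g (nat_lit 2855) (.e (nat_lit 57435) (nat_lit 17) (.e (nat_lit 376842) (nat_lit 11) (.e (nat_lit 426315) (nat_lit 12) (.e (nat_lit 475214) (nat_lit 42) (.e (nat_lit 720934) (nat_lit 21) (.e (nat_lit 57851) (nat_lit 252) .nil)))))) (.g (nat_lit 4) .nil .nil)))) (.nd (nat_lit 5) 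
(.lf (nat_lit 159704) (.g (nat_lit 2990) (.e (nat_lit 57435) (nat_lit 17) (.e (nat_lit 376842) (nat_lit 11) (.e (nat_lit 426315) (nat_lit 12) (.e (nat_lit 475214) (nat_lit 42) (.e (nat_lit 720929) (nat_lit 21) (.e (nat_lit 57849) (nat_lit 252) .nil)))))) (.g (nat_lit 0) .nil .nil))) 
(.lf (nat_lit 159736) (.g (nat_lit 2713) (.e (nat_lit 57435) (nat_lit 17) (.e (nat_lit 376842) (nat_lit 11) (.e (nat_lit 426316) (nat_lit 12) (.e (nat_lit 475212) (nat_lit 42) (.e (nat_lit 720934) (nat_lit 21) (.e (nat_lit 57851) (nat_lit 252) .nil)))))) (.g (nat_lit 4) .nil .nil)))))) (.nd (nat_lit 3) (.nd (nat_lit 4) (.nd (nat_lit 5) 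
(.lf (nat_lit 159684) (.g (nat_lit 1985) (.e (nat_lit 57435) (nat_lit 17) (.e (nat_lit 376842) (nat_lit 11) (.e (nat_lit 426314) (nat_lit 12) (.e (nat_lit 475213) (nat_lit 42) (.e (nat_lit 720929) (nat_lit 21) (.e (nat_lit 57847) (nat_lit 252) .nil)))))) (.g (nat_lit 4) .nil .nil))) 
(.lf (nat_lit 159716) (.g (nat_lit 2284) (.e (nat_lit 57435) (nat_lit 17) (.e (nat_lit 376842) (nat_lit 11) (.e (nat_lit 426315) (nat_lit 12) (.e (nat_lit 475214) (nat_lit 42) (.e (nat_lit 720933) (nat_lit 21) .nil))))) .nil))) (.nd (nat_lit 5) 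
(.lf (nat_lit 159700) (.g (nat_lit 3494) (.e (nat_lit 57435) (nat_lit 17) (.e (nat_lit 376842) (nat_lit 11) (.e (nat_lit 426315) (nat_lit 12) (.e (nat_lit 475212) (nat_lit 42) (.e (nat_lit 720933) (nat_lit 21) (.e (nat_lit 57847) (nat_lit 252) .nil)))))) (.g (nat_lit 0) .nil .nil))) 
(.lf (nat_lit 159732) (.g (nat_lit 2455) (.e (nat_lit 57435) (nat_lit 17) (.e (nat_lit 376842) (nat_lit 11) (.e (nat_lit 426316) (nat_lit 12) (.e (nat_lit 475212) (nat_lit 42) (.e (nat_lit 720933) (nat_lit 21) (.e (nat_lit 57844) (nat_lit 252) .nil)))))) (.g (nat_lit 4) .nil .nil))))) (.nd (nat_lit 4) (.nd (nat_lit 5) 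
(.lf (nat_lit 159692) (.g (nat_lit 2945) (.e (nat_lit 57435) (nat_lit 17) (.e (nat_lit 376842) (nat_lit 11) (.e (nat_lit 426314) (nat_lit 12) (.e (nat_lit 475214) (nat_lit 42) (.e (nat_lit 720934) (nat_lit 21) (.e (nat_lit 57851) (nat_lit 252) .nil)))))) (.g (nat_lit 4) .nil .nil))) 
(.lf (nat_lit 159724) (.g (nat_lit 3005) (.e (nat_lit 57435) (nat_lit 17) (.e (nat_lit 376842) (nat_lit 11) (.e (nat_lit 426316) (nat_lit 12) (.e (nat_lit 475212) (nat_lit 42) (.e (nat_lit 720929) (nat_lit 21) (.e (nat_lit 57847) (nat_lit 252) .nil)))))) (.g (nat_lit 5) .nil .nil)))) (.nd (nat_lit 5) 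
(.lf (nat_lit 159708) (.g (nat_lit 3212) (.e (nat_lit 57435) (nat_lit 17) (.e (nat_lit 376842) (nat_lit 11) (.e (nat_lit 426315) (nat_lit 12) (.e (nat_lit 475214) (nat_lit 42) (.e (nat_lit 720931) (nat_lit 21) (.e (nat_lit 57852) (nat_lit 252) .nil)))))) (.g (nat_lit 0) .nil .nil))) 
(.lf (nat_lit 159740) (.g (nat_lit 2512) (.e (nat_lit 57435) (nat_lit 17) (.e (nat_lit 376842) (nat_lit 11) (.e (nat_lit 426316) (nat_lit 12) (.e (nat_lit 475213) (nat_lit 42) (.e (nat_lit 720931) (nat_lit 21) (.e (nat_lit 57854) (nat_lit 252) .nil)))))) (.g (nat_lit 4) .nil .nil))))))) (.nd (nat_lit 2) (.nd (nat_lit 3) (.nd (nat_lit 4) (.nd (nat_lit 5) 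
(.lf (nat_lit 159682) (.g (nat_lit 2964) (.e (nat_lit 57435) (nat_lit 17) (.e (nat_lit 376842) (nat_lit 11) (.e (nat_lit 426314) (nat_lit 12) (.e (nat_lit 475212) (nat_lit 42) (.e (nat_lit 720934) (nat_lit 21) (.e (nat_lit 57854) (nat_lit 252) .nil)))))) (.g (nat_lit 5) .nil .nil))) 
(.lf (nat_lit 159714) (.g (nat_lit 2718) (.e (nat_lit 57435) (nat_lit 17) (.e (nat_lit 376842) (nat_lit 11) (.e (nat_lit 426315) (nat_lit 12) (.e (nat_lit 475214) (nat_lit 42) (.e (nat_lit 720932) (nat_lit 21) (.e (nat_lit 57852) (nat_lit 252) .nil)))))) (.g (nat_lit 4) .nil .nil)))) (.nd (nat_lit 5) 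
(.lf (nat_lit 159698) (.g (nat_lit 2655) (.e (nat_lit 57435) (nat_lit 17) (.e (nat_lit 376842) (nat_lit 11) (.e (nat_lit 426315) (nat_lit 12) (.e (nat_lit 475212) (nat_lit 42) (.e (nat_lit 720931) (nat_lit 21) (.e (nat_lit 57851) (nat_lit 252) .nil)))))) (.g (nat_lit 5) .nil .nil))) 
(.lf (nat_lit 159730) (.g (nat_lit 2782) (.e (nat_lit 57435) (nat_lit 17) (.e (nat_lit 376842) (nat_lit 11) (.e (nat_lit 426316) (nat_lit 12) (.e (nat_lit 475212) (nat_lit 42) (.e (nat_lit 720931) (nat_lit 21) (.e (nat_lit 57852) (nat_lit 252) .nil)))))) (.g (nat_lit 5) .nil .nil))))) (.nd (nat_lit 4) (.nd (nat_lit 5) 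
(.lf (nat_lit 159690) (.g (nat_lit 2812) (.e (nat_lit 57435) (nat_lit 17) (.e (nat_lit 376842) (nat_lit 11) (.e (nat_lit 426314) (nat_lit 12) (.e (nat_lit 475214) (nat_lit 42) (.e (nat_lit 720933) (nat_lit 21) .nil))))) .nil)) 
(.lf (nat_lit 159722) (.g (nat_lit 341) (.e (nat_lit 57435) (nat_lit 17) (.e (nat_lit 376842) (nat_lit 11) (.e (nat_lit 426316) (nat_lit 12) .nil))) .nil))) (.nd (nat_lit 5) 
(.lf (nat_lit 159706) (.g (nat_lit 2923) (.e (nat_lit 57435) (nat_lit 17) (.e (nat_lit 376842) (nat_lit 11) (.e (nat_lit 426315) (nat_lit 12) (.e (nat_lit 475214) (nat_lit 42) (.e (nat_lit 720930) (nat_lit 21) (.e (nat_lit 57854) (nat_lit 252) .nil)))))) (.g (nat_lit 0) .nil .nil))) 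
(.lf (nat_lit 159738) (.g (nat_lit 2740) (.e (nat_lit 57435) (nat_lit 17) (.e (nat_lit 376842) (nat_lit 11) (.e (nat_lit 426316) (nat_lit 12) (.e (nat_lit 475212) (nat_lit 42) (.e (nat_lit 720934) (nat_lit 21) (.e (nat_lit 57854) (nat_lit 252) .nil)))))) (.g (nat_lit 4) .nil .nil)))))) (.nd (nat_lit 3) (.nd (nat_lit 4) (.nd (nat_lit 5) 
(.lf (nat_lit 159686) (.g (nat_lit 3136) (.e (nat_lit 57435) (nat_lit 17) (.e (nat_lit 376842) (nat_lit 11) (.e (nat_lit 426314) (nat_lit 12) (.e (nat_lit 475214) (nat_lit 42) (.e (nat_lit 720931) (nat_lit 21) (.e (nat_lit 57851) (nat_lit 252) .nil)))))) (.g (nat_lit 5) .nil .nil))) 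
(.lf (nat_lit 159718) (.g (nat_lit 2358) (.e (nat_lit 57435) (nat_lit 17) (.e (nat_lit 376842) (nat_lit 11) (.e (nat_lit 426315) (nat_lit 12) (.e (nat_lit 475214) (nat_lit 42) (.e (nat_lit 720933) (nat_lit 21) (.e (nat_lit 57846) (nat_lit 252) .nil)))))) (.g (nat_lit 4) .nil .nil)))) (.nd (nat_lit 5) 
(.lf (nat_lit 159702) (.g (nat_lit 2088) (.e (nat_lit 57435) (nat_lit 17) (.e (nat_lit 376842) (nat_lit 11) (.e (nat_lit 426315) (nat_lit 12) (.e (nat_lit 475213) (nat_lit 42) (.e (nat_lit 720929) (nat_lit 21) (.e (nat_lit 57847) (nat_lit 252) .nil)))))) (.g (nat_lit 4) .nil .nil))) 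
(.lf (nat_lit 159734) (.g (nat_lit 2292) (.e (nat_lit 57435) (nat_lit 17) (.e (nat_lit 376842) (nat_lit 11) (.e (nat_lit 426316) (nat_lit 12) (.e (nat_lit 475212) (nat_lit 42) (.e (nat_lit 720933) (nat_lit 21) (.e (nat_lit 57848) (nat_lit 252) .nil)))))) (.g (nat_lit 4) .nil .nil))))) (.nd (nat_lit 4) (.nd (nat_lit 5) 
(.lf (nat_lit 159694) (.g (nat_lit 2988) (.e (nat_lit 57435) (nat_lit 17) (.e (nat_lit 376842) (nat_lit 11) (.e (nat_lit 426314) (nat_lit 12) (.e (nat_lit 475214) (nat_lit 42) (.e (nat_lit 720934) (nat_lit 21) (.e (nat_lit 57854) (nat_lit 252) .nil)))))) (.g (nat_lit 4) .nil .nil))) 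
(.lf (nat_lit 159726) (.g (nat_lit 2453) (.e (nat_lit 57435) (nat_lit 17) (.e (nat_lit 376842) (nat_lit 11) (.e (nat_lit 426316) (nat_lit 12) (.e (nat_lit 475212) (nat_lit 42) (.e (nat_lit 720930) (nat_lit 21) (.e (nat_lit 57851) (nat_lit 252) .nil)))))) (.g (nat_lit 4) .nil .nil)))) (.nd (nat_lit 5) 
(.lf (nat_lit 159710) (.g (nat_lit 2245) (.e (nat_lit 57435) (nat_lit 17) (.e (nat_lit 376842) (nat_lit 11) (.e (nat_lit 426315) (nat_lit 12) (.e (nat_lit 475214) (nat_lit 42) (.e (nat_lit 720932) (nat_lit 21) .nil))))) .nil)) 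
(.lf (nat_lit 159742) (.g (nat_lit 3046) (.e (nat_lit 57435) (nat_lit 17) (.e (nat_lit 376842) (nat_lit 11) (.e (nat_lit 426316) (nat_lit 12) (.e (nat_lit 475214) (nat_lit 42) (.e (nat_lit 720929) (nat_lit 21) (.e (nat_lit 57849) (nat_lit 252) .nil)))))) (.g (nat_lit 0) .nil .nil)))))))) (.nd (nat_lit 1) (.nd (nat_lit 2) (.nd (nat_lit 3) (.nd (nat_lit 4) (.nd (nat_lit 5) 
(.lf (nat_lit 159681) (.g (nat_lit 2904) (.e (nat_lit 57435) (nat_lit 17) (.e (nat_lit 376842) (nat_lit 11) (.e (nat_lit 426314) (nat_lit 12) (.e (nat_lit 475212) (nat_lit 42) (.e (nat_lit 720934) (nat_lit 21) (.e (nat_lit 57851) (nat_lit 252) .nil)))))) (.g (nat_lit 4) .nil .nil))) 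
(.lf (nat_lit 159713) (.g (nat_lit 2761) (.e (nat_lit 57435) (nat_lit 17) (.e (nat_lit 376842) (nat_lit 11) (.e (nat_lit 426315) (nat_lit 12) (.e (nat_lit 475214) (nat_lit 42) (.e (nat_lit 720932) (nat_lit 21) (.e (nat_lit 57849) (nat_lit 252) .nil)))))) (.g (nat_lit 4) .nil .nil)))) (.nd (nat_lit 5) 
(.lf (nat_lit 159697) (.g (nat_lit 2561) (.e (nat_lit 57435) (nat_lit 17) (.e (nat_lit 376842) (nat_lit 11) (.e (nat_lit 426315) (nat_lit 12) (.e (nat_lit 475212) (nat_lit 42) (.e (nat_lit 720930) (nat_lit 21) (.e (nat_lit 57851) (nat_lit 252) .nil)))))) (.g (nat_lit 4) .nil .nil))) 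
(.lf (nat_lit 159729) (.g (nat_lit 2558) (.e (nat_lit 57435) (nat_lit 17) (.e (nat_lit 376842) (nat_lit 11) (.e (nat_lit 426316) (nat_lit 12) (.e (nat_lit 475212) (nat_lit 42) (.e (nat_lit 720931) (nat_lit 21) (.e (nat_lit 57851) (nat_lit 252) .nil)))))) (.g (nat_lit 4) .nil .nil))))) (.nd (nat_lit 4) (.nd (nat_lit 5) 
(.lf (nat_lit 159689) (.g (nat_lit 2614) (.e (nat_lit 57435) (nat_lit 17) (.e (nat_lit 376842) (nat_lit 11) (.e (nat_lit 426314) (nat_lit 12) (.e (nat_lit 475214) (nat_lit 42) (.e (nat_lit 720932) (nat_lit 21) .nil))))) .nil)) 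
(.lf (nat_lit 159721) (.g (nat_lit 2894) (.e (nat_lit 57435) (nat_lit 17) (.e (nat_lit 376842) (nat_lit 11) (.e (nat_lit 426315) (nat_lit 12) (.e (nat_lit 475214) (nat_lit 42) (.e (nat_lit 720934) (nat_lit 21) (.e (nat_lit 57854) (nat_lit 252) .nil)))))) (.g (nat_lit 4) .nil .nil)))) (.nd (nat_lit 5) 
(.lf (nat_lit 159705) (.g (nat_lit 2876) (.e (nat_lit 57435) (nat_lit 17) (.e (nat_lit 376842) (nat_lit 11) (.e (nat_lit 426315) (nat_lit 12) (.e (nat_lit 475214) (nat_lit 42) (.e (nat_lit 720930) (nat_lit 21) (.e (nat_lit 57852) (nat_lit 252) .nil)))))) (.g (nat_lit 0) .nil .nil))) 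
(.lf (nat_lit 159737) (.g (nat_lit 2856) (.e (nat_lit 57435) (nat_lit 17) (.e (nat_lit 376842) (nat_lit 11) (.e (nat_lit 426316) (nat_lit 12) (.e (nat_lit 475212) (nat_lit 42) (.e (nat_lit 720934) (nat_lit 21) (.e (nat_lit 57852) (nat_lit 252) .nil)))))) (.g (nat_lit 5) .nil .nil)))))) (.nd (nat_lit 3) (.nd (nat_lit 4) (.nd (nat_lit 5) 
(.lf (nat_lit 159685) (.g (nat_lit 2960) (.e (nat_lit 57435) (nat_lit 17) (.e (nat_lit 376842) (nat_lit 11) (.e (nat_lit 426314) (nat_lit 12) (.e (nat_lit 475214) (nat_lit 42) (.e (nat_lit 720930) (nat_lit 21) (.e (nat_lit 57851) (nat_lit 252) .nil)))))) (.g (nat_lit 4) .nil .nil))) 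
(.lf (nat_lit 159717) (.g (nat_lit 2310) (.e (nat_lit 57435) (nat_lit 17) (.e (nat_lit 376842) (nat_lit 11) (.e (nat_lit 426315) (nat_lit 12) (.e (nat_lit 475214) (nat_lit 42) (.e (nat_lit 720933) (nat_lit 21) (.e (nat_lit 57844) (nat_lit 252) .nil)))))) (.g (nat_lit 4) .nil .nil)))) (.nd (nat_lit 5) 
(.lf (nat_lit 159701) (.g (nat_lit 2498) (.e (nat_lit 57435) (nat_lit 17) (.e (nat_lit 376842) (nat_lit 11) (.e (nat_lit 426315) (nat_lit 12) (.e (nat_lit 475212) (nat_lit 42) (.e (nat_lit 720933) (nat_lit 21) (.e (nat_lit 57848) (nat_lit 252) .nil)))))) (.g (nat_lit 5) .nil .nil))) 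
(.lf (nat_lit 159733) (.g (nat_lit 2591) (.e (nat_lit 57435) (nat_lit 17) (.e (nat_lit 376842) (nat_lit 11) (.e (nat_lit 426316) (nat_lit 12) (.e (nat_lit 475212) (nat_lit 42) (.e (nat_lit 720933) (nat_lit 21) (.e (nat_lit 57846) (nat_lit 252) .nil)))))) (.g (nat_lit 4) .nil .nil))))) (.nd (nat_lit 4) (.nd (nat_lit 5) 
(.lf (nat_lit 159693) (.g (nat_lit 3119) (.e (nat_lit 57435) (nat_lit 17) (.e (nat_lit 376842) (nat_lit 11) (.e (nat_lit 426314) (nat_lit 12) (.e (nat_lit 475214) (nat_lit 42) (.e (nat_lit 720934) (nat_lit 21) (.e (nat_lit 57852) (nat_lit 252) .nil)))))) (.g (nat_lit 4) .nil .nil))) 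
(.lf (nat_lit 159725) (.g (nat_lit 2715) (.e (nat_lit 57435) (nat_lit 17) (.e (nat_lit 376842) (nat_lit 11) (.e (nat_lit 426316) (nat_lit 12) (.e (nat_lit 475212) (nat_lit 42) (.e (nat_lit 720929) (nat_lit 21) (.e (nat_lit 57849) (nat_lit 252) .nil)))))) (.g (nat_lit 4) .nil .nil)))) (.nd (nat_lit 5) 
(.lf (nat_lit 159709) (.g (nat_lit 3136) (.e (nat_lit 57435) (nat_lit 17) (.e (nat_lit 376842) (nat_lit 11) (.e (nat_lit 426315) (nat_lit 12) (.e (nat_lit 475214) (nat_lit 42) (.e (nat_lit 720931) (nat_lit 21) (.e (nat_lit 57854) (nat_lit 252) .nil)))))) (.g (nat_lit 0) .nil .nil))) 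
(.lf (nat_lit 159741) (.g (nat_lit 3307) (.e (nat_lit 57435) (nat_lit 17) (.e (nat_lit 376842) (nat_lit 11) (.e (nat_lit 426316) (nat_lit 12) (.e (nat_lit 475214) (nat_lit 42) (.e (nat_lit 720929) (nat_lit 21) (.e (nat_lit 57847) (nat_lit 252) .nil)))))) (.g (nat_lit 0) .nil .nil))))))) (.nd (nat_lit 2) (.nd (nat_lit 3) (.nd (nat_lit 4) (.nd (nat_lit 5) 
(.lf (nat_lit 159683) (.g (nat_lit 1082) (.e (nat_lit 57435) (nat_lit 17) (.e (nat_lit 376842) (nat_lit 11) (.e (nat_lit 426314) (nat_lit 12) (.e (nat_lit 475213) (nat_lit 42) .nil)))) .nil)) 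
(.lf (nat_lit 159715) (.g (nat_lit 2548) (.e (nat_lit 57435) (nat_lit 17) (.e (nat_lit 376842) (nat_lit 11) (.e (nat_lit 426315) (nat_lit 12) (.e (nat_lit 475214) (nat_lit 42) (.e (nat_lit 720932) (nat_lit 21) (.e (nat_lit 57854) (nat_lit 252) .nil)))))) (.g (nat_lit 4) .nil .nil)))) (.nd (nat_lit 5) 
(.lf (nat_lit 159699) (.g (nat_lit 2613) (.e (nat_lit 57435) (nat_lit 17) (.e (nat_lit 376842) (nat_lit 11) (.e (nat_lit 426315) (nat_lit 12) (.e (nat_lit 475212) (nat_lit 42) (.e (nat_lit 720933) (nat_lit 21) (.e (nat_lit 57844) (nat_lit 252) .nil)))))) (.g (nat_lit 5) .nil .nil))) 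
(.lf (nat_lit 159731) (.g (nat_lit 2722) (.e (nat_lit 57435) (nat_lit 17) (.e (nat_lit 376842) (nat_lit 11) (.e (nat_lit 426316) (nat_lit 12) (.e (nat_lit 475212) (nat_lit 42) (.e (nat_lit 720931) (nat_lit 21) (.e (nat_lit 57854) (nat_lit 252) .nil)))))) (.g (nat_lit 4) .nil .nil))))) (.nd (nat_lit 4) (.nd (nat_lit 5) 
(.lf (nat_lit 159691) (.g (nat_lit 3466) (.e (nat_lit 57435) (nat_lit 17) (.e (nat_lit 376842) (nat_lit 11) (.e (nat_lit 426314) (nat_lit 12) (.e (nat_lit 475214) (nat_lit 42) (.e (nat_lit 720933) (nat_lit 21) (.e (nat_lit 57847) (nat_lit 252) .nil)))))) (.g (nat_lit 4) .nil .nil))) 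
(.lf (nat_lit 159723) (.g (nat_lit 2062) (.e (nat_lit 57435) (nat_lit 17) (.e (nat_lit 376842) (nat_lit 11) (.e (nat_lit 426316) (nat_lit 12) (.e (nat_lit 475197) (nat_lit 40) (.e (nat_lit 704612) (nat_lit 9) .nil))))) .nil))) (.nd (nat_lit 5) 
(.lf (nat_lit 159707) (.g (nat_lit 2899) (.e (nat_lit 57435) (nat_lit 17) (.e (nat_lit 376842) (nat_lit 11) (.e (nat_lit 426315) (nat_lit 12) (.e (nat_lit 475214) (nat_lit 42) (.e (nat_lit 720931) (nat_lit 21) (.e (nat_lit 57851) (nat_lit 252) .nil)))))) (.g (nat_lit 6) .nil .nil))) 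
(.lf (nat_lit 159739) (.g (nat_lit 2394) (.e (nat_lit 57435) (nat_lit 17) (.e (nat_lit 376842) (nat_lit 11) (.e (nat_lit 426316) (nat_lit 12) (.e (nat_lit 475213) (nat_lit 42) (.e (nat_lit 720931) (nat_lit 21) (.e (nat_lit 57852) (nat_lit 252) .nil)))))) (.g (nat_lit 4) .nil .nil)))))) (.nd (nat_lit 3) (.nd (nat_lit 4) (.nd (nat_lit 5) 
(.lf (nat_lit 159687) (.g (nat_lit 3415) (.e (nat_lit 57435) (nat_lit 17) (.e (nat_lit 376842) (nat_lit 11) (.e (nat_lit 426314) (nat_lit 12) (.e (nat_lit 475214) (nat_lit 42) (.e (nat_lit 720931) (nat_lit 21) (.e (nat_lit 57852) (nat_lit 252) .nil)))))) (.g (nat_lit 6) .nil .nil))) 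
(.lf (nat_lit 159719) (.g (nat_lit 2473) (.e (nat_lit 57435) (nat_lit 17) (.e (nat_lit 376842) (nat_lit 11) (.e (nat_lit 426315) (nat_lit 12) (.e (nat_lit 475214) (nat_lit 42) (.e (nat_lit 720933) (nat_lit 21) (.e (nat_lit 57849) (nat_lit 252) .nil)))))) (.g (nat_lit 4) .nil .nil)))) (.nd (nat_lit 5) 
(.lf (nat_lit 159703) (.g (nat_lit 3254) (.e (nat_lit 57435) (nat_lit 17) (.e (nat_lit 376842) (nat_lit 11) (.e (nat_lit 426315) (nat_lit 12) (.e (nat_lit 475214) (nat_lit 42) (.e (nat_lit 720929) (nat_lit 21) (.e (nat_lit 57847) (nat_lit 252) .nil)))))) (.g (nat_lit 0) .nil .nil))) 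
(.lf (nat_lit 159735) (.g (nat_lit 2646) (.e (nat_lit 57435) (nat_lit 17) (.e (nat_lit 376842) (nat_lit 11) (.e (nat_lit 426316) (nat_lit 12) (.e (nat_lit 475212) (nat_lit 42) (.e (nat_lit 720933) (nat_lit 21) (.e (nat_lit 57849) (nat_lit 252) .nil)))))) (.g (nat_lit 4) .nil .nil))))) (.nd (nat_lit 4) (.nd (nat_lit 5) 
(.lf (nat_lit 159695) (.g (nat_lit 423) (.e (nat_lit 57435) (nat_lit 17) (.e (nat_lit 376842) (nat_lit 11) (.e (nat_lit 426315) (nat_lit 12) .nil))) .nil)) 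
(.lf (nat_lit 159727) (.g (nat_lit 2690) (.e (nat_lit 57435) (nat_lit 17) (.e (nat_lit 376842) (nat_lit 11) (.e (nat_lit 426316) (nat_lit 12) (.e (nat_lit 475212) (nat_lit 42) (.e (nat_lit 720930) (nat_lit 21) (.e (nat_lit 57852) (nat_lit 252) .nil)))))) (.g (nat_lit 4) .nil .nil)))) (.nd (nat_lit 5) 
(.lf (nat_lit 159711) (.g (nat_lit 2752) (.e (nat_lit 57435) (nat_lit 17) (.e (nat_lit 376842) (nat_lit 11) (.e (nat_lit 426315) (nat_lit 12) (.e (nat_lit 475214) (nat_lit 42) (.e (nat_lit 720932) (nat_lit 21) (.e (nat_lit 57846) (nat_lit 252) .nil)))))) (.g (nat_lit 4) .nil .nil))) 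
(.lf (nat_lit 159743) (.g (nat_lit 2929) (.e (nat_lit 57435) (nat_lit 17) (.e (nat_lit 376842) (nat_lit 11) (.e (nat_lit 426316) (nat_lit 12) (.e (nat_lit 475214) (nat_lit 42) (.e (nat_lit 720930) (nat_lit 21) (.e (nat_lit 57852) (nat_lit 252) .nil)))))) (.g (nat_lit 0) .nil .nil)))))))))

noncomputable def tv2138 : DT := (.nd (nat_lit 0) (.nd (nat_lit 1) (.nd (nat_lit 2) (.nd (nat_lit 3) (.nd (nat_lit 4) (.nd (nat_lit 5) 
(.lf (nat_lit 159744) (.g (nat_lit 2976) (.e (nat_lit 57435) (nat_lit 17) (.e (nat_lit 376842) (nat_lit 11) (.e (nat_lit 426316) (nat_lit 12) (.e (nat_lit 475214) (nat_lit 42) (.e (nat_lit 720930) (nat_lit 21) (.e (nat_lit 57854) (nat_lit 252) .nil)))))) (.g (nat_lit 0) .nil .nil))) 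
(.lf (nat_lit 159776) (.g (nat_lit 2458) (.e (nat_lit 57435) (nat_lit 17) (.e (nat_lit 376842) (nat_lit 11) (.e (nat_lit 426344) (nat_lit 14) (.e (nat_lit 491560) (nat_lit 10) (.e (nat_lit 344095) (nat_lit 18) .nil))))) .nil))) (.nd (nat_lit 5) 
(.lf (nat_lit 159760) (.g (nat_lit 1053) (.e (nat_lit 57435) (nat_lit 17) (.e (nat_lit 376842) (nat_lit 11) (.e (nat_lit 426341) (nat_lit 14) (.e (nat_lit 491560) (nat_lit 10) .nil)))) .nil)) 
(.lf (nat_lit 159792) (.g (nat_lit 2007) (.e (nat_lit 57436) (nat_lit 17) (.e (nat_lit 376838) (nat_lit 11) (.e (nat_lit 426172) (nat_lit 7) (.e (nat_lit 409649) (nat_lit 18) (.e (nat_lit 303114) (nat_lit 1) (.e (nat_lit 164177) (nat_lit 154) .nil)))))) (.g (nat_lit 4) .nil .nil))))) (.nd (nat_lit 4) (.nd (nat_lit 5) 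
(.lf (nat_lit 159752) (.g (nat_lit 1930) (.e (nat_lit 57435) (nat_lit 17) (.e (nat_lit 376842) (nat_lit 11) (.e (nat_lit 426316) (nat_lit 12) (.e (nat_lit 475214) (nat_lit 42) (.e (nat_lit 720933) (nat_lit 21) (.e (nat_lit 57848) (nat_lit 252) .nil)))))) (.g (nat_lit 4) .nil .nil))) 
(.lf (nat_lit 159784) (.g (nat_lit 169) (.e (nat_lit 57436) (nat_lit 17) (.e (nat_lit 376835) (nat_lit 0) (.e (nat_lit 3746) (nat_lit 228) .nil))) .nil))) (.nd (nat_lit 5) 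
(.lf (nat_lit 159768) (.g (nat_lit 2951) (.e (nat_lit 57435) (nat_lit 17) (.e (nat_lit 376842) (nat_lit 11) (.e (nat_lit 426343) (nat_lit 14) (.e (nat_lit 491546) (nat_lit 9) (.e (nat_lit 335997) (nat_lit 1) (.e (nat_lit 65280) (nat_lit 154) .nil)))))) (.g (nat_lit 4) .nil .nil))) 
(.lf (nat_lit 159800) (.g (nat_lit 1313) (.e (nat_lit 57436) (nat_lit 17) (.e (nat_lit 376838) (nat_lit 11) (.e (nat_lit 426187) (nat_lit 9) (.e (nat_lit 426448) (nat_lit 20) (.e (nat_lit 114712) (nat_lit 21) .nil))))) .nil))))) (.nd (nat_lit 3) (.nd (nat_lit 4) (.nd (nat_lit 5) 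
(.lf (nat_lit 159748) (.g (nat_lit 2025) (.e (nat_lit 57435) (nat_lit 17) (.e (nat_lit 376842) (nat_lit 11) (.e (nat_lit 426316) (nat_lit 12) (.e (nat_lit 475214) (nat_lit 42) (.e (nat_lit 720932) (nat_lit 21) (.e (nat_lit 57851) (nat_lit 252) .nil)))))) (.g (nat_lit 4) .nil .nil))) 
(.lf (nat_lit 159780) (.g (nat_lit 1415) (.e (nat_lit 57435) (nat_lit 17) (.e (nat_lit 376862) (nat_lit 22) (.e (nat_lit 90158) (nat_lit 11) (.e (nat_lit 24599) (nat_lit 1) .nil)))) .nil))) (.nd (nat_lit 5) 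
(.lf (nat_lit 159764) (.g (nat_lit 2487) (.e (nat_lit 57435) (nat_lit 17) (.e (nat_lit 376842) (nat_lit 11) (.e (nat_lit 426341) (nat_lit 14) (.e (nat_lit 491560) (nat_lit 10) (.e (nat_lit 344095) (nat_lit 18) (.e (nat_lit 7261) (nat_lit 384) .nil)))))) (.g (nat_lit 4) .nil .nil))) 
(.lf (nat_lit 159796) (.g (nat_lit 1574) (.e (nat_lit 57436) (nat_lit 17) (.e (nat_lit 376838) (nat_lit 11) (.e (nat_lit 426187) (nat_lit 9) (.e (nat_lit 426446) (nat_lit 20) (.e (nat_lit 114712) (nat_lit 21) (.e (nat_lit 57853) (nat_lit 252) .nil)))))) (.g (nat_lit 4) .nil .nil))))) (.nd (nat_lit 4) (.nd (nat_lit 5) 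
(.lf (nat_lit 159756) (.g (nat_lit 2148) (.e (nat_lit 57435) (nat_lit 17) (.e (nat_lit 376842) (nat_lit 11) (.e (nat_lit 426338) (nat_lit 14) (.e (nat_lit 491558) (nat_lit 10) (.e (nat_lit 344096) (nat_lit 18) .nil))))) .nil)) 
(.lf (nat_lit 159788) (.g (nat_lit 2883) (.e (nat_lit 57436) (nat_lit 17) (.e (nat_lit 376838) (nat_lit 11) (.e (nat_lit 426172) (nat_lit 7) (.e (nat_lit 409647) (nat_lit 18) (.e (nat_lit 303115) (nat_lit 1) (.e (nat_lit 164179) (nat_lit 154) .nil)))))) (.g (nat_lit 6) .nil .nil)))) (.nd (nat_lit 5) 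
(.lf (nat_lit 159772) (.g (nat_lit 3212) (.e (nat_lit 57435) (nat_lit 17) (.e (nat_lit 376842) (nat_lit 11) (.e (nat_lit 426343) (nat_lit 14) (.e (nat_lit 491560) (nat_lit 10) (.e (nat_lit 344096) (nat_lit 18) (.e (nat_lit 7261) (nat_lit 384) .nil)))))) (.g (nat_lit 5) .nil .nil))) 
(.lf (nat_lit 159804) (.g (nat_lit 1591) (.e (nat_lit 57436) (nat_lit 17) (.e (nat_lit 376838) (nat_lit 11) (.e (nat_lit 426190) (nat_lit 9) (.e (nat_lit 426446) (nat_lit 20) (.e (nat_lit 114710) (nat_lit 21) (.e (nat_lit 57851) (nat_lit 252) .nil)))))) (.g (nat_lit 4) .nil .nil))))))) (.nd (nat_lit 2) (.nd (nat_lit 3) (.nd (nat_lit 4) (.nd (nat_lit 5) 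
(.lf (nat_lit 159746) (.g (nat_lit 3249) (.e (nat_lit 57435) (nat_lit 17) (.e (nat_lit 376842) (nat_lit 11) (.e (nat_lit 426316) (nat_lit 12) (.e (nat_lit 475214) (nat_lit 42) (.e (nat_lit 720931) (nat_lit 21) (.e (nat_lit 57852) (nat_lit 252) .nil)))))) (.g (nat_lit 0) .nil .nil))) 
(.lf (nat_lit 159778) (.g (nat_lit 3345) (.e (nat_lit 57435) (nat_lit 17) (.e (nat_lit 376857) (nat_lit 21) (.e (nat_lit 57681) (nat_lit 155) (.e (nat_lit 122919) (nat_lit 15) (.e (nat_lit 360451) (nat_lit 0) (.e (nat_lit 7265) (nat_lit 384) .nil)))))) (.g (nat_lit 5) .nil .nil)))) (.nd (nat_lit 5) 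
(.lf (nat_lit 159762) (.g (nat_lit 3241) (.e (nat_lit 57435) (nat_lit 17) (.e (nat_lit 376842) (nat_lit 11) (.e (nat_lit 426341) (nat_lit 14) (.e (nat_lit 491560) (nat_lit 10) (.e (nat_lit 344090) (nat_lit 18) (.e (nat_lit 7265) (nat_lit 384) .nil)))))) (.g (nat_lit 5) .nil .nil))) 
(.lf (nat_lit 159794) (.g (nat_lit 3072) (.e (nat_lit 57436) (nat_lit 17) (.e (nat_lit 376838) (nat_lit 11) (.e (nat_lit 426172) (nat_lit 7) (.e (nat_lit 409649) (nat_lit 18) (.e (nat_lit 303115) (nat_lit 1) (.e (nat_lit 164179) (nat_lit 154) .nil)))))) (.g (nat_lit 6) .nil .nil))))) (.nd (nat_lit 4) (.nd (nat_lit 5) 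
(.lf (nat_lit 159754) (.g (nat_lit 585) (.e (nat_lit 57435) (nat_lit 17) (.e (nat_lit 376842) (nat_lit 11) (.e (nat_lit 426338) (nat_lit 14) .nil))) .nil)) 
(.lf (nat_lit 159786) (.g (nat_lit 2981) (.e (nat_lit 57436) (nat_lit 17) (.e (nat_lit 376838) (nat_lit 11) (.e (nat_lit 426166) (nat_lit 7) (.e (nat_lit 409645) (nat_lit 18) (.e (nat_lit 303115) (nat_lit 1) (.e (nat_lit 164179) (nat_lit 154) .nil)))))) (.g (nat_lit 6) .nil .nil)))) (.nd (nat_lit 5) 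
(.lf (nat_lit 159770) (.g (nat_lit 3513) (.e (nat_lit 57435) (nat_lit 17) (.e (nat_lit 376842) (nat_lit 11) (.e (nat_lit 426343) (nat_lit 14) (.e (nat_lit 491558) (nat_lit 10) (.e (nat_lit 344090) (nat_lit 18) (.e (nat_lit 7266) (nat_lit 384) .nil)))))) (.g (nat_lit 0) .nil .nil))) 
(.lf (nat_lit 159802) (.g (nat_lit 2445) (.e (nat_lit 57436) (nat_lit 17) (.e (nat_lit 376838) (nat_lit 11) (.e (nat_lit 426189) (nat_lit 9) (.e (nat_lit 426448) (nat_lit 20) (.e (nat_lit 114710) (nat_lit 21) (.e (nat_lit 57851) (nat_lit 252) .nil)))))) (.g (nat_lit 0) .nil .nil)))))) (.nd (nat_lit 3) (.nd (nat_lit 4) (.nd (nat_lit 5) 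
(.lf (nat_lit 159750) (.g (nat_lit 2192) (.e (nat_lit 57435) (nat_lit 17) (.e (nat_lit 376842) (nat_lit 11) (.e (nat_lit 426316) (nat_lit 12) (.e (nat_lit 475214) (nat_lit 42) (.e (nat_lit 720933) (nat_lit 21) (.e (nat_lit 57844) (nat_lit 252) .nil)))))) (.g (nat_lit 4) .nil .nil))) 
(.lf (nat_lit 159782) (.g (nat_lit 2103) (.e (nat_lit 57435) (nat_lit 17) (.e (nat_lit 376865) (nat_lit 22) (.e (nat_lit 90160) (nat_lit 11) (.e (nat_lit 24599) (nat_lit 1) (.e (nat_lit 57852) (nat_lit 252) .nil))))) .nil))) (.nd (nat_lit 5) 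
(.lf (nat_lit 159766) (.g (nat_lit 3118) (.e (nat_lit 57435) (nat_lit 17) (.e (nat_lit 376842) (nat_lit 11) (.e (nat_lit 426342) (nat_lit 14) (.e (nat_lit 491560) (nat_lit 10) (.e (nat_lit 344096) (nat_lit 18) (.e (nat_lit 7261) (nat_lit 384) .nil)))))) (.g (nat_lit 5) .nil .nil))) 
(.lf (nat_lit 159798) (.g (nat_lit 1817) (.e (nat_lit 57436) (nat_lit 17) (.e (nat_lit 376838) (nat_lit 11) (.e (nat_lit 426187) (nat_lit 9) (.e (nat_lit 426448) (nat_lit 20) (.e (nat_lit 114710) (nat_lit 21) (.e (nat_lit 57854) (nat_lit 252) .nil)))))) (.g (nat_lit 4) .nil .nil))))) (.nd (nat_lit 4) (.nd (nat_lit 5) 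
(.lf (nat_lit 159758) (.g (nat_lit 3449) (.e (nat_lit 57435) (nat_lit 17) (.e (nat_lit 376842) (nat_lit 11) (.e (nat_lit 426338) (nat_lit 14) (.e (nat_lit 491566) (nat_lit 12) (.e (nat_lit 385044) (nat_lit 21) .nil))))) .nil)) 
(.lf (nat_lit 159790) (.g (nat_lit 1872) (.e (nat_lit 57436) (nat_lit 17) (.e (nat_lit 376838) (nat_lit 11) (.e (nat_lit 426172) (nat_lit 7) (.e (nat_lit 409648) (nat_lit 18) (.e (nat_lit 303114) (nat_lit 1) (.e (nat_lit 164179) (nat_lit 154) .nil)))))) (.g (nat_lit 4) .nil .nil)))) (.nd (nat_lit 5) 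
(.lf (nat_lit 159774) (.g (nat_lit 2403) (.e (nat_lit 57435) (nat_lit 17) (.e (nat_lit 376842) (nat_lit 11) (.e (nat_lit 426344) (nat_lit 14) (.e (nat_lit 491560) (nat_lit 10) (.e (nat_lit 344087) (nat_lit 18) .nil))))) .nil)) 
(.lf (nat_lit 159806) (.g (nat_lit 1717) (.e (nat_lit 57436) (nat_lit 17) (.e (nat_lit 376838) (nat_lit 11) (.e (nat_lit 426190) (nat_lit 9) (.e (nat_lit 426448) (nat_lit 20) (.e (nat_lit 114710) (nat_lit 21) (.e (nat_lit 57847) (nat_lit 252) .nil)))))) (.g (nat_lit 4) .nil .nil)))))))) (.nd (nat_lit 1) (.nd (nat_lit 2) (.nd (nat_lit 3) (.nd (nat_lit 4) (.nd (nat_lit 5) 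
(.lf (nat_lit 159745) (.g (nat_lit 2968) (.e (nat_lit 57435) (nat_lit 17) (.e (nat_lit 376842) (nat_lit 11) (.e (nat_lit 426316) (nat_lit 12) (.e (nat_lit 475214) (nat_lit 42) (.e (nat_lit 720931) (nat_lit 21) (.e (nat_lit 57851) (nat_lit 252) .nil)))))) (.g (nat_lit 6) .nil .nil))) 
(.lf (nat_lit 159777) (.g (nat_lit 148) (.e (nat_lit 57435) (nat_lit 17) (.e (nat_lit 376855) (nat_lit 20) (.e (nat_lit 2000) (nat_lit 138) .nil))) .nil))) (.nd (nat_lit 5) 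
(.lf (nat_lit 159761) (.g (nat_lit 3325) (.e (nat_lit 57435) (nat_lit 17) (.e (nat_lit 376842) (nat_lit 11) (.e (nat_lit 426341) (nat_lit 14) (.e (nat_lit 491560) (nat_lit 10) (.e (nat_lit 344090) (nat_lit 18) (.e (nat_lit 7261) (nat_lit 384) .nil)))))) (.g (nat_lit 5) .nil .nil))) 
(.lf (nat_lit 159793) (.g (nat_lit 1213) (.e (nat_lit 57436) (nat_lit 17) (.e (nat_lit 376838) (nat_lit 11) (.e (nat_lit 426172) (nat_lit 7) (.e (nat_lit 409649) (nat_lit 18) (.e (nat_lit 303115) (nat_lit 1) .nil))))) .nil)))) (.nd (nat_lit 4) (.nd (nat_lit 5) 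
(.lf (nat_lit 159753) (.g (nat_lit 2333) (.e (nat_lit 57435) (nat_lit 17) (.e (nat_lit 376842) (nat_lit 11) (.e (nat_lit 426316) (nat_lit 12) (.e (nat_lit 475214) (nat_lit 42) (.e (nat_lit 720933) (nat_lit 21) (.e (nat_lit 57849) (nat_lit 252) .nil)))))) (.g (nat_lit 4) .nil .nil))) 
(.lf (nat_lit 159785) (.g (nat_lit 1715) (.e (nat_lit 57436) (nat_lit 17) (.e (nat_lit 376838) (nat_lit 11) (.e (nat_lit 426011) (nat_lit 0) (.e (nat_lit 7591) (nat_lit 407) (.e (nat_lit 73729) (nat_lit 0) .nil))))) .nil))) (.nd (nat_lit 5) 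
(.lf (nat_lit 159769) (.g (nat_lit 2916) (.e (nat_lit 57435) (nat_lit 17) (.e (nat_lit 376842) (nat_lit 11) (.e (nat_lit 426343) (nat_lit 14) (.e (nat_lit 491558) (nat_lit 10) (.e (nat_lit 344090) (nat_lit 18) (.e (nat_lit 7265) (nat_lit 384) .nil)))))) (.g (nat_lit 5) .nil .nil))) 
(.lf (nat_lit 159801) (.g (nat_lit 1544) (.e (nat_lit 57436) (nat_lit 17) (.e (nat_lit 376838) (nat_lit 11) (.e (nat_lit 426189) (nat_lit 9) (.e (nat_lit 426448) (nat_lit 20) (.e (nat_lit 114710) (nat_lit 21) (.e (nat_lit 57848) (nat_lit 252) .nil)))))) (.g (nat_lit 4) .nil .nil)))))) (.nd (nat_lit 3) (.nd (nat_lit 4) (.nd (nat_lit 5) 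
(.lf (nat_lit 159749) (.g (nat_lit 2075) (.e (nat_lit 57435) (nat_lit 17) (.e (nat_lit 376842) (nat_lit 11) (.e (nat_lit 426316) (nat_lit 12) (.e (nat_lit 475214) (nat_lit 42) (.e (nat_lit 720932) (nat_lit 21) (.e (nat_lit 57853) (nat_lit 252) .nil)))))) (.g (nat_lit 4) .nil .nil))) 
(.lf (nat_lit 159781) (.g (nat_lit 1606) (.e (nat_lit 57435) (nat_lit 17) (.e (nat_lit 376865) (nat_lit 22) (.e (nat_lit 90158) (nat_lit 11) (.e (nat_lit 24599) (nat_lit 1) .nil)))) .nil))) (.nd (nat_lit 5) 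
(.lf (nat_lit 159765) (.g (nat_lit 2748) (.e (nat_lit 57435) (nat_lit 17) (.e (nat_lit 376842) (nat_lit 11) (.e (nat_lit 426342) (nat_lit 14) (.e (nat_lit 491560) (nat_lit 10) (.e (nat_lit 344095) (nat_lit 18) (.e (nat_lit 7261) (nat_lit 384) .nil)))))) (.g (nat_lit 4) .nil .nil))) 
(.lf (nat_lit 159797) (.g (nat_lit 2289) (.e (nat_lit 57436) (nat_lit 17) (.e (nat_lit 376838) (nat_lit 11) (.e (nat_lit 426187) (nat_lit 9) (.e (nat_lit 426448) (nat_lit 20) (.e (nat_lit 114710) (nat_lit 21) (.e (nat_lit 57851) (nat_lit 252) .nil)))))) (.g (nat_lit 5) .nil .nil))))) (.nd (nat_lit 4) (.nd (nat_lit 5) 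
(.lf (nat_lit 159757) (.g (nat_lit 3430) (.e (nat_lit 57435) (nat_lit 17) (.e (nat_lit 376842) (nat_lit 11) (.e (nat_lit 426338) (nat_lit 14) (.e (nat_lit 491566) (nat_lit 12) (.e (nat_lit 385043) (nat_lit 21) (.e (nat_lit 4523) (nat_lit 265) .nil)))))) (.g (nat_lit 4) .nil .nil))) 
(.lf (nat_lit 159789) (.g (nat_lit 2086) (.e (nat_lit 57436) (nat_lit 17) (.e (nat_lit 376838) (nat_lit 11) (.e (nat_lit 426172) (nat_lit 7) (.e (nat_lit 409648) (nat_lit 18) (.e (nat_lit 303114) (nat_lit 1) (.e (nat_lit 164177) (nat_lit 154) .nil)))))) (.g (nat_lit 5) .nil .nil)))) (.nd (nat_lit 5) 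
(.lf (nat_lit 159773) (.g (nat_lit 3104) (.e (nat_lit 57435) (nat_lit 17) (.e (nat_lit 376842) (nat_lit 11) (.e (nat_lit 426343) (nat_lit 14) (.e (nat_lit 491560) (nat_lit 10) (.e (nat_lit 344096) (nat_lit 18) (.e (nat_lit 7265) (nat_lit 384) .nil)))))) (.g (nat_lit 5) .nil .nil))) 
(.lf (nat_lit 159805) (.g (nat_lit 1545) (.e (nat_lit 57436) (nat_lit 17) (.e (nat_lit 376838) (nat_lit 11) (.e (nat_lit 426190) (nat_lit 9) (.e (nat_lit 426446) (nat_lit 20) (.e (nat_lit 114712) (nat_lit 21) (.e (nat_lit 57853) (nat_lit 252) .nil)))))) (.g (nat_lit 4) .nil .nil))))))) (.nd (nat_lit 2) (.nd (nat_lit 3) (.nd (nat_lit 4) (.nd (nat_lit 5) 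
(.lf (nat_lit 159747) (.g (nat_lit 3175) (.e (nat_lit 57435) (nat_lit 17) (.e (nat_lit 376842) (nat_lit 11) (.e (nat_lit 426316) (nat_lit 12) (.e (nat_lit 475214) (nat_lit 42) (.e (nat_lit 720931) (nat_lit 21) (.e (nat_lit 57854) (nat_lit 252) .nil)))))) (.g (nat_lit 0) .nil .nil))) 
(.lf (nat_lit 159779) (.g (nat_lit 2220) (.e (nat_lit 57435) (nat_lit 17) (.e (nat_lit 376859) (nat_lit 21) (.e (nat_lit 57681) (nat_lit 155) (.e (nat_lit 122919) (nat_lit 15) (.e (nat_lit 360451) (nat_lit 0) .nil))))) .nil))) (.nd (nat_lit 5) 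
(.lf (nat_lit 159763) (.g (nat_lit 2743) (.e (nat_lit 57435) (nat_lit 17) (.e (nat_lit 376842) (nat_lit 11) (.e (nat_lit 426341) (nat_lit 14) (.e (nat_lit 491560) (nat_lit 10) (.e (nat_lit 344091) (nat_lit 18) (.e (nat_lit 7265) (nat_lit 384) .nil)))))) (.g (nat_lit 4) .nil .nil))) 
(.lf (nat_lit 159795) (.g (nat_lit 1590) (.e (nat_lit 57436) (nat_lit 17) (.e (nat_lit 376838) (nat_lit 11) (.e (nat_lit 426187) (nat_lit 9) (.e (nat_lit 426446) (nat_lit 20) (.e (nat_lit 114710) (nat_lit 21) (.e (nat_lit 57851) (nat_lit 252) .nil)))))) (.g (nat_lit 4) .nil .nil))))) (.nd (nat_lit 4) (.nd (nat_lit 5) 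
(.lf (nat_lit 159755) (.g (nat_lit 2160) (.e (nat_lit 57435) (nat_lit 17) (.e (nat_lit 376842) (nat_lit 11) (.e (nat_lit 426338) (nat_lit 14) (.e (nat_lit 491558) (nat_lit 10) (.e (nat_lit 344091) (nat_lit 18) .nil))))) .nil)) 
(.lf (nat_lit 159787) (.g (nat_lit 2875) (.e (nat_lit 57436) (nat_lit 17) (.e (nat_lit 376838) (nat_lit 11) (.e (nat_lit 426172) (nat_lit 7) (.e (nat_lit 409644) (nat_lit 18) (.e (nat_lit 303115) (nat_lit 1) (.e (nat_lit 164179) (nat_lit 154) .nil)))))) (.g (nat_lit 6) .nil .nil)))) (.nd (nat_lit 5) 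
(.lf (nat_lit 159771) (.g (nat_lit 3632) (.e (nat_lit 57435) (nat_lit 17) (.e (nat_lit 376842) (nat_lit 11) (.e (nat_lit 426343) (nat_lit 14) (.e (nat_lit 491560) (nat_lit 10) (.e (nat_lit 344090) (nat_lit 18) (.e (nat_lit 7261) (nat_lit 384) .nil)))))) (.g (nat_lit 0) .nil .nil))) 
(.lf (nat_lit 159803) (.g (nat_lit 1509) (.e (nat_lit 57436) (nat_lit 17) (.e (nat_lit 376838) (nat_lit 11) (.e (nat_lit 426189) (nat_lit 9) (.e (nat_lit 426448) (nat_lit 20) (.e (nat_lit 114712) (nat_lit 21) (.e (nat_lit 57854) (nat_lit 252) .nil)))))) (.g (nat_lit 4) .nil .nil)))))) (.nd (nat_lit 3) (.nd (nat_lit 4) (.nd (nat_lit 5) 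
(.lf (nat_lit 159751) (.g (nat_lit 3171) (.e (nat_lit 57435) (nat_lit 17) (.e (nat_lit 376842) (nat_lit 11) (.e (nat_lit 426316) (nat_lit 12) (.e (nat_lit 475214) (nat_lit 42) (.e (nat_lit 720933) (nat_lit 21) (.e (nat_lit 57847) (nat_lit 252) .nil)))))) (.g (nat_lit 6) .nil .nil))) 
(.lf (nat_lit 159783) (.g (nat_lit 1671) (.e (nat_lit 57435) (nat_lit 17) (.e (nat_lit 376865) (nat_lit 22) (.e (nat_lit 90160) (nat_lit 11) (.e (nat_lit 32512) (nat_lit 20) .nil)))) .nil))) (.nd (nat_lit 5) 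
(.lf (nat_lit 159767) (.g (nat_lit 3028) (.e (nat_lit 57435) (nat_lit 17) (.e (nat_lit 376842) (nat_lit 11) (.e (nat_lit 426342) (nat_lit 14) (.e (nat_lit 491560) (nat_lit 10) (.e (nat_lit 344096) (nat_lit 18) (.e (nat_lit 7265) (nat_lit 384) .nil)))))) (.g (nat_lit 5) .nil .nil))) 
(.lf (nat_lit 159799) (.g (nat_lit 1889) (.e (nat_lit 57436) (nat_lit 17) (.e (nat_lit 376838) (nat_lit 11) (.e (nat_lit 426187) (nat_lit 9) (.e (nat_lit 426448) (nat_lit 20) (.e (nat_lit 114711) (nat_lit 21) (.e (nat_lit 57853) (nat_lit 252) .nil)))))) (.g (nat_lit 4) .nil .nil))))) (.nd (nat_lit 4) (.nd (nat_lit 5) 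
(.lf (nat_lit 159759) (.g (nat_lit 3654) (.e (nat_lit 57435) (nat_lit 17) (.e (nat_lit 376842) (nat_lit 11) (.e (nat_lit 426338) (nat_lit 14) (.e (nat_lit 491566) (nat_lit 12) (.e (nat_lit 385045) (nat_lit 21) (.e (nat_lit 4523) (nat_lit 265) .nil)))))) (.g (nat_lit 4) .nil .nil))) 
(.lf (nat_lit 159791) (.g (nat_lit 3086) (.e (nat_lit 57436) (nat_lit 17) (.e (nat_lit 376838) (nat_lit 11) (.e (nat_lit 426172) (nat_lit 7) (.e (nat_lit 409648) (nat_lit 18) (.e (nat_lit 303115) (nat_lit 1) (.e (nat_lit 164179) (nat_lit 154) .nil)))))) (.g (nat_lit 6) .nil .nil)))) (.nd (nat_lit 5) 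
(.lf (nat_lit 159775) (.g (nat_lit 2642) (.e (nat_lit 57435) (nat_lit 17) (.e (nat_lit 376842) (nat_lit 11) (.e (nat_lit 426344) (nat_lit 14) (.e (nat_lit 491560) (nat_lit 10) (.e (nat_lit 344089) (nat_lit 18) .nil))))) .nil)) 
(.lf (nat_lit 159807) (.g (nat_lit 2280) (.e (nat_lit 57436) (nat_lit 17) (.e (nat_lit 376838) (nat_lit 11) (.e (nat_lit 426190) (nat_lit 9) (.e (nat_lit 426448) (nat_lit 20) (.e (nat_lit 114710) (nat_lit 21) (.e (nat_lit 57851) (nat_lit 252) .nil)))))) (.g (nat_lit 5) .nil .nil)))))))))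

noncomputable def tv2139 : DT := (.nd (nat_lit 0) (.nd (nat_lit 1) (.nd (nat_lit 2) (.nd (nat_lit 3) (.nd (nat_lit 4) (.nd (nat_lit 5) 
(.lf (nat_lit 159808) (.g (nat_lit 1808) (.e (nat_lit 57436) (nat_lit 17) (.e (nat_lit 376838) (nat_lit 11) (.e (nat_lit 426190) (nat_lit 9) (.e (nat_lit 426448) (nat_lit 20) (.e (nat_lit 114710) (nat_lit 21) (.e (nat_lit 57854) (nat_lit 252) .nil)))))) (.g (nat_lit 4) .nil .nil))) 
(.lf (nat_lit 159840) (.g (nat_lit 3101) (.e (nat_lit 57436) (nat_lit 17) (.e (nat_lit 376842) (nat_lit 11) (.e (nat_lit 426009) (nat_lit 0) (.e (nat_lit 7593) (nat_lit 407) (.e (nat_lit 73729) (nat_lit 0) (.e (nat_lit 7266) (nat_lit 384) .nil)))))) (.g (nat_lit 0) .nil .nil)))) (.nd (nat_lit 5) 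
(.lf (nat_lit 159824) (.g (nat_lit 1070) (.e (nat_lit 57436) (nat_lit 17) (.e (nat_lit 376838) (nat_lit 11) (.e (nat_lit 426342) (nat_lit 14) (.e (nat_lit 491558) (nat_lit 10) (.e (nat_lit 344090) (nat_lit 18) .nil))))) .nil)) 
(.lf (nat_lit 159856) (.g (nat_lit 819) (.e (nat_lit 57436) (nat_lit 17) (.e (nat_lit 376842) (nat_lit 11) (.e (nat_lit 426016) (nat_lit 0) .nil))) .nil)))) (.nd (nat_lit 4) (.nd (nat_lit 5) 
(.lf (nat_lit 159816) (.g (nat_lit 1680) (.e (nat_lit 57436) (nat_lit 17) (.e (nat_lit 376838) (nat_lit 11) (.e (nat_lit 426307) (nat_lit 12) (.e (nat_lit 475214) (nat_lit 42) (.e (nat_lit 720934) (nat_lit 21) (.e (nat_lit 57851) (nat_lit 252) .nil)))))) (.g (nat_lit 4) .nil .nil))) 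
(.lf (nat_lit 159848) (.g (nat_lit 1065) (.e (nat_lit 57436) (nat_lit 17) (.e (nat_lit 376842) (nat_lit 11) (.e (nat_lit 426011) (nat_lit 0) (.e (nat_lit 7593) (nat_lit 407) .nil)))) .nil))) (.nd (nat_lit 5) 
(.lf (nat_lit 159832) (.g (nat_lit 2009) (.e (nat_lit 57436) (nat_lit 17) (.e (nat_lit 376840) (nat_lit 11) (.e (nat_lit 426230) (nat_lit 9) (.e (nat_lit 426445) (nat_lit 20) (.e (nat_lit 114712) (nat_lit 21) (.e (nat_lit 57852) (nat_lit 252) .nil)))))) (.g (nat_lit 0) .nil .nil))) 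
(.lf (nat_lit 159864) (.g (nat_lit 807) (.e (nat_lit 57436) (nat_lit 17) (.e (nat_lit 376842) (nat_lit 11) (.e (nat_lit 426053) (nat_lit 0) .nil))) .nil))))) (.nd (nat_lit 3) (.nd (nat_lit 4) (.nd (nat_lit 5) 
(.lf (nat_lit 159812) (.g (nat_lit 1326) (.e (nat_lit 57436) (nat_lit 17) (.e (nat_lit 376838) (nat_lit 11) (.e (nat_lit 426307) (nat_lit 12) (.e (nat_lit 475212) (nat_lit 42) (.e (nat_lit 720930) (nat_lit 21) (.e (nat_lit 57854) (nat_lit 252) .nil)))))) (.g (nat_lit 4) .nil .nil))) 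
(.lf (nat_lit 159844) (.g (nat_lit 3288) (.e (nat_lit 57436) (nat_lit 17) (.e (nat_lit 376842) (nat_lit 11) (.e (nat_lit 426010) (nat_lit 0) (.e (nat_lit 7593) (nat_lit 407) (.e (nat_lit 73729) (nat_lit 0) (.e (nat_lit 7266) (nat_lit 384) .nil)))))) (.g (nat_lit 0) .nil .nil)))) (.nd (nat_lit 5) 
(.lf (nat_lit 159828) (.g (nat_lit 1670) (.e (nat_lit 57436) (nat_lit 17) (.e (nat_lit 376838) (nat_lit 11) (.e (nat_lit 426342) (nat_lit 14) (.e (nat_lit 491560) (nat_lit 10) (.e (nat_lit 344094) (nat_lit 18) (.e (nat_lit 7265) (nat_lit 384) .nil)))))) (.g (nat_lit 4) .nil .nil))) 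
(.lf (nat_lit 159860) (.g (nat_lit 807) (.e (nat_lit 57436) (nat_lit 17) (.e (nat_lit 376842) (nat_lit 11) (.e (nat_lit 426030) (nat_lit 0) .nil))) .nil)))) (.nd (nat_lit 4) (.nd (nat_lit 5) 
(.lf (nat_lit 159820) (.g (nat_lit 1485) (.e (nat_lit 57436) (nat_lit 17) (.e (nat_lit 376838) (nat_lit 11) (.e (nat_lit 426308) (nat_lit 12) (.e (nat_lit 475212) (nat_lit 42) (.e (nat_lit 720934) (nat_lit 21) (.e (nat_lit 57854) (nat_lit 252) .nil)))))) (.g (nat_lit 4) .nil .nil))) 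
(.lf (nat_lit 159852) (.g (nat_lit 3076) (.e (nat_lit 57436) (nat_lit 17) (.e (nat_lit 376842) (nat_lit 11) (.e (nat_lit 426012) (nat_lit 0) (.e (nat_lit 7593) (nat_lit 407) (.e (nat_lit 73729) (nat_lit 0) (.e (nat_lit 7261) (nat_lit 384) .nil)))))) (.g (nat_lit 5) .nil .nil)))) (.nd (nat_lit 5) 
(.lf (nat_lit 159836) (.g (nat_lit 1744) (.e (nat_lit 57436) (nat_lit 17) (.e (nat_lit 376840) (nat_lit 11) (.e (nat_lit 426261) (nat_lit 9) (.e (nat_lit 426447) (nat_lit 20) (.e (nat_lit 114710) (nat_lit 21) (.e (nat_lit 57854) (nat_lit 252) .nil)))))) (.g (nat_lit 6) .nil .nil))) 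
(.lf (nat_lit 159868) (.g (nat_lit 808) (.e (nat_lit 57436) (nat_lit 17) (.e (nat_lit 376842) (nat_lit 11) (.e (nat_lit 426172) (nat_lit 7) .nil))) .nil)))))) (.nd (nat_lit 2) (.nd (nat_lit 3) (.nd (nat_lit 4) (.nd (nat_lit 5) 
(.lf (nat_lit 159810) (.g (nat_lit 1547) (.e (nat_lit 57436) (nat_lit 17) (.e (nat_lit 376838) (nat_lit 11) (.e (nat_lit 426190) (nat_lit 9) (.e (nat_lit 426448) (nat_lit 20) (.e (nat_lit 114712) (nat_lit 21) (.e (nat_lit 57853) (nat_lit 252) .nil)))))) (.g (nat_lit 4) .nil .nil))) 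
(.lf (nat_lit 159842) (.g (nat_lit 2845) (.e (nat_lit 57436) (nat_lit 17) (.e (nat_lit 376842) (nat_lit 11) (.e (nat_lit 426009) (nat_lit 0) (.e (nat_lit 7593) (nat_lit 407) (.e (nat_lit 73731) (nat_lit 0) (.e (nat_lit 7266) (nat_lit 384) .nil)))))) (.g (nat_lit 0) .nil .nil)))) (.nd (nat_lit 5) 
(.lf (nat_lit 159826) (.g (nat_lit 1750) (.e (nat_lit 57436) (nat_lit 17) (.e (nat_lit 376838) (nat_lit 11) (.e (nat_lit 426342) (nat_lit 14) (.e (nat_lit 491558) (nat_lit 10) (.e (nat_lit 344096) (nat_lit 18) (.e (nat_lit 7265) (nat_lit 384) .nil)))))) (.g (nat_lit 5) .nil .nil))) 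
(.lf (nat_lit 159858) (.g (nat_lit 695) (.e (nat_lit 57436) (nat_lit 17) (.e (nat_lit 376842) (nat_lit 11) (.e (nat_lit 426028) (nat_lit 0) .nil))) .nil)))) (.nd (nat_lit 4) (.nd (nat_lit 5) 
(.lf (nat_lit 159818) (.g (nat_lit 1535) (.e (nat_lit 57436) (nat_lit 17) (.e (nat_lit 376838) (nat_lit 11) (.e (nat_lit 426308) (nat_lit 12) (.e (nat_lit 475212) (nat_lit 42) (.e (nat_lit 720930) (nat_lit 21) (.e (nat_lit 57854) (nat_lit 252) .nil)))))) (.g (nat_lit 4) .nil .nil))) 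
(.lf (nat_lit 159850) (.g (nat_lit 2280) (.e (nat_lit 57436) (nat_lit 17) (.e (nat_lit 376842) (nat_lit 11) (.e (nat_lit 426012) (nat_lit 0) (.e (nat_lit 7591) (nat_lit 407) (.e (nat_lit 73730) (nat_lit 0) (.e (nat_lit 7261) (nat_lit 384) .nil)))))) (.g (nat_lit 4) .nil .nil)))) (.nd (nat_lit 5) 
(.lf (nat_lit 159834) (.g (nat_lit 1764) (.e (nat_lit 57436) (nat_lit 17) (.e (nat_lit 376840) (nat_lit 11) (.e (nat_lit 426230) (nat_lit 9) (.e (nat_lit 426445) (nat_lit 20) (.e (nat_lit 114712) (nat_lit 21) (.e (nat_lit 57854) (nat_lit 252) .nil)))))) (.g (nat_lit 6) .nil .nil))) 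
(.lf (nat_lit 159866) (.g (nat_lit 810) (.e (nat_lit 57436) (nat_lit 17) (.e (nat_lit 376842) (nat_lit 11) (.e (nat_lit 426070) (nat_lit 0) .nil))) .nil))))) (.nd (nat_lit 3) (.nd (nat_lit 4) (.nd (nat_lit 5) 
(.lf (nat_lit 159814) (.g (nat_lit 1843) (.e (nat_lit 57436) (nat_lit 17) (.e (nat_lit 376838) (nat_lit 11) (.e (nat_lit 426307) (nat_lit 12) (.e (nat_lit 475212) (nat_lit 42) (.e (nat_lit 720934) (nat_lit 21) (.e (nat_lit 57851) (nat_lit 252) .nil)))))) (.g (nat_lit 0) .nil .nil))) 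
(.lf (nat_lit 159846) (.g (nat_lit 1108) (.e (nat_lit 57436) (nat_lit 17) (.e (nat_lit 376842) (nat_lit 11) (.e (nat_lit 426011) (nat_lit 0) (.e (nat_lit 7591) (nat_lit 407) .nil)))) .nil))) (.nd (nat_lit 5) 
(.lf (nat_lit 159830) (.g (nat_lit 1779) (.e (nat_lit 57436) (nat_lit 17) (.e (nat_lit 376838) (nat_lit 11) (.e (nat_lit 426343) (nat_lit 14) (.e (nat_lit 491560) (nat_lit 10) (.e (nat_lit 344090) (nat_lit 18) .nil))))) .nil)) 
(.lf (nat_lit 159862) (.g (nat_lit 807) (.e (nat_lit 57436) (nat_lit 17) (.e (nat_lit 376842) (nat_lit 11) (.e (nat_lit 426035) (nat_lit 0) .nil))) .nil)))) (.nd (nat_lit 4) (.nd (nat_lit 5) 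
(.lf (nat_lit 159822) (.g (nat_lit 1616) (.e (nat_lit 57436) (nat_lit 17) (.e (nat_lit 376838) (nat_lit 11) (.e (nat_lit 426308) (nat_lit 12) (.e (nat_lit 475214) (nat_lit 42) (.e (nat_lit 720931) (nat_lit 21) (.e (nat_lit 57852) (nat_lit 252) .nil)))))) (.g (nat_lit 4) .nil .nil))) 
(.lf (nat_lit 159854) (.g (nat_lit 809) (.e (nat_lit 57436) (nat_lit 17) (.e (nat_lit 376842) (nat_lit 11) (.e (nat_lit 426013) (nat_lit 0) .nil))) .nil))) (.nd (nat_lit 5) 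
(.lf (nat_lit 159838) (.g (nat_lit 2274) (.e (nat_lit 57436) (nat_lit 17) (.e (nat_lit 376842) (nat_lit 11) (.e (nat_lit 426009) (nat_lit 0) (.e (nat_lit 7591) (nat_lit 407) (.e (nat_lit 73729) (nat_lit 0) (.e (nat_lit 7261) (nat_lit 384) .nil)))))) (.g (nat_lit 5) .nil .nil))) 
(.lf (nat_lit 159870) (.g (nat_lit 2504) (.e (nat_lit 57436) (nat_lit 17) (.e (nat_lit 376842) (nat_lit 11) (.e (nat_lit 426172) (nat_lit 7) (.e (nat_lit 409646) (nat_lit 18) (.e (nat_lit 303115) (nat_lit 1) (.e (nat_lit 164179) (nat_lit 154) .nil)))))) (.g (nat_lit 4) .nil .nil)))))))) (.nd (nat_lit 1) (.nd (nat_lit 2) (.nd (nat_lit 3) (.nd (nat_lit 4) (.nd (nat_lit 5) 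
(.lf (nat_lit 159809) (.g (nat_lit 1788) (.e (nat_lit 57436) (nat_lit 17) (.e (nat_lit 376838) (nat_lit 11) (.e (nat_lit 426190) (nat_lit 9) (.e (nat_lit 426448) (nat_lit 20) (.e (nat_lit 114711) (nat_lit 21) (.e (nat_lit 57853) (nat_lit 252) .nil)))))) (.g (nat_lit 4) .nil .nil))) 
(.lf (nat_lit 159841) (.g (nat_lit 1887) (.e (nat_lit 57436) (nat_lit 17) (.e (nat_lit 376842) (nat_lit 11) (.e (nat_lit 426009) (nat_lit 0) (.e (nat_lit 7593) (nat_lit 407) (.e (nat_lit 73731) (nat_lit 0) (.e (nat_lit 7261) (nat_lit 384) .nil)))))) (.g (nat_lit 4) .nil .nil)))) (.nd (nat_lit 5) 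
(.lf (nat_lit 159825) (.g (nat_lit 1742) (.e (nat_lit 57436) (nat_lit 17) (.e (nat_lit 376838) (nat_lit 11) (.e (nat_lit 426342) (nat_lit 14) (.e (nat_lit 491558) (nat_lit 10) (.e (nat_lit 344091) (nat_lit 18) (.e (nat_lit 7265) (nat_lit 384) .nil)))))) (.g (nat_lit 5) .nil .nil))) 
(.lf (nat_lit 159857) (.g (nat_lit 806) (.e (nat_lit 57436) (nat_lit 17) (.e (nat_lit 376842) (nat_lit 11) (.e (nat_lit 426027) (nat_lit 0) .nil))) .nil)))) (.nd (nat_lit 4) (.nd (nat_lit 5) 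
(.lf (nat_lit 159817) (.g (nat_lit 1952) (.e (nat_lit 57436) (nat_lit 17) (.e (nat_lit 376838) (nat_lit 11) (.e (nat_lit 426308) (nat_lit 12) (.e (nat_lit 475212) (nat_lit 42) (.e (nat_lit 720930) (nat_lit 21) (.e (nat_lit 57851) (nat_lit 252) .nil)))))) (.g (nat_lit 5) .nil .nil))) 
(.lf (nat_lit 159849) (.g (nat_lit 2521) (.e (nat_lit 57436) (nat_lit 17) (.e (nat_lit 376842) (nat_lit 11) (.e (nat_lit 426011) (nat_lit 0) (.e (nat_lit 7593) (nat_lit 407) (.e (nat_lit 73730) (nat_lit 0) (.e (nat_lit 7263) (nat_lit 384) .nil)))))) (.g (nat_lit 4) .nil .nil)))) (.nd (nat_lit 5) 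
(.lf (nat_lit 159833) (.g (nat_lit 1920) (.e (nat_lit 57436) (nat_lit 17) (.e (nat_lit 376840) (nat_lit 11) (.e (nat_lit 426230) (nat_lit 9) (.e (nat_lit 426445) (nat_lit 20) (.e (nat_lit 114712) (nat_lit 21) (.e (nat_lit 57853) (nat_lit 252) .nil)))))) (.g (nat_lit 0) .nil .nil))) 
(.lf (nat_lit 159865) (.g (nat_lit 807) (.e (nat_lit 57436) (nat_lit 17) (.e (nat_lit 376842) (nat_lit 11) (.e (nat_lit 426054) (nat_lit 0) .nil))) .nil))))) (.nd (nat_lit 3) (.nd (nat_lit 4) (.nd (nat_lit 5) 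
(.lf (nat_lit 159813) (.g (nat_lit 1913) (.e (nat_lit 57436) (nat_lit 17) (.e (nat_lit 376838) (nat_lit 11) (.e (nat_lit 426307) (nat_lit 12) (.e (nat_lit 475212) (nat_lit 42) (.e (nat_lit 720931) (nat_lit 21) (.e (nat_lit 57851) (nat_lit 252) .nil)))))) (.g (nat_lit 0) .nil .nil))) 
(.lf (nat_lit 159845) (.g (nat_lit 2056) (.e (nat_lit 57436) (nat_lit 17) (.e (nat_lit 376842) (nat_lit 11) (.e (nat_lit 426010) (nat_lit 0) (.e (nat_lit 7593) (nat_lit 407) (.e (nat_lit 73731) (nat_lit 0) (.e (nat_lit 7261) (nat_lit 384) .nil)))))) (.g (nat_lit 4) .nil .nil)))) (.nd (nat_lit 5) 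
(.lf (nat_lit 159829) (.g (nat_lit 1894) (.e (nat_lit 57436) (nat_lit 17) (.e (nat_lit 376838) (nat_lit 11) (.e (nat_lit 426343) (nat_lit 14) (.e (nat_lit 491558) (nat_lit 10) (.e (nat_lit 344096) (nat_lit 18) .nil))))) .nil)) 
(.lf (nat_lit 159861) (.g (nat_lit 813) (.e (nat_lit 57436) (nat_lit 17) (.e (nat_lit 376842) (nat_lit 11) (.e (nat_lit 426031) (nat_lit 0) .nil))) .nil)))) (.nd (nat_lit 4) (.nd (nat_lit 5) 
(.lf (nat_lit 159821) (.g (nat_lit 1679) (.e (nat_lit 57436) (nat_lit 17) (.e (nat_lit 376838) (nat_lit 11) (.e (nat_lit 426308) (nat_lit 12) (.e (nat_lit 475214) (nat_lit 42) (.e (nat_lit 720930) (nat_lit 21) (.e (nat_lit 57854) (nat_lit 252) .nil)))))) (.g (nat_lit 4) .nil .nil))) 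
(.lf (nat_lit 159853) (.g (nat_lit 2385) (.e (nat_lit 57436) (nat_lit 17) (.e (nat_lit 376842) (nat_lit 11) (.e (nat_lit 426012) (nat_lit 0) (.e (nat_lit 7593) (nat_lit 407) (.e (nat_lit 73730) (nat_lit 0) (.e (nat_lit 7261) (nat_lit 384) .nil)))))) (.g (nat_lit 4) .nil .nil)))) (.nd (nat_lit 5) 
(.lf (nat_lit 159837) (.g (nat_lit 1772) (.e (nat_lit 57436) (nat_lit 17) (.e (nat_lit 376840) (nat_lit 11) (.e (nat_lit 426262) (nat_lit 9) (.e (nat_lit 426447) (nat_lit 20) (.e (nat_lit 114710) (nat_lit 21) (.e (nat_lit 57851) (nat_lit 252) .nil)))))) (.g (nat_lit 0) .nil .nil))) 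
(.lf (nat_lit 159869) (.g (nat_lit 2689) (.e (nat_lit 57436) (nat_lit 17) (.e (nat_lit 376842) (nat_lit 11) (.e (nat_lit 426172) (nat_lit 7) (.e (nat_lit 409645) (nat_lit 18) (.e (nat_lit 303115) (nat_lit 1) (.e (nat_lit 164179) (nat_lit 154) .nil)))))) (.g (nat_lit 4) .nil .nil))))))) (.nd (nat_lit 2) (.nd (nat_lit 3) (.nd (nat_lit 4) (.nd (nat_lit 5) 
(.lf (nat_lit 159811) (.g (nat_lit 1319) (.e (nat_lit 57436) (nat_lit 17) (.e (nat_lit 376838) (nat_lit 11) (.e (nat_lit 426190) (nat_lit 9) (.e (nat_lit 426448) (nat_lit 20) (.e (nat_lit 114712) (nat_lit 21) (.e (nat_lit 57854) (nat_lit 252) .nil)))))) (.g (nat_lit 4) .nil .nil))) 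
(.lf (nat_lit 159843) (.g (nat_lit 2933) (.e (nat_lit 57436) (nat_lit 17) (.e (nat_lit 376842) (nat_lit 11) (.e (nat_lit 426010) (nat_lit 0) (.e (nat_lit 7591) (nat_lit 407) (.e (nat_lit 73731) (nat_lit 0) (.e (nat_lit 7266) (nat_lit 384) .nil)))))) (.g (nat_lit 0) .nil .nil)))) (.nd (nat_lit 5) 
(.lf (nat_lit 159827) (.g (nat_lit 1939) (.e (nat_lit 57436) (nat_lit 17) (.e (nat_lit 376838) (nat_lit 11) (.e (nat_lit 426342) (nat_lit 14) (.e (nat_lit 491560) (nat_lit 10) (.e (nat_lit 344090) (nat_lit 18) (.e (nat_lit 7265) (nat_lit 384) .nil)))))) (.g (nat_lit 5) .nil .nil))) 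
(.lf (nat_lit 159859) (.g (nat_lit 815) (.e (nat_lit 57436) (nat_lit 17) (.e (nat_lit 376842) (nat_lit 11) (.e (nat_lit 426029) (nat_lit 0) .nil))) .nil)))) (.nd (nat_lit 4) (.nd (nat_lit 5) 
(.lf (nat_lit 159819) (.g (nat_lit 1655) (.e (nat_lit 57436) (nat_lit 17) (.e (nat_lit 376838) (nat_lit 11) (.e (nat_lit 426308) (nat_lit 12) (.e (nat_lit 475212) (nat_lit 42) (.e (nat_lit 720931) (nat_lit 21) (.e (nat_lit 57854) (nat_lit 252) .nil)))))) (.g (nat_lit 4) .nil .nil))) 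
(.lf (nat_lit 159851) (.g (nat_lit 2379) (.e (nat_lit 57436) (nat_lit 17) (.e (nat_lit 376842) (nat_lit 11) (.e (nat_lit 426012) (nat_lit 0) (.e (nat_lit 7591) (nat_lit 407) (.e (nat_lit 73731) (nat_lit 0) (.e (nat_lit 7261) (nat_lit 384) .nil)))))) (.g (nat_lit 4) .nil .nil)))) (.nd (nat_lit 5) 
(.lf (nat_lit 159835) (.g (nat_lit 1732) (.e (nat_lit 57436) (nat_lit 17) (.e (nat_lit 376840) (nat_lit 11) (.e (nat_lit 426232) (nat_lit 9) (.e (nat_lit 426447) (nat_lit 20) (.e (nat_lit 114710) (nat_lit 21) (.e (nat_lit 57854) (nat_lit 252) .nil)))))) (.g (nat_lit 6) .nil .nil))) 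
(.lf (nat_lit 159867) (.g (nat_lit 2360) (.e (nat_lit 57436) (nat_lit 17) (.e (nat_lit 376842) (nat_lit 11) (.e (nat_lit 426166) (nat_lit 7) (.e (nat_lit 409646) (nat_lit 18) (.e (nat_lit 303115) (nat_lit 1) (.e (nat_lit 164179) (nat_lit 154) .nil)))))) (.g (nat_lit 4) .nil .nil)))))) (.nd (nat_lit 3) (.nd (nat_lit 4) (.nd (nat_lit 5) 
(.lf (nat_lit 159815) (.g (nat_lit 1389) (.e (nat_lit 57436) (nat_lit 17) (.e (nat_lit 376838) (nat_lit 11) (.e (nat_lit 426307) (nat_lit 12) (.e (nat_lit 475214) (nat_lit 42) (.e (nat_lit 720930) (nat_lit 21) (.e (nat_lit 57854) (nat_lit 252) .nil)))))) (.g (nat_lit 4) .nil .nil))) 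
(.lf (nat_lit 159847) (.g (nat_lit 2595) (.e (nat_lit 57436) (nat_lit 17) (.e (nat_lit 376842) (nat_lit 11) (.e (nat_lit 426011) (nat_lit 0) (.e (nat_lit 7591) (nat_lit 407) (.e (nat_lit 73729) (nat_lit 0) (.e (nat_lit 7263) (nat_lit 384) .nil)))))) (.g (nat_lit 4) .nil .nil)))) (.nd (nat_lit 5) 
(.lf (nat_lit 159831) (.g (nat_lit 794) (.e (nat_lit 57436) (nat_lit 17) (.e (nat_lit 376838) (nat_lit 11) (.e (nat_lit 426344) (nat_lit 14) (.e (nat_lit 491558) (nat_lit 10) .nil)))) .nil)) 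
(.lf (nat_lit 159863) (.g (nat_lit 813) (.e (nat_lit 57436) (nat_lit 17) (.e (nat_lit 376842) (nat_lit 11) (.e (nat_lit 426051) (nat_lit 0) .nil))) .nil)))) (.nd (nat_lit 4) (.nd (nat_lit 5) 
(.lf (nat_lit 159823) (.g (nat_lit 1882) (.e (nat_lit 57436) (nat_lit 17) (.e (nat_lit 376838) (nat_lit 11) (.e (nat_lit 426308) (nat_lit 12) (.e (nat_lit 475214) (nat_lit 42) (.e (nat_lit 720931) (nat_lit 21) (.e (nat_lit 57854) (nat_lit 252) .nil)))))) (.g (nat_lit 4) .nil .nil))) 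
(.lf (nat_lit 159855) (.g (nat_lit 648) (.e (nat_lit 57436) (nat_lit 17) (.e (nat_lit 376842) (nat_lit 11) (.e (nat_lit 426014) (nat_lit 0) .nil))) .nil))) (.nd (nat_lit 5) 
(.lf (nat_lit 159839) (.g (nat_lit 2716) (.e (nat_lit 57436) (nat_lit 17) (.e (nat_lit 376842) (nat_lit 11) (.e (nat_lit 426009) (nat_lit 0) (.e (nat_lit 7591) (nat_lit 407) (.e (nat_lit 73731) (nat_lit 0) (.e (nat_lit 7266) (nat_lit 384) .nil)))))) (.g (nat_lit 0) .nil .nil))) 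
(.lf (nat_lit 159871) (.g (nat_lit 1314) (.e (nat_lit 57436) (nat_lit 17) (.e (nat_lit 376842) (nat_lit 11) (.e (nat_lit 426172) (nat_lit 7) (.e (nat_lit 409648) (nat_lit 18) .nil)))) .nil))))))))

noncomputable def tv2140 : DT := (.nd (nat_lit 0) (.nd (nat_lit 1) (.nd (nat_lit 2) (.nd (nat_lit 3) (.nd (nat_lit 4) (.nd (nat_lit 5) 
(.lf (nat_lit 159872) (.g (nat_lit 807) (.e (nat_lit 57436) (nat_lit 17) (.e (nat_lit 376842) (nat_lit 11) (.e (nat_lit 426180) (nat_lit 8) .nil))) .nil)) 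
(.lf (nat_lit 159904) (.g (nat_lit 350) (.e (nat_lit 57436) (nat_lit 17) (.e (nat_lit 376842) (nat_lit 11) (.e (nat_lit 426188) (nat_lit 9) .nil))) .nil))) (.nd (nat_lit 5) 
(.lf (nat_lit 159888) (.g (nat_lit 2885) (.e (nat_lit 57436) (nat_lit 17) (.e (nat_lit 376842) (nat_lit 11) (.e (nat_lit 426187) (nat_lit 9) (.e (nat_lit 426446) (nat_lit 20) (.e (nat_lit 114710) (nat_lit 21) (.e (nat_lit 57854) (nat_lit 252) .nil)))))) (.g (nat_lit 6) .nil .nil))) 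
(.lf (nat_lit 159920) (.g (nat_lit 2967) (.e (nat_lit 57436) (nat_lit 17) (.e (nat_lit 376842) (nat_lit 11) (.e (nat_lit 426188) (nat_lit 9) (.e (nat_lit 426446) (nat_lit 20) (.e (nat_lit 114711) (nat_lit 21) (.e (nat_lit 57848) (nat_lit 252) .nil)))))) (.g (nat_lit 6) .nil .nil))))) (.nd (nat_lit 4) (.nd (nat_lit 5) 
(.lf (nat_lit 159880) (.g (nat_lit 2767) (.e (nat_lit 57436) (nat_lit 17) (.e (nat_lit 376842) (nat_lit 11) (.e (nat_lit 426186) (nat_lit 9) (.e (nat_lit 426448) (nat_lit 20) (.e (nat_lit 114710) (nat_lit 21) (.e (nat_lit 57848) (nat_lit 252) .nil)))))) (.g (nat_lit 5) .nil .nil))) 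
(.lf (nat_lit 159912) (.g (nat_lit 3011) (.e (nat_lit 57436) (nat_lit 17) (.e (nat_lit 376842) (nat_lit 11) (.e (nat_lit 426188) (nat_lit 9) (.e (nat_lit 426446) (nat_lit 20) (.e (nat_lit 114710) (nat_lit 21) (.e (nat_lit 57844) (nat_lit 252) .nil)))))) (.g (nat_lit 6) .nil .nil)))) (.nd (nat_lit 5) 
(.lf (nat_lit 159896) (.g (nat_lit 2935) (.e (nat_lit 57436) (nat_lit 17) (.e (nat_lit 376842) (nat_lit 11) (.e (nat_lit 426187) (nat_lit 9) (.e (nat_lit 426448) (nat_lit 20) (.e (nat_lit 114710) (nat_lit 21) (.e (nat_lit 57848) (nat_lit 252) .nil)))))) (.g (nat_lit 5) .nil .nil))) 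
(.lf (nat_lit 159928) (.g (nat_lit 3957) (.e (nat_lit 57436) (nat_lit 17) (.e (nat_lit 376842) (nat_lit 11) (.e (nat_lit 426188) (nat_lit 9) (.e (nat_lit 426448) (nat_lit 20) (.e (nat_lit 114711) (nat_lit 21) (.e (nat_lit 57844) (nat_lit 252) .nil)))))) (.g (nat_lit 0) .nil .nil)))))) (.nd (nat_lit 3) (.nd (nat_lit 4) (.nd (nat_lit 5) 
(.lf (nat_lit 159876) (.g (nat_lit 2200) (.e (nat_lit 57436) (nat_lit 17) (.e (nat_lit 376842) (nat_lit 11) (.e (nat_lit 426186) (nat_lit 9) (.e (nat_lit 426446) (nat_lit 20) (.e (nat_lit 114710) (nat_lit 21) (.e (nat_lit 57851) (nat_lit 252) .nil)))))) (.g (nat_lit 5) .nil .nil))) 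
(.lf (nat_lit 159908) (.g (nat_lit 1618) (.e (nat_lit 57436) (nat_lit 17) (.e (nat_lit 376842) (nat_lit 11) (.e (nat_lit 426188) (nat_lit 9) (.e (nat_lit 426442) (nat_lit 19) .nil)))) .nil))) (.nd (nat_lit 5) 
(.lf (nat_lit 159892) (.g (nat_lit 2845) (.e (nat_lit 57436) (nat_lit 17) (.e (nat_lit 376842) (nat_lit 11) (.e (nat_lit 426187) (nat_lit 9) (.e (nat_lit 426446) (nat_lit 20) (.e (nat_lit 114712) (nat_lit 21) (.e (nat_lit 57853) (nat_lit 252) .nil)))))) (.g (nat_lit 6) .nil .nil))) 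
(.lf (nat_lit 159924) (.g (nat_lit 3604) (.e (nat_lit 57436) (nat_lit 17) (.e (nat_lit 376842) (nat_lit 11) (.e (nat_lit 426188) (nat_lit 9) (.e (nat_lit 426448) (nat_lit 20) (.e (nat_lit 114710) (nat_lit 21) (.e (nat_lit 57846) (nat_lit 252) .nil)))))) (.g (nat_lit 6) .nil .nil))))) (.nd (nat_lit 4) (.nd (nat_lit 5) 
(.lf (nat_lit 159884) (.g (nat_lit 2261) (.e (nat_lit 57436) (nat_lit 17) (.e (nat_lit 376842) (nat_lit 11) (.e (nat_lit 426187) (nat_lit 9) (.e (nat_lit 426446) (nat_lit 20) (.e (nat_lit 114710) (nat_lit 21) (.e (nat_lit 57848) (nat_lit 252) .nil)))))) (.g (nat_lit 4) .nil .nil))) 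
(.lf (nat_lit 159916) (.g (nat_lit 2713) (.e (nat_lit 57436) (nat_lit 17) (.e (nat_lit 376842) (nat_lit 11) (.e (nat_lit 426188) (nat_lit 9) (.e (nat_lit 426446) (nat_lit 20) (.e (nat_lit 114710) (nat_lit 21) (.e (nat_lit 57851) (nat_lit 252) .nil)))))) (.g (nat_lit 5) .nil .nil)))) (.nd (nat_lit 5) 
(.lf (nat_lit 159900) (.g (nat_lit 3568) (.e (nat_lit 57436) (nat_lit 17) (.e (nat_lit 376842) (nat_lit 11) (.e (nat_lit 426187) (nat_lit 9) (.e (nat_lit 426448) (nat_lit 20) (.e (nat_lit 114711) (nat_lit 21) (.e (nat_lit 57844) (nat_lit 252) .nil)))))) (.g (nat_lit 6) .nil .nil))) 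
(.lf (nat_lit 159932) (.g (nat_lit 3478) (.e (nat_lit 57436) (nat_lit 17) (.e (nat_lit 376842) (nat_lit 11) (.e (nat_lit 426188) (nat_lit 9) (.e (nat_lit 426448) (nat_lit 20) (.e (nat_lit 114711) (nat_lit 21) (.e (nat_lit 57854) (nat_lit 252) .nil)))))) (.g (nat_lit 6) .nil .nil))))))) (.nd (nat_lit 2) (.nd (nat_lit 3) (.nd (nat_lit 4) (.nd (nat_lit 5) 
(.lf (nat_lit 159874) (.g (nat_lit 2328) (.e (nat_lit 57436) (nat_lit 17) (.e (nat_lit 376842) (nat_lit 11) (.e (nat_lit 426181) (nat_lit 8) (.e (nat_lit 417828) (nat_lit 18) (.e (nat_lit 303115) (nat_lit 1) (.e (nat_lit 164179) (nat_lit 154) .nil)))))) (.g (nat_lit 4) .nil .nil))) 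
(.lf (nat_lit 159906) (.g (nat_lit 1409) (.e (nat_lit 57436) (nat_lit 17) (.e (nat_lit 376842) (nat_lit 11) (.e (nat_lit 426188) (nat_lit 9) (.e (nat_lit 426354) (nat_lit 15) .nil)))) .nil))) (.nd (nat_lit 5) 
(.lf (nat_lit 159890) (.g (nat_lit 3398) (.e (nat_lit 57436) (nat_lit 17) (.e (nat_lit 376842) (nat_lit 11) (.e (nat_lit 426187) (nat_lit 9) (.e (nat_lit 426446) (nat_lit 20) (.e (nat_lit 114711) (nat_lit 21) (.e (nat_lit 57847) (nat_lit 252) .nil)))))) (.g (nat_lit 6) .nil .nil))) 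
(.lf (nat_lit 159922) (.g (nat_lit 3135) (.e (nat_lit 57436) (nat_lit 17) (.e (nat_lit 376842) (nat_lit 11) (.e (nat_lit 426188) (nat_lit 9) (.e (nat_lit 426446) (nat_lit 20) (.e (nat_lit 114712) (nat_lit 21) (.e (nat_lit 57852) (nat_lit 252) .nil)))))) (.g (nat_lit 0) .nil .nil))))) (.nd (nat_lit 4) (.nd (nat_lit 5) 
(.lf (nat_lit 159882) (.g (nat_lit 681) (.e (nat_lit 57436) (nat_lit 17) (.e (nat_lit 376842) (nat_lit 11) (.e (nat_lit 426186) (nat_lit 9) (.e (nat_lit 433920) (nat_lit 20) .nil)))) .nil)) 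
(.lf (nat_lit 159914) (.g (nat_lit 3196) (.e (nat_lit 57436) (nat_lit 17) (.e (nat_lit 376842) (nat_lit 11) (.e (nat_lit 426188) (nat_lit 9) (.e (nat_lit 426446) (nat_lit 20) (.e (nat_lit 114710) (nat_lit 21) (.e (nat_lit 57847) (nat_lit 252) .nil)))))) (.g (nat_lit 6) .nil .nil)))) (.nd (nat_lit 5) 
(.lf (nat_lit 159898) (.g (nat_lit 3525) (.e (nat_lit 57436) (nat_lit 17) (.e (nat_lit 376842) (nat_lit 11) (.e (nat_lit 426187) (nat_lit 9) (.e (nat_lit 426448) (nat_lit 20) (.e (nat_lit 114710) (nat_lit 21) (.e (nat_lit 57853) (nat_lit 252) .nil)))))) (.g (nat_lit 6) .nil .nil))) 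
(.lf (nat_lit 159930) (.g (nat_lit 4135) (.e (nat_lit 57436) (nat_lit 17) (.e (nat_lit 376842) (nat_lit 11) (.e (nat_lit 426188) (nat_lit 9) (.e (nat_lit 426448) (nat_lit 20) (.e (nat_lit 114711) (nat_lit 21) (.e (nat_lit 57847) (nat_lit 252) .nil)))))) (.g (nat_lit 6) .nil .nil)))))) (.nd (nat_lit 3) (.nd (nat_lit 4) (.nd (nat_lit 5) 
(.lf (nat_lit 159878) (.g (nat_lit 2561) (.e (nat_lit 57436) (nat_lit 17) (.e (nat_lit 376842) (nat_lit 11) (.e (nat_lit 426186) (nat_lit 9) (.e (nat_lit 426446) (nat_lit 20) (.e (nat_lit 114712) (nat_lit 21) (.e (nat_lit 57852) (nat_lit 252) .nil)))))) (.g (nat_lit 0) .nil .nil))) 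
(.lf (nat_lit 159910) (.g (nat_lit 2016) (.e (nat_lit 57436) (nat_lit 17) (.e (nat_lit 376842) (nat_lit 11) (.e (nat_lit 426188) (nat_lit 9) (.e (nat_lit 426444) (nat_lit 19) (.e (nat_lit 106504) (nat_lit 9) .nil))))) .nil))) (.nd (nat_lit 5) 
(.lf (nat_lit 159894) (.g (nat_lit 3303) (.e (nat_lit 57436) (nat_lit 17) (.e (nat_lit 376842) (nat_lit 11) (.e (nat_lit 426187) (nat_lit 9) (.e (nat_lit 426448) (nat_lit 20) (.e (nat_lit 114710) (nat_lit 21) (.e (nat_lit 57844) (nat_lit 252) .nil)))))) (.g (nat_lit 6) .nil .nil))) 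
(.lf (nat_lit 159926) (.g (nat_lit 3939) (.e (nat_lit 57436) (nat_lit 17) (.e (nat_lit 376842) (nat_lit 11) (.e (nat_lit 426188) (nat_lit 9) (.e (nat_lit 426448) (nat_lit 20) (.e (nat_lit 114710) (nat_lit 21) (.e (nat_lit 57852) (nat_lit 252) .nil)))))) (.g (nat_lit 0) .nil .nil))))) (.nd (nat_lit 4) (.nd (nat_lit 5) 
(.lf (nat_lit 159886) (.g (nat_lit 3198) (.e (nat_lit 57436) (nat_lit 17) (.e (nat_lit 376842) (nat_lit 11) (.e (nat_lit 426187) (nat_lit 9) (.e (nat_lit 426446) (nat_lit 20) (.e (nat_lit 114710) (nat_lit 21) (.e (nat_lit 57852) (nat_lit 252) .nil)))))) (.g (nat_lit 0) .nil .nil))) 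
(.lf (nat_lit 159918) (.g (nat_lit 3168) (.e (nat_lit 57436) (nat_lit 17) (.e (nat_lit 376842) (nat_lit 11) (.e (nat_lit 426188) (nat_lit 9) (.e (nat_lit 426446) (nat_lit 20) (.e (nat_lit 114710) (nat_lit 21) (.e (nat_lit 57853) (nat_lit 252) .nil)))))) (.g (nat_lit 6) .nil .nil)))) (.nd (nat_lit 5) 
(.lf (nat_lit 159902) (.g (nat_lit 3117) (.e (nat_lit 57436) (nat_lit 17) (.e (nat_lit 376842) (nat_lit 11) (.e (nat_lit 426187) (nat_lit 9) (.e (nat_lit 426448) (nat_lit 20) (.e (nat_lit 114711) (nat_lit 21) (.e (nat_lit 57853) (nat_lit 252) .nil)))))) (.g (nat_lit 6) .nil .nil))) 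
(.lf (nat_lit 159934) (.g (nat_lit 3390) (.e (nat_lit 57436) (nat_lit 17) (.e (nat_lit 376842) (nat_lit 11) (.e (nat_lit 426188) (nat_lit 9) (.e (nat_lit 426448) (nat_lit 20) (.e (nat_lit 114712) (nat_lit 21) (.e (nat_lit 57852) (nat_lit 252) .nil)))))) (.g (nat_lit 0) .nil .nil)))))))) (.nd (nat_lit 1) (.nd (nat_lit 2) (.nd (nat_lit 3) (.nd (nat_lit 4) (.nd (nat_lit 5) 
(.lf (nat_lit 159873) (.g (nat_lit 762) (.e (nat_lit 57436) (nat_lit 17) (.e (nat_lit 376842) (nat_lit 11) (.e (nat_lit 426181) (nat_lit 8) .nil))) .nil)) 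
(.lf (nat_lit 159905) (.g (nat_lit 1621) (.e (nat_lit 57436) (nat_lit 17) (.e (nat_lit 376842) (nat_lit 11) (.e (nat_lit 426188) (nat_lit 9) (.e (nat_lit 426350) (nat_lit 15) .nil)))) .nil))) (.nd (nat_lit 5) 
(.lf (nat_lit 159889) (.g (nat_lit 3068) (.e (nat_lit 57436) (nat_lit 17) (.e (nat_lit 376842) (nat_lit 11) (.e (nat_lit 426187) (nat_lit 9) (.e (nat_lit 426446) (nat_lit 20) (.e (nat_lit 114711) (nat_lit 21) (.e (nat_lit 57844) (nat_lit 252) .nil)))))) (.g (nat_lit 6) .nil .nil))) 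
(.lf (nat_lit 159921) (.g (nat_lit 1875) (.e (nat_lit 57436) (nat_lit 17) (.e (nat_lit 376842) (nat_lit 11) (.e (nat_lit 426188) (nat_lit 9) (.e (nat_lit 426446) (nat_lit 20) (.e (nat_lit 114712) (nat_lit 21) (.e (nat_lit 57851) (nat_lit 252) .nil)))))) (.g (nat_lit 4) .nil .nil))))) (.nd (nat_lit 4) (.nd (nat_lit 5) 
(.lf (nat_lit 159881) (.g (nat_lit 2879) (.e (nat_lit 57436) (nat_lit 17) (.e (nat_lit 376842) (nat_lit 11) (.e (nat_lit 426186) (nat_lit 9) (.e (nat_lit 426448) (nat_lit 20) (.e (nat_lit 114711) (nat_lit 21) (.e (nat_lit 57846) (nat_lit 252) .nil)))))) (.g (nat_lit 5) .nil .nil))) 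
(.lf (nat_lit 159913) (.g (nat_lit 2743) (.e (nat_lit 57436) (nat_lit 17) (.e (nat_lit 376842) (nat_lit 11) (.e (nat_lit 426188) (nat_lit 9) (.e (nat_lit 426446) (nat_lit 20) (.e (nat_lit 114710) (nat_lit 21) (.e (nat_lit 57846) (nat_lit 252) .nil)))))) (.g (nat_lit 5) .nil .nil)))) (.nd (nat_lit 5) 
(.lf (nat_lit 159897) (.g (nat_lit 3189) (.e (nat_lit 57436) (nat_lit 17) (.e (nat_lit 376842) (nat_lit 11) (.e (nat_lit 426187) (nat_lit 9) (.e (nat_lit 426448) (nat_lit 20) (.e (nat_lit 114710) (nat_lit 21) (.e (nat_lit 57851) (nat_lit 252) .nil)))))) (.g (nat_lit 6) .nil .nil))) 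
(.lf (nat_lit 159929) (.g (nat_lit 3468) (.e (nat_lit 57436) (nat_lit 17) (.e (nat_lit 376842) (nat_lit 11) (.e (nat_lit 426188) (nat_lit 9) (.e (nat_lit 426448) (nat_lit 20) (.e (nat_lit 114711) (nat_lit 21) (.e (nat_lit 57846) (nat_lit 252) .nil)))))) (.g (nat_lit 6) .nil .nil)))))) (.nd (nat_lit 3) (.nd (nat_lit 4) (.nd (nat_lit 5) 
(.lf (nat_lit 159877) (.g (nat_lit 2823) (.e (nat_lit 57436) (nat_lit 17) (.e (nat_lit 376842) (nat_lit 11) (.e (nat_lit 426186) (nat_lit 9) (.e (nat_lit 426446) (nat_lit 20) (.e (nat_lit 114710) (nat_lit 21) (.e (nat_lit 57852) (nat_lit 252) .nil)))))) (.g (nat_lit 0) .nil .nil))) 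
(.lf (nat_lit 159909) (.g (nat_lit 1397) (.e (nat_lit 57436) (nat_lit 17) (.e (nat_lit 376842) (nat_lit 11) (.e (nat_lit 426188) (nat_lit 9) (.e (nat_lit 426444) (nat_lit 19) .nil)))) .nil))) (.nd (nat_lit 5) 
(.lf (nat_lit 159893) (.g (nat_lit 2677) (.e (nat_lit 57436) (nat_lit 17) (.e (nat_lit 376842) (nat_lit 11) (.e (nat_lit 426187) (nat_lit 9) (.e (nat_lit 426446) (nat_lit 20) (.e (nat_lit 114712) (nat_lit 21) (.e (nat_lit 57854) (nat_lit 252) .nil)))))) (.g (nat_lit 6) .nil .nil))) 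
(.lf (nat_lit 159925) (.g (nat_lit 3367) (.e (nat_lit 57436) (nat_lit 17) (.e (nat_lit 376842) (nat_lit 11) (.e (nat_lit 426188) (nat_lit 9) (.e (nat_lit 426448) (nat_lit 20) (.e (nat_lit 114710) (nat_lit 21) (.e (nat_lit 57848) (nat_lit 252) .nil)))))) (.g (nat_lit 6) .nil .nil))))) (.nd (nat_lit 4) (.nd (nat_lit 5) 
(.lf (nat_lit 159885) (.g (nat_lit 2534) (.e (nat_lit 57436) (nat_lit 17) (.e (nat_lit 376842) (nat_lit 11) (.e (nat_lit 426187) (nat_lit 9) (.e (nat_lit 426446) (nat_lit 20) (.e (nat_lit 114710) (nat_lit 21) (.e (nat_lit 57851) (nat_lit 252) .nil)))))) (.g (nat_lit 5) .nil .nil))) 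
(.lf (nat_lit 159917) (.g (nat_lit 3396) (.e (nat_lit 57436) (nat_lit 17) (.e (nat_lit 376842) (nat_lit 11) (.e (nat_lit 426188) (nat_lit 9) (.e (nat_lit 426446) (nat_lit 20) (.e (nat_lit 114710) (nat_lit 21) (.e (nat_lit 57852) (nat_lit 252) .nil)))))) (.g (nat_lit 0) .nil .nil)))) (.nd (nat_lit 5) 
(.lf (nat_lit 159901) (.g (nat_lit 2837) (.e (nat_lit 57436) (nat_lit 17) (.e (nat_lit 376842) (nat_lit 11) (.e (nat_lit 426187) (nat_lit 9) (.e (nat_lit 426448) (nat_lit 20) (.e (nat_lit 114711) (nat_lit 21) (.e (nat_lit 57848) (nat_lit 252) .nil)))))) (.g (nat_lit 5) .nil .nil))) 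
(.lf (nat_lit 159933) (.g (nat_lit 2028) (.e (nat_lit 57436) (nat_lit 17) (.e (nat_lit 376842) (nat_lit 11) (.e (nat_lit 426188) (nat_lit 9) (.e (nat_lit 426448) (nat_lit 20) (.e (nat_lit 114712) (nat_lit 21) (.e (nat_lit 57851) (nat_lit 252) .nil)))))) (.g (nat_lit 4) .nil .nil))))))) (.nd (nat_lit 2) (.nd (nat_lit 3) (.nd (nat_lit 4) (.nd (nat_lit 5) 
(.lf (nat_lit 159875) (.g (nat_lit 807) (.e (nat_lit 57436) (nat_lit 17) (.e (nat_lit 376842) (nat_lit 11) (.e (nat_lit 426182) (nat_lit 8) .nil))) .nil)) 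
(.lf (nat_lit 159907) (.g (nat_lit 2008) (.e (nat_lit 57436) (nat_lit 17) (.e (nat_lit 376842) (nat_lit 11) (.e (nat_lit 426188) (nat_lit 9) (.e (nat_lit 426354) (nat_lit 15) (.e (nat_lit 2198) (nat_lit 144) .nil))))) .nil))) (.nd (nat_lit 5) 
(.lf (nat_lit 159891) (.g (nat_lit 2654) (.e (nat_lit 57436) (nat_lit 17) (.e (nat_lit 376842) (nat_lit 11) (.e (nat_lit 426187) (nat_lit 9) (.e (nat_lit 426446) (nat_lit 20) (.e (nat_lit 114711) (nat_lit 21) (.e (nat_lit 57848) (nat_lit 252) .nil)))))) (.g (nat_lit 5) .nil .nil))) 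
(.lf (nat_lit 159923) (.g (nat_lit 2884) (.e (nat_lit 57436) (nat_lit 17) (.e (nat_lit 376842) (nat_lit 11) (.e (nat_lit 426188) (nat_lit 9) (.e (nat_lit 426446) (nat_lit 20) (.e (nat_lit 114712) (nat_lit 21) (.e (nat_lit 57854) (nat_lit 252) .nil)))))) (.g (nat_lit 0) .nil .nil))))) (.nd (nat_lit 4) (.nd (nat_lit 5) 
(.lf (nat_lit 159883) (.g (nat_lit 2817) (.e (nat_lit 57436) (nat_lit 17) (.e (nat_lit 376842) (nat_lit 11) (.e (nat_lit 426187) (nat_lit 9) (.e (nat_lit 426446) (nat_lit 20) (.e (nat_lit 114710) (nat_lit 21) (.e (nat_lit 57844) (nat_lit 252) .nil)))))) (.g (nat_lit 5) .nil .nil))) 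
(.lf (nat_lit 159915) (.g (nat_lit 2464) (.e (nat_lit 57436) (nat_lit 17) (.e (nat_lit 376842) (nat_lit 11) (.e (nat_lit 426188) (nat_lit 9) (.e (nat_lit 426446) (nat_lit 20) (.e (nat_lit 114710) (nat_lit 21) (.e (nat_lit 57848) (nat_lit 252) .nil)))))) (.g (nat_lit 5) .nil .nil)))) (.nd (nat_lit 5) 
(.lf (nat_lit 159899) (.g (nat_lit 3347) (.e (nat_lit 57436) (nat_lit 17) (.e (nat_lit 376842) (nat_lit 11) (.e (nat_lit 426187) (nat_lit 9) (.e (nat_lit 426448) (nat_lit 20) (.e (nat_lit 114710) (nat_lit 21) (.e (nat_lit 57854) (nat_lit 252) .nil)))))) (.g (nat_lit 6) .nil .nil))) 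
(.lf (nat_lit 159931) (.g (nat_lit 3233) (.e (nat_lit 57436) (nat_lit 17) (.e (nat_lit 376842) (nat_lit 11) (.e (nat_lit 426188) (nat_lit 9) (.e (nat_lit 426448) (nat_lit 20) (.e (nat_lit 114711) (nat_lit 21) (.e (nat_lit 57848) (nat_lit 252) .nil)))))) (.g (nat_lit 5) .nil .nil)))))) (.nd (nat_lit 3) (.nd (nat_lit 4) (.nd (nat_lit 5) 
(.lf (nat_lit 159879) (.g (nat_lit 2342) (.e (nat_lit 57436) (nat_lit 17) (.e (nat_lit 376842) (nat_lit 11) (.e (nat_lit 426186) (nat_lit 9) (.e (nat_lit 426446) (nat_lit 20) (.e (nat_lit 114712) (nat_lit 21) (.e (nat_lit 57854) (nat_lit 252) .nil)))))) (.g (nat_lit 6) .nil .nil))) 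
(.lf (nat_lit 159911) (.g (nat_lit 2085) (.e (nat_lit 57436) (nat_lit 17) (.e (nat_lit 376842) (nat_lit 11) (.e (nat_lit 426188) (nat_lit 9) (.e (nat_lit 426444) (nat_lit 19) (.e (nat_lit 106520) (nat_lit 9) .nil))))) .nil))) (.nd (nat_lit 5) 
(.lf (nat_lit 159895) (.g (nat_lit 3369) (.e (nat_lit 57436) (nat_lit 17) (.e (nat_lit 376842) (nat_lit 11) (.e (nat_lit 426187) (nat_lit 9) (.e (nat_lit 426448) (nat_lit 20) (.e (nat_lit 114710) (nat_lit 21) (.e (nat_lit 57847) (nat_lit 252) .nil)))))) (.g (nat_lit 6) .nil .nil))) 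
(.lf (nat_lit 159927) (.g (nat_lit 3717) (.e (nat_lit 57436) (nat_lit 17) (.e (nat_lit 376842) (nat_lit 11) (.e (nat_lit 426188) (nat_lit 9) (.e (nat_lit 426448) (nat_lit 20) (.e (nat_lit 114710) (nat_lit 21) (.e (nat_lit 57854) (nat_lit 252) .nil)))))) (.g (nat_lit 0) .nil .nil))))) (.nd (nat_lit 4) (.nd (nat_lit 5) 
(.lf (nat_lit 159887) (.g (nat_lit 2952) (.e (nat_lit 57436) (nat_lit 17) (.e (nat_lit 376842) (nat_lit 11) (.e (nat_lit 426187) (nat_lit 9) (.e (nat_lit 426446) (nat_lit 20) (.e (nat_lit 114710) (nat_lit 21) (.e (nat_lit 57853) (nat_lit 252) .nil)))))) (.g (nat_lit 6) .nil .nil))) 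
(.lf (nat_lit 159919) (.g (nat_lit 3099) (.e (nat_lit 57436) (nat_lit 17) (.e (nat_lit 376842) (nat_lit 11) (.e (nat_lit 426188) (nat_lit 9) (.e (nat_lit 426446) (nat_lit 20) (.e (nat_lit 114710) (nat_lit 21) (.e (nat_lit 57854) (nat_lit 252) .nil)))))) (.g (nat_lit 6) .nil .nil)))) (.nd (nat_lit 5) 
(.lf (nat_lit 159903) (.g (nat_lit 2818) (.e (nat_lit 57436) (nat_lit 17) (.e (nat_lit 376842) (nat_lit 11) (.e (nat_lit 426187) (nat_lit 9) (.e (nat_lit 426448) (nat_lit 20) (.e (nat_lit 114712) (nat_lit 21) (.e (nat_lit 57854) (nat_lit 252) .nil)))))) (.g (nat_lit 6) .nil .nil))) 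
(.lf (nat_lit 159935) (.g (nat_lit 3164) (.e (nat_lit 57436) (nat_lit 17) (.e (nat_lit 376842) (nat_lit 11) (.e (nat_lit 426188) (nat_lit 9) (.e (nat_lit 426448) (nat_lit 20) (.e (nat_lit 114712) (nat_lit 21) (.e (nat_lit 57853) (nat_lit 252) .nil)))))) (.g (nat_lit 6) .nil .nil)))))))))

noncomputable def tv2141 : DT := (.nd (nat_lit 0) (.nd (nat_lit 1) (.nd (nat_lit 2) (.nd (nat_lit 3) (.nd (nat_lit 4) (.nd (nat_lit 5) 
(.lf (nat_lit 159936) (.g (nat_lit 1846) (.e (nat_lit 57436) (nat_lit 17) (.e (nat_lit 376842) (nat_lit 11) (.e (nat_lit 426188) (nat_lit 9) (.e (nat_lit 426449) (nat_lit 20) (.e (nat_lit 114710) (nat_lit 21) .nil))))) .nil)) 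
(.lf (nat_lit 159968) (.g (nat_lit 3004) (.e (nat_lit 57436) (nat_lit 17) (.e (nat_lit 376842) (nat_lit 11) (.e (nat_lit 426190) (nat_lit 9) (.e (nat_lit 426446) (nat_lit 20) (.e (nat_lit 114710) (nat_lit 21) (.e (nat_lit 57853) (nat_lit 252) .nil)))))) (.g (nat_lit 6) .nil .nil)))) (.nd (nat_lit 5) 
(.lf (nat_lit 159952) (.g (nat_lit 2280) (.e (nat_lit 57436) (nat_lit 17) (.e (nat_lit 376842) (nat_lit 11) (.e (nat_lit 426189) (nat_lit 9) (.e (nat_lit 426446) (nat_lit 20) (.e (nat_lit 114711) (nat_lit 21) (.e (nat_lit 57848) (nat_lit 252) .nil)))))) (.g (nat_lit 4) .nil .nil))) 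
(.lf (nat_lit 159984) (.g (nat_lit 3039) (.e (nat_lit 57436) (nat_lit 17) (.e (nat_lit 376842) (nat_lit 11) (.e (nat_lit 426190) (nat_lit 9) (.e (nat_lit 426448) (nat_lit 20) (.e (nat_lit 114711) (nat_lit 21) (.e (nat_lit 57853) (nat_lit 252) .nil)))))) (.g (nat_lit 6) .nil .nil))))) (.nd (nat_lit 4) (.nd (nat_lit 5) 
(.lf (nat_lit 159944) (.g (nat_lit 3016) (.e (nat_lit 57436) (nat_lit 17) (.e (nat_lit 376842) (nat_lit 11) (.e (nat_lit 426188) (nat_lit 9) (.e (nat_lit 426449) (nat_lit 20) (.e (nat_lit 114712) (nat_lit 21) (.e (nat_lit 57852) (nat_lit 252) .nil)))))) (.g (nat_lit 6) .nil .nil))) 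
(.lf (nat_lit 159976) (.g (nat_lit 3241) (.e (nat_lit 57436) (nat_lit 17) (.e (nat_lit 376842) (nat_lit 11) (.e (nat_lit 426190) (nat_lit 9) (.e (nat_lit 426448) (nat_lit 20) (.e (nat_lit 114710) (nat_lit 21) (.e (nat_lit 57844) (nat_lit 252) .nil)))))) (.g (nat_lit 0) .nil .nil)))) (.nd (nat_lit 5) 
(.lf (nat_lit 159960) (.g (nat_lit 2839) (.e (nat_lit 57436) (nat_lit 17) (.e (nat_lit 376842) (nat_lit 11) (.e (nat_lit 426189) (nat_lit 9) (.e (nat_lit 426448) (nat_lit 20) (.e (nat_lit 114711) (nat_lit 21) (.e (nat_lit 57848) (nat_lit 252) .nil)))))) (.g (nat_lit 5) .nil .nil))) 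
(.lf (nat_lit 159992) (.g (nat_lit 2916) (.e (nat_lit 57436) (nat_lit 17) (.e (nat_lit 376842) (nat_lit 11) (.e (nat_lit 426196) (nat_lit 9) (.e (nat_lit 426448) (nat_lit 20) (.e (nat_lit 114711) (nat_lit 21) (.e (nat_lit 57854) (nat_lit 252) .nil)))))) (.g (nat_lit 5) .nil .nil)))))) (.nd (nat_lit 3) (.nd (nat_lit 4) (.nd (nat_lit 5) 
(.lf (nat_lit 159940) (.g (nat_lit 2376) (.e (nat_lit 57436) (nat_lit 17) (.e (nat_lit 376842) (nat_lit 11) (.e (nat_lit 426188) (nat_lit 9) (.e (nat_lit 426449) (nat_lit 20) (.e (nat_lit 114711) (nat_lit 21) (.e (nat_lit 57844) (nat_lit 252) .nil)))))) (.g (nat_lit 4) .nil .nil))) 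
(.lf (nat_lit 159972) (.g (nat_lit 2626) (.e (nat_lit 57436) (nat_lit 17) (.e (nat_lit 376842) (nat_lit 11) (.e (nat_lit 426190) (nat_lit 9) (.e (nat_lit 426446) (nat_lit 20) (.e (nat_lit 114711) (nat_lit 21) (.e (nat_lit 57848) (nat_lit 252) .nil)))))) (.g (nat_lit 5) .nil .nil)))) (.nd (nat_lit 5) 
(.lf (nat_lit 159956) (.g (nat_lit 3011) (.e (nat_lit 57436) (nat_lit 17) (.e (nat_lit 376842) (nat_lit 11) (.e (nat_lit 426189) (nat_lit 9) (.e (nat_lit 426448) (nat_lit 20) (.e (nat_lit 114710) (nat_lit 21) (.e (nat_lit 57848) (nat_lit 252) .nil)))))) (.g (nat_lit 5) .nil .nil))) 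
(.lf (nat_lit 159988) (.g (nat_lit 2974) (.e (nat_lit 57436) (nat_lit 17) (.e (nat_lit 376842) (nat_lit 11) (.e (nat_lit 426196) (nat_lit 9) (.e (nat_lit 426448) (nat_lit 20) (.e (nat_lit 114710) (nat_lit 21) (.e (nat_lit 57848) (nat_lit 252) .nil)))))) (.g (nat_lit 5) .nil .nil))))) (.nd (nat_lit 4) (.nd (nat_lit 5) 
(.lf (nat_lit 159948) (.g (nat_lit 2576) (.e (nat_lit 57436) (nat_lit 17) (.e (nat_lit 376842) (nat_lit 11) (.e (nat_lit 426189) (nat_lit 9) (.e (nat_lit 426446) (nat_lit 20) (.e (nat_lit 114710) (nat_lit 21) (.e (nat_lit 57847) (nat_lit 252) .nil)))))) (.g (nat_lit 5) .nil .nil))) 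
(.lf (nat_lit 159980) (.g (nat_lit 3475) (.e (nat_lit 57436) (nat_lit 17) (.e (nat_lit 376842) (nat_lit 11) (.e (nat_lit 426190) (nat_lit 9) (.e (nat_lit 426448) (nat_lit 20) (.e (nat_lit 114711) (nat_lit 21) (.e (nat_lit 57844) (nat_lit 252) .nil)))))) (.g (nat_lit 6) .nil .nil)))) (.nd (nat_lit 5) 
(.lf (nat_lit 159964) (.g (nat_lit 2991) (.e (nat_lit 57436) (nat_lit 17) (.e (nat_lit 376842) (nat_lit 11) (.e (nat_lit 426190) (nat_lit 9) (.e (nat_lit 426446) (nat_lit 20) (.e (nat_lit 114710) (nat_lit 21) (.e (nat_lit 57847) (nat_lit 252) .nil)))))) (.g (nat_lit 6) .nil .nil))) 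
(.lf (nat_lit 159996) (.g (nat_lit 2141) (.e (nat_lit 57436) (nat_lit 17) (.e (nat_lit 376842) (nat_lit 11) (.e (nat_lit 426197) (nat_lit 9) (.e (nat_lit 426446) (nat_lit 20) (.e (nat_lit 114710) (nat_lit 21) (.e (nat_lit 57851) (nat_lit 252) .nil)))))) (.g (nat_lit 5) .nil .nil))))))) (.nd (nat_lit 2) (.nd (nat_lit 3) (.nd (nat_lit 4) (.nd (nat_lit 5) 
(.lf (nat_lit 159938) (.g (nat_lit 2282) (.e (nat_lit 57436) (nat_lit 17) (.e (nat_lit 376842) (nat_lit 11) (.e (nat_lit 426188) (nat_lit 9) (.e (nat_lit 426449) (nat_lit 20) (.e (nat_lit 114710) (nat_lit 21) (.e (nat_lit 57854) (nat_lit 252) .nil)))))) (.g (nat_lit 4) .nil .nil))) 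
(.lf (nat_lit 159970) (.g (nat_lit 2741) (.e (nat_lit 57436) (nat_lit 17) (.e (nat_lit 376842) (nat_lit 11) (.e (nat_lit 426190) (nat_lit 9) (.e (nat_lit 426446) (nat_lit 20) (.e (nat_lit 114711) (nat_lit 21) (.e (nat_lit 57846) (nat_lit 252) .nil)))))) (.g (nat_lit 5) .nil .nil)))) (.nd (nat_lit 5) 
(.lf (nat_lit 159954) (.g (nat_lit 3385) (.e (nat_lit 57436) (nat_lit 17) (.e (nat_lit 376842) (nat_lit 11) (.e (nat_lit 426189) (nat_lit 9) (.e (nat_lit 426448) (nat_lit 20) (.e (nat_lit 114710) (nat_lit 21) (.e (nat_lit 57844) (nat_lit 252) .nil)))))) (.g (nat_lit 6) .nil .nil))) 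
(.lf (nat_lit 159986) (.g (nat_lit 2969) (.e (nat_lit 57436) (nat_lit 17) (.e (nat_lit 376842) (nat_lit 11) (.e (nat_lit 426190) (nat_lit 9) (.e (nat_lit 426448) (nat_lit 20) (.e (nat_lit 114712) (nat_lit 21) (.e (nat_lit 57852) (nat_lit 252) .nil)))))) (.g (nat_lit 0) .nil .nil))))) (.nd (nat_lit 4) (.nd (nat_lit 5) 
(.lf (nat_lit 159946) (.g (nat_lit 2536) (.e (nat_lit 57436) (nat_lit 17) (.e (nat_lit 376842) (nat_lit 11) (.e (nat_lit 426188) (nat_lit 9) (.e (nat_lit 426449) (nat_lit 20) (.e (nat_lit 114712) (nat_lit 21) (.e (nat_lit 57854) (nat_lit 252) .nil)))))) (.g (nat_lit 5) .nil .nil))) 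
(.lf (nat_lit 159978) (.g (nat_lit 2833) (.e (nat_lit 57436) (nat_lit 17) (.e (nat_lit 376842) (nat_lit 11) (.e (nat_lit 426190) (nat_lit 9) (.e (nat_lit 426448) (nat_lit 20) (.e (nat_lit 114710) (nat_lit 21) (.e (nat_lit 57848) (nat_lit 252) .nil)))))) (.g (nat_lit 5) .nil .nil)))) (.nd (nat_lit 5) 
(.lf (nat_lit 159962) (.g (nat_lit 2843) (.e (nat_lit 57436) (nat_lit 17) (.e (nat_lit 376842) (nat_lit 11) (.e (nat_lit 426190) (nat_lit 9) (.e (nat_lit 426446) (nat_lit 20) (.e (nat_lit 114710) (nat_lit 21) (.e (nat_lit 57844) (nat_lit 252) .nil)))))) (.g (nat_lit 6) .nil .nil))) 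
(.lf (nat_lit 159994) (.g (nat_lit 2381) (.e (nat_lit 57436) (nat_lit 17) (.e (nat_lit 376842) (nat_lit 11) (.e (nat_lit 426197) (nat_lit 9) (.e (nat_lit 426446) (nat_lit 20) (.e (nat_lit 114710) (nat_lit 21) (.e (nat_lit 57844) (nat_lit 252) .nil)))))) (.g (nat_lit 5) .nil .nil)))))) (.nd (nat_lit 3) (.nd (nat_lit 4) (.nd (nat_lit 5) 
(.lf (nat_lit 159942) (.g (nat_lit 1968) (.e (nat_lit 57436) (nat_lit 17) (.e (nat_lit 376842) (nat_lit 11) (.e (nat_lit 426188) (nat_lit 9) (.e (nat_lit 426449) (nat_lit 20) (.e (nat_lit 114711) (nat_lit 21) (.e (nat_lit 57853) (nat_lit 252) .nil)))))) (.g (nat_lit 4) .nil .nil))) 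
(.lf (nat_lit 159974) (.g (nat_lit 2939) (.e (nat_lit 57436) (nat_lit 17) (.e (nat_lit 376842) (nat_lit 11) (.e (nat_lit 426190) (nat_lit 9) (.e (nat_lit 426446) (nat_lit 20) (.e (nat_lit 114712) (nat_lit 21) (.e (nat_lit 57852) (nat_lit 252) .nil)))))) (.g (nat_lit 0) .nil .nil)))) (.nd (nat_lit 5) 
(.lf (nat_lit 159958) (.g (nat_lit 3601) (.e (nat_lit 57436) (nat_lit 17) (.e (nat_lit 376842) (nat_lit 11) (.e (nat_lit 426189) (nat_lit 9) (.e (nat_lit 426448) (nat_lit 20) (.e (nat_lit 114710) (nat_lit 21) (.e (nat_lit 57853) (nat_lit 252) .nil)))))) (.g (nat_lit 0) .nil .nil))) 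
(.lf (nat_lit 159990) (.g (nat_lit 2734) (.e (nat_lit 57436) (nat_lit 17) (.e (nat_lit 376842) (nat_lit 11) (.e (nat_lit 426196) (nat_lit 9) (.e (nat_lit 426448) (nat_lit 20) (.e (nat_lit 114711) (nat_lit 21) (.e (nat_lit 57848) (nat_lit 252) .nil)))))) (.g (nat_lit 5) .nil .nil))))) (.nd (nat_lit 4) (.nd (nat_lit 5) 
(.lf (nat_lit 159950) (.g (nat_lit 2464) (.e (nat_lit 57436) (nat_lit 17) (.e (nat_lit 376842) (nat_lit 11) (.e (nat_lit 426189) (nat_lit 9) (.e (nat_lit 426446) (nat_lit 20) (.e (nat_lit 114710) (nat_lit 21) (.e (nat_lit 57854) (nat_lit 252) .nil)))))) (.g (nat_lit 5) .nil .nil))) 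
(.lf (nat_lit 159982) (.g (nat_lit 3649) (.e (nat_lit 57436) (nat_lit 17) (.e (nat_lit 376842) (nat_lit 11) (.e (nat_lit 426190) (nat_lit 9) (.e (nat_lit 426448) (nat_lit 20) (.e (nat_lit 114711) (nat_lit 21) (.e (nat_lit 57847) (nat_lit 252) .nil)))))) (.g (nat_lit 6) .nil .nil)))) (.nd (nat_lit 5) 
(.lf (nat_lit 159966) (.g (nat_lit 2555) (.e (nat_lit 57436) (nat_lit 17) (.e (nat_lit 376842) (nat_lit 11) (.e (nat_lit 426190) (nat_lit 9) (.e (nat_lit 426446) (nat_lit 20) (.e (nat_lit 114710) (nat_lit 21) (.e (nat_lit 57851) (nat_lit 252) .nil)))))) (.g (nat_lit 5) .nil .nil))) 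
(.lf (nat_lit 159998) (.g (nat_lit 2290) (.e (nat_lit 57436) (nat_lit 17) (.e (nat_lit 376842) (nat_lit 11) (.e (nat_lit 426197) (nat_lit 9) (.e (nat_lit 426446) (nat_lit 20) (.e (nat_lit 114711) (nat_lit 21) (.e (nat_lit 57848) (nat_lit 252) .nil)))))) (.g (nat_lit 5) .nil .nil)))))))) (.nd (nat_lit 1) (.nd (nat_lit 2) (.nd (nat_lit 3) (.nd (nat_lit 4) (.nd (nat_lit 5) 
(.lf (nat_lit 159937) (.g (nat_lit 2372) (.e (nat_lit 57436) (nat_lit 17) (.e (nat_lit 376842) (nat_lit 11) (.e (nat_lit 426188) (nat_lit 9) (.e (nat_lit 426449) (nat_lit 20) (.e (nat_lit 114710) (nat_lit 21) (.e (nat_lit 57853) (nat_lit 252) .nil)))))) (.g (nat_lit 4) .nil .nil))) 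
(.lf (nat_lit 159969) (.g (nat_lit 2899) (.e (nat_lit 57436) (nat_lit 17) (.e (nat_lit 376842) (nat_lit 11) (.e (nat_lit 426190) (nat_lit 9) (.e (nat_lit 426446) (nat_lit 20) (.e (nat_lit 114710) (nat_lit 21) (.e (nat_lit 57854) (nat_lit 252) .nil)))))) (.g (nat_lit 6) .nil .nil)))) (.nd (nat_lit 5) 
(.lf (nat_lit 159953) (.g (nat_lit 2298) (.e (nat_lit 57436) (nat_lit 17) (.e (nat_lit 376842) (nat_lit 11) (.e (nat_lit 426189) (nat_lit 9) (.e (nat_lit 426446) (nat_lit 20) (.e (nat_lit 114712) (nat_lit 21) (.e (nat_lit 57854) (nat_lit 252) .nil)))))) (.g (nat_lit 5) .nil .nil))) 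
(.lf (nat_lit 159985) (.g (nat_lit 1620) (.e (nat_lit 57436) (nat_lit 17) (.e (nat_lit 376842) (nat_lit 11) (.e (nat_lit 426190) (nat_lit 9) (.e (nat_lit 426448) (nat_lit 20) (.e (nat_lit 114712) (nat_lit 21) (.e (nat_lit 57851) (nat_lit 252) .nil)))))) (.g (nat_lit 4) .nil .nil))))) (.nd (nat_lit 4) (.nd (nat_lit 5) 
(.lf (nat_lit 159945) (.g (nat_lit 2711) (.e (nat_lit 57436) (nat_lit 17) (.e (nat_lit 376842) (nat_lit 11) (.e (nat_lit 426188) (nat_lit 9) (.e (nat_lit 426449) (nat_lit 20) (.e (nat_lit 114712) (nat_lit 21) (.e (nat_lit 57853) (nat_lit 252) .nil)))))) (.g (nat_lit 5) .nil .nil))) 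
(.lf (nat_lit 159977) (.g (nat_lit 3279) (.e (nat_lit 57436) (nat_lit 17) (.e (nat_lit 376842) (nat_lit 11) (.e (nat_lit 426190) (nat_lit 9) (.e (nat_lit 426448) (nat_lit 20) (.e (nat_lit 114710) (nat_lit 21) (.e (nat_lit 57847) (nat_lit 252) .nil)))))) (.g (nat_lit 6) .nil .nil)))) (.nd (nat_lit 5) 
(.lf (nat_lit 159961) (.g (nat_lit 2981) (.e (nat_lit 57436) (nat_lit 17) (.e (nat_lit 376842) (nat_lit 11) (.e (nat_lit 426189) (nat_lit 9) (.e (nat_lit 426448) (nat_lit 20) (.e (nat_lit 114712) (nat_lit 21) (.e (nat_lit 57854) (nat_lit 252) .nil)))))) (.g (nat_lit 0) .nil .nil))) 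
(.lf (nat_lit 159993) (.g (nat_lit 2757) (.e (nat_lit 57436) (nat_lit 17) (.e (nat_lit 376842) (nat_lit 11) (.e (nat_lit 426196) (nat_lit 9) (.e (nat_lit 426448) (nat_lit 20) (.e (nat_lit 114712) (nat_lit 21) (.e (nat_lit 57853) (nat_lit 252) .nil)))))) (.g (nat_lit 5) .nil .nil)))))) (.nd (nat_lit 3) (.nd (nat_lit 4) (.nd (nat_lit 5) 
(.lf (nat_lit 159941) (.g (nat_lit 2986) (.e (nat_lit 57436) (nat_lit 17) (.e (nat_lit 376842) (nat_lit 11) (.e (nat_lit 426188) (nat_lit 9) (.e (nat_lit 426449) (nat_lit 20) (.e (nat_lit 114711) (nat_lit 21) (.e (nat_lit 57847) (nat_lit 252) .nil)))))) (.g (nat_lit 5) .nil .nil))) 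
(.lf (nat_lit 159973) (.g (nat_lit 1701) (.e (nat_lit 57436) (nat_lit 17) (.e (nat_lit 376842) (nat_lit 11) (.e (nat_lit 426190) (nat_lit 9) (.e (nat_lit 426446) (nat_lit 20) (.e (nat_lit 114712) (nat_lit 21) (.e (nat_lit 57851) (nat_lit 252) .nil)))))) (.g (nat_lit 4) .nil .nil)))) (.nd (nat_lit 5) 
(.lf (nat_lit 159957) (.g (nat_lit 3631) (.e (nat_lit 57436) (nat_lit 17) (.e (nat_lit 376842) (nat_lit 11) (.e (nat_lit 426189) (nat_lit 9) (.e (nat_lit 426448) (nat_lit 20) (.e (nat_lit 114710) (nat_lit 21) (.e (nat_lit 57852) (nat_lit 252) .nil)))))) (.g (nat_lit 0) .nil .nil))) 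
(.lf (nat_lit 159989) (.g (nat_lit 3041) (.e (nat_lit 57436) (nat_lit 17) (.e (nat_lit 376842) (nat_lit 11) (.e (nat_lit 426196) (nat_lit 9) (.e (nat_lit 426448) (nat_lit 20) (.e (nat_lit 114711) (nat_lit 21) (.e (nat_lit 57846) (nat_lit 252) .nil)))))) (.g (nat_lit 5) .nil .nil))))) (.nd (nat_lit 4) (.nd (nat_lit 5) 
(.lf (nat_lit 159949) (.g (nat_lit 2113) (.e (nat_lit 57436) (nat_lit 17) (.e (nat_lit 376842) (nat_lit 11) (.e (nat_lit 426189) (nat_lit 9) (.e (nat_lit 426446) (nat_lit 20) (.e (nat_lit 114710) (nat_lit 21) (.e (nat_lit 57851) (nat_lit 252) .nil)))))) (.g (nat_lit 4) .nil .nil))) 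
(.lf (nat_lit 159981) (.g (nat_lit 2955) (.e (nat_lit 57436) (nat_lit 17) (.e (nat_lit 376842) (nat_lit 11) (.e (nat_lit 426190) (nat_lit 9) (.e (nat_lit 426448) (nat_lit 20) (.e (nat_lit 114711) (nat_lit 21) (.e (nat_lit 57846) (nat_lit 252) .nil)))))) (.g (nat_lit 6) .nil .nil)))) (.nd (nat_lit 5) 
(.lf (nat_lit 159965) (.g (nat_lit 2295) (.e (nat_lit 57436) (nat_lit 17) (.e (nat_lit 376842) (nat_lit 11) (.e (nat_lit 426190) (nat_lit 9) (.e (nat_lit 426446) (nat_lit 20) (.e (nat_lit 114710) (nat_lit 21) (.e (nat_lit 57848) (nat_lit 252) .nil)))))) (.g (nat_lit 5) .nil .nil))) 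
(.lf (nat_lit 159997) (.g (nat_lit 2818) (.e (nat_lit 57436) (nat_lit 17) (.e (nat_lit 376842) (nat_lit 11) (.e (nat_lit 426197) (nat_lit 9) (.e (nat_lit 426446) (nat_lit 20) (.e (nat_lit 114710) (nat_lit 21) (.e (nat_lit 57852) (nat_lit 252) .nil)))))) (.g (nat_lit 0) .nil .nil))))))) (.nd (nat_lit 2) (.nd (nat_lit 3) (.nd (nat_lit 4) (.nd (nat_lit 5) 
(.lf (nat_lit 159939) (.g (nat_lit 1851) (.e (nat_lit 57436) (nat_lit 17) (.e (nat_lit 376842) (nat_lit 11) (.e (nat_lit 426188) (nat_lit 9) (.e (nat_lit 426449) (nat_lit 20) (.e (nat_lit 114711) (nat_lit 21) .nil))))) .nil)) 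
(.lf (nat_lit 159971) (.g (nat_lit 3364) (.e (nat_lit 57436) (nat_lit 17) (.e (nat_lit 376842) (nat_lit 11) (.e (nat_lit 426190) (nat_lit 9) (.e (nat_lit 426446) (nat_lit 20) (.e (nat_lit 114711) (nat_lit 21) (.e (nat_lit 57847) (nat_lit 252) .nil)))))) (.g (nat_lit 6) .nil .nil)))) (.nd (nat_lit 5) 
(.lf (nat_lit 159955) (.g (nat_lit 3443) (.e (nat_lit 57436) (nat_lit 17) (.e (nat_lit 376842) (nat_lit 11) (.e (nat_lit 426189) (nat_lit 9) (.e (nat_lit 426448) (nat_lit 20) (.e (nat_lit 114710) (nat_lit 21) (.e (nat_lit 57847) (nat_lit 252) .nil)))))) (.g (nat_lit 6) .nil .nil))) 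
(.lf (nat_lit 159987) (.g (nat_lit 2760) (.e (nat_lit 57436) (nat_lit 17) (.e (nat_lit 376842) (nat_lit 11) (.e (nat_lit 426190) (nat_lit 9) (.e (nat_lit 426448) (nat_lit 20) (.e (nat_lit 114712) (nat_lit 21) (.e (nat_lit 57853) (nat_lit 252) .nil)))))) (.g (nat_lit 6) .nil .nil))))) (.nd (nat_lit 4) (.nd (nat_lit 5) 
(.lf (nat_lit 159947) (.g (nat_lit 1763) (.e (nat_lit 57436) (nat_lit 17) (.e (nat_lit 376842) (nat_lit 11) (.e (nat_lit 426188) (nat_lit 9) (.e (nat_lit 433920) (nat_lit 20) .nil)))) .nil)) 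
(.lf (nat_lit 159979) (.g (nat_lit 3455) (.e (nat_lit 57436) (nat_lit 17) (.e (nat_lit 376842) (nat_lit 11) (.e (nat_lit 426190) (nat_lit 9) (.e (nat_lit 426448) (nat_lit 20) (.e (nat_lit 114710) (nat_lit 21) (.e (nat_lit 57852) (nat_lit 252) .nil)))))) (.g (nat_lit 0) .nil .nil)))) (.nd (nat_lit 5) 
(.lf (nat_lit 159963) (.g (nat_lit 2608) (.e (nat_lit 57436) (nat_lit 17) (.e (nat_lit 376842) (nat_lit 11) (.e (nat_lit 426190) (nat_lit 9) (.e (nat_lit 426446) (nat_lit 20) (.e (nat_lit 114710) (nat_lit 21) (.e (nat_lit 57846) (nat_lit 252) .nil)))))) (.g (nat_lit 5) .nil .nil))) 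
(.lf (nat_lit 159995) (.g (nat_lit 1880) (.e (nat_lit 57436) (nat_lit 17) (.e (nat_lit 376842) (nat_lit 11) (.e (nat_lit 426197) (nat_lit 9) (.e (nat_lit 426446) (nat_lit 20) (.e (nat_lit 114710) (nat_lit 21) (.e (nat_lit 57848) (nat_lit 252) .nil)))))) (.g (nat_lit 4) .nil .nil)))))) (.nd (nat_lit 3) (.nd (nat_lit 4) (.nd (nat_lit 5) 
(.lf (nat_lit 159943) (.g (nat_lit 1822) (.e (nat_lit 57436) (nat_lit 17) (.e (nat_lit 376842) (nat_lit 11) (.e (nat_lit 426188) (nat_lit 9) (.e (nat_lit 426449) (nat_lit 20) (.e (nat_lit 114712) (nat_lit 21) .nil))))) .nil)) 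
(.lf (nat_lit 159975) (.g (nat_lit 2669) (.e (nat_lit 57436) (nat_lit 17) (.e (nat_lit 376842) (nat_lit 11) (.e (nat_lit 426190) (nat_lit 9) (.e (nat_lit 426446) (nat_lit 20) (.e (nat_lit 114712) (nat_lit 21) (.e (nat_lit 57854) (nat_lit 252) .nil)))))) (.g (nat_lit 6) .nil .nil)))) (.nd (nat_lit 5) 
(.lf (nat_lit 159959) (.g (nat_lit 3423) (.e (nat_lit 57436) (nat_lit 17) (.e (nat_lit 376842) (nat_lit 11) (.e (nat_lit 426189) (nat_lit 9) (.e (nat_lit 426448) (nat_lit 20) (.e (nat_lit 114710) (nat_lit 21) (.e (nat_lit 57854) (nat_lit 252) .nil)))))) (.g (nat_lit 0) .nil .nil))) 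
(.lf (nat_lit 159991) (.g (nat_lit 3014) (.e (nat_lit 57436) (nat_lit 17) (.e (nat_lit 376842) (nat_lit 11) (.e (nat_lit 426196) (nat_lit 9) (.e (nat_lit 426448) (nat_lit 20) (.e (nat_lit 114711) (nat_lit 21) (.e (nat_lit 57853) (nat_lit 252) .nil)))))) (.g (nat_lit 5) .nil .nil))))) (.nd (nat_lit 4) (.nd (nat_lit 5) 
(.lf (nat_lit 159951) (.g (nat_lit 2328) (.e (nat_lit 57436) (nat_lit 17) (.e (nat_lit 376842) (nat_lit 11) (.e (nat_lit 426189) (nat_lit 9) (.e (nat_lit 426446) (nat_lit 20) (.e (nat_lit 114711) (nat_lit 21) (.e (nat_lit 57846) (nat_lit 252) .nil)))))) (.g (nat_lit 4) .nil .nil))) 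
(.lf (nat_lit 159983) (.g (nat_lit 2739) (.e (nat_lit 57436) (nat_lit 17) (.e (nat_lit 376842) (nat_lit 11) (.e (nat_lit 426190) (nat_lit 9) (.e (nat_lit 426448) (nat_lit 20) (.e (nat_lit 114711) (nat_lit 21) (.e (nat_lit 57848) (nat_lit 252) .nil)))))) (.g (nat_lit 5) .nil .nil)))) (.nd (nat_lit 5) 
(.lf (nat_lit 159967) (.g (nat_lit 3217) (.e (nat_lit 57436) (nat_lit 17) (.e (nat_lit 376842) (nat_lit 11) (.e (nat_lit 426190) (nat_lit 9) (.e (nat_lit 426446) (nat_lit 20) (.e (nat_lit 114710) (nat_lit 21) (.e (nat_lit 57852) (nat_lit 252) .nil)))))) (.g (nat_lit 0) .nil .nil))) 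
(.lf (nat_lit 159999) (.g (nat_lit 2559) (.e (nat_lit 57436) (nat_lit 17) (.e (nat_lit 376842) (nat_lit 11) (.e (nat_lit 426197) (nat_lit 9) (.e (nat_lit 426446) (nat_lit 20) (.e (nat_lit 114712) (nat_lit 21) (.e (nat_lit 57852) (nat_lit 252) .nil)))))) (.g (nat_lit 0) .nil .nil)))))))))

noncomputable def tv2142 : DT := (.nd (nat_lit 0) (.nd (nat_lit 1) (.nd (nat_lit 2) (.nd (nat_lit 3) (.nd (nat_lit 4) (.nd (nat_lit 5) 
(.lf (nat_lit 160000) (.g (nat_lit 2347) (.e (nat_lit 57436) (nat_lit 17) (.e (nat_lit 376842) (nat_lit 11) (.e (nat_lit 426197) (nat_lit 9) (.e (nat_lit 426446) (nat_lit 20) (.e (nat_lit 114712) (nat_lit 21) (.e (nat_lit 57853) (nat_lit 252) .nil)))))) (.g (nat_lit 6) .nil .nil))) 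
(.lf (nat_lit 160032) (.g (nat_lit 2904) (.e (nat_lit 57436) (nat_lit 17) (.e (nat_lit 376842) (nat_lit 11) (.e (nat_lit 426198) (nat_lit 9) (.e (nat_lit 426448) (nat_lit 20) (.e (nat_lit 114711) (nat_lit 21) (.e (nat_lit 57854) (nat_lit 252) .nil)))))) (.g (nat_lit 6) .nil .nil)))) (.nd (nat_lit 5) 
(.lf (nat_lit 160016) (.g (nat_lit 3007) (.e (nat_lit 57436) (nat_lit 17) (.e (nat_lit 376842) (nat_lit 11) (.e (nat_lit 426198) (nat_lit 9) (.e (nat_lit 426446) (nat_lit 20) (.e (nat_lit 114710) (nat_lit 21) (.e (nat_lit 57854) (nat_lit 252) .nil)))))) (.g (nat_lit 6) .nil .nil))) 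
(.lf (nat_lit 160048) (.g (nat_lit 3049) (.e (nat_lit 57436) (nat_lit 17) (.e (nat_lit 376842) (nat_lit 11) (.e (nat_lit 426199) (nat_lit 9) (.e (nat_lit 426448) (nat_lit 20) (.e (nat_lit 114710) (nat_lit 21) (.e (nat_lit 57848) (nat_lit 252) .nil)))))) (.g (nat_lit 5) .nil .nil))))) (.nd (nat_lit 4) (.nd (nat_lit 5) 
(.lf (nat_lit 160008) (.g (nat_lit 2624) (.e (nat_lit 57436) (nat_lit 17) (.e (nat_lit 376842) (nat_lit 11) (.e (nat_lit 426197) (nat_lit 9) (.e (nat_lit 426448) (nat_lit 20) (.e (nat_lit 114712) (nat_lit 21) (.e (nat_lit 57852) (nat_lit 252) .nil)))))) (.g (nat_lit 0) .nil .nil))) 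
(.lf (nat_lit 160040) (.g (nat_lit 1851) (.e (nat_lit 57436) (nat_lit 17) (.e (nat_lit 376842) (nat_lit 11) (.e (nat_lit 426199) (nat_lit 9) (.e (nat_lit 426446) (nat_lit 20) (.e (nat_lit 114710) (nat_lit 21) (.e (nat_lit 57852) (nat_lit 252) .nil)))))) (.g (nat_lit 4) .nil .nil)))) (.nd (nat_lit 5) 
(.lf (nat_lit 160024) (.g (nat_lit 2816) (.e (nat_lit 57436) (nat_lit 17) (.e (nat_lit 376842) (nat_lit 11) (.e (nat_lit 426198) (nat_lit 9) (.e (nat_lit 426446) (nat_lit 20) (.e (nat_lit 114712) (nat_lit 21) (.e (nat_lit 57854) (nat_lit 252) .nil)))))) (.g (nat_lit 6) .nil .nil))) 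
(.lf (nat_lit 160056) (.g (nat_lit 2951) (.e (nat_lit 57436) (nat_lit 17) (.e (nat_lit 376842) (nat_lit 11) (.e (nat_lit 426199) (nat_lit 9) (.e (nat_lit 426448) (nat_lit 20) (.e (nat_lit 114712) (nat_lit 21) (.e (nat_lit 57852) (nat_lit 252) .nil)))))) (.g (nat_lit 6) .nil .nil)))))) (.nd (nat_lit 3) (.nd (nat_lit 4) (.nd (nat_lit 5) 
(.lf (nat_lit 160004) (.g (nat_lit 3139) (.e (nat_lit 57436) (nat_lit 17) (.e (nat_lit 376842) (nat_lit 11) (.e (nat_lit 426197) (nat_lit 9) (.e (nat_lit 426448) (nat_lit 20) (.e (nat_lit 114710) (nat_lit 21) (.e (nat_lit 57853) (nat_lit 252) .nil)))))) (.g (nat_lit 6) .nil .nil))) 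
(.lf (nat_lit 160036) (.g (nat_lit 1823) (.e (nat_lit 57436) (nat_lit 17) (.e (nat_lit 376842) (nat_lit 11) (.e (nat_lit 426198) (nat_lit 9) (.e (nat_lit 426449) (nat_lit 20) (.e (nat_lit 114712) (nat_lit 21) .nil))))) .nil))) (.nd (nat_lit 5) 
(.lf (nat_lit 160020) (.g (nat_lit 2842) (.e (nat_lit 57436) (nat_lit 17) (.e (nat_lit 376842) (nat_lit 11) (.e (nat_lit 426198) (nat_lit 9) (.e (nat_lit 426446) (nat_lit 20) (.e (nat_lit 114711) (nat_lit 21) (.e (nat_lit 57848) (nat_lit 252) .nil)))))) (.g (nat_lit 5) .nil .nil))) 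
(.lf (nat_lit 160052) (.g (nat_lit 3461) (.e (nat_lit 57436) (nat_lit 17) (.e (nat_lit 376842) (nat_lit 11) (.e (nat_lit 426199) (nat_lit 9) (.e (nat_lit 426448) (nat_lit 20) (.e (nat_lit 114710) (nat_lit 21) (.e (nat_lit 57854) (nat_lit 252) .nil)))))) (.g (nat_lit 6) .nil .nil))))) (.nd (nat_lit 4) (.nd (nat_lit 5) 
(.lf (nat_lit 160012) (.g (nat_lit 2912) (.e (nat_lit 57436) (nat_lit 17) (.e (nat_lit 376842) (nat_lit 11) (.e (nat_lit 426198) (nat_lit 9) (.e (nat_lit 426446) (nat_lit 20) (.e (nat_lit 114710) (nat_lit 21) (.e (nat_lit 57844) (nat_lit 252) .nil)))))) (.g (nat_lit 5) .nil .nil))) 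
(.lf (nat_lit 160044) (.g (nat_lit 1575) (.e (nat_lit 57436) (nat_lit 17) (.e (nat_lit 376842) (nat_lit 11) (.e (nat_lit 426199) (nat_lit 9) (.e (nat_lit 426446) (nat_lit 20) (.e (nat_lit 114712) (nat_lit 21) .nil))))) .nil))) (.nd (nat_lit 5) 
(.lf (nat_lit 160028) (.g (nat_lit 2975) (.e (nat_lit 57436) (nat_lit 17) (.e (nat_lit 376842) (nat_lit 11) (.e (nat_lit 426198) (nat_lit 9) (.e (nat_lit 426448) (nat_lit 20) (.e (nat_lit 114711) (nat_lit 21) (.e (nat_lit 57846) (nat_lit 252) .nil)))))) (.g (nat_lit 6) .nil .nil))) 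
(.lf (nat_lit 160060) (.g (nat_lit 2854) (.e (nat_lit 57436) (nat_lit 17) (.e (nat_lit 376842) (nat_lit 11) (.e (nat_lit 426200) (nat_lit 9) (.e (nat_lit 426446) (nat_lit 20) (.e (nat_lit 114710) (nat_lit 21) (.e (nat_lit 57844) (nat_lit 252) .nil)))))) (.g (nat_lit 6) .nil .nil))))))) (.nd (nat_lit 2) (.nd (nat_lit 3) (.nd (nat_lit 4) (.nd (nat_lit 5) 
(.lf (nat_lit 160002) (.g (nat_lit 2584) (.e (nat_lit 57436) (nat_lit 17) (.e (nat_lit 376842) (nat_lit 11) (.e (nat_lit 426197) (nat_lit 9) (.e (nat_lit 426448) (nat_lit 20) (.e (nat_lit 114710) (nat_lit 21) (.e (nat_lit 57848) (nat_lit 252) .nil)))))) (.g (nat_lit 5) .nil .nil))) 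
(.lf (nat_lit 160034) (.g (nat_lit 1967) (.e (nat_lit 57436) (nat_lit 17) (.e (nat_lit 376842) (nat_lit 11) (.e (nat_lit 426198) (nat_lit 9) (.e (nat_lit 426449) (nat_lit 20) (.e (nat_lit 114710) (nat_lit 21) (.e (nat_lit 57852) (nat_lit 252) .nil)))))) (.g (nat_lit 4) .nil .nil)))) (.nd (nat_lit 5) 
(.lf (nat_lit 160018) (.g (nat_lit 2813) (.e (nat_lit 57436) (nat_lit 17) (.e (nat_lit 376842) (nat_lit 11) (.e (nat_lit 426198) (nat_lit 9) (.e (nat_lit 426446) (nat_lit 20) (.e (nat_lit 114711) (nat_lit 21) (.e (nat_lit 57846) (nat_lit 252) .nil)))))) (.g (nat_lit 5) .nil .nil))) 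
(.lf (nat_lit 160050) (.g (nat_lit 3681) (.e (nat_lit 57436) (nat_lit 17) (.e (nat_lit 376842) (nat_lit 11) (.e (nat_lit 426199) (nat_lit 9) (.e (nat_lit 426448) (nat_lit 20) (.e (nat_lit 114710) (nat_lit 21) (.e (nat_lit 57852) (nat_lit 252) .nil)))))) (.g (nat_lit 6) .nil .nil))))) (.nd (nat_lit 4) (.nd (nat_lit 5) 
(.lf (nat_lit 160010) (.g (nat_lit 1403) (.e (nat_lit 57436) (nat_lit 17) (.e (nat_lit 376842) (nat_lit 11) (.e (nat_lit 426197) (nat_lit 9) (.e (nat_lit 426449) (nat_lit 20) (.e (nat_lit 114712) (nat_lit 21) (.e (nat_lit 57852) (nat_lit 252) .nil)))))) (.g (nat_lit 4) .nil .nil))) 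
(.lf (nat_lit 160042) (.g (nat_lit 1768) (.e (nat_lit 57436) (nat_lit 17) (.e (nat_lit 376842) (nat_lit 11) (.e (nat_lit 426199) (nat_lit 9) (.e (nat_lit 426446) (nat_lit 20) (.e (nat_lit 114711) (nat_lit 21) (.e (nat_lit 57844) (nat_lit 252) .nil)))))) (.g (nat_lit 4) .nil .nil)))) (.nd (nat_lit 5) 
(.lf (nat_lit 160026) (.g (nat_lit 2795) (.e (nat_lit 57436) (nat_lit 17) (.e (nat_lit 376842) (nat_lit 11) (.e (nat_lit 426198) (nat_lit 9) (.e (nat_lit 426448) (nat_lit 20) (.e (nat_lit 114710) (nat_lit 21) (.e (nat_lit 57848) (nat_lit 252) .nil)))))) (.g (nat_lit 6) .nil .nil))) 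
(.lf (nat_lit 160058) (.g (nat_lit 1634) (.e (nat_lit 57436) (nat_lit 17) (.e (nat_lit 376842) (nat_lit 11) (.e (nat_lit 426199) (nat_lit 9) (.e (nat_lit 426449) (nat_lit 20) (.e (nat_lit 114712) (nat_lit 21) .nil))))) .nil))))) (.nd (nat_lit 3) (.nd (nat_lit 4) (.nd (nat_lit 5) 
(.lf (nat_lit 160006) (.g (nat_lit 3294) (.e (nat_lit 57436) (nat_lit 17) (.e (nat_lit 376842) (nat_lit 11) (.e (nat_lit 426197) (nat_lit 9) (.e (nat_lit 426448) (nat_lit 20) (.e (nat_lit 114711) (nat_lit 21) (.e (nat_lit 57844) (nat_lit 252) .nil)))))) (.g (nat_lit 0) .nil .nil))) 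
(.lf (nat_lit 160038) (.g (nat_lit 1237) (.e (nat_lit 57436) (nat_lit 17) (.e (nat_lit 376842) (nat_lit 11) (.e (nat_lit 426198) (nat_lit 9) (.e (nat_lit 433920) (nat_lit 20) .nil)))) .nil))) (.nd (nat_lit 5) 
(.lf (nat_lit 160022) (.g (nat_lit 2679) (.e (nat_lit 57436) (nat_lit 17) (.e (nat_lit 376842) (nat_lit 11) (.e (nat_lit 426198) (nat_lit 9) (.e (nat_lit 426446) (nat_lit 20) (.e (nat_lit 114711) (nat_lit 21) (.e (nat_lit 57854) (nat_lit 252) .nil)))))) (.g (nat_lit 5) .nil .nil))) 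
(.lf (nat_lit 160054) (.g (nat_lit 3054) (.e (nat_lit 57436) (nat_lit 17) (.e (nat_lit 376842) (nat_lit 11) (.e (nat_lit 426199) (nat_lit 9) (.e (nat_lit 426448) (nat_lit 20) (.e (nat_lit 114711) (nat_lit 21) (.e (nat_lit 57853) (nat_lit 252) .nil)))))) (.g (nat_lit 5) .nil .nil))))) (.nd (nat_lit 4) (.nd (nat_lit 5) 
(.lf (nat_lit 160014) (.g (nat_lit 2598) (.e (nat_lit 57436) (nat_lit 17) (.e (nat_lit 376842) (nat_lit 11) (.e (nat_lit 426198) (nat_lit 9) (.e (nat_lit 426446) (nat_lit 20) (.e (nat_lit 114710) (nat_lit 21) (.e (nat_lit 57851) (nat_lit 252) .nil)))))) (.g (nat_lit 5) .nil .nil))) 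
(.lf (nat_lit 160046) (.g (nat_lit 3440) (.e (nat_lit 57436) (nat_lit 17) (.e (nat_lit 376842) (nat_lit 11) (.e (nat_lit 426199) (nat_lit 9) (.e (nat_lit 426448) (nat_lit 20) (.e (nat_lit 114710) (nat_lit 21) (.e (nat_lit 57844) (nat_lit 252) .nil)))))) (.g (nat_lit 6) .nil .nil)))) (.nd (nat_lit 5) 
(.lf (nat_lit 160030) (.g (nat_lit 2740) (.e (nat_lit 57436) (nat_lit 17) (.e (nat_lit 376842) (nat_lit 11) (.e (nat_lit 426198) (nat_lit 9) (.e (nat_lit 426448) (nat_lit 20) (.e (nat_lit 114711) (nat_lit 21) (.e (nat_lit 57848) (nat_lit 252) .nil)))))) (.g (nat_lit 5) .nil .nil))) 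
(.lf (nat_lit 160062) (.g (nat_lit 2374) (.e (nat_lit 57436) (nat_lit 17) (.e (nat_lit 376842) (nat_lit 11) (.e (nat_lit 426200) (nat_lit 9) (.e (nat_lit 426446) (nat_lit 20) (.e (nat_lit 114710) (nat_lit 21) (.e (nat_lit 57848) (nat_lit 252) .nil)))))) (.g (nat_lit 4) .nil .nil)))))))) (.nd (nat_lit 1) (.nd (nat_lit 2) (.nd (nat_lit 3) (.nd (nat_lit 4) (.nd (nat_lit 5) 
(.lf (nat_lit 160001) (.g (nat_lit 2314) (.e (nat_lit 57436) (nat_lit 17) (.e (nat_lit 376842) (nat_lit 11) (.e (nat_lit 426197) (nat_lit 9) (.e (nat_lit 426446) (nat_lit 20) (.e (nat_lit 114712) (nat_lit 21) (.e (nat_lit 57854) (nat_lit 252) .nil)))))) (.g (nat_lit 6) .nil .nil))) 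
(.lf (nat_lit 160033) (.g (nat_lit 1210) (.e (nat_lit 57436) (nat_lit 17) (.e (nat_lit 376842) (nat_lit 11) (.e (nat_lit 426198) (nat_lit 9) (.e (nat_lit 426449) (nat_lit 20) .nil)))) .nil))) (.nd (nat_lit 5) 
(.lf (nat_lit 160017) (.g (nat_lit 3198) (.e (nat_lit 57436) (nat_lit 17) (.e (nat_lit 376842) (nat_lit 11) (.e (nat_lit 426198) (nat_lit 9) (.e (nat_lit 426446) (nat_lit 20) (.e (nat_lit 114711) (nat_lit 21) (.e (nat_lit 57844) (nat_lit 252) .nil)))))) (.g (nat_lit 6) .nil .nil))) 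
(.lf (nat_lit 160049) (.g (nat_lit 3303) (.e (nat_lit 57436) (nat_lit 17) (.e (nat_lit 376842) (nat_lit 11) (.e (nat_lit 426199) (nat_lit 9) (.e (nat_lit 426448) (nat_lit 20) (.e (nat_lit 114710) (nat_lit 21) (.e (nat_lit 57851) (nat_lit 252) .nil)))))) (.g (nat_lit 6) .nil .nil))))) (.nd (nat_lit 4) (.nd (nat_lit 5) 
(.lf (nat_lit 160009) (.g (nat_lit 2512) (.e (nat_lit 57436) (nat_lit 17) (.e (nat_lit 376842) (nat_lit 11) (.e (nat_lit 426197) (nat_lit 9) (.e (nat_lit 426448) (nat_lit 20) (.e (nat_lit 114712) (nat_lit 21) (.e (nat_lit 57854) (nat_lit 252) .nil)))))) (.g (nat_lit 6) .nil .nil))) 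
(.lf (nat_lit 160041) (.g (nat_lit 1571) (.e (nat_lit 57436) (nat_lit 17) (.e (nat_lit 376842) (nat_lit 11) (.e (nat_lit 426199) (nat_lit 9) (.e (nat_lit 426446) (nat_lit 20) (.e (nat_lit 114711) (nat_lit 21) .nil))))) .nil))) (.nd (nat_lit 5) 
(.lf (nat_lit 160025) (.g (nat_lit 3195) (.e (nat_lit 57436) (nat_lit 17) (.e (nat_lit 376842) (nat_lit 11) (.e (nat_lit 426198) (nat_lit 9) (.e (nat_lit 426448) (nat_lit 20) (.e (nat_lit 114710) (nat_lit 21) (.e (nat_lit 57847) (nat_lit 252) .nil)))))) (.g (nat_lit 6) .nil .nil))) 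
(.lf (nat_lit 160057) (.g (nat_lit 2792) (.e (nat_lit 57436) (nat_lit 17) (.e (nat_lit 376842) (nat_lit 11) (.e (nat_lit 426199) (nat_lit 9) (.e (nat_lit 426448) (nat_lit 20) (.e (nat_lit 114712) (nat_lit 21) (.e (nat_lit 57853) (nat_lit 252) .nil)))))) (.g (nat_lit 5) .nil .nil)))))) (.nd (nat_lit 3) (.nd (nat_lit 4) (.nd (nat_lit 5) 
(.lf (nat_lit 160005) (.g (nat_lit 3049) (.e (nat_lit 57436) (nat_lit 17) (.e (nat_lit 376842) (nat_lit 11) (.e (nat_lit 426197) (nat_lit 9) (.e (nat_lit 426448) (nat_lit 20) (.e (nat_lit 114710) (nat_lit 21) (.e (nat_lit 57854) (nat_lit 252) .nil)))))) (.g (nat_lit 6) .nil .nil))) 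
(.lf (nat_lit 160037) (.g (nat_lit 2212) (.e (nat_lit 57436) (nat_lit 17) (.e (nat_lit 376842) (nat_lit 11) (.e (nat_lit 426198) (nat_lit 9) (.e (nat_lit 426449) (nat_lit 20) (.e (nat_lit 114712) (nat_lit 21) (.e (nat_lit 57852) (nat_lit 252) .nil)))))) (.g (nat_lit 4) .nil .nil)))) (.nd (nat_lit 5) 
(.lf (nat_lit 160021) (.g (nat_lit 2801) (.e (nat_lit 57436) (nat_lit 17) (.e (nat_lit 376842) (nat_lit 11) (.e (nat_lit 426198) (nat_lit 9) (.e (nat_lit 426446) (nat_lit 20) (.e (nat_lit 114711) (nat_lit 21) (.e (nat_lit 57853) (nat_lit 252) .nil)))))) (.g (nat_lit 5) .nil .nil))) 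
(.lf (nat_lit 160053) (.g (nat_lit 3077) (.e (nat_lit 57436) (nat_lit 17) (.e (nat_lit 376842) (nat_lit 11) (.e (nat_lit 426199) (nat_lit 9) (.e (nat_lit 426448) (nat_lit 20) (.e (nat_lit 114711) (nat_lit 21) (.e (nat_lit 57846) (nat_lit 252) .nil)))))) (.g (nat_lit 5) .nil .nil))))) (.nd (nat_lit 4) (.nd (nat_lit 5) 
(.lf (nat_lit 160013) (.g (nat_lit 2409) (.e (nat_lit 57436) (nat_lit 17) (.e (nat_lit 376842) (nat_lit 11) (.e (nat_lit 426198) (nat_lit 9) (.e (nat_lit 426446) (nat_lit 20) (.e (nat_lit 114710) (nat_lit 21) (.e (nat_lit 57848) (nat_lit 252) .nil)))))) (.g (nat_lit 4) .nil .nil))) 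
(.lf (nat_lit 160045) (.g (nat_lit 1686) (.e (nat_lit 57436) (nat_lit 17) (.e (nat_lit 376842) (nat_lit 11) (.e (nat_lit 426199) (nat_lit 9) (.e (nat_lit 426446) (nat_lit 20) (.e (nat_lit 114712) (nat_lit 21) (.e (nat_lit 57852) (nat_lit 252) .nil)))))) (.g (nat_lit 4) .nil .nil)))) (.nd (nat_lit 5) 
(.lf (nat_lit 160029) (.g (nat_lit 3578) (.e (nat_lit 57436) (nat_lit 17) (.e (nat_lit 376842) (nat_lit 11) (.e (nat_lit 426198) (nat_lit 9) (.e (nat_lit 426448) (nat_lit 20) (.e (nat_lit 114711) (nat_lit 21) (.e (nat_lit 57847) (nat_lit 252) .nil)))))) (.g (nat_lit 6) .nil .nil))) 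
(.lf (nat_lit 160061) (.g (nat_lit 3101) (.e (nat_lit 57436) (nat_lit 17) (.e (nat_lit 376842) (nat_lit 11) (.e (nat_lit 426200) (nat_lit 9) (.e (nat_lit 426446) (nat_lit 20) (.e (nat_lit 114710) (nat_lit 21) (.e (nat_lit 57847) (nat_lit 252) .nil)))))) (.g (nat_lit 6) .nil .nil))))))) (.nd (nat_lit 2) (.nd (nat_lit 3) (.nd (nat_lit 4) (.nd (nat_lit 5) 
(.lf (nat_lit 160003) (.g (nat_lit 2885) (.e (nat_lit 57436) (nat_lit 17) (.e (nat_lit 376842) (nat_lit 11) (.e (nat_lit 426197) (nat_lit 9) (.e (nat_lit 426448) (nat_lit 20) (.e (nat_lit 114710) (nat_lit 21) (.e (nat_lit 57851) (nat_lit 252) .nil)))))) (.g (nat_lit 6) .nil .nil))) 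
(.lf (nat_lit 160035) (.g (nat_lit 2079) (.e (nat_lit 57436) (nat_lit 17) (.e (nat_lit 376842) (nat_lit 11) (.e (nat_lit 426198) (nat_lit 9) (.e (nat_lit 426449) (nat_lit 20) (.e (nat_lit 114711) (nat_lit 21) (.e (nat_lit 57847) (nat_lit 252) .nil)))))) (.g (nat_lit 4) .nil .nil)))) (.nd (nat_lit 5) 
(.lf (nat_lit 160019) (.g (nat_lit 3577) (.e (nat_lit 57436) (nat_lit 17) (.e (nat_lit 376842) (nat_lit 11) (.e (nat_lit 426198) (nat_lit 9) (.e (nat_lit 426446) (nat_lit 20) (.e (nat_lit 114711) (nat_lit 21) (.e (nat_lit 57847) (nat_lit 252) .nil)))))) (.g (nat_lit 6) .nil .nil))) 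
(.lf (nat_lit 160051) (.g (nat_lit 3639) (.e (nat_lit 57436) (nat_lit 17) (.e (nat_lit 376842) (nat_lit 11) (.e (nat_lit 426199) (nat_lit 9) (.e (nat_lit 426448) (nat_lit 20) (.e (nat_lit 114710) (nat_lit 21) (.e (nat_lit 57853) (nat_lit 252) .nil)))))) (.g (nat_lit 6) .nil .nil))))) (.nd (nat_lit 4) (.nd (nat_lit 5) 
(.lf (nat_lit 160011) (.g (nat_lit 1957) (.e (nat_lit 57436) (nat_lit 17) (.e (nat_lit 376842) (nat_lit 11) (.e (nat_lit 426198) (nat_lit 9) (.e (nat_lit 426354) (nat_lit 15) (.e (nat_lit 2198) (nat_lit 144) .nil))))) .nil)) 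
(.lf (nat_lit 160043) (.g (nat_lit 2103) (.e (nat_lit 57436) (nat_lit 17) (.e (nat_lit 376842) (nat_lit 11) (.e (nat_lit 426199) (nat_lit 9) (.e (nat_lit 426446) (nat_lit 20) (.e (nat_lit 114711) (nat_lit 21) (.e (nat_lit 57847) (nat_lit 252) .nil)))))) (.g (nat_lit 4) .nil .nil)))) (.nd (nat_lit 5) 
(.lf (nat_lit 160027) (.g (nat_lit 3426) (.e (nat_lit 57436) (nat_lit 17) (.e (nat_lit 376842) (nat_lit 11) (.e (nat_lit 426198) (nat_lit 9) (.e (nat_lit 426448) (nat_lit 20) (.e (nat_lit 114711) (nat_lit 21) (.e (nat_lit 57844) (nat_lit 252) .nil)))))) (.g (nat_lit 0) .nil .nil))) 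
(.lf (nat_lit 160059) (.g (nat_lit 968) (.e (nat_lit 57436) (nat_lit 17) (.e (nat_lit 376842) (nat_lit 11) (.e (nat_lit 426199) (nat_lit 9) (.e (nat_lit 433920) (nat_lit 20) .nil)))) .nil))))) (.nd (nat_lit 3) (.nd (nat_lit 4) (.nd (nat_lit 5) 
(.lf (nat_lit 160007) (.g (nat_lit 2614) (.e (nat_lit 57436) (nat_lit 17) (.e (nat_lit 376842) (nat_lit 11) (.e (nat_lit 426197) (nat_lit 9) (.e (nat_lit 426448) (nat_lit 20) (.e (nat_lit 114711) (nat_lit 21) (.e (nat_lit 57848) (nat_lit 252) .nil)))))) (.g (nat_lit 5) .nil .nil))) 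
(.lf (nat_lit 160039) (.g (nat_lit 1591) (.e (nat_lit 57436) (nat_lit 17) (.e (nat_lit 376842) (nat_lit 11) (.e (nat_lit 426199) (nat_lit 9) (.e (nat_lit 426446) (nat_lit 20) (.e (nat_lit 114710) (nat_lit 21) .nil))))) .nil))) (.nd (nat_lit 5) 
(.lf (nat_lit 160023) (.g (nat_lit 1788) (.e (nat_lit 57436) (nat_lit 17) (.e (nat_lit 376842) (nat_lit 11) (.e (nat_lit 426198) (nat_lit 9) (.e (nat_lit 426446) (nat_lit 20) (.e (nat_lit 114712) (nat_lit 21) (.e (nat_lit 57851) (nat_lit 252) .nil)))))) (.g (nat_lit 4) .nil .nil))) 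
(.lf (nat_lit 160055) (.g (nat_lit 2956) (.e (nat_lit 57436) (nat_lit 17) (.e (nat_lit 376842) (nat_lit 11) (.e (nat_lit 426199) (nat_lit 9) (.e (nat_lit 426448) (nat_lit 20) (.e (nat_lit 114711) (nat_lit 21) (.e (nat_lit 57854) (nat_lit 252) .nil)))))) (.g (nat_lit 5) .nil .nil))))) (.nd (nat_lit 4) (.nd (nat_lit 5) 
(.lf (nat_lit 160015) (.g (nat_lit 2911) (.e (nat_lit 57436) (nat_lit 17) (.e (nat_lit 376842) (nat_lit 11) (.e (nat_lit 426198) (nat_lit 9) (.e (nat_lit 426446) (nat_lit 20) (.e (nat_lit 114710) (nat_lit 21) (.e (nat_lit 57853) (nat_lit 252) .nil)))))) (.g (nat_lit 5) .nil .nil))) 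
(.lf (nat_lit 160047) (.g (nat_lit 3483) (.e (nat_lit 57436) (nat_lit 17) (.e (nat_lit 376842) (nat_lit 11) (.e (nat_lit 426199) (nat_lit 9) (.e (nat_lit 426448) (nat_lit 20) (.e (nat_lit 114710) (nat_lit 21) (.e (nat_lit 57847) (nat_lit 252) .nil)))))) (.g (nat_lit 6) .nil .nil)))) (.nd (nat_lit 5) 
(.lf (nat_lit 160031) (.g (nat_lit 2839) (.e (nat_lit 57436) (nat_lit 17) (.e (nat_lit 376842) (nat_lit 11) (.e (nat_lit 426198) (nat_lit 9) (.e (nat_lit 426448) (nat_lit 20) (.e (nat_lit 114711) (nat_lit 21) (.e (nat_lit 57853) (nat_lit 252) .nil)))))) (.g (nat_lit 6) .nil .nil))) 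
(.lf (nat_lit 160063) (.g (nat_lit 2589) (.e (nat_lit 57436) (nat_lit 17) (.e (nat_lit 376842) (nat_lit 11) (.e (nat_lit 426200) (nat_lit 9) (.e (nat_lit 426446) (nat_lit 20) (.e (nat_lit 114710) (nat_lit 21) (.e (nat_lit 57851) (nat_lit 252) .nil)))))) (.g (nat_lit 5) .nil .nil)))))))))

noncomputable def tv2143 : DT := (.nd (nat_lit 0) (.nd (nat_lit 1) (.nd (nat_lit 2) (.nd (nat_lit 3) (.nd (nat_lit 4) (.nd (nat_lit 5) 
(.lf (nat_lit 160064) (.g (nat_lit 3306) (.e (nat_lit 57436) (nat_lit 17) (.e (nat_lit 376842) (nat_lit 11) (.e (nat_lit 426200) (nat_lit 9) (.e (nat_lit 426446) (nat_lit 20) (.e (nat_lit 114710) (nat_lit 21) (.e (nat_lit 57852) (nat_lit 252) .nil)))))) (.g (nat_lit 0) .nil .nil))) 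
(.lf (nat_lit 160096) (.g (nat_lit 1534) (.e (nat_lit 57436) (nat_lit 17) (.e (nat_lit 376842) (nat_lit 11) (.e (nat_lit 426306) (nat_lit 12) (.e (nat_lit 475201) (nat_lit 40) (.e (nat_lit 704659) (nat_lit 9) .nil))))) .nil))) (.nd (nat_lit 5) 
(.lf (nat_lit 160080) (.g (nat_lit 3656) (.e (nat_lit 57436) (nat_lit 17) (.e (nat_lit 376842) (nat_lit 11) (.e (nat_lit 426200) (nat_lit 9) (.e (nat_lit 426448) (nat_lit 20) (.e (nat_lit 114711) (nat_lit 21) (.e (nat_lit 57847) (nat_lit 252) .nil)))))) (.g (nat_lit 6) .nil .nil))) 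
(.lf (nat_lit 160112) (.g (nat_lit 1767) (.e (nat_lit 57436) (nat_lit 17) (.e (nat_lit 376842) (nat_lit 11) (.e (nat_lit 426306) (nat_lit 12) (.e (nat_lit 475214) (nat_lit 42) (.e (nat_lit 720932) (nat_lit 21) (.e (nat_lit 57851) (nat_lit 252) .nil)))))) (.g (nat_lit 4) .nil .nil))))) (.nd (nat_lit 4) (.nd (nat_lit 5) 
(.lf (nat_lit 160072) (.g (nat_lit 3083) (.e (nat_lit 57436) (nat_lit 17) (.e (nat_lit 376842) (nat_lit 11) (.e (nat_lit 426200) (nat_lit 9) (.e (nat_lit 426446) (nat_lit 20) (.e (nat_lit 114712) (nat_lit 21) (.e (nat_lit 57852) (nat_lit 252) .nil)))))) (.g (nat_lit 0) .nil .nil))) 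
(.lf (nat_lit 160104) (.g (nat_lit 1605) (.e (nat_lit 57436) (nat_lit 17) (.e (nat_lit 376842) (nat_lit 11) (.e (nat_lit 426306) (nat_lit 12) (.e (nat_lit 475213) (nat_lit 42) .nil)))) .nil))) (.nd (nat_lit 5) 
(.lf (nat_lit 160088) (.g (nat_lit 1703) (.e (nat_lit 57436) (nat_lit 17) (.e (nat_lit 376842) (nat_lit 11) (.e (nat_lit 426200) (nat_lit 9) (.e (nat_lit 426449) (nat_lit 20) (.e (nat_lit 114712) (nat_lit 21) (.e (nat_lit 57852) (nat_lit 252) .nil)))))) (.g (nat_lit 4) .nil .nil))) 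
(.lf (nat_lit 160120) (.g (nat_lit 2607) (.e (nat_lit 57436) (nat_lit 17) (.e (nat_lit 376842) (nat_lit 11) (.e (nat_lit 426307) (nat_lit 12) (.e (nat_lit 475212) (nat_lit 42) (.e (nat_lit 720930) (nat_lit 21) (.e (nat_lit 57854) (nat_lit 252) .nil)))))) (.g (nat_lit 6) .nil .nil)))))) (.nd (nat_lit 3) (.nd (nat_lit 4) (.nd (nat_lit 5) 
(.lf (nat_lit 160068) (.g (nat_lit 2799) (.e (nat_lit 57436) (nat_lit 17) (.e (nat_lit 376842) (nat_lit 11) (.e (nat_lit 426200) (nat_lit 9) (.e (nat_lit 426446) (nat_lit 20) (.e (nat_lit 114711) (nat_lit 21) (.e (nat_lit 57846) (nat_lit 252) .nil)))))) (.g (nat_lit 5) .nil .nil))) 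
(.lf (nat_lit 160100) (.g (nat_lit 3054) (.e (nat_lit 57436) (nat_lit 17) (.e (nat_lit 376842) (nat_lit 11) (.e (nat_lit 426306) (nat_lit 12) (.e (nat_lit 475212) (nat_lit 42) (.e (nat_lit 720931) (nat_lit 21) (.e (nat_lit 57852) (nat_lit 252) .nil)))))) (.g (nat_lit 0) .nil .nil)))) (.nd (nat_lit 5) 
(.lf (nat_lit 160084) (.g (nat_lit 1597) (.e (nat_lit 57436) (nat_lit 17) (.e (nat_lit 376842) (nat_lit 11) (.e (nat_lit 426200) (nat_lit 9) (.e (nat_lit 426448) (nat_lit 20) (.e (nat_lit 114712) (nat_lit 21) (.e (nat_lit 57851) (nat_lit 252) .nil)))))) (.g (nat_lit 4) .nil .nil))) 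
(.lf (nat_lit 160116) (.g (nat_lit 3508) (.e (nat_lit 57436) (nat_lit 17) (.e (nat_lit 376842) (nat_lit 11) (.e (nat_lit 426306) (nat_lit 12) (.e (nat_lit 475214) (nat_lit 42) (.e (nat_lit 720933) (nat_lit 21) (.e (nat_lit 57844) (nat_lit 252) .nil)))))) (.g (nat_lit 0) .nil .nil))))) (.nd (nat_lit 4) (.nd (nat_lit 5) 
(.lf (nat_lit 160076) (.g (nat_lit 3302) (.e (nat_lit 57436) (nat_lit 17) (.e (nat_lit 376842) (nat_lit 11) (.e (nat_lit 426200) (nat_lit 9) (.e (nat_lit 426448) (nat_lit 20) (.e (nat_lit 114710) (nat_lit 21) (.e (nat_lit 57847) (nat_lit 252) .nil)))))) (.g (nat_lit 6) .nil .nil))) 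
(.lf (nat_lit 160108) (.g (nat_lit 2869) (.e (nat_lit 57436) (nat_lit 17) (.e (nat_lit 376842) (nat_lit 11) (.e (nat_lit 426306) (nat_lit 12) (.e (nat_lit 475214) (nat_lit 42) (.e (nat_lit 720930) (nat_lit 21) (.e (nat_lit 57854) (nat_lit 252) .nil)))))) (.g (nat_lit 0) .nil .nil)))) (.nd (nat_lit 5) 
(.lf (nat_lit 160092) (.g (nat_lit 1705) (.e (nat_lit 57436) (nat_lit 17) (.e (nat_lit 376842) (nat_lit 11) (.e (nat_lit 426305) (nat_lit 12) (.e (nat_lit 475212) (nat_lit 42) .nil)))) .nil)) 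
(.lf (nat_lit 160124) (.g (nat_lit 2584) (.e (nat_lit 57436) (nat_lit 17) (.e (nat_lit 376842) (nat_lit 11) (.e (nat_lit 426307) (nat_lit 12) (.e (nat_lit 475214) (nat_lit 42) (.e (nat_lit 720933) (nat_lit 21) (.e (nat_lit 57844) (nat_lit 252) .nil)))))) (.g (nat_lit 4) .nil .nil))))))) (.nd (nat_lit 2) (.nd (nat_lit 3) (.nd (nat_lit 4) (.nd (nat_lit 5) 
(.lf (nat_lit 160066) (.g (nat_lit 2963) (.e (nat_lit 57436) (nat_lit 17) (.e (nat_lit 376842) (nat_lit 11) (.e (nat_lit 426200) (nat_lit 9) (.e (nat_lit 426446) (nat_lit 20) (.e (nat_lit 114710) (nat_lit 21) (.e (nat_lit 57854) (nat_lit 252) .nil)))))) (.g (nat_lit 6) .nil .nil))) 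
(.lf (nat_lit 160098) (.g (nat_lit 2839) (.e (nat_lit 57436) (nat_lit 17) (.e (nat_lit 376842) (nat_lit 11) (.e (nat_lit 426306) (nat_lit 12) (.e (nat_lit 475212) (nat_lit 42) (.e (nat_lit 720930) (nat_lit 21) (.e (nat_lit 57852) (nat_lit 252) .nil)))))) (.g (nat_lit 0) .nil .nil)))) (.nd (nat_lit 5) 
(.lf (nat_lit 160082) (.g (nat_lit 3039) (.e (nat_lit 57436) (nat_lit 17) (.e (nat_lit 376842) (nat_lit 11) (.e (nat_lit 426200) (nat_lit 9) (.e (nat_lit 426448) (nat_lit 20) (.e (nat_lit 114711) (nat_lit 21) (.e (nat_lit 57853) (nat_lit 252) .nil)))))) (.g (nat_lit 6) .nil .nil))) 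
(.lf (nat_lit 160114) (.g (nat_lit 2201) (.e (nat_lit 57436) (nat_lit 17) (.e (nat_lit 376842) (nat_lit 11) (.e (nat_lit 426306) (nat_lit 12) (.e (nat_lit 475214) (nat_lit 42) (.e (nat_lit 720932) (nat_lit 21) (.e (nat_lit 57853) (nat_lit 252) .nil)))))) (.g (nat_lit 5) .nil .nil))))) (.nd (nat_lit 4) (.nd (nat_lit 5) 
(.lf (nat_lit 160074) (.g (nat_lit 2773) (.e (nat_lit 57436) (nat_lit 17) (.e (nat_lit 376842) (nat_lit 11) (.e (nat_lit 426200) (nat_lit 9) (.e (nat_lit 426446) (nat_lit 20) (.e (nat_lit 114712) (nat_lit 21) (.e (nat_lit 57854) (nat_lit 252) .nil)))))) (.g (nat_lit 6) .nil .nil))) 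
(.lf (nat_lit 160106) (.g (nat_lit 870) (.e (nat_lit 57436) (nat_lit 17) (.e (nat_lit 376842) (nat_lit 11) (.e (nat_lit 426306) (nat_lit 12) (.e (nat_lit 475214) (nat_lit 42) .nil)))) .nil))) (.nd (nat_lit 5) 
(.lf (nat_lit 160090) (.g (nat_lit 2535) (.e (nat_lit 57436) (nat_lit 17) (.e (nat_lit 376842) (nat_lit 11) (.e (nat_lit 426258) (nat_lit 9) (.e (nat_lit 426447) (nat_lit 20) (.e (nat_lit 114710) (nat_lit 21) (.e (nat_lit 57852) (nat_lit 252) .nil)))))) (.g (nat_lit 0) .nil .nil))) 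
(.lf (nat_lit 160122) (.g (nat_lit 2873) (.e (nat_lit 57436) (nat_lit 17) (.e (nat_lit 376842) (nat_lit 11) (.e (nat_lit 426307) (nat_lit 12) (.e (nat_lit 475214) (nat_lit 42) (.e (nat_lit 720931) (nat_lit 21) (.e (nat_lit 57854) (nat_lit 252) .nil)))))) (.g (nat_lit 6) .nil .nil)))))) (.nd (nat_lit 3) (.nd (nat_lit 4) (.nd (nat_lit 5) 
(.lf (nat_lit 160070) (.g (nat_lit 2777) (.e (nat_lit 57436) (nat_lit 17) (.e (nat_lit 376842) (nat_lit 11) (.e (nat_lit 426200) (nat_lit 9) (.e (nat_lit 426446) (nat_lit 20) (.e (nat_lit 114711) (nat_lit 21) (.e (nat_lit 57848) (nat_lit 252) .nil)))))) (.g (nat_lit 5) .nil .nil))) 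
(.lf (nat_lit 160102) (.g (nat_lit 3178) (.e (nat_lit 57436) (nat_lit 17) (.e (nat_lit 376842) (nat_lit 11) (.e (nat_lit 426306) (nat_lit 12) (.e (nat_lit 475212) (nat_lit 42) (.e (nat_lit 720933) (nat_lit 21) (.e (nat_lit 57844) (nat_lit 252) .nil)))))) (.g (nat_lit 0) .nil .nil)))) (.nd (nat_lit 5) 
(.lf (nat_lit 160086) (.g (nat_lit 1924) (.e (nat_lit 57436) (nat_lit 17) (.e (nat_lit 376842) (nat_lit 11) (.e (nat_lit 426200) (nat_lit 9) (.e (nat_lit 426449) (nat_lit 20) (.e (nat_lit 114710) (nat_lit 21) (.e (nat_lit 57852) (nat_lit 252) .nil)))))) (.g (nat_lit 4) .nil .nil))) 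
(.lf (nat_lit 160118) (.g (nat_lit 3151) (.e (nat_lit 57436) (nat_lit 17) (.e (nat_lit 376842) (nat_lit 11) (.e (nat_lit 426306) (nat_lit 12) (.e (nat_lit 475214) (nat_lit 42) (.e (nat_lit 720934) (nat_lit 21) (.e (nat_lit 57852) (nat_lit 252) .nil)))))) (.g (nat_lit 0) .nil .nil))))) (.nd (nat_lit 4) (.nd (nat_lit 5) 
(.lf (nat_lit 160078) (.g (nat_lit 3479) (.e (nat_lit 57436) (nat_lit 17) (.e (nat_lit 376842) (nat_lit 11) (.e (nat_lit 426200) (nat_lit 9) (.e (nat_lit 426448) (nat_lit 20) (.e (nat_lit 114711) (nat_lit 21) (.e (nat_lit 57844) (nat_lit 252) .nil)))))) (.g (nat_lit 6) .nil .nil))) 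
(.lf (nat_lit 160110) (.g (nat_lit 3078) (.e (nat_lit 57436) (nat_lit 17) (.e (nat_lit 376842) (nat_lit 11) (.e (nat_lit 426306) (nat_lit 12) (.e (nat_lit 475214) (nat_lit 42) (.e (nat_lit 720931) (nat_lit 21) (.e (nat_lit 57854) (nat_lit 252) .nil)))))) (.g (nat_lit 0) .nil .nil)))) (.nd (nat_lit 5) 
(.lf (nat_lit 160094) (.g (nat_lit 803) (.e (nat_lit 57436) (nat_lit 17) (.e (nat_lit 376842) (nat_lit 11) (.e (nat_lit 426306) (nat_lit 12) (.e (nat_lit 475201) (nat_lit 40) .nil)))) .nil)) 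
(.lf (nat_lit 160126) (.g (nat_lit 2527) (.e (nat_lit 57436) (nat_lit 17) (.e (nat_lit 376842) (nat_lit 11) (.e (nat_lit 426307) (nat_lit 12) (.e (nat_lit 475214) (nat_lit 42) (.e (nat_lit 720934) (nat_lit 21) (.e (nat_lit 57852) (nat_lit 252) .nil)))))) (.g (nat_lit 4) .nil .nil)))))))) (.nd (nat_lit 1) (.nd (nat_lit 2) (.nd (nat_lit 3) (.nd (nat_lit 4) (.nd (nat_lit 5) 
(.lf (nat_lit 160065) (.g (nat_lit 3001) (.e (nat_lit 57436) (nat_lit 17) (.e (nat_lit 376842) (nat_lit 11) (.e (nat_lit 426200) (nat_lit 9) (.e (nat_lit 426446) (nat_lit 20) (.e (nat_lit 114710) (nat_lit 21) (.e (nat_lit 57853) (nat_lit 252) .nil)))))) (.g (nat_lit 6) .nil .nil))) 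
(.lf (nat_lit 160097) (.g (nat_lit 1648) (.e (nat_lit 57436) (nat_lit 17) (.e (nat_lit 376842) (nat_lit 11) (.e (nat_lit 426306) (nat_lit 12) (.e (nat_lit 475205) (nat_lit 40) .nil)))) .nil))) (.nd (nat_lit 5) 
(.lf (nat_lit 160081) (.g (nat_lit 2815) (.e (nat_lit 57436) (nat_lit 17) (.e (nat_lit 376842) (nat_lit 11) (.e (nat_lit 426200) (nat_lit 9) (.e (nat_lit 426448) (nat_lit 20) (.e (nat_lit 114711) (nat_lit 21) (.e (nat_lit 57848) (nat_lit 252) .nil)))))) (.g (nat_lit 5) .nil .nil))) 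
(.lf (nat_lit 160113) (.g (nat_lit 3139) (.e (nat_lit 57436) (nat_lit 17) (.e (nat_lit 376842) (nat_lit 11) (.e (nat_lit 426306) (nat_lit 12) (.e (nat_lit 475214) (nat_lit 42) (.e (nat_lit 720932) (nat_lit 21) (.e (nat_lit 57852) (nat_lit 252) .nil)))))) (.g (nat_lit 0) .nil .nil))))) (.nd (nat_lit 4) (.nd (nat_lit 5) 
(.lf (nat_lit 160073) (.g (nat_lit 2912) (.e (nat_lit 57436) (nat_lit 17) (.e (nat_lit 376842) (nat_lit 11) (.e (nat_lit 426200) (nat_lit 9) (.e (nat_lit 426446) (nat_lit 20) (.e (nat_lit 114712) (nat_lit 21) (.e (nat_lit 57853) (nat_lit 252) .nil)))))) (.g (nat_lit 6) .nil .nil))) 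
(.lf (nat_lit 160105) (.g (nat_lit 3086) (.e (nat_lit 57436) (nat_lit 17) (.e (nat_lit 376842) (nat_lit 11) (.e (nat_lit 426306) (nat_lit 12) (.e (nat_lit 475213) (nat_lit 42) (.e (nat_lit 720931) (nat_lit 21) (.e (nat_lit 57854) (nat_lit 252) .nil)))))) (.g (nat_lit 6) .nil .nil)))) (.nd (nat_lit 5) 
(.lf (nat_lit 160089) (.g (nat_lit 1201) (.e (nat_lit 57436) (nat_lit 17) (.e (nat_lit 376842) (nat_lit 11) (.e (nat_lit 426200) (nat_lit 9) (.e (nat_lit 433920) (nat_lit 20) .nil)))) .nil)) 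
(.lf (nat_lit 160121) (.g (nat_lit 2672) (.e (nat_lit 57436) (nat_lit 17) (.e (nat_lit 376842) (nat_lit 11) (.e (nat_lit 426307) (nat_lit 12) (.e (nat_lit 475212) (nat_lit 42) (.e (nat_lit 720931) (nat_lit 21) (.e (nat_lit 57854) (nat_lit 252) .nil)))))) (.g (nat_lit 6) .nil .nil)))))) (.nd (nat_lit 3) (.nd (nat_lit 4) (.nd (nat_lit 5) 
(.lf (nat_lit 160069) (.g (nat_lit 3508) (.e (nat_lit 57436) (nat_lit 17) (.e (nat_lit 376842) (nat_lit 11) (.e (nat_lit 426200) (nat_lit 9) (.e (nat_lit 426446) (nat_lit 20) (.e (nat_lit 114711) (nat_lit 21) (.e (nat_lit 57847) (nat_lit 252) .nil)))))) (.g (nat_lit 6) .nil .nil))) 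
(.lf (nat_lit 160101) (.g (nat_lit 2849) (.e (nat_lit 57436) (nat_lit 17) (.e (nat_lit 376842) (nat_lit 11) (.e (nat_lit 426306) (nat_lit 12) (.e (nat_lit 475212) (nat_lit 42) (.e (nat_lit 720931) (nat_lit 21) (.e (nat_lit 57854) (nat_lit 252) .nil)))))) (.g (nat_lit 0) .nil .nil)))) (.nd (nat_lit 5) 
(.lf (nat_lit 160085) (.g (nat_lit 2703) (.e (nat_lit 57436) (nat_lit 17) (.e (nat_lit 376842) (nat_lit 11) (.e (nat_lit 426200) (nat_lit 9) (.e (nat_lit 426448) (nat_lit 20) (.e (nat_lit 114712) (nat_lit 21) (.e (nat_lit 57853) (nat_lit 252) .nil)))))) (.g (nat_lit 6) .nil .nil))) 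
(.lf (nat_lit 160117) (.g (nat_lit 1983) (.e (nat_lit 57436) (nat_lit 17) (.e (nat_lit 376842) (nat_lit 11) (.e (nat_lit 426306) (nat_lit 12) (.e (nat_lit 475214) (nat_lit 42) (.e (nat_lit 720933) (nat_lit 21) (.e (nat_lit 57848) (nat_lit 252) .nil)))))) (.g (nat_lit 4) .nil .nil))))) (.nd (nat_lit 4) (.nd (nat_lit 5) 
(.lf (nat_lit 160077) (.g (nat_lit 2872) (.e (nat_lit 57436) (nat_lit 17) (.e (nat_lit 376842) (nat_lit 11) (.e (nat_lit 426200) (nat_lit 9) (.e (nat_lit 426448) (nat_lit 20) (.e (nat_lit 114710) (nat_lit 21) (.e (nat_lit 57848) (nat_lit 252) .nil)))))) (.g (nat_lit 5) .nil .nil))) 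
(.lf (nat_lit 160109) (.g (nat_lit 2901) (.e (nat_lit 57436) (nat_lit 17) (.e (nat_lit 376842) (nat_lit 11) (.e (nat_lit 426306) (nat_lit 12) (.e (nat_lit 475214) (nat_lit 42) (.e (nat_lit 720931) (nat_lit 21) (.e (nat_lit 57851) (nat_lit 252) .nil)))))) (.g (nat_lit 6) .nil .nil)))) (.nd (nat_lit 5) 
(.lf (nat_lit 160093) (.g (nat_lit 1705) (.e (nat_lit 57436) (nat_lit 17) (.e (nat_lit 376842) (nat_lit 11) (.e (nat_lit 426305) (nat_lit 12) (.e (nat_lit 475214) (nat_lit 42) .nil)))) .nil)) 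
(.lf (nat_lit 160125) (.g (nat_lit 2325) (.e (nat_lit 57436) (nat_lit 17) (.e (nat_lit 376842) (nat_lit 11) (.e (nat_lit 426307) (nat_lit 12) (.e (nat_lit 475214) (nat_lit 42) (.e (nat_lit 720934) (nat_lit 21) (.e (nat_lit 57851) (nat_lit 252) .nil)))))) (.g (nat_lit 4) .nil .nil))))))) (.nd (nat_lit 2) (.nd (nat_lit 3) (.nd (nat_lit 4) (.nd (nat_lit 5) 
(.lf (nat_lit 160067) (.g (nat_lit 3111) (.e (nat_lit 57436) (nat_lit 17) (.e (nat_lit 376842) (nat_lit 11) (.e (nat_lit 426200) (nat_lit 9) (.e (nat_lit 426446) (nat_lit 20) (.e (nat_lit 114711) (nat_lit 21) (.e (nat_lit 57844) (nat_lit 252) .nil)))))) (.g (nat_lit 6) .nil .nil))) 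
(.lf (nat_lit 160099) (.g (nat_lit 2738) (.e (nat_lit 57436) (nat_lit 17) (.e (nat_lit 376842) (nat_lit 11) (.e (nat_lit 426306) (nat_lit 12) (.e (nat_lit 475212) (nat_lit 42) (.e (nat_lit 720930) (nat_lit 21) (.e (nat_lit 57854) (nat_lit 252) .nil)))))) (.g (nat_lit 0) .nil .nil)))) (.nd (nat_lit 5) 
(.lf (nat_lit 160083) (.g (nat_lit 2971) (.e (nat_lit 57436) (nat_lit 17) (.e (nat_lit 376842) (nat_lit 11) (.e (nat_lit 426200) (nat_lit 9) (.e (nat_lit 426448) (nat_lit 20) (.e (nat_lit 114711) (nat_lit 21) (.e (nat_lit 57854) (nat_lit 252) .nil)))))) (.g (nat_lit 6) .nil .nil))) 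
(.lf (nat_lit 160115) (.g (nat_lit 2885) (.e (nat_lit 57436) (nat_lit 17) (.e (nat_lit 376842) (nat_lit 11) (.e (nat_lit 426306) (nat_lit 12) (.e (nat_lit 475214) (nat_lit 42) (.e (nat_lit 720932) (nat_lit 21) (.e (nat_lit 57854) (nat_lit 252) .nil)))))) (.g (nat_lit 0) .nil .nil))))) (.nd (nat_lit 4) (.nd (nat_lit 5) 
(.lf (nat_lit 160075) (.g (nat_lit 3200) (.e (nat_lit 57436) (nat_lit 17) (.e (nat_lit 376842) (nat_lit 11) (.e (nat_lit 426200) (nat_lit 9) (.e (nat_lit 426448) (nat_lit 20) (.e (nat_lit 114710) (nat_lit 21) (.e (nat_lit 57846) (nat_lit 252) .nil)))))) (.g (nat_lit 6) .nil .nil))) 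
(.lf (nat_lit 160107) (.g (nat_lit 1928) (.e (nat_lit 57436) (nat_lit 17) (.e (nat_lit 376842) (nat_lit 11) (.e (nat_lit 426306) (nat_lit 12) (.e (nat_lit 475214) (nat_lit 42) (.e (nat_lit 720929) (nat_lit 21) (.e (nat_lit 57854) (nat_lit 252) .nil)))))) (.g (nat_lit 4) .nil .nil)))) (.nd (nat_lit 5) 
(.lf (nat_lit 160091) (.g (nat_lit 2349) (.e (nat_lit 57436) (nat_lit 17) (.e (nat_lit 376842) (nat_lit 11) (.e (nat_lit 426258) (nat_lit 9) (.e (nat_lit 426447) (nat_lit 20) (.e (nat_lit 114712) (nat_lit 21) (.e (nat_lit 57852) (nat_lit 252) .nil)))))) (.g (nat_lit 6) .nil .nil))) 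
(.lf (nat_lit 160123) (.g (nat_lit 2033) (.e (nat_lit 57436) (nat_lit 17) (.e (nat_lit 376842) (nat_lit 11) (.e (nat_lit 426307) (nat_lit 12) (.e (nat_lit 475214) (nat_lit 42) (.e (nat_lit 720932) (nat_lit 21) .nil))))) .nil))))) (.nd (nat_lit 3) (.nd (nat_lit 4) (.nd (nat_lit 5) 
(.lf (nat_lit 160071) (.g (nat_lit 1780) (.e (nat_lit 57436) (nat_lit 17) (.e (nat_lit 376842) (nat_lit 11) (.e (nat_lit 426200) (nat_lit 9) (.e (nat_lit 426446) (nat_lit 20) (.e (nat_lit 114712) (nat_lit 21) (.e (nat_lit 57851) (nat_lit 252) .nil)))))) (.g (nat_lit 4) .nil .nil))) 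
(.lf (nat_lit 160103) (.g (nat_lit 1805) (.e (nat_lit 57436) (nat_lit 17) (.e (nat_lit 376842) (nat_lit 11) (.e (nat_lit 426306) (nat_lit 12) (.e (nat_lit 475212) (nat_lit 42) (.e (nat_lit 720933) (nat_lit 21) (.e (nat_lit 57848) (nat_lit 252) .nil)))))) (.g (nat_lit 4) .nil .nil)))) (.nd (nat_lit 5) 
(.lf (nat_lit 160087) (.g (nat_lit 2216) (.e (nat_lit 57436) (nat_lit 17) (.e (nat_lit 376842) (nat_lit 11) (.e (nat_lit 426200) (nat_lit 9) (.e (nat_lit 426449) (nat_lit 20) (.e (nat_lit 114711) (nat_lit 21) (.e (nat_lit 57847) (nat_lit 252) .nil)))))) (.g (nat_lit 4) .nil .nil))) 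
(.lf (nat_lit 160119) (.g (nat_lit 2894) (.e (nat_lit 57436) (nat_lit 17) (.e (nat_lit 376842) (nat_lit 11) (.e (nat_lit 426306) (nat_lit 12) (.e (nat_lit 475214) (nat_lit 42) (.e (nat_lit 720934) (nat_lit 21) (.e (nat_lit 57854) (nat_lit 252) .nil)))))) (.g (nat_lit 0) .nil .nil))))) (.nd (nat_lit 4) (.nd (nat_lit 5) 
(.lf (nat_lit 160079) (.g (nat_lit 3066) (.e (nat_lit 57436) (nat_lit 17) (.e (nat_lit 376842) (nat_lit 11) (.e (nat_lit 426200) (nat_lit 9) (.e (nat_lit 426448) (nat_lit 20) (.e (nat_lit 114711) (nat_lit 21) (.e (nat_lit 57846) (nat_lit 252) .nil)))))) (.g (nat_lit 6) .nil .nil))) 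
(.lf (nat_lit 160111) (.g (nat_lit 1987) (.e (nat_lit 57436) (nat_lit 17) (.e (nat_lit 376842) (nat_lit 11) (.e (nat_lit 426306) (nat_lit 12) (.e (nat_lit 475214) (nat_lit 42) (.e (nat_lit 720932) (nat_lit 21) (.e (nat_lit 57846) (nat_lit 252) .nil)))))) (.g (nat_lit 4) .nil .nil)))) (.nd (nat_lit 5) 
(.lf (nat_lit 160095) (.g (nat_lit 1465) (.e (nat_lit 57436) (nat_lit 17) (.e (nat_lit 376842) (nat_lit 11) (.e (nat_lit 426306) (nat_lit 12) (.e (nat_lit 475201) (nat_lit 40) (.e (nat_lit 704620) (nat_lit 9) .nil))))) .nil)) 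
(.lf (nat_lit 160127) (.g (nat_lit 2283) (.e (nat_lit 57436) (nat_lit 17) (.e (nat_lit 376842) (nat_lit 11) (.e (nat_lit 426307) (nat_lit 12) (.e (nat_lit 475214) (nat_lit 42) (.e (nat_lit 720934) (nat_lit 21) (.e (nat_lit 57854) (nat_lit 252) .nil)))))) (.g (nat_lit 4) .nil .nil)))))))))

noncomputable def tv2144 : DT := (.nd (nat_lit 0) (.nd (nat_lit 1) (.nd (nat_lit 2) (.nd (nat_lit 3) (.nd (nat_lit 4) (.nd (nat_lit 5) 
(.lf (nat_lit 160128) (.g (nat_lit 3173) (.e (nat_lit 57436) (nat_lit 17) (.e (nat_lit 376842) (nat_lit 11) (.e (nat_lit 426308) (nat_lit 12) (.e (nat_lit 475212) (nat_lit 42) (.e (nat_lit 720931) (nat_lit 21) (.e (nat_lit 57852) (nat_lit 252) .nil)))))) (.g (nat_lit 0) .nil .nil))) 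
(.lf (nat_lit 160160) (.g (nat_lit 2896) (.e (nat_lit 57436) (nat_lit 17) (.e (nat_lit 376842) (nat_lit 11) (.e (nat_lit 426314) (nat_lit 12) (.e (nat_lit 475214) (nat_lit 42) (.e (nat_lit 720930) (nat_lit 21) (.e (nat_lit 57854) (nat_lit 252) .nil)))))) (.g (nat_lit 5) .nil .nil)))) (.nd (nat_lit 5) 
(.lf (nat_lit 160144) (.g (nat_lit 2766) (.e (nat_lit 57436) (nat_lit 17) (.e (nat_lit 376842) (nat_lit 11) (.e (nat_lit 426313) (nat_lit 12) (.e (nat_lit 475214) (nat_lit 42) (.e (nat_lit 720930) (nat_lit 21) (.e (nat_lit 57854) (nat_lit 252) .nil)))))) (.g (nat_lit 4) .nil .nil))) 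
(.lf (nat_lit 160176) (.g (nat_lit 3165) (.e (nat_lit 57436) (nat_lit 17) (.e (nat_lit 376842) (nat_lit 11) (.e (nat_lit 426315) (nat_lit 12) (.e (nat_lit 475214) (nat_lit 42) (.e (nat_lit 720931) (nat_lit 21) (.e (nat_lit 57852) (nat_lit 252) .nil)))))) (.g (nat_lit 0) .nil .nil))))) (.nd (nat_lit 4) (.nd (nat_lit 5) 
(.lf (nat_lit 160136) (.g (nat_lit 2340) (.e (nat_lit 57436) (nat_lit 17) (.e (nat_lit 376842) (nat_lit 11) (.e (nat_lit 426308) (nat_lit 12) (.e (nat_lit 475214) (nat_lit 42) (.e (nat_lit 720934) (nat_lit 21) (.e (nat_lit 57852) (nat_lit 252) .nil)))))) (.g (nat_lit 4) .nil .nil))) 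
(.lf (nat_lit 160168) (.g (nat_lit 2457) (.e (nat_lit 57436) (nat_lit 17) (.e (nat_lit 376842) (nat_lit 11) (.e (nat_lit 426315) (nat_lit 12) (.e (nat_lit 475212) (nat_lit 42) (.e (nat_lit 720930) (nat_lit 21) (.e (nat_lit 57851) (nat_lit 252) .nil)))))) (.g (nat_lit 4) .nil .nil)))) (.nd (nat_lit 5) 
(.lf (nat_lit 160152) (.g (nat_lit 2779) (.e (nat_lit 57436) (nat_lit 17) (.e (nat_lit 376842) (nat_lit 11) (.e (nat_lit 426314) (nat_lit 12) (.e (nat_lit 475212) (nat_lit 42) (.e (nat_lit 720930) (nat_lit 21) (.e (nat_lit 57852) (nat_lit 252) .nil)))))) (.g (nat_lit 5) .nil .nil))) 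
(.lf (nat_lit 160184) (.g (nat_lit 3062) (.e (nat_lit 57436) (nat_lit 17) (.e (nat_lit 376842) (nat_lit 11) (.e (nat_lit 426316) (nat_lit 12) (.e (nat_lit 475212) (nat_lit 42) (.e (nat_lit 720929) (nat_lit 21) (.e (nat_lit 57847) (nat_lit 252) .nil)))))) (.g (nat_lit 4) .nil .nil)))))) (.nd (nat_lit 3) (.nd (nat_lit 4) (.nd (nat_lit 5) 
(.lf (nat_lit 160132) (.g (nat_lit 3354) (.e (nat_lit 57436) (nat_lit 17) (.e (nat_lit 376842) (nat_lit 11) (.e (nat_lit 426308) (nat_lit 12) (.e (nat_lit 475214) (nat_lit 42) (.e (nat_lit 720931) (nat_lit 21) (.e (nat_lit 57852) (nat_lit 252) .nil)))))) (.g (nat_lit 0) .nil .nil))) 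
(.lf (nat_lit 160164) (.g (nat_lit 2564) (.e (nat_lit 57436) (nat_lit 17) (.e (nat_lit 376842) (nat_lit 11) (.e (nat_lit 426314) (nat_lit 12) (.e (nat_lit 475214) (nat_lit 42) (.e (nat_lit 720932) (nat_lit 21) .nil))))) .nil))) (.nd (nat_lit 5) 
(.lf (nat_lit 160148) (.g (nat_lit 2720) (.e (nat_lit 57436) (nat_lit 17) (.e (nat_lit 376842) (nat_lit 11) (.e (nat_lit 426313) (nat_lit 12) (.e (nat_lit 475214) (nat_lit 42) (.e (nat_lit 720933) (nat_lit 21) .nil))))) .nil)) 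
(.lf (nat_lit 160180) (.g (nat_lit 2372) (.e (nat_lit 57436) (nat_lit 17) (.e (nat_lit 376842) (nat_lit 11) (.e (nat_lit 426315) (nat_lit 12) (.e (nat_lit 475214) (nat_lit 42) (.e (nat_lit 720932) (nat_lit 21) (.e (nat_lit 57854) (nat_lit 252) .nil)))))) (.g (nat_lit 4) .nil .nil))))) (.nd (nat_lit 4) (.nd (nat_lit 5) 
(.lf (nat_lit 160140) (.g (nat_lit 2099) (.e (nat_lit 57436) (nat_lit 17) (.e (nat_lit 376842) (nat_lit 11) (.e (nat_lit 426313) (nat_lit 12) (.e (nat_lit 475212) (nat_lit 42) (.e (nat_lit 720934) (nat_lit 21) .nil))))) .nil)) 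
(.lf (nat_lit 160172) (.g (nat_lit 2735) (.e (nat_lit 57436) (nat_lit 17) (.e (nat_lit 376842) (nat_lit 11) (.e (nat_lit 426315) (nat_lit 12) (.e (nat_lit 475213) (nat_lit 42) (.e (nat_lit 720931) (nat_lit 21) (.e (nat_lit 57854) (nat_lit 252) .nil)))))) (.g (nat_lit 6) .nil .nil)))) (.nd (nat_lit 5) 
(.lf (nat_lit 160156) (.g (nat_lit 2746) (.e (nat_lit 57436) (nat_lit 17) (.e (nat_lit 376842) (nat_lit 11) (.e (nat_lit 426314) (nat_lit 12) (.e (nat_lit 475212) (nat_lit 42) (.e (nat_lit 720934) (nat_lit 21) (.e (nat_lit 57851) (nat_lit 252) .nil)))))) (.g (nat_lit 4) .nil .nil))) 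
(.lf (nat_lit 160188) (.g (nat_lit 2467) (.e (nat_lit 57436) (nat_lit 17) (.e (nat_lit 376842) (nat_lit 11) (.e (nat_lit 426316) (nat_lit 12) (.e (nat_lit 475212) (nat_lit 42) (.e (nat_lit 720931) (nat_lit 21) (.e (nat_lit 57851) (nat_lit 252) .nil)))))) (.g (nat_lit 4) .nil .nil))))))) (.nd (nat_lit 2) (.nd (nat_lit 3) (.nd (nat_lit 4) (.nd (nat_lit 5) 
(.lf (nat_lit 160130) (.g (nat_lit 3054) (.e (nat_lit 57436) (nat_lit 17) (.e (nat_lit 376842) (nat_lit 11) (.e (nat_lit 426308) (nat_lit 12) (.e (nat_lit 475214) (nat_lit 42) (.e (nat_lit 720930) (nat_lit 21) (.e (nat_lit 57852) (nat_lit 252) .nil)))))) (.g (nat_lit 0) .nil .nil))) 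
(.lf (nat_lit 160162) (.g (nat_lit 3309) (.e (nat_lit 57436) (nat_lit 17) (.e (nat_lit 376842) (nat_lit 11) (.e (nat_lit 426314) (nat_lit 12) (.e (nat_lit 475214) (nat_lit 42) (.e (nat_lit 720931) (nat_lit 21) (.e (nat_lit 57852) (nat_lit 252) .nil)))))) (.g (nat_lit 6) .nil .nil)))) (.nd (nat_lit 5) 
(.lf (nat_lit 160146) (.g (nat_lit 3034) (.e (nat_lit 57436) (nat_lit 17) (.e (nat_lit 376842) (nat_lit 11) (.e (nat_lit 426313) (nat_lit 12) (.e (nat_lit 475214) (nat_lit 42) (.e (nat_lit 720931) (nat_lit 21) (.e (nat_lit 57854) (nat_lit 252) .nil)))))) (.g (nat_lit 5) .nil .nil))) 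
(.lf (nat_lit 160178) (.g (nat_lit 2226) (.e (nat_lit 57436) (nat_lit 17) (.e (nat_lit 376842) (nat_lit 11) (.e (nat_lit 426315) (nat_lit 12) (.e (nat_lit 475214) (nat_lit 42) (.e (nat_lit 720932) (nat_lit 21) .nil))))) .nil)))) (.nd (nat_lit 4) (.nd (nat_lit 5) 
(.lf (nat_lit 160138) (.g (nat_lit 2103) (.e (nat_lit 57436) (nat_lit 17) (.e (nat_lit 376842) (nat_lit 11) (.e (nat_lit 426313) (nat_lit 12) (.e (nat_lit 475212) (nat_lit 42) (.e (nat_lit 720931) (nat_lit 21) (.e (nat_lit 57852) (nat_lit 252) .nil)))))) (.g (nat_lit 4) .nil .nil))) 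
(.lf (nat_lit 160170) (.g (nat_lit 2549) (.e (nat_lit 57436) (nat_lit 17) (.e (nat_lit 376842) (nat_lit 11) (.e (nat_lit 426315) (nat_lit 12) (.e (nat_lit 475212) (nat_lit 42) (.e (nat_lit 720931) (nat_lit 21) (.e (nat_lit 57851) (nat_lit 252) .nil)))))) (.g (nat_lit 5) .nil .nil)))) (.nd (nat_lit 5) 
(.lf (nat_lit 160154) (.g (nat_lit 2667) (.e (nat_lit 57436) (nat_lit 17) (.e (nat_lit 376842) (nat_lit 11) (.e (nat_lit 426314) (nat_lit 12) (.e (nat_lit 475212) (nat_lit 42) (.e (nat_lit 720931) (nat_lit 21) (.e (nat_lit 57851) (nat_lit 252) .nil)))))) (.g (nat_lit 4) .nil .nil))) 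
(.lf (nat_lit 160186) (.g (nat_lit 2685) (.e (nat_lit 57436) (nat_lit 17) (.e (nat_lit 376842) (nat_lit 11) (.e (nat_lit 426316) (nat_lit 12) (.e (nat_lit 475212) (nat_lit 42) (.e (nat_lit 720930) (nat_lit 21) (.e (nat_lit 57852) (nat_lit 252) .nil)))))) (.g (nat_lit 4) .nil .nil)))))) (.nd (nat_lit 3) (.nd (nat_lit 4) (.nd (nat_lit 5) 
(.lf (nat_lit 160134) (.g (nat_lit 2670) (.e (nat_lit 57436) (nat_lit 17) (.e (nat_lit 376842) (nat_lit 11) (.e (nat_lit 426308) (nat_lit 12) (.e (nat_lit 475214) (nat_lit 42) (.e (nat_lit 720933) (nat_lit 21) (.e (nat_lit 57844) (nat_lit 252) .nil)))))) (.g (nat_lit 4) .nil .nil))) 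
(.lf (nat_lit 160166) (.g (nat_lit 2779) (.e (nat_lit 57436) (nat_lit 17) (.e (nat_lit 376842) (nat_lit 11) (.e (nat_lit 426314) (nat_lit 12) (.e (nat_lit 475214) (nat_lit 42) (.e (nat_lit 720934) (nat_lit 21) .nil))))) .nil))) (.nd (nat_lit 5) 
(.lf (nat_lit 160150) (.g (nat_lit 617) (.e (nat_lit 57436) (nat_lit 17) (.e (nat_lit 376842) (nat_lit 11) (.e (nat_lit 426314) (nat_lit 12) .nil))) .nil)) 
(.lf (nat_lit 160182) (.g (nat_lit 2750) (.e (nat_lit 57436) (nat_lit 17) (.e (nat_lit 376842) (nat_lit 11) (.e (nat_lit 426315) (nat_lit 12) (.e (nat_lit 475214) (nat_lit 42) (.e (nat_lit 720934) (nat_lit 21) (.e (nat_lit 57851) (nat_lit 252) .nil)))))) (.g (nat_lit 4) .nil .nil))))) (.nd (nat_lit 4) (.nd (nat_lit 5) 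
(.lf (nat_lit 160142) (.g (nat_lit 2648) (.e (nat_lit 57436) (nat_lit 17) (.e (nat_lit 376842) (nat_lit 11) (.e (nat_lit 426313) (nat_lit 12) (.e (nat_lit 475214) (nat_lit 42) (.e (nat_lit 720930) (nat_lit 21) (.e (nat_lit 57851) (nat_lit 252) .nil)))))) (.g (nat_lit 4) .nil .nil))) 
(.lf (nat_lit 160174) (.g (nat_lit 2741) (.e (nat_lit 57436) (nat_lit 17) (.e (nat_lit 376842) (nat_lit 11) (.e (nat_lit 426315) (nat_lit 12) (.e (nat_lit 475214) (nat_lit 42) (.e (nat_lit 720930) (nat_lit 21) (.e (nat_lit 57854) (nat_lit 252) .nil)))))) (.g (nat_lit 0) .nil .nil)))) (.nd (nat_lit 5) 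
(.lf (nat_lit 160158) (.g (nat_lit 2535) (.e (nat_lit 57436) (nat_lit 17) (.e (nat_lit 376842) (nat_lit 11) (.e (nat_lit 426314) (nat_lit 12) (.e (nat_lit 475213) (nat_lit 42) (.e (nat_lit 720931) (nat_lit 21) (.e (nat_lit 57854) (nat_lit 252) .nil)))))) (.g (nat_lit 6) .nil .nil))) 
(.lf (nat_lit 160190) (.g (nat_lit 2561) (.e (nat_lit 57436) (nat_lit 17) (.e (nat_lit 376842) (nat_lit 11) (.e (nat_lit 426316) (nat_lit 12) (.e (nat_lit 475212) (nat_lit 42) (.e (nat_lit 720931) (nat_lit 21) (.e (nat_lit 57854) (nat_lit 252) .nil)))))) (.g (nat_lit 4) .nil .nil)))))))) (.nd (nat_lit 1) (.nd (nat_lit 2) (.nd (nat_lit 3) (.nd (nat_lit 4) (.nd (nat_lit 5) 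
(.lf (nat_lit 160129) (.g (nat_lit 1028) (.e (nat_lit 57436) (nat_lit 17) (.e (nat_lit 376842) (nat_lit 11) (.e (nat_lit 426308) (nat_lit 12) (.e (nat_lit 475214) (nat_lit 42) .nil)))) .nil)) 
(.lf (nat_lit 160161) (.g (nat_lit 2967) (.e (nat_lit 57436) (nat_lit 17) (.e (nat_lit 376842) (nat_lit 11) (.e (nat_lit 426314) (nat_lit 12) (.e (nat_lit 475214) (nat_lit 42) (.e (nat_lit 720931) (nat_lit 21) (.e (nat_lit 57851) (nat_lit 252) .nil)))))) (.g (nat_lit 5) .nil .nil)))) (.nd (nat_lit 5) 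
(.lf (nat_lit 160145) (.g (nat_lit 2867) (.e (nat_lit 57436) (nat_lit 17) (.e (nat_lit 376842) (nat_lit 11) (.e (nat_lit 426313) (nat_lit 12) (.e (nat_lit 475214) (nat_lit 42) (.e (nat_lit 720931) (nat_lit 21) (.e (nat_lit 57851) (nat_lit 252) .nil)))))) (.g (nat_lit 4) .nil .nil))) 
(.lf (nat_lit 160177) (.g (nat_lit 2955) (.e (nat_lit 57436) (nat_lit 17) (.e (nat_lit 376842) (nat_lit 11) (.e (nat_lit 426315) (nat_lit 12) (.e (nat_lit 475214) (nat_lit 42) (.e (nat_lit 720931) (nat_lit 21) (.e (nat_lit 57854) (nat_lit 252) .nil)))))) (.g (nat_lit 0) .nil .nil))))) (.nd (nat_lit 4) (.nd (nat_lit 5) 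
(.lf (nat_lit 160137) (.g (nat_lit 2090) (.e (nat_lit 57436) (nat_lit 17) (.e (nat_lit 376842) (nat_lit 11) (.e (nat_lit 426313) (nat_lit 12) (.e (nat_lit 475212) (nat_lit 42) (.e (nat_lit 720930) (nat_lit 21) .nil))))) .nil)) 
(.lf (nat_lit 160169) (.g (nat_lit 2666) (.e (nat_lit 57436) (nat_lit 17) (.e (nat_lit 376842) (nat_lit 11) (.e (nat_lit 426315) (nat_lit 12) (.e (nat_lit 475212) (nat_lit 42) (.e (nat_lit 720930) (nat_lit 21) (.e (nat_lit 57854) (nat_lit 252) .nil)))))) (.g (nat_lit 5) .nil .nil)))) (.nd (nat_lit 5) 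
(.lf (nat_lit 160153) (.g (nat_lit 2680) (.e (nat_lit 57436) (nat_lit 17) (.e (nat_lit 376842) (nat_lit 11) (.e (nat_lit 426314) (nat_lit 12) (.e (nat_lit 475212) (nat_lit 42) (.e (nat_lit 720930) (nat_lit 21) (.e (nat_lit 57854) (nat_lit 252) .nil)))))) (.g (nat_lit 4) .nil .nil))) 
(.lf (nat_lit 160185) (.g (nat_lit 2388) (.e (nat_lit 57436) (nat_lit 17) (.e (nat_lit 376842) (nat_lit 11) (.e (nat_lit 426316) (nat_lit 12) (.e (nat_lit 475212) (nat_lit 42) (.e (nat_lit 720930) (nat_lit 21) .nil))))) .nil))))) (.nd (nat_lit 3) (.nd (nat_lit 4) (.nd (nat_lit 5) 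
(.lf (nat_lit 160133) (.g (nat_lit 2256) (.e (nat_lit 57436) (nat_lit 17) (.e (nat_lit 376842) (nat_lit 11) (.e (nat_lit 426308) (nat_lit 12) (.e (nat_lit 475214) (nat_lit 42) (.e (nat_lit 720932) (nat_lit 21) .nil))))) .nil)) 
(.lf (nat_lit 160165) (.g (nat_lit 3039) (.e (nat_lit 57436) (nat_lit 17) (.e (nat_lit 376842) (nat_lit 11) (.e (nat_lit 426314) (nat_lit 12) (.e (nat_lit 475214) (nat_lit 42) (.e (nat_lit 720933) (nat_lit 21) (.e (nat_lit 57844) (nat_lit 252) .nil)))))) (.g (nat_lit 4) .nil .nil)))) (.nd (nat_lit 5) 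
(.lf (nat_lit 160149) (.g (nat_lit 2672) (.e (nat_lit 57436) (nat_lit 17) (.e (nat_lit 376842) (nat_lit 11) (.e (nat_lit 426313) (nat_lit 12) (.e (nat_lit 475214) (nat_lit 42) (.e (nat_lit 720934) (nat_lit 21) .nil))))) .nil)) 
(.lf (nat_lit 160181) (.g (nat_lit 2894) (.e (nat_lit 57436) (nat_lit 17) (.e (nat_lit 376842) (nat_lit 11) (.e (nat_lit 426315) (nat_lit 12) (.e (nat_lit 475214) (nat_lit 42) (.e (nat_lit 720933) (nat_lit 21) (.e (nat_lit 57844) (nat_lit 252) .nil)))))) (.g (nat_lit 5) .nil .nil))))) (.nd (nat_lit 4) (.nd (nat_lit 5) 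
(.lf (nat_lit 160141) (.g (nat_lit 2190) (.e (nat_lit 57436) (nat_lit 17) (.e (nat_lit 376842) (nat_lit 11) (.e (nat_lit 426313) (nat_lit 12) (.e (nat_lit 475212) (nat_lit 42) (.e (nat_lit 720934) (nat_lit 21) (.e (nat_lit 57852) (nat_lit 252) .nil)))))) (.g (nat_lit 4) .nil .nil))) 
(.lf (nat_lit 160173) (.g (nat_lit 2821) (.e (nat_lit 57436) (nat_lit 17) (.e (nat_lit 376842) (nat_lit 11) (.e (nat_lit 426315) (nat_lit 12) (.e (nat_lit 475214) (nat_lit 42) (.e (nat_lit 720930) (nat_lit 21) (.e (nat_lit 57852) (nat_lit 252) .nil)))))) (.g (nat_lit 0) .nil .nil)))) (.nd (nat_lit 5) 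
(.lf (nat_lit 160157) (.g (nat_lit 2714) (.e (nat_lit 57436) (nat_lit 17) (.e (nat_lit 376842) (nat_lit 11) (.e (nat_lit 426314) (nat_lit 12) (.e (nat_lit 475212) (nat_lit 42) (.e (nat_lit 720934) (nat_lit 21) (.e (nat_lit 57854) (nat_lit 252) .nil)))))) (.g (nat_lit 4) .nil .nil))) 
(.lf (nat_lit 160189) (.g (nat_lit 2786) (.e (nat_lit 57436) (nat_lit 17) (.e (nat_lit 376842) (nat_lit 11) (.e (nat_lit 426316) (nat_lit 12) (.e (nat_lit 475212) (nat_lit 42) (.e (nat_lit 720931) (nat_lit 21) (.e (nat_lit 57852) (nat_lit 252) .nil)))))) (.g (nat_lit 5) .nil .nil))))))) (.nd (nat_lit 2) (.nd (nat_lit 3) (.nd (nat_lit 4) (.nd (nat_lit 5) 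
(.lf (nat_lit 160131) (.g (nat_lit 2999) (.e (nat_lit 57436) (nat_lit 17) (.e (nat_lit 376842) (nat_lit 11) (.e (nat_lit 426308) (nat_lit 12) (.e (nat_lit 475214) (nat_lit 42) (.e (nat_lit 720931) (nat_lit 21) (.e (nat_lit 57851) (nat_lit 252) .nil)))))) (.g (nat_lit 6) .nil .nil))) 
(.lf (nat_lit 160163) (.g (nat_lit 3135) (.e (nat_lit 57436) (nat_lit 17) (.e (nat_lit 376842) (nat_lit 11) (.e (nat_lit 426314) (nat_lit 12) (.e (nat_lit 475214) (nat_lit 42) (.e (nat_lit 720931) (nat_lit 21) (.e (nat_lit 57854) (nat_lit 252) .nil)))))) (.g (nat_lit 6) .nil .nil)))) (.nd (nat_lit 5) 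
(.lf (nat_lit 160147) (.g (nat_lit 2302) (.e (nat_lit 57436) (nat_lit 17) (.e (nat_lit 376842) (nat_lit 11) (.e (nat_lit 426313) (nat_lit 12) (.e (nat_lit 475214) (nat_lit 42) (.e (nat_lit 720932) (nat_lit 21) .nil))))) .nil)) 
(.lf (nat_lit 160179) (.g (nat_lit 2639) (.e (nat_lit 57436) (nat_lit 17) (.e (nat_lit 376842) (nat_lit 11) (.e (nat_lit 426315) (nat_lit 12) (.e (nat_lit 475214) (nat_lit 42) (.e (nat_lit 720932) (nat_lit 21) (.e (nat_lit 57852) (nat_lit 252) .nil)))))) (.g (nat_lit 4) .nil .nil))))) (.nd (nat_lit 4) (.nd (nat_lit 5) 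
(.lf (nat_lit 160139) (.g (nat_lit 2578) (.e (nat_lit 57436) (nat_lit 17) (.e (nat_lit 376842) (nat_lit 11) (.e (nat_lit 426313) (nat_lit 12) (.e (nat_lit 475212) (nat_lit 42) (.e (nat_lit 720933) (nat_lit 21) (.e (nat_lit 57844) (nat_lit 252) .nil)))))) (.g (nat_lit 4) .nil .nil))) 
(.lf (nat_lit 160171) (.g (nat_lit 3144) (.e (nat_lit 57436) (nat_lit 17) (.e (nat_lit 376842) (nat_lit 11) (.e (nat_lit 426315) (nat_lit 12) (.e (nat_lit 475212) (nat_lit 42) (.e (nat_lit 720933) (nat_lit 21) (.e (nat_lit 57844) (nat_lit 252) .nil)))))) (.g (nat_lit 6) .nil .nil)))) (.nd (nat_lit 5) 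
(.lf (nat_lit 160155) (.g (nat_lit 2767) (.e (nat_lit 57436) (nat_lit 17) (.e (nat_lit 376842) (nat_lit 11) (.e (nat_lit 426314) (nat_lit 12) (.e (nat_lit 475212) (nat_lit 42) (.e (nat_lit 720931) (nat_lit 21) (.e (nat_lit 57854) (nat_lit 252) .nil)))))) (.g (nat_lit 5) .nil .nil))) 
(.lf (nat_lit 160187) (.g (nat_lit 2563) (.e (nat_lit 57436) (nat_lit 17) (.e (nat_lit 376842) (nat_lit 11) (.e (nat_lit 426316) (nat_lit 12) (.e (nat_lit 475212) (nat_lit 42) (.e (nat_lit 720930) (nat_lit 21) (.e (nat_lit 57854) (nat_lit 252) .nil)))))) (.g (nat_lit 4) .nil .nil)))))) (.nd (nat_lit 3) (.nd (nat_lit 4) (.nd (nat_lit 5) 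
(.lf (nat_lit 160135) (.g (nat_lit 2236) (.e (nat_lit 57436) (nat_lit 17) (.e (nat_lit 376842) (nat_lit 11) (.e (nat_lit 426308) (nat_lit 12) (.e (nat_lit 475214) (nat_lit 42) (.e (nat_lit 720934) (nat_lit 21) .nil))))) .nil)) 
(.lf (nat_lit 160167) (.g (nat_lit 2986) (.e (nat_lit 57436) (nat_lit 17) (.e (nat_lit 376842) (nat_lit 11) (.e (nat_lit 426314) (nat_lit 12) (.e (nat_lit 475214) (nat_lit 42) (.e (nat_lit 720934) (nat_lit 21) (.e (nat_lit 57852) (nat_lit 252) .nil)))))) (.g (nat_lit 4) .nil .nil)))) (.nd (nat_lit 5) 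
(.lf (nat_lit 160151) (.g (nat_lit 2471) (.e (nat_lit 57436) (nat_lit 17) (.e (nat_lit 376842) (nat_lit 11) (.e (nat_lit 426314) (nat_lit 12) (.e (nat_lit 475212) (nat_lit 42) (.e (nat_lit 720930) (nat_lit 21) (.e (nat_lit 57851) (nat_lit 252) .nil)))))) (.g (nat_lit 4) .nil .nil))) 
(.lf (nat_lit 160183) (.g (nat_lit 2705) (.e (nat_lit 57436) (nat_lit 17) (.e (nat_lit 376842) (nat_lit 11) (.e (nat_lit 426315) (nat_lit 12) (.e (nat_lit 475214) (nat_lit 42) (.e (nat_lit 720934) (nat_lit 21) (.e (nat_lit 57854) (nat_lit 252) .nil)))))) (.g (nat_lit 4) .nil .nil))))) (.nd (nat_lit 4) (.nd (nat_lit 5) 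
(.lf (nat_lit 160143) (.g (nat_lit 2821) (.e (nat_lit 57436) (nat_lit 17) (.e (nat_lit 376842) (nat_lit 11) (.e (nat_lit 426313) (nat_lit 12) (.e (nat_lit 475214) (nat_lit 42) (.e (nat_lit 720930) (nat_lit 21) (.e (nat_lit 57852) (nat_lit 252) .nil)))))) (.g (nat_lit 5) .nil .nil))) 
(.lf (nat_lit 160175) (.g (nat_lit 2793) (.e (nat_lit 57436) (nat_lit 17) (.e (nat_lit 376842) (nat_lit 11) (.e (nat_lit 426315) (nat_lit 12) (.e (nat_lit 475214) (nat_lit 42) (.e (nat_lit 720931) (nat_lit 21) (.e (nat_lit 57851) (nat_lit 252) .nil)))))) (.g (nat_lit 6) .nil .nil)))) (.nd (nat_lit 5) 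
(.lf (nat_lit 160159) (.g (nat_lit 2785) (.e (nat_lit 57436) (nat_lit 17) (.e (nat_lit 376842) (nat_lit 11) (.e (nat_lit 426314) (nat_lit 12) (.e (nat_lit 475214) (nat_lit 42) (.e (nat_lit 720930) (nat_lit 21) (.e (nat_lit 57851) (nat_lit 252) .nil)))))) (.g (nat_lit 4) .nil .nil))) 
(.lf (nat_lit 160191) (.g (nat_lit 2628) (.e (nat_lit 57436) (nat_lit 17) (.e (nat_lit 376842) (nat_lit 11) (.e (nat_lit 426316) (nat_lit 12) (.e (nat_lit 475212) (nat_lit 42) (.e (nat_lit 720934) (nat_lit 21) (.e (nat_lit 57851) (nat_lit 252) .nil)))))) (.g (nat_lit 4) .nil .nil)))))))))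

noncomputable def tv2145 : DT := (.nd (nat_lit 0) (.nd (nat_lit 1) (.nd (nat_lit 2) (.nd (nat_lit 3) (.nd (nat_lit 4) (.nd (nat_lit 5) 
(.lf (nat_lit 160192) (.g (nat_lit 2819) (.e (nat_lit 57436) (nat_lit 17) (.e (nat_lit 376842) (nat_lit 11) (.e (nat_lit 426316) (nat_lit 12) (.e (nat_lit 475212) (nat_lit 42) (.e (nat_lit 720934) (nat_lit 21) (.e (nat_lit 57852) (nat_lit 252) .nil)))))) (.g (nat_lit 5) .nil .nil))) 
(.lf (nat_lit 160224) (.g (nat_lit 3019) (.e (nat_lit 57436) (nat_lit 17) (.e (nat_lit 376842) (nat_lit 11) (.e (nat_lit 426342) (nat_lit 14) (.e (nat_lit 491560) (nat_lit 10) (.e (nat_lit 344096) (nat_lit 18) (.e (nat_lit 7265) (nat_lit 384) .nil)))))) (.g (nat_lit 5) .nil .nil)))) (.nd (nat_lit 5) 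
(.lf (nat_lit 160208) (.g (nat_lit 2035) (.e (nat_lit 57436) (nat_lit 17) (.e (nat_lit 376842) (nat_lit 11) (.e (nat_lit 426341) (nat_lit 14) (.e (nat_lit 491558) (nat_lit 10) (.e (nat_lit 344091) (nat_lit 18) .nil))))) .nil)) 
(.lf (nat_lit 160240) (.g (nat_lit 3293) (.e (nat_lit 57436) (nat_lit 17) (.e (nat_lit 376842) (nat_lit 11) (.e (nat_lit 426344) (nat_lit 14) (.e (nat_lit 491558) (nat_lit 10) (.e (nat_lit 344095) (nat_lit 18) (.e (nat_lit 7261) (nat_lit 384) .nil)))))) (.g (nat_lit 6) .nil .nil))))) (.nd (nat_lit 4) (.nd (nat_lit 5) 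
(.lf (nat_lit 160200) (.g (nat_lit 2254) (.e (nat_lit 57436) (nat_lit 17) (.e (nat_lit 376842) (nat_lit 11) (.e (nat_lit 426316) (nat_lit 12) (.e (nat_lit 475214) (nat_lit 42) (.e (nat_lit 720932) (nat_lit 21) (.e (nat_lit 57844) (nat_lit 252) .nil)))))) (.g (nat_lit 5) .nil .nil))) 
(.lf (nat_lit 160232) (.g (nat_lit 2557) (.e (nat_lit 57436) (nat_lit 17) (.e (nat_lit 376842) (nat_lit 11) (.e (nat_lit 426343) (nat_lit 14) (.e (nat_lit 491560) (nat_lit 10) (.e (nat_lit 344095) (nat_lit 18) .nil))))) .nil))) (.nd (nat_lit 5) 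
(.lf (nat_lit 160216) (.g (nat_lit 2166) (.e (nat_lit 57436) (nat_lit 17) (.e (nat_lit 376842) (nat_lit 11) (.e (nat_lit 426342) (nat_lit 14) (.e (nat_lit 491558) (nat_lit 10) (.e (nat_lit 344091) (nat_lit 18) (.e (nat_lit 7263) (nat_lit 384) .nil)))))) (.g (nat_lit 4) .nil .nil))) 
(.lf (nat_lit 160248) (.g (nat_lit 1357) (.e (nat_lit 57436) (nat_lit 17) (.e (nat_lit 376855) (nat_lit 20) (.e (nat_lit 2000) (nat_lit 138) (.e (nat_lit 671748) (nat_lit 0) (.e (nat_lit 1598) (nat_lit 111) (.e (nat_lit 360456) (nat_lit 0) (.e (nat_lit 5949) (nat_lit 322) .nil))))))) (.g (nat_lit 4) .nil .nil)))))) (.nd (nat_lit 3) (.nd (nat_lit 4) (.nd (nat_lit 5) 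
(.lf (nat_lit 160196) (.g (nat_lit 2398) (.e (nat_lit 57436) (nat_lit 17) (.e (nat_lit 376842) (nat_lit 11) (.e (nat_lit 426316) (nat_lit 12) (.e (nat_lit 475213) (nat_lit 42) (.e (nat_lit 720931) (nat_lit 21) (.e (nat_lit 57854) (nat_lit 252) .nil)))))) (.g (nat_lit 4) .nil .nil))) 
(.lf (nat_lit 160228) (.g (nat_lit 2469) (.e (nat_lit 57436) (nat_lit 17) (.e (nat_lit 376842) (nat_lit 11) (.e (nat_lit 426343) (nat_lit 14) (.e (nat_lit 491558) (nat_lit 10) (.e (nat_lit 344096) (nat_lit 18) (.e (nat_lit 7263) (nat_lit 384) .nil)))))) (.g (nat_lit 4) .nil .nil)))) (.nd (nat_lit 5) 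
(.lf (nat_lit 160212) (.g (nat_lit 3273) (.e (nat_lit 57436) (nat_lit 17) (.e (nat_lit 376842) (nat_lit 11) (.e (nat_lit 426341) (nat_lit 14) (.e (nat_lit 491560) (nat_lit 10) (.e (nat_lit 344090) (nat_lit 18) (.e (nat_lit 7261) (nat_lit 384) .nil)))))) (.g (nat_lit 5) .nil .nil))) 
(.lf (nat_lit 160244) (.g (nat_lit 2408) (.e (nat_lit 57436) (nat_lit 17) (.e (nat_lit 376842) (nat_lit 11) (.e (nat_lit 426344) (nat_lit 14) (.e (nat_lit 491560) (nat_lit 10) (.e (nat_lit 344090) (nat_lit 18) (.e (nat_lit 7263) (nat_lit 384) .nil)))))) (.g (nat_lit 4) .nil .nil))))) (.nd (nat_lit 4) (.nd (nat_lit 5) 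
(.lf (nat_lit 160204) (.g (nat_lit 2237) (.e (nat_lit 57436) (nat_lit 17) (.e (nat_lit 376842) (nat_lit 11) (.e (nat_lit 426338) (nat_lit 14) (.e (nat_lit 491558) (nat_lit 10) (.e (nat_lit 344096) (nat_lit 18) .nil))))) .nil)) 
(.lf (nat_lit 160236) (.g (nat_lit 3143) (.e (nat_lit 57436) (nat_lit 17) (.e (nat_lit 376842) (nat_lit 11) (.e (nat_lit 426343) (nat_lit 14) (.e (nat_lit 491560) (nat_lit 10) (.e (nat_lit 344096) (nat_lit 18) (.e (nat_lit 7265) (nat_lit 384) .nil)))))) (.g (nat_lit 5) .nil .nil)))) (.nd (nat_lit 5) 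
(.lf (nat_lit 160220) (.g (nat_lit 2109) (.e (nat_lit 57436) (nat_lit 17) (.e (nat_lit 376842) (nat_lit 11) (.e (nat_lit 426342) (nat_lit 14) (.e (nat_lit 491560) (nat_lit 10) (.e (nat_lit 344094) (nat_lit 18) (.e (nat_lit 7263) (nat_lit 384) .nil)))))) (.g (nat_lit 4) .nil .nil))) 
(.lf (nat_lit 160252) (.g (nat_lit 1259) (.e (nat_lit 57436) (nat_lit 17) (.e (nat_lit 376859) (nat_lit 21) (.e (nat_lit 57666) (nat_lit 152) (.e (nat_lit 1078) (nat_lit 81) (.e (nat_lit 1582) (nat_lit 111) .nil))))) .nil)))))) (.nd (nat_lit 2) (.nd (nat_lit 3) (.nd (nat_lit 4) (.nd (nat_lit 5) 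
(.lf (nat_lit 160194) (.g (nat_lit 2005) (.e (nat_lit 57436) (nat_lit 17) (.e (nat_lit 376842) (nat_lit 11) (.e (nat_lit 426316) (nat_lit 12) (.e (nat_lit 475213) (nat_lit 42) (.e (nat_lit 720931) (nat_lit 21) .nil))))) .nil)) 
(.lf (nat_lit 160226) (.g (nat_lit 2659) (.e (nat_lit 57436) (nat_lit 17) (.e (nat_lit 376842) (nat_lit 11) (.e (nat_lit 426343) (nat_lit 14) (.e (nat_lit 491558) (nat_lit 10) (.e (nat_lit 344091) (nat_lit 18) (.e (nat_lit 7263) (nat_lit 384) .nil)))))) (.g (nat_lit 4) .nil .nil)))) (.nd (nat_lit 5) 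
(.lf (nat_lit 160210) (.g (nat_lit 2031) (.e (nat_lit 57436) (nat_lit 17) (.e (nat_lit 376842) (nat_lit 11) (.e (nat_lit 426341) (nat_lit 14) (.e (nat_lit 491558) (nat_lit 10) (.e (nat_lit 344096) (nat_lit 18) .nil))))) .nil)) 
(.lf (nat_lit 160242) (.g (nat_lit 2374) (.e (nat_lit 57436) (nat_lit 17) (.e (nat_lit 376842) (nat_lit 11) (.e (nat_lit 426344) (nat_lit 14) (.e (nat_lit 491560) (nat_lit 10) (.e (nat_lit 344087) (nat_lit 18) .nil))))) .nil)))) (.nd (nat_lit 4) (.nd (nat_lit 5) 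
(.lf (nat_lit 160202) (.g (nat_lit 699) (.e (nat_lit 57436) (nat_lit 17) (.e (nat_lit 376842) (nat_lit 11) (.e (nat_lit 426338) (nat_lit 14) .nil))) .nil)) 
(.lf (nat_lit 160234) (.g (nat_lit 2010) (.e (nat_lit 57436) (nat_lit 17) (.e (nat_lit 376842) (nat_lit 11) (.e (nat_lit 426343) (nat_lit 14) (.e (nat_lit 491560) (nat_lit 10) (.e (nat_lit 344096) (nat_lit 18) .nil))))) .nil))) (.nd (nat_lit 5) 
(.lf (nat_lit 160218) (.g (nat_lit 2064) (.e (nat_lit 57436) (nat_lit 17) (.e (nat_lit 376842) (nat_lit 11) (.e (nat_lit 426342) (nat_lit 14) (.e (nat_lit 491560) (nat_lit 10) (.e (nat_lit 344090) (nat_lit 18) (.e (nat_lit 7263) (nat_lit 384) .nil)))))) (.g (nat_lit 4) .nil .nil))) 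
(.lf (nat_lit 160250) (.g (nat_lit 2805) (.e (nat_lit 57436) (nat_lit 17) (.e (nat_lit 376858) (nat_lit 21) (.e (nat_lit 57681) (nat_lit 155) (.e (nat_lit 122919) (nat_lit 15) (.e (nat_lit 360451) (nat_lit 0) (.e (nat_lit 7261) (nat_lit 384) .nil)))))) (.g (nat_lit 6) .nil .nil)))))) (.nd (nat_lit 3) (.nd (nat_lit 4) (.nd (nat_lit 5) 
(.lf (nat_lit 160198) (.g (nat_lit 2884) (.e (nat_lit 57436) (nat_lit 17) (.e (nat_lit 376842) (nat_lit 11) (.e (nat_lit 426316) (nat_lit 12) (.e (nat_lit 475214) (nat_lit 42) (.e (nat_lit 720931) (nat_lit 21) (.e (nat_lit 57851) (nat_lit 252) .nil)))))) (.g (nat_lit 6) .nil .nil))) 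
(.lf (nat_lit 160230) (.g (nat_lit 2298) (.e (nat_lit 57436) (nat_lit 17) (.e (nat_lit 376842) (nat_lit 11) (.e (nat_lit 426343) (nat_lit 14) (.e (nat_lit 491560) (nat_lit 10) (.e (nat_lit 344091) (nat_lit 18) (.e (nat_lit 7263) (nat_lit 384) .nil)))))) (.g (nat_lit 4) .nil .nil)))) (.nd (nat_lit 5) 
(.lf (nat_lit 160214) (.g (nat_lit 2287) (.e (nat_lit 57436) (nat_lit 17) (.e (nat_lit 376842) (nat_lit 11) (.e (nat_lit 426341) (nat_lit 14) (.e (nat_lit 491560) (nat_lit 10) (.e (nat_lit 344094) (nat_lit 18) (.e (nat_lit 7263) (nat_lit 384) .nil)))))) (.g (nat_lit 4) .nil .nil))) 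
(.lf (nat_lit 160246) (.g (nat_lit 2430) (.e (nat_lit 57436) (nat_lit 17) (.e (nat_lit 376842) (nat_lit 11) (.e (nat_lit 426344) (nat_lit 14) (.e (nat_lit 491560) (nat_lit 10) (.e (nat_lit 344095) (nat_lit 18) .nil))))) .nil)))) (.nd (nat_lit 4) (.nd (nat_lit 5) 
(.lf (nat_lit 160206) (.g (nat_lit 3538) (.e (nat_lit 57436) (nat_lit 17) (.e (nat_lit 376842) (nat_lit 11) (.e (nat_lit 426338) (nat_lit 14) (.e (nat_lit 491566) (nat_lit 12) (.e (nat_lit 385044) (nat_lit 21) .nil))))) .nil)) 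
(.lf (nat_lit 160238) (.g (nat_lit 3497) (.e (nat_lit 57436) (nat_lit 17) (.e (nat_lit 376842) (nat_lit 11) (.e (nat_lit 426344) (nat_lit 14) (.e (nat_lit 491558) (nat_lit 10) (.e (nat_lit 344090) (nat_lit 18) (.e (nat_lit 7266) (nat_lit 384) .nil)))))) (.g (nat_lit 0) .nil .nil)))) (.nd (nat_lit 5) 
(.lf (nat_lit 160222) (.g (nat_lit 2545) (.e (nat_lit 57436) (nat_lit 17) (.e (nat_lit 376842) (nat_lit 11) (.e (nat_lit 426342) (nat_lit 14) (.e (nat_lit 491560) (nat_lit 10) (.e (nat_lit 344095) (nat_lit 18) (.e (nat_lit 7261) (nat_lit 384) .nil)))))) (.g (nat_lit 4) .nil .nil))) 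
(.lf (nat_lit 160254) (.g (nat_lit 3398) (.e (nat_lit 57436) (nat_lit 17) (.e (nat_lit 376859) (nat_lit 21) (.e (nat_lit 57680) (nat_lit 155) (.e (nat_lit 122919) (nat_lit 15) (.e (nat_lit 360451) (nat_lit 0) (.e (nat_lit 7265) (nat_lit 384) .nil)))))) (.g (nat_lit 0) .nil .nil)))))))) (.nd (nat_lit 1) (.nd (nat_lit 2) (.nd (nat_lit 3) (.nd (nat_lit 4) (.nd (nat_lit 5) 
(.lf (nat_lit 160193) (.g (nat_lit 2586) (.e (nat_lit 57436) (nat_lit 17) (.e (nat_lit 376842) (nat_lit 11) (.e (nat_lit 426316) (nat_lit 12) (.e (nat_lit 475212) (nat_lit 42) (.e (nat_lit 720934) (nat_lit 21) (.e (nat_lit 57854) (nat_lit 252) .nil)))))) (.g (nat_lit 4) .nil .nil))) 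
(.lf (nat_lit 160225) (.g (nat_lit 3474) (.e (nat_lit 57436) (nat_lit 17) (.e (nat_lit 376842) (nat_lit 11) (.e (nat_lit 426343) (nat_lit 14) (.e (nat_lit 491558) (nat_lit 10) (.e (nat_lit 344090) (nat_lit 18) (.e (nat_lit 7266) (nat_lit 384) .nil)))))) (.g (nat_lit 0) .nil .nil)))) (.nd (nat_lit 5) 
(.lf (nat_lit 160209) (.g (nat_lit 2075) (.e (nat_lit 57436) (nat_lit 17) (.e (nat_lit 376842) (nat_lit 11) (.e (nat_lit 426341) (nat_lit 14) (.e (nat_lit 491558) (nat_lit 10) (.e (nat_lit 344095) (nat_lit 18) .nil))))) .nil)) 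
(.lf (nat_lit 160241) (.g (nat_lit 2483) (.e (nat_lit 57436) (nat_lit 17) (.e (nat_lit 376842) (nat_lit 11) (.e (nat_lit 426344) (nat_lit 14) (.e (nat_lit 491558) (nat_lit 10) (.e (nat_lit 344096) (nat_lit 18) (.e (nat_lit 7263) (nat_lit 384) .nil)))))) (.g (nat_lit 4) .nil .nil))))) (.nd (nat_lit 4) (.nd (nat_lit 5) 
(.lf (nat_lit 160201) (.g (nat_lit 1973) (.e (nat_lit 57436) (nat_lit 17) (.e (nat_lit 376842) (nat_lit 11) (.e (nat_lit 426316) (nat_lit 12) (.e (nat_lit 475214) (nat_lit 42) (.e (nat_lit 720932) (nat_lit 21) (.e (nat_lit 57853) (nat_lit 252) .nil)))))) (.g (nat_lit 4) .nil .nil))) 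
(.lf (nat_lit 160233) (.g (nat_lit 3081) (.e (nat_lit 57436) (nat_lit 17) (.e (nat_lit 376842) (nat_lit 11) (.e (nat_lit 426343) (nat_lit 14) (.e (nat_lit 491560) (nat_lit 10) (.e (nat_lit 344095) (nat_lit 18) (.e (nat_lit 7261) (nat_lit 384) .nil)))))) (.g (nat_lit 4) .nil .nil)))) (.nd (nat_lit 5) 
(.lf (nat_lit 160217) (.g (nat_lit 2702) (.e (nat_lit 57436) (nat_lit 17) (.e (nat_lit 376842) (nat_lit 11) (.e (nat_lit 426342) (nat_lit 14) (.e (nat_lit 491558) (nat_lit 10) (.e (nat_lit 344095) (nat_lit 18) (.e (nat_lit 7261) (nat_lit 384) .nil)))))) (.g (nat_lit 6) .nil .nil))) 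
(.lf (nat_lit 160249) (.g (nat_lit 3722) (.e (nat_lit 57436) (nat_lit 17) (.e (nat_lit 376856) (nat_lit 21) (.e (nat_lit 57681) (nat_lit 155) (.e (nat_lit 122919) (nat_lit 15) (.e (nat_lit 360451) (nat_lit 0) (.e (nat_lit 7265) (nat_lit 384) .nil)))))) (.g (nat_lit 0) .nil .nil)))))) (.nd (nat_lit 3) (.nd (nat_lit 4) (.nd (nat_lit 5) 
(.lf (nat_lit 160197) (.g (nat_lit 2837) (.e (nat_lit 57436) (nat_lit 17) (.e (nat_lit 376842) (nat_lit 11) (.e (nat_lit 426316) (nat_lit 12) (.e (nat_lit 475214) (nat_lit 42) (.e (nat_lit 720930) (nat_lit 21) (.e (nat_lit 57854) (nat_lit 252) .nil)))))) (.g (nat_lit 0) .nil .nil))) 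
(.lf (nat_lit 160229) (.g (nat_lit 2318) (.e (nat_lit 57436) (nat_lit 17) (.e (nat_lit 376842) (nat_lit 11) (.e (nat_lit 426343) (nat_lit 14) (.e (nat_lit 491560) (nat_lit 10) (.e (nat_lit 344090) (nat_lit 18) (.e (nat_lit 7263) (nat_lit 384) .nil)))))) (.g (nat_lit 4) .nil .nil)))) (.nd (nat_lit 5) 
(.lf (nat_lit 160213) (.g (nat_lit 3389) (.e (nat_lit 57436) (nat_lit 17) (.e (nat_lit 376842) (nat_lit 11) (.e (nat_lit 426341) (nat_lit 14) (.e (nat_lit 491560) (nat_lit 10) (.e (nat_lit 344090) (nat_lit 18) (.e (nat_lit 7265) (nat_lit 384) .nil)))))) (.g (nat_lit 5) .nil .nil))) 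
(.lf (nat_lit 160245) (.g (nat_lit 2421) (.e (nat_lit 57436) (nat_lit 17) (.e (nat_lit 376842) (nat_lit 11) (.e (nat_lit 426344) (nat_lit 14) (.e (nat_lit 491560) (nat_lit 10) (.e (nat_lit 344094) (nat_lit 18) (.e (nat_lit 7263) (nat_lit 384) .nil)))))) (.g (nat_lit 4) .nil .nil))))) (.nd (nat_lit 4) (.nd (nat_lit 5) 
(.lf (nat_lit 160205) (.g (nat_lit 3278) (.e (nat_lit 57436) (nat_lit 17) (.e (nat_lit 376842) (nat_lit 11) (.e (nat_lit 426338) (nat_lit 14) (.e (nat_lit 491566) (nat_lit 12) (.e (nat_lit 385043) (nat_lit 21) (.e (nat_lit 4523) (nat_lit 265) .nil)))))) (.g (nat_lit 4) .nil .nil))) 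
(.lf (nat_lit 160237) (.g (nat_lit 608) (.e (nat_lit 57436) (nat_lit 17) (.e (nat_lit 376842) (nat_lit 11) (.e (nat_lit 426344) (nat_lit 14) .nil))) .nil))) (.nd (nat_lit 5) 
(.lf (nat_lit 160221) (.g (nat_lit 2124) (.e (nat_lit 57436) (nat_lit 17) (.e (nat_lit 376842) (nat_lit 11) (.e (nat_lit 426342) (nat_lit 14) (.e (nat_lit 491560) (nat_lit 10) (.e (nat_lit 344095) (nat_lit 18) .nil))))) .nil)) 
(.lf (nat_lit 160253) (.g (nat_lit 2638) (.e (nat_lit 57436) (nat_lit 17) (.e (nat_lit 376859) (nat_lit 21) (.e (nat_lit 57680) (nat_lit 155) (.e (nat_lit 122919) (nat_lit 15) (.e (nat_lit 360451) (nat_lit 0) (.e (nat_lit 7261) (nat_lit 384) .nil)))))) (.g (nat_lit 5) .nil .nil))))))) (.nd (nat_lit 2) (.nd (nat_lit 3) (.nd (nat_lit 4) (.nd (nat_lit 5) 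
(.lf (nat_lit 160195) (.g (nat_lit 2421) (.e (nat_lit 57436) (nat_lit 17) (.e (nat_lit 376842) (nat_lit 11) (.e (nat_lit 426316) (nat_lit 12) (.e (nat_lit 475213) (nat_lit 42) (.e (nat_lit 720931) (nat_lit 21) (.e (nat_lit 57852) (nat_lit 252) .nil)))))) (.g (nat_lit 4) .nil .nil))) 
(.lf (nat_lit 160227) (.g (nat_lit 2362) (.e (nat_lit 57436) (nat_lit 17) (.e (nat_lit 376842) (nat_lit 11) (.e (nat_lit 426343) (nat_lit 14) (.e (nat_lit 491558) (nat_lit 10) (.e (nat_lit 344095) (nat_lit 18) (.e (nat_lit 7263) (nat_lit 384) .nil)))))) (.g (nat_lit 4) .nil .nil)))) (.nd (nat_lit 5) 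
(.lf (nat_lit 160211) (.g (nat_lit 1056) (.e (nat_lit 57436) (nat_lit 17) (.e (nat_lit 376842) (nat_lit 11) (.e (nat_lit 426341) (nat_lit 14) (.e (nat_lit 491560) (nat_lit 10) .nil)))) .nil)) 
(.lf (nat_lit 160243) (.g (nat_lit 2613) (.e (nat_lit 57436) (nat_lit 17) (.e (nat_lit 376842) (nat_lit 11) (.e (nat_lit 426344) (nat_lit 14) (.e (nat_lit 491560) (nat_lit 10) (.e (nat_lit 344089) (nat_lit 18) .nil))))) .nil)))) (.nd (nat_lit 4) (.nd (nat_lit 5) 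
(.lf (nat_lit 160203) (.g (nat_lit 2249) (.e (nat_lit 57436) (nat_lit 17) (.e (nat_lit 376842) (nat_lit 11) (.e (nat_lit 426338) (nat_lit 14) (.e (nat_lit 491558) (nat_lit 10) (.e (nat_lit 344091) (nat_lit 18) .nil))))) .nil)) 
(.lf (nat_lit 160235) (.g (nat_lit 3047) (.e (nat_lit 57436) (nat_lit 17) (.e (nat_lit 376842) (nat_lit 11) (.e (nat_lit 426343) (nat_lit 14) (.e (nat_lit 491560) (nat_lit 10) (.e (nat_lit 344096) (nat_lit 18) (.e (nat_lit 7261) (nat_lit 384) .nil)))))) (.g (nat_lit 5) .nil .nil)))) (.nd (nat_lit 5) 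
(.lf (nat_lit 160219) (.g (nat_lit 2125) (.e (nat_lit 57436) (nat_lit 17) (.e (nat_lit 376842) (nat_lit 11) (.e (nat_lit 426342) (nat_lit 14) (.e (nat_lit 491560) (nat_lit 10) (.e (nat_lit 344091) (nat_lit 18) (.e (nat_lit 7263) (nat_lit 384) .nil)))))) (.g (nat_lit 4) .nil .nil))) 
(.lf (nat_lit 160251) (.g (nat_lit 922) (.e (nat_lit 57436) (nat_lit 17) (.e (nat_lit 376859) (nat_lit 21) (.e (nat_lit 57666) (nat_lit 152) (.e (nat_lit 1077) (nat_lit 81) .nil)))) .nil))))) (.nd (nat_lit 3) (.nd (nat_lit 4) (.nd (nat_lit 5) 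
(.lf (nat_lit 160199) (.g (nat_lit 3037) (.e (nat_lit 57436) (nat_lit 17) (.e (nat_lit 376842) (nat_lit 11) (.e (nat_lit 426316) (nat_lit 12) (.e (nat_lit 475214) (nat_lit 42) (.e (nat_lit 720931) (nat_lit 21) (.e (nat_lit 57854) (nat_lit 252) .nil)))))) (.g (nat_lit 0) .nil .nil))) 
(.lf (nat_lit 160231) (.g (nat_lit 3508) (.e (nat_lit 57436) (nat_lit 17) (.e (nat_lit 376842) (nat_lit 11) (.e (nat_lit 426343) (nat_lit 14) (.e (nat_lit 491560) (nat_lit 10) (.e (nat_lit 344091) (nat_lit 18) (.e (nat_lit 7266) (nat_lit 384) .nil)))))) (.g (nat_lit 0) .nil .nil)))) (.nd (nat_lit 5) 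
(.lf (nat_lit 160215) (.g (nat_lit 2435) (.e (nat_lit 57436) (nat_lit 17) (.e (nat_lit 376842) (nat_lit 11) (.e (nat_lit 426341) (nat_lit 14) (.e (nat_lit 491560) (nat_lit 10) (.e (nat_lit 344095) (nat_lit 18) (.e (nat_lit 7261) (nat_lit 384) .nil)))))) (.g (nat_lit 4) .nil .nil))) 
(.lf (nat_lit 160247) (.g (nat_lit 2298) (.e (nat_lit 57436) (nat_lit 17) (.e (nat_lit 376842) (nat_lit 11) (.e (nat_lit 426344) (nat_lit 14) (.e (nat_lit 491560) (nat_lit 10) (.e (nat_lit 344096) (nat_lit 18) .nil))))) .nil)))) (.nd (nat_lit 4) (.nd (nat_lit 5) 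
(.lf (nat_lit 160207) (.g (nat_lit 3473) (.e (nat_lit 57436) (nat_lit 17) (.e (nat_lit 376842) (nat_lit 11) (.e (nat_lit 426338) (nat_lit 14) (.e (nat_lit 491566) (nat_lit 12) (.e (nat_lit 385045) (nat_lit 21) (.e (nat_lit 4523) (nat_lit 265) .nil)))))) (.g (nat_lit 4) .nil .nil))) 
(.lf (nat_lit 160239) (.g (nat_lit 2643) (.e (nat_lit 57436) (nat_lit 17) (.e (nat_lit 376842) (nat_lit 11) (.e (nat_lit 426344) (nat_lit 14) (.e (nat_lit 491558) (nat_lit 10) (.e (nat_lit 344091) (nat_lit 18) (.e (nat_lit 7263) (nat_lit 384) .nil)))))) (.g (nat_lit 4) .nil .nil)))) (.nd (nat_lit 5) 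
(.lf (nat_lit 160223) (.g (nat_lit 2912) (.e (nat_lit 57436) (nat_lit 17) (.e (nat_lit 376842) (nat_lit 11) (.e (nat_lit 426342) (nat_lit 14) (.e (nat_lit 491560) (nat_lit 10) (.e (nat_lit 344096) (nat_lit 18) (.e (nat_lit 7261) (nat_lit 384) .nil)))))) (.g (nat_lit 5) .nil .nil))) 
(.lf (nat_lit 160255) (.g (nat_lit 1719) (.e (nat_lit 57436) (nat_lit 17) (.e (nat_lit 376859) (nat_lit 21) (.e (nat_lit 57681) (nat_lit 155) (.e (nat_lit 122917) (nat_lit 15) .nil)))) .nil))))))))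

noncomputable def tv2146 : DT := (.nd (nat_lit 0) (.nd (nat_lit 1) (.nd (nat_lit 2) (.nd (nat_lit 3) (.nd (nat_lit 4) (.nd (nat_lit 5) (.nd (nat_lit 6) 
(.lf (nat_lit 160256) (.g (nat_lit 2081) (.e (nat_lit 57436) (nat_lit 17) (.e (nat_lit 376859) (nat_lit 21) (.e (nat_lit 57681) (nat_lit 155) (.e (nat_lit 122919) (nat_lit 15) (.e (nat_lit 360450) (nat_lit 0) .nil))))) .nil)) 
(.lf (nat_lit 160320) (.g (nat_lit 2787) (.e (nat_lit 57437) (nat_lit 17) (.e (nat_lit 376838) (nat_lit 11) (.e (nat_lit 426172) (nat_lit 7) (.e (nat_lit 409643) (nat_lit 18) (.e (nat_lit 303115) (nat_lit 1) (.e (nat_lit 164178) (nat_lit 154) .nil)))))) (.g (nat_lit 0) .nil .nil)))) (.nd (nat_lit 6) 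
(.lf (nat_lit 160288) (.g (nat_lit 642) (.e (nat_lit 57436) (nat_lit 17) (.e (nat_lit 376860) (nat_lit 21) (.e (nat_lit 57692) (nat_lit 156) .nil))) .nil)) 
(.lf (nat_lit 160352) (.g (nat_lit 3952) (.e (nat_lit 57437) (nat_lit 17) (.e (nat_lit 376842) (nat_lit 11) (.e (nat_lit 426172) (nat_lit 7) (.e (nat_lit 409645) (nat_lit 18) (.e (nat_lit 303115) (nat_lit 1) (.e (nat_lit 164178) (nat_lit 154) .nil)))))) (.g (nat_lit 0) .nil .nil))))) (.nd (nat_lit 5) (.nd (nat_lit 6) 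
(.lf (nat_lit 160272) (.g (nat_lit 3503) (.e (nat_lit 57436) (nat_lit 17) (.e (nat_lit 376859) (nat_lit 21) (.e (nat_lit 57872) (nat_lit 264) (.e (nat_lit 1221) (nat_lit 90) (.e (nat_lit 81959) (nat_lit 24) (.e (nat_lit 123198) (nat_lit 266) .nil)))))) (.g (nat_lit 0) .nil .nil))) 
(.lf (nat_lit 160336) (.g (nat_lit 764) (.e (nat_lit 57437) (nat_lit 17) (.e (nat_lit 376842) (nat_lit 11) (.e (nat_lit 426028) (nat_lit 0) .nil))) .nil))) (.nd (nat_lit 6) 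
(.lf (nat_lit 160304) (.g (nat_lit 682) (.e (nat_lit 57436) (nat_lit 17) (.e (nat_lit 376865) (nat_lit 22) (.e (nat_lit 90158) (nat_lit 11) .nil))) .nil)) 
(.lf (nat_lit 160368) (.g (nat_lit 814) (.e (nat_lit 57437) (nat_lit 17) (.e (nat_lit 376842) (nat_lit 11) (.e (nat_lit 426182) (nat_lit 8) .nil))) .nil))))) (.nd (nat_lit 4) (.nd (nat_lit 5) (.nd (nat_lit 6) 
(.lf (nat_lit 160264) (.g (nat_lit 3367) (.e (nat_lit 57436) (nat_lit 17) (.e (nat_lit 376859) (nat_lit 21) (.e (nat_lit 57683) (nat_lit 155) (.e (nat_lit 122919) (nat_lit 15) (.e (nat_lit 360451) (nat_lit 0) (.e (nat_lit 7265) (nat_lit 384) .nil)))))) (.g (nat_lit 6) .nil .nil))) 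
(.lf (nat_lit 160328) (.g (nat_lit 2577) (.e (nat_lit 57437) (nat_lit 17) (.e (nat_lit 376842) (nat_lit 11) (.e (nat_lit 426011) (nat_lit 0) (.e (nat_lit 7593) (nat_lit 407) (.e (nat_lit 73731) (nat_lit 0) (.e (nat_lit 7261) (nat_lit 384) .nil)))))) (.g (nat_lit 4) .nil .nil)))) (.nd (nat_lit 6) 
(.lf (nat_lit 160296) (.g (nat_lit 2948) (.e (nat_lit 57436) (nat_lit 17) (.e (nat_lit 376860) (nat_lit 21) (.e (nat_lit 57870) (nat_lit 264) (.e (nat_lit 1221) (nat_lit 90) (.e (nat_lit 81959) (nat_lit 24) (.e (nat_lit 123196) (nat_lit 266) .nil)))))) (.g (nat_lit 5) .nil .nil))) 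
(.lf (nat_lit 160360) (.g (nat_lit 3017) (.e (nat_lit 57437) (nat_lit 17) (.e (nat_lit 376842) (nat_lit 11) (.e (nat_lit 426172) (nat_lit 7) (.e (nat_lit 409649) (nat_lit 18) (.e (nat_lit 303115) (nat_lit 1) (.e (nat_lit 164179) (nat_lit 154) .nil)))))) (.g (nat_lit 5) .nil .nil))))) (.nd (nat_lit 5) (.nd (nat_lit 6) 
(.lf (nat_lit 160280) (.g (nat_lit 831) (.e (nat_lit 57436) (nat_lit 17) (.e (nat_lit 376860) (nat_lit 21) (.e (nat_lit 57664) (nat_lit 152) (.e (nat_lit 1065) (nat_lit 81) .nil)))) .nil)) 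
(.lf (nat_lit 160344) (.g (nat_lit 814) (.e (nat_lit 57437) (nat_lit 17) (.e (nat_lit 376842) (nat_lit 11) (.e (nat_lit 426070) (nat_lit 0) .nil))) .nil))) (.nd (nat_lit 6) 
(.lf (nat_lit 160312) (.g (nat_lit 3018) (.e (nat_lit 57436) (nat_lit 17) (.e (nat_lit 376869) (nat_lit 23) (.e (nat_lit 98387) (nat_lit 33) (.e (nat_lit 491566) (nat_lit 12) (.e (nat_lit 385044) (nat_lit 21) .nil))))) .nil)) 
(.lf (nat_lit 160376) (.g (nat_lit 3376) (.e (nat_lit 57437) (nat_lit 17) (.e (nat_lit 376842) (nat_lit 11) (.e (nat_lit 426187) (nat_lit 9) (.e (nat_lit 426446) (nat_lit 20) (.e (nat_lit 114710) (nat_lit 21) (.e (nat_lit 57847) (nat_lit 252) .nil)))))) (.g (nat_lit 6) .nil .nil))))))) (.nd (nat_lit 3) (.nd (nat_lit 4) (.nd (nat_lit 5) (.nd (nat_lit 6) 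
(.lf (nat_lit 160260) (.g (nat_lit 2948) (.e (nat_lit 57436) (nat_lit 17) (.e (nat_lit 376859) (nat_lit 21) (.e (nat_lit 57683) (nat_lit 155) (.e (nat_lit 122917) (nat_lit 15) (.e (nat_lit 360449) (nat_lit 0) (.e (nat_lit 7265) (nat_lit 384) .nil)))))) (.g (nat_lit 6) .nil .nil))) 
(.lf (nat_lit 160324) (.g (nat_lit 2155) (.e (nat_lit 57437) (nat_lit 17) (.e (nat_lit 376842) (nat_lit 11) (.e (nat_lit 426003) (nat_lit 0) (.e (nat_lit 7593) (nat_lit 407) (.e (nat_lit 73729) (nat_lit 0) (.e (nat_lit 7261) (nat_lit 384) .nil)))))) (.g (nat_lit 4) .nil .nil)))) (.nd (nat_lit 6) 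
(.lf (nat_lit 160292) (.g (nat_lit 2867) (.e (nat_lit 57436) (nat_lit 17) (.e (nat_lit 376860) (nat_lit 21) (.e (nat_lit 57870) (nat_lit 264) (.e (nat_lit 1219) (nat_lit 90) (.e (nat_lit 81957) (nat_lit 24) (.e (nat_lit 123198) (nat_lit 266) .nil)))))) (.g (nat_lit 5) .nil .nil))) 
(.lf (nat_lit 160356) (.g (nat_lit 2892) (.e (nat_lit 57437) (nat_lit 17) (.e (nat_lit 376842) (nat_lit 11) (.e (nat_lit 426172) (nat_lit 7) (.e (nat_lit 409647) (nat_lit 18) (.e (nat_lit 303115) (nat_lit 1) (.e (nat_lit 164179) (nat_lit 154) .nil)))))) (.g (nat_lit 5) .nil .nil))))) (.nd (nat_lit 5) (.nd (nat_lit 6) 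
(.lf (nat_lit 160276) (.g (nat_lit 642) (.e (nat_lit 57436) (nat_lit 17) (.e (nat_lit 376860) (nat_lit 21) (.e (nat_lit 57651) (nat_lit 152) .nil))) .nil)) 
(.lf (nat_lit 160340) (.g (nat_lit 814) (.e (nat_lit 57437) (nat_lit 17) (.e (nat_lit 376842) (nat_lit 11) (.e (nat_lit 426035) (nat_lit 0) .nil))) .nil))) (.nd (nat_lit 6) 
(.lf (nat_lit 160308) (.g (nat_lit 957) (.e (nat_lit 57436) (nat_lit 17) (.e (nat_lit 376869) (nat_lit 23) (.e (nat_lit 98313) (nat_lit 9) (.e (nat_lit 343808) (nat_lit 20) .nil)))) .nil)) 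
(.lf (nat_lit 160372) (.g (nat_lit 2317) (.e (nat_lit 57437) (nat_lit 17) (.e (nat_lit 376842) (nat_lit 11) (.e (nat_lit 426186) (nat_lit 9) (.e (nat_lit 426446) (nat_lit 20) (.e (nat_lit 114710) (nat_lit 21) (.e (nat_lit 57848) (nat_lit 252) .nil)))))) (.g (nat_lit 5) .nil .nil)))))) (.nd (nat_lit 4) (.nd (nat_lit 5) (.nd (nat_lit 6) 
(.lf (nat_lit 160268) (.g (nat_lit 489) (.e (nat_lit 57436) (nat_lit 17) (.e (nat_lit 376859) (nat_lit 21) (.e (nat_lit 57871) (nat_lit 264) .nil))) .nil)) 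
(.lf (nat_lit 160332) (.g (nat_lit 814) (.e (nat_lit 57437) (nat_lit 17) (.e (nat_lit 376842) (nat_lit 11) (.e (nat_lit 426013) (nat_lit 0) .nil))) .nil))) (.nd (nat_lit 6) 
(.lf (nat_lit 160300) (.g (nat_lit 518) (.e (nat_lit 57436) (nat_lit 17) (.e (nat_lit 376860) (nat_lit 21) (.e (nat_lit 57931) (nat_lit 282) .nil))) .nil)) 
(.lf (nat_lit 160364) (.g (nat_lit 868) (.e (nat_lit 57437) (nat_lit 17) (.e (nat_lit 376842) (nat_lit 11) (.e (nat_lit 426181) (nat_lit 8) (.e (nat_lit 417804) (nat_lit 1) .nil)))) .nil)))) (.nd (nat_lit 5) (.nd (nat_lit 6) 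
(.lf (nat_lit 160284) (.g (nat_lit 1083) (.e (nat_lit 57436) (nat_lit 17) (.e (nat_lit 376860) (nat_lit 21) (.e (nat_lit 57680) (nat_lit 155) (.e (nat_lit 122917) (nat_lit 15) .nil)))) .nil)) 
(.lf (nat_lit 160348) (.g (nat_lit 3213) (.e (nat_lit 57437) (nat_lit 17) (.e (nat_lit 376842) (nat_lit 11) (.e (nat_lit 426172) (nat_lit 7) (.e (nat_lit 409643) (nat_lit 18) (.e (nat_lit 303115) (nat_lit 1) (.e (nat_lit 164178) (nat_lit 154) .nil)))))) (.g (nat_lit 6) .nil .nil)))) (.nd (nat_lit 6) 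
(.lf (nat_lit 160316) (.g (nat_lit 1062) (.e (nat_lit 57436) (nat_lit 17) (.e (nat_lit 376870) (nat_lit 24) (.e (nat_lit 123182) (nat_lit 264) (.e (nat_lit 1224) (nat_lit 90) .nil)))) .nil)) 
(.lf (nat_lit 160380) (.g (nat_lit 3656) (.e (nat_lit 57437) (nat_lit 17) (.e (nat_lit 376842) (nat_lit 11) (.e (nat_lit 426187) (nat_lit 9) (.e (nat_lit 426446) (nat_lit 20) (.e (nat_lit 114711) (nat_lit 21) (.e (nat_lit 57847) (nat_lit 252) .nil)))))) (.g (nat_lit 6) .nil .nil)))))))) (.nd (nat_lit 2) (.nd (nat_lit 3) (.nd (nat_lit 4) (.nd (nat_lit 5) (.nd (nat_lit 6) 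
(.lf (nat_lit 160258) (.g (nat_lit 3252) (.e (nat_lit 57436) (nat_lit 17) (.e (nat_lit 376859) (nat_lit 21) (.e (nat_lit 57682) (nat_lit 155) (.e (nat_lit 122919) (nat_lit 15) (.e (nat_lit 360451) (nat_lit 0) (.e (nat_lit 7265) (nat_lit 384) .nil)))))) (.g (nat_lit 0) .nil .nil))) 
(.lf (nat_lit 160322) (.g (nat_lit 3202) (.e (nat_lit 57437) (nat_lit 17) (.e (nat_lit 376838) (nat_lit 11) (.e (nat_lit 426172) (nat_lit 7) (.e (nat_lit 409646) (nat_lit 18) (.e (nat_lit 303115) (nat_lit 1) (.e (nat_lit 164178) (nat_lit 154) .nil)))))) (.g (nat_lit 0) .nil .nil)))) (.nd (nat_lit 6) 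
(.lf (nat_lit 160290) (.g (nat_lit 533) (.e (nat_lit 57436) (nat_lit 17) (.e (nat_lit 376860) (nat_lit 21) (.e (nat_lit 57832) (nat_lit 250) .nil))) .nil)) 
(.lf (nat_lit 160354) (.g (nat_lit 3514) (.e (nat_lit 57437) (nat_lit 17) (.e (nat_lit 376842) (nat_lit 11) (.e (nat_lit 426172) (nat_lit 7) (.e (nat_lit 409646) (nat_lit 18) (.e (nat_lit 303115) (nat_lit 1) (.e (nat_lit 164179) (nat_lit 154) .nil)))))) (.g (nat_lit 6) .nil .nil))))) (.nd (nat_lit 5) (.nd (nat_lit 6) 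
(.lf (nat_lit 160274) (.g (nat_lit 1146) (.e (nat_lit 57436) (nat_lit 17) (.e (nat_lit 376859) (nat_lit 21) (.e (nat_lit 57873) (nat_lit 264) (.e (nat_lit 1221) (nat_lit 90) .nil)))) .nil)) 
(.lf (nat_lit 160338) (.g (nat_lit 814) (.e (nat_lit 57437) (nat_lit 17) (.e (nat_lit 376842) (nat_lit 11) (.e (nat_lit 426030) (nat_lit 0) .nil))) .nil))) (.nd (nat_lit 6) 
(.lf (nat_lit 160306) (.g (nat_lit 1277) (.e (nat_lit 57436) (nat_lit 17) (.e (nat_lit 376865) (nat_lit 22) (.e (nat_lit 90160) (nat_lit 11) (.e (nat_lit 32512) (nat_lit 20) .nil)))) .nil)) 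
(.lf (nat_lit 160370) (.g (nat_lit 805) (.e (nat_lit 57437) (nat_lit 17) (.e (nat_lit 376842) (nat_lit 11) (.e (nat_lit 426185) (nat_lit 9) .nil))) .nil))))) (.nd (nat_lit 4) (.nd (nat_lit 5) (.nd (nat_lit 6) 
(.lf (nat_lit 160266) (.g (nat_lit 2607) (.e (nat_lit 57436) (nat_lit 17) (.e (nat_lit 376859) (nat_lit 21) (.e (nat_lit 57684) (nat_lit 155) (.e (nat_lit 122919) (nat_lit 15) (.e (nat_lit 360451) (nat_lit 0) (.e (nat_lit 7261) (nat_lit 384) .nil)))))) (.g (nat_lit 5) .nil .nil))) 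
(.lf (nat_lit 160330) (.g (nat_lit 2403) (.e (nat_lit 57437) (nat_lit 17) (.e (nat_lit 376842) (nat_lit 11) (.e (nat_lit 426012) (nat_lit 0) (.e (nat_lit 7591) (nat_lit 407) (.e (nat_lit 73729) (nat_lit 0) (.e (nat_lit 7261) (nat_lit 384) .nil)))))) (.g (nat_lit 4) .nil .nil)))) (.nd (nat_lit 6) 
(.lf (nat_lit 160298) (.g (nat_lit 539) (.e (nat_lit 57436) (nat_lit 17) (.e (nat_lit 376860) (nat_lit 21) (.e (nat_lit 65280) (nat_lit 267) .nil))) .nil)) 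
(.lf (nat_lit 160362) (.g (nat_lit 2236) (.e (nat_lit 57437) (nat_lit 17) (.e (nat_lit 376842) (nat_lit 11) (.e (nat_lit 426179) (nat_lit 8) (.e (nat_lit 417829) (nat_lit 18) (.e (nat_lit 303115) (nat_lit 1) (.e (nat_lit 164179) (nat_lit 154) .nil)))))) (.g (nat_lit 4) .nil .nil))))) (.nd (nat_lit 5) (.nd (nat_lit 6) 
(.lf (nat_lit 160282) (.g (nat_lit 915) (.e (nat_lit 57436) (nat_lit 17) (.e (nat_lit 376860) (nat_lit 21) (.e (nat_lit 57665) (nat_lit 152) (.e (nat_lit 7936) (nat_lit 90) .nil)))) .nil)) 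
(.lf (nat_lit 160346) (.g (nat_lit 2939) (.e (nat_lit 57437) (nat_lit 17) (.e (nat_lit 376842) (nat_lit 11) (.e (nat_lit 426166) (nat_lit 7) (.e (nat_lit 409646) (nat_lit 18) (.e (nat_lit 303115) (nat_lit 1) (.e (nat_lit 164179) (nat_lit 154) .nil)))))) (.g (nat_lit 5) .nil .nil)))) (.nd (nat_lit 6) 
(.lf (nat_lit 160314) (.g (nat_lit 2412) (.e (nat_lit 57436) (nat_lit 17) (.e (nat_lit 376869) (nat_lit 23) (.e (nat_lit 98387) (nat_lit 33) (.e (nat_lit 491566) (nat_lit 12) (.e (nat_lit 385046) (nat_lit 21) .nil))))) .nil)) 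
(.lf (nat_lit 160378) (.g (nat_lit 2948) (.e (nat_lit 57437) (nat_lit 17) (.e (nat_lit 376842) (nat_lit 11) (.e (nat_lit 426187) (nat_lit 9) (.e (nat_lit 426446) (nat_lit 20) (.e (nat_lit 114710) (nat_lit 21) (.e (nat_lit 57849) (nat_lit 252) .nil)))))) (.g (nat_lit 5) .nil .nil))))))) (.nd (nat_lit 3) (.nd (nat_lit 4) (.nd (nat_lit 5) (.nd (nat_lit 6) 
(.lf (nat_lit 160262) (.g (nat_lit 843) (.e (nat_lit 57436) (nat_lit 17) (.e (nat_lit 376859) (nat_lit 21) (.e (nat_lit 57683) (nat_lit 155) (.e (nat_lit 122919) (nat_lit 15) .nil)))) .nil)) 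
(.lf (nat_lit 160326) (.g (nat_lit 1569) (.e (nat_lit 57437) (nat_lit 17) (.e (nat_lit 376842) (nat_lit 11) (.e (nat_lit 426011) (nat_lit 0) (.e (nat_lit 7073) (nat_lit 377) .nil)))) .nil))) (.nd (nat_lit 6) 
(.lf (nat_lit 160294) (.g (nat_lit 1800) (.e (nat_lit 57436) (nat_lit 17) (.e (nat_lit 376860) (nat_lit 21) (.e (nat_lit 57870) (nat_lit 264) (.e (nat_lit 1221) (nat_lit 90) (.e (nat_lit 81957) (nat_lit 24) .nil))))) .nil)) 
(.lf (nat_lit 160358) (.g (nat_lit 3130) (.e (nat_lit 57437) (nat_lit 17) (.e (nat_lit 376842) (nat_lit 11) (.e (nat_lit 426172) (nat_lit 7) (.e (nat_lit 409648) (nat_lit 18) (.e (nat_lit 303115) (nat_lit 1) (.e (nat_lit 164179) (nat_lit 154) .nil)))))) (.g (nat_lit 5) .nil .nil))))) (.nd (nat_lit 5) (.nd (nat_lit 6) 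
(.lf (nat_lit 160278) (.g (nat_lit 642) (.e (nat_lit 57436) (nat_lit 17) (.e (nat_lit 376860) (nat_lit 21) (.e (nat_lit 57663) (nat_lit 152) .nil))) .nil)) 
(.lf (nat_lit 160342) (.g (nat_lit 814) (.e (nat_lit 57437) (nat_lit 17) (.e (nat_lit 376842) (nat_lit 11) (.e (nat_lit 426053) (nat_lit 0) .nil))) .nil))) (.nd (nat_lit 6) 
(.lf (nat_lit 160310) (.g (nat_lit 571) (.e (nat_lit 57436) (nat_lit 17) (.e (nat_lit 376869) (nat_lit 23) (.e (nat_lit 98315) (nat_lit 9) .nil))) .nil)) 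
(.lf (nat_lit 160374) (.g (nat_lit 2426) (.e (nat_lit 57437) (nat_lit 17) (.e (nat_lit 376842) (nat_lit 11) (.e (nat_lit 426186) (nat_lit 9) (.e (nat_lit 426448) (nat_lit 20) (.e (nat_lit 114710) (nat_lit 21) (.e (nat_lit 57844) (nat_lit 252) .nil)))))) (.g (nat_lit 4) .nil .nil)))))) (.nd (nat_lit 4) (.nd (nat_lit 5) (.nd (nat_lit 6) 
(.lf (nat_lit 160270) (.g (nat_lit 1538) (.e (nat_lit 57436) (nat_lit 17) (.e (nat_lit 376859) (nat_lit 21) (.e (nat_lit 57872) (nat_lit 264) (.e (nat_lit 1220) (nat_lit 90) (.e (nat_lit 81959) (nat_lit 24) .nil))))) .nil)) 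
(.lf (nat_lit 160334) (.g (nat_lit 814) (.e (nat_lit 57437) (nat_lit 17) (.e (nat_lit 376842) (nat_lit 11) (.e (nat_lit 426016) (nat_lit 0) .nil))) .nil))) (.nd (nat_lit 6) 
(.lf (nat_lit 160302) (.g (nat_lit 936) (.e (nat_lit 57436) (nat_lit 17) (.e (nat_lit 376865) (nat_lit 22) (.e (nat_lit 90155) (nat_lit 10) (.e (nat_lit 16128) (nat_lit 241) .nil)))) .nil)) 
(.lf (nat_lit 160366) (.g (nat_lit 2960) (.e (nat_lit 57437) (nat_lit 17) (.e (nat_lit 376842) (nat_lit 11) (.e (nat_lit 426181) (nat_lit 8) (.e (nat_lit 417829) (nat_lit 18) (.e (nat_lit 303115) (nat_lit 1) (.e (nat_lit 164178) (nat_lit 154) .nil)))))) (.g (nat_lit 6) .nil .nil))))) (.nd (nat_lit 5) (.nd (nat_lit 6) 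
(.lf (nat_lit 160286) (.g (nat_lit 539) (.e (nat_lit 57436) (nat_lit 17) (.e (nat_lit 376860) (nat_lit 21) (.e (nat_lit 65280) (nat_lit 155) .nil))) .nil)) 
(.lf (nat_lit 160350) (.g (nat_lit 3154) (.e (nat_lit 57437) (nat_lit 17) (.e (nat_lit 376842) (nat_lit 11) (.e (nat_lit 426172) (nat_lit 7) (.e (nat_lit 409644) (nat_lit 18) (.e (nat_lit 303115) (nat_lit 1) (.e (nat_lit 164178) (nat_lit 154) .nil)))))) (.g (nat_lit 6) .nil .nil)))) (.nd (nat_lit 6) 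
(.lf (nat_lit 160318) (.g (nat_lit 2652) (.e (nat_lit 57437) (nat_lit 17) (.e (nat_lit 376835) (nat_lit 0) (.e (nat_lit 3746) (nat_lit 228) (.e (nat_lit 786480) (nat_lit 29) (.e (nat_lit 352309) (nat_lit 21) (.e (nat_lit 65280) (nat_lit 266) .nil)))))) (.g (nat_lit 5) .nil .nil))) 
(.lf (nat_lit 160382) (.g (nat_lit 2599) (.e (nat_lit 57437) (nat_lit 17) (.e (nat_lit 376842) (nat_lit 11) (.e (nat_lit 426187) (nat_lit 9) (.e (nat_lit 426448) (nat_lit 20) (.e (nat_lit 114710) (nat_lit 21) (.e (nat_lit 57844) (nat_lit 252) .nil)))))) (.g (nat_lit 4) .nil .nil))))))))) (.nd (nat_lit 1) (.nd (nat_lit 2) (.nd (nat_lit 3) (.nd (nat_lit 4) (.nd (nat_lit 5) (.nd (nat_lit 6) 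
(.lf (nat_lit 160257) (.g (nat_lit 2306) (.e (nat_lit 57436) (nat_lit 17) (.e (nat_lit 376859) (nat_lit 21) (.e (nat_lit 57682) (nat_lit 155) (.e (nat_lit 122919) (nat_lit 15) (.e (nat_lit 360451) (nat_lit 0) (.e (nat_lit 7261) (nat_lit 384) .nil)))))) (.g (nat_lit 5) .nil .nil))) 
(.lf (nat_lit 160321) (.g (nat_lit 3314) (.e (nat_lit 57437) (nat_lit 17) (.e (nat_lit 376838) (nat_lit 11) (.e (nat_lit 426172) (nat_lit 7) (.e (nat_lit 409645) (nat_lit 18) (.e (nat_lit 303115) (nat_lit 1) (.e (nat_lit 164178) (nat_lit 154) .nil)))))) (.g (nat_lit 0) .nil .nil)))) (.nd (nat_lit 6) 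
(.lf (nat_lit 160289) (.g (nat_lit 463) (.e (nat_lit 57436) (nat_lit 17) (.e (nat_lit 376860) (nat_lit 21) (.e (nat_lit 57830) (nat_lit 250) .nil))) .nil)) 
(.lf (nat_lit 160353) (.g (nat_lit 3685) (.e (nat_lit 57437) (nat_lit 17) (.e (nat_lit 376842) (nat_lit 11) (.e (nat_lit 426172) (nat_lit 7) (.e (nat_lit 409645) (nat_lit 18) (.e (nat_lit 303115) (nat_lit 1) (.e (nat_lit 164179) (nat_lit 154) .nil)))))) (.g (nat_lit 6) .nil .nil))))) (.nd (nat_lit 5) (.nd (nat_lit 6) 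
(.lf (nat_lit 160273) (.g (nat_lit 1817) (.e (nat_lit 57436) (nat_lit 17) (.e (nat_lit 376859) (nat_lit 21) (.e (nat_lit 57873) (nat_lit 264) (.e (nat_lit 1219) (nat_lit 90) (.e (nat_lit 81957) (nat_lit 24) .nil))))) .nil)) 
(.lf (nat_lit 160337) (.g (nat_lit 815) (.e (nat_lit 57437) (nat_lit 17) (.e (nat_lit 376842) (nat_lit 11) (.e (nat_lit 426029) (nat_lit 0) .nil))) .nil))) (.nd (nat_lit 6) 
(.lf (nat_lit 160305) (.g (nat_lit 843) (.e (nat_lit 57436) (nat_lit 17) (.e (nat_lit 376865) (nat_lit 22) (.e (nat_lit 90159) (nat_lit 11) .nil))) .nil)) 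
(.lf (nat_lit 160369) (.g (nat_lit 2389) (.e (nat_lit 57437) (nat_lit 17) (.e (nat_lit 376842) (nat_lit 11) (.e (nat_lit 426182) (nat_lit 8) (.e (nat_lit 417828) (nat_lit 18) (.e (nat_lit 303115) (nat_lit 1) .nil))))) .nil))))) (.nd (nat_lit 4) (.nd (nat_lit 5) (.nd (nat_lit 6) 
(.lf (nat_lit 160265) (.g (nat_lit 1774) (.e (nat_lit 57436) (nat_lit 17) (.e (nat_lit 376859) (nat_lit 21) (.e (nat_lit 57684) (nat_lit 155) (.e (nat_lit 122919) (nat_lit 15) (.e (nat_lit 360449) (nat_lit 0) (.e (nat_lit 7265) (nat_lit 384) .nil)))))) (.g (nat_lit 4) .nil .nil))) 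
(.lf (nat_lit 160329) (.g (nat_lit 1714) (.e (nat_lit 57437) (nat_lit 17) (.e (nat_lit 376842) (nat_lit 11) (.e (nat_lit 426011) (nat_lit 0) (.e (nat_lit 7593) (nat_lit 407) (.e (nat_lit 73732) (nat_lit 0) .nil))))) .nil))) (.nd (nat_lit 6) 
(.lf (nat_lit 160297) (.g (nat_lit 3312) (.e (nat_lit 57436) (nat_lit 17) (.e (nat_lit 376860) (nat_lit 21) (.e (nat_lit 57870) (nat_lit 264) (.e (nat_lit 1221) (nat_lit 90) (.e (nat_lit 81959) (nat_lit 24) (.e (nat_lit 123198) (nat_lit 266) .nil)))))) (.g (nat_lit 5) .nil .nil))) 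
(.lf (nat_lit 160361) (.g (nat_lit 2554) (.e (nat_lit 57437) (nat_lit 17) (.e (nat_lit 376842) (nat_lit 11) (.e (nat_lit 426179) (nat_lit 8) (.e (nat_lit 417829) (nat_lit 18) (.e (nat_lit 303115) (nat_lit 1) (.e (nat_lit 164178) (nat_lit 154) .nil)))))) (.g (nat_lit 5) .nil .nil))))) (.nd (nat_lit 5) (.nd (nat_lit 6) 
(.lf (nat_lit 160281) (.g (nat_lit 646) (.e (nat_lit 57436) (nat_lit 17) (.e (nat_lit 376860) (nat_lit 21) (.e (nat_lit 57665) (nat_lit 152) .nil))) .nil)) 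
(.lf (nat_lit 160345) (.g (nat_lit 531) (.e (nat_lit 57437) (nat_lit 17) (.e (nat_lit 376842) (nat_lit 11) (.e (nat_lit 426166) (nat_lit 7) .nil))) .nil))) (.nd (nat_lit 6) 
(.lf (nat_lit 160313) (.g (nat_lit 2331) (.e (nat_lit 57436) (nat_lit 17) (.e (nat_lit 376869) (nat_lit 23) (.e (nat_lit 98387) (nat_lit 33) (.e (nat_lit 491566) (nat_lit 12) (.e (nat_lit 385045) (nat_lit 21) .nil))))) .nil)) 
(.lf (nat_lit 160377) (.g (nat_lit 2691) (.e (nat_lit 57437) (nat_lit 17) (.e (nat_lit 376842) (nat_lit 11) (.e (nat_lit 426187) (nat_lit 9) (.e (nat_lit 426446) (nat_lit 20) (.e (nat_lit 114710) (nat_lit 21) (.e (nat_lit 57848) (nat_lit 252) .nil)))))) (.g (nat_lit 5) .nil .nil))))))) (.nd (nat_lit 3) (.nd (nat_lit 4) (.nd (nat_lit 5) (.nd (nat_lit 6) 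
(.lf (nat_lit 160261) (.g (nat_lit 2282) (.e (nat_lit 57436) (nat_lit 17) (.e (nat_lit 376859) (nat_lit 21) (.e (nat_lit 57683) (nat_lit 155) (.e (nat_lit 122917) (nat_lit 15) (.e (nat_lit 360451) (nat_lit 0) (.e (nat_lit 7265) (nat_lit 384) .nil)))))) (.g (nat_lit 4) .nil .nil))) 
(.lf (nat_lit 160325) (.g (nat_lit 1950) (.e (nat_lit 57437) (nat_lit 17) (.e (nat_lit 376842) (nat_lit 11) (.e (nat_lit 426009) (nat_lit 0) (.e (nat_lit 7593) (nat_lit 407) (.e (nat_lit 73731) (nat_lit 0) (.e (nat_lit 7261) (nat_lit 384) .nil)))))) (.g (nat_lit 4) .nil .nil)))) (.nd (nat_lit 6) 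
(.lf (nat_lit 160293) (.g (nat_lit 1694) (.e (nat_lit 57436) (nat_lit 17) (.e (nat_lit 376860) (nat_lit 21) (.e (nat_lit 57870) (nat_lit 264) (.e (nat_lit 1220) (nat_lit 90) (.e (nat_lit 81957) (nat_lit 24) .nil))))) .nil)) 
(.lf (nat_lit 160357) (.g (nat_lit 3449) (.e (nat_lit 57437) (nat_lit 17) (.e (nat_lit 376842) (nat_lit 11) (.e (nat_lit 426172) (nat_lit 7) (.e (nat_lit 409648) (nat_lit 18) (.e (nat_lit 303115) (nat_lit 1) (.e (nat_lit 164178) (nat_lit 154) .nil)))))) (.g (nat_lit 6) .nil .nil))))) (.nd (nat_lit 5) (.nd (nat_lit 6) 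
(.lf (nat_lit 160277) (.g (nat_lit 1007) (.e (nat_lit 57436) (nat_lit 17) (.e (nat_lit 376860) (nat_lit 21) (.e (nat_lit 57651) (nat_lit 152) (.e (nat_lit 1093) (nat_lit 81) .nil)))) .nil)) 
(.lf (nat_lit 160341) (.g (nat_lit 815) (.e (nat_lit 57437) (nat_lit 17) (.e (nat_lit 376842) (nat_lit 11) (.e (nat_lit 426051) (nat_lit 0) .nil))) .nil))) (.nd (nat_lit 6) 
(.lf (nat_lit 160309) (.g (nat_lit 609) (.e (nat_lit 57436) (nat_lit 17) (.e (nat_lit 376869) (nat_lit 23) (.e (nat_lit 98314) (nat_lit 9) .nil))) .nil)) 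
(.lf (nat_lit 160373) (.g (nat_lit 2574) (.e (nat_lit 57437) (nat_lit 17) (.e (nat_lit 376842) (nat_lit 11) (.e (nat_lit 426186) (nat_lit 9) (.e (nat_lit 426446) (nat_lit 20) (.e (nat_lit 114710) (nat_lit 21) (.e (nat_lit 57849) (nat_lit 252) .nil)))))) (.g (nat_lit 5) .nil .nil)))))) (.nd (nat_lit 4) (.nd (nat_lit 5) (.nd (nat_lit 6) 
(.lf (nat_lit 160269) (.g (nat_lit 685) (.e (nat_lit 57436) (nat_lit 17) (.e (nat_lit 376859) (nat_lit 21) (.e (nat_lit 57871) (nat_lit 264) (.e (nat_lit 1220) (nat_lit 90) .nil)))) .nil)) 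
(.lf (nat_lit 160333) (.g (nat_lit 650) (.e (nat_lit 57437) (nat_lit 17) (.e (nat_lit 376842) (nat_lit 11) (.e (nat_lit 426014) (nat_lit 0) .nil))) .nil))) (.nd (nat_lit 6) 
(.lf (nat_lit 160301) (.g (nat_lit 1641) (.e (nat_lit 57436) (nat_lit 17) (.e (nat_lit 376865) (nat_lit 22) (.e (nat_lit 90128) (nat_lit 9) (.e (nat_lit 293) (nat_lit 21) (.e (nat_lit 336335) (nat_lit 20) .nil))))) .nil)) 
(.lf (nat_lit 160365) (.g (nat_lit 3112) (.e (nat_lit 57437) (nat_lit 17) (.e (nat_lit 376842) (nat_lit 11) (.e (nat_lit 426181) (nat_lit 8) (.e (nat_lit 417828) (nat_lit 18) (.e (nat_lit 303115) (nat_lit 1) (.e (nat_lit 164178) (nat_lit 154) .nil)))))) (.g (nat_lit 0) .nil .nil))))) (.nd (nat_lit 5) (.nd (nat_lit 6) 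
(.lf (nat_lit 160285) (.g (nat_lit 3786) (.e (nat_lit 57436) (nat_lit 17) (.e (nat_lit 376860) (nat_lit 21) (.e (nat_lit 57680) (nat_lit 155) (.e (nat_lit 122919) (nat_lit 15) (.e (nat_lit 360451) (nat_lit 0) (.e (nat_lit 7265) (nat_lit 384) .nil)))))) (.g (nat_lit 0) .nil .nil))) 
(.lf (nat_lit 160349) (.g (nat_lit 2883) (.e (nat_lit 57437) (nat_lit 17) (.e (nat_lit 376842) (nat_lit 11) (.e (nat_lit 426172) (nat_lit 7) (.e (nat_lit 409643) (nat_lit 18) (.e (nat_lit 303115) (nat_lit 1) (.e (nat_lit 164179) (nat_lit 154) .nil)))))) (.g (nat_lit 5) .nil .nil)))) (.nd (nat_lit 6) 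
(.lf (nat_lit 160317) (.g (nat_lit 700) (.e (nat_lit 57436) (nat_lit 17) (.e (nat_lit 376872) (nat_lit 26) (.e (nat_lit 147496) (nat_lit 11) (.e (nat_lit 24639) (nat_lit 10) .nil)))) .nil)) 
(.lf (nat_lit 160381) (.g (nat_lit 3094) (.e (nat_lit 57437) (nat_lit 17) (.e (nat_lit 376842) (nat_lit 11) (.e (nat_lit 426187) (nat_lit 9) (.e (nat_lit 426446) (nat_lit 20) (.e (nat_lit 114711) (nat_lit 21) (.e (nat_lit 57848) (nat_lit 252) .nil)))))) (.g (nat_lit 6) .nil .nil)))))))) (.nd (nat_lit 2) (.nd (nat_lit 3) (.nd (nat_lit 4) (.nd (nat_lit 5) (.nd (nat_lit 6) 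
(.lf (nat_lit 160259) (.g (nat_lit 427) (.e (nat_lit 57436) (nat_lit 17) (.e (nat_lit 376859) (nat_lit 21) (.e (nat_lit 57683) (nat_lit 155) .nil))) .nil)) 
(.lf (nat_lit 160323) (.g (nat_lit 3218) (.e (nat_lit 57437) (nat_lit 17) (.e (nat_lit 376838) (nat_lit 11) (.e (nat_lit 426172) (nat_lit 7) (.e (nat_lit 409646) (nat_lit 18) (.e (nat_lit 303115) (nat_lit 1) (.e (nat_lit 164179) (nat_lit 154) .nil)))))) (.g (nat_lit 6) .nil .nil)))) (.nd (nat_lit 6) 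
(.lf (nat_lit 160291) (.g (nat_lit 482) (.e (nat_lit 57436) (nat_lit 17) (.e (nat_lit 376860) (nat_lit 21) (.e (nat_lit 57870) (nat_lit 264) .nil))) .nil)) 
(.lf (nat_lit 160355) (.g (nat_lit 3270) (.e (nat_lit 57437) (nat_lit 17) (.e (nat_lit 376842) (nat_lit 11) (.e (nat_lit 426172) (nat_lit 7) (.e (nat_lit 409647) (nat_lit 18) (.e (nat_lit 303115) (nat_lit 1) (.e (nat_lit 164178) (nat_lit 154) .nil)))))) (.g (nat_lit 6) .nil .nil))))) (.nd (nat_lit 5) (.nd (nat_lit 6) 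
(.lf (nat_lit 160275) (.g (nat_lit 2533) (.e (nat_lit 57436) (nat_lit 17) (.e (nat_lit 376859) (nat_lit 21) (.e (nat_lit 57873) (nat_lit 264) (.e (nat_lit 1221) (nat_lit 90) (.e (nat_lit 81959) (nat_lit 24) (.e (nat_lit 123198) (nat_lit 266) .nil)))))) (.g (nat_lit 4) .nil .nil))) 
(.lf (nat_lit 160339) (.g (nat_lit 808) (.e (nat_lit 57437) (nat_lit 17) (.e (nat_lit 376842) (nat_lit 11) (.e (nat_lit 426031) (nat_lit 0) .nil))) .nil))) (.nd (nat_lit 6) 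
(.lf (nat_lit 160307) (.g (nat_lit 2055) (.e (nat_lit 57436) (nat_lit 17) (.e (nat_lit 376865) (nat_lit 22) (.e (nat_lit 90185) (nat_lit 17) (.e (nat_lit 237585) (nat_lit 1) .nil)))) .nil)) 
(.lf (nat_lit 160371) (.g (nat_lit 585) (.e (nat_lit 57437) (nat_lit 17) (.e (nat_lit 376842) (nat_lit 11) (.e (nat_lit 426186) (nat_lit 9) .nil))) .nil))))) (.nd (nat_lit 4) (.nd (nat_lit 5) (.nd (nat_lit 6) 
(.lf (nat_lit 160267) (.g (nat_lit 3503) (.e (nat_lit 57436) (nat_lit 17) (.e (nat_lit 376859) (nat_lit 21) (.e (nat_lit 57684) (nat_lit 155) (.e (nat_lit 122919) (nat_lit 15) (.e (nat_lit 360451) (nat_lit 0) (.e (nat_lit 7265) (nat_lit 384) .nil)))))) (.g (nat_lit 0) .nil .nil))) 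
(.lf (nat_lit 160331) (.g (nat_lit 2104) (.e (nat_lit 57437) (nat_lit 17) (.e (nat_lit 376842) (nat_lit 11) (.e (nat_lit 426012) (nat_lit 0) (.e (nat_lit 7593) (nat_lit 407) (.e (nat_lit 73731) (nat_lit 0) .nil))))) .nil))) (.nd (nat_lit 6) 
(.lf (nat_lit 160299) (.g (nat_lit 1152) (.e (nat_lit 57436) (nat_lit 17) (.e (nat_lit 376860) (nat_lit 21) (.e (nat_lit 65280) (nat_lit 267) (.e (nat_lit 122916) (nat_lit 14) (.e (nat_lit 352318) (nat_lit 24) .nil))))) .nil)) 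
(.lf (nat_lit 160363) (.g (nat_lit 2783) (.e (nat_lit 57437) (nat_lit 17) (.e (nat_lit 376842) (nat_lit 11) (.e (nat_lit 426180) (nat_lit 8) (.e (nat_lit 417829) (nat_lit 18) (.e (nat_lit 303115) (nat_lit 1) (.e (nat_lit 164178) (nat_lit 154) .nil)))))) (.g (nat_lit 5) .nil .nil))))) (.nd (nat_lit 5) (.nd (nat_lit 6) 
(.lf (nat_lit 160283) (.g (nat_lit 642) (.e (nat_lit 57436) (nat_lit 17) (.e (nat_lit 376860) (nat_lit 21) (.e (nat_lit 57670) (nat_lit 152) .nil))) .nil)) 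
(.lf (nat_lit 160347) (.g (nat_lit 612) (.e (nat_lit 57437) (nat_lit 17) (.e (nat_lit 376842) (nat_lit 11) (.e (nat_lit 426172) (nat_lit 7) .nil))) .nil))) (.nd (nat_lit 6) 
(.lf (nat_lit 160315) (.g (nat_lit 2935) (.e (nat_lit 57436) (nat_lit 17) (.e (nat_lit 376869) (nat_lit 23) (.e (nat_lit 98387) (nat_lit 33) (.e (nat_lit 491566) (nat_lit 12) (.e (nat_lit 385051) (nat_lit 21) (.e (nat_lit 4278) (nat_lit 253) .nil)))))) (.g (nat_lit 4) .nil .nil))) 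
(.lf (nat_lit 160379) (.g (nat_lit 3567) (.e (nat_lit 57437) (nat_lit 17) (.e (nat_lit 376842) (nat_lit 11) (.e (nat_lit 426187) (nat_lit 9) (.e (nat_lit 426446) (nat_lit 20) (.e (nat_lit 114711) (nat_lit 21) (.e (nat_lit 57846) (nat_lit 252) .nil)))))) (.g (nat_lit 6) .nil .nil))))))) (.nd (nat_lit 3) (.nd (nat_lit 4) (.nd (nat_lit 5) (.nd (nat_lit 6) 
(.lf (nat_lit 160263) (.g (nat_lit 1925) (.e (nat_lit 57436) (nat_lit 17) (.e (nat_lit 376859) (nat_lit 21) (.e (nat_lit 57683) (nat_lit 155) (.e (nat_lit 122919) (nat_lit 15) (.e (nat_lit 360449) (nat_lit 0) (.e (nat_lit 7265) (nat_lit 384) .nil)))))) (.g (nat_lit 4) .nil .nil))) 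
(.lf (nat_lit 160327) (.g (nat_lit 3574) (.e (nat_lit 57437) (nat_lit 17) (.e (nat_lit 376842) (nat_lit 11) (.e (nat_lit 426011) (nat_lit 0) (.e (nat_lit 7593) (nat_lit 407) (.e (nat_lit 73729) (nat_lit 0) (.e (nat_lit 7261) (nat_lit 384) .nil)))))) (.g (nat_lit 6) .nil .nil)))) (.nd (nat_lit 6) 
(.lf (nat_lit 160295) (.g (nat_lit 3347) (.e (nat_lit 57436) (nat_lit 17) (.e (nat_lit 376860) (nat_lit 21) (.e (nat_lit 57870) (nat_lit 264) (.e (nat_lit 1221) (nat_lit 90) (.e (nat_lit 81959) (nat_lit 24) (.e (nat_lit 123194) (nat_lit 266) .nil)))))) (.g (nat_lit 5) .nil .nil))) 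
(.lf (nat_lit 160359) (.g (nat_lit 3434) (.e (nat_lit 57437) (nat_lit 17) (.e (nat_lit 376842) (nat_lit 11) (.e (nat_lit 426172) (nat_lit 7) (.e (nat_lit 409649) (nat_lit 18) (.e (nat_lit 303115) (nat_lit 1) (.e (nat_lit 164178) (nat_lit 154) .nil)))))) (.g (nat_lit 6) .nil .nil))))) (.nd (nat_lit 5) (.nd (nat_lit 6) 
(.lf (nat_lit 160279) (.g (nat_lit 648) (.e (nat_lit 57436) (nat_lit 17) (.e (nat_lit 376860) (nat_lit 21) (.e (nat_lit 57664) (nat_lit 152) .nil))) .nil)) 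
(.lf (nat_lit 160343) (.g (nat_lit 814) (.e (nat_lit 57437) (nat_lit 17) (.e (nat_lit 376842) (nat_lit 11) (.e (nat_lit 426054) (nat_lit 0) .nil))) .nil))) (.nd (nat_lit 6) 
(.lf (nat_lit 160311) (.g (nat_lit 2549) (.e (nat_lit 57436) (nat_lit 17) (.e (nat_lit 376869) (nat_lit 23) (.e (nat_lit 98387) (nat_lit 33) (.e (nat_lit 491566) (nat_lit 12) (.e (nat_lit 385043) (nat_lit 21) .nil))))) .nil)) 
(.lf (nat_lit 160375) (.g (nat_lit 2988) (.e (nat_lit 57437) (nat_lit 17) (.e (nat_lit 376842) (nat_lit 11) (.e (nat_lit 426186) (nat_lit 9) (.e (nat_lit 426448) (nat_lit 20) (.e (nat_lit 114711) (nat_lit 21) (.e (nat_lit 57848) (nat_lit 252) .nil)))))) (.g (nat_lit 5) .nil .nil)))))) (.nd (nat_lit 4) (.nd (nat_lit 5) (.nd (nat_lit 6) 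
(.lf (nat_lit 160271) (.g (nat_lit 1807) (.e (nat_lit 57436) (nat_lit 17) (.e (nat_lit 376859) (nat_lit 21) (.e (nat_lit 57872) (nat_lit 264) (.e (nat_lit 1221) (nat_lit 90) (.e (nat_lit 81929) (nat_lit 20) .nil))))) .nil)) 
(.lf (nat_lit 160335) (.g (nat_lit 814) (.e (nat_lit 57437) (nat_lit 17) (.e (nat_lit 376842) (nat_lit 11) (.e (nat_lit 426027) (nat_lit 0) .nil))) .nil))) (.nd (nat_lit 6) 
(.lf (nat_lit 160303) (.g (nat_lit 851) (.e (nat_lit 57436) (nat_lit 17) (.e (nat_lit 376865) (nat_lit 22) (.e (nat_lit 90157) (nat_lit 11) .nil))) .nil)) 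
(.lf (nat_lit 160367) (.g (nat_lit 2697) (.e (nat_lit 57437) (nat_lit 17) (.e (nat_lit 376842) (nat_lit 11) (.e (nat_lit 426181) (nat_lit 8) (.e (nat_lit 417829) (nat_lit 18) (.e (nat_lit 303115) (nat_lit 1) (.e (nat_lit 164179) (nat_lit 154) .nil)))))) (.g (nat_lit 5) .nil .nil))))) (.nd (nat_lit 5) (.nd (nat_lit 6) 
(.lf (nat_lit 160287) (.g (nat_lit 642) (.e (nat_lit 57436) (nat_lit 17) (.e (nat_lit 376860) (nat_lit 21) (.e (nat_lit 57691) (nat_lit 156) .nil))) .nil)) 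
(.lf (nat_lit 160351) (.g (nat_lit 2822) (.e (nat_lit 57437) (nat_lit 17) (.e (nat_lit 376842) (nat_lit 11) (.e (nat_lit 426172) (nat_lit 7) (.e (nat_lit 409644) (nat_lit 18) (.e (nat_lit 303115) (nat_lit 1) (.e (nat_lit 164179) (nat_lit 154) .nil)))))) (.g (nat_lit 5) .nil .nil)))) (.nd (nat_lit 6) 
(.lf (nat_lit 160319) (.g (nat_lit 2813) (.e (nat_lit 57437) (nat_lit 17) (.e (nat_lit 376838) (nat_lit 11) (.e (nat_lit 426166) (nat_lit 7) (.e (nat_lit 409645) (nat_lit 18) (.e (nat_lit 303115) (nat_lit 1) (.e (nat_lit 164179) (nat_lit 154) .nil)))))) (.g (nat_lit 6) .nil .nil))) 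
(.lf (nat_lit 160383) (.g (nat_lit 3950) (.e (nat_lit 57437) (nat_lit 17) (.e (nat_lit 376842) (nat_lit 11) (.e (nat_lit 426187) (nat_lit 9) (.e (nat_lit 426448) (nat_lit 20) (.e (nat_lit 114710) (nat_lit 21) (.e (nat_lit 57846) (nat_lit 252) .nil)))))) (.g (nat_lit 0) .nil .nil))))))))))

noncomputable def tv2147 : DT := (.nd (nat_lit 0) (.nd (nat_lit 1) (.nd (nat_lit 2) (.nd (nat_lit 3) (.nd (nat_lit 4) (.nd (nat_lit 5) 
(.lf (nat_lit 160384) (.g (nat_lit 3701) (.e (nat_lit 57437) (nat_lit 17) (.e (nat_lit 376842) (nat_lit 11) (.e (nat_lit 426187) (nat_lit 9) (.e (nat_lit 426448) (nat_lit 20) (.e (nat_lit 114710) (nat_lit 21) (.e (nat_lit 57847) (nat_lit 252) .nil)))))) (.g (nat_lit 6) .nil .nil))) 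
(.lf (nat_lit 160416) (.g (nat_lit 3230) (.e (nat_lit 57437) (nat_lit 17) (.e (nat_lit 376842) (nat_lit 11) (.e (nat_lit 426189) (nat_lit 9) (.e (nat_lit 426448) (nat_lit 20) (.e (nat_lit 114711) (nat_lit 21) (.e (nat_lit 57848) (nat_lit 252) .nil)))))) (.g (nat_lit 5) .nil .nil)))) (.nd (nat_lit 5) 
(.lf (nat_lit 160400) (.g (nat_lit 3027) (.e (nat_lit 57437) (nat_lit 17) (.e (nat_lit 376842) (nat_lit 11) (.e (nat_lit 426188) (nat_lit 9) (.e (nat_lit 426446) (nat_lit 20) (.e (nat_lit 114710) (nat_lit 21) (.e (nat_lit 57849) (nat_lit 252) .nil)))))) (.g (nat_lit 5) .nil .nil))) 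
(.lf (nat_lit 160432) (.g (nat_lit 2497) (.e (nat_lit 57437) (nat_lit 17) (.e (nat_lit 376842) (nat_lit 11) (.e (nat_lit 426197) (nat_lit 9) (.e (nat_lit 426446) (nat_lit 20) (.e (nat_lit 114710) (nat_lit 21) (.e (nat_lit 57849) (nat_lit 252) .nil)))))) (.g (nat_lit 5) .nil .nil))))) (.nd (nat_lit 4) (.nd (nat_lit 5) 
(.lf (nat_lit 160392) (.g (nat_lit 1513) (.e (nat_lit 57437) (nat_lit 17) (.e (nat_lit 376842) (nat_lit 11) (.e (nat_lit 426188) (nat_lit 9) (.e (nat_lit 426354) (nat_lit 15) .nil)))) .nil)) 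
(.lf (nat_lit 160424) (.g (nat_lit 3146) (.e (nat_lit 57437) (nat_lit 17) (.e (nat_lit 376842) (nat_lit 11) (.e (nat_lit 426190) (nat_lit 9) (.e (nat_lit 426448) (nat_lit 20) (.e (nat_lit 114711) (nat_lit 21) (.e (nat_lit 57844) (nat_lit 252) .nil)))))) (.g (nat_lit 5) .nil .nil)))) (.nd (nat_lit 5) 
(.lf (nat_lit 160408) (.g (nat_lit 1863) (.e (nat_lit 57437) (nat_lit 17) (.e (nat_lit 376842) (nat_lit 11) (.e (nat_lit 426188) (nat_lit 9) (.e (nat_lit 433920) (nat_lit 20) .nil)))) .nil)) 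
(.lf (nat_lit 160440) (.g (nat_lit 3181) (.e (nat_lit 57437) (nat_lit 17) (.e (nat_lit 376842) (nat_lit 11) (.e (nat_lit 426198) (nat_lit 9) (.e (nat_lit 426446) (nat_lit 20) (.e (nat_lit 114710) (nat_lit 21) (.e (nat_lit 57846) (nat_lit 252) .nil)))))) (.g (nat_lit 5) .nil .nil)))))) (.nd (nat_lit 3) (.nd (nat_lit 4) (.nd (nat_lit 5) 
(.lf (nat_lit 160388) (.g (nat_lit 4017) (.e (nat_lit 57437) (nat_lit 17) (.e (nat_lit 376842) (nat_lit 11) (.e (nat_lit 426187) (nat_lit 9) (.e (nat_lit 426448) (nat_lit 20) (.e (nat_lit 114711) (nat_lit 21) (.e (nat_lit 57847) (nat_lit 252) .nil)))))) (.g (nat_lit 6) .nil .nil))) 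
(.lf (nat_lit 160420) (.g (nat_lit 2837) (.e (nat_lit 57437) (nat_lit 17) (.e (nat_lit 376842) (nat_lit 11) (.e (nat_lit 426190) (nat_lit 9) (.e (nat_lit 426446) (nat_lit 20) (.e (nat_lit 114711) (nat_lit 21) (.e (nat_lit 57844) (nat_lit 252) .nil)))))) (.g (nat_lit 5) .nil .nil)))) (.nd (nat_lit 5) 
(.lf (nat_lit 160404) (.g (nat_lit 2922) (.e (nat_lit 57437) (nat_lit 17) (.e (nat_lit 376842) (nat_lit 11) (.e (nat_lit 426188) (nat_lit 9) (.e (nat_lit 426448) (nat_lit 20) (.e (nat_lit 114710) (nat_lit 21) (.e (nat_lit 57844) (nat_lit 252) .nil)))))) (.g (nat_lit 4) .nil .nil))) 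
(.lf (nat_lit 160436) (.g (nat_lit 1322) (.e (nat_lit 57437) (nat_lit 17) (.e (nat_lit 376842) (nat_lit 11) (.e (nat_lit 426198) (nat_lit 9) (.e (nat_lit 426354) (nat_lit 15) .nil)))) .nil)))) (.nd (nat_lit 4) (.nd (nat_lit 5) 
(.lf (nat_lit 160396) (.g (nat_lit 1517) (.e (nat_lit 57437) (nat_lit 17) (.e (nat_lit 376842) (nat_lit 11) (.e (nat_lit 426188) (nat_lit 9) (.e (nat_lit 426444) (nat_lit 19) .nil)))) .nil)) 
(.lf (nat_lit 160428) (.g (nat_lit 2605) (.e (nat_lit 57437) (nat_lit 17) (.e (nat_lit 376842) (nat_lit 11) (.e (nat_lit 426196) (nat_lit 9) (.e (nat_lit 426448) (nat_lit 20) (.e (nat_lit 114710) (nat_lit 21) (.e (nat_lit 57844) (nat_lit 252) .nil)))))) (.g (nat_lit 4) .nil .nil)))) (.nd (nat_lit 5) 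
(.lf (nat_lit 160412) (.g (nat_lit 2649) (.e (nat_lit 57437) (nat_lit 17) (.e (nat_lit 376842) (nat_lit 11) (.e (nat_lit 426189) (nat_lit 9) (.e (nat_lit 426446) (nat_lit 20) (.e (nat_lit 114711) (nat_lit 21) (.e (nat_lit 57848) (nat_lit 252) .nil)))))) (.g (nat_lit 5) .nil .nil))) 
(.lf (nat_lit 160444) (.g (nat_lit 2877) (.e (nat_lit 57437) (nat_lit 17) (.e (nat_lit 376842) (nat_lit 11) (.e (nat_lit 426198) (nat_lit 9) (.e (nat_lit 426446) (nat_lit 20) (.e (nat_lit 114711) (nat_lit 21) (.e (nat_lit 57844) (nat_lit 252) .nil)))))) (.g (nat_lit 4) .nil .nil))))))) (.nd (nat_lit 2) (.nd (nat_lit 3) (.nd (nat_lit 4) (.nd (nat_lit 5) 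
(.lf (nat_lit 160386) (.g (nat_lit 3714) (.e (nat_lit 57437) (nat_lit 17) (.e (nat_lit 376842) (nat_lit 11) (.e (nat_lit 426187) (nat_lit 9) (.e (nat_lit 426448) (nat_lit 20) (.e (nat_lit 114710) (nat_lit 21) (.e (nat_lit 57849) (nat_lit 252) .nil)))))) (.g (nat_lit 6) .nil .nil))) 
(.lf (nat_lit 160418) (.g (nat_lit 2729) (.e (nat_lit 57437) (nat_lit 17) (.e (nat_lit 376842) (nat_lit 11) (.e (nat_lit 426190) (nat_lit 9) (.e (nat_lit 426446) (nat_lit 20) (.e (nat_lit 114710) (nat_lit 21) (.e (nat_lit 57848) (nat_lit 252) .nil)))))) (.g (nat_lit 6) .nil .nil)))) (.nd (nat_lit 5) 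
(.lf (nat_lit 160402) (.g (nat_lit 3834) (.e (nat_lit 57437) (nat_lit 17) (.e (nat_lit 376842) (nat_lit 11) (.e (nat_lit 426188) (nat_lit 9) (.e (nat_lit 426446) (nat_lit 20) (.e (nat_lit 114711) (nat_lit 21) (.e (nat_lit 57846) (nat_lit 252) .nil)))))) (.g (nat_lit 0) .nil .nil))) 
(.lf (nat_lit 160434) (.g (nat_lit 2176) (.e (nat_lit 57437) (nat_lit 17) (.e (nat_lit 376842) (nat_lit 11) (.e (nat_lit 426197) (nat_lit 9) (.e (nat_lit 426448) (nat_lit 20) (.e (nat_lit 114710) (nat_lit 21) (.e (nat_lit 57844) (nat_lit 252) .nil)))))) (.g (nat_lit 4) .nil .nil))))) (.nd (nat_lit 4) (.nd (nat_lit 5) 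
(.lf (nat_lit 160394) (.g (nat_lit 1672) (.e (nat_lit 57437) (nat_lit 17) (.e (nat_lit 376842) (nat_lit 11) (.e (nat_lit 426188) (nat_lit 9) (.e (nat_lit 426440) (nat_lit 19) .nil)))) .nil)) 
(.lf (nat_lit 160426) (.g (nat_lit 806) (.e (nat_lit 57437) (nat_lit 17) (.e (nat_lit 376842) (nat_lit 11) (.e (nat_lit 426196) (nat_lit 9) .nil))) .nil))) (.nd (nat_lit 5) 
(.lf (nat_lit 160410) (.g (nat_lit 2199) (.e (nat_lit 57437) (nat_lit 17) (.e (nat_lit 376842) (nat_lit 11) (.e (nat_lit 426189) (nat_lit 9) (.e (nat_lit 426446) (nat_lit 20) (.e (nat_lit 114710) (nat_lit 21) (.e (nat_lit 57848) (nat_lit 252) .nil)))))) (.g (nat_lit 4) .nil .nil))) 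
(.lf (nat_lit 160442) (.g (nat_lit 2759) (.e (nat_lit 57437) (nat_lit 17) (.e (nat_lit 376842) (nat_lit 11) (.e (nat_lit 426198) (nat_lit 9) (.e (nat_lit 426446) (nat_lit 20) (.e (nat_lit 114710) (nat_lit 21) (.e (nat_lit 57848) (nat_lit 252) .nil)))))) (.g (nat_lit 5) .nil .nil)))))) (.nd (nat_lit 3) (.nd (nat_lit 4) (.nd (nat_lit 5) 
(.lf (nat_lit 160390) (.g (nat_lit 3783) (.e (nat_lit 57437) (nat_lit 17) (.e (nat_lit 376842) (nat_lit 11) (.e (nat_lit 426187) (nat_lit 9) (.e (nat_lit 426448) (nat_lit 20) (.e (nat_lit 114711) (nat_lit 21) (.e (nat_lit 57849) (nat_lit 252) .nil)))))) (.g (nat_lit 6) .nil .nil))) 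
(.lf (nat_lit 160422) (.g (nat_lit 3155) (.e (nat_lit 57437) (nat_lit 17) (.e (nat_lit 376842) (nat_lit 11) (.e (nat_lit 426190) (nat_lit 9) (.e (nat_lit 426446) (nat_lit 20) (.e (nat_lit 114711) (nat_lit 21) (.e (nat_lit 57849) (nat_lit 252) .nil)))))) (.g (nat_lit 6) .nil .nil)))) (.nd (nat_lit 5) 
(.lf (nat_lit 160406) (.g (nat_lit 3585) (.e (nat_lit 57437) (nat_lit 17) (.e (nat_lit 376842) (nat_lit 11) (.e (nat_lit 426188) (nat_lit 9) (.e (nat_lit 426448) (nat_lit 20) (.e (nat_lit 114711) (nat_lit 21) (.e (nat_lit 57848) (nat_lit 252) .nil)))))) (.g (nat_lit 6) .nil .nil))) 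
(.lf (nat_lit 160438) (.g (nat_lit 1211) (.e (nat_lit 57437) (nat_lit 17) (.e (nat_lit 376842) (nat_lit 11) (.e (nat_lit 426198) (nat_lit 9) (.e (nat_lit 426392) (nat_lit 15) .nil)))) .nil)))) (.nd (nat_lit 4) (.nd (nat_lit 5) 
(.lf (nat_lit 160398) (.g (nat_lit 3489) (.e (nat_lit 57437) (nat_lit 17) (.e (nat_lit 376842) (nat_lit 11) (.e (nat_lit 426188) (nat_lit 9) (.e (nat_lit 426446) (nat_lit 20) (.e (nat_lit 114710) (nat_lit 21) (.e (nat_lit 57846) (nat_lit 252) .nil)))))) (.g (nat_lit 6) .nil .nil))) 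
(.lf (nat_lit 160430) (.g (nat_lit 3138) (.e (nat_lit 57437) (nat_lit 17) (.e (nat_lit 376842) (nat_lit 11) (.e (nat_lit 426196) (nat_lit 9) (.e (nat_lit 426448) (nat_lit 20) (.e (nat_lit 114711) (nat_lit 21) (.e (nat_lit 57848) (nat_lit 252) .nil)))))) (.g (nat_lit 5) .nil .nil)))) (.nd (nat_lit 5) 
(.lf (nat_lit 160414) (.g (nat_lit 3385) (.e (nat_lit 57437) (nat_lit 17) (.e (nat_lit 376842) (nat_lit 11) (.e (nat_lit 426189) (nat_lit 9) (.e (nat_lit 426448) (nat_lit 20) (.e (nat_lit 114710) (nat_lit 21) (.e (nat_lit 57848) (nat_lit 252) .nil)))))) (.g (nat_lit 6) .nil .nil))) 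
(.lf (nat_lit 160446) (.g (nat_lit 3325) (.e (nat_lit 57437) (nat_lit 17) (.e (nat_lit 376842) (nat_lit 11) (.e (nat_lit 426198) (nat_lit 9) (.e (nat_lit 426446) (nat_lit 20) (.e (nat_lit 114711) (nat_lit 21) (.e (nat_lit 57849) (nat_lit 252) .nil)))))) (.g (nat_lit 6) .nil .nil)))))))) (.nd (nat_lit 1) (.nd (nat_lit 2) (.nd (nat_lit 3) (.nd (nat_lit 4) (.nd (nat_lit 5) 
(.lf (nat_lit 160385) (.g (nat_lit 3373) (.e (nat_lit 57437) (nat_lit 17) (.e (nat_lit 376842) (nat_lit 11) (.e (nat_lit 426187) (nat_lit 9) (.e (nat_lit 426448) (nat_lit 20) (.e (nat_lit 114710) (nat_lit 21) (.e (nat_lit 57848) (nat_lit 252) .nil)))))) (.g (nat_lit 6) .nil .nil))) 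
(.lf (nat_lit 160417) (.g (nat_lit 2156) (.e (nat_lit 57437) (nat_lit 17) (.e (nat_lit 376842) (nat_lit 11) (.e (nat_lit 426190) (nat_lit 9) (.e (nat_lit 426446) (nat_lit 20) (.e (nat_lit 114710) (nat_lit 21) (.e (nat_lit 57844) (nat_lit 252) .nil)))))) (.g (nat_lit 4) .nil .nil)))) (.nd (nat_lit 5) 
(.lf (nat_lit 160401) (.g (nat_lit 3030) (.e (nat_lit 57437) (nat_lit 17) (.e (nat_lit 376842) (nat_lit 11) (.e (nat_lit 426188) (nat_lit 9) (.e (nat_lit 426446) (nat_lit 20) (.e (nat_lit 114711) (nat_lit 21) (.e (nat_lit 57844) (nat_lit 252) .nil)))))) (.g (nat_lit 5) .nil .nil))) 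
(.lf (nat_lit 160433) (.g (nat_lit 2643) (.e (nat_lit 57437) (nat_lit 17) (.e (nat_lit 376842) (nat_lit 11) (.e (nat_lit 426197) (nat_lit 9) (.e (nat_lit 426446) (nat_lit 20) (.e (nat_lit 114711) (nat_lit 21) (.e (nat_lit 57848) (nat_lit 252) .nil)))))) (.g (nat_lit 6) .nil .nil))))) (.nd (nat_lit 4) (.nd (nat_lit 5) 
(.lf (nat_lit 160393) (.g (nat_lit 1690) (.e (nat_lit 57437) (nat_lit 17) (.e (nat_lit 376842) (nat_lit 11) (.e (nat_lit 426188) (nat_lit 9) (.e (nat_lit 426359) (nat_lit 15) .nil)))) .nil)) 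
(.lf (nat_lit 160425) (.g (nat_lit 3192) (.e (nat_lit 57437) (nat_lit 17) (.e (nat_lit 376842) (nat_lit 11) (.e (nat_lit 426190) (nat_lit 9) (.e (nat_lit 426448) (nat_lit 20) (.e (nat_lit 114711) (nat_lit 21) (.e (nat_lit 57848) (nat_lit 252) .nil)))))) (.g (nat_lit 6) .nil .nil)))) (.nd (nat_lit 5) 
(.lf (nat_lit 160409) (.g (nat_lit 1793) (.e (nat_lit 57437) (nat_lit 17) (.e (nat_lit 376842) (nat_lit 11) (.e (nat_lit 426188) (nat_lit 9) (.e (nat_lit 426469) (nat_lit 24) .nil)))) .nil)) 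
(.lf (nat_lit 160441) (.g (nat_lit 3454) (.e (nat_lit 57437) (nat_lit 17) (.e (nat_lit 376842) (nat_lit 11) (.e (nat_lit 426198) (nat_lit 9) (.e (nat_lit 426446) (nat_lit 20) (.e (nat_lit 114710) (nat_lit 21) (.e (nat_lit 57847) (nat_lit 252) .nil)))))) (.g (nat_lit 6) .nil .nil)))))) (.nd (nat_lit 3) (.nd (nat_lit 4) (.nd (nat_lit 5) 
(.lf (nat_lit 160389) (.g (nat_lit 3292) (.e (nat_lit 57437) (nat_lit 17) (.e (nat_lit 376842) (nat_lit 11) (.e (nat_lit 426187) (nat_lit 9) (.e (nat_lit 426448) (nat_lit 20) (.e (nat_lit 114711) (nat_lit 21) (.e (nat_lit 57848) (nat_lit 252) .nil)))))) (.g (nat_lit 5) .nil .nil))) 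
(.lf (nat_lit 160421) (.g (nat_lit 3600) (.e (nat_lit 57437) (nat_lit 17) (.e (nat_lit 376842) (nat_lit 11) (.e (nat_lit 426190) (nat_lit 9) (.e (nat_lit 426446) (nat_lit 20) (.e (nat_lit 114711) (nat_lit 21) (.e (nat_lit 57846) (nat_lit 252) .nil)))))) (.g (nat_lit 0) .nil .nil)))) (.nd (nat_lit 5) 
(.lf (nat_lit 160405) (.g (nat_lit 3489) (.e (nat_lit 57437) (nat_lit 17) (.e (nat_lit 376842) (nat_lit 11) (.e (nat_lit 426188) (nat_lit 9) (.e (nat_lit 426448) (nat_lit 20) (.e (nat_lit 114711) (nat_lit 21) (.e (nat_lit 57844) (nat_lit 252) .nil)))))) (.g (nat_lit 5) .nil .nil))) 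
(.lf (nat_lit 160437) (.g (nat_lit 2005) (.e (nat_lit 57437) (nat_lit 17) (.e (nat_lit 376842) (nat_lit 11) (.e (nat_lit 426198) (nat_lit 9) (.e (nat_lit 426354) (nat_lit 15) (.e (nat_lit 2198) (nat_lit 144) .nil))))) .nil)))) (.nd (nat_lit 4) (.nd (nat_lit 5) 
(.lf (nat_lit 160397) (.g (nat_lit 2805) (.e (nat_lit 57437) (nat_lit 17) (.e (nat_lit 376842) (nat_lit 11) (.e (nat_lit 426188) (nat_lit 9) (.e (nat_lit 426444) (nat_lit 19) (.e (nat_lit 106520) (nat_lit 9) (.e (nat_lit 1170) (nat_lit 87) (.e (nat_lit 57847) (nat_lit 252) .nil))))))) (.g (nat_lit 4) .nil .nil))) 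
(.lf (nat_lit 160429) (.g (nat_lit 2996) (.e (nat_lit 57437) (nat_lit 17) (.e (nat_lit 376842) (nat_lit 11) (.e (nat_lit 426196) (nat_lit 9) (.e (nat_lit 426448) (nat_lit 20) (.e (nat_lit 114711) (nat_lit 21) (.e (nat_lit 57844) (nat_lit 252) .nil)))))) (.g (nat_lit 4) .nil .nil)))) (.nd (nat_lit 5) 
(.lf (nat_lit 160413) (.g (nat_lit 2617) (.e (nat_lit 57437) (nat_lit 17) (.e (nat_lit 376842) (nat_lit 11) (.e (nat_lit 426189) (nat_lit 9) (.e (nat_lit 426448) (nat_lit 20) (.e (nat_lit 114710) (nat_lit 21) (.e (nat_lit 57844) (nat_lit 252) .nil)))))) (.g (nat_lit 4) .nil .nil))) 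
(.lf (nat_lit 160445) (.g (nat_lit 3202) (.e (nat_lit 57437) (nat_lit 17) (.e (nat_lit 376842) (nat_lit 11) (.e (nat_lit 426198) (nat_lit 9) (.e (nat_lit 426446) (nat_lit 20) (.e (nat_lit 114711) (nat_lit 21) (.e (nat_lit 57848) (nat_lit 252) .nil)))))) (.g (nat_lit 6) .nil .nil))))))) (.nd (nat_lit 2) (.nd (nat_lit 3) (.nd (nat_lit 4) (.nd (nat_lit 5) 
(.lf (nat_lit 160387) (.g (nat_lit 3150) (.e (nat_lit 57437) (nat_lit 17) (.e (nat_lit 376842) (nat_lit 11) (.e (nat_lit 426187) (nat_lit 9) (.e (nat_lit 426448) (nat_lit 20) (.e (nat_lit 114711) (nat_lit 21) (.e (nat_lit 57844) (nat_lit 252) .nil)))))) (.g (nat_lit 5) .nil .nil))) 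
(.lf (nat_lit 160419) (.g (nat_lit 2950) (.e (nat_lit 57437) (nat_lit 17) (.e (nat_lit 376842) (nat_lit 11) (.e (nat_lit 426190) (nat_lit 9) (.e (nat_lit 426446) (nat_lit 20) (.e (nat_lit 114710) (nat_lit 21) (.e (nat_lit 57849) (nat_lit 252) .nil)))))) (.g (nat_lit 6) .nil .nil)))) (.nd (nat_lit 5) 
(.lf (nat_lit 160403) (.g (nat_lit 3407) (.e (nat_lit 57437) (nat_lit 17) (.e (nat_lit 376842) (nat_lit 11) (.e (nat_lit 426188) (nat_lit 9) (.e (nat_lit 426446) (nat_lit 20) (.e (nat_lit 114711) (nat_lit 21) (.e (nat_lit 57849) (nat_lit 252) .nil)))))) (.g (nat_lit 6) .nil .nil))) 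
(.lf (nat_lit 160435) (.g (nat_lit 2948) (.e (nat_lit 57437) (nat_lit 17) (.e (nat_lit 376842) (nat_lit 11) (.e (nat_lit 426197) (nat_lit 9) (.e (nat_lit 426448) (nat_lit 20) (.e (nat_lit 114711) (nat_lit 21) (.e (nat_lit 57848) (nat_lit 252) .nil)))))) (.g (nat_lit 6) .nil .nil))))) (.nd (nat_lit 4) (.nd (nat_lit 5) 
(.lf (nat_lit 160395) (.g (nat_lit 1709) (.e (nat_lit 57437) (nat_lit 17) (.e (nat_lit 376842) (nat_lit 11) (.e (nat_lit 426188) (nat_lit 9) (.e (nat_lit 426442) (nat_lit 19) .nil)))) .nil)) 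
(.lf (nat_lit 160427) (.g (nat_lit 2129) (.e (nat_lit 57437) (nat_lit 17) (.e (nat_lit 376842) (nat_lit 11) (.e (nat_lit 426196) (nat_lit 9) (.e (nat_lit 426446) (nat_lit 20) (.e (nat_lit 114711) (nat_lit 21) (.e (nat_lit 57848) (nat_lit 252) .nil)))))) (.g (nat_lit 4) .nil .nil)))) (.nd (nat_lit 5) 
(.lf (nat_lit 160411) (.g (nat_lit 2456) (.e (nat_lit 57437) (nat_lit 17) (.e (nat_lit 376842) (nat_lit 11) (.e (nat_lit 426189) (nat_lit 9) (.e (nat_lit 426446) (nat_lit 20) (.e (nat_lit 114710) (nat_lit 21) (.e (nat_lit 57849) (nat_lit 252) .nil)))))) (.g (nat_lit 4) .nil .nil))) 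
(.lf (nat_lit 160443) (.g (nat_lit 3015) (.e (nat_lit 57437) (nat_lit 17) (.e (nat_lit 376842) (nat_lit 11) (.e (nat_lit 426198) (nat_lit 9) (.e (nat_lit 426446) (nat_lit 20) (.e (nat_lit 114710) (nat_lit 21) (.e (nat_lit 57849) (nat_lit 252) .nil)))))) (.g (nat_lit 5) .nil .nil)))))) (.nd (nat_lit 3) (.nd (nat_lit 4) (.nd (nat_lit 5) 
(.lf (nat_lit 160391) (.g (nat_lit 1722) (.e (nat_lit 57437) (nat_lit 17) (.e (nat_lit 376842) (nat_lit 11) (.e (nat_lit 426188) (nat_lit 9) (.e (nat_lit 426350) (nat_lit 15) .nil)))) .nil)) 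
(.lf (nat_lit 160423) (.g (nat_lit 2626) (.e (nat_lit 57437) (nat_lit 17) (.e (nat_lit 376842) (nat_lit 11) (.e (nat_lit 426190) (nat_lit 9) (.e (nat_lit 426448) (nat_lit 20) (.e (nat_lit 114710) (nat_lit 21) (.e (nat_lit 57844) (nat_lit 252) .nil)))))) (.g (nat_lit 5) .nil .nil)))) (.nd (nat_lit 5) 
(.lf (nat_lit 160407) (.g (nat_lit 2294) (.e (nat_lit 57437) (nat_lit 17) (.e (nat_lit 376842) (nat_lit 11) (.e (nat_lit 426188) (nat_lit 9) (.e (nat_lit 426449) (nat_lit 20) (.e (nat_lit 114710) (nat_lit 21) (.e (nat_lit 57846) (nat_lit 252) .nil)))))) (.g (nat_lit 4) .nil .nil))) 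
(.lf (nat_lit 160439) (.g (nat_lit 2036) (.e (nat_lit 57437) (nat_lit 17) (.e (nat_lit 376842) (nat_lit 11) (.e (nat_lit 426198) (nat_lit 9) (.e (nat_lit 426444) (nat_lit 19) (.e (nat_lit 106520) (nat_lit 9) .nil))))) .nil)))) (.nd (nat_lit 4) (.nd (nat_lit 5) 
(.lf (nat_lit 160399) (.g (nat_lit 2802) (.e (nat_lit 57437) (nat_lit 17) (.e (nat_lit 376842) (nat_lit 11) (.e (nat_lit 426188) (nat_lit 9) (.e (nat_lit 426446) (nat_lit 20) (.e (nat_lit 114710) (nat_lit 21) (.e (nat_lit 57848) (nat_lit 252) .nil)))))) (.g (nat_lit 5) .nil .nil))) 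
(.lf (nat_lit 160431) (.g (nat_lit 2223) (.e (nat_lit 57437) (nat_lit 17) (.e (nat_lit 376842) (nat_lit 11) (.e (nat_lit 426197) (nat_lit 9) (.e (nat_lit 426446) (nat_lit 20) (.e (nat_lit 114710) (nat_lit 21) (.e (nat_lit 57848) (nat_lit 252) .nil)))))) (.g (nat_lit 5) .nil .nil)))) (.nd (nat_lit 5) 
(.lf (nat_lit 160415) (.g (nat_lit 3992) (.e (nat_lit 57437) (nat_lit 17) (.e (nat_lit 376842) (nat_lit 11) (.e (nat_lit 426189) (nat_lit 9) (.e (nat_lit 426448) (nat_lit 20) (.e (nat_lit 114711) (nat_lit 21) (.e (nat_lit 57847) (nat_lit 252) .nil)))))) (.g (nat_lit 6) .nil .nil))) 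
(.lf (nat_lit 160447) (.g (nat_lit 2405) (.e (nat_lit 57437) (nat_lit 17) (.e (nat_lit 376842) (nat_lit 11) (.e (nat_lit 426198) (nat_lit 9) (.e (nat_lit 426448) (nat_lit 20) (.e (nat_lit 114710) (nat_lit 21) (.e (nat_lit 57844) (nat_lit 252) .nil)))))) (.g (nat_lit 4) .nil .nil)))))))))


end

end Pool.Agent.Lib.MP_5854e1_co.Cz
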