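import Pool.Agent.Lib.MP_5854e1_co.DtD

/-!
# Windows and cells of the rings
-/

set_option autoImplicit false
set_option maxRecDepth 100000
set_option deprecated.oldSectionVars true

namespace Pool.Agent.Lib.MP_5854e1_co.Cz

open Pool.Agent.Lib.MP_5854e1_co

noncomputable section

noncomputable def tv2148 : DT := (.nd (nat_lit 0) (.nd (nat_lit 1) (.nd (nat_lit 2) (.nd (nat_lit 3) (.nd (nat_lit 4) (.nd (nat_lit 5) 
(.lf (nat_lit 160448) (.g (nat_lit 3150) (.e (nat_lit 57437) (nat_lit 17) (.e (nat_lit 376842) (nat_lit 11) (.e (nat_lit 426198) (nat_lit 9) (.e (nat_lit 426448) (nat_lit 20) (.e (nat_lit 114710) (nat_lit 21) (.e (nat_lit 57848) (nat_lit 252) .nil)))))) (.g (nat_lit 6) .nil .nil))) 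
(.lf (nat_lit 160480) (.g (nat_lit 2721) (.e (nat_lit 57437) (nat_lit 17) (.e (nat_lit 376842) (nat_lit 11) (.e (nat_lit 426200) (nat_lit 9) (.e (nat_lit 426449) (nat_lit 20) (.e (nat_lit 114711) (nat_lit 21) (.e (nat_lit 57847) (nat_lit 252) .nil)))))) (.g (nat_lit 5) .nil .nil)))) (.nd (nat_lit 5) 
(.lf (nat_lit 160464) (.g (nat_lit 3981) (.e (nat_lit 57437) (nat_lit 17) (.e (nat_lit 376842) (nat_lit 11) (.e (nat_lit 426199) (nat_lit 9) (.e (nat_lit 426448) (nat_lit 20) (.e (nat_lit 114711) (nat_lit 21) (.e (nat_lit 57847) (nat_lit 252) .nil)))))) (.g (nat_lit 6) .nil .nil))) 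
(.lf (nat_lit 160496) (.g (nat_lit 2278) (.e (nat_lit 57437) (nat_lit 17) (.e (nat_lit 376842) (nat_lit 11) (.e (nat_lit 426306) (nat_lit 12) (.e (nat_lit 475201) (nat_lit 40) (.e (nat_lit 704656) (nat_lit 9) (.e (nat_lit 1170) (nat_lit 87) (.e (nat_lit 57847) (nat_lit 252) .nil))))))) (.g (nat_lit 4) .nil .nil))))) (.nd (nat_lit 4) (.nd (nat_lit 5) 
(.lf (nat_lit 160456) (.g (nat_lit 2359) (.e (nat_lit 57437) (nat_lit 17) (.e (nat_lit 376842) (nat_lit 11) (.e (nat_lit 426199) (nat_lit 9) (.e (nat_lit 426446) (nat_lit 20) (.e (nat_lit 114711) (nat_lit 21) (.e (nat_lit 57847) (nat_lit 252) .nil)))))) (.g (nat_lit 4) .nil .nil))) 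
(.lf (nat_lit 160488) (.g (nat_lit 1679) (.e (nat_lit 57437) (nat_lit 17) (.e (nat_lit 376842) (nat_lit 11) (.e (nat_lit 426306) (nat_lit 12) (.e (nat_lit 475195) (nat_lit 40) .nil)))) .nil))) (.nd (nat_lit 5) 
(.lf (nat_lit 160472) (.g (nat_lit 3552) (.e (nat_lit 57437) (nat_lit 17) (.e (nat_lit 376842) (nat_lit 11) (.e (nat_lit 426200) (nat_lit 9) (.e (nat_lit 426446) (nat_lit 20) (.e (nat_lit 114711) (nat_lit 21) (.e (nat_lit 57846) (nat_lit 252) .nil)))))) (.g (nat_lit 6) .nil .nil))) 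
(.lf (nat_lit 160504) (.g (nat_lit 2464) (.e (nat_lit 57437) (nat_lit 17) (.e (nat_lit 376842) (nat_lit 11) (.e (nat_lit 426306) (nat_lit 12) (.e (nat_lit 475212) (nat_lit 42) (.e (nat_lit 720933) (nat_lit 21) (.e (nat_lit 57844) (nat_lit 252) .nil)))))) (.g (nat_lit 4) .nil .nil)))))) (.nd (nat_lit 3) (.nd (nat_lit 4) (.nd (nat_lit 5) 
(.lf (nat_lit 160452) (.g (nat_lit 2453) (.e (nat_lit 57437) (nat_lit 17) (.e (nat_lit 376842) (nat_lit 11) (.e (nat_lit 426198) (nat_lit 9) (.e (nat_lit 426449) (nat_lit 20) (.e (nat_lit 114711) (nat_lit 21) (.e (nat_lit 57847) (nat_lit 252) .nil)))))) (.g (nat_lit 4) .nil .nil))) 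
(.lf (nat_lit 160484) (.g (nat_lit 1780) (.e (nat_lit 57437) (nat_lit 17) (.e (nat_lit 376842) (nat_lit 11) (.e (nat_lit 426305) (nat_lit 12) (.e (nat_lit 475197) (nat_lit 40) .nil)))) .nil))) (.nd (nat_lit 5) 
(.lf (nat_lit 160468) (.g (nat_lit 3314) (.e (nat_lit 57437) (nat_lit 17) (.e (nat_lit 376842) (nat_lit 11) (.e (nat_lit 426200) (nat_lit 9) (.e (nat_lit 426446) (nat_lit 20) (.e (nat_lit 114710) (nat_lit 21) (.e (nat_lit 57846) (nat_lit 252) .nil)))))) (.g (nat_lit 6) .nil .nil))) 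
(.lf (nat_lit 160500) (.g (nat_lit 1761) (.e (nat_lit 57437) (nat_lit 17) (.e (nat_lit 376842) (nat_lit 11) (.e (nat_lit 426306) (nat_lit 12) (.e (nat_lit 475204) (nat_lit 40) .nil)))) .nil)))) (.nd (nat_lit 4) (.nd (nat_lit 5) 
(.lf (nat_lit 160460) (.g (nat_lit 3472) (.e (nat_lit 57437) (nat_lit 17) (.e (nat_lit 376842) (nat_lit 11) (.e (nat_lit 426199) (nat_lit 9) (.e (nat_lit 426448) (nat_lit 20) (.e (nat_lit 114710) (nat_lit 21) (.e (nat_lit 57848) (nat_lit 252) .nil)))))) (.g (nat_lit 6) .nil .nil))) 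
(.lf (nat_lit 160492) (.g (nat_lit 2270) (.e (nat_lit 57437) (nat_lit 17) (.e (nat_lit 376842) (nat_lit 11) (.e (nat_lit 426306) (nat_lit 12) (.e (nat_lit 475201) (nat_lit 40) (.e (nat_lit 704652) (nat_lit 9) (.e (nat_lit 1170) (nat_lit 87) (.e (nat_lit 57847) (nat_lit 252) .nil))))))) (.g (nat_lit 4) .nil .nil)))) (.nd (nat_lit 5) 
(.lf (nat_lit 160476) (.g (nat_lit 3242) (.e (nat_lit 57437) (nat_lit 17) (.e (nat_lit 376842) (nat_lit 11) (.e (nat_lit 426200) (nat_lit 9) (.e (nat_lit 426448) (nat_lit 20) (.e (nat_lit 114710) (nat_lit 21) (.e (nat_lit 57848) (nat_lit 252) .nil)))))) (.g (nat_lit 6) .nil .nil))) 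
(.lf (nat_lit 160508) (.g (nat_lit 2889) (.e (nat_lit 57437) (nat_lit 17) (.e (nat_lit 376842) (nat_lit 11) (.e (nat_lit 426306) (nat_lit 12) (.e (nat_lit 475214) (nat_lit 42) (.e (nat_lit 720928) (nat_lit 21) (.e (nat_lit 57849) (nat_lit 252) .nil)))))) (.g (nat_lit 4) .nil .nil))))))) (.nd (nat_lit 2) (.nd (nat_lit 3) (.nd (nat_lit 4) (.nd (nat_lit 5) 
(.lf (nat_lit 160450) (.g (nat_lit 1238) (.e (nat_lit 57437) (nat_lit 17) (.e (nat_lit 376842) (nat_lit 11) (.e (nat_lit 426198) (nat_lit 9) (.e (nat_lit 426449) (nat_lit 20) .nil)))) .nil)) 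
(.lf (nat_lit 160482) (.g (nat_lit 995) (.e (nat_lit 57437) (nat_lit 17) (.e (nat_lit 376842) (nat_lit 11) (.e (nat_lit 426213) (nat_lit 9) (.e (nat_lit 433920) (nat_lit 20) .nil)))) .nil))) (.nd (nat_lit 5) 
(.lf (nat_lit 160466) (.g (nat_lit 3743) (.e (nat_lit 57437) (nat_lit 17) (.e (nat_lit 376842) (nat_lit 11) (.e (nat_lit 426199) (nat_lit 9) (.e (nat_lit 426448) (nat_lit 20) (.e (nat_lit 114711) (nat_lit 21) (.e (nat_lit 57849) (nat_lit 252) .nil)))))) (.g (nat_lit 6) .nil .nil))) 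
(.lf (nat_lit 160498) (.g (nat_lit 2161) (.e (nat_lit 57437) (nat_lit 17) (.e (nat_lit 376842) (nat_lit 11) (.e (nat_lit 426306) (nat_lit 12) (.e (nat_lit 475201) (nat_lit 40) (.e (nat_lit 704661) (nat_lit 9) (.e (nat_lit 1170) (nat_lit 87) (.e (nat_lit 57847) (nat_lit 252) .nil))))))) (.g (nat_lit 4) .nil .nil))))) (.nd (nat_lit 4) (.nd (nat_lit 5) 
(.lf (nat_lit 160458) (.g (nat_lit 4049) (.e (nat_lit 57437) (nat_lit 17) (.e (nat_lit 376842) (nat_lit 11) (.e (nat_lit 426199) (nat_lit 9) (.e (nat_lit 426448) (nat_lit 20) (.e (nat_lit 114710) (nat_lit 21) (.e (nat_lit 57846) (nat_lit 252) .nil)))))) (.g (nat_lit 6) .nil .nil))) 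
(.lf (nat_lit 160490) (.g (nat_lit 1718) (.e (nat_lit 57437) (nat_lit 17) (.e (nat_lit 376842) (nat_lit 11) (.e (nat_lit 426306) (nat_lit 12) (.e (nat_lit 475197) (nat_lit 40) .nil)))) .nil))) (.nd (nat_lit 5) 
(.lf (nat_lit 160474) (.g (nat_lit 3268) (.e (nat_lit 57437) (nat_lit 17) (.e (nat_lit 376842) (nat_lit 11) (.e (nat_lit 426200) (nat_lit 9) (.e (nat_lit 426446) (nat_lit 20) (.e (nat_lit 114711) (nat_lit 21) (.e (nat_lit 57849) (nat_lit 252) .nil)))))) (.g (nat_lit 6) .nil .nil))) 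
(.lf (nat_lit 160506) (.g (nat_lit 1000) (.e (nat_lit 57437) (nat_lit 17) (.e (nat_lit 376842) (nat_lit 11) (.e (nat_lit 426306) (nat_lit 12) (.e (nat_lit 475214) (nat_lit 42) .nil)))) .nil))))) (.nd (nat_lit 3) (.nd (nat_lit 4) (.nd (nat_lit 5) 
(.lf (nat_lit 160454) (.g (nat_lit 2027) (.e (nat_lit 57437) (nat_lit 17) (.e (nat_lit 376842) (nat_lit 11) (.e (nat_lit 426199) (nat_lit 9) (.e (nat_lit 426446) (nat_lit 20) (.e (nat_lit 114710) (nat_lit 21) (.e (nat_lit 57847) (nat_lit 252) .nil)))))) (.g (nat_lit 4) .nil .nil))) 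
(.lf (nat_lit 160486) (.g (nat_lit 2944) (.e (nat_lit 57437) (nat_lit 17) (.e (nat_lit 376842) (nat_lit 11) (.e (nat_lit 426305) (nat_lit 12) (.e (nat_lit 475214) (nat_lit 42) (.e (nat_lit 720929) (nat_lit 21) .nil))))) .nil))) (.nd (nat_lit 5) 
(.lf (nat_lit 160470) (.g (nat_lit 2987) (.e (nat_lit 57437) (nat_lit 17) (.e (nat_lit 376842) (nat_lit 11) (.e (nat_lit 426200) (nat_lit 9) (.e (nat_lit 426446) (nat_lit 20) (.e (nat_lit 114710) (nat_lit 21) (.e (nat_lit 57849) (nat_lit 252) .nil)))))) (.g (nat_lit 5) .nil .nil))) 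
(.lf (nat_lit 160502) (.g (nat_lit 1751) (.e (nat_lit 57437) (nat_lit 17) (.e (nat_lit 376842) (nat_lit 11) (.e (nat_lit 426306) (nat_lit 12) (.e (nat_lit 475206) (nat_lit 40) .nil)))) .nil)))) (.nd (nat_lit 4) (.nd (nat_lit 5) 
(.lf (nat_lit 160462) (.g (nat_lit 3072) (.e (nat_lit 57437) (nat_lit 17) (.e (nat_lit 376842) (nat_lit 11) (.e (nat_lit 426199) (nat_lit 9) (.e (nat_lit 426448) (nat_lit 20) (.e (nat_lit 114711) (nat_lit 21) (.e (nat_lit 57844) (nat_lit 252) .nil)))))) (.g (nat_lit 4) .nil .nil))) 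
(.lf (nat_lit 160494) (.g (nat_lit 2198) (.e (nat_lit 57437) (nat_lit 17) (.e (nat_lit 376842) (nat_lit 11) (.e (nat_lit 426306) (nat_lit 12) (.e (nat_lit 475201) (nat_lit 40) (.e (nat_lit 704654) (nat_lit 9) (.e (nat_lit 1170) (nat_lit 87) (.e (nat_lit 57847) (nat_lit 252) .nil))))))) (.g (nat_lit 4) .nil .nil)))) (.nd (nat_lit 5) 
(.lf (nat_lit 160478) (.g (nat_lit 3202) (.e (nat_lit 57437) (nat_lit 17) (.e (nat_lit 376842) (nat_lit 11) (.e (nat_lit 426200) (nat_lit 9) (.e (nat_lit 426448) (nat_lit 20) (.e (nat_lit 114711) (nat_lit 21) (.e (nat_lit 57848) (nat_lit 252) .nil)))))) (.g (nat_lit 6) .nil .nil))) 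
(.lf (nat_lit 160510) (.g (nat_lit 2743) (.e (nat_lit 57437) (nat_lit 17) (.e (nat_lit 376842) (nat_lit 11) (.e (nat_lit 426306) (nat_lit 12) (.e (nat_lit 475214) (nat_lit 42) (.e (nat_lit 720933) (nat_lit 21) (.e (nat_lit 57844) (nat_lit 252) .nil)))))) (.g (nat_lit 4) .nil .nil)))))))) (.nd (nat_lit 1) (.nd (nat_lit 2) (.nd (nat_lit 3) (.nd (nat_lit 4) (.nd (nat_lit 5) 
(.lf (nat_lit 160449) (.g (nat_lit 3112) (.e (nat_lit 57437) (nat_lit 17) (.e (nat_lit 376842) (nat_lit 11) (.e (nat_lit 426198) (nat_lit 9) (.e (nat_lit 426448) (nat_lit 20) (.e (nat_lit 114711) (nat_lit 21) (.e (nat_lit 57848) (nat_lit 252) .nil)))))) (.g (nat_lit 6) .nil .nil))) 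
(.lf (nat_lit 160481) (.g (nat_lit 1241) (.e (nat_lit 57437) (nat_lit 17) (.e (nat_lit 376842) (nat_lit 11) (.e (nat_lit 426200) (nat_lit 9) (.e (nat_lit 433920) (nat_lit 20) .nil)))) .nil))) (.nd (nat_lit 5) 
(.lf (nat_lit 160465) (.g (nat_lit 3214) (.e (nat_lit 57437) (nat_lit 17) (.e (nat_lit 376842) (nat_lit 11) (.e (nat_lit 426199) (nat_lit 9) (.e (nat_lit 426448) (nat_lit 20) (.e (nat_lit 114711) (nat_lit 21) (.e (nat_lit 57848) (nat_lit 252) .nil)))))) (.g (nat_lit 5) .nil .nil))) 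
(.lf (nat_lit 160497) (.g (nat_lit 2228) (.e (nat_lit 57437) (nat_lit 17) (.e (nat_lit 376842) (nat_lit 11) (.e (nat_lit 426306) (nat_lit 12) (.e (nat_lit 475201) (nat_lit 40) (.e (nat_lit 704657) (nat_lit 9) (.e (nat_lit 1170) (nat_lit 87) (.e (nat_lit 57847) (nat_lit 252) .nil))))))) (.g (nat_lit 4) .nil .nil))))) (.nd (nat_lit 4) (.nd (nat_lit 5) 
(.lf (nat_lit 160457) (.g (nat_lit 2716) (.e (nat_lit 57437) (nat_lit 17) (.e (nat_lit 376842) (nat_lit 11) (.e (nat_lit 426199) (nat_lit 9) (.e (nat_lit 426448) (nat_lit 20) (.e (nat_lit 114710) (nat_lit 21) (.e (nat_lit 57844) (nat_lit 252) .nil)))))) (.g (nat_lit 4) .nil .nil))) 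
(.lf (nat_lit 160489) (.g (nat_lit 2188) (.e (nat_lit 57437) (nat_lit 17) (.e (nat_lit 376842) (nat_lit 11) (.e (nat_lit 426306) (nat_lit 12) (.e (nat_lit 475195) (nat_lit 40) (.e (nat_lit 704749) (nat_lit 12) .nil))))) .nil))) (.nd (nat_lit 5) 
(.lf (nat_lit 160473) (.g (nat_lit 3149) (.e (nat_lit 57437) (nat_lit 17) (.e (nat_lit 376842) (nat_lit 11) (.e (nat_lit 426200) (nat_lit 9) (.e (nat_lit 426446) (nat_lit 20) (.e (nat_lit 114711) (nat_lit 21) (.e (nat_lit 57848) (nat_lit 252) .nil)))))) (.g (nat_lit 6) .nil .nil))) 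
(.lf (nat_lit 160505) (.g (nat_lit 2410) (.e (nat_lit 57437) (nat_lit 17) (.e (nat_lit 376842) (nat_lit 11) (.e (nat_lit 426306) (nat_lit 12) (.e (nat_lit 475212) (nat_lit 42) (.e (nat_lit 720933) (nat_lit 21) (.e (nat_lit 57848) (nat_lit 252) .nil)))))) (.g (nat_lit 5) .nil .nil)))))) (.nd (nat_lit 3) (.nd (nat_lit 4) (.nd (nat_lit 5) 
(.lf (nat_lit 160453) (.g (nat_lit 1979) (.e (nat_lit 57437) (nat_lit 17) (.e (nat_lit 376842) (nat_lit 11) (.e (nat_lit 426199) (nat_lit 9) (.e (nat_lit 426446) (nat_lit 20) (.e (nat_lit 114710) (nat_lit 21) (.e (nat_lit 57846) (nat_lit 252) .nil)))))) (.g (nat_lit 4) .nil .nil))) 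
(.lf (nat_lit 160485) (.g (nat_lit 1763) (.e (nat_lit 57437) (nat_lit 17) (.e (nat_lit 376842) (nat_lit 11) (.e (nat_lit 426305) (nat_lit 12) (.e (nat_lit 475212) (nat_lit 42) .nil)))) .nil))) (.nd (nat_lit 5) 
(.lf (nat_lit 160469) (.g (nat_lit 2736) (.e (nat_lit 57437) (nat_lit 17) (.e (nat_lit 376842) (nat_lit 11) (.e (nat_lit 426200) (nat_lit 9) (.e (nat_lit 426446) (nat_lit 20) (.e (nat_lit 114710) (nat_lit 21) (.e (nat_lit 57848) (nat_lit 252) .nil)))))) (.g (nat_lit 5) .nil .nil))) 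
(.lf (nat_lit 160501) (.g (nat_lit 1754) (.e (nat_lit 57437) (nat_lit 17) (.e (nat_lit 376842) (nat_lit 11) (.e (nat_lit 426306) (nat_lit 12) (.e (nat_lit 475205) (nat_lit 40) .nil)))) .nil)))) (.nd (nat_lit 4) (.nd (nat_lit 5) 
(.lf (nat_lit 160461) (.g (nat_lit 3813) (.e (nat_lit 57437) (nat_lit 17) (.e (nat_lit 376842) (nat_lit 11) (.e (nat_lit 426199) (nat_lit 9) (.e (nat_lit 426448) (nat_lit 20) (.e (nat_lit 114710) (nat_lit 21) (.e (nat_lit 57849) (nat_lit 252) .nil)))))) (.g (nat_lit 6) .nil .nil))) 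
(.lf (nat_lit 160493) (.g (nat_lit 2260) (.e (nat_lit 57437) (nat_lit 17) (.e (nat_lit 376842) (nat_lit 11) (.e (nat_lit 426306) (nat_lit 12) (.e (nat_lit 475201) (nat_lit 40) (.e (nat_lit 704653) (nat_lit 9) (.e (nat_lit 1170) (nat_lit 87) (.e (nat_lit 57847) (nat_lit 252) .nil))))))) (.g (nat_lit 4) .nil .nil)))) (.nd (nat_lit 5) 
(.lf (nat_lit 160477) (.g (nat_lit 3080) (.e (nat_lit 57437) (nat_lit 17) (.e (nat_lit 376842) (nat_lit 11) (.e (nat_lit 426200) (nat_lit 9) (.e (nat_lit 426448) (nat_lit 20) (.e (nat_lit 114711) (nat_lit 21) (.e (nat_lit 57844) (nat_lit 252) .nil)))))) (.g (nat_lit 5) .nil .nil))) 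
(.lf (nat_lit 160509) (.g (nat_lit 3273) (.e (nat_lit 57437) (nat_lit 17) (.e (nat_lit 376842) (nat_lit 11) (.e (nat_lit 426306) (nat_lit 12) (.e (nat_lit 475214) (nat_lit 42) (.e (nat_lit 720932) (nat_lit 21) (.e (nat_lit 57846) (nat_lit 252) .nil)))))) (.g (nat_lit 0) .nil .nil))))))) (.nd (nat_lit 2) (.nd (nat_lit 3) (.nd (nat_lit 4) (.nd (nat_lit 5) 
(.lf (nat_lit 160451) (.g (nat_lit 1908) (.e (nat_lit 57437) (nat_lit 17) (.e (nat_lit 376842) (nat_lit 11) (.e (nat_lit 426198) (nat_lit 9) (.e (nat_lit 426449) (nat_lit 20) (.e (nat_lit 114710) (nat_lit 21) .nil))))) .nil)) 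
(.lf (nat_lit 160483) (.g (nat_lit 2171) (.e (nat_lit 57437) (nat_lit 17) (.e (nat_lit 376842) (nat_lit 11) (.e (nat_lit 426296) (nat_lit 11) (.e (nat_lit 458774) (nat_lit 18) (.e (nat_lit 5224) (nat_lit 296) (.e (nat_lit 171776) (nat_lit 62) (.e (nat_lit 57847) (nat_lit 252) .nil))))))) (.g (nat_lit 5) .nil .nil)))) (.nd (nat_lit 5) 
(.lf (nat_lit 160467) (.g (nat_lit 1434) (.e (nat_lit 57437) (nat_lit 17) (.e (nat_lit 376842) (nat_lit 11) (.e (nat_lit 426200) (nat_lit 9) (.e (nat_lit 426354) (nat_lit 15) (.e (nat_lit 2198) (nat_lit 144) .nil))))) .nil)) 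
(.lf (nat_lit 160499) (.g (nat_lit 2200) (.e (nat_lit 57437) (nat_lit 17) (.e (nat_lit 376842) (nat_lit 11) (.e (nat_lit 426306) (nat_lit 12) (.e (nat_lit 475201) (nat_lit 40) (.e (nat_lit 704670) (nat_lit 9) (.e (nat_lit 1170) (nat_lit 87) (.e (nat_lit 57847) (nat_lit 252) .nil))))))) (.g (nat_lit 4) .nil .nil))))) (.nd (nat_lit 4) (.nd (nat_lit 5) 
(.lf (nat_lit 160459) (.g (nat_lit 3807) (.e (nat_lit 57437) (nat_lit 17) (.e (nat_lit 376842) (nat_lit 11) (.e (nat_lit 426199) (nat_lit 9) (.e (nat_lit 426448) (nat_lit 20) (.e (nat_lit 114710) (nat_lit 21) (.e (nat_lit 57847) (nat_lit 252) .nil)))))) (.g (nat_lit 6) .nil .nil))) 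
(.lf (nat_lit 160491) (.g (nat_lit 936) (.e (nat_lit 57437) (nat_lit 17) (.e (nat_lit 376842) (nat_lit 11) (.e (nat_lit 426306) (nat_lit 12) (.e (nat_lit 475201) (nat_lit 40) .nil)))) .nil))) (.nd (nat_lit 5) 
(.lf (nat_lit 160475) (.g (nat_lit 2489) (.e (nat_lit 57437) (nat_lit 17) (.e (nat_lit 376842) (nat_lit 11) (.e (nat_lit 426200) (nat_lit 9) (.e (nat_lit 426448) (nat_lit 20) (.e (nat_lit 114710) (nat_lit 21) (.e (nat_lit 57844) (nat_lit 252) .nil)))))) (.g (nat_lit 4) .nil .nil))) 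
(.lf (nat_lit 160507) (.g (nat_lit 2487) (.e (nat_lit 57437) (nat_lit 17) (.e (nat_lit 376842) (nat_lit 11) (.e (nat_lit 426306) (nat_lit 12) (.e (nat_lit 475214) (nat_lit 42) (.e (nat_lit 720928) (nat_lit 21) .nil))))) .nil))))) (.nd (nat_lit 3) (.nd (nat_lit 4) (.nd (nat_lit 5) 
(.lf (nat_lit 160455) (.g (nat_lit 2253) (.e (nat_lit 57437) (nat_lit 17) (.e (nat_lit 376842) (nat_lit 11) (.e (nat_lit 426199) (nat_lit 9) (.e (nat_lit 426446) (nat_lit 20) (.e (nat_lit 114711) (nat_lit 21) (.e (nat_lit 57846) (nat_lit 252) .nil)))))) (.g (nat_lit 4) .nil .nil))) 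
(.lf (nat_lit 160487) (.g (nat_lit 1247) (.e (nat_lit 57437) (nat_lit 17) (.e (nat_lit 376842) (nat_lit 11) (.e (nat_lit 426306) (nat_lit 12) (.e (nat_lit 475155) (nat_lit 21) .nil)))) .nil))) (.nd (nat_lit 5) 
(.lf (nat_lit 160471) (.g (nat_lit 2833) (.e (nat_lit 57437) (nat_lit 17) (.e (nat_lit 376842) (nat_lit 11) (.e (nat_lit 426200) (nat_lit 9) (.e (nat_lit 426446) (nat_lit 20) (.e (nat_lit 114711) (nat_lit 21) (.e (nat_lit 57844) (nat_lit 252) .nil)))))) (.g (nat_lit 5) .nil .nil))) 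
(.lf (nat_lit 160503) (.g (nat_lit 2108) (.e (nat_lit 57437) (nat_lit 17) (.e (nat_lit 376842) (nat_lit 11) (.e (nat_lit 426306) (nat_lit 12) (.e (nat_lit 475206) (nat_lit 40) (.e (nat_lit 704633) (nat_lit 9) .nil))))) .nil)))) (.nd (nat_lit 4) (.nd (nat_lit 5) 
(.lf (nat_lit 160463) (.g (nat_lit 3837) (.e (nat_lit 57437) (nat_lit 17) (.e (nat_lit 376842) (nat_lit 11) (.e (nat_lit 426199) (nat_lit 9) (.e (nat_lit 426448) (nat_lit 20) (.e (nat_lit 114711) (nat_lit 21) (.e (nat_lit 57846) (nat_lit 252) .nil)))))) (.g (nat_lit 6) .nil .nil))) 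
(.lf (nat_lit 160495) (.g (nat_lit 2283) (.e (nat_lit 57437) (nat_lit 17) (.e (nat_lit 376842) (nat_lit 11) (.e (nat_lit 426306) (nat_lit 12) (.e (nat_lit 475201) (nat_lit 40) (.e (nat_lit 704655) (nat_lit 9) (.e (nat_lit 1170) (nat_lit 87) (.e (nat_lit 57847) (nat_lit 252) .nil))))))) (.g (nat_lit 4) .nil .nil)))) (.nd (nat_lit 5) 
(.lf (nat_lit 160479) (.g (nat_lit 1890) (.e (nat_lit 57437) (nat_lit 17) (.e (nat_lit 376842) (nat_lit 11) (.e (nat_lit 426200) (nat_lit 9) (.e (nat_lit 426449) (nat_lit 20) (.e (nat_lit 114710) (nat_lit 21) .nil))))) .nil)) 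
(.lf (nat_lit 160511) (.g (nat_lit 2591) (.e (nat_lit 57437) (nat_lit 17) (.e (nat_lit 376842) (nat_lit 11) (.e (nat_lit 426306) (nat_lit 12) (.e (nat_lit 475214) (nat_lit 42) (.e (nat_lit 720933) (nat_lit 21) (.e (nat_lit 57848) (nat_lit 252) .nil)))))) (.g (nat_lit 4) .nil .nil)))))))))

noncomputable def tv2149 : DT := (.nd (nat_lit 0) (.nd (nat_lit 1) (.nd (nat_lit 2) (.nd (nat_lit 3) (.nd (nat_lit 4) (.nd (nat_lit 5) 
(.lf (nat_lit 160512) (.g (nat_lit 2300) (.e (nat_lit 57437) (nat_lit 17) (.e (nat_lit 376842) (nat_lit 11) (.e (nat_lit 426307) (nat_lit 12) (.e (nat_lit 475212) (nat_lit 42) (.e (nat_lit 720933) (nat_lit 21) (.e (nat_lit 57848) (nat_lit 252) .nil)))))) (.g (nat_lit 5) .nil .nil))) 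
(.lf (nat_lit 160544) (.g (nat_lit 2983) (.e (nat_lit 57437) (nat_lit 17) (.e (nat_lit 376842) (nat_lit 11) (.e (nat_lit 426314) (nat_lit 12) (.e (nat_lit 475214) (nat_lit 42) (.e (nat_lit 720933) (nat_lit 21) (.e (nat_lit 57849) (nat_lit 252) .nil)))))) (.g (nat_lit 4) .nil .nil)))) (.nd (nat_lit 5) 
(.lf (nat_lit 160528) (.g (nat_lit 3337) (.e (nat_lit 57437) (nat_lit 17) (.e (nat_lit 376842) (nat_lit 11) (.e (nat_lit 426313) (nat_lit 12) (.e (nat_lit 475214) (nat_lit 42) (.e (nat_lit 720929) (nat_lit 21) (.e (nat_lit 57849) (nat_lit 252) .nil)))))) (.g (nat_lit 5) .nil .nil))) 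
(.lf (nat_lit 160560) (.g (nat_lit 2976) (.e (nat_lit 57437) (nat_lit 17) (.e (nat_lit 376842) (nat_lit 11) (.e (nat_lit 426316) (nat_lit 12) (.e (nat_lit 475212) (nat_lit 42) (.e (nat_lit 720929) (nat_lit 21) (.e (nat_lit 57849) (nat_lit 252) .nil)))))) (.g (nat_lit 4) .nil .nil))))) (.nd (nat_lit 4) (.nd (nat_lit 5) 
(.lf (nat_lit 160520) (.g (nat_lit 2260) (.e (nat_lit 57437) (nat_lit 17) (.e (nat_lit 376842) (nat_lit 11) (.e (nat_lit 426308) (nat_lit 12) (.e (nat_lit 475214) (nat_lit 42) (.e (nat_lit 720933) (nat_lit 21) .nil))))) .nil)) 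
(.lf (nat_lit 160552) (.g (nat_lit 2789) (.e (nat_lit 57437) (nat_lit 17) (.e (nat_lit 376842) (nat_lit 11) (.e (nat_lit 426315) (nat_lit 12) (.e (nat_lit 475214) (nat_lit 42) (.e (nat_lit 720932) (nat_lit 21) (.e (nat_lit 57847) (nat_lit 252) .nil)))))) (.g (nat_lit 4) .nil .nil)))) (.nd (nat_lit 5) 
(.lf (nat_lit 160536) (.g (nat_lit 2481) (.e (nat_lit 57437) (nat_lit 17) (.e (nat_lit 376842) (nat_lit 11) (.e (nat_lit 426314) (nat_lit 12) (.e (nat_lit 475212) (nat_lit 42) (.e (nat_lit 720933) (nat_lit 21) (.e (nat_lit 57848) (nat_lit 252) .nil)))))) (.g (nat_lit 4) .nil .nil))) 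
(.lf (nat_lit 160568) (.g (nat_lit 3489) (.e (nat_lit 57437) (nat_lit 17) (.e (nat_lit 376842) (nat_lit 11) (.e (nat_lit 426338) (nat_lit 14) (.e (nat_lit 491566) (nat_lit 12) (.e (nat_lit 385043) (nat_lit 21) (.e (nat_lit 4523) (nat_lit 265) .nil)))))) (.g (nat_lit 4) .nil .nil)))))) (.nd (nat_lit 3) (.nd (nat_lit 4) (.nd (nat_lit 5) 
(.lf (nat_lit 160516) (.g (nat_lit 2545) (.e (nat_lit 57437) (nat_lit 17) (.e (nat_lit 376842) (nat_lit 11) (.e (nat_lit 426308) (nat_lit 12) (.e (nat_lit 475212) (nat_lit 42) (.e (nat_lit 720933) (nat_lit 21) (.e (nat_lit 57848) (nat_lit 252) .nil)))))) (.g (nat_lit 5) .nil .nil))) 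
(.lf (nat_lit 160548) (.g (nat_lit 2453) (.e (nat_lit 57437) (nat_lit 17) (.e (nat_lit 376842) (nat_lit 11) (.e (nat_lit 426315) (nat_lit 12) (.e (nat_lit 475212) (nat_lit 42) (.e (nat_lit 720933) (nat_lit 21) (.e (nat_lit 57848) (nat_lit 252) .nil)))))) (.g (nat_lit 4) .nil .nil)))) (.nd (nat_lit 5) 
(.lf (nat_lit 160532) (.g (nat_lit 3257) (.e (nat_lit 57437) (nat_lit 17) (.e (nat_lit 376842) (nat_lit 11) (.e (nat_lit 426314) (nat_lit 12) (.e (nat_lit 475212) (nat_lit 42) (.e (nat_lit 720929) (nat_lit 21) (.e (nat_lit 57849) (nat_lit 252) .nil)))))) (.g (nat_lit 5) .nil .nil))) 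
(.lf (nat_lit 160564) (.g (nat_lit 3312) (.e (nat_lit 57437) (nat_lit 17) (.e (nat_lit 376842) (nat_lit 11) (.e (nat_lit 426316) (nat_lit 12) (.e (nat_lit 475214) (nat_lit 42) (.e (nat_lit 720929) (nat_lit 21) (.e (nat_lit 57849) (nat_lit 252) .nil)))))) (.g (nat_lit 0) .nil .nil))))) (.nd (nat_lit 4) (.nd (nat_lit 5) 
(.lf (nat_lit 160524) (.g (nat_lit 2673) (.e (nat_lit 57437) (nat_lit 17) (.e (nat_lit 376842) (nat_lit 11) (.e (nat_lit 426313) (nat_lit 12) (.e (nat_lit 475212) (nat_lit 42) (.e (nat_lit 720929) (nat_lit 21) (.e (nat_lit 57847) (nat_lit 252) .nil)))))) (.g (nat_lit 4) .nil .nil))) 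
(.lf (nat_lit 160556) (.g (nat_lit 3370) (.e (nat_lit 57437) (nat_lit 17) (.e (nat_lit 376842) (nat_lit 11) (.e (nat_lit 426315) (nat_lit 12) (.e (nat_lit 475214) (nat_lit 42) (.e (nat_lit 720933) (nat_lit 21) (.e (nat_lit 57847) (nat_lit 252) .nil)))))) (.g (nat_lit 5) .nil .nil)))) (.nd (nat_lit 5) 
(.lf (nat_lit 160540) (.g (nat_lit 2587) (.e (nat_lit 57437) (nat_lit 17) (.e (nat_lit 376842) (nat_lit 11) (.e (nat_lit 426314) (nat_lit 12) (.e (nat_lit 475214) (nat_lit 42) (.e (nat_lit 720932) (nat_lit 21) .nil))))) .nil)) 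
(.lf (nat_lit 160572) (.g (nat_lit 2653) (.e (nat_lit 57437) (nat_lit 17) (.e (nat_lit 376842) (nat_lit 11) (.e (nat_lit 426341) (nat_lit 14) (.e (nat_lit 491560) (nat_lit 10) (.e (nat_lit 344091) (nat_lit 18) (.e (nat_lit 7261) (nat_lit 384) .nil)))))) (.g (nat_lit 4) .nil .nil))))))) (.nd (nat_lit 2) (.nd (nat_lit 3) (.nd (nat_lit 4) (.nd (nat_lit 5) 
(.lf (nat_lit 160514) (.g (nat_lit 2969) (.e (nat_lit 57437) (nat_lit 17) (.e (nat_lit 376842) (nat_lit 11) (.e (nat_lit 426307) (nat_lit 12) (.e (nat_lit 475214) (nat_lit 42) (.e (nat_lit 720933) (nat_lit 21) (.e (nat_lit 57847) (nat_lit 252) .nil)))))) (.g (nat_lit 5) .nil .nil))) 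
(.lf (nat_lit 160546) (.g (nat_lit 2510) (.e (nat_lit 57437) (nat_lit 17) (.e (nat_lit 376842) (nat_lit 11) (.e (nat_lit 426315) (nat_lit 12) (.e (nat_lit 475212) (nat_lit 42) (.e (nat_lit 720933) (nat_lit 21) (.e (nat_lit 57844) (nat_lit 252) .nil)))))) (.g (nat_lit 4) .nil .nil)))) (.nd (nat_lit 5) 
(.lf (nat_lit 160530) (.g (nat_lit 2773) (.e (nat_lit 57437) (nat_lit 17) (.e (nat_lit 376842) (nat_lit 11) (.e (nat_lit 426313) (nat_lit 12) (.e (nat_lit 475214) (nat_lit 42) (.e (nat_lit 720933) (nat_lit 21) .nil))))) .nil)) 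
(.lf (nat_lit 160562) (.g (nat_lit 2295) (.e (nat_lit 57437) (nat_lit 17) (.e (nat_lit 376842) (nat_lit 11) (.e (nat_lit 426316) (nat_lit 12) (.e (nat_lit 475212) (nat_lit 42) (.e (nat_lit 720933) (nat_lit 21) (.e (nat_lit 57848) (nat_lit 252) .nil)))))) (.g (nat_lit 4) .nil .nil))))) (.nd (nat_lit 4) (.nd (nat_lit 5) 
(.lf (nat_lit 160522) (.g (nat_lit 3127) (.e (nat_lit 57437) (nat_lit 17) (.e (nat_lit 376842) (nat_lit 11) (.e (nat_lit 426308) (nat_lit 12) (.e (nat_lit 475214) (nat_lit 42) (.e (nat_lit 720933) (nat_lit 21) (.e (nat_lit 57847) (nat_lit 252) .nil)))))) (.g (nat_lit 5) .nil .nil))) 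
(.lf (nat_lit 160554) (.g (nat_lit 2276) (.e (nat_lit 57437) (nat_lit 17) (.e (nat_lit 376842) (nat_lit 11) (.e (nat_lit 426315) (nat_lit 12) (.e (nat_lit 475214) (nat_lit 42) (.e (nat_lit 720933) (nat_lit 21) .nil))))) .nil))) (.nd (nat_lit 5) 
(.lf (nat_lit 160538) (.g (nat_lit 2153) (.e (nat_lit 57437) (nat_lit 17) (.e (nat_lit 376842) (nat_lit 11) (.e (nat_lit 426314) (nat_lit 12) (.e (nat_lit 475213) (nat_lit 42) (.e (nat_lit 720929) (nat_lit 21) (.e (nat_lit 57847) (nat_lit 252) .nil)))))) (.g (nat_lit 4) .nil .nil))) 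
(.lf (nat_lit 160570) (.g (nat_lit 3684) (.e (nat_lit 57437) (nat_lit 17) (.e (nat_lit 376842) (nat_lit 11) (.e (nat_lit 426338) (nat_lit 14) (.e (nat_lit 491566) (nat_lit 12) (.e (nat_lit 385045) (nat_lit 21) (.e (nat_lit 4523) (nat_lit 265) .nil)))))) (.g (nat_lit 4) .nil .nil)))))) (.nd (nat_lit 3) (.nd (nat_lit 4) (.nd (nat_lit 5) 
(.lf (nat_lit 160518) (.g (nat_lit 2307) (.e (nat_lit 57437) (nat_lit 17) (.e (nat_lit 376842) (nat_lit 11) (.e (nat_lit 426308) (nat_lit 12) (.e (nat_lit 475214) (nat_lit 42) (.e (nat_lit 720932) (nat_lit 21) (.e (nat_lit 57846) (nat_lit 252) .nil)))))) (.g (nat_lit 4) .nil .nil))) 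
(.lf (nat_lit 160550) (.g (nat_lit 3225) (.e (nat_lit 57437) (nat_lit 17) (.e (nat_lit 376842) (nat_lit 11) (.e (nat_lit 426315) (nat_lit 12) (.e (nat_lit 475214) (nat_lit 42) (.e (nat_lit 720929) (nat_lit 21) (.e (nat_lit 57849) (nat_lit 252) .nil)))))) (.g (nat_lit 0) .nil .nil)))) (.nd (nat_lit 5) 
(.lf (nat_lit 160534) (.g (nat_lit 2875) (.e (nat_lit 57437) (nat_lit 17) (.e (nat_lit 376842) (nat_lit 11) (.e (nat_lit 426314) (nat_lit 12) (.e (nat_lit 475212) (nat_lit 42) (.e (nat_lit 720933) (nat_lit 21) (.e (nat_lit 57846) (nat_lit 252) .nil)))))) (.g (nat_lit 5) .nil .nil))) 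
(.lf (nat_lit 160566) (.g (nat_lit 3262) (.e (nat_lit 57437) (nat_lit 17) (.e (nat_lit 376842) (nat_lit 11) (.e (nat_lit 426316) (nat_lit 12) (.e (nat_lit 475214) (nat_lit 42) (.e (nat_lit 720933) (nat_lit 21) (.e (nat_lit 57847) (nat_lit 252) .nil)))))) (.g (nat_lit 6) .nil .nil))))) (.nd (nat_lit 4) (.nd (nat_lit 5) 
(.lf (nat_lit 160526) (.g (nat_lit 1990) (.e (nat_lit 57437) (nat_lit 17) (.e (nat_lit 376842) (nat_lit 11) (.e (nat_lit 426313) (nat_lit 12) (.e (nat_lit 475212) (nat_lit 42) (.e (nat_lit 720933) (nat_lit 21) .nil))))) .nil)) 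
(.lf (nat_lit 160558) (.g (nat_lit 2140) (.e (nat_lit 57437) (nat_lit 17) (.e (nat_lit 376842) (nat_lit 11) (.e (nat_lit 426316) (nat_lit 12) (.e (nat_lit 475197) (nat_lit 40) (.e (nat_lit 704612) (nat_lit 9) .nil))))) .nil))) (.nd (nat_lit 5) 
(.lf (nat_lit 160542) (.g (nat_lit 2786) (.e (nat_lit 57437) (nat_lit 17) (.e (nat_lit 376842) (nat_lit 11) (.e (nat_lit 426314) (nat_lit 12) (.e (nat_lit 475214) (nat_lit 42) (.e (nat_lit 720933) (nat_lit 21) .nil))))) .nil)) 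
(.lf (nat_lit 160574) (.g (nat_lit 2583) (.e (nat_lit 57437) (nat_lit 17) (.e (nat_lit 376842) (nat_lit 11) (.e (nat_lit 426341) (nat_lit 14) (.e (nat_lit 491560) (nat_lit 10) (.e (nat_lit 344096) (nat_lit 18) (.e (nat_lit 7261) (nat_lit 384) .nil)))))) (.g (nat_lit 4) .nil .nil)))))))) (.nd (nat_lit 1) (.nd (nat_lit 2) (.nd (nat_lit 3) (.nd (nat_lit 4) (.nd (nat_lit 5) 
(.lf (nat_lit 160513) (.g (nat_lit 2097) (.e (nat_lit 57437) (nat_lit 17) (.e (nat_lit 376842) (nat_lit 11) (.e (nat_lit 426307) (nat_lit 12) (.e (nat_lit 475214) (nat_lit 42) (.e (nat_lit 720932) (nat_lit 21) .nil))))) .nil)) 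
(.lf (nat_lit 160545) (.g (nat_lit 3392) (.e (nat_lit 57437) (nat_lit 17) (.e (nat_lit 376842) (nat_lit 11) (.e (nat_lit 426315) (nat_lit 12) (.e (nat_lit 475212) (nat_lit 42) (.e (nat_lit 720929) (nat_lit 21) (.e (nat_lit 57847) (nat_lit 252) .nil)))))) (.g (nat_lit 6) .nil .nil)))) (.nd (nat_lit 5) 
(.lf (nat_lit 160529) (.g (nat_lit 2354) (.e (nat_lit 57437) (nat_lit 17) (.e (nat_lit 376842) (nat_lit 11) (.e (nat_lit 426313) (nat_lit 12) (.e (nat_lit 475214) (nat_lit 42) (.e (nat_lit 720932) (nat_lit 21) .nil))))) .nil)) 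
(.lf (nat_lit 160561) (.g (nat_lit 2677) (.e (nat_lit 57437) (nat_lit 17) (.e (nat_lit 376842) (nat_lit 11) (.e (nat_lit 426316) (nat_lit 12) (.e (nat_lit 475212) (nat_lit 42) (.e (nat_lit 720933) (nat_lit 21) (.e (nat_lit 57846) (nat_lit 252) .nil)))))) (.g (nat_lit 4) .nil .nil))))) (.nd (nat_lit 4) (.nd (nat_lit 5) 
(.lf (nat_lit 160521) (.g (nat_lit 2307) (.e (nat_lit 57437) (nat_lit 17) (.e (nat_lit 376842) (nat_lit 11) (.e (nat_lit 426308) (nat_lit 12) (.e (nat_lit 475214) (nat_lit 42) (.e (nat_lit 720933) (nat_lit 21) (.e (nat_lit 57846) (nat_lit 252) .nil)))))) (.g (nat_lit 4) .nil .nil))) 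
(.lf (nat_lit 160553) (.g (nat_lit 2952) (.e (nat_lit 57437) (nat_lit 17) (.e (nat_lit 376842) (nat_lit 11) (.e (nat_lit 426315) (nat_lit 12) (.e (nat_lit 475214) (nat_lit 42) (.e (nat_lit 720932) (nat_lit 21) (.e (nat_lit 57849) (nat_lit 252) .nil)))))) (.g (nat_lit 4) .nil .nil)))) (.nd (nat_lit 5) 
(.lf (nat_lit 160537) (.g (nat_lit 3169) (.e (nat_lit 57437) (nat_lit 17) (.e (nat_lit 376842) (nat_lit 11) (.e (nat_lit 426314) (nat_lit 12) (.e (nat_lit 475212) (nat_lit 42) (.e (nat_lit 720933) (nat_lit 21) (.e (nat_lit 57849) (nat_lit 252) .nil)))))) (.g (nat_lit 5) .nil .nil))) 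
(.lf (nat_lit 160569) (.g (nat_lit 3575) (.e (nat_lit 57437) (nat_lit 17) (.e (nat_lit 376842) (nat_lit 11) (.e (nat_lit 426338) (nat_lit 14) (.e (nat_lit 491566) (nat_lit 12) (.e (nat_lit 385044) (nat_lit 21) .nil))))) .nil))))) (.nd (nat_lit 3) (.nd (nat_lit 4) (.nd (nat_lit 5) 
(.lf (nat_lit 160517) (.g (nat_lit 2210) (.e (nat_lit 57437) (nat_lit 17) (.e (nat_lit 376842) (nat_lit 11) (.e (nat_lit 426308) (nat_lit 12) (.e (nat_lit 475214) (nat_lit 42) (.e (nat_lit 720932) (nat_lit 21) .nil))))) .nil)) 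
(.lf (nat_lit 160549) (.g (nat_lit 2215) (.e (nat_lit 57437) (nat_lit 17) (.e (nat_lit 376842) (nat_lit 11) (.e (nat_lit 426315) (nat_lit 12) (.e (nat_lit 475213) (nat_lit 42) (.e (nat_lit 720929) (nat_lit 21) (.e (nat_lit 57847) (nat_lit 252) .nil)))))) (.g (nat_lit 4) .nil .nil)))) (.nd (nat_lit 5) 
(.lf (nat_lit 160533) (.g (nat_lit 2539) (.e (nat_lit 57437) (nat_lit 17) (.e (nat_lit 376842) (nat_lit 11) (.e (nat_lit 426314) (nat_lit 12) (.e (nat_lit 475212) (nat_lit 42) (.e (nat_lit 720933) (nat_lit 21) (.e (nat_lit 57844) (nat_lit 252) .nil)))))) (.g (nat_lit 4) .nil .nil))) 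
(.lf (nat_lit 160565) (.g (nat_lit 2320) (.e (nat_lit 57437) (nat_lit 17) (.e (nat_lit 376842) (nat_lit 11) (.e (nat_lit 426316) (nat_lit 12) (.e (nat_lit 475214) (nat_lit 42) (.e (nat_lit 720933) (nat_lit 21) (.e (nat_lit 57846) (nat_lit 252) .nil)))))) (.g (nat_lit 4) .nil .nil))))) (.nd (nat_lit 4) (.nd (nat_lit 5) 
(.lf (nat_lit 160525) (.g (nat_lit 2560) (.e (nat_lit 57437) (nat_lit 17) (.e (nat_lit 376842) (nat_lit 11) (.e (nat_lit 426313) (nat_lit 12) (.e (nat_lit 475212) (nat_lit 42) (.e (nat_lit 720929) (nat_lit 21) (.e (nat_lit 57849) (nat_lit 252) .nil)))))) (.g (nat_lit 4) .nil .nil))) 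
(.lf (nat_lit 160557) (.g (nat_lit 2763) (.e (nat_lit 57437) (nat_lit 17) (.e (nat_lit 376842) (nat_lit 11) (.e (nat_lit 426315) (nat_lit 12) (.e (nat_lit 475214) (nat_lit 42) (.e (nat_lit 720933) (nat_lit 21) (.e (nat_lit 57849) (nat_lit 252) .nil)))))) (.g (nat_lit 4) .nil .nil)))) (.nd (nat_lit 5) 
(.lf (nat_lit 160541) (.g (nat_lit 2711) (.e (nat_lit 57437) (nat_lit 17) (.e (nat_lit 376842) (nat_lit 11) (.e (nat_lit 426314) (nat_lit 12) (.e (nat_lit 475214) (nat_lit 42) (.e (nat_lit 720932) (nat_lit 21) (.e (nat_lit 57849) (nat_lit 252) .nil)))))) (.g (nat_lit 4) .nil .nil))) 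
(.lf (nat_lit 160573) (.g (nat_lit 2430) (.e (nat_lit 57437) (nat_lit 17) (.e (nat_lit 376842) (nat_lit 11) (.e (nat_lit 426341) (nat_lit 14) (.e (nat_lit 491560) (nat_lit 10) (.e (nat_lit 344095) (nat_lit 18) .nil))))) .nil)))))) (.nd (nat_lit 2) (.nd (nat_lit 3) (.nd (nat_lit 4) (.nd (nat_lit 5) 
(.lf (nat_lit 160515) (.g (nat_lit 2609) (.e (nat_lit 57437) (nat_lit 17) (.e (nat_lit 376842) (nat_lit 11) (.e (nat_lit 426308) (nat_lit 12) (.e (nat_lit 475212) (nat_lit 42) (.e (nat_lit 720933) (nat_lit 21) (.e (nat_lit 57844) (nat_lit 252) .nil)))))) (.g (nat_lit 4) .nil .nil))) 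
(.lf (nat_lit 160547) (.g (nat_lit 2835) (.e (nat_lit 57437) (nat_lit 17) (.e (nat_lit 376842) (nat_lit 11) (.e (nat_lit 426315) (nat_lit 12) (.e (nat_lit 475212) (nat_lit 42) (.e (nat_lit 720933) (nat_lit 21) (.e (nat_lit 57846) (nat_lit 252) .nil)))))) (.g (nat_lit 5) .nil .nil)))) (.nd (nat_lit 5) 
(.lf (nat_lit 160531) (.g (nat_lit 2933) (.e (nat_lit 57437) (nat_lit 17) (.e (nat_lit 376842) (nat_lit 11) (.e (nat_lit 426313) (nat_lit 12) (.e (nat_lit 475214) (nat_lit 42) (.e (nat_lit 720933) (nat_lit 21) (.e (nat_lit 57847) (nat_lit 252) .nil)))))) (.g (nat_lit 4) .nil .nil))) 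
(.lf (nat_lit 160563) (.g (nat_lit 2966) (.e (nat_lit 57437) (nat_lit 17) (.e (nat_lit 376842) (nat_lit 11) (.e (nat_lit 426316) (nat_lit 12) (.e (nat_lit 475212) (nat_lit 42) (.e (nat_lit 720933) (nat_lit 21) (.e (nat_lit 57849) (nat_lit 252) .nil)))))) (.g (nat_lit 4) .nil .nil))))) (.nd (nat_lit 4) (.nd (nat_lit 5) 
(.lf (nat_lit 160523) (.g (nat_lit 2533) (.e (nat_lit 57437) (nat_lit 17) (.e (nat_lit 376842) (nat_lit 11) (.e (nat_lit 426308) (nat_lit 12) (.e (nat_lit 475214) (nat_lit 42) (.e (nat_lit 720933) (nat_lit 21) (.e (nat_lit 57849) (nat_lit 252) .nil)))))) (.g (nat_lit 4) .nil .nil))) 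
(.lf (nat_lit 160555) (.g (nat_lit 2424) (.e (nat_lit 57437) (nat_lit 17) (.e (nat_lit 376842) (nat_lit 11) (.e (nat_lit 426315) (nat_lit 12) (.e (nat_lit 475214) (nat_lit 42) (.e (nat_lit 720933) (nat_lit 21) (.e (nat_lit 57846) (nat_lit 252) .nil)))))) (.g (nat_lit 4) .nil .nil)))) (.nd (nat_lit 5) 
(.lf (nat_lit 160539) (.g (nat_lit 3634) (.e (nat_lit 57437) (nat_lit 17) (.e (nat_lit 376842) (nat_lit 11) (.e (nat_lit 426314) (nat_lit 12) (.e (nat_lit 475214) (nat_lit 42) (.e (nat_lit 720929) (nat_lit 21) (.e (nat_lit 57847) (nat_lit 252) .nil)))))) (.g (nat_lit 6) .nil .nil))) 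
(.lf (nat_lit 160571) (.g (nat_lit 3213) (.e (nat_lit 57437) (nat_lit 17) (.e (nat_lit 376842) (nat_lit 11) (.e (nat_lit 426341) (nat_lit 14) (.e (nat_lit 491560) (nat_lit 10) (.e (nat_lit 344090) (nat_lit 18) (.e (nat_lit 7261) (nat_lit 384) .nil)))))) (.g (nat_lit 5) .nil .nil)))))) (.nd (nat_lit 3) (.nd (nat_lit 4) (.nd (nat_lit 5) 
(.lf (nat_lit 160519) (.g (nat_lit 2320) (.e (nat_lit 57437) (nat_lit 17) (.e (nat_lit 376842) (nat_lit 11) (.e (nat_lit 426308) (nat_lit 12) (.e (nat_lit 475214) (nat_lit 42) (.e (nat_lit 720932) (nat_lit 21) (.e (nat_lit 57849) (nat_lit 252) .nil)))))) (.g (nat_lit 4) .nil .nil))) 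
(.lf (nat_lit 160551) (.g (nat_lit 2826) (.e (nat_lit 57437) (nat_lit 17) (.e (nat_lit 376842) (nat_lit 11) (.e (nat_lit 426315) (nat_lit 12) (.e (nat_lit 475214) (nat_lit 42) (.e (nat_lit 720932) (nat_lit 21) (.e (nat_lit 57846) (nat_lit 252) .nil)))))) (.g (nat_lit 4) .nil .nil)))) (.nd (nat_lit 5) 
(.lf (nat_lit 160535) (.g (nat_lit 3623) (.e (nat_lit 57437) (nat_lit 17) (.e (nat_lit 376842) (nat_lit 11) (.e (nat_lit 426314) (nat_lit 12) (.e (nat_lit 475212) (nat_lit 42) (.e (nat_lit 720933) (nat_lit 21) (.e (nat_lit 57847) (nat_lit 252) .nil)))))) (.g (nat_lit 6) .nil .nil))) 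
(.lf (nat_lit 160567) (.g (nat_lit 1938) (.e (nat_lit 57437) (nat_lit 17) (.e (nat_lit 376842) (nat_lit 11) (.e (nat_lit 426316) (nat_lit 12) (.e (nat_lit 475214) (nat_lit 42) (.e (nat_lit 720933) (nat_lit 21) (.e (nat_lit 57848) (nat_lit 252) .nil)))))) (.g (nat_lit 4) .nil .nil))))) (.nd (nat_lit 4) (.nd (nat_lit 5) 
(.lf (nat_lit 160527) (.g (nat_lit 2967) (.e (nat_lit 57437) (nat_lit 17) (.e (nat_lit 376842) (nat_lit 11) (.e (nat_lit 426313) (nat_lit 12) (.e (nat_lit 475212) (nat_lit 42) (.e (nat_lit 720933) (nat_lit 21) (.e (nat_lit 57847) (nat_lit 252) .nil)))))) (.g (nat_lit 5) .nil .nil))) 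
(.lf (nat_lit 160559) (.g (nat_lit 3148) (.e (nat_lit 57437) (nat_lit 17) (.e (nat_lit 376842) (nat_lit 11) (.e (nat_lit 426316) (nat_lit 12) (.e (nat_lit 475212) (nat_lit 42) (.e (nat_lit 720929) (nat_lit 21) (.e (nat_lit 57847) (nat_lit 252) .nil)))))) (.g (nat_lit 5) .nil .nil)))) (.nd (nat_lit 5) 
(.lf (nat_lit 160543) (.g (nat_lit 3572) (.e (nat_lit 57437) (nat_lit 17) (.e (nat_lit 376842) (nat_lit 11) (.e (nat_lit 426314) (nat_lit 12) (.e (nat_lit 475214) (nat_lit 42) (.e (nat_lit 720933) (nat_lit 21) (.e (nat_lit 57847) (nat_lit 252) .nil)))))) (.g (nat_lit 5) .nil .nil))) 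
(.lf (nat_lit 160575) (.g (nat_lit 2952) (.e (nat_lit 57437) (nat_lit 17) (.e (nat_lit 376842) (nat_lit 11) (.e (nat_lit 426342) (nat_lit 14) (.e (nat_lit 491560) (nat_lit 10) (.e (nat_lit 344091) (nat_lit 18) (.e (nat_lit 7261) (nat_lit 384) .nil)))))) (.g (nat_lit 5) .nil .nil)))))))))

noncomputable def tv2150 : DT := (.nd (nat_lit 0) (.nd (nat_lit 1) (.nd (nat_lit 2) (.nd (nat_lit 3) (.nd (nat_lit 4) (.nd (nat_lit 5) 
(.lf (nat_lit 160576) (.g (nat_lit 2521) (.e (nat_lit 57437) (nat_lit 17) (.e (nat_lit 376842) (nat_lit 11) (.e (nat_lit 426342) (nat_lit 14) (.e (nat_lit 491560) (nat_lit 10) (.e (nat_lit 344095) (nat_lit 18) (.e (nat_lit 7261) (nat_lit 384) .nil)))))) (.g (nat_lit 4) .nil .nil))) 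
(.lf (nat_lit 160608) (.g (nat_lit 2395) (.e (nat_lit 57437) (nat_lit 17) (.e (nat_lit 376859) (nat_lit 21) (.e (nat_lit 57872) (nat_lit 264) (.e (nat_lit 1221) (nat_lit 90) (.e (nat_lit 81930) (nat_lit 20) (.e (nat_lit 1049) (nat_lit 81) (.e (nat_lit 5939) (nat_lit 322) .nil))))))) (.g (nat_lit 4) .nil .nil)))) (.nd (nat_lit 5) 
(.lf (nat_lit 160592) (.g (nat_lit 4402) (.e (nat_lit 57437) (nat_lit 17) (.e (nat_lit 376859) (nat_lit 21) (.e (nat_lit 57681) (nat_lit 155) (.e (nat_lit 122919) (nat_lit 15) (.e (nat_lit 360451) (nat_lit 0) (.e (nat_lit 7261) (nat_lit 384) .nil)))))) (.g (nat_lit 0) .nil .nil))) 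
(.lf (nat_lit 160624) (.g (nat_lit 1415) (.e (nat_lit 57437) (nat_lit 17) (.e (nat_lit 376862) (nat_lit 22) (.e (nat_lit 90158) (nat_lit 11) (.e (nat_lit 24599) (nat_lit 1) .nil)))) .nil)))) (.nd (nat_lit 4) (.nd (nat_lit 5) 
(.lf (nat_lit 160584) (.g (nat_lit 1293) (.e (nat_lit 57437) (nat_lit 17) (.e (nat_lit 384768) (nat_lit 16) (.e (nat_lit 466972) (nat_lit 21) (.e (nat_lit 164330) (nat_lit 230) (.e (nat_lit 171776) (nat_lit 62) (.e (nat_lit 57847) (nat_lit 252) .nil)))))) (.g (nat_lit 4) .nil .nil))) 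
(.lf (nat_lit 160616) (.g (nat_lit 3475) (.e (nat_lit 57437) (nat_lit 17) (.e (nat_lit 376859) (nat_lit 21) (.e (nat_lit 57931) (nat_lit 282) (.e (nat_lit 163938) (nat_lit 18) (.e (nat_lit 475214) (nat_lit 42) (.e (nat_lit 728832) (nat_lit 1) (.e (nat_lit 164399) (nat_lit 256) .nil))))))) (.g (nat_lit 5) .nil .nil)))) (.nd (nat_lit 5) 
(.lf (nat_lit 160600) (.g (nat_lit 1662) (.e (nat_lit 57437) (nat_lit 17) (.e (nat_lit 376859) (nat_lit 21) (.e (nat_lit 57684) (nat_lit 155) (.e (nat_lit 122919) (nat_lit 15) (.e (nat_lit 360457) (nat_lit 0) (.e (nat_lit 7936) (nat_lit 384) .nil)))))) (.g (nat_lit 4) .nil .nil))) 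
(.lf (nat_lit 160632) (.g (nat_lit 920) (.e (nat_lit 57437) (nat_lit 17) (.e (nat_lit 376865) (nat_lit 22) (.e (nat_lit 90159) (nat_lit 11) .nil))) .nil))))) (.nd (nat_lit 3) (.nd (nat_lit 4) (.nd (nat_lit 5) 
(.lf (nat_lit 160580) (.g (nat_lit 2991) (.e (nat_lit 57437) (nat_lit 17) (.e (nat_lit 376842) (nat_lit 11) (.e (nat_lit 426343) (nat_lit 14) (.e (nat_lit 491560) (nat_lit 10) (.e (nat_lit 344095) (nat_lit 18) (.e (nat_lit 7261) (nat_lit 384) .nil)))))) (.g (nat_lit 4) .nil .nil))) 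
(.lf (nat_lit 160612) (.g (nat_lit 1156) (.e (nat_lit 57437) (nat_lit 17) (.e (nat_lit 376859) (nat_lit 21) (.e (nat_lit 57873) (nat_lit 264) (.e (nat_lit 1221) (nat_lit 90) .nil)))) .nil))) (.nd (nat_lit 5) 
(.lf (nat_lit 160596) (.g (nat_lit 1994) (.e (nat_lit 57437) (nat_lit 17) (.e (nat_lit 376859) (nat_lit 21) (.e (nat_lit 57683) (nat_lit 155) (.e (nat_lit 122917) (nat_lit 15) (.e (nat_lit 360457) (nat_lit 0) .nil))))) .nil)) 
(.lf (nat_lit 160628) (.g (nat_lit 1390) (.e (nat_lit 57437) (nat_lit 17) (.e (nat_lit 376865) (nat_lit 22) (.e (nat_lit 90128) (nat_lit 9) (.e (nat_lit 340) (nat_lit 27) .nil)))) .nil)))) (.nd (nat_lit 4) (.nd (nat_lit 5) 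
(.lf (nat_lit 160588) (.g (nat_lit 2417) (.e (nat_lit 57437) (nat_lit 17) (.e (nat_lit 376859) (nat_lit 21) (.e (nat_lit 57655) (nat_lit 152) (.e (nat_lit 1216) (nat_lit 90) (.e (nat_lit 81957) (nat_lit 24) (.e (nat_lit 130816) (nat_lit 154) .nil)))))) (.g (nat_lit 5) .nil .nil))) 
(.lf (nat_lit 160620) (.g (nat_lit 1258) (.e (nat_lit 57437) (nat_lit 17) (.e (nat_lit 376860) (nat_lit 21) (.e (nat_lit 57854) (nat_lit 252) (.e (nat_lit 57366) (nat_lit 1) .nil)))) .nil))) (.nd (nat_lit 5) 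
(.lf (nat_lit 160604) (.g (nat_lit 2057) (.e (nat_lit 57437) (nat_lit 17) (.e (nat_lit 376859) (nat_lit 21) (.e (nat_lit 57872) (nat_lit 264) (.e (nat_lit 1221) (nat_lit 90) (.e (nat_lit 81929) (nat_lit 20) (.e (nat_lit 1105) (nat_lit 81) (.e (nat_lit 5937) (nat_lit 322) .nil))))))) (.g (nat_lit 4) .nil .nil))) 
(.lf (nat_lit 160636) (.g (nat_lit 2821) (.e (nat_lit 57437) (nat_lit 17) (.e (nat_lit 376865) (nat_lit 22) (.e (nat_lit 90185) (nat_lit 17) (.e (nat_lit 237582) (nat_lit 1) (.e (nat_lit 164325) (nat_lit 230) (.e (nat_lit 163861) (nat_lit 1) (.e (nat_lit 171776) (nat_lit 136) .nil))))))) (.g (nat_lit 4) .nil .nil))))))) (.nd (nat_lit 2) (.nd (nat_lit 3) (.nd (nat_lit 4) (.nd (nat_lit 5) 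
(.lf (nat_lit 160578) (.g (nat_lit 2456) (.e (nat_lit 57437) (nat_lit 17) (.e (nat_lit 376842) (nat_lit 11) (.e (nat_lit 426343) (nat_lit 14) (.e (nat_lit 491560) (nat_lit 10) (.e (nat_lit 344089) (nat_lit 18) .nil))))) .nil)) 
(.lf (nat_lit 160610) (.g (nat_lit 1834) (.e (nat_lit 57437) (nat_lit 17) (.e (nat_lit 376859) (nat_lit 21) (.e (nat_lit 57872) (nat_lit 264) (.e (nat_lit 1221) (nat_lit 90) (.e (nat_lit 81931) (nat_lit 20) (.e (nat_lit 972) (nat_lit 81) (.e (nat_lit 5941) (nat_lit 322) .nil))))))) (.g (nat_lit 4) .nil .nil)))) (.nd (nat_lit 5) 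
(.lf (nat_lit 160594) (.g (nat_lit 3008) (.e (nat_lit 57437) (nat_lit 17) (.e (nat_lit 376859) (nat_lit 21) (.e (nat_lit 57683) (nat_lit 155) (.e (nat_lit 122917) (nat_lit 15) (.e (nat_lit 360449) (nat_lit 0) (.e (nat_lit 7261) (nat_lit 384) .nil)))))) (.g (nat_lit 5) .nil .nil))) 
(.lf (nat_lit 160626) (.g (nat_lit 936) (.e (nat_lit 57437) (nat_lit 17) (.e (nat_lit 376865) (nat_lit 22) (.e (nat_lit 90125) (nat_lit 9) .nil))) .nil)))) (.nd (nat_lit 4) (.nd (nat_lit 5) 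
(.lf (nat_lit 160586) (.g (nat_lit 1913) (.e (nat_lit 57437) (nat_lit 17) (.e (nat_lit 376855) (nat_lit 20) (.e (nat_lit 2000) (nat_lit 138) (.e (nat_lit 671748) (nat_lit 0) (.e (nat_lit 1595) (nat_lit 111) (.e (nat_lit 368384) (nat_lit 0) (.e (nat_lit 5937) (nat_lit 322) .nil))))))) (.g (nat_lit 5) .nil .nil))) 
(.lf (nat_lit 160618) (.g (nat_lit 1131) (.e (nat_lit 57437) (nat_lit 17) (.e (nat_lit 376860) (nat_lit 21) (.e (nat_lit 57692) (nat_lit 156) (.e (nat_lit 171776) (nat_lit 66) .nil)))) .nil))) (.nd (nat_lit 5) 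
(.lf (nat_lit 160602) (.g (nat_lit 661) (.e (nat_lit 57437) (nat_lit 17) (.e (nat_lit 376859) (nat_lit 21) (.e (nat_lit 57871) (nat_lit 264) (.e (nat_lit 1221) (nat_lit 90) .nil)))) .nil)) 
(.lf (nat_lit 160634) (.g (nat_lit 1533) (.e (nat_lit 57437) (nat_lit 17) (.e (nat_lit 376865) (nat_lit 22) (.e (nat_lit 90160) (nat_lit 11) (.e (nat_lit 24666) (nat_lit 15) .nil)))) .nil))))) (.nd (nat_lit 3) (.nd (nat_lit 4) (.nd (nat_lit 5) 
(.lf (nat_lit 160582) (.g (nat_lit 3083) (.e (nat_lit 57437) (nat_lit 17) (.e (nat_lit 376842) (nat_lit 11) (.e (nat_lit 426344) (nat_lit 14) (.e (nat_lit 491560) (nat_lit 10) (.e (nat_lit 344089) (nat_lit 18) (.e (nat_lit 7259) (nat_lit 384) .nil)))))) (.g (nat_lit 4) .nil .nil))) 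
(.lf (nat_lit 160614) (.g (nat_lit 3571) (.e (nat_lit 57437) (nat_lit 17) (.e (nat_lit 376859) (nat_lit 21) (.e (nat_lit 57931) (nat_lit 282) (.e (nat_lit 163936) (nat_lit 18) (.e (nat_lit 475214) (nat_lit 42) (.e (nat_lit 728832) (nat_lit 1) (.e (nat_lit 164399) (nat_lit 256) .nil))))))) (.g (nat_lit 5) .nil .nil)))) (.nd (nat_lit 5) 
(.lf (nat_lit 160598) (.g (nat_lit 3306) (.e (nat_lit 57437) (nat_lit 17) (.e (nat_lit 376859) (nat_lit 21) (.e (nat_lit 57684) (nat_lit 155) (.e (nat_lit 122916) (nat_lit 14) (.e (nat_lit 352309) (nat_lit 21) (.e (nat_lit 65280) (nat_lit 154) .nil)))))) (.g (nat_lit 5) .nil .nil))) 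
(.lf (nat_lit 160630) (.g (nat_lit 906) (.e (nat_lit 57437) (nat_lit 17) (.e (nat_lit 376865) (nat_lit 22) (.e (nat_lit 90157) (nat_lit 11) .nil))) .nil)))) (.nd (nat_lit 4) (.nd (nat_lit 5) 
(.lf (nat_lit 160590) (.g (nat_lit 2664) (.e (nat_lit 57437) (nat_lit 17) (.e (nat_lit 376859) (nat_lit 21) (.e (nat_lit 57655) (nat_lit 152) (.e (nat_lit 1217) (nat_lit 90) (.e (nat_lit 81959) (nat_lit 24) (.e (nat_lit 130816) (nat_lit 154) .nil)))))) (.g (nat_lit 5) .nil .nil))) 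
(.lf (nat_lit 160622) (.g (nat_lit 705) (.e (nat_lit 57437) (nat_lit 17) (.e (nat_lit 376860) (nat_lit 21) (.e (nat_lit 57930) (nat_lit 282) .nil))) .nil))) (.nd (nat_lit 5) 
(.lf (nat_lit 160606) (.g (nat_lit 2136) (.e (nat_lit 57437) (nat_lit 17) (.e (nat_lit 376859) (nat_lit 21) (.e (nat_lit 57872) (nat_lit 264) (.e (nat_lit 1221) (nat_lit 90) (.e (nat_lit 81929) (nat_lit 20) (.e (nat_lit 1106) (nat_lit 81) (.e (nat_lit 5937) (nat_lit 322) .nil))))))) (.g (nat_lit 4) .nil .nil))) 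
(.lf (nat_lit 160638) (.g (nat_lit 2568) (.e (nat_lit 57437) (nat_lit 17) (.e (nat_lit 376869) (nat_lit 23) (.e (nat_lit 98313) (nat_lit 9) (.e (nat_lit 335995) (nat_lit 1) (.e (nat_lit 57847) (nat_lit 252) (.e (nat_lit 65280) (nat_lit 62) (.e (nat_lit 164399) (nat_lit 256) .nil))))))) (.g (nat_lit 5) .nil .nil)))))))) 
(.nd (nat_lit 1) (.nd (nat_lit 2) (.nd (nat_lit 3) (.nd (nat_lit 4) (.nd (nat_lit 5) 
(.lf (nat_lit 160577) (.g (nat_lit 3822) (.e (nat_lit 57437) (nat_lit 17) (.e (nat_lit 376842) (nat_lit 11) (.e (nat_lit 426343) (nat_lit 14) (.e (nat_lit 491546) (nat_lit 9) (.e (nat_lit 335997) (nat_lit 1) (.e (nat_lit 65280) (nat_lit 154) .nil)))))) (.g (nat_lit 5) .nil .nil))) 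
(.lf (nat_lit 160609) (.g (nat_lit 1711) (.e (nat_lit 57437) (nat_lit 17) (.e (nat_lit 376859) (nat_lit 21) (.e (nat_lit 57872) (nat_lit 264) (.e (nat_lit 1221) (nat_lit 90) (.e (nat_lit 81930) (nat_lit 20) (.e (nat_lit 1049) (nat_lit 81) (.e (nat_lit 5941) (nat_lit 322) .nil))))))) (.g (nat_lit 4) .nil .nil)))) (.nd (nat_lit 5) 
(.lf (nat_lit 160593) (.g (nat_lit 3122) (.e (nat_lit 57437) (nat_lit 17) (.e (nat_lit 376859) (nat_lit 21) (.e (nat_lit 57683) (nat_lit 155) (.e (nat_lit 122916) (nat_lit 14) (.e (nat_lit 352309) (nat_lit 21) (.e (nat_lit 65280) (nat_lit 154) .nil)))))) (.g (nat_lit 5) .nil .nil))) 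
(.lf (nat_lit 160625) (.g (nat_lit 920) (.e (nat_lit 57437) (nat_lit 17) (.e (nat_lit 376865) (nat_lit 22) (.e (nat_lit 90123) (nat_lit 9) .nil))) .nil)))) (.nd (nat_lit 4) (.nd (nat_lit 5) 
(.lf (nat_lit 160585) (.g (nat_lit 1293) (.e (nat_lit 57437) (nat_lit 17) (.e (nat_lit 384768) (nat_lit 16) (.e (nat_lit 466972) (nat_lit 21) (.e (nat_lit 164332) (nat_lit 230) (.e (nat_lit 171776) (nat_lit 62) (.e (nat_lit 57849) (nat_lit 252) .nil)))))) (.g (nat_lit 4) .nil .nil))) 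
(.lf (nat_lit 160617) (.g (nat_lit 701) (.e (nat_lit 57437) (nat_lit 17) (.e (nat_lit 376860) (nat_lit 21) (.e (nat_lit 57691) (nat_lit 156) .nil))) .nil))) (.nd (nat_lit 5) 
(.lf (nat_lit 160601) (.g (nat_lit 1857) (.e (nat_lit 57437) (nat_lit 17) (.e (nat_lit 376859) (nat_lit 21) (.e (nat_lit 57870) (nat_lit 264) (.e (nat_lit 1221) (nat_lit 90) (.e (nat_lit 81931) (nat_lit 20) (.e (nat_lit 973) (nat_lit 81) (.e (nat_lit 5941) (nat_lit 322) .nil))))))) (.g (nat_lit 4) .nil .nil))) 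
(.lf (nat_lit 160633) (.g (nat_lit 2153) (.e (nat_lit 57437) (nat_lit 17) (.e (nat_lit 376865) (nat_lit 22) (.e (nat_lit 90160) (nat_lit 11) (.e (nat_lit 24584) (nat_lit 0) (.e (nat_lit 970) (nat_lit 81) .nil))))) .nil))))) (.nd (nat_lit 3) (.nd (nat_lit 4) (.nd (nat_lit 5) 
(.lf (nat_lit 160581) (.g (nat_lit 1491) (.e (nat_lit 57437) (nat_lit 17) (.e (nat_lit 376842) (nat_lit 11) (.e (nat_lit 426343) (nat_lit 14) (.e (nat_lit 491572) (nat_lit 14) .nil)))) .nil)) 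
(.lf (nat_lit 160613) (.g (nat_lit 2067) (.e (nat_lit 57437) (nat_lit 17) (.e (nat_lit 376859) (nat_lit 21) (.e (nat_lit 57873) (nat_lit 264) (.e (nat_lit 1221) (nat_lit 90) (.e (nat_lit 81930) (nat_lit 20) .nil))))) .nil))) (.nd (nat_lit 5) 
(.lf (nat_lit 160597) (.g (nat_lit 3204) (.e (nat_lit 57437) (nat_lit 17) (.e (nat_lit 376859) (nat_lit 21) (.e (nat_lit 57683) (nat_lit 155) (.e (nat_lit 122919) (nat_lit 15) (.e (nat_lit 360451) (nat_lit 0) (.e (nat_lit 7261) (nat_lit 384) .nil)))))) (.g (nat_lit 5) .nil .nil))) 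
(.lf (nat_lit 160629) (.g (nat_lit 1386) (.e (nat_lit 57437) (nat_lit 17) (.e (nat_lit 376865) (nat_lit 22) (.e (nat_lit 90128) (nat_lit 9) (.e (nat_lit 344) (nat_lit 27) .nil)))) .nil)))) (.nd (nat_lit 4) (.nd (nat_lit 5) 
(.lf (nat_lit 160589) (.g (nat_lit 2699) (.e (nat_lit 57437) (nat_lit 17) (.e (nat_lit 376859) (nat_lit 21) (.e (nat_lit 57655) (nat_lit 152) (.e (nat_lit 1216) (nat_lit 90) (.e (nat_lit 81959) (nat_lit 24) (.e (nat_lit 130816) (nat_lit 154) .nil)))))) (.g (nat_lit 5) .nil .nil))) 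
(.lf (nat_lit 160621) (.g (nat_lit 701) (.e (nat_lit 57437) (nat_lit 17) (.e (nat_lit 376860) (nat_lit 21) (.e (nat_lit 57910) (nat_lit 278) .nil))) .nil))) (.nd (nat_lit 5) 
(.lf (nat_lit 160605) (.g (nat_lit 1754) (.e (nat_lit 57437) (nat_lit 17) (.e (nat_lit 376859) (nat_lit 21) (.e (nat_lit 57872) (nat_lit 264) (.e (nat_lit 1221) (nat_lit 90) (.e (nat_lit 81929) (nat_lit 20) (.e (nat_lit 1106) (nat_lit 81) (.e (nat_lit 5936) (nat_lit 322) .nil))))))) (.g (nat_lit 4) .nil .nil))) 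
(.lf (nat_lit 160637) (.g (nat_lit 2053) (.e (nat_lit 57437) (nat_lit 17) (.e (nat_lit 376865) (nat_lit 22) (.e (nat_lit 90185) (nat_lit 17) (.e (nat_lit 237585) (nat_lit 1) .nil)))) .nil)))))) (.nd (nat_lit 2) (.nd (nat_lit 3) (.nd (nat_lit 4) (.nd (nat_lit 5) 
(.lf (nat_lit 160579) (.g (nat_lit 3486) (.e (nat_lit 57437) (nat_lit 17) (.e (nat_lit 376842) (nat_lit 11) (.e (nat_lit 426343) (nat_lit 14) (.e (nat_lit 491560) (nat_lit 10) (.e (nat_lit 344090) (nat_lit 18) (.e (nat_lit 7261) (nat_lit 384) .nil)))))) (.g (nat_lit 0) .nil .nil))) 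
(.lf (nat_lit 160611) (.g (nat_lit 2466) (.e (nat_lit 57437) (nat_lit 17) (.e (nat_lit 376859) (nat_lit 21) (.e (nat_lit 57872) (nat_lit 264) (.e (nat_lit 1221) (nat_lit 90) (.e (nat_lit 81959) (nat_lit 24) (.e (nat_lit 130816) (nat_lit 266) .nil)))))) (.g (nat_lit 5) .nil .nil)))) (.nd (nat_lit 5) 
(.lf (nat_lit 160595) (.g (nat_lit 1983) (.e (nat_lit 57437) (nat_lit 17) (.e (nat_lit 376859) (nat_lit 21) (.e (nat_lit 57683) (nat_lit 155) (.e (nat_lit 122917) (nat_lit 15) (.e (nat_lit 360456) (nat_lit 0) .nil))))) .nil)) 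
(.lf (nat_lit 160627) (.g (nat_lit 1390) (.e (nat_lit 57437) (nat_lit 17) (.e (nat_lit 376865) (nat_lit 22) (.e (nat_lit 90128) (nat_lit 9) (.e (nat_lit 338) (nat_lit 27) .nil)))) .nil)))) (.nd (nat_lit 4) (.nd (nat_lit 5) 
(.lf (nat_lit 160587) (.g (nat_lit 2543) (.e (nat_lit 57437) (nat_lit 17) (.e (nat_lit 376855) (nat_lit 20) (.e (nat_lit 2276) (nat_lit 150) (.e (nat_lit 770074) (nat_lit 10) (.e (nat_lit 81959) (nat_lit 24) (.e (nat_lit 130816) (nat_lit 154) .nil)))))) (.g (nat_lit 5) .nil .nil))) 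
(.lf (nat_lit 160619) (.g (nat_lit 604) (.e (nat_lit 57437) (nat_lit 17) (.e (nat_lit 376860) (nat_lit 21) (.e (nat_lit 57832) (nat_lit 250) .nil))) .nil))) (.nd (nat_lit 5) 
(.lf (nat_lit 160603) (.g (nat_lit 2137) (.e (nat_lit 57437) (nat_lit 17) (.e (nat_lit 376859) (nat_lit 21) (.e (nat_lit 57872) (nat_lit 264) (.e (nat_lit 1219) (nat_lit 90) (.e (nat_lit 81935) (nat_lit 20) (.e (nat_lit 973) (nat_lit 81) (.e (nat_lit 5941) (nat_lit 322) .nil))))))) (.g (nat_lit 5) .nil .nil))) 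
(.lf (nat_lit 160635) (.g (nat_lit 1529) (.e (nat_lit 57437) (nat_lit 17) (.e (nat_lit 376865) (nat_lit 22) (.e (nat_lit 90160) (nat_lit 11) (.e (nat_lit 24667) (nat_lit 15) .nil)))) .nil))))) (.nd (nat_lit 3) (.nd (nat_lit 4) (.nd (nat_lit 5) 
(.lf (nat_lit 160583) (.g (nat_lit 3259) (.e (nat_lit 57437) (nat_lit 17) (.e (nat_lit 376842) (nat_lit 11) (.e (nat_lit 426344) (nat_lit 14) (.e (nat_lit 491560) (nat_lit 10) (.e (nat_lit 344095) (nat_lit 18) (.e (nat_lit 7261) (nat_lit 384) .nil)))))) (.g (nat_lit 4) .nil .nil))) 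
(.lf (nat_lit 160615) (.g (nat_lit 1519) (.e (nat_lit 57437) (nat_lit 17) (.e (nat_lit 376859) (nat_lit 21) (.e (nat_lit 57931) (nat_lit 282) (.e (nat_lit 163937) (nat_lit 18) .nil)))) .nil))) (.nd (nat_lit 5) 
(.lf (nat_lit 160599) (.g (nat_lit 1684) (.e (nat_lit 57437) (nat_lit 17) (.e (nat_lit 376859) (nat_lit 21) (.e (nat_lit 57684) (nat_lit 155) (.e (nat_lit 122917) (nat_lit 15) (.e (nat_lit 360457) (nat_lit 0) (.e (nat_lit 7936) (nat_lit 384) .nil)))))) (.g (nat_lit 4) .nil .nil))) 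
(.lf (nat_lit 160631) (.g (nat_lit 615) (.e (nat_lit 57437) (nat_lit 17) (.e (nat_lit 376865) (nat_lit 22) (.e (nat_lit 90158) (nat_lit 11) .nil))) .nil)))) (.nd (nat_lit 4) (.nd (nat_lit 5) 
(.lf (nat_lit 160591) (.g (nat_lit 2986) (.e (nat_lit 57437) (nat_lit 17) (.e (nat_lit 376859) (nat_lit 21) (.e (nat_lit 57681) (nat_lit 155) (.e (nat_lit 122919) (nat_lit 15) (.e (nat_lit 360450) (nat_lit 0) (.e (nat_lit 7261) (nat_lit 384) .nil)))))) (.g (nat_lit 4) .nil .nil))) 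
(.lf (nat_lit 160623) (.g (nat_lit 1590) (.e (nat_lit 57437) (nat_lit 17) (.e (nat_lit 376860) (nat_lit 21) (.e (nat_lit 57931) (nat_lit 282) (.e (nat_lit 164084) (nat_lit 73) .nil)))) .nil))) (.nd (nat_lit 5) 
(.lf (nat_lit 160607) (.g (nat_lit 1589) (.e (nat_lit 57437) (nat_lit 17) (.e (nat_lit 376859) (nat_lit 21) (.e (nat_lit 57872) (nat_lit 264) (.e (nat_lit 1221) (nat_lit 90) (.e (nat_lit 81930) (nat_lit 20) .nil))))) .nil)) 
(.lf (nat_lit 160639) (.g (nat_lit 2150) (.e (nat_lit 57437) (nat_lit 17) (.e (nat_lit 376869) (nat_lit 23) (.e (nat_lit 98313) (nat_lit 9) (.e (nat_lit 335996) (nat_lit 1) (.e (nat_lit 57854) (nat_lit 252) (.e (nat_lit 65280) (nat_lit 62) (.e (nat_lit 164399) (nat_lit 256) .nil))))))) (.g (nat_lit 5) .nil .nil)))))))))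

noncomputable def tv2151 : DT := (.nd (nat_lit 0) (.nd (nat_lit 1) (.nd (nat_lit 2) (.nd (nat_lit 3) (.nd (nat_lit 4) (.nd (nat_lit 5) (.nd (nat_lit 6) 
(.lf (nat_lit 160640) (.g (nat_lit 373) (.e (nat_lit 57437) (nat_lit 17) (.e (nat_lit 376869) (nat_lit 23) (.e (nat_lit 98384) (nat_lit 32) .nil))) .nil)) 
(.lf (nat_lit 160704) (.g (nat_lit 2140) (.e (nat_lit 57440) (nat_lit 18) (.e (nat_lit 385066) (nat_lit 26) (.e (nat_lit 532533) (nat_lit 9) (.e (nat_lit 336211) (nat_lit 13) (.e (nat_lit 393252) (nat_lit 18) (.e (nat_lit 164176) (nat_lit 154) .nil)))))) (.g (nat_lit 5) .nil .nil)))) (.nd (nat_lit 6) 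
(.lf (nat_lit 160672) (.g (nat_lit 2257) (.e (nat_lit 57438) (nat_lit 17) (.e (nat_lit 376842) (nat_lit 11) (.e (nat_lit 426308) (nat_lit 12) (.e (nat_lit 475212) (nat_lit 42) (.e (nat_lit 720929) (nat_lit 21) (.e (nat_lit 57847) (nat_lit 252) .nil)))))) (.g (nat_lit 4) .nil .nil))) 
(.lf (nat_lit 160736) (.g (nat_lit 1841) (.e (nat_lit 57440) (nat_lit 18) (.e (nat_lit 385068) (nat_lit 26) (.e (nat_lit 532534) (nat_lit 9) (.e (nat_lit 336211) (nat_lit 13) (.e (nat_lit 393254) (nat_lit 18) (.e (nat_lit 164177) (nat_lit 154) .nil)))))) (.g (nat_lit 4) .nil .nil))))) (.nd (nat_lit 5) (.nd (nat_lit 6) 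
(.lf (nat_lit 160656) (.g (nat_lit 2101) (.e (nat_lit 57438) (nat_lit 17) (.e (nat_lit 376842) (nat_lit 11) (.e (nat_lit 426011) (nat_lit 0) (.e (nat_lit 7593) (nat_lit 407) .nil)))) .nil)) 
(.lf (nat_lit 160720) (.g (nat_lit 3044) (.e (nat_lit 57440) (nat_lit 18) (.e (nat_lit 385066) (nat_lit 26) (.e (nat_lit 532560) (nat_lit 14) (.e (nat_lit 376842) (nat_lit 11) (.e (nat_lit 426107) (nat_lit 1) (.e (nat_lit 164177) (nat_lit 154) .nil)))))) (.g (nat_lit 6) .nil .nil)))) (.nd (nat_lit 6) 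
(.lf (nat_lit 160688) (.g (nat_lit 1719) (.e (nat_lit 57438) (nat_lit 17) (.e (nat_lit 376865) (nat_lit 22) (.e (nat_lit 90160) (nat_lit 11) (.e (nat_lit 32512) (nat_lit 20) .nil)))) .nil)) 
(.lf (nat_lit 160752) (.g (nat_lit 4144) (.e (nat_lit 57440) (nat_lit 18) (.e (nat_lit 385068) (nat_lit 26) (.e (nat_lit 532550) (nat_lit 12) (.e (nat_lit 360451) (nat_lit 0) (.e (nat_lit 7695) (nat_lit 412) (.e (nat_lit 57368) (nat_lit 1) (.e (nat_lit 57854) (nat_lit 252) .nil))))))) (.g (nat_lit 4) .nil .nil)))))) (.nd (nat_lit 4) (.nd (nat_lit 5) (.nd (nat_lit 6) 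
(.lf (nat_lit 160648) (.g (nat_lit 2238) (.e (nat_lit 57437) (nat_lit 17) (.e (nat_lit 376869) (nat_lit 23) (.e (nat_lit 98387) (nat_lit 33) (.e (nat_lit 491566) (nat_lit 12) (.e (nat_lit 385046) (nat_lit 21) (.e (nat_lit 4278) (nat_lit 253) .nil)))))) (.g (nat_lit 4) .nil .nil))) 
(.lf (nat_lit 160712) (.g (nat_lit 2104) (.e (nat_lit 57440) (nat_lit 18) (.e (nat_lit 385066) (nat_lit 26) (.e (nat_lit 532558) (nat_lit 14) (.e (nat_lit 376842) (nat_lit 11) (.e (nat_lit 426097) (nat_lit 1) .nil))))) .nil))) (.nd (nat_lit 6) 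
(.lf (nat_lit 160680) (.g (nat_lit 1965) (.e (nat_lit 57438) (nat_lit 17) (.e (nat_lit 376842) (nat_lit 11) (.e (nat_lit 426343) (nat_lit 14) (.e (nat_lit 491560) (nat_lit 10) .nil)))) .nil)) 
(.lf (nat_lit 160744) (.g (nat_lit 866) (.e (nat_lit 57440) (nat_lit 18) (.e (nat_lit 385068) (nat_lit 26) (.e (nat_lit 532547) (nat_lit 11) .nil))) .nil)))) (.nd (nat_lit 5) (.nd (nat_lit 6) 
(.lf (nat_lit 160664) (.g (nat_lit 1980) (.e (nat_lit 57438) (nat_lit 17) (.e (nat_lit 376842) (nat_lit 11) (.e (nat_lit 426190) (nat_lit 9) (.e (nat_lit 426448) (nat_lit 20) (.e (nat_lit 114710) (nat_lit 21) .nil))))) .nil)) 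
(.lf (nat_lit 160728) (.g (nat_lit 2748) (.e (nat_lit 57440) (nat_lit 18) (.e (nat_lit 385068) (nat_lit 26) (.e (nat_lit 532533) (nat_lit 9) (.e (nat_lit 336211) (nat_lit 13) (.e (nat_lit 393251) (nat_lit 18) (.e (nat_lit 164179) (nat_lit 154) .nil)))))) (.g (nat_lit 0) .nil .nil)))) (.nd (nat_lit 6) 
(.lf (nat_lit 160696) (.g (nat_lit 2216) (.e (nat_lit 57439) (nat_lit 18) (.e (nat_lit 385068) (nat_lit 26) (.e (nat_lit 532560) (nat_lit 14) (.e (nat_lit 376842) (nat_lit 11) (.e (nat_lit 426098) (nat_lit 1) .nil))))) .nil)) 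
(.lf (nat_lit 160760) (.g (nat_lit 2040) (.e (nat_lit 57440) (nat_lit 18) (.e (nat_lit 385068) (nat_lit 26) (.e (nat_lit 532558) (nat_lit 14) (.e (nat_lit 376842) (nat_lit 11) (.e (nat_lit 426107) (nat_lit 1) (.e (nat_lit 164178) (nat_lit 154) .nil)))))) (.g (nat_lit 4) .nil .nil))))))) (.nd (nat_lit 3) (.nd (nat_lit 4) (.nd (nat_lit 5) (.nd (nat_lit 6) 
(.lf (nat_lit 160644) (.g (nat_lit 2253) (.e (nat_lit 57437) (nat_lit 17) (.e (nat_lit 376869) (nat_lit 23) (.e (nat_lit 98387) (nat_lit 33) (.e (nat_lit 491566) (nat_lit 12) (.e (nat_lit 385045) (nat_lit 21) (.e (nat_lit 4278) (nat_lit 253) .nil)))))) (.g (nat_lit 4) .nil .nil))) 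
(.lf (nat_lit 160708) (.g (nat_lit 3041) (.e (nat_lit 57440) (nat_lit 18) (.e (nat_lit 385066) (nat_lit 26) (.e (nat_lit 532534) (nat_lit 9) (.e (nat_lit 336211) (nat_lit 13) (.e (nat_lit 393253) (nat_lit 18) (.e (nat_lit 164177) (nat_lit 154) .nil)))))) (.g (nat_lit 6) .nil .nil)))) (.nd (nat_lit 6) 
(.lf (nat_lit 160676) (.g (nat_lit 2254) (.e (nat_lit 57438) (nat_lit 17) (.e (nat_lit 376842) (nat_lit 11) (.e (nat_lit 426315) (nat_lit 12) (.e (nat_lit 475214) (nat_lit 42) (.e (nat_lit 720929) (nat_lit 21) .nil))))) .nil)) 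
(.lf (nat_lit 160740) (.g (nat_lit 2151) (.e (nat_lit 57440) (nat_lit 18) (.e (nat_lit 385068) (nat_lit 26) (.e (nat_lit 532535) (nat_lit 9) (.e (nat_lit 336226) (nat_lit 14) .nil)))) .nil)))) (.nd (nat_lit 5) (.nd (nat_lit 6) 
(.lf (nat_lit 160660) (.g (nat_lit 1683) (.e (nat_lit 57438) (nat_lit 17) (.e (nat_lit 376842) (nat_lit 11) (.e (nat_lit 426188) (nat_lit 9) .nil))) .nil)) 
(.lf (nat_lit 160724) (.g (nat_lit 2196) (.e (nat_lit 57440) (nat_lit 18) (.e (nat_lit 385068) (nat_lit 26) (.e (nat_lit 532530) (nat_lit 9) (.e (nat_lit 336211) (nat_lit 13) (.e (nat_lit 393253) (nat_lit 18) (.e (nat_lit 164177) (nat_lit 154) .nil)))))) (.g (nat_lit 4) .nil .nil)))) (.nd (nat_lit 6) 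
(.lf (nat_lit 160692) (.g (nat_lit 1908) (.e (nat_lit 57439) (nat_lit 18) (.e (nat_lit 385068) (nat_lit 26) (.e (nat_lit 532534) (nat_lit 9) (.e (nat_lit 336211) (nat_lit 13) .nil)))) .nil)) 
(.lf (nat_lit 160756) (.g (nat_lit 2244) (.e (nat_lit 57440) (nat_lit 18) (.e (nat_lit 385068) (nat_lit 26) (.e (nat_lit 532558) (nat_lit 14) (.e (nat_lit 376842) (nat_lit 11) (.e (nat_lit 426098) (nat_lit 1) (.e (nat_lit 164177) (nat_lit 154) .nil)))))) (.g (nat_lit 5) .nil .nil)))))) (.nd (nat_lit 4) (.nd (nat_lit 5) (.nd (nat_lit 6) 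
(.lf (nat_lit 160652) (.g (nat_lit 2051) (.e (nat_lit 57437) (nat_lit 17) (.e (nat_lit 376869) (nat_lit 23) (.e (nat_lit 98389) (nat_lit 33) (.e (nat_lit 491560) (nat_lit 10) (.e (nat_lit 344089) (nat_lit 18) .nil))))) .nil)) 
(.lf (nat_lit 160716) (.g (nat_lit 2577) (.e (nat_lit 57440) (nat_lit 18) (.e (nat_lit 385066) (nat_lit 26) (.e (nat_lit 532558) (nat_lit 14) (.e (nat_lit 376842) (nat_lit 11) (.e (nat_lit 426108) (nat_lit 1) (.e (nat_lit 164176) (nat_lit 154) .nil)))))) (.g (nat_lit 5) .nil .nil)))) (.nd (nat_lit 6) 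
(.lf (nat_lit 160684) (.g (nat_lit 1552) (.e (nat_lit 57438) (nat_lit 17) (.e (nat_lit 376859) (nat_lit 21) (.e (nat_lit 57681) (nat_lit 155) (.e (nat_lit 122919) (nat_lit 15) .nil)))) .nil)) 
(.lf (nat_lit 160748) (.g (nat_lit 4456) (.e (nat_lit 57440) (nat_lit 18) (.e (nat_lit 385068) (nat_lit 26) (.e (nat_lit 532550) (nat_lit 12) (.e (nat_lit 360450) (nat_lit 0) (.e (nat_lit 7697) (nat_lit 412) .nil))))) .nil)))) (.nd (nat_lit 5) (.nd (nat_lit 6) 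
(.lf (nat_lit 160668) (.g (nat_lit 1534) (.e (nat_lit 57438) (nat_lit 17) (.e (nat_lit 376842) (nat_lit 11) (.e (nat_lit 426198) (nat_lit 9) (.e (nat_lit 426448) (nat_lit 20) .nil)))) .nil)) 
(.lf (nat_lit 160732) (.g (nat_lit 2430) (.e (nat_lit 57440) (nat_lit 18) (.e (nat_lit 385068) (nat_lit 26) (.e (nat_lit 532534) (nat_lit 9) (.e (nat_lit 336211) (nat_lit 13) (.e (nat_lit 393251) (nat_lit 18) (.e (nat_lit 164177) (nat_lit 154) .nil)))))) (.g (nat_lit 5) .nil .nil)))) (.nd (nat_lit 6) 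
(.lf (nat_lit 160700) (.g (nat_lit 2313) (.e (nat_lit 57439) (nat_lit 18) (.e (nat_lit 385068) (nat_lit 26) (.e (nat_lit 532560) (nat_lit 14) (.e (nat_lit 376842) (nat_lit 11) (.e (nat_lit 426108) (nat_lit 1) .nil))))) .nil)) 
(.lf (nat_lit 160764) (.g (nat_lit 2652) (.e (nat_lit 57440) (nat_lit 18) (.e (nat_lit 385068) (nat_lit 26) (.e (nat_lit 532560) (nat_lit 14) (.e (nat_lit 376842) (nat_lit 11) (.e (nat_lit 426098) (nat_lit 1) (.e (nat_lit 164177) (nat_lit 154) .nil)))))) (.g (nat_lit 5) .nil .nil)))))))) (.nd (nat_lit 2) (.nd (nat_lit 3) (.nd (nat_lit 4) (.nd (nat_lit 5) (.nd (nat_lit 6) 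
(.lf (nat_lit 160642) (.g (nat_lit 3123) (.e (nat_lit 57437) (nat_lit 17) (.e (nat_lit 376869) (nat_lit 23) (.e (nat_lit 98387) (nat_lit 33) (.e (nat_lit 491566) (nat_lit 12) (.e (nat_lit 385043) (nat_lit 21) (.e (nat_lit 4280) (nat_lit 253) .nil)))))) (.g (nat_lit 4) .nil .nil))) 
(.lf (nat_lit 160706) (.g (nat_lit 1131) (.e (nat_lit 57440) (nat_lit 18) (.e (nat_lit 385066) (nat_lit 26) (.e (nat_lit 532533) (nat_lit 9) (.e (nat_lit 336211) (nat_lit 13) (.e (nat_lit 393254) (nat_lit 18) .nil))))) .nil))) (.nd (nat_lit 6) 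
(.lf (nat_lit 160674) (.g (nat_lit 929) (.e (nat_lit 57438) (nat_lit 17) (.e (nat_lit 376842) (nat_lit 11) (.e (nat_lit 426315) (nat_lit 12) .nil))) .nil)) 
(.lf (nat_lit 160738) (.g (nat_lit 3003) (.e (nat_lit 57440) (nat_lit 18) (.e (nat_lit 385068) (nat_lit 26) (.e (nat_lit 532535) (nat_lit 9) (.e (nat_lit 336219) (nat_lit 13) (.e (nat_lit 393251) (nat_lit 18) (.e (nat_lit 164177) (nat_lit 154) .nil)))))) (.g (nat_lit 4) .nil .nil))))) (.nd (nat_lit 5) (.nd (nat_lit 6) 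
(.lf (nat_lit 160658) (.g (nat_lit 1188) (.e (nat_lit 57438) (nat_lit 17) (.e (nat_lit 376842) (nat_lit 11) (.e (nat_lit 426187) (nat_lit 9) .nil))) .nil)) 
(.lf (nat_lit 160722) (.g (nat_lit 1554) (.e (nat_lit 57440) (nat_lit 18) (.e (nat_lit 385068) (nat_lit 26) (.e (nat_lit 532515) (nat_lit 3) (.e (nat_lit 114723) (nat_lit 24) .nil)))) .nil))) (.nd (nat_lit 6) 
(.lf (nat_lit 160690) (.g (nat_lit 1462) (.e (nat_lit 57439) (nat_lit 18) (.e (nat_lit 385066) (nat_lit 26) (.e (nat_lit 532534) (nat_lit 9) (.e (nat_lit 336211) (nat_lit 13) .nil)))) .nil)) 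
(.lf (nat_lit 160754) (.g (nat_lit 3987) (.e (nat_lit 57440) (nat_lit 18) (.e (nat_lit 385068) (nat_lit 26) (.e (nat_lit 532550) (nat_lit 12) (.e (nat_lit 360451) (nat_lit 0) (.e (nat_lit 7697) (nat_lit 412) (.e (nat_lit 57366) (nat_lit 1) (.e (nat_lit 57847) (nat_lit 252) .nil))))))) (.g (nat_lit 4) .nil .nil)))))) (.nd (nat_lit 4) (.nd (nat_lit 5) (.nd (nat_lit 6) 
(.lf (nat_lit 160650) (.g (nat_lit 3175) (.e (nat_lit 57437) (nat_lit 17) (.e (nat_lit 376869) (nat_lit 23) (.e (nat_lit 98387) (nat_lit 33) (.e (nat_lit 491566) (nat_lit 12) (.e (nat_lit 385051) (nat_lit 21) (.e (nat_lit 4278) (nat_lit 253) .nil)))))) (.g (nat_lit 4) .nil .nil))) 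
(.lf (nat_lit 160714) (.g (nat_lit 2100) (.e (nat_lit 57440) (nat_lit 18) (.e (nat_lit 385066) (nat_lit 26) (.e (nat_lit 532558) (nat_lit 14) (.e (nat_lit 376842) (nat_lit 11) (.e (nat_lit 426105) (nat_lit 1) .nil))))) .nil))) (.nd (nat_lit 6) 
(.lf (nat_lit 160682) (.g (nat_lit 634) (.e (nat_lit 57438) (nat_lit 17) (.e (nat_lit 376857) (nat_lit 21) (.e (nat_lit 57682) (nat_lit 155) .nil))) .nil)) 
(.lf (nat_lit 160746) (.g (nat_lit 866) (.e (nat_lit 57440) (nat_lit 18) (.e (nat_lit 385068) (nat_lit 26) (.e (nat_lit 532549) (nat_lit 12) .nil))) .nil)))) (.nd (nat_lit 5) (.nd (nat_lit 6) 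
(.lf (nat_lit 160666) (.g (nat_lit 1194) (.e (nat_lit 57438) (nat_lit 17) (.e (nat_lit 376842) (nat_lit 11) (.e (nat_lit 426197) (nat_lit 9) (.e (nat_lit 426448) (nat_lit 20) .nil)))) .nil)) 
(.lf (nat_lit 160730) (.g (nat_lit 2332) (.e (nat_lit 57440) (nat_lit 18) (.e (nat_lit 385068) (nat_lit 26) (.e (nat_lit 532533) (nat_lit 9) (.e (nat_lit 336211) (nat_lit 13) (.e (nat_lit 393254) (nat_lit 18) (.e (nat_lit 164179) (nat_lit 154) .nil)))))) (.g (nat_lit 0) .nil .nil)))) (.nd (nat_lit 6) 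
(.lf (nat_lit 160698) (.g (nat_lit 2332) (.e (nat_lit 57439) (nat_lit 18) (.e (nat_lit 385068) (nat_lit 26) (.e (nat_lit 532560) (nat_lit 14) (.e (nat_lit 376842) (nat_lit 11) (.e (nat_lit 426106) (nat_lit 1) .nil))))) .nil)) 
(.lf (nat_lit 160762) (.g (nat_lit 1176) (.e (nat_lit 57440) (nat_lit 18) (.e (nat_lit 385068) (nat_lit 26) (.e (nat_lit 532560) (nat_lit 14) (.e (nat_lit 376838) (nat_lit 11) .nil)))) .nil)))))) (.nd (nat_lit 3) (.nd (nat_lit 4) (.nd (nat_lit 5) (.nd (nat_lit 6) 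
(.lf (nat_lit 160646) (.g (nat_lit 2886) (.e (nat_lit 57437) (nat_lit 17) (.e (nat_lit 376869) (nat_lit 23) (.e (nat_lit 98387) (nat_lit 33) (.e (nat_lit 491566) (nat_lit 12) (.e (nat_lit 385045) (nat_lit 21) (.e (nat_lit 4280) (nat_lit 253) .nil)))))) (.g (nat_lit 4) .nil .nil))) 
(.lf (nat_lit 160710) (.g (nat_lit 764) (.e (nat_lit 57440) (nat_lit 18) (.e (nat_lit 385066) (nat_lit 26) (.e (nat_lit 532546) (nat_lit 11) (.e (nat_lit 352277) (nat_lit 11) .nil)))) .nil))) (.nd (nat_lit 6) 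
(.lf (nat_lit 160678) (.g (nat_lit 2705) (.e (nat_lit 57438) (nat_lit 17) (.e (nat_lit 376842) (nat_lit 11) (.e (nat_lit 426343) (nat_lit 14) (.e (nat_lit 491558) (nat_lit 10) (.e (nat_lit 344091) (nat_lit 18) .nil))))) .nil)) 
(.lf (nat_lit 160742) (.g (nat_lit 3182) (.e (nat_lit 57440) (nat_lit 18) (.e (nat_lit 385068) (nat_lit 26) (.e (nat_lit 532542) (nat_lit 9) (.e (nat_lit 336213) (nat_lit 13) (.e (nat_lit 393251) (nat_lit 18) (.e (nat_lit 164177) (nat_lit 154) .nil)))))) (.g (nat_lit 5) .nil .nil))))) (.nd (nat_lit 5) (.nd (nat_lit 6) 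
(.lf (nat_lit 160662) (.g (nat_lit 1497) (.e (nat_lit 57438) (nat_lit 17) (.e (nat_lit 376842) (nat_lit 11) (.e (nat_lit 426190) (nat_lit 9) (.e (nat_lit 426446) (nat_lit 20) .nil)))) .nil)) 
(.lf (nat_lit 160726) (.g (nat_lit 2179) (.e (nat_lit 57440) (nat_lit 18) (.e (nat_lit 385068) (nat_lit 26) (.e (nat_lit 532530) (nat_lit 9) (.e (nat_lit 336211) (nat_lit 13) (.e (nat_lit 393254) (nat_lit 18) .nil))))) .nil))) (.nd (nat_lit 6) 
(.lf (nat_lit 160694) (.g (nat_lit 1639) (.e (nat_lit 57439) (nat_lit 18) (.e (nat_lit 385068) (nat_lit 26) (.e (nat_lit 532558) (nat_lit 14) (.e (nat_lit 376842) (nat_lit 11) .nil)))) .nil)) 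
(.lf (nat_lit 160758) (.g (nat_lit 2133) (.e (nat_lit 57440) (nat_lit 18) (.e (nat_lit 385068) (nat_lit 26) (.e (nat_lit 532558) (nat_lit 14) (.e (nat_lit 376842) (nat_lit 11) (.e (nat_lit 426105) (nat_lit 1) .nil))))) .nil))))) (.nd (nat_lit 4) (.nd (nat_lit 5) (.nd (nat_lit 6) 
(.lf (nat_lit 160654) (.g (nat_lit 2135) (.e (nat_lit 57438) (nat_lit 17) (.e (nat_lit 376842) (nat_lit 11) (.e (nat_lit 426011) (nat_lit 0) (.e (nat_lit 7591) (nat_lit 407) .nil)))) .nil)) 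
(.lf (nat_lit 160718) (.g (nat_lit 1848) (.e (nat_lit 57440) (nat_lit 18) (.e (nat_lit 385066) (nat_lit 26) (.e (nat_lit 532560) (nat_lit 14) (.e (nat_lit 376838) (nat_lit 11) (.e (nat_lit 426107) (nat_lit 1) (.e (nat_lit 164179) (nat_lit 154) .nil)))))) (.g (nat_lit 4) .nil .nil)))) (.nd (nat_lit 6) 
(.lf (nat_lit 160686) (.g (nat_lit 1281) (.e (nat_lit 57438) (nat_lit 17) (.e (nat_lit 376862) (nat_lit 22) (.e (nat_lit 90160) (nat_lit 11) (.e (nat_lit 32512) (nat_lit 20) .nil)))) .nil)) 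
(.lf (nat_lit 160750) (.g (nat_lit 4073) (.e (nat_lit 57440) (nat_lit 18) (.e (nat_lit 385068) (nat_lit 26) (.e (nat_lit 532550) (nat_lit 12) (.e (nat_lit 360451) (nat_lit 0) (.e (nat_lit 7695) (nat_lit 412) (.e (nat_lit 57366) (nat_lit 1) (.e (nat_lit 57847) (nat_lit 252) .nil))))))) (.g (nat_lit 4) .nil .nil))))) (.nd (nat_lit 5) (.nd (nat_lit 6) 
(.lf (nat_lit 160670) (.g (nat_lit 806) (.e (nat_lit 57438) (nat_lit 17) (.e (nat_lit 376842) (nat_lit 11) (.e (nat_lit 426200) (nat_lit 9) .nil))) .nil)) 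
(.lf (nat_lit 160734) (.g (nat_lit 2239) (.e (nat_lit 57440) (nat_lit 18) (.e (nat_lit 385068) (nat_lit 26) (.e (nat_lit 532534) (nat_lit 9) (.e (nat_lit 336211) (nat_lit 13) (.e (nat_lit 393253) (nat_lit 18) (.e (nat_lit 164178) (nat_lit 154) .nil)))))) (.g (nat_lit 5) .nil .nil)))) (.nd (nat_lit 6) 
(.lf (nat_lit 160702) (.g (nat_lit 3654) (.e (nat_lit 57439) (nat_lit 18) (.e (nat_lit 385074) (nat_lit 31) (.e (nat_lit 573484) (nat_lit 13) (.e (nat_lit 65617) (nat_lit 10) (.e (nat_lit 344130) (nat_lit 26) .nil))))) .nil)) 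
(.lf (nat_lit 160766) (.g (nat_lit 2390) (.e (nat_lit 57440) (nat_lit 18) (.e (nat_lit 385068) (nat_lit 26) (.e (nat_lit 532560) (nat_lit 14) (.e (nat_lit 376842) (nat_lit 11) (.e (nat_lit 426105) (nat_lit 1) .nil))))) .nil)))))))) (.nd (nat_lit 1) (.nd (nat_lit 2) (.nd (nat_lit 3) (.nd (nat_lit 4) (.nd (nat_lit 5) (.nd (nat_lit 6) 
(.lf (nat_lit 160641) (.g (nat_lit 2351) (.e (nat_lit 57437) (nat_lit 17) (.e (nat_lit 376869) (nat_lit 23) (.e (nat_lit 98387) (nat_lit 33) (.e (nat_lit 491566) (nat_lit 12) (.e (nat_lit 385043) (nat_lit 21) .nil))))) .nil)) 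
(.lf (nat_lit 160705) (.g (nat_lit 2496) (.e (nat_lit 57440) (nat_lit 18) (.e (nat_lit 385066) (nat_lit 26) (.e (nat_lit 532533) (nat_lit 9) (.e (nat_lit 336211) (nat_lit 13) (.e (nat_lit 393253) (nat_lit 18) (.e (nat_lit 164177) (nat_lit 154) .nil)))))) (.g (nat_lit 6) .nil .nil)))) (.nd (nat_lit 6) 
(.lf (nat_lit 160673) (.g (nat_lit 1620) (.e (nat_lit 57438) (nat_lit 17) (.e (nat_lit 376842) (nat_lit 11) (.e (nat_lit 426308) (nat_lit 12) (.e (nat_lit 475214) (nat_lit 42) .nil)))) .nil)) 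
(.lf (nat_lit 160737) (.g (nat_lit 766) (.e (nat_lit 57440) (nat_lit 18) (.e (nat_lit 385068) (nat_lit 26) (.e (nat_lit 532535) (nat_lit 9) .nil))) .nil)))) (.nd (nat_lit 5) (.nd (nat_lit 6) 
(.lf (nat_lit 160657) (.g (nat_lit 2843) (.e (nat_lit 57438) (nat_lit 17) (.e (nat_lit 376842) (nat_lit 11) (.e (nat_lit 426011) (nat_lit 0) (.e (nat_lit 7593) (nat_lit 407) (.e (nat_lit 73729) (nat_lit 0) .nil))))) .nil)) 
(.lf (nat_lit 160721) (.g (nat_lit 1606) (.e (nat_lit 57440) (nat_lit 18) (.e (nat_lit 385066) (nat_lit 26) (.e (nat_lit 532560) (nat_lit 14) (.e (nat_lit 376857) (nat_lit 21) .nil)))) .nil))) (.nd (nat_lit 6) 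
(.lf (nat_lit 160689) (.g (nat_lit 827) (.e (nat_lit 57439) (nat_lit 18) (.e (nat_lit 385066) (nat_lit 26) (.e (nat_lit 532533) (nat_lit 9) (.e (nat_lit 336211) (nat_lit 13) .nil)))) .nil)) 
(.lf (nat_lit 160753) (.g (nat_lit 3973) (.e (nat_lit 57440) (nat_lit 18) (.e (nat_lit 385068) (nat_lit 26) (.e (nat_lit 532550) (nat_lit 12) (.e (nat_lit 360451) (nat_lit 0) (.e (nat_lit 7697) (nat_lit 412) .nil))))) .nil))))) (.nd (nat_lit 4) (.nd (nat_lit 5) (.nd (nat_lit 6) 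
(.lf (nat_lit 160649) (.g (nat_lit 2890) (.e (nat_lit 57437) (nat_lit 17) (.e (nat_lit 376869) (nat_lit 23) (.e (nat_lit 98387) (nat_lit 33) (.e (nat_lit 491566) (nat_lit 12) (.e (nat_lit 385050) (nat_lit 21) .nil))))) .nil)) 
(.lf (nat_lit 160713) (.g (nat_lit 2474) (.e (nat_lit 57440) (nat_lit 18) (.e (nat_lit 385066) (nat_lit 26) (.e (nat_lit 532558) (nat_lit 14) (.e (nat_lit 376842) (nat_lit 11) (.e (nat_lit 426098) (nat_lit 1) (.e (nat_lit 164178) (nat_lit 154) .nil)))))) (.g (nat_lit 5) .nil .nil)))) (.nd (nat_lit 6) 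
(.lf (nat_lit 160681) (.g (nat_lit 3463) (.e (nat_lit 57438) (nat_lit 17) (.e (nat_lit 376857) (nat_lit 21) (.e (nat_lit 57681) (nat_lit 155) (.e (nat_lit 122919) (nat_lit 15) (.e (nat_lit 360451) (nat_lit 0) (.e (nat_lit 7265) (nat_lit 384) .nil)))))) (.g (nat_lit 6) .nil .nil))) 
(.lf (nat_lit 160745) (.g (nat_lit 866) (.e (nat_lit 57440) (nat_lit 18) (.e (nat_lit 385068) (nat_lit 26) (.e (nat_lit 532548) (nat_lit 11) .nil))) .nil)))) (.nd (nat_lit 5) (.nd (nat_lit 6) 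
(.lf (nat_lit 160665) (.g (nat_lit 854) (.e (nat_lit 57438) (nat_lit 17) (.e (nat_lit 376842) (nat_lit 11) (.e (nat_lit 426197) (nat_lit 9) .nil))) .nil)) 
(.lf (nat_lit 160729) (.g (nat_lit 2652) (.e (nat_lit 57440) (nat_lit 18) (.e (nat_lit 385068) (nat_lit 26) (.e (nat_lit 532533) (nat_lit 9) (.e (nat_lit 336211) (nat_lit 13) (.e (nat_lit 393253) (nat_lit 18) (.e (nat_lit 164179) (nat_lit 154) .nil)))))) (.g (nat_lit 0) .nil .nil)))) (.nd (nat_lit 6) 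
(.lf (nat_lit 160697) (.g (nat_lit 2332) (.e (nat_lit 57439) (nat_lit 18) (.e (nat_lit 385068) (nat_lit 26) (.e (nat_lit 532560) (nat_lit 14) (.e (nat_lit 376842) (nat_lit 11) (.e (nat_lit 426100) (nat_lit 1) .nil))))) .nil)) 
(.lf (nat_lit 160761) (.g (nat_lit 868) (.e (nat_lit 57440) (nat_lit 18) (.e (nat_lit 385068) (nat_lit 26) (.e (nat_lit 532559) (nat_lit 14) .nil))) .nil)))))) (.nd (nat_lit 3) (.nd (nat_lit 4) (.nd (nat_lit 5) (.nd (nat_lit 6) 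
(.lf (nat_lit 160645) (.g (nat_lit 2755) (.e (nat_lit 57437) (nat_lit 17) (.e (nat_lit 376869) (nat_lit 23) (.e (nat_lit 98387) (nat_lit 33) (.e (nat_lit 491566) (nat_lit 12) (.e (nat_lit 385045) (nat_lit 21) (.e (nat_lit 4279) (nat_lit 253) .nil)))))) (.g (nat_lit 4) .nil .nil))) 
(.lf (nat_lit 160709) (.g (nat_lit 1703) (.e (nat_lit 57440) (nat_lit 18) (.e (nat_lit 385066) (nat_lit 26) (.e (nat_lit 532534) (nat_lit 9) (.e (nat_lit 336211) (nat_lit 13) (.e (nat_lit 393254) (nat_lit 18) .nil))))) .nil))) (.nd (nat_lit 6) 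
(.lf (nat_lit 160677) (.g (nat_lit 1990) (.e (nat_lit 57438) (nat_lit 17) (.e (nat_lit 376842) (nat_lit 11) (.e (nat_lit 426343) (nat_lit 14) (.e (nat_lit 491558) (nat_lit 10) .nil)))) .nil)) 
(.lf (nat_lit 160741) (.g (nat_lit 741) (.e (nat_lit 57440) (nat_lit 18) (.e (nat_lit 385068) (nat_lit 26) (.e (nat_lit 532542) (nat_lit 9) .nil))) .nil)))) (.nd (nat_lit 5) (.nd (nat_lit 6) 
(.lf (nat_lit 160661) (.g (nat_lit 3439) (.e (nat_lit 57438) (nat_lit 17) (.e (nat_lit 376842) (nat_lit 11) (.e (nat_lit 426188) (nat_lit 9) (.e (nat_lit 426448) (nat_lit 20) .nil)))) .nil)) 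
(.lf (nat_lit 160725) (.g (nat_lit 2223) (.e (nat_lit 57440) (nat_lit 18) (.e (nat_lit 385068) (nat_lit 26) (.e (nat_lit 532530) (nat_lit 9) (.e (nat_lit 336211) (nat_lit 13) (.e (nat_lit 393253) (nat_lit 18) (.e (nat_lit 164178) (nat_lit 154) .nil)))))) (.g (nat_lit 4) .nil .nil)))) (.nd (nat_lit 6) 
(.lf (nat_lit 160693) (.g (nat_lit 1708) (.e (nat_lit 57439) (nat_lit 18) (.e (nat_lit 385068) (nat_lit 26) (.e (nat_lit 532542) (nat_lit 9) (.e (nat_lit 336213) (nat_lit 13) .nil)))) .nil)) 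
(.lf (nat_lit 160757) (.g (nat_lit 1664) (.e (nat_lit 57440) (nat_lit 18) (.e (nat_lit 385068) (nat_lit 26) (.e (nat_lit 532558) (nat_lit 14) (.e (nat_lit 376842) (nat_lit 11) (.e (nat_lit 426100) (nat_lit 1) .nil))))) .nil))))) (.nd (nat_lit 4) (.nd (nat_lit 5) (.nd (nat_lit 6) 
(.lf (nat_lit 160653) (.g (nat_lit 1285) (.e (nat_lit 57438) (nat_lit 17) (.e (nat_lit 376841) (nat_lit 11) (.e (nat_lit 426190) (nat_lit 9) (.e (nat_lit 426448) (nat_lit 20) (.e (nat_lit 114710) (nat_lit 21) .nil))))) .nil)) 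
(.lf (nat_lit 160717) (.g (nat_lit 1415) (.e (nat_lit 57440) (nat_lit 18) (.e (nat_lit 385066) (nat_lit 26) (.e (nat_lit 532558) (nat_lit 14) (.e (nat_lit 376857) (nat_lit 21) .nil)))) .nil))) (.nd (nat_lit 6) 
(.lf (nat_lit 160685) (.g (nat_lit 994) (.e (nat_lit 57438) (nat_lit 17) (.e (nat_lit 376862) (nat_lit 22) (.e (nat_lit 90158) (nat_lit 11) (.e (nat_lit 32512) (nat_lit 20) .nil)))) .nil)) 
(.lf (nat_lit 160749) (.g (nat_lit 3871) (.e (nat_lit 57440) (nat_lit 18) (.e (nat_lit 385068) (nat_lit 26) (.e (nat_lit 532550) (nat_lit 12) (.e (nat_lit 360450) (nat_lit 0) (.e (nat_lit 7936) (nat_lit 412) .nil))))) .nil)))) (.nd (nat_lit 5) (.nd (nat_lit 6) 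
(.lf (nat_lit 160669) (.g (nat_lit 2000) (.e (nat_lit 57438) (nat_lit 17) (.e (nat_lit 376842) (nat_lit 11) (.e (nat_lit 426198) (nat_lit 9) (.e (nat_lit 426448) (nat_lit 20) (.e (nat_lit 114711) (nat_lit 21) .nil))))) .nil)) 
(.lf (nat_lit 160733) (.g (nat_lit 1780) (.e (nat_lit 57440) (nat_lit 18) (.e (nat_lit 385068) (nat_lit 26) (.e (nat_lit 532534) (nat_lit 9) (.e (nat_lit 336211) (nat_lit 13) (.e (nat_lit 393252) (nat_lit 18) (.e (nat_lit 164176) (nat_lit 154) .nil)))))) (.g (nat_lit 4) .nil .nil)))) (.nd (nat_lit 6) 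
(.lf (nat_lit 160701) (.g (nat_lit 3141) (.e (nat_lit 57439) (nat_lit 18) (.e (nat_lit 385074) (nat_lit 31) (.e (nat_lit 573484) (nat_lit 13) (.e (nat_lit 65617) (nat_lit 10) .nil)))) .nil)) 
(.lf (nat_lit 160765) (.g (nat_lit 2014) (.e (nat_lit 57440) (nat_lit 18) (.e (nat_lit 385068) (nat_lit 26) (.e (nat_lit 532560) (nat_lit 14) (.e (nat_lit 376842) (nat_lit 11) (.e (nat_lit 426098) (nat_lit 1) (.e (nat_lit 164178) (nat_lit 154) .nil)))))) (.g (nat_lit 4) .nil .nil)))))))) (.nd (nat_lit 2) (.nd (nat_lit 3) (.nd (nat_lit 4) (.nd (nat_lit 5) (.nd (nat_lit 6) 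
(.lf (nat_lit 160643) (.g (nat_lit 2820) (.e (nat_lit 57437) (nat_lit 17) (.e (nat_lit 376869) (nat_lit 23) (.e (nat_lit 98387) (nat_lit 33) (.e (nat_lit 491566) (nat_lit 12) (.e (nat_lit 385044) (nat_lit 21) .nil))))) .nil)) 
(.lf (nat_lit 160707) (.g (nat_lit 2697) (.e (nat_lit 57440) (nat_lit 18) (.e (nat_lit 385066) (nat_lit 26) (.e (nat_lit 532534) (nat_lit 9) (.e (nat_lit 336211) (nat_lit 13) (.e (nat_lit 393252) (nat_lit 18) (.e (nat_lit 164176) (nat_lit 154) .nil)))))) (.g (nat_lit 5) .nil .nil)))) (.nd (nat_lit 6) 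
(.lf (nat_lit 160675) (.g (nat_lit 2651) (.e (nat_lit 57438) (nat_lit 17) (.e (nat_lit 376842) (nat_lit 11) (.e (nat_lit 426315) (nat_lit 12) (.e (nat_lit 475212) (nat_lit 42) (.e (nat_lit 720929) (nat_lit 21) .nil))))) .nil)) 
(.lf (nat_lit 160739) (.g (nat_lit 2909) (.e (nat_lit 57440) (nat_lit 18) (.e (nat_lit 385068) (nat_lit 26) (.e (nat_lit 532535) (nat_lit 9) (.e (nat_lit 336219) (nat_lit 13) (.e (nat_lit 393251) (nat_lit 18) (.e (nat_lit 164179) (nat_lit 154) .nil)))))) (.g (nat_lit 4) .nil .nil))))) (.nd (nat_lit 5) (.nd (nat_lit 6) 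
(.lf (nat_lit 160659) (.g (nat_lit 1690) (.e (nat_lit 57438) (nat_lit 17) (.e (nat_lit 376842) (nat_lit 11) (.e (nat_lit 426187) (nat_lit 9) (.e (nat_lit 426448) (nat_lit 20) .nil)))) .nil)) 
(.lf (nat_lit 160723) (.g (nat_lit 3383) (.e (nat_lit 57440) (nat_lit 18) (.e (nat_lit 385068) (nat_lit 26) (.e (nat_lit 532530) (nat_lit 9) (.e (nat_lit 336211) (nat_lit 13) (.e (nat_lit 393251) (nat_lit 18) (.e (nat_lit 164179) (nat_lit 154) .nil)))))) (.g (nat_lit 6) .nil .nil)))) (.nd (nat_lit 6) 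
(.lf (nat_lit 160691) (.g (nat_lit 987) (.e (nat_lit 57439) (nat_lit 18) (.e (nat_lit 385068) (nat_lit 26) (.e (nat_lit 532533) (nat_lit 9) .nil))) .nil)) 
(.lf (nat_lit 160755) (.g (nat_lit 744) (.e (nat_lit 57440) (nat_lit 18) (.e (nat_lit 385068) (nat_lit 26) (.e (nat_lit 532551) (nat_lit 12) .nil))) .nil))))) (.nd (nat_lit 4) (.nd (nat_lit 5) (.nd (nat_lit 6) 
(.lf (nat_lit 160651) (.g (nat_lit 2463) (.e (nat_lit 57437) (nat_lit 17) (.e (nat_lit 376869) (nat_lit 23) (.e (nat_lit 98389) (nat_lit 33) (.e (nat_lit 491560) (nat_lit 10) (.e (nat_lit 344088) (nat_lit 18) (.e (nat_lit 3999) (nat_lit 241) .nil)))))) (.g (nat_lit 4) .nil .nil))) 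
(.lf (nat_lit 160715) (.g (nat_lit 2611) (.e (nat_lit 57440) (nat_lit 18) (.e (nat_lit 385066) (nat_lit 26) (.e (nat_lit 532558) (nat_lit 14) (.e (nat_lit 376842) (nat_lit 11) (.e (nat_lit 426106) (nat_lit 1) (.e (nat_lit 164177) (nat_lit 154) .nil)))))) (.g (nat_lit 0) .nil .nil)))) (.nd (nat_lit 6) 
(.lf (nat_lit 160683) (.g (nat_lit 499) (.e (nat_lit 57438) (nat_lit 17) (.e (nat_lit 376857) (nat_lit 21) (.e (nat_lit 57683) (nat_lit 155) .nil))) .nil)) 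
(.lf (nat_lit 160747) (.g (nat_lit 4454) (.e (nat_lit 57440) (nat_lit 18) (.e (nat_lit 385068) (nat_lit 26) (.e (nat_lit 532550) (nat_lit 12) (.e (nat_lit 360450) (nat_lit 0) (.e (nat_lit 7695) (nat_lit 412) .nil))))) .nil)))) (.nd (nat_lit 5) (.nd (nat_lit 6) 
(.lf (nat_lit 160667) (.g (nat_lit 856) (.e (nat_lit 57438) (nat_lit 17) (.e (nat_lit 376842) (nat_lit 11) (.e (nat_lit 426198) (nat_lit 9) .nil))) .nil)) 
(.lf (nat_lit 160731) (.g (nat_lit 1149) (.e (nat_lit 57440) (nat_lit 18) (.e (nat_lit 385068) (nat_lit 26) (.e (nat_lit 532534) (nat_lit 9) (.e (nat_lit 336211) (nat_lit 13) .nil)))) .nil))) (.nd (nat_lit 6) 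
(.lf (nat_lit 160699) (.g (nat_lit 2312) (.e (nat_lit 57439) (nat_lit 18) (.e (nat_lit 385068) (nat_lit 26) (.e (nat_lit 532560) (nat_lit 14) (.e (nat_lit 376842) (nat_lit 11) (.e (nat_lit 426107) (nat_lit 1) .nil))))) .nil)) 
(.lf (nat_lit 160763) (.g (nat_lit 2001) (.e (nat_lit 57440) (nat_lit 18) (.e (nat_lit 385068) (nat_lit 26) (.e (nat_lit 532560) (nat_lit 14) (.e (nat_lit 376841) (nat_lit 11) (.e (nat_lit 426107) (nat_lit 1) (.e (nat_lit 164179) (nat_lit 154) .nil)))))) (.g (nat_lit 4) .nil .nil))))))) (.nd (nat_lit 3) (.nd (nat_lit 4) (.nd (nat_lit 5) (.nd (nat_lit 6) 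
(.lf (nat_lit 160647) (.g (nat_lit 2214) (.e (nat_lit 57437) (nat_lit 17) (.e (nat_lit 376869) (nat_lit 23) (.e (nat_lit 98387) (nat_lit 33) (.e (nat_lit 491566) (nat_lit 12) (.e (nat_lit 385046) (nat_lit 21) .nil))))) .nil)) 
(.lf (nat_lit 160711) (.g (nat_lit 466) (.e (nat_lit 57440) (nat_lit 18) (.e (nat_lit 385066) (nat_lit 26) (.e (nat_lit 532549) (nat_lit 12) .nil))) .nil))) (.nd (nat_lit 6) 
(.lf (nat_lit 160679) (.g (nat_lit 2736) (.e (nat_lit 57438) (nat_lit 17) (.e (nat_lit 376842) (nat_lit 11) (.e (nat_lit 426343) (nat_lit 14) (.e (nat_lit 491558) (nat_lit 10) (.e (nat_lit 344096) (nat_lit 18) .nil))))) .nil)) 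
(.lf (nat_lit 160743) (.g (nat_lit 3920) (.e (nat_lit 57440) (nat_lit 18) (.e (nat_lit 385068) (nat_lit 26) (.e (nat_lit 532542) (nat_lit 9) (.e (nat_lit 336213) (nat_lit 13) (.e (nat_lit 393251) (nat_lit 18) (.e (nat_lit 164179) (nat_lit 154) .nil)))))) (.g (nat_lit 0) .nil .nil))))) (.nd (nat_lit 5) (.nd (nat_lit 6) 
(.lf (nat_lit 160663) (.g (nat_lit 1501) (.e (nat_lit 57438) (nat_lit 17) (.e (nat_lit 376842) (nat_lit 11) (.e (nat_lit 426190) (nat_lit 9) (.e (nat_lit 426448) (nat_lit 20) .nil)))) .nil)) 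
(.lf (nat_lit 160727) (.g (nat_lit 1899) (.e (nat_lit 57440) (nat_lit 18) (.e (nat_lit 385068) (nat_lit 26) (.e (nat_lit 532533) (nat_lit 9) (.e (nat_lit 336211) (nat_lit 13) (.e (nat_lit 393251) (nat_lit 18) (.e (nat_lit 164177) (nat_lit 154) .nil)))))) (.g (nat_lit 5) .nil .nil)))) (.nd (nat_lit 6) 
(.lf (nat_lit 160695) (.g (nat_lit 1520) (.e (nat_lit 57439) (nat_lit 18) (.e (nat_lit 385068) (nat_lit 26) (.e (nat_lit 532560) (nat_lit 14) (.e (nat_lit 376842) (nat_lit 11) .nil)))) .nil)) 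
(.lf (nat_lit 160759) (.g (nat_lit 1821) (.e (nat_lit 57440) (nat_lit 18) (.e (nat_lit 385068) (nat_lit 26) (.e (nat_lit 532558) (nat_lit 14) (.e (nat_lit 376842) (nat_lit 11) (.e (nat_lit 426106) (nat_lit 1) (.e (nat_lit 164177) (nat_lit 154) .nil)))))) (.g (nat_lit 4) .nil .nil)))))) (.nd (nat_lit 4) (.nd (nat_lit 5) (.nd (nat_lit 6) 
(.lf (nat_lit 160655) (.g (nat_lit 2804) (.e (nat_lit 57438) (nat_lit 17) (.e (nat_lit 376842) (nat_lit 11) (.e (nat_lit 426011) (nat_lit 0) (.e (nat_lit 7591) (nat_lit 407) (.e (nat_lit 73729) (nat_lit 0) .nil))))) .nil)) 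
(.lf (nat_lit 160719) (.g (nat_lit 2507) (.e (nat_lit 57440) (nat_lit 18) (.e (nat_lit 385066) (nat_lit 26) (.e (nat_lit 532560) (nat_lit 14) (.e (nat_lit 376842) (nat_lit 11) (.e (nat_lit 426098) (nat_lit 1) (.e (nat_lit 164178) (nat_lit 154) .nil)))))) (.g (nat_lit 5) .nil .nil)))) (.nd (nat_lit 6) 
(.lf (nat_lit 160687) (.g (nat_lit 825) (.e (nat_lit 57438) (nat_lit 17) (.e (nat_lit 376865) (nat_lit 22) (.e (nat_lit 90158) (nat_lit 11) .nil))) .nil)) 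
(.lf (nat_lit 160751) (.g (nat_lit 4086) (.e (nat_lit 57440) (nat_lit 18) (.e (nat_lit 385068) (nat_lit 26) (.e (nat_lit 532550) (nat_lit 12) (.e (nat_lit 360451) (nat_lit 0) (.e (nat_lit 7695) (nat_lit 412) (.e (nat_lit 57367) (nat_lit 1) (.e (nat_lit 57847) (nat_lit 252) .nil))))))) (.g (nat_lit 4) .nil .nil))))) (.nd (nat_lit 5) (.nd (nat_lit 6) 
(.lf (nat_lit 160671) (.g (nat_lit 1680) (.e (nat_lit 57438) (nat_lit 17) (.e (nat_lit 376842) (nat_lit 11) (.e (nat_lit 426308) (nat_lit 12) (.e (nat_lit 475212) (nat_lit 42) .nil)))) .nil)) 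
(.lf (nat_lit 160735) (.g (nat_lit 3186) (.e (nat_lit 57440) (nat_lit 18) (.e (nat_lit 385068) (nat_lit 26) (.e (nat_lit 532534) (nat_lit 9) (.e (nat_lit 336211) (nat_lit 13) (.e (nat_lit 393253) (nat_lit 18) (.e (nat_lit 164179) (nat_lit 154) .nil)))))) (.g (nat_lit 0) .nil .nil)))) (.nd (nat_lit 6) 
(.lf (nat_lit 160703) (.g (nat_lit 3599) (.e (nat_lit 57439) (nat_lit 18) (.e (nat_lit 385074) (nat_lit 31) (.e (nat_lit 573484) (nat_lit 13) (.e (nat_lit 65617) (nat_lit 10) (.e (nat_lit 344133) (nat_lit 26) .nil))))) .nil)) 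
(.lf (nat_lit 160767) (.g (nat_lit 2209) (.e (nat_lit 57440) (nat_lit 18) (.e (nat_lit 385068) (nat_lit 26) (.e (nat_lit 532560) (nat_lit 14) (.e (nat_lit 376842) (nat_lit 11) (.e (nat_lit 426106) (nat_lit 1) (.e (nat_lit 164177) (nat_lit 154) .nil)))))) (.g (nat_lit 4) .nil .nil))))))))))

noncomputable def tv2152 : DT := (.nd (nat_lit 0) (.nd (nat_lit 1) (.nd (nat_lit 2) (.nd (nat_lit 3) (.nd (nat_lit 4) (.nd (nat_lit 5) 
(.lf (nat_lit 160768) (.g (nat_lit 2940) (.e (nat_lit 57440) (nat_lit 18) (.e (nat_lit 385068) (nat_lit 26) (.e (nat_lit 532560) (nat_lit 14) (.e (nat_lit 376842) (nat_lit 11) (.e (nat_lit 426106) (nat_lit 1) (.e (nat_lit 164179) (nat_lit 154) .nil)))))) (.g (nat_lit 0) .nil .nil))) 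
(.lf (nat_lit 160800) (.g (nat_lit 2298) (.e (nat_lit 57442) (nat_lit 18) (.e (nat_lit 385066) (nat_lit 26) (.e (nat_lit 532533) (nat_lit 9) (.e (nat_lit 336211) (nat_lit 13) (.e (nat_lit 393252) (nat_lit 18) (.e (nat_lit 164183) (nat_lit 154) .nil)))))) (.g (nat_lit 0) .nil .nil)))) (.nd (nat_lit 5) 
(.lf (nat_lit 160784) (.g (nat_lit 1001) (.e (nat_lit 57440) (nat_lit 18) (.e (nat_lit 385106) (nat_lit 50) (.e (nat_lit 786475) (nat_lit 28) (.e (nat_lit 352000) (nat_lit 5) .nil)))) .nil)) 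
(.lf (nat_lit 160816) (.g (nat_lit 1815) (.e (nat_lit 57442) (nat_lit 18) (.e (nat_lit 385066) (nat_lit 26) (.e (nat_lit 532558) (nat_lit 14) (.e (nat_lit 376842) (nat_lit 11) (.e (nat_lit 426107) (nat_lit 1) (.e (nat_lit 164178) (nat_lit 154) .nil)))))) (.g (nat_lit 4) .nil .nil))))) (.nd (nat_lit 4) (.nd (nat_lit 5) 
(.lf (nat_lit 160776) (.g (nat_lit 3287) (.e (nat_lit 57440) (nat_lit 18) (.e (nat_lit 385074) (nat_lit 31) (.e (nat_lit 573484) (nat_lit 13) (.e (nat_lit 65617) (nat_lit 10) (.e (nat_lit 344133) (nat_lit 26) (.e (nat_lit 557089) (nat_lit 12) (.e (nat_lit 163844) (nat_lit 0) (.e (nat_lit 6068) (nat_lit 328) .nil)))))))) (.g (nat_lit 4) .nil .nil))) 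
(.lf (nat_lit 160808) (.g (nat_lit 2852) (.e (nat_lit 57442) (nat_lit 18) (.e (nat_lit 385066) (nat_lit 26) (.e (nat_lit 532534) (nat_lit 9) (.e (nat_lit 336211) (nat_lit 13) (.e (nat_lit 393252) (nat_lit 18) (.e (nat_lit 164183) (nat_lit 154) .nil)))))) (.g (nat_lit 0) .nil .nil)))) (.nd (nat_lit 5) 
(.lf (nat_lit 160792) (.g (nat_lit 1602) (.e (nat_lit 57441) (nat_lit 18) (.e (nat_lit 385068) (nat_lit 26) (.e (nat_lit 532560) (nat_lit 14) (.e (nat_lit 376842) (nat_lit 11) .nil)))) .nil)) 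
(.lf (nat_lit 160824) (.g (nat_lit 1863) (.e (nat_lit 57442) (nat_lit 18) (.e (nat_lit 385066) (nat_lit 26) (.e (nat_lit 532560) (nat_lit 14) (.e (nat_lit 376842) (nat_lit 11) (.e (nat_lit 426107) (nat_lit 1) (.e (nat_lit 164178) (nat_lit 154) .nil)))))) (.g (nat_lit 4) .nil .nil)))))) (.nd (nat_lit 3) (.nd (nat_lit 4) (.nd (nat_lit 5) 
(.lf (nat_lit 160772) (.g (nat_lit 3362) (.e (nat_lit 57440) (nat_lit 18) (.e (nat_lit 385068) (nat_lit 26) (.e (nat_lit 532560) (nat_lit 14) (.e (nat_lit 376842) (nat_lit 11) (.e (nat_lit 426107) (nat_lit 1) (.e (nat_lit 164179) (nat_lit 154) .nil)))))) (.g (nat_lit 0) .nil .nil))) 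
(.lf (nat_lit 160804) (.g (nat_lit 1146) (.e (nat_lit 57442) (nat_lit 18) (.e (nat_lit 385066) (nat_lit 26) (.e (nat_lit 532534) (nat_lit 9) (.e (nat_lit 336211) (nat_lit 13) .nil)))) .nil))) (.nd (nat_lit 5) 
(.lf (nat_lit 160788) (.g (nat_lit 1204) (.e (nat_lit 57441) (nat_lit 18) (.e (nat_lit 385066) (nat_lit 26) (.e (nat_lit 532534) (nat_lit 9) (.e (nat_lit 336211) (nat_lit 13) .nil)))) .nil)) 
(.lf (nat_lit 160820) (.g (nat_lit 1725) (.e (nat_lit 57442) (nat_lit 18) (.e (nat_lit 385066) (nat_lit 26) (.e (nat_lit 532560) (nat_lit 14) (.e (nat_lit 376842) (nat_lit 11) (.e (nat_lit 426100) (nat_lit 1) .nil))))) .nil)))) (.nd (nat_lit 4) (.nd (nat_lit 5) 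
(.lf (nat_lit 160780) (.g (nat_lit 669) (.e (nat_lit 57440) (nat_lit 18) (.e (nat_lit 385094) (nat_lit 49) (.e (nat_lit 778317) (nat_lit 3) .nil))) .nil)) 
(.lf (nat_lit 160812) (.g (nat_lit 2991) (.e (nat_lit 57442) (nat_lit 18) (.e (nat_lit 385066) (nat_lit 26) (.e (nat_lit 532558) (nat_lit 14) (.e (nat_lit 376842) (nat_lit 11) (.e (nat_lit 426098) (nat_lit 1) (.e (nat_lit 164179) (nat_lit 154) .nil)))))) (.g (nat_lit 6) .nil .nil)))) (.nd (nat_lit 5) 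
(.lf (nat_lit 160796) (.g (nat_lit 1880) (.e (nat_lit 57442) (nat_lit 18) (.e (nat_lit 385065) (nat_lit 26) (.e (nat_lit 532560) (nat_lit 14) (.e (nat_lit 376842) (nat_lit 11) (.e (nat_lit 426100) (nat_lit 1) .nil))))) .nil)) 
(.lf (nat_lit 160828) (.g (nat_lit 2040) (.e (nat_lit 57442) (nat_lit 18) (.e (nat_lit 385067) (nat_lit 26) (.e (nat_lit 532560) (nat_lit 14) (.e (nat_lit 376842) (nat_lit 11) (.e (nat_lit 426108) (nat_lit 1) .nil))))) .nil)))))) (.nd (nat_lit 2) (.nd (nat_lit 3) (.nd (nat_lit 4) (.nd (nat_lit 5) 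
(.lf (nat_lit 160770) (.g (nat_lit 2591) (.e (nat_lit 57440) (nat_lit 18) (.e (nat_lit 385068) (nat_lit 26) (.e (nat_lit 532560) (nat_lit 14) (.e (nat_lit 376842) (nat_lit 11) (.e (nat_lit 426107) (nat_lit 1) (.e (nat_lit 164177) (nat_lit 154) .nil)))))) (.g (nat_lit 5) .nil .nil))) 
(.lf (nat_lit 160802) (.g (nat_lit 2652) (.e (nat_lit 57442) (nat_lit 18) (.e (nat_lit 385066) (nat_lit 26) (.e (nat_lit 532533) (nat_lit 9) (.e (nat_lit 336211) (nat_lit 13) (.e (nat_lit 393254) (nat_lit 18) (.e (nat_lit 164182) (nat_lit 154) .nil)))))) (.g (nat_lit 0) .nil .nil)))) (.nd (nat_lit 5) 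
(.lf (nat_lit 160786) (.g (nat_lit 986) (.e (nat_lit 57440) (nat_lit 18) (.e (nat_lit 385109) (nat_lit 51) (.e (nat_lit 802560) (nat_lit 1) .nil))) .nil)) 
(.lf (nat_lit 160818) (.g (nat_lit 1604) (.e (nat_lit 57442) (nat_lit 18) (.e (nat_lit 385066) (nat_lit 26) (.e (nat_lit 532560) (nat_lit 14) (.e (nat_lit 376838) (nat_lit 11) .nil)))) .nil)))) (.nd (nat_lit 4) (.nd (nat_lit 5) 
(.lf (nat_lit 160778) (.g (nat_lit 601) (.e (nat_lit 57440) (nat_lit 18) (.e (nat_lit 385093) (nat_lit 49) (.e (nat_lit 778318) (nat_lit 3) .nil))) .nil)) 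
(.lf (nat_lit 160810) (.g (nat_lit 2899) (.e (nat_lit 57442) (nat_lit 18) (.e (nat_lit 385066) (nat_lit 26) (.e (nat_lit 532534) (nat_lit 9) (.e (nat_lit 336211) (nat_lit 13) (.e (nat_lit 393253) (nat_lit 18) (.e (nat_lit 164183) (nat_lit 154) .nil)))))) (.g (nat_lit 0) .nil .nil)))) (.nd (nat_lit 5) 
(.lf (nat_lit 160794) (.g (nat_lit 1852) (.e (nat_lit 57442) (nat_lit 18) (.e (nat_lit 385065) (nat_lit 26) (.e (nat_lit 532558) (nat_lit 14) (.e (nat_lit 376842) (nat_lit 11) (.e (nat_lit 426100) (nat_lit 1) .nil))))) .nil)) 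
(.lf (nat_lit 160826) (.g (nat_lit 3541) (.e (nat_lit 57442) (nat_lit 18) (.e (nat_lit 385066) (nat_lit 26) (.e (nat_lit 532560) (nat_lit 14) (.e (nat_lit 376842) (nat_lit 11) (.e (nat_lit 426108) (nat_lit 1) (.e (nat_lit 164182) (nat_lit 154) .nil)))))) (.g (nat_lit 0) .nil .nil)))))) (.nd (nat_lit 3) (.nd (nat_lit 4) (.nd (nat_lit 5) 
(.lf (nat_lit 160774) (.g (nat_lit 2612) (.e (nat_lit 57440) (nat_lit 18) (.e (nat_lit 385074) (nat_lit 31) (.e (nat_lit 573484) (nat_lit 13) (.e (nat_lit 65617) (nat_lit 10) .nil)))) .nil)) 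
(.lf (nat_lit 160806) (.g (nat_lit 1707) (.e (nat_lit 57442) (nat_lit 18) (.e (nat_lit 385066) (nat_lit 26) (.e (nat_lit 532534) (nat_lit 9) (.e (nat_lit 336211) (nat_lit 13) (.e (nat_lit 393252) (nat_lit 18) .nil))))) .nil))) (.nd (nat_lit 5) 
(.lf (nat_lit 160790) (.g (nat_lit 1129) (.e (nat_lit 57441) (nat_lit 18) (.e (nat_lit 385068) (nat_lit 26) (.e (nat_lit 532542) (nat_lit 9) .nil))) .nil)) 
(.lf (nat_lit 160822) (.g (nat_lit 3093) (.e (nat_lit 57442) (nat_lit 18) (.e (nat_lit 385066) (nat_lit 26) (.e (nat_lit 532560) (nat_lit 14) (.e (nat_lit 376842) (nat_lit 11) (.e (nat_lit 426106) (nat_lit 1) (.e (nat_lit 164182) (nat_lit 154) .nil)))))) (.g (nat_lit 0) .nil .nil))))) (.nd (nat_lit 4) (.nd (nat_lit 5) 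
(.lf (nat_lit 160782) (.g (nat_lit 1731) (.e (nat_lit 57440) (nat_lit 18) (.e (nat_lit 385094) (nat_lit 49) (.e (nat_lit 778323) (nat_lit 5) (.e (nat_lit 81664) (nat_lit 37) .nil)))) .nil)) 
(.lf (nat_lit 160814) (.g (nat_lit 2078) (.e (nat_lit 57442) (nat_lit 18) (.e (nat_lit 385066) (nat_lit 26) (.e (nat_lit 532558) (nat_lit 14) (.e (nat_lit 376842) (nat_lit 11) (.e (nat_lit 426105) (nat_lit 1) .nil))))) .nil))) (.nd (nat_lit 5) 
(.lf (nat_lit 160798) (.g (nat_lit 2721) (.e (nat_lit 57442) (nat_lit 18) (.e (nat_lit 385066) (nat_lit 26) (.e (nat_lit 532533) (nat_lit 9) (.e (nat_lit 336211) (nat_lit 13) (.e (nat_lit 393251) (nat_lit 18) (.e (nat_lit 164179) (nat_lit 154) .nil)))))) (.g (nat_lit 6) .nil .nil))) 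
(.lf (nat_lit 160830) (.g (nat_lit 3107) (.e (nat_lit 57442) (nat_lit 18) (.e (nat_lit 385068) (nat_lit 26) (.e (nat_lit 532530) (nat_lit 9) (.e (nat_lit 336211) (nat_lit 13) (.e (nat_lit 393251) (nat_lit 18) (.e (nat_lit 164179) (nat_lit 154) .nil)))))) (.g (nat_lit 5) .nil .nil)))))))) (.nd (nat_lit 1) (.nd (nat_lit 2) (.nd (nat_lit 3) (.nd (nat_lit 4) (.nd (nat_lit 5) 
(.lf (nat_lit 160769) (.g (nat_lit 1791) (.e (nat_lit 57440) (nat_lit 18) (.e (nat_lit 385068) (nat_lit 26) (.e (nat_lit 532560) (nat_lit 14) (.e (nat_lit 376842) (nat_lit 11) (.e (nat_lit 426107) (nat_lit 1) .nil))))) .nil)) 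
(.lf (nat_lit 160801) (.g (nat_lit 2362) (.e (nat_lit 57442) (nat_lit 18) (.e (nat_lit 385066) (nat_lit 26) (.e (nat_lit 532533) (nat_lit 9) (.e (nat_lit 336211) (nat_lit 13) (.e (nat_lit 393253) (nat_lit 18) (.e (nat_lit 164183) (nat_lit 154) .nil)))))) (.g (nat_lit 0) .nil .nil)))) (.nd (nat_lit 5) 
(.lf (nat_lit 160785) (.g (nat_lit 1156) (.e (nat_lit 57440) (nat_lit 18) (.e (nat_lit 385106) (nat_lit 50) (.e (nat_lit 786477) (nat_lit 28) (.e (nat_lit 352000) (nat_lit 5) .nil)))) .nil)) 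
(.lf (nat_lit 160817) (.g (nat_lit 3468) (.e (nat_lit 57442) (nat_lit 18) (.e (nat_lit 385066) (nat_lit 26) (.e (nat_lit 532558) (nat_lit 14) (.e (nat_lit 376842) (nat_lit 11) (.e (nat_lit 426107) (nat_lit 1) (.e (nat_lit 164182) (nat_lit 154) .nil)))))) (.g (nat_lit 0) .nil .nil))))) (.nd (nat_lit 4) (.nd (nat_lit 5) 
(.lf (nat_lit 160777) (.g (nat_lit 3368) (.e (nat_lit 57440) (nat_lit 18) (.e (nat_lit 385074) (nat_lit 31) (.e (nat_lit 573484) (nat_lit 13) (.e (nat_lit 65617) (nat_lit 10) (.e (nat_lit 344133) (nat_lit 26) (.e (nat_lit 557091) (nat_lit 12) (.e (nat_lit 163841) (nat_lit 0) (.e (nat_lit 6068) (nat_lit 328) .nil)))))))) (.g (nat_lit 4) .nil .nil))) 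
(.lf (nat_lit 160809) (.g (nat_lit 2140) (.e (nat_lit 57442) (nat_lit 18) (.e (nat_lit 385066) (nat_lit 26) (.e (nat_lit 532534) (nat_lit 9) (.e (nat_lit 336211) (nat_lit 13) (.e (nat_lit 393253) (nat_lit 18) (.e (nat_lit 164178) (nat_lit 154) .nil)))))) (.g (nat_lit 5) .nil .nil)))) (.nd (nat_lit 5) 
(.lf (nat_lit 160793) (.g (nat_lit 1711) (.e (nat_lit 57442) (nat_lit 18) (.e (nat_lit 385065) (nat_lit 26) (.e (nat_lit 532558) (nat_lit 14) (.e (nat_lit 376842) (nat_lit 11) (.e (nat_lit 426098) (nat_lit 1) .nil))))) .nil)) 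
(.lf (nat_lit 160825) (.g (nat_lit 3500) (.e (nat_lit 57442) (nat_lit 18) (.e (nat_lit 385066) (nat_lit 26) (.e (nat_lit 532560) (nat_lit 14) (.e (nat_lit 376842) (nat_lit 11) (.e (nat_lit 426107) (nat_lit 1) (.e (nat_lit 164182) (nat_lit 154) .nil)))))) (.g (nat_lit 0) .nil .nil)))))) (.nd (nat_lit 3) (.nd (nat_lit 4) (.nd (nat_lit 5) 
(.lf (nat_lit 160773) (.g (nat_lit 2002) (.e (nat_lit 57440) (nat_lit 18) (.e (nat_lit 385068) (nat_lit 26) (.e (nat_lit 532560) (nat_lit 14) (.e (nat_lit 376860) (nat_lit 21) (.e (nat_lit 57692) (nat_lit 156) (.e (nat_lit 171776) (nat_lit 62) (.e (nat_lit 57853) (nat_lit 252) .nil))))))) (.g (nat_lit 4) .nil .nil))) 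
(.lf (nat_lit 160805) (.g (nat_lit 3273) (.e (nat_lit 57442) (nat_lit 18) (.e (nat_lit 385066) (nat_lit 26) (.e (nat_lit 532534) (nat_lit 9) (.e (nat_lit 336211) (nat_lit 13) (.e (nat_lit 393251) (nat_lit 18) (.e (nat_lit 164179) (nat_lit 154) .nil)))))) (.g (nat_lit 0) .nil .nil)))) (.nd (nat_lit 5) 
(.lf (nat_lit 160789) (.g (nat_lit 1675) (.e (nat_lit 57441) (nat_lit 18) (.e (nat_lit 385066) (nat_lit 26) (.e (nat_lit 532560) (nat_lit 14) (.e (nat_lit 376838) (nat_lit 11) .nil)))) .nil)) 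
(.lf (nat_lit 160821) (.g (nat_lit 3341) (.e (nat_lit 57442) (nat_lit 18) (.e (nat_lit 385066) (nat_lit 26) (.e (nat_lit 532560) (nat_lit 14) (.e (nat_lit 376842) (nat_lit 11) (.e (nat_lit 426100) (nat_lit 1) (.e (nat_lit 164182) (nat_lit 154) .nil)))))) (.g (nat_lit 0) .nil .nil))))) (.nd (nat_lit 4) (.nd (nat_lit 5) 
(.lf (nat_lit 160781) (.g (nat_lit 2307) (.e (nat_lit 57440) (nat_lit 18) (.e (nat_lit 385094) (nat_lit 49) (.e (nat_lit 778320) (nat_lit 4) (.e (nat_lit 65630) (nat_lit 14) (.e (nat_lit 401454) (nat_lit 12) (.e (nat_lit 475155) (nat_lit 21) (.e (nat_lit 4409) (nat_lit 259) .nil))))))) (.g (nat_lit 4) .nil .nil))) 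
(.lf (nat_lit 160813) (.g (nat_lit 3256) (.e (nat_lit 57442) (nat_lit 18) (.e (nat_lit 385066) (nat_lit 26) (.e (nat_lit 532558) (nat_lit 14) (.e (nat_lit 376842) (nat_lit 11) (.e (nat_lit 426100) (nat_lit 1) (.e (nat_lit 164182) (nat_lit 154) .nil)))))) (.g (nat_lit 0) .nil .nil)))) (.nd (nat_lit 5) 
(.lf (nat_lit 160797) (.g (nat_lit 1887) (.e (nat_lit 57442) (nat_lit 18) (.e (nat_lit 385065) (nat_lit 26) (.e (nat_lit 532560) (nat_lit 14) (.e (nat_lit 376842) (nat_lit 11) (.e (nat_lit 426108) (nat_lit 1) .nil))))) .nil)) 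
(.lf (nat_lit 160829) (.g (nat_lit 892) (.e (nat_lit 57442) (nat_lit 18) (.e (nat_lit 385068) (nat_lit 26) (.e (nat_lit 532527) (nat_lit 9) .nil))) .nil)))))) (.nd (nat_lit 2) (.nd (nat_lit 3) (.nd (nat_lit 4) (.nd (nat_lit 5) 
(.lf (nat_lit 160771) (.g (nat_lit 2437) (.e (nat_lit 57440) (nat_lit 18) (.e (nat_lit 385068) (nat_lit 26) (.e (nat_lit 532560) (nat_lit 14) (.e (nat_lit 376842) (nat_lit 11) (.e (nat_lit 426107) (nat_lit 1) (.e (nat_lit 164178) (nat_lit 154) .nil)))))) (.g (nat_lit 4) .nil .nil))) 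
(.lf (nat_lit 160803) (.g (nat_lit 2035) (.e (nat_lit 57442) (nat_lit 18) (.e (nat_lit 385066) (nat_lit 26) (.e (nat_lit 532533) (nat_lit 9) (.e (nat_lit 336211) (nat_lit 13) (.e (nat_lit 393254) (nat_lit 18) (.e (nat_lit 164183) (nat_lit 154) .nil)))))) (.g (nat_lit 0) .nil .nil)))) (.nd (nat_lit 5) 
(.lf (nat_lit 160787) (.g (nat_lit 2486) (.e (nat_lit 57441) (nat_lit 18) (.e (nat_lit 385066) (nat_lit 26) (.e (nat_lit 532533) (nat_lit 9) (.e (nat_lit 336211) (nat_lit 13) (.e (nat_lit 393251) (nat_lit 18) (.e (nat_lit 164179) (nat_lit 154) .nil)))))) (.g (nat_lit 0) .nil .nil))) 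
(.lf (nat_lit 160819) (.g (nat_lit 3054) (.e (nat_lit 57442) (nat_lit 18) (.e (nat_lit 385066) (nat_lit 26) (.e (nat_lit 532560) (nat_lit 14) (.e (nat_lit 376842) (nat_lit 11) (.e (nat_lit 426098) (nat_lit 1) (.e (nat_lit 164179) (nat_lit 154) .nil)))))) (.g (nat_lit 6) .nil .nil))))) (.nd (nat_lit 4) (.nd (nat_lit 5) 
(.lf (nat_lit 160779) (.g (nat_lit 1637) (.e (nat_lit 57440) (nat_lit 18) (.e (nat_lit 385093) (nat_lit 49) (.e (nat_lit 778323) (nat_lit 5) (.e (nat_lit 81664) (nat_lit 37) .nil)))) .nil)) 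
(.lf (nat_lit 160811) (.g (nat_lit 2578) (.e (nat_lit 57442) (nat_lit 18) (.e (nat_lit 385066) (nat_lit 26) (.e (nat_lit 532534) (nat_lit 9) (.e (nat_lit 336211) (nat_lit 13) (.e (nat_lit 393254) (nat_lit 18) (.e (nat_lit 164183) (nat_lit 154) .nil)))))) (.g (nat_lit 0) .nil .nil)))) (.nd (nat_lit 5) 
(.lf (nat_lit 160795) (.g (nat_lit 1798) (.e (nat_lit 57442) (nat_lit 18) (.e (nat_lit 385065) (nat_lit 26) (.e (nat_lit 532560) (nat_lit 14) (.e (nat_lit 376842) (nat_lit 11) (.e (nat_lit 426098) (nat_lit 1) .nil))))) .nil)) 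
(.lf (nat_lit 160827) (.g (nat_lit 1952) (.e (nat_lit 57442) (nat_lit 18) (.e (nat_lit 385067) (nat_lit 26) (.e (nat_lit 532560) (nat_lit 14) (.e (nat_lit 376842) (nat_lit 11) (.e (nat_lit 426098) (nat_lit 1) .nil))))) .nil))))) (.nd (nat_lit 3) (.nd (nat_lit 4) (.nd (nat_lit 5) 
(.lf (nat_lit 160775) (.g (nat_lit 3126) (.e (nat_lit 57440) (nat_lit 18) (.e (nat_lit 385074) (nat_lit 31) (.e (nat_lit 573484) (nat_lit 13) (.e (nat_lit 65617) (nat_lit 10) (.e (nat_lit 344130) (nat_lit 26) .nil))))) .nil)) 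
(.lf (nat_lit 160807) (.g (nat_lit 3280) (.e (nat_lit 57442) (nat_lit 18) (.e (nat_lit 385066) (nat_lit 26) (.e (nat_lit 532534) (nat_lit 9) (.e (nat_lit 336211) (nat_lit 13) (.e (nat_lit 393252) (nat_lit 18) (.e (nat_lit 164182) (nat_lit 154) .nil)))))) (.g (nat_lit 0) .nil .nil)))) (.nd (nat_lit 5) 
(.lf (nat_lit 160791) (.g (nat_lit 687) (.e (nat_lit 57441) (nat_lit 18) (.e (nat_lit 385068) (nat_lit 26) (.e (nat_lit 532560) (nat_lit 14) .nil))) .nil)) 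
(.lf (nat_lit 160823) (.g (nat_lit 2529) (.e (nat_lit 57442) (nat_lit 18) (.e (nat_lit 385066) (nat_lit 26) (.e (nat_lit 532560) (nat_lit 14) (.e (nat_lit 376842) (nat_lit 11) (.e (nat_lit 426106) (nat_lit 1) (.e (nat_lit 164183) (nat_lit 154) .nil)))))) (.g (nat_lit 0) .nil .nil))))) (.nd (nat_lit 4) (.nd (nat_lit 5) 
(.lf (nat_lit 160783) (.g (nat_lit 1478) (.e (nat_lit 57440) (nat_lit 18) (.e (nat_lit 385094) (nat_lit 49) (.e (nat_lit 778324) (nat_lit 5) (.e (nat_lit 81664) (nat_lit 37) .nil)))) .nil)) 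
(.lf (nat_lit 160815) (.g (nat_lit 3016) (.e (nat_lit 57442) (nat_lit 18) (.e (nat_lit 385066) (nat_lit 26) (.e (nat_lit 532558) (nat_lit 14) (.e (nat_lit 376842) (nat_lit 11) (.e (nat_lit 426106) (nat_lit 1) (.e (nat_lit 164182) (nat_lit 154) .nil)))))) (.g (nat_lit 0) .nil .nil)))) (.nd (nat_lit 5) 
(.lf (nat_lit 160799) (.g (nat_lit 2727) (.e (nat_lit 57442) (nat_lit 18) (.e (nat_lit 385066) (nat_lit 26) (.e (nat_lit 532533) (nat_lit 9) (.e (nat_lit 336211) (nat_lit 13) (.e (nat_lit 393252) (nat_lit 18) (.e (nat_lit 164182) (nat_lit 154) .nil)))))) (.g (nat_lit 0) .nil .nil))) 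
(.lf (nat_lit 160831) (.g (nat_lit 3036) (.e (nat_lit 57442) (nat_lit 18) (.e (nat_lit 385068) (nat_lit 26) (.e (nat_lit 532530) (nat_lit 9) (.e (nat_lit 336211) (nat_lit 13) (.e (nat_lit 393252) (nat_lit 18) (.e (nat_lit 164182) (nat_lit 154) .nil)))))) (.g (nat_lit 5) .nil .nil)))))))))

noncomputable def tv2153 : DT := (.nd (nat_lit 0) (.nd (nat_lit 1) (.nd (nat_lit 2) (.nd (nat_lit 3) (.nd (nat_lit 4) (.nd (nat_lit 5) 
(.lf (nat_lit 160832) (.g (nat_lit 2872) (.e (nat_lit 57442) (nat_lit 18) (.e (nat_lit 385068) (nat_lit 26) (.e (nat_lit 532530) (nat_lit 9) (.e (nat_lit 336211) (nat_lit 13) (.e (nat_lit 393252) (nat_lit 18) (.e (nat_lit 164183) (nat_lit 154) .nil)))))) (.g (nat_lit 5) .nil .nil))) 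
(.lf (nat_lit 160864) (.g (nat_lit 2907) (.e (nat_lit 57442) (nat_lit 18) (.e (nat_lit 385068) (nat_lit 26) (.e (nat_lit 532558) (nat_lit 14) (.e (nat_lit 376842) (nat_lit 11) (.e (nat_lit 426098) (nat_lit 1) (.e (nat_lit 164179) (nat_lit 154) .nil)))))) (.g (nat_lit 6) .nil .nil)))) (.nd (nat_lit 5) 
(.lf (nat_lit 160848) (.g (nat_lit 3011) (.e (nat_lit 57442) (nat_lit 18) (.e (nat_lit 385068) (nat_lit 26) (.e (nat_lit 532534) (nat_lit 9) (.e (nat_lit 336211) (nat_lit 13) (.e (nat_lit 393253) (nat_lit 18) (.e (nat_lit 164183) (nat_lit 154) .nil)))))) (.g (nat_lit 0) .nil .nil))) 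
(.lf (nat_lit 160880) (.g (nat_lit 2736) (.e (nat_lit 57442) (nat_lit 18) (.e (nat_lit 385068) (nat_lit 26) (.e (nat_lit 532560) (nat_lit 14) (.e (nat_lit 376842) (nat_lit 11) (.e (nat_lit 426099) (nat_lit 1) (.e (nat_lit 164182) (nat_lit 154) .nil)))))) (.g (nat_lit 5) .nil .nil))))) (.nd (nat_lit 4) (.nd (nat_lit 5) 
(.lf (nat_lit 160840) (.g (nat_lit 2136) (.e (nat_lit 57442) (nat_lit 18) (.e (nat_lit 385068) (nat_lit 26) (.e (nat_lit 532533) (nat_lit 9) (.e (nat_lit 336211) (nat_lit 13) (.e (nat_lit 393254) (nat_lit 18) (.e (nat_lit 164183) (nat_lit 154) .nil)))))) (.g (nat_lit 0) .nil .nil))) 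
(.lf (nat_lit 160872) (.g (nat_lit 3294) (.e (nat_lit 57442) (nat_lit 18) (.e (nat_lit 385068) (nat_lit 26) (.e (nat_lit 532558) (nat_lit 14) (.e (nat_lit 376842) (nat_lit 11) (.e (nat_lit 426108) (nat_lit 1) (.e (nat_lit 164182) (nat_lit 154) .nil)))))) (.g (nat_lit 6) .nil .nil)))) (.nd (nat_lit 5) 
(.lf (nat_lit 160856) (.g (nat_lit 3685) (.e (nat_lit 57442) (nat_lit 18) (.e (nat_lit 385068) (nat_lit 26) (.e (nat_lit 532542) (nat_lit 9) (.e (nat_lit 336213) (nat_lit 13) (.e (nat_lit 393251) (nat_lit 18) (.e (nat_lit 164183) (nat_lit 154) .nil)))))) (.g (nat_lit 6) .nil .nil))) 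
(.lf (nat_lit 160888) (.g (nat_lit 1996) (.e (nat_lit 57442) (nat_lit 18) (.e (nat_lit 385068) (nat_lit 26) (.e (nat_lit 532560) (nat_lit 14) (.e (nat_lit 376842) (nat_lit 11) (.e (nat_lit 426107) (nat_lit 1) (.e (nat_lit 164178) (nat_lit 154) .nil)))))) (.g (nat_lit 4) .nil .nil)))))) (.nd (nat_lit 3) (.nd (nat_lit 4) (.nd (nat_lit 5) 
(.lf (nat_lit 160836) (.g (nat_lit 2619) (.e (nat_lit 57442) (nat_lit 18) (.e (nat_lit 385068) (nat_lit 26) (.e (nat_lit 532530) (nat_lit 9) (.e (nat_lit 336211) (nat_lit 13) (.e (nat_lit 393254) (nat_lit 18) (.e (nat_lit 164183) (nat_lit 154) .nil)))))) (.g (nat_lit 5) .nil .nil))) 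
(.lf (nat_lit 160868) (.g (nat_lit 2125) (.e (nat_lit 57442) (nat_lit 18) (.e (nat_lit 385068) (nat_lit 26) (.e (nat_lit 532558) (nat_lit 14) (.e (nat_lit 376842) (nat_lit 11) (.e (nat_lit 426105) (nat_lit 1) .nil))))) .nil))) (.nd (nat_lit 5) 
(.lf (nat_lit 160852) (.g (nat_lit 892) (.e (nat_lit 57442) (nat_lit 18) (.e (nat_lit 385068) (nat_lit 26) (.e (nat_lit 532538) (nat_lit 9) .nil))) .nil)) 
(.lf (nat_lit 160884) (.g (nat_lit 3162) (.e (nat_lit 57442) (nat_lit 18) (.e (nat_lit 385068) (nat_lit 26) (.e (nat_lit 532560) (nat_lit 14) (.e (nat_lit 376842) (nat_lit 11) (.e (nat_lit 426100) (nat_lit 1) (.e (nat_lit 164183) (nat_lit 154) .nil)))))) (.g (nat_lit 0) .nil .nil))))) (.nd (nat_lit 4) (.nd (nat_lit 5) 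
(.lf (nat_lit 160844) (.g (nat_lit 3109) (.e (nat_lit 57442) (nat_lit 18) (.e (nat_lit 385068) (nat_lit 26) (.e (nat_lit 532534) (nat_lit 9) (.e (nat_lit 336211) (nat_lit 13) (.e (nat_lit 393252) (nat_lit 18) (.e (nat_lit 164182) (nat_lit 154) .nil)))))) (.g (nat_lit 6) .nil .nil))) 
(.lf (nat_lit 160876) (.g (nat_lit 1619) (.e (nat_lit 57442) (nat_lit 18) (.e (nat_lit 385068) (nat_lit 26) (.e (nat_lit 532560) (nat_lit 14) (.e (nat_lit 376841) (nat_lit 11) .nil)))) .nil))) (.nd (nat_lit 5) 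
(.lf (nat_lit 160860) (.g (nat_lit 4189) (.e (nat_lit 57442) (nat_lit 18) (.e (nat_lit 385068) (nat_lit 26) (.e (nat_lit 532550) (nat_lit 12) (.e (nat_lit 360451) (nat_lit 0) (.e (nat_lit 7695) (nat_lit 412) .nil))))) .nil)) 
(.lf (nat_lit 160892) (.g (nat_lit 3169) (.e (nat_lit 57442) (nat_lit 18) (.e (nat_lit 385068) (nat_lit 26) (.e (nat_lit 532560) (nat_lit 14) (.e (nat_lit 376842) (nat_lit 11) (.e (nat_lit 426108) (nat_lit 1) (.e (nat_lit 164183) (nat_lit 154) .nil)))))) (.g (nat_lit 0) .nil .nil))))))) (.nd (nat_lit 2) (.nd (nat_lit 3) (.nd (nat_lit 4) (.nd (nat_lit 5) 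
(.lf (nat_lit 160834) (.g (nat_lit 2733) (.e (nat_lit 57442) (nat_lit 18) (.e (nat_lit 385068) (nat_lit 26) (.e (nat_lit 532530) (nat_lit 9) (.e (nat_lit 336211) (nat_lit 13) (.e (nat_lit 393253) (nat_lit 18) (.e (nat_lit 164179) (nat_lit 154) .nil)))))) (.g (nat_lit 5) .nil .nil))) 
(.lf (nat_lit 160866) (.g (nat_lit 3045) (.e (nat_lit 57442) (nat_lit 18) (.e (nat_lit 385068) (nat_lit 26) (.e (nat_lit 532558) (nat_lit 14) (.e (nat_lit 376842) (nat_lit 11) (.e (nat_lit 426100) (nat_lit 1) (.e (nat_lit 164182) (nat_lit 154) .nil)))))) (.g (nat_lit 6) .nil .nil)))) (.nd (nat_lit 5) 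
(.lf (nat_lit 160850) (.g (nat_lit 3307) (.e (nat_lit 57442) (nat_lit 18) (.e (nat_lit 385068) (nat_lit 26) (.e (nat_lit 532535) (nat_lit 9) (.e (nat_lit 336219) (nat_lit 13) (.e (nat_lit 393251) (nat_lit 18) (.e (nat_lit 164182) (nat_lit 154) .nil)))))) (.g (nat_lit 4) .nil .nil))) 
(.lf (nat_lit 160882) (.g (nat_lit 1831) (.e (nat_lit 57442) (nat_lit 18) (.e (nat_lit 385068) (nat_lit 26) (.e (nat_lit 532560) (nat_lit 14) (.e (nat_lit 376842) (nat_lit 11) (.e (nat_lit 426100) (nat_lit 1) .nil))))) .nil)))) (.nd (nat_lit 4) (.nd (nat_lit 5) 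
(.lf (nat_lit 160842) (.g (nat_lit 3131) (.e (nat_lit 57442) (nat_lit 18) (.e (nat_lit 385068) (nat_lit 26) (.e (nat_lit 532534) (nat_lit 9) (.e (nat_lit 336211) (nat_lit 13) (.e (nat_lit 393251) (nat_lit 18) (.e (nat_lit 164179) (nat_lit 154) .nil)))))) (.g (nat_lit 6) .nil .nil))) 
(.lf (nat_lit 160874) (.g (nat_lit 894) (.e (nat_lit 57442) (nat_lit 18) (.e (nat_lit 385068) (nat_lit 26) (.e (nat_lit 532559) (nat_lit 14) .nil))) .nil))) (.nd (nat_lit 5) 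
(.lf (nat_lit 160858) (.g (nat_lit 892) (.e (nat_lit 57442) (nat_lit 18) (.e (nat_lit 385068) (nat_lit 26) (.e (nat_lit 532548) (nat_lit 11) .nil))) .nil)) 
(.lf (nat_lit 160890) (.g (nat_lit 3441) (.e (nat_lit 57442) (nat_lit 18) (.e (nat_lit 385068) (nat_lit 26) (.e (nat_lit 532560) (nat_lit 14) (.e (nat_lit 376842) (nat_lit 11) (.e (nat_lit 426107) (nat_lit 1) (.e (nat_lit 164182) (nat_lit 154) .nil)))))) (.g (nat_lit 6) .nil .nil)))))) (.nd (nat_lit 3) (.nd (nat_lit 4) (.nd (nat_lit 5) 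
(.lf (nat_lit 160838) (.g (nat_lit 2401) (.e (nat_lit 57442) (nat_lit 18) (.e (nat_lit 385068) (nat_lit 26) (.e (nat_lit 532533) (nat_lit 9) (.e (nat_lit 336211) (nat_lit 13) (.e (nat_lit 393252) (nat_lit 18) (.e (nat_lit 164183) (nat_lit 154) .nil)))))) (.g (nat_lit 0) .nil .nil))) 
(.lf (nat_lit 160870) (.g (nat_lit 2576) (.e (nat_lit 57442) (nat_lit 18) (.e (nat_lit 385068) (nat_lit 26) (.e (nat_lit 532558) (nat_lit 14) (.e (nat_lit 376842) (nat_lit 11) (.e (nat_lit 426106) (nat_lit 1) (.e (nat_lit 164183) (nat_lit 154) .nil)))))) (.g (nat_lit 0) .nil .nil)))) (.nd (nat_lit 5) 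
(.lf (nat_lit 160854) (.g (nat_lit 3619) (.e (nat_lit 57442) (nat_lit 18) (.e (nat_lit 385068) (nat_lit 26) (.e (nat_lit 532542) (nat_lit 9) (.e (nat_lit 336213) (nat_lit 13) (.e (nat_lit 393251) (nat_lit 18) (.e (nat_lit 164179) (nat_lit 154) .nil)))))) (.g (nat_lit 6) .nil .nil))) 
(.lf (nat_lit 160886) (.g (nat_lit 2522) (.e (nat_lit 57442) (nat_lit 18) (.e (nat_lit 385068) (nat_lit 26) (.e (nat_lit 532560) (nat_lit 14) (.e (nat_lit 376842) (nat_lit 11) (.e (nat_lit 426105) (nat_lit 1) (.e (nat_lit 164182) (nat_lit 154) .nil)))))) (.g (nat_lit 4) .nil .nil))))) (.nd (nat_lit 4) (.nd (nat_lit 5) 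
(.lf (nat_lit 160846) (.g (nat_lit 1931) (.e (nat_lit 57442) (nat_lit 18) (.e (nat_lit 385068) (nat_lit 26) (.e (nat_lit 532534) (nat_lit 9) (.e (nat_lit 336211) (nat_lit 13) (.e (nat_lit 393253) (nat_lit 18) (.e (nat_lit 164178) (nat_lit 154) .nil)))))) (.g (nat_lit 4) .nil .nil))) 
(.lf (nat_lit 160878) (.g (nat_lit 3305) (.e (nat_lit 57442) (nat_lit 18) (.e (nat_lit 385068) (nat_lit 26) (.e (nat_lit 532560) (nat_lit 14) (.e (nat_lit 376842) (nat_lit 11) (.e (nat_lit 426098) (nat_lit 1) (.e (nat_lit 164179) (nat_lit 154) .nil)))))) (.g (nat_lit 6) .nil .nil)))) (.nd (nat_lit 5) 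
(.lf (nat_lit 160862) (.g (nat_lit 893) (.e (nat_lit 57442) (nat_lit 18) (.e (nat_lit 385068) (nat_lit 26) (.e (nat_lit 532551) (nat_lit 12) .nil))) .nil)) 
(.lf (nat_lit 160894) (.g (nat_lit 677) (.e (nat_lit 57442) (nat_lit 18) (.e (nat_lit 385074) (nat_lit 31) (.e (nat_lit 581376) (nat_lit 0) .nil))) .nil))))))) (.nd (nat_lit 1) (.nd (nat_lit 2) (.nd (nat_lit 3) (.nd (nat_lit 4) (.nd (nat_lit 5) 
(.lf (nat_lit 160833) (.g (nat_lit 2070) (.e (nat_lit 57442) (nat_lit 18) (.e (nat_lit 385068) (nat_lit 26) (.e (nat_lit 532530) (nat_lit 9) (.e (nat_lit 336211) (nat_lit 13) (.e (nat_lit 393253) (nat_lit 18) .nil))))) .nil)) 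
(.lf (nat_lit 160865) (.g (nat_lit 3022) (.e (nat_lit 57442) (nat_lit 18) (.e (nat_lit 385068) (nat_lit 26) (.e (nat_lit 532558) (nat_lit 14) (.e (nat_lit 376842) (nat_lit 11) (.e (nat_lit 426098) (nat_lit 1) (.e (nat_lit 164182) (nat_lit 154) .nil)))))) (.g (nat_lit 6) .nil .nil)))) (.nd (nat_lit 5) 
(.lf (nat_lit 160849) (.g (nat_lit 2685) (.e (nat_lit 57442) (nat_lit 18) (.e (nat_lit 385068) (nat_lit 26) (.e (nat_lit 532534) (nat_lit 9) (.e (nat_lit 336211) (nat_lit 13) (.e (nat_lit 393254) (nat_lit 18) (.e (nat_lit 164183) (nat_lit 154) .nil)))))) (.g (nat_lit 0) .nil .nil))) 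
(.lf (nat_lit 160881) (.g (nat_lit 2722) (.e (nat_lit 57442) (nat_lit 18) (.e (nat_lit 385068) (nat_lit 26) (.e (nat_lit 532560) (nat_lit 14) (.e (nat_lit 376842) (nat_lit 11) (.e (nat_lit 426099) (nat_lit 1) (.e (nat_lit 164183) (nat_lit 154) .nil)))))) (.g (nat_lit 5) .nil .nil))))) (.nd (nat_lit 4) (.nd (nat_lit 5) 
(.lf (nat_lit 160841) (.g (nat_lit 1138) (.e (nat_lit 57442) (nat_lit 18) (.e (nat_lit 385068) (nat_lit 26) (.e (nat_lit 532534) (nat_lit 9) (.e (nat_lit 336211) (nat_lit 13) .nil)))) .nil)) 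
(.lf (nat_lit 160873) (.g (nat_lit 2998) (.e (nat_lit 57442) (nat_lit 18) (.e (nat_lit 385068) (nat_lit 26) (.e (nat_lit 532558) (nat_lit 14) (.e (nat_lit 376842) (nat_lit 11) (.e (nat_lit 426108) (nat_lit 1) (.e (nat_lit 164183) (nat_lit 154) .nil)))))) (.g (nat_lit 0) .nil .nil)))) (.nd (nat_lit 5) 
(.lf (nat_lit 160857) (.g (nat_lit 891) (.e (nat_lit 57442) (nat_lit 18) (.e (nat_lit 385068) (nat_lit 26) (.e (nat_lit 532547) (nat_lit 11) .nil))) .nil)) 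
(.lf (nat_lit 160889) (.g (nat_lit 3291) (.e (nat_lit 57442) (nat_lit 18) (.e (nat_lit 385068) (nat_lit 26) (.e (nat_lit 532560) (nat_lit 14) (.e (nat_lit 376842) (nat_lit 11) (.e (nat_lit 426107) (nat_lit 1) (.e (nat_lit 164179) (nat_lit 154) .nil)))))) (.g (nat_lit 6) .nil .nil)))))) (.nd (nat_lit 3) (.nd (nat_lit 4) (.nd (nat_lit 5) 
(.lf (nat_lit 160837) (.g (nat_lit 2205) (.e (nat_lit 57442) (nat_lit 18) (.e (nat_lit 385068) (nat_lit 26) (.e (nat_lit 532530) (nat_lit 9) (.e (nat_lit 336310) (nat_lit 16) .nil)))) .nil)) 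
(.lf (nat_lit 160869) (.g (nat_lit 2357) (.e (nat_lit 57442) (nat_lit 18) (.e (nat_lit 385068) (nat_lit 26) (.e (nat_lit 532558) (nat_lit 14) (.e (nat_lit 376842) (nat_lit 11) (.e (nat_lit 426105) (nat_lit 1) (.e (nat_lit 164182) (nat_lit 154) .nil)))))) (.g (nat_lit 4) .nil .nil)))) (.nd (nat_lit 5) 
(.lf (nat_lit 160853) (.g (nat_lit 777) (.e (nat_lit 57442) (nat_lit 18) (.e (nat_lit 385068) (nat_lit 26) (.e (nat_lit 532542) (nat_lit 9) .nil))) .nil)) 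
(.lf (nat_lit 160885) (.g (nat_lit 2370) (.e (nat_lit 57442) (nat_lit 18) (.e (nat_lit 385068) (nat_lit 26) (.e (nat_lit 532560) (nat_lit 14) (.e (nat_lit 376842) (nat_lit 11) (.e (nat_lit 426105) (nat_lit 1) .nil))))) .nil)))) (.nd (nat_lit 4) (.nd (nat_lit 5) 
(.lf (nat_lit 160845) (.g (nat_lit 2960) (.e (nat_lit 57442) (nat_lit 18) (.e (nat_lit 385068) (nat_lit 26) (.e (nat_lit 532534) (nat_lit 9) (.e (nat_lit 336211) (nat_lit 13) (.e (nat_lit 393252) (nat_lit 18) (.e (nat_lit 164183) (nat_lit 154) .nil)))))) (.g (nat_lit 0) .nil .nil))) 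
(.lf (nat_lit 160877) (.g (nat_lit 1738) (.e (nat_lit 57442) (nat_lit 18) (.e (nat_lit 385068) (nat_lit 26) (.e (nat_lit 532560) (nat_lit 14) (.e (nat_lit 376841) (nat_lit 11) (.e (nat_lit 426107) (nat_lit 1) .nil))))) .nil))) (.nd (nat_lit 5) 
(.lf (nat_lit 160861) (.g (nat_lit 4243) (.e (nat_lit 57442) (nat_lit 18) (.e (nat_lit 385068) (nat_lit 26) (.e (nat_lit 532550) (nat_lit 12) (.e (nat_lit 360451) (nat_lit 0) (.e (nat_lit 7697) (nat_lit 412) .nil))))) .nil)) 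
(.lf (nat_lit 160893) (.g (nat_lit 2944) (.e (nat_lit 57442) (nat_lit 18) (.e (nat_lit 385068) (nat_lit 26) (.e (nat_lit 532560) (nat_lit 14) (.e (nat_lit 376860) (nat_lit 21) (.e (nat_lit 57692) (nat_lit 156) (.e (nat_lit 171776) (nat_lit 62) (.e (nat_lit 57854) (nat_lit 252) .nil))))))) (.g (nat_lit 5) .nil .nil))))))) (.nd (nat_lit 2) (.nd (nat_lit 3) (.nd (nat_lit 4) (.nd (nat_lit 5) 
(.lf (nat_lit 160835) (.g (nat_lit 2287) (.e (nat_lit 57442) (nat_lit 18) (.e (nat_lit 385068) (nat_lit 26) (.e (nat_lit 532530) (nat_lit 9) (.e (nat_lit 336211) (nat_lit 13) (.e (nat_lit 393254) (nat_lit 18) (.e (nat_lit 164179) (nat_lit 154) .nil)))))) (.g (nat_lit 4) .nil .nil))) 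
(.lf (nat_lit 160867) (.g (nat_lit 2984) (.e (nat_lit 57442) (nat_lit 18) (.e (nat_lit 385068) (nat_lit 26) (.e (nat_lit 532558) (nat_lit 14) (.e (nat_lit 376842) (nat_lit 11) (.e (nat_lit 426100) (nat_lit 1) (.e (nat_lit 164183) (nat_lit 154) .nil)))))) (.g (nat_lit 0) .nil .nil)))) (.nd (nat_lit 5) 
(.lf (nat_lit 160851) (.g (nat_lit 892) (.e (nat_lit 57442) (nat_lit 18) (.e (nat_lit 385068) (nat_lit 26) (.e (nat_lit 532536) (nat_lit 9) .nil))) .nil)) 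
(.lf (nat_lit 160883) (.g (nat_lit 3201) (.e (nat_lit 57442) (nat_lit 18) (.e (nat_lit 385068) (nat_lit 26) (.e (nat_lit 532560) (nat_lit 14) (.e (nat_lit 376842) (nat_lit 11) (.e (nat_lit 426100) (nat_lit 1) (.e (nat_lit 164182) (nat_lit 154) .nil)))))) (.g (nat_lit 6) .nil .nil))))) (.nd (nat_lit 4) (.nd (nat_lit 5) 
(.lf (nat_lit 160843) (.g (nat_lit 3241) (.e (nat_lit 57442) (nat_lit 18) (.e (nat_lit 385068) (nat_lit 26) (.e (nat_lit 532534) (nat_lit 9) (.e (nat_lit 336211) (nat_lit 13) (.e (nat_lit 393251) (nat_lit 18) (.e (nat_lit 164182) (nat_lit 154) .nil)))))) (.g (nat_lit 6) .nil .nil))) 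
(.lf (nat_lit 160875) (.g (nat_lit 1188) (.e (nat_lit 57442) (nat_lit 18) (.e (nat_lit 385068) (nat_lit 26) (.e (nat_lit 532560) (nat_lit 14) (.e (nat_lit 376838) (nat_lit 11) .nil)))) .nil))) (.nd (nat_lit 5) 
(.lf (nat_lit 160859) (.g (nat_lit 4720) (.e (nat_lit 57442) (nat_lit 18) (.e (nat_lit 385068) (nat_lit 26) (.e (nat_lit 532550) (nat_lit 12) (.e (nat_lit 360450) (nat_lit 0) (.e (nat_lit 7695) (nat_lit 412) .nil))))) .nil)) 
(.lf (nat_lit 160891) (.g (nat_lit 3400) (.e (nat_lit 57442) (nat_lit 18) (.e (nat_lit 385068) (nat_lit 26) (.e (nat_lit 532560) (nat_lit 14) (.e (nat_lit 376842) (nat_lit 11) (.e (nat_lit 426108) (nat_lit 1) (.e (nat_lit 164182) (nat_lit 154) .nil)))))) (.g (nat_lit 6) .nil .nil)))))) (.nd (nat_lit 3) (.nd (nat_lit 4) (.nd (nat_lit 5) 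
(.lf (nat_lit 160839) (.g (nat_lit 2471) (.e (nat_lit 57442) (nat_lit 18) (.e (nat_lit 385068) (nat_lit 26) (.e (nat_lit 532533) (nat_lit 9) (.e (nat_lit 336211) (nat_lit 13) (.e (nat_lit 393253) (nat_lit 18) (.e (nat_lit 164183) (nat_lit 154) .nil)))))) (.g (nat_lit 0) .nil .nil))) 
(.lf (nat_lit 160871) (.g (nat_lit 3336) (.e (nat_lit 57442) (nat_lit 18) (.e (nat_lit 385068) (nat_lit 26) (.e (nat_lit 532558) (nat_lit 14) (.e (nat_lit 376842) (nat_lit 11) (.e (nat_lit 426107) (nat_lit 1) (.e (nat_lit 164182) (nat_lit 154) .nil)))))) (.g (nat_lit 6) .nil .nil)))) (.nd (nat_lit 5) 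
(.lf (nat_lit 160855) (.g (nat_lit 3881) (.e (nat_lit 57442) (nat_lit 18) (.e (nat_lit 385068) (nat_lit 26) (.e (nat_lit 532542) (nat_lit 9) (.e (nat_lit 336213) (nat_lit 13) (.e (nat_lit 393251) (nat_lit 18) (.e (nat_lit 164182) (nat_lit 154) .nil)))))) (.g (nat_lit 6) .nil .nil))) 
(.lf (nat_lit 160887) (.g (nat_lit 2728) (.e (nat_lit 57442) (nat_lit 18) (.e (nat_lit 385068) (nat_lit 26) (.e (nat_lit 532560) (nat_lit 14) (.e (nat_lit 376842) (nat_lit 11) (.e (nat_lit 426106) (nat_lit 1) (.e (nat_lit 164183) (nat_lit 154) .nil)))))) (.g (nat_lit 0) .nil .nil))))) (.nd (nat_lit 4) (.nd (nat_lit 5) 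
(.lf (nat_lit 160847) (.g (nat_lit 3312) (.e (nat_lit 57442) (nat_lit 18) (.e (nat_lit 385068) (nat_lit 26) (.e (nat_lit 532534) (nat_lit 9) (.e (nat_lit 336211) (nat_lit 13) (.e (nat_lit 393253) (nat_lit 18) (.e (nat_lit 164182) (nat_lit 154) .nil)))))) (.g (nat_lit 6) .nil .nil))) 
(.lf (nat_lit 160879) (.g (nat_lit 3161) (.e (nat_lit 57442) (nat_lit 18) (.e (nat_lit 385068) (nat_lit 26) (.e (nat_lit 532560) (nat_lit 14) (.e (nat_lit 376842) (nat_lit 11) (.e (nat_lit 426098) (nat_lit 1) (.e (nat_lit 164182) (nat_lit 154) .nil)))))) (.g (nat_lit 6) .nil .nil)))) (.nd (nat_lit 5) 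
(.lf (nat_lit 160863) (.g (nat_lit 1155) (.e (nat_lit 57442) (nat_lit 18) (.e (nat_lit 385068) (nat_lit 26) (.e (nat_lit 532558) (nat_lit 14) (.e (nat_lit 376838) (nat_lit 11) .nil)))) .nil)) 
(.lf (nat_lit 160895) (.g (nat_lit 2787) (.e (nat_lit 57442) (nat_lit 18) (.e (nat_lit 385074) (nat_lit 31) (.e (nat_lit 573484) (nat_lit 13) (.e (nat_lit 65617) (nat_lit 10) (.e (nat_lit 344127) (nat_lit 26) .nil))))) .nil))))))))

noncomputable def tv2154 : DT := (.nd (nat_lit 0) (.nd (nat_lit 1) (.nd (nat_lit 2) (.nd (nat_lit 3) (.nd (nat_lit 4) (.nd (nat_lit 5) 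
(.lf (nat_lit 160896) (.g (nat_lit 2453) (.e (nat_lit 57442) (nat_lit 18) (.e (nat_lit 385074) (nat_lit 31) (.e (nat_lit 573484) (nat_lit 13) (.e (nat_lit 65617) (nat_lit 10) (.e (nat_lit 344130) (nat_lit 26) .nil))))) .nil)) 
(.lf (nat_lit 160928) (.g (nat_lit 1160) (.e (nat_lit 57443) (nat_lit 18) (.e (nat_lit 385066) (nat_lit 26) (.e (nat_lit 532534) (nat_lit 9) (.e (nat_lit 336211) (nat_lit 13) .nil)))) .nil))) (.nd (nat_lit 5) 
(.lf (nat_lit 160912) (.g (nat_lit 3165) (.e (nat_lit 57442) (nat_lit 18) (.e (nat_lit 385074) (nat_lit 31) (.e (nat_lit 573484) (nat_lit 13) (.e (nat_lit 65617) (nat_lit 10) (.e (nat_lit 344133) (nat_lit 26) (.e (nat_lit 557091) (nat_lit 12) (.e (nat_lit 163844) (nat_lit 0) (.e (nat_lit 6067) (nat_lit 328) .nil)))))))) (.g (nat_lit 5) .nil .nil))) 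
(.lf (nat_lit 160944) (.g (nat_lit 1603) (.e (nat_lit 57443) (nat_lit 18) (.e (nat_lit 385066) (nat_lit 26) (.e (nat_lit 532560) (nat_lit 14) (.e (nat_lit 376838) (nat_lit 11) .nil)))) .nil)))) (.nd (nat_lit 4) (.nd (nat_lit 5) 
(.lf (nat_lit 160904) (.g (nat_lit 4808) (.e (nat_lit 57442) (nat_lit 18) (.e (nat_lit 385074) (nat_lit 31) (.e (nat_lit 573484) (nat_lit 13) (.e (nat_lit 65617) (nat_lit 10) (.e (nat_lit 344130) (nat_lit 26) (.e (nat_lit 557090) (nat_lit 12) (.e (nat_lit 163844) (nat_lit 0) (.e (nat_lit 6065) (nat_lit 328) .nil)))))))) (.g (nat_lit 7) .nil .nil))) 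
(.lf (nat_lit 160936) (.g (nat_lit 2547) (.e (nat_lit 57443) (nat_lit 18) (.e (nat_lit 385066) (nat_lit 26) (.e (nat_lit 532534) (nat_lit 9) (.e (nat_lit 336211) (nat_lit 13) (.e (nat_lit 393254) (nat_lit 18) (.e (nat_lit 164183) (nat_lit 154) .nil)))))) (.g (nat_lit 0) .nil .nil)))) (.nd (nat_lit 5) 
(.lf (nat_lit 160920) (.g (nat_lit 2541) (.e (nat_lit 57443) (nat_lit 18) (.e (nat_lit 385066) (nat_lit 26) (.e (nat_lit 532533) (nat_lit 9) (.e (nat_lit 336211) (nat_lit 13) (.e (nat_lit 393252) (nat_lit 18) (.e (nat_lit 164182) (nat_lit 154) .nil)))))) (.g (nat_lit 0) .nil .nil))) 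
(.lf (nat_lit 160952) (.g (nat_lit 3405) (.e (nat_lit 57443) (nat_lit 18) (.e (nat_lit 385066) (nat_lit 26) (.e (nat_lit 532560) (nat_lit 14) (.e (nat_lit 376842) (nat_lit 11) (.e (nat_lit 426108) (nat_lit 1) (.e (nat_lit 164182) (nat_lit 154) .nil)))))) (.g (nat_lit 0) .nil .nil)))))) (.nd (nat_lit 3) (.nd (nat_lit 4) (.nd (nat_lit 5) 
(.lf (nat_lit 160900) (.g (nat_lit 3245) (.e (nat_lit 57442) (nat_lit 18) (.e (nat_lit 385074) (nat_lit 31) (.e (nat_lit 573484) (nat_lit 13) (.e (nat_lit 65617) (nat_lit 10) (.e (nat_lit 344130) (nat_lit 26) (.e (nat_lit 557090) (nat_lit 12) (.e (nat_lit 163841) (nat_lit 0) (.e (nat_lit 6068) (nat_lit 328) .nil)))))))) (.g (nat_lit 5) .nil .nil))) 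
(.lf (nat_lit 160932) (.g (nat_lit 3303) (.e (nat_lit 57443) (nat_lit 18) (.e (nat_lit 385066) (nat_lit 26) (.e (nat_lit 532534) (nat_lit 9) (.e (nat_lit 336211) (nat_lit 13) (.e (nat_lit 393253) (nat_lit 18) (.e (nat_lit 164179) (nat_lit 154) .nil)))))) (.g (nat_lit 0) .nil .nil)))) (.nd (nat_lit 5) 
(.lf (nat_lit 160916) (.g (nat_lit 4265) (.e (nat_lit 57442) (nat_lit 18) (.e (nat_lit 385074) (nat_lit 31) (.e (nat_lit 573493) (nat_lit 15) (.e (nat_lit 81956) (nat_lit 23) (.e (nat_lit 98334) (nat_lit 18) (.e (nat_lit 171776) (nat_lit 262) .nil)))))) (.g (nat_lit 5) .nil .nil))) 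
(.lf (nat_lit 160948) (.g (nat_lit 2162) (.e (nat_lit 57443) (nat_lit 18) (.e (nat_lit 385066) (nat_lit 26) (.e (nat_lit 532560) (nat_lit 14) (.e (nat_lit 376842) (nat_lit 11) (.e (nat_lit 426105) (nat_lit 1) (.e (nat_lit 164182) (nat_lit 154) .nil)))))) (.g (nat_lit 4) .nil .nil))))) (.nd (nat_lit 4) (.nd (nat_lit 5) 
(.lf (nat_lit 160908) (.g (nat_lit 3287) (.e (nat_lit 57442) (nat_lit 18) (.e (nat_lit 385074) (nat_lit 31) (.e (nat_lit 573484) (nat_lit 13) (.e (nat_lit 65617) (nat_lit 10) (.e (nat_lit 344133) (nat_lit 26) (.e (nat_lit 557091) (nat_lit 12) (.e (nat_lit 163840) (nat_lit 0) (.e (nat_lit 6065) (nat_lit 328) .nil)))))))) (.g (nat_lit 5) .nil .nil))) 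
(.lf (nat_lit 160940) (.g (nat_lit 1909) (.e (nat_lit 57443) (nat_lit 18) (.e (nat_lit 385066) (nat_lit 26) (.e (nat_lit 532558) (nat_lit 14) (.e (nat_lit 376842) (nat_lit 11) (.e (nat_lit 426106) (nat_lit 1) (.e (nat_lit 164177) (nat_lit 154) .nil)))))) (.g (nat_lit 5) .nil .nil)))) (.nd (nat_lit 5) 
(.lf (nat_lit 160924) (.g (nat_lit 2338) (.e (nat_lit 57443) (nat_lit 18) (.e (nat_lit 385066) (nat_lit 26) (.e (nat_lit 532533) (nat_lit 9) (.e (nat_lit 336211) (nat_lit 13) (.e (nat_lit 393253) (nat_lit 18) (.e (nat_lit 164183) (nat_lit 154) .nil)))))) (.g (nat_lit 0) .nil .nil))) 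
(.lf (nat_lit 160956) (.g (nat_lit 2189) (.e (nat_lit 57443) (nat_lit 18) (.e (nat_lit 385068) (nat_lit 26) (.e (nat_lit 532530) (nat_lit 9) (.e (nat_lit 336211) (nat_lit 13) (.e (nat_lit 393252) (nat_lit 18) .nil))))) .nil)))))) (.nd (nat_lit 2) (.nd (nat_lit 3) (.nd (nat_lit 4) (.nd (nat_lit 5) 
(.lf (nat_lit 160898) (.g (nat_lit 2715) (.e (nat_lit 57442) (nat_lit 18) (.e (nat_lit 385074) (nat_lit 31) (.e (nat_lit 573484) (nat_lit 13) (.e (nat_lit 65617) (nat_lit 10) (.e (nat_lit 344130) (nat_lit 26) (.e (nat_lit 557089) (nat_lit 12) (.e (nat_lit 163844) (nat_lit 0) (.e (nat_lit 6063) (nat_lit 328) .nil)))))))) (.g (nat_lit 4) .nil .nil))) 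
(.lf (nat_lit 160930) (.g (nat_lit 1772) (.e (nat_lit 57443) (nat_lit 18) (.e (nat_lit 385066) (nat_lit 26) (.e (nat_lit 532534) (nat_lit 9) (.e (nat_lit 336211) (nat_lit 13) (.e (nat_lit 393253) (nat_lit 18) (.e (nat_lit 164176) (nat_lit 154) .nil)))))) (.g (nat_lit 4) .nil .nil)))) (.nd (nat_lit 5) 
(.lf (nat_lit 160914) (.g (nat_lit 2635) (.e (nat_lit 57442) (nat_lit 18) (.e (nat_lit 385074) (nat_lit 31) (.e (nat_lit 573491) (nat_lit 15) (.e (nat_lit 81954) (nat_lit 23) (.e (nat_lit 98334) (nat_lit 18) (.e (nat_lit 171776) (nat_lit 262) .nil)))))) (.g (nat_lit 5) .nil .nil))) 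
(.lf (nat_lit 160946) (.g (nat_lit 3137) (.e (nat_lit 57443) (nat_lit 18) (.e (nat_lit 385066) (nat_lit 26) (.e (nat_lit 532560) (nat_lit 14) (.e (nat_lit 376842) (nat_lit 11) (.e (nat_lit 426100) (nat_lit 1) (.e (nat_lit 164182) (nat_lit 154) .nil)))))) (.g (nat_lit 0) .nil .nil))))) (.nd (nat_lit 4) (.nd (nat_lit 5) 
(.lf (nat_lit 160906) (.g (nat_lit 2400) (.e (nat_lit 57442) (nat_lit 18) (.e (nat_lit 385074) (nat_lit 31) (.e (nat_lit 573484) (nat_lit 13) (.e (nat_lit 65617) (nat_lit 10) (.e (nat_lit 344133) (nat_lit 26) .nil))))) .nil)) 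
(.lf (nat_lit 160938) (.g (nat_lit 2077) (.e (nat_lit 57443) (nat_lit 18) (.e (nat_lit 385066) (nat_lit 26) (.e (nat_lit 532558) (nat_lit 14) (.e (nat_lit 376842) (nat_lit 11) (.e (nat_lit 426105) (nat_lit 1) .nil))))) .nil))) (.nd (nat_lit 5) 
(.lf (nat_lit 160922) (.g (nat_lit 1680) (.e (nat_lit 57443) (nat_lit 18) (.e (nat_lit 385066) (nat_lit 26) (.e (nat_lit 532533) (nat_lit 9) (.e (nat_lit 336211) (nat_lit 13) (.e (nat_lit 393253) (nat_lit 18) (.e (nat_lit 164178) (nat_lit 154) .nil)))))) (.g (nat_lit 5) .nil .nil))) 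
(.lf (nat_lit 160954) (.g (nat_lit 891) (.e (nat_lit 57443) (nat_lit 18) (.e (nat_lit 385068) (nat_lit 26) (.e (nat_lit 532527) (nat_lit 9) .nil))) .nil))))) (.nd (nat_lit 3) (.nd (nat_lit 4) (.nd (nat_lit 5) 
(.lf (nat_lit 160902) (.g (nat_lit 4046) (.e (nat_lit 57442) (nat_lit 18) (.e (nat_lit 385074) (nat_lit 31) (.e (nat_lit 573484) (nat_lit 13) (.e (nat_lit 65617) (nat_lit 10) (.e (nat_lit 344130) (nat_lit 26) (.e (nat_lit 557090) (nat_lit 12) (.e (nat_lit 163843) (nat_lit 0) (.e (nat_lit 6067) (nat_lit 328) .nil)))))))) (.g (nat_lit 6) .nil .nil))) 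
(.lf (nat_lit 160934) (.g (nat_lit 2019) (.e (nat_lit 57443) (nat_lit 18) (.e (nat_lit 385066) (nat_lit 26) (.e (nat_lit 532534) (nat_lit 9) (.e (nat_lit 336211) (nat_lit 13) (.e (nat_lit 393254) (nat_lit 18) (.e (nat_lit 164177) (nat_lit 154) .nil)))))) (.g (nat_lit 5) .nil .nil)))) (.nd (nat_lit 5) 
(.lf (nat_lit 160918) (.g (nat_lit 938) (.e (nat_lit 57442) (nat_lit 18) (.e (nat_lit 385109) (nat_lit 51) (.e (nat_lit 802560) (nat_lit 1) .nil))) .nil)) 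
(.lf (nat_lit 160950) (.g (nat_lit 2518) (.e (nat_lit 57443) (nat_lit 18) (.e (nat_lit 385066) (nat_lit 26) (.e (nat_lit 532560) (nat_lit 14) (.e (nat_lit 376842) (nat_lit 11) (.e (nat_lit 426106) (nat_lit 1) (.e (nat_lit 164183) (nat_lit 154) .nil)))))) (.g (nat_lit 0) .nil .nil))))) (.nd (nat_lit 4) (.nd (nat_lit 5) 
(.lf (nat_lit 160910) (.g (nat_lit 3177) (.e (nat_lit 57442) (nat_lit 18) (.e (nat_lit 385074) (nat_lit 31) (.e (nat_lit 573484) (nat_lit 13) (.e (nat_lit 65617) (nat_lit 10) (.e (nat_lit 344133) (nat_lit 26) (.e (nat_lit 557091) (nat_lit 12) (.e (nat_lit 163841) (nat_lit 0) (.e (nat_lit 6067) (nat_lit 328) .nil)))))))) (.g (nat_lit 5) .nil .nil))) 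
(.lf (nat_lit 160942) (.g (nat_lit 3222) (.e (nat_lit 57443) (nat_lit 18) (.e (nat_lit 385066) (nat_lit 26) (.e (nat_lit 532558) (nat_lit 14) (.e (nat_lit 376842) (nat_lit 11) (.e (nat_lit 426107) (nat_lit 1) (.e (nat_lit 164179) (nat_lit 154) .nil)))))) (.g (nat_lit 0) .nil .nil)))) (.nd (nat_lit 5) 
(.lf (nat_lit 160926) (.g (nat_lit 2458) (.e (nat_lit 57443) (nat_lit 18) (.e (nat_lit 385066) (nat_lit 26) (.e (nat_lit 532533) (nat_lit 9) (.e (nat_lit 336211) (nat_lit 13) (.e (nat_lit 393254) (nat_lit 18) (.e (nat_lit 164179) (nat_lit 154) .nil)))))) (.g (nat_lit 0) .nil .nil))) 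
(.lf (nat_lit 160958) (.g (nat_lit 2793) (.e (nat_lit 57443) (nat_lit 18) (.e (nat_lit 385068) (nat_lit 26) (.e (nat_lit 532530) (nat_lit 9) (.e (nat_lit 336211) (nat_lit 13) (.e (nat_lit 393252) (nat_lit 18) (.e (nat_lit 164183) (nat_lit 154) .nil)))))) (.g (nat_lit 5) .nil .nil)))))))) (.nd (nat_lit 1) (.nd (nat_lit 2) (.nd (nat_lit 3) (.nd (nat_lit 4) (.nd (nat_lit 5) 
(.lf (nat_lit 160897) (.g (nat_lit 2487) (.e (nat_lit 57442) (nat_lit 18) (.e (nat_lit 385074) (nat_lit 31) (.e (nat_lit 573484) (nat_lit 13) (.e (nat_lit 65617) (nat_lit 10) (.e (nat_lit 344130) (nat_lit 26) (.e (nat_lit 557089) (nat_lit 12) (.e (nat_lit 163843) (nat_lit 0) (.e (nat_lit 6068) (nat_lit 328) .nil)))))))) (.g (nat_lit 4) .nil .nil))) 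
(.lf (nat_lit 160929) (.g (nat_lit 3091) (.e (nat_lit 57443) (nat_lit 18) (.e (nat_lit 385066) (nat_lit 26) (.e (nat_lit 532534) (nat_lit 9) (.e (nat_lit 336211) (nat_lit 13) (.e (nat_lit 393252) (nat_lit 18) (.e (nat_lit 164182) (nat_lit 154) .nil)))))) (.g (nat_lit 0) .nil .nil)))) (.nd (nat_lit 5) 
(.lf (nat_lit 160913) (.g (nat_lit 4304) (.e (nat_lit 57442) (nat_lit 18) (.e (nat_lit 385074) (nat_lit 31) (.e (nat_lit 573484) (nat_lit 13) (.e (nat_lit 65617) (nat_lit 10) (.e (nat_lit 344133) (nat_lit 26) (.e (nat_lit 557091) (nat_lit 12) (.e (nat_lit 163844) (nat_lit 0) (.e (nat_lit 6068) (nat_lit 328) .nil)))))))) (.g (nat_lit 7) .nil .nil))) 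
(.lf (nat_lit 160945) (.g (nat_lit 2472) (.e (nat_lit 57443) (nat_lit 18) (.e (nat_lit 385066) (nat_lit 26) (.e (nat_lit 532560) (nat_lit 14) (.e (nat_lit 376842) (nat_lit 11) (.e (nat_lit 426099) (nat_lit 1) (.e (nat_lit 164182) (nat_lit 154) .nil)))))) (.g (nat_lit 5) .nil .nil))))) (.nd (nat_lit 4) (.nd (nat_lit 5) 
(.lf (nat_lit 160905) (.g (nat_lit 2469) (.e (nat_lit 57442) (nat_lit 18) (.e (nat_lit 385074) (nat_lit 31) (.e (nat_lit 573484) (nat_lit 13) (.e (nat_lit 65617) (nat_lit 10) (.e (nat_lit 344132) (nat_lit 26) .nil))))) .nil)) 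
(.lf (nat_lit 160937) (.g (nat_lit 438) (.e (nat_lit 57443) (nat_lit 18) (.e (nat_lit 385066) (nat_lit 26) (.e (nat_lit 532537) (nat_lit 9) .nil))) .nil))) (.nd (nat_lit 5) 
(.lf (nat_lit 160921) (.g (nat_lit 1790) (.e (nat_lit 57443) (nat_lit 18) (.e (nat_lit 385066) (nat_lit 26) (.e (nat_lit 532533) (nat_lit 9) (.e (nat_lit 336211) (nat_lit 13) (.e (nat_lit 393253) (nat_lit 18) (.e (nat_lit 164177) (nat_lit 154) .nil)))))) (.g (nat_lit 5) .nil .nil))) 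
(.lf (nat_lit 160953) (.g (nat_lit 2950) (.e (nat_lit 57443) (nat_lit 18) (.e (nat_lit 385066) (nat_lit 26) (.e (nat_lit 532560) (nat_lit 14) (.e (nat_lit 376842) (nat_lit 11) (.e (nat_lit 426108) (nat_lit 1) (.e (nat_lit 164183) (nat_lit 154) .nil)))))) (.g (nat_lit 0) .nil .nil)))))) (.nd (nat_lit 3) (.nd (nat_lit 4) (.nd (nat_lit 5) 
(.lf (nat_lit 160901) (.g (nat_lit 3976) (.e (nat_lit 57442) (nat_lit 18) (.e (nat_lit 385074) (nat_lit 31) (.e (nat_lit 573484) (nat_lit 13) (.e (nat_lit 65617) (nat_lit 10) (.e (nat_lit 344130) (nat_lit 26) (.e (nat_lit 557090) (nat_lit 12) (.e (nat_lit 163843) (nat_lit 0) (.e (nat_lit 6065) (nat_lit 328) .nil)))))))) (.g (nat_lit 6) .nil .nil))) 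
(.lf (nat_lit 160933) (.g (nat_lit 2872) (.e (nat_lit 57443) (nat_lit 18) (.e (nat_lit 385066) (nat_lit 26) (.e (nat_lit 532534) (nat_lit 9) (.e (nat_lit 336211) (nat_lit 13) (.e (nat_lit 393253) (nat_lit 18) (.e (nat_lit 164183) (nat_lit 154) .nil)))))) (.g (nat_lit 0) .nil .nil)))) (.nd (nat_lit 5) 
(.lf (nat_lit 160917) (.g (nat_lit 721) (.e (nat_lit 57442) (nat_lit 18) (.e (nat_lit 385094) (nat_lit 49) (.e (nat_lit 778323) (nat_lit 5) .nil))) .nil)) 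
(.lf (nat_lit 160949) (.g (nat_lit 1952) (.e (nat_lit 57443) (nat_lit 18) (.e (nat_lit 385066) (nat_lit 26) (.e (nat_lit 532560) (nat_lit 14) (.e (nat_lit 376842) (nat_lit 11) (.e (nat_lit 426106) (nat_lit 1) (.e (nat_lit 164177) (nat_lit 154) .nil)))))) (.g (nat_lit 5) .nil .nil))))) (.nd (nat_lit 4) (.nd (nat_lit 5) 
(.lf (nat_lit 160909) (.g (nat_lit 3259) (.e (nat_lit 57442) (nat_lit 18) (.e (nat_lit 385074) (nat_lit 31) (.e (nat_lit 573484) (nat_lit 13) (.e (nat_lit 65617) (nat_lit 10) (.e (nat_lit 344133) (nat_lit 26) (.e (nat_lit 557091) (nat_lit 12) (.e (nat_lit 163840) (nat_lit 0) (.e (nat_lit 6068) (nat_lit 328) .nil)))))))) (.g (nat_lit 5) .nil .nil))) 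
(.lf (nat_lit 160941) (.g (nat_lit 2862) (.e (nat_lit 57443) (nat_lit 18) (.e (nat_lit 385066) (nat_lit 26) (.e (nat_lit 532558) (nat_lit 14) (.e (nat_lit 376842) (nat_lit 11) (.e (nat_lit 426106) (nat_lit 1) (.e (nat_lit 164179) (nat_lit 154) .nil)))))) (.g (nat_lit 0) .nil .nil)))) (.nd (nat_lit 5) 
(.lf (nat_lit 160925) (.g (nat_lit 1503) (.e (nat_lit 57443) (nat_lit 18) (.e (nat_lit 385066) (nat_lit 26) (.e (nat_lit 532533) (nat_lit 9) (.e (nat_lit 336211) (nat_lit 13) (.e (nat_lit 393254) (nat_lit 18) (.e (nat_lit 164177) (nat_lit 154) .nil)))))) (.g (nat_lit 5) .nil .nil))) 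
(.lf (nat_lit 160957) (.g (nat_lit 2841) (.e (nat_lit 57443) (nat_lit 18) (.e (nat_lit 385068) (nat_lit 26) (.e (nat_lit 532530) (nat_lit 9) (.e (nat_lit 336211) (nat_lit 13) (.e (nat_lit 393252) (nat_lit 18) (.e (nat_lit 164182) (nat_lit 154) .nil)))))) (.g (nat_lit 5) .nil .nil))))))) (.nd (nat_lit 2) (.nd (nat_lit 3) (.nd (nat_lit 4) (.nd (nat_lit 5) 
(.lf (nat_lit 160899) (.g (nat_lit 2577) (.e (nat_lit 57442) (nat_lit 18) (.e (nat_lit 385074) (nat_lit 31) (.e (nat_lit 573484) (nat_lit 13) (.e (nat_lit 65617) (nat_lit 10) (.e (nat_lit 344130) (nat_lit 26) (.e (nat_lit 557090) (nat_lit 12) (.e (nat_lit 163841) (nat_lit 0) (.e (nat_lit 6065) (nat_lit 328) .nil)))))))) (.g (nat_lit 4) .nil .nil))) 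
(.lf (nat_lit 160931) (.g (nat_lit 2166) (.e (nat_lit 57443) (nat_lit 18) (.e (nat_lit 385066) (nat_lit 26) (.e (nat_lit 532534) (nat_lit 9) (.e (nat_lit 336211) (nat_lit 13) (.e (nat_lit 393253) (nat_lit 18) (.e (nat_lit 164178) (nat_lit 154) .nil)))))) (.g (nat_lit 5) .nil .nil)))) (.nd (nat_lit 5) 
(.lf (nat_lit 160915) (.g (nat_lit 4654) (.e (nat_lit 57442) (nat_lit 18) (.e (nat_lit 385074) (nat_lit 31) (.e (nat_lit 573493) (nat_lit 15) (.e (nat_lit 81956) (nat_lit 23) (.e (nat_lit 98333) (nat_lit 18) (.e (nat_lit 171776) (nat_lit 262) .nil)))))) (.g (nat_lit 4) .nil .nil))) 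
(.lf (nat_lit 160947) (.g (nat_lit 2154) (.e (nat_lit 57443) (nat_lit 18) (.e (nat_lit 385066) (nat_lit 26) (.e (nat_lit 532560) (nat_lit 14) (.e (nat_lit 376842) (nat_lit 11) (.e (nat_lit 426105) (nat_lit 1) .nil))))) .nil)))) (.nd (nat_lit 4) (.nd (nat_lit 5) 
(.lf (nat_lit 160907) (.g (nat_lit 2491) (.e (nat_lit 57442) (nat_lit 18) (.e (nat_lit 385074) (nat_lit 31) (.e (nat_lit 573484) (nat_lit 13) (.e (nat_lit 65617) (nat_lit 10) (.e (nat_lit 344133) (nat_lit 26) (.e (nat_lit 557089) (nat_lit 12) (.e (nat_lit 163843) (nat_lit 0) (.e (nat_lit 6068) (nat_lit 328) .nil)))))))) (.g (nat_lit 4) .nil .nil))) 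
(.lf (nat_lit 160939) (.g (nat_lit 2291) (.e (nat_lit 57443) (nat_lit 18) (.e (nat_lit 385066) (nat_lit 26) (.e (nat_lit 532558) (nat_lit 14) (.e (nat_lit 376842) (nat_lit 11) (.e (nat_lit 426105) (nat_lit 1) (.e (nat_lit 164182) (nat_lit 154) .nil)))))) (.g (nat_lit 5) .nil .nil)))) (.nd (nat_lit 5) 
(.lf (nat_lit 160923) (.g (nat_lit 2772) (.e (nat_lit 57443) (nat_lit 18) (.e (nat_lit 385066) (nat_lit 26) (.e (nat_lit 532533) (nat_lit 9) (.e (nat_lit 336211) (nat_lit 13) (.e (nat_lit 393253) (nat_lit 18) (.e (nat_lit 164179) (nat_lit 154) .nil)))))) (.g (nat_lit 0) .nil .nil))) 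
(.lf (nat_lit 160955) (.g (nat_lit 1626) (.e (nat_lit 57443) (nat_lit 18) (.e (nat_lit 385068) (nat_lit 26) (.e (nat_lit 532530) (nat_lit 9) (.e (nat_lit 336211) (nat_lit 13) .nil)))) .nil))))) (.nd (nat_lit 3) (.nd (nat_lit 4) (.nd (nat_lit 5) 
(.lf (nat_lit 160903) (.g (nat_lit 3234) (.e (nat_lit 57442) (nat_lit 18) (.e (nat_lit 385074) (nat_lit 31) (.e (nat_lit 573484) (nat_lit 13) (.e (nat_lit 65617) (nat_lit 10) (.e (nat_lit 344130) (nat_lit 26) (.e (nat_lit 557090) (nat_lit 12) (.e (nat_lit 163844) (nat_lit 0) (.e (nat_lit 6063) (nat_lit 328) .nil)))))))) (.g (nat_lit 5) .nil .nil))) 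
(.lf (nat_lit 160935) (.g (nat_lit 2995) (.e (nat_lit 57443) (nat_lit 18) (.e (nat_lit 385066) (nat_lit 26) (.e (nat_lit 532534) (nat_lit 9) (.e (nat_lit 336211) (nat_lit 13) (.e (nat_lit 393254) (nat_lit 18) (.e (nat_lit 164179) (nat_lit 154) .nil)))))) (.g (nat_lit 0) .nil .nil)))) (.nd (nat_lit 5) 
(.lf (nat_lit 160919) (.g (nat_lit 1962) (.e (nat_lit 57443) (nat_lit 18) (.e (nat_lit 385066) (nat_lit 26) (.e (nat_lit 532533) (nat_lit 9) (.e (nat_lit 336211) (nat_lit 13) (.e (nat_lit 393252) (nat_lit 18) (.e (nat_lit 164181) (nat_lit 154) .nil)))))) (.g (nat_lit 5) .nil .nil))) 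
(.lf (nat_lit 160951) (.g (nat_lit 3306) (.e (nat_lit 57443) (nat_lit 18) (.e (nat_lit 385066) (nat_lit 26) (.e (nat_lit 532560) (nat_lit 14) (.e (nat_lit 376842) (nat_lit 11) (.e (nat_lit 426107) (nat_lit 1) (.e (nat_lit 164179) (nat_lit 154) .nil)))))) (.g (nat_lit 0) .nil .nil))))) (.nd (nat_lit 4) (.nd (nat_lit 5) 
(.lf (nat_lit 160911) (.g (nat_lit 4096) (.e (nat_lit 57442) (nat_lit 18) (.e (nat_lit 385074) (nat_lit 31) (.e (nat_lit 573484) (nat_lit 13) (.e (nat_lit 65617) (nat_lit 10) (.e (nat_lit 344133) (nat_lit 26) (.e (nat_lit 557091) (nat_lit 12) (.e (nat_lit 163843) (nat_lit 0) (.e (nat_lit 6067) (nat_lit 328) .nil)))))))) (.g (nat_lit 6) .nil .nil))) 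
(.lf (nat_lit 160943) (.g (nat_lit 3368) (.e (nat_lit 57443) (nat_lit 18) (.e (nat_lit 385066) (nat_lit 26) (.e (nat_lit 532558) (nat_lit 14) (.e (nat_lit 376842) (nat_lit 11) (.e (nat_lit 426108) (nat_lit 1) (.e (nat_lit 164182) (nat_lit 154) .nil)))))) (.g (nat_lit 0) .nil .nil)))) (.nd (nat_lit 5) 
(.lf (nat_lit 160927) (.g (nat_lit 2007) (.e (nat_lit 57443) (nat_lit 18) (.e (nat_lit 385066) (nat_lit 26) (.e (nat_lit 532533) (nat_lit 9) (.e (nat_lit 336211) (nat_lit 13) (.e (nat_lit 393254) (nat_lit 18) (.e (nat_lit 164183) (nat_lit 154) .nil)))))) (.g (nat_lit 0) .nil .nil))) 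
(.lf (nat_lit 160959) (.g (nat_lit 2108) (.e (nat_lit 57443) (nat_lit 18) (.e (nat_lit 385068) (nat_lit 26) (.e (nat_lit 532530) (nat_lit 9) (.e (nat_lit 336211) (nat_lit 13) (.e (nat_lit 393253) (nat_lit 18) .nil))))) .nil))))))))

noncomputable def tv2155 : DT := (.nd (nat_lit 0) (.nd (nat_lit 1) (.nd (nat_lit 2) (.nd (nat_lit 3) (.nd (nat_lit 4) (.nd (nat_lit 5) 
(.lf (nat_lit 160960) (.g (nat_lit 2204) (.e (nat_lit 57443) (nat_lit 18) (.e (nat_lit 385068) (nat_lit 26) (.e (nat_lit 532530) (nat_lit 9) (.e (nat_lit 336211) (nat_lit 13) (.e (nat_lit 393254) (nat_lit 18) .nil))))) .nil)) 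
(.lf (nat_lit 160992) (.g (nat_lit 892) (.e (nat_lit 57443) (nat_lit 18) (.e (nat_lit 385068) (nat_lit 26) (.e (nat_lit 532548) (nat_lit 11) .nil))) .nil))) (.nd (nat_lit 5) 
(.lf (nat_lit 160976) (.g (nat_lit 1827) (.e (nat_lit 57443) (nat_lit 18) (.e (nat_lit 385068) (nat_lit 26) (.e (nat_lit 532534) (nat_lit 9) (.e (nat_lit 336211) (nat_lit 13) (.e (nat_lit 393253) (nat_lit 18) (.e (nat_lit 164178) (nat_lit 154) .nil)))))) (.g (nat_lit 4) .nil .nil))) 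
(.lf (nat_lit 161008) (.g (nat_lit 2902) (.e (nat_lit 57443) (nat_lit 18) (.e (nat_lit 385068) (nat_lit 26) (.e (nat_lit 532558) (nat_lit 14) (.e (nat_lit 376842) (nat_lit 11) (.e (nat_lit 426108) (nat_lit 1) (.e (nat_lit 164183) (nat_lit 154) .nil)))))) (.g (nat_lit 0) .nil .nil))))) (.nd (nat_lit 4) (.nd (nat_lit 5) 
(.lf (nat_lit 160968) (.g (nat_lit 1181) (.e (nat_lit 57443) (nat_lit 18) (.e (nat_lit 385068) (nat_lit 26) (.e (nat_lit 532533) (nat_lit 9) (.e (nat_lit 336211) (nat_lit 13) (.e (nat_lit 393254) (nat_lit 18) (.e (nat_lit 164177) (nat_lit 154) .nil)))))) (.g (nat_lit 4) .nil .nil))) 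
(.lf (nat_lit 161000) (.g (nat_lit 2771) (.e (nat_lit 57443) (nat_lit 18) (.e (nat_lit 385068) (nat_lit 26) (.e (nat_lit 532558) (nat_lit 14) (.e (nat_lit 376842) (nat_lit 11) (.e (nat_lit 426098) (nat_lit 1) (.e (nat_lit 164183) (nat_lit 154) .nil)))))) (.g (nat_lit 0) .nil .nil)))) (.nd (nat_lit 5) 
(.lf (nat_lit 160984) (.g (nat_lit 3012) (.e (nat_lit 57443) (nat_lit 18) (.e (nat_lit 385068) (nat_lit 26) (.e (nat_lit 532535) (nat_lit 9) (.e (nat_lit 336219) (nat_lit 13) (.e (nat_lit 393251) (nat_lit 18) (.e (nat_lit 164179) (nat_lit 154) .nil)))))) (.g (nat_lit 4) .nil .nil))) 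
(.lf (nat_lit 161016) (.g (nat_lit 2979) (.e (nat_lit 57443) (nat_lit 18) (.e (nat_lit 385068) (nat_lit 26) (.e (nat_lit 532560) (nat_lit 14) (.e (nat_lit 376842) (nat_lit 11) (.e (nat_lit 426100) (nat_lit 1) (.e (nat_lit 164182) (nat_lit 154) .nil)))))) (.g (nat_lit 6) .nil .nil)))))) (.nd (nat_lit 3) (.nd (nat_lit 4) (.nd (nat_lit 5) 
(.lf (nat_lit 160964) (.g (nat_lit 1872) (.e (nat_lit 57443) (nat_lit 18) (.e (nat_lit 385068) (nat_lit 26) (.e (nat_lit 532533) (nat_lit 9) (.e (nat_lit 336211) (nat_lit 13) (.e (nat_lit 393251) (nat_lit 18) (.e (nat_lit 164177) (nat_lit 154) .nil)))))) (.g (nat_lit 5) .nil .nil))) 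
(.lf (nat_lit 160996) (.g (nat_lit 1213) (.e (nat_lit 57443) (nat_lit 18) (.e (nat_lit 385068) (nat_lit 26) (.e (nat_lit 532551) (nat_lit 12) (.e (nat_lit 360457) (nat_lit 0) .nil)))) .nil))) (.nd (nat_lit 5) 
(.lf (nat_lit 160980) (.g (nat_lit 1739) (.e (nat_lit 57443) (nat_lit 18) (.e (nat_lit 385068) (nat_lit 26) (.e (nat_lit 532534) (nat_lit 9) (.e (nat_lit 336211) (nat_lit 13) (.e (nat_lit 393254) (nat_lit 18) (.e (nat_lit 164177) (nat_lit 154) .nil)))))) (.g (nat_lit 4) .nil .nil))) 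
(.lf (nat_lit 161012) (.g (nat_lit 2938) (.e (nat_lit 57443) (nat_lit 18) (.e (nat_lit 385068) (nat_lit 26) (.e (nat_lit 532560) (nat_lit 14) (.e (nat_lit 376842) (nat_lit 11) (.e (nat_lit 426098) (nat_lit 1) (.e (nat_lit 164182) (nat_lit 154) .nil)))))) (.g (nat_lit 6) .nil .nil))))) (.nd (nat_lit 4) (.nd (nat_lit 5) 
(.lf (nat_lit 160972) (.g (nat_lit 3024) (.e (nat_lit 57443) (nat_lit 18) (.e (nat_lit 385068) (nat_lit 26) (.e (nat_lit 532534) (nat_lit 9) (.e (nat_lit 336211) (nat_lit 13) (.e (nat_lit 393251) (nat_lit 18) (.e (nat_lit 164182) (nat_lit 154) .nil)))))) (.g (nat_lit 6) .nil .nil))) 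
(.lf (nat_lit 161004) (.g (nat_lit 1653) (.e (nat_lit 57443) (nat_lit 18) (.e (nat_lit 385068) (nat_lit 26) (.e (nat_lit 532558) (nat_lit 14) (.e (nat_lit 376842) (nat_lit 11) (.e (nat_lit 426106) (nat_lit 1) (.e (nat_lit 164177) (nat_lit 154) .nil)))))) (.g (nat_lit 4) .nil .nil)))) (.nd (nat_lit 5) 
(.lf (nat_lit 160988) (.g (nat_lit 3948) (.e (nat_lit 57443) (nat_lit 18) (.e (nat_lit 385068) (nat_lit 26) (.e (nat_lit 532542) (nat_lit 9) (.e (nat_lit 336213) (nat_lit 13) (.e (nat_lit 393251) (nat_lit 18) (.e (nat_lit 164179) (nat_lit 154) .nil)))))) (.g (nat_lit 6) .nil .nil))) 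
(.lf (nat_lit 161020) (.g (nat_lit 2847) (.e (nat_lit 57443) (nat_lit 18) (.e (nat_lit 385068) (nat_lit 26) (.e (nat_lit 532560) (nat_lit 14) (.e (nat_lit 376842) (nat_lit 11) (.e (nat_lit 426106) (nat_lit 1) (.e (nat_lit 164179) (nat_lit 154) .nil)))))) (.g (nat_lit 6) .nil .nil))))))) (.nd (nat_lit 2) (.nd (nat_lit 3) (.nd (nat_lit 4) (.nd (nat_lit 5) 
(.lf (nat_lit 160962) (.g (nat_lit 2536) (.e (nat_lit 57443) (nat_lit 18) (.e (nat_lit 385068) (nat_lit 26) (.e (nat_lit 532530) (nat_lit 9) (.e (nat_lit 336211) (nat_lit 13) (.e (nat_lit 393254) (nat_lit 18) (.e (nat_lit 164183) (nat_lit 154) .nil)))))) (.g (nat_lit 5) .nil .nil))) 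
(.lf (nat_lit 160994) (.g (nat_lit 4281) (.e (nat_lit 57443) (nat_lit 18) (.e (nat_lit 385068) (nat_lit 26) (.e (nat_lit 532550) (nat_lit 12) (.e (nat_lit 360451) (nat_lit 0) (.e (nat_lit 7697) (nat_lit 412) .nil))))) .nil))) (.nd (nat_lit 5) 
(.lf (nat_lit 160978) (.g (nat_lit 3126) (.e (nat_lit 57443) (nat_lit 18) (.e (nat_lit 385068) (nat_lit 26) (.e (nat_lit 532534) (nat_lit 9) (.e (nat_lit 336211) (nat_lit 13) (.e (nat_lit 393253) (nat_lit 18) (.e (nat_lit 164182) (nat_lit 154) .nil)))))) (.g (nat_lit 6) .nil .nil))) 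
(.lf (nat_lit 161010) (.g (nat_lit 2558) (.e (nat_lit 57443) (nat_lit 18) (.e (nat_lit 385068) (nat_lit 26) (.e (nat_lit 532560) (nat_lit 14) (.e (nat_lit 376842) (nat_lit 11) (.e (nat_lit 426098) (nat_lit 1) (.e (nat_lit 164177) (nat_lit 154) .nil)))))) (.g (nat_lit 5) .nil .nil))))) (.nd (nat_lit 4) (.nd (nat_lit 5) 
(.lf (nat_lit 160970) (.g (nat_lit 2424) (.e (nat_lit 57443) (nat_lit 18) (.e (nat_lit 385068) (nat_lit 26) (.e (nat_lit 532534) (nat_lit 9) (.e (nat_lit 336211) (nat_lit 13) (.e (nat_lit 393251) (nat_lit 18) (.e (nat_lit 164177) (nat_lit 154) .nil)))))) (.g (nat_lit 5) .nil .nil))) 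
(.lf (nat_lit 161002) (.g (nat_lit 2890) (.e (nat_lit 57443) (nat_lit 18) (.e (nat_lit 385068) (nat_lit 26) (.e (nat_lit 532558) (nat_lit 14) (.e (nat_lit 376842) (nat_lit 11) (.e (nat_lit 426100) (nat_lit 1) (.e (nat_lit 164183) (nat_lit 154) .nil)))))) (.g (nat_lit 0) .nil .nil)))) (.nd (nat_lit 5) 
(.lf (nat_lit 160986) (.g (nat_lit 891) (.e (nat_lit 57443) (nat_lit 18) (.e (nat_lit 385068) (nat_lit 26) (.e (nat_lit 532538) (nat_lit 9) .nil))) .nil)) 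
(.lf (nat_lit 161018) (.g (nat_lit 2385) (.e (nat_lit 57443) (nat_lit 18) (.e (nat_lit 385068) (nat_lit 26) (.e (nat_lit 532560) (nat_lit 14) (.e (nat_lit 376842) (nat_lit 11) (.e (nat_lit 426105) (nat_lit 1) .nil))))) .nil))))) (.nd (nat_lit 3) (.nd (nat_lit 4) (.nd (nat_lit 5) 
(.lf (nat_lit 160966) (.g (nat_lit 2591) (.e (nat_lit 57443) (nat_lit 18) (.e (nat_lit 385068) (nat_lit 26) (.e (nat_lit 532533) (nat_lit 9) (.e (nat_lit 336211) (nat_lit 13) (.e (nat_lit 393253) (nat_lit 18) (.e (nat_lit 164182) (nat_lit 154) .nil)))))) (.g (nat_lit 6) .nil .nil))) 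
(.lf (nat_lit 160998) (.g (nat_lit 2923) (.e (nat_lit 57443) (nat_lit 18) (.e (nat_lit 385068) (nat_lit 26) (.e (nat_lit 532558) (nat_lit 14) (.e (nat_lit 376842) (nat_lit 11) (.e (nat_lit 426098) (nat_lit 1) (.e (nat_lit 164179) (nat_lit 154) .nil)))))) (.g (nat_lit 6) .nil .nil)))) (.nd (nat_lit 5) 
(.lf (nat_lit 160982) (.g (nat_lit 2587) (.e (nat_lit 57443) (nat_lit 18) (.e (nat_lit 385068) (nat_lit 26) (.e (nat_lit 532534) (nat_lit 9) (.e (nat_lit 336211) (nat_lit 13) (.e (nat_lit 393254) (nat_lit 18) (.e (nat_lit 164183) (nat_lit 154) .nil)))))) (.g (nat_lit 0) .nil .nil))) 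
(.lf (nat_lit 161014) (.g (nat_lit 2376) (.e (nat_lit 57443) (nat_lit 18) (.e (nat_lit 385068) (nat_lit 26) (.e (nat_lit 532560) (nat_lit 14) (.e (nat_lit 376842) (nat_lit 11) (.e (nat_lit 426099) (nat_lit 1) (.e (nat_lit 164182) (nat_lit 154) .nil)))))) (.g (nat_lit 4) .nil .nil))))) (.nd (nat_lit 4) (.nd (nat_lit 5) 
(.lf (nat_lit 160974) (.g (nat_lit 2916) (.e (nat_lit 57443) (nat_lit 18) (.e (nat_lit 385068) (nat_lit 26) (.e (nat_lit 532534) (nat_lit 9) (.e (nat_lit 336211) (nat_lit 13) (.e (nat_lit 393252) (nat_lit 18) (.e (nat_lit 164182) (nat_lit 154) .nil)))))) (.g (nat_lit 6) .nil .nil))) 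
(.lf (nat_lit 161006) (.g (nat_lit 2488) (.e (nat_lit 57443) (nat_lit 18) (.e (nat_lit 385068) (nat_lit 26) (.e (nat_lit 532558) (nat_lit 14) (.e (nat_lit 376842) (nat_lit 11) (.e (nat_lit 426106) (nat_lit 1) (.e (nat_lit 164183) (nat_lit 154) .nil)))))) (.g (nat_lit 0) .nil .nil)))) (.nd (nat_lit 5) 
(.lf (nat_lit 160990) (.g (nat_lit 3485) (.e (nat_lit 57443) (nat_lit 18) (.e (nat_lit 385068) (nat_lit 26) (.e (nat_lit 532542) (nat_lit 9) (.e (nat_lit 336213) (nat_lit 13) (.e (nat_lit 393251) (nat_lit 18) (.e (nat_lit 164183) (nat_lit 154) .nil)))))) (.g (nat_lit 6) .nil .nil))) 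
(.lf (nat_lit 161022) (.g (nat_lit 1953) (.e (nat_lit 57443) (nat_lit 18) (.e (nat_lit 385068) (nat_lit 26) (.e (nat_lit 532560) (nat_lit 14) (.e (nat_lit 376842) (nat_lit 11) (.e (nat_lit 426107) (nat_lit 1) (.e (nat_lit 164178) (nat_lit 154) .nil)))))) (.g (nat_lit 4) .nil .nil)))))))) (.nd (nat_lit 1) (.nd (nat_lit 2) (.nd (nat_lit 3) (.nd (nat_lit 4) (.nd (nat_lit 5) 
(.lf (nat_lit 160961) (.g (nat_lit 2721) (.e (nat_lit 57443) (nat_lit 18) (.e (nat_lit 385068) (nat_lit 26) (.e (nat_lit 532530) (nat_lit 9) (.e (nat_lit 336211) (nat_lit 13) (.e (nat_lit 393254) (nat_lit 18) (.e (nat_lit 164179) (nat_lit 154) .nil)))))) (.g (nat_lit 5) .nil .nil))) 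
(.lf (nat_lit 160993) (.g (nat_lit 1993) (.e (nat_lit 57443) (nat_lit 18) (.e (nat_lit 385068) (nat_lit 26) (.e (nat_lit 532550) (nat_lit 12) (.e (nat_lit 360451) (nat_lit 0) .nil)))) .nil))) (.nd (nat_lit 5) 
(.lf (nat_lit 160977) (.g (nat_lit 3013) (.e (nat_lit 57443) (nat_lit 18) (.e (nat_lit 385068) (nat_lit 26) (.e (nat_lit 532534) (nat_lit 9) (.e (nat_lit 336211) (nat_lit 13) (.e (nat_lit 393253) (nat_lit 18) (.e (nat_lit 164179) (nat_lit 154) .nil)))))) (.g (nat_lit 6) .nil .nil))) 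
(.lf (nat_lit 161009) (.g (nat_lit 1202) (.e (nat_lit 57443) (nat_lit 18) (.e (nat_lit 385068) (nat_lit 26) (.e (nat_lit 532560) (nat_lit 14) (.e (nat_lit 376838) (nat_lit 11) .nil)))) .nil)))) (.nd (nat_lit 4) (.nd (nat_lit 5) 
(.lf (nat_lit 160969) (.g (nat_lit 2038) (.e (nat_lit 57443) (nat_lit 18) (.e (nat_lit 385068) (nat_lit 26) (.e (nat_lit 532533) (nat_lit 9) (.e (nat_lit 336211) (nat_lit 13) (.e (nat_lit 393254) (nat_lit 18) (.e (nat_lit 164183) (nat_lit 154) .nil)))))) (.g (nat_lit 0) .nil .nil))) 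
(.lf (nat_lit 161001) (.g (nat_lit 2829) (.e (nat_lit 57443) (nat_lit 18) (.e (nat_lit 385068) (nat_lit 26) (.e (nat_lit 532558) (nat_lit 14) (.e (nat_lit 376842) (nat_lit 11) (.e (nat_lit 426100) (nat_lit 1) (.e (nat_lit 164182) (nat_lit 154) .nil)))))) (.g (nat_lit 6) .nil .nil)))) (.nd (nat_lit 5) 
(.lf (nat_lit 160985) (.g (nat_lit 2889) (.e (nat_lit 57443) (nat_lit 18) (.e (nat_lit 385068) (nat_lit 26) (.e (nat_lit 532535) (nat_lit 9) (.e (nat_lit 336219) (nat_lit 13) (.e (nat_lit 393251) (nat_lit 18) (.e (nat_lit 164182) (nat_lit 154) .nil)))))) (.g (nat_lit 4) .nil .nil))) 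
(.lf (nat_lit 161017) (.g (nat_lit 3073) (.e (nat_lit 57443) (nat_lit 18) (.e (nat_lit 385068) (nat_lit 26) (.e (nat_lit 532560) (nat_lit 14) (.e (nat_lit 376842) (nat_lit 11) (.e (nat_lit 426100) (nat_lit 1) (.e (nat_lit 164183) (nat_lit 154) .nil)))))) (.g (nat_lit 0) .nil .nil)))))) (.nd (nat_lit 3) (.nd (nat_lit 4) (.nd (nat_lit 5) 
(.lf (nat_lit 160965) (.g (nat_lit 2307) (.e (nat_lit 57443) (nat_lit 18) (.e (nat_lit 385068) (nat_lit 26) (.e (nat_lit 532533) (nat_lit 9) (.e (nat_lit 336211) (nat_lit 13) (.e (nat_lit 393252) (nat_lit 18) (.e (nat_lit 164183) (nat_lit 154) .nil)))))) (.g (nat_lit 0) .nil .nil))) 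
(.lf (nat_lit 160997) (.g (nat_lit 2192) (.e (nat_lit 57443) (nat_lit 18) (.e (nat_lit 385068) (nat_lit 26) (.e (nat_lit 532558) (nat_lit 14) (.e (nat_lit 376842) (nat_lit 11) (.e (nat_lit 426098) (nat_lit 1) (.e (nat_lit 164177) (nat_lit 154) .nil)))))) (.g (nat_lit 5) .nil .nil)))) (.nd (nat_lit 5) 
(.lf (nat_lit 160981) (.g (nat_lit 2797) (.e (nat_lit 57443) (nat_lit 18) (.e (nat_lit 385068) (nat_lit 26) (.e (nat_lit 532534) (nat_lit 9) (.e (nat_lit 336211) (nat_lit 13) (.e (nat_lit 393254) (nat_lit 18) (.e (nat_lit 164179) (nat_lit 154) .nil)))))) (.g (nat_lit 6) .nil .nil))) 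
(.lf (nat_lit 161013) (.g (nat_lit 2936) (.e (nat_lit 57443) (nat_lit 18) (.e (nat_lit 385068) (nat_lit 26) (.e (nat_lit 532560) (nat_lit 14) (.e (nat_lit 376842) (nat_lit 11) (.e (nat_lit 426098) (nat_lit 1) (.e (nat_lit 164183) (nat_lit 154) .nil)))))) (.g (nat_lit 0) .nil .nil))))) (.nd (nat_lit 4) (.nd (nat_lit 5) 
(.lf (nat_lit 160973) (.g (nat_lit 1721) (.e (nat_lit 57443) (nat_lit 18) (.e (nat_lit 385068) (nat_lit 26) (.e (nat_lit 532534) (nat_lit 9) (.e (nat_lit 336211) (nat_lit 13) (.e (nat_lit 393252) (nat_lit 18) .nil))))) .nil)) 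
(.lf (nat_lit 161005) (.g (nat_lit 2659) (.e (nat_lit 57443) (nat_lit 18) (.e (nat_lit 385068) (nat_lit 26) (.e (nat_lit 532558) (nat_lit 14) (.e (nat_lit 376842) (nat_lit 11) (.e (nat_lit 426106) (nat_lit 1) (.e (nat_lit 164179) (nat_lit 154) .nil)))))) (.g (nat_lit 6) .nil .nil)))) (.nd (nat_lit 5) 
(.lf (nat_lit 160989) (.g (nat_lit 3517) (.e (nat_lit 57443) (nat_lit 18) (.e (nat_lit 385068) (nat_lit 26) (.e (nat_lit 532542) (nat_lit 9) (.e (nat_lit 336213) (nat_lit 13) (.e (nat_lit 393251) (nat_lit 18) (.e (nat_lit 164182) (nat_lit 154) .nil)))))) (.g (nat_lit 6) .nil .nil))) 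
(.lf (nat_lit 161021) (.g (nat_lit 2645) (.e (nat_lit 57443) (nat_lit 18) (.e (nat_lit 385068) (nat_lit 26) (.e (nat_lit 532560) (nat_lit 14) (.e (nat_lit 376842) (nat_lit 11) (.e (nat_lit 426106) (nat_lit 1) (.e (nat_lit 164183) (nat_lit 154) .nil)))))) (.g (nat_lit 0) .nil .nil))))))) (.nd (nat_lit 2) (.nd (nat_lit 3) (.nd (nat_lit 4) (.nd (nat_lit 5) 
(.lf (nat_lit 160963) (.g (nat_lit 2243) (.e (nat_lit 57443) (nat_lit 18) (.e (nat_lit 385068) (nat_lit 26) (.e (nat_lit 532530) (nat_lit 9) (.e (nat_lit 336310) (nat_lit 16) .nil)))) .nil)) 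
(.lf (nat_lit 160995) (.g (nat_lit 893) (.e (nat_lit 57443) (nat_lit 18) (.e (nat_lit 385068) (nat_lit 26) (.e (nat_lit 532551) (nat_lit 12) .nil))) .nil))) (.nd (nat_lit 5) 
(.lf (nat_lit 160979) (.g (nat_lit 2911) (.e (nat_lit 57443) (nat_lit 18) (.e (nat_lit 385068) (nat_lit 26) (.e (nat_lit 532534) (nat_lit 9) (.e (nat_lit 336211) (nat_lit 13) (.e (nat_lit 393253) (nat_lit 18) (.e (nat_lit 164183) (nat_lit 154) .nil)))))) (.g (nat_lit 0) .nil .nil))) 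
(.lf (nat_lit 161011) (.g (nat_lit 3115) (.e (nat_lit 57443) (nat_lit 18) (.e (nat_lit 385068) (nat_lit 26) (.e (nat_lit 532560) (nat_lit 14) (.e (nat_lit 376842) (nat_lit 11) (.e (nat_lit 426098) (nat_lit 1) (.e (nat_lit 164179) (nat_lit 154) .nil)))))) (.g (nat_lit 6) .nil .nil))))) (.nd (nat_lit 4) (.nd (nat_lit 5) 
(.lf (nat_lit 160971) (.g (nat_lit 3185) (.e (nat_lit 57443) (nat_lit 18) (.e (nat_lit 385068) (nat_lit 26) (.e (nat_lit 532534) (nat_lit 9) (.e (nat_lit 336211) (nat_lit 13) (.e (nat_lit 393251) (nat_lit 18) (.e (nat_lit 164179) (nat_lit 154) .nil)))))) (.g (nat_lit 6) .nil .nil))) 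
(.lf (nat_lit 161003) (.g (nat_lit 2139) (.e (nat_lit 57443) (nat_lit 18) (.e (nat_lit 385068) (nat_lit 26) (.e (nat_lit 532558) (nat_lit 14) (.e (nat_lit 376842) (nat_lit 11) (.e (nat_lit 426105) (nat_lit 1) .nil))))) .nil))) (.nd (nat_lit 5) 
(.lf (nat_lit 160987) (.g (nat_lit 777) (.e (nat_lit 57443) (nat_lit 18) (.e (nat_lit 385068) (nat_lit 26) (.e (nat_lit 532542) (nat_lit 9) .nil))) .nil)) 
(.lf (nat_lit 161019) (.g (nat_lit 1999) (.e (nat_lit 57443) (nat_lit 18) (.e (nat_lit 385068) (nat_lit 26) (.e (nat_lit 532560) (nat_lit 14) (.e (nat_lit 376842) (nat_lit 11) (.e (nat_lit 426106) (nat_lit 1) (.e (nat_lit 164177) (nat_lit 154) .nil)))))) (.g (nat_lit 4) .nil .nil)))))) (.nd (nat_lit 3) (.nd (nat_lit 4) (.nd (nat_lit 5) 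
(.lf (nat_lit 160967) (.g (nat_lit 2371) (.e (nat_lit 57443) (nat_lit 18) (.e (nat_lit 385068) (nat_lit 26) (.e (nat_lit 532533) (nat_lit 9) (.e (nat_lit 336211) (nat_lit 13) (.e (nat_lit 393253) (nat_lit 18) (.e (nat_lit 164183) (nat_lit 154) .nil)))))) (.g (nat_lit 0) .nil .nil))) 
(.lf (nat_lit 160999) (.g (nat_lit 2805) (.e (nat_lit 57443) (nat_lit 18) (.e (nat_lit 385068) (nat_lit 26) (.e (nat_lit 532558) (nat_lit 14) (.e (nat_lit 376842) (nat_lit 11) (.e (nat_lit 426098) (nat_lit 1) (.e (nat_lit 164182) (nat_lit 154) .nil)))))) (.g (nat_lit 6) .nil .nil)))) (.nd (nat_lit 5) 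
(.lf (nat_lit 160983) (.g (nat_lit 3120) (.e (nat_lit 57443) (nat_lit 18) (.e (nat_lit 385068) (nat_lit 26) (.e (nat_lit 532535) (nat_lit 9) (.e (nat_lit 336219) (nat_lit 13) (.e (nat_lit 393251) (nat_lit 18) (.e (nat_lit 164177) (nat_lit 154) .nil)))))) (.g (nat_lit 4) .nil .nil))) 
(.lf (nat_lit 161015) (.g (nat_lit 2625) (.e (nat_lit 57443) (nat_lit 18) (.e (nat_lit 385068) (nat_lit 26) (.e (nat_lit 532560) (nat_lit 14) (.e (nat_lit 376842) (nat_lit 11) (.e (nat_lit 426099) (nat_lit 1) (.e (nat_lit 164183) (nat_lit 154) .nil)))))) (.g (nat_lit 5) .nil .nil))))) (.nd (nat_lit 4) (.nd (nat_lit 5) 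
(.lf (nat_lit 160975) (.g (nat_lit 2866) (.e (nat_lit 57443) (nat_lit 18) (.e (nat_lit 385068) (nat_lit 26) (.e (nat_lit 532534) (nat_lit 9) (.e (nat_lit 336211) (nat_lit 13) (.e (nat_lit 393252) (nat_lit 18) (.e (nat_lit 164183) (nat_lit 154) .nil)))))) (.g (nat_lit 0) .nil .nil))) 
(.lf (nat_lit 161007) (.g (nat_lit 3135) (.e (nat_lit 57443) (nat_lit 18) (.e (nat_lit 385068) (nat_lit 26) (.e (nat_lit 532558) (nat_lit 14) (.e (nat_lit 376842) (nat_lit 11) (.e (nat_lit 426108) (nat_lit 1) (.e (nat_lit 164182) (nat_lit 154) .nil)))))) (.g (nat_lit 6) .nil .nil)))) (.nd (nat_lit 5) 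
(.lf (nat_lit 160991) (.g (nat_lit 891) (.e (nat_lit 57443) (nat_lit 18) (.e (nat_lit 385068) (nat_lit 26) (.e (nat_lit 532547) (nat_lit 11) .nil))) .nil)) 
(.lf (nat_lit 161023) (.g (nat_lit 3174) (.e (nat_lit 57443) (nat_lit 18) (.e (nat_lit 385068) (nat_lit 26) (.e (nat_lit 532560) (nat_lit 14) (.e (nat_lit 376842) (nat_lit 11) (.e (nat_lit 426107) (nat_lit 1) (.e (nat_lit 164179) (nat_lit 154) .nil)))))) (.g (nat_lit 6) .nil .nil)))))))))

noncomputable def tv2156 : DT := (.nd (nat_lit 0) (.nd (nat_lit 1) (.nd (nat_lit 2) (.nd (nat_lit 3) (.nd (nat_lit 4) (.nd (nat_lit 5) 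
(.lf (nat_lit 161024) (.g (nat_lit 3235) (.e (nat_lit 57443) (nat_lit 18) (.e (nat_lit 385068) (nat_lit 26) (.e (nat_lit 532560) (nat_lit 14) (.e (nat_lit 376842) (nat_lit 11) (.e (nat_lit 426108) (nat_lit 1) (.e (nat_lit 164182) (nat_lit 154) .nil)))))) (.g (nat_lit 6) .nil .nil))) 
(.lf (nat_lit 161056) (.g (nat_lit 1655) (.e (nat_lit 57444) (nat_lit 19) (.e (nat_lit 393228) (nat_lit 9) (.e (nat_lit 336088) (nat_lit 9) (.e (nat_lit 336019) (nat_lit 3) (.e (nat_lit 98333) (nat_lit 18) .nil))))) .nil))) (.nd (nat_lit 5) 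
(.lf (nat_lit 161040) (.g (nat_lit 2766) (.e (nat_lit 57443) (nat_lit 18) (.e (nat_lit 385094) (nat_lit 49) (.e (nat_lit 778317) (nat_lit 3) (.e (nat_lit 57543) (nat_lit 47) .nil)))) .nil)) 
(.lf (nat_lit 161072) (.g (nat_lit 1840) (.e (nat_lit 57444) (nat_lit 19) (.e (nat_lit 393229) (nat_lit 9) (.e (nat_lit 336204) (nat_lit 12) (.e (nat_lit 385066) (nat_lit 26) (.e (nat_lit 532504) (nat_lit 1) .nil))))) .nil)))) (.nd (nat_lit 4) (.nd (nat_lit 5) 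
(.lf (nat_lit 161032) (.g (nat_lit 3291) (.e (nat_lit 57443) (nat_lit 18) (.e (nat_lit 385074) (nat_lit 31) (.e (nat_lit 573484) (nat_lit 13) (.e (nat_lit 65617) (nat_lit 10) (.e (nat_lit 344133) (nat_lit 26) (.e (nat_lit 557091) (nat_lit 12) (.e (nat_lit 163843) (nat_lit 0) (.e (nat_lit 6063) (nat_lit 328) .nil)))))))) (.g (nat_lit 5) .nil .nil))) 
(.lf (nat_lit 161064) (.g (nat_lit 1447) (.e (nat_lit 57444) (nat_lit 19) (.e (nat_lit 393229) (nat_lit 9) (.e (nat_lit 336186) (nat_lit 11) (.e (nat_lit 368676) (nat_lit 21) (.e (nat_lit 516117) (nat_lit 1) .nil))))) .nil))) (.nd (nat_lit 5) 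
(.lf (nat_lit 161048) (.g (nat_lit 1767) (.e (nat_lit 57444) (nat_lit 19) (.e (nat_lit 393225) (nat_lit 9) (.e (nat_lit 336078) (nat_lit 9) (.e (nat_lit 336324) (nat_lit 18) .nil)))) .nil)) 
(.lf (nat_lit 161080) (.g (nat_lit 958) (.e (nat_lit 57444) (nat_lit 19) (.e (nat_lit 393280) (nat_lit 23) (.e (nat_lit 426133) (nat_lit 3) (.e (nat_lit 204813) (nat_lit 9) .nil)))) .nil))))) (.nd (nat_lit 3) (.nd (nat_lit 4) (.nd (nat_lit 5) 
(.lf (nat_lit 161028) (.g (nat_lit 2761) (.e (nat_lit 57443) (nat_lit 18) (.e (nat_lit 385074) (nat_lit 31) (.e (nat_lit 573484) (nat_lit 13) (.e (nat_lit 65617) (nat_lit 10) (.e (nat_lit 344130) (nat_lit 26) (.e (nat_lit 557090) (nat_lit 12) (.e (nat_lit 163841) (nat_lit 0) (.e (nat_lit 6063) (nat_lit 328) .nil)))))))) (.g (nat_lit 4) .nil .nil))) 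
(.lf (nat_lit 161060) (.g (nat_lit 1670) (.e (nat_lit 57444) (nat_lit 19) (.e (nat_lit 393229) (nat_lit 9) (.e (nat_lit 336088) (nat_lit 9) (.e (nat_lit 336019) (nat_lit 3) (.e (nat_lit 98335) (nat_lit 18) .nil))))) .nil))) (.nd (nat_lit 5) 
(.lf (nat_lit 161044) (.g (nat_lit 725) (.e (nat_lit 57443) (nat_lit 18) (.e (nat_lit 385094) (nat_lit 49) (.e (nat_lit 778324) (nat_lit 5) .nil))) .nil)) 
(.lf (nat_lit 161076) (.g (nat_lit 1868) (.e (nat_lit 57444) (nat_lit 19) (.e (nat_lit 393234) (nat_lit 17) (.e (nat_lit 7581) (nat_lit 405) (.e (nat_lit 57477) (nat_lit 28) (.e (nat_lit 557104) (nat_lit 14) .nil))))) .nil)))) (.nd (nat_lit 4) (.nd (nat_lit 5) 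
(.lf (nat_lit 161036) (.g (nat_lit 1763) (.e (nat_lit 57443) (nat_lit 18) (.e (nat_lit 385074) (nat_lit 31) (.e (nat_lit 573489) (nat_lit 14) (.e (nat_lit 73768) (nat_lit 19) .nil)))) .nil)) 
(.lf (nat_lit 161068) (.g (nat_lit 2036) (.e (nat_lit 57444) (nat_lit 19) (.e (nat_lit 393229) (nat_lit 9) (.e (nat_lit 336196) (nat_lit 12) (.e (nat_lit 385066) (nat_lit 26) (.e (nat_lit 532501) (nat_lit 1) .nil))))) .nil))) (.nd (nat_lit 5) 
(.lf (nat_lit 161052) (.g (nat_lit 1457) (.e (nat_lit 57444) (nat_lit 19) (.e (nat_lit 393225) (nat_lit 9) (.e (nat_lit 336088) (nat_lit 9) (.e (nat_lit 336019) (nat_lit 3) .nil)))) .nil)) 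
(.lf (nat_lit 161084) (.g (nat_lit 1173) (.e (nat_lit 57444) (nat_lit 19) (.e (nat_lit 393283) (nat_lit 24) (.e (nat_lit 434231) (nat_lit 23) (.e (nat_lit 532579) (nat_lit 26) .nil)))) .nil)))))) (.nd (nat_lit 2) (.nd (nat_lit 3) (.nd (nat_lit 4) (.nd (nat_lit 5) 
(.lf (nat_lit 161026) (.g (nat_lit 2841) (.e (nat_lit 57443) (nat_lit 18) (.e (nat_lit 385074) (nat_lit 31) (.e (nat_lit 573484) (nat_lit 13) (.e (nat_lit 65617) (nat_lit 10) (.e (nat_lit 344127) (nat_lit 26) .nil))))) .nil)) 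
(.lf (nat_lit 161058) (.g (nat_lit 2313) (.e (nat_lit 57444) (nat_lit 19) (.e (nat_lit 393229) (nat_lit 9) (.e (nat_lit 336086) (nat_lit 9) (.e (nat_lit 336324) (nat_lit 18) (.e (nat_lit 204831) (nat_lit 18) (.e (nat_lit 57851) (nat_lit 252) .nil)))))) (.g (nat_lit 5) .nil .nil)))) (.nd (nat_lit 5) 
(.lf (nat_lit 161042) (.g (nat_lit 1738) (.e (nat_lit 57443) (nat_lit 18) (.e (nat_lit 385094) (nat_lit 49) (.e (nat_lit 778323) (nat_lit 5) (.e (nat_lit 81664) (nat_lit 37) .nil)))) .nil)) 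
(.lf (nat_lit 161074) (.g (nat_lit 1737) (.e (nat_lit 57444) (nat_lit 19) (.e (nat_lit 393234) (nat_lit 17) (.e (nat_lit 7581) (nat_lit 405) (.e (nat_lit 57476) (nat_lit 28) .nil)))) .nil)))) (.nd (nat_lit 4) (.nd (nat_lit 5) 
(.lf (nat_lit 161034) (.g (nat_lit 2860) (.e (nat_lit 57443) (nat_lit 18) (.e (nat_lit 385074) (nat_lit 31) (.e (nat_lit 573485) (nat_lit 13) (.e (nat_lit 65619) (nat_lit 10) (.e (nat_lit 344117) (nat_lit 21) .nil))))) .nil)) 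
(.lf (nat_lit 161066) (.g (nat_lit 1754) (.e (nat_lit 57444) (nat_lit 19) (.e (nat_lit 393229) (nat_lit 9) (.e (nat_lit 336194) (nat_lit 12) (.e (nat_lit 385066) (nat_lit 26) (.e (nat_lit 532501) (nat_lit 1) .nil))))) .nil))) (.nd (nat_lit 5) 
(.lf (nat_lit 161050) (.g (nat_lit 2002) (.e (nat_lit 57444) (nat_lit 19) (.e (nat_lit 393225) (nat_lit 9) (.e (nat_lit 336087) (nat_lit 9) (.e (nat_lit 336019) (nat_lit 3) (.e (nat_lit 98334) (nat_lit 18) .nil))))) .nil)) 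
(.lf (nat_lit 161082) (.g (nat_lit 916) (.e (nat_lit 57444) (nat_lit 19) (.e (nat_lit 393281) (nat_lit 23) (.e (nat_lit 426133) (nat_lit 3) (.e (nat_lit 204809) (nat_lit 9) .nil)))) .nil))))) (.nd (nat_lit 3) (.nd (nat_lit 4) (.nd (nat_lit 5) 
(.lf (nat_lit 161030) (.g (nat_lit 2526) (.e (nat_lit 57443) (nat_lit 18) (.e (nat_lit 385074) (nat_lit 31) (.e (nat_lit 573484) (nat_lit 13) (.e (nat_lit 65617) (nat_lit 10) (.e (nat_lit 344133) (nat_lit 26) .nil))))) .nil)) 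
(.lf (nat_lit 161062) (.g (nat_lit 1272) (.e (nat_lit 57444) (nat_lit 19) (.e (nat_lit 393229) (nat_lit 9) (.e (nat_lit 336184) (nat_lit 11) (.e (nat_lit 368676) (nat_lit 21) (.e (nat_lit 516118) (nat_lit 1) .nil))))) .nil))) (.nd (nat_lit 5) 
(.lf (nat_lit 161046) (.g (nat_lit 717) (.e (nat_lit 65280) (nat_lit 18) (.e (nat_lit 385068) (nat_lit 26) (.e (nat_lit 532542) (nat_lit 9) .nil))) .nil)) 
(.lf (nat_lit 161078) (.g (nat_lit 1965) (.e (nat_lit 57444) (nat_lit 19) (.e (nat_lit 393234) (nat_lit 17) (.e (nat_lit 7581) (nat_lit 405) (.e (nat_lit 57480) (nat_lit 28) (.e (nat_lit 557105) (nat_lit 14) .nil))))) .nil)))) (.nd (nat_lit 4) (.nd (nat_lit 5) 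
(.lf (nat_lit 161038) (.g (nat_lit 4152) (.e (nat_lit 57443) (nat_lit 18) (.e (nat_lit 385074) (nat_lit 31) (.e (nat_lit 573493) (nat_lit 15) (.e (nat_lit 81956) (nat_lit 23) (.e (nat_lit 98334) (nat_lit 18) (.e (nat_lit 171776) (nat_lit 262) .nil)))))) (.g (nat_lit 5) .nil .nil))) 
(.lf (nat_lit 161070) (.g (nat_lit 1786) (.e (nat_lit 57444) (nat_lit 19) (.e (nat_lit 393229) (nat_lit 9) (.e (nat_lit 336203) (nat_lit 12) (.e (nat_lit 385067) (nat_lit 26) .nil)))) .nil))) (.nd (nat_lit 5) 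
(.lf (nat_lit 161054) (.g (nat_lit 1382) (.e (nat_lit 57444) (nat_lit 19) (.e (nat_lit 393225) (nat_lit 9) (.e (nat_lit 336186) (nat_lit 11) (.e (nat_lit 368676) (nat_lit 21) .nil)))) .nil)) 
(.lf (nat_lit 161086) (.g (nat_lit 835) (.e (nat_lit 57445) (nat_lit 19) (.e (nat_lit 393225) (nat_lit 9) (.e (nat_lit 335995) (nat_lit 1) .nil))) .nil))))))) (.nd (nat_lit 1) (.nd (nat_lit 2) (.nd (nat_lit 3) (.nd (nat_lit 4) (.nd (nat_lit 5) 
(.lf (nat_lit 161025) (.g (nat_lit 3078) (.e (nat_lit 57443) (nat_lit 18) (.e (nat_lit 385068) (nat_lit 26) (.e (nat_lit 532560) (nat_lit 14) (.e (nat_lit 376842) (nat_lit 11) (.e (nat_lit 426108) (nat_lit 1) (.e (nat_lit 164183) (nat_lit 154) .nil)))))) (.g (nat_lit 0) .nil .nil))) 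
(.lf (nat_lit 161057) (.g (nat_lit 2077) (.e (nat_lit 57444) (nat_lit 19) (.e (nat_lit 393229) (nat_lit 9) (.e (nat_lit 336078) (nat_lit 9) (.e (nat_lit 336324) (nat_lit 18) (.e (nat_lit 204830) (nat_lit 18) .nil))))) .nil))) (.nd (nat_lit 5) 
(.lf (nat_lit 161041) (.g (nat_lit 2192) (.e (nat_lit 57443) (nat_lit 18) (.e (nat_lit 385094) (nat_lit 49) (.e (nat_lit 778320) (nat_lit 4) (.e (nat_lit 65630) (nat_lit 14) (.e (nat_lit 401454) (nat_lit 12) .nil))))) .nil)) 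
(.lf (nat_lit 161073) (.g (nat_lit 659) (.e (nat_lit 57444) (nat_lit 19) (.e (nat_lit 393234) (nat_lit 17) (.e (nat_lit 7581) (nat_lit 405) .nil))) .nil)))) (.nd (nat_lit 4) (.nd (nat_lit 5) 
(.lf (nat_lit 161033) (.g (nat_lit 3284) (.e (nat_lit 57443) (nat_lit 18) (.e (nat_lit 385074) (nat_lit 31) (.e (nat_lit 573484) (nat_lit 13) (.e (nat_lit 65617) (nat_lit 10) (.e (nat_lit 344133) (nat_lit 26) (.e (nat_lit 557091) (nat_lit 12) (.e (nat_lit 163844) (nat_lit 0) (.e (nat_lit 6063) (nat_lit 328) .nil)))))))) (.g (nat_lit 5) .nil .nil))) 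
(.lf (nat_lit 161065) (.g (nat_lit 1405) (.e (nat_lit 57444) (nat_lit 19) (.e (nat_lit 393229) (nat_lit 9) (.e (nat_lit 336186) (nat_lit 11) (.e (nat_lit 368676) (nat_lit 21) (.e (nat_lit 516118) (nat_lit 1) .nil))))) .nil))) (.nd (nat_lit 5) 
(.lf (nat_lit 161049) (.g (nat_lit 1965) (.e (nat_lit 57444) (nat_lit 19) (.e (nat_lit 393225) (nat_lit 9) (.e (nat_lit 336087) (nat_lit 9) (.e (nat_lit 336019) (nat_lit 3) (.e (nat_lit 98333) (nat_lit 18) .nil))))) .nil)) 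
(.lf (nat_lit 161081) (.g (nat_lit 418) (.e (nat_lit 57444) (nat_lit 19) (.e (nat_lit 393281) (nat_lit 23) (.e (nat_lit 426116) (nat_lit 2) .nil))) .nil))))) (.nd (nat_lit 3) (.nd (nat_lit 4) (.nd (nat_lit 5) 
(.lf (nat_lit 161029) (.g (nat_lit 3238) (.e (nat_lit 57443) (nat_lit 18) (.e (nat_lit 385074) (nat_lit 31) (.e (nat_lit 573484) (nat_lit 13) (.e (nat_lit 65617) (nat_lit 10) (.e (nat_lit 344130) (nat_lit 26) (.e (nat_lit 557090) (nat_lit 12) (.e (nat_lit 163843) (nat_lit 0) (.e (nat_lit 6063) (nat_lit 328) .nil)))))))) (.g (nat_lit 5) .nil .nil))) 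
(.lf (nat_lit 161061) (.g (nat_lit 1335) (.e (nat_lit 57444) (nat_lit 19) (.e (nat_lit 393229) (nat_lit 9) (.e (nat_lit 336184) (nat_lit 11) (.e (nat_lit 368676) (nat_lit 21) (.e (nat_lit 516117) (nat_lit 1) .nil))))) .nil))) (.nd (nat_lit 5) 
(.lf (nat_lit 161045) (.g (nat_lit 896) (.e (nat_lit 65280) (nat_lit 18) (.e (nat_lit 385068) (nat_lit 26) (.e (nat_lit 532533) (nat_lit 9) (.e (nat_lit 336211) (nat_lit 13) .nil)))) .nil)) 
(.lf (nat_lit 161077) (.g (nat_lit 1479) (.e (nat_lit 57444) (nat_lit 19) (.e (nat_lit 393234) (nat_lit 17) (.e (nat_lit 7581) (nat_lit 405) (.e (nat_lit 57480) (nat_lit 28) .nil)))) .nil)))) (.nd (nat_lit 4) (.nd (nat_lit 5) 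
(.lf (nat_lit 161037) (.g (nat_lit 2953) (.e (nat_lit 57443) (nat_lit 18) (.e (nat_lit 385074) (nat_lit 31) (.e (nat_lit 573491) (nat_lit 15) (.e (nat_lit 81954) (nat_lit 23) (.e (nat_lit 98334) (nat_lit 18) (.e (nat_lit 171776) (nat_lit 262) .nil)))))) (.g (nat_lit 5) .nil .nil))) 
(.lf (nat_lit 161069) (.g (nat_lit 2042) (.e (nat_lit 57444) (nat_lit 19) (.e (nat_lit 393229) (nat_lit 9) (.e (nat_lit 336196) (nat_lit 12) (.e (nat_lit 385066) (nat_lit 26) (.e (nat_lit 532504) (nat_lit 1) .nil))))) .nil))) (.nd (nat_lit 5) 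
(.lf (nat_lit 161053) (.g (nat_lit 801) (.e (nat_lit 57444) (nat_lit 19) (.e (nat_lit 393225) (nat_lit 9) (.e (nat_lit 336184) (nat_lit 11) .nil))) .nil)) 
(.lf (nat_lit 161085) (.g (nat_lit 1840) (.e (nat_lit 57444) (nat_lit 19) (.e (nat_lit 393283) (nat_lit 24) (.e (nat_lit 434231) (nat_lit 23) (.e (nat_lit 532579) (nat_lit 26) (.e (nat_lit 426098) (nat_lit 1) .nil))))) .nil)))))) (.nd (nat_lit 2) (.nd (nat_lit 3) (.nd (nat_lit 4) (.nd (nat_lit 5) 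
(.lf (nat_lit 161027) (.g (nat_lit 2581) (.e (nat_lit 57443) (nat_lit 18) (.e (nat_lit 385074) (nat_lit 31) (.e (nat_lit 573484) (nat_lit 13) (.e (nat_lit 65617) (nat_lit 10) (.e (nat_lit 344130) (nat_lit 26) .nil))))) .nil)) 
(.lf (nat_lit 161059) (.g (nat_lit 1465) (.e (nat_lit 57444) (nat_lit 19) (.e (nat_lit 393229) (nat_lit 9) (.e (nat_lit 336087) (nat_lit 9) (.e (nat_lit 336019) (nat_lit 3) (.e (nat_lit 98335) (nat_lit 18) .nil))))) .nil))) (.nd (nat_lit 5) 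
(.lf (nat_lit 161043) (.g (nat_lit 2189) (.e (nat_lit 57443) (nat_lit 18) (.e (nat_lit 385094) (nat_lit 49) (.e (nat_lit 778323) (nat_lit 5) (.e (nat_lit 81664) (nat_lit 37) (.e (nat_lit 180227) (nat_lit 0) (.e (nat_lit 6063) (nat_lit 328) .nil)))))) (.g (nat_lit 5) .nil .nil))) 
(.lf (nat_lit 161075) (.g (nat_lit 2225) (.e (nat_lit 57444) (nat_lit 19) (.e (nat_lit 393234) (nat_lit 17) (.e (nat_lit 7581) (nat_lit 405) (.e (nat_lit 57476) (nat_lit 28) (.e (nat_lit 557104) (nat_lit 14) .nil))))) .nil)))) (.nd (nat_lit 4) (.nd (nat_lit 5) 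
(.lf (nat_lit 161035) (.g (nat_lit 2982) (.e (nat_lit 57443) (nat_lit 18) (.e (nat_lit 385074) (nat_lit 31) (.e (nat_lit 573485) (nat_lit 13) (.e (nat_lit 65619) (nat_lit 10) (.e (nat_lit 344129) (nat_lit 26) (.e (nat_lit 557089) (nat_lit 12) (.e (nat_lit 163844) (nat_lit 0) (.e (nat_lit 6063) (nat_lit 328) .nil)))))))) (.g (nat_lit 4) .nil .nil))) 
(.lf (nat_lit 161067) (.g (nat_lit 1746) (.e (nat_lit 57444) (nat_lit 19) (.e (nat_lit 393229) (nat_lit 9) (.e (nat_lit 336194) (nat_lit 12) (.e (nat_lit 385066) (nat_lit 26) (.e (nat_lit 532504) (nat_lit 1) .nil))))) .nil))) (.nd (nat_lit 5) 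
(.lf (nat_lit 161051) (.g (nat_lit 1916) (.e (nat_lit 57444) (nat_lit 19) (.e (nat_lit 393225) (nat_lit 9) (.e (nat_lit 336087) (nat_lit 9) (.e (nat_lit 336019) (nat_lit 3) (.e (nat_lit 98335) (nat_lit 18) .nil))))) .nil)) 
(.lf (nat_lit 161083) (.g (nat_lit 1235) (.e (nat_lit 57444) (nat_lit 19) (.e (nat_lit 393281) (nat_lit 23) (.e (nat_lit 426133) (nat_lit 3) (.e (nat_lit 204813) (nat_lit 9) .nil)))) .nil))))) (.nd (nat_lit 3) (.nd (nat_lit 4) (.nd (nat_lit 5) 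
(.lf (nat_lit 161031) (.g (nat_lit 2676) (.e (nat_lit 57443) (nat_lit 18) (.e (nat_lit 385074) (nat_lit 31) (.e (nat_lit 573484) (nat_lit 13) (.e (nat_lit 65617) (nat_lit 10) (.e (nat_lit 344133) (nat_lit 26) (.e (nat_lit 557091) (nat_lit 12) (.e (nat_lit 163840) (nat_lit 0) (.e (nat_lit 6063) (nat_lit 328) .nil)))))))) (.g (nat_lit 4) .nil .nil))) 
(.lf (nat_lit 161063) (.g (nat_lit 1291) (.e (nat_lit 57444) (nat_lit 19) (.e (nat_lit 393229) (nat_lit 9) (.e (nat_lit 336184) (nat_lit 11) (.e (nat_lit 368676) (nat_lit 21) (.e (nat_lit 516119) (nat_lit 1) .nil))))) .nil))) (.nd (nat_lit 5) 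
(.lf (nat_lit 161047) (.g (nat_lit 2256) (.e (nat_lit 65280) (nat_lit 18) (.e (nat_lit 385068) (nat_lit 26) (.e (nat_lit 532560) (nat_lit 14) (.e (nat_lit 376842) (nat_lit 11) (.e (nat_lit 426100) (nat_lit 1) .nil))))) .nil)) 
(.lf (nat_lit 161079) (.g (nat_lit 1257) (.e (nat_lit 57444) (nat_lit 19) (.e (nat_lit 393271) (nat_lit 23) (.e (nat_lit 426131) (nat_lit 3) .nil))) .nil)))) (.nd (nat_lit 4) (.nd (nat_lit 5) 
(.lf (nat_lit 161039) (.g (nat_lit 964) (.e (nat_lit 57443) (nat_lit 18) (.e (nat_lit 385093) (nat_lit 49) (.e (nat_lit 778323) (nat_lit 5) .nil))) .nil)) 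
(.lf (nat_lit 161071) (.g (nat_lit 1841) (.e (nat_lit 57444) (nat_lit 19) (.e (nat_lit 393229) (nat_lit 9) (.e (nat_lit 336204) (nat_lit 12) (.e (nat_lit 385066) (nat_lit 26) (.e (nat_lit 532501) (nat_lit 1) .nil))))) .nil))) (.nd (nat_lit 5) 
(.lf (nat_lit 161055) (.g (nat_lit 1438) (.e (nat_lit 57444) (nat_lit 19) (.e (nat_lit 393225) (nat_lit 9) (.e (nat_lit 336204) (nat_lit 12) (.e (nat_lit 385066) (nat_lit 26) .nil)))) .nil)) 
(.lf (nat_lit 161087) (.g (nat_lit 884) (.e (nat_lit 57445) (nat_lit 19) (.e (nat_lit 393225) (nat_lit 9) (.e (nat_lit 336073) (nat_lit 9) .nil))) .nil))))))))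

noncomputable def tv2157 : DT := (.nd (nat_lit 0) (.nd (nat_lit 1) (.nd (nat_lit 2) (.nd (nat_lit 3) (.nd (nat_lit 4) (.nd (nat_lit 5) 
(.lf (nat_lit 161088) (.g (nat_lit 4048) (.e (nat_lit 57445) (nat_lit 19) (.e (nat_lit 393225) (nat_lit 9) (.e (nat_lit 336075) (nat_lit 9) (.e (nat_lit 336324) (nat_lit 18) (.e (nat_lit 204831) (nat_lit 18) (.e (nat_lit 57846) (nat_lit 252) .nil)))))) (.g (nat_lit 5) .nil .nil))) 
(.lf (nat_lit 161120) (.g (nat_lit 3307) (.e (nat_lit 57445) (nat_lit 19) (.e (nat_lit 393225) (nat_lit 9) (.e (nat_lit 336078) (nat_lit 9) (.e (nat_lit 336324) (nat_lit 18) (.e (nat_lit 204831) (nat_lit 18) (.e (nat_lit 57846) (nat_lit 252) .nil)))))) (.g (nat_lit 5) .nil .nil)))) (.nd (nat_lit 5) 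
(.lf (nat_lit 161104) (.g (nat_lit 2378) (.e (nat_lit 57445) (nat_lit 19) (.e (nat_lit 393225) (nat_lit 9) (.e (nat_lit 336076) (nat_lit 9) (.e (nat_lit 336326) (nat_lit 18) (.e (nat_lit 204831) (nat_lit 18) (.e (nat_lit 57848) (nat_lit 252) .nil)))))) (.g (nat_lit 4) .nil .nil))) 
(.lf (nat_lit 161136) (.g (nat_lit 2224) (.e (nat_lit 57445) (nat_lit 19) (.e (nat_lit 393225) (nat_lit 9) (.e (nat_lit 336088) (nat_lit 9) (.e (nat_lit 336324) (nat_lit 18) (.e (nat_lit 204830) (nat_lit 18) (.e (nat_lit 57851) (nat_lit 252) .nil)))))) (.g (nat_lit 4) .nil .nil))))) (.nd (nat_lit 4) (.nd (nat_lit 5) 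
(.lf (nat_lit 161096) (.g (nat_lit 2893) (.e (nat_lit 57445) (nat_lit 19) (.e (nat_lit 393225) (nat_lit 9) (.e (nat_lit 336076) (nat_lit 9) (.e (nat_lit 336324) (nat_lit 18) (.e (nat_lit 204831) (nat_lit 18) (.e (nat_lit 57848) (nat_lit 252) .nil)))))) (.g (nat_lit 5) .nil .nil))) 
(.lf (nat_lit 161128) (.g (nat_lit 1477) (.e (nat_lit 57445) (nat_lit 19) (.e (nat_lit 393225) (nat_lit 9) (.e (nat_lit 336084) (nat_lit 9) (.e (nat_lit 336326) (nat_lit 18) (.e (nat_lit 204831) (nat_lit 18) .nil))))) .nil))) (.nd (nat_lit 5) 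
(.lf (nat_lit 161112) (.g (nat_lit 3884) (.e (nat_lit 57445) (nat_lit 19) (.e (nat_lit 393225) (nat_lit 9) (.e (nat_lit 336077) (nat_lit 9) (.e (nat_lit 336324) (nat_lit 18) (.e (nat_lit 204831) (nat_lit 18) (.e (nat_lit 57854) (nat_lit 252) .nil)))))) (.g (nat_lit 5) .nil .nil))) 
(.lf (nat_lit 161144) (.g (nat_lit 1977) (.e (nat_lit 57445) (nat_lit 19) (.e (nat_lit 393225) (nat_lit 9) (.e (nat_lit 336088) (nat_lit 9) (.e (nat_lit 336326) (nat_lit 18) (.e (nat_lit 204831) (nat_lit 18) (.e (nat_lit 57848) (nat_lit 252) .nil)))))) (.g (nat_lit 4) .nil .nil)))))) (.nd (nat_lit 3) (.nd (nat_lit 4) (.nd (nat_lit 5) 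
(.lf (nat_lit 161092) (.g (nat_lit 3680) (.e (nat_lit 57445) (nat_lit 19) (.e (nat_lit 393225) (nat_lit 9) (.e (nat_lit 336075) (nat_lit 9) (.e (nat_lit 336324) (nat_lit 18) (.e (nat_lit 204831) (nat_lit 18) (.e (nat_lit 57854) (nat_lit 252) .nil)))))) (.g (nat_lit 5) .nil .nil))) 
(.lf (nat_lit 161124) (.g (nat_lit 2817) (.e (nat_lit 57445) (nat_lit 19) (.e (nat_lit 393225) (nat_lit 9) (.e (nat_lit 336078) (nat_lit 9) (.e (nat_lit 336324) (nat_lit 18) (.e (nat_lit 204831) (nat_lit 18) (.e (nat_lit 57851) (nat_lit 252) .nil)))))) (.g (nat_lit 4) .nil .nil)))) (.nd (nat_lit 5) 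
(.lf (nat_lit 161108) (.g (nat_lit 3865) (.e (nat_lit 57445) (nat_lit 19) (.e (nat_lit 393225) (nat_lit 9) (.e (nat_lit 336077) (nat_lit 9) (.e (nat_lit 336324) (nat_lit 18) (.e (nat_lit 204831) (nat_lit 18) (.e (nat_lit 57846) (nat_lit 252) .nil)))))) (.g (nat_lit 5) .nil .nil))) 
(.lf (nat_lit 161140) (.g (nat_lit 3855) (.e (nat_lit 57445) (nat_lit 19) (.e (nat_lit 393225) (nat_lit 9) (.e (nat_lit 336088) (nat_lit 9) (.e (nat_lit 336324) (nat_lit 18) (.e (nat_lit 204831) (nat_lit 18) (.e (nat_lit 57853) (nat_lit 252) .nil)))))) (.g (nat_lit 0) .nil .nil))))) (.nd (nat_lit 4) (.nd (nat_lit 5) 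
(.lf (nat_lit 161100) (.g (nat_lit 3684) (.e (nat_lit 57445) (nat_lit 19) (.e (nat_lit 393225) (nat_lit 9) (.e (nat_lit 336076) (nat_lit 9) (.e (nat_lit 336324) (nat_lit 18) (.e (nat_lit 204831) (nat_lit 18) (.e (nat_lit 57854) (nat_lit 252) .nil)))))) (.g (nat_lit 0) .nil .nil))) 
(.lf (nat_lit 161132) (.g (nat_lit 1834) (.e (nat_lit 57445) (nat_lit 19) (.e (nat_lit 393225) (nat_lit 9) (.e (nat_lit 336088) (nat_lit 9) (.e (nat_lit 336019) (nat_lit 3) (.e (nat_lit 98335) (nat_lit 18) (.e (nat_lit 164178) (nat_lit 154) .nil)))))) (.g (nat_lit 4) .nil .nil)))) (.nd (nat_lit 5) 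
(.lf (nat_lit 161116) (.g (nat_lit 2863) (.e (nat_lit 57445) (nat_lit 19) (.e (nat_lit 393225) (nat_lit 9) (.e (nat_lit 336078) (nat_lit 9) (.e (nat_lit 336324) (nat_lit 18) (.e (nat_lit 204829) (nat_lit 18) (.e (nat_lit 57854) (nat_lit 252) .nil)))))) (.g (nat_lit 4) .nil .nil))) 
(.lf (nat_lit 161148) (.g (nat_lit 1650) (.e (nat_lit 57445) (nat_lit 19) (.e (nat_lit 393225) (nat_lit 9) (.e (nat_lit 336100) (nat_lit 9) (.e (nat_lit 336282) (nat_lit 15) (.e (nat_lit 3253) (nat_lit 197) .nil))))) .nil)))))) (.nd (nat_lit 2) (.nd (nat_lit 3) (.nd (nat_lit 4) (.nd (nat_lit 5) 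
(.lf (nat_lit 161090) (.g (nat_lit 3936) (.e (nat_lit 57445) (nat_lit 19) (.e (nat_lit 393225) (nat_lit 9) (.e (nat_lit 336075) (nat_lit 9) (.e (nat_lit 336324) (nat_lit 18) (.e (nat_lit 204831) (nat_lit 18) (.e (nat_lit 57852) (nat_lit 252) .nil)))))) (.g (nat_lit 5) .nil .nil))) 
(.lf (nat_lit 161122) (.g (nat_lit 2761) (.e (nat_lit 57445) (nat_lit 19) (.e (nat_lit 393225) (nat_lit 9) (.e (nat_lit 336078) (nat_lit 9) (.e (nat_lit 336324) (nat_lit 18) (.e (nat_lit 204831) (nat_lit 18) (.e (nat_lit 57848) (nat_lit 252) .nil)))))) (.g (nat_lit 4) .nil .nil)))) (.nd (nat_lit 5) 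
(.lf (nat_lit 161106) (.g (nat_lit 3339) (.e (nat_lit 57445) (nat_lit 19) (.e (nat_lit 393225) (nat_lit 9) (.e (nat_lit 336076) (nat_lit 9) (.e (nat_lit 336326) (nat_lit 18) (.e (nat_lit 204831) (nat_lit 18) (.e (nat_lit 57853) (nat_lit 252) .nil)))))) (.g (nat_lit 6) .nil .nil))) 
(.lf (nat_lit 161138) (.g (nat_lit 3224) (.e (nat_lit 57445) (nat_lit 19) (.e (nat_lit 393225) (nat_lit 9) (.e (nat_lit 336088) (nat_lit 9) (.e (nat_lit 336324) (nat_lit 18) (.e (nat_lit 204831) (nat_lit 18) (.e (nat_lit 57849) (nat_lit 252) .nil)))))) (.g (nat_lit 6) .nil .nil))))) (.nd (nat_lit 4) (.nd (nat_lit 5) 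
(.lf (nat_lit 161098) (.g (nat_lit 2051) (.e (nat_lit 57445) (nat_lit 19) (.e (nat_lit 393225) (nat_lit 9) (.e (nat_lit 336076) (nat_lit 9) (.e (nat_lit 336324) (nat_lit 18) (.e (nat_lit 204831) (nat_lit 18) (.e (nat_lit 57851) (nat_lit 252) .nil)))))) (.g (nat_lit 4) .nil .nil))) 
(.lf (nat_lit 161130) (.g (nat_lit 1357) (.e (nat_lit 57445) (nat_lit 19) (.e (nat_lit 393225) (nat_lit 9) (.e (nat_lit 336087) (nat_lit 9) (.e (nat_lit 336324) (nat_lit 18) (.e (nat_lit 204831) (nat_lit 18) .nil))))) .nil))) (.nd (nat_lit 5) 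
(.lf (nat_lit 161114) (.g (nat_lit 3364) (.e (nat_lit 57445) (nat_lit 19) (.e (nat_lit 393225) (nat_lit 9) (.e (nat_lit 336078) (nat_lit 9) (.e (nat_lit 336324) (nat_lit 18) (.e (nat_lit 204829) (nat_lit 18) (.e (nat_lit 57847) (nat_lit 252) .nil)))))) (.g (nat_lit 5) .nil .nil))) 
(.lf (nat_lit 161146) (.g (nat_lit 1520) (.e (nat_lit 57445) (nat_lit 19) (.e (nat_lit 393225) (nat_lit 9) (.e (nat_lit 336091) (nat_lit 9) (.e (nat_lit 336282) (nat_lit 15) (.e (nat_lit 3253) (nat_lit 197) .nil))))) .nil))))) (.nd (nat_lit 3) (.nd (nat_lit 4) (.nd (nat_lit 5) 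
(.lf (nat_lit 161094) (.g (nat_lit 2020) (.e (nat_lit 57445) (nat_lit 19) (.e (nat_lit 393225) (nat_lit 9) (.e (nat_lit 336076) (nat_lit 9) (.e (nat_lit 336324) (nat_lit 18) (.e (nat_lit 204830) (nat_lit 18) (.e (nat_lit 57851) (nat_lit 252) .nil)))))) (.g (nat_lit 4) .nil .nil))) 
(.lf (nat_lit 161126) (.g (nat_lit 3621) (.e (nat_lit 57445) (nat_lit 19) (.e (nat_lit 393225) (nat_lit 9) (.e (nat_lit 336078) (nat_lit 9) (.e (nat_lit 336324) (nat_lit 18) (.e (nat_lit 204831) (nat_lit 18) (.e (nat_lit 57853) (nat_lit 252) .nil)))))) (.g (nat_lit 5) .nil .nil)))) (.nd (nat_lit 5) 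
(.lf (nat_lit 161110) (.g (nat_lit 4115) (.e (nat_lit 57445) (nat_lit 19) (.e (nat_lit 393225) (nat_lit 9) (.e (nat_lit 336077) (nat_lit 9) (.e (nat_lit 336324) (nat_lit 18) (.e (nat_lit 204831) (nat_lit 18) (.e (nat_lit 57852) (nat_lit 252) .nil)))))) (.g (nat_lit 5) .nil .nil))) 
(.lf (nat_lit 161142) (.g (nat_lit 2103) (.e (nat_lit 57445) (nat_lit 19) (.e (nat_lit 393225) (nat_lit 9) (.e (nat_lit 336088) (nat_lit 9) (.e (nat_lit 336326) (nat_lit 18) (.e (nat_lit 204829) (nat_lit 18) (.e (nat_lit 57849) (nat_lit 252) .nil)))))) (.g (nat_lit 4) .nil .nil))))) (.nd (nat_lit 4) (.nd (nat_lit 5) 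
(.lf (nat_lit 161102) (.g (nat_lit 3314) (.e (nat_lit 57445) (nat_lit 19) (.e (nat_lit 393225) (nat_lit 9) (.e (nat_lit 336076) (nat_lit 9) (.e (nat_lit 336326) (nat_lit 18) (.e (nat_lit 204830) (nat_lit 18) (.e (nat_lit 57854) (nat_lit 252) .nil)))))) (.g (nat_lit 6) .nil .nil))) 
(.lf (nat_lit 161134) (.g (nat_lit 3126) (.e (nat_lit 57445) (nat_lit 19) (.e (nat_lit 393225) (nat_lit 9) (.e (nat_lit 336088) (nat_lit 9) (.e (nat_lit 336324) (nat_lit 18) (.e (nat_lit 204829) (nat_lit 18) (.e (nat_lit 57849) (nat_lit 252) .nil)))))) (.g (nat_lit 6) .nil .nil)))) (.nd (nat_lit 5) 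
(.lf (nat_lit 161118) (.g (nat_lit 2894) (.e (nat_lit 57445) (nat_lit 19) (.e (nat_lit 393225) (nat_lit 9) (.e (nat_lit 336078) (nat_lit 9) (.e (nat_lit 336324) (nat_lit 18) (.e (nat_lit 204830) (nat_lit 18) (.e (nat_lit 57853) (nat_lit 252) .nil)))))) (.g (nat_lit 4) .nil .nil))) 
(.lf (nat_lit 161150) (.g (nat_lit 797) (.e (nat_lit 57445) (nat_lit 19) (.e (nat_lit 393225) (nat_lit 9) (.e (nat_lit 336158) (nat_lit 9) .nil))) .nil))))))) (.nd (nat_lit 1) (.nd (nat_lit 2) (.nd (nat_lit 3) (.nd (nat_lit 4) (.nd (nat_lit 5) 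
(.lf (nat_lit 161089) (.g (nat_lit 4125) (.e (nat_lit 57445) (nat_lit 19) (.e (nat_lit 393225) (nat_lit 9) (.e (nat_lit 336075) (nat_lit 9) (.e (nat_lit 336324) (nat_lit 18) (.e (nat_lit 204831) (nat_lit 18) (.e (nat_lit 57847) (nat_lit 252) .nil)))))) (.g (nat_lit 5) .nil .nil))) 
(.lf (nat_lit 161121) (.g (nat_lit 3355) (.e (nat_lit 57445) (nat_lit 19) (.e (nat_lit 393225) (nat_lit 9) (.e (nat_lit 336078) (nat_lit 9) (.e (nat_lit 336324) (nat_lit 18) (.e (nat_lit 204831) (nat_lit 18) (.e (nat_lit 57847) (nat_lit 252) .nil)))))) (.g (nat_lit 5) .nil .nil)))) (.nd (nat_lit 5) 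
(.lf (nat_lit 161105) (.g (nat_lit 2531) (.e (nat_lit 57445) (nat_lit 19) (.e (nat_lit 393225) (nat_lit 9) (.e (nat_lit 336076) (nat_lit 9) (.e (nat_lit 336326) (nat_lit 18) (.e (nat_lit 204831) (nat_lit 18) (.e (nat_lit 57849) (nat_lit 252) .nil)))))) (.g (nat_lit 4) .nil .nil))) 
(.lf (nat_lit 161137) (.g (nat_lit 2988) (.e (nat_lit 57445) (nat_lit 19) (.e (nat_lit 393225) (nat_lit 9) (.e (nat_lit 336088) (nat_lit 9) (.e (nat_lit 336324) (nat_lit 18) (.e (nat_lit 204831) (nat_lit 18) (.e (nat_lit 57848) (nat_lit 252) .nil)))))) (.g (nat_lit 5) .nil .nil))))) (.nd (nat_lit 4) (.nd (nat_lit 5) 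
(.lf (nat_lit 161097) (.g (nat_lit 3133) (.e (nat_lit 57445) (nat_lit 19) (.e (nat_lit 393225) (nat_lit 9) (.e (nat_lit 336076) (nat_lit 9) (.e (nat_lit 336324) (nat_lit 18) (.e (nat_lit 204831) (nat_lit 18) (.e (nat_lit 57849) (nat_lit 252) .nil)))))) (.g (nat_lit 6) .nil .nil))) 
(.lf (nat_lit 161129) (.g (nat_lit 3055) (.e (nat_lit 57445) (nat_lit 19) (.e (nat_lit 393225) (nat_lit 9) (.e (nat_lit 336087) (nat_lit 9) (.e (nat_lit 336019) (nat_lit 3) (.e (nat_lit 98335) (nat_lit 18) (.e (nat_lit 164179) (nat_lit 154) .nil)))))) (.g (nat_lit 0) .nil .nil)))) (.nd (nat_lit 5) 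
(.lf (nat_lit 161113) (.g (nat_lit 737) (.e (nat_lit 57445) (nat_lit 19) (.e (nat_lit 393225) (nat_lit 9) (.e (nat_lit 336078) (nat_lit 9) .nil))) .nil)) 
(.lf (nat_lit 161145) (.g (nat_lit 2129) (.e (nat_lit 57445) (nat_lit 19) (.e (nat_lit 393225) (nat_lit 9) (.e (nat_lit 336088) (nat_lit 9) (.e (nat_lit 336326) (nat_lit 18) (.e (nat_lit 204831) (nat_lit 18) (.e (nat_lit 57849) (nat_lit 252) .nil)))))) (.g (nat_lit 4) .nil .nil)))))) (.nd (nat_lit 3) (.nd (nat_lit 4) (.nd (nat_lit 5) 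
(.lf (nat_lit 161093) (.g (nat_lit 3023) (.e (nat_lit 57445) (nat_lit 19) (.e (nat_lit 393225) (nat_lit 9) (.e (nat_lit 336076) (nat_lit 9) (.e (nat_lit 336324) (nat_lit 18) (.e (nat_lit 204829) (nat_lit 18) (.e (nat_lit 57849) (nat_lit 252) .nil)))))) (.g (nat_lit 6) .nil .nil))) 
(.lf (nat_lit 161125) (.g (nat_lit 3480) (.e (nat_lit 57445) (nat_lit 19) (.e (nat_lit 393225) (nat_lit 9) (.e (nat_lit 336078) (nat_lit 9) (.e (nat_lit 336324) (nat_lit 18) (.e (nat_lit 204831) (nat_lit 18) (.e (nat_lit 57852) (nat_lit 252) .nil)))))) (.g (nat_lit 5) .nil .nil)))) (.nd (nat_lit 5) 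
(.lf (nat_lit 161109) (.g (nat_lit 3833) (.e (nat_lit 57445) (nat_lit 19) (.e (nat_lit 393225) (nat_lit 9) (.e (nat_lit 336077) (nat_lit 9) (.e (nat_lit 336324) (nat_lit 18) (.e (nat_lit 204831) (nat_lit 18) (.e (nat_lit 57847) (nat_lit 252) .nil)))))) (.g (nat_lit 5) .nil .nil))) 
(.lf (nat_lit 161141) (.g (nat_lit 3264) (.e (nat_lit 57445) (nat_lit 19) (.e (nat_lit 393225) (nat_lit 9) (.e (nat_lit 336088) (nat_lit 9) (.e (nat_lit 336326) (nat_lit 18) (.e (nat_lit 204829) (nat_lit 18) (.e (nat_lit 57847) (nat_lit 252) .nil)))))) (.g (nat_lit 6) .nil .nil))))) (.nd (nat_lit 4) (.nd (nat_lit 5) 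
(.lf (nat_lit 161101) (.g (nat_lit 2514) (.e (nat_lit 57445) (nat_lit 19) (.e (nat_lit 393225) (nat_lit 9) (.e (nat_lit 336076) (nat_lit 9) (.e (nat_lit 336326) (nat_lit 18) (.e (nat_lit 204829) (nat_lit 18) (.e (nat_lit 57849) (nat_lit 252) .nil)))))) (.g (nat_lit 4) .nil .nil))) 
(.lf (nat_lit 161133) (.g (nat_lit 3453) (.e (nat_lit 57445) (nat_lit 19) (.e (nat_lit 393225) (nat_lit 9) (.e (nat_lit 336088) (nat_lit 9) (.e (nat_lit 336019) (nat_lit 3) (.e (nat_lit 98335) (nat_lit 18) (.e (nat_lit 164179) (nat_lit 154) .nil)))))) (.g (nat_lit 0) .nil .nil)))) (.nd (nat_lit 5) 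
(.lf (nat_lit 161117) (.g (nat_lit 3317) (.e (nat_lit 57445) (nat_lit 19) (.e (nat_lit 393225) (nat_lit 9) (.e (nat_lit 336078) (nat_lit 9) (.e (nat_lit 336324) (nat_lit 18) (.e (nat_lit 204830) (nat_lit 18) (.e (nat_lit 57852) (nat_lit 252) .nil)))))) (.g (nat_lit 5) .nil .nil))) 
(.lf (nat_lit 161149) (.g (nat_lit 885) (.e (nat_lit 57445) (nat_lit 19) (.e (nat_lit 393225) (nat_lit 9) (.e (nat_lit 336150) (nat_lit 9) .nil))) .nil)))))) (.nd (nat_lit 2) (.nd (nat_lit 3) (.nd (nat_lit 4) (.nd (nat_lit 5) 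
(.lf (nat_lit 161091) (.g (nat_lit 4016) (.e (nat_lit 57445) (nat_lit 19) (.e (nat_lit 393225) (nat_lit 9) (.e (nat_lit 336075) (nat_lit 9) (.e (nat_lit 336324) (nat_lit 18) (.e (nat_lit 204831) (nat_lit 18) (.e (nat_lit 57853) (nat_lit 252) .nil)))))) (.g (nat_lit 5) .nil .nil))) 
(.lf (nat_lit 161123) (.g (nat_lit 2549) (.e (nat_lit 57445) (nat_lit 19) (.e (nat_lit 393225) (nat_lit 9) (.e (nat_lit 336078) (nat_lit 9) (.e (nat_lit 336324) (nat_lit 18) (.e (nat_lit 204831) (nat_lit 18) (.e (nat_lit 57849) (nat_lit 252) .nil)))))) (.g (nat_lit 4) .nil .nil)))) (.nd (nat_lit 5) 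
(.lf (nat_lit 161107) (.g (nat_lit 3287) (.e (nat_lit 57445) (nat_lit 19) (.e (nat_lit 393225) (nat_lit 9) (.e (nat_lit 336076) (nat_lit 9) (.e (nat_lit 336326) (nat_lit 18) (.e (nat_lit 204831) (nat_lit 18) (.e (nat_lit 57854) (nat_lit 252) .nil)))))) (.g (nat_lit 6) .nil .nil))) 
(.lf (nat_lit 161139) (.g (nat_lit 2281) (.e (nat_lit 57445) (nat_lit 19) (.e (nat_lit 393225) (nat_lit 9) (.e (nat_lit 336088) (nat_lit 9) (.e (nat_lit 336324) (nat_lit 18) (.e (nat_lit 204831) (nat_lit 18) (.e (nat_lit 57851) (nat_lit 252) .nil)))))) (.g (nat_lit 4) .nil .nil))))) (.nd (nat_lit 4) (.nd (nat_lit 5) 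
(.lf (nat_lit 161099) (.g (nat_lit 3784) (.e (nat_lit 57445) (nat_lit 19) (.e (nat_lit 393225) (nat_lit 9) (.e (nat_lit 336076) (nat_lit 9) (.e (nat_lit 336324) (nat_lit 18) (.e (nat_lit 204831) (nat_lit 18) (.e (nat_lit 57853) (nat_lit 252) .nil)))))) (.g (nat_lit 0) .nil .nil))) 
(.lf (nat_lit 161131) (.g (nat_lit 3878) (.e (nat_lit 57445) (nat_lit 19) (.e (nat_lit 393225) (nat_lit 9) (.e (nat_lit 336088) (nat_lit 9) (.e (nat_lit 336019) (nat_lit 3) (.e (nat_lit 98333) (nat_lit 18) (.e (nat_lit 164179) (nat_lit 154) .nil)))))) (.g (nat_lit 0) .nil .nil)))) (.nd (nat_lit 5) 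
(.lf (nat_lit 161115) (.g (nat_lit 2362) (.e (nat_lit 57445) (nat_lit 19) (.e (nat_lit 393225) (nat_lit 9) (.e (nat_lit 336078) (nat_lit 9) (.e (nat_lit 336324) (nat_lit 18) (.e (nat_lit 204829) (nat_lit 18) (.e (nat_lit 57849) (nat_lit 252) .nil)))))) (.g (nat_lit 4) .nil .nil))) 
(.lf (nat_lit 161147) (.g (nat_lit 1986) (.e (nat_lit 57445) (nat_lit 19) (.e (nat_lit 393225) (nat_lit 9) (.e (nat_lit 336091) (nat_lit 9) (.e (nat_lit 336295) (nat_lit 15) (.e (nat_lit 3253) (nat_lit 197) .nil))))) .nil))))) (.nd (nat_lit 3) (.nd (nat_lit 4) (.nd (nat_lit 5) 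
(.lf (nat_lit 161095) (.g (nat_lit 3546) (.e (nat_lit 57445) (nat_lit 19) (.e (nat_lit 393225) (nat_lit 9) (.e (nat_lit 336076) (nat_lit 9) (.e (nat_lit 336324) (nat_lit 18) (.e (nat_lit 204830) (nat_lit 18) (.e (nat_lit 57854) (nat_lit 252) .nil)))))) (.g (nat_lit 0) .nil .nil))) 
(.lf (nat_lit 161127) (.g (nat_lit 3277) (.e (nat_lit 57445) (nat_lit 19) (.e (nat_lit 393225) (nat_lit 9) (.e (nat_lit 336078) (nat_lit 9) (.e (nat_lit 336324) (nat_lit 18) (.e (nat_lit 204831) (nat_lit 18) (.e (nat_lit 57854) (nat_lit 252) .nil)))))) (.g (nat_lit 5) .nil .nil)))) (.nd (nat_lit 5) 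
(.lf (nat_lit 161111) (.g (nat_lit 3957) (.e (nat_lit 57445) (nat_lit 19) (.e (nat_lit 393225) (nat_lit 9) (.e (nat_lit 336077) (nat_lit 9) (.e (nat_lit 336324) (nat_lit 18) (.e (nat_lit 204831) (nat_lit 18) (.e (nat_lit 57853) (nat_lit 252) .nil)))))) (.g (nat_lit 5) .nil .nil))) 
(.lf (nat_lit 161143) (.g (nat_lit 2913) (.e (nat_lit 57445) (nat_lit 19) (.e (nat_lit 393225) (nat_lit 9) (.e (nat_lit 336088) (nat_lit 9) (.e (nat_lit 336326) (nat_lit 18) (.e (nat_lit 204830) (nat_lit 18) (.e (nat_lit 57854) (nat_lit 252) .nil)))))) (.g (nat_lit 6) .nil .nil))))) (.nd (nat_lit 4) (.nd (nat_lit 5) 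
(.lf (nat_lit 161103) (.g (nat_lit 3300) (.e (nat_lit 57445) (nat_lit 19) (.e (nat_lit 393225) (nat_lit 9) (.e (nat_lit 336076) (nat_lit 9) (.e (nat_lit 336326) (nat_lit 18) (.e (nat_lit 204831) (nat_lit 18) (.e (nat_lit 57846) (nat_lit 252) .nil)))))) (.g (nat_lit 6) .nil .nil))) 
(.lf (nat_lit 161135) (.g (nat_lit 3444) (.e (nat_lit 57445) (nat_lit 19) (.e (nat_lit 393225) (nat_lit 9) (.e (nat_lit 336088) (nat_lit 9) (.e (nat_lit 336324) (nat_lit 18) (.e (nat_lit 204829) (nat_lit 18) (.e (nat_lit 57853) (nat_lit 252) .nil)))))) (.g (nat_lit 6) .nil .nil)))) (.nd (nat_lit 5) 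
(.lf (nat_lit 161119) (.g (nat_lit 3083) (.e (nat_lit 57445) (nat_lit 19) (.e (nat_lit 393225) (nat_lit 9) (.e (nat_lit 336078) (nat_lit 9) (.e (nat_lit 336324) (nat_lit 18) (.e (nat_lit 204830) (nat_lit 18) (.e (nat_lit 57854) (nat_lit 252) .nil)))))) (.g (nat_lit 5) .nil .nil))) 
(.lf (nat_lit 161151) (.g (nat_lit 2936) (.e (nat_lit 57445) (nat_lit 19) (.e (nat_lit 393225) (nat_lit 9) (.e (nat_lit 336163) (nat_lit 10) (.e (nat_lit 344117) (nat_lit 21) (.e (nat_lit 516115) (nat_lit 1) (.e (nat_lit 164179) (nat_lit 154) .nil)))))) (.g (nat_lit 5) .nil .nil)))))))))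

noncomputable def tv2158 : DT := (.nd (nat_lit 0) (.nd (nat_lit 1) (.nd (nat_lit 2) (.nd (nat_lit 3) (.nd (nat_lit 4) (.nd (nat_lit 5) 
(.lf (nat_lit 161152) (.g (nat_lit 2287) (.e (nat_lit 57445) (nat_lit 19) (.e (nat_lit 393225) (nat_lit 9) (.e (nat_lit 336185) (nat_lit 11) (.e (nat_lit 368676) (nat_lit 21) (.e (nat_lit 516118) (nat_lit 1) (.e (nat_lit 164179) (nat_lit 154) .nil)))))) (.g (nat_lit 4) .nil .nil))) 
(.lf (nat_lit 161184) (.g (nat_lit 3228) (.e (nat_lit 57445) (nat_lit 19) (.e (nat_lit 393225) (nat_lit 9) (.e (nat_lit 336196) (nat_lit 12) (.e (nat_lit 385066) (nat_lit 26) (.e (nat_lit 532501) (nat_lit 1) (.e (nat_lit 57854) (nat_lit 252) .nil)))))) (.g (nat_lit 6) .nil .nil)))) (.nd (nat_lit 5) 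
(.lf (nat_lit 161168) (.g (nat_lit 2217) (.e (nat_lit 57445) (nat_lit 19) (.e (nat_lit 393225) (nat_lit 9) (.e (nat_lit 336194) (nat_lit 12) (.e (nat_lit 385066) (nat_lit 26) (.e (nat_lit 532502) (nat_lit 1) (.e (nat_lit 57848) (nat_lit 252) .nil)))))) (.g (nat_lit 5) .nil .nil))) 
(.lf (nat_lit 161200) (.g (nat_lit 2262) (.e (nat_lit 57445) (nat_lit 19) (.e (nat_lit 393225) (nat_lit 9) (.e (nat_lit 336202) (nat_lit 12) (.e (nat_lit 385067) (nat_lit 26) (.e (nat_lit 532504) (nat_lit 1) (.e (nat_lit 57851) (nat_lit 252) .nil)))))) (.g (nat_lit 4) .nil .nil))))) (.nd (nat_lit 4) (.nd (nat_lit 5) 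
(.lf (nat_lit 161160) (.g (nat_lit 2120) (.e (nat_lit 57445) (nat_lit 19) (.e (nat_lit 393225) (nat_lit 9) (.e (nat_lit 336193) (nat_lit 12) (.e (nat_lit 385068) (nat_lit 26) (.e (nat_lit 532503) (nat_lit 1) (.e (nat_lit 57846) (nat_lit 252) .nil)))))) (.g (nat_lit 4) .nil .nil))) 
(.lf (nat_lit 161192) (.g (nat_lit 3389) (.e (nat_lit 57445) (nat_lit 19) (.e (nat_lit 393225) (nat_lit 9) (.e (nat_lit 336196) (nat_lit 12) (.e (nat_lit 385066) (nat_lit 26) (.e (nat_lit 532504) (nat_lit 1) (.e (nat_lit 57854) (nat_lit 252) .nil)))))) (.g (nat_lit 6) .nil .nil)))) (.nd (nat_lit 5) 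
(.lf (nat_lit 161176) (.g (nat_lit 1382) (.e (nat_lit 57445) (nat_lit 19) (.e (nat_lit 393225) (nat_lit 9) (.e (nat_lit 336196) (nat_lit 12) (.e (nat_lit 385064) (nat_lit 26) .nil)))) .nil)) 
(.lf (nat_lit 161208) (.g (nat_lit 1107) (.e (nat_lit 57445) (nat_lit 19) (.e (nat_lit 393225) (nat_lit 9) (.e (nat_lit 336204) (nat_lit 12) (.e (nat_lit 385066) (nat_lit 26) .nil)))) .nil))))) (.nd (nat_lit 3) (.nd (nat_lit 4) (.nd (nat_lit 5) 
(.lf (nat_lit 161156) (.g (nat_lit 2545) (.e (nat_lit 57445) (nat_lit 19) (.e (nat_lit 393225) (nat_lit 9) (.e (nat_lit 336193) (nat_lit 12) (.e (nat_lit 385068) (nat_lit 26) (.e (nat_lit 532499) (nat_lit 1) (.e (nat_lit 57849) (nat_lit 252) .nil)))))) (.g (nat_lit 4) .nil .nil))) 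
(.lf (nat_lit 161188) (.g (nat_lit 3085) (.e (nat_lit 57445) (nat_lit 19) (.e (nat_lit 393225) (nat_lit 9) (.e (nat_lit 336196) (nat_lit 12) (.e (nat_lit 385066) (nat_lit 26) (.e (nat_lit 532503) (nat_lit 1) (.e (nat_lit 57849) (nat_lit 252) .nil)))))) (.g (nat_lit 5) .nil .nil)))) (.nd (nat_lit 5) 
(.lf (nat_lit 161172) (.g (nat_lit 2723) (.e (nat_lit 57445) (nat_lit 19) (.e (nat_lit 393225) (nat_lit 9) (.e (nat_lit 336194) (nat_lit 12) (.e (nat_lit 385068) (nat_lit 26) (.e (nat_lit 532503) (nat_lit 1) (.e (nat_lit 57848) (nat_lit 252) .nil)))))) (.g (nat_lit 5) .nil .nil))) 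
(.lf (nat_lit 161204) (.g (nat_lit 2100) (.e (nat_lit 57445) (nat_lit 19) (.e (nat_lit 393225) (nat_lit 9) (.e (nat_lit 336204) (nat_lit 12) (.e (nat_lit 385064) (nat_lit 26) (.e (nat_lit 532501) (nat_lit 1) (.e (nat_lit 57851) (nat_lit 252) .nil)))))) (.g (nat_lit 4) .nil .nil))))) (.nd (nat_lit 4) (.nd (nat_lit 5) 
(.lf (nat_lit 161164) (.g (nat_lit 1460) (.e (nat_lit 57445) (nat_lit 19) (.e (nat_lit 393225) (nat_lit 9) (.e (nat_lit 336194) (nat_lit 12) (.e (nat_lit 385064) (nat_lit 26) .nil)))) .nil)) 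
(.lf (nat_lit 161196) (.g (nat_lit 688) (.e (nat_lit 57445) (nat_lit 19) (.e (nat_lit 393225) (nat_lit 9) (.e (nat_lit 336201) (nat_lit 12) .nil))) .nil))) (.nd (nat_lit 5) 
(.lf (nat_lit 161180) (.g (nat_lit 3401) (.e (nat_lit 57445) (nat_lit 19) (.e (nat_lit 393225) (nat_lit 9) (.e (nat_lit 336196) (nat_lit 12) (.e (nat_lit 385066) (nat_lit 26) (.e (nat_lit 532499) (nat_lit 1) (.e (nat_lit 57854) (nat_lit 252) .nil)))))) (.g (nat_lit 6) .nil .nil))) 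
(.lf (nat_lit 161212) (.g (nat_lit 2484) (.e (nat_lit 57445) (nat_lit 19) (.e (nat_lit 393225) (nat_lit 9) (.e (nat_lit 336204) (nat_lit 12) (.e (nat_lit 385066) (nat_lit 26) (.e (nat_lit 532502) (nat_lit 1) (.e (nat_lit 57848) (nat_lit 252) .nil)))))) (.g (nat_lit 5) .nil .nil))))))) (.nd (nat_lit 2) (.nd (nat_lit 3) (.nd (nat_lit 4) (.nd (nat_lit 5) 
(.lf (nat_lit 161154) (.g (nat_lit 3085) (.e (nat_lit 57445) (nat_lit 19) (.e (nat_lit 393225) (nat_lit 9) (.e (nat_lit 336186) (nat_lit 11) (.e (nat_lit 368676) (nat_lit 21) (.e (nat_lit 516115) (nat_lit 1) (.e (nat_lit 164179) (nat_lit 154) .nil)))))) (.g (nat_lit 0) .nil .nil))) 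
(.lf (nat_lit 161186) (.g (nat_lit 2777) (.e (nat_lit 57445) (nat_lit 19) (.e (nat_lit 393225) (nat_lit 9) (.e (nat_lit 336196) (nat_lit 12) (.e (nat_lit 385066) (nat_lit 26) (.e (nat_lit 532502) (nat_lit 1) (.e (nat_lit 57849) (nat_lit 252) .nil)))))) (.g (nat_lit 5) .nil .nil)))) (.nd (nat_lit 5) 
(.lf (nat_lit 161170) (.g (nat_lit 2812) (.e (nat_lit 57445) (nat_lit 19) (.e (nat_lit 393225) (nat_lit 9) (.e (nat_lit 336194) (nat_lit 12) (.e (nat_lit 385066) (nat_lit 26) (.e (nat_lit 532503) (nat_lit 1) (.e (nat_lit 57849) (nat_lit 252) .nil)))))) (.g (nat_lit 6) .nil .nil))) 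
(.lf (nat_lit 161202) (.g (nat_lit 2273) (.e (nat_lit 57445) (nat_lit 19) (.e (nat_lit 393225) (nat_lit 9) (.e (nat_lit 336204) (nat_lit 12) (.e (nat_lit 385059) (nat_lit 22) (.e (nat_lit 499961) (nat_lit 14) .nil))))) .nil)))) (.nd (nat_lit 4) (.nd (nat_lit 5) 
(.lf (nat_lit 161162) (.g (nat_lit 2691) (.e (nat_lit 57445) (nat_lit 19) (.e (nat_lit 393225) (nat_lit 9) (.e (nat_lit 336193) (nat_lit 12) (.e (nat_lit 385068) (nat_lit 26) (.e (nat_lit 532504) (nat_lit 1) (.e (nat_lit 57851) (nat_lit 252) .nil)))))) (.g (nat_lit 4) .nil .nil))) 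
(.lf (nat_lit 161194) (.g (nat_lit 4095) (.e (nat_lit 57445) (nat_lit 19) (.e (nat_lit 393225) (nat_lit 9) (.e (nat_lit 336196) (nat_lit 12) (.e (nat_lit 385068) (nat_lit 26) (.e (nat_lit 532504) (nat_lit 1) (.e (nat_lit 57852) (nat_lit 252) .nil)))))) (.g (nat_lit 6) .nil .nil)))) (.nd (nat_lit 5) 
(.lf (nat_lit 161178) (.g (nat_lit 1248) (.e (nat_lit 57445) (nat_lit 19) (.e (nat_lit 393225) (nat_lit 9) (.e (nat_lit 336196) (nat_lit 12) (.e (nat_lit 385066) (nat_lit 26) .nil)))) .nil)) 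
(.lf (nat_lit 161210) (.g (nat_lit 3033) (.e (nat_lit 57445) (nat_lit 19) (.e (nat_lit 393225) (nat_lit 9) (.e (nat_lit 336204) (nat_lit 12) (.e (nat_lit 385066) (nat_lit 26) (.e (nat_lit 532500) (nat_lit 1) (.e (nat_lit 57851) (nat_lit 252) .nil)))))) (.g (nat_lit 4) .nil .nil)))))) (.nd (nat_lit 3) (.nd (nat_lit 4) (.nd (nat_lit 5) 
(.lf (nat_lit 161158) (.g (nat_lit 2512) (.e (nat_lit 57445) (nat_lit 19) (.e (nat_lit 393225) (nat_lit 9) (.e (nat_lit 336193) (nat_lit 12) (.e (nat_lit 385068) (nat_lit 26) (.e (nat_lit 532501) (nat_lit 1) (.e (nat_lit 57853) (nat_lit 252) .nil)))))) (.g (nat_lit 4) .nil .nil))) 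
(.lf (nat_lit 161190) (.g (nat_lit 2551) (.e (nat_lit 57445) (nat_lit 19) (.e (nat_lit 393225) (nat_lit 9) (.e (nat_lit 336196) (nat_lit 12) (.e (nat_lit 385066) (nat_lit 26) (.e (nat_lit 532504) (nat_lit 1) (.e (nat_lit 57851) (nat_lit 252) .nil)))))) (.g (nat_lit 4) .nil .nil)))) (.nd (nat_lit 5) 
(.lf (nat_lit 161174) (.g (nat_lit 1486) (.e (nat_lit 57445) (nat_lit 19) (.e (nat_lit 393225) (nat_lit 9) (.e (nat_lit 336195) (nat_lit 12) (.e (nat_lit 385066) (nat_lit 26) (.e (nat_lit 532502) (nat_lit 1) .nil))))) .nil)) 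
(.lf (nat_lit 161206) (.g (nat_lit 2881) (.e (nat_lit 57445) (nat_lit 19) (.e (nat_lit 393225) (nat_lit 9) (.e (nat_lit 336204) (nat_lit 12) (.e (nat_lit 385064) (nat_lit 26) (.e (nat_lit 532504) (nat_lit 1) (.e (nat_lit 57851) (nat_lit 252) .nil)))))) (.g (nat_lit 5) .nil .nil))))) (.nd (nat_lit 4) (.nd (nat_lit 5) 
(.lf (nat_lit 161166) (.g (nat_lit 3010) (.e (nat_lit 57445) (nat_lit 19) (.e (nat_lit 393225) (nat_lit 9) (.e (nat_lit 336194) (nat_lit 12) (.e (nat_lit 385066) (nat_lit 26) (.e (nat_lit 532499) (nat_lit 1) (.e (nat_lit 57849) (nat_lit 252) .nil)))))) (.g (nat_lit 6) .nil .nil))) 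
(.lf (nat_lit 161198) (.g (nat_lit 2856) (.e (nat_lit 57445) (nat_lit 19) (.e (nat_lit 393225) (nat_lit 9) (.e (nat_lit 336201) (nat_lit 12) (.e (nat_lit 385068) (nat_lit 26) (.e (nat_lit 532503) (nat_lit 1) (.e (nat_lit 57848) (nat_lit 252) .nil)))))) (.g (nat_lit 5) .nil .nil)))) (.nd (nat_lit 5) 
(.lf (nat_lit 161182) (.g (nat_lit 2544) (.e (nat_lit 57445) (nat_lit 19) (.e (nat_lit 393225) (nat_lit 9) (.e (nat_lit 336196) (nat_lit 12) (.e (nat_lit 385066) (nat_lit 26) (.e (nat_lit 532501) (nat_lit 1) (.e (nat_lit 57851) (nat_lit 252) .nil)))))) (.g (nat_lit 4) .nil .nil))) 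
(.lf (nat_lit 161214) (.g (nat_lit 3068) (.e (nat_lit 57445) (nat_lit 19) (.e (nat_lit 393225) (nat_lit 9) (.e (nat_lit 336204) (nat_lit 12) (.e (nat_lit 385066) (nat_lit 26) (.e (nat_lit 532503) (nat_lit 1) (.e (nat_lit 57849) (nat_lit 252) .nil)))))) (.g (nat_lit 6) .nil .nil)))))))) (.nd (nat_lit 1) (.nd (nat_lit 2) (.nd (nat_lit 3) (.nd (nat_lit 4) (.nd (nat_lit 5) 
(.lf (nat_lit 161153) (.g (nat_lit 416) (.e (nat_lit 57445) (nat_lit 19) (.e (nat_lit 393225) (nat_lit 9) (.e (nat_lit 336186) (nat_lit 11) .nil))) .nil)) 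
(.lf (nat_lit 161185) (.g (nat_lit 2457) (.e (nat_lit 57445) (nat_lit 19) (.e (nat_lit 393225) (nat_lit 9) (.e (nat_lit 336196) (nat_lit 12) (.e (nat_lit 385066) (nat_lit 26) (.e (nat_lit 532502) (nat_lit 1) (.e (nat_lit 57848) (nat_lit 252) .nil)))))) (.g (nat_lit 4) .nil .nil)))) (.nd (nat_lit 5) 
(.lf (nat_lit 161169) (.g (nat_lit 2503) (.e (nat_lit 57445) (nat_lit 19) (.e (nat_lit 393225) (nat_lit 9) (.e (nat_lit 336194) (nat_lit 12) (.e (nat_lit 385066) (nat_lit 26) (.e (nat_lit 532503) (nat_lit 1) (.e (nat_lit 57848) (nat_lit 252) .nil)))))) (.g (nat_lit 5) .nil .nil))) 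
(.lf (nat_lit 161201) (.g (nat_lit 1336) (.e (nat_lit 57445) (nat_lit 19) (.e (nat_lit 393225) (nat_lit 9) (.e (nat_lit 336204) (nat_lit 12) (.e (nat_lit 385057) (nat_lit 22) .nil)))) .nil)))) (.nd (nat_lit 4) (.nd (nat_lit 5) 
(.lf (nat_lit 161161) (.g (nat_lit 3695) (.e (nat_lit 57445) (nat_lit 19) (.e (nat_lit 393225) (nat_lit 9) (.e (nat_lit 336193) (nat_lit 12) (.e (nat_lit 385068) (nat_lit 26) (.e (nat_lit 532503) (nat_lit 1) (.e (nat_lit 57848) (nat_lit 252) .nil)))))) (.g (nat_lit 6) .nil .nil))) 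
(.lf (nat_lit 161193) (.g (nat_lit 3893) (.e (nat_lit 57445) (nat_lit 19) (.e (nat_lit 393225) (nat_lit 9) (.e (nat_lit 336196) (nat_lit 12) (.e (nat_lit 385068) (nat_lit 26) (.e (nat_lit 532503) (nat_lit 1) (.e (nat_lit 57848) (nat_lit 252) .nil)))))) (.g (nat_lit 6) .nil .nil)))) (.nd (nat_lit 5) 
(.lf (nat_lit 161177) (.g (nat_lit 2195) (.e (nat_lit 57445) (nat_lit 19) (.e (nat_lit 393225) (nat_lit 9) (.e (nat_lit 336196) (nat_lit 12) (.e (nat_lit 385064) (nat_lit 26) (.e (nat_lit 532503) (nat_lit 1) (.e (nat_lit 57844) (nat_lit 252) .nil)))))) (.g (nat_lit 4) .nil .nil))) 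
(.lf (nat_lit 161209) (.g (nat_lit 3256) (.e (nat_lit 57445) (nat_lit 19) (.e (nat_lit 393225) (nat_lit 9) (.e (nat_lit 336204) (nat_lit 12) (.e (nat_lit 385066) (nat_lit 26) (.e (nat_lit 532499) (nat_lit 1) (.e (nat_lit 57849) (nat_lit 252) .nil)))))) (.g (nat_lit 6) .nil .nil)))))) (.nd (nat_lit 3) (.nd (nat_lit 4) (.nd (nat_lit 5) 
(.lf (nat_lit 161157) (.g (nat_lit 2852) (.e (nat_lit 57445) (nat_lit 19) (.e (nat_lit 393225) (nat_lit 9) (.e (nat_lit 336193) (nat_lit 12) (.e (nat_lit 385068) (nat_lit 26) (.e (nat_lit 532501) (nat_lit 1) (.e (nat_lit 57851) (nat_lit 252) .nil)))))) (.g (nat_lit 4) .nil .nil))) 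
(.lf (nat_lit 161189) (.g (nat_lit 3287) (.e (nat_lit 57445) (nat_lit 19) (.e (nat_lit 393225) (nat_lit 9) (.e (nat_lit 336196) (nat_lit 12) (.e (nat_lit 385066) (nat_lit 26) (.e (nat_lit 532503) (nat_lit 1) (.e (nat_lit 57853) (nat_lit 252) .nil)))))) (.g (nat_lit 5) .nil .nil)))) (.nd (nat_lit 5) 
(.lf (nat_lit 161173) (.g (nat_lit 3280) (.e (nat_lit 57445) (nat_lit 19) (.e (nat_lit 393225) (nat_lit 9) (.e (nat_lit 336194) (nat_lit 12) (.e (nat_lit 385068) (nat_lit 26) (.e (nat_lit 532504) (nat_lit 1) (.e (nat_lit 57853) (nat_lit 252) .nil)))))) (.g (nat_lit 6) .nil .nil))) 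
(.lf (nat_lit 161205) (.g (nat_lit 3009) (.e (nat_lit 57445) (nat_lit 19) (.e (nat_lit 393225) (nat_lit 9) (.e (nat_lit 336204) (nat_lit 12) (.e (nat_lit 385064) (nat_lit 26) (.e (nat_lit 532503) (nat_lit 1) (.e (nat_lit 57848) (nat_lit 252) .nil)))))) (.g (nat_lit 6) .nil .nil))))) (.nd (nat_lit 4) (.nd (nat_lit 5) 
(.lf (nat_lit 161165) (.g (nat_lit 957) (.e (nat_lit 57445) (nat_lit 19) (.e (nat_lit 393225) (nat_lit 9) (.e (nat_lit 336194) (nat_lit 12) (.e (nat_lit 385066) (nat_lit 26) .nil)))) .nil)) 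
(.lf (nat_lit 161197) (.g (nat_lit 2138) (.e (nat_lit 57445) (nat_lit 19) (.e (nat_lit 393225) (nat_lit 9) (.e (nat_lit 336201) (nat_lit 12) (.e (nat_lit 385068) (nat_lit 26) (.e (nat_lit 532499) (nat_lit 1) (.e (nat_lit 57849) (nat_lit 252) .nil)))))) (.g (nat_lit 4) .nil .nil)))) (.nd (nat_lit 5) 
(.lf (nat_lit 161181) (.g (nat_lit 2380) (.e (nat_lit 57445) (nat_lit 19) (.e (nat_lit 393225) (nat_lit 9) (.e (nat_lit 336196) (nat_lit 12) (.e (nat_lit 385066) (nat_lit 26) (.e (nat_lit 532500) (nat_lit 1) (.e (nat_lit 57851) (nat_lit 252) .nil)))))) (.g (nat_lit 4) .nil .nil))) 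
(.lf (nat_lit 161213) (.g (nat_lit 2765) (.e (nat_lit 57445) (nat_lit 19) (.e (nat_lit 393225) (nat_lit 9) (.e (nat_lit 336204) (nat_lit 12) (.e (nat_lit 385066) (nat_lit 26) (.e (nat_lit 532503) (nat_lit 1) (.e (nat_lit 57848) (nat_lit 252) .nil)))))) (.g (nat_lit 5) .nil .nil))))))) (.nd (nat_lit 2) (.nd (nat_lit 3) (.nd (nat_lit 4) (.nd (nat_lit 5) 
(.lf (nat_lit 161155) (.g (nat_lit 2097) (.e (nat_lit 57445) (nat_lit 19) (.e (nat_lit 393225) (nat_lit 9) (.e (nat_lit 336188) (nat_lit 11) (.e (nat_lit 368676) (nat_lit 21) (.e (nat_lit 516118) (nat_lit 1) (.e (nat_lit 164179) (nat_lit 154) .nil)))))) (.g (nat_lit 4) .nil .nil))) 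
(.lf (nat_lit 161187) (.g (nat_lit 3218) (.e (nat_lit 57445) (nat_lit 19) (.e (nat_lit 393225) (nat_lit 9) (.e (nat_lit 336196) (nat_lit 12) (.e (nat_lit 385066) (nat_lit 26) (.e (nat_lit 532503) (nat_lit 1) (.e (nat_lit 57848) (nat_lit 252) .nil)))))) (.g (nat_lit 5) .nil .nil)))) (.nd (nat_lit 5) 
(.lf (nat_lit 161171) (.g (nat_lit 3065) (.e (nat_lit 57445) (nat_lit 19) (.e (nat_lit 393225) (nat_lit 9) (.e (nat_lit 336194) (nat_lit 12) (.e (nat_lit 385066) (nat_lit 26) (.e (nat_lit 532504) (nat_lit 1) (.e (nat_lit 57853) (nat_lit 252) .nil)))))) (.g (nat_lit 6) .nil .nil))) 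
(.lf (nat_lit 161203) (.g (nat_lit 2780) (.e (nat_lit 57445) (nat_lit 19) (.e (nat_lit 393225) (nat_lit 9) (.e (nat_lit 336204) (nat_lit 12) (.e (nat_lit 385064) (nat_lit 26) (.e (nat_lit 532500) (nat_lit 1) (.e (nat_lit 57851) (nat_lit 252) .nil)))))) (.g (nat_lit 5) .nil .nil))))) (.nd (nat_lit 4) (.nd (nat_lit 5) 
(.lf (nat_lit 161163) (.g (nat_lit 3698) (.e (nat_lit 57445) (nat_lit 19) (.e (nat_lit 393225) (nat_lit 9) (.e (nat_lit 336193) (nat_lit 12) (.e (nat_lit 385068) (nat_lit 26) (.e (nat_lit 532504) (nat_lit 1) (.e (nat_lit 57854) (nat_lit 252) .nil)))))) (.g (nat_lit 0) .nil .nil))) 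
(.lf (nat_lit 161195) (.g (nat_lit 3885) (.e (nat_lit 57445) (nat_lit 19) (.e (nat_lit 393225) (nat_lit 9) (.e (nat_lit 336196) (nat_lit 12) (.e (nat_lit 385068) (nat_lit 26) (.e (nat_lit 532504) (nat_lit 1) (.e (nat_lit 57854) (nat_lit 252) .nil)))))) (.g (nat_lit 0) .nil .nil)))) (.nd (nat_lit 5) 
(.lf (nat_lit 161179) (.g (nat_lit 3215) (.e (nat_lit 57445) (nat_lit 19) (.e (nat_lit 393225) (nat_lit 9) (.e (nat_lit 336196) (nat_lit 12) (.e (nat_lit 385066) (nat_lit 26) (.e (nat_lit 532499) (nat_lit 1) (.e (nat_lit 57849) (nat_lit 252) .nil)))))) (.g (nat_lit 6) .nil .nil))) 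
(.lf (nat_lit 161211) (.g (nat_lit 3324) (.e (nat_lit 57445) (nat_lit 19) (.e (nat_lit 393225) (nat_lit 9) (.e (nat_lit 336204) (nat_lit 12) (.e (nat_lit 385066) (nat_lit 26) (.e (nat_lit 532501) (nat_lit 1) (.e (nat_lit 57854) (nat_lit 252) .nil)))))) (.g (nat_lit 0) .nil .nil)))))) (.nd (nat_lit 3) (.nd (nat_lit 4) (.nd (nat_lit 5) 
(.lf (nat_lit 161159) (.g (nat_lit 3639) (.e (nat_lit 57445) (nat_lit 19) (.e (nat_lit 393225) (nat_lit 9) (.e (nat_lit 336193) (nat_lit 12) (.e (nat_lit 385068) (nat_lit 26) (.e (nat_lit 532501) (nat_lit 1) (.e (nat_lit 57854) (nat_lit 252) .nil)))))) (.g (nat_lit 6) .nil .nil))) 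
(.lf (nat_lit 161191) (.g (nat_lit 3412) (.e (nat_lit 57445) (nat_lit 19) (.e (nat_lit 393225) (nat_lit 9) (.e (nat_lit 336196) (nat_lit 12) (.e (nat_lit 385066) (nat_lit 26) (.e (nat_lit 532504) (nat_lit 1) (.e (nat_lit 57853) (nat_lit 252) .nil)))))) (.g (nat_lit 6) .nil .nil)))) (.nd (nat_lit 5) 
(.lf (nat_lit 161175) (.g (nat_lit 1662) (.e (nat_lit 57445) (nat_lit 19) (.e (nat_lit 393225) (nat_lit 9) (.e (nat_lit 336195) (nat_lit 12) (.e (nat_lit 385068) (nat_lit 26) (.e (nat_lit 532504) (nat_lit 1) .nil))))) .nil)) 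
(.lf (nat_lit 161207) (.g (nat_lit 1383) (.e (nat_lit 57445) (nat_lit 19) (.e (nat_lit 393225) (nat_lit 9) (.e (nat_lit 336204) (nat_lit 12) (.e (nat_lit 385065) (nat_lit 26) .nil)))) .nil)))) (.nd (nat_lit 4) (.nd (nat_lit 5) 
(.lf (nat_lit 161167) (.g (nat_lit 2190) (.e (nat_lit 57445) (nat_lit 19) (.e (nat_lit 393225) (nat_lit 9) (.e (nat_lit 336194) (nat_lit 12) (.e (nat_lit 385066) (nat_lit 26) (.e (nat_lit 532500) (nat_lit 1) (.e (nat_lit 57851) (nat_lit 252) .nil)))))) (.g (nat_lit 4) .nil .nil))) 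
(.lf (nat_lit 161199) (.g (nat_lit 736) (.e (nat_lit 57445) (nat_lit 19) (.e (nat_lit 393225) (nat_lit 9) (.e (nat_lit 336202) (nat_lit 12) .nil))) .nil))) (.nd (nat_lit 5) 
(.lf (nat_lit 161183) (.g (nat_lit 2392) (.e (nat_lit 57445) (nat_lit 19) (.e (nat_lit 393225) (nat_lit 9) (.e (nat_lit 336196) (nat_lit 12) (.e (nat_lit 385066) (nat_lit 26) (.e (nat_lit 532501) (nat_lit 1) (.e (nat_lit 57853) (nat_lit 252) .nil)))))) (.g (nat_lit 4) .nil .nil))) 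
(.lf (nat_lit 161215) (.g (nat_lit 3287) (.e (nat_lit 57445) (nat_lit 19) (.e (nat_lit 393225) (nat_lit 9) (.e (nat_lit 336204) (nat_lit 12) (.e (nat_lit 385066) (nat_lit 26) (.e (nat_lit 532504) (nat_lit 1) (.e (nat_lit 57853) (nat_lit 252) .nil)))))) (.g (nat_lit 6) .nil .nil)))))))))

noncomputable def tv2159 : DT := (.nd (nat_lit 0) (.nd (nat_lit 1) (.nd (nat_lit 2) (.nd (nat_lit 3) (.nd (nat_lit 4) (.nd (nat_lit 5) 
(.lf (nat_lit 161216) (.g (nat_lit 2742) (.e (nat_lit 57445) (nat_lit 19) (.e (nat_lit 393225) (nat_lit 9) (.e (nat_lit 336204) (nat_lit 12) (.e (nat_lit 385067) (nat_lit 26) (.e (nat_lit 532501) (nat_lit 1) (.e (nat_lit 57851) (nat_lit 252) .nil)))))) (.g (nat_lit 5) .nil .nil))) 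
(.lf (nat_lit 161248) (.g (nat_lit 2376) (.e (nat_lit 57445) (nat_lit 19) (.e (nat_lit 393227) (nat_lit 9) (.e (nat_lit 336153) (nat_lit 9) (.e (nat_lit 336323) (nat_lit 18) (.e (nat_lit 204831) (nat_lit 18) (.e (nat_lit 57846) (nat_lit 252) .nil)))))) (.g (nat_lit 0) .nil .nil)))) (.nd (nat_lit 5) 
(.lf (nat_lit 161232) (.g (nat_lit 2134) (.e (nat_lit 57445) (nat_lit 19) (.e (nat_lit 393227) (nat_lit 9) (.e (nat_lit 336121) (nat_lit 9) (.e (nat_lit 336323) (nat_lit 18) (.e (nat_lit 204831) (nat_lit 18) (.e (nat_lit 57847) (nat_lit 252) .nil)))))) (.g (nat_lit 0) .nil .nil))) 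
(.lf (nat_lit 161264) (.g (nat_lit 2610) (.e (nat_lit 57445) (nat_lit 19) (.e (nat_lit 393227) (nat_lit 9) (.e (nat_lit 336206) (nat_lit 12) (.e (nat_lit 385068) (nat_lit 26) (.e (nat_lit 532503) (nat_lit 1) (.e (nat_lit 57848) (nat_lit 252) .nil)))))) (.g (nat_lit 0) .nil .nil))))) (.nd (nat_lit 4) (.nd (nat_lit 5) 
(.lf (nat_lit 161224) (.g (nat_lit 1833) (.e (nat_lit 57445) (nat_lit 19) (.e (nat_lit 393227) (nat_lit 9) (.e (nat_lit 336118) (nat_lit 9) (.e (nat_lit 336323) (nat_lit 18) (.e (nat_lit 204831) (nat_lit 18) (.e (nat_lit 57848) (nat_lit 252) .nil)))))) (.g (nat_lit 0) .nil .nil))) 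
(.lf (nat_lit 161256) (.g (nat_lit 2201) (.e (nat_lit 57445) (nat_lit 19) (.e (nat_lit 393227) (nat_lit 9) (.e (nat_lit 336154) (nat_lit 9) (.e (nat_lit 336323) (nat_lit 18) (.e (nat_lit 204831) (nat_lit 18) (.e (nat_lit 57847) (nat_lit 252) .nil)))))) (.g (nat_lit 0) .nil .nil)))) (.nd (nat_lit 5) 
(.lf (nat_lit 161240) (.g (nat_lit 2161) (.e (nat_lit 57445) (nat_lit 19) (.e (nat_lit 393227) (nat_lit 9) (.e (nat_lit 336152) (nat_lit 9) (.e (nat_lit 336323) (nat_lit 18) (.e (nat_lit 204831) (nat_lit 18) (.e (nat_lit 57847) (nat_lit 252) .nil)))))) (.g (nat_lit 0) .nil .nil))) 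
(.lf (nat_lit 161272) (.g (nat_lit 623) (.e (nat_lit 57445) (nat_lit 19) (.e (nat_lit 393229) (nat_lit 9) (.e (nat_lit 335914) (nat_lit 0) .nil))) .nil))))) (.nd (nat_lit 3) (.nd (nat_lit 4) (.nd (nat_lit 5) 
(.lf (nat_lit 161220) (.g (nat_lit 2459) (.e (nat_lit 57445) (nat_lit 19) (.e (nat_lit 393227) (nat_lit 9) (.e (nat_lit 336118) (nat_lit 9) (.e (nat_lit 336323) (nat_lit 18) (.e (nat_lit 204829) (nat_lit 18) (.e (nat_lit 57847) (nat_lit 252) .nil)))))) (.g (nat_lit 0) .nil .nil))) 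
(.lf (nat_lit 161252) (.g (nat_lit 2793) (.e (nat_lit 57445) (nat_lit 19) (.e (nat_lit 393227) (nat_lit 9) (.e (nat_lit 336153) (nat_lit 9) (.e (nat_lit 336323) (nat_lit 18) (.e (nat_lit 204831) (nat_lit 18) (.e (nat_lit 57852) (nat_lit 252) .nil)))))) (.g (nat_lit 0) .nil .nil)))) (.nd (nat_lit 5) 
(.lf (nat_lit 161236) (.g (nat_lit 1743) (.e (nat_lit 57445) (nat_lit 19) (.e (nat_lit 393227) (nat_lit 9) (.e (nat_lit 336151) (nat_lit 9) (.e (nat_lit 336323) (nat_lit 18) (.e (nat_lit 204831) (nat_lit 18) (.e (nat_lit 57848) (nat_lit 252) .nil)))))) (.g (nat_lit 6) .nil .nil))) 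
(.lf (nat_lit 161268) (.g (nat_lit 2451) (.e (nat_lit 57445) (nat_lit 19) (.e (nat_lit 393228) (nat_lit 9) (.e (nat_lit 336088) (nat_lit 9) (.e (nat_lit 336324) (nat_lit 18) (.e (nat_lit 204831) (nat_lit 18) (.e (nat_lit 57852) (nat_lit 252) .nil)))))) (.g (nat_lit 4) .nil .nil))))) (.nd (nat_lit 4) (.nd (nat_lit 5) 
(.lf (nat_lit 161228) (.g (nat_lit 1860) (.e (nat_lit 57445) (nat_lit 19) (.e (nat_lit 393227) (nat_lit 9) (.e (nat_lit 336119) (nat_lit 9) (.e (nat_lit 336323) (nat_lit 18) (.e (nat_lit 204831) (nat_lit 18) (.e (nat_lit 57848) (nat_lit 252) .nil)))))) (.g (nat_lit 6) .nil .nil))) 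
(.lf (nat_lit 161260) (.g (nat_lit 3070) (.e (nat_lit 57445) (nat_lit 19) (.e (nat_lit 393227) (nat_lit 9) (.e (nat_lit 336206) (nat_lit 12) (.e (nat_lit 385068) (nat_lit 26) (.e (nat_lit 532499) (nat_lit 1) (.e (nat_lit 57847) (nat_lit 252) .nil)))))) (.g (nat_lit 0) .nil .nil)))) (.nd (nat_lit 5) 
(.lf (nat_lit 161244) (.g (nat_lit 2210) (.e (nat_lit 57445) (nat_lit 19) (.e (nat_lit 393227) (nat_lit 9) (.e (nat_lit 336152) (nat_lit 9) (.e (nat_lit 336323) (nat_lit 18) (.e (nat_lit 204831) (nat_lit 18) (.e (nat_lit 57854) (nat_lit 252) .nil)))))) (.g (nat_lit 0) .nil .nil))) 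
(.lf (nat_lit 161276) (.g (nat_lit 5062) (.e (nat_lit 57445) (nat_lit 19) (.e (nat_lit 393229) (nat_lit 9) (.e (nat_lit 336074) (nat_lit 9) (.e (nat_lit 336324) (nat_lit 18) (.e (nat_lit 204831) (nat_lit 18) (.e (nat_lit 57846) (nat_lit 252) .nil)))))) (.g (nat_lit 5) .nil .nil))))))) (.nd (nat_lit 2) (.nd (nat_lit 3) (.nd (nat_lit 4) (.nd (nat_lit 5) 
(.lf (nat_lit 161218) (.g (nat_lit 2885) (.e (nat_lit 57445) (nat_lit 19) (.e (nat_lit 393225) (nat_lit 9) (.e (nat_lit 336204) (nat_lit 12) (.e (nat_lit 385068) (nat_lit 26) (.e (nat_lit 532503) (nat_lit 1) (.e (nat_lit 57848) (nat_lit 252) .nil)))))) (.g (nat_lit 5) .nil .nil))) 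
(.lf (nat_lit 161250) (.g (nat_lit 2009) (.e (nat_lit 57445) (nat_lit 19) (.e (nat_lit 393227) (nat_lit 9) (.e (nat_lit 336153) (nat_lit 9) (.e (nat_lit 336323) (nat_lit 18) (.e (nat_lit 204831) (nat_lit 18) (.e (nat_lit 57848) (nat_lit 252) .nil)))))) (.g (nat_lit 0) .nil .nil)))) (.nd (nat_lit 5) 
(.lf (nat_lit 161234) (.g (nat_lit 1991) (.e (nat_lit 57445) (nat_lit 19) (.e (nat_lit 393227) (nat_lit 9) (.e (nat_lit 336121) (nat_lit 9) (.e (nat_lit 336323) (nat_lit 18) (.e (nat_lit 204831) (nat_lit 18) (.e (nat_lit 57849) (nat_lit 252) .nil)))))) (.g (nat_lit 0) .nil .nil))) 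
(.lf (nat_lit 161266) (.g (nat_lit 2685) (.e (nat_lit 57445) (nat_lit 19) (.e (nat_lit 393227) (nat_lit 9) (.e (nat_lit 336206) (nat_lit 12) (.e (nat_lit 385068) (nat_lit 26) (.e (nat_lit 532504) (nat_lit 1) (.e (nat_lit 57853) (nat_lit 252) .nil)))))) (.g (nat_lit 0) .nil .nil))))) (.nd (nat_lit 4) (.nd (nat_lit 5) 
(.lf (nat_lit 161226) (.g (nat_lit 2628) (.e (nat_lit 57445) (nat_lit 19) (.e (nat_lit 393227) (nat_lit 9) (.e (nat_lit 336118) (nat_lit 9) (.e (nat_lit 336323) (nat_lit 18) (.e (nat_lit 204831) (nat_lit 18) (.e (nat_lit 57852) (nat_lit 252) .nil)))))) (.g (nat_lit 0) .nil .nil))) 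
(.lf (nat_lit 161258) (.g (nat_lit 2057) (.e (nat_lit 57445) (nat_lit 19) (.e (nat_lit 393227) (nat_lit 9) (.e (nat_lit 336154) (nat_lit 9) (.e (nat_lit 336323) (nat_lit 18) (.e (nat_lit 204831) (nat_lit 18) (.e (nat_lit 57849) (nat_lit 252) .nil)))))) (.g (nat_lit 0) .nil .nil)))) (.nd (nat_lit 5) 
(.lf (nat_lit 161242) (.g (nat_lit 2015) (.e (nat_lit 57445) (nat_lit 19) (.e (nat_lit 393227) (nat_lit 9) (.e (nat_lit 336152) (nat_lit 9) (.e (nat_lit 336323) (nat_lit 18) (.e (nat_lit 204831) (nat_lit 18) (.e (nat_lit 57849) (nat_lit 252) .nil)))))) (.g (nat_lit 0) .nil .nil))) 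
(.lf (nat_lit 161274) (.g (nat_lit 505) (.e (nat_lit 57445) (nat_lit 19) (.e (nat_lit 393229) (nat_lit 9) (.e (nat_lit 336073) (nat_lit 9) .nil))) .nil))))) (.nd (nat_lit 3) (.nd (nat_lit 4) (.nd (nat_lit 5) 
(.lf (nat_lit 161222) (.g (nat_lit 2203) (.e (nat_lit 57445) (nat_lit 19) (.e (nat_lit 393227) (nat_lit 9) (.e (nat_lit 336118) (nat_lit 9) (.e (nat_lit 336323) (nat_lit 18) (.e (nat_lit 204831) (nat_lit 18) (.e (nat_lit 57846) (nat_lit 252) .nil)))))) (.g (nat_lit 0) .nil .nil))) 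
(.lf (nat_lit 161254) (.g (nat_lit 1992) (.e (nat_lit 57445) (nat_lit 19) (.e (nat_lit 393227) (nat_lit 9) (.e (nat_lit 336154) (nat_lit 9) (.e (nat_lit 336323) (nat_lit 18) (.e (nat_lit 204829) (nat_lit 18) (.e (nat_lit 57849) (nat_lit 252) .nil)))))) (.g (nat_lit 6) .nil .nil)))) (.nd (nat_lit 5) 
(.lf (nat_lit 161238) (.g (nat_lit 1716) (.e (nat_lit 57445) (nat_lit 19) (.e (nat_lit 393227) (nat_lit 9) (.e (nat_lit 336151) (nat_lit 9) (.e (nat_lit 336323) (nat_lit 18) (.e (nat_lit 204831) (nat_lit 18) (.e (nat_lit 57851) (nat_lit 252) .nil)))))) (.g (nat_lit 6) .nil .nil))) 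
(.lf (nat_lit 161270) (.g (nat_lit 656) (.e (nat_lit 57445) (nat_lit 19) (.e (nat_lit 393229) (nat_lit 9) (.e (nat_lit 335894) (nat_lit 0) .nil))) .nil)))) (.nd (nat_lit 4) (.nd (nat_lit 5) 
(.lf (nat_lit 161230) (.g (nat_lit 2091) (.e (nat_lit 57445) (nat_lit 19) (.e (nat_lit 393227) (nat_lit 9) (.e (nat_lit 336121) (nat_lit 9) (.e (nat_lit 336323) (nat_lit 18) (.e (nat_lit 204830) (nat_lit 18) (.e (nat_lit 57854) (nat_lit 252) .nil)))))) (.g (nat_lit 0) .nil .nil))) 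
(.lf (nat_lit 161262) (.g (nat_lit 2665) (.e (nat_lit 57445) (nat_lit 19) (.e (nat_lit 393227) (nat_lit 9) (.e (nat_lit 336206) (nat_lit 12) (.e (nat_lit 385068) (nat_lit 26) (.e (nat_lit 532501) (nat_lit 1) (.e (nat_lit 57854) (nat_lit 252) .nil)))))) (.g (nat_lit 0) .nil .nil)))) (.nd (nat_lit 5) 
(.lf (nat_lit 161246) (.g (nat_lit 2012) (.e (nat_lit 57445) (nat_lit 19) (.e (nat_lit 393227) (nat_lit 9) (.e (nat_lit 336153) (nat_lit 9) (.e (nat_lit 336323) (nat_lit 18) (.e (nat_lit 204830) (nat_lit 18) (.e (nat_lit 57851) (nat_lit 252) .nil)))))) (.g (nat_lit 6) .nil .nil))) 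
(.lf (nat_lit 161278) (.g (nat_lit 4673) (.e (nat_lit 57445) (nat_lit 19) (.e (nat_lit 393229) (nat_lit 9) (.e (nat_lit 336074) (nat_lit 9) (.e (nat_lit 336324) (nat_lit 18) (.e (nat_lit 204831) (nat_lit 18) (.e (nat_lit 57848) (nat_lit 252) .nil)))))) (.g (nat_lit 5) .nil .nil)))))))) (.nd (nat_lit 1) (.nd (nat_lit 2) (.nd (nat_lit 3) (.nd (nat_lit 4) (.nd (nat_lit 5) 
(.lf (nat_lit 161217) (.g (nat_lit 2874) (.e (nat_lit 57445) (nat_lit 19) (.e (nat_lit 393225) (nat_lit 9) (.e (nat_lit 336204) (nat_lit 12) (.e (nat_lit 385067) (nat_lit 26) (.e (nat_lit 532504) (nat_lit 1) (.e (nat_lit 57851) (nat_lit 252) .nil)))))) (.g (nat_lit 5) .nil .nil))) 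
(.lf (nat_lit 161249) (.g (nat_lit 2323) (.e (nat_lit 57445) (nat_lit 19) (.e (nat_lit 393227) (nat_lit 9) (.e (nat_lit 336153) (nat_lit 9) (.e (nat_lit 336323) (nat_lit 18) (.e (nat_lit 204831) (nat_lit 18) (.e (nat_lit 57847) (nat_lit 252) .nil)))))) (.g (nat_lit 0) .nil .nil)))) (.nd (nat_lit 5) 
(.lf (nat_lit 161233) (.g (nat_lit 1812) (.e (nat_lit 57445) (nat_lit 19) (.e (nat_lit 393227) (nat_lit 9) (.e (nat_lit 336121) (nat_lit 9) (.e (nat_lit 336323) (nat_lit 18) (.e (nat_lit 204831) (nat_lit 18) (.e (nat_lit 57848) (nat_lit 252) .nil)))))) (.g (nat_lit 0) .nil .nil))) 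
(.lf (nat_lit 161265) (.g (nat_lit 3056) (.e (nat_lit 57445) (nat_lit 19) (.e (nat_lit 393227) (nat_lit 9) (.e (nat_lit 336206) (nat_lit 12) (.e (nat_lit 385068) (nat_lit 26) (.e (nat_lit 532504) (nat_lit 1) (.e (nat_lit 57852) (nat_lit 252) .nil)))))) (.g (nat_lit 0) .nil .nil))))) (.nd (nat_lit 4) (.nd (nat_lit 5) 
(.lf (nat_lit 161225) (.g (nat_lit 2003) (.e (nat_lit 57445) (nat_lit 19) (.e (nat_lit 393227) (nat_lit 9) (.e (nat_lit 336118) (nat_lit 9) (.e (nat_lit 336323) (nat_lit 18) (.e (nat_lit 204831) (nat_lit 18) (.e (nat_lit 57849) (nat_lit 252) .nil)))))) (.g (nat_lit 0) .nil .nil))) 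
(.lf (nat_lit 161257) (.g (nat_lit 1882) (.e (nat_lit 57445) (nat_lit 19) (.e (nat_lit 393227) (nat_lit 9) (.e (nat_lit 336154) (nat_lit 9) (.e (nat_lit 336323) (nat_lit 18) (.e (nat_lit 204831) (nat_lit 18) (.e (nat_lit 57848) (nat_lit 252) .nil)))))) (.g (nat_lit 0) .nil .nil)))) (.nd (nat_lit 5) 
(.lf (nat_lit 161241) (.g (nat_lit 1846) (.e (nat_lit 57445) (nat_lit 19) (.e (nat_lit 393227) (nat_lit 9) (.e (nat_lit 336152) (nat_lit 9) (.e (nat_lit 336323) (nat_lit 18) (.e (nat_lit 204831) (nat_lit 18) (.e (nat_lit 57848) (nat_lit 252) .nil)))))) (.g (nat_lit 0) .nil .nil))) 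
(.lf (nat_lit 161273) (.g (nat_lit 633) (.e (nat_lit 57445) (nat_lit 19) (.e (nat_lit 393229) (nat_lit 9) (.e (nat_lit 336069) (nat_lit 8) .nil))) .nil))))) (.nd (nat_lit 3) (.nd (nat_lit 4) (.nd (nat_lit 5) 
(.lf (nat_lit 161221) (.g (nat_lit 2083) (.e (nat_lit 57445) (nat_lit 19) (.e (nat_lit 393227) (nat_lit 9) (.e (nat_lit 336118) (nat_lit 9) (.e (nat_lit 336323) (nat_lit 18) (.e (nat_lit 204830) (nat_lit 18) (.e (nat_lit 57854) (nat_lit 252) .nil)))))) (.g (nat_lit 0) .nil .nil))) 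
(.lf (nat_lit 161253) (.g (nat_lit 2343) (.e (nat_lit 57445) (nat_lit 19) (.e (nat_lit 393227) (nat_lit 9) (.e (nat_lit 336153) (nat_lit 9) (.e (nat_lit 336323) (nat_lit 18) (.e (nat_lit 204831) (nat_lit 18) (.e (nat_lit 57854) (nat_lit 252) .nil)))))) (.g (nat_lit 0) .nil .nil)))) (.nd (nat_lit 5) 
(.lf (nat_lit 161237) (.g (nat_lit 1915) (.e (nat_lit 57445) (nat_lit 19) (.e (nat_lit 393227) (nat_lit 9) (.e (nat_lit 336151) (nat_lit 9) (.e (nat_lit 336323) (nat_lit 18) (.e (nat_lit 204831) (nat_lit 18) (.e (nat_lit 57849) (nat_lit 252) .nil)))))) (.g (nat_lit 6) .nil .nil))) 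
(.lf (nat_lit 161269) (.g (nat_lit 760) (.e (nat_lit 57445) (nat_lit 19) (.e (nat_lit 393229) (nat_lit 9) (.e (nat_lit 335893) (nat_lit 0) .nil))) .nil)))) (.nd (nat_lit 4) (.nd (nat_lit 5) 
(.lf (nat_lit 161229) (.g (nat_lit 2467) (.e (nat_lit 57445) (nat_lit 19) (.e (nat_lit 393227) (nat_lit 9) (.e (nat_lit 336121) (nat_lit 9) (.e (nat_lit 336323) (nat_lit 18) (.e (nat_lit 204829) (nat_lit 18) (.e (nat_lit 57847) (nat_lit 252) .nil)))))) (.g (nat_lit 0) .nil .nil))) 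
(.lf (nat_lit 161261) (.g (nat_lit 2560) (.e (nat_lit 57445) (nat_lit 19) (.e (nat_lit 393227) (nat_lit 9) (.e (nat_lit 336206) (nat_lit 12) (.e (nat_lit 385068) (nat_lit 26) (.e (nat_lit 532501) (nat_lit 1) (.e (nat_lit 57851) (nat_lit 252) .nil)))))) (.g (nat_lit 6) .nil .nil)))) (.nd (nat_lit 5) 
(.lf (nat_lit 161245) (.g (nat_lit 2569) (.e (nat_lit 57445) (nat_lit 19) (.e (nat_lit 393227) (nat_lit 9) (.e (nat_lit 336153) (nat_lit 9) (.e (nat_lit 336323) (nat_lit 18) (.e (nat_lit 204829) (nat_lit 18) (.e (nat_lit 57847) (nat_lit 252) .nil)))))) (.g (nat_lit 0) .nil .nil))) 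
(.lf (nat_lit 161277) (.g (nat_lit 4992) (.e (nat_lit 57445) (nat_lit 19) (.e (nat_lit 393229) (nat_lit 9) (.e (nat_lit 336074) (nat_lit 9) (.e (nat_lit 336324) (nat_lit 18) (.e (nat_lit 204831) (nat_lit 18) (.e (nat_lit 57847) (nat_lit 252) .nil)))))) (.g (nat_lit 5) .nil .nil))))))) (.nd (nat_lit 2) (.nd (nat_lit 3) (.nd (nat_lit 4) (.nd (nat_lit 5) 
(.lf (nat_lit 161219) (.g (nat_lit 3411) (.e (nat_lit 57445) (nat_lit 19) (.e (nat_lit 393225) (nat_lit 9) (.e (nat_lit 336204) (nat_lit 12) (.e (nat_lit 385068) (nat_lit 26) (.e (nat_lit 532504) (nat_lit 1) (.e (nat_lit 57853) (nat_lit 252) .nil)))))) (.g (nat_lit 6) .nil .nil))) 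
(.lf (nat_lit 161251) (.g (nat_lit 2181) (.e (nat_lit 57445) (nat_lit 19) (.e (nat_lit 393227) (nat_lit 9) (.e (nat_lit 336153) (nat_lit 9) (.e (nat_lit 336323) (nat_lit 18) (.e (nat_lit 204831) (nat_lit 18) (.e (nat_lit 57849) (nat_lit 252) .nil)))))) (.g (nat_lit 0) .nil .nil)))) (.nd (nat_lit 5) 
(.lf (nat_lit 161235) (.g (nat_lit 2173) (.e (nat_lit 57445) (nat_lit 19) (.e (nat_lit 393227) (nat_lit 9) (.e (nat_lit 336121) (nat_lit 9) (.e (nat_lit 336323) (nat_lit 18) (.e (nat_lit 204831) (nat_lit 18) (.e (nat_lit 57854) (nat_lit 252) .nil)))))) (.g (nat_lit 0) .nil .nil))) 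
(.lf (nat_lit 161267) (.g (nat_lit 2646) (.e (nat_lit 57445) (nat_lit 19) (.e (nat_lit 393227) (nat_lit 9) (.e (nat_lit 336206) (nat_lit 12) (.e (nat_lit 385068) (nat_lit 26) (.e (nat_lit 532504) (nat_lit 1) (.e (nat_lit 57854) (nat_lit 252) .nil)))))) (.g (nat_lit 0) .nil .nil))))) (.nd (nat_lit 4) (.nd (nat_lit 5) 
(.lf (nat_lit 161227) (.g (nat_lit 2191) (.e (nat_lit 57445) (nat_lit 19) (.e (nat_lit 393227) (nat_lit 9) (.e (nat_lit 336118) (nat_lit 9) (.e (nat_lit 336323) (nat_lit 18) (.e (nat_lit 204831) (nat_lit 18) (.e (nat_lit 57854) (nat_lit 252) .nil)))))) (.g (nat_lit 0) .nil .nil))) 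
(.lf (nat_lit 161259) (.g (nat_lit 2240) (.e (nat_lit 57445) (nat_lit 19) (.e (nat_lit 393227) (nat_lit 9) (.e (nat_lit 336154) (nat_lit 9) (.e (nat_lit 336323) (nat_lit 18) (.e (nat_lit 204831) (nat_lit 18) (.e (nat_lit 57854) (nat_lit 252) .nil)))))) (.g (nat_lit 0) .nil .nil)))) (.nd (nat_lit 5) 
(.lf (nat_lit 161243) (.g (nat_lit 2638) (.e (nat_lit 57445) (nat_lit 19) (.e (nat_lit 393227) (nat_lit 9) (.e (nat_lit 336152) (nat_lit 9) (.e (nat_lit 336323) (nat_lit 18) (.e (nat_lit 204831) (nat_lit 18) (.e (nat_lit 57852) (nat_lit 252) .nil)))))) (.g (nat_lit 0) .nil .nil))) 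
(.lf (nat_lit 161275) (.g (nat_lit 3684) (.e (nat_lit 57445) (nat_lit 19) (.e (nat_lit 393229) (nat_lit 9) (.e (nat_lit 336073) (nat_lit 9) (.e (nat_lit 336324) (nat_lit 18) (.e (nat_lit 204831) (nat_lit 18) (.e (nat_lit 57851) (nat_lit 252) .nil)))))) (.g (nat_lit 4) .nil .nil)))))) (.nd (nat_lit 3) (.nd (nat_lit 4) (.nd (nat_lit 5) 
(.lf (nat_lit 161223) (.g (nat_lit 2150) (.e (nat_lit 57445) (nat_lit 19) (.e (nat_lit 393227) (nat_lit 9) (.e (nat_lit 336118) (nat_lit 9) (.e (nat_lit 336323) (nat_lit 18) (.e (nat_lit 204831) (nat_lit 18) (.e (nat_lit 57847) (nat_lit 252) .nil)))))) (.g (nat_lit 0) .nil .nil))) 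
(.lf (nat_lit 161255) (.g (nat_lit 2256) (.e (nat_lit 57445) (nat_lit 19) (.e (nat_lit 393227) (nat_lit 9) (.e (nat_lit 336154) (nat_lit 9) (.e (nat_lit 336323) (nat_lit 18) (.e (nat_lit 204831) (nat_lit 18) (.e (nat_lit 57846) (nat_lit 252) .nil)))))) (.g (nat_lit 0) .nil .nil)))) (.nd (nat_lit 5) 
(.lf (nat_lit 161239) (.g (nat_lit 2205) (.e (nat_lit 57445) (nat_lit 19) (.e (nat_lit 393227) (nat_lit 9) (.e (nat_lit 336152) (nat_lit 9) (.e (nat_lit 336323) (nat_lit 18) (.e (nat_lit 204831) (nat_lit 18) (.e (nat_lit 57846) (nat_lit 252) .nil)))))) (.g (nat_lit 0) .nil .nil))) 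
(.lf (nat_lit 161271) (.g (nat_lit 760) (.e (nat_lit 57445) (nat_lit 19) (.e (nat_lit 393229) (nat_lit 9) (.e (nat_lit 335895) (nat_lit 0) .nil))) .nil)))) (.nd (nat_lit 4) (.nd (nat_lit 5) 
(.lf (nat_lit 161231) (.g (nat_lit 2190) (.e (nat_lit 57445) (nat_lit 19) (.e (nat_lit 393227) (nat_lit 9) (.e (nat_lit 336121) (nat_lit 9) (.e (nat_lit 336323) (nat_lit 18) (.e (nat_lit 204831) (nat_lit 18) (.e (nat_lit 57846) (nat_lit 252) .nil)))))) (.g (nat_lit 0) .nil .nil))) 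
(.lf (nat_lit 161263) (.g (nat_lit 2710) (.e (nat_lit 57445) (nat_lit 19) (.e (nat_lit 393227) (nat_lit 9) (.e (nat_lit 336206) (nat_lit 12) (.e (nat_lit 385068) (nat_lit 26) (.e (nat_lit 532503) (nat_lit 1) (.e (nat_lit 57847) (nat_lit 252) .nil)))))) (.g (nat_lit 0) .nil .nil)))) (.nd (nat_lit 5) 
(.lf (nat_lit 161247) (.g (nat_lit 2175) (.e (nat_lit 57445) (nat_lit 19) (.e (nat_lit 393227) (nat_lit 9) (.e (nat_lit 336153) (nat_lit 9) (.e (nat_lit 336323) (nat_lit 18) (.e (nat_lit 204830) (nat_lit 18) (.e (nat_lit 57854) (nat_lit 252) .nil)))))) (.g (nat_lit 0) .nil .nil))) 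
(.lf (nat_lit 161279) (.g (nat_lit 4755) (.e (nat_lit 57445) (nat_lit 19) (.e (nat_lit 393229) (nat_lit 9) (.e (nat_lit 336074) (nat_lit 9) (.e (nat_lit 336324) (nat_lit 18) (.e (nat_lit 204831) (nat_lit 18) (.e (nat_lit 57849) (nat_lit 252) .nil)))))) (.g (nat_lit 5) .nil .nil)))))))))

noncomputable def tv2160 : DT := (.nd (nat_lit 0) (.nd (nat_lit 1) (.nd (nat_lit 2) (.nd (nat_lit 3) (.nd (nat_lit 4) (.nd (nat_lit 5) 
(.lf (nat_lit 161280) (.g (nat_lit 4575) (.e (nat_lit 57445) (nat_lit 19) (.e (nat_lit 393229) (nat_lit 9) (.e (nat_lit 336074) (nat_lit 9) (.e (nat_lit 336324) (nat_lit 18) (.e (nat_lit 204831) (nat_lit 18) (.e (nat_lit 57851) (nat_lit 252) .nil)))))) (.g (nat_lit 5) .nil .nil))) 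
(.lf (nat_lit 161312) (.g (nat_lit 3546) (.e (nat_lit 57445) (nat_lit 19) (.e (nat_lit 393229) (nat_lit 9) (.e (nat_lit 336076) (nat_lit 9) (.e (nat_lit 336326) (nat_lit 18) (.e (nat_lit 204831) (nat_lit 18) (.e (nat_lit 57852) (nat_lit 252) .nil)))))) (.g (nat_lit 6) .nil .nil)))) (.nd (nat_lit 5) 
(.lf (nat_lit 161296) (.g (nat_lit 3619) (.e (nat_lit 57445) (nat_lit 19) (.e (nat_lit 393229) (nat_lit 9) (.e (nat_lit 336076) (nat_lit 9) (.e (nat_lit 336324) (nat_lit 18) (.e (nat_lit 204829) (nat_lit 18) (.e (nat_lit 57854) (nat_lit 252) .nil)))))) (.g (nat_lit 0) .nil .nil))) 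
(.lf (nat_lit 161328) (.g (nat_lit 3637) (.e (nat_lit 57445) (nat_lit 19) (.e (nat_lit 393229) (nat_lit 9) (.e (nat_lit 336078) (nat_lit 9) (.e (nat_lit 336324) (nat_lit 18) (.e (nat_lit 204831) (nat_lit 18) (.e (nat_lit 57849) (nat_lit 252) .nil)))))) (.g (nat_lit 0) .nil .nil))))) (.nd (nat_lit 4) (.nd (nat_lit 5) 
(.lf (nat_lit 161288) (.g (nat_lit 5080) (.e (nat_lit 57445) (nat_lit 19) (.e (nat_lit 393229) (nat_lit 9) (.e (nat_lit 336075) (nat_lit 9) (.e (nat_lit 336324) (nat_lit 18) (.e (nat_lit 204831) (nat_lit 18) (.e (nat_lit 57849) (nat_lit 252) .nil)))))) (.g (nat_lit 5) .nil .nil))) 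
(.lf (nat_lit 161320) (.g (nat_lit 3397) (.e (nat_lit 57445) (nat_lit 19) (.e (nat_lit 393229) (nat_lit 9) (.e (nat_lit 336078) (nat_lit 9) (.e (nat_lit 336324) (nat_lit 18) (.e (nat_lit 204829) (nat_lit 18) (.e (nat_lit 57849) (nat_lit 252) .nil)))))) (.g (nat_lit 0) .nil .nil)))) (.nd (nat_lit 5) 
(.lf (nat_lit 161304) (.g (nat_lit 3961) (.e (nat_lit 57445) (nat_lit 19) (.e (nat_lit 393229) (nat_lit 9) (.e (nat_lit 336076) (nat_lit 9) (.e (nat_lit 336324) (nat_lit 18) (.e (nat_lit 204831) (nat_lit 18) (.e (nat_lit 57854) (nat_lit 252) .nil)))))) (.g (nat_lit 0) .nil .nil))) 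
(.lf (nat_lit 161336) (.g (nat_lit 2518) (.e (nat_lit 57445) (nat_lit 19) (.e (nat_lit 393229) (nat_lit 9) (.e (nat_lit 336078) (nat_lit 9) (.e (nat_lit 336326) (nat_lit 18) (.e (nat_lit 204831) (nat_lit 18) (.e (nat_lit 57849) (nat_lit 252) .nil)))))) (.g (nat_lit 4) .nil .nil)))))) (.nd (nat_lit 3) (.nd (nat_lit 4) (.nd (nat_lit 5) 
(.lf (nat_lit 161284) (.g (nat_lit 3177) (.e (nat_lit 57445) (nat_lit 19) (.e (nat_lit 393229) (nat_lit 9) (.e (nat_lit 336075) (nat_lit 9) (.e (nat_lit 336324) (nat_lit 18) (.e (nat_lit 204829) (nat_lit 18) (.e (nat_lit 57847) (nat_lit 252) .nil)))))) (.g (nat_lit 4) .nil .nil))) 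
(.lf (nat_lit 161316) (.g (nat_lit 4629) (.e (nat_lit 57445) (nat_lit 19) (.e (nat_lit 393229) (nat_lit 9) (.e (nat_lit 336077) (nat_lit 9) (.e (nat_lit 336324) (nat_lit 18) (.e (nat_lit 204831) (nat_lit 18) (.e (nat_lit 57848) (nat_lit 252) .nil)))))) (.g (nat_lit 5) .nil .nil)))) (.nd (nat_lit 5) 
(.lf (nat_lit 161300) (.g (nat_lit 3996) (.e (nat_lit 57445) (nat_lit 19) (.e (nat_lit 393229) (nat_lit 9) (.e (nat_lit 336076) (nat_lit 9) (.e (nat_lit 336324) (nat_lit 18) (.e (nat_lit 204831) (nat_lit 18) (.e (nat_lit 57846) (nat_lit 252) .nil)))))) (.g (nat_lit 0) .nil .nil))) 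
(.lf (nat_lit 161332) (.g (nat_lit 2492) (.e (nat_lit 57445) (nat_lit 19) (.e (nat_lit 393229) (nat_lit 9) (.e (nat_lit 336078) (nat_lit 9) (.e (nat_lit 336326) (nat_lit 18) (.e (nat_lit 204829) (nat_lit 18) (.e (nat_lit 57849) (nat_lit 252) .nil)))))) (.g (nat_lit 4) .nil .nil))))) (.nd (nat_lit 4) (.nd (nat_lit 5) 
(.lf (nat_lit 161292) (.g (nat_lit 3132) (.e (nat_lit 57445) (nat_lit 19) (.e (nat_lit 393229) (nat_lit 9) (.e (nat_lit 336076) (nat_lit 9) (.e (nat_lit 336316) (nat_lit 17) (.e (nat_lit 196630) (nat_lit 9) (.e (nat_lit 1183) (nat_lit 87) (.e (nat_lit 57848) (nat_lit 252) .nil))))))) (.g (nat_lit 5) .nil .nil))) 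
(.lf (nat_lit 161324) (.g (nat_lit 3472) (.e (nat_lit 57445) (nat_lit 19) (.e (nat_lit 393229) (nat_lit 9) (.e (nat_lit 336078) (nat_lit 9) (.e (nat_lit 336324) (nat_lit 18) (.e (nat_lit 204831) (nat_lit 18) (.e (nat_lit 57844) (nat_lit 252) .nil)))))) (.g (nat_lit 5) .nil .nil)))) (.nd (nat_lit 5) 
(.lf (nat_lit 161308) (.g (nat_lit 3552) (.e (nat_lit 57445) (nat_lit 19) (.e (nat_lit 393229) (nat_lit 9) (.e (nat_lit 336076) (nat_lit 9) (.e (nat_lit 336326) (nat_lit 18) (.e (nat_lit 204831) (nat_lit 18) (.e (nat_lit 57846) (nat_lit 252) .nil)))))) (.g (nat_lit 0) .nil .nil))) 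
(.lf (nat_lit 161340) (.g (nat_lit 4728) (.e (nat_lit 57445) (nat_lit 19) (.e (nat_lit 393229) (nat_lit 9) (.e (nat_lit 336084) (nat_lit 9) (.e (nat_lit 336324) (nat_lit 18) (.e (nat_lit 204831) (nat_lit 18) (.e (nat_lit 57846) (nat_lit 252) .nil)))))) (.g (nat_lit 5) .nil .nil))))))) (.nd (nat_lit 2) (.nd (nat_lit 3) (.nd (nat_lit 4) (.nd (nat_lit 5) 
(.lf (nat_lit 161282) (.g (nat_lit 5204) (.e (nat_lit 57445) (nat_lit 19) (.e (nat_lit 393229) (nat_lit 9) (.e (nat_lit 336074) (nat_lit 9) (.e (nat_lit 336324) (nat_lit 18) (.e (nat_lit 204831) (nat_lit 18) (.e (nat_lit 57853) (nat_lit 252) .nil)))))) (.g (nat_lit 5) .nil .nil))) 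
(.lf (nat_lit 161314) (.g (nat_lit 2291) (.e (nat_lit 57445) (nat_lit 19) (.e (nat_lit 393229) (nat_lit 9) (.e (nat_lit 336077) (nat_lit 9) (.e (nat_lit 336324) (nat_lit 18) (.e (nat_lit 204829) (nat_lit 18) (.e (nat_lit 57849) (nat_lit 252) .nil)))))) (.g (nat_lit 4) .nil .nil)))) (.nd (nat_lit 5) 
(.lf (nat_lit 161298) (.g (nat_lit 3818) (.e (nat_lit 57445) (nat_lit 19) (.e (nat_lit 393229) (nat_lit 9) (.e (nat_lit 336076) (nat_lit 9) (.e (nat_lit 336324) (nat_lit 18) (.e (nat_lit 204830) (nat_lit 18) (.e (nat_lit 57854) (nat_lit 252) .nil)))))) (.g (nat_lit 0) .nil .nil))) 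
(.lf (nat_lit 161330) (.g (nat_lit 1299) (.e (nat_lit 57445) (nat_lit 19) (.e (nat_lit 393229) (nat_lit 9) (.e (nat_lit 336078) (nat_lit 9) (.e (nat_lit 336326) (nat_lit 18) .nil)))) .nil)))) (.nd (nat_lit 4) (.nd (nat_lit 5) 
(.lf (nat_lit 161290) (.g (nat_lit 1361) (.e (nat_lit 57445) (nat_lit 19) (.e (nat_lit 393229) (nat_lit 9) (.e (nat_lit 336076) (nat_lit 9) (.e (nat_lit 336019) (nat_lit 3) .nil)))) .nil)) 
(.lf (nat_lit 161322) (.g (nat_lit 2114) (.e (nat_lit 57445) (nat_lit 19) (.e (nat_lit 393229) (nat_lit 9) (.e (nat_lit 336078) (nat_lit 9) (.e (nat_lit 336324) (nat_lit 18) (.e (nat_lit 204830) (nat_lit 18) (.e (nat_lit 57851) (nat_lit 252) .nil)))))) (.g (nat_lit 4) .nil .nil)))) (.nd (nat_lit 5) 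
(.lf (nat_lit 161306) (.g (nat_lit 3052) (.e (nat_lit 57445) (nat_lit 19) (.e (nat_lit 393229) (nat_lit 9) (.e (nat_lit 336076) (nat_lit 9) (.e (nat_lit 336326) (nat_lit 18) (.e (nat_lit 204829) (nat_lit 18) (.e (nat_lit 57849) (nat_lit 252) .nil)))))) (.g (nat_lit 6) .nil .nil))) 
(.lf (nat_lit 161338) (.g (nat_lit 2970) (.e (nat_lit 57445) (nat_lit 19) (.e (nat_lit 393229) (nat_lit 9) (.e (nat_lit 336078) (nat_lit 9) (.e (nat_lit 336326) (nat_lit 18) (.e (nat_lit 204831) (nat_lit 18) (.e (nat_lit 57853) (nat_lit 252) .nil)))))) (.g (nat_lit 4) .nil .nil)))))) (.nd (nat_lit 3) (.nd (nat_lit 4) (.nd (nat_lit 5) 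
(.lf (nat_lit 161286) (.g (nat_lit 3225) (.e (nat_lit 57445) (nat_lit 19) (.e (nat_lit 393229) (nat_lit 9) (.e (nat_lit 336075) (nat_lit 9) (.e (nat_lit 336324) (nat_lit 18) (.e (nat_lit 204830) (nat_lit 18) (.e (nat_lit 57854) (nat_lit 252) .nil)))))) (.g (nat_lit 4) .nil .nil))) 
(.lf (nat_lit 161318) (.g (nat_lit 1910) (.e (nat_lit 57445) (nat_lit 19) (.e (nat_lit 393229) (nat_lit 9) (.e (nat_lit 336078) (nat_lit 9) (.e (nat_lit 336322) (nat_lit 18) (.e (nat_lit 204830) (nat_lit 18) (.e (nat_lit 57854) (nat_lit 252) .nil)))))) (.g (nat_lit 4) .nil .nil)))) (.nd (nat_lit 5) 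
(.lf (nat_lit 161302) (.g (nat_lit 3630) (.e (nat_lit 57445) (nat_lit 19) (.e (nat_lit 393229) (nat_lit 9) (.e (nat_lit 336076) (nat_lit 9) (.e (nat_lit 336324) (nat_lit 18) (.e (nat_lit 204831) (nat_lit 18) (.e (nat_lit 57848) (nat_lit 252) .nil)))))) (.g (nat_lit 0) .nil .nil))) 
(.lf (nat_lit 161334) (.g (nat_lit 2973) (.e (nat_lit 57445) (nat_lit 19) (.e (nat_lit 393229) (nat_lit 9) (.e (nat_lit 336078) (nat_lit 9) (.e (nat_lit 336326) (nat_lit 18) (.e (nat_lit 204831) (nat_lit 18) (.e (nat_lit 57846) (nat_lit 252) .nil)))))) (.g (nat_lit 5) .nil .nil))))) (.nd (nat_lit 4) (.nd (nat_lit 5) 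
(.lf (nat_lit 161294) (.g (nat_lit 4056) (.e (nat_lit 57445) (nat_lit 19) (.e (nat_lit 393229) (nat_lit 9) (.e (nat_lit 336076) (nat_lit 9) (.e (nat_lit 336324) (nat_lit 18) (.e (nat_lit 204829) (nat_lit 18) (.e (nat_lit 57847) (nat_lit 252) .nil)))))) (.g (nat_lit 0) .nil .nil))) 
(.lf (nat_lit 161326) (.g (nat_lit 3861) (.e (nat_lit 57445) (nat_lit 19) (.e (nat_lit 393229) (nat_lit 9) (.e (nat_lit 336078) (nat_lit 9) (.e (nat_lit 336324) (nat_lit 18) (.e (nat_lit 204831) (nat_lit 18) (.e (nat_lit 57847) (nat_lit 252) .nil)))))) (.g (nat_lit 0) .nil .nil)))) (.nd (nat_lit 5) 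
(.lf (nat_lit 161310) (.g (nat_lit 3055) (.e (nat_lit 57445) (nat_lit 19) (.e (nat_lit 393229) (nat_lit 9) (.e (nat_lit 336076) (nat_lit 9) (.e (nat_lit 336326) (nat_lit 18) (.e (nat_lit 204831) (nat_lit 18) (.e (nat_lit 57848) (nat_lit 252) .nil)))))) (.g (nat_lit 6) .nil .nil))) 
(.lf (nat_lit 161342) (.g (nat_lit 4459) (.e (nat_lit 57445) (nat_lit 19) (.e (nat_lit 393229) (nat_lit 9) (.e (nat_lit 336084) (nat_lit 9) (.e (nat_lit 336324) (nat_lit 18) (.e (nat_lit 204831) (nat_lit 18) (.e (nat_lit 57849) (nat_lit 252) .nil)))))) (.g (nat_lit 5) .nil .nil)))))))) (.nd (nat_lit 1) (.nd (nat_lit 2) (.nd (nat_lit 3) (.nd (nat_lit 4) (.nd (nat_lit 5) 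
(.lf (nat_lit 161281) (.g (nat_lit 5443) (.e (nat_lit 57445) (nat_lit 19) (.e (nat_lit 393229) (nat_lit 9) (.e (nat_lit 336074) (nat_lit 9) (.e (nat_lit 336324) (nat_lit 18) (.e (nat_lit 204831) (nat_lit 18) (.e (nat_lit 57852) (nat_lit 252) .nil)))))) (.g (nat_lit 5) .nil .nil))) 
(.lf (nat_lit 161313) (.g (nat_lit 3504) (.e (nat_lit 57445) (nat_lit 19) (.e (nat_lit 393229) (nat_lit 9) (.e (nat_lit 336076) (nat_lit 9) (.e (nat_lit 336326) (nat_lit 18) (.e (nat_lit 204831) (nat_lit 18) (.e (nat_lit 57854) (nat_lit 252) .nil)))))) (.g (nat_lit 0) .nil .nil)))) (.nd (nat_lit 5) 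
(.lf (nat_lit 161297) (.g (nat_lit 3653) (.e (nat_lit 57445) (nat_lit 19) (.e (nat_lit 393229) (nat_lit 9) (.e (nat_lit 336076) (nat_lit 9) (.e (nat_lit 336324) (nat_lit 18) (.e (nat_lit 204830) (nat_lit 18) (.e (nat_lit 57853) (nat_lit 252) .nil)))))) (.g (nat_lit 6) .nil .nil))) 
(.lf (nat_lit 161329) (.g (nat_lit 3848) (.e (nat_lit 57445) (nat_lit 19) (.e (nat_lit 393229) (nat_lit 9) (.e (nat_lit 336078) (nat_lit 9) (.e (nat_lit 336324) (nat_lit 18) (.e (nat_lit 204831) (nat_lit 18) (.e (nat_lit 57854) (nat_lit 252) .nil)))))) (.g (nat_lit 0) .nil .nil))))) (.nd (nat_lit 4) (.nd (nat_lit 5) 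
(.lf (nat_lit 161289) (.g (nat_lit 4851) (.e (nat_lit 57445) (nat_lit 19) (.e (nat_lit 393229) (nat_lit 9) (.e (nat_lit 336075) (nat_lit 9) (.e (nat_lit 336324) (nat_lit 18) (.e (nat_lit 204831) (nat_lit 18) (.e (nat_lit 57851) (nat_lit 252) .nil)))))) (.g (nat_lit 5) .nil .nil))) 
(.lf (nat_lit 161321) (.g (nat_lit 3435) (.e (nat_lit 57445) (nat_lit 19) (.e (nat_lit 393229) (nat_lit 9) (.e (nat_lit 336078) (nat_lit 9) (.e (nat_lit 336324) (nat_lit 18) (.e (nat_lit 204829) (nat_lit 18) (.e (nat_lit 57854) (nat_lit 252) .nil)))))) (.g (nat_lit 0) .nil .nil)))) (.nd (nat_lit 5) 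
(.lf (nat_lit 161305) (.g (nat_lit 3888) (.e (nat_lit 57445) (nat_lit 19) (.e (nat_lit 393229) (nat_lit 9) (.e (nat_lit 336076) (nat_lit 9) (.e (nat_lit 336326) (nat_lit 18) (.e (nat_lit 204829) (nat_lit 18) (.e (nat_lit 57847) (nat_lit 252) .nil)))))) (.g (nat_lit 0) .nil .nil))) 
(.lf (nat_lit 161337) (.g (nat_lit 2965) (.e (nat_lit 57445) (nat_lit 19) (.e (nat_lit 393229) (nat_lit 9) (.e (nat_lit 336078) (nat_lit 9) (.e (nat_lit 336326) (nat_lit 18) (.e (nat_lit 204831) (nat_lit 18) (.e (nat_lit 57852) (nat_lit 252) .nil)))))) (.g (nat_lit 5) .nil .nil)))))) (.nd (nat_lit 3) (.nd (nat_lit 4) (.nd (nat_lit 5) 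
(.lf (nat_lit 161285) (.g (nat_lit 3043) (.e (nat_lit 57445) (nat_lit 19) (.e (nat_lit 393229) (nat_lit 9) (.e (nat_lit 336075) (nat_lit 9) (.e (nat_lit 336324) (nat_lit 18) (.e (nat_lit 204829) (nat_lit 18) (.e (nat_lit 57854) (nat_lit 252) .nil)))))) (.g (nat_lit 4) .nil .nil))) 
(.lf (nat_lit 161317) (.g (nat_lit 4319) (.e (nat_lit 57445) (nat_lit 19) (.e (nat_lit 393229) (nat_lit 9) (.e (nat_lit 336077) (nat_lit 9) (.e (nat_lit 336324) (nat_lit 18) (.e (nat_lit 204831) (nat_lit 18) (.e (nat_lit 57851) (nat_lit 252) .nil)))))) (.g (nat_lit 5) .nil .nil)))) (.nd (nat_lit 5) 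
(.lf (nat_lit 161301) (.g (nat_lit 3974) (.e (nat_lit 57445) (nat_lit 19) (.e (nat_lit 393229) (nat_lit 9) (.e (nat_lit 336076) (nat_lit 9) (.e (nat_lit 336324) (nat_lit 18) (.e (nat_lit 204831) (nat_lit 18) (.e (nat_lit 57847) (nat_lit 252) .nil)))))) (.g (nat_lit 0) .nil .nil))) 
(.lf (nat_lit 161333) (.g (nat_lit 3018) (.e (nat_lit 57445) (nat_lit 19) (.e (nat_lit 393229) (nat_lit 9) (.e (nat_lit 336078) (nat_lit 9) (.e (nat_lit 336326) (nat_lit 18) (.e (nat_lit 204830) (nat_lit 18) (.e (nat_lit 57854) (nat_lit 252) .nil)))))) (.g (nat_lit 5) .nil .nil))))) (.nd (nat_lit 4) (.nd (nat_lit 5) 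
(.lf (nat_lit 161293) (.g (nat_lit 1205) (.e (nat_lit 57445) (nat_lit 19) (.e (nat_lit 393229) (nat_lit 9) (.e (nat_lit 336076) (nat_lit 9) (.e (nat_lit 336322) (nat_lit 18) .nil)))) .nil)) 
(.lf (nat_lit 161325) (.g (nat_lit 3884) (.e (nat_lit 57445) (nat_lit 19) (.e (nat_lit 393229) (nat_lit 9) (.e (nat_lit 336078) (nat_lit 9) (.e (nat_lit 336324) (nat_lit 18) (.e (nat_lit 204831) (nat_lit 18) (.e (nat_lit 57846) (nat_lit 252) .nil)))))) (.g (nat_lit 0) .nil .nil)))) (.nd (nat_lit 5) 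
(.lf (nat_lit 161309) (.g (nat_lit 3566) (.e (nat_lit 57445) (nat_lit 19) (.e (nat_lit 393229) (nat_lit 9) (.e (nat_lit 336076) (nat_lit 9) (.e (nat_lit 336326) (nat_lit 18) (.e (nat_lit 204831) (nat_lit 18) (.e (nat_lit 57847) (nat_lit 252) .nil)))))) (.g (nat_lit 0) .nil .nil))) 
(.lf (nat_lit 161341) (.g (nat_lit 4673) (.e (nat_lit 57445) (nat_lit 19) (.e (nat_lit 393229) (nat_lit 9) (.e (nat_lit 336084) (nat_lit 9) (.e (nat_lit 336324) (nat_lit 18) (.e (nat_lit 204831) (nat_lit 18) (.e (nat_lit 57847) (nat_lit 252) .nil)))))) (.g (nat_lit 5) .nil .nil))))))) (.nd (nat_lit 2) (.nd (nat_lit 3) (.nd (nat_lit 4) (.nd (nat_lit 5) 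
(.lf (nat_lit 161283) (.g (nat_lit 5025) (.e (nat_lit 57445) (nat_lit 19) (.e (nat_lit 393229) (nat_lit 9) (.e (nat_lit 336074) (nat_lit 9) (.e (nat_lit 336324) (nat_lit 18) (.e (nat_lit 204831) (nat_lit 18) (.e (nat_lit 57854) (nat_lit 252) .nil)))))) (.g (nat_lit 5) .nil .nil))) 
(.lf (nat_lit 161315) (.g (nat_lit 4566) (.e (nat_lit 57445) (nat_lit 19) (.e (nat_lit 393229) (nat_lit 9) (.e (nat_lit 336077) (nat_lit 9) (.e (nat_lit 336324) (nat_lit 18) (.e (nat_lit 204831) (nat_lit 18) (.e (nat_lit 57844) (nat_lit 252) .nil)))))) (.g (nat_lit 5) .nil .nil)))) (.nd (nat_lit 5) 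
(.lf (nat_lit 161299) (.g (nat_lit 2359) (.e (nat_lit 57445) (nat_lit 19) (.e (nat_lit 393229) (nat_lit 9) (.e (nat_lit 336076) (nat_lit 9) (.e (nat_lit 336324) (nat_lit 18) (.e (nat_lit 204831) (nat_lit 18) (.e (nat_lit 57844) (nat_lit 252) .nil)))))) (.g (nat_lit 4) .nil .nil))) 
(.lf (nat_lit 161331) (.g (nat_lit 3341) (.e (nat_lit 57445) (nat_lit 19) (.e (nat_lit 393229) (nat_lit 9) (.e (nat_lit 336078) (nat_lit 9) (.e (nat_lit 336326) (nat_lit 18) (.e (nat_lit 204829) (nat_lit 18) (.e (nat_lit 57847) (nat_lit 252) .nil)))))) (.g (nat_lit 5) .nil .nil))))) (.nd (nat_lit 4) (.nd (nat_lit 5) 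
(.lf (nat_lit 161291) (.g (nat_lit 1006) (.e (nat_lit 57445) (nat_lit 19) (.e (nat_lit 393229) (nat_lit 9) (.e (nat_lit 336076) (nat_lit 9) (.e (nat_lit 336316) (nat_lit 17) .nil)))) .nil)) 
(.lf (nat_lit 161323) (.g (nat_lit 3659) (.e (nat_lit 57445) (nat_lit 19) (.e (nat_lit 393229) (nat_lit 9) (.e (nat_lit 336078) (nat_lit 9) (.e (nat_lit 336324) (nat_lit 18) (.e (nat_lit 204830) (nat_lit 18) (.e (nat_lit 57854) (nat_lit 252) .nil)))))) (.g (nat_lit 0) .nil .nil)))) (.nd (nat_lit 5) 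
(.lf (nat_lit 161307) (.g (nat_lit 3567) (.e (nat_lit 57445) (nat_lit 19) (.e (nat_lit 393229) (nat_lit 9) (.e (nat_lit 336076) (nat_lit 9) (.e (nat_lit 336326) (nat_lit 18) (.e (nat_lit 204830) (nat_lit 18) (.e (nat_lit 57854) (nat_lit 252) .nil)))))) (.g (nat_lit 0) .nil .nil))) 
(.lf (nat_lit 161339) (.g (nat_lit 2939) (.e (nat_lit 57445) (nat_lit 19) (.e (nat_lit 393229) (nat_lit 9) (.e (nat_lit 336078) (nat_lit 9) (.e (nat_lit 336326) (nat_lit 18) (.e (nat_lit 204831) (nat_lit 18) (.e (nat_lit 57854) (nat_lit 252) .nil)))))) (.g (nat_lit 5) .nil .nil)))))) (.nd (nat_lit 3) (.nd (nat_lit 4) (.nd (nat_lit 5) 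
(.lf (nat_lit 161287) (.g (nat_lit 4937) (.e (nat_lit 57445) (nat_lit 19) (.e (nat_lit 393229) (nat_lit 9) (.e (nat_lit 336075) (nat_lit 9) (.e (nat_lit 336324) (nat_lit 18) (.e (nat_lit 204831) (nat_lit 18) (.e (nat_lit 57848) (nat_lit 252) .nil)))))) (.g (nat_lit 5) .nil .nil))) 
(.lf (nat_lit 161319) (.g (nat_lit 3866) (.e (nat_lit 57445) (nat_lit 19) (.e (nat_lit 393229) (nat_lit 9) (.e (nat_lit 336078) (nat_lit 9) (.e (nat_lit 336324) (nat_lit 18) (.e (nat_lit 204829) (nat_lit 18) (.e (nat_lit 57847) (nat_lit 252) .nil)))))) (.g (nat_lit 0) .nil .nil)))) (.nd (nat_lit 5) 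
(.lf (nat_lit 161303) (.g (nat_lit 3755) (.e (nat_lit 57445) (nat_lit 19) (.e (nat_lit 393229) (nat_lit 9) (.e (nat_lit 336076) (nat_lit 9) (.e (nat_lit 336324) (nat_lit 18) (.e (nat_lit 204831) (nat_lit 18) (.e (nat_lit 57849) (nat_lit 252) .nil)))))) (.g (nat_lit 0) .nil .nil))) 
(.lf (nat_lit 161335) (.g (nat_lit 2991) (.e (nat_lit 57445) (nat_lit 19) (.e (nat_lit 393229) (nat_lit 9) (.e (nat_lit 336078) (nat_lit 9) (.e (nat_lit 336326) (nat_lit 18) (.e (nat_lit 204831) (nat_lit 18) (.e (nat_lit 57847) (nat_lit 252) .nil)))))) (.g (nat_lit 5) .nil .nil))))) (.nd (nat_lit 4) (.nd (nat_lit 5) 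
(.lf (nat_lit 161295) (.g (nat_lit 3586) (.e (nat_lit 57445) (nat_lit 19) (.e (nat_lit 393229) (nat_lit 9) (.e (nat_lit 336076) (nat_lit 9) (.e (nat_lit 336324) (nat_lit 18) (.e (nat_lit 204829) (nat_lit 18) (.e (nat_lit 57849) (nat_lit 252) .nil)))))) (.g (nat_lit 0) .nil .nil))) 
(.lf (nat_lit 161327) (.g (nat_lit 3519) (.e (nat_lit 57445) (nat_lit 19) (.e (nat_lit 393229) (nat_lit 9) (.e (nat_lit 336078) (nat_lit 9) (.e (nat_lit 336324) (nat_lit 18) (.e (nat_lit 204831) (nat_lit 18) (.e (nat_lit 57848) (nat_lit 252) .nil)))))) (.g (nat_lit 0) .nil .nil)))) (.nd (nat_lit 5) 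
(.lf (nat_lit 161311) (.g (nat_lit 3093) (.e (nat_lit 57445) (nat_lit 19) (.e (nat_lit 393229) (nat_lit 9) (.e (nat_lit 336076) (nat_lit 9) (.e (nat_lit 336326) (nat_lit 18) (.e (nat_lit 204831) (nat_lit 18) (.e (nat_lit 57849) (nat_lit 252) .nil)))))) (.g (nat_lit 6) .nil .nil))) 
(.lf (nat_lit 161343) (.g (nat_lit 5052) (.e (nat_lit 57445) (nat_lit 19) (.e (nat_lit 393229) (nat_lit 9) (.e (nat_lit 336084) (nat_lit 9) (.e (nat_lit 336324) (nat_lit 18) (.e (nat_lit 204831) (nat_lit 18) (.e (nat_lit 57852) (nat_lit 252) .nil)))))) (.g (nat_lit 5) .nil .nil)))))))))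

noncomputable def tv2161 : DT := (.nd (nat_lit 0) (.nd (nat_lit 1) (.nd (nat_lit 2) (.nd (nat_lit 3) (.nd (nat_lit 4) (.nd (nat_lit 5) 
(.lf (nat_lit 161344) (.g (nat_lit 4861) (.e (nat_lit 57445) (nat_lit 19) (.e (nat_lit 393229) (nat_lit 9) (.e (nat_lit 336084) (nat_lit 9) (.e (nat_lit 336324) (nat_lit 18) (.e (nat_lit 204831) (nat_lit 18) (.e (nat_lit 57853) (nat_lit 252) .nil)))))) (.g (nat_lit 5) .nil .nil))) 
(.lf (nat_lit 161376) (.g (nat_lit 1296) (.e (nat_lit 57445) (nat_lit 19) (.e (nat_lit 393229) (nat_lit 9) (.e (nat_lit 336086) (nat_lit 9) (.e (nat_lit 336316) (nat_lit 17) .nil)))) .nil))) (.nd (nat_lit 5) 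
(.lf (nat_lit 161360) (.g (nat_lit 3632) (.e (nat_lit 57445) (nat_lit 19) (.e (nat_lit 393229) (nat_lit 9) (.e (nat_lit 336085) (nat_lit 9) (.e (nat_lit 336324) (nat_lit 18) (.e (nat_lit 204831) (nat_lit 18) (.e (nat_lit 57854) (nat_lit 252) .nil)))))) (.g (nat_lit 6) .nil .nil))) 
(.lf (nat_lit 161392) (.g (nat_lit 3413) (.e (nat_lit 57445) (nat_lit 19) (.e (nat_lit 393229) (nat_lit 9) (.e (nat_lit 336086) (nat_lit 9) (.e (nat_lit 336325) (nat_lit 18) (.e (nat_lit 204829) (nat_lit 18) (.e (nat_lit 57847) (nat_lit 252) .nil)))))) (.g (nat_lit 0) .nil .nil))))) (.nd (nat_lit 4) (.nd (nat_lit 5) 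
(.lf (nat_lit 161352) (.g (nat_lit 3860) (.e (nat_lit 57445) (nat_lit 19) (.e (nat_lit 393229) (nat_lit 9) (.e (nat_lit 336085) (nat_lit 9) (.e (nat_lit 336324) (nat_lit 18) (.e (nat_lit 204829) (nat_lit 18) (.e (nat_lit 57847) (nat_lit 252) .nil)))))) (.g (nat_lit 0) .nil .nil))) 
(.lf (nat_lit 161384) (.g (nat_lit 3298) (.e (nat_lit 57445) (nat_lit 19) (.e (nat_lit 393229) (nat_lit 9) (.e (nat_lit 336086) (nat_lit 9) (.e (nat_lit 336324) (nat_lit 18) (.e (nat_lit 204829) (nat_lit 18) (.e (nat_lit 57854) (nat_lit 252) .nil)))))) (.g (nat_lit 0) .nil .nil)))) (.nd (nat_lit 5) 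
(.lf (nat_lit 161368) (.g (nat_lit 3015) (.e (nat_lit 57445) (nat_lit 19) (.e (nat_lit 393229) (nat_lit 9) (.e (nat_lit 336086) (nat_lit 9) (.e (nat_lit 336019) (nat_lit 3) (.e (nat_lit 98335) (nat_lit 18) (.e (nat_lit 164179) (nat_lit 154) .nil)))))) (.g (nat_lit 4) .nil .nil))) 
(.lf (nat_lit 161400) (.g (nat_lit 361) (.e (nat_lit 57445) (nat_lit 19) (.e (nat_lit 393229) (nat_lit 9) (.e (nat_lit 336087) (nat_lit 9) .nil))) .nil))))) (.nd (nat_lit 3) (.nd (nat_lit 4) (.nd (nat_lit 5) 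
(.lf (nat_lit 161348) (.g (nat_lit 2688) (.e (nat_lit 57445) (nat_lit 19) (.e (nat_lit 393229) (nat_lit 9) (.e (nat_lit 336085) (nat_lit 9) (.e (nat_lit 336019) (nat_lit 3) (.e (nat_lit 98335) (nat_lit 18) (.e (nat_lit 164177) (nat_lit 154) .nil)))))) (.g (nat_lit 4) .nil .nil))) 
(.lf (nat_lit 161380) (.g (nat_lit 1847) (.e (nat_lit 57445) (nat_lit 19) (.e (nat_lit 393229) (nat_lit 9) (.e (nat_lit 336086) (nat_lit 9) (.e (nat_lit 336324) (nat_lit 18) (.e (nat_lit 204828) (nat_lit 18) .nil))))) .nil))) (.nd (nat_lit 5) 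
(.lf (nat_lit 161364) (.g (nat_lit 309) (.e (nat_lit 57445) (nat_lit 19) (.e (nat_lit 393229) (nat_lit 9) (.e (nat_lit 336086) (nat_lit 9) .nil))) .nil)) 
(.lf (nat_lit 161396) (.g (nat_lit 3309) (.e (nat_lit 57445) (nat_lit 19) (.e (nat_lit 393229) (nat_lit 9) (.e (nat_lit 336086) (nat_lit 9) (.e (nat_lit 336326) (nat_lit 18) (.e (nat_lit 204830) (nat_lit 18) (.e (nat_lit 57854) (nat_lit 252) .nil)))))) (.g (nat_lit 0) .nil .nil))))) (.nd (nat_lit 4) (.nd (nat_lit 5) 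
(.lf (nat_lit 161356) (.g (nat_lit 7812) (.e (nat_lit 57445) (nat_lit 19) (.e (nat_lit 393229) (nat_lit 9) (.e (nat_lit 336085) (nat_lit 9) (.e (nat_lit 336324) (nat_lit 18) (.e (nat_lit 204831) (nat_lit 18) (.e (nat_lit 57844) (nat_lit 252) .nil)))))) (.g (nat_lit 5) .nil .nil))) 
(.lf (nat_lit 161388) (.g (nat_lit 3667) (.e (nat_lit 57445) (nat_lit 19) (.e (nat_lit 393229) (nat_lit 9) (.e (nat_lit 336086) (nat_lit 9) (.e (nat_lit 336324) (nat_lit 18) (.e (nat_lit 204831) (nat_lit 18) (.e (nat_lit 57847) (nat_lit 252) .nil)))))) (.g (nat_lit 0) .nil .nil)))) (.nd (nat_lit 5) 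
(.lf (nat_lit 161372) (.g (nat_lit 1684) (.e (nat_lit 57445) (nat_lit 19) (.e (nat_lit 393229) (nat_lit 9) (.e (nat_lit 336086) (nat_lit 9) (.e (nat_lit 336266) (nat_lit 15) (.e (nat_lit 3253) (nat_lit 197) .nil))))) .nil)) 
(.lf (nat_lit 161404) (.g (nat_lit 6042) (.e (nat_lit 57445) (nat_lit 19) (.e (nat_lit 393229) (nat_lit 9) (.e (nat_lit 336087) (nat_lit 9) (.e (nat_lit 336324) (nat_lit 18) (.e (nat_lit 204831) (nat_lit 18) (.e (nat_lit 57844) (nat_lit 252) .nil)))))) (.g (nat_lit 5) .nil .nil))))))) (.nd (nat_lit 2) (.nd (nat_lit 3) (.nd (nat_lit 4) (.nd (nat_lit 5) 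
(.lf (nat_lit 161346) (.g (nat_lit 3395) (.e (nat_lit 57445) (nat_lit 19) (.e (nat_lit 393229) (nat_lit 9) (.e (nat_lit 336085) (nat_lit 9) (.e (nat_lit 336019) (nat_lit 3) (.e (nat_lit 98333) (nat_lit 18) (.e (nat_lit 164177) (nat_lit 154) .nil)))))) (.g (nat_lit 5) .nil .nil))) 
(.lf (nat_lit 161378) (.g (nat_lit 2608) (.e (nat_lit 57445) (nat_lit 19) (.e (nat_lit 393229) (nat_lit 9) (.e (nat_lit 336086) (nat_lit 9) (.e (nat_lit 336322) (nat_lit 18) (.e (nat_lit 204829) (nat_lit 18) (.e (nat_lit 57849) (nat_lit 252) .nil)))))) (.g (nat_lit 6) .nil .nil)))) (.nd (nat_lit 5) 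
(.lf (nat_lit 161362) (.g (nat_lit 3477) (.e (nat_lit 57445) (nat_lit 19) (.e (nat_lit 393229) (nat_lit 9) (.e (nat_lit 336085) (nat_lit 9) (.e (nat_lit 336326) (nat_lit 18) (.e (nat_lit 204830) (nat_lit 18) (.e (nat_lit 57854) (nat_lit 252) .nil)))))) (.g (nat_lit 0) .nil .nil))) 
(.lf (nat_lit 161394) (.g (nat_lit 3275) (.e (nat_lit 57445) (nat_lit 19) (.e (nat_lit 393229) (nat_lit 9) (.e (nat_lit 336086) (nat_lit 9) (.e (nat_lit 336325) (nat_lit 18) (.e (nat_lit 204830) (nat_lit 18) (.e (nat_lit 57854) (nat_lit 252) .nil)))))) (.g (nat_lit 0) .nil .nil))))) (.nd (nat_lit 4) (.nd (nat_lit 5) 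
(.lf (nat_lit 161354) (.g (nat_lit 3408) (.e (nat_lit 57445) (nat_lit 19) (.e (nat_lit 393229) (nat_lit 9) (.e (nat_lit 336085) (nat_lit 9) (.e (nat_lit 336324) (nat_lit 18) (.e (nat_lit 204829) (nat_lit 18) (.e (nat_lit 57854) (nat_lit 252) .nil)))))) (.g (nat_lit 6) .nil .nil))) 
(.lf (nat_lit 161386) (.g (nat_lit 3427) (.e (nat_lit 57445) (nat_lit 19) (.e (nat_lit 393229) (nat_lit 9) (.e (nat_lit 336086) (nat_lit 9) (.e (nat_lit 336324) (nat_lit 18) (.e (nat_lit 204830) (nat_lit 18) (.e (nat_lit 57854) (nat_lit 252) .nil)))))) (.g (nat_lit 0) .nil .nil)))) (.nd (nat_lit 5) 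
(.lf (nat_lit 161370) (.g (nat_lit 1223) (.e (nat_lit 57445) (nat_lit 19) (.e (nat_lit 393229) (nat_lit 9) (.e (nat_lit 336086) (nat_lit 9) (.e (nat_lit 336260) (nat_lit 15) .nil)))) .nil)) 
(.lf (nat_lit 161402) (.g (nat_lit 2675) (.e (nat_lit 57445) (nat_lit 19) (.e (nat_lit 393229) (nat_lit 9) (.e (nat_lit 336087) (nat_lit 9) (.e (nat_lit 336019) (nat_lit 3) (.e (nat_lit 98333) (nat_lit 18) (.e (nat_lit 164178) (nat_lit 154) .nil)))))) (.g (nat_lit 5) .nil .nil)))))) (.nd (nat_lit 3) (.nd (nat_lit 4) (.nd (nat_lit 5) 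
(.lf (nat_lit 161350) (.g (nat_lit 3565) (.e (nat_lit 57445) (nat_lit 19) (.e (nat_lit 393229) (nat_lit 9) (.e (nat_lit 336085) (nat_lit 9) (.e (nat_lit 336322) (nat_lit 18) (.e (nat_lit 204829) (nat_lit 18) (.e (nat_lit 57847) (nat_lit 252) .nil)))))) (.g (nat_lit 0) .nil .nil))) 
(.lf (nat_lit 161382) (.g (nat_lit 3157) (.e (nat_lit 57445) (nat_lit 19) (.e (nat_lit 393229) (nat_lit 9) (.e (nat_lit 336086) (nat_lit 9) (.e (nat_lit 336324) (nat_lit 18) (.e (nat_lit 204829) (nat_lit 18) (.e (nat_lit 57849) (nat_lit 252) .nil)))))) (.g (nat_lit 0) .nil .nil)))) (.nd (nat_lit 5) 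
(.lf (nat_lit 161366) (.g (nat_lit 2382) (.e (nat_lit 57445) (nat_lit 19) (.e (nat_lit 393229) (nat_lit 9) (.e (nat_lit 336086) (nat_lit 9) (.e (nat_lit 336019) (nat_lit 3) (.e (nat_lit 98335) (nat_lit 18) (.e (nat_lit 164177) (nat_lit 154) .nil)))))) (.g (nat_lit 4) .nil .nil))) 
(.lf (nat_lit 161398) (.g (nat_lit 2471) (.e (nat_lit 57445) (nat_lit 19) (.e (nat_lit 393229) (nat_lit 9) (.e (nat_lit 336086) (nat_lit 9) (.e (nat_lit 336326) (nat_lit 18) (.e (nat_lit 204831) (nat_lit 18) (.e (nat_lit 57853) (nat_lit 252) .nil)))))) (.g (nat_lit 4) .nil .nil))))) (.nd (nat_lit 4) (.nd (nat_lit 5) 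
(.lf (nat_lit 161358) (.g (nat_lit 3039) (.e (nat_lit 57445) (nat_lit 19) (.e (nat_lit 393229) (nat_lit 9) (.e (nat_lit 336085) (nat_lit 9) (.e (nat_lit 336324) (nat_lit 18) (.e (nat_lit 204831) (nat_lit 18) (.e (nat_lit 57848) (nat_lit 252) .nil)))))) (.g (nat_lit 5) .nil .nil))) 
(.lf (nat_lit 161390) (.g (nat_lit 3441) (.e (nat_lit 57445) (nat_lit 19) (.e (nat_lit 393229) (nat_lit 9) (.e (nat_lit 336086) (nat_lit 9) (.e (nat_lit 336324) (nat_lit 18) (.e (nat_lit 204831) (nat_lit 18) (.e (nat_lit 57849) (nat_lit 252) .nil)))))) (.g (nat_lit 0) .nil .nil)))) (.nd (nat_lit 5) 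
(.lf (nat_lit 161374) (.g (nat_lit 1673) (.e (nat_lit 57445) (nat_lit 19) (.e (nat_lit 393229) (nat_lit 9) (.e (nat_lit 336086) (nat_lit 9) (.e (nat_lit 336302) (nat_lit 15) (.e (nat_lit 3234) (nat_lit 197) .nil))))) .nil)) 
(.lf (nat_lit 161406) (.g (nat_lit 5013) (.e (nat_lit 57445) (nat_lit 19) (.e (nat_lit 393229) (nat_lit 9) (.e (nat_lit 336087) (nat_lit 9) (.e (nat_lit 336324) (nat_lit 18) (.e (nat_lit 204831) (nat_lit 18) (.e (nat_lit 57847) (nat_lit 252) .nil)))))) (.g (nat_lit 5) .nil .nil)))))))) (.nd (nat_lit 1) (.nd (nat_lit 2) (.nd (nat_lit 3) (.nd (nat_lit 4) (.nd (nat_lit 5) 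
(.lf (nat_lit 161345) (.g (nat_lit 4691) (.e (nat_lit 57445) (nat_lit 19) (.e (nat_lit 393229) (nat_lit 9) (.e (nat_lit 336084) (nat_lit 9) (.e (nat_lit 336324) (nat_lit 18) (.e (nat_lit 204831) (nat_lit 18) (.e (nat_lit 57854) (nat_lit 252) .nil)))))) (.g (nat_lit 5) .nil .nil))) 
(.lf (nat_lit 161377) (.g (nat_lit 1992) (.e (nat_lit 57445) (nat_lit 19) (.e (nat_lit 393229) (nat_lit 9) (.e (nat_lit 336086) (nat_lit 9) (.e (nat_lit 336316) (nat_lit 17) (.e (nat_lit 196661) (nat_lit 12) .nil))))) .nil))) (.nd (nat_lit 5) 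
(.lf (nat_lit 161361) (.g (nat_lit 3745) (.e (nat_lit 57445) (nat_lit 19) (.e (nat_lit 393229) (nat_lit 9) (.e (nat_lit 336085) (nat_lit 9) (.e (nat_lit 336326) (nat_lit 18) (.e (nat_lit 204829) (nat_lit 18) (.e (nat_lit 57847) (nat_lit 252) .nil)))))) (.g (nat_lit 0) .nil .nil))) 
(.lf (nat_lit 161393) (.g (nat_lit 3015) (.e (nat_lit 57445) (nat_lit 19) (.e (nat_lit 393229) (nat_lit 9) (.e (nat_lit 336086) (nat_lit 9) (.e (nat_lit 336325) (nat_lit 18) (.e (nat_lit 204829) (nat_lit 18) (.e (nat_lit 57854) (nat_lit 252) .nil)))))) (.g (nat_lit 5) .nil .nil))))) (.nd (nat_lit 4) (.nd (nat_lit 5) 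
(.lf (nat_lit 161353) (.g (nat_lit 3376) (.e (nat_lit 57445) (nat_lit 19) (.e (nat_lit 393229) (nat_lit 9) (.e (nat_lit 336085) (nat_lit 9) (.e (nat_lit 336324) (nat_lit 18) (.e (nat_lit 204829) (nat_lit 18) (.e (nat_lit 57849) (nat_lit 252) .nil)))))) (.g (nat_lit 6) .nil .nil))) 
(.lf (nat_lit 161385) (.g (nat_lit 3371) (.e (nat_lit 57445) (nat_lit 19) (.e (nat_lit 393229) (nat_lit 9) (.e (nat_lit 336086) (nat_lit 9) (.e (nat_lit 336324) (nat_lit 18) (.e (nat_lit 204830) (nat_lit 18) (.e (nat_lit 57853) (nat_lit 252) .nil)))))) (.g (nat_lit 5) .nil .nil)))) (.nd (nat_lit 5) 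
(.lf (nat_lit 161369) (.g (nat_lit 2013) (.e (nat_lit 57445) (nat_lit 19) (.e (nat_lit 393229) (nat_lit 9) (.e (nat_lit 336086) (nat_lit 9) (.e (nat_lit 336240) (nat_lit 15) (.e (nat_lit 3248) (nat_lit 197) .nil))))) .nil)) 
(.lf (nat_lit 161401) (.g (nat_lit 1294) (.e (nat_lit 57445) (nat_lit 19) (.e (nat_lit 393229) (nat_lit 9) (.e (nat_lit 336087) (nat_lit 9) (.e (nat_lit 336019) (nat_lit 3) (.e (nat_lit 98321) (nat_lit 17) .nil))))) .nil))))) (.nd (nat_lit 3) (.nd (nat_lit 4) (.nd (nat_lit 5) 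
(.lf (nat_lit 161349) (.g (nat_lit 3495) (.e (nat_lit 57445) (nat_lit 19) (.e (nat_lit 393229) (nat_lit 9) (.e (nat_lit 336085) (nat_lit 9) (.e (nat_lit 336019) (nat_lit 3) (.e (nat_lit 98335) (nat_lit 18) (.e (nat_lit 164178) (nat_lit 154) .nil)))))) (.g (nat_lit 4) .nil .nil))) 
(.lf (nat_lit 161381) (.g (nat_lit 3621) (.e (nat_lit 57445) (nat_lit 19) (.e (nat_lit 393229) (nat_lit 9) (.e (nat_lit 336086) (nat_lit 9) (.e (nat_lit 336324) (nat_lit 18) (.e (nat_lit 204829) (nat_lit 18) (.e (nat_lit 57847) (nat_lit 252) .nil)))))) (.g (nat_lit 0) .nil .nil)))) (.nd (nat_lit 5) 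
(.lf (nat_lit 161365) (.g (nat_lit 3533) (.e (nat_lit 57445) (nat_lit 19) (.e (nat_lit 393229) (nat_lit 9) (.e (nat_lit 336086) (nat_lit 9) (.e (nat_lit 336019) (nat_lit 3) (.e (nat_lit 98333) (nat_lit 18) (.e (nat_lit 164179) (nat_lit 154) .nil)))))) (.g (nat_lit 5) .nil .nil))) 
(.lf (nat_lit 161397) (.g (nat_lit 3130) (.e (nat_lit 57445) (nat_lit 19) (.e (nat_lit 393229) (nat_lit 9) (.e (nat_lit 336086) (nat_lit 9) (.e (nat_lit 336326) (nat_lit 18) (.e (nat_lit 204831) (nat_lit 18) (.e (nat_lit 57852) (nat_lit 252) .nil)))))) (.g (nat_lit 6) .nil .nil))))) (.nd (nat_lit 4) (.nd (nat_lit 5) 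
(.lf (nat_lit 161357) (.g (nat_lit 3767) (.e (nat_lit 57445) (nat_lit 19) (.e (nat_lit 393229) (nat_lit 9) (.e (nat_lit 336085) (nat_lit 9) (.e (nat_lit 336324) (nat_lit 18) (.e (nat_lit 204831) (nat_lit 18) (.e (nat_lit 57846) (nat_lit 252) .nil)))))) (.g (nat_lit 6) .nil .nil))) 
(.lf (nat_lit 161389) (.g (nat_lit 3322) (.e (nat_lit 57445) (nat_lit 19) (.e (nat_lit 393229) (nat_lit 9) (.e (nat_lit 336086) (nat_lit 9) (.e (nat_lit 336324) (nat_lit 18) (.e (nat_lit 204831) (nat_lit 18) (.e (nat_lit 57848) (nat_lit 252) .nil)))))) (.g (nat_lit 0) .nil .nil)))) (.nd (nat_lit 5) 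
(.lf (nat_lit 161373) (.g (nat_lit 836) (.e (nat_lit 57445) (nat_lit 19) (.e (nat_lit 393229) (nat_lit 9) (.e (nat_lit 336086) (nat_lit 9) (.e (nat_lit 336284) (nat_lit 15) .nil)))) .nil)) 
(.lf (nat_lit 161405) (.g (nat_lit 5054) (.e (nat_lit 57445) (nat_lit 19) (.e (nat_lit 393229) (nat_lit 9) (.e (nat_lit 336087) (nat_lit 9) (.e (nat_lit 336324) (nat_lit 18) (.e (nat_lit 204831) (nat_lit 18) (.e (nat_lit 57846) (nat_lit 252) .nil)))))) (.g (nat_lit 5) .nil .nil))))))) (.nd (nat_lit 2) (.nd (nat_lit 3) (.nd (nat_lit 4) (.nd (nat_lit 5) 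
(.lf (nat_lit 161347) (.g (nat_lit 3899) (.e (nat_lit 57445) (nat_lit 19) (.e (nat_lit 393229) (nat_lit 9) (.e (nat_lit 336085) (nat_lit 9) (.e (nat_lit 336019) (nat_lit 3) (.e (nat_lit 98333) (nat_lit 18) (.e (nat_lit 164179) (nat_lit 154) .nil)))))) (.g (nat_lit 5) .nil .nil))) 
(.lf (nat_lit 161379) (.g (nat_lit 2821) (.e (nat_lit 57445) (nat_lit 19) (.e (nat_lit 393229) (nat_lit 9) (.e (nat_lit 336086) (nat_lit 9) (.e (nat_lit 336322) (nat_lit 18) (.e (nat_lit 204830) (nat_lit 18) (.e (nat_lit 57854) (nat_lit 252) .nil)))))) (.g (nat_lit 6) .nil .nil)))) (.nd (nat_lit 5) 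
(.lf (nat_lit 161363) (.g (nat_lit 3457) (.e (nat_lit 57445) (nat_lit 19) (.e (nat_lit 393229) (nat_lit 9) (.e (nat_lit 336085) (nat_lit 9) (.e (nat_lit 336326) (nat_lit 18) (.e (nat_lit 204831) (nat_lit 18) (.e (nat_lit 57852) (nat_lit 252) .nil)))))) (.g (nat_lit 6) .nil .nil))) 
(.lf (nat_lit 161395) (.g (nat_lit 3420) (.e (nat_lit 57445) (nat_lit 19) (.e (nat_lit 393229) (nat_lit 9) (.e (nat_lit 336086) (nat_lit 9) (.e (nat_lit 336326) (nat_lit 18) (.e (nat_lit 204829) (nat_lit 18) (.e (nat_lit 57847) (nat_lit 252) .nil)))))) (.g (nat_lit 0) .nil .nil))))) (.nd (nat_lit 4) (.nd (nat_lit 5) 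
(.lf (nat_lit 161355) (.g (nat_lit 3662) (.e (nat_lit 57445) (nat_lit 19) (.e (nat_lit 393229) (nat_lit 9) (.e (nat_lit 336085) (nat_lit 9) (.e (nat_lit 336324) (nat_lit 18) (.e (nat_lit 204830) (nat_lit 18) (.e (nat_lit 57854) (nat_lit 252) .nil)))))) (.g (nat_lit 0) .nil .nil))) 
(.lf (nat_lit 161387) (.g (nat_lit 3692) (.e (nat_lit 57445) (nat_lit 19) (.e (nat_lit 393229) (nat_lit 9) (.e (nat_lit 336086) (nat_lit 9) (.e (nat_lit 336324) (nat_lit 18) (.e (nat_lit 204831) (nat_lit 18) (.e (nat_lit 57846) (nat_lit 252) .nil)))))) (.g (nat_lit 0) .nil .nil)))) (.nd (nat_lit 5) 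
(.lf (nat_lit 161371) (.g (nat_lit 1693) (.e (nat_lit 57445) (nat_lit 19) (.e (nat_lit 393229) (nat_lit 9) (.e (nat_lit 336086) (nat_lit 9) (.e (nat_lit 336260) (nat_lit 15) (.e (nat_lit 3252) (nat_lit 197) .nil))))) .nil)) 
(.lf (nat_lit 161403) (.g (nat_lit 2704) (.e (nat_lit 57445) (nat_lit 19) (.e (nat_lit 393229) (nat_lit 9) (.e (nat_lit 336087) (nat_lit 9) (.e (nat_lit 336019) (nat_lit 3) (.e (nat_lit 98335) (nat_lit 18) (.e (nat_lit 164176) (nat_lit 154) .nil)))))) (.g (nat_lit 5) .nil .nil)))))) (.nd (nat_lit 3) (.nd (nat_lit 4) (.nd (nat_lit 5) 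
(.lf (nat_lit 161351) (.g (nat_lit 3273) (.e (nat_lit 57445) (nat_lit 19) (.e (nat_lit 393229) (nat_lit 9) (.e (nat_lit 336085) (nat_lit 9) (.e (nat_lit 336322) (nat_lit 18) (.e (nat_lit 204830) (nat_lit 18) (.e (nat_lit 57854) (nat_lit 252) .nil)))))) (.g (nat_lit 0) .nil .nil))) 
(.lf (nat_lit 161383) (.g (nat_lit 3559) (.e (nat_lit 57445) (nat_lit 19) (.e (nat_lit 393229) (nat_lit 9) (.e (nat_lit 336086) (nat_lit 9) (.e (nat_lit 336324) (nat_lit 18) (.e (nat_lit 204829) (nat_lit 18) (.e (nat_lit 57853) (nat_lit 252) .nil)))))) (.g (nat_lit 5) .nil .nil)))) (.nd (nat_lit 5) 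
(.lf (nat_lit 161367) (.g (nat_lit 3242) (.e (nat_lit 57445) (nat_lit 19) (.e (nat_lit 393229) (nat_lit 9) (.e (nat_lit 336086) (nat_lit 9) (.e (nat_lit 336019) (nat_lit 3) (.e (nat_lit 98335) (nat_lit 18) (.e (nat_lit 164178) (nat_lit 154) .nil)))))) (.g (nat_lit 4) .nil .nil))) 
(.lf (nat_lit 161399) (.g (nat_lit 3197) (.e (nat_lit 57445) (nat_lit 19) (.e (nat_lit 393229) (nat_lit 9) (.e (nat_lit 336086) (nat_lit 9) (.e (nat_lit 336326) (nat_lit 18) (.e (nat_lit 204831) (nat_lit 18) (.e (nat_lit 57854) (nat_lit 252) .nil)))))) (.g (nat_lit 0) .nil .nil))))) (.nd (nat_lit 4) (.nd (nat_lit 5) 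
(.lf (nat_lit 161359) (.g (nat_lit 3422) (.e (nat_lit 57445) (nat_lit 19) (.e (nat_lit 393229) (nat_lit 9) (.e (nat_lit 336085) (nat_lit 9) (.e (nat_lit 336324) (nat_lit 18) (.e (nat_lit 204831) (nat_lit 18) (.e (nat_lit 57849) (nat_lit 252) .nil)))))) (.g (nat_lit 6) .nil .nil))) 
(.lf (nat_lit 161391) (.g (nat_lit 3729) (.e (nat_lit 57445) (nat_lit 19) (.e (nat_lit 393229) (nat_lit 9) (.e (nat_lit 336086) (nat_lit 9) (.e (nat_lit 336324) (nat_lit 18) (.e (nat_lit 204831) (nat_lit 18) (.e (nat_lit 57854) (nat_lit 252) .nil)))))) (.g (nat_lit 0) .nil .nil)))) (.nd (nat_lit 5) 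
(.lf (nat_lit 161375) (.g (nat_lit 1579) (.e (nat_lit 57445) (nat_lit 19) (.e (nat_lit 393229) (nat_lit 9) (.e (nat_lit 336086) (nat_lit 9) (.e (nat_lit 336315) (nat_lit 17) (.e (nat_lit 196635) (nat_lit 9) .nil))))) .nil)) 
(.lf (nat_lit 161407) (.g (nat_lit 4691) (.e (nat_lit 57445) (nat_lit 19) (.e (nat_lit 393229) (nat_lit 9) (.e (nat_lit 336087) (nat_lit 9) (.e (nat_lit 336324) (nat_lit 18) (.e (nat_lit 204831) (nat_lit 18) (.e (nat_lit 57848) (nat_lit 252) .nil)))))) (.g (nat_lit 5) .nil .nil)))))))))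

noncomputable def tv2162 : DT := (.nd (nat_lit 0) (.nd (nat_lit 1) (.nd (nat_lit 2) (.nd (nat_lit 3) (.nd (nat_lit 4) (.nd (nat_lit 5) 
(.lf (nat_lit 161408) (.g (nat_lit 4385) (.e (nat_lit 57445) (nat_lit 19) (.e (nat_lit 393229) (nat_lit 9) (.e (nat_lit 336087) (nat_lit 9) (.e (nat_lit 336324) (nat_lit 18) (.e (nat_lit 204831) (nat_lit 18) (.e (nat_lit 57849) (nat_lit 252) .nil)))))) (.g (nat_lit 5) .nil .nil))) 
(.lf (nat_lit 161440) (.g (nat_lit 2970) (.e (nat_lit 57445) (nat_lit 19) (.e (nat_lit 393229) (nat_lit 9) (.e (nat_lit 336088) (nat_lit 9) (.e (nat_lit 336326) (nat_lit 18) (.e (nat_lit 204831) (nat_lit 18) (.e (nat_lit 57849) (nat_lit 252) .nil)))))) (.g (nat_lit 6) .nil .nil)))) (.nd (nat_lit 5) 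
(.lf (nat_lit 161424) (.g (nat_lit 2912) (.e (nat_lit 57445) (nat_lit 19) (.e (nat_lit 393229) (nat_lit 9) (.e (nat_lit 336088) (nat_lit 9) (.e (nat_lit 336019) (nat_lit 3) (.e (nat_lit 98335) (nat_lit 18) (.e (nat_lit 164176) (nat_lit 154) .nil)))))) (.g (nat_lit 5) .nil .nil))) 
(.lf (nat_lit 161456) (.g (nat_lit 758) (.e (nat_lit 57445) (nat_lit 19) (.e (nat_lit 393229) (nat_lit 9) (.e (nat_lit 336174) (nat_lit 10) .nil))) .nil)))) (.nd (nat_lit 4) (.nd (nat_lit 5) 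
(.lf (nat_lit 161416) (.g (nat_lit 3667) (.e (nat_lit 57445) (nat_lit 19) (.e (nat_lit 393229) (nat_lit 9) (.e (nat_lit 336087) (nat_lit 9) (.e (nat_lit 336326) (nat_lit 18) (.e (nat_lit 204831) (nat_lit 18) (.e (nat_lit 57846) (nat_lit 252) .nil)))))) (.g (nat_lit 5) .nil .nil))) 
(.lf (nat_lit 161448) (.g (nat_lit 3660) (.e (nat_lit 57445) (nat_lit 19) (.e (nat_lit 393229) (nat_lit 9) (.e (nat_lit 343808) (nat_lit 9) (.e (nat_lit 336324) (nat_lit 18) (.e (nat_lit 204831) (nat_lit 18) (.e (nat_lit 57848) (nat_lit 252) .nil)))))) (.g (nat_lit 5) .nil .nil)))) (.nd (nat_lit 5) 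
(.lf (nat_lit 161432) (.g (nat_lit 2162) (.e (nat_lit 57445) (nat_lit 19) (.e (nat_lit 393229) (nat_lit 9) (.e (nat_lit 336088) (nat_lit 9) (.e (nat_lit 336322) (nat_lit 18) (.e (nat_lit 204830) (nat_lit 18) (.e (nat_lit 57854) (nat_lit 252) .nil)))))) (.g (nat_lit 4) .nil .nil))) 
(.lf (nat_lit 161464) (.g (nat_lit 2803) (.e (nat_lit 57445) (nat_lit 19) (.e (nat_lit 393229) (nat_lit 9) (.e (nat_lit 336193) (nat_lit 12) (.e (nat_lit 385068) (nat_lit 26) (.e (nat_lit 532501) (nat_lit 1) (.e (nat_lit 57853) (nat_lit 252) .nil)))))) (.g (nat_lit 4) .nil .nil)))))) (.nd (nat_lit 3) (.nd (nat_lit 4) (.nd (nat_lit 5) 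
(.lf (nat_lit 161412) (.g (nat_lit 5013) (.e (nat_lit 57445) (nat_lit 19) (.e (nat_lit 393229) (nat_lit 9) (.e (nat_lit 336087) (nat_lit 9) (.e (nat_lit 336324) (nat_lit 18) (.e (nat_lit 204831) (nat_lit 18) (.e (nat_lit 57854) (nat_lit 252) .nil)))))) (.g (nat_lit 5) .nil .nil))) 
(.lf (nat_lit 161444) (.g (nat_lit 560) (.e (nat_lit 57445) (nat_lit 19) (.e (nat_lit 393229) (nat_lit 9) (.e (nat_lit 336107) (nat_lit 9) .nil))) .nil))) (.nd (nat_lit 5) 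
(.lf (nat_lit 161428) (.g (nat_lit 1670) (.e (nat_lit 57445) (nat_lit 19) (.e (nat_lit 393229) (nat_lit 9) (.e (nat_lit 336088) (nat_lit 9) (.e (nat_lit 336261) (nat_lit 15) (.e (nat_lit 3251) (nat_lit 197) .nil))))) .nil)) 
(.lf (nat_lit 161460) (.g (nat_lit 386) (.e (nat_lit 57445) (nat_lit 19) (.e (nat_lit 393229) (nat_lit 9) (.e (nat_lit 336186) (nat_lit 11) .nil))) .nil)))) (.nd (nat_lit 4) (.nd (nat_lit 5) 
(.lf (nat_lit 161420) (.g (nat_lit 3891) (.e (nat_lit 57445) (nat_lit 19) (.e (nat_lit 393229) (nat_lit 9) (.e (nat_lit 336087) (nat_lit 9) (.e (nat_lit 336326) (nat_lit 18) (.e (nat_lit 204831) (nat_lit 18) (.e (nat_lit 57853) (nat_lit 252) .nil)))))) (.g (nat_lit 5) .nil .nil))) 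
(.lf (nat_lit 161452) (.g (nat_lit 3875) (.e (nat_lit 57445) (nat_lit 19) (.e (nat_lit 393229) (nat_lit 9) (.e (nat_lit 343808) (nat_lit 9) (.e (nat_lit 336324) (nat_lit 18) (.e (nat_lit 204831) (nat_lit 18) (.e (nat_lit 57854) (nat_lit 252) .nil)))))) (.g (nat_lit 5) .nil .nil)))) (.nd (nat_lit 5) 
(.lf (nat_lit 161436) (.g (nat_lit 2685) (.e (nat_lit 57445) (nat_lit 19) (.e (nat_lit 393229) (nat_lit 9) (.e (nat_lit 336088) (nat_lit 9) (.e (nat_lit 336324) (nat_lit 18) (.e (nat_lit 204831) (nat_lit 18) (.e (nat_lit 57844) (nat_lit 252) .nil)))))) (.g (nat_lit 4) .nil .nil))) 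
(.lf (nat_lit 161468) (.g (nat_lit 3582) (.e (nat_lit 57445) (nat_lit 19) (.e (nat_lit 393229) (nat_lit 9) (.e (nat_lit 336193) (nat_lit 12) (.e (nat_lit 385068) (nat_lit 26) (.e (nat_lit 532503) (nat_lit 1) (.e (nat_lit 57849) (nat_lit 252) .nil)))))) (.g (nat_lit 5) .nil .nil))))))) (.nd (nat_lit 2) (.nd (nat_lit 3) (.nd (nat_lit 4) (.nd (nat_lit 5) 
(.lf (nat_lit 161410) (.g (nat_lit 5434) (.e (nat_lit 57445) (nat_lit 19) (.e (nat_lit 393229) (nat_lit 9) (.e (nat_lit 336087) (nat_lit 9) (.e (nat_lit 336324) (nat_lit 18) (.e (nat_lit 204831) (nat_lit 18) (.e (nat_lit 57852) (nat_lit 252) .nil)))))) (.g (nat_lit 5) .nil .nil))) 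
(.lf (nat_lit 161442) (.g (nat_lit 3452) (.e (nat_lit 57445) (nat_lit 19) (.e (nat_lit 393229) (nat_lit 9) (.e (nat_lit 336088) (nat_lit 9) (.e (nat_lit 336326) (nat_lit 18) (.e (nat_lit 204831) (nat_lit 18) (.e (nat_lit 57852) (nat_lit 252) .nil)))))) (.g (nat_lit 6) .nil .nil)))) (.nd (nat_lit 5) 
(.lf (nat_lit 161426) (.g (nat_lit 1692) (.e (nat_lit 57445) (nat_lit 19) (.e (nat_lit 393229) (nat_lit 9) (.e (nat_lit 336088) (nat_lit 9) (.e (nat_lit 336258) (nat_lit 15) (.e (nat_lit 3248) (nat_lit 197) .nil))))) .nil)) 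
(.lf (nat_lit 161458) (.g (nat_lit 392) (.e (nat_lit 57445) (nat_lit 19) (.e (nat_lit 393229) (nat_lit 9) (.e (nat_lit 336184) (nat_lit 11) .nil))) .nil)))) (.nd (nat_lit 4) (.nd (nat_lit 5) 
(.lf (nat_lit 161418) (.g (nat_lit 2715) (.e (nat_lit 57445) (nat_lit 19) (.e (nat_lit 393229) (nat_lit 9) (.e (nat_lit 336087) (nat_lit 9) (.e (nat_lit 336326) (nat_lit 18) (.e (nat_lit 204831) (nat_lit 18) (.e (nat_lit 57849) (nat_lit 252) .nil)))))) (.g (nat_lit 4) .nil .nil))) 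
(.lf (nat_lit 161450) (.g (nat_lit 4358) (.e (nat_lit 57445) (nat_lit 19) (.e (nat_lit 393229) (nat_lit 9) (.e (nat_lit 343808) (nat_lit 9) (.e (nat_lit 336324) (nat_lit 18) (.e (nat_lit 204831) (nat_lit 18) (.e (nat_lit 57852) (nat_lit 252) .nil)))))) (.g (nat_lit 5) .nil .nil)))) (.nd (nat_lit 5) 
(.lf (nat_lit 161434) (.g (nat_lit 2359) (.e (nat_lit 57445) (nat_lit 19) (.e (nat_lit 393229) (nat_lit 9) (.e (nat_lit 336088) (nat_lit 9) (.e (nat_lit 336324) (nat_lit 18) (.e (nat_lit 204830) (nat_lit 18) (.e (nat_lit 57844) (nat_lit 252) .nil)))))) (.g (nat_lit 4) .nil .nil))) 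
(.lf (nat_lit 161466) (.g (nat_lit 4104) (.e (nat_lit 57445) (nat_lit 19) (.e (nat_lit 393229) (nat_lit 9) (.e (nat_lit 336193) (nat_lit 12) (.e (nat_lit 385068) (nat_lit 26) (.e (nat_lit 532503) (nat_lit 1) (.e (nat_lit 57846) (nat_lit 252) .nil)))))) (.g (nat_lit 5) .nil .nil)))))) (.nd (nat_lit 3) (.nd (nat_lit 4) (.nd (nat_lit 5) 
(.lf (nat_lit 161414) (.g (nat_lit 3391) (.e (nat_lit 57445) (nat_lit 19) (.e (nat_lit 393229) (nat_lit 9) (.e (nat_lit 336087) (nat_lit 9) (.e (nat_lit 336326) (nat_lit 18) (.e (nat_lit 204829) (nat_lit 18) (.e (nat_lit 57854) (nat_lit 252) .nil)))))) (.g (nat_lit 4) .nil .nil))) 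
(.lf (nat_lit 161446) (.g (nat_lit 3897) (.e (nat_lit 57445) (nat_lit 19) (.e (nat_lit 393229) (nat_lit 9) (.e (nat_lit 343808) (nat_lit 9) (.e (nat_lit 336324) (nat_lit 18) (.e (nat_lit 204831) (nat_lit 18) (.e (nat_lit 57846) (nat_lit 252) .nil)))))) (.g (nat_lit 5) .nil .nil)))) (.nd (nat_lit 5) 
(.lf (nat_lit 161430) (.g (nat_lit 1589) (.e (nat_lit 57445) (nat_lit 19) (.e (nat_lit 393229) (nat_lit 9) (.e (nat_lit 336088) (nat_lit 9) (.e (nat_lit 336284) (nat_lit 15) (.e (nat_lit 3249) (nat_lit 197) .nil))))) .nil)) 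
(.lf (nat_lit 161462) (.g (nat_lit 3959) (.e (nat_lit 57445) (nat_lit 19) (.e (nat_lit 393229) (nat_lit 9) (.e (nat_lit 336193) (nat_lit 12) (.e (nat_lit 385068) (nat_lit 26) (.e (nat_lit 532499) (nat_lit 1) (.e (nat_lit 57849) (nat_lit 252) .nil)))))) (.g (nat_lit 5) .nil .nil))))) (.nd (nat_lit 4) (.nd (nat_lit 5) 
(.lf (nat_lit 161422) (.g (nat_lit 301) (.e (nat_lit 57445) (nat_lit 19) (.e (nat_lit 393229) (nat_lit 9) (.e (nat_lit 336088) (nat_lit 9) .nil))) .nil)) 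
(.lf (nat_lit 161454) (.g (nat_lit 4293) (.e (nat_lit 57445) (nat_lit 19) (.e (nat_lit 393229) (nat_lit 9) (.e (nat_lit 336163) (nat_lit 10) (.e (nat_lit 344117) (nat_lit 21) (.e (nat_lit 516115) (nat_lit 1) (.e (nat_lit 164179) (nat_lit 154) .nil)))))) (.g (nat_lit 4) .nil .nil)))) (.nd (nat_lit 5) 
(.lf (nat_lit 161438) (.g (nat_lit 3451) (.e (nat_lit 57445) (nat_lit 19) (.e (nat_lit 393229) (nat_lit 9) (.e (nat_lit 336088) (nat_lit 9) (.e (nat_lit 336326) (nat_lit 18) (.e (nat_lit 204831) (nat_lit 18) (.e (nat_lit 57846) (nat_lit 252) .nil)))))) (.g (nat_lit 0) .nil .nil))) 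
(.lf (nat_lit 161470) (.g (nat_lit 4418) (.e (nat_lit 57445) (nat_lit 19) (.e (nat_lit 393229) (nat_lit 9) (.e (nat_lit 336193) (nat_lit 12) (.e (nat_lit 385068) (nat_lit 26) (.e (nat_lit 532504) (nat_lit 1) (.e (nat_lit 57852) (nat_lit 252) .nil)))))) (.g (nat_lit 0) .nil .nil)))))))) (.nd (nat_lit 1) (.nd (nat_lit 2) (.nd (nat_lit 3) (.nd (nat_lit 4) (.nd (nat_lit 5) 
(.lf (nat_lit 161409) (.g (nat_lit 4594) (.e (nat_lit 57445) (nat_lit 19) (.e (nat_lit 393229) (nat_lit 9) (.e (nat_lit 336087) (nat_lit 9) (.e (nat_lit 336324) (nat_lit 18) (.e (nat_lit 204831) (nat_lit 18) (.e (nat_lit 57851) (nat_lit 252) .nil)))))) (.g (nat_lit 6) .nil .nil))) 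
(.lf (nat_lit 161441) (.g (nat_lit 2771) (.e (nat_lit 57445) (nat_lit 19) (.e (nat_lit 393229) (nat_lit 9) (.e (nat_lit 336088) (nat_lit 9) (.e (nat_lit 336326) (nat_lit 18) (.e (nat_lit 204831) (nat_lit 18) (.e (nat_lit 57851) (nat_lit 252) .nil)))))) (.g (nat_lit 6) .nil .nil)))) (.nd (nat_lit 5) 
(.lf (nat_lit 161425) (.g (nat_lit 1578) (.e (nat_lit 57445) (nat_lit 19) (.e (nat_lit 393229) (nat_lit 9) (.e (nat_lit 336088) (nat_lit 9) (.e (nat_lit 336257) (nat_lit 15) (.e (nat_lit 3251) (nat_lit 197) .nil))))) .nil)) 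
(.lf (nat_lit 161457) (.g (nat_lit 706) (.e (nat_lit 57445) (nat_lit 19) (.e (nat_lit 393229) (nat_lit 9) (.e (nat_lit 336183) (nat_lit 11) (.e (nat_lit 376576) (nat_lit 23) .nil)))) .nil)))) (.nd (nat_lit 4) (.nd (nat_lit 5) 
(.lf (nat_lit 161417) (.g (nat_lit 3877) (.e (nat_lit 57445) (nat_lit 19) (.e (nat_lit 393229) (nat_lit 9) (.e (nat_lit 336087) (nat_lit 9) (.e (nat_lit 336326) (nat_lit 18) (.e (nat_lit 204831) (nat_lit 18) (.e (nat_lit 57847) (nat_lit 252) .nil)))))) (.g (nat_lit 5) .nil .nil))) 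
(.lf (nat_lit 161449) (.g (nat_lit 3543) (.e (nat_lit 57445) (nat_lit 19) (.e (nat_lit 393229) (nat_lit 9) (.e (nat_lit 343808) (nat_lit 9) (.e (nat_lit 336324) (nat_lit 18) (.e (nat_lit 204831) (nat_lit 18) (.e (nat_lit 57849) (nat_lit 252) .nil)))))) (.g (nat_lit 5) .nil .nil)))) (.nd (nat_lit 5) 
(.lf (nat_lit 161433) (.g (nat_lit 3430) (.e (nat_lit 57445) (nat_lit 19) (.e (nat_lit 393229) (nat_lit 9) (.e (nat_lit 336088) (nat_lit 9) (.e (nat_lit 336324) (nat_lit 18) (.e (nat_lit 204829) (nat_lit 18) (.e (nat_lit 57852) (nat_lit 252) .nil)))))) (.g (nat_lit 5) .nil .nil))) 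
(.lf (nat_lit 161465) (.g (nat_lit 3973) (.e (nat_lit 57445) (nat_lit 19) (.e (nat_lit 393229) (nat_lit 9) (.e (nat_lit 336193) (nat_lit 12) (.e (nat_lit 385068) (nat_lit 26) (.e (nat_lit 532501) (nat_lit 1) (.e (nat_lit 57854) (nat_lit 252) .nil)))))) (.g (nat_lit 6) .nil .nil)))))) (.nd (nat_lit 3) (.nd (nat_lit 4) (.nd (nat_lit 5) 
(.lf (nat_lit 161413) (.g (nat_lit 2754) (.e (nat_lit 57445) (nat_lit 19) (.e (nat_lit 393229) (nat_lit 9) (.e (nat_lit 336087) (nat_lit 9) (.e (nat_lit 336326) (nat_lit 18) (.e (nat_lit 204829) (nat_lit 18) (.e (nat_lit 57849) (nat_lit 252) .nil)))))) (.g (nat_lit 4) .nil .nil))) 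
(.lf (nat_lit 161445) (.g (nat_lit 758) (.e (nat_lit 57445) (nat_lit 19) (.e (nat_lit 393229) (nat_lit 9) (.e (nat_lit 336155) (nat_lit 9) .nil))) .nil))) (.nd (nat_lit 5) 
(.lf (nat_lit 161429) (.g (nat_lit 1155) (.e (nat_lit 57445) (nat_lit 19) (.e (nat_lit 393229) (nat_lit 9) (.e (nat_lit 336088) (nat_lit 9) (.e (nat_lit 336262) (nat_lit 15) .nil)))) .nil)) 
(.lf (nat_lit 161461) (.g (nat_lit 2821) (.e (nat_lit 57445) (nat_lit 19) (.e (nat_lit 393229) (nat_lit 9) (.e (nat_lit 336186) (nat_lit 11) (.e (nat_lit 368676) (nat_lit 21) (.e (nat_lit 516115) (nat_lit 1) (.e (nat_lit 164178) (nat_lit 154) .nil)))))) (.g (nat_lit 5) .nil .nil))))) (.nd (nat_lit 4) (.nd (nat_lit 5) 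
(.lf (nat_lit 161421) (.g (nat_lit 3864) (.e (nat_lit 57445) (nat_lit 19) (.e (nat_lit 393229) (nat_lit 9) (.e (nat_lit 336087) (nat_lit 9) (.e (nat_lit 336326) (nat_lit 18) (.e (nat_lit 204831) (nat_lit 18) (.e (nat_lit 57854) (nat_lit 252) .nil)))))) (.g (nat_lit 5) .nil .nil))) 
(.lf (nat_lit 161453) (.g (nat_lit 605) (.e (nat_lit 57445) (nat_lit 19) (.e (nat_lit 393229) (nat_lit 9) (.e (nat_lit 336163) (nat_lit 10) .nil))) .nil))) (.nd (nat_lit 5) 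
(.lf (nat_lit 161437) (.g (nat_lit 2909) (.e (nat_lit 57445) (nat_lit 19) (.e (nat_lit 393229) (nat_lit 9) (.e (nat_lit 336088) (nat_lit 9) (.e (nat_lit 336326) (nat_lit 18) (.e (nat_lit 204829) (nat_lit 18) (.e (nat_lit 57849) (nat_lit 252) .nil)))))) (.g (nat_lit 6) .nil .nil))) 
(.lf (nat_lit 161469) (.g (nat_lit 2862) (.e (nat_lit 57445) (nat_lit 19) (.e (nat_lit 393229) (nat_lit 9) (.e (nat_lit 336193) (nat_lit 12) (.e (nat_lit 385068) (nat_lit 26) (.e (nat_lit 532503) (nat_lit 1) (.e (nat_lit 57853) (nat_lit 252) .nil)))))) (.g (nat_lit 4) .nil .nil))))))) (.nd (nat_lit 2) (.nd (nat_lit 3) (.nd (nat_lit 4) (.nd (nat_lit 5) 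
(.lf (nat_lit 161411) (.g (nat_lit 5187) (.e (nat_lit 57445) (nat_lit 19) (.e (nat_lit 393229) (nat_lit 9) (.e (nat_lit 336087) (nat_lit 9) (.e (nat_lit 336324) (nat_lit 18) (.e (nat_lit 204831) (nat_lit 18) (.e (nat_lit 57853) (nat_lit 252) .nil)))))) (.g (nat_lit 5) .nil .nil))) 
(.lf (nat_lit 161443) (.g (nat_lit 735) (.e (nat_lit 57445) (nat_lit 19) (.e (nat_lit 393229) (nat_lit 9) (.e (nat_lit 336105) (nat_lit 9) .nil))) .nil))) (.nd (nat_lit 5) 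
(.lf (nat_lit 161427) (.g (nat_lit 1443) (.e (nat_lit 57445) (nat_lit 19) (.e (nat_lit 393229) (nat_lit 9) (.e (nat_lit 336088) (nat_lit 9) (.e (nat_lit 336259) (nat_lit 15) (.e (nat_lit 3251) (nat_lit 197) .nil))))) .nil)) 
(.lf (nat_lit 161459) (.g (nat_lit 2718) (.e (nat_lit 57445) (nat_lit 19) (.e (nat_lit 393229) (nat_lit 9) (.e (nat_lit 336184) (nat_lit 11) (.e (nat_lit 368676) (nat_lit 21) (.e (nat_lit 516115) (nat_lit 1) (.e (nat_lit 164178) (nat_lit 154) .nil)))))) (.g (nat_lit 5) .nil .nil))))) (.nd (nat_lit 4) (.nd (nat_lit 5) 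
(.lf (nat_lit 161419) (.g (nat_lit 3869) (.e (nat_lit 57445) (nat_lit 19) (.e (nat_lit 393229) (nat_lit 9) (.e (nat_lit 336087) (nat_lit 9) (.e (nat_lit 336326) (nat_lit 18) (.e (nat_lit 204831) (nat_lit 18) (.e (nat_lit 57852) (nat_lit 252) .nil)))))) (.g (nat_lit 5) .nil .nil))) 
(.lf (nat_lit 161451) (.g (nat_lit 4155) (.e (nat_lit 57445) (nat_lit 19) (.e (nat_lit 393229) (nat_lit 9) (.e (nat_lit 343808) (nat_lit 9) (.e (nat_lit 336324) (nat_lit 18) (.e (nat_lit 204831) (nat_lit 18) (.e (nat_lit 57853) (nat_lit 252) .nil)))))) (.g (nat_lit 5) .nil .nil)))) (.nd (nat_lit 5) 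
(.lf (nat_lit 161435) (.g (nat_lit 3988) (.e (nat_lit 57445) (nat_lit 19) (.e (nat_lit 393229) (nat_lit 9) (.e (nat_lit 336088) (nat_lit 9) (.e (nat_lit 336324) (nat_lit 18) (.e (nat_lit 204830) (nat_lit 18) (.e (nat_lit 57853) (nat_lit 252) .nil)))))) (.g (nat_lit 6) .nil .nil))) 
(.lf (nat_lit 161467) (.g (nat_lit 3785) (.e (nat_lit 57445) (nat_lit 19) (.e (nat_lit 393229) (nat_lit 9) (.e (nat_lit 336193) (nat_lit 12) (.e (nat_lit 385068) (nat_lit 26) (.e (nat_lit 532503) (nat_lit 1) (.e (nat_lit 57848) (nat_lit 252) .nil)))))) (.g (nat_lit 5) .nil .nil)))))) (.nd (nat_lit 3) (.nd (nat_lit 4) (.nd (nat_lit 5) 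
(.lf (nat_lit 161415) (.g (nat_lit 3952) (.e (nat_lit 57445) (nat_lit 19) (.e (nat_lit 393229) (nat_lit 9) (.e (nat_lit 336087) (nat_lit 9) (.e (nat_lit 336326) (nat_lit 18) (.e (nat_lit 204830) (nat_lit 18) (.e (nat_lit 57854) (nat_lit 252) .nil)))))) (.g (nat_lit 5) .nil .nil))) 
(.lf (nat_lit 161447) (.g (nat_lit 3942) (.e (nat_lit 57445) (nat_lit 19) (.e (nat_lit 393229) (nat_lit 9) (.e (nat_lit 343808) (nat_lit 9) (.e (nat_lit 336324) (nat_lit 18) (.e (nat_lit 204831) (nat_lit 18) (.e (nat_lit 57847) (nat_lit 252) .nil)))))) (.g (nat_lit 5) .nil .nil)))) (.nd (nat_lit 5) 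
(.lf (nat_lit 161431) (.g (nat_lit 2452) (.e (nat_lit 57445) (nat_lit 19) (.e (nat_lit 393229) (nat_lit 9) (.e (nat_lit 336088) (nat_lit 9) (.e (nat_lit 336322) (nat_lit 18) (.e (nat_lit 204829) (nat_lit 18) (.e (nat_lit 57847) (nat_lit 252) .nil)))))) (.g (nat_lit 4) .nil .nil))) 
(.lf (nat_lit 161463) (.g (nat_lit 2512) (.e (nat_lit 57445) (nat_lit 19) (.e (nat_lit 393229) (nat_lit 9) (.e (nat_lit 336193) (nat_lit 12) (.e (nat_lit 385068) (nat_lit 26) (.e (nat_lit 532499) (nat_lit 1) (.e (nat_lit 57854) (nat_lit 252) .nil)))))) (.g (nat_lit 4) .nil .nil))))) (.nd (nat_lit 4) (.nd (nat_lit 5) 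
(.lf (nat_lit 161423) (.g (nat_lit 2903) (.e (nat_lit 57445) (nat_lit 19) (.e (nat_lit 393229) (nat_lit 9) (.e (nat_lit 336088) (nat_lit 9) (.e (nat_lit 336019) (nat_lit 3) (.e (nat_lit 98333) (nat_lit 18) (.e (nat_lit 164178) (nat_lit 154) .nil)))))) (.g (nat_lit 5) .nil .nil))) 
(.lf (nat_lit 161455) (.g (nat_lit 747) (.e (nat_lit 57445) (nat_lit 19) (.e (nat_lit 393229) (nat_lit 9) (.e (nat_lit 336165) (nat_lit 10) .nil))) .nil))) (.nd (nat_lit 5) 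
(.lf (nat_lit 161439) (.g (nat_lit 2936) (.e (nat_lit 57445) (nat_lit 19) (.e (nat_lit 393229) (nat_lit 9) (.e (nat_lit 336088) (nat_lit 9) (.e (nat_lit 336326) (nat_lit 18) (.e (nat_lit 204831) (nat_lit 18) (.e (nat_lit 57848) (nat_lit 252) .nil)))))) (.g (nat_lit 6) .nil .nil))) 
(.lf (nat_lit 161471) (.g (nat_lit 4161) (.e (nat_lit 57445) (nat_lit 19) (.e (nat_lit 393229) (nat_lit 9) (.e (nat_lit 336193) (nat_lit 12) (.e (nat_lit 385068) (nat_lit 26) (.e (nat_lit 532504) (nat_lit 1) (.e (nat_lit 57853) (nat_lit 252) .nil)))))) (.g (nat_lit 6) .nil .nil)))))))))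

noncomputable def tv2163 : DT := (.nd (nat_lit 0) (.nd (nat_lit 1) (.nd (nat_lit 2) (.nd (nat_lit 3) (.nd (nat_lit 4) (.nd (nat_lit 5) 
(.lf (nat_lit 161472) (.g (nat_lit 2443) (.e (nat_lit 57445) (nat_lit 19) (.e (nat_lit 393229) (nat_lit 9) (.e (nat_lit 336194) (nat_lit 12) (.e (nat_lit 385064) (nat_lit 26) (.e (nat_lit 532503) (nat_lit 1) (.e (nat_lit 57848) (nat_lit 252) .nil)))))) (.g (nat_lit 5) .nil .nil))) 
(.lf (nat_lit 161504) (.g (nat_lit 4006) (.e (nat_lit 57445) (nat_lit 19) (.e (nat_lit 393229) (nat_lit 9) (.e (nat_lit 336195) (nat_lit 12) (.e (nat_lit 385066) (nat_lit 26) (.e (nat_lit 532503) (nat_lit 1) (.e (nat_lit 57846) (nat_lit 252) .nil)))))) (.g (nat_lit 5) .nil .nil)))) (.nd (nat_lit 5) 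
(.lf (nat_lit 161488) (.g (nat_lit 3446) (.e (nat_lit 57445) (nat_lit 19) (.e (nat_lit 393229) (nat_lit 9) (.e (nat_lit 336194) (nat_lit 12) (.e (nat_lit 385066) (nat_lit 26) (.e (nat_lit 532503) (nat_lit 1) (.e (nat_lit 57849) (nat_lit 252) .nil)))))) (.g (nat_lit 0) .nil .nil))) 
(.lf (nat_lit 161520) (.g (nat_lit 3321) (.e (nat_lit 57445) (nat_lit 19) (.e (nat_lit 393229) (nat_lit 9) (.e (nat_lit 336196) (nat_lit 12) (.e (nat_lit 385066) (nat_lit 26) (.e (nat_lit 532501) (nat_lit 1) (.e (nat_lit 57854) (nat_lit 252) .nil)))))) (.g (nat_lit 0) .nil .nil))))) (.nd (nat_lit 4) (.nd (nat_lit 5) 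
(.lf (nat_lit 161480) (.g (nat_lit 2923) (.e (nat_lit 57445) (nat_lit 19) (.e (nat_lit 393229) (nat_lit 9) (.e (nat_lit 336194) (nat_lit 12) (.e (nat_lit 385066) (nat_lit 26) (.e (nat_lit 532502) (nat_lit 1) (.e (nat_lit 57848) (nat_lit 252) .nil)))))) (.g (nat_lit 0) .nil .nil))) 
(.lf (nat_lit 161512) (.g (nat_lit 3786) (.e (nat_lit 57445) (nat_lit 19) (.e (nat_lit 393229) (nat_lit 9) (.e (nat_lit 336195) (nat_lit 12) (.e (nat_lit 385068) (nat_lit 26) (.e (nat_lit 532501) (nat_lit 1) (.e (nat_lit 57854) (nat_lit 252) .nil)))))) (.g (nat_lit 5) .nil .nil)))) (.nd (nat_lit 5) 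
(.lf (nat_lit 161496) (.g (nat_lit 3673) (.e (nat_lit 57445) (nat_lit 19) (.e (nat_lit 393229) (nat_lit 9) (.e (nat_lit 336194) (nat_lit 12) (.e (nat_lit 385068) (nat_lit 26) (.e (nat_lit 532503) (nat_lit 1) (.e (nat_lit 57848) (nat_lit 252) .nil)))))) (.g (nat_lit 0) .nil .nil))) 
(.lf (nat_lit 161528) (.g (nat_lit 3204) (.e (nat_lit 57445) (nat_lit 19) (.e (nat_lit 393229) (nat_lit 9) (.e (nat_lit 336196) (nat_lit 12) (.e (nat_lit 385066) (nat_lit 26) (.e (nat_lit 532503) (nat_lit 1) (.e (nat_lit 57848) (nat_lit 252) .nil)))))) (.g (nat_lit 5) .nil .nil)))))) (.nd (nat_lit 3) (.nd (nat_lit 4) (.nd (nat_lit 5) 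
(.lf (nat_lit 161476) (.g (nat_lit 3580) (.e (nat_lit 57445) (nat_lit 19) (.e (nat_lit 393229) (nat_lit 9) (.e (nat_lit 336194) (nat_lit 12) (.e (nat_lit 385066) (nat_lit 26) (.e (nat_lit 532499) (nat_lit 1) (.e (nat_lit 57854) (nat_lit 252) .nil)))))) (.g (nat_lit 0) .nil .nil))) 
(.lf (nat_lit 161508) (.g (nat_lit 3285) (.e (nat_lit 57445) (nat_lit 19) (.e (nat_lit 393229) (nat_lit 9) (.e (nat_lit 336195) (nat_lit 12) (.e (nat_lit 385067) (nat_lit 26) (.e (nat_lit 532501) (nat_lit 1) (.e (nat_lit 57851) (nat_lit 252) .nil)))))) (.g (nat_lit 6) .nil .nil)))) (.nd (nat_lit 5) 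
(.lf (nat_lit 161492) (.g (nat_lit 2853) (.e (nat_lit 57445) (nat_lit 19) (.e (nat_lit 393229) (nat_lit 9) (.e (nat_lit 336194) (nat_lit 12) (.e (nat_lit 385068) (nat_lit 26) (.e (nat_lit 532499) (nat_lit 1) (.e (nat_lit 57849) (nat_lit 252) .nil)))))) (.g (nat_lit 5) .nil .nil))) 
(.lf (nat_lit 161524) (.g (nat_lit 3060) (.e (nat_lit 57445) (nat_lit 19) (.e (nat_lit 393229) (nat_lit 9) (.e (nat_lit 336196) (nat_lit 12) (.e (nat_lit 385066) (nat_lit 26) (.e (nat_lit 532502) (nat_lit 1) (.e (nat_lit 57849) (nat_lit 252) .nil)))))) (.g (nat_lit 6) .nil .nil))))) (.nd (nat_lit 4) (.nd (nat_lit 5) 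
(.lf (nat_lit 161484) (.g (nat_lit 2521) (.e (nat_lit 57445) (nat_lit 19) (.e (nat_lit 393229) (nat_lit 9) (.e (nat_lit 336194) (nat_lit 12) (.e (nat_lit 385066) (nat_lit 26) (.e (nat_lit 532503) (nat_lit 1) (.e (nat_lit 57844) (nat_lit 252) .nil)))))) (.g (nat_lit 4) .nil .nil))) 
(.lf (nat_lit 161516) (.g (nat_lit 4039) (.e (nat_lit 57445) (nat_lit 19) (.e (nat_lit 393229) (nat_lit 9) (.e (nat_lit 336196) (nat_lit 12) (.e (nat_lit 385066) (nat_lit 26) (.e (nat_lit 532499) (nat_lit 1) (.e (nat_lit 57847) (nat_lit 252) .nil)))))) (.g (nat_lit 0) .nil .nil)))) (.nd (nat_lit 5) 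
(.lf (nat_lit 161500) (.g (nat_lit 3719) (.e (nat_lit 57445) (nat_lit 19) (.e (nat_lit 393229) (nat_lit 9) (.e (nat_lit 336194) (nat_lit 12) (.e (nat_lit 385068) (nat_lit 26) (.e (nat_lit 532504) (nat_lit 1) (.e (nat_lit 57854) (nat_lit 252) .nil)))))) (.g (nat_lit 0) .nil .nil))) 
(.lf (nat_lit 161532) (.g (nat_lit 3468) (.e (nat_lit 57445) (nat_lit 19) (.e (nat_lit 393229) (nat_lit 9) (.e (nat_lit 336196) (nat_lit 12) (.e (nat_lit 385066) (nat_lit 26) (.e (nat_lit 532504) (nat_lit 1) (.e (nat_lit 57853) (nat_lit 252) .nil)))))) (.g (nat_lit 6) .nil .nil))))))) (.nd (nat_lit 2) (.nd (nat_lit 3) (.nd (nat_lit 4) (.nd (nat_lit 5) 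
(.lf (nat_lit 161474) (.g (nat_lit 4154) (.e (nat_lit 57445) (nat_lit 19) (.e (nat_lit 393229) (nat_lit 9) (.e (nat_lit 336194) (nat_lit 12) (.e (nat_lit 385066) (nat_lit 26) (.e (nat_lit 532499) (nat_lit 1) (.e (nat_lit 57847) (nat_lit 252) .nil)))))) (.g (nat_lit 0) .nil .nil))) 
(.lf (nat_lit 161506) (.g (nat_lit 3847) (.e (nat_lit 57445) (nat_lit 19) (.e (nat_lit 393229) (nat_lit 9) (.e (nat_lit 336195) (nat_lit 12) (.e (nat_lit 385066) (nat_lit 26) (.e (nat_lit 532503) (nat_lit 1) (.e (nat_lit 57849) (nat_lit 252) .nil)))))) (.g (nat_lit 5) .nil .nil)))) (.nd (nat_lit 5) 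
(.lf (nat_lit 161490) (.g (nat_lit 3523) (.e (nat_lit 57445) (nat_lit 19) (.e (nat_lit 393229) (nat_lit 9) (.e (nat_lit 336194) (nat_lit 12) (.e (nat_lit 385066) (nat_lit 26) (.e (nat_lit 532504) (nat_lit 1) (.e (nat_lit 57854) (nat_lit 252) .nil)))))) (.g (nat_lit 0) .nil .nil))) 
(.lf (nat_lit 161522) (.g (nat_lit 3185) (.e (nat_lit 57445) (nat_lit 19) (.e (nat_lit 393229) (nat_lit 9) (.e (nat_lit 336196) (nat_lit 12) (.e (nat_lit 385066) (nat_lit 26) (.e (nat_lit 532502) (nat_lit 1) (.e (nat_lit 57847) (nat_lit 252) .nil)))))) (.g (nat_lit 6) .nil .nil))))) (.nd (nat_lit 4) (.nd (nat_lit 5) 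
(.lf (nat_lit 161482) (.g (nat_lit 3459) (.e (nat_lit 57445) (nat_lit 19) (.e (nat_lit 393229) (nat_lit 9) (.e (nat_lit 336194) (nat_lit 12) (.e (nat_lit 385066) (nat_lit 26) (.e (nat_lit 532502) (nat_lit 1) (.e (nat_lit 57852) (nat_lit 252) .nil)))))) (.g (nat_lit 0) .nil .nil))) 
(.lf (nat_lit 161514) (.g (nat_lit 2862) (.e (nat_lit 57445) (nat_lit 19) (.e (nat_lit 393229) (nat_lit 9) (.e (nat_lit 336196) (nat_lit 12) (.e (nat_lit 385064) (nat_lit 26) (.e (nat_lit 532503) (nat_lit 1) (.e (nat_lit 57844) (nat_lit 252) .nil)))))) (.g (nat_lit 4) .nil .nil)))) (.nd (nat_lit 5) 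
(.lf (nat_lit 161498) (.g (nat_lit 3958) (.e (nat_lit 57445) (nat_lit 19) (.e (nat_lit 393229) (nat_lit 9) (.e (nat_lit 336194) (nat_lit 12) (.e (nat_lit 385068) (nat_lit 26) (.e (nat_lit 532504) (nat_lit 1) (.e (nat_lit 57852) (nat_lit 252) .nil)))))) (.g (nat_lit 0) .nil .nil))) 
(.lf (nat_lit 161530) (.g (nat_lit 3152) (.e (nat_lit 57445) (nat_lit 19) (.e (nat_lit 393229) (nat_lit 9) (.e (nat_lit 336196) (nat_lit 12) (.e (nat_lit 385066) (nat_lit 26) (.e (nat_lit 532503) (nat_lit 1) (.e (nat_lit 57853) (nat_lit 252) .nil)))))) (.g (nat_lit 5) .nil .nil)))))) (.nd (nat_lit 3) (.nd (nat_lit 4) (.nd (nat_lit 5) 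
(.lf (nat_lit 161478) (.g (nat_lit 3357) (.e (nat_lit 57445) (nat_lit 19) (.e (nat_lit 393229) (nat_lit 9) (.e (nat_lit 336194) (nat_lit 12) (.e (nat_lit 385066) (nat_lit 26) (.e (nat_lit 532502) (nat_lit 1) (.e (nat_lit 57846) (nat_lit 252) .nil)))))) (.g (nat_lit 0) .nil .nil))) 
(.lf (nat_lit 161510) (.g (nat_lit 4246) (.e (nat_lit 57445) (nat_lit 19) (.e (nat_lit 393229) (nat_lit 9) (.e (nat_lit 336195) (nat_lit 12) (.e (nat_lit 385068) (nat_lit 26) (.e (nat_lit 532499) (nat_lit 1) (.e (nat_lit 57847) (nat_lit 252) .nil)))))) (.g (nat_lit 5) .nil .nil)))) (.nd (nat_lit 5) 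
(.lf (nat_lit 161494) (.g (nat_lit 2542) (.e (nat_lit 57445) (nat_lit 19) (.e (nat_lit 393229) (nat_lit 9) (.e (nat_lit 336194) (nat_lit 12) (.e (nat_lit 385068) (nat_lit 26) (.e (nat_lit 532503) (nat_lit 1) (.e (nat_lit 57844) (nat_lit 252) .nil)))))) (.g (nat_lit 4) .nil .nil))) 
(.lf (nat_lit 161526) (.g (nat_lit 3169) (.e (nat_lit 57445) (nat_lit 19) (.e (nat_lit 393229) (nat_lit 9) (.e (nat_lit 336196) (nat_lit 12) (.e (nat_lit 385066) (nat_lit 26) (.e (nat_lit 532502) (nat_lit 1) (.e (nat_lit 57854) (nat_lit 252) .nil)))))) (.g (nat_lit 6) .nil .nil))))) (.nd (nat_lit 4) (.nd (nat_lit 5) 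
(.lf (nat_lit 161486) (.g (nat_lit 3680) (.e (nat_lit 57445) (nat_lit 19) (.e (nat_lit 393229) (nat_lit 9) (.e (nat_lit 336194) (nat_lit 12) (.e (nat_lit 385066) (nat_lit 26) (.e (nat_lit 532503) (nat_lit 1) (.e (nat_lit 57847) (nat_lit 252) .nil)))))) (.g (nat_lit 0) .nil .nil))) 
(.lf (nat_lit 161518) (.g (nat_lit 2476) (.e (nat_lit 57445) (nat_lit 19) (.e (nat_lit 393229) (nat_lit 9) (.e (nat_lit 336196) (nat_lit 12) (.e (nat_lit 385066) (nat_lit 26) (.e (nat_lit 532500) (nat_lit 1) (.e (nat_lit 57851) (nat_lit 252) .nil)))))) (.g (nat_lit 4) .nil .nil)))) (.nd (nat_lit 5) 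
(.lf (nat_lit 161502) (.g (nat_lit 3603) (.e (nat_lit 57445) (nat_lit 19) (.e (nat_lit 393229) (nat_lit 9) (.e (nat_lit 336195) (nat_lit 12) (.e (nat_lit 385066) (nat_lit 26) (.e (nat_lit 532501) (nat_lit 1) (.e (nat_lit 57854) (nat_lit 252) .nil)))))) (.g (nat_lit 5) .nil .nil))) 
(.lf (nat_lit 161534) (.g (nat_lit 4310) (.e (nat_lit 57445) (nat_lit 19) (.e (nat_lit 393229) (nat_lit 9) (.e (nat_lit 336196) (nat_lit 12) (.e (nat_lit 385068) (nat_lit 26) (.e (nat_lit 532499) (nat_lit 1) (.e (nat_lit 57847) (nat_lit 252) .nil)))))) (.g (nat_lit 0) .nil .nil)))))))) (.nd (nat_lit 1) (.nd (nat_lit 2) (.nd (nat_lit 3) (.nd (nat_lit 4) (.nd (nat_lit 5) 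
(.lf (nat_lit 161473) (.g (nat_lit 829) (.e (nat_lit 57445) (nat_lit 19) (.e (nat_lit 393229) (nat_lit 9) (.e (nat_lit 336194) (nat_lit 12) (.e (nat_lit 385066) (nat_lit 26) .nil)))) .nil)) 
(.lf (nat_lit 161505) (.g (nat_lit 3216) (.e (nat_lit 57445) (nat_lit 19) (.e (nat_lit 393229) (nat_lit 9) (.e (nat_lit 336195) (nat_lit 12) (.e (nat_lit 385066) (nat_lit 26) (.e (nat_lit 532503) (nat_lit 1) (.e (nat_lit 57848) (nat_lit 252) .nil)))))) (.g (nat_lit 4) .nil .nil)))) (.nd (nat_lit 5) 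
(.lf (nat_lit 161489) (.g (nat_lit 3548) (.e (nat_lit 57445) (nat_lit 19) (.e (nat_lit 393229) (nat_lit 9) (.e (nat_lit 336194) (nat_lit 12) (.e (nat_lit 385066) (nat_lit 26) (.e (nat_lit 532504) (nat_lit 1) (.e (nat_lit 57853) (nat_lit 252) .nil)))))) (.g (nat_lit 0) .nil .nil))) 
(.lf (nat_lit 161521) (.g (nat_lit 3085) (.e (nat_lit 57445) (nat_lit 19) (.e (nat_lit 393229) (nat_lit 9) (.e (nat_lit 336196) (nat_lit 12) (.e (nat_lit 385066) (nat_lit 26) (.e (nat_lit 532502) (nat_lit 1) (.e (nat_lit 57846) (nat_lit 252) .nil)))))) (.g (nat_lit 6) .nil .nil))))) (.nd (nat_lit 4) (.nd (nat_lit 5) 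
(.lf (nat_lit 161481) (.g (nat_lit 3288) (.e (nat_lit 57445) (nat_lit 19) (.e (nat_lit 393229) (nat_lit 9) (.e (nat_lit 336194) (nat_lit 12) (.e (nat_lit 385066) (nat_lit 26) (.e (nat_lit 532502) (nat_lit 1) (.e (nat_lit 57849) (nat_lit 252) .nil)))))) (.g (nat_lit 0) .nil .nil))) 
(.lf (nat_lit 161513) (.g (nat_lit 3738) (.e (nat_lit 57445) (nat_lit 19) (.e (nat_lit 393229) (nat_lit 9) (.e (nat_lit 336195) (nat_lit 12) (.e (nat_lit 385068) (nat_lit 26) (.e (nat_lit 532503) (nat_lit 1) (.e (nat_lit 57847) (nat_lit 252) .nil)))))) (.g (nat_lit 5) .nil .nil)))) (.nd (nat_lit 5) 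
(.lf (nat_lit 161497) (.g (nat_lit 2145) (.e (nat_lit 57445) (nat_lit 19) (.e (nat_lit 393229) (nat_lit 9) (.e (nat_lit 336194) (nat_lit 12) (.e (nat_lit 385068) (nat_lit 26) (.e (nat_lit 532503) (nat_lit 1) (.e (nat_lit 57849) (nat_lit 252) .nil)))))) (.g (nat_lit 4) .nil .nil))) 
(.lf (nat_lit 161529) (.g (nat_lit 3374) (.e (nat_lit 57445) (nat_lit 19) (.e (nat_lit 393229) (nat_lit 9) (.e (nat_lit 336196) (nat_lit 12) (.e (nat_lit 385066) (nat_lit 26) (.e (nat_lit 532503) (nat_lit 1) (.e (nat_lit 57849) (nat_lit 252) .nil)))))) (.g (nat_lit 0) .nil .nil)))))) (.nd (nat_lit 3) (.nd (nat_lit 4) (.nd (nat_lit 5) 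
(.lf (nat_lit 161477) (.g (nat_lit 3429) (.e (nat_lit 57445) (nat_lit 19) (.e (nat_lit 393229) (nat_lit 9) (.e (nat_lit 336194) (nat_lit 12) (.e (nat_lit 385066) (nat_lit 26) (.e (nat_lit 532501) (nat_lit 1) (.e (nat_lit 57854) (nat_lit 252) .nil)))))) (.g (nat_lit 0) .nil .nil))) 
(.lf (nat_lit 161509) (.g (nat_lit 3420) (.e (nat_lit 57445) (nat_lit 19) (.e (nat_lit 393229) (nat_lit 9) (.e (nat_lit 336195) (nat_lit 12) (.e (nat_lit 385067) (nat_lit 26) (.e (nat_lit 532504) (nat_lit 1) (.e (nat_lit 57851) (nat_lit 252) .nil)))))) (.g (nat_lit 6) .nil .nil)))) (.nd (nat_lit 5) 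
(.lf (nat_lit 161493) (.g (nat_lit 3737) (.e (nat_lit 57445) (nat_lit 19) (.e (nat_lit 393229) (nat_lit 9) (.e (nat_lit 336194) (nat_lit 12) (.e (nat_lit 385068) (nat_lit 26) (.e (nat_lit 532501) (nat_lit 1) (.e (nat_lit 57854) (nat_lit 252) .nil)))))) (.g (nat_lit 0) .nil .nil))) 
(.lf (nat_lit 161525) (.g (nat_lit 3182) (.e (nat_lit 57445) (nat_lit 19) (.e (nat_lit 393229) (nat_lit 9) (.e (nat_lit 336196) (nat_lit 12) (.e (nat_lit 385066) (nat_lit 26) (.e (nat_lit 532502) (nat_lit 1) (.e (nat_lit 57852) (nat_lit 252) .nil)))))) (.g (nat_lit 6) .nil .nil))))) (.nd (nat_lit 4) (.nd (nat_lit 5) 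
(.lf (nat_lit 161485) (.g (nat_lit 3629) (.e (nat_lit 57445) (nat_lit 19) (.e (nat_lit 393229) (nat_lit 9) (.e (nat_lit 336194) (nat_lit 12) (.e (nat_lit 385066) (nat_lit 26) (.e (nat_lit 532503) (nat_lit 1) (.e (nat_lit 57846) (nat_lit 252) .nil)))))) (.g (nat_lit 0) .nil .nil))) 
(.lf (nat_lit 161517) (.g (nat_lit 3517) (.e (nat_lit 57445) (nat_lit 19) (.e (nat_lit 393229) (nat_lit 9) (.e (nat_lit 336196) (nat_lit 12) (.e (nat_lit 385066) (nat_lit 26) (.e (nat_lit 532499) (nat_lit 1) (.e (nat_lit 57849) (nat_lit 252) .nil)))))) (.g (nat_lit 0) .nil .nil)))) (.nd (nat_lit 5) 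
(.lf (nat_lit 161501) (.g (nat_lit 3744) (.e (nat_lit 57445) (nat_lit 19) (.e (nat_lit 393229) (nat_lit 9) (.e (nat_lit 336195) (nat_lit 12) (.e (nat_lit 385066) (nat_lit 26) (.e (nat_lit 532499) (nat_lit 1) (.e (nat_lit 57854) (nat_lit 252) .nil)))))) (.g (nat_lit 5) .nil .nil))) 
(.lf (nat_lit 161533) (.g (nat_lit 3458) (.e (nat_lit 57445) (nat_lit 19) (.e (nat_lit 393229) (nat_lit 9) (.e (nat_lit 336196) (nat_lit 12) (.e (nat_lit 385066) (nat_lit 26) (.e (nat_lit 532504) (nat_lit 1) (.e (nat_lit 57854) (nat_lit 252) .nil)))))) (.g (nat_lit 0) .nil .nil))))))) (.nd (nat_lit 2) (.nd (nat_lit 3) (.nd (nat_lit 4) (.nd (nat_lit 5) 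
(.lf (nat_lit 161475) (.g (nat_lit 3634) (.e (nat_lit 57445) (nat_lit 19) (.e (nat_lit 393229) (nat_lit 9) (.e (nat_lit 336194) (nat_lit 12) (.e (nat_lit 385066) (nat_lit 26) (.e (nat_lit 532499) (nat_lit 1) (.e (nat_lit 57849) (nat_lit 252) .nil)))))) (.g (nat_lit 0) .nil .nil))) 
(.lf (nat_lit 161507) (.g (nat_lit 3687) (.e (nat_lit 57445) (nat_lit 19) (.e (nat_lit 393229) (nat_lit 9) (.e (nat_lit 336195) (nat_lit 12) (.e (nat_lit 385066) (nat_lit 26) (.e (nat_lit 532504) (nat_lit 1) (.e (nat_lit 57854) (nat_lit 252) .nil)))))) (.g (nat_lit 5) .nil .nil)))) (.nd (nat_lit 5) 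
(.lf (nat_lit 161491) (.g (nat_lit 4180) (.e (nat_lit 57445) (nat_lit 19) (.e (nat_lit 393229) (nat_lit 9) (.e (nat_lit 336194) (nat_lit 12) (.e (nat_lit 385068) (nat_lit 26) (.e (nat_lit 532499) (nat_lit 1) (.e (nat_lit 57847) (nat_lit 252) .nil)))))) (.g (nat_lit 0) .nil .nil))) 
(.lf (nat_lit 161523) (.g (nat_lit 2182) (.e (nat_lit 57445) (nat_lit 19) (.e (nat_lit 393229) (nat_lit 9) (.e (nat_lit 336196) (nat_lit 12) (.e (nat_lit 385066) (nat_lit 26) (.e (nat_lit 532502) (nat_lit 1) (.e (nat_lit 57848) (nat_lit 252) .nil)))))) (.g (nat_lit 4) .nil .nil))))) (.nd (nat_lit 4) (.nd (nat_lit 5) 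
(.lf (nat_lit 161483) (.g (nat_lit 3455) (.e (nat_lit 57445) (nat_lit 19) (.e (nat_lit 393229) (nat_lit 9) (.e (nat_lit 336194) (nat_lit 12) (.e (nat_lit 385066) (nat_lit 26) (.e (nat_lit 532502) (nat_lit 1) (.e (nat_lit 57854) (nat_lit 252) .nil)))))) (.g (nat_lit 0) .nil .nil))) 
(.lf (nat_lit 161515) (.g (nat_lit 3258) (.e (nat_lit 57445) (nat_lit 19) (.e (nat_lit 393229) (nat_lit 9) (.e (nat_lit 336196) (nat_lit 12) (.e (nat_lit 385064) (nat_lit 26) (.e (nat_lit 532503) (nat_lit 1) (.e (nat_lit 57848) (nat_lit 252) .nil)))))) (.g (nat_lit 0) .nil .nil)))) (.nd (nat_lit 5) 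
(.lf (nat_lit 161499) (.g (nat_lit 3738) (.e (nat_lit 57445) (nat_lit 19) (.e (nat_lit 393229) (nat_lit 9) (.e (nat_lit 336194) (nat_lit 12) (.e (nat_lit 385068) (nat_lit 26) (.e (nat_lit 532504) (nat_lit 1) (.e (nat_lit 57853) (nat_lit 252) .nil)))))) (.g (nat_lit 0) .nil .nil))) 
(.lf (nat_lit 161531) (.g (nat_lit 2709) (.e (nat_lit 57445) (nat_lit 19) (.e (nat_lit 393229) (nat_lit 9) (.e (nat_lit 336196) (nat_lit 12) (.e (nat_lit 385066) (nat_lit 26) (.e (nat_lit 532504) (nat_lit 1) (.e (nat_lit 57851) (nat_lit 252) .nil)))))) (.g (nat_lit 5) .nil .nil)))))) (.nd (nat_lit 3) (.nd (nat_lit 4) (.nd (nat_lit 5) 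
(.lf (nat_lit 161479) (.g (nat_lit 3461) (.e (nat_lit 57445) (nat_lit 19) (.e (nat_lit 393229) (nat_lit 9) (.e (nat_lit 336194) (nat_lit 12) (.e (nat_lit 385066) (nat_lit 26) (.e (nat_lit 532502) (nat_lit 1) (.e (nat_lit 57847) (nat_lit 252) .nil)))))) (.g (nat_lit 0) .nil .nil))) 
(.lf (nat_lit 161511) (.g (nat_lit 3721) (.e (nat_lit 57445) (nat_lit 19) (.e (nat_lit 393229) (nat_lit 9) (.e (nat_lit 336195) (nat_lit 12) (.e (nat_lit 385068) (nat_lit 26) (.e (nat_lit 532499) (nat_lit 1) (.e (nat_lit 57849) (nat_lit 252) .nil)))))) (.g (nat_lit 4) .nil .nil)))) (.nd (nat_lit 5) 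
(.lf (nat_lit 161495) (.g (nat_lit 3797) (.e (nat_lit 57445) (nat_lit 19) (.e (nat_lit 393229) (nat_lit 9) (.e (nat_lit 336194) (nat_lit 12) (.e (nat_lit 385068) (nat_lit 26) (.e (nat_lit 532503) (nat_lit 1) (.e (nat_lit 57847) (nat_lit 252) .nil)))))) (.g (nat_lit 0) .nil .nil))) 
(.lf (nat_lit 161527) (.g (nat_lit 3610) (.e (nat_lit 57445) (nat_lit 19) (.e (nat_lit 393229) (nat_lit 9) (.e (nat_lit 336196) (nat_lit 12) (.e (nat_lit 385066) (nat_lit 26) (.e (nat_lit 532503) (nat_lit 1) (.e (nat_lit 57847) (nat_lit 252) .nil)))))) (.g (nat_lit 0) .nil .nil))))) (.nd (nat_lit 4) (.nd (nat_lit 5) 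
(.lf (nat_lit 161487) (.g (nat_lit 3479) (.e (nat_lit 57445) (nat_lit 19) (.e (nat_lit 393229) (nat_lit 9) (.e (nat_lit 336194) (nat_lit 12) (.e (nat_lit 385066) (nat_lit 26) (.e (nat_lit 532503) (nat_lit 1) (.e (nat_lit 57848) (nat_lit 252) .nil)))))) (.g (nat_lit 0) .nil .nil))) 
(.lf (nat_lit 161519) (.g (nat_lit 2706) (.e (nat_lit 57445) (nat_lit 19) (.e (nat_lit 393229) (nat_lit 9) (.e (nat_lit 336196) (nat_lit 12) (.e (nat_lit 385066) (nat_lit 26) (.e (nat_lit 532501) (nat_lit 1) (.e (nat_lit 57851) (nat_lit 252) .nil)))))) (.g (nat_lit 5) .nil .nil)))) (.nd (nat_lit 5) 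
(.lf (nat_lit 161503) (.g (nat_lit 3298) (.e (nat_lit 57445) (nat_lit 19) (.e (nat_lit 393229) (nat_lit 9) (.e (nat_lit 336195) (nat_lit 12) (.e (nat_lit 385066) (nat_lit 26) (.e (nat_lit 532502) (nat_lit 1) (.e (nat_lit 57854) (nat_lit 252) .nil)))))) (.g (nat_lit 4) .nil .nil))) 
(.lf (nat_lit 161535) (.g (nat_lit 3380) (.e (nat_lit 57445) (nat_lit 19) (.e (nat_lit 393229) (nat_lit 9) (.e (nat_lit 336196) (nat_lit 12) (.e (nat_lit 385068) (nat_lit 26) (.e (nat_lit 532499) (nat_lit 1) (.e (nat_lit 57849) (nat_lit 252) .nil)))))) (.g (nat_lit 5) .nil .nil)))))))))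

noncomputable def tv2164 : DT := (.nd (nat_lit 0) (.nd (nat_lit 1) (.nd (nat_lit 2) (.nd (nat_lit 3) (.nd (nat_lit 4) (.nd (nat_lit 5) 
(.lf (nat_lit 161536) (.g (nat_lit 3359) (.e (nat_lit 57445) (nat_lit 19) (.e (nat_lit 393229) (nat_lit 9) (.e (nat_lit 336196) (nat_lit 12) (.e (nat_lit 385068) (nat_lit 26) (.e (nat_lit 532501) (nat_lit 1) (.e (nat_lit 57851) (nat_lit 252) .nil)))))) (.g (nat_lit 5) .nil .nil))) 
(.lf (nat_lit 161568) (.g (nat_lit 4203) (.e (nat_lit 57445) (nat_lit 19) (.e (nat_lit 393229) (nat_lit 9) (.e (nat_lit 336202) (nat_lit 12) (.e (nat_lit 385068) (nat_lit 26) (.e (nat_lit 532499) (nat_lit 1) (.e (nat_lit 57847) (nat_lit 252) .nil)))))) (.g (nat_lit 0) .nil .nil)))) (.nd (nat_lit 5) 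
(.lf (nat_lit 161552) (.g (nat_lit 892) (.e (nat_lit 57445) (nat_lit 19) (.e (nat_lit 393229) (nat_lit 9) (.e (nat_lit 336202) (nat_lit 12) (.e (nat_lit 385065) (nat_lit 26) .nil)))) .nil)) 
(.lf (nat_lit 161584) (.g (nat_lit 3492) (.e (nat_lit 57445) (nat_lit 19) (.e (nat_lit 393229) (nat_lit 9) (.e (nat_lit 336203) (nat_lit 12) (.e (nat_lit 385065) (nat_lit 26) (.e (nat_lit 532499) (nat_lit 1) (.e (nat_lit 57849) (nat_lit 252) .nil)))))) (.g (nat_lit 0) .nil .nil))))) (.nd (nat_lit 4) (.nd (nat_lit 5) 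
(.lf (nat_lit 161544) (.g (nat_lit 3853) (.e (nat_lit 57445) (nat_lit 19) (.e (nat_lit 393229) (nat_lit 9) (.e (nat_lit 336201) (nat_lit 12) (.e (nat_lit 385068) (nat_lit 26) (.e (nat_lit 532499) (nat_lit 1) (.e (nat_lit 57849) (nat_lit 252) .nil)))))) (.g (nat_lit 5) .nil .nil))) 
(.lf (nat_lit 161576) (.g (nat_lit 1625) (.e (nat_lit 57445) (nat_lit 19) (.e (nat_lit 393229) (nat_lit 9) (.e (nat_lit 336203) (nat_lit 12) (.e (nat_lit 385058) (nat_lit 22) .nil)))) .nil))) (.nd (nat_lit 5) 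
(.lf (nat_lit 161560) (.g (nat_lit 3391) (.e (nat_lit 57445) (nat_lit 19) (.e (nat_lit 393229) (nat_lit 9) (.e (nat_lit 336202) (nat_lit 12) (.e (nat_lit 385066) (nat_lit 26) (.e (nat_lit 532502) (nat_lit 1) (.e (nat_lit 57852) (nat_lit 252) .nil)))))) (.g (nat_lit 6) .nil .nil))) 
(.lf (nat_lit 161592) (.g (nat_lit 2478) (.e (nat_lit 57445) (nat_lit 19) (.e (nat_lit 393229) (nat_lit 9) (.e (nat_lit 336203) (nat_lit 12) (.e (nat_lit 385065) (nat_lit 26) (.e (nat_lit 532503) (nat_lit 1) (.e (nat_lit 57848) (nat_lit 252) .nil)))))) (.g (nat_lit 4) .nil .nil)))))) (.nd (nat_lit 3) (.nd (nat_lit 4) (.nd (nat_lit 5) 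
(.lf (nat_lit 161540) (.g (nat_lit 3097) (.e (nat_lit 57445) (nat_lit 19) (.e (nat_lit 393229) (nat_lit 9) (.e (nat_lit 336196) (nat_lit 12) (.e (nat_lit 385068) (nat_lit 26) (.e (nat_lit 532504) (nat_lit 1) (.e (nat_lit 57851) (nat_lit 252) .nil)))))) (.g (nat_lit 5) .nil .nil))) 
(.lf (nat_lit 161572) (.g (nat_lit 3946) (.e (nat_lit 57445) (nat_lit 19) (.e (nat_lit 393229) (nat_lit 9) (.e (nat_lit 336202) (nat_lit 12) (.e (nat_lit 385068) (nat_lit 26) (.e (nat_lit 532504) (nat_lit 1) (.e (nat_lit 57852) (nat_lit 252) .nil)))))) (.g (nat_lit 0) .nil .nil)))) (.nd (nat_lit 5) 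
(.lf (nat_lit 161556) (.g (nat_lit 3688) (.e (nat_lit 57445) (nat_lit 19) (.e (nat_lit 393229) (nat_lit 9) (.e (nat_lit 336202) (nat_lit 12) (.e (nat_lit 385066) (nat_lit 26) (.e (nat_lit 532499) (nat_lit 1) (.e (nat_lit 57849) (nat_lit 252) .nil)))))) (.g (nat_lit 0) .nil .nil))) 
(.lf (nat_lit 161588) (.g (nat_lit 2383) (.e (nat_lit 57445) (nat_lit 19) (.e (nat_lit 393229) (nat_lit 9) (.e (nat_lit 336203) (nat_lit 12) (.e (nat_lit 385065) (nat_lit 26) (.e (nat_lit 532502) (nat_lit 1) (.e (nat_lit 57852) (nat_lit 252) .nil)))))) (.g (nat_lit 5) .nil .nil))))) (.nd (nat_lit 4) (.nd (nat_lit 5) 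
(.lf (nat_lit 161548) (.g (nat_lit 4035) (.e (nat_lit 57445) (nat_lit 19) (.e (nat_lit 393229) (nat_lit 9) (.e (nat_lit 336201) (nat_lit 12) (.e (nat_lit 385068) (nat_lit 26) (.e (nat_lit 532504) (nat_lit 1) (.e (nat_lit 57852) (nat_lit 252) .nil)))))) (.g (nat_lit 0) .nil .nil))) 
(.lf (nat_lit 161580) (.g (nat_lit 3430) (.e (nat_lit 57445) (nat_lit 19) (.e (nat_lit 393229) (nat_lit 9) (.e (nat_lit 336203) (nat_lit 12) (.e (nat_lit 385064) (nat_lit 26) (.e (nat_lit 532503) (nat_lit 1) (.e (nat_lit 57847) (nat_lit 252) .nil)))))) (.g (nat_lit 6) .nil .nil)))) (.nd (nat_lit 5) 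
(.lf (nat_lit 161564) (.g (nat_lit 2770) (.e (nat_lit 57445) (nat_lit 19) (.e (nat_lit 393229) (nat_lit 9) (.e (nat_lit 336202) (nat_lit 12) (.e (nat_lit 385066) (nat_lit 26) (.e (nat_lit 532503) (nat_lit 1) (.e (nat_lit 57848) (nat_lit 252) .nil)))))) (.g (nat_lit 4) .nil .nil))) 
(.lf (nat_lit 161596) (.g (nat_lit 4032) (.e (nat_lit 57445) (nat_lit 19) (.e (nat_lit 393229) (nat_lit 9) (.e (nat_lit 336203) (nat_lit 12) (.e (nat_lit 385066) (nat_lit 26) (.e (nat_lit 532499) (nat_lit 1) (.e (nat_lit 57847) (nat_lit 252) .nil)))))) (.g (nat_lit 0) .nil .nil))))))) (.nd (nat_lit 2) (.nd (nat_lit 3) (.nd (nat_lit 4) (.nd (nat_lit 5) 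
(.lf (nat_lit 161538) (.g (nat_lit 2909) (.e (nat_lit 57445) (nat_lit 19) (.e (nat_lit 393229) (nat_lit 9) (.e (nat_lit 336196) (nat_lit 12) (.e (nat_lit 385068) (nat_lit 26) (.e (nat_lit 532503) (nat_lit 1) (.e (nat_lit 57844) (nat_lit 252) .nil)))))) (.g (nat_lit 4) .nil .nil))) 
(.lf (nat_lit 161570) (.g (nat_lit 2507) (.e (nat_lit 57445) (nat_lit 19) (.e (nat_lit 393229) (nat_lit 9) (.e (nat_lit 336202) (nat_lit 12) (.e (nat_lit 385068) (nat_lit 26) (.e (nat_lit 532503) (nat_lit 1) (.e (nat_lit 57846) (nat_lit 252) .nil)))))) (.g (nat_lit 4) .nil .nil)))) (.nd (nat_lit 5) 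
(.lf (nat_lit 161554) (.g (nat_lit 2449) (.e (nat_lit 57445) (nat_lit 19) (.e (nat_lit 393229) (nat_lit 9) (.e (nat_lit 336202) (nat_lit 12) (.e (nat_lit 385065) (nat_lit 26) (.e (nat_lit 532501) (nat_lit 1) (.e (nat_lit 57854) (nat_lit 252) .nil)))))) (.g (nat_lit 4) .nil .nil))) 
(.lf (nat_lit 161586) (.g (nat_lit 2073) (.e (nat_lit 57445) (nat_lit 19) (.e (nat_lit 393229) (nat_lit 9) (.e (nat_lit 336203) (nat_lit 12) (.e (nat_lit 385065) (nat_lit 26) (.e (nat_lit 532502) (nat_lit 1) (.e (nat_lit 57847) (nat_lit 252) .nil)))))) (.g (nat_lit 4) .nil .nil))))) (.nd (nat_lit 4) (.nd (nat_lit 5) 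
(.lf (nat_lit 161546) (.g (nat_lit 3154) (.e (nat_lit 57445) (nat_lit 19) (.e (nat_lit 393229) (nat_lit 9) (.e (nat_lit 336201) (nat_lit 12) (.e (nat_lit 385068) (nat_lit 26) (.e (nat_lit 532503) (nat_lit 1) (.e (nat_lit 57844) (nat_lit 252) .nil)))))) (.g (nat_lit 4) .nil .nil))) 
(.lf (nat_lit 161578) (.g (nat_lit 1682) (.e (nat_lit 57445) (nat_lit 19) (.e (nat_lit 393229) (nat_lit 9) (.e (nat_lit 336203) (nat_lit 12) (.e (nat_lit 385061) (nat_lit 22) .nil)))) .nil))) (.nd (nat_lit 5) 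
(.lf (nat_lit 161562) (.g (nat_lit 3370) (.e (nat_lit 57445) (nat_lit 19) (.e (nat_lit 393229) (nat_lit 9) (.e (nat_lit 336202) (nat_lit 12) (.e (nat_lit 385066) (nat_lit 26) (.e (nat_lit 532502) (nat_lit 1) (.e (nat_lit 57854) (nat_lit 252) .nil)))))) (.g (nat_lit 6) .nil .nil))) 
(.lf (nat_lit 161594) (.g (nat_lit 2658) (.e (nat_lit 57445) (nat_lit 19) (.e (nat_lit 393229) (nat_lit 9) (.e (nat_lit 336203) (nat_lit 12) (.e (nat_lit 385065) (nat_lit 26) (.e (nat_lit 532504) (nat_lit 1) (.e (nat_lit 57852) (nat_lit 252) .nil)))))) (.g (nat_lit 5) .nil .nil)))))) (.nd (nat_lit 3) (.nd (nat_lit 4) (.nd (nat_lit 5) 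
(.lf (nat_lit 161542) (.g (nat_lit 3818) (.e (nat_lit 57445) (nat_lit 19) (.e (nat_lit 393229) (nat_lit 9) (.e (nat_lit 336196) (nat_lit 12) (.e (nat_lit 385068) (nat_lit 26) (.e (nat_lit 532504) (nat_lit 1) (.e (nat_lit 57854) (nat_lit 252) .nil)))))) (.g (nat_lit 0) .nil .nil))) 
(.lf (nat_lit 161574) (.g (nat_lit 3692) (.e (nat_lit 57445) (nat_lit 19) (.e (nat_lit 393229) (nat_lit 9) (.e (nat_lit 336202) (nat_lit 12) (.e (nat_lit 385068) (nat_lit 26) (.e (nat_lit 532504) (nat_lit 1) (.e (nat_lit 57854) (nat_lit 252) .nil)))))) (.g (nat_lit 0) .nil .nil)))) (.nd (nat_lit 5) 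
(.lf (nat_lit 161558) (.g (nat_lit 3663) (.e (nat_lit 57445) (nat_lit 19) (.e (nat_lit 393229) (nat_lit 9) (.e (nat_lit 336202) (nat_lit 12) (.e (nat_lit 385066) (nat_lit 26) (.e (nat_lit 532499) (nat_lit 1) (.e (nat_lit 57854) (nat_lit 252) .nil)))))) (.g (nat_lit 6) .nil .nil))) 
(.lf (nat_lit 161590) (.g (nat_lit 2039) (.e (nat_lit 57445) (nat_lit 19) (.e (nat_lit 393229) (nat_lit 9) (.e (nat_lit 336203) (nat_lit 12) (.e (nat_lit 385065) (nat_lit 26) (.e (nat_lit 532503) (nat_lit 1) (.e (nat_lit 57846) (nat_lit 252) .nil)))))) (.g (nat_lit 4) .nil .nil))))) (.nd (nat_lit 4) (.nd (nat_lit 5) 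
(.lf (nat_lit 161550) (.g (nat_lit 2833) (.e (nat_lit 57445) (nat_lit 19) (.e (nat_lit 393229) (nat_lit 9) (.e (nat_lit 336202) (nat_lit 12) (.e (nat_lit 385064) (nat_lit 26) (.e (nat_lit 532503) (nat_lit 1) (.e (nat_lit 57847) (nat_lit 252) .nil)))))) (.g (nat_lit 5) .nil .nil))) 
(.lf (nat_lit 161582) (.g (nat_lit 1207) (.e (nat_lit 57445) (nat_lit 19) (.e (nat_lit 393229) (nat_lit 9) (.e (nat_lit 336203) (nat_lit 12) (.e (nat_lit 385065) (nat_lit 26) .nil)))) .nil))) (.nd (nat_lit 5) 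
(.lf (nat_lit 161566) (.g (nat_lit 3592) (.e (nat_lit 57445) (nat_lit 19) (.e (nat_lit 393229) (nat_lit 9) (.e (nat_lit 336202) (nat_lit 12) (.e (nat_lit 385066) (nat_lit 26) (.e (nat_lit 532504) (nat_lit 1) (.e (nat_lit 57853) (nat_lit 252) .nil)))))) (.g (nat_lit 5) .nil .nil))) 
(.lf (nat_lit 161598) (.g (nat_lit 3339) (.e (nat_lit 57445) (nat_lit 19) (.e (nat_lit 393229) (nat_lit 9) (.e (nat_lit 336203) (nat_lit 12) (.e (nat_lit 385066) (nat_lit 26) (.e (nat_lit 532501) (nat_lit 1) (.e (nat_lit 57854) (nat_lit 252) .nil)))))) (.g (nat_lit 0) .nil .nil)))))))) (.nd (nat_lit 1) (.nd (nat_lit 2) (.nd (nat_lit 3) (.nd (nat_lit 4) (.nd (nat_lit 5) 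
(.lf (nat_lit 161537) (.g (nat_lit 3822) (.e (nat_lit 57445) (nat_lit 19) (.e (nat_lit 393229) (nat_lit 9) (.e (nat_lit 336196) (nat_lit 12) (.e (nat_lit 385068) (nat_lit 26) (.e (nat_lit 532501) (nat_lit 1) (.e (nat_lit 57854) (nat_lit 252) .nil)))))) (.g (nat_lit 0) .nil .nil))) 
(.lf (nat_lit 161569) (.g (nat_lit 3270) (.e (nat_lit 57445) (nat_lit 19) (.e (nat_lit 393229) (nat_lit 9) (.e (nat_lit 336202) (nat_lit 12) (.e (nat_lit 385068) (nat_lit 26) (.e (nat_lit 532499) (nat_lit 1) (.e (nat_lit 57849) (nat_lit 252) .nil)))))) (.g (nat_lit 5) .nil .nil)))) (.nd (nat_lit 5) 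
(.lf (nat_lit 161553) (.g (nat_lit 2331) (.e (nat_lit 57445) (nat_lit 19) (.e (nat_lit 393229) (nat_lit 9) (.e (nat_lit 336202) (nat_lit 12) (.e (nat_lit 385065) (nat_lit 26) (.e (nat_lit 532499) (nat_lit 1) (.e (nat_lit 57849) (nat_lit 252) .nil)))))) (.g (nat_lit 4) .nil .nil))) 
(.lf (nat_lit 161585) (.g (nat_lit 2946) (.e (nat_lit 57445) (nat_lit 19) (.e (nat_lit 393229) (nat_lit 9) (.e (nat_lit 336203) (nat_lit 12) (.e (nat_lit 385065) (nat_lit 26) (.e (nat_lit 532499) (nat_lit 1) (.e (nat_lit 57854) (nat_lit 252) .nil)))))) (.g (nat_lit 5) .nil .nil))))) (.nd (nat_lit 4) (.nd (nat_lit 5) 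
(.lf (nat_lit 161545) (.g (nat_lit 2994) (.e (nat_lit 57445) (nat_lit 19) (.e (nat_lit 393229) (nat_lit 9) (.e (nat_lit 336201) (nat_lit 12) (.e (nat_lit 385068) (nat_lit 26) (.e (nat_lit 532501) (nat_lit 1) (.e (nat_lit 57851) (nat_lit 252) .nil)))))) (.g (nat_lit 5) .nil .nil))) 
(.lf (nat_lit 161577) (.g (nat_lit 1427) (.e (nat_lit 57445) (nat_lit 19) (.e (nat_lit 393229) (nat_lit 9) (.e (nat_lit 336203) (nat_lit 12) (.e (nat_lit 385059) (nat_lit 22) .nil)))) .nil))) (.nd (nat_lit 5) 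
(.lf (nat_lit 161561) (.g (nat_lit 3396) (.e (nat_lit 57445) (nat_lit 19) (.e (nat_lit 393229) (nat_lit 9) (.e (nat_lit 336202) (nat_lit 12) (.e (nat_lit 385066) (nat_lit 26) (.e (nat_lit 532502) (nat_lit 1) (.e (nat_lit 57853) (nat_lit 252) .nil)))))) (.g (nat_lit 5) .nil .nil))) 
(.lf (nat_lit 161593) (.g (nat_lit 2076) (.e (nat_lit 57445) (nat_lit 19) (.e (nat_lit 393229) (nat_lit 9) (.e (nat_lit 336203) (nat_lit 12) (.e (nat_lit 385065) (nat_lit 26) (.e (nat_lit 532503) (nat_lit 1) (.e (nat_lit 57849) (nat_lit 252) .nil)))))) (.g (nat_lit 4) .nil .nil)))))) (.nd (nat_lit 3) (.nd (nat_lit 4) (.nd (nat_lit 5) 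
(.lf (nat_lit 161541) (.g (nat_lit 4006) (.e (nat_lit 57445) (nat_lit 19) (.e (nat_lit 393229) (nat_lit 9) (.e (nat_lit 336196) (nat_lit 12) (.e (nat_lit 385068) (nat_lit 26) (.e (nat_lit 532504) (nat_lit 1) (.e (nat_lit 57852) (nat_lit 252) .nil)))))) (.g (nat_lit 0) .nil .nil))) 
(.lf (nat_lit 161573) (.g (nat_lit 3854) (.e (nat_lit 57445) (nat_lit 19) (.e (nat_lit 393229) (nat_lit 9) (.e (nat_lit 336202) (nat_lit 12) (.e (nat_lit 385068) (nat_lit 26) (.e (nat_lit 532504) (nat_lit 1) (.e (nat_lit 57853) (nat_lit 252) .nil)))))) (.g (nat_lit 6) .nil .nil)))) (.nd (nat_lit 5) 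
(.lf (nat_lit 161557) (.g (nat_lit 3714) (.e (nat_lit 57445) (nat_lit 19) (.e (nat_lit 393229) (nat_lit 9) (.e (nat_lit 336202) (nat_lit 12) (.e (nat_lit 385066) (nat_lit 26) (.e (nat_lit 532499) (nat_lit 1) (.e (nat_lit 57853) (nat_lit 252) .nil)))))) (.g (nat_lit 5) .nil .nil))) 
(.lf (nat_lit 161589) (.g (nat_lit 2171) (.e (nat_lit 57445) (nat_lit 19) (.e (nat_lit 393229) (nat_lit 9) (.e (nat_lit 336203) (nat_lit 12) (.e (nat_lit 385065) (nat_lit 26) (.e (nat_lit 532502) (nat_lit 1) (.e (nat_lit 57854) (nat_lit 252) .nil)))))) (.g (nat_lit 4) .nil .nil))))) (.nd (nat_lit 4) (.nd (nat_lit 5) 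
(.lf (nat_lit 161549) (.g (nat_lit 3858) (.e (nat_lit 57445) (nat_lit 19) (.e (nat_lit 393229) (nat_lit 9) (.e (nat_lit 336201) (nat_lit 12) (.e (nat_lit 385068) (nat_lit 26) (.e (nat_lit 532504) (nat_lit 1) (.e (nat_lit 57853) (nat_lit 252) .nil)))))) (.g (nat_lit 6) .nil .nil))) 
(.lf (nat_lit 161581) (.g (nat_lit 3369) (.e (nat_lit 57445) (nat_lit 19) (.e (nat_lit 393229) (nat_lit 9) (.e (nat_lit 336203) (nat_lit 12) (.e (nat_lit 385064) (nat_lit 26) (.e (nat_lit 532503) (nat_lit 1) (.e (nat_lit 57848) (nat_lit 252) .nil)))))) (.g (nat_lit 6) .nil .nil)))) (.nd (nat_lit 5) 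
(.lf (nat_lit 161565) (.g (nat_lit 3424) (.e (nat_lit 57445) (nat_lit 19) (.e (nat_lit 393229) (nat_lit 9) (.e (nat_lit 336202) (nat_lit 12) (.e (nat_lit 385066) (nat_lit 26) (.e (nat_lit 532503) (nat_lit 1) (.e (nat_lit 57849) (nat_lit 252) .nil)))))) (.g (nat_lit 6) .nil .nil))) 
(.lf (nat_lit 161597) (.g (nat_lit 3510) (.e (nat_lit 57445) (nat_lit 19) (.e (nat_lit 393229) (nat_lit 9) (.e (nat_lit 336203) (nat_lit 12) (.e (nat_lit 385066) (nat_lit 26) (.e (nat_lit 532499) (nat_lit 1) (.e (nat_lit 57849) (nat_lit 252) .nil)))))) (.g (nat_lit 0) .nil .nil))))))) (.nd (nat_lit 2) (.nd (nat_lit 3) (.nd (nat_lit 4) (.nd (nat_lit 5) 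
(.lf (nat_lit 161539) (.g (nat_lit 3753) (.e (nat_lit 57445) (nat_lit 19) (.e (nat_lit 393229) (nat_lit 9) (.e (nat_lit 336196) (nat_lit 12) (.e (nat_lit 385068) (nat_lit 26) (.e (nat_lit 532503) (nat_lit 1) (.e (nat_lit 57848) (nat_lit 252) .nil)))))) (.g (nat_lit 6) .nil .nil))) 
(.lf (nat_lit 161571) (.g (nat_lit 3473) (.e (nat_lit 57445) (nat_lit 19) (.e (nat_lit 393229) (nat_lit 9) (.e (nat_lit 336202) (nat_lit 12) (.e (nat_lit 385068) (nat_lit 26) (.e (nat_lit 532503) (nat_lit 1) (.e (nat_lit 57848) (nat_lit 252) .nil)))))) (.g (nat_lit 5) .nil .nil)))) (.nd (nat_lit 5) 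
(.lf (nat_lit 161555) (.g (nat_lit 4206) (.e (nat_lit 57445) (nat_lit 19) (.e (nat_lit 393229) (nat_lit 9) (.e (nat_lit 336202) (nat_lit 12) (.e (nat_lit 385066) (nat_lit 26) (.e (nat_lit 532499) (nat_lit 1) (.e (nat_lit 57847) (nat_lit 252) .nil)))))) (.g (nat_lit 0) .nil .nil))) 
(.lf (nat_lit 161587) (.g (nat_lit 1733) (.e (nat_lit 57445) (nat_lit 19) (.e (nat_lit 393229) (nat_lit 9) (.e (nat_lit 336203) (nat_lit 12) (.e (nat_lit 385065) (nat_lit 26) (.e (nat_lit 532502) (nat_lit 1) (.e (nat_lit 57849) (nat_lit 252) .nil)))))) (.g (nat_lit 4) .nil .nil))))) (.nd (nat_lit 4) (.nd (nat_lit 5) 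
(.lf (nat_lit 161547) (.g (nat_lit 2968) (.e (nat_lit 57445) (nat_lit 19) (.e (nat_lit 393229) (nat_lit 9) (.e (nat_lit 336201) (nat_lit 12) (.e (nat_lit 385068) (nat_lit 26) (.e (nat_lit 532504) (nat_lit 1) (.e (nat_lit 57851) (nat_lit 252) .nil)))))) (.g (nat_lit 5) .nil .nil))) 
(.lf (nat_lit 161579) (.g (nat_lit 2731) (.e (nat_lit 57445) (nat_lit 19) (.e (nat_lit 393229) (nat_lit 9) (.e (nat_lit 336203) (nat_lit 12) (.e (nat_lit 385064) (nat_lit 26) (.e (nat_lit 532503) (nat_lit 1) (.e (nat_lit 57846) (nat_lit 252) .nil)))))) (.g (nat_lit 5) .nil .nil)))) (.nd (nat_lit 5) 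
(.lf (nat_lit 161563) (.g (nat_lit 3630) (.e (nat_lit 57445) (nat_lit 19) (.e (nat_lit 393229) (nat_lit 9) (.e (nat_lit 336202) (nat_lit 12) (.e (nat_lit 385066) (nat_lit 26) (.e (nat_lit 532503) (nat_lit 1) (.e (nat_lit 57846) (nat_lit 252) .nil)))))) (.g (nat_lit 6) .nil .nil))) 
(.lf (nat_lit 161595) (.g (nat_lit 1242) (.e (nat_lit 57445) (nat_lit 19) (.e (nat_lit 393229) (nat_lit 9) (.e (nat_lit 336203) (nat_lit 12) (.e (nat_lit 385066) (nat_lit 26) .nil)))) .nil))))) (.nd (nat_lit 3) (.nd (nat_lit 4) (.nd (nat_lit 5) 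
(.lf (nat_lit 161543) (.g (nat_lit 4167) (.e (nat_lit 57445) (nat_lit 19) (.e (nat_lit 393229) (nat_lit 9) (.e (nat_lit 336201) (nat_lit 12) (.e (nat_lit 385068) (nat_lit 26) (.e (nat_lit 532499) (nat_lit 1) (.e (nat_lit 57847) (nat_lit 252) .nil)))))) (.g (nat_lit 0) .nil .nil))) 
(.lf (nat_lit 161575) (.g (nat_lit 339) (.e (nat_lit 57445) (nat_lit 19) (.e (nat_lit 393229) (nat_lit 9) (.e (nat_lit 336203) (nat_lit 12) .nil))) .nil))) (.nd (nat_lit 5) 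
(.lf (nat_lit 161559) (.g (nat_lit 3391) (.e (nat_lit 57445) (nat_lit 19) (.e (nat_lit 393229) (nat_lit 9) (.e (nat_lit 336202) (nat_lit 12) (.e (nat_lit 385066) (nat_lit 26) (.e (nat_lit 532501) (nat_lit 1) (.e (nat_lit 57854) (nat_lit 252) .nil)))))) (.g (nat_lit 6) .nil .nil))) 
(.lf (nat_lit 161591) (.g (nat_lit 2918) (.e (nat_lit 57445) (nat_lit 19) (.e (nat_lit 393229) (nat_lit 9) (.e (nat_lit 336203) (nat_lit 12) (.e (nat_lit 385065) (nat_lit 26) (.e (nat_lit 532503) (nat_lit 1) (.e (nat_lit 57847) (nat_lit 252) .nil)))))) (.g (nat_lit 5) .nil .nil))))) (.nd (nat_lit 4) (.nd (nat_lit 5) 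
(.lf (nat_lit 161551) (.g (nat_lit 2140) (.e (nat_lit 57445) (nat_lit 19) (.e (nat_lit 393229) (nat_lit 9) (.e (nat_lit 336202) (nat_lit 12) (.e (nat_lit 385064) (nat_lit 26) (.e (nat_lit 532504) (nat_lit 1) (.e (nat_lit 57852) (nat_lit 252) .nil)))))) (.g (nat_lit 4) .nil .nil))) 
(.lf (nat_lit 161583) (.g (nat_lit 3953) (.e (nat_lit 57445) (nat_lit 19) (.e (nat_lit 393229) (nat_lit 9) (.e (nat_lit 336203) (nat_lit 12) (.e (nat_lit 385065) (nat_lit 26) (.e (nat_lit 532499) (nat_lit 1) (.e (nat_lit 57847) (nat_lit 252) .nil)))))) (.g (nat_lit 0) .nil .nil)))) (.nd (nat_lit 5) 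
(.lf (nat_lit 161567) (.g (nat_lit 3596) (.e (nat_lit 57445) (nat_lit 19) (.e (nat_lit 393229) (nat_lit 9) (.e (nat_lit 336202) (nat_lit 12) (.e (nat_lit 385066) (nat_lit 26) (.e (nat_lit 532504) (nat_lit 1) (.e (nat_lit 57854) (nat_lit 252) .nil)))))) (.g (nat_lit 6) .nil .nil))) 
(.lf (nat_lit 161599) (.g (nat_lit 3236) (.e (nat_lit 57445) (nat_lit 19) (.e (nat_lit 393229) (nat_lit 9) (.e (nat_lit 336203) (nat_lit 12) (.e (nat_lit 385066) (nat_lit 26) (.e (nat_lit 532502) (nat_lit 1) (.e (nat_lit 57846) (nat_lit 252) .nil)))))) (.g (nat_lit 6) .nil .nil)))))))))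

noncomputable def tv2165 : DT := (.nd (nat_lit 0) (.nd (nat_lit 1) (.nd (nat_lit 2) (.nd (nat_lit 3) (.nd (nat_lit 4) (.nd (nat_lit 5) 
(.lf (nat_lit 161600) (.g (nat_lit 3400) (.e (nat_lit 57445) (nat_lit 19) (.e (nat_lit 393229) (nat_lit 9) (.e (nat_lit 336203) (nat_lit 12) (.e (nat_lit 385066) (nat_lit 26) (.e (nat_lit 532502) (nat_lit 1) (.e (nat_lit 57847) (nat_lit 252) .nil)))))) (.g (nat_lit 0) .nil .nil))) 
(.lf (nat_lit 161632) (.g (nat_lit 355) (.e (nat_lit 57445) (nat_lit 19) (.e (nat_lit 393229) (nat_lit 9) (.e (nat_lit 336204) (nat_lit 12) .nil))) .nil))) (.nd (nat_lit 5) 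
(.lf (nat_lit 161616) (.g (nat_lit 3451) (.e (nat_lit 57445) (nat_lit 19) (.e (nat_lit 393229) (nat_lit 9) (.e (nat_lit 336203) (nat_lit 12) (.e (nat_lit 385067) (nat_lit 26) (.e (nat_lit 532503) (nat_lit 1) (.e (nat_lit 57848) (nat_lit 252) .nil)))))) (.g (nat_lit 0) .nil .nil))) 
(.lf (nat_lit 161648) (.g (nat_lit 3725) (.e (nat_lit 57445) (nat_lit 19) (.e (nat_lit 393229) (nat_lit 9) (.e (nat_lit 336204) (nat_lit 12) (.e (nat_lit 385066) (nat_lit 26) (.e (nat_lit 532503) (nat_lit 1) (.e (nat_lit 57847) (nat_lit 252) .nil)))))) (.g (nat_lit 0) .nil .nil))))) (.nd (nat_lit 4) (.nd (nat_lit 5) 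
(.lf (nat_lit 161608) (.g (nat_lit 3084) (.e (nat_lit 57445) (nat_lit 19) (.e (nat_lit 393229) (nat_lit 9) (.e (nat_lit 336203) (nat_lit 12) (.e (nat_lit 385066) (nat_lit 26) (.e (nat_lit 532504) (nat_lit 1) (.e (nat_lit 57853) (nat_lit 252) .nil)))))) (.g (nat_lit 5) .nil .nil))) 
(.lf (nat_lit 161640) (.g (nat_lit 3463) (.e (nat_lit 57445) (nat_lit 19) (.e (nat_lit 393229) (nat_lit 9) (.e (nat_lit 336204) (nat_lit 12) (.e (nat_lit 385066) (nat_lit 26) (.e (nat_lit 532501) (nat_lit 1) (.e (nat_lit 57854) (nat_lit 252) .nil)))))) (.g (nat_lit 0) .nil .nil)))) (.nd (nat_lit 5) 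
(.lf (nat_lit 161624) (.g (nat_lit 3805) (.e (nat_lit 57445) (nat_lit 19) (.e (nat_lit 393229) (nat_lit 9) (.e (nat_lit 336203) (nat_lit 12) (.e (nat_lit 385068) (nat_lit 26) (.e (nat_lit 532501) (nat_lit 1) (.e (nat_lit 57853) (nat_lit 252) .nil)))))) (.g (nat_lit 5) .nil .nil))) 
(.lf (nat_lit 161656) (.g (nat_lit 3769) (.e (nat_lit 57445) (nat_lit 19) (.e (nat_lit 393229) (nat_lit 9) (.e (nat_lit 336204) (nat_lit 12) (.e (nat_lit 385068) (nat_lit 26) (.e (nat_lit 532503) (nat_lit 1) (.e (nat_lit 57847) (nat_lit 252) .nil)))))) (.g (nat_lit 0) .nil .nil)))))) (.nd (nat_lit 3) (.nd (nat_lit 4) (.nd (nat_lit 5) 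
(.lf (nat_lit 161604) (.g (nat_lit 3612) (.e (nat_lit 57445) (nat_lit 19) (.e (nat_lit 393229) (nat_lit 9) (.e (nat_lit 336203) (nat_lit 12) (.e (nat_lit 385066) (nat_lit 26) (.e (nat_lit 532503) (nat_lit 1) (.e (nat_lit 57847) (nat_lit 252) .nil)))))) (.g (nat_lit 0) .nil .nil))) 
(.lf (nat_lit 161636) (.g (nat_lit 4192) (.e (nat_lit 57445) (nat_lit 19) (.e (nat_lit 393229) (nat_lit 9) (.e (nat_lit 336204) (nat_lit 12) (.e (nat_lit 385066) (nat_lit 26) (.e (nat_lit 532499) (nat_lit 1) (.e (nat_lit 57847) (nat_lit 252) .nil)))))) (.g (nat_lit 0) .nil .nil)))) (.nd (nat_lit 5) 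
(.lf (nat_lit 161620) (.g (nat_lit 4323) (.e (nat_lit 57445) (nat_lit 19) (.e (nat_lit 393229) (nat_lit 9) (.e (nat_lit 336203) (nat_lit 12) (.e (nat_lit 385068) (nat_lit 26) (.e (nat_lit 532499) (nat_lit 1) (.e (nat_lit 57847) (nat_lit 252) .nil)))))) (.g (nat_lit 0) .nil .nil))) 
(.lf (nat_lit 161652) (.g (nat_lit 4107) (.e (nat_lit 57445) (nat_lit 19) (.e (nat_lit 393229) (nat_lit 9) (.e (nat_lit 336204) (nat_lit 12) (.e (nat_lit 385068) (nat_lit 26) (.e (nat_lit 532499) (nat_lit 1) (.e (nat_lit 57847) (nat_lit 252) .nil)))))) (.g (nat_lit 0) .nil .nil))))) (.nd (nat_lit 4) (.nd (nat_lit 5) 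
(.lf (nat_lit 161612) (.g (nat_lit 3277) (.e (nat_lit 57445) (nat_lit 19) (.e (nat_lit 393229) (nat_lit 9) (.e (nat_lit 336203) (nat_lit 12) (.e (nat_lit 385067) (nat_lit 26) (.e (nat_lit 532501) (nat_lit 1) (.e (nat_lit 57854) (nat_lit 252) .nil)))))) (.g (nat_lit 0) .nil .nil))) 
(.lf (nat_lit 161644) (.g (nat_lit 3338) (.e (nat_lit 57445) (nat_lit 19) (.e (nat_lit 393229) (nat_lit 9) (.e (nat_lit 336204) (nat_lit 12) (.e (nat_lit 385066) (nat_lit 26) (.e (nat_lit 532502) (nat_lit 1) (.e (nat_lit 57849) (nat_lit 252) .nil)))))) (.g (nat_lit 0) .nil .nil)))) (.nd (nat_lit 5) 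
(.lf (nat_lit 161628) (.g (nat_lit 4121) (.e (nat_lit 57445) (nat_lit 19) (.e (nat_lit 393229) (nat_lit 9) (.e (nat_lit 336203) (nat_lit 12) (.e (nat_lit 385068) (nat_lit 26) (.e (nat_lit 532504) (nat_lit 1) (.e (nat_lit 57852) (nat_lit 252) .nil)))))) (.g (nat_lit 0) .nil .nil))) 
(.lf (nat_lit 161660) (.g (nat_lit 3683) (.e (nat_lit 57445) (nat_lit 19) (.e (nat_lit 393229) (nat_lit 9) (.e (nat_lit 336204) (nat_lit 12) (.e (nat_lit 385068) (nat_lit 26) (.e (nat_lit 532504) (nat_lit 1) (.e (nat_lit 57854) (nat_lit 252) .nil)))))) (.g (nat_lit 0) .nil .nil))))))) (.nd (nat_lit 2) (.nd (nat_lit 3) (.nd (nat_lit 4) (.nd (nat_lit 5) 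
(.lf (nat_lit 161602) (.g (nat_lit 3495) (.e (nat_lit 57445) (nat_lit 19) (.e (nat_lit 393229) (nat_lit 9) (.e (nat_lit 336203) (nat_lit 12) (.e (nat_lit 385066) (nat_lit 26) (.e (nat_lit 532502) (nat_lit 1) (.e (nat_lit 57854) (nat_lit 252) .nil)))))) (.g (nat_lit 0) .nil .nil))) 
(.lf (nat_lit 161634) (.g (nat_lit 2507) (.e (nat_lit 57445) (nat_lit 19) (.e (nat_lit 393229) (nat_lit 9) (.e (nat_lit 336204) (nat_lit 12) (.e (nat_lit 385064) (nat_lit 26) (.e (nat_lit 532503) (nat_lit 1) (.e (nat_lit 57848) (nat_lit 252) .nil)))))) (.g (nat_lit 5) .nil .nil)))) (.nd (nat_lit 5) 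
(.lf (nat_lit 161618) (.g (nat_lit 3521) (.e (nat_lit 57445) (nat_lit 19) (.e (nat_lit 393229) (nat_lit 9) (.e (nat_lit 336203) (nat_lit 12) (.e (nat_lit 385067) (nat_lit 26) (.e (nat_lit 532504) (nat_lit 1) (.e (nat_lit 57853) (nat_lit 252) .nil)))))) (.g (nat_lit 6) .nil .nil))) 
(.lf (nat_lit 161650) (.g (nat_lit 3484) (.e (nat_lit 57445) (nat_lit 19) (.e (nat_lit 393229) (nat_lit 9) (.e (nat_lit 336204) (nat_lit 12) (.e (nat_lit 385066) (nat_lit 26) (.e (nat_lit 532503) (nat_lit 1) (.e (nat_lit 57849) (nat_lit 252) .nil)))))) (.g (nat_lit 0) .nil .nil))))) (.nd (nat_lit 4) (.nd (nat_lit 5) 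
(.lf (nat_lit 161610) (.g (nat_lit 1133) (.e (nat_lit 57445) (nat_lit 19) (.e (nat_lit 393229) (nat_lit 9) (.e (nat_lit 336203) (nat_lit 12) (.e (nat_lit 385067) (nat_lit 26) .nil)))) .nil)) 
(.lf (nat_lit 161642) (.g (nat_lit 3511) (.e (nat_lit 57445) (nat_lit 19) (.e (nat_lit 393229) (nat_lit 9) (.e (nat_lit 336204) (nat_lit 12) (.e (nat_lit 385066) (nat_lit 26) (.e (nat_lit 532502) (nat_lit 1) (.e (nat_lit 57847) (nat_lit 252) .nil)))))) (.g (nat_lit 0) .nil .nil)))) (.nd (nat_lit 5) 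
(.lf (nat_lit 161626) (.g (nat_lit 3947) (.e (nat_lit 57445) (nat_lit 19) (.e (nat_lit 393229) (nat_lit 9) (.e (nat_lit 336203) (nat_lit 12) (.e (nat_lit 385068) (nat_lit 26) (.e (nat_lit 532503) (nat_lit 1) (.e (nat_lit 57847) (nat_lit 252) .nil)))))) (.g (nat_lit 0) .nil .nil))) 
(.lf (nat_lit 161658) (.g (nat_lit 3953) (.e (nat_lit 57445) (nat_lit 19) (.e (nat_lit 393229) (nat_lit 9) (.e (nat_lit 336204) (nat_lit 12) (.e (nat_lit 385068) (nat_lit 26) (.e (nat_lit 532504) (nat_lit 1) (.e (nat_lit 57852) (nat_lit 252) .nil)))))) (.g (nat_lit 0) .nil .nil)))))) (.nd (nat_lit 3) (.nd (nat_lit 4) (.nd (nat_lit 5) 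
(.lf (nat_lit 161606) (.g (nat_lit 3384) (.e (nat_lit 57445) (nat_lit 19) (.e (nat_lit 393229) (nat_lit 9) (.e (nat_lit 336203) (nat_lit 12) (.e (nat_lit 385066) (nat_lit 26) (.e (nat_lit 532503) (nat_lit 1) (.e (nat_lit 57849) (nat_lit 252) .nil)))))) (.g (nat_lit 0) .nil .nil))) 
(.lf (nat_lit 161638) (.g (nat_lit 3647) (.e (nat_lit 57445) (nat_lit 19) (.e (nat_lit 393229) (nat_lit 9) (.e (nat_lit 336204) (nat_lit 12) (.e (nat_lit 385066) (nat_lit 26) (.e (nat_lit 532499) (nat_lit 1) (.e (nat_lit 57853) (nat_lit 252) .nil)))))) (.g (nat_lit 6) .nil .nil)))) (.nd (nat_lit 5) 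
(.lf (nat_lit 161622) (.g (nat_lit 3221) (.e (nat_lit 57445) (nat_lit 19) (.e (nat_lit 393229) (nat_lit 9) (.e (nat_lit 336203) (nat_lit 12) (.e (nat_lit 385068) (nat_lit 26) (.e (nat_lit 532499) (nat_lit 1) (.e (nat_lit 57854) (nat_lit 252) .nil)))))) (.g (nat_lit 5) .nil .nil))) 
(.lf (nat_lit 161654) (.g (nat_lit 3655) (.e (nat_lit 57445) (nat_lit 19) (.e (nat_lit 393229) (nat_lit 9) (.e (nat_lit 336204) (nat_lit 12) (.e (nat_lit 385068) (nat_lit 26) (.e (nat_lit 532501) (nat_lit 1) (.e (nat_lit 57854) (nat_lit 252) .nil)))))) (.g (nat_lit 0) .nil .nil))))) (.nd (nat_lit 4) (.nd (nat_lit 5) 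
(.lf (nat_lit 161614) (.g (nat_lit 1646) (.e (nat_lit 57445) (nat_lit 19) (.e (nat_lit 393229) (nat_lit 9) (.e (nat_lit 336203) (nat_lit 12) (.e (nat_lit 385067) (nat_lit 26) (.e (nat_lit 532502) (nat_lit 1) (.e (nat_lit 57852) (nat_lit 252) .nil)))))) (.g (nat_lit 4) .nil .nil))) 
(.lf (nat_lit 161646) (.g (nat_lit 2588) (.e (nat_lit 57445) (nat_lit 19) (.e (nat_lit 393229) (nat_lit 9) (.e (nat_lit 336204) (nat_lit 12) (.e (nat_lit 385066) (nat_lit 26) (.e (nat_lit 532503) (nat_lit 1) (.e (nat_lit 57844) (nat_lit 252) .nil)))))) (.g (nat_lit 4) .nil .nil)))) (.nd (nat_lit 5) 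
(.lf (nat_lit 161630) (.g (nat_lit 3909) (.e (nat_lit 57445) (nat_lit 19) (.e (nat_lit 393229) (nat_lit 9) (.e (nat_lit 336203) (nat_lit 12) (.e (nat_lit 385068) (nat_lit 26) (.e (nat_lit 532504) (nat_lit 1) (.e (nat_lit 57854) (nat_lit 252) .nil)))))) (.g (nat_lit 0) .nil .nil))) 
(.lf (nat_lit 161662) (.g (nat_lit 1652) (.e (nat_lit 57445) (nat_lit 19) (.e (nat_lit 401152) (nat_lit 12) (.e (nat_lit 360473) (nat_lit 8) (.e (nat_lit 557090) (nat_lit 12) (.e (nat_lit 171776) (nat_lit 0) (.e (nat_lit 5193) (nat_lit 294) .nil)))))) (.g (nat_lit 4) .nil .nil)))))))) (.nd (nat_lit 1) (.nd (nat_lit 2) (.nd (nat_lit 3) (.nd (nat_lit 4) (.nd (nat_lit 5) 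
(.lf (nat_lit 161601) (.g (nat_lit 3420) (.e (nat_lit 57445) (nat_lit 19) (.e (nat_lit 393229) (nat_lit 9) (.e (nat_lit 336203) (nat_lit 12) (.e (nat_lit 385066) (nat_lit 26) (.e (nat_lit 532502) (nat_lit 1) (.e (nat_lit 57852) (nat_lit 252) .nil)))))) (.g (nat_lit 0) .nil .nil))) 
(.lf (nat_lit 161633) (.g (nat_lit 1130) (.e (nat_lit 57445) (nat_lit 19) (.e (nat_lit 393229) (nat_lit 9) (.e (nat_lit 336204) (nat_lit 12) (.e (nat_lit 385057) (nat_lit 22) .nil)))) .nil))) (.nd (nat_lit 5) 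
(.lf (nat_lit 161617) (.g (nat_lit 3765) (.e (nat_lit 57445) (nat_lit 19) (.e (nat_lit 393229) (nat_lit 9) (.e (nat_lit 336203) (nat_lit 12) (.e (nat_lit 385067) (nat_lit 26) (.e (nat_lit 532504) (nat_lit 1) (.e (nat_lit 57852) (nat_lit 252) .nil)))))) (.g (nat_lit 0) .nil .nil))) 
(.lf (nat_lit 161649) (.g (nat_lit 3523) (.e (nat_lit 57445) (nat_lit 19) (.e (nat_lit 393229) (nat_lit 9) (.e (nat_lit 336204) (nat_lit 12) (.e (nat_lit 385066) (nat_lit 26) (.e (nat_lit 532503) (nat_lit 1) (.e (nat_lit 57848) (nat_lit 252) .nil)))))) (.g (nat_lit 0) .nil .nil))))) (.nd (nat_lit 4) (.nd (nat_lit 5) 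
(.lf (nat_lit 161609) (.g (nat_lit 3466) (.e (nat_lit 57445) (nat_lit 19) (.e (nat_lit 393229) (nat_lit 9) (.e (nat_lit 336203) (nat_lit 12) (.e (nat_lit 385066) (nat_lit 26) (.e (nat_lit 532504) (nat_lit 1) (.e (nat_lit 57854) (nat_lit 252) .nil)))))) (.g (nat_lit 0) .nil .nil))) 
(.lf (nat_lit 161641) (.g (nat_lit 3401) (.e (nat_lit 57445) (nat_lit 19) (.e (nat_lit 393229) (nat_lit 9) (.e (nat_lit 336204) (nat_lit 12) (.e (nat_lit 385066) (nat_lit 26) (.e (nat_lit 532502) (nat_lit 1) (.e (nat_lit 57846) (nat_lit 252) .nil)))))) (.g (nat_lit 0) .nil .nil)))) (.nd (nat_lit 5) 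
(.lf (nat_lit 161625) (.g (nat_lit 3942) (.e (nat_lit 57445) (nat_lit 19) (.e (nat_lit 393229) (nat_lit 9) (.e (nat_lit 336203) (nat_lit 12) (.e (nat_lit 385068) (nat_lit 26) (.e (nat_lit 532501) (nat_lit 1) (.e (nat_lit 57854) (nat_lit 252) .nil)))))) (.g (nat_lit 0) .nil .nil))) 
(.lf (nat_lit 161657) (.g (nat_lit 3640) (.e (nat_lit 57445) (nat_lit 19) (.e (nat_lit 393229) (nat_lit 9) (.e (nat_lit 336204) (nat_lit 12) (.e (nat_lit 385068) (nat_lit 26) (.e (nat_lit 532503) (nat_lit 1) (.e (nat_lit 57848) (nat_lit 252) .nil)))))) (.g (nat_lit 0) .nil .nil)))))) (.nd (nat_lit 3) (.nd (nat_lit 4) (.nd (nat_lit 5) 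
(.lf (nat_lit 161605) (.g (nat_lit 2142) (.e (nat_lit 57445) (nat_lit 19) (.e (nat_lit 393229) (nat_lit 9) (.e (nat_lit 336203) (nat_lit 12) (.e (nat_lit 385066) (nat_lit 26) (.e (nat_lit 532503) (nat_lit 1) (.e (nat_lit 57848) (nat_lit 252) .nil)))))) (.g (nat_lit 4) .nil .nil))) 
(.lf (nat_lit 161637) (.g (nat_lit 3667) (.e (nat_lit 57445) (nat_lit 19) (.e (nat_lit 393229) (nat_lit 9) (.e (nat_lit 336204) (nat_lit 12) (.e (nat_lit 385066) (nat_lit 26) (.e (nat_lit 532499) (nat_lit 1) (.e (nat_lit 57849) (nat_lit 252) .nil)))))) (.g (nat_lit 0) .nil .nil)))) (.nd (nat_lit 5) 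
(.lf (nat_lit 161621) (.g (nat_lit 3551) (.e (nat_lit 57445) (nat_lit 19) (.e (nat_lit 393229) (nat_lit 9) (.e (nat_lit 336203) (nat_lit 12) (.e (nat_lit 385068) (nat_lit 26) (.e (nat_lit 532499) (nat_lit 1) (.e (nat_lit 57849) (nat_lit 252) .nil)))))) (.g (nat_lit 6) .nil .nil))) 
(.lf (nat_lit 161653) (.g (nat_lit 2882) (.e (nat_lit 57445) (nat_lit 19) (.e (nat_lit 393229) (nat_lit 9) (.e (nat_lit 336204) (nat_lit 12) (.e (nat_lit 385068) (nat_lit 26) (.e (nat_lit 532499) (nat_lit 1) (.e (nat_lit 57849) (nat_lit 252) .nil)))))) (.g (nat_lit 5) .nil .nil))))) (.nd (nat_lit 4) (.nd (nat_lit 5) 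
(.lf (nat_lit 161613) (.g (nat_lit 1442) (.e (nat_lit 57445) (nat_lit 19) (.e (nat_lit 393229) (nat_lit 9) (.e (nat_lit 336203) (nat_lit 12) (.e (nat_lit 385067) (nat_lit 26) (.e (nat_lit 532502) (nat_lit 1) .nil))))) .nil)) 
(.lf (nat_lit 161645) (.g (nat_lit 3507) (.e (nat_lit 57445) (nat_lit 19) (.e (nat_lit 393229) (nat_lit 9) (.e (nat_lit 336204) (nat_lit 12) (.e (nat_lit 385066) (nat_lit 26) (.e (nat_lit 532502) (nat_lit 1) (.e (nat_lit 57854) (nat_lit 252) .nil)))))) (.g (nat_lit 0) .nil .nil)))) (.nd (nat_lit 5) 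
(.lf (nat_lit 161629) (.g (nat_lit 3742) (.e (nat_lit 57445) (nat_lit 19) (.e (nat_lit 393229) (nat_lit 9) (.e (nat_lit 336203) (nat_lit 12) (.e (nat_lit 385068) (nat_lit 26) (.e (nat_lit 532504) (nat_lit 1) (.e (nat_lit 57853) (nat_lit 252) .nil)))))) (.g (nat_lit 6) .nil .nil))) 
(.lf (nat_lit 161661) (.g (nat_lit 1908) (.e (nat_lit 57445) (nat_lit 19) (.e (nat_lit 401152) (nat_lit 12) (.e (nat_lit 360473) (nat_lit 8) (.e (nat_lit 557089) (nat_lit 12) (.e (nat_lit 163846) (nat_lit 0) (.e (nat_lit 5206) (nat_lit 294) .nil)))))) (.g (nat_lit 4) .nil .nil))))))) (.nd (nat_lit 2) (.nd (nat_lit 3) (.nd (nat_lit 4) (.nd (nat_lit 5) 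
(.lf (nat_lit 161603) (.g (nat_lit 3576) (.e (nat_lit 57445) (nat_lit 19) (.e (nat_lit 393229) (nat_lit 9) (.e (nat_lit 336203) (nat_lit 12) (.e (nat_lit 385066) (nat_lit 26) (.e (nat_lit 532503) (nat_lit 1) (.e (nat_lit 57846) (nat_lit 252) .nil)))))) (.g (nat_lit 0) .nil .nil))) 
(.lf (nat_lit 161635) (.g (nat_lit 1741) (.e (nat_lit 57445) (nat_lit 19) (.e (nat_lit 393229) (nat_lit 9) (.e (nat_lit 336204) (nat_lit 12) (.e (nat_lit 385066) (nat_lit 26) (.e (nat_lit 532481) (nat_lit 0) .nil))))) .nil))) (.nd (nat_lit 5) 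
(.lf (nat_lit 161619) (.g (nat_lit 3826) (.e (nat_lit 57445) (nat_lit 19) (.e (nat_lit 393229) (nat_lit 9) (.e (nat_lit 336203) (nat_lit 12) (.e (nat_lit 385068) (nat_lit 26) (.e (nat_lit 532490) (nat_lit 0) (.e (nat_lit 1040) (nat_lit 81) (.e (nat_lit 5195) (nat_lit 294) .nil))))))) (.g (nat_lit 4) .nil .nil))) 
(.lf (nat_lit 161651) (.g (nat_lit 3566) (.e (nat_lit 57445) (nat_lit 19) (.e (nat_lit 393229) (nat_lit 9) (.e (nat_lit 336204) (nat_lit 12) (.e (nat_lit 385066) (nat_lit 26) (.e (nat_lit 532504) (nat_lit 1) (.e (nat_lit 57854) (nat_lit 252) .nil)))))) (.g (nat_lit 0) .nil .nil))))) (.nd (nat_lit 4) (.nd (nat_lit 5) 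
(.lf (nat_lit 161611) (.g (nat_lit 3701) (.e (nat_lit 57445) (nat_lit 19) (.e (nat_lit 393229) (nat_lit 9) (.e (nat_lit 336203) (nat_lit 12) (.e (nat_lit 385067) (nat_lit 26) (.e (nat_lit 532499) (nat_lit 1) (.e (nat_lit 57854) (nat_lit 252) .nil)))))) (.g (nat_lit 6) .nil .nil))) 
(.lf (nat_lit 161643) (.g (nat_lit 2974) (.e (nat_lit 57445) (nat_lit 19) (.e (nat_lit 393229) (nat_lit 9) (.e (nat_lit 336204) (nat_lit 12) (.e (nat_lit 385066) (nat_lit 26) (.e (nat_lit 532502) (nat_lit 1) (.e (nat_lit 57848) (nat_lit 252) .nil)))))) (.g (nat_lit 0) .nil .nil)))) (.nd (nat_lit 5) 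
(.lf (nat_lit 161627) (.g (nat_lit 3710) (.e (nat_lit 57445) (nat_lit 19) (.e (nat_lit 393229) (nat_lit 9) (.e (nat_lit 336203) (nat_lit 12) (.e (nat_lit 385068) (nat_lit 26) (.e (nat_lit 532503) (nat_lit 1) (.e (nat_lit 57848) (nat_lit 252) .nil)))))) (.g (nat_lit 6) .nil .nil))) 
(.lf (nat_lit 161659) (.g (nat_lit 3697) (.e (nat_lit 57445) (nat_lit 19) (.e (nat_lit 393229) (nat_lit 9) (.e (nat_lit 336204) (nat_lit 12) (.e (nat_lit 385068) (nat_lit 26) (.e (nat_lit 532504) (nat_lit 1) (.e (nat_lit 57853) (nat_lit 252) .nil)))))) (.g (nat_lit 0) .nil .nil)))))) (.nd (nat_lit 3) (.nd (nat_lit 4) (.nd (nat_lit 5) 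
(.lf (nat_lit 161607) (.g (nat_lit 2562) (.e (nat_lit 57445) (nat_lit 19) (.e (nat_lit 393229) (nat_lit 9) (.e (nat_lit 336203) (nat_lit 12) (.e (nat_lit 385066) (nat_lit 26) (.e (nat_lit 532503) (nat_lit 1) (.e (nat_lit 57853) (nat_lit 252) .nil)))))) (.g (nat_lit 4) .nil .nil))) 
(.lf (nat_lit 161639) (.g (nat_lit 3619) (.e (nat_lit 57445) (nat_lit 19) (.e (nat_lit 393229) (nat_lit 9) (.e (nat_lit 336204) (nat_lit 12) (.e (nat_lit 385066) (nat_lit 26) (.e (nat_lit 532499) (nat_lit 1) (.e (nat_lit 57854) (nat_lit 252) .nil)))))) (.g (nat_lit 0) .nil .nil)))) (.nd (nat_lit 5) 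
(.lf (nat_lit 161623) (.g (nat_lit 2415) (.e (nat_lit 57445) (nat_lit 19) (.e (nat_lit 393229) (nat_lit 9) (.e (nat_lit 336203) (nat_lit 12) (.e (nat_lit 385068) (nat_lit 26) (.e (nat_lit 532500) (nat_lit 1) (.e (nat_lit 57854) (nat_lit 252) .nil)))))) (.g (nat_lit 4) .nil .nil))) 
(.lf (nat_lit 161655) (.g (nat_lit 2478) (.e (nat_lit 57445) (nat_lit 19) (.e (nat_lit 393229) (nat_lit 9) (.e (nat_lit 336204) (nat_lit 12) (.e (nat_lit 385068) (nat_lit 26) (.e (nat_lit 532503) (nat_lit 1) (.e (nat_lit 57844) (nat_lit 252) .nil)))))) (.g (nat_lit 4) .nil .nil))))) (.nd (nat_lit 4) (.nd (nat_lit 5) 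
(.lf (nat_lit 161615) (.g (nat_lit 3405) (.e (nat_lit 57445) (nat_lit 19) (.e (nat_lit 393229) (nat_lit 9) (.e (nat_lit 336203) (nat_lit 12) (.e (nat_lit 385067) (nat_lit 26) (.e (nat_lit 532503) (nat_lit 1) (.e (nat_lit 57846) (nat_lit 252) .nil)))))) (.g (nat_lit 0) .nil .nil))) 
(.lf (nat_lit 161647) (.g (nat_lit 3666) (.e (nat_lit 57445) (nat_lit 19) (.e (nat_lit 393229) (nat_lit 9) (.e (nat_lit 336204) (nat_lit 12) (.e (nat_lit 385066) (nat_lit 26) (.e (nat_lit 532503) (nat_lit 1) (.e (nat_lit 57846) (nat_lit 252) .nil)))))) (.g (nat_lit 0) .nil .nil)))) (.nd (nat_lit 5) 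
(.lf (nat_lit 161631) (.g (nat_lit 1650) (.e (nat_lit 57445) (nat_lit 19) (.e (nat_lit 393229) (nat_lit 9) (.e (nat_lit 336203) (nat_lit 12) (.e (nat_lit 385069) (nat_lit 27) .nil)))) .nil)) 
(.lf (nat_lit 161663) (.g (nat_lit 1617) (.e (nat_lit 57445) (nat_lit 19) (.e (nat_lit 401152) (nat_lit 12) (.e (nat_lit 360473) (nat_lit 8) (.e (nat_lit 557091) (nat_lit 12) (.e (nat_lit 171776) (nat_lit 0) (.e (nat_lit 5193) (nat_lit 294) .nil)))))) (.g (nat_lit 4) .nil .nil)))))))))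

noncomputable def tv2166 : DT := (.nd (nat_lit 0) (.nd (nat_lit 1) (.nd (nat_lit 2) (.nd (nat_lit 3) (.nd (nat_lit 4) (.nd (nat_lit 5) 
(.lf (nat_lit 161664) (.g (nat_lit 1704) (.e (nat_lit 57445) (nat_lit 19) (.e (nat_lit 401152) (nat_lit 12) (.e (nat_lit 360473) (nat_lit 8) (.e (nat_lit 557091) (nat_lit 12) (.e (nat_lit 171776) (nat_lit 0) (.e (nat_lit 5195) (nat_lit 294) .nil)))))) (.g (nat_lit 4) .nil .nil))) 
(.lf (nat_lit 161696) (.g (nat_lit 1609) (.e (nat_lit 57445) (nat_lit 19) (.e (nat_lit 393233) (nat_lit 17) (.e (nat_lit 7581) (nat_lit 405) (.e (nat_lit 57476) (nat_lit 28) (.e (nat_lit 557104) (nat_lit 14) .nil))))) .nil))) (.nd (nat_lit 5) 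
(.lf (nat_lit 161680) (.g (nat_lit 1365) (.e (nat_lit 57445) (nat_lit 19) (.e (nat_lit 393232) (nat_lit 17) (.e (nat_lit 7581) (nat_lit 405) (.e (nat_lit 57479) (nat_lit 28) .nil)))) .nil)) 
(.lf (nat_lit 161712) (.g (nat_lit 2793) (.e (nat_lit 57445) (nat_lit 19) (.e (nat_lit 393233) (nat_lit 17) (.e (nat_lit 7581) (nat_lit 405) (.e (nat_lit 57480) (nat_lit 28) (.e (nat_lit 557103) (nat_lit 14) (.e (nat_lit 180229) (nat_lit 0) (.e (nat_lit 5951) (nat_lit 322) .nil))))))) (.g (nat_lit 5) .nil .nil))))) (.nd (nat_lit 4) (.nd (nat_lit 5) 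
(.lf (nat_lit 161672) (.g (nat_lit 1210) (.e (nat_lit 57445) (nat_lit 19) (.e (nat_lit 393231) (nat_lit 17) (.e (nat_lit 7581) (nat_lit 405) (.e (nat_lit 57480) (nat_lit 28) (.e (nat_lit 557105) (nat_lit 14) .nil))))) .nil)) 
(.lf (nat_lit 161704) (.g (nat_lit 1290) (.e (nat_lit 57445) (nat_lit 19) (.e (nat_lit 393233) (nat_lit 17) (.e (nat_lit 7581) (nat_lit 405) (.e (nat_lit 57477) (nat_lit 28) (.e (nat_lit 557104) (nat_lit 14) .nil))))) .nil))) (.nd (nat_lit 5) 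
(.lf (nat_lit 161688) (.g (nat_lit 3386) (.e (nat_lit 57445) (nat_lit 19) (.e (nat_lit 393232) (nat_lit 17) (.e (nat_lit 7581) (nat_lit 405) (.e (nat_lit 57480) (nat_lit 28) (.e (nat_lit 557104) (nat_lit 14) (.e (nat_lit 180233) (nat_lit 0) (.e (nat_lit 5949) (nat_lit 322) .nil))))))) (.g (nat_lit 4) .nil .nil))) 
(.lf (nat_lit 161720) (.g (nat_lit 2103) (.e (nat_lit 57445) (nat_lit 19) (.e (nat_lit 393233) (nat_lit 17) (.e (nat_lit 7583) (nat_lit 405) (.e (nat_lit 57476) (nat_lit 28) (.e (nat_lit 557104) (nat_lit 14) (.e (nat_lit 180227) (nat_lit 0) (.e (nat_lit 5945) (nat_lit 322) .nil))))))) (.g (nat_lit 5) .nil .nil)))))) (.nd (nat_lit 3) (.nd (nat_lit 4) (.nd (nat_lit 5) 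
(.lf (nat_lit 161668) (.g (nat_lit 1754) (.e (nat_lit 57445) (nat_lit 19) (.e (nat_lit 401152) (nat_lit 12) (.e (nat_lit 360475) (nat_lit 8) (.e (nat_lit 557091) (nat_lit 12) (.e (nat_lit 171776) (nat_lit 0) (.e (nat_lit 5193) (nat_lit 294) .nil)))))) (.g (nat_lit 4) .nil .nil))) 
(.lf (nat_lit 161700) (.g (nat_lit 1330) (.e (nat_lit 57445) (nat_lit 19) (.e (nat_lit 393233) (nat_lit 17) (.e (nat_lit 7581) (nat_lit 405) (.e (nat_lit 57477) (nat_lit 28) (.e (nat_lit 557103) (nat_lit 14) .nil))))) .nil))) (.nd (nat_lit 5) 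
(.lf (nat_lit 161684) (.g (nat_lit 1874) (.e (nat_lit 57445) (nat_lit 19) (.e (nat_lit 393232) (nat_lit 17) (.e (nat_lit 7581) (nat_lit 405) (.e (nat_lit 57480) (nat_lit 28) (.e (nat_lit 557103) (nat_lit 14) .nil))))) .nil)) 
(.lf (nat_lit 161716) (.g (nat_lit 1871) (.e (nat_lit 57445) (nat_lit 19) (.e (nat_lit 393233) (nat_lit 17) (.e (nat_lit 7581) (nat_lit 405) (.e (nat_lit 57480) (nat_lit 28) (.e (nat_lit 557105) (nat_lit 14) (.e (nat_lit 180224) (nat_lit 0) (.e (nat_lit 5952) (nat_lit 322) .nil))))))) (.g (nat_lit 4) .nil .nil))))) (.nd (nat_lit 4) (.nd (nat_lit 5) 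
(.lf (nat_lit 161676) (.g (nat_lit 1127) (.e (nat_lit 57445) (nat_lit 19) (.e (nat_lit 393232) (nat_lit 17) (.e (nat_lit 7581) (nat_lit 405) (.e (nat_lit 57477) (nat_lit 28) .nil)))) .nil)) 
(.lf (nat_lit 161708) (.g (nat_lit 2712) (.e (nat_lit 57445) (nat_lit 19) (.e (nat_lit 393233) (nat_lit 17) (.e (nat_lit 7581) (nat_lit 405) (.e (nat_lit 57477) (nat_lit 28) (.e (nat_lit 557104) (nat_lit 14) (.e (nat_lit 180233) (nat_lit 0) (.e (nat_lit 5949) (nat_lit 322) .nil))))))) (.g (nat_lit 5) .nil .nil)))) (.nd (nat_lit 5) 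
(.lf (nat_lit 161692) (.g (nat_lit 357) (.e (nat_lit 57445) (nat_lit 19) (.e (nat_lit 393233) (nat_lit 17) (.e (nat_lit 7581) (nat_lit 405) .nil))) .nil)) 
(.lf (nat_lit 161724) (.g (nat_lit 1716) (.e (nat_lit 57445) (nat_lit 19) (.e (nat_lit 393234) (nat_lit 17) (.e (nat_lit 7581) (nat_lit 405) (.e (nat_lit 57476) (nat_lit 28) .nil)))) .nil)))))) (.nd (nat_lit 2) (.nd (nat_lit 3) (.nd (nat_lit 4) (.nd (nat_lit 5) 
(.lf (nat_lit 161666) (.g (nat_lit 2523) (.e (nat_lit 57445) (nat_lit 19) (.e (nat_lit 401152) (nat_lit 12) (.e (nat_lit 360475) (nat_lit 8) (.e (nat_lit 557090) (nat_lit 12) (.e (nat_lit 163846) (nat_lit 0) (.e (nat_lit 5206) (nat_lit 294) .nil)))))) (.g (nat_lit 4) .nil .nil))) 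
(.lf (nat_lit 161698) (.g (nat_lit 2287) (.e (nat_lit 57445) (nat_lit 19) (.e (nat_lit 393233) (nat_lit 17) (.e (nat_lit 7581) (nat_lit 405) (.e (nat_lit 57476) (nat_lit 28) (.e (nat_lit 557104) (nat_lit 14) (.e (nat_lit 180233) (nat_lit 0) (.e (nat_lit 5947) (nat_lit 322) .nil))))))) (.g (nat_lit 4) .nil .nil)))) (.nd (nat_lit 5) 
(.lf (nat_lit 161682) (.g (nat_lit 1122) (.e (nat_lit 57445) (nat_lit 19) (.e (nat_lit 393232) (nat_lit 17) (.e (nat_lit 7581) (nat_lit 405) (.e (nat_lit 57480) (nat_lit 28) .nil)))) .nil)) 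
(.lf (nat_lit 161714) (.g (nat_lit 3582) (.e (nat_lit 57445) (nat_lit 19) (.e (nat_lit 393233) (nat_lit 17) (.e (nat_lit 7581) (nat_lit 405) (.e (nat_lit 57480) (nat_lit 28) (.e (nat_lit 557104) (nat_lit 14) (.e (nat_lit 180233) (nat_lit 0) (.e (nat_lit 5949) (nat_lit 322) .nil))))))) (.g (nat_lit 5) .nil .nil))))) (.nd (nat_lit 4) (.nd (nat_lit 5) 
(.lf (nat_lit 161674) (.g (nat_lit 1471) (.e (nat_lit 57445) (nat_lit 19) (.e (nat_lit 393232) (nat_lit 17) (.e (nat_lit 7581) (nat_lit 405) (.e (nat_lit 57476) (nat_lit 28) .nil)))) .nil)) 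
(.lf (nat_lit 161706) (.g (nat_lit 2671) (.e (nat_lit 57445) (nat_lit 19) (.e (nat_lit 393233) (nat_lit 17) (.e (nat_lit 7581) (nat_lit 405) (.e (nat_lit 57477) (nat_lit 28) (.e (nat_lit 557104) (nat_lit 14) (.e (nat_lit 180229) (nat_lit 0) (.e (nat_lit 5951) (nat_lit 322) .nil))))))) (.g (nat_lit 5) .nil .nil)))) (.nd (nat_lit 5) 
(.lf (nat_lit 161690) (.g (nat_lit 557) (.e (nat_lit 57445) (nat_lit 19) (.e (nat_lit 393232) (nat_lit 17) (.e (nat_lit 7583) (nat_lit 405) .nil))) .nil)) 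
(.lf (nat_lit 161722) (.g (nat_lit 2648) (.e (nat_lit 57445) (nat_lit 19) (.e (nat_lit 393233) (nat_lit 17) (.e (nat_lit 7583) (nat_lit 405) (.e (nat_lit 57476) (nat_lit 28) (.e (nat_lit 557104) (nat_lit 14) (.e (nat_lit 180233) (nat_lit 0) (.e (nat_lit 5949) (nat_lit 322) .nil))))))) (.g (nat_lit 5) .nil .nil)))))) (.nd (nat_lit 3) (.nd (nat_lit 4) (.nd (nat_lit 5) 
(.lf (nat_lit 161670) (.g (nat_lit 1433) (.e (nat_lit 57445) (nat_lit 19) (.e (nat_lit 393231) (nat_lit 17) (.e (nat_lit 7581) (nat_lit 405) (.e (nat_lit 57476) (nat_lit 28) (.e (nat_lit 557104) (nat_lit 14) .nil))))) .nil)) 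
(.lf (nat_lit 161702) (.g (nat_lit 3761) (.e (nat_lit 57445) (nat_lit 19) (.e (nat_lit 393233) (nat_lit 17) (.e (nat_lit 7581) (nat_lit 405) (.e (nat_lit 57477) (nat_lit 28) (.e (nat_lit 557103) (nat_lit 14) (.e (nat_lit 180225) (nat_lit 0) (.e (nat_lit 5954) (nat_lit 322) .nil))))))) (.g (nat_lit 6) .nil .nil)))) (.nd (nat_lit 5) 
(.lf (nat_lit 161686) (.g (nat_lit 2590) (.e (nat_lit 57445) (nat_lit 19) (.e (nat_lit 393232) (nat_lit 17) (.e (nat_lit 7581) (nat_lit 405) (.e (nat_lit 57480) (nat_lit 28) (.e (nat_lit 557103) (nat_lit 14) (.e (nat_lit 180229) (nat_lit 0) (.e (nat_lit 5951) (nat_lit 322) .nil))))))) (.g (nat_lit 4) .nil .nil))) 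
(.lf (nat_lit 161718) (.g (nat_lit 2443) (.e (nat_lit 57445) (nat_lit 19) (.e (nat_lit 393233) (nat_lit 17) (.e (nat_lit 7583) (nat_lit 405) (.e (nat_lit 57476) (nat_lit 28) (.e (nat_lit 557103) (nat_lit 14) (.e (nat_lit 180233) (nat_lit 0) (.e (nat_lit 5948) (nat_lit 322) .nil))))))) (.g (nat_lit 5) .nil .nil))))) (.nd (nat_lit 4) (.nd (nat_lit 5) 
(.lf (nat_lit 161678) (.g (nat_lit 1553) (.e (nat_lit 57445) (nat_lit 19) (.e (nat_lit 393232) (nat_lit 17) (.e (nat_lit 7581) (nat_lit 405) (.e (nat_lit 57477) (nat_lit 28) (.e (nat_lit 557104) (nat_lit 14) .nil))))) .nil)) 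
(.lf (nat_lit 161710) (.g (nat_lit 1657) (.e (nat_lit 57445) (nat_lit 19) (.e (nat_lit 393233) (nat_lit 17) (.e (nat_lit 7581) (nat_lit 405) (.e (nat_lit 57480) (nat_lit 28) (.e (nat_lit 557103) (nat_lit 14) .nil))))) .nil))) (.nd (nat_lit 5) 
(.lf (nat_lit 161694) (.g (nat_lit 1640) (.e (nat_lit 57445) (nat_lit 19) (.e (nat_lit 393233) (nat_lit 17) (.e (nat_lit 7581) (nat_lit 405) (.e (nat_lit 57476) (nat_lit 28) (.e (nat_lit 557103) (nat_lit 14) .nil))))) .nil)) 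
(.lf (nat_lit 161726) (.g (nat_lit 1772) (.e (nat_lit 57445) (nat_lit 19) (.e (nat_lit 393234) (nat_lit 17) (.e (nat_lit 7581) (nat_lit 405) (.e (nat_lit 57477) (nat_lit 28) (.e (nat_lit 557097) (nat_lit 13) .nil))))) .nil))))))) (.nd (nat_lit 1) (.nd (nat_lit 2) (.nd (nat_lit 3) (.nd (nat_lit 4) (.nd (nat_lit 5) 
(.lf (nat_lit 161665) (.g (nat_lit 2432) (.e (nat_lit 57445) (nat_lit 19) (.e (nat_lit 401152) (nat_lit 12) (.e (nat_lit 360475) (nat_lit 8) (.e (nat_lit 557090) (nat_lit 12) (.e (nat_lit 163840) (nat_lit 0) (.e (nat_lit 5190) (nat_lit 294) .nil)))))) (.g (nat_lit 4) .nil .nil))) 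
(.lf (nat_lit 161697) (.g (nat_lit 2131) (.e (nat_lit 57445) (nat_lit 19) (.e (nat_lit 393233) (nat_lit 17) (.e (nat_lit 7581) (nat_lit 405) (.e (nat_lit 57476) (nat_lit 28) (.e (nat_lit 557104) (nat_lit 14) (.e (nat_lit 180227) (nat_lit 0) (.e (nat_lit 5945) (nat_lit 322) .nil))))))) (.g (nat_lit 4) .nil .nil)))) (.nd (nat_lit 5) 
(.lf (nat_lit 161681) (.g (nat_lit 3123) (.e (nat_lit 57445) (nat_lit 19) (.e (nat_lit 393232) (nat_lit 17) (.e (nat_lit 7581) (nat_lit 405) (.e (nat_lit 57479) (nat_lit 28) (.e (nat_lit 557105) (nat_lit 14) (.e (nat_lit 180227) (nat_lit 0) (.e (nat_lit 5945) (nat_lit 322) .nil))))))) (.g (nat_lit 4) .nil .nil))) 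
(.lf (nat_lit 161713) (.g (nat_lit 2095) (.e (nat_lit 57445) (nat_lit 19) (.e (nat_lit 393233) (nat_lit 17) (.e (nat_lit 7581) (nat_lit 405) (.e (nat_lit 57480) (nat_lit 28) (.e (nat_lit 557103) (nat_lit 14) (.e (nat_lit 180233) (nat_lit 0) (.e (nat_lit 5947) (nat_lit 322) .nil))))))) (.g (nat_lit 4) .nil .nil))))) (.nd (nat_lit 4) (.nd (nat_lit 5) 
(.lf (nat_lit 161673) (.g (nat_lit 2783) (.e (nat_lit 57445) (nat_lit 19) (.e (nat_lit 393231) (nat_lit 17) (.e (nat_lit 7581) (nat_lit 405) (.e (nat_lit 57480) (nat_lit 28) (.e (nat_lit 557105) (nat_lit 14) (.e (nat_lit 180227) (nat_lit 0) (.e (nat_lit 5945) (nat_lit 322) .nil))))))) (.g (nat_lit 5) .nil .nil))) 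
(.lf (nat_lit 161705) (.g (nat_lit 2360) (.e (nat_lit 57445) (nat_lit 19) (.e (nat_lit 393233) (nat_lit 17) (.e (nat_lit 7581) (nat_lit 405) (.e (nat_lit 57477) (nat_lit 28) (.e (nat_lit 557104) (nat_lit 14) (.e (nat_lit 180227) (nat_lit 0) (.e (nat_lit 5945) (nat_lit 322) .nil))))))) (.g (nat_lit 5) .nil .nil)))) (.nd (nat_lit 5) 
(.lf (nat_lit 161689) (.g (nat_lit 3353) (.e (nat_lit 57445) (nat_lit 19) (.e (nat_lit 393232) (nat_lit 17) (.e (nat_lit 7581) (nat_lit 405) (.e (nat_lit 57480) (nat_lit 28) (.e (nat_lit 557105) (nat_lit 14) (.e (nat_lit 180227) (nat_lit 0) (.e (nat_lit 5934) (nat_lit 322) .nil))))))) (.g (nat_lit 5) .nil .nil))) 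
(.lf (nat_lit 161721) (.g (nat_lit 2245) (.e (nat_lit 57445) (nat_lit 19) (.e (nat_lit 393233) (nat_lit 17) (.e (nat_lit 7583) (nat_lit 405) (.e (nat_lit 57476) (nat_lit 28) (.e (nat_lit 557104) (nat_lit 14) (.e (nat_lit 180233) (nat_lit 0) (.e (nat_lit 5947) (nat_lit 322) .nil))))))) (.g (nat_lit 5) .nil .nil)))))) (.nd (nat_lit 3) (.nd (nat_lit 4) (.nd (nat_lit 5) 
(.lf (nat_lit 161669) (.g (nat_lit 1841) (.e (nat_lit 57445) (nat_lit 19) (.e (nat_lit 401152) (nat_lit 12) (.e (nat_lit 360475) (nat_lit 8) (.e (nat_lit 557091) (nat_lit 12) (.e (nat_lit 171776) (nat_lit 0) (.e (nat_lit 5195) (nat_lit 294) .nil)))))) (.g (nat_lit 4) .nil .nil))) 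
(.lf (nat_lit 161701) (.g (nat_lit 2031) (.e (nat_lit 57445) (nat_lit 19) (.e (nat_lit 393233) (nat_lit 17) (.e (nat_lit 7581) (nat_lit 405) (.e (nat_lit 57477) (nat_lit 28) (.e (nat_lit 557103) (nat_lit 14) (.e (nat_lit 180225) (nat_lit 0) (.e (nat_lit 5945) (nat_lit 322) .nil))))))) (.g (nat_lit 4) .nil .nil)))) (.nd (nat_lit 5) 
(.lf (nat_lit 161685) (.g (nat_lit 2649) (.e (nat_lit 57445) (nat_lit 19) (.e (nat_lit 393232) (nat_lit 17) (.e (nat_lit 7581) (nat_lit 405) (.e (nat_lit 57480) (nat_lit 28) (.e (nat_lit 557103) (nat_lit 14) (.e (nat_lit 180225) (nat_lit 0) (.e (nat_lit 5945) (nat_lit 322) .nil))))))) (.g (nat_lit 4) .nil .nil))) 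
(.lf (nat_lit 161717) (.g (nat_lit 2114) (.e (nat_lit 57445) (nat_lit 19) (.e (nat_lit 393233) (nat_lit 17) (.e (nat_lit 7581) (nat_lit 405) (.e (nat_lit 57480) (nat_lit 28) (.e (nat_lit 557105) (nat_lit 14) (.e (nat_lit 180233) (nat_lit 0) (.e (nat_lit 5947) (nat_lit 322) .nil))))))) (.g (nat_lit 4) .nil .nil))))) (.nd (nat_lit 4) (.nd (nat_lit 5) 
(.lf (nat_lit 161677) (.g (nat_lit 3279) (.e (nat_lit 57445) (nat_lit 19) (.e (nat_lit 393232) (nat_lit 17) (.e (nat_lit 7581) (nat_lit 405) (.e (nat_lit 57477) (nat_lit 28) (.e (nat_lit 557103) (nat_lit 14) (.e (nat_lit 180233) (nat_lit 0) (.e (nat_lit 5948) (nat_lit 322) .nil))))))) (.g (nat_lit 5) .nil .nil))) 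
(.lf (nat_lit 161709) (.g (nat_lit 1092) (.e (nat_lit 57445) (nat_lit 19) (.e (nat_lit 393233) (nat_lit 17) (.e (nat_lit 7581) (nat_lit 405) (.e (nat_lit 57479) (nat_lit 28) .nil)))) .nil))) (.nd (nat_lit 5) 
(.lf (nat_lit 161693) (.g (nat_lit 1124) (.e (nat_lit 57445) (nat_lit 19) (.e (nat_lit 393233) (nat_lit 17) (.e (nat_lit 7581) (nat_lit 405) (.e (nat_lit 57476) (nat_lit 28) .nil)))) .nil)) 
(.lf (nat_lit 161725) (.g (nat_lit 2204) (.e (nat_lit 57445) (nat_lit 19) (.e (nat_lit 393234) (nat_lit 17) (.e (nat_lit 7581) (nat_lit 405) (.e (nat_lit 57476) (nat_lit 28) (.e (nat_lit 557104) (nat_lit 14) .nil))))) .nil)))))) (.nd (nat_lit 2) (.nd (nat_lit 3) (.nd (nat_lit 4) (.nd (nat_lit 5) 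
(.lf (nat_lit 161667) (.g (nat_lit 2079) (.e (nat_lit 57445) (nat_lit 19) (.e (nat_lit 401152) (nat_lit 12) (.e (nat_lit 360475) (nat_lit 8) (.e (nat_lit 557090) (nat_lit 12) (.e (nat_lit 171776) (nat_lit 0) (.e (nat_lit 5193) (nat_lit 294) .nil)))))) (.g (nat_lit 4) .nil .nil))) 
(.lf (nat_lit 161699) (.g (nat_lit 873) (.e (nat_lit 57445) (nat_lit 19) (.e (nat_lit 393233) (nat_lit 17) (.e (nat_lit 7581) (nat_lit 405) (.e (nat_lit 57477) (nat_lit 28) .nil)))) .nil))) (.nd (nat_lit 5) 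
(.lf (nat_lit 161683) (.g (nat_lit 1881) (.e (nat_lit 57445) (nat_lit 19) (.e (nat_lit 393232) (nat_lit 17) (.e (nat_lit 7581) (nat_lit 405) (.e (nat_lit 57480) (nat_lit 28) (.e (nat_lit 557098) (nat_lit 13) .nil))))) .nil)) 
(.lf (nat_lit 161715) (.g (nat_lit 1404) (.e (nat_lit 57445) (nat_lit 19) (.e (nat_lit 393233) (nat_lit 17) (.e (nat_lit 7581) (nat_lit 405) (.e (nat_lit 57480) (nat_lit 28) (.e (nat_lit 557105) (nat_lit 14) .nil))))) .nil)))) (.nd (nat_lit 4) (.nd (nat_lit 5) 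
(.lf (nat_lit 161675) (.g (nat_lit 1987) (.e (nat_lit 57445) (nat_lit 19) (.e (nat_lit 393232) (nat_lit 17) (.e (nat_lit 7581) (nat_lit 405) (.e (nat_lit 57476) (nat_lit 28) (.e (nat_lit 557104) (nat_lit 14) .nil))))) .nil)) 
(.lf (nat_lit 161707) (.g (nat_lit 1940) (.e (nat_lit 57445) (nat_lit 19) (.e (nat_lit 393233) (nat_lit 17) (.e (nat_lit 7581) (nat_lit 405) (.e (nat_lit 57477) (nat_lit 28) (.e (nat_lit 557104) (nat_lit 14) (.e (nat_lit 180229) (nat_lit 0) (.e (nat_lit 5952) (nat_lit 322) .nil))))))) (.g (nat_lit 4) .nil .nil)))) (.nd (nat_lit 5) 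
(.lf (nat_lit 161691) (.g (nat_lit 2863) (.e (nat_lit 57445) (nat_lit 19) (.e (nat_lit 393232) (nat_lit 17) (.e (nat_lit 7583) (nat_lit 405) (.e (nat_lit 57476) (nat_lit 28) (.e (nat_lit 557104) (nat_lit 14) (.e (nat_lit 180233) (nat_lit 0) (.e (nat_lit 5948) (nat_lit 322) .nil))))))) (.g (nat_lit 5) .nil .nil))) 
(.lf (nat_lit 161723) (.g (nat_lit 639) (.e (nat_lit 57445) (nat_lit 19) (.e (nat_lit 393234) (nat_lit 17) (.e (nat_lit 7581) (nat_lit 405) .nil))) .nil))))) (.nd (nat_lit 3) (.nd (nat_lit 4) (.nd (nat_lit 5) 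
(.lf (nat_lit 161671) (.g (nat_lit 2489) (.e (nat_lit 57445) (nat_lit 19) (.e (nat_lit 393231) (nat_lit 17) (.e (nat_lit 7581) (nat_lit 405) (.e (nat_lit 57477) (nat_lit 28) (.e (nat_lit 557103) (nat_lit 14) (.e (nat_lit 180233) (nat_lit 0) (.e (nat_lit 5948) (nat_lit 322) .nil))))))) (.g (nat_lit 5) .nil .nil))) 
(.lf (nat_lit 161703) (.g (nat_lit 2826) (.e (nat_lit 57445) (nat_lit 19) (.e (nat_lit 393233) (nat_lit 17) (.e (nat_lit 7581) (nat_lit 405) (.e (nat_lit 57477) (nat_lit 28) (.e (nat_lit 557103) (nat_lit 14) (.e (nat_lit 180233) (nat_lit 0) (.e (nat_lit 5948) (nat_lit 322) .nil))))))) (.g (nat_lit 5) .nil .nil)))) (.nd (nat_lit 5) 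
(.lf (nat_lit 161687) (.g (nat_lit 2972) (.e (nat_lit 57445) (nat_lit 19) (.e (nat_lit 393232) (nat_lit 17) (.e (nat_lit 7581) (nat_lit 405) (.e (nat_lit 57480) (nat_lit 28) (.e (nat_lit 557104) (nat_lit 14) (.e (nat_lit 180233) (nat_lit 0) (.e (nat_lit 5947) (nat_lit 322) .nil))))))) (.g (nat_lit 4) .nil .nil))) 
(.lf (nat_lit 161719) (.g (nat_lit 1170) (.e (nat_lit 57445) (nat_lit 19) (.e (nat_lit 393233) (nat_lit 17) (.e (nat_lit 7583) (nat_lit 405) (.e (nat_lit 57476) (nat_lit 28) (.e (nat_lit 557104) (nat_lit 14) .nil))))) .nil)))) (.nd (nat_lit 4) (.nd (nat_lit 5) 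
(.lf (nat_lit 161679) (.g (nat_lit 4082) (.e (nat_lit 57445) (nat_lit 19) (.e (nat_lit 393232) (nat_lit 17) (.e (nat_lit 7581) (nat_lit 405) (.e (nat_lit 57477) (nat_lit 28) (.e (nat_lit 557104) (nat_lit 14) (.e (nat_lit 180233) (nat_lit 0) (.e (nat_lit 5948) (nat_lit 322) .nil))))))) (.g (nat_lit 0) .nil .nil))) 
(.lf (nat_lit 161711) (.g (nat_lit 2330) (.e (nat_lit 57445) (nat_lit 19) (.e (nat_lit 393233) (nat_lit 17) (.e (nat_lit 7581) (nat_lit 405) (.e (nat_lit 57480) (nat_lit 28) (.e (nat_lit 557103) (nat_lit 14) (.e (nat_lit 180228) (nat_lit 0) (.e (nat_lit 5951) (nat_lit 322) .nil))))))) (.g (nat_lit 4) .nil .nil)))) (.nd (nat_lit 5) 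
(.lf (nat_lit 161695) (.g (nat_lit 3330) (.e (nat_lit 57445) (nat_lit 19) (.e (nat_lit 393233) (nat_lit 17) (.e (nat_lit 7581) (nat_lit 405) (.e (nat_lit 57476) (nat_lit 28) (.e (nat_lit 557103) (nat_lit 14) (.e (nat_lit 180225) (nat_lit 0) (.e (nat_lit 5954) (nat_lit 322) .nil))))))) (.g (nat_lit 5) .nil .nil))) 
(.lf (nat_lit 161727) (.g (nat_lit 1850) (.e (nat_lit 57445) (nat_lit 19) (.e (nat_lit 393234) (nat_lit 17) (.e (nat_lit 7581) (nat_lit 405) (.e (nat_lit 57477) (nat_lit 28) (.e (nat_lit 557103) (nat_lit 14) .nil))))) .nil))))))))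

noncomputable def tv2167 : DT := (.nd (nat_lit 0) (.nd (nat_lit 1) (.nd (nat_lit 2) (.nd (nat_lit 3) (.nd (nat_lit 4) (.nd (nat_lit 5) 
(.lf (nat_lit 161728) (.g (nat_lit 3433) (.e (nat_lit 57445) (nat_lit 19) (.e (nat_lit 393234) (nat_lit 17) (.e (nat_lit 7581) (nat_lit 405) (.e (nat_lit 57477) (nat_lit 28) (.e (nat_lit 557103) (nat_lit 14) (.e (nat_lit 180233) (nat_lit 0) (.e (nat_lit 5948) (nat_lit 322) .nil))))))) (.g (nat_lit 5) .nil .nil))) 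
(.lf (nat_lit 161760) (.g (nat_lit 1999) (.e (nat_lit 57445) (nat_lit 19) (.e (nat_lit 393274) (nat_lit 23) (.e (nat_lit 426132) (nat_lit 3) (.e (nat_lit 204813) (nat_lit 9) (.e (nat_lit 426100) (nat_lit 1) (.e (nat_lit 164399) (nat_lit 256) .nil)))))) (.g (nat_lit 4) .nil .nil)))) (.nd (nat_lit 5) 
(.lf (nat_lit 161744) (.g (nat_lit 1824) (.e (nat_lit 57445) (nat_lit 19) (.e (nat_lit 393251) (nat_lit 18) (.e (nat_lit 164325) (nat_lit 230) (.e (nat_lit 163861) (nat_lit 1) .nil)))) .nil)) 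
(.lf (nat_lit 161776) (.g (nat_lit 2108) (.e (nat_lit 57445) (nat_lit 19) (.e (nat_lit 393281) (nat_lit 23) (.e (nat_lit 426124) (nat_lit 2) (.e (nat_lit 196656) (nat_lit 11) (.e (nat_lit 16406) (nat_lit 1) .nil))))) .nil)))) (.nd (nat_lit 4) (.nd (nat_lit 5) 
(.lf (nat_lit 161736) (.g (nat_lit 2971) (.e (nat_lit 57445) (nat_lit 19) (.e (nat_lit 393234) (nat_lit 17) (.e (nat_lit 7581) (nat_lit 405) (.e (nat_lit 57480) (nat_lit 28) (.e (nat_lit 557104) (nat_lit 14) (.e (nat_lit 180233) (nat_lit 0) (.e (nat_lit 5947) (nat_lit 322) .nil))))))) (.g (nat_lit 4) .nil .nil))) 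
(.lf (nat_lit 161768) (.g (nat_lit 2127) (.e (nat_lit 57445) (nat_lit 19) (.e (nat_lit 393281) (nat_lit 23) (.e (nat_lit 426116) (nat_lit 2) (.e (nat_lit 196654) (nat_lit 11) (.e (nat_lit 16396) (nat_lit 0) (.e (nat_lit 2515) (nat_lit 157) (.e (nat_lit 5948) (nat_lit 322) .nil))))))) (.g (nat_lit 4) .nil .nil)))) (.nd (nat_lit 5) 
(.lf (nat_lit 161752) (.g (nat_lit 770) (.e (nat_lit 57445) (nat_lit 19) (.e (nat_lit 393273) (nat_lit 23) (.e (nat_lit 426130) (nat_lit 3) .nil))) .nil)) 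
(.lf (nat_lit 161784) (.g (nat_lit 2091) (.e (nat_lit 57445) (nat_lit 19) (.e (nat_lit 393281) (nat_lit 23) (.e (nat_lit 426133) (nat_lit 3) (.e (nat_lit 204809) (nat_lit 9) (.e (nat_lit 426105) (nat_lit 1) (.e (nat_lit 164403) (nat_lit 256) .nil)))))) (.g (nat_lit 4) .nil .nil)))))) (.nd (nat_lit 3) (.nd (nat_lit 4) (.nd (nat_lit 5) 
(.lf (nat_lit 161732) (.g (nat_lit 3104) (.e (nat_lit 57445) (nat_lit 19) (.e (nat_lit 393234) (nat_lit 17) (.e (nat_lit 7581) (nat_lit 405) (.e (nat_lit 57479) (nat_lit 28) (.e (nat_lit 557105) (nat_lit 14) (.e (nat_lit 180227) (nat_lit 0) (.e (nat_lit 5945) (nat_lit 322) .nil))))))) (.g (nat_lit 4) .nil .nil))) 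
(.lf (nat_lit 161764) (.g (nat_lit 2608) (.e (nat_lit 57445) (nat_lit 19) (.e (nat_lit 393281) (nat_lit 23) (.e (nat_lit 426115) (nat_lit 2) (.e (nat_lit 196654) (nat_lit 11) (.e (nat_lit 16407) (nat_lit 1) (.e (nat_lit 164403) (nat_lit 256) .nil)))))) (.g (nat_lit 0) .nil .nil)))) (.nd (nat_lit 5) 
(.lf (nat_lit 161748) (.g (nat_lit 2590) (.e (nat_lit 57445) (nat_lit 19) (.e (nat_lit 393271) (nat_lit 23) (.e (nat_lit 426131) (nat_lit 3) (.e (nat_lit 204808) (nat_lit 9) .nil)))) .nil)) 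
(.lf (nat_lit 161780) (.g (nat_lit 3129) (.e (nat_lit 57445) (nat_lit 19) (.e (nat_lit 393281) (nat_lit 23) (.e (nat_lit 426133) (nat_lit 3) (.e (nat_lit 204809) (nat_lit 9) (.e (nat_lit 426098) (nat_lit 1) (.e (nat_lit 164403) (nat_lit 256) .nil)))))) (.g (nat_lit 6) .nil .nil))))) (.nd (nat_lit 4) (.nd (nat_lit 5) 
(.lf (nat_lit 161740) (.g (nat_lit 1038) (.e (nat_lit 57445) (nat_lit 19) (.e (nat_lit 393234) (nat_lit 17) (.e (nat_lit 7583) (nat_lit 405) (.e (nat_lit 57476) (nat_lit 28) .nil)))) .nil)) 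
(.lf (nat_lit 161772) (.g (nat_lit 1993) (.e (nat_lit 57445) (nat_lit 19) (.e (nat_lit 393281) (nat_lit 23) (.e (nat_lit 426116) (nat_lit 2) (.e (nat_lit 196654) (nat_lit 11) (.e (nat_lit 16408) (nat_lit 1) (.e (nat_lit 164402) (nat_lit 256) .nil)))))) (.g (nat_lit 4) .nil .nil)))) (.nd (nat_lit 5) 
(.lf (nat_lit 161756) (.g (nat_lit 1770) (.e (nat_lit 57445) (nat_lit 19) (.e (nat_lit 393273) (nat_lit 23) (.e (nat_lit 426131) (nat_lit 3) (.e (nat_lit 204812) (nat_lit 9) .nil)))) .nil)) 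
(.lf (nat_lit 161788) (.g (nat_lit 3354) (.e (nat_lit 57445) (nat_lit 19) (.e (nat_lit 393281) (nat_lit 23) (.e (nat_lit 426133) (nat_lit 3) (.e (nat_lit 204809) (nat_lit 9) (.e (nat_lit 426108) (nat_lit 1) (.e (nat_lit 164403) (nat_lit 256) .nil)))))) (.g (nat_lit 0) .nil .nil))))))) (.nd (nat_lit 2) (.nd (nat_lit 3) (.nd (nat_lit 4) (.nd (nat_lit 5) 
(.lf (nat_lit 161730) (.g (nat_lit 4240) (.e (nat_lit 57445) (nat_lit 19) (.e (nat_lit 393234) (nat_lit 17) (.e (nat_lit 7581) (nat_lit 405) (.e (nat_lit 57477) (nat_lit 28) (.e (nat_lit 557104) (nat_lit 14) (.e (nat_lit 180233) (nat_lit 0) (.e (nat_lit 5948) (nat_lit 322) .nil))))))) (.g (nat_lit 0) .nil .nil))) 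
(.lf (nat_lit 161762) (.g (nat_lit 344) (.e (nat_lit 57445) (nat_lit 19) (.e (nat_lit 393281) (nat_lit 23) (.e (nat_lit 426115) (nat_lit 2) .nil))) .nil))) (.nd (nat_lit 5) 
(.lf (nat_lit 161746) (.g (nat_lit 2549) (.e (nat_lit 57445) (nat_lit 19) (.e (nat_lit 393251) (nat_lit 18) (.e (nat_lit 164406) (nat_lit 258) (.e (nat_lit 163867) (nat_lit 2) (.e (nat_lit 196663) (nat_lit 13) .nil))))) .nil)) 
(.lf (nat_lit 161778) (.g (nat_lit 2223) (.e (nat_lit 57445) (nat_lit 19) (.e (nat_lit 393281) (nat_lit 23) (.e (nat_lit 426124) (nat_lit 2) (.e (nat_lit 196656) (nat_lit 11) (.e (nat_lit 16407) (nat_lit 1) (.e (nat_lit 164402) (nat_lit 256) .nil)))))) (.g (nat_lit 4) .nil .nil))))) (.nd (nat_lit 4) (.nd (nat_lit 5) 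
(.lf (nat_lit 161738) (.g (nat_lit 1869) (.e (nat_lit 57445) (nat_lit 19) (.e (nat_lit 393234) (nat_lit 17) (.e (nat_lit 7581) (nat_lit 405) (.e (nat_lit 57480) (nat_lit 28) (.e (nat_lit 557105) (nat_lit 14) .nil))))) .nil)) 
(.lf (nat_lit 161770) (.g (nat_lit 2527) (.e (nat_lit 57445) (nat_lit 19) (.e (nat_lit 393281) (nat_lit 23) (.e (nat_lit 426116) (nat_lit 2) (.e (nat_lit 196654) (nat_lit 11) (.e (nat_lit 16407) (nat_lit 1) (.e (nat_lit 164396) (nat_lit 256) .nil)))))) (.g (nat_lit 4) .nil .nil)))) (.nd (nat_lit 5) 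
(.lf (nat_lit 161754) (.g (nat_lit 1801) (.e (nat_lit 57445) (nat_lit 19) (.e (nat_lit 393273) (nat_lit 23) (.e (nat_lit 426131) (nat_lit 3) (.e (nat_lit 204808) (nat_lit 9) .nil)))) .nil)) 
(.lf (nat_lit 161786) (.g (nat_lit 3398) (.e (nat_lit 57445) (nat_lit 19) (.e (nat_lit 393281) (nat_lit 23) (.e (nat_lit 426133) (nat_lit 3) (.e (nat_lit 204809) (nat_lit 9) (.e (nat_lit 426107) (nat_lit 1) (.e (nat_lit 164403) (nat_lit 256) .nil)))))) (.g (nat_lit 0) .nil .nil)))))) (.nd (nat_lit 3) (.nd (nat_lit 4) (.nd (nat_lit 5) 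
(.lf (nat_lit 161734) (.g (nat_lit 2128) (.e (nat_lit 57445) (nat_lit 19) (.e (nat_lit 393234) (nat_lit 17) (.e (nat_lit 7581) (nat_lit 405) (.e (nat_lit 57480) (nat_lit 28) (.e (nat_lit 557103) (nat_lit 14) .nil))))) .nil)) 
(.lf (nat_lit 161766) (.g (nat_lit 2652) (.e (nat_lit 57445) (nat_lit 19) (.e (nat_lit 393281) (nat_lit 23) (.e (nat_lit 426115) (nat_lit 2) (.e (nat_lit 196656) (nat_lit 11) (.e (nat_lit 16407) (nat_lit 1) (.e (nat_lit 164403) (nat_lit 256) .nil)))))) (.g (nat_lit 0) .nil .nil)))) (.nd (nat_lit 5) 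
(.lf (nat_lit 161750) (.g (nat_lit 2353) (.e (nat_lit 57445) (nat_lit 19) (.e (nat_lit 393271) (nat_lit 23) (.e (nat_lit 426131) (nat_lit 3) (.e (nat_lit 212736) (nat_lit 10) .nil)))) .nil)) 
(.lf (nat_lit 161782) (.g (nat_lit 3543) (.e (nat_lit 57445) (nat_lit 19) (.e (nat_lit 393281) (nat_lit 23) (.e (nat_lit 426133) (nat_lit 3) (.e (nat_lit 204809) (nat_lit 9) (.e (nat_lit 426100) (nat_lit 1) (.e (nat_lit 164398) (nat_lit 256) .nil)))))) (.g (nat_lit 0) .nil .nil))))) (.nd (nat_lit 4) (.nd (nat_lit 5) 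
(.lf (nat_lit 161742) (.g (nat_lit 1248) (.e (nat_lit 57445) (nat_lit 19) (.e (nat_lit 393251) (nat_lit 18) (.e (nat_lit 164319) (nat_lit 228) .nil))) .nil)) 
(.lf (nat_lit 161774) (.g (nat_lit 2192) (.e (nat_lit 57445) (nat_lit 19) (.e (nat_lit 393281) (nat_lit 23) (.e (nat_lit 426116) (nat_lit 2) (.e (nat_lit 196656) (nat_lit 11) (.e (nat_lit 16407) (nat_lit 1) (.e (nat_lit 164401) (nat_lit 256) .nil)))))) (.g (nat_lit 4) .nil .nil)))) (.nd (nat_lit 5) 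
(.lf (nat_lit 161758) (.g (nat_lit 1833) (.e (nat_lit 57445) (nat_lit 19) (.e (nat_lit 393273) (nat_lit 23) (.e (nat_lit 426354) (nat_lit 15) (.e (nat_lit 1838) (nat_lit 123) (.e (nat_lit 548913) (nat_lit 18) .nil))))) .nil)) 
(.lf (nat_lit 161790) (.g (nat_lit 1160) (.e (nat_lit 57445) (nat_lit 19) (.e (nat_lit 393281) (nat_lit 23) (.e (nat_lit 426133) (nat_lit 3) (.e (nat_lit 204811) (nat_lit 9) .nil)))) .nil))))))) (.nd (nat_lit 1) (.nd (nat_lit 2) (.nd (nat_lit 3) (.nd (nat_lit 4) (.nd (nat_lit 5) 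
(.lf (nat_lit 161729) (.g (nat_lit 1822) (.e (nat_lit 57445) (nat_lit 19) (.e (nat_lit 393234) (nat_lit 17) (.e (nat_lit 7581) (nat_lit 405) (.e (nat_lit 57477) (nat_lit 28) (.e (nat_lit 557104) (nat_lit 14) .nil))))) .nil)) 
(.lf (nat_lit 161761) (.g (nat_lit 2724) (.e (nat_lit 57445) (nat_lit 19) (.e (nat_lit 393275) (nat_lit 23) (.e (nat_lit 426125) (nat_lit 2) (.e (nat_lit 196630) (nat_lit 9) (.e (nat_lit 430) (nat_lit 32) (.e (nat_lit 426098) (nat_lit 1) (.e (nat_lit 164399) (nat_lit 256) .nil))))))) (.g (nat_lit 4) .nil .nil)))) (.nd (nat_lit 5) 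
(.lf (nat_lit 161745) (.g (nat_lit 1717) (.e (nat_lit 57445) (nat_lit 19) (.e (nat_lit 393251) (nat_lit 18) (.e (nat_lit 164325) (nat_lit 230) (.e (nat_lit 163864) (nat_lit 1) .nil)))) .nil)) 
(.lf (nat_lit 161777) (.g (nat_lit 2196) (.e (nat_lit 57445) (nat_lit 19) (.e (nat_lit 393281) (nat_lit 23) (.e (nat_lit 426124) (nat_lit 2) (.e (nat_lit 196656) (nat_lit 11) (.e (nat_lit 16407) (nat_lit 1) (.e (nat_lit 164401) (nat_lit 256) .nil)))))) (.g (nat_lit 4) .nil .nil))))) (.nd (nat_lit 4) (.nd (nat_lit 5) 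
(.lf (nat_lit 161737) (.g (nat_lit 3385) (.e (nat_lit 57445) (nat_lit 19) (.e (nat_lit 393234) (nat_lit 17) (.e (nat_lit 7581) (nat_lit 405) (.e (nat_lit 57480) (nat_lit 28) (.e (nat_lit 557104) (nat_lit 14) (.e (nat_lit 180233) (nat_lit 0) (.e (nat_lit 5949) (nat_lit 322) .nil))))))) (.g (nat_lit 4) .nil .nil))) 
(.lf (nat_lit 161769) (.g (nat_lit 2300) (.e (nat_lit 57445) (nat_lit 19) (.e (nat_lit 393281) (nat_lit 23) (.e (nat_lit 426116) (nat_lit 2) (.e (nat_lit 196654) (nat_lit 11) (.e (nat_lit 16406) (nat_lit 1) (.e (nat_lit 164401) (nat_lit 256) .nil)))))) (.g (nat_lit 4) .nil .nil)))) (.nd (nat_lit 5) 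
(.lf (nat_lit 161753) (.g (nat_lit 662) (.e (nat_lit 57445) (nat_lit 19) (.e (nat_lit 393273) (nat_lit 23) (.e (nat_lit 426131) (nat_lit 3) .nil))) .nil)) 
(.lf (nat_lit 161785) (.g (nat_lit 2178) (.e (nat_lit 57445) (nat_lit 19) (.e (nat_lit 393281) (nat_lit 23) (.e (nat_lit 426133) (nat_lit 3) (.e (nat_lit 204809) (nat_lit 9) (.e (nat_lit 426107) (nat_lit 1) (.e (nat_lit 164396) (nat_lit 256) .nil)))))) (.g (nat_lit 4) .nil .nil)))))) (.nd (nat_lit 3) (.nd (nat_lit 4) (.nd (nat_lit 5) 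
(.lf (nat_lit 161733) (.g (nat_lit 2152) (.e (nat_lit 57445) (nat_lit 19) (.e (nat_lit 393234) (nat_lit 17) (.e (nat_lit 7581) (nat_lit 405) (.e (nat_lit 57480) (nat_lit 28) (.e (nat_lit 557098) (nat_lit 13) .nil))))) .nil)) 
(.lf (nat_lit 161765) (.g (nat_lit 1481) (.e (nat_lit 57445) (nat_lit 19) (.e (nat_lit 393281) (nat_lit 23) (.e (nat_lit 426115) (nat_lit 2) (.e (nat_lit 196654) (nat_lit 11) (.e (nat_lit 16408) (nat_lit 1) (.e (nat_lit 164402) (nat_lit 256) .nil)))))) (.g (nat_lit 4) .nil .nil)))) (.nd (nat_lit 5) 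
(.lf (nat_lit 161749) (.g (nat_lit 2525) (.e (nat_lit 57445) (nat_lit 19) (.e (nat_lit 393271) (nat_lit 23) (.e (nat_lit 426131) (nat_lit 3) (.e (nat_lit 204812) (nat_lit 9) .nil)))) .nil)) 
(.lf (nat_lit 161781) (.g (nat_lit 1793) (.e (nat_lit 57445) (nat_lit 19) (.e (nat_lit 393281) (nat_lit 23) (.e (nat_lit 426133) (nat_lit 3) (.e (nat_lit 204809) (nat_lit 9) (.e (nat_lit 426099) (nat_lit 1) (.e (nat_lit 164398) (nat_lit 256) .nil)))))) (.g (nat_lit 4) .nil .nil))))) (.nd (nat_lit 4) (.nd (nat_lit 5) 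
(.lf (nat_lit 161741) (.g (nat_lit 1589) (.e (nat_lit 57445) (nat_lit 19) (.e (nat_lit 393234) (nat_lit 17) (.e (nat_lit 7583) (nat_lit 405) (.e (nat_lit 57476) (nat_lit 28) (.e (nat_lit 557104) (nat_lit 14) .nil))))) .nil)) 
(.lf (nat_lit 161773) (.g (nat_lit 2116) (.e (nat_lit 57445) (nat_lit 19) (.e (nat_lit 393281) (nat_lit 23) (.e (nat_lit 426116) (nat_lit 2) (.e (nat_lit 196656) (nat_lit 11) (.e (nat_lit 16392) (nat_lit 0) (.e (nat_lit 2484) (nat_lit 157) (.e (nat_lit 5947) (nat_lit 322) .nil))))))) (.g (nat_lit 4) .nil .nil)))) (.nd (nat_lit 5) 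
(.lf (nat_lit 161757) (.g (nat_lit 657) (.e (nat_lit 57445) (nat_lit 19) (.e (nat_lit 393273) (nat_lit 23) (.e (nat_lit 433920) (nat_lit 3) .nil))) .nil)) 
(.lf (nat_lit 161789) (.g (nat_lit 1834) (.e (nat_lit 57445) (nat_lit 19) (.e (nat_lit 393281) (nat_lit 23) (.e (nat_lit 426133) (nat_lit 3) (.e (nat_lit 204809) (nat_lit 9) (.e (nat_lit 433920) (nat_lit 1) .nil))))) .nil)))))) (.nd (nat_lit 2) (.nd (nat_lit 3) (.nd (nat_lit 4) (.nd (nat_lit 5) 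
(.lf (nat_lit 161731) (.g (nat_lit 1594) (.e (nat_lit 57445) (nat_lit 19) (.e (nat_lit 393234) (nat_lit 17) (.e (nat_lit 7581) (nat_lit 405) (.e (nat_lit 57479) (nat_lit 28) .nil)))) .nil)) 
(.lf (nat_lit 161763) (.g (nat_lit 2754) (.e (nat_lit 57445) (nat_lit 19) (.e (nat_lit 393281) (nat_lit 23) (.e (nat_lit 426115) (nat_lit 2) (.e (nat_lit 196654) (nat_lit 11) (.e (nat_lit 16406) (nat_lit 1) (.e (nat_lit 164398) (nat_lit 256) .nil)))))) (.g (nat_lit 0) .nil .nil)))) (.nd (nat_lit 5) 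
(.lf (nat_lit 161747) (.g (nat_lit 1257) (.e (nat_lit 57445) (nat_lit 19) (.e (nat_lit 393271) (nat_lit 23) (.e (nat_lit 426131) (nat_lit 3) .nil))) .nil)) 
(.lf (nat_lit 161779) (.g (nat_lit 3047) (.e (nat_lit 57445) (nat_lit 19) (.e (nat_lit 393281) (nat_lit 23) (.e (nat_lit 426133) (nat_lit 3) (.e (nat_lit 204809) (nat_lit 9) (.e (nat_lit 426098) (nat_lit 1) (.e (nat_lit 164399) (nat_lit 256) .nil)))))) (.g (nat_lit 0) .nil .nil))))) (.nd (nat_lit 4) (.nd (nat_lit 5) 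
(.lf (nat_lit 161739) (.g (nat_lit 3557) (.e (nat_lit 57445) (nat_lit 19) (.e (nat_lit 393234) (nat_lit 17) (.e (nat_lit 7581) (nat_lit 405) (.e (nat_lit 57480) (nat_lit 28) (.e (nat_lit 557105) (nat_lit 14) (.e (nat_lit 180227) (nat_lit 0) (.e (nat_lit 5945) (nat_lit 322) .nil))))))) (.g (nat_lit 5) .nil .nil))) 
(.lf (nat_lit 161771) (.g (nat_lit 3156) (.e (nat_lit 57445) (nat_lit 19) (.e (nat_lit 393281) (nat_lit 23) (.e (nat_lit 426116) (nat_lit 2) (.e (nat_lit 196654) (nat_lit 11) (.e (nat_lit 16407) (nat_lit 1) (.e (nat_lit 164403) (nat_lit 256) .nil)))))) (.g (nat_lit 0) .nil .nil)))) (.nd (nat_lit 5) 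
(.lf (nat_lit 161755) (.g (nat_lit 1704) (.e (nat_lit 57445) (nat_lit 19) (.e (nat_lit 393273) (nat_lit 23) (.e (nat_lit 426131) (nat_lit 3) (.e (nat_lit 204809) (nat_lit 9) .nil)))) .nil)) 
(.lf (nat_lit 161787) (.g (nat_lit 3916) (.e (nat_lit 57445) (nat_lit 19) (.e (nat_lit 393281) (nat_lit 23) (.e (nat_lit 426133) (nat_lit 3) (.e (nat_lit 204809) (nat_lit 9) (.e (nat_lit 426108) (nat_lit 1) (.e (nat_lit 164402) (nat_lit 256) .nil)))))) (.g (nat_lit 0) .nil .nil)))))) (.nd (nat_lit 3) (.nd (nat_lit 4) (.nd (nat_lit 5) 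
(.lf (nat_lit 161735) (.g (nat_lit 2554) (.e (nat_lit 57445) (nat_lit 19) (.e (nat_lit 393234) (nat_lit 17) (.e (nat_lit 7581) (nat_lit 405) (.e (nat_lit 57480) (nat_lit 28) (.e (nat_lit 557103) (nat_lit 14) (.e (nat_lit 180229) (nat_lit 0) (.e (nat_lit 5951) (nat_lit 322) .nil))))))) (.g (nat_lit 4) .nil .nil))) 
(.lf (nat_lit 161767) (.g (nat_lit 879) (.e (nat_lit 57445) (nat_lit 19) (.e (nat_lit 393281) (nat_lit 23) (.e (nat_lit 426116) (nat_lit 2) (.e (nat_lit 196654) (nat_lit 11) .nil)))) .nil))) (.nd (nat_lit 5) 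
(.lf (nat_lit 161751) (.g (nat_lit 1816) (.e (nat_lit 57445) (nat_lit 19) (.e (nat_lit 393273) (nat_lit 23) (.e (nat_lit 426095) (nat_lit 0) (.e (nat_lit 3238) (nat_lit 197) (.e (nat_lit 532579) (nat_lit 26) .nil))))) .nil)) 
(.lf (nat_lit 161783) (.g (nat_lit 3179) (.e (nat_lit 57445) (nat_lit 19) (.e (nat_lit 393281) (nat_lit 23) (.e (nat_lit 426133) (nat_lit 3) (.e (nat_lit 204809) (nat_lit 9) (.e (nat_lit 426100) (nat_lit 1) (.e (nat_lit 164399) (nat_lit 256) .nil)))))) (.g (nat_lit 0) .nil .nil))))) (.nd (nat_lit 4) (.nd (nat_lit 5) 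
(.lf (nat_lit 161743) (.g (nat_lit 807) (.e (nat_lit 57445) (nat_lit 19) (.e (nat_lit 393251) (nat_lit 18) (.e (nat_lit 164325) (nat_lit 230) .nil))) .nil)) 
(.lf (nat_lit 161775) (.g (nat_lit 3186) (.e (nat_lit 57445) (nat_lit 19) (.e (nat_lit 393281) (nat_lit 23) (.e (nat_lit 426116) (nat_lit 2) (.e (nat_lit 196656) (nat_lit 11) (.e (nat_lit 16407) (nat_lit 1) (.e (nat_lit 164403) (nat_lit 256) .nil)))))) (.g (nat_lit 0) .nil .nil)))) (.nd (nat_lit 5) 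
(.lf (nat_lit 161759) (.g (nat_lit 1928) (.e (nat_lit 57445) (nat_lit 19) (.e (nat_lit 393274) (nat_lit 23) (.e (nat_lit 426132) (nat_lit 3) (.e (nat_lit 204813) (nat_lit 9) (.e (nat_lit 426098) (nat_lit 1) (.e (nat_lit 164399) (nat_lit 256) .nil)))))) (.g (nat_lit 4) .nil .nil))) 
(.lf (nat_lit 161791) (.g (nat_lit 1759) (.e (nat_lit 57445) (nat_lit 19) (.e (nat_lit 393281) (nat_lit 23) (.e (nat_lit 426133) (nat_lit 3) (.e (nat_lit 204812) (nat_lit 9) .nil)))) .nil))))))))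

noncomputable def tv2168 : DT := (.nd (nat_lit 0) (.nd (nat_lit 1) (.nd (nat_lit 2) (.nd (nat_lit 3) (.nd (nat_lit 4) (.nd (nat_lit 5) 
(.lf (nat_lit 161792) (.g (nat_lit 2461) (.e (nat_lit 57445) (nat_lit 19) (.e (nat_lit 393281) (nat_lit 23) (.e (nat_lit 426133) (nat_lit 3) (.e (nat_lit 204813) (nat_lit 9) (.e (nat_lit 426099) (nat_lit 1) (.e (nat_lit 164399) (nat_lit 256) .nil)))))) (.g (nat_lit 4) .nil .nil))) 
(.lf (nat_lit 161824) (.g (nat_lit 774) (.e (nat_lit 57445) (nat_lit 19) (.e (nat_lit 393298) (nat_lit 27) (.e (nat_lit 491571) (nat_lit 13) .nil))) .nil))) (.nd (nat_lit 5) 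
(.lf (nat_lit 161808) (.g (nat_lit 1417) (.e (nat_lit 57445) (nat_lit 19) (.e (nat_lit 393289) (nat_lit 25) (.e (nat_lit 458789) (nat_lit 23) (.e (nat_lit 532578) (nat_lit 26) .nil)))) .nil)) 
(.lf (nat_lit 161840) (.g (nat_lit 2873) (.e (nat_lit 57445) (nat_lit 19) (.e (nat_lit 393301) (nat_lit 27) (.e (nat_lit 491560) (nat_lit 10) (.e (nat_lit 344179) (nat_lit 44) .nil)))) .nil)))) (.nd (nat_lit 4) (.nd (nat_lit 5) 
(.lf (nat_lit 161800) (.g (nat_lit 3106) (.e (nat_lit 57445) (nat_lit 19) (.e (nat_lit 393283) (nat_lit 24) (.e (nat_lit 434231) (nat_lit 23) (.e (nat_lit 532579) (nat_lit 26) (.e (nat_lit 426098) (nat_lit 1) (.e (nat_lit 164403) (nat_lit 256) .nil)))))) (.g (nat_lit 5) .nil .nil))) 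
(.lf (nat_lit 161832) (.g (nat_lit 1570) (.e (nat_lit 57445) (nat_lit 19) (.e (nat_lit 393300) (nat_lit 27) (.e (nat_lit 491526) (nat_lit 0) (.e (nat_lit 1848) (nat_lit 124) .nil)))) .nil))) (.nd (nat_lit 5) 
(.lf (nat_lit 161816) (.g (nat_lit 1421) (.e (nat_lit 57445) (nat_lit 19) (.e (nat_lit 393296) (nat_lit 26) (.e (nat_lit 483072) (nat_lit 31) (.e (nat_lit 573471) (nat_lit 11) (.e (nat_lit 16406) (nat_lit 1) .nil))))) .nil)) 
(.lf (nat_lit 161848) (.g (nat_lit 1605) (.e (nat_lit 57446) (nat_lit 19) (.e (nat_lit 393227) (nat_lit 9) (.e (nat_lit 336118) (nat_lit 9) (.e (nat_lit 336323) (nat_lit 18) (.e (nat_lit 204831) (nat_lit 18) (.e (nat_lit 57851) (nat_lit 252) .nil)))))) (.g (nat_lit 0) .nil .nil)))))) (.nd (nat_lit 3) (.nd (nat_lit 4) (.nd (nat_lit 5) 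
(.lf (nat_lit 161796) (.g (nat_lit 3459) (.e (nat_lit 57445) (nat_lit 19) (.e (nat_lit 393281) (nat_lit 23) (.e (nat_lit 426133) (nat_lit 3) (.e (nat_lit 204813) (nat_lit 9) (.e (nat_lit 426108) (nat_lit 1) (.e (nat_lit 164403) (nat_lit 256) .nil)))))) (.g (nat_lit 0) .nil .nil))) 
(.lf (nat_lit 161828) (.g (nat_lit 1009) (.e (nat_lit 57445) (nat_lit 19) (.e (nat_lit 393299) (nat_lit 27) (.e (nat_lit 491520) (nat_lit 0) .nil))) .nil))) (.nd (nat_lit 5) 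
(.lf (nat_lit 161812) (.g (nat_lit 1338) (.e (nat_lit 57445) (nat_lit 19) (.e (nat_lit 393289) (nat_lit 25) (.e (nat_lit 458789) (nat_lit 23) (.e (nat_lit 532582) (nat_lit 26) .nil)))) .nil)) 
(.lf (nat_lit 161844) (.g (nat_lit 2106) (.e (nat_lit 57446) (nat_lit 19) (.e (nat_lit 393227) (nat_lit 9) (.e (nat_lit 336118) (nat_lit 9) (.e (nat_lit 336323) (nat_lit 18) (.e (nat_lit 204829) (nat_lit 18) (.e (nat_lit 57847) (nat_lit 252) .nil)))))) (.g (nat_lit 0) .nil .nil))))) (.nd (nat_lit 4) (.nd (nat_lit 5) 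
(.lf (nat_lit 161804) (.g (nat_lit 1965) (.e (nat_lit 57445) (nat_lit 19) (.e (nat_lit 393284) (nat_lit 24) (.e (nat_lit 434231) (nat_lit 23) (.e (nat_lit 532579) (nat_lit 26) (.e (nat_lit 426098) (nat_lit 1) .nil))))) .nil)) 
(.lf (nat_lit 161836) (.g (nat_lit 2071) (.e (nat_lit 57445) (nat_lit 19) (.e (nat_lit 393301) (nat_lit 27) (.e (nat_lit 491526) (nat_lit 0) (.e (nat_lit 1848) (nat_lit 124) .nil)))) .nil))) (.nd (nat_lit 5) 
(.lf (nat_lit 161820) (.g (nat_lit 1819) (.e (nat_lit 57445) (nat_lit 19) (.e (nat_lit 393298) (nat_lit 27) (.e (nat_lit 491526) (nat_lit 0) (.e (nat_lit 1848) (nat_lit 124) .nil)))) .nil)) 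
(.lf (nat_lit 161852) (.g (nat_lit 1630) (.e (nat_lit 57446) (nat_lit 19) (.e (nat_lit 393227) (nat_lit 9) (.e (nat_lit 336121) (nat_lit 9) (.e (nat_lit 336323) (nat_lit 18) (.e (nat_lit 204830) (nat_lit 18) (.e (nat_lit 57854) (nat_lit 252) .nil)))))) (.g (nat_lit 6) .nil .nil))))))) (.nd (nat_lit 2) (.nd (nat_lit 3) (.nd (nat_lit 4) (.nd (nat_lit 5) 
(.lf (nat_lit 161794) (.g (nat_lit 3393) (.e (nat_lit 57445) (nat_lit 19) (.e (nat_lit 393281) (nat_lit 23) (.e (nat_lit 426133) (nat_lit 3) (.e (nat_lit 204813) (nat_lit 9) (.e (nat_lit 426107) (nat_lit 1) (.e (nat_lit 164403) (nat_lit 256) .nil)))))) (.g (nat_lit 0) .nil .nil))) 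
(.lf (nat_lit 161826) (.g (nat_lit 3147) (.e (nat_lit 57445) (nat_lit 19) (.e (nat_lit 393298) (nat_lit 27) (.e (nat_lit 491571) (nat_lit 13) (.e (nat_lit 393255) (nat_lit 19) .nil)))) .nil))) (.nd (nat_lit 5) 
(.lf (nat_lit 161810) (.g (nat_lit 2266) (.e (nat_lit 57445) (nat_lit 19) (.e (nat_lit 393289) (nat_lit 25) (.e (nat_lit 458789) (nat_lit 23) (.e (nat_lit 532579) (nat_lit 26) (.e (nat_lit 426099) (nat_lit 1) (.e (nat_lit 164399) (nat_lit 256) .nil)))))) (.g (nat_lit 4) .nil .nil))) 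
(.lf (nat_lit 161842) (.g (nat_lit 795) (.e (nat_lit 57446) (nat_lit 19) (.e (nat_lit 393225) (nat_lit 9) (.e (nat_lit 336203) (nat_lit 12) .nil))) .nil)))) (.nd (nat_lit 4) (.nd (nat_lit 5) 
(.lf (nat_lit 161802) (.g (nat_lit 3250) (.e (nat_lit 57445) (nat_lit 19) (.e (nat_lit 393283) (nat_lit 24) (.e (nat_lit 434231) (nat_lit 23) (.e (nat_lit 532579) (nat_lit 26) (.e (nat_lit 426107) (nat_lit 1) (.e (nat_lit 164402) (nat_lit 256) .nil)))))) (.g (nat_lit 5) .nil .nil))) 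
(.lf (nat_lit 161834) (.g (nat_lit 2087) (.e (nat_lit 57445) (nat_lit 19) (.e (nat_lit 393300) (nat_lit 27) (.e (nat_lit 491570) (nat_lit 13) (.e (nat_lit 393252) (nat_lit 18) .nil)))) .nil))) (.nd (nat_lit 5) 
(.lf (nat_lit 161818) (.g (nat_lit 765) (.e (nat_lit 57445) (nat_lit 19) (.e (nat_lit 393296) (nat_lit 26) (.e (nat_lit 475208) (nat_lit 41) .nil))) .nil)) 
(.lf (nat_lit 161850) (.g (nat_lit 1970) (.e (nat_lit 57446) (nat_lit 19) (.e (nat_lit 393227) (nat_lit 9) (.e (nat_lit 336118) (nat_lit 9) (.e (nat_lit 336323) (nat_lit 18) (.e (nat_lit 204831) (nat_lit 18) (.e (nat_lit 57853) (nat_lit 252) .nil)))))) (.g (nat_lit 0) .nil .nil)))))) (.nd (nat_lit 3) (.nd (nat_lit 4) (.nd (nat_lit 5) 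
(.lf (nat_lit 161798) (.g (nat_lit 1404) (.e (nat_lit 57445) (nat_lit 19) (.e (nat_lit 393283) (nat_lit 24) (.e (nat_lit 434231) (nat_lit 23) (.e (nat_lit 532578) (nat_lit 26) .nil)))) .nil)) 
(.lf (nat_lit 161830) (.g (nat_lit 2001) (.e (nat_lit 57445) (nat_lit 19) (.e (nat_lit 393299) (nat_lit 27) (.e (nat_lit 491526) (nat_lit 0) (.e (nat_lit 1848) (nat_lit 124) .nil)))) .nil))) (.nd (nat_lit 5) 
(.lf (nat_lit 161814) (.g (nat_lit 1122) (.e (nat_lit 57445) (nat_lit 19) (.e (nat_lit 393293) (nat_lit 26) (.e (nat_lit 483072) (nat_lit 31) (.e (nat_lit 573471) (nat_lit 11) (.e (nat_lit 16406) (nat_lit 1) .nil))))) .nil)) 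
(.lf (nat_lit 161846) (.g (nat_lit 1826) (.e (nat_lit 57446) (nat_lit 19) (.e (nat_lit 393227) (nat_lit 9) (.e (nat_lit 336118) (nat_lit 9) (.e (nat_lit 336323) (nat_lit 18) (.e (nat_lit 204831) (nat_lit 18) (.e (nat_lit 57847) (nat_lit 252) .nil)))))) (.g (nat_lit 0) .nil .nil))))) (.nd (nat_lit 4) (.nd (nat_lit 5) 
(.lf (nat_lit 161806) (.g (nat_lit 1403) (.e (nat_lit 57445) (nat_lit 19) (.e (nat_lit 393286) (nat_lit 25) (.e (nat_lit 458789) (nat_lit 23) (.e (nat_lit 532580) (nat_lit 26) .nil)))) .nil)) 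
(.lf (nat_lit 161838) (.g (nat_lit 913) (.e (nat_lit 57445) (nat_lit 19) (.e (nat_lit 393301) (nat_lit 27) (.e (nat_lit 491560) (nat_lit 10) .nil))) .nil))) (.nd (nat_lit 5) 
(.lf (nat_lit 161822) (.g (nat_lit 949) (.e (nat_lit 57445) (nat_lit 19) (.e (nat_lit 393298) (nat_lit 27) (.e (nat_lit 491528) (nat_lit 0) .nil))) .nil)) 
(.lf (nat_lit 161854) (.g (nat_lit 1545) (.e (nat_lit 57446) (nat_lit 19) (.e (nat_lit 393227) (nat_lit 9) (.e (nat_lit 336121) (nat_lit 9) (.e (nat_lit 336323) (nat_lit 18) (.e (nat_lit 204831) (nat_lit 18) (.e (nat_lit 57851) (nat_lit 252) .nil)))))) (.g (nat_lit 6) .nil .nil)))))))) (.nd (nat_lit 1) (.nd (nat_lit 2) (.nd (nat_lit 3) (.nd (nat_lit 4) (.nd (nat_lit 5) 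
(.lf (nat_lit 161793) (.g (nat_lit 2452) (.e (nat_lit 57445) (nat_lit 19) (.e (nat_lit 393281) (nat_lit 23) (.e (nat_lit 426133) (nat_lit 3) (.e (nat_lit 204813) (nat_lit 9) (.e (nat_lit 426106) (nat_lit 1) .nil))))) .nil)) 
(.lf (nat_lit 161825) (.g (nat_lit 3858) (.e (nat_lit 57445) (nat_lit 19) (.e (nat_lit 393298) (nat_lit 27) (.e (nat_lit 491571) (nat_lit 13) (.e (nat_lit 393252) (nat_lit 18) (.e (nat_lit 171776) (nat_lit 262) .nil))))) (.g (nat_lit 4) .nil .nil)))) (.nd (nat_lit 5) 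
(.lf (nat_lit 161809) (.g (nat_lit 3471) (.e (nat_lit 57445) (nat_lit 19) (.e (nat_lit 393289) (nat_lit 25) (.e (nat_lit 458789) (nat_lit 23) (.e (nat_lit 532579) (nat_lit 26) (.e (nat_lit 426098) (nat_lit 1) (.e (nat_lit 164399) (nat_lit 256) .nil)))))) (.g (nat_lit 0) .nil .nil))) 
(.lf (nat_lit 161841) (.g (nat_lit 1092) (.e (nat_lit 57446) (nat_lit 19) (.e (nat_lit 393224) (nat_lit 9) (.e (nat_lit 336086) (nat_lit 9) (.e (nat_lit 336324) (nat_lit 18) .nil)))) .nil)))) (.nd (nat_lit 4) (.nd (nat_lit 5) 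
(.lf (nat_lit 161801) (.g (nat_lit 1994) (.e (nat_lit 57445) (nat_lit 19) (.e (nat_lit 393283) (nat_lit 24) (.e (nat_lit 434231) (nat_lit 23) (.e (nat_lit 532579) (nat_lit 26) (.e (nat_lit 426099) (nat_lit 1) .nil))))) .nil)) 
(.lf (nat_lit 161833) (.g (nat_lit 1975) (.e (nat_lit 57445) (nat_lit 19) (.e (nat_lit 393300) (nat_lit 27) (.e (nat_lit 491568) (nat_lit 13) (.e (nat_lit 393253) (nat_lit 18) .nil)))) .nil))) (.nd (nat_lit 5) 
(.lf (nat_lit 161817) (.g (nat_lit 336) (.e (nat_lit 57445) (nat_lit 19) (.e (nat_lit 393296) (nat_lit 26) (.e (nat_lit 475207) (nat_lit 41) .nil))) .nil)) 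
(.lf (nat_lit 161849) (.g (nat_lit 2129) (.e (nat_lit 57446) (nat_lit 19) (.e (nat_lit 393227) (nat_lit 9) (.e (nat_lit 336118) (nat_lit 9) (.e (nat_lit 336323) (nat_lit 18) (.e (nat_lit 204831) (nat_lit 18) (.e (nat_lit 57852) (nat_lit 252) .nil)))))) (.g (nat_lit 0) .nil .nil)))))) (.nd (nat_lit 3) (.nd (nat_lit 4) (.nd (nat_lit 5) 
(.lf (nat_lit 161797) (.g (nat_lit 2762) (.e (nat_lit 57445) (nat_lit 19) (.e (nat_lit 393282) (nat_lit 24) (.e (nat_lit 434231) (nat_lit 23) (.e (nat_lit 532579) (nat_lit 26) (.e (nat_lit 426098) (nat_lit 1) (.e (nat_lit 164399) (nat_lit 256) .nil)))))) (.g (nat_lit 5) .nil .nil))) 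
(.lf (nat_lit 161829) (.g (nat_lit 1018) (.e (nat_lit 57445) (nat_lit 19) (.e (nat_lit 393299) (nat_lit 27) (.e (nat_lit 491526) (nat_lit 0) .nil))) .nil))) (.nd (nat_lit 5) 
(.lf (nat_lit 161813) (.g (nat_lit 462) (.e (nat_lit 57445) (nat_lit 19) (.e (nat_lit 393293) (nat_lit 26) (.e (nat_lit 483072) (nat_lit 26) .nil))) .nil)) 
(.lf (nat_lit 161845) (.g (nat_lit 1668) (.e (nat_lit 57446) (nat_lit 19) (.e (nat_lit 393227) (nat_lit 9) (.e (nat_lit 336118) (nat_lit 9) (.e (nat_lit 336323) (nat_lit 18) (.e (nat_lit 204830) (nat_lit 18) (.e (nat_lit 57854) (nat_lit 252) .nil)))))) (.g (nat_lit 0) .nil .nil))))) (.nd (nat_lit 4) (.nd (nat_lit 5) 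
(.lf (nat_lit 161805) (.g (nat_lit 1988) (.e (nat_lit 57445) (nat_lit 19) (.e (nat_lit 393284) (nat_lit 24) (.e (nat_lit 434231) (nat_lit 23) (.e (nat_lit 532579) (nat_lit 26) (.e (nat_lit 426107) (nat_lit 1) .nil))))) .nil)) 
(.lf (nat_lit 161837) (.g (nat_lit 2198) (.e (nat_lit 57445) (nat_lit 19) (.e (nat_lit 393301) (nat_lit 27) (.e (nat_lit 491526) (nat_lit 0) (.e (nat_lit 1855) (nat_lit 124) .nil)))) .nil))) (.nd (nat_lit 5) 
(.lf (nat_lit 161821) (.g (nat_lit 2212) (.e (nat_lit 57445) (nat_lit 19) (.e (nat_lit 393298) (nat_lit 27) (.e (nat_lit 491526) (nat_lit 0) (.e (nat_lit 1848) (nat_lit 124) (.e (nat_lit 557104) (nat_lit 14) .nil))))) .nil)) 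
(.lf (nat_lit 161853) (.g (nat_lit 1507) (.e (nat_lit 57446) (nat_lit 19) (.e (nat_lit 393227) (nat_lit 9) (.e (nat_lit 336121) (nat_lit 9) (.e (nat_lit 336323) (nat_lit 18) (.e (nat_lit 204831) (nat_lit 18) (.e (nat_lit 57848) (nat_lit 252) .nil)))))) (.g (nat_lit 6) .nil .nil))))))) (.nd (nat_lit 2) (.nd (nat_lit 3) (.nd (nat_lit 4) (.nd (nat_lit 5) 
(.lf (nat_lit 161795) (.g (nat_lit 3545) (.e (nat_lit 57445) (nat_lit 19) (.e (nat_lit 393281) (nat_lit 23) (.e (nat_lit 426133) (nat_lit 3) (.e (nat_lit 204813) (nat_lit 9) (.e (nat_lit 426108) (nat_lit 1) (.e (nat_lit 164402) (nat_lit 256) .nil)))))) (.g (nat_lit 0) .nil .nil))) 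
(.lf (nat_lit 161827) (.g (nat_lit 2995) (.e (nat_lit 57445) (nat_lit 19) (.e (nat_lit 393298) (nat_lit 27) (.e (nat_lit 491571) (nat_lit 13) (.e (nat_lit 393256) (nat_lit 19) .nil)))) .nil))) (.nd (nat_lit 5) 
(.lf (nat_lit 161811) (.g (nat_lit 4288) (.e (nat_lit 57445) (nat_lit 19) (.e (nat_lit 393289) (nat_lit 25) (.e (nat_lit 458789) (nat_lit 23) (.e (nat_lit 532579) (nat_lit 26) (.e (nat_lit 426108) (nat_lit 1) (.e (nat_lit 164402) (nat_lit 256) .nil)))))) (.g (nat_lit 0) .nil .nil))) 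
(.lf (nat_lit 161843) (.g (nat_lit 801) (.e (nat_lit 57446) (nat_lit 19) (.e (nat_lit 393225) (nat_lit 9) (.e (nat_lit 336204) (nat_lit 12) .nil))) .nil)))) (.nd (nat_lit 4) (.nd (nat_lit 5) 
(.lf (nat_lit 161803) (.g (nat_lit 4360) (.e (nat_lit 57445) (nat_lit 19) (.e (nat_lit 393283) (nat_lit 24) (.e (nat_lit 434231) (nat_lit 23) (.e (nat_lit 532579) (nat_lit 26) (.e (nat_lit 426108) (nat_lit 1) (.e (nat_lit 164402) (nat_lit 256) .nil)))))) (.g (nat_lit 6) .nil .nil))) 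
(.lf (nat_lit 161835) (.g (nat_lit 2033) (.e (nat_lit 57445) (nat_lit 19) (.e (nat_lit 393300) (nat_lit 27) (.e (nat_lit 491570) (nat_lit 13) (.e (nat_lit 393253) (nat_lit 18) .nil)))) .nil))) (.nd (nat_lit 5) 
(.lf (nat_lit 161819) (.g (nat_lit 1226) (.e (nat_lit 57445) (nat_lit 19) (.e (nat_lit 393296) (nat_lit 26) (.e (nat_lit 475209) (nat_lit 41) (.e (nat_lit 712749) (nat_lit 28) .nil)))) .nil)) 
(.lf (nat_lit 161851) (.g (nat_lit 1753) (.e (nat_lit 57446) (nat_lit 19) (.e (nat_lit 393227) (nat_lit 9) (.e (nat_lit 336118) (nat_lit 9) (.e (nat_lit 336323) (nat_lit 18) (.e (nat_lit 204831) (nat_lit 18) (.e (nat_lit 57854) (nat_lit 252) .nil)))))) (.g (nat_lit 0) .nil .nil)))))) (.nd (nat_lit 3) (.nd (nat_lit 4) (.nd (nat_lit 5) 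
(.lf (nat_lit 161799) (.g (nat_lit 1144) (.e (nat_lit 57445) (nat_lit 19) (.e (nat_lit 393283) (nat_lit 24) (.e (nat_lit 434231) (nat_lit 23) (.e (nat_lit 532579) (nat_lit 26) .nil)))) .nil)) 
(.lf (nat_lit 161831) (.g (nat_lit 825) (.e (nat_lit 57445) (nat_lit 19) (.e (nat_lit 393300) (nat_lit 27) (.e (nat_lit 491526) (nat_lit 0) .nil))) .nil))) (.nd (nat_lit 5) 
(.lf (nat_lit 161815) (.g (nat_lit 760) (.e (nat_lit 57445) (nat_lit 19) (.e (nat_lit 393296) (nat_lit 26) (.e (nat_lit 483072) (nat_lit 26) .nil))) .nil)) 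
(.lf (nat_lit 161847) (.g (nat_lit 1575) (.e (nat_lit 57446) (nat_lit 19) (.e (nat_lit 393227) (nat_lit 9) (.e (nat_lit 336118) (nat_lit 9) (.e (nat_lit 336323) (nat_lit 18) (.e (nat_lit 204831) (nat_lit 18) (.e (nat_lit 57848) (nat_lit 252) .nil)))))) (.g (nat_lit 0) .nil .nil))))) (.nd (nat_lit 4) (.nd (nat_lit 5) 
(.lf (nat_lit 161807) (.g (nat_lit 172) (.e (nat_lit 57445) (nat_lit 19) (.e (nat_lit 393289) (nat_lit 25) (.e (nat_lit 458779) (nat_lit 19) .nil))) .nil)) 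
(.lf (nat_lit 161839) (.g (nat_lit 3105) (.e (nat_lit 57445) (nat_lit 19) (.e (nat_lit 393301) (nat_lit 27) (.e (nat_lit 491560) (nat_lit 10) (.e (nat_lit 344090) (nat_lit 18) .nil)))) .nil))) (.nd (nat_lit 5) 
(.lf (nat_lit 161823) (.g (nat_lit 1975) (.e (nat_lit 57445) (nat_lit 19) (.e (nat_lit 393298) (nat_lit 27) (.e (nat_lit 491570) (nat_lit 13) (.e (nat_lit 393253) (nat_lit 18) .nil)))) .nil)) 
(.lf (nat_lit 161855) (.g (nat_lit 1689) (.e (nat_lit 57446) (nat_lit 19) (.e (nat_lit 393227) (nat_lit 9) (.e (nat_lit 336121) (nat_lit 9) (.e (nat_lit 336323) (nat_lit 18) (.e (nat_lit 204831) (nat_lit 18) (.e (nat_lit 57854) (nat_lit 252) .nil)))))) (.g (nat_lit 6) .nil .nil)))))))))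

noncomputable def tv2169 : DT := (.nd (nat_lit 0) (.nd (nat_lit 1) (.nd (nat_lit 2) (.nd (nat_lit 3) (.nd (nat_lit 4) (.nd (nat_lit 5) 
(.lf (nat_lit 161856) (.g (nat_lit 2329) (.e (nat_lit 57446) (nat_lit 19) (.e (nat_lit 393227) (nat_lit 9) (.e (nat_lit 336151) (nat_lit 9) (.e (nat_lit 336017) (nat_lit 3) (.e (nat_lit 98333) (nat_lit 18) (.e (nat_lit 164179) (nat_lit 154) .nil)))))) (.g (nat_lit 0) .nil .nil))) 
(.lf (nat_lit 161888) (.g (nat_lit 3126) (.e (nat_lit 57446) (nat_lit 19) (.e (nat_lit 393229) (nat_lit 9) (.e (nat_lit 336076) (nat_lit 9) (.e (nat_lit 336324) (nat_lit 18) (.e (nat_lit 204831) (nat_lit 18) (.e (nat_lit 57844) (nat_lit 252) .nil)))))) (.g (nat_lit 5) .nil .nil)))) (.nd (nat_lit 5) 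
(.lf (nat_lit 161872) (.g (nat_lit 448) (.e (nat_lit 57446) (nat_lit 19) (.e (nat_lit 393227) (nat_lit 9) (.e (nat_lit 336206) (nat_lit 12) (.e (nat_lit 385067) (nat_lit 26) .nil)))) .nil)) 
(.lf (nat_lit 161904) (.g (nat_lit 2549) (.e (nat_lit 57446) (nat_lit 19) (.e (nat_lit 393229) (nat_lit 9) (.e (nat_lit 336078) (nat_lit 9) (.e (nat_lit 336324) (nat_lit 18) (.e (nat_lit 204830) (nat_lit 18) .nil))))) .nil)))) (.nd (nat_lit 4) (.nd (nat_lit 5) 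
(.lf (nat_lit 161864) (.g (nat_lit 1680) (.e (nat_lit 57446) (nat_lit 19) (.e (nat_lit 393227) (nat_lit 9) (.e (nat_lit 336153) (nat_lit 9) (.e (nat_lit 336323) (nat_lit 18) (.e (nat_lit 204831) (nat_lit 18) (.e (nat_lit 57848) (nat_lit 252) .nil)))))) (.g (nat_lit 6) .nil .nil))) 
(.lf (nat_lit 161896) (.g (nat_lit 2359) (.e (nat_lit 57446) (nat_lit 19) (.e (nat_lit 393229) (nat_lit 9) (.e (nat_lit 336076) (nat_lit 9) (.e (nat_lit 336326) (nat_lit 18) (.e (nat_lit 204831) (nat_lit 18) (.e (nat_lit 57844) (nat_lit 252) .nil)))))) (.g (nat_lit 5) .nil .nil)))) (.nd (nat_lit 5) 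
(.lf (nat_lit 161880) (.g (nat_lit 2264) (.e (nat_lit 57446) (nat_lit 19) (.e (nat_lit 393227) (nat_lit 9) (.e (nat_lit 336206) (nat_lit 12) (.e (nat_lit 385068) (nat_lit 26) (.e (nat_lit 532504) (nat_lit 1) (.e (nat_lit 57854) (nat_lit 252) .nil)))))) (.g (nat_lit 0) .nil .nil))) 
(.lf (nat_lit 161912) (.g (nat_lit 2947) (.e (nat_lit 57446) (nat_lit 19) (.e (nat_lit 393229) (nat_lit 9) (.e (nat_lit 336087) (nat_lit 9) (.e (nat_lit 336019) (nat_lit 3) (.e (nat_lit 98333) (nat_lit 18) (.e (nat_lit 164177) (nat_lit 154) .nil)))))) (.g (nat_lit 0) .nil .nil)))))) (.nd (nat_lit 3) (.nd (nat_lit 4) (.nd (nat_lit 5) 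
(.lf (nat_lit 161860) (.g (nat_lit 1618) (.e (nat_lit 57446) (nat_lit 19) (.e (nat_lit 393227) (nat_lit 9) (.e (nat_lit 336152) (nat_lit 9) (.e (nat_lit 336323) (nat_lit 18) (.e (nat_lit 204831) (nat_lit 18) (.e (nat_lit 57851) (nat_lit 252) .nil)))))) (.g (nat_lit 6) .nil .nil))) 
(.lf (nat_lit 161892) (.g (nat_lit 3425) (.e (nat_lit 57446) (nat_lit 19) (.e (nat_lit 393229) (nat_lit 9) (.e (nat_lit 336076) (nat_lit 9) (.e (nat_lit 336324) (nat_lit 18) (.e (nat_lit 204831) (nat_lit 18) (.e (nat_lit 57851) (nat_lit 252) .nil)))))) (.g (nat_lit 0) .nil .nil)))) (.nd (nat_lit 5) 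
(.lf (nat_lit 161876) (.g (nat_lit 2364) (.e (nat_lit 57446) (nat_lit 19) (.e (nat_lit 393227) (nat_lit 9) (.e (nat_lit 336206) (nat_lit 12) (.e (nat_lit 385068) (nat_lit 26) (.e (nat_lit 532503) (nat_lit 1) (.e (nat_lit 57848) (nat_lit 252) .nil)))))) (.g (nat_lit 0) .nil .nil))) 
(.lf (nat_lit 161908) (.g (nat_lit 2336) (.e (nat_lit 57446) (nat_lit 19) (.e (nat_lit 393229) (nat_lit 9) (.e (nat_lit 336078) (nat_lit 9) (.e (nat_lit 336326) (nat_lit 18) .nil)))) .nil)))) (.nd (nat_lit 4) (.nd (nat_lit 5) 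
(.lf (nat_lit 161868) (.g (nat_lit 1655) (.e (nat_lit 57446) (nat_lit 19) (.e (nat_lit 393227) (nat_lit 9) (.e (nat_lit 336154) (nat_lit 9) (.e (nat_lit 336323) (nat_lit 18) (.e (nat_lit 204831) (nat_lit 18) (.e (nat_lit 57848) (nat_lit 252) .nil)))))) (.g (nat_lit 6) .nil .nil))) 
(.lf (nat_lit 161900) (.g (nat_lit 2767) (.e (nat_lit 57446) (nat_lit 19) (.e (nat_lit 393229) (nat_lit 9) (.e (nat_lit 336076) (nat_lit 9) (.e (nat_lit 336326) (nat_lit 18) (.e (nat_lit 204831) (nat_lit 18) (.e (nat_lit 57851) (nat_lit 252) .nil)))))) (.g (nat_lit 6) .nil .nil)))) (.nd (nat_lit 5) 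
(.lf (nat_lit 161884) (.g (nat_lit 3571) (.e (nat_lit 57446) (nat_lit 19) (.e (nat_lit 393229) (nat_lit 9) (.e (nat_lit 336076) (nat_lit 9) (.e (nat_lit 336324) (nat_lit 18) (.e (nat_lit 204829) (nat_lit 18) (.e (nat_lit 57847) (nat_lit 252) .nil)))))) (.g (nat_lit 0) .nil .nil))) 
(.lf (nat_lit 161916) (.g (nat_lit 930) (.e (nat_lit 57446) (nat_lit 19) (.e (nat_lit 393229) (nat_lit 9) (.e (nat_lit 336087) (nat_lit 9) (.e (nat_lit 336326) (nat_lit 18) .nil)))) .nil)))))) (.nd (nat_lit 2) (.nd (nat_lit 3) (.nd (nat_lit 4) (.nd (nat_lit 5) 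
(.lf (nat_lit 161858) (.g (nat_lit 1619) (.e (nat_lit 57446) (nat_lit 19) (.e (nat_lit 393227) (nat_lit 9) (.e (nat_lit 336152) (nat_lit 9) (.e (nat_lit 336323) (nat_lit 18) (.e (nat_lit 204830) (nat_lit 18) (.e (nat_lit 57854) (nat_lit 252) .nil)))))) (.g (nat_lit 6) .nil .nil))) 
(.lf (nat_lit 161890) (.g (nat_lit 3519) (.e (nat_lit 57446) (nat_lit 19) (.e (nat_lit 393229) (nat_lit 9) (.e (nat_lit 336076) (nat_lit 9) (.e (nat_lit 336324) (nat_lit 18) (.e (nat_lit 204831) (nat_lit 18) (.e (nat_lit 57847) (nat_lit 252) .nil)))))) (.g (nat_lit 0) .nil .nil)))) (.nd (nat_lit 5) 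
(.lf (nat_lit 161874) (.g (nat_lit 2272) (.e (nat_lit 57446) (nat_lit 19) (.e (nat_lit 393227) (nat_lit 9) (.e (nat_lit 336206) (nat_lit 12) (.e (nat_lit 385068) (nat_lit 26) (.e (nat_lit 532501) (nat_lit 1) (.e (nat_lit 57854) (nat_lit 252) .nil)))))) (.g (nat_lit 0) .nil .nil))) 
(.lf (nat_lit 161906) (.g (nat_lit 3335) (.e (nat_lit 57446) (nat_lit 19) (.e (nat_lit 393229) (nat_lit 9) (.e (nat_lit 336078) (nat_lit 9) (.e (nat_lit 336324) (nat_lit 18) (.e (nat_lit 204831) (nat_lit 18) (.e (nat_lit 57844) (nat_lit 252) .nil)))))) (.g (nat_lit 4) .nil .nil))))) (.nd (nat_lit 4) (.nd (nat_lit 5) 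
(.lf (nat_lit 161866) (.g (nat_lit 2074) (.e (nat_lit 57446) (nat_lit 19) (.e (nat_lit 393227) (nat_lit 9) (.e (nat_lit 336153) (nat_lit 9) (.e (nat_lit 336323) (nat_lit 18) (.e (nat_lit 204831) (nat_lit 18) (.e (nat_lit 57852) (nat_lit 252) .nil)))))) (.g (nat_lit 6) .nil .nil))) 
(.lf (nat_lit 161898) (.g (nat_lit 3059) (.e (nat_lit 57446) (nat_lit 19) (.e (nat_lit 393229) (nat_lit 9) (.e (nat_lit 336076) (nat_lit 9) (.e (nat_lit 336326) (nat_lit 18) (.e (nat_lit 204831) (nat_lit 18) (.e (nat_lit 57847) (nat_lit 252) .nil)))))) (.g (nat_lit 0) .nil .nil)))) (.nd (nat_lit 5) 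
(.lf (nat_lit 161882) (.g (nat_lit 2047) (.e (nat_lit 57446) (nat_lit 19) (.e (nat_lit 393228) (nat_lit 9) (.e (nat_lit 336203) (nat_lit 12) (.e (nat_lit 385067) (nat_lit 26) (.e (nat_lit 532499) (nat_lit 1) (.e (nat_lit 57847) (nat_lit 252) .nil)))))) (.g (nat_lit 5) .nil .nil))) 
(.lf (nat_lit 161914) (.g (nat_lit 3437) (.e (nat_lit 57446) (nat_lit 19) (.e (nat_lit 393229) (nat_lit 9) (.e (nat_lit 336087) (nat_lit 9) (.e (nat_lit 336019) (nat_lit 3) (.e (nat_lit 98333) (nat_lit 18) (.e (nat_lit 164179) (nat_lit 154) .nil)))))) (.g (nat_lit 0) .nil .nil)))))) (.nd (nat_lit 3) (.nd (nat_lit 4) (.nd (nat_lit 5) 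
(.lf (nat_lit 161862) (.g (nat_lit 1898) (.e (nat_lit 57446) (nat_lit 19) (.e (nat_lit 393227) (nat_lit 9) (.e (nat_lit 336153) (nat_lit 9) (.e (nat_lit 336323) (nat_lit 18) (.e (nat_lit 204831) (nat_lit 18) (.e (nat_lit 57846) (nat_lit 252) .nil)))))) (.g (nat_lit 6) .nil .nil))) 
(.lf (nat_lit 161894) (.g (nat_lit 3351) (.e (nat_lit 57446) (nat_lit 19) (.e (nat_lit 393229) (nat_lit 9) (.e (nat_lit 336076) (nat_lit 9) (.e (nat_lit 336326) (nat_lit 18) (.e (nat_lit 204829) (nat_lit 18) (.e (nat_lit 57847) (nat_lit 252) .nil)))))) (.g (nat_lit 0) .nil .nil)))) (.nd (nat_lit 5) 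
(.lf (nat_lit 161878) (.g (nat_lit 2543) (.e (nat_lit 57446) (nat_lit 19) (.e (nat_lit 393227) (nat_lit 9) (.e (nat_lit 336206) (nat_lit 12) (.e (nat_lit 385068) (nat_lit 26) (.e (nat_lit 532504) (nat_lit 1) (.e (nat_lit 57852) (nat_lit 252) .nil)))))) (.g (nat_lit 0) .nil .nil))) 
(.lf (nat_lit 161910) (.g (nat_lit 4659) (.e (nat_lit 57446) (nat_lit 19) (.e (nat_lit 393229) (nat_lit 9) (.e (nat_lit 336085) (nat_lit 9) (.e (nat_lit 336306) (nat_lit 15) (.e (nat_lit 3238) (nat_lit 197) (.e (nat_lit 532500) (nat_lit 1) (.e (nat_lit 57851) (nat_lit 252) .nil))))))) (.g (nat_lit 7) .nil .nil))))) (.nd (nat_lit 4) (.nd (nat_lit 5) 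
(.lf (nat_lit 161870) (.g (nat_lit 1825) (.e (nat_lit 57446) (nat_lit 19) (.e (nat_lit 393227) (nat_lit 9) (.e (nat_lit 336154) (nat_lit 9) (.e (nat_lit 336323) (nat_lit 18) (.e (nat_lit 204831) (nat_lit 18) (.e (nat_lit 57854) (nat_lit 252) .nil)))))) (.g (nat_lit 6) .nil .nil))) 
(.lf (nat_lit 161902) (.g (nat_lit 1812) (.e (nat_lit 57446) (nat_lit 19) (.e (nat_lit 393229) (nat_lit 9) (.e (nat_lit 336077) (nat_lit 9) (.e (nat_lit 336324) (nat_lit 18) .nil)))) .nil))) (.nd (nat_lit 5) 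
(.lf (nat_lit 161886) (.g (nat_lit 3271) (.e (nat_lit 57446) (nat_lit 19) (.e (nat_lit 393229) (nat_lit 9) (.e (nat_lit 336076) (nat_lit 9) (.e (nat_lit 336324) (nat_lit 18) (.e (nat_lit 204830) (nat_lit 18) (.e (nat_lit 57851) (nat_lit 252) .nil)))))) (.g (nat_lit 0) .nil .nil))) 
(.lf (nat_lit 161918) (.g (nat_lit 3171) (.e (nat_lit 57446) (nat_lit 19) (.e (nat_lit 393229) (nat_lit 9) (.e (nat_lit 336088) (nat_lit 9) (.e (nat_lit 336019) (nat_lit 3) (.e (nat_lit 98333) (nat_lit 18) (.e (nat_lit 164177) (nat_lit 154) .nil)))))) (.g (nat_lit 0) .nil .nil)))))))) (.nd (nat_lit 1) (.nd (nat_lit 2) (.nd (nat_lit 3) (.nd (nat_lit 4) (.nd (nat_lit 5) 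
(.lf (nat_lit 161857) (.g (nat_lit 2399) (.e (nat_lit 57446) (nat_lit 19) (.e (nat_lit 393227) (nat_lit 9) (.e (nat_lit 336152) (nat_lit 9) (.e (nat_lit 336017) (nat_lit 3) (.e (nat_lit 98333) (nat_lit 18) (.e (nat_lit 164179) (nat_lit 154) .nil)))))) (.g (nat_lit 0) .nil .nil))) 
(.lf (nat_lit 161889) (.g (nat_lit 3597) (.e (nat_lit 57446) (nat_lit 19) (.e (nat_lit 393229) (nat_lit 9) (.e (nat_lit 336076) (nat_lit 9) (.e (nat_lit 336324) (nat_lit 18) (.e (nat_lit 204831) (nat_lit 18) (.e (nat_lit 57846) (nat_lit 252) .nil)))))) (.g (nat_lit 0) .nil .nil)))) (.nd (nat_lit 5) 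
(.lf (nat_lit 161873) (.g (nat_lit 2849) (.e (nat_lit 57446) (nat_lit 19) (.e (nat_lit 393227) (nat_lit 9) (.e (nat_lit 336206) (nat_lit 12) (.e (nat_lit 385068) (nat_lit 26) (.e (nat_lit 532499) (nat_lit 1) (.e (nat_lit 57847) (nat_lit 252) .nil)))))) (.g (nat_lit 0) .nil .nil))) 
(.lf (nat_lit 161905) (.g (nat_lit 2508) (.e (nat_lit 57446) (nat_lit 19) (.e (nat_lit 393229) (nat_lit 9) (.e (nat_lit 336078) (nat_lit 9) (.e (nat_lit 336324) (nat_lit 18) (.e (nat_lit 204831) (nat_lit 18) .nil))))) .nil)))) (.nd (nat_lit 4) (.nd (nat_lit 5) 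
(.lf (nat_lit 161865) (.g (nat_lit 1710) (.e (nat_lit 57446) (nat_lit 19) (.e (nat_lit 393227) (nat_lit 9) (.e (nat_lit 336153) (nat_lit 9) (.e (nat_lit 336323) (nat_lit 18) (.e (nat_lit 204831) (nat_lit 18) (.e (nat_lit 57851) (nat_lit 252) .nil)))))) (.g (nat_lit 6) .nil .nil))) 
(.lf (nat_lit 161897) (.g (nat_lit 3021) (.e (nat_lit 57446) (nat_lit 19) (.e (nat_lit 393229) (nat_lit 9) (.e (nat_lit 336076) (nat_lit 9) (.e (nat_lit 336326) (nat_lit 18) (.e (nat_lit 204831) (nat_lit 18) (.e (nat_lit 57846) (nat_lit 252) .nil)))))) (.g (nat_lit 6) .nil .nil)))) (.nd (nat_lit 5) 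
(.lf (nat_lit 161881) (.g (nat_lit 1760) (.e (nat_lit 57446) (nat_lit 19) (.e (nat_lit 393228) (nat_lit 9) (.e (nat_lit 336086) (nat_lit 9) (.e (nat_lit 336324) (nat_lit 18) (.e (nat_lit 204831) (nat_lit 18) (.e (nat_lit 57851) (nat_lit 252) .nil)))))) (.g (nat_lit 4) .nil .nil))) 
(.lf (nat_lit 161913) (.g (nat_lit 2261) (.e (nat_lit 57446) (nat_lit 19) (.e (nat_lit 393229) (nat_lit 9) (.e (nat_lit 336087) (nat_lit 9) (.e (nat_lit 336019) (nat_lit 3) (.e (nat_lit 98333) (nat_lit 18) (.e (nat_lit 164178) (nat_lit 154) .nil)))))) (.g (nat_lit 5) .nil .nil)))))) (.nd (nat_lit 3) (.nd (nat_lit 4) (.nd (nat_lit 5) 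
(.lf (nat_lit 161861) (.g (nat_lit 1758) (.e (nat_lit 57446) (nat_lit 19) (.e (nat_lit 393227) (nat_lit 9) (.e (nat_lit 336152) (nat_lit 9) (.e (nat_lit 336323) (nat_lit 18) (.e (nat_lit 204831) (nat_lit 18) (.e (nat_lit 57854) (nat_lit 252) .nil)))))) (.g (nat_lit 6) .nil .nil))) 
(.lf (nat_lit 161893) (.g (nat_lit 3476) (.e (nat_lit 57446) (nat_lit 19) (.e (nat_lit 393229) (nat_lit 9) (.e (nat_lit 336076) (nat_lit 9) (.e (nat_lit 336324) (nat_lit 18) (.e (nat_lit 204831) (nat_lit 18) (.e (nat_lit 57854) (nat_lit 252) .nil)))))) (.g (nat_lit 0) .nil .nil)))) (.nd (nat_lit 5) 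
(.lf (nat_lit 161877) (.g (nat_lit 2141) (.e (nat_lit 57446) (nat_lit 19) (.e (nat_lit 393227) (nat_lit 9) (.e (nat_lit 336206) (nat_lit 12) (.e (nat_lit 385068) (nat_lit 26) (.e (nat_lit 532504) (nat_lit 1) (.e (nat_lit 57851) (nat_lit 252) .nil)))))) (.g (nat_lit 0) .nil .nil))) 
(.lf (nat_lit 161909) (.g (nat_lit 740) (.e (nat_lit 57446) (nat_lit 19) (.e (nat_lit 393229) (nat_lit 9) (.e (nat_lit 336085) (nat_lit 9) .nil))) .nil)))) (.nd (nat_lit 4) (.nd (nat_lit 5) 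
(.lf (nat_lit 161869) (.g (nat_lit 1690) (.e (nat_lit 57446) (nat_lit 19) (.e (nat_lit 393227) (nat_lit 9) (.e (nat_lit 336154) (nat_lit 9) (.e (nat_lit 336323) (nat_lit 18) (.e (nat_lit 204831) (nat_lit 18) (.e (nat_lit 57851) (nat_lit 252) .nil)))))) (.g (nat_lit 6) .nil .nil))) 
(.lf (nat_lit 161901) (.g (nat_lit 3135) (.e (nat_lit 57446) (nat_lit 19) (.e (nat_lit 393229) (nat_lit 9) (.e (nat_lit 336076) (nat_lit 9) (.e (nat_lit 336326) (nat_lit 18) (.e (nat_lit 204831) (nat_lit 18) (.e (nat_lit 57852) (nat_lit 252) .nil)))))) (.g (nat_lit 6) .nil .nil)))) (.nd (nat_lit 5) 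
(.lf (nat_lit 161885) (.g (nat_lit 3348) (.e (nat_lit 57446) (nat_lit 19) (.e (nat_lit 393229) (nat_lit 9) (.e (nat_lit 336076) (nat_lit 9) (.e (nat_lit 336324) (nat_lit 18) (.e (nat_lit 204829) (nat_lit 18) (.e (nat_lit 57853) (nat_lit 252) .nil)))))) (.g (nat_lit 6) .nil .nil))) 
(.lf (nat_lit 161917) (.g (nat_lit 321) (.e (nat_lit 57446) (nat_lit 19) (.e (nat_lit 393229) (nat_lit 9) (.e (nat_lit 336088) (nat_lit 9) .nil))) .nil)))))) (.nd (nat_lit 2) (.nd (nat_lit 3) (.nd (nat_lit 4) (.nd (nat_lit 5) 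
(.lf (nat_lit 161859) (.g (nat_lit 1589) (.e (nat_lit 57446) (nat_lit 19) (.e (nat_lit 393227) (nat_lit 9) (.e (nat_lit 336152) (nat_lit 9) (.e (nat_lit 336323) (nat_lit 18) (.e (nat_lit 204831) (nat_lit 18) (.e (nat_lit 57848) (nat_lit 252) .nil)))))) (.g (nat_lit 6) .nil .nil))) 
(.lf (nat_lit 161891) (.g (nat_lit 3276) (.e (nat_lit 57446) (nat_lit 19) (.e (nat_lit 393229) (nat_lit 9) (.e (nat_lit 336076) (nat_lit 9) (.e (nat_lit 336324) (nat_lit 18) (.e (nat_lit 204831) (nat_lit 18) (.e (nat_lit 57848) (nat_lit 252) .nil)))))) (.g (nat_lit 0) .nil .nil)))) (.nd (nat_lit 5) 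
(.lf (nat_lit 161875) (.g (nat_lit 2408) (.e (nat_lit 57446) (nat_lit 19) (.e (nat_lit 393227) (nat_lit 9) (.e (nat_lit 336206) (nat_lit 12) (.e (nat_lit 385068) (nat_lit 26) (.e (nat_lit 532503) (nat_lit 1) (.e (nat_lit 57847) (nat_lit 252) .nil)))))) (.g (nat_lit 0) .nil .nil))) 
(.lf (nat_lit 161907) (.g (nat_lit 3385) (.e (nat_lit 57446) (nat_lit 19) (.e (nat_lit 393229) (nat_lit 9) (.e (nat_lit 336078) (nat_lit 9) (.e (nat_lit 336324) (nat_lit 18) (.e (nat_lit 204831) (nat_lit 18) (.e (nat_lit 57851) (nat_lit 252) .nil)))))) (.g (nat_lit 5) .nil .nil))))) (.nd (nat_lit 4) (.nd (nat_lit 5) 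
(.lf (nat_lit 161867) (.g (nat_lit 1738) (.e (nat_lit 57446) (nat_lit 19) (.e (nat_lit 393227) (nat_lit 9) (.e (nat_lit 336154) (nat_lit 9) (.e (nat_lit 336323) (nat_lit 18) (.e (nat_lit 204830) (nat_lit 18) (.e (nat_lit 57854) (nat_lit 252) .nil)))))) (.g (nat_lit 6) .nil .nil))) 
(.lf (nat_lit 161899) (.g (nat_lit 2695) (.e (nat_lit 57446) (nat_lit 19) (.e (nat_lit 393229) (nat_lit 9) (.e (nat_lit 336076) (nat_lit 9) (.e (nat_lit 336326) (nat_lit 18) (.e (nat_lit 204831) (nat_lit 18) (.e (nat_lit 57848) (nat_lit 252) .nil)))))) (.g (nat_lit 6) .nil .nil)))) (.nd (nat_lit 5) 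
(.lf (nat_lit 161883) (.g (nat_lit 566) (.e (nat_lit 57446) (nat_lit 19) (.e (nat_lit 393229) (nat_lit 9) (.e (nat_lit 336075) (nat_lit 9) .nil))) .nil)) 
(.lf (nat_lit 161915) (.g (nat_lit 3052) (.e (nat_lit 57446) (nat_lit 19) (.e (nat_lit 393229) (nat_lit 9) (.e (nat_lit 336087) (nat_lit 9) (.e (nat_lit 336019) (nat_lit 3) (.e (nat_lit 98335) (nat_lit 18) (.e (nat_lit 164179) (nat_lit 154) .nil)))))) (.g (nat_lit 0) .nil .nil)))))) (.nd (nat_lit 3) (.nd (nat_lit 4) (.nd (nat_lit 5) 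
(.lf (nat_lit 161863) (.g (nat_lit 1742) (.e (nat_lit 57446) (nat_lit 19) (.e (nat_lit 393227) (nat_lit 9) (.e (nat_lit 336153) (nat_lit 9) (.e (nat_lit 336323) (nat_lit 18) (.e (nat_lit 204831) (nat_lit 18) (.e (nat_lit 57847) (nat_lit 252) .nil)))))) (.g (nat_lit 6) .nil .nil))) 
(.lf (nat_lit 161895) (.g (nat_lit 2910) (.e (nat_lit 57446) (nat_lit 19) (.e (nat_lit 393229) (nat_lit 9) (.e (nat_lit 336076) (nat_lit 9) (.e (nat_lit 336326) (nat_lit 18) (.e (nat_lit 204830) (nat_lit 18) (.e (nat_lit 57851) (nat_lit 252) .nil)))))) (.g (nat_lit 0) .nil .nil)))) (.nd (nat_lit 5) 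
(.lf (nat_lit 161879) (.g (nat_lit 2336) (.e (nat_lit 57446) (nat_lit 19) (.e (nat_lit 393227) (nat_lit 9) (.e (nat_lit 336206) (nat_lit 12) (.e (nat_lit 385068) (nat_lit 26) (.e (nat_lit 532504) (nat_lit 1) (.e (nat_lit 57853) (nat_lit 252) .nil)))))) (.g (nat_lit 0) .nil .nil))) 
(.lf (nat_lit 161911) (.g (nat_lit 334) (.e (nat_lit 57446) (nat_lit 19) (.e (nat_lit 393229) (nat_lit 9) (.e (nat_lit 336087) (nat_lit 9) .nil))) .nil)))) (.nd (nat_lit 4) (.nd (nat_lit 5) 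
(.lf (nat_lit 161871) (.g (nat_lit 427) (.e (nat_lit 57446) (nat_lit 19) (.e (nat_lit 393227) (nat_lit 9) (.e (nat_lit 336154) (nat_lit 9) (.e (nat_lit 343808) (nat_lit 18) .nil)))) .nil)) 
(.lf (nat_lit 161903) (.g (nat_lit 2540) (.e (nat_lit 57446) (nat_lit 19) (.e (nat_lit 393229) (nat_lit 9) (.e (nat_lit 336078) (nat_lit 9) (.e (nat_lit 336324) (nat_lit 18) (.e (nat_lit 204829) (nat_lit 18) .nil))))) .nil))) (.nd (nat_lit 5) 
(.lf (nat_lit 161887) (.g (nat_lit 3343) (.e (nat_lit 57446) (nat_lit 19) (.e (nat_lit 393229) (nat_lit 9) (.e (nat_lit 336076) (nat_lit 9) (.e (nat_lit 336324) (nat_lit 18) (.e (nat_lit 204830) (nat_lit 18) (.e (nat_lit 57854) (nat_lit 252) .nil)))))) (.g (nat_lit 0) .nil .nil))) 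
(.lf (nat_lit 161919) (.g (nat_lit 2465) (.e (nat_lit 57446) (nat_lit 19) (.e (nat_lit 393229) (nat_lit 9) (.e (nat_lit 336088) (nat_lit 9) (.e (nat_lit 336019) (nat_lit 3) (.e (nat_lit 98333) (nat_lit 18) (.e (nat_lit 164178) (nat_lit 154) .nil)))))) (.g (nat_lit 5) .nil .nil)))))))))

noncomputable def tv2170 : DT := (.nd (nat_lit 0) (.nd (nat_lit 1) (.nd (nat_lit 2) (.nd (nat_lit 3) (.nd (nat_lit 4) (.nd (nat_lit 5) 
(.lf (nat_lit 161920) (.g (nat_lit 3671) (.e (nat_lit 57446) (nat_lit 19) (.e (nat_lit 393229) (nat_lit 9) (.e (nat_lit 336088) (nat_lit 9) (.e (nat_lit 336019) (nat_lit 3) (.e (nat_lit 98333) (nat_lit 18) (.e (nat_lit 164179) (nat_lit 154) .nil)))))) (.g (nat_lit 0) .nil .nil))) 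
(.lf (nat_lit 161952) (.g (nat_lit 2760) (.e (nat_lit 57446) (nat_lit 19) (.e (nat_lit 393229) (nat_lit 9) (.e (nat_lit 336184) (nat_lit 11) (.e (nat_lit 368676) (nat_lit 21) (.e (nat_lit 516119) (nat_lit 1) (.e (nat_lit 164179) (nat_lit 154) .nil)))))) (.g (nat_lit 0) .nil .nil)))) (.nd (nat_lit 5) 
(.lf (nat_lit 161936) (.g (nat_lit 3519) (.e (nat_lit 57446) (nat_lit 19) (.e (nat_lit 393229) (nat_lit 9) (.e (nat_lit 336088) (nat_lit 9) (.e (nat_lit 336324) (nat_lit 18) (.e (nat_lit 204831) (nat_lit 18) (.e (nat_lit 57851) (nat_lit 252) .nil)))))) (.g (nat_lit 0) .nil .nil))) 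
(.lf (nat_lit 161968) (.g (nat_lit 3019) (.e (nat_lit 57446) (nat_lit 19) (.e (nat_lit 393229) (nat_lit 9) (.e (nat_lit 336194) (nat_lit 12) (.e (nat_lit 385066) (nat_lit 26) (.e (nat_lit 532501) (nat_lit 1) (.e (nat_lit 57851) (nat_lit 252) .nil)))))) (.g (nat_lit 0) .nil .nil))))) (.nd (nat_lit 4) (.nd (nat_lit 5) 
(.lf (nat_lit 161928) (.g (nat_lit 3279) (.e (nat_lit 57446) (nat_lit 19) (.e (nat_lit 393229) (nat_lit 9) (.e (nat_lit 336088) (nat_lit 9) (.e (nat_lit 336324) (nat_lit 18) (.e (nat_lit 204829) (nat_lit 18) (.e (nat_lit 57854) (nat_lit 252) .nil)))))) (.g (nat_lit 0) .nil .nil))) 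
(.lf (nat_lit 161960) (.g (nat_lit 2496) (.e (nat_lit 57446) (nat_lit 19) (.e (nat_lit 393229) (nat_lit 9) (.e (nat_lit 336193) (nat_lit 12) (.e (nat_lit 385068) (nat_lit 26) .nil)))) .nil))) (.nd (nat_lit 5) 
(.lf (nat_lit 161944) (.g (nat_lit 2638) (.e (nat_lit 57446) (nat_lit 19) (.e (nat_lit 393229) (nat_lit 9) (.e (nat_lit 336088) (nat_lit 9) (.e (nat_lit 336326) (nat_lit 18) (.e (nat_lit 204831) (nat_lit 18) (.e (nat_lit 57851) (nat_lit 252) .nil)))))) (.g (nat_lit 6) .nil .nil))) 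
(.lf (nat_lit 161976) (.g (nat_lit 3179) (.e (nat_lit 57446) (nat_lit 19) (.e (nat_lit 393229) (nat_lit 9) (.e (nat_lit 336194) (nat_lit 12) (.e (nat_lit 385066) (nat_lit 26) (.e (nat_lit 532503) (nat_lit 1) (.e (nat_lit 57847) (nat_lit 252) .nil)))))) (.g (nat_lit 0) .nil .nil)))))) (.nd (nat_lit 3) (.nd (nat_lit 4) (.nd (nat_lit 5) 
(.lf (nat_lit 161924) (.g (nat_lit 1519) (.e (nat_lit 57446) (nat_lit 19) (.e (nat_lit 393229) (nat_lit 9) (.e (nat_lit 336088) (nat_lit 9) (.e (nat_lit 336284) (nat_lit 15) (.e (nat_lit 3249) (nat_lit 197) .nil))))) .nil)) 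
(.lf (nat_lit 161956) (.g (nat_lit 2279) (.e (nat_lit 57446) (nat_lit 19) (.e (nat_lit 393229) (nat_lit 9) (.e (nat_lit 336186) (nat_lit 11) (.e (nat_lit 368676) (nat_lit 21) (.e (nat_lit 516118) (nat_lit 1) (.e (nat_lit 164177) (nat_lit 154) .nil)))))) (.g (nat_lit 6) .nil .nil)))) (.nd (nat_lit 5) 
(.lf (nat_lit 161940) (.g (nat_lit 2253) (.e (nat_lit 57446) (nat_lit 19) (.e (nat_lit 393229) (nat_lit 9) (.e (nat_lit 336088) (nat_lit 9) (.e (nat_lit 336326) (nat_lit 18) (.e (nat_lit 204831) (nat_lit 18) (.e (nat_lit 57844) (nat_lit 252) .nil)))))) (.g (nat_lit 5) .nil .nil))) 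
(.lf (nat_lit 161972) (.g (nat_lit 3012) (.e (nat_lit 57446) (nat_lit 19) (.e (nat_lit 393229) (nat_lit 9) (.e (nat_lit 336194) (nat_lit 12) (.e (nat_lit 385066) (nat_lit 26) (.e (nat_lit 532502) (nat_lit 1) (.e (nat_lit 57852) (nat_lit 252) .nil)))))) (.g (nat_lit 0) .nil .nil))))) (.nd (nat_lit 4) (.nd (nat_lit 5) 
(.lf (nat_lit 161932) (.g (nat_lit 3240) (.e (nat_lit 57446) (nat_lit 19) (.e (nat_lit 393229) (nat_lit 9) (.e (nat_lit 336088) (nat_lit 9) (.e (nat_lit 336324) (nat_lit 18) (.e (nat_lit 204831) (nat_lit 18) (.e (nat_lit 57844) (nat_lit 252) .nil)))))) (.g (nat_lit 5) .nil .nil))) 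
(.lf (nat_lit 161964) (.g (nat_lit 1834) (.e (nat_lit 57446) (nat_lit 19) (.e (nat_lit 393229) (nat_lit 9) (.e (nat_lit 336194) (nat_lit 12) (.e (nat_lit 385066) (nat_lit 26) (.e (nat_lit 532498) (nat_lit 1) (.e (nat_lit 57851) (nat_lit 252) .nil)))))) (.g (nat_lit 4) .nil .nil)))) (.nd (nat_lit 5) 
(.lf (nat_lit 161948) (.g (nat_lit 2914) (.e (nat_lit 57446) (nat_lit 19) (.e (nat_lit 393229) (nat_lit 9) (.e (nat_lit 336184) (nat_lit 11) (.e (nat_lit 368676) (nat_lit 21) (.e (nat_lit 516115) (nat_lit 1) (.e (nat_lit 164179) (nat_lit 154) .nil)))))) (.g (nat_lit 0) .nil .nil))) 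
(.lf (nat_lit 161980) (.g (nat_lit 3113) (.e (nat_lit 57446) (nat_lit 19) (.e (nat_lit 393229) (nat_lit 9) (.e (nat_lit 336194) (nat_lit 12) (.e (nat_lit 385066) (nat_lit 26) (.e (nat_lit 532504) (nat_lit 1) (.e (nat_lit 57853) (nat_lit 252) .nil)))))) (.g (nat_lit 0) .nil .nil))))))) (.nd (nat_lit 2) (.nd (nat_lit 3) (.nd (nat_lit 4) (.nd (nat_lit 5) 
(.lf (nat_lit 161922) (.g (nat_lit 3301) (.e (nat_lit 57446) (nat_lit 19) (.e (nat_lit 393229) (nat_lit 9) (.e (nat_lit 336088) (nat_lit 9) (.e (nat_lit 336019) (nat_lit 3) (.e (nat_lit 98335) (nat_lit 18) (.e (nat_lit 164179) (nat_lit 154) .nil)))))) (.g (nat_lit 0) .nil .nil))) 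
(.lf (nat_lit 161954) (.g (nat_lit 2371) (.e (nat_lit 57446) (nat_lit 19) (.e (nat_lit 393229) (nat_lit 9) (.e (nat_lit 336186) (nat_lit 11) (.e (nat_lit 368676) (nat_lit 21) (.e (nat_lit 516115) (nat_lit 1) (.e (nat_lit 164178) (nat_lit 154) .nil)))))) (.g (nat_lit 5) .nil .nil)))) (.nd (nat_lit 5) 
(.lf (nat_lit 161938) (.g (nat_lit 3238) (.e (nat_lit 57446) (nat_lit 19) (.e (nat_lit 393229) (nat_lit 9) (.e (nat_lit 336088) (nat_lit 9) (.e (nat_lit 336326) (nat_lit 18) (.e (nat_lit 204829) (nat_lit 18) (.e (nat_lit 57847) (nat_lit 252) .nil)))))) (.g (nat_lit 0) .nil .nil))) 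
(.lf (nat_lit 161970) (.g (nat_lit 2572) (.e (nat_lit 57446) (nat_lit 19) (.e (nat_lit 393229) (nat_lit 9) (.e (nat_lit 336194) (nat_lit 12) (.e (nat_lit 385066) (nat_lit 26) (.e (nat_lit 532502) (nat_lit 1) (.e (nat_lit 57848) (nat_lit 252) .nil)))))) (.g (nat_lit 0) .nil .nil))))) (.nd (nat_lit 4) (.nd (nat_lit 5) 
(.lf (nat_lit 161930) (.g (nat_lit 3459) (.e (nat_lit 57446) (nat_lit 19) (.e (nat_lit 393229) (nat_lit 9) (.e (nat_lit 336088) (nat_lit 9) (.e (nat_lit 336324) (nat_lit 18) (.e (nat_lit 204830) (nat_lit 18) (.e (nat_lit 57853) (nat_lit 252) .nil)))))) (.g (nat_lit 6) .nil .nil))) 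
(.lf (nat_lit 161962) (.g (nat_lit 1879) (.e (nat_lit 57446) (nat_lit 19) (.e (nat_lit 393229) (nat_lit 9) (.e (nat_lit 336194) (nat_lit 12) (.e (nat_lit 385064) (nat_lit 26) (.e (nat_lit 532503) (nat_lit 1) (.e (nat_lit 57848) (nat_lit 252) .nil)))))) (.g (nat_lit 5) .nil .nil)))) (.nd (nat_lit 5) 
(.lf (nat_lit 161946) (.g (nat_lit 755) (.e (nat_lit 57446) (nat_lit 19) (.e (nat_lit 393229) (nat_lit 9) (.e (nat_lit 343808) (nat_lit 9) .nil))) .nil)) 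
(.lf (nat_lit 161978) (.g (nat_lit 1670) (.e (nat_lit 57446) (nat_lit 19) (.e (nat_lit 393229) (nat_lit 9) (.e (nat_lit 336194) (nat_lit 12) (.e (nat_lit 385066) (nat_lit 26) (.e (nat_lit 532503) (nat_lit 1) (.e (nat_lit 57850) (nat_lit 252) .nil)))))) (.g (nat_lit 4) .nil .nil)))))) (.nd (nat_lit 3) (.nd (nat_lit 4) (.nd (nat_lit 5) 
(.lf (nat_lit 161926) (.g (nat_lit 3709) (.e (nat_lit 57446) (nat_lit 19) (.e (nat_lit 393229) (nat_lit 9) (.e (nat_lit 336088) (nat_lit 9) (.e (nat_lit 336324) (nat_lit 18) (.e (nat_lit 204829) (nat_lit 18) (.e (nat_lit 57847) (nat_lit 252) .nil)))))) (.g (nat_lit 0) .nil .nil))) 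
(.lf (nat_lit 161958) (.g (nat_lit 2060) (.e (nat_lit 57446) (nat_lit 19) (.e (nat_lit 393229) (nat_lit 9) (.e (nat_lit 336186) (nat_lit 11) (.e (nat_lit 368676) (nat_lit 21) (.e (nat_lit 516119) (nat_lit 1) (.e (nat_lit 164177) (nat_lit 154) .nil)))))) (.g (nat_lit 5) .nil .nil)))) (.nd (nat_lit 5) 
(.lf (nat_lit 161942) (.g (nat_lit 2951) (.e (nat_lit 57446) (nat_lit 19) (.e (nat_lit 393229) (nat_lit 9) (.e (nat_lit 336088) (nat_lit 9) (.e (nat_lit 336326) (nat_lit 18) (.e (nat_lit 204831) (nat_lit 18) (.e (nat_lit 57847) (nat_lit 252) .nil)))))) (.g (nat_lit 0) .nil .nil))) 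
(.lf (nat_lit 161974) (.g (nat_lit 3268) (.e (nat_lit 57446) (nat_lit 19) (.e (nat_lit 393229) (nat_lit 9) (.e (nat_lit 336194) (nat_lit 12) (.e (nat_lit 385066) (nat_lit 26) (.e (nat_lit 532503) (nat_lit 1) (.e (nat_lit 57844) (nat_lit 252) .nil)))))) (.g (nat_lit 6) .nil .nil))))) (.nd (nat_lit 4) (.nd (nat_lit 5) 
(.lf (nat_lit 161934) (.g (nat_lit 3617) (.e (nat_lit 57446) (nat_lit 19) (.e (nat_lit 393229) (nat_lit 9) (.e (nat_lit 336088) (nat_lit 9) (.e (nat_lit 336324) (nat_lit 18) (.e (nat_lit 204831) (nat_lit 18) (.e (nat_lit 57847) (nat_lit 252) .nil)))))) (.g (nat_lit 0) .nil .nil))) 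
(.lf (nat_lit 161966) (.g (nat_lit 3187) (.e (nat_lit 57446) (nat_lit 19) (.e (nat_lit 393229) (nat_lit 9) (.e (nat_lit 336194) (nat_lit 12) (.e (nat_lit 385066) (nat_lit 26) (.e (nat_lit 532499) (nat_lit 1) (.e (nat_lit 57853) (nat_lit 252) .nil)))))) (.g (nat_lit 6) .nil .nil)))) (.nd (nat_lit 5) 
(.lf (nat_lit 161950) (.g (nat_lit 2782) (.e (nat_lit 57446) (nat_lit 19) (.e (nat_lit 393229) (nat_lit 9) (.e (nat_lit 336184) (nat_lit 11) (.e (nat_lit 368676) (nat_lit 21) (.e (nat_lit 516118) (nat_lit 1) (.e (nat_lit 164179) (nat_lit 154) .nil)))))) (.g (nat_lit 0) .nil .nil))) 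
(.lf (nat_lit 161982) (.g (nat_lit 2756) (.e (nat_lit 57446) (nat_lit 19) (.e (nat_lit 393229) (nat_lit 9) (.e (nat_lit 336194) (nat_lit 12) (.e (nat_lit 385067) (nat_lit 26) (.e (nat_lit 532501) (nat_lit 1) (.e (nat_lit 57851) (nat_lit 252) .nil)))))) (.g (nat_lit 6) .nil .nil)))))))) (.nd (nat_lit 1) (.nd (nat_lit 2) (.nd (nat_lit 3) (.nd (nat_lit 4) (.nd (nat_lit 5) 
(.lf (nat_lit 161921) (.g (nat_lit 2470) (.e (nat_lit 57446) (nat_lit 19) (.e (nat_lit 393229) (nat_lit 9) (.e (nat_lit 336088) (nat_lit 9) (.e (nat_lit 336019) (nat_lit 3) (.e (nat_lit 98334) (nat_lit 18) (.e (nat_lit 164176) (nat_lit 154) .nil)))))) (.g (nat_lit 5) .nil .nil))) 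
(.lf (nat_lit 161953) (.g (nat_lit 2587) (.e (nat_lit 57446) (nat_lit 19) (.e (nat_lit 393229) (nat_lit 9) (.e (nat_lit 336186) (nat_lit 11) (.e (nat_lit 368676) (nat_lit 21) (.e (nat_lit 516115) (nat_lit 1) (.e (nat_lit 164177) (nat_lit 154) .nil)))))) (.g (nat_lit 0) .nil .nil)))) (.nd (nat_lit 5) 
(.lf (nat_lit 161937) (.g (nat_lit 3572) (.e (nat_lit 57446) (nat_lit 19) (.e (nat_lit 393229) (nat_lit 9) (.e (nat_lit 336088) (nat_lit 9) (.e (nat_lit 336324) (nat_lit 18) (.e (nat_lit 204831) (nat_lit 18) (.e (nat_lit 57854) (nat_lit 252) .nil)))))) (.g (nat_lit 0) .nil .nil))) 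
(.lf (nat_lit 161969) (.g (nat_lit 2214) (.e (nat_lit 57446) (nat_lit 19) (.e (nat_lit 393229) (nat_lit 9) (.e (nat_lit 336194) (nat_lit 12) (.e (nat_lit 385066) (nat_lit 26) (.e (nat_lit 532502) (nat_lit 1) (.e (nat_lit 57844) (nat_lit 252) .nil)))))) (.g (nat_lit 5) .nil .nil))))) (.nd (nat_lit 4) (.nd (nat_lit 5) 
(.lf (nat_lit 161929) (.g (nat_lit 3372) (.e (nat_lit 57446) (nat_lit 19) (.e (nat_lit 393229) (nat_lit 9) (.e (nat_lit 336088) (nat_lit 9) (.e (nat_lit 336324) (nat_lit 18) (.e (nat_lit 204830) (nat_lit 18) (.e (nat_lit 57851) (nat_lit 252) .nil)))))) (.g (nat_lit 6) .nil .nil))) 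
(.lf (nat_lit 161961) (.g (nat_lit 1854) (.e (nat_lit 57446) (nat_lit 19) (.e (nat_lit 393229) (nat_lit 9) (.e (nat_lit 336194) (nat_lit 12) (.e (nat_lit 385064) (nat_lit 26) (.e (nat_lit 532503) (nat_lit 1) (.e (nat_lit 57844) (nat_lit 252) .nil)))))) (.g (nat_lit 4) .nil .nil)))) (.nd (nat_lit 5) 
(.lf (nat_lit 161945) (.g (nat_lit 3008) (.e (nat_lit 57446) (nat_lit 19) (.e (nat_lit 393229) (nat_lit 9) (.e (nat_lit 336088) (nat_lit 9) (.e (nat_lit 336326) (nat_lit 18) (.e (nat_lit 204831) (nat_lit 18) (.e (nat_lit 57852) (nat_lit 252) .nil)))))) (.g (nat_lit 6) .nil .nil))) 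
(.lf (nat_lit 161977) (.g (nat_lit 3103) (.e (nat_lit 57446) (nat_lit 19) (.e (nat_lit 393229) (nat_lit 9) (.e (nat_lit 336194) (nat_lit 12) (.e (nat_lit 385066) (nat_lit 26) (.e (nat_lit 532503) (nat_lit 1) (.e (nat_lit 57848) (nat_lit 252) .nil)))))) (.g (nat_lit 6) .nil .nil)))))) (.nd (nat_lit 3) (.nd (nat_lit 4) (.nd (nat_lit 5) 
(.lf (nat_lit 161925) (.g (nat_lit 1612) (.e (nat_lit 57446) (nat_lit 19) (.e (nat_lit 393229) (nat_lit 9) (.e (nat_lit 336088) (nat_lit 9) (.e (nat_lit 336322) (nat_lit 18) (.e (nat_lit 204830) (nat_lit 18) (.e (nat_lit 57854) (nat_lit 252) .nil)))))) (.g (nat_lit 4) .nil .nil))) 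
(.lf (nat_lit 161957) (.g (nat_lit 2917) (.e (nat_lit 57446) (nat_lit 19) (.e (nat_lit 393229) (nat_lit 9) (.e (nat_lit 336186) (nat_lit 11) (.e (nat_lit 368676) (nat_lit 21) (.e (nat_lit 516118) (nat_lit 1) (.e (nat_lit 164179) (nat_lit 154) .nil)))))) (.g (nat_lit 0) .nil .nil)))) (.nd (nat_lit 5) 
(.lf (nat_lit 161941) (.g (nat_lit 2918) (.e (nat_lit 57446) (nat_lit 19) (.e (nat_lit 393229) (nat_lit 9) (.e (nat_lit 336088) (nat_lit 9) (.e (nat_lit 336326) (nat_lit 18) (.e (nat_lit 204831) (nat_lit 18) (.e (nat_lit 57846) (nat_lit 252) .nil)))))) (.g (nat_lit 6) .nil .nil))) 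
(.lf (nat_lit 161973) (.g (nat_lit 3204) (.e (nat_lit 57446) (nat_lit 19) (.e (nat_lit 393229) (nat_lit 9) (.e (nat_lit 336194) (nat_lit 12) (.e (nat_lit 385066) (nat_lit 26) (.e (nat_lit 532502) (nat_lit 1) (.e (nat_lit 57853) (nat_lit 252) .nil)))))) (.g (nat_lit 0) .nil .nil))))) (.nd (nat_lit 4) (.nd (nat_lit 5) 
(.lf (nat_lit 161933) (.g (nat_lit 3691) (.e (nat_lit 57446) (nat_lit 19) (.e (nat_lit 393229) (nat_lit 9) (.e (nat_lit 336088) (nat_lit 9) (.e (nat_lit 336324) (nat_lit 18) (.e (nat_lit 204831) (nat_lit 18) (.e (nat_lit 57846) (nat_lit 252) .nil)))))) (.g (nat_lit 0) .nil .nil))) 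
(.lf (nat_lit 161965) (.g (nat_lit 3738) (.e (nat_lit 57446) (nat_lit 19) (.e (nat_lit 393229) (nat_lit 9) (.e (nat_lit 336194) (nat_lit 12) (.e (nat_lit 385066) (nat_lit 26) (.e (nat_lit 532499) (nat_lit 1) (.e (nat_lit 57847) (nat_lit 252) .nil)))))) (.g (nat_lit 0) .nil .nil)))) (.nd (nat_lit 5) 
(.lf (nat_lit 161949) (.g (nat_lit 2196) (.e (nat_lit 57446) (nat_lit 19) (.e (nat_lit 393229) (nat_lit 9) (.e (nat_lit 336184) (nat_lit 11) (.e (nat_lit 368676) (nat_lit 21) (.e (nat_lit 516118) (nat_lit 1) (.e (nat_lit 164177) (nat_lit 154) .nil)))))) (.g (nat_lit 6) .nil .nil))) 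
(.lf (nat_lit 161981) (.g (nat_lit 3305) (.e (nat_lit 57446) (nat_lit 19) (.e (nat_lit 393229) (nat_lit 9) (.e (nat_lit 336194) (nat_lit 12) (.e (nat_lit 385067) (nat_lit 26) (.e (nat_lit 532499) (nat_lit 1) (.e (nat_lit 57847) (nat_lit 252) .nil)))))) (.g (nat_lit 6) .nil .nil))))))) (.nd (nat_lit 2) (.nd (nat_lit 3) (.nd (nat_lit 4) (.nd (nat_lit 5) 
(.lf (nat_lit 161923) (.g (nat_lit 1615) (.e (nat_lit 57446) (nat_lit 19) (.e (nat_lit 393229) (nat_lit 9) (.e (nat_lit 336088) (nat_lit 9) (.e (nat_lit 336257) (nat_lit 15) (.e (nat_lit 3251) (nat_lit 197) .nil))))) .nil)) 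
(.lf (nat_lit 161955) (.g (nat_lit 3052) (.e (nat_lit 57446) (nat_lit 19) (.e (nat_lit 393229) (nat_lit 9) (.e (nat_lit 336186) (nat_lit 11) (.e (nat_lit 368676) (nat_lit 21) (.e (nat_lit 516115) (nat_lit 1) (.e (nat_lit 164179) (nat_lit 154) .nil)))))) (.g (nat_lit 0) .nil .nil)))) (.nd (nat_lit 5) 
(.lf (nat_lit 161939) (.g (nat_lit 2779) (.e (nat_lit 57446) (nat_lit 19) (.e (nat_lit 393229) (nat_lit 9) (.e (nat_lit 336088) (nat_lit 9) (.e (nat_lit 336326) (nat_lit 18) (.e (nat_lit 204830) (nat_lit 18) (.e (nat_lit 57851) (nat_lit 252) .nil)))))) (.g (nat_lit 6) .nil .nil))) 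
(.lf (nat_lit 161971) (.g (nat_lit 2555) (.e (nat_lit 57446) (nat_lit 19) (.e (nat_lit 393229) (nat_lit 9) (.e (nat_lit 336194) (nat_lit 12) (.e (nat_lit 385066) (nat_lit 26) (.e (nat_lit 532502) (nat_lit 1) (.e (nat_lit 57851) (nat_lit 252) .nil)))))) (.g (nat_lit 0) .nil .nil))))) (.nd (nat_lit 4) (.nd (nat_lit 5) 
(.lf (nat_lit 161931) (.g (nat_lit 3485) (.e (nat_lit 57446) (nat_lit 19) (.e (nat_lit 393229) (nat_lit 9) (.e (nat_lit 336088) (nat_lit 9) (.e (nat_lit 336324) (nat_lit 18) (.e (nat_lit 204830) (nat_lit 18) (.e (nat_lit 57854) (nat_lit 252) .nil)))))) (.g (nat_lit 0) .nil .nil))) 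
(.lf (nat_lit 161963) (.g (nat_lit 2556) (.e (nat_lit 57446) (nat_lit 19) (.e (nat_lit 393229) (nat_lit 9) (.e (nat_lit 336194) (nat_lit 12) (.e (nat_lit 385064) (nat_lit 26) (.e (nat_lit 532504) (nat_lit 1) (.e (nat_lit 57851) (nat_lit 252) .nil)))))) (.g (nat_lit 6) .nil .nil)))) (.nd (nat_lit 5) 
(.lf (nat_lit 161947) (.g (nat_lit 2296) (.e (nat_lit 57446) (nat_lit 19) (.e (nat_lit 393229) (nat_lit 9) (.e (nat_lit 336184) (nat_lit 11) (.e (nat_lit 368676) (nat_lit 21) (.e (nat_lit 516115) (nat_lit 1) (.e (nat_lit 164178) (nat_lit 154) .nil)))))) (.g (nat_lit 5) .nil .nil))) 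
(.lf (nat_lit 161979) (.g (nat_lit 2978) (.e (nat_lit 57446) (nat_lit 19) (.e (nat_lit 393229) (nat_lit 9) (.e (nat_lit 336194) (nat_lit 12) (.e (nat_lit 385066) (nat_lit 26) (.e (nat_lit 532504) (nat_lit 1) (.e (nat_lit 57851) (nat_lit 252) .nil)))))) (.g (nat_lit 0) .nil .nil)))))) (.nd (nat_lit 3) (.nd (nat_lit 4) (.nd (nat_lit 5) 
(.lf (nat_lit 161927) (.g (nat_lit 3494) (.e (nat_lit 57446) (nat_lit 19) (.e (nat_lit 393229) (nat_lit 9) (.e (nat_lit 336088) (nat_lit 9) (.e (nat_lit 336324) (nat_lit 18) (.e (nat_lit 204829) (nat_lit 18) (.e (nat_lit 57853) (nat_lit 252) .nil)))))) (.g (nat_lit 6) .nil .nil))) 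
(.lf (nat_lit 161959) (.g (nat_lit 2911) (.e (nat_lit 57446) (nat_lit 19) (.e (nat_lit 393229) (nat_lit 9) (.e (nat_lit 336186) (nat_lit 11) (.e (nat_lit 368676) (nat_lit 21) (.e (nat_lit 516119) (nat_lit 1) (.e (nat_lit 164179) (nat_lit 154) .nil)))))) (.g (nat_lit 0) .nil .nil)))) (.nd (nat_lit 5) 
(.lf (nat_lit 161943) (.g (nat_lit 2572) (.e (nat_lit 57446) (nat_lit 19) (.e (nat_lit 393229) (nat_lit 9) (.e (nat_lit 336088) (nat_lit 9) (.e (nat_lit 336326) (nat_lit 18) (.e (nat_lit 204831) (nat_lit 18) (.e (nat_lit 57848) (nat_lit 252) .nil)))))) (.g (nat_lit 6) .nil .nil))) 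
(.lf (nat_lit 161975) (.g (nat_lit 3297) (.e (nat_lit 57446) (nat_lit 19) (.e (nat_lit 393229) (nat_lit 9) (.e (nat_lit 336194) (nat_lit 12) (.e (nat_lit 385066) (nat_lit 26) (.e (nat_lit 532503) (nat_lit 1) (.e (nat_lit 57846) (nat_lit 252) .nil)))))) (.g (nat_lit 0) .nil .nil))))) (.nd (nat_lit 4) (.nd (nat_lit 5) 
(.lf (nat_lit 161935) (.g (nat_lit 3370) (.e (nat_lit 57446) (nat_lit 19) (.e (nat_lit 393229) (nat_lit 9) (.e (nat_lit 336088) (nat_lit 9) (.e (nat_lit 336324) (nat_lit 18) (.e (nat_lit 204831) (nat_lit 18) (.e (nat_lit 57848) (nat_lit 252) .nil)))))) (.g (nat_lit 0) .nil .nil))) 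
(.lf (nat_lit 161967) (.g (nat_lit 3418) (.e (nat_lit 57446) (nat_lit 19) (.e (nat_lit 393229) (nat_lit 9) (.e (nat_lit 336194) (nat_lit 12) (.e (nat_lit 385066) (nat_lit 26) (.e (nat_lit 532500) (nat_lit 1) (.e (nat_lit 57851) (nat_lit 252) .nil)))))) (.g (nat_lit 0) .nil .nil)))) (.nd (nat_lit 5) 
(.lf (nat_lit 161951) (.g (nat_lit 1958) (.e (nat_lit 57446) (nat_lit 19) (.e (nat_lit 393229) (nat_lit 9) (.e (nat_lit 336184) (nat_lit 11) (.e (nat_lit 368676) (nat_lit 21) (.e (nat_lit 516119) (nat_lit 1) (.e (nat_lit 164177) (nat_lit 154) .nil)))))) (.g (nat_lit 5) .nil .nil))) 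
(.lf (nat_lit 161983) (.g (nat_lit 2901) (.e (nat_lit 57446) (nat_lit 19) (.e (nat_lit 393229) (nat_lit 9) (.e (nat_lit 336194) (nat_lit 12) (.e (nat_lit 385067) (nat_lit 26) (.e (nat_lit 532504) (nat_lit 1) (.e (nat_lit 57851) (nat_lit 252) .nil)))))) (.g (nat_lit 6) .nil .nil)))))))))

noncomputable def tv2171 : DT := (.nd (nat_lit 0) (.nd (nat_lit 1) (.nd (nat_lit 2) (.nd (nat_lit 3) (.nd (nat_lit 4) (.nd (nat_lit 5) 
(.lf (nat_lit 161984) (.g (nat_lit 3768) (.e (nat_lit 57446) (nat_lit 19) (.e (nat_lit 393229) (nat_lit 9) (.e (nat_lit 336194) (nat_lit 12) (.e (nat_lit 385068) (nat_lit 26) (.e (nat_lit 532499) (nat_lit 1) (.e (nat_lit 57847) (nat_lit 252) .nil)))))) (.g (nat_lit 0) .nil .nil))) 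
(.lf (nat_lit 162016) (.g (nat_lit 2013) (.e (nat_lit 57446) (nat_lit 19) (.e (nat_lit 393229) (nat_lit 9) (.e (nat_lit 336204) (nat_lit 12) (.e (nat_lit 385064) (nat_lit 26) (.e (nat_lit 532503) (nat_lit 1) (.e (nat_lit 57844) (nat_lit 252) .nil)))))) (.g (nat_lit 4) .nil .nil)))) (.nd (nat_lit 5) 
(.lf (nat_lit 162000) (.g (nat_lit 2722) (.e (nat_lit 57446) (nat_lit 19) (.e (nat_lit 393229) (nat_lit 9) (.e (nat_lit 336196) (nat_lit 12) (.e (nat_lit 385068) (nat_lit 26) (.e (nat_lit 532503) (nat_lit 1) .nil))))) .nil)) 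
(.lf (nat_lit 162032) (.g (nat_lit 3331) (.e (nat_lit 57446) (nat_lit 19) (.e (nat_lit 393229) (nat_lit 9) (.e (nat_lit 336204) (nat_lit 12) (.e (nat_lit 385066) (nat_lit 26) (.e (nat_lit 532503) (nat_lit 1) (.e (nat_lit 57846) (nat_lit 252) .nil)))))) (.g (nat_lit 0) .nil .nil))))) (.nd (nat_lit 4) (.nd (nat_lit 5) 
(.lf (nat_lit 161992) (.g (nat_lit 2666) (.e (nat_lit 57446) (nat_lit 19) (.e (nat_lit 393229) (nat_lit 9) (.e (nat_lit 336195) (nat_lit 12) (.e (nat_lit 385067) (nat_lit 26) (.e (nat_lit 532499) (nat_lit 1) (.e (nat_lit 57847) (nat_lit 252) .nil)))))) (.g (nat_lit 4) .nil .nil))) 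
(.lf (nat_lit 162024) (.g (nat_lit 3060) (.e (nat_lit 57446) (nat_lit 19) (.e (nat_lit 393229) (nat_lit 9) (.e (nat_lit 336204) (nat_lit 12) (.e (nat_lit 385066) (nat_lit 26) (.e (nat_lit 532501) (nat_lit 1) (.e (nat_lit 57851) (nat_lit 252) .nil)))))) (.g (nat_lit 6) .nil .nil)))) (.nd (nat_lit 5) 
(.lf (nat_lit 162008) (.g (nat_lit 2357) (.e (nat_lit 57446) (nat_lit 19) (.e (nat_lit 393229) (nat_lit 9) (.e (nat_lit 336201) (nat_lit 12) (.e (nat_lit 385068) (nat_lit 26) (.e (nat_lit 532504) (nat_lit 1) (.e (nat_lit 57851) (nat_lit 252) .nil)))))) (.g (nat_lit 4) .nil .nil))) 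
(.lf (nat_lit 162040) (.g (nat_lit 3241) (.e (nat_lit 57446) (nat_lit 19) (.e (nat_lit 393229) (nat_lit 9) (.e (nat_lit 336204) (nat_lit 12) (.e (nat_lit 385068) (nat_lit 26) (.e (nat_lit 532501) (nat_lit 1) (.e (nat_lit 57851) (nat_lit 252) .nil)))))) (.g (nat_lit 6) .nil .nil)))))) (.nd (nat_lit 3) (.nd (nat_lit 4) (.nd (nat_lit 5) 
(.lf (nat_lit 161988) (.g (nat_lit 3059) (.e (nat_lit 57446) (nat_lit 19) (.e (nat_lit 393229) (nat_lit 9) (.e (nat_lit 336194) (nat_lit 12) (.e (nat_lit 385068) (nat_lit 26) (.e (nat_lit 532504) (nat_lit 1) (.e (nat_lit 57851) (nat_lit 252) .nil)))))) (.g (nat_lit 0) .nil .nil))) 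
(.lf (nat_lit 162020) (.g (nat_lit 3775) (.e (nat_lit 57446) (nat_lit 19) (.e (nat_lit 393229) (nat_lit 9) (.e (nat_lit 336204) (nat_lit 12) (.e (nat_lit 385066) (nat_lit 26) (.e (nat_lit 532499) (nat_lit 1) (.e (nat_lit 57847) (nat_lit 252) .nil)))))) (.g (nat_lit 0) .nil .nil)))) (.nd (nat_lit 5) 
(.lf (nat_lit 162004) (.g (nat_lit 1572) (.e (nat_lit 57446) (nat_lit 19) (.e (nat_lit 393229) (nat_lit 9) (.e (nat_lit 336201) (nat_lit 12) (.e (nat_lit 385067) (nat_lit 26) .nil)))) .nil)) 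
(.lf (nat_lit 162036) (.g (nat_lit 3140) (.e (nat_lit 57446) (nat_lit 19) (.e (nat_lit 393229) (nat_lit 9) (.e (nat_lit 336204) (nat_lit 12) (.e (nat_lit 385066) (nat_lit 26) (.e (nat_lit 532504) (nat_lit 1) (.e (nat_lit 57853) (nat_lit 252) .nil)))))) (.g (nat_lit 0) .nil .nil))))) (.nd (nat_lit 4) (.nd (nat_lit 5) 
(.lf (nat_lit 161996) (.g (nat_lit 3144) (.e (nat_lit 57446) (nat_lit 19) (.e (nat_lit 393229) (nat_lit 9) (.e (nat_lit 336196) (nat_lit 12) (.e (nat_lit 385067) (nat_lit 26) (.e (nat_lit 532499) (nat_lit 1) (.e (nat_lit 57847) (nat_lit 252) .nil)))))) (.g (nat_lit 5) .nil .nil))) 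
(.lf (nat_lit 162028) (.g (nat_lit 2597) (.e (nat_lit 57446) (nat_lit 19) (.e (nat_lit 393229) (nat_lit 9) (.e (nat_lit 336204) (nat_lit 12) (.e (nat_lit 385066) (nat_lit 26) (.e (nat_lit 532502) (nat_lit 1) (.e (nat_lit 57851) (nat_lit 252) .nil)))))) (.g (nat_lit 0) .nil .nil)))) (.nd (nat_lit 5) 
(.lf (nat_lit 162012) (.g (nat_lit 2589) (.e (nat_lit 57446) (nat_lit 19) (.e (nat_lit 393229) (nat_lit 9) (.e (nat_lit 336202) (nat_lit 12) (.e (nat_lit 385067) (nat_lit 26) (.e (nat_lit 532504) (nat_lit 1) (.e (nat_lit 57851) (nat_lit 252) .nil)))))) (.g (nat_lit 5) .nil .nil))) 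
(.lf (nat_lit 162044) (.g (nat_lit 3400) (.e (nat_lit 57446) (nat_lit 19) (.e (nat_lit 393229) (nat_lit 9) (.e (nat_lit 336204) (nat_lit 12) (.e (nat_lit 385068) (nat_lit 26) (.e (nat_lit 532504) (nat_lit 1) (.e (nat_lit 57852) (nat_lit 252) .nil)))))) (.g (nat_lit 0) .nil .nil))))))) (.nd (nat_lit 2) (.nd (nat_lit 3) (.nd (nat_lit 4) (.nd (nat_lit 5) 
(.lf (nat_lit 161986) (.g (nat_lit 3288) (.e (nat_lit 57446) (nat_lit 19) (.e (nat_lit 393229) (nat_lit 9) (.e (nat_lit 336194) (nat_lit 12) (.e (nat_lit 385068) (nat_lit 26) (.e (nat_lit 532503) (nat_lit 1) (.e (nat_lit 57847) (nat_lit 252) .nil)))))) (.g (nat_lit 0) .nil .nil))) 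
(.lf (nat_lit 162018) (.g (nat_lit 2672) (.e (nat_lit 57446) (nat_lit 19) (.e (nat_lit 393229) (nat_lit 9) (.e (nat_lit 336204) (nat_lit 12) (.e (nat_lit 385064) (nat_lit 26) (.e (nat_lit 532504) (nat_lit 1) (.e (nat_lit 57851) (nat_lit 252) .nil)))))) (.g (nat_lit 6) .nil .nil)))) (.nd (nat_lit 5) 
(.lf (nat_lit 162002) (.g (nat_lit 2849) (.e (nat_lit 57446) (nat_lit 19) (.e (nat_lit 393229) (nat_lit 9) (.e (nat_lit 336196) (nat_lit 12) (.e (nat_lit 385068) (nat_lit 26) (.e (nat_lit 532504) (nat_lit 1) (.e (nat_lit 57851) (nat_lit 252) .nil)))))) (.g (nat_lit 4) .nil .nil))) 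
(.lf (nat_lit 162034) (.g (nat_lit 3145) (.e (nat_lit 57446) (nat_lit 19) (.e (nat_lit 393229) (nat_lit 9) (.e (nat_lit 336204) (nat_lit 12) (.e (nat_lit 385066) (nat_lit 26) (.e (nat_lit 532503) (nat_lit 1) (.e (nat_lit 57848) (nat_lit 252) .nil)))))) (.g (nat_lit 6) .nil .nil))))) (.nd (nat_lit 4) (.nd (nat_lit 5) 
(.lf (nat_lit 161994) (.g (nat_lit 1951) (.e (nat_lit 57446) (nat_lit 19) (.e (nat_lit 393229) (nat_lit 9) (.e (nat_lit 336196) (nat_lit 12) (.e (nat_lit 385066) (nat_lit 26) .nil)))) .nil)) 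
(.lf (nat_lit 162026) (.g (nat_lit 3066) (.e (nat_lit 57446) (nat_lit 19) (.e (nat_lit 393229) (nat_lit 9) (.e (nat_lit 336204) (nat_lit 12) (.e (nat_lit 385066) (nat_lit 26) (.e (nat_lit 532502) (nat_lit 1) (.e (nat_lit 57847) (nat_lit 252) .nil)))))) (.g (nat_lit 0) .nil .nil)))) (.nd (nat_lit 5) 
(.lf (nat_lit 162010) (.g (nat_lit 3254) (.e (nat_lit 57446) (nat_lit 19) (.e (nat_lit 393229) (nat_lit 9) (.e (nat_lit 336202) (nat_lit 12) (.e (nat_lit 385067) (nat_lit 26) (.e (nat_lit 532499) (nat_lit 1) (.e (nat_lit 57847) (nat_lit 252) .nil)))))) (.g (nat_lit 5) .nil .nil))) 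
(.lf (nat_lit 162042) (.g (nat_lit 3256) (.e (nat_lit 57446) (nat_lit 19) (.e (nat_lit 393229) (nat_lit 9) (.e (nat_lit 336204) (nat_lit 12) (.e (nat_lit 385068) (nat_lit 26) (.e (nat_lit 532503) (nat_lit 1) (.e (nat_lit 57848) (nat_lit 252) .nil)))))) (.g (nat_lit 0) .nil .nil)))))) (.nd (nat_lit 3) (.nd (nat_lit 4) (.nd (nat_lit 5) 
(.lf (nat_lit 161990) (.g (nat_lit 3248) (.e (nat_lit 57446) (nat_lit 19) (.e (nat_lit 393229) (nat_lit 9) (.e (nat_lit 336194) (nat_lit 12) (.e (nat_lit 385068) (nat_lit 26) (.e (nat_lit 532504) (nat_lit 1) (.e (nat_lit 57853) (nat_lit 252) .nil)))))) (.g (nat_lit 0) .nil .nil))) 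
(.lf (nat_lit 162022) (.g (nat_lit 3183) (.e (nat_lit 57446) (nat_lit 19) (.e (nat_lit 393229) (nat_lit 9) (.e (nat_lit 336204) (nat_lit 12) (.e (nat_lit 385066) (nat_lit 26) (.e (nat_lit 532499) (nat_lit 1) (.e (nat_lit 57854) (nat_lit 252) .nil)))))) (.g (nat_lit 0) .nil .nil)))) (.nd (nat_lit 5) 
(.lf (nat_lit 162006) (.g (nat_lit 2383) (.e (nat_lit 57446) (nat_lit 19) (.e (nat_lit 393229) (nat_lit 9) (.e (nat_lit 336201) (nat_lit 12) (.e (nat_lit 385068) (nat_lit 26) (.e (nat_lit 532501) (nat_lit 1) (.e (nat_lit 57851) (nat_lit 252) .nil)))))) (.g (nat_lit 4) .nil .nil))) 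
(.lf (nat_lit 162038) (.g (nat_lit 2612) (.e (nat_lit 57446) (nat_lit 19) (.e (nat_lit 393229) (nat_lit 9) (.e (nat_lit 336204) (nat_lit 12) (.e (nat_lit 385067) (nat_lit 26) (.e (nat_lit 532504) (nat_lit 1) (.e (nat_lit 57851) (nat_lit 252) .nil)))))) (.g (nat_lit 6) .nil .nil))))) (.nd (nat_lit 4) (.nd (nat_lit 5) 
(.lf (nat_lit 161998) (.g (nat_lit 2754) (.e (nat_lit 57446) (nat_lit 19) (.e (nat_lit 393229) (nat_lit 9) (.e (nat_lit 336196) (nat_lit 12) (.e (nat_lit 385068) (nat_lit 26) (.e (nat_lit 532501) (nat_lit 1) .nil))))) .nil)) 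
(.lf (nat_lit 162030) (.g (nat_lit 3254) (.e (nat_lit 57446) (nat_lit 19) (.e (nat_lit 393229) (nat_lit 9) (.e (nat_lit 336204) (nat_lit 12) (.e (nat_lit 385066) (nat_lit 26) (.e (nat_lit 532502) (nat_lit 1) (.e (nat_lit 57853) (nat_lit 252) .nil)))))) (.g (nat_lit 0) .nil .nil)))) (.nd (nat_lit 5) 
(.lf (nat_lit 162014) (.g (nat_lit 3009) (.e (nat_lit 57446) (nat_lit 19) (.e (nat_lit 393229) (nat_lit 9) (.e (nat_lit 336203) (nat_lit 12) (.e (nat_lit 385067) (nat_lit 26) (.e (nat_lit 532501) (nat_lit 1) (.e (nat_lit 57851) (nat_lit 252) .nil)))))) (.g (nat_lit 6) .nil .nil))) 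
(.lf (nat_lit 162046) (.g (nat_lit 734) (.e (nat_lit 57446) (nat_lit 19) (.e (nat_lit 401152) (nat_lit 11) (.e (nat_lit 352313) (nat_lit 23) (.e (nat_lit 98321) (nat_lit 17) (.e (nat_lit 7936) (nat_lit 157) (.e (nat_lit 6393) (nat_lit 339) .nil)))))) (.g (nat_lit 4) .nil .nil)))))))) (.nd (nat_lit 1) (.nd (nat_lit 2) (.nd (nat_lit 3) (.nd (nat_lit 4) (.nd (nat_lit 5) 
(.lf (nat_lit 161985) (.g (nat_lit 3308) (.e (nat_lit 57446) (nat_lit 19) (.e (nat_lit 393229) (nat_lit 9) (.e (nat_lit 336194) (nat_lit 12) (.e (nat_lit 385068) (nat_lit 26) (.e (nat_lit 532501) (nat_lit 1) (.e (nat_lit 57851) (nat_lit 252) .nil)))))) (.g (nat_lit 0) .nil .nil))) 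
(.lf (nat_lit 162017) (.g (nat_lit 1998) (.e (nat_lit 57446) (nat_lit 19) (.e (nat_lit 393229) (nat_lit 9) (.e (nat_lit 336204) (nat_lit 12) (.e (nat_lit 385064) (nat_lit 26) (.e (nat_lit 532503) (nat_lit 1) (.e (nat_lit 57848) (nat_lit 252) .nil)))))) (.g (nat_lit 5) .nil .nil)))) (.nd (nat_lit 5) 
(.lf (nat_lit 162001) (.g (nat_lit 2679) (.e (nat_lit 57446) (nat_lit 19) (.e (nat_lit 393229) (nat_lit 9) (.e (nat_lit 336196) (nat_lit 12) (.e (nat_lit 385068) (nat_lit 26) (.e (nat_lit 532504) (nat_lit 1) .nil))))) .nil)) 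
(.lf (nat_lit 162033) (.g (nat_lit 3223) (.e (nat_lit 57446) (nat_lit 19) (.e (nat_lit 393229) (nat_lit 9) (.e (nat_lit 336204) (nat_lit 12) (.e (nat_lit 385066) (nat_lit 26) (.e (nat_lit 532503) (nat_lit 1) (.e (nat_lit 57847) (nat_lit 252) .nil)))))) (.g (nat_lit 0) .nil .nil))))) (.nd (nat_lit 4) (.nd (nat_lit 5) 
(.lf (nat_lit 161993) (.g (nat_lit 1908) (.e (nat_lit 57446) (nat_lit 19) (.e (nat_lit 393229) (nat_lit 9) (.e (nat_lit 336196) (nat_lit 12) (.e (nat_lit 385064) (nat_lit 26) .nil)))) .nil)) 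
(.lf (nat_lit 162025) (.g (nat_lit 2243) (.e (nat_lit 57446) (nat_lit 19) (.e (nat_lit 393229) (nat_lit 9) (.e (nat_lit 336204) (nat_lit 12) (.e (nat_lit 385066) (nat_lit 26) (.e (nat_lit 532502) (nat_lit 1) (.e (nat_lit 57844) (nat_lit 252) .nil)))))) (.g (nat_lit 5) .nil .nil)))) (.nd (nat_lit 5) 
(.lf (nat_lit 162009) (.g (nat_lit 469) (.e (nat_lit 57446) (nat_lit 19) (.e (nat_lit 393229) (nat_lit 9) (.e (nat_lit 336202) (nat_lit 12) .nil))) .nil)) 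
(.lf (nat_lit 162041) (.g (nat_lit 3267) (.e (nat_lit 57446) (nat_lit 19) (.e (nat_lit 393229) (nat_lit 9) (.e (nat_lit 336204) (nat_lit 12) (.e (nat_lit 385068) (nat_lit 26) (.e (nat_lit 532503) (nat_lit 1) (.e (nat_lit 57847) (nat_lit 252) .nil)))))) (.g (nat_lit 0) .nil .nil)))))) (.nd (nat_lit 3) (.nd (nat_lit 4) (.nd (nat_lit 5) 
(.lf (nat_lit 161989) (.g (nat_lit 3435) (.e (nat_lit 57446) (nat_lit 19) (.e (nat_lit 393229) (nat_lit 9) (.e (nat_lit 336194) (nat_lit 12) (.e (nat_lit 385068) (nat_lit 26) (.e (nat_lit 532504) (nat_lit 1) (.e (nat_lit 57852) (nat_lit 252) .nil)))))) (.g (nat_lit 0) .nil .nil))) 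
(.lf (nat_lit 162021) (.g (nat_lit 3210) (.e (nat_lit 57446) (nat_lit 19) (.e (nat_lit 393229) (nat_lit 9) (.e (nat_lit 336204) (nat_lit 12) (.e (nat_lit 385066) (nat_lit 26) (.e (nat_lit 532499) (nat_lit 1) (.e (nat_lit 57853) (nat_lit 252) .nil)))))) (.g (nat_lit 6) .nil .nil)))) (.nd (nat_lit 5) 
(.lf (nat_lit 162005) (.g (nat_lit 1656) (.e (nat_lit 57446) (nat_lit 19) (.e (nat_lit 393229) (nat_lit 9) (.e (nat_lit 336201) (nat_lit 12) (.e (nat_lit 385068) (nat_lit 26) .nil)))) .nil)) 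
(.lf (nat_lit 162037) (.g (nat_lit 2477) (.e (nat_lit 57446) (nat_lit 19) (.e (nat_lit 393229) (nat_lit 9) (.e (nat_lit 336204) (nat_lit 12) (.e (nat_lit 385067) (nat_lit 26) (.e (nat_lit 532501) (nat_lit 1) (.e (nat_lit 57851) (nat_lit 252) .nil)))))) (.g (nat_lit 6) .nil .nil))))) (.nd (nat_lit 4) (.nd (nat_lit 5) 
(.lf (nat_lit 161997) (.g (nat_lit 2020) (.e (nat_lit 57446) (nat_lit 19) (.e (nat_lit 393229) (nat_lit 9) (.e (nat_lit 336196) (nat_lit 12) (.e (nat_lit 385068) (nat_lit 26) .nil)))) .nil)) 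
(.lf (nat_lit 162029) (.g (nat_lit 3044) (.e (nat_lit 57446) (nat_lit 19) (.e (nat_lit 393229) (nat_lit 9) (.e (nat_lit 336204) (nat_lit 12) (.e (nat_lit 385066) (nat_lit 26) (.e (nat_lit 532502) (nat_lit 1) (.e (nat_lit 57852) (nat_lit 252) .nil)))))) (.g (nat_lit 0) .nil .nil)))) (.nd (nat_lit 5) 
(.lf (nat_lit 162013) (.g (nat_lit 1778) (.e (nat_lit 57446) (nat_lit 19) (.e (nat_lit 393229) (nat_lit 9) (.e (nat_lit 336202) (nat_lit 12) (.e (nat_lit 385068) (nat_lit 26) .nil)))) .nil)) 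
(.lf (nat_lit 162045) (.g (nat_lit 3213) (.e (nat_lit 57446) (nat_lit 19) (.e (nat_lit 393229) (nat_lit 9) (.e (nat_lit 336204) (nat_lit 12) (.e (nat_lit 385068) (nat_lit 26) (.e (nat_lit 532504) (nat_lit 1) (.e (nat_lit 57853) (nat_lit 252) .nil)))))) (.g (nat_lit 0) .nil .nil))))))) (.nd (nat_lit 2) (.nd (nat_lit 3) (.nd (nat_lit 4) (.nd (nat_lit 5) 
(.lf (nat_lit 161987) (.g (nat_lit 3283) (.e (nat_lit 57446) (nat_lit 19) (.e (nat_lit 393229) (nat_lit 9) (.e (nat_lit 336194) (nat_lit 12) (.e (nat_lit 385068) (nat_lit 26) (.e (nat_lit 532503) (nat_lit 1) (.e (nat_lit 57848) (nat_lit 252) .nil)))))) (.g (nat_lit 0) .nil .nil))) 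
(.lf (nat_lit 162019) (.g (nat_lit 1915) (.e (nat_lit 57446) (nat_lit 19) (.e (nat_lit 393229) (nat_lit 9) (.e (nat_lit 336204) (nat_lit 12) (.e (nat_lit 385066) (nat_lit 26) (.e (nat_lit 532498) (nat_lit 1) (.e (nat_lit 57851) (nat_lit 252) .nil)))))) (.g (nat_lit 4) .nil .nil)))) (.nd (nat_lit 5) 
(.lf (nat_lit 162003) (.g (nat_lit 629) (.e (nat_lit 57446) (nat_lit 19) (.e (nat_lit 393229) (nat_lit 9) (.e (nat_lit 336201) (nat_lit 12) .nil))) .nil)) 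
(.lf (nat_lit 162035) (.g (nat_lit 3022) (.e (nat_lit 57446) (nat_lit 19) (.e (nat_lit 393229) (nat_lit 9) (.e (nat_lit 336204) (nat_lit 12) (.e (nat_lit 385066) (nat_lit 26) (.e (nat_lit 532504) (nat_lit 1) (.e (nat_lit 57851) (nat_lit 252) .nil)))))) (.g (nat_lit 0) .nil .nil))))) (.nd (nat_lit 4) (.nd (nat_lit 5) 
(.lf (nat_lit 161995) (.g (nat_lit 2505) (.e (nat_lit 57446) (nat_lit 19) (.e (nat_lit 393229) (nat_lit 9) (.e (nat_lit 336196) (nat_lit 12) (.e (nat_lit 385066) (nat_lit 26) (.e (nat_lit 532499) (nat_lit 1) .nil))))) .nil)) 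
(.lf (nat_lit 162027) (.g (nat_lit 2621) (.e (nat_lit 57446) (nat_lit 19) (.e (nat_lit 393229) (nat_lit 9) (.e (nat_lit 336204) (nat_lit 12) (.e (nat_lit 385066) (nat_lit 26) (.e (nat_lit 532502) (nat_lit 1) (.e (nat_lit 57848) (nat_lit 252) .nil)))))) (.g (nat_lit 0) .nil .nil)))) (.nd (nat_lit 5) 
(.lf (nat_lit 162011) (.g (nat_lit 2460) (.e (nat_lit 57446) (nat_lit 19) (.e (nat_lit 393229) (nat_lit 9) (.e (nat_lit 336202) (nat_lit 12) (.e (nat_lit 385067) (nat_lit 26) (.e (nat_lit 532501) (nat_lit 1) (.e (nat_lit 57851) (nat_lit 252) .nil)))))) (.g (nat_lit 4) .nil .nil))) 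
(.lf (nat_lit 162043) (.g (nat_lit 3025) (.e (nat_lit 57446) (nat_lit 19) (.e (nat_lit 393229) (nat_lit 9) (.e (nat_lit 336204) (nat_lit 12) (.e (nat_lit 385068) (nat_lit 26) (.e (nat_lit 532504) (nat_lit 1) (.e (nat_lit 57851) (nat_lit 252) .nil)))))) (.g (nat_lit 0) .nil .nil)))))) (.nd (nat_lit 3) (.nd (nat_lit 4) (.nd (nat_lit 5) 
(.lf (nat_lit 161991) (.g (nat_lit 744) (.e (nat_lit 57446) (nat_lit 19) (.e (nat_lit 393229) (nat_lit 9) (.e (nat_lit 336195) (nat_lit 12) .nil))) .nil)) 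
(.lf (nat_lit 162023) (.g (nat_lit 3446) (.e (nat_lit 57446) (nat_lit 19) (.e (nat_lit 393229) (nat_lit 9) (.e (nat_lit 336204) (nat_lit 12) (.e (nat_lit 385066) (nat_lit 26) (.e (nat_lit 532500) (nat_lit 1) (.e (nat_lit 57851) (nat_lit 252) .nil)))))) (.g (nat_lit 6) .nil .nil)))) (.nd (nat_lit 5) 
(.lf (nat_lit 162007) (.g (nat_lit 2261) (.e (nat_lit 57446) (nat_lit 19) (.e (nat_lit 393229) (nat_lit 9) (.e (nat_lit 336201) (nat_lit 12) (.e (nat_lit 385068) (nat_lit 26) (.e (nat_lit 532504) (nat_lit 1) .nil))))) .nil)) 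
(.lf (nat_lit 162039) (.g (nat_lit 3702) (.e (nat_lit 57446) (nat_lit 19) (.e (nat_lit 393229) (nat_lit 9) (.e (nat_lit 336204) (nat_lit 12) (.e (nat_lit 385068) (nat_lit 26) (.e (nat_lit 532499) (nat_lit 1) (.e (nat_lit 57847) (nat_lit 252) .nil)))))) (.g (nat_lit 0) .nil .nil))))) (.nd (nat_lit 4) (.nd (nat_lit 5) 
(.lf (nat_lit 161999) (.g (nat_lit 3111) (.e (nat_lit 57446) (nat_lit 19) (.e (nat_lit 393229) (nat_lit 9) (.e (nat_lit 336196) (nat_lit 12) (.e (nat_lit 385068) (nat_lit 26) (.e (nat_lit 532501) (nat_lit 1) (.e (nat_lit 57851) (nat_lit 252) .nil)))))) (.g (nat_lit 4) .nil .nil))) 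
(.lf (nat_lit 162031) (.g (nat_lit 3298) (.e (nat_lit 57446) (nat_lit 19) (.e (nat_lit 393229) (nat_lit 9) (.e (nat_lit 336204) (nat_lit 12) (.e (nat_lit 385066) (nat_lit 26) (.e (nat_lit 532503) (nat_lit 1) (.e (nat_lit 57844) (nat_lit 252) .nil)))))) (.g (nat_lit 6) .nil .nil)))) (.nd (nat_lit 5) 
(.lf (nat_lit 162015) (.g (nat_lit 3071) (.e (nat_lit 57446) (nat_lit 19) (.e (nat_lit 393229) (nat_lit 9) (.e (nat_lit 336203) (nat_lit 12) (.e (nat_lit 385067) (nat_lit 26) (.e (nat_lit 532504) (nat_lit 1) (.e (nat_lit 57851) (nat_lit 252) .nil)))))) (.g (nat_lit 6) .nil .nil))) 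
(.lf (nat_lit 162047) (.g (nat_lit 1766) (.e (nat_lit 57446) (nat_lit 19) (.e (nat_lit 401152) (nat_lit 12) (.e (nat_lit 360474) (nat_lit 8) (.e (nat_lit 557093) (nat_lit 12) (.e (nat_lit 171776) (nat_lit 0) (.e (nat_lit 5193) (nat_lit 294) .nil)))))) (.g (nat_lit 4) .nil .nil)))))))))

noncomputable def tv2172 : DT := (.nd (nat_lit 0) (.nd (nat_lit 1) (.nd (nat_lit 2) (.nd (nat_lit 3) (.nd (nat_lit 4) (.nd (nat_lit 5) 
(.lf (nat_lit 162048) (.g (nat_lit 1529) (.e (nat_lit 57446) (nat_lit 19) (.e (nat_lit 401152) (nat_lit 12) (.e (nat_lit 360474) (nat_lit 8) (.e (nat_lit 557094) (nat_lit 12) (.e (nat_lit 171776) (nat_lit 0) (.e (nat_lit 5193) (nat_lit 294) .nil)))))) (.g (nat_lit 4) .nil .nil))) 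
(.lf (nat_lit 162080) (.g (nat_lit 3039) (.e (nat_lit 57446) (nat_lit 19) (.e (nat_lit 393281) (nat_lit 23) (.e (nat_lit 426133) (nat_lit 3) (.e (nat_lit 204809) (nat_lit 9) (.e (nat_lit 426108) (nat_lit 1) (.e (nat_lit 164403) (nat_lit 256) .nil)))))) (.g (nat_lit 0) .nil .nil)))) (.nd (nat_lit 5) 
(.lf (nat_lit 162064) (.g (nat_lit 2845) (.e (nat_lit 57446) (nat_lit 19) (.e (nat_lit 393281) (nat_lit 23) (.e (nat_lit 426116) (nat_lit 2) (.e (nat_lit 196654) (nat_lit 11) (.e (nat_lit 16407) (nat_lit 1) (.e (nat_lit 164403) (nat_lit 256) .nil)))))) (.g (nat_lit 0) .nil .nil))) 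
(.lf (nat_lit 162096) (.g (nat_lit 2557) (.e (nat_lit 57447) (nat_lit 19) (.e (nat_lit 393224) (nat_lit 9) (.e (nat_lit 336076) (nat_lit 9) (.e (nat_lit 336324) (nat_lit 18) (.e (nat_lit 204831) (nat_lit 18) (.e (nat_lit 57852) (nat_lit 252) .nil)))))) (.g (nat_lit 5) .nil .nil))))) (.nd (nat_lit 4) (.nd (nat_lit 5) 
(.lf (nat_lit 162056) (.g (nat_lit 2624) (.e (nat_lit 57446) (nat_lit 19) (.e (nat_lit 393275) (nat_lit 23) (.e (nat_lit 426125) (nat_lit 2) (.e (nat_lit 196630) (nat_lit 9) (.e (nat_lit 430) (nat_lit 32) .nil))))) .nil)) 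
(.lf (nat_lit 162088) (.g (nat_lit 2634) (.e (nat_lit 57446) (nat_lit 19) (.e (nat_lit 393283) (nat_lit 24) (.e (nat_lit 434231) (nat_lit 23) (.e (nat_lit 532579) (nat_lit 26) (.e (nat_lit 426098) (nat_lit 1) (.e (nat_lit 164399) (nat_lit 256) .nil)))))) (.g (nat_lit 5) .nil .nil)))) (.nd (nat_lit 5) 
(.lf (nat_lit 162072) (.g (nat_lit 2719) (.e (nat_lit 57446) (nat_lit 19) (.e (nat_lit 393281) (nat_lit 23) (.e (nat_lit 426133) (nat_lit 3) (.e (nat_lit 204809) (nat_lit 9) (.e (nat_lit 426098) (nat_lit 1) (.e (nat_lit 164399) (nat_lit 256) .nil)))))) (.g (nat_lit 0) .nil .nil))) 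
(.lf (nat_lit 162104) (.g (nat_lit 2223) (.e (nat_lit 57447) (nat_lit 19) (.e (nat_lit 393224) (nat_lit 9) (.e (nat_lit 336088) (nat_lit 9) (.e (nat_lit 336324) (nat_lit 18) (.e (nat_lit 204831) (nat_lit 18) .nil))))) .nil))))) (.nd (nat_lit 3) (.nd (nat_lit 4) (.nd (nat_lit 5) 
(.lf (nat_lit 162052) (.g (nat_lit 2590) (.e (nat_lit 57446) (nat_lit 19) (.e (nat_lit 393271) (nat_lit 23) (.e (nat_lit 426131) (nat_lit 3) (.e (nat_lit 204808) (nat_lit 9) .nil)))) .nil)) 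
(.lf (nat_lit 162084) (.g (nat_lit 3103) (.e (nat_lit 57446) (nat_lit 19) (.e (nat_lit 393281) (nat_lit 23) (.e (nat_lit 426133) (nat_lit 3) (.e (nat_lit 204813) (nat_lit 9) (.e (nat_lit 426107) (nat_lit 1) (.e (nat_lit 164403) (nat_lit 256) .nil)))))) (.g (nat_lit 0) .nil .nil)))) (.nd (nat_lit 5) 
(.lf (nat_lit 162068) (.g (nat_lit 2287) (.e (nat_lit 57446) (nat_lit 19) (.e (nat_lit 393281) (nat_lit 23) (.e (nat_lit 426124) (nat_lit 2) (.e (nat_lit 196656) (nat_lit 11) (.e (nat_lit 16405) (nat_lit 1) (.e (nat_lit 164403) (nat_lit 256) .nil)))))) (.g (nat_lit 4) .nil .nil))) 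
(.lf (nat_lit 162100) (.g (nat_lit 2486) (.e (nat_lit 57447) (nat_lit 19) (.e (nat_lit 393224) (nat_lit 9) (.e (nat_lit 336088) (nat_lit 9) (.e (nat_lit 336019) (nat_lit 3) (.e (nat_lit 98333) (nat_lit 18) (.e (nat_lit 164183) (nat_lit 154) .nil)))))) (.g (nat_lit 4) .nil .nil))))) (.nd (nat_lit 4) (.nd (nat_lit 5) 
(.lf (nat_lit 162060) (.g (nat_lit 1131) (.e (nat_lit 57446) (nat_lit 19) (.e (nat_lit 393281) (nat_lit 23) (.e (nat_lit 426115) (nat_lit 2) (.e (nat_lit 196654) (nat_lit 11) (.e (nat_lit 16407) (nat_lit 1) .nil))))) .nil)) 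
(.lf (nat_lit 162092) (.g (nat_lit 1968) (.e (nat_lit 57446) (nat_lit 19) (.e (nat_lit 393284) (nat_lit 24) (.e (nat_lit 434231) (nat_lit 23) (.e (nat_lit 532579) (nat_lit 26) (.e (nat_lit 426100) (nat_lit 1) .nil))))) .nil))) (.nd (nat_lit 5) 
(.lf (nat_lit 162076) (.g (nat_lit 3381) (.e (nat_lit 57446) (nat_lit 19) (.e (nat_lit 393281) (nat_lit 23) (.e (nat_lit 426133) (nat_lit 3) (.e (nat_lit 204809) (nat_lit 9) (.e (nat_lit 426100) (nat_lit 1) (.e (nat_lit 164403) (nat_lit 256) .nil)))))) (.g (nat_lit 6) .nil .nil))) 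
(.lf (nat_lit 162108) (.g (nat_lit 3584) (.e (nat_lit 57447) (nat_lit 19) (.e (nat_lit 393224) (nat_lit 9) (.e (nat_lit 336194) (nat_lit 12) (.e (nat_lit 385068) (nat_lit 26) (.e (nat_lit 532499) (nat_lit 1) (.e (nat_lit 57847) (nat_lit 252) .nil)))))) (.g (nat_lit 5) .nil .nil))))))) (.nd (nat_lit 2) (.nd (nat_lit 3) (.nd (nat_lit 4) (.nd (nat_lit 5) 
(.lf (nat_lit 162050) (.g (nat_lit 537) (.e (nat_lit 57446) (nat_lit 19) (.e (nat_lit 393232) (nat_lit 17) (.e (nat_lit 7581) (nat_lit 405) .nil))) .nil)) 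
(.lf (nat_lit 162082) (.g (nat_lit 1870) (.e (nat_lit 57446) (nat_lit 19) (.e (nat_lit 393281) (nat_lit 23) (.e (nat_lit 426133) (nat_lit 3) (.e (nat_lit 204812) (nat_lit 9) .nil)))) .nil))) (.nd (nat_lit 5) 
(.lf (nat_lit 162066) (.g (nat_lit 1841) (.e (nat_lit 57446) (nat_lit 19) (.e (nat_lit 393281) (nat_lit 23) (.e (nat_lit 426116) (nat_lit 2) (.e (nat_lit 196656) (nat_lit 11) (.e (nat_lit 16407) (nat_lit 1) (.e (nat_lit 164401) (nat_lit 256) .nil)))))) (.g (nat_lit 4) .nil .nil))) 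
(.lf (nat_lit 162098) (.g (nat_lit 2015) (.e (nat_lit 57447) (nat_lit 19) (.e (nat_lit 393224) (nat_lit 9) (.e (nat_lit 336078) (nat_lit 9) (.e (nat_lit 336324) (nat_lit 18) (.e (nat_lit 204831) (nat_lit 18) (.e (nat_lit 57854) (nat_lit 252) .nil)))))) (.g (nat_lit 4) .nil .nil))))) (.nd (nat_lit 4) (.nd (nat_lit 5) 
(.lf (nat_lit 162058) (.g (nat_lit 1023) (.e (nat_lit 57446) (nat_lit 19) (.e (nat_lit 393275) (nat_lit 23) (.e (nat_lit 426140) (nat_lit 3) (.e (nat_lit 212736) (nat_lit 10) .nil)))) .nil)) 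
(.lf (nat_lit 162090) (.g (nat_lit 2131) (.e (nat_lit 57446) (nat_lit 19) (.e (nat_lit 393283) (nat_lit 24) (.e (nat_lit 434231) (nat_lit 23) (.e (nat_lit 532579) (nat_lit 26) (.e (nat_lit 426100) (nat_lit 1) (.e (nat_lit 164398) (nat_lit 256) .nil)))))) (.g (nat_lit 4) .nil .nil)))) (.nd (nat_lit 5) 
(.lf (nat_lit 162074) (.g (nat_lit 2597) (.e (nat_lit 57446) (nat_lit 19) (.e (nat_lit 393281) (nat_lit 23) (.e (nat_lit 426133) (nat_lit 3) (.e (nat_lit 204809) (nat_lit 9) (.e (nat_lit 426099) (nat_lit 1) (.e (nat_lit 164399) (nat_lit 256) .nil)))))) (.g (nat_lit 6) .nil .nil))) 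
(.lf (nat_lit 162106) (.g (nat_lit 2270) (.e (nat_lit 57447) (nat_lit 19) (.e (nat_lit 393224) (nat_lit 9) (.e (nat_lit 336194) (nat_lit 12) (.e (nat_lit 385066) (nat_lit 26) (.e (nat_lit 532502) (nat_lit 1) (.e (nat_lit 57854) (nat_lit 252) .nil)))))) (.g (nat_lit 4) .nil .nil)))))) (.nd (nat_lit 3) (.nd (nat_lit 4) (.nd (nat_lit 5) 
(.lf (nat_lit 162054) (.g (nat_lit 2525) (.e (nat_lit 57446) (nat_lit 19) (.e (nat_lit 393271) (nat_lit 23) (.e (nat_lit 426131) (nat_lit 3) (.e (nat_lit 204812) (nat_lit 9) .nil)))) .nil)) 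
(.lf (nat_lit 162086) (.g (nat_lit 1401) (.e (nat_lit 57446) (nat_lit 19) (.e (nat_lit 393283) (nat_lit 24) (.e (nat_lit 434231) (nat_lit 23) (.e (nat_lit 532578) (nat_lit 26) .nil)))) .nil))) (.nd (nat_lit 5) 
(.lf (nat_lit 162070) (.g (nat_lit 2179) (.e (nat_lit 57446) (nat_lit 19) (.e (nat_lit 393281) (nat_lit 23) (.e (nat_lit 426124) (nat_lit 2) (.e (nat_lit 196656) (nat_lit 11) (.e (nat_lit 16407) (nat_lit 1) .nil))))) .nil)) 
(.lf (nat_lit 162102) (.g (nat_lit 2247) (.e (nat_lit 57447) (nat_lit 19) (.e (nat_lit 393224) (nat_lit 9) (.e (nat_lit 336088) (nat_lit 9) (.e (nat_lit 336019) (nat_lit 3) (.e (nat_lit 98335) (nat_lit 18) (.e (nat_lit 164183) (nat_lit 154) .nil)))))) (.g (nat_lit 4) .nil .nil))))) (.nd (nat_lit 4) (.nd (nat_lit 5) 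
(.lf (nat_lit 162062) (.g (nat_lit 2578) (.e (nat_lit 57446) (nat_lit 19) (.e (nat_lit 393281) (nat_lit 23) (.e (nat_lit 426116) (nat_lit 2) (.e (nat_lit 196654) (nat_lit 11) (.e (nat_lit 16405) (nat_lit 1) (.e (nat_lit 164399) (nat_lit 256) .nil)))))) (.g (nat_lit 0) .nil .nil))) 
(.lf (nat_lit 162094) (.g (nat_lit 1979) (.e (nat_lit 57447) (nat_lit 19) (.e (nat_lit 393224) (nat_lit 9) (.e (nat_lit 336075) (nat_lit 9) (.e (nat_lit 336324) (nat_lit 18) (.e (nat_lit 204830) (nat_lit 18) (.e (nat_lit 57852) (nat_lit 252) .nil)))))) (.g (nat_lit 4) .nil .nil)))) (.nd (nat_lit 5) 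
(.lf (nat_lit 162078) (.g (nat_lit 1772) (.e (nat_lit 57446) (nat_lit 19) (.e (nat_lit 393281) (nat_lit 23) (.e (nat_lit 426133) (nat_lit 3) (.e (nat_lit 204809) (nat_lit 9) (.e (nat_lit 426107) (nat_lit 1) (.e (nat_lit 164402) (nat_lit 256) .nil)))))) (.g (nat_lit 4) .nil .nil))) 
(.lf (nat_lit 162110) (.g (nat_lit 1927) (.e (nat_lit 57447) (nat_lit 19) (.e (nat_lit 393224) (nat_lit 9) (.e (nat_lit 336196) (nat_lit 12) (.e (nat_lit 385066) (nat_lit 26) (.e (nat_lit 532501) (nat_lit 1) (.e (nat_lit 57852) (nat_lit 252) .nil)))))) (.g (nat_lit 4) .nil .nil)))))))) (.nd (nat_lit 1) (.nd (nat_lit 2) (.nd (nat_lit 3) (.nd (nat_lit 4) (.nd (nat_lit 5) 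
(.lf (nat_lit 162049) (.g (nat_lit 1919) (.e (nat_lit 57446) (nat_lit 19) (.e (nat_lit 401152) (nat_lit 12) (.e (nat_lit 360475) (nat_lit 8) (.e (nat_lit 557091) (nat_lit 12) (.e (nat_lit 171776) (nat_lit 0) (.e (nat_lit 5193) (nat_lit 294) .nil)))))) (.g (nat_lit 4) .nil .nil))) 
(.lf (nat_lit 162081) (.g (nat_lit 1270) (.e (nat_lit 57446) (nat_lit 19) (.e (nat_lit 393281) (nat_lit 23) (.e (nat_lit 426133) (nat_lit 3) (.e (nat_lit 204811) (nat_lit 9) .nil)))) .nil))) (.nd (nat_lit 5) 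
(.lf (nat_lit 162065) (.g (nat_lit 1739) (.e (nat_lit 57446) (nat_lit 19) (.e (nat_lit 393281) (nat_lit 23) (.e (nat_lit 426116) (nat_lit 2) (.e (nat_lit 196656) (nat_lit 11) (.e (nat_lit 16406) (nat_lit 1) (.e (nat_lit 164401) (nat_lit 256) .nil)))))) (.g (nat_lit 4) .nil .nil))) 
(.lf (nat_lit 162097) (.g (nat_lit 1772) (.e (nat_lit 57447) (nat_lit 19) (.e (nat_lit 393224) (nat_lit 9) (.e (nat_lit 336078) (nat_lit 9) (.e (nat_lit 336324) (nat_lit 18) (.e (nat_lit 204830) (nat_lit 18) (.e (nat_lit 57852) (nat_lit 252) .nil)))))) (.g (nat_lit 4) .nil .nil))))) (.nd (nat_lit 4) (.nd (nat_lit 5) 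
(.lf (nat_lit 162057) (.g (nat_lit 2774) (.e (nat_lit 57446) (nat_lit 19) (.e (nat_lit 393275) (nat_lit 23) (.e (nat_lit 426125) (nat_lit 2) (.e (nat_lit 196630) (nat_lit 9) (.e (nat_lit 430) (nat_lit 32) (.e (nat_lit 426098) (nat_lit 1) (.e (nat_lit 164399) (nat_lit 256) .nil))))))) (.g (nat_lit 4) .nil .nil))) 
(.lf (nat_lit 162089) (.g (nat_lit 2017) (.e (nat_lit 57446) (nat_lit 19) (.e (nat_lit 393283) (nat_lit 24) (.e (nat_lit 434231) (nat_lit 23) (.e (nat_lit 532579) (nat_lit 26) (.e (nat_lit 426099) (nat_lit 1) .nil))))) .nil))) (.nd (nat_lit 5) 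
(.lf (nat_lit 162073) (.g (nat_lit 2997) (.e (nat_lit 57446) (nat_lit 19) (.e (nat_lit 393281) (nat_lit 23) (.e (nat_lit 426133) (nat_lit 3) (.e (nat_lit 204809) (nat_lit 9) (.e (nat_lit 426098) (nat_lit 1) (.e (nat_lit 164403) (nat_lit 256) .nil)))))) (.g (nat_lit 6) .nil .nil))) 
(.lf (nat_lit 162105) (.g (nat_lit 2034) (.e (nat_lit 57447) (nat_lit 19) (.e (nat_lit 393224) (nat_lit 9) (.e (nat_lit 336194) (nat_lit 12) (.e (nat_lit 385066) (nat_lit 26) (.e (nat_lit 532501) (nat_lit 1) (.e (nat_lit 57852) (nat_lit 252) .nil)))))) (.g (nat_lit 4) .nil .nil)))))) (.nd (nat_lit 3) (.nd (nat_lit 4) (.nd (nat_lit 5) 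
(.lf (nat_lit 162053) (.g (nat_lit 2321) (.e (nat_lit 57446) (nat_lit 19) (.e (nat_lit 393271) (nat_lit 23) (.e (nat_lit 426131) (nat_lit 3) (.e (nat_lit 204809) (nat_lit 9) .nil)))) .nil)) 
(.lf (nat_lit 162085) (.g (nat_lit 1172) (.e (nat_lit 57446) (nat_lit 19) (.e (nat_lit 393281) (nat_lit 23) (.e (nat_lit 426133) (nat_lit 3) (.e (nat_lit 212736) (nat_lit 10) .nil)))) .nil))) (.nd (nat_lit 5) 
(.lf (nat_lit 162069) (.g (nat_lit 2204) (.e (nat_lit 57446) (nat_lit 19) (.e (nat_lit 393281) (nat_lit 23) (.e (nat_lit 426124) (nat_lit 2) (.e (nat_lit 196656) (nat_lit 11) (.e (nat_lit 16406) (nat_lit 1) .nil))))) .nil)) 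
(.lf (nat_lit 162101) (.g (nat_lit 2427) (.e (nat_lit 57447) (nat_lit 19) (.e (nat_lit 393224) (nat_lit 9) (.e (nat_lit 336088) (nat_lit 9) (.e (nat_lit 336019) (nat_lit 3) (.e (nat_lit 98334) (nat_lit 18) (.e (nat_lit 164183) (nat_lit 154) .nil)))))) (.g (nat_lit 4) .nil .nil))))) (.nd (nat_lit 4) (.nd (nat_lit 5) 
(.lf (nat_lit 162061) (.g (nat_lit 1876) (.e (nat_lit 57446) (nat_lit 19) (.e (nat_lit 393281) (nat_lit 23) (.e (nat_lit 426116) (nat_lit 2) (.e (nat_lit 196654) (nat_lit 11) (.e (nat_lit 16393) (nat_lit 0) .nil))))) .nil)) 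
(.lf (nat_lit 162093) (.g (nat_lit 883) (.e (nat_lit 57446) (nat_lit 19) (.e (nat_lit 393286) (nat_lit 25) (.e (nat_lit 458789) (nat_lit 23) (.e (nat_lit 532579) (nat_lit 26) .nil)))) .nil))) (.nd (nat_lit 5) 
(.lf (nat_lit 162077) (.g (nat_lit 1735) (.e (nat_lit 57446) (nat_lit 19) (.e (nat_lit 393281) (nat_lit 23) (.e (nat_lit 426133) (nat_lit 3) (.e (nat_lit 204809) (nat_lit 9) (.e (nat_lit 426105) (nat_lit 1) (.e (nat_lit 164403) (nat_lit 256) .nil)))))) (.g (nat_lit 4) .nil .nil))) 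
(.lf (nat_lit 162109) (.g (nat_lit 2981) (.e (nat_lit 57447) (nat_lit 19) (.e (nat_lit 393224) (nat_lit 9) (.e (nat_lit 336194) (nat_lit 12) (.e (nat_lit 385068) (nat_lit 26) (.e (nat_lit 532503) (nat_lit 1) (.e (nat_lit 57847) (nat_lit 252) .nil)))))) (.g (nat_lit 4) .nil .nil))))))) (.nd (nat_lit 2) (.nd (nat_lit 3) (.nd (nat_lit 4) (.nd (nat_lit 5) 
(.lf (nat_lit 162051) (.g (nat_lit 1257) (.e (nat_lit 57446) (nat_lit 19) (.e (nat_lit 393271) (nat_lit 23) (.e (nat_lit 426131) (nat_lit 3) .nil))) .nil)) 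
(.lf (nat_lit 162083) (.g (nat_lit 2480) (.e (nat_lit 57446) (nat_lit 19) (.e (nat_lit 393281) (nat_lit 23) (.e (nat_lit 426133) (nat_lit 3) (.e (nat_lit 204813) (nat_lit 9) (.e (nat_lit 426099) (nat_lit 1) .nil))))) .nil))) (.nd (nat_lit 5) 
(.lf (nat_lit 162067) (.g (nat_lit 2875) (.e (nat_lit 57446) (nat_lit 19) (.e (nat_lit 393281) (nat_lit 23) (.e (nat_lit 426116) (nat_lit 2) (.e (nat_lit 196656) (nat_lit 11) (.e (nat_lit 16407) (nat_lit 1) (.e (nat_lit 164403) (nat_lit 256) .nil)))))) (.g (nat_lit 0) .nil .nil))) 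
(.lf (nat_lit 162099) (.g (nat_lit 2072) (.e (nat_lit 57447) (nat_lit 19) (.e (nat_lit 393224) (nat_lit 9) (.e (nat_lit 336087) (nat_lit 9) (.e (nat_lit 336019) (nat_lit 3) (.e (nat_lit 98334) (nat_lit 18) (.e (nat_lit 164183) (nat_lit 154) .nil)))))) (.g (nat_lit 4) .nil .nil))))) (.nd (nat_lit 4) (.nd (nat_lit 5) 
(.lf (nat_lit 162059) (.g (nat_lit 958) (.e (nat_lit 57446) (nat_lit 19) (.e (nat_lit 393280) (nat_lit 23) (.e (nat_lit 426133) (nat_lit 3) (.e (nat_lit 204813) (nat_lit 9) .nil)))) .nil)) 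
(.lf (nat_lit 162091) (.g (nat_lit 2801) (.e (nat_lit 57446) (nat_lit 19) (.e (nat_lit 393283) (nat_lit 24) (.e (nat_lit 434231) (nat_lit 23) (.e (nat_lit 532579) (nat_lit 26) (.e (nat_lit 426100) (nat_lit 1) (.e (nat_lit 164399) (nat_lit 256) .nil)))))) (.g (nat_lit 5) .nil .nil)))) (.nd (nat_lit 5) 
(.lf (nat_lit 162075) (.g (nat_lit 2845) (.e (nat_lit 57446) (nat_lit 19) (.e (nat_lit 393281) (nat_lit 23) (.e (nat_lit 426133) (nat_lit 3) (.e (nat_lit 204809) (nat_lit 9) (.e (nat_lit 426100) (nat_lit 1) (.e (nat_lit 164399) (nat_lit 256) .nil)))))) (.g (nat_lit 0) .nil .nil))) 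
(.lf (nat_lit 162107) (.g (nat_lit 2093) (.e (nat_lit 57447) (nat_lit 19) (.e (nat_lit 393224) (nat_lit 9) (.e (nat_lit 336194) (nat_lit 12) (.e (nat_lit 385066) (nat_lit 26) (.e (nat_lit 532504) (nat_lit 1) (.e (nat_lit 57852) (nat_lit 252) .nil)))))) (.g (nat_lit 4) .nil .nil)))))) (.nd (nat_lit 3) (.nd (nat_lit 4) (.nd (nat_lit 5) 
(.lf (nat_lit 162055) (.g (nat_lit 2353) (.e (nat_lit 57446) (nat_lit 19) (.e (nat_lit 393271) (nat_lit 23) (.e (nat_lit 426131) (nat_lit 3) (.e (nat_lit 212736) (nat_lit 10) .nil)))) .nil)) 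
(.lf (nat_lit 162087) (.g (nat_lit 2039) (.e (nat_lit 57446) (nat_lit 19) (.e (nat_lit 393283) (nat_lit 24) (.e (nat_lit 434231) (nat_lit 23) (.e (nat_lit 532579) (nat_lit 26) (.e (nat_lit 426098) (nat_lit 1) (.e (nat_lit 164398) (nat_lit 256) .nil)))))) (.g (nat_lit 4) .nil .nil)))) (.nd (nat_lit 5) 
(.lf (nat_lit 162071) (.g (nat_lit 3158) (.e (nat_lit 57446) (nat_lit 19) (.e (nat_lit 393281) (nat_lit 23) (.e (nat_lit 426133) (nat_lit 3) (.e (nat_lit 204809) (nat_lit 9) (.e (nat_lit 426098) (nat_lit 1) (.e (nat_lit 164398) (nat_lit 256) .nil)))))) (.g (nat_lit 0) .nil .nil))) 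
(.lf (nat_lit 162103) (.g (nat_lit 2078) (.e (nat_lit 57447) (nat_lit 19) (.e (nat_lit 393224) (nat_lit 9) (.e (nat_lit 336088) (nat_lit 9) (.e (nat_lit 336324) (nat_lit 18) (.e (nat_lit 204830) (nat_lit 18) .nil))))) .nil)))) (.nd (nat_lit 4) (.nd (nat_lit 5) 
(.lf (nat_lit 162063) (.g (nat_lit 1703) (.e (nat_lit 57446) (nat_lit 19) (.e (nat_lit 393281) (nat_lit 23) (.e (nat_lit 426116) (nat_lit 2) (.e (nat_lit 196654) (nat_lit 11) (.e (nat_lit 16407) (nat_lit 1) .nil))))) .nil)) 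
(.lf (nat_lit 162095) (.g (nat_lit 1805) (.e (nat_lit 57447) (nat_lit 19) (.e (nat_lit 393224) (nat_lit 9) (.e (nat_lit 336076) (nat_lit 9) (.e (nat_lit 336324) (nat_lit 18) (.e (nat_lit 204830) (nat_lit 18) (.e (nat_lit 57854) (nat_lit 252) .nil)))))) (.g (nat_lit 4) .nil .nil)))) (.nd (nat_lit 5) 
(.lf (nat_lit 162079) (.g (nat_lit 3109) (.e (nat_lit 57446) (nat_lit 19) (.e (nat_lit 393281) (nat_lit 23) (.e (nat_lit 426133) (nat_lit 3) (.e (nat_lit 204809) (nat_lit 9) (.e (nat_lit 426107) (nat_lit 1) (.e (nat_lit 164403) (nat_lit 256) .nil)))))) (.g (nat_lit 0) .nil .nil))) 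
(.lf (nat_lit 162111) (.g (nat_lit 2022) (.e (nat_lit 57447) (nat_lit 19) (.e (nat_lit 393224) (nat_lit 9) (.e (nat_lit 336196) (nat_lit 12) (.e (nat_lit 385066) (nat_lit 26) (.e (nat_lit 532504) (nat_lit 1) (.e (nat_lit 57852) (nat_lit 252) .nil)))))) (.g (nat_lit 4) .nil .nil)))))))))

noncomputable def tv2173 : DT := (.nd (nat_lit 0) (.nd (nat_lit 1) (.nd (nat_lit 2) (.nd (nat_lit 3) (.nd (nat_lit 4) (.nd (nat_lit 5) 
(.lf (nat_lit 162112) (.g (nat_lit 2994) (.e (nat_lit 57447) (nat_lit 19) (.e (nat_lit 393224) (nat_lit 9) (.e (nat_lit 336201) (nat_lit 12) (.e (nat_lit 385068) (nat_lit 26) (.e (nat_lit 532501) (nat_lit 1) (.e (nat_lit 57854) (nat_lit 252) .nil)))))) (.g (nat_lit 0) .nil .nil))) 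
(.lf (nat_lit 162144) (.g (nat_lit 3240) (.e (nat_lit 57447) (nat_lit 19) (.e (nat_lit 393225) (nat_lit 9) (.e (nat_lit 336078) (nat_lit 9) (.e (nat_lit 336324) (nat_lit 18) (.e (nat_lit 204831) (nat_lit 18) (.e (nat_lit 57852) (nat_lit 252) .nil)))))) (.g (nat_lit 5) .nil .nil)))) (.nd (nat_lit 5) 
(.lf (nat_lit 162128) (.g (nat_lit 3647) (.e (nat_lit 57447) (nat_lit 19) (.e (nat_lit 393225) (nat_lit 9) (.e (nat_lit 336076) (nat_lit 9) (.e (nat_lit 336324) (nat_lit 18) (.e (nat_lit 204831) (nat_lit 18) (.e (nat_lit 57846) (nat_lit 252) .nil)))))) (.g (nat_lit 6) .nil .nil))) 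
(.lf (nat_lit 162160) (.g (nat_lit 3513) (.e (nat_lit 57447) (nat_lit 19) (.e (nat_lit 393225) (nat_lit 9) (.e (nat_lit 336088) (nat_lit 9) (.e (nat_lit 336324) (nat_lit 18) (.e (nat_lit 204831) (nat_lit 18) (.e (nat_lit 57847) (nat_lit 252) .nil)))))) (.g (nat_lit 6) .nil .nil))))) (.nd (nat_lit 4) (.nd (nat_lit 5) 
(.lf (nat_lit 162120) (.g (nat_lit 702) (.e (nat_lit 57447) (nat_lit 19) (.e (nat_lit 393225) (nat_lit 9) (.e (nat_lit 336074) (nat_lit 9) .nil))) .nil)) 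
(.lf (nat_lit 162152) (.g (nat_lit 2419) (.e (nat_lit 57447) (nat_lit 19) (.e (nat_lit 393225) (nat_lit 9) (.e (nat_lit 336088) (nat_lit 9) (.e (nat_lit 336019) (nat_lit 3) (.e (nat_lit 98333) (nat_lit 18) (.e (nat_lit 164182) (nat_lit 154) .nil)))))) (.g (nat_lit 4) .nil .nil)))) (.nd (nat_lit 5) 
(.lf (nat_lit 162136) (.g (nat_lit 803) (.e (nat_lit 57447) (nat_lit 19) (.e (nat_lit 393225) (nat_lit 9) (.e (nat_lit 336077) (nat_lit 9) .nil))) .nil)) 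
(.lf (nat_lit 162168) (.g (nat_lit 625) (.e (nat_lit 57447) (nat_lit 19) (.e (nat_lit 393225) (nat_lit 9) (.e (nat_lit 336165) (nat_lit 10) .nil))) .nil))))) (.nd (nat_lit 3) (.nd (nat_lit 4) (.nd (nat_lit 5) 
(.lf (nat_lit 162116) (.g (nat_lit 2292) (.e (nat_lit 57447) (nat_lit 19) (.e (nat_lit 393224) (nat_lit 9) (.e (nat_lit 336204) (nat_lit 12) (.e (nat_lit 385066) (nat_lit 26) (.e (nat_lit 532504) (nat_lit 1) (.e (nat_lit 57852) (nat_lit 252) .nil)))))) (.g (nat_lit 4) .nil .nil))) 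
(.lf (nat_lit 162148) (.g (nat_lit 3253) (.e (nat_lit 57447) (nat_lit 19) (.e (nat_lit 393225) (nat_lit 9) (.e (nat_lit 336087) (nat_lit 9) (.e (nat_lit 336019) (nat_lit 3) (.e (nat_lit 98333) (nat_lit 18) (.e (nat_lit 164183) (nat_lit 154) .nil)))))) (.g (nat_lit 0) .nil .nil)))) (.nd (nat_lit 5) 
(.lf (nat_lit 162132) (.g (nat_lit 3158) (.e (nat_lit 57447) (nat_lit 19) (.e (nat_lit 393225) (nat_lit 9) (.e (nat_lit 336076) (nat_lit 9) (.e (nat_lit 336326) (nat_lit 18) (.e (nat_lit 204831) (nat_lit 18) (.e (nat_lit 57846) (nat_lit 252) .nil)))))) (.g (nat_lit 5) .nil .nil))) 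
(.lf (nat_lit 162164) (.g (nat_lit 2642) (.e (nat_lit 57447) (nat_lit 19) (.e (nat_lit 393225) (nat_lit 9) (.e (nat_lit 336088) (nat_lit 9) (.e (nat_lit 336326) (nat_lit 18) (.e (nat_lit 204831) (nat_lit 18) (.e (nat_lit 57847) (nat_lit 252) .nil)))))) (.g (nat_lit 5) .nil .nil))))) (.nd (nat_lit 4) (.nd (nat_lit 5) 
(.lf (nat_lit 162124) (.g (nat_lit 4170) (.e (nat_lit 57447) (nat_lit 19) (.e (nat_lit 393225) (nat_lit 9) (.e (nat_lit 336075) (nat_lit 9) (.e (nat_lit 336324) (nat_lit 18) (.e (nat_lit 204831) (nat_lit 18) (.e (nat_lit 57847) (nat_lit 252) .nil)))))) (.g (nat_lit 5) .nil .nil))) 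
(.lf (nat_lit 162156) (.g (nat_lit 2204) (.e (nat_lit 57447) (nat_lit 19) (.e (nat_lit 393225) (nat_lit 9) (.e (nat_lit 336088) (nat_lit 9) (.e (nat_lit 336019) (nat_lit 3) (.e (nat_lit 98335) (nat_lit 18) (.e (nat_lit 164179) (nat_lit 154) .nil)))))) (.g (nat_lit 4) .nil .nil)))) (.nd (nat_lit 5) 
(.lf (nat_lit 162140) (.g (nat_lit 2741) (.e (nat_lit 57447) (nat_lit 19) (.e (nat_lit 393225) (nat_lit 9) (.e (nat_lit 336078) (nat_lit 9) (.e (nat_lit 336324) (nat_lit 18) (.e (nat_lit 204829) (nat_lit 18) (.e (nat_lit 57854) (nat_lit 252) .nil)))))) (.g (nat_lit 4) .nil .nil))) 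
(.lf (nat_lit 162172) (.g (nat_lit 2524) (.e (nat_lit 57447) (nat_lit 19) (.e (nat_lit 393225) (nat_lit 9) (.e (nat_lit 336184) (nat_lit 11) (.e (nat_lit 368676) (nat_lit 21) (.e (nat_lit 516118) (nat_lit 1) (.e (nat_lit 164183) (nat_lit 154) .nil)))))) (.g (nat_lit 0) .nil .nil))))))) (.nd (nat_lit 2) (.nd (nat_lit 3) (.nd (nat_lit 4) (.nd (nat_lit 5) 
(.lf (nat_lit 162114) (.g (nat_lit 2197) (.e (nat_lit 57447) (nat_lit 19) (.e (nat_lit 393224) (nat_lit 9) (.e (nat_lit 336204) (nat_lit 12) (.e (nat_lit 385066) (nat_lit 26) (.e (nat_lit 532501) (nat_lit 1) (.e (nat_lit 57852) (nat_lit 252) .nil)))))) (.g (nat_lit 4) .nil .nil))) 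
(.lf (nat_lit 162146) (.g (nat_lit 1815) (.e (nat_lit 57447) (nat_lit 19) (.e (nat_lit 393225) (nat_lit 9) (.e (nat_lit 336078) (nat_lit 9) (.e (nat_lit 336326) (nat_lit 18) .nil)))) .nil))) (.nd (nat_lit 5) 
(.lf (nat_lit 162130) (.g (nat_lit 3408) (.e (nat_lit 57447) (nat_lit 19) (.e (nat_lit 393225) (nat_lit 9) (.e (nat_lit 336076) (nat_lit 9) (.e (nat_lit 336326) (nat_lit 18) (.e (nat_lit 204829) (nat_lit 18) (.e (nat_lit 57847) (nat_lit 252) .nil)))))) (.g (nat_lit 6) .nil .nil))) 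
(.lf (nat_lit 162162) (.g (nat_lit 2230) (.e (nat_lit 57447) (nat_lit 19) (.e (nat_lit 393225) (nat_lit 9) (.e (nat_lit 336088) (nat_lit 9) (.e (nat_lit 336326) (nat_lit 18) (.e (nat_lit 204830) (nat_lit 18) (.e (nat_lit 57852) (nat_lit 252) .nil)))))) (.g (nat_lit 4) .nil .nil))))) (.nd (nat_lit 4) (.nd (nat_lit 5) 
(.lf (nat_lit 162122) (.g (nat_lit 2025) (.e (nat_lit 57447) (nat_lit 19) (.e (nat_lit 393225) (nat_lit 9) (.e (nat_lit 336075) (nat_lit 9) (.e (nat_lit 336324) (nat_lit 18) (.e (nat_lit 204830) (nat_lit 18) (.e (nat_lit 57854) (nat_lit 252) .nil)))))) (.g (nat_lit 4) .nil .nil))) 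
(.lf (nat_lit 162154) (.g (nat_lit 2614) (.e (nat_lit 57447) (nat_lit 19) (.e (nat_lit 393225) (nat_lit 9) (.e (nat_lit 336088) (nat_lit 9) (.e (nat_lit 336019) (nat_lit 3) (.e (nat_lit 98334) (nat_lit 18) (.e (nat_lit 164182) (nat_lit 154) .nil)))))) (.g (nat_lit 4) .nil .nil)))) (.nd (nat_lit 5) 
(.lf (nat_lit 162138) (.g (nat_lit 3878) (.e (nat_lit 57447) (nat_lit 19) (.e (nat_lit 393225) (nat_lit 9) (.e (nat_lit 336077) (nat_lit 9) (.e (nat_lit 336324) (nat_lit 18) (.e (nat_lit 204831) (nat_lit 18) (.e (nat_lit 57854) (nat_lit 252) .nil)))))) (.g (nat_lit 5) .nil .nil))) 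
(.lf (nat_lit 162170) (.g (nat_lit 2619) (.e (nat_lit 57447) (nat_lit 19) (.e (nat_lit 393225) (nat_lit 9) (.e (nat_lit 336184) (nat_lit 11) (.e (nat_lit 368676) (nat_lit 21) (.e (nat_lit 516115) (nat_lit 1) (.e (nat_lit 164183) (nat_lit 154) .nil)))))) (.g (nat_lit 0) .nil .nil)))))) (.nd (nat_lit 3) (.nd (nat_lit 4) (.nd (nat_lit 5) 
(.lf (nat_lit 162118) (.g (nat_lit 2338) (.e (nat_lit 57447) (nat_lit 19) (.e (nat_lit 393224) (nat_lit 9) (.e (nat_lit 336204) (nat_lit 12) (.e (nat_lit 385068) (nat_lit 26) (.e (nat_lit 532501) (nat_lit 1) (.e (nat_lit 57854) (nat_lit 252) .nil)))))) (.g (nat_lit 4) .nil .nil))) 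
(.lf (nat_lit 162150) (.g (nat_lit 2902) (.e (nat_lit 57447) (nat_lit 19) (.e (nat_lit 393225) (nat_lit 9) (.e (nat_lit 336087) (nat_lit 9) (.e (nat_lit 336019) (nat_lit 3) (.e (nat_lit 98335) (nat_lit 18) (.e (nat_lit 164183) (nat_lit 154) .nil)))))) (.g (nat_lit 0) .nil .nil)))) (.nd (nat_lit 5) 
(.lf (nat_lit 162134) (.g (nat_lit 2739) (.e (nat_lit 57447) (nat_lit 19) (.e (nat_lit 393225) (nat_lit 9) (.e (nat_lit 336076) (nat_lit 9) (.e (nat_lit 336326) (nat_lit 18) (.e (nat_lit 204831) (nat_lit 18) (.e (nat_lit 57852) (nat_lit 252) .nil)))))) (.g (nat_lit 5) .nil .nil))) 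
(.lf (nat_lit 162166) (.g (nat_lit 2121) (.e (nat_lit 57447) (nat_lit 19) (.e (nat_lit 393225) (nat_lit 9) (.e (nat_lit 336091) (nat_lit 9) (.e (nat_lit 336295) (nat_lit 15) (.e (nat_lit 3253) (nat_lit 197) .nil))))) .nil)))) (.nd (nat_lit 4) (.nd (nat_lit 5) 
(.lf (nat_lit 162126) (.g (nat_lit 4062) (.e (nat_lit 57447) (nat_lit 19) (.e (nat_lit 393225) (nat_lit 9) (.e (nat_lit 336075) (nat_lit 9) (.e (nat_lit 336324) (nat_lit 18) (.e (nat_lit 204831) (nat_lit 18) (.e (nat_lit 57854) (nat_lit 252) .nil)))))) (.g (nat_lit 5) .nil .nil))) 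
(.lf (nat_lit 162158) (.g (nat_lit 3663) (.e (nat_lit 57447) (nat_lit 19) (.e (nat_lit 393225) (nat_lit 9) (.e (nat_lit 336088) (nat_lit 9) (.e (nat_lit 336324) (nat_lit 18) (.e (nat_lit 204829) (nat_lit 18) (.e (nat_lit 57847) (nat_lit 252) .nil)))))) (.g (nat_lit 6) .nil .nil)))) (.nd (nat_lit 5) 
(.lf (nat_lit 162142) (.g (nat_lit 3039) (.e (nat_lit 57447) (nat_lit 19) (.e (nat_lit 393225) (nat_lit 9) (.e (nat_lit 336078) (nat_lit 9) (.e (nat_lit 336324) (nat_lit 18) (.e (nat_lit 204831) (nat_lit 18) (.e (nat_lit 57846) (nat_lit 252) .nil)))))) (.g (nat_lit 4) .nil .nil))) 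
(.lf (nat_lit 162174) (.g (nat_lit 2018) (.e (nat_lit 57447) (nat_lit 19) (.e (nat_lit 393225) (nat_lit 9) (.e (nat_lit 336185) (nat_lit 11) (.e (nat_lit 368676) (nat_lit 21) (.e (nat_lit 516118) (nat_lit 1) (.e (nat_lit 164183) (nat_lit 154) .nil)))))) (.g (nat_lit 4) .nil .nil)))))))) (.nd (nat_lit 1) (.nd (nat_lit 2) (.nd (nat_lit 3) (.nd (nat_lit 4) (.nd (nat_lit 5) 
(.lf (nat_lit 162113) (.g (nat_lit 3093) (.e (nat_lit 57447) (nat_lit 19) (.e (nat_lit 393224) (nat_lit 9) (.e (nat_lit 336201) (nat_lit 12) (.e (nat_lit 385068) (nat_lit 26) (.e (nat_lit 532504) (nat_lit 1) (.e (nat_lit 57854) (nat_lit 252) .nil)))))) (.g (nat_lit 0) .nil .nil))) 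
(.lf (nat_lit 162145) (.g (nat_lit 3109) (.e (nat_lit 57447) (nat_lit 19) (.e (nat_lit 393225) (nat_lit 9) (.e (nat_lit 336078) (nat_lit 9) (.e (nat_lit 336324) (nat_lit 18) (.e (nat_lit 204831) (nat_lit 18) (.e (nat_lit 57854) (nat_lit 252) .nil)))))) (.g (nat_lit 5) .nil .nil)))) (.nd (nat_lit 5) 
(.lf (nat_lit 162129) (.g (nat_lit 3425) (.e (nat_lit 57447) (nat_lit 19) (.e (nat_lit 393225) (nat_lit 9) (.e (nat_lit 336076) (nat_lit 9) (.e (nat_lit 336324) (nat_lit 18) (.e (nat_lit 204831) (nat_lit 18) (.e (nat_lit 57847) (nat_lit 252) .nil)))))) (.g (nat_lit 6) .nil .nil))) 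
(.lf (nat_lit 162161) (.g (nat_lit 3006) (.e (nat_lit 57447) (nat_lit 19) (.e (nat_lit 393225) (nat_lit 9) (.e (nat_lit 336088) (nat_lit 9) (.e (nat_lit 336326) (nat_lit 18) (.e (nat_lit 204829) (nat_lit 18) (.e (nat_lit 57847) (nat_lit 252) .nil)))))) (.g (nat_lit 5) .nil .nil))))) (.nd (nat_lit 4) (.nd (nat_lit 5) 
(.lf (nat_lit 162121) (.g (nat_lit 2117) (.e (nat_lit 57447) (nat_lit 19) (.e (nat_lit 393225) (nat_lit 9) (.e (nat_lit 336075) (nat_lit 9) (.e (nat_lit 336324) (nat_lit 18) (.e (nat_lit 204830) (nat_lit 18) (.e (nat_lit 57852) (nat_lit 252) .nil)))))) (.g (nat_lit 4) .nil .nil))) 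
(.lf (nat_lit 162153) (.g (nat_lit 3619) (.e (nat_lit 57447) (nat_lit 19) (.e (nat_lit 393225) (nat_lit 9) (.e (nat_lit 336088) (nat_lit 9) (.e (nat_lit 336019) (nat_lit 3) (.e (nat_lit 98333) (nat_lit 18) (.e (nat_lit 164183) (nat_lit 154) .nil)))))) (.g (nat_lit 0) .nil .nil)))) (.nd (nat_lit 5) 
(.lf (nat_lit 162137) (.g (nat_lit 4037) (.e (nat_lit 57447) (nat_lit 19) (.e (nat_lit 393225) (nat_lit 9) (.e (nat_lit 336077) (nat_lit 9) (.e (nat_lit 336324) (nat_lit 18) (.e (nat_lit 204831) (nat_lit 18) (.e (nat_lit 57852) (nat_lit 252) .nil)))))) (.g (nat_lit 5) .nil .nil))) 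
(.lf (nat_lit 162169) (.g (nat_lit 791) (.e (nat_lit 57447) (nat_lit 19) (.e (nat_lit 393225) (nat_lit 9) (.e (nat_lit 336174) (nat_lit 10) .nil))) .nil))))) (.nd (nat_lit 3) (.nd (nat_lit 4) (.nd (nat_lit 5) 
(.lf (nat_lit 162117) (.g (nat_lit 2815) (.e (nat_lit 57447) (nat_lit 19) (.e (nat_lit 393224) (nat_lit 9) (.e (nat_lit 336204) (nat_lit 12) (.e (nat_lit 385068) (nat_lit 26) (.e (nat_lit 532499) (nat_lit 1) (.e (nat_lit 57847) (nat_lit 252) .nil)))))) (.g (nat_lit 4) .nil .nil))) 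
(.lf (nat_lit 162149) (.g (nat_lit 3140) (.e (nat_lit 57447) (nat_lit 19) (.e (nat_lit 393225) (nat_lit 9) (.e (nat_lit 336087) (nat_lit 9) (.e (nat_lit 336019) (nat_lit 3) (.e (nat_lit 98334) (nat_lit 18) (.e (nat_lit 164183) (nat_lit 154) .nil)))))) (.g (nat_lit 0) .nil .nil)))) (.nd (nat_lit 5) 
(.lf (nat_lit 162133) (.g (nat_lit 3050) (.e (nat_lit 57447) (nat_lit 19) (.e (nat_lit 393225) (nat_lit 9) (.e (nat_lit 336076) (nat_lit 9) (.e (nat_lit 336326) (nat_lit 18) (.e (nat_lit 204831) (nat_lit 18) (.e (nat_lit 57847) (nat_lit 252) .nil)))))) (.g (nat_lit 5) .nil .nil))) 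
(.lf (nat_lit 162165) (.g (nat_lit 2334) (.e (nat_lit 57447) (nat_lit 19) (.e (nat_lit 393225) (nat_lit 9) (.e (nat_lit 336088) (nat_lit 9) (.e (nat_lit 336326) (nat_lit 18) (.e (nat_lit 204831) (nat_lit 18) (.e (nat_lit 57852) (nat_lit 252) .nil)))))) (.g (nat_lit 4) .nil .nil))))) (.nd (nat_lit 4) (.nd (nat_lit 5) 
(.lf (nat_lit 162125) (.g (nat_lit 4246) (.e (nat_lit 57447) (nat_lit 19) (.e (nat_lit 393225) (nat_lit 9) (.e (nat_lit 336075) (nat_lit 9) (.e (nat_lit 336324) (nat_lit 18) (.e (nat_lit 204831) (nat_lit 18) (.e (nat_lit 57852) (nat_lit 252) .nil)))))) (.g (nat_lit 5) .nil .nil))) 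
(.lf (nat_lit 162157) (.g (nat_lit 3285) (.e (nat_lit 57447) (nat_lit 19) (.e (nat_lit 393225) (nat_lit 9) (.e (nat_lit 336088) (nat_lit 9) (.e (nat_lit 336019) (nat_lit 3) (.e (nat_lit 98335) (nat_lit 18) (.e (nat_lit 164183) (nat_lit 154) .nil)))))) (.g (nat_lit 0) .nil .nil)))) (.nd (nat_lit 5) 
(.lf (nat_lit 162141) (.g (nat_lit 2992) (.e (nat_lit 57447) (nat_lit 19) (.e (nat_lit 393225) (nat_lit 9) (.e (nat_lit 336078) (nat_lit 9) (.e (nat_lit 336324) (nat_lit 18) (.e (nat_lit 204830) (nat_lit 18) (.e (nat_lit 57852) (nat_lit 252) .nil)))))) (.g (nat_lit 5) .nil .nil))) 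
(.lf (nat_lit 162173) (.g (nat_lit 2585) (.e (nat_lit 57447) (nat_lit 19) (.e (nat_lit 393225) (nat_lit 9) (.e (nat_lit 336184) (nat_lit 11) (.e (nat_lit 368676) (nat_lit 21) (.e (nat_lit 516120) (nat_lit 1) (.e (nat_lit 164183) (nat_lit 154) .nil)))))) (.g (nat_lit 0) .nil .nil))))))) (.nd (nat_lit 2) (.nd (nat_lit 3) (.nd (nat_lit 4) (.nd (nat_lit 5) 
(.lf (nat_lit 162115) (.g (nat_lit 2482) (.e (nat_lit 57447) (nat_lit 19) (.e (nat_lit 393224) (nat_lit 9) (.e (nat_lit 336204) (nat_lit 12) (.e (nat_lit 385066) (nat_lit 26) (.e (nat_lit 532502) (nat_lit 1) (.e (nat_lit 57854) (nat_lit 252) .nil)))))) (.g (nat_lit 4) .nil .nil))) 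
(.lf (nat_lit 162147) (.g (nat_lit 2308) (.e (nat_lit 57447) (nat_lit 19) (.e (nat_lit 393225) (nat_lit 9) (.e (nat_lit 336087) (nat_lit 9) (.e (nat_lit 336019) (nat_lit 3) (.e (nat_lit 98333) (nat_lit 18) (.e (nat_lit 164179) (nat_lit 154) .nil)))))) (.g (nat_lit 4) .nil .nil)))) (.nd (nat_lit 5) 
(.lf (nat_lit 162131) (.g (nat_lit 3285) (.e (nat_lit 57447) (nat_lit 19) (.e (nat_lit 393225) (nat_lit 9) (.e (nat_lit 336076) (nat_lit 9) (.e (nat_lit 336326) (nat_lit 18) (.e (nat_lit 204830) (nat_lit 18) (.e (nat_lit 57854) (nat_lit 252) .nil)))))) (.g (nat_lit 6) .nil .nil))) 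
(.lf (nat_lit 162163) (.g (nat_lit 2760) (.e (nat_lit 57447) (nat_lit 19) (.e (nat_lit 393225) (nat_lit 9) (.e (nat_lit 336088) (nat_lit 9) (.e (nat_lit 336326) (nat_lit 18) (.e (nat_lit 204831) (nat_lit 18) (.e (nat_lit 57846) (nat_lit 252) .nil)))))) (.g (nat_lit 5) .nil .nil))))) (.nd (nat_lit 4) (.nd (nat_lit 5) 
(.lf (nat_lit 162123) (.g (nat_lit 4330) (.e (nat_lit 57447) (nat_lit 19) (.e (nat_lit 393225) (nat_lit 9) (.e (nat_lit 336075) (nat_lit 9) (.e (nat_lit 336324) (nat_lit 18) (.e (nat_lit 204831) (nat_lit 18) (.e (nat_lit 57846) (nat_lit 252) .nil)))))) (.g (nat_lit 5) .nil .nil))) 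
(.lf (nat_lit 162155) (.g (nat_lit 3524) (.e (nat_lit 57447) (nat_lit 19) (.e (nat_lit 393225) (nat_lit 9) (.e (nat_lit 336088) (nat_lit 9) (.e (nat_lit 336019) (nat_lit 3) (.e (nat_lit 98334) (nat_lit 18) (.e (nat_lit 164183) (nat_lit 154) .nil)))))) (.g (nat_lit 0) .nil .nil)))) (.nd (nat_lit 5) 
(.lf (nat_lit 162139) (.g (nat_lit 2909) (.e (nat_lit 57447) (nat_lit 19) (.e (nat_lit 393225) (nat_lit 9) (.e (nat_lit 336078) (nat_lit 9) (.e (nat_lit 336324) (nat_lit 18) (.e (nat_lit 204829) (nat_lit 18) (.e (nat_lit 57847) (nat_lit 252) .nil)))))) (.g (nat_lit 4) .nil .nil))) 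
(.lf (nat_lit 162171) (.g (nat_lit 2676) (.e (nat_lit 57447) (nat_lit 19) (.e (nat_lit 393225) (nat_lit 9) (.e (nat_lit 336184) (nat_lit 11) (.e (nat_lit 368676) (nat_lit 21) (.e (nat_lit 516117) (nat_lit 1) (.e (nat_lit 164183) (nat_lit 154) .nil)))))) (.g (nat_lit 0) .nil .nil)))))) (.nd (nat_lit 3) (.nd (nat_lit 4) (.nd (nat_lit 5) 
(.lf (nat_lit 162119) (.g (nat_lit 2206) (.e (nat_lit 57447) (nat_lit 19) (.e (nat_lit 393224) (nat_lit 9) (.e (nat_lit 336204) (nat_lit 12) (.e (nat_lit 385068) (nat_lit 26) (.e (nat_lit 532504) (nat_lit 1) (.e (nat_lit 57854) (nat_lit 252) .nil)))))) (.g (nat_lit 4) .nil .nil))) 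
(.lf (nat_lit 162151) (.g (nat_lit 2652) (.e (nat_lit 57447) (nat_lit 19) (.e (nat_lit 393225) (nat_lit 9) (.e (nat_lit 336088) (nat_lit 9) (.e (nat_lit 336019) (nat_lit 3) (.e (nat_lit 98333) (nat_lit 18) (.e (nat_lit 164179) (nat_lit 154) .nil)))))) (.g (nat_lit 4) .nil .nil)))) (.nd (nat_lit 5) 
(.lf (nat_lit 162135) (.g (nat_lit 3233) (.e (nat_lit 57447) (nat_lit 19) (.e (nat_lit 393225) (nat_lit 9) (.e (nat_lit 336076) (nat_lit 9) (.e (nat_lit 336326) (nat_lit 18) (.e (nat_lit 204831) (nat_lit 18) (.e (nat_lit 57854) (nat_lit 252) .nil)))))) (.g (nat_lit 6) .nil .nil))) 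
(.lf (nat_lit 162167) (.g (nat_lit 765) (.e (nat_lit 57447) (nat_lit 19) (.e (nat_lit 393225) (nat_lit 9) (.e (nat_lit 336163) (nat_lit 10) .nil))) .nil)))) (.nd (nat_lit 4) (.nd (nat_lit 5) 
(.lf (nat_lit 162127) (.g (nat_lit 3567) (.e (nat_lit 57447) (nat_lit 19) (.e (nat_lit 393225) (nat_lit 9) (.e (nat_lit 336076) (nat_lit 9) (.e (nat_lit 336324) (nat_lit 18) (.e (nat_lit 204829) (nat_lit 18) (.e (nat_lit 57847) (nat_lit 252) .nil)))))) (.g (nat_lit 6) .nil .nil))) 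
(.lf (nat_lit 162159) (.g (nat_lit 3736) (.e (nat_lit 57447) (nat_lit 19) (.e (nat_lit 393225) (nat_lit 9) (.e (nat_lit 336088) (nat_lit 9) (.e (nat_lit 336324) (nat_lit 18) (.e (nat_lit 204831) (nat_lit 18) (.e (nat_lit 57846) (nat_lit 252) .nil)))))) (.g (nat_lit 6) .nil .nil)))) (.nd (nat_lit 5) 
(.lf (nat_lit 162143) (.g (nat_lit 2850) (.e (nat_lit 57447) (nat_lit 19) (.e (nat_lit 393225) (nat_lit 9) (.e (nat_lit 336078) (nat_lit 9) (.e (nat_lit 336324) (nat_lit 18) (.e (nat_lit 204831) (nat_lit 18) (.e (nat_lit 57847) (nat_lit 252) .nil)))))) (.g (nat_lit 4) .nil .nil))) 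
(.lf (nat_lit 162175) (.g (nat_lit 2753) (.e (nat_lit 57447) (nat_lit 19) (.e (nat_lit 393225) (nat_lit 9) (.e (nat_lit 336186) (nat_lit 11) (.e (nat_lit 368676) (nat_lit 21) (.e (nat_lit 516115) (nat_lit 1) (.e (nat_lit 164183) (nat_lit 154) .nil)))))) (.g (nat_lit 0) .nil .nil)))))))))

noncomputable def tv2174 : DT := (.nd (nat_lit 0) (.nd (nat_lit 1) (.nd (nat_lit 2) (.nd (nat_lit 3) (.nd (nat_lit 4) (.nd (nat_lit 5) 
(.lf (nat_lit 162176) (.g (nat_lit 2812) (.e (nat_lit 57447) (nat_lit 19) (.e (nat_lit 393225) (nat_lit 9) (.e (nat_lit 336186) (nat_lit 11) (.e (nat_lit 368676) (nat_lit 21) (.e (nat_lit 516117) (nat_lit 1) (.e (nat_lit 164183) (nat_lit 154) .nil)))))) (.g (nat_lit 0) .nil .nil))) 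
(.lf (nat_lit 162208) (.g (nat_lit 3433) (.e (nat_lit 57447) (nat_lit 19) (.e (nat_lit 393225) (nat_lit 9) (.e (nat_lit 336204) (nat_lit 12) (.e (nat_lit 385066) (nat_lit 26) (.e (nat_lit 532503) (nat_lit 1) (.e (nat_lit 57846) (nat_lit 252) .nil)))))) (.g (nat_lit 6) .nil .nil)))) (.nd (nat_lit 5) 
(.lf (nat_lit 162192) (.g (nat_lit 3533) (.e (nat_lit 57447) (nat_lit 19) (.e (nat_lit 393225) (nat_lit 9) (.e (nat_lit 336196) (nat_lit 12) (.e (nat_lit 385066) (nat_lit 26) (.e (nat_lit 532499) (nat_lit 1) (.e (nat_lit 57854) (nat_lit 252) .nil)))))) (.g (nat_lit 6) .nil .nil))) 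
(.lf (nat_lit 162224) (.g (nat_lit 1976) (.e (nat_lit 57447) (nat_lit 19) (.e (nat_lit 393228) (nat_lit 9) (.e (nat_lit 336076) (nat_lit 9) (.e (nat_lit 336324) (nat_lit 18) (.e (nat_lit 204829) (nat_lit 18) (.e (nat_lit 57854) (nat_lit 252) .nil)))))) (.g (nat_lit 4) .nil .nil))))) (.nd (nat_lit 4) (.nd (nat_lit 5) 
(.lf (nat_lit 162184) (.g (nat_lit 3698) (.e (nat_lit 57447) (nat_lit 19) (.e (nat_lit 393225) (nat_lit 9) (.e (nat_lit 336194) (nat_lit 12) (.e (nat_lit 385066) (nat_lit 26) (.e (nat_lit 532499) (nat_lit 1) (.e (nat_lit 57847) (nat_lit 252) .nil)))))) (.g (nat_lit 6) .nil .nil))) 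
(.lf (nat_lit 162216) (.g (nat_lit 2696) (.e (nat_lit 57447) (nat_lit 19) (.e (nat_lit 393227) (nat_lit 9) (.e (nat_lit 336151) (nat_lit 9) (.e (nat_lit 336017) (nat_lit 3) (.e (nat_lit 98334) (nat_lit 18) (.e (nat_lit 164182) (nat_lit 154) .nil)))))) (.g (nat_lit 0) .nil .nil)))) (.nd (nat_lit 5) 
(.lf (nat_lit 162200) (.g (nat_lit 3786) (.e (nat_lit 57447) (nat_lit 19) (.e (nat_lit 393225) (nat_lit 9) (.e (nat_lit 336196) (nat_lit 12) (.e (nat_lit 385068) (nat_lit 26) (.e (nat_lit 532503) (nat_lit 1) (.e (nat_lit 57847) (nat_lit 252) .nil)))))) (.g (nat_lit 6) .nil .nil))) 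
(.lf (nat_lit 162232) (.g (nat_lit 2119) (.e (nat_lit 57447) (nat_lit 19) (.e (nat_lit 393228) (nat_lit 9) (.e (nat_lit 336088) (nat_lit 9) (.e (nat_lit 336324) (nat_lit 18) (.e (nat_lit 204829) (nat_lit 18) (.e (nat_lit 57854) (nat_lit 252) .nil)))))) (.g (nat_lit 4) .nil .nil)))))) (.nd (nat_lit 3) (.nd (nat_lit 4) (.nd (nat_lit 5) 
(.lf (nat_lit 162180) (.g (nat_lit 2386) (.e (nat_lit 57447) (nat_lit 19) (.e (nat_lit 393225) (nat_lit 9) (.e (nat_lit 336193) (nat_lit 12) (.e (nat_lit 385068) (nat_lit 26) (.e (nat_lit 532499) (nat_lit 1) .nil))))) .nil)) 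
(.lf (nat_lit 162212) (.g (nat_lit 727) (.e (nat_lit 57447) (nat_lit 19) (.e (nat_lit 393225) (nat_lit 9) (.e (nat_lit 343808) (nat_lit 12) .nil))) .nil))) (.nd (nat_lit 5) 
(.lf (nat_lit 162196) (.g (nat_lit 2429) (.e (nat_lit 57447) (nat_lit 19) (.e (nat_lit 393225) (nat_lit 9) (.e (nat_lit 336196) (nat_lit 12) (.e (nat_lit 385066) (nat_lit 26) (.e (nat_lit 532503) (nat_lit 1) (.e (nat_lit 57854) (nat_lit 252) .nil)))))) (.g (nat_lit 4) .nil .nil))) 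
(.lf (nat_lit 162228) (.g (nat_lit 2608) (.e (nat_lit 57447) (nat_lit 19) (.e (nat_lit 393228) (nat_lit 9) (.e (nat_lit 336088) (nat_lit 9) (.e (nat_lit 336019) (nat_lit 3) (.e (nat_lit 98333) (nat_lit 18) (.e (nat_lit 164179) (nat_lit 154) .nil)))))) (.g (nat_lit 4) .nil .nil))))) (.nd (nat_lit 4) (.nd (nat_lit 5) 
(.lf (nat_lit 162188) (.g (nat_lit 3228) (.e (nat_lit 57447) (nat_lit 19) (.e (nat_lit 393225) (nat_lit 9) (.e (nat_lit 336194) (nat_lit 12) (.e (nat_lit 385068) (nat_lit 26) (.e (nat_lit 532503) (nat_lit 1) (.e (nat_lit 57847) (nat_lit 252) .nil)))))) (.g (nat_lit 6) .nil .nil))) 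
(.lf (nat_lit 162220) (.g (nat_lit 2107) (.e (nat_lit 57447) (nat_lit 19) (.e (nat_lit 393227) (nat_lit 9) (.e (nat_lit 336154) (nat_lit 9) (.e (nat_lit 336323) (nat_lit 18) (.e (nat_lit 204830) (nat_lit 18) (.e (nat_lit 57854) (nat_lit 252) .nil)))))) (.g (nat_lit 0) .nil .nil)))) (.nd (nat_lit 5) 
(.lf (nat_lit 162204) (.g (nat_lit 2158) (.e (nat_lit 57447) (nat_lit 19) (.e (nat_lit 393225) (nat_lit 9) (.e (nat_lit 336204) (nat_lit 12) (.e (nat_lit 385064) (nat_lit 26) (.e (nat_lit 532503) (nat_lit 1) (.e (nat_lit 57847) (nat_lit 252) .nil)))))) (.g (nat_lit 4) .nil .nil))) 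
(.lf (nat_lit 162236) (.g (nat_lit 3150) (.e (nat_lit 57447) (nat_lit 19) (.e (nat_lit 393228) (nat_lit 9) (.e (nat_lit 336088) (nat_lit 9) (.e (nat_lit 336324) (nat_lit 18) (.e (nat_lit 204831) (nat_lit 18) (.e (nat_lit 57852) (nat_lit 252) .nil)))))) (.g (nat_lit 5) .nil .nil))))))) (.nd (nat_lit 2) (.nd (nat_lit 3) (.nd (nat_lit 4) (.nd (nat_lit 5) 
(.lf (nat_lit 162178) (.g (nat_lit 2732) (.e (nat_lit 57447) (nat_lit 19) (.e (nat_lit 393225) (nat_lit 9) (.e (nat_lit 336186) (nat_lit 11) (.e (nat_lit 368676) (nat_lit 21) (.e (nat_lit 516120) (nat_lit 1) (.e (nat_lit 164183) (nat_lit 154) .nil)))))) (.g (nat_lit 0) .nil .nil))) 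
(.lf (nat_lit 162210) (.g (nat_lit 3859) (.e (nat_lit 57447) (nat_lit 19) (.e (nat_lit 393225) (nat_lit 9) (.e (nat_lit 336204) (nat_lit 12) (.e (nat_lit 385068) (nat_lit 26) (.e (nat_lit 532499) (nat_lit 1) (.e (nat_lit 57847) (nat_lit 252) .nil)))))) (.g (nat_lit 6) .nil .nil)))) (.nd (nat_lit 5) 
(.lf (nat_lit 162194) (.g (nat_lit 3033) (.e (nat_lit 57447) (nat_lit 19) (.e (nat_lit 393225) (nat_lit 9) (.e (nat_lit 336196) (nat_lit 12) (.e (nat_lit 385066) (nat_lit 26) (.e (nat_lit 532502) (nat_lit 1) (.e (nat_lit 57846) (nat_lit 252) .nil)))))) (.g (nat_lit 5) .nil .nil))) 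
(.lf (nat_lit 162226) (.g (nat_lit 2179) (.e (nat_lit 57447) (nat_lit 19) (.e (nat_lit 393228) (nat_lit 9) (.e (nat_lit 336076) (nat_lit 9) (.e (nat_lit 336324) (nat_lit 18) (.e (nat_lit 204830) (nat_lit 18) (.e (nat_lit 57854) (nat_lit 252) .nil)))))) (.g (nat_lit 4) .nil .nil))))) (.nd (nat_lit 4) (.nd (nat_lit 5) 
(.lf (nat_lit 162186) (.g (nat_lit 3099) (.e (nat_lit 57447) (nat_lit 19) (.e (nat_lit 393225) (nat_lit 9) (.e (nat_lit 336194) (nat_lit 12) (.e (nat_lit 385066) (nat_lit 26) (.e (nat_lit 532503) (nat_lit 1) (.e (nat_lit 57847) (nat_lit 252) .nil)))))) (.g (nat_lit 6) .nil .nil))) 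
(.lf (nat_lit 162218) (.g (nat_lit 2763) (.e (nat_lit 57447) (nat_lit 19) (.e (nat_lit 393227) (nat_lit 9) (.e (nat_lit 336152) (nat_lit 9) (.e (nat_lit 336017) (nat_lit 3) (.e (nat_lit 98334) (nat_lit 18) (.e (nat_lit 164182) (nat_lit 154) .nil)))))) (.g (nat_lit 0) .nil .nil)))) (.nd (nat_lit 5) 
(.lf (nat_lit 162202) (.g (nat_lit 3890) (.e (nat_lit 57447) (nat_lit 19) (.e (nat_lit 393225) (nat_lit 9) (.e (nat_lit 336201) (nat_lit 12) (.e (nat_lit 385068) (nat_lit 26) (.e (nat_lit 532499) (nat_lit 1) (.e (nat_lit 57847) (nat_lit 252) .nil)))))) (.g (nat_lit 6) .nil .nil))) 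
(.lf (nat_lit 162234) (.g (nat_lit 2315) (.e (nat_lit 57447) (nat_lit 19) (.e (nat_lit 393228) (nat_lit 9) (.e (nat_lit 336088) (nat_lit 9) (.e (nat_lit 336324) (nat_lit 18) (.e (nat_lit 204830) (nat_lit 18) (.e (nat_lit 57854) (nat_lit 252) .nil)))))) (.g (nat_lit 4) .nil .nil)))))) (.nd (nat_lit 3) (.nd (nat_lit 4) (.nd (nat_lit 5) 
(.lf (nat_lit 162182) (.g (nat_lit 3613) (.e (nat_lit 57447) (nat_lit 19) (.e (nat_lit 393225) (nat_lit 9) (.e (nat_lit 336193) (nat_lit 12) (.e (nat_lit 385068) (nat_lit 26) (.e (nat_lit 532503) (nat_lit 1) (.e (nat_lit 57847) (nat_lit 252) .nil)))))) (.g (nat_lit 5) .nil .nil))) 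
(.lf (nat_lit 162214) (.g (nat_lit 1837) (.e (nat_lit 57447) (nat_lit 19) (.e (nat_lit 393227) (nat_lit 9) (.e (nat_lit 336119) (nat_lit 9) (.e (nat_lit 336323) (nat_lit 18) (.e (nat_lit 204830) (nat_lit 18) (.e (nat_lit 57854) (nat_lit 252) .nil)))))) (.g (nat_lit 6) .nil .nil)))) (.nd (nat_lit 5) 
(.lf (nat_lit 162198) (.g (nat_lit 3497) (.e (nat_lit 57447) (nat_lit 19) (.e (nat_lit 393225) (nat_lit 9) (.e (nat_lit 336196) (nat_lit 12) (.e (nat_lit 385066) (nat_lit 26) (.e (nat_lit 532504) (nat_lit 1) (.e (nat_lit 57854) (nat_lit 252) .nil)))))) (.g (nat_lit 6) .nil .nil))) 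
(.lf (nat_lit 162230) (.g (nat_lit 2346) (.e (nat_lit 57447) (nat_lit 19) (.e (nat_lit 393228) (nat_lit 9) (.e (nat_lit 336088) (nat_lit 9) (.e (nat_lit 336019) (nat_lit 3) (.e (nat_lit 98335) (nat_lit 18) (.e (nat_lit 164183) (nat_lit 154) .nil)))))) (.g (nat_lit 4) .nil .nil))))) (.nd (nat_lit 4) (.nd (nat_lit 5) 
(.lf (nat_lit 162190) (.g (nat_lit 1927) (.e (nat_lit 57447) (nat_lit 19) (.e (nat_lit 393225) (nat_lit 9) (.e (nat_lit 336195) (nat_lit 12) (.e (nat_lit 385068) (nat_lit 26) (.e (nat_lit 532501) (nat_lit 1) .nil))))) .nil)) 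
(.lf (nat_lit 162222) (.g (nat_lit 2617) (.e (nat_lit 57447) (nat_lit 19) (.e (nat_lit 393227) (nat_lit 9) (.e (nat_lit 336206) (nat_lit 12) (.e (nat_lit 385068) (nat_lit 26) (.e (nat_lit 532501) (nat_lit 1) (.e (nat_lit 57854) (nat_lit 252) .nil)))))) (.g (nat_lit 0) .nil .nil)))) (.nd (nat_lit 5) 
(.lf (nat_lit 162206) (.g (nat_lit 3931) (.e (nat_lit 57447) (nat_lit 19) (.e (nat_lit 393225) (nat_lit 9) (.e (nat_lit 336204) (nat_lit 12) (.e (nat_lit 385066) (nat_lit 26) (.e (nat_lit 532499) (nat_lit 1) (.e (nat_lit 57847) (nat_lit 252) .nil)))))) (.g (nat_lit 6) .nil .nil))) 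
(.lf (nat_lit 162238) (.g (nat_lit 2086) (.e (nat_lit 57447) (nat_lit 19) (.e (nat_lit 393228) (nat_lit 9) (.e (nat_lit 336088) (nat_lit 9) (.e (nat_lit 336326) (nat_lit 18) (.e (nat_lit 204831) (nat_lit 18) (.e (nat_lit 57854) (nat_lit 252) .nil)))))) (.g (nat_lit 4) .nil .nil)))))))) (.nd (nat_lit 1) (.nd (nat_lit 2) (.nd (nat_lit 3) (.nd (nat_lit 4) (.nd (nat_lit 5) 
(.lf (nat_lit 162177) (.g (nat_lit 2663) (.e (nat_lit 57447) (nat_lit 19) (.e (nat_lit 393225) (nat_lit 9) (.e (nat_lit 336186) (nat_lit 11) (.e (nat_lit 368676) (nat_lit 21) (.e (nat_lit 516118) (nat_lit 1) (.e (nat_lit 164183) (nat_lit 154) .nil)))))) (.g (nat_lit 0) .nil .nil))) 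
(.lf (nat_lit 162209) (.g (nat_lit 3344) (.e (nat_lit 57447) (nat_lit 19) (.e (nat_lit 393225) (nat_lit 9) (.e (nat_lit 336204) (nat_lit 12) (.e (nat_lit 385066) (nat_lit 26) (.e (nat_lit 532503) (nat_lit 1) (.e (nat_lit 57847) (nat_lit 252) .nil)))))) (.g (nat_lit 6) .nil .nil)))) (.nd (nat_lit 5) 
(.lf (nat_lit 162193) (.g (nat_lit 3316) (.e (nat_lit 57447) (nat_lit 19) (.e (nat_lit 393225) (nat_lit 9) (.e (nat_lit 336196) (nat_lit 12) (.e (nat_lit 385066) (nat_lit 26) (.e (nat_lit 532501) (nat_lit 1) (.e (nat_lit 57854) (nat_lit 252) .nil)))))) (.g (nat_lit 6) .nil .nil))) 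
(.lf (nat_lit 162225) (.g (nat_lit 2582) (.e (nat_lit 57447) (nat_lit 19) (.e (nat_lit 393228) (nat_lit 9) (.e (nat_lit 336076) (nat_lit 9) (.e (nat_lit 336324) (nat_lit 18) (.e (nat_lit 204830) (nat_lit 18) (.e (nat_lit 57852) (nat_lit 252) .nil)))))) (.g (nat_lit 5) .nil .nil))))) (.nd (nat_lit 4) (.nd (nat_lit 5) 
(.lf (nat_lit 162185) (.g (nat_lit 3185) (.e (nat_lit 57447) (nat_lit 19) (.e (nat_lit 393225) (nat_lit 9) (.e (nat_lit 336194) (nat_lit 12) (.e (nat_lit 385066) (nat_lit 26) (.e (nat_lit 532503) (nat_lit 1) (.e (nat_lit 57846) (nat_lit 252) .nil)))))) (.g (nat_lit 6) .nil .nil))) 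
(.lf (nat_lit 162217) (.g (nat_lit 2688) (.e (nat_lit 57447) (nat_lit 19) (.e (nat_lit 393227) (nat_lit 9) (.e (nat_lit 336152) (nat_lit 9) (.e (nat_lit 336017) (nat_lit 3) (.e (nat_lit 98333) (nat_lit 18) (.e (nat_lit 164182) (nat_lit 154) .nil)))))) (.g (nat_lit 0) .nil .nil)))) (.nd (nat_lit 5) 
(.lf (nat_lit 162201) (.g (nat_lit 3250) (.e (nat_lit 57447) (nat_lit 19) (.e (nat_lit 393225) (nat_lit 9) (.e (nat_lit 336196) (nat_lit 12) (.e (nat_lit 385068) (nat_lit 26) (.e (nat_lit 532504) (nat_lit 1) (.e (nat_lit 57852) (nat_lit 252) .nil)))))) (.g (nat_lit 5) .nil .nil))) 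
(.lf (nat_lit 162233) (.g (nat_lit 2708) (.e (nat_lit 57447) (nat_lit 19) (.e (nat_lit 393228) (nat_lit 9) (.e (nat_lit 336088) (nat_lit 9) (.e (nat_lit 336324) (nat_lit 18) (.e (nat_lit 204830) (nat_lit 18) (.e (nat_lit 57852) (nat_lit 252) .nil)))))) (.g (nat_lit 5) .nil .nil)))))) (.nd (nat_lit 3) (.nd (nat_lit 4) (.nd (nat_lit 5) 
(.lf (nat_lit 162181) (.g (nat_lit 3730) (.e (nat_lit 57447) (nat_lit 19) (.e (nat_lit 393225) (nat_lit 9) (.e (nat_lit 336193) (nat_lit 12) (.e (nat_lit 385068) (nat_lit 26) (.e (nat_lit 532501) (nat_lit 1) (.e (nat_lit 57854) (nat_lit 252) .nil)))))) (.g (nat_lit 6) .nil .nil))) 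
(.lf (nat_lit 162213) (.g (nat_lit 2910) (.e (nat_lit 57447) (nat_lit 19) (.e (nat_lit 393226) (nat_lit 9) (.e (nat_lit 336206) (nat_lit 12) (.e (nat_lit 385068) (nat_lit 26) (.e (nat_lit 532504) (nat_lit 1) (.e (nat_lit 57854) (nat_lit 252) .nil)))))) (.g (nat_lit 0) .nil .nil)))) (.nd (nat_lit 5) 
(.lf (nat_lit 162197) (.g (nat_lit 3719) (.e (nat_lit 57447) (nat_lit 19) (.e (nat_lit 393225) (nat_lit 9) (.e (nat_lit 336196) (nat_lit 12) (.e (nat_lit 385066) (nat_lit 26) (.e (nat_lit 532504) (nat_lit 1) (.e (nat_lit 57852) (nat_lit 252) .nil)))))) (.g (nat_lit 6) .nil .nil))) 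
(.lf (nat_lit 162229) (.g (nat_lit 2478) (.e (nat_lit 57447) (nat_lit 19) (.e (nat_lit 393228) (nat_lit 9) (.e (nat_lit 336088) (nat_lit 9) (.e (nat_lit 336019) (nat_lit 3) (.e (nat_lit 98335) (nat_lit 18) (.e (nat_lit 164182) (nat_lit 154) .nil)))))) (.g (nat_lit 4) .nil .nil))))) (.nd (nat_lit 4) (.nd (nat_lit 5) 
(.lf (nat_lit 162189) (.g (nat_lit 803) (.e (nat_lit 57447) (nat_lit 19) (.e (nat_lit 393225) (nat_lit 9) (.e (nat_lit 336195) (nat_lit 12) .nil))) .nil)) 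
(.lf (nat_lit 162221) (.g (nat_lit 2197) (.e (nat_lit 57447) (nat_lit 19) (.e (nat_lit 393227) (nat_lit 9) (.e (nat_lit 336154) (nat_lit 9) (.e (nat_lit 336323) (nat_lit 18) (.e (nat_lit 204831) (nat_lit 18) (.e (nat_lit 57854) (nat_lit 252) .nil)))))) (.g (nat_lit 0) .nil .nil)))) (.nd (nat_lit 5) 
(.lf (nat_lit 162205) (.g (nat_lit 2356) (.e (nat_lit 57447) (nat_lit 19) (.e (nat_lit 393225) (nat_lit 9) (.e (nat_lit 336204) (nat_lit 12) (.e (nat_lit 385065) (nat_lit 26) (.e (nat_lit 532499) (nat_lit 1) .nil))))) .nil)) 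
(.lf (nat_lit 162237) (.g (nat_lit 1932) (.e (nat_lit 57447) (nat_lit 19) (.e (nat_lit 393228) (nat_lit 9) (.e (nat_lit 336088) (nat_lit 9) (.e (nat_lit 336326) (nat_lit 18) (.e (nat_lit 204830) (nat_lit 18) (.e (nat_lit 57854) (nat_lit 252) .nil)))))) (.g (nat_lit 4) .nil .nil))))))) (.nd (nat_lit 2) (.nd (nat_lit 3) (.nd (nat_lit 4) (.nd (nat_lit 5) 
(.lf (nat_lit 162179) (.g (nat_lit 1737) (.e (nat_lit 57447) (nat_lit 19) (.e (nat_lit 393225) (nat_lit 9) (.e (nat_lit 336193) (nat_lit 12) (.e (nat_lit 385068) (nat_lit 26) .nil)))) .nil)) 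
(.lf (nat_lit 162211) (.g (nat_lit 3354) (.e (nat_lit 57447) (nat_lit 19) (.e (nat_lit 393225) (nat_lit 9) (.e (nat_lit 336204) (nat_lit 12) (.e (nat_lit 385068) (nat_lit 26) (.e (nat_lit 532503) (nat_lit 1) (.e (nat_lit 57847) (nat_lit 252) .nil)))))) (.g (nat_lit 6) .nil .nil)))) (.nd (nat_lit 5) 
(.lf (nat_lit 162195) (.g (nat_lit 3008) (.e (nat_lit 57447) (nat_lit 19) (.e (nat_lit 393225) (nat_lit 9) (.e (nat_lit 336196) (nat_lit 12) (.e (nat_lit 385066) (nat_lit 26) (.e (nat_lit 532502) (nat_lit 1) (.e (nat_lit 57847) (nat_lit 252) .nil)))))) (.g (nat_lit 5) .nil .nil))) 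
(.lf (nat_lit 162227) (.g (nat_lit 2297) (.e (nat_lit 57447) (nat_lit 19) (.e (nat_lit 393228) (nat_lit 9) (.e (nat_lit 336076) (nat_lit 9) (.e (nat_lit 336324) (nat_lit 18) (.e (nat_lit 204831) (nat_lit 18) (.e (nat_lit 57847) (nat_lit 252) .nil)))))) (.g (nat_lit 4) .nil .nil))))) (.nd (nat_lit 4) (.nd (nat_lit 5) 
(.lf (nat_lit 162187) (.g (nat_lit 3749) (.e (nat_lit 57447) (nat_lit 19) (.e (nat_lit 393225) (nat_lit 9) (.e (nat_lit 336194) (nat_lit 12) (.e (nat_lit 385068) (nat_lit 26) (.e (nat_lit 532499) (nat_lit 1) (.e (nat_lit 57847) (nat_lit 252) .nil)))))) (.g (nat_lit 6) .nil .nil))) 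
(.lf (nat_lit 162219) (.g (nat_lit 2308) (.e (nat_lit 57447) (nat_lit 19) (.e (nat_lit 393227) (nat_lit 9) (.e (nat_lit 336153) (nat_lit 9) (.e (nat_lit 336323) (nat_lit 18) (.e (nat_lit 204831) (nat_lit 18) (.e (nat_lit 57852) (nat_lit 252) .nil)))))) (.g (nat_lit 6) .nil .nil)))) (.nd (nat_lit 5) 
(.lf (nat_lit 162203) (.g (nat_lit 3415) (.e (nat_lit 57447) (nat_lit 19) (.e (nat_lit 393225) (nat_lit 9) (.e (nat_lit 336201) (nat_lit 12) (.e (nat_lit 385068) (nat_lit 26) (.e (nat_lit 532503) (nat_lit 1) (.e (nat_lit 57847) (nat_lit 252) .nil)))))) (.g (nat_lit 6) .nil .nil))) 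
(.lf (nat_lit 162235) (.g (nat_lit 2565) (.e (nat_lit 57447) (nat_lit 19) (.e (nat_lit 393228) (nat_lit 9) (.e (nat_lit 336088) (nat_lit 9) (.e (nat_lit 336324) (nat_lit 18) (.e (nat_lit 204831) (nat_lit 18) (.e (nat_lit 57847) (nat_lit 252) .nil)))))) (.g (nat_lit 4) .nil .nil)))))) (.nd (nat_lit 3) (.nd (nat_lit 4) (.nd (nat_lit 5) 
(.lf (nat_lit 162183) (.g (nat_lit 3803) (.e (nat_lit 57447) (nat_lit 19) (.e (nat_lit 393225) (nat_lit 9) (.e (nat_lit 336193) (nat_lit 12) (.e (nat_lit 385068) (nat_lit 26) (.e (nat_lit 532504) (nat_lit 1) (.e (nat_lit 57854) (nat_lit 252) .nil)))))) (.g (nat_lit 6) .nil .nil))) 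
(.lf (nat_lit 162215) (.g (nat_lit 2620) (.e (nat_lit 57447) (nat_lit 19) (.e (nat_lit 393227) (nat_lit 9) (.e (nat_lit 336151) (nat_lit 9) (.e (nat_lit 336017) (nat_lit 3) (.e (nat_lit 98333) (nat_lit 18) (.e (nat_lit 164182) (nat_lit 154) .nil)))))) (.g (nat_lit 0) .nil .nil)))) (.nd (nat_lit 5) 
(.lf (nat_lit 162199) (.g (nat_lit 4327) (.e (nat_lit 57447) (nat_lit 19) (.e (nat_lit 393225) (nat_lit 9) (.e (nat_lit 336196) (nat_lit 12) (.e (nat_lit 385068) (nat_lit 26) (.e (nat_lit 532499) (nat_lit 1) (.e (nat_lit 57847) (nat_lit 252) .nil)))))) (.g (nat_lit 6) .nil .nil))) 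
(.lf (nat_lit 162231) (.g (nat_lit 2472) (.e (nat_lit 57447) (nat_lit 19) (.e (nat_lit 393228) (nat_lit 9) (.e (nat_lit 336088) (nat_lit 9) (.e (nat_lit 336324) (nat_lit 18) (.e (nat_lit 204829) (nat_lit 18) (.e (nat_lit 57847) (nat_lit 252) .nil)))))) (.g (nat_lit 4) .nil .nil))))) (.nd (nat_lit 4) (.nd (nat_lit 5) 
(.lf (nat_lit 162191) (.g (nat_lit 3961) (.e (nat_lit 57447) (nat_lit 19) (.e (nat_lit 393225) (nat_lit 9) (.e (nat_lit 336196) (nat_lit 12) (.e (nat_lit 385066) (nat_lit 26) (.e (nat_lit 532499) (nat_lit 1) (.e (nat_lit 57847) (nat_lit 252) .nil)))))) (.g (nat_lit 6) .nil .nil))) 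
(.lf (nat_lit 162223) (.g (nat_lit 2653) (.e (nat_lit 57447) (nat_lit 19) (.e (nat_lit 393227) (nat_lit 9) (.e (nat_lit 336206) (nat_lit 12) (.e (nat_lit 385068) (nat_lit 26) (.e (nat_lit 532504) (nat_lit 1) (.e (nat_lit 57854) (nat_lit 252) .nil)))))) (.g (nat_lit 0) .nil .nil)))) (.nd (nat_lit 5) 
(.lf (nat_lit 162207) (.g (nat_lit 3331) (.e (nat_lit 57447) (nat_lit 19) (.e (nat_lit 393225) (nat_lit 9) (.e (nat_lit 336204) (nat_lit 12) (.e (nat_lit 385066) (nat_lit 26) (.e (nat_lit 532501) (nat_lit 1) (.e (nat_lit 57854) (nat_lit 252) .nil)))))) (.g (nat_lit 0) .nil .nil))) 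
(.lf (nat_lit 162239) (.g (nat_lit 2136) (.e (nat_lit 57447) (nat_lit 19) (.e (nat_lit 393228) (nat_lit 9) (.e (nat_lit 336194) (nat_lit 12) (.e (nat_lit 385066) (nat_lit 26) (.e (nat_lit 532501) (nat_lit 1) (.e (nat_lit 57852) (nat_lit 252) .nil)))))) (.g (nat_lit 4) .nil .nil)))))))))

noncomputable def tv2175 : DT := (.nd (nat_lit 0) (.nd (nat_lit 1) (.nd (nat_lit 2) (.nd (nat_lit 3) (.nd (nat_lit 4) (.nd (nat_lit 5) 
(.lf (nat_lit 162240) (.g (nat_lit 2088) (.e (nat_lit 57447) (nat_lit 19) (.e (nat_lit 393228) (nat_lit 9) (.e (nat_lit 336194) (nat_lit 12) (.e (nat_lit 385066) (nat_lit 26) (.e (nat_lit 532504) (nat_lit 1) (.e (nat_lit 57852) (nat_lit 252) .nil)))))) (.g (nat_lit 4) .nil .nil))) 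
(.lf (nat_lit 162272) (.g (nat_lit 3465) (.e (nat_lit 57447) (nat_lit 19) (.e (nat_lit 393229) (nat_lit 9) (.e (nat_lit 336078) (nat_lit 9) (.e (nat_lit 336324) (nat_lit 18) (.e (nat_lit 204829) (nat_lit 18) (.e (nat_lit 57854) (nat_lit 252) .nil)))))) (.g (nat_lit 0) .nil .nil)))) (.nd (nat_lit 5) 
(.lf (nat_lit 162256) (.g (nat_lit 4310) (.e (nat_lit 57447) (nat_lit 19) (.e (nat_lit 393229) (nat_lit 9) (.e (nat_lit 336075) (nat_lit 9) (.e (nat_lit 336324) (nat_lit 18) (.e (nat_lit 204831) (nat_lit 18) (.e (nat_lit 57854) (nat_lit 252) .nil)))))) (.g (nat_lit 5) .nil .nil))) 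
(.lf (nat_lit 162288) (.g (nat_lit 3439) (.e (nat_lit 57447) (nat_lit 19) (.e (nat_lit 393229) (nat_lit 9) (.e (nat_lit 336085) (nat_lit 9) (.e (nat_lit 336324) (nat_lit 18) (.e (nat_lit 204831) (nat_lit 18) (.e (nat_lit 57852) (nat_lit 252) .nil)))))) (.g (nat_lit 6) .nil .nil))))) (.nd (nat_lit 4) (.nd (nat_lit 5) 
(.lf (nat_lit 162248) (.g (nat_lit 1847) (.e (nat_lit 57447) (nat_lit 19) (.e (nat_lit 393228) (nat_lit 9) (.e (nat_lit 336204) (nat_lit 12) (.e (nat_lit 385066) (nat_lit 26) (.e (nat_lit 532501) (nat_lit 1) .nil))))) .nil)) 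
(.lf (nat_lit 162280) (.g (nat_lit 2844) (.e (nat_lit 57447) (nat_lit 19) (.e (nat_lit 393229) (nat_lit 9) (.e (nat_lit 336078) (nat_lit 9) (.e (nat_lit 336326) (nat_lit 18) (.e (nat_lit 204831) (nat_lit 18) (.e (nat_lit 57846) (nat_lit 252) .nil)))))) (.g (nat_lit 4) .nil .nil)))) (.nd (nat_lit 5) 
(.lf (nat_lit 162264) (.g (nat_lit 2639) (.e (nat_lit 57447) (nat_lit 19) (.e (nat_lit 393229) (nat_lit 9) (.e (nat_lit 336077) (nat_lit 9) (.e (nat_lit 336324) (nat_lit 18) (.e (nat_lit 204829) (nat_lit 18) (.e (nat_lit 57854) (nat_lit 252) .nil)))))) (.g (nat_lit 5) .nil .nil))) 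
(.lf (nat_lit 162296) (.g (nat_lit 3609) (.e (nat_lit 57447) (nat_lit 19) (.e (nat_lit 393229) (nat_lit 9) (.e (nat_lit 336086) (nat_lit 9) (.e (nat_lit 336324) (nat_lit 18) (.e (nat_lit 204830) (nat_lit 18) (.e (nat_lit 57854) (nat_lit 252) .nil)))))) (.g (nat_lit 0) .nil .nil)))))) (.nd (nat_lit 3) (.nd (nat_lit 4) (.nd (nat_lit 5) 
(.lf (nat_lit 162244) (.g (nat_lit 2840) (.e (nat_lit 57447) (nat_lit 19) (.e (nat_lit 393228) (nat_lit 9) (.e (nat_lit 336194) (nat_lit 12) (.e (nat_lit 385068) (nat_lit 26) (.e (nat_lit 532504) (nat_lit 1) (.e (nat_lit 57854) (nat_lit 252) .nil)))))) (.g (nat_lit 5) .nil .nil))) 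
(.lf (nat_lit 162276) (.g (nat_lit 3857) (.e (nat_lit 57447) (nat_lit 19) (.e (nat_lit 393229) (nat_lit 9) (.e (nat_lit 336078) (nat_lit 9) (.e (nat_lit 336324) (nat_lit 18) (.e (nat_lit 204831) (nat_lit 18) (.e (nat_lit 57854) (nat_lit 252) .nil)))))) (.g (nat_lit 0) .nil .nil)))) (.nd (nat_lit 5) 
(.lf (nat_lit 162260) (.g (nat_lit 3817) (.e (nat_lit 57447) (nat_lit 19) (.e (nat_lit 393229) (nat_lit 9) (.e (nat_lit 336076) (nat_lit 9) (.e (nat_lit 336324) (nat_lit 18) (.e (nat_lit 204831) (nat_lit 18) (.e (nat_lit 57846) (nat_lit 252) .nil)))))) (.g (nat_lit 6) .nil .nil))) 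
(.lf (nat_lit 162292) (.g (nat_lit 2406) (.e (nat_lit 57447) (nat_lit 19) (.e (nat_lit 393229) (nat_lit 9) (.e (nat_lit 336086) (nat_lit 9) (.e (nat_lit 336019) (nat_lit 3) (.e (nat_lit 98333) (nat_lit 18) (.e (nat_lit 164183) (nat_lit 154) .nil)))))) (.g (nat_lit 4) .nil .nil))))) (.nd (nat_lit 4) (.nd (nat_lit 5) 
(.lf (nat_lit 162252) (.g (nat_lit 2301) (.e (nat_lit 57447) (nat_lit 19) (.e (nat_lit 393229) (nat_lit 9) (.e (nat_lit 336075) (nat_lit 9) (.e (nat_lit 336324) (nat_lit 18) (.e (nat_lit 204830) (nat_lit 18) (.e (nat_lit 57854) (nat_lit 252) .nil)))))) (.g (nat_lit 4) .nil .nil))) 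
(.lf (nat_lit 162284) (.g (nat_lit 3139) (.e (nat_lit 57447) (nat_lit 19) (.e (nat_lit 393229) (nat_lit 9) (.e (nat_lit 336085) (nat_lit 9) (.e (nat_lit 336324) (nat_lit 18) (.e (nat_lit 204829) (nat_lit 18) (.e (nat_lit 57854) (nat_lit 252) .nil)))))) (.g (nat_lit 6) .nil .nil)))) (.nd (nat_lit 5) 
(.lf (nat_lit 162268) (.g (nat_lit 4561) (.e (nat_lit 57447) (nat_lit 19) (.e (nat_lit 393229) (nat_lit 9) (.e (nat_lit 336077) (nat_lit 9) (.e (nat_lit 336324) (nat_lit 18) (.e (nat_lit 204831) (nat_lit 18) (.e (nat_lit 57847) (nat_lit 252) .nil)))))) (.g (nat_lit 5) .nil .nil))) 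
(.lf (nat_lit 162300) (.g (nat_lit 3328) (.e (nat_lit 57447) (nat_lit 19) (.e (nat_lit 393229) (nat_lit 9) (.e (nat_lit 336086) (nat_lit 9) (.e (nat_lit 336325) (nat_lit 18) (.e (nat_lit 204829) (nat_lit 18) (.e (nat_lit 57847) (nat_lit 252) .nil)))))) (.g (nat_lit 6) .nil .nil))))))) (.nd (nat_lit 2) (.nd (nat_lit 3) (.nd (nat_lit 4) (.nd (nat_lit 5) 
(.lf (nat_lit 162242) (.g (nat_lit 2813) (.e (nat_lit 57447) (nat_lit 19) (.e (nat_lit 393228) (nat_lit 9) (.e (nat_lit 336194) (nat_lit 12) (.e (nat_lit 385068) (nat_lit 26) (.e (nat_lit 532501) (nat_lit 1) (.e (nat_lit 57854) (nat_lit 252) .nil)))))) (.g (nat_lit 5) .nil .nil))) 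
(.lf (nat_lit 162274) (.g (nat_lit 3530) (.e (nat_lit 57447) (nat_lit 19) (.e (nat_lit 393229) (nat_lit 9) (.e (nat_lit 336078) (nat_lit 9) (.e (nat_lit 336324) (nat_lit 18) (.e (nat_lit 204831) (nat_lit 18) (.e (nat_lit 57847) (nat_lit 252) .nil)))))) (.g (nat_lit 6) .nil .nil)))) (.nd (nat_lit 5) 
(.lf (nat_lit 162258) (.g (nat_lit 3738) (.e (nat_lit 57447) (nat_lit 19) (.e (nat_lit 393229) (nat_lit 9) (.e (nat_lit 336076) (nat_lit 9) (.e (nat_lit 336324) (nat_lit 18) (.e (nat_lit 204829) (nat_lit 18) (.e (nat_lit 57847) (nat_lit 252) .nil)))))) (.g (nat_lit 0) .nil .nil))) 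
(.lf (nat_lit 162290) (.g (nat_lit 2455) (.e (nat_lit 57447) (nat_lit 19) (.e (nat_lit 393229) (nat_lit 9) (.e (nat_lit 336085) (nat_lit 9) (.e (nat_lit 336326) (nat_lit 18) (.e (nat_lit 204831) (nat_lit 18) (.e (nat_lit 57847) (nat_lit 252) .nil)))))) (.g (nat_lit 4) .nil .nil))))) (.nd (nat_lit 4) (.nd (nat_lit 5) 
(.lf (nat_lit 162250) (.g (nat_lit 590) (.e (nat_lit 57447) (nat_lit 19) (.e (nat_lit 393229) (nat_lit 9) (.e (nat_lit 336075) (nat_lit 9) .nil))) .nil)) 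
(.lf (nat_lit 162282) (.g (nat_lit 2444) (.e (nat_lit 57447) (nat_lit 19) (.e (nat_lit 393229) (nat_lit 9) (.e (nat_lit 336078) (nat_lit 9) (.e (nat_lit 336326) (nat_lit 18) (.e (nat_lit 204831) (nat_lit 18) (.e (nat_lit 57852) (nat_lit 252) .nil)))))) (.g (nat_lit 4) .nil .nil)))) (.nd (nat_lit 5) 
(.lf (nat_lit 162266) (.g (nat_lit 2788) (.e (nat_lit 57447) (nat_lit 19) (.e (nat_lit 393229) (nat_lit 9) (.e (nat_lit 336077) (nat_lit 9) (.e (nat_lit 336324) (nat_lit 18) (.e (nat_lit 204830) (nat_lit 18) (.e (nat_lit 57854) (nat_lit 252) .nil)))))) (.g (nat_lit 5) .nil .nil))) 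
(.lf (nat_lit 162298) (.g (nat_lit 2947) (.e (nat_lit 57447) (nat_lit 19) (.e (nat_lit 393229) (nat_lit 9) (.e (nat_lit 336086) (nat_lit 9) (.e (nat_lit 336324) (nat_lit 18) (.e (nat_lit 204831) (nat_lit 18) (.e (nat_lit 57847) (nat_lit 252) .nil)))))) (.g (nat_lit 5) .nil .nil)))))) (.nd (nat_lit 3) (.nd (nat_lit 4) (.nd (nat_lit 5) 
(.lf (nat_lit 162246) (.g (nat_lit 2944) (.e (nat_lit 57447) (nat_lit 19) (.e (nat_lit 393228) (nat_lit 9) (.e (nat_lit 336201) (nat_lit 12) (.e (nat_lit 385068) (nat_lit 26) (.e (nat_lit 532501) (nat_lit 1) (.e (nat_lit 57854) (nat_lit 252) .nil)))))) (.g (nat_lit 0) .nil .nil))) 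
(.lf (nat_lit 162278) (.g (nat_lit 2356) (.e (nat_lit 57447) (nat_lit 19) (.e (nat_lit 393229) (nat_lit 9) (.e (nat_lit 336078) (nat_lit 9) (.e (nat_lit 336326) (nat_lit 18) (.e (nat_lit 204830) (nat_lit 18) (.e (nat_lit 57852) (nat_lit 252) .nil)))))) (.g (nat_lit 4) .nil .nil)))) (.nd (nat_lit 5) 
(.lf (nat_lit 162262) (.g (nat_lit 3569) (.e (nat_lit 57447) (nat_lit 19) (.e (nat_lit 393229) (nat_lit 9) (.e (nat_lit 336076) (nat_lit 9) (.e (nat_lit 336326) (nat_lit 18) (.e (nat_lit 204829) (nat_lit 18) (.e (nat_lit 57847) (nat_lit 252) .nil)))))) (.g (nat_lit 0) .nil .nil))) 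
(.lf (nat_lit 162294) (.g (nat_lit 2919) (.e (nat_lit 57447) (nat_lit 19) (.e (nat_lit 393229) (nat_lit 9) (.e (nat_lit 336086) (nat_lit 9) (.e (nat_lit 336324) (nat_lit 18) (.e (nat_lit 204829) (nat_lit 18) (.e (nat_lit 57847) (nat_lit 252) .nil)))))) (.g (nat_lit 5) .nil .nil))))) (.nd (nat_lit 4) (.nd (nat_lit 5) 
(.lf (nat_lit 162254) (.g (nat_lit 4102) (.e (nat_lit 57447) (nat_lit 19) (.e (nat_lit 393229) (nat_lit 9) (.e (nat_lit 336075) (nat_lit 9) (.e (nat_lit 336324) (nat_lit 18) (.e (nat_lit 204831) (nat_lit 18) (.e (nat_lit 57847) (nat_lit 252) .nil)))))) (.g (nat_lit 5) .nil .nil))) 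
(.lf (nat_lit 162286) (.g (nat_lit 3360) (.e (nat_lit 57447) (nat_lit 19) (.e (nat_lit 393229) (nat_lit 9) (.e (nat_lit 336085) (nat_lit 9) (.e (nat_lit 336324) (nat_lit 18) (.e (nat_lit 204830) (nat_lit 18) (.e (nat_lit 57854) (nat_lit 252) .nil)))))) (.g (nat_lit 0) .nil .nil)))) (.nd (nat_lit 5) 
(.lf (nat_lit 162270) (.g (nat_lit 4922) (.e (nat_lit 57447) (nat_lit 19) (.e (nat_lit 393229) (nat_lit 9) (.e (nat_lit 336077) (nat_lit 9) (.e (nat_lit 336324) (nat_lit 18) (.e (nat_lit 204831) (nat_lit 18) (.e (nat_lit 57854) (nat_lit 252) .nil)))))) (.g (nat_lit 6) .nil .nil))) 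
(.lf (nat_lit 162302) (.g (nat_lit 3441) (.e (nat_lit 57447) (nat_lit 19) (.e (nat_lit 393229) (nat_lit 9) (.e (nat_lit 336086) (nat_lit 9) (.e (nat_lit 336325) (nat_lit 18) (.e (nat_lit 204830) (nat_lit 18) (.e (nat_lit 57854) (nat_lit 252) .nil)))))) (.g (nat_lit 0) .nil .nil)))))))) (.nd (nat_lit 1) (.nd (nat_lit 2) (.nd (nat_lit 3) (.nd (nat_lit 4) (.nd (nat_lit 5) 
(.lf (nat_lit 162241) (.g (nat_lit 3449) (.e (nat_lit 57447) (nat_lit 19) (.e (nat_lit 393228) (nat_lit 9) (.e (nat_lit 336194) (nat_lit 12) (.e (nat_lit 385068) (nat_lit 26) (.e (nat_lit 532499) (nat_lit 1) (.e (nat_lit 57847) (nat_lit 252) .nil)))))) (.g (nat_lit 5) .nil .nil))) 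
(.lf (nat_lit 162273) (.g (nat_lit 3656) (.e (nat_lit 57447) (nat_lit 19) (.e (nat_lit 393229) (nat_lit 9) (.e (nat_lit 336078) (nat_lit 9) (.e (nat_lit 336324) (nat_lit 18) (.e (nat_lit 204830) (nat_lit 18) (.e (nat_lit 57854) (nat_lit 252) .nil)))))) (.g (nat_lit 0) .nil .nil)))) (.nd (nat_lit 5) 
(.lf (nat_lit 162257) (.g (nat_lit 1249) (.e (nat_lit 57447) (nat_lit 19) (.e (nat_lit 393229) (nat_lit 9) (.e (nat_lit 336076) (nat_lit 9) (.e (nat_lit 336322) (nat_lit 18) .nil)))) .nil)) 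
(.lf (nat_lit 162289) (.g (nat_lit 3342) (.e (nat_lit 57447) (nat_lit 19) (.e (nat_lit 393229) (nat_lit 9) (.e (nat_lit 336085) (nat_lit 9) (.e (nat_lit 336324) (nat_lit 18) (.e (nat_lit 204831) (nat_lit 18) (.e (nat_lit 57854) (nat_lit 252) .nil)))))) (.g (nat_lit 6) .nil .nil))))) (.nd (nat_lit 4) (.nd (nat_lit 5) 
(.lf (nat_lit 162249) (.g (nat_lit 1860) (.e (nat_lit 57447) (nat_lit 19) (.e (nat_lit 393228) (nat_lit 9) (.e (nat_lit 336204) (nat_lit 12) (.e (nat_lit 385066) (nat_lit 26) (.e (nat_lit 532504) (nat_lit 1) .nil))))) .nil)) 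
(.lf (nat_lit 162281) (.g (nat_lit 2690) (.e (nat_lit 57447) (nat_lit 19) (.e (nat_lit 393229) (nat_lit 9) (.e (nat_lit 336078) (nat_lit 9) (.e (nat_lit 336326) (nat_lit 18) (.e (nat_lit 204831) (nat_lit 18) (.e (nat_lit 57847) (nat_lit 252) .nil)))))) (.g (nat_lit 4) .nil .nil)))) (.nd (nat_lit 5) 
(.lf (nat_lit 162265) (.g (nat_lit 2832) (.e (nat_lit 57447) (nat_lit 19) (.e (nat_lit 393229) (nat_lit 9) (.e (nat_lit 336077) (nat_lit 9) (.e (nat_lit 336324) (nat_lit 18) (.e (nat_lit 204830) (nat_lit 18) (.e (nat_lit 57852) (nat_lit 252) .nil)))))) (.g (nat_lit 5) .nil .nil))) 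
(.lf (nat_lit 162297) (.g (nat_lit 3650) (.e (nat_lit 57447) (nat_lit 19) (.e (nat_lit 393229) (nat_lit 9) (.e (nat_lit 336086) (nat_lit 9) (.e (nat_lit 336324) (nat_lit 18) (.e (nat_lit 204831) (nat_lit 18) (.e (nat_lit 57846) (nat_lit 252) .nil)))))) (.g (nat_lit 5) .nil .nil)))))) (.nd (nat_lit 3) (.nd (nat_lit 4) (.nd (nat_lit 5) 
(.lf (nat_lit 162245) (.g (nat_lit 3566) (.e (nat_lit 57447) (nat_lit 19) (.e (nat_lit 393228) (nat_lit 9) (.e (nat_lit 336201) (nat_lit 12) (.e (nat_lit 385068) (nat_lit 26) (.e (nat_lit 532499) (nat_lit 1) (.e (nat_lit 57847) (nat_lit 252) .nil)))))) (.g (nat_lit 6) .nil .nil))) 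
(.lf (nat_lit 162277) (.g (nat_lit 3069) (.e (nat_lit 57447) (nat_lit 19) (.e (nat_lit 393229) (nat_lit 9) (.e (nat_lit 336078) (nat_lit 9) (.e (nat_lit 336326) (nat_lit 18) (.e (nat_lit 204829) (nat_lit 18) (.e (nat_lit 57847) (nat_lit 252) .nil)))))) (.g (nat_lit 4) .nil .nil)))) (.nd (nat_lit 5) 
(.lf (nat_lit 162261) (.g (nat_lit 3638) (.e (nat_lit 57447) (nat_lit 19) (.e (nat_lit 393229) (nat_lit 9) (.e (nat_lit 336076) (nat_lit 9) (.e (nat_lit 336324) (nat_lit 18) (.e (nat_lit 204831) (nat_lit 18) (.e (nat_lit 57847) (nat_lit 252) .nil)))))) (.g (nat_lit 0) .nil .nil))) 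
(.lf (nat_lit 162293) (.g (nat_lit 2118) (.e (nat_lit 57447) (nat_lit 19) (.e (nat_lit 393229) (nat_lit 9) (.e (nat_lit 336086) (nat_lit 9) (.e (nat_lit 336019) (nat_lit 3) (.e (nat_lit 98335) (nat_lit 18) (.e (nat_lit 164182) (nat_lit 154) .nil)))))) (.g (nat_lit 4) .nil .nil))))) (.nd (nat_lit 4) (.nd (nat_lit 5) 
(.lf (nat_lit 162253) (.g (nat_lit 4249) (.e (nat_lit 57447) (nat_lit 19) (.e (nat_lit 393229) (nat_lit 9) (.e (nat_lit 336075) (nat_lit 9) (.e (nat_lit 336324) (nat_lit 18) (.e (nat_lit 204831) (nat_lit 18) (.e (nat_lit 57846) (nat_lit 252) .nil)))))) (.g (nat_lit 5) .nil .nil))) 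
(.lf (nat_lit 162285) (.g (nat_lit 3398) (.e (nat_lit 57447) (nat_lit 19) (.e (nat_lit 393229) (nat_lit 9) (.e (nat_lit 336085) (nat_lit 9) (.e (nat_lit 336324) (nat_lit 18) (.e (nat_lit 204830) (nat_lit 18) (.e (nat_lit 57852) (nat_lit 252) .nil)))))) (.g (nat_lit 6) .nil .nil)))) (.nd (nat_lit 5) 
(.lf (nat_lit 162269) (.g (nat_lit 5039) (.e (nat_lit 57447) (nat_lit 19) (.e (nat_lit 393229) (nat_lit 9) (.e (nat_lit 336077) (nat_lit 9) (.e (nat_lit 336324) (nat_lit 18) (.e (nat_lit 204831) (nat_lit 18) (.e (nat_lit 57852) (nat_lit 252) .nil)))))) (.g (nat_lit 6) .nil .nil))) 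
(.lf (nat_lit 162301) (.g (nat_lit 3262) (.e (nat_lit 57447) (nat_lit 19) (.e (nat_lit 393229) (nat_lit 9) (.e (nat_lit 336086) (nat_lit 9) (.e (nat_lit 336325) (nat_lit 18) (.e (nat_lit 204829) (nat_lit 18) (.e (nat_lit 57854) (nat_lit 252) .nil)))))) (.g (nat_lit 5) .nil .nil))))))) (.nd (nat_lit 2) (.nd (nat_lit 3) (.nd (nat_lit 4) (.nd (nat_lit 5) 
(.lf (nat_lit 162243) (.g (nat_lit 2876) (.e (nat_lit 57447) (nat_lit 19) (.e (nat_lit 393228) (nat_lit 9) (.e (nat_lit 336194) (nat_lit 12) (.e (nat_lit 385068) (nat_lit 26) (.e (nat_lit 532503) (nat_lit 1) (.e (nat_lit 57847) (nat_lit 252) .nil)))))) (.g (nat_lit 5) .nil .nil))) 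
(.lf (nat_lit 162275) (.g (nat_lit 3969) (.e (nat_lit 57447) (nat_lit 19) (.e (nat_lit 393229) (nat_lit 9) (.e (nat_lit 336078) (nat_lit 9) (.e (nat_lit 336324) (nat_lit 18) (.e (nat_lit 204831) (nat_lit 18) (.e (nat_lit 57852) (nat_lit 252) .nil)))))) (.g (nat_lit 0) .nil .nil)))) (.nd (nat_lit 5) 
(.lf (nat_lit 162259) (.g (nat_lit 3760) (.e (nat_lit 57447) (nat_lit 19) (.e (nat_lit 393229) (nat_lit 9) (.e (nat_lit 336076) (nat_lit 9) (.e (nat_lit 336324) (nat_lit 18) (.e (nat_lit 204830) (nat_lit 18) (.e (nat_lit 57854) (nat_lit 252) .nil)))))) (.g (nat_lit 0) .nil .nil))) 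
(.lf (nat_lit 162291) (.g (nat_lit 2407) (.e (nat_lit 57447) (nat_lit 19) (.e (nat_lit 393229) (nat_lit 9) (.e (nat_lit 336086) (nat_lit 9) (.e (nat_lit 336019) (nat_lit 3) (.e (nat_lit 98333) (nat_lit 18) (.e (nat_lit 164179) (nat_lit 154) .nil)))))) (.g (nat_lit 4) .nil .nil))))) (.nd (nat_lit 4) (.nd (nat_lit 5) 
(.lf (nat_lit 162251) (.g (nat_lit 2415) (.e (nat_lit 57447) (nat_lit 19) (.e (nat_lit 393229) (nat_lit 9) (.e (nat_lit 336075) (nat_lit 9) (.e (nat_lit 336324) (nat_lit 18) (.e (nat_lit 204830) (nat_lit 18) (.e (nat_lit 57852) (nat_lit 252) .nil)))))) (.g (nat_lit 4) .nil .nil))) 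
(.lf (nat_lit 162283) (.g (nat_lit 2975) (.e (nat_lit 57447) (nat_lit 19) (.e (nat_lit 393229) (nat_lit 9) (.e (nat_lit 336078) (nat_lit 9) (.e (nat_lit 336326) (nat_lit 18) (.e (nat_lit 204831) (nat_lit 18) (.e (nat_lit 57854) (nat_lit 252) .nil)))))) (.g (nat_lit 5) .nil .nil)))) (.nd (nat_lit 5) 
(.lf (nat_lit 162267) (.g (nat_lit 4817) (.e (nat_lit 57447) (nat_lit 19) (.e (nat_lit 393229) (nat_lit 9) (.e (nat_lit 336077) (nat_lit 9) (.e (nat_lit 336324) (nat_lit 18) (.e (nat_lit 204831) (nat_lit 18) (.e (nat_lit 57846) (nat_lit 252) .nil)))))) (.g (nat_lit 5) .nil .nil))) 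
(.lf (nat_lit 162299) (.g (nat_lit 3923) (.e (nat_lit 57447) (nat_lit 19) (.e (nat_lit 393229) (nat_lit 9) (.e (nat_lit 336086) (nat_lit 9) (.e (nat_lit 336324) (nat_lit 18) (.e (nat_lit 204831) (nat_lit 18) (.e (nat_lit 57854) (nat_lit 252) .nil)))))) (.g (nat_lit 0) .nil .nil)))))) (.nd (nat_lit 3) (.nd (nat_lit 4) (.nd (nat_lit 5) 
(.lf (nat_lit 162247) (.g (nat_lit 3038) (.e (nat_lit 57447) (nat_lit 19) (.e (nat_lit 393228) (nat_lit 9) (.e (nat_lit 336201) (nat_lit 12) (.e (nat_lit 385068) (nat_lit 26) (.e (nat_lit 532504) (nat_lit 1) (.e (nat_lit 57854) (nat_lit 252) .nil)))))) (.g (nat_lit 0) .nil .nil))) 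
(.lf (nat_lit 162279) (.g (nat_lit 3055) (.e (nat_lit 57447) (nat_lit 19) (.e (nat_lit 393229) (nat_lit 9) (.e (nat_lit 336078) (nat_lit 9) (.e (nat_lit 336326) (nat_lit 18) (.e (nat_lit 204830) (nat_lit 18) (.e (nat_lit 57854) (nat_lit 252) .nil)))))) (.g (nat_lit 5) .nil .nil)))) (.nd (nat_lit 5) 
(.lf (nat_lit 162263) (.g (nat_lit 3218) (.e (nat_lit 57447) (nat_lit 19) (.e (nat_lit 393229) (nat_lit 9) (.e (nat_lit 336076) (nat_lit 9) (.e (nat_lit 336326) (nat_lit 18) (.e (nat_lit 204831) (nat_lit 18) (.e (nat_lit 57847) (nat_lit 252) .nil)))))) (.g (nat_lit 0) .nil .nil))) 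
(.lf (nat_lit 162295) (.g (nat_lit 3513) (.e (nat_lit 57447) (nat_lit 19) (.e (nat_lit 393229) (nat_lit 9) (.e (nat_lit 336086) (nat_lit 9) (.e (nat_lit 336324) (nat_lit 18) (.e (nat_lit 204829) (nat_lit 18) (.e (nat_lit 57854) (nat_lit 252) .nil)))))) (.g (nat_lit 0) .nil .nil))))) (.nd (nat_lit 4) (.nd (nat_lit 5) 
(.lf (nat_lit 162255) (.g (nat_lit 4522) (.e (nat_lit 57447) (nat_lit 19) (.e (nat_lit 393229) (nat_lit 9) (.e (nat_lit 336075) (nat_lit 9) (.e (nat_lit 336324) (nat_lit 18) (.e (nat_lit 204831) (nat_lit 18) (.e (nat_lit 57852) (nat_lit 252) .nil)))))) (.g (nat_lit 5) .nil .nil))) 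
(.lf (nat_lit 162287) (.g (nat_lit 2791) (.e (nat_lit 57447) (nat_lit 19) (.e (nat_lit 393229) (nat_lit 9) (.e (nat_lit 336085) (nat_lit 9) (.e (nat_lit 336324) (nat_lit 18) (.e (nat_lit 204831) (nat_lit 18) (.e (nat_lit 57847) (nat_lit 252) .nil)))))) (.g (nat_lit 5) .nil .nil)))) (.nd (nat_lit 5) 
(.lf (nat_lit 162271) (.g (nat_lit 3553) (.e (nat_lit 57447) (nat_lit 19) (.e (nat_lit 393229) (nat_lit 9) (.e (nat_lit 336078) (nat_lit 9) (.e (nat_lit 336324) (nat_lit 18) (.e (nat_lit 204829) (nat_lit 18) (.e (nat_lit 57847) (nat_lit 252) .nil)))))) (.g (nat_lit 6) .nil .nil))) 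
(.lf (nat_lit 162303) (.g (nat_lit 2708) (.e (nat_lit 57447) (nat_lit 19) (.e (nat_lit 393229) (nat_lit 9) (.e (nat_lit 336086) (nat_lit 9) (.e (nat_lit 336326) (nat_lit 18) (.e (nat_lit 204829) (nat_lit 18) (.e (nat_lit 57847) (nat_lit 252) .nil)))))) (.g (nat_lit 4) .nil .nil)))))))))

noncomputable def tv2176 : DT := (.nd (nat_lit 0) (.nd (nat_lit 1) (.nd (nat_lit 2) (.nd (nat_lit 3) (.nd (nat_lit 4) (.nd (nat_lit 5) 
(.lf (nat_lit 162304) (.g (nat_lit 2947) (.e (nat_lit 57447) (nat_lit 19) (.e (nat_lit 393229) (nat_lit 9) (.e (nat_lit 336086) (nat_lit 9) (.e (nat_lit 336326) (nat_lit 18) (.e (nat_lit 204831) (nat_lit 18) (.e (nat_lit 57846) (nat_lit 252) .nil)))))) (.g (nat_lit 4) .nil .nil))) 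
(.lf (nat_lit 162336) (.g (nat_lit 1894) (.e (nat_lit 57447) (nat_lit 19) (.e (nat_lit 393229) (nat_lit 9) (.e (nat_lit 336163) (nat_lit 10) (.e (nat_lit 344117) (nat_lit 21) (.e (nat_lit 516115) (nat_lit 1) .nil))))) .nil))) (.nd (nat_lit 5) 
(.lf (nat_lit 162320) (.g (nat_lit 4137) (.e (nat_lit 57447) (nat_lit 19) (.e (nat_lit 393229) (nat_lit 9) (.e (nat_lit 336088) (nat_lit 9) (.e (nat_lit 336019) (nat_lit 3) (.e (nat_lit 98333) (nat_lit 18) (.e (nat_lit 164182) (nat_lit 154) .nil)))))) (.g (nat_lit 0) .nil .nil))) 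
(.lf (nat_lit 162352) (.g (nat_lit 1882) (.e (nat_lit 57447) (nat_lit 19) (.e (nat_lit 393229) (nat_lit 9) (.e (nat_lit 336186) (nat_lit 11) (.e (nat_lit 368676) (nat_lit 21) (.e (nat_lit 516117) (nat_lit 1) (.e (nat_lit 164181) (nat_lit 154) .nil)))))) (.g (nat_lit 4) .nil .nil))))) (.nd (nat_lit 4) (.nd (nat_lit 5) 
(.lf (nat_lit 162312) (.g (nat_lit 2680) (.e (nat_lit 57447) (nat_lit 19) (.e (nat_lit 393229) (nat_lit 9) (.e (nat_lit 336087) (nat_lit 9) (.e (nat_lit 336019) (nat_lit 3) (.e (nat_lit 98334) (nat_lit 18) (.e (nat_lit 164180) (nat_lit 154) .nil)))))) (.g (nat_lit 5) .nil .nil))) 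
(.lf (nat_lit 162344) (.g (nat_lit 3214) (.e (nat_lit 57447) (nat_lit 19) (.e (nat_lit 393229) (nat_lit 9) (.e (nat_lit 336184) (nat_lit 11) (.e (nat_lit 368676) (nat_lit 21) (.e (nat_lit 516119) (nat_lit 1) (.e (nat_lit 164179) (nat_lit 154) .nil)))))) (.g (nat_lit 0) .nil .nil)))) (.nd (nat_lit 5) 
(.lf (nat_lit 162328) (.g (nat_lit 4024) (.e (nat_lit 57447) (nat_lit 19) (.e (nat_lit 393229) (nat_lit 9) (.e (nat_lit 336088) (nat_lit 9) (.e (nat_lit 336324) (nat_lit 18) (.e (nat_lit 204831) (nat_lit 18) (.e (nat_lit 57846) (nat_lit 252) .nil)))))) (.g (nat_lit 6) .nil .nil))) 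
(.lf (nat_lit 162360) (.g (nat_lit 3910) (.e (nat_lit 57447) (nat_lit 19) (.e (nat_lit 393229) (nat_lit 9) (.e (nat_lit 336194) (nat_lit 12) (.e (nat_lit 385066) (nat_lit 26) (.e (nat_lit 532499) (nat_lit 1) (.e (nat_lit 57847) (nat_lit 252) .nil)))))) (.g (nat_lit 0) .nil .nil)))))) (.nd (nat_lit 3) (.nd (nat_lit 4) (.nd (nat_lit 5) 
(.lf (nat_lit 162308) (.g (nat_lit 2851) (.e (nat_lit 57447) (nat_lit 19) (.e (nat_lit 393229) (nat_lit 9) (.e (nat_lit 336087) (nat_lit 9) (.e (nat_lit 336019) (nat_lit 3) (.e (nat_lit 98333) (nat_lit 18) (.e (nat_lit 164178) (nat_lit 154) .nil)))))) (.g (nat_lit 5) .nil .nil))) 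
(.lf (nat_lit 162340) (.g (nat_lit 2064) (.e (nat_lit 57447) (nat_lit 19) (.e (nat_lit 393229) (nat_lit 9) (.e (nat_lit 336184) (nat_lit 11) (.e (nat_lit 368676) (nat_lit 21) (.e (nat_lit 516117) (nat_lit 1) (.e (nat_lit 164176) (nat_lit 154) .nil)))))) (.g (nat_lit 4) .nil .nil)))) (.nd (nat_lit 5) 
(.lf (nat_lit 162324) (.g (nat_lit 4349) (.e (nat_lit 57447) (nat_lit 19) (.e (nat_lit 393229) (nat_lit 9) (.e (nat_lit 336088) (nat_lit 9) (.e (nat_lit 336019) (nat_lit 3) (.e (nat_lit 98334) (nat_lit 18) (.e (nat_lit 164182) (nat_lit 154) .nil)))))) (.g (nat_lit 0) .nil .nil))) 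
(.lf (nat_lit 162356) (.g (nat_lit 3384) (.e (nat_lit 57447) (nat_lit 19) (.e (nat_lit 393229) (nat_lit 9) (.e (nat_lit 336193) (nat_lit 12) (.e (nat_lit 385068) (nat_lit 26) (.e (nat_lit 532499) (nat_lit 1) (.e (nat_lit 57847) (nat_lit 252) .nil)))))) (.g (nat_lit 5) .nil .nil))))) (.nd (nat_lit 4) (.nd (nat_lit 5) 
(.lf (nat_lit 162316) (.g (nat_lit 3435) (.e (nat_lit 57447) (nat_lit 19) (.e (nat_lit 393229) (nat_lit 9) (.e (nat_lit 336087) (nat_lit 9) (.e (nat_lit 336019) (nat_lit 3) (.e (nat_lit 98335) (nat_lit 18) (.e (nat_lit 164178) (nat_lit 154) .nil)))))) (.g (nat_lit 0) .nil .nil))) 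
(.lf (nat_lit 162348) (.g (nat_lit 3056) (.e (nat_lit 57447) (nat_lit 19) (.e (nat_lit 393229) (nat_lit 9) (.e (nat_lit 336186) (nat_lit 11) (.e (nat_lit 368676) (nat_lit 21) (.e (nat_lit 516115) (nat_lit 1) (.e (nat_lit 164178) (nat_lit 154) .nil)))))) (.g (nat_lit 5) .nil .nil)))) (.nd (nat_lit 5) 
(.lf (nat_lit 162332) (.g (nat_lit 742) (.e (nat_lit 57447) (nat_lit 19) (.e (nat_lit 393229) (nat_lit 9) (.e (nat_lit 336091) (nat_lit 9) .nil))) .nil)) 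
(.lf (nat_lit 162364) (.g (nat_lit 3484) (.e (nat_lit 57447) (nat_lit 19) (.e (nat_lit 393229) (nat_lit 9) (.e (nat_lit 336194) (nat_lit 12) (.e (nat_lit 385068) (nat_lit 26) (.e (nat_lit 532503) (nat_lit 1) (.e (nat_lit 57847) (nat_lit 252) .nil)))))) (.g (nat_lit 0) .nil .nil))))))) (.nd (nat_lit 2) (.nd (nat_lit 3) (.nd (nat_lit 4) (.nd (nat_lit 5) 
(.lf (nat_lit 162306) (.g (nat_lit 2758) (.e (nat_lit 57447) (nat_lit 19) (.e (nat_lit 393229) (nat_lit 9) (.e (nat_lit 336086) (nat_lit 9) (.e (nat_lit 336326) (nat_lit 18) (.e (nat_lit 204831) (nat_lit 18) (.e (nat_lit 57852) (nat_lit 252) .nil)))))) (.g (nat_lit 5) .nil .nil))) 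
(.lf (nat_lit 162338) (.g (nat_lit 3074) (.e (nat_lit 57447) (nat_lit 19) (.e (nat_lit 393229) (nat_lit 9) (.e (nat_lit 336184) (nat_lit 11) (.e (nat_lit 368676) (nat_lit 21) (.e (nat_lit 516115) (nat_lit 1) (.e (nat_lit 164178) (nat_lit 154) .nil)))))) (.g (nat_lit 5) .nil .nil)))) (.nd (nat_lit 5) 
(.lf (nat_lit 162322) (.g (nat_lit 2790) (.e (nat_lit 57447) (nat_lit 19) (.e (nat_lit 393229) (nat_lit 9) (.e (nat_lit 336088) (nat_lit 9) (.e (nat_lit 336019) (nat_lit 3) (.e (nat_lit 98334) (nat_lit 18) (.e (nat_lit 164180) (nat_lit 154) .nil)))))) (.g (nat_lit 5) .nil .nil))) 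
(.lf (nat_lit 162354) (.g (nat_lit 3389) (.e (nat_lit 57447) (nat_lit 19) (.e (nat_lit 393229) (nat_lit 9) (.e (nat_lit 336186) (nat_lit 11) (.e (nat_lit 368676) (nat_lit 21) (.e (nat_lit 516119) (nat_lit 1) (.e (nat_lit 164179) (nat_lit 154) .nil)))))) (.g (nat_lit 0) .nil .nil))))) (.nd (nat_lit 4) (.nd (nat_lit 5) 
(.lf (nat_lit 162314) (.g (nat_lit 4134) (.e (nat_lit 57447) (nat_lit 19) (.e (nat_lit 393229) (nat_lit 9) (.e (nat_lit 336087) (nat_lit 9) (.e (nat_lit 336019) (nat_lit 3) (.e (nat_lit 98334) (nat_lit 18) (.e (nat_lit 164182) (nat_lit 154) .nil)))))) (.g (nat_lit 0) .nil .nil))) 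
(.lf (nat_lit 162346) (.g (nat_lit 742) (.e (nat_lit 57447) (nat_lit 19) (.e (nat_lit 393229) (nat_lit 9) (.e (nat_lit 336185) (nat_lit 11) .nil))) .nil))) (.nd (nat_lit 5) 
(.lf (nat_lit 162330) (.g (nat_lit 3466) (.e (nat_lit 57447) (nat_lit 19) (.e (nat_lit 393229) (nat_lit 9) (.e (nat_lit 336088) (nat_lit 9) (.e (nat_lit 336326) (nat_lit 18) (.e (nat_lit 204829) (nat_lit 18) (.e (nat_lit 57847) (nat_lit 252) .nil)))))) (.g (nat_lit 0) .nil .nil))) 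
(.lf (nat_lit 162362) (.g (nat_lit 3372) (.e (nat_lit 57447) (nat_lit 19) (.e (nat_lit 393229) (nat_lit 9) (.e (nat_lit 336194) (nat_lit 12) (.e (nat_lit 385066) (nat_lit 26) (.e (nat_lit 532503) (nat_lit 1) (.e (nat_lit 57847) (nat_lit 252) .nil)))))) (.g (nat_lit 0) .nil .nil)))))) (.nd (nat_lit 3) (.nd (nat_lit 4) (.nd (nat_lit 5) 
(.lf (nat_lit 162310) (.g (nat_lit 3944) (.e (nat_lit 57447) (nat_lit 19) (.e (nat_lit 393229) (nat_lit 9) (.e (nat_lit 336087) (nat_lit 9) (.e (nat_lit 336019) (nat_lit 3) (.e (nat_lit 98333) (nat_lit 18) (.e (nat_lit 164182) (nat_lit 154) .nil)))))) (.g (nat_lit 0) .nil .nil))) 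
(.lf (nat_lit 162342) (.g (nat_lit 3474) (.e (nat_lit 57447) (nat_lit 19) (.e (nat_lit 393229) (nat_lit 9) (.e (nat_lit 336184) (nat_lit 11) (.e (nat_lit 368676) (nat_lit 21) (.e (nat_lit 516117) (nat_lit 1) (.e (nat_lit 164182) (nat_lit 154) .nil)))))) (.g (nat_lit 0) .nil .nil)))) (.nd (nat_lit 5) 
(.lf (nat_lit 162326) (.g (nat_lit 2218) (.e (nat_lit 57447) (nat_lit 19) (.e (nat_lit 393229) (nat_lit 9) (.e (nat_lit 336088) (nat_lit 9) (.e (nat_lit 336322) (nat_lit 18) (.e (nat_lit 204830) (nat_lit 18) (.e (nat_lit 57854) (nat_lit 252) .nil)))))) (.g (nat_lit 4) .nil .nil))) 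
(.lf (nat_lit 162358) (.g (nat_lit 2975) (.e (nat_lit 57447) (nat_lit 19) (.e (nat_lit 393229) (nat_lit 9) (.e (nat_lit 336193) (nat_lit 12) (.e (nat_lit 385068) (nat_lit 26) (.e (nat_lit 532503) (nat_lit 1) (.e (nat_lit 57847) (nat_lit 252) .nil)))))) (.g (nat_lit 4) .nil .nil))))) (.nd (nat_lit 4) (.nd (nat_lit 5) 
(.lf (nat_lit 162318) (.g (nat_lit 2774) (.e (nat_lit 57447) (nat_lit 19) (.e (nat_lit 393229) (nat_lit 9) (.e (nat_lit 336088) (nat_lit 9) (.e (nat_lit 336019) (nat_lit 3) (.e (nat_lit 98333) (nat_lit 18) (.e (nat_lit 164177) (nat_lit 154) .nil)))))) (.g (nat_lit 4) .nil .nil))) 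
(.lf (nat_lit 162350) (.g (nat_lit 2069) (.e (nat_lit 57447) (nat_lit 19) (.e (nat_lit 393229) (nat_lit 9) (.e (nat_lit 336186) (nat_lit 11) (.e (nat_lit 368676) (nat_lit 21) (.e (nat_lit 516117) (nat_lit 1) (.e (nat_lit 164176) (nat_lit 154) .nil)))))) (.g (nat_lit 4) .nil .nil)))) (.nd (nat_lit 5) 
(.lf (nat_lit 162334) (.g (nat_lit 688) (.e (nat_lit 57447) (nat_lit 19) (.e (nat_lit 393229) (nat_lit 9) (.e (nat_lit 336107) (nat_lit 9) .nil))) .nil)) 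
(.lf (nat_lit 162366) (.g (nat_lit 3292) (.e (nat_lit 57447) (nat_lit 19) (.e (nat_lit 393229) (nat_lit 9) (.e (nat_lit 336195) (nat_lit 12) (.e (nat_lit 385066) (nat_lit 26) (.e (nat_lit 532499) (nat_lit 1) (.e (nat_lit 57847) (nat_lit 252) .nil)))))) (.g (nat_lit 5) .nil .nil)))))))) (.nd (nat_lit 1) (.nd (nat_lit 2) (.nd (nat_lit 3) (.nd (nat_lit 4) (.nd (nat_lit 5) 
(.lf (nat_lit 162305) (.g (nat_lit 2392) (.e (nat_lit 57447) (nat_lit 19) (.e (nat_lit 393229) (nat_lit 9) (.e (nat_lit 336086) (nat_lit 9) (.e (nat_lit 336326) (nat_lit 18) (.e (nat_lit 204831) (nat_lit 18) (.e (nat_lit 57847) (nat_lit 252) .nil)))))) (.g (nat_lit 4) .nil .nil))) 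
(.lf (nat_lit 162337) (.g (nat_lit 742) (.e (nat_lit 57447) (nat_lit 19) (.e (nat_lit 393229) (nat_lit 9) (.e (nat_lit 336183) (nat_lit 11) .nil))) .nil))) (.nd (nat_lit 5) 
(.lf (nat_lit 162321) (.g (nat_lit 2849) (.e (nat_lit 57447) (nat_lit 19) (.e (nat_lit 393229) (nat_lit 9) (.e (nat_lit 336088) (nat_lit 9) (.e (nat_lit 336019) (nat_lit 3) (.e (nat_lit 98334) (nat_lit 18) (.e (nat_lit 164176) (nat_lit 154) .nil)))))) (.g (nat_lit 5) .nil .nil))) 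
(.lf (nat_lit 162353) (.g (nat_lit 3644) (.e (nat_lit 57447) (nat_lit 19) (.e (nat_lit 393229) (nat_lit 9) (.e (nat_lit 336186) (nat_lit 11) (.e (nat_lit 368676) (nat_lit 21) (.e (nat_lit 516117) (nat_lit 1) (.e (nat_lit 164182) (nat_lit 154) .nil)))))) (.g (nat_lit 0) .nil .nil))))) (.nd (nat_lit 4) (.nd (nat_lit 5) 
(.lf (nat_lit 162313) (.g (nat_lit 2108) (.e (nat_lit 57447) (nat_lit 19) (.e (nat_lit 393229) (nat_lit 9) (.e (nat_lit 336087) (nat_lit 9) (.e (nat_lit 336019) (nat_lit 3) (.e (nat_lit 98334) (nat_lit 18) (.e (nat_lit 164181) (nat_lit 154) .nil)))))) (.g (nat_lit 4) .nil .nil))) 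
(.lf (nat_lit 162345) (.g (nat_lit 3616) (.e (nat_lit 57447) (nat_lit 19) (.e (nat_lit 393229) (nat_lit 9) (.e (nat_lit 336184) (nat_lit 11) (.e (nat_lit 368676) (nat_lit 21) (.e (nat_lit 516120) (nat_lit 1) (.e (nat_lit 164182) (nat_lit 154) .nil)))))) (.g (nat_lit 0) .nil .nil)))) (.nd (nat_lit 5) 
(.lf (nat_lit 162329) (.g (nat_lit 3766) (.e (nat_lit 57447) (nat_lit 19) (.e (nat_lit 393229) (nat_lit 9) (.e (nat_lit 336088) (nat_lit 9) (.e (nat_lit 336324) (nat_lit 18) (.e (nat_lit 204831) (nat_lit 18) (.e (nat_lit 57847) (nat_lit 252) .nil)))))) (.g (nat_lit 0) .nil .nil))) 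
(.lf (nat_lit 162361) (.g (nat_lit 3464) (.e (nat_lit 57447) (nat_lit 19) (.e (nat_lit 393229) (nat_lit 9) (.e (nat_lit 336194) (nat_lit 12) (.e (nat_lit 385066) (nat_lit 26) (.e (nat_lit 532503) (nat_lit 1) (.e (nat_lit 57846) (nat_lit 252) .nil)))))) (.g (nat_lit 6) .nil .nil)))))) (.nd (nat_lit 3) (.nd (nat_lit 4) (.nd (nat_lit 5) 
(.lf (nat_lit 162309) (.g (nat_lit 3977) (.e (nat_lit 57447) (nat_lit 19) (.e (nat_lit 393229) (nat_lit 9) (.e (nat_lit 336087) (nat_lit 9) (.e (nat_lit 336019) (nat_lit 3) (.e (nat_lit 98333) (nat_lit 18) (.e (nat_lit 164179) (nat_lit 154) .nil)))))) (.g (nat_lit 0) .nil .nil))) 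
(.lf (nat_lit 162341) (.g (nat_lit 1861) (.e (nat_lit 57447) (nat_lit 19) (.e (nat_lit 393229) (nat_lit 9) (.e (nat_lit 336184) (nat_lit 11) (.e (nat_lit 368676) (nat_lit 21) (.e (nat_lit 516117) (nat_lit 1) (.e (nat_lit 164181) (nat_lit 154) .nil)))))) (.g (nat_lit 4) .nil .nil)))) (.nd (nat_lit 5) 
(.lf (nat_lit 162325) (.g (nat_lit 2113) (.e (nat_lit 57447) (nat_lit 19) (.e (nat_lit 393229) (nat_lit 9) (.e (nat_lit 336088) (nat_lit 9) (.e (nat_lit 336019) (nat_lit 3) (.e (nat_lit 98335) (nat_lit 18) (.e (nat_lit 164176) (nat_lit 154) .nil)))))) (.g (nat_lit 4) .nil .nil))) 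
(.lf (nat_lit 162357) (.g (nat_lit 3403) (.e (nat_lit 57447) (nat_lit 19) (.e (nat_lit 393229) (nat_lit 9) (.e (nat_lit 336193) (nat_lit 12) (.e (nat_lit 385068) (nat_lit 26) (.e (nat_lit 532501) (nat_lit 1) (.e (nat_lit 57854) (nat_lit 252) .nil)))))) (.g (nat_lit 5) .nil .nil))))) (.nd (nat_lit 4) (.nd (nat_lit 5) 
(.lf (nat_lit 162317) (.g (nat_lit 3570) (.e (nat_lit 57447) (nat_lit 19) (.e (nat_lit 393229) (nat_lit 9) (.e (nat_lit 336087) (nat_lit 9) (.e (nat_lit 336019) (nat_lit 3) (.e (nat_lit 98335) (nat_lit 18) (.e (nat_lit 164179) (nat_lit 154) .nil)))))) (.g (nat_lit 0) .nil .nil))) 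
(.lf (nat_lit 162349) (.g (nat_lit 3434) (.e (nat_lit 57447) (nat_lit 19) (.e (nat_lit 393229) (nat_lit 9) (.e (nat_lit 336186) (nat_lit 11) (.e (nat_lit 368676) (nat_lit 21) (.e (nat_lit 516115) (nat_lit 1) (.e (nat_lit 164182) (nat_lit 154) .nil)))))) (.g (nat_lit 0) .nil .nil)))) (.nd (nat_lit 5) 
(.lf (nat_lit 162333) (.g (nat_lit 742) (.e (nat_lit 57447) (nat_lit 19) (.e (nat_lit 393229) (nat_lit 9) (.e (nat_lit 336100) (nat_lit 9) .nil))) .nil)) 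
(.lf (nat_lit 162365) (.g (nat_lit 2959) (.e (nat_lit 57447) (nat_lit 19) (.e (nat_lit 393229) (nat_lit 9) (.e (nat_lit 336194) (nat_lit 12) (.e (nat_lit 385068) (nat_lit 26) (.e (nat_lit 532504) (nat_lit 1) (.e (nat_lit 57852) (nat_lit 252) .nil)))))) (.g (nat_lit 5) .nil .nil))))))) (.nd (nat_lit 2) (.nd (nat_lit 3) (.nd (nat_lit 4) (.nd (nat_lit 5) 
(.lf (nat_lit 162307) (.g (nat_lit 2607) (.e (nat_lit 57447) (nat_lit 19) (.e (nat_lit 393229) (nat_lit 9) (.e (nat_lit 336087) (nat_lit 9) (.e (nat_lit 336019) (nat_lit 3) (.e (nat_lit 98333) (nat_lit 18) (.e (nat_lit 164177) (nat_lit 154) .nil)))))) (.g (nat_lit 4) .nil .nil))) 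
(.lf (nat_lit 162339) (.g (nat_lit 3265) (.e (nat_lit 57447) (nat_lit 19) (.e (nat_lit 393229) (nat_lit 9) (.e (nat_lit 336184) (nat_lit 11) (.e (nat_lit 368676) (nat_lit 21) (.e (nat_lit 516115) (nat_lit 1) (.e (nat_lit 164182) (nat_lit 154) .nil)))))) (.g (nat_lit 0) .nil .nil)))) (.nd (nat_lit 5) 
(.lf (nat_lit 162323) (.g (nat_lit 2235) (.e (nat_lit 57447) (nat_lit 19) (.e (nat_lit 393229) (nat_lit 9) (.e (nat_lit 336088) (nat_lit 9) (.e (nat_lit 336019) (nat_lit 3) (.e (nat_lit 98334) (nat_lit 18) (.e (nat_lit 164181) (nat_lit 154) .nil)))))) (.g (nat_lit 4) .nil .nil))) 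
(.lf (nat_lit 162355) (.g (nat_lit 3738) (.e (nat_lit 57447) (nat_lit 19) (.e (nat_lit 393229) (nat_lit 9) (.e (nat_lit 336186) (nat_lit 11) (.e (nat_lit 368676) (nat_lit 21) (.e (nat_lit 516120) (nat_lit 1) (.e (nat_lit 164182) (nat_lit 154) .nil)))))) (.g (nat_lit 0) .nil .nil))))) (.nd (nat_lit 4) (.nd (nat_lit 5) 
(.lf (nat_lit 162315) (.g (nat_lit 1959) (.e (nat_lit 57447) (nat_lit 19) (.e (nat_lit 393229) (nat_lit 9) (.e (nat_lit 336087) (nat_lit 9) (.e (nat_lit 336019) (nat_lit 3) (.e (nat_lit 98335) (nat_lit 18) (.e (nat_lit 164176) (nat_lit 154) .nil)))))) (.g (nat_lit 4) .nil .nil))) 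
(.lf (nat_lit 162347) (.g (nat_lit 1298) (.e (nat_lit 57447) (nat_lit 19) (.e (nat_lit 393229) (nat_lit 9) (.e (nat_lit 336186) (nat_lit 11) (.e (nat_lit 368676) (nat_lit 21) (.e (nat_lit 516100) (nat_lit 0) .nil))))) .nil))) (.nd (nat_lit 5) 
(.lf (nat_lit 162331) (.g (nat_lit 3120) (.e (nat_lit 57447) (nat_lit 19) (.e (nat_lit 393229) (nat_lit 9) (.e (nat_lit 336088) (nat_lit 9) (.e (nat_lit 336326) (nat_lit 18) (.e (nat_lit 204831) (nat_lit 18) (.e (nat_lit 57847) (nat_lit 252) .nil)))))) (.g (nat_lit 0) .nil .nil))) 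
(.lf (nat_lit 162363) (.g (nat_lit 3944) (.e (nat_lit 57447) (nat_lit 19) (.e (nat_lit 393229) (nat_lit 9) (.e (nat_lit 336194) (nat_lit 12) (.e (nat_lit 385068) (nat_lit 26) (.e (nat_lit 532499) (nat_lit 1) (.e (nat_lit 57847) (nat_lit 252) .nil)))))) (.g (nat_lit 0) .nil .nil)))))) (.nd (nat_lit 3) (.nd (nat_lit 4) (.nd (nat_lit 5) 
(.lf (nat_lit 162311) (.g (nat_lit 2692) (.e (nat_lit 57447) (nat_lit 19) (.e (nat_lit 393229) (nat_lit 9) (.e (nat_lit 336087) (nat_lit 9) (.e (nat_lit 336019) (nat_lit 3) (.e (nat_lit 98334) (nat_lit 18) (.e (nat_lit 164176) (nat_lit 154) .nil)))))) (.g (nat_lit 5) .nil .nil))) 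
(.lf (nat_lit 162343) (.g (nat_lit 3329) (.e (nat_lit 57447) (nat_lit 19) (.e (nat_lit 393229) (nat_lit 9) (.e (nat_lit 336184) (nat_lit 11) (.e (nat_lit 368676) (nat_lit 21) (.e (nat_lit 516118) (nat_lit 1) (.e (nat_lit 164182) (nat_lit 154) .nil)))))) (.g (nat_lit 0) .nil .nil)))) (.nd (nat_lit 5) 
(.lf (nat_lit 162327) (.g (nat_lit 3906) (.e (nat_lit 57447) (nat_lit 19) (.e (nat_lit 393229) (nat_lit 9) (.e (nat_lit 336088) (nat_lit 9) (.e (nat_lit 336324) (nat_lit 18) (.e (nat_lit 204829) (nat_lit 18) (.e (nat_lit 57847) (nat_lit 252) .nil)))))) (.g (nat_lit 0) .nil .nil))) 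
(.lf (nat_lit 162359) (.g (nat_lit 3462) (.e (nat_lit 57447) (nat_lit 19) (.e (nat_lit 393229) (nat_lit 9) (.e (nat_lit 336193) (nat_lit 12) (.e (nat_lit 385068) (nat_lit 26) (.e (nat_lit 532504) (nat_lit 1) (.e (nat_lit 57854) (nat_lit 252) .nil)))))) (.g (nat_lit 6) .nil .nil))))) (.nd (nat_lit 4) (.nd (nat_lit 5) 
(.lf (nat_lit 162319) (.g (nat_lit 2990) (.e (nat_lit 57447) (nat_lit 19) (.e (nat_lit 393229) (nat_lit 9) (.e (nat_lit 336088) (nat_lit 9) (.e (nat_lit 336019) (nat_lit 3) (.e (nat_lit 98333) (nat_lit 18) (.e (nat_lit 164178) (nat_lit 154) .nil)))))) (.g (nat_lit 5) .nil .nil))) 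
(.lf (nat_lit 162351) (.g (nat_lit 2260) (.e (nat_lit 57447) (nat_lit 19) (.e (nat_lit 393229) (nat_lit 9) (.e (nat_lit 336186) (nat_lit 11) (.e (nat_lit 368676) (nat_lit 21) (.e (nat_lit 516117) (nat_lit 1) (.e (nat_lit 164180) (nat_lit 154) .nil)))))) (.g (nat_lit 4) .nil .nil)))) (.nd (nat_lit 5) 
(.lf (nat_lit 162335) (.g (nat_lit 742) (.e (nat_lit 57447) (nat_lit 19) (.e (nat_lit 393229) (nat_lit 9) (.e (nat_lit 336150) (nat_lit 9) .nil))) .nil)) 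
(.lf (nat_lit 162367) (.g (nat_lit 2875) (.e (nat_lit 57447) (nat_lit 19) (.e (nat_lit 393229) (nat_lit 9) (.e (nat_lit 336195) (nat_lit 12) (.e (nat_lit 385066) (nat_lit 26) (.e (nat_lit 532499) (nat_lit 1) (.e (nat_lit 57854) (nat_lit 252) .nil)))))) (.g (nat_lit 5) .nil .nil)))))))))

noncomputable def tv2177 : DT := (.nd (nat_lit 0) (.nd (nat_lit 1) (.nd (nat_lit 2) (.nd (nat_lit 3) (.nd (nat_lit 4) (.nd (nat_lit 5) 
(.lf (nat_lit 162368) (.g (nat_lit 2690) (.e (nat_lit 57447) (nat_lit 19) (.e (nat_lit 393229) (nat_lit 9) (.e (nat_lit 336195) (nat_lit 12) (.e (nat_lit 385066) (nat_lit 26) (.e (nat_lit 532501) (nat_lit 1) (.e (nat_lit 57854) (nat_lit 252) .nil)))))) (.g (nat_lit 5) .nil .nil))) 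
(.lf (nat_lit 162400) (.g (nat_lit 3373) (.e (nat_lit 57447) (nat_lit 19) (.e (nat_lit 393229) (nat_lit 9) (.e (nat_lit 336202) (nat_lit 12) (.e (nat_lit 385066) (nat_lit 26) (.e (nat_lit 532504) (nat_lit 1) (.e (nat_lit 57854) (nat_lit 252) .nil)))))) (.g (nat_lit 6) .nil .nil)))) (.nd (nat_lit 5) 
(.lf (nat_lit 162384) (.g (nat_lit 3823) (.e (nat_lit 57447) (nat_lit 19) (.e (nat_lit 393229) (nat_lit 9) (.e (nat_lit 336196) (nat_lit 12) (.e (nat_lit 385068) (nat_lit 26) (.e (nat_lit 532504) (nat_lit 1) (.e (nat_lit 57854) (nat_lit 252) .nil)))))) (.g (nat_lit 0) .nil .nil))) 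
(.lf (nat_lit 162416) (.g (nat_lit 3641) (.e (nat_lit 57447) (nat_lit 19) (.e (nat_lit 393229) (nat_lit 9) (.e (nat_lit 336203) (nat_lit 12) (.e (nat_lit 385066) (nat_lit 26) (.e (nat_lit 532504) (nat_lit 1) (.e (nat_lit 57854) (nat_lit 252) .nil)))))) (.g (nat_lit 0) .nil .nil))))) (.nd (nat_lit 4) (.nd (nat_lit 5) 
(.lf (nat_lit 162376) (.g (nat_lit 3298) (.e (nat_lit 57447) (nat_lit 19) (.e (nat_lit 393229) (nat_lit 9) (.e (nat_lit 336196) (nat_lit 12) (.e (nat_lit 385066) (nat_lit 26) (.e (nat_lit 532501) (nat_lit 1) (.e (nat_lit 57854) (nat_lit 252) .nil)))))) (.g (nat_lit 0) .nil .nil))) 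
(.lf (nat_lit 162408) (.g (nat_lit 3133) (.e (nat_lit 57447) (nat_lit 19) (.e (nat_lit 393229) (nat_lit 9) (.e (nat_lit 336203) (nat_lit 12) (.e (nat_lit 385066) (nat_lit 26) (.e (nat_lit 532499) (nat_lit 1) (.e (nat_lit 57847) (nat_lit 252) .nil)))))) (.g (nat_lit 4) .nil .nil)))) (.nd (nat_lit 5) 
(.lf (nat_lit 162392) (.g (nat_lit 3465) (.e (nat_lit 57447) (nat_lit 19) (.e (nat_lit 393229) (nat_lit 9) (.e (nat_lit 336202) (nat_lit 12) (.e (nat_lit 385066) (nat_lit 26) (.e (nat_lit 532499) (nat_lit 1) (.e (nat_lit 57854) (nat_lit 252) .nil)))))) (.g (nat_lit 6) .nil .nil))) 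
(.lf (nat_lit 162424) (.g (nat_lit 2650) (.e (nat_lit 57447) (nat_lit 19) (.e (nat_lit 393229) (nat_lit 9) (.e (nat_lit 336203) (nat_lit 12) (.e (nat_lit 385068) (nat_lit 26) (.e (nat_lit 532500) (nat_lit 1) (.e (nat_lit 57854) (nat_lit 252) .nil)))))) (.g (nat_lit 4) .nil .nil)))))) (.nd (nat_lit 3) (.nd (nat_lit 4) (.nd (nat_lit 5) 
(.lf (nat_lit 162372) (.g (nat_lit 2860) (.e (nat_lit 57447) (nat_lit 19) (.e (nat_lit 393229) (nat_lit 9) (.e (nat_lit 336195) (nat_lit 12) (.e (nat_lit 385068) (nat_lit 26) (.e (nat_lit 532499) (nat_lit 1) (.e (nat_lit 57847) (nat_lit 252) .nil)))))) (.g (nat_lit 4) .nil .nil))) 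
(.lf (nat_lit 162404) (.g (nat_lit 3469) (.e (nat_lit 57447) (nat_lit 19) (.e (nat_lit 393229) (nat_lit 9) (.e (nat_lit 336202) (nat_lit 12) (.e (nat_lit 385068) (nat_lit 26) (.e (nat_lit 532504) (nat_lit 1) (.e (nat_lit 57854) (nat_lit 252) .nil)))))) (.g (nat_lit 0) .nil .nil)))) (.nd (nat_lit 5) 
(.lf (nat_lit 162388) (.g (nat_lit 3622) (.e (nat_lit 57447) (nat_lit 19) (.e (nat_lit 393229) (nat_lit 9) (.e (nat_lit 336201) (nat_lit 12) (.e (nat_lit 385068) (nat_lit 26) (.e (nat_lit 532504) (nat_lit 1) (.e (nat_lit 57854) (nat_lit 252) .nil)))))) (.g (nat_lit 0) .nil .nil))) 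
(.lf (nat_lit 162420) (.g (nat_lit 3398) (.e (nat_lit 57447) (nat_lit 19) (.e (nat_lit 393229) (nat_lit 9) (.e (nat_lit 336203) (nat_lit 12) (.e (nat_lit 385067) (nat_lit 26) (.e (nat_lit 532503) (nat_lit 1) (.e (nat_lit 57854) (nat_lit 252) .nil)))))) (.g (nat_lit 6) .nil .nil))))) (.nd (nat_lit 4) (.nd (nat_lit 5) 
(.lf (nat_lit 162380) (.g (nat_lit 3454) (.e (nat_lit 57447) (nat_lit 19) (.e (nat_lit 393229) (nat_lit 9) (.e (nat_lit 336196) (nat_lit 12) (.e (nat_lit 385066) (nat_lit 26) (.e (nat_lit 532504) (nat_lit 1) (.e (nat_lit 57854) (nat_lit 252) .nil)))))) (.g (nat_lit 0) .nil .nil))) 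
(.lf (nat_lit 162412) (.g (nat_lit 3662) (.e (nat_lit 57447) (nat_lit 19) (.e (nat_lit 393229) (nat_lit 9) (.e (nat_lit 336203) (nat_lit 12) (.e (nat_lit 385066) (nat_lit 26) (.e (nat_lit 532502) (nat_lit 1) (.e (nat_lit 57854) (nat_lit 252) .nil)))))) (.g (nat_lit 0) .nil .nil)))) (.nd (nat_lit 5) 
(.lf (nat_lit 162396) (.g (nat_lit 3139) (.e (nat_lit 57447) (nat_lit 19) (.e (nat_lit 393229) (nat_lit 9) (.e (nat_lit 336202) (nat_lit 12) (.e (nat_lit 385066) (nat_lit 26) (.e (nat_lit 532502) (nat_lit 1) (.e (nat_lit 57854) (nat_lit 252) .nil)))))) (.g (nat_lit 6) .nil .nil))) 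
(.lf (nat_lit 162428) (.g (nat_lit 3298) (.e (nat_lit 57447) (nat_lit 19) (.e (nat_lit 393229) (nat_lit 9) (.e (nat_lit 336203) (nat_lit 12) (.e (nat_lit 385068) (nat_lit 26) (.e (nat_lit 532504) (nat_lit 1) (.e (nat_lit 57852) (nat_lit 252) .nil)))))) (.g (nat_lit 5) .nil .nil))))))) (.nd (nat_lit 2) (.nd (nat_lit 3) (.nd (nat_lit 4) (.nd (nat_lit 5) 
(.lf (nat_lit 162370) (.g (nat_lit 3106) (.e (nat_lit 57447) (nat_lit 19) (.e (nat_lit 393229) (nat_lit 9) (.e (nat_lit 336195) (nat_lit 12) (.e (nat_lit 385066) (nat_lit 26) (.e (nat_lit 532504) (nat_lit 1) (.e (nat_lit 57852) (nat_lit 252) .nil)))))) (.g (nat_lit 5) .nil .nil))) 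
(.lf (nat_lit 162402) (.g (nat_lit 3617) (.e (nat_lit 57447) (nat_lit 19) (.e (nat_lit 393229) (nat_lit 9) (.e (nat_lit 336202) (nat_lit 12) (.e (nat_lit 385068) (nat_lit 26) (.e (nat_lit 532501) (nat_lit 1) (.e (nat_lit 57854) (nat_lit 252) .nil)))))) (.g (nat_lit 0) .nil .nil)))) (.nd (nat_lit 5) 
(.lf (nat_lit 162386) (.g (nat_lit 3617) (.e (nat_lit 57447) (nat_lit 19) (.e (nat_lit 393229) (nat_lit 9) (.e (nat_lit 336201) (nat_lit 12) (.e (nat_lit 385068) (nat_lit 26) (.e (nat_lit 532501) (nat_lit 1) (.e (nat_lit 57854) (nat_lit 252) .nil)))))) (.g (nat_lit 0) .nil .nil))) 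
(.lf (nat_lit 162418) (.g (nat_lit 3429) (.e (nat_lit 57447) (nat_lit 19) (.e (nat_lit 393229) (nat_lit 9) (.e (nat_lit 336203) (nat_lit 12) (.e (nat_lit 385067) (nat_lit 26) (.e (nat_lit 532501) (nat_lit 1) (.e (nat_lit 57854) (nat_lit 252) .nil)))))) (.g (nat_lit 0) .nil .nil))))) (.nd (nat_lit 4) (.nd (nat_lit 5) 
(.lf (nat_lit 162378) (.g (nat_lit 3157) (.e (nat_lit 57447) (nat_lit 19) (.e (nat_lit 393229) (nat_lit 9) (.e (nat_lit 336196) (nat_lit 12) (.e (nat_lit 385066) (nat_lit 26) (.e (nat_lit 532502) (nat_lit 1) (.e (nat_lit 57854) (nat_lit 252) .nil)))))) (.g (nat_lit 6) .nil .nil))) 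
(.lf (nat_lit 162410) (.g (nat_lit 3495) (.e (nat_lit 57447) (nat_lit 19) (.e (nat_lit 393229) (nat_lit 9) (.e (nat_lit 336203) (nat_lit 12) (.e (nat_lit 385066) (nat_lit 26) (.e (nat_lit 532501) (nat_lit 1) (.e (nat_lit 57854) (nat_lit 252) .nil)))))) (.g (nat_lit 0) .nil .nil)))) (.nd (nat_lit 5) 
(.lf (nat_lit 162394) (.g (nat_lit 3149) (.e (nat_lit 57447) (nat_lit 19) (.e (nat_lit 393229) (nat_lit 9) (.e (nat_lit 336202) (nat_lit 12) (.e (nat_lit 385066) (nat_lit 26) (.e (nat_lit 532501) (nat_lit 1) (.e (nat_lit 57854) (nat_lit 252) .nil)))))) (.g (nat_lit 6) .nil .nil))) 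
(.lf (nat_lit 162426) (.g (nat_lit 3746) (.e (nat_lit 57447) (nat_lit 19) (.e (nat_lit 393229) (nat_lit 9) (.e (nat_lit 336203) (nat_lit 12) (.e (nat_lit 385068) (nat_lit 26) (.e (nat_lit 532503) (nat_lit 1) (.e (nat_lit 57846) (nat_lit 252) .nil)))))) (.g (nat_lit 5) .nil .nil)))))) (.nd (nat_lit 3) (.nd (nat_lit 4) (.nd (nat_lit 5) 
(.lf (nat_lit 162374) (.g (nat_lit 3766) (.e (nat_lit 57447) (nat_lit 19) (.e (nat_lit 393229) (nat_lit 9) (.e (nat_lit 336196) (nat_lit 12) (.e (nat_lit 385066) (nat_lit 26) (.e (nat_lit 532499) (nat_lit 1) (.e (nat_lit 57847) (nat_lit 252) .nil)))))) (.g (nat_lit 6) .nil .nil))) 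
(.lf (nat_lit 162406) (.g (nat_lit 3180) (.e (nat_lit 57447) (nat_lit 19) (.e (nat_lit 393229) (nat_lit 9) (.e (nat_lit 336203) (nat_lit 12) (.e (nat_lit 385065) (nat_lit 26) (.e (nat_lit 532499) (nat_lit 1) (.e (nat_lit 57854) (nat_lit 252) .nil)))))) (.g (nat_lit 5) .nil .nil)))) (.nd (nat_lit 5) 
(.lf (nat_lit 162390) (.g (nat_lit 2016) (.e (nat_lit 57447) (nat_lit 19) (.e (nat_lit 393229) (nat_lit 9) (.e (nat_lit 336202) (nat_lit 12) (.e (nat_lit 385065) (nat_lit 26) (.e (nat_lit 532501) (nat_lit 1) (.e (nat_lit 57854) (nat_lit 252) .nil)))))) (.g (nat_lit 4) .nil .nil))) 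
(.lf (nat_lit 162422) (.g (nat_lit 3401) (.e (nat_lit 57447) (nat_lit 19) (.e (nat_lit 393229) (nat_lit 9) (.e (nat_lit 336203) (nat_lit 12) (.e (nat_lit 385068) (nat_lit 26) (.e (nat_lit 532499) (nat_lit 1) (.e (nat_lit 57847) (nat_lit 252) .nil)))))) (.g (nat_lit 5) .nil .nil))))) (.nd (nat_lit 4) (.nd (nat_lit 5) 
(.lf (nat_lit 162382) (.g (nat_lit 3814) (.e (nat_lit 57447) (nat_lit 19) (.e (nat_lit 393229) (nat_lit 9) (.e (nat_lit 336196) (nat_lit 12) (.e (nat_lit 385068) (nat_lit 26) (.e (nat_lit 532501) (nat_lit 1) (.e (nat_lit 57854) (nat_lit 252) .nil)))))) (.g (nat_lit 0) .nil .nil))) 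
(.lf (nat_lit 162414) (.g (nat_lit 2649) (.e (nat_lit 57447) (nat_lit 19) (.e (nat_lit 393229) (nat_lit 9) (.e (nat_lit 336203) (nat_lit 12) (.e (nat_lit 385066) (nat_lit 26) (.e (nat_lit 532503) (nat_lit 1) (.e (nat_lit 57847) (nat_lit 252) .nil)))))) (.g (nat_lit 4) .nil .nil)))) (.nd (nat_lit 5) 
(.lf (nat_lit 162398) (.g (nat_lit 2963) (.e (nat_lit 57447) (nat_lit 19) (.e (nat_lit 393229) (nat_lit 9) (.e (nat_lit 336202) (nat_lit 12) (.e (nat_lit 385066) (nat_lit 26) (.e (nat_lit 532503) (nat_lit 1) (.e (nat_lit 57847) (nat_lit 252) .nil)))))) (.g (nat_lit 5) .nil .nil))) 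
(.lf (nat_lit 162430) (.g (nat_lit 3948) (.e (nat_lit 57447) (nat_lit 19) (.e (nat_lit 393229) (nat_lit 9) (.e (nat_lit 336204) (nat_lit 12) (.e (nat_lit 385066) (nat_lit 26) (.e (nat_lit 532499) (nat_lit 1) (.e (nat_lit 57847) (nat_lit 252) .nil)))))) (.g (nat_lit 0) .nil .nil)))))))) (.nd (nat_lit 1) (.nd (nat_lit 2) (.nd (nat_lit 3) (.nd (nat_lit 4) (.nd (nat_lit 5) 
(.lf (nat_lit 162369) (.g (nat_lit 2396) (.e (nat_lit 57447) (nat_lit 19) (.e (nat_lit 393229) (nat_lit 9) (.e (nat_lit 336195) (nat_lit 12) (.e (nat_lit 385066) (nat_lit 26) (.e (nat_lit 532502) (nat_lit 1) (.e (nat_lit 57854) (nat_lit 252) .nil)))))) (.g (nat_lit 4) .nil .nil))) 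
(.lf (nat_lit 162401) (.g (nat_lit 3509) (.e (nat_lit 57447) (nat_lit 19) (.e (nat_lit 393229) (nat_lit 9) (.e (nat_lit 336202) (nat_lit 12) (.e (nat_lit 385068) (nat_lit 26) (.e (nat_lit 532499) (nat_lit 1) (.e (nat_lit 57847) (nat_lit 252) .nil)))))) (.g (nat_lit 5) .nil .nil)))) (.nd (nat_lit 5) 
(.lf (nat_lit 162385) (.g (nat_lit 3648) (.e (nat_lit 57447) (nat_lit 19) (.e (nat_lit 393229) (nat_lit 9) (.e (nat_lit 336201) (nat_lit 12) (.e (nat_lit 385068) (nat_lit 26) (.e (nat_lit 532499) (nat_lit 1) (.e (nat_lit 57847) (nat_lit 252) .nil)))))) (.g (nat_lit 6) .nil .nil))) 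
(.lf (nat_lit 162417) (.g (nat_lit 3926) (.e (nat_lit 57447) (nat_lit 19) (.e (nat_lit 393229) (nat_lit 9) (.e (nat_lit 336203) (nat_lit 12) (.e (nat_lit 385067) (nat_lit 26) (.e (nat_lit 532499) (nat_lit 1) (.e (nat_lit 57854) (nat_lit 252) .nil)))))) (.g (nat_lit 6) .nil .nil))))) (.nd (nat_lit 4) (.nd (nat_lit 5) 
(.lf (nat_lit 162377) (.g (nat_lit 2847) (.e (nat_lit 57447) (nat_lit 19) (.e (nat_lit 393229) (nat_lit 9) (.e (nat_lit 336196) (nat_lit 12) (.e (nat_lit 385066) (nat_lit 26) (.e (nat_lit 532502) (nat_lit 1) (.e (nat_lit 57847) (nat_lit 252) .nil)))))) (.g (nat_lit 5) .nil .nil))) 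
(.lf (nat_lit 162409) (.g (nat_lit 3789) (.e (nat_lit 57447) (nat_lit 19) (.e (nat_lit 393229) (nat_lit 9) (.e (nat_lit 336203) (nat_lit 12) (.e (nat_lit 385066) (nat_lit 26) (.e (nat_lit 532501) (nat_lit 1) (.e (nat_lit 57852) (nat_lit 252) .nil)))))) (.g (nat_lit 0) .nil .nil)))) (.nd (nat_lit 5) 
(.lf (nat_lit 162393) (.g (nat_lit 3527) (.e (nat_lit 57447) (nat_lit 19) (.e (nat_lit 393229) (nat_lit 9) (.e (nat_lit 336202) (nat_lit 12) (.e (nat_lit 385066) (nat_lit 26) (.e (nat_lit 532501) (nat_lit 1) (.e (nat_lit 57852) (nat_lit 252) .nil)))))) (.g (nat_lit 6) .nil .nil))) 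
(.lf (nat_lit 162425) (.g (nat_lit 4064) (.e (nat_lit 57447) (nat_lit 19) (.e (nat_lit 393229) (nat_lit 9) (.e (nat_lit 336203) (nat_lit 12) (.e (nat_lit 385068) (nat_lit 26) (.e (nat_lit 532501) (nat_lit 1) (.e (nat_lit 57854) (nat_lit 252) .nil)))))) (.g (nat_lit 0) .nil .nil)))))) (.nd (nat_lit 3) (.nd (nat_lit 4) (.nd (nat_lit 5) 
(.lf (nat_lit 162373) (.g (nat_lit 2872) (.e (nat_lit 57447) (nat_lit 19) (.e (nat_lit 393229) (nat_lit 9) (.e (nat_lit 336195) (nat_lit 12) (.e (nat_lit 385068) (nat_lit 26) (.e (nat_lit 532501) (nat_lit 1) (.e (nat_lit 57854) (nat_lit 252) .nil)))))) (.g (nat_lit 5) .nil .nil))) 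
(.lf (nat_lit 162405) (.g (nat_lit 1194) (.e (nat_lit 57447) (nat_lit 19) (.e (nat_lit 393229) (nat_lit 9) (.e (nat_lit 336203) (nat_lit 12) (.e (nat_lit 385065) (nat_lit 26) .nil)))) .nil))) (.nd (nat_lit 5) 
(.lf (nat_lit 162389) (.g (nat_lit 2048) (.e (nat_lit 57447) (nat_lit 19) (.e (nat_lit 393229) (nat_lit 9) (.e (nat_lit 336202) (nat_lit 12) (.e (nat_lit 385065) (nat_lit 26) (.e (nat_lit 532501) (nat_lit 1) (.e (nat_lit 57852) (nat_lit 252) .nil)))))) (.g (nat_lit 4) .nil .nil))) 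
(.lf (nat_lit 162421) (.g (nat_lit 3818) (.e (nat_lit 57447) (nat_lit 19) (.e (nat_lit 393229) (nat_lit 9) (.e (nat_lit 336203) (nat_lit 12) (.e (nat_lit 385067) (nat_lit 26) (.e (nat_lit 532504) (nat_lit 1) (.e (nat_lit 57854) (nat_lit 252) .nil)))))) (.g (nat_lit 0) .nil .nil))))) (.nd (nat_lit 4) (.nd (nat_lit 5) 
(.lf (nat_lit 162381) (.g (nat_lit 4063) (.e (nat_lit 57447) (nat_lit 19) (.e (nat_lit 393229) (nat_lit 9) (.e (nat_lit 336196) (nat_lit 12) (.e (nat_lit 385068) (nat_lit 26) (.e (nat_lit 532499) (nat_lit 1) (.e (nat_lit 57847) (nat_lit 252) .nil)))))) (.g (nat_lit 6) .nil .nil))) 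
(.lf (nat_lit 162413) (.g (nat_lit 3541) (.e (nat_lit 57447) (nat_lit 19) (.e (nat_lit 393229) (nat_lit 9) (.e (nat_lit 336203) (nat_lit 12) (.e (nat_lit 385066) (nat_lit 26) (.e (nat_lit 532503) (nat_lit 1) (.e (nat_lit 57846) (nat_lit 252) .nil)))))) (.g (nat_lit 5) .nil .nil)))) (.nd (nat_lit 5) 
(.lf (nat_lit 162397) (.g (nat_lit 2988) (.e (nat_lit 57447) (nat_lit 19) (.e (nat_lit 393229) (nat_lit 9) (.e (nat_lit 336202) (nat_lit 12) (.e (nat_lit 385066) (nat_lit 26) (.e (nat_lit 532503) (nat_lit 1) (.e (nat_lit 57846) (nat_lit 252) .nil)))))) (.g (nat_lit 4) .nil .nil))) 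
(.lf (nat_lit 162429) (.g (nat_lit 4044) (.e (nat_lit 57447) (nat_lit 19) (.e (nat_lit 393229) (nat_lit 9) (.e (nat_lit 336203) (nat_lit 12) (.e (nat_lit 385068) (nat_lit 26) (.e (nat_lit 532504) (nat_lit 1) (.e (nat_lit 57854) (nat_lit 252) .nil)))))) (.g (nat_lit 0) .nil .nil))))))) (.nd (nat_lit 2) (.nd (nat_lit 3) (.nd (nat_lit 4) (.nd (nat_lit 5) 
(.lf (nat_lit 162371) (.g (nat_lit 2793) (.e (nat_lit 57447) (nat_lit 19) (.e (nat_lit 393229) (nat_lit 9) (.e (nat_lit 336195) (nat_lit 12) (.e (nat_lit 385066) (nat_lit 26) (.e (nat_lit 532504) (nat_lit 1) (.e (nat_lit 57854) (nat_lit 252) .nil)))))) (.g (nat_lit 5) .nil .nil))) 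
(.lf (nat_lit 162403) (.g (nat_lit 3090) (.e (nat_lit 57447) (nat_lit 19) (.e (nat_lit 393229) (nat_lit 9) (.e (nat_lit 336202) (nat_lit 12) (.e (nat_lit 385068) (nat_lit 26) (.e (nat_lit 532503) (nat_lit 1) (.e (nat_lit 57847) (nat_lit 252) .nil)))))) (.g (nat_lit 5) .nil .nil)))) (.nd (nat_lit 5) 
(.lf (nat_lit 162387) (.g (nat_lit 3142) (.e (nat_lit 57447) (nat_lit 19) (.e (nat_lit 393229) (nat_lit 9) (.e (nat_lit 336201) (nat_lit 12) (.e (nat_lit 385068) (nat_lit 26) (.e (nat_lit 532503) (nat_lit 1) (.e (nat_lit 57847) (nat_lit 252) .nil)))))) (.g (nat_lit 6) .nil .nil))) 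
(.lf (nat_lit 162419) (.g (nat_lit 2724) (.e (nat_lit 57447) (nat_lit 19) (.e (nat_lit 393229) (nat_lit 9) (.e (nat_lit 336203) (nat_lit 12) (.e (nat_lit 385067) (nat_lit 26) (.e (nat_lit 532503) (nat_lit 1) (.e (nat_lit 57847) (nat_lit 252) .nil)))))) (.g (nat_lit 4) .nil .nil))))) (.nd (nat_lit 4) (.nd (nat_lit 5) 
(.lf (nat_lit 162379) (.g (nat_lit 3273) (.e (nat_lit 57447) (nat_lit 19) (.e (nat_lit 393229) (nat_lit 9) (.e (nat_lit 336196) (nat_lit 12) (.e (nat_lit 385066) (nat_lit 26) (.e (nat_lit 532503) (nat_lit 1) (.e (nat_lit 57847) (nat_lit 252) .nil)))))) (.g (nat_lit 6) .nil .nil))) 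
(.lf (nat_lit 162411) (.g (nat_lit 3216) (.e (nat_lit 57447) (nat_lit 19) (.e (nat_lit 393229) (nat_lit 9) (.e (nat_lit 336203) (nat_lit 12) (.e (nat_lit 385066) (nat_lit 26) (.e (nat_lit 532502) (nat_lit 1) (.e (nat_lit 57846) (nat_lit 252) .nil)))))) (.g (nat_lit 4) .nil .nil)))) (.nd (nat_lit 5) 
(.lf (nat_lit 162395) (.g (nat_lit 2542) (.e (nat_lit 57447) (nat_lit 19) (.e (nat_lit 393229) (nat_lit 9) (.e (nat_lit 336202) (nat_lit 12) (.e (nat_lit 385066) (nat_lit 26) (.e (nat_lit 532502) (nat_lit 1) (.e (nat_lit 57847) (nat_lit 252) .nil)))))) (.g (nat_lit 4) .nil .nil))) 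
(.lf (nat_lit 162427) (.g (nat_lit 2948) (.e (nat_lit 57447) (nat_lit 19) (.e (nat_lit 393229) (nat_lit 9) (.e (nat_lit 336203) (nat_lit 12) (.e (nat_lit 385068) (nat_lit 26) (.e (nat_lit 532503) (nat_lit 1) (.e (nat_lit 57847) (nat_lit 252) .nil)))))) (.g (nat_lit 4) .nil .nil)))))) (.nd (nat_lit 3) (.nd (nat_lit 4) (.nd (nat_lit 5) 
(.lf (nat_lit 162375) (.g (nat_lit 3491) (.e (nat_lit 57447) (nat_lit 19) (.e (nat_lit 393229) (nat_lit 9) (.e (nat_lit 336196) (nat_lit 12) (.e (nat_lit 385066) (nat_lit 26) (.e (nat_lit 532499) (nat_lit 1) (.e (nat_lit 57854) (nat_lit 252) .nil)))))) (.g (nat_lit 6) .nil .nil))) 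
(.lf (nat_lit 162407) (.g (nat_lit 2372) (.e (nat_lit 57447) (nat_lit 19) (.e (nat_lit 393229) (nat_lit 9) (.e (nat_lit 336203) (nat_lit 12) (.e (nat_lit 385065) (nat_lit 26) (.e (nat_lit 532502) (nat_lit 1) (.e (nat_lit 57854) (nat_lit 252) .nil)))))) (.g (nat_lit 4) .nil .nil)))) (.nd (nat_lit 5) 
(.lf (nat_lit 162391) (.g (nat_lit 3495) (.e (nat_lit 57447) (nat_lit 19) (.e (nat_lit 393229) (nat_lit 9) (.e (nat_lit 336202) (nat_lit 12) (.e (nat_lit 385066) (nat_lit 26) (.e (nat_lit 532499) (nat_lit 1) (.e (nat_lit 57847) (nat_lit 252) .nil)))))) (.g (nat_lit 5) .nil .nil))) 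
(.lf (nat_lit 162423) (.g (nat_lit 3455) (.e (nat_lit 57447) (nat_lit 19) (.e (nat_lit 393229) (nat_lit 9) (.e (nat_lit 336203) (nat_lit 12) (.e (nat_lit 385068) (nat_lit 26) (.e (nat_lit 532499) (nat_lit 1) (.e (nat_lit 57854) (nat_lit 252) .nil)))))) (.g (nat_lit 5) .nil .nil))))) (.nd (nat_lit 4) (.nd (nat_lit 5) 
(.lf (nat_lit 162383) (.g (nat_lit 3551) (.e (nat_lit 57447) (nat_lit 19) (.e (nat_lit 393229) (nat_lit 9) (.e (nat_lit 336196) (nat_lit 12) (.e (nat_lit 385068) (nat_lit 26) (.e (nat_lit 532503) (nat_lit 1) (.e (nat_lit 57847) (nat_lit 252) .nil)))))) (.g (nat_lit 6) .nil .nil))) 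
(.lf (nat_lit 162415) (.g (nat_lit 3814) (.e (nat_lit 57447) (nat_lit 19) (.e (nat_lit 393229) (nat_lit 9) (.e (nat_lit 336203) (nat_lit 12) (.e (nat_lit 385066) (nat_lit 26) (.e (nat_lit 532504) (nat_lit 1) (.e (nat_lit 57852) (nat_lit 252) .nil)))))) (.g (nat_lit 0) .nil .nil)))) (.nd (nat_lit 5) 
(.lf (nat_lit 162399) (.g (nat_lit 3541) (.e (nat_lit 57447) (nat_lit 19) (.e (nat_lit 393229) (nat_lit 9) (.e (nat_lit 336202) (nat_lit 12) (.e (nat_lit 385066) (nat_lit 26) (.e (nat_lit 532504) (nat_lit 1) (.e (nat_lit 57852) (nat_lit 252) .nil)))))) (.g (nat_lit 6) .nil .nil))) 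
(.lf (nat_lit 162431) (.g (nat_lit 3718) (.e (nat_lit 57447) (nat_lit 19) (.e (nat_lit 393229) (nat_lit 9) (.e (nat_lit 336204) (nat_lit 12) (.e (nat_lit 385066) (nat_lit 26) (.e (nat_lit 532501) (nat_lit 1) (.e (nat_lit 57852) (nat_lit 252) .nil)))))) (.g (nat_lit 0) .nil .nil)))))))))

noncomputable def tv2178 : DT := (.nd (nat_lit 0) (.nd (nat_lit 1) (.nd (nat_lit 2) (.nd (nat_lit 3) (.nd (nat_lit 4) (.nd (nat_lit 5) 
(.lf (nat_lit 162432) (.g (nat_lit 3422) (.e (nat_lit 57447) (nat_lit 19) (.e (nat_lit 393229) (nat_lit 9) (.e (nat_lit 336204) (nat_lit 12) (.e (nat_lit 385066) (nat_lit 26) (.e (nat_lit 532501) (nat_lit 1) (.e (nat_lit 57854) (nat_lit 252) .nil)))))) (.g (nat_lit 0) .nil .nil))) 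
(.lf (nat_lit 162464) (.g (nat_lit 2138) (.e (nat_lit 57447) (nat_lit 19) (.e (nat_lit 393234) (nat_lit 17) (.e (nat_lit 2528) (nat_lit 157) (.e (nat_lit 5192) (nat_lit 294) (.e (nat_lit 57448) (nat_lit 19) (.e (nat_lit 393234) (nat_lit 17) (.e (nat_lit 2415) (nat_lit 157) (.e (nat_lit 5205) (nat_lit 294) .nil)))))))) (.g (nat_lit 5) .nil .nil)))) (.nd (nat_lit 5) 
(.lf (nat_lit 162448) (.g (nat_lit 1505) (.e (nat_lit 57447) (nat_lit 19) (.e (nat_lit 401152) (nat_lit 12) (.e (nat_lit 360473) (nat_lit 8) (.e (nat_lit 557093) (nat_lit 12) (.e (nat_lit 171776) (nat_lit 0) (.e (nat_lit 5193) (nat_lit 294) .nil)))))) (.g (nat_lit 4) .nil .nil))) 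
(.lf (nat_lit 162480) (.g (nat_lit 3334) (.e (nat_lit 57447) (nat_lit 19) (.e (nat_lit 393234) (nat_lit 17) (.e (nat_lit 7581) (nat_lit 405) (.e (nat_lit 57476) (nat_lit 28) (.e (nat_lit 557103) (nat_lit 14) (.e (nat_lit 180229) (nat_lit 0) (.e (nat_lit 5951) (nat_lit 322) .nil))))))) (.g (nat_lit 5) .nil .nil))))) (.nd (nat_lit 4) (.nd (nat_lit 5) 
(.lf (nat_lit 162440) (.g (nat_lit 1585) (.e (nat_lit 57447) (nat_lit 19) (.e (nat_lit 401152) (nat_lit 11) (.e (nat_lit 352315) (nat_lit 23) (.e (nat_lit 98325) (nat_lit 17) (.e (nat_lit 2478) (nat_lit 157) (.e (nat_lit 6400) (nat_lit 339) .nil)))))) (.g (nat_lit 4) .nil .nil))) 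
(.lf (nat_lit 162472) (.g (nat_lit 3555) (.e (nat_lit 57447) (nat_lit 19) (.e (nat_lit 393234) (nat_lit 17) (.e (nat_lit 7581) (nat_lit 405) (.e (nat_lit 57476) (nat_lit 28) (.e (nat_lit 557097) (nat_lit 13) (.e (nat_lit 172061) (nat_lit 1) (.e (nat_lit 164401) (nat_lit 256) .nil))))))) (.g (nat_lit 5) .nil .nil)))) (.nd (nat_lit 5) 
(.lf (nat_lit 162456) (.g (nat_lit 667) (.e (nat_lit 57447) (nat_lit 19) (.e (nat_lit 393234) (nat_lit 17) (.e (nat_lit 2405) (nat_lit 157) .nil))) .nil)) 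
(.lf (nat_lit 162488) (.g (nat_lit 2952) (.e (nat_lit 57447) (nat_lit 19) (.e (nat_lit 393234) (nat_lit 17) (.e (nat_lit 7581) (nat_lit 405) (.e (nat_lit 57476) (nat_lit 28) (.e (nat_lit 557104) (nat_lit 14) (.e (nat_lit 180229) (nat_lit 0) (.e (nat_lit 5950) (nat_lit 322) .nil))))))) (.g (nat_lit 5) .nil .nil)))))) (.nd (nat_lit 3) (.nd (nat_lit 4) (.nd (nat_lit 5) 
(.lf (nat_lit 162436) (.g (nat_lit 3544) (.e (nat_lit 57447) (nat_lit 19) (.e (nat_lit 393229) (nat_lit 9) (.e (nat_lit 336204) (nat_lit 12) (.e (nat_lit 385066) (nat_lit 26) (.e (nat_lit 532504) (nat_lit 1) (.e (nat_lit 57854) (nat_lit 252) .nil)))))) (.g (nat_lit 0) .nil .nil))) 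
(.lf (nat_lit 162468) (.g (nat_lit 659) (.e (nat_lit 57447) (nat_lit 19) (.e (nat_lit 393234) (nat_lit 17) (.e (nat_lit 7345) (nat_lit 388) .nil))) .nil))) (.nd (nat_lit 5) 
(.lf (nat_lit 162452) (.g (nat_lit 2400) (.e (nat_lit 57447) (nat_lit 19) (.e (nat_lit 401152) (nat_lit 12) (.e (nat_lit 360475) (nat_lit 8) (.e (nat_lit 557091) (nat_lit 12) (.e (nat_lit 171776) (nat_lit 0) (.e (nat_lit 5193) (nat_lit 294) .nil)))))) (.g (nat_lit 4) .nil .nil))) 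
(.lf (nat_lit 162484) (.g (nat_lit 2790) (.e (nat_lit 57447) (nat_lit 19) (.e (nat_lit 393234) (nat_lit 17) (.e (nat_lit 7581) (nat_lit 405) (.e (nat_lit 57476) (nat_lit 28) (.e (nat_lit 557104) (nat_lit 14) (.e (nat_lit 180224) (nat_lit 0) (.e (nat_lit 5936) (nat_lit 322) .nil))))))) (.g (nat_lit 5) .nil .nil))))) (.nd (nat_lit 4) (.nd (nat_lit 5) 
(.lf (nat_lit 162444) (.g (nat_lit 1845) (.e (nat_lit 57447) (nat_lit 19) (.e (nat_lit 401152) (nat_lit 12) (.e (nat_lit 360473) (nat_lit 8) (.e (nat_lit 557091) (nat_lit 12) (.e (nat_lit 171776) (nat_lit 0) (.e (nat_lit 5193) (nat_lit 294) .nil)))))) (.g (nat_lit 4) .nil .nil))) 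
(.lf (nat_lit 162476) (.g (nat_lit 2473) (.e (nat_lit 57447) (nat_lit 19) (.e (nat_lit 393234) (nat_lit 17) (.e (nat_lit 7581) (nat_lit 405) (.e (nat_lit 57476) (nat_lit 28) (.e (nat_lit 557103) (nat_lit 14) (.e (nat_lit 180225) (nat_lit 0) (.e (nat_lit 5945) (nat_lit 322) .nil))))))) (.g (nat_lit 4) .nil .nil)))) (.nd (nat_lit 5) 
(.lf (nat_lit 162460) (.g (nat_lit 2138) (.e (nat_lit 57447) (nat_lit 19) (.e (nat_lit 393234) (nat_lit 17) (.e (nat_lit 2522) (nat_lit 157) (.e (nat_lit 5192) (nat_lit 294) (.e (nat_lit 57448) (nat_lit 19) (.e (nat_lit 393234) (nat_lit 17) (.e (nat_lit 2415) (nat_lit 157) (.e (nat_lit 5205) (nat_lit 294) .nil)))))))) (.g (nat_lit 5) .nil .nil))) 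
(.lf (nat_lit 162492) (.g (nat_lit 3045) (.e (nat_lit 57447) (nat_lit 19) (.e (nat_lit 393234) (nat_lit 17) (.e (nat_lit 7581) (nat_lit 405) (.e (nat_lit 57476) (nat_lit 28) (.e (nat_lit 557104) (nat_lit 14) (.e (nat_lit 180231) (nat_lit 0) (.e (nat_lit 5944) (nat_lit 322) .nil))))))) (.g (nat_lit 5) .nil .nil))))))) (.nd (nat_lit 2) (.nd (nat_lit 3) (.nd (nat_lit 4) (.nd (nat_lit 5) 
(.lf (nat_lit 162434) (.g (nat_lit 3613) (.e (nat_lit 57447) (nat_lit 19) (.e (nat_lit 393229) (nat_lit 9) (.e (nat_lit 336204) (nat_lit 12) (.e (nat_lit 385066) (nat_lit 26) (.e (nat_lit 532503) (nat_lit 1) (.e (nat_lit 57846) (nat_lit 252) .nil)))))) (.g (nat_lit 6) .nil .nil))) 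
(.lf (nat_lit 162466) (.g (nat_lit 1950) (.e (nat_lit 57447) (nat_lit 19) (.e (nat_lit 393234) (nat_lit 17) (.e (nat_lit 2528) (nat_lit 157) (.e (nat_lit 5195) (nat_lit 294) (.e (nat_lit 57448) (nat_lit 19) (.e (nat_lit 393234) (nat_lit 17) (.e (nat_lit 2413) (nat_lit 157) (.e (nat_lit 5201) (nat_lit 294) .nil)))))))) (.g (nat_lit 4) .nil .nil)))) (.nd (nat_lit 5) 
(.lf (nat_lit 162450) (.g (nat_lit 2515) (.e (nat_lit 57447) (nat_lit 19) (.e (nat_lit 401152) (nat_lit 12) (.e (nat_lit 360475) (nat_lit 8) (.e (nat_lit 557090) (nat_lit 12) (.e (nat_lit 163856) (nat_lit 0) (.e (nat_lit 5201) (nat_lit 294) .nil)))))) (.g (nat_lit 4) .nil .nil))) 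
(.lf (nat_lit 162482) (.g (nat_lit 2998) (.e (nat_lit 57447) (nat_lit 19) (.e (nat_lit 393234) (nat_lit 17) (.e (nat_lit 7581) (nat_lit 405) (.e (nat_lit 57476) (nat_lit 28) (.e (nat_lit 557103) (nat_lit 14) (.e (nat_lit 180233) (nat_lit 0) (.e (nat_lit 5949) (nat_lit 322) .nil))))))) (.g (nat_lit 5) .nil .nil))))) (.nd (nat_lit 4) (.nd (nat_lit 5) 
(.lf (nat_lit 162442) (.g (nat_lit 1880) (.e (nat_lit 57447) (nat_lit 19) (.e (nat_lit 401152) (nat_lit 12) (.e (nat_lit 360473) (nat_lit 8) (.e (nat_lit 557090) (nat_lit 12) (.e (nat_lit 171776) (nat_lit 0) (.e (nat_lit 5193) (nat_lit 294) .nil)))))) (.g (nat_lit 4) .nil .nil))) 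
(.lf (nat_lit 162474) (.g (nat_lit 1800) (.e (nat_lit 57447) (nat_lit 19) (.e (nat_lit 393234) (nat_lit 17) (.e (nat_lit 7581) (nat_lit 405) (.e (nat_lit 57476) (nat_lit 28) (.e (nat_lit 557103) (nat_lit 14) .nil))))) .nil))) (.nd (nat_lit 5) 
(.lf (nat_lit 162458) (.g (nat_lit 2450) (.e (nat_lit 57447) (nat_lit 19) (.e (nat_lit 393234) (nat_lit 17) (.e (nat_lit 2415) (nat_lit 157) (.e (nat_lit 5205) (nat_lit 294) (.e (nat_lit 57447) (nat_lit 19) (.e (nat_lit 393234) (nat_lit 17) (.e (nat_lit 2415) (nat_lit 157) (.e (nat_lit 5205) (nat_lit 294) .nil)))))))) (.g (nat_lit 5) .nil .nil))) 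
(.lf (nat_lit 162490) (.g (nat_lit 3017) (.e (nat_lit 57447) (nat_lit 19) (.e (nat_lit 393234) (nat_lit 17) (.e (nat_lit 7581) (nat_lit 405) (.e (nat_lit 57476) (nat_lit 28) (.e (nat_lit 557104) (nat_lit 14) (.e (nat_lit 180229) (nat_lit 0) (.e (nat_lit 5952) (nat_lit 322) .nil))))))) (.g (nat_lit 5) .nil .nil)))))) (.nd (nat_lit 3) (.nd (nat_lit 4) (.nd (nat_lit 5) 
(.lf (nat_lit 162438) (.g (nat_lit 3462) (.e (nat_lit 57447) (nat_lit 19) (.e (nat_lit 393229) (nat_lit 9) (.e (nat_lit 336204) (nat_lit 12) (.e (nat_lit 385068) (nat_lit 26) (.e (nat_lit 532503) (nat_lit 1) (.e (nat_lit 57847) (nat_lit 252) .nil)))))) (.g (nat_lit 0) .nil .nil))) 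
(.lf (nat_lit 162470) (.g (nat_lit 659) (.e (nat_lit 57447) (nat_lit 19) (.e (nat_lit 393234) (nat_lit 17) (.e (nat_lit 7382) (nat_lit 391) .nil))) .nil))) (.nd (nat_lit 5) 
(.lf (nat_lit 162454) (.g (nat_lit 537) (.e (nat_lit 57447) (nat_lit 19) (.e (nat_lit 393232) (nat_lit 17) (.e (nat_lit 7581) (nat_lit 405) .nil))) .nil)) 
(.lf (nat_lit 162486) (.g (nat_lit 2929) (.e (nat_lit 57447) (nat_lit 19) (.e (nat_lit 393234) (nat_lit 17) (.e (nat_lit 7581) (nat_lit 405) (.e (nat_lit 57476) (nat_lit 28) (.e (nat_lit 557104) (nat_lit 14) (.e (nat_lit 180227) (nat_lit 0) (.e (nat_lit 5945) (nat_lit 322) .nil))))))) (.g (nat_lit 5) .nil .nil))))) (.nd (nat_lit 4) (.nd (nat_lit 5) 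
(.lf (nat_lit 162446) (.g (nat_lit 1322) (.e (nat_lit 57447) (nat_lit 19) (.e (nat_lit 401152) (nat_lit 12) (.e (nat_lit 360473) (nat_lit 8) (.e (nat_lit 557093) (nat_lit 12) (.e (nat_lit 163856) (nat_lit 0) (.e (nat_lit 5201) (nat_lit 294) .nil)))))) (.g (nat_lit 4) .nil .nil))) 
(.lf (nat_lit 162478) (.g (nat_lit 3250) (.e (nat_lit 57447) (nat_lit 19) (.e (nat_lit 393234) (nat_lit 17) (.e (nat_lit 7581) (nat_lit 405) (.e (nat_lit 57476) (nat_lit 28) (.e (nat_lit 557103) (nat_lit 14) (.e (nat_lit 180228) (nat_lit 0) (.e (nat_lit 5953) (nat_lit 322) .nil))))))) (.g (nat_lit 5) .nil .nil)))) (.nd (nat_lit 5) 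
(.lf (nat_lit 162462) (.g (nat_lit 2020) (.e (nat_lit 57447) (nat_lit 19) (.e (nat_lit 393234) (nat_lit 17) (.e (nat_lit 2522) (nat_lit 157) (.e (nat_lit 5195) (nat_lit 294) (.e (nat_lit 57448) (nat_lit 19) (.e (nat_lit 393234) (nat_lit 17) (.e (nat_lit 2411) (nat_lit 157) (.e (nat_lit 5205) (nat_lit 294) .nil)))))))) (.g (nat_lit 4) .nil .nil))) 
(.lf (nat_lit 162494) (.g (nat_lit 3949) (.e (nat_lit 57447) (nat_lit 19) (.e (nat_lit 393234) (nat_lit 17) (.e (nat_lit 7581) (nat_lit 405) (.e (nat_lit 57476) (nat_lit 28) (.e (nat_lit 557104) (nat_lit 14) (.e (nat_lit 180233) (nat_lit 0) (.e (nat_lit 5948) (nat_lit 322) .nil))))))) (.g (nat_lit 7) .nil .nil)))))))) 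
(.nd (nat_lit 1) (.nd (nat_lit 2) (.nd (nat_lit 3) (.nd (nat_lit 4) (.nd (nat_lit 5) 
(.lf (nat_lit 162433) (.g (nat_lit 3202) (.e (nat_lit 57447) (nat_lit 19) (.e (nat_lit 393229) (nat_lit 9) (.e (nat_lit 336204) (nat_lit 12) (.e (nat_lit 385066) (nat_lit 26) (.e (nat_lit 532502) (nat_lit 1) (.e (nat_lit 57847) (nat_lit 252) .nil)))))) (.g (nat_lit 0) .nil .nil))) 
(.lf (nat_lit 162465) (.g (nat_lit 2392) (.e (nat_lit 57447) (nat_lit 19) (.e (nat_lit 393234) (nat_lit 17) (.e (nat_lit 2528) (nat_lit 157) (.e (nat_lit 5193) (nat_lit 294) (.e (nat_lit 57448) (nat_lit 19) (.e (nat_lit 393234) (nat_lit 17) (.e (nat_lit 2415) (nat_lit 157) (.e (nat_lit 5205) (nat_lit 294) .nil)))))))) (.g (nat_lit 5) .nil .nil)))) (.nd (nat_lit 5) 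
(.lf (nat_lit 162449) (.g (nat_lit 1751) (.e (nat_lit 57447) (nat_lit 19) (.e (nat_lit 401152) (nat_lit 12) (.e (nat_lit 360475) (nat_lit 8) (.e (nat_lit 557089) (nat_lit 12) (.e (nat_lit 171776) (nat_lit 0) (.e (nat_lit 5193) (nat_lit 294) .nil)))))) (.g (nat_lit 4) .nil .nil))) 
(.lf (nat_lit 162481) (.g (nat_lit 2923) (.e (nat_lit 57447) (nat_lit 19) (.e (nat_lit 393234) (nat_lit 17) (.e (nat_lit 7581) (nat_lit 405) (.e (nat_lit 57476) (nat_lit 28) (.e (nat_lit 557103) (nat_lit 14) (.e (nat_lit 180233) (nat_lit 0) (.e (nat_lit 5946) (nat_lit 322) .nil))))))) (.g (nat_lit 5) .nil .nil))))) (.nd (nat_lit 4) (.nd (nat_lit 5) 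
(.lf (nat_lit 162441) (.g (nat_lit 1739) (.e (nat_lit 57447) (nat_lit 19) (.e (nat_lit 401152) (nat_lit 11) (.e (nat_lit 352315) (nat_lit 23) (.e (nat_lit 98334) (nat_lit 18) (.e (nat_lit 164176) (nat_lit 154) .nil))))) (.g (nat_lit 4) .nil .nil))) 
(.lf (nat_lit 162473) (.g (nat_lit 3339) (.e (nat_lit 57447) (nat_lit 19) (.e (nat_lit 393234) (nat_lit 17) (.e (nat_lit 7581) (nat_lit 405) (.e (nat_lit 57476) (nat_lit 28) (.e (nat_lit 557097) (nat_lit 13) (.e (nat_lit 172070) (nat_lit 4) (.e (nat_lit 229708) (nat_lit 256) .nil))))))) (.g (nat_lit 5) .nil .nil)))) (.nd (nat_lit 5) 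
(.lf (nat_lit 162457) (.g (nat_lit 659) (.e (nat_lit 57447) (nat_lit 19) (.e (nat_lit 393234) (nat_lit 17) (.e (nat_lit 2413) (nat_lit 157) .nil))) .nil)) 
(.lf (nat_lit 162489) (.g (nat_lit 4081) (.e (nat_lit 57447) (nat_lit 19) (.e (nat_lit 393234) (nat_lit 17) (.e (nat_lit 7581) (nat_lit 405) (.e (nat_lit 57476) (nat_lit 28) (.e (nat_lit 557104) (nat_lit 14) (.e (nat_lit 180229) (nat_lit 0) (.e (nat_lit 5951) (nat_lit 322) .nil))))))) (.g (nat_lit 6) .nil .nil)))))) (.nd (nat_lit 3) (.nd (nat_lit 4) (.nd (nat_lit 5) 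
(.lf (nat_lit 162437) (.g (nat_lit 3877) (.e (nat_lit 57447) (nat_lit 19) (.e (nat_lit 393229) (nat_lit 9) (.e (nat_lit 336204) (nat_lit 12) (.e (nat_lit 385068) (nat_lit 26) (.e (nat_lit 532499) (nat_lit 1) (.e (nat_lit 57847) (nat_lit 252) .nil)))))) (.g (nat_lit 0) .nil .nil))) 
(.lf (nat_lit 162469) (.g (nat_lit 663) (.e (nat_lit 57447) (nat_lit 19) (.e (nat_lit 393234) (nat_lit 17) (.e (nat_lit 7364) (nat_lit 388) .nil))) .nil))) (.nd (nat_lit 5) 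
(.lf (nat_lit 162453) (.g (nat_lit 1968) (.e (nat_lit 57447) (nat_lit 19) (.e (nat_lit 401152) (nat_lit 12) (.e (nat_lit 360475) (nat_lit 8) (.e (nat_lit 557091) (nat_lit 12) (.e (nat_lit 171776) (nat_lit 0) (.e (nat_lit 5205) (nat_lit 294) .nil)))))) (.g (nat_lit 4) .nil .nil))) 
(.lf (nat_lit 162485) (.g (nat_lit 3287) (.e (nat_lit 57447) (nat_lit 19) (.e (nat_lit 393234) (nat_lit 17) (.e (nat_lit 7581) (nat_lit 405) (.e (nat_lit 57476) (nat_lit 28) (.e (nat_lit 557104) (nat_lit 14) (.e (nat_lit 180224) (nat_lit 0) (.e (nat_lit 5953) (nat_lit 322) .nil))))))) (.g (nat_lit 5) .nil .nil))))) (.nd (nat_lit 4) (.nd (nat_lit 5) 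
(.lf (nat_lit 162445) (.g (nat_lit 1413) (.e (nat_lit 57447) (nat_lit 19) (.e (nat_lit 401152) (nat_lit 12) (.e (nat_lit 360473) (nat_lit 8) (.e (nat_lit 557091) (nat_lit 12) (.e (nat_lit 171776) (nat_lit 0) (.e (nat_lit 5205) (nat_lit 294) .nil)))))) (.g (nat_lit 4) .nil .nil))) 
(.lf (nat_lit 162477) (.g (nat_lit 2936) (.e (nat_lit 57447) (nat_lit 19) (.e (nat_lit 393234) (nat_lit 17) (.e (nat_lit 7581) (nat_lit 405) (.e (nat_lit 57476) (nat_lit 28) (.e (nat_lit 557103) (nat_lit 14) (.e (nat_lit 180228) (nat_lit 0) (.e (nat_lit 5951) (nat_lit 322) .nil))))))) (.g (nat_lit 5) .nil .nil)))) (.nd (nat_lit 5) 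
(.lf (nat_lit 162461) (.g (nat_lit 2313) (.e (nat_lit 57447) (nat_lit 19) (.e (nat_lit 393234) (nat_lit 17) (.e (nat_lit 2522) (nat_lit 157) (.e (nat_lit 5193) (nat_lit 294) (.e (nat_lit 57448) (nat_lit 19) (.e (nat_lit 393234) (nat_lit 17) (.e (nat_lit 2415) (nat_lit 157) (.e (nat_lit 5205) (nat_lit 294) .nil)))))))) (.g (nat_lit 5) .nil .nil))) 
(.lf (nat_lit 162493) (.g (nat_lit 3482) (.e (nat_lit 57447) (nat_lit 19) (.e (nat_lit 393234) (nat_lit 17) (.e (nat_lit 7581) (nat_lit 405) (.e (nat_lit 57476) (nat_lit 28) (.e (nat_lit 557104) (nat_lit 14) (.e (nat_lit 180233) (nat_lit 0) (.e (nat_lit 5947) (nat_lit 322) .nil))))))) (.g (nat_lit 5) .nil .nil))))))) (.nd (nat_lit 2) (.nd (nat_lit 3) (.nd (nat_lit 4) (.nd (nat_lit 5) 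
(.lf (nat_lit 162435) (.g (nat_lit 3417) (.e (nat_lit 57447) (nat_lit 19) (.e (nat_lit 393229) (nat_lit 9) (.e (nat_lit 336204) (nat_lit 12) (.e (nat_lit 385066) (nat_lit 26) (.e (nat_lit 532503) (nat_lit 1) (.e (nat_lit 57847) (nat_lit 252) .nil)))))) (.g (nat_lit 0) .nil .nil))) 
(.lf (nat_lit 162467) (.g (nat_lit 2998) (.e (nat_lit 57447) (nat_lit 19) (.e (nat_lit 393234) (nat_lit 17) (.e (nat_lit 2528) (nat_lit 157) (.e (nat_lit 5195) (nat_lit 294) (.e (nat_lit 57448) (nat_lit 19) (.e (nat_lit 393234) (nat_lit 17) (.e (nat_lit 2415) (nat_lit 157) (.e (nat_lit 5205) (nat_lit 294) .nil)))))))) (.g (nat_lit 6) .nil .nil)))) (.nd (nat_lit 5) 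
(.lf (nat_lit 162451) (.g (nat_lit 2558) (.e (nat_lit 57447) (nat_lit 19) (.e (nat_lit 401152) (nat_lit 12) (.e (nat_lit 360475) (nat_lit 8) (.e (nat_lit 557091) (nat_lit 12) (.e (nat_lit 163856) (nat_lit 0) (.e (nat_lit 5201) (nat_lit 294) .nil)))))) (.g (nat_lit 4) .nil .nil))) 
(.lf (nat_lit 162483) (.g (nat_lit 2969) (.e (nat_lit 57447) (nat_lit 19) (.e (nat_lit 393234) (nat_lit 17) (.e (nat_lit 7581) (nat_lit 405) (.e (nat_lit 57476) (nat_lit 28) (.e (nat_lit 557103) (nat_lit 14) (.e (nat_lit 188160) (nat_lit 0) (.e (nat_lit 5937) (nat_lit 322) .nil))))))) (.g (nat_lit 5) .nil .nil))))) (.nd (nat_lit 4) (.nd (nat_lit 5) 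
(.lf (nat_lit 162443) (.g (nat_lit 1907) (.e (nat_lit 57447) (nat_lit 19) (.e (nat_lit 401152) (nat_lit 12) (.e (nat_lit 360473) (nat_lit 8) (.e (nat_lit 557090) (nat_lit 12) (.e (nat_lit 171776) (nat_lit 0) (.e (nat_lit 5205) (nat_lit 294) .nil)))))) (.g (nat_lit 4) .nil .nil))) 
(.lf (nat_lit 162475) (.g (nat_lit 2516) (.e (nat_lit 57447) (nat_lit 19) (.e (nat_lit 393234) (nat_lit 17) (.e (nat_lit 7581) (nat_lit 405) (.e (nat_lit 57476) (nat_lit 28) (.e (nat_lit 557103) (nat_lit 14) (.e (nat_lit 180224) (nat_lit 0) (.e (nat_lit 5953) (nat_lit 322) .nil))))))) (.g (nat_lit 4) .nil .nil)))) (.nd (nat_lit 5) 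
(.lf (nat_lit 162459) (.g (nat_lit 654) (.e (nat_lit 57447) (nat_lit 19) (.e (nat_lit 393234) (nat_lit 17) (.e (nat_lit 2522) (nat_lit 157) .nil))) .nil)) 
(.lf (nat_lit 162491) (.g (nat_lit 2464) (.e (nat_lit 57447) (nat_lit 19) (.e (nat_lit 393234) (nat_lit 17) (.e (nat_lit 7581) (nat_lit 405) (.e (nat_lit 57476) (nat_lit 28) (.e (nat_lit 557104) (nat_lit 14) (.e (nat_lit 180230) (nat_lit 0) (.e (nat_lit 5946) (nat_lit 322) .nil))))))) (.g (nat_lit 4) .nil .nil)))))) (.nd (nat_lit 3) (.nd (nat_lit 4) (.nd (nat_lit 5) 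
(.lf (nat_lit 162439) (.g (nat_lit 1574) (.e (nat_lit 57447) (nat_lit 19) (.e (nat_lit 401152) (nat_lit 11) (.e (nat_lit 352312) (nat_lit 22) (.e (nat_lit 90165) (nat_lit 12) (.e (nat_lit 163853) (nat_lit 0) (.e (nat_lit 6401) (nat_lit 339) .nil)))))) (.g (nat_lit 4) .nil .nil))) 
(.lf (nat_lit 162471) (.g (nat_lit 1368) (.e (nat_lit 57447) (nat_lit 19) (.e (nat_lit 393234) (nat_lit 17) (.e (nat_lit 7581) (nat_lit 405) (.e (nat_lit 57476) (nat_lit 28) .nil)))) .nil))) (.nd (nat_lit 5) 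
(.lf (nat_lit 162455) (.g (nat_lit 365) (.e (nat_lit 57447) (nat_lit 19) (.e (nat_lit 393233) (nat_lit 17) (.e (nat_lit 7581) (nat_lit 405) .nil))) .nil)) 
(.lf (nat_lit 162487) (.g (nat_lit 4024) (.e (nat_lit 57447) (nat_lit 19) (.e (nat_lit 393234) (nat_lit 17) (.e (nat_lit 7581) (nat_lit 405) (.e (nat_lit 57476) (nat_lit 28) (.e (nat_lit 557104) (nat_lit 14) (.e (nat_lit 180229) (nat_lit 0) (.e (nat_lit 5946) (nat_lit 322) .nil))))))) (.g (nat_lit 6) .nil .nil))))) (.nd (nat_lit 4) (.nd (nat_lit 5) 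
(.lf (nat_lit 162447) (.g (nat_lit 1568) (.e (nat_lit 57447) (nat_lit 19) (.e (nat_lit 401152) (nat_lit 12) (.e (nat_lit 360473) (nat_lit 8) (.e (nat_lit 557093) (nat_lit 12) (.e (nat_lit 163857) (nat_lit 0) (.e (nat_lit 5201) (nat_lit 294) .nil)))))) (.g (nat_lit 4) .nil .nil))) 
(.lf (nat_lit 162479) (.g (nat_lit 3283) (.e (nat_lit 57447) (nat_lit 19) (.e (nat_lit 393234) (nat_lit 17) (.e (nat_lit 7581) (nat_lit 405) (.e (nat_lit 57476) (nat_lit 28) (.e (nat_lit 557103) (nat_lit 14) (.e (nat_lit 180229) (nat_lit 0) (.e (nat_lit 5946) (nat_lit 322) .nil))))))) (.g (nat_lit 5) .nil .nil)))) (.nd (nat_lit 5) 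
(.lf (nat_lit 162463) (.g (nat_lit 2013) (.e (nat_lit 57447) (nat_lit 19) (.e (nat_lit 393234) (nat_lit 17) (.e (nat_lit 2522) (nat_lit 157) (.e (nat_lit 5195) (nat_lit 294) (.e (nat_lit 57448) (nat_lit 19) (.e (nat_lit 393234) (nat_lit 17) (.e (nat_lit 2415) (nat_lit 157) (.e (nat_lit 5201) (nat_lit 294) .nil)))))))) (.g (nat_lit 4) .nil .nil))) 
(.lf (nat_lit 162495) (.g (nat_lit 3037) (.e (nat_lit 57447) (nat_lit 19) (.e (nat_lit 393234) (nat_lit 17) (.e (nat_lit 7581) (nat_lit 405) (.e (nat_lit 57476) (nat_lit 28) (.e (nat_lit 557104) (nat_lit 14) (.e (nat_lit 188160) (nat_lit 0) (.e (nat_lit 5936) (nat_lit 322) .nil))))))) (.g (nat_lit 5) .nil .nil)))))))))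

noncomputable def tv2179 : DT := (.nd (nat_lit 0) (.nd (nat_lit 1) (.nd (nat_lit 2) (.nd (nat_lit 3) (.nd (nat_lit 4) (.nd (nat_lit 5) 
(.lf (nat_lit 162496) (.g (nat_lit 3168) (.e (nat_lit 57447) (nat_lit 19) (.e (nat_lit 393234) (nat_lit 17) (.e (nat_lit 7581) (nat_lit 405) (.e (nat_lit 57476) (nat_lit 28) (.e (nat_lit 557104) (nat_lit 14) (.e (nat_lit 188160) (nat_lit 0) (.e (nat_lit 5937) (nat_lit 322) .nil))))))) (.g (nat_lit 5) .nil .nil))) 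
(.lf (nat_lit 162528) (.g (nat_lit 3139) (.e (nat_lit 57447) (nat_lit 19) (.e (nat_lit 393234) (nat_lit 17) (.e (nat_lit 7581) (nat_lit 405) (.e (nat_lit 57477) (nat_lit 28) (.e (nat_lit 557104) (nat_lit 14) (.e (nat_lit 180229) (nat_lit 0) (.e (nat_lit 5952) (nat_lit 322) .nil))))))) (.g (nat_lit 5) .nil .nil)))) (.nd (nat_lit 5) 
(.lf (nat_lit 162512) (.g (nat_lit 3023) (.e (nat_lit 57447) (nat_lit 19) (.e (nat_lit 393234) (nat_lit 17) (.e (nat_lit 7581) (nat_lit 405) (.e (nat_lit 57477) (nat_lit 28) (.e (nat_lit 557103) (nat_lit 14) (.e (nat_lit 180231) (nat_lit 0) (.e (nat_lit 5944) (nat_lit 322) .nil))))))) (.g (nat_lit 5) .nil .nil))) 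
(.lf (nat_lit 162544) (.g (nat_lit 2008) (.e (nat_lit 57447) (nat_lit 19) (.e (nat_lit 393234) (nat_lit 17) (.e (nat_lit 7581) (nat_lit 405) (.e (nat_lit 57480) (nat_lit 28) (.e (nat_lit 557098) (nat_lit 13) .nil))))) .nil)))) (.nd (nat_lit 4) (.nd (nat_lit 5) 
(.lf (nat_lit 162504) (.g (nat_lit 3029) (.e (nat_lit 57447) (nat_lit 19) (.e (nat_lit 393234) (nat_lit 17) (.e (nat_lit 7581) (nat_lit 405) (.e (nat_lit 57477) (nat_lit 28) (.e (nat_lit 557103) (nat_lit 14) (.e (nat_lit 180224) (nat_lit 0) (.e (nat_lit 5937) (nat_lit 322) .nil))))))) (.g (nat_lit 5) .nil .nil))) 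
(.lf (nat_lit 162536) (.g (nat_lit 2650) (.e (nat_lit 57447) (nat_lit 19) (.e (nat_lit 393234) (nat_lit 17) (.e (nat_lit 7581) (nat_lit 405) (.e (nat_lit 57479) (nat_lit 28) (.e (nat_lit 557103) (nat_lit 14) .nil))))) .nil))) (.nd (nat_lit 5) 
(.lf (nat_lit 162520) (.g (nat_lit 2869) (.e (nat_lit 57447) (nat_lit 19) (.e (nat_lit 393234) (nat_lit 17) (.e (nat_lit 7581) (nat_lit 405) (.e (nat_lit 57477) (nat_lit 28) (.e (nat_lit 557104) (nat_lit 14) (.e (nat_lit 180224) (nat_lit 0) (.e (nat_lit 5936) (nat_lit 322) .nil))))))) (.g (nat_lit 5) .nil .nil))) 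
(.lf (nat_lit 162552) (.g (nat_lit 2380) (.e (nat_lit 57447) (nat_lit 19) (.e (nat_lit 393234) (nat_lit 17) (.e (nat_lit 7581) (nat_lit 405) (.e (nat_lit 57480) (nat_lit 28) (.e (nat_lit 557103) (nat_lit 14) (.e (nat_lit 180224) (nat_lit 0) (.e (nat_lit 5951) (nat_lit 322) .nil))))))) (.g (nat_lit 4) .nil .nil)))))) (.nd (nat_lit 3) (.nd (nat_lit 4) (.nd (nat_lit 5) 
(.lf (nat_lit 162500) (.g (nat_lit 1641) (.e (nat_lit 57447) (nat_lit 19) (.e (nat_lit 393234) (nat_lit 17) (.e (nat_lit 7581) (nat_lit 405) (.e (nat_lit 57477) (nat_lit 28) (.e (nat_lit 557097) (nat_lit 13) .nil))))) .nil)) 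
(.lf (nat_lit 162532) (.g (nat_lit 3889) (.e (nat_lit 57447) (nat_lit 19) (.e (nat_lit 393234) (nat_lit 17) (.e (nat_lit 7581) (nat_lit 405) (.e (nat_lit 57479) (nat_lit 28) (.e (nat_lit 557100) (nat_lit 13) (.e (nat_lit 172059) (nat_lit 1) (.e (nat_lit 164403) (nat_lit 256) .nil))))))) (.g (nat_lit 5) .nil .nil)))) (.nd (nat_lit 5) 
(.lf (nat_lit 162516) (.g (nat_lit 3287) (.e (nat_lit 57447) (nat_lit 19) (.e (nat_lit 393234) (nat_lit 17) (.e (nat_lit 7581) (nat_lit 405) (.e (nat_lit 57477) (nat_lit 28) (.e (nat_lit 557103) (nat_lit 14) (.e (nat_lit 180233) (nat_lit 0) (.e (nat_lit 5949) (nat_lit 322) .nil))))))) (.g (nat_lit 5) .nil .nil))) 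
(.lf (nat_lit 162548) (.g (nat_lit 3242) (.e (nat_lit 57447) (nat_lit 19) (.e (nat_lit 393234) (nat_lit 17) (.e (nat_lit 7581) (nat_lit 405) (.e (nat_lit 57480) (nat_lit 28) (.e (nat_lit 557098) (nat_lit 13) (.e (nat_lit 172068) (nat_lit 4) (.e (nat_lit 229708) (nat_lit 256) .nil))))))) (.g (nat_lit 5) .nil .nil))))) (.nd (nat_lit 4) (.nd (nat_lit 5) 
(.lf (nat_lit 162508) (.g (nat_lit 3225) (.e (nat_lit 57447) (nat_lit 19) (.e (nat_lit 393234) (nat_lit 17) (.e (nat_lit 7581) (nat_lit 405) (.e (nat_lit 57477) (nat_lit 28) (.e (nat_lit 557103) (nat_lit 14) (.e (nat_lit 180228) (nat_lit 0) (.e (nat_lit 5951) (nat_lit 322) .nil))))))) (.g (nat_lit 5) .nil .nil))) 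
(.lf (nat_lit 162540) (.g (nat_lit 1239) (.e (nat_lit 57447) (nat_lit 19) (.e (nat_lit 393234) (nat_lit 17) (.e (nat_lit 7581) (nat_lit 405) (.e (nat_lit 57480) (nat_lit 28) .nil)))) .nil))) (.nd (nat_lit 5) 
(.lf (nat_lit 162524) (.g (nat_lit 3045) (.e (nat_lit 57447) (nat_lit 19) (.e (nat_lit 393234) (nat_lit 17) (.e (nat_lit 7581) (nat_lit 405) (.e (nat_lit 57477) (nat_lit 28) (.e (nat_lit 557104) (nat_lit 14) (.e (nat_lit 180227) (nat_lit 0) (.e (nat_lit 5945) (nat_lit 322) .nil))))))) (.g (nat_lit 5) .nil .nil))) 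
(.lf (nat_lit 162556) (.g (nat_lit 3459) (.e (nat_lit 57447) (nat_lit 19) (.e (nat_lit 393234) (nat_lit 17) (.e (nat_lit 7581) (nat_lit 405) (.e (nat_lit 57480) (nat_lit 28) (.e (nat_lit 557103) (nat_lit 14) (.e (nat_lit 180228) (nat_lit 0) (.e (nat_lit 5946) (nat_lit 322) .nil))))))) (.g (nat_lit 5) .nil .nil))))))) (.nd (nat_lit 2) (.nd (nat_lit 3) (.nd (nat_lit 4) (.nd (nat_lit 5) 
(.lf (nat_lit 162498) (.g (nat_lit 1288) (.e (nat_lit 57447) (nat_lit 19) (.e (nat_lit 393234) (nat_lit 17) (.e (nat_lit 7581) (nat_lit 405) (.e (nat_lit 57477) (nat_lit 28) .nil)))) .nil)) 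
(.lf (nat_lit 162530) (.g (nat_lit 3868) (.e (nat_lit 57447) (nat_lit 19) (.e (nat_lit 393234) (nat_lit 17) (.e (nat_lit 7581) (nat_lit 405) (.e (nat_lit 57477) (nat_lit 28) (.e (nat_lit 557104) (nat_lit 14) (.e (nat_lit 180233) (nat_lit 0) (.e (nat_lit 5948) (nat_lit 322) .nil))))))) (.g (nat_lit 7) .nil .nil)))) (.nd (nat_lit 5) 
(.lf (nat_lit 162514) (.g (nat_lit 3212) (.e (nat_lit 57447) (nat_lit 19) (.e (nat_lit 393234) (nat_lit 17) (.e (nat_lit 7581) (nat_lit 405) (.e (nat_lit 57477) (nat_lit 28) (.e (nat_lit 557103) (nat_lit 14) (.e (nat_lit 180233) (nat_lit 0) (.e (nat_lit 5946) (nat_lit 322) .nil))))))) (.g (nat_lit 5) .nil .nil))) 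
(.lf (nat_lit 162546) (.g (nat_lit 3822) (.e (nat_lit 57447) (nat_lit 19) (.e (nat_lit 393234) (nat_lit 17) (.e (nat_lit 7581) (nat_lit 405) (.e (nat_lit 57480) (nat_lit 28) (.e (nat_lit 557098) (nat_lit 13) (.e (nat_lit 172059) (nat_lit 1) (.e (nat_lit 164399) (nat_lit 256) .nil))))))) (.g (nat_lit 5) .nil .nil))))) (.nd (nat_lit 4) (.nd (nat_lit 5) 
(.lf (nat_lit 162506) (.g (nat_lit 4188) (.e (nat_lit 57447) (nat_lit 19) (.e (nat_lit 393234) (nat_lit 17) (.e (nat_lit 7581) (nat_lit 405) (.e (nat_lit 57477) (nat_lit 28) (.e (nat_lit 557103) (nat_lit 14) (.e (nat_lit 180225) (nat_lit 0) (.e (nat_lit 5954) (nat_lit 322) .nil))))))) (.g (nat_lit 6) .nil .nil))) 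
(.lf (nat_lit 162538) (.g (nat_lit 2563) (.e (nat_lit 57447) (nat_lit 19) (.e (nat_lit 393234) (nat_lit 17) (.e (nat_lit 7581) (nat_lit 405) (.e (nat_lit 57479) (nat_lit 28) (.e (nat_lit 557105) (nat_lit 14) (.e (nat_lit 180224) (nat_lit 0) (.e (nat_lit 5946) (nat_lit 322) .nil))))))) (.g (nat_lit 4) .nil .nil)))) (.nd (nat_lit 5) 
(.lf (nat_lit 162522) (.g (nat_lit 2473) (.e (nat_lit 57447) (nat_lit 19) (.e (nat_lit 393234) (nat_lit 17) (.e (nat_lit 7581) (nat_lit 405) (.e (nat_lit 57477) (nat_lit 28) (.e (nat_lit 557104) (nat_lit 14) (.e (nat_lit 180224) (nat_lit 0) (.e (nat_lit 5951) (nat_lit 322) .nil))))))) (.g (nat_lit 4) .nil .nil))) 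
(.lf (nat_lit 162554) (.g (nat_lit 3097) (.e (nat_lit 57447) (nat_lit 19) (.e (nat_lit 393234) (nat_lit 17) (.e (nat_lit 7581) (nat_lit 405) (.e (nat_lit 57480) (nat_lit 28) (.e (nat_lit 557103) (nat_lit 14) (.e (nat_lit 180225) (nat_lit 0) (.e (nat_lit 5945) (nat_lit 322) .nil))))))) (.g (nat_lit 5) .nil .nil)))))) (.nd (nat_lit 3) (.nd (nat_lit 4) (.nd (nat_lit 5) 
(.lf (nat_lit 162502) (.g (nat_lit 3209) (.e (nat_lit 57447) (nat_lit 19) (.e (nat_lit 393234) (nat_lit 17) (.e (nat_lit 7581) (nat_lit 405) (.e (nat_lit 57477) (nat_lit 28) (.e (nat_lit 557097) (nat_lit 13) (.e (nat_lit 172070) (nat_lit 4) (.e (nat_lit 229708) (nat_lit 256) .nil))))))) (.g (nat_lit 5) .nil .nil))) 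
(.lf (nat_lit 162534) (.g (nat_lit 2819) (.e (nat_lit 57447) (nat_lit 19) (.e (nat_lit 393234) (nat_lit 17) (.e (nat_lit 7581) (nat_lit 405) (.e (nat_lit 57479) (nat_lit 28) (.e (nat_lit 557101) (nat_lit 13) (.e (nat_lit 172068) (nat_lit 4) (.e (nat_lit 229708) (nat_lit 256) .nil))))))) (.g (nat_lit 5) .nil .nil)))) (.nd (nat_lit 5) 
(.lf (nat_lit 162518) (.g (nat_lit 3243) (.e (nat_lit 57447) (nat_lit 19) (.e (nat_lit 393234) (nat_lit 17) (.e (nat_lit 7581) (nat_lit 405) (.e (nat_lit 57477) (nat_lit 28) (.e (nat_lit 557103) (nat_lit 14) (.e (nat_lit 188160) (nat_lit 0) (.e (nat_lit 5937) (nat_lit 322) .nil))))))) (.g (nat_lit 5) .nil .nil))) 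
(.lf (nat_lit 162550) (.g (nat_lit 1985) (.e (nat_lit 57447) (nat_lit 19) (.e (nat_lit 393234) (nat_lit 17) (.e (nat_lit 7581) (nat_lit 405) (.e (nat_lit 57480) (nat_lit 28) (.e (nat_lit 557103) (nat_lit 14) .nil))))) .nil)))) (.nd (nat_lit 4) (.nd (nat_lit 5) 
(.lf (nat_lit 162510) (.g (nat_lit 2550) (.e (nat_lit 57447) (nat_lit 19) (.e (nat_lit 393234) (nat_lit 17) (.e (nat_lit 7581) (nat_lit 405) (.e (nat_lit 57477) (nat_lit 28) (.e (nat_lit 557103) (nat_lit 14) (.e (nat_lit 180229) (nat_lit 0) (.e (nat_lit 5952) (nat_lit 322) .nil))))))) (.g (nat_lit 4) .nil .nil))) 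
(.lf (nat_lit 162542) (.g (nat_lit 2377) (.e (nat_lit 57447) (nat_lit 19) (.e (nat_lit 393234) (nat_lit 17) (.e (nat_lit 7581) (nat_lit 405) (.e (nat_lit 57480) (nat_lit 28) (.e (nat_lit 557096) (nat_lit 13) (.e (nat_lit 172070) (nat_lit 4) (.e (nat_lit 229708) (nat_lit 256) .nil))))))) (.g (nat_lit 4) .nil .nil)))) (.nd (nat_lit 5) 
(.lf (nat_lit 162526) (.g (nat_lit 3074) (.e (nat_lit 57447) (nat_lit 19) (.e (nat_lit 393234) (nat_lit 17) (.e (nat_lit 7581) (nat_lit 405) (.e (nat_lit 57477) (nat_lit 28) (.e (nat_lit 557104) (nat_lit 14) (.e (nat_lit 180229) (nat_lit 0) (.e (nat_lit 5950) (nat_lit 322) .nil))))))) (.g (nat_lit 5) .nil .nil))) 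
(.lf (nat_lit 162558) (.g (nat_lit 2518) (.e (nat_lit 57447) (nat_lit 19) (.e (nat_lit 393234) (nat_lit 17) (.e (nat_lit 7581) (nat_lit 405) (.e (nat_lit 57480) (nat_lit 28) (.e (nat_lit 557103) (nat_lit 14) (.e (nat_lit 180228) (nat_lit 0) (.e (nat_lit 5952) (nat_lit 322) .nil))))))) (.g (nat_lit 4) .nil .nil)))))))) 
(.nd (nat_lit 1) (.nd (nat_lit 2) (.nd (nat_lit 3) (.nd (nat_lit 4) (.nd (nat_lit 5) 
(.lf (nat_lit 162497) (.g (nat_lit 2405) (.e (nat_lit 57447) (nat_lit 19) (.e (nat_lit 393234) (nat_lit 17) (.e (nat_lit 7581) (nat_lit 405) (.e (nat_lit 57476) (nat_lit 28) (.e (nat_lit 557104) (nat_lit 14) (.e (nat_lit 188160) (nat_lit 0) (.e (nat_lit 5953) (nat_lit 322) .nil))))))) (.g (nat_lit 4) .nil .nil))) 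
(.lf (nat_lit 162529) (.g (nat_lit 3167) (.e (nat_lit 57447) (nat_lit 19) (.e (nat_lit 393234) (nat_lit 17) (.e (nat_lit 7581) (nat_lit 405) (.e (nat_lit 57477) (nat_lit 28) (.e (nat_lit 557104) (nat_lit 14) (.e (nat_lit 180231) (nat_lit 0) (.e (nat_lit 5944) (nat_lit 322) .nil))))))) (.g (nat_lit 5) .nil .nil)))) (.nd (nat_lit 5) 
(.lf (nat_lit 162513) (.g (nat_lit 2544) (.e (nat_lit 57447) (nat_lit 19) (.e (nat_lit 393234) (nat_lit 17) (.e (nat_lit 7581) (nat_lit 405) (.e (nat_lit 57477) (nat_lit 28) (.e (nat_lit 557103) (nat_lit 14) (.e (nat_lit 180232) (nat_lit 0) (.e (nat_lit 5946) (nat_lit 322) .nil))))))) (.g (nat_lit 4) .nil .nil))) 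
(.lf (nat_lit 162545) (.g (nat_lit 3790) (.e (nat_lit 57447) (nat_lit 19) (.e (nat_lit 393234) (nat_lit 17) (.e (nat_lit 7581) (nat_lit 405) (.e (nat_lit 57480) (nat_lit 28) (.e (nat_lit 557098) (nat_lit 13) (.e (nat_lit 172059) (nat_lit 1) (.e (nat_lit 164398) (nat_lit 256) .nil))))))) (.g (nat_lit 5) .nil .nil))))) (.nd (nat_lit 4) (.nd (nat_lit 5) 
(.lf (nat_lit 162505) (.g (nat_lit 2777) (.e (nat_lit 57447) (nat_lit 19) (.e (nat_lit 393234) (nat_lit 17) (.e (nat_lit 7581) (nat_lit 405) (.e (nat_lit 57477) (nat_lit 28) (.e (nat_lit 557103) (nat_lit 14) (.e (nat_lit 180225) (nat_lit 0) (.e (nat_lit 5945) (nat_lit 322) .nil))))))) (.g (nat_lit 5) .nil .nil))) 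
(.lf (nat_lit 162537) (.g (nat_lit 1923) (.e (nat_lit 57447) (nat_lit 19) (.e (nat_lit 393234) (nat_lit 17) (.e (nat_lit 7581) (nat_lit 405) (.e (nat_lit 57479) (nat_lit 28) (.e (nat_lit 557105) (nat_lit 14) .nil))))) .nil))) (.nd (nat_lit 5) 
(.lf (nat_lit 162521) (.g (nat_lit 2936) (.e (nat_lit 57447) (nat_lit 19) (.e (nat_lit 393234) (nat_lit 17) (.e (nat_lit 7581) (nat_lit 405) (.e (nat_lit 57477) (nat_lit 28) (.e (nat_lit 557104) (nat_lit 14) (.e (nat_lit 180224) (nat_lit 0) (.e (nat_lit 5946) (nat_lit 322) .nil))))))) (.g (nat_lit 5) .nil .nil))) 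
(.lf (nat_lit 162553) (.g (nat_lit 3273) (.e (nat_lit 57447) (nat_lit 19) (.e (nat_lit 393234) (nat_lit 17) (.e (nat_lit 7581) (nat_lit 405) (.e (nat_lit 57480) (nat_lit 28) (.e (nat_lit 557103) (nat_lit 14) (.e (nat_lit 180224) (nat_lit 0) (.e (nat_lit 5953) (nat_lit 322) .nil))))))) (.g (nat_lit 5) .nil .nil)))))) (.nd (nat_lit 3) (.nd (nat_lit 4) (.nd (nat_lit 5) 
(.lf (nat_lit 162501) (.g (nat_lit 2380) (.e (nat_lit 57447) (nat_lit 19) (.e (nat_lit 393234) (nat_lit 17) (.e (nat_lit 7581) (nat_lit 405) (.e (nat_lit 57477) (nat_lit 28) (.e (nat_lit 557097) (nat_lit 13) (.e (nat_lit 172068) (nat_lit 4) (.e (nat_lit 229708) (nat_lit 256) .nil))))))) (.g (nat_lit 4) .nil .nil))) 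
(.lf (nat_lit 162533) (.g (nat_lit 1741) (.e (nat_lit 57447) (nat_lit 19) (.e (nat_lit 393234) (nat_lit 17) (.e (nat_lit 7581) (nat_lit 405) (.e (nat_lit 57479) (nat_lit 28) (.e (nat_lit 557101) (nat_lit 13) .nil))))) .nil))) (.nd (nat_lit 5) 
(.lf (nat_lit 162517) (.g (nat_lit 2868) (.e (nat_lit 57447) (nat_lit 19) (.e (nat_lit 393234) (nat_lit 17) (.e (nat_lit 7581) (nat_lit 405) (.e (nat_lit 57477) (nat_lit 28) (.e (nat_lit 557103) (nat_lit 14) (.e (nat_lit 188160) (nat_lit 0) (.e (nat_lit 5936) (nat_lit 322) .nil))))))) (.g (nat_lit 5) .nil .nil))) 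
(.lf (nat_lit 162549) (.g (nat_lit 3515) (.e (nat_lit 57447) (nat_lit 19) (.e (nat_lit 393234) (nat_lit 17) (.e (nat_lit 7581) (nat_lit 405) (.e (nat_lit 57480) (nat_lit 28) (.e (nat_lit 557098) (nat_lit 13) (.e (nat_lit 172070) (nat_lit 4) (.e (nat_lit 229708) (nat_lit 256) .nil))))))) (.g (nat_lit 5) .nil .nil))))) (.nd (nat_lit 4) (.nd (nat_lit 5) 
(.lf (nat_lit 162509) (.g (nat_lit 2485) (.e (nat_lit 57447) (nat_lit 19) (.e (nat_lit 393234) (nat_lit 17) (.e (nat_lit 7581) (nat_lit 405) (.e (nat_lit 57477) (nat_lit 28) (.e (nat_lit 557103) (nat_lit 14) (.e (nat_lit 180229) (nat_lit 0) (.e (nat_lit 5950) (nat_lit 322) .nil))))))) (.g (nat_lit 4) .nil .nil))) 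
(.lf (nat_lit 162541) (.g (nat_lit 2212) (.e (nat_lit 57447) (nat_lit 19) (.e (nat_lit 393234) (nat_lit 17) (.e (nat_lit 7581) (nat_lit 405) (.e (nat_lit 57480) (nat_lit 28) (.e (nat_lit 557096) (nat_lit 13) .nil))))) .nil))) (.nd (nat_lit 5) 
(.lf (nat_lit 162525) (.g (nat_lit 4146) (.e (nat_lit 57447) (nat_lit 19) (.e (nat_lit 393234) (nat_lit 17) (.e (nat_lit 7581) (nat_lit 405) (.e (nat_lit 57477) (nat_lit 28) (.e (nat_lit 557104) (nat_lit 14) (.e (nat_lit 180229) (nat_lit 0) (.e (nat_lit 5946) (nat_lit 322) .nil))))))) (.g (nat_lit 6) .nil .nil))) 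
(.lf (nat_lit 162557) (.g (nat_lit 3558) (.e (nat_lit 57447) (nat_lit 19) (.e (nat_lit 393234) (nat_lit 17) (.e (nat_lit 7581) (nat_lit 405) (.e (nat_lit 57480) (nat_lit 28) (.e (nat_lit 557103) (nat_lit 14) (.e (nat_lit 180228) (nat_lit 0) (.e (nat_lit 5951) (nat_lit 322) .nil))))))) (.g (nat_lit 5) .nil .nil))))))) (.nd (nat_lit 2) (.nd (nat_lit 3) (.nd (nat_lit 4) (.nd (nat_lit 5) 
(.lf (nat_lit 162499) (.g (nat_lit 1815) (.e (nat_lit 57447) (nat_lit 19) (.e (nat_lit 393234) (nat_lit 17) (.e (nat_lit 7581) (nat_lit 405) (.e (nat_lit 57477) (nat_lit 28) (.e (nat_lit 557096) (nat_lit 13) .nil))))) .nil)) 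
(.lf (nat_lit 162531) (.g (nat_lit 1388) (.e (nat_lit 57447) (nat_lit 19) (.e (nat_lit 393234) (nat_lit 17) (.e (nat_lit 7581) (nat_lit 405) (.e (nat_lit 57479) (nat_lit 28) .nil)))) .nil))) (.nd (nat_lit 5) 
(.lf (nat_lit 162515) (.g (nat_lit 3010) (.e (nat_lit 57447) (nat_lit 19) (.e (nat_lit 393234) (nat_lit 17) (.e (nat_lit 7581) (nat_lit 405) (.e (nat_lit 57477) (nat_lit 28) (.e (nat_lit 557103) (nat_lit 14) (.e (nat_lit 180233) (nat_lit 0) (.e (nat_lit 5948) (nat_lit 322) .nil))))))) (.g (nat_lit 5) .nil .nil))) 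
(.lf (nat_lit 162547) (.g (nat_lit 3559) (.e (nat_lit 57447) (nat_lit 19) (.e (nat_lit 393234) (nat_lit 17) (.e (nat_lit 7581) (nat_lit 405) (.e (nat_lit 57480) (nat_lit 28) (.e (nat_lit 557098) (nat_lit 13) (.e (nat_lit 172060) (nat_lit 1) (.e (nat_lit 164403) (nat_lit 256) .nil))))))) (.g (nat_lit 5) .nil .nil))))) (.nd (nat_lit 4) (.nd (nat_lit 5) 
(.lf (nat_lit 162507) (.g (nat_lit 3126) (.e (nat_lit 57447) (nat_lit 19) (.e (nat_lit 393234) (nat_lit 17) (.e (nat_lit 7581) (nat_lit 405) (.e (nat_lit 57477) (nat_lit 28) (.e (nat_lit 557103) (nat_lit 14) (.e (nat_lit 180228) (nat_lit 0) (.e (nat_lit 5946) (nat_lit 322) .nil))))))) (.g (nat_lit 5) .nil .nil))) 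
(.lf (nat_lit 162539) (.g (nat_lit 3524) (.e (nat_lit 57447) (nat_lit 19) (.e (nat_lit 393234) (nat_lit 17) (.e (nat_lit 7581) (nat_lit 405) (.e (nat_lit 57479) (nat_lit 28) (.e (nat_lit 557105) (nat_lit 14) (.e (nat_lit 180227) (nat_lit 0) (.e (nat_lit 5945) (nat_lit 322) .nil))))))) (.g (nat_lit 5) .nil .nil)))) (.nd (nat_lit 5) 
(.lf (nat_lit 162523) (.g (nat_lit 2435) (.e (nat_lit 57447) (nat_lit 19) (.e (nat_lit 393234) (nat_lit 17) (.e (nat_lit 7581) (nat_lit 405) (.e (nat_lit 57477) (nat_lit 28) (.e (nat_lit 557104) (nat_lit 14) (.e (nat_lit 180227) (nat_lit 0) (.e (nat_lit 5934) (nat_lit 322) .nil))))))) (.g (nat_lit 4) .nil .nil))) 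
(.lf (nat_lit 162555) (.g (nat_lit 4508) (.e (nat_lit 57447) (nat_lit 19) (.e (nat_lit 393234) (nat_lit 17) (.e (nat_lit 7581) (nat_lit 405) (.e (nat_lit 57480) (nat_lit 28) (.e (nat_lit 557103) (nat_lit 14) (.e (nat_lit 180225) (nat_lit 0) (.e (nat_lit 5954) (nat_lit 322) .nil))))))) (.g (nat_lit 6) .nil .nil)))))) (.nd (nat_lit 3) (.nd (nat_lit 4) (.nd (nat_lit 5) 
(.lf (nat_lit 162503) (.g (nat_lit 2301) (.e (nat_lit 57447) (nat_lit 19) (.e (nat_lit 393234) (nat_lit 17) (.e (nat_lit 7581) (nat_lit 405) (.e (nat_lit 57477) (nat_lit 28) (.e (nat_lit 557103) (nat_lit 14) (.e (nat_lit 180224) (nat_lit 0) (.e (nat_lit 5936) (nat_lit 322) .nil))))))) (.g (nat_lit 4) .nil .nil))) 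
(.lf (nat_lit 162535) (.g (nat_lit 4062) (.e (nat_lit 57447) (nat_lit 19) (.e (nat_lit 393234) (nat_lit 17) (.e (nat_lit 7581) (nat_lit 405) (.e (nat_lit 57479) (nat_lit 28) (.e (nat_lit 557101) (nat_lit 13) (.e (nat_lit 172070) (nat_lit 4) (.e (nat_lit 229708) (nat_lit 256) .nil))))))) (.g (nat_lit 7) .nil .nil)))) (.nd (nat_lit 5) 
(.lf (nat_lit 162519) (.g (nat_lit 1690) (.e (nat_lit 57447) (nat_lit 19) (.e (nat_lit 393234) (nat_lit 17) (.e (nat_lit 7581) (nat_lit 405) (.e (nat_lit 57477) (nat_lit 28) (.e (nat_lit 557104) (nat_lit 14) .nil))))) .nil)) 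
(.lf (nat_lit 162551) (.g (nat_lit 3553) (.e (nat_lit 57447) (nat_lit 19) (.e (nat_lit 393234) (nat_lit 17) (.e (nat_lit 7581) (nat_lit 405) (.e (nat_lit 57480) (nat_lit 28) (.e (nat_lit 557103) (nat_lit 14) (.e (nat_lit 180224) (nat_lit 0) (.e (nat_lit 5937) (nat_lit 322) .nil))))))) (.g (nat_lit 5) .nil .nil))))) (.nd (nat_lit 4) (.nd (nat_lit 5) 
(.lf (nat_lit 162511) (.g (nat_lit 3870) (.e (nat_lit 57447) (nat_lit 19) (.e (nat_lit 393234) (nat_lit 17) (.e (nat_lit 7581) (nat_lit 405) (.e (nat_lit 57477) (nat_lit 28) (.e (nat_lit 557103) (nat_lit 14) (.e (nat_lit 180229) (nat_lit 0) (.e (nat_lit 5953) (nat_lit 322) .nil))))))) (.g (nat_lit 6) .nil .nil))) 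
(.lf (nat_lit 162543) (.g (nat_lit 2470) (.e (nat_lit 57447) (nat_lit 19) (.e (nat_lit 393234) (nat_lit 17) (.e (nat_lit 7581) (nat_lit 405) (.e (nat_lit 57480) (nat_lit 28) (.e (nat_lit 557097) (nat_lit 13) .nil))))) .nil))) (.nd (nat_lit 5) 
(.lf (nat_lit 162527) (.g (nat_lit 4203) (.e (nat_lit 57447) (nat_lit 19) (.e (nat_lit 393234) (nat_lit 17) (.e (nat_lit 7581) (nat_lit 405) (.e (nat_lit 57477) (nat_lit 28) (.e (nat_lit 557104) (nat_lit 14) (.e (nat_lit 180229) (nat_lit 0) (.e (nat_lit 5951) (nat_lit 322) .nil))))))) (.g (nat_lit 6) .nil .nil))) 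
(.lf (nat_lit 162559) (.g (nat_lit 2833) (.e (nat_lit 57447) (nat_lit 19) (.e (nat_lit 393234) (nat_lit 17) (.e (nat_lit 7581) (nat_lit 405) (.e (nat_lit 57480) (nat_lit 28) (.e (nat_lit 557103) (nat_lit 14) (.e (nat_lit 180229) (nat_lit 0) (.e (nat_lit 5950) (nat_lit 322) .nil))))))) (.g (nat_lit 4) .nil .nil)))))))))

noncomputable def tv2180 : DT := (.nd (nat_lit 0) (.nd (nat_lit 1) (.nd (nat_lit 2) (.nd (nat_lit 3) (.nd (nat_lit 4) (.nd (nat_lit 5) 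
(.lf (nat_lit 162560) (.g (nat_lit 2898) (.e (nat_lit 57447) (nat_lit 19) (.e (nat_lit 393234) (nat_lit 17) (.e (nat_lit 7581) (nat_lit 405) (.e (nat_lit 57480) (nat_lit 28) (.e (nat_lit 557103) (nat_lit 14) (.e (nat_lit 180229) (nat_lit 0) (.e (nat_lit 5952) (nat_lit 322) .nil))))))) (.g (nat_lit 4) .nil .nil))) 
(.lf (nat_lit 162592) (.g (nat_lit 830) (.e (nat_lit 57447) (nat_lit 19) (.e (nat_lit 393234) (nat_lit 17) (.e (nat_lit 7583) (nat_lit 405) (.e (nat_lit 57476) (nat_lit 28) .nil)))) .nil))) (.nd (nat_lit 5) 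
(.lf (nat_lit 162576) (.g (nat_lit 3929) (.e (nat_lit 57447) (nat_lit 19) (.e (nat_lit 393234) (nat_lit 17) (.e (nat_lit 7581) (nat_lit 405) (.e (nat_lit 57480) (nat_lit 28) (.e (nat_lit 557104) (nat_lit 14) (.e (nat_lit 180233) (nat_lit 0) (.e (nat_lit 5947) (nat_lit 322) .nil))))))) (.g (nat_lit 5) .nil .nil))) 
(.lf (nat_lit 162608) (.g (nat_lit 2405) (.e (nat_lit 57447) (nat_lit 19) (.e (nat_lit 393234) (nat_lit 17) (.e (nat_lit 7583) (nat_lit 405) (.e (nat_lit 57476) (nat_lit 28) (.e (nat_lit 557103) (nat_lit 14) (.e (nat_lit 188160) (nat_lit 0) (.e (nat_lit 5936) (nat_lit 322) .nil))))))) (.g (nat_lit 5) .nil .nil))))) (.nd (nat_lit 4) (.nd (nat_lit 5) 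
(.lf (nat_lit 162568) (.g (nat_lit 2572) (.e (nat_lit 57447) (nat_lit 19) (.e (nat_lit 393234) (nat_lit 17) (.e (nat_lit 7581) (nat_lit 405) (.e (nat_lit 57480) (nat_lit 28) (.e (nat_lit 557103) (nat_lit 14) (.e (nat_lit 188160) (nat_lit 0) (.e (nat_lit 5953) (nat_lit 322) .nil))))))) (.g (nat_lit 4) .nil .nil))) 
(.lf (nat_lit 162600) (.g (nat_lit 3365) (.e (nat_lit 57447) (nat_lit 19) (.e (nat_lit 393234) (nat_lit 17) (.e (nat_lit 7583) (nat_lit 405) (.e (nat_lit 57476) (nat_lit 28) (.e (nat_lit 557103) (nat_lit 14) (.e (nat_lit 180225) (nat_lit 0) (.e (nat_lit 5954) (nat_lit 322) .nil))))))) (.g (nat_lit 5) .nil .nil)))) (.nd (nat_lit 5) 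
(.lf (nat_lit 162584) (.g (nat_lit 2702) (.e (nat_lit 57447) (nat_lit 19) (.e (nat_lit 393234) (nat_lit 17) (.e (nat_lit 7581) (nat_lit 405) (.e (nat_lit 57480) (nat_lit 28) (.e (nat_lit 557105) (nat_lit 14) (.e (nat_lit 180226) (nat_lit 0) (.e (nat_lit 5945) (nat_lit 322) .nil))))))) (.g (nat_lit 5) .nil .nil))) 
(.lf (nat_lit 162616) (.g (nat_lit 3777) (.e (nat_lit 57447) (nat_lit 19) (.e (nat_lit 393234) (nat_lit 17) (.e (nat_lit 7583) (nat_lit 405) (.e (nat_lit 57476) (nat_lit 28) (.e (nat_lit 557104) (nat_lit 14) (.e (nat_lit 180229) (nat_lit 0) (.e (nat_lit 5946) (nat_lit 322) .nil))))))) (.g (nat_lit 6) .nil .nil)))))) (.nd (nat_lit 3) (.nd (nat_lit 4) (.nd (nat_lit 5) 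
(.lf (nat_lit 162564) (.g (nat_lit 2814) (.e (nat_lit 57447) (nat_lit 19) (.e (nat_lit 393234) (nat_lit 17) (.e (nat_lit 7581) (nat_lit 405) (.e (nat_lit 57480) (nat_lit 28) (.e (nat_lit 557103) (nat_lit 14) (.e (nat_lit 180233) (nat_lit 0) (.e (nat_lit 5947) (nat_lit 322) .nil))))))) (.g (nat_lit 4) .nil .nil))) 
(.lf (nat_lit 162596) (.g (nat_lit 2544) (.e (nat_lit 57447) (nat_lit 19) (.e (nat_lit 393234) (nat_lit 17) (.e (nat_lit 7583) (nat_lit 405) (.e (nat_lit 57476) (nat_lit 28) (.e (nat_lit 557097) (nat_lit 13) (.e (nat_lit 172068) (nat_lit 4) (.e (nat_lit 229708) (nat_lit 256) .nil))))))) (.g (nat_lit 5) .nil .nil)))) (.nd (nat_lit 5) 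
(.lf (nat_lit 162580) (.g (nat_lit 2522) (.e (nat_lit 57447) (nat_lit 19) (.e (nat_lit 393234) (nat_lit 17) (.e (nat_lit 7581) (nat_lit 405) (.e (nat_lit 57480) (nat_lit 28) (.e (nat_lit 557105) (nat_lit 14) (.e (nat_lit 180224) (nat_lit 0) (.e (nat_lit 5941) (nat_lit 322) .nil))))))) (.g (nat_lit 4) .nil .nil))) 
(.lf (nat_lit 162612) (.g (nat_lit 1891) (.e (nat_lit 57447) (nat_lit 19) (.e (nat_lit 393234) (nat_lit 17) (.e (nat_lit 7583) (nat_lit 405) (.e (nat_lit 57476) (nat_lit 28) (.e (nat_lit 557104) (nat_lit 14) (.e (nat_lit 180224) (nat_lit 0) (.e (nat_lit 5951) (nat_lit 322) .nil))))))) (.g (nat_lit 4) .nil .nil))))) (.nd (nat_lit 4) (.nd (nat_lit 5) 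
(.lf (nat_lit 162572) (.g (nat_lit 3939) (.e (nat_lit 57447) (nat_lit 19) (.e (nat_lit 393234) (nat_lit 17) (.e (nat_lit 7581) (nat_lit 405) (.e (nat_lit 57480) (nat_lit 28) (.e (nat_lit 557104) (nat_lit 14) (.e (nat_lit 180229) (nat_lit 0) (.e (nat_lit 5946) (nat_lit 322) .nil))))))) (.g (nat_lit 5) .nil .nil))) 
(.lf (nat_lit 162604) (.g (nat_lit 2884) (.e (nat_lit 57447) (nat_lit 19) (.e (nat_lit 393234) (nat_lit 17) (.e (nat_lit 7583) (nat_lit 405) (.e (nat_lit 57476) (nat_lit 28) (.e (nat_lit 557103) (nat_lit 14) (.e (nat_lit 180229) (nat_lit 0) (.e (nat_lit 5951) (nat_lit 322) .nil))))))) (.g (nat_lit 5) .nil .nil)))) (.nd (nat_lit 5) 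
(.lf (nat_lit 162588) (.g (nat_lit 3450) (.e (nat_lit 57447) (nat_lit 19) (.e (nat_lit 393234) (nat_lit 17) (.e (nat_lit 7581) (nat_lit 405) (.e (nat_lit 57480) (nat_lit 28) (.e (nat_lit 557105) (nat_lit 14) (.e (nat_lit 180230) (nat_lit 0) (.e (nat_lit 5951) (nat_lit 322) .nil))))))) (.g (nat_lit 5) .nil .nil))) 
(.lf (nat_lit 162620) (.g (nat_lit 2217) (.e (nat_lit 57447) (nat_lit 19) (.e (nat_lit 393234) (nat_lit 17) (.e (nat_lit 7583) (nat_lit 405) (.e (nat_lit 57476) (nat_lit 28) (.e (nat_lit 557104) (nat_lit 14) (.e (nat_lit 180230) (nat_lit 0) (.e (nat_lit 5946) (nat_lit 322) .nil))))))) (.g (nat_lit 4) .nil .nil))))))) (.nd (nat_lit 2) (.nd (nat_lit 3) (.nd (nat_lit 4) (.nd (nat_lit 5) 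
(.lf (nat_lit 162562) (.g (nat_lit 3356) (.e (nat_lit 57447) (nat_lit 19) (.e (nat_lit 393234) (nat_lit 17) (.e (nat_lit 7581) (nat_lit 405) (.e (nat_lit 57480) (nat_lit 28) (.e (nat_lit 557103) (nat_lit 14) (.e (nat_lit 180231) (nat_lit 0) (.e (nat_lit 5944) (nat_lit 322) .nil))))))) (.g (nat_lit 5) .nil .nil))) 
(.lf (nat_lit 162594) (.g (nat_lit 2182) (.e (nat_lit 57447) (nat_lit 19) (.e (nat_lit 393234) (nat_lit 17) (.e (nat_lit 7583) (nat_lit 405) (.e (nat_lit 57476) (nat_lit 28) (.e (nat_lit 557097) (nat_lit 13) (.e (nat_lit 172045) (nat_lit 0) (.e (nat_lit 2468) (nat_lit 157) (.e (nat_lit 5936) (nat_lit 322) .nil)))))))) (.g (nat_lit 4) .nil .nil)))) (.nd (nat_lit 5) 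
(.lf (nat_lit 162578) (.g (nat_lit 1726) (.e (nat_lit 57447) (nat_lit 19) (.e (nat_lit 393234) (nat_lit 17) (.e (nat_lit 7581) (nat_lit 405) (.e (nat_lit 57480) (nat_lit 28) (.e (nat_lit 557105) (nat_lit 14) .nil))))) .nil)) 
(.lf (nat_lit 162610) (.g (nat_lit 1381) (.e (nat_lit 57447) (nat_lit 19) (.e (nat_lit 393234) (nat_lit 17) (.e (nat_lit 7583) (nat_lit 405) (.e (nat_lit 57476) (nat_lit 28) (.e (nat_lit 557104) (nat_lit 14) .nil))))) .nil)))) (.nd (nat_lit 4) (.nd (nat_lit 5) 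
(.lf (nat_lit 162570) (.g (nat_lit 3006) (.e (nat_lit 57447) (nat_lit 19) (.e (nat_lit 393234) (nat_lit 17) (.e (nat_lit 7581) (nat_lit 405) (.e (nat_lit 57480) (nat_lit 28) (.e (nat_lit 557104) (nat_lit 14) (.e (nat_lit 180224) (nat_lit 0) (.e (nat_lit 5936) (nat_lit 322) .nil))))))) (.g (nat_lit 4) .nil .nil))) 
(.lf (nat_lit 162602) (.g (nat_lit 3061) (.e (nat_lit 57447) (nat_lit 19) (.e (nat_lit 393234) (nat_lit 17) (.e (nat_lit 7583) (nat_lit 405) (.e (nat_lit 57476) (nat_lit 28) (.e (nat_lit 557103) (nat_lit 14) (.e (nat_lit 180228) (nat_lit 0) (.e (nat_lit 5953) (nat_lit 322) .nil))))))) (.g (nat_lit 5) .nil .nil)))) (.nd (nat_lit 5) 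
(.lf (nat_lit 162586) (.g (nat_lit 3963) (.e (nat_lit 57447) (nat_lit 19) (.e (nat_lit 393234) (nat_lit 17) (.e (nat_lit 7581) (nat_lit 405) (.e (nat_lit 57480) (nat_lit 28) (.e (nat_lit 557105) (nat_lit 14) (.e (nat_lit 180227) (nat_lit 0) (.e (nat_lit 5945) (nat_lit 322) .nil))))))) (.g (nat_lit 6) .nil .nil))) 
(.lf (nat_lit 162618) (.g (nat_lit 3578) (.e (nat_lit 57447) (nat_lit 19) (.e (nat_lit 393234) (nat_lit 17) (.e (nat_lit 7583) (nat_lit 405) (.e (nat_lit 57476) (nat_lit 28) (.e (nat_lit 557104) (nat_lit 14) (.e (nat_lit 180229) (nat_lit 0) (.e (nat_lit 5951) (nat_lit 322) .nil))))))) (.g (nat_lit 6) .nil .nil)))))) (.nd (nat_lit 3) (.nd (nat_lit 4) (.nd (nat_lit 5) 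
(.lf (nat_lit 162566) (.g (nat_lit 3667) (.e (nat_lit 57447) (nat_lit 19) (.e (nat_lit 393234) (nat_lit 17) (.e (nat_lit 7581) (nat_lit 405) (.e (nat_lit 57480) (nat_lit 28) (.e (nat_lit 557103) (nat_lit 14) (.e (nat_lit 180233) (nat_lit 0) (.e (nat_lit 5949) (nat_lit 322) .nil))))))) (.g (nat_lit 5) .nil .nil))) 
(.lf (nat_lit 162598) (.g (nat_lit 1827) (.e (nat_lit 57447) (nat_lit 19) (.e (nat_lit 393234) (nat_lit 17) (.e (nat_lit 7583) (nat_lit 405) (.e (nat_lit 57476) (nat_lit 28) (.e (nat_lit 557103) (nat_lit 14) (.e (nat_lit 180224) (nat_lit 0) (.e (nat_lit 5936) (nat_lit 322) .nil))))))) (.g (nat_lit 4) .nil .nil)))) (.nd (nat_lit 5) 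
(.lf (nat_lit 162582) (.g (nat_lit 2854) (.e (nat_lit 57447) (nat_lit 19) (.e (nat_lit 393234) (nat_lit 17) (.e (nat_lit 7581) (nat_lit 405) (.e (nat_lit 57480) (nat_lit 28) (.e (nat_lit 557105) (nat_lit 14) (.e (nat_lit 180224) (nat_lit 0) (.e (nat_lit 5951) (nat_lit 322) .nil))))))) (.g (nat_lit 5) .nil .nil))) 
(.lf (nat_lit 162614) (.g (nat_lit 1990) (.e (nat_lit 57447) (nat_lit 19) (.e (nat_lit 393234) (nat_lit 17) (.e (nat_lit 7583) (nat_lit 405) (.e (nat_lit 57476) (nat_lit 28) (.e (nat_lit 557104) (nat_lit 14) (.e (nat_lit 180227) (nat_lit 0) (.e (nat_lit 5934) (nat_lit 322) .nil))))))) (.g (nat_lit 4) .nil .nil))))) (.nd (nat_lit 4) (.nd (nat_lit 5) 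
(.lf (nat_lit 162574) (.g (nat_lit 4310) (.e (nat_lit 57447) (nat_lit 19) (.e (nat_lit 393234) (nat_lit 17) (.e (nat_lit 7581) (nat_lit 405) (.e (nat_lit 57480) (nat_lit 28) (.e (nat_lit 557104) (nat_lit 14) (.e (nat_lit 180229) (nat_lit 0) (.e (nat_lit 5953) (nat_lit 322) .nil))))))) (.g (nat_lit 5) .nil .nil))) 
(.lf (nat_lit 162606) (.g (nat_lit 2729) (.e (nat_lit 57447) (nat_lit 19) (.e (nat_lit 393234) (nat_lit 17) (.e (nat_lit 7583) (nat_lit 405) (.e (nat_lit 57476) (nat_lit 28) (.e (nat_lit 557103) (nat_lit 14) (.e (nat_lit 180233) (nat_lit 0) (.e (nat_lit 5946) (nat_lit 322) .nil))))))) (.g (nat_lit 5) .nil .nil)))) (.nd (nat_lit 5) 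
(.lf (nat_lit 162590) (.g (nat_lit 2770) (.e (nat_lit 57447) (nat_lit 19) (.e (nat_lit 393234) (nat_lit 17) (.e (nat_lit 7581) (nat_lit 405) (.e (nat_lit 57480) (nat_lit 28) (.e (nat_lit 557105) (nat_lit 14) (.e (nat_lit 188160) (nat_lit 0) (.e (nat_lit 5936) (nat_lit 322) .nil))))))) (.g (nat_lit 5) .nil .nil))) 
(.lf (nat_lit 162622) (.g (nat_lit 2907) (.e (nat_lit 57447) (nat_lit 19) (.e (nat_lit 393234) (nat_lit 17) (.e (nat_lit 7583) (nat_lit 405) (.e (nat_lit 57476) (nat_lit 28) (.e (nat_lit 557104) (nat_lit 14) (.e (nat_lit 180233) (nat_lit 0) (.e (nat_lit 5947) (nat_lit 322) .nil))))))) (.g (nat_lit 5) .nil .nil)))))))) 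
(.nd (nat_lit 1) (.nd (nat_lit 2) (.nd (nat_lit 3) (.nd (nat_lit 4) (.nd (nat_lit 5) 
(.lf (nat_lit 162561) (.g (nat_lit 4260) (.e (nat_lit 57447) (nat_lit 19) (.e (nat_lit 393234) (nat_lit 17) (.e (nat_lit 7581) (nat_lit 405) (.e (nat_lit 57480) (nat_lit 28) (.e (nat_lit 557103) (nat_lit 14) (.e (nat_lit 180229) (nat_lit 0) (.e (nat_lit 5953) (nat_lit 322) .nil))))))) (.g (nat_lit 6) .nil .nil))) 
(.lf (nat_lit 162593) (.g (nat_lit 1833) (.e (nat_lit 57447) (nat_lit 19) (.e (nat_lit 393234) (nat_lit 17) (.e (nat_lit 7583) (nat_lit 405) (.e (nat_lit 57476) (nat_lit 28) (.e (nat_lit 557097) (nat_lit 13) (.e (nat_lit 172045) (nat_lit 0) (.e (nat_lit 2458) (nat_lit 157) (.e (nat_lit 5936) (nat_lit 322) .nil)))))))) (.g (nat_lit 4) .nil .nil)))) (.nd (nat_lit 5) 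
(.lf (nat_lit 162577) (.g (nat_lit 3083) (.e (nat_lit 57447) (nat_lit 19) (.e (nat_lit 393234) (nat_lit 17) (.e (nat_lit 7581) (nat_lit 405) (.e (nat_lit 57480) (nat_lit 28) (.e (nat_lit 557104) (nat_lit 14) (.e (nat_lit 188160) (nat_lit 0) (.e (nat_lit 5937) (nat_lit 322) .nil))))))) (.g (nat_lit 4) .nil .nil))) 
(.lf (nat_lit 162609) (.g (nat_lit 2789) (.e (nat_lit 57447) (nat_lit 19) (.e (nat_lit 393234) (nat_lit 17) (.e (nat_lit 7583) (nat_lit 405) (.e (nat_lit 57476) (nat_lit 28) (.e (nat_lit 557103) (nat_lit 14) (.e (nat_lit 188160) (nat_lit 0) (.e (nat_lit 5937) (nat_lit 322) .nil))))))) (.g (nat_lit 5) .nil .nil))))) (.nd (nat_lit 4) (.nd (nat_lit 5) 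
(.lf (nat_lit 162569) (.g (nat_lit 2493) (.e (nat_lit 57447) (nat_lit 19) (.e (nat_lit 393234) (nat_lit 17) (.e (nat_lit 7581) (nat_lit 405) (.e (nat_lit 57480) (nat_lit 28) (.e (nat_lit 557104) (nat_lit 14) .nil))))) .nil)) 
(.lf (nat_lit 162601) (.g (nat_lit 2486) (.e (nat_lit 57447) (nat_lit 19) (.e (nat_lit 393234) (nat_lit 17) (.e (nat_lit 7583) (nat_lit 405) (.e (nat_lit 57476) (nat_lit 28) (.e (nat_lit 557103) (nat_lit 14) (.e (nat_lit 180228) (nat_lit 0) (.e (nat_lit 5951) (nat_lit 322) .nil))))))) (.g (nat_lit 5) .nil .nil)))) (.nd (nat_lit 5) 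
(.lf (nat_lit 162585) (.g (nat_lit 3526) (.e (nat_lit 57447) (nat_lit 19) (.e (nat_lit 393234) (nat_lit 17) (.e (nat_lit 7581) (nat_lit 405) (.e (nat_lit 57480) (nat_lit 28) (.e (nat_lit 557105) (nat_lit 14) (.e (nat_lit 180226) (nat_lit 0) (.e (nat_lit 5954) (nat_lit 322) .nil))))))) (.g (nat_lit 5) .nil .nil))) 
(.lf (nat_lit 162617) (.g (nat_lit 2380) (.e (nat_lit 57447) (nat_lit 19) (.e (nat_lit 393234) (nat_lit 17) (.e (nat_lit 7583) (nat_lit 405) (.e (nat_lit 57476) (nat_lit 28) (.e (nat_lit 557104) (nat_lit 14) (.e (nat_lit 180229) (nat_lit 0) (.e (nat_lit 5950) (nat_lit 322) .nil))))))) (.g (nat_lit 5) .nil .nil)))))) (.nd (nat_lit 3) (.nd (nat_lit 4) (.nd (nat_lit 5) 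
(.lf (nat_lit 162565) (.g (nat_lit 3390) (.e (nat_lit 57447) (nat_lit 19) (.e (nat_lit 393234) (nat_lit 17) (.e (nat_lit 7581) (nat_lit 405) (.e (nat_lit 57480) (nat_lit 28) (.e (nat_lit 557103) (nat_lit 14) (.e (nat_lit 180233) (nat_lit 0) (.e (nat_lit 5948) (nat_lit 322) .nil))))))) (.g (nat_lit 5) .nil .nil))) 
(.lf (nat_lit 162597) (.g (nat_lit 3312) (.e (nat_lit 57447) (nat_lit 19) (.e (nat_lit 393234) (nat_lit 17) (.e (nat_lit 7583) (nat_lit 405) (.e (nat_lit 57476) (nat_lit 28) (.e (nat_lit 557097) (nat_lit 13) (.e (nat_lit 172070) (nat_lit 4) (.e (nat_lit 229708) (nat_lit 256) .nil))))))) (.g (nat_lit 6) .nil .nil)))) (.nd (nat_lit 5) 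
(.lf (nat_lit 162581) (.g (nat_lit 3317) (.e (nat_lit 57447) (nat_lit 19) (.e (nat_lit 393234) (nat_lit 17) (.e (nat_lit 7581) (nat_lit 405) (.e (nat_lit 57480) (nat_lit 28) (.e (nat_lit 557105) (nat_lit 14) (.e (nat_lit 180224) (nat_lit 0) (.e (nat_lit 5946) (nat_lit 322) .nil))))))) (.g (nat_lit 5) .nil .nil))) 
(.lf (nat_lit 162613) (.g (nat_lit 3045) (.e (nat_lit 57447) (nat_lit 19) (.e (nat_lit 393234) (nat_lit 17) (.e (nat_lit 7583) (nat_lit 405) (.e (nat_lit 57476) (nat_lit 28) (.e (nat_lit 557104) (nat_lit 14) (.e (nat_lit 180224) (nat_lit 0) (.e (nat_lit 5953) (nat_lit 322) .nil))))))) (.g (nat_lit 5) .nil .nil))))) (.nd (nat_lit 4) (.nd (nat_lit 5) 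
(.lf (nat_lit 162573) (.g (nat_lit 3996) (.e (nat_lit 57447) (nat_lit 19) (.e (nat_lit 393234) (nat_lit 17) (.e (nat_lit 7581) (nat_lit 405) (.e (nat_lit 57480) (nat_lit 28) (.e (nat_lit 557104) (nat_lit 14) (.e (nat_lit 180229) (nat_lit 0) (.e (nat_lit 5951) (nat_lit 322) .nil))))))) (.g (nat_lit 5) .nil .nil))) 
(.lf (nat_lit 162605) (.g (nat_lit 2061) (.e (nat_lit 57447) (nat_lit 19) (.e (nat_lit 393234) (nat_lit 17) (.e (nat_lit 7583) (nat_lit 405) (.e (nat_lit 57476) (nat_lit 28) (.e (nat_lit 557103) (nat_lit 14) (.e (nat_lit 180232) (nat_lit 0) (.e (nat_lit 5946) (nat_lit 322) .nil))))))) (.g (nat_lit 4) .nil .nil)))) (.nd (nat_lit 5) 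
(.lf (nat_lit 162589) (.g (nat_lit 2999) (.e (nat_lit 57447) (nat_lit 19) (.e (nat_lit 393234) (nat_lit 17) (.e (nat_lit 7581) (nat_lit 405) (.e (nat_lit 57480) (nat_lit 28) (.e (nat_lit 557105) (nat_lit 14) (.e (nat_lit 180230) (nat_lit 0) (.e (nat_lit 5952) (nat_lit 322) .nil))))))) (.g (nat_lit 5) .nil .nil))) 
(.lf (nat_lit 162621) (.g (nat_lit 2793) (.e (nat_lit 57447) (nat_lit 19) (.e (nat_lit 393234) (nat_lit 17) (.e (nat_lit 7583) (nat_lit 405) (.e (nat_lit 57476) (nat_lit 28) (.e (nat_lit 557104) (nat_lit 14) (.e (nat_lit 180231) (nat_lit 0) (.e (nat_lit 5944) (nat_lit 322) .nil))))))) (.g (nat_lit 5) .nil .nil))))))) (.nd (nat_lit 2) (.nd (nat_lit 3) (.nd (nat_lit 4) (.nd (nat_lit 5) 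
(.lf (nat_lit 162563) (.g (nat_lit 3592) (.e (nat_lit 57447) (nat_lit 19) (.e (nat_lit 393234) (nat_lit 17) (.e (nat_lit 7581) (nat_lit 405) (.e (nat_lit 57480) (nat_lit 28) (.e (nat_lit 557103) (nat_lit 14) (.e (nat_lit 180233) (nat_lit 0) (.e (nat_lit 5946) (nat_lit 322) .nil))))))) (.g (nat_lit 5) .nil .nil))) 
(.lf (nat_lit 162595) (.g (nat_lit 3257) (.e (nat_lit 57447) (nat_lit 19) (.e (nat_lit 393234) (nat_lit 17) (.e (nat_lit 7583) (nat_lit 405) (.e (nat_lit 57476) (nat_lit 28) (.e (nat_lit 557097) (nat_lit 13) (.e (nat_lit 172061) (nat_lit 1) (.e (nat_lit 164401) (nat_lit 256) .nil))))))) (.g (nat_lit 5) .nil .nil)))) (.nd (nat_lit 5) 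
(.lf (nat_lit 162579) (.g (nat_lit 3250) (.e (nat_lit 57447) (nat_lit 19) (.e (nat_lit 393234) (nat_lit 17) (.e (nat_lit 7581) (nat_lit 405) (.e (nat_lit 57480) (nat_lit 28) (.e (nat_lit 557105) (nat_lit 14) (.e (nat_lit 180224) (nat_lit 0) (.e (nat_lit 5936) (nat_lit 322) .nil))))))) (.g (nat_lit 5) .nil .nil))) 
(.lf (nat_lit 162611) (.g (nat_lit 2548) (.e (nat_lit 57447) (nat_lit 19) (.e (nat_lit 393234) (nat_lit 17) (.e (nat_lit 7583) (nat_lit 405) (.e (nat_lit 57476) (nat_lit 28) (.e (nat_lit 557104) (nat_lit 14) (.e (nat_lit 180224) (nat_lit 0) (.e (nat_lit 5936) (nat_lit 322) .nil))))))) (.g (nat_lit 5) .nil .nil))))) (.nd (nat_lit 4) (.nd (nat_lit 5) 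
(.lf (nat_lit 162571) (.g (nat_lit 3073) (.e (nat_lit 57447) (nat_lit 19) (.e (nat_lit 393234) (nat_lit 17) (.e (nat_lit 7581) (nat_lit 405) (.e (nat_lit 57480) (nat_lit 28) (.e (nat_lit 557104) (nat_lit 14) (.e (nat_lit 180224) (nat_lit 0) (.e (nat_lit 5946) (nat_lit 322) .nil))))))) (.g (nat_lit 4) .nil .nil))) 
(.lf (nat_lit 162603) (.g (nat_lit 3089) (.e (nat_lit 57447) (nat_lit 19) (.e (nat_lit 393234) (nat_lit 17) (.e (nat_lit 7583) (nat_lit 405) (.e (nat_lit 57476) (nat_lit 28) (.e (nat_lit 557103) (nat_lit 14) (.e (nat_lit 180229) (nat_lit 0) (.e (nat_lit 5946) (nat_lit 322) .nil))))))) (.g (nat_lit 5) .nil .nil)))) (.nd (nat_lit 5) 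
(.lf (nat_lit 162587) (.g (nat_lit 2496) (.e (nat_lit 57447) (nat_lit 19) (.e (nat_lit 393234) (nat_lit 17) (.e (nat_lit 7581) (nat_lit 405) (.e (nat_lit 57480) (nat_lit 28) (.e (nat_lit 557105) (nat_lit 14) (.e (nat_lit 180230) (nat_lit 0) (.e (nat_lit 5950) (nat_lit 322) .nil))))))) (.g (nat_lit 4) .nil .nil))) 
(.lf (nat_lit 162619) (.g (nat_lit 2452) (.e (nat_lit 57447) (nat_lit 19) (.e (nat_lit 393234) (nat_lit 17) (.e (nat_lit 7583) (nat_lit 405) (.e (nat_lit 57476) (nat_lit 28) (.e (nat_lit 557104) (nat_lit 14) (.e (nat_lit 180229) (nat_lit 0) (.e (nat_lit 5952) (nat_lit 322) .nil))))))) (.g (nat_lit 5) .nil .nil)))))) (.nd (nat_lit 3) (.nd (nat_lit 4) (.nd (nat_lit 5) 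
(.lf (nat_lit 162567) (.g (nat_lit 3216) (.e (nat_lit 57447) (nat_lit 19) (.e (nat_lit 393234) (nat_lit 17) (.e (nat_lit 7581) (nat_lit 405) (.e (nat_lit 57480) (nat_lit 28) (.e (nat_lit 557103) (nat_lit 14) (.e (nat_lit 188160) (nat_lit 0) (.e (nat_lit 5936) (nat_lit 322) .nil))))))) (.g (nat_lit 5) .nil .nil))) 
(.lf (nat_lit 162599) (.g (nat_lit 2272) (.e (nat_lit 57447) (nat_lit 19) (.e (nat_lit 393234) (nat_lit 17) (.e (nat_lit 7583) (nat_lit 405) (.e (nat_lit 57476) (nat_lit 28) (.e (nat_lit 557103) (nat_lit 14) (.e (nat_lit 180225) (nat_lit 0) (.e (nat_lit 5945) (nat_lit 322) .nil))))))) (.g (nat_lit 4) .nil .nil)))) (.nd (nat_lit 5) 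
(.lf (nat_lit 162583) (.g (nat_lit 2690) (.e (nat_lit 57447) (nat_lit 19) (.e (nat_lit 393234) (nat_lit 17) (.e (nat_lit 7581) (nat_lit 405) (.e (nat_lit 57480) (nat_lit 28) (.e (nat_lit 557105) (nat_lit 14) (.e (nat_lit 180224) (nat_lit 0) (.e (nat_lit 5952) (nat_lit 322) .nil))))))) (.g (nat_lit 4) .nil .nil))) 
(.lf (nat_lit 162615) (.g (nat_lit 2679) (.e (nat_lit 57447) (nat_lit 19) (.e (nat_lit 393234) (nat_lit 17) (.e (nat_lit 7583) (nat_lit 405) (.e (nat_lit 57476) (nat_lit 28) (.e (nat_lit 557104) (nat_lit 14) (.e (nat_lit 180227) (nat_lit 0) (.e (nat_lit 5945) (nat_lit 322) .nil))))))) (.g (nat_lit 5) .nil .nil))))) (.nd (nat_lit 4) (.nd (nat_lit 5) 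
(.lf (nat_lit 162575) (.g (nat_lit 4622) (.e (nat_lit 57447) (nat_lit 19) (.e (nat_lit 393234) (nat_lit 17) (.e (nat_lit 7581) (nat_lit 405) (.e (nat_lit 57480) (nat_lit 28) (.e (nat_lit 557104) (nat_lit 14) (.e (nat_lit 180233) (nat_lit 0) (.e (nat_lit 5946) (nat_lit 322) .nil))))))) (.g (nat_lit 6) .nil .nil))) 
(.lf (nat_lit 162607) (.g (nat_lit 2800) (.e (nat_lit 57447) (nat_lit 19) (.e (nat_lit 393234) (nat_lit 17) (.e (nat_lit 7583) (nat_lit 405) (.e (nat_lit 57476) (nat_lit 28) (.e (nat_lit 557103) (nat_lit 14) (.e (nat_lit 180233) (nat_lit 0) (.e (nat_lit 5949) (nat_lit 322) .nil))))))) (.g (nat_lit 5) .nil .nil)))) (.nd (nat_lit 5) 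
(.lf (nat_lit 162591) (.g (nat_lit 2482) (.e (nat_lit 57447) (nat_lit 19) (.e (nat_lit 393234) (nat_lit 17) (.e (nat_lit 7581) (nat_lit 405) (.e (nat_lit 57480) (nat_lit 28) (.e (nat_lit 557113) (nat_lit 17) .nil))))) .nil)) 
(.lf (nat_lit 162623) (.g (nat_lit 3618) (.e (nat_lit 57447) (nat_lit 19) (.e (nat_lit 393234) (nat_lit 17) (.e (nat_lit 7583) (nat_lit 405) (.e (nat_lit 57476) (nat_lit 28) (.e (nat_lit 557104) (nat_lit 14) (.e (nat_lit 180233) (nat_lit 0) (.e (nat_lit 5948) (nat_lit 322) .nil))))))) (.g (nat_lit 7) .nil .nil)))))))))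

noncomputable def tv2181 : DT := (.nd (nat_lit 0) (.nd (nat_lit 1) (.nd (nat_lit 2) (.nd (nat_lit 3) (.nd (nat_lit 4) (.nd (nat_lit 5) 
(.lf (nat_lit 162624) (.g (nat_lit 2795) (.e (nat_lit 57447) (nat_lit 19) (.e (nat_lit 393234) (nat_lit 17) (.e (nat_lit 7583) (nat_lit 405) (.e (nat_lit 57476) (nat_lit 28) (.e (nat_lit 557104) (nat_lit 14) (.e (nat_lit 188160) (nat_lit 0) (.e (nat_lit 5936) (nat_lit 322) .nil))))))) (.g (nat_lit 5) .nil .nil))) 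
(.lf (nat_lit 162656) (.g (nat_lit 2667) (.e (nat_lit 57447) (nat_lit 19) (.e (nat_lit 393271) (nat_lit 23) (.e (nat_lit 426131) (nat_lit 3) (.e (nat_lit 204808) (nat_lit 9) (.e (nat_lit 426098) (nat_lit 1) (.e (nat_lit 164398) (nat_lit 256) .nil)))))) (.g (nat_lit 5) .nil .nil)))) (.nd (nat_lit 5) 
(.lf (nat_lit 162640) (.g (nat_lit 1983) (.e (nat_lit 57447) (nat_lit 19) (.e (nat_lit 393260) (nat_lit 21) (.e (nat_lit 409649) (nat_lit 18) (.e (nat_lit 303122) (nat_lit 6) .nil)))) .nil)) 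
(.lf (nat_lit 162672) (.g (nat_lit 3466) (.e (nat_lit 57447) (nat_lit 19) (.e (nat_lit 393271) (nat_lit 23) (.e (nat_lit 426131) (nat_lit 3) (.e (nat_lit 204809) (nat_lit 9) (.e (nat_lit 426108) (nat_lit 1) (.e (nat_lit 164401) (nat_lit 256) .nil)))))) (.g (nat_lit 0) .nil .nil))))) (.nd (nat_lit 4) (.nd (nat_lit 5) 
(.lf (nat_lit 162632) (.g (nat_lit 2902) (.e (nat_lit 57447) (nat_lit 19) (.e (nat_lit 393253) (nat_lit 18) (.e (nat_lit 164189) (nat_lit 157) (.e (nat_lit 229409) (nat_lit 13) (.e (nat_lit 434232) (nat_lit 23) (.e (nat_lit 532504) (nat_lit 1) (.e (nat_lit 57735) (nat_lit 183) .nil))))))) (.g (nat_lit 4) .nil .nil))) 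
(.lf (nat_lit 162664) (.g (nat_lit 3043) (.e (nat_lit 57447) (nat_lit 19) (.e (nat_lit 393271) (nat_lit 23) (.e (nat_lit 426131) (nat_lit 3) (.e (nat_lit 204809) (nat_lit 9) (.e (nat_lit 426098) (nat_lit 1) (.e (nat_lit 164399) (nat_lit 256) .nil)))))) (.g (nat_lit 0) .nil .nil)))) (.nd (nat_lit 5) 
(.lf (nat_lit 162648) (.g (nat_lit 1765) (.e (nat_lit 57447) (nat_lit 19) (.e (nat_lit 393268) (nat_lit 23) (.e (nat_lit 426128) (nat_lit 2) (.e (nat_lit 196656) (nat_lit 11) .nil)))) .nil)) 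
(.lf (nat_lit 162680) (.g (nat_lit 1694) (.e (nat_lit 57447) (nat_lit 19) (.e (nat_lit 393274) (nat_lit 23) (.e (nat_lit 426132) (nat_lit 3) (.e (nat_lit 204809) (nat_lit 9) (.e (nat_lit 426107) (nat_lit 1) (.e (nat_lit 164401) (nat_lit 256) .nil)))))) (.g (nat_lit 4) .nil .nil)))))) (.nd (nat_lit 3) (.nd (nat_lit 4) (.nd (nat_lit 5) 
(.lf (nat_lit 162628) (.g (nat_lit 2510) (.e (nat_lit 57447) (nat_lit 19) (.e (nat_lit 393238) (nat_lit 17) (.e (nat_lit 2527) (nat_lit 157) (.e (nat_lit 5195) (nat_lit 294) (.e (nat_lit 57448) (nat_lit 19) (.e (nat_lit 393234) (nat_lit 17) (.e (nat_lit 2415) (nat_lit 157) (.e (nat_lit 5205) (nat_lit 294) .nil)))))))) (.g (nat_lit 4) .nil .nil))) 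
(.lf (nat_lit 162660) (.g (nat_lit 1811) (.e (nat_lit 57447) (nat_lit 19) (.e (nat_lit 393271) (nat_lit 23) (.e (nat_lit 426131) (nat_lit 3) (.e (nat_lit 204808) (nat_lit 9) (.e (nat_lit 426105) (nat_lit 1) .nil))))) .nil))) (.nd (nat_lit 5) 
(.lf (nat_lit 162644) (.g (nat_lit 2181) (.e (nat_lit 57447) (nat_lit 19) (.e (nat_lit 393266) (nat_lit 23) (.e (nat_lit 426125) (nat_lit 2) (.e (nat_lit 196656) (nat_lit 11) .nil)))) .nil)) 
(.lf (nat_lit 162676) (.g (nat_lit 2475) (.e (nat_lit 57447) (nat_lit 19) (.e (nat_lit 393271) (nat_lit 23) (.e (nat_lit 426131) (nat_lit 3) (.e (nat_lit 204812) (nat_lit 9) (.e (nat_lit 426098) (nat_lit 1) (.e (nat_lit 164399) (nat_lit 256) .nil)))))) (.g (nat_lit 5) .nil .nil))))) (.nd (nat_lit 4) (.nd (nat_lit 5) 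
(.lf (nat_lit 162636) (.g (nat_lit 3845) (.e (nat_lit 57447) (nat_lit 19) (.e (nat_lit 393260) (nat_lit 21) (.e (nat_lit 409616) (nat_lit 10) (.e (nat_lit 632) (nat_lit 50) (.e (nat_lit 573489) (nat_lit 14) (.e (nat_lit 73731) (nat_lit 0) (.e (nat_lit 7936) (nat_lit 271) .nil))))))) (.g (nat_lit 5) .nil .nil))) 
(.lf (nat_lit 162668) (.g (nat_lit 3193) (.e (nat_lit 57447) (nat_lit 19) (.e (nat_lit 393271) (nat_lit 23) (.e (nat_lit 426131) (nat_lit 3) (.e (nat_lit 204809) (nat_lit 9) (.e (nat_lit 426100) (nat_lit 1) (.e (nat_lit 164399) (nat_lit 256) .nil)))))) (.g (nat_lit 0) .nil .nil)))) (.nd (nat_lit 5) 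
(.lf (nat_lit 162652) (.g (nat_lit 607) (.e (nat_lit 57447) (nat_lit 19) (.e (nat_lit 393271) (nat_lit 23) (.e (nat_lit 425986) (nat_lit 0) .nil))) .nil)) 
(.lf (nat_lit 162684) (.g (nat_lit 1959) (.e (nat_lit 57447) (nat_lit 19) (.e (nat_lit 393275) (nat_lit 23) (.e (nat_lit 426125) (nat_lit 2) (.e (nat_lit 196652) (nat_lit 11) .nil)))) .nil)))))) (.nd (nat_lit 2) (.nd (nat_lit 3) (.nd (nat_lit 4) (.nd (nat_lit 5) 
(.lf (nat_lit 162626) (.g (nat_lit 2163) (.e (nat_lit 57447) (nat_lit 19) (.e (nat_lit 393234) (nat_lit 17) (.e (nat_lit 7583) (nat_lit 405) (.e (nat_lit 57476) (nat_lit 28) (.e (nat_lit 557104) (nat_lit 14) (.e (nat_lit 188160) (nat_lit 0) (.e (nat_lit 5953) (nat_lit 322) .nil))))))) (.g (nat_lit 4) .nil .nil))) 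
(.lf (nat_lit 162658) (.g (nat_lit 2952) (.e (nat_lit 57447) (nat_lit 19) (.e (nat_lit 393271) (nat_lit 23) (.e (nat_lit 426131) (nat_lit 3) (.e (nat_lit 204808) (nat_lit 9) (.e (nat_lit 426098) (nat_lit 1) (.e (nat_lit 164403) (nat_lit 256) .nil)))))) (.g (nat_lit 5) .nil .nil)))) (.nd (nat_lit 5) 
(.lf (nat_lit 162642) (.g (nat_lit 3010) (.e (nat_lit 57447) (nat_lit 19) (.e (nat_lit 393266) (nat_lit 23) (.e (nat_lit 426125) (nat_lit 2) (.e (nat_lit 196630) (nat_lit 9) (.e (nat_lit 430) (nat_lit 32) (.e (nat_lit 426098) (nat_lit 1) (.e (nat_lit 164398) (nat_lit 256) .nil))))))) (.g (nat_lit 4) .nil .nil))) 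
(.lf (nat_lit 162674) (.g (nat_lit 1759) (.e (nat_lit 57447) (nat_lit 19) (.e (nat_lit 393271) (nat_lit 23) (.e (nat_lit 426131) (nat_lit 3) (.e (nat_lit 204809) (nat_lit 9) (.e (nat_lit 433920) (nat_lit 1) (.e (nat_lit 164403) (nat_lit 256) .nil)))))) (.g (nat_lit 4) .nil .nil))))) (.nd (nat_lit 4) (.nd (nat_lit 5) 
(.lf (nat_lit 162634) (.g (nat_lit 824) (.e (nat_lit 57447) (nat_lit 19) (.e (nat_lit 393253) (nat_lit 18) (.e (nat_lit 164319) (nat_lit 228) .nil))) .nil)) 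
(.lf (nat_lit 162666) (.g (nat_lit 1698) (.e (nat_lit 57447) (nat_lit 19) (.e (nat_lit 393271) (nat_lit 23) (.e (nat_lit 426131) (nat_lit 3) (.e (nat_lit 204809) (nat_lit 9) (.e (nat_lit 426099) (nat_lit 1) (.e (nat_lit 164398) (nat_lit 256) .nil)))))) (.g (nat_lit 4) .nil .nil)))) (.nd (nat_lit 5) 
(.lf (nat_lit 162650) (.g (nat_lit 2521) (.e (nat_lit 57447) (nat_lit 19) (.e (nat_lit 393268) (nat_lit 23) (.e (nat_lit 426428) (nat_lit 17) (.e (nat_lit 90196) (nat_lit 18) .nil)))) .nil)) 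
(.lf (nat_lit 162682) (.g (nat_lit 2847) (.e (nat_lit 57447) (nat_lit 19) (.e (nat_lit 393275) (nat_lit 23) (.e (nat_lit 426125) (nat_lit 2) (.e (nat_lit 196630) (nat_lit 9) (.e (nat_lit 430) (nat_lit 32) (.e (nat_lit 426099) (nat_lit 1) (.e (nat_lit 164399) (nat_lit 256) .nil))))))) (.g (nat_lit 4) .nil .nil)))))) (.nd (nat_lit 3) (.nd (nat_lit 4) (.nd (nat_lit 5) 
(.lf (nat_lit 162630) (.g (nat_lit 1231) (.e (nat_lit 57447) (nat_lit 19) (.e (nat_lit 393251) (nat_lit 18) (.e (nat_lit 164300) (nat_lit 226) .nil))) .nil)) 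
(.lf (nat_lit 162662) (.g (nat_lit 3389) (.e (nat_lit 57447) (nat_lit 19) (.e (nat_lit 393271) (nat_lit 23) (.e (nat_lit 426131) (nat_lit 3) (.e (nat_lit 204808) (nat_lit 9) (.e (nat_lit 426108) (nat_lit 1) (.e (nat_lit 164403) (nat_lit 256) .nil)))))) (.g (nat_lit 6) .nil .nil)))) (.nd (nat_lit 5) 
(.lf (nat_lit 162646) (.g (nat_lit 1137) (.e (nat_lit 57447) (nat_lit 19) (.e (nat_lit 393266) (nat_lit 23) (.e (nat_lit 426140) (nat_lit 3) (.e (nat_lit 204809) (nat_lit 9) .nil)))) .nil)) 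
(.lf (nat_lit 162678) (.g (nat_lit 1015) (.e (nat_lit 57447) (nat_lit 19) (.e (nat_lit 393271) (nat_lit 23) (.e (nat_lit 426131) (nat_lit 3) (.e (nat_lit 212736) (nat_lit 9) .nil)))) .nil)))) (.nd (nat_lit 4) (.nd (nat_lit 5) 
(.lf (nat_lit 162638) (.g (nat_lit 2651) (.e (nat_lit 57447) (nat_lit 19) (.e (nat_lit 393260) (nat_lit 21) (.e (nat_lit 409617) (nat_lit 10) (.e (nat_lit 632) (nat_lit 50) (.e (nat_lit 573489) (nat_lit 14) .nil))))) .nil)) 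
(.lf (nat_lit 162670) (.g (nat_lit 1705) (.e (nat_lit 57447) (nat_lit 19) (.e (nat_lit 393271) (nat_lit 23) (.e (nat_lit 426131) (nat_lit 3) (.e (nat_lit 204809) (nat_lit 9) (.e (nat_lit 426106) (nat_lit 1) .nil))))) .nil))) (.nd (nat_lit 5) 
(.lf (nat_lit 162654) (.g (nat_lit 1335) (.e (nat_lit 57447) (nat_lit 19) (.e (nat_lit 393271) (nat_lit 23) (.e (nat_lit 426128) (nat_lit 2) (.e (nat_lit 196628) (nat_lit 9) .nil)))) .nil)) 
(.lf (nat_lit 162686) (.g (nat_lit 2179) (.e (nat_lit 57447) (nat_lit 19) (.e (nat_lit 393277) (nat_lit 23) (.e (nat_lit 426134) (nat_lit 3) (.e (nat_lit 204813) (nat_lit 9) (.e (nat_lit 426098) (nat_lit 1) (.e (nat_lit 164399) (nat_lit 256) .nil)))))) (.g (nat_lit 6) .nil .nil)))))))) (.nd (nat_lit 1) (.nd (nat_lit 2) (.nd (nat_lit 3) (.nd (nat_lit 4) (.nd (nat_lit 5) 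
(.lf (nat_lit 162625) (.g (nat_lit 2935) (.e (nat_lit 57447) (nat_lit 19) (.e (nat_lit 393234) (nat_lit 17) (.e (nat_lit 7583) (nat_lit 405) (.e (nat_lit 57476) (nat_lit 28) (.e (nat_lit 557104) (nat_lit 14) (.e (nat_lit 188160) (nat_lit 0) (.e (nat_lit 5937) (nat_lit 322) .nil))))))) (.g (nat_lit 5) .nil .nil))) 
(.lf (nat_lit 162657) (.g (nat_lit 3035) (.e (nat_lit 57447) (nat_lit 19) (.e (nat_lit 393271) (nat_lit 23) (.e (nat_lit 426131) (nat_lit 3) (.e (nat_lit 204808) (nat_lit 9) (.e (nat_lit 426098) (nat_lit 1) (.e (nat_lit 164399) (nat_lit 256) .nil)))))) (.g (nat_lit 6) .nil .nil)))) (.nd (nat_lit 5) 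
(.lf (nat_lit 162641) (.g (nat_lit 2294) (.e (nat_lit 57447) (nat_lit 19) (.e (nat_lit 393266) (nat_lit 23) (.e (nat_lit 426125) (nat_lit 2) (.e (nat_lit 196630) (nat_lit 9) (.e (nat_lit 430) (nat_lit 32) .nil))))) .nil)) 
(.lf (nat_lit 162673) (.g (nat_lit 3383) (.e (nat_lit 57447) (nat_lit 19) (.e (nat_lit 393271) (nat_lit 23) (.e (nat_lit 426131) (nat_lit 3) (.e (nat_lit 204809) (nat_lit 9) (.e (nat_lit 426108) (nat_lit 1) (.e (nat_lit 164403) (nat_lit 256) .nil)))))) (.g (nat_lit 0) .nil .nil))))) (.nd (nat_lit 4) (.nd (nat_lit 5) 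
(.lf (nat_lit 162633) (.g (nat_lit 824) (.e (nat_lit 57447) (nat_lit 19) (.e (nat_lit 393253) (nat_lit 18) (.e (nat_lit 164299) (nat_lit 226) .nil))) .nil)) 
(.lf (nat_lit 162665) (.g (nat_lit 3608) (.e (nat_lit 57447) (nat_lit 19) (.e (nat_lit 393271) (nat_lit 23) (.e (nat_lit 426131) (nat_lit 3) (.e (nat_lit 204809) (nat_lit 9) (.e (nat_lit 426098) (nat_lit 1) (.e (nat_lit 164403) (nat_lit 256) .nil)))))) (.g (nat_lit 0) .nil .nil)))) (.nd (nat_lit 5) 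
(.lf (nat_lit 162649) (.g (nat_lit 1503) (.e (nat_lit 57447) (nat_lit 19) (.e (nat_lit 393268) (nat_lit 23) (.e (nat_lit 426428) (nat_lit 17) .nil))) .nil)) 
(.lf (nat_lit 162681) (.g (nat_lit 2621) (.e (nat_lit 57447) (nat_lit 19) (.e (nat_lit 393275) (nat_lit 23) (.e (nat_lit 426125) (nat_lit 2) (.e (nat_lit 196630) (nat_lit 9) (.e (nat_lit 430) (nat_lit 32) .nil))))) .nil))))) (.nd (nat_lit 3) (.nd (nat_lit 4) (.nd (nat_lit 5) 
(.lf (nat_lit 162629) (.g (nat_lit 487) (.e (nat_lit 57447) (nat_lit 19) (.e (nat_lit 393238) (nat_lit 17) (.e (nat_lit 7936) (nat_lit 405) .nil))) .nil)) 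
(.lf (nat_lit 162661) (.g (nat_lit 2939) (.e (nat_lit 57447) (nat_lit 19) (.e (nat_lit 393271) (nat_lit 23) (.e (nat_lit 426131) (nat_lit 3) (.e (nat_lit 204808) (nat_lit 9) (.e (nat_lit 426107) (nat_lit 1) (.e (nat_lit 164403) (nat_lit 256) .nil)))))) (.g (nat_lit 5) .nil .nil)))) (.nd (nat_lit 5) 
(.lf (nat_lit 162645) (.g (nat_lit 2199) (.e (nat_lit 57447) (nat_lit 19) (.e (nat_lit 393266) (nat_lit 23) (.e (nat_lit 426140) (nat_lit 3) (.e (nat_lit 204808) (nat_lit 9) (.e (nat_lit 426108) (nat_lit 1) (.e (nat_lit 164403) (nat_lit 256) .nil)))))) (.g (nat_lit 4) .nil .nil))) 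
(.lf (nat_lit 162677) (.g (nat_lit 3194) (.e (nat_lit 57447) (nat_lit 19) (.e (nat_lit 393271) (nat_lit 23) (.e (nat_lit 426131) (nat_lit 3) (.e (nat_lit 204812) (nat_lit 9) (.e (nat_lit 426100) (nat_lit 1) (.e (nat_lit 164399) (nat_lit 256) .nil)))))) (.g (nat_lit 0) .nil .nil))))) (.nd (nat_lit 4) (.nd (nat_lit 5) 
(.lf (nat_lit 162637) (.g (nat_lit 1751) (.e (nat_lit 57447) (nat_lit 19) (.e (nat_lit 393260) (nat_lit 21) (.e (nat_lit 409617) (nat_lit 10) (.e (nat_lit 632) (nat_lit 50) .nil)))) .nil)) 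
(.lf (nat_lit 162669) (.g (nat_lit 3964) (.e (nat_lit 57447) (nat_lit 19) (.e (nat_lit 393271) (nat_lit 23) (.e (nat_lit 426131) (nat_lit 3) (.e (nat_lit 204809) (nat_lit 9) (.e (nat_lit 426100) (nat_lit 1) (.e (nat_lit 164403) (nat_lit 256) .nil)))))) (.g (nat_lit 0) .nil .nil)))) (.nd (nat_lit 5) 
(.lf (nat_lit 162653) (.g (nat_lit 1085) (.e (nat_lit 57447) (nat_lit 19) (.e (nat_lit 393271) (nat_lit 23) (.e (nat_lit 426127) (nat_lit 2) .nil))) .nil)) 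
(.lf (nat_lit 162685) (.g (nat_lit 1288) (.e (nat_lit 57447) (nat_lit 19) (.e (nat_lit 393275) (nat_lit 23) (.e (nat_lit 426140) (nat_lit 3) (.e (nat_lit 204809) (nat_lit 9) .nil)))) .nil)))))) (.nd (nat_lit 2) (.nd (nat_lit 3) (.nd (nat_lit 4) (.nd (nat_lit 5) 
(.lf (nat_lit 162627) (.g (nat_lit 434) (.e (nat_lit 57447) (nat_lit 19) (.e (nat_lit 393234) (nat_lit 17) (.e (nat_lit 7591) (nat_lit 407) .nil))) .nil)) 
(.lf (nat_lit 162659) (.g (nat_lit 3522) (.e (nat_lit 57447) (nat_lit 19) (.e (nat_lit 393271) (nat_lit 23) (.e (nat_lit 426131) (nat_lit 3) (.e (nat_lit 204808) (nat_lit 9) (.e (nat_lit 426100) (nat_lit 1) (.e (nat_lit 164399) (nat_lit 256) .nil)))))) (.g (nat_lit 0) .nil .nil)))) (.nd (nat_lit 5) 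
(.lf (nat_lit 162643) (.g (nat_lit 2819) (.e (nat_lit 57447) (nat_lit 19) (.e (nat_lit 393266) (nat_lit 23) (.e (nat_lit 426125) (nat_lit 2) (.e (nat_lit 196630) (nat_lit 9) (.e (nat_lit 430) (nat_lit 32) (.e (nat_lit 426100) (nat_lit 1) (.e (nat_lit 164399) (nat_lit 256) .nil))))))) (.g (nat_lit 4) .nil .nil))) 
(.lf (nat_lit 162675) (.g (nat_lit 1106) (.e (nat_lit 57447) (nat_lit 19) (.e (nat_lit 393271) (nat_lit 23) (.e (nat_lit 426131) (nat_lit 3) (.e (nat_lit 204812) (nat_lit 9) .nil)))) .nil)))) (.nd (nat_lit 4) (.nd (nat_lit 5) 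
(.lf (nat_lit 162635) (.g (nat_lit 1248) (.e (nat_lit 57447) (nat_lit 19) (.e (nat_lit 393260) (nat_lit 21) (.e (nat_lit 409616) (nat_lit 10) (.e (nat_lit 632) (nat_lit 50) .nil)))) .nil)) 
(.lf (nat_lit 162667) (.g (nat_lit 3478) (.e (nat_lit 57447) (nat_lit 19) (.e (nat_lit 393271) (nat_lit 23) (.e (nat_lit 426131) (nat_lit 3) (.e (nat_lit 204809) (nat_lit 9) (.e (nat_lit 426100) (nat_lit 1) (.e (nat_lit 164398) (nat_lit 256) .nil)))))) (.g (nat_lit 0) .nil .nil)))) (.nd (nat_lit 5) 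
(.lf (nat_lit 162651) (.g (nat_lit 2247) (.e (nat_lit 57447) (nat_lit 19) (.e (nat_lit 393270) (nat_lit 23) (.e (nat_lit 426131) (nat_lit 3) (.e (nat_lit 204809) (nat_lit 9) (.e (nat_lit 426107) (nat_lit 1) (.e (nat_lit 164401) (nat_lit 256) .nil)))))) (.g (nat_lit 4) .nil .nil))) 
(.lf (nat_lit 162683) (.g (nat_lit 3407) (.e (nat_lit 57447) (nat_lit 19) (.e (nat_lit 393275) (nat_lit 23) (.e (nat_lit 426125) (nat_lit 2) (.e (nat_lit 196630) (nat_lit 9) (.e (nat_lit 430) (nat_lit 32) (.e (nat_lit 426100) (nat_lit 1) (.e (nat_lit 164398) (nat_lit 256) .nil))))))) (.g (nat_lit 4) .nil .nil)))))) (.nd (nat_lit 3) (.nd (nat_lit 4) (.nd (nat_lit 5) 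
(.lf (nat_lit 162631) (.g (nat_lit 2265) (.e (nat_lit 57447) (nat_lit 19) (.e (nat_lit 393252) (nat_lit 18) (.e (nat_lit 164332) (nat_lit 230) (.e (nat_lit 163874) (nat_lit 3) (.e (nat_lit 204829) (nat_lit 18) .nil))))) .nil)) 
(.lf (nat_lit 162663) (.g (nat_lit 3391) (.e (nat_lit 57447) (nat_lit 19) (.e (nat_lit 393271) (nat_lit 23) (.e (nat_lit 426131) (nat_lit 3) (.e (nat_lit 204809) (nat_lit 9) (.e (nat_lit 426098) (nat_lit 1) (.e (nat_lit 164398) (nat_lit 256) .nil)))))) (.g (nat_lit 0) .nil .nil)))) (.nd (nat_lit 5) 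
(.lf (nat_lit 162647) (.g (nat_lit 2140) (.e (nat_lit 57447) (nat_lit 19) (.e (nat_lit 393266) (nat_lit 23) (.e (nat_lit 426140) (nat_lit 3) (.e (nat_lit 204809) (nat_lit 9) (.e (nat_lit 426108) (nat_lit 1) (.e (nat_lit 164401) (nat_lit 256) .nil)))))) (.g (nat_lit 4) .nil .nil))) 
(.lf (nat_lit 162679) (.g (nat_lit 2238) (.e (nat_lit 57447) (nat_lit 19) (.e (nat_lit 393271) (nat_lit 23) (.e (nat_lit 426436) (nat_lit 18) (.e (nat_lit 98335) (nat_lit 18) .nil)))) .nil)))) (.nd (nat_lit 4) (.nd (nat_lit 5) 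
(.lf (nat_lit 162639) (.g (nat_lit 3820) (.e (nat_lit 57447) (nat_lit 19) (.e (nat_lit 393260) (nat_lit 21) (.e (nat_lit 409617) (nat_lit 10) (.e (nat_lit 632) (nat_lit 50) (.e (nat_lit 573489) (nat_lit 14) (.e (nat_lit 73731) (nat_lit 0) (.e (nat_lit 7936) (nat_lit 271) .nil))))))) (.g (nat_lit 4) .nil .nil))) 
(.lf (nat_lit 162671) (.g (nat_lit 3420) (.e (nat_lit 57447) (nat_lit 19) (.e (nat_lit 393271) (nat_lit 23) (.e (nat_lit 426131) (nat_lit 3) (.e (nat_lit 204809) (nat_lit 9) (.e (nat_lit 426107) (nat_lit 1) (.e (nat_lit 164403) (nat_lit 256) .nil)))))) (.g (nat_lit 0) .nil .nil)))) (.nd (nat_lit 5) 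
(.lf (nat_lit 162655) (.g (nat_lit 409) (.e (nat_lit 57447) (nat_lit 19) (.e (nat_lit 393271) (nat_lit 23) (.e (nat_lit 426131) (nat_lit 3) .nil))) .nil)) 
(.lf (nat_lit 162687) (.g (nat_lit 2360) (.e (nat_lit 57447) (nat_lit 19) (.e (nat_lit 393277) (nat_lit 23) (.e (nat_lit 426135) (nat_lit 3) (.e (nat_lit 204809) (nat_lit 9) (.e (nat_lit 426098) (nat_lit 1) (.e (nat_lit 164398) (nat_lit 256) .nil)))))) (.g (nat_lit 0) .nil .nil)))))))))

noncomputable def tv2182 : DT := (.nd (nat_lit 0) (.nd (nat_lit 1) (.nd (nat_lit 2) (.nd (nat_lit 3) (.nd (nat_lit 4) (.nd (nat_lit 5) 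
(.lf (nat_lit 162688) (.g (nat_lit 2018) (.e (nat_lit 57447) (nat_lit 19) (.e (nat_lit 393277) (nat_lit 23) (.e (nat_lit 426135) (nat_lit 3) (.e (nat_lit 204809) (nat_lit 9) (.e (nat_lit 426098) (nat_lit 1) (.e (nat_lit 164399) (nat_lit 256) .nil)))))) (.g (nat_lit 0) .nil .nil))) 
(.lf (nat_lit 162720) (.g (nat_lit 2955) (.e (nat_lit 57447) (nat_lit 19) (.e (nat_lit 393281) (nat_lit 23) (.e (nat_lit 426116) (nat_lit 2) (.e (nat_lit 196654) (nat_lit 11) (.e (nat_lit 16406) (nat_lit 1) (.e (nat_lit 164399) (nat_lit 256) .nil)))))) (.g (nat_lit 0) .nil .nil)))) (.nd (nat_lit 5) 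
(.lf (nat_lit 162704) (.g (nat_lit 300) (.e (nat_lit 57447) (nat_lit 19) (.e (nat_lit 393281) (nat_lit 23) (.e (nat_lit 426115) (nat_lit 2) .nil))) .nil)) 
(.lf (nat_lit 162736) (.g (nat_lit 3200) (.e (nat_lit 57447) (nat_lit 19) (.e (nat_lit 393281) (nat_lit 23) (.e (nat_lit 426133) (nat_lit 3) (.e (nat_lit 204809) (nat_lit 9) (.e (nat_lit 426108) (nat_lit 1) (.e (nat_lit 164402) (nat_lit 256) .nil)))))) (.g (nat_lit 5) .nil .nil))))) (.nd (nat_lit 4) (.nd (nat_lit 5) 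
(.lf (nat_lit 162696) (.g (nat_lit 3018) (.e (nat_lit 57447) (nat_lit 19) (.e (nat_lit 393279) (nat_lit 23) (.e (nat_lit 426129) (nat_lit 3) (.e (nat_lit 204809) (nat_lit 9) (.e (nat_lit 426100) (nat_lit 1) (.e (nat_lit 164398) (nat_lit 256) .nil)))))) (.g (nat_lit 0) .nil .nil))) 
(.lf (nat_lit 162728) (.g (nat_lit 2527) (.e (nat_lit 57447) (nat_lit 19) (.e (nat_lit 393281) (nat_lit 23) (.e (nat_lit 426124) (nat_lit 2) (.e (nat_lit 196656) (nat_lit 11) (.e (nat_lit 16392) (nat_lit 0) (.e (nat_lit 2506) (nat_lit 157) (.e (nat_lit 5944) (nat_lit 322) .nil))))))) (.g (nat_lit 4) .nil .nil)))) (.nd (nat_lit 5) 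
(.lf (nat_lit 162712) (.g (nat_lit 2903) (.e (nat_lit 57447) (nat_lit 19) (.e (nat_lit 393281) (nat_lit 23) (.e (nat_lit 426116) (nat_lit 2) (.e (nat_lit 196624) (nat_lit 9) (.e (nat_lit 442) (nat_lit 33) (.e (nat_lit 434214) (nat_lit 18) (.e (nat_lit 5944) (nat_lit 322) .nil))))))) (.g (nat_lit 5) .nil .nil))) 
(.lf (nat_lit 162744) (.g (nat_lit 1020) (.e (nat_lit 57447) (nat_lit 19) (.e (nat_lit 393281) (nat_lit 23) (.e (nat_lit 426133) (nat_lit 3) (.e (nat_lit 212736) (nat_lit 10) .nil)))) .nil))))) (.nd (nat_lit 3) (.nd (nat_lit 4) (.nd (nat_lit 5) 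
(.lf (nat_lit 162692) (.g (nat_lit 2354) (.e (nat_lit 57447) (nat_lit 19) (.e (nat_lit 393277) (nat_lit 23) (.e (nat_lit 426135) (nat_lit 3) (.e (nat_lit 204809) (nat_lit 9) (.e (nat_lit 426108) (nat_lit 1) (.e (nat_lit 164403) (nat_lit 256) .nil)))))) (.g (nat_lit 0) .nil .nil))) 
(.lf (nat_lit 162724) (.g (nat_lit 2566) (.e (nat_lit 57447) (nat_lit 19) (.e (nat_lit 393281) (nat_lit 23) (.e (nat_lit 426116) (nat_lit 2) (.e (nat_lit 196656) (nat_lit 11) (.e (nat_lit 16392) (nat_lit 0) (.e (nat_lit 2397) (nat_lit 157) (.e (nat_lit 5941) (nat_lit 322) .nil))))))) (.g (nat_lit 4) .nil .nil)))) (.nd (nat_lit 5) 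
(.lf (nat_lit 162708) (.g (nat_lit 2430) (.e (nat_lit 57447) (nat_lit 19) (.e (nat_lit 393281) (nat_lit 23) (.e (nat_lit 426115) (nat_lit 2) (.e (nat_lit 196654) (nat_lit 11) (.e (nat_lit 16405) (nat_lit 1) (.e (nat_lit 164399) (nat_lit 256) .nil)))))) (.g (nat_lit 0) .nil .nil))) 
(.lf (nat_lit 162740) (.g (nat_lit 3393) (.e (nat_lit 57447) (nat_lit 19) (.e (nat_lit 393281) (nat_lit 23) (.e (nat_lit 426133) (nat_lit 3) (.e (nat_lit 204813) (nat_lit 9) (.e (nat_lit 426100) (nat_lit 1) (.e (nat_lit 164398) (nat_lit 256) .nil)))))) (.g (nat_lit 6) .nil .nil))))) (.nd (nat_lit 4) (.nd (nat_lit 5) 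
(.lf (nat_lit 162700) (.g (nat_lit 2889) (.e (nat_lit 57447) (nat_lit 19) (.e (nat_lit 393279) (nat_lit 23) (.e (nat_lit 426129) (nat_lit 3) (.e (nat_lit 204809) (nat_lit 9) (.e (nat_lit 426108) (nat_lit 1) (.e (nat_lit 164403) (nat_lit 256) .nil)))))) (.g (nat_lit 0) .nil .nil))) 
(.lf (nat_lit 162732) (.g (nat_lit 1405) (.e (nat_lit 57447) (nat_lit 19) (.e (nat_lit 393281) (nat_lit 23) (.e (nat_lit 426133) (nat_lit 3) (.e (nat_lit 204809) (nat_lit 9) (.e (nat_lit 426098) (nat_lit 1) .nil))))) .nil))) (.nd (nat_lit 5) 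
(.lf (nat_lit 162716) (.g (nat_lit 2505) (.e (nat_lit 57447) (nat_lit 19) (.e (nat_lit 393281) (nat_lit 23) (.e (nat_lit 426116) (nat_lit 2) (.e (nat_lit 196654) (nat_lit 11) (.e (nat_lit 16393) (nat_lit 0) (.e (nat_lit 2466) (nat_lit 157) (.e (nat_lit 5937) (nat_lit 322) .nil))))))) (.g (nat_lit 4) .nil .nil))) 
(.lf (nat_lit 162748) (.g (nat_lit 3263) (.e (nat_lit 57447) (nat_lit 19) (.e (nat_lit 393282) (nat_lit 24) (.e (nat_lit 434231) (nat_lit 23) (.e (nat_lit 532579) (nat_lit 26) (.e (nat_lit 426098) (nat_lit 1) (.e (nat_lit 164399) (nat_lit 256) .nil)))))) (.g (nat_lit 0) .nil .nil))))))) (.nd (nat_lit 2) (.nd (nat_lit 3) (.nd (nat_lit 4) (.nd (nat_lit 5) 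
(.lf (nat_lit 162690) (.g (nat_lit 2171) (.e (nat_lit 57447) (nat_lit 19) (.e (nat_lit 393277) (nat_lit 23) (.e (nat_lit 426135) (nat_lit 3) (.e (nat_lit 204809) (nat_lit 9) (.e (nat_lit 426100) (nat_lit 1) (.e (nat_lit 164399) (nat_lit 256) .nil)))))) (.g (nat_lit 0) .nil .nil))) 
(.lf (nat_lit 162722) (.g (nat_lit 2339) (.e (nat_lit 57447) (nat_lit 19) (.e (nat_lit 393281) (nat_lit 23) (.e (nat_lit 426116) (nat_lit 2) (.e (nat_lit 196656) (nat_lit 11) (.e (nat_lit 16388) (nat_lit 0) .nil))))) .nil))) (.nd (nat_lit 5) 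
(.lf (nat_lit 162706) (.g (nat_lit 1187) (.e (nat_lit 57447) (nat_lit 19) (.e (nat_lit 393281) (nat_lit 23) (.e (nat_lit 426115) (nat_lit 2) (.e (nat_lit 196654) (nat_lit 11) (.e (nat_lit 16386) (nat_lit 0) .nil))))) .nil)) 
(.lf (nat_lit 162738) (.g (nat_lit 1790) (.e (nat_lit 57447) (nat_lit 19) (.e (nat_lit 393281) (nat_lit 23) (.e (nat_lit 426133) (nat_lit 3) (.e (nat_lit 204812) (nat_lit 9) .nil)))) .nil)))) (.nd (nat_lit 4) (.nd (nat_lit 5) 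
(.lf (nat_lit 162698) (.g (nat_lit 2940) (.e (nat_lit 57447) (nat_lit 19) (.e (nat_lit 393279) (nat_lit 23) (.e (nat_lit 426129) (nat_lit 3) (.e (nat_lit 204809) (nat_lit 9) (.e (nat_lit 426107) (nat_lit 1) (.e (nat_lit 164403) (nat_lit 256) .nil)))))) (.g (nat_lit 0) .nil .nil))) 
(.lf (nat_lit 162730) (.g (nat_lit 2626) (.e (nat_lit 57447) (nat_lit 19) (.e (nat_lit 393281) (nat_lit 23) (.e (nat_lit 426124) (nat_lit 2) (.e (nat_lit 196656) (nat_lit 11) (.e (nat_lit 16407) (nat_lit 1) (.e (nat_lit 164401) (nat_lit 256) .nil)))))) (.g (nat_lit 4) .nil .nil)))) (.nd (nat_lit 5) 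
(.lf (nat_lit 162714) (.g (nat_lit 1948) (.e (nat_lit 57447) (nat_lit 19) (.e (nat_lit 393281) (nat_lit 23) (.e (nat_lit 426116) (nat_lit 2) (.e (nat_lit 196654) (nat_lit 11) (.e (nat_lit 16386) (nat_lit 0) .nil))))) .nil)) 
(.lf (nat_lit 162746) (.g (nat_lit 1118) (.e (nat_lit 57447) (nat_lit 19) (.e (nat_lit 393282) (nat_lit 24) (.e (nat_lit 434231) (nat_lit 23) (.e (nat_lit 532578) (nat_lit 26) .nil)))) .nil))))) (.nd (nat_lit 3) (.nd (nat_lit 4) (.nd (nat_lit 5) 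
(.lf (nat_lit 162694) (.g (nat_lit 2577) (.e (nat_lit 57447) (nat_lit 19) (.e (nat_lit 393279) (nat_lit 23) (.e (nat_lit 426129) (nat_lit 3) (.e (nat_lit 204809) (nat_lit 9) (.e (nat_lit 426098) (nat_lit 1) (.e (nat_lit 164399) (nat_lit 256) .nil)))))) (.g (nat_lit 0) .nil .nil))) 
(.lf (nat_lit 162726) (.g (nat_lit 2100) (.e (nat_lit 57447) (nat_lit 19) (.e (nat_lit 393281) (nat_lit 23) (.e (nat_lit 426116) (nat_lit 2) (.e (nat_lit 196656) (nat_lit 11) (.e (nat_lit 16392) (nat_lit 0) (.e (nat_lit 2406) (nat_lit 157) (.e (nat_lit 5944) (nat_lit 322) .nil))))))) (.g (nat_lit 4) .nil .nil)))) (.nd (nat_lit 5) 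
(.lf (nat_lit 162710) (.g (nat_lit 2419) (.e (nat_lit 57447) (nat_lit 19) (.e (nat_lit 393281) (nat_lit 23) (.e (nat_lit 426115) (nat_lit 2) (.e (nat_lit 196654) (nat_lit 11) (.e (nat_lit 16406) (nat_lit 1) (.e (nat_lit 164399) (nat_lit 256) .nil)))))) (.g (nat_lit 0) .nil .nil))) 
(.lf (nat_lit 162742) (.g (nat_lit 2601) (.e (nat_lit 57447) (nat_lit 19) (.e (nat_lit 393281) (nat_lit 23) (.e (nat_lit 426133) (nat_lit 3) (.e (nat_lit 204813) (nat_lit 9) (.e (nat_lit 426106) (nat_lit 1) (.e (nat_lit 164403) (nat_lit 256) .nil)))))) (.g (nat_lit 4) .nil .nil))))) (.nd (nat_lit 4) (.nd (nat_lit 5) 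
(.lf (nat_lit 162702) (.g (nat_lit 1863) (.e (nat_lit 57447) (nat_lit 19) (.e (nat_lit 393280) (nat_lit 23) (.e (nat_lit 426133) (nat_lit 3) (.e (nat_lit 204813) (nat_lit 9) (.e (nat_lit 426107) (nat_lit 1) (.e (nat_lit 164403) (nat_lit 256) .nil)))))) (.g (nat_lit 4) .nil .nil))) 
(.lf (nat_lit 162734) (.g (nat_lit 1414) (.e (nat_lit 57447) (nat_lit 19) (.e (nat_lit 393281) (nat_lit 23) (.e (nat_lit 426133) (nat_lit 3) (.e (nat_lit 204809) (nat_lit 9) (.e (nat_lit 426100) (nat_lit 1) .nil))))) .nil))) (.nd (nat_lit 5) 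
(.lf (nat_lit 162718) (.g (nat_lit 2969) (.e (nat_lit 57447) (nat_lit 19) (.e (nat_lit 393281) (nat_lit 23) (.e (nat_lit 426116) (nat_lit 2) (.e (nat_lit 196654) (nat_lit 11) (.e (nat_lit 16405) (nat_lit 1) (.e (nat_lit 164399) (nat_lit 256) .nil)))))) (.g (nat_lit 0) .nil .nil))) 
(.lf (nat_lit 162750) (.g (nat_lit 3673) (.e (nat_lit 57447) (nat_lit 19) (.e (nat_lit 393282) (nat_lit 24) (.e (nat_lit 434231) (nat_lit 23) (.e (nat_lit 532579) (nat_lit 26) (.e (nat_lit 426100) (nat_lit 1) (.e (nat_lit 164398) (nat_lit 256) .nil)))))) (.g (nat_lit 0) .nil .nil)))))))) (.nd (nat_lit 1) (.nd (nat_lit 2) (.nd (nat_lit 3) (.nd (nat_lit 4) (.nd (nat_lit 5) 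
(.lf (nat_lit 162689) (.g (nat_lit 2452) (.e (nat_lit 57447) (nat_lit 19) (.e (nat_lit 393277) (nat_lit 23) (.e (nat_lit 426135) (nat_lit 3) (.e (nat_lit 204809) (nat_lit 9) (.e (nat_lit 426100) (nat_lit 1) (.e (nat_lit 164398) (nat_lit 256) .nil)))))) (.g (nat_lit 0) .nil .nil))) 
(.lf (nat_lit 162721) (.g (nat_lit 3259) (.e (nat_lit 57447) (nat_lit 19) (.e (nat_lit 393281) (nat_lit 23) (.e (nat_lit 426116) (nat_lit 2) (.e (nat_lit 196654) (nat_lit 11) (.e (nat_lit 16407) (nat_lit 1) (.e (nat_lit 164403) (nat_lit 256) .nil)))))) (.g (nat_lit 0) .nil .nil)))) (.nd (nat_lit 5) 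
(.lf (nat_lit 162705) (.g (nat_lit 2328) (.e (nat_lit 57447) (nat_lit 19) (.e (nat_lit 393281) (nat_lit 23) (.e (nat_lit 426115) (nat_lit 2) (.e (nat_lit 196624) (nat_lit 9) (.e (nat_lit 442) (nat_lit 33) (.e (nat_lit 434214) (nat_lit 18) (.e (nat_lit 5944) (nat_lit 322) .nil))))))) (.g (nat_lit 5) .nil .nil))) 
(.lf (nat_lit 162737) (.g (nat_lit 1918) (.e (nat_lit 57447) (nat_lit 19) (.e (nat_lit 393281) (nat_lit 23) (.e (nat_lit 426133) (nat_lit 3) (.e (nat_lit 204809) (nat_lit 9) (.e (nat_lit 433920) (nat_lit 1) (.e (nat_lit 164403) (nat_lit 256) .nil)))))) (.g (nat_lit 4) .nil .nil))))) (.nd (nat_lit 4) (.nd (nat_lit 5) 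
(.lf (nat_lit 162697) (.g (nat_lit 2729) (.e (nat_lit 57447) (nat_lit 19) (.e (nat_lit 393279) (nat_lit 23) (.e (nat_lit 426129) (nat_lit 3) (.e (nat_lit 204809) (nat_lit 9) (.e (nat_lit 426100) (nat_lit 1) (.e (nat_lit 164399) (nat_lit 256) .nil)))))) (.g (nat_lit 0) .nil .nil))) 
(.lf (nat_lit 162729) (.g (nat_lit 2608) (.e (nat_lit 57447) (nat_lit 19) (.e (nat_lit 393281) (nat_lit 23) (.e (nat_lit 426124) (nat_lit 2) (.e (nat_lit 196656) (nat_lit 11) (.e (nat_lit 16406) (nat_lit 1) (.e (nat_lit 164401) (nat_lit 256) .nil)))))) (.g (nat_lit 4) .nil .nil)))) (.nd (nat_lit 5) 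
(.lf (nat_lit 162713) (.g (nat_lit 826) (.e (nat_lit 57447) (nat_lit 19) (.e (nat_lit 393281) (nat_lit 23) (.e (nat_lit 426116) (nat_lit 2) (.e (nat_lit 196654) (nat_lit 11) .nil)))) .nil)) 
(.lf (nat_lit 162745) (.g (nat_lit 1979) (.e (nat_lit 57447) (nat_lit 19) (.e (nat_lit 393281) (nat_lit 23) (.e (nat_lit 426137) (nat_lit 3) (.e (nat_lit 204813) (nat_lit 9) (.e (nat_lit 426100) (nat_lit 1) (.e (nat_lit 164399) (nat_lit 256) .nil)))))) (.g (nat_lit 4) .nil .nil)))))) (.nd (nat_lit 3) (.nd (nat_lit 4) (.nd (nat_lit 5) 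
(.lf (nat_lit 162693) (.g (nat_lit 2930) (.e (nat_lit 57447) (nat_lit 19) (.e (nat_lit 393279) (nat_lit 23) (.e (nat_lit 426129) (nat_lit 3) (.e (nat_lit 204809) (nat_lit 9) (.e (nat_lit 426098) (nat_lit 1) (.e (nat_lit 164398) (nat_lit 256) .nil)))))) (.g (nat_lit 0) .nil .nil))) 
(.lf (nat_lit 162725) (.g (nat_lit 2163) (.e (nat_lit 57447) (nat_lit 19) (.e (nat_lit 393281) (nat_lit 23) (.e (nat_lit 426116) (nat_lit 2) (.e (nat_lit 196656) (nat_lit 11) (.e (nat_lit 16392) (nat_lit 0) (.e (nat_lit 2397) (nat_lit 157) (.e (nat_lit 5944) (nat_lit 322) .nil))))))) (.g (nat_lit 4) .nil .nil)))) (.nd (nat_lit 5) 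
(.lf (nat_lit 162709) (.g (nat_lit 2660) (.e (nat_lit 57447) (nat_lit 19) (.e (nat_lit 393281) (nat_lit 23) (.e (nat_lit 426115) (nat_lit 2) (.e (nat_lit 196654) (nat_lit 11) (.e (nat_lit 16406) (nat_lit 1) (.e (nat_lit 164398) (nat_lit 256) .nil)))))) (.g (nat_lit 0) .nil .nil))) 
(.lf (nat_lit 162741) (.g (nat_lit 4140) (.e (nat_lit 57447) (nat_lit 19) (.e (nat_lit 393281) (nat_lit 23) (.e (nat_lit 426133) (nat_lit 3) (.e (nat_lit 204813) (nat_lit 9) (.e (nat_lit 426100) (nat_lit 1) (.e (nat_lit 164403) (nat_lit 256) .nil)))))) (.g (nat_lit 6) .nil .nil))))) (.nd (nat_lit 4) (.nd (nat_lit 5) 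
(.lf (nat_lit 162701) (.g (nat_lit 1563) (.e (nat_lit 57447) (nat_lit 19) (.e (nat_lit 393280) (nat_lit 23) (.e (nat_lit 426133) (nat_lit 3) (.e (nat_lit 204809) (nat_lit 9) .nil)))) .nil)) 
(.lf (nat_lit 162733) (.g (nat_lit 1948) (.e (nat_lit 57447) (nat_lit 19) (.e (nat_lit 393281) (nat_lit 23) (.e (nat_lit 426133) (nat_lit 3) (.e (nat_lit 204809) (nat_lit 9) (.e (nat_lit 426099) (nat_lit 1) (.e (nat_lit 164398) (nat_lit 256) .nil)))))) (.g (nat_lit 4) .nil .nil)))) (.nd (nat_lit 5) 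
(.lf (nat_lit 162717) (.g (nat_lit 3417) (.e (nat_lit 57447) (nat_lit 19) (.e (nat_lit 393281) (nat_lit 23) (.e (nat_lit 426116) (nat_lit 2) (.e (nat_lit 196654) (nat_lit 11) (.e (nat_lit 16405) (nat_lit 1) (.e (nat_lit 164398) (nat_lit 256) .nil)))))) (.g (nat_lit 0) .nil .nil))) 
(.lf (nat_lit 162749) (.g (nat_lit 2196) (.e (nat_lit 57447) (nat_lit 19) (.e (nat_lit 393282) (nat_lit 24) (.e (nat_lit 434231) (nat_lit 23) (.e (nat_lit 532579) (nat_lit 26) (.e (nat_lit 426099) (nat_lit 1) (.e (nat_lit 164399) (nat_lit 256) .nil)))))) (.g (nat_lit 4) .nil .nil))))))) (.nd (nat_lit 2) (.nd (nat_lit 3) (.nd (nat_lit 4) (.nd (nat_lit 5) 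
(.lf (nat_lit 162691) (.g (nat_lit 2399) (.e (nat_lit 57447) (nat_lit 19) (.e (nat_lit 393277) (nat_lit 23) (.e (nat_lit 426135) (nat_lit 3) (.e (nat_lit 204809) (nat_lit 9) (.e (nat_lit 426107) (nat_lit 1) (.e (nat_lit 164403) (nat_lit 256) .nil)))))) (.g (nat_lit 0) .nil .nil))) 
(.lf (nat_lit 162723) (.g (nat_lit 1594) (.e (nat_lit 57447) (nat_lit 19) (.e (nat_lit 393281) (nat_lit 23) (.e (nat_lit 426116) (nat_lit 2) (.e (nat_lit 196656) (nat_lit 11) (.e (nat_lit 16392) (nat_lit 0) .nil))))) .nil))) (.nd (nat_lit 5) 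
(.lf (nat_lit 162707) (.g (nat_lit 2879) (.e (nat_lit 57447) (nat_lit 19) (.e (nat_lit 393281) (nat_lit 23) (.e (nat_lit 426115) (nat_lit 2) (.e (nat_lit 196654) (nat_lit 11) (.e (nat_lit 16405) (nat_lit 1) (.e (nat_lit 164398) (nat_lit 256) .nil)))))) (.g (nat_lit 0) .nil .nil))) 
(.lf (nat_lit 162739) (.g (nat_lit 3031) (.e (nat_lit 57447) (nat_lit 19) (.e (nat_lit 393281) (nat_lit 23) (.e (nat_lit 426133) (nat_lit 3) (.e (nat_lit 204813) (nat_lit 9) (.e (nat_lit 426098) (nat_lit 1) (.e (nat_lit 164403) (nat_lit 256) .nil)))))) (.g (nat_lit 5) .nil .nil))))) (.nd (nat_lit 4) (.nd (nat_lit 5) 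
(.lf (nat_lit 162699) (.g (nat_lit 2986) (.e (nat_lit 57447) (nat_lit 19) (.e (nat_lit 393279) (nat_lit 23) (.e (nat_lit 426129) (nat_lit 3) (.e (nat_lit 204809) (nat_lit 9) (.e (nat_lit 426108) (nat_lit 1) (.e (nat_lit 164401) (nat_lit 256) .nil)))))) (.g (nat_lit 0) .nil .nil))) 
(.lf (nat_lit 162731) (.g (nat_lit 2260) (.e (nat_lit 57447) (nat_lit 19) (.e (nat_lit 393281) (nat_lit 23) (.e (nat_lit 426133) (nat_lit 3) (.e (nat_lit 204809) (nat_lit 9) (.e (nat_lit 426031) (nat_lit 0) (.e (nat_lit 2466) (nat_lit 157) (.e (nat_lit 5937) (nat_lit 322) .nil))))))) (.g (nat_lit 4) .nil .nil)))) (.nd (nat_lit 5) 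
(.lf (nat_lit 162715) (.g (nat_lit 1908) (.e (nat_lit 57447) (nat_lit 19) (.e (nat_lit 393281) (nat_lit 23) (.e (nat_lit 426116) (nat_lit 2) (.e (nat_lit 196654) (nat_lit 11) (.e (nat_lit 16388) (nat_lit 0) .nil))))) .nil)) 
(.lf (nat_lit 162747) (.g (nat_lit 3598) (.e (nat_lit 57447) (nat_lit 19) (.e (nat_lit 393282) (nat_lit 24) (.e (nat_lit 434231) (nat_lit 23) (.e (nat_lit 532579) (nat_lit 26) (.e (nat_lit 426098) (nat_lit 1) (.e (nat_lit 164398) (nat_lit 256) .nil)))))) (.g (nat_lit 0) .nil .nil)))))) (.nd (nat_lit 3) (.nd (nat_lit 4) (.nd (nat_lit 5) 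
(.lf (nat_lit 162695) (.g (nat_lit 3085) (.e (nat_lit 57447) (nat_lit 19) (.e (nat_lit 393279) (nat_lit 23) (.e (nat_lit 426129) (nat_lit 3) (.e (nat_lit 204809) (nat_lit 9) (.e (nat_lit 426098) (nat_lit 1) (.e (nat_lit 164403) (nat_lit 256) .nil)))))) (.g (nat_lit 0) .nil .nil))) 
(.lf (nat_lit 162727) (.g (nat_lit 2146) (.e (nat_lit 57447) (nat_lit 19) (.e (nat_lit 393281) (nat_lit 23) (.e (nat_lit 426124) (nat_lit 2) (.e (nat_lit 196656) (nat_lit 11) (.e (nat_lit 16392) (nat_lit 0) .nil))))) .nil))) (.nd (nat_lit 5) 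
(.lf (nat_lit 162711) (.g (nat_lit 1095) (.e (nat_lit 57447) (nat_lit 19) (.e (nat_lit 393281) (nat_lit 23) (.e (nat_lit 426116) (nat_lit 2) (.e (nat_lit 196624) (nat_lit 9) .nil)))) .nil)) 
(.lf (nat_lit 162743) (.g (nat_lit 2540) (.e (nat_lit 57447) (nat_lit 19) (.e (nat_lit 393281) (nat_lit 23) (.e (nat_lit 426133) (nat_lit 3) (.e (nat_lit 204813) (nat_lit 9) (.e (nat_lit 426108) (nat_lit 1) (.e (nat_lit 164402) (nat_lit 256) .nil)))))) (.g (nat_lit 4) .nil .nil))))) (.nd (nat_lit 4) (.nd (nat_lit 5) 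
(.lf (nat_lit 162703) (.g (nat_lit 1933) (.e (nat_lit 57447) (nat_lit 19) (.e (nat_lit 393280) (nat_lit 23) (.e (nat_lit 426133) (nat_lit 3) (.e (nat_lit 204813) (nat_lit 9) (.e (nat_lit 426108) (nat_lit 1) (.e (nat_lit 164403) (nat_lit 256) .nil)))))) (.g (nat_lit 4) .nil .nil))) 
(.lf (nat_lit 162735) (.g (nat_lit 2104) (.e (nat_lit 57447) (nat_lit 19) (.e (nat_lit 393281) (nat_lit 23) (.e (nat_lit 426133) (nat_lit 3) (.e (nat_lit 204809) (nat_lit 9) (.e (nat_lit 426106) (nat_lit 1) (.e (nat_lit 164403) (nat_lit 256) .nil)))))) (.g (nat_lit 4) .nil .nil)))) (.nd (nat_lit 5) 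
(.lf (nat_lit 162719) (.g (nat_lit 3195) (.e (nat_lit 57447) (nat_lit 19) (.e (nat_lit 393281) (nat_lit 23) (.e (nat_lit 426116) (nat_lit 2) (.e (nat_lit 196654) (nat_lit 11) (.e (nat_lit 16406) (nat_lit 1) (.e (nat_lit 164398) (nat_lit 256) .nil)))))) (.g (nat_lit 0) .nil .nil))) 
(.lf (nat_lit 162751) (.g (nat_lit 3384) (.e (nat_lit 57447) (nat_lit 19) (.e (nat_lit 393282) (nat_lit 24) (.e (nat_lit 434231) (nat_lit 23) (.e (nat_lit 532579) (nat_lit 26) (.e (nat_lit 426100) (nat_lit 1) (.e (nat_lit 164399) (nat_lit 256) .nil)))))) (.g (nat_lit 0) .nil .nil)))))))))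

noncomputable def tv2183 : DT := (.nd (nat_lit 0) (.nd (nat_lit 1) (.nd (nat_lit 2) (.nd (nat_lit 3) (.nd (nat_lit 4) (.nd (nat_lit 5) 
(.lf (nat_lit 162752) (.g (nat_lit 2007) (.e (nat_lit 57447) (nat_lit 19) (.e (nat_lit 393282) (nat_lit 24) (.e (nat_lit 434231) (nat_lit 23) (.e (nat_lit 532579) (nat_lit 26) (.e (nat_lit 426105) (nat_lit 1) (.e (nat_lit 164403) (nat_lit 256) .nil)))))) (.g (nat_lit 4) .nil .nil))) 
(.lf (nat_lit 162784) (.g (nat_lit 3613) (.e (nat_lit 57447) (nat_lit 19) (.e (nat_lit 393284) (nat_lit 24) (.e (nat_lit 434231) (nat_lit 23) (.e (nat_lit 532579) (nat_lit 26) (.e (nat_lit 426108) (nat_lit 1) (.e (nat_lit 164401) (nat_lit 256) .nil)))))) (.g (nat_lit 5) .nil .nil)))) (.nd (nat_lit 5) 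
(.lf (nat_lit 162768) (.g (nat_lit 1851) (.e (nat_lit 57447) (nat_lit 19) (.e (nat_lit 393283) (nat_lit 24) (.e (nat_lit 434231) (nat_lit 23) (.e (nat_lit 532579) (nat_lit 26) (.e (nat_lit 426105) (nat_lit 1) .nil))))) .nil)) 
(.lf (nat_lit 162800) (.g (nat_lit 1926) (.e (nat_lit 57447) (nat_lit 19) (.e (nat_lit 393287) (nat_lit 25) (.e (nat_lit 458789) (nat_lit 23) (.e (nat_lit 532579) (nat_lit 26) (.e (nat_lit 426105) (nat_lit 1) (.e (nat_lit 164403) (nat_lit 256) .nil)))))) (.g (nat_lit 4) .nil .nil))))) (.nd (nat_lit 4) (.nd (nat_lit 5) 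
(.lf (nat_lit 162760) (.g (nat_lit 1918) (.e (nat_lit 57447) (nat_lit 19) (.e (nat_lit 393283) (nat_lit 24) (.e (nat_lit 434231) (nat_lit 23) (.e (nat_lit 532578) (nat_lit 26) (.e (nat_lit 433920) (nat_lit 1) (.e (nat_lit 164399) (nat_lit 256) .nil)))))) (.g (nat_lit 4) .nil .nil))) 
(.lf (nat_lit 162792) (.g (nat_lit 3357) (.e (nat_lit 57447) (nat_lit 19) (.e (nat_lit 393286) (nat_lit 25) (.e (nat_lit 458789) (nat_lit 23) (.e (nat_lit 532579) (nat_lit 26) (.e (nat_lit 426108) (nat_lit 1) (.e (nat_lit 164401) (nat_lit 256) .nil)))))) (.g (nat_lit 0) .nil .nil)))) (.nd (nat_lit 5) 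
(.lf (nat_lit 162776) (.g (nat_lit 1168) (.e (nat_lit 57447) (nat_lit 19) (.e (nat_lit 393284) (nat_lit 24) (.e (nat_lit 434219) (nat_lit 19) (.e (nat_lit 500048) (nat_lit 16) .nil)))) .nil)) 
(.lf (nat_lit 162808) (.g (nat_lit 2673) (.e (nat_lit 57447) (nat_lit 19) (.e (nat_lit 393288) (nat_lit 25) (.e (nat_lit 458789) (nat_lit 23) (.e (nat_lit 532579) (nat_lit 26) (.e (nat_lit 426100) (nat_lit 1) (.e (nat_lit 164399) (nat_lit 256) .nil)))))) (.g (nat_lit 4) .nil .nil)))))) (.nd (nat_lit 3) (.nd (nat_lit 4) (.nd (nat_lit 5) 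
(.lf (nat_lit 162756) (.g (nat_lit 2749) (.e (nat_lit 57447) (nat_lit 19) (.e (nat_lit 393283) (nat_lit 24) (.e (nat_lit 434231) (nat_lit 23) (.e (nat_lit 532578) (nat_lit 26) (.e (nat_lit 426100) (nat_lit 1) (.e (nat_lit 164398) (nat_lit 256) .nil)))))) (.g (nat_lit 5) .nil .nil))) 
(.lf (nat_lit 162788) (.g (nat_lit 3040) (.e (nat_lit 57447) (nat_lit 19) (.e (nat_lit 393286) (nat_lit 25) (.e (nat_lit 458789) (nat_lit 23) (.e (nat_lit 532579) (nat_lit 26) (.e (nat_lit 426098) (nat_lit 1) (.e (nat_lit 164399) (nat_lit 256) .nil)))))) (.g (nat_lit 0) .nil .nil)))) (.nd (nat_lit 5) 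
(.lf (nat_lit 162772) (.g (nat_lit 3842) (.e (nat_lit 57447) (nat_lit 19) (.e (nat_lit 393283) (nat_lit 24) (.e (nat_lit 434231) (nat_lit 23) (.e (nat_lit 532579) (nat_lit 26) (.e (nat_lit 426108) (nat_lit 1) (.e (nat_lit 164401) (nat_lit 256) .nil)))))) (.g (nat_lit 0) .nil .nil))) 
(.lf (nat_lit 162804) (.g (nat_lit 3196) (.e (nat_lit 57447) (nat_lit 19) (.e (nat_lit 393287) (nat_lit 25) (.e (nat_lit 458789) (nat_lit 23) (.e (nat_lit 532579) (nat_lit 26) (.e (nat_lit 426108) (nat_lit 1) (.e (nat_lit 164403) (nat_lit 256) .nil)))))) (.g (nat_lit 0) .nil .nil))))) (.nd (nat_lit 4) (.nd (nat_lit 5) 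
(.lf (nat_lit 162764) (.g (nat_lit 1847) (.e (nat_lit 57447) (nat_lit 19) (.e (nat_lit 393283) (nat_lit 24) (.e (nat_lit 434231) (nat_lit 23) (.e (nat_lit 532579) (nat_lit 26) (.e (nat_lit 426099) (nat_lit 1) .nil))))) .nil)) 
(.lf (nat_lit 162796) (.g (nat_lit 2951) (.e (nat_lit 57447) (nat_lit 19) (.e (nat_lit 393287) (nat_lit 25) (.e (nat_lit 458789) (nat_lit 23) (.e (nat_lit 532579) (nat_lit 26) (.e (nat_lit 426098) (nat_lit 1) (.e (nat_lit 164399) (nat_lit 256) .nil)))))) (.g (nat_lit 0) .nil .nil)))) (.nd (nat_lit 5) 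
(.lf (nat_lit 162780) (.g (nat_lit 2102) (.e (nat_lit 57447) (nat_lit 19) (.e (nat_lit 393284) (nat_lit 24) (.e (nat_lit 434231) (nat_lit 23) (.e (nat_lit 532579) (nat_lit 26) (.e (nat_lit 426099) (nat_lit 1) .nil))))) .nil)) 
(.lf (nat_lit 162812) (.g (nat_lit 492) (.e (nat_lit 57447) (nat_lit 19) (.e (nat_lit 393293) (nat_lit 26) (.e (nat_lit 483072) (nat_lit 26) .nil))) .nil)))))) (.nd (nat_lit 2) (.nd (nat_lit 3) (.nd (nat_lit 4) (.nd (nat_lit 5) 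
(.lf (nat_lit 162754) (.g (nat_lit 3505) (.e (nat_lit 57447) (nat_lit 19) (.e (nat_lit 393282) (nat_lit 24) (.e (nat_lit 434231) (nat_lit 23) (.e (nat_lit 532579) (nat_lit 26) (.e (nat_lit 426108) (nat_lit 1) (.e (nat_lit 164403) (nat_lit 256) .nil)))))) (.g (nat_lit 0) .nil .nil))) 
(.lf (nat_lit 162786) (.g (nat_lit 1554) (.e (nat_lit 57447) (nat_lit 19) (.e (nat_lit 393284) (nat_lit 24) (.e (nat_lit 434248) (nat_lit 28) (.e (nat_lit 581376) (nat_lit 4) .nil)))) .nil))) (.nd (nat_lit 5) 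
(.lf (nat_lit 162770) (.g (nat_lit 3419) (.e (nat_lit 57447) (nat_lit 19) (.e (nat_lit 393283) (nat_lit 24) (.e (nat_lit 434231) (nat_lit 23) (.e (nat_lit 532579) (nat_lit 26) (.e (nat_lit 426107) (nat_lit 1) (.e (nat_lit 164401) (nat_lit 256) .nil)))))) (.g (nat_lit 0) .nil .nil))) 
(.lf (nat_lit 162802) (.g (nat_lit 3145) (.e (nat_lit 57447) (nat_lit 19) (.e (nat_lit 393287) (nat_lit 25) (.e (nat_lit 458789) (nat_lit 23) (.e (nat_lit 532579) (nat_lit 26) (.e (nat_lit 426107) (nat_lit 1) (.e (nat_lit 164403) (nat_lit 256) .nil)))))) (.g (nat_lit 0) .nil .nil))))) (.nd (nat_lit 4) (.nd (nat_lit 5) 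
(.lf (nat_lit 162762) (.g (nat_lit 3508) (.e (nat_lit 57447) (nat_lit 19) (.e (nat_lit 393283) (nat_lit 24) (.e (nat_lit 434231) (nat_lit 23) (.e (nat_lit 532579) (nat_lit 26) (.e (nat_lit 426098) (nat_lit 1) (.e (nat_lit 164399) (nat_lit 256) .nil)))))) (.g (nat_lit 0) .nil .nil))) 
(.lf (nat_lit 162794) (.g (nat_lit 1587) (.e (nat_lit 57447) (nat_lit 19) (.e (nat_lit 393286) (nat_lit 25) (.e (nat_lit 458789) (nat_lit 23) (.e (nat_lit 532582) (nat_lit 26) (.e (nat_lit 426099) (nat_lit 1) (.e (nat_lit 164399) (nat_lit 256) .nil)))))) (.g (nat_lit 4) .nil .nil)))) (.nd (nat_lit 5) 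
(.lf (nat_lit 162778) (.g (nat_lit 3170) (.e (nat_lit 57447) (nat_lit 19) (.e (nat_lit 393284) (nat_lit 24) (.e (nat_lit 434231) (nat_lit 23) (.e (nat_lit 532579) (nat_lit 26) (.e (nat_lit 426098) (nat_lit 1) (.e (nat_lit 164399) (nat_lit 256) .nil)))))) (.g (nat_lit 5) .nil .nil))) 
(.lf (nat_lit 162810) (.g (nat_lit 2768) (.e (nat_lit 57447) (nat_lit 19) (.e (nat_lit 393288) (nat_lit 25) (.e (nat_lit 458789) (nat_lit 23) (.e (nat_lit 532579) (nat_lit 26) (.e (nat_lit 426108) (nat_lit 1) (.e (nat_lit 164403) (nat_lit 256) .nil)))))) (.g (nat_lit 4) .nil .nil)))))) (.nd (nat_lit 3) (.nd (nat_lit 4) (.nd (nat_lit 5) 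
(.lf (nat_lit 162758) (.g (nat_lit 2290) (.e (nat_lit 57447) (nat_lit 19) (.e (nat_lit 393283) (nat_lit 24) (.e (nat_lit 434231) (nat_lit 23) (.e (nat_lit 532578) (nat_lit 26) (.e (nat_lit 426108) (nat_lit 1) (.e (nat_lit 164401) (nat_lit 256) .nil)))))) (.g (nat_lit 5) .nil .nil))) 
(.lf (nat_lit 162790) (.g (nat_lit 3163) (.e (nat_lit 57447) (nat_lit 19) (.e (nat_lit 393286) (nat_lit 25) (.e (nat_lit 458789) (nat_lit 23) (.e (nat_lit 532579) (nat_lit 26) (.e (nat_lit 426100) (nat_lit 1) (.e (nat_lit 164399) (nat_lit 256) .nil)))))) (.g (nat_lit 0) .nil .nil)))) (.nd (nat_lit 5) 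
(.lf (nat_lit 162774) (.g (nat_lit 1185) (.e (nat_lit 57447) (nat_lit 19) (.e (nat_lit 393283) (nat_lit 24) (.e (nat_lit 434234) (nat_lit 23) (.e (nat_lit 532583) (nat_lit 26) (.e (nat_lit 426100) (nat_lit 1) .nil))))) .nil)) 
(.lf (nat_lit 162806) (.g (nat_lit 2557) (.e (nat_lit 57447) (nat_lit 19) (.e (nat_lit 393288) (nat_lit 25) (.e (nat_lit 458789) (nat_lit 23) (.e (nat_lit 532579) (nat_lit 26) (.e (nat_lit 426098) (nat_lit 1) (.e (nat_lit 164399) (nat_lit 256) .nil)))))) (.g (nat_lit 4) .nil .nil))))) (.nd (nat_lit 4) (.nd (nat_lit 5) 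
(.lf (nat_lit 162766) (.g (nat_lit 3920) (.e (nat_lit 57447) (nat_lit 19) (.e (nat_lit 393283) (nat_lit 24) (.e (nat_lit 434231) (nat_lit 23) (.e (nat_lit 532579) (nat_lit 26) (.e (nat_lit 426100) (nat_lit 1) (.e (nat_lit 164398) (nat_lit 256) .nil)))))) (.g (nat_lit 0) .nil .nil))) 
(.lf (nat_lit 162798) (.g (nat_lit 1969) (.e (nat_lit 57447) (nat_lit 19) (.e (nat_lit 393287) (nat_lit 25) (.e (nat_lit 458789) (nat_lit 23) (.e (nat_lit 532579) (nat_lit 26) (.e (nat_lit 426099) (nat_lit 1) (.e (nat_lit 164399) (nat_lit 256) .nil)))))) (.g (nat_lit 4) .nil .nil)))) (.nd (nat_lit 5) 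
(.lf (nat_lit 162782) (.g (nat_lit 3196) (.e (nat_lit 57447) (nat_lit 19) (.e (nat_lit 393284) (nat_lit 24) (.e (nat_lit 434231) (nat_lit 23) (.e (nat_lit 532579) (nat_lit 26) (.e (nat_lit 426107) (nat_lit 1) (.e (nat_lit 164401) (nat_lit 256) .nil)))))) (.g (nat_lit 5) .nil .nil))) 
(.lf (nat_lit 162814) (.g (nat_lit 639) (.e (nat_lit 57447) (nat_lit 19) (.e (nat_lit 393296) (nat_lit 26) (.e (nat_lit 475207) (nat_lit 41) .nil))) .nil))))))) (.nd (nat_lit 1) (.nd (nat_lit 2) (.nd (nat_lit 3) (.nd (nat_lit 4) (.nd (nat_lit 5) 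
(.lf (nat_lit 162753) (.g (nat_lit 3587) (.e (nat_lit 57447) (nat_lit 19) (.e (nat_lit 393282) (nat_lit 24) (.e (nat_lit 434231) (nat_lit 23) (.e (nat_lit 532579) (nat_lit 26) (.e (nat_lit 426108) (nat_lit 1) (.e (nat_lit 164401) (nat_lit 256) .nil)))))) (.g (nat_lit 0) .nil .nil))) 
(.lf (nat_lit 162785) (.g (nat_lit 3030) (.e (nat_lit 57447) (nat_lit 19) (.e (nat_lit 393284) (nat_lit 24) (.e (nat_lit 434231) (nat_lit 23) (.e (nat_lit 532579) (nat_lit 26) (.e (nat_lit 426108) (nat_lit 1) (.e (nat_lit 164403) (nat_lit 256) .nil)))))) (.g (nat_lit 5) .nil .nil)))) (.nd (nat_lit 5) 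
(.lf (nat_lit 162769) (.g (nat_lit 2286) (.e (nat_lit 57447) (nat_lit 19) (.e (nat_lit 393283) (nat_lit 24) (.e (nat_lit 434231) (nat_lit 23) (.e (nat_lit 532579) (nat_lit 26) (.e (nat_lit 426105) (nat_lit 1) (.e (nat_lit 164403) (nat_lit 256) .nil)))))) (.g (nat_lit 4) .nil .nil))) 
(.lf (nat_lit 162801) (.g (nat_lit 2835) (.e (nat_lit 57447) (nat_lit 19) (.e (nat_lit 393287) (nat_lit 25) (.e (nat_lit 458789) (nat_lit 23) (.e (nat_lit 532579) (nat_lit 26) (.e (nat_lit 426107) (nat_lit 1) (.e (nat_lit 164401) (nat_lit 256) .nil)))))) (.g (nat_lit 0) .nil .nil))))) (.nd (nat_lit 4) (.nd (nat_lit 5) 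
(.lf (nat_lit 162761) (.g (nat_lit 3845) (.e (nat_lit 57447) (nat_lit 19) (.e (nat_lit 393283) (nat_lit 24) (.e (nat_lit 434231) (nat_lit 23) (.e (nat_lit 532579) (nat_lit 26) (.e (nat_lit 426098) (nat_lit 1) (.e (nat_lit 164398) (nat_lit 256) .nil)))))) (.g (nat_lit 0) .nil .nil))) 
(.lf (nat_lit 162793) (.g (nat_lit 3292) (.e (nat_lit 57447) (nat_lit 19) (.e (nat_lit 393286) (nat_lit 25) (.e (nat_lit 458789) (nat_lit 23) (.e (nat_lit 532579) (nat_lit 26) (.e (nat_lit 426108) (nat_lit 1) (.e (nat_lit 164403) (nat_lit 256) .nil)))))) (.g (nat_lit 0) .nil .nil)))) (.nd (nat_lit 5) 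
(.lf (nat_lit 162777) (.g (nat_lit 1154) (.e (nat_lit 57447) (nat_lit 19) (.e (nat_lit 393284) (nat_lit 24) (.e (nat_lit 434231) (nat_lit 23) (.e (nat_lit 532579) (nat_lit 26) .nil)))) .nil)) 
(.lf (nat_lit 162809) (.g (nat_lit 2733) (.e (nat_lit 57447) (nat_lit 19) (.e (nat_lit 393288) (nat_lit 25) (.e (nat_lit 458789) (nat_lit 23) (.e (nat_lit 532579) (nat_lit 26) (.e (nat_lit 426107) (nat_lit 1) (.e (nat_lit 164403) (nat_lit 256) .nil)))))) (.g (nat_lit 4) .nil .nil)))))) (.nd (nat_lit 3) (.nd (nat_lit 4) (.nd (nat_lit 5) 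
(.lf (nat_lit 162757) (.g (nat_lit 2494) (.e (nat_lit 57447) (nat_lit 19) (.e (nat_lit 393283) (nat_lit 24) (.e (nat_lit 434231) (nat_lit 23) (.e (nat_lit 532578) (nat_lit 26) (.e (nat_lit 426100) (nat_lit 1) (.e (nat_lit 164399) (nat_lit 256) .nil)))))) (.g (nat_lit 5) .nil .nil))) 
(.lf (nat_lit 162789) (.g (nat_lit 2044) (.e (nat_lit 57447) (nat_lit 19) (.e (nat_lit 393286) (nat_lit 25) (.e (nat_lit 458789) (nat_lit 23) (.e (nat_lit 532579) (nat_lit 26) (.e (nat_lit 426099) (nat_lit 1) (.e (nat_lit 164399) (nat_lit 256) .nil)))))) (.g (nat_lit 4) .nil .nil)))) (.nd (nat_lit 5) 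
(.lf (nat_lit 162773) (.g (nat_lit 3767) (.e (nat_lit 57447) (nat_lit 19) (.e (nat_lit 393283) (nat_lit 24) (.e (nat_lit 434231) (nat_lit 23) (.e (nat_lit 532579) (nat_lit 26) (.e (nat_lit 426108) (nat_lit 1) (.e (nat_lit 164403) (nat_lit 256) .nil)))))) (.g (nat_lit 0) .nil .nil))) 
(.lf (nat_lit 162805) (.g (nat_lit 1590) (.e (nat_lit 57447) (nat_lit 19) (.e (nat_lit 393287) (nat_lit 25) (.e (nat_lit 458789) (nat_lit 23) (.e (nat_lit 532582) (nat_lit 26) (.e (nat_lit 426099) (nat_lit 1) (.e (nat_lit 164399) (nat_lit 256) .nil)))))) (.g (nat_lit 4) .nil .nil))))) (.nd (nat_lit 4) (.nd (nat_lit 5) 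
(.lf (nat_lit 162765) (.g (nat_lit 2448) (.e (nat_lit 57447) (nat_lit 19) (.e (nat_lit 393283) (nat_lit 24) (.e (nat_lit 434231) (nat_lit 23) (.e (nat_lit 532579) (nat_lit 26) (.e (nat_lit 426099) (nat_lit 1) (.e (nat_lit 164399) (nat_lit 256) .nil)))))) (.g (nat_lit 4) .nil .nil))) 
(.lf (nat_lit 162797) (.g (nat_lit 3629) (.e (nat_lit 57447) (nat_lit 19) (.e (nat_lit 393287) (nat_lit 25) (.e (nat_lit 458789) (nat_lit 23) (.e (nat_lit 532579) (nat_lit 26) (.e (nat_lit 426098) (nat_lit 1) (.e (nat_lit 164403) (nat_lit 256) .nil)))))) (.g (nat_lit 0) .nil .nil)))) (.nd (nat_lit 5) 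
(.lf (nat_lit 162781) (.g (nat_lit 3067) (.e (nat_lit 57447) (nat_lit 19) (.e (nat_lit 393284) (nat_lit 24) (.e (nat_lit 434231) (nat_lit 23) (.e (nat_lit 532579) (nat_lit 26) (.e (nat_lit 426100) (nat_lit 1) (.e (nat_lit 164399) (nat_lit 256) .nil)))))) (.g (nat_lit 5) .nil .nil))) 
(.lf (nat_lit 162813) (.g (nat_lit 872) (.e (nat_lit 57447) (nat_lit 19) (.e (nat_lit 393294) (nat_lit 26) (.e (nat_lit 483072) (nat_lit 26) .nil))) .nil)))))) (.nd (nat_lit 2) (.nd (nat_lit 3) (.nd (nat_lit 4) (.nd (nat_lit 5) 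
(.lf (nat_lit 162755) (.g (nat_lit 1396) (.e (nat_lit 57447) (nat_lit 19) (.e (nat_lit 393283) (nat_lit 24) (.e (nat_lit 434219) (nat_lit 19) (.e (nat_lit 500048) (nat_lit 16) .nil)))) .nil)) 
(.lf (nat_lit 162787) (.g (nat_lit 1215) (.e (nat_lit 57447) (nat_lit 19) (.e (nat_lit 393286) (nat_lit 25) (.e (nat_lit 458789) (nat_lit 23) (.e (nat_lit 532578) (nat_lit 26) .nil)))) .nil))) (.nd (nat_lit 5) 
(.lf (nat_lit 162771) (.g (nat_lit 3704) (.e (nat_lit 57447) (nat_lit 19) (.e (nat_lit 393283) (nat_lit 24) (.e (nat_lit 434231) (nat_lit 23) (.e (nat_lit 532579) (nat_lit 26) (.e (nat_lit 426107) (nat_lit 1) (.e (nat_lit 164403) (nat_lit 256) .nil)))))) (.g (nat_lit 0) .nil .nil))) 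
(.lf (nat_lit 162803) (.g (nat_lit 3248) (.e (nat_lit 57447) (nat_lit 19) (.e (nat_lit 393287) (nat_lit 25) (.e (nat_lit 458789) (nat_lit 23) (.e (nat_lit 532579) (nat_lit 26) (.e (nat_lit 426108) (nat_lit 1) (.e (nat_lit 164401) (nat_lit 256) .nil)))))) (.g (nat_lit 0) .nil .nil))))) (.nd (nat_lit 4) (.nd (nat_lit 5) 
(.lf (nat_lit 162763) (.g (nat_lit 4165) (.e (nat_lit 57447) (nat_lit 19) (.e (nat_lit 393283) (nat_lit 24) (.e (nat_lit 434231) (nat_lit 23) (.e (nat_lit 532579) (nat_lit 26) (.e (nat_lit 426098) (nat_lit 1) (.e (nat_lit 164403) (nat_lit 256) .nil)))))) (.g (nat_lit 0) .nil .nil))) 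
(.lf (nat_lit 162795) (.g (nat_lit 1227) (.e (nat_lit 57447) (nat_lit 19) (.e (nat_lit 393287) (nat_lit 25) (.e (nat_lit 458789) (nat_lit 23) (.e (nat_lit 532578) (nat_lit 26) .nil)))) .nil))) (.nd (nat_lit 5) 
(.lf (nat_lit 162779) (.g (nat_lit 3180) (.e (nat_lit 57447) (nat_lit 19) (.e (nat_lit 393284) (nat_lit 24) (.e (nat_lit 434231) (nat_lit 23) (.e (nat_lit 532579) (nat_lit 26) (.e (nat_lit 426098) (nat_lit 1) (.e (nat_lit 164403) (nat_lit 256) .nil)))))) (.g (nat_lit 5) .nil .nil))) 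
(.lf (nat_lit 162811) (.g (nat_lit 1357) (.e (nat_lit 57447) (nat_lit 19) (.e (nat_lit 393289) (nat_lit 25) (.e (nat_lit 458789) (nat_lit 23) (.e (nat_lit 532582) (nat_lit 26) .nil)))) .nil))))) (.nd (nat_lit 3) (.nd (nat_lit 4) (.nd (nat_lit 5) 
(.lf (nat_lit 162759) (.g (nat_lit 2597) (.e (nat_lit 57447) (nat_lit 19) (.e (nat_lit 393283) (nat_lit 24) (.e (nat_lit 434231) (nat_lit 23) (.e (nat_lit 532578) (nat_lit 26) (.e (nat_lit 426108) (nat_lit 1) (.e (nat_lit 164403) (nat_lit 256) .nil)))))) (.g (nat_lit 5) .nil .nil))) 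
(.lf (nat_lit 162791) (.g (nat_lit 2037) (.e (nat_lit 57447) (nat_lit 19) (.e (nat_lit 393286) (nat_lit 25) (.e (nat_lit 458789) (nat_lit 23) (.e (nat_lit 532579) (nat_lit 26) (.e (nat_lit 426105) (nat_lit 1) (.e (nat_lit 164403) (nat_lit 256) .nil)))))) (.g (nat_lit 4) .nil .nil)))) (.nd (nat_lit 5) 
(.lf (nat_lit 162775) (.g (nat_lit 1523) (.e (nat_lit 57447) (nat_lit 19) (.e (nat_lit 393283) (nat_lit 24) (.e (nat_lit 434248) (nat_lit 28) (.e (nat_lit 581376) (nat_lit 4) .nil)))) .nil)) 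
(.lf (nat_lit 162807) (.g (nat_lit 2946) (.e (nat_lit 57447) (nat_lit 19) (.e (nat_lit 393288) (nat_lit 25) (.e (nat_lit 458789) (nat_lit 23) (.e (nat_lit 532579) (nat_lit 26) (.e (nat_lit 426098) (nat_lit 1) (.e (nat_lit 164403) (nat_lit 256) .nil)))))) (.g (nat_lit 4) .nil .nil))))) (.nd (nat_lit 4) (.nd (nat_lit 5) 
(.lf (nat_lit 162767) (.g (nat_lit 3632) (.e (nat_lit 57447) (nat_lit 19) (.e (nat_lit 393283) (nat_lit 24) (.e (nat_lit 434231) (nat_lit 23) (.e (nat_lit 532579) (nat_lit 26) (.e (nat_lit 426100) (nat_lit 1) (.e (nat_lit 164399) (nat_lit 256) .nil)))))) (.g (nat_lit 0) .nil .nil))) 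
(.lf (nat_lit 162799) (.g (nat_lit 3075) (.e (nat_lit 57447) (nat_lit 19) (.e (nat_lit 393287) (nat_lit 25) (.e (nat_lit 458789) (nat_lit 23) (.e (nat_lit 532579) (nat_lit 26) (.e (nat_lit 426100) (nat_lit 1) (.e (nat_lit 164399) (nat_lit 256) .nil)))))) (.g (nat_lit 0) .nil .nil)))) (.nd (nat_lit 5) 
(.lf (nat_lit 162783) (.g (nat_lit 2984) (.e (nat_lit 57447) (nat_lit 19) (.e (nat_lit 393284) (nat_lit 24) (.e (nat_lit 434231) (nat_lit 23) (.e (nat_lit 532579) (nat_lit 26) (.e (nat_lit 426107) (nat_lit 1) (.e (nat_lit 164403) (nat_lit 256) .nil)))))) (.g (nat_lit 5) .nil .nil))) 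
(.lf (nat_lit 162815) (.g (nat_lit 908) (.e (nat_lit 57447) (nat_lit 19) (.e (nat_lit 393298) (nat_lit 27) (.e (nat_lit 491528) (nat_lit 0) .nil))) .nil))))))))

noncomputable def tv2184 : DT := (.nd (nat_lit 0) (.nd (nat_lit 1) (.nd (nat_lit 2) (.nd (nat_lit 3) (.nd (nat_lit 4) (.nd (nat_lit 5) 
(.lf (nat_lit 162816) (.g (nat_lit 734) (.e (nat_lit 57447) (nat_lit 19) (.e (nat_lit 393298) (nat_lit 27) (.e (nat_lit 491570) (nat_lit 13) .nil))) .nil)) 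
(.lf (nat_lit 162848) (.g (nat_lit 3272) (.e (nat_lit 57447) (nat_lit 19) (.e (nat_lit 393301) (nat_lit 27) (.e (nat_lit 491526) (nat_lit 0) (.e (nat_lit 1848) (nat_lit 124) (.e (nat_lit 557103) (nat_lit 14) (.e (nat_lit 188160) (nat_lit 0) (.e (nat_lit 5937) (nat_lit 322) .nil))))))) (.g (nat_lit 5) .nil .nil)))) (.nd (nat_lit 5) 
(.lf (nat_lit 162832) (.g (nat_lit 1681) (.e (nat_lit 57447) (nat_lit 19) (.e (nat_lit 393301) (nat_lit 27) (.e (nat_lit 491526) (nat_lit 0) (.e (nat_lit 1847) (nat_lit 124) .nil)))) .nil)) 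
(.lf (nat_lit 162864) (.g (nat_lit 1174) (.e (nat_lit 57447) (nat_lit 19) (.e (nat_lit 393301) (nat_lit 27) (.e (nat_lit 491530) (nat_lit 0) .nil))) .nil)))) (.nd (nat_lit 4) (.nd (nat_lit 5) 
(.lf (nat_lit 162824) (.g (nat_lit 748) (.e (nat_lit 57447) (nat_lit 19) (.e (nat_lit 393300) (nat_lit 27) (.e (nat_lit 491577) (nat_lit 15) .nil))) .nil)) 
(.lf (nat_lit 162856) (.g (nat_lit 3344) (.e (nat_lit 57447) (nat_lit 19) (.e (nat_lit 393301) (nat_lit 27) (.e (nat_lit 491526) (nat_lit 0) (.e (nat_lit 1848) (nat_lit 124) (.e (nat_lit 557104) (nat_lit 14) (.e (nat_lit 188160) (nat_lit 0) (.e (nat_lit 5937) (nat_lit 322) .nil))))))) (.g (nat_lit 5) .nil .nil)))) (.nd (nat_lit 5) 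
(.lf (nat_lit 162840) (.g (nat_lit 3832) (.e (nat_lit 57447) (nat_lit 19) (.e (nat_lit 393301) (nat_lit 27) (.e (nat_lit 491526) (nat_lit 0) (.e (nat_lit 1848) (nat_lit 124) (.e (nat_lit 557103) (nat_lit 14) (.e (nat_lit 180228) (nat_lit 0) (.e (nat_lit 5953) (nat_lit 322) .nil))))))) (.g (nat_lit 5) .nil .nil))) 
(.lf (nat_lit 162872) (.g (nat_lit 3741) (.e (nat_lit 57447) (nat_lit 19) (.e (nat_lit 393301) (nat_lit 27) (.e (nat_lit 491560) (nat_lit 10) (.e (nat_lit 344090) (nat_lit 18) (.e (nat_lit 7261) (nat_lit 384) (.e (nat_lit 57364) (nat_lit 1) (.e (nat_lit 65280) (nat_lit 217) .nil))))))) (.g (nat_lit 4) .nil .nil)))))) (.nd (nat_lit 3) (.nd (nat_lit 4) (.nd (nat_lit 5) 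
(.lf (nat_lit 162820) (.g (nat_lit 2051) (.e (nat_lit 57447) (nat_lit 19) (.e (nat_lit 393299) (nat_lit 27) (.e (nat_lit 491526) (nat_lit 0) (.e (nat_lit 1848) (nat_lit 124) .nil)))) .nil)) 
(.lf (nat_lit 162852) (.g (nat_lit 3418) (.e (nat_lit 57447) (nat_lit 19) (.e (nat_lit 393301) (nat_lit 27) (.e (nat_lit 491526) (nat_lit 0) (.e (nat_lit 1848) (nat_lit 124) (.e (nat_lit 557104) (nat_lit 14) (.e (nat_lit 180224) (nat_lit 0) (.e (nat_lit 5953) (nat_lit 322) .nil))))))) (.g (nat_lit 5) .nil .nil)))) (.nd (nat_lit 5) 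
(.lf (nat_lit 162836) (.g (nat_lit 3735) (.e (nat_lit 57447) (nat_lit 19) (.e (nat_lit 393301) (nat_lit 27) (.e (nat_lit 491526) (nat_lit 0) (.e (nat_lit 1848) (nat_lit 124) (.e (nat_lit 557097) (nat_lit 13) (.e (nat_lit 172070) (nat_lit 4) (.e (nat_lit 229708) (nat_lit 256) .nil))))))) (.g (nat_lit 5) .nil .nil))) 
(.lf (nat_lit 162868) (.g (nat_lit 2525) (.e (nat_lit 57447) (nat_lit 19) (.e (nat_lit 393301) (nat_lit 27) (.e (nat_lit 491559) (nat_lit 10) (.e (nat_lit 344090) (nat_lit 18) .nil)))) .nil)))) (.nd (nat_lit 4) (.nd (nat_lit 5) 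
(.lf (nat_lit 162828) (.g (nat_lit 2866) (.e (nat_lit 57447) (nat_lit 19) (.e (nat_lit 393301) (nat_lit 27) (.e (nat_lit 491520) (nat_lit 0) (.e (nat_lit 1858) (nat_lit 124) (.e (nat_lit 557105) (nat_lit 14) (.e (nat_lit 180224) (nat_lit 0) (.e (nat_lit 5937) (nat_lit 322) .nil))))))) (.g (nat_lit 4) .nil .nil))) 
(.lf (nat_lit 162860) (.g (nat_lit 4311) (.e (nat_lit 57447) (nat_lit 19) (.e (nat_lit 393301) (nat_lit 27) (.e (nat_lit 491526) (nat_lit 0) (.e (nat_lit 1855) (nat_lit 124) (.e (nat_lit 557100) (nat_lit 13) (.e (nat_lit 172061) (nat_lit 1) (.e (nat_lit 164403) (nat_lit 256) .nil))))))) (.g (nat_lit 5) .nil .nil)))) (.nd (nat_lit 5) 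
(.lf (nat_lit 162844) (.g (nat_lit 3633) (.e (nat_lit 57447) (nat_lit 19) (.e (nat_lit 393301) (nat_lit 27) (.e (nat_lit 491526) (nat_lit 0) (.e (nat_lit 1848) (nat_lit 124) (.e (nat_lit 557103) (nat_lit 14) (.e (nat_lit 180233) (nat_lit 0) (.e (nat_lit 5946) (nat_lit 322) .nil))))))) (.g (nat_lit 5) .nil .nil))) 
(.lf (nat_lit 162876) (.g (nat_lit 2165) (.e (nat_lit 57447) (nat_lit 19) (.e (nat_lit 393301) (nat_lit 27) (.e (nat_lit 491560) (nat_lit 10) (.e (nat_lit 344179) (nat_lit 44) .nil)))) .nil)))))) (.nd (nat_lit 2) (.nd (nat_lit 3) (.nd (nat_lit 4) (.nd (nat_lit 5) 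
(.lf (nat_lit 162818) (.g (nat_lit 2000) (.e (nat_lit 57447) (nat_lit 19) (.e (nat_lit 393298) (nat_lit 27) (.e (nat_lit 491571) (nat_lit 13) (.e (nat_lit 393238) (nat_lit 17) .nil)))) .nil)) 
(.lf (nat_lit 162850) (.g (nat_lit 2849) (.e (nat_lit 57447) (nat_lit 19) (.e (nat_lit 393301) (nat_lit 27) (.e (nat_lit 491526) (nat_lit 0) (.e (nat_lit 1848) (nat_lit 124) (.e (nat_lit 557104) (nat_lit 14) (.e (nat_lit 180224) (nat_lit 0) (.e (nat_lit 5936) (nat_lit 322) .nil))))))) (.g (nat_lit 4) .nil .nil)))) (.nd (nat_lit 5) 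
(.lf (nat_lit 162834) (.g (nat_lit 3910) (.e (nat_lit 57447) (nat_lit 19) (.e (nat_lit 393301) (nat_lit 27) (.e (nat_lit 491526) (nat_lit 0) (.e (nat_lit 1848) (nat_lit 124) (.e (nat_lit 557097) (nat_lit 13) (.e (nat_lit 172061) (nat_lit 1) (.e (nat_lit 164401) (nat_lit 256) .nil))))))) (.g (nat_lit 5) .nil .nil))) 
(.lf (nat_lit 162866) (.g (nat_lit 734) (.e (nat_lit 57447) (nat_lit 19) (.e (nat_lit 393301) (nat_lit 27) (.e (nat_lit 491558) (nat_lit 10) .nil))) .nil)))) (.nd (nat_lit 4) (.nd (nat_lit 5) 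
(.lf (nat_lit 162826) (.g (nat_lit 817) (.e (nat_lit 57447) (nat_lit 19) (.e (nat_lit 393301) (nat_lit 27) (.e (nat_lit 491520) (nat_lit 0) .nil))) .nil)) 
(.lf (nat_lit 162858) (.g (nat_lit 4175) (.e (nat_lit 57447) (nat_lit 19) (.e (nat_lit 393301) (nat_lit 27) (.e (nat_lit 491526) (nat_lit 0) (.e (nat_lit 1855) (nat_lit 124) (.e (nat_lit 557100) (nat_lit 13) (.e (nat_lit 172059) (nat_lit 1) (.e (nat_lit 164398) (nat_lit 256) .nil))))))) (.g (nat_lit 5) .nil .nil)))) (.nd (nat_lit 5) 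
(.lf (nat_lit 162842) (.g (nat_lit 3556) (.e (nat_lit 57447) (nat_lit 19) (.e (nat_lit 393301) (nat_lit 27) (.e (nat_lit 491526) (nat_lit 0) (.e (nat_lit 1848) (nat_lit 124) (.e (nat_lit 557103) (nat_lit 14) (.e (nat_lit 180229) (nat_lit 0) (.e (nat_lit 5951) (nat_lit 322) .nil))))))) (.g (nat_lit 5) .nil .nil))) 
(.lf (nat_lit 162874) (.g (nat_lit 2709) (.e (nat_lit 57447) (nat_lit 19) (.e (nat_lit 393301) (nat_lit 27) (.e (nat_lit 491560) (nat_lit 10) (.e (nat_lit 344095) (nat_lit 18) .nil)))) .nil))))) (.nd (nat_lit 3) (.nd (nat_lit 4) (.nd (nat_lit 5) 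
(.lf (nat_lit 162822) (.g (nat_lit 763) (.e (nat_lit 57447) (nat_lit 19) (.e (nat_lit 393300) (nat_lit 27) (.e (nat_lit 491526) (nat_lit 0) .nil))) .nil)) 
(.lf (nat_lit 162854) (.g (nat_lit 4569) (.e (nat_lit 57447) (nat_lit 19) (.e (nat_lit 393301) (nat_lit 27) (.e (nat_lit 491526) (nat_lit 0) (.e (nat_lit 1848) (nat_lit 124) (.e (nat_lit 557104) (nat_lit 14) (.e (nat_lit 180229) (nat_lit 0) (.e (nat_lit 5953) (nat_lit 322) .nil))))))) (.g (nat_lit 6) .nil .nil)))) (.nd (nat_lit 5) 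
(.lf (nat_lit 162838) (.g (nat_lit 3531) (.e (nat_lit 57447) (nat_lit 19) (.e (nat_lit 393301) (nat_lit 27) (.e (nat_lit 491526) (nat_lit 0) (.e (nat_lit 1848) (nat_lit 124) (.e (nat_lit 557103) (nat_lit 14) (.e (nat_lit 180224) (nat_lit 0) (.e (nat_lit 5937) (nat_lit 322) .nil))))))) (.g (nat_lit 5) .nil .nil))) 
(.lf (nat_lit 162870) (.g (nat_lit 2532) (.e (nat_lit 57447) (nat_lit 19) (.e (nat_lit 393301) (nat_lit 27) (.e (nat_lit 491559) (nat_lit 10) (.e (nat_lit 344095) (nat_lit 18) .nil)))) .nil)))) (.nd (nat_lit 4) (.nd (nat_lit 5) 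
(.lf (nat_lit 162830) (.g (nat_lit 1137) (.e (nat_lit 57447) (nat_lit 19) (.e (nat_lit 393301) (nat_lit 27) (.e (nat_lit 491520) (nat_lit 0) (.e (nat_lit 1859) (nat_lit 124) .nil)))) .nil)) 
(.lf (nat_lit 162862) (.g (nat_lit 1680) (.e (nat_lit 57447) (nat_lit 19) (.e (nat_lit 393301) (nat_lit 27) (.e (nat_lit 491526) (nat_lit 0) (.e (nat_lit 1857) (nat_lit 124) .nil)))) .nil))) (.nd (nat_lit 5) 
(.lf (nat_lit 162846) (.g (nat_lit 3656) (.e (nat_lit 57447) (nat_lit 19) (.e (nat_lit 393301) (nat_lit 27) (.e (nat_lit 491526) (nat_lit 0) (.e (nat_lit 1848) (nat_lit 124) (.e (nat_lit 557103) (nat_lit 14) (.e (nat_lit 180233) (nat_lit 0) (.e (nat_lit 5949) (nat_lit 322) .nil))))))) (.g (nat_lit 5) .nil .nil))) 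
(.lf (nat_lit 162878) (.g (nat_lit 3536) (.e (nat_lit 57447) (nat_lit 19) (.e (nat_lit 393301) (nat_lit 27) (.e (nat_lit 491560) (nat_lit 10) (.e (nat_lit 344179) (nat_lit 44) (.e (nat_lit 778474) (nat_lit 12) (.e (nat_lit 163844) (nat_lit 0) (.e (nat_lit 6068) (nat_lit 328) .nil))))))) (.g (nat_lit 4) .nil .nil)))))))) 
(.nd (nat_lit 1) (.nd (nat_lit 2) (.nd (nat_lit 3) (.nd (nat_lit 4) (.nd (nat_lit 5) 
(.lf (nat_lit 162817) (.g (nat_lit 648) (.e (nat_lit 57447) (nat_lit 19) (.e (nat_lit 393298) (nat_lit 27) (.e (nat_lit 491571) (nat_lit 13) .nil))) .nil)) 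
(.lf (nat_lit 162849) (.g (nat_lit 1897) (.e (nat_lit 57447) (nat_lit 19) (.e (nat_lit 393301) (nat_lit 27) (.e (nat_lit 491526) (nat_lit 0) (.e (nat_lit 1848) (nat_lit 124) (.e (nat_lit 557104) (nat_lit 14) .nil))))) .nil))) (.nd (nat_lit 5) 
(.lf (nat_lit 162833) (.g (nat_lit 1516) (.e (nat_lit 57447) (nat_lit 19) (.e (nat_lit 393301) (nat_lit 27) (.e (nat_lit 491526) (nat_lit 0) (.e (nat_lit 1848) (nat_lit 124) .nil)))) .nil)) 
(.lf (nat_lit 162865) (.g (nat_lit 1051) (.e (nat_lit 57447) (nat_lit 19) (.e (nat_lit 393301) (nat_lit 27) (.e (nat_lit 491538) (nat_lit 3) .nil))) .nil)))) (.nd (nat_lit 4) (.nd (nat_lit 5) 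
(.lf (nat_lit 162825) (.g (nat_lit 628) (.e (nat_lit 57447) (nat_lit 19) (.e (nat_lit 393300) (nat_lit 27) (.e (nat_lit 499456) (nat_lit 18) .nil))) .nil)) 
(.lf (nat_lit 162857) (.g (nat_lit 1625) (.e (nat_lit 57447) (nat_lit 19) (.e (nat_lit 393301) (nat_lit 27) (.e (nat_lit 491526) (nat_lit 0) (.e (nat_lit 1855) (nat_lit 124) .nil)))) .nil))) (.nd (nat_lit 5) 
(.lf (nat_lit 162841) (.g (nat_lit 3979) (.e (nat_lit 57447) (nat_lit 19) (.e (nat_lit 393301) (nat_lit 27) (.e (nat_lit 491526) (nat_lit 0) (.e (nat_lit 1848) (nat_lit 124) (.e (nat_lit 557103) (nat_lit 14) (.e (nat_lit 180229) (nat_lit 0) (.e (nat_lit 5946) (nat_lit 322) .nil))))))) (.g (nat_lit 5) .nil .nil))) 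
(.lf (nat_lit 162873) (.g (nat_lit 3078) (.e (nat_lit 57447) (nat_lit 19) (.e (nat_lit 393301) (nat_lit 27) (.e (nat_lit 491560) (nat_lit 10) (.e (nat_lit 344091) (nat_lit 18) (.e (nat_lit 7261) (nat_lit 384) .nil))))) .nil))))) (.nd (nat_lit 3) (.nd (nat_lit 4) (.nd (nat_lit 5) 
(.lf (nat_lit 162821) (.g (nat_lit 2102) (.e (nat_lit 57447) (nat_lit 19) (.e (nat_lit 393299) (nat_lit 27) (.e (nat_lit 491526) (nat_lit 0) (.e (nat_lit 1855) (nat_lit 124) .nil)))) .nil)) 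
(.lf (nat_lit 162853) (.g (nat_lit 3870) (.e (nat_lit 57447) (nat_lit 19) (.e (nat_lit 393301) (nat_lit 27) (.e (nat_lit 491526) (nat_lit 0) (.e (nat_lit 1848) (nat_lit 124) (.e (nat_lit 557104) (nat_lit 14) (.e (nat_lit 180229) (nat_lit 0) (.e (nat_lit 5951) (nat_lit 322) .nil))))))) (.g (nat_lit 5) .nil .nil)))) (.nd (nat_lit 5) 
(.lf (nat_lit 162837) (.g (nat_lit 1952) (.e (nat_lit 57447) (nat_lit 19) (.e (nat_lit 393301) (nat_lit 27) (.e (nat_lit 491526) (nat_lit 0) (.e (nat_lit 1848) (nat_lit 124) (.e (nat_lit 557103) (nat_lit 14) .nil))))) .nil)) 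
(.lf (nat_lit 162869) (.g (nat_lit 2998) (.e (nat_lit 57447) (nat_lit 19) (.e (nat_lit 393301) (nat_lit 27) (.e (nat_lit 491559) (nat_lit 10) (.e (nat_lit 344091) (nat_lit 18) (.e (nat_lit 7261) (nat_lit 384) .nil))))) .nil)))) (.nd (nat_lit 4) (.nd (nat_lit 5) 
(.lf (nat_lit 162829) (.g (nat_lit 3017) (.e (nat_lit 57447) (nat_lit 19) (.e (nat_lit 393301) (nat_lit 27) (.e (nat_lit 491520) (nat_lit 0) (.e (nat_lit 1858) (nat_lit 124) (.e (nat_lit 557105) (nat_lit 14) (.e (nat_lit 180227) (nat_lit 0) (.e (nat_lit 5945) (nat_lit 322) .nil))))))) (.g (nat_lit 4) .nil .nil))) 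
(.lf (nat_lit 162861) (.g (nat_lit 3020) (.e (nat_lit 57447) (nat_lit 19) (.e (nat_lit 393301) (nat_lit 27) (.e (nat_lit 491526) (nat_lit 0) (.e (nat_lit 1855) (nat_lit 124) (.e (nat_lit 557105) (nat_lit 14) (.e (nat_lit 180227) (nat_lit 0) (.e (nat_lit 5945) (nat_lit 322) .nil))))))) (.g (nat_lit 4) .nil .nil)))) (.nd (nat_lit 5) 
(.lf (nat_lit 162845) (.g (nat_lit 3365) (.e (nat_lit 57447) (nat_lit 19) (.e (nat_lit 393301) (nat_lit 27) (.e (nat_lit 491526) (nat_lit 0) (.e (nat_lit 1848) (nat_lit 124) (.e (nat_lit 557103) (nat_lit 14) (.e (nat_lit 180233) (nat_lit 0) (.e (nat_lit 5948) (nat_lit 322) .nil))))))) (.g (nat_lit 5) .nil .nil))) 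
(.lf (nat_lit 162877) (.g (nat_lit 4238) (.e (nat_lit 57447) (nat_lit 19) (.e (nat_lit 393301) (nat_lit 27) (.e (nat_lit 491560) (nat_lit 10) (.e (nat_lit 344179) (nat_lit 44) (.e (nat_lit 778472) (nat_lit 12) (.e (nat_lit 163843) (nat_lit 0) (.e (nat_lit 6068) (nat_lit 328) .nil))))))) (.g (nat_lit 6) .nil .nil))))))) (.nd (nat_lit 2) (.nd (nat_lit 3) (.nd (nat_lit 4) (.nd (nat_lit 5) 
(.lf (nat_lit 162819) (.g (nat_lit 3321) (.e (nat_lit 57447) (nat_lit 19) (.e (nat_lit 393298) (nat_lit 27) (.e (nat_lit 491571) (nat_lit 13) (.e (nat_lit 393252) (nat_lit 18) (.e (nat_lit 171776) (nat_lit 262) .nil))))) (.g (nat_lit 4) .nil .nil))) 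
(.lf (nat_lit 162851) (.g (nat_lit 3793) (.e (nat_lit 57447) (nat_lit 19) (.e (nat_lit 393301) (nat_lit 27) (.e (nat_lit 491526) (nat_lit 0) (.e (nat_lit 1848) (nat_lit 124) (.e (nat_lit 557104) (nat_lit 14) (.e (nat_lit 180224) (nat_lit 0) (.e (nat_lit 5937) (nat_lit 322) .nil))))))) (.g (nat_lit 5) .nil .nil)))) (.nd (nat_lit 5) 
(.lf (nat_lit 162835) (.g (nat_lit 2915) (.e (nat_lit 57447) (nat_lit 19) (.e (nat_lit 393301) (nat_lit 27) (.e (nat_lit 491526) (nat_lit 0) (.e (nat_lit 1848) (nat_lit 124) (.e (nat_lit 557097) (nat_lit 13) (.e (nat_lit 172068) (nat_lit 4) (.e (nat_lit 229708) (nat_lit 256) .nil))))))) (.g (nat_lit 4) .nil .nil))) 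
(.lf (nat_lit 162867) (.g (nat_lit 695) (.e (nat_lit 57447) (nat_lit 19) (.e (nat_lit 393301) (nat_lit 27) (.e (nat_lit 491559) (nat_lit 10) .nil))) .nil)))) (.nd (nat_lit 4) (.nd (nat_lit 5) 
(.lf (nat_lit 162827) (.g (nat_lit 1135) (.e (nat_lit 57447) (nat_lit 19) (.e (nat_lit 393301) (nat_lit 27) (.e (nat_lit 491520) (nat_lit 0) (.e (nat_lit 1858) (nat_lit 124) .nil)))) .nil)) 
(.lf (nat_lit 162859) (.g (nat_lit 4099) (.e (nat_lit 57447) (nat_lit 19) (.e (nat_lit 393301) (nat_lit 27) (.e (nat_lit 491526) (nat_lit 0) (.e (nat_lit 1855) (nat_lit 124) (.e (nat_lit 557100) (nat_lit 13) (.e (nat_lit 172059) (nat_lit 1) (.e (nat_lit 164399) (nat_lit 256) .nil))))))) (.g (nat_lit 5) .nil .nil)))) (.nd (nat_lit 5) 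
(.lf (nat_lit 162843) (.g (nat_lit 2921) (.e (nat_lit 57447) (nat_lit 19) (.e (nat_lit 393301) (nat_lit 27) (.e (nat_lit 491526) (nat_lit 0) (.e (nat_lit 1848) (nat_lit 124) (.e (nat_lit 557103) (nat_lit 14) (.e (nat_lit 180232) (nat_lit 0) (.e (nat_lit 5946) (nat_lit 322) .nil))))))) (.g (nat_lit 4) .nil .nil))) 
(.lf (nat_lit 162875) (.g (nat_lit 3167) (.e (nat_lit 57447) (nat_lit 19) (.e (nat_lit 393301) (nat_lit 27) (.e (nat_lit 491560) (nat_lit 10) (.e (nat_lit 344096) (nat_lit 18) (.e (nat_lit 7261) (nat_lit 384) .nil))))) .nil))))) (.nd (nat_lit 3) (.nd (nat_lit 4) (.nd (nat_lit 5) 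
(.lf (nat_lit 162823) (.g (nat_lit 1978) (.e (nat_lit 57447) (nat_lit 19) (.e (nat_lit 393300) (nat_lit 27) (.e (nat_lit 491568) (nat_lit 13) (.e (nat_lit 393252) (nat_lit 18) .nil)))) .nil)) 
(.lf (nat_lit 162855) (.g (nat_lit 3373) (.e (nat_lit 57447) (nat_lit 19) (.e (nat_lit 393301) (nat_lit 27) (.e (nat_lit 491526) (nat_lit 0) (.e (nat_lit 1848) (nat_lit 124) (.e (nat_lit 557104) (nat_lit 14) (.e (nat_lit 180233) (nat_lit 0) (.e (nat_lit 5947) (nat_lit 322) .nil))))))) (.g (nat_lit 5) .nil .nil)))) (.nd (nat_lit 5) 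
(.lf (nat_lit 162839) (.g (nat_lit 2972) (.e (nat_lit 57447) (nat_lit 19) (.e (nat_lit 393301) (nat_lit 27) (.e (nat_lit 491526) (nat_lit 0) (.e (nat_lit 1848) (nat_lit 124) (.e (nat_lit 557103) (nat_lit 14) (.e (nat_lit 180225) (nat_lit 0) (.e (nat_lit 5945) (nat_lit 322) .nil))))))) (.g (nat_lit 4) .nil .nil))) 
(.lf (nat_lit 162871) (.g (nat_lit 2442) (.e (nat_lit 57447) (nat_lit 19) (.e (nat_lit 393301) (nat_lit 27) (.e (nat_lit 491560) (nat_lit 10) (.e (nat_lit 344090) (nat_lit 18) .nil)))) .nil)))) (.nd (nat_lit 4) (.nd (nat_lit 5) 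
(.lf (nat_lit 162831) (.g (nat_lit 1102) (.e (nat_lit 57447) (nat_lit 19) (.e (nat_lit 393301) (nat_lit 27) (.e (nat_lit 491525) (nat_lit 0) .nil))) .nil)) 
(.lf (nat_lit 162863) (.g (nat_lit 1178) (.e (nat_lit 57447) (nat_lit 19) (.e (nat_lit 393301) (nat_lit 27) (.e (nat_lit 491527) (nat_lit 0) .nil))) .nil))) (.nd (nat_lit 5) 
(.lf (nat_lit 162847) (.g (nat_lit 2675) (.e (nat_lit 57447) (nat_lit 19) (.e (nat_lit 393301) (nat_lit 27) (.e (nat_lit 491526) (nat_lit 0) (.e (nat_lit 1848) (nat_lit 124) (.e (nat_lit 557103) (nat_lit 14) (.e (nat_lit 188160) (nat_lit 0) (.e (nat_lit 5936) (nat_lit 322) .nil))))))) (.g (nat_lit 4) .nil .nil))) 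
(.lf (nat_lit 162879) (.g (nat_lit 2335) (.e (nat_lit 57447) (nat_lit 19) (.e (nat_lit 393301) (nat_lit 27) (.e (nat_lit 491560) (nat_lit 10) (.e (nat_lit 352000) (nat_lit 46) .nil)))) .nil))))))))

noncomputable def tv2185 : DT := (.nd (nat_lit 0) (.nd (nat_lit 1) (.nd (nat_lit 2) (.nd (nat_lit 3) (.nd (nat_lit 4) (.nd (nat_lit 5) 
(.lf (nat_lit 162880) (.g (nat_lit 3392) (.e (nat_lit 57447) (nat_lit 19) (.e (nat_lit 393301) (nat_lit 27) (.e (nat_lit 491560) (nat_lit 10) (.e (nat_lit 352000) (nat_lit 46) (.e (nat_lit 794661) (nat_lit 21) (.e (nat_lit 171776) (nat_lit 148) .nil)))))) (.g (nat_lit 5) .nil .nil))) 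
(.lf (nat_lit 162912) (.g (nat_lit 2017) (.e (nat_lit 57448) (nat_lit 19) (.e (nat_lit 393225) (nat_lit 9) (.e (nat_lit 336088) (nat_lit 9) (.e (nat_lit 336316) (nat_lit 17) (.e (nat_lit 196661) (nat_lit 12) .nil))))) .nil))) (.nd (nat_lit 5) 
(.lf (nat_lit 162896) (.g (nat_lit 2399) (.e (nat_lit 57448) (nat_lit 19) (.e (nat_lit 393225) (nat_lit 9) (.e (nat_lit 336078) (nat_lit 9) (.e (nat_lit 336324) (nat_lit 18) (.e (nat_lit 204829) (nat_lit 18) (.e (nat_lit 57849) (nat_lit 252) .nil)))))) (.g (nat_lit 4) .nil .nil))) 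
(.lf (nat_lit 162928) (.g (nat_lit 2609) (.e (nat_lit 57448) (nat_lit 19) (.e (nat_lit 393225) (nat_lit 9) (.e (nat_lit 336184) (nat_lit 11) (.e (nat_lit 368676) (nat_lit 21) (.e (nat_lit 516120) (nat_lit 1) (.e (nat_lit 164183) (nat_lit 154) .nil)))))) (.g (nat_lit 0) .nil .nil))))) (.nd (nat_lit 4) (.nd (nat_lit 5) 
(.lf (nat_lit 162888) (.g (nat_lit 2014) (.e (nat_lit 57448) (nat_lit 19) (.e (nat_lit 393225) (nat_lit 9) (.e (nat_lit 336076) (nat_lit 9) (.e (nat_lit 336316) (nat_lit 17) (.e (nat_lit 196661) (nat_lit 12) .nil))))) .nil)) 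
(.lf (nat_lit 162920) (.g (nat_lit 676) (.e (nat_lit 57448) (nat_lit 19) (.e (nat_lit 393225) (nat_lit 9) (.e (nat_lit 336174) (nat_lit 10) .nil))) .nil))) (.nd (nat_lit 5) 
(.lf (nat_lit 162904) (.g (nat_lit 2920) (.e (nat_lit 57448) (nat_lit 19) (.e (nat_lit 393225) (nat_lit 9) (.e (nat_lit 336087) (nat_lit 9) (.e (nat_lit 336019) (nat_lit 3) (.e (nat_lit 98335) (nat_lit 18) (.e (nat_lit 164183) (nat_lit 154) .nil)))))) (.g (nat_lit 0) .nil .nil))) 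
(.lf (nat_lit 162936) (.g (nat_lit 1731) (.e (nat_lit 57448) (nat_lit 19) (.e (nat_lit 393225) (nat_lit 9) (.e (nat_lit 336186) (nat_lit 11) (.e (nat_lit 368676) (nat_lit 21) (.e (nat_lit 516118) (nat_lit 1) (.e (nat_lit 164177) (nat_lit 154) .nil)))))) (.g (nat_lit 4) .nil .nil)))))) (.nd (nat_lit 3) (.nd (nat_lit 4) (.nd (nat_lit 5) 
(.lf (nat_lit 162884) (.g (nat_lit 1684) (.e (nat_lit 57447) (nat_lit 19) (.e (nat_lit 393301) (nat_lit 27) (.e (nat_lit 491577) (nat_lit 15) (.e (nat_lit 3238) (nat_lit 197) (.e (nat_lit 532523) (nat_lit 7) .nil))))) .nil)) 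
(.lf (nat_lit 162916) (.g (nat_lit 2567) (.e (nat_lit 57448) (nat_lit 19) (.e (nat_lit 393225) (nat_lit 9) (.e (nat_lit 336088) (nat_lit 9) (.e (nat_lit 336326) (nat_lit 18) (.e (nat_lit 204831) (nat_lit 18) (.e (nat_lit 57849) (nat_lit 252) .nil)))))) (.g (nat_lit 5) .nil .nil)))) (.nd (nat_lit 5) 
(.lf (nat_lit 162900) (.g (nat_lit 2722) (.e (nat_lit 57448) (nat_lit 19) (.e (nat_lit 393225) (nat_lit 9) (.e (nat_lit 336087) (nat_lit 9) (.e (nat_lit 336019) (nat_lit 3) (.e (nat_lit 98333) (nat_lit 18) (.e (nat_lit 164177) (nat_lit 154) .nil)))))) (.g (nat_lit 5) .nil .nil))) 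
(.lf (nat_lit 162932) (.g (nat_lit 2260) (.e (nat_lit 57448) (nat_lit 19) (.e (nat_lit 393225) (nat_lit 9) (.e (nat_lit 336186) (nat_lit 11) (.e (nat_lit 368676) (nat_lit 21) (.e (nat_lit 516115) (nat_lit 1) (.e (nat_lit 164182) (nat_lit 154) .nil)))))) (.g (nat_lit 5) .nil .nil))))) (.nd (nat_lit 4) (.nd (nat_lit 5) 
(.lf (nat_lit 162892) (.g (nat_lit 2584) (.e (nat_lit 57448) (nat_lit 19) (.e (nat_lit 393225) (nat_lit 9) (.e (nat_lit 336076) (nat_lit 9) (.e (nat_lit 336326) (nat_lit 18) (.e (nat_lit 204831) (nat_lit 18) (.e (nat_lit 57846) (nat_lit 252) .nil)))))) (.g (nat_lit 4) .nil .nil))) 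
(.lf (nat_lit 162924) (.g (nat_lit 1722) (.e (nat_lit 57448) (nat_lit 19) (.e (nat_lit 393225) (nat_lit 9) (.e (nat_lit 336184) (nat_lit 11) (.e (nat_lit 368676) (nat_lit 21) (.e (nat_lit 516117) (nat_lit 1) (.e (nat_lit 164176) (nat_lit 154) .nil)))))) (.g (nat_lit 4) .nil .nil)))) (.nd (nat_lit 5) 
(.lf (nat_lit 162908) (.g (nat_lit 1762) (.e (nat_lit 57448) (nat_lit 19) (.e (nat_lit 393225) (nat_lit 9) (.e (nat_lit 336088) (nat_lit 9) (.e (nat_lit 336019) (nat_lit 3) (.e (nat_lit 98335) (nat_lit 18) .nil))))) .nil)) 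
(.lf (nat_lit 162940) (.g (nat_lit 3663) (.e (nat_lit 57448) (nat_lit 19) (.e (nat_lit 393225) (nat_lit 9) (.e (nat_lit 336193) (nat_lit 12) (.e (nat_lit 385068) (nat_lit 26) (.e (nat_lit 532499) (nat_lit 1) (.e (nat_lit 57847) (nat_lit 252) .nil)))))) (.g (nat_lit 6) .nil .nil))))))) (.nd (nat_lit 2) (.nd (nat_lit 3) (.nd (nat_lit 4) (.nd (nat_lit 5) 
(.lf (nat_lit 162882) (.g (nat_lit 1168) (.e (nat_lit 57447) (nat_lit 19) (.e (nat_lit 393301) (nat_lit 27) (.e (nat_lit 491573) (nat_lit 15) .nil))) .nil)) 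
(.lf (nat_lit 162914) (.g (nat_lit 2192) (.e (nat_lit 57448) (nat_lit 19) (.e (nat_lit 393225) (nat_lit 9) (.e (nat_lit 336088) (nat_lit 9) (.e (nat_lit 336326) (nat_lit 18) (.e (nat_lit 204831) (nat_lit 18) (.e (nat_lit 57846) (nat_lit 252) .nil)))))) (.g (nat_lit 4) .nil .nil)))) (.nd (nat_lit 5) 
(.lf (nat_lit 162898) (.g (nat_lit 2606) (.e (nat_lit 57448) (nat_lit 19) (.e (nat_lit 393225) (nat_lit 9) (.e (nat_lit 336078) (nat_lit 9) (.e (nat_lit 336324) (nat_lit 18) (.e (nat_lit 204831) (nat_lit 18) (.e (nat_lit 57849) (nat_lit 252) .nil)))))) (.g (nat_lit 4) .nil .nil))) 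
(.lf (nat_lit 162930) (.g (nat_lit 1915) (.e (nat_lit 57448) (nat_lit 19) (.e (nat_lit 393225) (nat_lit 9) (.e (nat_lit 336185) (nat_lit 11) (.e (nat_lit 368676) (nat_lit 21) (.e (nat_lit 516118) (nat_lit 1) .nil))))) .nil)))) (.nd (nat_lit 4) (.nd (nat_lit 5) 
(.lf (nat_lit 162890) (.g (nat_lit 3435) (.e (nat_lit 57448) (nat_lit 19) (.e (nat_lit 393225) (nat_lit 9) (.e (nat_lit 336076) (nat_lit 9) (.e (nat_lit 336326) (nat_lit 18) (.e (nat_lit 204829) (nat_lit 18) (.e (nat_lit 57847) (nat_lit 252) .nil)))))) (.g (nat_lit 6) .nil .nil))) 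
(.lf (nat_lit 162922) (.g (nat_lit 2126) (.e (nat_lit 57448) (nat_lit 19) (.e (nat_lit 393225) (nat_lit 9) (.e (nat_lit 336184) (nat_lit 11) (.e (nat_lit 368676) (nat_lit 21) (.e (nat_lit 516115) (nat_lit 1) (.e (nat_lit 164182) (nat_lit 154) .nil)))))) (.g (nat_lit 5) .nil .nil)))) (.nd (nat_lit 5) 
(.lf (nat_lit 162906) (.g (nat_lit 3674) (.e (nat_lit 57448) (nat_lit 19) (.e (nat_lit 393225) (nat_lit 9) (.e (nat_lit 336088) (nat_lit 9) (.e (nat_lit 336019) (nat_lit 3) (.e (nat_lit 98333) (nat_lit 18) (.e (nat_lit 164183) (nat_lit 154) .nil)))))) (.g (nat_lit 0) .nil .nil))) 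
(.lf (nat_lit 162938) (.g (nat_lit 2753) (.e (nat_lit 57448) (nat_lit 19) (.e (nat_lit 393225) (nat_lit 9) (.e (nat_lit 336186) (nat_lit 11) (.e (nat_lit 368676) (nat_lit 21) (.e (nat_lit 516120) (nat_lit 1) (.e (nat_lit 164183) (nat_lit 154) .nil)))))) (.g (nat_lit 0) .nil .nil)))))) (.nd (nat_lit 3) (.nd (nat_lit 4) (.nd (nat_lit 5) 
(.lf (nat_lit 162886) (.g (nat_lit 354) (.e (nat_lit 57448) (nat_lit 19) (.e (nat_lit 393221) (nat_lit 0) (.e (nat_lit 7936) (nat_lit 348) .nil))) .nil)) 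
(.lf (nat_lit 162918) (.g (nat_lit 2244) (.e (nat_lit 57448) (nat_lit 19) (.e (nat_lit 393225) (nat_lit 9) (.e (nat_lit 336163) (nat_lit 10) (.e (nat_lit 344117) (nat_lit 21) (.e (nat_lit 516115) (nat_lit 1) (.e (nat_lit 164183) (nat_lit 154) .nil)))))) (.g (nat_lit 4) .nil .nil)))) (.nd (nat_lit 5) 
(.lf (nat_lit 162902) (.g (nat_lit 3196) (.e (nat_lit 57448) (nat_lit 19) (.e (nat_lit 393225) (nat_lit 9) (.e (nat_lit 336087) (nat_lit 9) (.e (nat_lit 336019) (nat_lit 3) (.e (nat_lit 98334) (nat_lit 18) (.e (nat_lit 164183) (nat_lit 154) .nil)))))) (.g (nat_lit 0) .nil .nil))) 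
(.lf (nat_lit 162934) (.g (nat_lit 1819) (.e (nat_lit 57448) (nat_lit 19) (.e (nat_lit 393225) (nat_lit 9) (.e (nat_lit 336186) (nat_lit 11) (.e (nat_lit 368676) (nat_lit 21) (.e (nat_lit 516117) (nat_lit 1) (.e (nat_lit 164176) (nat_lit 154) .nil)))))) (.g (nat_lit 4) .nil .nil))))) (.nd (nat_lit 4) (.nd (nat_lit 5) 
(.lf (nat_lit 162894) (.g (nat_lit 2957) (.e (nat_lit 57448) (nat_lit 19) (.e (nat_lit 393225) (nat_lit 9) (.e (nat_lit 336076) (nat_lit 9) (.e (nat_lit 336326) (nat_lit 18) (.e (nat_lit 204831) (nat_lit 18) (.e (nat_lit 57849) (nat_lit 252) .nil)))))) (.g (nat_lit 5) .nil .nil))) 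
(.lf (nat_lit 162926) (.g (nat_lit 1670) (.e (nat_lit 57448) (nat_lit 19) (.e (nat_lit 393225) (nat_lit 9) (.e (nat_lit 336184) (nat_lit 11) (.e (nat_lit 368676) (nat_lit 21) (.e (nat_lit 516118) (nat_lit 1) (.e (nat_lit 164177) (nat_lit 154) .nil)))))) (.g (nat_lit 4) .nil .nil)))) (.nd (nat_lit 5) 
(.lf (nat_lit 162910) (.g (nat_lit 2493) (.e (nat_lit 57448) (nat_lit 19) (.e (nat_lit 393225) (nat_lit 9) (.e (nat_lit 336088) (nat_lit 9) (.e (nat_lit 336019) (nat_lit 3) (.e (nat_lit 98335) (nat_lit 18) (.e (nat_lit 164177) (nat_lit 154) .nil)))))) (.g (nat_lit 4) .nil .nil))) 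
(.lf (nat_lit 162942) (.g (nat_lit 3375) (.e (nat_lit 57448) (nat_lit 19) (.e (nat_lit 393225) (nat_lit 9) (.e (nat_lit 336193) (nat_lit 12) (.e (nat_lit 385068) (nat_lit 26) (.e (nat_lit 532503) (nat_lit 1) (.e (nat_lit 57847) (nat_lit 252) .nil)))))) (.g (nat_lit 5) .nil .nil)))))))) (.nd (nat_lit 1) (.nd (nat_lit 2) (.nd (nat_lit 3) (.nd (nat_lit 4) (.nd (nat_lit 5) 
(.lf (nat_lit 162881) (.g (nat_lit 798) (.e (nat_lit 57447) (nat_lit 19) (.e (nat_lit 393301) (nat_lit 27) (.e (nat_lit 491568) (nat_lit 13) .nil))) .nil)) 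
(.lf (nat_lit 162913) (.g (nat_lit 3035) (.e (nat_lit 57448) (nat_lit 19) (.e (nat_lit 393225) (nat_lit 9) (.e (nat_lit 336088) (nat_lit 9) (.e (nat_lit 336326) (nat_lit 18) (.e (nat_lit 204829) (nat_lit 18) (.e (nat_lit 57847) (nat_lit 252) .nil)))))) (.g (nat_lit 6) .nil .nil)))) (.nd (nat_lit 5) 
(.lf (nat_lit 162897) (.g (nat_lit 2576) (.e (nat_lit 57448) (nat_lit 19) (.e (nat_lit 393225) (nat_lit 9) (.e (nat_lit 336078) (nat_lit 9) (.e (nat_lit 336324) (nat_lit 18) (.e (nat_lit 204831) (nat_lit 18) (.e (nat_lit 57847) (nat_lit 252) .nil)))))) (.g (nat_lit 4) .nil .nil))) 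
(.lf (nat_lit 162929) (.g (nat_lit 676) (.e (nat_lit 57448) (nat_lit 19) (.e (nat_lit 393225) (nat_lit 9) (.e (nat_lit 336185) (nat_lit 11) .nil))) .nil)))) (.nd (nat_lit 4) (.nd (nat_lit 5) 
(.lf (nat_lit 162889) (.g (nat_lit 3492) (.e (nat_lit 57448) (nat_lit 19) (.e (nat_lit 393225) (nat_lit 9) (.e (nat_lit 336076) (nat_lit 9) (.e (nat_lit 336324) (nat_lit 18) (.e (nat_lit 204831) (nat_lit 18) (.e (nat_lit 57847) (nat_lit 252) .nil)))))) (.g (nat_lit 0) .nil .nil))) 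
(.lf (nat_lit 162921) (.g (nat_lit 885) (.e (nat_lit 57448) (nat_lit 19) (.e (nat_lit 393225) (nat_lit 9) (.e (nat_lit 336174) (nat_lit 10) (.e (nat_lit 344119) (nat_lit 21) .nil)))) .nil))) (.nd (nat_lit 5) 
(.lf (nat_lit 162905) (.g (nat_lit 3063) (.e (nat_lit 57448) (nat_lit 19) (.e (nat_lit 393225) (nat_lit 9) (.e (nat_lit 336088) (nat_lit 9) (.e (nat_lit 336019) (nat_lit 3) (.e (nat_lit 98333) (nat_lit 18) (.e (nat_lit 164177) (nat_lit 154) .nil)))))) (.g (nat_lit 5) .nil .nil))) 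
(.lf (nat_lit 162937) (.g (nat_lit 2671) (.e (nat_lit 57448) (nat_lit 19) (.e (nat_lit 393225) (nat_lit 9) (.e (nat_lit 336186) (nat_lit 11) (.e (nat_lit 368676) (nat_lit 21) (.e (nat_lit 516118) (nat_lit 1) (.e (nat_lit 164183) (nat_lit 154) .nil)))))) (.g (nat_lit 0) .nil .nil)))))) (.nd (nat_lit 3) (.nd (nat_lit 4) (.nd (nat_lit 5) 
(.lf (nat_lit 162885) (.g (nat_lit 667) (.e (nat_lit 57447) (nat_lit 19) (.e (nat_lit 393301) (nat_lit 27) (.e (nat_lit 499456) (nat_lit 18) .nil))) .nil)) 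
(.lf (nat_lit 162917) (.g (nat_lit 1691) (.e (nat_lit 57448) (nat_lit 19) (.e (nat_lit 393225) (nat_lit 9) (.e (nat_lit 336158) (nat_lit 9) (.e (nat_lit 336021) (nat_lit 3) (.e (nat_lit 98333) (nat_lit 18) (.e (nat_lit 164182) (nat_lit 154) .nil)))))) (.g (nat_lit 4) .nil .nil)))) (.nd (nat_lit 5) 
(.lf (nat_lit 162901) (.g (nat_lit 3314) (.e (nat_lit 57448) (nat_lit 19) (.e (nat_lit 393225) (nat_lit 9) (.e (nat_lit 336087) (nat_lit 9) (.e (nat_lit 336019) (nat_lit 3) (.e (nat_lit 98333) (nat_lit 18) (.e (nat_lit 164183) (nat_lit 154) .nil)))))) (.g (nat_lit 0) .nil .nil))) 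
(.lf (nat_lit 162933) (.g (nat_lit 2799) (.e (nat_lit 57448) (nat_lit 19) (.e (nat_lit 393225) (nat_lit 9) (.e (nat_lit 336186) (nat_lit 11) (.e (nat_lit 368676) (nat_lit 21) (.e (nat_lit 516115) (nat_lit 1) (.e (nat_lit 164183) (nat_lit 154) .nil)))))) (.g (nat_lit 0) .nil .nil))))) (.nd (nat_lit 4) (.nd (nat_lit 5) 
(.lf (nat_lit 162893) (.g (nat_lit 3117) (.e (nat_lit 57448) (nat_lit 19) (.e (nat_lit 393225) (nat_lit 9) (.e (nat_lit 336076) (nat_lit 9) (.e (nat_lit 336326) (nat_lit 18) (.e (nat_lit 204831) (nat_lit 18) (.e (nat_lit 57847) (nat_lit 252) .nil)))))) (.g (nat_lit 6) .nil .nil))) 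
(.lf (nat_lit 162925) (.g (nat_lit 2705) (.e (nat_lit 57448) (nat_lit 19) (.e (nat_lit 393225) (nat_lit 9) (.e (nat_lit 336184) (nat_lit 11) (.e (nat_lit 368676) (nat_lit 21) (.e (nat_lit 516117) (nat_lit 1) (.e (nat_lit 164183) (nat_lit 154) .nil)))))) (.g (nat_lit 0) .nil .nil)))) (.nd (nat_lit 5) 
(.lf (nat_lit 162909) (.g (nat_lit 2008) (.e (nat_lit 57448) (nat_lit 19) (.e (nat_lit 393225) (nat_lit 9) (.e (nat_lit 336088) (nat_lit 9) (.e (nat_lit 336019) (nat_lit 3) (.e (nat_lit 98335) (nat_lit 18) (.e (nat_lit 164176) (nat_lit 154) .nil)))))) (.g (nat_lit 4) .nil .nil))) 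
(.lf (nat_lit 162941) (.g (nat_lit 2632) (.e (nat_lit 57448) (nat_lit 19) (.e (nat_lit 393225) (nat_lit 9) (.e (nat_lit 336193) (nat_lit 12) (.e (nat_lit 385068) (nat_lit 26) (.e (nat_lit 532499) (nat_lit 1) (.e (nat_lit 57849) (nat_lit 252) .nil)))))) (.g (nat_lit 4) .nil .nil))))))) (.nd (nat_lit 2) (.nd (nat_lit 3) (.nd (nat_lit 4) (.nd (nat_lit 5) 
(.lf (nat_lit 162883) (.g (nat_lit 1042) (.e (nat_lit 57447) (nat_lit 19) (.e (nat_lit 393301) (nat_lit 27) (.e (nat_lit 491577) (nat_lit 15) .nil))) .nil)) 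
(.lf (nat_lit 162915) (.g (nat_lit 2711) (.e (nat_lit 57448) (nat_lit 19) (.e (nat_lit 393225) (nat_lit 9) (.e (nat_lit 336088) (nat_lit 9) (.e (nat_lit 336326) (nat_lit 18) (.e (nat_lit 204831) (nat_lit 18) (.e (nat_lit 57847) (nat_lit 252) .nil)))))) (.g (nat_lit 5) .nil .nil)))) (.nd (nat_lit 5) 
(.lf (nat_lit 162899) (.g (nat_lit 676) (.e (nat_lit 57448) (nat_lit 19) (.e (nat_lit 393225) (nat_lit 9) (.e (nat_lit 336084) (nat_lit 9) .nil))) .nil)) 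
(.lf (nat_lit 162931) (.g (nat_lit 2106) (.e (nat_lit 57448) (nat_lit 19) (.e (nat_lit 393225) (nat_lit 9) (.e (nat_lit 336186) (nat_lit 11) (.e (nat_lit 368676) (nat_lit 21) (.e (nat_lit 516115) (nat_lit 1) (.e (nat_lit 164177) (nat_lit 154) .nil)))))) (.g (nat_lit 5) .nil .nil))))) (.nd (nat_lit 4) (.nd (nat_lit 5) 
(.lf (nat_lit 162891) (.g (nat_lit 2828) (.e (nat_lit 57448) (nat_lit 19) (.e (nat_lit 393225) (nat_lit 9) (.e (nat_lit 336076) (nat_lit 9) (.e (nat_lit 336326) (nat_lit 18) (.e (nat_lit 204829) (nat_lit 18) (.e (nat_lit 57849) (nat_lit 252) .nil)))))) (.g (nat_lit 5) .nil .nil))) 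
(.lf (nat_lit 162923) (.g (nat_lit 2668) (.e (nat_lit 57448) (nat_lit 19) (.e (nat_lit 393225) (nat_lit 9) (.e (nat_lit 336184) (nat_lit 11) (.e (nat_lit 368676) (nat_lit 21) (.e (nat_lit 516115) (nat_lit 1) (.e (nat_lit 164183) (nat_lit 154) .nil)))))) (.g (nat_lit 0) .nil .nil)))) (.nd (nat_lit 5) 
(.lf (nat_lit 162907) (.g (nat_lit 3574) (.e (nat_lit 57448) (nat_lit 19) (.e (nat_lit 393225) (nat_lit 9) (.e (nat_lit 336088) (nat_lit 9) (.e (nat_lit 336019) (nat_lit 3) (.e (nat_lit 98334) (nat_lit 18) (.e (nat_lit 164183) (nat_lit 154) .nil)))))) (.g (nat_lit 0) .nil .nil))) 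
(.lf (nat_lit 162939) (.g (nat_lit 676) (.e (nat_lit 57448) (nat_lit 19) (.e (nat_lit 393225) (nat_lit 9) (.e (nat_lit 336188) (nat_lit 11) .nil))) .nil))))) (.nd (nat_lit 3) (.nd (nat_lit 4) (.nd (nat_lit 5) 
(.lf (nat_lit 162887) (.g (nat_lit 2136) (.e (nat_lit 57448) (nat_lit 19) (.e (nat_lit 393224) (nat_lit 9) (.e (nat_lit 336194) (nat_lit 12) (.e (nat_lit 385068) (nat_lit 26) (.e (nat_lit 532503) (nat_lit 1) (.e (nat_lit 57847) (nat_lit 252) .nil)))))) (.g (nat_lit 4) .nil .nil))) 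
(.lf (nat_lit 162919) (.g (nat_lit 1494) (.e (nat_lit 57448) (nat_lit 19) (.e (nat_lit 393225) (nat_lit 9) (.e (nat_lit 336165) (nat_lit 10) (.e (nat_lit 344117) (nat_lit 21) (.e (nat_lit 516116) (nat_lit 1) .nil))))) .nil))) (.nd (nat_lit 5) 
(.lf (nat_lit 162903) (.g (nat_lit 2129) (.e (nat_lit 57448) (nat_lit 19) (.e (nat_lit 393225) (nat_lit 9) (.e (nat_lit 336087) (nat_lit 9) (.e (nat_lit 336019) (nat_lit 3) (.e (nat_lit 98335) (nat_lit 18) (.e (nat_lit 164177) (nat_lit 154) .nil)))))) (.g (nat_lit 4) .nil .nil))) 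
(.lf (nat_lit 162935) (.g (nat_lit 2838) (.e (nat_lit 57448) (nat_lit 19) (.e (nat_lit 393225) (nat_lit 9) (.e (nat_lit 336186) (nat_lit 11) (.e (nat_lit 368676) (nat_lit 21) (.e (nat_lit 516117) (nat_lit 1) (.e (nat_lit 164183) (nat_lit 154) .nil)))))) (.g (nat_lit 0) .nil .nil))))) (.nd (nat_lit 4) (.nd (nat_lit 5) 
(.lf (nat_lit 162895) (.g (nat_lit 2589) (.e (nat_lit 57448) (nat_lit 19) (.e (nat_lit 393225) (nat_lit 9) (.e (nat_lit 336078) (nat_lit 9) (.e (nat_lit 336324) (nat_lit 18) (.e (nat_lit 204829) (nat_lit 18) (.e (nat_lit 57847) (nat_lit 252) .nil)))))) (.g (nat_lit 4) .nil .nil))) 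
(.lf (nat_lit 162927) (.g (nat_lit 2535) (.e (nat_lit 57448) (nat_lit 19) (.e (nat_lit 393225) (nat_lit 9) (.e (nat_lit 336184) (nat_lit 11) (.e (nat_lit 368676) (nat_lit 21) (.e (nat_lit 516118) (nat_lit 1) (.e (nat_lit 164183) (nat_lit 154) .nil)))))) (.g (nat_lit 0) .nil .nil)))) (.nd (nat_lit 5) 
(.lf (nat_lit 162911) (.g (nat_lit 3297) (.e (nat_lit 57448) (nat_lit 19) (.e (nat_lit 393225) (nat_lit 9) (.e (nat_lit 336088) (nat_lit 9) (.e (nat_lit 336019) (nat_lit 3) (.e (nat_lit 98335) (nat_lit 18) (.e (nat_lit 164183) (nat_lit 154) .nil)))))) (.g (nat_lit 0) .nil .nil))) 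
(.lf (nat_lit 162943) (.g (nat_lit 676) (.e (nat_lit 57448) (nat_lit 19) (.e (nat_lit 393225) (nat_lit 9) (.e (nat_lit 336195) (nat_lit 12) .nil))) .nil))))))))

noncomputable def tv2186 : DT := (.nd (nat_lit 0) (.nd (nat_lit 1) (.nd (nat_lit 2) (.nd (nat_lit 3) (.nd (nat_lit 4) (.nd (nat_lit 5) 
(.lf (nat_lit 162944) (.g (nat_lit 2202) (.e (nat_lit 57448) (nat_lit 19) (.e (nat_lit 393225) (nat_lit 9) (.e (nat_lit 336196) (nat_lit 12) (.e (nat_lit 385064) (nat_lit 26) (.e (nat_lit 532503) (nat_lit 1) (.e (nat_lit 57848) (nat_lit 252) .nil)))))) (.g (nat_lit 4) .nil .nil))) 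
(.lf (nat_lit 162976) (.g (nat_lit 2164) (.e (nat_lit 57448) (nat_lit 19) (.e (nat_lit 393228) (nat_lit 9) (.e (nat_lit 336088) (nat_lit 9) (.e (nat_lit 336019) (nat_lit 3) (.e (nat_lit 98335) (nat_lit 18) (.e (nat_lit 164183) (nat_lit 154) .nil)))))) (.g (nat_lit 4) .nil .nil)))) (.nd (nat_lit 5) 
(.lf (nat_lit 162960) (.g (nat_lit 2097) (.e (nat_lit 57448) (nat_lit 19) (.e (nat_lit 393227) (nat_lit 9) (.e (nat_lit 336121) (nat_lit 9) (.e (nat_lit 336323) (nat_lit 18) (.e (nat_lit 204829) (nat_lit 18) (.e (nat_lit 57847) (nat_lit 252) .nil)))))) (.g (nat_lit 6) .nil .nil))) 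
(.lf (nat_lit 162992) (.g (nat_lit 2643) (.e (nat_lit 57448) (nat_lit 19) (.e (nat_lit 393229) (nat_lit 9) (.e (nat_lit 336077) (nat_lit 9) (.e (nat_lit 336324) (nat_lit 18) (.e (nat_lit 204829) (nat_lit 18) (.e (nat_lit 57847) (nat_lit 252) .nil)))))) (.g (nat_lit 5) .nil .nil))))) (.nd (nat_lit 4) (.nd (nat_lit 5) 
(.lf (nat_lit 162952) (.g (nat_lit 3567) (.e (nat_lit 57448) (nat_lit 19) (.e (nat_lit 393225) (nat_lit 9) (.e (nat_lit 336196) (nat_lit 12) (.e (nat_lit 385068) (nat_lit 26) (.e (nat_lit 532499) (nat_lit 1) (.e (nat_lit 57849) (nat_lit 252) .nil)))))) (.g (nat_lit 5) .nil .nil))) 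
(.lf (nat_lit 162984) (.g (nat_lit 3475) (.e (nat_lit 57448) (nat_lit 19) (.e (nat_lit 393229) (nat_lit 9) (.e (nat_lit 336076) (nat_lit 9) (.e (nat_lit 336324) (nat_lit 18) (.e (nat_lit 204829) (nat_lit 18) (.e (nat_lit 57847) (nat_lit 252) .nil)))))) (.g (nat_lit 0) .nil .nil)))) (.nd (nat_lit 5) 
(.lf (nat_lit 162968) (.g (nat_lit 1796) (.e (nat_lit 57448) (nat_lit 19) (.e (nat_lit 393227) (nat_lit 9) (.e (nat_lit 336153) (nat_lit 9) (.e (nat_lit 336323) (nat_lit 18) (.e (nat_lit 204831) (nat_lit 18) (.e (nat_lit 57847) (nat_lit 252) .nil)))))) (.g (nat_lit 6) .nil .nil))) 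
(.lf (nat_lit 163000) (.g (nat_lit 2165) (.e (nat_lit 57448) (nat_lit 19) (.e (nat_lit 393229) (nat_lit 9) (.e (nat_lit 336078) (nat_lit 9) (.e (nat_lit 336324) (nat_lit 18) (.e (nat_lit 204831) (nat_lit 18) (.e (nat_lit 57846) (nat_lit 252) .nil)))))) (.g (nat_lit 4) .nil .nil)))))) (.nd (nat_lit 3) (.nd (nat_lit 4) (.nd (nat_lit 5) 
(.lf (nat_lit 162948) (.g (nat_lit 3039) (.e (nat_lit 57448) (nat_lit 19) (.e (nat_lit 393225) (nat_lit 9) (.e (nat_lit 336196) (nat_lit 12) (.e (nat_lit 385066) (nat_lit 26) (.e (nat_lit 532503) (nat_lit 1) (.e (nat_lit 57846) (nat_lit 252) .nil)))))) (.g (nat_lit 5) .nil .nil))) 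
(.lf (nat_lit 162980) (.g (nat_lit 2610) (.e (nat_lit 57448) (nat_lit 19) (.e (nat_lit 393228) (nat_lit 9) (.e (nat_lit 336194) (nat_lit 12) (.e (nat_lit 385068) (nat_lit 26) (.e (nat_lit 532503) (nat_lit 1) (.e (nat_lit 57847) (nat_lit 252) .nil)))))) (.g (nat_lit 5) .nil .nil)))) (.nd (nat_lit 5) 
(.lf (nat_lit 162964) (.g (nat_lit 2060) (.e (nat_lit 57448) (nat_lit 19) (.e (nat_lit 393227) (nat_lit 9) (.e (nat_lit 336152) (nat_lit 9) (.e (nat_lit 336017) (nat_lit 3) (.e (nat_lit 98333) (nat_lit 18) (.e (nat_lit 164177) (nat_lit 154) .nil)))))) (.g (nat_lit 6) .nil .nil))) 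
(.lf (nat_lit 162996) (.g (nat_lit 1614) (.e (nat_lit 57448) (nat_lit 19) (.e (nat_lit 393229) (nat_lit 9) (.e (nat_lit 336077) (nat_lit 9) (.e (nat_lit 336326) (nat_lit 18) (.e (nat_lit 204831) (nat_lit 18) .nil))))) .nil)))) (.nd (nat_lit 4) (.nd (nat_lit 5) 
(.lf (nat_lit 162956) (.g (nat_lit 2127) (.e (nat_lit 57448) (nat_lit 19) (.e (nat_lit 393225) (nat_lit 9) (.e (nat_lit 336204) (nat_lit 12) (.e (nat_lit 385064) (nat_lit 26) (.e (nat_lit 532503) (nat_lit 1) (.e (nat_lit 57848) (nat_lit 252) .nil)))))) (.g (nat_lit 4) .nil .nil))) 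
(.lf (nat_lit 162988) (.g (nat_lit 3422) (.e (nat_lit 57448) (nat_lit 19) (.e (nat_lit 393229) (nat_lit 9) (.e (nat_lit 336076) (nat_lit 9) (.e (nat_lit 336324) (nat_lit 18) (.e (nat_lit 204831) (nat_lit 18) (.e (nat_lit 57849) (nat_lit 252) .nil)))))) (.g (nat_lit 0) .nil .nil)))) (.nd (nat_lit 5) 
(.lf (nat_lit 162972) (.g (nat_lit 2110) (.e (nat_lit 57448) (nat_lit 19) (.e (nat_lit 393228) (nat_lit 9) (.e (nat_lit 336076) (nat_lit 9) (.e (nat_lit 336324) (nat_lit 18) (.e (nat_lit 204831) (nat_lit 18) (.e (nat_lit 57847) (nat_lit 252) .nil)))))) (.g (nat_lit 4) .nil .nil))) 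
(.lf (nat_lit 163004) (.g (nat_lit 2215) (.e (nat_lit 57448) (nat_lit 19) (.e (nat_lit 393229) (nat_lit 9) (.e (nat_lit 336078) (nat_lit 9) (.e (nat_lit 336326) (nat_lit 18) (.e (nat_lit 204829) (nat_lit 18) (.e (nat_lit 57849) (nat_lit 252) .nil)))))) (.g (nat_lit 4) .nil .nil))))))) (.nd (nat_lit 2) (.nd (nat_lit 3) (.nd (nat_lit 4) (.nd (nat_lit 5) 
(.lf (nat_lit 162946) (.g (nat_lit 3631) (.e (nat_lit 57448) (nat_lit 19) (.e (nat_lit 393225) (nat_lit 9) (.e (nat_lit 336196) (nat_lit 12) (.e (nat_lit 385066) (nat_lit 26) (.e (nat_lit 532499) (nat_lit 1) (.e (nat_lit 57849) (nat_lit 252) .nil)))))) (.g (nat_lit 6) .nil .nil))) 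
(.lf (nat_lit 162978) (.g (nat_lit 2375) (.e (nat_lit 57448) (nat_lit 19) (.e (nat_lit 393228) (nat_lit 9) (.e (nat_lit 336088) (nat_lit 9) (.e (nat_lit 336324) (nat_lit 18) (.e (nat_lit 204831) (nat_lit 18) (.e (nat_lit 57847) (nat_lit 252) .nil)))))) (.g (nat_lit 4) .nil .nil)))) (.nd (nat_lit 5) 
(.lf (nat_lit 162962) (.g (nat_lit 1865) (.e (nat_lit 57448) (nat_lit 19) (.e (nat_lit 393227) (nat_lit 9) (.e (nat_lit 336121) (nat_lit 9) (.e (nat_lit 336323) (nat_lit 18) (.e (nat_lit 204831) (nat_lit 18) (.e (nat_lit 57849) (nat_lit 252) .nil)))))) (.g (nat_lit 6) .nil .nil))) 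
(.lf (nat_lit 162994) (.g (nat_lit 4512) (.e (nat_lit 57448) (nat_lit 19) (.e (nat_lit 393229) (nat_lit 9) (.e (nat_lit 336077) (nat_lit 9) (.e (nat_lit 336324) (nat_lit 18) (.e (nat_lit 204831) (nat_lit 18) (.e (nat_lit 57849) (nat_lit 252) .nil)))))) (.g (nat_lit 6) .nil .nil))))) (.nd (nat_lit 4) (.nd (nat_lit 5) 
(.lf (nat_lit 162954) (.g (nat_lit 1343) (.e (nat_lit 57448) (nat_lit 19) (.e (nat_lit 393225) (nat_lit 9) (.e (nat_lit 336204) (nat_lit 12) (.e (nat_lit 385057) (nat_lit 22) .nil)))) .nil)) 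
(.lf (nat_lit 162986) (.g (nat_lit 2563) (.e (nat_lit 57448) (nat_lit 19) (.e (nat_lit 393229) (nat_lit 9) (.e (nat_lit 336076) (nat_lit 9) (.e (nat_lit 336324) (nat_lit 18) (.e (nat_lit 204831) (nat_lit 18) (.e (nat_lit 57846) (nat_lit 252) .nil)))))) (.g (nat_lit 4) .nil .nil)))) (.nd (nat_lit 5) 
(.lf (nat_lit 162970) (.g (nat_lit 2464) (.e (nat_lit 57448) (nat_lit 19) (.e (nat_lit 393227) (nat_lit 9) (.e (nat_lit 336206) (nat_lit 12) (.e (nat_lit 385068) (nat_lit 26) (.e (nat_lit 532503) (nat_lit 1) (.e (nat_lit 57847) (nat_lit 252) .nil)))))) (.g (nat_lit 0) .nil .nil))) 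
(.lf (nat_lit 163002) (.g (nat_lit 3381) (.e (nat_lit 57448) (nat_lit 19) (.e (nat_lit 393229) (nat_lit 9) (.e (nat_lit 336078) (nat_lit 9) (.e (nat_lit 336324) (nat_lit 18) (.e (nat_lit 204831) (nat_lit 18) (.e (nat_lit 57849) (nat_lit 252) .nil)))))) (.g (nat_lit 0) .nil .nil)))))) (.nd (nat_lit 3) (.nd (nat_lit 4) (.nd (nat_lit 5) 
(.lf (nat_lit 162950) (.g (nat_lit 2250) (.e (nat_lit 57448) (nat_lit 19) (.e (nat_lit 393225) (nat_lit 9) (.e (nat_lit 336196) (nat_lit 12) (.e (nat_lit 385066) (nat_lit 26) (.e (nat_lit 532503) (nat_lit 1) (.e (nat_lit 57848) (nat_lit 252) .nil)))))) (.g (nat_lit 4) .nil .nil))) 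
(.lf (nat_lit 162982) (.g (nat_lit 3794) (.e (nat_lit 57448) (nat_lit 19) (.e (nat_lit 393229) (nat_lit 9) (.e (nat_lit 336075) (nat_lit 9) (.e (nat_lit 336324) (nat_lit 18) (.e (nat_lit 204831) (nat_lit 18) (.e (nat_lit 57847) (nat_lit 252) .nil)))))) (.g (nat_lit 5) .nil .nil)))) (.nd (nat_lit 5) 
(.lf (nat_lit 162966) (.g (nat_lit 1976) (.e (nat_lit 57448) (nat_lit 19) (.e (nat_lit 393227) (nat_lit 9) (.e (nat_lit 336152) (nat_lit 9) (.e (nat_lit 336323) (nat_lit 18) (.e (nat_lit 204831) (nat_lit 18) (.e (nat_lit 57849) (nat_lit 252) .nil)))))) (.g (nat_lit 0) .nil .nil))) 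
(.lf (nat_lit 162998) (.g (nat_lit 3367) (.e (nat_lit 57448) (nat_lit 19) (.e (nat_lit 393229) (nat_lit 9) (.e (nat_lit 336078) (nat_lit 9) (.e (nat_lit 336324) (nat_lit 18) (.e (nat_lit 204829) (nat_lit 18) (.e (nat_lit 57847) (nat_lit 252) .nil)))))) (.g (nat_lit 0) .nil .nil))))) (.nd (nat_lit 4) (.nd (nat_lit 5) 
(.lf (nat_lit 162958) (.g (nat_lit 2908) (.e (nat_lit 57448) (nat_lit 19) (.e (nat_lit 393225) (nat_lit 9) (.e (nat_lit 336204) (nat_lit 12) (.e (nat_lit 385068) (nat_lit 26) (.e (nat_lit 532499) (nat_lit 1) (.e (nat_lit 57849) (nat_lit 252) .nil)))))) (.g (nat_lit 5) .nil .nil))) 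
(.lf (nat_lit 162990) (.g (nat_lit 2987) (.e (nat_lit 57448) (nat_lit 19) (.e (nat_lit 393229) (nat_lit 9) (.e (nat_lit 336076) (nat_lit 9) (.e (nat_lit 336326) (nat_lit 18) (.e (nat_lit 204831) (nat_lit 18) (.e (nat_lit 57847) (nat_lit 252) .nil)))))) (.g (nat_lit 0) .nil .nil)))) (.nd (nat_lit 5) 
(.lf (nat_lit 162974) (.g (nat_lit 1689) (.e (nat_lit 57448) (nat_lit 19) (.e (nat_lit 393228) (nat_lit 9) (.e (nat_lit 336088) (nat_lit 9) (.e (nat_lit 336019) (nat_lit 3) (.e (nat_lit 98334) (nat_lit 18) .nil))))) .nil)) 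
(.lf (nat_lit 163006) (.g (nat_lit 2343) (.e (nat_lit 57448) (nat_lit 19) (.e (nat_lit 393229) (nat_lit 9) (.e (nat_lit 336078) (nat_lit 9) (.e (nat_lit 336326) (nat_lit 18) (.e (nat_lit 204831) (nat_lit 18) (.e (nat_lit 57849) (nat_lit 252) .nil)))))) (.g (nat_lit 4) .nil .nil)))))))) (.nd (nat_lit 1) (.nd (nat_lit 2) (.nd (nat_lit 3) (.nd (nat_lit 4) (.nd (nat_lit 5) 
(.lf (nat_lit 162945) (.g (nat_lit 3871) (.e (nat_lit 57448) (nat_lit 19) (.e (nat_lit 393225) (nat_lit 9) (.e (nat_lit 336196) (nat_lit 12) (.e (nat_lit 385066) (nat_lit 26) (.e (nat_lit 532499) (nat_lit 1) (.e (nat_lit 57847) (nat_lit 252) .nil)))))) (.g (nat_lit 6) .nil .nil))) 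
(.lf (nat_lit 162977) (.g (nat_lit 2245) (.e (nat_lit 57448) (nat_lit 19) (.e (nat_lit 393228) (nat_lit 9) (.e (nat_lit 336088) (nat_lit 9) (.e (nat_lit 336324) (nat_lit 18) (.e (nat_lit 204829) (nat_lit 18) (.e (nat_lit 57847) (nat_lit 252) .nil)))))) (.g (nat_lit 4) .nil .nil)))) (.nd (nat_lit 5) 
(.lf (nat_lit 162961) (.g (nat_lit 1777) (.e (nat_lit 57448) (nat_lit 19) (.e (nat_lit 393227) (nat_lit 9) (.e (nat_lit 336121) (nat_lit 9) (.e (nat_lit 336323) (nat_lit 18) (.e (nat_lit 204831) (nat_lit 18) (.e (nat_lit 57847) (nat_lit 252) .nil)))))) (.g (nat_lit 6) .nil .nil))) 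
(.lf (nat_lit 162993) (.g (nat_lit 4413) (.e (nat_lit 57448) (nat_lit 19) (.e (nat_lit 393229) (nat_lit 9) (.e (nat_lit 336077) (nat_lit 9) (.e (nat_lit 336324) (nat_lit 18) (.e (nat_lit 204831) (nat_lit 18) (.e (nat_lit 57847) (nat_lit 252) .nil)))))) (.g (nat_lit 6) .nil .nil))))) (.nd (nat_lit 4) (.nd (nat_lit 5) 
(.lf (nat_lit 162953) (.g (nat_lit 2757) (.e (nat_lit 57448) (nat_lit 19) (.e (nat_lit 393225) (nat_lit 9) (.e (nat_lit 336196) (nat_lit 12) (.e (nat_lit 385068) (nat_lit 26) (.e (nat_lit 532503) (nat_lit 1) (.e (nat_lit 57848) (nat_lit 252) .nil)))))) (.g (nat_lit 4) .nil .nil))) 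
(.lf (nat_lit 162985) (.g (nat_lit 3243) (.e (nat_lit 57448) (nat_lit 19) (.e (nat_lit 393229) (nat_lit 9) (.e (nat_lit 336076) (nat_lit 9) (.e (nat_lit 336324) (nat_lit 18) (.e (nat_lit 204829) (nat_lit 18) (.e (nat_lit 57849) (nat_lit 252) .nil)))))) (.g (nat_lit 0) .nil .nil)))) (.nd (nat_lit 5) 
(.lf (nat_lit 162969) (.g (nat_lit 2786) (.e (nat_lit 57448) (nat_lit 19) (.e (nat_lit 393227) (nat_lit 9) (.e (nat_lit 336206) (nat_lit 12) (.e (nat_lit 385068) (nat_lit 26) (.e (nat_lit 532499) (nat_lit 1) (.e (nat_lit 57847) (nat_lit 252) .nil)))))) (.g (nat_lit 0) .nil .nil))) 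
(.lf (nat_lit 163001) (.g (nat_lit 3375) (.e (nat_lit 57448) (nat_lit 19) (.e (nat_lit 393229) (nat_lit 9) (.e (nat_lit 336078) (nat_lit 9) (.e (nat_lit 336324) (nat_lit 18) (.e (nat_lit 204831) (nat_lit 18) (.e (nat_lit 57847) (nat_lit 252) .nil)))))) (.g (nat_lit 0) .nil .nil)))))) (.nd (nat_lit 3) (.nd (nat_lit 4) (.nd (nat_lit 5) 
(.lf (nat_lit 162949) (.g (nat_lit 3494) (.e (nat_lit 57448) (nat_lit 19) (.e (nat_lit 393225) (nat_lit 9) (.e (nat_lit 336196) (nat_lit 12) (.e (nat_lit 385066) (nat_lit 26) (.e (nat_lit 532503) (nat_lit 1) (.e (nat_lit 57847) (nat_lit 252) .nil)))))) (.g (nat_lit 6) .nil .nil))) 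
(.lf (nat_lit 162981) (.g (nat_lit 1688) (.e (nat_lit 57448) (nat_lit 19) (.e (nat_lit 393229) (nat_lit 9) (.e (nat_lit 336075) (nat_lit 9) (.e (nat_lit 336324) (nat_lit 18) (.e (nat_lit 204829) (nat_lit 18) .nil))))) .nil))) (.nd (nat_lit 5) 
(.lf (nat_lit 162965) (.g (nat_lit 1895) (.e (nat_lit 57448) (nat_lit 19) (.e (nat_lit 393227) (nat_lit 9) (.e (nat_lit 336152) (nat_lit 9) (.e (nat_lit 336323) (nat_lit 18) (.e (nat_lit 204831) (nat_lit 18) (.e (nat_lit 57847) (nat_lit 252) .nil)))))) (.g (nat_lit 0) .nil .nil))) 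
(.lf (nat_lit 162997) (.g (nat_lit 1746) (.e (nat_lit 57448) (nat_lit 19) (.e (nat_lit 393229) (nat_lit 9) (.e (nat_lit 336078) (nat_lit 9) (.e (nat_lit 336322) (nat_lit 18) (.e (nat_lit 204829) (nat_lit 18) (.e (nat_lit 57847) (nat_lit 252) .nil)))))) (.g (nat_lit 4) .nil .nil))))) (.nd (nat_lit 4) (.nd (nat_lit 5) 
(.lf (nat_lit 162957) (.g (nat_lit 2032) (.e (nat_lit 57448) (nat_lit 19) (.e (nat_lit 393225) (nat_lit 9) (.e (nat_lit 336204) (nat_lit 12) (.e (nat_lit 385066) (nat_lit 26) (.e (nat_lit 532503) (nat_lit 1) (.e (nat_lit 57848) (nat_lit 252) .nil)))))) (.g (nat_lit 4) .nil .nil))) 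
(.lf (nat_lit 162989) (.g (nat_lit 3313) (.e (nat_lit 57448) (nat_lit 19) (.e (nat_lit 393229) (nat_lit 9) (.e (nat_lit 336076) (nat_lit 9) (.e (nat_lit 336326) (nat_lit 18) (.e (nat_lit 204829) (nat_lit 18) (.e (nat_lit 57847) (nat_lit 252) .nil)))))) (.g (nat_lit 0) .nil .nil)))) (.nd (nat_lit 5) 
(.lf (nat_lit 162973) (.g (nat_lit 2508) (.e (nat_lit 57448) (nat_lit 19) (.e (nat_lit 393228) (nat_lit 9) (.e (nat_lit 336088) (nat_lit 9) (.e (nat_lit 336019) (nat_lit 3) (.e (nat_lit 98333) (nat_lit 18) (.e (nat_lit 164183) (nat_lit 154) .nil)))))) (.g (nat_lit 4) .nil .nil))) 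
(.lf (nat_lit 163005) (.g (nat_lit 2529) (.e (nat_lit 57448) (nat_lit 19) (.e (nat_lit 393229) (nat_lit 9) (.e (nat_lit 336078) (nat_lit 9) (.e (nat_lit 336326) (nat_lit 18) (.e (nat_lit 204831) (nat_lit 18) (.e (nat_lit 57847) (nat_lit 252) .nil)))))) (.g (nat_lit 4) .nil .nil))))))) (.nd (nat_lit 2) (.nd (nat_lit 3) (.nd (nat_lit 4) (.nd (nat_lit 5) 
(.lf (nat_lit 162947) (.g (nat_lit 2596) (.e (nat_lit 57448) (nat_lit 19) (.e (nat_lit 393225) (nat_lit 9) (.e (nat_lit 336196) (nat_lit 12) (.e (nat_lit 385066) (nat_lit 26) (.e (nat_lit 532502) (nat_lit 1) (.e (nat_lit 57846) (nat_lit 252) .nil)))))) (.g (nat_lit 4) .nil .nil))) 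
(.lf (nat_lit 162979) (.g (nat_lit 2989) (.e (nat_lit 57448) (nat_lit 19) (.e (nat_lit 393228) (nat_lit 9) (.e (nat_lit 336194) (nat_lit 12) (.e (nat_lit 385068) (nat_lit 26) (.e (nat_lit 532499) (nat_lit 1) (.e (nat_lit 57847) (nat_lit 252) .nil)))))) (.g (nat_lit 5) .nil .nil)))) (.nd (nat_lit 5) 
(.lf (nat_lit 162963) (.g (nat_lit 1992) (.e (nat_lit 57448) (nat_lit 19) (.e (nat_lit 393227) (nat_lit 9) (.e (nat_lit 336151) (nat_lit 9) (.e (nat_lit 336017) (nat_lit 3) (.e (nat_lit 98333) (nat_lit 18) (.e (nat_lit 164177) (nat_lit 154) .nil)))))) (.g (nat_lit 6) .nil .nil))) 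
(.lf (nat_lit 162995) (.g (nat_lit 1906) (.e (nat_lit 57448) (nat_lit 19) (.e (nat_lit 393229) (nat_lit 9) (.e (nat_lit 336077) (nat_lit 9) (.e (nat_lit 336326) (nat_lit 18) (.e (nat_lit 204829) (nat_lit 18) (.e (nat_lit 57847) (nat_lit 252) .nil)))))) (.g (nat_lit 4) .nil .nil))))) (.nd (nat_lit 4) (.nd (nat_lit 5) 
(.lf (nat_lit 162955) (.g (nat_lit 1625) (.e (nat_lit 57448) (nat_lit 19) (.e (nat_lit 393225) (nat_lit 9) (.e (nat_lit 336204) (nat_lit 12) (.e (nat_lit 385059) (nat_lit 22) .nil)))) .nil)) 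
(.lf (nat_lit 162987) (.g (nat_lit 3406) (.e (nat_lit 57448) (nat_lit 19) (.e (nat_lit 393229) (nat_lit 9) (.e (nat_lit 336076) (nat_lit 9) (.e (nat_lit 336324) (nat_lit 18) (.e (nat_lit 204831) (nat_lit 18) (.e (nat_lit 57847) (nat_lit 252) .nil)))))) (.g (nat_lit 0) .nil .nil)))) (.nd (nat_lit 5) 
(.lf (nat_lit 162971) (.g (nat_lit 2106) (.e (nat_lit 57448) (nat_lit 19) (.e (nat_lit 393228) (nat_lit 9) (.e (nat_lit 336076) (nat_lit 9) (.e (nat_lit 336324) (nat_lit 18) (.e (nat_lit 204829) (nat_lit 18) (.e (nat_lit 57847) (nat_lit 252) .nil)))))) (.g (nat_lit 4) .nil .nil))) 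
(.lf (nat_lit 163003) (.g (nat_lit 2883) (.e (nat_lit 57448) (nat_lit 19) (.e (nat_lit 393229) (nat_lit 9) (.e (nat_lit 336078) (nat_lit 9) (.e (nat_lit 336326) (nat_lit 18) (.e (nat_lit 204829) (nat_lit 18) (.e (nat_lit 57847) (nat_lit 252) .nil)))))) (.g (nat_lit 5) .nil .nil)))))) (.nd (nat_lit 3) (.nd (nat_lit 4) (.nd (nat_lit 5) 
(.lf (nat_lit 162951) (.g (nat_lit 3486) (.e (nat_lit 57448) (nat_lit 19) (.e (nat_lit 393225) (nat_lit 9) (.e (nat_lit 336196) (nat_lit 12) (.e (nat_lit 385066) (nat_lit 26) (.e (nat_lit 532503) (nat_lit 1) (.e (nat_lit 57849) (nat_lit 252) .nil)))))) (.g (nat_lit 6) .nil .nil))) 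
(.lf (nat_lit 162983) (.g (nat_lit 4063) (.e (nat_lit 57448) (nat_lit 19) (.e (nat_lit 393229) (nat_lit 9) (.e (nat_lit 336075) (nat_lit 9) (.e (nat_lit 336324) (nat_lit 18) (.e (nat_lit 204831) (nat_lit 18) (.e (nat_lit 57849) (nat_lit 252) .nil)))))) (.g (nat_lit 5) .nil .nil)))) (.nd (nat_lit 5) 
(.lf (nat_lit 162967) (.g (nat_lit 2029) (.e (nat_lit 57448) (nat_lit 19) (.e (nat_lit 393227) (nat_lit 9) (.e (nat_lit 336153) (nat_lit 9) (.e (nat_lit 336323) (nat_lit 18) (.e (nat_lit 204829) (nat_lit 18) (.e (nat_lit 57847) (nat_lit 252) .nil)))))) (.g (nat_lit 6) .nil .nil))) 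
(.lf (nat_lit 162999) (.g (nat_lit 3131) (.e (nat_lit 57448) (nat_lit 19) (.e (nat_lit 393229) (nat_lit 9) (.e (nat_lit 336078) (nat_lit 9) (.e (nat_lit 336324) (nat_lit 18) (.e (nat_lit 204829) (nat_lit 18) (.e (nat_lit 57849) (nat_lit 252) .nil)))))) (.g (nat_lit 0) .nil .nil))))) (.nd (nat_lit 4) (.nd (nat_lit 5) 
(.lf (nat_lit 162959) (.g (nat_lit 1882) (.e (nat_lit 57448) (nat_lit 19) (.e (nat_lit 393227) (nat_lit 9) (.e (nat_lit 336119) (nat_lit 9) (.e (nat_lit 336323) (nat_lit 18) (.e (nat_lit 204831) (nat_lit 18) (.e (nat_lit 57849) (nat_lit 252) .nil)))))) (.g (nat_lit 6) .nil .nil))) 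
(.lf (nat_lit 162991) (.g (nat_lit 2806) (.e (nat_lit 57448) (nat_lit 19) (.e (nat_lit 393229) (nat_lit 9) (.e (nat_lit 336076) (nat_lit 9) (.e (nat_lit 336326) (nat_lit 18) (.e (nat_lit 204831) (nat_lit 18) (.e (nat_lit 57849) (nat_lit 252) .nil)))))) (.g (nat_lit 6) .nil .nil)))) (.nd (nat_lit 5) 
(.lf (nat_lit 162975) (.g (nat_lit 2428) (.e (nat_lit 57448) (nat_lit 19) (.e (nat_lit 393228) (nat_lit 9) (.e (nat_lit 336088) (nat_lit 9) (.e (nat_lit 336019) (nat_lit 3) (.e (nat_lit 98334) (nat_lit 18) (.e (nat_lit 164183) (nat_lit 154) .nil)))))) (.g (nat_lit 4) .nil .nil))) 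
(.lf (nat_lit 163007) (.g (nat_lit 1221) (.e (nat_lit 57448) (nat_lit 19) (.e (nat_lit 393229) (nat_lit 9) (.e (nat_lit 336085) (nat_lit 9) (.e (nat_lit 336019) (nat_lit 3) (.e (nat_lit 98334) (nat_lit 18) .nil))))) .nil))))))))

noncomputable def tv2187 : DT := (.nd (nat_lit 0) (.nd (nat_lit 1) (.nd (nat_lit 2) (.nd (nat_lit 3) (.nd (nat_lit 4) (.nd (nat_lit 5) 
(.lf (nat_lit 163008) (.g (nat_lit 1192) (.e (nat_lit 57448) (nat_lit 19) (.e (nat_lit 393229) (nat_lit 9) (.e (nat_lit 336085) (nat_lit 9) (.e (nat_lit 336019) (nat_lit 3) (.e (nat_lit 98335) (nat_lit 18) .nil))))) .nil)) 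
(.lf (nat_lit 163040) (.g (nat_lit 3728) (.e (nat_lit 57448) (nat_lit 19) (.e (nat_lit 393229) (nat_lit 9) (.e (nat_lit 336088) (nat_lit 9) (.e (nat_lit 336019) (nat_lit 3) (.e (nat_lit 98333) (nat_lit 18) (.e (nat_lit 164182) (nat_lit 154) .nil)))))) (.g (nat_lit 0) .nil .nil)))) (.nd (nat_lit 5) 
(.lf (nat_lit 163024) (.g (nat_lit 3408) (.e (nat_lit 57448) (nat_lit 19) (.e (nat_lit 393229) (nat_lit 9) (.e (nat_lit 336086) (nat_lit 9) (.e (nat_lit 336324) (nat_lit 18) (.e (nat_lit 204831) (nat_lit 18) (.e (nat_lit 57849) (nat_lit 252) .nil)))))) (.g (nat_lit 0) .nil .nil))) 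
(.lf (nat_lit 163056) (.g (nat_lit 2683) (.e (nat_lit 57448) (nat_lit 19) (.e (nat_lit 393229) (nat_lit 9) (.e (nat_lit 336088) (nat_lit 9) (.e (nat_lit 336326) (nat_lit 18) (.e (nat_lit 204831) (nat_lit 18) (.e (nat_lit 57849) (nat_lit 252) .nil)))))) (.g (nat_lit 6) .nil .nil))))) (.nd (nat_lit 4) (.nd (nat_lit 5) 
(.lf (nat_lit 163016) (.g (nat_lit 2416) (.e (nat_lit 57448) (nat_lit 19) (.e (nat_lit 393229) (nat_lit 9) (.e (nat_lit 336085) (nat_lit 9) (.e (nat_lit 336326) (nat_lit 18) (.e (nat_lit 204831) (nat_lit 18) (.e (nat_lit 57847) (nat_lit 252) .nil)))))) (.g (nat_lit 6) .nil .nil))) 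
(.lf (nat_lit 163048) (.g (nat_lit 2062) (.e (nat_lit 57448) (nat_lit 19) (.e (nat_lit 393229) (nat_lit 9) (.e (nat_lit 336088) (nat_lit 9) (.e (nat_lit 336019) (nat_lit 3) (.e (nat_lit 98335) (nat_lit 18) (.e (nat_lit 164181) (nat_lit 154) .nil)))))) (.g (nat_lit 4) .nil .nil)))) (.nd (nat_lit 5) 
(.lf (nat_lit 163032) (.g (nat_lit 3184) (.e (nat_lit 57448) (nat_lit 19) (.e (nat_lit 393229) (nat_lit 9) (.e (nat_lit 336087) (nat_lit 9) (.e (nat_lit 336019) (nat_lit 3) (.e (nat_lit 98334) (nat_lit 18) (.e (nat_lit 164176) (nat_lit 154) .nil)))))) (.g (nat_lit 6) .nil .nil))) 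
(.lf (nat_lit 163064) (.g (nat_lit 3259) (.e (nat_lit 57448) (nat_lit 19) (.e (nat_lit 393229) (nat_lit 9) (.e (nat_lit 336186) (nat_lit 11) (.e (nat_lit 368676) (nat_lit 21) (.e (nat_lit 516117) (nat_lit 1) (.e (nat_lit 164182) (nat_lit 154) .nil)))))) (.g (nat_lit 0) .nil .nil)))))) (.nd (nat_lit 3) (.nd (nat_lit 4) (.nd (nat_lit 5) 
(.lf (nat_lit 163012) (.g (nat_lit 2661) (.e (nat_lit 57448) (nat_lit 19) (.e (nat_lit 393229) (nat_lit 9) (.e (nat_lit 336085) (nat_lit 9) (.e (nat_lit 336324) (nat_lit 18) (.e (nat_lit 204829) (nat_lit 18) (.e (nat_lit 57849) (nat_lit 252) .nil)))))) (.g (nat_lit 6) .nil .nil))) 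
(.lf (nat_lit 163044) (.g (nat_lit 3964) (.e (nat_lit 57448) (nat_lit 19) (.e (nat_lit 393229) (nat_lit 9) (.e (nat_lit 336088) (nat_lit 9) (.e (nat_lit 336019) (nat_lit 3) (.e (nat_lit 98334) (nat_lit 18) (.e (nat_lit 164182) (nat_lit 154) .nil)))))) (.g (nat_lit 0) .nil .nil)))) (.nd (nat_lit 5) 
(.lf (nat_lit 163028) (.g (nat_lit 2460) (.e (nat_lit 57448) (nat_lit 19) (.e (nat_lit 393229) (nat_lit 9) (.e (nat_lit 336086) (nat_lit 9) (.e (nat_lit 336326) (nat_lit 18) (.e (nat_lit 204829) (nat_lit 18) (.e (nat_lit 57849) (nat_lit 252) .nil)))))) (.g (nat_lit 5) .nil .nil))) 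
(.lf (nat_lit 163060) (.g (nat_lit 2716) (.e (nat_lit 57448) (nat_lit 19) (.e (nat_lit 393229) (nat_lit 9) (.e (nat_lit 336186) (nat_lit 11) (.e (nat_lit 368676) (nat_lit 21) (.e (nat_lit 516115) (nat_lit 1) (.e (nat_lit 164177) (nat_lit 154) .nil)))))) (.g (nat_lit 0) .nil .nil))))) (.nd (nat_lit 4) (.nd (nat_lit 5) 
(.lf (nat_lit 163020) (.g (nat_lit 4362) (.e (nat_lit 57448) (nat_lit 19) (.e (nat_lit 393229) (nat_lit 9) (.e (nat_lit 336086) (nat_lit 9) (.e (nat_lit 336306) (nat_lit 15) (.e (nat_lit 3238) (nat_lit 197) (.e (nat_lit 532499) (nat_lit 1) (.e (nat_lit 57847) (nat_lit 252) .nil))))))) (.g (nat_lit 0) .nil .nil))) 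
(.lf (nat_lit 163052) (.g (nat_lit 3398) (.e (nat_lit 57448) (nat_lit 19) (.e (nat_lit 393229) (nat_lit 9) (.e (nat_lit 336088) (nat_lit 9) (.e (nat_lit 336324) (nat_lit 18) (.e (nat_lit 204829) (nat_lit 18) (.e (nat_lit 57849) (nat_lit 252) .nil)))))) (.g (nat_lit 0) .nil .nil)))) (.nd (nat_lit 5) 
(.lf (nat_lit 163036) (.g (nat_lit 2748) (.e (nat_lit 57448) (nat_lit 19) (.e (nat_lit 393229) (nat_lit 9) (.e (nat_lit 336087) (nat_lit 9) (.e (nat_lit 336019) (nat_lit 3) (.e (nat_lit 98335) (nat_lit 18) (.e (nat_lit 164178) (nat_lit 154) .nil)))))) (.g (nat_lit 6) .nil .nil))) 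
(.lf (nat_lit 163068) (.g (nat_lit 2157) (.e (nat_lit 57448) (nat_lit 19) (.e (nat_lit 393229) (nat_lit 9) (.e (nat_lit 336186) (nat_lit 11) (.e (nat_lit 368676) (nat_lit 21) (.e (nat_lit 516119) (nat_lit 1) (.e (nat_lit 164177) (nat_lit 154) .nil)))))) (.g (nat_lit 5) .nil .nil))))))) (.nd (nat_lit 2) (.nd (nat_lit 3) (.nd (nat_lit 4) (.nd (nat_lit 5) 
(.lf (nat_lit 163010) (.g (nat_lit 2233) (.e (nat_lit 57448) (nat_lit 19) (.e (nat_lit 393229) (nat_lit 9) (.e (nat_lit 336085) (nat_lit 9) (.e (nat_lit 336322) (nat_lit 18) (.e (nat_lit 204829) (nat_lit 18) (.e (nat_lit 57849) (nat_lit 252) .nil)))))) (.g (nat_lit 6) .nil .nil))) 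
(.lf (nat_lit 163042) (.g (nat_lit 3411) (.e (nat_lit 57448) (nat_lit 19) (.e (nat_lit 393229) (nat_lit 9) (.e (nat_lit 336088) (nat_lit 9) (.e (nat_lit 336019) (nat_lit 3) (.e (nat_lit 98334) (nat_lit 18) (.e (nat_lit 164180) (nat_lit 154) .nil)))))) (.g (nat_lit 0) .nil .nil)))) (.nd (nat_lit 5) 
(.lf (nat_lit 163026) (.g (nat_lit 2783) (.e (nat_lit 57448) (nat_lit 19) (.e (nat_lit 393229) (nat_lit 9) (.e (nat_lit 336086) (nat_lit 9) (.e (nat_lit 336325) (nat_lit 18) (.e (nat_lit 204829) (nat_lit 18) (.e (nat_lit 57849) (nat_lit 252) .nil)))))) (.g (nat_lit 6) .nil .nil))) 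
(.lf (nat_lit 163058) (.g (nat_lit 2954) (.e (nat_lit 57448) (nat_lit 19) (.e (nat_lit 393229) (nat_lit 9) (.e (nat_lit 336184) (nat_lit 11) (.e (nat_lit 368676) (nat_lit 21) (.e (nat_lit 516117) (nat_lit 1) (.e (nat_lit 164181) (nat_lit 154) .nil)))))) (.g (nat_lit 0) .nil .nil))))) (.nd (nat_lit 4) (.nd (nat_lit 5) 
(.lf (nat_lit 163018) (.g (nat_lit 1797) (.e (nat_lit 57448) (nat_lit 19) (.e (nat_lit 393229) (nat_lit 9) (.e (nat_lit 336086) (nat_lit 9) (.e (nat_lit 336019) (nat_lit 3) (.e (nat_lit 98335) (nat_lit 18) .nil))))) .nil)) 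
(.lf (nat_lit 163050) (.g (nat_lit 2009) (.e (nat_lit 57448) (nat_lit 19) (.e (nat_lit 393229) (nat_lit 9) (.e (nat_lit 336088) (nat_lit 9) (.e (nat_lit 336322) (nat_lit 18) (.e (nat_lit 204829) (nat_lit 18) (.e (nat_lit 57847) (nat_lit 252) .nil)))))) (.g (nat_lit 4) .nil .nil)))) (.nd (nat_lit 5) 
(.lf (nat_lit 163034) (.g (nat_lit 2544) (.e (nat_lit 57448) (nat_lit 19) (.e (nat_lit 393229) (nat_lit 9) (.e (nat_lit 336087) (nat_lit 9) (.e (nat_lit 336019) (nat_lit 3) (.e (nat_lit 98335) (nat_lit 18) (.e (nat_lit 164176) (nat_lit 154) .nil)))))) (.g (nat_lit 5) .nil .nil))) 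
(.lf (nat_lit 163066) (.g (nat_lit 2769) (.e (nat_lit 57448) (nat_lit 19) (.e (nat_lit 393229) (nat_lit 9) (.e (nat_lit 336186) (nat_lit 11) (.e (nat_lit 368676) (nat_lit 21) (.e (nat_lit 516118) (nat_lit 1) (.e (nat_lit 164182) (nat_lit 154) .nil)))))) (.g (nat_lit 6) .nil .nil)))))) (.nd (nat_lit 3) (.nd (nat_lit 4) (.nd (nat_lit 5) 
(.lf (nat_lit 163014) (.g (nat_lit 2707) (.e (nat_lit 57448) (nat_lit 19) (.e (nat_lit 393229) (nat_lit 9) (.e (nat_lit 336085) (nat_lit 9) (.e (nat_lit 336326) (nat_lit 18) (.e (nat_lit 204829) (nat_lit 18) (.e (nat_lit 57847) (nat_lit 252) .nil)))))) (.g (nat_lit 6) .nil .nil))) 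
(.lf (nat_lit 163046) (.g (nat_lit 2986) (.e (nat_lit 57448) (nat_lit 19) (.e (nat_lit 393229) (nat_lit 9) (.e (nat_lit 336088) (nat_lit 9) (.e (nat_lit 336019) (nat_lit 3) (.e (nat_lit 98335) (nat_lit 18) (.e (nat_lit 164177) (nat_lit 154) .nil)))))) (.g (nat_lit 6) .nil .nil)))) (.nd (nat_lit 5) 
(.lf (nat_lit 163030) (.g (nat_lit 3431) (.e (nat_lit 57448) (nat_lit 19) (.e (nat_lit 393229) (nat_lit 9) (.e (nat_lit 336087) (nat_lit 9) (.e (nat_lit 336019) (nat_lit 3) (.e (nat_lit 98333) (nat_lit 18) (.e (nat_lit 164177) (nat_lit 154) .nil)))))) (.g (nat_lit 0) .nil .nil))) 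
(.lf (nat_lit 163062) (.g (nat_lit 2728) (.e (nat_lit 57448) (nat_lit 19) (.e (nat_lit 393229) (nat_lit 9) (.e (nat_lit 336186) (nat_lit 11) (.e (nat_lit 368676) (nat_lit 21) (.e (nat_lit 516117) (nat_lit 1) (.e (nat_lit 164180) (nat_lit 154) .nil)))))) (.g (nat_lit 5) .nil .nil))))) (.nd (nat_lit 4) (.nd (nat_lit 5) 
(.lf (nat_lit 163022) (.g (nat_lit 3114) (.e (nat_lit 57448) (nat_lit 19) (.e (nat_lit 393229) (nat_lit 9) (.e (nat_lit 336086) (nat_lit 9) (.e (nat_lit 336324) (nat_lit 18) (.e (nat_lit 204829) (nat_lit 18) (.e (nat_lit 57849) (nat_lit 252) .nil)))))) (.g (nat_lit 0) .nil .nil))) 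
(.lf (nat_lit 163054) (.g (nat_lit 3533) (.e (nat_lit 57448) (nat_lit 19) (.e (nat_lit 393229) (nat_lit 9) (.e (nat_lit 336088) (nat_lit 9) (.e (nat_lit 336324) (nat_lit 18) (.e (nat_lit 204831) (nat_lit 18) (.e (nat_lit 57849) (nat_lit 252) .nil)))))) (.g (nat_lit 0) .nil .nil)))) (.nd (nat_lit 5) 
(.lf (nat_lit 163038) (.g (nat_lit 3540) (.e (nat_lit 57448) (nat_lit 19) (.e (nat_lit 393229) (nat_lit 9) (.e (nat_lit 336088) (nat_lit 9) (.e (nat_lit 336019) (nat_lit 3) (.e (nat_lit 98333) (nat_lit 18) (.e (nat_lit 164177) (nat_lit 154) .nil)))))) (.g (nat_lit 0) .nil .nil))) 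
(.lf (nat_lit 163070) (.g (nat_lit 2915) (.e (nat_lit 57448) (nat_lit 19) (.e (nat_lit 393229) (nat_lit 9) (.e (nat_lit 336193) (nat_lit 12) (.e (nat_lit 385068) (nat_lit 26) (.e (nat_lit 532503) (nat_lit 1) (.e (nat_lit 57847) (nat_lit 252) .nil)))))) (.g (nat_lit 5) .nil .nil)))))))) (.nd (nat_lit 1) (.nd (nat_lit 2) (.nd (nat_lit 3) (.nd (nat_lit 4) (.nd (nat_lit 5) 
(.lf (nat_lit 163009) (.g (nat_lit 2404) (.e (nat_lit 57448) (nat_lit 19) (.e (nat_lit 393229) (nat_lit 9) (.e (nat_lit 336085) (nat_lit 9) (.e (nat_lit 336322) (nat_lit 18) (.e (nat_lit 204829) (nat_lit 18) (.e (nat_lit 57847) (nat_lit 252) .nil)))))) (.g (nat_lit 6) .nil .nil))) 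
(.lf (nat_lit 163041) (.g (nat_lit 3382) (.e (nat_lit 57448) (nat_lit 19) (.e (nat_lit 393229) (nat_lit 9) (.e (nat_lit 336088) (nat_lit 9) (.e (nat_lit 336019) (nat_lit 3) (.e (nat_lit 98334) (nat_lit 18) (.e (nat_lit 164176) (nat_lit 154) .nil)))))) (.g (nat_lit 0) .nil .nil)))) (.nd (nat_lit 5) 
(.lf (nat_lit 163025) (.g (nat_lit 3091) (.e (nat_lit 57448) (nat_lit 19) (.e (nat_lit 393229) (nat_lit 9) (.e (nat_lit 336086) (nat_lit 9) (.e (nat_lit 336325) (nat_lit 18) (.e (nat_lit 204829) (nat_lit 18) (.e (nat_lit 57847) (nat_lit 252) .nil)))))) (.g (nat_lit 0) .nil .nil))) 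
(.lf (nat_lit 163057) (.g (nat_lit 740) (.e (nat_lit 57448) (nat_lit 19) (.e (nat_lit 393229) (nat_lit 9) (.e (nat_lit 336183) (nat_lit 11) .nil))) .nil)))) (.nd (nat_lit 4) (.nd (nat_lit 5) 
(.lf (nat_lit 163017) (.g (nat_lit 1800) (.e (nat_lit 57448) (nat_lit 19) (.e (nat_lit 393229) (nat_lit 9) (.e (nat_lit 336086) (nat_lit 9) (.e (nat_lit 336019) (nat_lit 3) (.e (nat_lit 98334) (nat_lit 18) .nil))))) .nil)) 
(.lf (nat_lit 163049) (.g (nat_lit 1932) (.e (nat_lit 57448) (nat_lit 19) (.e (nat_lit 393229) (nat_lit 9) (.e (nat_lit 336088) (nat_lit 9) (.e (nat_lit 336316) (nat_lit 17) (.e (nat_lit 196661) (nat_lit 12) .nil))))) .nil))) (.nd (nat_lit 5) 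
(.lf (nat_lit 163033) (.g (nat_lit 3287) (.e (nat_lit 57448) (nat_lit 19) (.e (nat_lit 393229) (nat_lit 9) (.e (nat_lit 336087) (nat_lit 9) (.e (nat_lit 336019) (nat_lit 3) (.e (nat_lit 98334) (nat_lit 18) (.e (nat_lit 164180) (nat_lit 154) .nil)))))) (.g (nat_lit 0) .nil .nil))) 
(.lf (nat_lit 163065) (.g (nat_lit 2350) (.e (nat_lit 57448) (nat_lit 19) (.e (nat_lit 393229) (nat_lit 9) (.e (nat_lit 336186) (nat_lit 11) (.e (nat_lit 368676) (nat_lit 21) (.e (nat_lit 516118) (nat_lit 1) (.e (nat_lit 164177) (nat_lit 154) .nil)))))) (.g (nat_lit 6) .nil .nil)))))) (.nd (nat_lit 3) (.nd (nat_lit 4) (.nd (nat_lit 5) 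
(.lf (nat_lit 163013) (.g (nat_lit 2735) (.e (nat_lit 57448) (nat_lit 19) (.e (nat_lit 393229) (nat_lit 9) (.e (nat_lit 336085) (nat_lit 9) (.e (nat_lit 336324) (nat_lit 18) (.e (nat_lit 204831) (nat_lit 18) (.e (nat_lit 57847) (nat_lit 252) .nil)))))) (.g (nat_lit 6) .nil .nil))) 
(.lf (nat_lit 163045) (.g (nat_lit 2739) (.e (nat_lit 57448) (nat_lit 19) (.e (nat_lit 393229) (nat_lit 9) (.e (nat_lit 336088) (nat_lit 9) (.e (nat_lit 336019) (nat_lit 3) (.e (nat_lit 98335) (nat_lit 18) (.e (nat_lit 164176) (nat_lit 154) .nil)))))) (.g (nat_lit 6) .nil .nil)))) (.nd (nat_lit 5) 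
(.lf (nat_lit 163029) (.g (nat_lit 2844) (.e (nat_lit 57448) (nat_lit 19) (.e (nat_lit 393229) (nat_lit 9) (.e (nat_lit 336086) (nat_lit 9) (.e (nat_lit 336326) (nat_lit 18) (.e (nat_lit 204831) (nat_lit 18) (.e (nat_lit 57847) (nat_lit 252) .nil)))))) (.g (nat_lit 6) .nil .nil))) 
(.lf (nat_lit 163061) (.g (nat_lit 2634) (.e (nat_lit 57448) (nat_lit 19) (.e (nat_lit 393229) (nat_lit 9) (.e (nat_lit 336186) (nat_lit 11) (.e (nat_lit 368676) (nat_lit 21) (.e (nat_lit 516117) (nat_lit 1) (.e (nat_lit 164176) (nat_lit 154) .nil)))))) (.g (nat_lit 6) .nil .nil))))) (.nd (nat_lit 4) (.nd (nat_lit 5) 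
(.lf (nat_lit 163021) (.g (nat_lit 3349) (.e (nat_lit 57448) (nat_lit 19) (.e (nat_lit 393229) (nat_lit 9) (.e (nat_lit 336086) (nat_lit 9) (.e (nat_lit 336324) (nat_lit 18) (.e (nat_lit 204829) (nat_lit 18) (.e (nat_lit 57847) (nat_lit 252) .nil)))))) (.g (nat_lit 0) .nil .nil))) 
(.lf (nat_lit 163053) (.g (nat_lit 2356) (.e (nat_lit 57448) (nat_lit 19) (.e (nat_lit 393229) (nat_lit 9) (.e (nat_lit 336088) (nat_lit 9) (.e (nat_lit 336324) (nat_lit 18) (.e (nat_lit 204831) (nat_lit 18) (.e (nat_lit 57846) (nat_lit 252) .nil)))))) (.g (nat_lit 4) .nil .nil)))) (.nd (nat_lit 5) 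
(.lf (nat_lit 163037) (.g (nat_lit 1837) (.e (nat_lit 57448) (nat_lit 19) (.e (nat_lit 393229) (nat_lit 9) (.e (nat_lit 336087) (nat_lit 9) (.e (nat_lit 336019) (nat_lit 3) (.e (nat_lit 98335) (nat_lit 18) (.e (nat_lit 164181) (nat_lit 154) .nil)))))) (.g (nat_lit 4) .nil .nil))) 
(.lf (nat_lit 163069) (.g (nat_lit 2240) (.e (nat_lit 57448) (nat_lit 19) (.e (nat_lit 393229) (nat_lit 9) (.e (nat_lit 336193) (nat_lit 12) (.e (nat_lit 385068) (nat_lit 26) (.e (nat_lit 532499) (nat_lit 1) (.e (nat_lit 57849) (nat_lit 252) .nil)))))) (.g (nat_lit 4) .nil .nil))))))) (.nd (nat_lit 2) (.nd (nat_lit 3) (.nd (nat_lit 4) (.nd (nat_lit 5) 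
(.lf (nat_lit 163011) (.g (nat_lit 2887) (.e (nat_lit 57448) (nat_lit 19) (.e (nat_lit 393229) (nat_lit 9) (.e (nat_lit 336085) (nat_lit 9) (.e (nat_lit 336324) (nat_lit 18) (.e (nat_lit 204829) (nat_lit 18) (.e (nat_lit 57847) (nat_lit 252) .nil)))))) (.g (nat_lit 0) .nil .nil))) 
(.lf (nat_lit 163043) (.g (nat_lit 3387) (.e (nat_lit 57448) (nat_lit 19) (.e (nat_lit 393229) (nat_lit 9) (.e (nat_lit 336088) (nat_lit 9) (.e (nat_lit 336019) (nat_lit 3) (.e (nat_lit 98334) (nat_lit 18) (.e (nat_lit 164181) (nat_lit 154) .nil)))))) (.g (nat_lit 0) .nil .nil)))) (.nd (nat_lit 5) 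
(.lf (nat_lit 163027) (.g (nat_lit 3135) (.e (nat_lit 57448) (nat_lit 19) (.e (nat_lit 393229) (nat_lit 9) (.e (nat_lit 336086) (nat_lit 9) (.e (nat_lit 336326) (nat_lit 18) (.e (nat_lit 204829) (nat_lit 18) (.e (nat_lit 57847) (nat_lit 252) .nil)))))) (.g (nat_lit 6) .nil .nil))) 
(.lf (nat_lit 163059) (.g (nat_lit 2680) (.e (nat_lit 57448) (nat_lit 19) (.e (nat_lit 393229) (nat_lit 9) (.e (nat_lit 336184) (nat_lit 11) (.e (nat_lit 368676) (nat_lit 21) (.e (nat_lit 516118) (nat_lit 1) (.e (nat_lit 164182) (nat_lit 154) .nil)))))) (.g (nat_lit 6) .nil .nil))))) (.nd (nat_lit 4) (.nd (nat_lit 5) 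
(.lf (nat_lit 163019) (.g (nat_lit 2940) (.e (nat_lit 57448) (nat_lit 19) (.e (nat_lit 393229) (nat_lit 9) (.e (nat_lit 336086) (nat_lit 9) (.e (nat_lit 336306) (nat_lit 15) (.e (nat_lit 3238) (nat_lit 197) (.e (nat_lit 532490) (nat_lit 0) (.e (nat_lit 1040) (nat_lit 81) (.e (nat_lit 5195) (nat_lit 294) .nil)))))))) (.g (nat_lit 6) .nil .nil))) 
(.lf (nat_lit 163051) (.g (nat_lit 1813) (.e (nat_lit 57448) (nat_lit 19) (.e (nat_lit 393229) (nat_lit 9) (.e (nat_lit 336088) (nat_lit 9) (.e (nat_lit 336322) (nat_lit 18) (.e (nat_lit 204829) (nat_lit 18) (.e (nat_lit 57849) (nat_lit 252) .nil)))))) (.g (nat_lit 4) .nil .nil)))) (.nd (nat_lit 5) 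
(.lf (nat_lit 163035) (.g (nat_lit 2854) (.e (nat_lit 57448) (nat_lit 19) (.e (nat_lit 393229) (nat_lit 9) (.e (nat_lit 336087) (nat_lit 9) (.e (nat_lit 336019) (nat_lit 3) (.e (nat_lit 98335) (nat_lit 18) (.e (nat_lit 164177) (nat_lit 154) .nil)))))) (.g (nat_lit 6) .nil .nil))) 
(.lf (nat_lit 163067) (.g (nat_lit 2553) (.e (nat_lit 57448) (nat_lit 19) (.e (nat_lit 393229) (nat_lit 9) (.e (nat_lit 336186) (nat_lit 11) (.e (nat_lit 368676) (nat_lit 21) (.e (nat_lit 516119) (nat_lit 1) (.e (nat_lit 164176) (nat_lit 154) .nil)))))) (.g (nat_lit 5) .nil .nil)))))) (.nd (nat_lit 3) (.nd (nat_lit 4) (.nd (nat_lit 5) 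
(.lf (nat_lit 163015) (.g (nat_lit 2049) (.e (nat_lit 57448) (nat_lit 19) (.e (nat_lit 393229) (nat_lit 9) (.e (nat_lit 336085) (nat_lit 9) (.e (nat_lit 336326) (nat_lit 18) (.e (nat_lit 204829) (nat_lit 18) (.e (nat_lit 57849) (nat_lit 252) .nil)))))) (.g (nat_lit 5) .nil .nil))) 
(.lf (nat_lit 163047) (.g (nat_lit 2986) (.e (nat_lit 57448) (nat_lit 19) (.e (nat_lit 393229) (nat_lit 9) (.e (nat_lit 336088) (nat_lit 9) (.e (nat_lit 336019) (nat_lit 3) (.e (nat_lit 98335) (nat_lit 18) (.e (nat_lit 164178) (nat_lit 154) .nil)))))) (.g (nat_lit 6) .nil .nil)))) (.nd (nat_lit 5) 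
(.lf (nat_lit 163031) (.g (nat_lit 2004) (.e (nat_lit 57448) (nat_lit 19) (.e (nat_lit 393229) (nat_lit 9) (.e (nat_lit 336087) (nat_lit 9) (.e (nat_lit 336019) (nat_lit 3) (.e (nat_lit 98333) (nat_lit 18) (.e (nat_lit 164178) (nat_lit 154) .nil)))))) (.g (nat_lit 4) .nil .nil))) 
(.lf (nat_lit 163063) (.g (nat_lit 3043) (.e (nat_lit 57448) (nat_lit 19) (.e (nat_lit 393229) (nat_lit 9) (.e (nat_lit 336186) (nat_lit 11) (.e (nat_lit 368676) (nat_lit 21) (.e (nat_lit 516117) (nat_lit 1) (.e (nat_lit 164181) (nat_lit 154) .nil)))))) (.g (nat_lit 0) .nil .nil))))) (.nd (nat_lit 4) (.nd (nat_lit 5) 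
(.lf (nat_lit 163023) (.g (nat_lit 3408) (.e (nat_lit 57448) (nat_lit 19) (.e (nat_lit 393229) (nat_lit 9) (.e (nat_lit 336086) (nat_lit 9) (.e (nat_lit 336324) (nat_lit 18) (.e (nat_lit 204831) (nat_lit 18) (.e (nat_lit 57847) (nat_lit 252) .nil)))))) (.g (nat_lit 0) .nil .nil))) 
(.lf (nat_lit 163055) (.g (nat_lit 2520) (.e (nat_lit 57448) (nat_lit 19) (.e (nat_lit 393229) (nat_lit 9) (.e (nat_lit 336088) (nat_lit 9) (.e (nat_lit 336326) (nat_lit 18) (.e (nat_lit 204829) (nat_lit 18) (.e (nat_lit 57849) (nat_lit 252) .nil)))))) (.g (nat_lit 5) .nil .nil)))) (.nd (nat_lit 5) 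
(.lf (nat_lit 163039) (.g (nat_lit 2221) (.e (nat_lit 57448) (nat_lit 19) (.e (nat_lit 393229) (nat_lit 9) (.e (nat_lit 336088) (nat_lit 9) (.e (nat_lit 336019) (nat_lit 3) (.e (nat_lit 98333) (nat_lit 18) (.e (nat_lit 164178) (nat_lit 154) .nil)))))) (.g (nat_lit 4) .nil .nil))) 
(.lf (nat_lit 163071) (.g (nat_lit 3574) (.e (nat_lit 57448) (nat_lit 19) (.e (nat_lit 393229) (nat_lit 9) (.e (nat_lit 336194) (nat_lit 12) (.e (nat_lit 385066) (nat_lit 26) (.e (nat_lit 532499) (nat_lit 1) (.e (nat_lit 57847) (nat_lit 252) .nil)))))) (.g (nat_lit 0) .nil .nil)))))))))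

noncomputable def tv2188 : DT := (.nd (nat_lit 0) (.nd (nat_lit 1) (.nd (nat_lit 2) (.nd (nat_lit 3) (.nd (nat_lit 4) (.nd (nat_lit 5) 
(.lf (nat_lit 163072) (.g (nat_lit 3314) (.e (nat_lit 57448) (nat_lit 19) (.e (nat_lit 393229) (nat_lit 9) (.e (nat_lit 336194) (nat_lit 12) (.e (nat_lit 385066) (nat_lit 26) (.e (nat_lit 532499) (nat_lit 1) (.e (nat_lit 57849) (nat_lit 252) .nil)))))) (.g (nat_lit 0) .nil .nil))) 
(.lf (nat_lit 163104) (.g (nat_lit 1671) (.e (nat_lit 57448) (nat_lit 19) (.e (nat_lit 393229) (nat_lit 9) (.e (nat_lit 336203) (nat_lit 12) (.e (nat_lit 385065) (nat_lit 26) (.e (nat_lit 532502) (nat_lit 1) (.e (nat_lit 57849) (nat_lit 252) .nil)))))) (.g (nat_lit 4) .nil .nil)))) (.nd (nat_lit 5) 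
(.lf (nat_lit 163088) (.g (nat_lit 3825) (.e (nat_lit 57448) (nat_lit 19) (.e (nat_lit 393229) (nat_lit 9) (.e (nat_lit 336196) (nat_lit 12) (.e (nat_lit 385068) (nat_lit 26) (.e (nat_lit 532499) (nat_lit 1) (.e (nat_lit 57847) (nat_lit 252) .nil)))))) (.g (nat_lit 0) .nil .nil))) 
(.lf (nat_lit 163120) (.g (nat_lit 3356) (.e (nat_lit 57448) (nat_lit 19) (.e (nat_lit 393229) (nat_lit 9) (.e (nat_lit 336204) (nat_lit 12) (.e (nat_lit 385066) (nat_lit 26) (.e (nat_lit 532499) (nat_lit 1) (.e (nat_lit 57849) (nat_lit 252) .nil)))))) (.g (nat_lit 0) .nil .nil))))) (.nd (nat_lit 4) (.nd (nat_lit 5) 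
(.lf (nat_lit 163080) (.g (nat_lit 2724) (.e (nat_lit 57448) (nat_lit 19) (.e (nat_lit 393229) (nat_lit 9) (.e (nat_lit 336195) (nat_lit 12) (.e (nat_lit 385068) (nat_lit 26) (.e (nat_lit 532499) (nat_lit 1) (.e (nat_lit 57847) (nat_lit 252) .nil)))))) (.g (nat_lit 5) .nil .nil))) 
(.lf (nat_lit 163112) (.g (nat_lit 3632) (.e (nat_lit 57448) (nat_lit 19) (.e (nat_lit 393229) (nat_lit 9) (.e (nat_lit 336203) (nat_lit 12) (.e (nat_lit 385067) (nat_lit 26) (.e (nat_lit 532499) (nat_lit 1) (.e (nat_lit 57849) (nat_lit 252) .nil)))))) (.g (nat_lit 0) .nil .nil)))) (.nd (nat_lit 5) 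
(.lf (nat_lit 163096) (.g (nat_lit 2944) (.e (nat_lit 57448) (nat_lit 19) (.e (nat_lit 393229) (nat_lit 9) (.e (nat_lit 336202) (nat_lit 12) (.e (nat_lit 385066) (nat_lit 26) (.e (nat_lit 532503) (nat_lit 1) (.e (nat_lit 57847) (nat_lit 252) .nil)))))) (.g (nat_lit 6) .nil .nil))) 
(.lf (nat_lit 163128) (.g (nat_lit 1584) (.e (nat_lit 57448) (nat_lit 19) (.e (nat_lit 401152) (nat_lit 12) (.e (nat_lit 360475) (nat_lit 8) (.e (nat_lit 557089) (nat_lit 12) (.e (nat_lit 171776) (nat_lit 0) (.e (nat_lit 5195) (nat_lit 294) .nil)))))) (.g (nat_lit 4) .nil .nil)))))) (.nd (nat_lit 3) (.nd (nat_lit 4) (.nd (nat_lit 5) 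
(.lf (nat_lit 163076) (.g (nat_lit 3613) (.e (nat_lit 57448) (nat_lit 19) (.e (nat_lit 393229) (nat_lit 9) (.e (nat_lit 336194) (nat_lit 12) (.e (nat_lit 385068) (nat_lit 26) (.e (nat_lit 532499) (nat_lit 1) (.e (nat_lit 57847) (nat_lit 252) .nil)))))) (.g (nat_lit 0) .nil .nil))) 
(.lf (nat_lit 163108) (.g (nat_lit 3107) (.e (nat_lit 57448) (nat_lit 19) (.e (nat_lit 393229) (nat_lit 9) (.e (nat_lit 336203) (nat_lit 12) (.e (nat_lit 385066) (nat_lit 26) (.e (nat_lit 532502) (nat_lit 1) (.e (nat_lit 57847) (nat_lit 252) .nil)))))) (.g (nat_lit 6) .nil .nil)))) (.nd (nat_lit 5) 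
(.lf (nat_lit 163092) (.g (nat_lit 3128) (.e (nat_lit 57448) (nat_lit 19) (.e (nat_lit 393229) (nat_lit 9) (.e (nat_lit 336201) (nat_lit 12) (.e (nat_lit 385068) (nat_lit 26) (.e (nat_lit 532503) (nat_lit 1) (.e (nat_lit 57847) (nat_lit 252) .nil)))))) (.g (nat_lit 0) .nil .nil))) 
(.lf (nat_lit 163124) (.g (nat_lit 3549) (.e (nat_lit 57448) (nat_lit 19) (.e (nat_lit 393229) (nat_lit 9) (.e (nat_lit 336204) (nat_lit 12) (.e (nat_lit 385068) (nat_lit 26) (.e (nat_lit 532499) (nat_lit 1) (.e (nat_lit 57847) (nat_lit 252) .nil)))))) (.g (nat_lit 0) .nil .nil))))) (.nd (nat_lit 4) (.nd (nat_lit 5) 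
(.lf (nat_lit 163084) (.g (nat_lit 2681) (.e (nat_lit 57448) (nat_lit 19) (.e (nat_lit 393229) (nat_lit 9) (.e (nat_lit 336196) (nat_lit 12) (.e (nat_lit 385066) (nat_lit 26) (.e (nat_lit 532502) (nat_lit 1) (.e (nat_lit 57847) (nat_lit 252) .nil)))))) (.g (nat_lit 6) .nil .nil))) 
(.lf (nat_lit 163116) (.g (nat_lit 4001) (.e (nat_lit 57448) (nat_lit 19) (.e (nat_lit 393229) (nat_lit 9) (.e (nat_lit 336203) (nat_lit 12) (.e (nat_lit 385068) (nat_lit 26) (.e (nat_lit 532499) (nat_lit 1) (.e (nat_lit 57847) (nat_lit 252) .nil)))))) (.g (nat_lit 0) .nil .nil)))) (.nd (nat_lit 5) 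
(.lf (nat_lit 163100) (.g (nat_lit 2966) (.e (nat_lit 57448) (nat_lit 19) (.e (nat_lit 393229) (nat_lit 9) (.e (nat_lit 336203) (nat_lit 12) (.e (nat_lit 385064) (nat_lit 26) (.e (nat_lit 532503) (nat_lit 1) (.e (nat_lit 57847) (nat_lit 252) .nil)))))) (.g (nat_lit 6) .nil .nil))) 
(.lf (nat_lit 163132) (.g (nat_lit 2233) (.e (nat_lit 57448) (nat_lit 19) (.e (nat_lit 401152) (nat_lit 12) (.e (nat_lit 360475) (nat_lit 8) (.e (nat_lit 557091) (nat_lit 12) (.e (nat_lit 171776) (nat_lit 0) (.e (nat_lit 5195) (nat_lit 294) .nil)))))) (.g (nat_lit 4) .nil .nil))))))) (.nd (nat_lit 2) (.nd (nat_lit 3) (.nd (nat_lit 4) (.nd (nat_lit 5) 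
(.lf (nat_lit 163074) (.g (nat_lit 3130) (.e (nat_lit 57448) (nat_lit 19) (.e (nat_lit 393229) (nat_lit 9) (.e (nat_lit 336194) (nat_lit 12) (.e (nat_lit 385066) (nat_lit 26) (.e (nat_lit 532503) (nat_lit 1) (.e (nat_lit 57847) (nat_lit 252) .nil)))))) (.g (nat_lit 0) .nil .nil))) 
(.lf (nat_lit 163106) (.g (nat_lit 3725) (.e (nat_lit 57448) (nat_lit 19) (.e (nat_lit 393229) (nat_lit 9) (.e (nat_lit 336203) (nat_lit 12) (.e (nat_lit 385066) (nat_lit 26) (.e (nat_lit 532499) (nat_lit 1) (.e (nat_lit 57847) (nat_lit 252) .nil)))))) (.g (nat_lit 0) .nil .nil)))) (.nd (nat_lit 5) 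
(.lf (nat_lit 163090) (.g (nat_lit 3537) (.e (nat_lit 57448) (nat_lit 19) (.e (nat_lit 393229) (nat_lit 9) (.e (nat_lit 336201) (nat_lit 12) (.e (nat_lit 385068) (nat_lit 26) (.e (nat_lit 532499) (nat_lit 1) (.e (nat_lit 57847) (nat_lit 252) .nil)))))) (.g (nat_lit 0) .nil .nil))) 
(.lf (nat_lit 163122) (.g (nat_lit 3183) (.e (nat_lit 57448) (nat_lit 19) (.e (nat_lit 393229) (nat_lit 9) (.e (nat_lit 336204) (nat_lit 12) (.e (nat_lit 385066) (nat_lit 26) (.e (nat_lit 532503) (nat_lit 1) (.e (nat_lit 57847) (nat_lit 252) .nil)))))) (.g (nat_lit 0) .nil .nil))))) (.nd (nat_lit 4) (.nd (nat_lit 5) 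
(.lf (nat_lit 163082) (.g (nat_lit 3521) (.e (nat_lit 57448) (nat_lit 19) (.e (nat_lit 393229) (nat_lit 9) (.e (nat_lit 336196) (nat_lit 12) (.e (nat_lit 385066) (nat_lit 26) (.e (nat_lit 532499) (nat_lit 1) (.e (nat_lit 57847) (nat_lit 252) .nil)))))) (.g (nat_lit 0) .nil .nil))) 
(.lf (nat_lit 163114) (.g (nat_lit 3216) (.e (nat_lit 57448) (nat_lit 19) (.e (nat_lit 393229) (nat_lit 9) (.e (nat_lit 336203) (nat_lit 12) (.e (nat_lit 385067) (nat_lit 26) (.e (nat_lit 532503) (nat_lit 1) (.e (nat_lit 57847) (nat_lit 252) .nil)))))) (.g (nat_lit 0) .nil .nil)))) (.nd (nat_lit 5) 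
(.lf (nat_lit 163098) (.g (nat_lit 3401) (.e (nat_lit 57448) (nat_lit 19) (.e (nat_lit 393229) (nat_lit 9) (.e (nat_lit 336202) (nat_lit 12) (.e (nat_lit 385068) (nat_lit 26) (.e (nat_lit 532499) (nat_lit 1) (.e (nat_lit 57847) (nat_lit 252) .nil)))))) (.g (nat_lit 0) .nil .nil))) 
(.lf (nat_lit 163130) (.g (nat_lit 2389) (.e (nat_lit 57448) (nat_lit 19) (.e (nat_lit 401152) (nat_lit 12) (.e (nat_lit 360475) (nat_lit 8) (.e (nat_lit 557090) (nat_lit 12) (.e (nat_lit 171776) (nat_lit 0) (.e (nat_lit 5193) (nat_lit 294) .nil)))))) (.g (nat_lit 4) .nil .nil)))))) (.nd (nat_lit 3) (.nd (nat_lit 4) (.nd (nat_lit 5) 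
(.lf (nat_lit 163078) (.g (nat_lit 2482) (.e (nat_lit 57448) (nat_lit 19) (.e (nat_lit 393229) (nat_lit 9) (.e (nat_lit 336195) (nat_lit 12) (.e (nat_lit 385066) (nat_lit 26) (.e (nat_lit 532499) (nat_lit 1) (.e (nat_lit 57849) (nat_lit 252) .nil)))))) (.g (nat_lit 5) .nil .nil))) 
(.lf (nat_lit 163110) (.g (nat_lit 3335) (.e (nat_lit 57448) (nat_lit 19) (.e (nat_lit 393229) (nat_lit 9) (.e (nat_lit 336203) (nat_lit 12) (.e (nat_lit 385066) (nat_lit 26) (.e (nat_lit 532503) (nat_lit 1) (.e (nat_lit 57847) (nat_lit 252) .nil)))))) (.g (nat_lit 0) .nil .nil)))) (.nd (nat_lit 5) 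
(.lf (nat_lit 163094) (.g (nat_lit 3138) (.e (nat_lit 57448) (nat_lit 19) (.e (nat_lit 393229) (nat_lit 9) (.e (nat_lit 336202) (nat_lit 12) (.e (nat_lit 385066) (nat_lit 26) (.e (nat_lit 532499) (nat_lit 1) (.e (nat_lit 57849) (nat_lit 252) .nil)))))) (.g (nat_lit 0) .nil .nil))) 
(.lf (nat_lit 163126) (.g (nat_lit 634) (.e (nat_lit 57448) (nat_lit 19) (.e (nat_lit 393229) (nat_lit 9) (.e (nat_lit 343808) (nat_lit 12) .nil))) .nil)))) (.nd (nat_lit 4) (.nd (nat_lit 5) 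
(.lf (nat_lit 163086) (.g (nat_lit 3122) (.e (nat_lit 57448) (nat_lit 19) (.e (nat_lit 393229) (nat_lit 9) (.e (nat_lit 336196) (nat_lit 12) (.e (nat_lit 385066) (nat_lit 26) (.e (nat_lit 532503) (nat_lit 1) (.e (nat_lit 57847) (nat_lit 252) .nil)))))) (.g (nat_lit 0) .nil .nil))) 
(.lf (nat_lit 163118) (.g (nat_lit 3645) (.e (nat_lit 57448) (nat_lit 19) (.e (nat_lit 393229) (nat_lit 9) (.e (nat_lit 336203) (nat_lit 12) (.e (nat_lit 385068) (nat_lit 26) (.e (nat_lit 532503) (nat_lit 1) (.e (nat_lit 57847) (nat_lit 252) .nil)))))) (.g (nat_lit 0) .nil .nil)))) (.nd (nat_lit 5) 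
(.lf (nat_lit 163102) (.g (nat_lit 3639) (.e (nat_lit 57448) (nat_lit 19) (.e (nat_lit 393229) (nat_lit 9) (.e (nat_lit 336203) (nat_lit 12) (.e (nat_lit 385065) (nat_lit 26) (.e (nat_lit 532499) (nat_lit 1) (.e (nat_lit 57847) (nat_lit 252) .nil)))))) (.g (nat_lit 0) .nil .nil))) 
(.lf (nat_lit 163134) (.g (nat_lit 2452) (.e (nat_lit 57448) (nat_lit 19) (.e (nat_lit 393234) (nat_lit 17) (.e (nat_lit 2411) (nat_lit 157) (.e (nat_lit 5195) (nat_lit 294) (.e (nat_lit 57448) (nat_lit 19) (.e (nat_lit 393234) (nat_lit 17) (.e (nat_lit 2411) (nat_lit 157) (.e (nat_lit 5193) (nat_lit 294) .nil)))))))) (.g (nat_lit 5) .nil .nil)))))))) 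
(.nd (nat_lit 1) (.nd (nat_lit 2) (.nd (nat_lit 3) (.nd (nat_lit 4) (.nd (nat_lit 5) 
(.lf (nat_lit 163073) (.g (nat_lit 2895) (.e (nat_lit 57448) (nat_lit 19) (.e (nat_lit 393229) (nat_lit 9) (.e (nat_lit 336194) (nat_lit 12) (.e (nat_lit 385066) (nat_lit 26) (.e (nat_lit 532502) (nat_lit 1) (.e (nat_lit 57847) (nat_lit 252) .nil)))))) (.g (nat_lit 0) .nil .nil))) 
(.lf (nat_lit 163105) (.g (nat_lit 2019) (.e (nat_lit 57448) (nat_lit 19) (.e (nat_lit 393229) (nat_lit 9) (.e (nat_lit 336203) (nat_lit 12) (.e (nat_lit 385065) (nat_lit 26) (.e (nat_lit 532503) (nat_lit 1) (.e (nat_lit 57849) (nat_lit 252) .nil)))))) (.g (nat_lit 4) .nil .nil)))) (.nd (nat_lit 5) 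
(.lf (nat_lit 163089) (.g (nat_lit 3410) (.e (nat_lit 57448) (nat_lit 19) (.e (nat_lit 393229) (nat_lit 9) (.e (nat_lit 336196) (nat_lit 12) (.e (nat_lit 385068) (nat_lit 26) (.e (nat_lit 532503) (nat_lit 1) (.e (nat_lit 57847) (nat_lit 252) .nil)))))) (.g (nat_lit 6) .nil .nil))) 
(.lf (nat_lit 163121) (.g (nat_lit 2953) (.e (nat_lit 57448) (nat_lit 19) (.e (nat_lit 393229) (nat_lit 9) (.e (nat_lit 336204) (nat_lit 12) (.e (nat_lit 385066) (nat_lit 26) (.e (nat_lit 532502) (nat_lit 1) (.e (nat_lit 57847) (nat_lit 252) .nil)))))) (.g (nat_lit 0) .nil .nil))))) (.nd (nat_lit 4) (.nd (nat_lit 5) 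
(.lf (nat_lit 163081) (.g (nat_lit 2236) (.e (nat_lit 57448) (nat_lit 19) (.e (nat_lit 393229) (nat_lit 9) (.e (nat_lit 336195) (nat_lit 12) (.e (nat_lit 385068) (nat_lit 26) (.e (nat_lit 532503) (nat_lit 1) (.e (nat_lit 57847) (nat_lit 252) .nil)))))) (.g (nat_lit 4) .nil .nil))) 
(.lf (nat_lit 163113) (.g (nat_lit 1210) (.e (nat_lit 57448) (nat_lit 19) (.e (nat_lit 393229) (nat_lit 9) (.e (nat_lit 336203) (nat_lit 12) (.e (nat_lit 385067) (nat_lit 26) (.e (nat_lit 532502) (nat_lit 1) .nil))))) .nil))) (.nd (nat_lit 5) 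
(.lf (nat_lit 163097) (.g (nat_lit 2862) (.e (nat_lit 57448) (nat_lit 19) (.e (nat_lit 393229) (nat_lit 9) (.e (nat_lit 336202) (nat_lit 12) (.e (nat_lit 385066) (nat_lit 26) (.e (nat_lit 532503) (nat_lit 1) (.e (nat_lit 57849) (nat_lit 252) .nil)))))) (.g (nat_lit 6) .nil .nil))) 
(.lf (nat_lit 163129) (.g (nat_lit 3184) (.e (nat_lit 57448) (nat_lit 19) (.e (nat_lit 401152) (nat_lit 12) (.e (nat_lit 360475) (nat_lit 8) (.e (nat_lit 557090) (nat_lit 12) (.e (nat_lit 163850) (nat_lit 0) (.e (nat_lit 5190) (nat_lit 294) .nil)))))) (.g (nat_lit 5) .nil .nil)))))) (.nd (nat_lit 3) (.nd (nat_lit 4) (.nd (nat_lit 5) 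
(.lf (nat_lit 163077) (.g (nat_lit 3250) (.e (nat_lit 57448) (nat_lit 19) (.e (nat_lit 393229) (nat_lit 9) (.e (nat_lit 336194) (nat_lit 12) (.e (nat_lit 385068) (nat_lit 26) (.e (nat_lit 532503) (nat_lit 1) (.e (nat_lit 57847) (nat_lit 252) .nil)))))) (.g (nat_lit 0) .nil .nil))) 
(.lf (nat_lit 163109) (.g (nat_lit 3159) (.e (nat_lit 57448) (nat_lit 19) (.e (nat_lit 393229) (nat_lit 9) (.e (nat_lit 336203) (nat_lit 12) (.e (nat_lit 385066) (nat_lit 26) (.e (nat_lit 532502) (nat_lit 1) (.e (nat_lit 57849) (nat_lit 252) .nil)))))) (.g (nat_lit 6) .nil .nil)))) (.nd (nat_lit 5) 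
(.lf (nat_lit 163093) (.g (nat_lit 3382) (.e (nat_lit 57448) (nat_lit 19) (.e (nat_lit 393229) (nat_lit 9) (.e (nat_lit 336202) (nat_lit 12) (.e (nat_lit 385066) (nat_lit 26) (.e (nat_lit 532499) (nat_lit 1) (.e (nat_lit 57847) (nat_lit 252) .nil)))))) (.g (nat_lit 0) .nil .nil))) 
(.lf (nat_lit 163125) (.g (nat_lit 3231) (.e (nat_lit 57448) (nat_lit 19) (.e (nat_lit 393229) (nat_lit 9) (.e (nat_lit 336204) (nat_lit 12) (.e (nat_lit 385068) (nat_lit 26) (.e (nat_lit 532503) (nat_lit 1) (.e (nat_lit 57847) (nat_lit 252) .nil)))))) (.g (nat_lit 0) .nil .nil))))) (.nd (nat_lit 4) (.nd (nat_lit 5) 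
(.lf (nat_lit 163085) (.g (nat_lit 2783) (.e (nat_lit 57448) (nat_lit 19) (.e (nat_lit 393229) (nat_lit 9) (.e (nat_lit 336196) (nat_lit 12) (.e (nat_lit 385066) (nat_lit 26) (.e (nat_lit 532502) (nat_lit 1) (.e (nat_lit 57849) (nat_lit 252) .nil)))))) (.g (nat_lit 6) .nil .nil))) 
(.lf (nat_lit 163117) (.g (nat_lit 3463) (.e (nat_lit 57448) (nat_lit 19) (.e (nat_lit 393229) (nat_lit 9) (.e (nat_lit 336203) (nat_lit 12) (.e (nat_lit 385068) (nat_lit 26) (.e (nat_lit 532499) (nat_lit 1) (.e (nat_lit 57849) (nat_lit 252) .nil)))))) (.g (nat_lit 6) .nil .nil)))) (.nd (nat_lit 5) 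
(.lf (nat_lit 163101) (.g (nat_lit 2476) (.e (nat_lit 57448) (nat_lit 19) (.e (nat_lit 393229) (nat_lit 9) (.e (nat_lit 336203) (nat_lit 12) (.e (nat_lit 385064) (nat_lit 26) (.e (nat_lit 532503) (nat_lit 1) (.e (nat_lit 57849) (nat_lit 252) .nil)))))) (.g (nat_lit 5) .nil .nil))) 
(.lf (nat_lit 163133) (.g (nat_lit 2406) (.e (nat_lit 57448) (nat_lit 19) (.e (nat_lit 393234) (nat_lit 17) (.e (nat_lit 2411) (nat_lit 157) (.e (nat_lit 5193) (nat_lit 294) (.e (nat_lit 57448) (nat_lit 19) (.e (nat_lit 393234) (nat_lit 17) (.e (nat_lit 2411) (nat_lit 157) (.e (nat_lit 5193) (nat_lit 294) .nil)))))))) (.g (nat_lit 5) .nil .nil))))))) 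
(.nd (nat_lit 2) (.nd (nat_lit 3) (.nd (nat_lit 4) (.nd (nat_lit 5) 
(.lf (nat_lit 163075) (.g (nat_lit 3114) (.e (nat_lit 57448) (nat_lit 19) (.e (nat_lit 393229) (nat_lit 9) (.e (nat_lit 336194) (nat_lit 12) (.e (nat_lit 385066) (nat_lit 26) (.e (nat_lit 532503) (nat_lit 1) (.e (nat_lit 57849) (nat_lit 252) .nil)))))) (.g (nat_lit 0) .nil .nil))) 
(.lf (nat_lit 163107) (.g (nat_lit 3458) (.e (nat_lit 57448) (nat_lit 19) (.e (nat_lit 393229) (nat_lit 9) (.e (nat_lit 336203) (nat_lit 12) (.e (nat_lit 385066) (nat_lit 26) (.e (nat_lit 532499) (nat_lit 1) (.e (nat_lit 57849) (nat_lit 252) .nil)))))) (.g (nat_lit 0) .nil .nil)))) (.nd (nat_lit 5) 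
(.lf (nat_lit 163091) (.g (nat_lit 2551) (.e (nat_lit 57448) (nat_lit 19) (.e (nat_lit 393229) (nat_lit 9) (.e (nat_lit 336201) (nat_lit 12) (.e (nat_lit 385068) (nat_lit 26) (.e (nat_lit 532499) (nat_lit 1) (.e (nat_lit 57849) (nat_lit 252) .nil)))))) (.g (nat_lit 5) .nil .nil))) 
(.lf (nat_lit 163123) (.g (nat_lit 3161) (.e (nat_lit 57448) (nat_lit 19) (.e (nat_lit 393229) (nat_lit 9) (.e (nat_lit 336204) (nat_lit 12) (.e (nat_lit 385066) (nat_lit 26) (.e (nat_lit 532503) (nat_lit 1) (.e (nat_lit 57849) (nat_lit 252) .nil)))))) (.g (nat_lit 0) .nil .nil))))) (.nd (nat_lit 4) (.nd (nat_lit 5) 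
(.lf (nat_lit 163083) (.g (nat_lit 3256) (.e (nat_lit 57448) (nat_lit 19) (.e (nat_lit 393229) (nat_lit 9) (.e (nat_lit 336196) (nat_lit 12) (.e (nat_lit 385066) (nat_lit 26) (.e (nat_lit 532499) (nat_lit 1) (.e (nat_lit 57849) (nat_lit 252) .nil)))))) (.g (nat_lit 0) .nil .nil))) 
(.lf (nat_lit 163115) (.g (nat_lit 3189) (.e (nat_lit 57448) (nat_lit 19) (.e (nat_lit 393229) (nat_lit 9) (.e (nat_lit 336203) (nat_lit 12) (.e (nat_lit 385067) (nat_lit 26) (.e (nat_lit 532503) (nat_lit 1) (.e (nat_lit 57849) (nat_lit 252) .nil)))))) (.g (nat_lit 0) .nil .nil)))) (.nd (nat_lit 5) 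
(.lf (nat_lit 163099) (.g (nat_lit 3079) (.e (nat_lit 57448) (nat_lit 19) (.e (nat_lit 393229) (nat_lit 9) (.e (nat_lit 336202) (nat_lit 12) (.e (nat_lit 385068) (nat_lit 26) (.e (nat_lit 532503) (nat_lit 1) (.e (nat_lit 57847) (nat_lit 252) .nil)))))) (.g (nat_lit 0) .nil .nil))) 
(.lf (nat_lit 163131) (.g (nat_lit 2064) (.e (nat_lit 57448) (nat_lit 19) (.e (nat_lit 401152) (nat_lit 12) (.e (nat_lit 360475) (nat_lit 8) (.e (nat_lit 557091) (nat_lit 12) (.e (nat_lit 171776) (nat_lit 0) (.e (nat_lit 5193) (nat_lit 294) .nil)))))) (.g (nat_lit 4) .nil .nil)))))) (.nd (nat_lit 3) (.nd (nat_lit 4) (.nd (nat_lit 5) 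
(.lf (nat_lit 163079) (.g (nat_lit 2683) (.e (nat_lit 57448) (nat_lit 19) (.e (nat_lit 393229) (nat_lit 9) (.e (nat_lit 336195) (nat_lit 12) (.e (nat_lit 385066) (nat_lit 26) (.e (nat_lit 532503) (nat_lit 1) (.e (nat_lit 57847) (nat_lit 252) .nil)))))) (.g (nat_lit 5) .nil .nil))) 
(.lf (nat_lit 163111) (.g (nat_lit 3320) (.e (nat_lit 57448) (nat_lit 19) (.e (nat_lit 393229) (nat_lit 9) (.e (nat_lit 336203) (nat_lit 12) (.e (nat_lit 385066) (nat_lit 26) (.e (nat_lit 532503) (nat_lit 1) (.e (nat_lit 57849) (nat_lit 252) .nil)))))) (.g (nat_lit 0) .nil .nil)))) (.nd (nat_lit 5) 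
(.lf (nat_lit 163095) (.g (nat_lit 2508) (.e (nat_lit 57448) (nat_lit 19) (.e (nat_lit 393229) (nat_lit 9) (.e (nat_lit 336202) (nat_lit 12) (.e (nat_lit 385066) (nat_lit 26) (.e (nat_lit 532502) (nat_lit 1) (.e (nat_lit 57847) (nat_lit 252) .nil)))))) (.g (nat_lit 6) .nil .nil))) 
(.lf (nat_lit 163127) (.g (nat_lit 1711) (.e (nat_lit 57448) (nat_lit 19) (.e (nat_lit 401152) (nat_lit 12) (.e (nat_lit 360473) (nat_lit 8) (.e (nat_lit 557090) (nat_lit 12) (.e (nat_lit 171776) (nat_lit 0) (.e (nat_lit 5195) (nat_lit 294) .nil)))))) (.g (nat_lit 4) .nil .nil))))) (.nd (nat_lit 4) (.nd (nat_lit 5) 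
(.lf (nat_lit 163087) (.g (nat_lit 3101) (.e (nat_lit 57448) (nat_lit 19) (.e (nat_lit 393229) (nat_lit 9) (.e (nat_lit 336196) (nat_lit 12) (.e (nat_lit 385066) (nat_lit 26) (.e (nat_lit 532503) (nat_lit 1) (.e (nat_lit 57849) (nat_lit 252) .nil)))))) (.g (nat_lit 0) .nil .nil))) 
(.lf (nat_lit 163119) (.g (nat_lit 3620) (.e (nat_lit 57448) (nat_lit 19) (.e (nat_lit 393229) (nat_lit 9) (.e (nat_lit 336204) (nat_lit 12) (.e (nat_lit 385066) (nat_lit 26) (.e (nat_lit 532499) (nat_lit 1) (.e (nat_lit 57847) (nat_lit 252) .nil)))))) (.g (nat_lit 0) .nil .nil)))) (.nd (nat_lit 5) 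
(.lf (nat_lit 163103) (.g (nat_lit 3426) (.e (nat_lit 57448) (nat_lit 19) (.e (nat_lit 393229) (nat_lit 9) (.e (nat_lit 336203) (nat_lit 12) (.e (nat_lit 385065) (nat_lit 26) (.e (nat_lit 532499) (nat_lit 1) (.e (nat_lit 57849) (nat_lit 252) .nil)))))) (.g (nat_lit 0) .nil .nil))) 
(.lf (nat_lit 163135) (.g (nat_lit 2280) (.e (nat_lit 57448) (nat_lit 19) (.e (nat_lit 393234) (nat_lit 17) (.e (nat_lit 2413) (nat_lit 157) (.e (nat_lit 5195) (nat_lit 294) (.e (nat_lit 57448) (nat_lit 19) (.e (nat_lit 393234) (nat_lit 17) (.e (nat_lit 2411) (nat_lit 157) (.e (nat_lit 5193) (nat_lit 294) .nil)))))))) (.g (nat_lit 5) .nil .nil)))))))))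

noncomputable def tv2189 : DT := (.nd (nat_lit 0) (.nd (nat_lit 1) (.nd (nat_lit 2) (.nd (nat_lit 3) (.nd (nat_lit 4) (.nd (nat_lit 5) 
(.lf (nat_lit 163136) (.g (nat_lit 640) (.e (nat_lit 57448) (nat_lit 19) (.e (nat_lit 393234) (nat_lit 17) (.e (nat_lit 2414) (nat_lit 157) .nil))) .nil)) 
(.lf (nat_lit 163168) (.g (nat_lit 2217) (.e (nat_lit 57448) (nat_lit 19) (.e (nat_lit 393234) (nat_lit 17) (.e (nat_lit 2528) (nat_lit 157) (.e (nat_lit 5195) (nat_lit 294) (.e (nat_lit 57448) (nat_lit 19) (.e (nat_lit 393234) (nat_lit 17) (.e (nat_lit 2411) (nat_lit 157) (.e (nat_lit 5190) (nat_lit 294) .nil)))))))) (.g (nat_lit 5) .nil .nil)))) (.nd (nat_lit 5) 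
(.lf (nat_lit 163152) (.g (nat_lit 2074) (.e (nat_lit 57448) (nat_lit 19) (.e (nat_lit 393234) (nat_lit 17) (.e (nat_lit 2522) (nat_lit 157) (.e (nat_lit 5195) (nat_lit 294) (.e (nat_lit 57448) (nat_lit 19) (.e (nat_lit 393234) (nat_lit 17) (.e (nat_lit 2411) (nat_lit 157) (.e (nat_lit 5190) (nat_lit 294) .nil)))))))) (.g (nat_lit 4) .nil .nil))) 
(.lf (nat_lit 163184) (.g (nat_lit 2486) (.e (nat_lit 57448) (nat_lit 19) (.e (nat_lit 393234) (nat_lit 17) (.e (nat_lit 7581) (nat_lit 405) (.e (nat_lit 57476) (nat_lit 28) (.e (nat_lit 557097) (nat_lit 13) (.e (nat_lit 172059) (nat_lit 1) (.e (nat_lit 164396) (nat_lit 256) .nil))))))) (.g (nat_lit 4) .nil .nil))))) (.nd (nat_lit 4) (.nd (nat_lit 5) 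
(.lf (nat_lit 163144) (.g (nat_lit 2051) (.e (nat_lit 57448) (nat_lit 19) (.e (nat_lit 393234) (nat_lit 17) (.e (nat_lit 2522) (nat_lit 157) (.e (nat_lit 5192) (nat_lit 294) (.e (nat_lit 57448) (nat_lit 19) (.e (nat_lit 393234) (nat_lit 17) (.e (nat_lit 2411) (nat_lit 157) (.e (nat_lit 5193) (nat_lit 294) .nil)))))))) (.g (nat_lit 5) .nil .nil))) 
(.lf (nat_lit 163176) (.g (nat_lit 2699) (.e (nat_lit 57448) (nat_lit 19) (.e (nat_lit 393234) (nat_lit 17) (.e (nat_lit 2528) (nat_lit 157) (.e (nat_lit 5195) (nat_lit 294) (.e (nat_lit 57448) (nat_lit 19) (.e (nat_lit 393234) (nat_lit 17) (.e (nat_lit 2528) (nat_lit 157) (.e (nat_lit 5193) (nat_lit 294) .nil)))))))) (.g (nat_lit 6) .nil .nil)))) (.nd (nat_lit 5) 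
(.lf (nat_lit 163160) (.g (nat_lit 2057) (.e (nat_lit 57448) (nat_lit 19) (.e (nat_lit 393234) (nat_lit 17) (.e (nat_lit 2528) (nat_lit 157) (.e (nat_lit 5192) (nat_lit 294) (.e (nat_lit 57448) (nat_lit 19) (.e (nat_lit 393234) (nat_lit 17) (.e (nat_lit 2415) (nat_lit 157) (.e (nat_lit 5193) (nat_lit 294) .nil)))))))) (.g (nat_lit 5) .nil .nil))) 
(.lf (nat_lit 163192) (.g (nat_lit 3146) (.e (nat_lit 57448) (nat_lit 19) (.e (nat_lit 393234) (nat_lit 17) (.e (nat_lit 7581) (nat_lit 405) (.e (nat_lit 57476) (nat_lit 28) (.e (nat_lit 557104) (nat_lit 14) (.e (nat_lit 180224) (nat_lit 0) (.e (nat_lit 5939) (nat_lit 322) .nil))))))) (.g (nat_lit 5) .nil .nil)))))) (.nd (nat_lit 3) (.nd (nat_lit 4) (.nd (nat_lit 5) 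
(.lf (nat_lit 163140) (.g (nat_lit 2253) (.e (nat_lit 57448) (nat_lit 19) (.e (nat_lit 393234) (nat_lit 17) (.e (nat_lit 2415) (nat_lit 157) (.e (nat_lit 5193) (nat_lit 294) (.e (nat_lit 57448) (nat_lit 19) (.e (nat_lit 393234) (nat_lit 17) (.e (nat_lit 2413) (nat_lit 157) (.e (nat_lit 5195) (nat_lit 294) .nil)))))))) (.g (nat_lit 5) .nil .nil))) 
(.lf (nat_lit 163172) (.g (nat_lit 2782) (.e (nat_lit 57448) (nat_lit 19) (.e (nat_lit 393234) (nat_lit 17) (.e (nat_lit 2528) (nat_lit 157) (.e (nat_lit 5195) (nat_lit 294) (.e (nat_lit 57448) (nat_lit 19) (.e (nat_lit 393234) (nat_lit 17) (.e (nat_lit 2415) (nat_lit 157) (.e (nat_lit 5193) (nat_lit 294) .nil)))))))) (.g (nat_lit 6) .nil .nil)))) (.nd (nat_lit 5) 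
(.lf (nat_lit 163156) (.g (nat_lit 2936) (.e (nat_lit 57448) (nat_lit 19) (.e (nat_lit 393234) (nat_lit 17) (.e (nat_lit 2522) (nat_lit 157) (.e (nat_lit 5195) (nat_lit 294) (.e (nat_lit 57448) (nat_lit 19) (.e (nat_lit 393234) (nat_lit 17) (.e (nat_lit 2522) (nat_lit 157) (.e (nat_lit 5195) (nat_lit 294) .nil)))))))) (.g (nat_lit 6) .nil .nil))) 
(.lf (nat_lit 163188) (.g (nat_lit 2283) (.e (nat_lit 57448) (nat_lit 19) (.e (nat_lit 393234) (nat_lit 17) (.e (nat_lit 7581) (nat_lit 405) (.e (nat_lit 57476) (nat_lit 28) (.e (nat_lit 557103) (nat_lit 14) (.e (nat_lit 180224) (nat_lit 0) (.e (nat_lit 5941) (nat_lit 322) .nil))))))) (.g (nat_lit 4) .nil .nil))))) (.nd (nat_lit 4) (.nd (nat_lit 5) 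
(.lf (nat_lit 163148) (.g (nat_lit 2103) (.e (nat_lit 57448) (nat_lit 19) (.e (nat_lit 393234) (nat_lit 17) (.e (nat_lit 2522) (nat_lit 157) (.e (nat_lit 5193) (nat_lit 294) (.e (nat_lit 57448) (nat_lit 19) (.e (nat_lit 393234) (nat_lit 17) (.e (nat_lit 2413) (nat_lit 157) (.e (nat_lit 5195) (nat_lit 294) .nil)))))))) (.g (nat_lit 5) .nil .nil))) 
(.lf (nat_lit 163180) (.g (nat_lit 678) (.e (nat_lit 57448) (nat_lit 19) (.e (nat_lit 393234) (nat_lit 17) (.e (nat_lit 3485) (nat_lit 218) .nil))) .nil))) (.nd (nat_lit 5) 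
(.lf (nat_lit 163164) (.g (nat_lit 1986) (.e (nat_lit 57448) (nat_lit 19) (.e (nat_lit 393234) (nat_lit 17) (.e (nat_lit 2528) (nat_lit 157) (.e (nat_lit 5193) (nat_lit 294) (.e (nat_lit 57448) (nat_lit 19) (.e (nat_lit 393234) (nat_lit 17) (.e (nat_lit 2522) (nat_lit 157) (.e (nat_lit 5192) (nat_lit 294) .nil)))))))) (.g (nat_lit 5) .nil .nil))) 
(.lf (nat_lit 163196) (.g (nat_lit 1307) (.e (nat_lit 57448) (nat_lit 19) (.e (nat_lit 393234) (nat_lit 17) (.e (nat_lit 7581) (nat_lit 405) (.e (nat_lit 57477) (nat_lit 28) .nil)))) .nil)))))) (.nd (nat_lit 2) (.nd (nat_lit 3) (.nd (nat_lit 4) (.nd (nat_lit 5) 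
(.lf (nat_lit 163138) (.g (nat_lit 678) (.e (nat_lit 57448) (nat_lit 19) (.e (nat_lit 393234) (nat_lit 17) (.e (nat_lit 2415) (nat_lit 157) .nil))) .nil)) 
(.lf (nat_lit 163170) (.g (nat_lit 2860) (.e (nat_lit 57448) (nat_lit 19) (.e (nat_lit 393234) (nat_lit 17) (.e (nat_lit 2528) (nat_lit 157) (.e (nat_lit 5195) (nat_lit 294) (.e (nat_lit 57448) (nat_lit 19) (.e (nat_lit 393234) (nat_lit 17) (.e (nat_lit 2411) (nat_lit 157) (.e (nat_lit 5195) (nat_lit 294) .nil)))))))) (.g (nat_lit 6) .nil .nil)))) (.nd (nat_lit 5) 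
(.lf (nat_lit 163154) (.g (nat_lit 2321) (.e (nat_lit 57448) (nat_lit 19) (.e (nat_lit 393234) (nat_lit 17) (.e (nat_lit 2522) (nat_lit 157) (.e (nat_lit 5195) (nat_lit 294) (.e (nat_lit 57448) (nat_lit 19) (.e (nat_lit 393234) (nat_lit 17) (.e (nat_lit 2522) (nat_lit 157) (.e (nat_lit 5192) (nat_lit 294) .nil)))))))) (.g (nat_lit 5) .nil .nil))) 
(.lf (nat_lit 163186) (.g (nat_lit 3129) (.e (nat_lit 57448) (nat_lit 19) (.e (nat_lit 393234) (nat_lit 17) (.e (nat_lit 7581) (nat_lit 405) (.e (nat_lit 57476) (nat_lit 28) (.e (nat_lit 557097) (nat_lit 13) (.e (nat_lit 172059) (nat_lit 1) (.e (nat_lit 164400) (nat_lit 256) .nil))))))) (.g (nat_lit 5) .nil .nil))))) (.nd (nat_lit 4) (.nd (nat_lit 5) 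
(.lf (nat_lit 163146) (.g (nat_lit 2080) (.e (nat_lit 57448) (nat_lit 19) (.e (nat_lit 393234) (nat_lit 17) (.e (nat_lit 2522) (nat_lit 157) (.e (nat_lit 5192) (nat_lit 294) (.e (nat_lit 57448) (nat_lit 19) (.e (nat_lit 393234) (nat_lit 17) (.e (nat_lit 2415) (nat_lit 157) (.e (nat_lit 5193) (nat_lit 294) .nil)))))))) (.g (nat_lit 5) .nil .nil))) 
(.lf (nat_lit 163178) (.g (nat_lit 678) (.e (nat_lit 57448) (nat_lit 19) (.e (nat_lit 393234) (nat_lit 17) (.e (nat_lit 3473) (nat_lit 218) .nil))) .nil))) (.nd (nat_lit 5) 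
(.lf (nat_lit 163162) (.g (nat_lit 2170) (.e (nat_lit 57448) (nat_lit 19) (.e (nat_lit 393234) (nat_lit 17) (.e (nat_lit 2528) (nat_lit 157) (.e (nat_lit 5193) (nat_lit 294) (.e (nat_lit 57448) (nat_lit 19) (.e (nat_lit 393234) (nat_lit 17) (.e (nat_lit 2413) (nat_lit 157) (.e (nat_lit 5195) (nat_lit 294) .nil)))))))) (.g (nat_lit 5) .nil .nil))) 
(.lf (nat_lit 163194) (.g (nat_lit 3109) (.e (nat_lit 57448) (nat_lit 19) (.e (nat_lit 393234) (nat_lit 17) (.e (nat_lit 7581) (nat_lit 405) (.e (nat_lit 57476) (nat_lit 28) (.e (nat_lit 557104) (nat_lit 14) (.e (nat_lit 180224) (nat_lit 0) (.e (nat_lit 5942) (nat_lit 322) .nil))))))) (.g (nat_lit 5) .nil .nil)))))) (.nd (nat_lit 3) (.nd (nat_lit 4) (.nd (nat_lit 5) 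
(.lf (nat_lit 163142) (.g (nat_lit 2442) (.e (nat_lit 57448) (nat_lit 19) (.e (nat_lit 393234) (nat_lit 17) (.e (nat_lit 2415) (nat_lit 157) (.e (nat_lit 5205) (nat_lit 294) (.e (nat_lit 57447) (nat_lit 19) (.e (nat_lit 393234) (nat_lit 17) (.e (nat_lit 2411) (nat_lit 157) (.e (nat_lit 5193) (nat_lit 294) .nil)))))))) (.g (nat_lit 5) .nil .nil))) 
(.lf (nat_lit 163174) (.g (nat_lit 3079) (.e (nat_lit 57448) (nat_lit 19) (.e (nat_lit 393234) (nat_lit 17) (.e (nat_lit 2528) (nat_lit 157) (.e (nat_lit 5195) (nat_lit 294) (.e (nat_lit 57448) (nat_lit 19) (.e (nat_lit 393234) (nat_lit 17) (.e (nat_lit 2522) (nat_lit 157) (.e (nat_lit 5195) (nat_lit 294) .nil)))))))) (.g (nat_lit 6) .nil .nil)))) (.nd (nat_lit 5) 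
(.lf (nat_lit 163158) (.g (nat_lit 2028) (.e (nat_lit 57448) (nat_lit 19) (.e (nat_lit 393234) (nat_lit 17) (.e (nat_lit 2528) (nat_lit 157) (.e (nat_lit 5192) (nat_lit 294) (.e (nat_lit 57448) (nat_lit 19) (.e (nat_lit 393234) (nat_lit 17) (.e (nat_lit 2411) (nat_lit 157) (.e (nat_lit 5193) (nat_lit 294) .nil)))))))) (.g (nat_lit 5) .nil .nil))) 
(.lf (nat_lit 163190) (.g (nat_lit 3175) (.e (nat_lit 57448) (nat_lit 19) (.e (nat_lit 393234) (nat_lit 17) (.e (nat_lit 7581) (nat_lit 405) (.e (nat_lit 57476) (nat_lit 28) (.e (nat_lit 557103) (nat_lit 14) (.e (nat_lit 188160) (nat_lit 0) (.e (nat_lit 5937) (nat_lit 322) .nil))))))) (.g (nat_lit 5) .nil .nil))))) (.nd (nat_lit 4) (.nd (nat_lit 5) 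
(.lf (nat_lit 163150) (.g (nat_lit 1886) (.e (nat_lit 57448) (nat_lit 19) (.e (nat_lit 393234) (nat_lit 17) (.e (nat_lit 2522) (nat_lit 157) (.e (nat_lit 5193) (nat_lit 294) (.e (nat_lit 57448) (nat_lit 19) (.e (nat_lit 393234) (nat_lit 17) (.e (nat_lit 2522) (nat_lit 157) (.e (nat_lit 5192) (nat_lit 294) .nil)))))))) (.g (nat_lit 5) .nil .nil))) 
(.lf (nat_lit 163182) (.g (nat_lit 678) (.e (nat_lit 57448) (nat_lit 19) (.e (nat_lit 393234) (nat_lit 17) (.e (nat_lit 7382) (nat_lit 391) .nil))) .nil))) (.nd (nat_lit 5) 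
(.lf (nat_lit 163166) (.g (nat_lit 1963) (.e (nat_lit 57448) (nat_lit 19) (.e (nat_lit 393234) (nat_lit 17) (.e (nat_lit 2528) (nat_lit 157) (.e (nat_lit 5193) (nat_lit 294) (.e (nat_lit 57448) (nat_lit 19) (.e (nat_lit 393234) (nat_lit 17) (.e (nat_lit 2528) (nat_lit 157) (.e (nat_lit 5192) (nat_lit 294) .nil)))))))) (.g (nat_lit 5) .nil .nil))) 
(.lf (nat_lit 163198) (.g (nat_lit 2869) (.e (nat_lit 57448) (nat_lit 19) (.e (nat_lit 393234) (nat_lit 17) (.e (nat_lit 7581) (nat_lit 405) (.e (nat_lit 57477) (nat_lit 28) (.e (nat_lit 557097) (nat_lit 13) (.e (nat_lit 172059) (nat_lit 1) (.e (nat_lit 164400) (nat_lit 256) .nil))))))) (.g (nat_lit 5) .nil .nil)))))))) 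
(.nd (nat_lit 1) (.nd (nat_lit 2) (.nd (nat_lit 3) (.nd (nat_lit 4) (.nd (nat_lit 5) 
(.lf (nat_lit 163137) (.g (nat_lit 2075) (.e (nat_lit 57448) (nat_lit 19) (.e (nat_lit 393234) (nat_lit 17) (.e (nat_lit 2414) (nat_lit 157) (.e (nat_lit 5195) (nat_lit 294) (.e (nat_lit 57448) (nat_lit 19) (.e (nat_lit 393234) (nat_lit 17) (.e (nat_lit 2522) (nat_lit 157) (.e (nat_lit 5195) (nat_lit 294) .nil)))))))) (.g (nat_lit 4) .nil .nil))) 
(.lf (nat_lit 163169) (.g (nat_lit 2809) (.e (nat_lit 57448) (nat_lit 19) (.e (nat_lit 393234) (nat_lit 17) (.e (nat_lit 2528) (nat_lit 157) (.e (nat_lit 5195) (nat_lit 294) (.e (nat_lit 57448) (nat_lit 19) (.e (nat_lit 393234) (nat_lit 17) (.e (nat_lit 2411) (nat_lit 157) (.e (nat_lit 5193) (nat_lit 294) .nil)))))))) (.g (nat_lit 6) .nil .nil)))) (.nd (nat_lit 5) 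
(.lf (nat_lit 163153) (.g (nat_lit 2182) (.e (nat_lit 57448) (nat_lit 19) (.e (nat_lit 393234) (nat_lit 17) (.e (nat_lit 2522) (nat_lit 157) (.e (nat_lit 5195) (nat_lit 294) (.e (nat_lit 57448) (nat_lit 19) (.e (nat_lit 393234) (nat_lit 17) (.e (nat_lit 2415) (nat_lit 157) (.e (nat_lit 5190) (nat_lit 294) .nil)))))))) (.g (nat_lit 5) .nil .nil))) 
(.lf (nat_lit 163185) (.g (nat_lit 2574) (.e (nat_lit 57448) (nat_lit 19) (.e (nat_lit 393234) (nat_lit 17) (.e (nat_lit 7581) (nat_lit 405) (.e (nat_lit 57476) (nat_lit 28) (.e (nat_lit 557097) (nat_lit 13) (.e (nat_lit 172059) (nat_lit 1) (.e (nat_lit 164397) (nat_lit 256) .nil))))))) (.g (nat_lit 4) .nil .nil))))) (.nd (nat_lit 4) (.nd (nat_lit 5) 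
(.lf (nat_lit 163145) (.g (nat_lit 2090) (.e (nat_lit 57448) (nat_lit 19) (.e (nat_lit 393234) (nat_lit 17) (.e (nat_lit 2522) (nat_lit 157) (.e (nat_lit 5192) (nat_lit 294) (.e (nat_lit 57448) (nat_lit 19) (.e (nat_lit 393234) (nat_lit 17) (.e (nat_lit 2411) (nat_lit 157) (.e (nat_lit 5195) (nat_lit 294) .nil)))))))) (.g (nat_lit 5) .nil .nil))) 
(.lf (nat_lit 163177) (.g (nat_lit 3222) (.e (nat_lit 57448) (nat_lit 19) (.e (nat_lit 393234) (nat_lit 17) (.e (nat_lit 2528) (nat_lit 157) (.e (nat_lit 5195) (nat_lit 294) (.e (nat_lit 57448) (nat_lit 19) (.e (nat_lit 393234) (nat_lit 17) (.e (nat_lit 2528) (nat_lit 157) (.e (nat_lit 5195) (nat_lit 294) .nil)))))))) (.g (nat_lit 6) .nil .nil)))) (.nd (nat_lit 5) 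
(.lf (nat_lit 163161) (.g (nat_lit 2291) (.e (nat_lit 57448) (nat_lit 19) (.e (nat_lit 393234) (nat_lit 17) (.e (nat_lit 2528) (nat_lit 157) (.e (nat_lit 5193) (nat_lit 294) (.e (nat_lit 57448) (nat_lit 19) (.e (nat_lit 393234) (nat_lit 17) (.e (nat_lit 2411) (nat_lit 157) (.e (nat_lit 5193) (nat_lit 294) .nil)))))))) (.g (nat_lit 5) .nil .nil))) 
(.lf (nat_lit 163193) (.g (nat_lit 3054) (.e (nat_lit 57448) (nat_lit 19) (.e (nat_lit 393234) (nat_lit 17) (.e (nat_lit 7581) (nat_lit 405) (.e (nat_lit 57476) (nat_lit 28) (.e (nat_lit 557104) (nat_lit 14) (.e (nat_lit 180224) (nat_lit 0) (.e (nat_lit 5941) (nat_lit 322) .nil))))))) (.g (nat_lit 5) .nil .nil)))))) (.nd (nat_lit 3) (.nd (nat_lit 4) (.nd (nat_lit 5) 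
(.lf (nat_lit 163141) (.g (nat_lit 2464) (.e (nat_lit 57448) (nat_lit 19) (.e (nat_lit 393234) (nat_lit 17) (.e (nat_lit 2415) (nat_lit 157) (.e (nat_lit 5193) (nat_lit 294) (.e (nat_lit 57448) (nat_lit 19) (.e (nat_lit 393234) (nat_lit 17) (.e (nat_lit 2415) (nat_lit 157) (.e (nat_lit 5193) (nat_lit 294) .nil)))))))) (.g (nat_lit 5) .nil .nil))) 
(.lf (nat_lit 163173) (.g (nat_lit 2497) (.e (nat_lit 57448) (nat_lit 19) (.e (nat_lit 393234) (nat_lit 17) (.e (nat_lit 2528) (nat_lit 157) (.e (nat_lit 5195) (nat_lit 294) (.e (nat_lit 57448) (nat_lit 19) (.e (nat_lit 393234) (nat_lit 17) (.e (nat_lit 2522) (nat_lit 157) (.e (nat_lit 5192) (nat_lit 294) .nil)))))))) (.g (nat_lit 5) .nil .nil)))) (.nd (nat_lit 5) 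
(.lf (nat_lit 163157) (.g (nat_lit 2568) (.e (nat_lit 57448) (nat_lit 19) (.e (nat_lit 393234) (nat_lit 17) (.e (nat_lit 2522) (nat_lit 157) (.e (nat_lit 5195) (nat_lit 294) (.e (nat_lit 57448) (nat_lit 19) (.e (nat_lit 393234) (nat_lit 17) (.e (nat_lit 2528) (nat_lit 157) (.e (nat_lit 5193) (nat_lit 294) .nil)))))))) (.g (nat_lit 5) .nil .nil))) 
(.lf (nat_lit 163189) (.g (nat_lit 2338) (.e (nat_lit 57448) (nat_lit 19) (.e (nat_lit 393234) (nat_lit 17) (.e (nat_lit 7581) (nat_lit 405) (.e (nat_lit 57476) (nat_lit 28) (.e (nat_lit 557103) (nat_lit 14) (.e (nat_lit 180224) (nat_lit 0) (.e (nat_lit 5942) (nat_lit 322) .nil))))))) (.g (nat_lit 4) .nil .nil))))) (.nd (nat_lit 4) (.nd (nat_lit 5) 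
(.lf (nat_lit 163149) (.g (nat_lit 2265) (.e (nat_lit 57448) (nat_lit 19) (.e (nat_lit 393234) (nat_lit 17) (.e (nat_lit 2522) (nat_lit 157) (.e (nat_lit 5193) (nat_lit 294) (.e (nat_lit 57448) (nat_lit 19) (.e (nat_lit 393234) (nat_lit 17) (.e (nat_lit 2415) (nat_lit 157) (.e (nat_lit 5193) (nat_lit 294) .nil)))))))) (.g (nat_lit 5) .nil .nil))) 
(.lf (nat_lit 163181) (.g (nat_lit 676) (.e (nat_lit 57448) (nat_lit 19) (.e (nat_lit 393234) (nat_lit 17) (.e (nat_lit 3499) (nat_lit 218) .nil))) .nil))) (.nd (nat_lit 5) 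
(.lf (nat_lit 163165) (.g (nat_lit 2121) (.e (nat_lit 57448) (nat_lit 19) (.e (nat_lit 393234) (nat_lit 17) (.e (nat_lit 2528) (nat_lit 157) (.e (nat_lit 5193) (nat_lit 294) (.e (nat_lit 57448) (nat_lit 19) (.e (nat_lit 393234) (nat_lit 17) (.e (nat_lit 2522) (nat_lit 157) (.e (nat_lit 5193) (nat_lit 294) .nil)))))))) (.g (nat_lit 5) .nil .nil))) 
(.lf (nat_lit 163197) (.g (nat_lit 1636) (.e (nat_lit 57448) (nat_lit 19) (.e (nat_lit 393234) (nat_lit 17) (.e (nat_lit 7581) (nat_lit 405) (.e (nat_lit 57477) (nat_lit 28) (.e (nat_lit 557097) (nat_lit 13) .nil))))) .nil)))))) (.nd (nat_lit 2) (.nd (nat_lit 3) (.nd (nat_lit 4) (.nd (nat_lit 5) 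
(.lf (nat_lit 163139) (.g (nat_lit 2435) (.e (nat_lit 57448) (nat_lit 19) (.e (nat_lit 393234) (nat_lit 17) (.e (nat_lit 2415) (nat_lit 157) (.e (nat_lit 5193) (nat_lit 294) (.e (nat_lit 57448) (nat_lit 19) (.e (nat_lit 393234) (nat_lit 17) (.e (nat_lit 2411) (nat_lit 157) (.e (nat_lit 5193) (nat_lit 294) .nil)))))))) (.g (nat_lit 5) .nil .nil))) 
(.lf (nat_lit 163171) (.g (nat_lit 2325) (.e (nat_lit 57448) (nat_lit 19) (.e (nat_lit 393234) (nat_lit 17) (.e (nat_lit 2528) (nat_lit 157) (.e (nat_lit 5195) (nat_lit 294) (.e (nat_lit 57448) (nat_lit 19) (.e (nat_lit 393234) (nat_lit 17) (.e (nat_lit 2415) (nat_lit 157) (.e (nat_lit 5190) (nat_lit 294) .nil)))))))) (.g (nat_lit 5) .nil .nil)))) (.nd (nat_lit 5) 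
(.lf (nat_lit 163155) (.g (nat_lit 2501) (.e (nat_lit 57448) (nat_lit 19) (.e (nat_lit 393234) (nat_lit 17) (.e (nat_lit 2522) (nat_lit 157) (.e (nat_lit 5195) (nat_lit 294) (.e (nat_lit 57448) (nat_lit 19) (.e (nat_lit 393234) (nat_lit 17) (.e (nat_lit 2522) (nat_lit 157) (.e (nat_lit 5193) (nat_lit 294) .nil)))))))) (.g (nat_lit 5) .nil .nil))) 
(.lf (nat_lit 163187) (.g (nat_lit 1745) (.e (nat_lit 57448) (nat_lit 19) (.e (nat_lit 393234) (nat_lit 17) (.e (nat_lit 7581) (nat_lit 405) (.e (nat_lit 57476) (nat_lit 28) (.e (nat_lit 557103) (nat_lit 14) .nil))))) .nil)))) (.nd (nat_lit 4) (.nd (nat_lit 5) 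
(.lf (nat_lit 163147) (.g (nat_lit 2236) (.e (nat_lit 57448) (nat_lit 19) (.e (nat_lit 393234) (nat_lit 17) (.e (nat_lit 2522) (nat_lit 157) (.e (nat_lit 5193) (nat_lit 294) (.e (nat_lit 57448) (nat_lit 19) (.e (nat_lit 393234) (nat_lit 17) (.e (nat_lit 2411) (nat_lit 157) (.e (nat_lit 5193) (nat_lit 294) .nil)))))))) (.g (nat_lit 5) .nil .nil))) 
(.lf (nat_lit 163179) (.g (nat_lit 725) (.e (nat_lit 57448) (nat_lit 19) (.e (nat_lit 393234) (nat_lit 17) (.e (nat_lit 3473) (nat_lit 218) (.e (nat_lit 704587) (nat_lit 2) .nil)))) .nil))) (.nd (nat_lit 5) 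
(.lf (nat_lit 163163) (.g (nat_lit 2320) (.e (nat_lit 57448) (nat_lit 19) (.e (nat_lit 393234) (nat_lit 17) (.e (nat_lit 2528) (nat_lit 157) (.e (nat_lit 5193) (nat_lit 294) (.e (nat_lit 57448) (nat_lit 19) (.e (nat_lit 393234) (nat_lit 17) (.e (nat_lit 2415) (nat_lit 157) (.e (nat_lit 5193) (nat_lit 294) .nil)))))))) (.g (nat_lit 5) .nil .nil))) 
(.lf (nat_lit 163195) (.g (nat_lit 2457) (.e (nat_lit 57448) (nat_lit 19) (.e (nat_lit 393234) (nat_lit 17) (.e (nat_lit 7581) (nat_lit 405) (.e (nat_lit 57476) (nat_lit 28) (.e (nat_lit 557104) (nat_lit 14) (.e (nat_lit 188160) (nat_lit 0) (.e (nat_lit 5936) (nat_lit 322) .nil))))))) (.g (nat_lit 4) .nil .nil)))))) (.nd (nat_lit 3) (.nd (nat_lit 4) (.nd (nat_lit 5) 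
(.lf (nat_lit 163143) (.g (nat_lit 2438) (.e (nat_lit 57448) (nat_lit 19) (.e (nat_lit 393234) (nat_lit 17) (.e (nat_lit 2415) (nat_lit 157) (.e (nat_lit 5205) (nat_lit 294) (.e (nat_lit 57447) (nat_lit 19) (.e (nat_lit 393234) (nat_lit 17) (.e (nat_lit 2415) (nat_lit 157) (.e (nat_lit 5193) (nat_lit 294) .nil)))))))) (.g (nat_lit 5) .nil .nil))) 
(.lf (nat_lit 163175) (.g (nat_lit 2486) (.e (nat_lit 57448) (nat_lit 19) (.e (nat_lit 393234) (nat_lit 17) (.e (nat_lit 2528) (nat_lit 157) (.e (nat_lit 5195) (nat_lit 294) (.e (nat_lit 57448) (nat_lit 19) (.e (nat_lit 393234) (nat_lit 17) (.e (nat_lit 2528) (nat_lit 157) (.e (nat_lit 5192) (nat_lit 294) .nil)))))))) (.g (nat_lit 5) .nil .nil)))) (.nd (nat_lit 5) 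
(.lf (nat_lit 163159) (.g (nat_lit 2079) (.e (nat_lit 57448) (nat_lit 19) (.e (nat_lit 393234) (nat_lit 17) (.e (nat_lit 2528) (nat_lit 157) (.e (nat_lit 5192) (nat_lit 294) (.e (nat_lit 57448) (nat_lit 19) (.e (nat_lit 393234) (nat_lit 17) (.e (nat_lit 2411) (nat_lit 157) (.e (nat_lit 5195) (nat_lit 294) .nil)))))))) (.g (nat_lit 5) .nil .nil))) 
(.lf (nat_lit 163191) (.g (nat_lit 1709) (.e (nat_lit 57448) (nat_lit 19) (.e (nat_lit 393234) (nat_lit 17) (.e (nat_lit 7581) (nat_lit 405) (.e (nat_lit 57476) (nat_lit 28) (.e (nat_lit 557104) (nat_lit 14) .nil))))) .nil)))) (.nd (nat_lit 4) (.nd (nat_lit 5) 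
(.lf (nat_lit 163151) (.g (nat_lit 2066) (.e (nat_lit 57448) (nat_lit 19) (.e (nat_lit 393234) (nat_lit 17) (.e (nat_lit 2522) (nat_lit 157) (.e (nat_lit 5193) (nat_lit 294) (.e (nat_lit 57448) (nat_lit 19) (.e (nat_lit 393234) (nat_lit 17) (.e (nat_lit 2522) (nat_lit 157) (.e (nat_lit 5193) (nat_lit 294) .nil)))))))) (.g (nat_lit 5) .nil .nil))) 
(.lf (nat_lit 163183) (.g (nat_lit 1313) (.e (nat_lit 57448) (nat_lit 19) (.e (nat_lit 393234) (nat_lit 17) (.e (nat_lit 7581) (nat_lit 405) (.e (nat_lit 57476) (nat_lit 28) .nil)))) .nil))) (.nd (nat_lit 5) 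
(.lf (nat_lit 163167) (.g (nat_lit 2176) (.e (nat_lit 57448) (nat_lit 19) (.e (nat_lit 393234) (nat_lit 17) (.e (nat_lit 2528) (nat_lit 157) (.e (nat_lit 5193) (nat_lit 294) (.e (nat_lit 57448) (nat_lit 19) (.e (nat_lit 393234) (nat_lit 17) (.e (nat_lit 2528) (nat_lit 157) (.e (nat_lit 5193) (nat_lit 294) .nil)))))))) (.g (nat_lit 5) .nil .nil))) 
(.lf (nat_lit 163199) (.g (nat_lit 3129) (.e (nat_lit 57448) (nat_lit 19) (.e (nat_lit 393234) (nat_lit 17) (.e (nat_lit 7581) (nat_lit 405) (.e (nat_lit 57477) (nat_lit 28) (.e (nat_lit 557103) (nat_lit 14) (.e (nat_lit 180224) (nat_lit 0) (.e (nat_lit 5937) (nat_lit 322) .nil))))))) (.g (nat_lit 5) .nil .nil)))))))))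

noncomputable def tv2190 : DT := (.nd (nat_lit 0) (.nd (nat_lit 1) (.nd (nat_lit 2) (.nd (nat_lit 3) (.nd (nat_lit 4) (.nd (nat_lit 5) (.nd (nat_lit 6) 
(.lf (nat_lit 163200) (.g (nat_lit 2536) (.e (nat_lit 57448) (nat_lit 19) (.e (nat_lit 393234) (nat_lit 17) (.e (nat_lit 7581) (nat_lit 405) (.e (nat_lit 57477) (nat_lit 28) (.e (nat_lit 557103) (nat_lit 14) (.e (nat_lit 180224) (nat_lit 0) (.e (nat_lit 5941) (nat_lit 322) .nil))))))) (.g (nat_lit 4) .nil .nil))) 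
(.lf (nat_lit 163264) (.g (nat_lit 1324) (.e (nat_lit 57448) (nat_lit 19) (.e (nat_lit 393281) (nat_lit 23) (.e (nat_lit 426115) (nat_lit 2) (.e (nat_lit 196654) (nat_lit 11) (.e (nat_lit 16395) (nat_lit 0) .nil))))) .nil))) (.nd (nat_lit 6) 
(.lf (nat_lit 163232) (.g (nat_lit 3548) (.e (nat_lit 57448) (nat_lit 19) (.e (nat_lit 393234) (nat_lit 17) (.e (nat_lit 7581) (nat_lit 405) (.e (nat_lit 57480) (nat_lit 28) (.e (nat_lit 557105) (nat_lit 14) (.e (nat_lit 180224) (nat_lit 0) (.e (nat_lit 5942) (nat_lit 322) .nil))))))) (.g (nat_lit 5) .nil .nil))) 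
(.lf (nat_lit 163296) (.g (nat_lit 1020) (.e (nat_lit 57448) (nat_lit 19) (.e (nat_lit 393296) (nat_lit 26) (.e (nat_lit 475207) (nat_lit 41) .nil))) .nil)))) (.nd (nat_lit 5) (.nd (nat_lit 6) 
(.lf (nat_lit 163216) (.g (nat_lit 3263) (.e (nat_lit 57448) (nat_lit 19) (.e (nat_lit 393234) (nat_lit 17) (.e (nat_lit 7581) (nat_lit 405) (.e (nat_lit 57480) (nat_lit 28) (.e (nat_lit 557098) (nat_lit 13) (.e (nat_lit 172059) (nat_lit 1) (.e (nat_lit 164400) (nat_lit 256) .nil))))))) (.g (nat_lit 5) .nil .nil))) 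
(.lf (nat_lit 163280) (.g (nat_lit 1713) (.e (nat_lit 57448) (nat_lit 19) (.e (nat_lit 393281) (nat_lit 23) (.e (nat_lit 426116) (nat_lit 2) (.e (nat_lit 196654) (nat_lit 11) (.e (nat_lit 16406) (nat_lit 1) .nil))))) .nil))) (.nd (nat_lit 6) 
(.lf (nat_lit 163248) (.g (nat_lit 1981) (.e (nat_lit 57448) (nat_lit 19) (.e (nat_lit 393234) (nat_lit 17) (.e (nat_lit 7583) (nat_lit 405) (.e (nat_lit 57476) (nat_lit 28) (.e (nat_lit 557104) (nat_lit 14) (.e (nat_lit 188160) (nat_lit 0) (.e (nat_lit 5936) (nat_lit 322) .nil))))))) (.g (nat_lit 4) .nil .nil))) 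
(.lf (nat_lit 163312) (.g (nat_lit 3198) (.e (nat_lit 57448) (nat_lit 19) (.e (nat_lit 393301) (nat_lit 27) (.e (nat_lit 491526) (nat_lit 0) (.e (nat_lit 1848) (nat_lit 124) (.e (nat_lit 557097) (nat_lit 13) (.e (nat_lit 172059) (nat_lit 1) (.e (nat_lit 164400) (nat_lit 256) .nil))))))) (.g (nat_lit 5) .nil .nil)))))) (.nd (nat_lit 4) (.nd (nat_lit 5) (.nd (nat_lit 6) 
(.lf (nat_lit 163208) (.g (nat_lit 1345) (.e (nat_lit 57448) (nat_lit 19) (.e (nat_lit 393234) (nat_lit 17) (.e (nat_lit 7581) (nat_lit 405) (.e (nat_lit 57479) (nat_lit 28) .nil)))) .nil)) 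
(.lf (nat_lit 163272) (.g (nat_lit 2035) (.e (nat_lit 57448) (nat_lit 19) (.e (nat_lit 393281) (nat_lit 23) (.e (nat_lit 426116) (nat_lit 2) (.e (nat_lit 196654) (nat_lit 11) (.e (nat_lit 16386) (nat_lit 0) .nil))))) .nil))) (.nd (nat_lit 6) 
(.lf (nat_lit 163240) (.g (nat_lit 2002) (.e (nat_lit 57448) (nat_lit 19) (.e (nat_lit 393234) (nat_lit 17) (.e (nat_lit 7583) (nat_lit 405) (.e (nat_lit 57476) (nat_lit 28) (.e (nat_lit 557103) (nat_lit 14) (.e (nat_lit 180224) (nat_lit 0) (.e (nat_lit 5939) (nat_lit 322) .nil))))))) (.g (nat_lit 4) .nil .nil))) 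
(.lf (nat_lit 163304) (.g (nat_lit 2141) (.e (nat_lit 57448) (nat_lit 19) (.e (nat_lit 393300) (nat_lit 27) (.e (nat_lit 491570) (nat_lit 13) (.e (nat_lit 393252) (nat_lit 18) .nil)))) .nil)))) (.nd (nat_lit 5) (.nd (nat_lit 6) 
(.lf (nat_lit 163224) (.g (nat_lit 2349) (.e (nat_lit 57448) (nat_lit 19) (.e (nat_lit 393234) (nat_lit 17) (.e (nat_lit 7581) (nat_lit 405) (.e (nat_lit 57480) (nat_lit 28) (.e (nat_lit 557103) (nat_lit 14) (.e (nat_lit 188160) (nat_lit 0) (.e (nat_lit 5939) (nat_lit 322) .nil))))))) (.g (nat_lit 4) .nil .nil))) 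
(.lf (nat_lit 163288) (.g (nat_lit 2118) (.e (nat_lit 57448) (nat_lit 19) (.e (nat_lit 393281) (nat_lit 23) (.e (nat_lit 426116) (nat_lit 2) (.e (nat_lit 196656) (nat_lit 11) (.e (nat_lit 16406) (nat_lit 1) (.e (nat_lit 164400) (nat_lit 256) .nil)))))) (.g (nat_lit 4) .nil .nil)))) (.nd (nat_lit 6) 
(.lf (nat_lit 163256) (.g (nat_lit 1146) (.e (nat_lit 57448) (nat_lit 19) (.e (nat_lit 393270) (nat_lit 23) (.e (nat_lit 426131) (nat_lit 3) (.e (nat_lit 204812) (nat_lit 9) .nil)))) .nil)) 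
(.lf (nat_lit 163320) (.g (nat_lit 4022) (.e (nat_lit 57448) (nat_lit 19) (.e (nat_lit 393301) (nat_lit 27) (.e (nat_lit 491526) (nat_lit 0) (.e (nat_lit 1855) (nat_lit 124) (.e (nat_lit 557100) (nat_lit 13) (.e (nat_lit 172059) (nat_lit 1) (.e (nat_lit 164398) (nat_lit 256) .nil))))))) (.g (nat_lit 5) .nil .nil))))))) (.nd (nat_lit 3) (.nd (nat_lit 4) (.nd (nat_lit 5) (.nd (nat_lit 6) 
(.lf (nat_lit 163204) (.g (nat_lit 3104) (.e (nat_lit 57448) (nat_lit 19) (.e (nat_lit 393234) (nat_lit 17) (.e (nat_lit 7581) (nat_lit 405) (.e (nat_lit 57477) (nat_lit 28) (.e (nat_lit 557104) (nat_lit 14) (.e (nat_lit 180224) (nat_lit 0) (.e (nat_lit 5941) (nat_lit 322) .nil))))))) (.g (nat_lit 5) .nil .nil))) 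
(.lf (nat_lit 163268) (.g (nat_lit 1158) (.e (nat_lit 57448) (nat_lit 19) (.e (nat_lit 393281) (nat_lit 23) (.e (nat_lit 426116) (nat_lit 2) (.e (nat_lit 196624) (nat_lit 9) .nil)))) .nil))) (.nd (nat_lit 6) 
(.lf (nat_lit 163236) (.g (nat_lit 454) (.e (nat_lit 57448) (nat_lit 19) (.e (nat_lit 393234) (nat_lit 17) (.e (nat_lit 7583) (nat_lit 405) .nil))) .nil)) 
(.lf (nat_lit 163300) (.g (nat_lit 3478) (.e (nat_lit 57448) (nat_lit 19) (.e (nat_lit 393298) (nat_lit 27) (.e (nat_lit 491571) (nat_lit 13) (.e (nat_lit 393251) (nat_lit 18) (.e (nat_lit 171776) (nat_lit 262) .nil))))) .nil)))) (.nd (nat_lit 5) (.nd (nat_lit 6) 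
(.lf (nat_lit 163220) (.g (nat_lit 3019) (.e (nat_lit 57448) (nat_lit 19) (.e (nat_lit 393234) (nat_lit 17) (.e (nat_lit 7581) (nat_lit 405) (.e (nat_lit 57480) (nat_lit 28) (.e (nat_lit 557103) (nat_lit 14) (.e (nat_lit 180224) (nat_lit 0) (.e (nat_lit 5941) (nat_lit 322) .nil))))))) (.g (nat_lit 5) .nil .nil))) 
(.lf (nat_lit 163284) (.g (nat_lit 2210) (.e (nat_lit 57448) (nat_lit 19) (.e (nat_lit 393281) (nat_lit 23) (.e (nat_lit 426116) (nat_lit 2) (.e (nat_lit 196656) (nat_lit 11) (.e (nat_lit 16392) (nat_lit 0) (.e (nat_lit 2397) (nat_lit 157) (.e (nat_lit 5940) (nat_lit 322) .nil))))))) (.g (nat_lit 4) .nil .nil)))) (.nd (nat_lit 6) 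
(.lf (nat_lit 163252) (.g (nat_lit 1250) (.e (nat_lit 57448) (nat_lit 19) (.e (nat_lit 393251) (nat_lit 18) (.e (nat_lit 164298) (nat_lit 226) .nil))) .nil)) 
(.lf (nat_lit 163316) (.g (nat_lit 3687) (.e (nat_lit 57448) (nat_lit 19) (.e (nat_lit 393301) (nat_lit 27) (.e (nat_lit 491526) (nat_lit 0) (.e (nat_lit 1848) (nat_lit 124) (.e (nat_lit 557103) (nat_lit 14) (.e (nat_lit 188160) (nat_lit 0) (.e (nat_lit 5937) (nat_lit 322) .nil))))))) (.g (nat_lit 5) .nil .nil)))))) (.nd (nat_lit 4) (.nd (nat_lit 5) (.nd (nat_lit 6) 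
(.lf (nat_lit 163212) (.g (nat_lit 3239) (.e (nat_lit 57448) (nat_lit 19) (.e (nat_lit 393234) (nat_lit 17) (.e (nat_lit 7581) (nat_lit 405) (.e (nat_lit 57479) (nat_lit 28) (.e (nat_lit 557105) (nat_lit 14) (.e (nat_lit 180227) (nat_lit 0) (.e (nat_lit 5934) (nat_lit 322) .nil))))))) (.g (nat_lit 5) .nil .nil))) 
(.lf (nat_lit 163276) (.g (nat_lit 2150) (.e (nat_lit 57448) (nat_lit 19) (.e (nat_lit 393281) (nat_lit 23) (.e (nat_lit 426116) (nat_lit 2) (.e (nat_lit 196654) (nat_lit 11) (.e (nat_lit 16394) (nat_lit 0) .nil))))) .nil))) (.nd (nat_lit 6) 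
(.lf (nat_lit 163244) (.g (nat_lit 1702) (.e (nat_lit 57448) (nat_lit 19) (.e (nat_lit 393234) (nat_lit 17) (.e (nat_lit 7583) (nat_lit 405) (.e (nat_lit 57476) (nat_lit 28) (.e (nat_lit 557104) (nat_lit 14) (.e (nat_lit 180224) (nat_lit 0) (.e (nat_lit 5936) (nat_lit 322) .nil))))))) (.g (nat_lit 4) .nil .nil))) 
(.lf (nat_lit 163308) (.g (nat_lit 1023) (.e (nat_lit 57448) (nat_lit 19) (.e (nat_lit 393301) (nat_lit 27) (.e (nat_lit 491525) (nat_lit 0) .nil))) .nil)))) (.nd (nat_lit 5) (.nd (nat_lit 6) 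
(.lf (nat_lit 163228) (.g (nat_lit 2410) (.e (nat_lit 57448) (nat_lit 19) (.e (nat_lit 393234) (nat_lit 17) (.e (nat_lit 7581) (nat_lit 405) (.e (nat_lit 57480) (nat_lit 28) (.e (nat_lit 557105) (nat_lit 14) (.e (nat_lit 180224) (nat_lit 0) (.e (nat_lit 5933) (nat_lit 322) .nil))))))) (.g (nat_lit 4) .nil .nil))) 
(.lf (nat_lit 163292) (.g (nat_lit 1836) (.e (nat_lit 57448) (nat_lit 19) (.e (nat_lit 393281) (nat_lit 23) (.e (nat_lit 426133) (nat_lit 3) (.e (nat_lit 204810) (nat_lit 9) .nil)))) .nil))) (.nd (nat_lit 6) 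
(.lf (nat_lit 163260) (.g (nat_lit 1588) (.e (nat_lit 57448) (nat_lit 19) (.e (nat_lit 393281) (nat_lit 23) (.e (nat_lit 426115) (nat_lit 2) (.e (nat_lit 196654) (nat_lit 11) (.e (nat_lit 16385) (nat_lit 0) (.e (nat_lit 2466) (nat_lit 157) (.e (nat_lit 5937) (nat_lit 322) .nil))))))) (.g (nat_lit 4) .nil .nil))) 
(.lf (nat_lit 163324) (.g (nat_lit 1078) (.e (nat_lit 57448) (nat_lit 19) (.e (nat_lit 393301) (nat_lit 27) (.e (nat_lit 491530) (nat_lit 0) .nil))) .nil))))))) (.nd (nat_lit 2) (.nd (nat_lit 3) (.nd (nat_lit 4) (.nd (nat_lit 5) (.nd (nat_lit 6) 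
(.lf (nat_lit 163202) (.g (nat_lit 1710) (.e (nat_lit 57448) (nat_lit 19) (.e (nat_lit 393234) (nat_lit 17) (.e (nat_lit 7581) (nat_lit 405) (.e (nat_lit 57477) (nat_lit 28) (.e (nat_lit 557104) (nat_lit 14) .nil))))) .nil)) 
(.lf (nat_lit 163266) (.g (nat_lit 2541) (.e (nat_lit 57448) (nat_lit 19) (.e (nat_lit 393281) (nat_lit 23) (.e (nat_lit 426115) (nat_lit 2) (.e (nat_lit 196654) (nat_lit 11) (.e (nat_lit 16406) (nat_lit 1) (.e (nat_lit 164398) (nat_lit 256) .nil)))))) (.g (nat_lit 0) .nil .nil)))) (.nd (nat_lit 6) 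
(.lf (nat_lit 163234) (.g (nat_lit 2288) (.e (nat_lit 57448) (nat_lit 19) (.e (nat_lit 393234) (nat_lit 17) (.e (nat_lit 7581) (nat_lit 405) (.e (nat_lit 57480) (nat_lit 28) (.e (nat_lit 557105) (nat_lit 14) (.e (nat_lit 180226) (nat_lit 0) (.e (nat_lit 5934) (nat_lit 322) .nil))))))) (.g (nat_lit 4) .nil .nil))) 
(.lf (nat_lit 163298) (.g (nat_lit 711) (.e (nat_lit 57448) (nat_lit 19) (.e (nat_lit 393298) (nat_lit 27) (.e (nat_lit 491571) (nat_lit 13) .nil))) .nil)))) (.nd (nat_lit 5) (.nd (nat_lit 6) 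
(.lf (nat_lit 163218) (.g (nat_lit 3661) (.e (nat_lit 57448) (nat_lit 19) (.e (nat_lit 393234) (nat_lit 17) (.e (nat_lit 7581) (nat_lit 405) (.e (nat_lit 57480) (nat_lit 28) (.e (nat_lit 557103) (nat_lit 14) (.e (nat_lit 180224) (nat_lit 0) (.e (nat_lit 5937) (nat_lit 322) .nil))))))) (.g (nat_lit 5) .nil .nil))) 
(.lf (nat_lit 163282) (.g (nat_lit 2837) (.e (nat_lit 57448) (nat_lit 19) (.e (nat_lit 393281) (nat_lit 23) (.e (nat_lit 426116) (nat_lit 2) (.e (nat_lit 196654) (nat_lit 11) (.e (nat_lit 16406) (nat_lit 1) (.e (nat_lit 164399) (nat_lit 256) .nil)))))) (.g (nat_lit 0) .nil .nil)))) (.nd (nat_lit 6) 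
(.lf (nat_lit 163250) (.g (nat_lit 1237) (.e (nat_lit 57448) (nat_lit 19) (.e (nat_lit 393234) (nat_lit 17) (.e (nat_lit 7591) (nat_lit 407) (.e (nat_lit 73776) (nat_lit 26) .nil)))) .nil)) 
(.lf (nat_lit 163314) (.g (nat_lit 2495) (.e (nat_lit 57448) (nat_lit 19) (.e (nat_lit 393301) (nat_lit 27) (.e (nat_lit 491526) (nat_lit 0) (.e (nat_lit 1848) (nat_lit 124) (.e (nat_lit 557103) (nat_lit 14) (.e (nat_lit 180224) (nat_lit 0) (.e (nat_lit 5941) (nat_lit 322) .nil))))))) (.g (nat_lit 4) .nil .nil)))))) (.nd (nat_lit 4) (.nd (nat_lit 5) (.nd (nat_lit 6) 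
(.lf (nat_lit 163210) (.g (nat_lit 2938) (.e (nat_lit 57448) (nat_lit 19) (.e (nat_lit 393234) (nat_lit 17) (.e (nat_lit 7581) (nat_lit 405) (.e (nat_lit 57479) (nat_lit 28) (.e (nat_lit 557101) (nat_lit 13) (.e (nat_lit 172070) (nat_lit 4) (.e (nat_lit 229707) (nat_lit 256) .nil))))))) (.g (nat_lit 5) .nil .nil))) 
(.lf (nat_lit 163274) (.g (nat_lit 2140) (.e (nat_lit 57448) (nat_lit 19) (.e (nat_lit 393281) (nat_lit 23) (.e (nat_lit 426116) (nat_lit 2) (.e (nat_lit 196654) (nat_lit 11) (.e (nat_lit 16389) (nat_lit 0) .nil))))) .nil))) (.nd (nat_lit 6) 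
(.lf (nat_lit 163242) (.g (nat_lit 1912) (.e (nat_lit 57448) (nat_lit 19) (.e (nat_lit 393234) (nat_lit 17) (.e (nat_lit 7583) (nat_lit 405) (.e (nat_lit 57476) (nat_lit 28) (.e (nat_lit 557103) (nat_lit 14) (.e (nat_lit 180224) (nat_lit 0) (.e (nat_lit 5942) (nat_lit 322) .nil))))))) (.g (nat_lit 4) .nil .nil))) 
(.lf (nat_lit 163306) (.g (nat_lit 771) (.e (nat_lit 57448) (nat_lit 19) (.e (nat_lit 393301) (nat_lit 27) (.e (nat_lit 491520) (nat_lit 0) .nil))) .nil)))) (.nd (nat_lit 5) (.nd (nat_lit 6) 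
(.lf (nat_lit 163226) (.g (nat_lit 3304) (.e (nat_lit 57448) (nat_lit 19) (.e (nat_lit 393234) (nat_lit 17) (.e (nat_lit 7581) (nat_lit 405) (.e (nat_lit 57480) (nat_lit 28) (.e (nat_lit 557104) (nat_lit 14) (.e (nat_lit 180224) (nat_lit 0) (.e (nat_lit 5942) (nat_lit 322) .nil))))))) (.g (nat_lit 4) .nil .nil))) 
(.lf (nat_lit 163290) (.g (nat_lit 2998) (.e (nat_lit 57448) (nat_lit 19) (.e (nat_lit 393281) (nat_lit 23) (.e (nat_lit 426133) (nat_lit 3) (.e (nat_lit 204809) (nat_lit 9) (.e (nat_lit 426098) (nat_lit 1) (.e (nat_lit 164399) (nat_lit 256) .nil)))))) (.g (nat_lit 0) .nil .nil)))) (.nd (nat_lit 6) 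
(.lf (nat_lit 163258) (.g (nat_lit 2353) (.e (nat_lit 57448) (nat_lit 19) (.e (nat_lit 393271) (nat_lit 23) (.e (nat_lit 426131) (nat_lit 3) (.e (nat_lit 212736) (nat_lit 10) .nil)))) .nil)) 
(.lf (nat_lit 163322) (.g (nat_lit 2770) (.e (nat_lit 57448) (nat_lit 19) (.e (nat_lit 393301) (nat_lit 27) (.e (nat_lit 491526) (nat_lit 0) (.e (nat_lit 1855) (nat_lit 124) (.e (nat_lit 557105) (nat_lit 14) (.e (nat_lit 180227) (nat_lit 0) (.e (nat_lit 5934) (nat_lit 322) .nil))))))) (.g (nat_lit 4) .nil .nil))))))) (.nd (nat_lit 3) (.nd (nat_lit 4) (.nd (nat_lit 5) (.nd (nat_lit 6) 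
(.lf (nat_lit 163206) (.g (nat_lit 2585) (.e (nat_lit 57448) (nat_lit 19) (.e (nat_lit 393234) (nat_lit 17) (.e (nat_lit 7581) (nat_lit 405) (.e (nat_lit 57477) (nat_lit 28) (.e (nat_lit 557104) (nat_lit 14) (.e (nat_lit 180227) (nat_lit 0) (.e (nat_lit 5934) (nat_lit 322) .nil))))))) (.g (nat_lit 5) .nil .nil))) 
(.lf (nat_lit 163270) (.g (nat_lit 912) (.e (nat_lit 57448) (nat_lit 19) (.e (nat_lit 393281) (nat_lit 23) (.e (nat_lit 426116) (nat_lit 2) (.e (nat_lit 196654) (nat_lit 11) .nil)))) .nil))) (.nd (nat_lit 6) 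
(.lf (nat_lit 163238) (.g (nat_lit 1305) (.e (nat_lit 57448) (nat_lit 19) (.e (nat_lit 393234) (nat_lit 17) (.e (nat_lit 7583) (nat_lit 405) (.e (nat_lit 57476) (nat_lit 28) (.e (nat_lit 557097) (nat_lit 13) .nil))))) .nil)) 
(.lf (nat_lit 163302) (.g (nat_lit 3139) (.e (nat_lit 57448) (nat_lit 19) (.e (nat_lit 393298) (nat_lit 27) (.e (nat_lit 491571) (nat_lit 13) (.e (nat_lit 393255) (nat_lit 19) .nil)))) .nil)))) (.nd (nat_lit 5) (.nd (nat_lit 6) 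
(.lf (nat_lit 163222) (.g (nat_lit 2339) (.e (nat_lit 57448) (nat_lit 19) (.e (nat_lit 393234) (nat_lit 17) (.e (nat_lit 7581) (nat_lit 405) (.e (nat_lit 57480) (nat_lit 28) (.e (nat_lit 557103) (nat_lit 14) (.e (nat_lit 180225) (nat_lit 0) (.e (nat_lit 5934) (nat_lit 322) .nil))))))) (.g (nat_lit 4) .nil .nil))) 
(.lf (nat_lit 163286) (.g (nat_lit 1707) (.e (nat_lit 57448) (nat_lit 19) (.e (nat_lit 393281) (nat_lit 23) (.e (nat_lit 426116) (nat_lit 2) (.e (nat_lit 196656) (nat_lit 11) (.e (nat_lit 16405) (nat_lit 1) .nil))))) .nil))) (.nd (nat_lit 6) 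
(.lf (nat_lit 163254) (.g (nat_lit 807) (.e (nat_lit 57448) (nat_lit 19) (.e (nat_lit 393251) (nat_lit 18) (.e (nat_lit 164325) (nat_lit 230) .nil))) .nil)) 
(.lf (nat_lit 163318) (.g (nat_lit 2822) (.e (nat_lit 57448) (nat_lit 19) (.e (nat_lit 393301) (nat_lit 27) (.e (nat_lit 491526) (nat_lit 0) (.e (nat_lit 1848) (nat_lit 124) (.e (nat_lit 557104) (nat_lit 14) (.e (nat_lit 180224) (nat_lit 0) (.e (nat_lit 5941) (nat_lit 322) .nil))))))) (.g (nat_lit 4) .nil .nil)))))) (.nd (nat_lit 4) (.nd (nat_lit 5) (.nd (nat_lit 6) 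
(.lf (nat_lit 163214) (.g (nat_lit 2620) (.e (nat_lit 57448) (nat_lit 19) (.e (nat_lit 393234) (nat_lit 17) (.e (nat_lit 7581) (nat_lit 405) (.e (nat_lit 57480) (nat_lit 28) (.e (nat_lit 557098) (nat_lit 13) (.e (nat_lit 172059) (nat_lit 1) (.e (nat_lit 164396) (nat_lit 256) .nil))))))) (.g (nat_lit 4) .nil .nil))) 
(.lf (nat_lit 163278) (.g (nat_lit 1707) (.e (nat_lit 57448) (nat_lit 19) (.e (nat_lit 393281) (nat_lit 23) (.e (nat_lit 426116) (nat_lit 2) (.e (nat_lit 196654) (nat_lit 11) (.e (nat_lit 16405) (nat_lit 1) .nil))))) .nil))) (.nd (nat_lit 6) 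
(.lf (nat_lit 163246) (.g (nat_lit 2578) (.e (nat_lit 57448) (nat_lit 19) (.e (nat_lit 393234) (nat_lit 17) (.e (nat_lit 7583) (nat_lit 405) (.e (nat_lit 57476) (nat_lit 28) (.e (nat_lit 557104) (nat_lit 14) (.e (nat_lit 180224) (nat_lit 0) (.e (nat_lit 5941) (nat_lit 322) .nil))))))) (.g (nat_lit 5) .nil .nil))) 
(.lf (nat_lit 163310) (.g (nat_lit 619) (.e (nat_lit 57448) (nat_lit 19) (.e (nat_lit 393301) (nat_lit 27) (.e (nat_lit 491526) (nat_lit 0) .nil))) .nil)))) (.nd (nat_lit 5) (.nd (nat_lit 6) 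
(.lf (nat_lit 163230) (.g (nat_lit 3164) (.e (nat_lit 57448) (nat_lit 19) (.e (nat_lit 393234) (nat_lit 17) (.e (nat_lit 7581) (nat_lit 405) (.e (nat_lit 57480) (nat_lit 28) (.e (nat_lit 557105) (nat_lit 14) (.e (nat_lit 180224) (nat_lit 0) (.e (nat_lit 5940) (nat_lit 322) .nil))))))) (.g (nat_lit 5) .nil .nil))) 
(.lf (nat_lit 163294) (.g (nat_lit 2424) (.e (nat_lit 57448) (nat_lit 19) (.e (nat_lit 393281) (nat_lit 23) (.e (nat_lit 426133) (nat_lit 3) (.e (nat_lit 204813) (nat_lit 9) (.e (nat_lit 433920) (nat_lit 1) .nil))))) .nil))) (.nd (nat_lit 6) 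
(.lf (nat_lit 163262) (.g (nat_lit 1346) (.e (nat_lit 57448) (nat_lit 19) (.e (nat_lit 393281) (nat_lit 23) (.e (nat_lit 426115) (nat_lit 2) (.e (nat_lit 196654) (nat_lit 11) (.e (nat_lit 16391) (nat_lit 0) .nil))))) .nil)) 
(.lf (nat_lit 163326) (.g (nat_lit 2595) (.e (nat_lit 57448) (nat_lit 19) (.e (nat_lit 393301) (nat_lit 27) (.e (nat_lit 491538) (nat_lit 3) (.e (nat_lit 98342) (nat_lit 20) (.e (nat_lit 221208) (nat_lit 21) (.e (nat_lit 171776) (nat_lit 211) .nil)))))) (.g (nat_lit 4) .nil .nil))))))))) (.nd (nat_lit 1) (.nd (nat_lit 2) (.nd (nat_lit 3) (.nd (nat_lit 4) (.nd (nat_lit 5) (.nd (nat_lit 6) 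
(.lf (nat_lit 163201) (.g (nat_lit 2591) (.e (nat_lit 57448) (nat_lit 19) (.e (nat_lit 393234) (nat_lit 17) (.e (nat_lit 7581) (nat_lit 405) (.e (nat_lit 57477) (nat_lit 28) (.e (nat_lit 557103) (nat_lit 14) (.e (nat_lit 180224) (nat_lit 0) (.e (nat_lit 5942) (nat_lit 322) .nil))))))) (.g (nat_lit 4) .nil .nil))) 
(.lf (nat_lit 163265) (.g (nat_lit 2298) (.e (nat_lit 57448) (nat_lit 19) (.e (nat_lit 393281) (nat_lit 23) (.e (nat_lit 426115) (nat_lit 2) (.e (nat_lit 196654) (nat_lit 11) (.e (nat_lit 16405) (nat_lit 1) (.e (nat_lit 164399) (nat_lit 256) .nil)))))) (.g (nat_lit 0) .nil .nil)))) (.nd (nat_lit 6) 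
(.lf (nat_lit 163233) (.g (nat_lit 2517) (.e (nat_lit 57448) (nat_lit 19) (.e (nat_lit 393234) (nat_lit 17) (.e (nat_lit 7581) (nat_lit 405) (.e (nat_lit 57480) (nat_lit 28) (.e (nat_lit 557105) (nat_lit 14) (.e (nat_lit 180224) (nat_lit 0) (.e (nat_lit 5943) (nat_lit 322) .nil))))))) (.g (nat_lit 4) .nil .nil))) 
(.lf (nat_lit 163297) (.g (nat_lit 1667) (.e (nat_lit 57448) (nat_lit 19) (.e (nat_lit 393298) (nat_lit 27) (.e (nat_lit 491570) (nat_lit 13) (.e (nat_lit 393238) (nat_lit 17) .nil)))) .nil)))) (.nd (nat_lit 5) (.nd (nat_lit 6) 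
(.lf (nat_lit 163217) (.g (nat_lit 2722) (.e (nat_lit 57448) (nat_lit 19) (.e (nat_lit 393234) (nat_lit 17) (.e (nat_lit 7581) (nat_lit 405) (.e (nat_lit 57480) (nat_lit 28) (.e (nat_lit 557098) (nat_lit 13) (.e (nat_lit 172068) (nat_lit 4) (.e (nat_lit 229707) (nat_lit 256) .nil))))))) (.g (nat_lit 4) .nil .nil))) 
(.lf (nat_lit 163281) (.g (nat_lit 3091) (.e (nat_lit 57448) (nat_lit 19) (.e (nat_lit 393281) (nat_lit 23) (.e (nat_lit 426116) (nat_lit 2) (.e (nat_lit 196654) (nat_lit 11) (.e (nat_lit 16406) (nat_lit 1) (.e (nat_lit 164398) (nat_lit 256) .nil)))))) (.g (nat_lit 0) .nil .nil)))) (.nd (nat_lit 6) 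
(.lf (nat_lit 163249) (.g (nat_lit 1780) (.e (nat_lit 57448) (nat_lit 19) (.e (nat_lit 393234) (nat_lit 17) (.e (nat_lit 7583) (nat_lit 405) (.e (nat_lit 57476) (nat_lit 28) (.e (nat_lit 557104) (nat_lit 14) (.e (nat_lit 188160) (nat_lit 0) (.e (nat_lit 5939) (nat_lit 322) .nil))))))) (.g (nat_lit 4) .nil .nil))) 
(.lf (nat_lit 163313) (.g (nat_lit 3871) (.e (nat_lit 57448) (nat_lit 19) (.e (nat_lit 393301) (nat_lit 27) (.e (nat_lit 491526) (nat_lit 0) (.e (nat_lit 1848) (nat_lit 124) (.e (nat_lit 557103) (nat_lit 14) (.e (nat_lit 180224) (nat_lit 0) (.e (nat_lit 5937) (nat_lit 322) .nil))))))) (.g (nat_lit 5) .nil .nil)))))) (.nd (nat_lit 4) (.nd (nat_lit 5) (.nd (nat_lit 6) 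
(.lf (nat_lit 163209) (.g (nat_lit 1697) (.e (nat_lit 57448) (nat_lit 19) (.e (nat_lit 393234) (nat_lit 17) (.e (nat_lit 7581) (nat_lit 405) (.e (nat_lit 57479) (nat_lit 28) (.e (nat_lit 557101) (nat_lit 13) .nil))))) .nil)) 
(.lf (nat_lit 163273) (.g (nat_lit 1994) (.e (nat_lit 57448) (nat_lit 19) (.e (nat_lit 393281) (nat_lit 23) (.e (nat_lit 426116) (nat_lit 2) (.e (nat_lit 196654) (nat_lit 11) (.e (nat_lit 16388) (nat_lit 0) .nil))))) .nil))) (.nd (nat_lit 6) 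
(.lf (nat_lit 163241) (.g (nat_lit 1857) (.e (nat_lit 57448) (nat_lit 19) (.e (nat_lit 393234) (nat_lit 17) (.e (nat_lit 7583) (nat_lit 405) (.e (nat_lit 57476) (nat_lit 28) (.e (nat_lit 557103) (nat_lit 14) (.e (nat_lit 180224) (nat_lit 0) (.e (nat_lit 5941) (nat_lit 322) .nil))))))) (.g (nat_lit 4) .nil .nil))) 
(.lf (nat_lit 163305) (.g (nat_lit 2087) (.e (nat_lit 57448) (nat_lit 19) (.e (nat_lit 393300) (nat_lit 27) (.e (nat_lit 491570) (nat_lit 13) (.e (nat_lit 393253) (nat_lit 18) .nil)))) .nil)))) (.nd (nat_lit 5) (.nd (nat_lit 6) 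
(.lf (nat_lit 163225) (.g (nat_lit 3249) (.e (nat_lit 57448) (nat_lit 19) (.e (nat_lit 393234) (nat_lit 17) (.e (nat_lit 7581) (nat_lit 405) (.e (nat_lit 57480) (nat_lit 28) (.e (nat_lit 557104) (nat_lit 14) (.e (nat_lit 180224) (nat_lit 0) (.e (nat_lit 5941) (nat_lit 322) .nil))))))) (.g (nat_lit 4) .nil .nil))) 
(.lf (nat_lit 163289) (.g (nat_lit 2189) (.e (nat_lit 57448) (nat_lit 19) (.e (nat_lit 393281) (nat_lit 23) (.e (nat_lit 426124) (nat_lit 2) (.e (nat_lit 196656) (nat_lit 11) (.e (nat_lit 16406) (nat_lit 1) .nil))))) .nil))) (.nd (nat_lit 6) 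
(.lf (nat_lit 163257) (.g (nat_lit 1257) (.e (nat_lit 57448) (nat_lit 19) (.e (nat_lit 393271) (nat_lit 23) (.e (nat_lit 426131) (nat_lit 3) .nil))) .nil)) 
(.lf (nat_lit 163321) (.g (nat_lit 2929) (.e (nat_lit 57448) (nat_lit 19) (.e (nat_lit 393301) (nat_lit 27) (.e (nat_lit 491526) (nat_lit 0) (.e (nat_lit 1855) (nat_lit 124) (.e (nat_lit 557100) (nat_lit 13) (.e (nat_lit 179968) (nat_lit 1) (.e (nat_lit 164399) (nat_lit 256) .nil))))))) (.g (nat_lit 4) .nil .nil))))))) (.nd (nat_lit 3) (.nd (nat_lit 4) (.nd (nat_lit 5) (.nd (nat_lit 6) 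
(.lf (nat_lit 163205) (.g (nat_lit 3159) (.e (nat_lit 57448) (nat_lit 19) (.e (nat_lit 393234) (nat_lit 17) (.e (nat_lit 7581) (nat_lit 405) (.e (nat_lit 57477) (nat_lit 28) (.e (nat_lit 557104) (nat_lit 14) (.e (nat_lit 180224) (nat_lit 0) (.e (nat_lit 5942) (nat_lit 322) .nil))))))) (.g (nat_lit 5) .nil .nil))) 
(.lf (nat_lit 163269) (.g (nat_lit 2046) (.e (nat_lit 57448) (nat_lit 19) (.e (nat_lit 393281) (nat_lit 23) (.e (nat_lit 426116) (nat_lit 2) (.e (nat_lit 196624) (nat_lit 9) (.e (nat_lit 473) (nat_lit 36) .nil))))) .nil))) (.nd (nat_lit 6) 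
(.lf (nat_lit 163237) (.g (nat_lit 1264) (.e (nat_lit 57448) (nat_lit 19) (.e (nat_lit 393234) (nat_lit 17) (.e (nat_lit 7583) (nat_lit 405) (.e (nat_lit 57476) (nat_lit 28) (.e (nat_lit 557074) (nat_lit 9) .nil))))) .nil)) 
(.lf (nat_lit 163301) (.g (nat_lit 3718) (.e (nat_lit 57448) (nat_lit 19) (.e (nat_lit 393298) (nat_lit 27) (.e (nat_lit 491571) (nat_lit 13) (.e (nat_lit 393252) (nat_lit 18) (.e (nat_lit 171776) (nat_lit 262) .nil))))) (.g (nat_lit 4) .nil .nil))))) (.nd (nat_lit 5) (.nd (nat_lit 6) 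
(.lf (nat_lit 163221) (.g (nat_lit 3074) (.e (nat_lit 57448) (nat_lit 19) (.e (nat_lit 393234) (nat_lit 17) (.e (nat_lit 7581) (nat_lit 405) (.e (nat_lit 57480) (nat_lit 28) (.e (nat_lit 557103) (nat_lit 14) (.e (nat_lit 180224) (nat_lit 0) (.e (nat_lit 5942) (nat_lit 322) .nil))))))) (.g (nat_lit 5) .nil .nil))) 
(.lf (nat_lit 163285) (.g (nat_lit 1980) (.e (nat_lit 57448) (nat_lit 19) (.e (nat_lit 393281) (nat_lit 23) (.e (nat_lit 426116) (nat_lit 2) (.e (nat_lit 196656) (nat_lit 11) (.e (nat_lit 16392) (nat_lit 0) (.e (nat_lit 2397) (nat_lit 157) (.e (nat_lit 5941) (nat_lit 322) .nil))))))) (.g (nat_lit 4) .nil .nil)))) (.nd (nat_lit 6) 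
(.lf (nat_lit 163253) (.g (nat_lit 1248) (.e (nat_lit 57448) (nat_lit 19) (.e (nat_lit 393251) (nat_lit 18) (.e (nat_lit 164319) (nat_lit 228) .nil))) .nil)) 
(.lf (nat_lit 163317) (.g (nat_lit 1883) (.e (nat_lit 57448) (nat_lit 19) (.e (nat_lit 393301) (nat_lit 27) (.e (nat_lit 491526) (nat_lit 0) (.e (nat_lit 1848) (nat_lit 124) (.e (nat_lit 557104) (nat_lit 14) .nil))))) .nil))))) (.nd (nat_lit 4) (.nd (nat_lit 5) (.nd (nat_lit 6) 
(.lf (nat_lit 163213) (.g (nat_lit 1288) (.e (nat_lit 57448) (nat_lit 19) (.e (nat_lit 393234) (nat_lit 17) (.e (nat_lit 7581) (nat_lit 405) (.e (nat_lit 57480) (nat_lit 28) .nil)))) .nil)) 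
(.lf (nat_lit 163277) (.g (nat_lit 2128) (.e (nat_lit 57448) (nat_lit 19) (.e (nat_lit 393281) (nat_lit 23) (.e (nat_lit 426116) (nat_lit 2) (.e (nat_lit 196654) (nat_lit 11) (.e (nat_lit 16395) (nat_lit 0) .nil))))) .nil))) (.nd (nat_lit 6) 
(.lf (nat_lit 163245) (.g (nat_lit 2723) (.e (nat_lit 57448) (nat_lit 19) (.e (nat_lit 393234) (nat_lit 17) (.e (nat_lit 7583) (nat_lit 405) (.e (nat_lit 57476) (nat_lit 28) (.e (nat_lit 557104) (nat_lit 14) (.e (nat_lit 180224) (nat_lit 0) (.e (nat_lit 5939) (nat_lit 322) .nil))))))) (.g (nat_lit 5) .nil .nil))) 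
(.lf (nat_lit 163309) (.g (nat_lit 1882) (.e (nat_lit 57448) (nat_lit 19) (.e (nat_lit 393301) (nat_lit 27) (.e (nat_lit 491525) (nat_lit 0) (.e (nat_lit 1855) (nat_lit 124) (.e (nat_lit 557100) (nat_lit 13) .nil))))) .nil)))) (.nd (nat_lit 5) (.nd (nat_lit 6) 
(.lf (nat_lit 163229) (.g (nat_lit 2617) (.e (nat_lit 57448) (nat_lit 19) (.e (nat_lit 393234) (nat_lit 17) (.e (nat_lit 7581) (nat_lit 405) (.e (nat_lit 57480) (nat_lit 28) (.e (nat_lit 557105) (nat_lit 14) (.e (nat_lit 180224) (nat_lit 0) (.e (nat_lit 5936) (nat_lit 322) .nil))))))) (.g (nat_lit 4) .nil .nil))) 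
(.lf (nat_lit 163293) (.g (nat_lit 1836) (.e (nat_lit 57448) (nat_lit 19) (.e (nat_lit 393281) (nat_lit 23) (.e (nat_lit 426133) (nat_lit 3) (.e (nat_lit 204812) (nat_lit 9) .nil)))) .nil))) (.nd (nat_lit 6) 
(.lf (nat_lit 163261) (.g (nat_lit 1348) (.e (nat_lit 57448) (nat_lit 19) (.e (nat_lit 393281) (nat_lit 23) (.e (nat_lit 426115) (nat_lit 2) (.e (nat_lit 196654) (nat_lit 11) (.e (nat_lit 16389) (nat_lit 0) .nil))))) .nil)) 
(.lf (nat_lit 163325) (.g (nat_lit 2740) (.e (nat_lit 57448) (nat_lit 19) (.e (nat_lit 393301) (nat_lit 27) (.e (nat_lit 491538) (nat_lit 3) (.e (nat_lit 98342) (nat_lit 20) (.e (nat_lit 221207) (nat_lit 21) (.e (nat_lit 171776) (nat_lit 211) .nil)))))) (.g (nat_lit 4) .nil .nil)))))))) (.nd (nat_lit 2) (.nd (nat_lit 3) (.nd (nat_lit 4) (.nd (nat_lit 5) (.nd (nat_lit 6) 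
(.lf (nat_lit 163203) (.g (nat_lit 3196) (.e (nat_lit 57448) (nat_lit 19) (.e (nat_lit 393234) (nat_lit 17) (.e (nat_lit 7581) (nat_lit 405) (.e (nat_lit 57477) (nat_lit 28) (.e (nat_lit 557104) (nat_lit 14) (.e (nat_lit 180224) (nat_lit 0) (.e (nat_lit 5939) (nat_lit 322) .nil))))))) (.g (nat_lit 5) .nil .nil))) 
(.lf (nat_lit 163267) (.g (nat_lit 2286) (.e (nat_lit 57448) (nat_lit 19) (.e (nat_lit 393281) (nat_lit 23) (.e (nat_lit 426115) (nat_lit 2) (.e (nat_lit 196654) (nat_lit 11) (.e (nat_lit 16406) (nat_lit 1) (.e (nat_lit 164399) (nat_lit 256) .nil)))))) (.g (nat_lit 0) .nil .nil)))) (.nd (nat_lit 6) 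
(.lf (nat_lit 163235) (.g (nat_lit 3656) (.e (nat_lit 57448) (nat_lit 19) (.e (nat_lit 393234) (nat_lit 17) (.e (nat_lit 7581) (nat_lit 405) (.e (nat_lit 57480) (nat_lit 28) (.e (nat_lit 557105) (nat_lit 14) (.e (nat_lit 180227) (nat_lit 0) (.e (nat_lit 5934) (nat_lit 322) .nil))))))) (.g (nat_lit 6) .nil .nil))) 
(.lf (nat_lit 163299) (.g (nat_lit 1994) (.e (nat_lit 57448) (nat_lit 19) (.e (nat_lit 393298) (nat_lit 27) (.e (nat_lit 491571) (nat_lit 13) (.e (nat_lit 393238) (nat_lit 17) .nil)))) .nil)))) (.nd (nat_lit 5) (.nd (nat_lit 6) 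
(.lf (nat_lit 163219) (.g (nat_lit 2690) (.e (nat_lit 57448) (nat_lit 19) (.e (nat_lit 393234) (nat_lit 17) (.e (nat_lit 7581) (nat_lit 405) (.e (nat_lit 57480) (nat_lit 28) (.e (nat_lit 557103) (nat_lit 14) (.e (nat_lit 180224) (nat_lit 0) (.e (nat_lit 5940) (nat_lit 322) .nil))))))) (.g (nat_lit 4) .nil .nil))) 
(.lf (nat_lit 163283) (.g (nat_lit 2395) (.e (nat_lit 57448) (nat_lit 19) (.e (nat_lit 393281) (nat_lit 23) (.e (nat_lit 426116) (nat_lit 2) (.e (nat_lit 196654) (nat_lit 11) (.e (nat_lit 16406) (nat_lit 1) (.e (nat_lit 164400) (nat_lit 256) .nil)))))) (.g (nat_lit 4) .nil .nil)))) (.nd (nat_lit 6) 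
(.lf (nat_lit 163251) (.g (nat_lit 1224) (.e (nat_lit 57448) (nat_lit 19) (.e (nat_lit 393234) (nat_lit 17) (.e (nat_lit 7591) (nat_lit 407) (.e (nat_lit 81664) (nat_lit 28) .nil)))) .nil)) 
(.lf (nat_lit 163315) (.g (nat_lit 2551) (.e (nat_lit 57448) (nat_lit 19) (.e (nat_lit 393301) (nat_lit 27) (.e (nat_lit 491526) (nat_lit 0) (.e (nat_lit 1848) (nat_lit 124) (.e (nat_lit 557103) (nat_lit 14) (.e (nat_lit 180224) (nat_lit 0) (.e (nat_lit 5942) (nat_lit 322) .nil))))))) (.g (nat_lit 4) .nil .nil)))))) (.nd (nat_lit 4) (.nd (nat_lit 5) (.nd (nat_lit 6) 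
(.lf (nat_lit 163211) (.g (nat_lit 2771) (.e (nat_lit 57448) (nat_lit 19) (.e (nat_lit 393234) (nat_lit 17) (.e (nat_lit 7581) (nat_lit 405) (.e (nat_lit 57479) (nat_lit 28) (.e (nat_lit 557105) (nat_lit 14) (.e (nat_lit 180224) (nat_lit 0) (.e (nat_lit 5941) (nat_lit 322) .nil))))))) (.g (nat_lit 4) .nil .nil))) 
(.lf (nat_lit 163275) (.g (nat_lit 2148) (.e (nat_lit 57448) (nat_lit 19) (.e (nat_lit 393281) (nat_lit 23) (.e (nat_lit 426116) (nat_lit 2) (.e (nat_lit 196654) (nat_lit 11) (.e (nat_lit 16391) (nat_lit 0) .nil))))) .nil))) (.nd (nat_lit 6) 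
(.lf (nat_lit 163243) (.g (nat_lit 2953) (.e (nat_lit 57448) (nat_lit 19) (.e (nat_lit 393234) (nat_lit 17) (.e (nat_lit 7583) (nat_lit 405) (.e (nat_lit 57476) (nat_lit 28) (.e (nat_lit 557103) (nat_lit 14) (.e (nat_lit 188160) (nat_lit 0) (.e (nat_lit 5937) (nat_lit 322) .nil))))))) (.g (nat_lit 5) .nil .nil))) 
(.lf (nat_lit 163307) (.g (nat_lit 1095) (.e (nat_lit 57448) (nat_lit 19) (.e (nat_lit 393301) (nat_lit 27) (.e (nat_lit 491520) (nat_lit 0) (.e (nat_lit 1859) (nat_lit 124) .nil)))) .nil)))) (.nd (nat_lit 5) (.nd (nat_lit 6) 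
(.lf (nat_lit 163227) (.g (nat_lit 3268) (.e (nat_lit 57448) (nat_lit 19) (.e (nat_lit 393234) (nat_lit 17) (.e (nat_lit 7581) (nat_lit 405) (.e (nat_lit 57480) (nat_lit 28) (.e (nat_lit 557104) (nat_lit 14) (.e (nat_lit 188160) (nat_lit 0) (.e (nat_lit 5937) (nat_lit 322) .nil))))))) (.g (nat_lit 4) .nil .nil))) 
(.lf (nat_lit 163291) (.g (nat_lit 3409) (.e (nat_lit 57448) (nat_lit 19) (.e (nat_lit 393281) (nat_lit 23) (.e (nat_lit 426133) (nat_lit 3) (.e (nat_lit 204809) (nat_lit 9) (.e (nat_lit 426100) (nat_lit 1) (.e (nat_lit 164398) (nat_lit 256) .nil)))))) (.g (nat_lit 0) .nil .nil)))) (.nd (nat_lit 6) 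
(.lf (nat_lit 163259) (.g (nat_lit 363) (.e (nat_lit 57448) (nat_lit 19) (.e (nat_lit 393281) (nat_lit 23) (.e (nat_lit 426115) (nat_lit 2) .nil))) .nil)) 
(.lf (nat_lit 163323) (.g (nat_lit 1662) (.e (nat_lit 57448) (nat_lit 19) (.e (nat_lit 393301) (nat_lit 27) (.e (nat_lit 491526) (nat_lit 0) (.e (nat_lit 1857) (nat_lit 124) .nil)))) .nil)))))) (.nd (nat_lit 3) (.nd (nat_lit 4) (.nd (nat_lit 5) (.nd (nat_lit 6) 
(.lf (nat_lit 163207) (.g (nat_lit 2550) (.e (nat_lit 57448) (nat_lit 19) (.e (nat_lit 393234) (nat_lit 17) (.e (nat_lit 7581) (nat_lit 405) (.e (nat_lit 57477) (nat_lit 28) (.e (nat_lit 557104) (nat_lit 14) (.e (nat_lit 188160) (nat_lit 0) (.e (nat_lit 5936) (nat_lit 322) .nil))))))) (.g (nat_lit 4) .nil .nil))) 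
(.lf (nat_lit 163271) (.g (nat_lit 2195) (.e (nat_lit 57448) (nat_lit 19) (.e (nat_lit 393281) (nat_lit 23) (.e (nat_lit 426116) (nat_lit 2) (.e (nat_lit 196654) (nat_lit 11) (.e (nat_lit 16385) (nat_lit 0) (.e (nat_lit 2466) (nat_lit 157) (.e (nat_lit 5937) (nat_lit 322) .nil))))))) (.g (nat_lit 4) .nil .nil)))) (.nd (nat_lit 6) 
(.lf (nat_lit 163239) (.g (nat_lit 1936) (.e (nat_lit 57448) (nat_lit 19) (.e (nat_lit 393234) (nat_lit 17) (.e (nat_lit 7583) (nat_lit 405) (.e (nat_lit 57476) (nat_lit 28) (.e (nat_lit 557097) (nat_lit 13) (.e (nat_lit 172070) (nat_lit 4) (.e (nat_lit 229707) (nat_lit 256) .nil))))))) (.g (nat_lit 4) .nil .nil))) 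
(.lf (nat_lit 163303) (.g (nat_lit 2830) (.e (nat_lit 57448) (nat_lit 19) (.e (nat_lit 393298) (nat_lit 27) (.e (nat_lit 491571) (nat_lit 13) (.e (nat_lit 393256) (nat_lit 19) .nil)))) .nil)))) (.nd (nat_lit 5) (.nd (nat_lit 6) 
(.lf (nat_lit 163223) (.g (nat_lit 2615) (.e (nat_lit 57448) (nat_lit 19) (.e (nat_lit 393234) (nat_lit 17) (.e (nat_lit 7581) (nat_lit 405) (.e (nat_lit 57480) (nat_lit 28) (.e (nat_lit 557103) (nat_lit 14) (.e (nat_lit 188160) (nat_lit 0) (.e (nat_lit 5936) (nat_lit 322) .nil))))))) (.g (nat_lit 4) .nil .nil))) 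
(.lf (nat_lit 163287) (.g (nat_lit 1721) (.e (nat_lit 57448) (nat_lit 19) (.e (nat_lit 393281) (nat_lit 23) (.e (nat_lit 426116) (nat_lit 2) (.e (nat_lit 196656) (nat_lit 11) (.e (nat_lit 16406) (nat_lit 1) .nil))))) .nil))) (.nd (nat_lit 6) 
(.lf (nat_lit 163255) (.g (nat_lit 3630) (.e (nat_lit 57448) (nat_lit 19) (.e (nat_lit 393251) (nat_lit 18) (.e (nat_lit 164325) (nat_lit 230) (.e (nat_lit 163861) (nat_lit 1) (.e (nat_lit 164332) (nat_lit 230) (.e (nat_lit 163884) (nat_lit 5) (.e (nat_lit 229120) (nat_lit 1) (.e (nat_lit 57849) (nat_lit 252) .nil)))))))) (.g (nat_lit 5) .nil .nil))) 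
(.lf (nat_lit 163319) (.g (nat_lit 1606) (.e (nat_lit 57448) (nat_lit 19) (.e (nat_lit 393301) (nat_lit 27) (.e (nat_lit 491526) (nat_lit 0) (.e (nat_lit 1855) (nat_lit 124) .nil)))) .nil))))) (.nd (nat_lit 4) (.nd (nat_lit 5) (.nd (nat_lit 6) 
(.lf (nat_lit 163215) (.g (nat_lit 2708) (.e (nat_lit 57448) (nat_lit 19) (.e (nat_lit 393234) (nat_lit 17) (.e (nat_lit 7581) (nat_lit 405) (.e (nat_lit 57480) (nat_lit 28) (.e (nat_lit 557098) (nat_lit 13) (.e (nat_lit 172059) (nat_lit 1) (.e (nat_lit 164397) (nat_lit 256) .nil))))))) (.g (nat_lit 4) .nil .nil))) 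
(.lf (nat_lit 163279) (.g (nat_lit 2852) (.e (nat_lit 57448) (nat_lit 19) (.e (nat_lit 393281) (nat_lit 23) (.e (nat_lit 426116) (nat_lit 2) (.e (nat_lit 196654) (nat_lit 11) (.e (nat_lit 16405) (nat_lit 1) (.e (nat_lit 164399) (nat_lit 256) .nil)))))) (.g (nat_lit 0) .nil .nil)))) (.nd (nat_lit 6) 
(.lf (nat_lit 163247) (.g (nat_lit 2633) (.e (nat_lit 57448) (nat_lit 19) (.e (nat_lit 393234) (nat_lit 17) (.e (nat_lit 7583) (nat_lit 405) (.e (nat_lit 57476) (nat_lit 28) (.e (nat_lit 557104) (nat_lit 14) (.e (nat_lit 180224) (nat_lit 0) (.e (nat_lit 5942) (nat_lit 322) .nil))))))) (.g (nat_lit 5) .nil .nil))) 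
(.lf (nat_lit 163311) (.g (nat_lit 1502) (.e (nat_lit 57448) (nat_lit 19) (.e (nat_lit 393301) (nat_lit 27) (.e (nat_lit 491526) (nat_lit 0) (.e (nat_lit 1848) (nat_lit 124) .nil)))) .nil)))) (.nd (nat_lit 5) (.nd (nat_lit 6) 
(.lf (nat_lit 163231) (.g (nat_lit 3493) (.e (nat_lit 57448) (nat_lit 19) (.e (nat_lit 393234) (nat_lit 17) (.e (nat_lit 7581) (nat_lit 405) (.e (nat_lit 57480) (nat_lit 28) (.e (nat_lit 557105) (nat_lit 14) (.e (nat_lit 180224) (nat_lit 0) (.e (nat_lit 5941) (nat_lit 322) .nil))))))) (.g (nat_lit 5) .nil .nil))) 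
(.lf (nat_lit 163295) (.g (nat_lit 1841) (.e (nat_lit 57448) (nat_lit 19) (.e (nat_lit 393283) (nat_lit 24) (.e (nat_lit 434231) (nat_lit 23) (.e (nat_lit 532579) (nat_lit 26) (.e (nat_lit 426098) (nat_lit 1) .nil))))) .nil))) (.nd (nat_lit 6) 
(.lf (nat_lit 163263) (.g (nat_lit 1353) (.e (nat_lit 57448) (nat_lit 19) (.e (nat_lit 393281) (nat_lit 23) (.e (nat_lit 426115) (nat_lit 2) (.e (nat_lit 196654) (nat_lit 11) (.e (nat_lit 16394) (nat_lit 0) .nil))))) .nil)) 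
(.lf (nat_lit 163327) (.g (nat_lit 2049) (.e (nat_lit 57448) (nat_lit 19) (.e (nat_lit 393301) (nat_lit 27) (.e (nat_lit 491547) (nat_lit 9) (.e (nat_lit 336425) (nat_lit 28) .nil)))) .nil)))))))))

noncomputable def tv2191 : DT := (.nd (nat_lit 0) (.nd (nat_lit 1) (.nd (nat_lit 2) (.nd (nat_lit 3) (.nd (nat_lit 4) (.nd (nat_lit 5) (.nd (nat_lit 6) 
(.lf (nat_lit 163328) (.g (nat_lit 525) (.e (nat_lit 57448) (nat_lit 19) (.e (nat_lit 393301) (nat_lit 27) (.e (nat_lit 491552) (nat_lit 9) .nil))) .nil)) 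
(.lf (nat_lit 163392) (.g (nat_lit 2777) (.e (nat_lit 57449) (nat_lit 20) (.e (nat_lit 401454) (nat_lit 12) (.e (nat_lit 475198) (nat_lit 40) (.e (nat_lit 704599) (nat_lit 6) (.e (nat_lit 188455) (nat_lit 24) (.e (nat_lit 229708) (nat_lit 256) .nil)))))) (.g (nat_lit 6) .nil .nil)))) (.nd (nat_lit 6) 
(.lf (nat_lit 163360) (.g (nat_lit 2749) (.e (nat_lit 57448) (nat_lit 19) (.e (nat_lit 393301) (nat_lit 27) (.e (nat_lit 491560) (nat_lit 10) (.e (nat_lit 344179) (nat_lit 44) (.e (nat_lit 778455) (nat_lit 10) .nil))))) .nil)) 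
(.lf (nat_lit 163424) (.g (nat_lit 2857) (.e (nat_lit 57449) (nat_lit 20) (.e (nat_lit 401456) (nat_lit 13) (.e (nat_lit 483413) (nat_lit 27) (.e (nat_lit 401447) (nat_lit 10) (.e (nat_lit 434203) (nat_lit 18) .nil))))) .nil)))) (.nd (nat_lit 5) (.nd (nat_lit 6) 
(.lf (nat_lit 163344) (.g (nat_lit 4042) (.e (nat_lit 57448) (nat_lit 19) (.e (nat_lit 393301) (nat_lit 27) (.e (nat_lit 491559) (nat_lit 10) (.e (nat_lit 344091) (nat_lit 18) (.e (nat_lit 7261) (nat_lit 384) (.e (nat_lit 57364) (nat_lit 1) (.e (nat_lit 65280) (nat_lit 217) .nil))))))) (.g (nat_lit 5) .nil .nil))) 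
(.lf (nat_lit 163408) (.g (nat_lit 1647) (.e (nat_lit 57449) (nat_lit 20) (.e (nat_lit 401454) (nat_lit 12) (.e (nat_lit 475209) (nat_lit 41) (.e (nat_lit 712753) (nat_lit 30) (.e (nat_lit 450569) (nat_lit 0) .nil))))) .nil))) (.nd (nat_lit 6) 
(.lf (nat_lit 163376) (.g (nat_lit 1405) (.e (nat_lit 65280) (nat_lit 19) (.e (nat_lit 393229) (nat_lit 9) (.e (nat_lit 336087) (nat_lit 9) (.e (nat_lit 336019) (nat_lit 3) (.e (nat_lit 98335) (nat_lit 18) .nil))))) .nil)) 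
(.lf (nat_lit 163440) (.g (nat_lit 1013) (.e (nat_lit 57449) (nat_lit 20) (.e (nat_lit 401459) (nat_lit 13) (.e (nat_lit 483344) (nat_lit 17) .nil))) .nil))))) (.nd (nat_lit 4) (.nd (nat_lit 5) (.nd (nat_lit 6) 
(.lf (nat_lit 163336) (.g (nat_lit 3478) (.e (nat_lit 57448) (nat_lit 19) (.e (nat_lit 393301) (nat_lit 27) (.e (nat_lit 491558) (nat_lit 10) (.e (nat_lit 344095) (nat_lit 18) (.e (nat_lit 7261) (nat_lit 384) (.e (nat_lit 57364) (nat_lit 1) (.e (nat_lit 65280) (nat_lit 217) .nil))))))) (.g (nat_lit 5) .nil .nil))) 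
(.lf (nat_lit 163400) (.g (nat_lit 1693) (.e (nat_lit 57449) (nat_lit 20) (.e (nat_lit 401454) (nat_lit 12) (.e (nat_lit 475207) (nat_lit 41) (.e (nat_lit 712755) (nat_lit 30) (.e (nat_lit 450569) (nat_lit 0) (.e (nat_lit 5947) (nat_lit 322) .nil)))))) (.g (nat_lit 4) .nil .nil)))) (.nd (nat_lit 6) 
(.lf (nat_lit 163368) (.g (nat_lit 3321) (.e (nat_lit 57448) (nat_lit 19) (.e (nat_lit 393301) (nat_lit 27) (.e (nat_lit 491568) (nat_lit 13) (.e (nat_lit 393251) (nat_lit 18) (.e (nat_lit 171776) (nat_lit 262) .nil))))) (.g (nat_lit 4) .nil .nil))) 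
(.lf (nat_lit 163432) (.g (nat_lit 3311) (.e (nat_lit 57449) (nat_lit 20) (.e (nat_lit 401457) (nat_lit 13) (.e (nat_lit 483413) (nat_lit 27) (.e (nat_lit 401446) (nat_lit 10) (.e (nat_lit 434208) (nat_lit 18) (.e (nat_lit 6063) (nat_lit 328) .nil)))))) (.g (nat_lit 6) .nil .nil))))) (.nd (nat_lit 5) (.nd (nat_lit 6) 
(.lf (nat_lit 163352) (.g (nat_lit 2619) (.e (nat_lit 57448) (nat_lit 19) (.e (nat_lit 393301) (nat_lit 27) (.e (nat_lit 491560) (nat_lit 10) (.e (nat_lit 344088) (nat_lit 18) .nil)))) .nil)) 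
(.lf (nat_lit 163416) (.g (nat_lit 1947) (.e (nat_lit 57449) (nat_lit 20) (.e (nat_lit 401454) (nat_lit 12) (.e (nat_lit 475210) (nat_lit 41) (.e (nat_lit 712753) (nat_lit 30) (.e (nat_lit 458496) (nat_lit 0) .nil))))) .nil))) (.nd (nat_lit 6) 
(.lf (nat_lit 163384) (.g (nat_lit 708) (.e (nat_lit 57449) (nat_lit 20) (.e (nat_lit 401454) (nat_lit 12) (.e (nat_lit 475198) (nat_lit 40) .nil))) .nil)) 
(.lf (nat_lit 163448) (.g (nat_lit 1029) (.e (nat_lit 57449) (nat_lit 20) (.e (nat_lit 401459) (nat_lit 13) (.e (nat_lit 483372) (nat_lit 21) .nil))) .nil)))))) (.nd (nat_lit 3) (.nd (nat_lit 4) (.nd (nat_lit 5) (.nd (nat_lit 6) 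
(.lf (nat_lit 163332) (.g (nat_lit 2254) (.e (nat_lit 57448) (nat_lit 19) (.e (nat_lit 393301) (nat_lit 27) (.e (nat_lit 491558) (nat_lit 10) (.e (nat_lit 344088) (nat_lit 18) .nil)))) .nil)) 
(.lf (nat_lit 163396) (.g (nat_lit 1384) (.e (nat_lit 57449) (nat_lit 20) (.e (nat_lit 401454) (nat_lit 12) (.e (nat_lit 475201) (nat_lit 40) .nil))) .nil))) (.nd (nat_lit 6) 
(.lf (nat_lit 163364) (.g (nat_lit 872) (.e (nat_lit 57448) (nat_lit 19) (.e (nat_lit 393301) (nat_lit 27) (.e (nat_lit 491567) (nat_lit 13) .nil))) .nil)) 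
(.lf (nat_lit 163428) (.g (nat_lit 3183) (.e (nat_lit 57449) (nat_lit 20) (.e (nat_lit 401456) (nat_lit 13) (.e (nat_lit 483413) (nat_lit 27) (.e (nat_lit 401448) (nat_lit 10) (.e (nat_lit 434208) (nat_lit 18) .nil))))) .nil)))) (.nd (nat_lit 5) (.nd (nat_lit 6) 
(.lf (nat_lit 163348) (.g (nat_lit 2669) (.e (nat_lit 57448) (nat_lit 19) (.e (nat_lit 393301) (nat_lit 27) (.e (nat_lit 491559) (nat_lit 10) (.e (nat_lit 344177) (nat_lit 43) .nil)))) .nil)) 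
(.lf (nat_lit 163412) (.g (nat_lit 2042) (.e (nat_lit 57449) (nat_lit 20) (.e (nat_lit 401454) (nat_lit 12) (.e (nat_lit 475210) (nat_lit 41) (.e (nat_lit 712753) (nat_lit 30) (.e (nat_lit 450561) (nat_lit 0) .nil))))) .nil))) (.nd (nat_lit 6) 
(.lf (nat_lit 163380) (.g (nat_lit 1175) (.e (nat_lit 57449) (nat_lit 20) (.e (nat_lit 401454) (nat_lit 12) (.e (nat_lit 475195) (nat_lit 40) .nil))) .nil)) 
(.lf (nat_lit 163444) (.g (nat_lit 2005) (.e (nat_lit 57449) (nat_lit 20) (.e (nat_lit 401459) (nat_lit 13) (.e (nat_lit 483344) (nat_lit 17) (.e (nat_lit 6722) (nat_lit 362) (.e (nat_lit 180227) (nat_lit 0) .nil))))) .nil))))) (.nd (nat_lit 4) (.nd (nat_lit 5) (.nd (nat_lit 6) 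
(.lf (nat_lit 163340) (.g (nat_lit 3026) (.e (nat_lit 57448) (nat_lit 19) (.e (nat_lit 393301) (nat_lit 27) (.e (nat_lit 491558) (nat_lit 10) (.e (nat_lit 352000) (nat_lit 46) (.e (nat_lit 794661) (nat_lit 21) (.e (nat_lit 171776) (nat_lit 148) .nil)))))) (.g (nat_lit 5) .nil .nil))) 
(.lf (nat_lit 163404) (.g (nat_lit 2361) (.e (nat_lit 57449) (nat_lit 20) (.e (nat_lit 401454) (nat_lit 12) (.e (nat_lit 475208) (nat_lit 41) (.e (nat_lit 712755) (nat_lit 30) (.e (nat_lit 450569) (nat_lit 0) (.e (nat_lit 5948) (nat_lit 322) .nil)))))) (.g (nat_lit 4) .nil .nil)))) (.nd (nat_lit 6) 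
(.lf (nat_lit 163372) (.g (nat_lit 2379) (.e (nat_lit 57448) (nat_lit 19) (.e (nat_lit 393301) (nat_lit 27) (.e (nat_lit 491568) (nat_lit 13) (.e (nat_lit 393256) (nat_lit 19) .nil)))) .nil)) 
(.lf (nat_lit 163436) (.g (nat_lit 3110) (.e (nat_lit 57449) (nat_lit 20) (.e (nat_lit 401457) (nat_lit 13) (.e (nat_lit 483413) (nat_lit 27) (.e (nat_lit 401448) (nat_lit 10) (.e (nat_lit 434200) (nat_lit 18) (.e (nat_lit 6065) (nat_lit 328) .nil)))))) (.g (nat_lit 5) .nil .nil))))) (.nd (nat_lit 5) (.nd (nat_lit 6) 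
(.lf (nat_lit 163356) (.g (nat_lit 2101) (.e (nat_lit 57448) (nat_lit 19) (.e (nat_lit 393301) (nat_lit 27) (.e (nat_lit 491560) (nat_lit 10) (.e (nat_lit 344094) (nat_lit 18) .nil)))) .nil)) 
(.lf (nat_lit 163420) (.g (nat_lit 2067) (.e (nat_lit 57449) (nat_lit 20) (.e (nat_lit 401454) (nat_lit 12) (.e (nat_lit 475210) (nat_lit 41) (.e (nat_lit 712755) (nat_lit 30) (.e (nat_lit 458496) (nat_lit 0) .nil))))) .nil))) (.nd (nat_lit 6) 
(.lf (nat_lit 163388) (.g (nat_lit 2523) (.e (nat_lit 57449) (nat_lit 20) (.e (nat_lit 401454) (nat_lit 12) (.e (nat_lit 475198) (nat_lit 40) (.e (nat_lit 704598) (nat_lit 6) (.e (nat_lit 188455) (nat_lit 24) (.e (nat_lit 229707) (nat_lit 256) .nil)))))) (.g (nat_lit 5) .nil .nil))) 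
(.lf (nat_lit 163452) (.g (nat_lit 5097) (.e (nat_lit 57449) (nat_lit 20) (.e (nat_lit 401459) (nat_lit 13) (.e (nat_lit 483372) (nat_lit 21) (.e (nat_lit 319530) (nat_lit 16) .nil)))) .nil))))))) (.nd (nat_lit 2) (.nd (nat_lit 3) (.nd (nat_lit 4) (.nd (nat_lit 5) (.nd (nat_lit 6) 
(.lf (nat_lit 163330) (.g (nat_lit 2477) (.e (nat_lit 57448) (nat_lit 19) (.e (nat_lit 393301) (nat_lit 27) (.e (nat_lit 491556) (nat_lit 9) (.e (nat_lit 336447) (nat_lit 33) .nil)))) .nil)) 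
(.lf (nat_lit 163394) (.g (nat_lit 1820) (.e (nat_lit 57449) (nat_lit 20) (.e (nat_lit 401454) (nat_lit 12) (.e (nat_lit 475198) (nat_lit 40) (.e (nat_lit 704603) (nat_lit 8) (.e (nat_lit 237612) (nat_lit 9) (.e (nat_lit 426100) (nat_lit 1) (.e (nat_lit 164398) (nat_lit 256) .nil))))))) (.g (nat_lit 4) .nil .nil)))) (.nd (nat_lit 6) 
(.lf (nat_lit 163362) (.g (nat_lit 2279) (.e (nat_lit 57448) (nat_lit 19) (.e (nat_lit 393301) (nat_lit 27) (.e (nat_lit 491560) (nat_lit 10) (.e (nat_lit 352000) (nat_lit 46) .nil)))) .nil)) 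
(.lf (nat_lit 163426) (.g (nat_lit 3187) (.e (nat_lit 57449) (nat_lit 20) (.e (nat_lit 401456) (nat_lit 13) (.e (nat_lit 483413) (nat_lit 27) (.e (nat_lit 401448) (nat_lit 10) (.e (nat_lit 434202) (nat_lit 18) .nil))))) .nil)))) (.nd (nat_lit 5) (.nd (nat_lit 6) 
(.lf (nat_lit 163346) (.g (nat_lit 3687) (.e (nat_lit 57448) (nat_lit 19) (.e (nat_lit 393301) (nat_lit 27) (.e (nat_lit 491559) (nat_lit 10) (.e (nat_lit 344095) (nat_lit 18) (.e (nat_lit 7261) (nat_lit 384) (.e (nat_lit 57364) (nat_lit 1) (.e (nat_lit 65280) (nat_lit 217) .nil))))))) (.g (nat_lit 5) .nil .nil))) 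
(.lf (nat_lit 163410) (.g (nat_lit 2341) (.e (nat_lit 57449) (nat_lit 20) (.e (nat_lit 401454) (nat_lit 12) (.e (nat_lit 475209) (nat_lit 41) (.e (nat_lit 712755) (nat_lit 30) (.e (nat_lit 450569) (nat_lit 0) .nil))))) .nil))) (.nd (nat_lit 6) 
(.lf (nat_lit 163378) (.g (nat_lit 799) (.e (nat_lit 65280) (nat_lit 19) (.e (nat_lit 393229) (nat_lit 9) (.e (nat_lit 336186) (nat_lit 11) (.e (nat_lit 368676) (nat_lit 21) .nil)))) .nil)) 
(.lf (nat_lit 163442) (.g (nat_lit 2165) (.e (nat_lit 57449) (nat_lit 20) (.e (nat_lit 401459) (nat_lit 13) (.e (nat_lit 483344) (nat_lit 17) (.e (nat_lit 6722) (nat_lit 362) (.e (nat_lit 180225) (nat_lit 0) (.e (nat_lit 6065) (nat_lit 328) .nil)))))) (.g (nat_lit 4) .nil .nil)))))) (.nd (nat_lit 4) (.nd (nat_lit 5) (.nd (nat_lit 6) 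
(.lf (nat_lit 163338) (.g (nat_lit 2485) (.e (nat_lit 57448) (nat_lit 19) (.e (nat_lit 393301) (nat_lit 27) (.e (nat_lit 491558) (nat_lit 10) (.e (nat_lit 344096) (nat_lit 18) (.e (nat_lit 7265) (nat_lit 384) .nil))))) .nil)) 
(.lf (nat_lit 163402) (.g (nat_lit 1963) (.e (nat_lit 57449) (nat_lit 20) (.e (nat_lit 401454) (nat_lit 12) (.e (nat_lit 475208) (nat_lit 41) (.e (nat_lit 712753) (nat_lit 30) (.e (nat_lit 450569) (nat_lit 0) .nil))))) .nil))) (.nd (nat_lit 6) 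
(.lf (nat_lit 163370) (.g (nat_lit 3858) (.e (nat_lit 57448) (nat_lit 19) (.e (nat_lit 393301) (nat_lit 27) (.e (nat_lit 491568) (nat_lit 13) (.e (nat_lit 393253) (nat_lit 18) (.e (nat_lit 171776) (nat_lit 262) .nil))))) (.g (nat_lit 4) .nil .nil))) 
(.lf (nat_lit 163434) (.g (nat_lit 3463) (.e (nat_lit 57449) (nat_lit 20) (.e (nat_lit 401457) (nat_lit 13) (.e (nat_lit 483413) (nat_lit 27) (.e (nat_lit 401447) (nat_lit 10) (.e (nat_lit 434203) (nat_lit 18) (.e (nat_lit 6067) (nat_lit 328) .nil)))))) (.g (nat_lit 4) .nil .nil))))) (.nd (nat_lit 5) (.nd (nat_lit 6) 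
(.lf (nat_lit 163354) (.g (nat_lit 3569) (.e (nat_lit 57448) (nat_lit 19) (.e (nat_lit 393301) (nat_lit 27) (.e (nat_lit 491560) (nat_lit 10) (.e (nat_lit 344090) (nat_lit 18) (.e (nat_lit 7261) (nat_lit 384) (.e (nat_lit 57364) (nat_lit 1) (.e (nat_lit 65280) (nat_lit 217) .nil))))))) (.g (nat_lit 4) .nil .nil))) 
(.lf (nat_lit 163418) (.g (nat_lit 2308) (.e (nat_lit 57449) (nat_lit 20) (.e (nat_lit 401454) (nat_lit 12) (.e (nat_lit 475210) (nat_lit 41) (.e (nat_lit 712755) (nat_lit 30) (.e (nat_lit 450560) (nat_lit 0) .nil))))) .nil))) (.nd (nat_lit 6) 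
(.lf (nat_lit 163386) (.g (nat_lit 2541) (.e (nat_lit 57449) (nat_lit 20) (.e (nat_lit 401454) (nat_lit 12) (.e (nat_lit 475198) (nat_lit 40) (.e (nat_lit 704598) (nat_lit 6) (.e (nat_lit 188444) (nat_lit 21) (.e (nat_lit 164399) (nat_lit 256) .nil)))))) (.g (nat_lit 5) .nil .nil))) 
(.lf (nat_lit 163450) (.g (nat_lit 4240) (.e (nat_lit 57449) (nat_lit 20) (.e (nat_lit 401459) (nat_lit 13) (.e (nat_lit 483372) (nat_lit 21) (.e (nat_lit 319505) (nat_lit 10) .nil)))) .nil)))))) (.nd (nat_lit 3) (.nd (nat_lit 4) (.nd (nat_lit 5) (.nd (nat_lit 6) 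
(.lf (nat_lit 163334) (.g (nat_lit 3683) (.e (nat_lit 57448) (nat_lit 19) (.e (nat_lit 393301) (nat_lit 27) (.e (nat_lit 491558) (nat_lit 10) (.e (nat_lit 344091) (nat_lit 18) (.e (nat_lit 7261) (nat_lit 384) (.e (nat_lit 57364) (nat_lit 1) (.e (nat_lit 65280) (nat_lit 217) .nil))))))) (.g (nat_lit 5) .nil .nil))) 
(.lf (nat_lit 163398) (.g (nat_lit 1691) (.e (nat_lit 57449) (nat_lit 20) (.e (nat_lit 401454) (nat_lit 12) (.e (nat_lit 475207) (nat_lit 41) (.e (nat_lit 712755) (nat_lit 30) (.e (nat_lit 450560) (nat_lit 0) .nil))))) .nil))) (.nd (nat_lit 6) 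
(.lf (nat_lit 163366) (.g (nat_lit 2569) (.e (nat_lit 57448) (nat_lit 19) (.e (nat_lit 393301) (nat_lit 27) (.e (nat_lit 491568) (nat_lit 13) (.e (nat_lit 393217) (nat_lit 0) .nil)))) .nil)) 
(.lf (nat_lit 163430) (.g (nat_lit 2722) (.e (nat_lit 57449) (nat_lit 20) (.e (nat_lit 401457) (nat_lit 13) (.e (nat_lit 483413) (nat_lit 27) (.e (nat_lit 401446) (nat_lit 10) (.e (nat_lit 434200) (nat_lit 18) .nil))))) .nil)))) (.nd (nat_lit 5) (.nd (nat_lit 6) 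
(.lf (nat_lit 163350) (.g (nat_lit 2483) (.e (nat_lit 57448) (nat_lit 19) (.e (nat_lit 393301) (nat_lit 27) (.e (nat_lit 491559) (nat_lit 10) (.e (nat_lit 352000) (nat_lit 46) .nil)))) .nil)) 
(.lf (nat_lit 163414) (.g (nat_lit 1875) (.e (nat_lit 57449) (nat_lit 20) (.e (nat_lit 401454) (nat_lit 12) (.e (nat_lit 475210) (nat_lit 41) (.e (nat_lit 712753) (nat_lit 30) (.e (nat_lit 450568) (nat_lit 0) .nil))))) .nil))) (.nd (nat_lit 6) 
(.lf (nat_lit 163382) (.g (nat_lit 941) (.e (nat_lit 57449) (nat_lit 20) (.e (nat_lit 401454) (nat_lit 12) (.e (nat_lit 475197) (nat_lit 40) .nil))) .nil)) 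
(.lf (nat_lit 163446) (.g (nat_lit 2341) (.e (nat_lit 57449) (nat_lit 20) (.e (nat_lit 401459) (nat_lit 13) (.e (nat_lit 483344) (nat_lit 17) (.e (nat_lit 6724) (nat_lit 362) (.e (nat_lit 180226) (nat_lit 0) .nil))))) .nil))))) (.nd (nat_lit 4) (.nd (nat_lit 5) (.nd (nat_lit 6) 
(.lf (nat_lit 163342) (.g (nat_lit 3330) (.e (nat_lit 57448) (nat_lit 19) (.e (nat_lit 393301) (nat_lit 27) (.e (nat_lit 491559) (nat_lit 10) (.e (nat_lit 344090) (nat_lit 18) (.e (nat_lit 7261) (nat_lit 384) (.e (nat_lit 57364) (nat_lit 1) (.e (nat_lit 65280) (nat_lit 217) .nil))))))) (.g (nat_lit 4) .nil .nil))) 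
(.lf (nat_lit 163406) (.g (nat_lit 4349) (.e (nat_lit 57449) (nat_lit 20) (.e (nat_lit 401454) (nat_lit 12) (.e (nat_lit 475209) (nat_lit 41) (.e (nat_lit 712752) (nat_lit 29) (.e (nat_lit 442421) (nat_lit 21) (.e (nat_lit 164403) (nat_lit 256) .nil)))))) (.g (nat_lit 0) .nil .nil)))) (.nd (nat_lit 6) 
(.lf (nat_lit 163374) (.g (nat_lit 716) (.e (nat_lit 65280) (nat_lit 19) (.e (nat_lit 393225) (nat_lit 9) (.e (nat_lit 336186) (nat_lit 11) .nil))) .nil)) 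
(.lf (nat_lit 163438) (.g (nat_lit 2474) (.e (nat_lit 57449) (nat_lit 20) (.e (nat_lit 401457) (nat_lit 13) (.e (nat_lit 483413) (nat_lit 27) (.e (nat_lit 401448) (nat_lit 10) (.e (nat_lit 434206) (nat_lit 18) .nil))))) .nil)))) (.nd (nat_lit 5) (.nd (nat_lit 6) 
(.lf (nat_lit 163358) (.g (nat_lit 2666) (.e (nat_lit 57448) (nat_lit 19) (.e (nat_lit 393301) (nat_lit 27) (.e (nat_lit 491560) (nat_lit 10) (.e (nat_lit 344095) (nat_lit 18) .nil)))) .nil)) 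
(.lf (nat_lit 163422) (.g (nat_lit 2244) (.e (nat_lit 57449) (nat_lit 20) (.e (nat_lit 401456) (nat_lit 13) (.e (nat_lit 483413) (nat_lit 27) (.e (nat_lit 401446) (nat_lit 10) (.e (nat_lit 434203) (nat_lit 18) .nil))))) .nil))) (.nd (nat_lit 6) 
(.lf (nat_lit 163390) (.g (nat_lit 1557) (.e (nat_lit 57449) (nat_lit 20) (.e (nat_lit 401454) (nat_lit 12) (.e (nat_lit 475198) (nat_lit 40) (.e (nat_lit 704599) (nat_lit 6) (.e (nat_lit 188453) (nat_lit 24) .nil))))) .nil)) 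
(.lf (nat_lit 163454) (.g (nat_lit 4803) (.e (nat_lit 57449) (nat_lit 20) (.e (nat_lit 401459) (nat_lit 13) (.e (nat_lit 483372) (nat_lit 21) (.e (nat_lit 319532) (nat_lit 16) .nil)))) .nil)))))))) (.nd (nat_lit 1) (.nd (nat_lit 2) (.nd (nat_lit 3) (.nd (nat_lit 4) (.nd (nat_lit 5) (.nd (nat_lit 6) 
(.lf (nat_lit 163329) (.g (nat_lit 988) (.e (nat_lit 57448) (nat_lit 19) (.e (nat_lit 393301) (nat_lit 27) (.e (nat_lit 491556) (nat_lit 9) .nil))) .nil)) 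
(.lf (nat_lit 163393) (.g (nat_lit 1568) (.e (nat_lit 57449) (nat_lit 20) (.e (nat_lit 401454) (nat_lit 12) (.e (nat_lit 475198) (nat_lit 40) (.e (nat_lit 704603) (nat_lit 8) .nil)))) .nil))) (.nd (nat_lit 6) 
(.lf (nat_lit 163361) (.g (nat_lit 3280) (.e (nat_lit 57448) (nat_lit 19) (.e (nat_lit 393301) (nat_lit 27) (.e (nat_lit 491560) (nat_lit 10) (.e (nat_lit 344179) (nat_lit 44) (.e (nat_lit 778482) (nat_lit 12) (.e (nat_lit 163849) (nat_lit 0) (.e (nat_lit 6063) (nat_lit 328) .nil))))))) (.g (nat_lit 4) .nil .nil))) 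
(.lf (nat_lit 163425) (.g (nat_lit 3245) (.e (nat_lit 57449) (nat_lit 20) (.e (nat_lit 401456) (nat_lit 13) (.e (nat_lit 483413) (nat_lit 27) (.e (nat_lit 401448) (nat_lit 10) (.e (nat_lit 434200) (nat_lit 18) .nil))))) .nil)))) (.nd (nat_lit 5) (.nd (nat_lit 6) 
(.lf (nat_lit 163345) (.g (nat_lit 2451) (.e (nat_lit 57448) (nat_lit 19) (.e (nat_lit 393301) (nat_lit 27) (.e (nat_lit 491559) (nat_lit 10) (.e (nat_lit 344094) (nat_lit 18) .nil)))) .nil)) 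
(.lf (nat_lit 163409) (.g (nat_lit 2556) (.e (nat_lit 57449) (nat_lit 20) (.e (nat_lit 401454) (nat_lit 12) (.e (nat_lit 475209) (nat_lit 41) (.e (nat_lit 712755) (nat_lit 30) (.e (nat_lit 450560) (nat_lit 0) .nil))))) .nil))) (.nd (nat_lit 6) 
(.lf (nat_lit 163377) (.g (nat_lit 481) (.e (nat_lit 65280) (nat_lit 19) (.e (nat_lit 393229) (nat_lit 9) (.e (nat_lit 336184) (nat_lit 11) .nil))) .nil)) 
(.lf (nat_lit 163441) (.g (nat_lit 2241) (.e (nat_lit 57449) (nat_lit 20) (.e (nat_lit 401459) (nat_lit 13) (.e (nat_lit 483344) (nat_lit 17) (.e (nat_lit 6722) (nat_lit 362) (.e (nat_lit 180224) (nat_lit 0) .nil))))) .nil))))) (.nd (nat_lit 4) (.nd (nat_lit 5) (.nd (nat_lit 6) 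
(.lf (nat_lit 163337) (.g (nat_lit 3770) (.e (nat_lit 57448) (nat_lit 19) (.e (nat_lit 393301) (nat_lit 27) (.e (nat_lit 491558) (nat_lit 10) (.e (nat_lit 344096) (nat_lit 18) (.e (nat_lit 7261) (nat_lit 384) (.e (nat_lit 57364) (nat_lit 1) (.e (nat_lit 65280) (nat_lit 217) .nil))))))) (.g (nat_lit 5) .nil .nil))) 
(.lf (nat_lit 163401) (.g (nat_lit 1288) (.e (nat_lit 57449) (nat_lit 20) (.e (nat_lit 401454) (nat_lit 12) (.e (nat_lit 475208) (nat_lit 41) .nil))) .nil))) (.nd (nat_lit 6) 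
(.lf (nat_lit 163369) (.g (nat_lit 3718) (.e (nat_lit 57448) (nat_lit 19) (.e (nat_lit 393301) (nat_lit 27) (.e (nat_lit 491568) (nat_lit 13) (.e (nat_lit 393252) (nat_lit 18) (.e (nat_lit 171776) (nat_lit 262) .nil))))) (.g (nat_lit 4) .nil .nil))) 
(.lf (nat_lit 163433) (.g (nat_lit 3360) (.e (nat_lit 57449) (nat_lit 20) (.e (nat_lit 401457) (nat_lit 13) (.e (nat_lit 483413) (nat_lit 27) (.e (nat_lit 401447) (nat_lit 10) (.e (nat_lit 434203) (nat_lit 18) .nil))))) .nil)))) (.nd (nat_lit 5) (.nd (nat_lit 6) 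
(.lf (nat_lit 163353) (.g (nat_lit 2393) (.e (nat_lit 57448) (nat_lit 19) (.e (nat_lit 393301) (nat_lit 27) (.e (nat_lit 491560) (nat_lit 10) (.e (nat_lit 344090) (nat_lit 18) .nil)))) .nil)) 
(.lf (nat_lit 163417) (.g (nat_lit 1325) (.e (nat_lit 57449) (nat_lit 20) (.e (nat_lit 401454) (nat_lit 12) (.e (nat_lit 475210) (nat_lit 41) (.e (nat_lit 712755) (nat_lit 30) .nil)))) .nil))) (.nd (nat_lit 6) 
(.lf (nat_lit 163385) (.g (nat_lit 3420) (.e (nat_lit 57449) (nat_lit 20) (.e (nat_lit 401454) (nat_lit 12) (.e (nat_lit 475198) (nat_lit 40) (.e (nat_lit 704598) (nat_lit 6) (.e (nat_lit 188444) (nat_lit 21) (.e (nat_lit 164398) (nat_lit 256) .nil)))))) (.g (nat_lit 0) .nil .nil))) 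
(.lf (nat_lit 163449) (.g (nat_lit 4872) (.e (nat_lit 57449) (nat_lit 20) (.e (nat_lit 401459) (nat_lit 13) (.e (nat_lit 483372) (nat_lit 21) (.e (nat_lit 319504) (nat_lit 10) .nil)))) .nil)))))) (.nd (nat_lit 3) (.nd (nat_lit 4) (.nd (nat_lit 5) (.nd (nat_lit 6) 
(.lf (nat_lit 163333) (.g (nat_lit 3432) (.e (nat_lit 57448) (nat_lit 19) (.e (nat_lit 393301) (nat_lit 27) (.e (nat_lit 491558) (nat_lit 10) (.e (nat_lit 344090) (nat_lit 18) (.e (nat_lit 7261) (nat_lit 384) (.e (nat_lit 57364) (nat_lit 1) (.e (nat_lit 65280) (nat_lit 217) .nil))))))) (.g (nat_lit 5) .nil .nil))) 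
(.lf (nat_lit 163397) (.g (nat_lit 570) (.e (nat_lit 57449) (nat_lit 20) (.e (nat_lit 401454) (nat_lit 12) (.e (nat_lit 475207) (nat_lit 41) .nil))) .nil))) (.nd (nat_lit 6) 
(.lf (nat_lit 163365) (.g (nat_lit 587) (.e (nat_lit 57448) (nat_lit 19) (.e (nat_lit 393301) (nat_lit 27) (.e (nat_lit 491568) (nat_lit 13) .nil))) .nil)) 
(.lf (nat_lit 163429) (.g (nat_lit 3192) (.e (nat_lit 57449) (nat_lit 20) (.e (nat_lit 401456) (nat_lit 13) (.e (nat_lit 483413) (nat_lit 27) (.e (nat_lit 401448) (nat_lit 10) (.e (nat_lit 434208) (nat_lit 18) (.e (nat_lit 6063) (nat_lit 328) .nil)))))) (.g (nat_lit 4) .nil .nil))))) (.nd (nat_lit 5) (.nd (nat_lit 6) 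
(.lf (nat_lit 163349) (.g (nat_lit 3562) (.e (nat_lit 57448) (nat_lit 19) (.e (nat_lit 393301) (nat_lit 27) (.e (nat_lit 491559) (nat_lit 10) (.e (nat_lit 344177) (nat_lit 43) (.e (nat_lit 770069) (nat_lit 7) .nil))))) .nil)) 
(.lf (nat_lit 163413) (.g (nat_lit 2003) (.e (nat_lit 57449) (nat_lit 20) (.e (nat_lit 401454) (nat_lit 12) (.e (nat_lit 475210) (nat_lit 41) (.e (nat_lit 712753) (nat_lit 30) (.e (nat_lit 450567) (nat_lit 0) .nil))))) .nil))) (.nd (nat_lit 6) 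
(.lf (nat_lit 163381) (.g (nat_lit 1384) (.e (nat_lit 57449) (nat_lit 20) (.e (nat_lit 401454) (nat_lit 12) (.e (nat_lit 475196) (nat_lit 40) .nil))) .nil)) 
(.lf (nat_lit 163445) (.g (nat_lit 2211) (.e (nat_lit 57449) (nat_lit 20) (.e (nat_lit 401459) (nat_lit 13) (.e (nat_lit 483344) (nat_lit 17) (.e (nat_lit 6724) (nat_lit 362) (.e (nat_lit 180224) (nat_lit 0) .nil))))) .nil))))) (.nd (nat_lit 4) (.nd (nat_lit 5) (.nd (nat_lit 6) 
(.lf (nat_lit 163341) (.g (nat_lit 2492) (.e (nat_lit 57448) (nat_lit 19) (.e (nat_lit 393301) (nat_lit 27) (.e (nat_lit 491559) (nat_lit 10) (.e (nat_lit 344090) (nat_lit 18) .nil)))) .nil)) 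
(.lf (nat_lit 163405) (.g (nat_lit 3692) (.e (nat_lit 57449) (nat_lit 20) (.e (nat_lit 401454) (nat_lit 12) (.e (nat_lit 475209) (nat_lit 41) (.e (nat_lit 712752) (nat_lit 29) (.e (nat_lit 442421) (nat_lit 21) (.e (nat_lit 164401) (nat_lit 256) .nil)))))) (.g (nat_lit 0) .nil .nil)))) (.nd (nat_lit 6) 
(.lf (nat_lit 163373) (.g (nat_lit 1020) (.e (nat_lit 57448) (nat_lit 19) (.e (nat_lit 393301) (nat_lit 27) (.e (nat_lit 491577) (nat_lit 15) .nil))) .nil)) 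
(.lf (nat_lit 163437) (.g (nat_lit 3493) (.e (nat_lit 57449) (nat_lit 20) (.e (nat_lit 401457) (nat_lit 13) (.e (nat_lit 483413) (nat_lit 27) (.e (nat_lit 401448) (nat_lit 10) (.e (nat_lit 434202) (nat_lit 18) (.e (nat_lit 6067) (nat_lit 328) .nil)))))) (.g (nat_lit 5) .nil .nil))))) (.nd (nat_lit 5) (.nd (nat_lit 6) 
(.lf (nat_lit 163357) (.g (nat_lit 2875) (.e (nat_lit 57448) (nat_lit 19) (.e (nat_lit 393301) (nat_lit 27) (.e (nat_lit 491560) (nat_lit 10) (.e (nat_lit 344094) (nat_lit 18) (.e (nat_lit 7261) (nat_lit 384) (.e (nat_lit 57364) (nat_lit 1) (.e (nat_lit 65280) (nat_lit 217) .nil))))))) (.g (nat_lit 4) .nil .nil))) 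
(.lf (nat_lit 163421) (.g (nat_lit 1532) (.e (nat_lit 57449) (nat_lit 20) (.e (nat_lit 401454) (nat_lit 12) (.e (nat_lit 475210) (nat_lit 41) (.e (nat_lit 712757) (nat_lit 32) .nil)))) .nil))) (.nd (nat_lit 6) 
(.lf (nat_lit 163389) (.g (nat_lit 2653) (.e (nat_lit 57449) (nat_lit 20) (.e (nat_lit 401454) (nat_lit 12) (.e (nat_lit 475198) (nat_lit 40) (.e (nat_lit 704598) (nat_lit 6) (.e (nat_lit 188455) (nat_lit 24) (.e (nat_lit 229708) (nat_lit 256) .nil)))))) (.g (nat_lit 5) .nil .nil))) 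
(.lf (nat_lit 163453) (.g (nat_lit 4653) (.e (nat_lit 57449) (nat_lit 20) (.e (nat_lit 401459) (nat_lit 13) (.e (nat_lit 483372) (nat_lit 21) (.e (nat_lit 319531) (nat_lit 16) .nil)))) .nil))))))) (.nd (nat_lit 2) (.nd (nat_lit 3) (.nd (nat_lit 4) (.nd (nat_lit 5) (.nd (nat_lit 6) 
(.lf (nat_lit 163331) (.g (nat_lit 876) (.e (nat_lit 57448) (nat_lit 19) (.e (nat_lit 393301) (nat_lit 27) (.e (nat_lit 491558) (nat_lit 10) .nil))) .nil)) 
(.lf (nat_lit 163395) (.g (nat_lit 1384) (.e (nat_lit 57449) (nat_lit 20) (.e (nat_lit 401454) (nat_lit 12) (.e (nat_lit 475200) (nat_lit 40) .nil))) .nil))) (.nd (nat_lit 6) 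
(.lf (nat_lit 163363) (.g (nat_lit 3178) (.e (nat_lit 57448) (nat_lit 19) (.e (nat_lit 393301) (nat_lit 27) (.e (nat_lit 491560) (nat_lit 10) (.e (nat_lit 352000) (nat_lit 46) (.e (nat_lit 794661) (nat_lit 21) (.e (nat_lit 171776) (nat_lit 148) .nil)))))) (.g (nat_lit 5) .nil .nil))) 
(.lf (nat_lit 163427) (.g (nat_lit 3037) (.e (nat_lit 57449) (nat_lit 20) (.e (nat_lit 401456) (nat_lit 13) (.e (nat_lit 483413) (nat_lit 27) (.e (nat_lit 401448) (nat_lit 10) (.e (nat_lit 434203) (nat_lit 18) .nil))))) .nil)))) (.nd (nat_lit 5) (.nd (nat_lit 6) 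
(.lf (nat_lit 163347) (.g (nat_lit 2465) (.e (nat_lit 57448) (nat_lit 19) (.e (nat_lit 393301) (nat_lit 27) (.e (nat_lit 491559) (nat_lit 10) (.e (nat_lit 344175) (nat_lit 43) .nil)))) .nil)) 
(.lf (nat_lit 163411) (.g (nat_lit 1321) (.e (nat_lit 57449) (nat_lit 20) (.e (nat_lit 401454) (nat_lit 12) (.e (nat_lit 475210) (nat_lit 41) (.e (nat_lit 712753) (nat_lit 30) .nil)))) .nil))) (.nd (nat_lit 6) 
(.lf (nat_lit 163379) (.g (nat_lit 1364) (.e (nat_lit 57449) (nat_lit 20) (.e (nat_lit 401451) (nat_lit 12) (.e (nat_lit 475207) (nat_lit 41) .nil))) .nil)) 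
(.lf (nat_lit 163443) (.g (nat_lit 2100) (.e (nat_lit 57449) (nat_lit 20) (.e (nat_lit 401459) (nat_lit 13) (.e (nat_lit 483344) (nat_lit 17) (.e (nat_lit 6722) (nat_lit 362) (.e (nat_lit 180226) (nat_lit 0) (.e (nat_lit 6065) (nat_lit 328) .nil)))))) (.g (nat_lit 4) .nil .nil)))))) (.nd (nat_lit 4) (.nd (nat_lit 5) (.nd (nat_lit 6) 
(.lf (nat_lit 163339) (.g (nat_lit 2117) (.e (nat_lit 57448) (nat_lit 19) (.e (nat_lit 393301) (nat_lit 27) (.e (nat_lit 491558) (nat_lit 10) (.e (nat_lit 344180) (nat_lit 44) .nil)))) .nil)) 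
(.lf (nat_lit 163403) (.g (nat_lit 2707) (.e (nat_lit 57449) (nat_lit 20) (.e (nat_lit 401454) (nat_lit 12) (.e (nat_lit 475208) (nat_lit 41) (.e (nat_lit 712755) (nat_lit 30) (.e (nat_lit 450569) (nat_lit 0) (.e (nat_lit 5947) (nat_lit 322) .nil)))))) (.g (nat_lit 4) .nil .nil)))) (.nd (nat_lit 6) 
(.lf (nat_lit 163371) (.g (nat_lit 2569) (.e (nat_lit 57448) (nat_lit 19) (.e (nat_lit 393301) (nat_lit 27) (.e (nat_lit 491568) (nat_lit 13) (.e (nat_lit 393255) (nat_lit 19) .nil)))) .nil)) 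
(.lf (nat_lit 163435) (.g (nat_lit 2920) (.e (nat_lit 57449) (nat_lit 20) (.e (nat_lit 401457) (nat_lit 13) (.e (nat_lit 483413) (nat_lit 27) (.e (nat_lit 401448) (nat_lit 10) (.e (nat_lit 434199) (nat_lit 18) .nil))))) .nil)))) (.nd (nat_lit 5) (.nd (nat_lit 6) 
(.lf (nat_lit 163355) (.g (nat_lit 2579) (.e (nat_lit 57448) (nat_lit 19) (.e (nat_lit 393301) (nat_lit 27) (.e (nat_lit 491560) (nat_lit 10) (.e (nat_lit 344091) (nat_lit 18) .nil)))) .nil)) 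
(.lf (nat_lit 163419) (.g (nat_lit 1949) (.e (nat_lit 57449) (nat_lit 20) (.e (nat_lit 401454) (nat_lit 12) (.e (nat_lit 475210) (nat_lit 41) (.e (nat_lit 712755) (nat_lit 30) (.e (nat_lit 450568) (nat_lit 0) .nil))))) .nil))) (.nd (nat_lit 6) 
(.lf (nat_lit 163387) (.g (nat_lit 1760) (.e (nat_lit 57449) (nat_lit 20) (.e (nat_lit 401454) (nat_lit 12) (.e (nat_lit 475198) (nat_lit 40) (.e (nat_lit 704598) (nat_lit 6) (.e (nat_lit 188453) (nat_lit 24) .nil))))) .nil)) 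
(.lf (nat_lit 163451) (.g (nat_lit 5362) (.e (nat_lit 57449) (nat_lit 20) (.e (nat_lit 401459) (nat_lit 13) (.e (nat_lit 483372) (nat_lit 21) (.e (nat_lit 319526) (nat_lit 15) .nil)))) .nil)))))) (.nd (nat_lit 3) (.nd (nat_lit 4) (.nd (nat_lit 5) (.nd (nat_lit 6) 
(.lf (nat_lit 163335) (.g (nat_lit 2479) (.e (nat_lit 57448) (nat_lit 19) (.e (nat_lit 393301) (nat_lit 27) (.e (nat_lit 491558) (nat_lit 10) (.e (nat_lit 344091) (nat_lit 18) (.e (nat_lit 7265) (nat_lit 384) .nil))))) .nil)) 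
(.lf (nat_lit 163399) (.g (nat_lit 1680) (.e (nat_lit 57449) (nat_lit 20) (.e (nat_lit 401454) (nat_lit 12) (.e (nat_lit 475207) (nat_lit 41) (.e (nat_lit 712755) (nat_lit 30) (.e (nat_lit 450569) (nat_lit 0) .nil))))) .nil))) (.nd (nat_lit 6) 
(.lf (nat_lit 163367) (.g (nat_lit 2138) (.e (nat_lit 57448) (nat_lit 19) (.e (nat_lit 393301) (nat_lit 27) (.e (nat_lit 491568) (nat_lit 13) (.e (nat_lit 393238) (nat_lit 17) .nil)))) .nil)) 
(.lf (nat_lit 163431) (.g (nat_lit 2331) (.e (nat_lit 57449) (nat_lit 20) (.e (nat_lit 401457) (nat_lit 13) (.e (nat_lit 483413) (nat_lit 27) (.e (nat_lit 401446) (nat_lit 10) (.e (nat_lit 434202) (nat_lit 18) .nil))))) .nil)))) (.nd (nat_lit 5) (.nd (nat_lit 6) 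
(.lf (nat_lit 163351) (.g (nat_lit 470) (.e (nat_lit 57448) (nat_lit 19) (.e (nat_lit 393301) (nat_lit 27) (.e (nat_lit 491560) (nat_lit 10) .nil))) .nil)) 
(.lf (nat_lit 163415) (.g (nat_lit 2010) (.e (nat_lit 57449) (nat_lit 20) (.e (nat_lit 401454) (nat_lit 12) (.e (nat_lit 475210) (nat_lit 41) (.e (nat_lit 712753) (nat_lit 30) (.e (nat_lit 450569) (nat_lit 0) .nil))))) .nil))) (.nd (nat_lit 6) 
(.lf (nat_lit 163383) (.g (nat_lit 1504) (.e (nat_lit 57449) (nat_lit 20) (.e (nat_lit 401454) (nat_lit 12) (.e (nat_lit 475197) (nat_lit 40) (.e (nat_lit 704598) (nat_lit 6) (.e (nat_lit 188455) (nat_lit 24) .nil))))) .nil)) 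
(.lf (nat_lit 163447) (.g (nat_lit 2202) (.e (nat_lit 57449) (nat_lit 20) (.e (nat_lit 401459) (nat_lit 13) (.e (nat_lit 483344) (nat_lit 17) (.e (nat_lit 6724) (nat_lit 362) (.e (nat_lit 180227) (nat_lit 0) .nil))))) .nil))))) (.nd (nat_lit 4) (.nd (nat_lit 5) (.nd (nat_lit 6) 
(.lf (nat_lit 163343) (.g (nat_lit 2436) (.e (nat_lit 57448) (nat_lit 19) (.e (nat_lit 393301) (nat_lit 27) (.e (nat_lit 491559) (nat_lit 10) (.e (nat_lit 344091) (nat_lit 18) .nil)))) .nil)) 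
(.lf (nat_lit 163407) (.g (nat_lit 1186) (.e (nat_lit 57449) (nat_lit 20) (.e (nat_lit 401454) (nat_lit 12) (.e (nat_lit 475209) (nat_lit 41) (.e (nat_lit 712753) (nat_lit 30) .nil)))) .nil))) (.nd (nat_lit 6) 
(.lf (nat_lit 163375) (.g (nat_lit 1449) (.e (nat_lit 65280) (nat_lit 19) (.e (nat_lit 393229) (nat_lit 9) (.e (nat_lit 336087) (nat_lit 9) (.e (nat_lit 336019) (nat_lit 3) (.e (nat_lit 98333) (nat_lit 18) .nil))))) .nil)) 
(.lf (nat_lit 163439) (.g (nat_lit 3621) (.e (nat_lit 57449) (nat_lit 20) (.e (nat_lit 401457) (nat_lit 13) (.e (nat_lit 483413) (nat_lit 27) (.e (nat_lit 401448) (nat_lit 10) (.e (nat_lit 434208) (nat_lit 18) (.e (nat_lit 6063) (nat_lit 328) .nil)))))) (.g (nat_lit 5) .nil .nil))))) (.nd (nat_lit 5) (.nd (nat_lit 6) 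
(.lf (nat_lit 163359) (.g (nat_lit 3181) (.e (nat_lit 57448) (nat_lit 19) (.e (nat_lit 393301) (nat_lit 27) (.e (nat_lit 491560) (nat_lit 10) (.e (nat_lit 344096) (nat_lit 18) (.e (nat_lit 7261) (nat_lit 384) .nil))))) .nil)) 
(.lf (nat_lit 163423) (.g (nat_lit 2284) (.e (nat_lit 57449) (nat_lit 20) (.e (nat_lit 401456) (nat_lit 13) (.e (nat_lit 483413) (nat_lit 27) (.e (nat_lit 401446) (nat_lit 10) (.e (nat_lit 434208) (nat_lit 18) .nil))))) .nil))) (.nd (nat_lit 6) 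
(.lf (nat_lit 163391) (.g (nat_lit 1717) (.e (nat_lit 57449) (nat_lit 20) (.e (nat_lit 401454) (nat_lit 12) (.e (nat_lit 475198) (nat_lit 40) (.e (nat_lit 704599) (nat_lit 6) (.e (nat_lit 188453) (nat_lit 24) (.e (nat_lit 229708) (nat_lit 256) .nil)))))) (.g (nat_lit 4) .nil .nil))) 
(.lf (nat_lit 163455) (.g (nat_lit 4057) (.e (nat_lit 57449) (nat_lit 20) (.e (nat_lit 401459) (nat_lit 13) (.e (nat_lit 483372) (nat_lit 21) (.e (nat_lit 319533) (nat_lit 16) .nil)))) .nil)))))))))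

noncomputable def tv2192 : DT := (.nd (nat_lit 0) (.nd (nat_lit 1) (.nd (nat_lit 2) (.nd (nat_lit 3) (.nd (nat_lit 4) (.nd (nat_lit 5) (.nd (nat_lit 6) 
(.lf (nat_lit 163456) (.g (nat_lit 4905) (.e (nat_lit 57449) (nat_lit 20) (.e (nat_lit 401459) (nat_lit 13) (.e (nat_lit 483372) (nat_lit 21) (.e (nat_lit 319533) (nat_lit 16) (.e (nat_lit 286724) (nat_lit 0) .nil))))) .nil)) 
(.lf (nat_lit 163520) (.g (nat_lit 1371) (.e (nat_lit 57451) (nat_lit 20) (.e (nat_lit 401448) (nat_lit 10) (.e (nat_lit 434272) (nat_lit 38) (.e (nat_lit 655362) (nat_lit 0) .nil)))) .nil))) (.nd (nat_lit 6) 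
(.lf (nat_lit 163488) (.g (nat_lit 1210) (.e (nat_lit 57450) (nat_lit 20) (.e (nat_lit 401454) (nat_lit 12) (.e (nat_lit 475209) (nat_lit 41) (.e (nat_lit 712753) (nat_lit 30) .nil)))) .nil)) 
(.lf (nat_lit 163552) (.g (nat_lit 2360) (.e (nat_lit 57454) (nat_lit 21) (.e (nat_lit 507648) (nat_lit 20) (.e (nat_lit 81956) (nat_lit 23) (.e (nat_lit 98356) (nat_lit 26) (.e (nat_lit 426361) (nat_lit 15) (.e (nat_lit 2032) (nat_lit 140) (.e (nat_lit 688168) (nat_lit 15) .nil))))))) (.g (nat_lit 6) .nil .nil))))) (.nd (nat_lit 5) (.nd (nat_lit 6) 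
(.lf (nat_lit 163472) (.g (nat_lit 2613) (.e (nat_lit 57449) (nat_lit 20) (.e (nat_lit 401459) (nat_lit 13) (.e (nat_lit 483411) (nat_lit 27) (.e (nat_lit 401448) (nat_lit 10) (.e (nat_lit 434203) (nat_lit 18) (.e (nat_lit 6067) (nat_lit 328) .nil)))))) (.g (nat_lit 4) .nil .nil))) 
(.lf (nat_lit 163536) (.g (nat_lit 1280) (.e (nat_lit 57454) (nat_lit 21) (.e (nat_lit 499927) (nat_lit 10) (.e (nat_lit 188160) (nat_lit 32) (.e (nat_lit 1239) (nat_lit 91) (.e (nat_lit 90171) (nat_lit 14) (.e (nat_lit 188160) (nat_lit 35) .nil)))))) (.g (nat_lit 4) .nil .nil)))) (.nd (nat_lit 6) 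
(.lf (nat_lit 163504) (.g (nat_lit 2156) (.e (nat_lit 57450) (nat_lit 20) (.e (nat_lit 401459) (nat_lit 13) (.e (nat_lit 483344) (nat_lit 17) (.e (nat_lit 6724) (nat_lit 362) (.e (nat_lit 180225) (nat_lit 0) (.e (nat_lit 6063) (nat_lit 328) .nil)))))) (.g (nat_lit 4) .nil .nil))) 
(.lf (nat_lit 163568) (.g (nat_lit 2711) (.e (nat_lit 57463) (nat_lit 23) (.e (nat_lit 516151) (nat_lit 9) (.e (nat_lit 426211) (nat_lit 9) (.e (nat_lit 426125) (nat_lit 2) .nil)))) .nil))))) (.nd (nat_lit 4) (.nd (nat_lit 5) (.nd (nat_lit 6) 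
(.lf (nat_lit 163464) (.g (nat_lit 2369) (.e (nat_lit 57449) (nat_lit 20) (.e (nat_lit 401459) (nat_lit 13) (.e (nat_lit 483411) (nat_lit 27) (.e (nat_lit 401446) (nat_lit 10) (.e (nat_lit 434203) (nat_lit 18) .nil))))) .nil)) 
(.lf (nat_lit 163528) (.g (nat_lit 2528) (.e (nat_lit 57454) (nat_lit 21) (.e (nat_lit 499914) (nat_lit 9) (.e (nat_lit 172126) (nat_lit 14) (.e (nat_lit 491540) (nat_lit 3) (.e (nat_lit 98367) (nat_lit 27) (.e (nat_lit 442112) (nat_lit 3) .nil)))))) (.g (nat_lit 5) .nil .nil)))) (.nd (nat_lit 6) 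
(.lf (nat_lit 163496) (.g (nat_lit 2177) (.e (nat_lit 57450) (nat_lit 20) (.e (nat_lit 401454) (nat_lit 12) (.e (nat_lit 475210) (nat_lit 41) (.e (nat_lit 712753) (nat_lit 30) (.e (nat_lit 458496) (nat_lit 0) .nil))))) .nil)) 
(.lf (nat_lit 163560) (.g (nat_lit 1667) (.e (nat_lit 57462) (nat_lit 22) (.e (nat_lit 507923) (nat_lit 6) (.e (nat_lit 286749) (nat_lit 9) (.e (nat_lit 336028) (nat_lit 3) (.e (nat_lit 98325) (nat_lit 17) (.e (nat_lit 6986) (nat_lit 377) (.e (nat_lit 2403) (nat_lit 157) (.e (nat_lit 5396) (nat_lit 301) .nil)))))))) (.g (nat_lit 4) .nil .nil))))) (.nd (nat_lit 5) (.nd (nat_lit 6) 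
(.lf (nat_lit 163480) (.g (nat_lit 718) (.e (nat_lit 57450) (nat_lit 20) (.e (nat_lit 401454) (nat_lit 12) (.e (nat_lit 475207) (nat_lit 41) .nil))) .nil)) 
(.lf (nat_lit 163544) (.g (nat_lit 1897) (.e (nat_lit 57454) (nat_lit 21) (.e (nat_lit 507648) (nat_lit 11) (.e (nat_lit 188420) (nat_lit 0) (.e (nat_lit 1856) (nat_lit 124) (.e (nat_lit 557105) (nat_lit 14) (.e (nat_lit 188160) (nat_lit 35) .nil)))))) (.g (nat_lit 5) .nil .nil)))) (.nd (nat_lit 6) 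
(.lf (nat_lit 163512) (.g (nat_lit 2641) (.e (nat_lit 57450) (nat_lit 20) (.e (nat_lit 401459) (nat_lit 13) (.e (nat_lit 483411) (nat_lit 27) (.e (nat_lit 401448) (nat_lit 10) (.e (nat_lit 434200) (nat_lit 18) .nil))))) .nil)) 
(.lf (nat_lit 163576) (.g (nat_lit 3142) (.e (nat_lit 57463) (nat_lit 23) (.e (nat_lit 516163) (nat_lit 11) (.e (nat_lit 442427) (nat_lit 23) (.e (nat_lit 204846) (nat_lit 24) (.e (nat_lit 319504) (nat_lit 10) .nil))))) .nil)))))) (.nd (nat_lit 3) (.nd (nat_lit 4) (.nd (nat_lit 5) (.nd (nat_lit 6) 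
(.lf (nat_lit 163460) (.g (nat_lit 5032) (.e (nat_lit 57449) (nat_lit 20) (.e (nat_lit 401459) (nat_lit 13) (.e (nat_lit 483372) (nat_lit 21) (.e (nat_lit 319538) (nat_lit 19) .nil)))) .nil)) 
(.lf (nat_lit 163524) (.g (nat_lit 4275) (.e (nat_lit 57452) (nat_lit 21) (.e (nat_lit 500069) (nat_lit 19) (.e (nat_lit 73754) (nat_lit 8) (.e (nat_lit 557105) (nat_lit 14) (.e (nat_lit 180252) (nat_lit 10) (.e (nat_lit 573474) (nat_lit 12) (.e (nat_lit 57516) (nat_lit 42) (.e (nat_lit 671757) (nat_lit 3) .nil)))))))) (.g (nat_lit 8) .nil .nil)))) (.nd (nat_lit 6) 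
(.lf (nat_lit 163492) (.g (nat_lit 2421) (.e (nat_lit 57450) (nat_lit 20) (.e (nat_lit 401454) (nat_lit 12) (.e (nat_lit 475209) (nat_lit 41) (.e (nat_lit 712755) (nat_lit 30) (.e (nat_lit 450563) (nat_lit 0) (.e (nat_lit 5945) (nat_lit 322) .nil)))))) (.g (nat_lit 4) .nil .nil))) 
(.lf (nat_lit 163556) (.g (nat_lit 3026) (.e (nat_lit 57462) (nat_lit 22) (.e (nat_lit 507923) (nat_lit 6) (.e (nat_lit 286747) (nat_lit 9) (.e (nat_lit 336013) (nat_lit 2) (.e (nat_lit 90165) (nat_lit 12) (.e (nat_lit 164208) (nat_lit 176) (.e (nat_lit 2403) (nat_lit 157) (.e (nat_lit 5389) (nat_lit 301) .nil)))))))) (.g (nat_lit 5) .nil .nil))))) (.nd (nat_lit 5) (.nd (nat_lit 6) 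
(.lf (nat_lit 163476) (.g (nat_lit 2599) (.e (nat_lit 57450) (nat_lit 20) (.e (nat_lit 401454) (nat_lit 12) (.e (nat_lit 475198) (nat_lit 40) (.e (nat_lit 704598) (nat_lit 6) (.e (nat_lit 188444) (nat_lit 21) (.e (nat_lit 164398) (nat_lit 256) .nil)))))) (.g (nat_lit 5) .nil .nil))) 
(.lf (nat_lit 163540) (.g (nat_lit 1972) (.e (nat_lit 57454) (nat_lit 21) (.e (nat_lit 499933) (nat_lit 11) (.e (nat_lit 188418) (nat_lit 0) (.e (nat_lit 1856) (nat_lit 124) (.e (nat_lit 557105) (nat_lit 14) (.e (nat_lit 188160) (nat_lit 35) .nil)))))) (.g (nat_lit 5) .nil .nil)))) (.nd (nat_lit 6) 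
(.lf (nat_lit 163508) (.g (nat_lit 1908) (.e (nat_lit 57450) (nat_lit 20) (.e (nat_lit 401459) (nat_lit 13) (.e (nat_lit 483411) (nat_lit 27) (.e (nat_lit 401446) (nat_lit 10) .nil)))) .nil)) 
(.lf (nat_lit 163572) (.g (nat_lit 2688) (.e (nat_lit 57463) (nat_lit 23) (.e (nat_lit 516151) (nat_lit 9) (.e (nat_lit 426211) (nat_lit 9) (.e (nat_lit 426140) (nat_lit 3) .nil)))) .nil))))) (.nd (nat_lit 4) (.nd (nat_lit 5) (.nd (nat_lit 6) 
(.lf (nat_lit 163468) (.g (nat_lit 2690) (.e (nat_lit 57449) (nat_lit 20) (.e (nat_lit 401459) (nat_lit 13) (.e (nat_lit 483411) (nat_lit 27) (.e (nat_lit 401448) (nat_lit 10) (.e (nat_lit 434200) (nat_lit 18) (.e (nat_lit 6065) (nat_lit 328) .nil)))))) (.g (nat_lit 4) .nil .nil))) 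
(.lf (nat_lit 163532) (.g (nat_lit 2260) (.e (nat_lit 57454) (nat_lit 21) (.e (nat_lit 499925) (nat_lit 10) (.e (nat_lit 180278) (nat_lit 32) (.e (nat_lit 1235) (nat_lit 91) (.e (nat_lit 90174) (nat_lit 14) (.e (nat_lit 188160) (nat_lit 35) .nil)))))) (.g (nat_lit 5) .nil .nil)))) (.nd (nat_lit 6) 
(.lf (nat_lit 163500) (.g (nat_lit 1656) (.e (nat_lit 57450) (nat_lit 20) (.e (nat_lit 401459) (nat_lit 13) (.e (nat_lit 483344) (nat_lit 17) (.e (nat_lit 6722) (nat_lit 362) .nil)))) .nil)) 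
(.lf (nat_lit 163564) (.g (nat_lit 1932) (.e (nat_lit 57463) (nat_lit 23) (.e (nat_lit 516130) (nat_lit 3) (.e (nat_lit 221215) (nat_lit 23) (.e (nat_lit 204880) (nat_lit 32) (.e (nat_lit 385066) (nat_lit 26) .nil))))) .nil)))) (.nd (nat_lit 5) (.nd (nat_lit 6) 
(.lf (nat_lit 163484) (.g (nat_lit 2608) (.e (nat_lit 57450) (nat_lit 20) (.e (nat_lit 401454) (nat_lit 12) (.e (nat_lit 475208) (nat_lit 41) (.e (nat_lit 712755) (nat_lit 30) (.e (nat_lit 450562) (nat_lit 0) (.e (nat_lit 5945) (nat_lit 322) .nil)))))) (.g (nat_lit 4) .nil .nil))) 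
(.lf (nat_lit 163548) (.g (nat_lit 2307) (.e (nat_lit 57454) (nat_lit 21) (.e (nat_lit 507648) (nat_lit 13) (.e (nat_lit 237618) (nat_lit 12) (.e (nat_lit 475185) (nat_lit 29) (.e (nat_lit 557103) (nat_lit 14) (.e (nat_lit 188160) (nat_lit 35) .nil)))))) (.g (nat_lit 5) .nil .nil)))) (.nd (nat_lit 6) 
(.lf (nat_lit 163516) (.g (nat_lit 3395) (.e (nat_lit 57450) (nat_lit 20) (.e (nat_lit 401459) (nat_lit 13) (.e (nat_lit 483411) (nat_lit 27) (.e (nat_lit 401448) (nat_lit 10) (.e (nat_lit 434208) (nat_lit 18) (.e (nat_lit 6063) (nat_lit 328) .nil)))))) (.g (nat_lit 5) .nil .nil))) 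
(.lf (nat_lit 163580) (.g (nat_lit 3471) (.e (nat_lit 57463) (nat_lit 23) (.e (nat_lit 516166) (nat_lit 12) (.e (nat_lit 450587) (nat_lit 10) (.e (nat_lit 573457) (nat_lit 9) .nil)))) .nil))))))) (.nd (nat_lit 2) (.nd (nat_lit 3) (.nd (nat_lit 4) (.nd (nat_lit 5) (.nd (nat_lit 6) 
(.lf (nat_lit 163458) (.g (nat_lit 5350) (.e (nat_lit 57449) (nat_lit 20) (.e (nat_lit 401459) (nat_lit 13) (.e (nat_lit 483372) (nat_lit 21) (.e (nat_lit 319534) (nat_lit 16) (.e (nat_lit 286728) (nat_lit 0) .nil))))) .nil)) 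
(.lf (nat_lit 163522) (.g (nat_lit 2483) (.e (nat_lit 57451) (nat_lit 20) (.e (nat_lit 401448) (nat_lit 10) (.e (nat_lit 434289) (nat_lit 43) (.e (nat_lit 696344) (nat_lit 8) (.e (nat_lit 172113) (nat_lit 10) .nil))))) .nil))) (.nd (nat_lit 6) 
(.lf (nat_lit 163490) (.g (nat_lit 1425) (.e (nat_lit 57450) (nat_lit 20) (.e (nat_lit 401454) (nat_lit 12) (.e (nat_lit 475209) (nat_lit 41) (.e (nat_lit 712755) (nat_lit 30) .nil)))) .nil)) 
(.lf (nat_lit 163554) (.g (nat_lit 3238) (.e (nat_lit 57462) (nat_lit 22) (.e (nat_lit 507907) (nat_lit 0) (.e (nat_lit 5409) (nat_lit 303) (.e (nat_lit 73747) (nat_lit 3) (.e (nat_lit 516139) (nat_lit 7) (.e (nat_lit 409616) (nat_lit 10) (.e (nat_lit 7936) (nat_lit 301) .nil))))))) (.g (nat_lit 6) .nil .nil))))) (.nd (nat_lit 5) (.nd (nat_lit 6) 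
(.lf (nat_lit 163474) (.g (nat_lit 1144) (.e (nat_lit 57450) (nat_lit 20) (.e (nat_lit 401454) (nat_lit 12) (.e (nat_lit 475197) (nat_lit 40) .nil))) .nil)) 
(.lf (nat_lit 163538) (.g (nat_lit 1924) (.e (nat_lit 57454) (nat_lit 21) (.e (nat_lit 499931) (nat_lit 11) (.e (nat_lit 188420) (nat_lit 0) (.e (nat_lit 1856) (nat_lit 124) (.e (nat_lit 557103) (nat_lit 14) (.e (nat_lit 188160) (nat_lit 35) .nil)))))) (.g (nat_lit 5) .nil .nil)))) (.nd (nat_lit 6) 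
(.lf (nat_lit 163506) (.g (nat_lit 4135) (.e (nat_lit 57450) (nat_lit 20) (.e (nat_lit 401459) (nat_lit 13) (.e (nat_lit 483372) (nat_lit 21) (.e (nat_lit 319534) (nat_lit 16) .nil)))) .nil)) 
(.lf (nat_lit 163570) (.g (nat_lit 4632) (.e (nat_lit 57463) (nat_lit 23) (.e (nat_lit 516151) (nat_lit 9) (.e (nat_lit 426211) (nat_lit 9) (.e (nat_lit 426125) (nat_lit 2) (.e (nat_lit 196683) (nat_lit 18) .nil))))) .nil))))) (.nd (nat_lit 4) (.nd (nat_lit 5) (.nd (nat_lit 6) 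
(.lf (nat_lit 163466) (.g (nat_lit 1554) (.e (nat_lit 57449) (nat_lit 20) (.e (nat_lit 401459) (nat_lit 13) (.e (nat_lit 483411) (nat_lit 27) (.e (nat_lit 401448) (nat_lit 10) .nil)))) .nil)) 
(.lf (nat_lit 163530) (.g (nat_lit 2076) (.e (nat_lit 57454) (nat_lit 21) (.e (nat_lit 499924) (nat_lit 10) (.e (nat_lit 180278) (nat_lit 32) (.e (nat_lit 1235) (nat_lit 91) (.e (nat_lit 90174) (nat_lit 14) (.e (nat_lit 188160) (nat_lit 35) .nil)))))) (.g (nat_lit 5) .nil .nil)))) (.nd (nat_lit 6) 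
(.lf (nat_lit 163498) (.g (nat_lit 2489) (.e (nat_lit 57450) (nat_lit 20) (.e (nat_lit 401454) (nat_lit 12) (.e (nat_lit 475210) (nat_lit 41) (.e (nat_lit 712755) (nat_lit 30) (.e (nat_lit 450569) (nat_lit 0) .nil))))) .nil)) 
(.lf (nat_lit 163562) (.g (nat_lit 1820) (.e (nat_lit 57463) (nat_lit 23) (.e (nat_lit 516130) (nat_lit 3) (.e (nat_lit 221214) (nat_lit 23) (.e (nat_lit 204852) (nat_lit 26) (.e (nat_lit 336326) (nat_lit 18) (.e (nat_lit 204831) (nat_lit 18) (.e (nat_lit 57830) (nat_lit 250) (.e (nat_lit 1183) (nat_lit 87) .nil)))))))) (.g (nat_lit 4) .nil .nil))))) (.nd (nat_lit 5) (.nd (nat_lit 6) 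
(.lf (nat_lit 163482) (.g (nat_lit 1987) (.e (nat_lit 57450) (nat_lit 20) (.e (nat_lit 401454) (nat_lit 12) (.e (nat_lit 475207) (nat_lit 41) (.e (nat_lit 712755) (nat_lit 30) (.e (nat_lit 450569) (nat_lit 0) (.e (nat_lit 5947) (nat_lit 322) .nil)))))) (.g (nat_lit 4) .nil .nil))) 
(.lf (nat_lit 163546) (.g (nat_lit 1623) (.e (nat_lit 57454) (nat_lit 21) (.e (nat_lit 507648) (nat_lit 13) (.e (nat_lit 237612) (nat_lit 9) (.e (nat_lit 426124) (nat_lit 2) (.e (nat_lit 196677) (nat_lit 16) (.e (nat_lit 123080) (nat_lit 177) (.e (nat_lit 65280) (nat_lit 273) .nil))))))) (.g (nat_lit 6) .nil .nil)))) (.nd (nat_lit 6) 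
(.lf (nat_lit 163514) (.g (nat_lit 2676) (.e (nat_lit 57450) (nat_lit 20) (.e (nat_lit 401459) (nat_lit 13) (.e (nat_lit 483411) (nat_lit 27) (.e (nat_lit 401448) (nat_lit 10) (.e (nat_lit 434202) (nat_lit 18) .nil))))) .nil)) 
(.lf (nat_lit 163578) (.g (nat_lit 4344) (.e (nat_lit 57463) (nat_lit 23) (.e (nat_lit 516166) (nat_lit 12) (.e (nat_lit 450587) (nat_lit 10) (.e (nat_lit 573454) (nat_lit 9) .nil)))) .nil)))))) (.nd (nat_lit 3) (.nd (nat_lit 4) (.nd (nat_lit 5) (.nd (nat_lit 6) 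
(.lf (nat_lit 163462) (.g (nat_lit 2117) (.e (nat_lit 57449) (nat_lit 20) (.e (nat_lit 401459) (nat_lit 13) (.e (nat_lit 483410) (nat_lit 27) (.e (nat_lit 401454) (nat_lit 12) .nil)))) .nil)) 
(.lf (nat_lit 163526) (.g (nat_lit 3693) (.e (nat_lit 57454) (nat_lit 21) (.e (nat_lit 499727) (nat_lit 0) (.e (nat_lit 2777) (nat_lit 178) (.e (nat_lit 286761) (nat_lit 13) (.e (nat_lit 393225) (nat_lit 9) (.e (nat_lit 335995) (nat_lit 1) (.e (nat_lit 57872) (nat_lit 264) (.e (nat_lit 1170) (nat_lit 87) .nil)))))))) (.g (nat_lit 6) .nil .nil)))) (.nd (nat_lit 6) 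
(.lf (nat_lit 163494) (.g (nat_lit 1585) (.e (nat_lit 57450) (nat_lit 20) (.e (nat_lit 401454) (nat_lit 12) (.e (nat_lit 475210) (nat_lit 41) (.e (nat_lit 712753) (nat_lit 30) .nil)))) .nil)) 
(.lf (nat_lit 163558) (.g (nat_lit 3356) (.e (nat_lit 57462) (nat_lit 22) (.e (nat_lit 507923) (nat_lit 6) (.e (nat_lit 286747) (nat_lit 9) (.e (nat_lit 336028) (nat_lit 3) (.e (nat_lit 98350) (nat_lit 24) (.e (nat_lit 409616) (nat_lit 10) (.e (nat_lit 7936) (nat_lit 301) .nil))))))) (.g (nat_lit 6) .nil .nil))))) (.nd (nat_lit 5) (.nd (nat_lit 6) 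
(.lf (nat_lit 163478) (.g (nat_lit 1777) (.e (nat_lit 57450) (nat_lit 20) (.e (nat_lit 401454) (nat_lit 12) (.e (nat_lit 475198) (nat_lit 40) (.e (nat_lit 704603) (nat_lit 8) .nil)))) .nil)) 
(.lf (nat_lit 163542) (.g (nat_lit 1795) (.e (nat_lit 57454) (nat_lit 21) (.e (nat_lit 507648) (nat_lit 11) (.e (nat_lit 188418) (nat_lit 0) (.e (nat_lit 1856) (nat_lit 124) (.e (nat_lit 557105) (nat_lit 14) (.e (nat_lit 188160) (nat_lit 35) .nil)))))) (.g (nat_lit 5) .nil .nil)))) (.nd (nat_lit 6) 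
(.lf (nat_lit 163510) (.g (nat_lit 2466) (.e (nat_lit 57450) (nat_lit 20) (.e (nat_lit 401459) (nat_lit 13) (.e (nat_lit 483411) (nat_lit 27) (.e (nat_lit 401446) (nat_lit 10) (.e (nat_lit 434208) (nat_lit 18) .nil))))) .nil)) 
(.lf (nat_lit 163574) (.g (nat_lit 3962) (.e (nat_lit 57463) (nat_lit 23) (.e (nat_lit 516151) (nat_lit 9) (.e (nat_lit 426211) (nat_lit 9) (.e (nat_lit 426140) (nat_lit 3) (.e (nat_lit 204849) (nat_lit 25) .nil))))) .nil))))) (.nd (nat_lit 4) (.nd (nat_lit 5) (.nd (nat_lit 6) 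
(.lf (nat_lit 163470) (.g (nat_lit 2615) (.e (nat_lit 57449) (nat_lit 20) (.e (nat_lit 401459) (nat_lit 13) (.e (nat_lit 483411) (nat_lit 27) (.e (nat_lit 401448) (nat_lit 10) (.e (nat_lit 434202) (nat_lit 18) .nil))))) .nil)) 
(.lf (nat_lit 163534) (.g (nat_lit 1780) (.e (nat_lit 57454) (nat_lit 21) (.e (nat_lit 499927) (nat_lit 10) (.e (nat_lit 180277) (nat_lit 32) (.e (nat_lit 1235) (nat_lit 91) (.e (nat_lit 90172) (nat_lit 14) (.e (nat_lit 188160) (nat_lit 35) .nil)))))) (.g (nat_lit 5) .nil .nil)))) (.nd (nat_lit 6) 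
(.lf (nat_lit 163502) (.g (nat_lit 2057) (.e (nat_lit 57450) (nat_lit 20) (.e (nat_lit 401459) (nat_lit 13) (.e (nat_lit 483344) (nat_lit 17) (.e (nat_lit 6722) (nat_lit 362) (.e (nat_lit 180226) (nat_lit 0) .nil))))) .nil)) 
(.lf (nat_lit 163566) (.g (nat_lit 2801) (.e (nat_lit 57463) (nat_lit 23) (.e (nat_lit 516151) (nat_lit 9) (.e (nat_lit 426211) (nat_lit 9) (.e (nat_lit 426003) (nat_lit 0) .nil)))) .nil)))) (.nd (nat_lit 5) (.nd (nat_lit 6) 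
(.lf (nat_lit 163486) (.g (nat_lit 709) (.e (nat_lit 57450) (nat_lit 20) (.e (nat_lit 401454) (nat_lit 12) (.e (nat_lit 475209) (nat_lit 41) .nil))) .nil)) 
(.lf (nat_lit 163550) (.g (nat_lit 2145) (.e (nat_lit 57454) (nat_lit 21) (.e (nat_lit 507648) (nat_lit 19) (.e (nat_lit 73753) (nat_lit 8) (.e (nat_lit 557098) (nat_lit 13) (.e (nat_lit 172062) (nat_lit 2) (.e (nat_lit 196661) (nat_lit 12) (.e (nat_lit 57573) (nat_lit 55) (.e (nat_lit 778316) (nat_lit 3) .nil)))))))) (.g (nat_lit 7) .nil .nil)))) (.nd (nat_lit 6) 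
(.lf (nat_lit 163518) (.g (nat_lit 1417) (.e (nat_lit 57451) (nat_lit 20) (.e (nat_lit 401446) (nat_lit 10) (.e (nat_lit 434271) (nat_lit 38) (.e (nat_lit 655363) (nat_lit 0) .nil)))) .nil)) 
(.lf (nat_lit 163582) (.g (nat_lit 1015) (.e (nat_lit 57463) (nat_lit 23) (.e (nat_lit 516166) (nat_lit 12) (.e (nat_lit 450588) (nat_lit 10) .nil))) .nil)))))))) (.nd (nat_lit 1) (.nd (nat_lit 2) (.nd (nat_lit 3) (.nd (nat_lit 4) (.nd (nat_lit 5) (.nd (nat_lit 6) 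
(.lf (nat_lit 163457) (.g (nat_lit 4224) (.e (nat_lit 57449) (nat_lit 20) (.e (nat_lit 401459) (nat_lit 13) (.e (nat_lit 483372) (nat_lit 21) (.e (nat_lit 319534) (nat_lit 16) .nil)))) .nil)) 
(.lf (nat_lit 163521) (.g (nat_lit 1421) (.e (nat_lit 57451) (nat_lit 20) (.e (nat_lit 401448) (nat_lit 10) (.e (nat_lit 434272) (nat_lit 38) (.e (nat_lit 655380) (nat_lit 6) .nil)))) .nil))) (.nd (nat_lit 6) 
(.lf (nat_lit 163489) (.g (nat_lit 1671) (.e (nat_lit 57450) (nat_lit 20) (.e (nat_lit 401454) (nat_lit 12) (.e (nat_lit 475209) (nat_lit 41) (.e (nat_lit 712753) (nat_lit 30) (.e (nat_lit 450569) (nat_lit 0) .nil))))) .nil)) 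
(.lf (nat_lit 163553) (.g (nat_lit 2897) (.e (nat_lit 57462) (nat_lit 22) (.e (nat_lit 507906) (nat_lit 0) (.e (nat_lit 5412) (nat_lit 303) (.e (nat_lit 73746) (nat_lit 3) (.e (nat_lit 516139) (nat_lit 7) (.e (nat_lit 409616) (nat_lit 10) (.e (nat_lit 7936) (nat_lit 301) .nil))))))) (.g (nat_lit 6) .nil .nil))))) (.nd (nat_lit 5) (.nd (nat_lit 6) 
(.lf (nat_lit 163473) (.g (nat_lit 3435) (.e (nat_lit 57449) (nat_lit 20) (.e (nat_lit 401459) (nat_lit 13) (.e (nat_lit 483411) (nat_lit 27) (.e (nat_lit 401448) (nat_lit 10) (.e (nat_lit 434208) (nat_lit 18) (.e (nat_lit 6063) (nat_lit 328) .nil)))))) (.g (nat_lit 5) .nil .nil))) 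
(.lf (nat_lit 163537) (.g (nat_lit 1816) (.e (nat_lit 57454) (nat_lit 21) (.e (nat_lit 499930) (nat_lit 11) (.e (nat_lit 188420) (nat_lit 0) (.e (nat_lit 1856) (nat_lit 124) (.e (nat_lit 557103) (nat_lit 14) (.e (nat_lit 188160) (nat_lit 35) .nil)))))) (.g (nat_lit 5) .nil .nil)))) (.nd (nat_lit 6) 
(.lf (nat_lit 163505) (.g (nat_lit 3974) (.e (nat_lit 57450) (nat_lit 20) (.e (nat_lit 401459) (nat_lit 13) (.e (nat_lit 483372) (nat_lit 21) (.e (nat_lit 319533) (nat_lit 16) .nil)))) .nil)) 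
(.lf (nat_lit 163569) (.g (nat_lit 5176) (.e (nat_lit 57463) (nat_lit 23) (.e (nat_lit 516151) (nat_lit 9) (.e (nat_lit 426211) (nat_lit 9) (.e (nat_lit 426125) (nat_lit 2) (.e (nat_lit 196626) (nat_lit 9) .nil))))) .nil))))) (.nd (nat_lit 4) (.nd (nat_lit 5) (.nd (nat_lit 6) 
(.lf (nat_lit 163465) (.g (nat_lit 2400) (.e (nat_lit 57449) (nat_lit 20) (.e (nat_lit 401459) (nat_lit 13) (.e (nat_lit 483411) (nat_lit 27) (.e (nat_lit 401446) (nat_lit 10) (.e (nat_lit 434208) (nat_lit 18) .nil))))) .nil)) 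
(.lf (nat_lit 163529) (.g (nat_lit 2124) (.e (nat_lit 57454) (nat_lit 21) (.e (nat_lit 499924) (nat_lit 10) (.e (nat_lit 180277) (nat_lit 32) (.e (nat_lit 1235) (nat_lit 91) (.e (nat_lit 90174) (nat_lit 14) (.e (nat_lit 188160) (nat_lit 35) .nil)))))) (.g (nat_lit 5) .nil .nil)))) (.nd (nat_lit 6) 
(.lf (nat_lit 163497) (.g (nat_lit 1572) (.e (nat_lit 57450) (nat_lit 20) (.e (nat_lit 401454) (nat_lit 12) (.e (nat_lit 475210) (nat_lit 41) (.e (nat_lit 712755) (nat_lit 30) .nil)))) .nil)) 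
(.lf (nat_lit 163561) (.g (nat_lit 4038) (.e (nat_lit 57462) (nat_lit 22) (.e (nat_lit 507923) (nat_lit 6) (.e (nat_lit 286749) (nat_lit 9) (.e (nat_lit 336028) (nat_lit 3) (.e (nat_lit 98350) (nat_lit 24) (.e (nat_lit 409616) (nat_lit 10) (.e (nat_lit 7936) (nat_lit 301) .nil))))))) (.g (nat_lit 6) .nil .nil))))) (.nd (nat_lit 5) (.nd (nat_lit 6) 
(.lf (nat_lit 163481) (.g (nat_lit 1901) (.e (nat_lit 57450) (nat_lit 20) (.e (nat_lit 401454) (nat_lit 12) (.e (nat_lit 475207) (nat_lit 41) (.e (nat_lit 712755) (nat_lit 30) (.e (nat_lit 450560) (nat_lit 0) .nil))))) .nil)) 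
(.lf (nat_lit 163545) (.g (nat_lit 1224) (.e (nat_lit 57454) (nat_lit 21) (.e (nat_lit 507648) (nat_lit 13) (.e (nat_lit 237612) (nat_lit 9) (.e (nat_lit 426116) (nat_lit 2) (.e (nat_lit 196677) (nat_lit 16) (.e (nat_lit 123080) (nat_lit 177) (.e (nat_lit 65280) (nat_lit 273) .nil))))))) (.g (nat_lit 6) .nil .nil)))) (.nd (nat_lit 6) 
(.lf (nat_lit 163513) (.g (nat_lit 2729) (.e (nat_lit 57450) (nat_lit 20) (.e (nat_lit 401459) (nat_lit 13) (.e (nat_lit 483411) (nat_lit 27) (.e (nat_lit 401448) (nat_lit 10) (.e (nat_lit 434200) (nat_lit 18) (.e (nat_lit 6068) (nat_lit 328) .nil)))))) (.g (nat_lit 4) .nil .nil))) 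
(.lf (nat_lit 163577) (.g (nat_lit 3439) (.e (nat_lit 57463) (nat_lit 23) (.e (nat_lit 516166) (nat_lit 12) (.e (nat_lit 450580) (nat_lit 5) (.e (nat_lit 532523) (nat_lit 7) .nil)))) .nil)))))) (.nd (nat_lit 3) (.nd (nat_lit 4) (.nd (nat_lit 5) (.nd (nat_lit 6) 
(.lf (nat_lit 163461) (.g (nat_lit 1062) (.e (nat_lit 57449) (nat_lit 20) (.e (nat_lit 401459) (nat_lit 13) (.e (nat_lit 483410) (nat_lit 27) .nil))) .nil)) 
(.lf (nat_lit 163525) (.g (nat_lit 1996) (.e (nat_lit 57453) (nat_lit 21) (.e (nat_lit 500069) (nat_lit 19) (.e (nat_lit 73753) (nat_lit 8) (.e (nat_lit 557103) (nat_lit 14) (.e (nat_lit 180250) (nat_lit 10) .nil))))) .nil))) (.nd (nat_lit 6) 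
(.lf (nat_lit 163493) (.g (nat_lit 840) (.e (nat_lit 57450) (nat_lit 20) (.e (nat_lit 401454) (nat_lit 12) (.e (nat_lit 475210) (nat_lit 41) .nil))) .nil)) 
(.lf (nat_lit 163557) (.g (nat_lit 3686) (.e (nat_lit 57462) (nat_lit 22) (.e (nat_lit 507923) (nat_lit 6) (.e (nat_lit 286747) (nat_lit 9) (.e (nat_lit 336013) (nat_lit 2) (.e (nat_lit 90165) (nat_lit 12) (.e (nat_lit 164208) (nat_lit 176) (.e (nat_lit 2403) (nat_lit 157) (.e (nat_lit 5396) (nat_lit 301) .nil)))))))) (.g (nat_lit 8) .nil .nil))))) (.nd (nat_lit 5) (.nd (nat_lit 6) 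
(.lf (nat_lit 163477) (.g (nat_lit 1531) (.e (nat_lit 57450) (nat_lit 20) (.e (nat_lit 401454) (nat_lit 12) (.e (nat_lit 475198) (nat_lit 40) (.e (nat_lit 704599) (nat_lit 6) .nil)))) .nil)) 
(.lf (nat_lit 163541) (.g (nat_lit 1926) (.e (nat_lit 57454) (nat_lit 21) (.e (nat_lit 507648) (nat_lit 11) (.e (nat_lit 188418) (nat_lit 0) (.e (nat_lit 1856) (nat_lit 124) (.e (nat_lit 557103) (nat_lit 14) (.e (nat_lit 188160) (nat_lit 35) .nil)))))) (.g (nat_lit 5) .nil .nil)))) (.nd (nat_lit 6) 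
(.lf (nat_lit 163509) (.g (nat_lit 2435) (.e (nat_lit 57450) (nat_lit 20) (.e (nat_lit 401459) (nat_lit 13) (.e (nat_lit 483411) (nat_lit 27) (.e (nat_lit 401446) (nat_lit 10) (.e (nat_lit 434203) (nat_lit 18) .nil))))) .nil)) 
(.lf (nat_lit 163573) (.g (nat_lit 3439) (.e (nat_lit 57463) (nat_lit 23) (.e (nat_lit 516151) (nat_lit 9) (.e (nat_lit 426211) (nat_lit 9) (.e (nat_lit 426140) (nat_lit 3) (.e (nat_lit 204845) (nat_lit 24) (.e (nat_lit 319500) (nat_lit 10) (.e (nat_lit 5391) (nat_lit 301) .nil))))))) (.g (nat_lit 4) .nil .nil)))))) (.nd (nat_lit 4) (.nd (nat_lit 5) (.nd (nat_lit 6) 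
(.lf (nat_lit 163469) (.g (nat_lit 2704) (.e (nat_lit 57449) (nat_lit 20) (.e (nat_lit 401459) (nat_lit 13) (.e (nat_lit 483411) (nat_lit 27) (.e (nat_lit 401448) (nat_lit 10) (.e (nat_lit 434200) (nat_lit 18) (.e (nat_lit 6068) (nat_lit 328) .nil)))))) (.g (nat_lit 4) .nil .nil))) 
(.lf (nat_lit 163533) (.g (nat_lit 1313) (.e (nat_lit 57454) (nat_lit 21) (.e (nat_lit 499925) (nat_lit 10) (.e (nat_lit 188160) (nat_lit 32) (.e (nat_lit 1239) (nat_lit 91) (.e (nat_lit 90171) (nat_lit 14) (.e (nat_lit 188160) (nat_lit 35) .nil)))))) (.g (nat_lit 4) .nil .nil)))) (.nd (nat_lit 6) 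
(.lf (nat_lit 163501) (.g (nat_lit 2078) (.e (nat_lit 57450) (nat_lit 20) (.e (nat_lit 401459) (nat_lit 13) (.e (nat_lit 483344) (nat_lit 17) (.e (nat_lit 6722) (nat_lit 362) (.e (nat_lit 180225) (nat_lit 0) .nil))))) .nil)) 
(.lf (nat_lit 163565) (.g (nat_lit 1264) (.e (nat_lit 57463) (nat_lit 23) (.e (nat_lit 516151) (nat_lit 9) (.e (nat_lit 426211) (nat_lit 9) .nil))) .nil)))) (.nd (nat_lit 5) (.nd (nat_lit 6) 
(.lf (nat_lit 163485) (.g (nat_lit 2548) (.e (nat_lit 57450) (nat_lit 20) (.e (nat_lit 401454) (nat_lit 12) (.e (nat_lit 475208) (nat_lit 41) (.e (nat_lit 712755) (nat_lit 30) (.e (nat_lit 450569) (nat_lit 0) (.e (nat_lit 5947) (nat_lit 322) .nil)))))) (.g (nat_lit 4) .nil .nil))) 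
(.lf (nat_lit 163549) (.g (nat_lit 2322) (.e (nat_lit 57454) (nat_lit 21) (.e (nat_lit 507648) (nat_lit 13) (.e (nat_lit 237618) (nat_lit 12) (.e (nat_lit 475185) (nat_lit 29) (.e (nat_lit 557105) (nat_lit 14) (.e (nat_lit 188160) (nat_lit 35) .nil)))))) (.g (nat_lit 5) .nil .nil)))) (.nd (nat_lit 6) 
(.lf (nat_lit 163517) (.g (nat_lit 783) (.e (nat_lit 57451) (nat_lit 20) (.e (nat_lit 401446) (nat_lit 10) (.e (nat_lit 434271) (nat_lit 38) .nil))) .nil)) 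
(.lf (nat_lit 163581) (.g (nat_lit 3810) (.e (nat_lit 57463) (nat_lit 23) (.e (nat_lit 516166) (nat_lit 12) (.e (nat_lit 450587) (nat_lit 10) (.e (nat_lit 573469) (nat_lit 11) .nil)))) .nil))))))) (.nd (nat_lit 2) (.nd (nat_lit 3) (.nd (nat_lit 4) (.nd (nat_lit 5) (.nd (nat_lit 6) 
(.lf (nat_lit 163459) (.g (nat_lit 4138) (.e (nat_lit 57449) (nat_lit 20) (.e (nat_lit 401459) (nat_lit 13) (.e (nat_lit 483372) (nat_lit 21) (.e (nat_lit 319537) (nat_lit 19) .nil)))) .nil)) 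
(.lf (nat_lit 163523) (.g (nat_lit 807) (.e (nat_lit 57451) (nat_lit 20) (.e (nat_lit 401450) (nat_lit 12) (.e (nat_lit 475211) (nat_lit 41) .nil))) .nil))) (.nd (nat_lit 6) 
(.lf (nat_lit 163491) (.g (nat_lit 2695) (.e (nat_lit 57450) (nat_lit 20) (.e (nat_lit 401454) (nat_lit 12) (.e (nat_lit 475209) (nat_lit 41) (.e (nat_lit 712755) (nat_lit 30) (.e (nat_lit 450560) (nat_lit 0) (.e (nat_lit 5937) (nat_lit 322) .nil)))))) (.g (nat_lit 4) .nil .nil))) 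
(.lf (nat_lit 163555) (.g (nat_lit 3220) (.e (nat_lit 57462) (nat_lit 22) (.e (nat_lit 507908) (nat_lit 0) (.e (nat_lit 5409) (nat_lit 303) (.e (nat_lit 73747) (nat_lit 3) (.e (nat_lit 516139) (nat_lit 7) (.e (nat_lit 409616) (nat_lit 10) (.e (nat_lit 7936) (nat_lit 301) .nil))))))) (.g (nat_lit 6) .nil .nil))))) (.nd (nat_lit 5) (.nd (nat_lit 6) 
(.lf (nat_lit 163475) (.g (nat_lit 1657) (.e (nat_lit 57450) (nat_lit 20) (.e (nat_lit 401454) (nat_lit 12) (.e (nat_lit 475198) (nat_lit 40) (.e (nat_lit 704598) (nat_lit 6) .nil)))) .nil)) 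
(.lf (nat_lit 163539) (.g (nat_lit 2101) (.e (nat_lit 57454) (nat_lit 21) (.e (nat_lit 499933) (nat_lit 11) (.e (nat_lit 188418) (nat_lit 0) (.e (nat_lit 1856) (nat_lit 124) (.e (nat_lit 557103) (nat_lit 14) (.e (nat_lit 188160) (nat_lit 35) .nil)))))) (.g (nat_lit 5) .nil .nil)))) (.nd (nat_lit 6) 
(.lf (nat_lit 163507) (.g (nat_lit 1115) (.e (nat_lit 57450) (nat_lit 20) (.e (nat_lit 401459) (nat_lit 13) (.e (nat_lit 483410) (nat_lit 27) .nil))) .nil)) 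
(.lf (nat_lit 163571) (.g (nat_lit 2933) (.e (nat_lit 57463) (nat_lit 23) (.e (nat_lit 516151) (nat_lit 9) (.e (nat_lit 426211) (nat_lit 9) (.e (nat_lit 426125) (nat_lit 2) (.e (nat_lit 204544) (nat_lit 18) .nil))))) .nil))))) (.nd (nat_lit 4) (.nd (nat_lit 5) (.nd (nat_lit 6) 
(.lf (nat_lit 163467) (.g (nat_lit 2579) (.e (nat_lit 57449) (nat_lit 20) (.e (nat_lit 401459) (nat_lit 13) (.e (nat_lit 483411) (nat_lit 27) (.e (nat_lit 401448) (nat_lit 10) (.e (nat_lit 434200) (nat_lit 18) .nil))))) .nil)) 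
(.lf (nat_lit 163531) (.g (nat_lit 2232) (.e (nat_lit 57454) (nat_lit 21) (.e (nat_lit 499925) (nat_lit 10) (.e (nat_lit 180277) (nat_lit 32) (.e (nat_lit 1235) (nat_lit 91) (.e (nat_lit 90174) (nat_lit 14) (.e (nat_lit 188160) (nat_lit 35) .nil)))))) (.g (nat_lit 5) .nil .nil)))) (.nd (nat_lit 6) 
(.lf (nat_lit 163499) (.g (nat_lit 2340) (.e (nat_lit 57450) (nat_lit 20) (.e (nat_lit 401454) (nat_lit 12) (.e (nat_lit 475210) (nat_lit 41) (.e (nat_lit 712755) (nat_lit 30) (.e (nat_lit 458496) (nat_lit 0) .nil))))) .nil)) 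
(.lf (nat_lit 163563) (.g (nat_lit 1775) (.e (nat_lit 57463) (nat_lit 23) (.e (nat_lit 516130) (nat_lit 3) (.e (nat_lit 221214) (nat_lit 23) (.e (nat_lit 204880) (nat_lit 32) (.e (nat_lit 385066) (nat_lit 26) .nil))))) .nil)))) (.nd (nat_lit 5) (.nd (nat_lit 6) 
(.lf (nat_lit 163483) (.g (nat_lit 1451) (.e (nat_lit 57450) (nat_lit 20) (.e (nat_lit 401454) (nat_lit 12) (.e (nat_lit 475208) (nat_lit 41) .nil))) .nil)) 
(.lf (nat_lit 163547) (.g (nat_lit 1530) (.e (nat_lit 57454) (nat_lit 21) (.e (nat_lit 507648) (nat_lit 13) (.e (nat_lit 237618) (nat_lit 12) (.e (nat_lit 475184) (nat_lit 29) (.e (nat_lit 557105) (nat_lit 14) (.e (nat_lit 188160) (nat_lit 35) .nil)))))) (.g (nat_lit 5) .nil .nil)))) (.nd (nat_lit 6) 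
(.lf (nat_lit 163515) (.g (nat_lit 2589) (.e (nat_lit 57450) (nat_lit 20) (.e (nat_lit 401459) (nat_lit 13) (.e (nat_lit 483411) (nat_lit 27) (.e (nat_lit 401448) (nat_lit 10) (.e (nat_lit 434203) (nat_lit 18) .nil))))) .nil)) 
(.lf (nat_lit 163579) (.g (nat_lit 3497) (.e (nat_lit 57463) (nat_lit 23) (.e (nat_lit 516166) (nat_lit 12) (.e (nat_lit 450587) (nat_lit 10) (.e (nat_lit 573456) (nat_lit 9) .nil)))) .nil)))))) (.nd (nat_lit 3) (.nd (nat_lit 4) (.nd (nat_lit 5) (.nd (nat_lit 6) 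
(.lf (nat_lit 163463) (.g (nat_lit 1841) (.e (nat_lit 57449) (nat_lit 20) (.e (nat_lit 401459) (nat_lit 13) (.e (nat_lit 483411) (nat_lit 27) (.e (nat_lit 401446) (nat_lit 10) .nil)))) .nil)) 
(.lf (nat_lit 163527) (.g (nat_lit 2842) (.e (nat_lit 57454) (nat_lit 21) (.e (nat_lit 499913) (nat_lit 9) (.e (nat_lit 172126) (nat_lit 14) (.e (nat_lit 491540) (nat_lit 3) (.e (nat_lit 98367) (nat_lit 27) (.e (nat_lit 442112) (nat_lit 3) .nil)))))) (.g (nat_lit 5) .nil .nil)))) (.nd (nat_lit 6) 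
(.lf (nat_lit 163495) (.g (nat_lit 2275) (.e (nat_lit 57450) (nat_lit 20) (.e (nat_lit 401454) (nat_lit 12) (.e (nat_lit 475210) (nat_lit 41) (.e (nat_lit 712753) (nat_lit 30) (.e (nat_lit 450561) (nat_lit 0) .nil))))) .nil)) 
(.lf (nat_lit 163559) (.g (nat_lit 3066) (.e (nat_lit 57462) (nat_lit 22) (.e (nat_lit 507923) (nat_lit 6) (.e (nat_lit 286749) (nat_lit 9) (.e (nat_lit 336013) (nat_lit 2) (.e (nat_lit 90165) (nat_lit 12) (.e (nat_lit 164208) (nat_lit 176) (.e (nat_lit 2403) (nat_lit 157) (.e (nat_lit 5396) (nat_lit 301) .nil)))))))) (.g (nat_lit 5) .nil .nil))))) (.nd (nat_lit 5) (.nd (nat_lit 6) 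
(.lf (nat_lit 163479) (.g (nat_lit 1451) (.e (nat_lit 57450) (nat_lit 20) (.e (nat_lit 401454) (nat_lit 12) (.e (nat_lit 475200) (nat_lit 40) .nil))) .nil)) 
(.lf (nat_lit 163543) (.g (nat_lit 1928) (.e (nat_lit 57454) (nat_lit 21) (.e (nat_lit 507648) (nat_lit 11) (.e (nat_lit 188420) (nat_lit 0) (.e (nat_lit 1856) (nat_lit 124) (.e (nat_lit 557103) (nat_lit 14) (.e (nat_lit 188160) (nat_lit 35) .nil)))))) (.g (nat_lit 5) .nil .nil)))) (.nd (nat_lit 6) 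
(.lf (nat_lit 163511) (.g (nat_lit 1616) (.e (nat_lit 57450) (nat_lit 20) (.e (nat_lit 401459) (nat_lit 13) (.e (nat_lit 483411) (nat_lit 27) (.e (nat_lit 401448) (nat_lit 10) .nil)))) .nil)) 
(.lf (nat_lit 163575) (.g (nat_lit 2523) (.e (nat_lit 57463) (nat_lit 23) (.e (nat_lit 516151) (nat_lit 9) (.e (nat_lit 426285) (nat_lit 10) (.e (nat_lit 434233) (nat_lit 23) (.e (nat_lit 532523) (nat_lit 7) .nil))))) .nil))))) (.nd (nat_lit 4) (.nd (nat_lit 5) (.nd (nat_lit 6) 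
(.lf (nat_lit 163471) (.g (nat_lit 2528) (.e (nat_lit 57449) (nat_lit 20) (.e (nat_lit 401459) (nat_lit 13) (.e (nat_lit 483411) (nat_lit 27) (.e (nat_lit 401448) (nat_lit 10) (.e (nat_lit 434203) (nat_lit 18) .nil))))) .nil)) 
(.lf (nat_lit 163535) (.g (nat_lit 2407) (.e (nat_lit 57454) (nat_lit 21) (.e (nat_lit 499927) (nat_lit 10) (.e (nat_lit 180277) (nat_lit 32) (.e (nat_lit 1235) (nat_lit 91) (.e (nat_lit 90174) (nat_lit 14) (.e (nat_lit 188160) (nat_lit 35) .nil)))))) (.g (nat_lit 5) .nil .nil)))) (.nd (nat_lit 6) 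
(.lf (nat_lit 163503) (.g (nat_lit 1660) (.e (nat_lit 57450) (nat_lit 20) (.e (nat_lit 401459) (nat_lit 13) (.e (nat_lit 483344) (nat_lit 17) (.e (nat_lit 6724) (nat_lit 362) .nil)))) .nil)) 
(.lf (nat_lit 163567) (.g (nat_lit 2801) (.e (nat_lit 57463) (nat_lit 23) (.e (nat_lit 516151) (nat_lit 9) (.e (nat_lit 426211) (nat_lit 9) (.e (nat_lit 426040) (nat_lit 0) .nil)))) .nil)))) (.nd (nat_lit 5) (.nd (nat_lit 6) 
(.lf (nat_lit 163487) (.g (nat_lit 4410) (.e (nat_lit 57450) (nat_lit 20) (.e (nat_lit 401454) (nat_lit 12) (.e (nat_lit 475209) (nat_lit 41) (.e (nat_lit 712752) (nat_lit 29) (.e (nat_lit 442421) (nat_lit 21) (.e (nat_lit 164403) (nat_lit 256) .nil)))))) (.g (nat_lit 0) .nil .nil))) 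
(.lf (nat_lit 163551) (.g (nat_lit 2478) (.e (nat_lit 57454) (nat_lit 21) (.e (nat_lit 507648) (nat_lit 19) (.e (nat_lit 73753) (nat_lit 8) (.e (nat_lit 557101) (nat_lit 13) (.e (nat_lit 172064) (nat_lit 2) (.e (nat_lit 196661) (nat_lit 12) (.e (nat_lit 57573) (nat_lit 55) (.e (nat_lit 778316) (nat_lit 3) .nil)))))))) (.g (nat_lit 6) .nil .nil)))) (.nd (nat_lit 6) 
(.lf (nat_lit 163519) (.g (nat_lit 1080) (.e (nat_lit 57451) (nat_lit 20) (.e (nat_lit 401448) (nat_lit 10) (.e (nat_lit 434271) (nat_lit 38) (.e (nat_lit 655380) (nat_lit 6) .nil)))) .nil)) 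
(.lf (nat_lit 163583) (.g (nat_lit 6299) (.e (nat_lit 57463) (nat_lit 23) (.e (nat_lit 516166) (nat_lit 12) (.e (nat_lit 450588) (nat_lit 10) (.e (nat_lit 573451) (nat_lit 9) .nil)))) .nil)))))))))

noncomputable def tv2193 : DT := (.nd (nat_lit 0) (.nd (nat_lit 1) (.nd (nat_lit 2) (.nd (nat_lit 3) (.nd (nat_lit 4) (.nd (nat_lit 5) 
(.lf (nat_lit 163584) (.g (nat_lit 3927) (.e (nat_lit 57463) (nat_lit 23) (.e (nat_lit 516166) (nat_lit 12) (.e (nat_lit 450588) (nat_lit 10) (.e (nat_lit 573452) (nat_lit 9) .nil)))) .nil)) 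
(.lf (nat_lit 163616) (.g (nat_lit 1036) (.e (nat_lit 57464) (nat_lit 23) (.e (nat_lit 516102) (nat_lit 0) (.e (nat_lit 6989) (nat_lit 377) (.e (nat_lit 1361) (nat_lit 102) .nil)))) .nil))) (.nd (nat_lit 5) 
(.lf (nat_lit 163600) (.g (nat_lit 2223) (.e (nat_lit 57464) (nat_lit 23) (.e (nat_lit 516098) (nat_lit 0) (.e (nat_lit 7065) (nat_lit 377) (.e (nat_lit 1349) (nat_lit 102) (.e (nat_lit 286727) (nat_lit 0) (.e (nat_lit 1799) (nat_lit 119) (.e (nat_lit 516172) (nat_lit 13) (.e (nat_lit 466688) (nat_lit 3) .nil)))))))) (.g (nat_lit 5) .nil .nil))) 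
(.lf (nat_lit 163632) (.g (nat_lit 2851) (.e (nat_lit 57464) (nat_lit 23) (.e (nat_lit 516115) (nat_lit 1) (.e (nat_lit 164399) (nat_lit 256) (.e (nat_lit 57347) (nat_lit 0) (.e (nat_lit 1691) (nat_lit 117) (.e (nat_lit 500069) (nat_lit 19) (.e (nat_lit 73746) (nat_lit 3) (.e (nat_lit 516124) (nat_lit 2) (.e (nat_lit 220928) (nat_lit 3) .nil))))))))) (.g (nat_lit 4) .nil .nil))))) 
(.nd (nat_lit 4) (.nd (nat_lit 5) 
(.lf (nat_lit 163592) (.g (nat_lit 2563) (.e (nat_lit 57464) (nat_lit 23) (.e (nat_lit 516097) (nat_lit 0) (.e (nat_lit 7065) (nat_lit 377) (.e (nat_lit 1349) (nat_lit 102) (.e (nat_lit 286735) (nat_lit 3) (.e (nat_lit 98363) (nat_lit 26) (.e (nat_lit 425984) (nat_lit 0) (.e (nat_lit 7582) (nat_lit 405) .nil)))))))) (.g (nat_lit 5) .nil .nil))) 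
(.lf (nat_lit 163624) (.g (nat_lit 2690) (.e (nat_lit 57464) (nat_lit 23) (.e (nat_lit 516115) (nat_lit 1) (.e (nat_lit 164398) (nat_lit 256) (.e (nat_lit 57372) (nat_lit 2) (.e (nat_lit 90172) (nat_lit 14) .nil))))) .nil))) (.nd (nat_lit 5) 
(.lf (nat_lit 163608) (.g (nat_lit 2167) (.e (nat_lit 57464) (nat_lit 23) (.e (nat_lit 516098) (nat_lit 0) (.e (nat_lit 7065) (nat_lit 377) (.e (nat_lit 1349) (nat_lit 102) (.e (nat_lit 286735) (nat_lit 3) (.e (nat_lit 98363) (nat_lit 26) (.e (nat_lit 425989) (nat_lit 0) (.e (nat_lit 7582) (nat_lit 405) .nil)))))))) (.g (nat_lit 4) .nil .nil))) 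
(.lf (nat_lit 163640) (.g (nat_lit 3462) (.e (nat_lit 57464) (nat_lit 23) (.e (nat_lit 516115) (nat_lit 1) (.e (nat_lit 164399) (nat_lit 256) (.e (nat_lit 57372) (nat_lit 2) (.e (nat_lit 90172) (nat_lit 14) (.e (nat_lit 180243) (nat_lit 5) (.e (nat_lit 532510) (nat_lit 2) (.e (nat_lit 106537) (nat_lit 12) .nil)))))))) (.g (nat_lit 5) .nil .nil)))))) 
(.nd (nat_lit 3) (.nd (nat_lit 4) (.nd (nat_lit 5) 
(.lf (nat_lit 163588) (.g (nat_lit 1827) (.e (nat_lit 57464) (nat_lit 23) (.e (nat_lit 516097) (nat_lit 0) (.e (nat_lit 7065) (nat_lit 377) (.e (nat_lit 1348) (nat_lit 102) (.e (nat_lit 286735) (nat_lit 3) .nil))))) .nil)) 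
(.lf (nat_lit 163620) (.g (nat_lit 557) (.e (nat_lit 57464) (nat_lit 23) (.e (nat_lit 516106) (nat_lit 0) (.e (nat_lit 7936) (nat_lit 407) .nil))) .nil))) (.nd (nat_lit 5) 
(.lf (nat_lit 163604) (.g (nat_lit 3929) (.e (nat_lit 57464) (nat_lit 23) (.e (nat_lit 516098) (nat_lit 0) (.e (nat_lit 7065) (nat_lit 377) (.e (nat_lit 1349) (nat_lit 102) (.e (nat_lit 286735) (nat_lit 3) (.e (nat_lit 98325) (nat_lit 17) (.e (nat_lit 7083) (nat_lit 379) (.e (nat_lit 123212) (nat_lit 273) .nil)))))))) (.g (nat_lit 7) .nil .nil))) 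
(.lf (nat_lit 163636) (.g (nat_lit 1986) (.e (nat_lit 57464) (nat_lit 23) (.e (nat_lit 516115) (nat_lit 1) (.e (nat_lit 164399) (nat_lit 256) (.e (nat_lit 57370) (nat_lit 2) (.e (nat_lit 90172) (nat_lit 14) .nil))))) .nil)))) (.nd (nat_lit 4) (.nd (nat_lit 5) 
(.lf (nat_lit 163596) (.g (nat_lit 4894) (.e (nat_lit 57464) (nat_lit 23) (.e (nat_lit 516098) (nat_lit 0) (.e (nat_lit 7065) (nat_lit 377) (.e (nat_lit 1348) (nat_lit 102) (.e (nat_lit 286735) (nat_lit 3) (.e (nat_lit 98350) (nat_lit 24) (.e (nat_lit 409602) (nat_lit 0) (.e (nat_lit 5394) (nat_lit 301) .nil)))))))) (.g (nat_lit 0) .nil .nil))) 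
(.lf (nat_lit 163628) (.g (nat_lit 3014) (.e (nat_lit 57464) (nat_lit 23) (.e (nat_lit 516115) (nat_lit 1) (.e (nat_lit 164398) (nat_lit 256) (.e (nat_lit 57379) (nat_lit 3) (.e (nat_lit 98366) (nat_lit 27) (.e (nat_lit 434231) (nat_lit 23) (.e (nat_lit 532507) (nat_lit 2) (.e (nat_lit 106537) (nat_lit 12) .nil)))))))) (.g (nat_lit 4) .nil .nil)))) (.nd (nat_lit 5) 
(.lf (nat_lit 163612) (.g (nat_lit 3267) (.e (nat_lit 57464) (nat_lit 23) (.e (nat_lit 516098) (nat_lit 0) (.e (nat_lit 7587) (nat_lit 406) (.e (nat_lit 65571) (nat_lit 3) (.e (nat_lit 98350) (nat_lit 24) (.e (nat_lit 409616) (nat_lit 10) (.e (nat_lit 7936) (nat_lit 301) .nil))))))) (.g (nat_lit 6) .nil .nil))) 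
(.lf (nat_lit 163644) (.g (nat_lit 4039) (.e (nat_lit 57464) (nat_lit 23) (.e (nat_lit 516115) (nat_lit 1) (.e (nat_lit 164399) (nat_lit 256) (.e (nat_lit 57373) (nat_lit 2) (.e (nat_lit 90170) (nat_lit 13) (.e (nat_lit 172067) (nat_lit 3) (.e (nat_lit 204834) (nat_lit 19) (.e (nat_lit 106537) (nat_lit 12) .nil)))))))) (.g (nat_lit 6) .nil .nil))))))) 
(.nd (nat_lit 2) (.nd (nat_lit 3) (.nd (nat_lit 4) (.nd (nat_lit 5) 
(.lf (nat_lit 163586) (.g (nat_lit 2415) (.e (nat_lit 57464) (nat_lit 23) (.e (nat_lit 516097) (nat_lit 0) (.e (nat_lit 3605) (nat_lit 225) (.e (nat_lit 761905) (nat_lit 16) (.e (nat_lit 179968) (nat_lit 34) .nil))))) .nil)) 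
(.lf (nat_lit 163618) (.g (nat_lit 1633) (.e (nat_lit 57464) (nat_lit 23) (.e (nat_lit 516106) (nat_lit 0) (.e (nat_lit 6986) (nat_lit 377) (.e (nat_lit 2777) (nat_lit 178) .nil)))) .nil))) (.nd (nat_lit 5) 
(.lf (nat_lit 163602) (.g (nat_lit 3214) (.e (nat_lit 57464) (nat_lit 23) (.e (nat_lit 516098) (nat_lit 0) (.e (nat_lit 7065) (nat_lit 377) (.e (nat_lit 1349) (nat_lit 102) (.e (nat_lit 286733) (nat_lit 2) (.e (nat_lit 90173) (nat_lit 14) (.e (nat_lit 188160) (nat_lit 35) .nil))))))) (.g (nat_lit 6) .nil .nil))) 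
(.lf (nat_lit 163634) (.g (nat_lit 2280) (.e (nat_lit 57464) (nat_lit 23) (.e (nat_lit 516115) (nat_lit 1) (.e (nat_lit 164399) (nat_lit 256) (.e (nat_lit 57348) (nat_lit 0) (.e (nat_lit 1691) (nat_lit 117) (.e (nat_lit 500069) (nat_lit 19) (.e (nat_lit 73746) (nat_lit 3) (.e (nat_lit 516124) (nat_lit 2) (.e (nat_lit 220928) (nat_lit 3) .nil))))))))) (.g (nat_lit 4) .nil .nil))))) 
(.nd (nat_lit 4) (.nd (nat_lit 5) 
(.lf (nat_lit 163594) (.g (nat_lit 1792) (.e (nat_lit 57464) (nat_lit 23) (.e (nat_lit 516098) (nat_lit 0) (.e (nat_lit 7065) (nat_lit 377) (.e (nat_lit 1348) (nat_lit 102) (.e (nat_lit 286735) (nat_lit 3) .nil))))) .nil)) 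
(.lf (nat_lit 163626) (.g (nat_lit 2789) (.e (nat_lit 57464) (nat_lit 23) (.e (nat_lit 516115) (nat_lit 1) (.e (nat_lit 164398) (nat_lit 256) (.e (nat_lit 57378) (nat_lit 3) (.e (nat_lit 98366) (nat_lit 27) .nil))))) .nil))) (.nd (nat_lit 5) 
(.lf (nat_lit 163610) (.g (nat_lit 3237) (.e (nat_lit 57464) (nat_lit 23) (.e (nat_lit 516098) (nat_lit 0) (.e (nat_lit 7065) (nat_lit 377) (.e (nat_lit 1349) (nat_lit 102) (.e (nat_lit 286735) (nat_lit 3) (.e (nat_lit 98378) (nat_lit 30) (.e (nat_lit 466688) (nat_lit 3) .nil))))))) (.g (nat_lit 5) .nil .nil))) 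
(.lf (nat_lit 163642) (.g (nat_lit 3327) (.e (nat_lit 57464) (nat_lit 23) (.e (nat_lit 516115) (nat_lit 1) (.e (nat_lit 164399) (nat_lit 256) (.e (nat_lit 57372) (nat_lit 2) (.e (nat_lit 90172) (nat_lit 14) (.e (nat_lit 180244) (nat_lit 5) (.e (nat_lit 532508) (nat_lit 2) (.e (nat_lit 106537) (nat_lit 12) .nil)))))))) (.g (nat_lit 5) .nil .nil)))))) 
(.nd (nat_lit 3) (.nd (nat_lit 4) (.nd (nat_lit 5) 
(.lf (nat_lit 163590) (.g (nat_lit 3686) (.e (nat_lit 57464) (nat_lit 23) (.e (nat_lit 516097) (nat_lit 0) (.e (nat_lit 7065) (nat_lit 377) (.e (nat_lit 1349) (nat_lit 102) (.e (nat_lit 286735) (nat_lit 3) (.e (nat_lit 98350) (nat_lit 24) (.e (nat_lit 409602) (nat_lit 0) (.e (nat_lit 5394) (nat_lit 301) .nil)))))))) (.g (nat_lit 6) .nil .nil))) 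
(.lf (nat_lit 163622) (.g (nat_lit 3514) (.e (nat_lit 57464) (nat_lit 23) (.e (nat_lit 516115) (nat_lit 1) (.e (nat_lit 164325) (nat_lit 230) (.e (nat_lit 163942) (nat_lit 19) .nil)))) .nil))) (.nd (nat_lit 5) 
(.lf (nat_lit 163606) (.g (nat_lit 3766) (.e (nat_lit 57464) (nat_lit 23) (.e (nat_lit 516098) (nat_lit 0) (.e (nat_lit 7065) (nat_lit 377) (.e (nat_lit 1349) (nat_lit 102) (.e (nat_lit 286735) (nat_lit 3) (.e (nat_lit 98353) (nat_lit 25) (.e (nat_lit 417793) (nat_lit 0) (.e (nat_lit 5395) (nat_lit 301) .nil)))))))) (.g (nat_lit 6) .nil .nil))) 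
(.lf (nat_lit 163638) (.g (nat_lit 2809) (.e (nat_lit 57464) (nat_lit 23) (.e (nat_lit 516115) (nat_lit 1) (.e (nat_lit 164399) (nat_lit 256) (.e (nat_lit 57372) (nat_lit 2) (.e (nat_lit 90167) (nat_lit 13) (.e (nat_lit 172065) (nat_lit 3) (.e (nat_lit 204834) (nat_lit 19) (.e (nat_lit 106537) (nat_lit 12) .nil)))))))) (.g (nat_lit 5) .nil .nil))))) (.nd (nat_lit 4) (.nd (nat_lit 5) 
(.lf (nat_lit 163598) (.g (nat_lit 4270) (.e (nat_lit 57464) (nat_lit 23) (.e (nat_lit 516098) (nat_lit 0) (.e (nat_lit 7065) (nat_lit 377) (.e (nat_lit 1348) (nat_lit 102) (.e (nat_lit 286735) (nat_lit 3) (.e (nat_lit 98353) (nat_lit 25) (.e (nat_lit 417793) (nat_lit 0) (.e (nat_lit 5395) (nat_lit 301) .nil)))))))) (.g (nat_lit 6) .nil .nil))) 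
(.lf (nat_lit 163630) (.g (nat_lit 736) (.e (nat_lit 57464) (nat_lit 23) (.e (nat_lit 516115) (nat_lit 1) (.e (nat_lit 164399) (nat_lit 256) .nil))) .nil))) (.nd (nat_lit 5) 
(.lf (nat_lit 163614) (.g (nat_lit 2008) (.e (nat_lit 57464) (nat_lit 23) (.e (nat_lit 516098) (nat_lit 0) (.e (nat_lit 7591) (nat_lit 407) (.e (nat_lit 73748) (nat_lit 3) (.e (nat_lit 516139) (nat_lit 7) (.e (nat_lit 409616) (nat_lit 10) (.e (nat_lit 7936) (nat_lit 301) .nil))))))) (.g (nat_lit 6) .nil .nil))) 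
(.lf (nat_lit 163646) (.g (nat_lit 3324) (.e (nat_lit 57464) (nat_lit 23) (.e (nat_lit 516115) (nat_lit 1) (.e (nat_lit 164399) (nat_lit 256) (.e (nat_lit 57373) (nat_lit 2) (.e (nat_lit 90172) (nat_lit 14) (.e (nat_lit 180244) (nat_lit 5) (.e (nat_lit 532508) (nat_lit 2) (.e (nat_lit 106537) (nat_lit 12) .nil)))))))) (.g (nat_lit 5) .nil .nil)))))))) 
(.nd (nat_lit 1) (.nd (nat_lit 2) (.nd (nat_lit 3) (.nd (nat_lit 4) (.nd (nat_lit 5) 
(.lf (nat_lit 163585) (.g (nat_lit 5543) (.e (nat_lit 57463) (nat_lit 23) (.e (nat_lit 516166) (nat_lit 12) (.e (nat_lit 450588) (nat_lit 10) (.e (nat_lit 573457) (nat_lit 9) .nil)))) .nil)) 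
(.lf (nat_lit 163617) (.g (nat_lit 1128) (.e (nat_lit 57464) (nat_lit 23) (.e (nat_lit 516106) (nat_lit 0) (.e (nat_lit 3721) (nat_lit 227) (.e (nat_lit 778474) (nat_lit 12) .nil)))) .nil))) (.nd (nat_lit 5) 
(.lf (nat_lit 163601) (.g (nat_lit 3803) (.e (nat_lit 57464) (nat_lit 23) (.e (nat_lit 516098) (nat_lit 0) (.e (nat_lit 7065) (nat_lit 377) (.e (nat_lit 1349) (nat_lit 102) (.e (nat_lit 286733) (nat_lit 2) (.e (nat_lit 90172) (nat_lit 14) (.e (nat_lit 188160) (nat_lit 35) .nil))))))) (.g (nat_lit 6) .nil .nil))) 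
(.lf (nat_lit 163633) (.g (nat_lit 1965) (.e (nat_lit 57464) (nat_lit 23) (.e (nat_lit 516115) (nat_lit 1) (.e (nat_lit 164399) (nat_lit 256) (.e (nat_lit 57348) (nat_lit 0) (.e (nat_lit 1691) (nat_lit 117) .nil))))) .nil)))) (.nd (nat_lit 4) (.nd (nat_lit 5) 
(.lf (nat_lit 163593) (.g (nat_lit 3634) (.e (nat_lit 57464) (nat_lit 23) (.e (nat_lit 516098) (nat_lit 0) (.e (nat_lit 7065) (nat_lit 377) (.e (nat_lit 1348) (nat_lit 102) (.e (nat_lit 286733) (nat_lit 2) (.e (nat_lit 90172) (nat_lit 14) (.e (nat_lit 188160) (nat_lit 35) .nil))))))) (.g (nat_lit 6) .nil .nil))) 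
(.lf (nat_lit 163625) (.g (nat_lit 3399) (.e (nat_lit 57464) (nat_lit 23) (.e (nat_lit 516115) (nat_lit 1) (.e (nat_lit 164398) (nat_lit 256) (.e (nat_lit 57373) (nat_lit 2) (.e (nat_lit 90174) (nat_lit 14) (.e (nat_lit 180243) (nat_lit 5) (.e (nat_lit 532511) (nat_lit 2) (.e (nat_lit 106537) (nat_lit 12) .nil)))))))) (.g (nat_lit 5) .nil .nil)))) (.nd (nat_lit 5) 
(.lf (nat_lit 163609) (.g (nat_lit 4129) (.e (nat_lit 57464) (nat_lit 23) (.e (nat_lit 516098) (nat_lit 0) (.e (nat_lit 7065) (nat_lit 377) (.e (nat_lit 1349) (nat_lit 102) (.e (nat_lit 286735) (nat_lit 3) (.e (nat_lit 98367) (nat_lit 27) (.e (nat_lit 442112) (nat_lit 3) .nil))))))) (.g (nat_lit 6) .nil .nil))) 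
(.lf (nat_lit 163641) (.g (nat_lit 2630) (.e (nat_lit 57464) (nat_lit 23) (.e (nat_lit 516115) (nat_lit 1) (.e (nat_lit 164399) (nat_lit 256) (.e (nat_lit 57372) (nat_lit 2) (.e (nat_lit 90172) (nat_lit 14) (.e (nat_lit 180244) (nat_lit 5) (.e (nat_lit 532506) (nat_lit 2) (.e (nat_lit 106537) (nat_lit 12) .nil)))))))) (.g (nat_lit 4) .nil .nil)))))) 
(.nd (nat_lit 3) (.nd (nat_lit 4) (.nd (nat_lit 5) 
(.lf (nat_lit 163589) (.g (nat_lit 3853) (.e (nat_lit 57464) (nat_lit 23) (.e (nat_lit 516097) (nat_lit 0) (.e (nat_lit 7065) (nat_lit 377) (.e (nat_lit 1348) (nat_lit 102) (.e (nat_lit 286735) (nat_lit 3) (.e (nat_lit 98350) (nat_lit 24) (.e (nat_lit 409602) (nat_lit 0) (.e (nat_lit 5394) (nat_lit 301) .nil)))))))) (.g (nat_lit 6) .nil .nil))) 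
(.lf (nat_lit 163621) (.g (nat_lit 3697) (.e (nat_lit 57464) (nat_lit 23) (.e (nat_lit 516115) (nat_lit 1) (.e (nat_lit 164325) (nat_lit 230) (.e (nat_lit 163866) (nat_lit 2) .nil)))) .nil))) (.nd (nat_lit 5) 
(.lf (nat_lit 163605) (.g (nat_lit 4746) (.e (nat_lit 57464) (nat_lit 23) (.e (nat_lit 516098) (nat_lit 0) (.e (nat_lit 7065) (nat_lit 377) (.e (nat_lit 1349) (nat_lit 102) (.e (nat_lit 286735) (nat_lit 3) (.e (nat_lit 98350) (nat_lit 24) (.e (nat_lit 409602) (nat_lit 0) (.e (nat_lit 5394) (nat_lit 301) .nil)))))))) (.g (nat_lit 0) .nil .nil))) 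
(.lf (nat_lit 163637) (.g (nat_lit 2272) (.e (nat_lit 57464) (nat_lit 23) (.e (nat_lit 516115) (nat_lit 1) (.e (nat_lit 164399) (nat_lit 256) (.e (nat_lit 57370) (nat_lit 2) (.e (nat_lit 90174) (nat_lit 14) (.e (nat_lit 180243) (nat_lit 5) (.e (nat_lit 532511) (nat_lit 2) (.e (nat_lit 106537) (nat_lit 12) .nil)))))))) (.g (nat_lit 4) .nil .nil))))) (.nd (nat_lit 4) (.nd (nat_lit 5) 
(.lf (nat_lit 163597) (.g (nat_lit 4656) (.e (nat_lit 57464) (nat_lit 23) (.e (nat_lit 516098) (nat_lit 0) (.e (nat_lit 7065) (nat_lit 377) (.e (nat_lit 1348) (nat_lit 102) (.e (nat_lit 286735) (nat_lit 3) (.e (nat_lit 98350) (nat_lit 24) (.e (nat_lit 409603) (nat_lit 0) (.e (nat_lit 5394) (nat_lit 301) .nil)))))))) (.g (nat_lit 6) .nil .nil))) 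
(.lf (nat_lit 163629) (.g (nat_lit 2500) (.e (nat_lit 57464) (nat_lit 23) (.e (nat_lit 516115) (nat_lit 1) (.e (nat_lit 164398) (nat_lit 256) (.e (nat_lit 57379) (nat_lit 3) (.e (nat_lit 98367) (nat_lit 27) .nil))))) .nil))) (.nd (nat_lit 5) 
(.lf (nat_lit 163613) (.g (nat_lit 2495) (.e (nat_lit 57464) (nat_lit 23) (.e (nat_lit 516098) (nat_lit 0) (.e (nat_lit 7591) (nat_lit 407) (.e (nat_lit 73747) (nat_lit 3) (.e (nat_lit 516139) (nat_lit 7) (.e (nat_lit 409616) (nat_lit 10) (.e (nat_lit 7936) (nat_lit 301) .nil))))))) (.g (nat_lit 6) .nil .nil))) 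
(.lf (nat_lit 163645) (.g (nat_lit 2618) (.e (nat_lit 57464) (nat_lit 23) (.e (nat_lit 516115) (nat_lit 1) (.e (nat_lit 164399) (nat_lit 256) (.e (nat_lit 57373) (nat_lit 2) (.e (nat_lit 90172) (nat_lit 14) (.e (nat_lit 180244) (nat_lit 5) (.e (nat_lit 532506) (nat_lit 2) (.e (nat_lit 106537) (nat_lit 12) .nil)))))))) (.g (nat_lit 4) .nil .nil))))))) 
(.nd (nat_lit 2) (.nd (nat_lit 3) (.nd (nat_lit 4) (.nd (nat_lit 5) 
(.lf (nat_lit 163587) (.g (nat_lit 2344) (.e (nat_lit 57464) (nat_lit 23) (.e (nat_lit 516097) (nat_lit 0) (.e (nat_lit 7065) (nat_lit 377) (.e (nat_lit 1348) (nat_lit 102) (.e (nat_lit 286733) (nat_lit 2) (.e (nat_lit 90172) (nat_lit 14) (.e (nat_lit 188160) (nat_lit 35) .nil))))))) (.g (nat_lit 4) .nil .nil))) 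
(.lf (nat_lit 163619) (.g (nat_lit 1717) (.e (nat_lit 57464) (nat_lit 23) (.e (nat_lit 516106) (nat_lit 0) (.e (nat_lit 7350) (nat_lit 388) (.e (nat_lit 3067) (nat_lit 190) (.e (nat_lit 475185) (nat_lit 29) .nil))))) .nil))) (.nd (nat_lit 5) 
(.lf (nat_lit 163603) (.g (nat_lit 3760) (.e (nat_lit 57464) (nat_lit 23) (.e (nat_lit 516098) (nat_lit 0) (.e (nat_lit 7065) (nat_lit 377) (.e (nat_lit 1349) (nat_lit 102) (.e (nat_lit 286733) (nat_lit 2) (.e (nat_lit 90174) (nat_lit 14) (.e (nat_lit 188160) (nat_lit 35) .nil))))))) (.g (nat_lit 6) .nil .nil))) 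
(.lf (nat_lit 163635) (.g (nat_lit 1495) (.e (nat_lit 57464) (nat_lit 23) (.e (nat_lit 516115) (nat_lit 1) (.e (nat_lit 164399) (nat_lit 256) (.e (nat_lit 57353) (nat_lit 0) .nil)))) .nil)))) (.nd (nat_lit 4) (.nd (nat_lit 5) 
(.lf (nat_lit 163595) (.g (nat_lit 3646) (.e (nat_lit 57464) (nat_lit 23) (.e (nat_lit 516098) (nat_lit 0) (.e (nat_lit 7065) (nat_lit 377) (.e (nat_lit 1348) (nat_lit 102) (.e (nat_lit 286735) (nat_lit 3) (.e (nat_lit 98325) (nat_lit 17) (.e (nat_lit 7083) (nat_lit 379) (.e (nat_lit 123212) (nat_lit 273) .nil)))))))) (.g (nat_lit 6) .nil .nil))) 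
(.lf (nat_lit 163627) (.g (nat_lit 3005) (.e (nat_lit 57464) (nat_lit 23) (.e (nat_lit 516115) (nat_lit 1) (.e (nat_lit 164398) (nat_lit 256) (.e (nat_lit 57379) (nat_lit 3) (.e (nat_lit 98366) (nat_lit 27) (.e (nat_lit 434231) (nat_lit 23) (.e (nat_lit 532490) (nat_lit 0) (.e (nat_lit 2155) (nat_lit 142) (.e (nat_lit 704746) (nat_lit 12) .nil))))))))) (.g (nat_lit 4) .nil .nil)))) 
(.nd (nat_lit 5) 
(.lf (nat_lit 163611) (.g (nat_lit 871) (.e (nat_lit 57464) (nat_lit 23) (.e (nat_lit 516098) (nat_lit 0) (.e (nat_lit 7345) (nat_lit 388) (.e (nat_lit 3067) (nat_lit 190) (.e (nat_lit 475185) (nat_lit 29) .nil))))) .nil)) 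
(.lf (nat_lit 163643) (.g (nat_lit 4044) (.e (nat_lit 57464) (nat_lit 23) (.e (nat_lit 516115) (nat_lit 1) (.e (nat_lit 164399) (nat_lit 256) (.e (nat_lit 57373) (nat_lit 2) (.e (nat_lit 90170) (nat_lit 13) (.e (nat_lit 172065) (nat_lit 3) (.e (nat_lit 204834) (nat_lit 19) (.e (nat_lit 106537) (nat_lit 12) .nil)))))))) (.g (nat_lit 8) .nil .nil)))))) 
(.nd (nat_lit 3) (.nd (nat_lit 4) (.nd (nat_lit 5) 
(.lf (nat_lit 163591) (.g (nat_lit 3154) (.e (nat_lit 57464) (nat_lit 23) (.e (nat_lit 516097) (nat_lit 0) (.e (nat_lit 7065) (nat_lit 377) (.e (nat_lit 1349) (nat_lit 102) (.e (nat_lit 286735) (nat_lit 3) (.e (nat_lit 98350) (nat_lit 24) (.e (nat_lit 409604) (nat_lit 0) (.e (nat_lit 5394) (nat_lit 301) .nil)))))))) (.g (nat_lit 5) .nil .nil))) 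
(.lf (nat_lit 163623) (.g (nat_lit 2437) (.e (nat_lit 57464) (nat_lit 23) (.e (nat_lit 516115) (nat_lit 1) (.e (nat_lit 164325) (nat_lit 230) (.e (nat_lit 163944) (nat_lit 19) .nil)))) .nil))) (.nd (nat_lit 5) 
(.lf (nat_lit 163607) (.g (nat_lit 2182) (.e (nat_lit 57464) (nat_lit 23) (.e (nat_lit 516098) (nat_lit 0) (.e (nat_lit 7065) (nat_lit 377) (.e (nat_lit 1349) (nat_lit 102) (.e (nat_lit 286735) (nat_lit 3) (.e (nat_lit 98363) (nat_lit 26) (.e (nat_lit 425989) (nat_lit 0) (.e (nat_lit 7580) (nat_lit 405) .nil)))))))) (.g (nat_lit 4) .nil .nil))) 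
(.lf (nat_lit 163639) (.g (nat_lit 3516) (.e (nat_lit 57464) (nat_lit 23) (.e (nat_lit 516115) (nat_lit 1) (.e (nat_lit 164399) (nat_lit 256) (.e (nat_lit 57372) (nat_lit 2) (.e (nat_lit 90172) (nat_lit 14) (.e (nat_lit 180243) (nat_lit 5) (.e (nat_lit 532508) (nat_lit 2) (.e (nat_lit 106537) (nat_lit 12) .nil)))))))) (.g (nat_lit 5) .nil .nil))))) (.nd (nat_lit 4) (.nd (nat_lit 5) 
(.lf (nat_lit 163599) (.g (nat_lit 3752) (.e (nat_lit 57464) (nat_lit 23) (.e (nat_lit 516098) (nat_lit 0) (.e (nat_lit 7065) (nat_lit 377) (.e (nat_lit 1348) (nat_lit 102) (.e (nat_lit 286735) (nat_lit 3) (.e (nat_lit 98363) (nat_lit 26) (.e (nat_lit 425984) (nat_lit 0) (.e (nat_lit 7580) (nat_lit 405) .nil)))))))) (.g (nat_lit 6) .nil .nil))) 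
(.lf (nat_lit 163631) (.g (nat_lit 2382) (.e (nat_lit 57464) (nat_lit 23) (.e (nat_lit 516115) (nat_lit 1) (.e (nat_lit 164399) (nat_lit 256) (.e (nat_lit 57347) (nat_lit 0) (.e (nat_lit 1691) (nat_lit 117) .nil))))) .nil))) (.nd (nat_lit 5) 
(.lf (nat_lit 163615) (.g (nat_lit 2087) (.e (nat_lit 57464) (nat_lit 23) (.e (nat_lit 516098) (nat_lit 0) (.e (nat_lit 7593) (nat_lit 407) (.e (nat_lit 73746) (nat_lit 3) (.e (nat_lit 516139) (nat_lit 7) (.e (nat_lit 409616) (nat_lit 10) (.e (nat_lit 7936) (nat_lit 301) .nil))))))) (.g (nat_lit 6) .nil .nil))) 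
(.lf (nat_lit 163647) (.g (nat_lit 4431) (.e (nat_lit 57464) (nat_lit 23) (.e (nat_lit 516115) (nat_lit 1) (.e (nat_lit 164399) (nat_lit 256) (.e (nat_lit 57373) (nat_lit 2) (.e (nat_lit 90174) (nat_lit 14) (.e (nat_lit 180243) (nat_lit 5) (.e (nat_lit 532508) (nat_lit 2) (.e (nat_lit 106537) (nat_lit 12) .nil)))))))) (.g (nat_lit 7) .nil .nil)))))))))

noncomputable def tv2194 : DT := (.nd (nat_lit 0) (.nd (nat_lit 1) (.nd (nat_lit 2) (.nd (nat_lit 3) (.nd (nat_lit 4) (.nd (nat_lit 5) 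
(.lf (nat_lit 163648) (.g (nat_lit 4436) (.e (nat_lit 57464) (nat_lit 23) (.e (nat_lit 516115) (nat_lit 1) (.e (nat_lit 164399) (nat_lit 256) (.e (nat_lit 57373) (nat_lit 2) (.e (nat_lit 90174) (nat_lit 14) (.e (nat_lit 180243) (nat_lit 5) (.e (nat_lit 532510) (nat_lit 2) (.e (nat_lit 106537) (nat_lit 12) .nil)))))))) (.g (nat_lit 7) .nil .nil))) 
(.lf (nat_lit 163680) (.g (nat_lit 2409) (.e (nat_lit 57464) (nat_lit 23) (.e (nat_lit 516116) (nat_lit 1) (.e (nat_lit 164398) (nat_lit 256) (.e (nat_lit 57373) (nat_lit 2) (.e (nat_lit 90174) (nat_lit 14) (.e (nat_lit 180243) (nat_lit 5) (.e (nat_lit 532506) (nat_lit 2) (.e (nat_lit 106537) (nat_lit 12) .nil)))))))) (.g (nat_lit 4) .nil .nil)))) (.nd (nat_lit 5) 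
(.lf (nat_lit 163664) (.g (nat_lit 3833) (.e (nat_lit 57464) (nat_lit 23) (.e (nat_lit 516115) (nat_lit 1) (.e (nat_lit 164403) (nat_lit 256) (.e (nat_lit 57373) (nat_lit 2) (.e (nat_lit 90174) (nat_lit 14) (.e (nat_lit 180243) (nat_lit 5) (.e (nat_lit 532510) (nat_lit 2) (.e (nat_lit 106537) (nat_lit 12) .nil)))))))) (.g (nat_lit 5) .nil .nil))) 
(.lf (nat_lit 163696) (.g (nat_lit 1840) (.e (nat_lit 57464) (nat_lit 23) (.e (nat_lit 516116) (nat_lit 1) (.e (nat_lit 164399) (nat_lit 256) (.e (nat_lit 57348) (nat_lit 0) (.e (nat_lit 1691) (nat_lit 117) .nil))))) .nil)))) (.nd (nat_lit 4) (.nd (nat_lit 5) 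
(.lf (nat_lit 163656) (.g (nat_lit 1516) (.e (nat_lit 57464) (nat_lit 23) (.e (nat_lit 516115) (nat_lit 1) (.e (nat_lit 164403) (nat_lit 256) (.e (nat_lit 57370) (nat_lit 2) .nil)))) .nil)) 
(.lf (nat_lit 163688) (.g (nat_lit 2778) (.e (nat_lit 57464) (nat_lit 23) (.e (nat_lit 516116) (nat_lit 1) (.e (nat_lit 164398) (nat_lit 256) (.e (nat_lit 57378) (nat_lit 3) (.e (nat_lit 98366) (nat_lit 27) (.e (nat_lit 434231) (nat_lit 23) (.e (nat_lit 532507) (nat_lit 2) (.e (nat_lit 106537) (nat_lit 12) .nil)))))))) (.g (nat_lit 4) .nil .nil)))) (.nd (nat_lit 5) 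
(.lf (nat_lit 163672) (.g (nat_lit 1503) (.e (nat_lit 57464) (nat_lit 23) (.e (nat_lit 516116) (nat_lit 1) (.e (nat_lit 164398) (nat_lit 256) (.e (nat_lit 57372) (nat_lit 2) .nil)))) .nil)) 
(.lf (nat_lit 163704) (.g (nat_lit 3824) (.e (nat_lit 57464) (nat_lit 23) (.e (nat_lit 516116) (nat_lit 1) (.e (nat_lit 164399) (nat_lit 256) (.e (nat_lit 57374) (nat_lit 2) (.e (nat_lit 90170) (nat_lit 13) (.e (nat_lit 172065) (nat_lit 3) (.e (nat_lit 204834) (nat_lit 19) (.e (nat_lit 106537) (nat_lit 12) .nil)))))))) (.g (nat_lit 5) .nil .nil)))))) 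
(.nd (nat_lit 3) (.nd (nat_lit 4) (.nd (nat_lit 5) 
(.lf (nat_lit 163652) (.g (nat_lit 2451) (.e (nat_lit 57464) (nat_lit 23) (.e (nat_lit 516115) (nat_lit 1) (.e (nat_lit 164399) (nat_lit 256) (.e (nat_lit 57378) (nat_lit 3) (.e (nat_lit 98366) (nat_lit 27) .nil))))) .nil)) 
(.lf (nat_lit 163684) (.g (nat_lit 2180) (.e (nat_lit 57464) (nat_lit 23) (.e (nat_lit 516116) (nat_lit 1) (.e (nat_lit 164398) (nat_lit 256) (.e (nat_lit 57375) (nat_lit 2) (.e (nat_lit 90172) (nat_lit 14) .nil))))) .nil))) (.nd (nat_lit 5) 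
(.lf (nat_lit 163668) (.g (nat_lit 663) (.e (nat_lit 57464) (nat_lit 23) (.e (nat_lit 516116) (nat_lit 1) (.e (nat_lit 164397) (nat_lit 256) .nil))) .nil)) 
(.lf (nat_lit 163700) (.g (nat_lit 2195) (.e (nat_lit 57464) (nat_lit 23) (.e (nat_lit 516116) (nat_lit 1) (.e (nat_lit 164399) (nat_lit 256) (.e (nat_lit 57373) (nat_lit 2) (.e (nat_lit 90172) (nat_lit 14) .nil))))) .nil)))) (.nd (nat_lit 4) (.nd (nat_lit 5) 
(.lf (nat_lit 163660) (.g (nat_lit 3145) (.e (nat_lit 57464) (nat_lit 23) (.e (nat_lit 516115) (nat_lit 1) (.e (nat_lit 164403) (nat_lit 256) (.e (nat_lit 57373) (nat_lit 2) (.e (nat_lit 90170) (nat_lit 13) (.e (nat_lit 172065) (nat_lit 3) (.e (nat_lit 204834) (nat_lit 19) (.e (nat_lit 106537) (nat_lit 12) .nil)))))))) (.g (nat_lit 4) .nil .nil))) 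
(.lf (nat_lit 163692) (.g (nat_lit 2665) (.e (nat_lit 57464) (nat_lit 23) (.e (nat_lit 516116) (nat_lit 1) (.e (nat_lit 164398) (nat_lit 256) (.e (nat_lit 57379) (nat_lit 3) (.e (nat_lit 98367) (nat_lit 27) (.e (nat_lit 434231) (nat_lit 23) (.e (nat_lit 532507) (nat_lit 2) (.e (nat_lit 106537) (nat_lit 12) .nil)))))))) (.g (nat_lit 4) .nil .nil)))) (.nd (nat_lit 5) 
(.lf (nat_lit 163676) (.g (nat_lit 2777) (.e (nat_lit 57464) (nat_lit 23) (.e (nat_lit 516116) (nat_lit 1) (.e (nat_lit 164398) (nat_lit 256) (.e (nat_lit 57372) (nat_lit 2) (.e (nat_lit 90174) (nat_lit 14) (.e (nat_lit 180243) (nat_lit 5) (.e (nat_lit 532510) (nat_lit 2) (.e (nat_lit 106537) (nat_lit 12) .nil)))))))) (.g (nat_lit 4) .nil .nil))) 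
(.lf (nat_lit 163708) (.g (nat_lit 2592) (.e (nat_lit 57464) (nat_lit 23) (.e (nat_lit 516116) (nat_lit 1) (.e (nat_lit 164399) (nat_lit 256) (.e (nat_lit 57375) (nat_lit 2) (.e (nat_lit 90174) (nat_lit 14) (.e (nat_lit 180243) (nat_lit 5) (.e (nat_lit 532511) (nat_lit 2) (.e (nat_lit 106537) (nat_lit 12) .nil)))))))) (.g (nat_lit 5) .nil .nil))))))) 
(.nd (nat_lit 2) (.nd (nat_lit 3) (.nd (nat_lit 4) (.nd (nat_lit 5) 
(.lf (nat_lit 163650) (.g (nat_lit 3094) (.e (nat_lit 57464) (nat_lit 23) (.e (nat_lit 516115) (nat_lit 1) (.e (nat_lit 164399) (nat_lit 256) (.e (nat_lit 57375) (nat_lit 2) (.e (nat_lit 90172) (nat_lit 14) (.e (nat_lit 180244) (nat_lit 5) (.e (nat_lit 532508) (nat_lit 2) (.e (nat_lit 106537) (nat_lit 12) .nil)))))))) (.g (nat_lit 5) .nil .nil))) 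
(.lf (nat_lit 163682) (.g (nat_lit 3776) (.e (nat_lit 57464) (nat_lit 23) (.e (nat_lit 516116) (nat_lit 1) (.e (nat_lit 164398) (nat_lit 256) (.e (nat_lit 57373) (nat_lit 2) (.e (nat_lit 90174) (nat_lit 14) (.e (nat_lit 180243) (nat_lit 5) (.e (nat_lit 532511) (nat_lit 2) (.e (nat_lit 106537) (nat_lit 12) .nil)))))))) (.g (nat_lit 6) .nil .nil)))) (.nd (nat_lit 5) 
(.lf (nat_lit 163666) (.g (nat_lit 2189) (.e (nat_lit 57464) (nat_lit 23) (.e (nat_lit 516116) (nat_lit 1) (.e (nat_lit 164329) (nat_lit 230) (.e (nat_lit 163843) (nat_lit 0) (.e (nat_lit 3301) (nat_lit 202) .nil))))) .nil)) 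
(.lf (nat_lit 163698) (.g (nat_lit 2920) (.e (nat_lit 57464) (nat_lit 23) (.e (nat_lit 516116) (nat_lit 1) (.e (nat_lit 164399) (nat_lit 256) (.e (nat_lit 57372) (nat_lit 2) (.e (nat_lit 90174) (nat_lit 14) (.e (nat_lit 180243) (nat_lit 5) (.e (nat_lit 532511) (nat_lit 2) (.e (nat_lit 106537) (nat_lit 12) .nil)))))))) (.g (nat_lit 5) .nil .nil))))) (.nd (nat_lit 4) (.nd (nat_lit 5) 
(.lf (nat_lit 163658) (.g (nat_lit 2674) (.e (nat_lit 57464) (nat_lit 23) (.e (nat_lit 516115) (nat_lit 1) (.e (nat_lit 164403) (nat_lit 256) (.e (nat_lit 57371) (nat_lit 2) (.e (nat_lit 90174) (nat_lit 14) (.e (nat_lit 180243) (nat_lit 5) (.e (nat_lit 532510) (nat_lit 2) (.e (nat_lit 106537) (nat_lit 12) .nil)))))))) (.g (nat_lit 4) .nil .nil))) 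
(.lf (nat_lit 163690) (.g (nat_lit 3088) (.e (nat_lit 57464) (nat_lit 23) (.e (nat_lit 516116) (nat_lit 1) (.e (nat_lit 164398) (nat_lit 256) (.e (nat_lit 57379) (nat_lit 3) (.e (nat_lit 98366) (nat_lit 27) (.e (nat_lit 434231) (nat_lit 23) (.e (nat_lit 532490) (nat_lit 0) (.e (nat_lit 2155) (nat_lit 142) (.e (nat_lit 704746) (nat_lit 12) .nil))))))))) (.g (nat_lit 5) .nil .nil)))) 
(.nd (nat_lit 5) 
(.lf (nat_lit 163674) (.g (nat_lit 2536) (.e (nat_lit 57464) (nat_lit 23) (.e (nat_lit 516116) (nat_lit 1) (.e (nat_lit 164398) (nat_lit 256) (.e (nat_lit 57372) (nat_lit 2) (.e (nat_lit 90172) (nat_lit 14) (.e (nat_lit 180244) (nat_lit 5) (.e (nat_lit 532508) (nat_lit 2) (.e (nat_lit 106537) (nat_lit 12) .nil)))))))) (.g (nat_lit 4) .nil .nil))) 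
(.lf (nat_lit 163706) (.g (nat_lit 2824) (.e (nat_lit 57464) (nat_lit 23) (.e (nat_lit 516116) (nat_lit 1) (.e (nat_lit 164399) (nat_lit 256) (.e (nat_lit 57375) (nat_lit 2) (.e (nat_lit 90174) (nat_lit 14) (.e (nat_lit 180243) (nat_lit 5) (.e (nat_lit 532508) (nat_lit 2) (.e (nat_lit 106537) (nat_lit 12) .nil)))))))) (.g (nat_lit 5) .nil .nil)))))) 
(.nd (nat_lit 3) (.nd (nat_lit 4) (.nd (nat_lit 5) 
(.lf (nat_lit 163654) (.g (nat_lit 3594) (.e (nat_lit 57464) (nat_lit 23) (.e (nat_lit 516115) (nat_lit 1) (.e (nat_lit 164399) (nat_lit 256) (.e (nat_lit 57379) (nat_lit 3) (.e (nat_lit 98366) (nat_lit 27) (.e (nat_lit 434231) (nat_lit 23) (.e (nat_lit 532507) (nat_lit 2) (.e (nat_lit 106537) (nat_lit 12) .nil)))))))) (.g (nat_lit 6) .nil .nil))) 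
(.lf (nat_lit 163686) (.g (nat_lit 2471) (.e (nat_lit 57464) (nat_lit 23) (.e (nat_lit 516116) (nat_lit 1) (.e (nat_lit 164398) (nat_lit 256) (.e (nat_lit 57375) (nat_lit 2) (.e (nat_lit 90174) (nat_lit 14) (.e (nat_lit 180243) (nat_lit 5) (.e (nat_lit 532510) (nat_lit 2) (.e (nat_lit 106537) (nat_lit 12) .nil)))))))) (.g (nat_lit 4) .nil .nil)))) (.nd (nat_lit 5) 
(.lf (nat_lit 163670) (.g (nat_lit 2415) (.e (nat_lit 57464) (nat_lit 23) (.e (nat_lit 516116) (nat_lit 1) (.e (nat_lit 164398) (nat_lit 256) (.e (nat_lit 57347) (nat_lit 0) (.e (nat_lit 1691) (nat_lit 117) .nil))))) .nil)) 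
(.lf (nat_lit 163702) (.g (nat_lit 3864) (.e (nat_lit 57464) (nat_lit 23) (.e (nat_lit 516116) (nat_lit 1) (.e (nat_lit 164399) (nat_lit 256) (.e (nat_lit 57373) (nat_lit 2) (.e (nat_lit 90174) (nat_lit 14) (.e (nat_lit 180243) (nat_lit 5) (.e (nat_lit 532510) (nat_lit 2) (.e (nat_lit 106537) (nat_lit 12) .nil)))))))) (.g (nat_lit 6) .nil .nil))))) (.nd (nat_lit 4) (.nd (nat_lit 5) 
(.lf (nat_lit 163662) (.g (nat_lit 2959) (.e (nat_lit 57464) (nat_lit 23) (.e (nat_lit 516115) (nat_lit 1) (.e (nat_lit 164403) (nat_lit 256) (.e (nat_lit 57373) (nat_lit 2) (.e (nat_lit 90172) (nat_lit 14) .nil))))) .nil)) 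
(.lf (nat_lit 163694) (.g (nat_lit 2258) (.e (nat_lit 57464) (nat_lit 23) (.e (nat_lit 516116) (nat_lit 1) (.e (nat_lit 164399) (nat_lit 256) (.e (nat_lit 57347) (nat_lit 0) (.e (nat_lit 1691) (nat_lit 117) .nil))))) .nil))) (.nd (nat_lit 5) 
(.lf (nat_lit 163678) (.g (nat_lit 2164) (.e (nat_lit 57464) (nat_lit 23) (.e (nat_lit 516116) (nat_lit 1) (.e (nat_lit 164398) (nat_lit 256) (.e (nat_lit 57373) (nat_lit 2) (.e (nat_lit 90172) (nat_lit 14) .nil))))) .nil)) 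
(.lf (nat_lit 163710) (.g (nat_lit 2989) (.e (nat_lit 57464) (nat_lit 23) (.e (nat_lit 516116) (nat_lit 1) (.e (nat_lit 164399) (nat_lit 256) (.e (nat_lit 57378) (nat_lit 3) (.e (nat_lit 98366) (nat_lit 27) (.e (nat_lit 434231) (nat_lit 23) (.e (nat_lit 532507) (nat_lit 2) (.e (nat_lit 106537) (nat_lit 12) .nil)))))))) (.g (nat_lit 5) .nil .nil)))))))) 
(.nd (nat_lit 1) (.nd (nat_lit 2) (.nd (nat_lit 3) (.nd (nat_lit 4) (.nd (nat_lit 5) 
(.lf (nat_lit 163649) (.g (nat_lit 2388) (.e (nat_lit 57464) (nat_lit 23) (.e (nat_lit 516115) (nat_lit 1) (.e (nat_lit 164399) (nat_lit 256) (.e (nat_lit 57375) (nat_lit 2) (.e (nat_lit 90172) (nat_lit 14) (.e (nat_lit 180244) (nat_lit 5) (.e (nat_lit 532506) (nat_lit 2) (.e (nat_lit 106537) (nat_lit 12) .nil)))))))) (.g (nat_lit 4) .nil .nil))) 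
(.lf (nat_lit 163681) (.g (nat_lit 4002) (.e (nat_lit 57464) (nat_lit 23) (.e (nat_lit 516116) (nat_lit 1) (.e (nat_lit 164398) (nat_lit 256) (.e (nat_lit 57373) (nat_lit 2) (.e (nat_lit 90174) (nat_lit 14) (.e (nat_lit 180243) (nat_lit 5) (.e (nat_lit 532508) (nat_lit 2) (.e (nat_lit 106537) (nat_lit 12) .nil)))))))) (.g (nat_lit 6) .nil .nil)))) (.nd (nat_lit 5) 
(.lf (nat_lit 163665) (.g (nat_lit 2997) (.e (nat_lit 57464) (nat_lit 23) (.e (nat_lit 516115) (nat_lit 1) (.e (nat_lit 164403) (nat_lit 256) (.e (nat_lit 57378) (nat_lit 3) (.e (nat_lit 98366) (nat_lit 27) .nil))))) .nil)) 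
(.lf (nat_lit 163697) (.g (nat_lit 2291) (.e (nat_lit 57464) (nat_lit 23) (.e (nat_lit 516116) (nat_lit 1) (.e (nat_lit 164399) (nat_lit 256) (.e (nat_lit 57372) (nat_lit 2) (.e (nat_lit 90167) (nat_lit 13) (.e (nat_lit 172065) (nat_lit 3) (.e (nat_lit 204834) (nat_lit 19) (.e (nat_lit 106537) (nat_lit 12) .nil)))))))) (.g (nat_lit 4) .nil .nil))))) (.nd (nat_lit 4) (.nd (nat_lit 5) 
(.lf (nat_lit 163657) (.g (nat_lit 2652) (.e (nat_lit 57464) (nat_lit 23) (.e (nat_lit 516115) (nat_lit 1) (.e (nat_lit 164403) (nat_lit 256) (.e (nat_lit 57371) (nat_lit 2) (.e (nat_lit 90174) (nat_lit 14) (.e (nat_lit 180243) (nat_lit 5) (.e (nat_lit 532508) (nat_lit 2) (.e (nat_lit 106537) (nat_lit 12) .nil)))))))) (.g (nat_lit 4) .nil .nil))) 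
(.lf (nat_lit 163689) (.g (nat_lit 2275) (.e (nat_lit 57464) (nat_lit 23) (.e (nat_lit 516116) (nat_lit 1) (.e (nat_lit 164398) (nat_lit 256) (.e (nat_lit 57379) (nat_lit 3) (.e (nat_lit 98366) (nat_lit 27) .nil))))) .nil))) (.nd (nat_lit 5) 
(.lf (nat_lit 163673) (.g (nat_lit 2637) (.e (nat_lit 57464) (nat_lit 23) (.e (nat_lit 516116) (nat_lit 1) (.e (nat_lit 164398) (nat_lit 256) (.e (nat_lit 57372) (nat_lit 2) (.e (nat_lit 90172) (nat_lit 14) (.e (nat_lit 180243) (nat_lit 5) (.e (nat_lit 532508) (nat_lit 2) (.e (nat_lit 106537) (nat_lit 12) .nil)))))))) (.g (nat_lit 4) .nil .nil))) 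
(.lf (nat_lit 163705) (.g (nat_lit 3717) (.e (nat_lit 57464) (nat_lit 23) (.e (nat_lit 516116) (nat_lit 1) (.e (nat_lit 164399) (nat_lit 256) (.e (nat_lit 57374) (nat_lit 2) (.e (nat_lit 90170) (nat_lit 13) (.e (nat_lit 172067) (nat_lit 3) (.e (nat_lit 204834) (nat_lit 19) (.e (nat_lit 106537) (nat_lit 12) .nil)))))))) (.g (nat_lit 5) .nil .nil)))))) 
(.nd (nat_lit 3) (.nd (nat_lit 4) (.nd (nat_lit 5) 
(.lf (nat_lit 163653) (.g (nat_lit 2579) (.e (nat_lit 57464) (nat_lit 23) (.e (nat_lit 516115) (nat_lit 1) (.e (nat_lit 164399) (nat_lit 256) (.e (nat_lit 57379) (nat_lit 3) (.e (nat_lit 98354) (nat_lit 26) .nil))))) .nil)) 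
(.lf (nat_lit 163685) (.g (nat_lit 2465) (.e (nat_lit 57464) (nat_lit 23) (.e (nat_lit 516116) (nat_lit 1) (.e (nat_lit 164398) (nat_lit 256) (.e (nat_lit 57375) (nat_lit 2) (.e (nat_lit 90174) (nat_lit 14) (.e (nat_lit 180243) (nat_lit 5) (.e (nat_lit 532508) (nat_lit 2) (.e (nat_lit 106537) (nat_lit 12) .nil)))))))) (.g (nat_lit 4) .nil .nil)))) (.nd (nat_lit 5) 
(.lf (nat_lit 163669) (.g (nat_lit 606) (.e (nat_lit 57464) (nat_lit 23) (.e (nat_lit 516116) (nat_lit 1) (.e (nat_lit 164398) (nat_lit 256) .nil))) .nil)) 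
(.lf (nat_lit 163701) (.g (nat_lit 3861) (.e (nat_lit 57464) (nat_lit 23) (.e (nat_lit 516116) (nat_lit 1) (.e (nat_lit 164399) (nat_lit 256) (.e (nat_lit 57373) (nat_lit 2) (.e (nat_lit 90174) (nat_lit 14) (.e (nat_lit 180243) (nat_lit 5) (.e (nat_lit 532508) (nat_lit 2) (.e (nat_lit 106537) (nat_lit 12) .nil)))))))) (.g (nat_lit 6) .nil .nil))))) (.nd (nat_lit 4) (.nd (nat_lit 5) 
(.lf (nat_lit 163661) (.g (nat_lit 3147) (.e (nat_lit 57464) (nat_lit 23) (.e (nat_lit 516115) (nat_lit 1) (.e (nat_lit 164403) (nat_lit 256) (.e (nat_lit 57373) (nat_lit 2) (.e (nat_lit 90170) (nat_lit 13) (.e (nat_lit 172067) (nat_lit 3) (.e (nat_lit 204834) (nat_lit 19) (.e (nat_lit 106537) (nat_lit 12) .nil)))))))) (.g (nat_lit 4) .nil .nil))) 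
(.lf (nat_lit 163693) (.g (nat_lit 555) (.e (nat_lit 57464) (nat_lit 23) (.e (nat_lit 516116) (nat_lit 1) (.e (nat_lit 164399) (nat_lit 256) .nil))) .nil))) (.nd (nat_lit 5) 
(.lf (nat_lit 163677) (.g (nat_lit 1883) (.e (nat_lit 57464) (nat_lit 23) (.e (nat_lit 516116) (nat_lit 1) (.e (nat_lit 164398) (nat_lit 256) (.e (nat_lit 57373) (nat_lit 2) (.e (nat_lit 98048) (nat_lit 5) .nil))))) .nil)) 
(.lf (nat_lit 163709) (.g (nat_lit 2712) (.e (nat_lit 57464) (nat_lit 23) (.e (nat_lit 516116) (nat_lit 1) (.e (nat_lit 164399) (nat_lit 256) (.e (nat_lit 57378) (nat_lit 3) (.e (nat_lit 98366) (nat_lit 27) (.e (nat_lit 434231) (nat_lit 23) (.e (nat_lit 532490) (nat_lit 0) (.e (nat_lit 2155) (nat_lit 142) (.e (nat_lit 704746) (nat_lit 12) .nil))))))))) (.g (nat_lit 4) .nil .nil))))))) 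
(.nd (nat_lit 2) (.nd (nat_lit 3) (.nd (nat_lit 4) (.nd (nat_lit 5) 
(.lf (nat_lit 163651) (.g (nat_lit 3032) (.e (nat_lit 57464) (nat_lit 23) (.e (nat_lit 516115) (nat_lit 1) (.e (nat_lit 164399) (nat_lit 256) (.e (nat_lit 57375) (nat_lit 2) (.e (nat_lit 90174) (nat_lit 14) (.e (nat_lit 180243) (nat_lit 5) (.e (nat_lit 532511) (nat_lit 2) (.e (nat_lit 106537) (nat_lit 12) .nil)))))))) (.g (nat_lit 5) .nil .nil))) 
(.lf (nat_lit 163683) (.g (nat_lit 1470) (.e (nat_lit 57464) (nat_lit 23) (.e (nat_lit 516116) (nat_lit 1) (.e (nat_lit 164398) (nat_lit 256) (.e (nat_lit 57375) (nat_lit 2) .nil)))) .nil))) (.nd (nat_lit 5) 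
(.lf (nat_lit 163667) (.g (nat_lit 1180) (.e (nat_lit 57464) (nat_lit 23) (.e (nat_lit 516116) (nat_lit 1) (.e (nat_lit 164329) (nat_lit 230) (.e (nat_lit 163941) (nat_lit 19) .nil)))) .nil)) 
(.lf (nat_lit 163699) (.g (nat_lit 3564) (.e (nat_lit 57464) (nat_lit 23) (.e (nat_lit 516116) (nat_lit 1) (.e (nat_lit 164399) (nat_lit 256) (.e (nat_lit 57373) (nat_lit 2) (.e (nat_lit 90170) (nat_lit 13) (.e (nat_lit 172065) (nat_lit 3) (.e (nat_lit 204834) (nat_lit 19) (.e (nat_lit 106537) (nat_lit 12) .nil)))))))) (.g (nat_lit 6) .nil .nil))))) (.nd (nat_lit 4) (.nd (nat_lit 5) 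
(.lf (nat_lit 163659) (.g (nat_lit 2560) (.e (nat_lit 57464) (nat_lit 23) (.e (nat_lit 516115) (nat_lit 1) (.e (nat_lit 164403) (nat_lit 256) (.e (nat_lit 57373) (nat_lit 2) (.e (nat_lit 98048) (nat_lit 5) .nil))))) .nil)) 
(.lf (nat_lit 163691) (.g (nat_lit 3379) (.e (nat_lit 57464) (nat_lit 23) (.e (nat_lit 516116) (nat_lit 1) (.e (nat_lit 164398) (nat_lit 256) (.e (nat_lit 57379) (nat_lit 3) (.e (nat_lit 98366) (nat_lit 27) (.e (nat_lit 434231) (nat_lit 23) (.e (nat_lit 532507) (nat_lit 2) (.e (nat_lit 106537) (nat_lit 12) .nil)))))))) (.g (nat_lit 5) .nil .nil)))) (.nd (nat_lit 5) 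
(.lf (nat_lit 163675) (.g (nat_lit 2767) (.e (nat_lit 57464) (nat_lit 23) (.e (nat_lit 516116) (nat_lit 1) (.e (nat_lit 164398) (nat_lit 256) (.e (nat_lit 57372) (nat_lit 2) (.e (nat_lit 90174) (nat_lit 14) (.e (nat_lit 180243) (nat_lit 5) (.e (nat_lit 532508) (nat_lit 2) (.e (nat_lit 106537) (nat_lit 12) .nil)))))))) (.g (nat_lit 4) .nil .nil))) 
(.lf (nat_lit 163707) (.g (nat_lit 2830) (.e (nat_lit 57464) (nat_lit 23) (.e (nat_lit 516116) (nat_lit 1) (.e (nat_lit 164399) (nat_lit 256) (.e (nat_lit 57375) (nat_lit 2) (.e (nat_lit 90174) (nat_lit 14) (.e (nat_lit 180243) (nat_lit 5) (.e (nat_lit 532510) (nat_lit 2) (.e (nat_lit 106537) (nat_lit 12) .nil)))))))) (.g (nat_lit 5) .nil .nil)))))) 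
(.nd (nat_lit 3) (.nd (nat_lit 4) (.nd (nat_lit 5) 
(.lf (nat_lit 163655) (.g (nat_lit 818) (.e (nat_lit 57464) (nat_lit 23) (.e (nat_lit 516115) (nat_lit 1) (.e (nat_lit 164403) (nat_lit 256) .nil))) .nil)) 
(.lf (nat_lit 163687) (.g (nat_lit 2233) (.e (nat_lit 57464) (nat_lit 23) (.e (nat_lit 516116) (nat_lit 1) (.e (nat_lit 164398) (nat_lit 256) (.e (nat_lit 57375) (nat_lit 2) (.e (nat_lit 90174) (nat_lit 14) (.e (nat_lit 180243) (nat_lit 5) (.e (nat_lit 532511) (nat_lit 2) (.e (nat_lit 106537) (nat_lit 12) .nil)))))))) (.g (nat_lit 4) .nil .nil)))) (.nd (nat_lit 5) 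
(.lf (nat_lit 163671) (.g (nat_lit 1514) (.e (nat_lit 57464) (nat_lit 23) (.e (nat_lit 516116) (nat_lit 1) (.e (nat_lit 164398) (nat_lit 256) (.e (nat_lit 57370) (nat_lit 2) .nil)))) .nil)) 
(.lf (nat_lit 163703) (.g (nat_lit 3635) (.e (nat_lit 57464) (nat_lit 23) (.e (nat_lit 516116) (nat_lit 1) (.e (nat_lit 164399) (nat_lit 256) (.e (nat_lit 57373) (nat_lit 2) (.e (nat_lit 90174) (nat_lit 14) (.e (nat_lit 180243) (nat_lit 5) (.e (nat_lit 532511) (nat_lit 2) (.e (nat_lit 106537) (nat_lit 12) .nil)))))))) (.g (nat_lit 6) .nil .nil))))) (.nd (nat_lit 4) (.nd (nat_lit 5) 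
(.lf (nat_lit 163663) (.g (nat_lit 3828) (.e (nat_lit 57464) (nat_lit 23) (.e (nat_lit 516115) (nat_lit 1) (.e (nat_lit 164403) (nat_lit 256) (.e (nat_lit 57373) (nat_lit 2) (.e (nat_lit 90174) (nat_lit 14) (.e (nat_lit 180243) (nat_lit 5) (.e (nat_lit 532508) (nat_lit 2) (.e (nat_lit 106537) (nat_lit 12) .nil)))))))) (.g (nat_lit 5) .nil .nil))) 
(.lf (nat_lit 163695) (.g (nat_lit 2295) (.e (nat_lit 57464) (nat_lit 23) (.e (nat_lit 516116) (nat_lit 1) (.e (nat_lit 164399) (nat_lit 256) (.e (nat_lit 57347) (nat_lit 0) (.e (nat_lit 1691) (nat_lit 117) (.e (nat_lit 500069) (nat_lit 19) (.e (nat_lit 73746) (nat_lit 3) (.e (nat_lit 516124) (nat_lit 2) (.e (nat_lit 220928) (nat_lit 3) .nil))))))))) (.g (nat_lit 4) .nil .nil)))) (.nd (nat_lit 5) 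
(.lf (nat_lit 163679) (.g (nat_lit 2513) (.e (nat_lit 57464) (nat_lit 23) (.e (nat_lit 516116) (nat_lit 1) (.e (nat_lit 164398) (nat_lit 256) (.e (nat_lit 57373) (nat_lit 2) (.e (nat_lit 90172) (nat_lit 14) (.e (nat_lit 180244) (nat_lit 5) (.e (nat_lit 532508) (nat_lit 2) (.e (nat_lit 106537) (nat_lit 12) .nil)))))))) (.g (nat_lit 4) .nil .nil))) 
(.lf (nat_lit 163711) (.g (nat_lit 2817) (.e (nat_lit 57464) (nat_lit 23) (.e (nat_lit 516116) (nat_lit 1) (.e (nat_lit 164399) (nat_lit 256) (.e (nat_lit 57379) (nat_lit 3) (.e (nat_lit 98366) (nat_lit 27) (.e (nat_lit 434231) (nat_lit 23) (.e (nat_lit 532507) (nat_lit 2) (.e (nat_lit 106537) (nat_lit 12) .nil)))))))) (.g (nat_lit 5) .nil .nil)))))))))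

noncomputable def tv2195 : DT := (.nd (nat_lit 0) (.nd (nat_lit 1) (.nd (nat_lit 2) (.nd (nat_lit 3) (.nd (nat_lit 4) (.nd (nat_lit 5) 
(.lf (nat_lit 163712) (.g (nat_lit 2548) (.e (nat_lit 57464) (nat_lit 23) (.e (nat_lit 516116) (nat_lit 1) (.e (nat_lit 164401) (nat_lit 256) (.e (nat_lit 57373) (nat_lit 2) (.e (nat_lit 90174) (nat_lit 14) (.e (nat_lit 180243) (nat_lit 5) (.e (nat_lit 532508) (nat_lit 2) (.e (nat_lit 106537) (nat_lit 12) .nil)))))))) (.g (nat_lit 5) .nil .nil))) 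
(.lf (nat_lit 163744) (.g (nat_lit 4034) (.e (nat_lit 57464) (nat_lit 23) (.e (nat_lit 516129) (nat_lit 3) (.e (nat_lit 221210) (nat_lit 22) (.e (nat_lit 196668) (nat_lit 14) (.e (nat_lit 73747) (nat_lit 3) (.e (nat_lit 516115) (nat_lit 1) (.e (nat_lit 164153) (nat_lit 152) (.e (nat_lit 1175) (nat_lit 87) .nil)))))))) (.g (nat_lit 8) .nil .nil)))) (.nd (nat_lit 5) 
(.lf (nat_lit 163728) (.g (nat_lit 3372) (.e (nat_lit 57464) (nat_lit 23) (.e (nat_lit 516129) (nat_lit 3) (.e (nat_lit 221210) (nat_lit 22) (.e (nat_lit 196666) (nat_lit 13) (.e (nat_lit 65569) (nat_lit 3) (.e (nat_lit 98334) (nat_lit 18) (.e (nat_lit 164159) (nat_lit 152) (.e (nat_lit 7936) (nat_lit 87) .nil)))))))) (.g (nat_lit 5) .nil .nil))) 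
(.lf (nat_lit 163760) (.g (nat_lit 3695) (.e (nat_lit 57464) (nat_lit 23) (.e (nat_lit 516129) (nat_lit 3) (.e (nat_lit 221210) (nat_lit 22) (.e (nat_lit 196668) (nat_lit 14) (.e (nat_lit 73747) (nat_lit 3) (.e (nat_lit 516119) (nat_lit 1) (.e (nat_lit 164154) (nat_lit 152) (.e (nat_lit 1175) (nat_lit 87) .nil)))))))) (.g (nat_lit 6) .nil .nil))))) (.nd (nat_lit 4) (.nd (nat_lit 5) 
(.lf (nat_lit 163720) (.g (nat_lit 2809) (.e (nat_lit 57464) (nat_lit 23) (.e (nat_lit 516116) (nat_lit 1) (.e (nat_lit 164403) (nat_lit 256) (.e (nat_lit 57373) (nat_lit 2) (.e (nat_lit 90174) (nat_lit 14) (.e (nat_lit 180243) (nat_lit 5) (.e (nat_lit 532511) (nat_lit 2) (.e (nat_lit 106537) (nat_lit 12) .nil)))))))) (.g (nat_lit 4) .nil .nil))) 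
(.lf (nat_lit 163752) (.g (nat_lit 1957) (.e (nat_lit 57464) (nat_lit 23) (.e (nat_lit 516129) (nat_lit 3) (.e (nat_lit 221210) (nat_lit 22) (.e (nat_lit 196668) (nat_lit 14) (.e (nat_lit 73747) (nat_lit 3) (.e (nat_lit 516117) (nat_lit 1) (.e (nat_lit 164147) (nat_lit 152) (.e (nat_lit 1185) (nat_lit 87) .nil)))))))) (.g (nat_lit 4) .nil .nil)))) (.nd (nat_lit 5) 
(.lf (nat_lit 163736) (.g (nat_lit 2497) (.e (nat_lit 57464) (nat_lit 23) (.e (nat_lit 516129) (nat_lit 3) (.e (nat_lit 221210) (nat_lit 22) (.e (nat_lit 196668) (nat_lit 14) (.e (nat_lit 73746) (nat_lit 3) (.e (nat_lit 516117) (nat_lit 1) (.e (nat_lit 164170) (nat_lit 152) (.e (nat_lit 7936) (nat_lit 87) .nil)))))))) (.g (nat_lit 4) .nil .nil))) 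
(.lf (nat_lit 163768) (.g (nat_lit 2310) (.e (nat_lit 57464) (nat_lit 23) (.e (nat_lit 516129) (nat_lit 3) (.e (nat_lit 221210) (nat_lit 22) (.e (nat_lit 196670) (nat_lit 14) (.e (nat_lit 73746) (nat_lit 3) (.e (nat_lit 516115) (nat_lit 1) (.e (nat_lit 164151) (nat_lit 152) (.e (nat_lit 7936) (nat_lit 87) .nil)))))))) (.g (nat_lit 4) .nil .nil)))))) 
(.nd (nat_lit 3) (.nd (nat_lit 4) (.nd (nat_lit 5) 
(.lf (nat_lit 163716) (.g (nat_lit 2457) (.e (nat_lit 57464) (nat_lit 23) (.e (nat_lit 516116) (nat_lit 1) (.e (nat_lit 164403) (nat_lit 256) (.e (nat_lit 57373) (nat_lit 2) (.e (nat_lit 98048) (nat_lit 5) .nil))))) .nil)) 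
(.lf (nat_lit 163748) (.g (nat_lit 2116) (.e (nat_lit 57464) (nat_lit 23) (.e (nat_lit 516129) (nat_lit 3) (.e (nat_lit 221210) (nat_lit 22) (.e (nat_lit 196668) (nat_lit 14) (.e (nat_lit 73747) (nat_lit 3) (.e (nat_lit 516115) (nat_lit 1) (.e (nat_lit 171776) (nat_lit 152) (.e (nat_lit 1175) (nat_lit 87) .nil)))))))) (.g (nat_lit 4) .nil .nil)))) (.nd (nat_lit 5) 
(.lf (nat_lit 163732) (.g (nat_lit 2074) (.e (nat_lit 57464) (nat_lit 23) (.e (nat_lit 516129) (nat_lit 3) (.e (nat_lit 221210) (nat_lit 22) (.e (nat_lit 196668) (nat_lit 14) (.e (nat_lit 73746) (nat_lit 3) .nil))))) .nil)) 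
(.lf (nat_lit 163764) (.g (nat_lit 2143) (.e (nat_lit 57464) (nat_lit 23) (.e (nat_lit 516129) (nat_lit 3) (.e (nat_lit 221210) (nat_lit 22) (.e (nat_lit 196670) (nat_lit 14) (.e (nat_lit 73746) (nat_lit 3) (.e (nat_lit 516100) (nat_lit 0) (.e (nat_lit 7936) (nat_lit 216) (.e (nat_lit 688168) (nat_lit 15) .nil)))))))) (.g (nat_lit 4) .nil .nil))))) (.nd (nat_lit 4) (.nd (nat_lit 5) 
(.lf (nat_lit 163724) (.g (nat_lit 3211) (.e (nat_lit 57464) (nat_lit 23) (.e (nat_lit 516123) (nat_lit 2) (.e (nat_lit 213013) (nat_lit 9) (.e (nat_lit 2684) (nat_lit 168) (.e (nat_lit 204880) (nat_lit 32) (.e (nat_lit 385066) (nat_lit 26) (.e (nat_lit 532504) (nat_lit 1) (.e (nat_lit 57830) (nat_lit 250) (.e (nat_lit 1175) (nat_lit 87) .nil))))))))) (.g (nat_lit 6) .nil .nil))) 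
(.lf (nat_lit 163756) (.g (nat_lit 2221) (.e (nat_lit 57464) (nat_lit 23) (.e (nat_lit 516129) (nat_lit 3) (.e (nat_lit 221210) (nat_lit 22) (.e (nat_lit 196668) (nat_lit 14) (.e (nat_lit 73747) (nat_lit 3) (.e (nat_lit 516117) (nat_lit 1) (.e (nat_lit 164160) (nat_lit 152) (.e (nat_lit 7936) (nat_lit 87) .nil)))))))) (.g (nat_lit 4) .nil .nil)))) (.nd (nat_lit 5) 
(.lf (nat_lit 163740) (.g (nat_lit 1809) (.e (nat_lit 57464) (nat_lit 23) (.e (nat_lit 516129) (nat_lit 3) (.e (nat_lit 221210) (nat_lit 22) (.e (nat_lit 196668) (nat_lit 14) (.e (nat_lit 73747) (nat_lit 3) .nil))))) .nil)) 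
(.lf (nat_lit 163772) (.g (nat_lit 2075) (.e (nat_lit 57464) (nat_lit 23) (.e (nat_lit 516129) (nat_lit 3) (.e (nat_lit 221210) (nat_lit 22) (.e (nat_lit 196670) (nat_lit 14) (.e (nat_lit 73746) (nat_lit 3) (.e (nat_lit 516117) (nat_lit 1) (.e (nat_lit 164147) (nat_lit 152) (.e (nat_lit 1174) (nat_lit 87) .nil)))))))) (.g (nat_lit 4) .nil .nil))))))) 
(.nd (nat_lit 2) (.nd (nat_lit 3) (.nd (nat_lit 4) (.nd (nat_lit 5) 
(.lf (nat_lit 163714) (.g (nat_lit 663) (.e (nat_lit 57464) (nat_lit 23) (.e (nat_lit 516116) (nat_lit 1) (.e (nat_lit 164403) (nat_lit 256) .nil))) .nil)) 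
(.lf (nat_lit 163746) (.g (nat_lit 4124) (.e (nat_lit 57464) (nat_lit 23) (.e (nat_lit 516129) (nat_lit 3) (.e (nat_lit 221210) (nat_lit 22) (.e (nat_lit 196668) (nat_lit 14) (.e (nat_lit 73747) (nat_lit 3) (.e (nat_lit 516115) (nat_lit 1) (.e (nat_lit 164156) (nat_lit 152) (.e (nat_lit 1184) (nat_lit 87) .nil)))))))) (.g (nat_lit 7) .nil .nil)))) (.nd (nat_lit 5) 
(.lf (nat_lit 163730) (.g (nat_lit 2501) (.e (nat_lit 57464) (nat_lit 23) (.e (nat_lit 516129) (nat_lit 3) (.e (nat_lit 221210) (nat_lit 22) (.e (nat_lit 196666) (nat_lit 13) (.e (nat_lit 65571) (nat_lit 3) (.e (nat_lit 98333) (nat_lit 18) (.e (nat_lit 164151) (nat_lit 152) (.e (nat_lit 1186) (nat_lit 87) .nil)))))))) (.g (nat_lit 4) .nil .nil))) 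
(.lf (nat_lit 163762) (.g (nat_lit 1499) (.e (nat_lit 57464) (nat_lit 23) (.e (nat_lit 516129) (nat_lit 3) (.e (nat_lit 221210) (nat_lit 22) (.e (nat_lit 196669) (nat_lit 14) .nil)))) .nil)))) (.nd (nat_lit 4) (.nd (nat_lit 5) 
(.lf (nat_lit 163722) (.g (nat_lit 3390) (.e (nat_lit 57464) (nat_lit 23) (.e (nat_lit 516123) (nat_lit 2) (.e (nat_lit 213013) (nat_lit 9) (.e (nat_lit 2684) (nat_lit 168) (.e (nat_lit 204852) (nat_lit 26) (.e (nat_lit 336326) (nat_lit 18) (.e (nat_lit 204830) (nat_lit 18) (.e (nat_lit 57830) (nat_lit 250) (.e (nat_lit 1175) (nat_lit 87) .nil))))))))) (.g (nat_lit 8) .nil .nil))) 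
(.lf (nat_lit 163754) (.g (nat_lit 2221) (.e (nat_lit 57464) (nat_lit 23) (.e (nat_lit 516129) (nat_lit 3) (.e (nat_lit 221210) (nat_lit 22) (.e (nat_lit 196668) (nat_lit 14) (.e (nat_lit 73747) (nat_lit 3) (.e (nat_lit 516117) (nat_lit 1) (.e (nat_lit 164158) (nat_lit 152) (.e (nat_lit 7936) (nat_lit 87) .nil)))))))) (.g (nat_lit 4) .nil .nil)))) (.nd (nat_lit 5) 
(.lf (nat_lit 163738) (.g (nat_lit 2578) (.e (nat_lit 57464) (nat_lit 23) (.e (nat_lit 516129) (nat_lit 3) (.e (nat_lit 221210) (nat_lit 22) (.e (nat_lit 196668) (nat_lit 14) (.e (nat_lit 73746) (nat_lit 3) (.e (nat_lit 516119) (nat_lit 1) (.e (nat_lit 164156) (nat_lit 152) (.e (nat_lit 1184) (nat_lit 87) .nil)))))))) (.g (nat_lit 4) .nil .nil))) 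
(.lf (nat_lit 163770) (.g (nat_lit 2550) (.e (nat_lit 57464) (nat_lit 23) (.e (nat_lit 516129) (nat_lit 3) (.e (nat_lit 221210) (nat_lit 22) (.e (nat_lit 196670) (nat_lit 14) (.e (nat_lit 73746) (nat_lit 3) (.e (nat_lit 516115) (nat_lit 1) (.e (nat_lit 164160) (nat_lit 152) (.e (nat_lit 7936) (nat_lit 87) .nil)))))))) (.g (nat_lit 4) .nil .nil)))))) 
(.nd (nat_lit 3) (.nd (nat_lit 4) (.nd (nat_lit 5) 
(.lf (nat_lit 163718) (.g (nat_lit 3035) (.e (nat_lit 57464) (nat_lit 23) (.e (nat_lit 516116) (nat_lit 1) (.e (nat_lit 164403) (nat_lit 256) (.e (nat_lit 57373) (nat_lit 2) (.e (nat_lit 90174) (nat_lit 14) (.e (nat_lit 180243) (nat_lit 5) (.e (nat_lit 532508) (nat_lit 2) (.e (nat_lit 106537) (nat_lit 12) .nil)))))))) (.g (nat_lit 4) .nil .nil))) 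
(.lf (nat_lit 163750) (.g (nat_lit 2031) (.e (nat_lit 57464) (nat_lit 23) (.e (nat_lit 516129) (nat_lit 3) (.e (nat_lit 221210) (nat_lit 22) (.e (nat_lit 196668) (nat_lit 14) (.e (nat_lit 73747) (nat_lit 3) (.e (nat_lit 516117) (nat_lit 1) (.e (nat_lit 164147) (nat_lit 152) (.e (nat_lit 1174) (nat_lit 87) .nil)))))))) (.g (nat_lit 4) .nil .nil)))) (.nd (nat_lit 5) 
(.lf (nat_lit 163734) (.g (nat_lit 2098) (.e (nat_lit 57464) (nat_lit 23) (.e (nat_lit 516129) (nat_lit 3) (.e (nat_lit 221210) (nat_lit 22) (.e (nat_lit 196668) (nat_lit 14) (.e (nat_lit 73746) (nat_lit 3) (.e (nat_lit 516117) (nat_lit 1) (.e (nat_lit 164158) (nat_lit 152) (.e (nat_lit 7936) (nat_lit 87) .nil)))))))) (.g (nat_lit 4) .nil .nil))) 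
(.lf (nat_lit 163766) (.g (nat_lit 2460) (.e (nat_lit 57464) (nat_lit 23) (.e (nat_lit 516129) (nat_lit 3) (.e (nat_lit 221210) (nat_lit 22) (.e (nat_lit 196670) (nat_lit 14) (.e (nat_lit 73746) (nat_lit 3) (.e (nat_lit 516115) (nat_lit 1) (.e (nat_lit 164149) (nat_lit 152) (.e (nat_lit 1186) (nat_lit 87) .nil)))))))) (.g (nat_lit 4) .nil .nil))))) (.nd (nat_lit 4) (.nd (nat_lit 5) 
(.lf (nat_lit 163726) (.g (nat_lit 1433) (.e (nat_lit 57464) (nat_lit 23) (.e (nat_lit 516129) (nat_lit 3) (.e (nat_lit 221210) (nat_lit 22) (.e (nat_lit 196663) (nat_lit 13) .nil)))) .nil)) 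
(.lf (nat_lit 163758) (.g (nat_lit 2399) (.e (nat_lit 57464) (nat_lit 23) (.e (nat_lit 516129) (nat_lit 3) (.e (nat_lit 221210) (nat_lit 22) (.e (nat_lit 196668) (nat_lit 14) (.e (nat_lit 73747) (nat_lit 3) (.e (nat_lit 516119) (nat_lit 1) (.e (nat_lit 164150) (nat_lit 152) (.e (nat_lit 1185) (nat_lit 87) .nil)))))))) (.g (nat_lit 4) .nil .nil)))) (.nd (nat_lit 5) 
(.lf (nat_lit 163742) (.g (nat_lit 3796) (.e (nat_lit 57464) (nat_lit 23) (.e (nat_lit 516129) (nat_lit 3) (.e (nat_lit 221210) (nat_lit 22) (.e (nat_lit 196668) (nat_lit 14) (.e (nat_lit 73747) (nat_lit 3) (.e (nat_lit 516115) (nat_lit 1) (.e (nat_lit 164151) (nat_lit 152) (.e (nat_lit 1185) (nat_lit 87) .nil)))))))) (.g (nat_lit 6) .nil .nil))) 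
(.lf (nat_lit 163774) (.g (nat_lit 2373) (.e (nat_lit 57464) (nat_lit 23) (.e (nat_lit 516129) (nat_lit 3) (.e (nat_lit 221210) (nat_lit 22) (.e (nat_lit 196670) (nat_lit 14) (.e (nat_lit 73746) (nat_lit 3) (.e (nat_lit 516117) (nat_lit 1) (.e (nat_lit 164158) (nat_lit 152) (.e (nat_lit 7936) (nat_lit 87) .nil)))))))) (.g (nat_lit 4) .nil .nil)))))))) 
(.nd (nat_lit 1) (.nd (nat_lit 2) (.nd (nat_lit 3) (.nd (nat_lit 4) (.nd (nat_lit 5) 
(.lf (nat_lit 163713) (.g (nat_lit 2551) (.e (nat_lit 57464) (nat_lit 23) (.e (nat_lit 516116) (nat_lit 1) (.e (nat_lit 164401) (nat_lit 256) (.e (nat_lit 57373) (nat_lit 2) (.e (nat_lit 90174) (nat_lit 14) (.e (nat_lit 180243) (nat_lit 5) (.e (nat_lit 532510) (nat_lit 2) (.e (nat_lit 106537) (nat_lit 12) .nil)))))))) (.g (nat_lit 5) .nil .nil))) 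
(.lf (nat_lit 163745) (.g (nat_lit 3851) (.e (nat_lit 57464) (nat_lit 23) (.e (nat_lit 516129) (nat_lit 3) (.e (nat_lit 221210) (nat_lit 22) (.e (nat_lit 196668) (nat_lit 14) (.e (nat_lit 73747) (nat_lit 3) (.e (nat_lit 516115) (nat_lit 1) (.e (nat_lit 164153) (nat_lit 152) (.e (nat_lit 7936) (nat_lit 87) .nil)))))))) (.g (nat_lit 7) .nil .nil)))) (.nd (nat_lit 5) 
(.lf (nat_lit 163729) (.g (nat_lit 2949) (.e (nat_lit 57464) (nat_lit 23) (.e (nat_lit 516129) (nat_lit 3) (.e (nat_lit 221210) (nat_lit 22) (.e (nat_lit 196666) (nat_lit 13) (.e (nat_lit 65569) (nat_lit 3) (.e (nat_lit 98334) (nat_lit 18) (.e (nat_lit 164161) (nat_lit 152) (.e (nat_lit 7936) (nat_lit 87) .nil)))))))) (.g (nat_lit 4) .nil .nil))) 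
(.lf (nat_lit 163761) (.g (nat_lit 2980) (.e (nat_lit 57464) (nat_lit 23) (.e (nat_lit 516129) (nat_lit 3) (.e (nat_lit 221210) (nat_lit 22) (.e (nat_lit 196668) (nat_lit 14) (.e (nat_lit 81664) (nat_lit 5) (.e (nat_lit 532499) (nat_lit 1) (.e (nat_lit 57655) (nat_lit 152) (.e (nat_lit 1185) (nat_lit 87) .nil)))))))) (.g (nat_lit 6) .nil .nil))))) (.nd (nat_lit 4) (.nd (nat_lit 5) 
(.lf (nat_lit 163721) (.g (nat_lit 1540) (.e (nat_lit 57464) (nat_lit 23) (.e (nat_lit 516117) (nat_lit 1) (.e (nat_lit 164329) (nat_lit 230) .nil))) .nil)) 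
(.lf (nat_lit 163753) (.g (nat_lit 3405) (.e (nat_lit 57464) (nat_lit 23) (.e (nat_lit 516129) (nat_lit 3) (.e (nat_lit 221210) (nat_lit 22) (.e (nat_lit 196668) (nat_lit 14) (.e (nat_lit 73747) (nat_lit 3) (.e (nat_lit 516117) (nat_lit 1) (.e (nat_lit 164147) (nat_lit 152) (.e (nat_lit 1186) (nat_lit 87) .nil)))))))) (.g (nat_lit 6) .nil .nil)))) (.nd (nat_lit 5) 
(.lf (nat_lit 163737) (.g (nat_lit 2911) (.e (nat_lit 57464) (nat_lit 23) (.e (nat_lit 516129) (nat_lit 3) (.e (nat_lit 221210) (nat_lit 22) (.e (nat_lit 196668) (nat_lit 14) (.e (nat_lit 73746) (nat_lit 3) (.e (nat_lit 516119) (nat_lit 1) (.e (nat_lit 164147) (nat_lit 152) (.e (nat_lit 1172) (nat_lit 87) .nil)))))))) (.g (nat_lit 5) .nil .nil))) 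
(.lf (nat_lit 163769) (.g (nat_lit 2523) (.e (nat_lit 57464) (nat_lit 23) (.e (nat_lit 516129) (nat_lit 3) (.e (nat_lit 221210) (nat_lit 22) (.e (nat_lit 196670) (nat_lit 14) (.e (nat_lit 73746) (nat_lit 3) (.e (nat_lit 516115) (nat_lit 1) (.e (nat_lit 164153) (nat_lit 152) (.e (nat_lit 1174) (nat_lit 87) .nil)))))))) (.g (nat_lit 4) .nil .nil)))))) 
(.nd (nat_lit 3) (.nd (nat_lit 4) (.nd (nat_lit 5) 
(.lf (nat_lit 163717) (.g (nat_lit 2457) (.e (nat_lit 57464) (nat_lit 23) (.e (nat_lit 516116) (nat_lit 1) (.e (nat_lit 164403) (nat_lit 256) (.e (nat_lit 57373) (nat_lit 2) (.e (nat_lit 90170) (nat_lit 13) .nil))))) .nil)) 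
(.lf (nat_lit 163749) (.g (nat_lit 3551) (.e (nat_lit 57464) (nat_lit 23) (.e (nat_lit 516129) (nat_lit 3) (.e (nat_lit 221210) (nat_lit 22) (.e (nat_lit 196668) (nat_lit 14) (.e (nat_lit 73747) (nat_lit 3) (.e (nat_lit 516117) (nat_lit 1) (.e (nat_lit 164147) (nat_lit 152) (.e (nat_lit 1172) (nat_lit 87) .nil)))))))) (.g (nat_lit 6) .nil .nil)))) (.nd (nat_lit 5) 
(.lf (nat_lit 163733) (.g (nat_lit 2446) (.e (nat_lit 57464) (nat_lit 23) (.e (nat_lit 516129) (nat_lit 3) (.e (nat_lit 221210) (nat_lit 22) (.e (nat_lit 196668) (nat_lit 14) (.e (nat_lit 73746) (nat_lit 3) (.e (nat_lit 516117) (nat_lit 1) (.e (nat_lit 164147) (nat_lit 152) (.e (nat_lit 1175) (nat_lit 87) .nil)))))))) (.g (nat_lit 4) .nil .nil))) 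
(.lf (nat_lit 163765) (.g (nat_lit 2628) (.e (nat_lit 57464) (nat_lit 23) (.e (nat_lit 516129) (nat_lit 3) (.e (nat_lit 221210) (nat_lit 22) (.e (nat_lit 196670) (nat_lit 14) (.e (nat_lit 73746) (nat_lit 3) (.e (nat_lit 516115) (nat_lit 1) (.e (nat_lit 164148) (nat_lit 152) (.e (nat_lit 1185) (nat_lit 87) .nil)))))))) (.g (nat_lit 4) .nil .nil))))) (.nd (nat_lit 4) (.nd (nat_lit 5) 
(.lf (nat_lit 163725) (.g (nat_lit 556) (.e (nat_lit 57464) (nat_lit 23) (.e (nat_lit 516129) (nat_lit 3) (.e (nat_lit 229120) (nat_lit 18) .nil))) .nil)) 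
(.lf (nat_lit 163757) (.g (nat_lit 3480) (.e (nat_lit 57464) (nat_lit 23) (.e (nat_lit 516129) (nat_lit 3) (.e (nat_lit 221210) (nat_lit 22) (.e (nat_lit 196668) (nat_lit 14) (.e (nat_lit 73747) (nat_lit 3) (.e (nat_lit 516117) (nat_lit 1) (.e (nat_lit 164161) (nat_lit 152) (.e (nat_lit 7936) (nat_lit 87) .nil)))))))) (.g (nat_lit 6) .nil .nil)))) (.nd (nat_lit 5) 
(.lf (nat_lit 163741) (.g (nat_lit 3835) (.e (nat_lit 57464) (nat_lit 23) (.e (nat_lit 516129) (nat_lit 3) (.e (nat_lit 221210) (nat_lit 22) (.e (nat_lit 196668) (nat_lit 14) (.e (nat_lit 73747) (nat_lit 3) (.e (nat_lit 516115) (nat_lit 1) (.e (nat_lit 164148) (nat_lit 152) (.e (nat_lit 1186) (nat_lit 87) .nil)))))))) (.g (nat_lit 6) .nil .nil))) 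
(.lf (nat_lit 163773) (.g (nat_lit 2733) (.e (nat_lit 57464) (nat_lit 23) (.e (nat_lit 516129) (nat_lit 3) (.e (nat_lit 221210) (nat_lit 22) (.e (nat_lit 196670) (nat_lit 14) (.e (nat_lit 73746) (nat_lit 3) (.e (nat_lit 516117) (nat_lit 1) (.e (nat_lit 164147) (nat_lit 152) (.e (nat_lit 1175) (nat_lit 87) .nil)))))))) (.g (nat_lit 5) .nil .nil))))))) 
(.nd (nat_lit 2) (.nd (nat_lit 3) (.nd (nat_lit 4) (.nd (nat_lit 5) 
(.lf (nat_lit 163715) (.g (nat_lit 2272) (.e (nat_lit 57464) (nat_lit 23) (.e (nat_lit 516116) (nat_lit 1) (.e (nat_lit 164403) (nat_lit 256) (.e (nat_lit 57371) (nat_lit 2) (.e (nat_lit 90174) (nat_lit 14) .nil))))) .nil)) 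
(.lf (nat_lit 163747) (.g (nat_lit 3980) (.e (nat_lit 57464) (nat_lit 23) (.e (nat_lit 516129) (nat_lit 3) (.e (nat_lit 221210) (nat_lit 22) (.e (nat_lit 196668) (nat_lit 14) (.e (nat_lit 73747) (nat_lit 3) (.e (nat_lit 516115) (nat_lit 1) (.e (nat_lit 164161) (nat_lit 152) (.e (nat_lit 7936) (nat_lit 87) .nil)))))))) (.g (nat_lit 6) .nil .nil)))) (.nd (nat_lit 5) 
(.lf (nat_lit 163731) (.g (nat_lit 2640) (.e (nat_lit 57464) (nat_lit 23) (.e (nat_lit 516129) (nat_lit 3) (.e (nat_lit 221210) (nat_lit 22) (.e (nat_lit 196666) (nat_lit 13) (.e (nat_lit 65571) (nat_lit 3) (.e (nat_lit 98334) (nat_lit 18) (.e (nat_lit 164159) (nat_lit 152) (.e (nat_lit 7936) (nat_lit 87) .nil)))))))) (.g (nat_lit 4) .nil .nil))) 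
(.lf (nat_lit 163763) (.g (nat_lit 2033) (.e (nat_lit 57464) (nat_lit 23) (.e (nat_lit 516129) (nat_lit 3) (.e (nat_lit 221210) (nat_lit 22) (.e (nat_lit 196670) (nat_lit 14) (.e (nat_lit 73746) (nat_lit 3) .nil))))) .nil)))) (.nd (nat_lit 4) (.nd (nat_lit 5) 
(.lf (nat_lit 163723) (.g (nat_lit 2970) (.e (nat_lit 57464) (nat_lit 23) (.e (nat_lit 516123) (nat_lit 2) (.e (nat_lit 213013) (nat_lit 9) (.e (nat_lit 2684) (nat_lit 168) (.e (nat_lit 204852) (nat_lit 26) (.e (nat_lit 336326) (nat_lit 18) (.e (nat_lit 204831) (nat_lit 18) (.e (nat_lit 57830) (nat_lit 250) (.e (nat_lit 1175) (nat_lit 87) .nil))))))))) (.g (nat_lit 8) .nil .nil))) 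
(.lf (nat_lit 163755) (.g (nat_lit 3648) (.e (nat_lit 57464) (nat_lit 23) (.e (nat_lit 516129) (nat_lit 3) (.e (nat_lit 221210) (nat_lit 22) (.e (nat_lit 196668) (nat_lit 14) (.e (nat_lit 73747) (nat_lit 3) (.e (nat_lit 516117) (nat_lit 1) (.e (nat_lit 164159) (nat_lit 152) (.e (nat_lit 7936) (nat_lit 87) .nil)))))))) (.g (nat_lit 6) .nil .nil)))) (.nd (nat_lit 5) 
(.lf (nat_lit 163739) (.g (nat_lit 2301) (.e (nat_lit 57464) (nat_lit 23) (.e (nat_lit 516129) (nat_lit 3) (.e (nat_lit 221210) (nat_lit 22) (.e (nat_lit 196668) (nat_lit 14) (.e (nat_lit 73746) (nat_lit 3) (.e (nat_lit 516120) (nat_lit 1) (.e (nat_lit 164147) (nat_lit 152) (.e (nat_lit 1175) (nat_lit 87) .nil)))))))) (.g (nat_lit 4) .nil .nil))) 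
(.lf (nat_lit 163771) (.g (nat_lit 3585) (.e (nat_lit 57464) (nat_lit 23) (.e (nat_lit 516129) (nat_lit 3) (.e (nat_lit 221210) (nat_lit 22) (.e (nat_lit 196670) (nat_lit 14) (.e (nat_lit 73746) (nat_lit 3) (.e (nat_lit 516117) (nat_lit 1) (.e (nat_lit 164147) (nat_lit 152) (.e (nat_lit 1172) (nat_lit 87) .nil)))))))) (.g (nat_lit 6) .nil .nil)))))) 
(.nd (nat_lit 3) (.nd (nat_lit 4) (.nd (nat_lit 5) 
(.lf (nat_lit 163719) (.g (nat_lit 3038) (.e (nat_lit 57464) (nat_lit 23) (.e (nat_lit 516116) (nat_lit 1) (.e (nat_lit 164403) (nat_lit 256) (.e (nat_lit 57373) (nat_lit 2) (.e (nat_lit 90174) (nat_lit 14) (.e (nat_lit 180243) (nat_lit 5) (.e (nat_lit 532510) (nat_lit 2) (.e (nat_lit 106537) (nat_lit 12) .nil)))))))) (.g (nat_lit 4) .nil .nil))) 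
(.lf (nat_lit 163751) (.g (nat_lit 2690) (.e (nat_lit 57464) (nat_lit 23) (.e (nat_lit 516129) (nat_lit 3) (.e (nat_lit 221210) (nat_lit 22) (.e (nat_lit 196668) (nat_lit 14) (.e (nat_lit 73747) (nat_lit 3) (.e (nat_lit 516117) (nat_lit 1) (.e (nat_lit 164147) (nat_lit 152) (.e (nat_lit 1175) (nat_lit 87) .nil)))))))) (.g (nat_lit 5) .nil .nil)))) (.nd (nat_lit 5) 
(.lf (nat_lit 163735) (.g (nat_lit 2341) (.e (nat_lit 57464) (nat_lit 23) (.e (nat_lit 516129) (nat_lit 3) (.e (nat_lit 221210) (nat_lit 22) (.e (nat_lit 196668) (nat_lit 14) (.e (nat_lit 73746) (nat_lit 3) (.e (nat_lit 516117) (nat_lit 1) (.e (nat_lit 164160) (nat_lit 152) (.e (nat_lit 7936) (nat_lit 87) .nil)))))))) (.g (nat_lit 4) .nil .nil))) 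
(.lf (nat_lit 163767) (.g (nat_lit 4027) (.e (nat_lit 57464) (nat_lit 23) (.e (nat_lit 516129) (nat_lit 3) (.e (nat_lit 221210) (nat_lit 22) (.e (nat_lit 196670) (nat_lit 14) (.e (nat_lit 73746) (nat_lit 3) (.e (nat_lit 516115) (nat_lit 1) (.e (nat_lit 164150) (nat_lit 152) (.e (nat_lit 1186) (nat_lit 87) .nil)))))))) (.g (nat_lit 6) .nil .nil))))) (.nd (nat_lit 4) (.nd (nat_lit 5) 
(.lf (nat_lit 163727) (.g (nat_lit 2083) (.e (nat_lit 57464) (nat_lit 23) (.e (nat_lit 516129) (nat_lit 3) (.e (nat_lit 221210) (nat_lit 22) (.e (nat_lit 196665) (nat_lit 13) (.e (nat_lit 65637) (nat_lit 15) (.e (nat_lit 3253) (nat_lit 197) (.e (nat_lit 532501) (nat_lit 1) (.e (nat_lit 57830) (nat_lit 250) (.e (nat_lit 1175) (nat_lit 87) .nil))))))))) (.g (nat_lit 4) .nil .nil))) 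
(.lf (nat_lit 163759) (.g (nat_lit 2443) (.e (nat_lit 57464) (nat_lit 23) (.e (nat_lit 516129) (nat_lit 3) (.e (nat_lit 221210) (nat_lit 22) (.e (nat_lit 196668) (nat_lit 14) (.e (nat_lit 73747) (nat_lit 3) (.e (nat_lit 516119) (nat_lit 1) (.e (nat_lit 164154) (nat_lit 152) (.e (nat_lit 1174) (nat_lit 87) .nil)))))))) (.g (nat_lit 4) .nil .nil)))) (.nd (nat_lit 5) 
(.lf (nat_lit 163743) (.g (nat_lit 3041) (.e (nat_lit 57464) (nat_lit 23) (.e (nat_lit 516129) (nat_lit 3) (.e (nat_lit 221210) (nat_lit 22) (.e (nat_lit 196668) (nat_lit 14) (.e (nat_lit 73747) (nat_lit 3) (.e (nat_lit 516115) (nat_lit 1) (.e (nat_lit 164153) (nat_lit 152) (.e (nat_lit 1174) (nat_lit 87) .nil)))))))) (.g (nat_lit 5) .nil .nil))) 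
(.lf (nat_lit 163775) (.g (nat_lit 2108) (.e (nat_lit 57464) (nat_lit 23) (.e (nat_lit 516129) (nat_lit 3) (.e (nat_lit 221210) (nat_lit 22) (.e (nat_lit 196670) (nat_lit 14) (.e (nat_lit 73746) (nat_lit 3) (.e (nat_lit 516117) (nat_lit 1) (.e (nat_lit 164166) (nat_lit 152) (.e (nat_lit 1169) (nat_lit 87) .nil)))))))) (.g (nat_lit 4) .nil .nil)))))))))

noncomputable def tv2196 : DT := (.nd (nat_lit 0) (.nd (nat_lit 1) (.nd (nat_lit 2) (.nd (nat_lit 3) (.nd (nat_lit 4) (.nd (nat_lit 5) 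
(.lf (nat_lit 163776) (.g (nat_lit 2523) (.e (nat_lit 57464) (nat_lit 23) (.e (nat_lit 516129) (nat_lit 3) (.e (nat_lit 221210) (nat_lit 22) (.e (nat_lit 196670) (nat_lit 14) (.e (nat_lit 73746) (nat_lit 3) (.e (nat_lit 516117) (nat_lit 1) (.e (nat_lit 164166) (nat_lit 152) (.e (nat_lit 7936) (nat_lit 87) .nil)))))))) (.g (nat_lit 4) .nil .nil))) 
(.lf (nat_lit 163808) (.g (nat_lit 3009) (.e (nat_lit 57464) (nat_lit 23) (.e (nat_lit 516130) (nat_lit 3) (.e (nat_lit 221212) (nat_lit 22) (.e (nat_lit 196670) (nat_lit 14) (.e (nat_lit 73746) (nat_lit 3) (.e (nat_lit 516115) (nat_lit 1) (.e (nat_lit 164148) (nat_lit 152) (.e (nat_lit 1186) (nat_lit 87) .nil)))))))) (.g (nat_lit 6) .nil .nil)))) (.nd (nat_lit 5) 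
(.lf (nat_lit 163792) (.g (nat_lit 1971) (.e (nat_lit 57464) (nat_lit 23) (.e (nat_lit 516129) (nat_lit 3) (.e (nat_lit 221215) (nat_lit 23) (.e (nat_lit 204852) (nat_lit 26) (.e (nat_lit 336326) (nat_lit 18) .nil))))) .nil)) 
(.lf (nat_lit 163824) (.g (nat_lit 3527) (.e (nat_lit 57464) (nat_lit 23) (.e (nat_lit 516130) (nat_lit 3) (.e (nat_lit 221215) (nat_lit 23) (.e (nat_lit 204852) (nat_lit 26) (.e (nat_lit 336326) (nat_lit 18) (.e (nat_lit 204830) (nat_lit 18) (.e (nat_lit 57830) (nat_lit 250) (.e (nat_lit 1175) (nat_lit 87) .nil)))))))) (.g (nat_lit 7) .nil .nil))))) (.nd (nat_lit 4) (.nd (nat_lit 5) 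
(.lf (nat_lit 163784) (.g (nat_lit 3072) (.e (nat_lit 57464) (nat_lit 23) (.e (nat_lit 516129) (nat_lit 3) (.e (nat_lit 221210) (nat_lit 22) (.e (nat_lit 196670) (nat_lit 14) (.e (nat_lit 73746) (nat_lit 3) (.e (nat_lit 516119) (nat_lit 1) (.e (nat_lit 164154) (nat_lit 152) (.e (nat_lit 1175) (nat_lit 87) .nil)))))))) (.g (nat_lit 5) .nil .nil))) 
(.lf (nat_lit 163816) (.g (nat_lit 2847) (.e (nat_lit 57464) (nat_lit 23) (.e (nat_lit 516130) (nat_lit 3) (.e (nat_lit 221212) (nat_lit 22) (.e (nat_lit 196670) (nat_lit 14) (.e (nat_lit 73746) (nat_lit 3) (.e (nat_lit 516119) (nat_lit 1) (.e (nat_lit 164154) (nat_lit 152) (.e (nat_lit 1175) (nat_lit 87) .nil)))))))) (.g (nat_lit 6) .nil .nil)))) (.nd (nat_lit 5) 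
(.lf (nat_lit 163800) (.g (nat_lit 3937) (.e (nat_lit 57464) (nat_lit 23) (.e (nat_lit 516130) (nat_lit 3) (.e (nat_lit 221212) (nat_lit 22) (.e (nat_lit 196668) (nat_lit 14) (.e (nat_lit 73747) (nat_lit 3) (.e (nat_lit 516115) (nat_lit 1) (.e (nat_lit 164151) (nat_lit 152) (.e (nat_lit 1186) (nat_lit 87) .nil)))))))) (.g (nat_lit 0) .nil .nil))) 
(.lf (nat_lit 163832) (.g (nat_lit 1427) (.e (nat_lit 57464) (nat_lit 23) (.e (nat_lit 516131) (nat_lit 3) (.e (nat_lit 221212) (nat_lit 22) (.e (nat_lit 196668) (nat_lit 14) .nil)))) .nil))))) (.nd (nat_lit 3) (.nd (nat_lit 4) (.nd (nat_lit 5) 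
(.lf (nat_lit 163780) (.g (nat_lit 3079) (.e (nat_lit 57464) (nat_lit 23) (.e (nat_lit 516129) (nat_lit 3) (.e (nat_lit 221210) (nat_lit 22) (.e (nat_lit 196670) (nat_lit 14) (.e (nat_lit 73746) (nat_lit 3) (.e (nat_lit 516119) (nat_lit 1) (.e (nat_lit 164147) (nat_lit 152) (.e (nat_lit 1186) (nat_lit 87) .nil)))))))) (.g (nat_lit 5) .nil .nil))) 
(.lf (nat_lit 163812) (.g (nat_lit 3239) (.e (nat_lit 57464) (nat_lit 23) (.e (nat_lit 516130) (nat_lit 3) (.e (nat_lit 221212) (nat_lit 22) (.e (nat_lit 196670) (nat_lit 14) (.e (nat_lit 73746) (nat_lit 3) (.e (nat_lit 516117) (nat_lit 1) (.e (nat_lit 164159) (nat_lit 152) (.e (nat_lit 7936) (nat_lit 87) .nil)))))))) (.g (nat_lit 7) .nil .nil)))) (.nd (nat_lit 5) 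
(.lf (nat_lit 163796) (.g (nat_lit 2849) (.e (nat_lit 57464) (nat_lit 23) (.e (nat_lit 516130) (nat_lit 3) (.e (nat_lit 221211) (nat_lit 22) (.e (nat_lit 196666) (nat_lit 13) (.e (nat_lit 65571) (nat_lit 3) (.e (nat_lit 98334) (nat_lit 18) (.e (nat_lit 164159) (nat_lit 152) (.e (nat_lit 7936) (nat_lit 87) .nil)))))))) (.g (nat_lit 6) .nil .nil))) 
(.lf (nat_lit 163828) (.g (nat_lit 1893) (.e (nat_lit 57464) (nat_lit 23) (.e (nat_lit 516130) (nat_lit 3) (.e (nat_lit 221215) (nat_lit 23) (.e (nat_lit 204863) (nat_lit 27) (.e (nat_lit 344118) (nat_lit 21) .nil))))) .nil)))) (.nd (nat_lit 4) (.nd (nat_lit 5) 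
(.lf (nat_lit 163788) (.g (nat_lit 2328) (.e (nat_lit 57464) (nat_lit 23) (.e (nat_lit 516129) (nat_lit 3) (.e (nat_lit 221210) (nat_lit 22) (.e (nat_lit 196670) (nat_lit 14) (.e (nat_lit 73746) (nat_lit 3) (.e (nat_lit 516120) (nat_lit 1) (.e (nat_lit 164166) (nat_lit 152) (.e (nat_lit 7936) (nat_lit 87) .nil)))))))) (.g (nat_lit 4) .nil .nil))) 
(.lf (nat_lit 163820) (.g (nat_lit 1784) (.e (nat_lit 57464) (nat_lit 23) (.e (nat_lit 516130) (nat_lit 3) (.e (nat_lit 221214) (nat_lit 23) (.e (nat_lit 204852) (nat_lit 26) (.e (nat_lit 336324) (nat_lit 18) (.e (nat_lit 204830) (nat_lit 18) (.e (nat_lit 57830) (nat_lit 250) (.e (nat_lit 1175) (nat_lit 87) .nil)))))))) (.g (nat_lit 4) .nil .nil)))) (.nd (nat_lit 5) 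
(.lf (nat_lit 163804) (.g (nat_lit 2470) (.e (nat_lit 57464) (nat_lit 23) (.e (nat_lit 516130) (nat_lit 3) (.e (nat_lit 221212) (nat_lit 22) (.e (nat_lit 196668) (nat_lit 14) (.e (nat_lit 73747) (nat_lit 3) (.e (nat_lit 516117) (nat_lit 1) (.e (nat_lit 164147) (nat_lit 152) (.e (nat_lit 1172) (nat_lit 87) .nil)))))))) (.g (nat_lit 6) .nil .nil))) 
(.lf (nat_lit 163836) (.g (nat_lit 2341) (.e (nat_lit 57464) (nat_lit 23) (.e (nat_lit 516131) (nat_lit 3) (.e (nat_lit 221212) (nat_lit 22) (.e (nat_lit 196668) (nat_lit 14) (.e (nat_lit 73747) (nat_lit 3) (.e (nat_lit 516115) (nat_lit 1) (.e (nat_lit 164156) (nat_lit 152) (.e (nat_lit 1184) (nat_lit 87) .nil)))))))) (.g (nat_lit 4) .nil .nil))))))) 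
(.nd (nat_lit 2) (.nd (nat_lit 3) (.nd (nat_lit 4) (.nd (nat_lit 5) 
(.lf (nat_lit 163778) (.g (nat_lit 3237) (.e (nat_lit 57464) (nat_lit 23) (.e (nat_lit 516129) (nat_lit 3) (.e (nat_lit 221210) (nat_lit 22) (.e (nat_lit 196670) (nat_lit 14) (.e (nat_lit 73746) (nat_lit 3) (.e (nat_lit 516119) (nat_lit 1) (.e (nat_lit 164147) (nat_lit 152) (.e (nat_lit 1172) (nat_lit 87) .nil)))))))) (.g (nat_lit 5) .nil .nil))) 
(.lf (nat_lit 163810) (.g (nat_lit 3478) (.e (nat_lit 57464) (nat_lit 23) (.e (nat_lit 516130) (nat_lit 3) (.e (nat_lit 221212) (nat_lit 22) (.e (nat_lit 196670) (nat_lit 14) (.e (nat_lit 73746) (nat_lit 3) (.e (nat_lit 516115) (nat_lit 1) (.e (nat_lit 164161) (nat_lit 152) (.e (nat_lit 7936) (nat_lit 87) .nil)))))))) (.g (nat_lit 7) .nil .nil)))) (.nd (nat_lit 5) 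
(.lf (nat_lit 163794) (.g (nat_lit 2044) (.e (nat_lit 57464) (nat_lit 23) (.e (nat_lit 516130) (nat_lit 3) (.e (nat_lit 221211) (nat_lit 22) (.e (nat_lit 196666) (nat_lit 13) (.e (nat_lit 65569) (nat_lit 3) (.e (nat_lit 98321) (nat_lit 17) (.e (nat_lit 7936) (nat_lit 216) (.e (nat_lit 688168) (nat_lit 15) .nil)))))))) (.g (nat_lit 4) .nil .nil))) 
(.lf (nat_lit 163826) (.g (nat_lit 2198) (.e (nat_lit 57464) (nat_lit 23) (.e (nat_lit 516130) (nat_lit 3) (.e (nat_lit 221215) (nat_lit 23) (.e (nat_lit 204861) (nat_lit 26) (.e (nat_lit 336012) (nat_lit 2) (.e (nat_lit 90181) (nat_lit 16) (.e (nat_lit 229453) (nat_lit 44) (.e (nat_lit 688165) (nat_lit 15) .nil)))))))) (.g (nat_lit 4) .nil .nil))))) (.nd (nat_lit 4) (.nd (nat_lit 5) 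
(.lf (nat_lit 163786) (.g (nat_lit 2465) (.e (nat_lit 57464) (nat_lit 23) (.e (nat_lit 516129) (nat_lit 3) (.e (nat_lit 221210) (nat_lit 22) (.e (nat_lit 196670) (nat_lit 14) (.e (nat_lit 73746) (nat_lit 3) (.e (nat_lit 516120) (nat_lit 1) (.e (nat_lit 164147) (nat_lit 152) (.e (nat_lit 1175) (nat_lit 87) .nil)))))))) (.g (nat_lit 4) .nil .nil))) 
(.lf (nat_lit 163818) (.g (nat_lit 3669) (.e (nat_lit 57464) (nat_lit 23) (.e (nat_lit 516130) (nat_lit 3) (.e (nat_lit 221212) (nat_lit 22) (.e (nat_lit 196670) (nat_lit 14) (.e (nat_lit 73746) (nat_lit 3) (.e (nat_lit 516120) (nat_lit 1) (.e (nat_lit 164161) (nat_lit 152) (.e (nat_lit 7936) (nat_lit 87) .nil)))))))) (.g (nat_lit 6) .nil .nil)))) (.nd (nat_lit 5) 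
(.lf (nat_lit 163802) (.g (nat_lit 3219) (.e (nat_lit 57464) (nat_lit 23) (.e (nat_lit 516130) (nat_lit 3) (.e (nat_lit 221212) (nat_lit 22) (.e (nat_lit 196668) (nat_lit 14) (.e (nat_lit 73747) (nat_lit 3) (.e (nat_lit 516115) (nat_lit 1) (.e (nat_lit 164156) (nat_lit 152) (.e (nat_lit 1184) (nat_lit 87) .nil)))))))) (.g (nat_lit 7) .nil .nil))) 
(.lf (nat_lit 163834) (.g (nat_lit 2133) (.e (nat_lit 57464) (nat_lit 23) (.e (nat_lit 516131) (nat_lit 3) (.e (nat_lit 221212) (nat_lit 22) (.e (nat_lit 196668) (nat_lit 14) (.e (nat_lit 73747) (nat_lit 3) (.e (nat_lit 516115) (nat_lit 1) (.e (nat_lit 164148) (nat_lit 152) (.e (nat_lit 1186) (nat_lit 87) .nil)))))))) (.g (nat_lit 4) .nil .nil)))))) 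
(.nd (nat_lit 3) (.nd (nat_lit 4) (.nd (nat_lit 5) 
(.lf (nat_lit 163782) (.g (nat_lit 4070) (.e (nat_lit 57464) (nat_lit 23) (.e (nat_lit 516129) (nat_lit 3) (.e (nat_lit 221210) (nat_lit 22) (.e (nat_lit 196670) (nat_lit 14) (.e (nat_lit 73746) (nat_lit 3) (.e (nat_lit 516119) (nat_lit 1) (.e (nat_lit 164150) (nat_lit 152) (.e (nat_lit 1186) (nat_lit 87) .nil)))))))) (.g (nat_lit 6) .nil .nil))) 
(.lf (nat_lit 163814) (.g (nat_lit 2875) (.e (nat_lit 57464) (nat_lit 23) (.e (nat_lit 516130) (nat_lit 3) (.e (nat_lit 221212) (nat_lit 22) (.e (nat_lit 196670) (nat_lit 14) (.e (nat_lit 73746) (nat_lit 3) (.e (nat_lit 516119) (nat_lit 1) (.e (nat_lit 164147) (nat_lit 152) (.e (nat_lit 1172) (nat_lit 87) .nil)))))))) (.g (nat_lit 6) .nil .nil)))) (.nd (nat_lit 5) 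
(.lf (nat_lit 163798) (.g (nat_lit 2958) (.e (nat_lit 57464) (nat_lit 23) (.e (nat_lit 516130) (nat_lit 3) (.e (nat_lit 221212) (nat_lit 22) (.e (nat_lit 196668) (nat_lit 14) (.e (nat_lit 73747) (nat_lit 3) (.e (nat_lit 516115) (nat_lit 1) (.e (nat_lit 164148) (nat_lit 152) (.e (nat_lit 1186) (nat_lit 87) .nil)))))))) (.g (nat_lit 6) .nil .nil))) 
(.lf (nat_lit 163830) (.g (nat_lit 2855) (.e (nat_lit 57464) (nat_lit 23) (.e (nat_lit 516130) (nat_lit 3) (.e (nat_lit 221215) (nat_lit 23) (.e (nat_lit 204880) (nat_lit 32) (.e (nat_lit 385066) (nat_lit 26) (.e (nat_lit 532504) (nat_lit 1) (.e (nat_lit 57830) (nat_lit 250) (.e (nat_lit 1175) (nat_lit 87) .nil)))))))) (.g (nat_lit 6) .nil .nil))))) (.nd (nat_lit 4) (.nd (nat_lit 5) 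
(.lf (nat_lit 163790) (.g (nat_lit 2142) (.e (nat_lit 57464) (nat_lit 23) (.e (nat_lit 516129) (nat_lit 3) (.e (nat_lit 221214) (nat_lit 23) (.e (nat_lit 204852) (nat_lit 26) (.e (nat_lit 336326) (nat_lit 18) (.e (nat_lit 204831) (nat_lit 18) (.e (nat_lit 57830) (nat_lit 250) (.e (nat_lit 1175) (nat_lit 87) .nil)))))))) (.g (nat_lit 4) .nil .nil))) 
(.lf (nat_lit 163822) (.g (nat_lit 2922) (.e (nat_lit 57464) (nat_lit 23) (.e (nat_lit 516130) (nat_lit 3) (.e (nat_lit 221214) (nat_lit 23) (.e (nat_lit 204852) (nat_lit 26) (.e (nat_lit 336326) (nat_lit 18) (.e (nat_lit 204831) (nat_lit 18) (.e (nat_lit 57830) (nat_lit 250) (.e (nat_lit 1175) (nat_lit 87) .nil)))))))) (.g (nat_lit 6) .nil .nil)))) (.nd (nat_lit 5) 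
(.lf (nat_lit 163806) (.g (nat_lit 2659) (.e (nat_lit 57464) (nat_lit 23) (.e (nat_lit 516130) (nat_lit 3) (.e (nat_lit 221212) (nat_lit 22) (.e (nat_lit 196668) (nat_lit 14) (.e (nat_lit 73747) (nat_lit 3) (.e (nat_lit 516117) (nat_lit 1) (.e (nat_lit 164159) (nat_lit 152) (.e (nat_lit 7936) (nat_lit 87) .nil)))))))) (.g (nat_lit 6) .nil .nil))) 
(.lf (nat_lit 163838) (.g (nat_lit 3107) (.e (nat_lit 57464) (nat_lit 23) (.e (nat_lit 516131) (nat_lit 3) (.e (nat_lit 221212) (nat_lit 22) (.e (nat_lit 196668) (nat_lit 14) (.e (nat_lit 73747) (nat_lit 3) (.e (nat_lit 516119) (nat_lit 1) (.e (nat_lit 164150) (nat_lit 152) (.e (nat_lit 1186) (nat_lit 87) .nil)))))))) (.g (nat_lit 5) .nil .nil)))))))) 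
(.nd (nat_lit 1) (.nd (nat_lit 2) (.nd (nat_lit 3) (.nd (nat_lit 4) (.nd (nat_lit 5) 
(.lf (nat_lit 163777) (.g (nat_lit 2946) (.e (nat_lit 57464) (nat_lit 23) (.e (nat_lit 516129) (nat_lit 3) (.e (nat_lit 221210) (nat_lit 22) (.e (nat_lit 196670) (nat_lit 14) (.e (nat_lit 73746) (nat_lit 3) (.e (nat_lit 516117) (nat_lit 1) (.e (nat_lit 164170) (nat_lit 152) (.e (nat_lit 7936) (nat_lit 87) .nil)))))))) (.g (nat_lit 5) .nil .nil))) 
(.lf (nat_lit 163809) (.g (nat_lit 3101) (.e (nat_lit 57464) (nat_lit 23) (.e (nat_lit 516130) (nat_lit 3) (.e (nat_lit 221212) (nat_lit 22) (.e (nat_lit 196670) (nat_lit 14) (.e (nat_lit 73746) (nat_lit 3) (.e (nat_lit 516115) (nat_lit 1) (.e (nat_lit 164153) (nat_lit 152) (.e (nat_lit 7936) (nat_lit 87) .nil)))))))) (.g (nat_lit 7) .nil .nil)))) (.nd (nat_lit 5) 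
(.lf (nat_lit 163793) (.g (nat_lit 518) (.e (nat_lit 57464) (nat_lit 23) (.e (nat_lit 516129) (nat_lit 3) (.e (nat_lit 221217) (nat_lit 24) .nil))) .nil)) 
(.lf (nat_lit 163825) (.g (nat_lit 3326) (.e (nat_lit 57464) (nat_lit 23) (.e (nat_lit 516130) (nat_lit 3) (.e (nat_lit 221215) (nat_lit 23) (.e (nat_lit 204852) (nat_lit 26) (.e (nat_lit 336326) (nat_lit 18) (.e (nat_lit 204831) (nat_lit 18) (.e (nat_lit 57830) (nat_lit 250) (.e (nat_lit 1175) (nat_lit 87) .nil)))))))) (.g (nat_lit 7) .nil .nil))))) (.nd (nat_lit 4) (.nd (nat_lit 5) 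
(.lf (nat_lit 163785) (.g (nat_lit 2388) (.e (nat_lit 57464) (nat_lit 23) (.e (nat_lit 516129) (nat_lit 3) (.e (nat_lit 221210) (nat_lit 22) (.e (nat_lit 196670) (nat_lit 14) (.e (nat_lit 73746) (nat_lit 3) (.e (nat_lit 516119) (nat_lit 1) (.e (nat_lit 164155) (nat_lit 152) (.e (nat_lit 1175) (nat_lit 87) .nil)))))))) (.g (nat_lit 4) .nil .nil))) 
(.lf (nat_lit 163817) (.g (nat_lit 3128) (.e (nat_lit 57464) (nat_lit 23) (.e (nat_lit 516130) (nat_lit 3) (.e (nat_lit 221212) (nat_lit 22) (.e (nat_lit 196670) (nat_lit 14) (.e (nat_lit 73746) (nat_lit 3) (.e (nat_lit 516120) (nat_lit 1) (.e (nat_lit 164159) (nat_lit 152) (.e (nat_lit 7936) (nat_lit 87) .nil)))))))) (.g (nat_lit 6) .nil .nil)))) (.nd (nat_lit 5) 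
(.lf (nat_lit 163801) (.g (nat_lit 2885) (.e (nat_lit 57464) (nat_lit 23) (.e (nat_lit 516130) (nat_lit 3) (.e (nat_lit 221212) (nat_lit 22) (.e (nat_lit 196668) (nat_lit 14) (.e (nat_lit 73747) (nat_lit 3) (.e (nat_lit 516115) (nat_lit 1) (.e (nat_lit 164153) (nat_lit 152) (.e (nat_lit 7936) (nat_lit 87) .nil)))))))) (.g (nat_lit 7) .nil .nil))) 
(.lf (nat_lit 163833) (.g (nat_lit 2035) (.e (nat_lit 57464) (nat_lit 23) (.e (nat_lit 516131) (nat_lit 3) (.e (nat_lit 221212) (nat_lit 22) (.e (nat_lit 196668) (nat_lit 14) (.e (nat_lit 73747) (nat_lit 3) .nil))))) .nil))))) (.nd (nat_lit 3) (.nd (nat_lit 4) (.nd (nat_lit 5) 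
(.lf (nat_lit 163781) (.g (nat_lit 3640) (.e (nat_lit 57464) (nat_lit 23) (.e (nat_lit 516129) (nat_lit 3) (.e (nat_lit 221210) (nat_lit 22) (.e (nat_lit 196670) (nat_lit 14) (.e (nat_lit 73746) (nat_lit 3) (.e (nat_lit 516119) (nat_lit 1) (.e (nat_lit 164149) (nat_lit 152) (.e (nat_lit 1186) (nat_lit 87) .nil)))))))) (.g (nat_lit 6) .nil .nil))) 
(.lf (nat_lit 163813) (.g (nat_lit 3495) (.e (nat_lit 57464) (nat_lit 23) (.e (nat_lit 516130) (nat_lit 3) (.e (nat_lit 221212) (nat_lit 22) (.e (nat_lit 196670) (nat_lit 14) (.e (nat_lit 73746) (nat_lit 3) (.e (nat_lit 516117) (nat_lit 1) (.e (nat_lit 164161) (nat_lit 152) (.e (nat_lit 7936) (nat_lit 87) .nil)))))))) (.g (nat_lit 6) .nil .nil)))) (.nd (nat_lit 5) 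
(.lf (nat_lit 163797) (.g (nat_lit 1121) (.e (nat_lit 57464) (nat_lit 23) (.e (nat_lit 516130) (nat_lit 3) (.e (nat_lit 221212) (nat_lit 22) (.e (nat_lit 196665) (nat_lit 13) (.e (nat_lit 73472) (nat_lit 18) (.e (nat_lit 204830) (nat_lit 18) (.e (nat_lit 57830) (nat_lit 250) (.e (nat_lit 1175) (nat_lit 87) .nil)))))))) (.g (nat_lit 4) .nil .nil))) 
(.lf (nat_lit 163829) (.g (nat_lit 2727) (.e (nat_lit 57464) (nat_lit 23) (.e (nat_lit 516130) (nat_lit 3) (.e (nat_lit 221215) (nat_lit 23) (.e (nat_lit 204880) (nat_lit 32) (.e (nat_lit 385066) (nat_lit 26) (.e (nat_lit 532501) (nat_lit 1) (.e (nat_lit 57830) (nat_lit 250) (.e (nat_lit 1175) (nat_lit 87) .nil)))))))) (.g (nat_lit 5) .nil .nil))))) (.nd (nat_lit 4) (.nd (nat_lit 5) 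
(.lf (nat_lit 163789) (.g (nat_lit 2361) (.e (nat_lit 57464) (nat_lit 23) (.e (nat_lit 516129) (nat_lit 3) (.e (nat_lit 221214) (nat_lit 23) (.e (nat_lit 204852) (nat_lit 26) (.e (nat_lit 336326) (nat_lit 18) (.e (nat_lit 204830) (nat_lit 18) (.e (nat_lit 57830) (nat_lit 250) (.e (nat_lit 1175) (nat_lit 87) .nil)))))))) (.g (nat_lit 4) .nil .nil))) 
(.lf (nat_lit 163821) (.g (nat_lit 3141) (.e (nat_lit 57464) (nat_lit 23) (.e (nat_lit 516130) (nat_lit 3) (.e (nat_lit 221214) (nat_lit 23) (.e (nat_lit 204852) (nat_lit 26) (.e (nat_lit 336326) (nat_lit 18) (.e (nat_lit 204830) (nat_lit 18) (.e (nat_lit 57830) (nat_lit 250) (.e (nat_lit 1175) (nat_lit 87) .nil)))))))) (.g (nat_lit 6) .nil .nil)))) (.nd (nat_lit 5) 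
(.lf (nat_lit 163805) (.g (nat_lit 2505) (.e (nat_lit 57464) (nat_lit 23) (.e (nat_lit 516130) (nat_lit 3) (.e (nat_lit 221212) (nat_lit 22) (.e (nat_lit 196668) (nat_lit 14) (.e (nat_lit 73747) (nat_lit 3) (.e (nat_lit 516117) (nat_lit 1) (.e (nat_lit 164147) (nat_lit 152) (.e (nat_lit 1186) (nat_lit 87) .nil)))))))) (.g (nat_lit 6) .nil .nil))) 
(.lf (nat_lit 163837) (.g (nat_lit 2903) (.e (nat_lit 57464) (nat_lit 23) (.e (nat_lit 516131) (nat_lit 3) (.e (nat_lit 221212) (nat_lit 22) (.e (nat_lit 196668) (nat_lit 14) (.e (nat_lit 73747) (nat_lit 3) (.e (nat_lit 516119) (nat_lit 1) (.e (nat_lit 164149) (nat_lit 152) (.e (nat_lit 1186) (nat_lit 87) .nil)))))))) (.g (nat_lit 5) .nil .nil))))))) 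
(.nd (nat_lit 2) (.nd (nat_lit 3) (.nd (nat_lit 4) (.nd (nat_lit 5) 
(.lf (nat_lit 163779) (.g (nat_lit 2353) (.e (nat_lit 57464) (nat_lit 23) (.e (nat_lit 516129) (nat_lit 3) (.e (nat_lit 221210) (nat_lit 22) (.e (nat_lit 196670) (nat_lit 14) (.e (nat_lit 73746) (nat_lit 3) (.e (nat_lit 516119) (nat_lit 1) (.e (nat_lit 164147) (nat_lit 152) (.e (nat_lit 1175) (nat_lit 87) .nil)))))))) (.g (nat_lit 4) .nil .nil))) 
(.lf (nat_lit 163811) (.g (nat_lit 1156) (.e (nat_lit 57464) (nat_lit 23) (.e (nat_lit 516130) (nat_lit 3) (.e (nat_lit 221212) (nat_lit 22) (.e (nat_lit 196670) (nat_lit 14) (.e (nat_lit 73746) (nat_lit 3) (.e (nat_lit 516115) (nat_lit 1) (.e (nat_lit 171776) (nat_lit 152) (.e (nat_lit 1175) (nat_lit 87) .nil)))))))) (.g (nat_lit 4) .nil .nil)))) (.nd (nat_lit 5) 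
(.lf (nat_lit 163795) (.g (nat_lit 3578) (.e (nat_lit 57464) (nat_lit 23) (.e (nat_lit 516130) (nat_lit 3) (.e (nat_lit 221211) (nat_lit 22) (.e (nat_lit 196666) (nat_lit 13) (.e (nat_lit 65569) (nat_lit 3) (.e (nat_lit 98334) (nat_lit 18) (.e (nat_lit 164159) (nat_lit 152) (.e (nat_lit 7936) (nat_lit 87) .nil)))))))) (.g (nat_lit 7) .nil .nil))) 
(.lf (nat_lit 163827) (.g (nat_lit 2267) (.e (nat_lit 57464) (nat_lit 23) (.e (nat_lit 516130) (nat_lit 3) (.e (nat_lit 221215) (nat_lit 23) (.e (nat_lit 204861) (nat_lit 26) (.e (nat_lit 336026) (nat_lit 3) (.e (nat_lit 98335) (nat_lit 18) (.e (nat_lit 164150) (nat_lit 152) (.e (nat_lit 1186) (nat_lit 87) .nil)))))))) (.g (nat_lit 4) .nil .nil))))) (.nd (nat_lit 4) (.nd (nat_lit 5) 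
(.lf (nat_lit 163787) (.g (nat_lit 2308) (.e (nat_lit 57464) (nat_lit 23) (.e (nat_lit 516129) (nat_lit 3) (.e (nat_lit 221210) (nat_lit 22) (.e (nat_lit 196670) (nat_lit 14) (.e (nat_lit 73746) (nat_lit 3) (.e (nat_lit 516120) (nat_lit 1) (.e (nat_lit 164158) (nat_lit 152) (.e (nat_lit 7936) (nat_lit 87) .nil)))))))) (.g (nat_lit 4) .nil .nil))) 
(.lf (nat_lit 163819) (.g (nat_lit 2092) (.e (nat_lit 57464) (nat_lit 23) (.e (nat_lit 516130) (nat_lit 3) (.e (nat_lit 221212) (nat_lit 22) (.e (nat_lit 196670) (nat_lit 14) (.e (nat_lit 73746) (nat_lit 3) (.e (nat_lit 516120) (nat_lit 1) (.e (nat_lit 164166) (nat_lit 152) (.e (nat_lit 7936) (nat_lit 87) .nil)))))))) (.g (nat_lit 5) .nil .nil)))) (.nd (nat_lit 5) 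
(.lf (nat_lit 163803) (.g (nat_lit 3014) (.e (nat_lit 57464) (nat_lit 23) (.e (nat_lit 516130) (nat_lit 3) (.e (nat_lit 221212) (nat_lit 22) (.e (nat_lit 196668) (nat_lit 14) (.e (nat_lit 73747) (nat_lit 3) (.e (nat_lit 516115) (nat_lit 1) (.e (nat_lit 164161) (nat_lit 152) (.e (nat_lit 7936) (nat_lit 87) .nil)))))))) (.g (nat_lit 6) .nil .nil))) 
(.lf (nat_lit 163835) (.g (nat_lit 2178) (.e (nat_lit 57464) (nat_lit 23) (.e (nat_lit 516131) (nat_lit 3) (.e (nat_lit 221212) (nat_lit 22) (.e (nat_lit 196668) (nat_lit 14) (.e (nat_lit 73747) (nat_lit 3) (.e (nat_lit 516115) (nat_lit 1) (.e (nat_lit 164153) (nat_lit 152) (.e (nat_lit 1175) (nat_lit 87) .nil)))))))) (.g (nat_lit 4) .nil .nil)))))) 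
(.nd (nat_lit 3) (.nd (nat_lit 4) (.nd (nat_lit 5) 
(.lf (nat_lit 163783) (.g (nat_lit 2346) (.e (nat_lit 57464) (nat_lit 23) (.e (nat_lit 516129) (nat_lit 3) (.e (nat_lit 221210) (nat_lit 22) (.e (nat_lit 196670) (nat_lit 14) (.e (nat_lit 73746) (nat_lit 3) (.e (nat_lit 516119) (nat_lit 1) (.e (nat_lit 164153) (nat_lit 152) (.e (nat_lit 1175) (nat_lit 87) .nil)))))))) (.g (nat_lit 4) .nil .nil))) 
(.lf (nat_lit 163815) (.g (nat_lit 2898) (.e (nat_lit 57464) (nat_lit 23) (.e (nat_lit 516130) (nat_lit 3) (.e (nat_lit 221212) (nat_lit 22) (.e (nat_lit 196670) (nat_lit 14) (.e (nat_lit 73746) (nat_lit 3) (.e (nat_lit 516119) (nat_lit 1) (.e (nat_lit 164147) (nat_lit 152) (.e (nat_lit 1186) (nat_lit 87) .nil)))))))) (.g (nat_lit 6) .nil .nil)))) (.nd (nat_lit 5) 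
(.lf (nat_lit 163799) (.g (nat_lit 2973) (.e (nat_lit 57464) (nat_lit 23) (.e (nat_lit 516130) (nat_lit 3) (.e (nat_lit 221212) (nat_lit 22) (.e (nat_lit 196668) (nat_lit 14) (.e (nat_lit 73747) (nat_lit 3) (.e (nat_lit 516115) (nat_lit 1) (.e (nat_lit 164151) (nat_lit 152) (.e (nat_lit 1185) (nat_lit 87) .nil)))))))) (.g (nat_lit 6) .nil .nil))) 
(.lf (nat_lit 163831) (.g (nat_lit 187) (.e (nat_lit 57464) (nat_lit 23) (.e (nat_lit 516130) (nat_lit 3) (.e (nat_lit 221219) (nat_lit 24) .nil))) .nil)))) (.nd (nat_lit 4) (.nd (nat_lit 5) 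
(.lf (nat_lit 163791) (.g (nat_lit 2303) (.e (nat_lit 57464) (nat_lit 23) (.e (nat_lit 516129) (nat_lit 3) (.e (nat_lit 221214) (nat_lit 23) (.e (nat_lit 204880) (nat_lit 32) (.e (nat_lit 385066) (nat_lit 26) .nil))))) .nil)) 
(.lf (nat_lit 163823) (.g (nat_lit 2585) (.e (nat_lit 57464) (nat_lit 23) (.e (nat_lit 516130) (nat_lit 3) (.e (nat_lit 221214) (nat_lit 23) (.e (nat_lit 204880) (nat_lit 32) (.e (nat_lit 385066) (nat_lit 26) (.e (nat_lit 532504) (nat_lit 1) (.e (nat_lit 57830) (nat_lit 250) (.e (nat_lit 1175) (nat_lit 87) .nil)))))))) (.g (nat_lit 5) .nil .nil)))) (.nd (nat_lit 5) 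
(.lf (nat_lit 163807) (.g (nat_lit 2147) (.e (nat_lit 57464) (nat_lit 23) (.e (nat_lit 516130) (nat_lit 3) (.e (nat_lit 221212) (nat_lit 22) (.e (nat_lit 196668) (nat_lit 14) (.e (nat_lit 81664) (nat_lit 5) (.e (nat_lit 532490) (nat_lit 0) (.e (nat_lit 1040) (nat_lit 81) (.e (nat_lit 7147) (nat_lit 382) (.e (nat_lit 1185) (nat_lit 87) .nil))))))))) (.g (nat_lit 6) .nil .nil))) 
(.lf (nat_lit 163839) (.g (nat_lit 1292) (.e (nat_lit 57464) (nat_lit 23) (.e (nat_lit 516131) (nat_lit 3) (.e (nat_lit 221212) (nat_lit 22) (.e (nat_lit 196669) (nat_lit 14) .nil)))) .nil))))))))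

noncomputable def tv2197 : DT := (.nd (nat_lit 0) (.nd (nat_lit 1) (.nd (nat_lit 2) (.nd (nat_lit 3) (.nd (nat_lit 4) (.nd (nat_lit 5) 
(.lf (nat_lit 163840) (.g (nat_lit 1769) (.e (nat_lit 57464) (nat_lit 23) (.e (nat_lit 516131) (nat_lit 3) (.e (nat_lit 221212) (nat_lit 22) (.e (nat_lit 196670) (nat_lit 14) (.e (nat_lit 73746) (nat_lit 3) .nil))))) .nil)) 
(.lf (nat_lit 163872) (.g (nat_lit 887) (.e (nat_lit 57464) (nat_lit 23) (.e (nat_lit 516139) (nat_lit 7) (.e (nat_lit 409604) (nat_lit 0) .nil))) .nil))) (.nd (nat_lit 5) 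
(.lf (nat_lit 163856) (.g (nat_lit 3038) (.e (nat_lit 57464) (nat_lit 23) (.e (nat_lit 516139) (nat_lit 7) (.e (nat_lit 409602) (nat_lit 0) (.e (nat_lit 5293) (nat_lit 298) (.e (nat_lit 1250) (nat_lit 92) (.e (nat_lit 98350) (nat_lit 24) (.e (nat_lit 409603) (nat_lit 0) (.e (nat_lit 5394) (nat_lit 301) .nil)))))))) (.g (nat_lit 4) .nil .nil))) 
(.lf (nat_lit 163888) (.g (nat_lit 2387) (.e (nat_lit 57464) (nat_lit 23) (.e (nat_lit 516139) (nat_lit 7) (.e (nat_lit 409642) (nat_lit 17) (.e (nat_lit 294931) (nat_lit 3) (.e (nat_lit 98350) (nat_lit 24) (.e (nat_lit 409616) (nat_lit 10) (.e (nat_lit 7936) (nat_lit 301) .nil))))))) (.g (nat_lit 4) .nil .nil))))) (.nd (nat_lit 4) (.nd (nat_lit 5) 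
(.lf (nat_lit 163848) (.g (nat_lit 2688) (.e (nat_lit 57464) (nat_lit 23) (.e (nat_lit 516139) (nat_lit 7) (.e (nat_lit 409602) (nat_lit 0) (.e (nat_lit 5270) (nat_lit 298) (.e (nat_lit 1256) (nat_lit 92) .nil))))) .nil)) 
(.lf (nat_lit 163880) (.g (nat_lit 2396) (.e (nat_lit 57464) (nat_lit 23) (.e (nat_lit 516139) (nat_lit 7) (.e (nat_lit 417536) (nat_lit 6) (.e (nat_lit 286735) (nat_lit 3) (.e (nat_lit 98350) (nat_lit 24) (.e (nat_lit 409604) (nat_lit 0) (.e (nat_lit 5394) (nat_lit 301) .nil))))))) (.g (nat_lit 5) .nil .nil)))) (.nd (nat_lit 5) 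
(.lf (nat_lit 163864) (.g (nat_lit 3545) (.e (nat_lit 57464) (nat_lit 23) (.e (nat_lit 516139) (nat_lit 7) (.e (nat_lit 409602) (nat_lit 0) (.e (nat_lit 5394) (nat_lit 301) (.e (nat_lit 57464) (nat_lit 23) (.e (nat_lit 516142) (nat_lit 8) (.e (nat_lit 417793) (nat_lit 0) (.e (nat_lit 5395) (nat_lit 301) .nil)))))))) (.g (nat_lit 6) .nil .nil))) 
(.lf (nat_lit 163896) (.g (nat_lit 1530) (.e (nat_lit 57464) (nat_lit 23) (.e (nat_lit 516139) (nat_lit 7) (.e (nat_lit 409646) (nat_lit 18) (.e (nat_lit 303119) (nat_lit 3) .nil)))) .nil))))) (.nd (nat_lit 3) (.nd (nat_lit 4) (.nd (nat_lit 5) 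
(.lf (nat_lit 163844) (.g (nat_lit 948) (.e (nat_lit 57464) (nat_lit 23) (.e (nat_lit 516138) (nat_lit 7) (.e (nat_lit 409605) (nat_lit 0) .nil))) .nil)) 
(.lf (nat_lit 163876) (.g (nat_lit 1398) (.e (nat_lit 57464) (nat_lit 23) (.e (nat_lit 516139) (nat_lit 7) (.e (nat_lit 417536) (nat_lit 6) (.e (nat_lit 286727) (nat_lit 0) (.e (nat_lit 1799) (nat_lit 119) (.e (nat_lit 516172) (nat_lit 13) (.e (nat_lit 466688) (nat_lit 3) .nil))))))) (.g (nat_lit 4) .nil .nil)))) (.nd (nat_lit 5) 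
(.lf (nat_lit 163860) (.g (nat_lit 1970) (.e (nat_lit 57464) (nat_lit 23) (.e (nat_lit 516139) (nat_lit 7) (.e (nat_lit 409602) (nat_lit 0) (.e (nat_lit 5389) (nat_lit 301) .nil)))) .nil)) 
(.lf (nat_lit 163892) (.g (nat_lit 2849) (.e (nat_lit 57464) (nat_lit 23) (.e (nat_lit 516139) (nat_lit 7) (.e (nat_lit 409645) (nat_lit 18) (.e (nat_lit 303119) (nat_lit 3) (.e (nat_lit 204819) (nat_lit 17) .nil))))) .nil)))) (.nd (nat_lit 4) (.nd (nat_lit 5) 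
(.lf (nat_lit 163852) (.g (nat_lit 3682) (.e (nat_lit 57464) (nat_lit 23) (.e (nat_lit 516139) (nat_lit 7) (.e (nat_lit 409602) (nat_lit 0) (.e (nat_lit 5293) (nat_lit 298) (.e (nat_lit 1232) (nat_lit 91) (.e (nat_lit 90173) (nat_lit 14) (.e (nat_lit 188160) (nat_lit 35) .nil))))))) (.g (nat_lit 5) .nil .nil))) 
(.lf (nat_lit 163884) (.g (nat_lit 858) (.e (nat_lit 57464) (nat_lit 23) (.e (nat_lit 516139) (nat_lit 7) (.e (nat_lit 409628) (nat_lit 11) .nil))) .nil))) (.nd (nat_lit 5) 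
(.lf (nat_lit 163868) (.g (nat_lit 2715) (.e (nat_lit 57464) (nat_lit 23) (.e (nat_lit 516139) (nat_lit 7) (.e (nat_lit 409602) (nat_lit 0) (.e (nat_lit 5394) (nat_lit 301) (.e (nat_lit 57464) (nat_lit 23) (.e (nat_lit 516170) (nat_lit 13) (.e (nat_lit 466688) (nat_lit 3) .nil))))))) (.g (nat_lit 4) .nil .nil))) 
(.lf (nat_lit 163900) (.g (nat_lit 2628) (.e (nat_lit 57464) (nat_lit 23) (.e (nat_lit 516139) (nat_lit 7) (.e (nat_lit 409646) (nat_lit 18) (.e (nat_lit 303119) (nat_lit 3) (.e (nat_lit 204864) (nat_lit 27) .nil))))) .nil)))))) (.nd (nat_lit 2) (.nd (nat_lit 3) (.nd (nat_lit 4) (.nd (nat_lit 5) 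
(.lf (nat_lit 163842) (.g (nat_lit 2816) (.e (nat_lit 57464) (nat_lit 23) (.e (nat_lit 516131) (nat_lit 3) (.e (nat_lit 221212) (nat_lit 22) (.e (nat_lit 196670) (nat_lit 14) (.e (nat_lit 73746) (nat_lit 3) (.e (nat_lit 516119) (nat_lit 1) (.e (nat_lit 164150) (nat_lit 152) (.e (nat_lit 1186) (nat_lit 87) .nil)))))))) (.g (nat_lit 5) .nil .nil))) 
(.lf (nat_lit 163874) (.g (nat_lit 1891) (.e (nat_lit 57464) (nat_lit 23) (.e (nat_lit 516139) (nat_lit 7) (.e (nat_lit 409604) (nat_lit 0) (.e (nat_lit 5394) (nat_lit 301) (.e (nat_lit 57464) (nat_lit 23) (.e (nat_lit 516172) (nat_lit 13) (.e (nat_lit 466688) (nat_lit 3) .nil))))))) (.g (nat_lit 4) .nil .nil)))) (.nd (nat_lit 5) 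
(.lf (nat_lit 163858) (.g (nat_lit 3470) (.e (nat_lit 57464) (nat_lit 23) (.e (nat_lit 516139) (nat_lit 7) (.e (nat_lit 409602) (nat_lit 0) (.e (nat_lit 5293) (nat_lit 298) (.e (nat_lit 1250) (nat_lit 92) (.e (nat_lit 98353) (nat_lit 25) (.e (nat_lit 417793) (nat_lit 0) (.e (nat_lit 5395) (nat_lit 301) .nil)))))))) (.g (nat_lit 4) .nil .nil))) 
(.lf (nat_lit 163890) (.g (nat_lit 1826) (.e (nat_lit 57464) (nat_lit 23) (.e (nat_lit 516139) (nat_lit 7) (.e (nat_lit 409645) (nat_lit 18) (.e (nat_lit 303117) (nat_lit 2) .nil)))) .nil)))) (.nd (nat_lit 4) (.nd (nat_lit 5) 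
(.lf (nat_lit 163850) (.g (nat_lit 3104) (.e (nat_lit 57464) (nat_lit 23) (.e (nat_lit 516139) (nat_lit 7) (.e (nat_lit 409602) (nat_lit 0) (.e (nat_lit 5270) (nat_lit 298) (.e (nat_lit 1256) (nat_lit 92) (.e (nat_lit 98350) (nat_lit 24) (.e (nat_lit 409604) (nat_lit 0) (.e (nat_lit 5394) (nat_lit 301) .nil)))))))) (.g (nat_lit 4) .nil .nil))) 
(.lf (nat_lit 163882) (.g (nat_lit 1148) (.e (nat_lit 57464) (nat_lit 23) (.e (nat_lit 516139) (nat_lit 7) (.e (nat_lit 417536) (nat_lit 8) (.e (nat_lit 303119) (nat_lit 3) (.e (nat_lit 204846) (nat_lit 24) .nil))))) .nil))) (.nd (nat_lit 5) 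
(.lf (nat_lit 163866) (.g (nat_lit 2570) (.e (nat_lit 57464) (nat_lit 23) (.e (nat_lit 516139) (nat_lit 7) (.e (nat_lit 409602) (nat_lit 0) (.e (nat_lit 5394) (nat_lit 301) (.e (nat_lit 57464) (nat_lit 23) (.e (nat_lit 516160) (nat_lit 10) (.e (nat_lit 442112) (nat_lit 3) .nil))))))) (.g (nat_lit 4) .nil .nil))) 
(.lf (nat_lit 163898) (.g (nat_lit 3977) (.e (nat_lit 57464) (nat_lit 23) (.e (nat_lit 516139) (nat_lit 7) (.e (nat_lit 409646) (nat_lit 18) (.e (nat_lit 303119) (nat_lit 3) (.e (nat_lit 204846) (nat_lit 24) (.e (nat_lit 319490) (nat_lit 0) (.e (nat_lit 5394) (nat_lit 301) .nil))))))) (.g (nat_lit 6) .nil .nil)))))) (.nd (nat_lit 3) (.nd (nat_lit 4) (.nd (nat_lit 5) 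
(.lf (nat_lit 163846) (.g (nat_lit 687) (.e (nat_lit 57464) (nat_lit 23) (.e (nat_lit 516139) (nat_lit 7) (.e (nat_lit 409602) (nat_lit 0) .nil))) .nil)) 
(.lf (nat_lit 163878) (.g (nat_lit 2242) (.e (nat_lit 57464) (nat_lit 23) (.e (nat_lit 516139) (nat_lit 7) (.e (nat_lit 417536) (nat_lit 6) (.e (nat_lit 286733) (nat_lit 2) (.e (nat_lit 90173) (nat_lit 14) (.e (nat_lit 188160) (nat_lit 35) .nil)))))) (.g (nat_lit 5) .nil .nil)))) (.nd (nat_lit 5) 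
(.lf (nat_lit 163862) (.g (nat_lit 4618) (.e (nat_lit 57464) (nat_lit 23) (.e (nat_lit 516139) (nat_lit 7) (.e (nat_lit 409602) (nat_lit 0) (.e (nat_lit 5394) (nat_lit 301) (.e (nat_lit 57464) (nat_lit 23) (.e (nat_lit 516139) (nat_lit 7) (.e (nat_lit 409604) (nat_lit 0) (.e (nat_lit 5394) (nat_lit 301) .nil)))))))) (.g (nat_lit 6) .nil .nil))) 
(.lf (nat_lit 163894) (.g (nat_lit 3059) (.e (nat_lit 57464) (nat_lit 23) (.e (nat_lit 516139) (nat_lit 7) (.e (nat_lit 409645) (nat_lit 18) (.e (nat_lit 303119) (nat_lit 3) (.e (nat_lit 204864) (nat_lit 27) .nil))))) .nil)))) (.nd (nat_lit 4) (.nd (nat_lit 5) 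
(.lf (nat_lit 163854) (.g (nat_lit 2739) (.e (nat_lit 57464) (nat_lit 23) (.e (nat_lit 516139) (nat_lit 7) (.e (nat_lit 409602) (nat_lit 0) (.e (nat_lit 5293) (nat_lit 298) (.e (nat_lit 1250) (nat_lit 92) .nil))))) .nil)) 
(.lf (nat_lit 163886) (.g (nat_lit 3821) (.e (nat_lit 57464) (nat_lit 23) (.e (nat_lit 516139) (nat_lit 7) (.e (nat_lit 409640) (nat_lit 17) (.e (nat_lit 294931) (nat_lit 3) (.e (nat_lit 98350) (nat_lit 24) (.e (nat_lit 409616) (nat_lit 10) (.e (nat_lit 7936) (nat_lit 301) .nil))))))) (.g (nat_lit 6) .nil .nil)))) (.nd (nat_lit 5) 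
(.lf (nat_lit 163870) (.g (nat_lit 3212) (.e (nat_lit 57464) (nat_lit 23) (.e (nat_lit 516139) (nat_lit 7) (.e (nat_lit 409603) (nat_lit 0) (.e (nat_lit 5293) (nat_lit 298) (.e (nat_lit 1232) (nat_lit 91) (.e (nat_lit 90172) (nat_lit 14) (.e (nat_lit 188160) (nat_lit 35) .nil))))))) (.g (nat_lit 6) .nil .nil))) 
(.lf (nat_lit 163902) (.g (nat_lit 1462) (.e (nat_lit 57464) (nat_lit 23) (.e (nat_lit 516139) (nat_lit 7) (.e (nat_lit 409648) (nat_lit 18) (.e (nat_lit 303116) (nat_lit 2) .nil)))) .nil))))))) (.nd (nat_lit 1) (.nd (nat_lit 2) (.nd (nat_lit 3) (.nd (nat_lit 4) (.nd (nat_lit 5) 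
(.lf (nat_lit 163841) (.g (nat_lit 2144) (.e (nat_lit 57464) (nat_lit 23) (.e (nat_lit 516131) (nat_lit 3) (.e (nat_lit 221212) (nat_lit 22) (.e (nat_lit 196670) (nat_lit 14) (.e (nat_lit 73746) (nat_lit 3) (.e (nat_lit 516115) (nat_lit 1) (.e (nat_lit 164153) (nat_lit 152) (.e (nat_lit 1175) (nat_lit 87) .nil)))))))) (.g (nat_lit 4) .nil .nil))) 
(.lf (nat_lit 163873) (.g (nat_lit 2610) (.e (nat_lit 57464) (nat_lit 23) (.e (nat_lit 516139) (nat_lit 7) (.e (nat_lit 409604) (nat_lit 0) (.e (nat_lit 5394) (nat_lit 301) (.e (nat_lit 57464) (nat_lit 23) (.e (nat_lit 516170) (nat_lit 13) (.e (nat_lit 466688) (nat_lit 3) .nil))))))) (.g (nat_lit 6) .nil .nil)))) (.nd (nat_lit 5) 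
(.lf (nat_lit 163857) (.g (nat_lit 4338) (.e (nat_lit 57464) (nat_lit 23) (.e (nat_lit 516139) (nat_lit 7) (.e (nat_lit 409602) (nat_lit 0) (.e (nat_lit 5293) (nat_lit 298) (.e (nat_lit 1250) (nat_lit 92) (.e (nat_lit 98350) (nat_lit 24) (.e (nat_lit 409604) (nat_lit 0) (.e (nat_lit 5394) (nat_lit 301) .nil)))))))) (.g (nat_lit 5) .nil .nil))) 
(.lf (nat_lit 163889) (.g (nat_lit 2716) (.e (nat_lit 57464) (nat_lit 23) (.e (nat_lit 516139) (nat_lit 7) (.e (nat_lit 409644) (nat_lit 18) (.e (nat_lit 303119) (nat_lit 3) (.e (nat_lit 204846) (nat_lit 24) (.e (nat_lit 319490) (nat_lit 0) (.e (nat_lit 5394) (nat_lit 301) .nil))))))) (.g (nat_lit 4) .nil .nil))))) (.nd (nat_lit 4) (.nd (nat_lit 5) 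
(.lf (nat_lit 163849) (.g (nat_lit 3258) (.e (nat_lit 57464) (nat_lit 23) (.e (nat_lit 516139) (nat_lit 7) (.e (nat_lit 409602) (nat_lit 0) (.e (nat_lit 5270) (nat_lit 298) (.e (nat_lit 1256) (nat_lit 92) (.e (nat_lit 98350) (nat_lit 24) (.e (nat_lit 409602) (nat_lit 0) (.e (nat_lit 5394) (nat_lit 301) .nil)))))))) (.g (nat_lit 4) .nil .nil))) 
(.lf (nat_lit 163881) (.g (nat_lit 1257) (.e (nat_lit 57464) (nat_lit 23) (.e (nat_lit 516139) (nat_lit 7) (.e (nat_lit 417536) (nat_lit 6) (.e (nat_lit 286735) (nat_lit 3) (.e (nat_lit 98363) (nat_lit 26) .nil))))) .nil))) (.nd (nat_lit 5) 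
(.lf (nat_lit 163865) (.g (nat_lit 2926) (.e (nat_lit 57464) (nat_lit 23) (.e (nat_lit 516139) (nat_lit 7) (.e (nat_lit 409602) (nat_lit 0) (.e (nat_lit 5394) (nat_lit 301) (.e (nat_lit 57464) (nat_lit 23) (.e (nat_lit 516142) (nat_lit 8) (.e (nat_lit 417794) (nat_lit 0) (.e (nat_lit 5395) (nat_lit 301) .nil)))))))) (.g (nat_lit 4) .nil .nil))) 
(.lf (nat_lit 163897) (.g (nat_lit 2513) (.e (nat_lit 57464) (nat_lit 23) (.e (nat_lit 516139) (nat_lit 7) (.e (nat_lit 409646) (nat_lit 18) (.e (nat_lit 303119) (nat_lit 3) (.e (nat_lit 204819) (nat_lit 17) .nil))))) .nil))))) (.nd (nat_lit 3) (.nd (nat_lit 4) (.nd (nat_lit 5) 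
(.lf (nat_lit 163845) (.g (nat_lit 2135) (.e (nat_lit 57464) (nat_lit 23) (.e (nat_lit 516138) (nat_lit 7) (.e (nat_lit 409646) (nat_lit 18) (.e (nat_lit 303119) (nat_lit 3) (.e (nat_lit 204846) (nat_lit 24) (.e (nat_lit 319491) (nat_lit 0) (.e (nat_lit 5394) (nat_lit 301) .nil))))))) (.g (nat_lit 4) .nil .nil))) 
(.lf (nat_lit 163877) (.g (nat_lit 2878) (.e (nat_lit 57464) (nat_lit 23) (.e (nat_lit 516139) (nat_lit 7) (.e (nat_lit 417536) (nat_lit 6) (.e (nat_lit 286733) (nat_lit 2) (.e (nat_lit 90172) (nat_lit 14) (.e (nat_lit 188160) (nat_lit 35) .nil)))))) (.g (nat_lit 5) .nil .nil)))) (.nd (nat_lit 5) 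
(.lf (nat_lit 163861) (.g (nat_lit 1983) (.e (nat_lit 57464) (nat_lit 23) (.e (nat_lit 516139) (nat_lit 7) (.e (nat_lit 409602) (nat_lit 0) (.e (nat_lit 5394) (nat_lit 301) (.e (nat_lit 57464) (nat_lit 23) .nil))))) .nil)) 
(.lf (nat_lit 163893) (.g (nat_lit 3242) (.e (nat_lit 57464) (nat_lit 23) (.e (nat_lit 516139) (nat_lit 7) (.e (nat_lit 409645) (nat_lit 18) (.e (nat_lit 303119) (nat_lit 3) (.e (nat_lit 204846) (nat_lit 24) (.e (nat_lit 319490) (nat_lit 0) (.e (nat_lit 5389) (nat_lit 301) .nil))))))) (.g (nat_lit 4) .nil .nil))))) (.nd (nat_lit 4) (.nd (nat_lit 5) 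
(.lf (nat_lit 163853) (.g (nat_lit 3780) (.e (nat_lit 57464) (nat_lit 23) (.e (nat_lit 516139) (nat_lit 7) (.e (nat_lit 409602) (nat_lit 0) (.e (nat_lit 5293) (nat_lit 298) (.e (nat_lit 1232) (nat_lit 91) (.e (nat_lit 90174) (nat_lit 14) (.e (nat_lit 188160) (nat_lit 35) .nil))))))) (.g (nat_lit 5) .nil .nil))) 
(.lf (nat_lit 163885) (.g (nat_lit 2943) (.e (nat_lit 57464) (nat_lit 23) (.e (nat_lit 516139) (nat_lit 7) (.e (nat_lit 417536) (nat_lit 16) (.e (nat_lit 286735) (nat_lit 3) (.e (nat_lit 98350) (nat_lit 24) (.e (nat_lit 409616) (nat_lit 10) (.e (nat_lit 7936) (nat_lit 301) .nil))))))) (.g (nat_lit 6) .nil .nil)))) (.nd (nat_lit 5) 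
(.lf (nat_lit 163869) (.g (nat_lit 858) (.e (nat_lit 57464) (nat_lit 23) (.e (nat_lit 516139) (nat_lit 7) (.e (nat_lit 409603) (nat_lit 0) .nil))) .nil)) 
(.lf (nat_lit 163901) (.g (nat_lit 1497) (.e (nat_lit 57464) (nat_lit 23) (.e (nat_lit 516139) (nat_lit 7) (.e (nat_lit 409647) (nat_lit 18) (.e (nat_lit 303119) (nat_lit 3) .nil)))) .nil)))))) (.nd (nat_lit 2) (.nd (nat_lit 3) (.nd (nat_lit 4) (.nd (nat_lit 5) 
(.lf (nat_lit 163843) (.g (nat_lit 1971) (.e (nat_lit 57464) (nat_lit 23) (.e (nat_lit 516131) (nat_lit 3) (.e (nat_lit 221212) (nat_lit 22) (.e (nat_lit 196670) (nat_lit 14) (.e (nat_lit 73746) (nat_lit 3) (.e (nat_lit 516120) (nat_lit 1) (.e (nat_lit 164147) (nat_lit 152) (.e (nat_lit 1186) (nat_lit 87) .nil)))))))) (.g (nat_lit 4) .nil .nil))) 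
(.lf (nat_lit 163875) (.g (nat_lit 691) (.e (nat_lit 57464) (nat_lit 23) (.e (nat_lit 516139) (nat_lit 7) (.e (nat_lit 417536) (nat_lit 6) .nil))) .nil))) (.nd (nat_lit 5) 
(.lf (nat_lit 163859) (.g (nat_lit 3083) (.e (nat_lit 57464) (nat_lit 23) (.e (nat_lit 516139) (nat_lit 7) (.e (nat_lit 409602) (nat_lit 0) (.e (nat_lit 5293) (nat_lit 298) (.e (nat_lit 1250) (nat_lit 92) (.e (nat_lit 98378) (nat_lit 30) (.e (nat_lit 466688) (nat_lit 3) .nil))))))) (.g (nat_lit 4) .nil .nil))) 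
(.lf (nat_lit 163891) (.g (nat_lit 1907) (.e (nat_lit 57464) (nat_lit 23) (.e (nat_lit 516139) (nat_lit 7) (.e (nat_lit 409645) (nat_lit 18) (.e (nat_lit 303119) (nat_lit 3) .nil)))) .nil)))) (.nd (nat_lit 4) (.nd (nat_lit 5) 
(.lf (nat_lit 163851) (.g (nat_lit 4962) (.e (nat_lit 57464) (nat_lit 23) (.e (nat_lit 516139) (nat_lit 7) (.e (nat_lit 409602) (nat_lit 0) (.e (nat_lit 5293) (nat_lit 298) (.e (nat_lit 1232) (nat_lit 91) (.e (nat_lit 90172) (nat_lit 14) (.e (nat_lit 188160) (nat_lit 35) .nil))))))) (.g (nat_lit 6) .nil .nil))) 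
(.lf (nat_lit 163883) (.g (nat_lit 493) (.e (nat_lit 57464) (nat_lit 23) (.e (nat_lit 516139) (nat_lit 7) (.e (nat_lit 409623) (nat_lit 10) .nil))) .nil))) (.nd (nat_lit 5) 
(.lf (nat_lit 163867) (.g (nat_lit 2411) (.e (nat_lit 57464) (nat_lit 23) (.e (nat_lit 516139) (nat_lit 7) (.e (nat_lit 409602) (nat_lit 0) (.e (nat_lit 5394) (nat_lit 301) (.e (nat_lit 57464) (nat_lit 23) (.e (nat_lit 516161) (nat_lit 10) (.e (nat_lit 442112) (nat_lit 3) .nil))))))) (.g (nat_lit 4) .nil .nil))) 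
(.lf (nat_lit 163899) (.g (nat_lit 4135) (.e (nat_lit 57464) (nat_lit 23) (.e (nat_lit 516139) (nat_lit 7) (.e (nat_lit 409646) (nat_lit 18) (.e (nat_lit 303119) (nat_lit 3) (.e (nat_lit 204863) (nat_lit 27) (.e (nat_lit 352000) (nat_lit 11) .nil)))))) (.g (nat_lit 5) .nil .nil)))))) (.nd (nat_lit 3) (.nd (nat_lit 4) (.nd (nat_lit 5) 
(.lf (nat_lit 163847) (.g (nat_lit 1956) (.e (nat_lit 57464) (nat_lit 23) (.e (nat_lit 516139) (nat_lit 7) (.e (nat_lit 409602) (nat_lit 0) (.e (nat_lit 5245) (nat_lit 298) .nil)))) .nil)) 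
(.lf (nat_lit 163879) (.g (nat_lit 2717) (.e (nat_lit 57464) (nat_lit 23) (.e (nat_lit 516139) (nat_lit 7) (.e (nat_lit 417536) (nat_lit 6) (.e (nat_lit 286733) (nat_lit 2) (.e (nat_lit 90174) (nat_lit 14) (.e (nat_lit 188160) (nat_lit 35) .nil)))))) (.g (nat_lit 5) .nil .nil)))) (.nd (nat_lit 5) 
(.lf (nat_lit 163863) (.g (nat_lit 2932) (.e (nat_lit 57464) (nat_lit 23) (.e (nat_lit 516139) (nat_lit 7) (.e (nat_lit 409602) (nat_lit 0) (.e (nat_lit 5394) (nat_lit 301) (.e (nat_lit 57464) (nat_lit 23) (.e (nat_lit 516141) (nat_lit 8) (.e (nat_lit 417793) (nat_lit 0) (.e (nat_lit 5395) (nat_lit 301) .nil)))))))) (.g (nat_lit 4) .nil .nil))) 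
(.lf (nat_lit 163895) (.g (nat_lit 1719) (.e (nat_lit 57464) (nat_lit 23) (.e (nat_lit 516139) (nat_lit 7) (.e (nat_lit 409646) (nat_lit 18) (.e (nat_lit 303117) (nat_lit 2) .nil)))) .nil)))) (.nd (nat_lit 4) (.nd (nat_lit 5) 
(.lf (nat_lit 163855) (.g (nat_lit 4052) (.e (nat_lit 57464) (nat_lit 23) (.e (nat_lit 516139) (nat_lit 7) (.e (nat_lit 409602) (nat_lit 0) (.e (nat_lit 5293) (nat_lit 298) (.e (nat_lit 1250) (nat_lit 92) (.e (nat_lit 98350) (nat_lit 24) (.e (nat_lit 409602) (nat_lit 0) (.e (nat_lit 5394) (nat_lit 301) .nil)))))))) (.g (nat_lit 5) .nil .nil))) 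
(.lf (nat_lit 163887) (.g (nat_lit 2538) (.e (nat_lit 57464) (nat_lit 23) (.e (nat_lit 516139) (nat_lit 7) (.e (nat_lit 409641) (nat_lit 17) (.e (nat_lit 294931) (nat_lit 3) (.e (nat_lit 98350) (nat_lit 24) .nil))))) .nil))) (.nd (nat_lit 5) 
(.lf (nat_lit 163871) (.g (nat_lit 2017) (.e (nat_lit 57464) (nat_lit 23) (.e (nat_lit 516139) (nat_lit 7) (.e (nat_lit 409603) (nat_lit 0) (.e (nat_lit 5293) (nat_lit 298) (.e (nat_lit 1232) (nat_lit 91) (.e (nat_lit 90173) (nat_lit 14) (.e (nat_lit 188160) (nat_lit 35) .nil))))))) (.g (nat_lit 4) .nil .nil))) 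
(.lf (nat_lit 163903) (.g (nat_lit 2715) (.e (nat_lit 57464) (nat_lit 23) (.e (nat_lit 516139) (nat_lit 7) (.e (nat_lit 409648) (nat_lit 18) (.e (nat_lit 303118) (nat_lit 3) (.e (nat_lit 204846) (nat_lit 24) .nil))))) .nil))))))))

noncomputable def tv2198 : DT := (.nd (nat_lit 0) (.nd (nat_lit 1) (.nd (nat_lit 2) (.nd (nat_lit 3) (.nd (nat_lit 4) (.nd (nat_lit 5) 
(.lf (nat_lit 163904) (.g (nat_lit 2786) (.e (nat_lit 57464) (nat_lit 23) (.e (nat_lit 516139) (nat_lit 7) (.e (nat_lit 409648) (nat_lit 18) (.e (nat_lit 303118) (nat_lit 3) (.e (nat_lit 204863) (nat_lit 27) .nil))))) .nil)) 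
(.lf (nat_lit 163936) (.g (nat_lit 3307) (.e (nat_lit 57464) (nat_lit 23) (.e (nat_lit 516142) (nat_lit 8) (.e (nat_lit 417810) (nat_lit 6) (.e (nat_lit 286735) (nat_lit 3) (.e (nat_lit 98363) (nat_lit 26) (.e (nat_lit 425987) (nat_lit 0) (.e (nat_lit 7582) (nat_lit 405) .nil))))))) (.g (nat_lit 5) .nil .nil)))) (.nd (nat_lit 5) 
(.lf (nat_lit 163920) (.g (nat_lit 2184) (.e (nat_lit 57464) (nat_lit 23) (.e (nat_lit 516142) (nat_lit 8) (.e (nat_lit 417809) (nat_lit 6) (.e (nat_lit 286733) (nat_lit 2) (.e (nat_lit 90173) (nat_lit 14) (.e (nat_lit 188160) (nat_lit 35) .nil)))))) (.g (nat_lit 5) .nil .nil))) 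
(.lf (nat_lit 163952) (.g (nat_lit 1926) (.e (nat_lit 57464) (nat_lit 23) (.e (nat_lit 516143) (nat_lit 9) (.e (nat_lit 426317) (nat_lit 12) (.e (nat_lit 475185) (nat_lit 29) (.e (nat_lit 557103) (nat_lit 14) (.e (nat_lit 188160) (nat_lit 35) .nil)))))) (.g (nat_lit 5) .nil .nil))))) (.nd (nat_lit 4) (.nd (nat_lit 5) 
(.lf (nat_lit 163912) (.g (nat_lit 3094) (.e (nat_lit 57464) (nat_lit 23) (.e (nat_lit 516139) (nat_lit 7) (.e (nat_lit 409649) (nat_lit 18) (.e (nat_lit 303119) (nat_lit 3) (.e (nat_lit 204864) (nat_lit 27) .nil))))) .nil)) 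
(.lf (nat_lit 163944) (.g (nat_lit 2267) (.e (nat_lit 57464) (nat_lit 23) (.e (nat_lit 516142) (nat_lit 8) (.e (nat_lit 417812) (nat_lit 7) (.e (nat_lit 294927) (nat_lit 2) (.e (nat_lit 90172) (nat_lit 14) (.e (nat_lit 188160) (nat_lit 35) .nil)))))) (.g (nat_lit 5) .nil .nil)))) (.nd (nat_lit 5) 
(.lf (nat_lit 163928) (.g (nat_lit 3377) (.e (nat_lit 57464) (nat_lit 23) (.e (nat_lit 516142) (nat_lit 8) (.e (nat_lit 417810) (nat_lit 6) (.e (nat_lit 286733) (nat_lit 2) (.e (nat_lit 90173) (nat_lit 14) (.e (nat_lit 188160) (nat_lit 35) .nil)))))) (.g (nat_lit 5) .nil .nil))) 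
(.lf (nat_lit 163960) (.g (nat_lit 1858) (.e (nat_lit 57464) (nat_lit 23) (.e (nat_lit 516145) (nat_lit 9) (.e (nat_lit 426319) (nat_lit 12) (.e (nat_lit 475185) (nat_lit 29) (.e (nat_lit 557103) (nat_lit 14) (.e (nat_lit 188160) (nat_lit 35) .nil)))))) (.g (nat_lit 4) .nil .nil)))))) (.nd (nat_lit 3) (.nd (nat_lit 4) (.nd (nat_lit 5) 
(.lf (nat_lit 163908) (.g (nat_lit 2835) (.e (nat_lit 57464) (nat_lit 23) (.e (nat_lit 516139) (nat_lit 7) (.e (nat_lit 409649) (nat_lit 18) (.e (nat_lit 303118) (nat_lit 3) (.e (nat_lit 204863) (nat_lit 27) (.e (nat_lit 352000) (nat_lit 11) .nil)))))) (.g (nat_lit 4) .nil .nil))) 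
(.lf (nat_lit 163940) (.g (nat_lit 3446) (.e (nat_lit 57464) (nat_lit 23) (.e (nat_lit 516142) (nat_lit 8) (.e (nat_lit 417811) (nat_lit 6) (.e (nat_lit 286733) (nat_lit 2) (.e (nat_lit 90172) (nat_lit 14) (.e (nat_lit 188160) (nat_lit 35) .nil)))))) (.g (nat_lit 5) .nil .nil)))) (.nd (nat_lit 5) 
(.lf (nat_lit 163924) (.g (nat_lit 2282) (.e (nat_lit 57464) (nat_lit 23) (.e (nat_lit 516142) (nat_lit 8) (.e (nat_lit 417809) (nat_lit 6) (.e (nat_lit 286735) (nat_lit 3) (.e (nat_lit 98350) (nat_lit 24) (.e (nat_lit 409602) (nat_lit 0) (.e (nat_lit 5394) (nat_lit 301) .nil))))))) (.g (nat_lit 5) .nil .nil))) 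
(.lf (nat_lit 163956) (.g (nat_lit 2226) (.e (nat_lit 57464) (nat_lit 23) (.e (nat_lit 516145) (nat_lit 9) (.e (nat_lit 426244) (nat_lit 9) (.e (nat_lit 426124) (nat_lit 2) (.e (nat_lit 196677) (nat_lit 16) (.e (nat_lit 123080) (nat_lit 177) (.e (nat_lit 57896) (nat_lit 273) .nil))))))) (.g (nat_lit 5) .nil .nil))))) (.nd (nat_lit 4) (.nd (nat_lit 5) 
(.lf (nat_lit 163916) (.g (nat_lit 2804) (.e (nat_lit 57464) (nat_lit 23) (.e (nat_lit 516142) (nat_lit 8) (.e (nat_lit 417794) (nat_lit 0) (.e (nat_lit 5395) (nat_lit 301) (.e (nat_lit 57464) (nat_lit 23) (.e (nat_lit 516139) (nat_lit 7) (.e (nat_lit 409604) (nat_lit 0) (.e (nat_lit 5394) (nat_lit 301) .nil)))))))) (.g (nat_lit 6) .nil .nil))) 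
(.lf (nat_lit 163948) (.g (nat_lit 2364) (.e (nat_lit 57464) (nat_lit 23) (.e (nat_lit 516142) (nat_lit 8) (.e (nat_lit 417812) (nat_lit 7) (.e (nat_lit 294928) (nat_lit 2) (.e (nat_lit 90174) (nat_lit 14) (.e (nat_lit 188160) (nat_lit 35) .nil)))))) (.g (nat_lit 5) .nil .nil)))) (.nd (nat_lit 5) 
(.lf (nat_lit 163932) (.g (nat_lit 3622) (.e (nat_lit 57464) (nat_lit 23) (.e (nat_lit 516142) (nat_lit 8) (.e (nat_lit 417810) (nat_lit 6) (.e (nat_lit 286735) (nat_lit 3) (.e (nat_lit 98325) (nat_lit 17) (.e (nat_lit 7083) (nat_lit 379) (.e (nat_lit 123212) (nat_lit 273) .nil))))))) (.g (nat_lit 5) .nil .nil))) 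
(.lf (nat_lit 163964) (.g (nat_lit 427) (.e (nat_lit 57464) (nat_lit 23) (.e (nat_lit 516145) (nat_lit 9) (.e (nat_lit 433920) (nat_lit 12) .nil))) .nil)))))) (.nd (nat_lit 2) (.nd (nat_lit 3) (.nd (nat_lit 4) (.nd (nat_lit 5) 
(.lf (nat_lit 163906) (.g (nat_lit 2732) (.e (nat_lit 57464) (nat_lit 23) (.e (nat_lit 516139) (nat_lit 7) (.e (nat_lit 409648) (nat_lit 18) (.e (nat_lit 303119) (nat_lit 3) (.e (nat_lit 204846) (nat_lit 24) .nil))))) .nil)) 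
(.lf (nat_lit 163938) (.g (nat_lit 3081) (.e (nat_lit 57464) (nat_lit 23) (.e (nat_lit 516142) (nat_lit 8) (.e (nat_lit 417810) (nat_lit 6) (.e (nat_lit 286735) (nat_lit 3) (.e (nat_lit 98378) (nat_lit 30) (.e (nat_lit 466688) (nat_lit 3) .nil)))))) (.g (nat_lit 5) .nil .nil)))) (.nd (nat_lit 5) 
(.lf (nat_lit 163922) (.g (nat_lit 2218) (.e (nat_lit 57464) (nat_lit 23) (.e (nat_lit 516142) (nat_lit 8) (.e (nat_lit 417809) (nat_lit 6) (.e (nat_lit 286735) (nat_lit 3) (.e (nat_lit 98325) (nat_lit 17) (.e (nat_lit 7083) (nat_lit 379) (.e (nat_lit 123212) (nat_lit 273) .nil))))))) (.g (nat_lit 4) .nil .nil))) 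
(.lf (nat_lit 163954) (.g (nat_lit 1330) (.e (nat_lit 57464) (nat_lit 23) (.e (nat_lit 516145) (nat_lit 9) (.e (nat_lit 426131) (nat_lit 3) (.e (nat_lit 204838) (nat_lit 20) .nil)))) .nil)))) (.nd (nat_lit 4) (.nd (nat_lit 5) 
(.lf (nat_lit 163914) (.g (nat_lit 1599) (.e (nat_lit 57464) (nat_lit 23) (.e (nat_lit 516141) (nat_lit 8) (.e (nat_lit 417793) (nat_lit 0) (.e (nat_lit 5395) (nat_lit 301) (.e (nat_lit 57464) (nat_lit 23) (.e (nat_lit 516142) (nat_lit 8) (.e (nat_lit 417793) (nat_lit 0) (.e (nat_lit 5395) (nat_lit 301) .nil)))))))) (.g (nat_lit 6) .nil .nil))) 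
(.lf (nat_lit 163946) (.g (nat_lit 1361) (.e (nat_lit 57464) (nat_lit 23) (.e (nat_lit 516142) (nat_lit 8) (.e (nat_lit 417812) (nat_lit 7) (.e (nat_lit 294928) (nat_lit 2) (.e (nat_lit 90171) (nat_lit 14) .nil))))) .nil))) (.nd (nat_lit 5) 
(.lf (nat_lit 163930) (.g (nat_lit 1070) (.e (nat_lit 57464) (nat_lit 23) (.e (nat_lit 516142) (nat_lit 8) (.e (nat_lit 417810) (nat_lit 6) (.e (nat_lit 286734) (nat_lit 3) .nil)))) .nil)) 
(.lf (nat_lit 163962) (.g (nat_lit 2617) (.e (nat_lit 57464) (nat_lit 23) (.e (nat_lit 516145) (nat_lit 9) (.e (nat_lit 426320) (nat_lit 12) (.e (nat_lit 475185) (nat_lit 29) (.e (nat_lit 557103) (nat_lit 14) (.e (nat_lit 188160) (nat_lit 35) .nil)))))) (.g (nat_lit 4) .nil .nil)))))) (.nd (nat_lit 3) (.nd (nat_lit 4) (.nd (nat_lit 5) 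
(.lf (nat_lit 163910) (.g (nat_lit 2860) (.e (nat_lit 57464) (nat_lit 23) (.e (nat_lit 516139) (nat_lit 7) (.e (nat_lit 409649) (nat_lit 18) (.e (nat_lit 303119) (nat_lit 3) (.e (nat_lit 204846) (nat_lit 24) .nil))))) .nil)) 
(.lf (nat_lit 163942) (.g (nat_lit 3279) (.e (nat_lit 57464) (nat_lit 23) (.e (nat_lit 516142) (nat_lit 8) (.e (nat_lit 417811) (nat_lit 6) (.e (nat_lit 286733) (nat_lit 2) (.e (nat_lit 90174) (nat_lit 14) (.e (nat_lit 188160) (nat_lit 35) .nil)))))) (.g (nat_lit 5) .nil .nil)))) (.nd (nat_lit 5) 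
(.lf (nat_lit 163926) (.g (nat_lit 443) (.e (nat_lit 57464) (nat_lit 23) (.e (nat_lit 516142) (nat_lit 8) (.e (nat_lit 417810) (nat_lit 6) .nil))) .nil)) 
(.lf (nat_lit 163958) (.g (nat_lit 3072) (.e (nat_lit 57464) (nat_lit 23) (.e (nat_lit 516145) (nat_lit 9) (.e (nat_lit 426244) (nat_lit 9) (.e (nat_lit 426139) (nat_lit 3) (.e (nat_lit 204846) (nat_lit 24) (.e (nat_lit 319511) (nat_lit 10) (.e (nat_lit 5394) (nat_lit 301) .nil))))))) (.g (nat_lit 5) .nil .nil))))) (.nd (nat_lit 4) (.nd (nat_lit 5) 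
(.lf (nat_lit 163918) (.g (nat_lit 429) (.e (nat_lit 57464) (nat_lit 23) (.e (nat_lit 516142) (nat_lit 8) (.e (nat_lit 417809) (nat_lit 6) .nil))) .nil)) 
(.lf (nat_lit 163950) (.g (nat_lit 2428) (.e (nat_lit 57464) (nat_lit 23) (.e (nat_lit 516142) (nat_lit 8) (.e (nat_lit 417812) (nat_lit 7) (.e (nat_lit 294931) (nat_lit 3) (.e (nat_lit 98367) (nat_lit 27) (.e (nat_lit 442112) (nat_lit 3) .nil)))))) (.g (nat_lit 5) .nil .nil)))) (.nd (nat_lit 5) 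
(.lf (nat_lit 163934) (.g (nat_lit 3468) (.e (nat_lit 57464) (nat_lit 23) (.e (nat_lit 516142) (nat_lit 8) (.e (nat_lit 417810) (nat_lit 6) (.e (nat_lit 286735) (nat_lit 3) (.e (nat_lit 98363) (nat_lit 26) (.e (nat_lit 425984) (nat_lit 0) (.e (nat_lit 7582) (nat_lit 405) .nil))))))) (.g (nat_lit 5) .nil .nil))) 
(.lf (nat_lit 163966) (.g (nat_lit 1916) (.e (nat_lit 57464) (nat_lit 23) (.e (nat_lit 516145) (nat_lit 9) (.e (nat_lit 433920) (nat_lit 12) (.e (nat_lit 475185) (nat_lit 29) (.e (nat_lit 557105) (nat_lit 14) (.e (nat_lit 188160) (nat_lit 35) .nil)))))) (.g (nat_lit 5) .nil .nil)))))))) (.nd (nat_lit 1) (.nd (nat_lit 2) (.nd (nat_lit 3) (.nd (nat_lit 4) (.nd (nat_lit 5) 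
(.lf (nat_lit 163905) (.g (nat_lit 1544) (.e (nat_lit 57464) (nat_lit 23) (.e (nat_lit 516139) (nat_lit 7) (.e (nat_lit 409648) (nat_lit 18) (.e (nat_lit 303119) (nat_lit 3) .nil)))) .nil)) 
(.lf (nat_lit 163937) (.g (nat_lit 3911) (.e (nat_lit 57464) (nat_lit 23) (.e (nat_lit 516142) (nat_lit 8) (.e (nat_lit 417810) (nat_lit 6) (.e (nat_lit 286735) (nat_lit 3) (.e (nat_lit 98367) (nat_lit 27) (.e (nat_lit 442112) (nat_lit 3) .nil)))))) (.g (nat_lit 5) .nil .nil)))) (.nd (nat_lit 5) 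
(.lf (nat_lit 163921) (.g (nat_lit 1845) (.e (nat_lit 57464) (nat_lit 23) (.e (nat_lit 516142) (nat_lit 8) (.e (nat_lit 417809) (nat_lit 6) (.e (nat_lit 286734) (nat_lit 3) (.e (nat_lit 98350) (nat_lit 24) .nil))))) .nil)) 
(.lf (nat_lit 163953) (.g (nat_lit 1960) (.e (nat_lit 57464) (nat_lit 23) (.e (nat_lit 516143) (nat_lit 9) (.e (nat_lit 426317) (nat_lit 12) (.e (nat_lit 475185) (nat_lit 29) (.e (nat_lit 557105) (nat_lit 14) (.e (nat_lit 188160) (nat_lit 35) .nil)))))) (.g (nat_lit 5) .nil .nil))))) (.nd (nat_lit 4) (.nd (nat_lit 5) 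
(.lf (nat_lit 163913) (.g (nat_lit 2812) (.e (nat_lit 57464) (nat_lit 23) (.e (nat_lit 516141) (nat_lit 8) (.e (nat_lit 417793) (nat_lit 0) (.e (nat_lit 5395) (nat_lit 301) (.e (nat_lit 57464) (nat_lit 23) (.e (nat_lit 516139) (nat_lit 7) (.e (nat_lit 409604) (nat_lit 0) (.e (nat_lit 5394) (nat_lit 301) .nil)))))))) (.g (nat_lit 6) .nil .nil))) 
(.lf (nat_lit 163945) (.g (nat_lit 2134) (.e (nat_lit 57464) (nat_lit 23) (.e (nat_lit 516142) (nat_lit 8) (.e (nat_lit 417812) (nat_lit 7) (.e (nat_lit 294927) (nat_lit 2) (.e (nat_lit 90174) (nat_lit 14) (.e (nat_lit 188160) (nat_lit 35) .nil)))))) (.g (nat_lit 5) .nil .nil)))) (.nd (nat_lit 5) 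
(.lf (nat_lit 163929) (.g (nat_lit 4014) (.e (nat_lit 57464) (nat_lit 23) (.e (nat_lit 516142) (nat_lit 8) (.e (nat_lit 417810) (nat_lit 6) (.e (nat_lit 286733) (nat_lit 2) (.e (nat_lit 90174) (nat_lit 14) (.e (nat_lit 188160) (nat_lit 35) .nil)))))) (.g (nat_lit 5) .nil .nil))) 
(.lf (nat_lit 163961) (.g (nat_lit 1415) (.e (nat_lit 57464) (nat_lit 23) (.e (nat_lit 516145) (nat_lit 9) (.e (nat_lit 426320) (nat_lit 12) (.e (nat_lit 475184) (nat_lit 29) .nil)))) .nil))))) (.nd (nat_lit 3) (.nd (nat_lit 4) (.nd (nat_lit 5) 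
(.lf (nat_lit 163909) (.g (nat_lit 1458) (.e (nat_lit 57464) (nat_lit 23) (.e (nat_lit 516139) (nat_lit 7) (.e (nat_lit 409649) (nat_lit 18) (.e (nat_lit 303119) (nat_lit 3) .nil)))) .nil)) 
(.lf (nat_lit 163941) (.g (nat_lit 2730) (.e (nat_lit 57464) (nat_lit 23) (.e (nat_lit 516142) (nat_lit 8) (.e (nat_lit 417811) (nat_lit 6) (.e (nat_lit 286733) (nat_lit 2) (.e (nat_lit 90173) (nat_lit 14) (.e (nat_lit 188160) (nat_lit 35) .nil)))))) (.g (nat_lit 5) .nil .nil)))) (.nd (nat_lit 5) 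
(.lf (nat_lit 163925) (.g (nat_lit 1665) (.e (nat_lit 57464) (nat_lit 23) (.e (nat_lit 516142) (nat_lit 8) (.e (nat_lit 417809) (nat_lit 6) (.e (nat_lit 286735) (nat_lit 3) (.e (nat_lit 98353) (nat_lit 25) (.e (nat_lit 417793) (nat_lit 0) (.e (nat_lit 5395) (nat_lit 301) .nil))))))) (.g (nat_lit 4) .nil .nil))) 
(.lf (nat_lit 163957) (.g (nat_lit 3184) (.e (nat_lit 57464) (nat_lit 23) (.e (nat_lit 516145) (nat_lit 9) (.e (nat_lit 426244) (nat_lit 9) (.e (nat_lit 426139) (nat_lit 3) (.e (nat_lit 204846) (nat_lit 24) (.e (nat_lit 319505) (nat_lit 10) (.e (nat_lit 5395) (nat_lit 301) .nil))))))) (.g (nat_lit 5) .nil .nil))))) (.nd (nat_lit 4) (.nd (nat_lit 5) 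
(.lf (nat_lit 163917) (.g (nat_lit 747) (.e (nat_lit 57464) (nat_lit 23) (.e (nat_lit 516142) (nat_lit 8) (.e (nat_lit 417795) (nat_lit 0) (.e (nat_lit 5395) (nat_lit 301) .nil)))) .nil)) 
(.lf (nat_lit 163949) (.g (nat_lit 1069) (.e (nat_lit 57464) (nat_lit 23) (.e (nat_lit 516142) (nat_lit 8) (.e (nat_lit 417812) (nat_lit 7) (.e (nat_lit 294931) (nat_lit 3) (.e (nat_lit 98363) (nat_lit 26) .nil))))) .nil))) (.nd (nat_lit 5) 
(.lf (nat_lit 163933) (.g (nat_lit 3486) (.e (nat_lit 57464) (nat_lit 23) (.e (nat_lit 516142) (nat_lit 8) (.e (nat_lit 417810) (nat_lit 6) (.e (nat_lit 286735) (nat_lit 3) (.e (nat_lit 98363) (nat_lit 26) (.e (nat_lit 425984) (nat_lit 0) (.e (nat_lit 7580) (nat_lit 405) .nil))))))) (.g (nat_lit 5) .nil .nil))) 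
(.lf (nat_lit 163965) (.g (nat_lit 2071) (.e (nat_lit 57464) (nat_lit 23) (.e (nat_lit 516145) (nat_lit 9) (.e (nat_lit 433920) (nat_lit 12) (.e (nat_lit 475185) (nat_lit 29) (.e (nat_lit 557103) (nat_lit 14) (.e (nat_lit 188160) (nat_lit 35) .nil)))))) (.g (nat_lit 5) .nil .nil))))))) (.nd (nat_lit 2) (.nd (nat_lit 3) (.nd (nat_lit 4) (.nd (nat_lit 5) 
(.lf (nat_lit 163907) (.g (nat_lit 2690) (.e (nat_lit 57464) (nat_lit 23) (.e (nat_lit 516139) (nat_lit 7) (.e (nat_lit 409649) (nat_lit 18) (.e (nat_lit 303118) (nat_lit 3) (.e (nat_lit 204846) (nat_lit 24) .nil))))) .nil)) 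
(.lf (nat_lit 163939) (.g (nat_lit 474) (.e (nat_lit 57464) (nat_lit 23) (.e (nat_lit 516142) (nat_lit 8) (.e (nat_lit 417811) (nat_lit 6) .nil))) .nil))) (.nd (nat_lit 5) 
(.lf (nat_lit 163923) (.g (nat_lit 1983) (.e (nat_lit 57464) (nat_lit 23) (.e (nat_lit 516142) (nat_lit 8) (.e (nat_lit 417809) (nat_lit 6) (.e (nat_lit 286735) (nat_lit 3) (.e (nat_lit 98349) (nat_lit 24) .nil))))) .nil)) 
(.lf (nat_lit 163955) (.g (nat_lit 1456) (.e (nat_lit 57464) (nat_lit 23) (.e (nat_lit 516145) (nat_lit 9) (.e (nat_lit 426241) (nat_lit 9) (.e (nat_lit 426124) (nat_lit 2) (.e (nat_lit 196677) (nat_lit 16) (.e (nat_lit 123080) (nat_lit 177) (.e (nat_lit 57896) (nat_lit 273) .nil))))))) (.g (nat_lit 4) .nil .nil))))) (.nd (nat_lit 4) (.nd (nat_lit 5) 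
(.lf (nat_lit 163915) (.g (nat_lit 521) (.e (nat_lit 57464) (nat_lit 23) (.e (nat_lit 516142) (nat_lit 8) (.e (nat_lit 417793) (nat_lit 0) .nil))) .nil)) 
(.lf (nat_lit 163947) (.g (nat_lit 2286) (.e (nat_lit 57464) (nat_lit 23) (.e (nat_lit 516142) (nat_lit 8) (.e (nat_lit 417812) (nat_lit 7) (.e (nat_lit 294928) (nat_lit 2) (.e (nat_lit 90172) (nat_lit 14) (.e (nat_lit 188160) (nat_lit 35) .nil)))))) (.g (nat_lit 5) .nil .nil)))) (.nd (nat_lit 5) 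
(.lf (nat_lit 163931) (.g (nat_lit 1920) (.e (nat_lit 57464) (nat_lit 23) (.e (nat_lit 516142) (nat_lit 8) (.e (nat_lit 417810) (nat_lit 6) (.e (nat_lit 286734) (nat_lit 3) (.e (nat_lit 98353) (nat_lit 25) (.e (nat_lit 417793) (nat_lit 0) (.e (nat_lit 5395) (nat_lit 301) .nil))))))) (.g (nat_lit 4) .nil .nil))) 
(.lf (nat_lit 163963) (.g (nat_lit 2569) (.e (nat_lit 57464) (nat_lit 23) (.e (nat_lit 516145) (nat_lit 9) (.e (nat_lit 426320) (nat_lit 12) (.e (nat_lit 475185) (nat_lit 29) (.e (nat_lit 557105) (nat_lit 14) (.e (nat_lit 188160) (nat_lit 35) .nil)))))) (.g (nat_lit 4) .nil .nil)))))) (.nd (nat_lit 3) (.nd (nat_lit 4) (.nd (nat_lit 5) 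
(.lf (nat_lit 163911) (.g (nat_lit 4201) (.e (nat_lit 57464) (nat_lit 23) (.e (nat_lit 516139) (nat_lit 7) (.e (nat_lit 409649) (nat_lit 18) (.e (nat_lit 303119) (nat_lit 3) (.e (nat_lit 204863) (nat_lit 27) (.e (nat_lit 352000) (nat_lit 11) .nil)))))) (.g (nat_lit 5) .nil .nil))) 
(.lf (nat_lit 163943) (.g (nat_lit 437) (.e (nat_lit 57464) (nat_lit 23) (.e (nat_lit 516142) (nat_lit 8) (.e (nat_lit 417812) (nat_lit 7) .nil))) .nil))) (.nd (nat_lit 5) 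
(.lf (nat_lit 163927) (.g (nat_lit 4075) (.e (nat_lit 57464) (nat_lit 23) (.e (nat_lit 516142) (nat_lit 8) (.e (nat_lit 417810) (nat_lit 6) (.e (nat_lit 286733) (nat_lit 2) (.e (nat_lit 90172) (nat_lit 14) (.e (nat_lit 188160) (nat_lit 35) .nil)))))) (.g (nat_lit 5) .nil .nil))) 
(.lf (nat_lit 163959) (.g (nat_lit 658) (.e (nat_lit 57464) (nat_lit 23) (.e (nat_lit 516145) (nat_lit 9) (.e (nat_lit 426272) (nat_lit 10) .nil))) .nil)))) (.nd (nat_lit 4) (.nd (nat_lit 5) 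
(.lf (nat_lit 163919) (.g (nat_lit 3047) (.e (nat_lit 57464) (nat_lit 23) (.e (nat_lit 516142) (nat_lit 8) (.e (nat_lit 417809) (nat_lit 6) (.e (nat_lit 286733) (nat_lit 2) (.e (nat_lit 90172) (nat_lit 14) (.e (nat_lit 188160) (nat_lit 35) .nil)))))) (.g (nat_lit 5) .nil .nil))) 
(.lf (nat_lit 163951) (.g (nat_lit 1005) (.e (nat_lit 57464) (nat_lit 23) (.e (nat_lit 516142) (nat_lit 8) (.e (nat_lit 417813) (nat_lit 9) (.e (nat_lit 311315) (nat_lit 3) (.e (nat_lit 204846) (nat_lit 24) .nil))))) .nil))) (.nd (nat_lit 5) 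
(.lf (nat_lit 163935) (.g (nat_lit 3347) (.e (nat_lit 57464) (nat_lit 23) (.e (nat_lit 516142) (nat_lit 8) (.e (nat_lit 417810) (nat_lit 6) (.e (nat_lit 286735) (nat_lit 3) (.e (nat_lit 98363) (nat_lit 26) (.e (nat_lit 425987) (nat_lit 0) (.e (nat_lit 7580) (nat_lit 405) .nil))))))) (.g (nat_lit 5) .nil .nil))) 
(.lf (nat_lit 163967) (.g (nat_lit 3890) (.e (nat_lit 57464) (nat_lit 23) (.e (nat_lit 516145) (nat_lit 9) (.e (nat_lit 426428) (nat_lit 17) (.e (nat_lit 90170) (nat_lit 13) (.e (nat_lit 172065) (nat_lit 3) (.e (nat_lit 204830) (nat_lit 18) (.e (nat_lit 57754) (nat_lit 209) (.e (nat_lit 1172) (nat_lit 87) .nil)))))))) (.g (nat_lit 6) .nil .nil)))))))))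

noncomputable def tv2199 : DT := (.nd (nat_lit 0) (.nd (nat_lit 1) (.nd (nat_lit 2) (.nd (nat_lit 3) (.nd (nat_lit 4) (.nd (nat_lit 5) 
(.lf (nat_lit 163968) (.g (nat_lit 2336) (.e (nat_lit 57464) (nat_lit 23) (.e (nat_lit 516145) (nat_lit 9) (.e (nat_lit 426428) (nat_lit 17) (.e (nat_lit 90170) (nat_lit 13) (.e (nat_lit 172067) (nat_lit 3) .nil))))) .nil)) 
(.lf (nat_lit 164000) (.g (nat_lit 2743) (.e (nat_lit 57464) (nat_lit 23) (.e (nat_lit 516151) (nat_lit 9) (.e (nat_lit 426170) (nat_lit 7) (.e (nat_lit 409631) (nat_lit 12) (.e (nat_lit 32793) (nat_lit 14) (.e (nat_lit 2942) (nat_lit 184) (.e (nat_lit 425987) (nat_lit 0) (.e (nat_lit 7580) (nat_lit 405) .nil)))))))) (.g (nat_lit 4) .nil .nil)))) (.nd (nat_lit 5) 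
(.lf (nat_lit 163984) (.g (nat_lit 3052) (.e (nat_lit 57464) (nat_lit 23) (.e (nat_lit 516151) (nat_lit 9) (.e (nat_lit 426042) (nat_lit 0) (.e (nat_lit 3307) (nat_lit 202) (.e (nat_lit 573489) (nat_lit 14) (.e (nat_lit 73755) (nat_lit 8) (.e (nat_lit 557090) (nat_lit 12) (.e (nat_lit 163843) (nat_lit 0) (.e (nat_lit 5806) (nat_lit 320) (.e (nat_lit 1175) (nat_lit 87) .nil)))))))))) (.g (nat_lit 4) .nil .nil))) 
(.lf (nat_lit 164016) (.g (nat_lit 1565) (.e (nat_lit 57464) (nat_lit 23) (.e (nat_lit 516151) (nat_lit 9) (.e (nat_lit 426171) (nat_lit 7) (.e (nat_lit 409630) (nat_lit 12) (.e (nat_lit 32808) (nat_lit 19) .nil))))) .nil)))) (.nd (nat_lit 4) (.nd (nat_lit 5) 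
(.lf (nat_lit 163976) (.g (nat_lit 813) (.e (nat_lit 57464) (nat_lit 23) (.e (nat_lit 516151) (nat_lit 9) (.e (nat_lit 426042) (nat_lit 0) .nil))) .nil)) 
(.lf (nat_lit 164008) (.g (nat_lit 3092) (.e (nat_lit 57464) (nat_lit 23) (.e (nat_lit 516151) (nat_lit 9) (.e (nat_lit 426170) (nat_lit 7) (.e (nat_lit 409631) (nat_lit 12) (.e (nat_lit 32798) (nat_lit 14) (.e (nat_lit 2936) (nat_lit 184) (.e (nat_lit 425987) (nat_lit 0) (.e (nat_lit 7582) (nat_lit 405) .nil)))))))) (.g (nat_lit 6) .nil .nil)))) (.nd (nat_lit 5) 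
(.lf (nat_lit 163992) (.g (nat_lit 5138) (.e (nat_lit 57464) (nat_lit 23) (.e (nat_lit 516151) (nat_lit 9) (.e (nat_lit 426042) (nat_lit 0) (.e (nat_lit 3307) (nat_lit 202) (.e (nat_lit 573489) (nat_lit 14) (.e (nat_lit 73755) (nat_lit 8) (.e (nat_lit 557090) (nat_lit 12) (.e (nat_lit 164006) (nat_lit 41) (.e (nat_lit 663564) (nat_lit 3) .nil))))))))) (.g (nat_lit 6) .nil .nil))) 
(.lf (nat_lit 164024) (.g (nat_lit 2602) (.e (nat_lit 57464) (nat_lit 23) (.e (nat_lit 516151) (nat_lit 9) (.e (nat_lit 426171) (nat_lit 7) (.e (nat_lit 409631) (nat_lit 12) (.e (nat_lit 32794) (nat_lit 14) (.e (nat_lit 2835) (nat_lit 183) (.e (nat_lit 417802) (nat_lit 0) (.e (nat_lit 5394) (nat_lit 301) .nil)))))))) (.g (nat_lit 4) .nil .nil)))))) 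
(.nd (nat_lit 3) (.nd (nat_lit 4) (.nd (nat_lit 5) 
(.lf (nat_lit 163972) (.g (nat_lit 436) (.e (nat_lit 57464) (nat_lit 23) (.e (nat_lit 516145) (nat_lit 9) (.e (nat_lit 426438) (nat_lit 18) .nil))) .nil)) 
(.lf (nat_lit 164004) (.g (nat_lit 2839) (.e (nat_lit 57464) (nat_lit 23) (.e (nat_lit 516151) (nat_lit 9) (.e (nat_lit 426170) (nat_lit 7) (.e (nat_lit 409631) (nat_lit 12) (.e (nat_lit 32794) (nat_lit 14) (.e (nat_lit 2835) (nat_lit 183) (.e (nat_lit 417793) (nat_lit 0) (.e (nat_lit 5395) (nat_lit 301) .nil)))))))) (.g (nat_lit 4) .nil .nil)))) (.nd (nat_lit 5) 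
(.lf (nat_lit 163988) (.g (nat_lit 4363) (.e (nat_lit 57464) (nat_lit 23) (.e (nat_lit 516151) (nat_lit 9) (.e (nat_lit 426042) (nat_lit 0) (.e (nat_lit 3307) (nat_lit 202) (.e (nat_lit 573489) (nat_lit 14) (.e (nat_lit 73755) (nat_lit 8) (.e (nat_lit 557090) (nat_lit 12) (.e (nat_lit 163844) (nat_lit 0) (.e (nat_lit 5807) (nat_lit 320) (.e (nat_lit 1175) (nat_lit 87) .nil)))))))))) (.g (nat_lit 6) .nil .nil))) 
(.lf (nat_lit 164020) (.g (nat_lit 3048) (.e (nat_lit 57464) (nat_lit 23) (.e (nat_lit 516151) (nat_lit 9) (.e (nat_lit 426171) (nat_lit 7) (.e (nat_lit 409631) (nat_lit 12) (.e (nat_lit 32794) (nat_lit 14) (.e (nat_lit 2437) (nat_lit 157) (.e (nat_lit 7091) (nat_lit 379) (.e (nat_lit 123212) (nat_lit 273) .nil)))))))) (.g (nat_lit 4) .nil .nil))))) (.nd (nat_lit 4) (.nd (nat_lit 5) 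
(.lf (nat_lit 163980) (.g (nat_lit 3099) (.e (nat_lit 57464) (nat_lit 23) (.e (nat_lit 516151) (nat_lit 9) (.e (nat_lit 426042) (nat_lit 0) (.e (nat_lit 3307) (nat_lit 202) (.e (nat_lit 573487) (nat_lit 14) (.e (nat_lit 73746) (nat_lit 3) (.e (nat_lit 516120) (nat_lit 1) (.e (nat_lit 164195) (nat_lit 158) (.e (nat_lit 1172) (nat_lit 87) .nil))))))))) (.g (nat_lit 4) .nil .nil))) 
(.lf (nat_lit 164012) (.g (nat_lit 2718) (.e (nat_lit 57464) (nat_lit 23) (.e (nat_lit 516151) (nat_lit 9) (.e (nat_lit 426170) (nat_lit 7) (.e (nat_lit 409631) (nat_lit 12) (.e (nat_lit 32805) (nat_lit 17) (.e (nat_lit 164209) (nat_lit 176) (.e (nat_lit 1078) (nat_lit 81) (.e (nat_lit 5394) (nat_lit 301) .nil)))))))) (.g (nat_lit 4) .nil .nil)))) (.nd (nat_lit 5) 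
(.lf (nat_lit 163996) (.g (nat_lit 737) (.e (nat_lit 57464) (nat_lit 23) (.e (nat_lit 516151) (nat_lit 9) (.e (nat_lit 426166) (nat_lit 7) .nil))) .nil)) 
(.lf (nat_lit 164028) (.g (nat_lit 2629) (.e (nat_lit 57464) (nat_lit 23) (.e (nat_lit 516151) (nat_lit 9) (.e (nat_lit 426171) (nat_lit 7) (.e (nat_lit 409631) (nat_lit 12) (.e (nat_lit 32798) (nat_lit 14) (.e (nat_lit 2936) (nat_lit 184) (.e (nat_lit 425984) (nat_lit 0) (.e (nat_lit 7582) (nat_lit 405) .nil)))))))) (.g (nat_lit 4) .nil .nil))))))) 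
(.nd (nat_lit 2) (.nd (nat_lit 3) (.nd (nat_lit 4) (.nd (nat_lit 5) 
(.lf (nat_lit 163970) (.g (nat_lit 1542) (.e (nat_lit 57464) (nat_lit 23) (.e (nat_lit 516145) (nat_lit 9) (.e (nat_lit 426428) (nat_lit 17) (.e (nat_lit 90174) (nat_lit 14) (.e (nat_lit 188160) (nat_lit 3) .nil))))) .nil)) 
(.lf (nat_lit 164002) (.g (nat_lit 2970) (.e (nat_lit 57464) (nat_lit 23) (.e (nat_lit 516151) (nat_lit 9) (.e (nat_lit 426170) (nat_lit 7) (.e (nat_lit 409631) (nat_lit 12) (.e (nat_lit 32794) (nat_lit 14) (.e (nat_lit 2822) (nat_lit 182) (.e (nat_lit 409605) (nat_lit 0) (.e (nat_lit 5394) (nat_lit 301) .nil)))))))) (.g (nat_lit 5) .nil .nil)))) (.nd (nat_lit 5) 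
(.lf (nat_lit 163986) (.g (nat_lit 4925) (.e (nat_lit 57464) (nat_lit 23) (.e (nat_lit 516151) (nat_lit 9) (.e (nat_lit 426042) (nat_lit 0) (.e (nat_lit 3307) (nat_lit 202) (.e (nat_lit 573489) (nat_lit 14) (.e (nat_lit 73755) (nat_lit 8) (.e (nat_lit 557090) (nat_lit 12) (.e (nat_lit 163843) (nat_lit 0) (.e (nat_lit 5809) (nat_lit 320) (.e (nat_lit 1175) (nat_lit 87) .nil)))))))))) (.g (nat_lit 6) .nil .nil))) 
(.lf (nat_lit 164018) (.g (nat_lit 2686) (.e (nat_lit 57464) (nat_lit 23) (.e (nat_lit 516151) (nat_lit 9) (.e (nat_lit 426171) (nat_lit 7) (.e (nat_lit 409631) (nat_lit 12) (.e (nat_lit 32793) (nat_lit 14) (.e (nat_lit 2936) (nat_lit 184) (.e (nat_lit 425984) (nat_lit 0) (.e (nat_lit 7582) (nat_lit 405) .nil)))))))) (.g (nat_lit 4) .nil .nil))))) (.nd (nat_lit 4) (.nd (nat_lit 5) 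
(.lf (nat_lit 163978) (.g (nat_lit 3483) (.e (nat_lit 57464) (nat_lit 23) (.e (nat_lit 516151) (nat_lit 9) (.e (nat_lit 426042) (nat_lit 0) (.e (nat_lit 3307) (nat_lit 202) (.e (nat_lit 573487) (nat_lit 14) (.e (nat_lit 73746) (nat_lit 3) (.e (nat_lit 516117) (nat_lit 1) (.e (nat_lit 164195) (nat_lit 158) (.e (nat_lit 1172) (nat_lit 87) .nil))))))))) (.g (nat_lit 4) .nil .nil))) 
(.lf (nat_lit 164010) (.g (nat_lit 2587) (.e (nat_lit 57464) (nat_lit 23) (.e (nat_lit 516151) (nat_lit 9) (.e (nat_lit 426170) (nat_lit 7) (.e (nat_lit 409631) (nat_lit 12) (.e (nat_lit 40704) (nat_lit 14) (.e (nat_lit 2936) (nat_lit 184) (.e (nat_lit 425987) (nat_lit 0) (.e (nat_lit 7582) (nat_lit 405) .nil)))))))) (.g (nat_lit 4) .nil .nil)))) (.nd (nat_lit 5) 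
(.lf (nat_lit 163994) (.g (nat_lit 4367) (.e (nat_lit 57464) (nat_lit 23) (.e (nat_lit 516151) (nat_lit 9) (.e (nat_lit 426042) (nat_lit 0) (.e (nat_lit 3307) (nat_lit 202) (.e (nat_lit 573489) (nat_lit 14) (.e (nat_lit 73755) (nat_lit 8) (.e (nat_lit 557090) (nat_lit 12) (.e (nat_lit 164012) (nat_lit 42) (.e (nat_lit 671757) (nat_lit 3) .nil))))))))) (.g (nat_lit 5) .nil .nil))) 
(.lf (nat_lit 164026) (.g (nat_lit 2302) (.e (nat_lit 57464) (nat_lit 23) (.e (nat_lit 516151) (nat_lit 9) (.e (nat_lit 426171) (nat_lit 7) (.e (nat_lit 409631) (nat_lit 12) (.e (nat_lit 32794) (nat_lit 14) (.e (nat_lit 2965) (nat_lit 185) (.e (nat_lit 442112) (nat_lit 3) .nil))))))) (.g (nat_lit 4) .nil .nil)))))) (.nd (nat_lit 3) (.nd (nat_lit 4) (.nd (nat_lit 5) 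
(.lf (nat_lit 163974) (.g (nat_lit 847) (.e (nat_lit 57464) (nat_lit 23) (.e (nat_lit 516151) (nat_lit 9) (.e (nat_lit 426022) (nat_lit 0) .nil))) .nil)) 
(.lf (nat_lit 164006) (.g (nat_lit 2152) (.e (nat_lit 57464) (nat_lit 23) (.e (nat_lit 516151) (nat_lit 9) (.e (nat_lit 426170) (nat_lit 7) (.e (nat_lit 409631) (nat_lit 12) (.e (nat_lit 32794) (nat_lit 14) (.e (nat_lit 2965) (nat_lit 185) (.e (nat_lit 442112) (nat_lit 3) .nil))))))) (.g (nat_lit 4) .nil .nil)))) (.nd (nat_lit 5) 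
(.lf (nat_lit 163990) (.g (nat_lit 3835) (.e (nat_lit 57464) (nat_lit 23) (.e (nat_lit 516151) (nat_lit 9) (.e (nat_lit 426042) (nat_lit 0) (.e (nat_lit 3307) (nat_lit 202) (.e (nat_lit 573489) (nat_lit 14) (.e (nat_lit 73755) (nat_lit 8) (.e (nat_lit 557090) (nat_lit 12) (.e (nat_lit 163844) (nat_lit 0) (.e (nat_lit 5814) (nat_lit 320) (.e (nat_lit 1175) (nat_lit 87) .nil)))))))))) (.g (nat_lit 5) .nil .nil))) 
(.lf (nat_lit 164022) (.g (nat_lit 2967) (.e (nat_lit 57464) (nat_lit 23) (.e (nat_lit 516151) (nat_lit 9) (.e (nat_lit 426171) (nat_lit 7) (.e (nat_lit 409631) (nat_lit 12) (.e (nat_lit 32794) (nat_lit 14) (.e (nat_lit 2823) (nat_lit 182) (.e (nat_lit 409605) (nat_lit 0) (.e (nat_lit 5394) (nat_lit 301) .nil)))))))) (.g (nat_lit 4) .nil .nil))))) (.nd (nat_lit 4) (.nd (nat_lit 5) 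
(.lf (nat_lit 163982) (.g (nat_lit 3957) (.e (nat_lit 57464) (nat_lit 23) (.e (nat_lit 516151) (nat_lit 9) (.e (nat_lit 426042) (nat_lit 0) (.e (nat_lit 3307) (nat_lit 202) (.e (nat_lit 573489) (nat_lit 14) (.e (nat_lit 73755) (nat_lit 8) (.e (nat_lit 557089) (nat_lit 12) (.e (nat_lit 164006) (nat_lit 41) (.e (nat_lit 663564) (nat_lit 3) .nil))))))))) (.g (nat_lit 5) .nil .nil))) 
(.lf (nat_lit 164014) (.g (nat_lit 470) (.e (nat_lit 57464) (nat_lit 23) (.e (nat_lit 516151) (nat_lit 9) (.e (nat_lit 426171) (nat_lit 7) .nil))) .nil))) (.nd (nat_lit 5) 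
(.lf (nat_lit 163998) (.g (nat_lit 768) (.e (nat_lit 57464) (nat_lit 23) (.e (nat_lit 516151) (nat_lit 9) (.e (nat_lit 426170) (nat_lit 7) (.e (nat_lit 409631) (nat_lit 12) .nil)))) .nil)) 
(.lf (nat_lit 164030) (.g (nat_lit 2865) (.e (nat_lit 57464) (nat_lit 23) (.e (nat_lit 516151) (nat_lit 9) (.e (nat_lit 426171) (nat_lit 7) (.e (nat_lit 409631) (nat_lit 12) (.e (nat_lit 32800) (nat_lit 14) (.e (nat_lit 2936) (nat_lit 184) (.e (nat_lit 425984) (nat_lit 0) (.e (nat_lit 7582) (nat_lit 405) .nil)))))))) (.g (nat_lit 4) .nil .nil)))))))) 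
(.nd (nat_lit 1) (.nd (nat_lit 2) (.nd (nat_lit 3) (.nd (nat_lit 4) (.nd (nat_lit 5) 
(.lf (nat_lit 163969) (.g (nat_lit 1833) (.e (nat_lit 57464) (nat_lit 23) (.e (nat_lit 516145) (nat_lit 9) (.e (nat_lit 426428) (nat_lit 17) (.e (nat_lit 90172) (nat_lit 14) (.e (nat_lit 188160) (nat_lit 3) .nil))))) .nil)) 
(.lf (nat_lit 164001) (.g (nat_lit 2777) (.e (nat_lit 57464) (nat_lit 23) (.e (nat_lit 516151) (nat_lit 9) (.e (nat_lit 426170) (nat_lit 7) (.e (nat_lit 409631) (nat_lit 12) (.e (nat_lit 32793) (nat_lit 14) (.e (nat_lit 2942) (nat_lit 184) (.e (nat_lit 425987) (nat_lit 0) (.e (nat_lit 7582) (nat_lit 405) .nil)))))))) (.g (nat_lit 4) .nil .nil)))) (.nd (nat_lit 5) 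
(.lf (nat_lit 163985) (.g (nat_lit 4920) (.e (nat_lit 57464) (nat_lit 23) (.e (nat_lit 516151) (nat_lit 9) (.e (nat_lit 426042) (nat_lit 0) (.e (nat_lit 3307) (nat_lit 202) (.e (nat_lit 573489) (nat_lit 14) (.e (nat_lit 73755) (nat_lit 8) (.e (nat_lit 557090) (nat_lit 12) (.e (nat_lit 163843) (nat_lit 0) (.e (nat_lit 5807) (nat_lit 320) (.e (nat_lit 1175) (nat_lit 87) .nil)))))))))) (.g (nat_lit 6) .nil .nil))) 
(.lf (nat_lit 164017) (.g (nat_lit 1218) (.e (nat_lit 57464) (nat_lit 23) (.e (nat_lit 516151) (nat_lit 9) (.e (nat_lit 426171) (nat_lit 7) (.e (nat_lit 409631) (nat_lit 12) .nil)))) .nil)))) (.nd (nat_lit 4) (.nd (nat_lit 5) 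
(.lf (nat_lit 163977) (.g (nat_lit 4329) (.e (nat_lit 57464) (nat_lit 23) (.e (nat_lit 516151) (nat_lit 9) (.e (nat_lit 426042) (nat_lit 0) (.e (nat_lit 3307) (nat_lit 202) (.e (nat_lit 573484) (nat_lit 13) (.e (nat_lit 65642) (nat_lit 15) (.e (nat_lit 3253) (nat_lit 197) (.e (nat_lit 532503) (nat_lit 1) (.e (nat_lit 57870) (nat_lit 264) (.e (nat_lit 1172) (nat_lit 87) .nil)))))))))) (.g (nat_lit 5) .nil .nil))) 
(.lf (nat_lit 164009) (.g (nat_lit 2608) (.e (nat_lit 57464) (nat_lit 23) (.e (nat_lit 516151) (nat_lit 9) (.e (nat_lit 426170) (nat_lit 7) (.e (nat_lit 409631) (nat_lit 12) (.e (nat_lit 40704) (nat_lit 14) (.e (nat_lit 2936) (nat_lit 184) (.e (nat_lit 425984) (nat_lit 0) (.e (nat_lit 7582) (nat_lit 405) .nil)))))))) (.g (nat_lit 4) .nil .nil)))) (.nd (nat_lit 5) 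
(.lf (nat_lit 163993) (.g (nat_lit 5575) (.e (nat_lit 57464) (nat_lit 23) (.e (nat_lit 516151) (nat_lit 9) (.e (nat_lit 426042) (nat_lit 0) (.e (nat_lit 3307) (nat_lit 202) (.e (nat_lit 573489) (nat_lit 14) (.e (nat_lit 73755) (nat_lit 8) (.e (nat_lit 557090) (nat_lit 12) (.e (nat_lit 164007) (nat_lit 41) (.e (nat_lit 663564) (nat_lit 3) .nil))))))))) (.g (nat_lit 6) .nil .nil))) 
(.lf (nat_lit 164025) (.g (nat_lit 2864) (.e (nat_lit 57464) (nat_lit 23) (.e (nat_lit 516151) (nat_lit 9) (.e (nat_lit 426171) (nat_lit 7) (.e (nat_lit 409631) (nat_lit 12) (.e (nat_lit 32794) (nat_lit 14) (.e (nat_lit 2958) (nat_lit 185) (.e (nat_lit 442112) (nat_lit 3) .nil))))))) (.g (nat_lit 5) .nil .nil)))))) (.nd (nat_lit 3) (.nd (nat_lit 4) (.nd (nat_lit 5) 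
(.lf (nat_lit 163973) (.g (nat_lit 1688) (.e (nat_lit 57464) (nat_lit 23) (.e (nat_lit 516145) (nat_lit 9) (.e (nat_lit 426448) (nat_lit 20) (.e (nat_lit 114714) (nat_lit 22) .nil)))) .nil)) 
(.lf (nat_lit 164005) (.g (nat_lit 2714) (.e (nat_lit 57464) (nat_lit 23) (.e (nat_lit 516151) (nat_lit 9) (.e (nat_lit 426170) (nat_lit 7) (.e (nat_lit 409631) (nat_lit 12) (.e (nat_lit 32794) (nat_lit 14) (.e (nat_lit 2958) (nat_lit 185) (.e (nat_lit 442112) (nat_lit 3) .nil))))))) (.g (nat_lit 6) .nil .nil)))) (.nd (nat_lit 5) 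
(.lf (nat_lit 163989) (.g (nat_lit 4367) (.e (nat_lit 57464) (nat_lit 23) (.e (nat_lit 516151) (nat_lit 9) (.e (nat_lit 426042) (nat_lit 0) (.e (nat_lit 3307) (nat_lit 202) (.e (nat_lit 573489) (nat_lit 14) (.e (nat_lit 73755) (nat_lit 8) (.e (nat_lit 557090) (nat_lit 12) (.e (nat_lit 163844) (nat_lit 0) (.e (nat_lit 5809) (nat_lit 320) (.e (nat_lit 1175) (nat_lit 87) .nil)))))))))) (.g (nat_lit 6) .nil .nil))) 
(.lf (nat_lit 164021) (.g (nat_lit 2608) (.e (nat_lit 57464) (nat_lit 23) (.e (nat_lit 516151) (nat_lit 9) (.e (nat_lit 426171) (nat_lit 7) (.e (nat_lit 409631) (nat_lit 12) (.e (nat_lit 32794) (nat_lit 14) (.e (nat_lit 2822) (nat_lit 182) (.e (nat_lit 409605) (nat_lit 0) (.e (nat_lit 5394) (nat_lit 301) .nil)))))))) (.g (nat_lit 4) .nil .nil))))) (.nd (nat_lit 4) (.nd (nat_lit 5) 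
(.lf (nat_lit 163981) (.g (nat_lit 3571) (.e (nat_lit 57464) (nat_lit 23) (.e (nat_lit 516151) (nat_lit 9) (.e (nat_lit 426042) (nat_lit 0) (.e (nat_lit 3307) (nat_lit 202) (.e (nat_lit 573489) (nat_lit 14) (.e (nat_lit 73755) (nat_lit 8) (.e (nat_lit 557089) (nat_lit 12) (.e (nat_lit 164005) (nat_lit 41) (.e (nat_lit 663564) (nat_lit 3) .nil))))))))) (.g (nat_lit 5) .nil .nil))) 
(.lf (nat_lit 164013) (.g (nat_lit 2472) (.e (nat_lit 57464) (nat_lit 23) (.e (nat_lit 516151) (nat_lit 9) (.e (nat_lit 426170) (nat_lit 7) (.e (nat_lit 409631) (nat_lit 12) (.e (nat_lit 32808) (nat_lit 19) (.e (nat_lit 188160) (nat_lit 35) .nil)))))) (.g (nat_lit 5) .nil .nil)))) (.nd (nat_lit 5) 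
(.lf (nat_lit 163997) (.g (nat_lit 421) (.e (nat_lit 57464) (nat_lit 23) (.e (nat_lit 516151) (nat_lit 9) (.e (nat_lit 426170) (nat_lit 7) .nil))) .nil)) 
(.lf (nat_lit 164029) (.g (nat_lit 2690) (.e (nat_lit 57464) (nat_lit 23) (.e (nat_lit 516151) (nat_lit 9) (.e (nat_lit 426171) (nat_lit 7) (.e (nat_lit 409631) (nat_lit 12) (.e (nat_lit 32800) (nat_lit 14) (.e (nat_lit 2936) (nat_lit 184) (.e (nat_lit 425984) (nat_lit 0) (.e (nat_lit 7580) (nat_lit 405) .nil)))))))) (.g (nat_lit 4) .nil .nil))))))) 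
(.nd (nat_lit 2) (.nd (nat_lit 3) (.nd (nat_lit 4) (.nd (nat_lit 5) 
(.lf (nat_lit 163971) (.g (nat_lit 2437) (.e (nat_lit 57464) (nat_lit 23) (.e (nat_lit 516145) (nat_lit 9) (.e (nat_lit 426428) (nat_lit 17) (.e (nat_lit 90185) (nat_lit 17) (.e (nat_lit 237592) (nat_lit 3) (.e (nat_lit 204830) (nat_lit 18) (.e (nat_lit 57754) (nat_lit 209) (.e (nat_lit 1172) (nat_lit 87) .nil)))))))) (.g (nat_lit 4) .nil .nil))) 
(.lf (nat_lit 164003) (.g (nat_lit 2705) (.e (nat_lit 57464) (nat_lit 23) (.e (nat_lit 516151) (nat_lit 9) (.e (nat_lit 426170) (nat_lit 7) (.e (nat_lit 409631) (nat_lit 12) (.e (nat_lit 32794) (nat_lit 14) (.e (nat_lit 2828) (nat_lit 182) (.e (nat_lit 409604) (nat_lit 0) (.e (nat_lit 5394) (nat_lit 301) .nil)))))))) (.g (nat_lit 4) .nil .nil)))) (.nd (nat_lit 5) 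
(.lf (nat_lit 163987) (.g (nat_lit 3091) (.e (nat_lit 57464) (nat_lit 23) (.e (nat_lit 516151) (nat_lit 9) (.e (nat_lit 426042) (nat_lit 0) (.e (nat_lit 3307) (nat_lit 202) (.e (nat_lit 573489) (nat_lit 14) (.e (nat_lit 73755) (nat_lit 8) (.e (nat_lit 557090) (nat_lit 12) (.e (nat_lit 163844) (nat_lit 0) (.e (nat_lit 5806) (nat_lit 320) (.e (nat_lit 1175) (nat_lit 87) .nil)))))))))) (.g (nat_lit 4) .nil .nil))) 
(.lf (nat_lit 164019) (.g (nat_lit 2662) (.e (nat_lit 57464) (nat_lit 23) (.e (nat_lit 516151) (nat_lit 9) (.e (nat_lit 426171) (nat_lit 7) (.e (nat_lit 409631) (nat_lit 12) (.e (nat_lit 32793) (nat_lit 14) (.e (nat_lit 2936) (nat_lit 184) (.e (nat_lit 425987) (nat_lit 0) (.e (nat_lit 7582) (nat_lit 405) .nil)))))))) (.g (nat_lit 4) .nil .nil))))) (.nd (nat_lit 4) (.nd (nat_lit 5) 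
(.lf (nat_lit 163979) (.g (nat_lit 3246) (.e (nat_lit 57464) (nat_lit 23) (.e (nat_lit 516151) (nat_lit 9) (.e (nat_lit 426042) (nat_lit 0) (.e (nat_lit 3307) (nat_lit 202) (.e (nat_lit 573487) (nat_lit 14) (.e (nat_lit 73746) (nat_lit 3) (.e (nat_lit 516119) (nat_lit 1) (.e (nat_lit 164196) (nat_lit 158) (.e (nat_lit 1172) (nat_lit 87) .nil))))))))) (.g (nat_lit 4) .nil .nil))) 
(.lf (nat_lit 164011) (.g (nat_lit 3026) (.e (nat_lit 57464) (nat_lit 23) (.e (nat_lit 516151) (nat_lit 9) (.e (nat_lit 426170) (nat_lit 7) (.e (nat_lit 409631) (nat_lit 12) (.e (nat_lit 32805) (nat_lit 17) (.e (nat_lit 164207) (nat_lit 176) (.e (nat_lit 1079) (nat_lit 81) (.e (nat_lit 5394) (nat_lit 301) .nil)))))))) (.g (nat_lit 5) .nil .nil)))) (.nd (nat_lit 5) 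
(.lf (nat_lit 163995) (.g (nat_lit 5040) (.e (nat_lit 57464) (nat_lit 23) (.e (nat_lit 516151) (nat_lit 9) (.e (nat_lit 426042) (nat_lit 0) (.e (nat_lit 3307) (nat_lit 202) (.e (nat_lit 573489) (nat_lit 14) (.e (nat_lit 73755) (nat_lit 8) (.e (nat_lit 557091) (nat_lit 12) (.e (nat_lit 164007) (nat_lit 41) (.e (nat_lit 663564) (nat_lit 3) .nil))))))))) (.g (nat_lit 6) .nil .nil))) 
(.lf (nat_lit 164027) (.g (nat_lit 2857) (.e (nat_lit 57464) (nat_lit 23) (.e (nat_lit 516151) (nat_lit 9) (.e (nat_lit 426171) (nat_lit 7) (.e (nat_lit 409631) (nat_lit 12) (.e (nat_lit 32794) (nat_lit 14) (.e (nat_lit 2975) (nat_lit 185) (.e (nat_lit 442112) (nat_lit 3) .nil))))))) (.g (nat_lit 5) .nil .nil)))))) (.nd (nat_lit 3) (.nd (nat_lit 4) (.nd (nat_lit 5) 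
(.lf (nat_lit 163975) (.g (nat_lit 1469) (.e (nat_lit 57464) (nat_lit 23) (.e (nat_lit 516151) (nat_lit 9) (.e (nat_lit 426022) (nat_lit 0) (.e (nat_lit 7936) (nat_lit 405) .nil)))) .nil)) 
(.lf (nat_lit 164007) (.g (nat_lit 2707) (.e (nat_lit 57464) (nat_lit 23) (.e (nat_lit 516151) (nat_lit 9) (.e (nat_lit 426170) (nat_lit 7) (.e (nat_lit 409631) (nat_lit 12) (.e (nat_lit 32794) (nat_lit 14) (.e (nat_lit 2975) (nat_lit 185) (.e (nat_lit 442112) (nat_lit 3) .nil))))))) (.g (nat_lit 6) .nil .nil)))) (.nd (nat_lit 5) 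
(.lf (nat_lit 163991) (.g (nat_lit 4942) (.e (nat_lit 57464) (nat_lit 23) (.e (nat_lit 516151) (nat_lit 9) (.e (nat_lit 426042) (nat_lit 0) (.e (nat_lit 3307) (nat_lit 202) (.e (nat_lit 573489) (nat_lit 14) (.e (nat_lit 73755) (nat_lit 8) (.e (nat_lit 557090) (nat_lit 12) (.e (nat_lit 164005) (nat_lit 41) (.e (nat_lit 663564) (nat_lit 3) .nil))))))))) (.g (nat_lit 6) .nil .nil))) 
(.lf (nat_lit 164023) (.g (nat_lit 2932) (.e (nat_lit 57464) (nat_lit 23) (.e (nat_lit 516151) (nat_lit 9) (.e (nat_lit 426171) (nat_lit 7) (.e (nat_lit 409631) (nat_lit 12) (.e (nat_lit 32794) (nat_lit 14) (.e (nat_lit 2825) (nat_lit 182) (.e (nat_lit 409605) (nat_lit 0) (.e (nat_lit 5394) (nat_lit 301) .nil)))))))) (.g (nat_lit 4) .nil .nil))))) (.nd (nat_lit 4) (.nd (nat_lit 5) 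
(.lf (nat_lit 163983) (.g (nat_lit 5149) (.e (nat_lit 57464) (nat_lit 23) (.e (nat_lit 516151) (nat_lit 9) (.e (nat_lit 426042) (nat_lit 0) (.e (nat_lit 3307) (nat_lit 202) (.e (nat_lit 573489) (nat_lit 14) (.e (nat_lit 73755) (nat_lit 8) (.e (nat_lit 557089) (nat_lit 12) (.e (nat_lit 164007) (nat_lit 41) (.e (nat_lit 663564) (nat_lit 3) .nil))))))))) (.g (nat_lit 6) .nil .nil))) 
(.lf (nat_lit 164015) (.g (nat_lit 2534) (.e (nat_lit 57464) (nat_lit 23) (.e (nat_lit 516151) (nat_lit 9) (.e (nat_lit 426171) (nat_lit 7) (.e (nat_lit 409629) (nat_lit 12) (.e (nat_lit 32808) (nat_lit 19) (.e (nat_lit 188160) (nat_lit 35) .nil)))))) (.g (nat_lit 5) .nil .nil)))) (.nd (nat_lit 5) 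
(.lf (nat_lit 163999) (.g (nat_lit 2556) (.e (nat_lit 57464) (nat_lit 23) (.e (nat_lit 516151) (nat_lit 9) (.e (nat_lit 426170) (nat_lit 7) (.e (nat_lit 409631) (nat_lit 12) (.e (nat_lit 32793) (nat_lit 14) (.e (nat_lit 2937) (nat_lit 184) (.e (nat_lit 425984) (nat_lit 0) (.e (nat_lit 7582) (nat_lit 405) .nil)))))))) (.g (nat_lit 4) .nil .nil))) 
(.lf (nat_lit 164031) (.g (nat_lit 2667) (.e (nat_lit 57464) (nat_lit 23) (.e (nat_lit 516151) (nat_lit 9) (.e (nat_lit 426171) (nat_lit 7) (.e (nat_lit 409631) (nat_lit 12) (.e (nat_lit 32800) (nat_lit 14) (.e (nat_lit 2936) (nat_lit 184) (.e (nat_lit 425987) (nat_lit 0) (.e (nat_lit 7580) (nat_lit 405) .nil)))))))) (.g (nat_lit 4) .nil .nil)))))))))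

noncomputable def tv2200 : DT := (.nd (nat_lit 0) (.nd (nat_lit 1) (.nd (nat_lit 2) (.nd (nat_lit 3) (.nd (nat_lit 4) (.nd (nat_lit 5) 
(.lf (nat_lit 164032) (.g (nat_lit 2841) (.e (nat_lit 57464) (nat_lit 23) (.e (nat_lit 516151) (nat_lit 9) (.e (nat_lit 426171) (nat_lit 7) (.e (nat_lit 409631) (nat_lit 12) (.e (nat_lit 32800) (nat_lit 14) (.e (nat_lit 2936) (nat_lit 184) (.e (nat_lit 425987) (nat_lit 0) (.e (nat_lit 7582) (nat_lit 405) .nil)))))))) (.g (nat_lit 4) .nil .nil))) 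
(.lf (nat_lit 164064) (.g (nat_lit 3297) (.e (nat_lit 57464) (nat_lit 23) (.e (nat_lit 516151) (nat_lit 9) (.e (nat_lit 426211) (nat_lit 9) (.e (nat_lit 426125) (nat_lit 2) (.e (nat_lit 196617) (nat_lit 9) .nil))))) .nil))) (.nd (nat_lit 5) 
(.lf (nat_lit 164048) (.g (nat_lit 4094) (.e (nat_lit 57464) (nat_lit 23) (.e (nat_lit 516151) (nat_lit 9) (.e (nat_lit 426185) (nat_lit 9) (.e (nat_lit 426140) (nat_lit 3) (.e (nat_lit 204846) (nat_lit 24) (.e (nat_lit 319505) (nat_lit 10) (.e (nat_lit 7936) (nat_lit 301) .nil))))))) (.g (nat_lit 6) .nil .nil))) 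
(.lf (nat_lit 164080) (.g (nat_lit 3072) (.e (nat_lit 57464) (nat_lit 23) (.e (nat_lit 516151) (nat_lit 9) (.e (nat_lit 426211) (nat_lit 9) (.e (nat_lit 426125) (nat_lit 2) (.e (nat_lit 196683) (nat_lit 18) (.e (nat_lit 2491) (nat_lit 157) (.e (nat_lit 5001) (nat_lit 288) (.e (nat_lit 57896) (nat_lit 273) .nil)))))))) (.g (nat_lit 4) .nil .nil))))) (.nd (nat_lit 4) (.nd (nat_lit 5) 
(.lf (nat_lit 164040) (.g (nat_lit 2623) (.e (nat_lit 57464) (nat_lit 23) (.e (nat_lit 516151) (nat_lit 9) (.e (nat_lit 426185) (nat_lit 9) (.e (nat_lit 426125) (nat_lit 2) (.e (nat_lit 196661) (nat_lit 12) (.e (nat_lit 57712) (nat_lit 176) (.e (nat_lit 1081) (nat_lit 81) (.e (nat_lit 5394) (nat_lit 301) .nil)))))))) (.g (nat_lit 4) .nil .nil))) 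
(.lf (nat_lit 164072) (.g (nat_lit 4526) (.e (nat_lit 57464) (nat_lit 23) (.e (nat_lit 516151) (nat_lit 9) (.e (nat_lit 426211) (nat_lit 9) (.e (nat_lit 426125) (nat_lit 2) (.e (nat_lit 196638) (nat_lit 9) (.e (nat_lit 1410) (nat_lit 107) (.e (nat_lit 327708) (nat_lit 10) (.e (nat_lit 5394) (nat_lit 301) .nil)))))))) (.g (nat_lit 4) .nil .nil)))) (.nd (nat_lit 5) 
(.lf (nat_lit 164056) (.g (nat_lit 808) (.e (nat_lit 57464) (nat_lit 23) (.e (nat_lit 516151) (nat_lit 9) (.e (nat_lit 426206) (nat_lit 9) .nil))) .nil)) 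
(.lf (nat_lit 164088) (.g (nat_lit 3829) (.e (nat_lit 57464) (nat_lit 23) (.e (nat_lit 516151) (nat_lit 9) (.e (nat_lit 426211) (nat_lit 9) (.e (nat_lit 426125) (nat_lit 2) (.e (nat_lit 196686) (nat_lit 18) (.e (nat_lit 2513) (nat_lit 157) (.e (nat_lit 5001) (nat_lit 288) (.e (nat_lit 57896) (nat_lit 273) .nil)))))))) (.g (nat_lit 4) .nil .nil)))))) 
(.nd (nat_lit 3) (.nd (nat_lit 4) (.nd (nat_lit 5) 
(.lf (nat_lit 164036) (.g (nat_lit 809) (.e (nat_lit 57464) (nat_lit 23) (.e (nat_lit 516151) (nat_lit 9) (.e (nat_lit 426173) (nat_lit 7) .nil))) .nil)) 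
(.lf (nat_lit 164068) (.g (nat_lit 3145) (.e (nat_lit 57464) (nat_lit 23) (.e (nat_lit 516151) (nat_lit 9) (.e (nat_lit 426211) (nat_lit 9) (.e (nat_lit 426125) (nat_lit 2) (.e (nat_lit 196628) (nat_lit 9) .nil))))) .nil))) (.nd (nat_lit 5) 
(.lf (nat_lit 164052) (.g (nat_lit 826) (.e (nat_lit 57464) (nat_lit 23) (.e (nat_lit 516151) (nat_lit 9) (.e (nat_lit 426195) (nat_lit 9) .nil))) .nil)) 
(.lf (nat_lit 164084) (.g (nat_lit 3721) (.e (nat_lit 57464) (nat_lit 23) (.e (nat_lit 516151) (nat_lit 9) (.e (nat_lit 426211) (nat_lit 9) (.e (nat_lit 426125) (nat_lit 2) (.e (nat_lit 196686) (nat_lit 18) (.e (nat_lit 2487) (nat_lit 157) (.e (nat_lit 5001) (nat_lit 288) (.e (nat_lit 57896) (nat_lit 273) .nil)))))))) (.g (nat_lit 4) .nil .nil))))) (.nd (nat_lit 4) (.nd (nat_lit 5) 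
(.lf (nat_lit 164044) (.g (nat_lit 3591) (.e (nat_lit 57464) (nat_lit 23) (.e (nat_lit 516151) (nat_lit 9) (.e (nat_lit 426185) (nat_lit 9) (.e (nat_lit 426140) (nat_lit 3) (.e (nat_lit 204846) (nat_lit 24) (.e (nat_lit 319504) (nat_lit 10) (.e (nat_lit 5390) (nat_lit 301) .nil))))))) (.g (nat_lit 5) .nil .nil))) 
(.lf (nat_lit 164076) (.g (nat_lit 3885) (.e (nat_lit 57464) (nat_lit 23) (.e (nat_lit 516151) (nat_lit 9) (.e (nat_lit 426211) (nat_lit 9) (.e (nat_lit 426125) (nat_lit 2) (.e (nat_lit 196643) (nat_lit 9) (.e (nat_lit 1410) (nat_lit 107) (.e (nat_lit 327708) (nat_lit 10) (.e (nat_lit 5394) (nat_lit 301) .nil)))))))) (.g (nat_lit 4) .nil .nil)))) (.nd (nat_lit 5) 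
(.lf (nat_lit 164060) (.g (nat_lit 800) (.e (nat_lit 57464) (nat_lit 23) (.e (nat_lit 516151) (nat_lit 9) (.e (nat_lit 426210) (nat_lit 9) .nil))) .nil)) 
(.lf (nat_lit 164092) (.g (nat_lit 2962) (.e (nat_lit 57464) (nat_lit 23) (.e (nat_lit 516151) (nat_lit 9) (.e (nat_lit 426211) (nat_lit 9) (.e (nat_lit 426125) (nat_lit 2) (.e (nat_lit 204544) (nat_lit 18) (.e (nat_lit 2525) (nat_lit 157) (.e (nat_lit 5002) (nat_lit 288) (.e (nat_lit 57896) (nat_lit 273) .nil)))))))) (.g (nat_lit 4) .nil .nil))))))) 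
(.nd (nat_lit 2) (.nd (nat_lit 3) (.nd (nat_lit 4) (.nd (nat_lit 5) 
(.lf (nat_lit 164034) (.g (nat_lit 2921) (.e (nat_lit 57464) (nat_lit 23) (.e (nat_lit 516151) (nat_lit 9) (.e (nat_lit 426171) (nat_lit 7) (.e (nat_lit 409631) (nat_lit 12) (.e (nat_lit 40704) (nat_lit 14) (.e (nat_lit 2939) (nat_lit 184) (.e (nat_lit 425987) (nat_lit 0) (.e (nat_lit 7582) (nat_lit 405) .nil)))))))) (.g (nat_lit 4) .nil .nil))) 
(.lf (nat_lit 164066) (.g (nat_lit 3796) (.e (nat_lit 57464) (nat_lit 23) (.e (nat_lit 516151) (nat_lit 9) (.e (nat_lit 426211) (nat_lit 9) (.e (nat_lit 426125) (nat_lit 2) (.e (nat_lit 196626) (nat_lit 9) (.e (nat_lit 1400) (nat_lit 106) (.e (nat_lit 319505) (nat_lit 10) (.e (nat_lit 7936) (nat_lit 301) .nil)))))))) (.g (nat_lit 4) .nil .nil)))) (.nd (nat_lit 5) 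
(.lf (nat_lit 164050) (.g (nat_lit 809) (.e (nat_lit 57464) (nat_lit 23) (.e (nat_lit 516151) (nat_lit 9) (.e (nat_lit 426192) (nat_lit 9) .nil))) .nil)) 
(.lf (nat_lit 164082) (.g (nat_lit 2971) (.e (nat_lit 57464) (nat_lit 23) (.e (nat_lit 516151) (nat_lit 9) (.e (nat_lit 426211) (nat_lit 9) (.e (nat_lit 426125) (nat_lit 2) (.e (nat_lit 196683) (nat_lit 18) (.e (nat_lit 2774) (nat_lit 177) (.e (nat_lit 278550) (nat_lit 10) (.e (nat_lit 5395) (nat_lit 301) .nil)))))))) (.g (nat_lit 4) .nil .nil))))) (.nd (nat_lit 4) (.nd (nat_lit 5) 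
(.lf (nat_lit 164042) (.g (nat_lit 2347) (.e (nat_lit 57464) (nat_lit 23) (.e (nat_lit 516151) (nat_lit 9) (.e (nat_lit 426185) (nat_lit 9) (.e (nat_lit 426125) (nat_lit 2) (.e (nat_lit 196661) (nat_lit 12) (.e (nat_lit 57722) (nat_lit 178) (.e (nat_lit 123212) (nat_lit 273) .nil))))))) (.g (nat_lit 4) .nil .nil))) 
(.lf (nat_lit 164074) (.g (nat_lit 3636) (.e (nat_lit 57464) (nat_lit 23) (.e (nat_lit 516151) (nat_lit 9) (.e (nat_lit 426211) (nat_lit 9) (.e (nat_lit 426125) (nat_lit 2) (.e (nat_lit 196641) (nat_lit 9) .nil))))) .nil))) (.nd (nat_lit 5) 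
(.lf (nat_lit 164058) (.g (nat_lit 809) (.e (nat_lit 57464) (nat_lit 23) (.e (nat_lit 516151) (nat_lit 9) (.e (nat_lit 426207) (nat_lit 9) .nil))) .nil)) 
(.lf (nat_lit 164090) (.g (nat_lit 3784) (.e (nat_lit 57464) (nat_lit 23) (.e (nat_lit 516151) (nat_lit 9) (.e (nat_lit 426211) (nat_lit 9) (.e (nat_lit 426125) (nat_lit 2) (.e (nat_lit 196686) (nat_lit 18) (.e (nat_lit 2517) (nat_lit 157) (.e (nat_lit 5001) (nat_lit 288) (.e (nat_lit 57896) (nat_lit 273) .nil)))))))) (.g (nat_lit 4) .nil .nil)))))) 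
(.nd (nat_lit 3) (.nd (nat_lit 4) (.nd (nat_lit 5) 
(.lf (nat_lit 164038) (.g (nat_lit 430) (.e (nat_lit 57464) (nat_lit 23) (.e (nat_lit 516151) (nat_lit 9) (.e (nat_lit 426185) (nat_lit 9) .nil))) .nil)) 
(.lf (nat_lit 164070) (.g (nat_lit 4181) (.e (nat_lit 57464) (nat_lit 23) (.e (nat_lit 516151) (nat_lit 9) (.e (nat_lit 426211) (nat_lit 9) (.e (nat_lit 426125) (nat_lit 2) (.e (nat_lit 196632) (nat_lit 9) (.e (nat_lit 1410) (nat_lit 107) (.e (nat_lit 327708) (nat_lit 10) (.e (nat_lit 5394) (nat_lit 301) .nil)))))))) (.g (nat_lit 4) .nil .nil)))) (.nd (nat_lit 5) 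
(.lf (nat_lit 164054) (.g (nat_lit 809) (.e (nat_lit 57464) (nat_lit 23) (.e (nat_lit 516151) (nat_lit 9) (.e (nat_lit 426203) (nat_lit 9) .nil))) .nil)) 
(.lf (nat_lit 164086) (.g (nat_lit 3808) (.e (nat_lit 57464) (nat_lit 23) (.e (nat_lit 516151) (nat_lit 9) (.e (nat_lit 426211) (nat_lit 9) (.e (nat_lit 426125) (nat_lit 2) (.e (nat_lit 196686) (nat_lit 18) (.e (nat_lit 2489) (nat_lit 157) (.e (nat_lit 5001) (nat_lit 288) (.e (nat_lit 57896) (nat_lit 273) .nil)))))))) (.g (nat_lit 4) .nil .nil))))) (.nd (nat_lit 4) (.nd (nat_lit 5) 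
(.lf (nat_lit 164046) (.g (nat_lit 3055) (.e (nat_lit 57464) (nat_lit 23) (.e (nat_lit 516151) (nat_lit 9) (.e (nat_lit 426185) (nat_lit 9) (.e (nat_lit 426140) (nat_lit 3) (.e (nat_lit 204846) (nat_lit 24) (.e (nat_lit 319505) (nat_lit 10) (.e (nat_lit 5390) (nat_lit 301) .nil))))))) (.g (nat_lit 5) .nil .nil))) 
(.lf (nat_lit 164078) (.g (nat_lit 3666) (.e (nat_lit 57464) (nat_lit 23) (.e (nat_lit 516151) (nat_lit 9) (.e (nat_lit 426211) (nat_lit 9) (.e (nat_lit 426125) (nat_lit 2) (.e (nat_lit 196683) (nat_lit 18) (.e (nat_lit 2414) (nat_lit 157) (.e (nat_lit 5003) (nat_lit 288) (.e (nat_lit 57896) (nat_lit 273) .nil)))))))) (.g (nat_lit 4) .nil .nil)))) (.nd (nat_lit 5) 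
(.lf (nat_lit 164062) (.g (nat_lit 2770) (.e (nat_lit 57464) (nat_lit 23) (.e (nat_lit 516151) (nat_lit 9) (.e (nat_lit 426210) (nat_lit 9) (.e (nat_lit 426140) (nat_lit 3) (.e (nat_lit 204846) (nat_lit 24) (.e (nat_lit 319511) (nat_lit 10) (.e (nat_lit 5394) (nat_lit 301) .nil))))))) (.g (nat_lit 4) .nil .nil))) 
(.lf (nat_lit 164094) (.g (nat_lit 3675) (.e (nat_lit 57464) (nat_lit 23) (.e (nat_lit 516151) (nat_lit 9) (.e (nat_lit 426211) (nat_lit 9) (.e (nat_lit 426125) (nat_lit 2) (.e (nat_lit 196700) (nat_lit 22) (.e (nat_lit 229622) (nat_lit 222) (.e (nat_lit 57896) (nat_lit 273) .nil))))))) (.g (nat_lit 4) .nil .nil)))))))) 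
(.nd (nat_lit 1) (.nd (nat_lit 2) (.nd (nat_lit 3) (.nd (nat_lit 4) (.nd (nat_lit 5) 
(.lf (nat_lit 164033) (.g (nat_lit 2742) (.e (nat_lit 57464) (nat_lit 23) (.e (nat_lit 516151) (nat_lit 9) (.e (nat_lit 426171) (nat_lit 7) (.e (nat_lit 409631) (nat_lit 12) (.e (nat_lit 40704) (nat_lit 14) (.e (nat_lit 2939) (nat_lit 184) (.e (nat_lit 425987) (nat_lit 0) (.e (nat_lit 7580) (nat_lit 405) .nil)))))))) (.g (nat_lit 4) .nil .nil))) 
(.lf (nat_lit 164065) (.g (nat_lit 4318) (.e (nat_lit 57464) (nat_lit 23) (.e (nat_lit 516151) (nat_lit 9) (.e (nat_lit 426211) (nat_lit 9) (.e (nat_lit 426125) (nat_lit 2) (.e (nat_lit 196617) (nat_lit 9) (.e (nat_lit 1410) (nat_lit 107) (.e (nat_lit 327708) (nat_lit 10) (.e (nat_lit 5394) (nat_lit 301) .nil)))))))) (.g (nat_lit 4) .nil .nil)))) (.nd (nat_lit 5) 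
(.lf (nat_lit 164049) (.g (nat_lit 3782) (.e (nat_lit 57464) (nat_lit 23) (.e (nat_lit 516151) (nat_lit 9) (.e (nat_lit 426185) (nat_lit 9) (.e (nat_lit 426140) (nat_lit 3) (.e (nat_lit 204846) (nat_lit 24) (.e (nat_lit 319511) (nat_lit 10) (.e (nat_lit 5394) (nat_lit 301) .nil))))))) (.g (nat_lit 5) .nil .nil))) 
(.lf (nat_lit 164081) (.g (nat_lit 4259) (.e (nat_lit 57464) (nat_lit 23) (.e (nat_lit 516151) (nat_lit 9) (.e (nat_lit 426211) (nat_lit 9) (.e (nat_lit 426125) (nat_lit 2) (.e (nat_lit 196683) (nat_lit 18) (.e (nat_lit 2525) (nat_lit 157) (.e (nat_lit 5002) (nat_lit 288) (.e (nat_lit 57896) (nat_lit 273) .nil)))))))) (.g (nat_lit 4) .nil .nil))))) (.nd (nat_lit 4) (.nd (nat_lit 5) 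
(.lf (nat_lit 164041) (.g (nat_lit 2318) (.e (nat_lit 57464) (nat_lit 23) (.e (nat_lit 516151) (nat_lit 9) (.e (nat_lit 426185) (nat_lit 9) (.e (nat_lit 426125) (nat_lit 2) (.e (nat_lit 196661) (nat_lit 12) (.e (nat_lit 57721) (nat_lit 177) (.e (nat_lit 57896) (nat_lit 273) .nil))))))) (.g (nat_lit 4) .nil .nil))) 
(.lf (nat_lit 164073) (.g (nat_lit 3657) (.e (nat_lit 57464) (nat_lit 23) (.e (nat_lit 516151) (nat_lit 9) (.e (nat_lit 426211) (nat_lit 9) (.e (nat_lit 426125) (nat_lit 2) (.e (nat_lit 196640) (nat_lit 9) .nil))))) .nil))) (.nd (nat_lit 5) 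
(.lf (nat_lit 164057) (.g (nat_lit 1854) (.e (nat_lit 57464) (nat_lit 23) (.e (nat_lit 516151) (nat_lit 9) (.e (nat_lit 426206) (nat_lit 9) (.e (nat_lit 426125) (nat_lit 2) (.e (nat_lit 196661) (nat_lit 12) .nil))))) .nil)) 
(.lf (nat_lit 164089) (.g (nat_lit 3067) (.e (nat_lit 57464) (nat_lit 23) (.e (nat_lit 516151) (nat_lit 9) (.e (nat_lit 426211) (nat_lit 9) (.e (nat_lit 426125) (nat_lit 2) (.e (nat_lit 196686) (nat_lit 18) (.e (nat_lit 2517) (nat_lit 157) (.e (nat_lit 4990) (nat_lit 288) (.e (nat_lit 57896) (nat_lit 273) .nil)))))))) (.g (nat_lit 4) .nil .nil)))))) 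
(.nd (nat_lit 3) (.nd (nat_lit 4) (.nd (nat_lit 5) 
(.lf (nat_lit 164037) (.g (nat_lit 1914) (.e (nat_lit 57464) (nat_lit 23) (.e (nat_lit 516151) (nat_lit 9) (.e (nat_lit 426173) (nat_lit 7) (.e (nat_lit 409616) (nat_lit 10) (.e (nat_lit 7936) (nat_lit 43) .nil))))) .nil)) 
(.lf (nat_lit 164069) (.g (nat_lit 3929) (.e (nat_lit 57464) (nat_lit 23) (.e (nat_lit 516151) (nat_lit 9) (.e (nat_lit 426211) (nat_lit 9) (.e (nat_lit 426125) (nat_lit 2) (.e (nat_lit 196631) (nat_lit 9) (.e (nat_lit 1410) (nat_lit 107) (.e (nat_lit 327708) (nat_lit 10) (.e (nat_lit 5394) (nat_lit 301) .nil)))))))) (.g (nat_lit 4) .nil .nil)))) (.nd (nat_lit 5) 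
(.lf (nat_lit 164053) (.g (nat_lit 2943) (.e (nat_lit 57464) (nat_lit 23) (.e (nat_lit 516151) (nat_lit 9) (.e (nat_lit 426195) (nat_lit 9) (.e (nat_lit 426402) (nat_lit 15) (.e (nat_lit 1849) (nat_lit 124) (.e (nat_lit 557104) (nat_lit 14) (.e (nat_lit 188160) (nat_lit 35) .nil))))))) (.g (nat_lit 5) .nil .nil))) 
(.lf (nat_lit 164085) (.g (nat_lit 3013) (.e (nat_lit 57464) (nat_lit 23) (.e (nat_lit 516151) (nat_lit 9) (.e (nat_lit 426211) (nat_lit 9) (.e (nat_lit 426125) (nat_lit 2) (.e (nat_lit 196686) (nat_lit 18) (.e (nat_lit 2489) (nat_lit 157) (.e (nat_lit 4990) (nat_lit 288) (.e (nat_lit 57896) (nat_lit 273) .nil)))))))) (.g (nat_lit 4) .nil .nil))))) (.nd (nat_lit 4) (.nd (nat_lit 5) 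
(.lf (nat_lit 164045) (.g (nat_lit 2802) (.e (nat_lit 57464) (nat_lit 23) (.e (nat_lit 516151) (nat_lit 9) (.e (nat_lit 426185) (nat_lit 9) (.e (nat_lit 426140) (nat_lit 3) (.e (nat_lit 204846) (nat_lit 24) (.e (nat_lit 319504) (nat_lit 10) (.e (nat_lit 7936) (nat_lit 301) .nil))))))) (.g (nat_lit 5) .nil .nil))) 
(.lf (nat_lit 164077) (.g (nat_lit 2958) (.e (nat_lit 57464) (nat_lit 23) (.e (nat_lit 516151) (nat_lit 9) (.e (nat_lit 426211) (nat_lit 9) (.e (nat_lit 426125) (nat_lit 2) (.e (nat_lit 196683) (nat_lit 18) .nil))))) .nil))) (.nd (nat_lit 5) 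
(.lf (nat_lit 164061) (.g (nat_lit 3307) (.e (nat_lit 57464) (nat_lit 23) (.e (nat_lit 516151) (nat_lit 9) (.e (nat_lit 426210) (nat_lit 9) (.e (nat_lit 426140) (nat_lit 3) (.e (nat_lit 204846) (nat_lit 24) (.e (nat_lit 319505) (nat_lit 10) (.e (nat_lit 5395) (nat_lit 301) .nil))))))) (.g (nat_lit 5) .nil .nil))) 
(.lf (nat_lit 164093) (.g (nat_lit 2794) (.e (nat_lit 57464) (nat_lit 23) (.e (nat_lit 516151) (nat_lit 9) (.e (nat_lit 426211) (nat_lit 9) (.e (nat_lit 426125) (nat_lit 2) (.e (nat_lit 196700) (nat_lit 22) (.e (nat_lit 229621) (nat_lit 222) (.e (nat_lit 57896) (nat_lit 273) .nil))))))) (.g (nat_lit 4) .nil .nil))))))) (.nd (nat_lit 2) (.nd (nat_lit 3) (.nd (nat_lit 4) (.nd (nat_lit 5) 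
(.lf (nat_lit 164035) (.g (nat_lit 2278) (.e (nat_lit 57464) (nat_lit 23) (.e (nat_lit 516151) (nat_lit 9) (.e (nat_lit 426171) (nat_lit 7) (.e (nat_lit 409631) (nat_lit 12) (.e (nat_lit 32808) (nat_lit 19) (.e (nat_lit 188160) (nat_lit 35) .nil)))))) (.g (nat_lit 4) .nil .nil))) 
(.lf (nat_lit 164067) (.g (nat_lit 3624) (.e (nat_lit 57464) (nat_lit 23) (.e (nat_lit 516151) (nat_lit 9) (.e (nat_lit 426211) (nat_lit 9) (.e (nat_lit 426125) (nat_lit 2) (.e (nat_lit 196626) (nat_lit 9) (.e (nat_lit 1400) (nat_lit 106) (.e (nat_lit 319511) (nat_lit 10) (.e (nat_lit 5394) (nat_lit 301) .nil)))))))) (.g (nat_lit 4) .nil .nil)))) (.nd (nat_lit 5) 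
(.lf (nat_lit 164051) (.g (nat_lit 809) (.e (nat_lit 57464) (nat_lit 23) (.e (nat_lit 516151) (nat_lit 9) (.e (nat_lit 426194) (nat_lit 9) .nil))) .nil)) 
(.lf (nat_lit 164083) (.g (nat_lit 2998) (.e (nat_lit 57464) (nat_lit 23) (.e (nat_lit 516151) (nat_lit 9) (.e (nat_lit 426211) (nat_lit 9) (.e (nat_lit 426125) (nat_lit 2) (.e (nat_lit 196686) (nat_lit 18) (.e (nat_lit 2487) (nat_lit 157) (.e (nat_lit 4990) (nat_lit 288) (.e (nat_lit 57896) (nat_lit 273) .nil)))))))) (.g (nat_lit 4) .nil .nil))))) (.nd (nat_lit 4) (.nd (nat_lit 5) 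
(.lf (nat_lit 164043) (.g (nat_lit 4536) (.e (nat_lit 57464) (nat_lit 23) (.e (nat_lit 516151) (nat_lit 9) (.e (nat_lit 426185) (nat_lit 9) (.e (nat_lit 426140) (nat_lit 3) (.e (nat_lit 204846) (nat_lit 24) (.e (nat_lit 319504) (nat_lit 10) (.e (nat_lit 5389) (nat_lit 301) .nil))))))) (.g (nat_lit 6) .nil .nil))) 
(.lf (nat_lit 164075) (.g (nat_lit 3981) (.e (nat_lit 57464) (nat_lit 23) (.e (nat_lit 516151) (nat_lit 9) (.e (nat_lit 426211) (nat_lit 9) (.e (nat_lit 426125) (nat_lit 2) (.e (nat_lit 196642) (nat_lit 9) (.e (nat_lit 1410) (nat_lit 107) (.e (nat_lit 327708) (nat_lit 10) (.e (nat_lit 5394) (nat_lit 301) .nil)))))))) (.g (nat_lit 4) .nil .nil)))) (.nd (nat_lit 5) 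
(.lf (nat_lit 164059) (.g (nat_lit 808) (.e (nat_lit 57464) (nat_lit 23) (.e (nat_lit 516151) (nat_lit 9) (.e (nat_lit 426209) (nat_lit 9) .nil))) .nil)) 
(.lf (nat_lit 164091) (.g (nat_lit 3152) (.e (nat_lit 57464) (nat_lit 23) (.e (nat_lit 516151) (nat_lit 9) (.e (nat_lit 426211) (nat_lit 9) (.e (nat_lit 426125) (nat_lit 2) (.e (nat_lit 204544) (nat_lit 18) (.e (nat_lit 2437) (nat_lit 157) (.e (nat_lit 5000) (nat_lit 288) (.e (nat_lit 57896) (nat_lit 273) .nil)))))))) (.g (nat_lit 4) .nil .nil)))))) 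
(.nd (nat_lit 3) (.nd (nat_lit 4) (.nd (nat_lit 5) 
(.lf (nat_lit 164039) (.g (nat_lit 2623) (.e (nat_lit 57464) (nat_lit 23) (.e (nat_lit 516151) (nat_lit 9) (.e (nat_lit 426185) (nat_lit 9) (.e (nat_lit 426125) (nat_lit 2) (.e (nat_lit 196661) (nat_lit 12) (.e (nat_lit 57712) (nat_lit 176) (.e (nat_lit 980) (nat_lit 81) (.e (nat_lit 5394) (nat_lit 301) .nil)))))))) (.g (nat_lit 4) .nil .nil))) 
(.lf (nat_lit 164071) (.g (nat_lit 4342) (.e (nat_lit 57464) (nat_lit 23) (.e (nat_lit 516151) (nat_lit 9) (.e (nat_lit 426211) (nat_lit 9) (.e (nat_lit 426125) (nat_lit 2) (.e (nat_lit 196637) (nat_lit 9) (.e (nat_lit 1410) (nat_lit 107) (.e (nat_lit 327708) (nat_lit 10) (.e (nat_lit 5394) (nat_lit 301) .nil)))))))) (.g (nat_lit 4) .nil .nil)))) (.nd (nat_lit 5) 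
(.lf (nat_lit 164055) (.g (nat_lit 809) (.e (nat_lit 57464) (nat_lit 23) (.e (nat_lit 516151) (nat_lit 9) (.e (nat_lit 426205) (nat_lit 9) .nil))) .nil)) 
(.lf (nat_lit 164087) (.g (nat_lit 3112) (.e (nat_lit 57464) (nat_lit 23) (.e (nat_lit 516151) (nat_lit 9) (.e (nat_lit 426211) (nat_lit 9) (.e (nat_lit 426125) (nat_lit 2) (.e (nat_lit 196686) (nat_lit 18) (.e (nat_lit 2513) (nat_lit 157) (.e (nat_lit 4990) (nat_lit 288) (.e (nat_lit 57896) (nat_lit 273) .nil)))))))) (.g (nat_lit 4) .nil .nil))))) (.nd (nat_lit 4) (.nd (nat_lit 5) 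
(.lf (nat_lit 164047) (.g (nat_lit 4236) (.e (nat_lit 57464) (nat_lit 23) (.e (nat_lit 516151) (nat_lit 9) (.e (nat_lit 426185) (nat_lit 9) (.e (nat_lit 426140) (nat_lit 3) (.e (nat_lit 204846) (nat_lit 24) (.e (nat_lit 319505) (nat_lit 10) (.e (nat_lit 5395) (nat_lit 301) .nil))))))) (.g (nat_lit 6) .nil .nil))) 
(.lf (nat_lit 164079) (.g (nat_lit 3117) (.e (nat_lit 57464) (nat_lit 23) (.e (nat_lit 516151) (nat_lit 9) (.e (nat_lit 426211) (nat_lit 9) (.e (nat_lit 426125) (nat_lit 2) (.e (nat_lit 196683) (nat_lit 18) (.e (nat_lit 2490) (nat_lit 157) (.e (nat_lit 5001) (nat_lit 288) (.e (nat_lit 57896) (nat_lit 273) .nil)))))))) (.g (nat_lit 4) .nil .nil)))) (.nd (nat_lit 5) 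
(.lf (nat_lit 164063) (.g (nat_lit 1029) (.e (nat_lit 57464) (nat_lit 23) (.e (nat_lit 516151) (nat_lit 9) (.e (nat_lit 426211) (nat_lit 9) (.e (nat_lit 426125) (nat_lit 2) .nil)))) .nil)) 
(.lf (nat_lit 164095) (.g (nat_lit 3498) (.e (nat_lit 57464) (nat_lit 23) (.e (nat_lit 516151) (nat_lit 9) (.e (nat_lit 426211) (nat_lit 9) (.e (nat_lit 426125) (nat_lit 2) (.e (nat_lit 196700) (nat_lit 22) (.e (nat_lit 229696) (nat_lit 252) (.e (nat_lit 237312) (nat_lit 190) .nil))))))) (.g (nat_lit 4) .nil .nil)))))))))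

noncomputable def tv2201 : DT := (.nd (nat_lit 0) (.nd (nat_lit 1) (.nd (nat_lit 2) (.nd (nat_lit 3) (.nd (nat_lit 4) (.nd (nat_lit 5) 
(.lf (nat_lit 164096) (.g (nat_lit 3652) (.e (nat_lit 57464) (nat_lit 23) (.e (nat_lit 516151) (nat_lit 9) (.e (nat_lit 426211) (nat_lit 9) (.e (nat_lit 426140) (nat_lit 3) (.e (nat_lit 204845) (nat_lit 24) (.e (nat_lit 319497) (nat_lit 10) (.e (nat_lit 5389) (nat_lit 301) .nil))))))) (.g (nat_lit 4) .nil .nil))) 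
(.lf (nat_lit 164128) (.g (nat_lit 613) (.e (nat_lit 57464) (nat_lit 23) (.e (nat_lit 516151) (nat_lit 9) (.e (nat_lit 426216) (nat_lit 9) .nil))) .nil))) (.nd (nat_lit 5) 
(.lf (nat_lit 164112) (.g (nat_lit 804) (.e (nat_lit 57464) (nat_lit 23) (.e (nat_lit 516151) (nat_lit 9) (.e (nat_lit 426214) (nat_lit 9) .nil))) .nil)) 
(.lf (nat_lit 164144) (.g (nat_lit 4133) (.e (nat_lit 57464) (nat_lit 23) (.e (nat_lit 516151) (nat_lit 9) (.e (nat_lit 426219) (nat_lit 9) (.e (nat_lit 426412) (nat_lit 15) (.e (nat_lit 1856) (nat_lit 124) (.e (nat_lit 557103) (nat_lit 14) (.e (nat_lit 188160) (nat_lit 35) .nil))))))) (.g (nat_lit 5) .nil .nil))))) (.nd (nat_lit 4) (.nd (nat_lit 5) 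
(.lf (nat_lit 164104) (.g (nat_lit 3783) (.e (nat_lit 57464) (nat_lit 23) (.e (nat_lit 516151) (nat_lit 9) (.e (nat_lit 426211) (nat_lit 9) (.e (nat_lit 426140) (nat_lit 3) (.e (nat_lit 204846) (nat_lit 24) (.e (nat_lit 319505) (nat_lit 10) (.e (nat_lit 7936) (nat_lit 301) .nil))))))) (.g (nat_lit 4) .nil .nil))) 
(.lf (nat_lit 164136) (.g (nat_lit 4185) (.e (nat_lit 57464) (nat_lit 23) (.e (nat_lit 516151) (nat_lit 9) (.e (nat_lit 426216) (nat_lit 9) (.e (nat_lit 426140) (nat_lit 3) (.e (nat_lit 204846) (nat_lit 24) (.e (nat_lit 319504) (nat_lit 10) (.e (nat_lit 5396) (nat_lit 301) .nil))))))) (.g (nat_lit 5) .nil .nil)))) (.nd (nat_lit 5) 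
(.lf (nat_lit 164120) (.g (nat_lit 4569) (.e (nat_lit 57464) (nat_lit 23) (.e (nat_lit 516151) (nat_lit 9) (.e (nat_lit 426215) (nat_lit 9) (.e (nat_lit 426140) (nat_lit 3) (.e (nat_lit 204846) (nat_lit 24) (.e (nat_lit 319504) (nat_lit 10) (.e (nat_lit 5396) (nat_lit 301) .nil))))))) (.g (nat_lit 6) .nil .nil))) 
(.lf (nat_lit 164152) (.g (nat_lit 2495) (.e (nat_lit 57464) (nat_lit 23) (.e (nat_lit 516151) (nat_lit 9) (.e (nat_lit 426268) (nat_lit 9) (.e (nat_lit 426124) (nat_lit 2) (.e (nat_lit 196677) (nat_lit 16) (.e (nat_lit 123080) (nat_lit 177) (.e (nat_lit 57896) (nat_lit 273) .nil))))))) (.g (nat_lit 4) .nil .nil)))))) (.nd (nat_lit 3) (.nd (nat_lit 4) (.nd (nat_lit 5) 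
(.lf (nat_lit 164100) (.g (nat_lit 2980) (.e (nat_lit 57464) (nat_lit 23) (.e (nat_lit 516151) (nat_lit 9) (.e (nat_lit 426211) (nat_lit 9) (.e (nat_lit 426140) (nat_lit 3) (.e (nat_lit 204845) (nat_lit 24) (.e (nat_lit 319505) (nat_lit 10) (.e (nat_lit 5395) (nat_lit 301) .nil))))))) (.g (nat_lit 4) .nil .nil))) 
(.lf (nat_lit 164132) (.g (nat_lit 2603) (.e (nat_lit 57464) (nat_lit 23) (.e (nat_lit 516151) (nat_lit 9) (.e (nat_lit 426216) (nat_lit 9) (.e (nat_lit 426140) (nat_lit 3) (.e (nat_lit 204845) (nat_lit 24) (.e (nat_lit 319497) (nat_lit 10) (.e (nat_lit 5389) (nat_lit 301) .nil))))))) (.g (nat_lit 4) .nil .nil)))) (.nd (nat_lit 5) 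
(.lf (nat_lit 164116) (.g (nat_lit 767) (.e (nat_lit 57464) (nat_lit 23) (.e (nat_lit 516151) (nat_lit 9) (.e (nat_lit 426215) (nat_lit 9) .nil))) .nil)) 
(.lf (nat_lit 164148) (.g (nat_lit 2857) (.e (nat_lit 57464) (nat_lit 23) (.e (nat_lit 516151) (nat_lit 9) (.e (nat_lit 426239) (nat_lit 9) (.e (nat_lit 426139) (nat_lit 3) (.e (nat_lit 204846) (nat_lit 24) (.e (nat_lit 319505) (nat_lit 10) (.e (nat_lit 5395) (nat_lit 301) .nil))))))) (.g (nat_lit 4) .nil .nil))))) (.nd (nat_lit 4) (.nd (nat_lit 5) 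
(.lf (nat_lit 164108) (.g (nat_lit 2612) (.e (nat_lit 57464) (nat_lit 23) (.e (nat_lit 516151) (nat_lit 9) (.e (nat_lit 426212) (nat_lit 9) (.e (nat_lit 426125) (nat_lit 2) (.e (nat_lit 196661) (nat_lit 12) (.e (nat_lit 57721) (nat_lit 177) (.e (nat_lit 57896) (nat_lit 273) .nil))))))) (.g (nat_lit 4) .nil .nil))) 
(.lf (nat_lit 164140) (.g (nat_lit 4053) (.e (nat_lit 57464) (nat_lit 23) (.e (nat_lit 516151) (nat_lit 9) (.e (nat_lit 426216) (nat_lit 9) (.e (nat_lit 426140) (nat_lit 3) (.e (nat_lit 204846) (nat_lit 24) (.e (nat_lit 319505) (nat_lit 10) (.e (nat_lit 7936) (nat_lit 301) .nil))))))) (.g (nat_lit 6) .nil .nil)))) (.nd (nat_lit 5) 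
(.lf (nat_lit 164124) (.g (nat_lit 4769) (.e (nat_lit 57464) (nat_lit 23) (.e (nat_lit 516151) (nat_lit 9) (.e (nat_lit 426215) (nat_lit 9) (.e (nat_lit 426140) (nat_lit 3) (.e (nat_lit 204846) (nat_lit 24) (.e (nat_lit 319505) (nat_lit 10) (.e (nat_lit 5395) (nat_lit 301) .nil))))))) (.g (nat_lit 6) .nil .nil))) 
(.lf (nat_lit 164156) (.g (nat_lit 3681) (.e (nat_lit 57464) (nat_lit 23) (.e (nat_lit 516151) (nat_lit 9) (.e (nat_lit 426275) (nat_lit 10) (.e (nat_lit 434231) (nat_lit 23) (.e (nat_lit 532523) (nat_lit 7) (.e (nat_lit 319505) (nat_lit 10) (.e (nat_lit 5395) (nat_lit 301) .nil))))))) (.g (nat_lit 5) .nil .nil))))))) (.nd (nat_lit 2) (.nd (nat_lit 3) (.nd (nat_lit 4) (.nd (nat_lit 5) 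
(.lf (nat_lit 164098) (.g (nat_lit 4212) (.e (nat_lit 57464) (nat_lit 23) (.e (nat_lit 516151) (nat_lit 9) (.e (nat_lit 426211) (nat_lit 9) (.e (nat_lit 426140) (nat_lit 3) (.e (nat_lit 204845) (nat_lit 24) (.e (nat_lit 319500) (nat_lit 10) (.e (nat_lit 5389) (nat_lit 301) .nil))))))) (.g (nat_lit 5) .nil .nil))) 
(.lf (nat_lit 164130) (.g (nat_lit 2472) (.e (nat_lit 57464) (nat_lit 23) (.e (nat_lit 516151) (nat_lit 9) (.e (nat_lit 426216) (nat_lit 9) (.e (nat_lit 426125) (nat_lit 2) (.e (nat_lit 196661) (nat_lit 12) (.e (nat_lit 57712) (nat_lit 176) (.e (nat_lit 1081) (nat_lit 81) (.e (nat_lit 5394) (nat_lit 301) .nil)))))))) (.g (nat_lit 4) .nil .nil)))) (.nd (nat_lit 5) 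
(.lf (nat_lit 164114) (.g (nat_lit 3314) (.e (nat_lit 57464) (nat_lit 23) (.e (nat_lit 516151) (nat_lit 9) (.e (nat_lit 426214) (nat_lit 9) (.e (nat_lit 426140) (nat_lit 3) (.e (nat_lit 204846) (nat_lit 24) (.e (nat_lit 319505) (nat_lit 10) (.e (nat_lit 5395) (nat_lit 301) .nil))))))) (.g (nat_lit 5) .nil .nil))) 
(.lf (nat_lit 164146) (.g (nat_lit 790) (.e (nat_lit 57464) (nat_lit 23) (.e (nat_lit 516151) (nat_lit 9) (.e (nat_lit 426239) (nat_lit 9) .nil))) .nil)))) (.nd (nat_lit 4) (.nd (nat_lit 5) 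
(.lf (nat_lit 164106) (.g (nat_lit 3811) (.e (nat_lit 57464) (nat_lit 23) (.e (nat_lit 516151) (nat_lit 9) (.e (nat_lit 426211) (nat_lit 9) (.e (nat_lit 426140) (nat_lit 3) (.e (nat_lit 204849) (nat_lit 25) (.e (nat_lit 327708) (nat_lit 10) (.e (nat_lit 5394) (nat_lit 301) .nil))))))) (.g (nat_lit 4) .nil .nil))) 
(.lf (nat_lit 164138) (.g (nat_lit 2964) (.e (nat_lit 57464) (nat_lit 23) (.e (nat_lit 516151) (nat_lit 9) (.e (nat_lit 426216) (nat_lit 9) (.e (nat_lit 426140) (nat_lit 3) (.e (nat_lit 204846) (nat_lit 24) (.e (nat_lit 319505) (nat_lit 10) (.e (nat_lit 5390) (nat_lit 301) .nil))))))) (.g (nat_lit 4) .nil .nil)))) (.nd (nat_lit 5) 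
(.lf (nat_lit 164122) (.g (nat_lit 4310) (.e (nat_lit 57464) (nat_lit 23) (.e (nat_lit 516151) (nat_lit 9) (.e (nat_lit 426215) (nat_lit 9) (.e (nat_lit 426140) (nat_lit 3) (.e (nat_lit 204846) (nat_lit 24) (.e (nat_lit 319505) (nat_lit 10) (.e (nat_lit 5389) (nat_lit 301) .nil))))))) (.g (nat_lit 6) .nil .nil))) 
(.lf (nat_lit 164154) (.g (nat_lit 1125) (.e (nat_lit 57464) (nat_lit 23) (.e (nat_lit 516151) (nat_lit 9) (.e (nat_lit 426275) (nat_lit 10) (.e (nat_lit 434231) (nat_lit 23) .nil)))) .nil))))) (.nd (nat_lit 3) (.nd (nat_lit 4) (.nd (nat_lit 5) 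
(.lf (nat_lit 164102) (.g (nat_lit 3527) (.e (nat_lit 57464) (nat_lit 23) (.e (nat_lit 516151) (nat_lit 9) (.e (nat_lit 426211) (nat_lit 9) (.e (nat_lit 426140) (nat_lit 3) (.e (nat_lit 204846) (nat_lit 24) (.e (nat_lit 319504) (nat_lit 10) (.e (nat_lit 5389) (nat_lit 301) .nil))))))) (.g (nat_lit 4) .nil .nil))) 
(.lf (nat_lit 164134) (.g (nat_lit 2259) (.e (nat_lit 57464) (nat_lit 23) (.e (nat_lit 516151) (nat_lit 9) (.e (nat_lit 426216) (nat_lit 9) (.e (nat_lit 426140) (nat_lit 3) (.e (nat_lit 204845) (nat_lit 24) (.e (nat_lit 327424) (nat_lit 10) (.e (nat_lit 5394) (nat_lit 301) .nil))))))) (.g (nat_lit 4) .nil .nil)))) (.nd (nat_lit 5) 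
(.lf (nat_lit 164118) (.g (nat_lit 3872) (.e (nat_lit 57464) (nat_lit 23) (.e (nat_lit 516151) (nat_lit 9) (.e (nat_lit 426215) (nat_lit 9) (.e (nat_lit 426140) (nat_lit 3) (.e (nat_lit 204846) (nat_lit 24) (.e (nat_lit 319504) (nat_lit 10) (.e (nat_lit 5390) (nat_lit 301) .nil))))))) (.g (nat_lit 5) .nil .nil))) 
(.lf (nat_lit 164150) (.g (nat_lit 809) (.e (nat_lit 57464) (nat_lit 23) (.e (nat_lit 516151) (nat_lit 9) (.e (nat_lit 426252) (nat_lit 9) .nil))) .nil)))) (.nd (nat_lit 4) (.nd (nat_lit 5) 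
(.lf (nat_lit 164110) (.g (nat_lit 3020) (.e (nat_lit 57464) (nat_lit 23) (.e (nat_lit 516151) (nat_lit 9) (.e (nat_lit 426212) (nat_lit 9) (.e (nat_lit 426140) (nat_lit 3) (.e (nat_lit 204846) (nat_lit 24) (.e (nat_lit 319505) (nat_lit 10) (.e (nat_lit 7936) (nat_lit 301) .nil))))))) (.g (nat_lit 5) .nil .nil))) 
(.lf (nat_lit 164142) (.g (nat_lit 2237) (.e (nat_lit 57464) (nat_lit 23) (.e (nat_lit 516151) (nat_lit 9) (.e (nat_lit 426216) (nat_lit 9) (.e (nat_lit 426140) (nat_lit 3) (.e (nat_lit 204849) (nat_lit 25) (.e (nat_lit 327708) (nat_lit 10) (.e (nat_lit 5394) (nat_lit 301) .nil))))))) (.g (nat_lit 4) .nil .nil)))) (.nd (nat_lit 5) 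
(.lf (nat_lit 164126) (.g (nat_lit 4341) (.e (nat_lit 57464) (nat_lit 23) (.e (nat_lit 516151) (nat_lit 9) (.e (nat_lit 426215) (nat_lit 9) (.e (nat_lit 426140) (nat_lit 3) (.e (nat_lit 204846) (nat_lit 24) (.e (nat_lit 319511) (nat_lit 10) (.e (nat_lit 5394) (nat_lit 301) .nil))))))) (.g (nat_lit 6) .nil .nil))) 
(.lf (nat_lit 164158) (.g (nat_lit 3943) (.e (nat_lit 57464) (nat_lit 23) (.e (nat_lit 516151) (nat_lit 9) (.e (nat_lit 426275) (nat_lit 10) (.e (nat_lit 434231) (nat_lit 23) (.e (nat_lit 532523) (nat_lit 7) (.e (nat_lit 319506) (nat_lit 10) (.e (nat_lit 5389) (nat_lit 301) .nil))))))) (.g (nat_lit 5) .nil .nil)))))))) 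
(.nd (nat_lit 1) (.nd (nat_lit 2) (.nd (nat_lit 3) (.nd (nat_lit 4) (.nd (nat_lit 5) 
(.lf (nat_lit 164097) (.g (nat_lit 3485) (.e (nat_lit 57464) (nat_lit 23) (.e (nat_lit 516151) (nat_lit 9) (.e (nat_lit 426211) (nat_lit 9) (.e (nat_lit 426140) (nat_lit 3) (.e (nat_lit 204845) (nat_lit 24) (.e (nat_lit 319499) (nat_lit 10) (.e (nat_lit 5389) (nat_lit 301) .nil))))))) (.g (nat_lit 4) .nil .nil))) 
(.lf (nat_lit 164129) (.g (nat_lit 2472) (.e (nat_lit 57464) (nat_lit 23) (.e (nat_lit 516151) (nat_lit 9) (.e (nat_lit 426216) (nat_lit 9) (.e (nat_lit 426125) (nat_lit 2) (.e (nat_lit 196661) (nat_lit 12) (.e (nat_lit 57712) (nat_lit 176) (.e (nat_lit 980) (nat_lit 81) (.e (nat_lit 5394) (nat_lit 301) .nil)))))))) (.g (nat_lit 4) .nil .nil)))) (.nd (nat_lit 5) 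
(.lf (nat_lit 164113) (.g (nat_lit 1599) (.e (nat_lit 57464) (nat_lit 23) (.e (nat_lit 516151) (nat_lit 9) (.e (nat_lit 426214) (nat_lit 9) (.e (nat_lit 426140) (nat_lit 3) (.e (nat_lit 204846) (nat_lit 24) .nil))))) .nil)) 
(.lf (nat_lit 164145) (.g (nat_lit 3869) (.e (nat_lit 57464) (nat_lit 23) (.e (nat_lit 516151) (nat_lit 9) (.e (nat_lit 426219) (nat_lit 9) (.e (nat_lit 426412) (nat_lit 15) (.e (nat_lit 1856) (nat_lit 124) (.e (nat_lit 557105) (nat_lit 14) (.e (nat_lit 188160) (nat_lit 35) .nil))))))) (.g (nat_lit 5) .nil .nil))))) (.nd (nat_lit 4) (.nd (nat_lit 5) 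
(.lf (nat_lit 164105) (.g (nat_lit 3132) (.e (nat_lit 57464) (nat_lit 23) (.e (nat_lit 516151) (nat_lit 9) (.e (nat_lit 426211) (nat_lit 9) (.e (nat_lit 426140) (nat_lit 3) (.e (nat_lit 204847) (nat_lit 25) (.e (nat_lit 327708) (nat_lit 10) (.e (nat_lit 5394) (nat_lit 301) .nil))))))) (.g (nat_lit 4) .nil .nil))) 
(.lf (nat_lit 164137) (.g (nat_lit 4050) (.e (nat_lit 57464) (nat_lit 23) (.e (nat_lit 516151) (nat_lit 9) (.e (nat_lit 426216) (nat_lit 9) (.e (nat_lit 426140) (nat_lit 3) (.e (nat_lit 204846) (nat_lit 24) (.e (nat_lit 319505) (nat_lit 10) (.e (nat_lit 5389) (nat_lit 301) .nil))))))) (.g (nat_lit 5) .nil .nil)))) (.nd (nat_lit 5) 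
(.lf (nat_lit 164121) (.g (nat_lit 3324) (.e (nat_lit 57464) (nat_lit 23) (.e (nat_lit 516151) (nat_lit 9) (.e (nat_lit 426215) (nat_lit 9) (.e (nat_lit 426140) (nat_lit 3) (.e (nat_lit 204846) (nat_lit 24) (.e (nat_lit 319504) (nat_lit 10) (.e (nat_lit 7936) (nat_lit 301) .nil))))))) (.g (nat_lit 5) .nil .nil))) 
(.lf (nat_lit 164153) (.g (nat_lit 2824) (.e (nat_lit 57464) (nat_lit 23) (.e (nat_lit 516151) (nat_lit 9) (.e (nat_lit 426268) (nat_lit 9) (.e (nat_lit 426139) (nat_lit 3) (.e (nat_lit 204846) (nat_lit 24) (.e (nat_lit 319511) (nat_lit 10) (.e (nat_lit 5394) (nat_lit 301) .nil))))))) (.g (nat_lit 4) .nil .nil)))))) (.nd (nat_lit 3) (.nd (nat_lit 4) (.nd (nat_lit 5) 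
(.lf (nat_lit 164101) (.g (nat_lit 3624) (.e (nat_lit 57464) (nat_lit 23) (.e (nat_lit 516151) (nat_lit 9) (.e (nat_lit 426211) (nat_lit 9) (.e (nat_lit 426140) (nat_lit 3) (.e (nat_lit 204845) (nat_lit 24) (.e (nat_lit 319505) (nat_lit 10) (.e (nat_lit 7936) (nat_lit 301) .nil))))))) (.g (nat_lit 4) .nil .nil))) 
(.lf (nat_lit 164133) (.g (nat_lit 2768) (.e (nat_lit 57464) (nat_lit 23) (.e (nat_lit 516151) (nat_lit 9) (.e (nat_lit 426216) (nat_lit 9) (.e (nat_lit 426140) (nat_lit 3) (.e (nat_lit 204845) (nat_lit 24) (.e (nat_lit 319506) (nat_lit 10) (.e (nat_lit 5389) (nat_lit 301) .nil))))))) (.g (nat_lit 4) .nil .nil)))) (.nd (nat_lit 5) 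
(.lf (nat_lit 164117) (.g (nat_lit 4866) (.e (nat_lit 57464) (nat_lit 23) (.e (nat_lit 516151) (nat_lit 9) (.e (nat_lit 426215) (nat_lit 9) (.e (nat_lit 426140) (nat_lit 3) (.e (nat_lit 204846) (nat_lit 24) (.e (nat_lit 319504) (nat_lit 10) (.e (nat_lit 5389) (nat_lit 301) .nil))))))) (.g (nat_lit 6) .nil .nil))) 
(.lf (nat_lit 164149) (.g (nat_lit 2802) (.e (nat_lit 57464) (nat_lit 23) (.e (nat_lit 516151) (nat_lit 9) (.e (nat_lit 426239) (nat_lit 9) (.e (nat_lit 426139) (nat_lit 3) (.e (nat_lit 204846) (nat_lit 24) (.e (nat_lit 319511) (nat_lit 10) (.e (nat_lit 5394) (nat_lit 301) .nil))))))) (.g (nat_lit 4) .nil .nil))))) (.nd (nat_lit 4) (.nd (nat_lit 5) 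
(.lf (nat_lit 164109) (.g (nat_lit 3179) (.e (nat_lit 57464) (nat_lit 23) (.e (nat_lit 516151) (nat_lit 9) (.e (nat_lit 426212) (nat_lit 9) (.e (nat_lit 426140) (nat_lit 3) (.e (nat_lit 204846) (nat_lit 24) (.e (nat_lit 319505) (nat_lit 10) (.e (nat_lit 5395) (nat_lit 301) .nil))))))) (.g (nat_lit 5) .nil .nil))) 
(.lf (nat_lit 164141) (.g (nat_lit 3718) (.e (nat_lit 57464) (nat_lit 23) (.e (nat_lit 516151) (nat_lit 9) (.e (nat_lit 426216) (nat_lit 9) (.e (nat_lit 426140) (nat_lit 3) (.e (nat_lit 204846) (nat_lit 24) (.e (nat_lit 319511) (nat_lit 10) (.e (nat_lit 5394) (nat_lit 301) .nil))))))) (.g (nat_lit 5) .nil .nil)))) (.nd (nat_lit 5) 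
(.lf (nat_lit 164125) (.g (nat_lit 4504) (.e (nat_lit 57464) (nat_lit 23) (.e (nat_lit 516151) (nat_lit 9) (.e (nat_lit 426215) (nat_lit 9) (.e (nat_lit 426140) (nat_lit 3) (.e (nat_lit 204846) (nat_lit 24) (.e (nat_lit 319505) (nat_lit 10) (.e (nat_lit 7936) (nat_lit 301) .nil))))))) (.g (nat_lit 6) .nil .nil))) 
(.lf (nat_lit 164157) (.g (nat_lit 3185) (.e (nat_lit 57464) (nat_lit 23) (.e (nat_lit 516151) (nat_lit 9) (.e (nat_lit 426275) (nat_lit 10) (.e (nat_lit 434231) (nat_lit 23) (.e (nat_lit 532523) (nat_lit 7) (.e (nat_lit 319505) (nat_lit 10) (.e (nat_lit 7936) (nat_lit 301) .nil))))))) (.g (nat_lit 4) .nil .nil))))))) (.nd (nat_lit 2) (.nd (nat_lit 3) (.nd (nat_lit 4) (.nd (nat_lit 5) 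
(.lf (nat_lit 164099) (.g (nat_lit 2871) (.e (nat_lit 57464) (nat_lit 23) (.e (nat_lit 516151) (nat_lit 9) (.e (nat_lit 426211) (nat_lit 9) (.e (nat_lit 426140) (nat_lit 3) (.e (nat_lit 204845) (nat_lit 24) (.e (nat_lit 319500) (nat_lit 10) (.e (nat_lit 5395) (nat_lit 301) .nil))))))) (.g (nat_lit 4) .nil .nil))) 
(.lf (nat_lit 164131) (.g (nat_lit 2612) (.e (nat_lit 57464) (nat_lit 23) (.e (nat_lit 516151) (nat_lit 9) (.e (nat_lit 426216) (nat_lit 9) (.e (nat_lit 426125) (nat_lit 2) (.e (nat_lit 196661) (nat_lit 12) (.e (nat_lit 57721) (nat_lit 177) (.e (nat_lit 57896) (nat_lit 273) .nil))))))) (.g (nat_lit 4) .nil .nil)))) (.nd (nat_lit 5) 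
(.lf (nat_lit 164115) (.g (nat_lit 2713) (.e (nat_lit 57464) (nat_lit 23) (.e (nat_lit 516151) (nat_lit 9) (.e (nat_lit 426214) (nat_lit 9) (.e (nat_lit 426140) (nat_lit 3) (.e (nat_lit 204846) (nat_lit 24) (.e (nat_lit 319511) (nat_lit 10) (.e (nat_lit 5394) (nat_lit 301) .nil))))))) (.g (nat_lit 4) .nil .nil))) 
(.lf (nat_lit 164147) (.g (nat_lit 2655) (.e (nat_lit 57464) (nat_lit 23) (.e (nat_lit 516151) (nat_lit 9) (.e (nat_lit 426239) (nat_lit 9) (.e (nat_lit 426124) (nat_lit 2) (.e (nat_lit 196677) (nat_lit 16) (.e (nat_lit 123080) (nat_lit 177) (.e (nat_lit 57896) (nat_lit 273) .nil))))))) (.g (nat_lit 4) .nil .nil))))) (.nd (nat_lit 4) (.nd (nat_lit 5) 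
(.lf (nat_lit 164107) (.g (nat_lit 485) (.e (nat_lit 57464) (nat_lit 23) (.e (nat_lit 516151) (nat_lit 9) (.e (nat_lit 426212) (nat_lit 9) .nil))) .nil)) 
(.lf (nat_lit 164139) (.g (nat_lit 3886) (.e (nat_lit 57464) (nat_lit 23) (.e (nat_lit 516151) (nat_lit 9) (.e (nat_lit 426216) (nat_lit 9) (.e (nat_lit 426140) (nat_lit 3) (.e (nat_lit 204846) (nat_lit 24) (.e (nat_lit 319505) (nat_lit 10) (.e (nat_lit 5395) (nat_lit 301) .nil))))))) (.g (nat_lit 5) .nil .nil)))) (.nd (nat_lit 5) 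
(.lf (nat_lit 164123) (.g (nat_lit 3224) (.e (nat_lit 57464) (nat_lit 23) (.e (nat_lit 516151) (nat_lit 9) (.e (nat_lit 426215) (nat_lit 9) (.e (nat_lit 426140) (nat_lit 3) (.e (nat_lit 204846) (nat_lit 24) (.e (nat_lit 319505) (nat_lit 10) (.e (nat_lit 5390) (nat_lit 301) .nil))))))) (.g (nat_lit 5) .nil .nil))) 
(.lf (nat_lit 164155) (.g (nat_lit 3136) (.e (nat_lit 57464) (nat_lit 23) (.e (nat_lit 516151) (nat_lit 9) (.e (nat_lit 426275) (nat_lit 10) (.e (nat_lit 434231) (nat_lit 23) (.e (nat_lit 532523) (nat_lit 7) (.e (nat_lit 319497) (nat_lit 10) (.e (nat_lit 5389) (nat_lit 301) .nil))))))) (.g (nat_lit 4) .nil .nil)))))) (.nd (nat_lit 3) (.nd (nat_lit 4) (.nd (nat_lit 5) 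
(.lf (nat_lit 164103) (.g (nat_lit 3507) (.e (nat_lit 57464) (nat_lit 23) (.e (nat_lit 516151) (nat_lit 9) (.e (nat_lit 426211) (nat_lit 9) (.e (nat_lit 426140) (nat_lit 3) (.e (nat_lit 204846) (nat_lit 24) (.e (nat_lit 319504) (nat_lit 10) (.e (nat_lit 5396) (nat_lit 301) .nil))))))) (.g (nat_lit 4) .nil .nil))) 
(.lf (nat_lit 164135) (.g (nat_lit 3552) (.e (nat_lit 57464) (nat_lit 23) (.e (nat_lit 516151) (nat_lit 9) (.e (nat_lit 426216) (nat_lit 9) (.e (nat_lit 426140) (nat_lit 3) (.e (nat_lit 204846) (nat_lit 24) (.e (nat_lit 319504) (nat_lit 10) (.e (nat_lit 5395) (nat_lit 301) .nil))))))) (.g (nat_lit 5) .nil .nil)))) (.nd (nat_lit 5) 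
(.lf (nat_lit 164119) (.g (nat_lit 4559) (.e (nat_lit 57464) (nat_lit 23) (.e (nat_lit 516151) (nat_lit 9) (.e (nat_lit 426215) (nat_lit 9) (.e (nat_lit 426140) (nat_lit 3) (.e (nat_lit 204846) (nat_lit 24) (.e (nat_lit 319504) (nat_lit 10) (.e (nat_lit 5395) (nat_lit 301) .nil))))))) (.g (nat_lit 6) .nil .nil))) 
(.lf (nat_lit 164151) (.g (nat_lit 787) (.e (nat_lit 57464) (nat_lit 23) (.e (nat_lit 516151) (nat_lit 9) (.e (nat_lit 426268) (nat_lit 9) .nil))) .nil)))) (.nd (nat_lit 4) (.nd (nat_lit 5) 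
(.lf (nat_lit 164111) (.g (nat_lit 2566) (.e (nat_lit 57464) (nat_lit 23) (.e (nat_lit 516151) (nat_lit 9) (.e (nat_lit 426212) (nat_lit 9) (.e (nat_lit 426140) (nat_lit 3) (.e (nat_lit 204846) (nat_lit 24) (.e (nat_lit 319511) (nat_lit 10) (.e (nat_lit 5394) (nat_lit 301) .nil))))))) (.g (nat_lit 4) .nil .nil))) 
(.lf (nat_lit 164143) (.g (nat_lit 809) (.e (nat_lit 57464) (nat_lit 23) (.e (nat_lit 516151) (nat_lit 9) (.e (nat_lit 426219) (nat_lit 9) .nil))) .nil))) (.nd (nat_lit 5) 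
(.lf (nat_lit 164127) (.g (nat_lit 2684) (.e (nat_lit 57464) (nat_lit 23) (.e (nat_lit 516151) (nat_lit 9) (.e (nat_lit 426215) (nat_lit 9) (.e (nat_lit 426140) (nat_lit 3) (.e (nat_lit 204846) (nat_lit 24) (.e (nat_lit 327424) (nat_lit 10) (.e (nat_lit 5394) (nat_lit 301) .nil))))))) (.g (nat_lit 4) .nil .nil))) 
(.lf (nat_lit 164159) (.g (nat_lit 3361) (.e (nat_lit 57464) (nat_lit 23) (.e (nat_lit 516151) (nat_lit 9) (.e (nat_lit 426275) (nat_lit 10) (.e (nat_lit 434231) (nat_lit 23) (.e (nat_lit 532523) (nat_lit 7) (.e (nat_lit 319511) (nat_lit 10) (.e (nat_lit 5394) (nat_lit 301) .nil))))))) (.g (nat_lit 5) .nil .nil)))))))))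

noncomputable def tv2202 : DT := (.nd (nat_lit 0) (.nd (nat_lit 1) (.nd (nat_lit 2) (.nd (nat_lit 3) (.nd (nat_lit 4) (.nd (nat_lit 5) 
(.lf (nat_lit 164160) (.g (nat_lit 3176) (.e (nat_lit 57464) (nat_lit 23) (.e (nat_lit 516151) (nat_lit 9) (.e (nat_lit 426275) (nat_lit 10) (.e (nat_lit 434231) (nat_lit 23) (.e (nat_lit 532523) (nat_lit 7) (.e (nat_lit 327424) (nat_lit 10) (.e (nat_lit 5394) (nat_lit 301) .nil))))))) (.g (nat_lit 4) .nil .nil))) 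
(.lf (nat_lit 164192) (.g (nat_lit 1982) (.e (nat_lit 57464) (nat_lit 23) (.e (nat_lit 516151) (nat_lit 9) (.e (nat_lit 426286) (nat_lit 10) (.e (nat_lit 434227) (nat_lit 20) (.e (nat_lit 507929) (nat_lit 10) (.e (nat_lit 5763) (nat_lit 315) (.e (nat_lit 171776) (nat_lit 190) .nil))))))) (.g (nat_lit 4) .nil .nil)))) (.nd (nat_lit 5) 
(.lf (nat_lit 164176) (.g (nat_lit 2917) (.e (nat_lit 57464) (nat_lit 23) (.e (nat_lit 516151) (nat_lit 9) (.e (nat_lit 426285) (nat_lit 10) (.e (nat_lit 434227) (nat_lit 20) (.e (nat_lit 507942) (nat_lit 15) (.e (nat_lit 278550) (nat_lit 10) (.e (nat_lit 5395) (nat_lit 301) .nil))))))) (.g (nat_lit 4) .nil .nil))) 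
(.lf (nat_lit 164208) (.g (nat_lit 1954) (.e (nat_lit 57464) (nat_lit 23) (.e (nat_lit 516151) (nat_lit 9) (.e (nat_lit 426286) (nat_lit 10) (.e (nat_lit 434238) (nat_lit 25) (.e (nat_lit 548897) (nat_lit 14) (.e (nat_lit 2828) (nat_lit 182) (.e (nat_lit 409604) (nat_lit 0) (.e (nat_lit 5394) (nat_lit 301) .nil)))))))) (.g (nat_lit 4) .nil .nil))))) (.nd (nat_lit 4) (.nd (nat_lit 5) 
(.lf (nat_lit 164168) (.g (nat_lit 767) (.e (nat_lit 57464) (nat_lit 23) (.e (nat_lit 516151) (nat_lit 9) (.e (nat_lit 426282) (nat_lit 10) .nil))) .nil)) 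
(.lf (nat_lit 164200) (.g (nat_lit 2793) (.e (nat_lit 57464) (nat_lit 23) (.e (nat_lit 516151) (nat_lit 9) (.e (nat_lit 426286) (nat_lit 10) (.e (nat_lit 434231) (nat_lit 23) (.e (nat_lit 532525) (nat_lit 8) (.e (nat_lit 327708) (nat_lit 10) (.e (nat_lit 5394) (nat_lit 301) .nil))))))) (.g (nat_lit 5) .nil .nil)))) (.nd (nat_lit 5) 
(.lf (nat_lit 164184) (.g (nat_lit 305) (.e (nat_lit 57464) (nat_lit 23) (.e (nat_lit 516151) (nat_lit 9) (.e (nat_lit 426286) (nat_lit 10) .nil))) .nil)) 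
(.lf (nat_lit 164216) (.g (nat_lit 943) (.e (nat_lit 57464) (nat_lit 23) (.e (nat_lit 516151) (nat_lit 9) (.e (nat_lit 426286) (nat_lit 10) (.e (nat_lit 434245) (nat_lit 28) .nil)))) .nil))))) (.nd (nat_lit 3) (.nd (nat_lit 4) (.nd (nat_lit 5) 
(.lf (nat_lit 164164) (.g (nat_lit 2871) (.e (nat_lit 57464) (nat_lit 23) (.e (nat_lit 516151) (nat_lit 9) (.e (nat_lit 426275) (nat_lit 10) (.e (nat_lit 434233) (nat_lit 23) (.e (nat_lit 532523) (nat_lit 7) (.e (nat_lit 319505) (nat_lit 10) (.e (nat_lit 7936) (nat_lit 301) .nil))))))) (.g (nat_lit 4) .nil .nil))) 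
(.lf (nat_lit 164196) (.g (nat_lit 1005) (.e (nat_lit 57464) (nat_lit 23) (.e (nat_lit 516151) (nat_lit 9) (.e (nat_lit 426286) (nat_lit 10) (.e (nat_lit 434231) (nat_lit 23) .nil)))) .nil))) (.nd (nat_lit 5) 
(.lf (nat_lit 164180) (.g (nat_lit 2923) (.e (nat_lit 57464) (nat_lit 23) (.e (nat_lit 516151) (nat_lit 9) (.e (nat_lit 426285) (nat_lit 10) (.e (nat_lit 434238) (nat_lit 25) (.e (nat_lit 548898) (nat_lit 14) (.e (nat_lit 2828) (nat_lit 182) (.e (nat_lit 409604) (nat_lit 0) (.e (nat_lit 5394) (nat_lit 301) .nil)))))))) (.g (nat_lit 4) .nil .nil))) 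
(.lf (nat_lit 164212) (.g (nat_lit 2583) (.e (nat_lit 57464) (nat_lit 23) (.e (nat_lit 516151) (nat_lit 9) (.e (nat_lit 426286) (nat_lit 10) (.e (nat_lit 434238) (nat_lit 25) (.e (nat_lit 548914) (nat_lit 19) (.e (nat_lit 188160) (nat_lit 35) .nil)))))) (.g (nat_lit 5) .nil .nil))))) (.nd (nat_lit 4) (.nd (nat_lit 5) 
(.lf (nat_lit 164172) (.g (nat_lit 2941) (.e (nat_lit 57464) (nat_lit 23) (.e (nat_lit 516151) (nat_lit 9) (.e (nat_lit 426285) (nat_lit 10) (.e (nat_lit 434227) (nat_lit 20) (.e (nat_lit 507928) (nat_lit 10) (.e (nat_lit 4979) (nat_lit 287) (.e (nat_lit 1079) (nat_lit 81) (.e (nat_lit 5394) (nat_lit 301) .nil)))))))) (.g (nat_lit 5) .nil .nil))) 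
(.lf (nat_lit 164204) (.g (nat_lit 2211) (.e (nat_lit 57464) (nat_lit 23) (.e (nat_lit 516151) (nat_lit 9) (.e (nat_lit 426286) (nat_lit 10) (.e (nat_lit 434236) (nat_lit 25) (.e (nat_lit 548914) (nat_lit 19) (.e (nat_lit 188160) (nat_lit 35) .nil)))))) (.g (nat_lit 4) .nil .nil)))) (.nd (nat_lit 5) 
(.lf (nat_lit 164188) (.g (nat_lit 1128) (.e (nat_lit 57464) (nat_lit 23) (.e (nat_lit 516151) (nat_lit 9) (.e (nat_lit 426286) (nat_lit 10) (.e (nat_lit 434227) (nat_lit 20) .nil)))) .nil)) 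
(.lf (nat_lit 164220) (.g (nat_lit 1796) (.e (nat_lit 57464) (nat_lit 23) (.e (nat_lit 516151) (nat_lit 9) (.e (nat_lit 426286) (nat_lit 10) (.e (nat_lit 434245) (nat_lit 28) (.e (nat_lit 573448) (nat_lit 9) (.e (nat_lit 472) (nat_lit 36) (.e (nat_lit 466688) (nat_lit 3) .nil))))))) (.g (nat_lit 4) .nil .nil))))))) (.nd (nat_lit 2) (.nd (nat_lit 3) (.nd (nat_lit 4) (.nd (nat_lit 5) 
(.lf (nat_lit 164162) (.g (nat_lit 3616) (.e (nat_lit 57464) (nat_lit 23) (.e (nat_lit 516151) (nat_lit 9) (.e (nat_lit 426275) (nat_lit 10) (.e (nat_lit 434233) (nat_lit 23) (.e (nat_lit 532523) (nat_lit 7) (.e (nat_lit 319504) (nat_lit 10) (.e (nat_lit 5396) (nat_lit 301) .nil))))))) (.g (nat_lit 5) .nil .nil))) 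
(.lf (nat_lit 164194) (.g (nat_lit 1930) (.e (nat_lit 57464) (nat_lit 23) (.e (nat_lit 516151) (nat_lit 9) (.e (nat_lit 426286) (nat_lit 10) (.e (nat_lit 434227) (nat_lit 20) (.e (nat_lit 507930) (nat_lit 10) (.e (nat_lit 5763) (nat_lit 315) (.e (nat_lit 171776) (nat_lit 190) .nil))))))) (.g (nat_lit 4) .nil .nil)))) (.nd (nat_lit 5) 
(.lf (nat_lit 164178) (.g (nat_lit 1141) (.e (nat_lit 57464) (nat_lit 23) (.e (nat_lit 516151) (nat_lit 9) (.e (nat_lit 426285) (nat_lit 10) (.e (nat_lit 434233) (nat_lit 23) .nil)))) .nil)) 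
(.lf (nat_lit 164210) (.g (nat_lit 1803) (.e (nat_lit 57464) (nat_lit 23) (.e (nat_lit 516151) (nat_lit 9) (.e (nat_lit 426286) (nat_lit 10) (.e (nat_lit 434238) (nat_lit 25) (.e (nat_lit 548913) (nat_lit 18) .nil))))) .nil)))) (.nd (nat_lit 4) (.nd (nat_lit 5) 
(.lf (nat_lit 164170) (.g (nat_lit 809) (.e (nat_lit 57464) (nat_lit 23) (.e (nat_lit 516151) (nat_lit 9) (.e (nat_lit 426284) (nat_lit 10) .nil))) .nil)) 
(.lf (nat_lit 164202) (.g (nat_lit 1833) (.e (nat_lit 57464) (nat_lit 23) (.e (nat_lit 516151) (nat_lit 9) (.e (nat_lit 426286) (nat_lit 10) (.e (nat_lit 434233) (nat_lit 23) (.e (nat_lit 532523) (nat_lit 7) .nil))))) .nil))) (.nd (nat_lit 5) 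
(.lf (nat_lit 164186) (.g (nat_lit 1476) (.e (nat_lit 57464) (nat_lit 23) (.e (nat_lit 516151) (nat_lit 9) (.e (nat_lit 426286) (nat_lit 10) (.e (nat_lit 434207) (nat_lit 18) .nil)))) .nil)) 
(.lf (nat_lit 164218) (.g (nat_lit 2103) (.e (nat_lit 57464) (nat_lit 23) (.e (nat_lit 516151) (nat_lit 9) (.e (nat_lit 426286) (nat_lit 10) (.e (nat_lit 434245) (nat_lit 28) (.e (nat_lit 573448) (nat_lit 9) (.e (nat_lit 359) (nat_lit 30) (.e (nat_lit 409603) (nat_lit 0) (.e (nat_lit 5394) (nat_lit 301) .nil)))))))) (.g (nat_lit 4) .nil .nil)))))) 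
(.nd (nat_lit 3) (.nd (nat_lit 4) (.nd (nat_lit 5) 
(.lf (nat_lit 164166) (.g (nat_lit 809) (.e (nat_lit 57464) (nat_lit 23) (.e (nat_lit 516151) (nat_lit 9) (.e (nat_lit 426280) (nat_lit 10) .nil))) .nil)) 
(.lf (nat_lit 164198) (.g (nat_lit 4328) (.e (nat_lit 57464) (nat_lit 23) (.e (nat_lit 516151) (nat_lit 9) (.e (nat_lit 426286) (nat_lit 10) (.e (nat_lit 434231) (nat_lit 23) (.e (nat_lit 532523) (nat_lit 7) (.e (nat_lit 319506) (nat_lit 10) (.e (nat_lit 5389) (nat_lit 301) .nil))))))) (.g (nat_lit 5) .nil .nil)))) (.nd (nat_lit 5) 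
(.lf (nat_lit 164182) (.g (nat_lit 3487) (.e (nat_lit 57464) (nat_lit 23) (.e (nat_lit 516151) (nat_lit 9) (.e (nat_lit 426285) (nat_lit 10) (.e (nat_lit 434238) (nat_lit 25) (.e (nat_lit 556800) (nat_lit 14) (.e (nat_lit 2939) (nat_lit 184) (.e (nat_lit 425987) (nat_lit 0) (.e (nat_lit 7582) (nat_lit 405) .nil)))))))) (.g (nat_lit 4) .nil .nil))) 
(.lf (nat_lit 164214) (.g (nat_lit 1575) (.e (nat_lit 57464) (nat_lit 23) (.e (nat_lit 516151) (nat_lit 9) (.e (nat_lit 426286) (nat_lit 10) (.e (nat_lit 434242) (nat_lit 28) (.e (nat_lit 573450) (nat_lit 9) .nil))))) .nil)))) (.nd (nat_lit 4) (.nd (nat_lit 5) 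
(.lf (nat_lit 164174) (.g (nat_lit 2786) (.e (nat_lit 57464) (nat_lit 23) (.e (nat_lit 516151) (nat_lit 9) (.e (nat_lit 426285) (nat_lit 10) (.e (nat_lit 434227) (nat_lit 20) (.e (nat_lit 507929) (nat_lit 10) (.e (nat_lit 5763) (nat_lit 315) (.e (nat_lit 171776) (nat_lit 190) .nil))))))) (.g (nat_lit 4) .nil .nil))) 
(.lf (nat_lit 164206) (.g (nat_lit 1096) (.e (nat_lit 57464) (nat_lit 23) (.e (nat_lit 516151) (nat_lit 9) (.e (nat_lit 426286) (nat_lit 10) (.e (nat_lit 434238) (nat_lit 25) .nil)))) .nil))) (.nd (nat_lit 5) 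
(.lf (nat_lit 164190) (.g (nat_lit 1979) (.e (nat_lit 57464) (nat_lit 23) (.e (nat_lit 516151) (nat_lit 9) (.e (nat_lit 426286) (nat_lit 10) (.e (nat_lit 434227) (nat_lit 20) (.e (nat_lit 507928) (nat_lit 10) (.e (nat_lit 4931) (nat_lit 287) (.e (nat_lit 1079) (nat_lit 81) (.e (nat_lit 5394) (nat_lit 301) .nil)))))))) (.g (nat_lit 4) .nil .nil))) 
(.lf (nat_lit 164222) (.g (nat_lit 1651) (.e (nat_lit 57464) (nat_lit 23) (.e (nat_lit 516151) (nat_lit 9) (.e (nat_lit 426286) (nat_lit 10) (.e (nat_lit 434245) (nat_lit 28) (.e (nat_lit 573450) (nat_lit 9) .nil))))) .nil))))))) (.nd (nat_lit 1) (.nd (nat_lit 2) (.nd (nat_lit 3) (.nd (nat_lit 4) (.nd (nat_lit 5) 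
(.lf (nat_lit 164161) (.g (nat_lit 3620) (.e (nat_lit 57464) (nat_lit 23) (.e (nat_lit 516151) (nat_lit 9) (.e (nat_lit 426275) (nat_lit 10) (.e (nat_lit 434233) (nat_lit 23) (.e (nat_lit 532523) (nat_lit 7) (.e (nat_lit 319504) (nat_lit 10) (.e (nat_lit 5395) (nat_lit 301) .nil))))))) (.g (nat_lit 5) .nil .nil))) 
(.lf (nat_lit 164193) (.g (nat_lit 1481) (.e (nat_lit 57464) (nat_lit 23) (.e (nat_lit 516151) (nat_lit 9) (.e (nat_lit 426286) (nat_lit 10) (.e (nat_lit 434227) (nat_lit 20) (.e (nat_lit 507930) (nat_lit 10) .nil))))) .nil))) (.nd (nat_lit 5) 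
(.lf (nat_lit 164177) (.g (nat_lit 1403) (.e (nat_lit 57464) (nat_lit 23) (.e (nat_lit 516151) (nat_lit 9) (.e (nat_lit 426285) (nat_lit 10) (.e (nat_lit 434231) (nat_lit 23) .nil)))) .nil)) 
(.lf (nat_lit 164209) (.g (nat_lit 1786) (.e (nat_lit 57464) (nat_lit 23) (.e (nat_lit 516151) (nat_lit 9) (.e (nat_lit 426286) (nat_lit 10) (.e (nat_lit 434238) (nat_lit 25) (.e (nat_lit 556800) (nat_lit 14) .nil))))) .nil)))) (.nd (nat_lit 4) (.nd (nat_lit 5) 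
(.lf (nat_lit 164169) (.g (nat_lit 3282) (.e (nat_lit 57464) (nat_lit 23) (.e (nat_lit 516151) (nat_lit 9) (.e (nat_lit 426282) (nat_lit 10) (.e (nat_lit 434248) (nat_lit 28) (.e (nat_lit 573471) (nat_lit 11) (.e (nat_lit 16388) (nat_lit 0) (.e (nat_lit 7581) (nat_lit 405) .nil))))))) (.g (nat_lit 4) .nil .nil))) 
(.lf (nat_lit 164201) (.g (nat_lit 1890) (.e (nat_lit 57464) (nat_lit 23) (.e (nat_lit 516151) (nat_lit 9) (.e (nat_lit 426286) (nat_lit 10) (.e (nat_lit 434231) (nat_lit 23) (.e (nat_lit 532526) (nat_lit 8) .nil))))) .nil))) (.nd (nat_lit 5) 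
(.lf (nat_lit 164185) (.g (nat_lit 1469) (.e (nat_lit 57464) (nat_lit 23) (.e (nat_lit 516151) (nat_lit 9) (.e (nat_lit 426286) (nat_lit 10) (.e (nat_lit 434203) (nat_lit 18) .nil)))) .nil)) 
(.lf (nat_lit 164217) (.g (nat_lit 1698) (.e (nat_lit 57464) (nat_lit 23) (.e (nat_lit 516151) (nat_lit 9) (.e (nat_lit 426286) (nat_lit 10) (.e (nat_lit 434245) (nat_lit 28) (.e (nat_lit 573448) (nat_lit 9) .nil))))) .nil))))) (.nd (nat_lit 3) (.nd (nat_lit 4) (.nd (nat_lit 5) 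
(.lf (nat_lit 164165) (.g (nat_lit 3427) (.e (nat_lit 57464) (nat_lit 23) (.e (nat_lit 516151) (nat_lit 9) (.e (nat_lit 426275) (nat_lit 10) (.e (nat_lit 434233) (nat_lit 23) (.e (nat_lit 532523) (nat_lit 7) (.e (nat_lit 319511) (nat_lit 10) (.e (nat_lit 5394) (nat_lit 301) .nil))))))) (.g (nat_lit 5) .nil .nil))) 
(.lf (nat_lit 164197) (.g (nat_lit 3099) (.e (nat_lit 57464) (nat_lit 23) (.e (nat_lit 516151) (nat_lit 9) (.e (nat_lit 426286) (nat_lit 10) (.e (nat_lit 434231) (nat_lit 23) (.e (nat_lit 532486) (nat_lit 0) (.e (nat_lit 6212) (nat_lit 333) (.e (nat_lit 57896) (nat_lit 273) .nil))))))) (.g (nat_lit 6) .nil .nil)))) (.nd (nat_lit 5) 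
(.lf (nat_lit 164181) (.g (nat_lit 3575) (.e (nat_lit 57464) (nat_lit 23) (.e (nat_lit 516151) (nat_lit 9) (.e (nat_lit 426285) (nat_lit 10) (.e (nat_lit 434238) (nat_lit 25) (.e (nat_lit 556800) (nat_lit 14) (.e (nat_lit 2939) (nat_lit 184) (.e (nat_lit 425987) (nat_lit 0) (.e (nat_lit 7580) (nat_lit 405) .nil)))))))) (.g (nat_lit 4) .nil .nil))) 
(.lf (nat_lit 164213) (.g (nat_lit 1203) (.e (nat_lit 57464) (nat_lit 23) (.e (nat_lit 516151) (nat_lit 9) (.e (nat_lit 426286) (nat_lit 10) (.e (nat_lit 434242) (nat_lit 28) .nil)))) .nil)))) (.nd (nat_lit 4) (.nd (nat_lit 5) 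
(.lf (nat_lit 164173) (.g (nat_lit 3479) (.e (nat_lit 57464) (nat_lit 23) (.e (nat_lit 516151) (nat_lit 9) (.e (nat_lit 426285) (nat_lit 10) (.e (nat_lit 434227) (nat_lit 20) (.e (nat_lit 507928) (nat_lit 10) (.e (nat_lit 5007) (nat_lit 289) (.e (nat_lit 123212) (nat_lit 273) .nil))))))) (.g (nat_lit 4) .nil .nil))) 
(.lf (nat_lit 164205) (.g (nat_lit 2164) (.e (nat_lit 57464) (nat_lit 23) (.e (nat_lit 516151) (nat_lit 9) (.e (nat_lit 426286) (nat_lit 10) (.e (nat_lit 434237) (nat_lit 25) (.e (nat_lit 548914) (nat_lit 19) (.e (nat_lit 188160) (nat_lit 35) .nil)))))) (.g (nat_lit 5) .nil .nil)))) (.nd (nat_lit 5) 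
(.lf (nat_lit 164189) (.g (nat_lit 1518) (.e (nat_lit 57464) (nat_lit 23) (.e (nat_lit 516151) (nat_lit 9) (.e (nat_lit 426286) (nat_lit 10) (.e (nat_lit 434227) (nat_lit 20) (.e (nat_lit 507928) (nat_lit 10) .nil))))) .nil)) 
(.lf (nat_lit 164221) (.g (nat_lit 2010) (.e (nat_lit 57464) (nat_lit 23) (.e (nat_lit 516151) (nat_lit 9) (.e (nat_lit 426286) (nat_lit 10) (.e (nat_lit 434245) (nat_lit 28) (.e (nat_lit 573449) (nat_lit 9) (.e (nat_lit 449) (nat_lit 33) (.e (nat_lit 442112) (nat_lit 3) .nil))))))) (.g (nat_lit 4) .nil .nil))))))) (.nd (nat_lit 2) (.nd (nat_lit 3) (.nd (nat_lit 4) (.nd (nat_lit 5) 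
(.lf (nat_lit 164163) (.g (nat_lit 3128) (.e (nat_lit 57464) (nat_lit 23) (.e (nat_lit 516151) (nat_lit 9) (.e (nat_lit 426275) (nat_lit 10) (.e (nat_lit 434233) (nat_lit 23) (.e (nat_lit 532523) (nat_lit 7) (.e (nat_lit 319505) (nat_lit 10) (.e (nat_lit 5395) (nat_lit 301) .nil))))))) (.g (nat_lit 4) .nil .nil))) 
(.lf (nat_lit 164195) (.g (nat_lit 1951) (.e (nat_lit 57464) (nat_lit 23) (.e (nat_lit 516151) (nat_lit 9) (.e (nat_lit 426286) (nat_lit 10) (.e (nat_lit 434227) (nat_lit 20) (.e (nat_lit 507942) (nat_lit 15) (.e (nat_lit 278550) (nat_lit 10) (.e (nat_lit 5395) (nat_lit 301) .nil))))))) (.g (nat_lit 4) .nil .nil)))) (.nd (nat_lit 5) 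
(.lf (nat_lit 164179) (.g (nat_lit 3417) (.e (nat_lit 57464) (nat_lit 23) (.e (nat_lit 516151) (nat_lit 9) (.e (nat_lit 426285) (nat_lit 10) (.e (nat_lit 434233) (nat_lit 23) (.e (nat_lit 532523) (nat_lit 7) (.e (nat_lit 319504) (nat_lit 10) (.e (nat_lit 5396) (nat_lit 301) .nil))))))) (.g (nat_lit 4) .nil .nil))) 
(.lf (nat_lit 164211) (.g (nat_lit 2037) (.e (nat_lit 57464) (nat_lit 23) (.e (nat_lit 516151) (nat_lit 9) (.e (nat_lit 426286) (nat_lit 10) (.e (nat_lit 434238) (nat_lit 25) (.e (nat_lit 548913) (nat_lit 18) (.e (nat_lit 172033) (nat_lit 0) (.e (nat_lit 7936) (nat_lit 405) .nil))))))) (.g (nat_lit 4) .nil .nil))))) (.nd (nat_lit 4) (.nd (nat_lit 5) 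
(.lf (nat_lit 164171) (.g (nat_lit 405) (.e (nat_lit 57464) (nat_lit 23) (.e (nat_lit 516151) (nat_lit 9) (.e (nat_lit 426285) (nat_lit 10) .nil))) .nil)) 
(.lf (nat_lit 164203) (.g (nat_lit 1490) (.e (nat_lit 57464) (nat_lit 23) (.e (nat_lit 516151) (nat_lit 9) (.e (nat_lit 426286) (nat_lit 10) (.e (nat_lit 434234) (nat_lit 23) .nil)))) .nil))) (.nd (nat_lit 5) 
(.lf (nat_lit 164187) (.g (nat_lit 1470) (.e (nat_lit 57464) (nat_lit 23) (.e (nat_lit 516151) (nat_lit 9) (.e (nat_lit 426286) (nat_lit 10) (.e (nat_lit 434208) (nat_lit 18) .nil)))) .nil)) 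
(.lf (nat_lit 164219) (.g (nat_lit 2216) (.e (nat_lit 57464) (nat_lit 23) (.e (nat_lit 516151) (nat_lit 9) (.e (nat_lit 426286) (nat_lit 10) (.e (nat_lit 434245) (nat_lit 28) (.e (nat_lit 573448) (nat_lit 9) (.e (nat_lit 359) (nat_lit 30) (.e (nat_lit 409604) (nat_lit 0) (.e (nat_lit 5394) (nat_lit 301) .nil)))))))) (.g (nat_lit 4) .nil .nil)))))) 
(.nd (nat_lit 3) (.nd (nat_lit 4) (.nd (nat_lit 5) 
(.lf (nat_lit 164167) (.g (nat_lit 809) (.e (nat_lit 57464) (nat_lit 23) (.e (nat_lit 516151) (nat_lit 9) (.e (nat_lit 426281) (nat_lit 10) .nil))) .nil)) 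
(.lf (nat_lit 164199) (.g (nat_lit 2211) (.e (nat_lit 57464) (nat_lit 23) (.e (nat_lit 516151) (nat_lit 9) (.e (nat_lit 426286) (nat_lit 10) (.e (nat_lit 434231) (nat_lit 23) (.e (nat_lit 532525) (nat_lit 8) (.e (nat_lit 327707) (nat_lit 10) (.e (nat_lit 5389) (nat_lit 301) .nil))))))) (.g (nat_lit 4) .nil .nil)))) (.nd (nat_lit 5) 
(.lf (nat_lit 164183) (.g (nat_lit 3542) (.e (nat_lit 57464) (nat_lit 23) (.e (nat_lit 516151) (nat_lit 9) (.e (nat_lit 426285) (nat_lit 10) (.e (nat_lit 434238) (nat_lit 25) (.e (nat_lit 548914) (nat_lit 19) (.e (nat_lit 188160) (nat_lit 35) .nil)))))) (.g (nat_lit 5) .nil .nil))) 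
(.lf (nat_lit 164215) (.g (nat_lit 1390) (.e (nat_lit 57464) (nat_lit 23) (.e (nat_lit 516151) (nat_lit 9) (.e (nat_lit 426286) (nat_lit 10) (.e (nat_lit 434244) (nat_lit 28) .nil)))) .nil)))) (.nd (nat_lit 4) (.nd (nat_lit 5) 
(.lf (nat_lit 164175) (.g (nat_lit 2698) (.e (nat_lit 57464) (nat_lit 23) (.e (nat_lit 516151) (nat_lit 9) (.e (nat_lit 426285) (nat_lit 10) (.e (nat_lit 434227) (nat_lit 20) (.e (nat_lit 507930) (nat_lit 10) (.e (nat_lit 5763) (nat_lit 315) (.e (nat_lit 171776) (nat_lit 190) .nil))))))) (.g (nat_lit 4) .nil .nil))) 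
(.lf (nat_lit 164207) (.g (nat_lit 1827) (.e (nat_lit 57464) (nat_lit 23) (.e (nat_lit 516151) (nat_lit 9) (.e (nat_lit 426286) (nat_lit 10) (.e (nat_lit 434238) (nat_lit 25) (.e (nat_lit 548894) (nat_lit 14) .nil))))) .nil))) (.nd (nat_lit 5) 
(.lf (nat_lit 164191) (.g (nat_lit 2136) (.e (nat_lit 57464) (nat_lit 23) (.e (nat_lit 516151) (nat_lit 9) (.e (nat_lit 426286) (nat_lit 10) (.e (nat_lit 434227) (nat_lit 20) (.e (nat_lit 507928) (nat_lit 10) (.e (nat_lit 4979) (nat_lit 287) (.e (nat_lit 1079) (nat_lit 81) (.e (nat_lit 5394) (nat_lit 301) .nil)))))))) (.g (nat_lit 4) .nil .nil))) 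
(.lf (nat_lit 164223) (.g (nat_lit 2081) (.e (nat_lit 57464) (nat_lit 23) (.e (nat_lit 516151) (nat_lit 9) (.e (nat_lit 426286) (nat_lit 10) (.e (nat_lit 434245) (nat_lit 28) (.e (nat_lit 573450) (nat_lit 9) (.e (nat_lit 362) (nat_lit 30) (.e (nat_lit 409604) (nat_lit 0) (.e (nat_lit 5394) (nat_lit 301) .nil)))))))) (.g (nat_lit 4) .nil .nil)))))))))

noncomputable def tv2203 : DT := (.nd (nat_lit 0) (.nd (nat_lit 1) (.nd (nat_lit 2) (.nd (nat_lit 3) (.nd (nat_lit 4) (.nd (nat_lit 5) 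
(.lf (nat_lit 164224) (.g (nat_lit 2252) (.e (nat_lit 57464) (nat_lit 23) (.e (nat_lit 516151) (nat_lit 9) (.e (nat_lit 426286) (nat_lit 10) (.e (nat_lit 434245) (nat_lit 28) (.e (nat_lit 573450) (nat_lit 9) (.e (nat_lit 362) (nat_lit 30) (.e (nat_lit 409605) (nat_lit 0) (.e (nat_lit 5394) (nat_lit 301) .nil)))))))) (.g (nat_lit 4) .nil .nil))) 
(.lf (nat_lit 164256) (.g (nat_lit 2175) (.e (nat_lit 57464) (nat_lit 23) (.e (nat_lit 516151) (nat_lit 9) (.e (nat_lit 426286) (nat_lit 10) (.e (nat_lit 434245) (nat_lit 28) (.e (nat_lit 573458) (nat_lit 9) (.e (nat_lit 420) (nat_lit 32) (.e (nat_lit 425990) (nat_lit 0) (.e (nat_lit 7582) (nat_lit 405) .nil)))))))) (.g (nat_lit 4) .nil .nil)))) (.nd (nat_lit 5) 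
(.lf (nat_lit 164240) (.g (nat_lit 3615) (.e (nat_lit 57464) (nat_lit 23) (.e (nat_lit 516151) (nat_lit 9) (.e (nat_lit 426286) (nat_lit 10) (.e (nat_lit 434245) (nat_lit 28) (.e (nat_lit 573451) (nat_lit 9) (.e (nat_lit 428) (nat_lit 32) (.e (nat_lit 425984) (nat_lit 0) (.e (nat_lit 7582) (nat_lit 405) .nil)))))))) (.g (nat_lit 0) .nil .nil))) 
(.lf (nat_lit 164272) (.g (nat_lit 3653) (.e (nat_lit 57464) (nat_lit 23) (.e (nat_lit 516151) (nat_lit 9) (.e (nat_lit 426286) (nat_lit 10) (.e (nat_lit 434245) (nat_lit 28) (.e (nat_lit 573471) (nat_lit 11) (.e (nat_lit 16399) (nat_lit 0) (.e (nat_lit 7936) (nat_lit 405) .nil))))))) (.g (nat_lit 5) .nil .nil))))) (.nd (nat_lit 4) (.nd (nat_lit 5) 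
(.lf (nat_lit 164232) (.g (nat_lit 2843) (.e (nat_lit 57464) (nat_lit 23) (.e (nat_lit 516151) (nat_lit 9) (.e (nat_lit 426286) (nat_lit 10) (.e (nat_lit 434245) (nat_lit 28) (.e (nat_lit 573451) (nat_lit 9) (.e (nat_lit 62) (nat_lit 0) (.e (nat_lit 7088) (nat_lit 379) (.e (nat_lit 123212) (nat_lit 273) .nil)))))))) (.g (nat_lit 5) .nil .nil))) 
(.lf (nat_lit 164264) (.g (nat_lit 1818) (.e (nat_lit 57464) (nat_lit 23) (.e (nat_lit 516151) (nat_lit 9) (.e (nat_lit 426286) (nat_lit 10) (.e (nat_lit 434245) (nat_lit 28) (.e (nat_lit 573468) (nat_lit 10) (.e (nat_lit 8493) (nat_lit 180) (.e (nat_lit 1078) (nat_lit 81) (.e (nat_lit 5394) (nat_lit 301) .nil)))))))) (.g (nat_lit 4) .nil .nil)))) (.nd (nat_lit 5) 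
(.lf (nat_lit 164248) (.g (nat_lit 1742) (.e (nat_lit 57464) (nat_lit 23) (.e (nat_lit 516151) (nat_lit 9) (.e (nat_lit 426286) (nat_lit 10) (.e (nat_lit 434245) (nat_lit 28) (.e (nat_lit 573455) (nat_lit 9) .nil))))) .nil)) 
(.lf (nat_lit 164280) (.g (nat_lit 2024) (.e (nat_lit 57464) (nat_lit 23) (.e (nat_lit 516151) (nat_lit 9) (.e (nat_lit 426286) (nat_lit 10) (.e (nat_lit 434247) (nat_lit 28) (.e (nat_lit 573456) (nat_lit 9) (.e (nat_lit 7936) (nat_lit 30) (.e (nat_lit 409603) (nat_lit 0) (.e (nat_lit 5394) (nat_lit 301) .nil)))))))) (.g (nat_lit 4) .nil .nil)))))) 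
(.nd (nat_lit 3) (.nd (nat_lit 4) (.nd (nat_lit 5) 
(.lf (nat_lit 164228) (.g (nat_lit 2151) (.e (nat_lit 57464) (nat_lit 23) (.e (nat_lit 516151) (nat_lit 9) (.e (nat_lit 426286) (nat_lit 10) (.e (nat_lit 434245) (nat_lit 28) (.e (nat_lit 573451) (nat_lit 9) (.e (nat_lit 11) (nat_lit 0) (.e (nat_lit 7091) (nat_lit 379) (.e (nat_lit 123212) (nat_lit 273) .nil)))))))) (.g (nat_lit 4) .nil .nil))) 
(.lf (nat_lit 164260) (.g (nat_lit 2943) (.e (nat_lit 57464) (nat_lit 23) (.e (nat_lit 516151) (nat_lit 9) (.e (nat_lit 426286) (nat_lit 10) (.e (nat_lit 434245) (nat_lit 28) (.e (nat_lit 573468) (nat_lit 10) (.e (nat_lit 8490) (nat_lit 180) (.e (nat_lit 1079) (nat_lit 81) (.e (nat_lit 5394) (nat_lit 301) .nil)))))))) (.g (nat_lit 5) .nil .nil)))) (.nd (nat_lit 5) 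
(.lf (nat_lit 164244) (.g (nat_lit 2195) (.e (nat_lit 57464) (nat_lit 23) (.e (nat_lit 516151) (nat_lit 9) (.e (nat_lit 426286) (nat_lit 10) (.e (nat_lit 434245) (nat_lit 28) (.e (nat_lit 573451) (nat_lit 9) (.e (nat_lit 7936) (nat_lit 32) (.e (nat_lit 425990) (nat_lit 0) (.e (nat_lit 7580) (nat_lit 405) .nil)))))))) (.g (nat_lit 4) .nil .nil))) 
(.lf (nat_lit 164276) (.g (nat_lit 1050) (.e (nat_lit 57464) (nat_lit 23) (.e (nat_lit 516151) (nat_lit 9) (.e (nat_lit 426286) (nat_lit 10) (.e (nat_lit 434247) (nat_lit 28) .nil)))) .nil)))) (.nd (nat_lit 4) (.nd (nat_lit 5) 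
(.lf (nat_lit 164236) (.g (nat_lit 2010) (.e (nat_lit 57464) (nat_lit 23) (.e (nat_lit 516151) (nat_lit 9) (.e (nat_lit 426286) (nat_lit 10) (.e (nat_lit 434245) (nat_lit 28) (.e (nat_lit 573451) (nat_lit 9) (.e (nat_lit 365) (nat_lit 31) (.e (nat_lit 417795) (nat_lit 0) (.e (nat_lit 5389) (nat_lit 301) .nil)))))))) (.g (nat_lit 4) .nil .nil))) 
(.lf (nat_lit 164268) (.g (nat_lit 3571) (.e (nat_lit 57464) (nat_lit 23) (.e (nat_lit 516151) (nat_lit 9) (.e (nat_lit 426286) (nat_lit 10) (.e (nat_lit 434245) (nat_lit 28) (.e (nat_lit 573471) (nat_lit 11) (.e (nat_lit 16392) (nat_lit 0) (.e (nat_lit 7936) (nat_lit 405) .nil))))))) (.g (nat_lit 6) .nil .nil)))) (.nd (nat_lit 5) 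
(.lf (nat_lit 164252) (.g (nat_lit 1898) (.e (nat_lit 57464) (nat_lit 23) (.e (nat_lit 516151) (nat_lit 9) (.e (nat_lit 426286) (nat_lit 10) (.e (nat_lit 434245) (nat_lit 28) (.e (nat_lit 573458) (nat_lit 9) (.e (nat_lit 7936) (nat_lit 30) (.e (nat_lit 409603) (nat_lit 0) (.e (nat_lit 5394) (nat_lit 301) .nil)))))))) (.g (nat_lit 4) .nil .nil))) 
(.lf (nat_lit 164284) (.g (nat_lit 2958) (.e (nat_lit 57464) (nat_lit 23) (.e (nat_lit 516151) (nat_lit 9) (.e (nat_lit 426286) (nat_lit 10) (.e (nat_lit 434247) (nat_lit 28) (.e (nat_lit 573456) (nat_lit 9) (.e (nat_lit 428) (nat_lit 32) (.e (nat_lit 425987) (nat_lit 0) (.e (nat_lit 7582) (nat_lit 405) .nil)))))))) (.g (nat_lit 5) .nil .nil))))))) 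
(.nd (nat_lit 2) (.nd (nat_lit 3) (.nd (nat_lit 4) (.nd (nat_lit 5) 
(.lf (nat_lit 164226) (.g (nat_lit 3911) (.e (nat_lit 57464) (nat_lit 23) (.e (nat_lit 516151) (nat_lit 9) (.e (nat_lit 426286) (nat_lit 10) (.e (nat_lit 434245) (nat_lit 28) (.e (nat_lit 573450) (nat_lit 9) (.e (nat_lit 433) (nat_lit 32) (.e (nat_lit 425984) (nat_lit 0) (.e (nat_lit 7582) (nat_lit 405) .nil)))))))) (.g (nat_lit 0) .nil .nil))) 
(.lf (nat_lit 164258) (.g (nat_lit 2282) (.e (nat_lit 57464) (nat_lit 23) (.e (nat_lit 516151) (nat_lit 9) (.e (nat_lit 426286) (nat_lit 10) (.e (nat_lit 434245) (nat_lit 28) (.e (nat_lit 573458) (nat_lit 9) (.e (nat_lit 7936) (nat_lit 32) (.e (nat_lit 425989) (nat_lit 0) (.e (nat_lit 7582) (nat_lit 405) .nil)))))))) (.g (nat_lit 4) .nil .nil)))) (.nd (nat_lit 5) 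
(.lf (nat_lit 164242) (.g (nat_lit 2165) (.e (nat_lit 57464) (nat_lit 23) (.e (nat_lit 516151) (nat_lit 9) (.e (nat_lit 426286) (nat_lit 10) (.e (nat_lit 434245) (nat_lit 28) (.e (nat_lit 573451) (nat_lit 9) (.e (nat_lit 7936) (nat_lit 32) (.e (nat_lit 425984) (nat_lit 0) (.e (nat_lit 7582) (nat_lit 405) .nil)))))))) (.g (nat_lit 4) .nil .nil))) 
(.lf (nat_lit 164274) (.g (nat_lit 3614) (.e (nat_lit 57464) (nat_lit 23) (.e (nat_lit 516151) (nat_lit 9) (.e (nat_lit 426286) (nat_lit 10) (.e (nat_lit 434245) (nat_lit 28) (.e (nat_lit 573471) (nat_lit 11) (.e (nat_lit 16402) (nat_lit 0) (.e (nat_lit 7936) (nat_lit 405) .nil))))))) (.g (nat_lit 6) .nil .nil))))) (.nd (nat_lit 4) (.nd (nat_lit 5) 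
(.lf (nat_lit 164234) (.g (nat_lit 2218) (.e (nat_lit 57464) (nat_lit 23) (.e (nat_lit 516151) (nat_lit 9) (.e (nat_lit 426286) (nat_lit 10) (.e (nat_lit 434245) (nat_lit 28) (.e (nat_lit 573451) (nat_lit 9) (.e (nat_lit 7936) (nat_lit 0) (.e (nat_lit 7089) (nat_lit 379) (.e (nat_lit 123212) (nat_lit 273) .nil)))))))) (.g (nat_lit 4) .nil .nil))) 
(.lf (nat_lit 164266) (.g (nat_lit 3278) (.e (nat_lit 57464) (nat_lit 23) (.e (nat_lit 516151) (nat_lit 9) (.e (nat_lit 426286) (nat_lit 10) (.e (nat_lit 434245) (nat_lit 28) (.e (nat_lit 573471) (nat_lit 11) (.e (nat_lit 16390) (nat_lit 0) (.e (nat_lit 7936) (nat_lit 405) .nil))))))) (.g (nat_lit 6) .nil .nil)))) (.nd (nat_lit 5) 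
(.lf (nat_lit 164250) (.g (nat_lit 2248) (.e (nat_lit 57464) (nat_lit 23) (.e (nat_lit 516151) (nat_lit 9) (.e (nat_lit 426286) (nat_lit 10) (.e (nat_lit 434245) (nat_lit 28) (.e (nat_lit 573458) (nat_lit 9) (.e (nat_lit 60) (nat_lit 0) (.e (nat_lit 7089) (nat_lit 379) (.e (nat_lit 123212) (nat_lit 273) .nil)))))))) (.g (nat_lit 4) .nil .nil))) 
(.lf (nat_lit 164282) (.g (nat_lit 2590) (.e (nat_lit 57464) (nat_lit 23) (.e (nat_lit 516151) (nat_lit 9) (.e (nat_lit 426286) (nat_lit 10) (.e (nat_lit 434247) (nat_lit 28) (.e (nat_lit 573456) (nat_lit 9) (.e (nat_lit 365) (nat_lit 31) (.e (nat_lit 417795) (nat_lit 0) (.e (nat_lit 5391) (nat_lit 301) .nil)))))))) (.g (nat_lit 4) .nil .nil)))))) 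
(.nd (nat_lit 3) (.nd (nat_lit 4) (.nd (nat_lit 5) 
(.lf (nat_lit 164230) (.g (nat_lit 2239) (.e (nat_lit 57464) (nat_lit 23) (.e (nat_lit 516151) (nat_lit 9) (.e (nat_lit 426286) (nat_lit 10) (.e (nat_lit 434245) (nat_lit 28) (.e (nat_lit 573451) (nat_lit 9) (.e (nat_lit 61) (nat_lit 0) (.e (nat_lit 7089) (nat_lit 379) (.e (nat_lit 123212) (nat_lit 273) .nil)))))))) (.g (nat_lit 4) .nil .nil))) 
(.lf (nat_lit 164262) (.g (nat_lit 2605) (.e (nat_lit 57464) (nat_lit 23) (.e (nat_lit 516151) (nat_lit 9) (.e (nat_lit 426286) (nat_lit 10) (.e (nat_lit 434245) (nat_lit 28) (.e (nat_lit 573468) (nat_lit 10) (.e (nat_lit 8492) (nat_lit 180) (.e (nat_lit 1074) (nat_lit 81) (.e (nat_lit 5394) (nat_lit 301) .nil)))))))) (.g (nat_lit 5) .nil .nil)))) (.nd (nat_lit 5) 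
(.lf (nat_lit 164246) (.g (nat_lit 2872) (.e (nat_lit 57464) (nat_lit 23) (.e (nat_lit 516151) (nat_lit 9) (.e (nat_lit 426286) (nat_lit 10) (.e (nat_lit 434245) (nat_lit 28) (.e (nat_lit 573451) (nat_lit 9) (.e (nat_lit 7936) (nat_lit 33) (.e (nat_lit 442112) (nat_lit 3) .nil))))))) (.g (nat_lit 5) .nil .nil))) 
(.lf (nat_lit 164278) (.g (nat_lit 1758) (.e (nat_lit 57464) (nat_lit 23) (.e (nat_lit 516151) (nat_lit 9) (.e (nat_lit 426286) (nat_lit 10) (.e (nat_lit 434247) (nat_lit 28) (.e (nat_lit 573456) (nat_lit 9) .nil))))) .nil)))) (.nd (nat_lit 4) (.nd (nat_lit 5) 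
(.lf (nat_lit 164238) (.g (nat_lit 3256) (.e (nat_lit 57464) (nat_lit 23) (.e (nat_lit 516151) (nat_lit 9) (.e (nat_lit 426286) (nat_lit 10) (.e (nat_lit 434245) (nat_lit 28) (.e (nat_lit 573451) (nat_lit 9) (.e (nat_lit 365) (nat_lit 31) (.e (nat_lit 417796) (nat_lit 0) (.e (nat_lit 5391) (nat_lit 301) .nil)))))))) (.g (nat_lit 5) .nil .nil))) 
(.lf (nat_lit 164270) (.g (nat_lit 3159) (.e (nat_lit 57464) (nat_lit 23) (.e (nat_lit 516151) (nat_lit 9) (.e (nat_lit 426286) (nat_lit 10) (.e (nat_lit 434245) (nat_lit 28) (.e (nat_lit 573471) (nat_lit 11) (.e (nat_lit 16397) (nat_lit 0) (.e (nat_lit 7936) (nat_lit 405) .nil))))))) (.g (nat_lit 6) .nil .nil)))) (.nd (nat_lit 5) 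
(.lf (nat_lit 164254) (.g (nat_lit 2755) (.e (nat_lit 57464) (nat_lit 23) (.e (nat_lit 516151) (nat_lit 9) (.e (nat_lit 426286) (nat_lit 10) (.e (nat_lit 434245) (nat_lit 28) (.e (nat_lit 573458) (nat_lit 9) (.e (nat_lit 420) (nat_lit 32) (.e (nat_lit 425989) (nat_lit 0) (.e (nat_lit 7580) (nat_lit 405) .nil)))))))) (.g (nat_lit 5) .nil .nil))) 
(.lf (nat_lit 164286) (.g (nat_lit 2904) (.e (nat_lit 57464) (nat_lit 23) (.e (nat_lit 516151) (nat_lit 9) (.e (nat_lit 426286) (nat_lit 10) (.e (nat_lit 434247) (nat_lit 28) (.e (nat_lit 573456) (nat_lit 9) (.e (nat_lit 428) (nat_lit 32) (.e (nat_lit 425990) (nat_lit 0) (.e (nat_lit 7582) (nat_lit 405) .nil)))))))) (.g (nat_lit 5) .nil .nil)))))))) 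
(.nd (nat_lit 1) (.nd (nat_lit 2) (.nd (nat_lit 3) (.nd (nat_lit 4) (.nd (nat_lit 5) 
(.lf (nat_lit 164225) (.g (nat_lit 4061) (.e (nat_lit 57464) (nat_lit 23) (.e (nat_lit 516151) (nat_lit 9) (.e (nat_lit 426286) (nat_lit 10) (.e (nat_lit 434245) (nat_lit 28) (.e (nat_lit 573450) (nat_lit 9) (.e (nat_lit 375) (nat_lit 32) (.e (nat_lit 426025) (nat_lit 0) (.e (nat_lit 7936) (nat_lit 405) .nil)))))))) (.g (nat_lit 6) .nil .nil))) 
(.lf (nat_lit 164257) (.g (nat_lit 2613) (.e (nat_lit 57464) (nat_lit 23) (.e (nat_lit 516151) (nat_lit 9) (.e (nat_lit 426286) (nat_lit 10) (.e (nat_lit 434245) (nat_lit 28) (.e (nat_lit 573458) (nat_lit 9) (.e (nat_lit 7936) (nat_lit 32) (.e (nat_lit 425984) (nat_lit 0) (.e (nat_lit 7580) (nat_lit 405) .nil)))))))) (.g (nat_lit 5) .nil .nil)))) (.nd (nat_lit 5) 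
(.lf (nat_lit 164241) (.g (nat_lit 2352) (.e (nat_lit 57464) (nat_lit 23) (.e (nat_lit 516151) (nat_lit 9) (.e (nat_lit 426286) (nat_lit 10) (.e (nat_lit 434245) (nat_lit 28) (.e (nat_lit 573451) (nat_lit 9) (.e (nat_lit 7936) (nat_lit 32) (.e (nat_lit 425984) (nat_lit 0) (.e (nat_lit 7580) (nat_lit 405) .nil)))))))) (.g (nat_lit 4) .nil .nil))) 
(.lf (nat_lit 164273) (.g (nat_lit 3727) (.e (nat_lit 57464) (nat_lit 23) (.e (nat_lit 516151) (nat_lit 9) (.e (nat_lit 426286) (nat_lit 10) (.e (nat_lit 434245) (nat_lit 28) (.e (nat_lit 573471) (nat_lit 11) (.e (nat_lit 16401) (nat_lit 0) (.e (nat_lit 7936) (nat_lit 405) .nil))))))) (.g (nat_lit 5) .nil .nil))))) (.nd (nat_lit 4) (.nd (nat_lit 5) 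
(.lf (nat_lit 164233) (.g (nat_lit 3239) (.e (nat_lit 57464) (nat_lit 23) (.e (nat_lit 516151) (nat_lit 9) (.e (nat_lit 426286) (nat_lit 10) (.e (nat_lit 434245) (nat_lit 28) (.e (nat_lit 573451) (nat_lit 9) (.e (nat_lit 62) (nat_lit 0) (.e (nat_lit 7089) (nat_lit 379) (.e (nat_lit 123212) (nat_lit 273) .nil)))))))) (.g (nat_lit 5) .nil .nil))) 
(.lf (nat_lit 164265) (.g (nat_lit 2930) (.e (nat_lit 57464) (nat_lit 23) (.e (nat_lit 516151) (nat_lit 9) (.e (nat_lit 426286) (nat_lit 10) (.e (nat_lit 434245) (nat_lit 28) (.e (nat_lit 573468) (nat_lit 10) (.e (nat_lit 8493) (nat_lit 180) (.e (nat_lit 1079) (nat_lit 81) (.e (nat_lit 5394) (nat_lit 301) .nil)))))))) (.g (nat_lit 5) .nil .nil)))) (.nd (nat_lit 5) 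
(.lf (nat_lit 164249) (.g (nat_lit 1710) (.e (nat_lit 57464) (nat_lit 23) (.e (nat_lit 516151) (nat_lit 9) (.e (nat_lit 426286) (nat_lit 10) (.e (nat_lit 434245) (nat_lit 28) (.e (nat_lit 573458) (nat_lit 9) .nil))))) .nil)) 
(.lf (nat_lit 164281) (.g (nat_lit 2711) (.e (nat_lit 57464) (nat_lit 23) (.e (nat_lit 516151) (nat_lit 9) (.e (nat_lit 426286) (nat_lit 10) (.e (nat_lit 434247) (nat_lit 28) (.e (nat_lit 573456) (nat_lit 9) (.e (nat_lit 7936) (nat_lit 30) (.e (nat_lit 409604) (nat_lit 0) (.e (nat_lit 5394) (nat_lit 301) .nil)))))))) (.g (nat_lit 5) .nil .nil)))))) 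
(.nd (nat_lit 3) (.nd (nat_lit 4) (.nd (nat_lit 5) 
(.lf (nat_lit 164229) (.g (nat_lit 2194) (.e (nat_lit 57464) (nat_lit 23) (.e (nat_lit 516151) (nat_lit 9) (.e (nat_lit 426286) (nat_lit 10) (.e (nat_lit 434245) (nat_lit 28) (.e (nat_lit 573451) (nat_lit 9) (.e (nat_lit 61) (nat_lit 0) (.e (nat_lit 7087) (nat_lit 379) (.e (nat_lit 123212) (nat_lit 273) .nil)))))))) (.g (nat_lit 4) .nil .nil))) 
(.lf (nat_lit 164261) (.g (nat_lit 1844) (.e (nat_lit 57464) (nat_lit 23) (.e (nat_lit 516151) (nat_lit 9) (.e (nat_lit 426286) (nat_lit 10) (.e (nat_lit 434245) (nat_lit 28) (.e (nat_lit 573468) (nat_lit 10) (.e (nat_lit 8490) (nat_lit 180) (.e (nat_lit 1088) (nat_lit 81) (.e (nat_lit 5394) (nat_lit 301) .nil)))))))) (.g (nat_lit 4) .nil .nil)))) (.nd (nat_lit 5) 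
(.lf (nat_lit 164245) (.g (nat_lit 2018) (.e (nat_lit 57464) (nat_lit 23) (.e (nat_lit 516151) (nat_lit 9) (.e (nat_lit 426286) (nat_lit 10) (.e (nat_lit 434245) (nat_lit 28) (.e (nat_lit 573451) (nat_lit 9) (.e (nat_lit 7936) (nat_lit 32) (.e (nat_lit 425990) (nat_lit 0) (.e (nat_lit 7582) (nat_lit 405) .nil)))))))) (.g (nat_lit 4) .nil .nil))) 
(.lf (nat_lit 164277) (.g (nat_lit 1689) (.e (nat_lit 57464) (nat_lit 23) (.e (nat_lit 516151) (nat_lit 9) (.e (nat_lit 426286) (nat_lit 10) (.e (nat_lit 434247) (nat_lit 28) (.e (nat_lit 573454) (nat_lit 9) .nil))))) .nil)))) (.nd (nat_lit 4) (.nd (nat_lit 5) 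
(.lf (nat_lit 164237) (.g (nat_lit 2960) (.e (nat_lit 57464) (nat_lit 23) (.e (nat_lit 516151) (nat_lit 9) (.e (nat_lit 426286) (nat_lit 10) (.e (nat_lit 434245) (nat_lit 28) (.e (nat_lit 573451) (nat_lit 9) (.e (nat_lit 365) (nat_lit 31) (.e (nat_lit 417795) (nat_lit 0) (.e (nat_lit 5391) (nat_lit 301) .nil)))))))) (.g (nat_lit 5) .nil .nil))) 
(.lf (nat_lit 164269) (.g (nat_lit 3414) (.e (nat_lit 57464) (nat_lit 23) (.e (nat_lit 516151) (nat_lit 9) (.e (nat_lit 426286) (nat_lit 10) (.e (nat_lit 434245) (nat_lit 28) (.e (nat_lit 573471) (nat_lit 11) (.e (nat_lit 16396) (nat_lit 0) (.e (nat_lit 7936) (nat_lit 405) .nil))))))) (.g (nat_lit 6) .nil .nil)))) (.nd (nat_lit 5) 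
(.lf (nat_lit 164253) (.g (nat_lit 2234) (.e (nat_lit 57464) (nat_lit 23) (.e (nat_lit 516151) (nat_lit 9) (.e (nat_lit 426286) (nat_lit 10) (.e (nat_lit 434245) (nat_lit 28) (.e (nat_lit 573458) (nat_lit 9) (.e (nat_lit 7936) (nat_lit 30) (.e (nat_lit 409604) (nat_lit 0) (.e (nat_lit 5394) (nat_lit 301) .nil)))))))) (.g (nat_lit 4) .nil .nil))) 
(.lf (nat_lit 164285) (.g (nat_lit 2934) (.e (nat_lit 57464) (nat_lit 23) (.e (nat_lit 516151) (nat_lit 9) (.e (nat_lit 426286) (nat_lit 10) (.e (nat_lit 434247) (nat_lit 28) (.e (nat_lit 573456) (nat_lit 9) (.e (nat_lit 428) (nat_lit 32) (.e (nat_lit 425989) (nat_lit 0) (.e (nat_lit 7582) (nat_lit 405) .nil)))))))) (.g (nat_lit 5) .nil .nil))))))) 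
(.nd (nat_lit 2) (.nd (nat_lit 3) (.nd (nat_lit 4) (.nd (nat_lit 5) 
(.lf (nat_lit 164227) (.g (nat_lit 1747) (.e (nat_lit 57464) (nat_lit 23) (.e (nat_lit 516151) (nat_lit 9) (.e (nat_lit 426286) (nat_lit 10) (.e (nat_lit 434245) (nat_lit 28) (.e (nat_lit 573451) (nat_lit 9) .nil))))) .nil)) 
(.lf (nat_lit 164259) (.g (nat_lit 1538) (.e (nat_lit 57464) (nat_lit 23) (.e (nat_lit 516151) (nat_lit 9) (.e (nat_lit 426286) (nat_lit 10) (.e (nat_lit 434245) (nat_lit 28) (.e (nat_lit 573468) (nat_lit 10) .nil))))) .nil))) (.nd (nat_lit 5) 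
(.lf (nat_lit 164243) (.g (nat_lit 2238) (.e (nat_lit 57464) (nat_lit 23) (.e (nat_lit 516151) (nat_lit 9) (.e (nat_lit 426286) (nat_lit 10) (.e (nat_lit 434245) (nat_lit 28) (.e (nat_lit 573451) (nat_lit 9) (.e (nat_lit 7936) (nat_lit 32) (.e (nat_lit 425987) (nat_lit 0) (.e (nat_lit 7582) (nat_lit 405) .nil)))))))) (.g (nat_lit 4) .nil .nil))) 
(.lf (nat_lit 164275) (.g (nat_lit 3099) (.e (nat_lit 57464) (nat_lit 23) (.e (nat_lit 516151) (nat_lit 9) (.e (nat_lit 426286) (nat_lit 10) (.e (nat_lit 434245) (nat_lit 28) (.e (nat_lit 573471) (nat_lit 11) (.e (nat_lit 16403) (nat_lit 0) (.e (nat_lit 7936) (nat_lit 405) .nil))))))) (.g (nat_lit 5) .nil .nil))))) (.nd (nat_lit 4) (.nd (nat_lit 5) 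
(.lf (nat_lit 164235) (.g (nat_lit 3460) (.e (nat_lit 57464) (nat_lit 23) (.e (nat_lit 516151) (nat_lit 9) (.e (nat_lit 426286) (nat_lit 10) (.e (nat_lit 434245) (nat_lit 28) (.e (nat_lit 573451) (nat_lit 9) (.e (nat_lit 359) (nat_lit 30) (.e (nat_lit 409602) (nat_lit 0) (.e (nat_lit 5389) (nat_lit 301) .nil)))))))) (.g (nat_lit 6) .nil .nil))) 
(.lf (nat_lit 164267) (.g (nat_lit 3598) (.e (nat_lit 57464) (nat_lit 23) (.e (nat_lit 516151) (nat_lit 9) (.e (nat_lit 426286) (nat_lit 10) (.e (nat_lit 434245) (nat_lit 28) (.e (nat_lit 573471) (nat_lit 11) (.e (nat_lit 16391) (nat_lit 0) (.e (nat_lit 7936) (nat_lit 405) .nil))))))) (.g (nat_lit 5) .nil .nil)))) (.nd (nat_lit 5) 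
(.lf (nat_lit 164251) (.g (nat_lit 1951) (.e (nat_lit 57464) (nat_lit 23) (.e (nat_lit 516151) (nat_lit 9) (.e (nat_lit 426286) (nat_lit 10) (.e (nat_lit 434245) (nat_lit 28) (.e (nat_lit 573458) (nat_lit 9) (.e (nat_lit 7936) (nat_lit 0) (.e (nat_lit 7088) (nat_lit 379) (.e (nat_lit 123212) (nat_lit 273) .nil)))))))) (.g (nat_lit 4) .nil .nil))) 
(.lf (nat_lit 164283) (.g (nat_lit 2906) (.e (nat_lit 57464) (nat_lit 23) (.e (nat_lit 516151) (nat_lit 9) (.e (nat_lit 426286) (nat_lit 10) (.e (nat_lit 434247) (nat_lit 28) (.e (nat_lit 573456) (nat_lit 9) (.e (nat_lit 365) (nat_lit 31) (.e (nat_lit 417796) (nat_lit 0) (.e (nat_lit 5391) (nat_lit 301) .nil)))))))) (.g (nat_lit 5) .nil .nil)))))) 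
(.nd (nat_lit 3) (.nd (nat_lit 4) (.nd (nat_lit 5) 
(.lf (nat_lit 164231) (.g (nat_lit 2984) (.e (nat_lit 57464) (nat_lit 23) (.e (nat_lit 516151) (nat_lit 9) (.e (nat_lit 426286) (nat_lit 10) (.e (nat_lit 434245) (nat_lit 28) (.e (nat_lit 573451) (nat_lit 9) (.e (nat_lit 62) (nat_lit 0) (.e (nat_lit 7087) (nat_lit 379) (.e (nat_lit 123212) (nat_lit 273) .nil)))))))) (.g (nat_lit 5) .nil .nil))) 
(.lf (nat_lit 164263) (.g (nat_lit 2487) (.e (nat_lit 57464) (nat_lit 23) (.e (nat_lit 516151) (nat_lit 9) (.e (nat_lit 426286) (nat_lit 10) (.e (nat_lit 434245) (nat_lit 28) (.e (nat_lit 573468) (nat_lit 10) (.e (nat_lit 8492) (nat_lit 180) (.e (nat_lit 1077) (nat_lit 81) (.e (nat_lit 5394) (nat_lit 301) .nil)))))))) (.g (nat_lit 5) .nil .nil)))) (.nd (nat_lit 5) 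
(.lf (nat_lit 164247) (.g (nat_lit 1916) (.e (nat_lit 57464) (nat_lit 23) (.e (nat_lit 516151) (nat_lit 9) (.e (nat_lit 426286) (nat_lit 10) (.e (nat_lit 434245) (nat_lit 28) (.e (nat_lit 573454) (nat_lit 9) .nil))))) .nil)) 
(.lf (nat_lit 164279) (.g (nat_lit 1806) (.e (nat_lit 57464) (nat_lit 23) (.e (nat_lit 516151) (nat_lit 9) (.e (nat_lit 426286) (nat_lit 10) (.e (nat_lit 434247) (nat_lit 28) (.e (nat_lit 573456) (nat_lit 9) (.e (nat_lit 7936) (nat_lit 0) (.e (nat_lit 7089) (nat_lit 379) (.e (nat_lit 123212) (nat_lit 273) .nil)))))))) (.g (nat_lit 4) .nil .nil))))) (.nd (nat_lit 4) (.nd (nat_lit 5) 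
(.lf (nat_lit 164239) (.g (nat_lit 2463) (.e (nat_lit 57464) (nat_lit 23) (.e (nat_lit 516151) (nat_lit 9) (.e (nat_lit 426286) (nat_lit 10) (.e (nat_lit 434245) (nat_lit 28) (.e (nat_lit 573451) (nat_lit 9) (.e (nat_lit 365) (nat_lit 31) (.e (nat_lit 417796) (nat_lit 0) (.e (nat_lit 5396) (nat_lit 301) .nil)))))))) (.g (nat_lit 4) .nil .nil))) 
(.lf (nat_lit 164271) (.g (nat_lit 3347) (.e (nat_lit 57464) (nat_lit 23) (.e (nat_lit 516151) (nat_lit 9) (.e (nat_lit 426286) (nat_lit 10) (.e (nat_lit 434245) (nat_lit 28) (.e (nat_lit 573471) (nat_lit 11) (.e (nat_lit 16398) (nat_lit 0) (.e (nat_lit 7936) (nat_lit 405) .nil))))))) (.g (nat_lit 5) .nil .nil)))) (.nd (nat_lit 5) 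
(.lf (nat_lit 164255) (.g (nat_lit 2559) (.e (nat_lit 57464) (nat_lit 23) (.e (nat_lit 516151) (nat_lit 9) (.e (nat_lit 426286) (nat_lit 10) (.e (nat_lit 434245) (nat_lit 28) (.e (nat_lit 573458) (nat_lit 9) (.e (nat_lit 420) (nat_lit 32) (.e (nat_lit 425989) (nat_lit 0) (.e (nat_lit 7582) (nat_lit 405) .nil)))))))) (.g (nat_lit 5) .nil .nil))) 
(.lf (nat_lit 164287) (.g (nat_lit 1975) (.e (nat_lit 57464) (nat_lit 23) (.e (nat_lit 516151) (nat_lit 9) (.e (nat_lit 426286) (nat_lit 10) (.e (nat_lit 434247) (nat_lit 28) (.e (nat_lit 573456) (nat_lit 9) (.e (nat_lit 7936) (nat_lit 32) (.e (nat_lit 425984) (nat_lit 0) (.e (nat_lit 7580) (nat_lit 405) .nil)))))))) (.g (nat_lit 4) .nil .nil)))))))))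

noncomputable def tv2204 : DT := (.nd (nat_lit 0) (.nd (nat_lit 1) (.nd (nat_lit 2) (.nd (nat_lit 3) (.nd (nat_lit 4) (.nd (nat_lit 5) 
(.lf (nat_lit 164288) (.g (nat_lit 1788) (.e (nat_lit 57464) (nat_lit 23) (.e (nat_lit 516151) (nat_lit 9) (.e (nat_lit 426286) (nat_lit 10) (.e (nat_lit 434247) (nat_lit 28) (.e (nat_lit 573456) (nat_lit 9) (.e (nat_lit 7936) (nat_lit 32) (.e (nat_lit 425984) (nat_lit 0) (.e (nat_lit 7582) (nat_lit 405) .nil)))))))) (.g (nat_lit 4) .nil .nil))) 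
(.lf (nat_lit 164320) (.g (nat_lit 2341) (.e (nat_lit 57464) (nat_lit 23) (.e (nat_lit 516151) (nat_lit 9) (.e (nat_lit 426286) (nat_lit 10) (.e (nat_lit 434248) (nat_lit 28) (.e (nat_lit 573452) (nat_lit 9) (.e (nat_lit 7936) (nat_lit 32) (.e (nat_lit 425984) (nat_lit 0) (.e (nat_lit 7580) (nat_lit 405) .nil)))))))) (.g (nat_lit 4) .nil .nil)))) (.nd (nat_lit 5) 
(.lf (nat_lit 164304) (.g (nat_lit 3403) (.e (nat_lit 57464) (nat_lit 23) (.e (nat_lit 516151) (nat_lit 9) (.e (nat_lit 426286) (nat_lit 10) (.e (nat_lit 434248) (nat_lit 28) (.e (nat_lit 573450) (nat_lit 9) (.e (nat_lit 433) (nat_lit 32) (.e (nat_lit 425987) (nat_lit 0) (.e (nat_lit 7582) (nat_lit 405) .nil)))))))) (.g (nat_lit 6) .nil .nil))) 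
(.lf (nat_lit 164336) (.g (nat_lit 809) (.e (nat_lit 57464) (nat_lit 23) (.e (nat_lit 516151) (nat_lit 9) (.e (nat_lit 426289) (nat_lit 10) .nil))) .nil)))) (.nd (nat_lit 4) (.nd (nat_lit 5) 
(.lf (nat_lit 164296) (.g (nat_lit 1813) (.e (nat_lit 57464) (nat_lit 23) (.e (nat_lit 516151) (nat_lit 9) (.e (nat_lit 426286) (nat_lit 10) (.e (nat_lit 434247) (nat_lit 28) (.e (nat_lit 573457) (nat_lit 9) (.e (nat_lit 7936) (nat_lit 32) (.e (nat_lit 425987) (nat_lit 0) (.e (nat_lit 7582) (nat_lit 405) .nil)))))))) (.g (nat_lit 4) .nil .nil))) 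
(.lf (nat_lit 164328) (.g (nat_lit 3085) (.e (nat_lit 57464) (nat_lit 23) (.e (nat_lit 516151) (nat_lit 9) (.e (nat_lit 426286) (nat_lit 10) (.e (nat_lit 434248) (nat_lit 28) (.e (nat_lit 573455) (nat_lit 9) (.e (nat_lit 359) (nat_lit 30) (.e (nat_lit 409604) (nat_lit 0) (.e (nat_lit 5394) (nat_lit 301) .nil)))))))) (.g (nat_lit 6) .nil .nil)))) (.nd (nat_lit 5) 
(.lf (nat_lit 164312) (.g (nat_lit 2299) (.e (nat_lit 57464) (nat_lit 23) (.e (nat_lit 516151) (nat_lit 9) (.e (nat_lit 426286) (nat_lit 10) (.e (nat_lit 434248) (nat_lit 28) (.e (nat_lit 573452) (nat_lit 9) (.e (nat_lit 61) (nat_lit 0) (.e (nat_lit 7088) (nat_lit 379) (.e (nat_lit 123212) (nat_lit 273) .nil)))))))) (.g (nat_lit 4) .nil .nil))) 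
(.lf (nat_lit 164344) (.g (nat_lit 3752) (.e (nat_lit 57464) (nat_lit 23) (.e (nat_lit 516151) (nat_lit 9) (.e (nat_lit 426290) (nat_lit 10) (.e (nat_lit 434231) (nat_lit 23) (.e (nat_lit 532523) (nat_lit 7) (.e (nat_lit 319505) (nat_lit 10) (.e (nat_lit 5395) (nat_lit 301) .nil))))))) (.g (nat_lit 5) .nil .nil)))))) (.nd (nat_lit 3) (.nd (nat_lit 4) (.nd (nat_lit 5) 
(.lf (nat_lit 164292) (.g (nat_lit 2286) (.e (nat_lit 57464) (nat_lit 23) (.e (nat_lit 516151) (nat_lit 9) (.e (nat_lit 426286) (nat_lit 10) (.e (nat_lit 434247) (nat_lit 28) (.e (nat_lit 573457) (nat_lit 9) (.e (nat_lit 365) (nat_lit 31) (.e (nat_lit 417795) (nat_lit 0) (.e (nat_lit 5391) (nat_lit 301) .nil)))))))) (.g (nat_lit 4) .nil .nil))) 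
(.lf (nat_lit 164324) (.g (nat_lit 2178) (.e (nat_lit 57464) (nat_lit 23) (.e (nat_lit 516151) (nat_lit 9) (.e (nat_lit 426286) (nat_lit 10) (.e (nat_lit 434248) (nat_lit 28) (.e (nat_lit 573452) (nat_lit 9) (.e (nat_lit 7936) (nat_lit 32) (.e (nat_lit 425990) (nat_lit 0) (.e (nat_lit 7580) (nat_lit 405) .nil)))))))) (.g (nat_lit 4) .nil .nil)))) (.nd (nat_lit 5) 
(.lf (nat_lit 164308) (.g (nat_lit 2033) (.e (nat_lit 57464) (nat_lit 23) (.e (nat_lit 516151) (nat_lit 9) (.e (nat_lit 426286) (nat_lit 10) (.e (nat_lit 434248) (nat_lit 28) (.e (nat_lit 573452) (nat_lit 9) (.e (nat_lit 11) (nat_lit 0) (.e (nat_lit 7088) (nat_lit 379) (.e (nat_lit 123212) (nat_lit 273) .nil)))))))) (.g (nat_lit 4) .nil .nil))) 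
(.lf (nat_lit 164340) (.g (nat_lit 3284) (.e (nat_lit 57464) (nat_lit 23) (.e (nat_lit 516151) (nat_lit 9) (.e (nat_lit 426289) (nat_lit 10) (.e (nat_lit 434231) (nat_lit 23) (.e (nat_lit 532523) (nat_lit 7) (.e (nat_lit 319511) (nat_lit 10) (.e (nat_lit 5394) (nat_lit 301) .nil))))))) (.g (nat_lit 5) .nil .nil))))) (.nd (nat_lit 4) (.nd (nat_lit 5) 
(.lf (nat_lit 164300) (.g (nat_lit 2563) (.e (nat_lit 57464) (nat_lit 23) (.e (nat_lit 516151) (nat_lit 9) (.e (nat_lit 426286) (nat_lit 10) (.e (nat_lit 434248) (nat_lit 28) (.e (nat_lit 573449) (nat_lit 9) (.e (nat_lit 359) (nat_lit 30) (.e (nat_lit 409603) (nat_lit 0) (.e (nat_lit 5394) (nat_lit 301) .nil)))))))) (.g (nat_lit 4) .nil .nil))) 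
(.lf (nat_lit 164332) (.g (nat_lit 2542) (.e (nat_lit 57464) (nat_lit 23) (.e (nat_lit 516151) (nat_lit 9) (.e (nat_lit 426286) (nat_lit 10) (.e (nat_lit 434248) (nat_lit 28) (.e (nat_lit 573468) (nat_lit 10) .nil))))) .nil))) (.nd (nat_lit 5) 
(.lf (nat_lit 164316) (.g (nat_lit 3211) (.e (nat_lit 57464) (nat_lit 23) (.e (nat_lit 516151) (nat_lit 9) (.e (nat_lit 426286) (nat_lit 10) (.e (nat_lit 434248) (nat_lit 28) (.e (nat_lit 573452) (nat_lit 9) (.e (nat_lit 365) (nat_lit 31) (.e (nat_lit 417796) (nat_lit 0) (.e (nat_lit 5391) (nat_lit 301) .nil)))))))) (.g (nat_lit 5) .nil .nil))) 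
(.lf (nat_lit 164348) (.g (nat_lit 2751) (.e (nat_lit 57464) (nat_lit 23) (.e (nat_lit 516151) (nat_lit 9) (.e (nat_lit 426290) (nat_lit 10) (.e (nat_lit 434231) (nat_lit 23) (.e (nat_lit 532525) (nat_lit 8) (.e (nat_lit 327705) (nat_lit 10) (.e (nat_lit 5389) (nat_lit 301) .nil))))))) (.g (nat_lit 4) .nil .nil))))))) (.nd (nat_lit 2) (.nd (nat_lit 3) (.nd (nat_lit 4) (.nd (nat_lit 5) 
(.lf (nat_lit 164290) (.g (nat_lit 1638) (.e (nat_lit 57464) (nat_lit 23) (.e (nat_lit 516151) (nat_lit 9) (.e (nat_lit 426286) (nat_lit 10) (.e (nat_lit 434247) (nat_lit 28) (.e (nat_lit 573457) (nat_lit 9) .nil))))) .nil)) 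
(.lf (nat_lit 164322) (.g (nat_lit 2253) (.e (nat_lit 57464) (nat_lit 23) (.e (nat_lit 516151) (nat_lit 9) (.e (nat_lit 426286) (nat_lit 10) (.e (nat_lit 434248) (nat_lit 28) (.e (nat_lit 573452) (nat_lit 9) (.e (nat_lit 7936) (nat_lit 32) (.e (nat_lit 425987) (nat_lit 0) (.e (nat_lit 7580) (nat_lit 405) .nil)))))))) (.g (nat_lit 4) .nil .nil)))) (.nd (nat_lit 5) 
(.lf (nat_lit 164306) (.g (nat_lit 3090) (.e (nat_lit 57464) (nat_lit 23) (.e (nat_lit 516151) (nat_lit 9) (.e (nat_lit 426286) (nat_lit 10) (.e (nat_lit 434248) (nat_lit 28) (.e (nat_lit 573452) (nat_lit 9) (.e (nat_lit 11) (nat_lit 0) (.e (nat_lit 7077) (nat_lit 378) (.e (nat_lit 57896) (nat_lit 273) .nil)))))))) (.g (nat_lit 6) .nil .nil))) 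
(.lf (nat_lit 164338) (.g (nat_lit 3108) (.e (nat_lit 57464) (nat_lit 23) (.e (nat_lit 516151) (nat_lit 9) (.e (nat_lit 426289) (nat_lit 10) (.e (nat_lit 434231) (nat_lit 23) (.e (nat_lit 532523) (nat_lit 7) (.e (nat_lit 319505) (nat_lit 10) (.e (nat_lit 7936) (nat_lit 301) .nil))))))) (.g (nat_lit 5) .nil .nil))))) (.nd (nat_lit 4) (.nd (nat_lit 5) 
(.lf (nat_lit 164298) (.g (nat_lit 1021) (.e (nat_lit 57464) (nat_lit 23) (.e (nat_lit 516151) (nat_lit 9) (.e (nat_lit 426286) (nat_lit 10) (.e (nat_lit 434248) (nat_lit 28) .nil)))) .nil)) 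
(.lf (nat_lit 164330) (.g (nat_lit 2108) (.e (nat_lit 57464) (nat_lit 23) (.e (nat_lit 516151) (nat_lit 9) (.e (nat_lit 426286) (nat_lit 10) (.e (nat_lit 434248) (nat_lit 28) (.e (nat_lit 573457) (nat_lit 9) .nil))))) .nil))) (.nd (nat_lit 5) 
(.lf (nat_lit 164314) (.g (nat_lit 2348) (.e (nat_lit 57464) (nat_lit 23) (.e (nat_lit 516151) (nat_lit 9) (.e (nat_lit 426286) (nat_lit 10) (.e (nat_lit 434248) (nat_lit 28) (.e (nat_lit 573452) (nat_lit 9) (.e (nat_lit 359) (nat_lit 30) (.e (nat_lit 409603) (nat_lit 0) (.e (nat_lit 5389) (nat_lit 301) .nil)))))))) (.g (nat_lit 4) .nil .nil))) 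
(.lf (nat_lit 164346) (.g (nat_lit 4133) (.e (nat_lit 57464) (nat_lit 23) (.e (nat_lit 516151) (nat_lit 9) (.e (nat_lit 426290) (nat_lit 10) (.e (nat_lit 434231) (nat_lit 23) (.e (nat_lit 532523) (nat_lit 7) (.e (nat_lit 319506) (nat_lit 10) (.e (nat_lit 5389) (nat_lit 301) .nil))))))) (.g (nat_lit 5) .nil .nil)))))) (.nd (nat_lit 3) (.nd (nat_lit 4) (.nd (nat_lit 5) 
(.lf (nat_lit 164294) (.g (nat_lit 1720) (.e (nat_lit 57464) (nat_lit 23) (.e (nat_lit 516151) (nat_lit 9) (.e (nat_lit 426286) (nat_lit 10) (.e (nat_lit 434247) (nat_lit 28) (.e (nat_lit 573457) (nat_lit 9) (.e (nat_lit 7936) (nat_lit 32) (.e (nat_lit 425984) (nat_lit 0) (.e (nat_lit 7582) (nat_lit 405) .nil)))))))) (.g (nat_lit 4) .nil .nil))) 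
(.lf (nat_lit 164326) (.g (nat_lit 2855) (.e (nat_lit 57464) (nat_lit 23) (.e (nat_lit 516151) (nat_lit 9) (.e (nat_lit 426286) (nat_lit 10) (.e (nat_lit 434248) (nat_lit 28) (.e (nat_lit 573452) (nat_lit 9) (.e (nat_lit 7936) (nat_lit 33) (.e (nat_lit 442112) (nat_lit 3) .nil))))))) (.g (nat_lit 5) .nil .nil)))) (.nd (nat_lit 5) 
(.lf (nat_lit 164310) (.g (nat_lit 3538) (.e (nat_lit 57464) (nat_lit 23) (.e (nat_lit 516151) (nat_lit 9) (.e (nat_lit 426286) (nat_lit 10) (.e (nat_lit 434248) (nat_lit 28) (.e (nat_lit 573452) (nat_lit 9) (.e (nat_lit 16) (nat_lit 0) (.e (nat_lit 7086) (nat_lit 379) (.e (nat_lit 123212) (nat_lit 273) .nil)))))))) (.g (nat_lit 0) .nil .nil))) 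
(.lf (nat_lit 164342) (.g (nat_lit 2858) (.e (nat_lit 57464) (nat_lit 23) (.e (nat_lit 516151) (nat_lit 9) (.e (nat_lit 426290) (nat_lit 10) (.e (nat_lit 434231) (nat_lit 23) (.e (nat_lit 532486) (nat_lit 0) (.e (nat_lit 6212) (nat_lit 333) (.e (nat_lit 57896) (nat_lit 273) .nil))))))) (.g (nat_lit 4) .nil .nil))))) (.nd (nat_lit 4) (.nd (nat_lit 5) 
(.lf (nat_lit 164302) (.g (nat_lit 2306) (.e (nat_lit 57464) (nat_lit 23) (.e (nat_lit 516151) (nat_lit 9) (.e (nat_lit 426286) (nat_lit 10) (.e (nat_lit 434248) (nat_lit 28) (.e (nat_lit 573449) (nat_lit 9) (.e (nat_lit 449) (nat_lit 33) (.e (nat_lit 442112) (nat_lit 3) .nil))))))) (.g (nat_lit 4) .nil .nil))) 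
(.lf (nat_lit 164334) (.g (nat_lit 1730) (.e (nat_lit 57464) (nat_lit 23) (.e (nat_lit 516151) (nat_lit 9) (.e (nat_lit 426286) (nat_lit 10) (.e (nat_lit 434248) (nat_lit 28) (.e (nat_lit 573470) (nat_lit 11) .nil))))) .nil))) (.nd (nat_lit 5) 
(.lf (nat_lit 164318) (.g (nat_lit 3390) (.e (nat_lit 57464) (nat_lit 23) (.e (nat_lit 516151) (nat_lit 9) (.e (nat_lit 426286) (nat_lit 10) (.e (nat_lit 434248) (nat_lit 28) (.e (nat_lit 573452) (nat_lit 9) (.e (nat_lit 428) (nat_lit 32) (.e (nat_lit 425984) (nat_lit 0) (.e (nat_lit 7582) (nat_lit 405) .nil)))))))) (.g (nat_lit 0) .nil .nil))) 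
(.lf (nat_lit 164350) (.g (nat_lit 1898) (.e (nat_lit 57464) (nat_lit 23) (.e (nat_lit 516151) (nat_lit 9) (.e (nat_lit 426295) (nat_lit 11) (.e (nat_lit 458789) (nat_lit 23) (.e (nat_lit 532523) (nat_lit 7) .nil))))) .nil))))))) (.nd (nat_lit 1) (.nd (nat_lit 2) (.nd (nat_lit 3) (.nd (nat_lit 4) (.nd (nat_lit 5) 
(.lf (nat_lit 164289) (.g (nat_lit 2712) (.e (nat_lit 57464) (nat_lit 23) (.e (nat_lit 516151) (nat_lit 9) (.e (nat_lit 426286) (nat_lit 10) (.e (nat_lit 434247) (nat_lit 28) (.e (nat_lit 573456) (nat_lit 9) (.e (nat_lit 7936) (nat_lit 33) (.e (nat_lit 442112) (nat_lit 3) .nil))))))) (.g (nat_lit 5) .nil .nil))) 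
(.lf (nat_lit 164321) (.g (nat_lit 2154) (.e (nat_lit 57464) (nat_lit 23) (.e (nat_lit 516151) (nat_lit 9) (.e (nat_lit 426286) (nat_lit 10) (.e (nat_lit 434248) (nat_lit 28) (.e (nat_lit 573452) (nat_lit 9) (.e (nat_lit 7936) (nat_lit 32) (.e (nat_lit 425984) (nat_lit 0) (.e (nat_lit 7582) (nat_lit 405) .nil)))))))) (.g (nat_lit 4) .nil .nil)))) (.nd (nat_lit 5) 
(.lf (nat_lit 164305) (.g (nat_lit 1861) (.e (nat_lit 57464) (nat_lit 23) (.e (nat_lit 516151) (nat_lit 9) (.e (nat_lit 426286) (nat_lit 10) (.e (nat_lit 434248) (nat_lit 28) (.e (nat_lit 573452) (nat_lit 9) .nil))))) .nil)) 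
(.lf (nat_lit 164337) (.g (nat_lit 3604) (.e (nat_lit 57464) (nat_lit 23) (.e (nat_lit 516151) (nat_lit 9) (.e (nat_lit 426289) (nat_lit 10) (.e (nat_lit 434231) (nat_lit 23) (.e (nat_lit 532523) (nat_lit 7) (.e (nat_lit 319505) (nat_lit 10) (.e (nat_lit 5395) (nat_lit 301) .nil))))))) (.g (nat_lit 5) .nil .nil))))) (.nd (nat_lit 4) (.nd (nat_lit 5) 
(.lf (nat_lit 164297) (.g (nat_lit 2413) (.e (nat_lit 57464) (nat_lit 23) (.e (nat_lit 516151) (nat_lit 9) (.e (nat_lit 426286) (nat_lit 10) (.e (nat_lit 434247) (nat_lit 28) (.e (nat_lit 573457) (nat_lit 9) (.e (nat_lit 7936) (nat_lit 33) (.e (nat_lit 442112) (nat_lit 3) .nil))))))) (.g (nat_lit 5) .nil .nil))) 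
(.lf (nat_lit 164329) (.g (nat_lit 2287) (.e (nat_lit 57464) (nat_lit 23) (.e (nat_lit 516151) (nat_lit 9) (.e (nat_lit 426286) (nat_lit 10) (.e (nat_lit 434248) (nat_lit 28) (.e (nat_lit 573455) (nat_lit 9) (.e (nat_lit 359) (nat_lit 30) (.e (nat_lit 409605) (nat_lit 0) (.e (nat_lit 5394) (nat_lit 301) .nil)))))))) (.g (nat_lit 4) .nil .nil)))) (.nd (nat_lit 5) 
(.lf (nat_lit 164313) (.g (nat_lit 2201) (.e (nat_lit 57464) (nat_lit 23) (.e (nat_lit 516151) (nat_lit 9) (.e (nat_lit 426286) (nat_lit 10) (.e (nat_lit 434248) (nat_lit 28) (.e (nat_lit 573452) (nat_lit 9) (.e (nat_lit 7936) (nat_lit 0) (.e (nat_lit 7089) (nat_lit 379) (.e (nat_lit 123212) (nat_lit 273) .nil)))))))) (.g (nat_lit 4) .nil .nil))) 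
(.lf (nat_lit 164345) (.g (nat_lit 3593) (.e (nat_lit 57464) (nat_lit 23) (.e (nat_lit 516151) (nat_lit 9) (.e (nat_lit 426290) (nat_lit 10) (.e (nat_lit 434231) (nat_lit 23) (.e (nat_lit 532523) (nat_lit 7) (.e (nat_lit 319505) (nat_lit 10) (.e (nat_lit 7936) (nat_lit 301) .nil))))))) (.g (nat_lit 5) .nil .nil)))))) (.nd (nat_lit 3) (.nd (nat_lit 4) (.nd (nat_lit 5) 
(.lf (nat_lit 164293) (.g (nat_lit 2575) (.e (nat_lit 57464) (nat_lit 23) (.e (nat_lit 516151) (nat_lit 9) (.e (nat_lit 426286) (nat_lit 10) (.e (nat_lit 434247) (nat_lit 28) (.e (nat_lit 573457) (nat_lit 9) (.e (nat_lit 365) (nat_lit 31) (.e (nat_lit 417796) (nat_lit 0) (.e (nat_lit 5391) (nat_lit 301) .nil)))))))) (.g (nat_lit 4) .nil .nil))) 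
(.lf (nat_lit 164325) (.g (nat_lit 2001) (.e (nat_lit 57464) (nat_lit 23) (.e (nat_lit 516151) (nat_lit 9) (.e (nat_lit 426286) (nat_lit 10) (.e (nat_lit 434248) (nat_lit 28) (.e (nat_lit 573452) (nat_lit 9) (.e (nat_lit 7936) (nat_lit 32) (.e (nat_lit 425990) (nat_lit 0) (.e (nat_lit 7582) (nat_lit 405) .nil)))))))) (.g (nat_lit 4) .nil .nil)))) (.nd (nat_lit 5) 
(.lf (nat_lit 164309) (.g (nat_lit 2780) (.e (nat_lit 57464) (nat_lit 23) (.e (nat_lit 516151) (nat_lit 9) (.e (nat_lit 426286) (nat_lit 10) (.e (nat_lit 434248) (nat_lit 28) (.e (nat_lit 573452) (nat_lit 9) (.e (nat_lit 11) (nat_lit 0) (.e (nat_lit 7089) (nat_lit 379) (.e (nat_lit 123212) (nat_lit 273) .nil)))))))) (.g (nat_lit 5) .nil .nil))) 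
(.lf (nat_lit 164341) (.g (nat_lit 1117) (.e (nat_lit 57464) (nat_lit 23) (.e (nat_lit 516151) (nat_lit 9) (.e (nat_lit 426290) (nat_lit 10) (.e (nat_lit 434231) (nat_lit 23) .nil)))) .nil)))) (.nd (nat_lit 4) (.nd (nat_lit 5) 
(.lf (nat_lit 164301) (.g (nat_lit 2697) (.e (nat_lit 57464) (nat_lit 23) (.e (nat_lit 516151) (nat_lit 9) (.e (nat_lit 426286) (nat_lit 10) (.e (nat_lit 434248) (nat_lit 28) (.e (nat_lit 573449) (nat_lit 9) (.e (nat_lit 359) (nat_lit 30) (.e (nat_lit 409605) (nat_lit 0) (.e (nat_lit 5394) (nat_lit 301) .nil)))))))) (.g (nat_lit 4) .nil .nil))) 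
(.lf (nat_lit 164333) (.g (nat_lit 2014) (.e (nat_lit 57464) (nat_lit 23) (.e (nat_lit 516151) (nat_lit 9) (.e (nat_lit 426286) (nat_lit 10) (.e (nat_lit 434248) (nat_lit 28) (.e (nat_lit 573469) (nat_lit 11) .nil))))) .nil))) (.nd (nat_lit 5) 
(.lf (nat_lit 164317) (.g (nat_lit 2418) (.e (nat_lit 57464) (nat_lit 23) (.e (nat_lit 516151) (nat_lit 9) (.e (nat_lit 426286) (nat_lit 10) (.e (nat_lit 434248) (nat_lit 28) (.e (nat_lit 573452) (nat_lit 9) (.e (nat_lit 365) (nat_lit 31) (.e (nat_lit 417796) (nat_lit 0) (.e (nat_lit 5396) (nat_lit 301) .nil)))))))) (.g (nat_lit 4) .nil .nil))) 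
(.lf (nat_lit 164349) (.g (nat_lit 795) (.e (nat_lit 57464) (nat_lit 23) (.e (nat_lit 516151) (nat_lit 9) (.e (nat_lit 426295) (nat_lit 11) .nil))) .nil)))))) (.nd (nat_lit 2) (.nd (nat_lit 3) (.nd (nat_lit 4) (.nd (nat_lit 5) 
(.lf (nat_lit 164291) (.g (nat_lit 1976) (.e (nat_lit 57464) (nat_lit 23) (.e (nat_lit 516151) (nat_lit 9) (.e (nat_lit 426286) (nat_lit 10) (.e (nat_lit 434247) (nat_lit 28) (.e (nat_lit 573457) (nat_lit 9) (.e (nat_lit 7936) (nat_lit 30) (.e (nat_lit 409603) (nat_lit 0) (.e (nat_lit 5394) (nat_lit 301) .nil)))))))) (.g (nat_lit 4) .nil .nil))) 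
(.lf (nat_lit 164323) (.g (nat_lit 2072) (.e (nat_lit 57464) (nat_lit 23) (.e (nat_lit 516151) (nat_lit 9) (.e (nat_lit 426286) (nat_lit 10) (.e (nat_lit 434248) (nat_lit 28) (.e (nat_lit 573452) (nat_lit 9) (.e (nat_lit 7936) (nat_lit 32) (.e (nat_lit 425987) (nat_lit 0) (.e (nat_lit 7582) (nat_lit 405) .nil)))))))) (.g (nat_lit 4) .nil .nil)))) (.nd (nat_lit 5) 
(.lf (nat_lit 164307) (.g (nat_lit 2884) (.e (nat_lit 57464) (nat_lit 23) (.e (nat_lit 516151) (nat_lit 9) (.e (nat_lit 426286) (nat_lit 10) (.e (nat_lit 434248) (nat_lit 28) (.e (nat_lit 573452) (nat_lit 9) (.e (nat_lit 11) (nat_lit 0) (.e (nat_lit 7079) (nat_lit 378) (.e (nat_lit 57896) (nat_lit 273) .nil)))))))) (.g (nat_lit 5) .nil .nil))) 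
(.lf (nat_lit 164339) (.g (nat_lit 3866) (.e (nat_lit 57464) (nat_lit 23) (.e (nat_lit 516151) (nat_lit 9) (.e (nat_lit 426289) (nat_lit 10) (.e (nat_lit 434231) (nat_lit 23) (.e (nat_lit 532523) (nat_lit 7) (.e (nat_lit 319506) (nat_lit 10) (.e (nat_lit 5389) (nat_lit 301) .nil))))))) (.g (nat_lit 5) .nil .nil))))) (.nd (nat_lit 4) (.nd (nat_lit 5) 
(.lf (nat_lit 164299) (.g (nat_lit 2084) (.e (nat_lit 57464) (nat_lit 23) (.e (nat_lit 516151) (nat_lit 9) (.e (nat_lit 426286) (nat_lit 10) (.e (nat_lit 434248) (nat_lit 28) (.e (nat_lit 573449) (nat_lit 9) .nil))))) .nil)) 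
(.lf (nat_lit 164331) (.g (nat_lit 2134) (.e (nat_lit 57464) (nat_lit 23) (.e (nat_lit 516151) (nat_lit 9) (.e (nat_lit 426286) (nat_lit 10) (.e (nat_lit 434248) (nat_lit 28) (.e (nat_lit 573457) (nat_lit 9) (.e (nat_lit 359) (nat_lit 30) (.e (nat_lit 409602) (nat_lit 0) (.e (nat_lit 5394) (nat_lit 301) .nil)))))))) (.g (nat_lit 4) .nil .nil)))) (.nd (nat_lit 5) 
(.lf (nat_lit 164315) (.g (nat_lit 2419) (.e (nat_lit 57464) (nat_lit 23) (.e (nat_lit 516151) (nat_lit 9) (.e (nat_lit 426286) (nat_lit 10) (.e (nat_lit 434248) (nat_lit 28) (.e (nat_lit 573452) (nat_lit 9) (.e (nat_lit 7936) (nat_lit 30) (.e (nat_lit 409603) (nat_lit 0) (.e (nat_lit 5394) (nat_lit 301) .nil)))))))) (.g (nat_lit 4) .nil .nil))) 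
(.lf (nat_lit 164347) (.g (nat_lit 3425) (.e (nat_lit 57464) (nat_lit 23) (.e (nat_lit 516151) (nat_lit 9) (.e (nat_lit 426290) (nat_lit 10) (.e (nat_lit 434231) (nat_lit 23) (.e (nat_lit 532523) (nat_lit 7) (.e (nat_lit 319511) (nat_lit 10) (.e (nat_lit 5394) (nat_lit 301) .nil))))))) (.g (nat_lit 5) .nil .nil)))))) (.nd (nat_lit 3) (.nd (nat_lit 4) (.nd (nat_lit 5) 
(.lf (nat_lit 164295) (.g (nat_lit 1994) (.e (nat_lit 57464) (nat_lit 23) (.e (nat_lit 516151) (nat_lit 9) (.e (nat_lit 426286) (nat_lit 10) (.e (nat_lit 434247) (nat_lit 28) (.e (nat_lit 573457) (nat_lit 9) (.e (nat_lit 7936) (nat_lit 32) (.e (nat_lit 425987) (nat_lit 0) (.e (nat_lit 7580) (nat_lit 405) .nil)))))))) (.g (nat_lit 4) .nil .nil))) 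
(.lf (nat_lit 164327) (.g (nat_lit 1784) (.e (nat_lit 57464) (nat_lit 23) (.e (nat_lit 516151) (nat_lit 9) (.e (nat_lit 426286) (nat_lit 10) (.e (nat_lit 434248) (nat_lit 28) (.e (nat_lit 573455) (nat_lit 9) .nil))))) .nil))) (.nd (nat_lit 5) 
(.lf (nat_lit 164311) (.g (nat_lit 3076) (.e (nat_lit 57464) (nat_lit 23) (.e (nat_lit 516151) (nat_lit 9) (.e (nat_lit 426286) (nat_lit 10) (.e (nat_lit 434248) (nat_lit 28) (.e (nat_lit 573452) (nat_lit 9) (.e (nat_lit 61) (nat_lit 0) (.e (nat_lit 7087) (nat_lit 379) (.e (nat_lit 123212) (nat_lit 273) .nil)))))))) (.g (nat_lit 6) .nil .nil))) 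
(.lf (nat_lit 164343) (.g (nat_lit 3654) (.e (nat_lit 57464) (nat_lit 23) (.e (nat_lit 516151) (nat_lit 9) (.e (nat_lit 426290) (nat_lit 10) (.e (nat_lit 434231) (nat_lit 23) (.e (nat_lit 532523) (nat_lit 7) (.e (nat_lit 319505) (nat_lit 10) (.e (nat_lit 5389) (nat_lit 301) .nil))))))) (.g (nat_lit 5) .nil .nil))))) (.nd (nat_lit 4) (.nd (nat_lit 5) 
(.lf (nat_lit 164303) (.g (nat_lit 2539) (.e (nat_lit 57464) (nat_lit 23) (.e (nat_lit 516151) (nat_lit 9) (.e (nat_lit 426286) (nat_lit 10) (.e (nat_lit 434248) (nat_lit 28) (.e (nat_lit 573449) (nat_lit 9) (.e (nat_lit 475) (nat_lit 36) (.e (nat_lit 466688) (nat_lit 3) .nil))))))) (.g (nat_lit 4) .nil .nil))) 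
(.lf (nat_lit 164335) (.g (nat_lit 809) (.e (nat_lit 57464) (nat_lit 23) (.e (nat_lit 516151) (nat_lit 9) (.e (nat_lit 426288) (nat_lit 10) .nil))) .nil))) (.nd (nat_lit 5) 
(.lf (nat_lit 164319) (.g (nat_lit 3278) (.e (nat_lit 57464) (nat_lit 23) (.e (nat_lit 516151) (nat_lit 9) (.e (nat_lit 426286) (nat_lit 10) (.e (nat_lit 434248) (nat_lit 28) (.e (nat_lit 573452) (nat_lit 9) (.e (nat_lit 428) (nat_lit 32) (.e (nat_lit 425990) (nat_lit 0) (.e (nat_lit 7582) (nat_lit 405) .nil)))))))) (.g (nat_lit 0) .nil .nil))) 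
(.lf (nat_lit 164351) (.g (nat_lit 2495) (.e (nat_lit 57464) (nat_lit 23) (.e (nat_lit 516151) (nat_lit 9) (.e (nat_lit 426295) (nat_lit 11) (.e (nat_lit 458789) (nat_lit 23) (.e (nat_lit 532524) (nat_lit 8) (.e (nat_lit 327708) (nat_lit 10) (.e (nat_lit 5394) (nat_lit 301) .nil))))))) (.g (nat_lit 4) .nil .nil)))))))))

noncomputable def tv2205 : DT := (.nd (nat_lit 0) (.nd (nat_lit 1) (.nd (nat_lit 2) (.nd (nat_lit 3) (.nd (nat_lit 4) (.nd (nat_lit 5) 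
(.lf (nat_lit 164352) (.g (nat_lit 3283) (.e (nat_lit 57464) (nat_lit 23) (.e (nat_lit 516151) (nat_lit 9) (.e (nat_lit 426295) (nat_lit 11) (.e (nat_lit 458789) (nat_lit 23) (.e (nat_lit 532569) (nat_lit 16) (.e (nat_lit 401414) (nat_lit 0) (.e (nat_lit 7936) (nat_lit 405) .nil))))))) (.g (nat_lit 4) .nil .nil))) 
(.lf (nat_lit 164384) (.g (nat_lit 1166) (.e (nat_lit 57464) (nat_lit 23) (.e (nat_lit 516151) (nat_lit 9) (.e (nat_lit 426338) (nat_lit 14) (.e (nat_lit 491537) (nat_lit 2) .nil)))) .nil))) (.nd (nat_lit 5) 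
(.lf (nat_lit 164368) (.g (nat_lit 2393) (.e (nat_lit 57464) (nat_lit 23) (.e (nat_lit 516151) (nat_lit 9) (.e (nat_lit 426312) (nat_lit 12) (.e (nat_lit 475183) (nat_lit 29) (.e (nat_lit 557105) (nat_lit 14) (.e (nat_lit 188160) (nat_lit 35) .nil)))))) (.g (nat_lit 4) .nil .nil))) 
(.lf (nat_lit 164400) (.g (nat_lit 1626) (.e (nat_lit 57464) (nat_lit 23) (.e (nat_lit 516151) (nat_lit 9) (.e (nat_lit 426338) (nat_lit 14) (.e (nat_lit 491538) (nat_lit 3) .nil)))) .nil)))) (.nd (nat_lit 4) (.nd (nat_lit 5) 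
(.lf (nat_lit 164360) (.g (nat_lit 776) (.e (nat_lit 57464) (nat_lit 23) (.e (nat_lit 516151) (nat_lit 9) (.e (nat_lit 426309) (nat_lit 12) .nil))) .nil)) 
(.lf (nat_lit 164392) (.g (nat_lit 2876) (.e (nat_lit 57464) (nat_lit 23) (.e (nat_lit 516151) (nat_lit 9) (.e (nat_lit 426338) (nat_lit 14) (.e (nat_lit 491537) (nat_lit 2) (.e (nat_lit 90133) (nat_lit 9) (.e (nat_lit 2942) (nat_lit 184) (.e (nat_lit 425987) (nat_lit 0) (.e (nat_lit 7580) (nat_lit 405) .nil)))))))) (.g (nat_lit 4) .nil .nil)))) (.nd (nat_lit 5) 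
(.lf (nat_lit 164376) (.g (nat_lit 2554) (.e (nat_lit 57464) (nat_lit 23) (.e (nat_lit 516151) (nat_lit 9) (.e (nat_lit 426331) (nat_lit 13) (.e (nat_lit 483337) (nat_lit 9) (.e (nat_lit 426107) (nat_lit 1) (.e (nat_lit 164385) (nat_lit 254) (.e (nat_lit 1175) (nat_lit 87) .nil))))))) (.g (nat_lit 4) .nil .nil))) 
(.lf (nat_lit 164408) (.g (nat_lit 3284) (.e (nat_lit 57464) (nat_lit 23) (.e (nat_lit 516151) (nat_lit 9) (.e (nat_lit 426338) (nat_lit 14) (.e (nat_lit 491540) (nat_lit 3) (.e (nat_lit 98349) (nat_lit 24) (.e (nat_lit 409604) (nat_lit 0) (.e (nat_lit 5394) (nat_lit 301) .nil))))))) (.g (nat_lit 5) .nil .nil)))))) (.nd (nat_lit 3) (.nd (nat_lit 4) (.nd (nat_lit 5) 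
(.lf (nat_lit 164356) (.g (nat_lit 2825) (.e (nat_lit 57464) (nat_lit 23) (.e (nat_lit 516151) (nat_lit 9) (.e (nat_lit 426305) (nat_lit 12) (.e (nat_lit 475184) (nat_lit 29) (.e (nat_lit 557105) (nat_lit 14) (.e (nat_lit 188160) (nat_lit 35) .nil)))))) (.g (nat_lit 5) .nil .nil))) 
(.lf (nat_lit 164388) (.g (nat_lit 3118) (.e (nat_lit 57464) (nat_lit 23) (.e (nat_lit 516151) (nat_lit 9) (.e (nat_lit 426338) (nat_lit 14) (.e (nat_lit 491537) (nat_lit 2) (.e (nat_lit 90125) (nat_lit 9) (.e (nat_lit 2936) (nat_lit 184) (.e (nat_lit 425987) (nat_lit 0) (.e (nat_lit 7582) (nat_lit 405) .nil)))))))) (.g (nat_lit 4) .nil .nil)))) (.nd (nat_lit 5) 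
(.lf (nat_lit 164372) (.g (nat_lit 3638) (.e (nat_lit 57464) (nat_lit 23) (.e (nat_lit 516151) (nat_lit 9) (.e (nat_lit 426312) (nat_lit 12) (.e (nat_lit 475185) (nat_lit 29) (.e (nat_lit 557105) (nat_lit 14) (.e (nat_lit 188160) (nat_lit 35) .nil)))))) (.g (nat_lit 5) .nil .nil))) 
(.lf (nat_lit 164404) (.g (nat_lit 1039) (.e (nat_lit 57464) (nat_lit 23) (.e (nat_lit 516151) (nat_lit 9) (.e (nat_lit 426338) (nat_lit 14) (.e (nat_lit 491540) (nat_lit 3) .nil)))) .nil)))) (.nd (nat_lit 4) (.nd (nat_lit 5) 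
(.lf (nat_lit 164364) (.g (nat_lit 3179) (.e (nat_lit 57464) (nat_lit 23) (.e (nat_lit 516151) (nat_lit 9) (.e (nat_lit 426310) (nat_lit 12) (.e (nat_lit 475185) (nat_lit 29) (.e (nat_lit 557105) (nat_lit 14) (.e (nat_lit 188160) (nat_lit 35) .nil)))))) (.g (nat_lit 5) .nil .nil))) 
(.lf (nat_lit 164396) (.g (nat_lit 2967) (.e (nat_lit 57464) (nat_lit 23) (.e (nat_lit 516151) (nat_lit 9) (.e (nat_lit 426338) (nat_lit 14) (.e (nat_lit 491537) (nat_lit 2) (.e (nat_lit 90171) (nat_lit 14) (.e (nat_lit 188160) (nat_lit 35) .nil)))))) (.g (nat_lit 4) .nil .nil)))) (.nd (nat_lit 5) 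
(.lf (nat_lit 164380) (.g (nat_lit 2197) (.e (nat_lit 57464) (nat_lit 23) (.e (nat_lit 516151) (nat_lit 9) (.e (nat_lit 426338) (nat_lit 14) (.e (nat_lit 491526) (nat_lit 0) (.e (nat_lit 1774) (nat_lit 118) .nil))))) .nil)) 
(.lf (nat_lit 164412) (.g (nat_lit 2436) (.e (nat_lit 57464) (nat_lit 23) (.e (nat_lit 516151) (nat_lit 9) (.e (nat_lit 426338) (nat_lit 14) (.e (nat_lit 491540) (nat_lit 3) (.e (nat_lit 98366) (nat_lit 27) (.e (nat_lit 442112) (nat_lit 3) .nil)))))) (.g (nat_lit 5) .nil .nil))))))) (.nd (nat_lit 2) (.nd (nat_lit 3) (.nd (nat_lit 4) (.nd (nat_lit 5) 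
(.lf (nat_lit 164354) (.g (nat_lit 3566) (.e (nat_lit 57464) (nat_lit 23) (.e (nat_lit 516151) (nat_lit 9) (.e (nat_lit 426305) (nat_lit 12) (.e (nat_lit 475183) (nat_lit 29) (.e (nat_lit 557103) (nat_lit 14) (.e (nat_lit 188160) (nat_lit 35) .nil)))))) (.g (nat_lit 5) .nil .nil))) 
(.lf (nat_lit 164386) (.g (nat_lit 3142) (.e (nat_lit 57464) (nat_lit 23) (.e (nat_lit 516151) (nat_lit 9) (.e (nat_lit 426338) (nat_lit 14) (.e (nat_lit 491537) (nat_lit 2) (.e (nat_lit 90125) (nat_lit 9) (.e (nat_lit 2936) (nat_lit 184) (.e (nat_lit 425984) (nat_lit 0) (.e (nat_lit 7582) (nat_lit 405) .nil)))))))) (.g (nat_lit 4) .nil .nil)))) (.nd (nat_lit 5) 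
(.lf (nat_lit 164370) (.g (nat_lit 2817) (.e (nat_lit 57464) (nat_lit 23) (.e (nat_lit 516151) (nat_lit 9) (.e (nat_lit 426312) (nat_lit 12) (.e (nat_lit 475184) (nat_lit 29) (.e (nat_lit 557105) (nat_lit 14) (.e (nat_lit 188160) (nat_lit 35) .nil)))))) (.g (nat_lit 5) .nil .nil))) 
(.lf (nat_lit 164402) (.g (nat_lit 2079) (.e (nat_lit 57464) (nat_lit 23) (.e (nat_lit 516151) (nat_lit 9) (.e (nat_lit 426338) (nat_lit 14) (.e (nat_lit 491539) (nat_lit 3) (.e (nat_lit 98363) (nat_lit 26) .nil))))) .nil)))) (.nd (nat_lit 4) (.nd (nat_lit 5) 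
(.lf (nat_lit 164362) (.g (nat_lit 2967) (.e (nat_lit 57464) (nat_lit 23) (.e (nat_lit 516151) (nat_lit 9) (.e (nat_lit 426309) (nat_lit 12) (.e (nat_lit 475185) (nat_lit 29) (.e (nat_lit 557105) (nat_lit 14) (.e (nat_lit 188160) (nat_lit 35) .nil)))))) (.g (nat_lit 4) .nil .nil))) 
(.lf (nat_lit 164394) (.g (nat_lit 3468) (.e (nat_lit 57464) (nat_lit 23) (.e (nat_lit 516151) (nat_lit 9) (.e (nat_lit 426338) (nat_lit 14) (.e (nat_lit 491537) (nat_lit 2) (.e (nat_lit 90133) (nat_lit 9) (.e (nat_lit 3029) (nat_lit 188) (.e (nat_lit 466688) (nat_lit 3) .nil))))))) (.g (nat_lit 5) .nil .nil)))) (.nd (nat_lit 5) 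
(.lf (nat_lit 164378) (.g (nat_lit 1627) (.e (nat_lit 57464) (nat_lit 23) (.e (nat_lit 516151) (nat_lit 9) (.e (nat_lit 426338) (nat_lit 14) (.e (nat_lit 491526) (nat_lit 0) .nil)))) .nil)) 
(.lf (nat_lit 164410) (.g (nat_lit 2863) (.e (nat_lit 57464) (nat_lit 23) (.e (nat_lit 516151) (nat_lit 9) (.e (nat_lit 426338) (nat_lit 14) (.e (nat_lit 491540) (nat_lit 3) (.e (nat_lit 98352) (nat_lit 25) (.e (nat_lit 417793) (nat_lit 0) (.e (nat_lit 5395) (nat_lit 301) .nil))))))) (.g (nat_lit 4) .nil .nil)))))) (.nd (nat_lit 3) (.nd (nat_lit 4) (.nd (nat_lit 5) 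
(.lf (nat_lit 164358) (.g (nat_lit 3333) (.e (nat_lit 57464) (nat_lit 23) (.e (nat_lit 516151) (nat_lit 9) (.e (nat_lit 426305) (nat_lit 12) (.e (nat_lit 475185) (nat_lit 29) (.e (nat_lit 557103) (nat_lit 14) (.e (nat_lit 188160) (nat_lit 35) .nil)))))) (.g (nat_lit 5) .nil .nil))) 
(.lf (nat_lit 164390) (.g (nat_lit 2430) (.e (nat_lit 57464) (nat_lit 23) (.e (nat_lit 516151) (nat_lit 9) (.e (nat_lit 426338) (nat_lit 14) (.e (nat_lit 491537) (nat_lit 2) (.e (nat_lit 90133) (nat_lit 9) (.e (nat_lit 2942) (nat_lit 184) (.e (nat_lit 425984) (nat_lit 0) (.e (nat_lit 7580) (nat_lit 405) .nil)))))))) (.g (nat_lit 4) .nil .nil)))) (.nd (nat_lit 5) 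
(.lf (nat_lit 164374) (.g (nat_lit 1066) (.e (nat_lit 57464) (nat_lit 23) (.e (nat_lit 516151) (nat_lit 9) (.e (nat_lit 426324) (nat_lit 13) (.e (nat_lit 483341) (nat_lit 9) .nil)))) .nil)) 
(.lf (nat_lit 164406) (.g (nat_lit 4229) (.e (nat_lit 57464) (nat_lit 23) (.e (nat_lit 516151) (nat_lit 9) (.e (nat_lit 426338) (nat_lit 14) (.e (nat_lit 491540) (nat_lit 3) (.e (nat_lit 98349) (nat_lit 24) (.e (nat_lit 409602) (nat_lit 0) (.e (nat_lit 5394) (nat_lit 301) .nil))))))) (.g (nat_lit 6) .nil .nil))))) (.nd (nat_lit 4) (.nd (nat_lit 5) 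
(.lf (nat_lit 164366) (.g (nat_lit 3434) (.e (nat_lit 57464) (nat_lit 23) (.e (nat_lit 516151) (nat_lit 9) (.e (nat_lit 426312) (nat_lit 12) (.e (nat_lit 475183) (nat_lit 29) (.e (nat_lit 557103) (nat_lit 14) (.e (nat_lit 188160) (nat_lit 35) .nil)))))) (.g (nat_lit 5) .nil .nil))) 
(.lf (nat_lit 164398) (.g (nat_lit 2754) (.e (nat_lit 57464) (nat_lit 23) (.e (nat_lit 516151) (nat_lit 9) (.e (nat_lit 426338) (nat_lit 14) (.e (nat_lit 491537) (nat_lit 2) (.e (nat_lit 90174) (nat_lit 14) (.e (nat_lit 188160) (nat_lit 35) .nil)))))) (.g (nat_lit 5) .nil .nil)))) (.nd (nat_lit 5) 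
(.lf (nat_lit 164382) (.g (nat_lit 3407) (.e (nat_lit 57464) (nat_lit 23) (.e (nat_lit 516151) (nat_lit 9) (.e (nat_lit 426338) (nat_lit 14) (.e (nat_lit 491535) (nat_lit 2) (.e (nat_lit 90172) (nat_lit 14) (.e (nat_lit 188160) (nat_lit 35) .nil)))))) (.g (nat_lit 5) .nil .nil))) 
(.lf (nat_lit 164414) (.g (nat_lit 2372) (.e (nat_lit 57464) (nat_lit 23) (.e (nat_lit 516151) (nat_lit 9) (.e (nat_lit 426338) (nat_lit 14) (.e (nat_lit 491540) (nat_lit 3) (.e (nat_lit 98368) (nat_lit 27) (.e (nat_lit 442112) (nat_lit 3) .nil)))))) (.g (nat_lit 4) .nil .nil)))))))) (.nd (nat_lit 1) (.nd (nat_lit 2) (.nd (nat_lit 3) (.nd (nat_lit 4) (.nd (nat_lit 5) 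
(.lf (nat_lit 164353) (.g (nat_lit 809) (.e (nat_lit 57464) (nat_lit 23) (.e (nat_lit 516151) (nat_lit 9) (.e (nat_lit 426301) (nat_lit 11) .nil))) .nil)) 
(.lf (nat_lit 164385) (.g (nat_lit 3311) (.e (nat_lit 57464) (nat_lit 23) (.e (nat_lit 516151) (nat_lit 9) (.e (nat_lit 426338) (nat_lit 14) (.e (nat_lit 491537) (nat_lit 2) (.e (nat_lit 90125) (nat_lit 9) (.e (nat_lit 2936) (nat_lit 184) (.e (nat_lit 425984) (nat_lit 0) (.e (nat_lit 7580) (nat_lit 405) .nil)))))))) (.g (nat_lit 4) .nil .nil)))) (.nd (nat_lit 5) 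
(.lf (nat_lit 164369) (.g (nat_lit 3228) (.e (nat_lit 57464) (nat_lit 23) (.e (nat_lit 516151) (nat_lit 9) (.e (nat_lit 426312) (nat_lit 12) (.e (nat_lit 475184) (nat_lit 29) (.e (nat_lit 557103) (nat_lit 14) (.e (nat_lit 188160) (nat_lit 35) .nil)))))) (.g (nat_lit 5) .nil .nil))) 
(.lf (nat_lit 164401) (.g (nat_lit 1629) (.e (nat_lit 57464) (nat_lit 23) (.e (nat_lit 516151) (nat_lit 9) (.e (nat_lit 426338) (nat_lit 14) (.e (nat_lit 491539) (nat_lit 3) .nil)))) .nil)))) (.nd (nat_lit 4) (.nd (nat_lit 5) 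
(.lf (nat_lit 164361) (.g (nat_lit 3336) (.e (nat_lit 57464) (nat_lit 23) (.e (nat_lit 516151) (nat_lit 9) (.e (nat_lit 426309) (nat_lit 12) (.e (nat_lit 475185) (nat_lit 29) (.e (nat_lit 557103) (nat_lit 14) (.e (nat_lit 188160) (nat_lit 35) .nil)))))) (.g (nat_lit 4) .nil .nil))) 
(.lf (nat_lit 164393) (.g (nat_lit 2711) (.e (nat_lit 57464) (nat_lit 23) (.e (nat_lit 516151) (nat_lit 9) (.e (nat_lit 426338) (nat_lit 14) (.e (nat_lit 491537) (nat_lit 2) (.e (nat_lit 90133) (nat_lit 9) (.e (nat_lit 2942) (nat_lit 184) (.e (nat_lit 425987) (nat_lit 0) (.e (nat_lit 7582) (nat_lit 405) .nil)))))))) (.g (nat_lit 4) .nil .nil)))) (.nd (nat_lit 5) 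
(.lf (nat_lit 164377) (.g (nat_lit 1627) (.e (nat_lit 57464) (nat_lit 23) (.e (nat_lit 516151) (nat_lit 9) (.e (nat_lit 426338) (nat_lit 14) (.e (nat_lit 491524) (nat_lit 0) .nil)))) .nil)) 
(.lf (nat_lit 164409) (.g (nat_lit 3682) (.e (nat_lit 57464) (nat_lit 23) (.e (nat_lit 516151) (nat_lit 9) (.e (nat_lit 426338) (nat_lit 14) (.e (nat_lit 491540) (nat_lit 3) (.e (nat_lit 98350) (nat_lit 24) (.e (nat_lit 409602) (nat_lit 0) (.e (nat_lit 5394) (nat_lit 301) .nil))))))) (.g (nat_lit 6) .nil .nil)))))) (.nd (nat_lit 3) (.nd (nat_lit 4) (.nd (nat_lit 5) 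
(.lf (nat_lit 164357) (.g (nat_lit 1144) (.e (nat_lit 57464) (nat_lit 23) (.e (nat_lit 516151) (nat_lit 9) (.e (nat_lit 426305) (nat_lit 12) (.e (nat_lit 475185) (nat_lit 29) .nil)))) .nil)) 
(.lf (nat_lit 164389) (.g (nat_lit 1987) (.e (nat_lit 57464) (nat_lit 23) (.e (nat_lit 516151) (nat_lit 9) (.e (nat_lit 426338) (nat_lit 14) (.e (nat_lit 491537) (nat_lit 2) (.e (nat_lit 90133) (nat_lit 9) .nil))))) .nil))) (.nd (nat_lit 5) 
(.lf (nat_lit 164373) (.g (nat_lit 408) (.e (nat_lit 57464) (nat_lit 23) (.e (nat_lit 516151) (nat_lit 9) (.e (nat_lit 426324) (nat_lit 13) .nil))) .nil)) 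
(.lf (nat_lit 164405) (.g (nat_lit 3645) (.e (nat_lit 57464) (nat_lit 23) (.e (nat_lit 516151) (nat_lit 9) (.e (nat_lit 426338) (nat_lit 14) (.e (nat_lit 491540) (nat_lit 3) (.e (nat_lit 98349) (nat_lit 24) (.e (nat_lit 409602) (nat_lit 0) (.e (nat_lit 5389) (nat_lit 301) .nil))))))) (.g (nat_lit 5) .nil .nil))))) (.nd (nat_lit 4) (.nd (nat_lit 5) 
(.lf (nat_lit 164365) (.g (nat_lit 2531) (.e (nat_lit 57464) (nat_lit 23) (.e (nat_lit 516151) (nat_lit 9) (.e (nat_lit 426311) (nat_lit 12) (.e (nat_lit 475185) (nat_lit 29) (.e (nat_lit 557103) (nat_lit 14) (.e (nat_lit 188160) (nat_lit 35) .nil)))))) (.g (nat_lit 4) .nil .nil))) 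
(.lf (nat_lit 164397) (.g (nat_lit 3219) (.e (nat_lit 57464) (nat_lit 23) (.e (nat_lit 516151) (nat_lit 9) (.e (nat_lit 426338) (nat_lit 14) (.e (nat_lit 491537) (nat_lit 2) (.e (nat_lit 90172) (nat_lit 14) (.e (nat_lit 188160) (nat_lit 35) .nil)))))) (.g (nat_lit 5) .nil .nil)))) (.nd (nat_lit 5) 
(.lf (nat_lit 164381) (.g (nat_lit 1627) (.e (nat_lit 57464) (nat_lit 23) (.e (nat_lit 516151) (nat_lit 9) (.e (nat_lit 426338) (nat_lit 14) (.e (nat_lit 491530) (nat_lit 0) .nil)))) .nil)) 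
(.lf (nat_lit 164413) (.g (nat_lit 3324) (.e (nat_lit 57464) (nat_lit 23) (.e (nat_lit 516151) (nat_lit 9) (.e (nat_lit 426338) (nat_lit 14) (.e (nat_lit 491540) (nat_lit 3) (.e (nat_lit 98367) (nat_lit 27) (.e (nat_lit 442112) (nat_lit 3) .nil)))))) (.g (nat_lit 5) .nil .nil))))))) (.nd (nat_lit 2) (.nd (nat_lit 3) (.nd (nat_lit 4) (.nd (nat_lit 5) 
(.lf (nat_lit 164355) (.g (nat_lit 2942) (.e (nat_lit 57464) (nat_lit 23) (.e (nat_lit 516151) (nat_lit 9) (.e (nat_lit 426305) (nat_lit 12) (.e (nat_lit 475184) (nat_lit 29) (.e (nat_lit 557103) (nat_lit 14) (.e (nat_lit 188160) (nat_lit 35) .nil)))))) (.g (nat_lit 5) .nil .nil))) 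
(.lf (nat_lit 164387) (.g (nat_lit 3288) (.e (nat_lit 57464) (nat_lit 23) (.e (nat_lit 516151) (nat_lit 9) (.e (nat_lit 426338) (nat_lit 14) (.e (nat_lit 491537) (nat_lit 2) (.e (nat_lit 90125) (nat_lit 9) (.e (nat_lit 2936) (nat_lit 184) (.e (nat_lit 425987) (nat_lit 0) (.e (nat_lit 7580) (nat_lit 405) .nil)))))))) (.g (nat_lit 4) .nil .nil)))) (.nd (nat_lit 5) 
(.lf (nat_lit 164371) (.g (nat_lit 3639) (.e (nat_lit 57464) (nat_lit 23) (.e (nat_lit 516151) (nat_lit 9) (.e (nat_lit 426312) (nat_lit 12) (.e (nat_lit 475185) (nat_lit 29) (.e (nat_lit 557103) (nat_lit 14) (.e (nat_lit 188160) (nat_lit 35) .nil)))))) (.g (nat_lit 5) .nil .nil))) 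
(.lf (nat_lit 164403) (.g (nat_lit 1999) (.e (nat_lit 57464) (nat_lit 23) (.e (nat_lit 516151) (nat_lit 9) (.e (nat_lit 426338) (nat_lit 14) (.e (nat_lit 491539) (nat_lit 3) (.e (nat_lit 98367) (nat_lit 27) .nil))))) .nil)))) (.nd (nat_lit 4) (.nd (nat_lit 5) 
(.lf (nat_lit 164363) (.g (nat_lit 3204) (.e (nat_lit 57464) (nat_lit 23) (.e (nat_lit 516151) (nat_lit 9) (.e (nat_lit 426310) (nat_lit 12) (.e (nat_lit 475185) (nat_lit 29) (.e (nat_lit 557103) (nat_lit 14) (.e (nat_lit 188160) (nat_lit 35) .nil)))))) (.g (nat_lit 5) .nil .nil))) 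
(.lf (nat_lit 164395) (.g (nat_lit 3345) (.e (nat_lit 57464) (nat_lit 23) (.e (nat_lit 516151) (nat_lit 9) (.e (nat_lit 426338) (nat_lit 14) (.e (nat_lit 491537) (nat_lit 2) (.e (nat_lit 90165) (nat_lit 12) (.e (nat_lit 164217) (nat_lit 178) (.e (nat_lit 123212) (nat_lit 273) .nil))))))) (.g (nat_lit 4) .nil .nil)))) (.nd (nat_lit 5) 
(.lf (nat_lit 164379) (.g (nat_lit 2344) (.e (nat_lit 57464) (nat_lit 23) (.e (nat_lit 516151) (nat_lit 9) (.e (nat_lit 426338) (nat_lit 14) (.e (nat_lit 491526) (nat_lit 0) (.e (nat_lit 1698) (nat_lit 117) (.e (nat_lit 499927) (nat_lit 10) (.e (nat_lit 188160) (nat_lit 35) .nil))))))) (.g (nat_lit 4) .nil .nil))) 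
(.lf (nat_lit 164411) (.g (nat_lit 2893) (.e (nat_lit 57464) (nat_lit 23) (.e (nat_lit 516151) (nat_lit 9) (.e (nat_lit 426338) (nat_lit 14) (.e (nat_lit 491540) (nat_lit 3) (.e (nat_lit 98353) (nat_lit 25) (.e (nat_lit 417793) (nat_lit 0) (.e (nat_lit 5395) (nat_lit 301) .nil))))))) (.g (nat_lit 4) .nil .nil)))))) (.nd (nat_lit 3) (.nd (nat_lit 4) (.nd (nat_lit 5) 
(.lf (nat_lit 164359) (.g (nat_lit 3300) (.e (nat_lit 57464) (nat_lit 23) (.e (nat_lit 516151) (nat_lit 9) (.e (nat_lit 426305) (nat_lit 12) (.e (nat_lit 475185) (nat_lit 29) (.e (nat_lit 557105) (nat_lit 14) (.e (nat_lit 188160) (nat_lit 35) .nil)))))) (.g (nat_lit 5) .nil .nil))) 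
(.lf (nat_lit 164391) (.g (nat_lit 2261) (.e (nat_lit 57464) (nat_lit 23) (.e (nat_lit 516151) (nat_lit 9) (.e (nat_lit 426338) (nat_lit 14) (.e (nat_lit 491537) (nat_lit 2) (.e (nat_lit 90133) (nat_lit 9) (.e (nat_lit 2942) (nat_lit 184) (.e (nat_lit 425984) (nat_lit 0) (.e (nat_lit 7582) (nat_lit 405) .nil)))))))) (.g (nat_lit 4) .nil .nil)))) (.nd (nat_lit 5) 
(.lf (nat_lit 164375) (.g (nat_lit 492) (.e (nat_lit 57464) (nat_lit 23) (.e (nat_lit 516151) (nat_lit 9) (.e (nat_lit 426331) (nat_lit 13) .nil))) .nil)) 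
(.lf (nat_lit 164407) (.g (nat_lit 2593) (.e (nat_lit 57464) (nat_lit 23) (.e (nat_lit 516151) (nat_lit 9) (.e (nat_lit 426338) (nat_lit 14) (.e (nat_lit 491540) (nat_lit 3) (.e (nat_lit 98349) (nat_lit 24) (.e (nat_lit 409603) (nat_lit 0) (.e (nat_lit 5394) (nat_lit 301) .nil))))))) (.g (nat_lit 4) .nil .nil))))) (.nd (nat_lit 4) (.nd (nat_lit 5) 
(.lf (nat_lit 164367) (.g (nat_lit 2522) (.e (nat_lit 57464) (nat_lit 23) (.e (nat_lit 516151) (nat_lit 9) (.e (nat_lit 426312) (nat_lit 12) (.e (nat_lit 475183) (nat_lit 29) (.e (nat_lit 557104) (nat_lit 14) (.e (nat_lit 188160) (nat_lit 35) .nil)))))) (.g (nat_lit 4) .nil .nil))) 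
(.lf (nat_lit 164399) (.g (nat_lit 2218) (.e (nat_lit 57464) (nat_lit 23) (.e (nat_lit 516151) (nat_lit 9) (.e (nat_lit 426338) (nat_lit 14) (.e (nat_lit 491537) (nat_lit 2) (.e (nat_lit 98048) (nat_lit 14) .nil))))) .nil))) (.nd (nat_lit 5) 
(.lf (nat_lit 164383) (.g (nat_lit 3261) (.e (nat_lit 57464) (nat_lit 23) (.e (nat_lit 516151) (nat_lit 9) (.e (nat_lit 426338) (nat_lit 14) (.e (nat_lit 491536) (nat_lit 2) (.e (nat_lit 90172) (nat_lit 14) (.e (nat_lit 188160) (nat_lit 35) .nil)))))) (.g (nat_lit 5) .nil .nil))) 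
(.lf (nat_lit 164415) (.g (nat_lit 2366) (.e (nat_lit 57464) (nat_lit 23) (.e (nat_lit 516151) (nat_lit 9) (.e (nat_lit 426338) (nat_lit 14) (.e (nat_lit 491540) (nat_lit 3) (.e (nat_lit 98375) (nat_lit 30) (.e (nat_lit 466688) (nat_lit 3) .nil)))))) (.g (nat_lit 4) .nil .nil)))))))))

noncomputable def tv2206 : DT := (.nd (nat_lit 0) (.nd (nat_lit 1) (.nd (nat_lit 2) (.nd (nat_lit 3) (.nd (nat_lit 4) (.nd (nat_lit 5) 
(.lf (nat_lit 164416) (.g (nat_lit 2630) (.e (nat_lit 57464) (nat_lit 23) (.e (nat_lit 516151) (nat_lit 9) (.e (nat_lit 426338) (nat_lit 14) (.e (nat_lit 491540) (nat_lit 3) (.e (nat_lit 98376) (nat_lit 30) (.e (nat_lit 466688) (nat_lit 3) .nil)))))) (.g (nat_lit 5) .nil .nil))) 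
(.lf (nat_lit 164448) (.g (nat_lit 2465) (.e (nat_lit 57464) (nat_lit 23) (.e (nat_lit 516160) (nat_lit 10) (.e (nat_lit 442112) (nat_lit 3) (.e (nat_lit 57464) (nat_lit 23) (.e (nat_lit 516139) (nat_lit 7) (.e (nat_lit 409604) (nat_lit 0) (.e (nat_lit 5394) (nat_lit 301) .nil))))))) (.g (nat_lit 5) .nil .nil)))) (.nd (nat_lit 5) 
(.lf (nat_lit 164432) (.g (nat_lit 2394) (.e (nat_lit 57464) (nat_lit 23) (.e (nat_lit 516159) (nat_lit 10) (.e (nat_lit 434244) (nat_lit 28) (.e (nat_lit 573481) (nat_lit 13) (.e (nat_lit 65636) (nat_lit 15) .nil))))) .nil)) 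
(.lf (nat_lit 164464) (.g (nat_lit 2729) (.e (nat_lit 57464) (nat_lit 23) (.e (nat_lit 516160) (nat_lit 10) (.e (nat_lit 434244) (nat_lit 28) (.e (nat_lit 573488) (nat_lit 14) (.e (nat_lit 73747) (nat_lit 3) (.e (nat_lit 516119) (nat_lit 1) (.e (nat_lit 164196) (nat_lit 158) (.e (nat_lit 1172) (nat_lit 87) .nil)))))))) (.g (nat_lit 4) .nil .nil))))) (.nd (nat_lit 4) (.nd (nat_lit 5) 
(.lf (nat_lit 164424) (.g (nat_lit 1631) (.e (nat_lit 57464) (nat_lit 23) (.e (nat_lit 524032) (nat_lit 9) (.e (nat_lit 426316) (nat_lit 12) (.e (nat_lit 475185) (nat_lit 29) (.e (nat_lit 557105) (nat_lit 14) (.e (nat_lit 188160) (nat_lit 35) .nil)))))) (.g (nat_lit 5) .nil .nil))) 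
(.lf (nat_lit 164456) (.g (nat_lit 2280) (.e (nat_lit 57464) (nat_lit 23) (.e (nat_lit 516160) (nat_lit 10) (.e (nat_lit 434244) (nat_lit 28) (.e (nat_lit 573481) (nat_lit 13) (.e (nat_lit 65636) (nat_lit 15) .nil))))) .nil))) (.nd (nat_lit 5) 
(.lf (nat_lit 164440) (.g (nat_lit 1315) (.e (nat_lit 57464) (nat_lit 23) (.e (nat_lit 516159) (nat_lit 10) (.e (nat_lit 434245) (nat_lit 28) (.e (nat_lit 573488) (nat_lit 14) (.e (nat_lit 81664) (nat_lit 1) .nil))))) .nil)) 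
(.lf (nat_lit 164472) (.g (nat_lit 3047) (.e (nat_lit 57464) (nat_lit 23) (.e (nat_lit 516160) (nat_lit 10) (.e (nat_lit 434245) (nat_lit 28) (.e (nat_lit 573487) (nat_lit 14) (.e (nat_lit 73746) (nat_lit 3) (.e (nat_lit 516117) (nat_lit 1) (.e (nat_lit 164195) (nat_lit 158) (.e (nat_lit 1172) (nat_lit 87) .nil)))))))) (.g (nat_lit 5) .nil .nil)))))) 
(.nd (nat_lit 3) (.nd (nat_lit 4) (.nd (nat_lit 5) 
(.lf (nat_lit 164420) (.g (nat_lit 1868) (.e (nat_lit 57464) (nat_lit 23) (.e (nat_lit 516152) (nat_lit 9) (.e (nat_lit 426317) (nat_lit 12) (.e (nat_lit 475185) (nat_lit 29) (.e (nat_lit 557103) (nat_lit 14) (.e (nat_lit 188160) (nat_lit 35) .nil)))))) (.g (nat_lit 5) .nil .nil))) 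
(.lf (nat_lit 164452) (.g (nat_lit 1693) (.e (nat_lit 57464) (nat_lit 23) (.e (nat_lit 516160) (nat_lit 10) (.e (nat_lit 434231) (nat_lit 23) (.e (nat_lit 532507) (nat_lit 2) .nil)))) .nil))) (.nd (nat_lit 5) 
(.lf (nat_lit 164436) (.g (nat_lit 2972) (.e (nat_lit 57464) (nat_lit 23) (.e (nat_lit 516159) (nat_lit 10) (.e (nat_lit 434244) (nat_lit 28) (.e (nat_lit 573488) (nat_lit 14) (.e (nat_lit 73747) (nat_lit 3) (.e (nat_lit 516119) (nat_lit 1) (.e (nat_lit 164196) (nat_lit 158) (.e (nat_lit 1172) (nat_lit 87) .nil)))))))) (.g (nat_lit 4) .nil .nil))) 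
(.lf (nat_lit 164468) (.g (nat_lit 1977) (.e (nat_lit 57464) (nat_lit 23) (.e (nat_lit 516160) (nat_lit 10) (.e (nat_lit 434245) (nat_lit 28) (.e (nat_lit 573481) (nat_lit 13) (.e (nat_lit 65636) (nat_lit 15) .nil))))) .nil)))) (.nd (nat_lit 4) (.nd (nat_lit 5) 
(.lf (nat_lit 164428) (.g (nat_lit 3888) (.e (nat_lit 57464) (nat_lit 23) (.e (nat_lit 516159) (nat_lit 10) (.e (nat_lit 434244) (nat_lit 28) (.e (nat_lit 573480) (nat_lit 13) (.e (nat_lit 65637) (nat_lit 15) (.e (nat_lit 3253) (nat_lit 197) (.e (nat_lit 532503) (nat_lit 1) (.e (nat_lit 57870) (nat_lit 264) (.e (nat_lit 1172) (nat_lit 87) .nil))))))))) (.g (nat_lit 6) .nil .nil))) 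
(.lf (nat_lit 164460) (.g (nat_lit 2812) (.e (nat_lit 57464) (nat_lit 23) (.e (nat_lit 516160) (nat_lit 10) (.e (nat_lit 434244) (nat_lit 28) (.e (nat_lit 573481) (nat_lit 13) (.e (nat_lit 73472) (nat_lit 18) (.e (nat_lit 204831) (nat_lit 18) (.e (nat_lit 57870) (nat_lit 264) (.e (nat_lit 1172) (nat_lit 87) .nil)))))))) (.g (nat_lit 6) .nil .nil)))) (.nd (nat_lit 5) 
(.lf (nat_lit 164444) (.g (nat_lit 2020) (.e (nat_lit 57464) (nat_lit 23) (.e (nat_lit 516159) (nat_lit 10) (.e (nat_lit 434248) (nat_lit 28) (.e (nat_lit 573482) (nat_lit 13) (.e (nat_lit 73472) (nat_lit 15) (.e (nat_lit 3253) (nat_lit 197) (.e (nat_lit 532503) (nat_lit 1) (.e (nat_lit 57872) (nat_lit 264) (.e (nat_lit 1172) (nat_lit 87) .nil))))))))) (.g (nat_lit 4) .nil .nil))) 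
(.lf (nat_lit 164476) (.g (nat_lit 517) (.e (nat_lit 57464) (nat_lit 23) (.e (nat_lit 516160) (nat_lit 10) (.e (nat_lit 434246) (nat_lit 28) .nil))) .nil)))))) (.nd (nat_lit 2) (.nd (nat_lit 3) (.nd (nat_lit 4) (.nd (nat_lit 5) 
(.lf (nat_lit 164418) (.g (nat_lit 2534) (.e (nat_lit 57464) (nat_lit 23) (.e (nat_lit 516151) (nat_lit 9) (.e (nat_lit 426338) (nat_lit 14) (.e (nat_lit 491540) (nat_lit 3) (.e (nat_lit 98378) (nat_lit 30) (.e (nat_lit 466688) (nat_lit 3) .nil)))))) (.g (nat_lit 5) .nil .nil))) 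
(.lf (nat_lit 164450) (.g (nat_lit 514) (.e (nat_lit 57464) (nat_lit 23) (.e (nat_lit 516160) (nat_lit 10) (.e (nat_lit 434192) (nat_lit 13) .nil))) .nil))) (.nd (nat_lit 5) 
(.lf (nat_lit 164434) (.g (nat_lit 2467) (.e (nat_lit 57464) (nat_lit 23) (.e (nat_lit 516159) (nat_lit 10) (.e (nat_lit 434244) (nat_lit 28) (.e (nat_lit 573487) (nat_lit 14) (.e (nat_lit 81664) (nat_lit 1) (.e (nat_lit 500056) (nat_lit 17) (.e (nat_lit 57573) (nat_lit 55) (.e (nat_lit 778316) (nat_lit 3) .nil)))))))) (.g (nat_lit 4) .nil .nil))) 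
(.lf (nat_lit 164466) (.g (nat_lit 517) (.e (nat_lit 57464) (nat_lit 23) (.e (nat_lit 516160) (nat_lit 10) (.e (nat_lit 434245) (nat_lit 28) .nil))) .nil)))) (.nd (nat_lit 4) (.nd (nat_lit 5) 
(.lf (nat_lit 164426) (.g (nat_lit 2139) (.e (nat_lit 57464) (nat_lit 23) (.e (nat_lit 516159) (nat_lit 10) (.e (nat_lit 434231) (nat_lit 23) (.e (nat_lit 532507) (nat_lit 2) (.e (nat_lit 106537) (nat_lit 12) (.e (nat_lit 57477) (nat_lit 28) (.e (nat_lit 557090) (nat_lit 12) (.e (nat_lit 164040) (nat_lit 55) (.e (nat_lit 778318) (nat_lit 3) .nil))))))))) (.g (nat_lit 4) .nil .nil))) 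
(.lf (nat_lit 164458) (.g (nat_lit 4626) (.e (nat_lit 57464) (nat_lit 23) (.e (nat_lit 516160) (nat_lit 10) (.e (nat_lit 434244) (nat_lit 28) (.e (nat_lit 573481) (nat_lit 13) (.e (nat_lit 65637) (nat_lit 15) (.e (nat_lit 3253) (nat_lit 197) (.e (nat_lit 532503) (nat_lit 1) (.e (nat_lit 57870) (nat_lit 264) (.e (nat_lit 1172) (nat_lit 87) .nil))))))))) (.g (nat_lit 7) .nil .nil)))) 
(.nd (nat_lit 5) 
(.lf (nat_lit 164442) (.g (nat_lit 4524) (.e (nat_lit 57464) (nat_lit 23) (.e (nat_lit 516159) (nat_lit 10) (.e (nat_lit 434248) (nat_lit 28) (.e (nat_lit 573482) (nat_lit 13) (.e (nat_lit 65637) (nat_lit 15) (.e (nat_lit 3253) (nat_lit 197) (.e (nat_lit 532503) (nat_lit 1) (.e (nat_lit 57870) (nat_lit 264) (.e (nat_lit 1172) (nat_lit 87) .nil))))))))) (.g (nat_lit 7) .nil .nil))) 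
(.lf (nat_lit 164474) (.g (nat_lit 2299) (.e (nat_lit 57464) (nat_lit 23) (.e (nat_lit 516160) (nat_lit 10) (.e (nat_lit 434245) (nat_lit 28) (.e (nat_lit 573487) (nat_lit 14) (.e (nat_lit 73753) (nat_lit 8) (.e (nat_lit 557089) (nat_lit 12) (.e (nat_lit 164007) (nat_lit 41) (.e (nat_lit 663564) (nat_lit 3) .nil)))))))) (.g (nat_lit 4) .nil .nil)))))) 
(.nd (nat_lit 3) (.nd (nat_lit 4) (.nd (nat_lit 5) 
(.lf (nat_lit 164422) (.g (nat_lit 812) (.e (nat_lit 57464) (nat_lit 23) (.e (nat_lit 516157) (nat_lit 9) (.e (nat_lit 426316) (nat_lit 12) (.e (nat_lit 475185) (nat_lit 29) .nil)))) .nil)) 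
(.lf (nat_lit 164454) (.g (nat_lit 1319) (.e (nat_lit 57464) (nat_lit 23) (.e (nat_lit 516160) (nat_lit 10) (.e (nat_lit 434231) (nat_lit 23) (.e (nat_lit 532514) (nat_lit 3) .nil)))) .nil))) (.nd (nat_lit 5) 
(.lf (nat_lit 164438) (.g (nat_lit 1580) (.e (nat_lit 57464) (nat_lit 23) (.e (nat_lit 516159) (nat_lit 10) (.e (nat_lit 434245) (nat_lit 28) (.e (nat_lit 573481) (nat_lit 13) (.e (nat_lit 73472) (nat_lit 18) (.e (nat_lit 204831) (nat_lit 18) (.e (nat_lit 57870) (nat_lit 264) (.e (nat_lit 1172) (nat_lit 87) .nil)))))))) (.g (nat_lit 4) .nil .nil))) 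
(.lf (nat_lit 164470) (.g (nat_lit 2583) (.e (nat_lit 57464) (nat_lit 23) (.e (nat_lit 516160) (nat_lit 10) (.e (nat_lit 434245) (nat_lit 28) (.e (nat_lit 573481) (nat_lit 13) (.e (nat_lit 73472) (nat_lit 18) (.e (nat_lit 204831) (nat_lit 18) (.e (nat_lit 57870) (nat_lit 264) (.e (nat_lit 1172) (nat_lit 87) .nil)))))))) (.g (nat_lit 6) .nil .nil))))) (.nd (nat_lit 4) (.nd (nat_lit 5) 
(.lf (nat_lit 164430) (.g (nat_lit 2292) (.e (nat_lit 57464) (nat_lit 23) (.e (nat_lit 516159) (nat_lit 10) (.e (nat_lit 434244) (nat_lit 28) (.e (nat_lit 573480) (nat_lit 13) (.e (nat_lit 73472) (nat_lit 18) .nil))))) .nil)) 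
(.lf (nat_lit 164462) (.g (nat_lit 2078) (.e (nat_lit 57464) (nat_lit 23) (.e (nat_lit 516160) (nat_lit 10) (.e (nat_lit 434244) (nat_lit 28) (.e (nat_lit 573487) (nat_lit 14) (.e (nat_lit 81664) (nat_lit 5) .nil))))) .nil))) (.nd (nat_lit 5) 
(.lf (nat_lit 164446) (.g (nat_lit 1321) (.e (nat_lit 57464) (nat_lit 23) (.e (nat_lit 516160) (nat_lit 10) (.e (nat_lit 442112) (nat_lit 0) (.e (nat_lit 1239) (nat_lit 91) (.e (nat_lit 90171) (nat_lit 14) .nil))))) .nil)) 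
(.lf (nat_lit 164478) (.g (nat_lit 4279) (.e (nat_lit 57464) (nat_lit 23) (.e (nat_lit 516160) (nat_lit 10) (.e (nat_lit 434246) (nat_lit 28) (.e (nat_lit 573482) (nat_lit 13) (.e (nat_lit 65637) (nat_lit 15) (.e (nat_lit 3253) (nat_lit 197) (.e (nat_lit 532503) (nat_lit 1) (.e (nat_lit 57870) (nat_lit 264) (.e (nat_lit 1172) (nat_lit 87) .nil))))))))) (.g (nat_lit 7) .nil .nil)))))))) 
(.nd (nat_lit 1) (.nd (nat_lit 2) (.nd (nat_lit 3) (.nd (nat_lit 4) (.nd (nat_lit 5) 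
(.lf (nat_lit 164417) (.g (nat_lit 2872) (.e (nat_lit 57464) (nat_lit 23) (.e (nat_lit 516151) (nat_lit 9) (.e (nat_lit 426338) (nat_lit 14) (.e (nat_lit 491540) (nat_lit 3) (.e (nat_lit 98377) (nat_lit 30) (.e (nat_lit 466688) (nat_lit 3) .nil)))))) (.g (nat_lit 5) .nil .nil))) 
(.lf (nat_lit 164449) (.g (nat_lit 1044) (.e (nat_lit 57464) (nat_lit 23) (.e (nat_lit 516160) (nat_lit 10) (.e (nat_lit 442112) (nat_lit 6) (.e (nat_lit 122936) (nat_lit 23) (.e (nat_lit 516169) (nat_lit 13) (.e (nat_lit 466688) (nat_lit 3) .nil)))))) (.g (nat_lit 4) .nil .nil)))) (.nd (nat_lit 5) 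
(.lf (nat_lit 164433) (.g (nat_lit 3057) (.e (nat_lit 57464) (nat_lit 23) (.e (nat_lit 516159) (nat_lit 10) (.e (nat_lit 434244) (nat_lit 28) (.e (nat_lit 573481) (nat_lit 13) (.e (nat_lit 73472) (nat_lit 18) (.e (nat_lit 204831) (nat_lit 18) (.e (nat_lit 57870) (nat_lit 264) (.e (nat_lit 1172) (nat_lit 87) .nil)))))))) (.g (nat_lit 6) .nil .nil))) 
(.lf (nat_lit 164465) (.g (nat_lit 1985) (.e (nat_lit 57464) (nat_lit 23) (.e (nat_lit 516160) (nat_lit 10) (.e (nat_lit 434244) (nat_lit 28) (.e (nat_lit 573488) (nat_lit 14) (.e (nat_lit 81664) (nat_lit 5) .nil))))) .nil)))) (.nd (nat_lit 4) (.nd (nat_lit 5) 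
(.lf (nat_lit 164425) (.g (nat_lit 153) (.e (nat_lit 57464) (nat_lit 23) (.e (nat_lit 516159) (nat_lit 10) (.e (nat_lit 442112) (nat_lit 0) .nil))) .nil)) 
(.lf (nat_lit 164457) (.g (nat_lit 2646) (.e (nat_lit 57464) (nat_lit 23) (.e (nat_lit 516160) (nat_lit 10) (.e (nat_lit 434244) (nat_lit 28) (.e (nat_lit 573481) (nat_lit 13) (.e (nat_lit 65637) (nat_lit 15) (.e (nat_lit 3253) (nat_lit 197) (.e (nat_lit 532503) (nat_lit 1) (.e (nat_lit 57870) (nat_lit 264) (.e (nat_lit 1170) (nat_lit 87) .nil))))))))) (.g (nat_lit 4) .nil .nil)))) 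
(.nd (nat_lit 5) 
(.lf (nat_lit 164441) (.g (nat_lit 2491) (.e (nat_lit 57464) (nat_lit 23) (.e (nat_lit 516159) (nat_lit 10) (.e (nat_lit 434247) (nat_lit 28) (.e (nat_lit 573484) (nat_lit 13) (.e (nat_lit 65642) (nat_lit 15) (.e (nat_lit 3253) (nat_lit 197) (.e (nat_lit 532503) (nat_lit 1) (.e (nat_lit 57870) (nat_lit 264) (.e (nat_lit 1172) (nat_lit 87) .nil))))))))) (.g (nat_lit 4) .nil .nil))) 
(.lf (nat_lit 164473) (.g (nat_lit 1887) (.e (nat_lit 57464) (nat_lit 23) (.e (nat_lit 516160) (nat_lit 10) (.e (nat_lit 434245) (nat_lit 28) (.e (nat_lit 573487) (nat_lit 14) (.e (nat_lit 81664) (nat_lit 5) .nil))))) .nil))))) (.nd (nat_lit 3) (.nd (nat_lit 4) (.nd (nat_lit 5) 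
(.lf (nat_lit 164421) (.g (nat_lit 1894) (.e (nat_lit 57464) (nat_lit 23) (.e (nat_lit 516152) (nat_lit 9) (.e (nat_lit 426317) (nat_lit 12) (.e (nat_lit 475185) (nat_lit 29) (.e (nat_lit 557105) (nat_lit 14) (.e (nat_lit 188160) (nat_lit 35) .nil)))))) (.g (nat_lit 5) .nil .nil))) 
(.lf (nat_lit 164453) (.g (nat_lit 2152) (.e (nat_lit 57464) (nat_lit 23) (.e (nat_lit 516160) (nat_lit 10) (.e (nat_lit 434231) (nat_lit 23) (.e (nat_lit 532507) (nat_lit 2) (.e (nat_lit 106537) (nat_lit 12) .nil))))) .nil))) (.nd (nat_lit 5) 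
(.lf (nat_lit 164437) (.g (nat_lit 2341) (.e (nat_lit 57464) (nat_lit 23) (.e (nat_lit 516159) (nat_lit 10) (.e (nat_lit 434244) (nat_lit 28) (.e (nat_lit 573488) (nat_lit 14) (.e (nat_lit 81664) (nat_lit 5) .nil))))) .nil)) 
(.lf (nat_lit 164469) (.g (nat_lit 1863) (.e (nat_lit 57464) (nat_lit 23) (.e (nat_lit 516160) (nat_lit 10) (.e (nat_lit 434245) (nat_lit 28) (.e (nat_lit 573481) (nat_lit 13) (.e (nat_lit 73472) (nat_lit 15) .nil))))) .nil)))) (.nd (nat_lit 4) (.nd (nat_lit 5) 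
(.lf (nat_lit 164429) (.g (nat_lit 3182) (.e (nat_lit 57464) (nat_lit 23) (.e (nat_lit 516159) (nat_lit 10) (.e (nat_lit 434244) (nat_lit 28) (.e (nat_lit 573480) (nat_lit 13) (.e (nat_lit 65637) (nat_lit 15) (.e (nat_lit 3253) (nat_lit 197) (.e (nat_lit 532503) (nat_lit 1) (.e (nat_lit 57872) (nat_lit 264) (.e (nat_lit 1172) (nat_lit 87) .nil))))))))) (.g (nat_lit 5) .nil .nil))) 
(.lf (nat_lit 164461) (.g (nat_lit 2445) (.e (nat_lit 57464) (nat_lit 23) (.e (nat_lit 516160) (nat_lit 10) (.e (nat_lit 434244) (nat_lit 28) (.e (nat_lit 573487) (nat_lit 14) (.e (nat_lit 81664) (nat_lit 1) (.e (nat_lit 500056) (nat_lit 17) (.e (nat_lit 57573) (nat_lit 55) (.e (nat_lit 778316) (nat_lit 3) .nil)))))))) (.g (nat_lit 4) .nil .nil)))) (.nd (nat_lit 5) 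
(.lf (nat_lit 164445) (.g (nat_lit 2145) (.e (nat_lit 57464) (nat_lit 23) (.e (nat_lit 516159) (nat_lit 10) (.e (nat_lit 434248) (nat_lit 28) (.e (nat_lit 573487) (nat_lit 14) (.e (nat_lit 81664) (nat_lit 1) (.e (nat_lit 500056) (nat_lit 17) (.e (nat_lit 57573) (nat_lit 55) (.e (nat_lit 778316) (nat_lit 3) .nil)))))))) (.g (nat_lit 7) .nil .nil))) 
(.lf (nat_lit 164477) (.g (nat_lit 2938) (.e (nat_lit 57464) (nat_lit 23) (.e (nat_lit 516160) (nat_lit 10) (.e (nat_lit 434246) (nat_lit 28) (.e (nat_lit 573482) (nat_lit 13) (.e (nat_lit 65637) (nat_lit 15) (.e (nat_lit 3253) (nat_lit 197) (.e (nat_lit 532503) (nat_lit 1) (.e (nat_lit 57870) (nat_lit 264) (.e (nat_lit 1171) (nat_lit 87) .nil))))))))) (.g (nat_lit 5) .nil .nil))))))) 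
(.nd (nat_lit 2) (.nd (nat_lit 3) (.nd (nat_lit 4) (.nd (nat_lit 5) 
(.lf (nat_lit 164419) (.g (nat_lit 2359) (.e (nat_lit 57464) (nat_lit 23) (.e (nat_lit 516151) (nat_lit 9) (.e (nat_lit 426346) (nat_lit 14) (.e (nat_lit 491536) (nat_lit 2) (.e (nat_lit 90172) (nat_lit 14) (.e (nat_lit 188160) (nat_lit 35) .nil)))))) (.g (nat_lit 5) .nil .nil))) 
(.lf (nat_lit 164451) (.g (nat_lit 2379) (.e (nat_lit 57464) (nat_lit 23) (.e (nat_lit 516160) (nat_lit 10) (.e (nat_lit 434231) (nat_lit 23) (.e (nat_lit 532483) (nat_lit 0) .nil)))) .nil))) (.nd (nat_lit 5) 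
(.lf (nat_lit 164435) (.g (nat_lit 2659) (.e (nat_lit 57464) (nat_lit 23) (.e (nat_lit 516159) (nat_lit 10) (.e (nat_lit 434244) (nat_lit 28) (.e (nat_lit 573488) (nat_lit 14) (.e (nat_lit 81664) (nat_lit 1) (.e (nat_lit 500056) (nat_lit 17) (.e (nat_lit 57573) (nat_lit 55) (.e (nat_lit 778316) (nat_lit 3) .nil)))))))) (.g (nat_lit 4) .nil .nil))) 
(.lf (nat_lit 164467) (.g (nat_lit 2549) (.e (nat_lit 57464) (nat_lit 23) (.e (nat_lit 516160) (nat_lit 10) (.e (nat_lit 434245) (nat_lit 28) (.e (nat_lit 573480) (nat_lit 13) (.e (nat_lit 65637) (nat_lit 15) (.e (nat_lit 3253) (nat_lit 197) (.e (nat_lit 532503) (nat_lit 1) (.e (nat_lit 57870) (nat_lit 264) (.e (nat_lit 1172) (nat_lit 87) .nil))))))))) (.g (nat_lit 5) .nil .nil))))) 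
(.nd (nat_lit 4) (.nd (nat_lit 5) 
(.lf (nat_lit 164427) (.g (nat_lit 2376) (.e (nat_lit 57464) (nat_lit 23) (.e (nat_lit 516159) (nat_lit 10) (.e (nat_lit 434231) (nat_lit 23) (.e (nat_lit 532507) (nat_lit 2) (.e (nat_lit 106537) (nat_lit 12) (.e (nat_lit 57479) (nat_lit 28) (.e (nat_lit 557094) (nat_lit 12) (.e (nat_lit 164040) (nat_lit 55) (.e (nat_lit 778317) (nat_lit 3) .nil))))))))) (.g (nat_lit 4) .nil .nil))) 
(.lf (nat_lit 164459) (.g (nat_lit 2099) (.e (nat_lit 57464) (nat_lit 23) (.e (nat_lit 516160) (nat_lit 10) (.e (nat_lit 434244) (nat_lit 28) (.e (nat_lit 573481) (nat_lit 13) (.e (nat_lit 73472) (nat_lit 15) .nil))))) .nil))) (.nd (nat_lit 5) 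
(.lf (nat_lit 164443) (.g (nat_lit 2238) (.e (nat_lit 57464) (nat_lit 23) (.e (nat_lit 516159) (nat_lit 10) (.e (nat_lit 434248) (nat_lit 28) (.e (nat_lit 573482) (nat_lit 13) (.e (nat_lit 65640) (nat_lit 15) (.e (nat_lit 3253) (nat_lit 197) (.e (nat_lit 532503) (nat_lit 1) (.e (nat_lit 57870) (nat_lit 264) (.e (nat_lit 1172) (nat_lit 87) .nil))))))))) (.g (nat_lit 4) .nil .nil))) 
(.lf (nat_lit 164475) (.g (nat_lit 1753) (.e (nat_lit 57464) (nat_lit 23) (.e (nat_lit 516160) (nat_lit 10) (.e (nat_lit 434245) (nat_lit 28) (.e (nat_lit 573488) (nat_lit 14) (.e (nat_lit 81664) (nat_lit 5) .nil))))) .nil))))) (.nd (nat_lit 3) (.nd (nat_lit 4) (.nd (nat_lit 5) 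
(.lf (nat_lit 164423) (.g (nat_lit 1679) (.e (nat_lit 57464) (nat_lit 23) (.e (nat_lit 524032) (nat_lit 9) (.e (nat_lit 426316) (nat_lit 12) (.e (nat_lit 475185) (nat_lit 29) (.e (nat_lit 557103) (nat_lit 14) (.e (nat_lit 188160) (nat_lit 35) .nil)))))) (.g (nat_lit 5) .nil .nil))) 
(.lf (nat_lit 164455) (.g (nat_lit 507) (.e (nat_lit 57464) (nat_lit 23) (.e (nat_lit 516160) (nat_lit 10) (.e (nat_lit 434244) (nat_lit 28) .nil))) .nil))) (.nd (nat_lit 5) 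
(.lf (nat_lit 164439) (.g (nat_lit 1484) (.e (nat_lit 57464) (nat_lit 23) (.e (nat_lit 516159) (nat_lit 10) (.e (nat_lit 434245) (nat_lit 28) (.e (nat_lit 573487) (nat_lit 14) (.e (nat_lit 81664) (nat_lit 1) .nil))))) .nil)) 
(.lf (nat_lit 164471) (.g (nat_lit 2478) (.e (nat_lit 57464) (nat_lit 23) (.e (nat_lit 516160) (nat_lit 10) (.e (nat_lit 434245) (nat_lit 28) (.e (nat_lit 573487) (nat_lit 14) (.e (nat_lit 81664) (nat_lit 1) (.e (nat_lit 500056) (nat_lit 17) (.e (nat_lit 57573) (nat_lit 55) (.e (nat_lit 778316) (nat_lit 3) .nil)))))))) (.g (nat_lit 6) .nil .nil))))) (.nd (nat_lit 4) (.nd (nat_lit 5) 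
(.lf (nat_lit 164431) (.g (nat_lit 2126) (.e (nat_lit 57464) (nat_lit 23) (.e (nat_lit 516159) (nat_lit 10) (.e (nat_lit 434244) (nat_lit 28) (.e (nat_lit 573481) (nat_lit 13) (.e (nat_lit 65569) (nat_lit 3) .nil))))) .nil)) 
(.lf (nat_lit 164463) (.g (nat_lit 2213) (.e (nat_lit 57464) (nat_lit 23) (.e (nat_lit 516160) (nat_lit 10) (.e (nat_lit 434244) (nat_lit 28) (.e (nat_lit 573487) (nat_lit 14) (.e (nat_lit 73753) (nat_lit 8) .nil))))) .nil))) (.nd (nat_lit 5) 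
(.lf (nat_lit 164447) (.g (nat_lit 592) (.e (nat_lit 57464) (nat_lit 23) (.e (nat_lit 516160) (nat_lit 10) (.e (nat_lit 442112) (nat_lit 3) .nil))) .nil)) 
(.lf (nat_lit 164479) (.g (nat_lit 2499) (.e (nat_lit 57464) (nat_lit 23) (.e (nat_lit 516160) (nat_lit 10) (.e (nat_lit 434246) (nat_lit 28) (.e (nat_lit 573482) (nat_lit 13) (.e (nat_lit 73472) (nat_lit 15) (.e (nat_lit 3253) (nat_lit 197) (.e (nat_lit 532503) (nat_lit 1) (.e (nat_lit 57870) (nat_lit 264) (.e (nat_lit 1172) (nat_lit 87) .nil))))))))) (.g (nat_lit 6) .nil .nil)))))))))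

noncomputable def tv2207 : DT := (.nd (nat_lit 0) (.nd (nat_lit 1) (.nd (nat_lit 2) (.nd (nat_lit 3) (.nd (nat_lit 4) (.nd (nat_lit 5) 
(.lf (nat_lit 164480) (.g (nat_lit 2614) (.e (nat_lit 57464) (nat_lit 23) (.e (nat_lit 516160) (nat_lit 10) (.e (nat_lit 434246) (nat_lit 28) (.e (nat_lit 573484) (nat_lit 13) (.e (nat_lit 65642) (nat_lit 15) (.e (nat_lit 3253) (nat_lit 197) (.e (nat_lit 532503) (nat_lit 1) (.e (nat_lit 57870) (nat_lit 264) (.e (nat_lit 1172) (nat_lit 87) .nil))))))))) (.g (nat_lit 4) .nil .nil))) 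
(.lf (nat_lit 164512) (.g (nat_lit 2524) (.e (nat_lit 57464) (nat_lit 23) (.e (nat_lit 516160) (nat_lit 10) (.e (nat_lit 434248) (nat_lit 28) (.e (nat_lit 573487) (nat_lit 14) (.e (nat_lit 81664) (nat_lit 5) .nil))))) .nil))) (.nd (nat_lit 5) 
(.lf (nat_lit 164496) (.g (nat_lit 2837) (.e (nat_lit 57464) (nat_lit 23) (.e (nat_lit 516160) (nat_lit 10) (.e (nat_lit 434248) (nat_lit 28) (.e (nat_lit 573482) (nat_lit 13) (.e (nat_lit 65635) (nat_lit 15) .nil))))) .nil)) 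
(.lf (nat_lit 164528) (.g (nat_lit 3231) (.e (nat_lit 57464) (nat_lit 23) (.e (nat_lit 516162) (nat_lit 11) (.e (nat_lit 442425) (nat_lit 23) (.e (nat_lit 204846) (nat_lit 24) (.e (nat_lit 319504) (nat_lit 10) (.e (nat_lit 5395) (nat_lit 301) .nil)))))) (.g (nat_lit 5) .nil .nil))))) (.nd (nat_lit 4) (.nd (nat_lit 5) 
(.lf (nat_lit 164488) (.g (nat_lit 2300) (.e (nat_lit 57464) (nat_lit 23) (.e (nat_lit 516160) (nat_lit 10) (.e (nat_lit 434248) (nat_lit 28) (.e (nat_lit 573480) (nat_lit 13) (.e (nat_lit 65636) (nat_lit 15) .nil))))) .nil)) 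
(.lf (nat_lit 164520) (.g (nat_lit 4435) (.e (nat_lit 57464) (nat_lit 23) (.e (nat_lit 516160) (nat_lit 10) (.e (nat_lit 434248) (nat_lit 28) (.e (nat_lit 573489) (nat_lit 14) (.e (nat_lit 73755) (nat_lit 8) (.e (nat_lit 557090) (nat_lit 12) (.e (nat_lit 164007) (nat_lit 41) (.e (nat_lit 663564) (nat_lit 3) .nil)))))))) (.g (nat_lit 6) .nil .nil)))) (.nd (nat_lit 5) 
(.lf (nat_lit 164504) (.g (nat_lit 3990) (.e (nat_lit 57464) (nat_lit 23) (.e (nat_lit 516160) (nat_lit 10) (.e (nat_lit 434248) (nat_lit 28) (.e (nat_lit 573482) (nat_lit 13) (.e (nat_lit 73472) (nat_lit 15) (.e (nat_lit 3253) (nat_lit 197) (.e (nat_lit 532503) (nat_lit 1) (.e (nat_lit 57870) (nat_lit 264) (.e (nat_lit 1172) (nat_lit 87) .nil))))))))) (.g (nat_lit 7) .nil .nil))) 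
(.lf (nat_lit 164536) (.g (nat_lit 2019) (.e (nat_lit 57464) (nat_lit 23) (.e (nat_lit 516163) (nat_lit 11) (.e (nat_lit 442377) (nat_lit 0) (.e (nat_lit 1855) (nat_lit 124) (.e (nat_lit 557105) (nat_lit 14) (.e (nat_lit 188160) (nat_lit 35) .nil)))))) (.g (nat_lit 5) .nil .nil)))))) (.nd (nat_lit 3) (.nd (nat_lit 4) (.nd (nat_lit 5) 
(.lf (nat_lit 164484) (.g (nat_lit 2675) (.e (nat_lit 57464) (nat_lit 23) (.e (nat_lit 516160) (nat_lit 10) (.e (nat_lit 434247) (nat_lit 28) (.e (nat_lit 573484) (nat_lit 13) (.e (nat_lit 73472) (nat_lit 15) (.e (nat_lit 3253) (nat_lit 197) (.e (nat_lit 532503) (nat_lit 1) (.e (nat_lit 57870) (nat_lit 264) (.e (nat_lit 1172) (nat_lit 87) .nil))))))))) (.g (nat_lit 4) .nil .nil))) 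
(.lf (nat_lit 164516) (.g (nat_lit 2680) (.e (nat_lit 57464) (nat_lit 23) (.e (nat_lit 516160) (nat_lit 10) (.e (nat_lit 434248) (nat_lit 28) (.e (nat_lit 573489) (nat_lit 14) (.e (nat_lit 73748) (nat_lit 3) .nil))))) .nil))) (.nd (nat_lit 5) 
(.lf (nat_lit 164500) (.g (nat_lit 3559) (.e (nat_lit 57464) (nat_lit 23) (.e (nat_lit 516160) (nat_lit 10) (.e (nat_lit 434248) (nat_lit 28) (.e (nat_lit 573482) (nat_lit 13) (.e (nat_lit 65640) (nat_lit 15) (.e (nat_lit 3253) (nat_lit 197) (.e (nat_lit 532503) (nat_lit 1) (.e (nat_lit 57870) (nat_lit 264) (.e (nat_lit 1172) (nat_lit 87) .nil))))))))) (.g (nat_lit 6) .nil .nil))) 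
(.lf (nat_lit 164532) (.g (nat_lit 1725) (.e (nat_lit 57464) (nat_lit 23) (.e (nat_lit 516162) (nat_lit 11) (.e (nat_lit 442426) (nat_lit 23) (.e (nat_lit 204846) (nat_lit 24) (.e (nat_lit 319511) (nat_lit 10) (.e (nat_lit 5394) (nat_lit 301) .nil)))))) (.g (nat_lit 5) .nil .nil))))) (.nd (nat_lit 4) (.nd (nat_lit 5) 
(.lf (nat_lit 164492) (.g (nat_lit 2466) (.e (nat_lit 57464) (nat_lit 23) (.e (nat_lit 516160) (nat_lit 10) (.e (nat_lit 434248) (nat_lit 28) (.e (nat_lit 573480) (nat_lit 13) (.e (nat_lit 73472) (nat_lit 18) (.e (nat_lit 204831) (nat_lit 18) (.e (nat_lit 57870) (nat_lit 264) (.e (nat_lit 1172) (nat_lit 87) .nil)))))))) (.g (nat_lit 4) .nil .nil))) 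
(.lf (nat_lit 164524) (.g (nat_lit 2201) (.e (nat_lit 57464) (nat_lit 23) (.e (nat_lit 516162) (nat_lit 11) (.e (nat_lit 442389) (nat_lit 11) (.e (nat_lit 336051) (nat_lit 6) (.e (nat_lit 147466) (nat_lit 9) (.e (nat_lit 2703) (nat_lit 169) (.e (nat_lit 220928) (nat_lit 3) .nil))))))) (.g (nat_lit 6) .nil .nil)))) (.nd (nat_lit 5) 
(.lf (nat_lit 164508) (.g (nat_lit 2688) (.e (nat_lit 57464) (nat_lit 23) (.e (nat_lit 516160) (nat_lit 10) (.e (nat_lit 434248) (nat_lit 28) (.e (nat_lit 573487) (nat_lit 14) (.e (nat_lit 73746) (nat_lit 3) (.e (nat_lit 516117) (nat_lit 1) (.e (nat_lit 164195) (nat_lit 158) (.e (nat_lit 1170) (nat_lit 87) .nil)))))))) (.g (nat_lit 4) .nil .nil))) 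
(.lf (nat_lit 164540) (.g (nat_lit 399) (.e (nat_lit 57464) (nat_lit 23) (.e (nat_lit 516163) (nat_lit 11) (.e (nat_lit 450304) (nat_lit 0) .nil))) .nil)))))) (.nd (nat_lit 2) (.nd (nat_lit 3) (.nd (nat_lit 4) (.nd (nat_lit 5) 
(.lf (nat_lit 164482) (.g (nat_lit 2759) (.e (nat_lit 57464) (nat_lit 23) (.e (nat_lit 516160) (nat_lit 10) (.e (nat_lit 434246) (nat_lit 28) (.e (nat_lit 573489) (nat_lit 14) (.e (nat_lit 73755) (nat_lit 8) (.e (nat_lit 557089) (nat_lit 12) (.e (nat_lit 164007) (nat_lit 41) (.e (nat_lit 663564) (nat_lit 3) .nil)))))))) (.g (nat_lit 5) .nil .nil))) 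
(.lf (nat_lit 164514) (.g (nat_lit 1316) (.e (nat_lit 57464) (nat_lit 23) (.e (nat_lit 516160) (nat_lit 10) (.e (nat_lit 434248) (nat_lit 28) (.e (nat_lit 573489) (nat_lit 14) .nil)))) .nil))) (.nd (nat_lit 5) 
(.lf (nat_lit 164498) (.g (nat_lit 4962) (.e (nat_lit 57464) (nat_lit 23) (.e (nat_lit 516160) (nat_lit 10) (.e (nat_lit 434248) (nat_lit 28) (.e (nat_lit 573482) (nat_lit 13) (.e (nat_lit 65637) (nat_lit 15) (.e (nat_lit 3253) (nat_lit 197) (.e (nat_lit 532503) (nat_lit 1) (.e (nat_lit 57872) (nat_lit 264) (.e (nat_lit 1172) (nat_lit 87) .nil))))))))) (.g (nat_lit 7) .nil .nil))) 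
(.lf (nat_lit 164530) (.g (nat_lit 2459) (.e (nat_lit 57464) (nat_lit 23) (.e (nat_lit 516162) (nat_lit 11) (.e (nat_lit 442426) (nat_lit 23) (.e (nat_lit 204846) (nat_lit 24) (.e (nat_lit 319504) (nat_lit 10) (.e (nat_lit 5395) (nat_lit 301) .nil)))))) (.g (nat_lit 5) .nil .nil))))) (.nd (nat_lit 4) (.nd (nat_lit 5) 
(.lf (nat_lit 164490) (.g (nat_lit 3295) (.e (nat_lit 57464) (nat_lit 23) (.e (nat_lit 516160) (nat_lit 10) (.e (nat_lit 434248) (nat_lit 28) (.e (nat_lit 573480) (nat_lit 13) (.e (nat_lit 65637) (nat_lit 15) (.e (nat_lit 3253) (nat_lit 197) (.e (nat_lit 532503) (nat_lit 1) (.e (nat_lit 57870) (nat_lit 264) (.e (nat_lit 1171) (nat_lit 87) .nil))))))))) (.g (nat_lit 5) .nil .nil))) 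
(.lf (nat_lit 164522) (.g (nat_lit 2057) (.e (nat_lit 57464) (nat_lit 23) (.e (nat_lit 516162) (nat_lit 11) (.e (nat_lit 442374) (nat_lit 0) (.e (nat_lit 1856) (nat_lit 124) (.e (nat_lit 557103) (nat_lit 14) (.e (nat_lit 188160) (nat_lit 35) .nil)))))) (.g (nat_lit 5) .nil .nil)))) (.nd (nat_lit 5) 
(.lf (nat_lit 164506) (.g (nat_lit 3740) (.e (nat_lit 57464) (nat_lit 23) (.e (nat_lit 516160) (nat_lit 10) (.e (nat_lit 434248) (nat_lit 28) (.e (nat_lit 573482) (nat_lit 13) (.e (nat_lit 73472) (nat_lit 18) (.e (nat_lit 204831) (nat_lit 18) (.e (nat_lit 57870) (nat_lit 264) (.e (nat_lit 1172) (nat_lit 87) .nil)))))))) (.g (nat_lit 7) .nil .nil))) 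
(.lf (nat_lit 164538) (.g (nat_lit 2251) (.e (nat_lit 57464) (nat_lit 23) (.e (nat_lit 516163) (nat_lit 11) (.e (nat_lit 442377) (nat_lit 0) (.e (nat_lit 1856) (nat_lit 124) (.e (nat_lit 557105) (nat_lit 14) (.e (nat_lit 188160) (nat_lit 35) .nil)))))) (.g (nat_lit 5) .nil .nil)))))) (.nd (nat_lit 3) (.nd (nat_lit 4) (.nd (nat_lit 5) 
(.lf (nat_lit 164486) (.g (nat_lit 2510) (.e (nat_lit 57464) (nat_lit 23) (.e (nat_lit 516160) (nat_lit 10) (.e (nat_lit 434247) (nat_lit 28) (.e (nat_lit 573485) (nat_lit 13) (.e (nat_lit 73472) (nat_lit 15) (.e (nat_lit 3253) (nat_lit 197) (.e (nat_lit 532503) (nat_lit 1) (.e (nat_lit 57870) (nat_lit 264) (.e (nat_lit 1172) (nat_lit 87) .nil))))))))) (.g (nat_lit 6) .nil .nil))) 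
(.lf (nat_lit 164518) (.g (nat_lit 3808) (.e (nat_lit 57464) (nat_lit 23) (.e (nat_lit 516160) (nat_lit 10) (.e (nat_lit 434248) (nat_lit 28) (.e (nat_lit 573489) (nat_lit 14) (.e (nat_lit 73755) (nat_lit 8) (.e (nat_lit 557090) (nat_lit 12) (.e (nat_lit 164005) (nat_lit 41) (.e (nat_lit 663564) (nat_lit 3) .nil)))))))) (.g (nat_lit 5) .nil .nil)))) (.nd (nat_lit 5) 
(.lf (nat_lit 164502) (.g (nat_lit 2397) (.e (nat_lit 57464) (nat_lit 23) (.e (nat_lit 516160) (nat_lit 10) (.e (nat_lit 434248) (nat_lit 28) (.e (nat_lit 573482) (nat_lit 13) (.e (nat_lit 73472) (nat_lit 15) .nil))))) .nil)) 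
(.lf (nat_lit 164534) (.g (nat_lit 2458) (.e (nat_lit 57464) (nat_lit 23) (.e (nat_lit 516163) (nat_lit 11) (.e (nat_lit 442374) (nat_lit 0) (.e (nat_lit 1856) (nat_lit 124) (.e (nat_lit 557105) (nat_lit 14) (.e (nat_lit 188160) (nat_lit 35) .nil)))))) (.g (nat_lit 5) .nil .nil))))) (.nd (nat_lit 4) (.nd (nat_lit 5) 
(.lf (nat_lit 164494) (.g (nat_lit 1460) (.e (nat_lit 57464) (nat_lit 23) (.e (nat_lit 516160) (nat_lit 10) (.e (nat_lit 434248) (nat_lit 28) (.e (nat_lit 573482) (nat_lit 13) .nil)))) .nil)) 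
(.lf (nat_lit 164526) (.g (nat_lit 655) (.e (nat_lit 57464) (nat_lit 23) (.e (nat_lit 516162) (nat_lit 11) (.e (nat_lit 450304) (nat_lit 18) (.e (nat_lit 393233) (nat_lit 17) (.e (nat_lit 3432) (nat_lit 213) (.e (nat_lit 663564) (nat_lit 3) .nil)))))) (.g (nat_lit 4) .nil .nil)))) (.nd (nat_lit 5) 
(.lf (nat_lit 164510) (.g (nat_lit 3587) (.e (nat_lit 57464) (nat_lit 23) (.e (nat_lit 516160) (nat_lit 10) (.e (nat_lit 434248) (nat_lit 28) (.e (nat_lit 573487) (nat_lit 14) (.e (nat_lit 73746) (nat_lit 3) (.e (nat_lit 516117) (nat_lit 1) (.e (nat_lit 164195) (nat_lit 158) (.e (nat_lit 1172) (nat_lit 87) .nil)))))))) (.g (nat_lit 5) .nil .nil))) 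
(.lf (nat_lit 164542) (.g (nat_lit 1457) (.e (nat_lit 57464) (nat_lit 23) (.e (nat_lit 516163) (nat_lit 11) (.e (nat_lit 450304) (nat_lit 18) (.e (nat_lit 393234) (nat_lit 17) (.e (nat_lit 3432) (nat_lit 213) (.e (nat_lit 663564) (nat_lit 3) .nil)))))) (.g (nat_lit 4) .nil .nil)))))))) (.nd (nat_lit 1) (.nd (nat_lit 2) (.nd (nat_lit 3) (.nd (nat_lit 4) (.nd (nat_lit 5) 
(.lf (nat_lit 164481) (.g (nat_lit 1709) (.e (nat_lit 57464) (nat_lit 23) (.e (nat_lit 516160) (nat_lit 10) (.e (nat_lit 434246) (nat_lit 28) (.e (nat_lit 573487) (nat_lit 14) (.e (nat_lit 81664) (nat_lit 5) .nil))))) .nil)) 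
(.lf (nat_lit 164513) (.g (nat_lit 2702) (.e (nat_lit 57464) (nat_lit 23) (.e (nat_lit 516160) (nat_lit 10) (.e (nat_lit 434248) (nat_lit 28) (.e (nat_lit 573487) (nat_lit 14) (.e (nat_lit 73753) (nat_lit 8) (.e (nat_lit 557089) (nat_lit 12) (.e (nat_lit 164007) (nat_lit 41) (.e (nat_lit 663564) (nat_lit 3) .nil)))))))) (.g (nat_lit 4) .nil .nil)))) (.nd (nat_lit 5) 
(.lf (nat_lit 164497) (.g (nat_lit 2837) (.e (nat_lit 57464) (nat_lit 23) (.e (nat_lit 516160) (nat_lit 10) (.e (nat_lit 434248) (nat_lit 28) (.e (nat_lit 573482) (nat_lit 13) (.e (nat_lit 65636) (nat_lit 15) .nil))))) .nil)) 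
(.lf (nat_lit 164529) (.g (nat_lit 2257) (.e (nat_lit 57464) (nat_lit 23) (.e (nat_lit 516162) (nat_lit 11) (.e (nat_lit 442425) (nat_lit 23) (.e (nat_lit 204849) (nat_lit 25) (.e (nat_lit 327708) (nat_lit 10) (.e (nat_lit 5394) (nat_lit 301) .nil)))))) (.g (nat_lit 6) .nil .nil))))) (.nd (nat_lit 4) (.nd (nat_lit 5) 
(.lf (nat_lit 164489) (.g (nat_lit 2656) (.e (nat_lit 57464) (nat_lit 23) (.e (nat_lit 516160) (nat_lit 10) (.e (nat_lit 434248) (nat_lit 28) (.e (nat_lit 573480) (nat_lit 13) (.e (nat_lit 65637) (nat_lit 15) (.e (nat_lit 3253) (nat_lit 197) (.e (nat_lit 532503) (nat_lit 1) (.e (nat_lit 57870) (nat_lit 264) (.e (nat_lit 1170) (nat_lit 87) .nil))))))))) (.g (nat_lit 4) .nil .nil))) 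
(.lf (nat_lit 164521) (.g (nat_lit 1891) (.e (nat_lit 57464) (nat_lit 23) (.e (nat_lit 516162) (nat_lit 11) (.e (nat_lit 442373) (nat_lit 0) (.e (nat_lit 1853) (nat_lit 124) (.e (nat_lit 557103) (nat_lit 14) (.e (nat_lit 188160) (nat_lit 35) .nil)))))) (.g (nat_lit 5) .nil .nil)))) (.nd (nat_lit 5) 
(.lf (nat_lit 164505) (.g (nat_lit 2397) (.e (nat_lit 57464) (nat_lit 23) (.e (nat_lit 516160) (nat_lit 10) (.e (nat_lit 434248) (nat_lit 28) (.e (nat_lit 573482) (nat_lit 13) (.e (nat_lit 73472) (nat_lit 18) .nil))))) .nil)) 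
(.lf (nat_lit 164537) (.g (nat_lit 2379) (.e (nat_lit 57464) (nat_lit 23) (.e (nat_lit 516163) (nat_lit 11) (.e (nat_lit 442377) (nat_lit 0) (.e (nat_lit 1856) (nat_lit 124) (.e (nat_lit 557103) (nat_lit 14) (.e (nat_lit 188160) (nat_lit 35) .nil)))))) (.g (nat_lit 5) .nil .nil)))))) (.nd (nat_lit 3) (.nd (nat_lit 4) (.nd (nat_lit 5) 
(.lf (nat_lit 164485) (.g (nat_lit 1145) (.e (nat_lit 57464) (nat_lit 23) (.e (nat_lit 516160) (nat_lit 10) (.e (nat_lit 434247) (nat_lit 28) (.e (nat_lit 573485) (nat_lit 13) .nil)))) .nil)) 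
(.lf (nat_lit 164517) (.g (nat_lit 2422) (.e (nat_lit 57464) (nat_lit 23) (.e (nat_lit 516160) (nat_lit 10) (.e (nat_lit 434248) (nat_lit 28) (.e (nat_lit 573489) (nat_lit 14) (.e (nat_lit 81664) (nat_lit 5) .nil))))) .nil))) (.nd (nat_lit 5) 
(.lf (nat_lit 164501) (.g (nat_lit 2854) (.e (nat_lit 57464) (nat_lit 23) (.e (nat_lit 516160) (nat_lit 10) (.e (nat_lit 434248) (nat_lit 28) (.e (nat_lit 573482) (nat_lit 13) (.e (nat_lit 65640) (nat_lit 15) (.e (nat_lit 3253) (nat_lit 197) (.e (nat_lit 532503) (nat_lit 1) (.e (nat_lit 57872) (nat_lit 264) (.e (nat_lit 1172) (nat_lit 87) .nil))))))))) (.g (nat_lit 4) .nil .nil))) 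
(.lf (nat_lit 164533) (.g (nat_lit 2461) (.e (nat_lit 57464) (nat_lit 23) (.e (nat_lit 516163) (nat_lit 11) (.e (nat_lit 442374) (nat_lit 0) (.e (nat_lit 1856) (nat_lit 124) (.e (nat_lit 557103) (nat_lit 14) (.e (nat_lit 188160) (nat_lit 35) .nil)))))) (.g (nat_lit 5) .nil .nil))))) (.nd (nat_lit 4) (.nd (nat_lit 5) 
(.lf (nat_lit 164493) (.g (nat_lit 2424) (.e (nat_lit 57464) (nat_lit 23) (.e (nat_lit 516160) (nat_lit 10) (.e (nat_lit 434248) (nat_lit 28) (.e (nat_lit 573481) (nat_lit 13) (.e (nat_lit 65637) (nat_lit 15) .nil))))) .nil)) 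
(.lf (nat_lit 164525) (.g (nat_lit 670) (.e (nat_lit 57464) (nat_lit 23) (.e (nat_lit 516162) (nat_lit 11) (.e (nat_lit 450304) (nat_lit 18) (.e (nat_lit 393232) (nat_lit 17) (.e (nat_lit 3432) (nat_lit 213) (.e (nat_lit 663564) (nat_lit 3) .nil)))))) (.g (nat_lit 4) .nil .nil)))) (.nd (nat_lit 5) 
(.lf (nat_lit 164509) (.g (nat_lit 2389) (.e (nat_lit 57464) (nat_lit 23) (.e (nat_lit 516160) (nat_lit 10) (.e (nat_lit 434248) (nat_lit 28) (.e (nat_lit 573487) (nat_lit 14) (.e (nat_lit 73746) (nat_lit 3) (.e (nat_lit 516117) (nat_lit 1) (.e (nat_lit 164195) (nat_lit 158) (.e (nat_lit 1171) (nat_lit 87) .nil)))))))) (.g (nat_lit 4) .nil .nil))) 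
(.lf (nat_lit 164541) (.g (nat_lit 399) (.e (nat_lit 57464) (nat_lit 23) (.e (nat_lit 516163) (nat_lit 11) (.e (nat_lit 450304) (nat_lit 18) .nil))) .nil)))))) (.nd (nat_lit 2) (.nd (nat_lit 3) (.nd (nat_lit 4) (.nd (nat_lit 5) 
(.lf (nat_lit 164483) (.g (nat_lit 2505) (.e (nat_lit 57464) (nat_lit 23) (.e (nat_lit 516160) (nat_lit 10) (.e (nat_lit 434247) (nat_lit 28) (.e (nat_lit 573484) (nat_lit 13) (.e (nat_lit 73472) (nat_lit 15) .nil))))) .nil)) 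
(.lf (nat_lit 164515) (.g (nat_lit 2668) (.e (nat_lit 57464) (nat_lit 23) (.e (nat_lit 516160) (nat_lit 10) (.e (nat_lit 434248) (nat_lit 28) (.e (nat_lit 573489) (nat_lit 14) (.e (nat_lit 81664) (nat_lit 1) (.e (nat_lit 500056) (nat_lit 17) (.e (nat_lit 57573) (nat_lit 55) (.e (nat_lit 778316) (nat_lit 3) .nil)))))))) (.g (nat_lit 4) .nil .nil)))) (.nd (nat_lit 5) 
(.lf (nat_lit 164499) (.g (nat_lit 2541) (.e (nat_lit 57464) (nat_lit 23) (.e (nat_lit 516160) (nat_lit 10) (.e (nat_lit 434248) (nat_lit 28) (.e (nat_lit 573482) (nat_lit 13) (.e (nat_lit 65640) (nat_lit 15) .nil))))) .nil)) 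
(.lf (nat_lit 164531) (.g (nat_lit 2402) (.e (nat_lit 57464) (nat_lit 23) (.e (nat_lit 516162) (nat_lit 11) (.e (nat_lit 442426) (nat_lit 23) (.e (nat_lit 204846) (nat_lit 24) (.e (nat_lit 319505) (nat_lit 10) (.e (nat_lit 5395) (nat_lit 301) .nil)))))) (.g (nat_lit 5) .nil .nil))))) (.nd (nat_lit 4) (.nd (nat_lit 5) 
(.lf (nat_lit 164491) (.g (nat_lit 4629) (.e (nat_lit 57464) (nat_lit 23) (.e (nat_lit 516160) (nat_lit 10) (.e (nat_lit 434248) (nat_lit 28) (.e (nat_lit 573480) (nat_lit 13) (.e (nat_lit 65637) (nat_lit 15) (.e (nat_lit 3253) (nat_lit 197) (.e (nat_lit 532503) (nat_lit 1) (.e (nat_lit 57870) (nat_lit 264) (.e (nat_lit 1172) (nat_lit 87) .nil))))))))) (.g (nat_lit 7) .nil .nil))) 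
(.lf (nat_lit 164523) (.g (nat_lit 2048) (.e (nat_lit 57464) (nat_lit 23) (.e (nat_lit 516162) (nat_lit 11) (.e (nat_lit 442374) (nat_lit 0) (.e (nat_lit 1856) (nat_lit 124) (.e (nat_lit 557105) (nat_lit 14) (.e (nat_lit 188160) (nat_lit 35) .nil)))))) (.g (nat_lit 5) .nil .nil)))) (.nd (nat_lit 5) 
(.lf (nat_lit 164507) (.g (nat_lit 2356) (.e (nat_lit 57464) (nat_lit 23) (.e (nat_lit 516160) (nat_lit 10) (.e (nat_lit 434248) (nat_lit 28) (.e (nat_lit 573487) (nat_lit 14) (.e (nat_lit 73746) (nat_lit 3) .nil))))) .nil)) 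
(.lf (nat_lit 164539) (.g (nat_lit 2168) (.e (nat_lit 57464) (nat_lit 23) (.e (nat_lit 516163) (nat_lit 11) (.e (nat_lit 442378) (nat_lit 0) (.e (nat_lit 1856) (nat_lit 124) (.e (nat_lit 557103) (nat_lit 14) (.e (nat_lit 188160) (nat_lit 35) .nil)))))) (.g (nat_lit 5) .nil .nil)))))) (.nd (nat_lit 3) (.nd (nat_lit 4) (.nd (nat_lit 5) 
(.lf (nat_lit 164487) (.g (nat_lit 1712) (.e (nat_lit 57464) (nat_lit 23) (.e (nat_lit 516160) (nat_lit 10) (.e (nat_lit 434248) (nat_lit 28) (.e (nat_lit 573480) (nat_lit 13) .nil)))) .nil)) 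
(.lf (nat_lit 164519) (.g (nat_lit 4004) (.e (nat_lit 57464) (nat_lit 23) (.e (nat_lit 516160) (nat_lit 10) (.e (nat_lit 434248) (nat_lit 28) (.e (nat_lit 573489) (nat_lit 14) (.e (nat_lit 73755) (nat_lit 8) (.e (nat_lit 557090) (nat_lit 12) (.e (nat_lit 164006) (nat_lit 41) (.e (nat_lit 663564) (nat_lit 3) .nil)))))))) (.g (nat_lit 5) .nil .nil)))) (.nd (nat_lit 5) 
(.lf (nat_lit 164503) (.g (nat_lit 2656) (.e (nat_lit 57464) (nat_lit 23) (.e (nat_lit 516160) (nat_lit 10) (.e (nat_lit 434248) (nat_lit 28) (.e (nat_lit 573482) (nat_lit 13) (.e (nat_lit 73472) (nat_lit 15) (.e (nat_lit 3253) (nat_lit 197) (.e (nat_lit 532503) (nat_lit 1) (.e (nat_lit 57870) (nat_lit 264) (.e (nat_lit 1171) (nat_lit 87) .nil))))))))) (.g (nat_lit 4) .nil .nil))) 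
(.lf (nat_lit 164535) (.g (nat_lit 396) (.e (nat_lit 57464) (nat_lit 23) (.e (nat_lit 516163) (nat_lit 11) (.e (nat_lit 442377) (nat_lit 0) .nil))) .nil)))) (.nd (nat_lit 4) (.nd (nat_lit 5) 
(.lf (nat_lit 164495) (.g (nat_lit 2960) (.e (nat_lit 57464) (nat_lit 23) (.e (nat_lit 516160) (nat_lit 10) (.e (nat_lit 434248) (nat_lit 28) (.e (nat_lit 573482) (nat_lit 13) (.e (nat_lit 65571) (nat_lit 3) (.e (nat_lit 98333) (nat_lit 18) (.e (nat_lit 164196) (nat_lit 158) (.e (nat_lit 1172) (nat_lit 87) .nil)))))))) (.g (nat_lit 4) .nil .nil))) 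
(.lf (nat_lit 164527) (.g (nat_lit 1617) (.e (nat_lit 57464) (nat_lit 23) (.e (nat_lit 516162) (nat_lit 11) (.e (nat_lit 442425) (nat_lit 23) (.e (nat_lit 204819) (nat_lit 17) (.e (nat_lit 6212) (nat_lit 333) (.e (nat_lit 57896) (nat_lit 273) .nil)))))) (.g (nat_lit 5) .nil .nil)))) (.nd (nat_lit 5) 
(.lf (nat_lit 164511) (.g (nat_lit 3615) (.e (nat_lit 57464) (nat_lit 23) (.e (nat_lit 516160) (nat_lit 10) (.e (nat_lit 434248) (nat_lit 28) (.e (nat_lit 573487) (nat_lit 14) (.e (nat_lit 73747) (nat_lit 3) (.e (nat_lit 516119) (nat_lit 1) (.e (nat_lit 164196) (nat_lit 158) (.e (nat_lit 1172) (nat_lit 87) .nil)))))))) (.g (nat_lit 5) .nil .nil))) 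
(.lf (nat_lit 164543) (.g (nat_lit 1245) (.e (nat_lit 57464) (nat_lit 23) (.e (nat_lit 516163) (nat_lit 11) (.e (nat_lit 450304) (nat_lit 18) (.e (nat_lit 393251) (nat_lit 18) (.e (nat_lit 164380) (nat_lit 254) .nil))))) .nil))))))))

noncomputable def tv2208 : DT := (.nd (nat_lit 0) (.nd (nat_lit 1) (.nd (nat_lit 2) (.nd (nat_lit 3) (.nd (nat_lit 4) (.nd (nat_lit 5) 
(.lf (nat_lit 164544) (.g (nat_lit 1574) (.e (nat_lit 57464) (nat_lit 23) (.e (nat_lit 516163) (nat_lit 11) (.e (nat_lit 450304) (nat_lit 18) (.e (nat_lit 393251) (nat_lit 18) (.e (nat_lit 164381) (nat_lit 254) (.e (nat_lit 1175) (nat_lit 87) .nil)))))) (.g (nat_lit 4) .nil .nil))) 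
(.lf (nat_lit 164576) (.g (nat_lit 1289) (.e (nat_lit 57464) (nat_lit 23) (.e (nat_lit 516163) (nat_lit 11) (.e (nat_lit 442424) (nat_lit 22) (.e (nat_lit 196666) (nat_lit 13) .nil)))) .nil))) (.nd (nat_lit 5) 
(.lf (nat_lit 164560) (.g (nat_lit 2232) (.e (nat_lit 57464) (nat_lit 23) (.e (nat_lit 516163) (nat_lit 11) (.e (nat_lit 442424) (nat_lit 22) (.e (nat_lit 196628) (nat_lit 9) (.e (nat_lit 970) (nat_lit 81) (.e (nat_lit 6729) (nat_lit 363) (.e (nat_lit 237312) (nat_lit 190) .nil))))))) (.g (nat_lit 4) .nil .nil))) 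
(.lf (nat_lit 164592) (.g (nat_lit 428) (.e (nat_lit 57464) (nat_lit 23) (.e (nat_lit 516163) (nat_lit 11) (.e (nat_lit 442426) (nat_lit 23) .nil))) .nil)))) (.nd (nat_lit 4) (.nd (nat_lit 5) 
(.lf (nat_lit 164552) (.g (nat_lit 2471) (.e (nat_lit 57464) (nat_lit 23) (.e (nat_lit 516163) (nat_lit 11) (.e (nat_lit 442424) (nat_lit 22) (.e (nat_lit 196626) (nat_lit 9) (.e (nat_lit 1400) (nat_lit 106) (.e (nat_lit 319505) (nat_lit 10) (.e (nat_lit 7936) (nat_lit 301) .nil))))))) (.g (nat_lit 4) .nil .nil))) 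
(.lf (nat_lit 164584) (.g (nat_lit 1464) (.e (nat_lit 57464) (nat_lit 23) (.e (nat_lit 516163) (nat_lit 11) (.e (nat_lit 442424) (nat_lit 22) (.e (nat_lit 196668) (nat_lit 14) .nil)))) .nil))) (.nd (nat_lit 5) 
(.lf (nat_lit 164568) (.g (nat_lit 2632) (.e (nat_lit 57464) (nat_lit 23) (.e (nat_lit 516163) (nat_lit 11) (.e (nat_lit 442424) (nat_lit 22) (.e (nat_lit 196661) (nat_lit 12) (.e (nat_lit 57713) (nat_lit 176) (.e (nat_lit 1013) (nat_lit 81) (.e (nat_lit 5395) (nat_lit 301) .nil))))))) (.g (nat_lit 4) .nil .nil))) 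
(.lf (nat_lit 164600) (.g (nat_lit 1039) (.e (nat_lit 57464) (nat_lit 23) (.e (nat_lit 516163) (nat_lit 11) (.e (nat_lit 442427) (nat_lit 23) (.e (nat_lit 204821) (nat_lit 17) .nil)))) .nil))))) (.nd (nat_lit 3) (.nd (nat_lit 4) (.nd (nat_lit 5) 
(.lf (nat_lit 164548) (.g (nat_lit 550) (.e (nat_lit 57464) (nat_lit 23) (.e (nat_lit 516163) (nat_lit 11) (.e (nat_lit 442414) (nat_lit 20) .nil))) .nil)) 
(.lf (nat_lit 164580) (.g (nat_lit 2936) (.e (nat_lit 57464) (nat_lit 23) (.e (nat_lit 516163) (nat_lit 11) (.e (nat_lit 442424) (nat_lit 22) (.e (nat_lit 196666) (nat_lit 13) (.e (nat_lit 65572) (nat_lit 4) .nil))))) .nil))) (.nd (nat_lit 5) 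
(.lf (nat_lit 164564) (.g (nat_lit 2097) (.e (nat_lit 57464) (nat_lit 23) (.e (nat_lit 516163) (nat_lit 11) (.e (nat_lit 442424) (nat_lit 22) (.e (nat_lit 196661) (nat_lit 12) (.e (nat_lit 57711) (nat_lit 176) (.e (nat_lit 1076) (nat_lit 81) (.e (nat_lit 5394) (nat_lit 301) .nil))))))) (.g (nat_lit 4) .nil .nil))) 
(.lf (nat_lit 164596) (.g (nat_lit 2803) (.e (nat_lit 57464) (nat_lit 23) (.e (nat_lit 516163) (nat_lit 11) (.e (nat_lit 442426) (nat_lit 23) (.e (nat_lit 204846) (nat_lit 24) (.e (nat_lit 319505) (nat_lit 10) (.e (nat_lit 7936) (nat_lit 301) .nil)))))) (.g (nat_lit 5) .nil .nil))))) (.nd (nat_lit 4) (.nd (nat_lit 5) 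
(.lf (nat_lit 164556) (.g (nat_lit 3069) (.e (nat_lit 57464) (nat_lit 23) (.e (nat_lit 516163) (nat_lit 11) (.e (nat_lit 442424) (nat_lit 22) (.e (nat_lit 196628) (nat_lit 9) (.e (nat_lit 968) (nat_lit 81) (.e (nat_lit 6202) (nat_lit 332) (.e (nat_lit 1079) (nat_lit 81) (.e (nat_lit 5394) (nat_lit 301) .nil)))))))) (.g (nat_lit 6) .nil .nil))) 
(.lf (nat_lit 164588) (.g (nat_lit 3637) (.e (nat_lit 57464) (nat_lit 23) (.e (nat_lit 516163) (nat_lit 11) (.e (nat_lit 442425) (nat_lit 23) (.e (nat_lit 204846) (nat_lit 24) (.e (nat_lit 319504) (nat_lit 10) (.e (nat_lit 5395) (nat_lit 301) .nil)))))) (.g (nat_lit 5) .nil .nil)))) (.nd (nat_lit 5) 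
(.lf (nat_lit 164572) (.g (nat_lit 2361) (.e (nat_lit 57464) (nat_lit 23) (.e (nat_lit 516163) (nat_lit 11) (.e (nat_lit 442424) (nat_lit 22) (.e (nat_lit 196661) (nat_lit 12) (.e (nat_lit 57715) (nat_lit 176) (.e (nat_lit 1008) (nat_lit 81) (.e (nat_lit 5395) (nat_lit 301) .nil))))))) (.g (nat_lit 4) .nil .nil))) 
(.lf (nat_lit 164604) (.g (nat_lit 1941) (.e (nat_lit 57464) (nat_lit 23) (.e (nat_lit 516163) (nat_lit 11) (.e (nat_lit 442427) (nat_lit 23) (.e (nat_lit 204845) (nat_lit 24) (.e (nat_lit 319500) (nat_lit 10) .nil))))) .nil)))))) (.nd (nat_lit 2) (.nd (nat_lit 3) (.nd (nat_lit 4) (.nd (nat_lit 5) 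
(.lf (nat_lit 164546) (.g (nat_lit 424) (.e (nat_lit 57464) (nat_lit 23) (.e (nat_lit 516163) (nat_lit 11) (.e (nat_lit 442411) (nat_lit 20) .nil))) .nil)) 
(.lf (nat_lit 164578) (.g (nat_lit 2485) (.e (nat_lit 57464) (nat_lit 23) (.e (nat_lit 516163) (nat_lit 11) (.e (nat_lit 442424) (nat_lit 22) (.e (nat_lit 196666) (nat_lit 13) (.e (nat_lit 65546) (nat_lit 0) .nil))))) .nil))) (.nd (nat_lit 5) 
(.lf (nat_lit 164562) (.g (nat_lit 1122) (.e (nat_lit 57464) (nat_lit 23) (.e (nat_lit 516163) (nat_lit 11) (.e (nat_lit 442424) (nat_lit 22) (.e (nat_lit 196661) (nat_lit 12) .nil)))) .nil)) 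
(.lf (nat_lit 164594) (.g (nat_lit 3132) (.e (nat_lit 57464) (nat_lit 23) (.e (nat_lit 516163) (nat_lit 11) (.e (nat_lit 442426) (nat_lit 23) (.e (nat_lit 204846) (nat_lit 24) (.e (nat_lit 319504) (nat_lit 10) (.e (nat_lit 5396) (nat_lit 301) .nil)))))) (.g (nat_lit 5) .nil .nil))))) (.nd (nat_lit 4) (.nd (nat_lit 5) 
(.lf (nat_lit 164554) (.g (nat_lit 1924) (.e (nat_lit 57464) (nat_lit 23) (.e (nat_lit 516163) (nat_lit 11) (.e (nat_lit 442424) (nat_lit 22) (.e (nat_lit 196628) (nat_lit 9) (.e (nat_lit 968) (nat_lit 81) .nil))))) .nil)) 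
(.lf (nat_lit 164586) (.g (nat_lit 446) (.e (nat_lit 57464) (nat_lit 23) (.e (nat_lit 516163) (nat_lit 11) (.e (nat_lit 442425) (nat_lit 23) .nil))) .nil))) (.nd (nat_lit 5) 
(.lf (nat_lit 164570) (.g (nat_lit 2006) (.e (nat_lit 57464) (nat_lit 23) (.e (nat_lit 516163) (nat_lit 11) (.e (nat_lit 442424) (nat_lit 22) (.e (nat_lit 196661) (nat_lit 12) (.e (nat_lit 57714) (nat_lit 176) (.e (nat_lit 995) (nat_lit 81) (.e (nat_lit 5390) (nat_lit 301) .nil))))))) (.g (nat_lit 4) .nil .nil))) 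
(.lf (nat_lit 164602) (.g (nat_lit 1251) (.e (nat_lit 57464) (nat_lit 23) (.e (nat_lit 516163) (nat_lit 11) (.e (nat_lit 442427) (nat_lit 23) (.e (nat_lit 204821) (nat_lit 17) (.e (nat_lit 7936) (nat_lit 334) .nil))))) .nil))))) (.nd (nat_lit 3) (.nd (nat_lit 4) (.nd (nat_lit 5) 
(.lf (nat_lit 164550) (.g (nat_lit 1877) (.e (nat_lit 57464) (nat_lit 23) (.e (nat_lit 516163) (nat_lit 11) (.e (nat_lit 442424) (nat_lit 22) (.e (nat_lit 196626) (nat_lit 9) (.e (nat_lit 1400) (nat_lit 106) .nil))))) .nil)) 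
(.lf (nat_lit 164582) (.g (nat_lit 2833) (.e (nat_lit 57464) (nat_lit 23) (.e (nat_lit 516163) (nat_lit 11) (.e (nat_lit 442424) (nat_lit 22) (.e (nat_lit 196666) (nat_lit 13) (.e (nat_lit 65574) (nat_lit 4) .nil))))) .nil))) (.nd (nat_lit 5) 
(.lf (nat_lit 164566) (.g (nat_lit 2299) (.e (nat_lit 57464) (nat_lit 23) (.e (nat_lit 516163) (nat_lit 11) (.e (nat_lit 442424) (nat_lit 22) (.e (nat_lit 196661) (nat_lit 12) (.e (nat_lit 57712) (nat_lit 176) (.e (nat_lit 968) (nat_lit 81) (.e (nat_lit 5394) (nat_lit 301) .nil))))))) (.g (nat_lit 4) .nil .nil))) 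
(.lf (nat_lit 164598) (.g (nat_lit 401) (.e (nat_lit 57464) (nat_lit 23) (.e (nat_lit 516163) (nat_lit 11) (.e (nat_lit 442427) (nat_lit 23) .nil))) .nil)))) (.nd (nat_lit 4) (.nd (nat_lit 5) 
(.lf (nat_lit 164558) (.g (nat_lit 1903) (.e (nat_lit 57464) (nat_lit 23) (.e (nat_lit 516163) (nat_lit 11) (.e (nat_lit 442424) (nat_lit 22) (.e (nat_lit 196628) (nat_lit 9) (.e (nat_lit 970) (nat_lit 81) .nil))))) .nil)) 
(.lf (nat_lit 164590) (.g (nat_lit 3264) (.e (nat_lit 57464) (nat_lit 23) (.e (nat_lit 516163) (nat_lit 11) (.e (nat_lit 442425) (nat_lit 23) (.e (nat_lit 204846) (nat_lit 24) (.e (nat_lit 319505) (nat_lit 10) (.e (nat_lit 7936) (nat_lit 301) .nil)))))) (.g (nat_lit 5) .nil .nil)))) (.nd (nat_lit 5) 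
(.lf (nat_lit 164574) (.g (nat_lit 1724) (.e (nat_lit 57464) (nat_lit 23) (.e (nat_lit 516163) (nat_lit 11) (.e (nat_lit 442424) (nat_lit 22) (.e (nat_lit 196661) (nat_lit 12) (.e (nat_lit 65280) (nat_lit 178) .nil))))) .nil)) 
(.lf (nat_lit 164606) (.g (nat_lit 2117) (.e (nat_lit 57464) (nat_lit 23) (.e (nat_lit 516163) (nat_lit 11) (.e (nat_lit 442427) (nat_lit 23) (.e (nat_lit 204845) (nat_lit 24) (.e (nat_lit 319503) (nat_lit 10) .nil))))) .nil))))))) (.nd (nat_lit 1) (.nd (nat_lit 2) (.nd (nat_lit 3) (.nd (nat_lit 4) (.nd (nat_lit 5) 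
(.lf (nat_lit 164545) (.g (nat_lit 1721) (.e (nat_lit 57464) (nat_lit 23) (.e (nat_lit 516163) (nat_lit 11) (.e (nat_lit 442404) (nat_lit 20) (.e (nat_lit 3238) (nat_lit 197) (.e (nat_lit 532523) (nat_lit 7) .nil))))) .nil)) 
(.lf (nat_lit 164577) (.g (nat_lit 3100) (.e (nat_lit 57464) (nat_lit 23) (.e (nat_lit 516163) (nat_lit 11) (.e (nat_lit 442424) (nat_lit 22) (.e (nat_lit 196666) (nat_lit 13) (.e (nat_lit 65545) (nat_lit 0) .nil))))) .nil))) (.nd (nat_lit 5) 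
(.lf (nat_lit 164561) (.g (nat_lit 1309) (.e (nat_lit 57464) (nat_lit 23) (.e (nat_lit 516163) (nat_lit 11) (.e (nat_lit 442424) (nat_lit 22) (.e (nat_lit 196630) (nat_lit 9) .nil)))) .nil)) 
(.lf (nat_lit 164593) (.g (nat_lit 3229) (.e (nat_lit 57464) (nat_lit 23) (.e (nat_lit 516163) (nat_lit 11) (.e (nat_lit 442426) (nat_lit 23) (.e (nat_lit 204846) (nat_lit 24) (.e (nat_lit 319504) (nat_lit 10) (.e (nat_lit 5395) (nat_lit 301) .nil)))))) (.g (nat_lit 5) .nil .nil))))) (.nd (nat_lit 4) (.nd (nat_lit 5) 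
(.lf (nat_lit 164553) (.g (nat_lit 2982) (.e (nat_lit 57464) (nat_lit 23) (.e (nat_lit 516163) (nat_lit 11) (.e (nat_lit 442424) (nat_lit 22) (.e (nat_lit 196626) (nat_lit 9) (.e (nat_lit 1400) (nat_lit 106) (.e (nat_lit 319511) (nat_lit 10) (.e (nat_lit 5394) (nat_lit 301) .nil))))))) (.g (nat_lit 5) .nil .nil))) 
(.lf (nat_lit 164585) (.g (nat_lit 722) (.e (nat_lit 57464) (nat_lit 23) (.e (nat_lit 516163) (nat_lit 11) (.e (nat_lit 442424) (nat_lit 22) (.e (nat_lit 204544) (nat_lit 21) .nil)))) .nil))) (.nd (nat_lit 5) 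
(.lf (nat_lit 164569) (.g (nat_lit 2361) (.e (nat_lit 57464) (nat_lit 23) (.e (nat_lit 516163) (nat_lit 11) (.e (nat_lit 442424) (nat_lit 22) (.e (nat_lit 196661) (nat_lit 12) (.e (nat_lit 57714) (nat_lit 176) (.e (nat_lit 988) (nat_lit 81) (.e (nat_lit 5390) (nat_lit 301) .nil))))))) (.g (nat_lit 4) .nil .nil))) 
(.lf (nat_lit 164601) (.g (nat_lit 1806) (.e (nat_lit 57464) (nat_lit 23) (.e (nat_lit 516163) (nat_lit 11) (.e (nat_lit 442427) (nat_lit 23) (.e (nat_lit 204821) (nat_lit 17) (.e (nat_lit 6092) (nat_lit 332) (.e (nat_lit 1008) (nat_lit 81) (.e (nat_lit 5395) (nat_lit 301) .nil))))))) (.g (nat_lit 5) .nil .nil)))))) (.nd (nat_lit 3) (.nd (nat_lit 4) (.nd (nat_lit 5) 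
(.lf (nat_lit 164549) (.g (nat_lit 424) (.e (nat_lit 57464) (nat_lit 23) (.e (nat_lit 516163) (nat_lit 11) (.e (nat_lit 442424) (nat_lit 22) .nil))) .nil)) 
(.lf (nat_lit 164581) (.g (nat_lit 3442) (.e (nat_lit 57464) (nat_lit 23) (.e (nat_lit 516163) (nat_lit 11) (.e (nat_lit 442424) (nat_lit 22) (.e (nat_lit 196666) (nat_lit 13) (.e (nat_lit 65572) (nat_lit 4) (.e (nat_lit 123127) (nat_lit 239) (.e (nat_lit 1172) (nat_lit 87) .nil))))))) (.g (nat_lit 4) .nil .nil)))) (.nd (nat_lit 5) 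
(.lf (nat_lit 164565) (.g (nat_lit 1739) (.e (nat_lit 57464) (nat_lit 23) (.e (nat_lit 516163) (nat_lit 11) (.e (nat_lit 442424) (nat_lit 22) (.e (nat_lit 196661) (nat_lit 12) (.e (nat_lit 57712) (nat_lit 176) .nil))))) .nil)) 
(.lf (nat_lit 164597) (.g (nat_lit 1481) (.e (nat_lit 57464) (nat_lit 23) (.e (nat_lit 516163) (nat_lit 11) (.e (nat_lit 442426) (nat_lit 23) (.e (nat_lit 204849) (nat_lit 25) (.e (nat_lit 327708) (nat_lit 10) (.e (nat_lit 5394) (nat_lit 301) .nil)))))) (.g (nat_lit 4) .nil .nil))))) (.nd (nat_lit 4) (.nd (nat_lit 5) 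
(.lf (nat_lit 164557) (.g (nat_lit 2262) (.e (nat_lit 57464) (nat_lit 23) (.e (nat_lit 516163) (nat_lit 11) (.e (nat_lit 442424) (nat_lit 22) (.e (nat_lit 196628) (nat_lit 9) (.e (nat_lit 968) (nat_lit 81) (.e (nat_lit 6220) (nat_lit 333) (.e (nat_lit 57896) (nat_lit 273) .nil))))))) (.g (nat_lit 4) .nil .nil))) 
(.lf (nat_lit 164589) (.g (nat_lit 3667) (.e (nat_lit 57464) (nat_lit 23) (.e (nat_lit 516163) (nat_lit 11) (.e (nat_lit 442425) (nat_lit 23) (.e (nat_lit 204846) (nat_lit 24) (.e (nat_lit 319504) (nat_lit 10) (.e (nat_lit 5396) (nat_lit 301) .nil)))))) (.g (nat_lit 5) .nil .nil)))) (.nd (nat_lit 5) 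
(.lf (nat_lit 164573) (.g (nat_lit 2006) (.e (nat_lit 57464) (nat_lit 23) (.e (nat_lit 516163) (nat_lit 11) (.e (nat_lit 442424) (nat_lit 22) (.e (nat_lit 196661) (nat_lit 12) (.e (nat_lit 57715) (nat_lit 176) (.e (nat_lit 1013) (nat_lit 81) (.e (nat_lit 5395) (nat_lit 301) .nil))))))) (.g (nat_lit 4) .nil .nil))) 
(.lf (nat_lit 164605) (.g (nat_lit 2981) (.e (nat_lit 57464) (nat_lit 23) (.e (nat_lit 516163) (nat_lit 11) (.e (nat_lit 442427) (nat_lit 23) (.e (nat_lit 204845) (nat_lit 24) (.e (nat_lit 319500) (nat_lit 10) (.e (nat_lit 5395) (nat_lit 301) .nil)))))) (.g (nat_lit 6) .nil .nil))))))) (.nd (nat_lit 2) (.nd (nat_lit 3) (.nd (nat_lit 4) (.nd (nat_lit 5) 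
(.lf (nat_lit 164547) (.g (nat_lit 406) (.e (nat_lit 57464) (nat_lit 23) (.e (nat_lit 516163) (nat_lit 11) (.e (nat_lit 442412) (nat_lit 20) .nil))) .nil)) 
(.lf (nat_lit 164579) (.g (nat_lit 3002) (.e (nat_lit 57464) (nat_lit 23) (.e (nat_lit 516163) (nat_lit 11) (.e (nat_lit 442424) (nat_lit 22) (.e (nat_lit 196666) (nat_lit 13) (.e (nat_lit 65553) (nat_lit 0) .nil))))) .nil))) (.nd (nat_lit 5) 
(.lf (nat_lit 164563) (.g (nat_lit 1930) (.e (nat_lit 57464) (nat_lit 23) (.e (nat_lit 516163) (nat_lit 11) (.e (nat_lit 442424) (nat_lit 22) (.e (nat_lit 196661) (nat_lit 12) (.e (nat_lit 57711) (nat_lit 176) (.e (nat_lit 976) (nat_lit 81) (.e (nat_lit 5394) (nat_lit 301) .nil))))))) (.g (nat_lit 4) .nil .nil))) 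
(.lf (nat_lit 164595) (.g (nat_lit 2478) (.e (nat_lit 57464) (nat_lit 23) (.e (nat_lit 516163) (nat_lit 11) (.e (nat_lit 442426) (nat_lit 23) (.e (nat_lit 204846) (nat_lit 24) (.e (nat_lit 319505) (nat_lit 10) (.e (nat_lit 5389) (nat_lit 301) .nil)))))) (.g (nat_lit 5) .nil .nil))))) (.nd (nat_lit 4) (.nd (nat_lit 5) 
(.lf (nat_lit 164555) (.g (nat_lit 2204) (.e (nat_lit 57464) (nat_lit 23) (.e (nat_lit 516163) (nat_lit 11) (.e (nat_lit 442424) (nat_lit 22) (.e (nat_lit 196628) (nat_lit 9) (.e (nat_lit 968) (nat_lit 81) (.e (nat_lit 6202) (nat_lit 332) (.e (nat_lit 1078) (nat_lit 81) (.e (nat_lit 5394) (nat_lit 301) .nil)))))))) (.g (nat_lit 4) .nil .nil))) 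
(.lf (nat_lit 164587) (.g (nat_lit 3706) (.e (nat_lit 57464) (nat_lit 23) (.e (nat_lit 516163) (nat_lit 11) (.e (nat_lit 442425) (nat_lit 23) (.e (nat_lit 204846) (nat_lit 24) (.e (nat_lit 319504) (nat_lit 10) (.e (nat_lit 5389) (nat_lit 301) .nil)))))) (.g (nat_lit 5) .nil .nil)))) (.nd (nat_lit 5) 
(.lf (nat_lit 164571) (.g (nat_lit 2632) (.e (nat_lit 57464) (nat_lit 23) (.e (nat_lit 516163) (nat_lit 11) (.e (nat_lit 442424) (nat_lit 22) (.e (nat_lit 196661) (nat_lit 12) (.e (nat_lit 57714) (nat_lit 176) (.e (nat_lit 995) (nat_lit 81) (.e (nat_lit 5396) (nat_lit 301) .nil))))))) (.g (nat_lit 4) .nil .nil))) 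
(.lf (nat_lit 164603) (.g (nat_lit 1483) (.e (nat_lit 57464) (nat_lit 23) (.e (nat_lit 516163) (nat_lit 11) (.e (nat_lit 442427) (nat_lit 23) (.e (nat_lit 212736) (nat_lit 17) .nil)))) .nil))))) (.nd (nat_lit 3) (.nd (nat_lit 4) (.nd (nat_lit 5) 
(.lf (nat_lit 164551) (.g (nat_lit 2371) (.e (nat_lit 57464) (nat_lit 23) (.e (nat_lit 516163) (nat_lit 11) (.e (nat_lit 442424) (nat_lit 22) (.e (nat_lit 196626) (nat_lit 9) (.e (nat_lit 1400) (nat_lit 106) (.e (nat_lit 319504) (nat_lit 10) (.e (nat_lit 5395) (nat_lit 301) .nil))))))) (.g (nat_lit 4) .nil .nil))) 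
(.lf (nat_lit 164583) (.g (nat_lit 3157) (.e (nat_lit 57464) (nat_lit 23) (.e (nat_lit 516163) (nat_lit 11) (.e (nat_lit 442424) (nat_lit 22) (.e (nat_lit 196666) (nat_lit 13) (.e (nat_lit 65574) (nat_lit 4) (.e (nat_lit 123127) (nat_lit 239) (.e (nat_lit 1172) (nat_lit 87) .nil))))))) (.g (nat_lit 4) .nil .nil)))) (.nd (nat_lit 5) 
(.lf (nat_lit 164567) (.g (nat_lit 2299) (.e (nat_lit 57464) (nat_lit 23) (.e (nat_lit 516163) (nat_lit 11) (.e (nat_lit 442424) (nat_lit 22) (.e (nat_lit 196661) (nat_lit 12) (.e (nat_lit 57712) (nat_lit 176) (.e (nat_lit 1074) (nat_lit 81) (.e (nat_lit 5394) (nat_lit 301) .nil))))))) (.g (nat_lit 4) .nil .nil))) 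
(.lf (nat_lit 164599) (.g (nat_lit 1336) (.e (nat_lit 57464) (nat_lit 23) (.e (nat_lit 516163) (nat_lit 11) (.e (nat_lit 442427) (nat_lit 23) (.e (nat_lit 204819) (nat_lit 17) .nil)))) .nil)))) (.nd (nat_lit 4) (.nd (nat_lit 5) 
(.lf (nat_lit 164559) (.g (nat_lit 3058) (.e (nat_lit 57464) (nat_lit 23) (.e (nat_lit 516163) (nat_lit 11) (.e (nat_lit 442424) (nat_lit 22) (.e (nat_lit 196628) (nat_lit 9) (.e (nat_lit 970) (nat_lit 81) (.e (nat_lit 6202) (nat_lit 332) (.e (nat_lit 1078) (nat_lit 81) (.e (nat_lit 5394) (nat_lit 301) .nil)))))))) (.g (nat_lit 6) .nil .nil))) 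
(.lf (nat_lit 164591) (.g (nat_lit 2642) (.e (nat_lit 57464) (nat_lit 23) (.e (nat_lit 516163) (nat_lit 11) (.e (nat_lit 442425) (nat_lit 23) (.e (nat_lit 204849) (nat_lit 25) (.e (nat_lit 327708) (nat_lit 10) (.e (nat_lit 5394) (nat_lit 301) .nil)))))) (.g (nat_lit 6) .nil .nil)))) (.nd (nat_lit 5) 
(.lf (nat_lit 164575) (.g (nat_lit 1464) (.e (nat_lit 57464) (nat_lit 23) (.e (nat_lit 516163) (nat_lit 11) (.e (nat_lit 442424) (nat_lit 22) (.e (nat_lit 196663) (nat_lit 13) .nil)))) .nil)) 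
(.lf (nat_lit 164607) (.g (nat_lit 2033) (.e (nat_lit 57464) (nat_lit 23) (.e (nat_lit 516163) (nat_lit 11) (.e (nat_lit 442427) (nat_lit 23) (.e (nat_lit 204845) (nat_lit 24) (.e (nat_lit 319504) (nat_lit 10) .nil))))) .nil))))))))

noncomputable def tv2209 : DT := (.nd (nat_lit 0) (.nd (nat_lit 1) (.nd (nat_lit 2) (.nd (nat_lit 3) (.nd (nat_lit 4) (.nd (nat_lit 5) (.nd (nat_lit 6) 
(.lf (nat_lit 164608) (.g (nat_lit 2915) (.e (nat_lit 57464) (nat_lit 23) (.e (nat_lit 516163) (nat_lit 11) (.e (nat_lit 442427) (nat_lit 23) (.e (nat_lit 204845) (nat_lit 24) (.e (nat_lit 319505) (nat_lit 10) (.e (nat_lit 5395) (nat_lit 301) .nil)))))) (.g (nat_lit 5) .nil .nil))) 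
(.lf (nat_lit 164672) (.g (nat_lit 1244) (.e (nat_lit 57464) (nat_lit 23) (.e (nat_lit 516165) (nat_lit 12) (.e (nat_lit 450579) (nat_lit 5) (.e (nat_lit 532525) (nat_lit 8) .nil)))) .nil))) (.nd (nat_lit 6) 
(.lf (nat_lit 164640) (.g (nat_lit 2234) (.e (nat_lit 57464) (nat_lit 23) (.e (nat_lit 516165) (nat_lit 12) (.e (nat_lit 450579) (nat_lit 5) (.e (nat_lit 532481) (nat_lit 0) (.e (nat_lit 6229) (nat_lit 334) .nil))))) .nil)) 
(.lf (nat_lit 164704) (.g (nat_lit 1463) (.e (nat_lit 57464) (nat_lit 23) (.e (nat_lit 516165) (nat_lit 12) (.e (nat_lit 450579) (nat_lit 5) (.e (nat_lit 532556) (nat_lit 13) .nil)))) .nil)))) (.nd (nat_lit 5) (.nd (nat_lit 6) 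
(.lf (nat_lit 164624) (.g (nat_lit 526) (.e (nat_lit 57464) (nat_lit 23) (.e (nat_lit 516163) (nat_lit 11) (.e (nat_lit 442436) (nat_lit 26) .nil))) .nil)) 
(.lf (nat_lit 164688) (.g (nat_lit 2185) (.e (nat_lit 57464) (nat_lit 23) (.e (nat_lit 516165) (nat_lit 12) (.e (nat_lit 450579) (nat_lit 5) (.e (nat_lit 532530) (nat_lit 9) (.e (nat_lit 336260) (nat_lit 15) .nil))))) .nil))) (.nd (nat_lit 6) 
(.lf (nat_lit 164656) (.g (nat_lit 1878) (.e (nat_lit 57464) (nat_lit 23) (.e (nat_lit 516165) (nat_lit 12) (.e (nat_lit 450579) (nat_lit 5) (.e (nat_lit 532504) (nat_lit 1) (.e (nat_lit 65280) (nat_lit 215) .nil))))) .nil)) 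
(.lf (nat_lit 164720) (.g (nat_lit 353) (.e (nat_lit 57464) (nat_lit 23) (.e (nat_lit 516165) (nat_lit 12) (.e (nat_lit 450586) (nat_lit 10) .nil))) .nil))))) (.nd (nat_lit 4) (.nd (nat_lit 5) (.nd (nat_lit 6) 
(.lf (nat_lit 164616) (.g (nat_lit 2271) (.e (nat_lit 57464) (nat_lit 23) (.e (nat_lit 516163) (nat_lit 11) (.e (nat_lit 442427) (nat_lit 23) (.e (nat_lit 204846) (nat_lit 24) (.e (nat_lit 327424) (nat_lit 10) .nil))))) .nil)) 
(.lf (nat_lit 164680) (.g (nat_lit 2000) (.e (nat_lit 57464) (nat_lit 23) (.e (nat_lit 516165) (nat_lit 12) (.e (nat_lit 450579) (nat_lit 5) (.e (nat_lit 532530) (nat_lit 9) (.e (nat_lit 336257) (nat_lit 15) .nil))))) .nil))) (.nd (nat_lit 6) 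
(.lf (nat_lit 164648) (.g (nat_lit 1767) (.e (nat_lit 57464) (nat_lit 23) (.e (nat_lit 516165) (nat_lit 12) (.e (nat_lit 450579) (nat_lit 5) (.e (nat_lit 532484) (nat_lit 0) (.e (nat_lit 6200) (nat_lit 332) (.e (nat_lit 1010) (nat_lit 81) (.e (nat_lit 5395) (nat_lit 301) .nil))))))) (.g (nat_lit 4) .nil .nil))) 
(.lf (nat_lit 164712) (.g (nat_lit 2996) (.e (nat_lit 57464) (nat_lit 23) (.e (nat_lit 516165) (nat_lit 12) (.e (nat_lit 450580) (nat_lit 5) (.e (nat_lit 532523) (nat_lit 7) (.e (nat_lit 319505) (nat_lit 10) (.e (nat_lit 7936) (nat_lit 301) .nil)))))) (.g (nat_lit 5) .nil .nil))))) (.nd (nat_lit 5) (.nd (nat_lit 6) 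
(.lf (nat_lit 164632) (.g (nat_lit 4003) (.e (nat_lit 57464) (nat_lit 23) (.e (nat_lit 516165) (nat_lit 12) (.e (nat_lit 458496) (nat_lit 3) (.e (nat_lit 516115) (nat_lit 1) (.e (nat_lit 164325) (nat_lit 230) (.e (nat_lit 163861) (nat_lit 1) (.e (nat_lit 164258) (nat_lit 215) (.e (nat_lit 1172) (nat_lit 87) .nil)))))))) (.g (nat_lit 6) .nil .nil))) 
(.lf (nat_lit 164696) (.g (nat_lit 2020) (.e (nat_lit 57464) (nat_lit 23) (.e (nat_lit 516165) (nat_lit 12) (.e (nat_lit 450579) (nat_lit 5) (.e (nat_lit 532534) (nat_lit 9) (.e (nat_lit 336257) (nat_lit 15) (.e (nat_lit 3592) (nat_lit 224) (.e (nat_lit 753703) (nat_lit 16) .nil))))))) (.g (nat_lit 4) .nil .nil)))) (.nd (nat_lit 6) 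
(.lf (nat_lit 164664) (.g (nat_lit 3138) (.e (nat_lit 57464) (nat_lit 23) (.e (nat_lit 516165) (nat_lit 12) (.e (nat_lit 450579) (nat_lit 5) (.e (nat_lit 532523) (nat_lit 7) (.e (nat_lit 319503) (nat_lit 10) .nil))))) .nil)) 
(.lf (nat_lit 164728) (.g (nat_lit 2871) (.e (nat_lit 57464) (nat_lit 23) (.e (nat_lit 516165) (nat_lit 12) (.e (nat_lit 450586) (nat_lit 10) (.e (nat_lit 573451) (nat_lit 9) (.e (nat_lit 428) (nat_lit 32) .nil))))) .nil)))))) (.nd (nat_lit 3) (.nd (nat_lit 4) (.nd (nat_lit 5) (.nd (nat_lit 6) 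
(.lf (nat_lit 164612) (.g (nat_lit 3381) (.e (nat_lit 57464) (nat_lit 23) (.e (nat_lit 516163) (nat_lit 11) (.e (nat_lit 442427) (nat_lit 23) (.e (nat_lit 204846) (nat_lit 24) (.e (nat_lit 319505) (nat_lit 10) (.e (nat_lit 5389) (nat_lit 301) .nil)))))) (.g (nat_lit 5) .nil .nil))) 
(.lf (nat_lit 164676) (.g (nat_lit 2047) (.e (nat_lit 57464) (nat_lit 23) (.e (nat_lit 516165) (nat_lit 12) (.e (nat_lit 450579) (nat_lit 5) (.e (nat_lit 532526) (nat_lit 8) (.e (nat_lit 327709) (nat_lit 10) .nil))))) .nil))) (.nd (nat_lit 6) 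
(.lf (nat_lit 164644) (.g (nat_lit 1197) (.e (nat_lit 57464) (nat_lit 23) (.e (nat_lit 516165) (nat_lit 12) (.e (nat_lit 450579) (nat_lit 5) (.e (nat_lit 532484) (nat_lit 0) .nil)))) .nil)) 
(.lf (nat_lit 164708) (.g (nat_lit 766) (.e (nat_lit 57464) (nat_lit 23) (.e (nat_lit 516165) (nat_lit 12) (.e (nat_lit 450580) (nat_lit 5) (.e (nat_lit 532523) (nat_lit 7) .nil)))) .nil)))) (.nd (nat_lit 5) (.nd (nat_lit 6) 
(.lf (nat_lit 164628) (.g (nat_lit 501) (.e (nat_lit 57464) (nat_lit 23) (.e (nat_lit 516165) (nat_lit 12) (.e (nat_lit 458496) (nat_lit 1) .nil))) .nil)) 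
(.lf (nat_lit 164692) (.g (nat_lit 3006) (.e (nat_lit 57464) (nat_lit 23) (.e (nat_lit 516165) (nat_lit 12) (.e (nat_lit 450579) (nat_lit 5) (.e (nat_lit 532534) (nat_lit 9) (.e (nat_lit 336240) (nat_lit 15) (.e (nat_lit 3590) (nat_lit 224) (.e (nat_lit 753703) (nat_lit 16) .nil))))))) (.g (nat_lit 5) .nil .nil)))) (.nd (nat_lit 6) 
(.lf (nat_lit 164660) (.g (nat_lit 2296) (.e (nat_lit 57464) (nat_lit 23) (.e (nat_lit 516165) (nat_lit 12) (.e (nat_lit 450579) (nat_lit 5) (.e (nat_lit 532522) (nat_lit 7) (.e (nat_lit 319503) (nat_lit 10) .nil))))) .nil)) 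
(.lf (nat_lit 164724) (.g (nat_lit 3028) (.e (nat_lit 57464) (nat_lit 23) (.e (nat_lit 516165) (nat_lit 12) (.e (nat_lit 450586) (nat_lit 10) (.e (nat_lit 573451) (nat_lit 9) (.e (nat_lit 11) (nat_lit 0) .nil))))) .nil))))) (.nd (nat_lit 4) (.nd (nat_lit 5) (.nd (nat_lit 6) 
(.lf (nat_lit 164620) (.g (nat_lit 1842) (.e (nat_lit 57464) (nat_lit 23) (.e (nat_lit 516163) (nat_lit 11) (.e (nat_lit 442427) (nat_lit 23) (.e (nat_lit 204849) (nat_lit 25) (.e (nat_lit 327705) (nat_lit 10) .nil))))) .nil)) 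
(.lf (nat_lit 164684) (.g (nat_lit 2001) (.e (nat_lit 57464) (nat_lit 23) (.e (nat_lit 516165) (nat_lit 12) (.e (nat_lit 450579) (nat_lit 5) (.e (nat_lit 532530) (nat_lit 9) (.e (nat_lit 336258) (nat_lit 15) (.e (nat_lit 3589) (nat_lit 224) (.e (nat_lit 753703) (nat_lit 16) .nil))))))) (.g (nat_lit 4) .nil .nil)))) (.nd (nat_lit 6) 
(.lf (nat_lit 164652) (.g (nat_lit 1605) (.e (nat_lit 57464) (nat_lit 23) (.e (nat_lit 516165) (nat_lit 12) (.e (nat_lit 450579) (nat_lit 5) (.e (nat_lit 532488) (nat_lit 0) (.e (nat_lit 6157) (nat_lit 332) (.e (nat_lit 1009) (nat_lit 81) (.e (nat_lit 5395) (nat_lit 301) .nil))))))) (.g (nat_lit 4) .nil .nil))) 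
(.lf (nat_lit 164716) (.g (nat_lit 1680) (.e (nat_lit 57464) (nat_lit 23) (.e (nat_lit 516165) (nat_lit 12) (.e (nat_lit 450581) (nat_lit 5) (.e (nat_lit 532523) (nat_lit 7) (.e (nat_lit 327424) (nat_lit 10) .nil))))) .nil)))) (.nd (nat_lit 5) (.nd (nat_lit 6) 
(.lf (nat_lit 164636) (.g (nat_lit 2255) (.e (nat_lit 57464) (nat_lit 23) (.e (nat_lit 516165) (nat_lit 12) (.e (nat_lit 450579) (nat_lit 5) (.e (nat_lit 532481) (nat_lit 0) (.e (nat_lit 6157) (nat_lit 332) .nil))))) .nil)) 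
(.lf (nat_lit 164700) (.g (nat_lit 2167) (.e (nat_lit 57464) (nat_lit 23) (.e (nat_lit 516165) (nat_lit 12) (.e (nat_lit 450579) (nat_lit 5) (.e (nat_lit 532553) (nat_lit 13) (.e (nat_lit 368666) (nat_lit 18) (.e (nat_lit 4803) (nat_lit 281) (.e (nat_lit 1172) (nat_lit 87) .nil))))))) (.g (nat_lit 4) .nil .nil)))) (.nd (nat_lit 6) 
(.lf (nat_lit 164668) (.g (nat_lit 2469) (.e (nat_lit 57464) (nat_lit 23) (.e (nat_lit 516165) (nat_lit 12) (.e (nat_lit 450579) (nat_lit 5) (.e (nat_lit 532523) (nat_lit 7) (.e (nat_lit 319505) (nat_lit 10) .nil))))) .nil)) 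
(.lf (nat_lit 164732) (.g (nat_lit 2329) (.e (nat_lit 57464) (nat_lit 23) (.e (nat_lit 516165) (nat_lit 12) (.e (nat_lit 450586) (nat_lit 10) (.e (nat_lit 573452) (nat_lit 9) (.e (nat_lit 16) (nat_lit 0) (.e (nat_lit 7086) (nat_lit 379) (.e (nat_lit 123212) (nat_lit 273) .nil))))))) (.g (nat_lit 0) .nil .nil)))))))) 
(.nd (nat_lit 2) (.nd (nat_lit 3) (.nd (nat_lit 4) (.nd (nat_lit 5) (.nd (nat_lit 6) 
(.lf (nat_lit 164610) (.g (nat_lit 3025) (.e (nat_lit 57464) (nat_lit 23) (.e (nat_lit 516163) (nat_lit 11) (.e (nat_lit 442427) (nat_lit 23) (.e (nat_lit 204845) (nat_lit 24) (.e (nat_lit 319506) (nat_lit 10) (.e (nat_lit 5389) (nat_lit 301) .nil)))))) (.g (nat_lit 5) .nil .nil))) 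
(.lf (nat_lit 164674) (.g (nat_lit 2077) (.e (nat_lit 57464) (nat_lit 23) (.e (nat_lit 516165) (nat_lit 12) (.e (nat_lit 450579) (nat_lit 5) (.e (nat_lit 532526) (nat_lit 8) (.e (nat_lit 327702) (nat_lit 10) (.e (nat_lit 5390) (nat_lit 301) .nil)))))) (.g (nat_lit 4) .nil .nil)))) (.nd (nat_lit 6) 
(.lf (nat_lit 164642) (.g (nat_lit 1831) (.e (nat_lit 57464) (nat_lit 23) (.e (nat_lit 516165) (nat_lit 12) (.e (nat_lit 450579) (nat_lit 5) (.e (nat_lit 532482) (nat_lit 0) (.e (nat_lit 6192) (nat_lit 332) .nil))))) .nil)) 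
(.lf (nat_lit 164706) (.g (nat_lit 2908) (.e (nat_lit 57464) (nat_lit 23) (.e (nat_lit 516165) (nat_lit 12) (.e (nat_lit 450579) (nat_lit 5) (.e (nat_lit 532563) (nat_lit 15) (.e (nat_lit 385087) (nat_lit 46) (.e (nat_lit 753703) (nat_lit 16) .nil)))))) (.g (nat_lit 6) .nil .nil))))) (.nd (nat_lit 5) (.nd (nat_lit 6) 
(.lf (nat_lit 164626) (.g (nat_lit 473) (.e (nat_lit 57464) (nat_lit 23) (.e (nat_lit 516165) (nat_lit 12) (.e (nat_lit 450563) (nat_lit 0) .nil))) .nil)) 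
(.lf (nat_lit 164690) (.g (nat_lit 1331) (.e (nat_lit 57464) (nat_lit 23) (.e (nat_lit 516165) (nat_lit 12) (.e (nat_lit 450579) (nat_lit 5) (.e (nat_lit 532533) (nat_lit 9) .nil)))) .nil))) (.nd (nat_lit 6) 
(.lf (nat_lit 164658) (.g (nat_lit 1223) (.e (nat_lit 57464) (nat_lit 23) (.e (nat_lit 516165) (nat_lit 12) (.e (nat_lit 450579) (nat_lit 5) (.e (nat_lit 532522) (nat_lit 7) .nil)))) .nil)) 
(.lf (nat_lit 164722) (.g (nat_lit 2176) (.e (nat_lit 57464) (nat_lit 23) (.e (nat_lit 516165) (nat_lit 12) (.e (nat_lit 450586) (nat_lit 10) (.e (nat_lit 573449) (nat_lit 9) (.e (nat_lit 473) (nat_lit 36) .nil))))) .nil))))) (.nd (nat_lit 4) (.nd (nat_lit 5) (.nd (nat_lit 6) 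
(.lf (nat_lit 164618) (.g (nat_lit 1340) (.e (nat_lit 57464) (nat_lit 23) (.e (nat_lit 516163) (nat_lit 11) (.e (nat_lit 442427) (nat_lit 23) (.e (nat_lit 204848) (nat_lit 25) .nil)))) .nil)) 
(.lf (nat_lit 164682) (.g (nat_lit 2257) (.e (nat_lit 57464) (nat_lit 23) (.e (nat_lit 516165) (nat_lit 12) (.e (nat_lit 450579) (nat_lit 5) (.e (nat_lit 532530) (nat_lit 9) (.e (nat_lit 336257) (nat_lit 15) (.e (nat_lit 3592) (nat_lit 224) (.e (nat_lit 753703) (nat_lit 16) .nil))))))) (.g (nat_lit 4) .nil .nil)))) (.nd (nat_lit 6) 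
(.lf (nat_lit 164650) (.g (nat_lit 1381) (.e (nat_lit 57464) (nat_lit 23) (.e (nat_lit 516165) (nat_lit 12) (.e (nat_lit 450579) (nat_lit 5) (.e (nat_lit 532486) (nat_lit 0) .nil)))) .nil)) 
(.lf (nat_lit 164714) (.g (nat_lit 1224) (.e (nat_lit 57464) (nat_lit 23) (.e (nat_lit 516165) (nat_lit 12) (.e (nat_lit 450580) (nat_lit 5) (.e (nat_lit 532526) (nat_lit 8) .nil)))) .nil)))) (.nd (nat_lit 5) (.nd (nat_lit 6) 
(.lf (nat_lit 164634) (.g (nat_lit 1245) (.e (nat_lit 57464) (nat_lit 23) (.e (nat_lit 516165) (nat_lit 12) (.e (nat_lit 450579) (nat_lit 5) (.e (nat_lit 532480) (nat_lit 0) .nil)))) .nil)) 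
(.lf (nat_lit 164698) (.g (nat_lit 1898) (.e (nat_lit 57464) (nat_lit 23) (.e (nat_lit 516165) (nat_lit 12) (.e (nat_lit 450579) (nat_lit 5) (.e (nat_lit 532553) (nat_lit 13) (.e (nat_lit 368662) (nat_lit 18) .nil))))) .nil))) (.nd (nat_lit 6) 
(.lf (nat_lit 164666) (.g (nat_lit 4051) (.e (nat_lit 57464) (nat_lit 23) (.e (nat_lit 516165) (nat_lit 12) (.e (nat_lit 450579) (nat_lit 5) (.e (nat_lit 532523) (nat_lit 7) (.e (nat_lit 319504) (nat_lit 10) (.e (nat_lit 5396) (nat_lit 301) .nil)))))) (.g (nat_lit 6) .nil .nil))) 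
(.lf (nat_lit 164730) (.g (nat_lit 2189) (.e (nat_lit 57464) (nat_lit 23) (.e (nat_lit 516165) (nat_lit 12) (.e (nat_lit 450586) (nat_lit 10) (.e (nat_lit 573452) (nat_lit 9) (.e (nat_lit 13) (nat_lit 0) (.e (nat_lit 7081) (nat_lit 378) (.e (nat_lit 57896) (nat_lit 273) .nil))))))) (.g (nat_lit 0) .nil .nil))))))) (.nd (nat_lit 3) (.nd (nat_lit 4) (.nd (nat_lit 5) (.nd (nat_lit 6) 
(.lf (nat_lit 164614) (.g (nat_lit 3751) (.e (nat_lit 57464) (nat_lit 23) (.e (nat_lit 516163) (nat_lit 11) (.e (nat_lit 442427) (nat_lit 23) (.e (nat_lit 204846) (nat_lit 24) (.e (nat_lit 319505) (nat_lit 10) (.e (nat_lit 7936) (nat_lit 301) .nil)))))) (.g (nat_lit 5) .nil .nil))) 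
(.lf (nat_lit 164678) (.g (nat_lit 2127) (.e (nat_lit 57464) (nat_lit 23) (.e (nat_lit 516165) (nat_lit 12) (.e (nat_lit 450579) (nat_lit 5) (.e (nat_lit 532526) (nat_lit 8) (.e (nat_lit 335616) (nat_lit 10) (.e (nat_lit 5394) (nat_lit 301) .nil)))))) (.g (nat_lit 4) .nil .nil)))) (.nd (nat_lit 6) 
(.lf (nat_lit 164646) (.g (nat_lit 1563) (.e (nat_lit 57464) (nat_lit 23) (.e (nat_lit 516165) (nat_lit 12) (.e (nat_lit 450579) (nat_lit 5) (.e (nat_lit 532484) (nat_lit 0) (.e (nat_lit 6200) (nat_lit 332) .nil))))) .nil)) 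
(.lf (nat_lit 164710) (.g (nat_lit 3174) (.e (nat_lit 57464) (nat_lit 23) (.e (nat_lit 516165) (nat_lit 12) (.e (nat_lit 450580) (nat_lit 5) (.e (nat_lit 532523) (nat_lit 7) (.e (nat_lit 319504) (nat_lit 10) (.e (nat_lit 5395) (nat_lit 301) .nil)))))) (.g (nat_lit 5) .nil .nil))))) (.nd (nat_lit 5) (.nd (nat_lit 6) 
(.lf (nat_lit 164630) (.g (nat_lit 777) (.e (nat_lit 57464) (nat_lit 23) (.e (nat_lit 516165) (nat_lit 12) (.e (nat_lit 450576) (nat_lit 2) (.e (nat_lit 507930) (nat_lit 10) .nil)))) .nil)) 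
(.lf (nat_lit 164694) (.g (nat_lit 1842) (.e (nat_lit 57464) (nat_lit 23) (.e (nat_lit 516165) (nat_lit 12) (.e (nat_lit 450579) (nat_lit 5) (.e (nat_lit 532534) (nat_lit 9) (.e (nat_lit 336257) (nat_lit 15) .nil))))) .nil))) (.nd (nat_lit 6) 
(.lf (nat_lit 164662) (.g (nat_lit 3253) (.e (nat_lit 57464) (nat_lit 23) (.e (nat_lit 516165) (nat_lit 12) (.e (nat_lit 450579) (nat_lit 5) (.e (nat_lit 532523) (nat_lit 7) (.e (nat_lit 319497) (nat_lit 10) .nil))))) .nil)) 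
(.lf (nat_lit 164726) (.g (nat_lit 2969) (.e (nat_lit 57464) (nat_lit 23) (.e (nat_lit 516165) (nat_lit 12) (.e (nat_lit 450586) (nat_lit 10) (.e (nat_lit 573451) (nat_lit 9) (.e (nat_lit 16) (nat_lit 0) .nil))))) .nil))))) (.nd (nat_lit 4) (.nd (nat_lit 5) (.nd (nat_lit 6) 
(.lf (nat_lit 164622) (.g (nat_lit 415) (.e (nat_lit 57464) (nat_lit 23) (.e (nat_lit 516163) (nat_lit 11) (.e (nat_lit 442430) (nat_lit 24) .nil))) .nil)) 
(.lf (nat_lit 164686) (.g (nat_lit 2183) (.e (nat_lit 57464) (nat_lit 23) (.e (nat_lit 516165) (nat_lit 12) (.e (nat_lit 450579) (nat_lit 5) (.e (nat_lit 532530) (nat_lit 9) (.e (nat_lit 336259) (nat_lit 15) .nil))))) .nil))) (.nd (nat_lit 6) 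
(.lf (nat_lit 164654) (.g (nat_lit 1944) (.e (nat_lit 57464) (nat_lit 23) (.e (nat_lit 516165) (nat_lit 12) (.e (nat_lit 450579) (nat_lit 5) (.e (nat_lit 532501) (nat_lit 1) (.e (nat_lit 65280) (nat_lit 215) .nil))))) .nil)) 
(.lf (nat_lit 164718) (.g (nat_lit 1497) (.e (nat_lit 57464) (nat_lit 23) (.e (nat_lit 516165) (nat_lit 12) (.e (nat_lit 450583) (nat_lit 7) (.e (nat_lit 548914) (nat_lit 19) (.e (nat_lit 188160) (nat_lit 35) .nil))))) (.g (nat_lit 4) .nil .nil))))) (.nd (nat_lit 5) (.nd (nat_lit 6) 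
(.lf (nat_lit 164638) (.g (nat_lit 2234) (.e (nat_lit 57464) (nat_lit 23) (.e (nat_lit 516165) (nat_lit 12) (.e (nat_lit 450579) (nat_lit 5) (.e (nat_lit 532481) (nat_lit 0) (.e (nat_lit 6221) (nat_lit 333) .nil))))) .nil)) 
(.lf (nat_lit 164702) (.g (nat_lit 1430) (.e (nat_lit 57464) (nat_lit 23) (.e (nat_lit 516165) (nat_lit 12) (.e (nat_lit 450579) (nat_lit 5) (.e (nat_lit 532555) (nat_lit 13) .nil)))) .nil))) (.nd (nat_lit 6) 
(.lf (nat_lit 164670) (.g (nat_lit 3688) (.e (nat_lit 57464) (nat_lit 23) (.e (nat_lit 516165) (nat_lit 12) (.e (nat_lit 450579) (nat_lit 5) (.e (nat_lit 532523) (nat_lit 7) (.e (nat_lit 319505) (nat_lit 10) (.e (nat_lit 7936) (nat_lit 301) .nil)))))) (.g (nat_lit 5) .nil .nil))) 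
(.lf (nat_lit 164734) (.g (nat_lit 2350) (.e (nat_lit 57464) (nat_lit 23) (.e (nat_lit 516165) (nat_lit 12) (.e (nat_lit 450586) (nat_lit 10) (.e (nat_lit 573452) (nat_lit 9) (.e (nat_lit 16) (nat_lit 0) (.e (nat_lit 7089) (nat_lit 379) (.e (nat_lit 123212) (nat_lit 273) .nil))))))) (.g (nat_lit 0) .nil .nil))))))))) 
(.nd (nat_lit 1) (.nd (nat_lit 2) (.nd (nat_lit 3) (.nd (nat_lit 4) (.nd (nat_lit 5) 
(.nd (nat_lit 6) 
(.lf (nat_lit 164609) (.g (nat_lit 2217) (.e (nat_lit 57464) (nat_lit 23) (.e (nat_lit 516163) (nat_lit 11) (.e (nat_lit 442427) (nat_lit 23) (.e (nat_lit 204845) (nat_lit 24) (.e (nat_lit 319505) (nat_lit 10) (.e (nat_lit 7936) (nat_lit 301) .nil)))))) (.g (nat_lit 4) .nil .nil))) 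
(.lf (nat_lit 164673) (.g (nat_lit 1210) (.e (nat_lit 57464) (nat_lit 23) (.e (nat_lit 516165) (nat_lit 12) (.e (nat_lit 450579) (nat_lit 5) (.e (nat_lit 532526) (nat_lit 8) .nil)))) .nil))) (.nd (nat_lit 6) 
(.lf (nat_lit 164641) (.g (nat_lit 1176) (.e (nat_lit 57464) (nat_lit 23) (.e (nat_lit 516165) (nat_lit 12) (.e (nat_lit 450579) (nat_lit 5) (.e (nat_lit 532482) (nat_lit 0) .nil)))) .nil)) 
(.lf (nat_lit 164705) (.g (nat_lit 1279) (.e (nat_lit 57464) (nat_lit 23) (.e (nat_lit 516165) (nat_lit 12) (.e (nat_lit 450579) (nat_lit 5) (.e (nat_lit 532562) (nat_lit 15) .nil)))) .nil)))) (.nd (nat_lit 5) (.nd (nat_lit 6) 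
(.lf (nat_lit 164625) (.g (nat_lit 1930) (.e (nat_lit 57464) (nat_lit 23) (.e (nat_lit 516164) (nat_lit 11) (.e (nat_lit 442427) (nat_lit 23) (.e (nat_lit 204849) (nat_lit 25) (.e (nat_lit 327708) (nat_lit 10) (.e (nat_lit 5394) (nat_lit 301) .nil)))))) (.g (nat_lit 4) .nil .nil))) 
(.lf (nat_lit 164689) (.g (nat_lit 2361) (.e (nat_lit 57464) (nat_lit 23) (.e (nat_lit 516165) (nat_lit 12) (.e (nat_lit 450579) (nat_lit 5) (.e (nat_lit 532530) (nat_lit 9) (.e (nat_lit 336261) (nat_lit 15) (.e (nat_lit 3588) (nat_lit 224) (.e (nat_lit 753703) (nat_lit 16) .nil))))))) (.g (nat_lit 4) .nil .nil)))) (.nd (nat_lit 6) 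
(.lf (nat_lit 164657) (.g (nat_lit 2020) (.e (nat_lit 57464) (nat_lit 23) (.e (nat_lit 516165) (nat_lit 12) (.e (nat_lit 450579) (nat_lit 5) (.e (nat_lit 532504) (nat_lit 1) (.e (nat_lit 57776) (nat_lit 233) .nil))))) .nil)) 
(.lf (nat_lit 164721) (.g (nat_lit 1430) (.e (nat_lit 57464) (nat_lit 23) (.e (nat_lit 516165) (nat_lit 12) (.e (nat_lit 450586) (nat_lit 10) (.e (nat_lit 573449) (nat_lit 9) .nil)))) .nil))))) (.nd (nat_lit 4) (.nd (nat_lit 5) (.nd (nat_lit 6) 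
(.lf (nat_lit 164617) (.g (nat_lit 2172) (.e (nat_lit 57464) (nat_lit 23) (.e (nat_lit 516163) (nat_lit 11) (.e (nat_lit 442427) (nat_lit 23) (.e (nat_lit 204847) (nat_lit 25) (.e (nat_lit 327708) (nat_lit 10) (.e (nat_lit 5394) (nat_lit 301) .nil)))))) (.g (nat_lit 5) .nil .nil))) 
(.lf (nat_lit 164681) (.g (nat_lit 2150) (.e (nat_lit 57464) (nat_lit 23) (.e (nat_lit 516165) (nat_lit 12) (.e (nat_lit 450579) (nat_lit 5) (.e (nat_lit 532530) (nat_lit 9) (.e (nat_lit 336257) (nat_lit 15) (.e (nat_lit 3585) (nat_lit 224) (.e (nat_lit 753703) (nat_lit 16) .nil))))))) (.g (nat_lit 4) .nil .nil)))) (.nd (nat_lit 6) 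
(.lf (nat_lit 164649) (.g (nat_lit 1780) (.e (nat_lit 57464) (nat_lit 23) (.e (nat_lit 516165) (nat_lit 12) (.e (nat_lit 450579) (nat_lit 5) (.e (nat_lit 532484) (nat_lit 0) (.e (nat_lit 7936) (nat_lit 333) (.e (nat_lit 57896) (nat_lit 273) .nil)))))) (.g (nat_lit 4) .nil .nil))) 
(.lf (nat_lit 164713) (.g (nat_lit 2886) (.e (nat_lit 57464) (nat_lit 23) (.e (nat_lit 516165) (nat_lit 12) (.e (nat_lit 450580) (nat_lit 5) (.e (nat_lit 532523) (nat_lit 7) (.e (nat_lit 319511) (nat_lit 10) (.e (nat_lit 5394) (nat_lit 301) .nil)))))) (.g (nat_lit 5) .nil .nil))))) (.nd (nat_lit 5) (.nd (nat_lit 6) 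
(.lf (nat_lit 164633) (.g (nat_lit 433) (.e (nat_lit 57464) (nat_lit 23) (.e (nat_lit 516165) (nat_lit 12) (.e (nat_lit 450579) (nat_lit 5) .nil))) .nil)) 
(.lf (nat_lit 164697) (.g (nat_lit 1408) (.e (nat_lit 57464) (nat_lit 23) (.e (nat_lit 516165) (nat_lit 12) (.e (nat_lit 450579) (nat_lit 5) (.e (nat_lit 532553) (nat_lit 13) .nil)))) .nil))) (.nd (nat_lit 6) 
(.lf (nat_lit 164665) (.g (nat_lit 2600) (.e (nat_lit 57464) (nat_lit 23) (.e (nat_lit 516165) (nat_lit 12) (.e (nat_lit 450579) (nat_lit 5) (.e (nat_lit 532523) (nat_lit 7) (.e (nat_lit 319504) (nat_lit 10) (.e (nat_lit 5391) (nat_lit 301) .nil)))))) (.g (nat_lit 4) .nil .nil))) 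
(.lf (nat_lit 164729) (.g (nat_lit 1197) (.e (nat_lit 57464) (nat_lit 23) (.e (nat_lit 516165) (nat_lit 12) (.e (nat_lit 450586) (nat_lit 10) (.e (nat_lit 573452) (nat_lit 9) .nil)))) .nil)))))) (.nd (nat_lit 3) (.nd (nat_lit 4) (.nd (nat_lit 5) (.nd (nat_lit 6) 
(.lf (nat_lit 164613) (.g (nat_lit 2560) (.e (nat_lit 57464) (nat_lit 23) (.e (nat_lit 516163) (nat_lit 11) (.e (nat_lit 442427) (nat_lit 23) (.e (nat_lit 204846) (nat_lit 24) (.e (nat_lit 319505) (nat_lit 10) (.e (nat_lit 5390) (nat_lit 301) .nil)))))) (.g (nat_lit 4) .nil .nil))) 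
(.lf (nat_lit 164677) (.g (nat_lit 1950) (.e (nat_lit 57464) (nat_lit 23) (.e (nat_lit 516165) (nat_lit 12) (.e (nat_lit 450579) (nat_lit 5) (.e (nat_lit 532526) (nat_lit 8) (.e (nat_lit 335616) (nat_lit 10) .nil))))) .nil))) (.nd (nat_lit 6) 
(.lf (nat_lit 164645) (.g (nat_lit 2336) (.e (nat_lit 57464) (nat_lit 23) (.e (nat_lit 516165) (nat_lit 12) (.e (nat_lit 450579) (nat_lit 5) (.e (nat_lit 532484) (nat_lit 0) (.e (nat_lit 6198) (nat_lit 332) (.e (nat_lit 1074) (nat_lit 81) (.e (nat_lit 5394) (nat_lit 301) .nil))))))) (.g (nat_lit 6) .nil .nil))) 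
(.lf (nat_lit 164709) (.g (nat_lit 3116) (.e (nat_lit 57464) (nat_lit 23) (.e (nat_lit 516165) (nat_lit 12) (.e (nat_lit 450580) (nat_lit 5) (.e (nat_lit 532523) (nat_lit 7) (.e (nat_lit 319504) (nat_lit 10) (.e (nat_lit 5389) (nat_lit 301) .nil)))))) (.g (nat_lit 5) .nil .nil))))) (.nd (nat_lit 5) (.nd (nat_lit 6) 
(.lf (nat_lit 164629) (.g (nat_lit 438) (.e (nat_lit 57464) (nat_lit 23) (.e (nat_lit 516165) (nat_lit 12) (.e (nat_lit 450576) (nat_lit 2) .nil))) .nil)) 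
(.lf (nat_lit 164693) (.g (nat_lit 2500) (.e (nat_lit 57464) (nat_lit 23) (.e (nat_lit 516165) (nat_lit 12) (.e (nat_lit 450579) (nat_lit 5) (.e (nat_lit 532534) (nat_lit 9) (.e (nat_lit 336240) (nat_lit 15) (.e (nat_lit 3595) (nat_lit 224) (.e (nat_lit 753703) (nat_lit 16) .nil))))))) (.g (nat_lit 4) .nil .nil)))) (.nd (nat_lit 6) 
(.lf (nat_lit 164661) (.g (nat_lit 2267) (.e (nat_lit 57464) (nat_lit 23) (.e (nat_lit 516165) (nat_lit 12) (.e (nat_lit 450579) (nat_lit 5) (.e (nat_lit 532522) (nat_lit 7) (.e (nat_lit 327424) (nat_lit 10) .nil))))) .nil)) 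
(.lf (nat_lit 164725) (.g (nat_lit 2983) (.e (nat_lit 57464) (nat_lit 23) (.e (nat_lit 516165) (nat_lit 12) (.e (nat_lit 450586) (nat_lit 10) (.e (nat_lit 573451) (nat_lit 9) (.e (nat_lit 13) (nat_lit 0) .nil))))) .nil))))) (.nd (nat_lit 4) (.nd (nat_lit 5) (.nd (nat_lit 6) 
(.lf (nat_lit 164621) (.g (nat_lit 2083) (.e (nat_lit 57464) (nat_lit 23) (.e (nat_lit 516163) (nat_lit 11) (.e (nat_lit 442427) (nat_lit 23) (.e (nat_lit 204849) (nat_lit 25) (.e (nat_lit 327708) (nat_lit 10) (.e (nat_lit 5389) (nat_lit 301) .nil)))))) (.g (nat_lit 4) .nil .nil))) 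
(.lf (nat_lit 164685) (.g (nat_lit 2056) (.e (nat_lit 57464) (nat_lit 23) (.e (nat_lit 516165) (nat_lit 12) (.e (nat_lit 450579) (nat_lit 5) (.e (nat_lit 532530) (nat_lit 9) (.e (nat_lit 336258) (nat_lit 15) (.e (nat_lit 3590) (nat_lit 224) (.e (nat_lit 753703) (nat_lit 16) .nil))))))) (.g (nat_lit 4) .nil .nil)))) (.nd (nat_lit 6) 
(.lf (nat_lit 164653) (.g (nat_lit 1114) (.e (nat_lit 57464) (nat_lit 23) (.e (nat_lit 516165) (nat_lit 12) (.e (nat_lit 450579) (nat_lit 5) (.e (nat_lit 532489) (nat_lit 0) .nil)))) .nil)) 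
(.lf (nat_lit 164717) (.g (nat_lit 1243) (.e (nat_lit 57464) (nat_lit 23) (.e (nat_lit 516165) (nat_lit 12) (.e (nat_lit 450583) (nat_lit 7) (.e (nat_lit 548894) (nat_lit 14) .nil)))) .nil)))) (.nd (nat_lit 5) (.nd (nat_lit 6) 
(.lf (nat_lit 164637) (.g (nat_lit 2433) (.e (nat_lit 57464) (nat_lit 23) (.e (nat_lit 516165) (nat_lit 12) (.e (nat_lit 450579) (nat_lit 5) (.e (nat_lit 532481) (nat_lit 0) (.e (nat_lit 6192) (nat_lit 332) (.e (nat_lit 1008) (nat_lit 81) (.e (nat_lit 5395) (nat_lit 301) .nil))))))) (.g (nat_lit 4) .nil .nil))) 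
(.lf (nat_lit 164701) (.g (nat_lit 2365) (.e (nat_lit 57464) (nat_lit 23) (.e (nat_lit 516165) (nat_lit 12) (.e (nat_lit 450579) (nat_lit 5) (.e (nat_lit 532553) (nat_lit 13) (.e (nat_lit 368689) (nat_lit 34) (.e (nat_lit 622611) (nat_lit 8) .nil)))))) (.g (nat_lit 4) .nil .nil)))) (.nd (nat_lit 6) 
(.lf (nat_lit 164669) (.g (nat_lit 3705) (.e (nat_lit 57464) (nat_lit 23) (.e (nat_lit 516165) (nat_lit 12) (.e (nat_lit 450579) (nat_lit 5) (.e (nat_lit 532523) (nat_lit 7) (.e (nat_lit 319505) (nat_lit 10) (.e (nat_lit 5395) (nat_lit 301) .nil)))))) (.g (nat_lit 5) .nil .nil))) 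
(.lf (nat_lit 164733) (.g (nat_lit 2379) (.e (nat_lit 57464) (nat_lit 23) (.e (nat_lit 516165) (nat_lit 12) (.e (nat_lit 450586) (nat_lit 10) (.e (nat_lit 573452) (nat_lit 9) (.e (nat_lit 16) (nat_lit 0) (.e (nat_lit 7088) (nat_lit 379) (.e (nat_lit 123212) (nat_lit 273) .nil))))))) (.g (nat_lit 0) .nil .nil)))))))) 
(.nd (nat_lit 2) (.nd (nat_lit 3) (.nd (nat_lit 4) (.nd (nat_lit 5) (.nd (nat_lit 6) 
(.lf (nat_lit 164611) (.g (nat_lit 3037) (.e (nat_lit 57464) (nat_lit 23) (.e (nat_lit 516163) (nat_lit 11) (.e (nat_lit 442427) (nat_lit 23) (.e (nat_lit 204846) (nat_lit 24) (.e (nat_lit 319497) (nat_lit 10) .nil))))) .nil)) 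
(.lf (nat_lit 164675) (.g (nat_lit 2918) (.e (nat_lit 57464) (nat_lit 23) (.e (nat_lit 516165) (nat_lit 12) (.e (nat_lit 450579) (nat_lit 5) (.e (nat_lit 532526) (nat_lit 8) (.e (nat_lit 327703) (nat_lit 10) (.e (nat_lit 5391) (nat_lit 301) .nil)))))) (.g (nat_lit 6) .nil .nil)))) (.nd (nat_lit 6) 
(.lf (nat_lit 164643) (.g (nat_lit 1831) (.e (nat_lit 57464) (nat_lit 23) (.e (nat_lit 516165) (nat_lit 12) (.e (nat_lit 450579) (nat_lit 5) (.e (nat_lit 532482) (nat_lit 0) (.e (nat_lit 6222) (nat_lit 334) .nil))))) .nil)) 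
(.lf (nat_lit 164707) (.g (nat_lit 2116) (.e (nat_lit 57464) (nat_lit 23) (.e (nat_lit 516165) (nat_lit 12) (.e (nat_lit 450579) (nat_lit 5) (.e (nat_lit 532569) (nat_lit 16) (.e (nat_lit 401414) (nat_lit 0) (.e (nat_lit 7936) (nat_lit 405) .nil)))))) (.g (nat_lit 5) .nil .nil))))) (.nd (nat_lit 5) (.nd (nat_lit 6) 
(.lf (nat_lit 164627) (.g (nat_lit 1291) (.e (nat_lit 57464) (nat_lit 23) (.e (nat_lit 516165) (nat_lit 12) (.e (nat_lit 450574) (nat_lit 1) (.e (nat_lit 499991) (nat_lit 14) (.e (nat_lit 1399) (nat_lit 106) (.e (nat_lit 319511) (nat_lit 10) (.e (nat_lit 5394) (nat_lit 301) .nil))))))) (.g (nat_lit 4) .nil .nil))) 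
(.lf (nat_lit 164691) (.g (nat_lit 1099) (.e (nat_lit 57464) (nat_lit 23) (.e (nat_lit 516165) (nat_lit 12) (.e (nat_lit 450579) (nat_lit 5) (.e (nat_lit 532534) (nat_lit 9) .nil)))) .nil))) (.nd (nat_lit 6) 
(.lf (nat_lit 164659) (.g (nat_lit 2330) (.e (nat_lit 57464) (nat_lit 23) (.e (nat_lit 516165) (nat_lit 12) (.e (nat_lit 450579) (nat_lit 5) (.e (nat_lit 532522) (nat_lit 7) (.e (nat_lit 319497) (nat_lit 10) .nil))))) .nil)) 
(.lf (nat_lit 164723) (.g (nat_lit 1370) (.e (nat_lit 57464) (nat_lit 23) (.e (nat_lit 516165) (nat_lit 12) (.e (nat_lit 450586) (nat_lit 10) (.e (nat_lit 573451) (nat_lit 9) .nil)))) .nil))))) (.nd (nat_lit 4) (.nd (nat_lit 5) (.nd (nat_lit 6) 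
(.lf (nat_lit 164619) (.g (nat_lit 1622) (.e (nat_lit 57464) (nat_lit 23) (.e (nat_lit 516163) (nat_lit 11) (.e (nat_lit 442427) (nat_lit 23) (.e (nat_lit 204848) (nat_lit 25) (.e (nat_lit 327705) (nat_lit 10) .nil))))) .nil)) 
(.lf (nat_lit 164683) (.g (nat_lit 2050) (.e (nat_lit 57464) (nat_lit 23) (.e (nat_lit 516165) (nat_lit 12) (.e (nat_lit 450579) (nat_lit 5) (.e (nat_lit 532530) (nat_lit 9) (.e (nat_lit 336258) (nat_lit 15) (.e (nat_lit 3588) (nat_lit 224) (.e (nat_lit 753703) (nat_lit 16) .nil))))))) (.g (nat_lit 4) .nil .nil)))) (.nd (nat_lit 6) 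
(.lf (nat_lit 164651) (.g (nat_lit 1128) (.e (nat_lit 57464) (nat_lit 23) (.e (nat_lit 516165) (nat_lit 12) (.e (nat_lit 450579) (nat_lit 5) (.e (nat_lit 532488) (nat_lit 0) .nil)))) .nil)) 
(.lf (nat_lit 164715) (.g (nat_lit 443) (.e (nat_lit 57464) (nat_lit 23) (.e (nat_lit 516165) (nat_lit 12) (.e (nat_lit 450581) (nat_lit 5) .nil))) .nil)))) (.nd (nat_lit 5) (.nd (nat_lit 6) 
(.lf (nat_lit 164635) (.g (nat_lit 1340) (.e (nat_lit 57464) (nat_lit 23) (.e (nat_lit 516165) (nat_lit 12) (.e (nat_lit 450579) (nat_lit 5) (.e (nat_lit 532481) (nat_lit 0) .nil)))) .nil)) 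
(.lf (nat_lit 164699) (.g (nat_lit 1963) (.e (nat_lit 57464) (nat_lit 23) (.e (nat_lit 516165) (nat_lit 12) (.e (nat_lit 450579) (nat_lit 5) (.e (nat_lit 532553) (nat_lit 13) (.e (nat_lit 368664) (nat_lit 18) .nil))))) .nil))) (.nd (nat_lit 6) 
(.lf (nat_lit 164667) (.g (nat_lit 3094) (.e (nat_lit 57464) (nat_lit 23) (.e (nat_lit 516165) (nat_lit 12) (.e (nat_lit 450579) (nat_lit 5) (.e (nat_lit 532523) (nat_lit 7) (.e (nat_lit 319504) (nat_lit 10) (.e (nat_lit 7936) (nat_lit 301) .nil)))))) (.g (nat_lit 5) .nil .nil))) 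
(.lf (nat_lit 164731) (.g (nat_lit 2185) (.e (nat_lit 57464) (nat_lit 23) (.e (nat_lit 516165) (nat_lit 12) (.e (nat_lit 450586) (nat_lit 10) (.e (nat_lit 573452) (nat_lit 9) (.e (nat_lit 13) (nat_lit 0) (.e (nat_lit 7082) (nat_lit 378) (.e (nat_lit 57896) (nat_lit 273) .nil))))))) (.g (nat_lit 0) .nil .nil))))))) (.nd (nat_lit 3) (.nd (nat_lit 4) (.nd (nat_lit 5) (.nd (nat_lit 6) 
(.lf (nat_lit 164615) (.g (nat_lit 3359) (.e (nat_lit 57464) (nat_lit 23) (.e (nat_lit 516163) (nat_lit 11) (.e (nat_lit 442427) (nat_lit 23) (.e (nat_lit 204846) (nat_lit 24) (.e (nat_lit 319511) (nat_lit 10) (.e (nat_lit 5394) (nat_lit 301) .nil)))))) (.g (nat_lit 5) .nil .nil))) 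
(.lf (nat_lit 164679) (.g (nat_lit 1099) (.e (nat_lit 57464) (nat_lit 23) (.e (nat_lit 516165) (nat_lit 12) (.e (nat_lit 450579) (nat_lit 5) (.e (nat_lit 532530) (nat_lit 9) .nil)))) .nil))) (.nd (nat_lit 6) 
(.lf (nat_lit 164647) (.g (nat_lit 1706) (.e (nat_lit 57464) (nat_lit 23) (.e (nat_lit 516165) (nat_lit 12) (.e (nat_lit 450579) (nat_lit 5) (.e (nat_lit 532484) (nat_lit 0) (.e (nat_lit 6200) (nat_lit 332) (.e (nat_lit 1008) (nat_lit 81) (.e (nat_lit 5395) (nat_lit 301) .nil))))))) (.g (nat_lit 4) .nil .nil))) 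
(.lf (nat_lit 164711) (.g (nat_lit 3279) (.e (nat_lit 57464) (nat_lit 23) (.e (nat_lit 516165) (nat_lit 12) (.e (nat_lit 450580) (nat_lit 5) (.e (nat_lit 532523) (nat_lit 7) (.e (nat_lit 319504) (nat_lit 10) (.e (nat_lit 5396) (nat_lit 301) .nil)))))) (.g (nat_lit 5) .nil .nil))))) (.nd (nat_lit 5) (.nd (nat_lit 6) 
(.lf (nat_lit 164631) (.g (nat_lit 835) (.e (nat_lit 57464) (nat_lit 23) (.e (nat_lit 516165) (nat_lit 12) (.e (nat_lit 450576) (nat_lit 2) (.e (nat_lit 507942) (nat_lit 15) .nil)))) .nil)) 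
(.lf (nat_lit 164695) (.g (nat_lit 1913) (.e (nat_lit 57464) (nat_lit 23) (.e (nat_lit 516165) (nat_lit 12) (.e (nat_lit 450579) (nat_lit 5) (.e (nat_lit 532534) (nat_lit 9) (.e (nat_lit 336257) (nat_lit 15) (.e (nat_lit 3585) (nat_lit 224) (.e (nat_lit 753703) (nat_lit 16) .nil))))))) (.g (nat_lit 4) .nil .nil)))) (.nd (nat_lit 6) 
(.lf (nat_lit 164663) (.g (nat_lit 3161) (.e (nat_lit 57464) (nat_lit 23) (.e (nat_lit 516165) (nat_lit 12) (.e (nat_lit 450579) (nat_lit 5) (.e (nat_lit 532523) (nat_lit 7) (.e (nat_lit 319500) (nat_lit 10) .nil))))) .nil)) 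
(.lf (nat_lit 164727) (.g (nat_lit 2977) (.e (nat_lit 57464) (nat_lit 23) (.e (nat_lit 516165) (nat_lit 12) (.e (nat_lit 450586) (nat_lit 10) (.e (nat_lit 573451) (nat_lit 9) (.e (nat_lit 365) (nat_lit 31) .nil))))) .nil))))) (.nd (nat_lit 4) (.nd (nat_lit 5) (.nd (nat_lit 6) 
(.lf (nat_lit 164623) (.g (nat_lit 428) (.e (nat_lit 57464) (nat_lit 23) (.e (nat_lit 516163) (nat_lit 11) (.e (nat_lit 442433) (nat_lit 25) .nil))) .nil)) 
(.lf (nat_lit 164687) (.g (nat_lit 2277) (.e (nat_lit 57464) (nat_lit 23) (.e (nat_lit 516165) (nat_lit 12) (.e (nat_lit 450579) (nat_lit 5) (.e (nat_lit 532530) (nat_lit 9) (.e (nat_lit 336259) (nat_lit 15) (.e (nat_lit 3588) (nat_lit 224) (.e (nat_lit 753703) (nat_lit 16) .nil))))))) (.g (nat_lit 4) .nil .nil)))) (.nd (nat_lit 6) 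
(.lf (nat_lit 164655) (.g (nat_lit 1911) (.e (nat_lit 57464) (nat_lit 23) (.e (nat_lit 516165) (nat_lit 12) (.e (nat_lit 450579) (nat_lit 5) (.e (nat_lit 532501) (nat_lit 1) (.e (nat_lit 57776) (nat_lit 233) .nil))))) .nil)) 
(.lf (nat_lit 164719) (.g (nat_lit 864) (.e (nat_lit 57464) (nat_lit 23) (.e (nat_lit 516165) (nat_lit 12) (.e (nat_lit 458496) (nat_lit 7) (.e (nat_lit 548914) (nat_lit 19) (.e (nat_lit 188160) (nat_lit 35) .nil))))) (.g (nat_lit 4) .nil .nil))))) (.nd (nat_lit 5) (.nd (nat_lit 6) 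
(.lf (nat_lit 164639) (.g (nat_lit 2340) (.e (nat_lit 57464) (nat_lit 23) (.e (nat_lit 516165) (nat_lit 12) (.e (nat_lit 450579) (nat_lit 5) (.e (nat_lit 532481) (nat_lit 0) (.e (nat_lit 6222) (nat_lit 334) (.e (nat_lit 123212) (nat_lit 273) .nil)))))) (.g (nat_lit 4) .nil .nil))) 
(.lf (nat_lit 164703) (.g (nat_lit 2417) (.e (nat_lit 57464) (nat_lit 23) (.e (nat_lit 516165) (nat_lit 12) (.e (nat_lit 450579) (nat_lit 5) (.e (nat_lit 532555) (nat_lit 13) (.e (nat_lit 368689) (nat_lit 34) (.e (nat_lit 622611) (nat_lit 8) .nil)))))) (.g (nat_lit 6) .nil .nil)))) (.nd (nat_lit 6) 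
(.lf (nat_lit 164671) (.g (nat_lit 2892) (.e (nat_lit 57464) (nat_lit 23) (.e (nat_lit 516165) (nat_lit 12) (.e (nat_lit 450579) (nat_lit 5) (.e (nat_lit 532523) (nat_lit 7) (.e (nat_lit 327424) (nat_lit 10) .nil))))) .nil)) 
(.lf (nat_lit 164735) (.g (nat_lit 1742) (.e (nat_lit 57464) (nat_lit 23) (.e (nat_lit 516165) (nat_lit 12) (.e (nat_lit 450586) (nat_lit 10) (.e (nat_lit 573452) (nat_lit 9) (.e (nat_lit 61) (nat_lit 0) (.e (nat_lit 7086) (nat_lit 379) (.e (nat_lit 123212) (nat_lit 273) .nil))))))) (.g (nat_lit 4) .nil .nil))))))))))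

noncomputable def tv2210 : DT := (.nd (nat_lit 0) (.nd (nat_lit 1) (.nd (nat_lit 2) (.nd (nat_lit 3) (.nd (nat_lit 4) (.nd (nat_lit 5) 
(.lf (nat_lit 164736) (.g (nat_lit 1555) (.e (nat_lit 57464) (nat_lit 23) (.e (nat_lit 516165) (nat_lit 12) (.e (nat_lit 450586) (nat_lit 10) (.e (nat_lit 573452) (nat_lit 9) (.e (nat_lit 7936) (nat_lit 30) .nil))))) .nil)) 
(.lf (nat_lit 164768) (.g (nat_lit 4138) (.e (nat_lit 57464) (nat_lit 23) (.e (nat_lit 516165) (nat_lit 12) (.e (nat_lit 450588) (nat_lit 10) (.e (nat_lit 573451) (nat_lit 9) (.e (nat_lit 365) (nat_lit 31) .nil))))) .nil))) (.nd (nat_lit 5) 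
(.lf (nat_lit 164752) (.g (nat_lit 2067) (.e (nat_lit 57464) (nat_lit 23) (.e (nat_lit 516165) (nat_lit 12) (.e (nat_lit 450586) (nat_lit 10) (.e (nat_lit 573457) (nat_lit 9) (.e (nat_lit 365) (nat_lit 31) (.e (nat_lit 417793) (nat_lit 0) (.e (nat_lit 5395) (nat_lit 301) .nil))))))) (.g (nat_lit 0) .nil .nil))) 
(.lf (nat_lit 164784) (.g (nat_lit 2732) (.e (nat_lit 57464) (nat_lit 23) (.e (nat_lit 516165) (nat_lit 12) (.e (nat_lit 450588) (nat_lit 10) (.e (nat_lit 573452) (nat_lit 9) (.e (nat_lit 7936) (nat_lit 33) .nil))))) .nil)))) (.nd (nat_lit 4) (.nd (nat_lit 5) 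
(.lf (nat_lit 164744) (.g (nat_lit 1971) (.e (nat_lit 57464) (nat_lit 23) (.e (nat_lit 516165) (nat_lit 12) (.e (nat_lit 450586) (nat_lit 10) (.e (nat_lit 573456) (nat_lit 9) (.e (nat_lit 428) (nat_lit 32) (.e (nat_lit 425990) (nat_lit 0) (.e (nat_lit 7582) (nat_lit 405) .nil))))))) (.g (nat_lit 4) .nil .nil))) 
(.lf (nat_lit 164776) (.g (nat_lit 2927) (.e (nat_lit 57464) (nat_lit 23) (.e (nat_lit 516165) (nat_lit 12) (.e (nat_lit 450588) (nat_lit 10) (.e (nat_lit 573452) (nat_lit 9) (.e (nat_lit 61) (nat_lit 0) .nil))))) .nil))) (.nd (nat_lit 5) 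
(.lf (nat_lit 164760) (.g (nat_lit 1190) (.e (nat_lit 57464) (nat_lit 23) (.e (nat_lit 516165) (nat_lit 12) (.e (nat_lit 450587) (nat_lit 10) (.e (nat_lit 573457) (nat_lit 9) .nil)))) .nil)) 
(.lf (nat_lit 164792) (.g (nat_lit 3478) (.e (nat_lit 57464) (nat_lit 23) (.e (nat_lit 516165) (nat_lit 12) (.e (nat_lit 450588) (nat_lit 10) (.e (nat_lit 573471) (nat_lit 11) (.e (nat_lit 16385) (nat_lit 0) .nil))))) .nil))))) (.nd (nat_lit 3) (.nd (nat_lit 4) (.nd (nat_lit 5) 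
(.lf (nat_lit 164740) (.g (nat_lit 1725) (.e (nat_lit 57464) (nat_lit 23) (.e (nat_lit 516165) (nat_lit 12) (.e (nat_lit 450586) (nat_lit 10) (.e (nat_lit 573456) (nat_lit 9) (.e (nat_lit 7936) (nat_lit 30) (.e (nat_lit 409604) (nat_lit 0) (.e (nat_lit 5394) (nat_lit 301) .nil))))))) (.g (nat_lit 4) .nil .nil))) 
(.lf (nat_lit 164772) (.g (nat_lit 2756) (.e (nat_lit 57464) (nat_lit 23) (.e (nat_lit 516165) (nat_lit 12) (.e (nat_lit 450588) (nat_lit 10) (.e (nat_lit 573452) (nat_lit 9) (.e (nat_lit 16) (nat_lit 0) (.e (nat_lit 7086) (nat_lit 379) (.e (nat_lit 123212) (nat_lit 273) .nil))))))) (.g (nat_lit 4) .nil .nil)))) (.nd (nat_lit 5) 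
(.lf (nat_lit 164756) (.g (nat_lit 1780) (.e (nat_lit 57464) (nat_lit 23) (.e (nat_lit 516165) (nat_lit 12) (.e (nat_lit 450586) (nat_lit 10) (.e (nat_lit 573470) (nat_lit 11) (.e (nat_lit 16386) (nat_lit 0) .nil))))) .nil)) 
(.lf (nat_lit 164788) (.g (nat_lit 1719) (.e (nat_lit 57464) (nat_lit 23) (.e (nat_lit 516165) (nat_lit 12) (.e (nat_lit 450588) (nat_lit 10) (.e (nat_lit 573470) (nat_lit 11) .nil)))) .nil)))) (.nd (nat_lit 4) (.nd (nat_lit 5) 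
(.lf (nat_lit 164748) (.g (nat_lit 2046) (.e (nat_lit 57464) (nat_lit 23) (.e (nat_lit 516165) (nat_lit 12) (.e (nat_lit 450586) (nat_lit 10) (.e (nat_lit 573457) (nat_lit 9) (.e (nat_lit 13) (nat_lit 0) (.e (nat_lit 7082) (nat_lit 378) (.e (nat_lit 57896) (nat_lit 273) .nil))))))) (.g (nat_lit 0) .nil .nil))) 
(.lf (nat_lit 164780) (.g (nat_lit 2916) (.e (nat_lit 57464) (nat_lit 23) (.e (nat_lit 516165) (nat_lit 12) (.e (nat_lit 450588) (nat_lit 10) (.e (nat_lit 573452) (nat_lit 9) (.e (nat_lit 365) (nat_lit 31) (.e (nat_lit 417796) (nat_lit 0) (.e (nat_lit 5395) (nat_lit 301) .nil))))))) (.g (nat_lit 4) .nil .nil)))) (.nd (nat_lit 5) 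
(.lf (nat_lit 164764) (.g (nat_lit 2901) (.e (nat_lit 57464) (nat_lit 23) (.e (nat_lit 516165) (nat_lit 12) (.e (nat_lit 450588) (nat_lit 10) (.e (nat_lit 573450) (nat_lit 9) (.e (nat_lit 442) (nat_lit 33) .nil))))) .nil)) 
(.lf (nat_lit 164796) (.g (nat_lit 1598) (.e (nat_lit 57464) (nat_lit 23) (.e (nat_lit 516166) (nat_lit 12) (.e (nat_lit 450562) (nat_lit 0) (.e (nat_lit 4284) (nat_lit 253) .nil)))) .nil)))))) (.nd (nat_lit 2) (.nd (nat_lit 3) (.nd (nat_lit 4) (.nd (nat_lit 5) 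
(.lf (nat_lit 164738) (.g (nat_lit 2429) (.e (nat_lit 57464) (nat_lit 23) (.e (nat_lit 516165) (nat_lit 12) (.e (nat_lit 450586) (nat_lit 10) (.e (nat_lit 573452) (nat_lit 9) (.e (nat_lit 365) (nat_lit 31) (.e (nat_lit 417795) (nat_lit 0) (.e (nat_lit 5395) (nat_lit 301) .nil))))))) (.g (nat_lit 0) .nil .nil))) 
(.lf (nat_lit 164770) (.g (nat_lit 2785) (.e (nat_lit 57464) (nat_lit 23) (.e (nat_lit 516165) (nat_lit 12) (.e (nat_lit 450588) (nat_lit 10) (.e (nat_lit 573452) (nat_lit 9) (.e (nat_lit 11) (nat_lit 0) .nil))))) .nil))) (.nd (nat_lit 5) 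
(.lf (nat_lit 164754) (.g (nat_lit 2137) (.e (nat_lit 57464) (nat_lit 23) (.e (nat_lit 516165) (nat_lit 12) (.e (nat_lit 450586) (nat_lit 10) (.e (nat_lit 573469) (nat_lit 11) (.e (nat_lit 16387) (nat_lit 0) .nil))))) .nil)) 
(.lf (nat_lit 164786) (.g (nat_lit 2242) (.e (nat_lit 57464) (nat_lit 23) (.e (nat_lit 516165) (nat_lit 12) (.e (nat_lit 450588) (nat_lit 10) (.e (nat_lit 573457) (nat_lit 9) .nil)))) .nil)))) (.nd (nat_lit 4) (.nd (nat_lit 5) 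
(.lf (nat_lit 164746) (.g (nat_lit 1200) (.e (nat_lit 57464) (nat_lit 23) (.e (nat_lit 516165) (nat_lit 12) (.e (nat_lit 450586) (nat_lit 10) (.e (nat_lit 573457) (nat_lit 9) .nil)))) .nil)) 
(.lf (nat_lit 164778) (.g (nat_lit 2649) (.e (nat_lit 57464) (nat_lit 23) (.e (nat_lit 516165) (nat_lit 12) (.e (nat_lit 450588) (nat_lit 10) (.e (nat_lit 573452) (nat_lit 9) (.e (nat_lit 365) (nat_lit 31) .nil))))) .nil))) (.nd (nat_lit 5) 
(.lf (nat_lit 164762) (.g (nat_lit 2493) (.e (nat_lit 57464) (nat_lit 23) (.e (nat_lit 516165) (nat_lit 12) (.e (nat_lit 450588) (nat_lit 10) (.e (nat_lit 573449) (nat_lit 9) .nil)))) .nil)) 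
(.lf (nat_lit 164794) (.g (nat_lit 3402) (.e (nat_lit 57464) (nat_lit 23) (.e (nat_lit 516165) (nat_lit 12) (.e (nat_lit 450588) (nat_lit 10) (.e (nat_lit 573471) (nat_lit 11) (.e (nat_lit 16396) (nat_lit 0) .nil))))) .nil))))) (.nd (nat_lit 3) (.nd (nat_lit 4) (.nd (nat_lit 5) 
(.lf (nat_lit 164742) (.g (nat_lit 2027) (.e (nat_lit 57464) (nat_lit 23) (.e (nat_lit 516165) (nat_lit 12) (.e (nat_lit 450586) (nat_lit 10) (.e (nat_lit 573456) (nat_lit 9) (.e (nat_lit 428) (nat_lit 32) (.e (nat_lit 425987) (nat_lit 0) (.e (nat_lit 7582) (nat_lit 405) .nil))))))) (.g (nat_lit 4) .nil .nil))) 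
(.lf (nat_lit 164774) (.g (nat_lit 2807) (.e (nat_lit 57464) (nat_lit 23) (.e (nat_lit 516165) (nat_lit 12) (.e (nat_lit 450588) (nat_lit 10) (.e (nat_lit 573452) (nat_lit 9) (.e (nat_lit 16) (nat_lit 0) (.e (nat_lit 7088) (nat_lit 379) (.e (nat_lit 123212) (nat_lit 273) .nil))))))) (.g (nat_lit 4) .nil .nil)))) (.nd (nat_lit 5) 
(.lf (nat_lit 164758) (.g (nat_lit 435) (.e (nat_lit 57464) (nat_lit 23) (.e (nat_lit 516165) (nat_lit 12) (.e (nat_lit 450587) (nat_lit 10) .nil))) .nil)) 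
(.lf (nat_lit 164790) (.g (nat_lit 3108) (.e (nat_lit 57464) (nat_lit 23) (.e (nat_lit 516165) (nat_lit 12) (.e (nat_lit 450588) (nat_lit 10) (.e (nat_lit 573470) (nat_lit 11) (.e (nat_lit 16386) (nat_lit 0) .nil))))) .nil)))) (.nd (nat_lit 4) (.nd (nat_lit 5) 
(.lf (nat_lit 164750) (.g (nat_lit 2251) (.e (nat_lit 57464) (nat_lit 23) (.e (nat_lit 516165) (nat_lit 12) (.e (nat_lit 450586) (nat_lit 10) (.e (nat_lit 573457) (nat_lit 9) (.e (nat_lit 16) (nat_lit 0) (.e (nat_lit 7088) (nat_lit 379) (.e (nat_lit 123212) (nat_lit 273) .nil))))))) (.g (nat_lit 0) .nil .nil))) 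
(.lf (nat_lit 164782) (.g (nat_lit 2739) (.e (nat_lit 57464) (nat_lit 23) (.e (nat_lit 516165) (nat_lit 12) (.e (nat_lit 450588) (nat_lit 10) (.e (nat_lit 573452) (nat_lit 9) (.e (nat_lit 428) (nat_lit 32) (.e (nat_lit 425984) (nat_lit 0) (.e (nat_lit 7580) (nat_lit 405) .nil))))))) (.g (nat_lit 4) .nil .nil)))) (.nd (nat_lit 5) 
(.lf (nat_lit 164766) (.g (nat_lit 2814) (.e (nat_lit 57464) (nat_lit 23) (.e (nat_lit 516165) (nat_lit 12) (.e (nat_lit 450588) (nat_lit 10) (.e (nat_lit 573451) (nat_lit 9) .nil)))) .nil)) 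
(.lf (nat_lit 164798) (.g (nat_lit 2443) (.e (nat_lit 57464) (nat_lit 23) (.e (nat_lit 516166) (nat_lit 12) (.e (nat_lit 450562) (nat_lit 0) (.e (nat_lit 4284) (nat_lit 253) (.e (nat_lit 65280) (nat_lit 61) (.e (nat_lit 7088) (nat_lit 379) (.e (nat_lit 123212) (nat_lit 273) .nil))))))) (.g (nat_lit 4) .nil .nil)))))))) 
(.nd (nat_lit 1) (.nd (nat_lit 2) (.nd (nat_lit 3) (.nd (nat_lit 4) (.nd (nat_lit 5) 
(.lf (nat_lit 164737) (.g (nat_lit 2260) (.e (nat_lit 57464) (nat_lit 23) (.e (nat_lit 516165) (nat_lit 12) (.e (nat_lit 450586) (nat_lit 10) (.e (nat_lit 573452) (nat_lit 9) (.e (nat_lit 365) (nat_lit 31) (.e (nat_lit 417793) (nat_lit 0) (.e (nat_lit 5395) (nat_lit 301) .nil))))))) (.g (nat_lit 0) .nil .nil))) 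
(.lf (nat_lit 164769) (.g (nat_lit 1884) (.e (nat_lit 57464) (nat_lit 23) (.e (nat_lit 516165) (nat_lit 12) (.e (nat_lit 450588) (nat_lit 10) (.e (nat_lit 573452) (nat_lit 9) .nil)))) .nil))) (.nd (nat_lit 5) 
(.lf (nat_lit 164753) (.g (nat_lit 2238) (.e (nat_lit 57464) (nat_lit 23) (.e (nat_lit 516165) (nat_lit 12) (.e (nat_lit 450586) (nat_lit 10) (.e (nat_lit 573457) (nat_lit 9) (.e (nat_lit 365) (nat_lit 31) (.e (nat_lit 417795) (nat_lit 0) (.e (nat_lit 5395) (nat_lit 301) .nil))))))) (.g (nat_lit 0) .nil .nil))) 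
(.lf (nat_lit 164785) (.g (nat_lit 2732) (.e (nat_lit 57464) (nat_lit 23) (.e (nat_lit 516165) (nat_lit 12) (.e (nat_lit 450588) (nat_lit 10) (.e (nat_lit 573452) (nat_lit 9) (.e (nat_lit 7936) (nat_lit 36) .nil))))) .nil)))) (.nd (nat_lit 4) (.nd (nat_lit 5) 
(.lf (nat_lit 164745) (.g (nat_lit 1617) (.e (nat_lit 57464) (nat_lit 23) (.e (nat_lit 516165) (nat_lit 12) (.e (nat_lit 450586) (nat_lit 10) (.e (nat_lit 573456) (nat_lit 9) (.e (nat_lit 7936) (nat_lit 36) .nil))))) .nil)) 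
(.lf (nat_lit 164777) (.g (nat_lit 2732) (.e (nat_lit 57464) (nat_lit 23) (.e (nat_lit 516165) (nat_lit 12) (.e (nat_lit 450588) (nat_lit 10) (.e (nat_lit 573452) (nat_lit 9) (.e (nat_lit 7936) (nat_lit 30) .nil))))) .nil))) (.nd (nat_lit 5) 
(.lf (nat_lit 164761) (.g (nat_lit 419) (.e (nat_lit 57464) (nat_lit 23) (.e (nat_lit 516165) (nat_lit 12) (.e (nat_lit 450588) (nat_lit 10) .nil))) .nil)) 
(.lf (nat_lit 164793) (.g (nat_lit 3471) (.e (nat_lit 57464) (nat_lit 23) (.e (nat_lit 516165) (nat_lit 12) (.e (nat_lit 450588) (nat_lit 10) (.e (nat_lit 573471) (nat_lit 11) (.e (nat_lit 16386) (nat_lit 0) .nil))))) .nil))))) (.nd (nat_lit 3) (.nd (nat_lit 4) (.nd (nat_lit 5) 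
(.lf (nat_lit 164741) (.g (nat_lit 1623) (.e (nat_lit 57464) (nat_lit 23) (.e (nat_lit 516165) (nat_lit 12) (.e (nat_lit 450586) (nat_lit 10) (.e (nat_lit 573456) (nat_lit 9) (.e (nat_lit 365) (nat_lit 31) .nil))))) .nil)) 
(.lf (nat_lit 164773) (.g (nat_lit 2785) (.e (nat_lit 57464) (nat_lit 23) (.e (nat_lit 516165) (nat_lit 12) (.e (nat_lit 450588) (nat_lit 10) (.e (nat_lit 573452) (nat_lit 9) (.e (nat_lit 16) (nat_lit 0) (.e (nat_lit 7087) (nat_lit 379) (.e (nat_lit 123212) (nat_lit 273) .nil))))))) (.g (nat_lit 4) .nil .nil)))) (.nd (nat_lit 5) 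
(.lf (nat_lit 164757) (.g (nat_lit 2432) (.e (nat_lit 57464) (nat_lit 23) (.e (nat_lit 516165) (nat_lit 12) (.e (nat_lit 450586) (nat_lit 10) (.e (nat_lit 573471) (nat_lit 11) (.e (nat_lit 16396) (nat_lit 0) (.e (nat_lit 7936) (nat_lit 405) .nil)))))) (.g (nat_lit 5) .nil .nil))) 
(.lf (nat_lit 164789) (.g (nat_lit 2828) (.e (nat_lit 57464) (nat_lit 23) (.e (nat_lit 516165) (nat_lit 12) (.e (nat_lit 450588) (nat_lit 10) (.e (nat_lit 573470) (nat_lit 11) (.e (nat_lit 16385) (nat_lit 0) .nil))))) .nil)))) (.nd (nat_lit 4) (.nd (nat_lit 5) 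
(.lf (nat_lit 164749) (.g (nat_lit 2193) (.e (nat_lit 57464) (nat_lit 23) (.e (nat_lit 516165) (nat_lit 12) (.e (nat_lit 450586) (nat_lit 10) (.e (nat_lit 573457) (nat_lit 9) (.e (nat_lit 16) (nat_lit 0) (.e (nat_lit 7086) (nat_lit 379) (.e (nat_lit 123212) (nat_lit 273) .nil))))))) (.g (nat_lit 0) .nil .nil))) 
(.lf (nat_lit 164781) (.g (nat_lit 2677) (.e (nat_lit 57464) (nat_lit 23) (.e (nat_lit 516165) (nat_lit 12) (.e (nat_lit 450588) (nat_lit 10) (.e (nat_lit 573452) (nat_lit 9) (.e (nat_lit 428) (nat_lit 32) .nil))))) .nil))) (.nd (nat_lit 5) 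
(.lf (nat_lit 164765) (.g (nat_lit 2777) (.e (nat_lit 57464) (nat_lit 23) (.e (nat_lit 516165) (nat_lit 12) (.e (nat_lit 450588) (nat_lit 10) (.e (nat_lit 573450) (nat_lit 9) (.e (nat_lit 473) (nat_lit 36) .nil))))) .nil)) 
(.lf (nat_lit 164797) (.g (nat_lit 2063) (.e (nat_lit 57464) (nat_lit 23) (.e (nat_lit 516166) (nat_lit 12) (.e (nat_lit 450562) (nat_lit 0) (.e (nat_lit 4284) (nat_lit 253) (.e (nat_lit 65280) (nat_lit 61) .nil))))) .nil)))))) (.nd (nat_lit 2) (.nd (nat_lit 3) (.nd (nat_lit 4) (.nd (nat_lit 5) 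
(.lf (nat_lit 164739) (.g (nat_lit 1226) (.e (nat_lit 57464) (nat_lit 23) (.e (nat_lit 516165) (nat_lit 12) (.e (nat_lit 450586) (nat_lit 10) (.e (nat_lit 573456) (nat_lit 9) .nil)))) .nil)) 
(.lf (nat_lit 164771) (.g (nat_lit 2723) (.e (nat_lit 57464) (nat_lit 23) (.e (nat_lit 516165) (nat_lit 12) (.e (nat_lit 450588) (nat_lit 10) (.e (nat_lit 573452) (nat_lit 9) (.e (nat_lit 13) (nat_lit 0) .nil))))) .nil))) (.nd (nat_lit 5) 
(.lf (nat_lit 164755) (.g (nat_lit 1160) (.e (nat_lit 57464) (nat_lit 23) (.e (nat_lit 516165) (nat_lit 12) (.e (nat_lit 450586) (nat_lit 10) (.e (nat_lit 573470) (nat_lit 11) .nil)))) .nil)) 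
(.lf (nat_lit 164787) (.g (nat_lit 3785) (.e (nat_lit 57464) (nat_lit 23) (.e (nat_lit 516165) (nat_lit 12) (.e (nat_lit 450588) (nat_lit 10) (.e (nat_lit 573469) (nat_lit 11) (.e (nat_lit 16388) (nat_lit 0) .nil))))) .nil)))) (.nd (nat_lit 4) (.nd (nat_lit 5) 
(.lf (nat_lit 164747) (.g (nat_lit 2058) (.e (nat_lit 57464) (nat_lit 23) (.e (nat_lit 516165) (nat_lit 12) (.e (nat_lit 450586) (nat_lit 10) (.e (nat_lit 573457) (nat_lit 9) (.e (nat_lit 13) (nat_lit 0) (.e (nat_lit 7081) (nat_lit 378) (.e (nat_lit 57896) (nat_lit 273) .nil))))))) (.g (nat_lit 0) .nil .nil))) 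
(.lf (nat_lit 164779) (.g (nat_lit 2752) (.e (nat_lit 57464) (nat_lit 23) (.e (nat_lit 516165) (nat_lit 12) (.e (nat_lit 450588) (nat_lit 10) (.e (nat_lit 573452) (nat_lit 9) (.e (nat_lit 365) (nat_lit 31) (.e (nat_lit 417795) (nat_lit 0) (.e (nat_lit 5395) (nat_lit 301) .nil))))))) (.g (nat_lit 4) .nil .nil)))) (.nd (nat_lit 5) 
(.lf (nat_lit 164763) (.g (nat_lit 3262) (.e (nat_lit 57464) (nat_lit 23) (.e (nat_lit 516165) (nat_lit 12) (.e (nat_lit 450588) (nat_lit 10) (.e (nat_lit 573450) (nat_lit 9) (.e (nat_lit 433) (nat_lit 32) .nil))))) .nil)) 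
(.lf (nat_lit 164795) (.g (nat_lit 519) (.e (nat_lit 57464) (nat_lit 23) (.e (nat_lit 516166) (nat_lit 12) (.e (nat_lit 450562) (nat_lit 0) .nil))) .nil))))) (.nd (nat_lit 3) (.nd (nat_lit 4) (.nd (nat_lit 5) 
(.lf (nat_lit 164743) (.g (nat_lit 2001) (.e (nat_lit 57464) (nat_lit 23) (.e (nat_lit 516165) (nat_lit 12) (.e (nat_lit 450586) (nat_lit 10) (.e (nat_lit 573456) (nat_lit 9) (.e (nat_lit 428) (nat_lit 32) (.e (nat_lit 425989) (nat_lit 0) (.e (nat_lit 7582) (nat_lit 405) .nil))))))) (.g (nat_lit 4) .nil .nil))) 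
(.lf (nat_lit 164775) (.g (nat_lit 2777) (.e (nat_lit 57464) (nat_lit 23) (.e (nat_lit 516165) (nat_lit 12) (.e (nat_lit 450588) (nat_lit 10) (.e (nat_lit 573452) (nat_lit 9) (.e (nat_lit 16) (nat_lit 0) (.e (nat_lit 7089) (nat_lit 379) (.e (nat_lit 123212) (nat_lit 273) .nil))))))) (.g (nat_lit 4) .nil .nil)))) (.nd (nat_lit 5) 
(.lf (nat_lit 164759) (.g (nat_lit 1140) (.e (nat_lit 57464) (nat_lit 23) (.e (nat_lit 516165) (nat_lit 12) (.e (nat_lit 450587) (nat_lit 10) (.e (nat_lit 573456) (nat_lit 9) .nil)))) .nil)) 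
(.lf (nat_lit 164791) (.g (nat_lit 1685) (.e (nat_lit 57464) (nat_lit 23) (.e (nat_lit 516165) (nat_lit 12) (.e (nat_lit 450588) (nat_lit 10) (.e (nat_lit 573471) (nat_lit 11) .nil)))) .nil)))) (.nd (nat_lit 4) (.nd (nat_lit 5) 
(.lf (nat_lit 164751) (.g (nat_lit 2215) (.e (nat_lit 57464) (nat_lit 23) (.e (nat_lit 516165) (nat_lit 12) (.e (nat_lit 450586) (nat_lit 10) (.e (nat_lit 573457) (nat_lit 9) (.e (nat_lit 16) (nat_lit 0) (.e (nat_lit 7089) (nat_lit 379) (.e (nat_lit 123212) (nat_lit 273) .nil))))))) (.g (nat_lit 0) .nil .nil))) 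
(.lf (nat_lit 164783) (.g (nat_lit 2732) (.e (nat_lit 57464) (nat_lit 23) (.e (nat_lit 516165) (nat_lit 12) (.e (nat_lit 450588) (nat_lit 10) (.e (nat_lit 573452) (nat_lit 9) (.e (nat_lit 7936) (nat_lit 32) .nil))))) .nil))) (.nd (nat_lit 5) 
(.lf (nat_lit 164767) (.g (nat_lit 4181) (.e (nat_lit 57464) (nat_lit 23) (.e (nat_lit 516165) (nat_lit 12) (.e (nat_lit 450588) (nat_lit 10) (.e (nat_lit 573451) (nat_lit 9) (.e (nat_lit 16) (nat_lit 0) .nil))))) .nil)) 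
(.lf (nat_lit 164799) (.g (nat_lit 2523) (.e (nat_lit 57464) (nat_lit 23) (.e (nat_lit 516166) (nat_lit 12) (.e (nat_lit 450562) (nat_lit 0) (.e (nat_lit 4284) (nat_lit 253) (.e (nat_lit 57590) (nat_lit 73) (.e (nat_lit 425989) (nat_lit 0) (.e (nat_lit 7582) (nat_lit 405) .nil))))))) (.g (nat_lit 4) .nil .nil)))))))))

noncomputable def tv2211 : DT := (.nd (nat_lit 0) (.nd (nat_lit 1) (.nd (nat_lit 2) (.nd (nat_lit 3) (.nd (nat_lit 4) (.nd (nat_lit 5) 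
(.lf (nat_lit 164800) (.g (nat_lit 2486) (.e (nat_lit 57464) (nat_lit 23) (.e (nat_lit 516166) (nat_lit 12) (.e (nat_lit 450562) (nat_lit 0) (.e (nat_lit 4284) (nat_lit 253) (.e (nat_lit 65280) (nat_lit 77) (.e (nat_lit 466688) (nat_lit 3) .nil)))))) (.g (nat_lit 4) .nil .nil))) 
(.lf (nat_lit 164832) (.g (nat_lit 1298) (.e (nat_lit 57464) (nat_lit 23) (.e (nat_lit 516166) (nat_lit 12) (.e (nat_lit 450579) (nat_lit 5) (.e (nat_lit 532526) (nat_lit 8) .nil)))) .nil))) (.nd (nat_lit 5) 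
(.lf (nat_lit 164816) (.g (nat_lit 2438) (.e (nat_lit 57464) (nat_lit 23) (.e (nat_lit 516166) (nat_lit 12) (.e (nat_lit 450563) (nat_lit 0) (.e (nat_lit 6420) (nat_lit 341) (.e (nat_lit 163885) (nat_lit 5) (.e (nat_lit 221216) (nat_lit 24) (.e (nat_lit 220928) (nat_lit 3) .nil))))))) (.g (nat_lit 4) .nil .nil))) 
(.lf (nat_lit 164848) (.g (nat_lit 1674) (.e (nat_lit 57464) (nat_lit 23) (.e (nat_lit 516166) (nat_lit 12) (.e (nat_lit 450583) (nat_lit 7) (.e (nat_lit 548914) (nat_lit 19) (.e (nat_lit 188160) (nat_lit 35) .nil))))) (.g (nat_lit 4) .nil .nil))))) (.nd (nat_lit 4) (.nd (nat_lit 5) 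
(.lf (nat_lit 164808) (.g (nat_lit 1793) (.e (nat_lit 57464) (nat_lit 23) (.e (nat_lit 516166) (nat_lit 12) (.e (nat_lit 450563) (nat_lit 0) (.e (nat_lit 6416) (nat_lit 341) (.e (nat_lit 163843) (nat_lit 0) (.e (nat_lit 3774) (nat_lit 229) (.e (nat_lit 794677) (nat_lit 24) (.e (nat_lit 220928) (nat_lit 3) .nil)))))))) (.g (nat_lit 4) .nil .nil))) 
(.lf (nat_lit 164840) (.g (nat_lit 3031) (.e (nat_lit 57464) (nat_lit 23) (.e (nat_lit 516166) (nat_lit 12) (.e (nat_lit 450580) (nat_lit 5) (.e (nat_lit 532523) (nat_lit 7) (.e (nat_lit 319511) (nat_lit 10) (.e (nat_lit 5394) (nat_lit 301) .nil)))))) (.g (nat_lit 5) .nil .nil)))) (.nd (nat_lit 5) 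
(.lf (nat_lit 164824) (.g (nat_lit 1858) (.e (nat_lit 57464) (nat_lit 23) (.e (nat_lit 516166) (nat_lit 12) (.e (nat_lit 450578) (nat_lit 5) (.e (nat_lit 532523) (nat_lit 7) (.e (nat_lit 319504) (nat_lit 10) (.e (nat_lit 5396) (nat_lit 301) .nil)))))) (.g (nat_lit 4) .nil .nil))) 
(.lf (nat_lit 164856) (.g (nat_lit 1919) (.e (nat_lit 57464) (nat_lit 23) (.e (nat_lit 516166) (nat_lit 12) (.e (nat_lit 450587) (nat_lit 10) (.e (nat_lit 573454) (nat_lit 9) (.e (nat_lit 7936) (nat_lit 32) (.e (nat_lit 425987) (nat_lit 0) (.e (nat_lit 7580) (nat_lit 405) .nil))))))) (.g (nat_lit 4) .nil .nil)))))) (.nd (nat_lit 3) (.nd (nat_lit 4) (.nd (nat_lit 5) 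
(.lf (nat_lit 164804) (.g (nat_lit 482) (.e (nat_lit 57464) (nat_lit 23) (.e (nat_lit 516166) (nat_lit 12) (.e (nat_lit 450563) (nat_lit 0) .nil))) .nil)) 
(.lf (nat_lit 164836) (.g (nat_lit 2635) (.e (nat_lit 57464) (nat_lit 23) (.e (nat_lit 516166) (nat_lit 12) (.e (nat_lit 450580) (nat_lit 5) (.e (nat_lit 532523) (nat_lit 7) (.e (nat_lit 319504) (nat_lit 10) (.e (nat_lit 7936) (nat_lit 301) .nil)))))) (.g (nat_lit 5) .nil .nil)))) (.nd (nat_lit 5) 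
(.lf (nat_lit 164820) (.g (nat_lit 425) (.e (nat_lit 57464) (nat_lit 23) (.e (nat_lit 516166) (nat_lit 12) (.e (nat_lit 450576) (nat_lit 2) .nil))) .nil)) 
(.lf (nat_lit 164852) (.g (nat_lit 1883) (.e (nat_lit 57464) (nat_lit 23) (.e (nat_lit 516166) (nat_lit 12) (.e (nat_lit 450587) (nat_lit 10) (.e (nat_lit 573454) (nat_lit 9) (.e (nat_lit 70) (nat_lit 0) .nil))))) .nil)))) (.nd (nat_lit 4) (.nd (nat_lit 5) 
(.lf (nat_lit 164812) (.g (nat_lit 2232) (.e (nat_lit 57464) (nat_lit 23) (.e (nat_lit 516166) (nat_lit 12) (.e (nat_lit 450563) (nat_lit 0) (.e (nat_lit 6420) (nat_lit 341) (.e (nat_lit 163843) (nat_lit 0) .nil))))) .nil)) 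
(.lf (nat_lit 164844) (.g (nat_lit 2093) (.e (nat_lit 57464) (nat_lit 23) (.e (nat_lit 516166) (nat_lit 12) (.e (nat_lit 450581) (nat_lit 5) (.e (nat_lit 532523) (nat_lit 7) (.e (nat_lit 319504) (nat_lit 10) (.e (nat_lit 5395) (nat_lit 301) .nil)))))) (.g (nat_lit 4) .nil .nil)))) (.nd (nat_lit 5) 
(.lf (nat_lit 164828) (.g (nat_lit 1067) (.e (nat_lit 57464) (nat_lit 23) (.e (nat_lit 516166) (nat_lit 12) (.e (nat_lit 450579) (nat_lit 5) (.e (nat_lit 532523) (nat_lit 7) .nil)))) .nil)) 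
(.lf (nat_lit 164860) (.g (nat_lit 1075) (.e (nat_lit 57464) (nat_lit 23) (.e (nat_lit 516166) (nat_lit 12) (.e (nat_lit 450587) (nat_lit 10) (.e (nat_lit 573456) (nat_lit 9) .nil)))) .nil)))))) (.nd (nat_lit 2) (.nd (nat_lit 3) (.nd (nat_lit 4) (.nd (nat_lit 5) 
(.lf (nat_lit 164802) (.g (nat_lit 1065) (.e (nat_lit 57464) (nat_lit 23) (.e (nat_lit 516166) (nat_lit 12) (.e (nat_lit 450562) (nat_lit 0) (.e (nat_lit 6416) (nat_lit 341) .nil)))) .nil)) 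
(.lf (nat_lit 164834) (.g (nat_lit 3491) (.e (nat_lit 57464) (nat_lit 23) (.e (nat_lit 516166) (nat_lit 12) (.e (nat_lit 450580) (nat_lit 5) (.e (nat_lit 532523) (nat_lit 7) (.e (nat_lit 319504) (nat_lit 10) (.e (nat_lit 5395) (nat_lit 301) .nil)))))) (.g (nat_lit 5) .nil .nil)))) (.nd (nat_lit 5) 
(.lf (nat_lit 164818) (.g (nat_lit 1781) (.e (nat_lit 57464) (nat_lit 23) (.e (nat_lit 516166) (nat_lit 12) (.e (nat_lit 450574) (nat_lit 1) (.e (nat_lit 499991) (nat_lit 14) (.e (nat_lit 1399) (nat_lit 106) (.e (nat_lit 319511) (nat_lit 10) (.e (nat_lit 5394) (nat_lit 301) .nil))))))) (.g (nat_lit 6) .nil .nil))) 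
(.lf (nat_lit 164850) (.g (nat_lit 2027) (.e (nat_lit 57464) (nat_lit 23) (.e (nat_lit 516166) (nat_lit 12) (.e (nat_lit 450587) (nat_lit 10) (.e (nat_lit 573448) (nat_lit 9) .nil)))) .nil)))) (.nd (nat_lit 4) (.nd (nat_lit 5) 
(.lf (nat_lit 164810) (.g (nat_lit 1754) (.e (nat_lit 57464) (nat_lit 23) (.e (nat_lit 516166) (nat_lit 12) (.e (nat_lit 450563) (nat_lit 0) (.e (nat_lit 6416) (nat_lit 341) (.e (nat_lit 163878) (nat_lit 4) (.e (nat_lit 213013) (nat_lit 9) (.e (nat_lit 2689) (nat_lit 169) (.e (nat_lit 220928) (nat_lit 3) .nil)))))))) (.g (nat_lit 4) .nil .nil))) 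
(.lf (nat_lit 164842) (.g (nat_lit 2190) (.e (nat_lit 57464) (nat_lit 23) (.e (nat_lit 516166) (nat_lit 12) (.e (nat_lit 450580) (nat_lit 5) (.e (nat_lit 532526) (nat_lit 8) (.e (nat_lit 327705) (nat_lit 10) .nil))))) .nil))) (.nd (nat_lit 5) 
(.lf (nat_lit 164826) (.g (nat_lit 1655) (.e (nat_lit 57464) (nat_lit 23) (.e (nat_lit 516166) (nat_lit 12) (.e (nat_lit 450578) (nat_lit 5) (.e (nat_lit 532523) (nat_lit 7) (.e (nat_lit 319505) (nat_lit 10) (.e (nat_lit 5395) (nat_lit 301) .nil)))))) (.g (nat_lit 4) .nil .nil))) 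
(.lf (nat_lit 164858) (.g (nat_lit 1988) (.e (nat_lit 57464) (nat_lit 23) (.e (nat_lit 516166) (nat_lit 12) (.e (nat_lit 450587) (nat_lit 10) (.e (nat_lit 573454) (nat_lit 9) (.e (nat_lit 470) (nat_lit 36) (.e (nat_lit 466688) (nat_lit 3) .nil)))))) (.g (nat_lit 4) .nil .nil)))))) (.nd (nat_lit 3) (.nd (nat_lit 4) (.nd (nat_lit 5) 
(.lf (nat_lit 164806) (.g (nat_lit 1427) (.e (nat_lit 57464) (nat_lit 23) (.e (nat_lit 516166) (nat_lit 12) (.e (nat_lit 450563) (nat_lit 0) (.e (nat_lit 4288) (nat_lit 254) .nil)))) .nil)) 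
(.lf (nat_lit 164838) (.g (nat_lit 3518) (.e (nat_lit 57464) (nat_lit 23) (.e (nat_lit 516166) (nat_lit 12) (.e (nat_lit 450580) (nat_lit 5) (.e (nat_lit 532523) (nat_lit 7) (.e (nat_lit 319505) (nat_lit 10) (.e (nat_lit 5395) (nat_lit 301) .nil)))))) (.g (nat_lit 5) .nil .nil)))) (.nd (nat_lit 5) 
(.lf (nat_lit 164822) (.g (nat_lit 486) (.e (nat_lit 57464) (nat_lit 23) (.e (nat_lit 516166) (nat_lit 12) (.e (nat_lit 450578) (nat_lit 5) .nil))) .nil)) 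
(.lf (nat_lit 164854) (.g (nat_lit 1864) (.e (nat_lit 57464) (nat_lit 23) (.e (nat_lit 516166) (nat_lit 12) (.e (nat_lit 450587) (nat_lit 10) (.e (nat_lit 573454) (nat_lit 9) (.e (nat_lit 7936) (nat_lit 32) .nil))))) .nil)))) (.nd (nat_lit 4) (.nd (nat_lit 5) 
(.lf (nat_lit 164814) (.g (nat_lit 2116) (.e (nat_lit 57464) (nat_lit 23) (.e (nat_lit 516166) (nat_lit 12) (.e (nat_lit 450563) (nat_lit 0) (.e (nat_lit 6420) (nat_lit 341) (.e (nat_lit 163878) (nat_lit 4) .nil))))) .nil)) 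
(.lf (nat_lit 164846) (.g (nat_lit 1722) (.e (nat_lit 57464) (nat_lit 23) (.e (nat_lit 516166) (nat_lit 12) (.e (nat_lit 450581) (nat_lit 5) (.e (nat_lit 532523) (nat_lit 7) (.e (nat_lit 327424) (nat_lit 10) .nil))))) .nil))) (.nd (nat_lit 5) 
(.lf (nat_lit 164830) (.g (nat_lit 3220) (.e (nat_lit 57464) (nat_lit 23) (.e (nat_lit 516166) (nat_lit 12) (.e (nat_lit 450579) (nat_lit 5) (.e (nat_lit 532523) (nat_lit 7) (.e (nat_lit 319504) (nat_lit 10) (.e (nat_lit 5396) (nat_lit 301) .nil)))))) (.g (nat_lit 5) .nil .nil))) 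
(.lf (nat_lit 164862) (.g (nat_lit 2263) (.e (nat_lit 57464) (nat_lit 23) (.e (nat_lit 516166) (nat_lit 12) (.e (nat_lit 450587) (nat_lit 10) (.e (nat_lit 573456) (nat_lit 9) (.e (nat_lit 428) (nat_lit 32) (.e (nat_lit 425984) (nat_lit 0) (.e (nat_lit 7582) (nat_lit 405) .nil))))))) (.g (nat_lit 4) .nil .nil)))))))) 
(.nd (nat_lit 1) (.nd (nat_lit 2) (.nd (nat_lit 3) (.nd (nat_lit 4) (.nd (nat_lit 5) 
(.lf (nat_lit 164801) (.g (nat_lit 1547) (.e (nat_lit 57464) (nat_lit 23) (.e (nat_lit 516166) (nat_lit 12) (.e (nat_lit 450562) (nat_lit 0) (.e (nat_lit 4290) (nat_lit 254) .nil)))) .nil)) 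
(.lf (nat_lit 164833) (.g (nat_lit 1483) (.e (nat_lit 57464) (nat_lit 23) (.e (nat_lit 516166) (nat_lit 12) (.e (nat_lit 450580) (nat_lit 5) (.e (nat_lit 532486) (nat_lit 0) .nil)))) .nil))) (.nd (nat_lit 5) 
(.lf (nat_lit 164817) (.g (nat_lit 550) (.e (nat_lit 57464) (nat_lit 23) (.e (nat_lit 516166) (nat_lit 12) (.e (nat_lit 450574) (nat_lit 1) .nil))) .nil)) 
(.lf (nat_lit 164849) (.g (nat_lit 529) (.e (nat_lit 57464) (nat_lit 23) (.e (nat_lit 516166) (nat_lit 12) (.e (nat_lit 458496) (nat_lit 7) .nil))) .nil)))) (.nd (nat_lit 4) (.nd (nat_lit 5) 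
(.lf (nat_lit 164809) (.g (nat_lit 1574) (.e (nat_lit 57464) (nat_lit 23) (.e (nat_lit 516166) (nat_lit 12) (.e (nat_lit 450563) (nat_lit 0) (.e (nat_lit 6416) (nat_lit 341) (.e (nat_lit 163878) (nat_lit 4) .nil))))) .nil)) 
(.lf (nat_lit 164841) (.g (nat_lit 1494) (.e (nat_lit 57464) (nat_lit 23) (.e (nat_lit 516166) (nat_lit 12) (.e (nat_lit 450580) (nat_lit 5) (.e (nat_lit 532526) (nat_lit 8) .nil)))) .nil))) (.nd (nat_lit 5) 
(.lf (nat_lit 164825) (.g (nat_lit 1502) (.e (nat_lit 57464) (nat_lit 23) (.e (nat_lit 516166) (nat_lit 12) (.e (nat_lit 450578) (nat_lit 5) (.e (nat_lit 532523) (nat_lit 7) (.e (nat_lit 319505) (nat_lit 10) .nil))))) .nil)) 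
(.lf (nat_lit 164857) (.g (nat_lit 1864) (.e (nat_lit 57464) (nat_lit 23) (.e (nat_lit 516166) (nat_lit 12) (.e (nat_lit 450587) (nat_lit 10) (.e (nat_lit 573454) (nat_lit 9) (.e (nat_lit 7936) (nat_lit 33) .nil))))) .nil))))) (.nd (nat_lit 3) (.nd (nat_lit 4) (.nd (nat_lit 5) 
(.lf (nat_lit 164805) (.g (nat_lit 1294) (.e (nat_lit 57464) (nat_lit 23) (.e (nat_lit 516166) (nat_lit 12) (.e (nat_lit 450563) (nat_lit 0) (.e (nat_lit 3926) (nat_lit 239) .nil)))) .nil)) 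
(.lf (nat_lit 164837) (.g (nat_lit 3465) (.e (nat_lit 57464) (nat_lit 23) (.e (nat_lit 516166) (nat_lit 12) (.e (nat_lit 450580) (nat_lit 5) (.e (nat_lit 532523) (nat_lit 7) (.e (nat_lit 319505) (nat_lit 10) (.e (nat_lit 5389) (nat_lit 301) .nil)))))) (.g (nat_lit 5) .nil .nil)))) (.nd (nat_lit 5) 
(.lf (nat_lit 164821) (.g (nat_lit 3837) (.e (nat_lit 57464) (nat_lit 23) (.e (nat_lit 516166) (nat_lit 12) (.e (nat_lit 458496) (nat_lit 3) (.e (nat_lit 516115) (nat_lit 1) (.e (nat_lit 164325) (nat_lit 230) (.e (nat_lit 163861) (nat_lit 1) (.e (nat_lit 164258) (nat_lit 215) (.e (nat_lit 1172) (nat_lit 87) .nil)))))))) (.g (nat_lit 5) .nil .nil))) 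
(.lf (nat_lit 164853) (.g (nat_lit 1864) (.e (nat_lit 57464) (nat_lit 23) (.e (nat_lit 516166) (nat_lit 12) (.e (nat_lit 450587) (nat_lit 10) (.e (nat_lit 573454) (nat_lit 9) (.e (nat_lit 7936) (nat_lit 30) .nil))))) .nil)))) (.nd (nat_lit 4) (.nd (nat_lit 5) 
(.lf (nat_lit 164813) (.g (nat_lit 4681) (.e (nat_lit 57464) (nat_lit 23) (.e (nat_lit 516166) (nat_lit 12) (.e (nat_lit 450563) (nat_lit 0) (.e (nat_lit 6420) (nat_lit 341) (.e (nat_lit 163843) (nat_lit 0) (.e (nat_lit 3774) (nat_lit 229) (.e (nat_lit 794677) (nat_lit 24) (.e (nat_lit 220928) (nat_lit 3) .nil)))))))) (.g (nat_lit 7) .nil .nil))) 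
(.lf (nat_lit 164845) (.g (nat_lit 2806) (.e (nat_lit 57464) (nat_lit 23) (.e (nat_lit 516166) (nat_lit 12) (.e (nat_lit 450581) (nat_lit 5) (.e (nat_lit 532523) (nat_lit 7) (.e (nat_lit 319511) (nat_lit 10) (.e (nat_lit 5394) (nat_lit 301) .nil)))))) (.g (nat_lit 6) .nil .nil)))) (.nd (nat_lit 5) 
(.lf (nat_lit 164829) (.g (nat_lit 3325) (.e (nat_lit 57464) (nat_lit 23) (.e (nat_lit 516166) (nat_lit 12) (.e (nat_lit 450579) (nat_lit 5) (.e (nat_lit 532523) (nat_lit 7) (.e (nat_lit 319504) (nat_lit 10) (.e (nat_lit 5389) (nat_lit 301) .nil)))))) (.g (nat_lit 5) .nil .nil))) 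
(.lf (nat_lit 164861) (.g (nat_lit 1839) (.e (nat_lit 57464) (nat_lit 23) (.e (nat_lit 516166) (nat_lit 12) (.e (nat_lit 450587) (nat_lit 10) (.e (nat_lit 573456) (nat_lit 9) (.e (nat_lit 7936) (nat_lit 30) (.e (nat_lit 409604) (nat_lit 0) (.e (nat_lit 5394) (nat_lit 301) .nil))))))) (.g (nat_lit 4) .nil .nil))))))) (.nd (nat_lit 2) (.nd (nat_lit 3) (.nd (nat_lit 4) (.nd (nat_lit 5) 
(.lf (nat_lit 164803) (.g (nat_lit 1536) (.e (nat_lit 57464) (nat_lit 23) (.e (nat_lit 516166) (nat_lit 12) (.e (nat_lit 450562) (nat_lit 0) (.e (nat_lit 6416) (nat_lit 341) (.e (nat_lit 163878) (nat_lit 4) .nil))))) .nil)) 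
(.lf (nat_lit 164835) (.g (nat_lit 3971) (.e (nat_lit 57464) (nat_lit 23) (.e (nat_lit 516166) (nat_lit 12) (.e (nat_lit 450580) (nat_lit 5) (.e (nat_lit 532523) (nat_lit 7) (.e (nat_lit 319504) (nat_lit 10) (.e (nat_lit 5396) (nat_lit 301) .nil)))))) (.g (nat_lit 6) .nil .nil)))) (.nd (nat_lit 5) 
(.lf (nat_lit 164819) (.g (nat_lit 529) (.e (nat_lit 57464) (nat_lit 23) (.e (nat_lit 516166) (nat_lit 12) (.e (nat_lit 458496) (nat_lit 1) .nil))) .nil)) 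
(.lf (nat_lit 164851) (.g (nat_lit 950) (.e (nat_lit 57464) (nat_lit 23) (.e (nat_lit 516166) (nat_lit 12) (.e (nat_lit 450587) (nat_lit 10) (.e (nat_lit 573454) (nat_lit 9) .nil)))) .nil)))) (.nd (nat_lit 4) (.nd (nat_lit 5) 
(.lf (nat_lit 164811) (.g (nat_lit 1170) (.e (nat_lit 57464) (nat_lit 23) (.e (nat_lit 516166) (nat_lit 12) (.e (nat_lit 450563) (nat_lit 0) (.e (nat_lit 6420) (nat_lit 341) .nil)))) .nil)) 
(.lf (nat_lit 164843) (.g (nat_lit 757) (.e (nat_lit 57464) (nat_lit 23) (.e (nat_lit 516166) (nat_lit 12) (.e (nat_lit 450581) (nat_lit 5) (.e (nat_lit 532523) (nat_lit 7) .nil)))) .nil))) (.nd (nat_lit 5) 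
(.lf (nat_lit 164827) (.g (nat_lit 504) (.e (nat_lit 57464) (nat_lit 23) (.e (nat_lit 516166) (nat_lit 12) (.e (nat_lit 450579) (nat_lit 5) .nil))) .nil)) 
(.lf (nat_lit 164859) (.g (nat_lit 2373) (.e (nat_lit 57464) (nat_lit 23) (.e (nat_lit 516166) (nat_lit 12) (.e (nat_lit 450587) (nat_lit 10) (.e (nat_lit 573454) (nat_lit 9) (.e (nat_lit 472) (nat_lit 36) (.e (nat_lit 466688) (nat_lit 3) .nil)))))) (.g (nat_lit 5) .nil .nil)))))) (.nd (nat_lit 3) (.nd (nat_lit 4) (.nd (nat_lit 5) 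
(.lf (nat_lit 164807) (.g (nat_lit 1074) (.e (nat_lit 57464) (nat_lit 23) (.e (nat_lit 516166) (nat_lit 12) (.e (nat_lit 450563) (nat_lit 0) (.e (nat_lit 6416) (nat_lit 341) .nil)))) .nil)) 
(.lf (nat_lit 164839) (.g (nat_lit 3412) (.e (nat_lit 57464) (nat_lit 23) (.e (nat_lit 516166) (nat_lit 12) (.e (nat_lit 450580) (nat_lit 5) (.e (nat_lit 532523) (nat_lit 7) (.e (nat_lit 319505) (nat_lit 10) (.e (nat_lit 7936) (nat_lit 301) .nil)))))) (.g (nat_lit 5) .nil .nil)))) (.nd (nat_lit 5) 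
(.lf (nat_lit 164823) (.g (nat_lit 2034) (.e (nat_lit 57464) (nat_lit 23) (.e (nat_lit 516166) (nat_lit 12) (.e (nat_lit 450578) (nat_lit 5) (.e (nat_lit 532523) (nat_lit 7) (.e (nat_lit 319504) (nat_lit 10) (.e (nat_lit 5389) (nat_lit 301) .nil)))))) (.g (nat_lit 4) .nil .nil))) 
(.lf (nat_lit 164855) (.g (nat_lit 1894) (.e (nat_lit 57464) (nat_lit 23) (.e (nat_lit 516166) (nat_lit 12) (.e (nat_lit 450587) (nat_lit 10) (.e (nat_lit 573454) (nat_lit 9) (.e (nat_lit 7936) (nat_lit 32) (.e (nat_lit 425984) (nat_lit 0) (.e (nat_lit 7580) (nat_lit 405) .nil))))))) (.g (nat_lit 4) .nil .nil))))) (.nd (nat_lit 4) (.nd (nat_lit 5) 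
(.lf (nat_lit 164815) (.g (nat_lit 2026) (.e (nat_lit 57464) (nat_lit 23) (.e (nat_lit 516166) (nat_lit 12) (.e (nat_lit 450563) (nat_lit 0) (.e (nat_lit 6420) (nat_lit 341) (.e (nat_lit 163885) (nat_lit 5) .nil))))) .nil)) 
(.lf (nat_lit 164847) (.g (nat_lit 1214) (.e (nat_lit 57464) (nat_lit 23) (.e (nat_lit 516166) (nat_lit 12) (.e (nat_lit 450583) (nat_lit 7) (.e (nat_lit 548894) (nat_lit 14) .nil)))) .nil))) (.nd (nat_lit 5) 
(.lf (nat_lit 164831) (.g (nat_lit 1990) (.e (nat_lit 57464) (nat_lit 23) (.e (nat_lit 516166) (nat_lit 12) (.e (nat_lit 450579) (nat_lit 5) (.e (nat_lit 532523) (nat_lit 7) (.e (nat_lit 319504) (nat_lit 10) (.e (nat_lit 7936) (nat_lit 301) .nil)))))) (.g (nat_lit 4) .nil .nil))) 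
(.lf (nat_lit 164863) (.g (nat_lit 2179) (.e (nat_lit 57464) (nat_lit 23) (.e (nat_lit 516166) (nat_lit 12) (.e (nat_lit 450587) (nat_lit 10) (.e (nat_lit 573456) (nat_lit 9) (.e (nat_lit 428) (nat_lit 32) (.e (nat_lit 425987) (nat_lit 0) (.e (nat_lit 7582) (nat_lit 405) .nil))))))) (.g (nat_lit 4) .nil .nil)))))))))

noncomputable def tv2212 : DT := (.nd (nat_lit 0) (.nd (nat_lit 1) (.nd (nat_lit 2) (.nd (nat_lit 3) (.nd (nat_lit 4) (.nd (nat_lit 5) 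
(.lf (nat_lit 164864) (.g (nat_lit 2156) (.e (nat_lit 57464) (nat_lit 23) (.e (nat_lit 516166) (nat_lit 12) (.e (nat_lit 450587) (nat_lit 10) (.e (nat_lit 573456) (nat_lit 9) (.e (nat_lit 428) (nat_lit 32) (.e (nat_lit 425989) (nat_lit 0) (.e (nat_lit 7582) (nat_lit 405) .nil))))))) (.g (nat_lit 4) .nil .nil))) 
(.lf (nat_lit 164896) (.g (nat_lit 2369) (.e (nat_lit 57464) (nat_lit 23) (.e (nat_lit 516166) (nat_lit 12) (.e (nat_lit 450588) (nat_lit 10) (.e (nat_lit 573452) (nat_lit 9) (.e (nat_lit 61) (nat_lit 0) .nil))))) .nil))) (.nd (nat_lit 5) 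
(.lf (nat_lit 164880) (.g (nat_lit 3063) (.e (nat_lit 57464) (nat_lit 23) (.e (nat_lit 516166) (nat_lit 12) (.e (nat_lit 450588) (nat_lit 10) (.e (nat_lit 573449) (nat_lit 9) (.e (nat_lit 449) (nat_lit 33) .nil))))) .nil)) 
(.lf (nat_lit 164912) (.g (nat_lit 2827) (.e (nat_lit 57464) (nat_lit 23) (.e (nat_lit 516166) (nat_lit 12) (.e (nat_lit 450588) (nat_lit 10) (.e (nat_lit 573457) (nat_lit 9) (.e (nat_lit 13) (nat_lit 0) (.e (nat_lit 7077) (nat_lit 378) (.e (nat_lit 57896) (nat_lit 273) .nil))))))) (.g (nat_lit 5) .nil .nil))))) (.nd (nat_lit 4) (.nd (nat_lit 5) 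
(.lf (nat_lit 164872) (.g (nat_lit 2115) (.e (nat_lit 57464) (nat_lit 23) (.e (nat_lit 516166) (nat_lit 12) (.e (nat_lit 450587) (nat_lit 10) (.e (nat_lit 573457) (nat_lit 9) (.e (nat_lit 428) (nat_lit 32) (.e (nat_lit 425990) (nat_lit 0) (.e (nat_lit 7582) (nat_lit 405) .nil))))))) (.g (nat_lit 0) .nil .nil))) 
(.lf (nat_lit 164904) (.g (nat_lit 2543) (.e (nat_lit 57464) (nat_lit 23) (.e (nat_lit 516166) (nat_lit 12) (.e (nat_lit 450588) (nat_lit 10) (.e (nat_lit 573454) (nat_lit 9) .nil)))) .nil))) (.nd (nat_lit 5) 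
(.lf (nat_lit 164888) (.g (nat_lit 4114) (.e (nat_lit 57464) (nat_lit 23) (.e (nat_lit 516166) (nat_lit 12) (.e (nat_lit 450588) (nat_lit 10) (.e (nat_lit 573451) (nat_lit 9) (.e (nat_lit 16) (nat_lit 0) (.e (nat_lit 7088) (nat_lit 379) (.e (nat_lit 123212) (nat_lit 273) .nil))))))) (.g (nat_lit 5) .nil .nil))) 
(.lf (nat_lit 164920) (.g (nat_lit 3613) (.e (nat_lit 57464) (nat_lit 23) (.e (nat_lit 516166) (nat_lit 12) (.e (nat_lit 450588) (nat_lit 10) (.e (nat_lit 573463) (nat_lit 9) .nil)))) .nil))))) (.nd (nat_lit 3) (.nd (nat_lit 4) (.nd (nat_lit 5) 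
(.lf (nat_lit 164868) (.g (nat_lit 1060) (.e (nat_lit 57464) (nat_lit 23) (.e (nat_lit 516166) (nat_lit 12) (.e (nat_lit 450587) (nat_lit 10) (.e (nat_lit 573457) (nat_lit 9) .nil)))) .nil)) 
(.lf (nat_lit 164900) (.g (nat_lit 2106) (.e (nat_lit 57464) (nat_lit 23) (.e (nat_lit 516166) (nat_lit 12) (.e (nat_lit 450588) (nat_lit 10) (.e (nat_lit 573452) (nat_lit 9) (.e (nat_lit 7936) (nat_lit 30) .nil))))) .nil))) (.nd (nat_lit 5) 
(.lf (nat_lit 164884) (.g (nat_lit 1331) (.e (nat_lit 57464) (nat_lit 23) (.e (nat_lit 516166) (nat_lit 12) (.e (nat_lit 450588) (nat_lit 10) (.e (nat_lit 573450) (nat_lit 9) .nil)))) .nil)) 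
(.lf (nat_lit 164916) (.g (nat_lit 2952) (.e (nat_lit 57464) (nat_lit 23) (.e (nat_lit 516166) (nat_lit 12) (.e (nat_lit 450588) (nat_lit 10) (.e (nat_lit 573457) (nat_lit 9) (.e (nat_lit 16) (nat_lit 0) (.e (nat_lit 7086) (nat_lit 379) (.e (nat_lit 123212) (nat_lit 273) .nil))))))) (.g (nat_lit 5) .nil .nil))))) (.nd (nat_lit 4) (.nd (nat_lit 5) 
(.lf (nat_lit 164876) (.g (nat_lit 3156) (.e (nat_lit 57464) (nat_lit 23) (.e (nat_lit 516166) (nat_lit 12) (.e (nat_lit 450588) (nat_lit 10) (.e (nat_lit 573448) (nat_lit 9) .nil)))) .nil)) 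
(.lf (nat_lit 164908) (.g (nat_lit 3556) (.e (nat_lit 57464) (nat_lit 23) (.e (nat_lit 516166) (nat_lit 12) (.e (nat_lit 450588) (nat_lit 10) (.e (nat_lit 573454) (nat_lit 9) (.e (nat_lit 472) (nat_lit 36) .nil))))) .nil))) (.nd (nat_lit 5) 
(.lf (nat_lit 164892) (.g (nat_lit 3623) (.e (nat_lit 57464) (nat_lit 23) (.e (nat_lit 516166) (nat_lit 12) (.e (nat_lit 450588) (nat_lit 10) (.e (nat_lit 573451) (nat_lit 9) (.e (nat_lit 428) (nat_lit 32) .nil))))) .nil)) 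
(.lf (nat_lit 164924) (.g (nat_lit 3267) (.e (nat_lit 57464) (nat_lit 23) (.e (nat_lit 516166) (nat_lit 12) (.e (nat_lit 450588) (nat_lit 10) (.e (nat_lit 573468) (nat_lit 10) (.e (nat_lit 8497) (nat_lit 182) .nil))))) .nil)))))) (.nd (nat_lit 2) (.nd (nat_lit 3) (.nd (nat_lit 4) (.nd (nat_lit 5) 
(.lf (nat_lit 164866) (.g (nat_lit 2123) (.e (nat_lit 57464) (nat_lit 23) (.e (nat_lit 516166) (nat_lit 12) (.e (nat_lit 450587) (nat_lit 10) (.e (nat_lit 573456) (nat_lit 9) (.e (nat_lit 428) (nat_lit 32) (.e (nat_lit 425990) (nat_lit 0) (.e (nat_lit 7582) (nat_lit 405) .nil))))))) (.g (nat_lit 4) .nil .nil))) 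
(.lf (nat_lit 164898) (.g (nat_lit 2433) (.e (nat_lit 57464) (nat_lit 23) (.e (nat_lit 516166) (nat_lit 12) (.e (nat_lit 450588) (nat_lit 10) (.e (nat_lit 573452) (nat_lit 9) (.e (nat_lit 61) (nat_lit 0) (.e (nat_lit 7089) (nat_lit 379) (.e (nat_lit 123212) (nat_lit 273) .nil))))))) (.g (nat_lit 4) .nil .nil)))) (.nd (nat_lit 5) 
(.lf (nat_lit 164882) (.g (nat_lit 3095) (.e (nat_lit 57464) (nat_lit 23) (.e (nat_lit 516166) (nat_lit 12) (.e (nat_lit 450588) (nat_lit 10) (.e (nat_lit 573449) (nat_lit 9) (.e (nat_lit 471) (nat_lit 36) .nil))))) .nil)) 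
(.lf (nat_lit 164914) (.g (nat_lit 2821) (.e (nat_lit 57464) (nat_lit 23) (.e (nat_lit 516166) (nat_lit 12) (.e (nat_lit 450588) (nat_lit 10) (.e (nat_lit 573457) (nat_lit 9) (.e (nat_lit 13) (nat_lit 0) (.e (nat_lit 7081) (nat_lit 378) (.e (nat_lit 57896) (nat_lit 273) .nil))))))) (.g (nat_lit 5) .nil .nil))))) (.nd (nat_lit 4) (.nd (nat_lit 5) 
(.lf (nat_lit 164874) (.g (nat_lit 2467) (.e (nat_lit 57464) (nat_lit 23) (.e (nat_lit 516166) (nat_lit 12) (.e (nat_lit 450587) (nat_lit 10) (.e (nat_lit 573469) (nat_lit 11) (.e (nat_lit 16387) (nat_lit 0) .nil))))) .nil)) 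
(.lf (nat_lit 164906) (.g (nat_lit 3292) (.e (nat_lit 57464) (nat_lit 23) (.e (nat_lit 516166) (nat_lit 12) (.e (nat_lit 450588) (nat_lit 10) (.e (nat_lit 573454) (nat_lit 9) (.e (nat_lit 7936) (nat_lit 32) .nil))))) .nil))) (.nd (nat_lit 5) 
(.lf (nat_lit 164890) (.g (nat_lit 3859) (.e (nat_lit 57464) (nat_lit 23) (.e (nat_lit 516166) (nat_lit 12) (.e (nat_lit 450588) (nat_lit 10) (.e (nat_lit 573451) (nat_lit 9) (.e (nat_lit 365) (nat_lit 31) .nil))))) .nil)) 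
(.lf (nat_lit 164922) (.g (nat_lit 3717) (.e (nat_lit 57464) (nat_lit 23) (.e (nat_lit 516166) (nat_lit 12) (.e (nat_lit 450588) (nat_lit 10) (.e (nat_lit 573467) (nat_lit 10) (.e (nat_lit 8497) (nat_lit 182) .nil))))) .nil))))) (.nd (nat_lit 3) (.nd (nat_lit 4) (.nd (nat_lit 5) 
(.lf (nat_lit 164870) (.g (nat_lit 2385) (.e (nat_lit 57464) (nat_lit 23) (.e (nat_lit 516166) (nat_lit 12) (.e (nat_lit 450587) (nat_lit 10) (.e (nat_lit 573457) (nat_lit 9) (.e (nat_lit 16) (nat_lit 0) (.e (nat_lit 7089) (nat_lit 379) (.e (nat_lit 123212) (nat_lit 273) .nil))))))) (.g (nat_lit 0) .nil .nil))) 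
(.lf (nat_lit 164902) (.g (nat_lit 2106) (.e (nat_lit 57464) (nat_lit 23) (.e (nat_lit 516166) (nat_lit 12) (.e (nat_lit 450588) (nat_lit 10) (.e (nat_lit 573452) (nat_lit 9) (.e (nat_lit 7936) (nat_lit 32) .nil))))) .nil))) (.nd (nat_lit 5) 
(.lf (nat_lit 164886) (.g (nat_lit 3789) (.e (nat_lit 57464) (nat_lit 23) (.e (nat_lit 516166) (nat_lit 12) (.e (nat_lit 450588) (nat_lit 10) (.e (nat_lit 573451) (nat_lit 9) (.e (nat_lit 11) (nat_lit 0) .nil))))) .nil)) 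
(.lf (nat_lit 164918) (.g (nat_lit 3045) (.e (nat_lit 57464) (nat_lit 23) (.e (nat_lit 516166) (nat_lit 12) (.e (nat_lit 450588) (nat_lit 10) (.e (nat_lit 573458) (nat_lit 9) .nil)))) .nil)))) (.nd (nat_lit 4) (.nd (nat_lit 5) 
(.lf (nat_lit 164878) (.g (nat_lit 2088) (.e (nat_lit 57464) (nat_lit 23) (.e (nat_lit 516166) (nat_lit 12) (.e (nat_lit 450588) (nat_lit 10) (.e (nat_lit 573449) (nat_lit 9) .nil)))) .nil)) 
(.lf (nat_lit 164910) (.g (nat_lit 3607) (.e (nat_lit 57464) (nat_lit 23) (.e (nat_lit 516166) (nat_lit 12) (.e (nat_lit 450588) (nat_lit 10) (.e (nat_lit 573456) (nat_lit 9) .nil)))) .nil))) (.nd (nat_lit 5) 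
(.lf (nat_lit 164894) (.g (nat_lit 3059) (.e (nat_lit 57464) (nat_lit 23) (.e (nat_lit 516166) (nat_lit 12) (.e (nat_lit 450588) (nat_lit 10) (.e (nat_lit 573452) (nat_lit 9) (.e (nat_lit 16) (nat_lit 0) (.e (nat_lit 7086) (nat_lit 379) (.e (nat_lit 123212) (nat_lit 273) .nil))))))) (.g (nat_lit 0) .nil .nil))) 
(.lf (nat_lit 164926) (.g (nat_lit 3513) (.e (nat_lit 57464) (nat_lit 23) (.e (nat_lit 516166) (nat_lit 12) (.e (nat_lit 450588) (nat_lit 10) (.e (nat_lit 573469) (nat_lit 11) (.e (nat_lit 16387) (nat_lit 0) .nil))))) .nil))))))) (.nd (nat_lit 1) (.nd (nat_lit 2) (.nd (nat_lit 3) (.nd (nat_lit 4) (.nd (nat_lit 5) 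
(.lf (nat_lit 164865) (.g (nat_lit 2290) (.e (nat_lit 57464) (nat_lit 23) (.e (nat_lit 516166) (nat_lit 12) (.e (nat_lit 450587) (nat_lit 10) (.e (nat_lit 573456) (nat_lit 9) (.e (nat_lit 428) (nat_lit 32) (.e (nat_lit 425990) (nat_lit 0) (.e (nat_lit 7580) (nat_lit 405) .nil))))))) (.g (nat_lit 4) .nil .nil))) 
(.lf (nat_lit 164897) (.g (nat_lit 2386) (.e (nat_lit 57464) (nat_lit 23) (.e (nat_lit 516166) (nat_lit 12) (.e (nat_lit 450588) (nat_lit 10) (.e (nat_lit 573452) (nat_lit 9) (.e (nat_lit 61) (nat_lit 0) (.e (nat_lit 7087) (nat_lit 379) (.e (nat_lit 123212) (nat_lit 273) .nil))))))) (.g (nat_lit 4) .nil .nil)))) (.nd (nat_lit 5) 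
(.lf (nat_lit 164881) (.g (nat_lit 3059) (.e (nat_lit 57464) (nat_lit 23) (.e (nat_lit 516166) (nat_lit 12) (.e (nat_lit 450588) (nat_lit 10) (.e (nat_lit 573449) (nat_lit 9) (.e (nat_lit 452) (nat_lit 33) .nil))))) .nil)) 
(.lf (nat_lit 164913) (.g (nat_lit 2803) (.e (nat_lit 57464) (nat_lit 23) (.e (nat_lit 516166) (nat_lit 12) (.e (nat_lit 450588) (nat_lit 10) (.e (nat_lit 573457) (nat_lit 9) (.e (nat_lit 13) (nat_lit 0) (.e (nat_lit 7079) (nat_lit 378) (.e (nat_lit 57896) (nat_lit 273) .nil))))))) (.g (nat_lit 5) .nil .nil))))) (.nd (nat_lit 4) (.nd (nat_lit 5) 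
(.lf (nat_lit 164873) (.g (nat_lit 1279) (.e (nat_lit 57464) (nat_lit 23) (.e (nat_lit 516166) (nat_lit 12) (.e (nat_lit 450587) (nat_lit 10) (.e (nat_lit 573457) (nat_lit 9) (.e (nat_lit 7936) (nat_lit 32) .nil))))) .nil)) 
(.lf (nat_lit 164905) (.g (nat_lit 3567) (.e (nat_lit 57464) (nat_lit 23) (.e (nat_lit 516166) (nat_lit 12) (.e (nat_lit 450588) (nat_lit 10) (.e (nat_lit 573454) (nat_lit 9) (.e (nat_lit 419) (nat_lit 32) .nil))))) .nil))) (.nd (nat_lit 5) 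
(.lf (nat_lit 164889) (.g (nat_lit 4108) (.e (nat_lit 57464) (nat_lit 23) (.e (nat_lit 516166) (nat_lit 12) (.e (nat_lit 450588) (nat_lit 10) (.e (nat_lit 573451) (nat_lit 9) (.e (nat_lit 62) (nat_lit 0) .nil))))) .nil)) 
(.lf (nat_lit 164921) (.g (nat_lit 2428) (.e (nat_lit 57464) (nat_lit 23) (.e (nat_lit 516166) (nat_lit 12) (.e (nat_lit 450588) (nat_lit 10) (.e (nat_lit 581376) (nat_lit 9) .nil)))) .nil))))) (.nd (nat_lit 3) (.nd (nat_lit 4) (.nd (nat_lit 5) 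
(.lf (nat_lit 164869) (.g (nat_lit 2366) (.e (nat_lit 57464) (nat_lit 23) (.e (nat_lit 516166) (nat_lit 12) (.e (nat_lit 450587) (nat_lit 10) (.e (nat_lit 573457) (nat_lit 9) (.e (nat_lit 16) (nat_lit 0) (.e (nat_lit 7086) (nat_lit 379) (.e (nat_lit 123212) (nat_lit 273) .nil))))))) (.g (nat_lit 0) .nil .nil))) 
(.lf (nat_lit 164901) (.g (nat_lit 2761) (.e (nat_lit 57464) (nat_lit 23) (.e (nat_lit 516166) (nat_lit 12) (.e (nat_lit 450588) (nat_lit 10) (.e (nat_lit 573452) (nat_lit 9) (.e (nat_lit 428) (nat_lit 32) (.e (nat_lit 425990) (nat_lit 0) (.e (nat_lit 7582) (nat_lit 405) .nil))))))) (.g (nat_lit 0) .nil .nil)))) (.nd (nat_lit 5) 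
(.lf (nat_lit 164885) (.g (nat_lit 2406) (.e (nat_lit 57464) (nat_lit 23) (.e (nat_lit 516166) (nat_lit 12) (.e (nat_lit 450588) (nat_lit 10) (.e (nat_lit 573451) (nat_lit 9) .nil)))) .nil)) 
(.lf (nat_lit 164917) (.g (nat_lit 2978) (.e (nat_lit 57464) (nat_lit 23) (.e (nat_lit 516166) (nat_lit 12) (.e (nat_lit 450588) (nat_lit 10) (.e (nat_lit 573457) (nat_lit 9) (.e (nat_lit 16) (nat_lit 0) (.e (nat_lit 7087) (nat_lit 379) (.e (nat_lit 123212) (nat_lit 273) .nil))))))) (.g (nat_lit 5) .nil .nil))))) (.nd (nat_lit 4) (.nd (nat_lit 5) 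
(.lf (nat_lit 164877) (.g (nat_lit 3407) (.e (nat_lit 57464) (nat_lit 23) (.e (nat_lit 516166) (nat_lit 12) (.e (nat_lit 450588) (nat_lit 10) (.e (nat_lit 573448) (nat_lit 9) (.e (nat_lit 472) (nat_lit 36) .nil))))) .nil)) 
(.lf (nat_lit 164909) (.g (nat_lit 3613) (.e (nat_lit 57464) (nat_lit 23) (.e (nat_lit 516166) (nat_lit 12) (.e (nat_lit 450588) (nat_lit 10) (.e (nat_lit 573455) (nat_lit 9) .nil)))) .nil))) (.nd (nat_lit 5) 
(.lf (nat_lit 164893) (.g (nat_lit 1588) (.e (nat_lit 57464) (nat_lit 23) (.e (nat_lit 516166) (nat_lit 12) (.e (nat_lit 450588) (nat_lit 10) (.e (nat_lit 573452) (nat_lit 9) .nil)))) .nil)) 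
(.lf (nat_lit 164925) (.g (nat_lit 2475) (.e (nat_lit 57464) (nat_lit 23) (.e (nat_lit 516166) (nat_lit 12) (.e (nat_lit 450588) (nat_lit 10) (.e (nat_lit 573469) (nat_lit 11) .nil)))) .nil)))))) (.nd (nat_lit 2) (.nd (nat_lit 3) (.nd (nat_lit 4) (.nd (nat_lit 5) 
(.lf (nat_lit 164867) (.g (nat_lit 1491) (.e (nat_lit 57464) (nat_lit 23) (.e (nat_lit 516166) (nat_lit 12) (.e (nat_lit 450587) (nat_lit 10) (.e (nat_lit 573456) (nat_lit 9) (.e (nat_lit 7936) (nat_lit 32) .nil))))) .nil)) 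
(.lf (nat_lit 164899) (.g (nat_lit 2106) (.e (nat_lit 57464) (nat_lit 23) (.e (nat_lit 516166) (nat_lit 12) (.e (nat_lit 450588) (nat_lit 10) (.e (nat_lit 573452) (nat_lit 9) (.e (nat_lit 7936) (nat_lit 0) .nil))))) .nil))) (.nd (nat_lit 5) 
(.lf (nat_lit 164883) (.g (nat_lit 3061) (.e (nat_lit 57464) (nat_lit 23) (.e (nat_lit 516166) (nat_lit 12) (.e (nat_lit 450588) (nat_lit 10) (.e (nat_lit 573449) (nat_lit 9) (.e (nat_lit 475) (nat_lit 36) .nil))))) .nil)) 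
(.lf (nat_lit 164915) (.g (nat_lit 2812) (.e (nat_lit 57464) (nat_lit 23) (.e (nat_lit 516166) (nat_lit 12) (.e (nat_lit 450588) (nat_lit 10) (.e (nat_lit 573457) (nat_lit 9) (.e (nat_lit 13) (nat_lit 0) (.e (nat_lit 7082) (nat_lit 378) (.e (nat_lit 57896) (nat_lit 273) .nil))))))) (.g (nat_lit 5) .nil .nil))))) (.nd (nat_lit 4) (.nd (nat_lit 5) 
(.lf (nat_lit 164875) (.g (nat_lit 3594) (.e (nat_lit 57464) (nat_lit 23) (.e (nat_lit 516166) (nat_lit 12) (.e (nat_lit 450588) (nat_lit 10) (.e (nat_lit 573441) (nat_lit 0) .nil)))) .nil)) 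
(.lf (nat_lit 164907) (.g (nat_lit 3523) (.e (nat_lit 57464) (nat_lit 23) (.e (nat_lit 516166) (nat_lit 12) (.e (nat_lit 450588) (nat_lit 10) (.e (nat_lit 573454) (nat_lit 9) (.e (nat_lit 441) (nat_lit 33) .nil))))) .nil))) (.nd (nat_lit 5) 
(.lf (nat_lit 164891) (.g (nat_lit 3978) (.e (nat_lit 57464) (nat_lit 23) (.e (nat_lit 516166) (nat_lit 12) (.e (nat_lit 450588) (nat_lit 10) (.e (nat_lit 573451) (nat_lit 9) (.e (nat_lit 365) (nat_lit 31) (.e (nat_lit 417793) (nat_lit 0) (.e (nat_lit 5395) (nat_lit 301) .nil))))))) (.g (nat_lit 4) .nil .nil))) 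
(.lf (nat_lit 164923) (.g (nat_lit 1892) (.e (nat_lit 57464) (nat_lit 23) (.e (nat_lit 516166) (nat_lit 12) (.e (nat_lit 450588) (nat_lit 10) (.e (nat_lit 573468) (nat_lit 10) .nil)))) .nil))))) (.nd (nat_lit 3) (.nd (nat_lit 4) (.nd (nat_lit 5) 
(.lf (nat_lit 164871) (.g (nat_lit 1279) (.e (nat_lit 57464) (nat_lit 23) (.e (nat_lit 516166) (nat_lit 12) (.e (nat_lit 450587) (nat_lit 10) (.e (nat_lit 573457) (nat_lit 9) (.e (nat_lit 7936) (nat_lit 30) .nil))))) .nil)) 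
(.lf (nat_lit 164903) (.g (nat_lit 3188) (.e (nat_lit 57464) (nat_lit 23) (.e (nat_lit 516166) (nat_lit 12) (.e (nat_lit 450588) (nat_lit 10) (.e (nat_lit 573453) (nat_lit 9) .nil)))) .nil))) (.nd (nat_lit 5) 
(.lf (nat_lit 164887) (.g (nat_lit 3658) (.e (nat_lit 57464) (nat_lit 23) (.e (nat_lit 516166) (nat_lit 12) (.e (nat_lit 450588) (nat_lit 10) (.e (nat_lit 573451) (nat_lit 9) (.e (nat_lit 13) (nat_lit 0) .nil))))) .nil)) 
(.lf (nat_lit 164919) (.g (nat_lit 3547) (.e (nat_lit 57464) (nat_lit 23) (.e (nat_lit 516166) (nat_lit 12) (.e (nat_lit 450588) (nat_lit 10) (.e (nat_lit 573459) (nat_lit 9) .nil)))) .nil)))) (.nd (nat_lit 4) (.nd (nat_lit 5) 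
(.lf (nat_lit 164879) (.g (nat_lit 3091) (.e (nat_lit 57464) (nat_lit 23) (.e (nat_lit 516166) (nat_lit 12) (.e (nat_lit 450588) (nat_lit 10) (.e (nat_lit 573449) (nat_lit 9) (.e (nat_lit 433) (nat_lit 32) .nil))))) .nil)) 
(.lf (nat_lit 164911) (.g (nat_lit 1957) (.e (nat_lit 57464) (nat_lit 23) (.e (nat_lit 516166) (nat_lit 12) (.e (nat_lit 450588) (nat_lit 10) (.e (nat_lit 573457) (nat_lit 9) .nil)))) .nil))) (.nd (nat_lit 5) 
(.lf (nat_lit 164895) (.g (nat_lit 3083) (.e (nat_lit 57464) (nat_lit 23) (.e (nat_lit 516166) (nat_lit 12) (.e (nat_lit 450588) (nat_lit 10) (.e (nat_lit 573452) (nat_lit 9) (.e (nat_lit 16) (nat_lit 0) (.e (nat_lit 7089) (nat_lit 379) (.e (nat_lit 123212) (nat_lit 273) .nil))))))) (.g (nat_lit 0) .nil .nil))) 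
(.lf (nat_lit 164927) (.g (nat_lit 1511) (.e (nat_lit 57464) (nat_lit 23) (.e (nat_lit 516166) (nat_lit 12) (.e (nat_lit 450588) (nat_lit 10) (.e (nat_lit 573470) (nat_lit 11) .nil)))) .nil))))))))

noncomputable def tv2213 : DT := (.nd (nat_lit 0) (.nd (nat_lit 1) (.nd (nat_lit 2) (.nd (nat_lit 3) (.nd (nat_lit 4) (.nd (nat_lit 5) 
(.lf (nat_lit 164928) (.g (nat_lit 2734) (.e (nat_lit 57464) (nat_lit 23) (.e (nat_lit 516166) (nat_lit 12) (.e (nat_lit 450588) (nat_lit 10) (.e (nat_lit 573470) (nat_lit 11) (.e (nat_lit 16386) (nat_lit 0) .nil))))) .nil)) 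
(.lf (nat_lit 164960) (.g (nat_lit 1758) (.e (nat_lit 57464) (nat_lit 23) (.e (nat_lit 516174) (nat_lit 14) (.e (nat_lit 466954) (nat_lit 11) (.e (nat_lit 336387) (nat_lit 27) .nil)))) .nil))) (.nd (nat_lit 5) 
(.lf (nat_lit 164944) (.g (nat_lit 2953) (.e (nat_lit 57464) (nat_lit 23) (.e (nat_lit 516166) (nat_lit 12) (.e (nat_lit 450588) (nat_lit 10) (.e (nat_lit 573475) (nat_lit 12) .nil)))) .nil)) 
(.lf (nat_lit 164976) (.g (nat_lit 732) (.e (nat_lit 57464) (nat_lit 23) (.e (nat_lit 516175) (nat_lit 14) (.e (nat_lit 466977) (nat_lit 22) (.e (nat_lit 196677) (nat_lit 16) .nil)))) .nil)))) (.nd (nat_lit 4) (.nd (nat_lit 5) 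
(.lf (nat_lit 164936) (.g (nat_lit 2765) (.e (nat_lit 57464) (nat_lit 23) (.e (nat_lit 516166) (nat_lit 12) (.e (nat_lit 450588) (nat_lit 10) (.e (nat_lit 573471) (nat_lit 11) (.e (nat_lit 16399) (nat_lit 0) .nil))))) .nil)) 
(.lf (nat_lit 164968) (.g (nat_lit 2176) (.e (nat_lit 57464) (nat_lit 23) (.e (nat_lit 516174) (nat_lit 14) (.e (nat_lit 466980) (nat_lit 23) (.e (nat_lit 204846) (nat_lit 24) (.e (nat_lit 319511) (nat_lit 10) (.e (nat_lit 5394) (nat_lit 301) .nil)))))) (.g (nat_lit 5) .nil .nil)))) (.nd (nat_lit 5) 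
(.lf (nat_lit 164952) (.g (nat_lit 1433) (.e (nat_lit 57464) (nat_lit 23) (.e (nat_lit 516170) (nat_lit 13) (.e (nat_lit 466688) (nat_lit 3) (.e (nat_lit 57464) (nat_lit 23) (.e (nat_lit 516142) (nat_lit 8) (.e (nat_lit 417793) (nat_lit 0) (.e (nat_lit 5395) (nat_lit 301) .nil))))))) (.g (nat_lit 5) .nil .nil))) 
(.lf (nat_lit 164984) (.g (nat_lit 2824) (.e (nat_lit 57464) (nat_lit 23) (.e (nat_lit 516175) (nat_lit 14) (.e (nat_lit 466981) (nat_lit 23) (.e (nat_lit 204846) (nat_lit 24) (.e (nat_lit 319505) (nat_lit 10) (.e (nat_lit 5395) (nat_lit 301) .nil)))))) (.g (nat_lit 5) .nil .nil)))))) (.nd (nat_lit 3) (.nd (nat_lit 4) (.nd (nat_lit 5) 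
(.lf (nat_lit 164932) (.g (nat_lit 2735) (.e (nat_lit 57464) (nat_lit 23) (.e (nat_lit 516166) (nat_lit 12) (.e (nat_lit 450588) (nat_lit 10) (.e (nat_lit 573471) (nat_lit 11) (.e (nat_lit 16391) (nat_lit 0) .nil))))) .nil)) 
(.lf (nat_lit 164964) (.g (nat_lit 1430) (.e (nat_lit 57464) (nat_lit 23) (.e (nat_lit 516174) (nat_lit 14) (.e (nat_lit 466975) (nat_lit 22) (.e (nat_lit 196626) (nat_lit 9) (.e (nat_lit 1400) (nat_lit 106) (.e (nat_lit 327424) (nat_lit 10) (.e (nat_lit 5394) (nat_lit 301) .nil))))))) (.g (nat_lit 4) .nil .nil)))) (.nd (nat_lit 5) 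
(.lf (nat_lit 164948) (.g (nat_lit 2946) (.e (nat_lit 57464) (nat_lit 23) (.e (nat_lit 516167) (nat_lit 12) (.e (nat_lit 450580) (nat_lit 5) (.e (nat_lit 532523) (nat_lit 7) (.e (nat_lit 319504) (nat_lit 10) (.e (nat_lit 5395) (nat_lit 301) .nil)))))) (.g (nat_lit 5) .nil .nil))) 
(.lf (nat_lit 164980) (.g (nat_lit 2242) (.e (nat_lit 57464) (nat_lit 23) (.e (nat_lit 516175) (nat_lit 14) (.e (nat_lit 466980) (nat_lit 23) (.e (nat_lit 204846) (nat_lit 24) (.e (nat_lit 319505) (nat_lit 10) (.e (nat_lit 5395) (nat_lit 301) .nil)))))) (.g (nat_lit 5) .nil .nil))))) (.nd (nat_lit 4) (.nd (nat_lit 5) 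
(.lf (nat_lit 164940) (.g (nat_lit 3157) (.e (nat_lit 57464) (nat_lit 23) (.e (nat_lit 516166) (nat_lit 12) (.e (nat_lit 450588) (nat_lit 10) (.e (nat_lit 573473) (nat_lit 12) .nil)))) .nil)) 
(.lf (nat_lit 164972) (.g (nat_lit 1550) (.e (nat_lit 57464) (nat_lit 23) (.e (nat_lit 516175) (nat_lit 14) (.e (nat_lit 466977) (nat_lit 22) (.e (nat_lit 196626) (nat_lit 9) (.e (nat_lit 1400) (nat_lit 106) .nil))))) .nil))) (.nd (nat_lit 5) 
(.lf (nat_lit 164956) (.g (nat_lit 2351) (.e (nat_lit 57464) (nat_lit 23) (.e (nat_lit 516174) (nat_lit 14) (.e (nat_lit 466947) (nat_lit 0) (.e (nat_lit 1855) (nat_lit 124) (.e (nat_lit 557105) (nat_lit 14) (.e (nat_lit 188160) (nat_lit 35) .nil)))))) (.g (nat_lit 5) .nil .nil))) 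
(.lf (nat_lit 164988) (.g (nat_lit 2829) (.e (nat_lit 57464) (nat_lit 23) (.e (nat_lit 516175) (nat_lit 14) (.e (nat_lit 466981) (nat_lit 23) (.e (nat_lit 204861) (nat_lit 26) (.e (nat_lit 335988) (nat_lit 1) (.e (nat_lit 57783) (nat_lit 239) (.e (nat_lit 7936) (nat_lit 87) .nil))))))) (.g (nat_lit 6) .nil .nil))))))) (.nd (nat_lit 2) (.nd (nat_lit 3) (.nd (nat_lit 4) (.nd (nat_lit 5) 
(.lf (nat_lit 164930) (.g (nat_lit 907) (.e (nat_lit 57464) (nat_lit 23) (.e (nat_lit 516166) (nat_lit 12) (.e (nat_lit 450588) (nat_lit 10) (.e (nat_lit 573471) (nat_lit 11) .nil)))) .nil)) 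
(.lf (nat_lit 164962) (.g (nat_lit 465) (.e (nat_lit 57464) (nat_lit 23) (.e (nat_lit 516174) (nat_lit 14) (.e (nat_lit 466975) (nat_lit 22) .nil))) .nil))) (.nd (nat_lit 5) 
(.lf (nat_lit 164946) (.g (nat_lit 3886) (.e (nat_lit 57464) (nat_lit 23) (.e (nat_lit 516166) (nat_lit 12) (.e (nat_lit 450588) (nat_lit 10) (.e (nat_lit 573475) (nat_lit 12) (.e (nat_lit 57348) (nat_lit 0) .nil))))) .nil)) 
(.lf (nat_lit 164978) (.g (nat_lit 1470) (.e (nat_lit 57464) (nat_lit 23) (.e (nat_lit 516175) (nat_lit 14) (.e (nat_lit 466977) (nat_lit 22) (.e (nat_lit 196677) (nat_lit 16) (.e (nat_lit 123080) (nat_lit 177) (.e (nat_lit 65280) (nat_lit 273) .nil)))))) (.g (nat_lit 4) .nil .nil))))) (.nd (nat_lit 4) (.nd (nat_lit 5) 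
(.lf (nat_lit 164938) (.g (nat_lit 2779) (.e (nat_lit 57464) (nat_lit 23) (.e (nat_lit 516166) (nat_lit 12) (.e (nat_lit 450588) (nat_lit 10) (.e (nat_lit 573471) (nat_lit 11) (.e (nat_lit 16402) (nat_lit 0) .nil))))) .nil)) 
(.lf (nat_lit 164970) (.g (nat_lit 2030) (.e (nat_lit 57464) (nat_lit 23) (.e (nat_lit 516175) (nat_lit 14) (.e (nat_lit 466947) (nat_lit 0) (.e (nat_lit 1856) (nat_lit 124) (.e (nat_lit 557103) (nat_lit 14) (.e (nat_lit 188160) (nat_lit 35) .nil)))))) (.g (nat_lit 5) .nil .nil)))) (.nd (nat_lit 5) 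
(.lf (nat_lit 164954) (.g (nat_lit 2980) (.e (nat_lit 57464) (nat_lit 23) (.e (nat_lit 516170) (nat_lit 13) (.e (nat_lit 458789) (nat_lit 23) (.e (nat_lit 532481) (nat_lit 0) (.e (nat_lit 2031) (nat_lit 140) (.e (nat_lit 688171) (nat_lit 15) (.e (nat_lit 57465) (nat_lit 23) (.e (nat_lit 516124) (nat_lit 2) (.e (nat_lit 220928) (nat_lit 3) .nil))))))))) (.g (nat_lit 4) .nil .nil))) 
(.lf (nat_lit 164986) (.g (nat_lit 1951) (.e (nat_lit 57464) (nat_lit 23) (.e (nat_lit 516175) (nat_lit 14) (.e (nat_lit 466981) (nat_lit 23) (.e (nat_lit 204846) (nat_lit 24) (.e (nat_lit 319511) (nat_lit 10) (.e (nat_lit 5394) (nat_lit 301) .nil)))))) (.g (nat_lit 4) .nil .nil)))))) (.nd (nat_lit 3) (.nd (nat_lit 4) (.nd (nat_lit 5) 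
(.lf (nat_lit 164934) (.g (nat_lit 2636) (.e (nat_lit 57464) (nat_lit 23) (.e (nat_lit 516166) (nat_lit 12) (.e (nat_lit 450588) (nat_lit 10) (.e (nat_lit 573471) (nat_lit 11) (.e (nat_lit 16397) (nat_lit 0) .nil))))) .nil)) 
(.lf (nat_lit 164966) (.g (nat_lit 2774) (.e (nat_lit 57464) (nat_lit 23) (.e (nat_lit 516174) (nat_lit 14) (.e (nat_lit 466980) (nat_lit 23) (.e (nat_lit 204846) (nat_lit 24) (.e (nat_lit 319505) (nat_lit 10) (.e (nat_lit 5395) (nat_lit 301) .nil)))))) (.g (nat_lit 5) .nil .nil)))) (.nd (nat_lit 5) 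
(.lf (nat_lit 164950) (.g (nat_lit 2768) (.e (nat_lit 57464) (nat_lit 23) (.e (nat_lit 516167) (nat_lit 12) (.e (nat_lit 450580) (nat_lit 5) (.e (nat_lit 532523) (nat_lit 7) (.e (nat_lit 319505) (nat_lit 10) (.e (nat_lit 7936) (nat_lit 301) .nil)))))) (.g (nat_lit 5) .nil .nil))) 
(.lf (nat_lit 164982) (.g (nat_lit 1638) (.e (nat_lit 57464) (nat_lit 23) (.e (nat_lit 516175) (nat_lit 14) (.e (nat_lit 466980) (nat_lit 23) (.e (nat_lit 204846) (nat_lit 24) (.e (nat_lit 319511) (nat_lit 10) (.e (nat_lit 5394) (nat_lit 301) .nil)))))) (.g (nat_lit 5) .nil .nil))))) (.nd (nat_lit 4) (.nd (nat_lit 5) 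
(.lf (nat_lit 164942) (.g (nat_lit 3806) (.e (nat_lit 57464) (nat_lit 23) (.e (nat_lit 516166) (nat_lit 12) (.e (nat_lit 450588) (nat_lit 10) (.e (nat_lit 573473) (nat_lit 12) (.e (nat_lit 57353) (nat_lit 0) .nil))))) .nil)) 
(.lf (nat_lit 164974) (.g (nat_lit 2466) (.e (nat_lit 57464) (nat_lit 23) (.e (nat_lit 516175) (nat_lit 14) (.e (nat_lit 466977) (nat_lit 22) (.e (nat_lit 196668) (nat_lit 14) (.e (nat_lit 73737) (nat_lit 0) (.e (nat_lit 4803) (nat_lit 281) (.e (nat_lit 1172) (nat_lit 87) .nil))))))) (.g (nat_lit 5) .nil .nil)))) (.nd (nat_lit 5) 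
(.lf (nat_lit 164958) (.g (nat_lit 2204) (.e (nat_lit 57464) (nat_lit 23) (.e (nat_lit 516174) (nat_lit 14) (.e (nat_lit 466947) (nat_lit 0) (.e (nat_lit 1856) (nat_lit 124) (.e (nat_lit 557105) (nat_lit 14) (.e (nat_lit 188160) (nat_lit 35) .nil)))))) (.g (nat_lit 5) .nil .nil))) 
(.lf (nat_lit 164990) (.g (nat_lit 2150) (.e (nat_lit 57464) (nat_lit 23) (.e (nat_lit 516176) (nat_lit 14) (.e (nat_lit 466947) (nat_lit 0) (.e (nat_lit 1856) (nat_lit 124) (.e (nat_lit 557105) (nat_lit 14) (.e (nat_lit 188160) (nat_lit 35) .nil)))))) (.g (nat_lit 5) .nil .nil)))))))) (.nd (nat_lit 1) (.nd (nat_lit 2) (.nd (nat_lit 3) (.nd (nat_lit 4) (.nd (nat_lit 5) 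
(.lf (nat_lit 164929) (.g (nat_lit 2755) (.e (nat_lit 57464) (nat_lit 23) (.e (nat_lit 516166) (nat_lit 12) (.e (nat_lit 450588) (nat_lit 10) (.e (nat_lit 573470) (nat_lit 11) (.e (nat_lit 16391) (nat_lit 0) .nil))))) .nil)) 
(.lf (nat_lit 164961) (.g (nat_lit 685) (.e (nat_lit 57464) (nat_lit 23) (.e (nat_lit 516174) (nat_lit 14) (.e (nat_lit 466967) (nat_lit 20) .nil))) .nil))) (.nd (nat_lit 5) 
(.lf (nat_lit 164945) (.g (nat_lit 3611) (.e (nat_lit 57464) (nat_lit 23) (.e (nat_lit 516166) (nat_lit 12) (.e (nat_lit 450588) (nat_lit 10) (.e (nat_lit 573475) (nat_lit 12) (.e (nat_lit 57347) (nat_lit 0) .nil))))) .nil)) 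
(.lf (nat_lit 164977) (.g (nat_lit 2112) (.e (nat_lit 57464) (nat_lit 23) (.e (nat_lit 516175) (nat_lit 14) (.e (nat_lit 466977) (nat_lit 22) (.e (nat_lit 196677) (nat_lit 16) (.e (nat_lit 123080) (nat_lit 177) (.e (nat_lit 57896) (nat_lit 273) .nil)))))) (.g (nat_lit 0) .nil .nil))))) (.nd (nat_lit 4) (.nd (nat_lit 5) 
(.lf (nat_lit 164937) (.g (nat_lit 2743) (.e (nat_lit 57464) (nat_lit 23) (.e (nat_lit 516166) (nat_lit 12) (.e (nat_lit 450588) (nat_lit 10) (.e (nat_lit 573471) (nat_lit 11) (.e (nat_lit 16401) (nat_lit 0) .nil))))) .nil)) 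
(.lf (nat_lit 164969) (.g (nat_lit 1210) (.e (nat_lit 57464) (nat_lit 23) (.e (nat_lit 516174) (nat_lit 14) (.e (nat_lit 466981) (nat_lit 23) (.e (nat_lit 204846) (nat_lit 24) .nil)))) .nil))) (.nd (nat_lit 5) 
(.lf (nat_lit 164953) (.g (nat_lit 752) (.e (nat_lit 57464) (nat_lit 23) (.e (nat_lit 516170) (nat_lit 13) (.e (nat_lit 466688) (nat_lit 3) (.e (nat_lit 57464) (nat_lit 23) (.e (nat_lit 516170) (nat_lit 13) (.e (nat_lit 466688) (nat_lit 3) .nil)))))) (.g (nat_lit 4) .nil .nil))) 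
(.lf (nat_lit 164985) (.g (nat_lit 2890) (.e (nat_lit 57464) (nat_lit 23) (.e (nat_lit 516175) (nat_lit 14) (.e (nat_lit 466981) (nat_lit 23) (.e (nat_lit 204846) (nat_lit 24) (.e (nat_lit 319505) (nat_lit 10) (.e (nat_lit 7936) (nat_lit 301) .nil)))))) (.g (nat_lit 5) .nil .nil)))))) (.nd (nat_lit 3) (.nd (nat_lit 4) (.nd (nat_lit 5) 
(.lf (nat_lit 164933) (.g (nat_lit 2867) (.e (nat_lit 57464) (nat_lit 23) (.e (nat_lit 516166) (nat_lit 12) (.e (nat_lit 450588) (nat_lit 10) (.e (nat_lit 573471) (nat_lit 11) (.e (nat_lit 16396) (nat_lit 0) (.e (nat_lit 7936) (nat_lit 405) .nil)))))) (.g (nat_lit 5) .nil .nil))) 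
(.lf (nat_lit 164965) (.g (nat_lit 1091) (.e (nat_lit 57464) (nat_lit 23) (.e (nat_lit 516174) (nat_lit 14) (.e (nat_lit 466979) (nat_lit 23) (.e (nat_lit 204846) (nat_lit 24) .nil)))) .nil))) (.nd (nat_lit 5) 
(.lf (nat_lit 164949) (.g (nat_lit 2022) (.e (nat_lit 57464) (nat_lit 23) (.e (nat_lit 516167) (nat_lit 12) (.e (nat_lit 450580) (nat_lit 5) (.e (nat_lit 532523) (nat_lit 7) (.e (nat_lit 319504) (nat_lit 10) (.e (nat_lit 7936) (nat_lit 301) .nil)))))) (.g (nat_lit 5) .nil .nil))) 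
(.lf (nat_lit 164981) (.g (nat_lit 2345) (.e (nat_lit 57464) (nat_lit 23) (.e (nat_lit 516175) (nat_lit 14) (.e (nat_lit 466980) (nat_lit 23) (.e (nat_lit 204846) (nat_lit 24) (.e (nat_lit 319505) (nat_lit 10) (.e (nat_lit 7936) (nat_lit 301) .nil)))))) (.g (nat_lit 5) .nil .nil))))) (.nd (nat_lit 4) (.nd (nat_lit 5) 
(.lf (nat_lit 164941) (.g (nat_lit 3809) (.e (nat_lit 57464) (nat_lit 23) (.e (nat_lit 516166) (nat_lit 12) (.e (nat_lit 450588) (nat_lit 10) (.e (nat_lit 573473) (nat_lit 12) (.e (nat_lit 57348) (nat_lit 0) .nil))))) .nil)) 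
(.lf (nat_lit 164973) (.g (nat_lit 991) (.e (nat_lit 57464) (nat_lit 23) (.e (nat_lit 516175) (nat_lit 14) (.e (nat_lit 466977) (nat_lit 22) (.e (nat_lit 196668) (nat_lit 14) .nil)))) .nil))) (.nd (nat_lit 5) 
(.lf (nat_lit 164957) (.g (nat_lit 2212) (.e (nat_lit 57464) (nat_lit 23) (.e (nat_lit 516174) (nat_lit 14) (.e (nat_lit 466947) (nat_lit 0) (.e (nat_lit 1856) (nat_lit 124) (.e (nat_lit 557103) (nat_lit 14) (.e (nat_lit 188160) (nat_lit 35) .nil)))))) (.g (nat_lit 5) .nil .nil))) 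
(.lf (nat_lit 164989) (.g (nat_lit 2156) (.e (nat_lit 57464) (nat_lit 23) (.e (nat_lit 516176) (nat_lit 14) (.e (nat_lit 466947) (nat_lit 0) (.e (nat_lit 1856) (nat_lit 124) (.e (nat_lit 557103) (nat_lit 14) (.e (nat_lit 188160) (nat_lit 35) .nil)))))) (.g (nat_lit 5) .nil .nil))))))) (.nd (nat_lit 2) (.nd (nat_lit 3) (.nd (nat_lit 4) (.nd (nat_lit 5) 
(.lf (nat_lit 164931) (.g (nat_lit 2655) (.e (nat_lit 57464) (nat_lit 23) (.e (nat_lit 516166) (nat_lit 12) (.e (nat_lit 450588) (nat_lit 10) (.e (nat_lit 573471) (nat_lit 11) (.e (nat_lit 16384) (nat_lit 0) .nil))))) .nil)) 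
(.lf (nat_lit 164963) (.g (nat_lit 2316) (.e (nat_lit 57464) (nat_lit 23) (.e (nat_lit 516174) (nat_lit 14) (.e (nat_lit 466975) (nat_lit 22) (.e (nat_lit 196626) (nat_lit 9) (.e (nat_lit 1400) (nat_lit 106) (.e (nat_lit 319505) (nat_lit 10) (.e (nat_lit 7936) (nat_lit 301) .nil))))))) (.g (nat_lit 6) .nil .nil)))) (.nd (nat_lit 5) 
(.lf (nat_lit 164947) (.g (nat_lit 3699) (.e (nat_lit 57464) (nat_lit 23) (.e (nat_lit 516166) (nat_lit 12) (.e (nat_lit 450588) (nat_lit 10) (.e (nat_lit 573475) (nat_lit 12) (.e (nat_lit 57574) (nat_lit 55) .nil))))) .nil)) 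
(.lf (nat_lit 164979) (.g (nat_lit 1037) (.e (nat_lit 57464) (nat_lit 23) (.e (nat_lit 516175) (nat_lit 14) (.e (nat_lit 466978) (nat_lit 23) (.e (nat_lit 204846) (nat_lit 24) (.e (nat_lit 319505) (nat_lit 10) .nil))))) .nil)))) (.nd (nat_lit 4) (.nd (nat_lit 5) 
(.lf (nat_lit 164939) (.g (nat_lit 2739) (.e (nat_lit 57464) (nat_lit 23) (.e (nat_lit 516166) (nat_lit 12) (.e (nat_lit 450588) (nat_lit 10) (.e (nat_lit 573471) (nat_lit 11) (.e (nat_lit 16403) (nat_lit 0) .nil))))) .nil)) 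
(.lf (nat_lit 164971) (.g (nat_lit 2031) (.e (nat_lit 57464) (nat_lit 23) (.e (nat_lit 516175) (nat_lit 14) (.e (nat_lit 466947) (nat_lit 0) (.e (nat_lit 1856) (nat_lit 124) (.e (nat_lit 557105) (nat_lit 14) (.e (nat_lit 188160) (nat_lit 35) .nil)))))) (.g (nat_lit 5) .nil .nil)))) (.nd (nat_lit 5) 
(.lf (nat_lit 164955) (.g (nat_lit 2394) (.e (nat_lit 57464) (nat_lit 23) (.e (nat_lit 516174) (nat_lit 14) (.e (nat_lit 466945) (nat_lit 0) (.e (nat_lit 1853) (nat_lit 124) (.e (nat_lit 557103) (nat_lit 14) (.e (nat_lit 188160) (nat_lit 35) .nil)))))) (.g (nat_lit 5) .nil .nil))) 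
(.lf (nat_lit 164987) (.g (nat_lit 2449) (.e (nat_lit 57464) (nat_lit 23) (.e (nat_lit 516175) (nat_lit 14) (.e (nat_lit 466981) (nat_lit 23) (.e (nat_lit 204849) (nat_lit 25) (.e (nat_lit 327708) (nat_lit 10) (.e (nat_lit 5394) (nat_lit 301) .nil)))))) (.g (nat_lit 6) .nil .nil)))))) (.nd (nat_lit 3) (.nd (nat_lit 4) (.nd (nat_lit 5) 
(.lf (nat_lit 164935) (.g (nat_lit 2841) (.e (nat_lit 57464) (nat_lit 23) (.e (nat_lit 516166) (nat_lit 12) (.e (nat_lit 450588) (nat_lit 10) (.e (nat_lit 573471) (nat_lit 11) (.e (nat_lit 16398) (nat_lit 0) .nil))))) .nil)) 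
(.lf (nat_lit 164967) (.g (nat_lit 2729) (.e (nat_lit 57464) (nat_lit 23) (.e (nat_lit 516174) (nat_lit 14) (.e (nat_lit 466980) (nat_lit 23) (.e (nat_lit 204846) (nat_lit 24) (.e (nat_lit 319505) (nat_lit 10) (.e (nat_lit 7936) (nat_lit 301) .nil)))))) (.g (nat_lit 5) .nil .nil)))) (.nd (nat_lit 5) 
(.lf (nat_lit 164951) (.g (nat_lit 1097) (.e (nat_lit 57464) (nat_lit 23) (.e (nat_lit 516167) (nat_lit 12) (.e (nat_lit 450583) (nat_lit 7) (.e (nat_lit 548914) (nat_lit 19) (.e (nat_lit 188160) (nat_lit 35) .nil))))) (.g (nat_lit 4) .nil .nil))) 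
(.lf (nat_lit 164983) (.g (nat_lit 134) (.e (nat_lit 57464) (nat_lit 23) (.e (nat_lit 516175) (nat_lit 14) (.e (nat_lit 466981) (nat_lit 23) .nil))) .nil)))) (.nd (nat_lit 4) (.nd (nat_lit 5) 
(.lf (nat_lit 164943) (.g (nat_lit 5554) (.e (nat_lit 57464) (nat_lit 23) (.e (nat_lit 516166) (nat_lit 12) (.e (nat_lit 450588) (nat_lit 10) (.e (nat_lit 573474) (nat_lit 12) .nil)))) .nil)) 
(.lf (nat_lit 164975) (.g (nat_lit 2249) (.e (nat_lit 57464) (nat_lit 23) (.e (nat_lit 516175) (nat_lit 14) (.e (nat_lit 466977) (nat_lit 22) (.e (nat_lit 196668) (nat_lit 14) (.e (nat_lit 73762) (nat_lit 16) (.e (nat_lit 622611) (nat_lit 8) .nil)))))) (.g (nat_lit 5) .nil .nil)))) (.nd (nat_lit 5) 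
(.lf (nat_lit 164959) (.g (nat_lit 1528) (.e (nat_lit 57464) (nat_lit 23) (.e (nat_lit 516174) (nat_lit 14) (.e (nat_lit 466954) (nat_lit 11) (.e (nat_lit 336049) (nat_lit 6) .nil)))) .nil)) 
(.lf (nat_lit 164991) (.g (nat_lit 1422) (.e (nat_lit 57464) (nat_lit 23) (.e (nat_lit 516176) (nat_lit 14) (.e (nat_lit 466954) (nat_lit 11) (.e (nat_lit 336049) (nat_lit 6) .nil)))) .nil))))))))

noncomputable def tv2214 : DT := (.nd (nat_lit 0) (.nd (nat_lit 1) (.nd (nat_lit 2) (.nd (nat_lit 3) (.nd (nat_lit 4) (.nd (nat_lit 5) 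
(.lf (nat_lit 164992) (.g (nat_lit 1683) (.e (nat_lit 57464) (nat_lit 23) (.e (nat_lit 516176) (nat_lit 14) (.e (nat_lit 466954) (nat_lit 11) (.e (nat_lit 336387) (nat_lit 27) .nil)))) .nil)) 
(.lf (nat_lit 165024) (.g (nat_lit 1337) (.e (nat_lit 57464) (nat_lit 23) (.e (nat_lit 516180) (nat_lit 15) (.e (nat_lit 475214) (nat_lit 42) (.e (nat_lit 720941) (nat_lit 22) .nil)))) .nil))) (.nd (nat_lit 5) 
(.lf (nat_lit 165008) (.g (nat_lit 1107) (.e (nat_lit 57464) (nat_lit 23) (.e (nat_lit 516177) (nat_lit 14) (.e (nat_lit 466977) (nat_lit 22) (.e (nat_lit 196668) (nat_lit 14) (.e (nat_lit 81664) (nat_lit 0) (.e (nat_lit 4808) (nat_lit 281) (.e (nat_lit 1172) (nat_lit 87) .nil))))))) (.g (nat_lit 4) .nil .nil))) 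
(.lf (nat_lit 165040) (.g (nat_lit 2216) (.e (nat_lit 57464) (nat_lit 23) (.e (nat_lit 516185) (nat_lit 16) (.e (nat_lit 491560) (nat_lit 10) (.e (nat_lit 344118) (nat_lit 21) .nil)))) .nil)))) (.nd (nat_lit 4) (.nd (nat_lit 5) 
(.lf (nat_lit 165000) (.g (nat_lit 853) (.e (nat_lit 57464) (nat_lit 23) (.e (nat_lit 516176) (nat_lit 14) (.e (nat_lit 466979) (nat_lit 23) .nil))) .nil)) 
(.lf (nat_lit 165032) (.g (nat_lit 2390) (.e (nat_lit 57464) (nat_lit 23) (.e (nat_lit 516185) (nat_lit 16) (.e (nat_lit 491556) (nat_lit 9) (.e (nat_lit 336017) (nat_lit 3) .nil)))) .nil))) (.nd (nat_lit 5) 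
(.lf (nat_lit 165016) (.g (nat_lit 2470) (.e (nat_lit 57464) (nat_lit 23) (.e (nat_lit 516179) (nat_lit 15) (.e (nat_lit 475177) (nat_lit 24) (.e (nat_lit 516169) (nat_lit 13) (.e (nat_lit 458789) (nat_lit 23) (.e (nat_lit 532499) (nat_lit 1) (.e (nat_lit 57755) (nat_lit 209) (.e (nat_lit 1172) (nat_lit 87) .nil)))))))) (.g (nat_lit 4) .nil .nil))) 
(.lf (nat_lit 165048) (.g (nat_lit 4211) (.e (nat_lit 57464) (nat_lit 23) (.e (nat_lit 516185) (nat_lit 16) (.e (nat_lit 491563) (nat_lit 12) (.e (nat_lit 385074) (nat_lit 31) (.e (nat_lit 573487) (nat_lit 14) .nil))))) .nil))))) (.nd (nat_lit 3) (.nd (nat_lit 4) (.nd (nat_lit 5) 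
(.lf (nat_lit 164996) (.g (nat_lit 2551) (.e (nat_lit 57464) (nat_lit 23) (.e (nat_lit 516176) (nat_lit 14) (.e (nat_lit 466975) (nat_lit 22) (.e (nat_lit 196626) (nat_lit 9) (.e (nat_lit 1400) (nat_lit 106) (.e (nat_lit 319505) (nat_lit 10) (.e (nat_lit 5395) (nat_lit 301) .nil))))))) (.g (nat_lit 6) .nil .nil))) 
(.lf (nat_lit 165028) (.g (nat_lit 1790) (.e (nat_lit 57464) (nat_lit 23) (.e (nat_lit 516184) (nat_lit 16) (.e (nat_lit 491571) (nat_lit 13) (.e (nat_lit 393238) (nat_lit 17) .nil)))) .nil))) (.nd (nat_lit 5) 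
(.lf (nat_lit 165012) (.g (nat_lit 3282) (.e (nat_lit 57464) (nat_lit 23) (.e (nat_lit 516179) (nat_lit 15) (.e (nat_lit 475177) (nat_lit 24) (.e (nat_lit 516150) (nat_lit 9) (.e (nat_lit 426131) (nat_lit 3) (.e (nat_lit 204829) (nat_lit 18) (.e (nat_lit 57754) (nat_lit 209) (.e (nat_lit 1172) (nat_lit 87) .nil)))))))) (.g (nat_lit 5) .nil .nil))) 
(.lf (nat_lit 165044) (.g (nat_lit 2687) (.e (nat_lit 57464) (nat_lit 23) (.e (nat_lit 516185) (nat_lit 16) (.e (nat_lit 491560) (nat_lit 10) (.e (nat_lit 344120) (nat_lit 21) .nil)))) .nil)))) (.nd (nat_lit 4) (.nd (nat_lit 5) 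
(.lf (nat_lit 165004) (.g (nat_lit 1255) (.e (nat_lit 57464) (nat_lit 23) (.e (nat_lit 516176) (nat_lit 14) (.e (nat_lit 466981) (nat_lit 23) (.e (nat_lit 204848) (nat_lit 25) .nil)))) .nil)) 
(.lf (nat_lit 165036) (.g (nat_lit 638) (.e (nat_lit 57464) (nat_lit 23) (.e (nat_lit 516185) (nat_lit 16) (.e (nat_lit 491560) (nat_lit 10) .nil))) .nil))) (.nd (nat_lit 5) 
(.lf (nat_lit 165020) (.g (nat_lit 795) (.e (nat_lit 57464) (nat_lit 23) (.e (nat_lit 516179) (nat_lit 15) (.e (nat_lit 475179) (nat_lit 24) .nil))) .nil)) 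
(.lf (nat_lit 165052) (.g (nat_lit 2436) (.e (nat_lit 57464) (nat_lit 23) (.e (nat_lit 516185) (nat_lit 16) (.e (nat_lit 491568) (nat_lit 13) (.e (nat_lit 393229) (nat_lit 9) .nil)))) .nil)))))) (.nd (nat_lit 2) (.nd (nat_lit 3) (.nd (nat_lit 4) (.nd (nat_lit 5) 
(.lf (nat_lit 164994) (.g (nat_lit 808) (.e (nat_lit 57464) (nat_lit 23) (.e (nat_lit 516176) (nat_lit 14) (.e (nat_lit 466975) (nat_lit 22) .nil))) .nil)) 
(.lf (nat_lit 165026) (.g (nat_lit 1229) (.e (nat_lit 57464) (nat_lit 23) (.e (nat_lit 516184) (nat_lit 16) (.e (nat_lit 491570) (nat_lit 13) (.e (nat_lit 393238) (nat_lit 17) .nil)))) .nil))) (.nd (nat_lit 5) 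
(.lf (nat_lit 165010) (.g (nat_lit 1441) (.e (nat_lit 57464) (nat_lit 23) (.e (nat_lit 516177) (nat_lit 14) (.e (nat_lit 466977) (nat_lit 22) (.e (nat_lit 196677) (nat_lit 16) (.e (nat_lit 123080) (nat_lit 177) (.e (nat_lit 57896) (nat_lit 273) .nil)))))) (.g (nat_lit 4) .nil .nil))) 
(.lf (nat_lit 165042) (.g (nat_lit 3572) (.e (nat_lit 57464) (nat_lit 23) (.e (nat_lit 516185) (nat_lit 16) (.e (nat_lit 491560) (nat_lit 10) (.e (nat_lit 344118) (nat_lit 21) (.e (nat_lit 516139) (nat_lit 7) (.e (nat_lit 409616) (nat_lit 10) (.e (nat_lit 7936) (nat_lit 301) .nil))))))) (.g (nat_lit 6) .nil .nil))))) (.nd (nat_lit 4) (.nd (nat_lit 5) 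
(.lf (nat_lit 165002) (.g (nat_lit 997) (.e (nat_lit 57464) (nat_lit 23) (.e (nat_lit 516176) (nat_lit 14) (.e (nat_lit 466981) (nat_lit 23) (.e (nat_lit 204845) (nat_lit 24) .nil)))) .nil)) 
(.lf (nat_lit 165034) (.g (nat_lit 2153) (.e (nat_lit 57464) (nat_lit 23) (.e (nat_lit 516185) (nat_lit 16) (.e (nat_lit 491558) (nat_lit 10) (.e (nat_lit 344117) (nat_lit 21) .nil)))) .nil))) (.nd (nat_lit 5) 
(.lf (nat_lit 165018) (.g (nat_lit 2162) (.e (nat_lit 57464) (nat_lit 23) (.e (nat_lit 516179) (nat_lit 15) (.e (nat_lit 475177) (nat_lit 24) (.e (nat_lit 516171) (nat_lit 13) (.e (nat_lit 458789) (nat_lit 23) .nil))))) .nil)) 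
(.lf (nat_lit 165050) (.g (nat_lit 792) (.e (nat_lit 57464) (nat_lit 23) (.e (nat_lit 516185) (nat_lit 16) (.e (nat_lit 491568) (nat_lit 13) .nil))) .nil))))) (.nd (nat_lit 3) (.nd (nat_lit 4) (.nd (nat_lit 5) 
(.lf (nat_lit 164998) (.g (nat_lit 743) (.e (nat_lit 57464) (nat_lit 23) (.e (nat_lit 516176) (nat_lit 14) (.e (nat_lit 466976) (nat_lit 22) .nil))) .nil)) 
(.lf (nat_lit 165030) (.g (nat_lit 2897) (.e (nat_lit 57464) (nat_lit 23) (.e (nat_lit 516185) (nat_lit 16) (.e (nat_lit 491546) (nat_lit 9) (.e (nat_lit 336028) (nat_lit 3) (.e (nat_lit 98325) (nat_lit 17) (.e (nat_lit 7112) (nat_lit 381) (.e (nat_lit 229657) (nat_lit 235) .nil))))))) (.g (nat_lit 4) .nil .nil)))) (.nd (nat_lit 5) 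
(.lf (nat_lit 165014) (.g (nat_lit 2238) (.e (nat_lit 57464) (nat_lit 23) (.e (nat_lit 516179) (nat_lit 15) (.e (nat_lit 475177) (nat_lit 24) (.e (nat_lit 516150) (nat_lit 9) (.e (nat_lit 426131) (nat_lit 3) (.e (nat_lit 204830) (nat_lit 18) (.e (nat_lit 57754) (nat_lit 209) (.e (nat_lit 1171) (nat_lit 87) .nil)))))))) (.g (nat_lit 4) .nil .nil))) 
(.lf (nat_lit 165046) (.g (nat_lit 2627) (.e (nat_lit 57464) (nat_lit 23) (.e (nat_lit 516185) (nat_lit 16) (.e (nat_lit 491560) (nat_lit 10) (.e (nat_lit 344132) (nat_lit 26) .nil)))) .nil)))) (.nd (nat_lit 4) (.nd (nat_lit 5) 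
(.lf (nat_lit 165006) (.g (nat_lit 2169) (.e (nat_lit 57464) (nat_lit 23) (.e (nat_lit 516176) (nat_lit 14) (.e (nat_lit 466981) (nat_lit 23) (.e (nat_lit 204861) (nat_lit 26) (.e (nat_lit 335988) (nat_lit 1) (.e (nat_lit 57783) (nat_lit 239) (.e (nat_lit 7936) (nat_lit 87) .nil))))))) (.g (nat_lit 4) .nil .nil))) 
(.lf (nat_lit 165038) (.g (nat_lit 2062) (.e (nat_lit 57464) (nat_lit 23) (.e (nat_lit 516185) (nat_lit 16) (.e (nat_lit 491560) (nat_lit 10) (.e (nat_lit 344117) (nat_lit 21) .nil)))) .nil))) (.nd (nat_lit 5) 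
(.lf (nat_lit 165022) (.g (nat_lit 2181) (.e (nat_lit 57464) (nat_lit 23) (.e (nat_lit 516179) (nat_lit 15) (.e (nat_lit 475179) (nat_lit 24) (.e (nat_lit 516169) (nat_lit 13) .nil)))) .nil)) 
(.lf (nat_lit 165054) (.g (nat_lit 2546) (.e (nat_lit 57464) (nat_lit 23) (.e (nat_lit 516185) (nat_lit 16) (.e (nat_lit 491568) (nat_lit 13) (.e (nat_lit 393258) (nat_lit 20) .nil)))) .nil))))))) (.nd (nat_lit 1) (.nd (nat_lit 2) (.nd (nat_lit 3) (.nd (nat_lit 4) (.nd (nat_lit 5) 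
(.lf (nat_lit 164993) (.g (nat_lit 745) (.e (nat_lit 57464) (nat_lit 23) (.e (nat_lit 516176) (nat_lit 14) (.e (nat_lit 466967) (nat_lit 20) (.e (nat_lit 3266) (nat_lit 199) .nil)))) .nil)) 
(.lf (nat_lit 165025) (.g (nat_lit 1692) (.e (nat_lit 57464) (nat_lit 23) (.e (nat_lit 516183) (nat_lit 16) (.e (nat_lit 491571) (nat_lit 13) (.e (nat_lit 393238) (nat_lit 17) .nil)))) .nil))) (.nd (nat_lit 5) 
(.lf (nat_lit 165009) (.g (nat_lit 1383) (.e (nat_lit 57464) (nat_lit 23) (.e (nat_lit 516177) (nat_lit 14) (.e (nat_lit 466977) (nat_lit 22) (.e (nat_lit 196668) (nat_lit 14) (.e (nat_lit 73762) (nat_lit 16) (.e (nat_lit 622611) (nat_lit 8) .nil)))))) (.g (nat_lit 4) .nil .nil))) 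
(.lf (nat_lit 165041) (.g (nat_lit 2621) (.e (nat_lit 57464) (nat_lit 23) (.e (nat_lit 516185) (nat_lit 16) (.e (nat_lit 491560) (nat_lit 10) (.e (nat_lit 344118) (nat_lit 21) (.e (nat_lit 516102) (nat_lit 0) .nil))))) .nil)))) (.nd (nat_lit 4) (.nd (nat_lit 5) 
(.lf (nat_lit 165001) (.g (nat_lit 1766) (.e (nat_lit 57464) (nat_lit 23) (.e (nat_lit 516176) (nat_lit 14) (.e (nat_lit 466980) (nat_lit 23) (.e (nat_lit 204846) (nat_lit 24) (.e (nat_lit 319511) (nat_lit 10) .nil))))) .nil)) 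
(.lf (nat_lit 165033) (.g (nat_lit 644) (.e (nat_lit 57464) (nat_lit 23) (.e (nat_lit 516185) (nat_lit 16) (.e (nat_lit 491558) (nat_lit 10) .nil))) .nil))) (.nd (nat_lit 5) 
(.lf (nat_lit 165017) (.g (nat_lit 3189) (.e (nat_lit 57464) (nat_lit 23) (.e (nat_lit 516179) (nat_lit 15) (.e (nat_lit 475177) (nat_lit 24) (.e (nat_lit 516169) (nat_lit 13) (.e (nat_lit 458789) (nat_lit 23) (.e (nat_lit 532501) (nat_lit 1) (.e (nat_lit 57754) (nat_lit 209) (.e (nat_lit 1172) (nat_lit 87) .nil)))))))) (.g (nat_lit 5) .nil .nil))) 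
(.lf (nat_lit 165049) (.g (nat_lit 4179) (.e (nat_lit 57464) (nat_lit 23) (.e (nat_lit 516185) (nat_lit 16) (.e (nat_lit 491563) (nat_lit 12) (.e (nat_lit 385074) (nat_lit 31) (.e (nat_lit 573489) (nat_lit 14) .nil))))) .nil))))) (.nd (nat_lit 3) (.nd (nat_lit 4) (.nd (nat_lit 5) 
(.lf (nat_lit 164997) (.g (nat_lit 1717) (.e (nat_lit 57464) (nat_lit 23) (.e (nat_lit 516176) (nat_lit 14) (.e (nat_lit 466975) (nat_lit 22) (.e (nat_lit 196626) (nat_lit 9) (.e (nat_lit 1400) (nat_lit 106) (.e (nat_lit 319505) (nat_lit 10) (.e (nat_lit 7936) (nat_lit 301) .nil))))))) (.g (nat_lit 4) .nil .nil))) 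
(.lf (nat_lit 165029) (.g (nat_lit 1734) (.e (nat_lit 57464) (nat_lit 23) (.e (nat_lit 516185) (nat_lit 16) (.e (nat_lit 491546) (nat_lit 9) (.e (nat_lit 336028) (nat_lit 3) .nil)))) .nil))) (.nd (nat_lit 5) 
(.lf (nat_lit 165013) (.g (nat_lit 3154) (.e (nat_lit 57464) (nat_lit 23) (.e (nat_lit 516179) (nat_lit 15) (.e (nat_lit 475177) (nat_lit 24) (.e (nat_lit 516150) (nat_lit 9) (.e (nat_lit 426131) (nat_lit 3) (.e (nat_lit 204829) (nat_lit 18) (.e (nat_lit 57755) (nat_lit 209) (.e (nat_lit 1172) (nat_lit 87) .nil)))))))) (.g (nat_lit 5) .nil .nil))) 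
(.lf (nat_lit 165045) (.g (nat_lit 2083) (.e (nat_lit 57464) (nat_lit 23) (.e (nat_lit 516185) (nat_lit 16) (.e (nat_lit 491560) (nat_lit 10) (.e (nat_lit 344131) (nat_lit 26) .nil)))) .nil)))) (.nd (nat_lit 4) (.nd (nat_lit 5) 
(.lf (nat_lit 165005) (.g (nat_lit 1906) (.e (nat_lit 57464) (nat_lit 23) (.e (nat_lit 516176) (nat_lit 14) (.e (nat_lit 466981) (nat_lit 23) (.e (nat_lit 204849) (nat_lit 25) (.e (nat_lit 327708) (nat_lit 10) (.e (nat_lit 5394) (nat_lit 301) .nil)))))) (.g (nat_lit 4) .nil .nil))) 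
(.lf (nat_lit 165037) (.g (nat_lit 2448) (.e (nat_lit 57464) (nat_lit 23) (.e (nat_lit 516185) (nat_lit 16) (.e (nat_lit 491560) (nat_lit 10) (.e (nat_lit 344094) (nat_lit 18) .nil)))) .nil))) (.nd (nat_lit 5) 
(.lf (nat_lit 165021) (.g (nat_lit 2864) (.e (nat_lit 57464) (nat_lit 23) (.e (nat_lit 516179) (nat_lit 15) (.e (nat_lit 475179) (nat_lit 24) (.e (nat_lit 516119) (nat_lit 1) (.e (nat_lit 164326) (nat_lit 230) .nil))))) .nil)) 
(.lf (nat_lit 165053) (.g (nat_lit 2314) (.e (nat_lit 57464) (nat_lit 23) (.e (nat_lit 516185) (nat_lit 16) (.e (nat_lit 491568) (nat_lit 13) (.e (nat_lit 401152) (nat_lit 10) .nil)))) .nil)))))) (.nd (nat_lit 2) (.nd (nat_lit 3) (.nd (nat_lit 4) (.nd (nat_lit 5) 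
(.lf (nat_lit 164995) (.g (nat_lit 1364) (.e (nat_lit 57464) (nat_lit 23) (.e (nat_lit 516176) (nat_lit 14) (.e (nat_lit 466975) (nat_lit 22) (.e (nat_lit 196626) (nat_lit 9) (.e (nat_lit 1400) (nat_lit 106) .nil))))) .nil)) 
(.lf (nat_lit 165027) (.g (nat_lit 410) (.e (nat_lit 57464) (nat_lit 23) (.e (nat_lit 516184) (nat_lit 16) (.e (nat_lit 491571) (nat_lit 13) .nil))) .nil))) (.nd (nat_lit 5) 
(.lf (nat_lit 165011) (.g (nat_lit 851) (.e (nat_lit 57464) (nat_lit 23) (.e (nat_lit 516179) (nat_lit 15) (.e (nat_lit 475177) (nat_lit 24) .nil))) .nil)) 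
(.lf (nat_lit 165043) (.g (nat_lit 2602) (.e (nat_lit 57464) (nat_lit 23) (.e (nat_lit 516185) (nat_lit 16) (.e (nat_lit 491560) (nat_lit 10) (.e (nat_lit 344118) (nat_lit 21) (.e (nat_lit 516171) (nat_lit 13) .nil))))) .nil)))) (.nd (nat_lit 4) (.nd (nat_lit 5) 
(.lf (nat_lit 165003) (.g (nat_lit 1309) (.e (nat_lit 57464) (nat_lit 23) (.e (nat_lit 516176) (nat_lit 14) (.e (nat_lit 466981) (nat_lit 23) (.e (nat_lit 204847) (nat_lit 25) .nil)))) .nil)) 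
(.lf (nat_lit 165035) (.g (nat_lit 2849) (.e (nat_lit 57464) (nat_lit 23) (.e (nat_lit 516185) (nat_lit 16) (.e (nat_lit 491558) (nat_lit 10) (.e (nat_lit 344119) (nat_lit 21) (.e (nat_lit 516139) (nat_lit 7) (.e (nat_lit 409616) (nat_lit 10) (.e (nat_lit 7936) (nat_lit 301) .nil))))))) (.g (nat_lit 4) .nil .nil)))) (.nd (nat_lit 5) 
(.lf (nat_lit 165019) (.g (nat_lit 2958) (.e (nat_lit 57464) (nat_lit 23) (.e (nat_lit 516179) (nat_lit 15) (.e (nat_lit 475177) (nat_lit 24) (.e (nat_lit 516171) (nat_lit 13) (.e (nat_lit 458789) (nat_lit 23) (.e (nat_lit 532501) (nat_lit 1) (.e (nat_lit 57754) (nat_lit 209) (.e (nat_lit 1172) (nat_lit 87) .nil)))))))) (.g (nat_lit 5) .nil .nil))) 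
(.lf (nat_lit 165051) (.g (nat_lit 2546) (.e (nat_lit 57464) (nat_lit 23) (.e (nat_lit 516185) (nat_lit 16) (.e (nat_lit 491568) (nat_lit 13) (.e (nat_lit 393225) (nat_lit 9) .nil)))) .nil))))) (.nd (nat_lit 3) (.nd (nat_lit 4) (.nd (nat_lit 5) 
(.lf (nat_lit 164999) (.g (nat_lit 555) (.e (nat_lit 57464) (nat_lit 23) (.e (nat_lit 516176) (nat_lit 14) (.e (nat_lit 466977) (nat_lit 22) .nil))) .nil)) 
(.lf (nat_lit 165031) (.g (nat_lit 3051) (.e (nat_lit 57464) (nat_lit 23) (.e (nat_lit 516185) (nat_lit 16) (.e (nat_lit 491546) (nat_lit 9) (.e (nat_lit 336028) (nat_lit 3) (.e (nat_lit 98350) (nat_lit 24) (.e (nat_lit 409616) (nat_lit 10) (.e (nat_lit 7936) (nat_lit 301) .nil))))))) (.g (nat_lit 4) .nil .nil)))) (.nd (nat_lit 5) 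
(.lf (nat_lit 165015) (.g (nat_lit 2310) (.e (nat_lit 57464) (nat_lit 23) (.e (nat_lit 516179) (nat_lit 15) (.e (nat_lit 475177) (nat_lit 24) (.e (nat_lit 516169) (nat_lit 13) (.e (nat_lit 458789) (nat_lit 23) .nil))))) .nil)) 
(.lf (nat_lit 165047) (.g (nat_lit 4261) (.e (nat_lit 57464) (nat_lit 23) (.e (nat_lit 516185) (nat_lit 16) (.e (nat_lit 491563) (nat_lit 12) (.e (nat_lit 385068) (nat_lit 26) .nil)))) .nil)))) (.nd (nat_lit 4) (.nd (nat_lit 5) 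
(.lf (nat_lit 165007) (.g (nat_lit 1431) (.e (nat_lit 57464) (nat_lit 23) (.e (nat_lit 516177) (nat_lit 14) (.e (nat_lit 466974) (nat_lit 22) (.e (nat_lit 196668) (nat_lit 14) (.e (nat_lit 73762) (nat_lit 16) (.e (nat_lit 622611) (nat_lit 8) .nil)))))) (.g (nat_lit 4) .nil .nil))) 
(.lf (nat_lit 165039) (.g (nat_lit 3329) (.e (nat_lit 57464) (nat_lit 23) (.e (nat_lit 516185) (nat_lit 16) (.e (nat_lit 491560) (nat_lit 10) (.e (nat_lit 344117) (nat_lit 21) (.e (nat_lit 516102) (nat_lit 0) .nil))))) .nil))) (.nd (nat_lit 5) 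
(.lf (nat_lit 165023) (.g (nat_lit 2665) (.e (nat_lit 57464) (nat_lit 23) (.e (nat_lit 516179) (nat_lit 15) (.e (nat_lit 475179) (nat_lit 24) (.e (nat_lit 516171) (nat_lit 13) (.e (nat_lit 458789) (nat_lit 23) .nil))))) .nil)) 
(.lf (nat_lit 165055) (.g (nat_lit 780) (.e (nat_lit 57464) (nat_lit 23) (.e (nat_lit 516185) (nat_lit 16) (.e (nat_lit 491570) (nat_lit 13) .nil))) .nil))))))))

noncomputable def tv2215 : DT := (.nd (nat_lit 0) (.nd (nat_lit 1) (.nd (nat_lit 2) (.nd (nat_lit 3) (.nd (nat_lit 4) (.nd (nat_lit 5) 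
(.lf (nat_lit 165056) (.g (nat_lit 2311) (.e (nat_lit 57464) (nat_lit 23) (.e (nat_lit 516185) (nat_lit 16) (.e (nat_lit 491570) (nat_lit 13) (.e (nat_lit 393225) (nat_lit 9) .nil)))) .nil)) 
(.lf (nat_lit 165088) (.g (nat_lit 2179) (.e (nat_lit 57464) (nat_lit 23) (.e (nat_lit 516195) (nat_lit 26) (.e (nat_lit 336088) (nat_lit 9) (.e (nat_lit 336019) (nat_lit 3) (.e (nat_lit 98386) (nat_lit 32) (.e (nat_lit 475197) (nat_lit 40) (.e (nat_lit 704757) (nat_lit 12) .nil))))))) (.g (nat_lit 4) .nil .nil)))) (.nd (nat_lit 5) 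
(.lf (nat_lit 165072) (.g (nat_lit 2519) (.e (nat_lit 57464) (nat_lit 23) (.e (nat_lit 516195) (nat_lit 26) (.e (nat_lit 336087) (nat_lit 9) (.e (nat_lit 336019) (nat_lit 3) (.e (nat_lit 98384) (nat_lit 32) (.e (nat_lit 483072) (nat_lit 40) (.e (nat_lit 704746) (nat_lit 12) .nil))))))) (.g (nat_lit 5) .nil .nil))) 
(.lf (nat_lit 165104) (.g (nat_lit 2408) (.e (nat_lit 57464) (nat_lit 23) (.e (nat_lit 516195) (nat_lit 26) (.e (nat_lit 336186) (nat_lit 11) (.e (nat_lit 368676) (nat_lit 21) (.e (nat_lit 516179) (nat_lit 15) (.e (nat_lit 475201) (nat_lit 40) (.e (nat_lit 704747) (nat_lit 12) .nil))))))) (.g (nat_lit 5) .nil .nil))))) (.nd (nat_lit 4) (.nd (nat_lit 5) 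
(.lf (nat_lit 165064) (.g (nat_lit 3571) (.e (nat_lit 57464) (nat_lit 23) (.e (nat_lit 516195) (nat_lit 26) (.e (nat_lit 336087) (nat_lit 9) (.e (nat_lit 336019) (nat_lit 3) (.e (nat_lit 98384) (nat_lit 32) (.e (nat_lit 475199) (nat_lit 40) (.e (nat_lit 704758) (nat_lit 12) .nil))))))) (.g (nat_lit 0) .nil .nil))) 
(.lf (nat_lit 165096) (.g (nat_lit 1490) (.e (nat_lit 57464) (nat_lit 23) (.e (nat_lit 516195) (nat_lit 26) (.e (nat_lit 336184) (nat_lit 11) (.e (nat_lit 368676) (nat_lit 21) (.e (nat_lit 516182) (nat_lit 15) (.e (nat_lit 475197) (nat_lit 40) (.e (nat_lit 704757) (nat_lit 12) .nil))))))) (.g (nat_lit 4) .nil .nil)))) (.nd (nat_lit 5) 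
(.lf (nat_lit 165080) (.g (nat_lit 3715) (.e (nat_lit 57464) (nat_lit 23) (.e (nat_lit 516195) (nat_lit 26) (.e (nat_lit 336088) (nat_lit 9) (.e (nat_lit 336019) (nat_lit 3) (.e (nat_lit 98384) (nat_lit 32) (.e (nat_lit 475199) (nat_lit 40) (.e (nat_lit 704757) (nat_lit 12) .nil))))))) (.g (nat_lit 0) .nil .nil))) 
(.lf (nat_lit 165112) (.g (nat_lit 1230) (.e (nat_lit 57464) (nat_lit 23) (.e (nat_lit 516195) (nat_lit 26) (.e (nat_lit 336204) (nat_lit 12) (.e (nat_lit 385074) (nat_lit 31) .nil)))) .nil))))) (.nd (nat_lit 3) (.nd (nat_lit 4) (.nd (nat_lit 5) 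
(.lf (nat_lit 165060) (.g (nat_lit 1156) (.e (nat_lit 57464) (nat_lit 23) (.e (nat_lit 516195) (nat_lit 26) (.e (nat_lit 336076) (nat_lit 9) (.e (nat_lit 336454) (nat_lit 34) .nil)))) .nil)) 
(.lf (nat_lit 165092) (.g (nat_lit 3040) (.e (nat_lit 57464) (nat_lit 23) (.e (nat_lit 516195) (nat_lit 26) (.e (nat_lit 336184) (nat_lit 11) (.e (nat_lit 368676) (nat_lit 21) (.e (nat_lit 516179) (nat_lit 15) (.e (nat_lit 475199) (nat_lit 40) (.e (nat_lit 704758) (nat_lit 12) .nil))))))) (.g (nat_lit 6) .nil .nil)))) (.nd (nat_lit 5) 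
(.lf (nat_lit 165076) (.g (nat_lit 2044) (.e (nat_lit 57464) (nat_lit 23) (.e (nat_lit 516195) (nat_lit 26) (.e (nat_lit 336087) (nat_lit 9) (.e (nat_lit 336019) (nat_lit 3) (.e (nat_lit 98386) (nat_lit 32) (.e (nat_lit 483072) (nat_lit 40) (.e (nat_lit 704744) (nat_lit 12) .nil))))))) (.g (nat_lit 5) .nil .nil))) 
(.lf (nat_lit 165108) (.g (nat_lit 2306) (.e (nat_lit 57464) (nat_lit 23) (.e (nat_lit 516195) (nat_lit 26) (.e (nat_lit 336186) (nat_lit 11) (.e (nat_lit 368676) (nat_lit 21) (.e (nat_lit 516179) (nat_lit 15) (.e (nat_lit 483072) (nat_lit 40) (.e (nat_lit 704746) (nat_lit 12) .nil))))))) (.g (nat_lit 5) .nil .nil))))) (.nd (nat_lit 4) (.nd (nat_lit 5) 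
(.lf (nat_lit 165068) (.g (nat_lit 2666) (.e (nat_lit 57464) (nat_lit 23) (.e (nat_lit 516195) (nat_lit 26) (.e (nat_lit 336087) (nat_lit 9) (.e (nat_lit 336019) (nat_lit 3) (.e (nat_lit 98384) (nat_lit 32) (.e (nat_lit 475203) (nat_lit 40) (.e (nat_lit 704749) (nat_lit 12) .nil))))))) (.g (nat_lit 5) .nil .nil))) 
(.lf (nat_lit 165100) (.g (nat_lit 3544) (.e (nat_lit 57464) (nat_lit 23) (.e (nat_lit 516195) (nat_lit 26) (.e (nat_lit 336186) (nat_lit 11) (.e (nat_lit 368676) (nat_lit 21) (.e (nat_lit 516179) (nat_lit 15) (.e (nat_lit 475198) (nat_lit 40) (.e (nat_lit 704758) (nat_lit 12) .nil))))))) (.g (nat_lit 0) .nil .nil)))) (.nd (nat_lit 5) 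
(.lf (nat_lit 165084) (.g (nat_lit 2984) (.e (nat_lit 57464) (nat_lit 23) (.e (nat_lit 516195) (nat_lit 26) (.e (nat_lit 336088) (nat_lit 9) (.e (nat_lit 336019) (nat_lit 3) (.e (nat_lit 98384) (nat_lit 32) (.e (nat_lit 475203) (nat_lit 40) (.e (nat_lit 704749) (nat_lit 12) .nil))))))) (.g (nat_lit 5) .nil .nil))) 
(.lf (nat_lit 165116) (.g (nat_lit 2852) (.e (nat_lit 57464) (nat_lit 23) (.e (nat_lit 516195) (nat_lit 26) (.e (nat_lit 336204) (nat_lit 12) (.e (nat_lit 385074) (nat_lit 31) (.e (nat_lit 573482) (nat_lit 13) (.e (nat_lit 73472) (nat_lit 23) (.e (nat_lit 253993) (nat_lit 12) .nil))))))) (.g (nat_lit 5) .nil .nil))))))) (.nd (nat_lit 2) (.nd (nat_lit 3) (.nd (nat_lit 4) (.nd (nat_lit 5) 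
(.lf (nat_lit 165058) (.g (nat_lit 3120) (.e (nat_lit 57464) (nat_lit 23) (.e (nat_lit 516185) (nat_lit 16) (.e (nat_lit 491570) (nat_lit 13) (.e (nat_lit 393238) (nat_lit 17) (.e (nat_lit 3572) (nat_lit 222) .nil))))) .nil)) 
(.lf (nat_lit 165090) (.g (nat_lit 3454) (.e (nat_lit 57464) (nat_lit 23) (.e (nat_lit 516195) (nat_lit 26) (.e (nat_lit 336184) (nat_lit 11) (.e (nat_lit 368676) (nat_lit 21) (.e (nat_lit 516179) (nat_lit 15) (.e (nat_lit 475198) (nat_lit 40) (.e (nat_lit 704757) (nat_lit 12) .nil))))))) (.g (nat_lit 7) .nil .nil)))) (.nd (nat_lit 5) 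
(.lf (nat_lit 165074) (.g (nat_lit 1818) (.e (nat_lit 57464) (nat_lit 23) (.e (nat_lit 516195) (nat_lit 26) (.e (nat_lit 336087) (nat_lit 9) (.e (nat_lit 336019) (nat_lit 3) (.e (nat_lit 98386) (nat_lit 32) (.e (nat_lit 475197) (nat_lit 40) (.e (nat_lit 704757) (nat_lit 12) .nil))))))) (.g (nat_lit 4) .nil .nil))) 
(.lf (nat_lit 165106) (.g (nat_lit 2568) (.e (nat_lit 57464) (nat_lit 23) (.e (nat_lit 516195) (nat_lit 26) (.e (nat_lit 336186) (nat_lit 11) (.e (nat_lit 368676) (nat_lit 21) (.e (nat_lit 516179) (nat_lit 15) (.e (nat_lit 475205) (nat_lit 40) (.e (nat_lit 704756) (nat_lit 12) .nil))))))) (.g (nat_lit 6) .nil .nil))))) (.nd (nat_lit 4) (.nd (nat_lit 5) 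
(.lf (nat_lit 165066) (.g (nat_lit 3292) (.e (nat_lit 57464) (nat_lit 23) (.e (nat_lit 516195) (nat_lit 26) (.e (nat_lit 336087) (nat_lit 9) (.e (nat_lit 336019) (nat_lit 3) (.e (nat_lit 98384) (nat_lit 32) (.e (nat_lit 475201) (nat_lit 40) (.e (nat_lit 704748) (nat_lit 12) .nil))))))) (.g (nat_lit 6) .nil .nil))) 
(.lf (nat_lit 165098) (.g (nat_lit 2634) (.e (nat_lit 57464) (nat_lit 23) (.e (nat_lit 516195) (nat_lit 26) (.e (nat_lit 336186) (nat_lit 11) (.e (nat_lit 368676) (nat_lit 21) (.e (nat_lit 516171) (nat_lit 13) (.e (nat_lit 458804) (nat_lit 38) (.e (nat_lit 655396) (nat_lit 12) .nil))))))) (.g (nat_lit 6) .nil .nil)))) (.nd (nat_lit 5) 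
(.lf (nat_lit 165082) (.g (nat_lit 3688) (.e (nat_lit 57464) (nat_lit 23) (.e (nat_lit 516195) (nat_lit 26) (.e (nat_lit 336088) (nat_lit 9) (.e (nat_lit 336019) (nat_lit 3) (.e (nat_lit 98384) (nat_lit 32) (.e (nat_lit 475201) (nat_lit 40) (.e (nat_lit 704743) (nat_lit 12) .nil))))))) (.g (nat_lit 7) .nil .nil))) 
(.lf (nat_lit 165114) (.g (nat_lit 3219) (.e (nat_lit 57464) (nat_lit 23) (.e (nat_lit 516195) (nat_lit 26) (.e (nat_lit 336204) (nat_lit 12) (.e (nat_lit 385074) (nat_lit 31) (.e (nat_lit 573482) (nat_lit 13) (.e (nat_lit 65645) (nat_lit 23) (.e (nat_lit 253994) (nat_lit 12) .nil))))))) (.g (nat_lit 5) .nil .nil)))))) (.nd (nat_lit 3) (.nd (nat_lit 4) (.nd (nat_lit 5) 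
(.lf (nat_lit 165062) (.g (nat_lit 3331) (.e (nat_lit 57464) (nat_lit 23) (.e (nat_lit 516195) (nat_lit 26) (.e (nat_lit 336087) (nat_lit 9) (.e (nat_lit 336019) (nat_lit 3) (.e (nat_lit 98384) (nat_lit 32) (.e (nat_lit 475198) (nat_lit 40) (.e (nat_lit 704758) (nat_lit 12) .nil))))))) (.g (nat_lit 0) .nil .nil))) 
(.lf (nat_lit 165094) (.g (nat_lit 2226) (.e (nat_lit 57464) (nat_lit 23) (.e (nat_lit 516195) (nat_lit 26) (.e (nat_lit 336184) (nat_lit 11) (.e (nat_lit 368676) (nat_lit 21) (.e (nat_lit 516179) (nat_lit 15) (.e (nat_lit 475201) (nat_lit 40) (.e (nat_lit 704747) (nat_lit 12) .nil))))))) (.g (nat_lit 5) .nil .nil)))) (.nd (nat_lit 5) 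
(.lf (nat_lit 165078) (.g (nat_lit 3681) (.e (nat_lit 57464) (nat_lit 23) (.e (nat_lit 516195) (nat_lit 26) (.e (nat_lit 336088) (nat_lit 9) (.e (nat_lit 336019) (nat_lit 3) (.e (nat_lit 98384) (nat_lit 32) (.e (nat_lit 475198) (nat_lit 40) (.e (nat_lit 704757) (nat_lit 12) .nil))))))) (.g (nat_lit 0) .nil .nil))) 
(.lf (nat_lit 165110) (.g (nat_lit 1657) (.e (nat_lit 57464) (nat_lit 23) (.e (nat_lit 516195) (nat_lit 26) (.e (nat_lit 336186) (nat_lit 11) (.e (nat_lit 368676) (nat_lit 21) (.e (nat_lit 516182) (nat_lit 15) (.e (nat_lit 475197) (nat_lit 40) (.e (nat_lit 704757) (nat_lit 12) .nil))))))) (.g (nat_lit 4) .nil .nil))))) (.nd (nat_lit 4) (.nd (nat_lit 5) 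
(.lf (nat_lit 165070) (.g (nat_lit 2561) (.e (nat_lit 57464) (nat_lit 23) (.e (nat_lit 516195) (nat_lit 26) (.e (nat_lit 336087) (nat_lit 9) (.e (nat_lit 336019) (nat_lit 3) (.e (nat_lit 98384) (nat_lit 32) (.e (nat_lit 483072) (nat_lit 40) (.e (nat_lit 704744) (nat_lit 12) .nil))))))) (.g (nat_lit 5) .nil .nil))) 
(.lf (nat_lit 165102) (.g (nat_lit 3274) (.e (nat_lit 57464) (nat_lit 23) (.e (nat_lit 516195) (nat_lit 26) (.e (nat_lit 336186) (nat_lit 11) (.e (nat_lit 368676) (nat_lit 21) (.e (nat_lit 516179) (nat_lit 15) (.e (nat_lit 475199) (nat_lit 40) (.e (nat_lit 704758) (nat_lit 12) .nil))))))) (.g (nat_lit 6) .nil .nil)))) (.nd (nat_lit 5) 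
(.lf (nat_lit 165086) (.g (nat_lit 2836) (.e (nat_lit 57464) (nat_lit 23) (.e (nat_lit 516195) (nat_lit 26) (.e (nat_lit 336088) (nat_lit 9) (.e (nat_lit 336019) (nat_lit 3) (.e (nat_lit 98384) (nat_lit 32) (.e (nat_lit 483072) (nat_lit 40) (.e (nat_lit 704746) (nat_lit 12) .nil))))))) (.g (nat_lit 5) .nil .nil))) 
(.lf (nat_lit 165118) (.g (nat_lit 396) (.e (nat_lit 57464) (nat_lit 23) (.e (nat_lit 516195) (nat_lit 26) (.e (nat_lit 336223) (nat_lit 13) .nil))) .nil))))))) (.nd (nat_lit 1) (.nd (nat_lit 2) (.nd (nat_lit 3) (.nd (nat_lit 4) (.nd (nat_lit 5) 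
(.lf (nat_lit 165057) (.g (nat_lit 1831) (.e (nat_lit 57464) (nat_lit 23) (.e (nat_lit 516185) (nat_lit 16) (.e (nat_lit 491570) (nat_lit 13) (.e (nat_lit 393238) (nat_lit 17) .nil)))) .nil)) 
(.lf (nat_lit 165089) (.g (nat_lit 2595) (.e (nat_lit 57464) (nat_lit 23) (.e (nat_lit 516195) (nat_lit 26) (.e (nat_lit 336184) (nat_lit 11) (.e (nat_lit 368676) (nat_lit 21) (.e (nat_lit 516171) (nat_lit 13) (.e (nat_lit 458804) (nat_lit 38) (.e (nat_lit 655396) (nat_lit 12) .nil))))))) (.g (nat_lit 6) .nil .nil)))) (.nd (nat_lit 5) 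
(.lf (nat_lit 165073) (.g (nat_lit 1469) (.e (nat_lit 57464) (nat_lit 23) (.e (nat_lit 516195) (nat_lit 26) (.e (nat_lit 336087) (nat_lit 9) (.e (nat_lit 336019) (nat_lit 3) (.e (nat_lit 98386) (nat_lit 32) .nil))))) .nil)) 
(.lf (nat_lit 165105) (.g (nat_lit 2613) (.e (nat_lit 57464) (nat_lit 23) (.e (nat_lit 516195) (nat_lit 26) (.e (nat_lit 336186) (nat_lit 11) (.e (nat_lit 368676) (nat_lit 21) (.e (nat_lit 516179) (nat_lit 15) (.e (nat_lit 475201) (nat_lit 40) (.e (nat_lit 704748) (nat_lit 12) .nil))))))) (.g (nat_lit 6) .nil .nil))))) (.nd (nat_lit 4) (.nd (nat_lit 5) 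
(.lf (nat_lit 165065) (.g (nat_lit 3331) (.e (nat_lit 57464) (nat_lit 23) (.e (nat_lit 516195) (nat_lit 26) (.e (nat_lit 336087) (nat_lit 9) (.e (nat_lit 336019) (nat_lit 3) (.e (nat_lit 98384) (nat_lit 32) (.e (nat_lit 475201) (nat_lit 40) (.e (nat_lit 704743) (nat_lit 12) .nil))))))) (.g (nat_lit 7) .nil .nil))) 
(.lf (nat_lit 165097) (.g (nat_lit 1436) (.e (nat_lit 57464) (nat_lit 23) (.e (nat_lit 516195) (nat_lit 26) (.e (nat_lit 336184) (nat_lit 11) (.e (nat_lit 368676) (nat_lit 21) (.e (nat_lit 516182) (nat_lit 15) (.e (nat_lit 475197) (nat_lit 40) (.e (nat_lit 704758) (nat_lit 12) .nil))))))) (.g (nat_lit 4) .nil .nil)))) (.nd (nat_lit 5) 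
(.lf (nat_lit 165081) (.g (nat_lit 3910) (.e (nat_lit 57464) (nat_lit 23) (.e (nat_lit 516195) (nat_lit 26) (.e (nat_lit 336088) (nat_lit 9) (.e (nat_lit 336019) (nat_lit 3) (.e (nat_lit 98384) (nat_lit 32) (.e (nat_lit 475199) (nat_lit 40) (.e (nat_lit 704758) (nat_lit 12) .nil))))))) (.g (nat_lit 0) .nil .nil))) 
(.lf (nat_lit 165113) (.g (nat_lit 2033) (.e (nat_lit 57464) (nat_lit 23) (.e (nat_lit 516195) (nat_lit 26) (.e (nat_lit 336204) (nat_lit 12) (.e (nat_lit 385074) (nat_lit 31) (.e (nat_lit 573482) (nat_lit 13) .nil))))) .nil))))) (.nd (nat_lit 3) (.nd (nat_lit 4) (.nd (nat_lit 5) 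
(.lf (nat_lit 165061) (.g (nat_lit 3331) (.e (nat_lit 57464) (nat_lit 23) (.e (nat_lit 516195) (nat_lit 26) (.e (nat_lit 336087) (nat_lit 9) (.e (nat_lit 336019) (nat_lit 3) (.e (nat_lit 98384) (nat_lit 32) (.e (nat_lit 475198) (nat_lit 40) (.e (nat_lit 704757) (nat_lit 12) .nil))))))) (.g (nat_lit 0) .nil .nil))) 
(.lf (nat_lit 165093) (.g (nat_lit 2709) (.e (nat_lit 57464) (nat_lit 23) (.e (nat_lit 516195) (nat_lit 26) (.e (nat_lit 336184) (nat_lit 11) (.e (nat_lit 368676) (nat_lit 21) (.e (nat_lit 516179) (nat_lit 15) (.e (nat_lit 475201) (nat_lit 40) (.e (nat_lit 704743) (nat_lit 12) .nil))))))) (.g (nat_lit 6) .nil .nil)))) (.nd (nat_lit 5) 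
(.lf (nat_lit 165077) (.g (nat_lit 1843) (.e (nat_lit 57464) (nat_lit 23) (.e (nat_lit 516195) (nat_lit 26) (.e (nat_lit 336088) (nat_lit 9) (.e (nat_lit 336019) (nat_lit 3) (.e (nat_lit 98384) (nat_lit 32) .nil))))) .nil)) 
(.lf (nat_lit 165109) (.g (nat_lit 1611) (.e (nat_lit 57464) (nat_lit 23) (.e (nat_lit 516195) (nat_lit 26) (.e (nat_lit 336186) (nat_lit 11) (.e (nat_lit 368676) (nat_lit 21) (.e (nat_lit 516181) (nat_lit 15) .nil))))) .nil)))) (.nd (nat_lit 4) (.nd (nat_lit 5) 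
(.lf (nat_lit 165069) (.g (nat_lit 3255) (.e (nat_lit 57464) (nat_lit 23) (.e (nat_lit 516195) (nat_lit 26) (.e (nat_lit 336087) (nat_lit 9) (.e (nat_lit 336019) (nat_lit 3) (.e (nat_lit 98384) (nat_lit 32) (.e (nat_lit 475205) (nat_lit 40) (.e (nat_lit 704756) (nat_lit 12) .nil))))))) (.g (nat_lit 0) .nil .nil))) 
(.lf (nat_lit 165101) (.g (nat_lit 3335) (.e (nat_lit 57464) (nat_lit 23) (.e (nat_lit 516195) (nat_lit 26) (.e (nat_lit 336186) (nat_lit 11) (.e (nat_lit 368676) (nat_lit 21) (.e (nat_lit 516179) (nat_lit 15) (.e (nat_lit 475199) (nat_lit 40) (.e (nat_lit 704757) (nat_lit 12) .nil))))))) (.g (nat_lit 7) .nil .nil)))) (.nd (nat_lit 5) 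
(.lf (nat_lit 165085) (.g (nat_lit 2880) (.e (nat_lit 57464) (nat_lit 23) (.e (nat_lit 516195) (nat_lit 26) (.e (nat_lit 336088) (nat_lit 9) (.e (nat_lit 336019) (nat_lit 3) (.e (nat_lit 98384) (nat_lit 32) (.e (nat_lit 483072) (nat_lit 40) (.e (nat_lit 704744) (nat_lit 12) .nil))))))) (.g (nat_lit 5) .nil .nil))) 
(.lf (nat_lit 165117) (.g (nat_lit 1418) (.e (nat_lit 57464) (nat_lit 23) (.e (nat_lit 516195) (nat_lit 26) (.e (nat_lit 336215) (nat_lit 13) (.e (nat_lit 393229) (nat_lit 9) .nil)))) .nil)))))) (.nd (nat_lit 2) (.nd (nat_lit 3) (.nd (nat_lit 4) (.nd (nat_lit 5) 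
(.lf (nat_lit 165059) (.g (nat_lit 1747) (.e (nat_lit 57464) (nat_lit 23) (.e (nat_lit 516195) (nat_lit 26) (.e (nat_lit 336027) (nat_lit 3) (.e (nat_lit 98321) (nat_lit 17) .nil)))) .nil)) 
(.lf (nat_lit 165091) (.g (nat_lit 3090) (.e (nat_lit 57464) (nat_lit 23) (.e (nat_lit 516195) (nat_lit 26) (.e (nat_lit 336184) (nat_lit 11) (.e (nat_lit 368676) (nat_lit 21) (.e (nat_lit 516179) (nat_lit 15) (.e (nat_lit 475199) (nat_lit 40) (.e (nat_lit 704757) (nat_lit 12) .nil))))))) (.g (nat_lit 6) .nil .nil)))) (.nd (nat_lit 5) 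
(.lf (nat_lit 165075) (.g (nat_lit 1648) (.e (nat_lit 57464) (nat_lit 23) (.e (nat_lit 516195) (nat_lit 26) (.e (nat_lit 336087) (nat_lit 9) (.e (nat_lit 336019) (nat_lit 3) (.e (nat_lit 98386) (nat_lit 32) (.e (nat_lit 475205) (nat_lit 40) (.e (nat_lit 704756) (nat_lit 12) .nil))))))) (.g (nat_lit 4) .nil .nil))) 
(.lf (nat_lit 165107) (.g (nat_lit 2350) (.e (nat_lit 57464) (nat_lit 23) (.e (nat_lit 516195) (nat_lit 26) (.e (nat_lit 336186) (nat_lit 11) (.e (nat_lit 368676) (nat_lit 21) (.e (nat_lit 516179) (nat_lit 15) (.e (nat_lit 483072) (nat_lit 40) (.e (nat_lit 704744) (nat_lit 12) .nil))))))) (.g (nat_lit 5) .nil .nil))))) (.nd (nat_lit 4) (.nd (nat_lit 5) 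
(.lf (nat_lit 165067) (.g (nat_lit 2954) (.e (nat_lit 57464) (nat_lit 23) (.e (nat_lit 516195) (nat_lit 26) (.e (nat_lit 336087) (nat_lit 9) (.e (nat_lit 336019) (nat_lit 3) (.e (nat_lit 98384) (nat_lit 32) (.e (nat_lit 475201) (nat_lit 40) (.e (nat_lit 704749) (nat_lit 12) .nil))))))) (.g (nat_lit 6) .nil .nil))) 
(.lf (nat_lit 165099) (.g (nat_lit 3612) (.e (nat_lit 57464) (nat_lit 23) (.e (nat_lit 516195) (nat_lit 26) (.e (nat_lit 336186) (nat_lit 11) (.e (nat_lit 368676) (nat_lit 21) (.e (nat_lit 516179) (nat_lit 15) (.e (nat_lit 475198) (nat_lit 40) (.e (nat_lit 704757) (nat_lit 12) .nil))))))) (.g (nat_lit 0) .nil .nil)))) (.nd (nat_lit 5) 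
(.lf (nat_lit 165083) (.g (nat_lit 3648) (.e (nat_lit 57464) (nat_lit 23) (.e (nat_lit 516195) (nat_lit 26) (.e (nat_lit 336088) (nat_lit 9) (.e (nat_lit 336019) (nat_lit 3) (.e (nat_lit 98384) (nat_lit 32) (.e (nat_lit 475201) (nat_lit 40) (.e (nat_lit 704748) (nat_lit 12) .nil))))))) (.g (nat_lit 6) .nil .nil))) 
(.lf (nat_lit 165115) (.g (nat_lit 3485) (.e (nat_lit 57464) (nat_lit 23) (.e (nat_lit 516195) (nat_lit 26) (.e (nat_lit 336204) (nat_lit 12) (.e (nat_lit 385074) (nat_lit 31) (.e (nat_lit 573482) (nat_lit 13) (.e (nat_lit 65645) (nat_lit 23) (.e (nat_lit 253996) (nat_lit 12) .nil))))))) (.g (nat_lit 6) .nil .nil)))))) (.nd (nat_lit 3) (.nd (nat_lit 4) (.nd (nat_lit 5) 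
(.lf (nat_lit 165063) (.g (nat_lit 3376) (.e (nat_lit 57464) (nat_lit 23) (.e (nat_lit 516195) (nat_lit 26) (.e (nat_lit 336087) (nat_lit 9) (.e (nat_lit 336019) (nat_lit 3) (.e (nat_lit 98384) (nat_lit 32) (.e (nat_lit 475199) (nat_lit 40) (.e (nat_lit 704757) (nat_lit 12) .nil))))))) (.g (nat_lit 0) .nil .nil))) 
(.lf (nat_lit 165095) (.g (nat_lit 2305) (.e (nat_lit 57464) (nat_lit 23) (.e (nat_lit 516195) (nat_lit 26) (.e (nat_lit 336184) (nat_lit 11) (.e (nat_lit 368676) (nat_lit 21) (.e (nat_lit 516179) (nat_lit 15) (.e (nat_lit 475205) (nat_lit 40) (.e (nat_lit 704756) (nat_lit 12) .nil))))))) (.g (nat_lit 5) .nil .nil)))) (.nd (nat_lit 5) 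
(.lf (nat_lit 165079) (.g (nat_lit 3681) (.e (nat_lit 57464) (nat_lit 23) (.e (nat_lit 516195) (nat_lit 26) (.e (nat_lit 336088) (nat_lit 9) (.e (nat_lit 336019) (nat_lit 3) (.e (nat_lit 98384) (nat_lit 32) (.e (nat_lit 475198) (nat_lit 40) (.e (nat_lit 704758) (nat_lit 12) .nil))))))) (.g (nat_lit 0) .nil .nil))) 
(.lf (nat_lit 165111) (.g (nat_lit 1592) (.e (nat_lit 57464) (nat_lit 23) (.e (nat_lit 516195) (nat_lit 26) (.e (nat_lit 336186) (nat_lit 11) (.e (nat_lit 368676) (nat_lit 21) (.e (nat_lit 516182) (nat_lit 15) (.e (nat_lit 475197) (nat_lit 40) (.e (nat_lit 704758) (nat_lit 12) .nil))))))) (.g (nat_lit 4) .nil .nil))))) (.nd (nat_lit 4) (.nd (nat_lit 5) 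
(.lf (nat_lit 165071) (.g (nat_lit 2407) (.e (nat_lit 57464) (nat_lit 23) (.e (nat_lit 516195) (nat_lit 26) (.e (nat_lit 336087) (nat_lit 9) (.e (nat_lit 336019) (nat_lit 3) (.e (nat_lit 98384) (nat_lit 32) (.e (nat_lit 483072) (nat_lit 40) (.e (nat_lit 704745) (nat_lit 12) .nil))))))) (.g (nat_lit 5) .nil .nil))) 
(.lf (nat_lit 165103) (.g (nat_lit 2891) (.e (nat_lit 57464) (nat_lit 23) (.e (nat_lit 516195) (nat_lit 26) (.e (nat_lit 336186) (nat_lit 11) (.e (nat_lit 368676) (nat_lit 21) (.e (nat_lit 516179) (nat_lit 15) (.e (nat_lit 475201) (nat_lit 40) (.e (nat_lit 704743) (nat_lit 12) .nil))))))) (.g (nat_lit 6) .nil .nil)))) (.nd (nat_lit 5) 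
(.lf (nat_lit 165087) (.g (nat_lit 1842) (.e (nat_lit 57464) (nat_lit 23) (.e (nat_lit 516195) (nat_lit 26) (.e (nat_lit 336088) (nat_lit 9) (.e (nat_lit 336019) (nat_lit 3) (.e (nat_lit 98386) (nat_lit 32) .nil))))) .nil)) 
(.lf (nat_lit 165119) (.g (nat_lit 1298) (.e (nat_lit 57464) (nat_lit 23) (.e (nat_lit 516195) (nat_lit 26) (.e (nat_lit 336223) (nat_lit 13) (.e (nat_lit 393229) (nat_lit 9) .nil)))) .nil))))))))

noncomputable def tv2216 : DT := (.nd (nat_lit 0) (.nd (nat_lit 1) (.nd (nat_lit 2) (.nd (nat_lit 3) (.nd (nat_lit 4) (.nd (nat_lit 5) 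
(.lf (nat_lit 165120) (.g (nat_lit 1954) (.e (nat_lit 57464) (nat_lit 23) (.e (nat_lit 516195) (nat_lit 26) (.e (nat_lit 336223) (nat_lit 13) (.e (nat_lit 393229) (nat_lit 9) (.e (nat_lit 335995) (nat_lit 1) .nil))))) .nil)) 
(.lf (nat_lit 165152) (.g (nat_lit 2752) (.e (nat_lit 57465) (nat_lit 23) (.e (nat_lit 516115) (nat_lit 1) (.e (nat_lit 164399) (nat_lit 256) (.e (nat_lit 57372) (nat_lit 2) (.e (nat_lit 90174) (nat_lit 14) (.e (nat_lit 180243) (nat_lit 5) (.e (nat_lit 532508) (nat_lit 2) (.e (nat_lit 106537) (nat_lit 12) .nil)))))))) (.g (nat_lit 5) .nil .nil)))) (.nd (nat_lit 5) 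
(.lf (nat_lit 165136) (.g (nat_lit 3171) (.e (nat_lit 57465) (nat_lit 23) (.e (nat_lit 516115) (nat_lit 1) (.e (nat_lit 164398) (nat_lit 256) (.e (nat_lit 57373) (nat_lit 2) (.e (nat_lit 90174) (nat_lit 14) (.e (nat_lit 180243) (nat_lit 5) (.e (nat_lit 532511) (nat_lit 2) (.e (nat_lit 106538) (nat_lit 12) .nil)))))))) (.g (nat_lit 5) .nil .nil))) 
(.lf (nat_lit 165168) (.g (nat_lit 2418) (.e (nat_lit 57465) (nat_lit 23) (.e (nat_lit 516115) (nat_lit 1) (.e (nat_lit 164403) (nat_lit 256) (.e (nat_lit 57371) (nat_lit 2) (.e (nat_lit 90174) (nat_lit 14) .nil))))) .nil)))) (.nd (nat_lit 4) (.nd (nat_lit 5) 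
(.lf (nat_lit 165128) (.g (nat_lit 1778) (.e (nat_lit 57464) (nat_lit 23) (.e (nat_lit 524032) (nat_lit 29) (.e (nat_lit 360466) (nat_lit 3) (.e (nat_lit 516179) (nat_lit 15) (.e (nat_lit 475205) (nat_lit 40) (.e (nat_lit 704756) (nat_lit 12) .nil)))))) (.g (nat_lit 5) .nil .nil))) 
(.lf (nat_lit 165160) (.g (nat_lit 4221) (.e (nat_lit 57465) (nat_lit 23) (.e (nat_lit 516115) (nat_lit 1) (.e (nat_lit 164399) (nat_lit 256) (.e (nat_lit 57373) (nat_lit 2) (.e (nat_lit 90174) (nat_lit 14) (.e (nat_lit 180243) (nat_lit 5) (.e (nat_lit 532511) (nat_lit 2) (.e (nat_lit 106538) (nat_lit 12) .nil)))))))) (.g (nat_lit 7) .nil .nil)))) (.nd (nat_lit 5) 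
(.lf (nat_lit 165144) (.g (nat_lit 2255) (.e (nat_lit 57465) (nat_lit 23) (.e (nat_lit 516115) (nat_lit 1) (.e (nat_lit 164399) (nat_lit 256) (.e (nat_lit 57372) (nat_lit 2) (.e (nat_lit 90167) (nat_lit 13) (.e (nat_lit 172065) (nat_lit 3) (.e (nat_lit 204834) (nat_lit 19) (.e (nat_lit 106538) (nat_lit 12) .nil)))))))) (.g (nat_lit 4) .nil .nil))) 
(.lf (nat_lit 165176) (.g (nat_lit 2323) (.e (nat_lit 57465) (nat_lit 23) (.e (nat_lit 516117) (nat_lit 1) (.e (nat_lit 164398) (nat_lit 256) (.e (nat_lit 57373) (nat_lit 2) (.e (nat_lit 90174) (nat_lit 14) (.e (nat_lit 180243) (nat_lit 5) (.e (nat_lit 532510) (nat_lit 2) (.e (nat_lit 106537) (nat_lit 12) .nil)))))))) (.g (nat_lit 4) .nil .nil)))))) 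
(.nd (nat_lit 3) (.nd (nat_lit 4) (.nd (nat_lit 5) 
(.lf (nat_lit 165124) (.g (nat_lit 3145) (.e (nat_lit 57464) (nat_lit 23) (.e (nat_lit 516195) (nat_lit 26) (.e (nat_lit 336223) (nat_lit 13) (.e (nat_lit 393258) (nat_lit 20) (.e (nat_lit 253994) (nat_lit 12) (.e (nat_lit 57521) (nat_lit 44) (.e (nat_lit 688168) (nat_lit 15) .nil))))))) (.g (nat_lit 6) .nil .nil))) 
(.lf (nat_lit 165156) (.g (nat_lit 3667) (.e (nat_lit 57465) (nat_lit 23) (.e (nat_lit 516115) (nat_lit 1) (.e (nat_lit 164399) (nat_lit 256) (.e (nat_lit 57373) (nat_lit 2) (.e (nat_lit 90174) (nat_lit 14) (.e (nat_lit 180243) (nat_lit 5) (.e (nat_lit 532506) (nat_lit 2) (.e (nat_lit 106539) (nat_lit 12) .nil)))))))) (.g (nat_lit 6) .nil .nil)))) (.nd (nat_lit 5) 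
(.lf (nat_lit 165140) (.g (nat_lit 665) (.e (nat_lit 57465) (nat_lit 23) (.e (nat_lit 516115) (nat_lit 1) (.e (nat_lit 164399) (nat_lit 256) .nil))) .nil)) 
(.lf (nat_lit 165172) (.g (nat_lit 3783) (.e (nat_lit 57465) (nat_lit 23) (.e (nat_lit 516115) (nat_lit 1) (.e (nat_lit 164403) (nat_lit 256) (.e (nat_lit 57373) (nat_lit 2) (.e (nat_lit 90174) (nat_lit 14) (.e (nat_lit 180243) (nat_lit 5) (.e (nat_lit 532508) (nat_lit 2) (.e (nat_lit 106538) (nat_lit 12) .nil)))))))) (.g (nat_lit 5) .nil .nil))))) (.nd (nat_lit 4) (.nd (nat_lit 5) 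
(.lf (nat_lit 165132) (.g (nat_lit 2240) (.e (nat_lit 57465) (nat_lit 23) (.e (nat_lit 516115) (nat_lit 1) (.e (nat_lit 164325) (nat_lit 230) (.e (nat_lit 163866) (nat_lit 2) .nil)))) .nil)) 
(.lf (nat_lit 165164) (.g (nat_lit 3454) (.e (nat_lit 57465) (nat_lit 23) (.e (nat_lit 516115) (nat_lit 1) (.e (nat_lit 164399) (nat_lit 256) (.e (nat_lit 57374) (nat_lit 2) (.e (nat_lit 90170) (nat_lit 13) (.e (nat_lit 172067) (nat_lit 3) (.e (nat_lit 204834) (nat_lit 19) (.e (nat_lit 106539) (nat_lit 12) .nil)))))))) (.g (nat_lit 5) .nil .nil)))) (.nd (nat_lit 5) 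
(.lf (nat_lit 165148) (.g (nat_lit 3339) (.e (nat_lit 57465) (nat_lit 23) (.e (nat_lit 516115) (nat_lit 1) (.e (nat_lit 164399) (nat_lit 256) (.e (nat_lit 57372) (nat_lit 2) (.e (nat_lit 90172) (nat_lit 14) (.e (nat_lit 180243) (nat_lit 5) (.e (nat_lit 532508) (nat_lit 2) (.e (nat_lit 106539) (nat_lit 12) .nil)))))))) (.g (nat_lit 5) .nil .nil))) 
(.lf (nat_lit 165180) (.g (nat_lit 921) (.e (nat_lit 57465) (nat_lit 23) (.e (nat_lit 516117) (nat_lit 1) (.e (nat_lit 164399) (nat_lit 256) .nil))) .nil)))))) (.nd (nat_lit 2) (.nd (nat_lit 3) (.nd (nat_lit 4) (.nd (nat_lit 5) 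
(.lf (nat_lit 165122) (.g (nat_lit 2374) (.e (nat_lit 57464) (nat_lit 23) (.e (nat_lit 516195) (nat_lit 26) (.e (nat_lit 336223) (nat_lit 13) (.e (nat_lit 393234) (nat_lit 17) (.e (nat_lit 3542) (nat_lit 218) (.e (nat_lit 704744) (nat_lit 12) (.e (nat_lit 57521) (nat_lit 44) (.e (nat_lit 688168) (nat_lit 15) .nil)))))))) (.g (nat_lit 5) .nil .nil))) 
(.lf (nat_lit 165154) (.g (nat_lit 3428) (.e (nat_lit 57465) (nat_lit 23) (.e (nat_lit 516115) (nat_lit 1) (.e (nat_lit 164399) (nat_lit 256) (.e (nat_lit 57373) (nat_lit 2) (.e (nat_lit 90170) (nat_lit 13) (.e (nat_lit 172065) (nat_lit 3) (.e (nat_lit 204834) (nat_lit 19) (.e (nat_lit 106539) (nat_lit 12) .nil)))))))) (.g (nat_lit 7) .nil .nil)))) (.nd (nat_lit 5) 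
(.lf (nat_lit 165138) (.g (nat_lit 2526) (.e (nat_lit 57465) (nat_lit 23) (.e (nat_lit 516115) (nat_lit 1) (.e (nat_lit 164398) (nat_lit 256) (.e (nat_lit 57379) (nat_lit 3) (.e (nat_lit 98366) (nat_lit 27) .nil))))) .nil)) 
(.lf (nat_lit 165170) (.g (nat_lit 2582) (.e (nat_lit 57465) (nat_lit 23) (.e (nat_lit 516115) (nat_lit 1) (.e (nat_lit 164403) (nat_lit 256) (.e (nat_lit 57373) (nat_lit 2) (.e (nat_lit 90170) (nat_lit 13) .nil))))) .nil)))) (.nd (nat_lit 4) (.nd (nat_lit 5) 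
(.lf (nat_lit 165130) (.g (nat_lit 3723) (.e (nat_lit 57465) (nat_lit 23) (.e (nat_lit 516115) (nat_lit 1) (.e (nat_lit 164325) (nat_lit 230) (.e (nat_lit 163861) (nat_lit 1) (.e (nat_lit 164398) (nat_lit 256) .nil))))) .nil)) 
(.lf (nat_lit 165162) (.g (nat_lit 3619) (.e (nat_lit 57465) (nat_lit 23) (.e (nat_lit 516115) (nat_lit 1) (.e (nat_lit 164399) (nat_lit 256) (.e (nat_lit 57374) (nat_lit 2) (.e (nat_lit 90170) (nat_lit 13) (.e (nat_lit 172065) (nat_lit 3) (.e (nat_lit 204834) (nat_lit 19) (.e (nat_lit 106538) (nat_lit 12) .nil)))))))) (.g (nat_lit 5) .nil .nil)))) (.nd (nat_lit 5) 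
(.lf (nat_lit 165146) (.g (nat_lit 2159) (.e (nat_lit 57465) (nat_lit 23) (.e (nat_lit 516115) (nat_lit 1) (.e (nat_lit 164399) (nat_lit 256) (.e (nat_lit 57372) (nat_lit 2) (.e (nat_lit 90172) (nat_lit 14) .nil))))) .nil)) 
(.lf (nat_lit 165178) (.g (nat_lit 2610) (.e (nat_lit 57465) (nat_lit 23) (.e (nat_lit 516117) (nat_lit 1) (.e (nat_lit 164398) (nat_lit 256) (.e (nat_lit 57379) (nat_lit 3) (.e (nat_lit 98366) (nat_lit 27) .nil))))) .nil))))) (.nd (nat_lit 3) (.nd (nat_lit 4) (.nd (nat_lit 5) 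
(.lf (nat_lit 165126) (.g (nat_lit 1599) (.e (nat_lit 57464) (nat_lit 23) (.e (nat_lit 524032) (nat_lit 29) (.e (nat_lit 360466) (nat_lit 3) (.e (nat_lit 516179) (nat_lit 15) (.e (nat_lit 475201) (nat_lit 40) (.e (nat_lit 704743) (nat_lit 12) .nil)))))) (.g (nat_lit 5) .nil .nil))) 
(.lf (nat_lit 165158) (.g (nat_lit 4188) (.e (nat_lit 57465) (nat_lit 23) (.e (nat_lit 516115) (nat_lit 1) (.e (nat_lit 164399) (nat_lit 256) (.e (nat_lit 57373) (nat_lit 2) (.e (nat_lit 90174) (nat_lit 14) (.e (nat_lit 180243) (nat_lit 5) (.e (nat_lit 532508) (nat_lit 2) (.e (nat_lit 106539) (nat_lit 12) .nil)))))))) (.g (nat_lit 7) .nil .nil)))) (.nd (nat_lit 5) 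
(.lf (nat_lit 165142) (.g (nat_lit 2112) (.e (nat_lit 57465) (nat_lit 23) (.e (nat_lit 516115) (nat_lit 1) (.e (nat_lit 164399) (nat_lit 256) (.e (nat_lit 57370) (nat_lit 2) (.e (nat_lit 90172) (nat_lit 14) (.e (nat_lit 180244) (nat_lit 5) (.e (nat_lit 532506) (nat_lit 2) (.e (nat_lit 106539) (nat_lit 12) .nil)))))))) (.g (nat_lit 4) .nil .nil))) 
(.lf (nat_lit 165174) (.g (nat_lit 2427) (.e (nat_lit 57465) (nat_lit 23) (.e (nat_lit 516117) (nat_lit 1) (.e (nat_lit 164398) (nat_lit 256) (.e (nat_lit 57373) (nat_lit 2) (.e (nat_lit 90174) (nat_lit 14) (.e (nat_lit 180243) (nat_lit 5) (.e (nat_lit 532506) (nat_lit 2) (.e (nat_lit 106539) (nat_lit 12) .nil)))))))) (.g (nat_lit 4) .nil .nil))))) (.nd (nat_lit 4) (.nd (nat_lit 5) 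
(.lf (nat_lit 165134) (.g (nat_lit 3138) (.e (nat_lit 57465) (nat_lit 23) (.e (nat_lit 516115) (nat_lit 1) (.e (nat_lit 164398) (nat_lit 256) (.e (nat_lit 57373) (nat_lit 2) (.e (nat_lit 90174) (nat_lit 14) (.e (nat_lit 180243) (nat_lit 5) (.e (nat_lit 532508) (nat_lit 2) (.e (nat_lit 106539) (nat_lit 12) .nil)))))))) (.g (nat_lit 5) .nil .nil))) 
(.lf (nat_lit 165166) (.g (nat_lit 2153) (.e (nat_lit 57465) (nat_lit 23) (.e (nat_lit 516115) (nat_lit 1) (.e (nat_lit 164399) (nat_lit 256) (.e (nat_lit 57375) (nat_lit 2) (.e (nat_lit 90174) (nat_lit 14) (.e (nat_lit 180243) (nat_lit 5) (.e (nat_lit 532511) (nat_lit 2) (.e (nat_lit 106537) (nat_lit 12) .nil)))))))) (.g (nat_lit 4) .nil .nil)))) (.nd (nat_lit 5) 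
(.lf (nat_lit 165150) (.g (nat_lit 3246) (.e (nat_lit 57465) (nat_lit 23) (.e (nat_lit 516115) (nat_lit 1) (.e (nat_lit 164399) (nat_lit 256) (.e (nat_lit 57372) (nat_lit 2) (.e (nat_lit 90172) (nat_lit 14) (.e (nat_lit 180243) (nat_lit 5) (.e (nat_lit 532511) (nat_lit 2) (.e (nat_lit 106538) (nat_lit 12) .nil)))))))) (.g (nat_lit 5) .nil .nil))) 
(.lf (nat_lit 165182) (.g (nat_lit 2548) (.e (nat_lit 57465) (nat_lit 23) (.e (nat_lit 516117) (nat_lit 1) (.e (nat_lit 164399) (nat_lit 256) (.e (nat_lit 57372) (nat_lit 2) (.e (nat_lit 90172) (nat_lit 14) (.e (nat_lit 180243) (nat_lit 5) (.e (nat_lit 532508) (nat_lit 2) (.e (nat_lit 106538) (nat_lit 12) .nil)))))))) (.g (nat_lit 4) .nil .nil)))))))) 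
(.nd (nat_lit 1) (.nd (nat_lit 2) (.nd (nat_lit 3) (.nd (nat_lit 4) (.nd (nat_lit 5) 
(.lf (nat_lit 165121) (.g (nat_lit 2319) (.e (nat_lit 57464) (nat_lit 23) (.e (nat_lit 516195) (nat_lit 26) (.e (nat_lit 336223) (nat_lit 13) (.e (nat_lit 393234) (nat_lit 17) (.e (nat_lit 3520) (nat_lit 218) (.e (nat_lit 704744) (nat_lit 12) (.e (nat_lit 57521) (nat_lit 44) (.e (nat_lit 688168) (nat_lit 15) .nil)))))))) (.g (nat_lit 5) .nil .nil))) 
(.lf (nat_lit 165153) (.g (nat_lit 2753) (.e (nat_lit 57465) (nat_lit 23) (.e (nat_lit 516115) (nat_lit 1) (.e (nat_lit 164399) (nat_lit 256) (.e (nat_lit 57372) (nat_lit 2) (.e (nat_lit 90174) (nat_lit 14) (.e (nat_lit 180243) (nat_lit 5) (.e (nat_lit 532510) (nat_lit 2) (.e (nat_lit 106537) (nat_lit 12) .nil)))))))) (.g (nat_lit 5) .nil .nil)))) (.nd (nat_lit 5) 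
(.lf (nat_lit 165137) (.g (nat_lit 3184) (.e (nat_lit 57465) (nat_lit 23) (.e (nat_lit 516115) (nat_lit 1) (.e (nat_lit 164398) (nat_lit 256) (.e (nat_lit 57373) (nat_lit 2) (.e (nat_lit 90174) (nat_lit 14) (.e (nat_lit 180243) (nat_lit 5) (.e (nat_lit 532511) (nat_lit 2) (.e (nat_lit 106539) (nat_lit 12) .nil)))))))) (.g (nat_lit 5) .nil .nil))) 
(.lf (nat_lit 165169) (.g (nat_lit 2607) (.e (nat_lit 57465) (nat_lit 23) (.e (nat_lit 516115) (nat_lit 1) (.e (nat_lit 164403) (nat_lit 256) (.e (nat_lit 57371) (nat_lit 2) (.e (nat_lit 90174) (nat_lit 14) (.e (nat_lit 180243) (nat_lit 5) (.e (nat_lit 532508) (nat_lit 2) (.e (nat_lit 106538) (nat_lit 12) .nil)))))))) (.g (nat_lit 4) .nil .nil))))) (.nd (nat_lit 4) (.nd (nat_lit 5) 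
(.lf (nat_lit 165129) (.g (nat_lit 3012) (.e (nat_lit 57465) (nat_lit 23) (.e (nat_lit 516115) (nat_lit 1) (.e (nat_lit 164325) (nat_lit 230) (.e (nat_lit 163861) (nat_lit 1) .nil)))) .nil)) 
(.lf (nat_lit 165161) (.g (nat_lit 4234) (.e (nat_lit 57465) (nat_lit 23) (.e (nat_lit 516115) (nat_lit 1) (.e (nat_lit 164399) (nat_lit 256) (.e (nat_lit 57373) (nat_lit 2) (.e (nat_lit 90174) (nat_lit 14) (.e (nat_lit 180243) (nat_lit 5) (.e (nat_lit 532511) (nat_lit 2) (.e (nat_lit 106539) (nat_lit 12) .nil)))))))) (.g (nat_lit 7) .nil .nil)))) (.nd (nat_lit 5) 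
(.lf (nat_lit 165145) (.g (nat_lit 2204) (.e (nat_lit 57465) (nat_lit 23) (.e (nat_lit 516115) (nat_lit 1) (.e (nat_lit 164399) (nat_lit 256) (.e (nat_lit 57372) (nat_lit 2) (.e (nat_lit 90167) (nat_lit 13) (.e (nat_lit 172065) (nat_lit 3) (.e (nat_lit 204834) (nat_lit 19) (.e (nat_lit 106539) (nat_lit 12) .nil)))))))) (.g (nat_lit 4) .nil .nil))) 
(.lf (nat_lit 165177) (.g (nat_lit 1771) (.e (nat_lit 57465) (nat_lit 23) (.e (nat_lit 516117) (nat_lit 1) (.e (nat_lit 164398) (nat_lit 256) (.e (nat_lit 57375) (nat_lit 2) .nil)))) .nil))))) (.nd (nat_lit 3) (.nd (nat_lit 4) (.nd (nat_lit 5) 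
(.lf (nat_lit 165125) (.g (nat_lit 2544) (.e (nat_lit 57464) (nat_lit 23) (.e (nat_lit 516195) (nat_lit 26) (.e (nat_lit 336223) (nat_lit 13) (.e (nat_lit 393258) (nat_lit 20) (.e (nat_lit 254000) (nat_lit 12) .nil))))) .nil)) 
(.lf (nat_lit 165157) (.g (nat_lit 4630) (.e (nat_lit 57465) (nat_lit 23) (.e (nat_lit 516115) (nat_lit 1) (.e (nat_lit 164399) (nat_lit 256) (.e (nat_lit 57373) (nat_lit 2) (.e (nat_lit 90174) (nat_lit 14) (.e (nat_lit 180243) (nat_lit 5) (.e (nat_lit 532508) (nat_lit 2) (.e (nat_lit 106538) (nat_lit 12) .nil)))))))) (.g (nat_lit 8) .nil .nil)))) (.nd (nat_lit 5) 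
(.lf (nat_lit 165141) (.g (nat_lit 1898) (.e (nat_lit 57465) (nat_lit 23) (.e (nat_lit 516115) (nat_lit 1) (.e (nat_lit 164399) (nat_lit 256) (.e (nat_lit 57370) (nat_lit 2) (.e (nat_lit 90172) (nat_lit 14) .nil))))) .nil)) 
(.lf (nat_lit 165173) (.g (nat_lit 3037) (.e (nat_lit 57465) (nat_lit 23) (.e (nat_lit 516115) (nat_lit 1) (.e (nat_lit 164403) (nat_lit 256) (.e (nat_lit 57373) (nat_lit 2) (.e (nat_lit 90174) (nat_lit 14) (.e (nat_lit 180243) (nat_lit 5) (.e (nat_lit 532510) (nat_lit 2) (.e (nat_lit 106538) (nat_lit 12) .nil)))))))) (.g (nat_lit 4) .nil .nil))))) (.nd (nat_lit 4) (.nd (nat_lit 5) 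
(.lf (nat_lit 165133) (.g (nat_lit 2418) (.e (nat_lit 57465) (nat_lit 23) (.e (nat_lit 516115) (nat_lit 1) (.e (nat_lit 164398) (nat_lit 256) (.e (nat_lit 57373) (nat_lit 2) (.e (nat_lit 90172) (nat_lit 14) .nil))))) .nil)) 
(.lf (nat_lit 165165) (.g (nat_lit 3478) (.e (nat_lit 57465) (nat_lit 23) (.e (nat_lit 516115) (nat_lit 1) (.e (nat_lit 164399) (nat_lit 256) (.e (nat_lit 57375) (nat_lit 2) (.e (nat_lit 90174) (nat_lit 14) (.e (nat_lit 180243) (nat_lit 5) (.e (nat_lit 532508) (nat_lit 2) (.e (nat_lit 106538) (nat_lit 12) .nil)))))))) (.g (nat_lit 6) .nil .nil)))) (.nd (nat_lit 5) 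
(.lf (nat_lit 165149) (.g (nat_lit 3192) (.e (nat_lit 57465) (nat_lit 23) (.e (nat_lit 516115) (nat_lit 1) (.e (nat_lit 164399) (nat_lit 256) (.e (nat_lit 57372) (nat_lit 2) (.e (nat_lit 90172) (nat_lit 14) (.e (nat_lit 180243) (nat_lit 5) (.e (nat_lit 532510) (nat_lit 2) (.e (nat_lit 106539) (nat_lit 12) .nil)))))))) (.g (nat_lit 5) .nil .nil))) 
(.lf (nat_lit 165181) (.g (nat_lit 2477) (.e (nat_lit 57465) (nat_lit 23) (.e (nat_lit 516117) (nat_lit 1) (.e (nat_lit 164399) (nat_lit 256) (.e (nat_lit 57372) (nat_lit 2) (.e (nat_lit 90172) (nat_lit 14) .nil))))) .nil)))))) (.nd (nat_lit 2) (.nd (nat_lit 3) (.nd (nat_lit 4) (.nd (nat_lit 5) 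
(.lf (nat_lit 165123) (.g (nat_lit 2387) (.e (nat_lit 57464) (nat_lit 23) (.e (nat_lit 516195) (nat_lit 26) (.e (nat_lit 336223) (nat_lit 13) (.e (nat_lit 393258) (nat_lit 20) .nil)))) .nil)) 
(.lf (nat_lit 165155) (.g (nat_lit 2966) (.e (nat_lit 57465) (nat_lit 23) (.e (nat_lit 516115) (nat_lit 1) (.e (nat_lit 164399) (nat_lit 256) (.e (nat_lit 57373) (nat_lit 2) (.e (nat_lit 90174) (nat_lit 14) (.e (nat_lit 180243) (nat_lit 5) (.e (nat_lit 532506) (nat_lit 2) (.e (nat_lit 106538) (nat_lit 12) .nil)))))))) (.g (nat_lit 5) .nil .nil)))) (.nd (nat_lit 5) 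
(.lf (nat_lit 165139) (.g (nat_lit 2702) (.e (nat_lit 57465) (nat_lit 23) (.e (nat_lit 516115) (nat_lit 1) (.e (nat_lit 164398) (nat_lit 256) (.e (nat_lit 57379) (nat_lit 3) (.e (nat_lit 98366) (nat_lit 27) (.e (nat_lit 434231) (nat_lit 23) (.e (nat_lit 532490) (nat_lit 0) (.e (nat_lit 2155) (nat_lit 142) (.e (nat_lit 704746) (nat_lit 12) .nil))))))))) (.g (nat_lit 4) .nil .nil))) 
(.lf (nat_lit 165171) (.g (nat_lit 2981) (.e (nat_lit 57465) (nat_lit 23) (.e (nat_lit 516115) (nat_lit 1) (.e (nat_lit 164403) (nat_lit 256) (.e (nat_lit 57373) (nat_lit 2) (.e (nat_lit 90172) (nat_lit 14) .nil))))) .nil)))) (.nd (nat_lit 4) (.nd (nat_lit 5) 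
(.lf (nat_lit 165131) (.g (nat_lit 2991) (.e (nat_lit 57465) (nat_lit 23) (.e (nat_lit 516115) (nat_lit 1) (.e (nat_lit 164325) (nat_lit 230) (.e (nat_lit 163864) (nat_lit 1) .nil)))) .nil)) 
(.lf (nat_lit 165163) (.g (nat_lit 3566) (.e (nat_lit 57465) (nat_lit 23) (.e (nat_lit 516115) (nat_lit 1) (.e (nat_lit 164399) (nat_lit 256) (.e (nat_lit 57374) (nat_lit 2) (.e (nat_lit 90170) (nat_lit 13) (.e (nat_lit 172065) (nat_lit 3) (.e (nat_lit 204834) (nat_lit 19) (.e (nat_lit 106539) (nat_lit 12) .nil)))))))) (.g (nat_lit 5) .nil .nil)))) (.nd (nat_lit 5) 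
(.lf (nat_lit 165147) (.g (nat_lit 3717) (.e (nat_lit 57465) (nat_lit 23) (.e (nat_lit 516115) (nat_lit 1) (.e (nat_lit 164399) (nat_lit 256) (.e (nat_lit 57372) (nat_lit 2) (.e (nat_lit 90172) (nat_lit 14) (.e (nat_lit 180243) (nat_lit 5) (.e (nat_lit 532508) (nat_lit 2) (.e (nat_lit 106538) (nat_lit 12) .nil)))))))) (.g (nat_lit 6) .nil .nil))) 
(.lf (nat_lit 165179) (.g (nat_lit 2638) (.e (nat_lit 57465) (nat_lit 23) (.e (nat_lit 516117) (nat_lit 1) (.e (nat_lit 164398) (nat_lit 256) (.e (nat_lit 57379) (nat_lit 3) (.e (nat_lit 98366) (nat_lit 27) (.e (nat_lit 434231) (nat_lit 23) (.e (nat_lit 532490) (nat_lit 0) (.e (nat_lit 2155) (nat_lit 142) (.e (nat_lit 704746) (nat_lit 12) .nil))))))))) (.g (nat_lit 4) .nil .nil)))))) 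
(.nd (nat_lit 3) (.nd (nat_lit 4) (.nd (nat_lit 5) 
(.lf (nat_lit 165127) (.g (nat_lit 1526) (.e (nat_lit 57464) (nat_lit 23) (.e (nat_lit 524032) (nat_lit 29) (.e (nat_lit 360466) (nat_lit 3) (.e (nat_lit 516179) (nat_lit 15) (.e (nat_lit 475201) (nat_lit 40) (.e (nat_lit 704749) (nat_lit 12) .nil)))))) (.g (nat_lit 5) .nil .nil))) 
(.lf (nat_lit 165159) (.g (nat_lit 4151) (.e (nat_lit 57465) (nat_lit 23) (.e (nat_lit 516115) (nat_lit 1) (.e (nat_lit 164399) (nat_lit 256) (.e (nat_lit 57373) (nat_lit 2) (.e (nat_lit 90174) (nat_lit 14) (.e (nat_lit 180243) (nat_lit 5) (.e (nat_lit 532510) (nat_lit 2) (.e (nat_lit 106539) (nat_lit 12) .nil)))))))) (.g (nat_lit 7) .nil .nil)))) (.nd (nat_lit 5) 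
(.lf (nat_lit 165143) (.g (nat_lit 2103) (.e (nat_lit 57465) (nat_lit 23) (.e (nat_lit 516115) (nat_lit 1) (.e (nat_lit 164399) (nat_lit 256) (.e (nat_lit 57372) (nat_lit 2) (.e (nat_lit 90167) (nat_lit 13) .nil))))) .nil)) 
(.lf (nat_lit 165175) (.g (nat_lit 3390) (.e (nat_lit 57465) (nat_lit 23) (.e (nat_lit 516117) (nat_lit 1) (.e (nat_lit 164398) (nat_lit 256) (.e (nat_lit 57373) (nat_lit 2) (.e (nat_lit 90174) (nat_lit 14) (.e (nat_lit 180243) (nat_lit 5) (.e (nat_lit 532508) (nat_lit 2) (.e (nat_lit 106538) (nat_lit 12) .nil)))))))) (.g (nat_lit 5) .nil .nil))))) (.nd (nat_lit 4) (.nd (nat_lit 5) 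
(.lf (nat_lit 165135) (.g (nat_lit 3101) (.e (nat_lit 57465) (nat_lit 23) (.e (nat_lit 516115) (nat_lit 1) (.e (nat_lit 164398) (nat_lit 256) (.e (nat_lit 57373) (nat_lit 2) (.e (nat_lit 90174) (nat_lit 14) (.e (nat_lit 180243) (nat_lit 5) (.e (nat_lit 532510) (nat_lit 2) (.e (nat_lit 106539) (nat_lit 12) .nil)))))))) (.g (nat_lit 5) .nil .nil))) 
(.lf (nat_lit 165167) (.g (nat_lit 2130) (.e (nat_lit 57465) (nat_lit 23) (.e (nat_lit 516115) (nat_lit 1) (.e (nat_lit 164399) (nat_lit 256) (.e (nat_lit 57379) (nat_lit 3) (.e (nat_lit 98366) (nat_lit 27) .nil))))) .nil))) (.nd (nat_lit 5) 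
(.lf (nat_lit 165151) (.g (nat_lit 3265) (.e (nat_lit 57465) (nat_lit 23) (.e (nat_lit 516115) (nat_lit 1) (.e (nat_lit 164399) (nat_lit 256) (.e (nat_lit 57372) (nat_lit 2) (.e (nat_lit 90172) (nat_lit 14) (.e (nat_lit 180243) (nat_lit 5) (.e (nat_lit 532511) (nat_lit 2) (.e (nat_lit 106539) (nat_lit 12) .nil)))))))) (.g (nat_lit 5) .nil .nil))) 
(.lf (nat_lit 165183) (.g (nat_lit 2692) (.e (nat_lit 57465) (nat_lit 23) (.e (nat_lit 516117) (nat_lit 1) (.e (nat_lit 164399) (nat_lit 256) (.e (nat_lit 57372) (nat_lit 2) (.e (nat_lit 90174) (nat_lit 14) (.e (nat_lit 180243) (nat_lit 5) (.e (nat_lit 532508) (nat_lit 2) (.e (nat_lit 106538) (nat_lit 12) .nil)))))))) (.g (nat_lit 4) .nil .nil)))))))))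

noncomputable def tv2217 : DT := (.nd (nat_lit 0) (.nd (nat_lit 1) (.nd (nat_lit 2) (.nd (nat_lit 3) (.nd (nat_lit 4) (.nd (nat_lit 5) 
(.lf (nat_lit 165184) (.g (nat_lit 2137) (.e (nat_lit 57465) (nat_lit 23) (.e (nat_lit 516117) (nat_lit 1) (.e (nat_lit 164399) (nat_lit 256) (.e (nat_lit 57373) (nat_lit 2) (.e (nat_lit 90170) (nat_lit 13) .nil))))) .nil)) 
(.lf (nat_lit 165216) (.g (nat_lit 2045) (.e (nat_lit 57465) (nat_lit 23) (.e (nat_lit 516129) (nat_lit 3) (.e (nat_lit 221210) (nat_lit 22) (.e (nat_lit 196668) (nat_lit 14) (.e (nat_lit 73747) (nat_lit 3) (.e (nat_lit 516120) (nat_lit 1) (.e (nat_lit 164166) (nat_lit 152) (.e (nat_lit 1182) (nat_lit 87) .nil)))))))) (.g (nat_lit 4) .nil .nil)))) (.nd (nat_lit 5) 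
(.lf (nat_lit 165200) (.g (nat_lit 2159) (.e (nat_lit 57465) (nat_lit 23) (.e (nat_lit 516120) (nat_lit 1) (.e (nat_lit 164330) (nat_lit 230) (.e (nat_lit 163873) (nat_lit 3) .nil)))) .nil)) 
(.lf (nat_lit 165232) (.g (nat_lit 3388) (.e (nat_lit 57465) (nat_lit 23) (.e (nat_lit 516129) (nat_lit 3) (.e (nat_lit 221214) (nat_lit 23) (.e (nat_lit 204861) (nat_lit 26) (.e (nat_lit 336012) (nat_lit 2) (.e (nat_lit 90164) (nat_lit 12) (.e (nat_lit 164017) (nat_lit 44) (.e (nat_lit 688171) (nat_lit 15) .nil)))))))) (.g (nat_lit 5) .nil .nil))))) (.nd (nat_lit 4) (.nd (nat_lit 5) 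
(.lf (nat_lit 165192) (.g (nat_lit 1894) (.e (nat_lit 57465) (nat_lit 23) (.e (nat_lit 516117) (nat_lit 1) (.e (nat_lit 164400) (nat_lit 256) (.e (nat_lit 57372) (nat_lit 2) (.e (nat_lit 90172) (nat_lit 14) .nil))))) .nil)) 
(.lf (nat_lit 165224) (.g (nat_lit 1227) (.e (nat_lit 57465) (nat_lit 23) (.e (nat_lit 516129) (nat_lit 3) (.e (nat_lit 221210) (nat_lit 22) (.e (nat_lit 196681) (nat_lit 17) .nil)))) .nil))) (.nd (nat_lit 5) 
(.lf (nat_lit 165208) (.g (nat_lit 2358) (.e (nat_lit 57465) (nat_lit 23) (.e (nat_lit 516129) (nat_lit 3) (.e (nat_lit 221210) (nat_lit 22) (.e (nat_lit 196666) (nat_lit 13) (.e (nat_lit 65569) (nat_lit 3) .nil))))) .nil)) 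
(.lf (nat_lit 165240) (.g (nat_lit 1589) (.e (nat_lit 57465) (nat_lit 23) (.e (nat_lit 516129) (nat_lit 3) (.e (nat_lit 221215) (nat_lit 23) (.e (nat_lit 204850) (nat_lit 26) .nil)))) .nil))))) (.nd (nat_lit 3) (.nd (nat_lit 4) (.nd (nat_lit 5) 
(.lf (nat_lit 165188) (.g (nat_lit 3453) (.e (nat_lit 57465) (nat_lit 23) (.e (nat_lit 516117) (nat_lit 1) (.e (nat_lit 164399) (nat_lit 256) (.e (nat_lit 57373) (nat_lit 2) (.e (nat_lit 90174) (nat_lit 14) (.e (nat_lit 180243) (nat_lit 5) (.e (nat_lit 532508) (nat_lit 2) (.e (nat_lit 106538) (nat_lit 12) .nil)))))))) (.g (nat_lit 5) .nil .nil))) 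
(.lf (nat_lit 165220) (.g (nat_lit 3653) (.e (nat_lit 57465) (nat_lit 23) (.e (nat_lit 516129) (nat_lit 3) (.e (nat_lit 221210) (nat_lit 22) (.e (nat_lit 196670) (nat_lit 14) (.e (nat_lit 73746) (nat_lit 3) (.e (nat_lit 516117) (nat_lit 1) (.e (nat_lit 164147) (nat_lit 152) (.e (nat_lit 1172) (nat_lit 87) .nil)))))))) (.g (nat_lit 6) .nil .nil)))) (.nd (nat_lit 5) 
(.lf (nat_lit 165204) (.g (nat_lit 2931) (.e (nat_lit 57465) (nat_lit 23) (.e (nat_lit 516120) (nat_lit 1) (.e (nat_lit 164403) (nat_lit 256) (.e (nat_lit 57371) (nat_lit 2) (.e (nat_lit 90174) (nat_lit 14) .nil))))) .nil)) 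
(.lf (nat_lit 165236) (.g (nat_lit 2230) (.e (nat_lit 57465) (nat_lit 23) (.e (nat_lit 516129) (nat_lit 3) (.e (nat_lit 221214) (nat_lit 23) (.e (nat_lit 204880) (nat_lit 32) (.e (nat_lit 385066) (nat_lit 26) .nil))))) .nil)))) (.nd (nat_lit 4) (.nd (nat_lit 5) 
(.lf (nat_lit 165196) (.g (nat_lit 2323) (.e (nat_lit 57465) (nat_lit 23) (.e (nat_lit 516119) (nat_lit 1) (.e (nat_lit 164403) (nat_lit 256) (.e (nat_lit 57371) (nat_lit 2) (.e (nat_lit 90174) (nat_lit 14) .nil))))) .nil)) 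
(.lf (nat_lit 165228) (.g (nat_lit 1005) (.e (nat_lit 57465) (nat_lit 23) (.e (nat_lit 516129) (nat_lit 3) (.e (nat_lit 221212) (nat_lit 22) (.e (nat_lit 196681) (nat_lit 17) .nil)))) .nil))) (.nd (nat_lit 5) 
(.lf (nat_lit 165212) (.g (nat_lit 2136) (.e (nat_lit 57465) (nat_lit 23) (.e (nat_lit 516129) (nat_lit 3) (.e (nat_lit 221210) (nat_lit 22) (.e (nat_lit 196668) (nat_lit 14) (.e (nat_lit 73746) (nat_lit 3) .nil))))) .nil)) 
(.lf (nat_lit 165244) (.g (nat_lit 2315) (.e (nat_lit 57465) (nat_lit 23) (.e (nat_lit 516129) (nat_lit 3) (.e (nat_lit 221215) (nat_lit 23) (.e (nat_lit 204861) (nat_lit 26) (.e (nat_lit 336012) (nat_lit 2) .nil))))) .nil)))))) (.nd (nat_lit 2) (.nd (nat_lit 3) (.nd (nat_lit 4) (.nd (nat_lit 5) 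
(.lf (nat_lit 165186) (.g (nat_lit 2614) (.e (nat_lit 57465) (nat_lit 23) (.e (nat_lit 516117) (nat_lit 1) (.e (nat_lit 164399) (nat_lit 256) (.e (nat_lit 57373) (nat_lit 2) (.e (nat_lit 90172) (nat_lit 14) .nil))))) .nil)) 
(.lf (nat_lit 165218) (.g (nat_lit 2349) (.e (nat_lit 57465) (nat_lit 23) (.e (nat_lit 516129) (nat_lit 3) (.e (nat_lit 221210) (nat_lit 22) (.e (nat_lit 196670) (nat_lit 14) (.e (nat_lit 73744) (nat_lit 2) .nil))))) .nil))) (.nd (nat_lit 5) 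
(.lf (nat_lit 165202) (.g (nat_lit 1429) (.e (nat_lit 57465) (nat_lit 23) (.e (nat_lit 516120) (nat_lit 1) (.e (nat_lit 164401) (nat_lit 256) (.e (nat_lit 57373) (nat_lit 2) .nil)))) .nil)) 
(.lf (nat_lit 165234) (.g (nat_lit 2223) (.e (nat_lit 57465) (nat_lit 23) (.e (nat_lit 516129) (nat_lit 3) (.e (nat_lit 221214) (nat_lit 23) (.e (nat_lit 204862) (nat_lit 27) (.e (nat_lit 344115) (nat_lit 20) (.e (nat_lit 507906) (nat_lit 0) (.e (nat_lit 720) (nat_lit 64) (.e (nat_lit 688171) (nat_lit 15) .nil)))))))) (.g (nat_lit 4) .nil .nil))))) (.nd (nat_lit 4) (.nd (nat_lit 5) 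
(.lf (nat_lit 165194) (.g (nat_lit 3267) (.e (nat_lit 57465) (nat_lit 23) (.e (nat_lit 516117) (nat_lit 1) (.e (nat_lit 164403) (nat_lit 256) (.e (nat_lit 57373) (nat_lit 2) (.e (nat_lit 90174) (nat_lit 14) (.e (nat_lit 180243) (nat_lit 5) (.e (nat_lit 532508) (nat_lit 2) (.e (nat_lit 106538) (nat_lit 12) .nil)))))))) (.g (nat_lit 4) .nil .nil))) 
(.lf (nat_lit 165226) (.g (nat_lit 2798) (.e (nat_lit 57465) (nat_lit 23) (.e (nat_lit 516129) (nat_lit 3) (.e (nat_lit 221210) (nat_lit 22) (.e (nat_lit 196681) (nat_lit 17) (.e (nat_lit 131093) (nat_lit 2) (.e (nat_lit 90164) (nat_lit 12) (.e (nat_lit 164017) (nat_lit 44) (.e (nat_lit 688171) (nat_lit 15) .nil)))))))) (.g (nat_lit 5) .nil .nil)))) (.nd (nat_lit 5) 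
(.lf (nat_lit 165210) (.g (nat_lit 2315) (.e (nat_lit 57465) (nat_lit 23) (.e (nat_lit 516129) (nat_lit 3) (.e (nat_lit 221210) (nat_lit 22) (.e (nat_lit 196666) (nat_lit 13) (.e (nat_lit 65571) (nat_lit 3) (.e (nat_lit 98334) (nat_lit 18) (.e (nat_lit 164159) (nat_lit 152) (.e (nat_lit 1183) (nat_lit 87) .nil)))))))) (.g (nat_lit 4) .nil .nil))) 
(.lf (nat_lit 165242) (.g (nat_lit 1287) (.e (nat_lit 57465) (nat_lit 23) (.e (nat_lit 516129) (nat_lit 3) (.e (nat_lit 221215) (nat_lit 23) (.e (nat_lit 204861) (nat_lit 26) .nil)))) .nil))))) (.nd (nat_lit 3) (.nd (nat_lit 4) (.nd (nat_lit 5) 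
(.lf (nat_lit 165190) (.g (nat_lit 2288) (.e (nat_lit 57465) (nat_lit 23) (.e (nat_lit 516117) (nat_lit 1) (.e (nat_lit 164399) (nat_lit 256) (.e (nat_lit 57375) (nat_lit 2) (.e (nat_lit 90174) (nat_lit 14) .nil))))) .nil)) 
(.lf (nat_lit 165222) (.g (nat_lit 3000) (.e (nat_lit 57465) (nat_lit 23) (.e (nat_lit 516129) (nat_lit 3) (.e (nat_lit 221210) (nat_lit 22) (.e (nat_lit 196670) (nat_lit 14) (.e (nat_lit 73746) (nat_lit 3) (.e (nat_lit 516117) (nat_lit 1) (.e (nat_lit 164159) (nat_lit 152) (.e (nat_lit 1183) (nat_lit 87) .nil)))))))) (.g (nat_lit 5) .nil .nil)))) (.nd (nat_lit 5) 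
(.lf (nat_lit 165206) (.g (nat_lit 1368) (.e (nat_lit 57465) (nat_lit 23) (.e (nat_lit 516129) (nat_lit 3) (.e (nat_lit 221210) (nat_lit 22) (.e (nat_lit 196663) (nat_lit 13) .nil)))) .nil)) 
(.lf (nat_lit 165238) (.g (nat_lit 2828) (.e (nat_lit 57465) (nat_lit 23) (.e (nat_lit 516129) (nat_lit 3) (.e (nat_lit 221214) (nat_lit 23) (.e (nat_lit 204880) (nat_lit 32) (.e (nat_lit 385068) (nat_lit 26) (.e (nat_lit 532504) (nat_lit 1) (.e (nat_lit 57829) (nat_lit 250) (.e (nat_lit 1183) (nat_lit 87) .nil)))))))) (.g (nat_lit 4) .nil .nil))))) (.nd (nat_lit 4) (.nd (nat_lit 5) 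
(.lf (nat_lit 165198) (.g (nat_lit 2567) (.e (nat_lit 57465) (nat_lit 23) (.e (nat_lit 516119) (nat_lit 1) (.e (nat_lit 164403) (nat_lit 256) (.e (nat_lit 57373) (nat_lit 2) (.e (nat_lit 90172) (nat_lit 14) .nil))))) .nil)) 
(.lf (nat_lit 165230) (.g (nat_lit 1223) (.e (nat_lit 57465) (nat_lit 23) (.e (nat_lit 516129) (nat_lit 3) (.e (nat_lit 221214) (nat_lit 23) (.e (nat_lit 204861) (nat_lit 26) .nil)))) .nil))) (.nd (nat_lit 5) 
(.lf (nat_lit 165214) (.g (nat_lit 1870) (.e (nat_lit 57465) (nat_lit 23) (.e (nat_lit 516129) (nat_lit 3) (.e (nat_lit 221210) (nat_lit 22) (.e (nat_lit 196668) (nat_lit 14) (.e (nat_lit 73747) (nat_lit 3) .nil))))) .nil)) 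
(.lf (nat_lit 165246) (.g (nat_lit 2260) (.e (nat_lit 57465) (nat_lit 23) (.e (nat_lit 516129) (nat_lit 3) (.e (nat_lit 221215) (nat_lit 23) (.e (nat_lit 204862) (nat_lit 27) (.e (nat_lit 344115) (nat_lit 20) .nil))))) .nil))))))) (.nd (nat_lit 1) (.nd (nat_lit 2) (.nd (nat_lit 3) (.nd (nat_lit 4) (.nd (nat_lit 5) 
(.lf (nat_lit 165185) (.g (nat_lit 2147) (.e (nat_lit 57465) (nat_lit 23) (.e (nat_lit 516117) (nat_lit 1) (.e (nat_lit 164399) (nat_lit 256) (.e (nat_lit 57373) (nat_lit 2) (.e (nat_lit 90170) (nat_lit 13) (.e (nat_lit 172065) (nat_lit 3) (.e (nat_lit 204834) (nat_lit 19) (.e (nat_lit 106539) (nat_lit 12) .nil)))))))) (.g (nat_lit 4) .nil .nil))) 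
(.lf (nat_lit 165217) (.g (nat_lit 1438) (.e (nat_lit 57465) (nat_lit 23) (.e (nat_lit 516129) (nat_lit 3) (.e (nat_lit 221210) (nat_lit 22) (.e (nat_lit 196669) (nat_lit 14) .nil)))) .nil))) (.nd (nat_lit 5) 
(.lf (nat_lit 165201) (.g (nat_lit 1966) (.e (nat_lit 57465) (nat_lit 23) (.e (nat_lit 516120) (nat_lit 1) (.e (nat_lit 164330) (nat_lit 230) (.e (nat_lit 163874) (nat_lit 3) .nil)))) .nil)) 
(.lf (nat_lit 165233) (.g (nat_lit 1522) (.e (nat_lit 57465) (nat_lit 23) (.e (nat_lit 516129) (nat_lit 3) (.e (nat_lit 221214) (nat_lit 23) (.e (nat_lit 204862) (nat_lit 27) .nil)))) .nil)))) (.nd (nat_lit 4) (.nd (nat_lit 5) 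
(.lf (nat_lit 165193) (.g (nat_lit 1846) (.e (nat_lit 57465) (nat_lit 23) (.e (nat_lit 516117) (nat_lit 1) (.e (nat_lit 164400) (nat_lit 256) (.e (nat_lit 57375) (nat_lit 2) (.e (nat_lit 90172) (nat_lit 14) .nil))))) .nil)) 
(.lf (nat_lit 165225) (.g (nat_lit 2493) (.e (nat_lit 57465) (nat_lit 23) (.e (nat_lit 516129) (nat_lit 3) (.e (nat_lit 221210) (nat_lit 22) (.e (nat_lit 196681) (nat_lit 17) (.e (nat_lit 131091) (nat_lit 2) (.e (nat_lit 90164) (nat_lit 12) (.e (nat_lit 164017) (nat_lit 44) (.e (nat_lit 688171) (nat_lit 15) .nil)))))))) (.g (nat_lit 5) .nil .nil)))) (.nd (nat_lit 5) 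
(.lf (nat_lit 165209) (.g (nat_lit 2170) (.e (nat_lit 57465) (nat_lit 23) (.e (nat_lit 516129) (nat_lit 3) (.e (nat_lit 221210) (nat_lit 22) (.e (nat_lit 196666) (nat_lit 13) (.e (nat_lit 65571) (nat_lit 3) .nil))))) .nil)) 
(.lf (nat_lit 165241) (.g (nat_lit 2128) (.e (nat_lit 57465) (nat_lit 23) (.e (nat_lit 516129) (nat_lit 3) (.e (nat_lit 221215) (nat_lit 23) (.e (nat_lit 204852) (nat_lit 26) (.e (nat_lit 336326) (nat_lit 18) (.e (nat_lit 204831) (nat_lit 18) (.e (nat_lit 57830) (nat_lit 250) (.e (nat_lit 1183) (nat_lit 87) .nil)))))))) (.g (nat_lit 4) .nil .nil)))))) 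
(.nd (nat_lit 3) (.nd (nat_lit 4) (.nd (nat_lit 5) 
(.lf (nat_lit 165189) (.g (nat_lit 2707) (.e (nat_lit 57465) (nat_lit 23) (.e (nat_lit 516117) (nat_lit 1) (.e (nat_lit 164399) (nat_lit 256) (.e (nat_lit 57373) (nat_lit 2) (.e (nat_lit 90174) (nat_lit 14) (.e (nat_lit 180243) (nat_lit 5) (.e (nat_lit 532510) (nat_lit 2) (.e (nat_lit 106538) (nat_lit 12) .nil)))))))) (.g (nat_lit 4) .nil .nil))) 
(.lf (nat_lit 165221) (.g (nat_lit 2151) (.e (nat_lit 57465) (nat_lit 23) (.e (nat_lit 516129) (nat_lit 3) (.e (nat_lit 221210) (nat_lit 22) (.e (nat_lit 196670) (nat_lit 14) (.e (nat_lit 73746) (nat_lit 3) (.e (nat_lit 516117) (nat_lit 1) (.e (nat_lit 164159) (nat_lit 152) (.e (nat_lit 1177) (nat_lit 87) .nil)))))))) (.g (nat_lit 4) .nil .nil)))) (.nd (nat_lit 5) 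
(.lf (nat_lit 165205) (.g (nat_lit 469) (.e (nat_lit 57465) (nat_lit 23) (.e (nat_lit 516129) (nat_lit 3) (.e (nat_lit 221210) (nat_lit 22) .nil))) .nil)) 
(.lf (nat_lit 165237) (.g (nat_lit 2770) (.e (nat_lit 57465) (nat_lit 23) (.e (nat_lit 516129) (nat_lit 3) (.e (nat_lit 221214) (nat_lit 23) (.e (nat_lit 204880) (nat_lit 32) (.e (nat_lit 385068) (nat_lit 26) (.e (nat_lit 532501) (nat_lit 1) (.e (nat_lit 57830) (nat_lit 250) (.e (nat_lit 1183) (nat_lit 87) .nil)))))))) (.g (nat_lit 4) .nil .nil))))) (.nd (nat_lit 4) (.nd (nat_lit 5) 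
(.lf (nat_lit 165197) (.g (nat_lit 2123) (.e (nat_lit 57465) (nat_lit 23) (.e (nat_lit 516119) (nat_lit 1) (.e (nat_lit 164403) (nat_lit 256) (.e (nat_lit 57373) (nat_lit 2) (.e (nat_lit 90170) (nat_lit 13) (.e (nat_lit 172065) (nat_lit 3) (.e (nat_lit 204834) (nat_lit 19) (.e (nat_lit 106537) (nat_lit 12) .nil)))))))) (.g (nat_lit 4) .nil .nil))) 
(.lf (nat_lit 165229) (.g (nat_lit 2326) (.e (nat_lit 57465) (nat_lit 23) (.e (nat_lit 516129) (nat_lit 3) (.e (nat_lit 221214) (nat_lit 23) (.e (nat_lit 204852) (nat_lit 26) (.e (nat_lit 336326) (nat_lit 18) (.e (nat_lit 204831) (nat_lit 18) (.e (nat_lit 57830) (nat_lit 250) (.e (nat_lit 1183) (nat_lit 87) .nil)))))))) (.g (nat_lit 4) .nil .nil)))) (.nd (nat_lit 5) 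
(.lf (nat_lit 165213) (.g (nat_lit 3529) (.e (nat_lit 57465) (nat_lit 23) (.e (nat_lit 516129) (nat_lit 3) (.e (nat_lit 221210) (nat_lit 22) (.e (nat_lit 196668) (nat_lit 14) (.e (nat_lit 73746) (nat_lit 3) (.e (nat_lit 516120) (nat_lit 1) (.e (nat_lit 164166) (nat_lit 152) (.e (nat_lit 1182) (nat_lit 87) .nil)))))))) (.g (nat_lit 6) .nil .nil))) 
(.lf (nat_lit 165245) (.g (nat_lit 4798) (.e (nat_lit 57465) (nat_lit 23) (.e (nat_lit 516129) (nat_lit 3) (.e (nat_lit 221215) (nat_lit 23) (.e (nat_lit 204861) (nat_lit 26) (.e (nat_lit 336012) (nat_lit 2) (.e (nat_lit 90164) (nat_lit 12) (.e (nat_lit 164017) (nat_lit 44) (.e (nat_lit 688171) (nat_lit 15) .nil)))))))) (.g (nat_lit 0) .nil .nil))))))) 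
(.nd (nat_lit 2) (.nd (nat_lit 3) (.nd (nat_lit 4) (.nd (nat_lit 5) 
(.lf (nat_lit 165187) (.g (nat_lit 2490) (.e (nat_lit 57465) (nat_lit 23) (.e (nat_lit 516117) (nat_lit 1) (.e (nat_lit 164399) (nat_lit 256) (.e (nat_lit 57373) (nat_lit 2) (.e (nat_lit 90174) (nat_lit 14) (.e (nat_lit 180243) (nat_lit 5) (.e (nat_lit 532506) (nat_lit 2) (.e (nat_lit 106539) (nat_lit 12) .nil)))))))) (.g (nat_lit 4) .nil .nil))) 
(.lf (nat_lit 165219) (.g (nat_lit 2105) (.e (nat_lit 57465) (nat_lit 23) (.e (nat_lit 516129) (nat_lit 3) (.e (nat_lit 221210) (nat_lit 22) (.e (nat_lit 196670) (nat_lit 14) (.e (nat_lit 73746) (nat_lit 3) .nil))))) .nil))) (.nd (nat_lit 5) 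
(.lf (nat_lit 165203) (.g (nat_lit 2225) (.e (nat_lit 57465) (nat_lit 23) (.e (nat_lit 516120) (nat_lit 1) (.e (nat_lit 164401) (nat_lit 256) (.e (nat_lit 57373) (nat_lit 2) (.e (nat_lit 90174) (nat_lit 14) .nil))))) .nil)) 
(.lf (nat_lit 165235) (.g (nat_lit 2439) (.e (nat_lit 57465) (nat_lit 23) (.e (nat_lit 516129) (nat_lit 3) (.e (nat_lit 221214) (nat_lit 23) (.e (nat_lit 204863) (nat_lit 27) (.e (nat_lit 344115) (nat_lit 20) .nil))))) .nil)))) (.nd (nat_lit 4) (.nd (nat_lit 5) 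
(.lf (nat_lit 165195) (.g (nat_lit 2286) (.e (nat_lit 57465) (nat_lit 23) (.e (nat_lit 516119) (nat_lit 1) (.e (nat_lit 164403) (nat_lit 256) (.e (nat_lit 57371) (nat_lit 2) (.e (nat_lit 90172) (nat_lit 14) .nil))))) .nil)) 
(.lf (nat_lit 165227) (.g (nat_lit 2235) (.e (nat_lit 57465) (nat_lit 23) (.e (nat_lit 516129) (nat_lit 3) (.e (nat_lit 221210) (nat_lit 22) (.e (nat_lit 196681) (nat_lit 17) (.e (nat_lit 131094) (nat_lit 2) (.e (nat_lit 90164) (nat_lit 12) (.e (nat_lit 164017) (nat_lit 44) (.e (nat_lit 688171) (nat_lit 15) .nil)))))))) (.g (nat_lit 5) .nil .nil)))) (.nd (nat_lit 5) 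
(.lf (nat_lit 165211) (.g (nat_lit 2165) (.e (nat_lit 57465) (nat_lit 23) (.e (nat_lit 516129) (nat_lit 3) (.e (nat_lit 221210) (nat_lit 22) (.e (nat_lit 196668) (nat_lit 14) (.e (nat_lit 73744) (nat_lit 2) .nil))))) .nil)) 
(.lf (nat_lit 165243) (.g (nat_lit 3998) (.e (nat_lit 57465) (nat_lit 23) (.e (nat_lit 516129) (nat_lit 3) (.e (nat_lit 221215) (nat_lit 23) (.e (nat_lit 204861) (nat_lit 26) (.e (nat_lit 336004) (nat_lit 2) (.e (nat_lit 90164) (nat_lit 12) (.e (nat_lit 164017) (nat_lit 44) (.e (nat_lit 688171) (nat_lit 15) .nil)))))))) (.g (nat_lit 6) .nil .nil)))))) 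
(.nd (nat_lit 3) (.nd (nat_lit 4) (.nd (nat_lit 5) 
(.lf (nat_lit 165191) (.g (nat_lit 2441) (.e (nat_lit 57465) (nat_lit 23) (.e (nat_lit 516117) (nat_lit 1) (.e (nat_lit 164399) (nat_lit 256) (.e (nat_lit 57379) (nat_lit 3) (.e (nat_lit 98366) (nat_lit 27) .nil))))) .nil)) 
(.lf (nat_lit 165223) (.g (nat_lit 2377) (.e (nat_lit 57465) (nat_lit 23) (.e (nat_lit 516129) (nat_lit 3) (.e (nat_lit 221210) (nat_lit 22) (.e (nat_lit 196670) (nat_lit 14) (.e (nat_lit 73746) (nat_lit 3) (.e (nat_lit 516117) (nat_lit 1) (.e (nat_lit 164164) (nat_lit 152) (.e (nat_lit 1182) (nat_lit 87) .nil)))))))) (.g (nat_lit 4) .nil .nil)))) (.nd (nat_lit 5) 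
(.lf (nat_lit 165207) (.g (nat_lit 1392) (.e (nat_lit 57465) (nat_lit 23) (.e (nat_lit 516129) (nat_lit 3) (.e (nat_lit 221210) (nat_lit 22) (.e (nat_lit 196665) (nat_lit 13) .nil)))) .nil)) 
(.lf (nat_lit 165239) (.g (nat_lit 552) (.e (nat_lit 57465) (nat_lit 23) (.e (nat_lit 516129) (nat_lit 3) (.e (nat_lit 221215) (nat_lit 23) .nil))) .nil)))) (.nd (nat_lit 4) (.nd (nat_lit 5) 
(.lf (nat_lit 165199) (.g (nat_lit 961) (.e (nat_lit 57465) (nat_lit 23) (.e (nat_lit 516120) (nat_lit 1) (.e (nat_lit 164183) (nat_lit 154) .nil))) .nil)) 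
(.lf (nat_lit 165231) (.g (nat_lit 2279) (.e (nat_lit 57465) (nat_lit 23) (.e (nat_lit 516129) (nat_lit 3) (.e (nat_lit 221214) (nat_lit 23) (.e (nat_lit 204861) (nat_lit 26) (.e (nat_lit 336012) (nat_lit 2) .nil))))) .nil))) (.nd (nat_lit 5) 
(.lf (nat_lit 165215) (.g (nat_lit 2053) (.e (nat_lit 57465) (nat_lit 23) (.e (nat_lit 516129) (nat_lit 3) (.e (nat_lit 221210) (nat_lit 22) (.e (nat_lit 196668) (nat_lit 14) (.e (nat_lit 73747) (nat_lit 3) (.e (nat_lit 516115) (nat_lit 1) (.e (nat_lit 164153) (nat_lit 152) (.e (nat_lit 1177) (nat_lit 87) .nil)))))))) (.g (nat_lit 4) .nil .nil))) 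
(.lf (nat_lit 165247) (.g (nat_lit 4122) (.e (nat_lit 57465) (nat_lit 23) (.e (nat_lit 516129) (nat_lit 3) (.e (nat_lit 221215) (nat_lit 23) (.e (nat_lit 204862) (nat_lit 27) (.e (nat_lit 344117) (nat_lit 21) (.e (nat_lit 516097) (nat_lit 0) (.e (nat_lit 3460) (nat_lit 216) (.e (nat_lit 688171) (nat_lit 15) .nil)))))))) (.g (nat_lit 6) .nil .nil)))))))))

noncomputable def tv2218 : DT := (.nd (nat_lit 0) (.nd (nat_lit 1) (.nd (nat_lit 2) (.nd (nat_lit 3) (.nd (nat_lit 4) (.nd (nat_lit 5) (.nd (nat_lit 6) 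
(.lf (nat_lit 165248) (.g (nat_lit 2496) (.e (nat_lit 57465) (nat_lit 23) (.e (nat_lit 516129) (nat_lit 3) (.e (nat_lit 221215) (nat_lit 23) (.e (nat_lit 204863) (nat_lit 27) (.e (nat_lit 344115) (nat_lit 20) .nil))))) .nil)) 
(.lf (nat_lit 165312) (.g (nat_lit 2201) (.e (nat_lit 57465) (nat_lit 23) (.e (nat_lit 516176) (nat_lit 14) (.e (nat_lit 466977) (nat_lit 22) (.e (nat_lit 196670) (nat_lit 14) (.e (nat_lit 73728) (nat_lit 0) .nil))))) .nil))) (.nd (nat_lit 6) 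
(.lf (nat_lit 165280) (.g (nat_lit 2342) (.e (nat_lit 57465) (nat_lit 23) (.e (nat_lit 516146) (nat_lit 9) (.e (nat_lit 426131) (nat_lit 3) (.e (nat_lit 204838) (nat_lit 20) (.e (nat_lit 114719) (nat_lit 23) .nil))))) .nil)) 
(.lf (nat_lit 165344) (.g (nat_lit 2572) (.e (nat_lit 57466) (nat_lit 23) (.e (nat_lit 516115) (nat_lit 1) (.e (nat_lit 164399) (nat_lit 256) (.e (nat_lit 57375) (nat_lit 2) (.e (nat_lit 90174) (nat_lit 14) (.e (nat_lit 180243) (nat_lit 5) (.e (nat_lit 532506) (nat_lit 2) (.e (nat_lit 106539) (nat_lit 12) .nil)))))))) (.g (nat_lit 5) .nil .nil))))) (.nd (nat_lit 5) (.nd (nat_lit 6) 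
(.lf (nat_lit 165264) (.g (nat_lit 3025) (.e (nat_lit 57465) (nat_lit 23) (.e (nat_lit 516131) (nat_lit 3) (.e (nat_lit 221212) (nat_lit 22) (.e (nat_lit 196681) (nat_lit 17) (.e (nat_lit 131094) (nat_lit 2) (.e (nat_lit 90164) (nat_lit 12) (.e (nat_lit 164017) (nat_lit 44) (.e (nat_lit 688171) (nat_lit 15) .nil)))))))) (.g (nat_lit 7) .nil .nil))) 
(.lf (nat_lit 165328) (.g (nat_lit 2704) (.e (nat_lit 57466) (nat_lit 23) (.e (nat_lit 516115) (nat_lit 1) (.e (nat_lit 164398) (nat_lit 256) (.e (nat_lit 57372) (nat_lit 2) (.e (nat_lit 90172) (nat_lit 14) .nil))))) .nil))) (.nd (nat_lit 6) 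
(.lf (nat_lit 165296) (.g (nat_lit 1174) (.e (nat_lit 57465) (nat_lit 23) (.e (nat_lit 516166) (nat_lit 12) (.e (nat_lit 450587) (nat_lit 10) .nil))) .nil)) 
(.lf (nat_lit 165360) (.g (nat_lit 2788) (.e (nat_lit 57466) (nat_lit 23) (.e (nat_lit 516117) (nat_lit 1) (.e (nat_lit 164398) (nat_lit 256) (.e (nat_lit 57372) (nat_lit 2) (.e (nat_lit 90172) (nat_lit 14) (.e (nat_lit 180243) (nat_lit 5) (.e (nat_lit 532508) (nat_lit 2) (.e (nat_lit 106539) (nat_lit 12) .nil)))))))) (.g (nat_lit 4) .nil .nil)))))) 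
(.nd (nat_lit 4) (.nd (nat_lit 5) (.nd (nat_lit 6) 
(.lf (nat_lit 165256) (.g (nat_lit 1829) (.e (nat_lit 57465) (nat_lit 23) (.e (nat_lit 516131) (nat_lit 3) (.e (nat_lit 221212) (nat_lit 22) (.e (nat_lit 196668) (nat_lit 14) (.e (nat_lit 73746) (nat_lit 3) (.e (nat_lit 516120) (nat_lit 1) (.e (nat_lit 164166) (nat_lit 152) (.e (nat_lit 1182) (nat_lit 87) .nil)))))))) (.g (nat_lit 4) .nil .nil))) 
(.lf (nat_lit 165320) (.g (nat_lit 830) (.e (nat_lit 57465) (nat_lit 23) (.e (nat_lit 516185) (nat_lit 16) (.e (nat_lit 491568) (nat_lit 13) .nil))) .nil))) (.nd (nat_lit 6) 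
(.lf (nat_lit 165288) (.g (nat_lit 453) (.e (nat_lit 57465) (nat_lit 23) (.e (nat_lit 516146) (nat_lit 9) (.e (nat_lit 426438) (nat_lit 18) .nil))) .nil)) 
(.lf (nat_lit 165352) (.g (nat_lit 2064) (.e (nat_lit 57466) (nat_lit 23) (.e (nat_lit 516117) (nat_lit 1) (.e (nat_lit 164396) (nat_lit 256) (.e (nat_lit 57371) (nat_lit 2) (.e (nat_lit 90172) (nat_lit 14) .nil))))) .nil)))) (.nd (nat_lit 5) (.nd (nat_lit 6) 
(.lf (nat_lit 165272) (.g (nat_lit 1558) (.e (nat_lit 57465) (nat_lit 23) (.e (nat_lit 516131) (nat_lit 3) (.e (nat_lit 221215) (nat_lit 23) (.e (nat_lit 204862) (nat_lit 27) (.e (nat_lit 344115) (nat_lit 20) .nil))))) .nil)) 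
(.lf (nat_lit 165336) (.g (nat_lit 2709) (.e (nat_lit 57466) (nat_lit 23) (.e (nat_lit 516115) (nat_lit 1) (.e (nat_lit 164399) (nat_lit 256) (.e (nat_lit 57372) (nat_lit 2) (.e (nat_lit 90174) (nat_lit 14) (.e (nat_lit 180243) (nat_lit 5) (.e (nat_lit 532508) (nat_lit 2) (.e (nat_lit 106537) (nat_lit 12) .nil)))))))) (.g (nat_lit 5) .nil .nil)))) (.nd (nat_lit 6) 
(.lf (nat_lit 165304) (.g (nat_lit 554) (.e (nat_lit 57465) (nat_lit 23) (.e (nat_lit 516174) (nat_lit 14) (.e (nat_lit 466975) (nat_lit 22) .nil))) .nil)) 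
(.lf (nat_lit 165368) (.g (nat_lit 3959) (.e (nat_lit 57466) (nat_lit 23) (.e (nat_lit 516117) (nat_lit 1) (.e (nat_lit 164398) (nat_lit 256) (.e (nat_lit 57373) (nat_lit 2) (.e (nat_lit 90174) (nat_lit 14) (.e (nat_lit 180243) (nat_lit 5) (.e (nat_lit 532508) (nat_lit 2) (.e (nat_lit 106539) (nat_lit 12) .nil)))))))) (.g (nat_lit 6) .nil .nil))))))) 
(.nd (nat_lit 3) (.nd (nat_lit 4) (.nd (nat_lit 5) (.nd (nat_lit 6) 
(.lf (nat_lit 165252) (.g (nat_lit 1603) (.e (nat_lit 57465) (nat_lit 23) (.e (nat_lit 516131) (nat_lit 3) (.e (nat_lit 221211) (nat_lit 22) (.e (nat_lit 196666) (nat_lit 13) (.e (nat_lit 65571) (nat_lit 3) .nil))))) .nil)) 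
(.lf (nat_lit 165316) (.g (nat_lit 2115) (.e (nat_lit 57465) (nat_lit 23) (.e (nat_lit 516176) (nat_lit 14) (.e (nat_lit 466981) (nat_lit 23) (.e (nat_lit 204861) (nat_lit 26) (.e (nat_lit 335897) (nat_lit 0) .nil))))) .nil))) (.nd (nat_lit 6) 
(.lf (nat_lit 165284) (.g (nat_lit 2667) (.e (nat_lit 57465) (nat_lit 23) (.e (nat_lit 516146) (nat_lit 9) (.e (nat_lit 426428) (nat_lit 17) (.e (nat_lit 90174) (nat_lit 14) (.e (nat_lit 180243) (nat_lit 5) (.e (nat_lit 532501) (nat_lit 1) (.e (nat_lit 57754) (nat_lit 209) (.e (nat_lit 1172) (nat_lit 87) .nil)))))))) (.g (nat_lit 5) .nil .nil))) 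
(.lf (nat_lit 165348) (.g (nat_lit 2973) (.e (nat_lit 57466) (nat_lit 23) (.e (nat_lit 516115) (nat_lit 1) (.e (nat_lit 164403) (nat_lit 256) (.e (nat_lit 57373) (nat_lit 2) (.e (nat_lit 90172) (nat_lit 14) .nil))))) .nil)))) (.nd (nat_lit 5) (.nd (nat_lit 6) 
(.lf (nat_lit 165268) (.g (nat_lit 1928) (.e (nat_lit 57465) (nat_lit 23) (.e (nat_lit 516131) (nat_lit 3) (.e (nat_lit 221215) (nat_lit 23) (.e (nat_lit 204852) (nat_lit 26) (.e (nat_lit 336326) (nat_lit 18) .nil))))) .nil)) 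
(.lf (nat_lit 165332) (.g (nat_lit 2046) (.e (nat_lit 57466) (nat_lit 23) (.e (nat_lit 516115) (nat_lit 1) (.e (nat_lit 164399) (nat_lit 256) (.e (nat_lit 57372) (nat_lit 2) (.e (nat_lit 90167) (nat_lit 13) .nil))))) .nil))) (.nd (nat_lit 6) 
(.lf (nat_lit 165300) (.g (nat_lit 5134) (.e (nat_lit 57465) (nat_lit 23) (.e (nat_lit 516166) (nat_lit 12) (.e (nat_lit 450588) (nat_lit 10) (.e (nat_lit 573452) (nat_lit 9) .nil)))) .nil)) 
(.lf (nat_lit 165364) (.g (nat_lit 2910) (.e (nat_lit 57466) (nat_lit 23) (.e (nat_lit 516117) (nat_lit 1) (.e (nat_lit 164398) (nat_lit 256) (.e (nat_lit 57372) (nat_lit 2) (.e (nat_lit 90174) (nat_lit 14) (.e (nat_lit 180243) (nat_lit 5) (.e (nat_lit 532511) (nat_lit 2) (.e (nat_lit 106539) (nat_lit 12) .nil)))))))) (.g (nat_lit 4) .nil .nil)))))) 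
(.nd (nat_lit 4) (.nd (nat_lit 5) (.nd (nat_lit 6) 
(.lf (nat_lit 165260) (.g (nat_lit 3217) (.e (nat_lit 57465) (nat_lit 23) (.e (nat_lit 516131) (nat_lit 3) (.e (nat_lit 221212) (nat_lit 22) (.e (nat_lit 196681) (nat_lit 17) (.e (nat_lit 131091) (nat_lit 2) (.e (nat_lit 90164) (nat_lit 12) (.e (nat_lit 164017) (nat_lit 44) (.e (nat_lit 688171) (nat_lit 15) .nil)))))))) (.g (nat_lit 7) .nil .nil))) 
(.lf (nat_lit 165324) (.g (nat_lit 2025) (.e (nat_lit 57465) (nat_lit 23) (.e (nat_lit 516185) (nat_lit 16) (.e (nat_lit 491569) (nat_lit 13) (.e (nat_lit 401152) (nat_lit 10) .nil)))) .nil))) (.nd (nat_lit 6) 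
(.lf (nat_lit 165292) (.g (nat_lit 3003) (.e (nat_lit 57465) (nat_lit 23) (.e (nat_lit 516150) (nat_lit 9) (.e (nat_lit 426131) (nat_lit 3) (.e (nat_lit 204838) (nat_lit 20) (.e (nat_lit 114716) (nat_lit 22) .nil))))) .nil)) 
(.lf (nat_lit 165356) (.g (nat_lit 1949) (.e (nat_lit 57466) (nat_lit 23) (.e (nat_lit 516117) (nat_lit 1) (.e (nat_lit 164397) (nat_lit 256) (.e (nat_lit 57375) (nat_lit 2) (.e (nat_lit 90172) (nat_lit 14) .nil))))) .nil)))) (.nd (nat_lit 5) (.nd (nat_lit 6) 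
(.lf (nat_lit 165276) (.g (nat_lit 1913) (.e (nat_lit 57465) (nat_lit 23) (.e (nat_lit 516131) (nat_lit 3) (.e (nat_lit 221215) (nat_lit 23) (.e (nat_lit 204882) (nat_lit 32) .nil)))) .nil)) 
(.lf (nat_lit 165340) (.g (nat_lit 4211) (.e (nat_lit 57466) (nat_lit 23) (.e (nat_lit 516115) (nat_lit 1) (.e (nat_lit 164399) (nat_lit 256) (.e (nat_lit 57373) (nat_lit 2) (.e (nat_lit 90174) (nat_lit 14) (.e (nat_lit 180243) (nat_lit 5) (.e (nat_lit 532508) (nat_lit 2) (.e (nat_lit 106539) (nat_lit 12) .nil)))))))) (.g (nat_lit 7) .nil .nil)))) (.nd (nat_lit 6) 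
(.lf (nat_lit 165308) (.g (nat_lit 523) (.e (nat_lit 57465) (nat_lit 23) (.e (nat_lit 516176) (nat_lit 14) (.e (nat_lit 466976) (nat_lit 22) .nil))) .nil)) 
(.lf (nat_lit 165372) (.g (nat_lit 2950) (.e (nat_lit 57466) (nat_lit 23) (.e (nat_lit 516117) (nat_lit 1) (.e (nat_lit 164398) (nat_lit 256) (.e (nat_lit 57374) (nat_lit 2) (.e (nat_lit 90170) (nat_lit 13) .nil))))) .nil))))))) (.nd (nat_lit 2) (.nd (nat_lit 3) (.nd (nat_lit 4) (.nd (nat_lit 5) (.nd (nat_lit 6) 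
(.lf (nat_lit 165250) (.g (nat_lit 2222) (.e (nat_lit 57465) (nat_lit 23) (.e (nat_lit 516129) (nat_lit 3) (.e (nat_lit 221215) (nat_lit 23) (.e (nat_lit 204880) (nat_lit 32) (.e (nat_lit 385066) (nat_lit 26) .nil))))) .nil)) 
(.lf (nat_lit 165314) (.g (nat_lit 1287) (.e (nat_lit 57465) (nat_lit 23) (.e (nat_lit 516176) (nat_lit 14) (.e (nat_lit 466981) (nat_lit 23) (.e (nat_lit 204861) (nat_lit 26) .nil)))) .nil))) (.nd (nat_lit 6) 
(.lf (nat_lit 165282) (.g (nat_lit 4044) (.e (nat_lit 57465) (nat_lit 23) (.e (nat_lit 516146) (nat_lit 9) (.e (nat_lit 426428) (nat_lit 17) (.e (nat_lit 90170) (nat_lit 13) (.e (nat_lit 172065) (nat_lit 3) (.e (nat_lit 204830) (nat_lit 18) (.e (nat_lit 57754) (nat_lit 209) (.e (nat_lit 1182) (nat_lit 87) .nil)))))))) (.g (nat_lit 6) .nil .nil))) 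
(.lf (nat_lit 165346) (.g (nat_lit 2409) (.e (nat_lit 57466) (nat_lit 23) (.e (nat_lit 516115) (nat_lit 1) (.e (nat_lit 164403) (nat_lit 256) (.e (nat_lit 57371) (nat_lit 2) (.e (nat_lit 90174) (nat_lit 14) .nil))))) .nil)))) (.nd (nat_lit 5) (.nd (nat_lit 6) 
(.lf (nat_lit 165266) (.g (nat_lit 1717) (.e (nat_lit 57465) (nat_lit 23) (.e (nat_lit 516131) (nat_lit 3) (.e (nat_lit 221212) (nat_lit 22) (.e (nat_lit 196681) (nat_lit 17) (.e (nat_lit 131096) (nat_lit 3) .nil))))) .nil)) 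
(.lf (nat_lit 165330) (.g (nat_lit 2412) (.e (nat_lit 57466) (nat_lit 23) (.e (nat_lit 516115) (nat_lit 1) (.e (nat_lit 164398) (nat_lit 256) (.e (nat_lit 57373) (nat_lit 2) (.e (nat_lit 90174) (nat_lit 14) (.e (nat_lit 180243) (nat_lit 5) (.e (nat_lit 532511) (nat_lit 2) (.e (nat_lit 106537) (nat_lit 12) .nil)))))))) (.g (nat_lit 4) .nil .nil)))) (.nd (nat_lit 6) 
(.lf (nat_lit 165298) (.g (nat_lit 4090) (.e (nat_lit 57465) (nat_lit 23) (.e (nat_lit 516166) (nat_lit 12) (.e (nat_lit 450587) (nat_lit 10) (.e (nat_lit 573457) (nat_lit 9) .nil)))) .nil)) 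
(.lf (nat_lit 165362) (.g (nat_lit 2867) (.e (nat_lit 57466) (nat_lit 23) (.e (nat_lit 516117) (nat_lit 1) (.e (nat_lit 164398) (nat_lit 256) (.e (nat_lit 57372) (nat_lit 2) (.e (nat_lit 90174) (nat_lit 14) (.e (nat_lit 180243) (nat_lit 5) (.e (nat_lit 532508) (nat_lit 2) (.e (nat_lit 106539) (nat_lit 12) .nil)))))))) (.g (nat_lit 4) .nil .nil)))))) 
(.nd (nat_lit 4) (.nd (nat_lit 5) (.nd (nat_lit 6) 
(.lf (nat_lit 165258) (.g (nat_lit 2035) (.e (nat_lit 57465) (nat_lit 23) (.e (nat_lit 516131) (nat_lit 3) (.e (nat_lit 221212) (nat_lit 22) (.e (nat_lit 196670) (nat_lit 14) (.e (nat_lit 73746) (nat_lit 3) (.e (nat_lit 516100) (nat_lit 0) (.e (nat_lit 7936) (nat_lit 216) (.e (nat_lit 688168) (nat_lit 15) .nil)))))))) (.g (nat_lit 5) .nil .nil))) 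
(.lf (nat_lit 165322) (.g (nat_lit 3415) (.e (nat_lit 57465) (nat_lit 23) (.e (nat_lit 516185) (nat_lit 16) (.e (nat_lit 491568) (nat_lit 13) (.e (nat_lit 393229) (nat_lit 9) (.e (nat_lit 335892) (nat_lit 0) .nil))))) .nil))) (.nd (nat_lit 6) 
(.lf (nat_lit 165290) (.g (nat_lit 1899) (.e (nat_lit 57465) (nat_lit 23) (.e (nat_lit 516150) (nat_lit 9) (.e (nat_lit 426131) (nat_lit 3) (.e (nat_lit 204838) (nat_lit 20) .nil)))) .nil)) 
(.lf (nat_lit 165354) (.g (nat_lit 2977) (.e (nat_lit 57466) (nat_lit 23) (.e (nat_lit 516117) (nat_lit 1) (.e (nat_lit 164396) (nat_lit 256) (.e (nat_lit 57371) (nat_lit 2) (.e (nat_lit 90174) (nat_lit 14) (.e (nat_lit 180243) (nat_lit 5) (.e (nat_lit 532510) (nat_lit 2) (.e (nat_lit 106539) (nat_lit 12) .nil)))))))) (.g (nat_lit 5) .nil .nil))))) (.nd (nat_lit 5) (.nd (nat_lit 6) 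
(.lf (nat_lit 165274) (.g (nat_lit 2150) (.e (nat_lit 57465) (nat_lit 23) (.e (nat_lit 516131) (nat_lit 3) (.e (nat_lit 221215) (nat_lit 23) (.e (nat_lit 204863) (nat_lit 27) (.e (nat_lit 344115) (nat_lit 20) (.e (nat_lit 507906) (nat_lit 0) (.e (nat_lit 720) (nat_lit 64) (.e (nat_lit 688170) (nat_lit 15) .nil)))))))) (.g (nat_lit 4) .nil .nil))) 
(.lf (nat_lit 165338) (.g (nat_lit 3124) (.e (nat_lit 57466) (nat_lit 23) (.e (nat_lit 516115) (nat_lit 1) (.e (nat_lit 164399) (nat_lit 256) (.e (nat_lit 57373) (nat_lit 2) (.e (nat_lit 90170) (nat_lit 13) (.e (nat_lit 172065) (nat_lit 3) (.e (nat_lit 204834) (nat_lit 19) (.e (nat_lit 106537) (nat_lit 12) .nil)))))))) (.g (nat_lit 6) .nil .nil)))) (.nd (nat_lit 6) 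
(.lf (nat_lit 165306) (.g (nat_lit 1489) (.e (nat_lit 57465) (nat_lit 23) (.e (nat_lit 516176) (nat_lit 14) (.e (nat_lit 466974) (nat_lit 22) (.e (nat_lit 196668) (nat_lit 14) .nil)))) .nil)) 
(.lf (nat_lit 165370) (.g (nat_lit 3951) (.e (nat_lit 57466) (nat_lit 23) (.e (nat_lit 516117) (nat_lit 1) (.e (nat_lit 164398) (nat_lit 256) (.e (nat_lit 57373) (nat_lit 2) (.e (nat_lit 90174) (nat_lit 14) (.e (nat_lit 180243) (nat_lit 5) (.e (nat_lit 532510) (nat_lit 2) (.e (nat_lit 106539) (nat_lit 12) .nil)))))))) (.g (nat_lit 6) .nil .nil))))))) 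
(.nd (nat_lit 3) (.nd (nat_lit 4) (.nd (nat_lit 5) (.nd (nat_lit 6) 
(.lf (nat_lit 165254) (.g (nat_lit 1754) (.e (nat_lit 57465) (nat_lit 23) (.e (nat_lit 516131) (nat_lit 3) (.e (nat_lit 221212) (nat_lit 22) (.e (nat_lit 196668) (nat_lit 14) (.e (nat_lit 73746) (nat_lit 3) .nil))))) .nil)) 
(.lf (nat_lit 165318) (.g (nat_lit 1891) (.e (nat_lit 57465) (nat_lit 23) (.e (nat_lit 516182) (nat_lit 15) (.e (nat_lit 475211) (nat_lit 41) (.e (nat_lit 712745) (nat_lit 27) (.e (nat_lit 433920) (nat_lit 28) (.e (nat_lit 344160) (nat_lit 37) (.e (nat_lit 647201) (nat_lit 12) .nil))))))) (.g (nat_lit 4) .nil .nil)))) (.nd (nat_lit 6) 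
(.lf (nat_lit 165286) (.g (nat_lit 2545) (.e (nat_lit 57465) (nat_lit 23) (.e (nat_lit 516146) (nat_lit 9) (.e (nat_lit 426428) (nat_lit 17) (.e (nat_lit 90185) (nat_lit 17) (.e (nat_lit 237592) (nat_lit 3) (.e (nat_lit 204830) (nat_lit 18) (.e (nat_lit 57754) (nat_lit 209) (.e (nat_lit 1182) (nat_lit 87) .nil)))))))) (.g (nat_lit 4) .nil .nil))) 
(.lf (nat_lit 165350) (.g (nat_lit 2873) (.e (nat_lit 57466) (nat_lit 23) (.e (nat_lit 516115) (nat_lit 1) (.e (nat_lit 164403) (nat_lit 256) (.e (nat_lit 57373) (nat_lit 2) (.e (nat_lit 90174) (nat_lit 14) (.e (nat_lit 180243) (nat_lit 5) (.e (nat_lit 532508) (nat_lit 2) (.e (nat_lit 106537) (nat_lit 12) .nil)))))))) (.g (nat_lit 4) .nil .nil))))) (.nd (nat_lit 5) (.nd (nat_lit 6) 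
(.lf (nat_lit 165270) (.g (nat_lit 2564) (.e (nat_lit 57465) (nat_lit 23) (.e (nat_lit 516131) (nat_lit 3) (.e (nat_lit 221215) (nat_lit 23) (.e (nat_lit 204861) (nat_lit 26) (.e (nat_lit 336012) (nat_lit 2) .nil))))) .nil)) 
(.lf (nat_lit 165334) (.g (nat_lit 3260) (.e (nat_lit 57466) (nat_lit 23) (.e (nat_lit 516115) (nat_lit 1) (.e (nat_lit 164399) (nat_lit 256) (.e (nat_lit 57372) (nat_lit 2) (.e (nat_lit 90172) (nat_lit 14) (.e (nat_lit 180243) (nat_lit 5) (.e (nat_lit 532510) (nat_lit 2) (.e (nat_lit 106539) (nat_lit 12) .nil)))))))) (.g (nat_lit 5) .nil .nil)))) (.nd (nat_lit 6) 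
(.lf (nat_lit 165302) (.g (nat_lit 704) (.e (nat_lit 57465) (nat_lit 23) (.e (nat_lit 516174) (nat_lit 14) (.e (nat_lit 466947) (nat_lit 0) .nil))) .nil)) 
(.lf (nat_lit 165366) (.g (nat_lit 2596) (.e (nat_lit 57466) (nat_lit 23) (.e (nat_lit 516117) (nat_lit 1) (.e (nat_lit 164398) (nat_lit 256) (.e (nat_lit 57373) (nat_lit 2) (.e (nat_lit 90172) (nat_lit 14) (.e (nat_lit 180244) (nat_lit 5) (.e (nat_lit 532508) (nat_lit 2) (.e (nat_lit 106539) (nat_lit 12) .nil)))))))) (.g (nat_lit 4) .nil .nil)))))) 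
(.nd (nat_lit 4) (.nd (nat_lit 5) (.nd (nat_lit 6) 
(.lf (nat_lit 165262) (.g (nat_lit 3382) (.e (nat_lit 57465) (nat_lit 23) (.e (nat_lit 516131) (nat_lit 3) (.e (nat_lit 221212) (nat_lit 22) (.e (nat_lit 196681) (nat_lit 17) (.e (nat_lit 131093) (nat_lit 2) (.e (nat_lit 90164) (nat_lit 12) (.e (nat_lit 164017) (nat_lit 44) (.e (nat_lit 688171) (nat_lit 15) .nil)))))))) (.g (nat_lit 8) .nil .nil))) 
(.lf (nat_lit 165326) (.g (nat_lit 2084) (.e (nat_lit 57465) (nat_lit 23) (.e (nat_lit 516195) (nat_lit 26) (.e (nat_lit 336204) (nat_lit 12) (.e (nat_lit 385074) (nat_lit 31) (.e (nat_lit 573482) (nat_lit 13) .nil))))) .nil))) (.nd (nat_lit 6) 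
(.lf (nat_lit 165294) (.g (nat_lit 1360) (.e (nat_lit 57465) (nat_lit 23) (.e (nat_lit 516151) (nat_lit 9) (.e (nat_lit 426211) (nat_lit 9) .nil))) .nil)) 
(.lf (nat_lit 165358) (.g (nat_lit 1703) (.e (nat_lit 57466) (nat_lit 23) (.e (nat_lit 516117) (nat_lit 1) (.e (nat_lit 164398) (nat_lit 256) (.e (nat_lit 57371) (nat_lit 2) .nil)))) .nil)))) (.nd (nat_lit 5) (.nd (nat_lit 6) 
(.lf (nat_lit 165278) (.g (nat_lit 2564) (.e (nat_lit 57465) (nat_lit 23) (.e (nat_lit 516146) (nat_lit 9) (.e (nat_lit 426131) (nat_lit 3) (.e (nat_lit 204838) (nat_lit 20) (.e (nat_lit 114716) (nat_lit 22) .nil))))) .nil)) 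
(.lf (nat_lit 165342) (.g (nat_lit 3634) (.e (nat_lit 57466) (nat_lit 23) (.e (nat_lit 516115) (nat_lit 1) (.e (nat_lit 164399) (nat_lit 256) (.e (nat_lit 57374) (nat_lit 2) (.e (nat_lit 90170) (nat_lit 13) (.e (nat_lit 172065) (nat_lit 3) (.e (nat_lit 204834) (nat_lit 19) (.e (nat_lit 106539) (nat_lit 12) .nil)))))))) (.g (nat_lit 5) .nil .nil)))) (.nd (nat_lit 6) 
(.lf (nat_lit 165310) (.g (nat_lit 1586) (.e (nat_lit 57465) (nat_lit 23) (.e (nat_lit 516176) (nat_lit 14) (.e (nat_lit 466977) (nat_lit 22) (.e (nat_lit 196668) (nat_lit 14) (.e (nat_lit 81664) (nat_lit 0) .nil))))) .nil)) 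
(.lf (nat_lit 165374) (.g (nat_lit 2566) (.e (nat_lit 57466) (nat_lit 23) (.e (nat_lit 516117) (nat_lit 1) (.e (nat_lit 164398) (nat_lit 256) (.e (nat_lit 57375) (nat_lit 2) (.e (nat_lit 90172) (nat_lit 14) (.e (nat_lit 180244) (nat_lit 5) (.e (nat_lit 532506) (nat_lit 2) (.e (nat_lit 106539) (nat_lit 12) .nil)))))))) (.g (nat_lit 4) .nil .nil))))))))) 
(.nd (nat_lit 1) (.nd (nat_lit 2) (.nd (nat_lit 3) (.nd (nat_lit 4) (.nd (nat_lit 5) 
(.nd (nat_lit 6) 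
(.lf (nat_lit 165249) (.g (nat_lit 1722) (.e (nat_lit 57465) (nat_lit 23) (.e (nat_lit 516129) (nat_lit 3) (.e (nat_lit 221215) (nat_lit 23) (.e (nat_lit 204879) (nat_lit 32) .nil)))) .nil)) 
(.lf (nat_lit 165313) (.g (nat_lit 2529) (.e (nat_lit 57465) (nat_lit 23) (.e (nat_lit 516176) (nat_lit 14) (.e (nat_lit 466977) (nat_lit 22) (.e (nat_lit 196681) (nat_lit 17) (.e (nat_lit 131077) (nat_lit 0) .nil))))) .nil))) (.nd (nat_lit 6) 
(.lf (nat_lit 165281) (.g (nat_lit 2296) (.e (nat_lit 57465) (nat_lit 23) (.e (nat_lit 516146) (nat_lit 9) (.e (nat_lit 426428) (nat_lit 17) (.e (nat_lit 90170) (nat_lit 13) (.e (nat_lit 172065) (nat_lit 3) (.e (nat_lit 204830) (nat_lit 18) (.e (nat_lit 57754) (nat_lit 209) (.e (nat_lit 1171) (nat_lit 87) .nil)))))))) (.g (nat_lit 4) .nil .nil))) 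
(.lf (nat_lit 165345) (.g (nat_lit 2110) (.e (nat_lit 57466) (nat_lit 23) (.e (nat_lit 516115) (nat_lit 1) (.e (nat_lit 164399) (nat_lit 256) (.e (nat_lit 57375) (nat_lit 2) (.e (nat_lit 90174) (nat_lit 14) (.e (nat_lit 180243) (nat_lit 5) (.e (nat_lit 532511) (nat_lit 2) (.e (nat_lit 106537) (nat_lit 12) .nil)))))))) (.g (nat_lit 4) .nil .nil))))) (.nd (nat_lit 5) (.nd (nat_lit 6) 
(.lf (nat_lit 165265) (.g (nat_lit 1911) (.e (nat_lit 57465) (nat_lit 23) (.e (nat_lit 516131) (nat_lit 3) (.e (nat_lit 221212) (nat_lit 22) (.e (nat_lit 196681) (nat_lit 17) (.e (nat_lit 131094) (nat_lit 2) (.e (nat_lit 90181) (nat_lit 16) (.e (nat_lit 229453) (nat_lit 44) (.e (nat_lit 688171) (nat_lit 15) .nil)))))))) (.g (nat_lit 4) .nil .nil))) 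
(.lf (nat_lit 165329) (.g (nat_lit 2410) (.e (nat_lit 57466) (nat_lit 23) (.e (nat_lit 516115) (nat_lit 1) (.e (nat_lit 164398) (nat_lit 256) (.e (nat_lit 57373) (nat_lit 2) (.e (nat_lit 90172) (nat_lit 14) .nil))))) .nil))) (.nd (nat_lit 6) 
(.lf (nat_lit 165297) (.g (nat_lit 4116) (.e (nat_lit 57465) (nat_lit 23) (.e (nat_lit 516166) (nat_lit 12) (.e (nat_lit 450587) (nat_lit 10) (.e (nat_lit 573456) (nat_lit 9) .nil)))) .nil)) 
(.lf (nat_lit 165361) (.g (nat_lit 3029) (.e (nat_lit 57466) (nat_lit 23) (.e (nat_lit 516117) (nat_lit 1) (.e (nat_lit 164398) (nat_lit 256) (.e (nat_lit 57372) (nat_lit 2) (.e (nat_lit 90172) (nat_lit 14) (.e (nat_lit 180244) (nat_lit 5) (.e (nat_lit 532506) (nat_lit 2) (.e (nat_lit 106539) (nat_lit 12) .nil)))))))) (.g (nat_lit 4) .nil .nil)))))) 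
(.nd (nat_lit 4) (.nd (nat_lit 5) (.nd (nat_lit 6) 
(.lf (nat_lit 165257) (.g (nat_lit 1431) (.e (nat_lit 57465) (nat_lit 23) (.e (nat_lit 516131) (nat_lit 3) (.e (nat_lit 221212) (nat_lit 22) (.e (nat_lit 196668) (nat_lit 14) (.e (nat_lit 73747) (nat_lit 3) .nil))))) .nil)) 
(.lf (nat_lit 165321) (.g (nat_lit 2424) (.e (nat_lit 57465) (nat_lit 23) (.e (nat_lit 516185) (nat_lit 16) (.e (nat_lit 491568) (nat_lit 13) (.e (nat_lit 393229) (nat_lit 9) .nil)))) .nil))) (.nd (nat_lit 6) 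
(.lf (nat_lit 165289) (.g (nat_lit 3261) (.e (nat_lit 57465) (nat_lit 23) (.e (nat_lit 516146) (nat_lit 9) (.e (nat_lit 426438) (nat_lit 18) (.e (nat_lit 98377) (nat_lit 30) (.e (nat_lit 458789) (nat_lit 23) (.e (nat_lit 532501) (nat_lit 1) (.e (nat_lit 57754) (nat_lit 209) (.e (nat_lit 1182) (nat_lit 87) .nil)))))))) (.g (nat_lit 6) .nil .nil))) 
(.lf (nat_lit 165353) (.g (nat_lit 2968) (.e (nat_lit 57466) (nat_lit 23) (.e (nat_lit 516117) (nat_lit 1) (.e (nat_lit 164396) (nat_lit 256) (.e (nat_lit 57371) (nat_lit 2) (.e (nat_lit 90174) (nat_lit 14) (.e (nat_lit 180243) (nat_lit 5) (.e (nat_lit 532508) (nat_lit 2) (.e (nat_lit 106539) (nat_lit 12) .nil)))))))) (.g (nat_lit 5) .nil .nil))))) (.nd (nat_lit 5) (.nd (nat_lit 6) 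
(.lf (nat_lit 165273) (.g (nat_lit 2987) (.e (nat_lit 57465) (nat_lit 23) (.e (nat_lit 516131) (nat_lit 3) (.e (nat_lit 221215) (nat_lit 23) (.e (nat_lit 204862) (nat_lit 27) (.e (nat_lit 344115) (nat_lit 20) (.e (nat_lit 507906) (nat_lit 0) (.e (nat_lit 720) (nat_lit 64) (.e (nat_lit 688171) (nat_lit 15) .nil)))))))) (.g (nat_lit 7) .nil .nil))) 
(.lf (nat_lit 165337) (.g (nat_lit 2710) (.e (nat_lit 57466) (nat_lit 23) (.e (nat_lit 516115) (nat_lit 1) (.e (nat_lit 164399) (nat_lit 256) (.e (nat_lit 57372) (nat_lit 2) (.e (nat_lit 90174) (nat_lit 14) (.e (nat_lit 180243) (nat_lit 5) (.e (nat_lit 532510) (nat_lit 2) (.e (nat_lit 106537) (nat_lit 12) .nil)))))))) (.g (nat_lit 5) .nil .nil)))) (.nd (nat_lit 6) 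
(.lf (nat_lit 165305) (.g (nat_lit 1491) (.e (nat_lit 57465) (nat_lit 23) (.e (nat_lit 516174) (nat_lit 14) (.e (nat_lit 466977) (nat_lit 22) (.e (nat_lit 196668) (nat_lit 14) .nil)))) .nil)) 
(.lf (nat_lit 165369) (.g (nat_lit 3101) (.e (nat_lit 57466) (nat_lit 23) (.e (nat_lit 516117) (nat_lit 1) (.e (nat_lit 164398) (nat_lit 256) (.e (nat_lit 57373) (nat_lit 2) (.e (nat_lit 90174) (nat_lit 14) (.e (nat_lit 180243) (nat_lit 5) (.e (nat_lit 532510) (nat_lit 2) (.e (nat_lit 106537) (nat_lit 12) .nil)))))))) (.g (nat_lit 5) .nil .nil))))))) 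
(.nd (nat_lit 3) (.nd (nat_lit 4) (.nd (nat_lit 5) (.nd (nat_lit 6) 
(.lf (nat_lit 165253) (.g (nat_lit 1839) (.e (nat_lit 57465) (nat_lit 23) (.e (nat_lit 516131) (nat_lit 3) (.e (nat_lit 221212) (nat_lit 22) (.e (nat_lit 196668) (nat_lit 14) (.e (nat_lit 73744) (nat_lit 2) (.e (nat_lit 507906) (nat_lit 0) (.e (nat_lit 720) (nat_lit 64) (.e (nat_lit 688171) (nat_lit 15) .nil)))))))) (.g (nat_lit 4) .nil .nil))) 
(.lf (nat_lit 165317) (.g (nat_lit 814) (.e (nat_lit 57465) (nat_lit 23) (.e (nat_lit 516179) (nat_lit 15) (.e (nat_lit 475210) (nat_lit 41) .nil))) .nil))) (.nd (nat_lit 6) 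
(.lf (nat_lit 165285) (.g (nat_lit 2339) (.e (nat_lit 57465) (nat_lit 23) (.e (nat_lit 516146) (nat_lit 9) (.e (nat_lit 426428) (nat_lit 17) (.e (nat_lit 90185) (nat_lit 17) (.e (nat_lit 237592) (nat_lit 3) .nil))))) .nil)) 
(.lf (nat_lit 165349) (.g (nat_lit 3094) (.e (nat_lit 57466) (nat_lit 23) (.e (nat_lit 516115) (nat_lit 1) (.e (nat_lit 164403) (nat_lit 256) (.e (nat_lit 57373) (nat_lit 2) (.e (nat_lit 90174) (nat_lit 14) (.e (nat_lit 180243) (nat_lit 5) (.e (nat_lit 532506) (nat_lit 2) (.e (nat_lit 106539) (nat_lit 12) .nil)))))))) (.g (nat_lit 4) .nil .nil))))) (.nd (nat_lit 5) (.nd (nat_lit 6) 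
(.lf (nat_lit 165269) (.g (nat_lit 2819) (.e (nat_lit 57465) (nat_lit 23) (.e (nat_lit 516131) (nat_lit 3) (.e (nat_lit 221215) (nat_lit 23) (.e (nat_lit 204861) (nat_lit 26) (.e (nat_lit 336010) (nat_lit 2) (.e (nat_lit 90164) (nat_lit 12) (.e (nat_lit 164017) (nat_lit 44) (.e (nat_lit 688171) (nat_lit 15) .nil)))))))) (.g (nat_lit 5) .nil .nil))) 
(.lf (nat_lit 165333) (.g (nat_lit 2102) (.e (nat_lit 57466) (nat_lit 23) (.e (nat_lit 516115) (nat_lit 1) (.e (nat_lit 164399) (nat_lit 256) (.e (nat_lit 57372) (nat_lit 2) (.e (nat_lit 90172) (nat_lit 14) .nil))))) .nil))) (.nd (nat_lit 6) 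
(.lf (nat_lit 165301) (.g (nat_lit 5828) (.e (nat_lit 57465) (nat_lit 23) (.e (nat_lit 516166) (nat_lit 12) (.e (nat_lit 450588) (nat_lit 10) (.e (nat_lit 573457) (nat_lit 9) .nil)))) .nil)) 
(.lf (nat_lit 165365) (.g (nat_lit 2375) (.e (nat_lit 57466) (nat_lit 23) (.e (nat_lit 516117) (nat_lit 1) (.e (nat_lit 164398) (nat_lit 256) (.e (nat_lit 57373) (nat_lit 2) (.e (nat_lit 90170) (nat_lit 13) .nil))))) .nil))))) (.nd (nat_lit 4) (.nd (nat_lit 5) (.nd (nat_lit 6) 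
(.lf (nat_lit 165261) (.g (nat_lit 2041) (.e (nat_lit 57465) (nat_lit 23) (.e (nat_lit 516131) (nat_lit 3) (.e (nat_lit 221212) (nat_lit 22) (.e (nat_lit 196681) (nat_lit 17) (.e (nat_lit 131093) (nat_lit 2) .nil))))) .nil)) 
(.lf (nat_lit 165325) (.g (nat_lit 2034) (.e (nat_lit 57465) (nat_lit 23) (.e (nat_lit 516185) (nat_lit 16) (.e (nat_lit 491570) (nat_lit 13) (.e (nat_lit 401152) (nat_lit 10) .nil)))) .nil))) (.nd (nat_lit 6) 
(.lf (nat_lit 165293) (.g (nat_lit 604) (.e (nat_lit 57465) (nat_lit 23) (.e (nat_lit 516150) (nat_lit 9) (.e (nat_lit 426227) (nat_lit 9) .nil))) .nil)) 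
(.lf (nat_lit 165357) (.g (nat_lit 885) (.e (nat_lit 57466) (nat_lit 23) (.e (nat_lit 516117) (nat_lit 1) (.e (nat_lit 164398) (nat_lit 256) .nil))) .nil)))) (.nd (nat_lit 5) (.nd (nat_lit 6) 
(.lf (nat_lit 165277) (.g (nat_lit 776) (.e (nat_lit 57465) (nat_lit 23) (.e (nat_lit 516146) (nat_lit 9) (.e (nat_lit 426131) (nat_lit 3) .nil))) .nil)) 
(.lf (nat_lit 165341) (.g (nat_lit 4208) (.e (nat_lit 57466) (nat_lit 23) (.e (nat_lit 516115) (nat_lit 1) (.e (nat_lit 164399) (nat_lit 256) (.e (nat_lit 57373) (nat_lit 2) (.e (nat_lit 90174) (nat_lit 14) (.e (nat_lit 180243) (nat_lit 5) (.e (nat_lit 532510) (nat_lit 2) (.e (nat_lit 106539) (nat_lit 12) .nil)))))))) (.g (nat_lit 8) .nil .nil)))) (.nd (nat_lit 6) 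
(.lf (nat_lit 165309) (.g (nat_lit 1917) (.e (nat_lit 57465) (nat_lit 23) (.e (nat_lit 516176) (nat_lit 14) (.e (nat_lit 466977) (nat_lit 22) (.e (nat_lit 196668) (nat_lit 14) (.e (nat_lit 73728) (nat_lit 0) .nil))))) .nil)) 
(.lf (nat_lit 165373) (.g (nat_lit 2481) (.e (nat_lit 57466) (nat_lit 23) (.e (nat_lit 516117) (nat_lit 1) (.e (nat_lit 164398) (nat_lit 256) (.e (nat_lit 57375) (nat_lit 2) (.e (nat_lit 90172) (nat_lit 14) .nil))))) .nil))))))) (.nd (nat_lit 2) (.nd (nat_lit 3) (.nd (nat_lit 4) (.nd (nat_lit 5) (.nd (nat_lit 6) 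
(.lf (nat_lit 165251) (.g (nat_lit 1812) (.e (nat_lit 57465) (nat_lit 23) (.e (nat_lit 516131) (nat_lit 3) (.e (nat_lit 221211) (nat_lit 22) (.e (nat_lit 196666) (nat_lit 13) (.e (nat_lit 65569) (nat_lit 3) .nil))))) .nil)) 
(.lf (nat_lit 165315) (.g (nat_lit 2258) (.e (nat_lit 57465) (nat_lit 23) (.e (nat_lit 516176) (nat_lit 14) (.e (nat_lit 466981) (nat_lit 23) (.e (nat_lit 204861) (nat_lit 26) (.e (nat_lit 335892) (nat_lit 0) .nil))))) .nil))) (.nd (nat_lit 6) 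
(.lf (nat_lit 165283) (.g (nat_lit 2827) (.e (nat_lit 57465) (nat_lit 23) (.e (nat_lit 516146) (nat_lit 9) (.e (nat_lit 426428) (nat_lit 17) (.e (nat_lit 90170) (nat_lit 13) (.e (nat_lit 172067) (nat_lit 3) (.e (nat_lit 204830) (nat_lit 18) (.e (nat_lit 57754) (nat_lit 209) (.e (nat_lit 1182) (nat_lit 87) .nil)))))))) (.g (nat_lit 4) .nil .nil))) 
(.lf (nat_lit 165347) (.g (nat_lit 2573) (.e (nat_lit 57466) (nat_lit 23) (.e (nat_lit 516115) (nat_lit 1) (.e (nat_lit 164403) (nat_lit 256) (.e (nat_lit 57373) (nat_lit 2) (.e (nat_lit 90170) (nat_lit 13) .nil))))) .nil)))) (.nd (nat_lit 5) (.nd (nat_lit 6) 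
(.lf (nat_lit 165267) (.g (nat_lit 1759) (.e (nat_lit 57465) (nat_lit 23) (.e (nat_lit 516131) (nat_lit 3) (.e (nat_lit 221212) (nat_lit 22) (.e (nat_lit 196681) (nat_lit 17) (.e (nat_lit 131098) (nat_lit 3) .nil))))) .nil)) 
(.lf (nat_lit 165331) (.g (nat_lit 2518) (.e (nat_lit 57466) (nat_lit 23) (.e (nat_lit 516115) (nat_lit 1) (.e (nat_lit 164398) (nat_lit 256) (.e (nat_lit 57379) (nat_lit 3) (.e (nat_lit 98366) (nat_lit 27) .nil))))) .nil))) (.nd (nat_lit 6) 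
(.lf (nat_lit 165299) (.g (nat_lit 1186) (.e (nat_lit 57465) (nat_lit 23) (.e (nat_lit 516166) (nat_lit 12) (.e (nat_lit 450588) (nat_lit 10) .nil))) .nil)) 
(.lf (nat_lit 165363) (.g (nat_lit 2866) (.e (nat_lit 57466) (nat_lit 23) (.e (nat_lit 516117) (nat_lit 1) (.e (nat_lit 164398) (nat_lit 256) (.e (nat_lit 57372) (nat_lit 2) (.e (nat_lit 90174) (nat_lit 14) (.e (nat_lit 180243) (nat_lit 5) (.e (nat_lit 532510) (nat_lit 2) (.e (nat_lit 106539) (nat_lit 12) .nil)))))))) (.g (nat_lit 4) .nil .nil)))))) 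
(.nd (nat_lit 4) (.nd (nat_lit 5) (.nd (nat_lit 6) 
(.lf (nat_lit 165259) (.g (nat_lit 1766) (.e (nat_lit 57465) (nat_lit 23) (.e (nat_lit 516131) (nat_lit 3) (.e (nat_lit 221212) (nat_lit 22) (.e (nat_lit 196681) (nat_lit 17) (.e (nat_lit 131091) (nat_lit 2) .nil))))) .nil)) 
(.lf (nat_lit 165323) (.g (nat_lit 2302) (.e (nat_lit 57465) (nat_lit 23) (.e (nat_lit 516185) (nat_lit 16) (.e (nat_lit 491568) (nat_lit 13) (.e (nat_lit 401152) (nat_lit 10) .nil)))) .nil))) (.nd (nat_lit 6) 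
(.lf (nat_lit 165291) (.g (nat_lit 2937) (.e (nat_lit 57465) (nat_lit 23) (.e (nat_lit 516150) (nat_lit 9) (.e (nat_lit 426131) (nat_lit 3) (.e (nat_lit 204838) (nat_lit 20) (.e (nat_lit 114714) (nat_lit 22) (.e (nat_lit 90162) (nat_lit 12) (.e (nat_lit 164007) (nat_lit 41) (.e (nat_lit 663565) (nat_lit 3) .nil)))))))) (.g (nat_lit 4) .nil .nil))) 
(.lf (nat_lit 165355) (.g (nat_lit 3010) (.e (nat_lit 57466) (nat_lit 23) (.e (nat_lit 516117) (nat_lit 1) (.e (nat_lit 164396) (nat_lit 256) (.e (nat_lit 57371) (nat_lit 2) (.e (nat_lit 90174) (nat_lit 14) (.e (nat_lit 180243) (nat_lit 5) (.e (nat_lit 532511) (nat_lit 2) (.e (nat_lit 106539) (nat_lit 12) .nil)))))))) (.g (nat_lit 5) .nil .nil))))) (.nd (nat_lit 5) (.nd (nat_lit 6) 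
(.lf (nat_lit 165275) (.g (nat_lit 3602) (.e (nat_lit 57465) (nat_lit 23) (.e (nat_lit 516131) (nat_lit 3) (.e (nat_lit 221215) (nat_lit 23) (.e (nat_lit 204863) (nat_lit 27) (.e (nat_lit 344117) (nat_lit 21) (.e (nat_lit 516099) (nat_lit 0) (.e (nat_lit 7936) (nat_lit 216) (.e (nat_lit 688171) (nat_lit 15) .nil)))))))) (.g (nat_lit 5) .nil .nil))) 
(.lf (nat_lit 165339) (.g (nat_lit 3485) (.e (nat_lit 57466) (nat_lit 23) (.e (nat_lit 516115) (nat_lit 1) (.e (nat_lit 164399) (nat_lit 256) (.e (nat_lit 57373) (nat_lit 2) (.e (nat_lit 90170) (nat_lit 13) (.e (nat_lit 172065) (nat_lit 3) (.e (nat_lit 204834) (nat_lit 19) (.e (nat_lit 106539) (nat_lit 12) .nil)))))))) (.g (nat_lit 7) .nil .nil)))) (.nd (nat_lit 6) 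
(.lf (nat_lit 165307) (.g (nat_lit 568) (.e (nat_lit 57465) (nat_lit 23) (.e (nat_lit 516176) (nat_lit 14) (.e (nat_lit 466975) (nat_lit 22) .nil))) .nil)) 
(.lf (nat_lit 165371) (.g (nat_lit 3993) (.e (nat_lit 57466) (nat_lit 23) (.e (nat_lit 516117) (nat_lit 1) (.e (nat_lit 164398) (nat_lit 256) (.e (nat_lit 57373) (nat_lit 2) (.e (nat_lit 90174) (nat_lit 14) (.e (nat_lit 180243) (nat_lit 5) (.e (nat_lit 532511) (nat_lit 2) (.e (nat_lit 106539) (nat_lit 12) .nil)))))))) (.g (nat_lit 6) .nil .nil))))))) 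
(.nd (nat_lit 3) (.nd (nat_lit 4) (.nd (nat_lit 5) (.nd (nat_lit 6) 
(.lf (nat_lit 165255) (.g (nat_lit 1887) (.e (nat_lit 57465) (nat_lit 23) (.e (nat_lit 516131) (nat_lit 3) (.e (nat_lit 221212) (nat_lit 22) (.e (nat_lit 196668) (nat_lit 14) (.e (nat_lit 73746) (nat_lit 3) (.e (nat_lit 516117) (nat_lit 1) (.e (nat_lit 164166) (nat_lit 152) (.e (nat_lit 1182) (nat_lit 87) .nil)))))))) (.g (nat_lit 4) .nil .nil))) 
(.lf (nat_lit 165319) (.g (nat_lit 2672) (.e (nat_lit 57465) (nat_lit 23) (.e (nat_lit 516185) (nat_lit 16) (.e (nat_lit 491560) (nat_lit 10) (.e (nat_lit 344094) (nat_lit 18) .nil)))) .nil))) (.nd (nat_lit 6) 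
(.lf (nat_lit 165287) (.g (nat_lit 2633) (.e (nat_lit 57465) (nat_lit 23) (.e (nat_lit 516146) (nat_lit 9) (.e (nat_lit 426428) (nat_lit 17) (.e (nat_lit 90185) (nat_lit 17) (.e (nat_lit 237594) (nat_lit 3) .nil))))) .nil)) 
(.lf (nat_lit 165351) (.g (nat_lit 2340) (.e (nat_lit 57466) (nat_lit 23) (.e (nat_lit 516117) (nat_lit 1) (.e (nat_lit 164330) (nat_lit 230) (.e (nat_lit 163874) (nat_lit 3) (.e (nat_lit 204809) (nat_lit 9) .nil))))) .nil)))) (.nd (nat_lit 5) (.nd (nat_lit 6) 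
(.lf (nat_lit 165271) (.g (nat_lit 4592) (.e (nat_lit 57465) (nat_lit 23) (.e (nat_lit 516131) (nat_lit 3) (.e (nat_lit 221215) (nat_lit 23) (.e (nat_lit 204861) (nat_lit 26) (.e (nat_lit 336012) (nat_lit 2) (.e (nat_lit 90164) (nat_lit 12) (.e (nat_lit 164017) (nat_lit 44) (.e (nat_lit 688171) (nat_lit 15) .nil)))))))) (.g (nat_lit 7) .nil .nil))) 
(.lf (nat_lit 165335) (.g (nat_lit 3289) (.e (nat_lit 57466) (nat_lit 23) (.e (nat_lit 516115) (nat_lit 1) (.e (nat_lit 164399) (nat_lit 256) (.e (nat_lit 57372) (nat_lit 2) (.e (nat_lit 90172) (nat_lit 14) (.e (nat_lit 180243) (nat_lit 5) (.e (nat_lit 532511) (nat_lit 2) (.e (nat_lit 106539) (nat_lit 12) .nil)))))))) (.g (nat_lit 5) .nil .nil)))) (.nd (nat_lit 6) 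
(.lf (nat_lit 165303) (.g (nat_lit 1415) (.e (nat_lit 57465) (nat_lit 23) (.e (nat_lit 516174) (nat_lit 14) (.e (nat_lit 466974) (nat_lit 22) (.e (nat_lit 196668) (nat_lit 14) .nil)))) .nil)) 
(.lf (nat_lit 165367) (.g (nat_lit 3107) (.e (nat_lit 57466) (nat_lit 23) (.e (nat_lit 516117) (nat_lit 1) (.e (nat_lit 164398) (nat_lit 256) (.e (nat_lit 57373) (nat_lit 2) (.e (nat_lit 90174) (nat_lit 14) (.e (nat_lit 180243) (nat_lit 5) (.e (nat_lit 532508) (nat_lit 2) (.e (nat_lit 106537) (nat_lit 12) .nil)))))))) (.g (nat_lit 5) .nil .nil)))))) 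
(.nd (nat_lit 4) (.nd (nat_lit 5) (.nd (nat_lit 6) 
(.lf (nat_lit 165263) (.g (nat_lit 1672) (.e (nat_lit 57465) (nat_lit 23) (.e (nat_lit 516131) (nat_lit 3) (.e (nat_lit 221212) (nat_lit 22) (.e (nat_lit 196681) (nat_lit 17) (.e (nat_lit 131094) (nat_lit 2) .nil))))) .nil)) 
(.lf (nat_lit 165327) (.g (nat_lit 2413) (.e (nat_lit 57466) (nat_lit 23) (.e (nat_lit 516115) (nat_lit 1) (.e (nat_lit 164325) (nat_lit 230) (.e (nat_lit 163866) (nat_lit 2) (.e (nat_lit 196654) (nat_lit 11) (.e (nat_lit 16416) (nat_lit 3) (.e (nat_lit 204833) (nat_lit 19) (.e (nat_lit 106539) (nat_lit 12) .nil)))))))) (.g (nat_lit 5) .nil .nil)))) (.nd (nat_lit 6) 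
(.lf (nat_lit 165295) (.g (nat_lit 3052) (.e (nat_lit 57465) (nat_lit 23) (.e (nat_lit 516151) (nat_lit 9) (.e (nat_lit 426211) (nat_lit 9) (.e (nat_lit 426140) (nat_lit 3) .nil)))) .nil)) 
(.lf (nat_lit 165359) (.g (nat_lit 2767) (.e (nat_lit 57466) (nat_lit 23) (.e (nat_lit 516117) (nat_lit 1) (.e (nat_lit 164398) (nat_lit 256) (.e (nat_lit 57372) (nat_lit 2) (.e (nat_lit 90172) (nat_lit 14) .nil))))) .nil)))) (.nd (nat_lit 5) (.nd (nat_lit 6) 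
(.lf (nat_lit 165279) (.g (nat_lit 2612) (.e (nat_lit 57465) (nat_lit 23) (.e (nat_lit 516146) (nat_lit 9) (.e (nat_lit 426131) (nat_lit 3) (.e (nat_lit 204838) (nat_lit 20) (.e (nat_lit 114716) (nat_lit 22) (.e (nat_lit 90181) (nat_lit 16) (.e (nat_lit 229449) (nat_lit 41) (.e (nat_lit 663565) (nat_lit 3) .nil)))))))) (.g (nat_lit 4) .nil .nil))) 
(.lf (nat_lit 165343) (.g (nat_lit 3014) (.e (nat_lit 57466) (nat_lit 23) (.e (nat_lit 516115) (nat_lit 1) (.e (nat_lit 164399) (nat_lit 256) (.e (nat_lit 57375) (nat_lit 2) (.e (nat_lit 90172) (nat_lit 14) (.e (nat_lit 180244) (nat_lit 5) (.e (nat_lit 532508) (nat_lit 2) (.e (nat_lit 106539) (nat_lit 12) .nil)))))))) (.g (nat_lit 5) .nil .nil)))) (.nd (nat_lit 6) 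
(.lf (nat_lit 165311) (.g (nat_lit 1980) (.e (nat_lit 57465) (nat_lit 23) (.e (nat_lit 516176) (nat_lit 14) (.e (nat_lit 466977) (nat_lit 22) (.e (nat_lit 196668) (nat_lit 14) (.e (nat_lit 73762) (nat_lit 16) (.e (nat_lit 622613) (nat_lit 8) .nil)))))) (.g (nat_lit 5) .nil .nil))) 
(.lf (nat_lit 165375) (.g (nat_lit 2565) (.e (nat_lit 57466) (nat_lit 23) (.e (nat_lit 516117) (nat_lit 1) (.e (nat_lit 164398) (nat_lit 256) (.e (nat_lit 57375) (nat_lit 2) (.e (nat_lit 90174) (nat_lit 14) (.e (nat_lit 180243) (nat_lit 5) (.e (nat_lit 532508) (nat_lit 2) (.e (nat_lit 106539) (nat_lit 12) .nil)))))))) (.g (nat_lit 4) .nil .nil))))))))))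

noncomputable def tv2219 : DT := (.nd (nat_lit 0) (.nd (nat_lit 1) (.nd (nat_lit 2) (.nd (nat_lit 3) (.nd (nat_lit 4) (.nd (nat_lit 5) 
(.lf (nat_lit 165376) (.g (nat_lit 2560) (.e (nat_lit 57466) (nat_lit 23) (.e (nat_lit 516117) (nat_lit 1) (.e (nat_lit 164398) (nat_lit 256) (.e (nat_lit 57375) (nat_lit 2) (.e (nat_lit 90174) (nat_lit 14) (.e (nat_lit 180243) (nat_lit 5) (.e (nat_lit 532510) (nat_lit 2) (.e (nat_lit 106539) (nat_lit 12) .nil)))))))) (.g (nat_lit 4) .nil .nil))) 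
(.lf (nat_lit 165408) (.g (nat_lit 2806) (.e (nat_lit 57466) (nat_lit 23) (.e (nat_lit 516117) (nat_lit 1) (.e (nat_lit 164400) (nat_lit 256) (.e (nat_lit 57375) (nat_lit 2) (.e (nat_lit 90174) (nat_lit 14) (.e (nat_lit 180243) (nat_lit 5) (.e (nat_lit 532508) (nat_lit 2) (.e (nat_lit 106539) (nat_lit 12) .nil)))))))) (.g (nat_lit 5) .nil .nil)))) (.nd (nat_lit 5) 
(.lf (nat_lit 165392) (.g (nat_lit 3278) (.e (nat_lit 57466) (nat_lit 23) (.e (nat_lit 516117) (nat_lit 1) (.e (nat_lit 164399) (nat_lit 256) (.e (nat_lit 57373) (nat_lit 2) (.e (nat_lit 90172) (nat_lit 14) (.e (nat_lit 180244) (nat_lit 5) (.e (nat_lit 532506) (nat_lit 2) (.e (nat_lit 106539) (nat_lit 12) .nil)))))))) (.g (nat_lit 5) .nil .nil))) 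
(.lf (nat_lit 165424) (.g (nat_lit 3885) (.e (nat_lit 57466) (nat_lit 23) (.e (nat_lit 516119) (nat_lit 1) (.e (nat_lit 164403) (nat_lit 256) (.e (nat_lit 57373) (nat_lit 2) (.e (nat_lit 90174) (nat_lit 14) (.e (nat_lit 180243) (nat_lit 5) (.e (nat_lit 532510) (nat_lit 2) (.e (nat_lit 106539) (nat_lit 12) .nil)))))))) (.g (nat_lit 6) .nil .nil))))) (.nd (nat_lit 4) (.nd (nat_lit 5) 
(.lf (nat_lit 165384) (.g (nat_lit 2385) (.e (nat_lit 57466) (nat_lit 23) (.e (nat_lit 516117) (nat_lit 1) (.e (nat_lit 164399) (nat_lit 256) (.e (nat_lit 57372) (nat_lit 2) (.e (nat_lit 90167) (nat_lit 13) .nil))))) .nil)) 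
(.lf (nat_lit 165416) (.g (nat_lit 3084) (.e (nat_lit 57466) (nat_lit 23) (.e (nat_lit 516117) (nat_lit 1) (.e (nat_lit 164403) (nat_lit 256) (.e (nat_lit 57373) (nat_lit 2) (.e (nat_lit 90172) (nat_lit 14) .nil))))) .nil))) (.nd (nat_lit 5) 
(.lf (nat_lit 165400) (.g (nat_lit 2822) (.e (nat_lit 57466) (nat_lit 23) (.e (nat_lit 516117) (nat_lit 1) (.e (nat_lit 164399) (nat_lit 256) (.e (nat_lit 57375) (nat_lit 2) (.e (nat_lit 90174) (nat_lit 14) (.e (nat_lit 180243) (nat_lit 5) (.e (nat_lit 532510) (nat_lit 2) (.e (nat_lit 106539) (nat_lit 12) .nil)))))))) (.g (nat_lit 5) .nil .nil))) 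
(.lf (nat_lit 165432) (.g (nat_lit 3035) (.e (nat_lit 57466) (nat_lit 23) (.e (nat_lit 516120) (nat_lit 1) (.e (nat_lit 164403) (nat_lit 256) (.e (nat_lit 57373) (nat_lit 2) (.e (nat_lit 90170) (nat_lit 13) .nil))))) .nil))))) (.nd (nat_lit 3) (.nd (nat_lit 4) (.nd (nat_lit 5) 
(.lf (nat_lit 165380) (.g (nat_lit 2593) (.e (nat_lit 57466) (nat_lit 23) (.e (nat_lit 516117) (nat_lit 1) (.e (nat_lit 164398) (nat_lit 256) (.e (nat_lit 57379) (nat_lit 3) (.e (nat_lit 98366) (nat_lit 27) (.e (nat_lit 434231) (nat_lit 23) (.e (nat_lit 532507) (nat_lit 2) (.e (nat_lit 106537) (nat_lit 12) .nil)))))))) (.g (nat_lit 4) .nil .nil))) 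
(.lf (nat_lit 165412) (.g (nat_lit 2581) (.e (nat_lit 57466) (nat_lit 23) (.e (nat_lit 516117) (nat_lit 1) (.e (nat_lit 164403) (nat_lit 256) (.e (nat_lit 57371) (nat_lit 2) (.e (nat_lit 90174) (nat_lit 14) (.e (nat_lit 180243) (nat_lit 5) (.e (nat_lit 532511) (nat_lit 2) (.e (nat_lit 106539) (nat_lit 12) .nil)))))))) (.g (nat_lit 4) .nil .nil)))) (.nd (nat_lit 5) 
(.lf (nat_lit 165396) (.g (nat_lit 2399) (.e (nat_lit 57466) (nat_lit 23) (.e (nat_lit 516117) (nat_lit 1) (.e (nat_lit 164399) (nat_lit 256) (.e (nat_lit 57375) (nat_lit 2) (.e (nat_lit 90172) (nat_lit 14) .nil))))) .nil)) 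
(.lf (nat_lit 165428) (.g (nat_lit 2159) (.e (nat_lit 57466) (nat_lit 23) (.e (nat_lit 516120) (nat_lit 1) (.e (nat_lit 164330) (nat_lit 230) (.e (nat_lit 163873) (nat_lit 3) .nil)))) .nil)))) (.nd (nat_lit 4) (.nd (nat_lit 5) 
(.lf (nat_lit 165388) (.g (nat_lit 2409) (.e (nat_lit 57466) (nat_lit 23) (.e (nat_lit 516117) (nat_lit 1) (.e (nat_lit 164399) (nat_lit 256) (.e (nat_lit 57372) (nat_lit 2) (.e (nat_lit 90174) (nat_lit 14) (.e (nat_lit 180243) (nat_lit 5) (.e (nat_lit 532508) (nat_lit 2) (.e (nat_lit 106537) (nat_lit 12) .nil)))))))) (.g (nat_lit 4) .nil .nil))) 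
(.lf (nat_lit 165420) (.g (nat_lit 3086) (.e (nat_lit 57466) (nat_lit 23) (.e (nat_lit 516117) (nat_lit 1) (.e (nat_lit 164403) (nat_lit 256) (.e (nat_lit 57373) (nat_lit 2) (.e (nat_lit 90174) (nat_lit 14) (.e (nat_lit 180243) (nat_lit 5) (.e (nat_lit 532510) (nat_lit 2) (.e (nat_lit 106537) (nat_lit 12) .nil)))))))) (.g (nat_lit 4) .nil .nil)))) (.nd (nat_lit 5) 
(.lf (nat_lit 165404) (.g (nat_lit 2404) (.e (nat_lit 57466) (nat_lit 23) (.e (nat_lit 516117) (nat_lit 1) (.e (nat_lit 164399) (nat_lit 256) (.e (nat_lit 57379) (nat_lit 3) (.e (nat_lit 98366) (nat_lit 27) .nil))))) .nil)) 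
(.lf (nat_lit 165436) (.g (nat_lit 1960) (.e (nat_lit 57466) (nat_lit 23) (.e (nat_lit 516129) (nat_lit 3) (.e (nat_lit 221210) (nat_lit 22) (.e (nat_lit 196663) (nat_lit 13) (.e (nat_lit 65569) (nat_lit 3) .nil))))) .nil)))))) (.nd (nat_lit 2) (.nd (nat_lit 3) (.nd (nat_lit 4) (.nd (nat_lit 5) 
(.lf (nat_lit 165378) (.g (nat_lit 2575) (.e (nat_lit 57466) (nat_lit 23) (.e (nat_lit 516117) (nat_lit 1) (.e (nat_lit 164398) (nat_lit 256) (.e (nat_lit 57379) (nat_lit 3) (.e (nat_lit 98366) (nat_lit 27) .nil))))) .nil)) 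
(.lf (nat_lit 165410) (.g (nat_lit 2834) (.e (nat_lit 57466) (nat_lit 23) (.e (nat_lit 516117) (nat_lit 1) (.e (nat_lit 164400) (nat_lit 256) (.e (nat_lit 57375) (nat_lit 2) (.e (nat_lit 90174) (nat_lit 14) (.e (nat_lit 180243) (nat_lit 5) (.e (nat_lit 532511) (nat_lit 2) (.e (nat_lit 106539) (nat_lit 12) .nil)))))))) (.g (nat_lit 5) .nil .nil)))) (.nd (nat_lit 5) 
(.lf (nat_lit 165394) (.g (nat_lit 4014) (.e (nat_lit 57466) (nat_lit 23) (.e (nat_lit 516117) (nat_lit 1) (.e (nat_lit 164399) (nat_lit 256) (.e (nat_lit 57373) (nat_lit 2) (.e (nat_lit 90174) (nat_lit 14) (.e (nat_lit 180243) (nat_lit 5) (.e (nat_lit 532510) (nat_lit 2) (.e (nat_lit 106539) (nat_lit 12) .nil)))))))) (.g (nat_lit 6) .nil .nil))) 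
(.lf (nat_lit 165426) (.g (nat_lit 2307) (.e (nat_lit 57466) (nat_lit 23) (.e (nat_lit 516120) (nat_lit 1) (.e (nat_lit 164330) (nat_lit 230) (.e (nat_lit 163867) (nat_lit 2) .nil)))) .nil)))) (.nd (nat_lit 4) (.nd (nat_lit 5) 
(.lf (nat_lit 165386) (.g (nat_lit 2442) (.e (nat_lit 57466) (nat_lit 23) (.e (nat_lit 516117) (nat_lit 1) (.e (nat_lit 164399) (nat_lit 256) (.e (nat_lit 57372) (nat_lit 2) (.e (nat_lit 90172) (nat_lit 14) .nil))))) .nil)) 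
(.lf (nat_lit 165418) (.g (nat_lit 3092) (.e (nat_lit 57466) (nat_lit 23) (.e (nat_lit 516117) (nat_lit 1) (.e (nat_lit 164403) (nat_lit 256) (.e (nat_lit 57373) (nat_lit 2) (.e (nat_lit 90174) (nat_lit 14) (.e (nat_lit 180243) (nat_lit 5) (.e (nat_lit 532508) (nat_lit 2) (.e (nat_lit 106537) (nat_lit 12) .nil)))))))) (.g (nat_lit 4) .nil .nil)))) (.nd (nat_lit 5) 
(.lf (nat_lit 165402) (.g (nat_lit 2996) (.e (nat_lit 57466) (nat_lit 23) (.e (nat_lit 516117) (nat_lit 1) (.e (nat_lit 164399) (nat_lit 256) (.e (nat_lit 57378) (nat_lit 3) (.e (nat_lit 98366) (nat_lit 27) (.e (nat_lit 434231) (nat_lit 23) (.e (nat_lit 532506) (nat_lit 2) (.e (nat_lit 106539) (nat_lit 12) .nil)))))))) (.g (nat_lit 4) .nil .nil))) 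
(.lf (nat_lit 165434) (.g (nat_lit 472) (.e (nat_lit 57466) (nat_lit 23) (.e (nat_lit 516129) (nat_lit 3) (.e (nat_lit 221210) (nat_lit 22) .nil))) .nil))))) (.nd (nat_lit 3) (.nd (nat_lit 4) (.nd (nat_lit 5) 
(.lf (nat_lit 165382) (.g (nat_lit 885) (.e (nat_lit 57466) (nat_lit 23) (.e (nat_lit 516117) (nat_lit 1) (.e (nat_lit 164399) (nat_lit 256) .nil))) .nil)) 
(.lf (nat_lit 165414) (.g (nat_lit 2911) (.e (nat_lit 57466) (nat_lit 23) (.e (nat_lit 516117) (nat_lit 1) (.e (nat_lit 164403) (nat_lit 256) (.e (nat_lit 57373) (nat_lit 2) (.e (nat_lit 90170) (nat_lit 13) (.e (nat_lit 172065) (nat_lit 3) (.e (nat_lit 204834) (nat_lit 19) (.e (nat_lit 106539) (nat_lit 12) .nil)))))))) (.g (nat_lit 4) .nil .nil)))) (.nd (nat_lit 5) 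
(.lf (nat_lit 165398) (.g (nat_lit 2324) (.e (nat_lit 57466) (nat_lit 23) (.e (nat_lit 516117) (nat_lit 1) (.e (nat_lit 164399) (nat_lit 256) (.e (nat_lit 57375) (nat_lit 2) (.e (nat_lit 90174) (nat_lit 14) (.e (nat_lit 180243) (nat_lit 5) (.e (nat_lit 532506) (nat_lit 2) (.e (nat_lit 106539) (nat_lit 12) .nil)))))))) (.g (nat_lit 4) .nil .nil))) 
(.lf (nat_lit 165430) (.g (nat_lit 2462) (.e (nat_lit 57466) (nat_lit 23) (.e (nat_lit 516120) (nat_lit 1) (.e (nat_lit 164401) (nat_lit 256) (.e (nat_lit 57373) (nat_lit 2) (.e (nat_lit 90174) (nat_lit 14) .nil))))) .nil)))) (.nd (nat_lit 4) (.nd (nat_lit 5) 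
(.lf (nat_lit 165390) (.g (nat_lit 3187) (.e (nat_lit 57466) (nat_lit 23) (.e (nat_lit 516117) (nat_lit 1) (.e (nat_lit 164399) (nat_lit 256) (.e (nat_lit 57373) (nat_lit 2) (.e (nat_lit 90170) (nat_lit 13) (.e (nat_lit 172065) (nat_lit 3) (.e (nat_lit 204834) (nat_lit 19) (.e (nat_lit 106539) (nat_lit 12) .nil)))))))) (.g (nat_lit 5) .nil .nil))) 
(.lf (nat_lit 165422) (.g (nat_lit 3978) (.e (nat_lit 57466) (nat_lit 23) (.e (nat_lit 516117) (nat_lit 1) (.e (nat_lit 164403) (nat_lit 256) (.e (nat_lit 57373) (nat_lit 2) (.e (nat_lit 90174) (nat_lit 14) (.e (nat_lit 180243) (nat_lit 5) (.e (nat_lit 532511) (nat_lit 2) (.e (nat_lit 106539) (nat_lit 12) .nil)))))))) (.g (nat_lit 5) .nil .nil)))) (.nd (nat_lit 5) 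
(.lf (nat_lit 165406) (.g (nat_lit 2525) (.e (nat_lit 57466) (nat_lit 23) (.e (nat_lit 516117) (nat_lit 1) (.e (nat_lit 164400) (nat_lit 256) (.e (nat_lit 57372) (nat_lit 2) (.e (nat_lit 90174) (nat_lit 14) .nil))))) .nil)) 
(.lf (nat_lit 165438) (.g (nat_lit 2120) (.e (nat_lit 57466) (nat_lit 23) (.e (nat_lit 516129) (nat_lit 3) (.e (nat_lit 221210) (nat_lit 22) (.e (nat_lit 196663) (nat_lit 13) (.e (nat_lit 65637) (nat_lit 15) (.e (nat_lit 3253) (nat_lit 197) (.e (nat_lit 532501) (nat_lit 1) (.e (nat_lit 57829) (nat_lit 250) (.e (nat_lit 1183) (nat_lit 87) .nil))))))))) (.g (nat_lit 4) .nil .nil)))))))) 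
(.nd (nat_lit 1) (.nd (nat_lit 2) (.nd (nat_lit 3) (.nd (nat_lit 4) (.nd (nat_lit 5) 
(.lf (nat_lit 165377) (.g (nat_lit 2593) (.e (nat_lit 57466) (nat_lit 23) (.e (nat_lit 516117) (nat_lit 1) (.e (nat_lit 164398) (nat_lit 256) (.e (nat_lit 57375) (nat_lit 2) (.e (nat_lit 90174) (nat_lit 14) (.e (nat_lit 180243) (nat_lit 5) (.e (nat_lit 532511) (nat_lit 2) (.e (nat_lit 106539) (nat_lit 12) .nil)))))))) (.g (nat_lit 4) .nil .nil))) 
(.lf (nat_lit 165409) (.g (nat_lit 2801) (.e (nat_lit 57466) (nat_lit 23) (.e (nat_lit 516117) (nat_lit 1) (.e (nat_lit 164400) (nat_lit 256) (.e (nat_lit 57375) (nat_lit 2) (.e (nat_lit 90174) (nat_lit 14) (.e (nat_lit 180243) (nat_lit 5) (.e (nat_lit 532510) (nat_lit 2) (.e (nat_lit 106539) (nat_lit 12) .nil)))))))) (.g (nat_lit 5) .nil .nil)))) (.nd (nat_lit 5) 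
(.lf (nat_lit 165393) (.g (nat_lit 3530) (.e (nat_lit 57466) (nat_lit 23) (.e (nat_lit 516117) (nat_lit 1) (.e (nat_lit 164399) (nat_lit 256) (.e (nat_lit 57373) (nat_lit 2) (.e (nat_lit 90174) (nat_lit 14) (.e (nat_lit 180243) (nat_lit 5) (.e (nat_lit 532506) (nat_lit 2) (.e (nat_lit 106539) (nat_lit 12) .nil)))))))) (.g (nat_lit 5) .nil .nil))) 
(.lf (nat_lit 165425) (.g (nat_lit 3927) (.e (nat_lit 57466) (nat_lit 23) (.e (nat_lit 516119) (nat_lit 1) (.e (nat_lit 164403) (nat_lit 256) (.e (nat_lit 57373) (nat_lit 2) (.e (nat_lit 90174) (nat_lit 14) (.e (nat_lit 180243) (nat_lit 5) (.e (nat_lit 532511) (nat_lit 2) (.e (nat_lit 106539) (nat_lit 12) .nil)))))))) (.g (nat_lit 6) .nil .nil))))) (.nd (nat_lit 4) (.nd (nat_lit 5) 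
(.lf (nat_lit 165385) (.g (nat_lit 2585) (.e (nat_lit 57466) (nat_lit 23) (.e (nat_lit 516117) (nat_lit 1) (.e (nat_lit 164399) (nat_lit 256) (.e (nat_lit 57372) (nat_lit 2) (.e (nat_lit 90167) (nat_lit 13) (.e (nat_lit 172067) (nat_lit 3) (.e (nat_lit 204834) (nat_lit 19) (.e (nat_lit 106539) (nat_lit 12) .nil)))))))) (.g (nat_lit 4) .nil .nil))) 
(.lf (nat_lit 165417) (.g (nat_lit 3301) (.e (nat_lit 57466) (nat_lit 23) (.e (nat_lit 516117) (nat_lit 1) (.e (nat_lit 164403) (nat_lit 256) (.e (nat_lit 57373) (nat_lit 2) (.e (nat_lit 90172) (nat_lit 14) (.e (nat_lit 180244) (nat_lit 5) (.e (nat_lit 532506) (nat_lit 2) (.e (nat_lit 106539) (nat_lit 12) .nil)))))))) (.g (nat_lit 4) .nil .nil)))) (.nd (nat_lit 5) 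
(.lf (nat_lit 165401) (.g (nat_lit 2855) (.e (nat_lit 57466) (nat_lit 23) (.e (nat_lit 516117) (nat_lit 1) (.e (nat_lit 164399) (nat_lit 256) (.e (nat_lit 57375) (nat_lit 2) (.e (nat_lit 90174) (nat_lit 14) (.e (nat_lit 180243) (nat_lit 5) (.e (nat_lit 532511) (nat_lit 2) (.e (nat_lit 106539) (nat_lit 12) .nil)))))))) (.g (nat_lit 5) .nil .nil))) 
(.lf (nat_lit 165433) (.g (nat_lit 3448) (.e (nat_lit 57466) (nat_lit 23) (.e (nat_lit 516120) (nat_lit 1) (.e (nat_lit 164403) (nat_lit 256) (.e (nat_lit 57373) (nat_lit 2) (.e (nat_lit 90172) (nat_lit 14) .nil))))) .nil))))) (.nd (nat_lit 3) (.nd (nat_lit 4) (.nd (nat_lit 5) 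
(.lf (nat_lit 165381) (.g (nat_lit 2570) (.e (nat_lit 57466) (nat_lit 23) (.e (nat_lit 516117) (nat_lit 1) (.e (nat_lit 164398) (nat_lit 256) (.e (nat_lit 57379) (nat_lit 3) (.e (nat_lit 98367) (nat_lit 27) .nil))))) .nil)) 
(.lf (nat_lit 165413) (.g (nat_lit 2684) (.e (nat_lit 57466) (nat_lit 23) (.e (nat_lit 516117) (nat_lit 1) (.e (nat_lit 164403) (nat_lit 256) (.e (nat_lit 57373) (nat_lit 2) (.e (nat_lit 90170) (nat_lit 13) .nil))))) .nil))) (.nd (nat_lit 5) 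
(.lf (nat_lit 165397) (.g (nat_lit 2253) (.e (nat_lit 57466) (nat_lit 23) (.e (nat_lit 516117) (nat_lit 1) (.e (nat_lit 164399) (nat_lit 256) (.e (nat_lit 57375) (nat_lit 2) (.e (nat_lit 90174) (nat_lit 14) .nil))))) .nil)) 
(.lf (nat_lit 165429) (.g (nat_lit 2592) (.e (nat_lit 57466) (nat_lit 23) (.e (nat_lit 516120) (nat_lit 1) (.e (nat_lit 164401) (nat_lit 256) (.e (nat_lit 57373) (nat_lit 2) (.e (nat_lit 90172) (nat_lit 14) .nil))))) .nil)))) (.nd (nat_lit 4) (.nd (nat_lit 5) 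
(.lf (nat_lit 165389) (.g (nat_lit 2410) (.e (nat_lit 57466) (nat_lit 23) (.e (nat_lit 516117) (nat_lit 1) (.e (nat_lit 164399) (nat_lit 256) (.e (nat_lit 57372) (nat_lit 2) (.e (nat_lit 90174) (nat_lit 14) (.e (nat_lit 180243) (nat_lit 5) (.e (nat_lit 532510) (nat_lit 2) (.e (nat_lit 106537) (nat_lit 12) .nil)))))))) (.g (nat_lit 4) .nil .nil))) 
(.lf (nat_lit 165421) (.g (nat_lit 3936) (.e (nat_lit 57466) (nat_lit 23) (.e (nat_lit 516117) (nat_lit 1) (.e (nat_lit 164403) (nat_lit 256) (.e (nat_lit 57373) (nat_lit 2) (.e (nat_lit 90174) (nat_lit 14) (.e (nat_lit 180243) (nat_lit 5) (.e (nat_lit 532510) (nat_lit 2) (.e (nat_lit 106539) (nat_lit 12) .nil)))))))) (.g (nat_lit 5) .nil .nil)))) (.nd (nat_lit 5) 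
(.lf (nat_lit 165405) (.g (nat_lit 2875) (.e (nat_lit 57466) (nat_lit 23) (.e (nat_lit 516117) (nat_lit 1) (.e (nat_lit 164400) (nat_lit 256) (.e (nat_lit 57372) (nat_lit 2) (.e (nat_lit 90172) (nat_lit 14) (.e (nat_lit 180244) (nat_lit 5) (.e (nat_lit 532506) (nat_lit 2) (.e (nat_lit 106539) (nat_lit 12) .nil)))))))) (.g (nat_lit 5) .nil .nil))) 
(.lf (nat_lit 165437) (.g (nat_lit 1960) (.e (nat_lit 57466) (nat_lit 23) (.e (nat_lit 516129) (nat_lit 3) (.e (nat_lit 221210) (nat_lit 22) (.e (nat_lit 196663) (nat_lit 13) (.e (nat_lit 65637) (nat_lit 15) .nil))))) .nil)))))) (.nd (nat_lit 2) (.nd (nat_lit 3) (.nd (nat_lit 4) (.nd (nat_lit 5) 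
(.lf (nat_lit 165379) (.g (nat_lit 3250) (.e (nat_lit 57466) (nat_lit 23) (.e (nat_lit 516117) (nat_lit 1) (.e (nat_lit 164398) (nat_lit 256) (.e (nat_lit 57379) (nat_lit 3) (.e (nat_lit 98366) (nat_lit 27) (.e (nat_lit 434231) (nat_lit 23) (.e (nat_lit 532506) (nat_lit 2) (.e (nat_lit 106539) (nat_lit 12) .nil)))))))) (.g (nat_lit 5) .nil .nil))) 
(.lf (nat_lit 165411) (.g (nat_lit 2548) (.e (nat_lit 57466) (nat_lit 23) (.e (nat_lit 516117) (nat_lit 1) (.e (nat_lit 164403) (nat_lit 256) (.e (nat_lit 57371) (nat_lit 2) (.e (nat_lit 90174) (nat_lit 14) (.e (nat_lit 180243) (nat_lit 5) (.e (nat_lit 532510) (nat_lit 2) (.e (nat_lit 106539) (nat_lit 12) .nil)))))))) (.g (nat_lit 4) .nil .nil)))) (.nd (nat_lit 5) 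
(.lf (nat_lit 165395) (.g (nat_lit 4056) (.e (nat_lit 57466) (nat_lit 23) (.e (nat_lit 516117) (nat_lit 1) (.e (nat_lit 164399) (nat_lit 256) (.e (nat_lit 57373) (nat_lit 2) (.e (nat_lit 90174) (nat_lit 14) (.e (nat_lit 180243) (nat_lit 5) (.e (nat_lit 532511) (nat_lit 2) (.e (nat_lit 106539) (nat_lit 12) .nil)))))))) (.g (nat_lit 6) .nil .nil))) 
(.lf (nat_lit 165427) (.g (nat_lit 2115) (.e (nat_lit 57466) (nat_lit 23) (.e (nat_lit 516120) (nat_lit 1) (.e (nat_lit 164330) (nat_lit 230) (.e (nat_lit 163869) (nat_lit 2) .nil)))) .nil)))) (.nd (nat_lit 4) (.nd (nat_lit 5) 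
(.lf (nat_lit 165387) (.g (nat_lit 3334) (.e (nat_lit 57466) (nat_lit 23) (.e (nat_lit 516117) (nat_lit 1) (.e (nat_lit 164399) (nat_lit 256) (.e (nat_lit 57372) (nat_lit 2) (.e (nat_lit 90172) (nat_lit 14) (.e (nat_lit 180244) (nat_lit 5) (.e (nat_lit 532506) (nat_lit 2) (.e (nat_lit 106539) (nat_lit 12) .nil)))))))) (.g (nat_lit 5) .nil .nil))) 
(.lf (nat_lit 165419) (.g (nat_lit 3944) (.e (nat_lit 57466) (nat_lit 23) (.e (nat_lit 516117) (nat_lit 1) (.e (nat_lit 164403) (nat_lit 256) (.e (nat_lit 57373) (nat_lit 2) (.e (nat_lit 90174) (nat_lit 14) (.e (nat_lit 180243) (nat_lit 5) (.e (nat_lit 532508) (nat_lit 2) (.e (nat_lit 106539) (nat_lit 12) .nil)))))))) (.g (nat_lit 5) .nil .nil)))) (.nd (nat_lit 5) 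
(.lf (nat_lit 165403) (.g (nat_lit 2659) (.e (nat_lit 57466) (nat_lit 23) (.e (nat_lit 516117) (nat_lit 1) (.e (nat_lit 164399) (nat_lit 256) (.e (nat_lit 57378) (nat_lit 3) (.e (nat_lit 98367) (nat_lit 27) (.e (nat_lit 434231) (nat_lit 23) (.e (nat_lit 532506) (nat_lit 2) (.e (nat_lit 106539) (nat_lit 12) .nil)))))))) (.g (nat_lit 4) .nil .nil))) 
(.lf (nat_lit 165435) (.g (nat_lit 1431) (.e (nat_lit 57466) (nat_lit 23) (.e (nat_lit 516129) (nat_lit 3) (.e (nat_lit 221210) (nat_lit 22) (.e (nat_lit 196663) (nat_lit 13) .nil)))) .nil))))) (.nd (nat_lit 3) (.nd (nat_lit 4) (.nd (nat_lit 5) 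
(.lf (nat_lit 165383) (.g (nat_lit 2048) (.e (nat_lit 57466) (nat_lit 23) (.e (nat_lit 516117) (nat_lit 1) (.e (nat_lit 164399) (nat_lit 256) (.e (nat_lit 57370) (nat_lit 2) (.e (nat_lit 90172) (nat_lit 14) .nil))))) .nil)) 
(.lf (nat_lit 165415) (.g (nat_lit 2908) (.e (nat_lit 57466) (nat_lit 23) (.e (nat_lit 516117) (nat_lit 1) (.e (nat_lit 164403) (nat_lit 256) (.e (nat_lit 57373) (nat_lit 2) (.e (nat_lit 90170) (nat_lit 13) (.e (nat_lit 172067) (nat_lit 3) (.e (nat_lit 204834) (nat_lit 19) (.e (nat_lit 106539) (nat_lit 12) .nil)))))))) (.g (nat_lit 4) .nil .nil)))) (.nd (nat_lit 5) 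
(.lf (nat_lit 165399) (.g (nat_lit 2827) (.e (nat_lit 57466) (nat_lit 23) (.e (nat_lit 516117) (nat_lit 1) (.e (nat_lit 164399) (nat_lit 256) (.e (nat_lit 57375) (nat_lit 2) (.e (nat_lit 90174) (nat_lit 14) (.e (nat_lit 180243) (nat_lit 5) (.e (nat_lit 532508) (nat_lit 2) (.e (nat_lit 106539) (nat_lit 12) .nil)))))))) (.g (nat_lit 5) .nil .nil))) 
(.lf (nat_lit 165431) (.g (nat_lit 2931) (.e (nat_lit 57466) (nat_lit 23) (.e (nat_lit 516120) (nat_lit 1) (.e (nat_lit 164403) (nat_lit 256) (.e (nat_lit 57371) (nat_lit 2) (.e (nat_lit 90174) (nat_lit 14) .nil))))) .nil)))) (.nd (nat_lit 4) (.nd (nat_lit 5) 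
(.lf (nat_lit 165391) (.g (nat_lit 3177) (.e (nat_lit 57466) (nat_lit 23) (.e (nat_lit 516117) (nat_lit 1) (.e (nat_lit 164399) (nat_lit 256) (.e (nat_lit 57373) (nat_lit 2) (.e (nat_lit 90170) (nat_lit 13) (.e (nat_lit 172067) (nat_lit 3) (.e (nat_lit 204834) (nat_lit 19) (.e (nat_lit 106539) (nat_lit 12) .nil)))))))) (.g (nat_lit 5) .nil .nil))) 
(.lf (nat_lit 165423) (.g (nat_lit 2876) (.e (nat_lit 57466) (nat_lit 23) (.e (nat_lit 516119) (nat_lit 1) (.e (nat_lit 164403) (nat_lit 256) (.e (nat_lit 57373) (nat_lit 2) (.e (nat_lit 90170) (nat_lit 13) (.e (nat_lit 172065) (nat_lit 3) (.e (nat_lit 204834) (nat_lit 19) (.e (nat_lit 106539) (nat_lit 12) .nil)))))))) (.g (nat_lit 5) .nil .nil)))) (.nd (nat_lit 5) 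
(.lf (nat_lit 165407) (.g (nat_lit 2785) (.e (nat_lit 57466) (nat_lit 23) (.e (nat_lit 516117) (nat_lit 1) (.e (nat_lit 164400) (nat_lit 256) (.e (nat_lit 57375) (nat_lit 2) (.e (nat_lit 90172) (nat_lit 14) (.e (nat_lit 180244) (nat_lit 5) (.e (nat_lit 532506) (nat_lit 2) (.e (nat_lit 106539) (nat_lit 12) .nil)))))))) (.g (nat_lit 5) .nil .nil))) 
(.lf (nat_lit 165439) (.g (nat_lit 1960) (.e (nat_lit 57466) (nat_lit 23) (.e (nat_lit 516129) (nat_lit 3) (.e (nat_lit 221210) (nat_lit 22) (.e (nat_lit 196663) (nat_lit 13) (.e (nat_lit 65642) (nat_lit 15) .nil))))) .nil))))))))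

noncomputable def tv2220 : DT := (.nd (nat_lit 0) (.nd (nat_lit 1) (.nd (nat_lit 2) (.nd (nat_lit 3) (.nd (nat_lit 4) (.nd (nat_lit 5) 
(.lf (nat_lit 165440) (.g (nat_lit 2079) (.e (nat_lit 57466) (nat_lit 23) (.e (nat_lit 516129) (nat_lit 3) (.e (nat_lit 221210) (nat_lit 22) (.e (nat_lit 196665) (nat_lit 13) (.e (nat_lit 65636) (nat_lit 15) .nil))))) .nil)) 
(.lf (nat_lit 165472) (.g (nat_lit 2471) (.e (nat_lit 57466) (nat_lit 23) (.e (nat_lit 516131) (nat_lit 3) (.e (nat_lit 221212) (nat_lit 22) (.e (nat_lit 196666) (nat_lit 13) (.e (nat_lit 65569) (nat_lit 3) .nil))))) .nil))) (.nd (nat_lit 5) 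
(.lf (nat_lit 165456) (.g (nat_lit 2363) (.e (nat_lit 57466) (nat_lit 23) (.e (nat_lit 516129) (nat_lit 3) (.e (nat_lit 221210) (nat_lit 22) (.e (nat_lit 196670) (nat_lit 14) (.e (nat_lit 73754) (nat_lit 8) (.e (nat_lit 557091) (nat_lit 12) (.e (nat_lit 163999) (nat_lit 38) (.e (nat_lit 639017) (nat_lit 15) .nil)))))))) (.g (nat_lit 4) .nil .nil))) 
(.lf (nat_lit 165488) (.g (nat_lit 492) (.e (nat_lit 57466) (nat_lit 23) (.e (nat_lit 516142) (nat_lit 8) (.e (nat_lit 417812) (nat_lit 7) .nil))) .nil)))) (.nd (nat_lit 4) (.nd (nat_lit 5) 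
(.lf (nat_lit 165448) (.g (nat_lit 2181) (.e (nat_lit 57466) (nat_lit 23) (.e (nat_lit 516129) (nat_lit 3) (.e (nat_lit 221210) (nat_lit 22) (.e (nat_lit 196668) (nat_lit 14) (.e (nat_lit 73746) (nat_lit 3) (.e (nat_lit 516120) (nat_lit 1) (.e (nat_lit 164158) (nat_lit 152) (.e (nat_lit 1183) (nat_lit 87) .nil)))))))) (.g (nat_lit 4) .nil .nil))) 
(.lf (nat_lit 165480) (.g (nat_lit 1336) (.e (nat_lit 57466) (nat_lit 23) (.e (nat_lit 516131) (nat_lit 3) (.e (nat_lit 221215) (nat_lit 23) (.e (nat_lit 204853) (nat_lit 26) .nil)))) .nil))) (.nd (nat_lit 5) 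
(.lf (nat_lit 165464) (.g (nat_lit 4537) (.e (nat_lit 57466) (nat_lit 23) (.e (nat_lit 516129) (nat_lit 3) (.e (nat_lit 221214) (nat_lit 23) (.e (nat_lit 204880) (nat_lit 32) (.e (nat_lit 385068) (nat_lit 26) (.e (nat_lit 532501) (nat_lit 1) (.e (nat_lit 57830) (nat_lit 250) (.e (nat_lit 1183) (nat_lit 87) .nil)))))))) (.g (nat_lit 6) .nil .nil))) 
(.lf (nat_lit 165496) (.g (nat_lit 2578) (.e (nat_lit 57466) (nat_lit 23) (.e (nat_lit 516146) (nat_lit 9) (.e (nat_lit 426131) (nat_lit 3) (.e (nat_lit 204837) (nat_lit 20) (.e (nat_lit 114718) (nat_lit 23) (.e (nat_lit 98319) (nat_lit 17) (.e (nat_lit 3421) (nat_lit 213) (.e (nat_lit 663565) (nat_lit 3) .nil)))))))) (.g (nat_lit 4) .nil .nil)))))) 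
(.nd (nat_lit 3) (.nd (nat_lit 4) (.nd (nat_lit 5) 
(.lf (nat_lit 165444) (.g (nat_lit 2951) (.e (nat_lit 57466) (nat_lit 23) (.e (nat_lit 516129) (nat_lit 3) (.e (nat_lit 221210) (nat_lit 22) (.e (nat_lit 196666) (nat_lit 13) (.e (nat_lit 65642) (nat_lit 15) (.e (nat_lit 3253) (nat_lit 197) (.e (nat_lit 532501) (nat_lit 1) (.e (nat_lit 57829) (nat_lit 250) (.e (nat_lit 1183) (nat_lit 87) .nil))))))))) (.g (nat_lit 4) .nil .nil))) 
(.lf (nat_lit 165476) (.g (nat_lit 1674) (.e (nat_lit 57466) (nat_lit 23) (.e (nat_lit 516131) (nat_lit 3) (.e (nat_lit 221212) (nat_lit 22) (.e (nat_lit 196681) (nat_lit 17) (.e (nat_lit 131096) (nat_lit 3) .nil))))) .nil))) (.nd (nat_lit 5) 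
(.lf (nat_lit 165460) (.g (nat_lit 1580) (.e (nat_lit 57466) (nat_lit 23) (.e (nat_lit 516129) (nat_lit 3) (.e (nat_lit 221214) (nat_lit 23) (.e (nat_lit 204862) (nat_lit 27) .nil)))) .nil)) 
(.lf (nat_lit 165492) (.g (nat_lit 751) (.e (nat_lit 57466) (nat_lit 23) (.e (nat_lit 516146) (nat_lit 9) (.e (nat_lit 426131) (nat_lit 3) .nil))) .nil)))) (.nd (nat_lit 4) (.nd (nat_lit 5) 
(.lf (nat_lit 165452) (.g (nat_lit 1995) (.e (nat_lit 57466) (nat_lit 23) (.e (nat_lit 516129) (nat_lit 3) (.e (nat_lit 221210) (nat_lit 22) (.e (nat_lit 196668) (nat_lit 14) (.e (nat_lit 73747) (nat_lit 3) (.e (nat_lit 516117) (nat_lit 1) (.e (nat_lit 164161) (nat_lit 152) (.e (nat_lit 7936) (nat_lit 87) .nil)))))))) (.g (nat_lit 4) .nil .nil))) 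
(.lf (nat_lit 165484) (.g (nat_lit 1877) (.e (nat_lit 57466) (nat_lit 23) (.e (nat_lit 516131) (nat_lit 3) (.e (nat_lit 221215) (nat_lit 23) (.e (nat_lit 204864) (nat_lit 27) .nil)))) .nil))) (.nd (nat_lit 5) 
(.lf (nat_lit 165468) (.g (nat_lit 3727) (.e (nat_lit 57466) (nat_lit 23) (.e (nat_lit 516129) (nat_lit 3) (.e (nat_lit 221215) (nat_lit 23) (.e (nat_lit 204861) (nat_lit 26) (.e (nat_lit 336012) (nat_lit 2) (.e (nat_lit 90164) (nat_lit 12) (.e (nat_lit 164017) (nat_lit 44) (.e (nat_lit 688170) (nat_lit 15) .nil)))))))) (.g (nat_lit 6) .nil .nil))) 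
(.lf (nat_lit 165500) (.g (nat_lit 2578) (.e (nat_lit 57466) (nat_lit 23) (.e (nat_lit 516146) (nat_lit 9) (.e (nat_lit 426131) (nat_lit 3) (.e (nat_lit 204838) (nat_lit 20) (.e (nat_lit 114716) (nat_lit 22) .nil))))) .nil)))))) (.nd (nat_lit 2) (.nd (nat_lit 3) (.nd (nat_lit 4) (.nd (nat_lit 5) 
(.lf (nat_lit 165442) (.g (nat_lit 2214) (.e (nat_lit 57466) (nat_lit 23) (.e (nat_lit 516129) (nat_lit 3) (.e (nat_lit 221210) (nat_lit 22) (.e (nat_lit 196666) (nat_lit 13) (.e (nat_lit 65571) (nat_lit 3) .nil))))) .nil)) 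
(.lf (nat_lit 165474) (.g (nat_lit 3371) (.e (nat_lit 57466) (nat_lit 23) (.e (nat_lit 516131) (nat_lit 3) (.e (nat_lit 221212) (nat_lit 22) (.e (nat_lit 196668) (nat_lit 14) (.e (nat_lit 73747) (nat_lit 3) (.e (nat_lit 516120) (nat_lit 1) (.e (nat_lit 164159) (nat_lit 152) (.e (nat_lit 1183) (nat_lit 87) .nil)))))))) (.g (nat_lit 6) .nil .nil)))) (.nd (nat_lit 5) 
(.lf (nat_lit 165458) (.g (nat_lit 2413) (.e (nat_lit 57466) (nat_lit 23) (.e (nat_lit 516129) (nat_lit 3) (.e (nat_lit 221210) (nat_lit 22) (.e (nat_lit 196681) (nat_lit 17) (.e (nat_lit 131093) (nat_lit 2) .nil))))) .nil)) 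
(.lf (nat_lit 165490) (.g (nat_lit 2421) (.e (nat_lit 57466) (nat_lit 23) (.e (nat_lit 516145) (nat_lit 9) (.e (nat_lit 426131) (nat_lit 3) (.e (nat_lit 204838) (nat_lit 20) (.e (nat_lit 114714) (nat_lit 22) .nil))))) .nil)))) (.nd (nat_lit 4) (.nd (nat_lit 5) 
(.lf (nat_lit 165450) (.g (nat_lit 1953) (.e (nat_lit 57466) (nat_lit 23) (.e (nat_lit 516129) (nat_lit 3) (.e (nat_lit 221210) (nat_lit 22) (.e (nat_lit 196668) (nat_lit 14) (.e (nat_lit 73747) (nat_lit 3) (.e (nat_lit 516117) (nat_lit 1) (.e (nat_lit 164159) (nat_lit 152) (.e (nat_lit 1177) (nat_lit 87) .nil)))))))) (.g (nat_lit 4) .nil .nil))) 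
(.lf (nat_lit 165482) (.g (nat_lit 2666) (.e (nat_lit 57466) (nat_lit 23) (.e (nat_lit 516131) (nat_lit 3) (.e (nat_lit 221215) (nat_lit 23) (.e (nat_lit 204861) (nat_lit 26) (.e (nat_lit 336012) (nat_lit 2) .nil))))) .nil))) (.nd (nat_lit 5) 
(.lf (nat_lit 165466) (.g (nat_lit 2409) (.e (nat_lit 57466) (nat_lit 23) (.e (nat_lit 516129) (nat_lit 3) (.e (nat_lit 221215) (nat_lit 23) (.e (nat_lit 204861) (nat_lit 26) (.e (nat_lit 336010) (nat_lit 2) .nil))))) .nil)) 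
(.lf (nat_lit 165498) (.g (nat_lit 3727) (.e (nat_lit 57466) (nat_lit 23) (.e (nat_lit 516146) (nat_lit 9) (.e (nat_lit 426131) (nat_lit 3) (.e (nat_lit 204838) (nat_lit 20) (.e (nat_lit 114714) (nat_lit 22) (.e (nat_lit 90164) (nat_lit 12) (.e (nat_lit 164006) (nat_lit 41) (.e (nat_lit 663565) (nat_lit 3) .nil)))))))) (.g (nat_lit 6) .nil .nil)))))) 
(.nd (nat_lit 3) (.nd (nat_lit 4) (.nd (nat_lit 5) 
(.lf (nat_lit 165446) (.g (nat_lit 3072) (.e (nat_lit 57466) (nat_lit 23) (.e (nat_lit 516129) (nat_lit 3) (.e (nat_lit 221210) (nat_lit 22) (.e (nat_lit 196666) (nat_lit 13) (.e (nat_lit 65642) (nat_lit 15) (.e (nat_lit 3253) (nat_lit 197) (.e (nat_lit 532504) (nat_lit 1) (.e (nat_lit 57829) (nat_lit 250) (.e (nat_lit 1183) (nat_lit 87) .nil))))))))) (.g (nat_lit 4) .nil .nil))) 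
(.lf (nat_lit 165478) (.g (nat_lit 1932) (.e (nat_lit 57466) (nat_lit 23) (.e (nat_lit 516131) (nat_lit 3) (.e (nat_lit 221214) (nat_lit 23) (.e (nat_lit 204880) (nat_lit 32) (.e (nat_lit 385066) (nat_lit 26) .nil))))) .nil))) (.nd (nat_lit 5) 
(.lf (nat_lit 165462) (.g (nat_lit 2617) (.e (nat_lit 57466) (nat_lit 23) (.e (nat_lit 516129) (nat_lit 3) (.e (nat_lit 221214) (nat_lit 23) (.e (nat_lit 204863) (nat_lit 27) (.e (nat_lit 344115) (nat_lit 20) (.e (nat_lit 507906) (nat_lit 0) (.e (nat_lit 720) (nat_lit 64) (.e (nat_lit 688170) (nat_lit 15) .nil)))))))) (.g (nat_lit 4) .nil .nil))) 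
(.lf (nat_lit 165494) (.g (nat_lit 3388) (.e (nat_lit 57466) (nat_lit 23) (.e (nat_lit 516146) (nat_lit 9) (.e (nat_lit 426131) (nat_lit 3) (.e (nat_lit 204837) (nat_lit 20) (.e (nat_lit 114714) (nat_lit 22) (.e (nat_lit 90162) (nat_lit 12) (.e (nat_lit 164007) (nat_lit 41) (.e (nat_lit 663565) (nat_lit 3) .nil)))))))) (.g (nat_lit 5) .nil .nil))))) (.nd (nat_lit 4) (.nd (nat_lit 5) 
(.lf (nat_lit 165454) (.g (nat_lit 1910) (.e (nat_lit 57466) (nat_lit 23) (.e (nat_lit 516129) (nat_lit 3) (.e (nat_lit 221210) (nat_lit 22) (.e (nat_lit 196669) (nat_lit 14) (.e (nat_lit 73754) (nat_lit 8) (.e (nat_lit 557091) (nat_lit 12) (.e (nat_lit 163999) (nat_lit 38) (.e (nat_lit 639017) (nat_lit 15) .nil)))))))) (.g (nat_lit 4) .nil .nil))) 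
(.lf (nat_lit 165486) (.g (nat_lit 1938) (.e (nat_lit 57466) (nat_lit 23) (.e (nat_lit 516131) (nat_lit 3) (.e (nat_lit 221215) (nat_lit 23) (.e (nat_lit 204882) (nat_lit 32) .nil)))) .nil))) (.nd (nat_lit 5) 
(.lf (nat_lit 165470) (.g (nat_lit 930) (.e (nat_lit 57466) (nat_lit 23) (.e (nat_lit 516131) (nat_lit 3) (.e (nat_lit 221212) (nat_lit 22) (.e (nat_lit 196663) (nat_lit 13) .nil)))) .nil)) 
(.lf (nat_lit 165502) (.g (nat_lit 2449) (.e (nat_lit 57466) (nat_lit 23) (.e (nat_lit 516146) (nat_lit 9) (.e (nat_lit 426131) (nat_lit 3) (.e (nat_lit 204838) (nat_lit 20) (.e (nat_lit 114718) (nat_lit 23) .nil))))) .nil))))))) (.nd (nat_lit 1) (.nd (nat_lit 2) (.nd (nat_lit 3) (.nd (nat_lit 4) (.nd (nat_lit 5) 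
(.lf (nat_lit 165441) (.g (nat_lit 1346) (.e (nat_lit 57466) (nat_lit 23) (.e (nat_lit 516129) (nat_lit 3) (.e (nat_lit 221210) (nat_lit 22) (.e (nat_lit 196666) (nat_lit 13) .nil)))) .nil)) 
(.lf (nat_lit 165473) (.g (nat_lit 1424) (.e (nat_lit 57466) (nat_lit 23) (.e (nat_lit 516131) (nat_lit 3) (.e (nat_lit 221212) (nat_lit 22) (.e (nat_lit 196668) (nat_lit 14) (.e (nat_lit 73747) (nat_lit 3) .nil))))) .nil))) (.nd (nat_lit 5) 
(.lf (nat_lit 165457) (.g (nat_lit 2177) (.e (nat_lit 57466) (nat_lit 23) (.e (nat_lit 516129) (nat_lit 3) (.e (nat_lit 221210) (nat_lit 22) (.e (nat_lit 196681) (nat_lit 17) (.e (nat_lit 131091) (nat_lit 2) .nil))))) .nil)) 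
(.lf (nat_lit 165489) (.g (nat_lit 1385) (.e (nat_lit 57466) (nat_lit 23) (.e (nat_lit 516145) (nat_lit 9) (.e (nat_lit 426131) (nat_lit 3) (.e (nat_lit 204838) (nat_lit 20) .nil)))) .nil)))) (.nd (nat_lit 4) (.nd (nat_lit 5) 
(.lf (nat_lit 165449) (.g (nat_lit 2037) (.e (nat_lit 57466) (nat_lit 23) (.e (nat_lit 516129) (nat_lit 3) (.e (nat_lit 221210) (nat_lit 22) (.e (nat_lit 196668) (nat_lit 14) (.e (nat_lit 73747) (nat_lit 3) (.e (nat_lit 516115) (nat_lit 1) (.e (nat_lit 164151) (nat_lit 152) (.e (nat_lit 1186) (nat_lit 87) .nil)))))))) (.g (nat_lit 4) .nil .nil))) 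
(.lf (nat_lit 165481) (.g (nat_lit 2757) (.e (nat_lit 57466) (nat_lit 23) (.e (nat_lit 516131) (nat_lit 3) (.e (nat_lit 221215) (nat_lit 23) (.e (nat_lit 204861) (nat_lit 26) (.e (nat_lit 336009) (nat_lit 2) .nil))))) .nil))) (.nd (nat_lit 5) 
(.lf (nat_lit 165465) (.g (nat_lit 4648) (.e (nat_lit 57466) (nat_lit 23) (.e (nat_lit 516129) (nat_lit 3) (.e (nat_lit 221214) (nat_lit 23) (.e (nat_lit 204880) (nat_lit 32) (.e (nat_lit 385068) (nat_lit 26) (.e (nat_lit 532504) (nat_lit 1) (.e (nat_lit 57829) (nat_lit 250) (.e (nat_lit 1183) (nat_lit 87) .nil)))))))) (.g (nat_lit 6) .nil .nil))) 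
(.lf (nat_lit 165497) (.g (nat_lit 4798) (.e (nat_lit 57466) (nat_lit 23) (.e (nat_lit 516146) (nat_lit 9) (.e (nat_lit 426131) (nat_lit 3) (.e (nat_lit 204838) (nat_lit 20) (.e (nat_lit 114714) (nat_lit 22) (.e (nat_lit 90162) (nat_lit 12) (.e (nat_lit 164007) (nat_lit 41) (.e (nat_lit 663565) (nat_lit 3) .nil)))))))) (.g (nat_lit 0) .nil .nil)))))) 
(.nd (nat_lit 3) (.nd (nat_lit 4) (.nd (nat_lit 5) 
(.lf (nat_lit 165445) (.g (nat_lit 3101) (.e (nat_lit 57466) (nat_lit 23) (.e (nat_lit 516129) (nat_lit 3) (.e (nat_lit 221210) (nat_lit 22) (.e (nat_lit 196666) (nat_lit 13) (.e (nat_lit 65642) (nat_lit 15) (.e (nat_lit 3253) (nat_lit 197) (.e (nat_lit 532501) (nat_lit 1) (.e (nat_lit 57830) (nat_lit 250) (.e (nat_lit 1183) (nat_lit 87) .nil))))))))) (.g (nat_lit 4) .nil .nil))) 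
(.lf (nat_lit 165477) (.g (nat_lit 1717) (.e (nat_lit 57466) (nat_lit 23) (.e (nat_lit 516131) (nat_lit 3) (.e (nat_lit 221212) (nat_lit 22) (.e (nat_lit 196681) (nat_lit 17) (.e (nat_lit 131098) (nat_lit 3) .nil))))) .nil))) (.nd (nat_lit 5) 
(.lf (nat_lit 165461) (.g (nat_lit 2154) (.e (nat_lit 57466) (nat_lit 23) (.e (nat_lit 516129) (nat_lit 3) (.e (nat_lit 221214) (nat_lit 23) (.e (nat_lit 204862) (nat_lit 27) (.e (nat_lit 344117) (nat_lit 21) .nil))))) .nil)) 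
(.lf (nat_lit 165493) (.g (nat_lit 2407) (.e (nat_lit 57466) (nat_lit 23) (.e (nat_lit 516146) (nat_lit 9) (.e (nat_lit 426131) (nat_lit 3) (.e (nat_lit 204837) (nat_lit 20) (.e (nat_lit 114714) (nat_lit 22) .nil))))) .nil)))) (.nd (nat_lit 4) (.nd (nat_lit 5) 
(.lf (nat_lit 165453) (.g (nat_lit 1985) (.e (nat_lit 57466) (nat_lit 23) (.e (nat_lit 516129) (nat_lit 3) (.e (nat_lit 221210) (nat_lit 22) (.e (nat_lit 196668) (nat_lit 14) (.e (nat_lit 73750) (nat_lit 6) .nil))))) .nil)) 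
(.lf (nat_lit 165485) (.g (nat_lit 2252) (.e (nat_lit 57466) (nat_lit 23) (.e (nat_lit 516131) (nat_lit 3) (.e (nat_lit 221215) (nat_lit 23) (.e (nat_lit 204881) (nat_lit 32) (.e (nat_lit 385066) (nat_lit 26) .nil))))) .nil))) (.nd (nat_lit 5) 
(.lf (nat_lit 165469) (.g (nat_lit 2827) (.e (nat_lit 57466) (nat_lit 23) (.e (nat_lit 516129) (nat_lit 3) (.e (nat_lit 221215) (nat_lit 23) (.e (nat_lit 204880) (nat_lit 32) (.e (nat_lit 385066) (nat_lit 26) (.e (nat_lit 532504) (nat_lit 1) (.e (nat_lit 57829) (nat_lit 250) (.e (nat_lit 1183) (nat_lit 87) .nil)))))))) (.g (nat_lit 5) .nil .nil))) 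
(.lf (nat_lit 165501) (.g (nat_lit 3853) (.e (nat_lit 57466) (nat_lit 23) (.e (nat_lit 516146) (nat_lit 9) (.e (nat_lit 426131) (nat_lit 3) (.e (nat_lit 204838) (nat_lit 20) (.e (nat_lit 114716) (nat_lit 22) (.e (nat_lit 90163) (nat_lit 12) (.e (nat_lit 164006) (nat_lit 41) (.e (nat_lit 663565) (nat_lit 3) .nil)))))))) (.g (nat_lit 5) .nil .nil))))))) 
(.nd (nat_lit 2) (.nd (nat_lit 3) (.nd (nat_lit 4) (.nd (nat_lit 5) 
(.lf (nat_lit 165443) (.g (nat_lit 2924) (.e (nat_lit 57466) (nat_lit 23) (.e (nat_lit 516129) (nat_lit 3) (.e (nat_lit 221210) (nat_lit 22) (.e (nat_lit 196666) (nat_lit 13) (.e (nat_lit 65642) (nat_lit 15) .nil))))) .nil)) 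
(.lf (nat_lit 165475) (.g (nat_lit 3207) (.e (nat_lit 57466) (nat_lit 23) (.e (nat_lit 516131) (nat_lit 3) (.e (nat_lit 221212) (nat_lit 22) (.e (nat_lit 196681) (nat_lit 17) (.e (nat_lit 131091) (nat_lit 2) (.e (nat_lit 90164) (nat_lit 12) (.e (nat_lit 164017) (nat_lit 44) (.e (nat_lit 688170) (nat_lit 15) .nil)))))))) (.g (nat_lit 7) .nil .nil)))) (.nd (nat_lit 5) 
(.lf (nat_lit 165459) (.g (nat_lit 2007) (.e (nat_lit 57466) (nat_lit 23) (.e (nat_lit 516129) (nat_lit 3) (.e (nat_lit 221210) (nat_lit 22) (.e (nat_lit 196681) (nat_lit 17) (.e (nat_lit 131094) (nat_lit 2) .nil))))) .nil)) 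
(.lf (nat_lit 165491) (.g (nat_lit 2523) (.e (nat_lit 57466) (nat_lit 23) (.e (nat_lit 516145) (nat_lit 9) (.e (nat_lit 426131) (nat_lit 3) (.e (nat_lit 204838) (nat_lit 20) (.e (nat_lit 114716) (nat_lit 22) .nil))))) .nil)))) (.nd (nat_lit 4) (.nd (nat_lit 5) 
(.lf (nat_lit 165451) (.g (nat_lit 4588) (.e (nat_lit 57466) (nat_lit 23) (.e (nat_lit 516129) (nat_lit 3) (.e (nat_lit 221210) (nat_lit 22) (.e (nat_lit 196668) (nat_lit 14) (.e (nat_lit 73747) (nat_lit 3) (.e (nat_lit 516117) (nat_lit 1) (.e (nat_lit 164159) (nat_lit 152) (.e (nat_lit 1183) (nat_lit 87) .nil)))))))) (.g (nat_lit 0) .nil .nil))) 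
(.lf (nat_lit 165483) (.g (nat_lit 3857) (.e (nat_lit 57466) (nat_lit 23) (.e (nat_lit 516131) (nat_lit 3) (.e (nat_lit 221215) (nat_lit 23) (.e (nat_lit 204863) (nat_lit 27) (.e (nat_lit 344117) (nat_lit 21) (.e (nat_lit 516099) (nat_lit 0) (.e (nat_lit 7936) (nat_lit 216) (.e (nat_lit 688170) (nat_lit 15) .nil)))))))) (.g (nat_lit 5) .nil .nil)))) (.nd (nat_lit 5) 
(.lf (nat_lit 165467) (.g (nat_lit 2313) (.e (nat_lit 57466) (nat_lit 23) (.e (nat_lit 516129) (nat_lit 3) (.e (nat_lit 221215) (nat_lit 23) (.e (nat_lit 204861) (nat_lit 26) (.e (nat_lit 336012) (nat_lit 2) .nil))))) .nil)) 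
(.lf (nat_lit 165499) (.g (nat_lit 2561) (.e (nat_lit 57466) (nat_lit 23) (.e (nat_lit 516146) (nat_lit 9) (.e (nat_lit 426131) (nat_lit 3) (.e (nat_lit 204838) (nat_lit 20) (.e (nat_lit 114715) (nat_lit 22) .nil))))) .nil))))) (.nd (nat_lit 3) (.nd (nat_lit 4) (.nd (nat_lit 5) 
(.lf (nat_lit 165447) (.g (nat_lit 2250) (.e (nat_lit 57466) (nat_lit 23) (.e (nat_lit 516129) (nat_lit 3) (.e (nat_lit 221210) (nat_lit 22) (.e (nat_lit 196668) (nat_lit 14) (.e (nat_lit 73746) (nat_lit 3) (.e (nat_lit 516117) (nat_lit 1) (.e (nat_lit 164158) (nat_lit 152) (.e (nat_lit 1183) (nat_lit 87) .nil)))))))) (.g (nat_lit 4) .nil .nil))) 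
(.lf (nat_lit 165479) (.g (nat_lit 1086) (.e (nat_lit 57466) (nat_lit 23) (.e (nat_lit 516131) (nat_lit 3) (.e (nat_lit 221215) (nat_lit 23) (.e (nat_lit 204850) (nat_lit 26) .nil)))) .nil))) (.nd (nat_lit 5) 
(.lf (nat_lit 165463) (.g (nat_lit 3129) (.e (nat_lit 57466) (nat_lit 23) (.e (nat_lit 516129) (nat_lit 3) (.e (nat_lit 221214) (nat_lit 23) (.e (nat_lit 204880) (nat_lit 32) (.e (nat_lit 385066) (nat_lit 26) (.e (nat_lit 532501) (nat_lit 1) (.e (nat_lit 57829) (nat_lit 250) (.e (nat_lit 1183) (nat_lit 87) .nil)))))))) (.g (nat_lit 5) .nil .nil))) 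
(.lf (nat_lit 165495) (.g (nat_lit 2382) (.e (nat_lit 57466) (nat_lit 23) (.e (nat_lit 516146) (nat_lit 9) (.e (nat_lit 426131) (nat_lit 3) (.e (nat_lit 204837) (nat_lit 20) (.e (nat_lit 114718) (nat_lit 23) .nil))))) .nil)))) (.nd (nat_lit 4) (.nd (nat_lit 5) 
(.lf (nat_lit 165455) (.g (nat_lit 2218) (.e (nat_lit 57466) (nat_lit 23) (.e (nat_lit 516129) (nat_lit 3) (.e (nat_lit 221210) (nat_lit 22) (.e (nat_lit 196670) (nat_lit 14) (.e (nat_lit 73746) (nat_lit 3) (.e (nat_lit 516117) (nat_lit 1) (.e (nat_lit 164157) (nat_lit 152) (.e (nat_lit 1183) (nat_lit 87) .nil)))))))) (.g (nat_lit 4) .nil .nil))) 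
(.lf (nat_lit 165487) (.g (nat_lit 1091) (.e (nat_lit 57466) (nat_lit 23) (.e (nat_lit 516142) (nat_lit 8) (.e (nat_lit 417810) (nat_lit 6) (.e (nat_lit 286733) (nat_lit 2) .nil)))) .nil))) (.nd (nat_lit 5) 
(.lf (nat_lit 165471) (.g (nat_lit 3923) (.e (nat_lit 57466) (nat_lit 23) (.e (nat_lit 516131) (nat_lit 3) (.e (nat_lit 221212) (nat_lit 22) (.e (nat_lit 196665) (nat_lit 13) (.e (nat_lit 65637) (nat_lit 15) (.e (nat_lit 3253) (nat_lit 197) (.e (nat_lit 532501) (nat_lit 1) (.e (nat_lit 57830) (nat_lit 250) (.e (nat_lit 1183) (nat_lit 87) .nil))))))))) (.g (nat_lit 9) .nil .nil))) 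
(.lf (nat_lit 165503) (.g (nat_lit 2601) (.e (nat_lit 57466) (nat_lit 23) (.e (nat_lit 516146) (nat_lit 9) (.e (nat_lit 426131) (nat_lit 3) (.e (nat_lit 204838) (nat_lit 20) (.e (nat_lit 114718) (nat_lit 23) (.e (nat_lit 98322) (nat_lit 17) (.e (nat_lit 3421) (nat_lit 213) (.e (nat_lit 663565) (nat_lit 3) .nil)))))))) (.g (nat_lit 4) .nil .nil)))))))))

noncomputable def tv2221 : DT := (.nd (nat_lit 0) (.nd (nat_lit 1) (.nd (nat_lit 2) (.nd (nat_lit 3) (.nd (nat_lit 4) (.nd (nat_lit 5) (.nd (nat_lit 6) 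
(.lf (nat_lit 165504) (.g (nat_lit 2356) (.e (nat_lit 57466) (nat_lit 23) (.e (nat_lit 516146) (nat_lit 9) (.e (nat_lit 426131) (nat_lit 3) (.e (nat_lit 204838) (nat_lit 20) (.e (nat_lit 114719) (nat_lit 23) .nil))))) .nil)) 
(.lf (nat_lit 165568) (.g (nat_lit 2074) (.e (nat_lit 57467) (nat_lit 23) (.e (nat_lit 516115) (nat_lit 1) (.e (nat_lit 164399) (nat_lit 256) (.e (nat_lit 57372) (nat_lit 2) (.e (nat_lit 90167) (nat_lit 13) .nil))))) .nil))) (.nd (nat_lit 6) 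
(.lf (nat_lit 165536) (.g (nat_lit 2220) (.e (nat_lit 57466) (nat_lit 23) (.e (nat_lit 516169) (nat_lit 13) (.e (nat_lit 458789) (nat_lit 23) (.e (nat_lit 532515) (nat_lit 3) (.e (nat_lit 114716) (nat_lit 22) (.e (nat_lit 90163) (nat_lit 12) (.e (nat_lit 164006) (nat_lit 41) (.e (nat_lit 663565) (nat_lit 3) .nil)))))))) (.g (nat_lit 5) .nil .nil))) 
(.lf (nat_lit 165600) (.g (nat_lit 2044) (.e (nat_lit 57467) (nat_lit 23) (.e (nat_lit 516131) (nat_lit 3) (.e (nat_lit 221215) (nat_lit 23) (.e (nat_lit 204852) (nat_lit 26) (.e (nat_lit 336324) (nat_lit 18) .nil))))) .nil)))) (.nd (nat_lit 5) (.nd (nat_lit 6) 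
(.lf (nat_lit 165520) (.g (nat_lit 1086) (.e (nat_lit 57466) (nat_lit 23) (.e (nat_lit 516150) (nat_lit 9) (.e (nat_lit 426323) (nat_lit 13) (.e (nat_lit 483337) (nat_lit 9) .nil)))) .nil)) 
(.lf (nat_lit 165584) (.g (nat_lit 2477) (.e (nat_lit 57467) (nat_lit 23) (.e (nat_lit 516117) (nat_lit 1) (.e (nat_lit 164399) (nat_lit 256) (.e (nat_lit 57372) (nat_lit 2) (.e (nat_lit 90172) (nat_lit 14) .nil))))) .nil))) (.nd (nat_lit 6) 
(.lf (nat_lit 165552) (.g (nat_lit 3415) (.e (nat_lit 57466) (nat_lit 23) (.e (nat_lit 516185) (nat_lit 16) (.e (nat_lit 491568) (nat_lit 13) (.e (nat_lit 393229) (nat_lit 9) (.e (nat_lit 335892) (nat_lit 0) .nil))))) .nil)) 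
(.lf (nat_lit 165616) (.g (nat_lit 1233) (.e (nat_lit 57468) (nat_lit 24) (.e (nat_lit 524322) (nat_lit 12) (.e (nat_lit 450588) (nat_lit 10) (.e (nat_lit 573470) (nat_lit 11) .nil)))) .nil))))) (.nd (nat_lit 4) (.nd (nat_lit 5) (.nd (nat_lit 6) 
(.lf (nat_lit 165512) (.g (nat_lit 3998) (.e (nat_lit 57466) (nat_lit 23) (.e (nat_lit 516150) (nat_lit 9) (.e (nat_lit 426131) (nat_lit 3) (.e (nat_lit 204838) (nat_lit 20) (.e (nat_lit 114714) (nat_lit 22) (.e (nat_lit 90162) (nat_lit 12) (.e (nat_lit 164007) (nat_lit 41) (.e (nat_lit 663565) (nat_lit 3) .nil)))))))) (.g (nat_lit 6) .nil .nil))) 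
(.lf (nat_lit 165576) (.g (nat_lit 1981) (.e (nat_lit 57467) (nat_lit 23) (.e (nat_lit 516115) (nat_lit 1) (.e (nat_lit 164399) (nat_lit 256) (.e (nat_lit 57375) (nat_lit 2) (.e (nat_lit 90174) (nat_lit 14) (.e (nat_lit 180243) (nat_lit 5) (.e (nat_lit 532510) (nat_lit 2) (.e (nat_lit 106537) (nat_lit 12) .nil)))))))) (.g (nat_lit 4) .nil .nil)))) (.nd (nat_lit 6) 
(.lf (nat_lit 165544) (.g (nat_lit 1408) (.e (nat_lit 57466) (nat_lit 23) (.e (nat_lit 516177) (nat_lit 14) (.e (nat_lit 466977) (nat_lit 22) (.e (nat_lit 196668) (nat_lit 14) (.e (nat_lit 73762) (nat_lit 16) (.e (nat_lit 622613) (nat_lit 8) .nil)))))) (.g (nat_lit 5) .nil .nil))) 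
(.lf (nat_lit 165608) (.g (nat_lit 5134) (.e (nat_lit 57467) (nat_lit 23) (.e (nat_lit 516166) (nat_lit 12) (.e (nat_lit 450588) (nat_lit 10) (.e (nat_lit 573452) (nat_lit 9) .nil)))) .nil)))) (.nd (nat_lit 5) (.nd (nat_lit 6) 
(.lf (nat_lit 165528) (.g (nat_lit 1174) (.e (nat_lit 57466) (nat_lit 23) (.e (nat_lit 516166) (nat_lit 12) (.e (nat_lit 450587) (nat_lit 10) .nil))) .nil)) 
(.lf (nat_lit 165592) (.g (nat_lit 2735) (.e (nat_lit 57467) (nat_lit 23) (.e (nat_lit 516129) (nat_lit 3) (.e (nat_lit 221210) (nat_lit 22) (.e (nat_lit 196668) (nat_lit 14) (.e (nat_lit 73746) (nat_lit 3) (.e (nat_lit 516117) (nat_lit 1) (.e (nat_lit 164159) (nat_lit 152) (.e (nat_lit 1183) (nat_lit 87) .nil)))))))) (.g (nat_lit 5) .nil .nil)))) (.nd (nat_lit 6) 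
(.lf (nat_lit 165560) (.g (nat_lit 2273) (.e (nat_lit 57466) (nat_lit 23) (.e (nat_lit 516185) (nat_lit 16) (.e (nat_lit 491570) (nat_lit 13) (.e (nat_lit 393229) (nat_lit 9) .nil)))) .nil)) 
(.lf (nat_lit 165624) (.g (nat_lit 3526) (.e (nat_lit 57469) (nat_lit 26) (.e (nat_lit 540704) (nat_lit 12) (.e (nat_lit 360466) (nat_lit 3) (.e (nat_lit 516150) (nat_lit 9) (.e (nat_lit 426354) (nat_lit 15) (.e (nat_lit 2031) (nat_lit 140) (.e (nat_lit 688170) (nat_lit 15) .nil))))))) (.g (nat_lit 0) .nil .nil))))))) (.nd (nat_lit 3) (.nd (nat_lit 4) (.nd (nat_lit 5) (.nd (nat_lit 6) 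
(.lf (nat_lit 165508) (.g (nat_lit 2087) (.e (nat_lit 57466) (nat_lit 23) (.e (nat_lit 516146) (nat_lit 9) (.e (nat_lit 426323) (nat_lit 13) (.e (nat_lit 483337) (nat_lit 9) (.e (nat_lit 426024) (nat_lit 0) .nil))))) .nil)) 
(.lf (nat_lit 165572) (.g (nat_lit 4281) (.e (nat_lit 57467) (nat_lit 23) (.e (nat_lit 516115) (nat_lit 1) (.e (nat_lit 164399) (nat_lit 256) (.e (nat_lit 57373) (nat_lit 2) (.e (nat_lit 90174) (nat_lit 14) (.e (nat_lit 180243) (nat_lit 5) (.e (nat_lit 532508) (nat_lit 2) (.e (nat_lit 106539) (nat_lit 12) .nil)))))))) (.g (nat_lit 8) .nil .nil)))) (.nd (nat_lit 6) 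
(.lf (nat_lit 165540) (.g (nat_lit 2235) (.e (nat_lit 57466) (nat_lit 23) (.e (nat_lit 516171) (nat_lit 13) (.e (nat_lit 458789) (nat_lit 23) (.e (nat_lit 532513) (nat_lit 3) (.e (nat_lit 114714) (nat_lit 22) (.e (nat_lit 90162) (nat_lit 12) (.e (nat_lit 164007) (nat_lit 41) (.e (nat_lit 663565) (nat_lit 3) .nil)))))))) (.g (nat_lit 5) .nil .nil))) 
(.lf (nat_lit 165604) (.g (nat_lit 2147) (.e (nat_lit 57467) (nat_lit 23) (.e (nat_lit 516131) (nat_lit 3) (.e (nat_lit 221215) (nat_lit 23) (.e (nat_lit 204880) (nat_lit 32) (.e (nat_lit 385066) (nat_lit 26) .nil))))) .nil)))) (.nd (nat_lit 5) (.nd (nat_lit 6) 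
(.lf (nat_lit 165524) (.g (nat_lit 3052) (.e (nat_lit 57466) (nat_lit 23) (.e (nat_lit 516151) (nat_lit 9) (.e (nat_lit 426211) (nat_lit 9) (.e (nat_lit 426140) (nat_lit 3) .nil)))) .nil)) 
(.lf (nat_lit 165588) (.g (nat_lit 2058) (.e (nat_lit 57467) (nat_lit 23) (.e (nat_lit 516129) (nat_lit 3) (.e (nat_lit 221210) (nat_lit 22) (.e (nat_lit 196665) (nat_lit 13) (.e (nat_lit 65637) (nat_lit 15) .nil))))) .nil))) (.nd (nat_lit 6) 
(.lf (nat_lit 165556) (.g (nat_lit 2582) (.e (nat_lit 57466) (nat_lit 23) (.e (nat_lit 516185) (nat_lit 16) (.e (nat_lit 491569) (nat_lit 13) (.e (nat_lit 393227) (nat_lit 9) .nil)))) .nil)) 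
(.lf (nat_lit 165620) (.g (nat_lit 4311) (.e (nat_lit 57469) (nat_lit 26) (.e (nat_lit 540700) (nat_lit 10) (.e (nat_lit 344133) (nat_lit 26) (.e (nat_lit 557105) (nat_lit 14) (.e (nat_lit 180252) (nat_lit 10) (.e (nat_lit 573474) (nat_lit 12) (.e (nat_lit 57516) (nat_lit 42) (.e (nat_lit 671757) (nat_lit 3) .nil)))))))) (.g (nat_lit 8) .nil .nil)))))) 
(.nd (nat_lit 4) (.nd (nat_lit 5) (.nd (nat_lit 6) 
(.lf (nat_lit 165516) (.g (nat_lit 2778) (.e (nat_lit 57466) (nat_lit 23) (.e (nat_lit 516150) (nat_lit 9) (.e (nat_lit 426131) (nat_lit 3) (.e (nat_lit 204838) (nat_lit 20) (.e (nat_lit 114718) (nat_lit 23) .nil))))) .nil)) 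
(.lf (nat_lit 165580) (.g (nat_lit 3103) (.e (nat_lit 57467) (nat_lit 23) (.e (nat_lit 516115) (nat_lit 1) (.e (nat_lit 164403) (nat_lit 256) (.e (nat_lit 57373) (nat_lit 2) (.e (nat_lit 90174) (nat_lit 14) (.e (nat_lit 180243) (nat_lit 5) (.e (nat_lit 532506) (nat_lit 2) (.e (nat_lit 106539) (nat_lit 12) .nil)))))))) (.g (nat_lit 4) .nil .nil)))) (.nd (nat_lit 6) 
(.lf (nat_lit 165548) (.g (nat_lit 2875) (.e (nat_lit 57466) (nat_lit 23) (.e (nat_lit 516185) (nat_lit 16) (.e (nat_lit 491560) (nat_lit 10) (.e (nat_lit 352000) (nat_lit 44) .nil)))) .nil)) 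
(.lf (nat_lit 165612) (.g (nat_lit 869) (.e (nat_lit 57468) (nat_lit 24) (.e (nat_lit 524320) (nat_lit 12) (.e (nat_lit 450580) (nat_lit 5) (.e (nat_lit 532523) (nat_lit 7) .nil)))) .nil)))) (.nd (nat_lit 5) (.nd (nat_lit 6) 
(.lf (nat_lit 165532) (.g (nat_lit 5879) (.e (nat_lit 57466) (nat_lit 23) (.e (nat_lit 516166) (nat_lit 12) (.e (nat_lit 450588) (nat_lit 10) (.e (nat_lit 573451) (nat_lit 9) .nil)))) .nil)) 
(.lf (nat_lit 165596) (.g (nat_lit 1728) (.e (nat_lit 57467) (nat_lit 23) (.e (nat_lit 516131) (nat_lit 3) (.e (nat_lit 221212) (nat_lit 22) (.e (nat_lit 196668) (nat_lit 14) (.e (nat_lit 73746) (nat_lit 3) .nil))))) .nil))) (.nd (nat_lit 6) 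
(.lf (nat_lit 165564) (.g (nat_lit 2428) (.e (nat_lit 57466) (nat_lit 23) (.e (nat_lit 516195) (nat_lit 26) (.e (nat_lit 336223) (nat_lit 13) (.e (nat_lit 393258) (nat_lit 20) .nil)))) .nil)) 
(.lf (nat_lit 165628) (.g (nat_lit 485) (.e (nat_lit 57471) (nat_lit 27) (.e (nat_lit 548874) (nat_lit 5) (.e (nat_lit 1395) (nat_lit 106) .nil))) .nil))))))) (.nd (nat_lit 2) (.nd (nat_lit 3) (.nd (nat_lit 4) (.nd (nat_lit 5) (.nd (nat_lit 6) 
(.lf (nat_lit 165506) (.g (nat_lit 2673) (.e (nat_lit 57466) (nat_lit 23) (.e (nat_lit 516146) (nat_lit 9) (.e (nat_lit 426131) (nat_lit 3) (.e (nat_lit 204838) (nat_lit 20) (.e (nat_lit 114719) (nat_lit 23) (.e (nat_lit 98322) (nat_lit 17) (.e (nat_lit 3421) (nat_lit 213) (.e (nat_lit 663565) (nat_lit 3) .nil)))))))) (.g (nat_lit 4) .nil .nil))) 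
(.lf (nat_lit 165570) (.g (nat_lit 3284) (.e (nat_lit 57467) (nat_lit 23) (.e (nat_lit 516115) (nat_lit 1) (.e (nat_lit 164399) (nat_lit 256) (.e (nat_lit 57372) (nat_lit 2) (.e (nat_lit 90172) (nat_lit 14) (.e (nat_lit 180243) (nat_lit 5) (.e (nat_lit 532510) (nat_lit 2) (.e (nat_lit 106539) (nat_lit 12) .nil)))))))) (.g (nat_lit 5) .nil .nil)))) (.nd (nat_lit 6) 
(.lf (nat_lit 165538) (.g (nat_lit 3382) (.e (nat_lit 57466) (nat_lit 23) (.e (nat_lit 516170) (nat_lit 13) (.e (nat_lit 458789) (nat_lit 23) (.e (nat_lit 532515) (nat_lit 3) (.e (nat_lit 114716) (nat_lit 22) (.e (nat_lit 90162) (nat_lit 12) (.e (nat_lit 164007) (nat_lit 41) (.e (nat_lit 663565) (nat_lit 3) .nil)))))))) (.g (nat_lit 8) .nil .nil))) 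
(.lf (nat_lit 165602) (.g (nat_lit 2669) (.e (nat_lit 57467) (nat_lit 23) (.e (nat_lit 516131) (nat_lit 3) (.e (nat_lit 221215) (nat_lit 23) (.e (nat_lit 204861) (nat_lit 26) (.e (nat_lit 336012) (nat_lit 2) .nil))))) .nil)))) (.nd (nat_lit 5) (.nd (nat_lit 6) 
(.lf (nat_lit 165522) (.g (nat_lit 1360) (.e (nat_lit 57466) (nat_lit 23) (.e (nat_lit 516151) (nat_lit 9) (.e (nat_lit 426211) (nat_lit 9) .nil))) .nil)) 
(.lf (nat_lit 165586) (.g (nat_lit 2437) (.e (nat_lit 57467) (nat_lit 23) (.e (nat_lit 516119) (nat_lit 1) (.e (nat_lit 164403) (nat_lit 256) (.e (nat_lit 57371) (nat_lit 2) (.e (nat_lit 90174) (nat_lit 14) .nil))))) .nil))) (.nd (nat_lit 6) 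
(.lf (nat_lit 165554) (.g (nat_lit 3691) (.e (nat_lit 57466) (nat_lit 23) (.e (nat_lit 516185) (nat_lit 16) (.e (nat_lit 491568) (nat_lit 13) (.e (nat_lit 393229) (nat_lit 9) (.e (nat_lit 335912) (nat_lit 0) .nil))))) .nil)) 
(.lf (nat_lit 165618) (.g (nat_lit 939) (.e (nat_lit 65280) (nat_lit 25) (.e (nat_lit 532542) (nat_lit 9) (.e (nat_lit 336076) (nat_lit 9) (.e (nat_lit 336456) (nat_lit 34) .nil)))) .nil))))) (.nd (nat_lit 4) (.nd (nat_lit 5) (.nd (nat_lit 6) 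
(.lf (nat_lit 165514) (.g (nat_lit 3045) (.e (nat_lit 57466) (nat_lit 23) (.e (nat_lit 516150) (nat_lit 9) (.e (nat_lit 426131) (nat_lit 3) (.e (nat_lit 204838) (nat_lit 20) (.e (nat_lit 114716) (nat_lit 22) (.e (nat_lit 90163) (nat_lit 12) (.e (nat_lit 164006) (nat_lit 41) (.e (nat_lit 663565) (nat_lit 3) .nil)))))))) (.g (nat_lit 4) .nil .nil))) 
(.lf (nat_lit 165578) (.g (nat_lit 2565) (.e (nat_lit 57467) (nat_lit 23) (.e (nat_lit 516115) (nat_lit 1) (.e (nat_lit 164403) (nat_lit 256) (.e (nat_lit 57373) (nat_lit 2) (.e (nat_lit 90170) (nat_lit 13) (.e (nat_lit 172067) (nat_lit 3) (.e (nat_lit 204834) (nat_lit 19) (.e (nat_lit 106539) (nat_lit 12) .nil)))))))) (.g (nat_lit 4) .nil .nil)))) (.nd (nat_lit 6) 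
(.lf (nat_lit 165546) (.g (nat_lit 1851) (.e (nat_lit 57466) (nat_lit 23) (.e (nat_lit 516182) (nat_lit 15) (.e (nat_lit 475211) (nat_lit 41) (.e (nat_lit 712745) (nat_lit 27) (.e (nat_lit 426532) (nat_lit 28) .nil))))) .nil)) 
(.lf (nat_lit 165610) (.g (nat_lit 2924) (.e (nat_lit 57467) (nat_lit 23) (.e (nat_lit 516176) (nat_lit 14) (.e (nat_lit 466977) (nat_lit 22) (.e (nat_lit 196681) (nat_lit 17) (.e (nat_lit 131077) (nat_lit 0) .nil))))) .nil)))) (.nd (nat_lit 5) (.nd (nat_lit 6) 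
(.lf (nat_lit 165530) (.g (nat_lit 4090) (.e (nat_lit 57466) (nat_lit 23) (.e (nat_lit 516166) (nat_lit 12) (.e (nat_lit 450587) (nat_lit 10) (.e (nat_lit 573457) (nat_lit 9) .nil)))) .nil)) 
(.lf (nat_lit 165594) (.g (nat_lit 2149) (.e (nat_lit 57467) (nat_lit 23) (.e (nat_lit 516129) (nat_lit 3) (.e (nat_lit 221214) (nat_lit 23) (.e (nat_lit 204852) (nat_lit 26) (.e (nat_lit 336326) (nat_lit 18) .nil))))) .nil))) (.nd (nat_lit 6) 
(.lf (nat_lit 165562) (.g (nat_lit 497) (.e (nat_lit 57466) (nat_lit 23) (.e (nat_lit 516195) (nat_lit 26) (.e (nat_lit 336186) (nat_lit 11) .nil))) .nil)) 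
(.lf (nat_lit 165626) (.g (nat_lit 4386) (.e (nat_lit 57470) (nat_lit 26) (.e (nat_lit 540700) (nat_lit 10) (.e (nat_lit 344133) (nat_lit 26) (.e (nat_lit 557105) (nat_lit 14) (.e (nat_lit 180252) (nat_lit 10) (.e (nat_lit 573474) (nat_lit 12) (.e (nat_lit 57516) (nat_lit 42) (.e (nat_lit 671757) (nat_lit 3) .nil)))))))) (.g (nat_lit 8) .nil .nil))))))) 
(.nd (nat_lit 3) (.nd (nat_lit 4) (.nd (nat_lit 5) (.nd (nat_lit 6) 
(.lf (nat_lit 165510) (.g (nat_lit 2819) (.e (nat_lit 57466) (nat_lit 23) (.e (nat_lit 516147) (nat_lit 9) (.e (nat_lit 426131) (nat_lit 3) (.e (nat_lit 204838) (nat_lit 20) (.e (nat_lit 114716) (nat_lit 22) (.e (nat_lit 90162) (nat_lit 12) (.e (nat_lit 164007) (nat_lit 41) (.e (nat_lit 663565) (nat_lit 3) .nil)))))))) (.g (nat_lit 5) .nil .nil))) 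
(.lf (nat_lit 165574) (.g (nat_lit 2876) (.e (nat_lit 57467) (nat_lit 23) (.e (nat_lit 516115) (nat_lit 1) (.e (nat_lit 164399) (nat_lit 256) (.e (nat_lit 57373) (nat_lit 2) (.e (nat_lit 90174) (nat_lit 14) (.e (nat_lit 180243) (nat_lit 5) (.e (nat_lit 532511) (nat_lit 2) (.e (nat_lit 106537) (nat_lit 12) .nil)))))))) (.g (nat_lit 5) .nil .nil)))) (.nd (nat_lit 6) 
(.lf (nat_lit 165542) (.g (nat_lit 2258) (.e (nat_lit 57466) (nat_lit 23) (.e (nat_lit 516171) (nat_lit 13) (.e (nat_lit 458789) (nat_lit 23) (.e (nat_lit 532515) (nat_lit 3) (.e (nat_lit 114716) (nat_lit 22) (.e (nat_lit 90181) (nat_lit 16) (.e (nat_lit 229449) (nat_lit 41) (.e (nat_lit 663565) (nat_lit 3) .nil)))))))) (.g (nat_lit 6) .nil .nil))) 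
(.lf (nat_lit 165606) (.g (nat_lit 3052) (.e (nat_lit 57467) (nat_lit 23) (.e (nat_lit 516151) (nat_lit 9) (.e (nat_lit 426211) (nat_lit 9) (.e (nat_lit 426140) (nat_lit 3) .nil)))) .nil)))) (.nd (nat_lit 5) (.nd (nat_lit 6) 
(.lf (nat_lit 165526) (.g (nat_lit 3141) (.e (nat_lit 57466) (nat_lit 23) (.e (nat_lit 516163) (nat_lit 11) (.e (nat_lit 442427) (nat_lit 23) (.e (nat_lit 204846) (nat_lit 24) (.e (nat_lit 319504) (nat_lit 10) .nil))))) .nil)) 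
(.lf (nat_lit 165590) (.g (nat_lit 1350) (.e (nat_lit 57467) (nat_lit 23) (.e (nat_lit 516129) (nat_lit 3) (.e (nat_lit 221210) (nat_lit 22) (.e (nat_lit 196668) (nat_lit 14) .nil)))) .nil))) (.nd (nat_lit 6) 
(.lf (nat_lit 165558) (.g (nat_lit 1954) (.e (nat_lit 57466) (nat_lit 23) (.e (nat_lit 516185) (nat_lit 16) (.e (nat_lit 491569) (nat_lit 13) (.e (nat_lit 401152) (nat_lit 10) .nil)))) .nil)) 
(.lf (nat_lit 165622) (.g (nat_lit 3802) (.e (nat_lit 57469) (nat_lit 26) (.e (nat_lit 540703) (nat_lit 11) (.e (nat_lit 352315) (nat_lit 23) (.e (nat_lit 98367) (nat_lit 27) (.e (nat_lit 434268) (nat_lit 36) (.e (nat_lit 639017) (nat_lit 15) .nil)))))) (.g (nat_lit 0) .nil .nil)))))) (.nd (nat_lit 4) (.nd (nat_lit 5) (.nd (nat_lit 6) 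
(.lf (nat_lit 165518) (.g (nat_lit 2986) (.e (nat_lit 57466) (nat_lit 23) (.e (nat_lit 516150) (nat_lit 9) (.e (nat_lit 426131) (nat_lit 3) (.e (nat_lit 204838) (nat_lit 20) (.e (nat_lit 114719) (nat_lit 23) (.e (nat_lit 98320) (nat_lit 17) (.e (nat_lit 3432) (nat_lit 213) (.e (nat_lit 663565) (nat_lit 3) .nil)))))))) (.g (nat_lit 4) .nil .nil))) 
(.lf (nat_lit 165582) (.g (nat_lit 1771) (.e (nat_lit 57467) (nat_lit 23) (.e (nat_lit 516117) (nat_lit 1) (.e (nat_lit 164398) (nat_lit 256) (.e (nat_lit 57375) (nat_lit 2) .nil)))) .nil))) (.nd (nat_lit 6) 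
(.lf (nat_lit 165550) (.g (nat_lit 2533) (.e (nat_lit 57466) (nat_lit 23) (.e (nat_lit 516185) (nat_lit 16) (.e (nat_lit 491568) (nat_lit 13) (.e (nat_lit 393227) (nat_lit 9) .nil)))) .nil)) 
(.lf (nat_lit 165614) (.g (nat_lit 2076) (.e (nat_lit 57468) (nat_lit 24) (.e (nat_lit 524322) (nat_lit 12) (.e (nat_lit 450588) (nat_lit 10) (.e (nat_lit 573452) (nat_lit 9) .nil)))) .nil)))) (.nd (nat_lit 5) (.nd (nat_lit 6) 
(.lf (nat_lit 165534) (.g (nat_lit 5732) (.e (nat_lit 57466) (nat_lit 23) (.e (nat_lit 516166) (nat_lit 12) (.e (nat_lit 450588) (nat_lit 10) (.e (nat_lit 573457) (nat_lit 9) .nil)))) .nil)) 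
(.lf (nat_lit 165598) (.g (nat_lit 3742) (.e (nat_lit 57467) (nat_lit 23) (.e (nat_lit 516131) (nat_lit 3) (.e (nat_lit 221212) (nat_lit 22) (.e (nat_lit 196670) (nat_lit 14) (.e (nat_lit 73746) (nat_lit 3) (.e (nat_lit 516117) (nat_lit 1) (.e (nat_lit 164159) (nat_lit 152) (.e (nat_lit 1183) (nat_lit 87) .nil)))))))) (.g (nat_lit 8) .nil .nil)))) (.nd (nat_lit 6) 
(.lf (nat_lit 165566) (.g (nat_lit 2398) (.e (nat_lit 57467) (nat_lit 23) (.e (nat_lit 516115) (nat_lit 1) (.e (nat_lit 164398) (nat_lit 256) (.e (nat_lit 57373) (nat_lit 2) (.e (nat_lit 90172) (nat_lit 14) .nil))))) .nil)) 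
(.lf (nat_lit 165630) (.g (nat_lit 1390) (.e (nat_lit 57471) (nat_lit 27) (.e (nat_lit 548889) (nat_lit 9) (.e (nat_lit 65627) (nat_lit 13) (.e (nat_lit 401152) (nat_lit 10) .nil)))) .nil)))))))) (.nd (nat_lit 1) (.nd (nat_lit 2) (.nd (nat_lit 3) (.nd (nat_lit 4) (.nd (nat_lit 5) (.nd (nat_lit 6) 
(.lf (nat_lit 165505) (.g (nat_lit 2692) (.e (nat_lit 57466) (nat_lit 23) (.e (nat_lit 516146) (nat_lit 9) (.e (nat_lit 426131) (nat_lit 3) (.e (nat_lit 204838) (nat_lit 20) (.e (nat_lit 114719) (nat_lit 23) (.e (nat_lit 98319) (nat_lit 17) (.e (nat_lit 3420) (nat_lit 213) (.e (nat_lit 663565) (nat_lit 3) .nil)))))))) (.g (nat_lit 4) .nil .nil))) 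
(.lf (nat_lit 165569) (.g (nat_lit 2130) (.e (nat_lit 57467) (nat_lit 23) (.e (nat_lit 516115) (nat_lit 1) (.e (nat_lit 164399) (nat_lit 256) (.e (nat_lit 57372) (nat_lit 2) (.e (nat_lit 90172) (nat_lit 14) .nil))))) .nil))) (.nd (nat_lit 6) 
(.lf (nat_lit 165537) (.g (nat_lit 2450) (.e (nat_lit 57466) (nat_lit 23) (.e (nat_lit 516169) (nat_lit 13) (.e (nat_lit 458789) (nat_lit 23) (.e (nat_lit 532515) (nat_lit 3) (.e (nat_lit 114716) (nat_lit 22) (.e (nat_lit 90181) (nat_lit 16) (.e (nat_lit 229449) (nat_lit 41) (.e (nat_lit 663565) (nat_lit 3) .nil)))))))) (.g (nat_lit 6) .nil .nil))) 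
(.lf (nat_lit 165601) (.g (nat_lit 2760) (.e (nat_lit 57467) (nat_lit 23) (.e (nat_lit 516131) (nat_lit 3) (.e (nat_lit 221215) (nat_lit 23) (.e (nat_lit 204861) (nat_lit 26) (.e (nat_lit 336010) (nat_lit 2) .nil))))) .nil)))) (.nd (nat_lit 5) (.nd (nat_lit 6) 
(.lf (nat_lit 165521) (.g (nat_lit 1917) (.e (nat_lit 57466) (nat_lit 23) (.e (nat_lit 516150) (nat_lit 9) (.e (nat_lit 426323) (nat_lit 13) (.e (nat_lit 483337) (nat_lit 9) (.e (nat_lit 426024) (nat_lit 0) .nil))))) .nil)) 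
(.lf (nat_lit 165585) (.g (nat_lit 2137) (.e (nat_lit 57467) (nat_lit 23) (.e (nat_lit 516117) (nat_lit 1) (.e (nat_lit 164399) (nat_lit 256) (.e (nat_lit 57373) (nat_lit 2) (.e (nat_lit 90170) (nat_lit 13) .nil))))) .nil))) (.nd (nat_lit 6) 
(.lf (nat_lit 165553) (.g (nat_lit 3690) (.e (nat_lit 57466) (nat_lit 23) (.e (nat_lit 516185) (nat_lit 16) (.e (nat_lit 491568) (nat_lit 13) (.e (nat_lit 393229) (nat_lit 9) (.e (nat_lit 335911) (nat_lit 0) .nil))))) .nil)) 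
(.lf (nat_lit 165617) (.g (nat_lit 1943) (.e (nat_lit 57468) (nat_lit 24) (.e (nat_lit 524322) (nat_lit 12) (.e (nat_lit 450588) (nat_lit 10) (.e (nat_lit 573470) (nat_lit 11) (.e (nat_lit 16387) (nat_lit 0) .nil))))) .nil))))) (.nd (nat_lit 4) (.nd (nat_lit 5) (.nd (nat_lit 6) 
(.lf (nat_lit 165513) (.g (nat_lit 2906) (.e (nat_lit 57466) (nat_lit 23) (.e (nat_lit 516150) (nat_lit 9) (.e (nat_lit 426131) (nat_lit 3) (.e (nat_lit 204838) (nat_lit 20) (.e (nat_lit 114714) (nat_lit 22) (.e (nat_lit 90164) (nat_lit 12) (.e (nat_lit 164006) (nat_lit 41) (.e (nat_lit 663565) (nat_lit 3) .nil)))))))) (.g (nat_lit 4) .nil .nil))) 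
(.lf (nat_lit 165577) (.g (nat_lit 2568) (.e (nat_lit 57467) (nat_lit 23) (.e (nat_lit 516115) (nat_lit 1) (.e (nat_lit 164403) (nat_lit 256) (.e (nat_lit 57373) (nat_lit 2) (.e (nat_lit 90170) (nat_lit 13) (.e (nat_lit 172065) (nat_lit 3) (.e (nat_lit 204834) (nat_lit 19) (.e (nat_lit 106539) (nat_lit 12) .nil)))))))) (.g (nat_lit 4) .nil .nil)))) (.nd (nat_lit 6) 
(.lf (nat_lit 165545) (.g (nat_lit 1642) (.e (nat_lit 57466) (nat_lit 23) (.e (nat_lit 516179) (nat_lit 15) (.e (nat_lit 475211) (nat_lit 41) (.e (nat_lit 712745) (nat_lit 27) .nil)))) .nil)) 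
(.lf (nat_lit 165609) (.g (nat_lit 1966) (.e (nat_lit 57467) (nat_lit 23) (.e (nat_lit 516176) (nat_lit 14) (.e (nat_lit 466977) (nat_lit 22) (.e (nat_lit 196668) (nat_lit 14) (.e (nat_lit 73762) (nat_lit 16) .nil))))) .nil)))) (.nd (nat_lit 5) (.nd (nat_lit 6) 
(.lf (nat_lit 165529) (.g (nat_lit 4116) (.e (nat_lit 57466) (nat_lit 23) (.e (nat_lit 516166) (nat_lit 12) (.e (nat_lit 450587) (nat_lit 10) (.e (nat_lit 573456) (nat_lit 9) .nil)))) .nil)) 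
(.lf (nat_lit 165593) (.g (nat_lit 2134) (.e (nat_lit 57467) (nat_lit 23) (.e (nat_lit 516129) (nat_lit 3) (.e (nat_lit 221210) (nat_lit 22) (.e (nat_lit 196670) (nat_lit 14) (.e (nat_lit 73746) (nat_lit 3) .nil))))) .nil))) (.nd (nat_lit 6) 
(.lf (nat_lit 165561) (.g (nat_lit 1968) (.e (nat_lit 57466) (nat_lit 23) (.e (nat_lit 516195) (nat_lit 26) (.e (nat_lit 336088) (nat_lit 9) (.e (nat_lit 336019) (nat_lit 3) (.e (nat_lit 98384) (nat_lit 32) .nil))))) .nil)) 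
(.lf (nat_lit 165625) (.g (nat_lit 2786) (.e (nat_lit 57470) (nat_lit 26) (.e (nat_lit 540700) (nat_lit 10) (.e (nat_lit 344131) (nat_lit 26) (.e (nat_lit 557105) (nat_lit 14) (.e (nat_lit 180252) (nat_lit 10) (.e (nat_lit 573474) (nat_lit 12) (.e (nat_lit 57516) (nat_lit 42) (.e (nat_lit 671757) (nat_lit 3) .nil)))))))) (.g (nat_lit 6) .nil .nil))))))) 
(.nd (nat_lit 3) (.nd (nat_lit 4) (.nd (nat_lit 5) (.nd (nat_lit 6) 
(.lf (nat_lit 165509) (.g (nat_lit 2810) (.e (nat_lit 57466) (nat_lit 23) (.e (nat_lit 516146) (nat_lit 9) (.e (nat_lit 426428) (nat_lit 17) (.e (nat_lit 90170) (nat_lit 13) (.e (nat_lit 172067) (nat_lit 3) .nil))))) .nil)) 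
(.lf (nat_lit 165573) (.g (nat_lit 4241) (.e (nat_lit 57467) (nat_lit 23) (.e (nat_lit 516115) (nat_lit 1) (.e (nat_lit 164399) (nat_lit 256) (.e (nat_lit 57373) (nat_lit 2) (.e (nat_lit 90174) (nat_lit 14) (.e (nat_lit 180243) (nat_lit 5) (.e (nat_lit 532510) (nat_lit 2) (.e (nat_lit 106539) (nat_lit 12) .nil)))))))) (.g (nat_lit 8) .nil .nil)))) (.nd (nat_lit 6) 
(.lf (nat_lit 165541) (.g (nat_lit 2028) (.e (nat_lit 57466) (nat_lit 23) (.e (nat_lit 516171) (nat_lit 13) (.e (nat_lit 458789) (nat_lit 23) (.e (nat_lit 532515) (nat_lit 3) (.e (nat_lit 114716) (nat_lit 22) (.e (nat_lit 90163) (nat_lit 12) (.e (nat_lit 164006) (nat_lit 41) (.e (nat_lit 663565) (nat_lit 3) .nil)))))))) (.g (nat_lit 5) .nil .nil))) 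
(.lf (nat_lit 165605) (.g (nat_lit 3006) (.e (nat_lit 57467) (nat_lit 23) (.e (nat_lit 516151) (nat_lit 9) (.e (nat_lit 426211) (nat_lit 9) (.e (nat_lit 426125) (nat_lit 2) .nil)))) .nil)))) (.nd (nat_lit 5) (.nd (nat_lit 6) 
(.lf (nat_lit 165525) (.g (nat_lit 763) (.e (nat_lit 57466) (nat_lit 23) (.e (nat_lit 516163) (nat_lit 11) (.e (nat_lit 450304) (nat_lit 18) .nil))) .nil)) 
(.lf (nat_lit 165589) (.g (nat_lit 2213) (.e (nat_lit 57467) (nat_lit 23) (.e (nat_lit 516129) (nat_lit 3) (.e (nat_lit 221210) (nat_lit 22) (.e (nat_lit 196665) (nat_lit 13) (.e (nat_lit 65637) (nat_lit 15) (.e (nat_lit 3253) (nat_lit 197) (.e (nat_lit 532501) (nat_lit 1) (.e (nat_lit 57830) (nat_lit 250) (.e (nat_lit 1183) (nat_lit 87) .nil))))))))) (.g (nat_lit 4) .nil .nil)))) 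
(.nd (nat_lit 6) 
(.lf (nat_lit 165557) (.g (nat_lit 2582) (.e (nat_lit 57466) (nat_lit 23) (.e (nat_lit 516185) (nat_lit 16) (.e (nat_lit 491569) (nat_lit 13) (.e (nat_lit 393229) (nat_lit 9) .nil)))) .nil)) 
(.lf (nat_lit 165621) (.g (nat_lit 662) (.e (nat_lit 57469) (nat_lit 26) (.e (nat_lit 540703) (nat_lit 11) (.e (nat_lit 360192) (nat_lit 18) (.e (nat_lit 483365) (nat_lit 18) (.e (nat_lit 57873) (nat_lit 264) .nil))))) .nil))))) (.nd (nat_lit 4) (.nd (nat_lit 5) (.nd (nat_lit 6) 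
(.lf (nat_lit 165517) (.g (nat_lit 3014) (.e (nat_lit 57466) (nat_lit 23) (.e (nat_lit 516150) (nat_lit 9) (.e (nat_lit 426131) (nat_lit 3) (.e (nat_lit 204838) (nat_lit 20) (.e (nat_lit 114719) (nat_lit 23) (.e (nat_lit 98319) (nat_lit 17) (.e (nat_lit 3421) (nat_lit 213) (.e (nat_lit 663565) (nat_lit 3) .nil)))))))) (.g (nat_lit 4) .nil .nil))) 
(.lf (nat_lit 165581) (.g (nat_lit 2291) (.e (nat_lit 57467) (nat_lit 23) (.e (nat_lit 516117) (nat_lit 1) (.e (nat_lit 164398) (nat_lit 256) (.e (nat_lit 57373) (nat_lit 2) (.e (nat_lit 90174) (nat_lit 14) (.e (nat_lit 180243) (nat_lit 5) (.e (nat_lit 532506) (nat_lit 2) (.e (nat_lit 106539) (nat_lit 12) .nil)))))))) (.g (nat_lit 4) .nil .nil)))) (.nd (nat_lit 6) 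
(.lf (nat_lit 165549) (.g (nat_lit 2533) (.e (nat_lit 57466) (nat_lit 23) (.e (nat_lit 516185) (nat_lit 16) (.e (nat_lit 491568) (nat_lit 13) (.e (nat_lit 393225) (nat_lit 9) .nil)))) .nil)) 
(.lf (nat_lit 165613) (.g (nat_lit 1313) (.e (nat_lit 57468) (nat_lit 24) (.e (nat_lit 524322) (nat_lit 12) (.e (nat_lit 450588) (nat_lit 10) (.e (nat_lit 573451) (nat_lit 9) .nil)))) .nil)))) (.nd (nat_lit 5) (.nd (nat_lit 6) 
(.lf (nat_lit 165533) (.g (nat_lit 4857) (.e (nat_lit 57466) (nat_lit 23) (.e (nat_lit 516166) (nat_lit 12) (.e (nat_lit 450588) (nat_lit 10) (.e (nat_lit 573452) (nat_lit 9) .nil)))) .nil)) 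
(.lf (nat_lit 165597) (.g (nat_lit 1495) (.e (nat_lit 57467) (nat_lit 23) (.e (nat_lit 516131) (nat_lit 3) (.e (nat_lit 221212) (nat_lit 22) (.e (nat_lit 196668) (nat_lit 14) (.e (nat_lit 73747) (nat_lit 3) .nil))))) .nil))) (.nd (nat_lit 6) 
(.lf (nat_lit 165565) (.g (nat_lit 2692) (.e (nat_lit 57467) (nat_lit 23) (.e (nat_lit 516115) (nat_lit 1) (.e (nat_lit 164398) (nat_lit 256) (.e (nat_lit 57372) (nat_lit 2) (.e (nat_lit 90172) (nat_lit 14) .nil))))) .nil)) 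
(.lf (nat_lit 165629) (.g (nat_lit 2180) (.e (nat_lit 57471) (nat_lit 27) (.e (nat_lit 548889) (nat_lit 9) (.e (nat_lit 65571) (nat_lit 3) (.e (nat_lit 98342) (nat_lit 20) (.e (nat_lit 221212) (nat_lit 22) .nil))))) .nil))))))) (.nd (nat_lit 2) (.nd (nat_lit 3) (.nd (nat_lit 4) (.nd (nat_lit 5) (.nd (nat_lit 6) 
(.lf (nat_lit 165507) (.g (nat_lit 2484) (.e (nat_lit 57466) (nat_lit 23) (.e (nat_lit 516146) (nat_lit 9) (.e (nat_lit 426131) (nat_lit 3) (.e (nat_lit 204838) (nat_lit 20) (.e (nat_lit 114719) (nat_lit 23) (.e (nat_lit 98334) (nat_lit 18) (.e (nat_lit 164383) (nat_lit 254) (.e (nat_lit 1183) (nat_lit 87) .nil)))))))) (.g (nat_lit 4) .nil .nil))) 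
(.lf (nat_lit 165571) (.g (nat_lit 2138) (.e (nat_lit 57467) (nat_lit 23) (.e (nat_lit 516115) (nat_lit 1) (.e (nat_lit 164399) (nat_lit 256) (.e (nat_lit 57373) (nat_lit 2) (.e (nat_lit 90172) (nat_lit 14) .nil))))) .nil))) (.nd (nat_lit 6) 
(.lf (nat_lit 165539) (.g (nat_lit 2385) (.e (nat_lit 57466) (nat_lit 23) (.e (nat_lit 516170) (nat_lit 13) (.e (nat_lit 458789) (nat_lit 23) (.e (nat_lit 532515) (nat_lit 3) (.e (nat_lit 114716) (nat_lit 22) (.e (nat_lit 90163) (nat_lit 12) (.e (nat_lit 164006) (nat_lit 41) (.e (nat_lit 663565) (nat_lit 3) .nil)))))))) (.g (nat_lit 5) .nil .nil))) 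
(.lf (nat_lit 165603) (.g (nat_lit 1237) (.e (nat_lit 57467) (nat_lit 23) (.e (nat_lit 516131) (nat_lit 3) (.e (nat_lit 221215) (nat_lit 23) (.e (nat_lit 204863) (nat_lit 27) .nil)))) .nil)))) (.nd (nat_lit 5) (.nd (nat_lit 6) 
(.lf (nat_lit 165523) (.g (nat_lit 5447) (.e (nat_lit 57466) (nat_lit 23) (.e (nat_lit 516151) (nat_lit 9) (.e (nat_lit 426211) (nat_lit 9) (.e (nat_lit 426125) (nat_lit 2) (.e (nat_lit 196626) (nat_lit 9) .nil))))) .nil)) 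
(.lf (nat_lit 165587) (.g (nat_lit 1539) (.e (nat_lit 57467) (nat_lit 23) (.e (nat_lit 516129) (nat_lit 3) (.e (nat_lit 221210) (nat_lit 22) (.e (nat_lit 196665) (nat_lit 13) .nil)))) .nil))) (.nd (nat_lit 6) 
(.lf (nat_lit 165555) (.g (nat_lit 2301) (.e (nat_lit 57466) (nat_lit 23) (.e (nat_lit 516185) (nat_lit 16) (.e (nat_lit 491568) (nat_lit 13) (.e (nat_lit 401152) (nat_lit 10) .nil)))) .nil)) 
(.lf (nat_lit 165619) (.g (nat_lit 1656) (.e (nat_lit 65280) (nat_lit 25) (.e (nat_lit 532544) (nat_lit 10) (.e (nat_lit 344117) (nat_lit 21) (.e (nat_lit 516123) (nat_lit 2) .nil)))) .nil))))) (.nd (nat_lit 4) (.nd (nat_lit 5) (.nd (nat_lit 6) 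
(.lf (nat_lit 165515) (.g (nat_lit 4083) (.e (nat_lit 57466) (nat_lit 23) (.e (nat_lit 516150) (nat_lit 9) (.e (nat_lit 426131) (nat_lit 3) (.e (nat_lit 204838) (nat_lit 20) (.e (nat_lit 114716) (nat_lit 22) (.e (nat_lit 90164) (nat_lit 12) (.e (nat_lit 164006) (nat_lit 41) (.e (nat_lit 663565) (nat_lit 3) .nil)))))))) (.g (nat_lit 5) .nil .nil))) 
(.lf (nat_lit 165579) (.g (nat_lit 2961) (.e (nat_lit 57467) (nat_lit 23) (.e (nat_lit 516115) (nat_lit 1) (.e (nat_lit 164403) (nat_lit 256) (.e (nat_lit 57373) (nat_lit 2) (.e (nat_lit 90172) (nat_lit 14) .nil))))) .nil))) (.nd (nat_lit 6) 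
(.lf (nat_lit 165547) (.g (nat_lit 2672) (.e (nat_lit 57466) (nat_lit 23) (.e (nat_lit 516185) (nat_lit 16) (.e (nat_lit 491560) (nat_lit 10) (.e (nat_lit 344094) (nat_lit 18) .nil)))) .nil)) 
(.lf (nat_lit 165611) (.g (nat_lit 806) (.e (nat_lit 65280) (nat_lit 23) (.e (nat_lit 516151) (nat_lit 9) (.e (nat_lit 426211) (nat_lit 9) (.e (nat_lit 426125) (nat_lit 2) (.e (nat_lit 204544) (nat_lit 18) .nil))))) .nil)))) (.nd (nat_lit 5) (.nd (nat_lit 6) 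
(.lf (nat_lit 165531) (.g (nat_lit 847) (.e (nat_lit 57466) (nat_lit 23) (.e (nat_lit 516166) (nat_lit 12) (.e (nat_lit 450588) (nat_lit 10) .nil))) .nil)) 
(.lf (nat_lit 165595) (.g (nat_lit 834) (.e (nat_lit 57467) (nat_lit 23) (.e (nat_lit 516131) (nat_lit 3) (.e (nat_lit 221212) (nat_lit 22) (.e (nat_lit 196665) (nat_lit 13) .nil)))) .nil))) (.nd (nat_lit 6) 
(.lf (nat_lit 165563) (.g (nat_lit 2184) (.e (nat_lit 57466) (nat_lit 23) (.e (nat_lit 516195) (nat_lit 26) (.e (nat_lit 336215) (nat_lit 13) (.e (nat_lit 393229) (nat_lit 9) (.e (nat_lit 335996) (nat_lit 1) .nil))))) .nil)) 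
(.lf (nat_lit 165627) (.g (nat_lit 2022) (.e (nat_lit 57470) (nat_lit 26) (.e (nat_lit 548608) (nat_lit 20) (.e (nat_lit 221194) (nat_lit 11) (.e (nat_lit 336012) (nat_lit 2) (.e (nat_lit 90172) (nat_lit 14) (.e (nat_lit 188160) (nat_lit 35) .nil)))))) (.g (nat_lit 5) .nil .nil))))))) (.nd (nat_lit 3) (.nd (nat_lit 4) (.nd (nat_lit 5) (.nd (nat_lit 6) 
(.lf (nat_lit 165511) (.g (nat_lit 1848) (.e (nat_lit 57466) (nat_lit 23) (.e (nat_lit 516150) (nat_lit 9) (.e (nat_lit 426131) (nat_lit 3) (.e (nat_lit 204837) (nat_lit 20) .nil)))) .nil)) 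
(.lf (nat_lit 165575) (.g (nat_lit 2614) (.e (nat_lit 57467) (nat_lit 23) (.e (nat_lit 516115) (nat_lit 1) (.e (nat_lit 164399) (nat_lit 256) (.e (nat_lit 57375) (nat_lit 2) (.e (nat_lit 90174) (nat_lit 14) (.e (nat_lit 180243) (nat_lit 5) (.e (nat_lit 532506) (nat_lit 2) (.e (nat_lit 106539) (nat_lit 12) .nil)))))))) (.g (nat_lit 5) .nil .nil)))) (.nd (nat_lit 6) 
(.lf (nat_lit 165543) (.g (nat_lit 1262) (.e (nat_lit 57466) (nat_lit 23) (.e (nat_lit 516176) (nat_lit 14) (.e (nat_lit 466977) (nat_lit 22) (.e (nat_lit 196668) (nat_lit 14) .nil)))) .nil)) 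
(.lf (nat_lit 165607) (.g (nat_lit 1174) (.e (nat_lit 57467) (nat_lit 23) (.e (nat_lit 516166) (nat_lit 12) (.e (nat_lit 450587) (nat_lit 10) .nil))) .nil)))) (.nd (nat_lit 5) (.nd (nat_lit 6) 
(.lf (nat_lit 165527) (.g (nat_lit 3586) (.e (nat_lit 57466) (nat_lit 23) (.e (nat_lit 516166) (nat_lit 12) (.e (nat_lit 450580) (nat_lit 5) (.e (nat_lit 532523) (nat_lit 7) .nil)))) .nil)) 
(.lf (nat_lit 165591) (.g (nat_lit 2225) (.e (nat_lit 57467) (nat_lit 23) (.e (nat_lit 516129) (nat_lit 3) (.e (nat_lit 221210) (nat_lit 22) (.e (nat_lit 196668) (nat_lit 14) (.e (nat_lit 73746) (nat_lit 3) .nil))))) .nil))) (.nd (nat_lit 6) 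
(.lf (nat_lit 165559) (.g (nat_lit 818) (.e (nat_lit 57466) (nat_lit 23) (.e (nat_lit 516185) (nat_lit 16) (.e (nat_lit 491570) (nat_lit 13) .nil))) .nil)) 
(.lf (nat_lit 165623) (.g (nat_lit 1688) (.e (nat_lit 57469) (nat_lit 26) (.e (nat_lit 540704) (nat_lit 12) (.e (nat_lit 360466) (nat_lit 3) (.e (nat_lit 516146) (nat_lit 9) (.e (nat_lit 426360) (nat_lit 15) (.e (nat_lit 2030) (nat_lit 140) (.e (nat_lit 688170) (nat_lit 15) .nil))))))) (.g (nat_lit 4) .nil .nil)))))) (.nd (nat_lit 4) (.nd (nat_lit 5) (.nd (nat_lit 6) 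
(.lf (nat_lit 165519) (.g (nat_lit 582) (.e (nat_lit 57466) (nat_lit 23) (.e (nat_lit 516150) (nat_lit 9) (.e (nat_lit 426227) (nat_lit 9) .nil))) .nil)) 
(.lf (nat_lit 165583) (.g (nat_lit 2610) (.e (nat_lit 57467) (nat_lit 23) (.e (nat_lit 516117) (nat_lit 1) (.e (nat_lit 164398) (nat_lit 256) (.e (nat_lit 57379) (nat_lit 3) (.e (nat_lit 98366) (nat_lit 27) .nil))))) .nil))) (.nd (nat_lit 6) 
(.lf (nat_lit 165551) (.g (nat_lit 2423) (.e (nat_lit 57466) (nat_lit 23) (.e (nat_lit 516185) (nat_lit 16) (.e (nat_lit 491568) (nat_lit 13) (.e (nat_lit 393229) (nat_lit 9) .nil)))) .nil)) 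
(.lf (nat_lit 165615) (.g (nat_lit 3131) (.e (nat_lit 57468) (nat_lit 24) (.e (nat_lit 524322) (nat_lit 12) (.e (nat_lit 450588) (nat_lit 10) (.e (nat_lit 573452) (nat_lit 9) (.e (nat_lit 430) (nat_lit 32) .nil))))) .nil)))) (.nd (nat_lit 5) (.nd (nat_lit 6) 
(.lf (nat_lit 165535) (.g (nat_lit 2493) (.e (nat_lit 57466) (nat_lit 23) (.e (nat_lit 516169) (nat_lit 13) (.e (nat_lit 458789) (nat_lit 23) (.e (nat_lit 532513) (nat_lit 3) (.e (nat_lit 114714) (nat_lit 22) (.e (nat_lit 90162) (nat_lit 12) (.e (nat_lit 164007) (nat_lit 41) (.e (nat_lit 663565) (nat_lit 3) .nil)))))))) (.g (nat_lit 5) .nil .nil))) 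
(.lf (nat_lit 165599) (.g (nat_lit 2135) (.e (nat_lit 57467) (nat_lit 23) (.e (nat_lit 516131) (nat_lit 3) (.e (nat_lit 221214) (nat_lit 23) (.e (nat_lit 204880) (nat_lit 32) (.e (nat_lit 385066) (nat_lit 26) .nil))))) .nil))) (.nd (nat_lit 6) 
(.lf (nat_lit 165567) (.g (nat_lit 2252) (.e (nat_lit 57467) (nat_lit 23) (.e (nat_lit 516115) (nat_lit 1) (.e (nat_lit 164398) (nat_lit 256) (.e (nat_lit 57373) (nat_lit 2) (.e (nat_lit 90174) (nat_lit 14) (.e (nat_lit 180243) (nat_lit 5) (.e (nat_lit 532510) (nat_lit 2) (.e (nat_lit 106537) (nat_lit 12) .nil)))))))) (.g (nat_lit 4) .nil .nil))) 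
(.lf (nat_lit 165631) (.g (nat_lit 4261) (.e (nat_lit 57471) (nat_lit 27) (.e (nat_lit 548891) (nat_lit 11) (.e (nat_lit 81956) (nat_lit 23) (.e (nat_lit 98350) (nat_lit 24) (.e (nat_lit 409616) (nat_lit 10) .nil))))) .nil)))))))))

noncomputable def tv2222 : DT := (.nd (nat_lit 0) (.nd (nat_lit 1) (.nd (nat_lit 2) (.nd (nat_lit 3) (.nd (nat_lit 4) (.nd (nat_lit 5) (.nd (nat_lit 6) 
(.lf (nat_lit 165632) (.g (nat_lit 2382) (.e (nat_lit 57472) (nat_lit 27) (.e (nat_lit 548891) (nat_lit 11) (.e (nat_lit 81956) (nat_lit 23) (.e (nat_lit 98350) (nat_lit 24) .nil)))) .nil)) 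
(.lf (nat_lit 165696) (.g (nat_lit 3256) (.e (nat_lit 57474) (nat_lit 28) (.e (nat_lit 557108) (nat_lit 15) (.e (nat_lit 188449) (nat_lit 22) (.e (nat_lit 204544) (nat_lit 14) .nil)))) .nil))) (.nd (nat_lit 6) 
(.lf (nat_lit 165664) (.g (nat_lit 1303) (.e (nat_lit 57474) (nat_lit 28) (.e (nat_lit 557107) (nat_lit 15) (.e (nat_lit 188450) (nat_lit 23) (.e (nat_lit 204862) (nat_lit 27) .nil)))) .nil)) 
(.lf (nat_lit 165728) (.g (nat_lit 4591) (.e (nat_lit 57474) (nat_lit 28) (.e (nat_lit 557108) (nat_lit 15) (.e (nat_lit 188452) (nat_lit 23) (.e (nat_lit 204862) (nat_lit 27) (.e (nat_lit 344169) (nat_lit 40) (.e (nat_lit 671759) (nat_lit 3) .nil)))))) (.g (nat_lit 6) .nil .nil))))) (.nd (nat_lit 5) (.nd (nat_lit 6) 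
(.lf (nat_lit 165648) (.g (nat_lit 3462) (.e (nat_lit 57474) (nat_lit 28) (.e (nat_lit 557095) (nat_lit 13) (.e (nat_lit 172115) (nat_lit 10) (.e (nat_lit 434231) (nat_lit 23) (.e (nat_lit 532544) (nat_lit 10) (.e (nat_lit 344169) (nat_lit 40) (.e (nat_lit 671757) (nat_lit 3) .nil))))))) (.g (nat_lit 7) .nil .nil))) 
(.lf (nat_lit 165712) (.g (nat_lit 3384) (.e (nat_lit 57474) (nat_lit 28) (.e (nat_lit 557108) (nat_lit 15) (.e (nat_lit 188452) (nat_lit 23) (.e (nat_lit 204855) (nat_lit 26) (.e (nat_lit 335908) (nat_lit 0) .nil))))) .nil))) (.nd (nat_lit 6) 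
(.lf (nat_lit 165680) (.g (nat_lit 3475) (.e (nat_lit 57474) (nat_lit 28) (.e (nat_lit 557108) (nat_lit 15) (.e (nat_lit 188449) (nat_lit 22) (.e (nat_lit 196666) (nat_lit 13) (.e (nat_lit 65550) (nat_lit 0) .nil))))) .nil)) 
(.lf (nat_lit 165744) (.g (nat_lit 4827) (.e (nat_lit 57474) (nat_lit 28) (.e (nat_lit 557109) (nat_lit 15) (.e (nat_lit 188449) (nat_lit 22) (.e (nat_lit 196670) (nat_lit 14) .nil)))) .nil))))) (.nd (nat_lit 4) (.nd (nat_lit 5) (.nd (nat_lit 6) 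
(.lf (nat_lit 165640) (.g (nat_lit 1079) (.e (nat_lit 57474) (nat_lit 28) (.e (nat_lit 557085) (nat_lit 11) (.e (nat_lit 24657) (nat_lit 13) (.e (nat_lit 401152) (nat_lit 10) .nil)))) .nil)) 
(.lf (nat_lit 165704) (.g (nat_lit 3927) (.e (nat_lit 57474) (nat_lit 28) (.e (nat_lit 557108) (nat_lit 15) (.e (nat_lit 188452) (nat_lit 23) (.e (nat_lit 204849) (nat_lit 25) .nil)))) .nil))) (.nd (nat_lit 6) 
(.lf (nat_lit 165672) (.g (nat_lit 4661) (.e (nat_lit 57474) (nat_lit 28) (.e (nat_lit 557108) (nat_lit 15) (.e (nat_lit 188449) (nat_lit 22) (.e (nat_lit 196663) (nat_lit 13) .nil)))) .nil)) 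
(.lf (nat_lit 165736) (.g (nat_lit 3917) (.e (nat_lit 57474) (nat_lit 28) (.e (nat_lit 557108) (nat_lit 15) (.e (nat_lit 188452) (nat_lit 23) (.e (nat_lit 204872) (nat_lit 30) .nil)))) .nil)))) (.nd (nat_lit 5) (.nd (nat_lit 6) 
(.lf (nat_lit 165656) (.g (nat_lit 1372) (.e (nat_lit 57474) (nat_lit 28) (.e (nat_lit 557101) (nat_lit 13) (.e (nat_lit 172097) (nat_lit 9) (.e (nat_lit 426140) (nat_lit 3) .nil)))) .nil)) 
(.lf (nat_lit 165720) (.g (nat_lit 3869) (.e (nat_lit 57474) (nat_lit 28) (.e (nat_lit 557108) (nat_lit 15) (.e (nat_lit 188452) (nat_lit 23) (.e (nat_lit 204859) (nat_lit 26) .nil)))) .nil))) (.nd (nat_lit 6) 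
(.lf (nat_lit 165688) (.g (nat_lit 2972) (.e (nat_lit 57474) (nat_lit 28) (.e (nat_lit 557108) (nat_lit 15) (.e (nat_lit 188449) (nat_lit 22) (.e (nat_lit 196666) (nat_lit 13) (.e (nat_lit 65572) (nat_lit 4) .nil))))) .nil)) 
(.lf (nat_lit 165752) (.g (nat_lit 4500) (.e (nat_lit 57474) (nat_lit 28) (.e (nat_lit 557109) (nat_lit 15) (.e (nat_lit 188452) (nat_lit 23) (.e (nat_lit 204873) (nat_lit 30) .nil)))) .nil)))))) (.nd (nat_lit 3) (.nd (nat_lit 4) (.nd (nat_lit 5) (.nd (nat_lit 6) 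
(.lf (nat_lit 165636) (.g (nat_lit 2368) (.e (nat_lit 57473) (nat_lit 27) (.e (nat_lit 548889) (nat_lit 9) (.e (nat_lit 65571) (nat_lit 3) (.e (nat_lit 98342) (nat_lit 20) (.e (nat_lit 229120) (nat_lit 3) (.e (nat_lit 98346) (nat_lit 22) (.e (nat_lit 253996) (nat_lit 12) .nil))))))) (.g (nat_lit 4) .nil .nil))) 
(.lf (nat_lit 165700) (.g (nat_lit 591) (.e (nat_lit 57474) (nat_lit 28) (.e (nat_lit 557108) (nat_lit 15) (.e (nat_lit 188450) (nat_lit 23) .nil))) .nil))) (.nd (nat_lit 6) 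
(.lf (nat_lit 165668) (.g (nat_lit 383) (.e (nat_lit 57474) (nat_lit 28) (.e (nat_lit 557108) (nat_lit 15) (.e (nat_lit 188449) (nat_lit 22) .nil))) .nil)) 
(.lf (nat_lit 165732) (.g (nat_lit 4426) (.e (nat_lit 57474) (nat_lit 28) (.e (nat_lit 557108) (nat_lit 15) (.e (nat_lit 188452) (nat_lit 23) (.e (nat_lit 204863) (nat_lit 27) (.e (nat_lit 344169) (nat_lit 40) (.e (nat_lit 671757) (nat_lit 3) .nil)))))) (.g (nat_lit 6) .nil .nil))))) (.nd (nat_lit 5) (.nd (nat_lit 6) 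
(.lf (nat_lit 165652) (.g (nat_lit 3073) (.e (nat_lit 57474) (nat_lit 28) (.e (nat_lit 557100) (nat_lit 13) (.e (nat_lit 172106) (nat_lit 10) (.e (nat_lit 434231) (nat_lit 23) (.e (nat_lit 532544) (nat_lit 10) (.e (nat_lit 344168) (nat_lit 40) (.e (nat_lit 671757) (nat_lit 3) .nil))))))) (.g (nat_lit 6) .nil .nil))) 
(.lf (nat_lit 165716) (.g (nat_lit 3431) (.e (nat_lit 57474) (nat_lit 28) (.e (nat_lit 557108) (nat_lit 15) (.e (nat_lit 188452) (nat_lit 23) (.e (nat_lit 204855) (nat_lit 26) (.e (nat_lit 335985) (nat_lit 1) .nil))))) .nil))) (.nd (nat_lit 6) 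
(.lf (nat_lit 165684) (.g (nat_lit 4362) (.e (nat_lit 57474) (nat_lit 28) (.e (nat_lit 557108) (nat_lit 15) (.e (nat_lit 188449) (nat_lit 22) (.e (nat_lit 196666) (nat_lit 13) (.e (nat_lit 65558) (nat_lit 0) .nil))))) .nil)) 
(.lf (nat_lit 165748) (.g (nat_lit 3134) (.e (nat_lit 57474) (nat_lit 28) (.e (nat_lit 557109) (nat_lit 15) (.e (nat_lit 188452) (nat_lit 23) (.e (nat_lit 204855) (nat_lit 26) .nil)))) .nil))))) (.nd (nat_lit 4) (.nd (nat_lit 5) (.nd (nat_lit 6) 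
(.lf (nat_lit 165644) (.g (nat_lit 2072) (.e (nat_lit 57474) (nat_lit 28) (.e (nat_lit 557095) (nat_lit 13) (.e (nat_lit 172115) (nat_lit 10) (.e (nat_lit 434231) (nat_lit 23) (.e (nat_lit 532543) (nat_lit 10) (.e (nat_lit 344168) (nat_lit 40) (.e (nat_lit 671759) (nat_lit 3) .nil))))))) (.g (nat_lit 5) .nil .nil))) 
(.lf (nat_lit 165708) (.g (nat_lit 4658) (.e (nat_lit 57474) (nat_lit 28) (.e (nat_lit 557108) (nat_lit 15) (.e (nat_lit 188452) (nat_lit 23) (.e (nat_lit 204852) (nat_lit 26) (.e (nat_lit 343808) (nat_lit 1) (.e (nat_lit 57873) (nat_lit 264) (.e (nat_lit 1181) (nat_lit 87) .nil))))))) (.g (nat_lit 4) .nil .nil)))) (.nd (nat_lit 6) 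
(.lf (nat_lit 165676) (.g (nat_lit 4089) (.e (nat_lit 57474) (nat_lit 28) (.e (nat_lit 557108) (nat_lit 15) (.e (nat_lit 188449) (nat_lit 22) (.e (nat_lit 196666) (nat_lit 13) (.e (nat_lit 65545) (nat_lit 0) .nil))))) .nil)) 
(.lf (nat_lit 165740) (.g (nat_lit 4816) (.e (nat_lit 57474) (nat_lit 28) (.e (nat_lit 557108) (nat_lit 15) (.e (nat_lit 188452) (nat_lit 23) (.e (nat_lit 204885) (nat_lit 33) .nil)))) .nil)))) (.nd (nat_lit 5) (.nd (nat_lit 6) 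
(.lf (nat_lit 165660) (.g (nat_lit 2682) (.e (nat_lit 57474) (nat_lit 28) (.e (nat_lit 557105) (nat_lit 14) (.e (nat_lit 180252) (nat_lit 10) (.e (nat_lit 573488) (nat_lit 14) .nil)))) .nil)) 
(.lf (nat_lit 165724) (.g (nat_lit 2510) (.e (nat_lit 57474) (nat_lit 28) (.e (nat_lit 557108) (nat_lit 15) (.e (nat_lit 188452) (nat_lit 23) (.e (nat_lit 204862) (nat_lit 27) .nil)))) .nil))) (.nd (nat_lit 6) 
(.lf (nat_lit 165692) (.g (nat_lit 3467) (.e (nat_lit 57474) (nat_lit 28) (.e (nat_lit 557108) (nat_lit 15) (.e (nat_lit 188449) (nat_lit 22) (.e (nat_lit 196668) (nat_lit 14) .nil)))) .nil)) 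
(.lf (nat_lit 165756) (.g (nat_lit 2154) (.e (nat_lit 57475) (nat_lit 28) (.e (nat_lit 557098) (nat_lit 13) (.e (nat_lit 172097) (nat_lit 9) (.e (nat_lit 426140) (nat_lit 3) (.e (nat_lit 204855) (nat_lit 26) .nil))))) .nil))))))) (.nd (nat_lit 2) (.nd (nat_lit 3) (.nd (nat_lit 4) (.nd (nat_lit 5) (.nd (nat_lit 6) 
(.lf (nat_lit 165634) (.g (nat_lit 1433) (.e (nat_lit 57473) (nat_lit 27) (.e (nat_lit 548874) (nat_lit 5) (.e (nat_lit 1598) (nat_lit 111) (.e (nat_lit 360466) (nat_lit 3) (.e (nat_lit 516169) (nat_lit 13) .nil))))) .nil)) 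
(.lf (nat_lit 165698) (.g (nat_lit 4367) (.e (nat_lit 57474) (nat_lit 28) (.e (nat_lit 557108) (nat_lit 15) (.e (nat_lit 188449) (nat_lit 22) (.e (nat_lit 196680) (nat_lit 17) .nil)))) .nil))) (.nd (nat_lit 6) 
(.lf (nat_lit 165666) (.g (nat_lit 574) (.e (nat_lit 57474) (nat_lit 28) (.e (nat_lit 557108) (nat_lit 15) (.e (nat_lit 188447) (nat_lit 22) .nil))) .nil)) 
(.lf (nat_lit 165730) (.g (nat_lit 3767) (.e (nat_lit 57474) (nat_lit 28) (.e (nat_lit 557108) (nat_lit 15) (.e (nat_lit 188452) (nat_lit 23) (.e (nat_lit 204863) (nat_lit 27) (.e (nat_lit 344167) (nat_lit 40) (.e (nat_lit 671757) (nat_lit 3) .nil)))))) (.g (nat_lit 4) .nil .nil))))) (.nd (nat_lit 5) (.nd (nat_lit 6) 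
(.lf (nat_lit 165650) (.g (nat_lit 2199) (.e (nat_lit 57474) (nat_lit 28) (.e (nat_lit 557097) (nat_lit 13) (.e (nat_lit 172097) (nat_lit 9) (.e (nat_lit 426140) (nat_lit 3) (.e (nat_lit 204862) (nat_lit 27) (.e (nat_lit 344169) (nat_lit 40) (.e (nat_lit 671759) (nat_lit 3) .nil))))))) (.g (nat_lit 4) .nil .nil))) 
(.lf (nat_lit 165714) (.g (nat_lit 3922) (.e (nat_lit 57474) (nat_lit 28) (.e (nat_lit 557108) (nat_lit 15) (.e (nat_lit 188452) (nat_lit 23) (.e (nat_lit 204855) (nat_lit 26) (.e (nat_lit 335924) (nat_lit 0) .nil))))) .nil))) (.nd (nat_lit 6) 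
(.lf (nat_lit 165682) (.g (nat_lit 3758) (.e (nat_lit 57474) (nat_lit 28) (.e (nat_lit 557108) (nat_lit 15) (.e (nat_lit 188449) (nat_lit 22) (.e (nat_lit 196666) (nat_lit 13) (.e (nat_lit 65553) (nat_lit 0) (.e (nat_lit 2003) (nat_lit 138) (.e (nat_lit 671757) (nat_lit 3) .nil))))))) (.g (nat_lit 7) .nil .nil))) 
(.lf (nat_lit 165746) (.g (nat_lit 1061) (.e (nat_lit 57474) (nat_lit 28) (.e (nat_lit 557109) (nat_lit 15) (.e (nat_lit 188452) (nat_lit 23) .nil))) .nil))))) (.nd (nat_lit 4) (.nd (nat_lit 5) (.nd (nat_lit 6) 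
(.lf (nat_lit 165642) (.g (nat_lit 2419) (.e (nat_lit 57474) (nat_lit 28) (.e (nat_lit 557095) (nat_lit 13) (.e (nat_lit 172115) (nat_lit 10) (.e (nat_lit 434231) (nat_lit 23) (.e (nat_lit 532535) (nat_lit 9) (.e (nat_lit 335928) (nat_lit 0) (.e (nat_lit 2003) (nat_lit 138) (.e (nat_lit 671759) (nat_lit 3) .nil)))))))) (.g (nat_lit 5) .nil .nil))) 
(.lf (nat_lit 165706) (.g (nat_lit 3693) (.e (nat_lit 57474) (nat_lit 28) (.e (nat_lit 557108) (nat_lit 15) (.e (nat_lit 188452) (nat_lit 23) (.e (nat_lit 204851) (nat_lit 26) .nil)))) .nil))) (.nd (nat_lit 6) 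
(.lf (nat_lit 165674) (.g (nat_lit 2838) (.e (nat_lit 57474) (nat_lit 28) (.e (nat_lit 557108) (nat_lit 15) (.e (nat_lit 188449) (nat_lit 22) (.e (nat_lit 196666) (nat_lit 13) (.e (nat_lit 65539) (nat_lit 0) .nil))))) .nil)) 
(.lf (nat_lit 165738) (.g (nat_lit 4210) (.e (nat_lit 57474) (nat_lit 28) (.e (nat_lit 557108) (nat_lit 15) (.e (nat_lit 188452) (nat_lit 23) (.e (nat_lit 204874) (nat_lit 30) .nil)))) .nil)))) (.nd (nat_lit 5) (.nd (nat_lit 6) 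
(.lf (nat_lit 165658) (.g (nat_lit 2701) (.e (nat_lit 57474) (nat_lit 28) (.e (nat_lit 557104) (nat_lit 14) (.e (nat_lit 180252) (nat_lit 10) (.e (nat_lit 573482) (nat_lit 13) (.e (nat_lit 73472) (nat_lit 18) .nil))))) .nil)) 
(.lf (nat_lit 165722) (.g (nat_lit 4217) (.e (nat_lit 57474) (nat_lit 28) (.e (nat_lit 557108) (nat_lit 15) (.e (nat_lit 188452) (nat_lit 23) (.e (nat_lit 204861) (nat_lit 26) .nil)))) .nil))) (.nd (nat_lit 6) 
(.lf (nat_lit 165690) (.g (nat_lit 2893) (.e (nat_lit 57474) (nat_lit 28) (.e (nat_lit 557108) (nat_lit 15) (.e (nat_lit 188449) (nat_lit 22) (.e (nat_lit 196666) (nat_lit 13) (.e (nat_lit 65574) (nat_lit 4) .nil))))) .nil)) 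
(.lf (nat_lit 165754) (.g (nat_lit 674) (.e (nat_lit 57475) (nat_lit 28) (.e (nat_lit 557097) (nat_lit 13) (.e (nat_lit 172115) (nat_lit 10) .nil))) .nil)))))) (.nd (nat_lit 3) (.nd (nat_lit 4) (.nd (nat_lit 5) (.nd (nat_lit 6) 
(.lf (nat_lit 165638) (.g (nat_lit 1554) (.e (nat_lit 57473) (nat_lit 27) (.e (nat_lit 548890) (nat_lit 10) (.e (nat_lit 73746) (nat_lit 3) (.e (nat_lit 516129) (nat_lit 3) (.e (nat_lit 229120) (nat_lit 3) .nil))))) .nil)) 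
(.lf (nat_lit 165702) (.g (nat_lit 4661) (.e (nat_lit 57474) (nat_lit 28) (.e (nat_lit 557108) (nat_lit 15) (.e (nat_lit 188452) (nat_lit 23) (.e (nat_lit 204816) (nat_lit 17) .nil)))) .nil))) (.nd (nat_lit 6) 
(.lf (nat_lit 165670) (.g (nat_lit 4450) (.e (nat_lit 57474) (nat_lit 28) (.e (nat_lit 557108) (nat_lit 15) (.e (nat_lit 188449) (nat_lit 22) (.e (nat_lit 196622) (nat_lit 9) .nil)))) .nil)) 
(.lf (nat_lit 165734) (.g (nat_lit 2341) (.e (nat_lit 57474) (nat_lit 28) (.e (nat_lit 557108) (nat_lit 15) (.e (nat_lit 188452) (nat_lit 23) (.e (nat_lit 204864) (nat_lit 27) .nil)))) .nil)))) (.nd (nat_lit 5) (.nd (nat_lit 6) 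
(.lf (nat_lit 165654) (.g (nat_lit 3467) (.e (nat_lit 57474) (nat_lit 28) (.e (nat_lit 557100) (nat_lit 13) (.e (nat_lit 172106) (nat_lit 10) (.e (nat_lit 434231) (nat_lit 23) (.e (nat_lit 532544) (nat_lit 10) (.e (nat_lit 344169) (nat_lit 40) (.e (nat_lit 671757) (nat_lit 3) .nil))))))) (.g (nat_lit 6) .nil .nil))) 
(.lf (nat_lit 165718) (.g (nat_lit 4156) (.e (nat_lit 57474) (nat_lit 28) (.e (nat_lit 557108) (nat_lit 15) (.e (nat_lit 188452) (nat_lit 23) (.e (nat_lit 204857) (nat_lit 26) .nil)))) .nil))) (.nd (nat_lit 6) 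
(.lf (nat_lit 165686) (.g (nat_lit 3003) (.e (nat_lit 57474) (nat_lit 28) (.e (nat_lit 557108) (nat_lit 15) (.e (nat_lit 188449) (nat_lit 22) (.e (nat_lit 196666) (nat_lit 13) (.e (nat_lit 65563) (nat_lit 1) .nil))))) .nil)) 
(.lf (nat_lit 165750) (.g (nat_lit 3161) (.e (nat_lit 57474) (nat_lit 28) (.e (nat_lit 557109) (nat_lit 15) (.e (nat_lit 188452) (nat_lit 23) (.e (nat_lit 204862) (nat_lit 27) .nil)))) .nil))))) (.nd (nat_lit 4) (.nd (nat_lit 5) (.nd (nat_lit 6) 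
(.lf (nat_lit 165646) (.g (nat_lit 3059) (.e (nat_lit 57474) (nat_lit 28) (.e (nat_lit 557095) (nat_lit 13) (.e (nat_lit 172115) (nat_lit 10) (.e (nat_lit 434231) (nat_lit 23) (.e (nat_lit 532544) (nat_lit 10) (.e (nat_lit 344168) (nat_lit 40) (.e (nat_lit 671757) (nat_lit 3) .nil))))))) (.g (nat_lit 6) .nil .nil))) 
(.lf (nat_lit 165710) (.g (nat_lit 3959) (.e (nat_lit 57474) (nat_lit 28) (.e (nat_lit 557108) (nat_lit 15) (.e (nat_lit 188452) (nat_lit 23) (.e (nat_lit 204854) (nat_lit 26) .nil)))) .nil))) (.nd (nat_lit 6) 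
(.lf (nat_lit 165678) (.g (nat_lit 3714) (.e (nat_lit 57474) (nat_lit 28) (.e (nat_lit 557108) (nat_lit 15) (.e (nat_lit 188449) (nat_lit 22) (.e (nat_lit 196666) (nat_lit 13) (.e (nat_lit 65546) (nat_lit 0) (.e (nat_lit 2005) (nat_lit 138) (.e (nat_lit 671757) (nat_lit 3) .nil))))))) (.g (nat_lit 7) .nil .nil))) 
(.lf (nat_lit 165742) (.g (nat_lit 3717) (.e (nat_lit 57474) (nat_lit 28) (.e (nat_lit 557109) (nat_lit 15) (.e (nat_lit 188449) (nat_lit 22) (.e (nat_lit 196666) (nat_lit 13) .nil)))) .nil)))) (.nd (nat_lit 5) (.nd (nat_lit 6) 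
(.lf (nat_lit 165662) (.g (nat_lit 2497) (.e (nat_lit 57474) (nat_lit 28) (.e (nat_lit 557105) (nat_lit 14) (.e (nat_lit 180252) (nat_lit 10) (.e (nat_lit 573489) (nat_lit 14) (.e (nat_lit 73755) (nat_lit 8) .nil))))) .nil)) 
(.lf (nat_lit 165726) (.g (nat_lit 3623) (.e (nat_lit 57474) (nat_lit 28) (.e (nat_lit 557108) (nat_lit 15) (.e (nat_lit 188452) (nat_lit 23) (.e (nat_lit 204862) (nat_lit 27) (.e (nat_lit 344168) (nat_lit 40) (.e (nat_lit 671759) (nat_lit 3) .nil)))))) (.g (nat_lit 4) .nil .nil)))) (.nd (nat_lit 6) 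
(.lf (nat_lit 165694) (.g (nat_lit 3114) (.e (nat_lit 57474) (nat_lit 28) (.e (nat_lit 557108) (nat_lit 15) (.e (nat_lit 188449) (nat_lit 22) (.e (nat_lit 196670) (nat_lit 14) .nil)))) .nil)) 
(.lf (nat_lit 165758) (.g (nat_lit 2456) (.e (nat_lit 57475) (nat_lit 28) (.e (nat_lit 557098) (nat_lit 13) (.e (nat_lit 172115) (nat_lit 10) (.e (nat_lit 434231) (nat_lit 23) (.e (nat_lit 532528) (nat_lit 9) .nil))))) .nil)))))))) (.nd (nat_lit 1) (.nd (nat_lit 2) (.nd (nat_lit 3) (.nd (nat_lit 4) (.nd (nat_lit 5) (.nd (nat_lit 6) 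
(.lf (nat_lit 165633) (.g (nat_lit 2912) (.e (nat_lit 57473) (nat_lit 27) (.e (nat_lit 548874) (nat_lit 5) (.e (nat_lit 1395) (nat_lit 106) (.e (nat_lit 319530) (nat_lit 16) (.e (nat_lit 286733) (nat_lit 2) (.e (nat_lit 90174) (nat_lit 14) (.e (nat_lit 188160) (nat_lit 35) .nil))))))) (.g (nat_lit 6) .nil .nil))) 
(.lf (nat_lit 165697) (.g (nat_lit 5271) (.e (nat_lit 57474) (nat_lit 28) (.e (nat_lit 557108) (nat_lit 15) (.e (nat_lit 188449) (nat_lit 22) (.e (nat_lit 196679) (nat_lit 17) .nil)))) .nil))) (.nd (nat_lit 6) 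
(.lf (nat_lit 165665) (.g (nat_lit 1986) (.e (nat_lit 57474) (nat_lit 28) (.e (nat_lit 557108) (nat_lit 15) (.e (nat_lit 188433) (nat_lit 20) (.e (nat_lit 3262) (nat_lit 198) .nil)))) .nil)) 
(.lf (nat_lit 165729) (.g (nat_lit 2576) (.e (nat_lit 57474) (nat_lit 28) (.e (nat_lit 557108) (nat_lit 15) (.e (nat_lit 188452) (nat_lit 23) (.e (nat_lit 204863) (nat_lit 27) .nil)))) .nil)))) (.nd (nat_lit 5) (.nd (nat_lit 6) 
(.lf (nat_lit 165649) (.g (nat_lit 2042) (.e (nat_lit 57474) (nat_lit 28) (.e (nat_lit 557097) (nat_lit 13) (.e (nat_lit 172097) (nat_lit 9) (.e (nat_lit 426140) (nat_lit 3) (.e (nat_lit 204855) (nat_lit 26) .nil))))) .nil)) 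
(.lf (nat_lit 165713) (.g (nat_lit 3824) (.e (nat_lit 57474) (nat_lit 28) (.e (nat_lit 557108) (nat_lit 15) (.e (nat_lit 188452) (nat_lit 23) (.e (nat_lit 204855) (nat_lit 26) (.e (nat_lit 335923) (nat_lit 0) .nil))))) .nil))) (.nd (nat_lit 6) 
(.lf (nat_lit 165681) (.g (nat_lit 4372) (.e (nat_lit 57474) (nat_lit 28) (.e (nat_lit 557108) (nat_lit 15) (.e (nat_lit 188449) (nat_lit 22) (.e (nat_lit 196666) (nat_lit 13) (.e (nat_lit 65552) (nat_lit 0) .nil))))) .nil)) 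
(.lf (nat_lit 165745) (.g (nat_lit 6136) (.e (nat_lit 57474) (nat_lit 28) (.e (nat_lit 557109) (nat_lit 15) (.e (nat_lit 188449) (nat_lit 22) (.e (nat_lit 196681) (nat_lit 17) .nil)))) .nil))))) (.nd (nat_lit 4) (.nd (nat_lit 5) (.nd (nat_lit 6) 
(.lf (nat_lit 165641) (.g (nat_lit 3463) (.e (nat_lit 57474) (nat_lit 28) (.e (nat_lit 557095) (nat_lit 13) (.e (nat_lit 172115) (nat_lit 10) (.e (nat_lit 434231) (nat_lit 23) (.e (nat_lit 532535) (nat_lit 9) (.e (nat_lit 335925) (nat_lit 0) (.e (nat_lit 2006) (nat_lit 138) (.e (nat_lit 671759) (nat_lit 3) .nil)))))))) (.g (nat_lit 5) .nil .nil))) 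
(.lf (nat_lit 165705) (.g (nat_lit 2662) (.e (nat_lit 57474) (nat_lit 28) (.e (nat_lit 557108) (nat_lit 15) (.e (nat_lit 188452) (nat_lit 23) (.e (nat_lit 204850) (nat_lit 26) .nil)))) .nil))) (.nd (nat_lit 6) 
(.lf (nat_lit 165673) (.g (nat_lit 1927) (.e (nat_lit 57474) (nat_lit 28) (.e (nat_lit 557108) (nat_lit 15) (.e (nat_lit 188449) (nat_lit 22) (.e (nat_lit 196666) (nat_lit 13) .nil)))) .nil)) 
(.lf (nat_lit 165737) (.g (nat_lit 3689) (.e (nat_lit 57474) (nat_lit 28) (.e (nat_lit 557108) (nat_lit 15) (.e (nat_lit 188452) (nat_lit 23) (.e (nat_lit 204873) (nat_lit 30) .nil)))) .nil)))) (.nd (nat_lit 5) (.nd (nat_lit 6) 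
(.lf (nat_lit 165657) (.g (nat_lit 2237) (.e (nat_lit 57474) (nat_lit 28) (.e (nat_lit 557101) (nat_lit 13) (.e (nat_lit 172115) (nat_lit 10) (.e (nat_lit 434231) (nat_lit 23) (.e (nat_lit 532544) (nat_lit 10) .nil))))) .nil)) 
(.lf (nat_lit 165721) (.g (nat_lit 4135) (.e (nat_lit 57474) (nat_lit 28) (.e (nat_lit 557108) (nat_lit 15) (.e (nat_lit 188452) (nat_lit 23) (.e (nat_lit 204860) (nat_lit 26) .nil)))) .nil))) (.nd (nat_lit 6) 
(.lf (nat_lit 165689) (.g (nat_lit 3513) (.e (nat_lit 57474) (nat_lit 28) (.e (nat_lit 557108) (nat_lit 15) (.e (nat_lit 188449) (nat_lit 22) (.e (nat_lit 196666) (nat_lit 13) (.e (nat_lit 65573) (nat_lit 4) .nil))))) .nil)) 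
(.lf (nat_lit 165753) (.g (nat_lit 1840) (.e (nat_lit 57475) (nat_lit 28) (.e (nat_lit 557095) (nat_lit 13) (.e (nat_lit 172115) (nat_lit 10) (.e (nat_lit 434231) (nat_lit 23) (.e (nat_lit 532531) (nat_lit 9) (.e (nat_lit 336330) (nat_lit 19) (.e (nat_lit 220928) (nat_lit 3) .nil))))))) (.g (nat_lit 5) .nil .nil))))))) (.nd (nat_lit 3) (.nd (nat_lit 4) (.nd (nat_lit 5) (.nd (nat_lit 6) 
(.lf (nat_lit 165637) (.g (nat_lit 1293) (.e (nat_lit 57473) (nat_lit 27) (.e (nat_lit 548889) (nat_lit 9) (.e (nat_lit 65627) (nat_lit 13) (.e (nat_lit 393258) (nat_lit 20) .nil)))) .nil)) 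
(.lf (nat_lit 165701) (.g (nat_lit 631) (.e (nat_lit 57474) (nat_lit 28) (.e (nat_lit 557108) (nat_lit 15) (.e (nat_lit 188452) (nat_lit 23) .nil))) .nil))) (.nd (nat_lit 6) 
(.lf (nat_lit 165669) (.g (nat_lit 4885) (.e (nat_lit 57474) (nat_lit 28) (.e (nat_lit 557108) (nat_lit 15) (.e (nat_lit 188449) (nat_lit 22) (.e (nat_lit 196617) (nat_lit 9) .nil)))) .nil)) 
(.lf (nat_lit 165733) (.g (nat_lit 4854) (.e (nat_lit 57474) (nat_lit 28) (.e (nat_lit 557108) (nat_lit 15) (.e (nat_lit 188452) (nat_lit 23) (.e (nat_lit 204863) (nat_lit 27) (.e (nat_lit 344169) (nat_lit 40) (.e (nat_lit 671759) (nat_lit 3) .nil)))))) (.g (nat_lit 6) .nil .nil))))) (.nd (nat_lit 5) (.nd (nat_lit 6) 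
(.lf (nat_lit 165653) (.g (nat_lit 2554) (.e (nat_lit 57474) (nat_lit 28) (.e (nat_lit 557100) (nat_lit 13) (.e (nat_lit 172106) (nat_lit 10) (.e (nat_lit 434231) (nat_lit 23) (.e (nat_lit 532544) (nat_lit 10) (.e (nat_lit 344168) (nat_lit 40) (.e (nat_lit 671759) (nat_lit 3) .nil))))))) (.g (nat_lit 4) .nil .nil))) 
(.lf (nat_lit 165717) (.g (nat_lit 3285) (.e (nat_lit 57474) (nat_lit 28) (.e (nat_lit 557108) (nat_lit 15) (.e (nat_lit 188452) (nat_lit 23) (.e (nat_lit 204856) (nat_lit 26) .nil)))) .nil))) (.nd (nat_lit 6) 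
(.lf (nat_lit 165685) (.g (nat_lit 4305) (.e (nat_lit 57474) (nat_lit 28) (.e (nat_lit 557108) (nat_lit 15) (.e (nat_lit 188449) (nat_lit 22) (.e (nat_lit 196666) (nat_lit 13) (.e (nat_lit 65559) (nat_lit 0) .nil))))) .nil)) 
(.lf (nat_lit 165749) (.g (nat_lit 4654) (.e (nat_lit 57474) (nat_lit 28) (.e (nat_lit 557109) (nat_lit 15) (.e (nat_lit 188452) (nat_lit 23) (.e (nat_lit 204859) (nat_lit 26) .nil)))) .nil))))) (.nd (nat_lit 4) (.nd (nat_lit 5) (.nd (nat_lit 6) 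
(.lf (nat_lit 165645) (.g (nat_lit 2861) (.e (nat_lit 57474) (nat_lit 28) (.e (nat_lit 557095) (nat_lit 13) (.e (nat_lit 172115) (nat_lit 10) (.e (nat_lit 434231) (nat_lit 23) (.e (nat_lit 532543) (nat_lit 10) (.e (nat_lit 344169) (nat_lit 40) (.e (nat_lit 671757) (nat_lit 3) .nil))))))) (.g (nat_lit 6) .nil .nil))) 
(.lf (nat_lit 165709) (.g (nat_lit 3665) (.e (nat_lit 57474) (nat_lit 28) (.e (nat_lit 557108) (nat_lit 15) (.e (nat_lit 188452) (nat_lit 23) (.e (nat_lit 204853) (nat_lit 26) .nil)))) .nil))) (.nd (nat_lit 6) 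
(.lf (nat_lit 165677) (.g (nat_lit 2802) (.e (nat_lit 57474) (nat_lit 28) (.e (nat_lit 557108) (nat_lit 15) (.e (nat_lit 188449) (nat_lit 22) (.e (nat_lit 196666) (nat_lit 13) (.e (nat_lit 65546) (nat_lit 0) .nil))))) .nil)) 
(.lf (nat_lit 165741) (.g (nat_lit 1002) (.e (nat_lit 57474) (nat_lit 28) (.e (nat_lit 557109) (nat_lit 15) (.e (nat_lit 188449) (nat_lit 22) .nil))) .nil)))) (.nd (nat_lit 5) (.nd (nat_lit 6) 
(.lf (nat_lit 165661) (.g (nat_lit 2984) (.e (nat_lit 57474) (nat_lit 28) (.e (nat_lit 557105) (nat_lit 14) (.e (nat_lit 180252) (nat_lit 10) (.e (nat_lit 573489) (nat_lit 14) (.e (nat_lit 73754) (nat_lit 8) .nil))))) .nil)) 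
(.lf (nat_lit 165725) (.g (nat_lit 4146) (.e (nat_lit 57474) (nat_lit 28) (.e (nat_lit 557108) (nat_lit 15) (.e (nat_lit 188452) (nat_lit 23) (.e (nat_lit 204862) (nat_lit 27) (.e (nat_lit 344168) (nat_lit 40) (.e (nat_lit 671757) (nat_lit 3) .nil)))))) (.g (nat_lit 6) .nil .nil)))) (.nd (nat_lit 6) 
(.lf (nat_lit 165693) (.g (nat_lit 4665) (.e (nat_lit 57474) (nat_lit 28) (.e (nat_lit 557108) (nat_lit 15) (.e (nat_lit 188449) (nat_lit 22) (.e (nat_lit 196669) (nat_lit 14) .nil)))) .nil)) 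
(.lf (nat_lit 165757) (.g (nat_lit 2267) (.e (nat_lit 57475) (nat_lit 28) (.e (nat_lit 557098) (nat_lit 13) (.e (nat_lit 172115) (nat_lit 10) (.e (nat_lit 434231) (nat_lit 23) (.e (nat_lit 532527) (nat_lit 9) .nil))))) .nil))))))) (.nd (nat_lit 2) (.nd (nat_lit 3) (.nd (nat_lit 4) (.nd (nat_lit 5) (.nd (nat_lit 6) 
(.lf (nat_lit 165635) (.g (nat_lit 1561) (.e (nat_lit 57473) (nat_lit 27) (.e (nat_lit 548889) (nat_lit 9) (.e (nat_lit 65571) (nat_lit 3) (.e (nat_lit 98342) (nat_lit 20) .nil)))) .nil)) 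
(.lf (nat_lit 165699) (.g (nat_lit 4644) (.e (nat_lit 57474) (nat_lit 28) (.e (nat_lit 557108) (nat_lit 15) (.e (nat_lit 188449) (nat_lit 22) (.e (nat_lit 196681) (nat_lit 17) .nil)))) .nil))) (.nd (nat_lit 6) 
(.lf (nat_lit 165667) (.g (nat_lit 2167) (.e (nat_lit 57474) (nat_lit 28) (.e (nat_lit 557108) (nat_lit 15) (.e (nat_lit 188447) (nat_lit 22) (.e (nat_lit 196666) (nat_lit 13) .nil)))) .nil)) 
(.lf (nat_lit 165731) (.g (nat_lit 4685) (.e (nat_lit 57474) (nat_lit 28) (.e (nat_lit 557108) (nat_lit 15) (.e (nat_lit 188452) (nat_lit 23) (.e (nat_lit 204863) (nat_lit 27) (.e (nat_lit 344168) (nat_lit 40) (.e (nat_lit 671757) (nat_lit 3) .nil)))))) (.g (nat_lit 6) .nil .nil))))) (.nd (nat_lit 5) (.nd (nat_lit 6) 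
(.lf (nat_lit 165651) (.g (nat_lit 2047) (.e (nat_lit 57474) (nat_lit 28) (.e (nat_lit 557097) (nat_lit 13) (.e (nat_lit 172097) (nat_lit 9) (.e (nat_lit 426140) (nat_lit 3) (.e (nat_lit 204863) (nat_lit 27) .nil))))) .nil)) 
(.lf (nat_lit 165715) (.g (nat_lit 3559) (.e (nat_lit 57474) (nat_lit 28) (.e (nat_lit 557108) (nat_lit 15) (.e (nat_lit 188452) (nat_lit 23) (.e (nat_lit 204855) (nat_lit 26) (.e (nat_lit 335925) (nat_lit 0) .nil))))) .nil))) (.nd (nat_lit 6) 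
(.lf (nat_lit 165683) (.g (nat_lit 3621) (.e (nat_lit 57474) (nat_lit 28) (.e (nat_lit 557108) (nat_lit 15) (.e (nat_lit 188449) (nat_lit 22) (.e (nat_lit 196666) (nat_lit 13) (.e (nat_lit 65553) (nat_lit 0) (.e (nat_lit 2005) (nat_lit 138) (.e (nat_lit 671757) (nat_lit 3) .nil))))))) (.g (nat_lit 7) .nil .nil))) 
(.lf (nat_lit 165747) (.g (nat_lit 4431) (.e (nat_lit 57474) (nat_lit 28) (.e (nat_lit 557109) (nat_lit 15) (.e (nat_lit 188452) (nat_lit 23) (.e (nat_lit 204852) (nat_lit 26) .nil)))) .nil))))) (.nd (nat_lit 4) (.nd (nat_lit 5) (.nd (nat_lit 6) 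
(.lf (nat_lit 165643) (.g (nat_lit 2595) (.e (nat_lit 57474) (nat_lit 28) (.e (nat_lit 557095) (nat_lit 13) (.e (nat_lit 172115) (nat_lit 10) (.e (nat_lit 434231) (nat_lit 23) (.e (nat_lit 532543) (nat_lit 10) (.e (nat_lit 344168) (nat_lit 40) (.e (nat_lit 671757) (nat_lit 3) .nil))))))) (.g (nat_lit 6) .nil .nil))) 
(.lf (nat_lit 165707) (.g (nat_lit 3615) (.e (nat_lit 57474) (nat_lit 28) (.e (nat_lit 557108) (nat_lit 15) (.e (nat_lit 188452) (nat_lit 23) (.e (nat_lit 204852) (nat_lit 26) .nil)))) .nil))) (.nd (nat_lit 6) 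
(.lf (nat_lit 165675) (.g (nat_lit 2958) (.e (nat_lit 57474) (nat_lit 28) (.e (nat_lit 557108) (nat_lit 15) (.e (nat_lit 188449) (nat_lit 22) (.e (nat_lit 196666) (nat_lit 13) (.e (nat_lit 65543) (nat_lit 0) .nil))))) .nil)) 
(.lf (nat_lit 165739) (.g (nat_lit 3779) (.e (nat_lit 57474) (nat_lit 28) (.e (nat_lit 557108) (nat_lit 15) (.e (nat_lit 188452) (nat_lit 23) (.e (nat_lit 212736) (nat_lit 30) .nil)))) .nil)))) (.nd (nat_lit 5) (.nd (nat_lit 6) 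
(.lf (nat_lit 165659) (.g (nat_lit 642) (.e (nat_lit 57474) (nat_lit 28) (.e (nat_lit 557105) (nat_lit 14) (.e (nat_lit 180252) (nat_lit 10) .nil))) .nil)) 
(.lf (nat_lit 165723) (.g (nat_lit 3779) (.e (nat_lit 57474) (nat_lit 28) (.e (nat_lit 557108) (nat_lit 15) (.e (nat_lit 188452) (nat_lit 23) (.e (nat_lit 212736) (nat_lit 26) .nil)))) .nil))) (.nd (nat_lit 6) 
(.lf (nat_lit 165691) (.g (nat_lit 4813) (.e (nat_lit 57474) (nat_lit 28) (.e (nat_lit 557108) (nat_lit 15) (.e (nat_lit 188449) (nat_lit 22) (.e (nat_lit 196667) (nat_lit 14) .nil)))) .nil)) 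
(.lf (nat_lit 165755) (.g (nat_lit 1377) (.e (nat_lit 57475) (nat_lit 28) (.e (nat_lit 557098) (nat_lit 13) (.e (nat_lit 172097) (nat_lit 9) (.e (nat_lit 426140) (nat_lit 3) .nil)))) .nil)))))) (.nd (nat_lit 3) (.nd (nat_lit 4) (.nd (nat_lit 5) (.nd (nat_lit 6) 
(.lf (nat_lit 165639) (.g (nat_lit 4045) (.e (nat_lit 57473) (nat_lit 27) (.e (nat_lit 548891) (nat_lit 11) (.e (nat_lit 81956) (nat_lit 23) (.e (nat_lit 98350) (nat_lit 24) (.e (nat_lit 409616) (nat_lit 10) (.e (nat_lit 7936) (nat_lit 301) .nil)))))) (.g (nat_lit 4) .nil .nil))) 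
(.lf (nat_lit 165703) (.g (nat_lit 3663) (.e (nat_lit 57474) (nat_lit 28) (.e (nat_lit 557108) (nat_lit 15) (.e (nat_lit 188452) (nat_lit 23) (.e (nat_lit 204817) (nat_lit 17) .nil)))) .nil))) (.nd (nat_lit 6) 
(.lf (nat_lit 165671) (.g (nat_lit 4844) (.e (nat_lit 57474) (nat_lit 28) (.e (nat_lit 557108) (nat_lit 15) (.e (nat_lit 188449) (nat_lit 22) (.e (nat_lit 196662) (nat_lit 13) .nil)))) .nil)) 
(.lf (nat_lit 165735) (.g (nat_lit 4163) (.e (nat_lit 57474) (nat_lit 28) (.e (nat_lit 557108) (nat_lit 15) (.e (nat_lit 188452) (nat_lit 23) (.e (nat_lit 204871) (nat_lit 30) .nil)))) .nil)))) (.nd (nat_lit 5) (.nd (nat_lit 6) 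
(.lf (nat_lit 165655) (.g (nat_lit 3687) (.e (nat_lit 57474) (nat_lit 28) (.e (nat_lit 557100) (nat_lit 13) (.e (nat_lit 172106) (nat_lit 10) (.e (nat_lit 434231) (nat_lit 23) (.e (nat_lit 532563) (nat_lit 15) (.e (nat_lit 385093) (nat_lit 49) (.e (nat_lit 778318) (nat_lit 3) .nil))))))) (.g (nat_lit 5) .nil .nil))) 
(.lf (nat_lit 165719) (.g (nat_lit 4210) (.e (nat_lit 57474) (nat_lit 28) (.e (nat_lit 557108) (nat_lit 15) (.e (nat_lit 188452) (nat_lit 23) (.e (nat_lit 204858) (nat_lit 26) .nil)))) .nil))) (.nd (nat_lit 6) 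
(.lf (nat_lit 165687) (.g (nat_lit 2943) (.e (nat_lit 57474) (nat_lit 28) (.e (nat_lit 557108) (nat_lit 15) (.e (nat_lit 188449) (nat_lit 22) (.e (nat_lit 196666) (nat_lit 13) (.e (nat_lit 65565) (nat_lit 1) .nil))))) .nil)) 
(.lf (nat_lit 165751) (.g (nat_lit 3134) (.e (nat_lit 57474) (nat_lit 28) (.e (nat_lit 557109) (nat_lit 15) (.e (nat_lit 188452) (nat_lit 23) (.e (nat_lit 204863) (nat_lit 27) .nil)))) .nil))))) (.nd (nat_lit 4) (.nd (nat_lit 5) (.nd (nat_lit 6) 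
(.lf (nat_lit 165647) (.g (nat_lit 2540) (.e (nat_lit 57474) (nat_lit 28) (.e (nat_lit 557095) (nat_lit 13) (.e (nat_lit 172115) (nat_lit 10) (.e (nat_lit 434231) (nat_lit 23) (.e (nat_lit 532544) (nat_lit 10) (.e (nat_lit 344168) (nat_lit 40) (.e (nat_lit 671759) (nat_lit 3) .nil))))))) (.g (nat_lit 5) .nil .nil))) 
(.lf (nat_lit 165711) (.g (nat_lit 2598) (.e (nat_lit 57474) (nat_lit 28) (.e (nat_lit 557108) (nat_lit 15) (.e (nat_lit 188452) (nat_lit 23) (.e (nat_lit 204855) (nat_lit 26) .nil)))) .nil))) (.nd (nat_lit 6) 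
(.lf (nat_lit 165679) (.g (nat_lit 4282) (.e (nat_lit 57474) (nat_lit 28) (.e (nat_lit 557108) (nat_lit 15) (.e (nat_lit 188449) (nat_lit 22) (.e (nat_lit 196666) (nat_lit 13) (.e (nat_lit 65547) (nat_lit 0) .nil))))) .nil)) 
(.lf (nat_lit 165743) (.g (nat_lit 5738) (.e (nat_lit 57474) (nat_lit 28) (.e (nat_lit 557109) (nat_lit 15) (.e (nat_lit 188449) (nat_lit 22) (.e (nat_lit 196668) (nat_lit 14) .nil)))) .nil)))) (.nd (nat_lit 5) (.nd (nat_lit 6) 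
(.lf (nat_lit 165663) (.g (nat_lit 1429) (.e (nat_lit 57474) (nat_lit 28) (.e (nat_lit 557107) (nat_lit 15) (.e (nat_lit 188447) (nat_lit 22) (.e (nat_lit 196666) (nat_lit 13) .nil)))) .nil)) 
(.lf (nat_lit 165727) (.g (nat_lit 4089) (.e (nat_lit 57474) (nat_lit 28) (.e (nat_lit 557108) (nat_lit 15) (.e (nat_lit 188452) (nat_lit 23) (.e (nat_lit 204862) (nat_lit 27) (.e (nat_lit 344169) (nat_lit 40) (.e (nat_lit 671757) (nat_lit 3) .nil)))))) (.g (nat_lit 6) .nil .nil)))) (.nd (nat_lit 6) 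
(.lf (nat_lit 165695) (.g (nat_lit 4062) (.e (nat_lit 57474) (nat_lit 28) (.e (nat_lit 557108) (nat_lit 15) (.e (nat_lit 188449) (nat_lit 22) (.e (nat_lit 196670) (nat_lit 14) (.e (nat_lit 73770) (nat_lit 22) (.e (nat_lit 671757) (nat_lit 3) .nil)))))) (.g (nat_lit 4) .nil .nil))) 
(.lf (nat_lit 165759) (.g (nat_lit 2362) (.e (nat_lit 57475) (nat_lit 28) (.e (nat_lit 557098) (nat_lit 13) (.e (nat_lit 172115) (nat_lit 10) (.e (nat_lit 434231) (nat_lit 23) (.e (nat_lit 532529) (nat_lit 9) .nil))))) .nil)))))))))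

noncomputable def tv2223 : DT := (.nd (nat_lit 0) (.nd (nat_lit 1) (.nd (nat_lit 2) (.nd (nat_lit 3) (.nd (nat_lit 4) (.nd (nat_lit 5) (.nd (nat_lit 6) 
(.lf (nat_lit 165760) (.g (nat_lit 2411) (.e (nat_lit 57475) (nat_lit 28) (.e (nat_lit 557098) (nat_lit 13) (.e (nat_lit 172115) (nat_lit 10) (.e (nat_lit 434231) (nat_lit 23) (.e (nat_lit 532531) (nat_lit 9) (.e (nat_lit 336330) (nat_lit 19) (.e (nat_lit 220928) (nat_lit 3) .nil))))))) (.g (nat_lit 5) .nil .nil))) 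
(.lf (nat_lit 165824) (.g (nat_lit 3625) (.e (nat_lit 57476) (nat_lit 28) (.e (nat_lit 557087) (nat_lit 11) (.e (nat_lit 24625) (nat_lit 9) (.e (nat_lit 336454) (nat_lit 34) .nil)))) .nil))) (.nd (nat_lit 6) 
(.lf (nat_lit 165792) (.g (nat_lit 3741) (.e (nat_lit 57475) (nat_lit 28) (.e (nat_lit 557109) (nat_lit 15) (.e (nat_lit 188449) (nat_lit 22) (.e (nat_lit 196666) (nat_lit 13) .nil)))) .nil)) 
(.lf (nat_lit 165856) (.g (nat_lit 2335) (.e (nat_lit 57476) (nat_lit 28) (.e (nat_lit 557095) (nat_lit 13) (.e (nat_lit 172115) (nat_lit 10) (.e (nat_lit 434231) (nat_lit 23) (.e (nat_lit 532563) (nat_lit 15) (.e (nat_lit 385094) (nat_lit 49) (.e (nat_lit 778317) (nat_lit 3) .nil))))))) (.g (nat_lit 4) .nil .nil))))) (.nd (nat_lit 5) (.nd (nat_lit 6) 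
(.lf (nat_lit 165776) (.g (nat_lit 2984) (.e (nat_lit 57475) (nat_lit 28) (.e (nat_lit 557105) (nat_lit 14) (.e (nat_lit 180252) (nat_lit 10) (.e (nat_lit 573489) (nat_lit 14) (.e (nat_lit 73754) (nat_lit 8) .nil))))) .nil)) 
(.lf (nat_lit 165840) (.g (nat_lit 3911) (.e (nat_lit 57476) (nat_lit 28) (.e (nat_lit 557090) (nat_lit 12) (.e (nat_lit 164038) (nat_lit 55) (.e (nat_lit 778318) (nat_lit 3) (.e (nat_lit 57464) (nat_lit 23) (.e (nat_lit 516151) (nat_lit 9) (.e (nat_lit 426132) (nat_lit 3) (.e (nat_lit 204834) (nat_lit 19) (.e (nat_lit 106537) (nat_lit 12) .nil))))))))) (.g (nat_lit 5) .nil .nil)))) 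
(.nd (nat_lit 6) 
(.lf (nat_lit 165808) (.g (nat_lit 2088) (.e (nat_lit 57476) (nat_lit 28) (.e (nat_lit 564992) (nat_lit 6) (.e (nat_lit 81954) (nat_lit 23) (.e (nat_lit 98356) (nat_lit 26) (.e (nat_lit 426363) (nat_lit 15) (.e (nat_lit 2155) (nat_lit 142) (.e (nat_lit 704746) (nat_lit 12) .nil))))))) (.g (nat_lit 4) .nil .nil))) 
(.lf (nat_lit 165872) (.g (nat_lit 1624) (.e (nat_lit 57476) (nat_lit 28) (.e (nat_lit 557097) (nat_lit 13) (.e (nat_lit 172097) (nat_lit 9) (.e (nat_lit 426125) (nat_lit 2) (.e (nat_lit 196666) (nat_lit 13) .nil))))) .nil))))) (.nd (nat_lit 4) (.nd (nat_lit 5) (.nd (nat_lit 6) 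
(.lf (nat_lit 165768) (.g (nat_lit 2336) (.e (nat_lit 57475) (nat_lit 28) (.e (nat_lit 557103) (nat_lit 14) (.e (nat_lit 180250) (nat_lit 10) (.e (nat_lit 573485) (nat_lit 13) (.e (nat_lit 65569) (nat_lit 3) .nil))))) .nil)) 
(.lf (nat_lit 165832) (.g (nat_lit 1938) (.e (nat_lit 57476) (nat_lit 28) (.e (nat_lit 557087) (nat_lit 11) (.e (nat_lit 24655) (nat_lit 13) (.e (nat_lit 393258) (nat_lit 20) .nil)))) .nil))) (.nd (nat_lit 6) 
(.lf (nat_lit 165800) (.g (nat_lit 4550) (.e (nat_lit 57475) (nat_lit 28) (.e (nat_lit 557109) (nat_lit 15) (.e (nat_lit 188452) (nat_lit 23) (.e (nat_lit 204854) (nat_lit 26) .nil)))) .nil)) 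
(.lf (nat_lit 165864) (.g (nat_lit 2377) (.e (nat_lit 57476) (nat_lit 28) (.e (nat_lit 557097) (nat_lit 13) (.e (nat_lit 172067) (nat_lit 3) (.e (nat_lit 204809) (nat_lit 9) (.e (nat_lit 426139) (nat_lit 3) (.e (nat_lit 204803) (nat_lit 0) (.e (nat_lit 7936) (nat_lit 405) .nil))))))) (.g (nat_lit 4) .nil .nil))))) (.nd (nat_lit 5) (.nd (nat_lit 6) 
(.lf (nat_lit 165784) (.g (nat_lit 5802) (.e (nat_lit 57475) (nat_lit 28) (.e (nat_lit 557108) (nat_lit 15) (.e (nat_lit 188452) (nat_lit 23) (.e (nat_lit 204860) (nat_lit 26) .nil)))) .nil)) 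
(.lf (nat_lit 165848) (.g (nat_lit 2845) (.e (nat_lit 57476) (nat_lit 28) (.e (nat_lit 557090) (nat_lit 12) (.e (nat_lit 164054) (nat_lit 56) (.e (nat_lit 786455) (nat_lit 17) (.e (nat_lit 90174) (nat_lit 14) (.e (nat_lit 180243) (nat_lit 5) (.e (nat_lit 532510) (nat_lit 2) (.e (nat_lit 106537) (nat_lit 12) .nil)))))))) (.g (nat_lit 5) .nil .nil)))) (.nd (nat_lit 6) 
(.lf (nat_lit 165816) (.g (nat_lit 1948) (.e (nat_lit 57476) (nat_lit 28) (.e (nat_lit 557087) (nat_lit 11) (.e (nat_lit 24608) (nat_lit 3) (.e (nat_lit 98341) (nat_lit 20) .nil)))) .nil)) 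
(.lf (nat_lit 165880) (.g (nat_lit 3444) (.e (nat_lit 57476) (nat_lit 28) (.e (nat_lit 557097) (nat_lit 13) (.e (nat_lit 172097) (nat_lit 9) (.e (nat_lit 426125) (nat_lit 2) (.e (nat_lit 196666) (nat_lit 13) (.e (nat_lit 65550) (nat_lit 0) (.e (nat_lit 1040) (nat_lit 81) (.e (nat_lit 5907) (nat_lit 320) (.e (nat_lit 1172) (nat_lit 87) .nil))))))))) (.g (nat_lit 5) .nil .nil))))))) 
(.nd (nat_lit 3) (.nd (nat_lit 4) (.nd (nat_lit 5) (.nd (nat_lit 6) 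
(.lf (nat_lit 165764) (.g (nat_lit 3095) (.e (nat_lit 57475) (nat_lit 28) (.e (nat_lit 557100) (nat_lit 13) (.e (nat_lit 172106) (nat_lit 10) (.e (nat_lit 434231) (nat_lit 23) (.e (nat_lit 532529) (nat_lit 9) (.e (nat_lit 336330) (nat_lit 19) (.e (nat_lit 220928) (nat_lit 3) .nil))))))) (.g (nat_lit 4) .nil .nil))) 
(.lf (nat_lit 165828) (.g (nat_lit 4575) (.e (nat_lit 57476) (nat_lit 28) (.e (nat_lit 557087) (nat_lit 11) (.e (nat_lit 24636) (nat_lit 9) (.e (nat_lit 336017) (nat_lit 3) (.e (nat_lit 98350) (nat_lit 24) (.e (nat_lit 409616) (nat_lit 10) (.e (nat_lit 7936) (nat_lit 301) .nil))))))) (.g (nat_lit 6) .nil .nil)))) (.nd (nat_lit 6) 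
(.lf (nat_lit 165796) (.g (nat_lit 816) (.e (nat_lit 57475) (nat_lit 28) (.e (nat_lit 557109) (nat_lit 15) (.e (nat_lit 188452) (nat_lit 23) .nil))) .nil)) 
(.lf (nat_lit 165860) (.g (nat_lit 3047) (.e (nat_lit 57476) (nat_lit 28) (.e (nat_lit 557097) (nat_lit 13) (.e (nat_lit 172059) (nat_lit 1) (.e (nat_lit 164398) (nat_lit 256) (.e (nat_lit 57448) (nat_lit 19) (.e (nat_lit 393234) (nat_lit 17) (.e (nat_lit 7583) (nat_lit 405) .nil))))))) (.g (nat_lit 6) .nil .nil))))) (.nd (nat_lit 5) (.nd (nat_lit 6) 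
(.lf (nat_lit 165780) (.g (nat_lit 4107) (.e (nat_lit 57475) (nat_lit 28) (.e (nat_lit 557108) (nat_lit 15) (.e (nat_lit 188452) (nat_lit 23) (.e (nat_lit 204852) (nat_lit 26) .nil)))) .nil)) 
(.lf (nat_lit 165844) (.g (nat_lit 1048) (.e (nat_lit 57476) (nat_lit 28) (.e (nat_lit 557090) (nat_lit 12) (.e (nat_lit 164054) (nat_lit 56) .nil))) .nil))) (.nd (nat_lit 6) 
(.lf (nat_lit 165812) (.g (nat_lit 4249) (.e (nat_lit 57476) (nat_lit 28) (.e (nat_lit 557066) (nat_lit 9) (.e (nat_lit 307) (nat_lit 22) (.e (nat_lit 344169) (nat_lit 40) (.e (nat_lit 671759) (nat_lit 3) (.e (nat_lit 57479) (nat_lit 28) (.e (nat_lit 557105) (nat_lit 14) (.e (nat_lit 188160) (nat_lit 35) .nil)))))))) (.g (nat_lit 7) .nil .nil))) 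
(.lf (nat_lit 165876) (.g (nat_lit 2024) (.e (nat_lit 57476) (nat_lit 28) (.e (nat_lit 557097) (nat_lit 13) (.e (nat_lit 172097) (nat_lit 9) (.e (nat_lit 426125) (nat_lit 2) (.e (nat_lit 196666) (nat_lit 13) (.e (nat_lit 65546) (nat_lit 0) (.e (nat_lit 1040) (nat_lit 81) (.e (nat_lit 5907) (nat_lit 320) (.e (nat_lit 1172) (nat_lit 87) .nil))))))))) (.g (nat_lit 4) .nil .nil)))))) 
(.nd (nat_lit 4) (.nd (nat_lit 5) (.nd (nat_lit 6) 
(.lf (nat_lit 165772) (.g (nat_lit 2681) (.e (nat_lit 57475) (nat_lit 28) (.e (nat_lit 557105) (nat_lit 14) (.e (nat_lit 180252) (nat_lit 10) (.e (nat_lit 573481) (nat_lit 13) .nil)))) .nil)) 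
(.lf (nat_lit 165836) (.g (nat_lit 2131) (.e (nat_lit 57476) (nat_lit 28) (.e (nat_lit 557089) (nat_lit 12) (.e (nat_lit 164054) (nat_lit 56) (.e (nat_lit 786455) (nat_lit 17) (.e (nat_lit 90170) (nat_lit 13) (.e (nat_lit 172065) (nat_lit 3) (.e (nat_lit 204834) (nat_lit 19) (.e (nat_lit 106537) (nat_lit 12) .nil)))))))) (.g (nat_lit 5) .nil .nil)))) (.nd (nat_lit 6) 
(.lf (nat_lit 165804) (.g (nat_lit 4567) (.e (nat_lit 57475) (nat_lit 28) (.e (nat_lit 557109) (nat_lit 15) (.e (nat_lit 188452) (nat_lit 23) (.e (nat_lit 204873) (nat_lit 30) .nil)))) .nil)) 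
(.lf (nat_lit 165868) (.g (nat_lit 1758) (.e (nat_lit 57476) (nat_lit 28) (.e (nat_lit 557097) (nat_lit 13) (.e (nat_lit 172097) (nat_lit 9) (.e (nat_lit 426125) (nat_lit 2) (.e (nat_lit 196630) (nat_lit 9) .nil))))) .nil)))) (.nd (nat_lit 5) (.nd (nat_lit 6) 
(.lf (nat_lit 165788) (.g (nat_lit 4332) (.e (nat_lit 57475) (nat_lit 28) (.e (nat_lit 557108) (nat_lit 15) (.e (nat_lit 188452) (nat_lit 23) (.e (nat_lit 204874) (nat_lit 30) .nil)))) .nil)) 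
(.lf (nat_lit 165852) (.g (nat_lit 2290) (.e (nat_lit 57476) (nat_lit 28) (.e (nat_lit 557090) (nat_lit 12) (.e (nat_lit 164056) (nat_lit 56) (.e (nat_lit 786455) (nat_lit 17) (.e (nat_lit 90174) (nat_lit 14) (.e (nat_lit 180243) (nat_lit 5) (.e (nat_lit 532510) (nat_lit 2) (.e (nat_lit 106537) (nat_lit 12) .nil)))))))) (.g (nat_lit 5) .nil .nil)))) (.nd (nat_lit 6) 
(.lf (nat_lit 165820) (.g (nat_lit 2369) (.e (nat_lit 57476) (nat_lit 28) (.e (nat_lit 557087) (nat_lit 11) (.e (nat_lit 24623) (nat_lit 9) (.e (nat_lit 336028) (nat_lit 3) (.e (nat_lit 98350) (nat_lit 24) (.e (nat_lit 409616) (nat_lit 10) (.e (nat_lit 7936) (nat_lit 301) .nil))))))) (.g (nat_lit 4) .nil .nil))) 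
(.lf (nat_lit 165884) (.g (nat_lit 2795) (.e (nat_lit 57476) (nat_lit 28) (.e (nat_lit 557097) (nat_lit 13) (.e (nat_lit 172097) (nat_lit 9) (.e (nat_lit 426125) (nat_lit 2) (.e (nat_lit 196666) (nat_lit 13) (.e (nat_lit 65563) (nat_lit 1) (.e (nat_lit 57870) (nat_lit 264) (.e (nat_lit 1170) (nat_lit 87) .nil)))))))) (.g (nat_lit 5) .nil .nil)))))))) 
(.nd (nat_lit 2) (.nd (nat_lit 3) (.nd (nat_lit 4) (.nd (nat_lit 5) (.nd (nat_lit 6) 
(.lf (nat_lit 165762) (.g (nat_lit 2175) (.e (nat_lit 57475) (nat_lit 28) (.e (nat_lit 557098) (nat_lit 13) (.e (nat_lit 172115) (nat_lit 10) (.e (nat_lit 434231) (nat_lit 23) (.e (nat_lit 532564) (nat_lit 15) .nil))))) .nil)) 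
(.lf (nat_lit 165826) (.g (nat_lit 2974) (.e (nat_lit 57476) (nat_lit 28) (.e (nat_lit 557087) (nat_lit 11) (.e (nat_lit 24628) (nat_lit 9) (.e (nat_lit 336019) (nat_lit 3) (.e (nat_lit 98350) (nat_lit 24) .nil))))) .nil))) (.nd (nat_lit 6) 
(.lf (nat_lit 165794) (.g (nat_lit 4878) (.e (nat_lit 57475) (nat_lit 28) (.e (nat_lit 557109) (nat_lit 15) (.e (nat_lit 188449) (nat_lit 22) (.e (nat_lit 196670) (nat_lit 14) .nil)))) .nil)) 
(.lf (nat_lit 165858) (.g (nat_lit 3175) (.e (nat_lit 57476) (nat_lit 28) (.e (nat_lit 557096) (nat_lit 13) (.e (nat_lit 172106) (nat_lit 10) (.e (nat_lit 434231) (nat_lit 23) (.e (nat_lit 532563) (nat_lit 15) (.e (nat_lit 385094) (nat_lit 49) (.e (nat_lit 778318) (nat_lit 3) .nil))))))) (.g (nat_lit 4) .nil .nil))))) (.nd (nat_lit 5) (.nd (nat_lit 6) 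
(.lf (nat_lit 165778) (.g (nat_lit 741) (.e (nat_lit 57475) (nat_lit 28) (.e (nat_lit 557108) (nat_lit 15) (.e (nat_lit 188452) (nat_lit 23) .nil))) .nil)) 
(.lf (nat_lit 165842) (.g (nat_lit 2818) (.e (nat_lit 57476) (nat_lit 28) (.e (nat_lit 557090) (nat_lit 12) (.e (nat_lit 164053) (nat_lit 56) (.e (nat_lit 786455) (nat_lit 17) (.e (nat_lit 90170) (nat_lit 13) (.e (nat_lit 172065) (nat_lit 3) (.e (nat_lit 204834) (nat_lit 19) (.e (nat_lit 106537) (nat_lit 12) .nil)))))))) (.g (nat_lit 5) .nil .nil)))) (.nd (nat_lit 6) 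
(.lf (nat_lit 165810) (.g (nat_lit 2122) (.e (nat_lit 57476) (nat_lit 28) (.e (nat_lit 557065) (nat_lit 9) (.e (nat_lit 2830) (nat_lit 182) (.e (nat_lit 409649) (nat_lit 18) (.e (nat_lit 311040) (nat_lit 34) .nil))))) .nil)) 
(.lf (nat_lit 165874) (.g (nat_lit 2042) (.e (nat_lit 57476) (nat_lit 28) (.e (nat_lit 557097) (nat_lit 13) (.e (nat_lit 172097) (nat_lit 9) (.e (nat_lit 426125) (nat_lit 2) (.e (nat_lit 196666) (nat_lit 13) (.e (nat_lit 65546) (nat_lit 0) (.e (nat_lit 1023) (nat_lit 81) (.e (nat_lit 5907) (nat_lit 320) (.e (nat_lit 1170) (nat_lit 87) .nil))))))))) (.g (nat_lit 4) .nil .nil)))))) 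
(.nd (nat_lit 4) (.nd (nat_lit 5) (.nd (nat_lit 6) 
(.lf (nat_lit 165770) (.g (nat_lit 1514) (.e (nat_lit 57475) (nat_lit 28) (.e (nat_lit 557105) (nat_lit 14) (.e (nat_lit 180251) (nat_lit 10) (.e (nat_lit 573485) (nat_lit 13) .nil)))) .nil)) 
(.lf (nat_lit 165834) (.g (nat_lit 961) (.e (nat_lit 57476) (nat_lit 28) (.e (nat_lit 557087) (nat_lit 11) (.e (nat_lit 24660) (nat_lit 13) .nil))) .nil))) (.nd (nat_lit 6) 
(.lf (nat_lit 165802) (.g (nat_lit 4774) (.e (nat_lit 57475) (nat_lit 28) (.e (nat_lit 557109) (nat_lit 15) (.e (nat_lit 188452) (nat_lit 23) (.e (nat_lit 204861) (nat_lit 26) .nil)))) .nil)) 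
(.lf (nat_lit 165866) (.g (nat_lit 3281) (.e (nat_lit 57476) (nat_lit 28) (.e (nat_lit 557097) (nat_lit 13) (.e (nat_lit 172086) (nat_lit 9) (.e (nat_lit 426131) (nat_lit 3) (.e (nat_lit 204880) (nat_lit 32) (.e (nat_lit 385094) (nat_lit 49) (.e (nat_lit 778317) (nat_lit 3) .nil))))))) (.g (nat_lit 0) .nil .nil))))) (.nd (nat_lit 5) (.nd (nat_lit 6) 
(.lf (nat_lit 165786) (.g (nat_lit 4136) (.e (nat_lit 57475) (nat_lit 28) (.e (nat_lit 557108) (nat_lit 15) (.e (nat_lit 188452) (nat_lit 23) (.e (nat_lit 204872) (nat_lit 30) .nil)))) .nil)) 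
(.lf (nat_lit 165850) (.g (nat_lit 2607) (.e (nat_lit 57476) (nat_lit 28) (.e (nat_lit 557090) (nat_lit 12) (.e (nat_lit 164056) (nat_lit 56) (.e (nat_lit 786455) (nat_lit 17) (.e (nat_lit 90170) (nat_lit 13) (.e (nat_lit 172067) (nat_lit 3) (.e (nat_lit 204834) (nat_lit 19) (.e (nat_lit 106537) (nat_lit 12) .nil)))))))) (.g (nat_lit 5) .nil .nil)))) (.nd (nat_lit 6) 
(.lf (nat_lit 165818) (.g (nat_lit 3679) (.e (nat_lit 57476) (nat_lit 28) (.e (nat_lit 557087) (nat_lit 11) (.e (nat_lit 24617) (nat_lit 7) (.e (nat_lit 319504) (nat_lit 10) (.e (nat_lit 7936) (nat_lit 45) (.e (nat_lit 532544) (nat_lit 10) (.e (nat_lit 352000) (nat_lit 11) .nil))))))) (.g (nat_lit 4) .nil .nil))) 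
(.lf (nat_lit 165882) (.g (nat_lit 3006) (.e (nat_lit 57476) (nat_lit 28) (.e (nat_lit 557097) (nat_lit 13) (.e (nat_lit 172097) (nat_lit 9) (.e (nat_lit 426125) (nat_lit 2) (.e (nat_lit 196666) (nat_lit 13) (.e (nat_lit 65553) (nat_lit 0) (.e (nat_lit 1023) (nat_lit 81) (.e (nat_lit 5906) (nat_lit 320) (.e (nat_lit 1172) (nat_lit 87) .nil))))))))) (.g (nat_lit 5) .nil .nil))))))) 
(.nd (nat_lit 3) (.nd (nat_lit 4) (.nd (nat_lit 5) (.nd (nat_lit 6) 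
(.lf (nat_lit 165766) (.g (nat_lit 5075) (.e (nat_lit 57475) (nat_lit 28) (.e (nat_lit 557100) (nat_lit 13) (.e (nat_lit 172106) (nat_lit 10) (.e (nat_lit 434231) (nat_lit 23) (.e (nat_lit 532563) (nat_lit 15) (.e (nat_lit 385093) (nat_lit 49) (.e (nat_lit 778318) (nat_lit 3) .nil))))))) (.g (nat_lit 6) .nil .nil))) 
(.lf (nat_lit 165830) (.g (nat_lit 1814) (.e (nat_lit 57476) (nat_lit 28) (.e (nat_lit 557087) (nat_lit 11) (.e (nat_lit 24641) (nat_lit 10) (.e (nat_lit 344119) (nat_lit 21) .nil)))) .nil))) (.nd (nat_lit 6) 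
(.lf (nat_lit 165798) (.g (nat_lit 4486) (.e (nat_lit 57475) (nat_lit 28) (.e (nat_lit 557109) (nat_lit 15) (.e (nat_lit 188452) (nat_lit 23) (.e (nat_lit 204852) (nat_lit 26) .nil)))) .nil)) 
(.lf (nat_lit 165862) (.g (nat_lit 1572) (.e (nat_lit 57476) (nat_lit 28) (.e (nat_lit 557097) (nat_lit 13) (.e (nat_lit 172067) (nat_lit 3) (.e (nat_lit 204809) (nat_lit 9) .nil)))) .nil)))) (.nd (nat_lit 5) (.nd (nat_lit 6) 
(.lf (nat_lit 165782) (.g (nat_lit 5112) (.e (nat_lit 57475) (nat_lit 28) (.e (nat_lit 557108) (nat_lit 15) (.e (nat_lit 188452) (nat_lit 23) (.e (nat_lit 204854) (nat_lit 26) .nil)))) .nil)) 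
(.lf (nat_lit 165846) (.g (nat_lit 3164) (.e (nat_lit 57476) (nat_lit 28) (.e (nat_lit 557090) (nat_lit 12) (.e (nat_lit 164054) (nat_lit 56) (.e (nat_lit 786455) (nat_lit 17) (.e (nat_lit 90170) (nat_lit 13) (.e (nat_lit 172067) (nat_lit 3) (.e (nat_lit 204834) (nat_lit 19) (.e (nat_lit 106537) (nat_lit 12) .nil)))))))) (.g (nat_lit 5) .nil .nil)))) (.nd (nat_lit 6) 
(.lf (nat_lit 165814) (.g (nat_lit 2084) (.e (nat_lit 57476) (nat_lit 28) (.e (nat_lit 557067) (nat_lit 9) (.e (nat_lit 2828) (nat_lit 182) (.e (nat_lit 409646) (nat_lit 18) (.e (nat_lit 311040) (nat_lit 34) .nil))))) .nil)) 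
(.lf (nat_lit 165878) (.g (nat_lit 3591) (.e (nat_lit 57476) (nat_lit 28) (.e (nat_lit 557097) (nat_lit 13) (.e (nat_lit 172097) (nat_lit 9) (.e (nat_lit 426125) (nat_lit 2) (.e (nat_lit 196666) (nat_lit 13) (.e (nat_lit 65550) (nat_lit 0) (.e (nat_lit 1023) (nat_lit 81) (.e (nat_lit 5905) (nat_lit 320) (.e (nat_lit 1170) (nat_lit 87) .nil))))))))) (.g (nat_lit 5) .nil .nil)))))) 
(.nd (nat_lit 4) (.nd (nat_lit 5) (.nd (nat_lit 6) 
(.lf (nat_lit 165774) (.g (nat_lit 2666) (.e (nat_lit 57475) (nat_lit 28) (.e (nat_lit 557105) (nat_lit 14) (.e (nat_lit 180252) (nat_lit 10) (.e (nat_lit 573487) (nat_lit 14) .nil)))) .nil)) 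
(.lf (nat_lit 165838) (.g (nat_lit 1048) (.e (nat_lit 57476) (nat_lit 28) (.e (nat_lit 557090) (nat_lit 12) (.e (nat_lit 164038) (nat_lit 55) .nil))) .nil))) (.nd (nat_lit 6) 
(.lf (nat_lit 165806) (.g (nat_lit 4605) (.e (nat_lit 57475) (nat_lit 28) (.e (nat_lit 557109) (nat_lit 15) (.e (nat_lit 188452) (nat_lit 23) (.e (nat_lit 204881) (nat_lit 32) .nil)))) .nil)) 
(.lf (nat_lit 165870) (.g (nat_lit 4093) (.e (nat_lit 57476) (nat_lit 28) (.e (nat_lit 557097) (nat_lit 13) (.e (nat_lit 172097) (nat_lit 9) (.e (nat_lit 426125) (nat_lit 2) (.e (nat_lit 196662) (nat_lit 13) (.e (nat_lit 65637) (nat_lit 15) (.e (nat_lit 3632) (nat_lit 227) (.e (nat_lit 778317) (nat_lit 3) .nil)))))))) (.g (nat_lit 4) .nil .nil))))) (.nd (nat_lit 5) (.nd (nat_lit 6) 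
(.lf (nat_lit 165790) (.g (nat_lit 5655) (.e (nat_lit 57475) (nat_lit 28) (.e (nat_lit 557109) (nat_lit 15) (.e (nat_lit 188449) (nat_lit 22) (.e (nat_lit 196622) (nat_lit 9) .nil)))) .nil)) 
(.lf (nat_lit 165854) (.g (nat_lit 3932) (.e (nat_lit 57476) (nat_lit 28) (.e (nat_lit 557095) (nat_lit 13) (.e (nat_lit 172106) (nat_lit 10) (.e (nat_lit 434231) (nat_lit 23) (.e (nat_lit 532563) (nat_lit 15) (.e (nat_lit 385093) (nat_lit 49) (.e (nat_lit 778317) (nat_lit 3) .nil))))))) (.g (nat_lit 5) .nil .nil)))) (.nd (nat_lit 6) 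
(.lf (nat_lit 165822) (.g (nat_lit 4142) (.e (nat_lit 57476) (nat_lit 28) (.e (nat_lit 557087) (nat_lit 11) (.e (nat_lit 24625) (nat_lit 9) (.e (nat_lit 336326) (nat_lit 18) .nil)))) .nil)) 
(.lf (nat_lit 165886) (.g (nat_lit 2799) (.e (nat_lit 57476) (nat_lit 28) (.e (nat_lit 557097) (nat_lit 13) (.e (nat_lit 172097) (nat_lit 9) (.e (nat_lit 426125) (nat_lit 2) (.e (nat_lit 196666) (nat_lit 13) (.e (nat_lit 65563) (nat_lit 1) (.e (nat_lit 57871) (nat_lit 264) (.e (nat_lit 1170) (nat_lit 87) .nil)))))))) (.g (nat_lit 5) .nil .nil))))))))) 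
(.nd (nat_lit 1) (.nd (nat_lit 2) (.nd (nat_lit 3) (.nd (nat_lit 4) (.nd (nat_lit 5) 
(.nd (nat_lit 6) 
(.lf (nat_lit 165761) (.g (nat_lit 2265) (.e (nat_lit 57475) (nat_lit 28) (.e (nat_lit 557098) (nat_lit 13) (.e (nat_lit 172115) (nat_lit 10) (.e (nat_lit 434231) (nat_lit 23) (.e (nat_lit 532543) (nat_lit 10) .nil))))) .nil)) 
(.lf (nat_lit 165825) (.g (nat_lit 3899) (.e (nat_lit 57476) (nat_lit 28) (.e (nat_lit 557087) (nat_lit 11) (.e (nat_lit 24625) (nat_lit 9) (.e (nat_lit 336456) (nat_lit 34) .nil)))) .nil))) (.nd (nat_lit 6) 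
(.lf (nat_lit 165793) (.g (nat_lit 5343) (.e (nat_lit 57475) (nat_lit 28) (.e (nat_lit 557109) (nat_lit 15) (.e (nat_lit 188449) (nat_lit 22) (.e (nat_lit 196668) (nat_lit 14) .nil)))) .nil)) 
(.lf (nat_lit 165857) (.g (nat_lit 3129) (.e (nat_lit 57476) (nat_lit 28) (.e (nat_lit 557096) (nat_lit 13) (.e (nat_lit 172106) (nat_lit 10) (.e (nat_lit 434231) (nat_lit 23) (.e (nat_lit 532563) (nat_lit 15) (.e (nat_lit 385093) (nat_lit 49) (.e (nat_lit 778317) (nat_lit 3) .nil))))))) (.g (nat_lit 4) .nil .nil))))) (.nd (nat_lit 5) (.nd (nat_lit 6) 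
(.lf (nat_lit 165777) (.g (nat_lit 2497) (.e (nat_lit 57475) (nat_lit 28) (.e (nat_lit 557105) (nat_lit 14) (.e (nat_lit 180252) (nat_lit 10) (.e (nat_lit 573489) (nat_lit 14) (.e (nat_lit 73755) (nat_lit 8) .nil))))) .nil)) 
(.lf (nat_lit 165841) (.g (nat_lit 2898) (.e (nat_lit 57476) (nat_lit 28) (.e (nat_lit 557090) (nat_lit 12) (.e (nat_lit 164038) (nat_lit 55) (.e (nat_lit 778318) (nat_lit 3) (.e (nat_lit 57464) (nat_lit 23) (.e (nat_lit 516160) (nat_lit 10) (.e (nat_lit 434231) (nat_lit 23) (.e (nat_lit 532507) (nat_lit 2) (.e (nat_lit 106537) (nat_lit 12) .nil))))))))) (.g (nat_lit 4) .nil .nil)))) 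
(.nd (nat_lit 6) 
(.lf (nat_lit 165809) (.g (nat_lit 2127) (.e (nat_lit 57476) (nat_lit 28) (.e (nat_lit 557065) (nat_lit 9) (.e (nat_lit 2830) (nat_lit 182) (.e (nat_lit 409648) (nat_lit 18) (.e (nat_lit 311040) (nat_lit 34) .nil))))) .nil)) 
(.lf (nat_lit 165873) (.g (nat_lit 2764) (.e (nat_lit 57476) (nat_lit 28) (.e (nat_lit 557097) (nat_lit 13) (.e (nat_lit 172097) (nat_lit 9) (.e (nat_lit 426125) (nat_lit 2) (.e (nat_lit 196666) (nat_lit 13) (.e (nat_lit 65546) (nat_lit 0) (.e (nat_lit 1023) (nat_lit 81) (.e (nat_lit 5906) (nat_lit 320) (.e (nat_lit 1170) (nat_lit 87) .nil))))))))) (.g (nat_lit 5) .nil .nil)))))) 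
(.nd (nat_lit 4) (.nd (nat_lit 5) (.nd (nat_lit 6) 
(.lf (nat_lit 165769) (.g (nat_lit 1948) (.e (nat_lit 57475) (nat_lit 28) (.e (nat_lit 557104) (nat_lit 14) (.e (nat_lit 180252) (nat_lit 10) (.e (nat_lit 573482) (nat_lit 13) .nil)))) .nil)) 
(.lf (nat_lit 165833) (.g (nat_lit 2156) (.e (nat_lit 57476) (nat_lit 28) (.e (nat_lit 557087) (nat_lit 11) (.e (nat_lit 24658) (nat_lit 13) (.e (nat_lit 393258) (nat_lit 20) .nil)))) .nil))) (.nd (nat_lit 6) 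
(.lf (nat_lit 165801) (.g (nat_lit 4721) (.e (nat_lit 57475) (nat_lit 28) (.e (nat_lit 557109) (nat_lit 15) (.e (nat_lit 188452) (nat_lit 23) (.e (nat_lit 204859) (nat_lit 26) .nil)))) .nil)) 
(.lf (nat_lit 165865) (.g (nat_lit 3421) (.e (nat_lit 57476) (nat_lit 28) (.e (nat_lit 557097) (nat_lit 13) (.e (nat_lit 172085) (nat_lit 9) (.e (nat_lit 426131) (nat_lit 3) (.e (nat_lit 204880) (nat_lit 32) (.e (nat_lit 385094) (nat_lit 49) (.e (nat_lit 778317) (nat_lit 3) .nil))))))) (.g (nat_lit 0) .nil .nil))))) (.nd (nat_lit 5) (.nd (nat_lit 6) 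
(.lf (nat_lit 165785) (.g (nat_lit 5883) (.e (nat_lit 57475) (nat_lit 28) (.e (nat_lit 557108) (nat_lit 15) (.e (nat_lit 188452) (nat_lit 23) (.e (nat_lit 204861) (nat_lit 26) .nil)))) .nil)) 
(.lf (nat_lit 165849) (.g (nat_lit 2815) (.e (nat_lit 57476) (nat_lit 28) (.e (nat_lit 557090) (nat_lit 12) (.e (nat_lit 164056) (nat_lit 56) (.e (nat_lit 786455) (nat_lit 17) (.e (nat_lit 90170) (nat_lit 13) (.e (nat_lit 172065) (nat_lit 3) (.e (nat_lit 204834) (nat_lit 19) (.e (nat_lit 106537) (nat_lit 12) .nil)))))))) (.g (nat_lit 5) .nil .nil)))) (.nd (nat_lit 6) 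
(.lf (nat_lit 165817) (.g (nat_lit 2042) (.e (nat_lit 57476) (nat_lit 28) (.e (nat_lit 557087) (nat_lit 11) (.e (nat_lit 24617) (nat_lit 7) (.e (nat_lit 319504) (nat_lit 10) .nil)))) .nil)) 
(.lf (nat_lit 165881) (.g (nat_lit 3209) (.e (nat_lit 57476) (nat_lit 28) (.e (nat_lit 557097) (nat_lit 13) (.e (nat_lit 172097) (nat_lit 9) (.e (nat_lit 426125) (nat_lit 2) (.e (nat_lit 196666) (nat_lit 13) (.e (nat_lit 65553) (nat_lit 0) (.e (nat_lit 1023) (nat_lit 81) (.e (nat_lit 5905) (nat_lit 320) (.e (nat_lit 1171) (nat_lit 87) .nil))))))))) (.g (nat_lit 6) .nil .nil))))))) 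
(.nd (nat_lit 3) (.nd (nat_lit 4) (.nd (nat_lit 5) (.nd (nat_lit 6) 
(.lf (nat_lit 165765) (.g (nat_lit 4164) (.e (nat_lit 57475) (nat_lit 28) (.e (nat_lit 557100) (nat_lit 13) (.e (nat_lit 172106) (nat_lit 10) (.e (nat_lit 434231) (nat_lit 23) (.e (nat_lit 532563) (nat_lit 15) (.e (nat_lit 385093) (nat_lit 49) (.e (nat_lit 778317) (nat_lit 3) .nil))))))) (.g (nat_lit 5) .nil .nil))) 
(.lf (nat_lit 165829) (.g (nat_lit 3238) (.e (nat_lit 57476) (nat_lit 28) (.e (nat_lit 557087) (nat_lit 11) (.e (nat_lit 24640) (nat_lit 10) (.e (nat_lit 344117) (nat_lit 21) (.e (nat_lit 516139) (nat_lit 7) .nil))))) .nil))) (.nd (nat_lit 6) 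
(.lf (nat_lit 165797) (.g (nat_lit 4616) (.e (nat_lit 57475) (nat_lit 28) (.e (nat_lit 557109) (nat_lit 15) (.e (nat_lit 188452) (nat_lit 23) (.e (nat_lit 204851) (nat_lit 26) .nil)))) .nil)) 
(.lf (nat_lit 165861) (.g (nat_lit 2212) (.e (nat_lit 57476) (nat_lit 28) (.e (nat_lit 557097) (nat_lit 13) (.e (nat_lit 172061) (nat_lit 1) (.e (nat_lit 164396) (nat_lit 256) (.e (nat_lit 57448) (nat_lit 19) (.e (nat_lit 393234) (nat_lit 17) (.e (nat_lit 7583) (nat_lit 405) .nil))))))) (.g (nat_lit 5) .nil .nil))))) (.nd (nat_lit 5) (.nd (nat_lit 6) 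
(.lf (nat_lit 165781) (.g (nat_lit 4055) (.e (nat_lit 57475) (nat_lit 28) (.e (nat_lit 557108) (nat_lit 15) (.e (nat_lit 188452) (nat_lit 23) (.e (nat_lit 204853) (nat_lit 26) .nil)))) .nil)) 
(.lf (nat_lit 165845) (.g (nat_lit 3372) (.e (nat_lit 57476) (nat_lit 28) (.e (nat_lit 557090) (nat_lit 12) (.e (nat_lit 164054) (nat_lit 56) (.e (nat_lit 786455) (nat_lit 17) (.e (nat_lit 90170) (nat_lit 13) (.e (nat_lit 172065) (nat_lit 3) (.e (nat_lit 204834) (nat_lit 19) (.e (nat_lit 106537) (nat_lit 12) .nil)))))))) (.g (nat_lit 5) .nil .nil)))) (.nd (nat_lit 6) 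
(.lf (nat_lit 165813) (.g (nat_lit 2561) (.e (nat_lit 57476) (nat_lit 28) (.e (nat_lit 557066) (nat_lit 9) (.e (nat_lit 321) (nat_lit 24) (.e (nat_lit 360467) (nat_lit 3) (.e (nat_lit 516139) (nat_lit 7) (.e (nat_lit 409616) (nat_lit 10) (.e (nat_lit 7936) (nat_lit 301) .nil))))))) (.g (nat_lit 6) .nil .nil))) 
(.lf (nat_lit 165877) (.g (nat_lit 3803) (.e (nat_lit 57476) (nat_lit 28) (.e (nat_lit 557097) (nat_lit 13) (.e (nat_lit 172097) (nat_lit 9) (.e (nat_lit 426125) (nat_lit 2) (.e (nat_lit 196666) (nat_lit 13) (.e (nat_lit 65546) (nat_lit 0) (.e (nat_lit 2006) (nat_lit 138) (.e (nat_lit 671757) (nat_lit 3) .nil)))))))) (.g (nat_lit 0) .nil .nil)))))) 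
(.nd (nat_lit 4) (.nd (nat_lit 5) (.nd (nat_lit 6) 
(.lf (nat_lit 165773) (.g (nat_lit 2683) (.e (nat_lit 57475) (nat_lit 28) (.e (nat_lit 557105) (nat_lit 14) (.e (nat_lit 180252) (nat_lit 10) (.e (nat_lit 573482) (nat_lit 13) .nil)))) .nil)) 
(.lf (nat_lit 165837) (.g (nat_lit 1716) (.e (nat_lit 57476) (nat_lit 28) (.e (nat_lit 557089) (nat_lit 12) (.e (nat_lit 164058) (nat_lit 56) (.e (nat_lit 786455) (nat_lit 17) (.e (nat_lit 90170) (nat_lit 13) (.e (nat_lit 172065) (nat_lit 3) (.e (nat_lit 204834) (nat_lit 19) (.e (nat_lit 106537) (nat_lit 12) .nil)))))))) (.g (nat_lit 5) .nil .nil)))) (.nd (nat_lit 6) 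
(.lf (nat_lit 165805) (.g (nat_lit 4910) (.e (nat_lit 57475) (nat_lit 28) (.e (nat_lit 557109) (nat_lit 15) (.e (nat_lit 188452) (nat_lit 23) (.e (nat_lit 204874) (nat_lit 30) .nil)))) .nil)) 
(.lf (nat_lit 165869) (.g (nat_lit 2033) (.e (nat_lit 57476) (nat_lit 28) (.e (nat_lit 557097) (nat_lit 13) (.e (nat_lit 172097) (nat_lit 9) (.e (nat_lit 426125) (nat_lit 2) (.e (nat_lit 196630) (nat_lit 9) (.e (nat_lit 1626) (nat_lit 114) (.e (nat_lit 385092) (nat_lit 49) (.e (nat_lit 778317) (nat_lit 3) .nil)))))))) (.g (nat_lit 4) .nil .nil))))) (.nd (nat_lit 5) (.nd (nat_lit 6) 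
(.lf (nat_lit 165789) (.g (nat_lit 3965) (.e (nat_lit 57475) (nat_lit 28) (.e (nat_lit 557108) (nat_lit 15) (.e (nat_lit 188452) (nat_lit 23) (.e (nat_lit 204881) (nat_lit 32) .nil)))) .nil)) 
(.lf (nat_lit 165853) (.g (nat_lit 1533) (.e (nat_lit 57476) (nat_lit 28) (.e (nat_lit 557090) (nat_lit 12) (.e (nat_lit 164238) (nat_lit 187) (.e (nat_lit 1638) (nat_lit 114) .nil)))) .nil))) (.nd (nat_lit 6) 
(.lf (nat_lit 165821) (.g (nat_lit 523) (.e (nat_lit 57476) (nat_lit 28) (.e (nat_lit 557087) (nat_lit 11) (.e (nat_lit 24625) (nat_lit 9) .nil))) .nil)) 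
(.lf (nat_lit 165885) (.g (nat_lit 3797) (.e (nat_lit 57476) (nat_lit 28) (.e (nat_lit 557097) (nat_lit 13) (.e (nat_lit 172097) (nat_lit 9) (.e (nat_lit 426125) (nat_lit 2) (.e (nat_lit 196666) (nat_lit 13) (.e (nat_lit 65563) (nat_lit 1) (.e (nat_lit 57870) (nat_lit 264) (.e (nat_lit 1171) (nat_lit 87) .nil)))))))) (.g (nat_lit 0) .nil .nil)))))))) 
(.nd (nat_lit 2) (.nd (nat_lit 3) (.nd (nat_lit 4) (.nd (nat_lit 5) (.nd (nat_lit 6) 
(.lf (nat_lit 165763) (.g (nat_lit 2299) (.e (nat_lit 57475) (nat_lit 28) (.e (nat_lit 557100) (nat_lit 13) (.e (nat_lit 172106) (nat_lit 10) (.e (nat_lit 434231) (nat_lit 23) .nil)))) .nil)) 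
(.lf (nat_lit 165827) (.g (nat_lit 1580) (.e (nat_lit 57476) (nat_lit 28) (.e (nat_lit 557087) (nat_lit 11) (.e (nat_lit 24636) (nat_lit 9) (.e (nat_lit 336017) (nat_lit 3) .nil)))) .nil))) (.nd (nat_lit 6) 
(.lf (nat_lit 165795) (.g (nat_lit 5631) (.e (nat_lit 57475) (nat_lit 28) (.e (nat_lit 557109) (nat_lit 15) (.e (nat_lit 188449) (nat_lit 22) (.e (nat_lit 196681) (nat_lit 17) .nil)))) .nil)) 
(.lf (nat_lit 165859) (.g (nat_lit 3181) (.e (nat_lit 57476) (nat_lit 28) (.e (nat_lit 557097) (nat_lit 13) (.e (nat_lit 172059) (nat_lit 1) (.e (nat_lit 164398) (nat_lit 256) (.e (nat_lit 57448) (nat_lit 19) (.e (nat_lit 393234) (nat_lit 17) (.e (nat_lit 7581) (nat_lit 405) .nil))))))) (.g (nat_lit 6) .nil .nil))))) (.nd (nat_lit 5) (.nd (nat_lit 6) 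
(.lf (nat_lit 165779) (.g (nat_lit 4076) (.e (nat_lit 57475) (nat_lit 28) (.e (nat_lit 557108) (nat_lit 15) (.e (nat_lit 188452) (nat_lit 23) (.e (nat_lit 204851) (nat_lit 26) .nil)))) .nil)) 
(.lf (nat_lit 165843) (.g (nat_lit 2610) (.e (nat_lit 57476) (nat_lit 28) (.e (nat_lit 557090) (nat_lit 12) (.e (nat_lit 164053) (nat_lit 56) (.e (nat_lit 786455) (nat_lit 17) (.e (nat_lit 90170) (nat_lit 13) (.e (nat_lit 172067) (nat_lit 3) (.e (nat_lit 204834) (nat_lit 19) (.e (nat_lit 106537) (nat_lit 12) .nil)))))))) (.g (nat_lit 5) .nil .nil)))) (.nd (nat_lit 6) 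
(.lf (nat_lit 165811) (.g (nat_lit 4750) (.e (nat_lit 57476) (nat_lit 28) (.e (nat_lit 557066) (nat_lit 9) (.e (nat_lit 307) (nat_lit 22) (.e (nat_lit 344169) (nat_lit 40) (.e (nat_lit 671759) (nat_lit 3) (.e (nat_lit 57479) (nat_lit 28) (.e (nat_lit 557103) (nat_lit 14) (.e (nat_lit 188160) (nat_lit 35) .nil)))))))) (.g (nat_lit 7) .nil .nil))) 
(.lf (nat_lit 165875) (.g (nat_lit 3089) (.e (nat_lit 57476) (nat_lit 28) (.e (nat_lit 557097) (nat_lit 13) (.e (nat_lit 172097) (nat_lit 9) (.e (nat_lit 426125) (nat_lit 2) (.e (nat_lit 196666) (nat_lit 13) (.e (nat_lit 65546) (nat_lit 0) (.e (nat_lit 1023) (nat_lit 81) (.e (nat_lit 5907) (nat_lit 320) (.e (nat_lit 1172) (nat_lit 87) .nil))))))))) (.g (nat_lit 6) .nil .nil)))))) 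
(.nd (nat_lit 4) (.nd (nat_lit 5) (.nd (nat_lit 6) 
(.lf (nat_lit 165771) (.g (nat_lit 2656) (.e (nat_lit 57475) (nat_lit 28) (.e (nat_lit 557105) (nat_lit 14) (.e (nat_lit 180252) (nat_lit 10) (.e (nat_lit 573480) (nat_lit 13) .nil)))) .nil)) 
(.lf (nat_lit 165835) (.g (nat_lit 1393) (.e (nat_lit 57476) (nat_lit 28) (.e (nat_lit 557087) (nat_lit 11) (.e (nat_lit 24660) (nat_lit 13) (.e (nat_lit 401152) (nat_lit 10) .nil)))) .nil))) (.nd (nat_lit 6) 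
(.lf (nat_lit 165803) (.g (nat_lit 4601) (.e (nat_lit 57475) (nat_lit 28) (.e (nat_lit 557109) (nat_lit 15) (.e (nat_lit 188452) (nat_lit 23) (.e (nat_lit 204872) (nat_lit 30) .nil)))) .nil)) 
(.lf (nat_lit 165867) (.g (nat_lit 1925) (.e (nat_lit 57476) (nat_lit 28) (.e (nat_lit 557097) (nat_lit 13) (.e (nat_lit 172087) (nat_lit 9) (.e (nat_lit 426131) (nat_lit 3) (.e (nat_lit 204880) (nat_lit 32) (.e (nat_lit 385094) (nat_lit 49) (.e (nat_lit 778318) (nat_lit 3) .nil))))))) (.g (nat_lit 4) .nil .nil))))) (.nd (nat_lit 5) (.nd (nat_lit 6) 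
(.lf (nat_lit 165787) (.g (nat_lit 4281) (.e (nat_lit 57475) (nat_lit 28) (.e (nat_lit 557108) (nat_lit 15) (.e (nat_lit 188452) (nat_lit 23) (.e (nat_lit 204873) (nat_lit 30) .nil)))) .nil)) 
(.lf (nat_lit 165851) (.g (nat_lit 2286) (.e (nat_lit 57476) (nat_lit 28) (.e (nat_lit 557090) (nat_lit 12) (.e (nat_lit 164056) (nat_lit 56) (.e (nat_lit 786455) (nat_lit 17) (.e (nat_lit 90174) (nat_lit 14) (.e (nat_lit 180243) (nat_lit 5) (.e (nat_lit 532508) (nat_lit 2) (.e (nat_lit 106537) (nat_lit 12) .nil)))))))) (.g (nat_lit 5) .nil .nil)))) (.nd (nat_lit 6) 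
(.lf (nat_lit 165819) (.g (nat_lit 1739) (.e (nat_lit 57476) (nat_lit 28) (.e (nat_lit 557087) (nat_lit 11) (.e (nat_lit 24617) (nat_lit 7) (.e (nat_lit 319505) (nat_lit 10) .nil)))) .nil)) 
(.lf (nat_lit 165883) (.g (nat_lit 3860) (.e (nat_lit 57476) (nat_lit 28) (.e (nat_lit 557097) (nat_lit 13) (.e (nat_lit 172097) (nat_lit 9) (.e (nat_lit 426125) (nat_lit 2) (.e (nat_lit 196666) (nat_lit 13) (.e (nat_lit 65553) (nat_lit 0) (.e (nat_lit 2006) (nat_lit 138) (.e (nat_lit 671757) (nat_lit 3) .nil)))))))) (.g (nat_lit 0) .nil .nil))))))) 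
(.nd (nat_lit 3) (.nd (nat_lit 4) (.nd (nat_lit 5) (.nd (nat_lit 6) 
(.lf (nat_lit 165767) (.g (nat_lit 6797) (.e (nat_lit 57475) (nat_lit 28) (.e (nat_lit 557100) (nat_lit 13) (.e (nat_lit 172106) (nat_lit 10) (.e (nat_lit 434231) (nat_lit 23) (.e (nat_lit 532563) (nat_lit 15) (.e (nat_lit 385094) (nat_lit 49) (.e (nat_lit 778317) (nat_lit 3) .nil))))))) (.g (nat_lit 0) .nil .nil))) 
(.lf (nat_lit 165831) (.g (nat_lit 2486) (.e (nat_lit 57476) (nat_lit 28) (.e (nat_lit 557087) (nat_lit 11) (.e (nat_lit 24648) (nat_lit 12) (.e (nat_lit 385066) (nat_lit 26) .nil)))) .nil))) (.nd (nat_lit 6) 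
(.lf (nat_lit 165799) (.g (nat_lit 4679) (.e (nat_lit 57475) (nat_lit 28) (.e (nat_lit 557109) (nat_lit 15) (.e (nat_lit 188452) (nat_lit 23) (.e (nat_lit 204853) (nat_lit 26) .nil)))) .nil)) 
(.lf (nat_lit 165863) (.g (nat_lit 3393) (.e (nat_lit 57476) (nat_lit 28) (.e (nat_lit 557097) (nat_lit 13) (.e (nat_lit 172067) (nat_lit 3) (.e (nat_lit 204809) (nat_lit 9) (.e (nat_lit 426124) (nat_lit 2) (.e (nat_lit 196651) (nat_lit 10) (.e (nat_lit 16128) (nat_lit 194) .nil))))))) (.g (nat_lit 5) .nil .nil))))) (.nd (nat_lit 5) (.nd (nat_lit 6) 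
(.lf (nat_lit 165783) (.g (nat_lit 5724) (.e (nat_lit 57475) (nat_lit 28) (.e (nat_lit 557108) (nat_lit 15) (.e (nat_lit 188452) (nat_lit 23) (.e (nat_lit 204859) (nat_lit 26) .nil)))) .nil)) 
(.lf (nat_lit 165847) (.g (nat_lit 2841) (.e (nat_lit 57476) (nat_lit 28) (.e (nat_lit 557090) (nat_lit 12) (.e (nat_lit 164054) (nat_lit 56) (.e (nat_lit 786455) (nat_lit 17) (.e (nat_lit 90174) (nat_lit 14) (.e (nat_lit 180243) (nat_lit 5) (.e (nat_lit 532508) (nat_lit 2) (.e (nat_lit 106537) (nat_lit 12) .nil)))))))) (.g (nat_lit 5) .nil .nil)))) (.nd (nat_lit 6) 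
(.lf (nat_lit 165815) (.g (nat_lit 961) (.e (nat_lit 57476) (nat_lit 28) (.e (nat_lit 557087) (nat_lit 11) (.e (nat_lit 24606) (nat_lit 3) .nil))) .nil)) 
(.lf (nat_lit 165879) (.g (nat_lit 3357) (.e (nat_lit 57476) (nat_lit 28) (.e (nat_lit 557097) (nat_lit 13) (.e (nat_lit 172097) (nat_lit 9) (.e (nat_lit 426125) (nat_lit 2) (.e (nat_lit 196666) (nat_lit 13) (.e (nat_lit 65550) (nat_lit 0) (.e (nat_lit 1023) (nat_lit 81) (.e (nat_lit 5906) (nat_lit 320) (.e (nat_lit 1170) (nat_lit 87) .nil))))))))) (.g (nat_lit 5) .nil .nil)))))) 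
(.nd (nat_lit 4) (.nd (nat_lit 5) (.nd (nat_lit 6) 
(.lf (nat_lit 165775) (.g (nat_lit 2682) (.e (nat_lit 57475) (nat_lit 28) (.e (nat_lit 557105) (nat_lit 14) (.e (nat_lit 180252) (nat_lit 10) (.e (nat_lit 573488) (nat_lit 14) .nil)))) .nil)) 
(.lf (nat_lit 165839) (.g (nat_lit 3929) (.e (nat_lit 57476) (nat_lit 28) (.e (nat_lit 557090) (nat_lit 12) (.e (nat_lit 164038) (nat_lit 55) (.e (nat_lit 778246) (nat_lit 0) (.e (nat_lit 1239) (nat_lit 91) (.e (nat_lit 90170) (nat_lit 13) (.e (nat_lit 172065) (nat_lit 3) (.e (nat_lit 204834) (nat_lit 19) (.e (nat_lit 106537) (nat_lit 12) .nil))))))))) (.g (nat_lit 6) .nil .nil)))) 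
(.nd (nat_lit 6) 
(.lf (nat_lit 165807) (.g (nat_lit 923) (.e (nat_lit 57475) (nat_lit 28) (.e (nat_lit 557109) (nat_lit 15) (.e (nat_lit 188458) (nat_lit 25) .nil))) .nil)) 
(.lf (nat_lit 165871) (.g (nat_lit 4489) (.e (nat_lit 57476) (nat_lit 28) (.e (nat_lit 557097) (nat_lit 13) (.e (nat_lit 172097) (nat_lit 9) (.e (nat_lit 426125) (nat_lit 2) (.e (nat_lit 196664) (nat_lit 13) .nil))))) .nil)))) (.nd (nat_lit 5) (.nd (nat_lit 6) 
(.lf (nat_lit 165791) (.g (nat_lit 4107) (.e (nat_lit 57475) (nat_lit 28) (.e (nat_lit 557109) (nat_lit 15) (.e (nat_lit 188449) (nat_lit 22) (.e (nat_lit 196628) (nat_lit 9) .nil)))) .nil)) 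
(.lf (nat_lit 165855) (.g (nat_lit 5299) (.e (nat_lit 57476) (nat_lit 28) (.e (nat_lit 557095) (nat_lit 13) (.e (nat_lit 172106) (nat_lit 10) (.e (nat_lit 434231) (nat_lit 23) (.e (nat_lit 532563) (nat_lit 15) (.e (nat_lit 385094) (nat_lit 49) (.e (nat_lit 778317) (nat_lit 3) .nil))))))) (.g (nat_lit 7) .nil .nil)))) (.nd (nat_lit 6) 
(.lf (nat_lit 165823) (.g (nat_lit 3784) (.e (nat_lit 57476) (nat_lit 28) (.e (nat_lit 557087) (nat_lit 11) (.e (nat_lit 24625) (nat_lit 9) (.e (nat_lit 336367) (nat_lit 27) .nil)))) .nil)) 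
(.lf (nat_lit 165887) (.g (nat_lit 2892) (.e (nat_lit 57476) (nat_lit 28) (.e (nat_lit 557097) (nat_lit 13) (.e (nat_lit 172097) (nat_lit 9) (.e (nat_lit 426125) (nat_lit 2) (.e (nat_lit 196666) (nat_lit 13) (.e (nat_lit 65563) (nat_lit 1) (.e (nat_lit 57872) (nat_lit 264) (.e (nat_lit 1170) (nat_lit 87) .nil)))))))) (.g (nat_lit 5) .nil .nil))))))))))

noncomputable def tv2224 : DT := (.nd (nat_lit 0) (.nd (nat_lit 1) (.nd (nat_lit 2) (.nd (nat_lit 3) (.nd (nat_lit 4) (.nd (nat_lit 5) 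
(.lf (nat_lit 165888) (.g (nat_lit 3139) (.e (nat_lit 57476) (nat_lit 28) (.e (nat_lit 557097) (nat_lit 13) (.e (nat_lit 172097) (nat_lit 9) (.e (nat_lit 426125) (nat_lit 2) (.e (nat_lit 196666) (nat_lit 13) (.e (nat_lit 65563) (nat_lit 1) (.e (nat_lit 57873) (nat_lit 264) (.e (nat_lit 1170) (nat_lit 87) .nil)))))))) (.g (nat_lit 5) .nil .nil))) 
(.lf (nat_lit 165920) (.g (nat_lit 2857) (.e (nat_lit 57476) (nat_lit 28) (.e (nat_lit 557097) (nat_lit 13) (.e (nat_lit 172097) (nat_lit 9) (.e (nat_lit 426140) (nat_lit 3) (.e (nat_lit 204855) (nat_lit 26) (.e (nat_lit 335925) (nat_lit 0) (.e (nat_lit 2006) (nat_lit 138) (.e (nat_lit 671757) (nat_lit 3) .nil)))))))) (.g (nat_lit 5) .nil .nil)))) (.nd (nat_lit 5) 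
(.lf (nat_lit 165904) (.g (nat_lit 4877) (.e (nat_lit 57476) (nat_lit 28) (.e (nat_lit 557097) (nat_lit 13) (.e (nat_lit 172097) (nat_lit 9) (.e (nat_lit 426125) (nat_lit 2) (.e (nat_lit 196666) (nat_lit 13) (.e (nat_lit 65642) (nat_lit 15) (.e (nat_lit 3631) (nat_lit 227) (.e (nat_lit 778317) (nat_lit 3) .nil)))))))) (.g (nat_lit 0) .nil .nil))) 
(.lf (nat_lit 165936) (.g (nat_lit 2850) (.e (nat_lit 57476) (nat_lit 28) (.e (nat_lit 557097) (nat_lit 13) (.e (nat_lit 172097) (nat_lit 9) (.e (nat_lit 426140) (nat_lit 3) (.e (nat_lit 204855) (nat_lit 26) (.e (nat_lit 336290) (nat_lit 15) (.e (nat_lit 3715) (nat_lit 227) (.e (nat_lit 778316) (nat_lit 3) .nil)))))))) (.g (nat_lit 5) .nil .nil))))) (.nd (nat_lit 4) (.nd (nat_lit 5) 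
(.lf (nat_lit 165896) (.g (nat_lit 3112) (.e (nat_lit 57476) (nat_lit 28) (.e (nat_lit 557097) (nat_lit 13) (.e (nat_lit 172097) (nat_lit 9) (.e (nat_lit 426125) (nat_lit 2) (.e (nat_lit 196666) (nat_lit 13) (.e (nat_lit 65565) (nat_lit 1) (.e (nat_lit 57873) (nat_lit 264) (.e (nat_lit 1170) (nat_lit 87) .nil)))))))) (.g (nat_lit 5) .nil .nil))) 
(.lf (nat_lit 165928) (.g (nat_lit 3486) (.e (nat_lit 57476) (nat_lit 28) (.e (nat_lit 557097) (nat_lit 13) (.e (nat_lit 172097) (nat_lit 9) (.e (nat_lit 426140) (nat_lit 3) (.e (nat_lit 204855) (nat_lit 26) (.e (nat_lit 335992) (nat_lit 1) (.e (nat_lit 57870) (nat_lit 264) (.e (nat_lit 1172) (nat_lit 87) .nil)))))))) (.g (nat_lit 7) .nil .nil)))) (.nd (nat_lit 5) 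
(.lf (nat_lit 165912) (.g (nat_lit 2349) (.e (nat_lit 57476) (nat_lit 28) (.e (nat_lit 557097) (nat_lit 13) (.e (nat_lit 172097) (nat_lit 9) (.e (nat_lit 426140) (nat_lit 3) (.e (nat_lit 204850) (nat_lit 26) (.e (nat_lit 335997) (nat_lit 1) (.e (nat_lit 57871) (nat_lit 264) (.e (nat_lit 1170) (nat_lit 87) .nil)))))))) (.g (nat_lit 4) .nil .nil))) 
(.lf (nat_lit 165944) (.g (nat_lit 2338) (.e (nat_lit 57476) (nat_lit 28) (.e (nat_lit 557097) (nat_lit 13) (.e (nat_lit 172097) (nat_lit 9) (.e (nat_lit 426140) (nat_lit 3) (.e (nat_lit 204857) (nat_lit 26) .nil))))) .nil))))) (.nd (nat_lit 3) (.nd (nat_lit 4) (.nd (nat_lit 5) 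
(.lf (nat_lit 165892) (.g (nat_lit 2681) (.e (nat_lit 57476) (nat_lit 28) (.e (nat_lit 557097) (nat_lit 13) (.e (nat_lit 172097) (nat_lit 9) (.e (nat_lit 426125) (nat_lit 2) (.e (nat_lit 196666) (nat_lit 13) (.e (nat_lit 65565) (nat_lit 1) (.e (nat_lit 57871) (nat_lit 264) (.e (nat_lit 1170) (nat_lit 87) .nil)))))))) (.g (nat_lit 5) .nil .nil))) 
(.lf (nat_lit 165924) (.g (nat_lit 2336) (.e (nat_lit 57476) (nat_lit 28) (.e (nat_lit 557097) (nat_lit 13) (.e (nat_lit 172097) (nat_lit 9) (.e (nat_lit 426140) (nat_lit 3) (.e (nat_lit 204855) (nat_lit 26) (.e (nat_lit 335985) (nat_lit 1) (.e (nat_lit 57871) (nat_lit 264) (.e (nat_lit 1170) (nat_lit 87) .nil)))))))) (.g (nat_lit 4) .nil .nil)))) (.nd (nat_lit 5) 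
(.lf (nat_lit 165908) (.g (nat_lit 967) (.e (nat_lit 57476) (nat_lit 28) (.e (nat_lit 557097) (nat_lit 13) (.e (nat_lit 172097) (nat_lit 9) (.e (nat_lit 426140) (nat_lit 3) .nil)))) .nil)) 
(.lf (nat_lit 165940) (.g (nat_lit 2710) (.e (nat_lit 57476) (nat_lit 28) (.e (nat_lit 557097) (nat_lit 13) (.e (nat_lit 172097) (nat_lit 9) (.e (nat_lit 426140) (nat_lit 3) (.e (nat_lit 204855) (nat_lit 26) (.e (nat_lit 343808) (nat_lit 19) (.e (nat_lit 220928) (nat_lit 3) .nil))))))) (.g (nat_lit 5) .nil .nil))))) (.nd (nat_lit 4) (.nd (nat_lit 5) 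
(.lf (nat_lit 165900) (.g (nat_lit 1951) (.e (nat_lit 57476) (nat_lit 28) (.e (nat_lit 557097) (nat_lit 13) (.e (nat_lit 172097) (nat_lit 9) (.e (nat_lit 426125) (nat_lit 2) (.e (nat_lit 196666) (nat_lit 13) (.e (nat_lit 65574) (nat_lit 4) (.e (nat_lit 123182) (nat_lit 264) (.e (nat_lit 1174) (nat_lit 87) .nil)))))))) (.g (nat_lit 4) .nil .nil))) 
(.lf (nat_lit 165932) (.g (nat_lit 2915) (.e (nat_lit 57476) (nat_lit 28) (.e (nat_lit 557097) (nat_lit 13) (.e (nat_lit 172097) (nat_lit 9) (.e (nat_lit 426140) (nat_lit 3) (.e (nat_lit 204855) (nat_lit 26) (.e (nat_lit 336290) (nat_lit 15) (.e (nat_lit 3711) (nat_lit 227) (.e (nat_lit 778316) (nat_lit 3) .nil)))))))) (.g (nat_lit 5) .nil .nil)))) (.nd (nat_lit 5) 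
(.lf (nat_lit 165916) (.g (nat_lit 2240) (.e (nat_lit 57476) (nat_lit 28) (.e (nat_lit 557097) (nat_lit 13) (.e (nat_lit 172097) (nat_lit 9) (.e (nat_lit 426140) (nat_lit 3) (.e (nat_lit 204855) (nat_lit 26) (.e (nat_lit 335923) (nat_lit 0) (.e (nat_lit 1023) (nat_lit 81) (.e (nat_lit 5905) (nat_lit 320) (.e (nat_lit 1170) (nat_lit 87) .nil))))))))) (.g (nat_lit 4) .nil .nil))) 
(.lf (nat_lit 165948) (.g (nat_lit 3282) (.e (nat_lit 57476) (nat_lit 28) (.e (nat_lit 557097) (nat_lit 13) (.e (nat_lit 172097) (nat_lit 9) (.e (nat_lit 426140) (nat_lit 3) (.e (nat_lit 204862) (nat_lit 27) (.e (nat_lit 344097) (nat_lit 18) (.e (nat_lit 5905) (nat_lit 320) (.e (nat_lit 1172) (nat_lit 87) .nil)))))))) (.g (nat_lit 6) .nil .nil))))))) 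
(.nd (nat_lit 2) (.nd (nat_lit 3) (.nd (nat_lit 4) (.nd (nat_lit 5) 
(.lf (nat_lit 165890) (.g (nat_lit 2718) (.e (nat_lit 57476) (nat_lit 28) (.e (nat_lit 557097) (nat_lit 13) (.e (nat_lit 172097) (nat_lit 9) (.e (nat_lit 426125) (nat_lit 2) (.e (nat_lit 196666) (nat_lit 13) (.e (nat_lit 65565) (nat_lit 1) (.e (nat_lit 57870) (nat_lit 264) (.e (nat_lit 1170) (nat_lit 87) .nil)))))))) (.g (nat_lit 5) .nil .nil))) 
(.lf (nat_lit 165922) (.g (nat_lit 2383) (.e (nat_lit 57476) (nat_lit 28) (.e (nat_lit 557097) (nat_lit 13) (.e (nat_lit 172097) (nat_lit 9) (.e (nat_lit 426140) (nat_lit 3) (.e (nat_lit 204855) (nat_lit 26) (.e (nat_lit 335985) (nat_lit 1) (.e (nat_lit 57870) (nat_lit 264) (.e (nat_lit 1170) (nat_lit 87) .nil)))))))) (.g (nat_lit 4) .nil .nil)))) (.nd (nat_lit 5) 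
(.lf (nat_lit 165906) (.g (nat_lit 3223) (.e (nat_lit 57476) (nat_lit 28) (.e (nat_lit 557097) (nat_lit 13) (.e (nat_lit 172097) (nat_lit 9) (.e (nat_lit 426125) (nat_lit 2) (.e (nat_lit 196666) (nat_lit 13) (.e (nat_lit 73472) (nat_lit 19) (.e (nat_lit 220928) (nat_lit 3) .nil))))))) (.g (nat_lit 5) .nil .nil))) 
(.lf (nat_lit 165938) (.g (nat_lit 4517) (.e (nat_lit 57476) (nat_lit 28) (.e (nat_lit 557097) (nat_lit 13) (.e (nat_lit 172097) (nat_lit 9) (.e (nat_lit 426140) (nat_lit 3) (.e (nat_lit 204855) (nat_lit 26) (.e (nat_lit 336295) (nat_lit 15) (.e (nat_lit 3631) (nat_lit 227) (.e (nat_lit 778317) (nat_lit 3) .nil)))))))) (.g (nat_lit 0) .nil .nil))))) (.nd (nat_lit 4) (.nd (nat_lit 5) 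
(.lf (nat_lit 165898) (.g (nat_lit 2048) (.e (nat_lit 57476) (nat_lit 28) (.e (nat_lit 557097) (nat_lit 13) (.e (nat_lit 172097) (nat_lit 9) (.e (nat_lit 426125) (nat_lit 2) (.e (nat_lit 196666) (nat_lit 13) (.e (nat_lit 65572) (nat_lit 4) (.e (nat_lit 123183) (nat_lit 264) (.e (nat_lit 1175) (nat_lit 87) .nil)))))))) (.g (nat_lit 4) .nil .nil))) 
(.lf (nat_lit 165930) (.g (nat_lit 1917) (.e (nat_lit 57476) (nat_lit 28) (.e (nat_lit 557097) (nat_lit 13) (.e (nat_lit 172097) (nat_lit 9) (.e (nat_lit 426140) (nat_lit 3) (.e (nat_lit 204855) (nat_lit 26) (.e (nat_lit 336030) (nat_lit 4) (.e (nat_lit 123184) (nat_lit 264) (.e (nat_lit 1175) (nat_lit 87) .nil)))))))) (.g (nat_lit 4) .nil .nil)))) (.nd (nat_lit 5) 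
(.lf (nat_lit 165914) (.g (nat_lit 2699) (.e (nat_lit 57476) (nat_lit 28) (.e (nat_lit 557097) (nat_lit 13) (.e (nat_lit 172097) (nat_lit 9) (.e (nat_lit 426140) (nat_lit 3) (.e (nat_lit 204852) (nat_lit 26) (.e (nat_lit 336332) (nat_lit 19) (.e (nat_lit 220928) (nat_lit 3) .nil))))))) (.g (nat_lit 4) .nil .nil))) 
(.lf (nat_lit 165946) (.g (nat_lit 1935) (.e (nat_lit 57476) (nat_lit 28) (.e (nat_lit 557097) (nat_lit 13) (.e (nat_lit 172097) (nat_lit 9) (.e (nat_lit 426140) (nat_lit 3) (.e (nat_lit 212736) (nat_lit 26) (.e (nat_lit 335995) (nat_lit 1) (.e (nat_lit 57872) (nat_lit 264) (.e (nat_lit 1172) (nat_lit 87) .nil)))))))) (.g (nat_lit 4) .nil .nil)))))) 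
(.nd (nat_lit 3) (.nd (nat_lit 4) (.nd (nat_lit 5) 
(.lf (nat_lit 165894) (.g (nat_lit 2825) (.e (nat_lit 57476) (nat_lit 28) (.e (nat_lit 557097) (nat_lit 13) (.e (nat_lit 172097) (nat_lit 9) (.e (nat_lit 426125) (nat_lit 2) (.e (nat_lit 196666) (nat_lit 13) (.e (nat_lit 65565) (nat_lit 1) (.e (nat_lit 57872) (nat_lit 264) (.e (nat_lit 1170) (nat_lit 87) .nil)))))))) (.g (nat_lit 5) .nil .nil))) 
(.lf (nat_lit 165926) (.g (nat_lit 2393) (.e (nat_lit 57476) (nat_lit 28) (.e (nat_lit 557097) (nat_lit 13) (.e (nat_lit 172097) (nat_lit 9) (.e (nat_lit 426140) (nat_lit 3) (.e (nat_lit 204855) (nat_lit 26) (.e (nat_lit 335992) (nat_lit 1) (.e (nat_lit 57870) (nat_lit 264) (.e (nat_lit 1170) (nat_lit 87) .nil)))))))) (.g (nat_lit 4) .nil .nil)))) (.nd (nat_lit 5) 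
(.lf (nat_lit 165910) (.g (nat_lit 2357) (.e (nat_lit 57476) (nat_lit 28) (.e (nat_lit 557097) (nat_lit 13) (.e (nat_lit 172097) (nat_lit 9) (.e (nat_lit 426140) (nat_lit 3) (.e (nat_lit 204850) (nat_lit 26) (.e (nat_lit 335997) (nat_lit 1) (.e (nat_lit 57870) (nat_lit 264) (.e (nat_lit 1170) (nat_lit 87) .nil)))))))) (.g (nat_lit 4) .nil .nil))) 
(.lf (nat_lit 165942) (.g (nat_lit 2843) (.e (nat_lit 57476) (nat_lit 28) (.e (nat_lit 557097) (nat_lit 13) (.e (nat_lit 172097) (nat_lit 9) (.e (nat_lit 426140) (nat_lit 3) (.e (nat_lit 204855) (nat_lit 26) (.e (nat_lit 343808) (nat_lit 24) (.e (nat_lit 270080) (nat_lit 3) .nil))))))) (.g (nat_lit 5) .nil .nil))))) (.nd (nat_lit 4) (.nd (nat_lit 5) 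
(.lf (nat_lit 165902) (.g (nat_lit 2486) (.e (nat_lit 57476) (nat_lit 28) (.e (nat_lit 557097) (nat_lit 13) (.e (nat_lit 172097) (nat_lit 9) (.e (nat_lit 426125) (nat_lit 2) (.e (nat_lit 196666) (nat_lit 13) (.e (nat_lit 65574) (nat_lit 4) (.e (nat_lit 123184) (nat_lit 264) (.e (nat_lit 1175) (nat_lit 87) .nil)))))))) (.g (nat_lit 5) .nil .nil))) 
(.lf (nat_lit 165934) (.g (nat_lit 2834) (.e (nat_lit 57476) (nat_lit 28) (.e (nat_lit 557097) (nat_lit 13) (.e (nat_lit 172097) (nat_lit 9) (.e (nat_lit 426140) (nat_lit 3) (.e (nat_lit 204855) (nat_lit 26) (.e (nat_lit 336290) (nat_lit 15) (.e (nat_lit 3714) (nat_lit 227) (.e (nat_lit 778316) (nat_lit 3) .nil)))))))) (.g (nat_lit 5) .nil .nil)))) (.nd (nat_lit 5) 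
(.lf (nat_lit 165918) (.g (nat_lit 2245) (.e (nat_lit 57476) (nat_lit 28) (.e (nat_lit 557097) (nat_lit 13) (.e (nat_lit 172097) (nat_lit 9) (.e (nat_lit 426140) (nat_lit 3) (.e (nat_lit 204855) (nat_lit 26) (.e (nat_lit 335923) (nat_lit 0) (.e (nat_lit 1023) (nat_lit 81) (.e (nat_lit 5907) (nat_lit 320) (.e (nat_lit 1172) (nat_lit 87) .nil))))))))) (.g (nat_lit 4) .nil .nil))) 
(.lf (nat_lit 165950) (.g (nat_lit 3294) (.e (nat_lit 57476) (nat_lit 28) (.e (nat_lit 557097) (nat_lit 13) (.e (nat_lit 172097) (nat_lit 9) (.e (nat_lit 426140) (nat_lit 3) (.e (nat_lit 204862) (nat_lit 27) (.e (nat_lit 344097) (nat_lit 18) (.e (nat_lit 5907) (nat_lit 320) (.e (nat_lit 1170) (nat_lit 87) .nil)))))))) (.g (nat_lit 6) .nil .nil)))))))) 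
(.nd (nat_lit 1) (.nd (nat_lit 2) (.nd (nat_lit 3) (.nd (nat_lit 4) (.nd (nat_lit 5) 
(.lf (nat_lit 165889) (.g (nat_lit 2808) (.e (nat_lit 57476) (nat_lit 28) (.e (nat_lit 557097) (nat_lit 13) (.e (nat_lit 172097) (nat_lit 9) (.e (nat_lit 426125) (nat_lit 2) (.e (nat_lit 196666) (nat_lit 13) (.e (nat_lit 65563) (nat_lit 1) (.e (nat_lit 57873) (nat_lit 264) (.e (nat_lit 1171) (nat_lit 87) .nil)))))))) (.g (nat_lit 5) .nil .nil))) 
(.lf (nat_lit 165921) (.g (nat_lit 3578) (.e (nat_lit 57476) (nat_lit 28) (.e (nat_lit 557097) (nat_lit 13) (.e (nat_lit 172097) (nat_lit 9) (.e (nat_lit 426140) (nat_lit 3) (.e (nat_lit 204855) (nat_lit 26) (.e (nat_lit 335928) (nat_lit 0) (.e (nat_lit 2006) (nat_lit 138) (.e (nat_lit 671757) (nat_lit 3) .nil)))))))) (.g (nat_lit 0) .nil .nil)))) (.nd (nat_lit 5) 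
(.lf (nat_lit 165905) (.g (nat_lit 5169) (.e (nat_lit 57476) (nat_lit 28) (.e (nat_lit 557097) (nat_lit 13) (.e (nat_lit 172097) (nat_lit 9) (.e (nat_lit 426125) (nat_lit 2) (.e (nat_lit 196666) (nat_lit 13) (.e (nat_lit 65642) (nat_lit 15) (.e (nat_lit 3632) (nat_lit 227) (.e (nat_lit 778317) (nat_lit 3) .nil)))))))) (.g (nat_lit 0) .nil .nil))) 
(.lf (nat_lit 165937) (.g (nat_lit 2694) (.e (nat_lit 57476) (nat_lit 28) (.e (nat_lit 557097) (nat_lit 13) (.e (nat_lit 172097) (nat_lit 9) (.e (nat_lit 426140) (nat_lit 3) (.e (nat_lit 204855) (nat_lit 26) (.e (nat_lit 336290) (nat_lit 15) (.e (nat_lit 3716) (nat_lit 227) (.e (nat_lit 778316) (nat_lit 3) .nil)))))))) (.g (nat_lit 5) .nil .nil))))) (.nd (nat_lit 4) (.nd (nat_lit 5) 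
(.lf (nat_lit 165897) (.g (nat_lit 2714) (.e (nat_lit 57476) (nat_lit 28) (.e (nat_lit 557097) (nat_lit 13) (.e (nat_lit 172097) (nat_lit 9) (.e (nat_lit 426125) (nat_lit 2) (.e (nat_lit 196666) (nat_lit 13) (.e (nat_lit 65565) (nat_lit 1) (.e (nat_lit 57873) (nat_lit 264) (.e (nat_lit 1171) (nat_lit 87) .nil)))))))) (.g (nat_lit 5) .nil .nil))) 
(.lf (nat_lit 165929) (.g (nat_lit 2220) (.e (nat_lit 57476) (nat_lit 28) (.e (nat_lit 557097) (nat_lit 13) (.e (nat_lit 172097) (nat_lit 9) (.e (nat_lit 426140) (nat_lit 3) (.e (nat_lit 204855) (nat_lit 26) (.e (nat_lit 335992) (nat_lit 1) (.e (nat_lit 57873) (nat_lit 264) (.e (nat_lit 1172) (nat_lit 87) .nil)))))))) (.g (nat_lit 4) .nil .nil)))) (.nd (nat_lit 5) 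
(.lf (nat_lit 165913) (.g (nat_lit 2259) (.e (nat_lit 57476) (nat_lit 28) (.e (nat_lit 557097) (nat_lit 13) (.e (nat_lit 172097) (nat_lit 9) (.e (nat_lit 426140) (nat_lit 3) (.e (nat_lit 204850) (nat_lit 26) (.e (nat_lit 335997) (nat_lit 1) (.e (nat_lit 57871) (nat_lit 264) (.e (nat_lit 1172) (nat_lit 87) .nil)))))))) (.g (nat_lit 4) .nil .nil))) 
(.lf (nat_lit 165945) (.g (nat_lit 1763) (.e (nat_lit 57476) (nat_lit 28) (.e (nat_lit 557097) (nat_lit 13) (.e (nat_lit 172097) (nat_lit 9) (.e (nat_lit 426140) (nat_lit 3) (.e (nat_lit 212736) (nat_lit 26) .nil))))) .nil))))) (.nd (nat_lit 3) (.nd (nat_lit 4) (.nd (nat_lit 5) 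
(.lf (nat_lit 165893) (.g (nat_lit 2637) (.e (nat_lit 57476) (nat_lit 28) (.e (nat_lit 557097) (nat_lit 13) (.e (nat_lit 172097) (nat_lit 9) (.e (nat_lit 426125) (nat_lit 2) (.e (nat_lit 196666) (nat_lit 13) (.e (nat_lit 65565) (nat_lit 1) (.e (nat_lit 57871) (nat_lit 264) (.e (nat_lit 1172) (nat_lit 87) .nil)))))))) (.g (nat_lit 5) .nil .nil))) 
(.lf (nat_lit 165925) (.g (nat_lit 2779) (.e (nat_lit 57476) (nat_lit 28) (.e (nat_lit 557097) (nat_lit 13) (.e (nat_lit 172097) (nat_lit 9) (.e (nat_lit 426140) (nat_lit 3) (.e (nat_lit 204855) (nat_lit 26) (.e (nat_lit 335985) (nat_lit 1) (.e (nat_lit 57873) (nat_lit 264) (.e (nat_lit 1170) (nat_lit 87) .nil)))))))) (.g (nat_lit 5) .nil .nil)))) (.nd (nat_lit 5) 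
(.lf (nat_lit 165909) (.g (nat_lit 1772) (.e (nat_lit 57476) (nat_lit 28) (.e (nat_lit 557097) (nat_lit 13) (.e (nat_lit 172097) (nat_lit 9) (.e (nat_lit 426140) (nat_lit 3) (.e (nat_lit 204821) (nat_lit 17) (.e (nat_lit 7936) (nat_lit 343) (.e (nat_lit 1181) (nat_lit 87) (.e (nat_lit 57872) (nat_lit 264) (.e (nat_lit 1172) (nat_lit 87) .nil))))))))) (.g (nat_lit 4) .nil .nil))) 
(.lf (nat_lit 165941) (.g (nat_lit 2211) (.e (nat_lit 57476) (nat_lit 28) (.e (nat_lit 557097) (nat_lit 13) (.e (nat_lit 172097) (nat_lit 9) (.e (nat_lit 426140) (nat_lit 3) (.e (nat_lit 204855) (nat_lit 26) (.e (nat_lit 336353) (nat_lit 24) (.e (nat_lit 270080) (nat_lit 3) .nil))))))) (.g (nat_lit 4) .nil .nil))))) (.nd (nat_lit 4) (.nd (nat_lit 5) 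
(.lf (nat_lit 165901) (.g (nat_lit 2118) (.e (nat_lit 57476) (nat_lit 28) (.e (nat_lit 557097) (nat_lit 13) (.e (nat_lit 172097) (nat_lit 9) (.e (nat_lit 426125) (nat_lit 2) (.e (nat_lit 196666) (nat_lit 13) (.e (nat_lit 65574) (nat_lit 4) (.e (nat_lit 123183) (nat_lit 264) (.e (nat_lit 1175) (nat_lit 87) .nil)))))))) (.g (nat_lit 4) .nil .nil))) 
(.lf (nat_lit 165933) (.g (nat_lit 3023) (.e (nat_lit 57476) (nat_lit 28) (.e (nat_lit 557097) (nat_lit 13) (.e (nat_lit 172097) (nat_lit 9) (.e (nat_lit 426140) (nat_lit 3) (.e (nat_lit 204855) (nat_lit 26) (.e (nat_lit 336290) (nat_lit 15) (.e (nat_lit 3711) (nat_lit 227) (.e (nat_lit 786176) (nat_lit 3) .nil)))))))) (.g (nat_lit 6) .nil .nil)))) (.nd (nat_lit 5) 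
(.lf (nat_lit 165917) (.g (nat_lit 2992) (.e (nat_lit 57476) (nat_lit 28) (.e (nat_lit 557097) (nat_lit 13) (.e (nat_lit 172097) (nat_lit 9) (.e (nat_lit 426140) (nat_lit 3) (.e (nat_lit 204855) (nat_lit 26) (.e (nat_lit 335923) (nat_lit 0) (.e (nat_lit 1023) (nat_lit 81) (.e (nat_lit 5906) (nat_lit 320) (.e (nat_lit 1172) (nat_lit 87) .nil))))))))) (.g (nat_lit 5) .nil .nil))) 
(.lf (nat_lit 165949) (.g (nat_lit 2973) (.e (nat_lit 57476) (nat_lit 28) (.e (nat_lit 557097) (nat_lit 13) (.e (nat_lit 172097) (nat_lit 9) (.e (nat_lit 426140) (nat_lit 3) (.e (nat_lit 204862) (nat_lit 27) (.e (nat_lit 344097) (nat_lit 18) (.e (nat_lit 5906) (nat_lit 320) (.e (nat_lit 1170) (nat_lit 87) .nil)))))))) (.g (nat_lit 5) .nil .nil))))))) 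
(.nd (nat_lit 2) (.nd (nat_lit 3) (.nd (nat_lit 4) (.nd (nat_lit 5) 
(.lf (nat_lit 165891) (.g (nat_lit 3723) (.e (nat_lit 57476) (nat_lit 28) (.e (nat_lit 557097) (nat_lit 13) (.e (nat_lit 172097) (nat_lit 9) (.e (nat_lit 426125) (nat_lit 2) (.e (nat_lit 196666) (nat_lit 13) (.e (nat_lit 65565) (nat_lit 1) (.e (nat_lit 57870) (nat_lit 264) (.e (nat_lit 1171) (nat_lit 87) .nil)))))))) (.g (nat_lit 0) .nil .nil))) 
(.lf (nat_lit 165923) (.g (nat_lit 3391) (.e (nat_lit 57476) (nat_lit 28) (.e (nat_lit 557097) (nat_lit 13) (.e (nat_lit 172097) (nat_lit 9) (.e (nat_lit 426140) (nat_lit 3) (.e (nat_lit 204855) (nat_lit 26) (.e (nat_lit 335985) (nat_lit 1) (.e (nat_lit 57870) (nat_lit 264) (.e (nat_lit 1171) (nat_lit 87) .nil)))))))) (.g (nat_lit 0) .nil .nil)))) (.nd (nat_lit 5) 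
(.lf (nat_lit 165907) (.g (nat_lit 3356) (.e (nat_lit 57476) (nat_lit 28) (.e (nat_lit 557097) (nat_lit 13) (.e (nat_lit 172097) (nat_lit 9) (.e (nat_lit 426125) (nat_lit 2) (.e (nat_lit 196666) (nat_lit 13) (.e (nat_lit 73472) (nat_lit 24) (.e (nat_lit 270080) (nat_lit 3) .nil))))))) (.g (nat_lit 5) .nil .nil))) 
(.lf (nat_lit 165939) (.g (nat_lit 5077) (.e (nat_lit 57476) (nat_lit 28) (.e (nat_lit 557097) (nat_lit 13) (.e (nat_lit 172097) (nat_lit 9) (.e (nat_lit 426140) (nat_lit 3) (.e (nat_lit 204855) (nat_lit 26) (.e (nat_lit 336295) (nat_lit 15) (.e (nat_lit 3632) (nat_lit 227) (.e (nat_lit 778317) (nat_lit 3) .nil)))))))) (.g (nat_lit 0) .nil .nil))))) (.nd (nat_lit 4) (.nd (nat_lit 5) 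
(.lf (nat_lit 165899) (.g (nat_lit 1893) (.e (nat_lit 57476) (nat_lit 28) (.e (nat_lit 557097) (nat_lit 13) (.e (nat_lit 172097) (nat_lit 9) (.e (nat_lit 426125) (nat_lit 2) (.e (nat_lit 196666) (nat_lit 13) (.e (nat_lit 65574) (nat_lit 4) (.e (nat_lit 123182) (nat_lit 264) (.e (nat_lit 1169) (nat_lit 87) .nil)))))))) (.g (nat_lit 4) .nil .nil))) 
(.lf (nat_lit 165931) (.g (nat_lit 2226) (.e (nat_lit 57476) (nat_lit 28) (.e (nat_lit 557097) (nat_lit 13) (.e (nat_lit 172097) (nat_lit 9) (.e (nat_lit 426140) (nat_lit 3) (.e (nat_lit 204855) (nat_lit 26) (.e (nat_lit 336253) (nat_lit 15) (.e (nat_lit 3716) (nat_lit 227) (.e (nat_lit 778316) (nat_lit 3) .nil)))))))) (.g (nat_lit 4) .nil .nil)))) (.nd (nat_lit 5) 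
(.lf (nat_lit 165915) (.g (nat_lit 1848) (.e (nat_lit 57476) (nat_lit 28) (.e (nat_lit 557097) (nat_lit 13) (.e (nat_lit 172097) (nat_lit 9) (.e (nat_lit 426140) (nat_lit 3) (.e (nat_lit 204855) (nat_lit 26) .nil))))) .nil)) 
(.lf (nat_lit 165947) (.g (nat_lit 1863) (.e (nat_lit 57476) (nat_lit 28) (.e (nat_lit 557097) (nat_lit 13) (.e (nat_lit 172097) (nat_lit 9) (.e (nat_lit 426140) (nat_lit 3) (.e (nat_lit 212736) (nat_lit 26) (.e (nat_lit 336331) (nat_lit 19) (.e (nat_lit 220928) (nat_lit 3) .nil))))))) (.g (nat_lit 4) .nil .nil)))))) (.nd (nat_lit 3) (.nd (nat_lit 4) (.nd (nat_lit 5) 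
(.lf (nat_lit 165895) (.g (nat_lit 1871) (.e (nat_lit 57476) (nat_lit 28) (.e (nat_lit 557097) (nat_lit 13) (.e (nat_lit 172097) (nat_lit 9) (.e (nat_lit 426125) (nat_lit 2) (.e (nat_lit 196666) (nat_lit 13) (.e (nat_lit 65565) (nat_lit 1) (.e (nat_lit 57872) (nat_lit 264) (.e (nat_lit 1171) (nat_lit 87) .nil)))))))) (.g (nat_lit 4) .nil .nil))) 
(.lf (nat_lit 165927) (.g (nat_lit 3412) (.e (nat_lit 57476) (nat_lit 28) (.e (nat_lit 557097) (nat_lit 13) (.e (nat_lit 172097) (nat_lit 9) (.e (nat_lit 426140) (nat_lit 3) (.e (nat_lit 204855) (nat_lit 26) (.e (nat_lit 335992) (nat_lit 1) (.e (nat_lit 57870) (nat_lit 264) (.e (nat_lit 1171) (nat_lit 87) .nil)))))))) (.g (nat_lit 7) .nil .nil)))) (.nd (nat_lit 5) 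
(.lf (nat_lit 165911) (.g (nat_lit 3362) (.e (nat_lit 57476) (nat_lit 28) (.e (nat_lit 557097) (nat_lit 13) (.e (nat_lit 172097) (nat_lit 9) (.e (nat_lit 426140) (nat_lit 3) (.e (nat_lit 204850) (nat_lit 26) (.e (nat_lit 335997) (nat_lit 1) (.e (nat_lit 57870) (nat_lit 264) (.e (nat_lit 1171) (nat_lit 87) .nil)))))))) (.g (nat_lit 0) .nil .nil))) 
(.lf (nat_lit 165943) (.g (nat_lit 2368) (.e (nat_lit 57476) (nat_lit 28) (.e (nat_lit 557097) (nat_lit 13) (.e (nat_lit 172097) (nat_lit 9) (.e (nat_lit 426140) (nat_lit 3) (.e (nat_lit 204856) (nat_lit 26) .nil))))) .nil)))) (.nd (nat_lit 4) (.nd (nat_lit 5) 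
(.lf (nat_lit 165903) (.g (nat_lit 1835) (.e (nat_lit 57476) (nat_lit 28) (.e (nat_lit 557097) (nat_lit 13) (.e (nat_lit 172097) (nat_lit 9) (.e (nat_lit 426125) (nat_lit 2) (.e (nat_lit 196666) (nat_lit 13) (.e (nat_lit 65574) (nat_lit 4) (.e (nat_lit 123185) (nat_lit 264) (.e (nat_lit 1174) (nat_lit 87) .nil)))))))) (.g (nat_lit 4) .nil .nil))) 
(.lf (nat_lit 165935) (.g (nat_lit 3041) (.e (nat_lit 57476) (nat_lit 28) (.e (nat_lit 557097) (nat_lit 13) (.e (nat_lit 172097) (nat_lit 9) (.e (nat_lit 426140) (nat_lit 3) (.e (nat_lit 204855) (nat_lit 26) (.e (nat_lit 336290) (nat_lit 15) (.e (nat_lit 3714) (nat_lit 227) (.e (nat_lit 786176) (nat_lit 3) .nil)))))))) (.g (nat_lit 6) .nil .nil)))) (.nd (nat_lit 5) 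
(.lf (nat_lit 165919) (.g (nat_lit 1878) (.e (nat_lit 57476) (nat_lit 28) (.e (nat_lit 557097) (nat_lit 13) (.e (nat_lit 172097) (nat_lit 9) (.e (nat_lit 426140) (nat_lit 3) (.e (nat_lit 204855) (nat_lit 26) (.e (nat_lit 335925) (nat_lit 0) (.e (nat_lit 1023) (nat_lit 81) (.e (nat_lit 5905) (nat_lit 320) (.e (nat_lit 1171) (nat_lit 87) .nil))))))))) (.g (nat_lit 4) .nil .nil))) 
(.lf (nat_lit 165951) (.g (nat_lit 2761) (.e (nat_lit 57476) (nat_lit 28) (.e (nat_lit 557097) (nat_lit 13) (.e (nat_lit 172097) (nat_lit 9) (.e (nat_lit 426140) (nat_lit 3) (.e (nat_lit 204862) (nat_lit 27) (.e (nat_lit 344097) (nat_lit 18) (.e (nat_lit 5907) (nat_lit 320) (.e (nat_lit 1171) (nat_lit 87) .nil)))))))) (.g (nat_lit 5) .nil .nil)))))))))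

noncomputable def tv2225 : DT := (.nd (nat_lit 0) (.nd (nat_lit 1) (.nd (nat_lit 2) (.nd (nat_lit 3) (.nd (nat_lit 4) (.nd (nat_lit 5) 
(.lf (nat_lit 165952) (.g (nat_lit 3821) (.e (nat_lit 57476) (nat_lit 28) (.e (nat_lit 557097) (nat_lit 13) (.e (nat_lit 172097) (nat_lit 9) (.e (nat_lit 426140) (nat_lit 3) (.e (nat_lit 204862) (nat_lit 27) (.e (nat_lit 344169) (nat_lit 40) (.e (nat_lit 671757) (nat_lit 3) .nil))))))) (.g (nat_lit 0) .nil .nil))) 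
(.lf (nat_lit 165984) (.g (nat_lit 2293) (.e (nat_lit 57476) (nat_lit 28) (.e (nat_lit 557097) (nat_lit 13) (.e (nat_lit 172115) (nat_lit 10) (.e (nat_lit 434231) (nat_lit 23) (.e (nat_lit 532490) (nat_lit 0) (.e (nat_lit 7936) (nat_lit 343) (.e (nat_lit 1181) (nat_lit 87) (.e (nat_lit 57872) (nat_lit 264) (.e (nat_lit 1172) (nat_lit 87) .nil))))))))) (.g (nat_lit 4) .nil .nil)))) 
(.nd (nat_lit 5) 
(.lf (nat_lit 165968) (.g (nat_lit 5133) (.e (nat_lit 57476) (nat_lit 28) (.e (nat_lit 557097) (nat_lit 13) (.e (nat_lit 172105) (nat_lit 10) (.e (nat_lit 434231) (nat_lit 23) (.e (nat_lit 532535) (nat_lit 9) (.e (nat_lit 336295) (nat_lit 15) (.e (nat_lit 3632) (nat_lit 227) (.e (nat_lit 778317) (nat_lit 3) .nil)))))))) (.g (nat_lit 0) .nil .nil))) 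
(.lf (nat_lit 166000) (.g (nat_lit 2384) (.e (nat_lit 57476) (nat_lit 28) (.e (nat_lit 557097) (nat_lit 13) (.e (nat_lit 172115) (nat_lit 10) (.e (nat_lit 434231) (nat_lit 23) (.e (nat_lit 532529) (nat_lit 9) .nil))))) .nil)))) (.nd (nat_lit 4) (.nd (nat_lit 5) 
(.lf (nat_lit 165960) (.g (nat_lit 3636) (.e (nat_lit 57476) (nat_lit 28) (.e (nat_lit 557097) (nat_lit 13) (.e (nat_lit 172097) (nat_lit 9) (.e (nat_lit 426140) (nat_lit 3) (.e (nat_lit 204879) (nat_lit 32) (.e (nat_lit 385093) (nat_lit 49) (.e (nat_lit 778317) (nat_lit 3) .nil))))))) (.g (nat_lit 0) .nil .nil))) 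
(.lf (nat_lit 165992) (.g (nat_lit 3415) (.e (nat_lit 57476) (nat_lit 28) (.e (nat_lit 557097) (nat_lit 13) (.e (nat_lit 172115) (nat_lit 10) (.e (nat_lit 434231) (nat_lit 23) (.e (nat_lit 532528) (nat_lit 9) (.e (nat_lit 336285) (nat_lit 15) (.e (nat_lit 3629) (nat_lit 227) (.e (nat_lit 778317) (nat_lit 3) .nil)))))))) (.g (nat_lit 5) .nil .nil)))) (.nd (nat_lit 5) 
(.lf (nat_lit 165976) (.g (nat_lit 4813) (.e (nat_lit 57476) (nat_lit 28) (.e (nat_lit 557097) (nat_lit 13) (.e (nat_lit 172114) (nat_lit 10) (.e (nat_lit 434231) (nat_lit 23) (.e (nat_lit 532535) (nat_lit 9) (.e (nat_lit 336295) (nat_lit 15) (.e (nat_lit 3629) (nat_lit 227) (.e (nat_lit 778317) (nat_lit 3) .nil)))))))) (.g (nat_lit 5) .nil .nil))) 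
(.lf (nat_lit 166008) (.g (nat_lit 2117) (.e (nat_lit 57476) (nat_lit 28) (.e (nat_lit 557097) (nat_lit 13) (.e (nat_lit 172115) (nat_lit 10) (.e (nat_lit 434231) (nat_lit 23) (.e (nat_lit 532531) (nat_lit 9) .nil))))) .nil))))) (.nd (nat_lit 3) (.nd (nat_lit 4) (.nd (nat_lit 5) 
(.lf (nat_lit 165956) (.g (nat_lit 3462) (.e (nat_lit 57476) (nat_lit 28) (.e (nat_lit 557097) (nat_lit 13) (.e (nat_lit 172097) (nat_lit 9) (.e (nat_lit 426140) (nat_lit 3) (.e (nat_lit 204863) (nat_lit 27) (.e (nat_lit 344097) (nat_lit 18) (.e (nat_lit 5907) (nat_lit 320) (.e (nat_lit 1170) (nat_lit 87) .nil)))))))) (.g (nat_lit 6) .nil .nil))) 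
(.lf (nat_lit 165988) (.g (nat_lit 2887) (.e (nat_lit 57476) (nat_lit 28) (.e (nat_lit 557097) (nat_lit 13) (.e (nat_lit 172115) (nat_lit 10) (.e (nat_lit 434231) (nat_lit 23) (.e (nat_lit 532527) (nat_lit 9) (.e (nat_lit 335997) (nat_lit 1) (.e (nat_lit 57871) (nat_lit 264) (.e (nat_lit 1170) (nat_lit 87) .nil)))))))) (.g (nat_lit 4) .nil .nil)))) (.nd (nat_lit 5) 
(.lf (nat_lit 165972) (.g (nat_lit 3736) (.e (nat_lit 57476) (nat_lit 28) (.e (nat_lit 557097) (nat_lit 13) (.e (nat_lit 172106) (nat_lit 10) (.e (nat_lit 434231) (nat_lit 23) (.e (nat_lit 532563) (nat_lit 15) (.e (nat_lit 385093) (nat_lit 49) (.e (nat_lit 778317) (nat_lit 3) .nil))))))) (.g (nat_lit 5) .nil .nil))) 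
(.lf (nat_lit 166004) (.g (nat_lit 4154) (.e (nat_lit 57476) (nat_lit 28) (.e (nat_lit 557097) (nat_lit 13) (.e (nat_lit 172115) (nat_lit 10) (.e (nat_lit 434231) (nat_lit 23) (.e (nat_lit 532529) (nat_lit 9) (.e (nat_lit 336269) (nat_lit 15) (.e (nat_lit 3631) (nat_lit 227) (.e (nat_lit 778317) (nat_lit 3) .nil)))))))) (.g (nat_lit 5) .nil .nil))))) (.nd (nat_lit 4) (.nd (nat_lit 5) 
(.lf (nat_lit 165964) (.g (nat_lit 2832) (.e (nat_lit 57476) (nat_lit 28) (.e (nat_lit 557097) (nat_lit 13) (.e (nat_lit 172097) (nat_lit 9) (.e (nat_lit 426140) (nat_lit 3) (.e (nat_lit 204882) (nat_lit 32) (.e (nat_lit 385092) (nat_lit 49) (.e (nat_lit 778318) (nat_lit 3) .nil))))))) (.g (nat_lit 5) .nil .nil))) 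
(.lf (nat_lit 165996) (.g (nat_lit 2699) (.e (nat_lit 57476) (nat_lit 28) (.e (nat_lit 557097) (nat_lit 13) (.e (nat_lit 172115) (nat_lit 10) (.e (nat_lit 434231) (nat_lit 23) (.e (nat_lit 532528) (nat_lit 9) (.e (nat_lit 336306) (nat_lit 15) (.e (nat_lit 3619) (nat_lit 227) (.e (nat_lit 778317) (nat_lit 3) .nil)))))))) (.g (nat_lit 4) .nil .nil)))) (.nd (nat_lit 5) 
(.lf (nat_lit 165980) (.g (nat_lit 2388) (.e (nat_lit 57476) (nat_lit 28) (.e (nat_lit 557097) (nat_lit 13) (.e (nat_lit 172115) (nat_lit 10) (.e (nat_lit 434219) (nat_lit 19) (.e (nat_lit 499960) (nat_lit 14) (.e (nat_lit 1634) (nat_lit 114) (.e (nat_lit 385094) (nat_lit 49) (.e (nat_lit 778317) (nat_lit 3) .nil)))))))) (.g (nat_lit 4) .nil .nil))) 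
(.lf (nat_lit 166012) (.g (nat_lit 3026) (.e (nat_lit 57476) (nat_lit 28) (.e (nat_lit 557097) (nat_lit 13) (.e (nat_lit 172115) (nat_lit 10) (.e (nat_lit 434231) (nat_lit 23) (.e (nat_lit 532532) (nat_lit 9) (.e (nat_lit 336332) (nat_lit 19) (.e (nat_lit 220928) (nat_lit 3) .nil))))))) (.g (nat_lit 5) .nil .nil))))))) (.nd (nat_lit 2) (.nd (nat_lit 3) (.nd (nat_lit 4) (.nd (nat_lit 5) 
(.lf (nat_lit 165954) (.g (nat_lit 3373) (.e (nat_lit 57476) (nat_lit 28) (.e (nat_lit 557097) (nat_lit 13) (.e (nat_lit 172097) (nat_lit 9) (.e (nat_lit 426140) (nat_lit 3) (.e (nat_lit 204863) (nat_lit 27) (.e (nat_lit 344097) (nat_lit 18) (.e (nat_lit 5905) (nat_lit 320) (.e (nat_lit 1170) (nat_lit 87) .nil)))))))) (.g (nat_lit 6) .nil .nil))) 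
(.lf (nat_lit 165986) (.g (nat_lit 2884) (.e (nat_lit 57476) (nat_lit 28) (.e (nat_lit 557097) (nat_lit 13) (.e (nat_lit 172115) (nat_lit 10) (.e (nat_lit 434231) (nat_lit 23) (.e (nat_lit 532527) (nat_lit 9) (.e (nat_lit 335997) (nat_lit 1) (.e (nat_lit 57870) (nat_lit 264) (.e (nat_lit 1170) (nat_lit 87) .nil)))))))) (.g (nat_lit 4) .nil .nil)))) (.nd (nat_lit 5) 
(.lf (nat_lit 165970) (.g (nat_lit 4079) (.e (nat_lit 57476) (nat_lit 28) (.e (nat_lit 557097) (nat_lit 13) (.e (nat_lit 172105) (nat_lit 10) (.e (nat_lit 434232) (nat_lit 23) (.e (nat_lit 532563) (nat_lit 15) (.e (nat_lit 385094) (nat_lit 49) (.e (nat_lit 778317) (nat_lit 3) .nil))))))) (.g (nat_lit 7) .nil .nil))) 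
(.lf (nat_lit 166002) (.g (nat_lit 4478) (.e (nat_lit 57476) (nat_lit 28) (.e (nat_lit 557097) (nat_lit 13) (.e (nat_lit 172115) (nat_lit 10) (.e (nat_lit 434231) (nat_lit 23) (.e (nat_lit 532529) (nat_lit 9) (.e (nat_lit 336263) (nat_lit 15) (.e (nat_lit 3630) (nat_lit 227) (.e (nat_lit 778317) (nat_lit 3) .nil)))))))) (.g (nat_lit 5) .nil .nil))))) (.nd (nat_lit 4) (.nd (nat_lit 5) 
(.lf (nat_lit 165962) (.g (nat_lit 3231) (.e (nat_lit 57476) (nat_lit 28) (.e (nat_lit 557097) (nat_lit 13) (.e (nat_lit 172097) (nat_lit 9) (.e (nat_lit 426140) (nat_lit 3) (.e (nat_lit 204880) (nat_lit 32) (.e (nat_lit 385093) (nat_lit 49) (.e (nat_lit 778317) (nat_lit 3) .nil))))))) (.g (nat_lit 5) .nil .nil))) 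
(.lf (nat_lit 165994) (.g (nat_lit 2525) (.e (nat_lit 57476) (nat_lit 28) (.e (nat_lit 557097) (nat_lit 13) (.e (nat_lit 172115) (nat_lit 10) (.e (nat_lit 434231) (nat_lit 23) (.e (nat_lit 532528) (nat_lit 9) (.e (nat_lit 336297) (nat_lit 15) (.e (nat_lit 3631) (nat_lit 227) (.e (nat_lit 778317) (nat_lit 3) .nil)))))))) (.g (nat_lit 4) .nil .nil)))) (.nd (nat_lit 5) 
(.lf (nat_lit 165978) (.g (nat_lit 1354) (.e (nat_lit 57476) (nat_lit 28) (.e (nat_lit 557097) (nat_lit 13) (.e (nat_lit 172115) (nat_lit 10) (.e (nat_lit 434219) (nat_lit 19) .nil)))) .nil)) 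
(.lf (nat_lit 166010) (.g (nat_lit 2788) (.e (nat_lit 57476) (nat_lit 28) (.e (nat_lit 557097) (nat_lit 13) (.e (nat_lit 172115) (nat_lit 10) (.e (nat_lit 434231) (nat_lit 23) (.e (nat_lit 532531) (nat_lit 9) (.e (nat_lit 336330) (nat_lit 19) (.e (nat_lit 220928) (nat_lit 3) .nil))))))) (.g (nat_lit 5) .nil .nil)))))) (.nd (nat_lit 3) (.nd (nat_lit 4) (.nd (nat_lit 5) 
(.lf (nat_lit 165958) (.g (nat_lit 2390) (.e (nat_lit 57476) (nat_lit 28) (.e (nat_lit 557097) (nat_lit 13) (.e (nat_lit 172097) (nat_lit 9) (.e (nat_lit 426140) (nat_lit 3) (.e (nat_lit 204879) (nat_lit 32) (.e (nat_lit 385091) (nat_lit 49) (.e (nat_lit 778318) (nat_lit 3) .nil))))))) (.g (nat_lit 4) .nil .nil))) 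
(.lf (nat_lit 165990) (.g (nat_lit 2755) (.e (nat_lit 57476) (nat_lit 28) (.e (nat_lit 557097) (nat_lit 13) (.e (nat_lit 172115) (nat_lit 10) (.e (nat_lit 434231) (nat_lit 23) (.e (nat_lit 532528) (nat_lit 9) (.e (nat_lit 336262) (nat_lit 15) (.e (nat_lit 3629) (nat_lit 227) (.e (nat_lit 778317) (nat_lit 3) .nil)))))))) (.g (nat_lit 4) .nil .nil)))) (.nd (nat_lit 5) 
(.lf (nat_lit 165974) (.g (nat_lit 5101) (.e (nat_lit 57476) (nat_lit 28) (.e (nat_lit 557097) (nat_lit 13) (.e (nat_lit 172106) (nat_lit 10) (.e (nat_lit 434231) (nat_lit 23) (.e (nat_lit 532563) (nat_lit 15) (.e (nat_lit 385094) (nat_lit 49) (.e (nat_lit 778317) (nat_lit 3) .nil))))))) (.g (nat_lit 0) .nil .nil))) 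
(.lf (nat_lit 166006) (.g (nat_lit 4685) (.e (nat_lit 57476) (nat_lit 28) (.e (nat_lit 557097) (nat_lit 13) (.e (nat_lit 172115) (nat_lit 10) (.e (nat_lit 434231) (nat_lit 23) (.e (nat_lit 532529) (nat_lit 9) (.e (nat_lit 336301) (nat_lit 15) (.e (nat_lit 3631) (nat_lit 227) (.e (nat_lit 778317) (nat_lit 3) .nil)))))))) (.g (nat_lit 5) .nil .nil))))) (.nd (nat_lit 4) (.nd (nat_lit 5) 
(.lf (nat_lit 165966) (.g (nat_lit 4180) (.e (nat_lit 57476) (nat_lit 28) (.e (nat_lit 557097) (nat_lit 13) (.e (nat_lit 172097) (nat_lit 9) (.e (nat_lit 426140) (nat_lit 3) (.e (nat_lit 204882) (nat_lit 32) (.e (nat_lit 385094) (nat_lit 49) (.e (nat_lit 778317) (nat_lit 3) .nil))))))) (.g (nat_lit 7) .nil .nil))) 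
(.lf (nat_lit 165998) (.g (nat_lit 3370) (.e (nat_lit 57476) (nat_lit 28) (.e (nat_lit 557097) (nat_lit 13) (.e (nat_lit 172115) (nat_lit 10) (.e (nat_lit 434231) (nat_lit 23) (.e (nat_lit 532528) (nat_lit 9) (.e (nat_lit 336332) (nat_lit 19) (.e (nat_lit 220928) (nat_lit 3) .nil))))))) (.g (nat_lit 5) .nil .nil)))) (.nd (nat_lit 5) 
(.lf (nat_lit 165982) (.g (nat_lit 2752) (.e (nat_lit 57476) (nat_lit 28) (.e (nat_lit 557097) (nat_lit 13) (.e (nat_lit 172115) (nat_lit 10) (.e (nat_lit 434219) (nat_lit 19) (.e (nat_lit 500061) (nat_lit 18) (.e (nat_lit 65637) (nat_lit 15) (.e (nat_lit 3632) (nat_lit 227) (.e (nat_lit 778318) (nat_lit 3) .nil)))))))) (.g (nat_lit 4) .nil .nil))) 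
(.lf (nat_lit 166014) (.g (nat_lit 2172) (.e (nat_lit 57476) (nat_lit 28) (.e (nat_lit 557097) (nat_lit 13) (.e (nat_lit 172115) (nat_lit 10) (.e (nat_lit 434231) (nat_lit 23) (.e (nat_lit 532535) (nat_lit 9) .nil))))) .nil))))))) (.nd (nat_lit 1) (.nd (nat_lit 2) (.nd (nat_lit 3) (.nd (nat_lit 4) (.nd (nat_lit 5) 
(.lf (nat_lit 165953) (.g (nat_lit 1853) (.e (nat_lit 57476) (nat_lit 28) (.e (nat_lit 557097) (nat_lit 13) (.e (nat_lit 172097) (nat_lit 9) (.e (nat_lit 426140) (nat_lit 3) (.e (nat_lit 204863) (nat_lit 27) .nil))))) .nil)) 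
(.lf (nat_lit 165985) (.g (nat_lit 2299) (.e (nat_lit 57476) (nat_lit 28) (.e (nat_lit 557097) (nat_lit 13) (.e (nat_lit 172115) (nat_lit 10) (.e (nat_lit 434231) (nat_lit 23) (.e (nat_lit 532527) (nat_lit 9) .nil))))) .nil))) (.nd (nat_lit 5) 
(.lf (nat_lit 165969) (.g (nat_lit 4656) (.e (nat_lit 57476) (nat_lit 28) (.e (nat_lit 557097) (nat_lit 13) (.e (nat_lit 172105) (nat_lit 10) (.e (nat_lit 434231) (nat_lit 23) (.e (nat_lit 532563) (nat_lit 15) (.e (nat_lit 385094) (nat_lit 49) (.e (nat_lit 778317) (nat_lit 3) .nil))))))) (.g (nat_lit 0) .nil .nil))) 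
(.lf (nat_lit 166001) (.g (nat_lit 3717) (.e (nat_lit 57476) (nat_lit 28) (.e (nat_lit 557097) (nat_lit 13) (.e (nat_lit 172115) (nat_lit 10) (.e (nat_lit 434231) (nat_lit 23) (.e (nat_lit 532529) (nat_lit 9) (.e (nat_lit 336262) (nat_lit 15) (.e (nat_lit 3629) (nat_lit 227) (.e (nat_lit 778317) (nat_lit 3) .nil)))))))) (.g (nat_lit 5) .nil .nil))))) (.nd (nat_lit 4) (.nd (nat_lit 5) 
(.lf (nat_lit 165961) (.g (nat_lit 3666) (.e (nat_lit 57476) (nat_lit 28) (.e (nat_lit 557097) (nat_lit 13) (.e (nat_lit 172097) (nat_lit 9) (.e (nat_lit 426140) (nat_lit 3) (.e (nat_lit 204879) (nat_lit 32) (.e (nat_lit 385094) (nat_lit 49) (.e (nat_lit 778317) (nat_lit 3) .nil))))))) (.g (nat_lit 0) .nil .nil))) 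
(.lf (nat_lit 165993) (.g (nat_lit 2518) (.e (nat_lit 57476) (nat_lit 28) (.e (nat_lit 557097) (nat_lit 13) (.e (nat_lit 172115) (nat_lit 10) (.e (nat_lit 434231) (nat_lit 23) (.e (nat_lit 532528) (nat_lit 9) (.e (nat_lit 336286) (nat_lit 15) (.e (nat_lit 3629) (nat_lit 227) (.e (nat_lit 778317) (nat_lit 3) .nil)))))))) (.g (nat_lit 4) .nil .nil)))) (.nd (nat_lit 5) 
(.lf (nat_lit 165977) (.g (nat_lit 4692) (.e (nat_lit 57476) (nat_lit 28) (.e (nat_lit 557097) (nat_lit 13) (.e (nat_lit 172114) (nat_lit 10) (.e (nat_lit 434231) (nat_lit 23) (.e (nat_lit 532535) (nat_lit 9) (.e (nat_lit 336295) (nat_lit 15) (.e (nat_lit 3630) (nat_lit 227) (.e (nat_lit 778317) (nat_lit 3) .nil)))))))) (.g (nat_lit 5) .nil .nil))) 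
(.lf (nat_lit 166009) (.g (nat_lit 2369) (.e (nat_lit 57476) (nat_lit 28) (.e (nat_lit 557097) (nat_lit 13) (.e (nat_lit 172115) (nat_lit 10) (.e (nat_lit 434231) (nat_lit 23) (.e (nat_lit 532531) (nat_lit 9) (.e (nat_lit 336265) (nat_lit 15) (.e (nat_lit 3630) (nat_lit 227) (.e (nat_lit 778317) (nat_lit 3) .nil)))))))) (.g (nat_lit 4) .nil .nil)))))) 
(.nd (nat_lit 3) (.nd (nat_lit 4) (.nd (nat_lit 5) 
(.lf (nat_lit 165957) (.g (nat_lit 3952) (.e (nat_lit 57476) (nat_lit 28) (.e (nat_lit 557097) (nat_lit 13) (.e (nat_lit 172097) (nat_lit 9) (.e (nat_lit 426140) (nat_lit 3) (.e (nat_lit 204863) (nat_lit 27) (.e (nat_lit 344169) (nat_lit 40) (.e (nat_lit 671757) (nat_lit 3) .nil))))))) (.g (nat_lit 0) .nil .nil))) 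
(.lf (nat_lit 165989) (.g (nat_lit 2459) (.e (nat_lit 57476) (nat_lit 28) (.e (nat_lit 557097) (nat_lit 13) (.e (nat_lit 172115) (nat_lit 10) (.e (nat_lit 434231) (nat_lit 23) (.e (nat_lit 532528) (nat_lit 9) .nil))))) .nil))) (.nd (nat_lit 5) 
(.lf (nat_lit 165973) (.g (nat_lit 3969) (.e (nat_lit 57476) (nat_lit 28) (.e (nat_lit 557097) (nat_lit 13) (.e (nat_lit 172106) (nat_lit 10) (.e (nat_lit 434231) (nat_lit 23) (.e (nat_lit 532563) (nat_lit 15) (.e (nat_lit 385093) (nat_lit 49) (.e (nat_lit 778318) (nat_lit 3) .nil))))))) (.g (nat_lit 5) .nil .nil))) 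
(.lf (nat_lit 166005) (.g (nat_lit 3627) (.e (nat_lit 57476) (nat_lit 28) (.e (nat_lit 557097) (nat_lit 13) (.e (nat_lit 172115) (nat_lit 10) (.e (nat_lit 434231) (nat_lit 23) (.e (nat_lit 532529) (nat_lit 9) (.e (nat_lit 336297) (nat_lit 15) (.e (nat_lit 3630) (nat_lit 227) (.e (nat_lit 778317) (nat_lit 3) .nil)))))))) (.g (nat_lit 5) .nil .nil))))) (.nd (nat_lit 4) (.nd (nat_lit 5) 
(.lf (nat_lit 165965) (.g (nat_lit 4710) (.e (nat_lit 57476) (nat_lit 28) (.e (nat_lit 557097) (nat_lit 13) (.e (nat_lit 172097) (nat_lit 9) (.e (nat_lit 426140) (nat_lit 3) (.e (nat_lit 204882) (nat_lit 32) (.e (nat_lit 385093) (nat_lit 49) (.e (nat_lit 778318) (nat_lit 3) .nil))))))) (.g (nat_lit 7) .nil .nil))) 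
(.lf (nat_lit 165997) (.g (nat_lit 2763) (.e (nat_lit 57476) (nat_lit 28) (.e (nat_lit 557097) (nat_lit 13) (.e (nat_lit 172115) (nat_lit 10) (.e (nat_lit 434231) (nat_lit 23) (.e (nat_lit 532528) (nat_lit 9) (.e (nat_lit 336330) (nat_lit 19) (.e (nat_lit 220928) (nat_lit 3) .nil))))))) (.g (nat_lit 4) .nil .nil)))) (.nd (nat_lit 5) 
(.lf (nat_lit 165981) (.g (nat_lit 2173) (.e (nat_lit 57476) (nat_lit 28) (.e (nat_lit 557097) (nat_lit 13) (.e (nat_lit 172115) (nat_lit 10) (.e (nat_lit 434219) (nat_lit 19) (.e (nat_lit 499968) (nat_lit 14) .nil))))) .nil)) 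
(.lf (nat_lit 166013) (.g (nat_lit 2837) (.e (nat_lit 57476) (nat_lit 28) (.e (nat_lit 557097) (nat_lit 13) (.e (nat_lit 172115) (nat_lit 10) (.e (nat_lit 434231) (nat_lit 23) (.e (nat_lit 532534) (nat_lit 9) (.e (nat_lit 336332) (nat_lit 19) (.e (nat_lit 220928) (nat_lit 3) .nil))))))) (.g (nat_lit 4) .nil .nil))))))) (.nd (nat_lit 2) (.nd (nat_lit 3) (.nd (nat_lit 4) (.nd (nat_lit 5) 
(.lf (nat_lit 165955) (.g (nat_lit 3460) (.e (nat_lit 57476) (nat_lit 28) (.e (nat_lit 557097) (nat_lit 13) (.e (nat_lit 172097) (nat_lit 9) (.e (nat_lit 426140) (nat_lit 3) (.e (nat_lit 204863) (nat_lit 27) (.e (nat_lit 344097) (nat_lit 18) (.e (nat_lit 5905) (nat_lit 320) (.e (nat_lit 1172) (nat_lit 87) .nil)))))))) (.g (nat_lit 6) .nil .nil))) 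
(.lf (nat_lit 165987) (.g (nat_lit 3890) (.e (nat_lit 57476) (nat_lit 28) (.e (nat_lit 557097) (nat_lit 13) (.e (nat_lit 172115) (nat_lit 10) (.e (nat_lit 434231) (nat_lit 23) (.e (nat_lit 532527) (nat_lit 9) (.e (nat_lit 335997) (nat_lit 1) (.e (nat_lit 57870) (nat_lit 264) (.e (nat_lit 1171) (nat_lit 87) .nil)))))))) (.g (nat_lit 0) .nil .nil)))) (.nd (nat_lit 5) 
(.lf (nat_lit 165971) (.g (nat_lit 3730) (.e (nat_lit 57476) (nat_lit 28) (.e (nat_lit 557097) (nat_lit 13) (.e (nat_lit 172105) (nat_lit 10) (.e (nat_lit 434234) (nat_lit 23) (.e (nat_lit 532563) (nat_lit 15) (.e (nat_lit 385094) (nat_lit 49) (.e (nat_lit 778317) (nat_lit 3) .nil))))))) (.g (nat_lit 0) .nil .nil))) 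
(.lf (nat_lit 166003) (.g (nat_lit 4641) (.e (nat_lit 57476) (nat_lit 28) (.e (nat_lit 557097) (nat_lit 13) (.e (nat_lit 172115) (nat_lit 10) (.e (nat_lit 434231) (nat_lit 23) (.e (nat_lit 532529) (nat_lit 9) (.e (nat_lit 336265) (nat_lit 15) (.e (nat_lit 3631) (nat_lit 227) (.e (nat_lit 778317) (nat_lit 3) .nil)))))))) (.g (nat_lit 5) .nil .nil))))) (.nd (nat_lit 4) (.nd (nat_lit 5) 
(.lf (nat_lit 165963) (.g (nat_lit 2929) (.e (nat_lit 57476) (nat_lit 28) (.e (nat_lit 557097) (nat_lit 13) (.e (nat_lit 172097) (nat_lit 9) (.e (nat_lit 426140) (nat_lit 3) (.e (nat_lit 204882) (nat_lit 32) (.e (nat_lit 385091) (nat_lit 49) (.e (nat_lit 778317) (nat_lit 3) .nil))))))) (.g (nat_lit 5) .nil .nil))) 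
(.lf (nat_lit 165995) (.g (nat_lit 3545) (.e (nat_lit 57476) (nat_lit 28) (.e (nat_lit 557097) (nat_lit 13) (.e (nat_lit 172115) (nat_lit 10) (.e (nat_lit 434231) (nat_lit 23) (.e (nat_lit 532528) (nat_lit 9) (.e (nat_lit 336301) (nat_lit 15) (.e (nat_lit 3631) (nat_lit 227) (.e (nat_lit 778317) (nat_lit 3) .nil)))))))) (.g (nat_lit 5) .nil .nil)))) (.nd (nat_lit 5) 
(.lf (nat_lit 165979) (.g (nat_lit 2171) (.e (nat_lit 57476) (nat_lit 28) (.e (nat_lit 557097) (nat_lit 13) (.e (nat_lit 172115) (nat_lit 10) (.e (nat_lit 434219) (nat_lit 19) (.e (nat_lit 499952) (nat_lit 14) .nil))))) .nil)) 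
(.lf (nat_lit 166011) (.g (nat_lit 3079) (.e (nat_lit 57476) (nat_lit 28) (.e (nat_lit 557097) (nat_lit 13) (.e (nat_lit 172115) (nat_lit 10) (.e (nat_lit 434231) (nat_lit 23) (.e (nat_lit 532531) (nat_lit 9) (.e (nat_lit 336332) (nat_lit 19) (.e (nat_lit 220928) (nat_lit 3) .nil))))))) (.g (nat_lit 6) .nil .nil)))))) (.nd (nat_lit 3) (.nd (nat_lit 4) (.nd (nat_lit 5) 
(.lf (nat_lit 165959) (.g (nat_lit 2795) (.e (nat_lit 57476) (nat_lit 28) (.e (nat_lit 557097) (nat_lit 13) (.e (nat_lit 172097) (nat_lit 9) (.e (nat_lit 426140) (nat_lit 3) (.e (nat_lit 204879) (nat_lit 32) (.e (nat_lit 385092) (nat_lit 49) (.e (nat_lit 778318) (nat_lit 3) .nil))))))) (.g (nat_lit 5) .nil .nil))) 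
(.lf (nat_lit 165991) (.g (nat_lit 3422) (.e (nat_lit 57476) (nat_lit 28) (.e (nat_lit 557097) (nat_lit 13) (.e (nat_lit 172115) (nat_lit 10) (.e (nat_lit 434231) (nat_lit 23) (.e (nat_lit 532528) (nat_lit 9) (.e (nat_lit 336265) (nat_lit 15) (.e (nat_lit 3629) (nat_lit 227) (.e (nat_lit 778317) (nat_lit 3) .nil)))))))) (.g (nat_lit 5) .nil .nil)))) (.nd (nat_lit 5) 
(.lf (nat_lit 165975) (.g (nat_lit 3761) (.e (nat_lit 57476) (nat_lit 28) (.e (nat_lit 557097) (nat_lit 13) (.e (nat_lit 172106) (nat_lit 10) (.e (nat_lit 434231) (nat_lit 23) (.e (nat_lit 532563) (nat_lit 15) (.e (nat_lit 385094) (nat_lit 49) (.e (nat_lit 778318) (nat_lit 3) .nil))))))) (.g (nat_lit 5) .nil .nil))) 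
(.lf (nat_lit 166007) (.g (nat_lit 3359) (.e (nat_lit 57476) (nat_lit 28) (.e (nat_lit 557097) (nat_lit 13) (.e (nat_lit 172115) (nat_lit 10) (.e (nat_lit 434231) (nat_lit 23) (.e (nat_lit 532530) (nat_lit 9) (.e (nat_lit 336332) (nat_lit 19) (.e (nat_lit 220928) (nat_lit 3) .nil))))))) (.g (nat_lit 6) .nil .nil))))) (.nd (nat_lit 4) (.nd (nat_lit 5) 
(.lf (nat_lit 165967) (.g (nat_lit 1763) (.e (nat_lit 57476) (nat_lit 28) (.e (nat_lit 557097) (nat_lit 13) (.e (nat_lit 172097) (nat_lit 9) (.e (nat_lit 426140) (nat_lit 3) (.e (nat_lit 212736) (nat_lit 32) .nil))))) .nil)) 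
(.lf (nat_lit 165999) (.g (nat_lit 2704) (.e (nat_lit 57476) (nat_lit 28) (.e (nat_lit 557097) (nat_lit 13) (.e (nat_lit 172115) (nat_lit 10) (.e (nat_lit 434231) (nat_lit 23) (.e (nat_lit 532528) (nat_lit 9) (.e (nat_lit 336354) (nat_lit 24) (.e (nat_lit 270080) (nat_lit 3) .nil))))))) (.g (nat_lit 4) .nil .nil)))) (.nd (nat_lit 5) 
(.lf (nat_lit 165983) (.g (nat_lit 1354) (.e (nat_lit 57476) (nat_lit 28) (.e (nat_lit 557097) (nat_lit 13) (.e (nat_lit 172115) (nat_lit 10) (.e (nat_lit 434231) (nat_lit 23) .nil)))) .nil)) 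
(.lf (nat_lit 166015) (.g (nat_lit 2481) (.e (nat_lit 57476) (nat_lit 28) (.e (nat_lit 557097) (nat_lit 13) (.e (nat_lit 172115) (nat_lit 10) (.e (nat_lit 434231) (nat_lit 23) (.e (nat_lit 532535) (nat_lit 9) (.e (nat_lit 335886) (nat_lit 0) (.e (nat_lit 2006) (nat_lit 138) (.e (nat_lit 671757) (nat_lit 3) .nil)))))))) (.g (nat_lit 4) .nil .nil)))))))))

noncomputable def tv2226 : DT := (.nd (nat_lit 0) (.nd (nat_lit 1) (.nd (nat_lit 2) (.nd (nat_lit 3) (.nd (nat_lit 4) (.nd (nat_lit 5) 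
(.lf (nat_lit 166016) (.g (nat_lit 2541) (.e (nat_lit 57476) (nat_lit 28) (.e (nat_lit 557097) (nat_lit 13) (.e (nat_lit 172115) (nat_lit 10) (.e (nat_lit 434231) (nat_lit 23) (.e (nat_lit 532535) (nat_lit 9) (.e (nat_lit 335905) (nat_lit 0) (.e (nat_lit 1994) (nat_lit 137) (.e (nat_lit 663564) (nat_lit 3) .nil)))))))) (.g (nat_lit 4) .nil .nil))) 
(.lf (nat_lit 166048) (.g (nat_lit 3164) (.e (nat_lit 57476) (nat_lit 28) (.e (nat_lit 557097) (nat_lit 13) (.e (nat_lit 172115) (nat_lit 10) (.e (nat_lit 434231) (nat_lit 23) (.e (nat_lit 532543) (nat_lit 10) (.e (nat_lit 344097) (nat_lit 18) (.e (nat_lit 5906) (nat_lit 320) (.e (nat_lit 1170) (nat_lit 87) .nil)))))))) (.g (nat_lit 5) .nil .nil)))) (.nd (nat_lit 5) 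
(.lf (nat_lit 166032) (.g (nat_lit 4334) (.e (nat_lit 57476) (nat_lit 28) (.e (nat_lit 557097) (nat_lit 13) (.e (nat_lit 172115) (nat_lit 10) (.e (nat_lit 434231) (nat_lit 23) (.e (nat_lit 532535) (nat_lit 9) (.e (nat_lit 336294) (nat_lit 15) (.e (nat_lit 3632) (nat_lit 227) (.e (nat_lit 778317) (nat_lit 3) .nil)))))))) (.g (nat_lit 5) .nil .nil))) 
(.lf (nat_lit 166064) (.g (nat_lit 3489) (.e (nat_lit 57476) (nat_lit 28) (.e (nat_lit 557097) (nat_lit 13) (.e (nat_lit 172115) (nat_lit 10) (.e (nat_lit 434231) (nat_lit 23) (.e (nat_lit 532554) (nat_lit 13) (.e (nat_lit 368662) (nat_lit 18) (.e (nat_lit 5906) (nat_lit 320) (.e (nat_lit 1170) (nat_lit 87) .nil)))))))) (.g (nat_lit 5) .nil .nil))))) (.nd (nat_lit 4) (.nd (nat_lit 5) 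
(.lf (nat_lit 166024) (.g (nat_lit 3094) (.e (nat_lit 57476) (nat_lit 28) (.e (nat_lit 557097) (nat_lit 13) (.e (nat_lit 172115) (nat_lit 10) (.e (nat_lit 434231) (nat_lit 23) (.e (nat_lit 532535) (nat_lit 9) (.e (nat_lit 335985) (nat_lit 1) (.e (nat_lit 57872) (nat_lit 264) (.e (nat_lit 1170) (nat_lit 87) .nil)))))))) (.g (nat_lit 5) .nil .nil))) 
(.lf (nat_lit 166056) (.g (nat_lit 4620) (.e (nat_lit 57476) (nat_lit 28) (.e (nat_lit 557097) (nat_lit 13) (.e (nat_lit 172115) (nat_lit 10) (.e (nat_lit 434231) (nat_lit 23) (.e (nat_lit 532544) (nat_lit 10) (.e (nat_lit 344169) (nat_lit 40) (.e (nat_lit 671757) (nat_lit 3) .nil))))))) (.g (nat_lit 0) .nil .nil)))) (.nd (nat_lit 5) 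
(.lf (nat_lit 166040) (.g (nat_lit 2660) (.e (nat_lit 57476) (nat_lit 28) (.e (nat_lit 557097) (nat_lit 13) (.e (nat_lit 172115) (nat_lit 10) (.e (nat_lit 434231) (nat_lit 23) (.e (nat_lit 532536) (nat_lit 9) (.e (nat_lit 335997) (nat_lit 1) (.e (nat_lit 57871) (nat_lit 264) (.e (nat_lit 1171) (nat_lit 87) .nil)))))))) (.g (nat_lit 4) .nil .nil))) 
(.lf (nat_lit 166072) (.g (nat_lit 2491) (.e (nat_lit 57476) (nat_lit 28) (.e (nat_lit 557097) (nat_lit 13) (.e (nat_lit 172115) (nat_lit 10) (.e (nat_lit 434231) (nat_lit 23) (.e (nat_lit 532562) (nat_lit 15) (.e (nat_lit 385091) (nat_lit 49) (.e (nat_lit 778317) (nat_lit 3) .nil))))))) (.g (nat_lit 4) .nil .nil)))))) (.nd (nat_lit 3) (.nd (nat_lit 4) (.nd (nat_lit 5) 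
(.lf (nat_lit 166020) (.g (nat_lit 4132) (.e (nat_lit 57476) (nat_lit 28) (.e (nat_lit 557097) (nat_lit 13) (.e (nat_lit 172115) (nat_lit 10) (.e (nat_lit 434231) (nat_lit 23) (.e (nat_lit 532535) (nat_lit 9) (.e (nat_lit 335925) (nat_lit 0) (.e (nat_lit 1023) (nat_lit 81) (.e (nat_lit 5906) (nat_lit 320) (.e (nat_lit 1172) (nat_lit 87) .nil))))))))) (.g (nat_lit 5) .nil .nil))) 
(.lf (nat_lit 166052) (.g (nat_lit 3620) (.e (nat_lit 57476) (nat_lit 28) (.e (nat_lit 557097) (nat_lit 13) (.e (nat_lit 172115) (nat_lit 10) (.e (nat_lit 434231) (nat_lit 23) (.e (nat_lit 532544) (nat_lit 10) (.e (nat_lit 344097) (nat_lit 18) (.e (nat_lit 5905) (nat_lit 320) (.e (nat_lit 1170) (nat_lit 87) .nil)))))))) (.g (nat_lit 5) .nil .nil)))) (.nd (nat_lit 5) 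
(.lf (nat_lit 166036) (.g (nat_lit 3111) (.e (nat_lit 57476) (nat_lit 28) (.e (nat_lit 557097) (nat_lit 13) (.e (nat_lit 172115) (nat_lit 10) (.e (nat_lit 434231) (nat_lit 23) (.e (nat_lit 532535) (nat_lit 9) (.e (nat_lit 343808) (nat_lit 24) (.e (nat_lit 270080) (nat_lit 3) .nil))))))) (.g (nat_lit 5) .nil .nil))) 
(.lf (nat_lit 166068) (.g (nat_lit 3163) (.e (nat_lit 57476) (nat_lit 28) (.e (nat_lit 557097) (nat_lit 13) (.e (nat_lit 172115) (nat_lit 10) (.e (nat_lit 434231) (nat_lit 23) (.e (nat_lit 532555) (nat_lit 13) (.e (nat_lit 368662) (nat_lit 18) (.e (nat_lit 5906) (nat_lit 320) (.e (nat_lit 1172) (nat_lit 87) .nil)))))))) (.g (nat_lit 5) .nil .nil))))) (.nd (nat_lit 4) (.nd (nat_lit 5) 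
(.lf (nat_lit 166028) (.g (nat_lit 2268) (.e (nat_lit 57476) (nat_lit 28) (.e (nat_lit 557097) (nat_lit 13) (.e (nat_lit 172115) (nat_lit 10) (.e (nat_lit 434231) (nat_lit 23) (.e (nat_lit 532535) (nat_lit 9) (.e (nat_lit 336030) (nat_lit 4) (.e (nat_lit 123182) (nat_lit 264) (.e (nat_lit 1174) (nat_lit 87) .nil)))))))) (.g (nat_lit 4) .nil .nil))) 
(.lf (nat_lit 166060) (.g (nat_lit 2577) (.e (nat_lit 57476) (nat_lit 28) (.e (nat_lit 557097) (nat_lit 13) (.e (nat_lit 172115) (nat_lit 10) (.e (nat_lit 434231) (nat_lit 23) (.e (nat_lit 532553) (nat_lit 13) (.e (nat_lit 368662) (nat_lit 18) (.e (nat_lit 5905) (nat_lit 320) (.e (nat_lit 1171) (nat_lit 87) .nil)))))))) (.g (nat_lit 4) .nil .nil)))) (.nd (nat_lit 5) 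
(.lf (nat_lit 166044) (.g (nat_lit 2108) (.e (nat_lit 57476) (nat_lit 28) (.e (nat_lit 557097) (nat_lit 13) (.e (nat_lit 172115) (nat_lit 10) (.e (nat_lit 434231) (nat_lit 23) (.e (nat_lit 540416) (nat_lit 9) .nil))))) .nil)) 
(.lf (nat_lit 166076) (.g (nat_lit 4070) (.e (nat_lit 57476) (nat_lit 28) (.e (nat_lit 557097) (nat_lit 13) (.e (nat_lit 172115) (nat_lit 10) (.e (nat_lit 434231) (nat_lit 23) (.e (nat_lit 532562) (nat_lit 15) (.e (nat_lit 385094) (nat_lit 49) (.e (nat_lit 778317) (nat_lit 3) .nil))))))) (.g (nat_lit 0) .nil .nil))))))) (.nd (nat_lit 2) (.nd (nat_lit 3) (.nd (nat_lit 4) (.nd (nat_lit 5) 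
(.lf (nat_lit 166018) (.g (nat_lit 2765) (.e (nat_lit 57476) (nat_lit 28) (.e (nat_lit 557097) (nat_lit 13) (.e (nat_lit 172115) (nat_lit 10) (.e (nat_lit 434231) (nat_lit 23) (.e (nat_lit 532535) (nat_lit 9) (.e (nat_lit 335905) (nat_lit 0) (.e (nat_lit 1999) (nat_lit 137) (.e (nat_lit 663564) (nat_lit 3) .nil)))))))) (.g (nat_lit 4) .nil .nil))) 
(.lf (nat_lit 166050) (.g (nat_lit 2418) (.e (nat_lit 57476) (nat_lit 28) (.e (nat_lit 557097) (nat_lit 13) (.e (nat_lit 172115) (nat_lit 10) (.e (nat_lit 434231) (nat_lit 23) (.e (nat_lit 532543) (nat_lit 10) (.e (nat_lit 344167) (nat_lit 40) (.e (nat_lit 671757) (nat_lit 3) .nil))))))) (.g (nat_lit 4) .nil .nil)))) (.nd (nat_lit 5) 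
(.lf (nat_lit 166034) (.g (nat_lit 5985) (.e (nat_lit 57476) (nat_lit 28) (.e (nat_lit 557097) (nat_lit 13) (.e (nat_lit 172115) (nat_lit 10) (.e (nat_lit 434231) (nat_lit 23) (.e (nat_lit 532535) (nat_lit 9) (.e (nat_lit 336295) (nat_lit 15) (.e (nat_lit 3632) (nat_lit 227) (.e (nat_lit 778317) (nat_lit 3) .nil)))))))) (.g (nat_lit 0) .nil .nil))) 
(.lf (nat_lit 166066) (.g (nat_lit 3512) (.e (nat_lit 57476) (nat_lit 28) (.e (nat_lit 557097) (nat_lit 13) (.e (nat_lit 172115) (nat_lit 10) (.e (nat_lit 434231) (nat_lit 23) (.e (nat_lit 532554) (nat_lit 13) (.e (nat_lit 368662) (nat_lit 18) (.e (nat_lit 5907) (nat_lit 320) (.e (nat_lit 1170) (nat_lit 87) .nil)))))))) (.g (nat_lit 5) .nil .nil))))) (.nd (nat_lit 4) (.nd (nat_lit 5) 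
(.lf (nat_lit 166026) (.g (nat_lit 4026) (.e (nat_lit 57476) (nat_lit 28) (.e (nat_lit 557097) (nat_lit 13) (.e (nat_lit 172115) (nat_lit 10) (.e (nat_lit 434231) (nat_lit 23) (.e (nat_lit 532535) (nat_lit 9) (.e (nat_lit 335992) (nat_lit 1) (.e (nat_lit 57872) (nat_lit 264) (.e (nat_lit 1172) (nat_lit 87) .nil)))))))) (.g (nat_lit 5) .nil .nil))) 
(.lf (nat_lit 166058) (.g (nat_lit 2811) (.e (nat_lit 57476) (nat_lit 28) (.e (nat_lit 557097) (nat_lit 13) (.e (nat_lit 172115) (nat_lit 10) (.e (nat_lit 434231) (nat_lit 23) (.e (nat_lit 532545) (nat_lit 10) (.e (nat_lit 344097) (nat_lit 18) (.e (nat_lit 5907) (nat_lit 320) (.e (nat_lit 1172) (nat_lit 87) .nil)))))))) (.g (nat_lit 4) .nil .nil)))) (.nd (nat_lit 5) 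
(.lf (nat_lit 166042) (.g (nat_lit 2635) (.e (nat_lit 57476) (nat_lit 28) (.e (nat_lit 557097) (nat_lit 13) (.e (nat_lit 172115) (nat_lit 10) (.e (nat_lit 434231) (nat_lit 23) (.e (nat_lit 532537) (nat_lit 9) .nil))))) .nil)) 
(.lf (nat_lit 166074) (.g (nat_lit 2981) (.e (nat_lit 57476) (nat_lit 28) (.e (nat_lit 557097) (nat_lit 13) (.e (nat_lit 172115) (nat_lit 10) (.e (nat_lit 434231) (nat_lit 23) (.e (nat_lit 532562) (nat_lit 15) (.e (nat_lit 385092) (nat_lit 49) (.e (nat_lit 778318) (nat_lit 3) .nil))))))) (.g (nat_lit 5) .nil .nil)))))) (.nd (nat_lit 3) (.nd (nat_lit 4) (.nd (nat_lit 5) 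
(.lf (nat_lit 166022) (.g (nat_lit 4226) (.e (nat_lit 57476) (nat_lit 28) (.e (nat_lit 557097) (nat_lit 13) (.e (nat_lit 172115) (nat_lit 10) (.e (nat_lit 434231) (nat_lit 23) (.e (nat_lit 532535) (nat_lit 9) (.e (nat_lit 335928) (nat_lit 0) (.e (nat_lit 2006) (nat_lit 138) (.e (nat_lit 671757) (nat_lit 3) .nil)))))))) (.g (nat_lit 0) .nil .nil))) 
(.lf (nat_lit 166054) (.g (nat_lit 3298) (.e (nat_lit 57476) (nat_lit 28) (.e (nat_lit 557097) (nat_lit 13) (.e (nat_lit 172115) (nat_lit 10) (.e (nat_lit 434231) (nat_lit 23) (.e (nat_lit 532544) (nat_lit 10) (.e (nat_lit 344097) (nat_lit 18) (.e (nat_lit 5907) (nat_lit 320) (.e (nat_lit 1171) (nat_lit 87) .nil)))))))) (.g (nat_lit 5) .nil .nil)))) (.nd (nat_lit 5) 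
(.lf (nat_lit 166038) (.g (nat_lit 2713) (.e (nat_lit 57476) (nat_lit 28) (.e (nat_lit 557097) (nat_lit 13) (.e (nat_lit 172115) (nat_lit 10) (.e (nat_lit 434231) (nat_lit 23) (.e (nat_lit 532536) (nat_lit 9) (.e (nat_lit 335997) (nat_lit 1) (.e (nat_lit 57870) (nat_lit 264) (.e (nat_lit 1171) (nat_lit 87) .nil)))))))) (.g (nat_lit 4) .nil .nil))) 
(.lf (nat_lit 166070) (.g (nat_lit 3352) (.e (nat_lit 57476) (nat_lit 28) (.e (nat_lit 557097) (nat_lit 13) (.e (nat_lit 172115) (nat_lit 10) (.e (nat_lit 434231) (nat_lit 23) (.e (nat_lit 532555) (nat_lit 13) (.e (nat_lit 368662) (nat_lit 18) (.e (nat_lit 5907) (nat_lit 320) (.e (nat_lit 1172) (nat_lit 87) .nil)))))))) (.g (nat_lit 5) .nil .nil))))) (.nd (nat_lit 4) (.nd (nat_lit 5) 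
(.lf (nat_lit 166030) (.g (nat_lit 2468) (.e (nat_lit 57476) (nat_lit 28) (.e (nat_lit 557097) (nat_lit 13) (.e (nat_lit 172115) (nat_lit 10) (.e (nat_lit 434231) (nat_lit 23) (.e (nat_lit 532535) (nat_lit 9) (.e (nat_lit 336030) (nat_lit 4) (.e (nat_lit 123184) (nat_lit 264) (.e (nat_lit 1175) (nat_lit 87) .nil)))))))) (.g (nat_lit 4) .nil .nil))) 
(.lf (nat_lit 166062) (.g (nat_lit 2563) (.e (nat_lit 57476) (nat_lit 28) (.e (nat_lit 557097) (nat_lit 13) (.e (nat_lit 172115) (nat_lit 10) (.e (nat_lit 434231) (nat_lit 23) (.e (nat_lit 532553) (nat_lit 13) (.e (nat_lit 368662) (nat_lit 18) (.e (nat_lit 5907) (nat_lit 320) (.e (nat_lit 1170) (nat_lit 87) .nil)))))))) (.g (nat_lit 4) .nil .nil)))) (.nd (nat_lit 5) 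
(.lf (nat_lit 166046) (.g (nat_lit 2448) (.e (nat_lit 57476) (nat_lit 28) (.e (nat_lit 557097) (nat_lit 13) (.e (nat_lit 172115) (nat_lit 10) (.e (nat_lit 434231) (nat_lit 23) (.e (nat_lit 532543) (nat_lit 10) (.e (nat_lit 344090) (nat_lit 18) (.e (nat_lit 5896) (nat_lit 320) (.e (nat_lit 7936) (nat_lit 87) .nil)))))))) (.g (nat_lit 4) .nil .nil))) 
(.lf (nat_lit 166078) (.g (nat_lit 4613) (.e (nat_lit 57476) (nat_lit 28) (.e (nat_lit 557097) (nat_lit 13) (.e (nat_lit 172115) (nat_lit 10) (.e (nat_lit 434231) (nat_lit 23) (.e (nat_lit 532563) (nat_lit 15) (.e (nat_lit 385094) (nat_lit 49) (.e (nat_lit 778317) (nat_lit 3) .nil))))))) (.g (nat_lit 7) .nil .nil)))))))) 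
(.nd (nat_lit 1) (.nd (nat_lit 2) (.nd (nat_lit 3) (.nd (nat_lit 4) (.nd (nat_lit 5) 
(.lf (nat_lit 166017) (.g (nat_lit 2504) (.e (nat_lit 57476) (nat_lit 28) (.e (nat_lit 557097) (nat_lit 13) (.e (nat_lit 172115) (nat_lit 10) (.e (nat_lit 434231) (nat_lit 23) (.e (nat_lit 532535) (nat_lit 9) (.e (nat_lit 335905) (nat_lit 0) (.e (nat_lit 1996) (nat_lit 137) (.e (nat_lit 663564) (nat_lit 3) .nil)))))))) (.g (nat_lit 4) .nil .nil))) 
(.lf (nat_lit 166049) (.g (nat_lit 2981) (.e (nat_lit 57476) (nat_lit 28) (.e (nat_lit 557097) (nat_lit 13) (.e (nat_lit 172115) (nat_lit 10) (.e (nat_lit 434231) (nat_lit 23) (.e (nat_lit 532543) (nat_lit 10) (.e (nat_lit 344097) (nat_lit 18) (.e (nat_lit 5907) (nat_lit 320) (.e (nat_lit 1171) (nat_lit 87) .nil)))))))) (.g (nat_lit 5) .nil .nil)))) (.nd (nat_lit 5) 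
(.lf (nat_lit 166033) (.g (nat_lit 5283) (.e (nat_lit 57476) (nat_lit 28) (.e (nat_lit 557097) (nat_lit 13) (.e (nat_lit 172115) (nat_lit 10) (.e (nat_lit 434231) (nat_lit 23) (.e (nat_lit 532535) (nat_lit 9) (.e (nat_lit 336295) (nat_lit 15) (.e (nat_lit 3631) (nat_lit 227) (.e (nat_lit 778317) (nat_lit 3) .nil)))))))) (.g (nat_lit 0) .nil .nil))) 
(.lf (nat_lit 166065) (.g (nat_lit 4557) (.e (nat_lit 57476) (nat_lit 28) (.e (nat_lit 557097) (nat_lit 13) (.e (nat_lit 172115) (nat_lit 10) (.e (nat_lit 434231) (nat_lit 23) (.e (nat_lit 532554) (nat_lit 13) (.e (nat_lit 368662) (nat_lit 18) (.e (nat_lit 5906) (nat_lit 320) (.e (nat_lit 1172) (nat_lit 87) .nil)))))))) (.g (nat_lit 7) .nil .nil))))) (.nd (nat_lit 4) (.nd (nat_lit 5) 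
(.lf (nat_lit 166025) (.g (nat_lit 3378) (.e (nat_lit 57476) (nat_lit 28) (.e (nat_lit 557097) (nat_lit 13) (.e (nat_lit 172115) (nat_lit 10) (.e (nat_lit 434231) (nat_lit 23) (.e (nat_lit 532535) (nat_lit 9) (.e (nat_lit 335985) (nat_lit 1) (.e (nat_lit 57873) (nat_lit 264) (.e (nat_lit 1170) (nat_lit 87) .nil)))))))) (.g (nat_lit 5) .nil .nil))) 
(.lf (nat_lit 166057) (.g (nat_lit 2601) (.e (nat_lit 57476) (nat_lit 28) (.e (nat_lit 557097) (nat_lit 13) (.e (nat_lit 172115) (nat_lit 10) (.e (nat_lit 434231) (nat_lit 23) (.e (nat_lit 532545) (nat_lit 10) .nil))))) .nil))) (.nd (nat_lit 5) 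
(.lf (nat_lit 166041) (.g (nat_lit 2816) (.e (nat_lit 57476) (nat_lit 28) (.e (nat_lit 557097) (nat_lit 13) (.e (nat_lit 172115) (nat_lit 10) (.e (nat_lit 434231) (nat_lit 23) (.e (nat_lit 532536) (nat_lit 9) (.e (nat_lit 335997) (nat_lit 1) (.e (nat_lit 57872) (nat_lit 264) (.e (nat_lit 1172) (nat_lit 87) .nil)))))))) (.g (nat_lit 4) .nil .nil))) 
(.lf (nat_lit 166073) (.g (nat_lit 3533) (.e (nat_lit 57476) (nat_lit 28) (.e (nat_lit 557097) (nat_lit 13) (.e (nat_lit 172115) (nat_lit 10) (.e (nat_lit 434231) (nat_lit 23) (.e (nat_lit 532562) (nat_lit 15) (.e (nat_lit 385091) (nat_lit 49) (.e (nat_lit 778318) (nat_lit 3) .nil))))))) (.g (nat_lit 5) .nil .nil)))))) (.nd (nat_lit 3) (.nd (nat_lit 4) (.nd (nat_lit 5) 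
(.lf (nat_lit 166021) (.g (nat_lit 2355) (.e (nat_lit 57476) (nat_lit 28) (.e (nat_lit 557097) (nat_lit 13) (.e (nat_lit 172115) (nat_lit 10) (.e (nat_lit 434231) (nat_lit 23) (.e (nat_lit 532535) (nat_lit 9) (.e (nat_lit 335928) (nat_lit 0) (.e (nat_lit 1023) (nat_lit 81) (.e (nat_lit 5905) (nat_lit 320) (.e (nat_lit 1171) (nat_lit 87) .nil))))))))) (.g (nat_lit 4) .nil .nil))) 
(.lf (nat_lit 166053) (.g (nat_lit 3468) (.e (nat_lit 57476) (nat_lit 28) (.e (nat_lit 557097) (nat_lit 13) (.e (nat_lit 172115) (nat_lit 10) (.e (nat_lit 434231) (nat_lit 23) (.e (nat_lit 532544) (nat_lit 10) (.e (nat_lit 344097) (nat_lit 18) (.e (nat_lit 5906) (nat_lit 320) (.e (nat_lit 1170) (nat_lit 87) .nil)))))))) (.g (nat_lit 5) .nil .nil)))) (.nd (nat_lit 5) 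
(.lf (nat_lit 166037) (.g (nat_lit 2482) (.e (nat_lit 57476) (nat_lit 28) (.e (nat_lit 557097) (nat_lit 13) (.e (nat_lit 172115) (nat_lit 10) (.e (nat_lit 434231) (nat_lit 23) (.e (nat_lit 532536) (nat_lit 9) .nil))))) .nil)) 
(.lf (nat_lit 166069) (.g (nat_lit 2291) (.e (nat_lit 57476) (nat_lit 28) (.e (nat_lit 557097) (nat_lit 13) (.e (nat_lit 172115) (nat_lit 10) (.e (nat_lit 434231) (nat_lit 23) (.e (nat_lit 532555) (nat_lit 13) (.e (nat_lit 368662) (nat_lit 18) (.e (nat_lit 5907) (nat_lit 320) (.e (nat_lit 1170) (nat_lit 87) .nil)))))))) (.g (nat_lit 4) .nil .nil))))) (.nd (nat_lit 4) (.nd (nat_lit 5) 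
(.lf (nat_lit 166029) (.g (nat_lit 2232) (.e (nat_lit 57476) (nat_lit 28) (.e (nat_lit 557097) (nat_lit 13) (.e (nat_lit 172115) (nat_lit 10) (.e (nat_lit 434231) (nat_lit 23) (.e (nat_lit 532535) (nat_lit 9) (.e (nat_lit 336030) (nat_lit 4) (.e (nat_lit 123183) (nat_lit 264) (.e (nat_lit 1175) (nat_lit 87) .nil)))))))) (.g (nat_lit 4) .nil .nil))) 
(.lf (nat_lit 166061) (.g (nat_lit 3442) (.e (nat_lit 57476) (nat_lit 28) (.e (nat_lit 557097) (nat_lit 13) (.e (nat_lit 172115) (nat_lit 10) (.e (nat_lit 434231) (nat_lit 23) (.e (nat_lit 532553) (nat_lit 13) (.e (nat_lit 368662) (nat_lit 18) (.e (nat_lit 5906) (nat_lit 320) (.e (nat_lit 1172) (nat_lit 87) .nil)))))))) (.g (nat_lit 5) .nil .nil)))) (.nd (nat_lit 5) 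
(.lf (nat_lit 166045) (.g (nat_lit 2302) (.e (nat_lit 57476) (nat_lit 28) (.e (nat_lit 557097) (nat_lit 13) (.e (nat_lit 172115) (nat_lit 10) (.e (nat_lit 434231) (nat_lit 23) (.e (nat_lit 532543) (nat_lit 10) .nil))))) .nil)) 
(.lf (nat_lit 166077) (.g (nat_lit 4549) (.e (nat_lit 57476) (nat_lit 28) (.e (nat_lit 557097) (nat_lit 13) (.e (nat_lit 172115) (nat_lit 10) (.e (nat_lit 434231) (nat_lit 23) (.e (nat_lit 532563) (nat_lit 15) (.e (nat_lit 385093) (nat_lit 49) (.e (nat_lit 778318) (nat_lit 3) .nil))))))) (.g (nat_lit 6) .nil .nil))))))) (.nd (nat_lit 2) (.nd (nat_lit 3) (.nd (nat_lit 4) (.nd (nat_lit 5) 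
(.lf (nat_lit 166019) (.g (nat_lit 4334) (.e (nat_lit 57476) (nat_lit 28) (.e (nat_lit 557097) (nat_lit 13) (.e (nat_lit 172115) (nat_lit 10) (.e (nat_lit 434231) (nat_lit 23) (.e (nat_lit 532535) (nat_lit 9) (.e (nat_lit 335925) (nat_lit 0) (.e (nat_lit 1023) (nat_lit 81) (.e (nat_lit 5905) (nat_lit 320) (.e (nat_lit 1171) (nat_lit 87) .nil))))))))) (.g (nat_lit 5) .nil .nil))) 
(.lf (nat_lit 166051) (.g (nat_lit 4050) (.e (nat_lit 57476) (nat_lit 28) (.e (nat_lit 557097) (nat_lit 13) (.e (nat_lit 172115) (nat_lit 10) (.e (nat_lit 434231) (nat_lit 23) (.e (nat_lit 532543) (nat_lit 10) (.e (nat_lit 344169) (nat_lit 40) (.e (nat_lit 671757) (nat_lit 3) .nil))))))) (.g (nat_lit 0) .nil .nil)))) (.nd (nat_lit 5) 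
(.lf (nat_lit 166035) (.g (nat_lit 2978) (.e (nat_lit 57476) (nat_lit 28) (.e (nat_lit 557097) (nat_lit 13) (.e (nat_lit 172115) (nat_lit 10) (.e (nat_lit 434231) (nat_lit 23) (.e (nat_lit 532535) (nat_lit 9) (.e (nat_lit 343808) (nat_lit 19) (.e (nat_lit 220928) (nat_lit 3) .nil))))))) (.g (nat_lit 5) .nil .nil))) 
(.lf (nat_lit 166067) (.g (nat_lit 2346) (.e (nat_lit 57476) (nat_lit 28) (.e (nat_lit 557097) (nat_lit 13) (.e (nat_lit 172115) (nat_lit 10) (.e (nat_lit 434231) (nat_lit 23) (.e (nat_lit 532555) (nat_lit 13) (.e (nat_lit 368662) (nat_lit 18) (.e (nat_lit 5905) (nat_lit 320) (.e (nat_lit 1171) (nat_lit 87) .nil)))))))) (.g (nat_lit 4) .nil .nil))))) (.nd (nat_lit 4) (.nd (nat_lit 5) 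
(.lf (nat_lit 166027) (.g (nat_lit 2210) (.e (nat_lit 57476) (nat_lit 28) (.e (nat_lit 557097) (nat_lit 13) (.e (nat_lit 172115) (nat_lit 10) (.e (nat_lit 434231) (nat_lit 23) (.e (nat_lit 532535) (nat_lit 9) (.e (nat_lit 336030) (nat_lit 4) (.e (nat_lit 123182) (nat_lit 264) (.e (nat_lit 1169) (nat_lit 87) .nil)))))))) (.g (nat_lit 4) .nil .nil))) 
(.lf (nat_lit 166059) (.g (nat_lit 2383) (.e (nat_lit 57476) (nat_lit 28) (.e (nat_lit 557097) (nat_lit 13) (.e (nat_lit 172115) (nat_lit 10) (.e (nat_lit 434231) (nat_lit 23) (.e (nat_lit 532553) (nat_lit 13) .nil))))) .nil))) (.nd (nat_lit 5) 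
(.lf (nat_lit 166043) (.g (nat_lit 2676) (.e (nat_lit 57476) (nat_lit 28) (.e (nat_lit 557097) (nat_lit 13) (.e (nat_lit 172115) (nat_lit 10) (.e (nat_lit 434231) (nat_lit 23) (.e (nat_lit 532540) (nat_lit 9) .nil))))) .nil)) 
(.lf (nat_lit 166075) (.g (nat_lit 4105) (.e (nat_lit 57476) (nat_lit 28) (.e (nat_lit 557097) (nat_lit 13) (.e (nat_lit 172115) (nat_lit 10) (.e (nat_lit 434231) (nat_lit 23) (.e (nat_lit 532562) (nat_lit 15) (.e (nat_lit 385093) (nat_lit 49) (.e (nat_lit 778317) (nat_lit 3) .nil))))))) (.g (nat_lit 0) .nil .nil)))))) (.nd (nat_lit 3) (.nd (nat_lit 4) (.nd (nat_lit 5) 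
(.lf (nat_lit 166023) (.g (nat_lit 4019) (.e (nat_lit 57476) (nat_lit 28) (.e (nat_lit 557097) (nat_lit 13) (.e (nat_lit 172115) (nat_lit 10) (.e (nat_lit 434231) (nat_lit 23) (.e (nat_lit 532535) (nat_lit 9) (.e (nat_lit 335985) (nat_lit 1) (.e (nat_lit 57870) (nat_lit 264) (.e (nat_lit 1171) (nat_lit 87) .nil)))))))) (.g (nat_lit 0) .nil .nil))) 
(.lf (nat_lit 166055) (.g (nat_lit 2413) (.e (nat_lit 57476) (nat_lit 28) (.e (nat_lit 557097) (nat_lit 13) (.e (nat_lit 172115) (nat_lit 10) (.e (nat_lit 434231) (nat_lit 23) (.e (nat_lit 532544) (nat_lit 10) (.e (nat_lit 344167) (nat_lit 40) (.e (nat_lit 671757) (nat_lit 3) .nil))))))) (.g (nat_lit 4) .nil .nil)))) (.nd (nat_lit 5) 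
(.lf (nat_lit 166039) (.g (nat_lit 2801) (.e (nat_lit 57476) (nat_lit 28) (.e (nat_lit 557097) (nat_lit 13) (.e (nat_lit 172115) (nat_lit 10) (.e (nat_lit 434231) (nat_lit 23) (.e (nat_lit 532536) (nat_lit 9) (.e (nat_lit 335997) (nat_lit 1) (.e (nat_lit 57870) (nat_lit 264) (.e (nat_lit 1172) (nat_lit 87) .nil)))))))) (.g (nat_lit 4) .nil .nil))) 
(.lf (nat_lit 166071) (.g (nat_lit 2434) (.e (nat_lit 57476) (nat_lit 28) (.e (nat_lit 557097) (nat_lit 13) (.e (nat_lit 172115) (nat_lit 10) (.e (nat_lit 434231) (nat_lit 23) (.e (nat_lit 532556) (nat_lit 13) .nil))))) .nil)))) (.nd (nat_lit 4) (.nd (nat_lit 5) 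
(.lf (nat_lit 166031) (.g (nat_lit 3395) (.e (nat_lit 57476) (nat_lit 28) (.e (nat_lit 557097) (nat_lit 13) (.e (nat_lit 172115) (nat_lit 10) (.e (nat_lit 434231) (nat_lit 23) (.e (nat_lit 532535) (nat_lit 9) (.e (nat_lit 336291) (nat_lit 15) (.e (nat_lit 3629) (nat_lit 227) (.e (nat_lit 778317) (nat_lit 3) .nil)))))))) (.g (nat_lit 5) .nil .nil))) 
(.lf (nat_lit 166063) (.g (nat_lit 2668) (.e (nat_lit 57476) (nat_lit 28) (.e (nat_lit 557097) (nat_lit 13) (.e (nat_lit 172115) (nat_lit 10) (.e (nat_lit 434231) (nat_lit 23) (.e (nat_lit 532554) (nat_lit 13) (.e (nat_lit 368662) (nat_lit 18) (.e (nat_lit 5905) (nat_lit 320) (.e (nat_lit 1170) (nat_lit 87) .nil)))))))) (.g (nat_lit 4) .nil .nil)))) (.nd (nat_lit 5) 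
(.lf (nat_lit 166047) (.g (nat_lit 3473) (.e (nat_lit 57476) (nat_lit 28) (.e (nat_lit 557097) (nat_lit 13) (.e (nat_lit 172115) (nat_lit 10) (.e (nat_lit 434231) (nat_lit 23) (.e (nat_lit 532543) (nat_lit 10) (.e (nat_lit 344097) (nat_lit 18) (.e (nat_lit 5905) (nat_lit 320) (.e (nat_lit 1172) (nat_lit 87) .nil)))))))) (.g (nat_lit 6) .nil .nil))) 
(.lf (nat_lit 166079) (.g (nat_lit 3208) (.e (nat_lit 57476) (nat_lit 28) (.e (nat_lit 557097) (nat_lit 13) (.e (nat_lit 172115) (nat_lit 10) (.e (nat_lit 434231) (nat_lit 23) (.e (nat_lit 532563) (nat_lit 15) (.e (nat_lit 385094) (nat_lit 49) (.e (nat_lit 778318) (nat_lit 3) .nil))))))) (.g (nat_lit 5) .nil .nil)))))))))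

noncomputable def tv2227 : DT := (.nd (nat_lit 0) (.nd (nat_lit 1) (.nd (nat_lit 2) (.nd (nat_lit 3) (.nd (nat_lit 4) (.nd (nat_lit 5) 
(.lf (nat_lit 166080) (.g (nat_lit 2693) (.e (nat_lit 57476) (nat_lit 28) (.e (nat_lit 557097) (nat_lit 13) (.e (nat_lit 172115) (nat_lit 10) (.e (nat_lit 434231) (nat_lit 23) (.e (nat_lit 532564) (nat_lit 15) (.e (nat_lit 385090) (nat_lit 49) (.e (nat_lit 778317) (nat_lit 3) .nil))))))) (.g (nat_lit 5) .nil .nil))) 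
(.lf (nat_lit 166112) (.g (nat_lit 2022) (.e (nat_lit 57476) (nat_lit 28) (.e (nat_lit 557098) (nat_lit 13) (.e (nat_lit 172115) (nat_lit 10) (.e (nat_lit 434231) (nat_lit 23) .nil)))) .nil))) (.nd (nat_lit 5) 
(.lf (nat_lit 166096) (.g (nat_lit 3144) (.e (nat_lit 57476) (nat_lit 28) (.e (nat_lit 557097) (nat_lit 13) (.e (nat_lit 172115) (nat_lit 10) (.e (nat_lit 434233) (nat_lit 23) (.e (nat_lit 532563) (nat_lit 15) (.e (nat_lit 385093) (nat_lit 49) (.e (nat_lit 778317) (nat_lit 3) .nil))))))) (.g (nat_lit 5) .nil .nil))) 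
(.lf (nat_lit 166128) (.g (nat_lit 2353) (.e (nat_lit 57476) (nat_lit 28) (.e (nat_lit 557103) (nat_lit 14) (.e (nat_lit 180250) (nat_lit 10) (.e (nat_lit 573482) (nat_lit 13) (.e (nat_lit 65569) (nat_lit 3) (.e (nat_lit 98325) (nat_lit 17) (.e (nat_lit 3452) (nat_lit 216) (.e (nat_lit 688168) (nat_lit 15) .nil)))))))) (.g (nat_lit 4) .nil .nil))))) (.nd (nat_lit 4) (.nd (nat_lit 5) 
(.lf (nat_lit 166088) (.g (nat_lit 3641) (.e (nat_lit 57476) (nat_lit 28) (.e (nat_lit 557097) (nat_lit 13) (.e (nat_lit 172115) (nat_lit 10) (.e (nat_lit 434231) (nat_lit 23) (.e (nat_lit 532565) (nat_lit 15) (.e (nat_lit 385091) (nat_lit 49) (.e (nat_lit 778318) (nat_lit 3) .nil))))))) (.g (nat_lit 5) .nil .nil))) 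
(.lf (nat_lit 166120) (.g (nat_lit 2173) (.e (nat_lit 57476) (nat_lit 28) (.e (nat_lit 557103) (nat_lit 14) (.e (nat_lit 180244) (nat_lit 5) (.e (nat_lit 532579) (nat_lit 26) (.e (nat_lit 426139) (nat_lit 3) (.e (nat_lit 204805) (nat_lit 0) (.e (nat_lit 7936) (nat_lit 405) .nil))))))) (.g (nat_lit 4) .nil .nil)))) (.nd (nat_lit 5) 
(.lf (nat_lit 166104) (.g (nat_lit 2052) (.e (nat_lit 57476) (nat_lit 28) (.e (nat_lit 557097) (nat_lit 13) (.e (nat_lit 172115) (nat_lit 10) (.e (nat_lit 434244) (nat_lit 28) (.e (nat_lit 573450) (nat_lit 9) (.e (nat_lit 452) (nat_lit 33) (.e (nat_lit 434209) (nat_lit 18) (.e (nat_lit 4607) (nat_lit 269) (.e (nat_lit 1169) (nat_lit 87) .nil))))))))) (.g (nat_lit 4) .nil .nil))) 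
(.lf (nat_lit 166136) (.g (nat_lit 3212) (.e (nat_lit 57476) (nat_lit 28) (.e (nat_lit 557103) (nat_lit 14) (.e (nat_lit 180250) (nat_lit 10) (.e (nat_lit 573484) (nat_lit 13) (.e (nat_lit 65569) (nat_lit 3) (.e (nat_lit 98321) (nat_lit 17) (.e (nat_lit 7936) (nat_lit 216) (.e (nat_lit 688166) (nat_lit 15) .nil)))))))) (.g (nat_lit 4) .nil .nil)))))) 
(.nd (nat_lit 3) (.nd (nat_lit 4) (.nd (nat_lit 5) 
(.lf (nat_lit 166084) (.g (nat_lit 4781) (.e (nat_lit 57476) (nat_lit 28) (.e (nat_lit 557097) (nat_lit 13) (.e (nat_lit 172115) (nat_lit 10) (.e (nat_lit 434231) (nat_lit 23) (.e (nat_lit 532564) (nat_lit 15) (.e (nat_lit 385093) (nat_lit 49) (.e (nat_lit 778318) (nat_lit 3) .nil))))))) (.g (nat_lit 7) .nil .nil))) 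
(.lf (nat_lit 166116) (.g (nat_lit 3351) (.e (nat_lit 57476) (nat_lit 28) (.e (nat_lit 557103) (nat_lit 14) (.e (nat_lit 180225) (nat_lit 0) (.e (nat_lit 5954) (nat_lit 322) (.e (nat_lit 57445) (nat_lit 19) (.e (nat_lit 393233) (nat_lit 17) (.e (nat_lit 7583) (nat_lit 405) .nil))))))) (.g (nat_lit 5) .nil .nil)))) (.nd (nat_lit 5) 
(.lf (nat_lit 166100) (.g (nat_lit 2191) (.e (nat_lit 57476) (nat_lit 28) (.e (nat_lit 557097) (nat_lit 13) (.e (nat_lit 172115) (nat_lit 10) (.e (nat_lit 434244) (nat_lit 28) (.e (nat_lit 581376) (nat_lit 0) .nil))))) .nil)) 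
(.lf (nat_lit 166132) (.g (nat_lit 2924) (.e (nat_lit 57476) (nat_lit 28) (.e (nat_lit 557103) (nat_lit 14) (.e (nat_lit 180250) (nat_lit 10) (.e (nat_lit 573482) (nat_lit 13) (.e (nat_lit 65570) (nat_lit 3) (.e (nat_lit 98333) (nat_lit 18) (.e (nat_lit 164151) (nat_lit 152) (.e (nat_lit 1186) (nat_lit 87) .nil)))))))) (.g (nat_lit 4) .nil .nil))))) (.nd (nat_lit 4) (.nd (nat_lit 5) 
(.lf (nat_lit 166092) (.g (nat_lit 3489) (.e (nat_lit 57476) (nat_lit 28) (.e (nat_lit 557097) (nat_lit 13) (.e (nat_lit 172115) (nat_lit 10) (.e (nat_lit 434231) (nat_lit 23) (.e (nat_lit 532566) (nat_lit 15) (.e (nat_lit 385093) (nat_lit 49) (.e (nat_lit 778317) (nat_lit 3) .nil))))))) (.g (nat_lit 6) .nil .nil))) 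
(.lf (nat_lit 166124) (.g (nat_lit 1202) (.e (nat_lit 57476) (nat_lit 28) (.e (nat_lit 557103) (nat_lit 14) (.e (nat_lit 180250) (nat_lit 10) (.e (nat_lit 573481) (nat_lit 13) .nil)))) .nil))) (.nd (nat_lit 5) 
(.lf (nat_lit 166108) (.g (nat_lit 1891) (.e (nat_lit 57476) (nat_lit 28) (.e (nat_lit 557097) (nat_lit 13) (.e (nat_lit 172123) (nat_lit 13) (.e (nat_lit 491264) (nat_lit 15) (.e (nat_lit 475193) (nat_lit 38) (.e (nat_lit 688168) (nat_lit 15) .nil)))))) (.g (nat_lit 5) .nil .nil))) 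
(.lf (nat_lit 166140) (.g (nat_lit 3032) (.e (nat_lit 57476) (nat_lit 28) (.e (nat_lit 557103) (nat_lit 14) (.e (nat_lit 180250) (nat_lit 10) (.e (nat_lit 573484) (nat_lit 13) (.e (nat_lit 65571) (nat_lit 3) (.e (nat_lit 98321) (nat_lit 17) (.e (nat_lit 7936) (nat_lit 216) (.e (nat_lit 688168) (nat_lit 15) .nil)))))))) (.g (nat_lit 4) .nil .nil))))))) 
(.nd (nat_lit 2) (.nd (nat_lit 3) (.nd (nat_lit 4) (.nd (nat_lit 5) 
(.lf (nat_lit 166082) (.g (nat_lit 3870) (.e (nat_lit 57476) (nat_lit 28) (.e (nat_lit 557097) (nat_lit 13) (.e (nat_lit 172115) (nat_lit 10) (.e (nat_lit 434231) (nat_lit 23) (.e (nat_lit 532564) (nat_lit 15) (.e (nat_lit 385092) (nat_lit 49) (.e (nat_lit 778317) (nat_lit 3) .nil))))))) (.g (nat_lit 7) .nil .nil))) 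
(.lf (nat_lit 166114) (.g (nat_lit 2900) (.e (nat_lit 57476) (nat_lit 28) (.e (nat_lit 557098) (nat_lit 13) (.e (nat_lit 172115) (nat_lit 10) (.e (nat_lit 434231) (nat_lit 23) (.e (nat_lit 532544) (nat_lit 10) .nil))))) .nil))) (.nd (nat_lit 5) 
(.lf (nat_lit 166098) (.g (nat_lit 1971) (.e (nat_lit 57476) (nat_lit 28) (.e (nat_lit 557097) (nat_lit 13) (.e (nat_lit 172115) (nat_lit 10) (.e (nat_lit 434233) (nat_lit 23) (.e (nat_lit 532566) (nat_lit 15) .nil))))) .nil)) 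
(.lf (nat_lit 166130) (.g (nat_lit 2368) (.e (nat_lit 57476) (nat_lit 28) (.e (nat_lit 557103) (nat_lit 14) (.e (nat_lit 180250) (nat_lit 10) (.e (nat_lit 573482) (nat_lit 13) (.e (nat_lit 65570) (nat_lit 3) (.e (nat_lit 98321) (nat_lit 17) (.e (nat_lit 7936) (nat_lit 216) (.e (nat_lit 688168) (nat_lit 15) .nil)))))))) (.g (nat_lit 4) .nil .nil))))) (.nd (nat_lit 4) (.nd (nat_lit 5) 
(.lf (nat_lit 166090) (.g (nat_lit 4155) (.e (nat_lit 57476) (nat_lit 28) (.e (nat_lit 557097) (nat_lit 13) (.e (nat_lit 172115) (nat_lit 10) (.e (nat_lit 434231) (nat_lit 23) (.e (nat_lit 532565) (nat_lit 15) (.e (nat_lit 385094) (nat_lit 49) (.e (nat_lit 778317) (nat_lit 3) .nil))))))) (.g (nat_lit 0) .nil .nil))) 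
(.lf (nat_lit 166122) (.g (nat_lit 1444) (.e (nat_lit 57476) (nat_lit 28) (.e (nat_lit 557103) (nat_lit 14) (.e (nat_lit 180250) (nat_lit 10) (.e (nat_lit 573480) (nat_lit 13) .nil)))) .nil))) (.nd (nat_lit 5) 
(.lf (nat_lit 166106) (.g (nat_lit 2111) (.e (nat_lit 57476) (nat_lit 28) (.e (nat_lit 557097) (nat_lit 13) (.e (nat_lit 172117) (nat_lit 11) (.e (nat_lit 458789) (nat_lit 23) (.e (nat_lit 532566) (nat_lit 15) (.e (nat_lit 385094) (nat_lit 49) (.e (nat_lit 778317) (nat_lit 3) .nil))))))) (.g (nat_lit 4) .nil .nil))) 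
(.lf (nat_lit 166138) (.g (nat_lit 4126) (.e (nat_lit 57476) (nat_lit 28) (.e (nat_lit 557103) (nat_lit 14) (.e (nat_lit 180250) (nat_lit 10) (.e (nat_lit 573484) (nat_lit 13) (.e (nat_lit 65569) (nat_lit 3) (.e (nat_lit 98321) (nat_lit 17) (.e (nat_lit 7936) (nat_lit 216) (.e (nat_lit 688168) (nat_lit 15) .nil)))))))) (.g (nat_lit 5) .nil .nil)))))) 
(.nd (nat_lit 3) (.nd (nat_lit 4) (.nd (nat_lit 5) 
(.lf (nat_lit 166086) (.g (nat_lit 2950) (.e (nat_lit 57476) (nat_lit 28) (.e (nat_lit 557097) (nat_lit 13) (.e (nat_lit 172115) (nat_lit 10) (.e (nat_lit 434231) (nat_lit 23) (.e (nat_lit 532564) (nat_lit 15) (.e (nat_lit 385096) (nat_lit 49) (.e (nat_lit 786176) (nat_lit 3) .nil))))))) (.g (nat_lit 5) .nil .nil))) 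
(.lf (nat_lit 166118) (.g (nat_lit 2198) (.e (nat_lit 57476) (nat_lit 28) (.e (nat_lit 557103) (nat_lit 14) (.e (nat_lit 180244) (nat_lit 5) (.e (nat_lit 532579) (nat_lit 26) (.e (nat_lit 426116) (nat_lit 2) (.e (nat_lit 196651) (nat_lit 10) (.e (nat_lit 16128) (nat_lit 194) .nil))))))) (.g (nat_lit 4) .nil .nil)))) (.nd (nat_lit 5) 
(.lf (nat_lit 166102) (.g (nat_lit 2267) (.e (nat_lit 57476) (nat_lit 28) (.e (nat_lit 557097) (nat_lit 13) (.e (nat_lit 172115) (nat_lit 10) (.e (nat_lit 434244) (nat_lit 28) (.e (nat_lit 573450) (nat_lit 9) (.e (nat_lit 452) (nat_lit 33) (.e (nat_lit 434209) (nat_lit 18) (.e (nat_lit 4605) (nat_lit 269) (.e (nat_lit 1170) (nat_lit 87) .nil))))))))) (.g (nat_lit 4) .nil .nil))) 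
(.lf (nat_lit 166134) (.g (nat_lit 2865) (.e (nat_lit 57476) (nat_lit 28) (.e (nat_lit 557103) (nat_lit 14) (.e (nat_lit 180250) (nat_lit 10) (.e (nat_lit 573482) (nat_lit 13) (.e (nat_lit 65571) (nat_lit 3) (.e (nat_lit 98319) (nat_lit 17) (.e (nat_lit 3453) (nat_lit 216) (.e (nat_lit 688168) (nat_lit 15) .nil)))))))) (.g (nat_lit 4) .nil .nil))))) (.nd (nat_lit 4) (.nd (nat_lit 5) 
(.lf (nat_lit 166094) (.g (nat_lit 1784) (.e (nat_lit 57476) (nat_lit 28) (.e (nat_lit 557097) (nat_lit 13) (.e (nat_lit 172115) (nat_lit 10) (.e (nat_lit 434232) (nat_lit 23) (.e (nat_lit 532566) (nat_lit 15) .nil))))) .nil)) 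
(.lf (nat_lit 166126) (.g (nat_lit 2263) (.e (nat_lit 57476) (nat_lit 28) (.e (nat_lit 557103) (nat_lit 14) (.e (nat_lit 180250) (nat_lit 10) (.e (nat_lit 573482) (nat_lit 13) (.e (nat_lit 65569) (nat_lit 3) (.e (nat_lit 98321) (nat_lit 17) (.e (nat_lit 7936) (nat_lit 216) (.e (nat_lit 688167) (nat_lit 15) .nil)))))))) (.g (nat_lit 4) .nil .nil)))) (.nd (nat_lit 5) 
(.lf (nat_lit 166110) (.g (nat_lit 2043) (.e (nat_lit 57476) (nat_lit 28) (.e (nat_lit 557098) (nat_lit 13) (.e (nat_lit 172097) (nat_lit 9) (.e (nat_lit 426140) (nat_lit 3) .nil)))) .nil)) 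
(.lf (nat_lit 166142) (.g (nat_lit 3364) (.e (nat_lit 57476) (nat_lit 28) (.e (nat_lit 557103) (nat_lit 14) (.e (nat_lit 180250) (nat_lit 10) (.e (nat_lit 573485) (nat_lit 13) (.e (nat_lit 65569) (nat_lit 3) (.e (nat_lit 98321) (nat_lit 17) (.e (nat_lit 7936) (nat_lit 216) (.e (nat_lit 688168) (nat_lit 15) .nil)))))))) (.g (nat_lit 5) .nil .nil)))))))) 
(.nd (nat_lit 1) (.nd (nat_lit 2) (.nd (nat_lit 3) (.nd (nat_lit 4) (.nd (nat_lit 5) 
(.lf (nat_lit 166081) (.g (nat_lit 4098) (.e (nat_lit 57476) (nat_lit 28) (.e (nat_lit 557097) (nat_lit 13) (.e (nat_lit 172115) (nat_lit 10) (.e (nat_lit 434231) (nat_lit 23) (.e (nat_lit 532564) (nat_lit 15) (.e (nat_lit 385090) (nat_lit 49) (.e (nat_lit 778318) (nat_lit 3) .nil))))))) (.g (nat_lit 7) .nil .nil))) 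
(.lf (nat_lit 166113) (.g (nat_lit 2821) (.e (nat_lit 57476) (nat_lit 28) (.e (nat_lit 557098) (nat_lit 13) (.e (nat_lit 172115) (nat_lit 10) (.e (nat_lit 434231) (nat_lit 23) (.e (nat_lit 532535) (nat_lit 9) .nil))))) .nil))) (.nd (nat_lit 5) 
(.lf (nat_lit 166097) (.g (nat_lit 1994) (.e (nat_lit 57476) (nat_lit 28) (.e (nat_lit 557097) (nat_lit 13) (.e (nat_lit 172115) (nat_lit 10) (.e (nat_lit 434233) (nat_lit 23) (.e (nat_lit 532565) (nat_lit 15) .nil))))) .nil)) 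
(.lf (nat_lit 166129) (.g (nat_lit 2338) (.e (nat_lit 57476) (nat_lit 28) (.e (nat_lit 557103) (nat_lit 14) (.e (nat_lit 180250) (nat_lit 10) (.e (nat_lit 573482) (nat_lit 13) (.e (nat_lit 65570) (nat_lit 3) .nil))))) .nil)))) (.nd (nat_lit 4) (.nd (nat_lit 5) 
(.lf (nat_lit 166089) (.g (nat_lit 2773) (.e (nat_lit 57476) (nat_lit 28) (.e (nat_lit 557097) (nat_lit 13) (.e (nat_lit 172115) (nat_lit 10) (.e (nat_lit 434231) (nat_lit 23) (.e (nat_lit 532565) (nat_lit 15) (.e (nat_lit 385092) (nat_lit 49) (.e (nat_lit 778318) (nat_lit 3) .nil))))))) (.g (nat_lit 4) .nil .nil))) 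
(.lf (nat_lit 166121) (.g (nat_lit 548) (.e (nat_lit 57476) (nat_lit 28) (.e (nat_lit 557103) (nat_lit 14) (.e (nat_lit 180250) (nat_lit 10) .nil))) .nil))) (.nd (nat_lit 5) 
(.lf (nat_lit 166105) (.g (nat_lit 4734) (.e (nat_lit 57476) (nat_lit 28) (.e (nat_lit 557097) (nat_lit 13) (.e (nat_lit 172117) (nat_lit 11) (.e (nat_lit 458789) (nat_lit 23) (.e (nat_lit 532563) (nat_lit 15) (.e (nat_lit 385094) (nat_lit 49) (.e (nat_lit 778317) (nat_lit 3) .nil))))))) (.g (nat_lit 0) .nil .nil))) 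
(.lf (nat_lit 166137) (.g (nat_lit 2750) (.e (nat_lit 57476) (nat_lit 28) (.e (nat_lit 557103) (nat_lit 14) (.e (nat_lit 180250) (nat_lit 10) (.e (nat_lit 573484) (nat_lit 13) (.e (nat_lit 65569) (nat_lit 3) (.e (nat_lit 98321) (nat_lit 17) (.e (nat_lit 7936) (nat_lit 216) (.e (nat_lit 688167) (nat_lit 15) .nil)))))))) (.g (nat_lit 4) .nil .nil)))))) 
(.nd (nat_lit 3) (.nd (nat_lit 4) (.nd (nat_lit 5) 
(.lf (nat_lit 166085) (.g (nat_lit 2656) (.e (nat_lit 57476) (nat_lit 28) (.e (nat_lit 557097) (nat_lit 13) (.e (nat_lit 172115) (nat_lit 10) (.e (nat_lit 434231) (nat_lit 23) (.e (nat_lit 532564) (nat_lit 15) (.e (nat_lit 385095) (nat_lit 49) (.e (nat_lit 786176) (nat_lit 3) .nil))))))) (.g (nat_lit 4) .nil .nil))) 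
(.lf (nat_lit 166117) (.g (nat_lit 1298) (.e (nat_lit 57476) (nat_lit 28) (.e (nat_lit 557103) (nat_lit 14) (.e (nat_lit 180244) (nat_lit 5) (.e (nat_lit 532579) (nat_lit 26) .nil)))) .nil))) (.nd (nat_lit 5) 
(.lf (nat_lit 166101) (.g (nat_lit 2204) (.e (nat_lit 57476) (nat_lit 28) (.e (nat_lit 557097) (nat_lit 13) (.e (nat_lit 172115) (nat_lit 10) (.e (nat_lit 434244) (nat_lit 28) (.e (nat_lit 573450) (nat_lit 9) (.e (nat_lit 452) (nat_lit 33) (.e (nat_lit 434209) (nat_lit 18) (.e (nat_lit 4605) (nat_lit 269) (.e (nat_lit 1169) (nat_lit 87) .nil))))))))) (.g (nat_lit 4) .nil .nil))) 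
(.lf (nat_lit 166133) (.g (nat_lit 2359) (.e (nat_lit 57476) (nat_lit 28) (.e (nat_lit 557103) (nat_lit 14) (.e (nat_lit 180250) (nat_lit 10) (.e (nat_lit 573482) (nat_lit 13) (.e (nat_lit 65571) (nat_lit 3) .nil))))) .nil)))) (.nd (nat_lit 4) (.nd (nat_lit 5) 
(.lf (nat_lit 166093) (.g (nat_lit 2360) (.e (nat_lit 57476) (nat_lit 28) (.e (nat_lit 557097) (nat_lit 13) (.e (nat_lit 172115) (nat_lit 10) (.e (nat_lit 434231) (nat_lit 23) (.e (nat_lit 532566) (nat_lit 15) (.e (nat_lit 385094) (nat_lit 49) (.e (nat_lit 778318) (nat_lit 3) .nil))))))) (.g (nat_lit 4) .nil .nil))) 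
(.lf (nat_lit 166125) (.g (nat_lit 1964) (.e (nat_lit 57476) (nat_lit 28) (.e (nat_lit 557103) (nat_lit 14) (.e (nat_lit 180250) (nat_lit 10) (.e (nat_lit 573482) (nat_lit 13) (.e (nat_lit 65569) (nat_lit 3) .nil))))) .nil))) (.nd (nat_lit 5) 
(.lf (nat_lit 166109) (.g (nat_lit 2035) (.e (nat_lit 57476) (nat_lit 28) (.e (nat_lit 557098) (nat_lit 13) (.e (nat_lit 172097) (nat_lit 9) (.e (nat_lit 426125) (nat_lit 2) .nil)))) .nil)) 
(.lf (nat_lit 166141) (.g (nat_lit 2450) (.e (nat_lit 57476) (nat_lit 28) (.e (nat_lit 557103) (nat_lit 14) (.e (nat_lit 180250) (nat_lit 10) (.e (nat_lit 573485) (nat_lit 13) (.e (nat_lit 65569) (nat_lit 3) (.e (nat_lit 98321) (nat_lit 17) (.e (nat_lit 7936) (nat_lit 216) (.e (nat_lit 688166) (nat_lit 15) .nil)))))))) (.g (nat_lit 4) .nil .nil))))))) 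
(.nd (nat_lit 2) (.nd (nat_lit 3) (.nd (nat_lit 4) (.nd (nat_lit 5) 
(.lf (nat_lit 166083) (.g (nat_lit 4086) (.e (nat_lit 57476) (nat_lit 28) (.e (nat_lit 557097) (nat_lit 13) (.e (nat_lit 172115) (nat_lit 10) (.e (nat_lit 434231) (nat_lit 23) (.e (nat_lit 532564) (nat_lit 15) (.e (nat_lit 385093) (nat_lit 49) (.e (nat_lit 778317) (nat_lit 3) .nil))))))) (.g (nat_lit 7) .nil .nil))) 
(.lf (nat_lit 166115) (.g (nat_lit 1483) (.e (nat_lit 57476) (nat_lit 28) (.e (nat_lit 557103) (nat_lit 14) (.e (nat_lit 180225) (nat_lit 0) (.e (nat_lit 5934) (nat_lit 322) .nil)))) .nil))) (.nd (nat_lit 5) 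
(.lf (nat_lit 166099) (.g (nat_lit 2496) (.e (nat_lit 57476) (nat_lit 28) (.e (nat_lit 557097) (nat_lit 13) (.e (nat_lit 172115) (nat_lit 10) (.e (nat_lit 434233) (nat_lit 23) (.e (nat_lit 532566) (nat_lit 15) (.e (nat_lit 385093) (nat_lit 49) (.e (nat_lit 778318) (nat_lit 3) .nil))))))) (.g (nat_lit 4) .nil .nil))) 
(.lf (nat_lit 166131) (.g (nat_lit 2850) (.e (nat_lit 57476) (nat_lit 28) (.e (nat_lit 557103) (nat_lit 14) (.e (nat_lit 180250) (nat_lit 10) (.e (nat_lit 573482) (nat_lit 13) (.e (nat_lit 65570) (nat_lit 3) (.e (nat_lit 98333) (nat_lit 18) (.e (nat_lit 164151) (nat_lit 152) (.e (nat_lit 1185) (nat_lit 87) .nil)))))))) (.g (nat_lit 4) .nil .nil))))) (.nd (nat_lit 4) (.nd (nat_lit 5) 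
(.lf (nat_lit 166091) (.g (nat_lit 2311) (.e (nat_lit 57476) (nat_lit 28) (.e (nat_lit 557097) (nat_lit 13) (.e (nat_lit 172115) (nat_lit 10) (.e (nat_lit 434231) (nat_lit 23) (.e (nat_lit 532566) (nat_lit 15) .nil))))) .nil)) 
(.lf (nat_lit 166123) (.g (nat_lit 2461) (.e (nat_lit 57476) (nat_lit 28) (.e (nat_lit 557103) (nat_lit 14) (.e (nat_lit 180250) (nat_lit 10) (.e (nat_lit 573480) (nat_lit 13) (.e (nat_lit 65571) (nat_lit 3) (.e (nat_lit 98321) (nat_lit 17) (.e (nat_lit 7936) (nat_lit 216) (.e (nat_lit 688168) (nat_lit 15) .nil)))))))) (.g (nat_lit 4) .nil .nil)))) (.nd (nat_lit 5) 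
(.lf (nat_lit 166107) (.g (nat_lit 1884) (.e (nat_lit 57476) (nat_lit 28) (.e (nat_lit 557097) (nat_lit 13) (.e (nat_lit 172123) (nat_lit 13) (.e (nat_lit 483337) (nat_lit 9) (.e (nat_lit 426108) (nat_lit 1) (.e (nat_lit 164307) (nat_lit 226) (.e (nat_lit 7936) (nat_lit 87) .nil))))))) (.g (nat_lit 4) .nil .nil))) 
(.lf (nat_lit 166139) (.g (nat_lit 2476) (.e (nat_lit 57476) (nat_lit 28) (.e (nat_lit 557103) (nat_lit 14) (.e (nat_lit 180250) (nat_lit 10) (.e (nat_lit 573484) (nat_lit 13) (.e (nat_lit 65571) (nat_lit 3) .nil))))) .nil))))) (.nd (nat_lit 3) (.nd (nat_lit 4) (.nd (nat_lit 5) 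
(.lf (nat_lit 166087) (.g (nat_lit 2886) (.e (nat_lit 57476) (nat_lit 28) (.e (nat_lit 557097) (nat_lit 13) (.e (nat_lit 172115) (nat_lit 10) (.e (nat_lit 434231) (nat_lit 23) (.e (nat_lit 532564) (nat_lit 15) (.e (nat_lit 385100) (nat_lit 49) (.e (nat_lit 778316) (nat_lit 3) .nil))))))) (.g (nat_lit 5) .nil .nil))) 
(.lf (nat_lit 166119) (.g (nat_lit 1934) (.e (nat_lit 57476) (nat_lit 28) (.e (nat_lit 557103) (nat_lit 14) (.e (nat_lit 180244) (nat_lit 5) (.e (nat_lit 532579) (nat_lit 26) (.e (nat_lit 426139) (nat_lit 3) (.e (nat_lit 204803) (nat_lit 0) (.e (nat_lit 7936) (nat_lit 405) .nil))))))) (.g (nat_lit 4) .nil .nil)))) (.nd (nat_lit 5) 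
(.lf (nat_lit 166103) (.g (nat_lit 2981) (.e (nat_lit 57476) (nat_lit 28) (.e (nat_lit 557097) (nat_lit 13) (.e (nat_lit 172115) (nat_lit 10) (.e (nat_lit 434244) (nat_lit 28) (.e (nat_lit 573450) (nat_lit 9) (.e (nat_lit 452) (nat_lit 33) (.e (nat_lit 434209) (nat_lit 18) (.e (nat_lit 4605) (nat_lit 269) (.e (nat_lit 1171) (nat_lit 87) .nil))))))))) (.g (nat_lit 5) .nil .nil))) 
(.lf (nat_lit 166135) (.g (nat_lit 2514) (.e (nat_lit 57476) (nat_lit 28) (.e (nat_lit 557103) (nat_lit 14) (.e (nat_lit 180250) (nat_lit 10) (.e (nat_lit 573482) (nat_lit 13) (.e (nat_lit 65571) (nat_lit 3) (.e (nat_lit 98325) (nat_lit 17) (.e (nat_lit 3452) (nat_lit 216) (.e (nat_lit 688168) (nat_lit 15) .nil)))))))) (.g (nat_lit 4) .nil .nil))))) (.nd (nat_lit 4) (.nd (nat_lit 5) 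
(.lf (nat_lit 166095) (.g (nat_lit 2021) (.e (nat_lit 57476) (nat_lit 28) (.e (nat_lit 557097) (nat_lit 13) (.e (nat_lit 172115) (nat_lit 10) (.e (nat_lit 434232) (nat_lit 23) (.e (nat_lit 532566) (nat_lit 15) (.e (nat_lit 385094) (nat_lit 49) (.e (nat_lit 778317) (nat_lit 3) .nil))))))) (.g (nat_lit 4) .nil .nil))) 
(.lf (nat_lit 166127) (.g (nat_lit 3639) (.e (nat_lit 57476) (nat_lit 28) (.e (nat_lit 557103) (nat_lit 14) (.e (nat_lit 180250) (nat_lit 10) (.e (nat_lit 573482) (nat_lit 13) (.e (nat_lit 65569) (nat_lit 3) (.e (nat_lit 98321) (nat_lit 17) (.e (nat_lit 7936) (nat_lit 216) (.e (nat_lit 688168) (nat_lit 15) .nil)))))))) (.g (nat_lit 6) .nil .nil)))) (.nd (nat_lit 5) 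
(.lf (nat_lit 166111) (.g (nat_lit 3172) (.e (nat_lit 57476) (nat_lit 28) (.e (nat_lit 557098) (nat_lit 13) (.e (nat_lit 172106) (nat_lit 10) (.e (nat_lit 434231) (nat_lit 23) (.e (nat_lit 532535) (nat_lit 9) .nil))))) .nil)) 
(.lf (nat_lit 166143) (.g (nat_lit 2239) (.e (nat_lit 57476) (nat_lit 28) (.e (nat_lit 557103) (nat_lit 14) (.e (nat_lit 180250) (nat_lit 10) (.e (nat_lit 573485) (nat_lit 13) (.e (nat_lit 65570) (nat_lit 3) .nil))))) .nil))))))))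

noncomputable def tv2228 : DT := (.nd (nat_lit 0) (.nd (nat_lit 1) (.nd (nat_lit 2) (.nd (nat_lit 3) (.nd (nat_lit 4) (.nd (nat_lit 5) 
(.lf (nat_lit 166144) (.g (nat_lit 2306) (.e (nat_lit 57476) (nat_lit 28) (.e (nat_lit 557103) (nat_lit 14) (.e (nat_lit 180250) (nat_lit 10) (.e (nat_lit 573485) (nat_lit 13) (.e (nat_lit 65570) (nat_lit 3) (.e (nat_lit 98321) (nat_lit 17) (.e (nat_lit 7936) (nat_lit 216) (.e (nat_lit 688168) (nat_lit 15) .nil)))))))) (.g (nat_lit 4) .nil .nil))) 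
(.lf (nat_lit 166176) (.g (nat_lit 2396) (.e (nat_lit 57476) (nat_lit 28) (.e (nat_lit 557103) (nat_lit 14) (.e (nat_lit 180250) (nat_lit 10) (.e (nat_lit 573489) (nat_lit 14) (.e (nat_lit 73748) (nat_lit 3) (.e (nat_lit 516115) (nat_lit 1) (.e (nat_lit 164151) (nat_lit 152) (.e (nat_lit 1185) (nat_lit 87) .nil)))))))) (.g (nat_lit 4) .nil .nil)))) (.nd (nat_lit 5) 
(.lf (nat_lit 166160) (.g (nat_lit 2289) (.e (nat_lit 57476) (nat_lit 28) (.e (nat_lit 557103) (nat_lit 14) (.e (nat_lit 180250) (nat_lit 10) (.e (nat_lit 573487) (nat_lit 14) (.e (nat_lit 81664) (nat_lit 5) .nil))))) .nil)) 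
(.lf (nat_lit 166192) (.g (nat_lit 599) (.e (nat_lit 57476) (nat_lit 28) (.e (nat_lit 557104) (nat_lit 14) (.e (nat_lit 180250) (nat_lit 10) .nil))) .nil)))) (.nd (nat_lit 4) (.nd (nat_lit 5) 
(.lf (nat_lit 166152) (.g (nat_lit 2946) (.e (nat_lit 57476) (nat_lit 28) (.e (nat_lit 557103) (nat_lit 14) (.e (nat_lit 180250) (nat_lit 10) (.e (nat_lit 573487) (nat_lit 14) (.e (nat_lit 73746) (nat_lit 3) (.e (nat_lit 516115) (nat_lit 1) (.e (nat_lit 164150) (nat_lit 152) (.e (nat_lit 1186) (nat_lit 87) .nil)))))))) (.g (nat_lit 4) .nil .nil))) 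
(.lf (nat_lit 166184) (.g (nat_lit 3318) (.e (nat_lit 57476) (nat_lit 28) (.e (nat_lit 557103) (nat_lit 14) (.e (nat_lit 180250) (nat_lit 10) (.e (nat_lit 573489) (nat_lit 14) (.e (nat_lit 73755) (nat_lit 8) (.e (nat_lit 557091) (nat_lit 12) (.e (nat_lit 163998) (nat_lit 38) (.e (nat_lit 639016) (nat_lit 15) .nil)))))))) (.g (nat_lit 5) .nil .nil)))) (.nd (nat_lit 5) 
(.lf (nat_lit 166168) (.g (nat_lit 3266) (.e (nat_lit 57476) (nat_lit 28) (.e (nat_lit 557103) (nat_lit 14) (.e (nat_lit 180250) (nat_lit 10) (.e (nat_lit 573487) (nat_lit 14) (.e (nat_lit 73753) (nat_lit 8) (.e (nat_lit 557091) (nat_lit 12) (.e (nat_lit 164000) (nat_lit 38) (.e (nat_lit 639016) (nat_lit 15) .nil)))))))) (.g (nat_lit 5) .nil .nil))) 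
(.lf (nat_lit 166200) (.g (nat_lit 2010) (.e (nat_lit 57476) (nat_lit 28) (.e (nat_lit 557104) (nat_lit 14) (.e (nat_lit 180252) (nat_lit 10) (.e (nat_lit 573481) (nat_lit 13) (.e (nat_lit 65570) (nat_lit 3) .nil))))) .nil))))) (.nd (nat_lit 3) (.nd (nat_lit 4) (.nd (nat_lit 5) 
(.lf (nat_lit 166148) (.g (nat_lit 2643) (.e (nat_lit 57476) (nat_lit 28) (.e (nat_lit 557103) (nat_lit 14) (.e (nat_lit 180250) (nat_lit 10) (.e (nat_lit 573485) (nat_lit 13) (.e (nat_lit 65571) (nat_lit 3) (.e (nat_lit 98321) (nat_lit 17) (.e (nat_lit 7936) (nat_lit 216) (.e (nat_lit 688168) (nat_lit 15) .nil)))))))) (.g (nat_lit 4) .nil .nil))) 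
(.lf (nat_lit 166180) (.g (nat_lit 2182) (.e (nat_lit 57476) (nat_lit 28) (.e (nat_lit 557103) (nat_lit 14) (.e (nat_lit 180250) (nat_lit 10) (.e (nat_lit 573489) (nat_lit 14) (.e (nat_lit 73754) (nat_lit 8) (.e (nat_lit 557094) (nat_lit 12) (.e (nat_lit 163996) (nat_lit 37) (.e (nat_lit 630818) (nat_lit 15) .nil)))))))) (.g (nat_lit 4) .nil .nil)))) (.nd (nat_lit 5) 
(.lf (nat_lit 166164) (.g (nat_lit 3454) (.e (nat_lit 57476) (nat_lit 28) (.e (nat_lit 557103) (nat_lit 14) (.e (nat_lit 180250) (nat_lit 10) (.e (nat_lit 573487) (nat_lit 14) (.e (nat_lit 73753) (nat_lit 8) (.e (nat_lit 557089) (nat_lit 12) (.e (nat_lit 164000) (nat_lit 38) (.e (nat_lit 639016) (nat_lit 15) .nil)))))))) (.g (nat_lit 5) .nil .nil))) 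
(.lf (nat_lit 166196) (.g (nat_lit 3524) (.e (nat_lit 57476) (nat_lit 28) (.e (nat_lit 557104) (nat_lit 14) (.e (nat_lit 180251) (nat_lit 10) (.e (nat_lit 573489) (nat_lit 14) (.e (nat_lit 73755) (nat_lit 8) (.e (nat_lit 557091) (nat_lit 12) (.e (nat_lit 163999) (nat_lit 38) (.e (nat_lit 639016) (nat_lit 15) .nil)))))))) (.g (nat_lit 6) .nil .nil))))) (.nd (nat_lit 4) (.nd (nat_lit 5) 
(.lf (nat_lit 166156) (.g (nat_lit 3803) (.e (nat_lit 57476) (nat_lit 28) (.e (nat_lit 557103) (nat_lit 14) (.e (nat_lit 180250) (nat_lit 10) (.e (nat_lit 573487) (nat_lit 14) (.e (nat_lit 73747) (nat_lit 3) (.e (nat_lit 516115) (nat_lit 1) (.e (nat_lit 164151) (nat_lit 152) (.e (nat_lit 1186) (nat_lit 87) .nil)))))))) (.g (nat_lit 6) .nil .nil))) 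
(.lf (nat_lit 166188) (.g (nat_lit 2216) (.e (nat_lit 57476) (nat_lit 28) (.e (nat_lit 557104) (nat_lit 14) (.e (nat_lit 180225) (nat_lit 0) (.e (nat_lit 5954) (nat_lit 322) (.e (nat_lit 57447) (nat_lit 19) .nil))))) .nil))) (.nd (nat_lit 5) 
(.lf (nat_lit 166172) (.g (nat_lit 3096) (.e (nat_lit 57476) (nat_lit 28) (.e (nat_lit 557103) (nat_lit 14) (.e (nat_lit 180250) (nat_lit 10) (.e (nat_lit 573487) (nat_lit 14) (.e (nat_lit 73754) (nat_lit 8) (.e (nat_lit 557091) (nat_lit 12) (.e (nat_lit 163999) (nat_lit 38) (.e (nat_lit 639016) (nat_lit 15) .nil)))))))) (.g (nat_lit 4) .nil .nil))) 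
(.lf (nat_lit 166204) (.g (nat_lit 1780) (.e (nat_lit 57476) (nat_lit 28) (.e (nat_lit 557104) (nat_lit 14) (.e (nat_lit 180252) (nat_lit 10) (.e (nat_lit 573481) (nat_lit 13) (.e (nat_lit 65571) (nat_lit 3) .nil))))) .nil)))))) (.nd (nat_lit 2) (.nd (nat_lit 3) (.nd (nat_lit 4) (.nd (nat_lit 5) 
(.lf (nat_lit 166146) (.g (nat_lit 2855) (.e (nat_lit 57476) (nat_lit 28) (.e (nat_lit 557103) (nat_lit 14) (.e (nat_lit 180250) (nat_lit 10) (.e (nat_lit 573485) (nat_lit 13) (.e (nat_lit 65570) (nat_lit 3) (.e (nat_lit 98333) (nat_lit 18) (.e (nat_lit 164151) (nat_lit 152) (.e (nat_lit 1186) (nat_lit 87) .nil)))))))) (.g (nat_lit 4) .nil .nil))) 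
(.lf (nat_lit 166178) (.g (nat_lit 2332) (.e (nat_lit 57476) (nat_lit 28) (.e (nat_lit 557103) (nat_lit 14) (.e (nat_lit 180250) (nat_lit 10) (.e (nat_lit 573489) (nat_lit 14) (.e (nat_lit 81664) (nat_lit 5) .nil))))) .nil))) (.nd (nat_lit 5) 
(.lf (nat_lit 166162) (.g (nat_lit 2927) (.e (nat_lit 57476) (nat_lit 28) (.e (nat_lit 557103) (nat_lit 14) (.e (nat_lit 180250) (nat_lit 10) (.e (nat_lit 573487) (nat_lit 14) (.e (nat_lit 81664) (nat_lit 5) (.e (nat_lit 532499) (nat_lit 1) (.e (nat_lit 57655) (nat_lit 152) (.e (nat_lit 1186) (nat_lit 87) .nil)))))))) (.g (nat_lit 4) .nil .nil))) 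
(.lf (nat_lit 166194) (.g (nat_lit 2474) (.e (nat_lit 57476) (nat_lit 28) (.e (nat_lit 557104) (nat_lit 14) (.e (nat_lit 180251) (nat_lit 10) (.e (nat_lit 573489) (nat_lit 14) (.e (nat_lit 73754) (nat_lit 8) (.e (nat_lit 557091) (nat_lit 12) (.e (nat_lit 163999) (nat_lit 38) (.e (nat_lit 639016) (nat_lit 15) .nil)))))))) (.g (nat_lit 4) .nil .nil))))) (.nd (nat_lit 4) (.nd (nat_lit 5) 
(.lf (nat_lit 166154) (.g (nat_lit 2433) (.e (nat_lit 57476) (nat_lit 28) (.e (nat_lit 557103) (nat_lit 14) (.e (nat_lit 180250) (nat_lit 10) (.e (nat_lit 573487) (nat_lit 14) (.e (nat_lit 73747) (nat_lit 3) (.e (nat_lit 516100) (nat_lit 0) (.e (nat_lit 7936) (nat_lit 216) (.e (nat_lit 688166) (nat_lit 15) .nil)))))))) (.g (nat_lit 4) .nil .nil))) 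
(.lf (nat_lit 166186) (.g (nat_lit 2369) (.e (nat_lit 57476) (nat_lit 28) (.e (nat_lit 557103) (nat_lit 14) (.e (nat_lit 180251) (nat_lit 10) (.e (nat_lit 573489) (nat_lit 14) (.e (nat_lit 73755) (nat_lit 8) (.e (nat_lit 557091) (nat_lit 12) (.e (nat_lit 164000) (nat_lit 38) (.e (nat_lit 639016) (nat_lit 15) .nil)))))))) (.g (nat_lit 4) .nil .nil)))) (.nd (nat_lit 5) 
(.lf (nat_lit 166170) (.g (nat_lit 2295) (.e (nat_lit 57476) (nat_lit 28) (.e (nat_lit 557103) (nat_lit 14) (.e (nat_lit 180250) (nat_lit 10) (.e (nat_lit 573487) (nat_lit 14) (.e (nat_lit 73753) (nat_lit 8) (.e (nat_lit 557094) (nat_lit 12) (.e (nat_lit 163996) (nat_lit 37) (.e (nat_lit 630818) (nat_lit 15) .nil)))))))) (.g (nat_lit 4) .nil .nil))) 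
(.lf (nat_lit 166202) (.g (nat_lit 2689) (.e (nat_lit 57476) (nat_lit 28) (.e (nat_lit 557104) (nat_lit 14) (.e (nat_lit 180252) (nat_lit 10) (.e (nat_lit 573481) (nat_lit 13) (.e (nat_lit 65570) (nat_lit 3) (.e (nat_lit 98333) (nat_lit 18) (.e (nat_lit 164151) (nat_lit 152) (.e (nat_lit 1185) (nat_lit 87) .nil)))))))) (.g (nat_lit 5) .nil .nil)))))) 
(.nd (nat_lit 3) (.nd (nat_lit 4) (.nd (nat_lit 5) 
(.lf (nat_lit 166150) (.g (nat_lit 2876) (.e (nat_lit 57476) (nat_lit 28) (.e (nat_lit 557103) (nat_lit 14) (.e (nat_lit 180250) (nat_lit 10) (.e (nat_lit 573487) (nat_lit 14) (.e (nat_lit 73746) (nat_lit 3) (.e (nat_lit 516100) (nat_lit 0) (.e (nat_lit 7936) (nat_lit 216) (.e (nat_lit 688167) (nat_lit 15) .nil)))))))) (.g (nat_lit 4) .nil .nil))) 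
(.lf (nat_lit 166182) (.g (nat_lit 2060) (.e (nat_lit 57476) (nat_lit 28) (.e (nat_lit 557103) (nat_lit 14) (.e (nat_lit 180250) (nat_lit 10) (.e (nat_lit 573489) (nat_lit 14) (.e (nat_lit 73755) (nat_lit 8) (.e (nat_lit 557089) (nat_lit 12) (.e (nat_lit 163996) (nat_lit 37) (.e (nat_lit 630818) (nat_lit 15) .nil)))))))) (.g (nat_lit 4) .nil .nil)))) (.nd (nat_lit 5) 
(.lf (nat_lit 166166) (.g (nat_lit 2634) (.e (nat_lit 57476) (nat_lit 28) (.e (nat_lit 557103) (nat_lit 14) (.e (nat_lit 180250) (nat_lit 10) (.e (nat_lit 573487) (nat_lit 14) (.e (nat_lit 73753) (nat_lit 8) (.e (nat_lit 557091) (nat_lit 12) (.e (nat_lit 163998) (nat_lit 38) (.e (nat_lit 639016) (nat_lit 15) .nil)))))))) (.g (nat_lit 4) .nil .nil))) 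
(.lf (nat_lit 166198) (.g (nat_lit 2012) (.e (nat_lit 57476) (nat_lit 28) (.e (nat_lit 557104) (nat_lit 14) (.e (nat_lit 180252) (nat_lit 10) (.e (nat_lit 573480) (nat_lit 13) (.e (nat_lit 65571) (nat_lit 3) (.e (nat_lit 98321) (nat_lit 17) (.e (nat_lit 7936) (nat_lit 216) (.e (nat_lit 688168) (nat_lit 15) .nil)))))))) (.g (nat_lit 4) .nil .nil))))) (.nd (nat_lit 4) (.nd (nat_lit 5) 
(.lf (nat_lit 166158) (.g (nat_lit 2489) (.e (nat_lit 57476) (nat_lit 28) (.e (nat_lit 557103) (nat_lit 14) (.e (nat_lit 180250) (nat_lit 10) (.e (nat_lit 573487) (nat_lit 14) (.e (nat_lit 73747) (nat_lit 3) (.e (nat_lit 516119) (nat_lit 1) (.e (nat_lit 164148) (nat_lit 152) (.e (nat_lit 1185) (nat_lit 87) .nil)))))))) (.g (nat_lit 4) .nil .nil))) 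
(.lf (nat_lit 166190) (.g (nat_lit 471) (.e (nat_lit 57476) (nat_lit 28) (.e (nat_lit 557104) (nat_lit 14) (.e (nat_lit 180233) (nat_lit 0) .nil))) .nil))) (.nd (nat_lit 5) 
(.lf (nat_lit 166174) (.g (nat_lit 2141) (.e (nat_lit 57476) (nat_lit 28) (.e (nat_lit 557103) (nat_lit 14) (.e (nat_lit 180250) (nat_lit 10) (.e (nat_lit 573488) (nat_lit 14) (.e (nat_lit 73747) (nat_lit 3) (.e (nat_lit 516119) (nat_lit 1) (.e (nat_lit 164150) (nat_lit 152) (.e (nat_lit 1186) (nat_lit 87) .nil)))))))) (.g (nat_lit 4) .nil .nil))) 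
(.lf (nat_lit 166206) (.g (nat_lit 2921) (.e (nat_lit 57476) (nat_lit 28) (.e (nat_lit 557104) (nat_lit 14) (.e (nat_lit 180252) (nat_lit 10) (.e (nat_lit 573482) (nat_lit 13) (.e (nat_lit 65569) (nat_lit 3) (.e (nat_lit 98321) (nat_lit 17) (.e (nat_lit 7936) (nat_lit 216) (.e (nat_lit 688166) (nat_lit 15) .nil)))))))) (.g (nat_lit 4) .nil .nil)))))))) 
(.nd (nat_lit 1) (.nd (nat_lit 2) (.nd (nat_lit 3) (.nd (nat_lit 4) (.nd (nat_lit 5) 
(.lf (nat_lit 166145) (.g (nat_lit 2781) (.e (nat_lit 57476) (nat_lit 28) (.e (nat_lit 557103) (nat_lit 14) (.e (nat_lit 180250) (nat_lit 10) (.e (nat_lit 573485) (nat_lit 13) (.e (nat_lit 65570) (nat_lit 3) (.e (nat_lit 98333) (nat_lit 18) (.e (nat_lit 164151) (nat_lit 152) (.e (nat_lit 1185) (nat_lit 87) .nil)))))))) (.g (nat_lit 4) .nil .nil))) 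
(.lf (nat_lit 166177) (.g (nat_lit 2338) (.e (nat_lit 57476) (nat_lit 28) (.e (nat_lit 557103) (nat_lit 14) (.e (nat_lit 180250) (nat_lit 10) (.e (nat_lit 573489) (nat_lit 14) (.e (nat_lit 73748) (nat_lit 3) (.e (nat_lit 516115) (nat_lit 1) (.e (nat_lit 164151) (nat_lit 152) (.e (nat_lit 1186) (nat_lit 87) .nil)))))))) (.g (nat_lit 4) .nil .nil)))) (.nd (nat_lit 5) 
(.lf (nat_lit 166161) (.g (nat_lit 2816) (.e (nat_lit 57476) (nat_lit 28) (.e (nat_lit 557103) (nat_lit 14) (.e (nat_lit 180250) (nat_lit 10) (.e (nat_lit 573487) (nat_lit 14) (.e (nat_lit 81664) (nat_lit 5) (.e (nat_lit 532490) (nat_lit 0) (.e (nat_lit 1040) (nat_lit 81) (.e (nat_lit 7147) (nat_lit 382) (.e (nat_lit 1185) (nat_lit 87) .nil))))))))) (.g (nat_lit 4) .nil .nil))) 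
(.lf (nat_lit 166193) (.g (nat_lit 2499) (.e (nat_lit 57476) (nat_lit 28) (.e (nat_lit 557104) (nat_lit 14) (.e (nat_lit 180251) (nat_lit 10) (.e (nat_lit 573484) (nat_lit 13) (.e (nat_lit 65569) (nat_lit 3) .nil))))) .nil)))) (.nd (nat_lit 4) (.nd (nat_lit 5) 
(.lf (nat_lit 166153) (.g (nat_lit 2850) (.e (nat_lit 57476) (nat_lit 28) (.e (nat_lit 557103) (nat_lit 14) (.e (nat_lit 180250) (nat_lit 10) (.e (nat_lit 573487) (nat_lit 14) (.e (nat_lit 73746) (nat_lit 3) (.e (nat_lit 516119) (nat_lit 1) (.e (nat_lit 164149) (nat_lit 152) (.e (nat_lit 1186) (nat_lit 87) .nil)))))))) (.g (nat_lit 4) .nil .nil))) 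
(.lf (nat_lit 166185) (.g (nat_lit 4841) (.e (nat_lit 57476) (nat_lit 28) (.e (nat_lit 557103) (nat_lit 14) (.e (nat_lit 180250) (nat_lit 10) (.e (nat_lit 573489) (nat_lit 14) (.e (nat_lit 73755) (nat_lit 8) (.e (nat_lit 557091) (nat_lit 12) (.e (nat_lit 163999) (nat_lit 38) (.e (nat_lit 639016) (nat_lit 15) .nil)))))))) (.g (nat_lit 7) .nil .nil)))) (.nd (nat_lit 5) 
(.lf (nat_lit 166169) (.g (nat_lit 3072) (.e (nat_lit 57476) (nat_lit 28) (.e (nat_lit 557103) (nat_lit 14) (.e (nat_lit 180250) (nat_lit 10) (.e (nat_lit 573487) (nat_lit 14) (.e (nat_lit 73753) (nat_lit 8) (.e (nat_lit 557093) (nat_lit 12) (.e (nat_lit 163998) (nat_lit 38) (.e (nat_lit 639016) (nat_lit 15) .nil)))))))) (.g (nat_lit 5) .nil .nil))) 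
(.lf (nat_lit 166201) (.g (nat_lit 2201) (.e (nat_lit 57476) (nat_lit 28) (.e (nat_lit 557104) (nat_lit 14) (.e (nat_lit 180252) (nat_lit 10) (.e (nat_lit 573481) (nat_lit 13) (.e (nat_lit 65570) (nat_lit 3) (.e (nat_lit 98321) (nat_lit 17) (.e (nat_lit 7936) (nat_lit 216) (.e (nat_lit 688168) (nat_lit 15) .nil)))))))) (.g (nat_lit 4) .nil .nil)))))) 
(.nd (nat_lit 3) (.nd (nat_lit 4) (.nd (nat_lit 5) 
(.lf (nat_lit 166149) (.g (nat_lit 3580) (.e (nat_lit 57476) (nat_lit 28) (.e (nat_lit 557103) (nat_lit 14) (.e (nat_lit 180250) (nat_lit 10) (.e (nat_lit 573487) (nat_lit 14) (.e (nat_lit 73746) (nat_lit 3) (.e (nat_lit 516100) (nat_lit 0) (.e (nat_lit 7936) (nat_lit 216) (.e (nat_lit 688166) (nat_lit 15) .nil)))))))) (.g (nat_lit 5) .nil .nil))) 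
(.lf (nat_lit 166181) (.g (nat_lit 2519) (.e (nat_lit 57476) (nat_lit 28) (.e (nat_lit 557103) (nat_lit 14) (.e (nat_lit 180250) (nat_lit 10) (.e (nat_lit 573489) (nat_lit 14) (.e (nat_lit 73754) (nat_lit 8) (.e (nat_lit 557094) (nat_lit 12) (.e (nat_lit 163998) (nat_lit 38) (.e (nat_lit 639016) (nat_lit 15) .nil)))))))) (.g (nat_lit 4) .nil .nil)))) (.nd (nat_lit 5) 
(.lf (nat_lit 166165) (.g (nat_lit 2343) (.e (nat_lit 57476) (nat_lit 28) (.e (nat_lit 557103) (nat_lit 14) (.e (nat_lit 180250) (nat_lit 10) (.e (nat_lit 573487) (nat_lit 14) (.e (nat_lit 73753) (nat_lit 8) (.e (nat_lit 557091) (nat_lit 12) (.e (nat_lit 163996) (nat_lit 37) (.e (nat_lit 630818) (nat_lit 15) .nil)))))))) (.g (nat_lit 4) .nil .nil))) 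
(.lf (nat_lit 166197) (.g (nat_lit 1310) (.e (nat_lit 57476) (nat_lit 28) (.e (nat_lit 557104) (nat_lit 14) (.e (nat_lit 180252) (nat_lit 10) (.e (nat_lit 573480) (nat_lit 13) .nil)))) .nil)))) (.nd (nat_lit 4) (.nd (nat_lit 5) 
(.lf (nat_lit 166157) (.g (nat_lit 2618) (.e (nat_lit 57476) (nat_lit 28) (.e (nat_lit 557103) (nat_lit 14) (.e (nat_lit 180250) (nat_lit 10) (.e (nat_lit 573487) (nat_lit 14) (.e (nat_lit 73747) (nat_lit 3) (.e (nat_lit 516115) (nat_lit 1) (.e (nat_lit 164161) (nat_lit 152) (.e (nat_lit 7936) (nat_lit 87) .nil)))))))) (.g (nat_lit 4) .nil .nil))) 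
(.lf (nat_lit 166189) (.g (nat_lit 1006) (.e (nat_lit 57476) (nat_lit 28) (.e (nat_lit 557104) (nat_lit 14) (.e (nat_lit 180227) (nat_lit 0) (.e (nat_lit 5958) (nat_lit 323) .nil)))) .nil))) (.nd (nat_lit 5) 
(.lf (nat_lit 166173) (.g (nat_lit 1997) (.e (nat_lit 57476) (nat_lit 28) (.e (nat_lit 557103) (nat_lit 14) (.e (nat_lit 180250) (nat_lit 10) (.e (nat_lit 573488) (nat_lit 14) (.e (nat_lit 73747) (nat_lit 3) (.e (nat_lit 516119) (nat_lit 1) (.e (nat_lit 164149) (nat_lit 152) (.e (nat_lit 1186) (nat_lit 87) .nil)))))))) (.g (nat_lit 4) .nil .nil))) 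
(.lf (nat_lit 166205) (.g (nat_lit 1340) (.e (nat_lit 57476) (nat_lit 28) (.e (nat_lit 557104) (nat_lit 14) (.e (nat_lit 180252) (nat_lit 10) (.e (nat_lit 573482) (nat_lit 13) .nil)))) .nil)))))) (.nd (nat_lit 2) (.nd (nat_lit 3) (.nd (nat_lit 4) (.nd (nat_lit 5) 
(.lf (nat_lit 166147) (.g (nat_lit 2328) (.e (nat_lit 57476) (nat_lit 28) (.e (nat_lit 557103) (nat_lit 14) (.e (nat_lit 180250) (nat_lit 10) (.e (nat_lit 573485) (nat_lit 13) (.e (nat_lit 65570) (nat_lit 3) (.e (nat_lit 98333) (nat_lit 18) (.e (nat_lit 164161) (nat_lit 152) (.e (nat_lit 7936) (nat_lit 87) .nil)))))))) (.g (nat_lit 4) .nil .nil))) 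
(.lf (nat_lit 166179) (.g (nat_lit 4237) (.e (nat_lit 57476) (nat_lit 28) (.e (nat_lit 557103) (nat_lit 14) (.e (nat_lit 180250) (nat_lit 10) (.e (nat_lit 573489) (nat_lit 14) (.e (nat_lit 73754) (nat_lit 8) (.e (nat_lit 557091) (nat_lit 12) (.e (nat_lit 163999) (nat_lit 38) (.e (nat_lit 639016) (nat_lit 15) .nil)))))))) (.g (nat_lit 6) .nil .nil)))) (.nd (nat_lit 5) 
(.lf (nat_lit 166163) (.g (nat_lit 3309) (.e (nat_lit 57476) (nat_lit 28) (.e (nat_lit 557103) (nat_lit 14) (.e (nat_lit 180250) (nat_lit 10) (.e (nat_lit 573487) (nat_lit 14) (.e (nat_lit 73753) (nat_lit 8) (.e (nat_lit 557089) (nat_lit 12) (.e (nat_lit 163999) (nat_lit 38) (.e (nat_lit 639016) (nat_lit 15) .nil)))))))) (.g (nat_lit 5) .nil .nil))) 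
(.lf (nat_lit 166195) (.g (nat_lit 2260) (.e (nat_lit 57476) (nat_lit 28) (.e (nat_lit 557104) (nat_lit 14) (.e (nat_lit 180251) (nat_lit 10) (.e (nat_lit 573489) (nat_lit 14) (.e (nat_lit 73755) (nat_lit 8) (.e (nat_lit 557089) (nat_lit 12) (.e (nat_lit 164000) (nat_lit 38) (.e (nat_lit 639016) (nat_lit 15) .nil)))))))) (.g (nat_lit 4) .nil .nil))))) (.nd (nat_lit 4) (.nd (nat_lit 5) 
(.lf (nat_lit 166155) (.g (nat_lit 2843) (.e (nat_lit 57476) (nat_lit 28) (.e (nat_lit 557103) (nat_lit 14) (.e (nat_lit 180250) (nat_lit 10) (.e (nat_lit 573487) (nat_lit 14) (.e (nat_lit 73747) (nat_lit 3) (.e (nat_lit 516100) (nat_lit 0) (.e (nat_lit 7936) (nat_lit 216) (.e (nat_lit 688168) (nat_lit 15) .nil)))))))) (.g (nat_lit 5) .nil .nil))) 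
(.lf (nat_lit 166187) (.g (nat_lit 1478) (.e (nat_lit 57476) (nat_lit 28) (.e (nat_lit 557104) (nat_lit 14) (.e (nat_lit 180225) (nat_lit 0) (.e (nat_lit 5954) (nat_lit 322) .nil)))) .nil))) (.nd (nat_lit 5) 
(.lf (nat_lit 166171) (.g (nat_lit 2678) (.e (nat_lit 57476) (nat_lit 28) (.e (nat_lit 557103) (nat_lit 14) (.e (nat_lit 180250) (nat_lit 10) (.e (nat_lit 573487) (nat_lit 14) (.e (nat_lit 73753) (nat_lit 8) (.e (nat_lit 557094) (nat_lit 12) (.e (nat_lit 163998) (nat_lit 38) (.e (nat_lit 639016) (nat_lit 15) .nil)))))))) (.g (nat_lit 4) .nil .nil))) 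
(.lf (nat_lit 166203) (.g (nat_lit 2351) (.e (nat_lit 57476) (nat_lit 28) (.e (nat_lit 557104) (nat_lit 14) (.e (nat_lit 180252) (nat_lit 10) (.e (nat_lit 573481) (nat_lit 13) (.e (nat_lit 65570) (nat_lit 3) (.e (nat_lit 98333) (nat_lit 18) (.e (nat_lit 164161) (nat_lit 152) (.e (nat_lit 7936) (nat_lit 87) .nil)))))))) (.g (nat_lit 4) .nil .nil)))))) 
(.nd (nat_lit 3) (.nd (nat_lit 4) (.nd (nat_lit 5) 
(.lf (nat_lit 166151) (.g (nat_lit 3990) (.e (nat_lit 57476) (nat_lit 28) (.e (nat_lit 557103) (nat_lit 14) (.e (nat_lit 180250) (nat_lit 10) (.e (nat_lit 573487) (nat_lit 14) (.e (nat_lit 73746) (nat_lit 3) (.e (nat_lit 516100) (nat_lit 0) (.e (nat_lit 7936) (nat_lit 216) (.e (nat_lit 688168) (nat_lit 15) .nil)))))))) (.g (nat_lit 5) .nil .nil))) 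
(.lf (nat_lit 166183) (.g (nat_lit 3392) (.e (nat_lit 57476) (nat_lit 28) (.e (nat_lit 557103) (nat_lit 14) (.e (nat_lit 180250) (nat_lit 10) (.e (nat_lit 573489) (nat_lit 14) (.e (nat_lit 73755) (nat_lit 8) (.e (nat_lit 557089) (nat_lit 12) (.e (nat_lit 163999) (nat_lit 38) (.e (nat_lit 639016) (nat_lit 15) .nil)))))))) (.g (nat_lit 5) .nil .nil)))) (.nd (nat_lit 5) 
(.lf (nat_lit 166167) (.g (nat_lit 4148) (.e (nat_lit 57476) (nat_lit 28) (.e (nat_lit 557103) (nat_lit 14) (.e (nat_lit 180250) (nat_lit 10) (.e (nat_lit 573487) (nat_lit 14) (.e (nat_lit 73753) (nat_lit 8) (.e (nat_lit 557091) (nat_lit 12) (.e (nat_lit 163999) (nat_lit 38) (.e (nat_lit 639016) (nat_lit 15) .nil)))))))) (.g (nat_lit 6) .nil .nil))) 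
(.lf (nat_lit 166199) (.g (nat_lit 2048) (.e (nat_lit 57476) (nat_lit 28) (.e (nat_lit 557104) (nat_lit 14) (.e (nat_lit 180252) (nat_lit 10) (.e (nat_lit 573481) (nat_lit 13) (.e (nat_lit 65569) (nat_lit 3) .nil))))) .nil)))) (.nd (nat_lit 4) (.nd (nat_lit 5) 
(.lf (nat_lit 166159) (.g (nat_lit 2615) (.e (nat_lit 57476) (nat_lit 28) (.e (nat_lit 557103) (nat_lit 14) (.e (nat_lit 180250) (nat_lit 10) (.e (nat_lit 573487) (nat_lit 14) (.e (nat_lit 73747) (nat_lit 3) (.e (nat_lit 516119) (nat_lit 1) (.e (nat_lit 164150) (nat_lit 152) (.e (nat_lit 1185) (nat_lit 87) .nil)))))))) (.g (nat_lit 4) .nil .nil))) 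
(.lf (nat_lit 166191) (.g (nat_lit 1520) (.e (nat_lit 57476) (nat_lit 28) (.e (nat_lit 557104) (nat_lit 14) (.e (nat_lit 180244) (nat_lit 5) (.e (nat_lit 532579) (nat_lit 26) .nil)))) .nil))) (.nd (nat_lit 5) 
(.lf (nat_lit 166175) (.g (nat_lit 1595) (.e (nat_lit 57476) (nat_lit 28) (.e (nat_lit 557103) (nat_lit 14) (.e (nat_lit 180250) (nat_lit 10) (.e (nat_lit 573488) (nat_lit 14) (.e (nat_lit 81664) (nat_lit 5) .nil))))) .nil)) 
(.lf (nat_lit 166207) (.g (nat_lit 3835) (.e (nat_lit 57476) (nat_lit 28) (.e (nat_lit 557104) (nat_lit 14) (.e (nat_lit 180252) (nat_lit 10) (.e (nat_lit 573482) (nat_lit 13) (.e (nat_lit 65569) (nat_lit 3) (.e (nat_lit 98321) (nat_lit 17) (.e (nat_lit 7936) (nat_lit 216) (.e (nat_lit 688168) (nat_lit 15) .nil)))))))) (.g (nat_lit 5) .nil .nil)))))))))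

noncomputable def tv2229 : DT := (.nd (nat_lit 0) (.nd (nat_lit 1) (.nd (nat_lit 2) (.nd (nat_lit 3) (.nd (nat_lit 4) (.nd (nat_lit 5) 
(.lf (nat_lit 166208) (.g (nat_lit 2723) (.e (nat_lit 57476) (nat_lit 28) (.e (nat_lit 557104) (nat_lit 14) (.e (nat_lit 180252) (nat_lit 10) (.e (nat_lit 573482) (nat_lit 13) (.e (nat_lit 65570) (nat_lit 3) .nil))))) .nil)) 
(.lf (nat_lit 166240) (.g (nat_lit 2285) (.e (nat_lit 57476) (nat_lit 28) (.e (nat_lit 557104) (nat_lit 14) (.e (nat_lit 180252) (nat_lit 10) (.e (nat_lit 573488) (nat_lit 14) (.e (nat_lit 73747) (nat_lit 3) (.e (nat_lit 516101) (nat_lit 0) (.e (nat_lit 3453) (nat_lit 216) (.e (nat_lit 688168) (nat_lit 15) .nil)))))))) (.g (nat_lit 4) .nil .nil)))) (.nd (nat_lit 5) 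
(.lf (nat_lit 166224) (.g (nat_lit 2584) (.e (nat_lit 57476) (nat_lit 28) (.e (nat_lit 557104) (nat_lit 14) (.e (nat_lit 180252) (nat_lit 10) (.e (nat_lit 573487) (nat_lit 14) (.e (nat_lit 73747) (nat_lit 3) (.e (nat_lit 516115) (nat_lit 1) (.e (nat_lit 164150) (nat_lit 152) (.e (nat_lit 1185) (nat_lit 87) .nil)))))))) (.g (nat_lit 4) .nil .nil))) 
(.lf (nat_lit 166256) (.g (nat_lit 2365) (.e (nat_lit 57476) (nat_lit 28) (.e (nat_lit 557104) (nat_lit 14) (.e (nat_lit 180252) (nat_lit 10) (.e (nat_lit 573488) (nat_lit 14) (.e (nat_lit 73754) (nat_lit 8) (.e (nat_lit 557091) (nat_lit 12) (.e (nat_lit 163999) (nat_lit 38) (.e (nat_lit 639016) (nat_lit 15) .nil)))))))) (.g (nat_lit 4) .nil .nil))))) (.nd (nat_lit 4) (.nd (nat_lit 5) 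
(.lf (nat_lit 166216) (.g (nat_lit 1333) (.e (nat_lit 57476) (nat_lit 28) (.e (nat_lit 557104) (nat_lit 14) (.e (nat_lit 180252) (nat_lit 10) (.e (nat_lit 573487) (nat_lit 14) .nil)))) .nil)) 
(.lf (nat_lit 166248) (.g (nat_lit 2129) (.e (nat_lit 57476) (nat_lit 28) (.e (nat_lit 557104) (nat_lit 14) (.e (nat_lit 180252) (nat_lit 10) (.e (nat_lit 573488) (nat_lit 14) (.e (nat_lit 73748) (nat_lit 3) .nil))))) .nil))) (.nd (nat_lit 5) 
(.lf (nat_lit 166232) (.g (nat_lit 3112) (.e (nat_lit 57476) (nat_lit 28) (.e (nat_lit 557104) (nat_lit 14) (.e (nat_lit 180252) (nat_lit 10) (.e (nat_lit 573487) (nat_lit 14) (.e (nat_lit 73753) (nat_lit 8) (.e (nat_lit 557089) (nat_lit 12) (.e (nat_lit 163999) (nat_lit 38) (.e (nat_lit 639016) (nat_lit 15) .nil)))))))) (.g (nat_lit 5) .nil .nil))) 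
(.lf (nat_lit 166264) (.g (nat_lit 4366) (.e (nat_lit 57476) (nat_lit 28) (.e (nat_lit 557104) (nat_lit 14) (.e (nat_lit 180252) (nat_lit 10) (.e (nat_lit 573489) (nat_lit 14) (.e (nat_lit 73755) (nat_lit 8) (.e (nat_lit 557090) (nat_lit 12) (.e (nat_lit 164000) (nat_lit 38) (.e (nat_lit 639016) (nat_lit 15) .nil)))))))) (.g (nat_lit 7) .nil .nil)))))) 
(.nd (nat_lit 3) (.nd (nat_lit 4) (.nd (nat_lit 5) 
(.lf (nat_lit 166212) (.g (nat_lit 2576) (.e (nat_lit 57476) (nat_lit 28) (.e (nat_lit 557104) (nat_lit 14) (.e (nat_lit 180252) (nat_lit 10) (.e (nat_lit 573482) (nat_lit 13) (.e (nat_lit 65571) (nat_lit 3) .nil))))) .nil)) 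
(.lf (nat_lit 166244) (.g (nat_lit 2273) (.e (nat_lit 57476) (nat_lit 28) (.e (nat_lit 557104) (nat_lit 14) (.e (nat_lit 180252) (nat_lit 10) (.e (nat_lit 573488) (nat_lit 14) (.e (nat_lit 73747) (nat_lit 3) (.e (nat_lit 516119) (nat_lit 1) (.e (nat_lit 164147) (nat_lit 152) (.e (nat_lit 1185) (nat_lit 87) .nil)))))))) (.g (nat_lit 4) .nil .nil)))) (.nd (nat_lit 5) 
(.lf (nat_lit 166228) (.g (nat_lit 2894) (.e (nat_lit 57476) (nat_lit 28) (.e (nat_lit 557104) (nat_lit 14) (.e (nat_lit 180252) (nat_lit 10) (.e (nat_lit 573487) (nat_lit 14) (.e (nat_lit 73747) (nat_lit 3) (.e (nat_lit 516119) (nat_lit 1) (.e (nat_lit 164151) (nat_lit 152) (.e (nat_lit 1186) (nat_lit 87) .nil)))))))) (.g (nat_lit 4) .nil .nil))) 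
(.lf (nat_lit 166260) (.g (nat_lit 2480) (.e (nat_lit 57476) (nat_lit 28) (.e (nat_lit 557104) (nat_lit 14) (.e (nat_lit 180252) (nat_lit 10) (.e (nat_lit 573489) (nat_lit 14) (.e (nat_lit 73754) (nat_lit 8) (.e (nat_lit 557093) (nat_lit 12) (.e (nat_lit 163998) (nat_lit 38) (.e (nat_lit 639016) (nat_lit 15) .nil)))))))) (.g (nat_lit 4) .nil .nil))))) (.nd (nat_lit 4) (.nd (nat_lit 5) 
(.lf (nat_lit 166220) (.g (nat_lit 2763) (.e (nat_lit 57476) (nat_lit 28) (.e (nat_lit 557104) (nat_lit 14) (.e (nat_lit 180252) (nat_lit 10) (.e (nat_lit 573487) (nat_lit 14) (.e (nat_lit 73747) (nat_lit 3) (.e (nat_lit 516097) (nat_lit 0) (.e (nat_lit 3455) (nat_lit 216) (.e (nat_lit 688167) (nat_lit 15) .nil)))))))) (.g (nat_lit 4) .nil .nil))) 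
(.lf (nat_lit 166252) (.g (nat_lit 3564) (.e (nat_lit 57476) (nat_lit 28) (.e (nat_lit 557104) (nat_lit 14) (.e (nat_lit 180252) (nat_lit 10) (.e (nat_lit 573488) (nat_lit 14) (.e (nat_lit 81664) (nat_lit 5) (.e (nat_lit 532490) (nat_lit 0) (.e (nat_lit 1040) (nat_lit 81) (.e (nat_lit 7147) (nat_lit 382) (.e (nat_lit 1185) (nat_lit 87) .nil))))))))) (.g (nat_lit 7) .nil .nil)))) (.nd (nat_lit 5) 
(.lf (nat_lit 166236) (.g (nat_lit 1175) (.e (nat_lit 57476) (nat_lit 28) (.e (nat_lit 557104) (nat_lit 14) (.e (nat_lit 180252) (nat_lit 10) (.e (nat_lit 573488) (nat_lit 14) .nil)))) .nil)) 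
(.lf (nat_lit 166268) (.g (nat_lit 3219) (.e (nat_lit 57476) (nat_lit 28) (.e (nat_lit 557105) (nat_lit 14) (.e (nat_lit 180252) (nat_lit 10) (.e (nat_lit 573489) (nat_lit 14) (.e (nat_lit 73755) (nat_lit 8) (.e (nat_lit 557090) (nat_lit 12) (.e (nat_lit 164000) (nat_lit 38) (.e (nat_lit 639016) (nat_lit 15) .nil)))))))) (.g (nat_lit 5) .nil .nil))))))) 
(.nd (nat_lit 2) (.nd (nat_lit 3) (.nd (nat_lit 4) (.nd (nat_lit 5) 
(.lf (nat_lit 166210) (.g (nat_lit 3206) (.e (nat_lit 57476) (nat_lit 28) (.e (nat_lit 557104) (nat_lit 14) (.e (nat_lit 180252) (nat_lit 10) (.e (nat_lit 573482) (nat_lit 13) (.e (nat_lit 65570) (nat_lit 3) (.e (nat_lit 98333) (nat_lit 18) (.e (nat_lit 164151) (nat_lit 152) (.e (nat_lit 1186) (nat_lit 87) .nil)))))))) (.g (nat_lit 4) .nil .nil))) 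
(.lf (nat_lit 166242) (.g (nat_lit 4420) (.e (nat_lit 57476) (nat_lit 28) (.e (nat_lit 557104) (nat_lit 14) (.e (nat_lit 180252) (nat_lit 10) (.e (nat_lit 573488) (nat_lit 14) (.e (nat_lit 73747) (nat_lit 3) (.e (nat_lit 516115) (nat_lit 1) (.e (nat_lit 164151) (nat_lit 152) (.e (nat_lit 1186) (nat_lit 87) .nil)))))))) (.g (nat_lit 6) .nil .nil)))) (.nd (nat_lit 5) 
(.lf (nat_lit 166226) (.g (nat_lit 2563) (.e (nat_lit 57476) (nat_lit 28) (.e (nat_lit 557104) (nat_lit 14) (.e (nat_lit 180252) (nat_lit 10) (.e (nat_lit 573487) (nat_lit 14) (.e (nat_lit 73747) (nat_lit 3) (.e (nat_lit 516119) (nat_lit 1) (.e (nat_lit 164148) (nat_lit 152) (.e (nat_lit 1185) (nat_lit 87) .nil)))))))) (.g (nat_lit 4) .nil .nil))) 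
(.lf (nat_lit 166258) (.g (nat_lit 2433) (.e (nat_lit 57476) (nat_lit 28) (.e (nat_lit 557104) (nat_lit 14) (.e (nat_lit 180252) (nat_lit 10) (.e (nat_lit 573489) (nat_lit 14) (.e (nat_lit 81664) (nat_lit 5) (.e (nat_lit 532499) (nat_lit 1) (.e (nat_lit 57655) (nat_lit 152) (.e (nat_lit 1185) (nat_lit 87) .nil)))))))) (.g (nat_lit 4) .nil .nil))))) (.nd (nat_lit 4) (.nd (nat_lit 5) 
(.lf (nat_lit 166218) (.g (nat_lit 2394) (.e (nat_lit 57476) (nat_lit 28) (.e (nat_lit 557104) (nat_lit 14) (.e (nat_lit 180252) (nat_lit 10) (.e (nat_lit 573487) (nat_lit 14) (.e (nat_lit 73747) (nat_lit 3) .nil))))) .nil)) 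
(.lf (nat_lit 166250) (.g (nat_lit 2465) (.e (nat_lit 57476) (nat_lit 28) (.e (nat_lit 557104) (nat_lit 14) (.e (nat_lit 180252) (nat_lit 10) (.e (nat_lit 573488) (nat_lit 14) (.e (nat_lit 73748) (nat_lit 3) (.e (nat_lit 516115) (nat_lit 1) (.e (nat_lit 164151) (nat_lit 152) (.e (nat_lit 1186) (nat_lit 87) .nil)))))))) (.g (nat_lit 4) .nil .nil)))) (.nd (nat_lit 5) 
(.lf (nat_lit 166234) (.g (nat_lit 2438) (.e (nat_lit 57476) (nat_lit 28) (.e (nat_lit 557104) (nat_lit 14) (.e (nat_lit 180252) (nat_lit 10) (.e (nat_lit 573487) (nat_lit 14) (.e (nat_lit 73753) (nat_lit 8) (.e (nat_lit 557094) (nat_lit 12) (.e (nat_lit 163998) (nat_lit 38) (.e (nat_lit 639016) (nat_lit 15) .nil)))))))) (.g (nat_lit 4) .nil .nil))) 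
(.lf (nat_lit 166266) (.g (nat_lit 2196) (.e (nat_lit 57476) (nat_lit 28) (.e (nat_lit 557105) (nat_lit 14) (.e (nat_lit 180252) (nat_lit 10) (.e (nat_lit 573489) (nat_lit 14) .nil)))) .nil))))) (.nd (nat_lit 3) (.nd (nat_lit 4) (.nd (nat_lit 5) 
(.lf (nat_lit 166214) (.g (nat_lit 3690) (.e (nat_lit 57476) (nat_lit 28) (.e (nat_lit 557104) (nat_lit 14) (.e (nat_lit 180252) (nat_lit 10) (.e (nat_lit 573482) (nat_lit 13) (.e (nat_lit 65571) (nat_lit 3) (.e (nat_lit 98321) (nat_lit 17) (.e (nat_lit 7936) (nat_lit 216) (.e (nat_lit 688168) (nat_lit 15) .nil)))))))) (.g (nat_lit 5) .nil .nil))) 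
(.lf (nat_lit 166246) (.g (nat_lit 3263) (.e (nat_lit 57476) (nat_lit 28) (.e (nat_lit 557104) (nat_lit 14) (.e (nat_lit 180252) (nat_lit 10) (.e (nat_lit 573488) (nat_lit 14) (.e (nat_lit 73747) (nat_lit 3) (.e (nat_lit 516119) (nat_lit 1) (.e (nat_lit 164149) (nat_lit 152) (.e (nat_lit 1185) (nat_lit 87) .nil)))))))) (.g (nat_lit 6) .nil .nil)))) (.nd (nat_lit 5) 
(.lf (nat_lit 166230) (.g (nat_lit 3899) (.e (nat_lit 57476) (nat_lit 28) (.e (nat_lit 557104) (nat_lit 14) (.e (nat_lit 180252) (nat_lit 10) (.e (nat_lit 573487) (nat_lit 14) (.e (nat_lit 81664) (nat_lit 5) (.e (nat_lit 532499) (nat_lit 1) (.e (nat_lit 57655) (nat_lit 152) (.e (nat_lit 1185) (nat_lit 87) .nil)))))))) (.g (nat_lit 7) .nil .nil))) 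
(.lf (nat_lit 166262) (.g (nat_lit 2271) (.e (nat_lit 57476) (nat_lit 28) (.e (nat_lit 557104) (nat_lit 14) (.e (nat_lit 180252) (nat_lit 10) (.e (nat_lit 573489) (nat_lit 14) (.e (nat_lit 73755) (nat_lit 8) (.e (nat_lit 557089) (nat_lit 12) (.e (nat_lit 163997) (nat_lit 37) (.e (nat_lit 630818) (nat_lit 15) .nil)))))))) (.g (nat_lit 4) .nil .nil))))) (.nd (nat_lit 4) (.nd (nat_lit 5) 
(.lf (nat_lit 166222) (.g (nat_lit 2811) (.e (nat_lit 57476) (nat_lit 28) (.e (nat_lit 557104) (nat_lit 14) (.e (nat_lit 180252) (nat_lit 10) (.e (nat_lit 573487) (nat_lit 14) (.e (nat_lit 73747) (nat_lit 3) (.e (nat_lit 516100) (nat_lit 0) (.e (nat_lit 7936) (nat_lit 216) (.e (nat_lit 688168) (nat_lit 15) .nil)))))))) (.g (nat_lit 4) .nil .nil))) 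
(.lf (nat_lit 166254) (.g (nat_lit 3577) (.e (nat_lit 57476) (nat_lit 28) (.e (nat_lit 557104) (nat_lit 14) (.e (nat_lit 180252) (nat_lit 10) (.e (nat_lit 573488) (nat_lit 14) (.e (nat_lit 81664) (nat_lit 5) (.e (nat_lit 532499) (nat_lit 1) (.e (nat_lit 57655) (nat_lit 152) (.e (nat_lit 1185) (nat_lit 87) .nil)))))))) (.g (nat_lit 7) .nil .nil)))) (.nd (nat_lit 5) 
(.lf (nat_lit 166238) (.g (nat_lit 1998) (.e (nat_lit 57476) (nat_lit 28) (.e (nat_lit 557104) (nat_lit 14) (.e (nat_lit 180252) (nat_lit 10) (.e (nat_lit 573488) (nat_lit 14) (.e (nat_lit 73747) (nat_lit 3) .nil))))) .nil)) 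
(.lf (nat_lit 166270) (.g (nat_lit 1474) (.e (nat_lit 57476) (nat_lit 28) (.e (nat_lit 557107) (nat_lit 15) (.e (nat_lit 196352) (nat_lit 11) (.e (nat_lit 336450) (nat_lit 33) (.e (nat_lit 475193) (nat_lit 38) (.e (nat_lit 688167) (nat_lit 15) .nil)))))) (.g (nat_lit 4) .nil .nil)))))))) (.nd (nat_lit 1) (.nd (nat_lit 2) (.nd (nat_lit 3) (.nd (nat_lit 4) (.nd (nat_lit 5) 
(.lf (nat_lit 166209) (.g (nat_lit 3132) (.e (nat_lit 57476) (nat_lit 28) (.e (nat_lit 557104) (nat_lit 14) (.e (nat_lit 180252) (nat_lit 10) (.e (nat_lit 573482) (nat_lit 13) (.e (nat_lit 65570) (nat_lit 3) (.e (nat_lit 98333) (nat_lit 18) (.e (nat_lit 164151) (nat_lit 152) (.e (nat_lit 1185) (nat_lit 87) .nil)))))))) (.g (nat_lit 4) .nil .nil))) 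
(.lf (nat_lit 166241) (.g (nat_lit 4405) (.e (nat_lit 57476) (nat_lit 28) (.e (nat_lit 557104) (nat_lit 14) (.e (nat_lit 180252) (nat_lit 10) (.e (nat_lit 573488) (nat_lit 14) (.e (nat_lit 73747) (nat_lit 3) (.e (nat_lit 516115) (nat_lit 1) (.e (nat_lit 164151) (nat_lit 152) (.e (nat_lit 1185) (nat_lit 87) .nil)))))))) (.g (nat_lit 6) .nil .nil)))) (.nd (nat_lit 5) 
(.lf (nat_lit 166225) (.g (nat_lit 2841) (.e (nat_lit 57476) (nat_lit 28) (.e (nat_lit 557104) (nat_lit 14) (.e (nat_lit 180252) (nat_lit 10) (.e (nat_lit 573487) (nat_lit 14) (.e (nat_lit 73747) (nat_lit 3) (.e (nat_lit 516115) (nat_lit 1) (.e (nat_lit 164161) (nat_lit 152) (.e (nat_lit 7936) (nat_lit 87) .nil)))))))) (.g (nat_lit 4) .nil .nil))) 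
(.lf (nat_lit 166257) (.g (nat_lit 2352) (.e (nat_lit 57476) (nat_lit 28) (.e (nat_lit 557104) (nat_lit 14) (.e (nat_lit 180252) (nat_lit 10) (.e (nat_lit 573489) (nat_lit 14) (.e (nat_lit 81664) (nat_lit 5) .nil))))) .nil)))) (.nd (nat_lit 4) (.nd (nat_lit 5) 
(.lf (nat_lit 166217) (.g (nat_lit 2497) (.e (nat_lit 57476) (nat_lit 28) (.e (nat_lit 557104) (nat_lit 14) (.e (nat_lit 180252) (nat_lit 10) (.e (nat_lit 573487) (nat_lit 14) (.e (nat_lit 73746) (nat_lit 3) .nil))))) .nil)) 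
(.lf (nat_lit 166249) (.g (nat_lit 2523) (.e (nat_lit 57476) (nat_lit 28) (.e (nat_lit 557104) (nat_lit 14) (.e (nat_lit 180252) (nat_lit 10) (.e (nat_lit 573488) (nat_lit 14) (.e (nat_lit 73748) (nat_lit 3) (.e (nat_lit 516115) (nat_lit 1) (.e (nat_lit 164151) (nat_lit 152) (.e (nat_lit 1185) (nat_lit 87) .nil)))))))) (.g (nat_lit 4) .nil .nil)))) (.nd (nat_lit 5) 
(.lf (nat_lit 166233) (.g (nat_lit 3247) (.e (nat_lit 57476) (nat_lit 28) (.e (nat_lit 557104) (nat_lit 14) (.e (nat_lit 180252) (nat_lit 10) (.e (nat_lit 573487) (nat_lit 14) (.e (nat_lit 73753) (nat_lit 8) (.e (nat_lit 557089) (nat_lit 12) (.e (nat_lit 164000) (nat_lit 38) (.e (nat_lit 639016) (nat_lit 15) .nil)))))))) (.g (nat_lit 5) .nil .nil))) 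
(.lf (nat_lit 166265) (.g (nat_lit 2668) (.e (nat_lit 57476) (nat_lit 28) (.e (nat_lit 557105) (nat_lit 14) (.e (nat_lit 180252) (nat_lit 10) (.e (nat_lit 573488) (nat_lit 14) .nil)))) .nil))))) (.nd (nat_lit 3) (.nd (nat_lit 4) (.nd (nat_lit 5) 
(.lf (nat_lit 166213) (.g (nat_lit 2776) (.e (nat_lit 57476) (nat_lit 28) (.e (nat_lit 557104) (nat_lit 14) (.e (nat_lit 180252) (nat_lit 10) (.e (nat_lit 573482) (nat_lit 13) (.e (nat_lit 65571) (nat_lit 3) (.e (nat_lit 98321) (nat_lit 17) (.e (nat_lit 7936) (nat_lit 216) (.e (nat_lit 688166) (nat_lit 15) .nil)))))))) (.g (nat_lit 4) .nil .nil))) 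
(.lf (nat_lit 166245) (.g (nat_lit 2290) (.e (nat_lit 57476) (nat_lit 28) (.e (nat_lit 557104) (nat_lit 14) (.e (nat_lit 180252) (nat_lit 10) (.e (nat_lit 573488) (nat_lit 14) (.e (nat_lit 73747) (nat_lit 3) (.e (nat_lit 516119) (nat_lit 1) (.e (nat_lit 164148) (nat_lit 152) (.e (nat_lit 1186) (nat_lit 87) .nil)))))))) (.g (nat_lit 4) .nil .nil)))) (.nd (nat_lit 5) 
(.lf (nat_lit 166229) (.g (nat_lit 2194) (.e (nat_lit 57476) (nat_lit 28) (.e (nat_lit 557104) (nat_lit 14) (.e (nat_lit 180252) (nat_lit 10) (.e (nat_lit 573487) (nat_lit 14) (.e (nat_lit 81664) (nat_lit 5) .nil))))) .nil)) 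
(.lf (nat_lit 166261) (.g (nat_lit 2065) (.e (nat_lit 57476) (nat_lit 28) (.e (nat_lit 557104) (nat_lit 14) (.e (nat_lit 180252) (nat_lit 10) (.e (nat_lit 573489) (nat_lit 14) (.e (nat_lit 73755) (nat_lit 8) (.e (nat_lit 557089) (nat_lit 12) (.e (nat_lit 163996) (nat_lit 37) (.e (nat_lit 630818) (nat_lit 15) .nil)))))))) (.g (nat_lit 4) .nil .nil))))) (.nd (nat_lit 4) (.nd (nat_lit 5) 
(.lf (nat_lit 166221) (.g (nat_lit 2401) (.e (nat_lit 57476) (nat_lit 28) (.e (nat_lit 557104) (nat_lit 14) (.e (nat_lit 180252) (nat_lit 10) (.e (nat_lit 573487) (nat_lit 14) (.e (nat_lit 73747) (nat_lit 3) (.e (nat_lit 516100) (nat_lit 0) (.e (nat_lit 7936) (nat_lit 216) (.e (nat_lit 688166) (nat_lit 15) .nil)))))))) (.g (nat_lit 4) .nil .nil))) 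
(.lf (nat_lit 166253) (.g (nat_lit 2521) (.e (nat_lit 57476) (nat_lit 28) (.e (nat_lit 557104) (nat_lit 14) (.e (nat_lit 180252) (nat_lit 10) (.e (nat_lit 573488) (nat_lit 14) (.e (nat_lit 81664) (nat_lit 5) (.e (nat_lit 532490) (nat_lit 0) (.e (nat_lit 1040) (nat_lit 81) (.e (nat_lit 7147) (nat_lit 382) (.e (nat_lit 1186) (nat_lit 87) .nil))))))))) (.g (nat_lit 4) .nil .nil)))) (.nd (nat_lit 5) 
(.lf (nat_lit 166237) (.g (nat_lit 2342) (.e (nat_lit 57476) (nat_lit 28) (.e (nat_lit 557104) (nat_lit 14) (.e (nat_lit 180252) (nat_lit 10) (.e (nat_lit 573488) (nat_lit 14) (.e (nat_lit 73745) (nat_lit 3) .nil))))) .nil)) 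
(.lf (nat_lit 166269) (.g (nat_lit 466) (.e (nat_lit 57476) (nat_lit 28) (.e (nat_lit 557107) (nat_lit 15) (.e (nat_lit 188423) (nat_lit 11) .nil))) .nil)))))) (.nd (nat_lit 2) (.nd (nat_lit 3) (.nd (nat_lit 4) (.nd (nat_lit 5) 
(.lf (nat_lit 166211) (.g (nat_lit 2794) (.e (nat_lit 57476) (nat_lit 28) (.e (nat_lit 557104) (nat_lit 14) (.e (nat_lit 180252) (nat_lit 10) (.e (nat_lit 573482) (nat_lit 13) (.e (nat_lit 65570) (nat_lit 3) (.e (nat_lit 98333) (nat_lit 18) (.e (nat_lit 164161) (nat_lit 152) (.e (nat_lit 7936) (nat_lit 87) .nil)))))))) (.g (nat_lit 4) .nil .nil))) 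
(.lf (nat_lit 166243) (.g (nat_lit 2228) (.e (nat_lit 57476) (nat_lit 28) (.e (nat_lit 557104) (nat_lit 14) (.e (nat_lit 180252) (nat_lit 10) (.e (nat_lit 573488) (nat_lit 14) (.e (nat_lit 73747) (nat_lit 3) (.e (nat_lit 516119) (nat_lit 1) (.e (nat_lit 164147) (nat_lit 152) (.e (nat_lit 1172) (nat_lit 87) .nil)))))))) (.g (nat_lit 4) .nil .nil)))) (.nd (nat_lit 5) 
(.lf (nat_lit 166227) (.g (nat_lit 2689) (.e (nat_lit 57476) (nat_lit 28) (.e (nat_lit 557104) (nat_lit 14) (.e (nat_lit 180252) (nat_lit 10) (.e (nat_lit 573487) (nat_lit 14) (.e (nat_lit 73747) (nat_lit 3) (.e (nat_lit 516119) (nat_lit 1) (.e (nat_lit 164150) (nat_lit 152) (.e (nat_lit 1185) (nat_lit 87) .nil)))))))) (.g (nat_lit 4) .nil .nil))) 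
(.lf (nat_lit 166259) (.g (nat_lit 3521) (.e (nat_lit 57476) (nat_lit 28) (.e (nat_lit 557104) (nat_lit 14) (.e (nat_lit 180252) (nat_lit 10) (.e (nat_lit 573489) (nat_lit 14) (.e (nat_lit 73754) (nat_lit 8) (.e (nat_lit 557091) (nat_lit 12) (.e (nat_lit 163999) (nat_lit 38) (.e (nat_lit 639016) (nat_lit 15) .nil)))))))) (.g (nat_lit 5) .nil .nil))))) (.nd (nat_lit 4) (.nd (nat_lit 5) 
(.lf (nat_lit 166219) (.g (nat_lit 2836) (.e (nat_lit 57476) (nat_lit 28) (.e (nat_lit 557104) (nat_lit 14) (.e (nat_lit 180252) (nat_lit 10) (.e (nat_lit 573487) (nat_lit 14) (.e (nat_lit 73747) (nat_lit 3) (.e (nat_lit 516097) (nat_lit 0) (.e (nat_lit 3453) (nat_lit 216) (.e (nat_lit 688168) (nat_lit 15) .nil)))))))) (.g (nat_lit 4) .nil .nil))) 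
(.lf (nat_lit 166251) (.g (nat_lit 2201) (.e (nat_lit 57476) (nat_lit 28) (.e (nat_lit 557104) (nat_lit 14) (.e (nat_lit 180252) (nat_lit 10) (.e (nat_lit 573488) (nat_lit 14) (.e (nat_lit 81664) (nat_lit 5) .nil))))) .nil))) (.nd (nat_lit 5) 
(.lf (nat_lit 166235) (.g (nat_lit 3155) (.e (nat_lit 57476) (nat_lit 28) (.e (nat_lit 557104) (nat_lit 14) (.e (nat_lit 180252) (nat_lit 10) (.e (nat_lit 573487) (nat_lit 14) (.e (nat_lit 73754) (nat_lit 8) (.e (nat_lit 557091) (nat_lit 12) (.e (nat_lit 163999) (nat_lit 38) (.e (nat_lit 639016) (nat_lit 15) .nil)))))))) (.g (nat_lit 4) .nil .nil))) 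
(.lf (nat_lit 166267) (.g (nat_lit 3003) (.e (nat_lit 57476) (nat_lit 28) (.e (nat_lit 557105) (nat_lit 14) (.e (nat_lit 180252) (nat_lit 10) (.e (nat_lit 573489) (nat_lit 14) (.e (nat_lit 73755) (nat_lit 8) (.e (nat_lit 557090) (nat_lit 12) (.e (nat_lit 163999) (nat_lit 38) (.e (nat_lit 639016) (nat_lit 15) .nil)))))))) (.g (nat_lit 4) .nil .nil)))))) 
(.nd (nat_lit 3) (.nd (nat_lit 4) (.nd (nat_lit 5) 
(.lf (nat_lit 166215) (.g (nat_lit 3064) (.e (nat_lit 57476) (nat_lit 28) (.e (nat_lit 557104) (nat_lit 14) (.e (nat_lit 180252) (nat_lit 10) (.e (nat_lit 573482) (nat_lit 13) (.e (nat_lit 65571) (nat_lit 3) (.e (nat_lit 98325) (nat_lit 17) (.e (nat_lit 3452) (nat_lit 216) (.e (nat_lit 688168) (nat_lit 15) .nil)))))))) (.g (nat_lit 4) .nil .nil))) 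
(.lf (nat_lit 166247) (.g (nat_lit 2424) (.e (nat_lit 57476) (nat_lit 28) (.e (nat_lit 557104) (nat_lit 14) (.e (nat_lit 180252) (nat_lit 10) (.e (nat_lit 573488) (nat_lit 14) (.e (nat_lit 73747) (nat_lit 3) (.e (nat_lit 516119) (nat_lit 1) (.e (nat_lit 164161) (nat_lit 152) (.e (nat_lit 7936) (nat_lit 87) .nil)))))))) (.g (nat_lit 4) .nil .nil)))) (.nd (nat_lit 5) 
(.lf (nat_lit 166231) (.g (nat_lit 3079) (.e (nat_lit 57476) (nat_lit 28) (.e (nat_lit 557104) (nat_lit 14) (.e (nat_lit 180252) (nat_lit 10) (.e (nat_lit 573487) (nat_lit 14) (.e (nat_lit 81664) (nat_lit 5) (.e (nat_lit 532499) (nat_lit 1) (.e (nat_lit 57655) (nat_lit 152) (.e (nat_lit 1186) (nat_lit 87) .nil)))))))) (.g (nat_lit 6) .nil .nil))) 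
(.lf (nat_lit 166263) (.g (nat_lit 3687) (.e (nat_lit 57476) (nat_lit 28) (.e (nat_lit 557104) (nat_lit 14) (.e (nat_lit 180252) (nat_lit 10) (.e (nat_lit 573489) (nat_lit 14) (.e (nat_lit 73755) (nat_lit 8) (.e (nat_lit 557089) (nat_lit 12) (.e (nat_lit 164000) (nat_lit 38) (.e (nat_lit 639016) (nat_lit 15) .nil)))))))) (.g (nat_lit 6) .nil .nil))))) (.nd (nat_lit 4) (.nd (nat_lit 5) 
(.lf (nat_lit 166223) (.g (nat_lit 2647) (.e (nat_lit 57476) (nat_lit 28) (.e (nat_lit 557104) (nat_lit 14) (.e (nat_lit 180252) (nat_lit 10) (.e (nat_lit 573487) (nat_lit 14) (.e (nat_lit 73747) (nat_lit 3) (.e (nat_lit 516115) (nat_lit 1) (.e (nat_lit 164148) (nat_lit 152) (.e (nat_lit 1186) (nat_lit 87) .nil)))))))) (.g (nat_lit 4) .nil .nil))) 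
(.lf (nat_lit 166255) (.g (nat_lit 2220) (.e (nat_lit 57476) (nat_lit 28) (.e (nat_lit 557104) (nat_lit 14) (.e (nat_lit 180252) (nat_lit 10) (.e (nat_lit 573488) (nat_lit 14) (.e (nat_lit 81664) (nat_lit 5) (.e (nat_lit 532502) (nat_lit 1) (.e (nat_lit 57655) (nat_lit 152) (.e (nat_lit 1185) (nat_lit 87) .nil)))))))) (.g (nat_lit 4) .nil .nil)))) (.nd (nat_lit 5) 
(.lf (nat_lit 166239) (.g (nat_lit 2229) (.e (nat_lit 57476) (nat_lit 28) (.e (nat_lit 557104) (nat_lit 14) (.e (nat_lit 180252) (nat_lit 10) (.e (nat_lit 573488) (nat_lit 14) (.e (nat_lit 73747) (nat_lit 3) (.e (nat_lit 516100) (nat_lit 0) (.e (nat_lit 7936) (nat_lit 216) (.e (nat_lit 688166) (nat_lit 15) .nil)))))))) (.g (nat_lit 4) .nil .nil))) 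
(.lf (nat_lit 166271) (.g (nat_lit 1209) (.e (nat_lit 57476) (nat_lit 28) (.e (nat_lit 557107) (nat_lit 15) (.e (nat_lit 196352) (nat_lit 11) (.e (nat_lit 336450) (nat_lit 33) (.e (nat_lit 475193) (nat_lit 38) (.e (nat_lit 688168) (nat_lit 15) .nil)))))) (.g (nat_lit 4) .nil .nil)))))))))

noncomputable def tv2230 : DT := (.nd (nat_lit 0) (.nd (nat_lit 1) (.nd (nat_lit 2) (.nd (nat_lit 3) (.nd (nat_lit 4) (.nd (nat_lit 5) (.nd (nat_lit 6) 
(.lf (nat_lit 166272) (.g (nat_lit 465) (.e (nat_lit 57476) (nat_lit 28) (.e (nat_lit 557107) (nat_lit 15) (.e (nat_lit 196352) (nat_lit 18) .nil))) .nil)) 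
(.lf (nat_lit 166336) (.g (nat_lit 3258) (.e (nat_lit 57476) (nat_lit 28) (.e (nat_lit 557107) (nat_lit 15) (.e (nat_lit 188447) (nat_lit 22) (.e (nat_lit 196668) (nat_lit 14) (.e (nat_lit 73733) (nat_lit 0) (.e (nat_lit 5907) (nat_lit 320) (.e (nat_lit 1170) (nat_lit 87) .nil))))))) (.g (nat_lit 5) .nil .nil)))) (.nd (nat_lit 6) 
(.lf (nat_lit 166304) (.g (nat_lit 2453) (.e (nat_lit 57476) (nat_lit 28) (.e (nat_lit 557107) (nat_lit 15) (.e (nat_lit 188447) (nat_lit 22) (.e (nat_lit 196666) (nat_lit 13) (.e (nat_lit 65553) (nat_lit 0) (.e (nat_lit 1023) (nat_lit 81) (.e (nat_lit 5905) (nat_lit 320) (.e (nat_lit 1171) (nat_lit 87) .nil)))))))) (.g (nat_lit 5) .nil .nil))) 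
(.lf (nat_lit 166368) (.g (nat_lit 2043) (.e (nat_lit 57476) (nat_lit 28) (.e (nat_lit 557107) (nat_lit 15) (.e (nat_lit 188450) (nat_lit 23) (.e (nat_lit 204852) (nat_lit 26) (.e (nat_lit 336261) (nat_lit 15) .nil))))) .nil)))) (.nd (nat_lit 5) (.nd (nat_lit 6) 
(.lf (nat_lit 166288) (.g (nat_lit 1776) (.e (nat_lit 57476) (nat_lit 28) (.e (nat_lit 557107) (nat_lit 15) (.e (nat_lit 188447) (nat_lit 22) (.e (nat_lit 196628) (nat_lit 9) (.e (nat_lit 7936) (nat_lit 114) .nil))))) .nil)) 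
(.lf (nat_lit 166352) (.g (nat_lit 1089) (.e (nat_lit 57476) (nat_lit 28) (.e (nat_lit 557107) (nat_lit 15) (.e (nat_lit 188450) (nat_lit 23) (.e (nat_lit 204850) (nat_lit 26) .nil)))) .nil))) (.nd (nat_lit 6) 
(.lf (nat_lit 166320) (.g (nat_lit 2496) (.e (nat_lit 57476) (nat_lit 28) (.e (nat_lit 557107) (nat_lit 15) (.e (nat_lit 188447) (nat_lit 22) (.e (nat_lit 196666) (nat_lit 13) (.e (nat_lit 65565) (nat_lit 1) (.e (nat_lit 57873) (nat_lit 264) (.e (nat_lit 1170) (nat_lit 87) .nil))))))) (.g (nat_lit 4) .nil .nil))) 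
(.lf (nat_lit 166384) (.g (nat_lit 2258) (.e (nat_lit 57476) (nat_lit 28) (.e (nat_lit 557107) (nat_lit 15) (.e (nat_lit 188450) (nat_lit 23) (.e (nat_lit 204852) (nat_lit 26) (.e (nat_lit 336306) (nat_lit 15) .nil))))) .nil))))) (.nd (nat_lit 4) (.nd (nat_lit 5) (.nd (nat_lit 6) 
(.lf (nat_lit 166280) (.g (nat_lit 1343) (.e (nat_lit 57476) (nat_lit 28) (.e (nat_lit 557107) (nat_lit 15) (.e (nat_lit 188440) (nat_lit 20) (.e (nat_lit 3255) (nat_lit 197) .nil)))) .nil)) 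
(.lf (nat_lit 166344) (.g (nat_lit 2615) (.e (nat_lit 57476) (nat_lit 28) (.e (nat_lit 557107) (nat_lit 15) (.e (nat_lit 188447) (nat_lit 22) (.e (nat_lit 196681) (nat_lit 17) (.e (nat_lit 131086) (nat_lit 1) .nil))))) .nil))) (.nd (nat_lit 6) 
(.lf (nat_lit 166312) (.g (nat_lit 2431) (.e (nat_lit 57476) (nat_lit 28) (.e (nat_lit 557107) (nat_lit 15) (.e (nat_lit 188447) (nat_lit 22) (.e (nat_lit 196666) (nat_lit 13) (.e (nat_lit 65563) (nat_lit 1) (.e (nat_lit 57873) (nat_lit 264) (.e (nat_lit 1170) (nat_lit 87) .nil))))))) (.g (nat_lit 4) .nil .nil))) 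
(.lf (nat_lit 166376) (.g (nat_lit 2173) (.e (nat_lit 57476) (nat_lit 28) (.e (nat_lit 557107) (nat_lit 15) (.e (nat_lit 188450) (nat_lit 23) (.e (nat_lit 204852) (nat_lit 26) (.e (nat_lit 336269) (nat_lit 15) (.e (nat_lit 3629) (nat_lit 227) (.e (nat_lit 778317) (nat_lit 3) .nil))))))) (.g (nat_lit 4) .nil .nil))))) (.nd (nat_lit 5) (.nd (nat_lit 6) 
(.lf (nat_lit 166296) (.g (nat_lit 3082) (.e (nat_lit 57476) (nat_lit 28) (.e (nat_lit 557107) (nat_lit 15) (.e (nat_lit 188447) (nat_lit 22) (.e (nat_lit 196666) (nat_lit 13) (.e (nat_lit 65546) (nat_lit 0) (.e (nat_lit 2005) (nat_lit 138) (.e (nat_lit 671757) (nat_lit 3) .nil))))))) (.g (nat_lit 0) .nil .nil))) 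
(.lf (nat_lit 166360) (.g (nat_lit 2533) (.e (nat_lit 57476) (nat_lit 28) (.e (nat_lit 557107) (nat_lit 15) (.e (nat_lit 188450) (nat_lit 23) (.e (nat_lit 204852) (nat_lit 26) (.e (nat_lit 336238) (nat_lit 15) .nil))))) .nil))) (.nd (nat_lit 6) 
(.lf (nat_lit 166328) (.g (nat_lit 4121) (.e (nat_lit 57476) (nat_lit 28) (.e (nat_lit 557107) (nat_lit 15) (.e (nat_lit 188447) (nat_lit 22) (.e (nat_lit 196666) (nat_lit 13) (.e (nat_lit 65642) (nat_lit 15) (.e (nat_lit 3631) (nat_lit 227) (.e (nat_lit 778317) (nat_lit 3) .nil))))))) (.g (nat_lit 0) .nil .nil))) 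
(.lf (nat_lit 166392) (.g (nat_lit 2532) (.e (nat_lit 57476) (nat_lit 28) (.e (nat_lit 557107) (nat_lit 15) (.e (nat_lit 188450) (nat_lit 23) (.e (nat_lit 204852) (nat_lit 26) (.e (nat_lit 336354) (nat_lit 24) .nil))))) .nil)))))) (.nd (nat_lit 3) (.nd (nat_lit 4) (.nd (nat_lit 5) (.nd (nat_lit 6) 
(.lf (nat_lit 166276) (.g (nat_lit 1505) (.e (nat_lit 57476) (nat_lit 28) (.e (nat_lit 557107) (nat_lit 15) (.e (nat_lit 196352) (nat_lit 18) (.e (nat_lit 393251) (nat_lit 18) (.e (nat_lit 164307) (nat_lit 226) (.e (nat_lit 7936) (nat_lit 87) .nil)))))) (.g (nat_lit 4) .nil .nil))) 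
(.lf (nat_lit 166340) (.g (nat_lit 2446) (.e (nat_lit 57476) (nat_lit 28) (.e (nat_lit 557107) (nat_lit 15) (.e (nat_lit 188447) (nat_lit 22) (.e (nat_lit 196670) (nat_lit 14) (.e (nat_lit 73732) (nat_lit 0) .nil))))) .nil))) (.nd (nat_lit 6) 
(.lf (nat_lit 166308) (.g (nat_lit 3242) (.e (nat_lit 57476) (nat_lit 28) (.e (nat_lit 557107) (nat_lit 15) (.e (nat_lit 188447) (nat_lit 22) (.e (nat_lit 196666) (nat_lit 13) (.e (nat_lit 65559) (nat_lit 0) .nil))))) .nil)) 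
(.lf (nat_lit 166372) (.g (nat_lit 2584) (.e (nat_lit 57476) (nat_lit 28) (.e (nat_lit 557107) (nat_lit 15) (.e (nat_lit 188450) (nat_lit 23) (.e (nat_lit 204852) (nat_lit 26) (.e (nat_lit 336262) (nat_lit 15) (.e (nat_lit 3630) (nat_lit 227) (.e (nat_lit 778317) (nat_lit 3) .nil))))))) (.g (nat_lit 4) .nil .nil))))) (.nd (nat_lit 5) (.nd (nat_lit 6) 
(.lf (nat_lit 166292) (.g (nat_lit 1707) (.e (nat_lit 57476) (nat_lit 28) (.e (nat_lit 557107) (nat_lit 15) (.e (nat_lit 188447) (nat_lit 22) (.e (nat_lit 196665) (nat_lit 13) .nil)))) .nil)) 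
(.lf (nat_lit 166356) (.g (nat_lit 1509) (.e (nat_lit 57476) (nat_lit 28) (.e (nat_lit 557107) (nat_lit 15) (.e (nat_lit 188450) (nat_lit 23) (.e (nat_lit 204851) (nat_lit 26) (.e (nat_lit 336357) (nat_lit 24) .nil))))) .nil))) (.nd (nat_lit 6) 
(.lf (nat_lit 166324) (.g (nat_lit 1992) (.e (nat_lit 57476) (nat_lit 28) (.e (nat_lit 557107) (nat_lit 15) (.e (nat_lit 188447) (nat_lit 22) (.e (nat_lit 196666) (nat_lit 13) (.e (nat_lit 65574) (nat_lit 4) .nil))))) .nil)) 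
(.lf (nat_lit 166388) (.g (nat_lit 2027) (.e (nat_lit 57476) (nat_lit 28) (.e (nat_lit 557107) (nat_lit 15) (.e (nat_lit 188450) (nat_lit 23) (.e (nat_lit 204852) (nat_lit 26) (.e (nat_lit 336328) (nat_lit 19) (.e (nat_lit 220928) (nat_lit 3) .nil)))))) (.g (nat_lit 4) .nil .nil)))))) (.nd (nat_lit 4) (.nd (nat_lit 5) (.nd (nat_lit 6) 
(.lf (nat_lit 166284) (.g (nat_lit 2022) (.e (nat_lit 57476) (nat_lit 28) (.e (nat_lit 557107) (nat_lit 15) (.e (nat_lit 188447) (nat_lit 22) (.e (nat_lit 196623) (nat_lit 9) (.e (nat_lit 1634) (nat_lit 114) .nil))))) .nil)) 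
(.lf (nat_lit 166348) (.g (nat_lit 2745) (.e (nat_lit 57476) (nat_lit 28) (.e (nat_lit 557107) (nat_lit 15) (.e (nat_lit 188447) (nat_lit 22) (.e (nat_lit 196681) (nat_lit 17) (.e (nat_lit 131088) (nat_lit 1) (.e (nat_lit 57870) (nat_lit 264) (.e (nat_lit 1171) (nat_lit 87) .nil))))))) (.g (nat_lit 4) .nil .nil)))) (.nd (nat_lit 6) 
(.lf (nat_lit 166316) (.g (nat_lit 2101) (.e (nat_lit 57476) (nat_lit 28) (.e (nat_lit 557107) (nat_lit 15) (.e (nat_lit 188447) (nat_lit 22) (.e (nat_lit 196666) (nat_lit 13) (.e (nat_lit 65565) (nat_lit 1) (.e (nat_lit 57870) (nat_lit 264) (.e (nat_lit 1170) (nat_lit 87) .nil))))))) (.g (nat_lit 4) .nil .nil))) 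
(.lf (nat_lit 166380) (.g (nat_lit 1930) (.e (nat_lit 57476) (nat_lit 28) (.e (nat_lit 557107) (nat_lit 15) (.e (nat_lit 188450) (nat_lit 23) (.e (nat_lit 204852) (nat_lit 26) (.e (nat_lit 336297) (nat_lit 15) .nil))))) .nil)))) (.nd (nat_lit 5) (.nd (nat_lit 6) 
(.lf (nat_lit 166300) (.g (nat_lit 2752) (.e (nat_lit 57476) (nat_lit 28) (.e (nat_lit 557107) (nat_lit 15) (.e (nat_lit 188447) (nat_lit 22) (.e (nat_lit 196666) (nat_lit 13) (.e (nat_lit 65550) (nat_lit 0) (.e (nat_lit 1023) (nat_lit 81) (.e (nat_lit 5905) (nat_lit 320) (.e (nat_lit 1170) (nat_lit 87) .nil)))))))) (.g (nat_lit 4) .nil .nil))) 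
(.lf (nat_lit 166364) (.g (nat_lit 2249) (.e (nat_lit 57476) (nat_lit 28) (.e (nat_lit 557107) (nat_lit 15) (.e (nat_lit 188450) (nat_lit 23) (.e (nat_lit 204852) (nat_lit 26) (.e (nat_lit 336257) (nat_lit 15) (.e (nat_lit 3633) (nat_lit 227) (.e (nat_lit 778317) (nat_lit 3) .nil))))))) (.g (nat_lit 4) .nil .nil)))) (.nd (nat_lit 6) 
(.lf (nat_lit 166332) (.g (nat_lit 1598) (.e (nat_lit 57476) (nat_lit 28) (.e (nat_lit 557107) (nat_lit 15) (.e (nat_lit 188447) (nat_lit 22) (.e (nat_lit 196668) (nat_lit 14) .nil)))) .nil)) 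
(.lf (nat_lit 166396) (.g (nat_lit 1062) (.e (nat_lit 57476) (nat_lit 28) (.e (nat_lit 557107) (nat_lit 15) (.e (nat_lit 188450) (nat_lit 23) (.e (nat_lit 204853) (nat_lit 26) .nil)))) .nil))))))) (.nd (nat_lit 2) (.nd (nat_lit 3) (.nd (nat_lit 4) (.nd (nat_lit 5) (.nd (nat_lit 6) 
(.lf (nat_lit 166274) (.g (nat_lit 1568) (.e (nat_lit 57476) (nat_lit 28) (.e (nat_lit 557107) (nat_lit 15) (.e (nat_lit 196352) (nat_lit 18) (.e (nat_lit 393251) (nat_lit 18) (.e (nat_lit 164298) (nat_lit 226) (.e (nat_lit 1186) (nat_lit 87) .nil)))))) (.g (nat_lit 4) .nil .nil))) 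
(.lf (nat_lit 166338) (.g (nat_lit 2402) (.e (nat_lit 57476) (nat_lit 28) (.e (nat_lit 557107) (nat_lit 15) (.e (nat_lit 188447) (nat_lit 22) (.e (nat_lit 196668) (nat_lit 14) (.e (nat_lit 73770) (nat_lit 22) .nil))))) .nil))) (.nd (nat_lit 6) 
(.lf (nat_lit 166306) (.g (nat_lit 3007) (.e (nat_lit 57476) (nat_lit 28) (.e (nat_lit 557107) (nat_lit 15) (.e (nat_lit 188447) (nat_lit 22) (.e (nat_lit 196666) (nat_lit 13) (.e (nat_lit 65553) (nat_lit 0) (.e (nat_lit 2005) (nat_lit 138) (.e (nat_lit 671757) (nat_lit 3) .nil))))))) (.g (nat_lit 0) .nil .nil))) 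
(.lf (nat_lit 166370) (.g (nat_lit 2080) (.e (nat_lit 57476) (nat_lit 28) (.e (nat_lit 557107) (nat_lit 15) (.e (nat_lit 188450) (nat_lit 23) (.e (nat_lit 204852) (nat_lit 26) (.e (nat_lit 336261) (nat_lit 15) (.e (nat_lit 7936) (nat_lit 227) (.e (nat_lit 778317) (nat_lit 3) .nil))))))) (.g (nat_lit 4) .nil .nil))))) (.nd (nat_lit 5) (.nd (nat_lit 6) 
(.lf (nat_lit 166290) (.g (nat_lit 2028) (.e (nat_lit 57476) (nat_lit 28) (.e (nat_lit 557107) (nat_lit 15) (.e (nat_lit 188447) (nat_lit 22) (.e (nat_lit 196630) (nat_lit 9) (.e (nat_lit 1642) (nat_lit 114) .nil))))) .nil)) 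
(.lf (nat_lit 166354) (.g (nat_lit 1102) (.e (nat_lit 57476) (nat_lit 28) (.e (nat_lit 557107) (nat_lit 15) (.e (nat_lit 188450) (nat_lit 23) (.e (nat_lit 204851) (nat_lit 26) .nil)))) .nil))) (.nd (nat_lit 6) 
(.lf (nat_lit 166322) (.g (nat_lit 2029) (.e (nat_lit 57476) (nat_lit 28) (.e (nat_lit 557107) (nat_lit 15) (.e (nat_lit 188447) (nat_lit 22) (.e (nat_lit 196666) (nat_lit 13) (.e (nat_lit 65572) (nat_lit 4) .nil))))) .nil)) 
(.lf (nat_lit 166386) (.g (nat_lit 1796) (.e (nat_lit 57476) (nat_lit 28) (.e (nat_lit 557107) (nat_lit 15) (.e (nat_lit 188450) (nat_lit 23) (.e (nat_lit 204852) (nat_lit 26) (.e (nat_lit 343808) (nat_lit 15) .nil))))) .nil))))) (.nd (nat_lit 4) (.nd (nat_lit 5) (.nd (nat_lit 6) 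
(.lf (nat_lit 166282) (.g (nat_lit 405) (.e (nat_lit 57476) (nat_lit 28) (.e (nat_lit 557107) (nat_lit 15) (.e (nat_lit 188447) (nat_lit 22) .nil))) .nil)) 
(.lf (nat_lit 166346) (.g (nat_lit 2814) (.e (nat_lit 57476) (nat_lit 28) (.e (nat_lit 557107) (nat_lit 15) (.e (nat_lit 188447) (nat_lit 22) (.e (nat_lit 196681) (nat_lit 17) (.e (nat_lit 131086) (nat_lit 1) (.e (nat_lit 57870) (nat_lit 264) (.e (nat_lit 1172) (nat_lit 87) .nil))))))) (.g (nat_lit 4) .nil .nil)))) (.nd (nat_lit 6) 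
(.lf (nat_lit 166314) (.g (nat_lit 3242) (.e (nat_lit 57476) (nat_lit 28) (.e (nat_lit 557107) (nat_lit 15) (.e (nat_lit 188447) (nat_lit 22) (.e (nat_lit 196666) (nat_lit 13) (.e (nat_lit 65564) (nat_lit 1) .nil))))) .nil)) 
(.lf (nat_lit 166378) (.g (nat_lit 2503) (.e (nat_lit 57476) (nat_lit 28) (.e (nat_lit 557107) (nat_lit 15) (.e (nat_lit 188450) (nat_lit 23) (.e (nat_lit 204852) (nat_lit 26) (.e (nat_lit 336285) (nat_lit 15) .nil))))) .nil)))) (.nd (nat_lit 5) (.nd (nat_lit 6) 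
(.lf (nat_lit 166298) (.g (nat_lit 3242) (.e (nat_lit 57476) (nat_lit 28) (.e (nat_lit 557107) (nat_lit 15) (.e (nat_lit 188447) (nat_lit 22) (.e (nat_lit 196666) (nat_lit 13) (.e (nat_lit 65547) (nat_lit 0) .nil))))) .nil)) 
(.lf (nat_lit 166362) (.g (nat_lit 2402) (.e (nat_lit 57476) (nat_lit 28) (.e (nat_lit 557107) (nat_lit 15) (.e (nat_lit 188450) (nat_lit 23) (.e (nat_lit 204852) (nat_lit 26) (.e (nat_lit 336247) (nat_lit 15) .nil))))) .nil))) (.nd (nat_lit 6) 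
(.lf (nat_lit 166330) (.g (nat_lit 2389) (.e (nat_lit 57476) (nat_lit 28) (.e (nat_lit 557107) (nat_lit 15) (.e (nat_lit 188447) (nat_lit 22) (.e (nat_lit 196666) (nat_lit 13) (.e (nat_lit 73472) (nat_lit 19) (.e (nat_lit 220928) (nat_lit 3) .nil)))))) (.g (nat_lit 4) .nil .nil))) 
(.lf (nat_lit 166394) (.g (nat_lit 2104) (.e (nat_lit 57476) (nat_lit 28) (.e (nat_lit 557107) (nat_lit 15) (.e (nat_lit 188450) (nat_lit 23) (.e (nat_lit 204852) (nat_lit 26) (.e (nat_lit 336357) (nat_lit 24) .nil))))) .nil)))))) (.nd (nat_lit 3) (.nd (nat_lit 4) (.nd (nat_lit 5) (.nd (nat_lit 6) 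
(.lf (nat_lit 166278) (.g (nat_lit 1277) (.e (nat_lit 57476) (nat_lit 28) (.e (nat_lit 557107) (nat_lit 15) (.e (nat_lit 196352) (nat_lit 18) (.e (nat_lit 393253) (nat_lit 18) (.e (nat_lit 164307) (nat_lit 226) (.e (nat_lit 7936) (nat_lit 87) .nil)))))) (.g (nat_lit 4) .nil .nil))) 
(.lf (nat_lit 166342) (.g (nat_lit 1702) (.e (nat_lit 57476) (nat_lit 28) (.e (nat_lit 557107) (nat_lit 15) (.e (nat_lit 188447) (nat_lit 22) (.e (nat_lit 196679) (nat_lit 17) .nil)))) .nil))) (.nd (nat_lit 6) 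
(.lf (nat_lit 166310) (.g (nat_lit 3077) (.e (nat_lit 57476) (nat_lit 28) (.e (nat_lit 557107) (nat_lit 15) (.e (nat_lit 188447) (nat_lit 22) (.e (nat_lit 196666) (nat_lit 13) (.e (nat_lit 65563) (nat_lit 1) (.e (nat_lit 57870) (nat_lit 264) (.e (nat_lit 1171) (nat_lit 87) .nil))))))) (.g (nat_lit 0) .nil .nil))) 
(.lf (nat_lit 166374) (.g (nat_lit 2525) (.e (nat_lit 57476) (nat_lit 28) (.e (nat_lit 557107) (nat_lit 15) (.e (nat_lit 188450) (nat_lit 23) (.e (nat_lit 204852) (nat_lit 26) (.e (nat_lit 336265) (nat_lit 15) .nil))))) .nil)))) (.nd (nat_lit 5) (.nd (nat_lit 6) 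
(.lf (nat_lit 166294) (.g (nat_lit 1874) (.e (nat_lit 57476) (nat_lit 28) (.e (nat_lit 557107) (nat_lit 15) (.e (nat_lit 188447) (nat_lit 22) (.e (nat_lit 196666) (nat_lit 13) (.e (nat_lit 65546) (nat_lit 0) .nil))))) .nil)) 
(.lf (nat_lit 166358) (.g (nat_lit 1796) (.e (nat_lit 57476) (nat_lit 28) (.e (nat_lit 557107) (nat_lit 15) (.e (nat_lit 188450) (nat_lit 23) (.e (nat_lit 204852) (nat_lit 26) (.e (nat_lit 343808) (nat_lit 1) .nil))))) .nil))) (.nd (nat_lit 6) 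
(.lf (nat_lit 166326) (.g (nat_lit 2783) (.e (nat_lit 57476) (nat_lit 28) (.e (nat_lit 557107) (nat_lit 15) (.e (nat_lit 188447) (nat_lit 22) (.e (nat_lit 196666) (nat_lit 13) (.e (nat_lit 65641) (nat_lit 15) .nil))))) .nil)) 
(.lf (nat_lit 166390) (.g (nat_lit 2405) (.e (nat_lit 57476) (nat_lit 28) (.e (nat_lit 557107) (nat_lit 15) (.e (nat_lit 188450) (nat_lit 23) (.e (nat_lit 204852) (nat_lit 26) (.e (nat_lit 336332) (nat_lit 19) (.e (nat_lit 220928) (nat_lit 3) .nil)))))) (.g (nat_lit 4) .nil .nil)))))) (.nd (nat_lit 4) (.nd (nat_lit 5) (.nd (nat_lit 6) 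
(.lf (nat_lit 166286) (.g (nat_lit 1447) (.e (nat_lit 57476) (nat_lit 28) (.e (nat_lit 557107) (nat_lit 15) (.e (nat_lit 188447) (nat_lit 22) (.e (nat_lit 196628) (nat_lit 9) .nil)))) .nil)) 
(.lf (nat_lit 166350) (.g (nat_lit 3052) (.e (nat_lit 57476) (nat_lit 28) (.e (nat_lit 557107) (nat_lit 15) (.e (nat_lit 188447) (nat_lit 22) (.e (nat_lit 196681) (nat_lit 17) (.e (nat_lit 131089) (nat_lit 1) (.e (nat_lit 57870) (nat_lit 264) (.e (nat_lit 1171) (nat_lit 87) .nil))))))) (.g (nat_lit 5) .nil .nil)))) (.nd (nat_lit 6) 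
(.lf (nat_lit 166318) (.g (nat_lit 2064) (.e (nat_lit 57476) (nat_lit 28) (.e (nat_lit 557107) (nat_lit 15) (.e (nat_lit 188447) (nat_lit 22) (.e (nat_lit 196666) (nat_lit 13) (.e (nat_lit 65565) (nat_lit 1) (.e (nat_lit 57871) (nat_lit 264) (.e (nat_lit 1170) (nat_lit 87) .nil))))))) (.g (nat_lit 4) .nil .nil))) 
(.lf (nat_lit 166382) (.g (nat_lit 2533) (.e (nat_lit 57476) (nat_lit 28) (.e (nat_lit 557107) (nat_lit 15) (.e (nat_lit 188450) (nat_lit 23) (.e (nat_lit 204852) (nat_lit 26) (.e (nat_lit 336303) (nat_lit 15) .nil))))) .nil)))) (.nd (nat_lit 5) (.nd (nat_lit 6) 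
(.lf (nat_lit 166302) (.g (nat_lit 2598) (.e (nat_lit 57476) (nat_lit 28) (.e (nat_lit 557107) (nat_lit 15) (.e (nat_lit 188447) (nat_lit 22) (.e (nat_lit 196666) (nat_lit 13) (.e (nat_lit 65550) (nat_lit 0) (.e (nat_lit 1040) (nat_lit 81) (.e (nat_lit 5907) (nat_lit 320) (.e (nat_lit 1172) (nat_lit 87) .nil)))))))) (.g (nat_lit 4) .nil .nil))) 
(.lf (nat_lit 166366) (.g (nat_lit 2121) (.e (nat_lit 57476) (nat_lit 28) (.e (nat_lit 557107) (nat_lit 15) (.e (nat_lit 188450) (nat_lit 23) (.e (nat_lit 204852) (nat_lit 26) (.e (nat_lit 336259) (nat_lit 15) (.e (nat_lit 3634) (nat_lit 227) (.e (nat_lit 778317) (nat_lit 3) .nil))))))) (.g (nat_lit 4) .nil .nil)))) (.nd (nat_lit 6) 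
(.lf (nat_lit 166334) (.g (nat_lit 2539) (.e (nat_lit 57476) (nat_lit 28) (.e (nat_lit 557107) (nat_lit 15) (.e (nat_lit 188447) (nat_lit 22) (.e (nat_lit 196668) (nat_lit 14) (.e (nat_lit 73733) (nat_lit 0) (.e (nat_lit 5905) (nat_lit 320) (.e (nat_lit 1170) (nat_lit 87) .nil))))))) (.g (nat_lit 4) .nil .nil))) 
(.lf (nat_lit 166398) (.g (nat_lit 2340) (.e (nat_lit 57476) (nat_lit 28) (.e (nat_lit 557107) (nat_lit 15) (.e (nat_lit 188450) (nat_lit 23) (.e (nat_lit 204854) (nat_lit 26) (.e (nat_lit 336306) (nat_lit 15) .nil))))) .nil)))))))) (.nd (nat_lit 1) (.nd (nat_lit 2) (.nd (nat_lit 3) (.nd (nat_lit 4) (.nd (nat_lit 5) (.nd (nat_lit 6) 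
(.lf (nat_lit 166273) (.g (nat_lit 1322) (.e (nat_lit 57476) (nat_lit 28) (.e (nat_lit 557107) (nat_lit 15) (.e (nat_lit 196352) (nat_lit 18) (.e (nat_lit 393251) (nat_lit 18) (.e (nat_lit 164298) (nat_lit 226) (.e (nat_lit 1185) (nat_lit 87) .nil)))))) (.g (nat_lit 4) .nil .nil))) 
(.lf (nat_lit 166337) (.g (nat_lit 2342) (.e (nat_lit 57476) (nat_lit 28) (.e (nat_lit 557107) (nat_lit 15) (.e (nat_lit 188447) (nat_lit 22) (.e (nat_lit 196668) (nat_lit 14) (.e (nat_lit 73737) (nat_lit 0) (.e (nat_lit 5818) (nat_lit 320) (.e (nat_lit 1175) (nat_lit 87) .nil))))))) (.g (nat_lit 4) .nil .nil)))) (.nd (nat_lit 6) 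
(.lf (nat_lit 166305) (.g (nat_lit 2231) (.e (nat_lit 57476) (nat_lit 28) (.e (nat_lit 557107) (nat_lit 15) (.e (nat_lit 188447) (nat_lit 22) (.e (nat_lit 196666) (nat_lit 13) (.e (nat_lit 65553) (nat_lit 0) (.e (nat_lit 1023) (nat_lit 81) (.e (nat_lit 5906) (nat_lit 320) (.e (nat_lit 1172) (nat_lit 87) .nil)))))))) (.g (nat_lit 4) .nil .nil))) 
(.lf (nat_lit 166369) (.g (nat_lit 2171) (.e (nat_lit 57476) (nat_lit 28) (.e (nat_lit 557107) (nat_lit 15) (.e (nat_lit 188450) (nat_lit 23) (.e (nat_lit 204852) (nat_lit 26) (.e (nat_lit 336261) (nat_lit 15) (.e (nat_lit 3635) (nat_lit 227) (.e (nat_lit 778317) (nat_lit 3) .nil))))))) (.g (nat_lit 4) .nil .nil))))) (.nd (nat_lit 5) (.nd (nat_lit 6) 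
(.lf (nat_lit 166289) (.g (nat_lit 1905) (.e (nat_lit 57476) (nat_lit 28) (.e (nat_lit 557107) (nat_lit 15) (.e (nat_lit 188447) (nat_lit 22) (.e (nat_lit 196630) (nat_lit 9) (.e (nat_lit 1626) (nat_lit 114) .nil))))) .nil)) 
(.lf (nat_lit 166353) (.g (nat_lit 2543) (.e (nat_lit 57476) (nat_lit 28) (.e (nat_lit 557107) (nat_lit 15) (.e (nat_lit 188450) (nat_lit 23) (.e (nat_lit 204850) (nat_lit 26) (.e (nat_lit 335997) (nat_lit 1) (.e (nat_lit 57870) (nat_lit 264) (.e (nat_lit 1171) (nat_lit 87) .nil))))))) (.g (nat_lit 0) .nil .nil)))) (.nd (nat_lit 6) 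
(.lf (nat_lit 166321) (.g (nat_lit 2098) (.e (nat_lit 57476) (nat_lit 28) (.e (nat_lit 557107) (nat_lit 15) (.e (nat_lit 188447) (nat_lit 22) (.e (nat_lit 196666) (nat_lit 13) (.e (nat_lit 65565) (nat_lit 1) (.e (nat_lit 57873) (nat_lit 264) (.e (nat_lit 1171) (nat_lit 87) .nil))))))) (.g (nat_lit 4) .nil .nil))) 
(.lf (nat_lit 166385) (.g (nat_lit 2533) (.e (nat_lit 57476) (nat_lit 28) (.e (nat_lit 557107) (nat_lit 15) (.e (nat_lit 188450) (nat_lit 23) (.e (nat_lit 204852) (nat_lit 26) (.e (nat_lit 336308) (nat_lit 15) .nil))))) .nil))))) (.nd (nat_lit 4) (.nd (nat_lit 5) (.nd (nat_lit 6) 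
(.lf (nat_lit 166281) (.g (nat_lit 1717) (.e (nat_lit 57476) (nat_lit 28) (.e (nat_lit 557107) (nat_lit 15) (.e (nat_lit 188440) (nat_lit 20) (.e (nat_lit 3255) (nat_lit 197) (.e (nat_lit 532532) (nat_lit 9) .nil))))) .nil)) 
(.lf (nat_lit 166345) (.g (nat_lit 2695) (.e (nat_lit 57476) (nat_lit 28) (.e (nat_lit 557107) (nat_lit 15) (.e (nat_lit 188447) (nat_lit 22) (.e (nat_lit 196681) (nat_lit 17) (.e (nat_lit 131086) (nat_lit 1) (.e (nat_lit 57870) (nat_lit 264) (.e (nat_lit 1171) (nat_lit 87) .nil))))))) (.g (nat_lit 4) .nil .nil)))) (.nd (nat_lit 6) 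
(.lf (nat_lit 166313) (.g (nat_lit 2100) (.e (nat_lit 57476) (nat_lit 28) (.e (nat_lit 557107) (nat_lit 15) (.e (nat_lit 188447) (nat_lit 22) (.e (nat_lit 196666) (nat_lit 13) (.e (nat_lit 65563) (nat_lit 1) (.e (nat_lit 57873) (nat_lit 264) (.e (nat_lit 1171) (nat_lit 87) .nil))))))) (.g (nat_lit 4) .nil .nil))) 
(.lf (nat_lit 166377) (.g (nat_lit 2354) (.e (nat_lit 57476) (nat_lit 28) (.e (nat_lit 557107) (nat_lit 15) (.e (nat_lit 188450) (nat_lit 23) (.e (nat_lit 204852) (nat_lit 26) (.e (nat_lit 336284) (nat_lit 15) .nil))))) .nil)))) (.nd (nat_lit 5) (.nd (nat_lit 6) 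
(.lf (nat_lit 166297) (.g (nat_lit 3135) (.e (nat_lit 57476) (nat_lit 28) (.e (nat_lit 557107) (nat_lit 15) (.e (nat_lit 188447) (nat_lit 22) (.e (nat_lit 196666) (nat_lit 13) (.e (nat_lit 65546) (nat_lit 0) (.e (nat_lit 2006) (nat_lit 138) (.e (nat_lit 671757) (nat_lit 3) .nil))))))) (.g (nat_lit 0) .nil .nil))) 
(.lf (nat_lit 166361) (.g (nat_lit 2533) (.e (nat_lit 57476) (nat_lit 28) (.e (nat_lit 557107) (nat_lit 15) (.e (nat_lit 188450) (nat_lit 23) (.e (nat_lit 204852) (nat_lit 26) (.e (nat_lit 336243) (nat_lit 15) .nil))))) .nil))) (.nd (nat_lit 6) 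
(.lf (nat_lit 166329) (.g (nat_lit 4426) (.e (nat_lit 57476) (nat_lit 28) (.e (nat_lit 557107) (nat_lit 15) (.e (nat_lit 188447) (nat_lit 22) (.e (nat_lit 196666) (nat_lit 13) (.e (nat_lit 65642) (nat_lit 15) (.e (nat_lit 3632) (nat_lit 227) (.e (nat_lit 778317) (nat_lit 3) .nil))))))) (.g (nat_lit 0) .nil .nil))) 
(.lf (nat_lit 166393) (.g (nat_lit 2651) (.e (nat_lit 57476) (nat_lit 28) (.e (nat_lit 557107) (nat_lit 15) (.e (nat_lit 188450) (nat_lit 23) (.e (nat_lit 204852) (nat_lit 26) (.e (nat_lit 336355) (nat_lit 24) (.e (nat_lit 270080) (nat_lit 3) .nil)))))) (.g (nat_lit 5) .nil .nil))))))) (.nd (nat_lit 3) (.nd (nat_lit 4) (.nd (nat_lit 5) (.nd (nat_lit 6) 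
(.lf (nat_lit 166277) (.g (nat_lit 1364) (.e (nat_lit 57476) (nat_lit 28) (.e (nat_lit 557107) (nat_lit 15) (.e (nat_lit 196352) (nat_lit 18) (.e (nat_lit 393253) (nat_lit 18) (.e (nat_lit 164305) (nat_lit 226) (.e (nat_lit 7936) (nat_lit 87) .nil)))))) (.g (nat_lit 4) .nil .nil))) 
(.lf (nat_lit 166341) (.g (nat_lit 2473) (.e (nat_lit 57476) (nat_lit 28) (.e (nat_lit 557107) (nat_lit 15) (.e (nat_lit 188447) (nat_lit 22) (.e (nat_lit 196670) (nat_lit 14) (.e (nat_lit 73732) (nat_lit 0) (.e (nat_lit 5905) (nat_lit 320) (.e (nat_lit 1171) (nat_lit 87) .nil))))))) (.g (nat_lit 4) .nil .nil)))) (.nd (nat_lit 6) 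
(.lf (nat_lit 166309) (.g (nat_lit 2082) (.e (nat_lit 57476) (nat_lit 28) (.e (nat_lit 557107) (nat_lit 15) (.e (nat_lit 188447) (nat_lit 22) (.e (nat_lit 196666) (nat_lit 13) (.e (nat_lit 65563) (nat_lit 1) .nil))))) .nil)) 
(.lf (nat_lit 166373) (.g (nat_lit 2528) (.e (nat_lit 57476) (nat_lit 28) (.e (nat_lit 557107) (nat_lit 15) (.e (nat_lit 188450) (nat_lit 23) (.e (nat_lit 204852) (nat_lit 26) (.e (nat_lit 336263) (nat_lit 15) .nil))))) .nil)))) (.nd (nat_lit 5) (.nd (nat_lit 6) 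
(.lf (nat_lit 166293) (.g (nat_lit 1147) (.e (nat_lit 57476) (nat_lit 28) (.e (nat_lit 557107) (nat_lit 15) (.e (nat_lit 188447) (nat_lit 22) (.e (nat_lit 196666) (nat_lit 13) .nil)))) .nil)) 
(.lf (nat_lit 166357) (.g (nat_lit 1100) (.e (nat_lit 57476) (nat_lit 28) (.e (nat_lit 557107) (nat_lit 15) (.e (nat_lit 188450) (nat_lit 23) (.e (nat_lit 204852) (nat_lit 26) .nil)))) .nil))) (.nd (nat_lit 6) 
(.lf (nat_lit 166325) (.g (nat_lit 2381) (.e (nat_lit 57476) (nat_lit 28) (.e (nat_lit 557107) (nat_lit 15) (.e (nat_lit 188447) (nat_lit 22) (.e (nat_lit 196666) (nat_lit 13) (.e (nat_lit 65640) (nat_lit 15) .nil))))) .nil)) 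
(.lf (nat_lit 166389) (.g (nat_lit 2056) (.e (nat_lit 57476) (nat_lit 28) (.e (nat_lit 557107) (nat_lit 15) (.e (nat_lit 188450) (nat_lit 23) (.e (nat_lit 204852) (nat_lit 26) (.e (nat_lit 336330) (nat_lit 19) (.e (nat_lit 220928) (nat_lit 3) .nil)))))) (.g (nat_lit 4) .nil .nil)))))) (.nd (nat_lit 4) (.nd (nat_lit 5) (.nd (nat_lit 6) 
(.lf (nat_lit 166285) (.g (nat_lit 2543) (.e (nat_lit 57476) (nat_lit 28) (.e (nat_lit 557107) (nat_lit 15) (.e (nat_lit 188447) (nat_lit 22) (.e (nat_lit 196624) (nat_lit 9) (.e (nat_lit 1645) (nat_lit 114) .nil))))) .nil)) 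
(.lf (nat_lit 166349) (.g (nat_lit 3225) (.e (nat_lit 57476) (nat_lit 28) (.e (nat_lit 557107) (nat_lit 15) (.e (nat_lit 188447) (nat_lit 22) (.e (nat_lit 196681) (nat_lit 17) (.e (nat_lit 131088) (nat_lit 1) (.e (nat_lit 57872) (nat_lit 264) (.e (nat_lit 1172) (nat_lit 87) .nil))))))) (.g (nat_lit 6) .nil .nil)))) (.nd (nat_lit 6) 
(.lf (nat_lit 166317) (.g (nat_lit 3110) (.e (nat_lit 57476) (nat_lit 28) (.e (nat_lit 557107) (nat_lit 15) (.e (nat_lit 188447) (nat_lit 22) (.e (nat_lit 196666) (nat_lit 13) (.e (nat_lit 65565) (nat_lit 1) (.e (nat_lit 57870) (nat_lit 264) (.e (nat_lit 1171) (nat_lit 87) .nil))))))) (.g (nat_lit 0) .nil .nil))) 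
(.lf (nat_lit 166381) (.g (nat_lit 2533) (.e (nat_lit 57476) (nat_lit 28) (.e (nat_lit 557107) (nat_lit 15) (.e (nat_lit 188450) (nat_lit 23) (.e (nat_lit 204852) (nat_lit 26) (.e (nat_lit 336301) (nat_lit 15) .nil))))) .nil)))) (.nd (nat_lit 5) (.nd (nat_lit 6) 
(.lf (nat_lit 166301) (.g (nat_lit 2518) (.e (nat_lit 57476) (nat_lit 28) (.e (nat_lit 557107) (nat_lit 15) (.e (nat_lit 188447) (nat_lit 22) (.e (nat_lit 196666) (nat_lit 13) (.e (nat_lit 65550) (nat_lit 0) (.e (nat_lit 1023) (nat_lit 81) (.e (nat_lit 5906) (nat_lit 320) (.e (nat_lit 1170) (nat_lit 87) .nil)))))))) (.g (nat_lit 4) .nil .nil))) 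
(.lf (nat_lit 166365) (.g (nat_lit 2034) (.e (nat_lit 57476) (nat_lit 28) (.e (nat_lit 557107) (nat_lit 15) (.e (nat_lit 188450) (nat_lit 23) (.e (nat_lit 204852) (nat_lit 26) (.e (nat_lit 336259) (nat_lit 15) .nil))))) .nil))) (.nd (nat_lit 6) 
(.lf (nat_lit 166333) (.g (nat_lit 2455) (.e (nat_lit 57476) (nat_lit 28) (.e (nat_lit 557107) (nat_lit 15) (.e (nat_lit 188447) (nat_lit 22) (.e (nat_lit 196668) (nat_lit 14) (.e (nat_lit 73733) (nat_lit 0) .nil))))) .nil)) 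
(.lf (nat_lit 166397) (.g (nat_lit 1638) (.e (nat_lit 57476) (nat_lit 28) (.e (nat_lit 557107) (nat_lit 15) (.e (nat_lit 188450) (nat_lit 23) (.e (nat_lit 204853) (nat_lit 26) (.e (nat_lit 336332) (nat_lit 19) (.e (nat_lit 220928) (nat_lit 3) .nil)))))) (.g (nat_lit 4) .nil .nil)))))))) (.nd (nat_lit 2) (.nd (nat_lit 3) (.nd (nat_lit 4) (.nd (nat_lit 5) (.nd (nat_lit 6) 
(.lf (nat_lit 166275) (.g (nat_lit 1252) (.e (nat_lit 57476) (nat_lit 28) (.e (nat_lit 557107) (nat_lit 15) (.e (nat_lit 196352) (nat_lit 18) (.e (nat_lit 393251) (nat_lit 18) (.e (nat_lit 164300) (nat_lit 226) .nil))))) .nil)) 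
(.lf (nat_lit 166339) (.g (nat_lit 1691) (.e (nat_lit 57476) (nat_lit 28) (.e (nat_lit 557107) (nat_lit 15) (.e (nat_lit 188447) (nat_lit 22) (.e (nat_lit 196670) (nat_lit 14) .nil)))) .nil))) (.nd (nat_lit 6) 
(.lf (nat_lit 166307) (.g (nat_lit 3096) (.e (nat_lit 57476) (nat_lit 28) (.e (nat_lit 557107) (nat_lit 15) (.e (nat_lit 188447) (nat_lit 22) (.e (nat_lit 196666) (nat_lit 13) (.e (nat_lit 65553) (nat_lit 0) (.e (nat_lit 2006) (nat_lit 138) (.e (nat_lit 671757) (nat_lit 3) .nil))))))) (.g (nat_lit 0) .nil .nil))) 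
(.lf (nat_lit 166371) (.g (nat_lit 2519) (.e (nat_lit 57476) (nat_lit 28) (.e (nat_lit 557107) (nat_lit 15) (.e (nat_lit 188450) (nat_lit 23) (.e (nat_lit 204852) (nat_lit 26) (.e (nat_lit 336262) (nat_lit 15) .nil))))) .nil)))) (.nd (nat_lit 5) (.nd (nat_lit 6) 
(.lf (nat_lit 166291) (.g (nat_lit 1709) (.e (nat_lit 57476) (nat_lit 28) (.e (nat_lit 557107) (nat_lit 15) (.e (nat_lit 188447) (nat_lit 22) (.e (nat_lit 196663) (nat_lit 13) .nil)))) .nil)) 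
(.lf (nat_lit 166355) (.g (nat_lit 1735) (.e (nat_lit 57476) (nat_lit 28) (.e (nat_lit 557107) (nat_lit 15) (.e (nat_lit 188450) (nat_lit 23) (.e (nat_lit 204851) (nat_lit 26) (.e (nat_lit 336332) (nat_lit 19) (.e (nat_lit 220928) (nat_lit 3) .nil)))))) (.g (nat_lit 4) .nil .nil)))) (.nd (nat_lit 6) 
(.lf (nat_lit 166323) (.g (nat_lit 2945) (.e (nat_lit 57476) (nat_lit 28) (.e (nat_lit 557107) (nat_lit 15) (.e (nat_lit 188447) (nat_lit 22) (.e (nat_lit 196666) (nat_lit 13) (.e (nat_lit 65573) (nat_lit 4) (.e (nat_lit 123182) (nat_lit 264) (.e (nat_lit 1175) (nat_lit 87) .nil))))))) (.g (nat_lit 4) .nil .nil))) 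
(.lf (nat_lit 166387) (.g (nat_lit 2056) (.e (nat_lit 57476) (nat_lit 28) (.e (nat_lit 557107) (nat_lit 15) (.e (nat_lit 188450) (nat_lit 23) (.e (nat_lit 204852) (nat_lit 26) (.e (nat_lit 336327) (nat_lit 19) .nil))))) .nil))))) (.nd (nat_lit 4) (.nd (nat_lit 5) (.nd (nat_lit 6) 
(.lf (nat_lit 166283) (.g (nat_lit 1702) (.e (nat_lit 57476) (nat_lit 28) (.e (nat_lit 557107) (nat_lit 15) (.e (nat_lit 188447) (nat_lit 22) (.e (nat_lit 196622) (nat_lit 9) .nil)))) .nil)) 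
(.lf (nat_lit 166347) (.g (nat_lit 2447) (.e (nat_lit 57476) (nat_lit 28) (.e (nat_lit 557107) (nat_lit 15) (.e (nat_lit 188447) (nat_lit 22) (.e (nat_lit 196681) (nat_lit 17) (.e (nat_lit 131088) (nat_lit 1) .nil))))) .nil))) (.nd (nat_lit 6) 
(.lf (nat_lit 166315) (.g (nat_lit 2027) (.e (nat_lit 57476) (nat_lit 28) (.e (nat_lit 557107) (nat_lit 15) (.e (nat_lit 188447) (nat_lit 22) (.e (nat_lit 196666) (nat_lit 13) (.e (nat_lit 65565) (nat_lit 1) .nil))))) .nil)) 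
(.lf (nat_lit 166379) (.g (nat_lit 2109) (.e (nat_lit 57476) (nat_lit 28) (.e (nat_lit 557107) (nat_lit 15) (.e (nat_lit 188450) (nat_lit 23) (.e (nat_lit 204852) (nat_lit 26) (.e (nat_lit 336296) (nat_lit 15) .nil))))) .nil)))) (.nd (nat_lit 5) (.nd (nat_lit 6) 
(.lf (nat_lit 166299) (.g (nat_lit 2393) (.e (nat_lit 57476) (nat_lit 28) (.e (nat_lit 557107) (nat_lit 15) (.e (nat_lit 188447) (nat_lit 22) (.e (nat_lit 196666) (nat_lit 13) (.e (nat_lit 65550) (nat_lit 0) .nil))))) .nil)) 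
(.lf (nat_lit 166363) (.g (nat_lit 2202) (.e (nat_lit 57476) (nat_lit 28) (.e (nat_lit 557107) (nat_lit 15) (.e (nat_lit 188450) (nat_lit 23) (.e (nat_lit 204852) (nat_lit 26) (.e (nat_lit 336257) (nat_lit 15) .nil))))) .nil))) (.nd (nat_lit 6) 
(.lf (nat_lit 166331) (.g (nat_lit 2522) (.e (nat_lit 57476) (nat_lit 28) (.e (nat_lit 557107) (nat_lit 15) (.e (nat_lit 188447) (nat_lit 22) (.e (nat_lit 196666) (nat_lit 13) (.e (nat_lit 73472) (nat_lit 24) (.e (nat_lit 270080) (nat_lit 3) .nil)))))) (.g (nat_lit 4) .nil .nil))) 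
(.lf (nat_lit 166395) (.g (nat_lit 1958) (.e (nat_lit 57476) (nat_lit 28) (.e (nat_lit 557107) (nat_lit 15) (.e (nat_lit 188450) (nat_lit 23) (.e (nat_lit 204852) (nat_lit 26) (.e (nat_lit 343808) (nat_lit 24) (.e (nat_lit 270080) (nat_lit 3) .nil)))))) (.g (nat_lit 4) .nil .nil))))))) (.nd (nat_lit 3) (.nd (nat_lit 4) (.nd (nat_lit 5) (.nd (nat_lit 6) 
(.lf (nat_lit 166279) (.g (nat_lit 1331) (.e (nat_lit 57476) (nat_lit 28) (.e (nat_lit 557107) (nat_lit 15) (.e (nat_lit 196352) (nat_lit 18) (.e (nat_lit 393254) (nat_lit 18) (.e (nat_lit 164307) (nat_lit 226) (.e (nat_lit 7936) (nat_lit 87) .nil)))))) (.g (nat_lit 5) .nil .nil))) 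
(.lf (nat_lit 166343) (.g (nat_lit 1673) (.e (nat_lit 57476) (nat_lit 28) (.e (nat_lit 557107) (nat_lit 15) (.e (nat_lit 188447) (nat_lit 22) (.e (nat_lit 196681) (nat_lit 17) .nil)))) .nil))) (.nd (nat_lit 6) 
(.lf (nat_lit 166311) (.g (nat_lit 2175) (.e (nat_lit 57476) (nat_lit 28) (.e (nat_lit 557107) (nat_lit 15) (.e (nat_lit 188447) (nat_lit 22) (.e (nat_lit 196666) (nat_lit 13) (.e (nat_lit 65563) (nat_lit 1) (.e (nat_lit 57872) (nat_lit 264) (.e (nat_lit 1170) (nat_lit 87) .nil))))))) (.g (nat_lit 4) .nil .nil))) 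
(.lf (nat_lit 166375) (.g (nat_lit 2118) (.e (nat_lit 57476) (nat_lit 28) (.e (nat_lit 557107) (nat_lit 15) (.e (nat_lit 188450) (nat_lit 23) (.e (nat_lit 204852) (nat_lit 26) (.e (nat_lit 336269) (nat_lit 15) .nil))))) .nil)))) (.nd (nat_lit 5) (.nd (nat_lit 6) 
(.lf (nat_lit 166295) (.g (nat_lit 2091) (.e (nat_lit 57476) (nat_lit 28) (.e (nat_lit 557107) (nat_lit 15) (.e (nat_lit 188447) (nat_lit 22) (.e (nat_lit 196666) (nat_lit 13) (.e (nat_lit 65546) (nat_lit 0) (.e (nat_lit 1023) (nat_lit 81) (.e (nat_lit 5906) (nat_lit 320) (.e (nat_lit 1170) (nat_lit 87) .nil)))))))) (.g (nat_lit 4) .nil .nil))) 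
(.lf (nat_lit 166359) (.g (nat_lit 1877) (.e (nat_lit 57476) (nat_lit 28) (.e (nat_lit 557107) (nat_lit 15) (.e (nat_lit 188450) (nat_lit 23) (.e (nat_lit 204852) (nat_lit 26) (.e (nat_lit 343808) (nat_lit 1) (.e (nat_lit 57871) (nat_lit 264) (.e (nat_lit 1171) (nat_lit 87) .nil))))))) (.g (nat_lit 4) .nil .nil)))) (.nd (nat_lit 6) 
(.lf (nat_lit 166327) (.g (nat_lit 2875) (.e (nat_lit 57476) (nat_lit 28) (.e (nat_lit 557107) (nat_lit 15) (.e (nat_lit 188447) (nat_lit 22) (.e (nat_lit 196666) (nat_lit 13) (.e (nat_lit 65641) (nat_lit 15) (.e (nat_lit 3630) (nat_lit 227) (.e (nat_lit 778317) (nat_lit 3) .nil))))))) (.g (nat_lit 4) .nil .nil))) 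
(.lf (nat_lit 166391) (.g (nat_lit 1837) (.e (nat_lit 57476) (nat_lit 28) (.e (nat_lit 557107) (nat_lit 15) (.e (nat_lit 188450) (nat_lit 23) (.e (nat_lit 204852) (nat_lit 26) (.e (nat_lit 343808) (nat_lit 19) (.e (nat_lit 220928) (nat_lit 3) .nil)))))) (.g (nat_lit 4) .nil .nil)))))) (.nd (nat_lit 4) (.nd (nat_lit 5) (.nd (nat_lit 6) 
(.lf (nat_lit 166287) (.g (nat_lit 1744) (.e (nat_lit 57476) (nat_lit 28) (.e (nat_lit 557107) (nat_lit 15) (.e (nat_lit 188447) (nat_lit 22) (.e (nat_lit 196628) (nat_lit 9) (.e (nat_lit 1472) (nat_lit 108) .nil))))) .nil)) 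
(.lf (nat_lit 166351) (.g (nat_lit 429) (.e (nat_lit 57476) (nat_lit 28) (.e (nat_lit 557107) (nat_lit 15) (.e (nat_lit 188450) (nat_lit 23) .nil))) .nil))) (.nd (nat_lit 6) 
(.lf (nat_lit 166319) (.g (nat_lit 2208) (.e (nat_lit 57476) (nat_lit 28) (.e (nat_lit 557107) (nat_lit 15) (.e (nat_lit 188447) (nat_lit 22) (.e (nat_lit 196666) (nat_lit 13) (.e (nat_lit 65565) (nat_lit 1) (.e (nat_lit 57872) (nat_lit 264) (.e (nat_lit 1170) (nat_lit 87) .nil))))))) (.g (nat_lit 4) .nil .nil))) 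
(.lf (nat_lit 166383) (.g (nat_lit 2533) (.e (nat_lit 57476) (nat_lit 28) (.e (nat_lit 557107) (nat_lit 15) (.e (nat_lit 188450) (nat_lit 23) (.e (nat_lit 204852) (nat_lit 26) (.e (nat_lit 336304) (nat_lit 15) .nil))))) .nil)))) (.nd (nat_lit 5) (.nd (nat_lit 6) 
(.lf (nat_lit 166303) (.g (nat_lit 1969) (.e (nat_lit 57476) (nat_lit 28) (.e (nat_lit 557107) (nat_lit 15) (.e (nat_lit 188447) (nat_lit 22) (.e (nat_lit 196666) (nat_lit 13) (.e (nat_lit 65553) (nat_lit 0) .nil))))) .nil)) 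
(.lf (nat_lit 166367) (.g (nat_lit 2026) (.e (nat_lit 57476) (nat_lit 28) (.e (nat_lit 557107) (nat_lit 15) (.e (nat_lit 188450) (nat_lit 23) (.e (nat_lit 204852) (nat_lit 26) (.e (nat_lit 336260) (nat_lit 15) .nil))))) .nil))) (.nd (nat_lit 6) 
(.lf (nat_lit 166335) (.g (nat_lit 2996) (.e (nat_lit 57476) (nat_lit 28) (.e (nat_lit 557107) (nat_lit 15) (.e (nat_lit 188447) (nat_lit 22) (.e (nat_lit 196668) (nat_lit 14) (.e (nat_lit 73733) (nat_lit 0) (.e (nat_lit 5906) (nat_lit 320) (.e (nat_lit 1172) (nat_lit 87) .nil))))))) (.g (nat_lit 5) .nil .nil))) 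
(.lf (nat_lit 166399) (.g (nat_lit 2225) (.e (nat_lit 57476) (nat_lit 28) (.e (nat_lit 557107) (nat_lit 15) (.e (nat_lit 188450) (nat_lit 23) (.e (nat_lit 204854) (nat_lit 26) (.e (nat_lit 336332) (nat_lit 19) (.e (nat_lit 220928) (nat_lit 3) .nil)))))) (.g (nat_lit 4) .nil .nil))))))))))


end

end Pool.Agent.Lib.MP_5854e1_co.Cz
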