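import Pool.Agent.Lib.MP_5854e1_co.DtD

/-!
# Windows and cells of the rings
-/

set_option autoImplicit false
set_option maxRecDepth 100000
set_option deprecated.oldSectionVars true

namespace Pool.Agent.Lib.MP_5854e1_co.Cz

open Pool.Agent.Lib.MP_5854e1_co

noncomputable section

noncomputable def tv2399 : DT := (.nd (nat_lit 0) (.nd (nat_lit 1) (.nd (nat_lit 2) (.nd (nat_lit 3) (.nd (nat_lit 4) (.nd (nat_lit 5) (.nd (nat_lit 6) 
(.lf (nat_lit 178304) (.g (nat_lit 631) (.e (nat_lit 57683) (nat_lit 155) (.e (nat_lit 122916) (nat_lit 14) (.e (nat_lit 352278) (nat_lit 11) .nil))) .nil)) 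
(.lf (nat_lit 178368) (.g (nat_lit 278) (.e (nat_lit 57683) (nat_lit 155) (.e (nat_lit 122917) (nat_lit 15) (.e (nat_lit 368384) (nat_lit 24) .nil))) .nil))) (.nd (nat_lit 6) 
(.lf (nat_lit 178336) (.g (nat_lit 1262) (.e (nat_lit 57683) (nat_lit 155) (.e (nat_lit 122916) (nat_lit 14) (.e (nat_lit 352324) (nat_lit 26) (.e (nat_lit 147463) (nat_lit 9) .nil)))) .nil)) 
(.lf (nat_lit 178400) (.g (nat_lit 1241) (.e (nat_lit 57684) (nat_lit 155) (.e (nat_lit 122914) (nat_lit 14) (.e (nat_lit 352274) (nat_lit 11) (.e (nat_lit 426172) (nat_lit 7) (.e (nat_lit 409623) (nat_lit 10) .nil))))) .nil)))) (.nd (nat_lit 5) (.nd (nat_lit 6) 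
(.lf (nat_lit 178320) (.g (nat_lit 1888) (.e (nat_lit 57683) (nat_lit 155) (.e (nat_lit 122916) (nat_lit 14) (.e (nat_lit 352309) (nat_lit 21) (.e (nat_lit 57651) (nat_lit 152) (.e (nat_lit 1217) (nat_lit 90) .nil))))) .nil)) 
(.lf (nat_lit 178384) (.g (nat_lit 2384) (.e (nat_lit 57683) (nat_lit 155) (.e (nat_lit 122919) (nat_lit 15) (.e (nat_lit 360492) (nat_lit 22) (.e (nat_lit 778466) (nat_lit 11) (.e (nat_lit 24636) (nat_lit 9) (.e (nat_lit 335998) (nat_lit 1) .nil)))))) (.g (nat_lit 0) .nil .nil)))) (.nd (nat_lit 6) 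
(.lf (nat_lit 178352) (.g (nat_lit 2406) (.e (nat_lit 57683) (nat_lit 155) (.e (nat_lit 122917) (nat_lit 15) (.e (nat_lit 360451) (nat_lit 0) (.e (nat_lit 7124) (nat_lit 382) (.e (nat_lit 1222) (nat_lit 90) (.e (nat_lit 81948) (nat_lit 21) .nil)))))) (.g (nat_lit 4) .nil .nil))) 
(.lf (nat_lit 178416) (.g (nat_lit 1931) (.e (nat_lit 57684) (nat_lit 155) (.e (nat_lit 122914) (nat_lit 14) (.e (nat_lit 352324) (nat_lit 26) (.e (nat_lit 147496) (nat_lit 11) (.e (nat_lit 24634) (nat_lit 9) .nil))))) .nil))))) (.nd (nat_lit 4) (.nd (nat_lit 5) (.nd (nat_lit 6) 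
(.lf (nat_lit 178312) (.g (nat_lit 1245) (.e (nat_lit 57683) (nat_lit 155) (.e (nat_lit 122916) (nat_lit 14) (.e (nat_lit 352296) (nat_lit 20) (.e (nat_lit 2281) (nat_lit 150) (.e (nat_lit 770074) (nat_lit 10) .nil))))) .nil)) 
(.lf (nat_lit 178376) (.g (nat_lit 2504) (.e (nat_lit 57683) (nat_lit 155) (.e (nat_lit 122919) (nat_lit 15) (.e (nat_lit 360491) (nat_lit 22) (.e (nat_lit 778362) (nat_lit 9) (.e (nat_lit 334) (nat_lit 26) (.e (nat_lit 376857) (nat_lit 21) .nil)))))) (.g (nat_lit 0) .nil .nil)))) (.nd (nat_lit 6) 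
(.lf (nat_lit 178344) (.g (nat_lit 338) (.e (nat_lit 57683) (nat_lit 155) (.e (nat_lit 122917) (nat_lit 15) (.e (nat_lit 360449) (nat_lit 0) .nil))) .nil)) 
(.lf (nat_lit 178408) (.g (nat_lit 463) (.e (nat_lit 57684) (nat_lit 155) (.e (nat_lit 122914) (nat_lit 14) (.e (nat_lit 360192) (nat_lit 12) .nil))) .nil)))) (.nd (nat_lit 5) (.nd (nat_lit 6) 
(.lf (nat_lit 178328) (.g (nat_lit 3372) (.e (nat_lit 57683) (nat_lit 155) (.e (nat_lit 122916) (nat_lit 14) (.e (nat_lit 352309) (nat_lit 21) (.e (nat_lit 57684) (nat_lit 155) (.e (nat_lit 122916) (nat_lit 14) (.e (nat_lit 352307) (nat_lit 21) .nil)))))) (.g (nat_lit 5) .nil .nil))) 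
(.lf (nat_lit 178392) (.g (nat_lit 1790) (.e (nat_lit 57684) (nat_lit 155) (.e (nat_lit 122913) (nat_lit 13) (.e (nat_lit 344130) (nat_lit 26) (.e (nat_lit 557103) (nat_lit 14) (.e (nat_lit 180266) (nat_lit 22) .nil))))) .nil))) (.nd (nat_lit 6) 
(.lf (nat_lit 178360) (.g (nat_lit 2741) (.e (nat_lit 57683) (nat_lit 155) (.e (nat_lit 122917) (nat_lit 15) (.e (nat_lit 360491) (nat_lit 22) (.e (nat_lit 778466) (nat_lit 11) (.e (nat_lit 24636) (nat_lit 9) (.e (nat_lit 335998) (nat_lit 1) .nil)))))) (.g (nat_lit 0) .nil .nil))) 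
(.lf (nat_lit 178424) (.g (nat_lit 1608) (.e (nat_lit 57684) (nat_lit 155) (.e (nat_lit 122916) (nat_lit 14) (.e (nat_lit 352274) (nat_lit 11) (.e (nat_lit 426172) (nat_lit 7) (.e (nat_lit 409623) (nat_lit 10) (.e (nat_lit 5293) (nat_lit 298) (.e (nat_lit 1176) (nat_lit 87) .nil))))))) (.g (nat_lit 4) .nil .nil))))))) (.nd (nat_lit 3) (.nd (nat_lit 4) (.nd (nat_lit 5) (.nd (nat_lit 6) 
(.lf (nat_lit 178308) (.g (nat_lit 870) (.e (nat_lit 57683) (nat_lit 155) (.e (nat_lit 122916) (nat_lit 14) (.e (nat_lit 352283) (nat_lit 20) (.e (nat_lit 2375) (nat_lit 154) .nil)))) .nil)) 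
(.lf (nat_lit 178372) (.g (nat_lit 3711) (.e (nat_lit 57683) (nat_lit 155) (.e (nat_lit 122919) (nat_lit 15) (.e (nat_lit 360450) (nat_lit 0) (.e (nat_lit 7125) (nat_lit 382) (.e (nat_lit 1222) (nat_lit 90) (.e (nat_lit 81948) (nat_lit 21) .nil)))))) (.g (nat_lit 6) .nil .nil)))) (.nd (nat_lit 6) 
(.lf (nat_lit 178340) (.g (nat_lit 1417) (.e (nat_lit 57683) (nat_lit 155) (.e (nat_lit 122916) (nat_lit 14) (.e (nat_lit 352324) (nat_lit 26) (.e (nat_lit 147493) (nat_lit 11) .nil)))) .nil)) 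
(.lf (nat_lit 178404) (.g (nat_lit 1184) (.e (nat_lit 57684) (nat_lit 155) (.e (nat_lit 122914) (nat_lit 14) (.e (nat_lit 352277) (nat_lit 11) (.e (nat_lit 426172) (nat_lit 7) .nil)))) .nil)))) (.nd (nat_lit 5) (.nd (nat_lit 6) 
(.lf (nat_lit 178324) (.g (nat_lit 1732) (.e (nat_lit 57683) (nat_lit 155) (.e (nat_lit 122916) (nat_lit 14) (.e (nat_lit 352309) (nat_lit 21) (.e (nat_lit 57667) (nat_lit 152) .nil)))) .nil)) 
(.lf (nat_lit 178388) (.g (nat_lit 2987) (.e (nat_lit 57684) (nat_lit 155) (.e (nat_lit 122905) (nat_lit 12) (.e (nat_lit 336060) (nat_lit 7) (.e (nat_lit 319534) (nat_lit 16) (.e (nat_lit 286756) (nat_lit 10) (.e (nat_lit 344160) (nat_lit 37) (.e (nat_lit 647195) (nat_lit 9) (.e (nat_lit 7936) (nat_lit 87) .nil)))))))) (.g (nat_lit 7) .nil .nil)))) (.nd (nat_lit 6) 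
(.lf (nat_lit 178356) (.g (nat_lit 2041) (.e (nat_lit 57683) (nat_lit 155) (.e (nat_lit 122917) (nat_lit 15) (.e (nat_lit 360489) (nat_lit 21) (.e (nat_lit 770074) (nat_lit 10) (.e (nat_lit 81949) (nat_lit 21) .nil))))) (.g (nat_lit 4) .nil .nil))) 
(.lf (nat_lit 178420) (.g (nat_lit 2161) (.e (nat_lit 57684) (nat_lit 155) (.e (nat_lit 122916) (nat_lit 14) (.e (nat_lit 352272) (nat_lit 10) (.e (nat_lit 417811) (nat_lit 6) (.e (nat_lit 286747) (nat_lit 9) (.e (nat_lit 335997) (nat_lit 1) .nil)))))) (.g (nat_lit 0) .nil .nil)))))) (.nd (nat_lit 4) (.nd (nat_lit 5) (.nd (nat_lit 6) 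
(.lf (nat_lit 178316) (.g (nat_lit 3046) (.e (nat_lit 57683) (nat_lit 155) (.e (nat_lit 122916) (nat_lit 14) (.e (nat_lit 352307) (nat_lit 21) (.e (nat_lit 57683) (nat_lit 155) (.e (nat_lit 122916) (nat_lit 14) (.e (nat_lit 352307) (nat_lit 21) .nil)))))) (.g (nat_lit 5) .nil .nil))) 
(.lf (nat_lit 178380) (.g (nat_lit 1642) (.e (nat_lit 57683) (nat_lit 155) (.e (nat_lit 122919) (nat_lit 15) (.e (nat_lit 360491) (nat_lit 22) (.e (nat_lit 778466) (nat_lit 11) (.e (nat_lit 24637) (nat_lit 9) .nil))))) .nil))) (.nd (nat_lit 6) 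
(.lf (nat_lit 178348) (.g (nat_lit 643) (.e (nat_lit 57683) (nat_lit 155) (.e (nat_lit 122917) (nat_lit 15) (.e (nat_lit 360450) (nat_lit 0) .nil))) .nil)) 
(.lf (nat_lit 178412) (.g (nat_lit 1594) (.e (nat_lit 57684) (nat_lit 155) (.e (nat_lit 122914) (nat_lit 14) (.e (nat_lit 352324) (nat_lit 26) (.e (nat_lit 147467) (nat_lit 9) (.e (nat_lit 334) (nat_lit 26) .nil))))) .nil)))) (.nd (nat_lit 5) (.nd (nat_lit 6) 
(.lf (nat_lit 178332) (.g (nat_lit 931) (.e (nat_lit 57683) (nat_lit 155) (.e (nat_lit 122916) (nat_lit 14) (.e (nat_lit 352322) (nat_lit 26) (.e (nat_lit 147492) (nat_lit 11) .nil)))) .nil)) 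
(.lf (nat_lit 178396) (.g (nat_lit 437) (.e (nat_lit 57684) (nat_lit 155) (.e (nat_lit 122914) (nat_lit 14) (.e (nat_lit 352271) (nat_lit 9) .nil))) .nil))) (.nd (nat_lit 6) 
(.lf (nat_lit 178364) (.g (nat_lit 557) (.e (nat_lit 57683) (nat_lit 155) (.e (nat_lit 122917) (nat_lit 15) (.e (nat_lit 360492) (nat_lit 22) (.e (nat_lit 778466) (nat_lit 11) .nil)))) .nil)) 
(.lf (nat_lit 178428) (.g (nat_lit 3757) (.e (nat_lit 57684) (nat_lit 155) (.e (nat_lit 122916) (nat_lit 14) (.e (nat_lit 352277) (nat_lit 11) (.e (nat_lit 426343) (nat_lit 14) (.e (nat_lit 491546) (nat_lit 9) (.e (nat_lit 335997) (nat_lit 1) .nil)))))) (.g (nat_lit 6) .nil .nil)))))))) (.nd (nat_lit 2) (.nd (nat_lit 3) (.nd (nat_lit 4) (.nd (nat_lit 5) (.nd (nat_lit 6) 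
(.lf (nat_lit 178306) (.g (nat_lit 430) (.e (nat_lit 57683) (nat_lit 155) (.e (nat_lit 122916) (nat_lit 14) (.e (nat_lit 360192) (nat_lit 15) .nil))) .nil)) 
(.lf (nat_lit 178370) (.g (nat_lit 1662) (.e (nat_lit 57683) (nat_lit 155) (.e (nat_lit 122919) (nat_lit 15) (.e (nat_lit 360449) (nat_lit 0) (.e (nat_lit 7122) (nat_lit 382) (.e (nat_lit 7936) (nat_lit 90) .nil))))) .nil))) (.nd (nat_lit 6) 
(.lf (nat_lit 178338) (.g (nat_lit 3196) (.e (nat_lit 57683) (nat_lit 155) (.e (nat_lit 122916) (nat_lit 14) (.e (nat_lit 352324) (nat_lit 26) (.e (nat_lit 147467) (nat_lit 9) (.e (nat_lit 314) (nat_lit 23) (.e (nat_lit 352307) (nat_lit 21) .nil)))))) (.g (nat_lit 0) .nil .nil))) 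
(.lf (nat_lit 178402) (.g (nat_lit 613) (.e (nat_lit 57684) (nat_lit 155) (.e (nat_lit 122914) (nat_lit 14) (.e (nat_lit 352276) (nat_lit 11) .nil))) .nil)))) (.nd (nat_lit 5) (.nd (nat_lit 6) 
(.lf (nat_lit 178322) (.g (nat_lit 1732) (.e (nat_lit 57683) (nat_lit 155) (.e (nat_lit 122916) (nat_lit 14) (.e (nat_lit 352309) (nat_lit 21) (.e (nat_lit 57664) (nat_lit 152) .nil)))) .nil)) 
(.lf (nat_lit 178386) (.g (nat_lit 2172) (.e (nat_lit 57684) (nat_lit 155) (.e (nat_lit 122903) (nat_lit 12) (.e (nat_lit 336013) (nat_lit 2) (.e (nat_lit 90170) (nat_lit 13) (.e (nat_lit 172106) (nat_lit 10) (.e (nat_lit 434244) (nat_lit 28) (.e (nat_lit 573451) (nat_lit 9) (.e (nat_lit 7936) (nat_lit 87) .nil)))))))) (.g (nat_lit 7) .nil .nil)))) (.nd (nat_lit 6) 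
(.lf (nat_lit 178354) (.g (nat_lit 1873) (.e (nat_lit 57683) (nat_lit 155) (.e (nat_lit 122917) (nat_lit 15) (.e (nat_lit 360451) (nat_lit 0) (.e (nat_lit 7261) (nat_lit 384) (.e (nat_lit 57437) (nat_lit 17) .nil))))) .nil)) 
(.lf (nat_lit 178418) (.g (nat_lit 643) (.e (nat_lit 57684) (nat_lit 155) (.e (nat_lit 122916) (nat_lit 14) (.e (nat_lit 352271) (nat_lit 9) .nil))) .nil))))) (.nd (nat_lit 4) (.nd (nat_lit 5) (.nd (nat_lit 6) 
(.lf (nat_lit 178314) (.g (nat_lit 829) (.e (nat_lit 57683) (nat_lit 155) (.e (nat_lit 122916) (nat_lit 14) (.e (nat_lit 352302) (nat_lit 20) (.e (nat_lit 2264) (nat_lit 149) .nil)))) .nil)) 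
(.lf (nat_lit 178378) (.g (nat_lit 2290) (.e (nat_lit 57683) (nat_lit 155) (.e (nat_lit 122919) (nat_lit 15) (.e (nat_lit 360491) (nat_lit 22) (.e (nat_lit 778466) (nat_lit 11) (.e (nat_lit 24628) (nat_lit 9) (.e (nat_lit 336000) (nat_lit 1) .nil)))))) (.g (nat_lit 0) .nil .nil)))) (.nd (nat_lit 6) 
(.lf (nat_lit 178346) (.g (nat_lit 3867) (.e (nat_lit 57683) (nat_lit 155) (.e (nat_lit 122917) (nat_lit 15) (.e (nat_lit 360449) (nat_lit 0) (.e (nat_lit 7125) (nat_lit 382) (.e (nat_lit 1222) (nat_lit 90) (.e (nat_lit 81948) (nat_lit 21) .nil)))))) (.g (nat_lit 0) .nil .nil))) 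
(.lf (nat_lit 178410) (.g (nat_lit 617) (.e (nat_lit 57684) (nat_lit 155) (.e (nat_lit 122914) (nat_lit 14) (.e (nat_lit 352322) (nat_lit 26) .nil))) .nil)))) (.nd (nat_lit 5) (.nd (nat_lit 6) 
(.lf (nat_lit 178330) (.g (nat_lit 1277) (.e (nat_lit 57683) (nat_lit 155) (.e (nat_lit 122916) (nat_lit 14) (.e (nat_lit 352318) (nat_lit 24) (.e (nat_lit 130816) (nat_lit 152) .nil)))) .nil)) 
(.lf (nat_lit 178394) (.g (nat_lit 1632) (.e (nat_lit 57684) (nat_lit 155) (.e (nat_lit 122913) (nat_lit 13) (.e (nat_lit 344130) (nat_lit 26) (.e (nat_lit 557104) (nat_lit 14) (.e (nat_lit 180262) (nat_lit 21) .nil))))) .nil))) (.nd (nat_lit 6) 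
(.lf (nat_lit 178362) (.g (nat_lit 2728) (.e (nat_lit 57683) (nat_lit 155) (.e (nat_lit 122917) (nat_lit 15) (.e (nat_lit 360492) (nat_lit 22) (.e (nat_lit 778362) (nat_lit 9) (.e (nat_lit 334) (nat_lit 26) (.e (nat_lit 376859) (nat_lit 21) .nil)))))) (.g (nat_lit 0) .nil .nil))) 
(.lf (nat_lit 178426) (.g (nat_lit 356) (.e (nat_lit 57684) (nat_lit 155) (.e (nat_lit 122916) (nat_lit 14) (.e (nat_lit 352277) (nat_lit 11) .nil))) .nil)))))) (.nd (nat_lit 3) (.nd (nat_lit 4) (.nd (nat_lit 5) (.nd (nat_lit 6) 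
(.lf (nat_lit 178310) (.g (nat_lit 1299) (.e (nat_lit 57683) (nat_lit 155) (.e (nat_lit 122916) (nat_lit 14) (.e (nat_lit 352293) (nat_lit 20) (.e (nat_lit 2270) (nat_lit 149) (.e (nat_lit 769792) (nat_lit 10) .nil))))) .nil)) 
(.lf (nat_lit 178374) (.g (nat_lit 1952) (.e (nat_lit 57683) (nat_lit 155) (.e (nat_lit 122919) (nat_lit 15) (.e (nat_lit 360452) (nat_lit 0) (.e (nat_lit 7272) (nat_lit 385) (.e (nat_lit 122915) (nat_lit 14) .nil))))) .nil))) (.nd (nat_lit 6) 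
(.lf (nat_lit 178342) (.g (nat_lit 1059) (.e (nat_lit 57683) (nat_lit 155) (.e (nat_lit 122916) (nat_lit 14) (.e (nat_lit 352324) (nat_lit 26) (.e (nat_lit 147496) (nat_lit 11) .nil)))) .nil)) 
(.lf (nat_lit 178406) (.g (nat_lit 2122) (.e (nat_lit 57684) (nat_lit 155) (.e (nat_lit 122914) (nat_lit 14) (.e (nat_lit 352277) (nat_lit 11) (.e (nat_lit 426342) (nat_lit 14) (.e (nat_lit 491546) (nat_lit 9) (.e (nat_lit 335997) (nat_lit 1) .nil)))))) (.g (nat_lit 5) .nil .nil))))) (.nd (nat_lit 5) (.nd (nat_lit 6) 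
(.lf (nat_lit 178326) (.g (nat_lit 2384) (.e (nat_lit 57683) (nat_lit 155) (.e (nat_lit 122916) (nat_lit 14) (.e (nat_lit 352309) (nat_lit 21) (.e (nat_lit 57684) (nat_lit 155) (.e (nat_lit 122914) (nat_lit 14) .nil))))) .nil)) 
(.lf (nat_lit 178390) (.g (nat_lit 1683) (.e (nat_lit 57684) (nat_lit 155) (.e (nat_lit 122908) (nat_lit 12) (.e (nat_lit 336086) (nat_lit 9) (.e (nat_lit 336369) (nat_lit 27) (.e (nat_lit 426173) (nat_lit 7) .nil))))) .nil))) (.nd (nat_lit 6) 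
(.lf (nat_lit 178358) (.g (nat_lit 2936) (.e (nat_lit 57683) (nat_lit 155) (.e (nat_lit 122917) (nat_lit 15) (.e (nat_lit 360491) (nat_lit 22) (.e (nat_lit 778362) (nat_lit 9) (.e (nat_lit 334) (nat_lit 26) (.e (nat_lit 376859) (nat_lit 21) .nil)))))) (.g (nat_lit 0) .nil .nil))) 
(.lf (nat_lit 178422) (.g (nat_lit 414) (.e (nat_lit 57684) (nat_lit 155) (.e (nat_lit 122916) (nat_lit 14) (.e (nat_lit 352273) (nat_lit 11) .nil))) .nil))))) (.nd (nat_lit 4) (.nd (nat_lit 5) (.nd (nat_lit 6) 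
(.lf (nat_lit 178318) (.g (nat_lit 623) (.e (nat_lit 57683) (nat_lit 155) (.e (nat_lit 122916) (nat_lit 14) (.e (nat_lit 352308) (nat_lit 21) .nil))) .nil)) 
(.lf (nat_lit 178382) (.g (nat_lit 2571) (.e (nat_lit 57683) (nat_lit 155) (.e (nat_lit 122919) (nat_lit 15) (.e (nat_lit 360492) (nat_lit 22) (.e (nat_lit 778362) (nat_lit 9) (.e (nat_lit 334) (nat_lit 26) (.e (nat_lit 376859) (nat_lit 21) .nil)))))) (.g (nat_lit 0) .nil .nil)))) (.nd (nat_lit 6) 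
(.lf (nat_lit 178350) (.g (nat_lit 1244) (.e (nat_lit 57683) (nat_lit 155) (.e (nat_lit 122917) (nat_lit 15) (.e (nat_lit 360450) (nat_lit 0) (.e (nat_lit 7261) (nat_lit 384) .nil)))) .nil)) 
(.lf (nat_lit 178414) (.g (nat_lit 1393) (.e (nat_lit 57684) (nat_lit 155) (.e (nat_lit 122914) (nat_lit 14) (.e (nat_lit 352324) (nat_lit 26) (.e (nat_lit 147493) (nat_lit 11) .nil)))) .nil)))) (.nd (nat_lit 5) (.nd (nat_lit 6) 
(.lf (nat_lit 178334) (.g (nat_lit 797) (.e (nat_lit 57683) (nat_lit 155) (.e (nat_lit 122916) (nat_lit 14) (.e (nat_lit 352323) (nat_lit 26) (.e (nat_lit 147465) (nat_lit 9) .nil)))) .nil)) 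
(.lf (nat_lit 178398) (.g (nat_lit 1016) (.e (nat_lit 57684) (nat_lit 155) (.e (nat_lit 122914) (nat_lit 14) (.e (nat_lit 352272) (nat_lit 10) (.e (nat_lit 417796) (nat_lit 0) (.e (nat_lit 5403) (nat_lit 302) (.e (nat_lit 65565) (nat_lit 1) .nil)))))) (.g (nat_lit 4) .nil .nil)))) (.nd (nat_lit 6) 
(.lf (nat_lit 178366) (.g (nat_lit 2564) (.e (nat_lit 57683) (nat_lit 155) (.e (nat_lit 122917) (nat_lit 15) (.e (nat_lit 360492) (nat_lit 22) (.e (nat_lit 778466) (nat_lit 11) (.e (nat_lit 24636) (nat_lit 9) (.e (nat_lit 335998) (nat_lit 1) .nil)))))) (.g (nat_lit 0) .nil .nil))) 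
(.lf (nat_lit 178430) (.g (nat_lit 822) (.e (nat_lit 57684) (nat_lit 155) (.e (nat_lit 122916) (nat_lit 14) (.e (nat_lit 360192) (nat_lit 13) (.e (nat_lit 442428) (nat_lit 24) (.e (nat_lit 229681) (nat_lit 244) (.e (nat_lit 171776) (nat_lit 62) .nil)))))) (.g (nat_lit 4) .nil .nil))))))))) (.nd (nat_lit 1) (.nd (nat_lit 2) (.nd (nat_lit 3) (.nd (nat_lit 4) (.nd (nat_lit 5) (.nd (nat_lit 6) 
(.lf (nat_lit 178305) (.g (nat_lit 430) (.e (nat_lit 57683) (nat_lit 155) (.e (nat_lit 122916) (nat_lit 14) (.e (nat_lit 360192) (nat_lit 12) .nil))) .nil)) 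
(.lf (nat_lit 178369) (.g (nat_lit 471) (.e (nat_lit 57683) (nat_lit 155) (.e (nat_lit 122919) (nat_lit 15) (.e (nat_lit 360448) (nat_lit 0) .nil))) .nil))) (.nd (nat_lit 6) 
(.lf (nat_lit 178337) (.g (nat_lit 1601) (.e (nat_lit 57683) (nat_lit 155) (.e (nat_lit 122916) (nat_lit 14) (.e (nat_lit 352324) (nat_lit 26) (.e (nat_lit 147463) (nat_lit 9) (.e (nat_lit 314) (nat_lit 23) .nil))))) .nil)) 
(.lf (nat_lit 178401) (.g (nat_lit 617) (.e (nat_lit 57684) (nat_lit 155) (.e (nat_lit 122914) (nat_lit 14) (.e (nat_lit 352275) (nat_lit 11) .nil))) .nil)))) (.nd (nat_lit 5) (.nd (nat_lit 6) 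
(.lf (nat_lit 178321) (.g (nat_lit 1709) (.e (nat_lit 57683) (nat_lit 155) (.e (nat_lit 122916) (nat_lit 14) (.e (nat_lit 352309) (nat_lit 21) (.e (nat_lit 57659) (nat_lit 152) .nil)))) .nil)) 
(.lf (nat_lit 178385) (.g (nat_lit 3199) (.e (nat_lit 57684) (nat_lit 155) (.e (nat_lit 122903) (nat_lit 12) (.e (nat_lit 336013) (nat_lit 2) (.e (nat_lit 90170) (nat_lit 13) (.e (nat_lit 172106) (nat_lit 10) (.e (nat_lit 434244) (nat_lit 28) (.e (nat_lit 573451) (nat_lit 9) (.e (nat_lit 1177) (nat_lit 87) .nil)))))))) (.g (nat_lit 7) .nil .nil)))) (.nd (nat_lit 6) 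
(.lf (nat_lit 178353) (.g (nat_lit 3681) (.e (nat_lit 57683) (nat_lit 155) (.e (nat_lit 122917) (nat_lit 15) (.e (nat_lit 360451) (nat_lit 0) (.e (nat_lit 7125) (nat_lit 382) (.e (nat_lit 1222) (nat_lit 90) (.e (nat_lit 81948) (nat_lit 21) .nil)))))) (.g (nat_lit 6) .nil .nil))) 
(.lf (nat_lit 178417) (.g (nat_lit 587) (.e (nat_lit 57684) (nat_lit 155) (.e (nat_lit 122916) (nat_lit 14) (.e (nat_lit 352257) (nat_lit 0) .nil))) .nil))))) (.nd (nat_lit 4) (.nd (nat_lit 5) (.nd (nat_lit 6) 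
(.lf (nat_lit 178313) (.g (nat_lit 451) (.e (nat_lit 57683) (nat_lit 155) (.e (nat_lit 122916) (nat_lit 14) (.e (nat_lit 352302) (nat_lit 20) .nil))) .nil)) 
(.lf (nat_lit 178377) (.g (nat_lit 2529) (.e (nat_lit 57683) (nat_lit 155) (.e (nat_lit 122919) (nat_lit 15) (.e (nat_lit 360491) (nat_lit 22) (.e (nat_lit 778362) (nat_lit 9) (.e (nat_lit 334) (nat_lit 26) (.e (nat_lit 376859) (nat_lit 21) .nil)))))) (.g (nat_lit 0) .nil .nil)))) (.nd (nat_lit 6) 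
(.lf (nat_lit 178345) (.g (nat_lit 1112) (.e (nat_lit 57683) (nat_lit 155) (.e (nat_lit 122917) (nat_lit 15) (.e (nat_lit 360449) (nat_lit 0) (.e (nat_lit 7119) (nat_lit 382) .nil)))) .nil)) 
(.lf (nat_lit 178409) (.g (nat_lit 822) (.e (nat_lit 57684) (nat_lit 155) (.e (nat_lit 122914) (nat_lit 14) (.e (nat_lit 360192) (nat_lit 13) (.e (nat_lit 442430) (nat_lit 24) (.e (nat_lit 229681) (nat_lit 244) (.e (nat_lit 171776) (nat_lit 62) .nil)))))) (.g (nat_lit 4) .nil .nil))))) (.nd (nat_lit 5) (.nd (nat_lit 6) 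
(.lf (nat_lit 178329) (.g (nat_lit 627) (.e (nat_lit 57683) (nat_lit 155) (.e (nat_lit 122916) (nat_lit 14) (.e (nat_lit 352316) (nat_lit 24) .nil))) .nil)) 
(.lf (nat_lit 178393) (.g (nat_lit 1653) (.e (nat_lit 57684) (nat_lit 155) (.e (nat_lit 122913) (nat_lit 13) (.e (nat_lit 344130) (nat_lit 26) (.e (nat_lit 557104) (nat_lit 14) (.e (nat_lit 180233) (nat_lit 0) (.e (nat_lit 5818) (nat_lit 320) (.e (nat_lit 1296) (nat_lit 96) (.e (nat_lit 131086) (nat_lit 1) .nil)))))))) (.g (nat_lit 4) .nil .nil)))) (.nd (nat_lit 6) 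
(.lf (nat_lit 178361) (.g (nat_lit 2700) (.e (nat_lit 57683) (nat_lit 155) (.e (nat_lit 122917) (nat_lit 15) (.e (nat_lit 360492) (nat_lit 22) (.e (nat_lit 778362) (nat_lit 9) (.e (nat_lit 334) (nat_lit 26) (.e (nat_lit 376857) (nat_lit 21) .nil)))))) (.g (nat_lit 0) .nil .nil))) 
(.lf (nat_lit 178425) (.g (nat_lit 1558) (.e (nat_lit 57684) (nat_lit 155) (.e (nat_lit 122916) (nat_lit 14) (.e (nat_lit 352274) (nat_lit 11) (.e (nat_lit 426172) (nat_lit 7) (.e (nat_lit 417536) (nat_lit 16) (.e (nat_lit 286731) (nat_lit 1) .nil)))))) (.g (nat_lit 4) .nil .nil))))))) (.nd (nat_lit 3) (.nd (nat_lit 4) (.nd (nat_lit 5) (.nd (nat_lit 6) 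
(.lf (nat_lit 178309) (.g (nat_lit 503) (.e (nat_lit 57683) (nat_lit 155) (.e (nat_lit 122916) (nat_lit 14) (.e (nat_lit 352293) (nat_lit 20) .nil))) .nil)) 
(.lf (nat_lit 178373) (.g (nat_lit 1895) (.e (nat_lit 57683) (nat_lit 155) (.e (nat_lit 122919) (nat_lit 15) (.e (nat_lit 360451) (nat_lit 0) (.e (nat_lit 7124) (nat_lit 382) (.e (nat_lit 7936) (nat_lit 90) .nil))))) .nil))) (.nd (nat_lit 6) 
(.lf (nat_lit 178341) (.g (nat_lit 1058) (.e (nat_lit 57683) (nat_lit 155) (.e (nat_lit 122916) (nat_lit 14) (.e (nat_lit 352324) (nat_lit 26) (.e (nat_lit 147494) (nat_lit 11) .nil)))) .nil)) 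
(.lf (nat_lit 178405) (.g (nat_lit 1180) (.e (nat_lit 57684) (nat_lit 155) (.e (nat_lit 122914) (nat_lit 14) (.e (nat_lit 352277) (nat_lit 11) (.e (nat_lit 426181) (nat_lit 8) .nil)))) .nil)))) (.nd (nat_lit 5) (.nd (nat_lit 6) 
(.lf (nat_lit 178325) (.g (nat_lit 3954) (.e (nat_lit 57683) (nat_lit 155) (.e (nat_lit 122916) (nat_lit 14) (.e (nat_lit 352309) (nat_lit 21) (.e (nat_lit 57683) (nat_lit 155) (.e (nat_lit 122916) (nat_lit 14) (.e (nat_lit 352309) (nat_lit 21) .nil)))))) (.g (nat_lit 6) .nil .nil))) 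
(.lf (nat_lit 178389) (.g (nat_lit 2922) (.e (nat_lit 57684) (nat_lit 155) (.e (nat_lit 122907) (nat_lit 12) (.e (nat_lit 336060) (nat_lit 7) (.e (nat_lit 319534) (nat_lit 16) (.e (nat_lit 286756) (nat_lit 10) (.e (nat_lit 344160) (nat_lit 37) (.e (nat_lit 647195) (nat_lit 9) (.e (nat_lit 7936) (nat_lit 87) .nil)))))))) (.g (nat_lit 7) .nil .nil)))) (.nd (nat_lit 6) 
(.lf (nat_lit 178357) (.g (nat_lit 2908) (.e (nat_lit 57683) (nat_lit 155) (.e (nat_lit 122917) (nat_lit 15) (.e (nat_lit 360491) (nat_lit 22) (.e (nat_lit 778362) (nat_lit 9) (.e (nat_lit 334) (nat_lit 26) (.e (nat_lit 376857) (nat_lit 21) .nil)))))) (.g (nat_lit 0) .nil .nil))) 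
(.lf (nat_lit 178421) (.g (nat_lit 2643) (.e (nat_lit 57684) (nat_lit 155) (.e (nat_lit 122916) (nat_lit 14) (.e (nat_lit 352272) (nat_lit 10) (.e (nat_lit 417811) (nat_lit 6) (.e (nat_lit 286749) (nat_lit 9) (.e (nat_lit 335997) (nat_lit 1) .nil)))))) (.g (nat_lit 0) .nil .nil)))))) (.nd (nat_lit 4) (.nd (nat_lit 5) (.nd (nat_lit 6) 
(.lf (nat_lit 178317) (.g (nat_lit 1186) (.e (nat_lit 57683) (nat_lit 155) (.e (nat_lit 122916) (nat_lit 14) (.e (nat_lit 352307) (nat_lit 21) (.e (nat_lit 57684) (nat_lit 155) .nil)))) .nil)) 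
(.lf (nat_lit 178381) (.g (nat_lit 2545) (.e (nat_lit 57683) (nat_lit 155) (.e (nat_lit 122919) (nat_lit 15) (.e (nat_lit 360492) (nat_lit 22) (.e (nat_lit 778362) (nat_lit 9) (.e (nat_lit 334) (nat_lit 26) (.e (nat_lit 376857) (nat_lit 21) .nil)))))) (.g (nat_lit 0) .nil .nil)))) (.nd (nat_lit 6) 
(.lf (nat_lit 178349) (.g (nat_lit 2168) (.e (nat_lit 57683) (nat_lit 155) (.e (nat_lit 122917) (nat_lit 15) (.e (nat_lit 360450) (nat_lit 0) (.e (nat_lit 7122) (nat_lit 382) (.e (nat_lit 1222) (nat_lit 90) .nil))))) .nil)) 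
(.lf (nat_lit 178413) (.g (nat_lit 1214) (.e (nat_lit 57684) (nat_lit 155) (.e (nat_lit 122914) (nat_lit 14) (.e (nat_lit 352324) (nat_lit 26) (.e (nat_lit 147472) (nat_lit 9) .nil)))) .nil)))) (.nd (nat_lit 5) (.nd (nat_lit 6) 
(.lf (nat_lit 178333) (.g (nat_lit 2991) (.e (nat_lit 57683) (nat_lit 155) (.e (nat_lit 122916) (nat_lit 14) (.e (nat_lit 352322) (nat_lit 26) (.e (nat_lit 147496) (nat_lit 11) (.e (nat_lit 24628) (nat_lit 9) (.e (nat_lit 336000) (nat_lit 1) .nil)))))) (.g (nat_lit 5) .nil .nil))) 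
(.lf (nat_lit 178397) (.g (nat_lit 972) (.e (nat_lit 57684) (nat_lit 155) (.e (nat_lit 122914) (nat_lit 14) (.e (nat_lit 352271) (nat_lit 9) (.e (nat_lit 409602) (nat_lit 0) (.e (nat_lit 5425) (nat_lit 305) .nil))))) .nil))) (.nd (nat_lit 6) 
(.lf (nat_lit 178365) (.g (nat_lit 2492) (.e (nat_lit 57683) (nat_lit 155) (.e (nat_lit 122917) (nat_lit 15) (.e (nat_lit 360492) (nat_lit 22) (.e (nat_lit 778466) (nat_lit 11) (.e (nat_lit 24628) (nat_lit 9) (.e (nat_lit 336000) (nat_lit 1) .nil)))))) (.g (nat_lit 0) .nil .nil))) 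
(.lf (nat_lit 178429) (.g (nat_lit 315) (.e (nat_lit 57684) (nat_lit 155) (.e (nat_lit 122916) (nat_lit 14) (.e (nat_lit 360192) (nat_lit 12) .nil))) .nil))))))) (.nd (nat_lit 2) (.nd (nat_lit 3) (.nd (nat_lit 4) (.nd (nat_lit 5) (.nd (nat_lit 6) 
(.lf (nat_lit 178307) (.g (nat_lit 627) (.e (nat_lit 57683) (nat_lit 155) (.e (nat_lit 122916) (nat_lit 14) (.e (nat_lit 352280) (nat_lit 20) .nil))) .nil)) 
(.lf (nat_lit 178371) (.g (nat_lit 2563) (.e (nat_lit 57683) (nat_lit 155) (.e (nat_lit 122919) (nat_lit 15) (.e (nat_lit 360450) (nat_lit 0) (.e (nat_lit 7122) (nat_lit 382) (.e (nat_lit 7936) (nat_lit 90) (.e (nat_lit 81950) (nat_lit 21) .nil)))))) (.g (nat_lit 4) .nil .nil)))) (.nd (nat_lit 6) 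
(.lf (nat_lit 178339) (.g (nat_lit 2054) (.e (nat_lit 57683) (nat_lit 155) (.e (nat_lit 122916) (nat_lit 14) (.e (nat_lit 352324) (nat_lit 26) (.e (nat_lit 147492) (nat_lit 11) (.e (nat_lit 24628) (nat_lit 9) (.e (nat_lit 336000) (nat_lit 1) .nil)))))) (.g (nat_lit 4) .nil .nil))) 
(.lf (nat_lit 178403) (.g (nat_lit 491) (.e (nat_lit 57684) (nat_lit 155) (.e (nat_lit 122914) (nat_lit 14) (.e (nat_lit 352277) (nat_lit 11) .nil))) .nil)))) (.nd (nat_lit 5) (.nd (nat_lit 6) 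
(.lf (nat_lit 178323) (.g (nat_lit 1691) (.e (nat_lit 57683) (nat_lit 155) (.e (nat_lit 122916) (nat_lit 14) (.e (nat_lit 352309) (nat_lit 21) (.e (nat_lit 57666) (nat_lit 152) .nil)))) .nil)) 
(.lf (nat_lit 178387) (.g (nat_lit 3013) (.e (nat_lit 57684) (nat_lit 155) (.e (nat_lit 122903) (nat_lit 12) (.e (nat_lit 336060) (nat_lit 7) (.e (nat_lit 319534) (nat_lit 16) (.e (nat_lit 286756) (nat_lit 10) (.e (nat_lit 344160) (nat_lit 37) (.e (nat_lit 647195) (nat_lit 9) (.e (nat_lit 7936) (nat_lit 87) .nil)))))))) (.g (nat_lit 7) .nil .nil)))) (.nd (nat_lit 6) 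
(.lf (nat_lit 178355) (.g (nat_lit 1289) (.e (nat_lit 57683) (nat_lit 155) (.e (nat_lit 122917) (nat_lit 15) (.e (nat_lit 360489) (nat_lit 21) (.e (nat_lit 770054) (nat_lit 5) (.e (nat_lit 1615) (nat_lit 113) .nil))))) .nil)) 
(.lf (nat_lit 178419) (.g (nat_lit 1351) (.e (nat_lit 57684) (nat_lit 155) (.e (nat_lit 122916) (nat_lit 14) (.e (nat_lit 352272) (nat_lit 10) (.e (nat_lit 417811) (nat_lit 6) (.e (nat_lit 286747) (nat_lit 9) (.e (nat_lit 335991) (nat_lit 1) .nil)))))) (.g (nat_lit 5) .nil .nil)))))) (.nd (nat_lit 4) (.nd (nat_lit 5) (.nd (nat_lit 6) 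
(.lf (nat_lit 178315) (.g (nat_lit 1940) (.e (nat_lit 57683) (nat_lit 155) (.e (nat_lit 122916) (nat_lit 14) (.e (nat_lit 352307) (nat_lit 21) (.e (nat_lit 57654) (nat_lit 152) (.e (nat_lit 1216) (nat_lit 90) .nil))))) .nil)) 
(.lf (nat_lit 178379) (.g (nat_lit 2354) (.e (nat_lit 57683) (nat_lit 155) (.e (nat_lit 122919) (nat_lit 15) (.e (nat_lit 360491) (nat_lit 22) (.e (nat_lit 778466) (nat_lit 11) (.e (nat_lit 24636) (nat_lit 9) (.e (nat_lit 335998) (nat_lit 1) .nil)))))) (.g (nat_lit 0) .nil .nil)))) (.nd (nat_lit 6) 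
(.lf (nat_lit 178347) (.g (nat_lit 1361) (.e (nat_lit 57683) (nat_lit 155) (.e (nat_lit 122917) (nat_lit 15) (.e (nat_lit 360449) (nat_lit 0) (.e (nat_lit 7265) (nat_lit 384) (.e (nat_lit 57406) (nat_lit 12) .nil))))) .nil)) 
(.lf (nat_lit 178411) (.g (nat_lit 1245) (.e (nat_lit 57684) (nat_lit 155) (.e (nat_lit 122914) (nat_lit 14) (.e (nat_lit 352322) (nat_lit 26) (.e (nat_lit 147496) (nat_lit 11) .nil)))) .nil)))) (.nd (nat_lit 5) (.nd (nat_lit 6) 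
(.lf (nat_lit 178331) (.g (nat_lit 440) (.e (nat_lit 57683) (nat_lit 155) (.e (nat_lit 122916) (nat_lit 14) (.e (nat_lit 352322) (nat_lit 26) .nil))) .nil)) 
(.lf (nat_lit 178395) (.g (nat_lit 438) (.e (nat_lit 57684) (nat_lit 155) (.e (nat_lit 122914) (nat_lit 14) (.e (nat_lit 352257) (nat_lit 0) .nil))) .nil))) (.nd (nat_lit 6) 
(.lf (nat_lit 178363) (.g (nat_lit 1896) (.e (nat_lit 57683) (nat_lit 155) (.e (nat_lit 122917) (nat_lit 15) (.e (nat_lit 360492) (nat_lit 22) (.e (nat_lit 778465) (nat_lit 11) (.e (nat_lit 24628) (nat_lit 9) (.e (nat_lit 336000) (nat_lit 1) .nil)))))) (.g (nat_lit 5) .nil .nil))) 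
(.lf (nat_lit 178427) (.g (nat_lit 983) (.e (nat_lit 57684) (nat_lit 155) (.e (nat_lit 122916) (nat_lit 14) (.e (nat_lit 352277) (nat_lit 11) (.e (nat_lit 426172) (nat_lit 7) .nil)))) .nil)))))) (.nd (nat_lit 3) (.nd (nat_lit 4) (.nd (nat_lit 5) (.nd (nat_lit 6) 
(.lf (nat_lit 178311) (.g (nat_lit 639) (.e (nat_lit 57683) (nat_lit 155) (.e (nat_lit 122916) (nat_lit 14) (.e (nat_lit 352296) (nat_lit 20) .nil))) .nil)) 
(.lf (nat_lit 178375) (.g (nat_lit 455) (.e (nat_lit 57683) (nat_lit 155) (.e (nat_lit 122919) (nat_lit 15) (.e (nat_lit 360490) (nat_lit 22) .nil))) .nil))) (.nd (nat_lit 6) 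
(.lf (nat_lit 178343) (.g (nat_lit 2032) (.e (nat_lit 57683) (nat_lit 155) (.e (nat_lit 122916) (nat_lit 14) (.e (nat_lit 352324) (nat_lit 26) (.e (nat_lit 147496) (nat_lit 11) (.e (nat_lit 24623) (nat_lit 9) .nil))))) .nil)) 
(.lf (nat_lit 178407) (.g (nat_lit 941) (.e (nat_lit 57684) (nat_lit 155) (.e (nat_lit 122914) (nat_lit 14) (.e (nat_lit 352277) (nat_lit 11) (.e (nat_lit 426344) (nat_lit 14) .nil)))) .nil)))) (.nd (nat_lit 5) (.nd (nat_lit 6) 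
(.lf (nat_lit 178327) (.g (nat_lit 2780) (.e (nat_lit 57683) (nat_lit 155) (.e (nat_lit 122916) (nat_lit 14) (.e (nat_lit 352309) (nat_lit 21) (.e (nat_lit 57684) (nat_lit 155) (.e (nat_lit 122914) (nat_lit 14) (.e (nat_lit 352309) (nat_lit 21) .nil)))))) (.g (nat_lit 4) .nil .nil))) 
(.lf (nat_lit 178391) (.g (nat_lit 1994) (.e (nat_lit 57684) (nat_lit 155) (.e (nat_lit 122913) (nat_lit 13) (.e (nat_lit 344130) (nat_lit 26) (.e (nat_lit 557067) (nat_lit 9) (.e (nat_lit 2828) (nat_lit 182) .nil))))) .nil))) (.nd (nat_lit 6) 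
(.lf (nat_lit 178359) (.g (nat_lit 1963) (.e (nat_lit 57683) (nat_lit 155) (.e (nat_lit 122917) (nat_lit 15) (.e (nat_lit 360491) (nat_lit 22) (.e (nat_lit 778465) (nat_lit 11) (.e (nat_lit 24628) (nat_lit 9) (.e (nat_lit 336000) (nat_lit 1) .nil)))))) (.g (nat_lit 4) .nil .nil))) 
(.lf (nat_lit 178423) (.g (nat_lit 616) (.e (nat_lit 57684) (nat_lit 155) (.e (nat_lit 122916) (nat_lit 14) (.e (nat_lit 352274) (nat_lit 11) .nil))) .nil))))) (.nd (nat_lit 4) (.nd (nat_lit 5) (.nd (nat_lit 6) 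
(.lf (nat_lit 178319) (.g (nat_lit 318) (.e (nat_lit 57683) (nat_lit 155) (.e (nat_lit 122916) (nat_lit 14) (.e (nat_lit 352309) (nat_lit 21) .nil))) .nil)) 
(.lf (nat_lit 178383) (.g (nat_lit 2312) (.e (nat_lit 57683) (nat_lit 155) (.e (nat_lit 122919) (nat_lit 15) (.e (nat_lit 360492) (nat_lit 22) (.e (nat_lit 778466) (nat_lit 11) (.e (nat_lit 24628) (nat_lit 9) (.e (nat_lit 336000) (nat_lit 1) .nil)))))) (.g (nat_lit 0) .nil .nil)))) (.nd (nat_lit 6) 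
(.lf (nat_lit 178351) (.g (nat_lit 657) (.e (nat_lit 57683) (nat_lit 155) (.e (nat_lit 122917) (nat_lit 15) (.e (nat_lit 360451) (nat_lit 0) .nil))) .nil)) 
(.lf (nat_lit 178415) (.g (nat_lit 2061) (.e (nat_lit 57684) (nat_lit 155) (.e (nat_lit 122914) (nat_lit 14) (.e (nat_lit 352324) (nat_lit 26) (.e (nat_lit 147495) (nat_lit 11) (.e (nat_lit 24636) (nat_lit 9) (.e (nat_lit 335998) (nat_lit 1) .nil)))))) (.g (nat_lit 4) .nil .nil))))) (.nd (nat_lit 5) (.nd (nat_lit 6) 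
(.lf (nat_lit 178335) (.g (nat_lit 386) (.e (nat_lit 57683) (nat_lit 155) (.e (nat_lit 122916) (nat_lit 14) (.e (nat_lit 352324) (nat_lit 26) .nil))) .nil)) 
(.lf (nat_lit 178399) (.g (nat_lit 1254) (.e (nat_lit 57684) (nat_lit 155) (.e (nat_lit 122914) (nat_lit 14) (.e (nat_lit 352272) (nat_lit 10) (.e (nat_lit 417811) (nat_lit 6) (.e (nat_lit 286747) (nat_lit 9) (.e (nat_lit 335991) (nat_lit 1) .nil)))))) (.g (nat_lit 5) .nil .nil)))) (.nd (nat_lit 6) 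
(.lf (nat_lit 178367) (.g (nat_lit 278) (.e (nat_lit 57683) (nat_lit 155) (.e (nat_lit 122917) (nat_lit 15) (.e (nat_lit 368384) (nat_lit 22) .nil))) .nil)) 
(.lf (nat_lit 178431) (.g (nat_lit 1023) (.e (nat_lit 57684) (nat_lit 155) (.e (nat_lit 122916) (nat_lit 14) (.e (nat_lit 360192) (nat_lit 13) (.e (nat_lit 442430) (nat_lit 24) (.e (nat_lit 229681) (nat_lit 244) (.e (nat_lit 171776) (nat_lit 62) .nil)))))) (.g (nat_lit 5) .nil .nil))))))))))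

noncomputable def tv2400 : DT := (.nd (nat_lit 0) (.nd (nat_lit 1) (.nd (nat_lit 2) (.nd (nat_lit 3) (.nd (nat_lit 4) (.nd (nat_lit 5) (.nd (nat_lit 6) 
(.lf (nat_lit 178432) (.g (nat_lit 632) (.e (nat_lit 57684) (nat_lit 155) (.e (nat_lit 122916) (nat_lit 14) (.e (nat_lit 352280) (nat_lit 20) .nil))) .nil)) 
(.lf (nat_lit 178496) (.g (nat_lit 3403) (.e (nat_lit 57684) (nat_lit 155) (.e (nat_lit 122919) (nat_lit 15) (.e (nat_lit 360450) (nat_lit 0) (.e (nat_lit 7122) (nat_lit 382) (.e (nat_lit 1222) (nat_lit 90) (.e (nat_lit 81948) (nat_lit 21) .nil)))))) (.g (nat_lit 6) .nil .nil)))) (.nd (nat_lit 6) 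
(.lf (nat_lit 178464) (.g (nat_lit 3122) (.e (nat_lit 57684) (nat_lit 155) (.e (nat_lit 122916) (nat_lit 14) (.e (nat_lit 352324) (nat_lit 26) (.e (nat_lit 147495) (nat_lit 11) (.e (nat_lit 24628) (nat_lit 9) (.e (nat_lit 336000) (nat_lit 1) .nil)))))) (.g (nat_lit 5) .nil .nil))) 
(.lf (nat_lit 178528) (.g (nat_lit 594) (.e (nat_lit 65280) (nat_lit 155) (.e (nat_lit 122917) (nat_lit 15) (.e (nat_lit 360452) (nat_lit 0) .nil))) .nil)))) (.nd (nat_lit 5) (.nd (nat_lit 6) 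
(.lf (nat_lit 178448) (.g (nat_lit 2536) (.e (nat_lit 57684) (nat_lit 155) (.e (nat_lit 122916) (nat_lit 14) (.e (nat_lit 352309) (nat_lit 21) (.e (nat_lit 57684) (nat_lit 155) (.e (nat_lit 122914) (nat_lit 14) .nil))))) .nil)) 
(.lf (nat_lit 178512) (.g (nat_lit 1569) (.e (nat_lit 57684) (nat_lit 155) (.e (nat_lit 122919) (nat_lit 15) (.e (nat_lit 360452) (nat_lit 0) (.e (nat_lit 7147) (nat_lit 382) (.e (nat_lit 1216) (nat_lit 90) .nil))))) .nil))) (.nd (nat_lit 6) 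
(.lf (nat_lit 178480) (.g (nat_lit 1291) (.e (nat_lit 57684) (nat_lit 155) (.e (nat_lit 122917) (nat_lit 15) (.e (nat_lit 360489) (nat_lit 21) (.e (nat_lit 770054) (nat_lit 5) (.e (nat_lit 1615) (nat_lit 113) .nil))))) .nil)) 
(.lf (nat_lit 178544) (.g (nat_lit 292) (.e (nat_lit 57685) (nat_lit 156) (.e (nat_lit 163884) (nat_lit 5) (.e (nat_lit 229120) (nat_lit 17) .nil))) .nil))))) (.nd (nat_lit 4) (.nd (nat_lit 5) (.nd (nat_lit 6) 
(.lf (nat_lit 178440) (.g (nat_lit 1973) (.e (nat_lit 57684) (nat_lit 155) (.e (nat_lit 122916) (nat_lit 14) (.e (nat_lit 352309) (nat_lit 21) (.e (nat_lit 57651) (nat_lit 152) (.e (nat_lit 1217) (nat_lit 90) .nil))))) .nil)) 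
(.lf (nat_lit 178504) (.g (nat_lit 1883) (.e (nat_lit 57684) (nat_lit 155) (.e (nat_lit 122919) (nat_lit 15) (.e (nat_lit 360451) (nat_lit 0) (.e (nat_lit 7124) (nat_lit 382) (.e (nat_lit 7936) (nat_lit 90) .nil))))) .nil))) (.nd (nat_lit 6) 
(.lf (nat_lit 178472) (.g (nat_lit 1537) (.e (nat_lit 57684) (nat_lit 155) (.e (nat_lit 122917) (nat_lit 15) (.e (nat_lit 360449) (nat_lit 0) (.e (nat_lit 7125) (nat_lit 382) (.e (nat_lit 1223) (nat_lit 90) .nil))))) .nil)) 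
(.lf (nat_lit 178536) (.g (nat_lit 2504) (.e (nat_lit 57685) (nat_lit 156) (.e (nat_lit 163874) (nat_lit 3) (.e (nat_lit 204837) (nat_lit 20) (.e (nat_lit 114714) (nat_lit 22) (.e (nat_lit 90172) (nat_lit 14) .nil))))) .nil)))) (.nd (nat_lit 5) (.nd (nat_lit 6) 
(.lf (nat_lit 178456) (.g (nat_lit 740) (.e (nat_lit 57684) (nat_lit 155) (.e (nat_lit 122916) (nat_lit 14) (.e (nat_lit 352323) (nat_lit 26) (.e (nat_lit 147465) (nat_lit 9) .nil)))) .nil)) 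
(.lf (nat_lit 178520) (.g (nat_lit 1585) (.e (nat_lit 57684) (nat_lit 155) (.e (nat_lit 122919) (nat_lit 15) (.e (nat_lit 360491) (nat_lit 22) (.e (nat_lit 778466) (nat_lit 11) (.e (nat_lit 24634) (nat_lit 9) (.e (nat_lit 335991) (nat_lit 1) .nil)))))) (.g (nat_lit 0) .nil .nil)))) (.nd (nat_lit 6) 
(.lf (nat_lit 178488) (.g (nat_lit 2304) (.e (nat_lit 57684) (nat_lit 155) (.e (nat_lit 122917) (nat_lit 15) (.e (nat_lit 360492) (nat_lit 22) (.e (nat_lit 778362) (nat_lit 9) (.e (nat_lit 334) (nat_lit 26) (.e (nat_lit 376857) (nat_lit 21) .nil)))))) (.g (nat_lit 0) .nil .nil))) 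
(.lf (nat_lit 178552) (.g (nat_lit 2385) (.e (nat_lit 57685) (nat_lit 156) (.e (nat_lit 163905) (nat_lit 12) (.e (nat_lit 426566) (nat_lit 34) (.e (nat_lit 393273) (nat_lit 23) .nil)))) .nil)))))) (.nd (nat_lit 3) (.nd (nat_lit 4) (.nd (nat_lit 5) (.nd (nat_lit 6) 
(.lf (nat_lit 178436) (.g (nat_lit 1377) (.e (nat_lit 57684) (nat_lit 155) (.e (nat_lit 122916) (nat_lit 14) (.e (nat_lit 352307) (nat_lit 21) (.e (nat_lit 57654) (nat_lit 152) .nil)))) .nil)) 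
(.lf (nat_lit 178500) (.g (nat_lit 1732) (.e (nat_lit 57684) (nat_lit 155) (.e (nat_lit 122919) (nat_lit 15) (.e (nat_lit 360450) (nat_lit 0) (.e (nat_lit 7220) (nat_lit 382) .nil)))) .nil))) (.nd (nat_lit 6) 
(.lf (nat_lit 178468) (.g (nat_lit 2113) (.e (nat_lit 57684) (nat_lit 155) (.e (nat_lit 122916) (nat_lit 14) (.e (nat_lit 352324) (nat_lit 26) (.e (nat_lit 147496) (nat_lit 11) (.e (nat_lit 24638) (nat_lit 9) (.e (nat_lit 335986) (nat_lit 1) .nil)))))) (.g (nat_lit 4) .nil .nil))) 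
(.lf (nat_lit 178532) (.g (nat_lit 1448) (.e (nat_lit 57685) (nat_lit 156) (.e (nat_lit 163871) (nat_lit 2) (.e (nat_lit 196624) (nat_lit 9) (.e (nat_lit 1277) (nat_lit 94) .nil)))) .nil)))) (.nd (nat_lit 5) (.nd (nat_lit 6) 
(.lf (nat_lit 178452) (.g (nat_lit 2008) (.e (nat_lit 57684) (nat_lit 155) (.e (nat_lit 122916) (nat_lit 14) (.e (nat_lit 352322) (nat_lit 26) (.e (nat_lit 147495) (nat_lit 11) (.e (nat_lit 24634) (nat_lit 9) (.e (nat_lit 335991) (nat_lit 1) .nil)))))) (.g (nat_lit 4) .nil .nil))) 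
(.lf (nat_lit 178516) (.g (nat_lit 2702) (.e (nat_lit 57684) (nat_lit 155) (.e (nat_lit 122919) (nat_lit 15) (.e (nat_lit 360491) (nat_lit 22) (.e (nat_lit 778362) (nat_lit 9) (.e (nat_lit 314) (nat_lit 23) (.e (nat_lit 352307) (nat_lit 21) .nil)))))) (.g (nat_lit 0) .nil .nil)))) (.nd (nat_lit 6) 
(.lf (nat_lit 178484) (.g (nat_lit 1681) (.e (nat_lit 57684) (nat_lit 155) (.e (nat_lit 122917) (nat_lit 15) (.e (nat_lit 360491) (nat_lit 22) (.e (nat_lit 778466) (nat_lit 11) (.e (nat_lit 24634) (nat_lit 9) (.e (nat_lit 335991) (nat_lit 1) .nil)))))) (.g (nat_lit 0) .nil .nil))) 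
(.lf (nat_lit 178548) (.g (nat_lit 2826) (.e (nat_lit 57685) (nat_lit 156) (.e (nat_lit 163902) (nat_lit 12) (.e (nat_lit 426566) (nat_lit 34) (.e (nat_lit 393287) (nat_lit 25) .nil)))) .nil))))) (.nd (nat_lit 4) (.nd (nat_lit 5) (.nd (nat_lit 6) 
(.lf (nat_lit 178444) (.g (nat_lit 1508) (.e (nat_lit 57684) (nat_lit 155) (.e (nat_lit 122916) (nat_lit 14) (.e (nat_lit 352309) (nat_lit 21) (.e (nat_lit 57660) (nat_lit 152) (.e (nat_lit 7936) (nat_lit 90) .nil))))) .nil)) 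
(.lf (nat_lit 178508) (.g (nat_lit 1735) (.e (nat_lit 57684) (nat_lit 155) (.e (nat_lit 122919) (nat_lit 15) (.e (nat_lit 360451) (nat_lit 0) (.e (nat_lit 7263) (nat_lit 384) .nil)))) .nil))) (.nd (nat_lit 6) 
(.lf (nat_lit 178476) (.g (nat_lit 2014) (.e (nat_lit 57684) (nat_lit 155) (.e (nat_lit 122917) (nat_lit 15) (.e (nat_lit 360451) (nat_lit 0) (.e (nat_lit 7265) (nat_lit 384) (.e (nat_lit 57436) (nat_lit 17) .nil))))) .nil)) 
(.lf (nat_lit 178540) (.g (nat_lit 2065) (.e (nat_lit 57685) (nat_lit 156) (.e (nat_lit 163875) (nat_lit 3) (.e (nat_lit 204837) (nat_lit 20) (.e (nat_lit 114716) (nat_lit 22) (.e (nat_lit 90173) (nat_lit 14) .nil))))) .nil)))) (.nd (nat_lit 5) (.nd (nat_lit 6) 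
(.lf (nat_lit 178460) (.g (nat_lit 1409) (.e (nat_lit 57684) (nat_lit 155) (.e (nat_lit 122916) (nat_lit 14) (.e (nat_lit 352324) (nat_lit 26) (.e (nat_lit 147492) (nat_lit 11) .nil)))) .nil)) 
(.lf (nat_lit 178524) (.g (nat_lit 2385) (.e (nat_lit 57684) (nat_lit 155) (.e (nat_lit 122919) (nat_lit 15) (.e (nat_lit 360492) (nat_lit 22) (.e (nat_lit 778362) (nat_lit 9) (.e (nat_lit 334) (nat_lit 26) (.e (nat_lit 376859) (nat_lit 21) .nil)))))) (.g (nat_lit 0) .nil .nil)))) (.nd (nat_lit 6) 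
(.lf (nat_lit 178492) (.g (nat_lit 506) (.e (nat_lit 57684) (nat_lit 155) (.e (nat_lit 122919) (nat_lit 15) (.e (nat_lit 360449) (nat_lit 0) .nil))) .nil)) 
(.lf (nat_lit 178556) (.g (nat_lit 1739) (.e (nat_lit 57685) (nat_lit 156) (.e (nat_lit 163907) (nat_lit 12) (.e (nat_lit 426438) (nat_lit 18) (.e (nat_lit 98380) (nat_lit 31) .nil)))) .nil))))))) (.nd (nat_lit 2) (.nd (nat_lit 3) (.nd (nat_lit 4) (.nd (nat_lit 5) (.nd (nat_lit 6) 
(.lf (nat_lit 178434) (.g (nat_lit 645) (.e (nat_lit 57684) (nat_lit 155) (.e (nat_lit 122916) (nat_lit 14) (.e (nat_lit 352296) (nat_lit 20) .nil))) .nil)) 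
(.lf (nat_lit 178498) (.g (nat_lit 1475) (.e (nat_lit 57684) (nat_lit 155) (.e (nat_lit 122919) (nat_lit 15) (.e (nat_lit 360450) (nat_lit 0) (.e (nat_lit 7125) (nat_lit 382) .nil)))) .nil))) (.nd (nat_lit 6) 
(.lf (nat_lit 178466) (.g (nat_lit 2560) (.e (nat_lit 57684) (nat_lit 155) (.e (nat_lit 122916) (nat_lit 14) (.e (nat_lit 352324) (nat_lit 26) (.e (nat_lit 147496) (nat_lit 11) (.e (nat_lit 24628) (nat_lit 9) (.e (nat_lit 336000) (nat_lit 1) .nil)))))) (.g (nat_lit 5) .nil .nil))) 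
(.lf (nat_lit 178530) (.g (nat_lit 861) (.e (nat_lit 57685) (nat_lit 156) (.e (nat_lit 163867) (nat_lit 2) (.e (nat_lit 196635) (nat_lit 9) .nil))) .nil)))) (.nd (nat_lit 5) (.nd (nat_lit 6) 
(.lf (nat_lit 178450) (.g (nat_lit 633) (.e (nat_lit 57684) (nat_lit 155) (.e (nat_lit 122916) (nat_lit 14) (.e (nat_lit 352318) (nat_lit 24) .nil))) .nil)) 
(.lf (nat_lit 178514) (.g (nat_lit 381) (.e (nat_lit 57684) (nat_lit 155) (.e (nat_lit 122919) (nat_lit 15) (.e (nat_lit 368384) (nat_lit 0) .nil))) .nil))) (.nd (nat_lit 6) 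
(.lf (nat_lit 178482) (.g (nat_lit 2517) (.e (nat_lit 57684) (nat_lit 155) (.e (nat_lit 122917) (nat_lit 15) (.e (nat_lit 360491) (nat_lit 22) (.e (nat_lit 778362) (nat_lit 9) (.e (nat_lit 334) (nat_lit 26) (.e (nat_lit 376857) (nat_lit 21) .nil)))))) (.g (nat_lit 0) .nil .nil))) 
(.lf (nat_lit 178546) (.g (nat_lit 925) (.e (nat_lit 57685) (nat_lit 156) (.e (nat_lit 163900) (nat_lit 12) (.e (nat_lit 426568) (nat_lit 34) (.e (nat_lit 393286) (nat_lit 25) .nil)))) .nil))))) (.nd (nat_lit 4) (.nd (nat_lit 5) (.nd (nat_lit 6) 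
(.lf (nat_lit 178442) (.g (nat_lit 1812) (.e (nat_lit 57684) (nat_lit 155) (.e (nat_lit 122916) (nat_lit 14) (.e (nat_lit 352309) (nat_lit 21) (.e (nat_lit 57653) (nat_lit 152) (.e (nat_lit 1217) (nat_lit 90) .nil))))) .nil)) 
(.lf (nat_lit 178506) (.g (nat_lit 2116) (.e (nat_lit 57684) (nat_lit 155) (.e (nat_lit 122919) (nat_lit 15) (.e (nat_lit 360451) (nat_lit 0) (.e (nat_lit 7125) (nat_lit 382) (.e (nat_lit 1223) (nat_lit 90) (.e (nat_lit 81950) (nat_lit 21) .nil)))))) (.g (nat_lit 4) .nil .nil)))) (.nd (nat_lit 6) 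
(.lf (nat_lit 178474) (.g (nat_lit 640) (.e (nat_lit 57684) (nat_lit 155) (.e (nat_lit 122917) (nat_lit 15) (.e (nat_lit 360451) (nat_lit 0) .nil))) .nil)) 
(.lf (nat_lit 178538) (.g (nat_lit 2109) (.e (nat_lit 57685) (nat_lit 156) (.e (nat_lit 163874) (nat_lit 3) (.e (nat_lit 204838) (nat_lit 20) (.e (nat_lit 114716) (nat_lit 22) (.e (nat_lit 90172) (nat_lit 14) .nil))))) .nil)))) (.nd (nat_lit 5) (.nd (nat_lit 6) 
(.lf (nat_lit 178458) (.g (nat_lit 471) (.e (nat_lit 57684) (nat_lit 155) (.e (nat_lit 122916) (nat_lit 14) (.e (nat_lit 352324) (nat_lit 26) .nil))) .nil)) 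
(.lf (nat_lit 178522) (.g (nat_lit 2674) (.e (nat_lit 57684) (nat_lit 155) (.e (nat_lit 122919) (nat_lit 15) (.e (nat_lit 360492) (nat_lit 22) (.e (nat_lit 778362) (nat_lit 9) (.e (nat_lit 314) (nat_lit 23) (.e (nat_lit 352307) (nat_lit 21) .nil)))))) (.g (nat_lit 0) .nil .nil)))) (.nd (nat_lit 6) 
(.lf (nat_lit 178490) (.g (nat_lit 1501) (.e (nat_lit 57684) (nat_lit 155) (.e (nat_lit 122917) (nat_lit 15) (.e (nat_lit 360492) (nat_lit 22) (.e (nat_lit 778466) (nat_lit 11) (.e (nat_lit 24634) (nat_lit 9) (.e (nat_lit 335991) (nat_lit 1) .nil)))))) (.g (nat_lit 0) .nil .nil))) 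
(.lf (nat_lit 178554) (.g (nat_lit 2004) (.e (nat_lit 57685) (nat_lit 156) (.e (nat_lit 163905) (nat_lit 12) (.e (nat_lit 426568) (nat_lit 34) (.e (nat_lit 393284) (nat_lit 24) (.e (nat_lit 434233) (nat_lit 23) .nil))))) .nil)))))) (.nd (nat_lit 3) (.nd (nat_lit 4) (.nd (nat_lit 5) (.nd (nat_lit 6) 
(.lf (nat_lit 178438) (.g (nat_lit 341) (.e (nat_lit 57684) (nat_lit 155) (.e (nat_lit 122916) (nat_lit 14) (.e (nat_lit 352309) (nat_lit 21) .nil))) .nil)) 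
(.lf (nat_lit 178502) (.g (nat_lit 2507) (.e (nat_lit 57684) (nat_lit 155) (.e (nat_lit 122919) (nat_lit 15) (.e (nat_lit 360451) (nat_lit 0) (.e (nat_lit 7122) (nat_lit 382) (.e (nat_lit 7936) (nat_lit 90) (.e (nat_lit 81948) (nat_lit 21) .nil)))))) (.g (nat_lit 4) .nil .nil)))) (.nd (nat_lit 6) 
(.lf (nat_lit 178470) (.g (nat_lit 1270) (.e (nat_lit 57684) (nat_lit 155) (.e (nat_lit 122917) (nat_lit 15) (.e (nat_lit 360449) (nat_lit 0) (.e (nat_lit 7119) (nat_lit 382) (.e (nat_lit 7936) (nat_lit 90) .nil))))) .nil)) 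
(.lf (nat_lit 178534) (.g (nat_lit 1991) (.e (nat_lit 57685) (nat_lit 156) (.e (nat_lit 163873) (nat_lit 3) (.e (nat_lit 204838) (nat_lit 20) (.e (nat_lit 114716) (nat_lit 22) (.e (nat_lit 90185) (nat_lit 17) .nil))))) .nil)))) (.nd (nat_lit 5) (.nd (nat_lit 6) 
(.lf (nat_lit 178454) (.g (nat_lit 2238) (.e (nat_lit 57684) (nat_lit 155) (.e (nat_lit 122916) (nat_lit 14) (.e (nat_lit 352322) (nat_lit 26) (.e (nat_lit 147496) (nat_lit 11) (.e (nat_lit 24634) (nat_lit 9) (.e (nat_lit 335991) (nat_lit 1) .nil)))))) (.g (nat_lit 5) .nil .nil))) 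
(.lf (nat_lit 178518) (.g (nat_lit 2399) (.e (nat_lit 57684) (nat_lit 155) (.e (nat_lit 122919) (nat_lit 15) (.e (nat_lit 360491) (nat_lit 22) (.e (nat_lit 778362) (nat_lit 9) (.e (nat_lit 334) (nat_lit 26) (.e (nat_lit 376857) (nat_lit 21) .nil)))))) (.g (nat_lit 0) .nil .nil)))) (.nd (nat_lit 6) 
(.lf (nat_lit 178486) (.g (nat_lit 1195) (.e (nat_lit 57684) (nat_lit 155) (.e (nat_lit 122917) (nat_lit 15) (.e (nat_lit 360492) (nat_lit 22) (.e (nat_lit 778361) (nat_lit 9) (.e (nat_lit 334) (nat_lit 26) .nil))))) .nil)) 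
(.lf (nat_lit 178550) (.g (nat_lit 1129) (.e (nat_lit 57685) (nat_lit 156) (.e (nat_lit 163905) (nat_lit 12) (.e (nat_lit 426438) (nat_lit 18) (.e (nat_lit 98381) (nat_lit 31) .nil)))) .nil))))) (.nd (nat_lit 4) (.nd (nat_lit 5) (.nd (nat_lit 6) 
(.lf (nat_lit 178446) (.g (nat_lit 1824) (.e (nat_lit 57684) (nat_lit 155) (.e (nat_lit 122916) (nat_lit 14) (.e (nat_lit 352309) (nat_lit 21) (.e (nat_lit 57666) (nat_lit 152) .nil)))) .nil)) 
(.lf (nat_lit 178510) (.g (nat_lit 1604) (.e (nat_lit 57684) (nat_lit 155) (.e (nat_lit 122919) (nat_lit 15) (.e (nat_lit 360451) (nat_lit 0) (.e (nat_lit 7266) (nat_lit 384) .nil)))) .nil))) (.nd (nat_lit 6) 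
(.lf (nat_lit 178478) (.g (nat_lit 435) (.e (nat_lit 57684) (nat_lit 155) (.e (nat_lit 122917) (nat_lit 15) (.e (nat_lit 368384) (nat_lit 0) .nil))) .nil)) 
(.lf (nat_lit 178542) (.g (nat_lit 2210) (.e (nat_lit 57685) (nat_lit 156) (.e (nat_lit 163875) (nat_lit 3) (.e (nat_lit 204838) (nat_lit 20) (.e (nat_lit 114716) (nat_lit 22) (.e (nat_lit 90173) (nat_lit 14) .nil))))) .nil)))) (.nd (nat_lit 5) (.nd (nat_lit 6) 
(.lf (nat_lit 178462) (.g (nat_lit 1875) (.e (nat_lit 57684) (nat_lit 155) (.e (nat_lit 122916) (nat_lit 14) (.e (nat_lit 352324) (nat_lit 26) (.e (nat_lit 147494) (nat_lit 11) (.e (nat_lit 24628) (nat_lit 9) (.e (nat_lit 336000) (nat_lit 1) .nil)))))) (.g (nat_lit 4) .nil .nil))) 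
(.lf (nat_lit 178526) (.g (nat_lit 1549) (.e (nat_lit 57684) (nat_lit 155) (.e (nat_lit 122919) (nat_lit 15) (.e (nat_lit 360492) (nat_lit 22) (.e (nat_lit 778466) (nat_lit 11) (.e (nat_lit 24634) (nat_lit 9) (.e (nat_lit 335991) (nat_lit 1) .nil)))))) (.g (nat_lit 0) .nil .nil)))) (.nd (nat_lit 6) 
(.lf (nat_lit 178494) (.g (nat_lit 1721) (.e (nat_lit 57684) (nat_lit 155) (.e (nat_lit 122919) (nat_lit 15) (.e (nat_lit 360449) (nat_lit 0) (.e (nat_lit 7122) (nat_lit 382) (.e (nat_lit 7936) (nat_lit 90) .nil))))) .nil)) 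
(.lf (nat_lit 178558) (.g (nat_lit 1593) (.e (nat_lit 57685) (nat_lit 156) (.e (nat_lit 163907) (nat_lit 12) (.e (nat_lit 426568) (nat_lit 34) (.e (nat_lit 393279) (nat_lit 23) .nil)))) .nil)))))))) (.nd (nat_lit 1) (.nd (nat_lit 2) (.nd (nat_lit 3) (.nd (nat_lit 4) (.nd (nat_lit 5) (.nd (nat_lit 6) 
(.lf (nat_lit 178433) (.g (nat_lit 635) (.e (nat_lit 57684) (nat_lit 155) (.e (nat_lit 122916) (nat_lit 14) (.e (nat_lit 352283) (nat_lit 20) .nil))) .nil)) 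
(.lf (nat_lit 178497) (.g (nat_lit 1824) (.e (nat_lit 57684) (nat_lit 155) (.e (nat_lit 122919) (nat_lit 15) (.e (nat_lit 360450) (nat_lit 0) (.e (nat_lit 7124) (nat_lit 382) .nil)))) .nil))) (.nd (nat_lit 6) 
(.lf (nat_lit 178465) (.g (nat_lit 2015) (.e (nat_lit 57684) (nat_lit 155) (.e (nat_lit 122916) (nat_lit 14) (.e (nat_lit 352324) (nat_lit 26) (.e (nat_lit 147495) (nat_lit 11) (.e (nat_lit 24634) (nat_lit 9) .nil))))) .nil)) 
(.lf (nat_lit 178529) (.g (nat_lit 1573) (.e (nat_lit 57685) (nat_lit 156) (.e (nat_lit 163867) (nat_lit 2) (.e (nat_lit 196624) (nat_lit 9) (.e (nat_lit 1277) (nat_lit 94) .nil)))) .nil)))) (.nd (nat_lit 5) (.nd (nat_lit 6) 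
(.lf (nat_lit 178449) (.g (nat_lit 4418) (.e (nat_lit 57684) (nat_lit 155) (.e (nat_lit 122916) (nat_lit 14) (.e (nat_lit 352309) (nat_lit 21) (.e (nat_lit 57684) (nat_lit 155) (.e (nat_lit 122916) (nat_lit 14) (.e (nat_lit 352309) (nat_lit 21) .nil)))))) (.g (nat_lit 6) .nil .nil))) 
(.lf (nat_lit 178513) (.g (nat_lit 2320) (.e (nat_lit 57684) (nat_lit 155) (.e (nat_lit 122919) (nat_lit 15) (.e (nat_lit 360452) (nat_lit 0) (.e (nat_lit 7270) (nat_lit 385) (.e (nat_lit 122916) (nat_lit 14) (.e (nat_lit 352307) (nat_lit 21) .nil)))))) (.g (nat_lit 4) .nil .nil)))) (.nd (nat_lit 6) 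
(.lf (nat_lit 178481) (.g (nat_lit 429) (.e (nat_lit 57684) (nat_lit 155) (.e (nat_lit 122917) (nat_lit 15) (.e (nat_lit 360490) (nat_lit 22) .nil))) .nil)) 
(.lf (nat_lit 178545) (.g (nat_lit 181) (.e (nat_lit 57685) (nat_lit 156) (.e (nat_lit 163886) (nat_lit 5) (.e (nat_lit 229120) (nat_lit 17) .nil))) .nil))))) (.nd (nat_lit 4) (.nd (nat_lit 5) (.nd (nat_lit 6) 
(.lf (nat_lit 178441) (.g (nat_lit 1844) (.e (nat_lit 57684) (nat_lit 155) (.e (nat_lit 122916) (nat_lit 14) (.e (nat_lit 352309) (nat_lit 21) (.e (nat_lit 57652) (nat_lit 152) .nil)))) .nil)) 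
(.lf (nat_lit 178505) (.g (nat_lit 3851) (.e (nat_lit 57684) (nat_lit 155) (.e (nat_lit 122919) (nat_lit 15) (.e (nat_lit 360451) (nat_lit 0) (.e (nat_lit 7125) (nat_lit 382) (.e (nat_lit 1222) (nat_lit 90) (.e (nat_lit 81948) (nat_lit 21) .nil)))))) (.g (nat_lit 0) .nil .nil)))) (.nd (nat_lit 6) 
(.lf (nat_lit 178473) (.g (nat_lit 635) (.e (nat_lit 57684) (nat_lit 155) (.e (nat_lit 122917) (nat_lit 15) (.e (nat_lit 360450) (nat_lit 0) .nil))) .nil)) 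
(.lf (nat_lit 178537) (.g (nat_lit 2206) (.e (nat_lit 57685) (nat_lit 156) (.e (nat_lit 163874) (nat_lit 3) (.e (nat_lit 204838) (nat_lit 20) (.e (nat_lit 114714) (nat_lit 22) (.e (nat_lit 90170) (nat_lit 13) .nil))))) .nil)))) (.nd (nat_lit 5) (.nd (nat_lit 6) 
(.lf (nat_lit 178457) (.g (nat_lit 1563) (.e (nat_lit 57684) (nat_lit 155) (.e (nat_lit 122916) (nat_lit 14) (.e (nat_lit 352323) (nat_lit 26) (.e (nat_lit 147496) (nat_lit 11) (.e (nat_lit 24636) (nat_lit 9) .nil))))) .nil)) 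
(.lf (nat_lit 178521) (.g (nat_lit 1156) (.e (nat_lit 57684) (nat_lit 155) (.e (nat_lit 122919) (nat_lit 15) (.e (nat_lit 360492) (nat_lit 22) (.e (nat_lit 778361) (nat_lit 9) (.e (nat_lit 334) (nat_lit 26) .nil))))) .nil))) (.nd (nat_lit 6) 
(.lf (nat_lit 178489) (.g (nat_lit 2320) (.e (nat_lit 57684) (nat_lit 155) (.e (nat_lit 122917) (nat_lit 15) (.e (nat_lit 360492) (nat_lit 22) (.e (nat_lit 778362) (nat_lit 9) (.e (nat_lit 334) (nat_lit 26) (.e (nat_lit 376859) (nat_lit 21) .nil)))))) (.g (nat_lit 0) .nil .nil))) 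
(.lf (nat_lit 178553) (.g (nat_lit 1351) (.e (nat_lit 57685) (nat_lit 156) (.e (nat_lit 163905) (nat_lit 12) (.e (nat_lit 426568) (nat_lit 34) (.e (nat_lit 393279) (nat_lit 23) (.e (nat_lit 426129) (nat_lit 3) .nil))))) .nil)))))) (.nd (nat_lit 3) (.nd (nat_lit 4) (.nd (nat_lit 5) (.nd (nat_lit 6) 
(.lf (nat_lit 178437) (.g (nat_lit 600) (.e (nat_lit 57684) (nat_lit 155) (.e (nat_lit 122916) (nat_lit 14) (.e (nat_lit 352308) (nat_lit 21) .nil))) .nil)) 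
(.lf (nat_lit 178501) (.g (nat_lit 1660) (.e (nat_lit 57684) (nat_lit 155) (.e (nat_lit 122919) (nat_lit 15) (.e (nat_lit 360451) (nat_lit 0) (.e (nat_lit 7119) (nat_lit 382) (.e (nat_lit 7936) (nat_lit 96) .nil))))) .nil))) (.nd (nat_lit 6) 
(.lf (nat_lit 178469) (.g (nat_lit 309) (.e (nat_lit 57684) (nat_lit 155) (.e (nat_lit 122917) (nat_lit 15) (.e (nat_lit 360449) (nat_lit 0) .nil))) .nil)) 
(.lf (nat_lit 178533) (.g (nat_lit 2401) (.e (nat_lit 57685) (nat_lit 156) (.e (nat_lit 163873) (nat_lit 3) (.e (nat_lit 204838) (nat_lit 20) (.e (nat_lit 114714) (nat_lit 22) (.e (nat_lit 90170) (nat_lit 13) .nil))))) .nil)))) (.nd (nat_lit 5) (.nd (nat_lit 6) 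
(.lf (nat_lit 178453) (.g (nat_lit 2684) (.e (nat_lit 57684) (nat_lit 155) (.e (nat_lit 122916) (nat_lit 14) (.e (nat_lit 352322) (nat_lit 26) (.e (nat_lit 147496) (nat_lit 11) (.e (nat_lit 24628) (nat_lit 9) (.e (nat_lit 336000) (nat_lit 1) .nil)))))) (.g (nat_lit 5) .nil .nil))) 
(.lf (nat_lit 178517) (.g (nat_lit 2940) (.e (nat_lit 57684) (nat_lit 155) (.e (nat_lit 122919) (nat_lit 15) (.e (nat_lit 360491) (nat_lit 22) (.e (nat_lit 778362) (nat_lit 9) (.e (nat_lit 314) (nat_lit 23) (.e (nat_lit 352309) (nat_lit 21) .nil)))))) (.g (nat_lit 0) .nil .nil)))) (.nd (nat_lit 6) 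
(.lf (nat_lit 178485) (.g (nat_lit 337) (.e (nat_lit 57684) (nat_lit 155) (.e (nat_lit 122917) (nat_lit 15) (.e (nat_lit 360492) (nat_lit 22) .nil))) .nil)) 
(.lf (nat_lit 178549) (.g (nat_lit 1326) (.e (nat_lit 57685) (nat_lit 156) (.e (nat_lit 163903) (nat_lit 12) (.e (nat_lit 426568) (nat_lit 34) (.e (nat_lit 393279) (nat_lit 23) .nil)))) .nil))))) (.nd (nat_lit 4) (.nd (nat_lit 5) (.nd (nat_lit 6) 
(.lf (nat_lit 178445) (.g (nat_lit 2203) (.e (nat_lit 57684) (nat_lit 155) (.e (nat_lit 122916) (nat_lit 14) (.e (nat_lit 352309) (nat_lit 21) (.e (nat_lit 57665) (nat_lit 152) (.e (nat_lit 7936) (nat_lit 90) .nil))))) .nil)) 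
(.lf (nat_lit 178509) (.g (nat_lit 1226) (.e (nat_lit 57684) (nat_lit 155) (.e (nat_lit 122919) (nat_lit 15) (.e (nat_lit 360451) (nat_lit 0) (.e (nat_lit 7265) (nat_lit 384) .nil)))) .nil))) (.nd (nat_lit 6) 
(.lf (nat_lit 178477) (.g (nat_lit 1493) (.e (nat_lit 57684) (nat_lit 155) (.e (nat_lit 122917) (nat_lit 15) (.e (nat_lit 360453) (nat_lit 0) (.e (nat_lit 7272) (nat_lit 385) (.e (nat_lit 122915) (nat_lit 14) .nil))))) .nil)) 
(.lf (nat_lit 178541) (.g (nat_lit 1651) (.e (nat_lit 57685) (nat_lit 156) (.e (nat_lit 163875) (nat_lit 3) (.e (nat_lit 204837) (nat_lit 20) (.e (nat_lit 114716) (nat_lit 22) (.e (nat_lit 90185) (nat_lit 17) .nil))))) .nil)))) (.nd (nat_lit 5) (.nd (nat_lit 6) 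
(.lf (nat_lit 178461) (.g (nat_lit 1706) (.e (nat_lit 57684) (nat_lit 155) (.e (nat_lit 122916) (nat_lit 14) (.e (nat_lit 352324) (nat_lit 26) (.e (nat_lit 147492) (nat_lit 11) (.e (nat_lit 24628) (nat_lit 9) .nil))))) .nil)) 
(.lf (nat_lit 178525) (.g (nat_lit 1106) (.e (nat_lit 57684) (nat_lit 155) (.e (nat_lit 122919) (nat_lit 15) (.e (nat_lit 360492) (nat_lit 22) (.e (nat_lit 778466) (nat_lit 11) (.e (nat_lit 24632) (nat_lit 9) .nil))))) .nil))) (.nd (nat_lit 6) 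
(.lf (nat_lit 178493) (.g (nat_lit 2476) (.e (nat_lit 57684) (nat_lit 155) (.e (nat_lit 122919) (nat_lit 15) (.e (nat_lit 360449) (nat_lit 0) (.e (nat_lit 7122) (nat_lit 382) (.e (nat_lit 1222) (nat_lit 90) (.e (nat_lit 81948) (nat_lit 21) .nil)))))) (.g (nat_lit 5) .nil .nil))) 
(.lf (nat_lit 178557) (.g (nat_lit 1735) (.e (nat_lit 57685) (nat_lit 156) (.e (nat_lit 163907) (nat_lit 12) (.e (nat_lit 426438) (nat_lit 18) (.e (nat_lit 98381) (nat_lit 31) .nil)))) .nil))))))) (.nd (nat_lit 2) (.nd (nat_lit 3) (.nd (nat_lit 4) (.nd (nat_lit 5) (.nd (nat_lit 6) 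
(.lf (nat_lit 178435) (.g (nat_lit 567) (.e (nat_lit 57684) (nat_lit 155) (.e (nat_lit 122916) (nat_lit 14) (.e (nat_lit 352302) (nat_lit 20) .nil))) .nil)) 
(.lf (nat_lit 178499) (.g (nat_lit 1762) (.e (nat_lit 57684) (nat_lit 155) (.e (nat_lit 122919) (nat_lit 15) (.e (nat_lit 360450) (nat_lit 0) (.e (nat_lit 7128) (nat_lit 382) .nil)))) .nil))) (.nd (nat_lit 6) 
(.lf (nat_lit 178467) (.g (nat_lit 2123) (.e (nat_lit 57684) (nat_lit 155) (.e (nat_lit 122916) (nat_lit 14) (.e (nat_lit 352324) (nat_lit 26) (.e (nat_lit 147496) (nat_lit 11) (.e (nat_lit 24634) (nat_lit 9) (.e (nat_lit 335991) (nat_lit 1) .nil)))))) (.g (nat_lit 4) .nil .nil))) 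
(.lf (nat_lit 178531) (.g (nat_lit 1734) (.e (nat_lit 57685) (nat_lit 156) (.e (nat_lit 163868) (nat_lit 2) (.e (nat_lit 196624) (nat_lit 9) (.e (nat_lit 1277) (nat_lit 94) .nil)))) .nil)))) (.nd (nat_lit 5) (.nd (nat_lit 6) 
(.lf (nat_lit 178451) (.g (nat_lit 426) (.e (nat_lit 57684) (nat_lit 155) (.e (nat_lit 122916) (nat_lit 14) (.e (nat_lit 352322) (nat_lit 26) .nil))) .nil)) 
(.lf (nat_lit 178515) (.g (nat_lit 1032) (.e (nat_lit 57684) (nat_lit 155) (.e (nat_lit 122919) (nat_lit 15) (.e (nat_lit 360489) (nat_lit 21) (.e (nat_lit 770054) (nat_lit 5) (.e (nat_lit 1615) (nat_lit 113) .nil))))) .nil))) (.nd (nat_lit 6) 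
(.lf (nat_lit 178483) (.g (nat_lit 2529) (.e (nat_lit 57684) (nat_lit 155) (.e (nat_lit 122917) (nat_lit 15) (.e (nat_lit 360491) (nat_lit 22) (.e (nat_lit 778362) (nat_lit 9) (.e (nat_lit 334) (nat_lit 26) (.e (nat_lit 376859) (nat_lit 21) .nil)))))) (.g (nat_lit 0) .nil .nil))) 
(.lf (nat_lit 178547) (.g (nat_lit 2829) (.e (nat_lit 57685) (nat_lit 156) (.e (nat_lit 163902) (nat_lit 12) (.e (nat_lit 426566) (nat_lit 34) (.e (nat_lit 393286) (nat_lit 25) .nil)))) .nil))))) (.nd (nat_lit 4) (.nd (nat_lit 5) (.nd (nat_lit 6) 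
(.lf (nat_lit 178443) (.g (nat_lit 2032) (.e (nat_lit 57684) (nat_lit 155) (.e (nat_lit 122916) (nat_lit 14) (.e (nat_lit 352309) (nat_lit 21) (.e (nat_lit 57655) (nat_lit 152) (.e (nat_lit 1217) (nat_lit 90) .nil))))) .nil)) 
(.lf (nat_lit 178507) (.g (nat_lit 1746) (.e (nat_lit 57684) (nat_lit 155) (.e (nat_lit 122919) (nat_lit 15) (.e (nat_lit 360451) (nat_lit 0) (.e (nat_lit 7261) (nat_lit 384) (.e (nat_lit 57424) (nat_lit 14) .nil))))) .nil))) (.nd (nat_lit 6) 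
(.lf (nat_lit 178475) (.g (nat_lit 2905) (.e (nat_lit 57684) (nat_lit 155) (.e (nat_lit 122917) (nat_lit 15) (.e (nat_lit 360451) (nat_lit 0) (.e (nat_lit 7125) (nat_lit 382) (.e (nat_lit 1222) (nat_lit 90) (.e (nat_lit 81948) (nat_lit 21) .nil)))))) (.g (nat_lit 5) .nil .nil))) 
(.lf (nat_lit 178539) (.g (nat_lit 941) (.e (nat_lit 57685) (nat_lit 156) (.e (nat_lit 163875) (nat_lit 3) (.e (nat_lit 204817) (nat_lit 17) .nil))) .nil)))) (.nd (nat_lit 5) (.nd (nat_lit 6) 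
(.lf (nat_lit 178459) (.g (nat_lit 1220) (.e (nat_lit 57684) (nat_lit 155) (.e (nat_lit 122916) (nat_lit 14) (.e (nat_lit 352324) (nat_lit 26) (.e (nat_lit 147472) (nat_lit 9) .nil)))) .nil)) 
(.lf (nat_lit 178523) (.g (nat_lit 2373) (.e (nat_lit 57684) (nat_lit 155) (.e (nat_lit 122919) (nat_lit 15) (.e (nat_lit 360492) (nat_lit 22) (.e (nat_lit 778362) (nat_lit 9) (.e (nat_lit 334) (nat_lit 26) (.e (nat_lit 376857) (nat_lit 21) .nil)))))) (.g (nat_lit 0) .nil .nil)))) (.nd (nat_lit 6) 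
(.lf (nat_lit 178491) (.g (nat_lit 435) (.e (nat_lit 57684) (nat_lit 155) (.e (nat_lit 122917) (nat_lit 15) (.e (nat_lit 368384) (nat_lit 24) .nil))) .nil)) 
(.lf (nat_lit 178555) (.g (nat_lit 1164) (.e (nat_lit 57685) (nat_lit 156) (.e (nat_lit 163907) (nat_lit 12) (.e (nat_lit 426428) (nat_lit 17) .nil))) .nil)))))) (.nd (nat_lit 3) (.nd (nat_lit 4) (.nd (nat_lit 5) (.nd (nat_lit 6) 
(.lf (nat_lit 178439) (.g (nat_lit 1973) (.e (nat_lit 57684) (nat_lit 155) (.e (nat_lit 122916) (nat_lit 14) (.e (nat_lit 352309) (nat_lit 21) (.e (nat_lit 57651) (nat_lit 152) (.e (nat_lit 1215) (nat_lit 90) .nil))))) .nil)) 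
(.lf (nat_lit 178503) (.g (nat_lit 3131) (.e (nat_lit 57684) (nat_lit 155) (.e (nat_lit 122919) (nat_lit 15) (.e (nat_lit 360451) (nat_lit 0) (.e (nat_lit 7124) (nat_lit 382) (.e (nat_lit 1222) (nat_lit 90) (.e (nat_lit 81948) (nat_lit 21) .nil)))))) (.g (nat_lit 6) .nil .nil)))) (.nd (nat_lit 6) 
(.lf (nat_lit 178471) (.g (nat_lit 1397) (.e (nat_lit 57684) (nat_lit 155) (.e (nat_lit 122917) (nat_lit 15) (.e (nat_lit 360449) (nat_lit 0) (.e (nat_lit 7124) (nat_lit 382) (.e (nat_lit 7936) (nat_lit 90) .nil))))) .nil)) 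
(.lf (nat_lit 178535) (.g (nat_lit 2451) (.e (nat_lit 57685) (nat_lit 156) (.e (nat_lit 163874) (nat_lit 3) (.e (nat_lit 204837) (nat_lit 20) (.e (nat_lit 114714) (nat_lit 22) (.e (nat_lit 90170) (nat_lit 13) .nil))))) .nil)))) (.nd (nat_lit 5) (.nd (nat_lit 6) 
(.lf (nat_lit 178455) (.g (nat_lit 606) (.e (nat_lit 57684) (nat_lit 155) (.e (nat_lit 122916) (nat_lit 14) (.e (nat_lit 352323) (nat_lit 26) .nil))) .nil)) 
(.lf (nat_lit 178519) (.g (nat_lit 2413) (.e (nat_lit 57684) (nat_lit 155) (.e (nat_lit 122919) (nat_lit 15) (.e (nat_lit 360491) (nat_lit 22) (.e (nat_lit 778362) (nat_lit 9) (.e (nat_lit 334) (nat_lit 26) (.e (nat_lit 376859) (nat_lit 21) .nil)))))) (.g (nat_lit 0) .nil .nil)))) (.nd (nat_lit 6) 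
(.lf (nat_lit 178487) (.g (nat_lit 2826) (.e (nat_lit 57684) (nat_lit 155) (.e (nat_lit 122917) (nat_lit 15) (.e (nat_lit 360492) (nat_lit 22) (.e (nat_lit 778362) (nat_lit 9) (.e (nat_lit 314) (nat_lit 23) (.e (nat_lit 352309) (nat_lit 21) .nil)))))) (.g (nat_lit 0) .nil .nil))) 
(.lf (nat_lit 178551) (.g (nat_lit 2364) (.e (nat_lit 57685) (nat_lit 156) (.e (nat_lit 163905) (nat_lit 12) (.e (nat_lit 426566) (nat_lit 34) (.e (nat_lit 393272) (nat_lit 23) .nil)))) .nil))))) (.nd (nat_lit 4) (.nd (nat_lit 5) (.nd (nat_lit 6) 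
(.lf (nat_lit 178447) (.g (nat_lit 2104) (.e (nat_lit 57684) (nat_lit 155) (.e (nat_lit 122916) (nat_lit 14) (.e (nat_lit 352309) (nat_lit 21) (.e (nat_lit 57680) (nat_lit 155) (.e (nat_lit 122916) (nat_lit 14) .nil))))) .nil)) 
(.lf (nat_lit 178511) (.g (nat_lit 2533) (.e (nat_lit 57684) (nat_lit 155) (.e (nat_lit 122919) (nat_lit 15) (.e (nat_lit 360451) (nat_lit 0) (.e (nat_lit 7266) (nat_lit 384) (.e (nat_lit 57436) (nat_lit 17) (.e (nat_lit 376859) (nat_lit 21) .nil)))))) (.g (nat_lit 4) .nil .nil)))) (.nd (nat_lit 6) 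
(.lf (nat_lit 178479) (.g (nat_lit 816) (.e (nat_lit 57684) (nat_lit 155) (.e (nat_lit 122917) (nat_lit 15) (.e (nat_lit 360488) (nat_lit 20) (.e (nat_lit 769792) (nat_lit 10) .nil)))) .nil)) 
(.lf (nat_lit 178543) (.g (nat_lit 1944) (.e (nat_lit 57685) (nat_lit 156) (.e (nat_lit 163875) (nat_lit 3) (.e (nat_lit 204838) (nat_lit 20) (.e (nat_lit 114716) (nat_lit 22) (.e (nat_lit 90185) (nat_lit 17) .nil))))) .nil)))) (.nd (nat_lit 5) (.nd (nat_lit 6) 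
(.lf (nat_lit 178463) (.g (nat_lit 2349) (.e (nat_lit 57684) (nat_lit 155) (.e (nat_lit 122916) (nat_lit 14) (.e (nat_lit 352324) (nat_lit 26) (.e (nat_lit 147495) (nat_lit 11) (.e (nat_lit 24623) (nat_lit 9) (.e (nat_lit 335997) (nat_lit 1) .nil)))))) (.g (nat_lit 4) .nil .nil))) 
(.lf (nat_lit 178527) (.g (nat_lit 381) (.e (nat_lit 57684) (nat_lit 155) (.e (nat_lit 122919) (nat_lit 15) (.e (nat_lit 368384) (nat_lit 24) .nil))) .nil))) (.nd (nat_lit 6) 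
(.lf (nat_lit 178495) (.g (nat_lit 1479) (.e (nat_lit 57684) (nat_lit 155) (.e (nat_lit 122919) (nat_lit 15) (.e (nat_lit 360450) (nat_lit 0) (.e (nat_lit 7119) (nat_lit 382) .nil)))) .nil)) 
(.lf (nat_lit 178559) (.g (nat_lit 2000) (.e (nat_lit 57685) (nat_lit 156) (.e (nat_lit 163907) (nat_lit 12) (.e (nat_lit 426568) (nat_lit 34) (.e (nat_lit 393283) (nat_lit 24) (.e (nat_lit 434232) (nat_lit 23) .nil))))) .nil)))))))))

noncomputable def tv2401 : DT := (.nd (nat_lit 0) (.nd (nat_lit 1) (.nd (nat_lit 2) (.nd (nat_lit 3) (.nd (nat_lit 4) (.nd (nat_lit 5) (.nd (nat_lit 6) 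
(.lf (nat_lit 178560) (.g (nat_lit 1915) (.e (nat_lit 57685) (nat_lit 156) (.e (nat_lit 163907) (nat_lit 12) (.e (nat_lit 426568) (nat_lit 34) (.e (nat_lit 393284) (nat_lit 24) .nil)))) .nil)) 
(.lf (nat_lit 178624) (.g (nat_lit 2748) (.e (nat_lit 57687) (nat_lit 156) (.e (nat_lit 163874) (nat_lit 3) (.e (nat_lit 204829) (nat_lit 18) (.e (nat_lit 57847) (nat_lit 252) (.e (nat_lit 57430) (nat_lit 16) .nil))))) .nil))) (.nd (nat_lit 6) 
(.lf (nat_lit 178592) (.g (nat_lit 1620) (.e (nat_lit 57686) (nat_lit 156) (.e (nat_lit 163902) (nat_lit 12) (.e (nat_lit 426434) (nat_lit 18) (.e (nat_lit 98370) (nat_lit 28) (.e (nat_lit 442390) (nat_lit 11) .nil))))) .nil)) 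
(.lf (nat_lit 178656) (.g (nat_lit 2237) (.e (nat_lit 57687) (nat_lit 156) (.e (nat_lit 163905) (nat_lit 12) (.e (nat_lit 426568) (nat_lit 34) (.e (nat_lit 393271) (nat_lit 23) (.e (nat_lit 426131) (nat_lit 3) .nil))))) .nil)))) (.nd (nat_lit 5) (.nd (nat_lit 6) 
(.lf (nat_lit 178576) (.g (nat_lit 2516) (.e (nat_lit 57686) (nat_lit 156) (.e (nat_lit 163875) (nat_lit 3) (.e (nat_lit 204829) (nat_lit 18) (.e (nat_lit 57847) (nat_lit 252) (.e (nat_lit 57430) (nat_lit 16) .nil))))) .nil)) 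
(.lf (nat_lit 178640) (.g (nat_lit 702) (.e (nat_lit 57687) (nat_lit 156) (.e (nat_lit 163903) (nat_lit 12) (.e (nat_lit 426428) (nat_lit 17) .nil))) .nil))) (.nd (nat_lit 6) 
(.lf (nat_lit 178608) (.g (nat_lit 1582) (.e (nat_lit 57686) (nat_lit 156) (.e (nat_lit 163903) (nat_lit 12) (.e (nat_lit 426568) (nat_lit 34) (.e (nat_lit 393285) (nat_lit 25) .nil)))) .nil)) 
(.lf (nat_lit 178672) (.g (nat_lit 1149) (.e (nat_lit 57688) (nat_lit 156) (.e (nat_lit 163868) (nat_lit 2) (.e (nat_lit 196691) (nat_lit 18) .nil))) .nil))))) (.nd (nat_lit 4) (.nd (nat_lit 5) (.nd (nat_lit 6) 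
(.lf (nat_lit 178568) (.g (nat_lit 1194) (.e (nat_lit 57686) (nat_lit 156) (.e (nat_lit 163868) (nat_lit 2) (.e (nat_lit 196638) (nat_lit 9) .nil))) .nil)) 
(.lf (nat_lit 178632) (.g (nat_lit 2343) (.e (nat_lit 57687) (nat_lit 156) (.e (nat_lit 163902) (nat_lit 12) (.e (nat_lit 426428) (nat_lit 17) (.e (nat_lit 90176) (nat_lit 15) (.e (nat_lit 188421) (nat_lit 11) .nil))))) .nil))) (.nd (nat_lit 6) 
(.lf (nat_lit 178600) (.g (nat_lit 485) (.e (nat_lit 57686) (nat_lit 156) (.e (nat_lit 163903) (nat_lit 12) (.e (nat_lit 426428) (nat_lit 17) .nil))) .nil)) 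
(.lf (nat_lit 178664) (.g (nat_lit 1794) (.e (nat_lit 57687) (nat_lit 156) (.e (nat_lit 163907) (nat_lit 12) (.e (nat_lit 426568) (nat_lit 34) (.e (nat_lit 393286) (nat_lit 25) .nil)))) .nil)))) (.nd (nat_lit 5) (.nd (nat_lit 6) 
(.lf (nat_lit 178584) (.g (nat_lit 1921) (.e (nat_lit 57686) (nat_lit 156) (.e (nat_lit 163875) (nat_lit 3) (.e (nat_lit 204838) (nat_lit 20) (.e (nat_lit 114716) (nat_lit 22) (.e (nat_lit 90185) (nat_lit 17) .nil))))) .nil)) 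
(.lf (nat_lit 178648) (.g (nat_lit 1385) (.e (nat_lit 57687) (nat_lit 156) (.e (nat_lit 163903) (nat_lit 12) (.e (nat_lit 426437) (nat_lit 18) (.e (nat_lit 98381) (nat_lit 31) (.e (nat_lit 466954) (nat_lit 11) .nil))))) .nil))) (.nd (nat_lit 6) 
(.lf (nat_lit 178616) (.g (nat_lit 1571) (.e (nat_lit 57687) (nat_lit 156) (.e (nat_lit 163867) (nat_lit 2) (.e (nat_lit 196624) (nat_lit 9) (.e (nat_lit 1277) (nat_lit 94) .nil)))) .nil)) 
(.lf (nat_lit 178680) (.g (nat_lit 5706) (.e (nat_lit 57688) (nat_lit 156) (.e (nat_lit 163873) (nat_lit 3) (.e (nat_lit 204829) (nat_lit 18) (.e (nat_lit 57847) (nat_lit 252) (.e (nat_lit 57411) (nat_lit 12) (.e (nat_lit 336019) (nat_lit 3) (.e (nat_lit 98356) (nat_lit 26) (.e (nat_lit 426422) (nat_lit 16) .nil)))))))) (.g (nat_lit 7) .nil .nil))))))) 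
(.nd (nat_lit 3) (.nd (nat_lit 4) (.nd (nat_lit 5) (.nd (nat_lit 6) 
(.lf (nat_lit 178564) (.g (nat_lit 1815) (.e (nat_lit 57686) (nat_lit 156) (.e (nat_lit 163868) (nat_lit 2) (.e (nat_lit 196624) (nat_lit 9) (.e (nat_lit 1276) (nat_lit 94) .nil)))) .nil)) 
(.lf (nat_lit 178628) (.g (nat_lit 1151) (.e (nat_lit 57687) (nat_lit 156) (.e (nat_lit 163874) (nat_lit 3) (.e (nat_lit 204831) (nat_lit 18) .nil))) .nil))) (.nd (nat_lit 6) 
(.lf (nat_lit 178596) (.g (nat_lit 2468) (.e (nat_lit 57686) (nat_lit 156) (.e (nat_lit 163902) (nat_lit 12) (.e (nat_lit 426566) (nat_lit 34) (.e (nat_lit 393287) (nat_lit 25) .nil)))) .nil)) 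
(.lf (nat_lit 178660) (.g (nat_lit 2660) (.e (nat_lit 57687) (nat_lit 156) (.e (nat_lit 163907) (nat_lit 12) (.e (nat_lit 426428) (nat_lit 17) (.e (nat_lit 90185) (nat_lit 17) (.e (nat_lit 237623) (nat_lit 13) .nil))))) .nil)))) (.nd (nat_lit 5) (.nd (nat_lit 6) 
(.lf (nat_lit 178580) (.g (nat_lit 2602) (.e (nat_lit 57686) (nat_lit 156) (.e (nat_lit 163875) (nat_lit 3) (.e (nat_lit 204830) (nat_lit 18) (.e (nat_lit 57852) (nat_lit 252) (.e (nat_lit 57417) (nat_lit 12) .nil))))) .nil)) 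
(.lf (nat_lit 178644) (.g (nat_lit 3000) (.e (nat_lit 57687) (nat_lit 156) (.e (nat_lit 163903) (nat_lit 12) (.e (nat_lit 426428) (nat_lit 17) (.e (nat_lit 90185) (nat_lit 17) (.e (nat_lit 237622) (nat_lit 13) .nil))))) .nil))) (.nd (nat_lit 6) 
(.lf (nat_lit 178612) (.g (nat_lit 1974) (.e (nat_lit 57686) (nat_lit 156) (.e (nat_lit 163907) (nat_lit 12) (.e (nat_lit 426428) (nat_lit 17) (.e (nat_lit 90176) (nat_lit 15) .nil)))) .nil)) 
(.lf (nat_lit 178676) (.g (nat_lit 818) (.e (nat_lit 57688) (nat_lit 156) (.e (nat_lit 163869) (nat_lit 2) (.e (nat_lit 196661) (nat_lit 12) .nil))) .nil))))) (.nd (nat_lit 4) (.nd (nat_lit 5) (.nd (nat_lit 6) 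
(.lf (nat_lit 178572) (.g (nat_lit 1646) (.e (nat_lit 57686) (nat_lit 156) (.e (nat_lit 163873) (nat_lit 3) (.e (nat_lit 204838) (nat_lit 20) (.e (nat_lit 114714) (nat_lit 22) .nil)))) .nil)) 
(.lf (nat_lit 178636) (.g (nat_lit 3012) (.e (nat_lit 57687) (nat_lit 156) (.e (nat_lit 163902) (nat_lit 12) (.e (nat_lit 426566) (nat_lit 34) (.e (nat_lit 393287) (nat_lit 25) .nil)))) .nil))) (.nd (nat_lit 6) 
(.lf (nat_lit 178604) (.g (nat_lit 1879) (.e (nat_lit 57686) (nat_lit 156) (.e (nat_lit 163903) (nat_lit 12) (.e (nat_lit 426566) (nat_lit 34) (.e (nat_lit 393271) (nat_lit 23) .nil)))) .nil)) 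
(.lf (nat_lit 178668) (.g (nat_lit 761) (.e (nat_lit 57688) (nat_lit 156) (.e (nat_lit 163867) (nat_lit 2) (.e (nat_lit 196651) (nat_lit 10) .nil))) .nil)))) (.nd (nat_lit 5) (.nd (nat_lit 6) 
(.lf (nat_lit 178588) (.g (nat_lit 1854) (.e (nat_lit 57686) (nat_lit 156) (.e (nat_lit 163902) (nat_lit 12) (.e (nat_lit 426428) (nat_lit 17) (.e (nat_lit 90170) (nat_lit 13) (.e (nat_lit 172095) (nat_lit 9) .nil))))) .nil)) 
(.lf (nat_lit 178652) (.g (nat_lit 1678) (.e (nat_lit 57687) (nat_lit 156) (.e (nat_lit 163903) (nat_lit 12) (.e (nat_lit 426568) (nat_lit 34) (.e (nat_lit 393284) (nat_lit 24) .nil)))) .nil))) (.nd (nat_lit 6) 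
(.lf (nat_lit 178620) (.g (nat_lit 2201) (.e (nat_lit 57687) (nat_lit 156) (.e (nat_lit 163873) (nat_lit 3) (.e (nat_lit 204837) (nat_lit 20) (.e (nat_lit 114714) (nat_lit 22) (.e (nat_lit 90174) (nat_lit 14) .nil))))) .nil)) 
(.lf (nat_lit 178684) (.g (nat_lit 2169) (.e (nat_lit 57688) (nat_lit 156) (.e (nat_lit 163873) (nat_lit 3) (.e (nat_lit 204837) (nat_lit 20) (.e (nat_lit 114716) (nat_lit 22) (.e (nat_lit 90173) (nat_lit 14) .nil))))) .nil))))))) (.nd (nat_lit 2) (.nd (nat_lit 3) (.nd (nat_lit 4) (.nd (nat_lit 5) (.nd (nat_lit 6) 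
(.lf (nat_lit 178562) (.g (nat_lit 1801) (.e (nat_lit 57686) (nat_lit 156) (.e (nat_lit 163867) (nat_lit 2) (.e (nat_lit 196624) (nat_lit 9) (.e (nat_lit 1276) (nat_lit 94) .nil)))) .nil)) 
(.lf (nat_lit 178626) (.g (nat_lit 2780) (.e (nat_lit 57687) (nat_lit 156) (.e (nat_lit 163874) (nat_lit 3) (.e (nat_lit 204830) (nat_lit 18) (.e (nat_lit 57830) (nat_lit 250) (.e (nat_lit 1214) (nat_lit 89) (.e (nat_lit 73746) (nat_lit 3) (.e (nat_lit 516146) (nat_lit 9) (.e (nat_lit 426422) (nat_lit 16) .nil)))))))) (.g (nat_lit 4) .nil .nil)))) (.nd (nat_lit 6) 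
(.lf (nat_lit 178594) (.g (nat_lit 3120) (.e (nat_lit 57686) (nat_lit 156) (.e (nat_lit 163902) (nat_lit 12) (.e (nat_lit 426566) (nat_lit 34) (.e (nat_lit 393282) (nat_lit 24) .nil)))) .nil)) 
(.lf (nat_lit 178658) (.g (nat_lit 1164) (.e (nat_lit 57687) (nat_lit 156) (.e (nat_lit 163907) (nat_lit 12) (.e (nat_lit 426428) (nat_lit 17) .nil))) .nil)))) (.nd (nat_lit 5) (.nd (nat_lit 6) 
(.lf (nat_lit 178578) (.g (nat_lit 1804) (.e (nat_lit 57686) (nat_lit 156) (.e (nat_lit 163875) (nat_lit 3) (.e (nat_lit 204830) (nat_lit 18) (.e (nat_lit 57830) (nat_lit 250) .nil)))) .nil)) 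
(.lf (nat_lit 178642) (.g (nat_lit 1699) (.e (nat_lit 57687) (nat_lit 156) (.e (nat_lit 163903) (nat_lit 12) (.e (nat_lit 426428) (nat_lit 17) (.e (nat_lit 90185) (nat_lit 17) .nil)))) .nil))) (.nd (nat_lit 6) 
(.lf (nat_lit 178610) (.g (nat_lit 2052) (.e (nat_lit 57686) (nat_lit 156) (.e (nat_lit 163905) (nat_lit 12) (.e (nat_lit 426428) (nat_lit 17) (.e (nat_lit 90178) (nat_lit 15) (.e (nat_lit 188421) (nat_lit 11) .nil))))) .nil)) 
(.lf (nat_lit 178674) (.g (nat_lit 1423) (.e (nat_lit 57688) (nat_lit 156) (.e (nat_lit 163869) (nat_lit 2) (.e (nat_lit 196624) (nat_lit 9) (.e (nat_lit 1277) (nat_lit 94) .nil)))) .nil))))) (.nd (nat_lit 4) (.nd (nat_lit 5) (.nd (nat_lit 6) 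
(.lf (nat_lit 178570) (.g (nat_lit 2640) (.e (nat_lit 57686) (nat_lit 156) (.e (nat_lit 163873) (nat_lit 3) (.e (nat_lit 204829) (nat_lit 18) (.e (nat_lit 57847) (nat_lit 252) (.e (nat_lit 57411) (nat_lit 12) .nil))))) .nil)) 
(.lf (nat_lit 178634) (.g (nat_lit 2882) (.e (nat_lit 57687) (nat_lit 156) (.e (nat_lit 163902) (nat_lit 12) (.e (nat_lit 426566) (nat_lit 34) (.e (nat_lit 393271) (nat_lit 23) .nil)))) .nil))) (.nd (nat_lit 6) 
(.lf (nat_lit 178602) (.g (nat_lit 2492) (.e (nat_lit 57686) (nat_lit 156) (.e (nat_lit 163903) (nat_lit 12) (.e (nat_lit 426428) (nat_lit 17) (.e (nat_lit 90185) (nat_lit 17) (.e (nat_lit 237622) (nat_lit 13) .nil))))) .nil)) 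
(.lf (nat_lit 178666) (.g (nat_lit 1194) (.e (nat_lit 57688) (nat_lit 156) (.e (nat_lit 163867) (nat_lit 2) (.e (nat_lit 196624) (nat_lit 9) (.e (nat_lit 1277) (nat_lit 94) .nil)))) .nil)))) (.nd (nat_lit 5) (.nd (nat_lit 6) 
(.lf (nat_lit 178586) (.g (nat_lit 488) (.e (nat_lit 57686) (nat_lit 156) (.e (nat_lit 163885) (nat_lit 5) (.e (nat_lit 229120) (nat_lit 17) .nil))) .nil)) 
(.lf (nat_lit 178650) (.g (nat_lit 1590) (.e (nat_lit 57687) (nat_lit 156) (.e (nat_lit 163903) (nat_lit 12) (.e (nat_lit 426568) (nat_lit 34) (.e (nat_lit 393277) (nat_lit 23) .nil)))) .nil))) (.nd (nat_lit 6) 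
(.lf (nat_lit 178618) (.g (nat_lit 2916) (.e (nat_lit 57687) (nat_lit 156) (.e (nat_lit 163873) (nat_lit 3) (.e (nat_lit 204829) (nat_lit 18) (.e (nat_lit 57847) (nat_lit 252) (.e (nat_lit 57430) (nat_lit 16) .nil))))) .nil)) 
(.lf (nat_lit 178682) (.g (nat_lit 2305) (.e (nat_lit 57688) (nat_lit 156) (.e (nat_lit 163873) (nat_lit 3) (.e (nat_lit 204837) (nat_lit 20) (.e (nat_lit 114714) (nat_lit 22) (.e (nat_lit 90168) (nat_lit 13) .nil))))) .nil)))))) (.nd (nat_lit 3) (.nd (nat_lit 4) (.nd (nat_lit 5) (.nd (nat_lit 6) 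
(.lf (nat_lit 178566) (.g (nat_lit 1198) (.e (nat_lit 57686) (nat_lit 156) (.e (nat_lit 163868) (nat_lit 2) (.e (nat_lit 196635) (nat_lit 9) .nil))) .nil)) 
(.lf (nat_lit 178630) (.g (nat_lit 2613) (.e (nat_lit 57687) (nat_lit 156) (.e (nat_lit 163875) (nat_lit 3) (.e (nat_lit 204838) (nat_lit 20) (.e (nat_lit 114714) (nat_lit 22) (.e (nat_lit 90172) (nat_lit 14) .nil))))) .nil))) (.nd (nat_lit 6) 
(.lf (nat_lit 178598) (.g (nat_lit 1281) (.e (nat_lit 57686) (nat_lit 156) (.e (nat_lit 163902) (nat_lit 12) (.e (nat_lit 426568) (nat_lit 34) (.e (nat_lit 393283) (nat_lit 24) .nil)))) .nil)) 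
(.lf (nat_lit 178662) (.g (nat_lit 2036) (.e (nat_lit 57687) (nat_lit 156) (.e (nat_lit 163907) (nat_lit 12) (.e (nat_lit 426438) (nat_lit 18) (.e (nat_lit 98381) (nat_lit 31) (.e (nat_lit 466954) (nat_lit 11) .nil))))) .nil)))) (.nd (nat_lit 5) (.nd (nat_lit 6) 
(.lf (nat_lit 178582) (.g (nat_lit 1337) (.e (nat_lit 57686) (nat_lit 156) (.e (nat_lit 163875) (nat_lit 3) (.e (nat_lit 204837) (nat_lit 20) (.e (nat_lit 114716) (nat_lit 22) .nil)))) .nil)) 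
(.lf (nat_lit 178646) (.g (nat_lit 660) (.e (nat_lit 57687) (nat_lit 156) (.e (nat_lit 163903) (nat_lit 12) (.e (nat_lit 426434) (nat_lit 18) .nil))) .nil))) (.nd (nat_lit 6) 
(.lf (nat_lit 178614) (.g (nat_lit 2534) (.e (nat_lit 57686) (nat_lit 156) (.e (nat_lit 163907) (nat_lit 12) (.e (nat_lit 426568) (nat_lit 34) (.e (nat_lit 393271) (nat_lit 23) (.e (nat_lit 426131) (nat_lit 3) .nil))))) .nil)) 
(.lf (nat_lit 178678) (.g (nat_lit 1719) (.e (nat_lit 57688) (nat_lit 156) (.e (nat_lit 163871) (nat_lit 2) (.e (nat_lit 196624) (nat_lit 9) (.e (nat_lit 1276) (nat_lit 94) .nil)))) .nil))))) (.nd (nat_lit 4) (.nd (nat_lit 5) (.nd (nat_lit 6) 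
(.lf (nat_lit 178574) (.g (nat_lit 2408) (.e (nat_lit 57686) (nat_lit 156) (.e (nat_lit 163874) (nat_lit 3) (.e (nat_lit 204837) (nat_lit 20) (.e (nat_lit 114714) (nat_lit 22) (.e (nat_lit 90174) (nat_lit 14) .nil))))) .nil)) 
(.lf (nat_lit 178638) (.g (nat_lit 1815) (.e (nat_lit 57687) (nat_lit 156) (.e (nat_lit 163902) (nat_lit 12) (.e (nat_lit 426568) (nat_lit 34) (.e (nat_lit 393283) (nat_lit 24) (.e (nat_lit 434234) (nat_lit 23) .nil))))) .nil))) (.nd (nat_lit 6) 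
(.lf (nat_lit 178606) (.g (nat_lit 1555) (.e (nat_lit 57686) (nat_lit 156) (.e (nat_lit 163903) (nat_lit 12) (.e (nat_lit 426568) (nat_lit 34) (.e (nat_lit 393282) (nat_lit 24) (.e (nat_lit 434233) (nat_lit 23) .nil))))) .nil)) 
(.lf (nat_lit 178670) (.g (nat_lit 1591) (.e (nat_lit 57688) (nat_lit 156) (.e (nat_lit 163868) (nat_lit 2) (.e (nat_lit 196624) (nat_lit 9) (.e (nat_lit 1277) (nat_lit 94) .nil)))) .nil)))) (.nd (nat_lit 5) (.nd (nat_lit 6) 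
(.lf (nat_lit 178590) (.g (nat_lit 1429) (.e (nat_lit 57686) (nat_lit 156) (.e (nat_lit 163902) (nat_lit 12) (.e (nat_lit 426432) (nat_lit 17) (.e (nat_lit 90176) (nat_lit 15) .nil)))) .nil)) 
(.lf (nat_lit 178654) (.g (nat_lit 996) (.e (nat_lit 57687) (nat_lit 156) (.e (nat_lit 163905) (nat_lit 12) (.e (nat_lit 426566) (nat_lit 34) .nil))) .nil))) (.nd (nat_lit 6) 
(.lf (nat_lit 178622) (.g (nat_lit 2317) (.e (nat_lit 57687) (nat_lit 156) (.e (nat_lit 163873) (nat_lit 3) (.e (nat_lit 204838) (nat_lit 20) (.e (nat_lit 114714) (nat_lit 22) (.e (nat_lit 90174) (nat_lit 14) .nil))))) .nil)) 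
(.lf (nat_lit 178686) (.g (nat_lit 2051) (.e (nat_lit 57688) (nat_lit 156) (.e (nat_lit 163873) (nat_lit 3) (.e (nat_lit 204838) (nat_lit 20) (.e (nat_lit 114716) (nat_lit 22) (.e (nat_lit 90173) (nat_lit 14) .nil))))) .nil)))))))) (.nd (nat_lit 1) (.nd (nat_lit 2) (.nd (nat_lit 3) (.nd (nat_lit 4) (.nd (nat_lit 5) (.nd (nat_lit 6) 
(.lf (nat_lit 178561) (.g (nat_lit 2118) (.e (nat_lit 57685) (nat_lit 156) (.e (nat_lit 163936) (nat_lit 18) (.e (nat_lit 475179) (nat_lit 24) (.e (nat_lit 516146) (nat_lit 9) (.e (nat_lit 426323) (nat_lit 13) .nil))))) .nil)) 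
(.lf (nat_lit 178625) (.g (nat_lit 2749) (.e (nat_lit 57687) (nat_lit 156) (.e (nat_lit 163874) (nat_lit 3) (.e (nat_lit 204829) (nat_lit 18) (.e (nat_lit 57847) (nat_lit 252) (.e (nat_lit 57432) (nat_lit 16) .nil))))) .nil))) (.nd (nat_lit 6) 
(.lf (nat_lit 178593) (.g (nat_lit 2337) (.e (nat_lit 57686) (nat_lit 156) (.e (nat_lit 163902) (nat_lit 12) (.e (nat_lit 426566) (nat_lit 34) (.e (nat_lit 393271) (nat_lit 23) .nil)))) .nil)) 
(.lf (nat_lit 178657) (.g (nat_lit 1921) (.e (nat_lit 57687) (nat_lit 156) (.e (nat_lit 163905) (nat_lit 12) (.e (nat_lit 426568) (nat_lit 34) (.e (nat_lit 393284) (nat_lit 24) .nil)))) .nil)))) (.nd (nat_lit 5) (.nd (nat_lit 6) 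
(.lf (nat_lit 178577) (.g (nat_lit 2516) (.e (nat_lit 57686) (nat_lit 156) (.e (nat_lit 163875) (nat_lit 3) (.e (nat_lit 204829) (nat_lit 18) (.e (nat_lit 57847) (nat_lit 252) (.e (nat_lit 57432) (nat_lit 16) .nil))))) .nil)) 
(.lf (nat_lit 178641) (.g (nat_lit 1685) (.e (nat_lit 57687) (nat_lit 156) (.e (nat_lit 163903) (nat_lit 12) (.e (nat_lit 426428) (nat_lit 17) (.e (nat_lit 90178) (nat_lit 15) .nil)))) .nil))) (.nd (nat_lit 6) 
(.lf (nat_lit 178609) (.g (nat_lit 1593) (.e (nat_lit 57686) (nat_lit 156) (.e (nat_lit 163905) (nat_lit 12) (.e (nat_lit 426428) (nat_lit 17) (.e (nat_lit 90176) (nat_lit 15) .nil)))) .nil)) 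
(.lf (nat_lit 178673) (.g (nat_lit 1754) (.e (nat_lit 57688) (nat_lit 156) (.e (nat_lit 163869) (nat_lit 2) (.e (nat_lit 196624) (nat_lit 9) (.e (nat_lit 1276) (nat_lit 94) .nil)))) .nil))))) (.nd (nat_lit 4) (.nd (nat_lit 5) (.nd (nat_lit 6) 
(.lf (nat_lit 178569) (.g (nat_lit 1694) (.e (nat_lit 57686) (nat_lit 156) (.e (nat_lit 163871) (nat_lit 2) (.e (nat_lit 196624) (nat_lit 9) (.e (nat_lit 1276) (nat_lit 94) .nil)))) .nil)) 
(.lf (nat_lit 178633) (.g (nat_lit 1864) (.e (nat_lit 57687) (nat_lit 156) (.e (nat_lit 163902) (nat_lit 12) (.e (nat_lit 426428) (nat_lit 17) (.e (nat_lit 90185) (nat_lit 17) (.e (nat_lit 237624) (nat_lit 13) .nil))))) .nil))) (.nd (nat_lit 6) 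
(.lf (nat_lit 178601) (.g (nat_lit 2007) (.e (nat_lit 57686) (nat_lit 156) (.e (nat_lit 163903) (nat_lit 12) (.e (nat_lit 426428) (nat_lit 17) (.e (nat_lit 90170) (nat_lit 13) (.e (nat_lit 172095) (nat_lit 9) .nil))))) .nil)) 
(.lf (nat_lit 178665) (.g (nat_lit 1798) (.e (nat_lit 57687) (nat_lit 156) (.e (nat_lit 163907) (nat_lit 12) (.e (nat_lit 426568) (nat_lit 34) (.e (nat_lit 393287) (nat_lit 25) .nil)))) .nil)))) (.nd (nat_lit 5) (.nd (nat_lit 6) 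
(.lf (nat_lit 178585) (.g (nat_lit 2514) (.e (nat_lit 57686) (nat_lit 156) (.e (nat_lit 163875) (nat_lit 3) (.e (nat_lit 204838) (nat_lit 20) (.e (nat_lit 114719) (nat_lit 23) (.e (nat_lit 98363) (nat_lit 26) .nil))))) .nil)) 
(.lf (nat_lit 178649) (.g (nat_lit 1520) (.e (nat_lit 57687) (nat_lit 156) (.e (nat_lit 163903) (nat_lit 12) (.e (nat_lit 426566) (nat_lit 34) (.e (nat_lit 393284) (nat_lit 24) .nil)))) .nil))) (.nd (nat_lit 6) 
(.lf (nat_lit 178617) (.g (nat_lit 1761) (.e (nat_lit 57687) (nat_lit 156) (.e (nat_lit 163868) (nat_lit 2) (.e (nat_lit 196624) (nat_lit 9) (.e (nat_lit 1277) (nat_lit 94) .nil)))) .nil)) 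
(.lf (nat_lit 178681) (.g (nat_lit 710) (.e (nat_lit 57688) (nat_lit 156) (.e (nat_lit 163873) (nat_lit 3) (.e (nat_lit 204837) (nat_lit 20) .nil))) .nil)))))) (.nd (nat_lit 3) (.nd (nat_lit 4) (.nd (nat_lit 5) (.nd (nat_lit 6) 
(.lf (nat_lit 178565) (.g (nat_lit 1594) (.e (nat_lit 57686) (nat_lit 156) (.e (nat_lit 163868) (nat_lit 2) (.e (nat_lit 196624) (nat_lit 9) (.e (nat_lit 1277) (nat_lit 94) .nil)))) .nil)) 
(.lf (nat_lit 178629) (.g (nat_lit 2819) (.e (nat_lit 57687) (nat_lit 156) (.e (nat_lit 163875) (nat_lit 3) (.e (nat_lit 204837) (nat_lit 20) (.e (nat_lit 114714) (nat_lit 22) (.e (nat_lit 90172) (nat_lit 14) .nil))))) .nil))) (.nd (nat_lit 6) 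
(.lf (nat_lit 178597) (.g (nat_lit 1812) (.e (nat_lit 57686) (nat_lit 156) (.e (nat_lit 163902) (nat_lit 12) (.e (nat_lit 426568) (nat_lit 34) (.e (nat_lit 393282) (nat_lit 24) (.e (nat_lit 434233) (nat_lit 23) .nil))))) .nil)) 
(.lf (nat_lit 178661) (.g (nat_lit 1984) (.e (nat_lit 57687) (nat_lit 156) (.e (nat_lit 163907) (nat_lit 12) (.e (nat_lit 426438) (nat_lit 18) (.e (nat_lit 98380) (nat_lit 31) (.e (nat_lit 466954) (nat_lit 11) .nil))))) .nil)))) (.nd (nat_lit 5) (.nd (nat_lit 6) 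
(.lf (nat_lit 178581) (.g (nat_lit 2235) (.e (nat_lit 57686) (nat_lit 156) (.e (nat_lit 163875) (nat_lit 3) (.e (nat_lit 204837) (nat_lit 20) (.e (nat_lit 114714) (nat_lit 22) (.e (nat_lit 90172) (nat_lit 14) .nil))))) .nil)) 
(.lf (nat_lit 178645) (.g (nat_lit 1933) (.e (nat_lit 57687) (nat_lit 156) (.e (nat_lit 163903) (nat_lit 12) (.e (nat_lit 426432) (nat_lit 17) (.e (nat_lit 90178) (nat_lit 15) (.e (nat_lit 188421) (nat_lit 11) .nil))))) .nil))) (.nd (nat_lit 6) 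
(.lf (nat_lit 178613) (.g (nat_lit 2518) (.e (nat_lit 57686) (nat_lit 156) (.e (nat_lit 163907) (nat_lit 12) (.e (nat_lit 426428) (nat_lit 17) (.e (nat_lit 90185) (nat_lit 17) (.e (nat_lit 237621) (nat_lit 13) .nil))))) .nil)) 
(.lf (nat_lit 178677) (.g (nat_lit 712) (.e (nat_lit 57688) (nat_lit 156) (.e (nat_lit 163869) (nat_lit 2) (.e (nat_lit 196677) (nat_lit 16) .nil))) .nil))))) (.nd (nat_lit 4) (.nd (nat_lit 5) (.nd (nat_lit 6) 
(.lf (nat_lit 178573) (.g (nat_lit 2504) (.e (nat_lit 57686) (nat_lit 156) (.e (nat_lit 163874) (nat_lit 3) (.e (nat_lit 204837) (nat_lit 20) (.e (nat_lit 114714) (nat_lit 22) (.e (nat_lit 90172) (nat_lit 14) .nil))))) .nil)) 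
(.lf (nat_lit 178637) (.g (nat_lit 1730) (.e (nat_lit 57687) (nat_lit 156) (.e (nat_lit 163902) (nat_lit 12) (.e (nat_lit 426568) (nat_lit 34) (.e (nat_lit 393279) (nat_lit 23) (.e (nat_lit 426129) (nat_lit 3) .nil))))) .nil))) (.nd (nat_lit 6) 
(.lf (nat_lit 178605) (.g (nat_lit 2190) (.e (nat_lit 57686) (nat_lit 156) (.e (nat_lit 163903) (nat_lit 12) (.e (nat_lit 426566) (nat_lit 34) (.e (nat_lit 393282) (nat_lit 24) .nil)))) .nil)) 
(.lf (nat_lit 178669) (.g (nat_lit 1811) (.e (nat_lit 57688) (nat_lit 156) (.e (nat_lit 163868) (nat_lit 2) (.e (nat_lit 196624) (nat_lit 9) (.e (nat_lit 1276) (nat_lit 94) .nil)))) .nil)))) (.nd (nat_lit 5) (.nd (nat_lit 6) 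
(.lf (nat_lit 178589) (.g (nat_lit 1000) (.e (nat_lit 57686) (nat_lit 156) (.e (nat_lit 163902) (nat_lit 12) (.e (nat_lit 426428) (nat_lit 17) (.e (nat_lit 90176) (nat_lit 15) .nil)))) .nil)) 
(.lf (nat_lit 178653) (.g (nat_lit 1593) (.e (nat_lit 57687) (nat_lit 156) (.e (nat_lit 163905) (nat_lit 12) (.e (nat_lit 426428) (nat_lit 17) (.e (nat_lit 90176) (nat_lit 15) .nil)))) .nil))) (.nd (nat_lit 6) 
(.lf (nat_lit 178621) (.g (nat_lit 2460) (.e (nat_lit 57687) (nat_lit 156) (.e (nat_lit 163873) (nat_lit 3) (.e (nat_lit 204838) (nat_lit 20) (.e (nat_lit 114714) (nat_lit 22) (.e (nat_lit 90172) (nat_lit 14) .nil))))) .nil)) 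
(.lf (nat_lit 178685) (.g (nat_lit 569) (.e (nat_lit 57688) (nat_lit 156) (.e (nat_lit 163873) (nat_lit 3) (.e (nat_lit 204838) (nat_lit 20) .nil))) .nil))))))) (.nd (nat_lit 2) (.nd (nat_lit 3) (.nd (nat_lit 4) (.nd (nat_lit 5) (.nd (nat_lit 6) 
(.lf (nat_lit 178563) (.g (nat_lit 1506) (.e (nat_lit 57686) (nat_lit 156) (.e (nat_lit 163867) (nat_lit 2) (.e (nat_lit 196624) (nat_lit 9) (.e (nat_lit 1277) (nat_lit 94) .nil)))) .nil)) 
(.lf (nat_lit 178627) (.g (nat_lit 2119) (.e (nat_lit 57687) (nat_lit 156) (.e (nat_lit 163874) (nat_lit 3) (.e (nat_lit 204830) (nat_lit 18) (.e (nat_lit 57852) (nat_lit 252) .nil)))) .nil))) (.nd (nat_lit 6) 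
(.lf (nat_lit 178595) (.g (nat_lit 2470) (.e (nat_lit 57686) (nat_lit 156) (.e (nat_lit 163902) (nat_lit 12) (.e (nat_lit 426566) (nat_lit 34) (.e (nat_lit 393286) (nat_lit 25) .nil)))) .nil)) 
(.lf (nat_lit 178659) (.g (nat_lit 2422) (.e (nat_lit 57687) (nat_lit 156) (.e (nat_lit 163907) (nat_lit 12) (.e (nat_lit 426428) (nat_lit 17) (.e (nat_lit 90178) (nat_lit 15) (.e (nat_lit 188421) (nat_lit 11) .nil))))) .nil)))) (.nd (nat_lit 5) (.nd (nat_lit 6) 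
(.lf (nat_lit 178579) (.g (nat_lit 1916) (.e (nat_lit 57686) (nat_lit 156) (.e (nat_lit 163875) (nat_lit 3) (.e (nat_lit 204830) (nat_lit 18) (.e (nat_lit 57852) (nat_lit 252) .nil)))) .nil)) 
(.lf (nat_lit 178643) (.g (nat_lit 2793) (.e (nat_lit 57687) (nat_lit 156) (.e (nat_lit 163903) (nat_lit 12) (.e (nat_lit 426428) (nat_lit 17) (.e (nat_lit 90185) (nat_lit 17) (.e (nat_lit 237605) (nat_lit 9) .nil))))) .nil))) (.nd (nat_lit 6) 
(.lf (nat_lit 178611) (.g (nat_lit 3084) (.e (nat_lit 57686) (nat_lit 156) (.e (nat_lit 163907) (nat_lit 12) (.e (nat_lit 426428) (nat_lit 17) (.e (nat_lit 90170) (nat_lit 13) (.e (nat_lit 172122) (nat_lit 13) .nil))))) .nil)) 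
(.lf (nat_lit 178675) (.g (nat_lit 2194) (.e (nat_lit 57688) (nat_lit 156) (.e (nat_lit 163869) (nat_lit 2) (.e (nat_lit 196654) (nat_lit 11) (.e (nat_lit 16436) (nat_lit 9) .nil)))) .nil))))) (.nd (nat_lit 4) (.nd (nat_lit 5) (.nd (nat_lit 6) 
(.lf (nat_lit 178571) (.g (nat_lit 2275) (.e (nat_lit 57686) (nat_lit 156) (.e (nat_lit 163873) (nat_lit 3) (.e (nat_lit 204837) (nat_lit 20) (.e (nat_lit 114714) (nat_lit 22) (.e (nat_lit 90172) (nat_lit 14) .nil))))) .nil)) 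
(.lf (nat_lit 178635) (.g (nat_lit 3012) (.e (nat_lit 57687) (nat_lit 156) (.e (nat_lit 163902) (nat_lit 12) (.e (nat_lit 426566) (nat_lit 34) (.e (nat_lit 393286) (nat_lit 25) .nil)))) .nil))) (.nd (nat_lit 6) 
(.lf (nat_lit 178603) (.g (nat_lit 2538) (.e (nat_lit 57686) (nat_lit 156) (.e (nat_lit 163903) (nat_lit 12) (.e (nat_lit 426566) (nat_lit 34) (.e (nat_lit 393266) (nat_lit 23) .nil)))) .nil)) 
(.lf (nat_lit 178667) (.g (nat_lit 627) (.e (nat_lit 57688) (nat_lit 156) (.e (nat_lit 163867) (nat_lit 2) (.e (nat_lit 196635) (nat_lit 9) .nil))) .nil)))) (.nd (nat_lit 5) (.nd (nat_lit 6) 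
(.lf (nat_lit 178587) (.g (nat_lit 1292) (.e (nat_lit 57686) (nat_lit 156) (.e (nat_lit 163901) (nat_lit 12) (.e (nat_lit 426428) (nat_lit 17) (.e (nat_lit 90170) (nat_lit 13) (.e (nat_lit 172121) (nat_lit 13) .nil))))) .nil)) 
(.lf (nat_lit 178651) (.g (nat_lit 1602) (.e (nat_lit 57687) (nat_lit 156) (.e (nat_lit 163903) (nat_lit 12) (.e (nat_lit 426568) (nat_lit 34) (.e (nat_lit 393282) (nat_lit 24) .nil)))) .nil))) (.nd (nat_lit 6) 
(.lf (nat_lit 178619) (.g (nat_lit 2917) (.e (nat_lit 57687) (nat_lit 156) (.e (nat_lit 163873) (nat_lit 3) (.e (nat_lit 204829) (nat_lit 18) (.e (nat_lit 57847) (nat_lit 252) (.e (nat_lit 57432) (nat_lit 16) .nil))))) .nil)) 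
(.lf (nat_lit 178683) (.g (nat_lit 2308) (.e (nat_lit 57688) (nat_lit 156) (.e (nat_lit 163873) (nat_lit 3) (.e (nat_lit 204837) (nat_lit 20) (.e (nat_lit 114714) (nat_lit 22) (.e (nat_lit 90173) (nat_lit 14) .nil))))) .nil)))))) (.nd (nat_lit 3) (.nd (nat_lit 4) (.nd (nat_lit 5) (.nd (nat_lit 6) 
(.lf (nat_lit 178567) (.g (nat_lit 1418) (.e (nat_lit 57686) (nat_lit 156) (.e (nat_lit 163868) (nat_lit 2) (.e (nat_lit 196635) (nat_lit 9) (.e (nat_lit 1281) (nat_lit 94) .nil)))) .nil)) 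
(.lf (nat_lit 178631) (.g (nat_lit 1895) (.e (nat_lit 57687) (nat_lit 156) (.e (nat_lit 163875) (nat_lit 3) (.e (nat_lit 204838) (nat_lit 20) (.e (nat_lit 114716) (nat_lit 22) .nil)))) .nil))) (.nd (nat_lit 6) 
(.lf (nat_lit 178599) (.g (nat_lit 1679) (.e (nat_lit 57686) (nat_lit 156) (.e (nat_lit 163902) (nat_lit 12) (.e (nat_lit 426568) (nat_lit 34) (.e (nat_lit 393283) (nat_lit 24) (.e (nat_lit 434234) (nat_lit 23) .nil))))) .nil)) 
(.lf (nat_lit 178663) (.g (nat_lit 2468) (.e (nat_lit 57687) (nat_lit 156) (.e (nat_lit 163907) (nat_lit 12) (.e (nat_lit 426568) (nat_lit 34) (.e (nat_lit 393271) (nat_lit 23) (.e (nat_lit 426131) (nat_lit 3) .nil))))) .nil)))) (.nd (nat_lit 5) (.nd (nat_lit 6) 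
(.lf (nat_lit 178583) (.g (nat_lit 2422) (.e (nat_lit 57686) (nat_lit 156) (.e (nat_lit 163875) (nat_lit 3) (.e (nat_lit 204837) (nat_lit 20) (.e (nat_lit 114719) (nat_lit 23) (.e (nat_lit 98363) (nat_lit 26) .nil))))) .nil)) 
(.lf (nat_lit 178647) (.g (nat_lit 660) (.e (nat_lit 57687) (nat_lit 156) (.e (nat_lit 163903) (nat_lit 12) (.e (nat_lit 426437) (nat_lit 18) .nil))) .nil))) (.nd (nat_lit 6) 
(.lf (nat_lit 178615) (.g (nat_lit 2183) (.e (nat_lit 57686) (nat_lit 156) (.e (nat_lit 163932) (nat_lit 17) (.e (nat_lit 466972) (nat_lit 21) (.e (nat_lit 164183) (nat_lit 154) (.e (nat_lit 65280) (nat_lit 65) .nil))))) .nil)) 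
(.lf (nat_lit 178679) (.g (nat_lit 1376) (.e (nat_lit 57688) (nat_lit 156) (.e (nat_lit 163871) (nat_lit 2) (.e (nat_lit 196624) (nat_lit 9) (.e (nat_lit 1277) (nat_lit 94) .nil)))) .nil))))) (.nd (nat_lit 4) (.nd (nat_lit 5) (.nd (nat_lit 6) 
(.lf (nat_lit 178575) (.g (nat_lit 2366) (.e (nat_lit 57686) (nat_lit 156) (.e (nat_lit 163875) (nat_lit 3) (.e (nat_lit 204829) (nat_lit 18) (.e (nat_lit 57847) (nat_lit 252) (.e (nat_lit 57410) (nat_lit 12) .nil))))) .nil)) 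
(.lf (nat_lit 178639) (.g (nat_lit 2168) (.e (nat_lit 57687) (nat_lit 156) (.e (nat_lit 163902) (nat_lit 12) (.e (nat_lit 426568) (nat_lit 34) (.e (nat_lit 393284) (nat_lit 24) (.e (nat_lit 434233) (nat_lit 23) .nil))))) .nil))) (.nd (nat_lit 6) 
(.lf (nat_lit 178607) (.g (nat_lit 1079) (.e (nat_lit 57686) (nat_lit 156) (.e (nat_lit 163903) (nat_lit 12) (.e (nat_lit 426568) (nat_lit 34) (.e (nat_lit 393283) (nat_lit 24) .nil)))) .nil)) 
(.lf (nat_lit 178671) (.g (nat_lit 1169) (.e (nat_lit 57688) (nat_lit 156) (.e (nat_lit 163868) (nat_lit 2) (.e (nat_lit 196635) (nat_lit 9) .nil))) .nil)))) (.nd (nat_lit 5) (.nd (nat_lit 6) 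
(.lf (nat_lit 178591) (.g (nat_lit 1430) (.e (nat_lit 57686) (nat_lit 156) (.e (nat_lit 163902) (nat_lit 12) (.e (nat_lit 426432) (nat_lit 17) (.e (nat_lit 90178) (nat_lit 15) .nil)))) .nil)) 
(.lf (nat_lit 178655) (.g (nat_lit 722) (.e (nat_lit 57687) (nat_lit 156) (.e (nat_lit 163905) (nat_lit 12) (.e (nat_lit 426568) (nat_lit 34) .nil))) .nil))) (.nd (nat_lit 6) 
(.lf (nat_lit 178623) (.g (nat_lit 2599) (.e (nat_lit 57687) (nat_lit 156) (.e (nat_lit 163874) (nat_lit 3) (.e (nat_lit 204829) (nat_lit 18) (.e (nat_lit 57847) (nat_lit 252) (.e (nat_lit 57410) (nat_lit 12) .nil))))) .nil)) 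
(.lf (nat_lit 178687) (.g (nat_lit 3651) (.e (nat_lit 57688) (nat_lit 156) (.e (nat_lit 163873) (nat_lit 3) (.e (nat_lit 204838) (nat_lit 20) (.e (nat_lit 114716) (nat_lit 22) (.e (nat_lit 90174) (nat_lit 14) (.e (nat_lit 180243) (nat_lit 5) (.e (nat_lit 532502) (nat_lit 1) .nil))))))) (.g (nat_lit 6) .nil .nil))))))))))

noncomputable def tv2402 : DT := (.nd (nat_lit 0) (.nd (nat_lit 1) (.nd (nat_lit 2) (.nd (nat_lit 3) (.nd (nat_lit 4) (.nd (nat_lit 5) (.nd (nat_lit 6) 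
(.lf (nat_lit 178688) (.g (nat_lit 2358) (.e (nat_lit 57688) (nat_lit 156) (.e (nat_lit 163873) (nat_lit 3) (.e (nat_lit 204838) (nat_lit 20) (.e (nat_lit 114719) (nat_lit 23) (.e (nat_lit 98376) (nat_lit 30) .nil))))) .nil)) 
(.lf (nat_lit 178752) (.g (nat_lit 1915) (.e (nat_lit 57688) (nat_lit 156) (.e (nat_lit 163903) (nat_lit 12) (.e (nat_lit 426566) (nat_lit 34) (.e (nat_lit 393288) (nat_lit 25) (.e (nat_lit 458789) (nat_lit 23) .nil))))) .nil))) (.nd (nat_lit 6) 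
(.lf (nat_lit 178720) (.g (nat_lit 3010) (.e (nat_lit 57688) (nat_lit 156) (.e (nat_lit 163902) (nat_lit 12) (.e (nat_lit 426566) (nat_lit 34) (.e (nat_lit 393283) (nat_lit 24) (.e (nat_lit 434231) (nat_lit 23) .nil))))) .nil)) 
(.lf (nat_lit 178784) (.g (nat_lit 836) (.e (nat_lit 57688) (nat_lit 156) (.e (nat_lit 163907) (nat_lit 12) (.e (nat_lit 426567) (nat_lit 34) .nil))) .nil)))) (.nd (nat_lit 5) (.nd (nat_lit 6) 
(.lf (nat_lit 178704) (.g (nat_lit 2237) (.e (nat_lit 57688) (nat_lit 156) (.e (nat_lit 163875) (nat_lit 3) (.e (nat_lit 204838) (nat_lit 20) (.e (nat_lit 114716) (nat_lit 22) (.e (nat_lit 90173) (nat_lit 14) .nil))))) .nil)) 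
(.lf (nat_lit 178768) (.g (nat_lit 1987) (.e (nat_lit 57688) (nat_lit 156) (.e (nat_lit 163905) (nat_lit 12) (.e (nat_lit 426436) (nat_lit 18) (.e (nat_lit 98369) (nat_lit 28) (.e (nat_lit 442390) (nat_lit 11) .nil))))) .nil))) (.nd (nat_lit 6) 
(.lf (nat_lit 178736) (.g (nat_lit 1485) (.e (nat_lit 57688) (nat_lit 156) (.e (nat_lit 163903) (nat_lit 12) (.e (nat_lit 426428) (nat_lit 17) (.e (nat_lit 90176) (nat_lit 15) (.e (nat_lit 188423) (nat_lit 11) .nil))))) .nil)) 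
(.lf (nat_lit 178800) (.g (nat_lit 1524) (.e (nat_lit 57689) (nat_lit 156) (.e (nat_lit 163875) (nat_lit 3) (.e (nat_lit 204838) (nat_lit 20) (.e (nat_lit 114714) (nat_lit 22) .nil)))) .nil))))) (.nd (nat_lit 4) (.nd (nat_lit 5) (.nd (nat_lit 6) 
(.lf (nat_lit 178696) (.g (nat_lit 3111) (.e (nat_lit 57688) (nat_lit 156) (.e (nat_lit 163874) (nat_lit 3) (.e (nat_lit 204831) (nat_lit 18) (.e (nat_lit 57854) (nat_lit 252) (.e (nat_lit 57430) (nat_lit 16) .nil))))) .nil)) 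
(.lf (nat_lit 178760) (.g (nat_lit 1738) (.e (nat_lit 57688) (nat_lit 156) (.e (nat_lit 163904) (nat_lit 12) (.e (nat_lit 426566) (nat_lit 34) (.e (nat_lit 393282) (nat_lit 24) .nil)))) .nil))) (.nd (nat_lit 6) 
(.lf (nat_lit 178728) (.g (nat_lit 1370) (.e (nat_lit 57688) (nat_lit 156) (.e (nat_lit 163902) (nat_lit 12) (.e (nat_lit 426568) (nat_lit 34) (.e (nat_lit 393282) (nat_lit 24) .nil)))) .nil)) 
(.lf (nat_lit 178792) (.g (nat_lit 2989) (.e (nat_lit 57688) (nat_lit 156) (.e (nat_lit 163916) (nat_lit 13) (.e (nat_lit 434244) (nat_lit 28) (.e (nat_lit 573451) (nat_lit 9) (.e (nat_lit 1667) (nat_lit 116) .nil))))) .nil)))) (.nd (nat_lit 5) (.nd (nat_lit 6) 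
(.lf (nat_lit 178712) (.g (nat_lit 2438) (.e (nat_lit 57688) (nat_lit 156) (.e (nat_lit 163902) (nat_lit 12) (.e (nat_lit 426566) (nat_lit 34) (.e (nat_lit 393267) (nat_lit 23) .nil)))) .nil)) 
(.lf (nat_lit 178776) (.g (nat_lit 728) (.e (nat_lit 57688) (nat_lit 156) (.e (nat_lit 163905) (nat_lit 12) (.e (nat_lit 426567) (nat_lit 34) .nil))) .nil))) (.nd (nat_lit 6) 
(.lf (nat_lit 178744) (.g (nat_lit 2347) (.e (nat_lit 57688) (nat_lit 156) (.e (nat_lit 163903) (nat_lit 12) (.e (nat_lit 426566) (nat_lit 34) (.e (nat_lit 393267) (nat_lit 23) (.e (nat_lit 426131) (nat_lit 3) .nil))))) .nil)) 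
(.lf (nat_lit 178808) (.g (nat_lit 1423) (.e (nat_lit 57690) (nat_lit 156) (.e (nat_lit 163869) (nat_lit 2) (.e (nat_lit 196624) (nat_lit 9) (.e (nat_lit 1277) (nat_lit 94) .nil)))) .nil)))))) (.nd (nat_lit 3) (.nd (nat_lit 4) (.nd (nat_lit 5) (.nd (nat_lit 6) 
(.lf (nat_lit 178692) (.g (nat_lit 2409) (.e (nat_lit 57688) (nat_lit 156) (.e (nat_lit 163874) (nat_lit 3) (.e (nat_lit 204830) (nat_lit 18) (.e (nat_lit 57830) (nat_lit 250) (.e (nat_lit 1296) (nat_lit 96) .nil))))) .nil)) 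
(.lf (nat_lit 178756) (.g (nat_lit 1847) (.e (nat_lit 57688) (nat_lit 156) (.e (nat_lit 163903) (nat_lit 12) (.e (nat_lit 426568) (nat_lit 34) (.e (nat_lit 393285) (nat_lit 25) .nil)))) .nil))) (.nd (nat_lit 6) 
(.lf (nat_lit 178724) (.g (nat_lit 1377) (.e (nat_lit 57688) (nat_lit 156) (.e (nat_lit 163902) (nat_lit 12) (.e (nat_lit 426566) (nat_lit 34) (.e (nat_lit 393289) (nat_lit 25) .nil)))) .nil)) 
(.lf (nat_lit 178788) (.g (nat_lit 3005) (.e (nat_lit 57688) (nat_lit 156) (.e (nat_lit 163908) (nat_lit 12) (.e (nat_lit 426412) (nat_lit 15) (.e (nat_lit 1800) (nat_lit 119) (.e (nat_lit 516174) (nat_lit 14) (.e (nat_lit 466954) (nat_lit 11) (.e (nat_lit 335986) (nat_lit 1) .nil))))))) (.g (nat_lit 4) .nil .nil))))) (.nd (nat_lit 5) (.nd (nat_lit 6) 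
(.lf (nat_lit 178708) (.g (nat_lit 1230) (.e (nat_lit 57688) (nat_lit 156) (.e (nat_lit 163902) (nat_lit 12) (.e (nat_lit 426472) (nat_lit 25) .nil))) .nil)) 
(.lf (nat_lit 178772) (.g (nat_lit 2103) (.e (nat_lit 57688) (nat_lit 156) (.e (nat_lit 163905) (nat_lit 12) (.e (nat_lit 426566) (nat_lit 34) (.e (nat_lit 393266) (nat_lit 23) .nil)))) .nil))) (.nd (nat_lit 6) 
(.lf (nat_lit 178740) (.g (nat_lit 1347) (.e (nat_lit 57688) (nat_lit 156) (.e (nat_lit 163903) (nat_lit 12) (.e (nat_lit 426432) (nat_lit 17) (.e (nat_lit 90177) (nat_lit 15) .nil)))) .nil)) 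
(.lf (nat_lit 178804) (.g (nat_lit 2672) (.e (nat_lit 57689) (nat_lit 156) (.e (nat_lit 163907) (nat_lit 12) (.e (nat_lit 426428) (nat_lit 17) (.e (nat_lit 90170) (nat_lit 13) (.e (nat_lit 172095) (nat_lit 9) .nil))))) .nil))))) (.nd (nat_lit 4) (.nd (nat_lit 5) (.nd (nat_lit 6) 
(.lf (nat_lit 178700) (.g (nat_lit 2583) (.e (nat_lit 57688) (nat_lit 156) (.e (nat_lit 163874) (nat_lit 3) (.e (nat_lit 204838) (nat_lit 20) (.e (nat_lit 114716) (nat_lit 22) (.e (nat_lit 90172) (nat_lit 14) (.e (nat_lit 180244) (nat_lit 5) (.e (nat_lit 532502) (nat_lit 1) .nil))))))) (.g (nat_lit 4) .nil .nil))) 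
(.lf (nat_lit 178764) (.g (nat_lit 1959) (.e (nat_lit 57688) (nat_lit 156) (.e (nat_lit 163905) (nat_lit 12) (.e (nat_lit 426128) (nat_lit 2) (.e (nat_lit 196672) (nat_lit 15) (.e (nat_lit 81954) (nat_lit 23) .nil))))) .nil))) (.nd (nat_lit 6) 
(.lf (nat_lit 178732) (.g (nat_lit 1558) (.e (nat_lit 57688) (nat_lit 156) (.e (nat_lit 163903) (nat_lit 12) (.e (nat_lit 426427) (nat_lit 17) (.e (nat_lit 90185) (nat_lit 17) (.e (nat_lit 237621) (nat_lit 13) .nil))))) .nil)) 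
(.lf (nat_lit 178796) (.g (nat_lit 517) (.e (nat_lit 57688) (nat_lit 156) (.e (nat_lit 163933) (nat_lit 17) (.e (nat_lit 466967) (nat_lit 20) .nil))) .nil)))) (.nd (nat_lit 5) (.nd (nat_lit 6) 
(.lf (nat_lit 178716) (.g (nat_lit 1749) (.e (nat_lit 57688) (nat_lit 156) (.e (nat_lit 163902) (nat_lit 12) (.e (nat_lit 426566) (nat_lit 34) (.e (nat_lit 393276) (nat_lit 23) .nil)))) .nil)) 
(.lf (nat_lit 178780) (.g (nat_lit 854) (.e (nat_lit 57688) (nat_lit 156) (.e (nat_lit 163907) (nat_lit 12) (.e (nat_lit 426480) (nat_lit 27) .nil))) .nil))) (.nd (nat_lit 6) 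
(.lf (nat_lit 178748) (.g (nat_lit 1731) (.e (nat_lit 57688) (nat_lit 156) (.e (nat_lit 163903) (nat_lit 12) (.e (nat_lit 426566) (nat_lit 34) (.e (nat_lit 393282) (nat_lit 24) (.e (nat_lit 434233) (nat_lit 23) .nil))))) .nil)) 
(.lf (nat_lit 178812) (.g (nat_lit 584) (.e (nat_lit 57690) (nat_lit 156) (.e (nat_lit 163875) (nat_lit 3) (.e (nat_lit 204837) (nat_lit 20) .nil))) .nil))))))) (.nd (nat_lit 2) (.nd (nat_lit 3) (.nd (nat_lit 4) (.nd (nat_lit 5) (.nd (nat_lit 6) 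
(.lf (nat_lit 178690) (.g (nat_lit 1355) (.e (nat_lit 57688) (nat_lit 156) (.e (nat_lit 163874) (nat_lit 3) (.e (nat_lit 204817) (nat_lit 17) (.e (nat_lit 2198) (nat_lit 144) .nil)))) .nil)) 
(.lf (nat_lit 178754) (.g (nat_lit 2002) (.e (nat_lit 57688) (nat_lit 156) (.e (nat_lit 163903) (nat_lit 12) (.e (nat_lit 426568) (nat_lit 34) (.e (nat_lit 393238) (nat_lit 17) (.e (nat_lit 7349) (nat_lit 388) .nil))))) .nil))) (.nd (nat_lit 6) 
(.lf (nat_lit 178722) (.g (nat_lit 2127) (.e (nat_lit 57688) (nat_lit 156) (.e (nat_lit 163902) (nat_lit 12) (.e (nat_lit 426566) (nat_lit 34) (.e (nat_lit 393288) (nat_lit 25) .nil)))) .nil)) 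
(.lf (nat_lit 178786) (.g (nat_lit 562) (.e (nat_lit 57688) (nat_lit 156) (.e (nat_lit 163908) (nat_lit 12) (.e (nat_lit 426412) (nat_lit 15) .nil))) .nil)))) (.nd (nat_lit 5) (.nd (nat_lit 6) 
(.lf (nat_lit 178706) (.g (nat_lit 2499) (.e (nat_lit 57688) (nat_lit 156) (.e (nat_lit 163902) (nat_lit 12) (.e (nat_lit 426428) (nat_lit 17) (.e (nat_lit 90170) (nat_lit 13) (.e (nat_lit 172095) (nat_lit 9) (.e (nat_lit 426513) (nat_lit 27) (.e (nat_lit 335993) (nat_lit 1) .nil))))))) (.g (nat_lit 4) .nil .nil))) 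
(.lf (nat_lit 178770) (.g (nat_lit 1619) (.e (nat_lit 57688) (nat_lit 156) (.e (nat_lit 163905) (nat_lit 12) (.e (nat_lit 426437) (nat_lit 18) (.e (nat_lit 98369) (nat_lit 28) (.e (nat_lit 442390) (nat_lit 11) .nil))))) .nil))) (.nd (nat_lit 6) 
(.lf (nat_lit 178738) (.g (nat_lit 2026) (.e (nat_lit 57688) (nat_lit 156) (.e (nat_lit 163903) (nat_lit 12) (.e (nat_lit 426428) (nat_lit 17) (.e (nat_lit 90185) (nat_lit 17) (.e (nat_lit 237620) (nat_lit 13) .nil))))) .nil)) 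
(.lf (nat_lit 178802) (.g (nat_lit 1297) (.e (nat_lit 57689) (nat_lit 156) (.e (nat_lit 163905) (nat_lit 12) (.e (nat_lit 426568) (nat_lit 34) (.e (nat_lit 393279) (nat_lit 23) .nil)))) .nil))))) (.nd (nat_lit 4) (.nd (nat_lit 5) (.nd (nat_lit 6) 
(.lf (nat_lit 178698) (.g (nat_lit 2101) (.e (nat_lit 57688) (nat_lit 156) (.e (nat_lit 163874) (nat_lit 3) (.e (nat_lit 204837) (nat_lit 20) (.e (nat_lit 114716) (nat_lit 22) (.e (nat_lit 90173) (nat_lit 14) .nil))))) .nil)) 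
(.lf (nat_lit 178762) (.g (nat_lit 1722) (.e (nat_lit 57688) (nat_lit 156) (.e (nat_lit 163904) (nat_lit 12) (.e (nat_lit 426566) (nat_lit 34) (.e (nat_lit 393289) (nat_lit 25) .nil)))) .nil))) (.nd (nat_lit 6) 
(.lf (nat_lit 178730) (.g (nat_lit 2085) (.e (nat_lit 57688) (nat_lit 156) (.e (nat_lit 163902) (nat_lit 12) (.e (nat_lit 426568) (nat_lit 34) (.e (nat_lit 393285) (nat_lit 25) .nil)))) .nil)) 
(.lf (nat_lit 178794) (.g (nat_lit 635) (.e (nat_lit 57688) (nat_lit 156) (.e (nat_lit 163923) (nat_lit 15) (.e (nat_lit 450563) (nat_lit 0) .nil))) .nil)))) (.nd (nat_lit 5) (.nd (nat_lit 6) 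
(.lf (nat_lit 178714) (.g (nat_lit 2098) (.e (nat_lit 57688) (nat_lit 156) (.e (nat_lit 163902) (nat_lit 12) (.e (nat_lit 426566) (nat_lit 34) (.e (nat_lit 393274) (nat_lit 23) .nil)))) .nil)) 
(.lf (nat_lit 178778) (.g (nat_lit 2223) (.e (nat_lit 57688) (nat_lit 156) (.e (nat_lit 163907) (nat_lit 12) (.e (nat_lit 426428) (nat_lit 17) (.e (nat_lit 90176) (nat_lit 15) (.e (nat_lit 188421) (nat_lit 11) .nil))))) .nil))) (.nd (nat_lit 6) 
(.lf (nat_lit 178746) (.g (nat_lit 1465) (.e (nat_lit 57688) (nat_lit 156) (.e (nat_lit 163903) (nat_lit 12) (.e (nat_lit 426566) (nat_lit 34) (.e (nat_lit 393276) (nat_lit 23) .nil)))) .nil)) 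
(.lf (nat_lit 178810) (.g (nat_lit 707) (.e (nat_lit 57690) (nat_lit 156) (.e (nat_lit 163871) (nat_lit 2) (.e (nat_lit 196677) (nat_lit 16) .nil))) .nil)))))) (.nd (nat_lit 3) (.nd (nat_lit 4) (.nd (nat_lit 5) (.nd (nat_lit 6) 
(.lf (nat_lit 178694) (.g (nat_lit 3907) (.e (nat_lit 57688) (nat_lit 156) (.e (nat_lit 163874) (nat_lit 3) (.e (nat_lit 204830) (nat_lit 18) (.e (nat_lit 57852) (nat_lit 252) (.e (nat_lit 57431) (nat_lit 16) (.e (nat_lit 368676) (nat_lit 21) (.e (nat_lit 516146) (nat_lit 9) (.e (nat_lit 426422) (nat_lit 16) .nil)))))))) (.g (nat_lit 4) .nil .nil))) 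
(.lf (nat_lit 178758) (.g (nat_lit 1727) (.e (nat_lit 57688) (nat_lit 156) (.e (nat_lit 163904) (nat_lit 12) (.e (nat_lit 426566) (nat_lit 34) (.e (nat_lit 393266) (nat_lit 23) .nil)))) .nil))) (.nd (nat_lit 6) 
(.lf (nat_lit 178726) (.g (nat_lit 2337) (.e (nat_lit 57688) (nat_lit 156) (.e (nat_lit 163902) (nat_lit 12) (.e (nat_lit 426568) (nat_lit 34) (.e (nat_lit 393238) (nat_lit 17) (.e (nat_lit 7349) (nat_lit 388) .nil))))) .nil)) 
(.lf (nat_lit 178790) (.g (nat_lit 807) (.e (nat_lit 57688) (nat_lit 156) (.e (nat_lit 163913) (nat_lit 12) (.e (nat_lit 426433) (nat_lit 18) .nil))) .nil)))) (.nd (nat_lit 5) (.nd (nat_lit 6) 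
(.lf (nat_lit 178710) (.g (nat_lit 1183) (.e (nat_lit 57688) (nat_lit 156) (.e (nat_lit 163902) (nat_lit 12) (.e (nat_lit 426564) (nat_lit 34) .nil))) .nil)) 
(.lf (nat_lit 178774) (.g (nat_lit 2093) (.e (nat_lit 57688) (nat_lit 156) (.e (nat_lit 163905) (nat_lit 12) (.e (nat_lit 426566) (nat_lit 34) (.e (nat_lit 393285) (nat_lit 25) .nil)))) .nil))) (.nd (nat_lit 6) 
(.lf (nat_lit 178742) (.g (nat_lit 989) (.e (nat_lit 57688) (nat_lit 156) (.e (nat_lit 163903) (nat_lit 12) (.e (nat_lit 426564) (nat_lit 34) (.e (nat_lit 393281) (nat_lit 23) .nil)))) .nil)) 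
(.lf (nat_lit 178806) (.g (nat_lit 2077) (.e (nat_lit 57689) (nat_lit 156) (.e (nat_lit 163907) (nat_lit 12) (.e (nat_lit 426566) (nat_lit 34) (.e (nat_lit 393273) (nat_lit 23) (.e (nat_lit 426131) (nat_lit 3) .nil))))) .nil))))) (.nd (nat_lit 4) (.nd (nat_lit 5) (.nd (nat_lit 6) 
(.lf (nat_lit 178702) (.g (nat_lit 4047) (.e (nat_lit 57688) (nat_lit 156) (.e (nat_lit 163875) (nat_lit 3) (.e (nat_lit 204829) (nat_lit 18) (.e (nat_lit 57847) (nat_lit 252) (.e (nat_lit 57411) (nat_lit 12) (.e (nat_lit 336019) (nat_lit 3) (.e (nat_lit 98356) (nat_lit 26) (.e (nat_lit 426422) (nat_lit 16) .nil)))))))) (.g (nat_lit 5) .nil .nil))) 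
(.lf (nat_lit 178766) (.g (nat_lit 2243) (.e (nat_lit 57688) (nat_lit 156) (.e (nat_lit 163905) (nat_lit 12) (.e (nat_lit 426428) (nat_lit 17) (.e (nat_lit 90185) (nat_lit 17) (.e (nat_lit 237620) (nat_lit 13) .nil))))) .nil))) (.nd (nat_lit 6) 
(.lf (nat_lit 178734) (.g (nat_lit 2911) (.e (nat_lit 57688) (nat_lit 156) (.e (nat_lit 163903) (nat_lit 12) (.e (nat_lit 426428) (nat_lit 17) (.e (nat_lit 90170) (nat_lit 13) (.e (nat_lit 172095) (nat_lit 9) (.e (nat_lit 426513) (nat_lit 27) (.e (nat_lit 335993) (nat_lit 1) .nil))))))) (.g (nat_lit 4) .nil .nil))) 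
(.lf (nat_lit 178798) (.g (nat_lit 2002) (.e (nat_lit 57689) (nat_lit 156) (.e (nat_lit 163874) (nat_lit 3) (.e (nat_lit 204838) (nat_lit 20) (.e (nat_lit 114716) (nat_lit 22) (.e (nat_lit 90185) (nat_lit 17) .nil))))) .nil)))) (.nd (nat_lit 5) (.nd (nat_lit 6) 
(.lf (nat_lit 178718) (.g (nat_lit 1911) (.e (nat_lit 57688) (nat_lit 156) (.e (nat_lit 163902) (nat_lit 12) (.e (nat_lit 426566) (nat_lit 34) (.e (nat_lit 393280) (nat_lit 23) .nil)))) .nil)) 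
(.lf (nat_lit 178782) (.g (nat_lit 849) (.e (nat_lit 57688) (nat_lit 156) (.e (nat_lit 163907) (nat_lit 12) (.e (nat_lit 433920) (nat_lit 27) .nil))) .nil))) (.nd (nat_lit 6) 
(.lf (nat_lit 178750) (.g (nat_lit 1558) (.e (nat_lit 57688) (nat_lit 156) (.e (nat_lit 163903) (nat_lit 12) (.e (nat_lit 426566) (nat_lit 34) (.e (nat_lit 393287) (nat_lit 25) (.e (nat_lit 458790) (nat_lit 23) .nil))))) .nil)) 
(.lf (nat_lit 178814) (.g (nat_lit 1008) (.e (nat_lit 57690) (nat_lit 156) (.e (nat_lit 163905) (nat_lit 12) (.e (nat_lit 426566) (nat_lit 34) .nil))) .nil)))))))) (.nd (nat_lit 1) (.nd (nat_lit 2) (.nd (nat_lit 3) (.nd (nat_lit 4) (.nd (nat_lit 5) (.nd (nat_lit 6) 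
(.lf (nat_lit 178689) (.g (nat_lit 1000) (.e (nat_lit 57688) (nat_lit 156) (.e (nat_lit 163874) (nat_lit 3) (.e (nat_lit 204815) (nat_lit 17) .nil))) .nil)) 
(.lf (nat_lit 178753) (.g (nat_lit 1528) (.e (nat_lit 57688) (nat_lit 156) (.e (nat_lit 163903) (nat_lit 12) (.e (nat_lit 426566) (nat_lit 34) (.e (nat_lit 393289) (nat_lit 25) (.e (nat_lit 458788) (nat_lit 23) .nil))))) .nil))) (.nd (nat_lit 6) 
(.lf (nat_lit 178721) (.g (nat_lit 2424) (.e (nat_lit 57688) (nat_lit 156) (.e (nat_lit 163902) (nat_lit 12) (.e (nat_lit 426566) (nat_lit 34) (.e (nat_lit 393284) (nat_lit 24) .nil)))) .nil)) 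
(.lf (nat_lit 178785) (.g (nat_lit 1979) (.e (nat_lit 57688) (nat_lit 156) (.e (nat_lit 163907) (nat_lit 12) (.e (nat_lit 426568) (nat_lit 34) (.e (nat_lit 393285) (nat_lit 25) .nil)))) .nil)))) (.nd (nat_lit 5) (.nd (nat_lit 6) 
(.lf (nat_lit 178705) (.g (nat_lit 957) (.e (nat_lit 57688) (nat_lit 156) (.e (nat_lit 163902) (nat_lit 12) (.e (nat_lit 426427) (nat_lit 17) .nil))) .nil)) 
(.lf (nat_lit 178769) (.g (nat_lit 1859) (.e (nat_lit 57688) (nat_lit 156) (.e (nat_lit 163905) (nat_lit 12) (.e (nat_lit 426436) (nat_lit 18) (.e (nat_lit 98370) (nat_lit 28) .nil)))) .nil))) (.nd (nat_lit 6) 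
(.lf (nat_lit 178737) (.g (nat_lit 1734) (.e (nat_lit 57688) (nat_lit 156) (.e (nat_lit 163903) (nat_lit 12) (.e (nat_lit 426428) (nat_lit 17) (.e (nat_lit 90178) (nat_lit 15) (.e (nat_lit 188422) (nat_lit 11) .nil))))) .nil)) 
(.lf (nat_lit 178801) (.g (nat_lit 1962) (.e (nat_lit 57689) (nat_lit 156) (.e (nat_lit 163905) (nat_lit 12) (.e (nat_lit 426438) (nat_lit 18) (.e (nat_lit 98358) (nat_lit 26) (.e (nat_lit 426323) (nat_lit 13) .nil))))) .nil))))) (.nd (nat_lit 4) (.nd (nat_lit 5) (.nd (nat_lit 6) 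
(.lf (nat_lit 178697) (.g (nat_lit 637) (.e (nat_lit 57688) (nat_lit 156) (.e (nat_lit 163874) (nat_lit 3) (.e (nat_lit 204837) (nat_lit 20) .nil))) .nil)) 
(.lf (nat_lit 178761) (.g (nat_lit 1722) (.e (nat_lit 57688) (nat_lit 156) (.e (nat_lit 163904) (nat_lit 12) (.e (nat_lit 426566) (nat_lit 34) (.e (nat_lit 393285) (nat_lit 25) .nil)))) .nil))) (.nd (nat_lit 6) 
(.lf (nat_lit 178729) (.g (nat_lit 1786) (.e (nat_lit 57688) (nat_lit 156) (.e (nat_lit 163902) (nat_lit 12) (.e (nat_lit 426568) (nat_lit 34) (.e (nat_lit 393282) (nat_lit 24) (.e (nat_lit 434233) (nat_lit 23) .nil))))) .nil)) 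
(.lf (nat_lit 178793) (.g (nat_lit 628) (.e (nat_lit 57688) (nat_lit 156) (.e (nat_lit 163923) (nat_lit 15) (.e (nat_lit 450562) (nat_lit 0) .nil))) .nil)))) (.nd (nat_lit 5) (.nd (nat_lit 6) 
(.lf (nat_lit 178713) (.g (nat_lit 2704) (.e (nat_lit 57688) (nat_lit 156) (.e (nat_lit 163902) (nat_lit 12) (.e (nat_lit 426566) (nat_lit 34) (.e (nat_lit 393268) (nat_lit 23) (.e (nat_lit 426131) (nat_lit 3) .nil))))) .nil)) 
(.lf (nat_lit 178777) (.g (nat_lit 2394) (.e (nat_lit 57688) (nat_lit 156) (.e (nat_lit 163907) (nat_lit 12) (.e (nat_lit 426428) (nat_lit 17) (.e (nat_lit 90170) (nat_lit 13) (.e (nat_lit 172122) (nat_lit 13) .nil))))) .nil))) (.nd (nat_lit 6) 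
(.lf (nat_lit 178745) (.g (nat_lit 2334) (.e (nat_lit 57688) (nat_lit 156) (.e (nat_lit 163903) (nat_lit 12) (.e (nat_lit 426566) (nat_lit 34) (.e (nat_lit 393271) (nat_lit 23) (.e (nat_lit 425986) (nat_lit 0) .nil))))) .nil)) 
(.lf (nat_lit 178809) (.g (nat_lit 1290) (.e (nat_lit 57690) (nat_lit 156) (.e (nat_lit 163871) (nat_lit 2) (.e (nat_lit 196624) (nat_lit 9) (.e (nat_lit 1277) (nat_lit 94) .nil)))) .nil)))))) (.nd (nat_lit 3) (.nd (nat_lit 4) (.nd (nat_lit 5) (.nd (nat_lit 6) 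
(.lf (nat_lit 178693) (.g (nat_lit 3632) (.e (nat_lit 57688) (nat_lit 156) (.e (nat_lit 163874) (nat_lit 3) (.e (nat_lit 204830) (nat_lit 18) (.e (nat_lit 57852) (nat_lit 252) (.e (nat_lit 57430) (nat_lit 16) (.e (nat_lit 368676) (nat_lit 21) (.e (nat_lit 516146) (nat_lit 9) (.e (nat_lit 426422) (nat_lit 16) .nil)))))))) (.g (nat_lit 4) .nil .nil))) 
(.lf (nat_lit 178757) (.g (nat_lit 1472) (.e (nat_lit 57688) (nat_lit 156) (.e (nat_lit 163904) (nat_lit 12) (.e (nat_lit 426428) (nat_lit 17) (.e (nat_lit 90185) (nat_lit 17) (.e (nat_lit 237624) (nat_lit 13) .nil))))) .nil))) (.nd (nat_lit 6) 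
(.lf (nat_lit 178725) (.g (nat_lit 1192) (.e (nat_lit 57688) (nat_lit 156) (.e (nat_lit 163902) (nat_lit 12) (.e (nat_lit 426567) (nat_lit 34) .nil))) .nil)) 
(.lf (nat_lit 178789) (.g (nat_lit 662) (.e (nat_lit 57688) (nat_lit 156) (.e (nat_lit 163908) (nat_lit 12) (.e (nat_lit 426528) (nat_lit 27) .nil))) .nil)))) (.nd (nat_lit 5) (.nd (nat_lit 6) 
(.lf (nat_lit 178709) (.g (nat_lit 2665) (.e (nat_lit 57688) (nat_lit 156) (.e (nat_lit 163902) (nat_lit 12) (.e (nat_lit 426472) (nat_lit 25) (.e (nat_lit 319534) (nat_lit 16) (.e (nat_lit 286760) (nat_lit 13) .nil))))) .nil)) 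
(.lf (nat_lit 178773) (.g (nat_lit 2075) (.e (nat_lit 57688) (nat_lit 156) (.e (nat_lit 163905) (nat_lit 12) (.e (nat_lit 426566) (nat_lit 34) (.e (nat_lit 393273) (nat_lit 23) .nil)))) .nil))) (.nd (nat_lit 6) 
(.lf (nat_lit 178741) (.g (nat_lit 1328) (.e (nat_lit 57688) (nat_lit 156) (.e (nat_lit 163903) (nat_lit 12) (.e (nat_lit 426437) (nat_lit 18) (.e (nat_lit 98380) (nat_lit 31) (.e (nat_lit 466954) (nat_lit 11) .nil))))) .nil)) 
(.lf (nat_lit 178805) (.g (nat_lit 1853) (.e (nat_lit 57689) (nat_lit 156) (.e (nat_lit 163907) (nat_lit 12) (.e (nat_lit 426438) (nat_lit 18) (.e (nat_lit 98358) (nat_lit 26) (.e (nat_lit 426323) (nat_lit 13) .nil))))) .nil))))) (.nd (nat_lit 4) (.nd (nat_lit 5) (.nd (nat_lit 6) 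
(.lf (nat_lit 178701) (.g (nat_lit 2317) (.e (nat_lit 57688) (nat_lit 156) (.e (nat_lit 163874) (nat_lit 3) (.e (nat_lit 204838) (nat_lit 20) (.e (nat_lit 114716) (nat_lit 22) (.e (nat_lit 90173) (nat_lit 14) .nil))))) .nil)) 
(.lf (nat_lit 178765) (.g (nat_lit 1152) (.e (nat_lit 57688) (nat_lit 156) (.e (nat_lit 163905) (nat_lit 12) (.e (nat_lit 426428) (nat_lit 17) (.e (nat_lit 90185) (nat_lit 17) .nil)))) .nil))) (.nd (nat_lit 6) 
(.lf (nat_lit 178733) (.g (nat_lit 1599) (.e (nat_lit 57688) (nat_lit 156) (.e (nat_lit 163903) (nat_lit 12) (.e (nat_lit 426427) (nat_lit 17) (.e (nat_lit 90185) (nat_lit 17) (.e (nat_lit 237624) (nat_lit 13) .nil))))) .nil)) 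
(.lf (nat_lit 178797) (.g (nat_lit 2701) (.e (nat_lit 57688) (nat_lit 156) (.e (nat_lit 163938) (nat_lit 18) (.e (nat_lit 475179) (nat_lit 24) (.e (nat_lit 516151) (nat_lit 9) (.e (nat_lit 426331) (nat_lit 13) .nil))))) .nil)))) (.nd (nat_lit 5) (.nd (nat_lit 6) 
(.lf (nat_lit 178717) (.g (nat_lit 1313) (.e (nat_lit 57688) (nat_lit 156) (.e (nat_lit 163902) (nat_lit 12) (.e (nat_lit 426566) (nat_lit 34) (.e (nat_lit 393278) (nat_lit 23) .nil)))) .nil)) 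
(.lf (nat_lit 178781) (.g (nat_lit 854) (.e (nat_lit 57688) (nat_lit 156) (.e (nat_lit 163907) (nat_lit 12) (.e (nat_lit 426491) (nat_lit 27) .nil))) .nil))) (.nd (nat_lit 6) 
(.lf (nat_lit 178749) (.g (nat_lit 1514) (.e (nat_lit 57688) (nat_lit 156) (.e (nat_lit 163903) (nat_lit 12) (.e (nat_lit 426566) (nat_lit 34) (.e (nat_lit 393285) (nat_lit 25) .nil)))) .nil)) 
(.lf (nat_lit 178813) (.g (nat_lit 1944) (.e (nat_lit 57690) (nat_lit 156) (.e (nat_lit 163875) (nat_lit 3) (.e (nat_lit 204838) (nat_lit 20) (.e (nat_lit 114716) (nat_lit 22) (.e (nat_lit 90185) (nat_lit 17) .nil))))) .nil))))))) (.nd (nat_lit 2) (.nd (nat_lit 3) (.nd (nat_lit 4) (.nd (nat_lit 5) (.nd (nat_lit 6) 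
(.lf (nat_lit 178691) (.g (nat_lit 5269) (.e (nat_lit 57688) (nat_lit 156) (.e (nat_lit 163874) (nat_lit 3) (.e (nat_lit 204829) (nat_lit 18) (.e (nat_lit 57847) (nat_lit 252) (.e (nat_lit 57411) (nat_lit 12) (.e (nat_lit 336019) (nat_lit 3) (.e (nat_lit 98356) (nat_lit 26) (.e (nat_lit 426422) (nat_lit 16) .nil)))))))) (.g (nat_lit 6) .nil .nil))) 
(.lf (nat_lit 178755) (.g (nat_lit 1683) (.e (nat_lit 57688) (nat_lit 156) (.e (nat_lit 163903) (nat_lit 12) (.e (nat_lit 426568) (nat_lit 34) (.e (nat_lit 393283) (nat_lit 24) (.e (nat_lit 434230) (nat_lit 23) .nil))))) .nil))) (.nd (nat_lit 6) 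
(.lf (nat_lit 178723) (.g (nat_lit 2256) (.e (nat_lit 57688) (nat_lit 156) (.e (nat_lit 163902) (nat_lit 12) (.e (nat_lit 426566) (nat_lit 34) (.e (nat_lit 393288) (nat_lit 25) (.e (nat_lit 458789) (nat_lit 23) .nil))))) .nil)) 
(.lf (nat_lit 178787) (.g (nat_lit 1588) (.e (nat_lit 57688) (nat_lit 156) (.e (nat_lit 163908) (nat_lit 12) (.e (nat_lit 426412) (nat_lit 15) (.e (nat_lit 1800) (nat_lit 119) .nil)))) .nil)))) (.nd (nat_lit 5) (.nd (nat_lit 6) 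
(.lf (nat_lit 178707) (.g (nat_lit 1596) (.e (nat_lit 57688) (nat_lit 156) (.e (nat_lit 163902) (nat_lit 12) (.e (nat_lit 426428) (nat_lit 17) (.e (nat_lit 90178) (nat_lit 15) (.e (nat_lit 188422) (nat_lit 11) .nil))))) .nil)) 
(.lf (nat_lit 178771) (.g (nat_lit 1535) (.e (nat_lit 57688) (nat_lit 156) (.e (nat_lit 163905) (nat_lit 12) (.e (nat_lit 426437) (nat_lit 18) (.e (nat_lit 98381) (nat_lit 31) (.e (nat_lit 466954) (nat_lit 11) .nil))))) .nil))) (.nd (nat_lit 6) 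
(.lf (nat_lit 178739) (.g (nat_lit 1274) (.e (nat_lit 57688) (nat_lit 156) (.e (nat_lit 163903) (nat_lit 12) (.e (nat_lit 426432) (nat_lit 17) (.e (nat_lit 90176) (nat_lit 15) .nil)))) .nil)) 
(.lf (nat_lit 178803) (.g (nat_lit 960) (.e (nat_lit 57689) (nat_lit 156) (.e (nat_lit 163906) (nat_lit 12) (.e (nat_lit 426479) (nat_lit 27) (.e (nat_lit 336430) (nat_lit 29) (.e (nat_lit 442425) (nat_lit 23) .nil))))) .nil))))) (.nd (nat_lit 4) (.nd (nat_lit 5) (.nd (nat_lit 6) 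
(.lf (nat_lit 178699) (.g (nat_lit 630) (.e (nat_lit 57688) (nat_lit 156) (.e (nat_lit 163874) (nat_lit 3) (.e (nat_lit 204838) (nat_lit 20) .nil))) .nil)) 
(.lf (nat_lit 178763) (.g (nat_lit 1021) (.e (nat_lit 57688) (nat_lit 156) (.e (nat_lit 163904) (nat_lit 12) (.e (nat_lit 426568) (nat_lit 34) (.e (nat_lit 393279) (nat_lit 23) .nil)))) .nil))) (.nd (nat_lit 6) 
(.lf (nat_lit 178731) (.g (nat_lit 1610) (.e (nat_lit 57688) (nat_lit 156) (.e (nat_lit 163903) (nat_lit 12) (.e (nat_lit 426427) (nat_lit 17) (.e (nat_lit 90170) (nat_lit 13) (.e (nat_lit 172121) (nat_lit 13) .nil))))) .nil)) 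
(.lf (nat_lit 178795) (.g (nat_lit 1692) (.e (nat_lit 57688) (nat_lit 156) (.e (nat_lit 163932) (nat_lit 17) (.e (nat_lit 466954) (nat_lit 11) (.e (nat_lit 336069) (nat_lit 8) .nil)))) .nil)))) (.nd (nat_lit 5) (.nd (nat_lit 6) 
(.lf (nat_lit 178715) (.g (nat_lit 2591) (.e (nat_lit 57688) (nat_lit 156) (.e (nat_lit 163902) (nat_lit 12) (.e (nat_lit 426566) (nat_lit 34) (.e (nat_lit 393275) (nat_lit 23) .nil)))) .nil)) 
(.lf (nat_lit 178779) (.g (nat_lit 849) (.e (nat_lit 57688) (nat_lit 156) (.e (nat_lit 163907) (nat_lit 12) (.e (nat_lit 433920) (nat_lit 17) .nil))) .nil))) (.nd (nat_lit 6) 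
(.lf (nat_lit 178747) (.g (nat_lit 1390) (.e (nat_lit 57688) (nat_lit 156) (.e (nat_lit 163903) (nat_lit 12) (.e (nat_lit 426566) (nat_lit 34) (.e (nat_lit 393278) (nat_lit 23) .nil)))) .nil)) 
(.lf (nat_lit 178811) (.g (nat_lit 2006) (.e (nat_lit 57690) (nat_lit 156) (.e (nat_lit 163874) (nat_lit 3) (.e (nat_lit 204838) (nat_lit 20) (.e (nat_lit 114716) (nat_lit 22) (.e (nat_lit 90185) (nat_lit 17) .nil))))) .nil)))))) (.nd (nat_lit 3) (.nd (nat_lit 4) (.nd (nat_lit 5) (.nd (nat_lit 6) 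
(.lf (nat_lit 178695) (.g (nat_lit 2852) (.e (nat_lit 57688) (nat_lit 156) (.e (nat_lit 163874) (nat_lit 3) (.e (nat_lit 204830) (nat_lit 18) (.e (nat_lit 57854) (nat_lit 252) (.e (nat_lit 57431) (nat_lit 16) .nil))))) .nil)) 
(.lf (nat_lit 178759) (.g (nat_lit 1560) (.e (nat_lit 57688) (nat_lit 156) (.e (nat_lit 163904) (nat_lit 12) (.e (nat_lit 426566) (nat_lit 34) (.e (nat_lit 393270) (nat_lit 23) .nil)))) .nil))) (.nd (nat_lit 6) 
(.lf (nat_lit 178727) (.g (nat_lit 1828) (.e (nat_lit 57688) (nat_lit 156) (.e (nat_lit 163902) (nat_lit 12) (.e (nat_lit 426568) (nat_lit 34) (.e (nat_lit 393274) (nat_lit 23) .nil)))) .nil)) 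
(.lf (nat_lit 178791) (.g (nat_lit 814) (.e (nat_lit 57688) (nat_lit 156) (.e (nat_lit 163913) (nat_lit 12) (.e (nat_lit 426435) (nat_lit 18) .nil))) .nil)))) (.nd (nat_lit 5) (.nd (nat_lit 6) 
(.lf (nat_lit 178711) (.g (nat_lit 1781) (.e (nat_lit 57688) (nat_lit 156) (.e (nat_lit 163902) (nat_lit 12) (.e (nat_lit 426566) (nat_lit 34) (.e (nat_lit 393266) (nat_lit 23) (.e (nat_lit 426140) (nat_lit 3) .nil))))) .nil)) 
(.lf (nat_lit 178775) (.g (nat_lit 2387) (.e (nat_lit 57688) (nat_lit 156) (.e (nat_lit 163905) (nat_lit 12) (.e (nat_lit 426566) (nat_lit 34) (.e (nat_lit 393289) (nat_lit 25) (.e (nat_lit 458789) (nat_lit 23) .nil))))) .nil))) (.nd (nat_lit 6) 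
(.lf (nat_lit 178743) (.g (nat_lit 1880) (.e (nat_lit 57688) (nat_lit 156) (.e (nat_lit 163903) (nat_lit 12) (.e (nat_lit 426566) (nat_lit 34) (.e (nat_lit 393266) (nat_lit 23) (.e (nat_lit 426140) (nat_lit 3) .nil))))) .nil)) 
(.lf (nat_lit 178807) (.g (nat_lit 1384) (.e (nat_lit 57689) (nat_lit 156) (.e (nat_lit 163907) (nat_lit 12) (.e (nat_lit 426568) (nat_lit 34) (.e (nat_lit 393279) (nat_lit 23) (.e (nat_lit 426129) (nat_lit 3) .nil))))) .nil))))) (.nd (nat_lit 4) (.nd (nat_lit 5) (.nd (nat_lit 6) 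
(.lf (nat_lit 178703) (.g (nat_lit 2282) (.e (nat_lit 57688) (nat_lit 156) (.e (nat_lit 163875) (nat_lit 3) (.e (nat_lit 204837) (nat_lit 20) (.e (nat_lit 114714) (nat_lit 22) (.e (nat_lit 90185) (nat_lit 17) .nil))))) .nil)) 
(.lf (nat_lit 178767) (.g (nat_lit 701) (.e (nat_lit 57688) (nat_lit 156) (.e (nat_lit 163905) (nat_lit 12) (.e (nat_lit 426434) (nat_lit 18) .nil))) .nil))) (.nd (nat_lit 6) 
(.lf (nat_lit 178735) (.g (nat_lit 2046) (.e (nat_lit 57688) (nat_lit 156) (.e (nat_lit 163903) (nat_lit 12) (.e (nat_lit 426428) (nat_lit 17) (.e (nat_lit 90170) (nat_lit 13) (.e (nat_lit 172122) (nat_lit 13) .nil))))) .nil)) 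
(.lf (nat_lit 178799) (.g (nat_lit 975) (.e (nat_lit 57689) (nat_lit 156) (.e (nat_lit 163875) (nat_lit 3) (.e (nat_lit 204834) (nat_lit 19) .nil))) .nil)))) (.nd (nat_lit 5) (.nd (nat_lit 6) 
(.lf (nat_lit 178719) (.g (nat_lit 2511) (.e (nat_lit 57688) (nat_lit 156) (.e (nat_lit 163902) (nat_lit 12) (.e (nat_lit 426566) (nat_lit 34) (.e (nat_lit 393283) (nat_lit 24) .nil)))) .nil)) 
(.lf (nat_lit 178783) (.g (nat_lit 854) (.e (nat_lit 57688) (nat_lit 156) (.e (nat_lit 163907) (nat_lit 12) (.e (nat_lit 426564) (nat_lit 34) .nil))) .nil))) (.nd (nat_lit 6) 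
(.lf (nat_lit 178751) (.g (nat_lit 1754) (.e (nat_lit 57688) (nat_lit 156) (.e (nat_lit 163903) (nat_lit 12) (.e (nat_lit 426566) (nat_lit 34) (.e (nat_lit 393288) (nat_lit 25) .nil)))) .nil)) 
(.lf (nat_lit 178815) (.g (nat_lit 1489) (.e (nat_lit 57690) (nat_lit 156) (.e (nat_lit 163905) (nat_lit 12) (.e (nat_lit 426568) (nat_lit 34) (.e (nat_lit 393287) (nat_lit 25) (.e (nat_lit 458789) (nat_lit 23) .nil))))) .nil)))))))))

noncomputable def tv2403 : DT := (.nd (nat_lit 0) (.nd (nat_lit 1) (.nd (nat_lit 2) (.nd (nat_lit 3) (.nd (nat_lit 4) (.nd (nat_lit 5) (.nd (nat_lit 6) 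
(.lf (nat_lit 178816) (.g (nat_lit 1856) (.e (nat_lit 57690) (nat_lit 156) (.e (nat_lit 163907) (nat_lit 12) (.e (nat_lit 426428) (nat_lit 17) (.e (nat_lit 90178) (nat_lit 15) .nil)))) .nil)) 
(.lf (nat_lit 178880) (.g (nat_lit 1928) (.e (nat_lit 57691) (nat_lit 156) (.e (nat_lit 163907) (nat_lit 12) (.e (nat_lit 426430) (nat_lit 17) (.e (nat_lit 90185) (nat_lit 17) (.e (nat_lit 237623) (nat_lit 13) .nil))))) .nil))) (.nd (nat_lit 6) 
(.lf (nat_lit 178848) (.g (nat_lit 778) (.e (nat_lit 57691) (nat_lit 156) (.e (nat_lit 163875) (nat_lit 3) (.e (nat_lit 204829) (nat_lit 18) .nil))) .nil)) 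
(.lf (nat_lit 178912) (.g (nat_lit 646) (.e (nat_lit 57692) (nat_lit 156) (.e (nat_lit 163869) (nat_lit 2) (.e (nat_lit 196677) (nat_lit 16) .nil))) .nil)))) (.nd (nat_lit 5) (.nd (nat_lit 6) 
(.lf (nat_lit 178832) (.g (nat_lit 750) (.e (nat_lit 57691) (nat_lit 156) (.e (nat_lit 163871) (nat_lit 2) (.e (nat_lit 196691) (nat_lit 18) .nil))) .nil)) 
(.lf (nat_lit 178896) (.g (nat_lit 734) (.e (nat_lit 57691) (nat_lit 156) (.e (nat_lit 163907) (nat_lit 12) (.e (nat_lit 426567) (nat_lit 34) .nil))) .nil))) (.nd (nat_lit 6) 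
(.lf (nat_lit 178864) (.g (nat_lit 2006) (.e (nat_lit 57691) (nat_lit 156) (.e (nat_lit 163905) (nat_lit 12) (.e (nat_lit 426472) (nat_lit 25) (.e (nat_lit 319534) (nat_lit 16) (.e (nat_lit 286760) (nat_lit 13) .nil))))) .nil)) 
(.lf (nat_lit 178928) (.g (nat_lit 740) (.e (nat_lit 57692) (nat_lit 156) (.e (nat_lit 163874) (nat_lit 3) (.e (nat_lit 204818) (nat_lit 17) .nil))) .nil))))) (.nd (nat_lit 4) (.nd (nat_lit 5) (.nd (nat_lit 6) 
(.lf (nat_lit 178824) (.g (nat_lit 1899) (.e (nat_lit 57691) (nat_lit 156) (.e (nat_lit 163869) (nat_lit 2) (.e (nat_lit 196630) (nat_lit 9) (.e (nat_lit 1278) (nat_lit 94) (.e (nat_lit 114714) (nat_lit 22) .nil))))) .nil)) 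
(.lf (nat_lit 178888) (.g (nat_lit 2015) (.e (nat_lit 57691) (nat_lit 156) (.e (nat_lit 163907) (nat_lit 12) (.e (nat_lit 426437) (nat_lit 18) (.e (nat_lit 98359) (nat_lit 26) (.e (nat_lit 426329) (nat_lit 13) .nil))))) .nil))) (.nd (nat_lit 6) 
(.lf (nat_lit 178856) (.g (nat_lit 1199) (.e (nat_lit 57691) (nat_lit 156) (.e (nat_lit 163875) (nat_lit 3) (.e (nat_lit 204838) (nat_lit 20) (.e (nat_lit 114714) (nat_lit 22) .nil)))) .nil)) 
(.lf (nat_lit 178920) (.g (nat_lit 2443) (.e (nat_lit 57692) (nat_lit 156) (.e (nat_lit 163871) (nat_lit 2) (.e (nat_lit 196656) (nat_lit 11) (.e (nat_lit 16472) (nat_lit 14) .nil)))) .nil)))) (.nd (nat_lit 5) (.nd (nat_lit 6) 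
(.lf (nat_lit 178840) (.g (nat_lit 3588) (.e (nat_lit 57691) (nat_lit 156) (.e (nat_lit 163874) (nat_lit 3) (.e (nat_lit 204837) (nat_lit 20) (.e (nat_lit 114719) (nat_lit 23) (.e (nat_lit 98365) (nat_lit 26) (.e (nat_lit 426133) (nat_lit 3) (.e (nat_lit 204829) (nat_lit 18) .nil))))))) (.g (nat_lit 5) .nil .nil))) 
(.lf (nat_lit 178904) (.g (nat_lit 2576) (.e (nat_lit 57692) (nat_lit 156) (.e (nat_lit 163864) (nat_lit 1) (.e (nat_lit 164332) (nat_lit 230) (.e (nat_lit 163905) (nat_lit 12) (.e (nat_lit 426112) (nat_lit 1) .nil))))) .nil))) (.nd (nat_lit 6) 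
(.lf (nat_lit 178872) (.g (nat_lit 1834) (.e (nat_lit 57691) (nat_lit 156) (.e (nat_lit 163905) (nat_lit 12) (.e (nat_lit 426568) (nat_lit 34) (.e (nat_lit 393284) (nat_lit 24) (.e (nat_lit 434233) (nat_lit 23) .nil))))) .nil)) 
(.lf (nat_lit 178936) (.g (nat_lit 488) (.e (nat_lit 57692) (nat_lit 156) (.e (nat_lit 163874) (nat_lit 3) (.e (nat_lit 204836) (nat_lit 20) .nil))) .nil)))))) (.nd (nat_lit 3) (.nd (nat_lit 4) (.nd (nat_lit 5) (.nd (nat_lit 6) 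
(.lf (nat_lit 178820) (.g (nat_lit 2584) (.e (nat_lit 57691) (nat_lit 156) (.e (nat_lit 163864) (nat_lit 1) (.e (nat_lit 164332) (nat_lit 230) (.e (nat_lit 163905) (nat_lit 12) (.e (nat_lit 426112) (nat_lit 1) .nil))))) .nil)) 
(.lf (nat_lit 178884) (.g (nat_lit 2599) (.e (nat_lit 57691) (nat_lit 156) (.e (nat_lit 163907) (nat_lit 12) (.e (nat_lit 426436) (nat_lit 18) (.e (nat_lit 98359) (nat_lit 26) (.e (nat_lit 426331) (nat_lit 13) .nil))))) .nil))) (.nd (nat_lit 6) 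
(.lf (nat_lit 178852) (.g (nat_lit 1290) (.e (nat_lit 57691) (nat_lit 156) (.e (nat_lit 163875) (nat_lit 3) (.e (nat_lit 204834) (nat_lit 19) (.e (nat_lit 106517) (nat_lit 9) .nil)))) .nil)) 
(.lf (nat_lit 178916) (.g (nat_lit 1673) (.e (nat_lit 57692) (nat_lit 156) (.e (nat_lit 163871) (nat_lit 2) (.e (nat_lit 196624) (nat_lit 9) (.e (nat_lit 1276) (nat_lit 94) .nil)))) .nil)))) (.nd (nat_lit 5) (.nd (nat_lit 6) 
(.lf (nat_lit 178836) (.g (nat_lit 3992) (.e (nat_lit 57691) (nat_lit 156) (.e (nat_lit 163874) (nat_lit 3) (.e (nat_lit 204837) (nat_lit 20) (.e (nat_lit 114714) (nat_lit 22) (.e (nat_lit 90170) (nat_lit 13) (.e (nat_lit 172065) (nat_lit 3) (.e (nat_lit 204830) (nat_lit 18) .nil))))))) (.g (nat_lit 5) .nil .nil))) 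
(.lf (nat_lit 178900) (.g (nat_lit 807) (.e (nat_lit 57691) (nat_lit 156) (.e (nat_lit 163913) (nat_lit 12) (.e (nat_lit 426433) (nat_lit 18) .nil))) .nil))) (.nd (nat_lit 6) 
(.lf (nat_lit 178868) (.g (nat_lit 2251) (.e (nat_lit 57691) (nat_lit 156) (.e (nat_lit 163905) (nat_lit 12) (.e (nat_lit 426566) (nat_lit 34) (.e (nat_lit 393279) (nat_lit 23) (.e (nat_lit 426129) (nat_lit 3) .nil))))) .nil)) 
(.lf (nat_lit 178932) (.g (nat_lit 2696) (.e (nat_lit 57692) (nat_lit 156) (.e (nat_lit 163874) (nat_lit 3) (.e (nat_lit 204831) (nat_lit 18) (.e (nat_lit 57854) (nat_lit 252) (.e (nat_lit 57431) (nat_lit 16) .nil))))) .nil))))) (.nd (nat_lit 4) (.nd (nat_lit 5) (.nd (nat_lit 6) 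
(.lf (nat_lit 178828) (.g (nat_lit 1233) (.e (nat_lit 57691) (nat_lit 156) (.e (nat_lit 163871) (nat_lit 2) (.e (nat_lit 196624) (nat_lit 9) (.e (nat_lit 1277) (nat_lit 94) .nil)))) .nil)) 
(.lf (nat_lit 178892) (.g (nat_lit 847) (.e (nat_lit 57691) (nat_lit 156) (.e (nat_lit 163907) (nat_lit 12) (.e (nat_lit 426480) (nat_lit 27) .nil))) .nil))) (.nd (nat_lit 6) 
(.lf (nat_lit 178860) (.g (nat_lit 2852) (.e (nat_lit 57691) (nat_lit 156) (.e (nat_lit 163905) (nat_lit 12) (.e (nat_lit 426428) (nat_lit 17) (.e (nat_lit 90170) (nat_lit 13) (.e (nat_lit 172095) (nat_lit 9) (.e (nat_lit 426513) (nat_lit 27) (.e (nat_lit 335993) (nat_lit 1) .nil))))))) (.g (nat_lit 5) .nil .nil))) 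
(.lf (nat_lit 178924) (.g (nat_lit 734) (.e (nat_lit 57692) (nat_lit 156) (.e (nat_lit 163871) (nat_lit 2) (.e (nat_lit 196677) (nat_lit 16) .nil))) .nil)))) (.nd (nat_lit 5) (.nd (nat_lit 6) 
(.lf (nat_lit 178844) (.g (nat_lit 1977) (.e (nat_lit 57691) (nat_lit 156) (.e (nat_lit 163874) (nat_lit 3) (.e (nat_lit 204838) (nat_lit 20) (.e (nat_lit 114716) (nat_lit 22) (.e (nat_lit 90172) (nat_lit 14) .nil))))) .nil)) 
(.lf (nat_lit 178908) (.g (nat_lit 2217) (.e (nat_lit 57692) (nat_lit 156) (.e (nat_lit 163869) (nat_lit 2) (.e (nat_lit 196654) (nat_lit 11) (.e (nat_lit 16436) (nat_lit 9) .nil)))) .nil))) (.nd (nat_lit 6) 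
(.lf (nat_lit 178876) (.g (nat_lit 2461) (.e (nat_lit 57691) (nat_lit 156) (.e (nat_lit 163907) (nat_lit 12) (.e (nat_lit 426427) (nat_lit 17) (.e (nat_lit 90170) (nat_lit 13) (.e (nat_lit 172122) (nat_lit 13) .nil))))) .nil)) 
(.lf (nat_lit 178940) (.g (nat_lit 2047) (.e (nat_lit 57692) (nat_lit 156) (.e (nat_lit 163874) (nat_lit 3) (.e (nat_lit 204837) (nat_lit 20) (.e (nat_lit 114714) (nat_lit 22) (.e (nat_lit 90172) (nat_lit 14) .nil))))) .nil))))))) (.nd (nat_lit 2) (.nd (nat_lit 3) (.nd (nat_lit 4) (.nd (nat_lit 5) (.nd (nat_lit 6) 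
(.lf (nat_lit 178818) (.g (nat_lit 513) (.e (nat_lit 57690) (nat_lit 156) (.e (nat_lit 163907) (nat_lit 12) (.e (nat_lit 426568) (nat_lit 34) .nil))) .nil)) 
(.lf (nat_lit 178882) (.g (nat_lit 1505) (.e (nat_lit 57691) (nat_lit 156) (.e (nat_lit 163907) (nat_lit 12) (.e (nat_lit 426432) (nat_lit 17) (.e (nat_lit 90176) (nat_lit 15) .nil)))) .nil))) (.nd (nat_lit 6) 
(.lf (nat_lit 178850) (.g (nat_lit 1695) (.e (nat_lit 57691) (nat_lit 156) (.e (nat_lit 163875) (nat_lit 3) (.e (nat_lit 204830) (nat_lit 18) (.e (nat_lit 57830) (nat_lit 250) .nil)))) .nil)) 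
(.lf (nat_lit 178914) (.g (nat_lit 555) (.e (nat_lit 57692) (nat_lit 156) (.e (nat_lit 163870) (nat_lit 2) (.e (nat_lit 196661) (nat_lit 12) .nil))) .nil)))) (.nd (nat_lit 5) (.nd (nat_lit 6) 
(.lf (nat_lit 178834) (.g (nat_lit 878) (.e (nat_lit 57691) (nat_lit 156) (.e (nat_lit 163874) (nat_lit 3) (.e (nat_lit 204836) (nat_lit 20) .nil))) .nil)) 
(.lf (nat_lit 178898) (.g (nat_lit 1403) (.e (nat_lit 57691) (nat_lit 156) (.e (nat_lit 163907) (nat_lit 12) (.e (nat_lit 426568) (nat_lit 34) (.e (nat_lit 393284) (nat_lit 24) .nil)))) .nil))) (.nd (nat_lit 6) 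
(.lf (nat_lit 178866) (.g (nat_lit 2322) (.e (nat_lit 57691) (nat_lit 156) (.e (nat_lit 163905) (nat_lit 12) (.e (nat_lit 426566) (nat_lit 34) (.e (nat_lit 393272) (nat_lit 23) .nil)))) .nil)) 
(.lf (nat_lit 178930) (.g (nat_lit 5450) (.e (nat_lit 57692) (nat_lit 156) (.e (nat_lit 163874) (nat_lit 3) (.e (nat_lit 204830) (nat_lit 18) (.e (nat_lit 57830) (nat_lit 250) (.e (nat_lit 1214) (nat_lit 89) (.e (nat_lit 73746) (nat_lit 3) (.e (nat_lit 516146) (nat_lit 9) (.e (nat_lit 426422) (nat_lit 16) .nil)))))))) (.g (nat_lit 8) .nil .nil)))))) 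
(.nd (nat_lit 4) (.nd (nat_lit 5) (.nd (nat_lit 6) 
(.lf (nat_lit 178826) (.g (nat_lit 606) (.e (nat_lit 57691) (nat_lit 156) (.e (nat_lit 163870) (nat_lit 2) (.e (nat_lit 196661) (nat_lit 12) .nil))) .nil)) 
(.lf (nat_lit 178890) (.g (nat_lit 620) (.e (nat_lit 57691) (nat_lit 156) (.e (nat_lit 163907) (nat_lit 12) (.e (nat_lit 433920) (nat_lit 18) .nil))) .nil))) (.nd (nat_lit 6) 
(.lf (nat_lit 178858) (.g (nat_lit 4874) (.e (nat_lit 57691) (nat_lit 156) (.e (nat_lit 163875) (nat_lit 3) (.e (nat_lit 204838) (nat_lit 20) (.e (nat_lit 114716) (nat_lit 22) (.e (nat_lit 90172) (nat_lit 14) (.e (nat_lit 180244) (nat_lit 5) (.e (nat_lit 532499) (nat_lit 1) .nil))))))) (.g (nat_lit 0) .nil .nil))) 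
(.lf (nat_lit 178922) (.g (nat_lit 921) (.e (nat_lit 57692) (nat_lit 156) (.e (nat_lit 163871) (nat_lit 2) (.e (nat_lit 196658) (nat_lit 12) .nil))) .nil)))) (.nd (nat_lit 5) (.nd (nat_lit 6) 
(.lf (nat_lit 178842) (.g (nat_lit 2098) (.e (nat_lit 57691) (nat_lit 156) (.e (nat_lit 163874) (nat_lit 3) (.e (nat_lit 204838) (nat_lit 20) (.e (nat_lit 114714) (nat_lit 22) (.e (nat_lit 90185) (nat_lit 17) .nil))))) .nil)) 
(.lf (nat_lit 178906) (.g (nat_lit 620) (.e (nat_lit 57692) (nat_lit 156) (.e (nat_lit 163869) (nat_lit 2) (.e (nat_lit 196624) (nat_lit 9) .nil))) .nil))) (.nd (nat_lit 6) 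
(.lf (nat_lit 178874) (.g (nat_lit 846) (.e (nat_lit 57691) (nat_lit 156) (.e (nat_lit 163907) (nat_lit 12) (.e (nat_lit 426354) (nat_lit 15) .nil))) .nil)) 
(.lf (nat_lit 178938) (.g (nat_lit 2207) (.e (nat_lit 57692) (nat_lit 156) (.e (nat_lit 163874) (nat_lit 3) (.e (nat_lit 204837) (nat_lit 20) (.e (nat_lit 114714) (nat_lit 22) (.e (nat_lit 90169) (nat_lit 13) .nil))))) .nil)))))) (.nd (nat_lit 3) (.nd (nat_lit 4) (.nd (nat_lit 5) (.nd (nat_lit 6) 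
(.lf (nat_lit 178822) (.g (nat_lit 1492) (.e (nat_lit 57691) (nat_lit 156) (.e (nat_lit 163864) (nat_lit 1) (.e (nat_lit 164332) (nat_lit 230) (.e (nat_lit 163916) (nat_lit 13) .nil)))) .nil)) 
(.lf (nat_lit 178886) (.g (nat_lit 1020) (.e (nat_lit 57691) (nat_lit 156) (.e (nat_lit 163907) (nat_lit 12) (.e (nat_lit 426436) (nat_lit 18) (.e (nat_lit 98381) (nat_lit 31) .nil)))) .nil))) (.nd (nat_lit 6) 
(.lf (nat_lit 178854) (.g (nat_lit 4113) (.e (nat_lit 57691) (nat_lit 156) (.e (nat_lit 163875) (nat_lit 3) (.e (nat_lit 204837) (nat_lit 20) (.e (nat_lit 114714) (nat_lit 22) (.e (nat_lit 90172) (nat_lit 14) (.e (nat_lit 180243) (nat_lit 5) (.e (nat_lit 532501) (nat_lit 1) .nil))))))) (.g (nat_lit 5) .nil .nil))) 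
(.lf (nat_lit 178918) (.g (nat_lit 919) (.e (nat_lit 57692) (nat_lit 156) (.e (nat_lit 163871) (nat_lit 2) (.e (nat_lit 196632) (nat_lit 9) .nil))) .nil)))) (.nd (nat_lit 5) (.nd (nat_lit 6) 
(.lf (nat_lit 178838) (.g (nat_lit 1401) (.e (nat_lit 57691) (nat_lit 156) (.e (nat_lit 163874) (nat_lit 3) (.e (nat_lit 204837) (nat_lit 20) (.e (nat_lit 114716) (nat_lit 22) .nil)))) .nil)) 
(.lf (nat_lit 178902) (.g (nat_lit 1582) (.e (nat_lit 57691) (nat_lit 156) (.e (nat_lit 163913) (nat_lit 12) (.e (nat_lit 426435) (nat_lit 18) (.e (nat_lit 98358) (nat_lit 26) (.e (nat_lit 426323) (nat_lit 13) .nil))))) .nil))) (.nd (nat_lit 6) 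
(.lf (nat_lit 178870) (.g (nat_lit 305) (.e (nat_lit 57691) (nat_lit 156) (.e (nat_lit 163905) (nat_lit 12) (.e (nat_lit 426568) (nat_lit 34) .nil))) .nil)) 
(.lf (nat_lit 178934) (.g (nat_lit 934) (.e (nat_lit 57692) (nat_lit 156) (.e (nat_lit 163874) (nat_lit 3) (.e (nat_lit 204834) (nat_lit 19) .nil))) .nil))))) (.nd (nat_lit 4) (.nd (nat_lit 5) (.nd (nat_lit 6) 
(.lf (nat_lit 178830) (.g (nat_lit 920) (.e (nat_lit 57691) (nat_lit 156) (.e (nat_lit 163871) (nat_lit 2) (.e (nat_lit 196632) (nat_lit 9) .nil))) .nil)) 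
(.lf (nat_lit 178894) (.g (nat_lit 826) (.e (nat_lit 57691) (nat_lit 156) (.e (nat_lit 163907) (nat_lit 12) (.e (nat_lit 426564) (nat_lit 34) .nil))) .nil))) (.nd (nat_lit 6) 
(.lf (nat_lit 178862) (.g (nat_lit 1333) (.e (nat_lit 57691) (nat_lit 156) (.e (nat_lit 163905) (nat_lit 12) (.e (nat_lit 426437) (nat_lit 18) (.e (nat_lit 98381) (nat_lit 31) (.e (nat_lit 466954) (nat_lit 11) .nil))))) .nil)) 
(.lf (nat_lit 178926) (.g (nat_lit 912) (.e (nat_lit 57692) (nat_lit 156) (.e (nat_lit 163874) (nat_lit 3) (.e (nat_lit 204814) (nat_lit 17) .nil))) .nil)))) (.nd (nat_lit 5) (.nd (nat_lit 6) 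
(.lf (nat_lit 178846) (.g (nat_lit 891) (.e (nat_lit 57691) (nat_lit 156) (.e (nat_lit 163875) (nat_lit 3) (.e (nat_lit 204814) (nat_lit 17) .nil))) .nil)) 
(.lf (nat_lit 178910) (.g (nat_lit 736) (.e (nat_lit 57692) (nat_lit 156) (.e (nat_lit 163869) (nat_lit 2) (.e (nat_lit 196661) (nat_lit 12) .nil))) .nil))) (.nd (nat_lit 6) 
(.lf (nat_lit 178878) (.g (nat_lit 1939) (.e (nat_lit 57691) (nat_lit 156) (.e (nat_lit 163907) (nat_lit 12) (.e (nat_lit 426428) (nat_lit 17) (.e (nat_lit 90176) (nat_lit 15) (.e (nat_lit 188421) (nat_lit 11) .nil))))) .nil)) 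
(.lf (nat_lit 178942) (.g (nat_lit 2180) (.e (nat_lit 57692) (nat_lit 156) (.e (nat_lit 163874) (nat_lit 3) (.e (nat_lit 204837) (nat_lit 20) (.e (nat_lit 114719) (nat_lit 23) (.e (nat_lit 98376) (nat_lit 30) .nil))))) .nil)))))))) (.nd (nat_lit 1) (.nd (nat_lit 2) (.nd (nat_lit 3) (.nd (nat_lit 4) (.nd (nat_lit 5) (.nd (nat_lit 6) 
(.lf (nat_lit 178817) (.g (nat_lit 1062) (.e (nat_lit 57690) (nat_lit 156) (.e (nat_lit 163907) (nat_lit 12) (.e (nat_lit 426438) (nat_lit 18) .nil))) .nil)) 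
(.lf (nat_lit 178881) (.g (nat_lit 770) (.e (nat_lit 57691) (nat_lit 156) (.e (nat_lit 163907) (nat_lit 12) (.e (nat_lit 426432) (nat_lit 17) .nil))) .nil))) (.nd (nat_lit 6) 
(.lf (nat_lit 178849) (.g (nat_lit 4822) (.e (nat_lit 57691) (nat_lit 156) (.e (nat_lit 163875) (nat_lit 3) (.e (nat_lit 204829) (nat_lit 18) (.e (nat_lit 57847) (nat_lit 252) (.e (nat_lit 57411) (nat_lit 12) (.e (nat_lit 336019) (nat_lit 3) (.e (nat_lit 98356) (nat_lit 26) (.e (nat_lit 426422) (nat_lit 16) .nil)))))))) (.g (nat_lit 6) .nil .nil))) 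
(.lf (nat_lit 178913) (.g (nat_lit 640) (.e (nat_lit 57692) (nat_lit 156) (.e (nat_lit 163869) (nat_lit 2) (.e (nat_lit 196691) (nat_lit 18) .nil))) .nil)))) (.nd (nat_lit 5) (.nd (nat_lit 6) 
(.lf (nat_lit 178833) (.g (nat_lit 870) (.e (nat_lit 57691) (nat_lit 156) (.e (nat_lit 163874) (nat_lit 3) (.e (nat_lit 204831) (nat_lit 18) .nil))) .nil)) 
(.lf (nat_lit 178897) (.g (nat_lit 1594) (.e (nat_lit 57691) (nat_lit 156) (.e (nat_lit 163907) (nat_lit 12) (.e (nat_lit 426568) (nat_lit 34) (.e (nat_lit 393275) (nat_lit 23) .nil)))) .nil))) (.nd (nat_lit 6) 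
(.lf (nat_lit 178865) (.g (nat_lit 2361) (.e (nat_lit 57691) (nat_lit 156) (.e (nat_lit 163905) (nat_lit 12) (.e (nat_lit 426566) (nat_lit 34) (.e (nat_lit 393266) (nat_lit 23) (.e (nat_lit 426140) (nat_lit 3) .nil))))) .nil)) 
(.lf (nat_lit 178929) (.g (nat_lit 765) (.e (nat_lit 57692) (nat_lit 156) (.e (nat_lit 163874) (nat_lit 3) (.e (nat_lit 204822) (nat_lit 17) .nil))) .nil))))) (.nd (nat_lit 4) (.nd (nat_lit 5) (.nd (nat_lit 6) 
(.lf (nat_lit 178825) (.g (nat_lit 1740) (.e (nat_lit 57691) (nat_lit 156) (.e (nat_lit 163870) (nat_lit 2) (.e (nat_lit 196630) (nat_lit 9) (.e (nat_lit 1278) (nat_lit 94) .nil)))) .nil)) 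
(.lf (nat_lit 178889) (.g (nat_lit 1912) (.e (nat_lit 57691) (nat_lit 156) (.e (nat_lit 163907) (nat_lit 12) (.e (nat_lit 426438) (nat_lit 18) (.e (nat_lit 98359) (nat_lit 26) (.e (nat_lit 426324) (nat_lit 13) .nil))))) .nil))) (.nd (nat_lit 6) 
(.lf (nat_lit 178857) (.g (nat_lit 2809) (.e (nat_lit 57691) (nat_lit 156) (.e (nat_lit 163875) (nat_lit 3) (.e (nat_lit 204838) (nat_lit 20) (.e (nat_lit 114714) (nat_lit 22) (.e (nat_lit 90185) (nat_lit 17) (.e (nat_lit 237594) (nat_lit 3) (.e (nat_lit 204830) (nat_lit 18) .nil))))))) (.g (nat_lit 4) .nil .nil))) 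
(.lf (nat_lit 178921) (.g (nat_lit 3575) (.e (nat_lit 57692) (nat_lit 156) (.e (nat_lit 163871) (nat_lit 2) (.e (nat_lit 196656) (nat_lit 11) (.e (nat_lit 16473) (nat_lit 14) (.e (nat_lit 491584) (nat_lit 28) .nil))))) .nil)))) (.nd (nat_lit 5) (.nd (nat_lit 6) 
(.lf (nat_lit 178841) (.g (nat_lit 632) (.e (nat_lit 57691) (nat_lit 156) (.e (nat_lit 163874) (nat_lit 3) (.e (nat_lit 204838) (nat_lit 20) .nil))) .nil)) 
(.lf (nat_lit 178905) (.g (nat_lit 3090) (.e (nat_lit 57692) (nat_lit 156) (.e (nat_lit 163864) (nat_lit 1) (.e (nat_lit 164332) (nat_lit 230) (.e (nat_lit 163905) (nat_lit 12) (.e (nat_lit 426112) (nat_lit 1) (.e (nat_lit 164178) (nat_lit 154) (.e (nat_lit 57437) (nat_lit 17) (.e (nat_lit 376860) (nat_lit 21) .nil)))))))) (.g (nat_lit 4) .nil .nil)))) (.nd (nat_lit 6) 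
(.lf (nat_lit 178873) (.g (nat_lit 1192) (.e (nat_lit 57691) (nat_lit 156) (.e (nat_lit 163906) (nat_lit 12) (.e (nat_lit 426568) (nat_lit 34) (.e (nat_lit 393279) (nat_lit 23) (.e (nat_lit 426129) (nat_lit 3) .nil))))) .nil)) 
(.lf (nat_lit 178937) (.g (nat_lit 430) (.e (nat_lit 57692) (nat_lit 156) (.e (nat_lit 163874) (nat_lit 3) (.e (nat_lit 204837) (nat_lit 20) .nil))) .nil)))))) (.nd (nat_lit 3) (.nd (nat_lit 4) (.nd (nat_lit 5) (.nd (nat_lit 6) 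
(.lf (nat_lit 178821) (.g (nat_lit 3009) (.e (nat_lit 57691) (nat_lit 156) (.e (nat_lit 163864) (nat_lit 1) (.e (nat_lit 164332) (nat_lit 230) (.e (nat_lit 163905) (nat_lit 12) (.e (nat_lit 426112) (nat_lit 1) (.e (nat_lit 164178) (nat_lit 154) (.e (nat_lit 57437) (nat_lit 17) (.e (nat_lit 376859) (nat_lit 21) .nil)))))))) (.g (nat_lit 4) .nil .nil))) 
(.lf (nat_lit 178885) (.g (nat_lit 1545) (.e (nat_lit 57691) (nat_lit 156) (.e (nat_lit 163907) (nat_lit 12) (.e (nat_lit 426436) (nat_lit 18) (.e (nat_lit 98371) (nat_lit 28) .nil)))) .nil))) (.nd (nat_lit 6) 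
(.lf (nat_lit 178853) (.g (nat_lit 662) (.e (nat_lit 57691) (nat_lit 156) (.e (nat_lit 163875) (nat_lit 3) (.e (nat_lit 204836) (nat_lit 20) .nil))) .nil)) 
(.lf (nat_lit 178917) (.g (nat_lit 1232) (.e (nat_lit 57692) (nat_lit 156) (.e (nat_lit 163871) (nat_lit 2) (.e (nat_lit 196624) (nat_lit 9) (.e (nat_lit 1277) (nat_lit 94) .nil)))) .nil)))) (.nd (nat_lit 5) (.nd (nat_lit 6) 
(.lf (nat_lit 178837) (.g (nat_lit 2304) (.e (nat_lit 57691) (nat_lit 156) (.e (nat_lit 163874) (nat_lit 3) (.e (nat_lit 204837) (nat_lit 20) (.e (nat_lit 114714) (nat_lit 22) (.e (nat_lit 90185) (nat_lit 17) .nil))))) .nil)) 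
(.lf (nat_lit 178901) (.g (nat_lit 814) (.e (nat_lit 57691) (nat_lit 156) (.e (nat_lit 163913) (nat_lit 12) (.e (nat_lit 426435) (nat_lit 18) .nil))) .nil))) (.nd (nat_lit 6) 
(.lf (nat_lit 178869) (.g (nat_lit 2259) (.e (nat_lit 57691) (nat_lit 156) (.e (nat_lit 163905) (nat_lit 12) (.e (nat_lit 426566) (nat_lit 34) (.e (nat_lit 393284) (nat_lit 24) .nil)))) .nil)) 
(.lf (nat_lit 178933) (.g (nat_lit 4518) (.e (nat_lit 57692) (nat_lit 156) (.e (nat_lit 163874) (nat_lit 3) (.e (nat_lit 204831) (nat_lit 18) (.e (nat_lit 57854) (nat_lit 252) (.e (nat_lit 57431) (nat_lit 16) (.e (nat_lit 368676) (nat_lit 21) (.e (nat_lit 516146) (nat_lit 9) (.e (nat_lit 426422) (nat_lit 16) .nil)))))))) (.g (nat_lit 5) .nil .nil)))))) 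
(.nd (nat_lit 4) (.nd (nat_lit 5) (.nd (nat_lit 6) 
(.lf (nat_lit 178829) (.g (nat_lit 921) (.e (nat_lit 57691) (nat_lit 156) (.e (nat_lit 163871) (nat_lit 2) (.e (nat_lit 196626) (nat_lit 9) .nil))) .nil)) 
(.lf (nat_lit 178893) (.g (nat_lit 846) (.e (nat_lit 57691) (nat_lit 156) (.e (nat_lit 163907) (nat_lit 12) (.e (nat_lit 426491) (nat_lit 27) .nil))) .nil))) (.nd (nat_lit 6) 
(.lf (nat_lit 178861) (.g (nat_lit 1777) (.e (nat_lit 57691) (nat_lit 156) (.e (nat_lit 163905) (nat_lit 12) (.e (nat_lit 426436) (nat_lit 18) (.e (nat_lit 98359) (nat_lit 26) .nil)))) .nil)) 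
(.lf (nat_lit 178925) (.g (nat_lit 1202) (.e (nat_lit 57692) (nat_lit 156) (.e (nat_lit 163871) (nat_lit 2) (.e (nat_lit 196677) (nat_lit 16) (.e (nat_lit 122969) (nat_lit 48) .nil)))) .nil)))) (.nd (nat_lit 5) (.nd (nat_lit 6) 
(.lf (nat_lit 178845) (.g (nat_lit 3508) (.e (nat_lit 57691) (nat_lit 156) (.e (nat_lit 163874) (nat_lit 3) (.e (nat_lit 204838) (nat_lit 20) (.e (nat_lit 114719) (nat_lit 23) (.e (nat_lit 98365) (nat_lit 26) (.e (nat_lit 426133) (nat_lit 3) (.e (nat_lit 204829) (nat_lit 18) .nil))))))) (.g (nat_lit 5) .nil .nil))) 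
(.lf (nat_lit 178909) (.g (nat_lit 665) (.e (nat_lit 57692) (nat_lit 156) (.e (nat_lit 163869) (nat_lit 2) (.e (nat_lit 196658) (nat_lit 12) .nil))) .nil))) (.nd (nat_lit 6) 
(.lf (nat_lit 178877) (.g (nat_lit 2962) (.e (nat_lit 57691) (nat_lit 156) (.e (nat_lit 163907) (nat_lit 12) (.e (nat_lit 426428) (nat_lit 17) (.e (nat_lit 90170) (nat_lit 13) (.e (nat_lit 172095) (nat_lit 9) (.e (nat_lit 426513) (nat_lit 27) (.e (nat_lit 335993) (nat_lit 1) .nil))))))) (.g (nat_lit 5) .nil .nil))) 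
(.lf (nat_lit 178941) (.g (nat_lit 1919) (.e (nat_lit 57692) (nat_lit 156) (.e (nat_lit 163874) (nat_lit 3) (.e (nat_lit 204837) (nat_lit 20) (.e (nat_lit 114716) (nat_lit 22) (.e (nat_lit 90173) (nat_lit 14) .nil))))) .nil))))))) (.nd (nat_lit 2) (.nd (nat_lit 3) (.nd (nat_lit 4) (.nd (nat_lit 5) (.nd (nat_lit 6) 
(.lf (nat_lit 178819) (.g (nat_lit 1261) (.e (nat_lit 57690) (nat_lit 156) (.e (nat_lit 163907) (nat_lit 12) (.e (nat_lit 426568) (nat_lit 34) (.e (nat_lit 393271) (nat_lit 23) .nil)))) .nil)) 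
(.lf (nat_lit 178883) (.g (nat_lit 2067) (.e (nat_lit 57691) (nat_lit 156) (.e (nat_lit 163907) (nat_lit 12) (.e (nat_lit 426436) (nat_lit 18) (.e (nat_lit 98358) (nat_lit 26) (.e (nat_lit 433920) (nat_lit 13) .nil))))) .nil))) (.nd (nat_lit 6) 
(.lf (nat_lit 178851) (.g (nat_lit 891) (.e (nat_lit 57691) (nat_lit 156) (.e (nat_lit 163875) (nat_lit 3) (.e (nat_lit 204832) (nat_lit 19) .nil))) .nil)) 
(.lf (nat_lit 178915) (.g (nat_lit 1128) (.e (nat_lit 57692) (nat_lit 156) (.e (nat_lit 163870) (nat_lit 2) (.e (nat_lit 196661) (nat_lit 12) (.e (nat_lit 57532) (nat_lit 46) .nil)))) .nil)))) (.nd (nat_lit 5) (.nd (nat_lit 6) 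
(.lf (nat_lit 178835) (.g (nat_lit 635) (.e (nat_lit 57691) (nat_lit 156) (.e (nat_lit 163874) (nat_lit 3) (.e (nat_lit 204837) (nat_lit 20) .nil))) .nil)) 
(.lf (nat_lit 178899) (.g (nat_lit 2062) (.e (nat_lit 57691) (nat_lit 156) (.e (nat_lit 163913) (nat_lit 12) (.e (nat_lit 426429) (nat_lit 17) (.e (nat_lit 90185) (nat_lit 17) (.e (nat_lit 237623) (nat_lit 13) .nil))))) .nil))) (.nd (nat_lit 6) 
(.lf (nat_lit 178867) (.g (nat_lit 2219) (.e (nat_lit 57691) (nat_lit 156) (.e (nat_lit 163905) (nat_lit 12) (.e (nat_lit 426566) (nat_lit 34) (.e (nat_lit 393274) (nat_lit 23) .nil)))) .nil)) 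
(.lf (nat_lit 178931) (.g (nat_lit 2983) (.e (nat_lit 57692) (nat_lit 156) (.e (nat_lit 163874) (nat_lit 3) (.e (nat_lit 204830) (nat_lit 18) (.e (nat_lit 57854) (nat_lit 252) (.e (nat_lit 57431) (nat_lit 16) (.e (nat_lit 368676) (nat_lit 21) (.e (nat_lit 516146) (nat_lit 9) (.e (nat_lit 426422) (nat_lit 16) .nil)))))))) (.g (nat_lit 4) .nil .nil)))))) 
(.nd (nat_lit 4) (.nd (nat_lit 5) (.nd (nat_lit 6) 
(.lf (nat_lit 178827) (.g (nat_lit 1673) (.e (nat_lit 57691) (nat_lit 156) (.e (nat_lit 163871) (nat_lit 2) (.e (nat_lit 196624) (nat_lit 9) (.e (nat_lit 1276) (nat_lit 94) .nil)))) .nil)) 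
(.lf (nat_lit 178891) (.g (nat_lit 2731) (.e (nat_lit 57691) (nat_lit 156) (.e (nat_lit 163907) (nat_lit 12) (.e (nat_lit 426472) (nat_lit 25) (.e (nat_lit 319533) (nat_lit 16) (.e (nat_lit 286760) (nat_lit 13) (.e (nat_lit 401152) (nat_lit 1) .nil)))))) (.g (nat_lit 4) .nil .nil)))) (.nd (nat_lit 6) 
(.lf (nat_lit 178859) (.g (nat_lit 2030) (.e (nat_lit 57691) (nat_lit 156) (.e (nat_lit 163875) (nat_lit 3) (.e (nat_lit 204838) (nat_lit 20) (.e (nat_lit 114716) (nat_lit 22) (.e (nat_lit 90173) (nat_lit 14) .nil))))) .nil)) 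
(.lf (nat_lit 178923) (.g (nat_lit 885) (.e (nat_lit 57692) (nat_lit 156) (.e (nat_lit 163871) (nat_lit 2) (.e (nat_lit 196660) (nat_lit 12) .nil))) .nil)))) (.nd (nat_lit 5) (.nd (nat_lit 6) 
(.lf (nat_lit 178843) (.g (nat_lit 1265) (.e (nat_lit 57691) (nat_lit 156) (.e (nat_lit 163874) (nat_lit 3) (.e (nat_lit 204838) (nat_lit 20) (.e (nat_lit 114716) (nat_lit 22) .nil)))) .nil)) 
(.lf (nat_lit 178907) (.g (nat_lit 1276) (.e (nat_lit 57692) (nat_lit 156) (.e (nat_lit 163869) (nat_lit 2) (.e (nat_lit 196624) (nat_lit 9) (.e (nat_lit 1277) (nat_lit 94) .nil)))) .nil))) (.nd (nat_lit 6) 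
(.lf (nat_lit 178875) (.g (nat_lit 1714) (.e (nat_lit 57691) (nat_lit 156) (.e (nat_lit 163907) (nat_lit 12) (.e (nat_lit 426427) (nat_lit 17) (.e (nat_lit 90170) (nat_lit 13) (.e (nat_lit 172121) (nat_lit 13) .nil))))) .nil)) 
(.lf (nat_lit 178939) (.g (nat_lit 3789) (.e (nat_lit 57692) (nat_lit 156) (.e (nat_lit 163874) (nat_lit 3) (.e (nat_lit 204837) (nat_lit 20) (.e (nat_lit 114714) (nat_lit 22) (.e (nat_lit 90170) (nat_lit 13) (.e (nat_lit 172065) (nat_lit 3) (.e (nat_lit 204830) (nat_lit 18) .nil))))))) (.g (nat_lit 5) .nil .nil))))))) (.nd (nat_lit 3) (.nd (nat_lit 4) (.nd (nat_lit 5) (.nd (nat_lit 6) 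
(.lf (nat_lit 178823) (.g (nat_lit 1754) (.e (nat_lit 57691) (nat_lit 156) (.e (nat_lit 163869) (nat_lit 2) (.e (nat_lit 196624) (nat_lit 9) (.e (nat_lit 1276) (nat_lit 94) .nil)))) .nil)) 
(.lf (nat_lit 178887) (.g (nat_lit 660) (.e (nat_lit 57691) (nat_lit 156) (.e (nat_lit 163907) (nat_lit 12) (.e (nat_lit 426437) (nat_lit 18) .nil))) .nil))) (.nd (nat_lit 6) 
(.lf (nat_lit 178855) (.g (nat_lit 1222) (.e (nat_lit 57691) (nat_lit 156) (.e (nat_lit 163875) (nat_lit 3) (.e (nat_lit 204837) (nat_lit 20) (.e (nat_lit 114716) (nat_lit 22) .nil)))) .nil)) 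
(.lf (nat_lit 178919) (.g (nat_lit 2404) (.e (nat_lit 57692) (nat_lit 156) (.e (nat_lit 163871) (nat_lit 2) (.e (nat_lit 196656) (nat_lit 11) (.e (nat_lit 16458) (nat_lit 12) .nil)))) .nil)))) (.nd (nat_lit 5) (.nd (nat_lit 6) 
(.lf (nat_lit 178839) (.g (nat_lit 2096) (.e (nat_lit 57691) (nat_lit 156) (.e (nat_lit 163874) (nat_lit 3) (.e (nat_lit 204837) (nat_lit 20) (.e (nat_lit 114716) (nat_lit 22) (.e (nat_lit 90168) (nat_lit 13) .nil))))) .nil)) 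
(.lf (nat_lit 178903) (.g (nat_lit 3222) (.e (nat_lit 57691) (nat_lit 156) (.e (nat_lit 163938) (nat_lit 18) (.e (nat_lit 475185) (nat_lit 29) (.e (nat_lit 557072) (nat_lit 9) (.e (nat_lit 353) (nat_lit 29) (.e (nat_lit 401459) (nat_lit 13) (.e (nat_lit 483364) (nat_lit 18) .nil))))))) (.g (nat_lit 4) .nil .nil)))) (.nd (nat_lit 6) 
(.lf (nat_lit 178871) (.g (nat_lit 1393) (.e (nat_lit 57691) (nat_lit 156) (.e (nat_lit 163905) (nat_lit 12) (.e (nat_lit 426568) (nat_lit 34) (.e (nat_lit 393283) (nat_lit 24) (.e (nat_lit 434234) (nat_lit 23) .nil))))) .nil)) 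
(.lf (nat_lit 178935) (.g (nat_lit 1209) (.e (nat_lit 57692) (nat_lit 156) (.e (nat_lit 163874) (nat_lit 3) (.e (nat_lit 204834) (nat_lit 19) (.e (nat_lit 106517) (nat_lit 9) (.e (nat_lit 1234) (nat_lit 91) .nil))))) .nil))))) (.nd (nat_lit 4) (.nd (nat_lit 5) (.nd (nat_lit 6) 
(.lf (nat_lit 178831) (.g (nat_lit 737) (.e (nat_lit 57691) (nat_lit 156) (.e (nat_lit 163871) (nat_lit 2) (.e (nat_lit 196677) (nat_lit 16) .nil))) .nil)) 
(.lf (nat_lit 178895) (.g (nat_lit 1436) (.e (nat_lit 57691) (nat_lit 156) (.e (nat_lit 163907) (nat_lit 12) (.e (nat_lit 426566) (nat_lit 34) (.e (nat_lit 393267) (nat_lit 23) .nil)))) .nil))) (.nd (nat_lit 6) 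
(.lf (nat_lit 178863) (.g (nat_lit 1756) (.e (nat_lit 57691) (nat_lit 156) (.e (nat_lit 163905) (nat_lit 12) (.e (nat_lit 426472) (nat_lit 25) (.e (nat_lit 319533) (nat_lit 16) (.e (nat_lit 286760) (nat_lit 13) .nil))))) .nil)) 
(.lf (nat_lit 178927) (.g (nat_lit 932) (.e (nat_lit 57692) (nat_lit 156) (.e (nat_lit 163874) (nat_lit 3) (.e (nat_lit 204816) (nat_lit 17) .nil))) .nil)))) (.nd (nat_lit 5) (.nd (nat_lit 6) 
(.lf (nat_lit 178847) (.g (nat_lit 890) (.e (nat_lit 57691) (nat_lit 156) (.e (nat_lit 163875) (nat_lit 3) (.e (nat_lit 204815) (nat_lit 17) .nil))) .nil)) 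
(.lf (nat_lit 178911) (.g (nat_lit 1279) (.e (nat_lit 57692) (nat_lit 156) (.e (nat_lit 163869) (nat_lit 2) (.e (nat_lit 196661) (nat_lit 12) (.e (nat_lit 57532) (nat_lit 46) .nil)))) .nil))) (.nd (nat_lit 6) 
(.lf (nat_lit 178879) (.g (nat_lit 1633) (.e (nat_lit 57691) (nat_lit 156) (.e (nat_lit 163907) (nat_lit 12) (.e (nat_lit 426430) (nat_lit 17) (.e (nat_lit 90176) (nat_lit 15) (.e (nat_lit 188423) (nat_lit 11) .nil))))) .nil)) 
(.lf (nat_lit 178943) (.g (nat_lit 343) (.e (nat_lit 57692) (nat_lit 156) (.e (nat_lit 163874) (nat_lit 3) (.e (nat_lit 204838) (nat_lit 20) .nil))) .nil)))))))))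

noncomputable def tv2404 : DT := (.nd (nat_lit 0) (.nd (nat_lit 1) (.nd (nat_lit 2) (.nd (nat_lit 3) (.nd (nat_lit 4) (.nd (nat_lit 5) (.nd (nat_lit 6) 
(.lf (nat_lit 178944) (.g (nat_lit 1787) (.e (nat_lit 57692) (nat_lit 156) (.e (nat_lit 163874) (nat_lit 3) (.e (nat_lit 204838) (nat_lit 20) (.e (nat_lit 114714) (nat_lit 22) (.e (nat_lit 90169) (nat_lit 13) .nil))))) .nil)) 
(.lf (nat_lit 179008) (.g (nat_lit 1461) (.e (nat_lit 57692) (nat_lit 156) (.e (nat_lit 163907) (nat_lit 12) (.e (nat_lit 426432) (nat_lit 17) (.e (nat_lit 90183) (nat_lit 17) .nil)))) .nil))) (.nd (nat_lit 6) 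
(.lf (nat_lit 178976) (.g (nat_lit 1003) (.e (nat_lit 57692) (nat_lit 156) (.e (nat_lit 163905) (nat_lit 12) (.e (nat_lit 433920) (nat_lit 18) .nil))) .nil)) 
(.lf (nat_lit 179040) (.g (nat_lit 455) (.e (nat_lit 65280) (nat_lit 160) (.e (nat_lit 57375) (nat_lit 2) (.e (nat_lit 90176) (nat_lit 15) .nil))) .nil)))) (.nd (nat_lit 5) (.nd (nat_lit 6) 
(.lf (nat_lit 178960) (.g (nat_lit 2262) (.e (nat_lit 57692) (nat_lit 156) (.e (nat_lit 163875) (nat_lit 3) (.e (nat_lit 204838) (nat_lit 20) (.e (nat_lit 114716) (nat_lit 22) (.e (nat_lit 90173) (nat_lit 14) .nil))))) .nil)) 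
(.lf (nat_lit 179024) (.g (nat_lit 1658) (.e (nat_lit 57692) (nat_lit 156) (.e (nat_lit 163907) (nat_lit 12) (.e (nat_lit 426566) (nat_lit 34) (.e (nat_lit 393273) (nat_lit 23) (.e (nat_lit 433920) (nat_lit 3) .nil))))) .nil))) (.nd (nat_lit 6) 
(.lf (nat_lit 178992) (.g (nat_lit 1229) (.e (nat_lit 57692) (nat_lit 156) (.e (nat_lit 163906) (nat_lit 12) (.e (nat_lit 426566) (nat_lit 34) (.e (nat_lit 393266) (nat_lit 23) .nil)))) .nil)) 
(.lf (nat_lit 179056) (.g (nat_lit 4393) (.e (nat_lit 65280) (nat_lit 166) (.e (nat_lit 57377) (nat_lit 3) (.e (nat_lit 98317) (nat_lit 9) (.e (nat_lit 336194) (nat_lit 12) .nil)))) .nil))))) (.nd (nat_lit 4) (.nd (nat_lit 5) (.nd (nat_lit 6) 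
(.lf (nat_lit 178952) (.g (nat_lit 2556) (.e (nat_lit 57692) (nat_lit 156) (.e (nat_lit 163875) (nat_lit 3) (.e (nat_lit 204830) (nat_lit 18) (.e (nat_lit 57854) (nat_lit 252) (.e (nat_lit 57430) (nat_lit 16) .nil))))) .nil)) 
(.lf (nat_lit 179016) (.g (nat_lit 1871) (.e (nat_lit 57692) (nat_lit 156) (.e (nat_lit 163907) (nat_lit 12) (.e (nat_lit 426472) (nat_lit 25) (.e (nat_lit 319533) (nat_lit 16) (.e (nat_lit 286760) (nat_lit 13) .nil))))) .nil))) (.nd (nat_lit 6) 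
(.lf (nat_lit 178984) (.g (nat_lit 1505) (.e (nat_lit 57692) (nat_lit 156) (.e (nat_lit 163905) (nat_lit 12) (.e (nat_lit 426566) (nat_lit 34) (.e (nat_lit 393273) (nat_lit 23) (.e (nat_lit 433920) (nat_lit 3) .nil))))) .nil)) 
(.lf (nat_lit 179048) (.g (nat_lit 2397) (.e (nat_lit 65280) (nat_lit 166) (.e (nat_lit 57371) (nat_lit 2) (.e (nat_lit 90160) (nat_lit 11) (.e (nat_lit 24651) (nat_lit 12) .nil)))) .nil)))) (.nd (nat_lit 5) (.nd (nat_lit 6) 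
(.lf (nat_lit 178968) (.g (nat_lit 2178) (.e (nat_lit 57692) (nat_lit 156) (.e (nat_lit 163905) (nat_lit 12) (.e (nat_lit 426436) (nat_lit 18) (.e (nat_lit 98370) (nat_lit 28) (.e (nat_lit 442388) (nat_lit 11) .nil))))) .nil)) 
(.lf (nat_lit 179032) (.g (nat_lit 700) (.e (nat_lit 57692) (nat_lit 156) (.e (nat_lit 163913) (nat_lit 12) (.e (nat_lit 426435) (nat_lit 18) .nil))) .nil))) (.nd (nat_lit 6) 
(.lf (nat_lit 179000) (.g (nat_lit 870) (.e (nat_lit 57692) (nat_lit 156) (.e (nat_lit 163907) (nat_lit 12) (.e (nat_lit 426360) (nat_lit 15) .nil))) .nil)) 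
(.lf (nat_lit 179064) (.g (nat_lit 1956) (.e (nat_lit 65280) (nat_lit 168) (.e (nat_lit 163868) (nat_lit 2) (.e (nat_lit 196670) (nat_lit 14) (.e (nat_lit 73754) (nat_lit 8) .nil)))) .nil)))))) (.nd (nat_lit 3) (.nd (nat_lit 4) (.nd (nat_lit 5) (.nd (nat_lit 6) 
(.lf (nat_lit 178948) (.g (nat_lit 866) (.e (nat_lit 57692) (nat_lit 156) (.e (nat_lit 163875) (nat_lit 3) (.e (nat_lit 204830) (nat_lit 18) .nil))) .nil)) 
(.lf (nat_lit 179012) (.g (nat_lit 1400) (.e (nat_lit 57692) (nat_lit 156) (.e (nat_lit 163907) (nat_lit 12) (.e (nat_lit 426436) (nat_lit 18) (.e (nat_lit 98371) (nat_lit 28) .nil)))) .nil))) (.nd (nat_lit 6) 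
(.lf (nat_lit 178980) (.g (nat_lit 1891) (.e (nat_lit 57692) (nat_lit 156) (.e (nat_lit 163905) (nat_lit 12) (.e (nat_lit 426564) (nat_lit 34) (.e (nat_lit 393281) (nat_lit 23) (.e (nat_lit 426133) (nat_lit 3) .nil))))) .nil)) 
(.lf (nat_lit 179044) (.g (nat_lit 1214) (.e (nat_lit 57704) (nat_lit 164) (.e (nat_lit 2638) (nat_lit 165) (.e (nat_lit 180285) (nat_lit 45) (.e (nat_lit 2545) (nat_lit 158) .nil)))) .nil)))) (.nd (nat_lit 5) (.nd (nat_lit 6) 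
(.lf (nat_lit 178964) (.g (nat_lit 618) (.e (nat_lit 57692) (nat_lit 156) (.e (nat_lit 163905) (nat_lit 12) (.e (nat_lit 426354) (nat_lit 15) .nil))) .nil)) 
(.lf (nat_lit 179028) (.g (nat_lit 615) (.e (nat_lit 57692) (nat_lit 156) (.e (nat_lit 163907) (nat_lit 12) (.e (nat_lit 426567) (nat_lit 34) .nil))) .nil))) (.nd (nat_lit 6) 
(.lf (nat_lit 178996) (.g (nat_lit 2661) (.e (nat_lit 57692) (nat_lit 156) (.e (nat_lit 163907) (nat_lit 12) (.e (nat_lit 426131) (nat_lit 3) (.e (nat_lit 204838) (nat_lit 20) (.e (nat_lit 114711) (nat_lit 21) (.e (nat_lit 57754) (nat_lit 209) (.e (nat_lit 1294) (nat_lit 96) (.e (nat_lit 131089) (nat_lit 1) .nil)))))))) (.g (nat_lit 4) .nil .nil))) 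
(.lf (nat_lit 179060) (.g (nat_lit 2299) (.e (nat_lit 65280) (nat_lit 168) (.e (nat_lit 163868) (nat_lit 2) (.e (nat_lit 196668) (nat_lit 14) (.e (nat_lit 73753) (nat_lit 8) (.e (nat_lit 557104) (nat_lit 14) .nil))))) .nil))))) (.nd (nat_lit 4) (.nd (nat_lit 5) (.nd (nat_lit 6) 
(.lf (nat_lit 178956) (.g (nat_lit 2193) (.e (nat_lit 57692) (nat_lit 156) (.e (nat_lit 163875) (nat_lit 3) (.e (nat_lit 204837) (nat_lit 20) (.e (nat_lit 114718) (nat_lit 23) (.e (nat_lit 98363) (nat_lit 26) .nil))))) .nil)) 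
(.lf (nat_lit 179020) (.g (nat_lit 2576) (.e (nat_lit 57692) (nat_lit 156) (.e (nat_lit 163907) (nat_lit 12) (.e (nat_lit 426564) (nat_lit 34) (.e (nat_lit 393271) (nat_lit 23) (.e (nat_lit 426131) (nat_lit 3) .nil))))) .nil))) (.nd (nat_lit 6) 
(.lf (nat_lit 178988) (.g (nat_lit 975) (.e (nat_lit 57692) (nat_lit 156) (.e (nat_lit 163905) (nat_lit 12) (.e (nat_lit 426567) (nat_lit 34) (.e (nat_lit 393279) (nat_lit 23) .nil)))) .nil)) 
(.lf (nat_lit 179052) (.g (nat_lit 2317) (.e (nat_lit 65280) (nat_lit 166) (.e (nat_lit 57373) (nat_lit 2) (.e (nat_lit 90158) (nat_lit 11) (.e (nat_lit 24651) (nat_lit 12) .nil)))) .nil)))) (.nd (nat_lit 5) (.nd (nat_lit 6) 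
(.lf (nat_lit 178972) (.g (nat_lit 483) (.e (nat_lit 57692) (nat_lit 156) (.e (nat_lit 163905) (nat_lit 12) (.e (nat_lit 426437) (nat_lit 18) .nil))) .nil)) 
(.lf (nat_lit 179036) (.g (nat_lit 2670) (.e (nat_lit 57692) (nat_lit 156) (.e (nat_lit 163939) (nat_lit 18) (.e (nat_lit 475185) (nat_lit 29) (.e (nat_lit 557072) (nat_lit 9) (.e (nat_lit 353) (nat_lit 29) (.e (nat_lit 401459) (nat_lit 13) (.e (nat_lit 483364) (nat_lit 18) .nil))))))) (.g (nat_lit 4) .nil .nil)))) (.nd (nat_lit 6) 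
(.lf (nat_lit 179004) (.g (nat_lit 2931) (.e (nat_lit 57692) (nat_lit 156) (.e (nat_lit 163907) (nat_lit 12) (.e (nat_lit 426428) (nat_lit 17) (.e (nat_lit 90170) (nat_lit 13) (.e (nat_lit 172095) (nat_lit 9) (.e (nat_lit 426513) (nat_lit 27) (.e (nat_lit 335993) (nat_lit 1) .nil))))))) (.g (nat_lit 5) .nil .nil))) 
(.lf (nat_lit 179068) (.g (nat_lit 2636) (.e (nat_lit 65280) (nat_lit 168) (.e (nat_lit 163871) (nat_lit 2) (.e (nat_lit 196670) (nat_lit 14) (.e (nat_lit 73753) (nat_lit 8) (.e (nat_lit 557105) (nat_lit 14) .nil))))) .nil))))))) (.nd (nat_lit 2) (.nd (nat_lit 3) (.nd (nat_lit 4) (.nd (nat_lit 5) (.nd (nat_lit 6) 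
(.lf (nat_lit 178946) (.g (nat_lit 1957) (.e (nat_lit 57692) (nat_lit 156) (.e (nat_lit 163875) (nat_lit 3) (.e (nat_lit 204817) (nat_lit 17) (.e (nat_lit 2203) (nat_lit 144) (.e (nat_lit 720941) (nat_lit 22) .nil))))) .nil)) 
(.lf (nat_lit 179010) (.g (nat_lit 1420) (.e (nat_lit 57692) (nat_lit 156) (.e (nat_lit 163907) (nat_lit 12) (.e (nat_lit 426434) (nat_lit 18) (.e (nat_lit 98369) (nat_lit 28) (.e (nat_lit 442390) (nat_lit 11) .nil))))) .nil))) (.nd (nat_lit 6) 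
(.lf (nat_lit 178978) (.g (nat_lit 985) (.e (nat_lit 57692) (nat_lit 156) (.e (nat_lit 163905) (nat_lit 12) (.e (nat_lit 426491) (nat_lit 27) .nil))) .nil)) 
(.lf (nat_lit 179042) (.g (nat_lit 495) (.e (nat_lit 65280) (nat_lit 161) (.e (nat_lit 122919) (nat_lit 15) (.e (nat_lit 360475) (nat_lit 8) .nil))) .nil)))) (.nd (nat_lit 5) (.nd (nat_lit 6) 
(.lf (nat_lit 178962) (.g (nat_lit 1996) (.e (nat_lit 57692) (nat_lit 156) (.e (nat_lit 163875) (nat_lit 3) (.e (nat_lit 204838) (nat_lit 20) (.e (nat_lit 114718) (nat_lit 23) (.e (nat_lit 98363) (nat_lit 26) .nil))))) .nil)) 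
(.lf (nat_lit 179026) (.g (nat_lit 1071) (.e (nat_lit 57692) (nat_lit 156) (.e (nat_lit 163907) (nat_lit 12) (.e (nat_lit 426566) (nat_lit 34) (.e (nat_lit 393278) (nat_lit 23) .nil)))) .nil))) (.nd (nat_lit 6) 
(.lf (nat_lit 178994) (.g (nat_lit 868) (.e (nat_lit 57692) (nat_lit 156) (.e (nat_lit 163906) (nat_lit 12) (.e (nat_lit 426568) (nat_lit 34) (.e (nat_lit 393282) (nat_lit 24) .nil)))) .nil)) 
(.lf (nat_lit 179058) (.g (nat_lit 2192) (.e (nat_lit 65280) (nat_lit 168) (.e (nat_lit 163867) (nat_lit 2) (.e (nat_lit 196668) (nat_lit 14) (.e (nat_lit 73753) (nat_lit 8) (.e (nat_lit 557104) (nat_lit 14) .nil))))) .nil))))) (.nd (nat_lit 4) (.nd (nat_lit 5) (.nd (nat_lit 6) 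
(.lf (nat_lit 178954) (.g (nat_lit 2449) (.e (nat_lit 57692) (nat_lit 156) (.e (nat_lit 163875) (nat_lit 3) (.e (nat_lit 204837) (nat_lit 20) (.e (nat_lit 114714) (nat_lit 22) (.e (nat_lit 90169) (nat_lit 13) .nil))))) .nil)) 
(.lf (nat_lit 179018) (.g (nat_lit 597) (.e (nat_lit 57692) (nat_lit 156) (.e (nat_lit 163907) (nat_lit 12) (.e (nat_lit 433920) (nat_lit 27) .nil))) .nil))) (.nd (nat_lit 6) 
(.lf (nat_lit 178986) (.g (nat_lit 1796) (.e (nat_lit 57692) (nat_lit 156) (.e (nat_lit 163905) (nat_lit 12) (.e (nat_lit 426566) (nat_lit 34) (.e (nat_lit 393284) (nat_lit 24) (.e (nat_lit 434233) (nat_lit 23) .nil))))) .nil)) 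
(.lf (nat_lit 179050) (.g (nat_lit 1288) (.e (nat_lit 65280) (nat_lit 166) (.e (nat_lit 57373) (nat_lit 2) (.e (nat_lit 90158) (nat_lit 11) .nil))) .nil)))) (.nd (nat_lit 5) (.nd (nat_lit 6) 
(.lf (nat_lit 178970) (.g (nat_lit 1589) (.e (nat_lit 57692) (nat_lit 156) (.e (nat_lit 163905) (nat_lit 12) (.e (nat_lit 426436) (nat_lit 18) (.e (nat_lit 98371) (nat_lit 28) (.e (nat_lit 442387) (nat_lit 11) .nil))))) .nil)) 
(.lf (nat_lit 179034) (.g (nat_lit 2352) (.e (nat_lit 57692) (nat_lit 156) (.e (nat_lit 163938) (nat_lit 18) (.e (nat_lit 475185) (nat_lit 29) (.e (nat_lit 557072) (nat_lit 9) (.e (nat_lit 353) (nat_lit 29) .nil))))) .nil))) (.nd (nat_lit 6) 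
(.lf (nat_lit 179002) (.g (nat_lit 918) (.e (nat_lit 57692) (nat_lit 156) (.e (nat_lit 163907) (nat_lit 12) (.e (nat_lit 426402) (nat_lit 15) .nil))) .nil)) 
(.lf (nat_lit 179066) (.g (nat_lit 2450) (.e (nat_lit 65280) (nat_lit 168) (.e (nat_lit 163869) (nat_lit 2) (.e (nat_lit 196670) (nat_lit 14) (.e (nat_lit 73753) (nat_lit 8) (.e (nat_lit 557103) (nat_lit 14) .nil))))) .nil)))))) (.nd (nat_lit 3) (.nd (nat_lit 4) (.nd (nat_lit 5) (.nd (nat_lit 6) 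
(.lf (nat_lit 178950) (.g (nat_lit 2941) (.e (nat_lit 57692) (nat_lit 156) (.e (nat_lit 163875) (nat_lit 3) (.e (nat_lit 204830) (nat_lit 18) (.e (nat_lit 57852) (nat_lit 252) (.e (nat_lit 57421) (nat_lit 13) .nil))))) .nil)) 
(.lf (nat_lit 179014) (.g (nat_lit 1977) (.e (nat_lit 57692) (nat_lit 156) (.e (nat_lit 163907) (nat_lit 12) (.e (nat_lit 426437) (nat_lit 18) (.e (nat_lit 98359) (nat_lit 26) (.e (nat_lit 426329) (nat_lit 13) .nil))))) .nil))) (.nd (nat_lit 6) 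
(.lf (nat_lit 178982) (.g (nat_lit 1826) (.e (nat_lit 57692) (nat_lit 156) (.e (nat_lit 163905) (nat_lit 12) (.e (nat_lit 426566) (nat_lit 34) (.e (nat_lit 393267) (nat_lit 23) (.e (nat_lit 426131) (nat_lit 3) .nil))))) .nil)) 
(.lf (nat_lit 179046) (.g (nat_lit 776) (.e (nat_lit 65280) (nat_lit 166) (.e (nat_lit 57371) (nat_lit 2) (.e (nat_lit 90160) (nat_lit 11) .nil))) .nil)))) (.nd (nat_lit 5) (.nd (nat_lit 6) 
(.lf (nat_lit 178966) (.g (nat_lit 565) (.e (nat_lit 57692) (nat_lit 156) (.e (nat_lit 163905) (nat_lit 12) (.e (nat_lit 426427) (nat_lit 17) .nil))) .nil)) 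
(.lf (nat_lit 179030) (.g (nat_lit 1856) (.e (nat_lit 57692) (nat_lit 156) (.e (nat_lit 163907) (nat_lit 12) (.e (nat_lit 426568) (nat_lit 34) (.e (nat_lit 393285) (nat_lit 25) .nil)))) .nil))) (.nd (nat_lit 6) 
(.lf (nat_lit 178998) (.g (nat_lit 3463) (.e (nat_lit 57692) (nat_lit 156) (.e (nat_lit 163907) (nat_lit 12) (.e (nat_lit 426131) (nat_lit 3) (.e (nat_lit 204877) (nat_lit 31) (.e (nat_lit 376855) (nat_lit 20) (.e (nat_lit 1855) (nat_lit 124) (.e (nat_lit 564992) (nat_lit 0) (.e (nat_lit 1182) (nat_lit 87) .nil)))))))) (.g (nat_lit 6) .nil .nil))) 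
(.lf (nat_lit 179062) (.g (nat_lit 2960) (.e (nat_lit 65280) (nat_lit 168) (.e (nat_lit 163868) (nat_lit 2) (.e (nat_lit 196670) (nat_lit 14) (.e (nat_lit 73753) (nat_lit 8) (.e (nat_lit 557098) (nat_lit 13) .nil))))) .nil))))) (.nd (nat_lit 4) (.nd (nat_lit 5) (.nd (nat_lit 6) 
(.lf (nat_lit 178958) (.g (nat_lit 4092) (.e (nat_lit 57692) (nat_lit 156) (.e (nat_lit 163875) (nat_lit 3) (.e (nat_lit 204838) (nat_lit 20) (.e (nat_lit 114714) (nat_lit 22) (.e (nat_lit 90174) (nat_lit 14) (.e (nat_lit 180243) (nat_lit 5) (.e (nat_lit 532502) (nat_lit 1) .nil))))))) (.g (nat_lit 6) .nil .nil))) 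
(.lf (nat_lit 179022) (.g (nat_lit 1477) (.e (nat_lit 57692) (nat_lit 156) (.e (nat_lit 163907) (nat_lit 12) (.e (nat_lit 426566) (nat_lit 34) (.e (nat_lit 393267) (nat_lit 23) .nil)))) .nil))) (.nd (nat_lit 6) 
(.lf (nat_lit 178990) (.g (nat_lit 1757) (.e (nat_lit 57692) (nat_lit 156) (.e (nat_lit 163905) (nat_lit 12) (.e (nat_lit 426568) (nat_lit 34) (.e (nat_lit 393285) (nat_lit 25) .nil)))) .nil)) 
(.lf (nat_lit 179054) (.g (nat_lit 1779) (.e (nat_lit 65280) (nat_lit 166) (.e (nat_lit 57373) (nat_lit 2) (.e (nat_lit 90185) (nat_lit 17) (.e (nat_lit 237592) (nat_lit 3) .nil)))) .nil)))) (.nd (nat_lit 5) (.nd (nat_lit 6) 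
(.lf (nat_lit 178974) (.g (nat_lit 1256) (.e (nat_lit 57692) (nat_lit 156) (.e (nat_lit 163905) (nat_lit 12) (.e (nat_lit 426437) (nat_lit 18) (.e (nat_lit 98380) (nat_lit 31) (.e (nat_lit 466954) (nat_lit 11) .nil))))) .nil)) 
(.lf (nat_lit 179038) (.g (nat_lit 1488) (.e (nat_lit 65280) (nat_lit 156) (.e (nat_lit 163902) (nat_lit 12) (.e (nat_lit 426568) (nat_lit 34) (.e (nat_lit 393271) (nat_lit 23) .nil)))) .nil))) (.nd (nat_lit 6) 
(.lf (nat_lit 179006) (.g (nat_lit 1952) (.e (nat_lit 57692) (nat_lit 156) (.e (nat_lit 163907) (nat_lit 12) (.e (nat_lit 426428) (nat_lit 17) (.e (nat_lit 90176) (nat_lit 15) (.e (nat_lit 188421) (nat_lit 11) .nil))))) .nil)) 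
(.lf (nat_lit 179070) (.g (nat_lit 2877) (.e (nat_lit 65280) (nat_lit 168) (.e (nat_lit 163871) (nat_lit 2) (.e (nat_lit 196670) (nat_lit 14) (.e (nat_lit 73755) (nat_lit 8) (.e (nat_lit 557104) (nat_lit 14) .nil))))) .nil)))))))) (.nd (nat_lit 1) (.nd (nat_lit 2) (.nd (nat_lit 3) (.nd (nat_lit 4) (.nd (nat_lit 5) (.nd (nat_lit 6) 
(.lf (nat_lit 178945) (.g (nat_lit 1485) (.e (nat_lit 57692) (nat_lit 156) (.e (nat_lit 163875) (nat_lit 3) (.e (nat_lit 204817) (nat_lit 17) (.e (nat_lit 2198) (nat_lit 144) .nil)))) .nil)) 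
(.lf (nat_lit 179009) (.g (nat_lit 597) (.e (nat_lit 57692) (nat_lit 156) (.e (nat_lit 163907) (nat_lit 12) (.e (nat_lit 433920) (nat_lit 17) .nil))) .nil))) (.nd (nat_lit 6) 
(.lf (nat_lit 178977) (.g (nat_lit 1003) (.e (nat_lit 57692) (nat_lit 156) (.e (nat_lit 163905) (nat_lit 12) (.e (nat_lit 426480) (nat_lit 27) .nil))) .nil)) 
(.lf (nat_lit 179041) (.g (nat_lit 3615) (.e (nat_lit 65280) (nat_lit 161) (.e (nat_lit 122919) (nat_lit 15) (.e (nat_lit 360474) (nat_lit 8) (.e (nat_lit 557091) (nat_lit 12) (.e (nat_lit 163999) (nat_lit 38) .nil))))) .nil)))) (.nd (nat_lit 5) (.nd (nat_lit 6) 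
(.lf (nat_lit 178961) (.g (nat_lit 3601) (.e (nat_lit 57692) (nat_lit 156) (.e (nat_lit 163875) (nat_lit 3) (.e (nat_lit 204838) (nat_lit 20) (.e (nat_lit 114716) (nat_lit 22) (.e (nat_lit 90174) (nat_lit 14) (.e (nat_lit 180243) (nat_lit 5) (.e (nat_lit 532502) (nat_lit 1) .nil))))))) (.g (nat_lit 6) .nil .nil))) 
(.lf (nat_lit 179025) (.g (nat_lit 1316) (.e (nat_lit 57692) (nat_lit 156) (.e (nat_lit 163907) (nat_lit 12) (.e (nat_lit 426566) (nat_lit 34) (.e (nat_lit 393276) (nat_lit 23) (.e (nat_lit 426135) (nat_lit 3) .nil))))) .nil))) (.nd (nat_lit 6) 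
(.lf (nat_lit 178993) (.g (nat_lit 1411) (.e (nat_lit 57692) (nat_lit 156) (.e (nat_lit 163906) (nat_lit 12) (.e (nat_lit 426566) (nat_lit 34) (.e (nat_lit 393285) (nat_lit 25) (.e (nat_lit 458789) (nat_lit 23) .nil))))) .nil)) 
(.lf (nat_lit 179057) (.g (nat_lit 4336) (.e (nat_lit 65280) (nat_lit 166) (.e (nat_lit 57377) (nat_lit 3) (.e (nat_lit 98317) (nat_lit 9) (.e (nat_lit 336204) (nat_lit 12) .nil)))) .nil))))) (.nd (nat_lit 4) (.nd (nat_lit 5) (.nd (nat_lit 6) 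
(.lf (nat_lit 178953) (.g (nat_lit 534) (.e (nat_lit 57692) (nat_lit 156) (.e (nat_lit 163875) (nat_lit 3) (.e (nat_lit 204837) (nat_lit 20) .nil))) .nil)) 
(.lf (nat_lit 179017) (.g (nat_lit 762) (.e (nat_lit 57692) (nat_lit 156) (.e (nat_lit 163907) (nat_lit 12) (.e (nat_lit 426491) (nat_lit 27) .nil))) .nil))) (.nd (nat_lit 6) 
(.lf (nat_lit 178985) (.g (nat_lit 1071) (.e (nat_lit 57692) (nat_lit 156) (.e (nat_lit 163905) (nat_lit 12) (.e (nat_lit 426566) (nat_lit 34) (.e (nat_lit 393278) (nat_lit 23) (.e (nat_lit 426140) (nat_lit 3) .nil))))) .nil)) 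
(.lf (nat_lit 179049) (.g (nat_lit 2132) (.e (nat_lit 65280) (nat_lit 166) (.e (nat_lit 57372) (nat_lit 2) (.e (nat_lit 90185) (nat_lit 17) (.e (nat_lit 237590) (nat_lit 2) (.e (nat_lit 196654) (nat_lit 11) .nil))))) .nil)))) (.nd (nat_lit 5) (.nd (nat_lit 6) 
(.lf (nat_lit 178969) (.g (nat_lit 1329) (.e (nat_lit 57692) (nat_lit 156) (.e (nat_lit 163905) (nat_lit 12) (.e (nat_lit 426436) (nat_lit 18) (.e (nat_lit 98371) (nat_lit 28) .nil)))) .nil)) 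
(.lf (nat_lit 179033) (.g (nat_lit 763) (.e (nat_lit 57692) (nat_lit 156) (.e (nat_lit 163913) (nat_lit 12) (.e (nat_lit 426483) (nat_lit 27) .nil))) .nil))) (.nd (nat_lit 6) 
(.lf (nat_lit 179001) (.g (nat_lit 890) (.e (nat_lit 57692) (nat_lit 156) (.e (nat_lit 163907) (nat_lit 12) (.e (nat_lit 426392) (nat_lit 15) .nil))) .nil)) 
(.lf (nat_lit 179065) (.g (nat_lit 1832) (.e (nat_lit 65280) (nat_lit 168) (.e (nat_lit 163868) (nat_lit 2) (.e (nat_lit 196670) (nat_lit 14) (.e (nat_lit 73755) (nat_lit 8) .nil)))) .nil)))))) (.nd (nat_lit 3) (.nd (nat_lit 4) (.nd (nat_lit 5) (.nd (nat_lit 6) 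
(.lf (nat_lit 178949) (.g (nat_lit 2760) (.e (nat_lit 57692) (nat_lit 156) (.e (nat_lit 163875) (nat_lit 3) (.e (nat_lit 204830) (nat_lit 18) (.e (nat_lit 57830) (nat_lit 250) (.e (nat_lit 1296) (nat_lit 96) (.e (nat_lit 131098) (nat_lit 3) (.e (nat_lit 98356) (nat_lit 26) (.e (nat_lit 426422) (nat_lit 16) .nil)))))))) (.g (nat_lit 4) .nil .nil))) 
(.lf (nat_lit 179013) (.g (nat_lit 572) (.e (nat_lit 57692) (nat_lit 156) (.e (nat_lit 163907) (nat_lit 12) (.e (nat_lit 426437) (nat_lit 18) .nil))) .nil))) (.nd (nat_lit 6) 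
(.lf (nat_lit 178981) (.g (nat_lit 282) (.e (nat_lit 57692) (nat_lit 156) (.e (nat_lit 163905) (nat_lit 12) (.e (nat_lit 426566) (nat_lit 34) .nil))) .nil)) 
(.lf (nat_lit 179045) (.g (nat_lit 750) (.e (nat_lit 65280) (nat_lit 166) (.e (nat_lit 57371) (nat_lit 2) (.e (nat_lit 90158) (nat_lit 11) .nil))) .nil)))) (.nd (nat_lit 5) (.nd (nat_lit 6) 
(.lf (nat_lit 178965) (.g (nat_lit 944) (.e (nat_lit 57692) (nat_lit 156) (.e (nat_lit 163905) (nat_lit 12) (.e (nat_lit 426402) (nat_lit 15) (.e (nat_lit 1788) (nat_lit 119) .nil)))) .nil)) 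
(.lf (nat_lit 179029) (.g (nat_lit 1876) (.e (nat_lit 57692) (nat_lit 156) (.e (nat_lit 163907) (nat_lit 12) (.e (nat_lit 426568) (nat_lit 34) (.e (nat_lit 393284) (nat_lit 24) (.e (nat_lit 434233) (nat_lit 23) .nil))))) .nil))) (.nd (nat_lit 6) 
(.lf (nat_lit 178997) (.g (nat_lit 2427) (.e (nat_lit 57692) (nat_lit 156) (.e (nat_lit 163907) (nat_lit 12) (.e (nat_lit 426131) (nat_lit 3) (.e (nat_lit 204838) (nat_lit 20) (.e (nat_lit 114712) (nat_lit 21) (.e (nat_lit 57754) (nat_lit 209) (.e (nat_lit 1294) (nat_lit 96) (.e (nat_lit 131089) (nat_lit 1) .nil)))))))) (.g (nat_lit 4) .nil .nil))) 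
(.lf (nat_lit 179061) (.g (nat_lit 1894) (.e (nat_lit 65280) (nat_lit 168) (.e (nat_lit 163868) (nat_lit 2) (.e (nat_lit 196670) (nat_lit 14) (.e (nat_lit 73753) (nat_lit 8) .nil)))) .nil))))) (.nd (nat_lit 4) (.nd (nat_lit 5) (.nd (nat_lit 6) 
(.lf (nat_lit 178957) (.g (nat_lit 1405) (.e (nat_lit 57692) (nat_lit 156) (.e (nat_lit 163875) (nat_lit 3) (.e (nat_lit 204838) (nat_lit 20) (.e (nat_lit 114714) (nat_lit 22) .nil)))) .nil)) 
(.lf (nat_lit 179021) (.g (nat_lit 1783) (.e (nat_lit 57692) (nat_lit 156) (.e (nat_lit 163907) (nat_lit 12) (.e (nat_lit 426564) (nat_lit 34) (.e (nat_lit 393284) (nat_lit 24) (.e (nat_lit 434233) (nat_lit 23) .nil))))) .nil))) (.nd (nat_lit 6) 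
(.lf (nat_lit 178989) (.g (nat_lit 1899) (.e (nat_lit 57692) (nat_lit 156) (.e (nat_lit 163905) (nat_lit 12) (.e (nat_lit 426568) (nat_lit 34) (.e (nat_lit 393284) (nat_lit 24) (.e (nat_lit 434233) (nat_lit 23) .nil))))) .nil)) 
(.lf (nat_lit 179053) (.g (nat_lit 2277) (.e (nat_lit 65280) (nat_lit 166) (.e (nat_lit 57373) (nat_lit 2) (.e (nat_lit 90185) (nat_lit 17) (.e (nat_lit 237587) (nat_lit 2) (.e (nat_lit 196654) (nat_lit 11) .nil))))) .nil)))) (.nd (nat_lit 5) (.nd (nat_lit 6) 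
(.lf (nat_lit 178973) (.g (nat_lit 1801) (.e (nat_lit 57692) (nat_lit 156) (.e (nat_lit 163905) (nat_lit 12) (.e (nat_lit 426437) (nat_lit 18) (.e (nat_lit 98370) (nat_lit 28) (.e (nat_lit 442388) (nat_lit 11) .nil))))) .nil)) 
(.lf (nat_lit 179037) (.g (nat_lit 1428) (.e (nat_lit 65280) (nat_lit 156) (.e (nat_lit 163902) (nat_lit 12) (.e (nat_lit 426479) (nat_lit 27) (.e (nat_lit 336430) (nat_lit 29) (.e (nat_lit 442425) (nat_lit 23) .nil))))) .nil))) (.nd (nat_lit 6) 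
(.lf (nat_lit 179005) (.g (nat_lit 1024) (.e (nat_lit 57692) (nat_lit 156) (.e (nat_lit 163907) (nat_lit 12) (.e (nat_lit 426428) (nat_lit 17) (.e (nat_lit 90176) (nat_lit 15) .nil)))) .nil)) 
(.lf (nat_lit 179069) (.g (nat_lit 2587) (.e (nat_lit 65280) (nat_lit 168) (.e (nat_lit 163871) (nat_lit 2) (.e (nat_lit 196670) (nat_lit 14) (.e (nat_lit 73754) (nat_lit 8) (.e (nat_lit 557103) (nat_lit 14) .nil))))) .nil))))))) (.nd (nat_lit 2) (.nd (nat_lit 3) (.nd (nat_lit 4) (.nd (nat_lit 5) (.nd (nat_lit 6) 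
(.lf (nat_lit 178947) (.g (nat_lit 5697) (.e (nat_lit 57692) (nat_lit 156) (.e (nat_lit 163875) (nat_lit 3) (.e (nat_lit 204829) (nat_lit 18) (.e (nat_lit 57847) (nat_lit 252) (.e (nat_lit 57411) (nat_lit 12) (.e (nat_lit 336019) (nat_lit 3) (.e (nat_lit 98356) (nat_lit 26) (.e (nat_lit 426422) (nat_lit 16) .nil)))))))) (.g (nat_lit 7) .nil .nil))) 
(.lf (nat_lit 179011) (.g (nat_lit 1381) (.e (nat_lit 57692) (nat_lit 156) (.e (nat_lit 163907) (nat_lit 12) (.e (nat_lit 426436) (nat_lit 18) (.e (nat_lit 98359) (nat_lit 26) .nil)))) .nil))) (.nd (nat_lit 6) 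
(.lf (nat_lit 178979) (.g (nat_lit 1013) (.e (nat_lit 57692) (nat_lit 156) (.e (nat_lit 163905) (nat_lit 12) (.e (nat_lit 426564) (nat_lit 34) .nil))) .nil)) 
(.lf (nat_lit 179043) (.g (nat_lit 942) (.e (nat_lit 57703) (nat_lit 164) (.e (nat_lit 2551) (nat_lit 159) (.e (nat_lit 24607) (nat_lit 3) (.e (nat_lit 106240) (nat_lit 16) .nil)))) .nil)))) (.nd (nat_lit 5) (.nd (nat_lit 6) 
(.lf (nat_lit 178963) (.g (nat_lit 2302) (.e (nat_lit 57692) (nat_lit 156) (.e (nat_lit 163875) (nat_lit 3) (.e (nat_lit 204838) (nat_lit 20) (.e (nat_lit 114719) (nat_lit 23) (.e (nat_lit 98376) (nat_lit 30) .nil))))) .nil)) 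
(.lf (nat_lit 179027) (.g (nat_lit 1859) (.e (nat_lit 57692) (nat_lit 156) (.e (nat_lit 163907) (nat_lit 12) (.e (nat_lit 426566) (nat_lit 34) (.e (nat_lit 393284) (nat_lit 24) (.e (nat_lit 434233) (nat_lit 23) .nil))))) .nil))) (.nd (nat_lit 6) 
(.lf (nat_lit 178995) (.g (nat_lit 1953) (.e (nat_lit 57692) (nat_lit 156) (.e (nat_lit 163907) (nat_lit 12) (.e (nat_lit 426131) (nat_lit 3) (.e (nat_lit 204838) (nat_lit 20) (.e (nat_lit 114710) (nat_lit 21) .nil))))) .nil)) 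
(.lf (nat_lit 179059) (.g (nat_lit 2695) (.e (nat_lit 65280) (nat_lit 168) (.e (nat_lit 163867) (nat_lit 2) (.e (nat_lit 196670) (nat_lit 14) (.e (nat_lit 73755) (nat_lit 8) (.e (nat_lit 557104) (nat_lit 14) .nil))))) .nil))))) (.nd (nat_lit 4) (.nd (nat_lit 5) (.nd (nat_lit 6) 
(.lf (nat_lit 178955) (.g (nat_lit 2105) (.e (nat_lit 57692) (nat_lit 156) (.e (nat_lit 163875) (nat_lit 3) (.e (nat_lit 204837) (nat_lit 20) (.e (nat_lit 114716) (nat_lit 22) (.e (nat_lit 90173) (nat_lit 14) .nil))))) .nil)) 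
(.lf (nat_lit 179019) (.g (nat_lit 787) (.e (nat_lit 57692) (nat_lit 156) (.e (nat_lit 163907) (nat_lit 12) (.e (nat_lit 426564) (nat_lit 34) .nil))) .nil))) (.nd (nat_lit 6) 
(.lf (nat_lit 178987) (.g (nat_lit 587) (.e (nat_lit 57692) (nat_lit 156) (.e (nat_lit 163905) (nat_lit 12) (.e (nat_lit 426567) (nat_lit 34) .nil))) .nil)) 
(.lf (nat_lit 179051) (.g (nat_lit 2412) (.e (nat_lit 65280) (nat_lit 166) (.e (nat_lit 57373) (nat_lit 2) (.e (nat_lit 90158) (nat_lit 11) (.e (nat_lit 24648) (nat_lit 12) .nil)))) .nil)))) (.nd (nat_lit 5) (.nd (nat_lit 6) 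
(.lf (nat_lit 178971) (.g (nat_lit 937) (.e (nat_lit 57692) (nat_lit 156) (.e (nat_lit 163905) (nat_lit 12) (.e (nat_lit 426436) (nat_lit 18) (.e (nat_lit 98382) (nat_lit 31) .nil)))) .nil)) 
(.lf (nat_lit 179035) (.g (nat_lit 2665) (.e (nat_lit 57692) (nat_lit 156) (.e (nat_lit 163939) (nat_lit 18) (.e (nat_lit 475185) (nat_lit 29) (.e (nat_lit 557072) (nat_lit 9) (.e (nat_lit 353) (nat_lit 29) (.e (nat_lit 401458) (nat_lit 13) (.e (nat_lit 483365) (nat_lit 18) .nil))))))) (.g (nat_lit 4) .nil .nil)))) (.nd (nat_lit 6) 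
(.lf (nat_lit 179003) (.g (nat_lit 962) (.e (nat_lit 57692) (nat_lit 156) (.e (nat_lit 163907) (nat_lit 12) (.e (nat_lit 426428) (nat_lit 17) (.e (nat_lit 90170) (nat_lit 13) .nil)))) .nil)) 
(.lf (nat_lit 179067) (.g (nat_lit 2673) (.e (nat_lit 65280) (nat_lit 168) (.e (nat_lit 163871) (nat_lit 2) (.e (nat_lit 196670) (nat_lit 14) (.e (nat_lit 73753) (nat_lit 8) (.e (nat_lit 557103) (nat_lit 14) .nil))))) .nil)))))) (.nd (nat_lit 3) (.nd (nat_lit 4) (.nd (nat_lit 5) (.nd (nat_lit 6) 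
(.lf (nat_lit 178951) (.g (nat_lit 3045) (.e (nat_lit 57692) (nat_lit 156) (.e (nat_lit 163875) (nat_lit 3) (.e (nat_lit 204830) (nat_lit 18) (.e (nat_lit 57852) (nat_lit 252) (.e (nat_lit 57431) (nat_lit 16) .nil))))) .nil)) 
(.lf (nat_lit 179015) (.g (nat_lit 3108) (.e (nat_lit 57692) (nat_lit 156) (.e (nat_lit 163907) (nat_lit 12) (.e (nat_lit 426437) (nat_lit 18) (.e (nat_lit 98370) (nat_lit 28) (.e (nat_lit 442390) (nat_lit 11) (.e (nat_lit 335986) (nat_lit 1) .nil)))))) (.g (nat_lit 6) .nil .nil)))) (.nd (nat_lit 6) 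
(.lf (nat_lit 178983) (.g (nat_lit 1007) (.e (nat_lit 57692) (nat_lit 156) (.e (nat_lit 163905) (nat_lit 12) (.e (nat_lit 426566) (nat_lit 34) (.e (nat_lit 393272) (nat_lit 23) (.e (nat_lit 433920) (nat_lit 3) .nil))))) .nil)) 
(.lf (nat_lit 179047) (.g (nat_lit 2861) (.e (nat_lit 65280) (nat_lit 166) (.e (nat_lit 57371) (nat_lit 2) (.e (nat_lit 90160) (nat_lit 11) (.e (nat_lit 24648) (nat_lit 12) (.e (nat_lit 385066) (nat_lit 26) .nil))))) .nil)))) (.nd (nat_lit 5) (.nd (nat_lit 6) 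
(.lf (nat_lit 178967) (.g (nat_lit 1066) (.e (nat_lit 57692) (nat_lit 156) (.e (nat_lit 163905) (nat_lit 12) (.e (nat_lit 426436) (nat_lit 18) (.e (nat_lit 98356) (nat_lit 26) .nil)))) .nil)) 
(.lf (nat_lit 179031) (.g (nat_lit 763) (.e (nat_lit 57692) (nat_lit 156) (.e (nat_lit 163913) (nat_lit 12) (.e (nat_lit 426431) (nat_lit 17) .nil))) .nil))) (.nd (nat_lit 6) 
(.lf (nat_lit 178999) (.g (nat_lit 880) (.e (nat_lit 57692) (nat_lit 156) (.e (nat_lit 163907) (nat_lit 12) (.e (nat_lit 426350) (nat_lit 15) .nil))) .nil)) 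
(.lf (nat_lit 179063) (.g (nat_lit 2871) (.e (nat_lit 65280) (nat_lit 168) (.e (nat_lit 163868) (nat_lit 2) (.e (nat_lit 196670) (nat_lit 14) (.e (nat_lit 73753) (nat_lit 8) (.e (nat_lit 557103) (nat_lit 14) .nil))))) .nil))))) (.nd (nat_lit 4) (.nd (nat_lit 5) (.nd (nat_lit 6) 
(.lf (nat_lit 178959) (.g (nat_lit 2080) (.e (nat_lit 57692) (nat_lit 156) (.e (nat_lit 163875) (nat_lit 3) (.e (nat_lit 204838) (nat_lit 20) (.e (nat_lit 114716) (nat_lit 22) (.e (nat_lit 90169) (nat_lit 13) .nil))))) .nil)) 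
(.lf (nat_lit 179023) (.g (nat_lit 1183) (.e (nat_lit 57692) (nat_lit 156) (.e (nat_lit 163907) (nat_lit 12) (.e (nat_lit 426566) (nat_lit 34) (.e (nat_lit 393272) (nat_lit 23) (.e (nat_lit 433920) (nat_lit 3) .nil))))) .nil))) (.nd (nat_lit 6) 
(.lf (nat_lit 178991) (.g (nat_lit 2084) (.e (nat_lit 57692) (nat_lit 156) (.e (nat_lit 163906) (nat_lit 12) (.e (nat_lit 426428) (nat_lit 17) (.e (nat_lit 90170) (nat_lit 13) (.e (nat_lit 172095) (nat_lit 9) (.e (nat_lit 426513) (nat_lit 27) (.e (nat_lit 335987) (nat_lit 1) .nil))))))) (.g (nat_lit 4) .nil .nil))) 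
(.lf (nat_lit 179055) (.g (nat_lit 4347) (.e (nat_lit 65280) (nat_lit 166) (.e (nat_lit 57377) (nat_lit 3) (.e (nat_lit 98317) (nat_lit 9) (.e (nat_lit 336088) (nat_lit 9) (.e (nat_lit 336324) (nat_lit 18) .nil))))) .nil)))) (.nd (nat_lit 5) (.nd (nat_lit 6) 
(.lf (nat_lit 178975) (.g (nat_lit 809) (.e (nat_lit 57692) (nat_lit 156) (.e (nat_lit 163905) (nat_lit 12) (.e (nat_lit 426438) (nat_lit 18) (.e (nat_lit 98381) (nat_lit 31) .nil)))) .nil)) 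
(.lf (nat_lit 179039) (.g (nat_lit 2900) (.e (nat_lit 57694) (nat_lit 157) (.e (nat_lit 229409) (nat_lit 13) (.e (nat_lit 434258) (nat_lit 32) (.e (nat_lit 606226) (nat_lit 4) (.e (nat_lit 65583) (nat_lit 7) (.e (nat_lit 319530) (nat_lit 16) (.e (nat_lit 286731) (nat_lit 1) .nil))))))) (.g (nat_lit 0) .nil .nil)))) (.nd (nat_lit 6) 
(.lf (nat_lit 179007) (.g (nat_lit 1428) (.e (nat_lit 57692) (nat_lit 156) (.e (nat_lit 163907) (nat_lit 12) (.e (nat_lit 426432) (nat_lit 17) (.e (nat_lit 90176) (nat_lit 15) .nil)))) .nil)) 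
(.lf (nat_lit 179071) (.g (nat_lit 746) (.e (nat_lit 65280) (nat_lit 168) (.e (nat_lit 163873) (nat_lit 3) (.e (nat_lit 204864) (nat_lit 27) .nil))) .nil)))))))))

noncomputable def tv2405 : DT := (.nd (nat_lit 0) (.nd (nat_lit 1) (.nd (nat_lit 2) (.nd (nat_lit 3) (.nd (nat_lit 4) (.nd (nat_lit 5) (.nd (nat_lit 6) 
(.lf (nat_lit 179072) (.g (nat_lit 1304) (.e (nat_lit 65280) (nat_lit 168) (.e (nat_lit 163873) (nat_lit 3) (.e (nat_lit 204864) (nat_lit 27) (.e (nat_lit 344133) (nat_lit 26) .nil)))) .nil)) 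
(.lf (nat_lit 179136) (.g (nat_lit 1868) (.e (nat_lit 57711) (nat_lit 176) (.e (nat_lit 1349) (nat_lit 102) (.e (nat_lit 286735) (nat_lit 3) (.e (nat_lit 98382) (nat_lit 31) (.e (nat_lit 466977) (nat_lit 22) .nil))))) .nil))) (.nd (nat_lit 6) 
(.lf (nat_lit 179104) (.g (nat_lit 3204) (.e (nat_lit 57711) (nat_lit 176) (.e (nat_lit 1348) (nat_lit 102) (.e (nat_lit 286735) (nat_lit 3) (.e (nat_lit 98365) (nat_lit 26) (.e (nat_lit 426185) (nat_lit 9) .nil))))) .nil)) 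
(.lf (nat_lit 179168) (.g (nat_lit 2691) (.e (nat_lit 57711) (nat_lit 176) (.e (nat_lit 1370) (nat_lit 103) (.e (nat_lit 294928) (nat_lit 2) (.e (nat_lit 90170) (nat_lit 13) (.e (nat_lit 172097) (nat_lit 9) .nil))))) .nil)))) (.nd (nat_lit 5) (.nd (nat_lit 6) 
(.lf (nat_lit 179088) (.g (nat_lit 2198) (.e (nat_lit 57711) (nat_lit 176) (.e (nat_lit 1348) (nat_lit 102) (.e (nat_lit 286733) (nat_lit 2) (.e (nat_lit 90177) (nat_lit 15) (.e (nat_lit 188447) (nat_lit 22) .nil))))) .nil)) 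
(.lf (nat_lit 179152) (.g (nat_lit 969) (.e (nat_lit 57711) (nat_lit 176) (.e (nat_lit 1360) (nat_lit 102) (.e (nat_lit 286735) (nat_lit 3) (.e (nat_lit 98372) (nat_lit 29) .nil)))) .nil))) (.nd (nat_lit 6) 
(.lf (nat_lit 179120) (.g (nat_lit 2779) (.e (nat_lit 57711) (nat_lit 176) (.e (nat_lit 1349) (nat_lit 102) (.e (nat_lit 286735) (nat_lit 3) (.e (nat_lit 98356) (nat_lit 26) (.e (nat_lit 426246) (nat_lit 9) .nil))))) .nil)) 
(.lf (nat_lit 179184) (.g (nat_lit 2185) (.e (nat_lit 57712) (nat_lit 176) (.e (nat_lit 1361) (nat_lit 102) (.e (nat_lit 286735) (nat_lit 3) (.e (nat_lit 98356) (nat_lit 26) (.e (nat_lit 426241) (nat_lit 9) .nil))))) .nil))))) (.nd (nat_lit 4) (.nd (nat_lit 5) (.nd (nat_lit 6) 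
(.lf (nat_lit 179080) (.g (nat_lit 2486) (.e (nat_lit 57711) (nat_lit 176) (.e (nat_lit 1141) (nat_lit 84) (.e (nat_lit 32787) (nat_lit 9) (.e (nat_lit 65598) (nat_lit 9) (.e (nat_lit 336028) (nat_lit 3) (.e (nat_lit 98325) (nat_lit 17) (.e (nat_lit 7936) (nat_lit 405) .nil))))))) (.g (nat_lit 6) .nil .nil))) 
(.lf (nat_lit 179144) (.g (nat_lit 1131) (.e (nat_lit 57711) (nat_lit 176) (.e (nat_lit 1359) (nat_lit 102) (.e (nat_lit 286734) (nat_lit 3) (.e (nat_lit 98381) (nat_lit 31) (.e (nat_lit 466977) (nat_lit 22) .nil))))) .nil))) (.nd (nat_lit 6) 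
(.lf (nat_lit 179112) (.g (nat_lit 2427) (.e (nat_lit 57711) (nat_lit 176) (.e (nat_lit 1348) (nat_lit 102) (.e (nat_lit 286735) (nat_lit 3) (.e (nat_lit 98382) (nat_lit 31) (.e (nat_lit 466976) (nat_lit 22) .nil))))) .nil)) 
(.lf (nat_lit 179176) (.g (nat_lit 2087) (.e (nat_lit 57711) (nat_lit 176) (.e (nat_lit 1374) (nat_lit 104) (.e (nat_lit 303147) (nat_lit 15) (.e (nat_lit 1855) (nat_lit 124) (.e (nat_lit 557101) (nat_lit 13) .nil))))) .nil)))) (.nd (nat_lit 5) (.nd (nat_lit 6) 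
(.lf (nat_lit 179096) (.g (nat_lit 3699) (.e (nat_lit 57711) (nat_lit 176) (.e (nat_lit 1348) (nat_lit 102) (.e (nat_lit 286735) (nat_lit 3) (.e (nat_lit 98356) (nat_lit 26) (.e (nat_lit 426270) (nat_lit 9) .nil))))) .nil)) 
(.lf (nat_lit 179160) (.g (nat_lit 1329) (.e (nat_lit 57711) (nat_lit 176) (.e (nat_lit 1361) (nat_lit 102) (.e (nat_lit 286735) (nat_lit 3) (.e (nat_lit 98369) (nat_lit 28) .nil)))) .nil))) (.nd (nat_lit 6) 
(.lf (nat_lit 179128) (.g (nat_lit 2359) (.e (nat_lit 57711) (nat_lit 176) (.e (nat_lit 1349) (nat_lit 102) (.e (nat_lit 286735) (nat_lit 3) (.e (nat_lit 98369) (nat_lit 28) (.e (nat_lit 442422) (nat_lit 22) .nil))))) .nil)) 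
(.lf (nat_lit 179192) (.g (nat_lit 947) (.e (nat_lit 57712) (nat_lit 176) (.e (nat_lit 1370) (nat_lit 103) (.e (nat_lit 294929) (nat_lit 3) (.e (nat_lit 98381) (nat_lit 31) (.e (nat_lit 466976) (nat_lit 22) .nil))))) .nil)))))) (.nd (nat_lit 3) (.nd (nat_lit 4) (.nd (nat_lit 5) (.nd (nat_lit 6) 
(.lf (nat_lit 179076) (.g (nat_lit 1858) (.e (nat_lit 65280) (nat_lit 168) (.e (nat_lit 163875) (nat_lit 3) (.e (nat_lit 204862) (nat_lit 27) (.e (nat_lit 344132) (nat_lit 26) (.e (nat_lit 557101) (nat_lit 13) .nil))))) .nil)) 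
(.lf (nat_lit 179140) (.g (nat_lit 2777) (.e (nat_lit 57711) (nat_lit 176) (.e (nat_lit 1359) (nat_lit 102) (.e (nat_lit 286733) (nat_lit 2) (.e (nat_lit 90170) (nat_lit 13) (.e (nat_lit 172095) (nat_lit 9) .nil))))) .nil))) (.nd (nat_lit 6) 
(.lf (nat_lit 179108) (.g (nat_lit 3498) (.e (nat_lit 57711) (nat_lit 176) (.e (nat_lit 1348) (nat_lit 102) (.e (nat_lit 286735) (nat_lit 3) (.e (nat_lit 98372) (nat_lit 29) (.e (nat_lit 458496) (nat_lit 1) .nil))))) .nil)) 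
(.lf (nat_lit 179172) (.g (nat_lit 1950) (.e (nat_lit 57711) (nat_lit 176) (.e (nat_lit 1370) (nat_lit 103) (.e (nat_lit 294931) (nat_lit 3) (.e (nat_lit 98372) (nat_lit 29) (.e (nat_lit 458496) (nat_lit 1) (.e (nat_lit 500056) (nat_lit 17) .nil)))))) (.g (nat_lit 4) .nil .nil))))) (.nd (nat_lit 5) (.nd (nat_lit 6) 
(.lf (nat_lit 179092) (.g (nat_lit 3292) (.e (nat_lit 57711) (nat_lit 176) (.e (nat_lit 1348) (nat_lit 102) (.e (nat_lit 286735) (nat_lit 3) (.e (nat_lit 98356) (nat_lit 26) (.e (nat_lit 426241) (nat_lit 9) .nil))))) .nil)) 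
(.lf (nat_lit 179156) (.g (nat_lit 1125) (.e (nat_lit 57711) (nat_lit 176) (.e (nat_lit 1361) (nat_lit 102) (.e (nat_lit 286733) (nat_lit 2) (.e (nat_lit 90178) (nat_lit 15) .nil)))) .nil))) (.nd (nat_lit 6) 
(.lf (nat_lit 179124) (.g (nat_lit 3088) (.e (nat_lit 57711) (nat_lit 176) (.e (nat_lit 1349) (nat_lit 102) (.e (nat_lit 286735) (nat_lit 3) (.e (nat_lit 98359) (nat_lit 26) (.e (nat_lit 426215) (nat_lit 9) .nil))))) .nil)) 
(.lf (nat_lit 179188) (.g (nat_lit 372) (.e (nat_lit 57712) (nat_lit 176) (.e (nat_lit 1370) (nat_lit 103) (.e (nat_lit 294914) (nat_lit 0) .nil))) .nil))))) (.nd (nat_lit 4) (.nd (nat_lit 5) (.nd (nat_lit 6) 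
(.lf (nat_lit 179084) (.g (nat_lit 2120) (.e (nat_lit 57711) (nat_lit 176) (.e (nat_lit 1346) (nat_lit 102) (.e (nat_lit 286733) (nat_lit 2) (.e (nat_lit 90176) (nat_lit 15) (.e (nat_lit 188447) (nat_lit 22) .nil))))) .nil)) 
(.lf (nat_lit 179148) (.g (nat_lit 2058) (.e (nat_lit 57711) (nat_lit 176) (.e (nat_lit 1360) (nat_lit 102) (.e (nat_lit 286733) (nat_lit 2) (.e (nat_lit 90178) (nat_lit 15) .nil)))) .nil))) (.nd (nat_lit 6) 
(.lf (nat_lit 179116) (.g (nat_lit 3802) (.e (nat_lit 57711) (nat_lit 176) (.e (nat_lit 1349) (nat_lit 102) (.e (nat_lit 286733) (nat_lit 2) (.e (nat_lit 90170) (nat_lit 13) (.e (nat_lit 172094) (nat_lit 9) .nil))))) .nil)) 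
(.lf (nat_lit 179180) (.g (nat_lit 1288) (.e (nat_lit 57712) (nat_lit 176) (.e (nat_lit 1361) (nat_lit 102) (.e (nat_lit 286733) (nat_lit 2) (.e (nat_lit 90169) (nat_lit 13) .nil)))) .nil)))) (.nd (nat_lit 5) (.nd (nat_lit 6) 
(.lf (nat_lit 179100) (.g (nat_lit 3371) (.e (nat_lit 57711) (nat_lit 176) (.e (nat_lit 1348) (nat_lit 102) (.e (nat_lit 286735) (nat_lit 3) (.e (nat_lit 98359) (nat_lit 26) (.e (nat_lit 426216) (nat_lit 9) .nil))))) .nil)) 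
(.lf (nat_lit 179164) (.g (nat_lit 1089) (.e (nat_lit 57711) (nat_lit 176) (.e (nat_lit 1361) (nat_lit 102) (.e (nat_lit 286735) (nat_lit 3) (.e (nat_lit 98382) (nat_lit 31) .nil)))) .nil))) (.nd (nat_lit 6) 
(.lf (nat_lit 179132) (.g (nat_lit 2653) (.e (nat_lit 57711) (nat_lit 176) (.e (nat_lit 1349) (nat_lit 102) (.e (nat_lit 286735) (nat_lit 3) (.e (nat_lit 98374) (nat_lit 29) (.e (nat_lit 458496) (nat_lit 1) .nil))))) .nil)) 
(.lf (nat_lit 179196) (.g (nat_lit 1766) (.e (nat_lit 57712) (nat_lit 176) (.e (nat_lit 1370) (nat_lit 103) (.e (nat_lit 294931) (nat_lit 3) (.e (nat_lit 98370) (nat_lit 28) (.e (nat_lit 442422) (nat_lit 22) .nil))))) .nil))))))) (.nd (nat_lit 2) (.nd (nat_lit 3) (.nd (nat_lit 4) (.nd (nat_lit 5) (.nd (nat_lit 6) 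
(.lf (nat_lit 179074) (.g (nat_lit 2538) (.e (nat_lit 65280) (nat_lit 168) (.e (nat_lit 163874) (nat_lit 3) (.e (nat_lit 204863) (nat_lit 27) (.e (nat_lit 344130) (nat_lit 26) (.e (nat_lit 557103) (nat_lit 14) .nil))))) .nil)) 
(.lf (nat_lit 179138) (.g (nat_lit 1084) (.e (nat_lit 57711) (nat_lit 176) (.e (nat_lit 1355) (nat_lit 102) (.e (nat_lit 286735) (nat_lit 3) (.e (nat_lit 98381) (nat_lit 31) .nil)))) .nil))) (.nd (nat_lit 6) 
(.lf (nat_lit 179106) (.g (nat_lit 2835) (.e (nat_lit 57711) (nat_lit 176) (.e (nat_lit 1348) (nat_lit 102) (.e (nat_lit 286735) (nat_lit 3) (.e (nat_lit 98367) (nat_lit 27) (.e (nat_lit 442112) (nat_lit 8) .nil))))) .nil)) 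
(.lf (nat_lit 179170) (.g (nat_lit 1969) (.e (nat_lit 57711) (nat_lit 176) (.e (nat_lit 1370) (nat_lit 103) (.e (nat_lit 294931) (nat_lit 3) (.e (nat_lit 98358) (nat_lit 26) (.e (nat_lit 426294) (nat_lit 11) .nil))))) .nil)))) (.nd (nat_lit 5) (.nd (nat_lit 6) 
(.lf (nat_lit 179090) (.g (nat_lit 2718) (.e (nat_lit 57711) (nat_lit 176) (.e (nat_lit 1348) (nat_lit 102) (.e (nat_lit 286735) (nat_lit 3) (.e (nat_lit 98350) (nat_lit 24) (.e (nat_lit 417536) (nat_lit 8) .nil))))) .nil)) 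
(.lf (nat_lit 179154) (.g (nat_lit 1054) (.e (nat_lit 57711) (nat_lit 176) (.e (nat_lit 1361) (nat_lit 102) (.e (nat_lit 286733) (nat_lit 2) (.e (nat_lit 90177) (nat_lit 15) .nil)))) .nil))) (.nd (nat_lit 6) 
(.lf (nat_lit 179122) (.g (nat_lit 2832) (.e (nat_lit 57711) (nat_lit 176) (.e (nat_lit 1349) (nat_lit 102) (.e (nat_lit 286735) (nat_lit 3) (.e (nat_lit 98356) (nat_lit 26) (.e (nat_lit 426270) (nat_lit 9) .nil))))) .nil)) 
(.lf (nat_lit 179186) (.g (nat_lit 2190) (.e (nat_lit 57712) (nat_lit 176) (.e (nat_lit 1361) (nat_lit 102) (.e (nat_lit 286735) (nat_lit 3) (.e (nat_lit 98372) (nat_lit 29) (.e (nat_lit 458496) (nat_lit 1) .nil))))) .nil))))) (.nd (nat_lit 4) (.nd (nat_lit 5) (.nd (nat_lit 6) 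
(.lf (nat_lit 179082) (.g (nat_lit 3633) (.e (nat_lit 57711) (nat_lit 176) (.e (nat_lit 1141) (nat_lit 84) (.e (nat_lit 32787) (nat_lit 9) (.e (nat_lit 65610) (nat_lit 10) (.e (nat_lit 344117) (nat_lit 21) (.e (nat_lit 516106) (nat_lit 0) (.e (nat_lit 7936) (nat_lit 405) .nil))))))) (.g (nat_lit 6) .nil .nil))) 
(.lf (nat_lit 179146) (.g (nat_lit 3216) (.e (nat_lit 57711) (nat_lit 176) (.e (nat_lit 1360) (nat_lit 102) (.e (nat_lit 286733) (nat_lit 2) (.e (nat_lit 90176) (nat_lit 15) (.e (nat_lit 188447) (nat_lit 22) .nil))))) .nil))) (.nd (nat_lit 6) 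
(.lf (nat_lit 179114) (.g (nat_lit 876) (.e (nat_lit 57711) (nat_lit 176) (.e (nat_lit 1349) (nat_lit 102) (.e (nat_lit 286727) (nat_lit 0) (.e (nat_lit 1799) (nat_lit 119) .nil)))) .nil)) 
(.lf (nat_lit 179178) (.g (nat_lit 2074) (.e (nat_lit 57711) (nat_lit 176) (.e (nat_lit 2777) (nat_lit 178) (.e (nat_lit 286735) (nat_lit 3) (.e (nat_lit 98350) (nat_lit 24) (.e (nat_lit 409647) (nat_lit 18) .nil))))) .nil)))) (.nd (nat_lit 5) (.nd (nat_lit 6) 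
(.lf (nat_lit 179098) (.g (nat_lit 3533) (.e (nat_lit 57711) (nat_lit 176) (.e (nat_lit 1348) (nat_lit 102) (.e (nat_lit 286735) (nat_lit 3) (.e (nat_lit 98359) (nat_lit 26) (.e (nat_lit 426214) (nat_lit 9) .nil))))) .nil)) 
(.lf (nat_lit 179162) (.g (nat_lit 1309) (.e (nat_lit 57711) (nat_lit 176) (.e (nat_lit 1361) (nat_lit 102) (.e (nat_lit 286735) (nat_lit 3) (.e (nat_lit 98371) (nat_lit 28) .nil)))) .nil))) (.nd (nat_lit 6) 
(.lf (nat_lit 179130) (.g (nat_lit 3005) (.e (nat_lit 57711) (nat_lit 176) (.e (nat_lit 1349) (nat_lit 102) (.e (nat_lit 286735) (nat_lit 3) (.e (nat_lit 98372) (nat_lit 29) (.e (nat_lit 458496) (nat_lit 1) .nil))))) .nil)) 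
(.lf (nat_lit 179194) (.g (nat_lit 2444) (.e (nat_lit 57712) (nat_lit 176) (.e (nat_lit 1370) (nat_lit 103) (.e (nat_lit 294931) (nat_lit 3) (.e (nat_lit 98358) (nat_lit 26) (.e (nat_lit 426248) (nat_lit 9) .nil))))) .nil)))))) (.nd (nat_lit 3) (.nd (nat_lit 4) (.nd (nat_lit 5) (.nd (nat_lit 6) 
(.lf (nat_lit 179078) (.g (nat_lit 2198) (.e (nat_lit 65280) (nat_lit 168) (.e (nat_lit 163875) (nat_lit 3) (.e (nat_lit 204863) (nat_lit 27) (.e (nat_lit 344131) (nat_lit 26) (.e (nat_lit 557103) (nat_lit 14) .nil))))) .nil)) 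
(.lf (nat_lit 179142) (.g (nat_lit 1152) (.e (nat_lit 57711) (nat_lit 176) (.e (nat_lit 1359) (nat_lit 102) (.e (nat_lit 286734) (nat_lit 3) (.e (nat_lit 98369) (nat_lit 28) .nil)))) .nil))) (.nd (nat_lit 6) 
(.lf (nat_lit 179110) (.g (nat_lit 3153) (.e (nat_lit 57711) (nat_lit 176) (.e (nat_lit 1348) (nat_lit 102) (.e (nat_lit 286735) (nat_lit 3) (.e (nat_lit 98374) (nat_lit 29) (.e (nat_lit 458496) (nat_lit 1) .nil))))) .nil)) 
(.lf (nat_lit 179174) (.g (nat_lit 1105) (.e (nat_lit 57711) (nat_lit 176) (.e (nat_lit 1370) (nat_lit 103) (.e (nat_lit 294931) (nat_lit 3) (.e (nat_lit 98374) (nat_lit 29) .nil)))) .nil)))) (.nd (nat_lit 5) (.nd (nat_lit 6) 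
(.lf (nat_lit 179094) (.g (nat_lit 3648) (.e (nat_lit 57711) (nat_lit 176) (.e (nat_lit 1348) (nat_lit 102) (.e (nat_lit 286735) (nat_lit 3) (.e (nat_lit 98356) (nat_lit 26) (.e (nat_lit 426246) (nat_lit 9) .nil))))) .nil)) 
(.lf (nat_lit 179158) (.g (nat_lit 2685) (.e (nat_lit 57711) (nat_lit 176) (.e (nat_lit 1361) (nat_lit 102) (.e (nat_lit 286735) (nat_lit 3) (.e (nat_lit 98359) (nat_lit 26) (.e (nat_lit 426185) (nat_lit 9) .nil))))) .nil))) (.nd (nat_lit 6) 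
(.lf (nat_lit 179126) (.g (nat_lit 3060) (.e (nat_lit 57711) (nat_lit 176) (.e (nat_lit 1349) (nat_lit 102) (.e (nat_lit 286735) (nat_lit 3) (.e (nat_lit 98359) (nat_lit 26) (.e (nat_lit 426219) (nat_lit 9) .nil))))) .nil)) 
(.lf (nat_lit 179190) (.g (nat_lit 364) (.e (nat_lit 57712) (nat_lit 176) (.e (nat_lit 1370) (nat_lit 103) (.e (nat_lit 302848) (nat_lit 0) .nil))) .nil))))) (.nd (nat_lit 4) (.nd (nat_lit 5) (.nd (nat_lit 6) 
(.lf (nat_lit 179086) (.g (nat_lit 2916) (.e (nat_lit 57711) (nat_lit 176) (.e (nat_lit 1348) (nat_lit 102) (.e (nat_lit 286733) (nat_lit 2) (.e (nat_lit 90170) (nat_lit 13) (.e (nat_lit 172095) (nat_lit 9) .nil))))) .nil)) 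
(.lf (nat_lit 179150) (.g (nat_lit 552) (.e (nat_lit 57711) (nat_lit 176) (.e (nat_lit 1360) (nat_lit 102) (.e (nat_lit 286735) (nat_lit 3) .nil))) .nil))) (.nd (nat_lit 6) 
(.lf (nat_lit 179118) (.g (nat_lit 2602) (.e (nat_lit 57711) (nat_lit 176) (.e (nat_lit 1349) (nat_lit 102) (.e (nat_lit 286733) (nat_lit 2) (.e (nat_lit 90177) (nat_lit 15) (.e (nat_lit 188449) (nat_lit 22) .nil))))) .nil)) 
(.lf (nat_lit 179182) (.g (nat_lit 2400) (.e (nat_lit 57712) (nat_lit 176) (.e (nat_lit 1361) (nat_lit 102) (.e (nat_lit 286733) (nat_lit 2) (.e (nat_lit 90176) (nat_lit 15) (.e (nat_lit 188449) (nat_lit 22) .nil))))) .nil)))) (.nd (nat_lit 5) (.nd (nat_lit 6) 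
(.lf (nat_lit 179102) (.g (nat_lit 2721) (.e (nat_lit 57711) (nat_lit 176) (.e (nat_lit 1348) (nat_lit 102) (.e (nat_lit 286735) (nat_lit 3) (.e (nat_lit 98362) (nat_lit 26) (.e (nat_lit 426209) (nat_lit 9) .nil))))) .nil)) 
(.lf (nat_lit 179166) (.g (nat_lit 2745) (.e (nat_lit 57711) (nat_lit 176) (.e (nat_lit 1367) (nat_lit 103) (.e (nat_lit 294928) (nat_lit 2) (.e (nat_lit 90185) (nat_lit 17) (.e (nat_lit 237600) (nat_lit 9) .nil))))) .nil))) (.nd (nat_lit 6) 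
(.lf (nat_lit 179134) (.g (nat_lit 2387) (.e (nat_lit 57711) (nat_lit 176) (.e (nat_lit 1349) (nat_lit 102) (.e (nat_lit 286735) (nat_lit 3) (.e (nat_lit 98381) (nat_lit 31) (.e (nat_lit 466977) (nat_lit 22) .nil))))) .nil)) 
(.lf (nat_lit 179198) (.g (nat_lit 2203) (.e (nat_lit 57712) (nat_lit 176) (.e (nat_lit 1370) (nat_lit 103) (.e (nat_lit 294931) (nat_lit 3) (.e (nat_lit 98373) (nat_lit 29) (.e (nat_lit 450570) (nat_lit 1) .nil))))) .nil)))))))) (.nd (nat_lit 1) (.nd (nat_lit 2) (.nd (nat_lit 3) (.nd (nat_lit 4) (.nd (nat_lit 5) (.nd (nat_lit 6) 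
(.lf (nat_lit 179073) (.g (nat_lit 2377) (.e (nat_lit 65280) (nat_lit 168) (.e (nat_lit 163874) (nat_lit 3) (.e (nat_lit 204863) (nat_lit 27) (.e (nat_lit 344129) (nat_lit 26) (.e (nat_lit 557103) (nat_lit 14) .nil))))) .nil)) 
(.lf (nat_lit 179137) (.g (nat_lit 2567) (.e (nat_lit 57711) (nat_lit 176) (.e (nat_lit 1355) (nat_lit 102) (.e (nat_lit 286735) (nat_lit 3) (.e (nat_lit 98359) (nat_lit 26) (.e (nat_lit 426208) (nat_lit 9) .nil))))) .nil))) (.nd (nat_lit 6) 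
(.lf (nat_lit 179105) (.g (nat_lit 3090) (.e (nat_lit 57711) (nat_lit 176) (.e (nat_lit 1348) (nat_lit 102) (.e (nat_lit 286735) (nat_lit 3) (.e (nat_lit 98365) (nat_lit 26) (.e (nat_lit 426213) (nat_lit 9) .nil))))) .nil)) 
(.lf (nat_lit 179169) (.g (nat_lit 2896) (.e (nat_lit 57711) (nat_lit 176) (.e (nat_lit 1370) (nat_lit 103) (.e (nat_lit 294928) (nat_lit 2) (.e (nat_lit 90185) (nat_lit 17) (.e (nat_lit 237600) (nat_lit 9) .nil))))) .nil)))) (.nd (nat_lit 5) (.nd (nat_lit 6) 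
(.lf (nat_lit 179089) (.g (nat_lit 514) (.e (nat_lit 57711) (nat_lit 176) (.e (nat_lit 1348) (nat_lit 102) (.e (nat_lit 286735) (nat_lit 3) .nil))) .nil)) 
(.lf (nat_lit 179153) (.g (nat_lit 2049) (.e (nat_lit 57711) (nat_lit 176) (.e (nat_lit 1360) (nat_lit 102) (.e (nat_lit 286735) (nat_lit 3) (.e (nat_lit 98372) (nat_lit 29) (.e (nat_lit 458496) (nat_lit 1) (.e (nat_lit 500056) (nat_lit 17) .nil)))))) (.g (nat_lit 4) .nil .nil)))) (.nd (nat_lit 6) 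
(.lf (nat_lit 179121) (.g (nat_lit 2837) (.e (nat_lit 57711) (nat_lit 176) (.e (nat_lit 1349) (nat_lit 102) (.e (nat_lit 286735) (nat_lit 3) (.e (nat_lit 98356) (nat_lit 26) (.e (nat_lit 426250) (nat_lit 9) .nil))))) .nil)) 
(.lf (nat_lit 179185) (.g (nat_lit 1330) (.e (nat_lit 57712) (nat_lit 176) (.e (nat_lit 1361) (nat_lit 102) (.e (nat_lit 286735) (nat_lit 3) (.e (nat_lit 98367) (nat_lit 27) .nil)))) .nil))))) (.nd (nat_lit 4) (.nd (nat_lit 5) (.nd (nat_lit 6) 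
(.lf (nat_lit 179081) (.g (nat_lit 2385) (.e (nat_lit 57711) (nat_lit 176) (.e (nat_lit 1141) (nat_lit 84) (.e (nat_lit 32787) (nat_lit 9) (.e (nat_lit 65604) (nat_lit 9) (.e (nat_lit 336028) (nat_lit 3) (.e (nat_lit 98325) (nat_lit 17) (.e (nat_lit 7936) (nat_lit 405) .nil))))))) (.g (nat_lit 6) .nil .nil))) 
(.lf (nat_lit 179145) (.g (nat_lit 3799) (.e (nat_lit 57711) (nat_lit 176) (.e (nat_lit 1360) (nat_lit 102) (.e (nat_lit 286733) (nat_lit 2) (.e (nat_lit 90170) (nat_lit 13) (.e (nat_lit 172094) (nat_lit 9) .nil))))) .nil))) (.nd (nat_lit 6) 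
(.lf (nat_lit 179113) (.g (nat_lit 2551) (.e (nat_lit 57711) (nat_lit 176) (.e (nat_lit 1348) (nat_lit 102) (.e (nat_lit 286735) (nat_lit 3) (.e (nat_lit 98382) (nat_lit 31) (.e (nat_lit 466977) (nat_lit 22) .nil))))) .nil)) 
(.lf (nat_lit 179177) (.g (nat_lit 961) (.e (nat_lit 57711) (nat_lit 176) (.e (nat_lit 2777) (nat_lit 178) (.e (nat_lit 286731) (nat_lit 1) .nil))) .nil)))) (.nd (nat_lit 5) (.nd (nat_lit 6) 
(.lf (nat_lit 179097) (.g (nat_lit 3638) (.e (nat_lit 57711) (nat_lit 176) (.e (nat_lit 1348) (nat_lit 102) (.e (nat_lit 286735) (nat_lit 3) (.e (nat_lit 98359) (nat_lit 26) (.e (nat_lit 426207) (nat_lit 9) .nil))))) .nil)) 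
(.lf (nat_lit 179161) (.g (nat_lit 2439) (.e (nat_lit 57711) (nat_lit 176) (.e (nat_lit 1361) (nat_lit 102) (.e (nat_lit 286735) (nat_lit 3) (.e (nat_lit 98370) (nat_lit 28) (.e (nat_lit 442424) (nat_lit 22) .nil))))) .nil))) (.nd (nat_lit 6) 
(.lf (nat_lit 179129) (.g (nat_lit 1583) (.e (nat_lit 57711) (nat_lit 176) (.e (nat_lit 1349) (nat_lit 102) (.e (nat_lit 286735) (nat_lit 3) (.e (nat_lit 98371) (nat_lit 28) .nil)))) .nil)) 
(.lf (nat_lit 179193) (.g (nat_lit 327) (.e (nat_lit 57712) (nat_lit 176) (.e (nat_lit 1370) (nat_lit 103) (.e (nat_lit 294931) (nat_lit 3) .nil))) .nil)))))) (.nd (nat_lit 3) (.nd (nat_lit 4) (.nd (nat_lit 5) (.nd (nat_lit 6) 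
(.lf (nat_lit 179077) (.g (nat_lit 1738) (.e (nat_lit 65280) (nat_lit 168) (.e (nat_lit 163875) (nat_lit 3) (.e (nat_lit 204863) (nat_lit 27) (.e (nat_lit 344130) (nat_lit 26) .nil)))) .nil)) 
(.lf (nat_lit 179141) (.g (nat_lit 1282) (.e (nat_lit 57711) (nat_lit 176) (.e (nat_lit 1359) (nat_lit 102) (.e (nat_lit 286733) (nat_lit 2) (.e (nat_lit 90178) (nat_lit 15) .nil)))) .nil))) (.nd (nat_lit 6) 
(.lf (nat_lit 179109) (.g (nat_lit 3387) (.e (nat_lit 57711) (nat_lit 176) (.e (nat_lit 1348) (nat_lit 102) (.e (nat_lit 286735) (nat_lit 3) (.e (nat_lit 98373) (nat_lit 29) (.e (nat_lit 458496) (nat_lit 1) .nil))))) .nil)) 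
(.lf (nat_lit 179173) (.g (nat_lit 2213) (.e (nat_lit 57711) (nat_lit 176) (.e (nat_lit 1370) (nat_lit 103) (.e (nat_lit 294931) (nat_lit 3) (.e (nat_lit 98373) (nat_lit 29) (.e (nat_lit 458496) (nat_lit 1) (.e (nat_lit 500056) (nat_lit 17) .nil)))))) (.g (nat_lit 4) .nil .nil))))) (.nd (nat_lit 5) (.nd (nat_lit 6) 
(.lf (nat_lit 179093) (.g (nat_lit 3299) (.e (nat_lit 57711) (nat_lit 176) (.e (nat_lit 1348) (nat_lit 102) (.e (nat_lit 286735) (nat_lit 3) (.e (nat_lit 98356) (nat_lit 26) (.e (nat_lit 426244) (nat_lit 9) .nil))))) .nil)) 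
(.lf (nat_lit 179157) (.g (nat_lit 1557) (.e (nat_lit 57711) (nat_lit 176) (.e (nat_lit 1361) (nat_lit 102) (.e (nat_lit 286735) (nat_lit 3) (.e (nat_lit 98356) (nat_lit 26) .nil)))) .nil))) (.nd (nat_lit 6) 
(.lf (nat_lit 179125) (.g (nat_lit 2787) (.e (nat_lit 57711) (nat_lit 176) (.e (nat_lit 1349) (nat_lit 102) (.e (nat_lit 286735) (nat_lit 3) (.e (nat_lit 98359) (nat_lit 26) (.e (nat_lit 426216) (nat_lit 9) .nil))))) .nil)) 
(.lf (nat_lit 179189) (.g (nat_lit 397) (.e (nat_lit 57712) (nat_lit 176) (.e (nat_lit 1370) (nat_lit 103) (.e (nat_lit 294921) (nat_lit 0) .nil))) .nil))))) (.nd (nat_lit 4) (.nd (nat_lit 5) (.nd (nat_lit 6) 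
(.lf (nat_lit 179085) (.g (nat_lit 2857) (.e (nat_lit 57711) (nat_lit 176) (.e (nat_lit 1348) (nat_lit 102) (.e (nat_lit 286733) (nat_lit 2) (.e (nat_lit 90170) (nat_lit 13) (.e (nat_lit 172092) (nat_lit 9) .nil))))) .nil)) 
(.lf (nat_lit 179149) (.g (nat_lit 3431) (.e (nat_lit 57711) (nat_lit 176) (.e (nat_lit 1360) (nat_lit 102) (.e (nat_lit 286733) (nat_lit 2) (.e (nat_lit 90178) (nat_lit 15) (.e (nat_lit 188449) (nat_lit 22) .nil))))) .nil))) (.nd (nat_lit 6) 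
(.lf (nat_lit 179117) (.g (nat_lit 2727) (.e (nat_lit 57711) (nat_lit 176) (.e (nat_lit 1349) (nat_lit 102) (.e (nat_lit 286733) (nat_lit 2) (.e (nat_lit 90176) (nat_lit 15) (.e (nat_lit 188449) (nat_lit 22) .nil))))) .nil)) 
(.lf (nat_lit 179181) (.g (nat_lit 3693) (.e (nat_lit 57712) (nat_lit 176) (.e (nat_lit 1361) (nat_lit 102) (.e (nat_lit 286733) (nat_lit 2) (.e (nat_lit 90170) (nat_lit 13) (.e (nat_lit 172097) (nat_lit 9) .nil))))) .nil)))) (.nd (nat_lit 5) (.nd (nat_lit 6) 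
(.lf (nat_lit 179101) (.g (nat_lit 3583) (.e (nat_lit 57711) (nat_lit 176) (.e (nat_lit 1348) (nat_lit 102) (.e (nat_lit 286735) (nat_lit 3) (.e (nat_lit 98359) (nat_lit 26) (.e (nat_lit 426219) (nat_lit 9) .nil))))) .nil)) 
(.lf (nat_lit 179165) (.g (nat_lit 1494) (.e (nat_lit 57711) (nat_lit 176) (.e (nat_lit 1366) (nat_lit 103) (.e (nat_lit 294930) (nat_lit 3) (.e (nat_lit 98372) (nat_lit 29) (.e (nat_lit 458496) (nat_lit 1) (.e (nat_lit 500056) (nat_lit 17) .nil)))))) (.g (nat_lit 4) .nil .nil)))) (.nd (nat_lit 6) 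
(.lf (nat_lit 179133) (.g (nat_lit 2407) (.e (nat_lit 57711) (nat_lit 176) (.e (nat_lit 1349) (nat_lit 102) (.e (nat_lit 286735) (nat_lit 3) (.e (nat_lit 98381) (nat_lit 31) (.e (nat_lit 466976) (nat_lit 22) .nil))))) .nil)) 
(.lf (nat_lit 179197) (.g (nat_lit 1972) (.e (nat_lit 57712) (nat_lit 176) (.e (nat_lit 1370) (nat_lit 103) (.e (nat_lit 294931) (nat_lit 3) (.e (nat_lit 98372) (nat_lit 29) (.e (nat_lit 450571) (nat_lit 1) (.e (nat_lit 500056) (nat_lit 17) .nil)))))) (.g (nat_lit 4) .nil .nil)))))))) (.nd (nat_lit 2) (.nd (nat_lit 3) (.nd (nat_lit 4) (.nd (nat_lit 5) (.nd (nat_lit 6) 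
(.lf (nat_lit 179075) (.g (nat_lit 1931) (.e (nat_lit 65280) (nat_lit 168) (.e (nat_lit 163875) (nat_lit 3) (.e (nat_lit 204862) (nat_lit 27) (.e (nat_lit 344130) (nat_lit 26) (.e (nat_lit 557097) (nat_lit 13) .nil))))) .nil)) 
(.lf (nat_lit 179139) (.g (nat_lit 2215) (.e (nat_lit 57711) (nat_lit 176) (.e (nat_lit 1359) (nat_lit 102) (.e (nat_lit 286732) (nat_lit 2) (.e (nat_lit 90170) (nat_lit 13) (.e (nat_lit 172097) (nat_lit 9) .nil))))) .nil))) (.nd (nat_lit 6) 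
(.lf (nat_lit 179107) (.g (nat_lit 3096) (.e (nat_lit 57711) (nat_lit 176) (.e (nat_lit 1348) (nat_lit 102) (.e (nat_lit 286735) (nat_lit 3) (.e (nat_lit 98370) (nat_lit 28) (.e (nat_lit 442422) (nat_lit 22) .nil))))) .nil)) 
(.lf (nat_lit 179171) (.g (nat_lit 867) (.e (nat_lit 57711) (nat_lit 176) (.e (nat_lit 1370) (nat_lit 103) (.e (nat_lit 294931) (nat_lit 3) (.e (nat_lit 98372) (nat_lit 29) .nil)))) .nil)))) (.nd (nat_lit 5) (.nd (nat_lit 6) 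
(.lf (nat_lit 179091) (.g (nat_lit 2595) (.e (nat_lit 57711) (nat_lit 176) (.e (nat_lit 1348) (nat_lit 102) (.e (nat_lit 286735) (nat_lit 3) (.e (nat_lit 98353) (nat_lit 25) (.e (nat_lit 417813) (nat_lit 9) .nil))))) .nil)) 
(.lf (nat_lit 179155) (.g (nat_lit 1720) (.e (nat_lit 57711) (nat_lit 176) (.e (nat_lit 1361) (nat_lit 102) (.e (nat_lit 286733) (nat_lit 2) (.e (nat_lit 90177) (nat_lit 15) (.e (nat_lit 188449) (nat_lit 22) .nil))))) .nil))) (.nd (nat_lit 6) 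
(.lf (nat_lit 179123) (.g (nat_lit 3110) (.e (nat_lit 57711) (nat_lit 176) (.e (nat_lit 1349) (nat_lit 102) (.e (nat_lit 286735) (nat_lit 3) (.e (nat_lit 98359) (nat_lit 26) (.e (nat_lit 426207) (nat_lit 9) .nil))))) .nil)) 
(.lf (nat_lit 179187) (.g (nat_lit 1865) (.e (nat_lit 57712) (nat_lit 176) (.e (nat_lit 1361) (nat_lit 102) (.e (nat_lit 286735) (nat_lit 3) (.e (nat_lit 98381) (nat_lit 31) (.e (nat_lit 466977) (nat_lit 22) .nil))))) .nil))))) (.nd (nat_lit 4) (.nd (nat_lit 5) (.nd (nat_lit 6) 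
(.lf (nat_lit 179083) (.g (nat_lit 2683) (.e (nat_lit 57711) (nat_lit 176) (.e (nat_lit 1346) (nat_lit 102) (.e (nat_lit 286733) (nat_lit 2) (.e (nat_lit 90170) (nat_lit 13) (.e (nat_lit 172095) (nat_lit 9) .nil))))) .nil)) 
(.lf (nat_lit 179147) (.g (nat_lit 1972) (.e (nat_lit 57711) (nat_lit 176) (.e (nat_lit 1360) (nat_lit 102) (.e (nat_lit 286733) (nat_lit 2) (.e (nat_lit 90177) (nat_lit 15) .nil)))) .nil))) (.nd (nat_lit 6) 
(.lf (nat_lit 179115) (.g (nat_lit 1547) (.e (nat_lit 57711) (nat_lit 176) (.e (nat_lit 1349) (nat_lit 102) (.e (nat_lit 286733) (nat_lit 2) (.e (nat_lit 90169) (nat_lit 13) .nil)))) .nil)) 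
(.lf (nat_lit 179179) (.g (nat_lit 916) (.e (nat_lit 57712) (nat_lit 176) (.e (nat_lit 1075) (nat_lit 81) (.e (nat_lit 5293) (nat_lit 298) (.e (nat_lit 1250) (nat_lit 92) .nil)))) .nil)))) (.nd (nat_lit 5) (.nd (nat_lit 6) 
(.lf (nat_lit 179099) (.g (nat_lit 3675) (.e (nat_lit 57711) (nat_lit 176) (.e (nat_lit 1348) (nat_lit 102) (.e (nat_lit 286735) (nat_lit 3) (.e (nat_lit 98359) (nat_lit 26) (.e (nat_lit 426215) (nat_lit 9) .nil))))) .nil)) 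
(.lf (nat_lit 179163) (.g (nat_lit 1294) (.e (nat_lit 57711) (nat_lit 176) (.e (nat_lit 1361) (nat_lit 102) (.e (nat_lit 286735) (nat_lit 3) (.e (nat_lit 98381) (nat_lit 31) .nil)))) .nil))) (.nd (nat_lit 6) 
(.lf (nat_lit 179131) (.g (nat_lit 3006) (.e (nat_lit 57711) (nat_lit 176) (.e (nat_lit 1349) (nat_lit 102) (.e (nat_lit 286735) (nat_lit 3) (.e (nat_lit 98373) (nat_lit 29) (.e (nat_lit 458496) (nat_lit 1) .nil))))) .nil)) 
(.lf (nat_lit 179195) (.g (nat_lit 2350) (.e (nat_lit 57712) (nat_lit 176) (.e (nat_lit 1370) (nat_lit 103) (.e (nat_lit 294931) (nat_lit 3) (.e (nat_lit 98358) (nat_lit 26) (.e (nat_lit 426294) (nat_lit 11) (.e (nat_lit 466688) (nat_lit 19) (.e (nat_lit 500056) (nat_lit 17) .nil))))))) (.g (nat_lit 4) .nil .nil))))))) (.nd (nat_lit 3) (.nd (nat_lit 4) (.nd (nat_lit 5) (.nd (nat_lit 6) 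
(.lf (nat_lit 179079) (.g (nat_lit 2448) (.e (nat_lit 65280) (nat_lit 168) (.e (nat_lit 163875) (nat_lit 3) (.e (nat_lit 204863) (nat_lit 27) (.e (nat_lit 344133) (nat_lit 26) (.e (nat_lit 557103) (nat_lit 14) .nil))))) .nil)) 
(.lf (nat_lit 179143) (.g (nat_lit 1193) (.e (nat_lit 57711) (nat_lit 176) (.e (nat_lit 1359) (nat_lit 102) (.e (nat_lit 286734) (nat_lit 3) (.e (nat_lit 98381) (nat_lit 31) (.e (nat_lit 466976) (nat_lit 22) .nil))))) .nil))) (.nd (nat_lit 6) 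
(.lf (nat_lit 179111) (.g (nat_lit 2759) (.e (nat_lit 57711) (nat_lit 176) (.e (nat_lit 1348) (nat_lit 102) (.e (nat_lit 286735) (nat_lit 3) (.e (nat_lit 98379) (nat_lit 31) (.e (nat_lit 466976) (nat_lit 22) .nil))))) .nil)) 
(.lf (nat_lit 179175) (.g (nat_lit 1453) (.e (nat_lit 57711) (nat_lit 176) (.e (nat_lit 1370) (nat_lit 103) (.e (nat_lit 294960) (nat_lit 13) (.e (nat_lit 393283) (nat_lit 24) (.e (nat_lit 434274) (nat_lit 39) .nil))))) .nil)))) (.nd (nat_lit 5) (.nd (nat_lit 6) 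
(.lf (nat_lit 179095) (.g (nat_lit 3704) (.e (nat_lit 57711) (nat_lit 176) (.e (nat_lit 1348) (nat_lit 102) (.e (nat_lit 286735) (nat_lit 3) (.e (nat_lit 98356) (nat_lit 26) (.e (nat_lit 426250) (nat_lit 9) .nil))))) .nil)) 
(.lf (nat_lit 179159) (.g (nat_lit 2625) (.e (nat_lit 57711) (nat_lit 176) (.e (nat_lit 1361) (nat_lit 102) (.e (nat_lit 286735) (nat_lit 3) (.e (nat_lit 98359) (nat_lit 26) (.e (nat_lit 426212) (nat_lit 9) .nil))))) .nil))) (.nd (nat_lit 6) 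
(.lf (nat_lit 179127) (.g (nat_lit 2084) (.e (nat_lit 57711) (nat_lit 176) (.e (nat_lit 1349) (nat_lit 102) (.e (nat_lit 286735) (nat_lit 3) (.e (nat_lit 98365) (nat_lit 26) (.e (nat_lit 426185) (nat_lit 9) .nil))))) .nil)) 
(.lf (nat_lit 179191) (.g (nat_lit 2199) (.e (nat_lit 57712) (nat_lit 176) (.e (nat_lit 1370) (nat_lit 103) (.e (nat_lit 294928) (nat_lit 2) (.e (nat_lit 90178) (nat_lit 15) (.e (nat_lit 188449) (nat_lit 22) .nil))))) .nil))))) (.nd (nat_lit 4) (.nd (nat_lit 5) (.nd (nat_lit 6) 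
(.lf (nat_lit 179087) (.g (nat_lit 3268) (.e (nat_lit 57711) (nat_lit 176) (.e (nat_lit 1348) (nat_lit 102) (.e (nat_lit 286733) (nat_lit 2) (.e (nat_lit 90170) (nat_lit 13) (.e (nat_lit 172097) (nat_lit 9) .nil))))) .nil)) 
(.lf (nat_lit 179151) (.g (nat_lit 2533) (.e (nat_lit 57711) (nat_lit 176) (.e (nat_lit 1360) (nat_lit 102) (.e (nat_lit 286735) (nat_lit 3) (.e (nat_lit 98370) (nat_lit 28) (.e (nat_lit 442424) (nat_lit 22) .nil))))) .nil))) (.nd (nat_lit 6) 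
(.lf (nat_lit 179119) (.g (nat_lit 2210) (.e (nat_lit 57711) (nat_lit 176) (.e (nat_lit 1349) (nat_lit 102) (.e (nat_lit 286734) (nat_lit 3) (.e (nat_lit 98370) (nat_lit 28) (.e (nat_lit 442424) (nat_lit 22) .nil))))) .nil)) 
(.lf (nat_lit 179183) (.g (nat_lit 2806) (.e (nat_lit 57712) (nat_lit 176) (.e (nat_lit 1361) (nat_lit 102) (.e (nat_lit 286733) (nat_lit 2) (.e (nat_lit 90177) (nat_lit 15) (.e (nat_lit 188449) (nat_lit 22) (.e (nat_lit 196661) (nat_lit 12) .nil)))))) (.g (nat_lit 6) .nil .nil))))) (.nd (nat_lit 5) (.nd (nat_lit 6) 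
(.lf (nat_lit 179103) (.g (nat_lit 2721) (.e (nat_lit 57711) (nat_lit 176) (.e (nat_lit 1348) (nat_lit 102) (.e (nat_lit 286735) (nat_lit 3) (.e (nat_lit 98362) (nat_lit 26) (.e (nat_lit 426214) (nat_lit 9) .nil))))) .nil)) 
(.lf (nat_lit 179167) (.g (nat_lit 2378) (.e (nat_lit 57711) (nat_lit 176) (.e (nat_lit 1368) (nat_lit 103) (.e (nat_lit 294928) (nat_lit 2) (.e (nat_lit 90178) (nat_lit 15) (.e (nat_lit 188449) (nat_lit 22) .nil))))) .nil))) (.nd (nat_lit 6) 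
(.lf (nat_lit 179135) (.g (nat_lit 1886) (.e (nat_lit 57711) (nat_lit 176) (.e (nat_lit 1349) (nat_lit 102) (.e (nat_lit 286735) (nat_lit 3) (.e (nat_lit 98382) (nat_lit 31) (.e (nat_lit 466976) (nat_lit 22) .nil))))) .nil)) 
(.lf (nat_lit 179199) (.g (nat_lit 398) (.e (nat_lit 57712) (nat_lit 176) (.e (nat_lit 1370) (nat_lit 103) (.e (nat_lit 294940) (nat_lit 9) .nil))) .nil)))))))))

noncomputable def tv2406 : DT := (.nd (nat_lit 0) (.nd (nat_lit 1) (.nd (nat_lit 2) (.nd (nat_lit 3) (.nd (nat_lit 4) (.nd (nat_lit 5) (.nd (nat_lit 6) 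
(.lf (nat_lit 179200) (.g (nat_lit 1098) (.e (nat_lit 57712) (nat_lit 176) (.e (nat_lit 1370) (nat_lit 103) (.e (nat_lit 294960) (nat_lit 13) (.e (nat_lit 393281) (nat_lit 23) (.e (nat_lit 426099) (nat_lit 1) .nil))))) .nil)) 
(.lf (nat_lit 179264) (.g (nat_lit 2214) (.e (nat_lit 57714) (nat_lit 176) (.e (nat_lit 1141) (nat_lit 84) (.e (nat_lit 32787) (nat_lit 9) (.e (nat_lit 65604) (nat_lit 9) (.e (nat_lit 336028) (nat_lit 3) (.e (nat_lit 98325) (nat_lit 17) (.e (nat_lit 7936) (nat_lit 405) .nil))))))) (.g (nat_lit 6) .nil .nil)))) (.nd (nat_lit 6) 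
(.lf (nat_lit 179232) (.g (nat_lit 3046) (.e (nat_lit 57713) (nat_lit 176) (.e (nat_lit 1348) (nat_lit 102) (.e (nat_lit 286735) (nat_lit 3) (.e (nat_lit 98365) (nat_lit 26) (.e (nat_lit 426213) (nat_lit 9) .nil))))) .nil)) 
(.lf (nat_lit 179296) (.g (nat_lit 415) (.e (nat_lit 57714) (nat_lit 176) (.e (nat_lit 1349) (nat_lit 102) (.e (nat_lit 286734) (nat_lit 3) .nil))) .nil)))) (.nd (nat_lit 5) (.nd (nat_lit 6) 
(.lf (nat_lit 179216) (.g (nat_lit 3254) (.e (nat_lit 57713) (nat_lit 176) (.e (nat_lit 1348) (nat_lit 102) (.e (nat_lit 286733) (nat_lit 2) (.e (nat_lit 90170) (nat_lit 13) (.e (nat_lit 172097) (nat_lit 9) .nil))))) .nil)) 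
(.lf (nat_lit 179280) (.g (nat_lit 3336) (.e (nat_lit 57714) (nat_lit 176) (.e (nat_lit 1348) (nat_lit 102) (.e (nat_lit 286735) (nat_lit 3) (.e (nat_lit 98359) (nat_lit 26) (.e (nat_lit 426216) (nat_lit 9) .nil))))) .nil))) (.nd (nat_lit 6) 
(.lf (nat_lit 179248) (.g (nat_lit 2643) (.e (nat_lit 57713) (nat_lit 176) (.e (nat_lit 1348) (nat_lit 102) (.e (nat_lit 286735) (nat_lit 3) (.e (nat_lit 98381) (nat_lit 31) (.e (nat_lit 466977) (nat_lit 22) .nil))))) .nil)) 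
(.lf (nat_lit 179312) (.g (nat_lit 1623) (.e (nat_lit 57714) (nat_lit 176) (.e (nat_lit 1349) (nat_lit 102) (.e (nat_lit 286761) (nat_lit 13) (.e (nat_lit 393284) (nat_lit 24) .nil)))) .nil))))) (.nd (nat_lit 4) (.nd (nat_lit 5) (.nd (nat_lit 6) 
(.lf (nat_lit 179208) (.g (nat_lit 3681) (.e (nat_lit 57713) (nat_lit 176) (.e (nat_lit 1141) (nat_lit 84) (.e (nat_lit 32787) (nat_lit 9) (.e (nat_lit 65610) (nat_lit 10) (.e (nat_lit 344117) (nat_lit 21) (.e (nat_lit 516098) (nat_lit 0) (.e (nat_lit 7583) (nat_lit 405) .nil))))))) (.g (nat_lit 7) .nil .nil))) 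
(.lf (nat_lit 179272) (.g (nat_lit 400) (.e (nat_lit 57714) (nat_lit 176) (.e (nat_lit 1348) (nat_lit 102) (.e (nat_lit 286735) (nat_lit 3) .nil))) .nil))) (.nd (nat_lit 6) 
(.lf (nat_lit 179240) (.g (nat_lit 3366) (.e (nat_lit 57713) (nat_lit 176) (.e (nat_lit 1348) (nat_lit 102) (.e (nat_lit 286735) (nat_lit 3) (.e (nat_lit 98373) (nat_lit 29) (.e (nat_lit 450570) (nat_lit 1) .nil))))) .nil)) 
(.lf (nat_lit 179304) (.g (nat_lit 2998) (.e (nat_lit 57714) (nat_lit 176) (.e (nat_lit 1349) (nat_lit 102) (.e (nat_lit 286735) (nat_lit 3) (.e (nat_lit 98359) (nat_lit 26) (.e (nat_lit 426214) (nat_lit 9) .nil))))) .nil)))) (.nd (nat_lit 5) (.nd (nat_lit 6) 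
(.lf (nat_lit 179224) (.g (nat_lit 3248) (.e (nat_lit 57713) (nat_lit 176) (.e (nat_lit 1348) (nat_lit 102) (.e (nat_lit 286735) (nat_lit 3) (.e (nat_lit 98356) (nat_lit 26) (.e (nat_lit 426241) (nat_lit 9) .nil))))) .nil)) 
(.lf (nat_lit 179288) (.g (nat_lit 1752) (.e (nat_lit 57714) (nat_lit 176) (.e (nat_lit 1348) (nat_lit 102) (.e (nat_lit 286735) (nat_lit 3) (.e (nat_lit 98381) (nat_lit 31) .nil)))) .nil))) (.nd (nat_lit 6) 
(.lf (nat_lit 179256) (.g (nat_lit 2808) (.e (nat_lit 57713) (nat_lit 176) (.e (nat_lit 1348) (nat_lit 102) (.e (nat_lit 286761) (nat_lit 13) (.e (nat_lit 393283) (nat_lit 24) (.e (nat_lit 434274) (nat_lit 39) .nil))))) .nil)) 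
(.lf (nat_lit 179320) (.g (nat_lit 2089) (.e (nat_lit 57714) (nat_lit 176) (.e (nat_lit 1368) (nat_lit 103) (.e (nat_lit 294931) (nat_lit 3) (.e (nat_lit 98373) (nat_lit 29) (.e (nat_lit 458496) (nat_lit 1) .nil))))) .nil)))))) (.nd (nat_lit 3) (.nd (nat_lit 4) (.nd (nat_lit 5) (.nd (nat_lit 6) 
(.lf (nat_lit 179204) (.g (nat_lit 2381) (.e (nat_lit 57713) (nat_lit 176) (.e (nat_lit 1140) (nat_lit 84) (.e (nat_lit 32787) (nat_lit 9) (.e (nat_lit 65604) (nat_lit 9) (.e (nat_lit 336028) (nat_lit 3) (.e (nat_lit 98325) (nat_lit 17) (.e (nat_lit 7936) (nat_lit 405) .nil))))))) (.g (nat_lit 6) .nil .nil))) 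
(.lf (nat_lit 179268) (.g (nat_lit 3055) (.e (nat_lit 57714) (nat_lit 176) (.e (nat_lit 1347) (nat_lit 102) (.e (nat_lit 286735) (nat_lit 3) (.e (nat_lit 98372) (nat_lit 29) (.e (nat_lit 458496) (nat_lit 1) (.e (nat_lit 500056) (nat_lit 17) .nil)))))) (.g (nat_lit 4) .nil .nil)))) (.nd (nat_lit 6) 
(.lf (nat_lit 179236) (.g (nat_lit 2824) (.e (nat_lit 57713) (nat_lit 176) (.e (nat_lit 1348) (nat_lit 102) (.e (nat_lit 286735) (nat_lit 3) (.e (nat_lit 98370) (nat_lit 28) (.e (nat_lit 442424) (nat_lit 22) .nil))))) .nil)) 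
(.lf (nat_lit 179300) (.g (nat_lit 2496) (.e (nat_lit 57714) (nat_lit 176) (.e (nat_lit 1349) (nat_lit 102) (.e (nat_lit 286735) (nat_lit 3) (.e (nat_lit 98356) (nat_lit 26) (.e (nat_lit 426241) (nat_lit 9) .nil))))) .nil)))) (.nd (nat_lit 5) (.nd (nat_lit 6) 
(.lf (nat_lit 179220) (.g (nat_lit 3971) (.e (nat_lit 57713) (nat_lit 176) (.e (nat_lit 1348) (nat_lit 102) (.e (nat_lit 286733) (nat_lit 2) (.e (nat_lit 90178) (nat_lit 15) (.e (nat_lit 188449) (nat_lit 22) (.e (nat_lit 196661) (nat_lit 12) .nil)))))) (.g (nat_lit 6) .nil .nil))) 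
(.lf (nat_lit 179284) (.g (nat_lit 3512) (.e (nat_lit 57714) (nat_lit 176) (.e (nat_lit 1348) (nat_lit 102) (.e (nat_lit 286735) (nat_lit 3) (.e (nat_lit 98372) (nat_lit 29) (.e (nat_lit 458496) (nat_lit 1) .nil))))) .nil))) (.nd (nat_lit 6) 
(.lf (nat_lit 179252) (.g (nat_lit 467) (.e (nat_lit 57713) (nat_lit 176) (.e (nat_lit 1348) (nat_lit 102) (.e (nat_lit 286761) (nat_lit 13) .nil))) .nil)) 
(.lf (nat_lit 179316) (.g (nat_lit 2981) (.e (nat_lit 57714) (nat_lit 176) (.e (nat_lit 1359) (nat_lit 102) (.e (nat_lit 286734) (nat_lit 3) (.e (nat_lit 98370) (nat_lit 28) (.e (nat_lit 442424) (nat_lit 22) (.e (nat_lit 196661) (nat_lit 12) .nil)))))) (.g (nat_lit 6) .nil .nil)))))) (.nd (nat_lit 4) (.nd (nat_lit 5) (.nd (nat_lit 6) 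
(.lf (nat_lit 179212) (.g (nat_lit 1439) (.e (nat_lit 57713) (nat_lit 176) (.e (nat_lit 1348) (nat_lit 102) (.e (nat_lit 286733) (nat_lit 2) (.e (nat_lit 90169) (nat_lit 13) .nil)))) .nil)) 
(.lf (nat_lit 179276) (.g (nat_lit 3659) (.e (nat_lit 57714) (nat_lit 176) (.e (nat_lit 1348) (nat_lit 102) (.e (nat_lit 286735) (nat_lit 3) (.e (nat_lit 98356) (nat_lit 26) (.e (nat_lit 426246) (nat_lit 9) .nil))))) .nil))) (.nd (nat_lit 6) 
(.lf (nat_lit 179244) (.g (nat_lit 3322) (.e (nat_lit 57713) (nat_lit 176) (.e (nat_lit 1348) (nat_lit 102) (.e (nat_lit 286735) (nat_lit 3) (.e (nat_lit 98373) (nat_lit 29) (.e (nat_lit 458496) (nat_lit 1) .nil))))) .nil)) 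
(.lf (nat_lit 179308) (.g (nat_lit 2552) (.e (nat_lit 57714) (nat_lit 176) (.e (nat_lit 1349) (nat_lit 102) (.e (nat_lit 286735) (nat_lit 3) (.e (nat_lit 98367) (nat_lit 27) (.e (nat_lit 442112) (nat_lit 8) .nil))))) .nil)))) (.nd (nat_lit 5) (.nd (nat_lit 6) 
(.lf (nat_lit 179228) (.g (nat_lit 3589) (.e (nat_lit 57713) (nat_lit 176) (.e (nat_lit 1348) (nat_lit 102) (.e (nat_lit 286735) (nat_lit 3) (.e (nat_lit 98359) (nat_lit 26) (.e (nat_lit 426207) (nat_lit 9) .nil))))) .nil)) 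
(.lf (nat_lit 179292) (.g (nat_lit 1413) (.e (nat_lit 57714) (nat_lit 176) (.e (nat_lit 1349) (nat_lit 102) (.e (nat_lit 286733) (nat_lit 2) (.e (nat_lit 90169) (nat_lit 13) .nil)))) .nil))) (.nd (nat_lit 6) 
(.lf (nat_lit 179260) (.g (nat_lit 1330) (.e (nat_lit 57713) (nat_lit 176) (.e (nat_lit 1348) (nat_lit 102) (.e (nat_lit 286761) (nat_lit 13) (.e (nat_lit 393293) (nat_lit 26) .nil)))) .nil)) 
(.lf (nat_lit 179324) (.g (nat_lit 2150) (.e (nat_lit 57715) (nat_lit 176) (.e (nat_lit 1348) (nat_lit 102) (.e (nat_lit 286733) (nat_lit 2) (.e (nat_lit 90170) (nat_lit 13) .nil)))) .nil))))))) (.nd (nat_lit 2) (.nd (nat_lit 3) (.nd (nat_lit 4) (.nd (nat_lit 5) (.nd (nat_lit 6) 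
(.lf (nat_lit 179202) (.g (nat_lit 1220) (.e (nat_lit 57712) (nat_lit 176) (.e (nat_lit 2777) (nat_lit 178) (.e (nat_lit 286735) (nat_lit 3) (.e (nat_lit 98350) (nat_lit 24) .nil)))) .nil)) 
(.lf (nat_lit 179266) (.g (nat_lit 2682) (.e (nat_lit 57714) (nat_lit 176) (.e (nat_lit 1347) (nat_lit 102) (.e (nat_lit 286735) (nat_lit 3) (.e (nat_lit 98359) (nat_lit 26) (.e (nat_lit 426208) (nat_lit 9) .nil))))) .nil))) (.nd (nat_lit 6) 
(.lf (nat_lit 179234) (.g (nat_lit 2791) (.e (nat_lit 57713) (nat_lit 176) (.e (nat_lit 1348) (nat_lit 102) (.e (nat_lit 286735) (nat_lit 3) (.e (nat_lit 98367) (nat_lit 27) (.e (nat_lit 442112) (nat_lit 8) .nil))))) .nil)) 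
(.lf (nat_lit 179298) (.g (nat_lit 1424) (.e (nat_lit 57714) (nat_lit 176) (.e (nat_lit 1349) (nat_lit 102) (.e (nat_lit 286735) (nat_lit 3) (.e (nat_lit 98350) (nat_lit 24) .nil)))) .nil)))) (.nd (nat_lit 5) (.nd (nat_lit 6) 
(.lf (nat_lit 179218) (.g (nat_lit 2197) (.e (nat_lit 57713) (nat_lit 176) (.e (nat_lit 1348) (nat_lit 102) (.e (nat_lit 286733) (nat_lit 2) (.e (nat_lit 90177) (nat_lit 15) (.e (nat_lit 188447) (nat_lit 22) .nil))))) .nil)) 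
(.lf (nat_lit 179282) (.g (nat_lit 2848) (.e (nat_lit 57714) (nat_lit 176) (.e (nat_lit 1348) (nat_lit 102) (.e (nat_lit 286735) (nat_lit 3) (.e (nat_lit 98367) (nat_lit 27) (.e (nat_lit 442112) (nat_lit 8) .nil))))) .nil))) (.nd (nat_lit 6) 
(.lf (nat_lit 179250) (.g (nat_lit 2423) (.e (nat_lit 57713) (nat_lit 176) (.e (nat_lit 1348) (nat_lit 102) (.e (nat_lit 286735) (nat_lit 3) (.e (nat_lit 98382) (nat_lit 31) (.e (nat_lit 466977) (nat_lit 22) .nil))))) .nil)) 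
(.lf (nat_lit 179314) (.g (nat_lit 1265) (.e (nat_lit 57714) (nat_lit 176) (.e (nat_lit 1359) (nat_lit 102) (.e (nat_lit 286733) (nat_lit 2) (.e (nat_lit 90178) (nat_lit 15) .nil)))) .nil))))) (.nd (nat_lit 4) (.nd (nat_lit 5) (.nd (nat_lit 6) 
(.lf (nat_lit 179210) (.g (nat_lit 1462) (.e (nat_lit 57713) (nat_lit 176) (.e (nat_lit 1348) (nat_lit 102) (.e (nat_lit 286727) (nat_lit 0) (.e (nat_lit 1799) (nat_lit 119) (.e (nat_lit 516177) (nat_lit 14) .nil))))) .nil)) 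
(.lf (nat_lit 179274) (.g (nat_lit 2608) (.e (nat_lit 57714) (nat_lit 176) (.e (nat_lit 1348) (nat_lit 102) (.e (nat_lit 286735) (nat_lit 3) (.e (nat_lit 98353) (nat_lit 25) (.e (nat_lit 417813) (nat_lit 9) .nil))))) .nil))) (.nd (nat_lit 6) 
(.lf (nat_lit 179242) (.g (nat_lit 3754) (.e (nat_lit 57713) (nat_lit 176) (.e (nat_lit 1348) (nat_lit 102) (.e (nat_lit 286735) (nat_lit 3) (.e (nat_lit 98373) (nat_lit 29) (.e (nat_lit 450574) (nat_lit 1) .nil))))) .nil)) 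
(.lf (nat_lit 179306) (.g (nat_lit 3353) (.e (nat_lit 57714) (nat_lit 176) (.e (nat_lit 1349) (nat_lit 102) (.e (nat_lit 286735) (nat_lit 3) (.e (nat_lit 98359) (nat_lit 26) (.e (nat_lit 426218) (nat_lit 9) .nil))))) .nil)))) (.nd (nat_lit 5) (.nd (nat_lit 6) 
(.lf (nat_lit 179226) (.g (nat_lit 3660) (.e (nat_lit 57713) (nat_lit 176) (.e (nat_lit 1348) (nat_lit 102) (.e (nat_lit 286735) (nat_lit 3) (.e (nat_lit 98356) (nat_lit 26) (.e (nat_lit 426250) (nat_lit 9) .nil))))) .nil)) 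
(.lf (nat_lit 179290) (.g (nat_lit 2369) (.e (nat_lit 57714) (nat_lit 176) (.e (nat_lit 1348) (nat_lit 102) (.e (nat_lit 286735) (nat_lit 3) (.e (nat_lit 98382) (nat_lit 31) (.e (nat_lit 466977) (nat_lit 22) .nil))))) .nil))) (.nd (nat_lit 6) 
(.lf (nat_lit 179258) (.g (nat_lit 1441) (.e (nat_lit 57713) (nat_lit 176) (.e (nat_lit 1348) (nat_lit 102) (.e (nat_lit 286761) (nat_lit 13) (.e (nat_lit 393289) (nat_lit 25) .nil)))) .nil)) 
(.lf (nat_lit 179322) (.g (nat_lit 1744) (.e (nat_lit 57715) (nat_lit 176) (.e (nat_lit 1348) (nat_lit 102) (.e (nat_lit 286733) (nat_lit 2) (.e (nat_lit 90169) (nat_lit 13) .nil)))) .nil)))))) (.nd (nat_lit 3) (.nd (nat_lit 4) (.nd (nat_lit 5) (.nd (nat_lit 6) 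
(.lf (nat_lit 179206) (.g (nat_lit 2470) (.e (nat_lit 57713) (nat_lit 176) (.e (nat_lit 1141) (nat_lit 84) (.e (nat_lit 32787) (nat_lit 9) (.e (nat_lit 65598) (nat_lit 9) (.e (nat_lit 336028) (nat_lit 3) (.e (nat_lit 98325) (nat_lit 17) (.e (nat_lit 7936) (nat_lit 405) .nil))))))) (.g (nat_lit 6) .nil .nil))) 
(.lf (nat_lit 179270) (.g (nat_lit 1226) (.e (nat_lit 57714) (nat_lit 176) (.e (nat_lit 1348) (nat_lit 102) (.e (nat_lit 286727) (nat_lit 0) (.e (nat_lit 1799) (nat_lit 119) .nil)))) .nil))) (.nd (nat_lit 6) 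
(.lf (nat_lit 179238) (.g (nat_lit 3881) (.e (nat_lit 57713) (nat_lit 176) (.e (nat_lit 1348) (nat_lit 102) (.e (nat_lit 286735) (nat_lit 3) (.e (nat_lit 98372) (nat_lit 29) (.e (nat_lit 450571) (nat_lit 1) .nil))))) .nil)) 
(.lf (nat_lit 179302) (.g (nat_lit 2911) (.e (nat_lit 57714) (nat_lit 176) (.e (nat_lit 1349) (nat_lit 102) (.e (nat_lit 286735) (nat_lit 3) (.e (nat_lit 98356) (nat_lit 26) (.e (nat_lit 426250) (nat_lit 9) .nil))))) .nil)))) (.nd (nat_lit 5) (.nd (nat_lit 6) 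
(.lf (nat_lit 179222) (.g (nat_lit 2674) (.e (nat_lit 57713) (nat_lit 176) (.e (nat_lit 1348) (nat_lit 102) (.e (nat_lit 286735) (nat_lit 3) (.e (nat_lit 98350) (nat_lit 24) (.e (nat_lit 417536) (nat_lit 8) .nil))))) .nil)) 
(.lf (nat_lit 179286) (.g (nat_lit 3066) (.e (nat_lit 57714) (nat_lit 176) (.e (nat_lit 1348) (nat_lit 102) (.e (nat_lit 286735) (nat_lit 3) (.e (nat_lit 98374) (nat_lit 29) (.e (nat_lit 458496) (nat_lit 1) (.e (nat_lit 500056) (nat_lit 17) .nil)))))) (.g (nat_lit 4) .nil .nil)))) (.nd (nat_lit 6) 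
(.lf (nat_lit 179254) (.g (nat_lit 1603) (.e (nat_lit 57713) (nat_lit 176) (.e (nat_lit 1348) (nat_lit 102) (.e (nat_lit 286761) (nat_lit 13) (.e (nat_lit 393270) (nat_lit 23) .nil)))) .nil)) 
(.lf (nat_lit 179318) (.g (nat_lit 387) (.e (nat_lit 57714) (nat_lit 176) (.e (nat_lit 1368) (nat_lit 103) (.e (nat_lit 294931) (nat_lit 3) .nil))) .nil))))) (.nd (nat_lit 4) (.nd (nat_lit 5) (.nd (nat_lit 6) 
(.lf (nat_lit 179214) (.g (nat_lit 1864) (.e (nat_lit 57713) (nat_lit 176) (.e (nat_lit 1348) (nat_lit 102) (.e (nat_lit 286733) (nat_lit 2) (.e (nat_lit 90169) (nat_lit 13) (.e (nat_lit 172103) (nat_lit 9) .nil))))) .nil)) 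
(.lf (nat_lit 179278) (.g (nat_lit 3710) (.e (nat_lit 57714) (nat_lit 176) (.e (nat_lit 1348) (nat_lit 102) (.e (nat_lit 286735) (nat_lit 3) (.e (nat_lit 98356) (nat_lit 26) (.e (nat_lit 426270) (nat_lit 9) .nil))))) .nil))) (.nd (nat_lit 6) 
(.lf (nat_lit 179246) (.g (nat_lit 2687) (.e (nat_lit 57713) (nat_lit 176) (.e (nat_lit 1348) (nat_lit 102) (.e (nat_lit 286735) (nat_lit 3) (.e (nat_lit 98374) (nat_lit 29) (.e (nat_lit 450575) (nat_lit 1) .nil))))) .nil)) 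
(.lf (nat_lit 179310) (.g (nat_lit 2418) (.e (nat_lit 57714) (nat_lit 176) (.e (nat_lit 1349) (nat_lit 102) (.e (nat_lit 286735) (nat_lit 3) (.e (nat_lit 98370) (nat_lit 28) (.e (nat_lit 442423) (nat_lit 22) .nil))))) .nil)))) (.nd (nat_lit 5) (.nd (nat_lit 6) 
(.lf (nat_lit 179230) (.g (nat_lit 3534) (.e (nat_lit 57713) (nat_lit 176) (.e (nat_lit 1348) (nat_lit 102) (.e (nat_lit 286735) (nat_lit 3) (.e (nat_lit 98359) (nat_lit 26) (.e (nat_lit 426219) (nat_lit 9) .nil))))) .nil)) 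
(.lf (nat_lit 179294) (.g (nat_lit 2385) (.e (nat_lit 57714) (nat_lit 176) (.e (nat_lit 1349) (nat_lit 102) (.e (nat_lit 286733) (nat_lit 2) (.e (nat_lit 90177) (nat_lit 15) (.e (nat_lit 188447) (nat_lit 22) .nil))))) .nil))) (.nd (nat_lit 6) 
(.lf (nat_lit 179262) (.g (nat_lit 1474) (.e (nat_lit 57713) (nat_lit 176) (.e (nat_lit 1368) (nat_lit 103) (.e (nat_lit 294958) (nat_lit 13) (.e (nat_lit 393282) (nat_lit 24) (.e (nat_lit 434276) (nat_lit 39) .nil))))) .nil)) 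
(.lf (nat_lit 179326) (.g (nat_lit 1746) (.e (nat_lit 57715) (nat_lit 176) (.e (nat_lit 1348) (nat_lit 102) (.e (nat_lit 286733) (nat_lit 2) (.e (nat_lit 90177) (nat_lit 15) .nil)))) .nil)))))))) (.nd (nat_lit 1) (.nd (nat_lit 2) (.nd (nat_lit 3) (.nd (nat_lit 4) (.nd (nat_lit 5) (.nd (nat_lit 6) 
(.lf (nat_lit 179201) (.g (nat_lit 2708) (.e (nat_lit 57712) (nat_lit 176) (.e (nat_lit 1370) (nat_lit 103) (.e (nat_lit 294960) (nat_lit 13) (.e (nat_lit 393283) (nat_lit 24) (.e (nat_lit 434275) (nat_lit 39) (.e (nat_lit 663565) (nat_lit 3) .nil)))))) (.g (nat_lit 6) .nil .nil))) 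
(.lf (nat_lit 179265) (.g (nat_lit 3460) (.e (nat_lit 57714) (nat_lit 176) (.e (nat_lit 1141) (nat_lit 84) (.e (nat_lit 32787) (nat_lit 9) (.e (nat_lit 65610) (nat_lit 10) (.e (nat_lit 344117) (nat_lit 21) (.e (nat_lit 516106) (nat_lit 0) (.e (nat_lit 7936) (nat_lit 405) .nil))))))) (.g (nat_lit 6) .nil .nil)))) (.nd (nat_lit 6) 
(.lf (nat_lit 179233) (.g (nat_lit 1440) (.e (nat_lit 57713) (nat_lit 176) (.e (nat_lit 1348) (nat_lit 102) (.e (nat_lit 286735) (nat_lit 3) (.e (nat_lit 106240) (nat_lit 26) .nil)))) .nil)) 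
(.lf (nat_lit 179297) (.g (nat_lit 2347) (.e (nat_lit 57714) (nat_lit 176) (.e (nat_lit 1349) (nat_lit 102) (.e (nat_lit 286734) (nat_lit 3) (.e (nat_lit 98359) (nat_lit 26) (.e (nat_lit 426212) (nat_lit 9) .nil))))) .nil)))) (.nd (nat_lit 5) (.nd (nat_lit 6) 
(.lf (nat_lit 179217) (.g (nat_lit 4051) (.e (nat_lit 57713) (nat_lit 176) (.e (nat_lit 1348) (nat_lit 102) (.e (nat_lit 286733) (nat_lit 2) (.e (nat_lit 90176) (nat_lit 15) (.e (nat_lit 188447) (nat_lit 22) (.e (nat_lit 196661) (nat_lit 12) .nil)))))) (.g (nat_lit 6) .nil .nil))) 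
(.lf (nat_lit 179281) (.g (nat_lit 3548) (.e (nat_lit 57714) (nat_lit 176) (.e (nat_lit 1348) (nat_lit 102) (.e (nat_lit 286735) (nat_lit 3) (.e (nat_lit 98359) (nat_lit 26) (.e (nat_lit 426219) (nat_lit 9) .nil))))) .nil))) (.nd (nat_lit 6) 
(.lf (nat_lit 179249) (.g (nat_lit 2213) (.e (nat_lit 57713) (nat_lit 176) (.e (nat_lit 1348) (nat_lit 102) (.e (nat_lit 286735) (nat_lit 3) (.e (nat_lit 98382) (nat_lit 31) (.e (nat_lit 466974) (nat_lit 22) .nil))))) .nil)) 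
(.lf (nat_lit 179313) (.g (nat_lit 1728) (.e (nat_lit 57714) (nat_lit 176) (.e (nat_lit 1358) (nat_lit 102) (.e (nat_lit 286734) (nat_lit 3) (.e (nat_lit 98370) (nat_lit 28) (.e (nat_lit 442424) (nat_lit 22) .nil))))) .nil))))) (.nd (nat_lit 4) (.nd (nat_lit 5) (.nd (nat_lit 6) 
(.lf (nat_lit 179209) (.g (nat_lit 4104) (.e (nat_lit 57713) (nat_lit 176) (.e (nat_lit 1141) (nat_lit 84) (.e (nat_lit 32787) (nat_lit 9) (.e (nat_lit 65610) (nat_lit 10) (.e (nat_lit 344117) (nat_lit 21) (.e (nat_lit 516099) (nat_lit 0) (.e (nat_lit 7936) (nat_lit 405) .nil))))))) (.g (nat_lit 6) .nil .nil))) 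
(.lf (nat_lit 179273) (.g (nat_lit 2732) (.e (nat_lit 57714) (nat_lit 176) (.e (nat_lit 1348) (nat_lit 102) (.e (nat_lit 286735) (nat_lit 3) (.e (nat_lit 98350) (nat_lit 24) (.e (nat_lit 417536) (nat_lit 8) .nil))))) .nil))) (.nd (nat_lit 6) 
(.lf (nat_lit 179241) (.g (nat_lit 3365) (.e (nat_lit 57713) (nat_lit 176) (.e (nat_lit 1348) (nat_lit 102) (.e (nat_lit 286735) (nat_lit 3) (.e (nat_lit 98373) (nat_lit 29) (.e (nat_lit 450573) (nat_lit 1) .nil))))) .nil)) 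
(.lf (nat_lit 179305) (.g (nat_lit 3141) (.e (nat_lit 57714) (nat_lit 176) (.e (nat_lit 1349) (nat_lit 102) (.e (nat_lit 286735) (nat_lit 3) (.e (nat_lit 98359) (nat_lit 26) (.e (nat_lit 426215) (nat_lit 9) .nil))))) .nil)))) (.nd (nat_lit 5) (.nd (nat_lit 6) 
(.lf (nat_lit 179225) (.g (nat_lit 3604) (.e (nat_lit 57713) (nat_lit 176) (.e (nat_lit 1348) (nat_lit 102) (.e (nat_lit 286735) (nat_lit 3) (.e (nat_lit 98356) (nat_lit 26) (.e (nat_lit 426246) (nat_lit 9) .nil))))) .nil)) 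
(.lf (nat_lit 179289) (.g (nat_lit 2336) (.e (nat_lit 57714) (nat_lit 176) (.e (nat_lit 1348) (nat_lit 102) (.e (nat_lit 286735) (nat_lit 3) (.e (nat_lit 98382) (nat_lit 31) (.e (nat_lit 466976) (nat_lit 22) .nil))))) .nil))) (.nd (nat_lit 6) 
(.lf (nat_lit 179257) (.g (nat_lit 2777) (.e (nat_lit 57713) (nat_lit 176) (.e (nat_lit 1348) (nat_lit 102) (.e (nat_lit 286761) (nat_lit 13) (.e (nat_lit 393283) (nat_lit 24) (.e (nat_lit 434281) (nat_lit 40) .nil))))) .nil)) 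
(.lf (nat_lit 179321) (.g (nat_lit 1883) (.e (nat_lit 57715) (nat_lit 176) (.e (nat_lit 1348) (nat_lit 102) (.e (nat_lit 286733) (nat_lit 2) (.e (nat_lit 90168) (nat_lit 13) .nil)))) .nil)))))) (.nd (nat_lit 3) (.nd (nat_lit 4) (.nd (nat_lit 5) (.nd (nat_lit 6) 
(.lf (nat_lit 179205) (.g (nat_lit 4113) (.e (nat_lit 57713) (nat_lit 176) (.e (nat_lit 1140) (nat_lit 84) (.e (nat_lit 32787) (nat_lit 9) (.e (nat_lit 65610) (nat_lit 10) (.e (nat_lit 344117) (nat_lit 21) (.e (nat_lit 516099) (nat_lit 0) (.e (nat_lit 7936) (nat_lit 405) .nil))))))) (.g (nat_lit 6) .nil .nil))) 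
(.lf (nat_lit 179269) (.g (nat_lit 975) (.e (nat_lit 57714) (nat_lit 176) (.e (nat_lit 1347) (nat_lit 102) (.e (nat_lit 286735) (nat_lit 3) (.e (nat_lit 98381) (nat_lit 31) .nil)))) .nil))) (.nd (nat_lit 6) 
(.lf (nat_lit 179237) (.g (nat_lit 2227) (.e (nat_lit 57713) (nat_lit 176) (.e (nat_lit 1348) (nat_lit 102) (.e (nat_lit 286735) (nat_lit 3) (.e (nat_lit 98371) (nat_lit 28) (.e (nat_lit 442422) (nat_lit 22) .nil))))) .nil)) 
(.lf (nat_lit 179301) (.g (nat_lit 2503) (.e (nat_lit 57714) (nat_lit 176) (.e (nat_lit 1349) (nat_lit 102) (.e (nat_lit 286735) (nat_lit 3) (.e (nat_lit 98356) (nat_lit 26) (.e (nat_lit 426244) (nat_lit 9) .nil))))) .nil)))) (.nd (nat_lit 5) (.nd (nat_lit 6) 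
(.lf (nat_lit 179221) (.g (nat_lit 418) (.e (nat_lit 57713) (nat_lit 176) (.e (nat_lit 1348) (nat_lit 102) (.e (nat_lit 286735) (nat_lit 3) .nil))) .nil)) 
(.lf (nat_lit 179285) (.g (nat_lit 3342) (.e (nat_lit 57714) (nat_lit 176) (.e (nat_lit 1348) (nat_lit 102) (.e (nat_lit 286735) (nat_lit 3) (.e (nat_lit 98373) (nat_lit 29) (.e (nat_lit 458496) (nat_lit 1) .nil))))) .nil))) (.nd (nat_lit 6) 
(.lf (nat_lit 179253) (.g (nat_lit 1629) (.e (nat_lit 57713) (nat_lit 176) (.e (nat_lit 1348) (nat_lit 102) (.e (nat_lit 286761) (nat_lit 13) (.e (nat_lit 393265) (nat_lit 22) .nil)))) .nil)) 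
(.lf (nat_lit 179317) (.g (nat_lit 1519) (.e (nat_lit 57714) (nat_lit 176) (.e (nat_lit 1368) (nat_lit 103) (.e (nat_lit 294927) (nat_lit 2) (.e (nat_lit 90176) (nat_lit 15) (.e (nat_lit 188447) (nat_lit 22) .nil))))) .nil))))) (.nd (nat_lit 4) (.nd (nat_lit 5) (.nd (nat_lit 6) 
(.lf (nat_lit 179213) (.g (nat_lit 1780) (.e (nat_lit 57713) (nat_lit 176) (.e (nat_lit 1348) (nat_lit 102) (.e (nat_lit 286733) (nat_lit 2) (.e (nat_lit 90169) (nat_lit 13) (.e (nat_lit 172094) (nat_lit 9) .nil))))) .nil)) 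
(.lf (nat_lit 179277) (.g (nat_lit 3715) (.e (nat_lit 57714) (nat_lit 176) (.e (nat_lit 1348) (nat_lit 102) (.e (nat_lit 286735) (nat_lit 3) (.e (nat_lit 98356) (nat_lit 26) (.e (nat_lit 426250) (nat_lit 9) .nil))))) .nil))) (.nd (nat_lit 6) 
(.lf (nat_lit 179245) (.g (nat_lit 1672) (.e (nat_lit 57713) (nat_lit 176) (.e (nat_lit 1348) (nat_lit 102) (.e (nat_lit 286735) (nat_lit 3) (.e (nat_lit 98374) (nat_lit 29) .nil)))) .nil)) 
(.lf (nat_lit 179309) (.g (nat_lit 2586) (.e (nat_lit 57714) (nat_lit 176) (.e (nat_lit 1349) (nat_lit 102) (.e (nat_lit 286735) (nat_lit 3) (.e (nat_lit 98370) (nat_lit 28) (.e (nat_lit 442422) (nat_lit 22) .nil))))) .nil)))) (.nd (nat_lit 5) (.nd (nat_lit 6) 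
(.lf (nat_lit 179229) (.g (nat_lit 3322) (.e (nat_lit 57713) (nat_lit 176) (.e (nat_lit 1348) (nat_lit 102) (.e (nat_lit 286735) (nat_lit 3) (.e (nat_lit 98359) (nat_lit 26) (.e (nat_lit 426216) (nat_lit 9) .nil))))) .nil)) 
(.lf (nat_lit 179293) (.g (nat_lit 2582) (.e (nat_lit 57714) (nat_lit 176) (.e (nat_lit 1349) (nat_lit 102) (.e (nat_lit 286733) (nat_lit 2) (.e (nat_lit 90176) (nat_lit 15) (.e (nat_lit 188449) (nat_lit 22) .nil))))) .nil))) (.nd (nat_lit 6) 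
(.lf (nat_lit 179261) (.g (nat_lit 461) (.e (nat_lit 57713) (nat_lit 176) (.e (nat_lit 1368) (nat_lit 103) (.e (nat_lit 294957) (nat_lit 13) .nil))) .nil)) 
(.lf (nat_lit 179325) (.g (nat_lit 2646) (.e (nat_lit 57715) (nat_lit 176) (.e (nat_lit 1348) (nat_lit 102) (.e (nat_lit 286733) (nat_lit 2) (.e (nat_lit 90176) (nat_lit 15) (.e (nat_lit 188449) (nat_lit 22) .nil))))) .nil))))))) (.nd (nat_lit 2) (.nd (nat_lit 3) (.nd (nat_lit 4) (.nd (nat_lit 5) (.nd (nat_lit 6) 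
(.lf (nat_lit 179203) (.g (nat_lit 2514) (.e (nat_lit 57713) (nat_lit 176) (.e (nat_lit 1140) (nat_lit 84) (.e (nat_lit 32787) (nat_lit 9) (.e (nat_lit 65598) (nat_lit 9) (.e (nat_lit 336028) (nat_lit 3) (.e (nat_lit 98325) (nat_lit 17) (.e (nat_lit 7936) (nat_lit 405) .nil))))))) (.g (nat_lit 6) .nil .nil))) 
(.lf (nat_lit 179267) (.g (nat_lit 1146) (.e (nat_lit 57714) (nat_lit 176) (.e (nat_lit 1347) (nat_lit 102) (.e (nat_lit 286735) (nat_lit 3) (.e (nat_lit 98369) (nat_lit 28) .nil)))) .nil))) (.nd (nat_lit 6) 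
(.lf (nat_lit 179235) (.g (nat_lit 3036) (.e (nat_lit 57713) (nat_lit 176) (.e (nat_lit 1348) (nat_lit 102) (.e (nat_lit 286735) (nat_lit 3) (.e (nat_lit 98370) (nat_lit 28) (.e (nat_lit 442422) (nat_lit 22) .nil))))) .nil)) 
(.lf (nat_lit 179299) (.g (nat_lit 1931) (.e (nat_lit 57714) (nat_lit 176) (.e (nat_lit 1349) (nat_lit 102) (.e (nat_lit 286735) (nat_lit 3) (.e (nat_lit 98355) (nat_lit 26) .nil)))) .nil)))) (.nd (nat_lit 5) (.nd (nat_lit 6) 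
(.lf (nat_lit 179219) (.g (nat_lit 1455) (.e (nat_lit 57713) (nat_lit 176) (.e (nat_lit 1348) (nat_lit 102) (.e (nat_lit 286733) (nat_lit 2) (.e (nat_lit 90178) (nat_lit 15) .nil)))) .nil)) 
(.lf (nat_lit 179283) (.g (nat_lit 3099) (.e (nat_lit 57714) (nat_lit 176) (.e (nat_lit 1348) (nat_lit 102) (.e (nat_lit 286735) (nat_lit 3) (.e (nat_lit 98370) (nat_lit 28) (.e (nat_lit 442422) (nat_lit 22) .nil))))) .nil))) (.nd (nat_lit 6) 
(.lf (nat_lit 179251) (.g (nat_lit 758) (.e (nat_lit 57713) (nat_lit 176) (.e (nat_lit 1348) (nat_lit 102) (.e (nat_lit 286748) (nat_lit 9) .nil))) .nil)) 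
(.lf (nat_lit 179315) (.g (nat_lit 2216) (.e (nat_lit 57714) (nat_lit 176) (.e (nat_lit 1359) (nat_lit 102) (.e (nat_lit 286734) (nat_lit 3) (.e (nat_lit 98359) (nat_lit 26) (.e (nat_lit 426212) (nat_lit 9) .nil))))) .nil))))) (.nd (nat_lit 4) (.nd (nat_lit 5) (.nd (nat_lit 6) 
(.lf (nat_lit 179211) (.g (nat_lit 408) (.e (nat_lit 57713) (nat_lit 176) (.e (nat_lit 1348) (nat_lit 102) (.e (nat_lit 286733) (nat_lit 2) .nil))) .nil)) 
(.lf (nat_lit 179275) (.g (nat_lit 3303) (.e (nat_lit 57714) (nat_lit 176) (.e (nat_lit 1348) (nat_lit 102) (.e (nat_lit 286735) (nat_lit 3) (.e (nat_lit 98356) (nat_lit 26) (.e (nat_lit 426241) (nat_lit 9) .nil))))) .nil))) (.nd (nat_lit 6) 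
(.lf (nat_lit 179243) (.g (nat_lit 3837) (.e (nat_lit 57713) (nat_lit 176) (.e (nat_lit 1348) (nat_lit 102) (.e (nat_lit 286735) (nat_lit 3) (.e (nat_lit 98373) (nat_lit 29) (.e (nat_lit 450575) (nat_lit 1) .nil))))) .nil)) 
(.lf (nat_lit 179307) (.g (nat_lit 1192) (.e (nat_lit 57714) (nat_lit 176) (.e (nat_lit 1349) (nat_lit 102) (.e (nat_lit 286735) (nat_lit 3) (.e (nat_lit 98367) (nat_lit 27) .nil)))) .nil)))) (.nd (nat_lit 5) (.nd (nat_lit 6) 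
(.lf (nat_lit 179227) (.g (nat_lit 3655) (.e (nat_lit 57713) (nat_lit 176) (.e (nat_lit 1348) (nat_lit 102) (.e (nat_lit 286735) (nat_lit 3) (.e (nat_lit 98356) (nat_lit 26) (.e (nat_lit 426270) (nat_lit 9) .nil))))) .nil)) 
(.lf (nat_lit 179291) (.g (nat_lit 436) (.e (nat_lit 57714) (nat_lit 176) (.e (nat_lit 1349) (nat_lit 102) (.e (nat_lit 286727) (nat_lit 0) .nil))) .nil))) (.nd (nat_lit 6) 
(.lf (nat_lit 179259) (.g (nat_lit 2552) (.e (nat_lit 57713) (nat_lit 176) (.e (nat_lit 1348) (nat_lit 102) (.e (nat_lit 286761) (nat_lit 13) (.e (nat_lit 393289) (nat_lit 25) (.e (nat_lit 458807) (nat_lit 40) .nil))))) .nil)) 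
(.lf (nat_lit 179323) (.g (nat_lit 2195) (.e (nat_lit 57715) (nat_lit 176) (.e (nat_lit 1348) (nat_lit 102) (.e (nat_lit 286733) (nat_lit 2) (.e (nat_lit 90169) (nat_lit 13) (.e (nat_lit 172097) (nat_lit 9) .nil))))) .nil)))))) (.nd (nat_lit 3) (.nd (nat_lit 4) (.nd (nat_lit 5) (.nd (nat_lit 6) 
(.lf (nat_lit 179207) (.g (nat_lit 2350) (.e (nat_lit 57713) (nat_lit 176) (.e (nat_lit 1141) (nat_lit 84) (.e (nat_lit 32787) (nat_lit 9) (.e (nat_lit 65604) (nat_lit 9) (.e (nat_lit 336028) (nat_lit 3) (.e (nat_lit 98325) (nat_lit 17) (.e (nat_lit 7936) (nat_lit 405) .nil))))))) (.g (nat_lit 6) .nil .nil))) 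
(.lf (nat_lit 179271) (.g (nat_lit 2172) (.e (nat_lit 57714) (nat_lit 176) (.e (nat_lit 1348) (nat_lit 102) (.e (nat_lit 286733) (nat_lit 2) (.e (nat_lit 90177) (nat_lit 15) (.e (nat_lit 188447) (nat_lit 22) .nil))))) .nil))) (.nd (nat_lit 6) 
(.lf (nat_lit 179239) (.g (nat_lit 3454) (.e (nat_lit 57713) (nat_lit 176) (.e (nat_lit 1348) (nat_lit 102) (.e (nat_lit 286735) (nat_lit 3) (.e (nat_lit 98372) (nat_lit 29) (.e (nat_lit 458496) (nat_lit 1) .nil))))) .nil)) 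
(.lf (nat_lit 179303) (.g (nat_lit 3341) (.e (nat_lit 57714) (nat_lit 176) (.e (nat_lit 1349) (nat_lit 102) (.e (nat_lit 286735) (nat_lit 3) (.e (nat_lit 98359) (nat_lit 26) (.e (nat_lit 426209) (nat_lit 9) .nil))))) .nil)))) (.nd (nat_lit 5) (.nd (nat_lit 6) 
(.lf (nat_lit 179223) (.g (nat_lit 2551) (.e (nat_lit 57713) (nat_lit 176) (.e (nat_lit 1348) (nat_lit 102) (.e (nat_lit 286735) (nat_lit 3) (.e (nat_lit 98353) (nat_lit 25) (.e (nat_lit 417813) (nat_lit 9) .nil))))) .nil)) 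
(.lf (nat_lit 179287) (.g (nat_lit 1603) (.e (nat_lit 57714) (nat_lit 176) (.e (nat_lit 1348) (nat_lit 102) (.e (nat_lit 286735) (nat_lit 3) (.e (nat_lit 98380) (nat_lit 31) .nil)))) .nil))) (.nd (nat_lit 6) 
(.lf (nat_lit 179255) (.g (nat_lit 1707) (.e (nat_lit 57713) (nat_lit 176) (.e (nat_lit 1348) (nat_lit 102) (.e (nat_lit 286761) (nat_lit 13) (.e (nat_lit 393282) (nat_lit 24) .nil)))) .nil)) 
(.lf (nat_lit 179319) (.g (nat_lit 1398) (.e (nat_lit 57714) (nat_lit 176) (.e (nat_lit 1368) (nat_lit 103) (.e (nat_lit 294931) (nat_lit 3) (.e (nat_lit 98370) (nat_lit 28) (.e (nat_lit 442424) (nat_lit 22) .nil))))) .nil))))) (.nd (nat_lit 4) (.nd (nat_lit 5) (.nd (nat_lit 6) 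
(.lf (nat_lit 179215) (.g (nat_lit 2903) (.e (nat_lit 57713) (nat_lit 176) (.e (nat_lit 1348) (nat_lit 102) (.e (nat_lit 286733) (nat_lit 2) (.e (nat_lit 90170) (nat_lit 13) (.e (nat_lit 172095) (nat_lit 9) .nil))))) .nil)) 
(.lf (nat_lit 179279) (.g (nat_lit 3603) (.e (nat_lit 57714) (nat_lit 176) (.e (nat_lit 1348) (nat_lit 102) (.e (nat_lit 286735) (nat_lit 3) (.e (nat_lit 98359) (nat_lit 26) (.e (nat_lit 426207) (nat_lit 9) .nil))))) .nil))) (.nd (nat_lit 6) 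
(.lf (nat_lit 179247) (.g (nat_lit 1705) (.e (nat_lit 57713) (nat_lit 176) (.e (nat_lit 1348) (nat_lit 102) (.e (nat_lit 286735) (nat_lit 3) (.e (nat_lit 98381) (nat_lit 31) .nil)))) .nil)) 
(.lf (nat_lit 179311) (.g (nat_lit 1781) (.e (nat_lit 57714) (nat_lit 176) (.e (nat_lit 1349) (nat_lit 102) (.e (nat_lit 286735) (nat_lit 3) (.e (nat_lit 98380) (nat_lit 31) .nil)))) .nil)))) (.nd (nat_lit 5) (.nd (nat_lit 6) 
(.lf (nat_lit 179231) (.g (nat_lit 3160) (.e (nat_lit 57713) (nat_lit 176) (.e (nat_lit 1348) (nat_lit 102) (.e (nat_lit 286735) (nat_lit 3) (.e (nat_lit 98365) (nat_lit 26) (.e (nat_lit 426185) (nat_lit 9) .nil))))) .nil)) 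
(.lf (nat_lit 179295) (.g (nat_lit 2325) (.e (nat_lit 57714) (nat_lit 176) (.e (nat_lit 1349) (nat_lit 102) (.e (nat_lit 286733) (nat_lit 2) (.e (nat_lit 90177) (nat_lit 15) (.e (nat_lit 188449) (nat_lit 22) .nil))))) .nil))) (.nd (nat_lit 6) 
(.lf (nat_lit 179263) (.g (nat_lit 460) (.e (nat_lit 57713) (nat_lit 176) (.e (nat_lit 1368) (nat_lit 103) (.e (nat_lit 294959) (nat_lit 13) .nil))) .nil)) 
(.lf (nat_lit 179327) (.g (nat_lit 2642) (.e (nat_lit 57715) (nat_lit 176) (.e (nat_lit 1348) (nat_lit 102) (.e (nat_lit 286733) (nat_lit 2) (.e (nat_lit 90178) (nat_lit 15) (.e (nat_lit 188447) (nat_lit 22) .nil))))) .nil)))))))))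

noncomputable def tv2407 : DT := (.nd (nat_lit 0) (.nd (nat_lit 1) (.nd (nat_lit 2) (.nd (nat_lit 3) (.nd (nat_lit 4) (.nd (nat_lit 5) (.nd (nat_lit 6) 
(.lf (nat_lit 179328) (.g (nat_lit 2659) (.e (nat_lit 57715) (nat_lit 176) (.e (nat_lit 1348) (nat_lit 102) (.e (nat_lit 286733) (nat_lit 2) (.e (nat_lit 90178) (nat_lit 15) (.e (nat_lit 188448) (nat_lit 22) .nil))))) .nil)) 
(.lf (nat_lit 179392) (.g (nat_lit 459) (.e (nat_lit 57718) (nat_lit 176) (.e (nat_lit 1368) (nat_lit 103) (.e (nat_lit 294957) (nat_lit 13) .nil))) .nil))) (.nd (nat_lit 6) 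
(.lf (nat_lit 179360) (.g (nat_lit 2152) (.e (nat_lit 57717) (nat_lit 176) (.e (nat_lit 1348) (nat_lit 102) (.e (nat_lit 286733) (nat_lit 2) (.e (nat_lit 90176) (nat_lit 15) (.e (nat_lit 188447) (nat_lit 22) .nil))))) .nil)) 
(.lf (nat_lit 179424) (.g (nat_lit 2060) (.e (nat_lit 65280) (nat_lit 176) (.e (nat_lit 1349) (nat_lit 102) (.e (nat_lit 286735) (nat_lit 3) (.e (nat_lit 98365) (nat_lit 26) (.e (nat_lit 426185) (nat_lit 9) .nil))))) .nil)))) (.nd (nat_lit 5) (.nd (nat_lit 6) 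
(.lf (nat_lit 179344) (.g (nat_lit 2446) (.e (nat_lit 57715) (nat_lit 176) (.e (nat_lit 1349) (nat_lit 102) (.e (nat_lit 286735) (nat_lit 3) (.e (nat_lit 98369) (nat_lit 28) (.e (nat_lit 442424) (nat_lit 22) .nil))))) .nil)) 
(.lf (nat_lit 179408) (.g (nat_lit 2635) (.e (nat_lit 65280) (nat_lit 176) (.e (nat_lit 1348) (nat_lit 102) (.e (nat_lit 286761) (nat_lit 13) (.e (nat_lit 393283) (nat_lit 24) (.e (nat_lit 434275) (nat_lit 39) .nil))))) .nil))) (.nd (nat_lit 6) 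
(.lf (nat_lit 179376) (.g (nat_lit 2956) (.e (nat_lit 57718) (nat_lit 176) (.e (nat_lit 1348) (nat_lit 102) (.e (nat_lit 286735) (nat_lit 3) (.e (nat_lit 98359) (nat_lit 26) (.e (nat_lit 426185) (nat_lit 9) .nil))))) .nil)) 
(.lf (nat_lit 179440) (.g (nat_lit 3099) (.e (nat_lit 57721) (nat_lit 177) (.e (nat_lit 57887) (nat_lit 270) (.e (nat_lit 1232) (nat_lit 91) (.e (nat_lit 90170) (nat_lit 13) (.e (nat_lit 172097) (nat_lit 9) (.e (nat_lit 426125) (nat_lit 2) (.e (nat_lit 196661) (nat_lit 12) .nil))))))) (.g (nat_lit 6) .nil .nil)))))) (.nd (nat_lit 4) (.nd (nat_lit 5) (.nd (nat_lit 6) 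
(.lf (nat_lit 179336) (.g (nat_lit 2545) (.e (nat_lit 57715) (nat_lit 176) (.e (nat_lit 1348) (nat_lit 102) (.e (nat_lit 286735) (nat_lit 3) (.e (nat_lit 98371) (nat_lit 28) (.e (nat_lit 442424) (nat_lit 22) .nil))))) .nil)) 
(.lf (nat_lit 179400) (.g (nat_lit 2902) (.e (nat_lit 65280) (nat_lit 176) (.e (nat_lit 1348) (nat_lit 102) (.e (nat_lit 286735) (nat_lit 3) (.e (nat_lit 98372) (nat_lit 29) (.e (nat_lit 458496) (nat_lit 1) .nil))))) .nil))) (.nd (nat_lit 6) 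
(.lf (nat_lit 179368) (.g (nat_lit 2043) (.e (nat_lit 57717) (nat_lit 176) (.e (nat_lit 1349) (nat_lit 102) (.e (nat_lit 286761) (nat_lit 13) (.e (nat_lit 393284) (nat_lit 24) .nil)))) .nil)) 
(.lf (nat_lit 179432) (.g (nat_lit 2357) (.e (nat_lit 65280) (nat_lit 176) (.e (nat_lit 1349) (nat_lit 102) (.e (nat_lit 286761) (nat_lit 13) (.e (nat_lit 393284) (nat_lit 24) (.e (nat_lit 434274) (nat_lit 39) .nil))))) .nil)))) (.nd (nat_lit 5) (.nd (nat_lit 6) 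
(.lf (nat_lit 179352) (.g (nat_lit 2930) (.e (nat_lit 57716) (nat_lit 176) (.e (nat_lit 1348) (nat_lit 102) (.e (nat_lit 286735) (nat_lit 3) (.e (nat_lit 98370) (nat_lit 28) (.e (nat_lit 442424) (nat_lit 22) .nil))))) .nil)) 
(.lf (nat_lit 179416) (.g (nat_lit 2755) (.e (nat_lit 65280) (nat_lit 176) (.e (nat_lit 1349) (nat_lit 102) (.e (nat_lit 286735) (nat_lit 3) (.e (nat_lit 98356) (nat_lit 26) (.e (nat_lit 426246) (nat_lit 9) .nil))))) .nil))) (.nd (nat_lit 6) 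
(.lf (nat_lit 179384) (.g (nat_lit 431) (.e (nat_lit 57718) (nat_lit 176) (.e (nat_lit 1349) (nat_lit 102) (.e (nat_lit 286735) (nat_lit 3) .nil))) .nil)) 
(.lf (nat_lit 179448) (.g (nat_lit 2627) (.e (nat_lit 57724) (nat_lit 181) (.e (nat_lit 1182) (nat_lit 87) (.e (nat_lit 57479) (nat_lit 28) (.e (nat_lit 557109) (nat_lit 15) (.e (nat_lit 196352) (nat_lit 18) .nil))))) .nil)))))) (.nd (nat_lit 3) (.nd (nat_lit 4) (.nd (nat_lit 5) (.nd (nat_lit 6) 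
(.lf (nat_lit 179332) (.g (nat_lit 2116) (.e (nat_lit 57715) (nat_lit 176) (.e (nat_lit 1348) (nat_lit 102) (.e (nat_lit 286735) (nat_lit 3) (.e (nat_lit 98365) (nat_lit 26) .nil)))) .nil)) 
(.lf (nat_lit 179396) (.g (nat_lit 2740) (.e (nat_lit 65280) (nat_lit 176) (.e (nat_lit 1348) (nat_lit 102) (.e (nat_lit 286735) (nat_lit 3) (.e (nat_lit 98369) (nat_lit 28) (.e (nat_lit 442422) (nat_lit 22) .nil))))) .nil))) (.nd (nat_lit 6) 
(.lf (nat_lit 179364) (.g (nat_lit 1985) (.e (nat_lit 57717) (nat_lit 176) (.e (nat_lit 1348) (nat_lit 102) (.e (nat_lit 286735) (nat_lit 3) (.e (nat_lit 98371) (nat_lit 28) .nil)))) .nil)) 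
(.lf (nat_lit 179428) (.g (nat_lit 2364) (.e (nat_lit 65280) (nat_lit 176) (.e (nat_lit 1349) (nat_lit 102) (.e (nat_lit 286735) (nat_lit 3) (.e (nat_lit 98381) (nat_lit 31) (.e (nat_lit 466977) (nat_lit 22) .nil))))) .nil)))) (.nd (nat_lit 5) (.nd (nat_lit 6) 
(.lf (nat_lit 179348) (.g (nat_lit 1771) (.e (nat_lit 57716) (nat_lit 176) (.e (nat_lit 1348) (nat_lit 102) (.e (nat_lit 286733) (nat_lit 2) (.e (nat_lit 90178) (nat_lit 15) .nil)))) .nil)) 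
(.lf (nat_lit 179412) (.g (nat_lit 1794) (.e (nat_lit 65280) (nat_lit 176) (.e (nat_lit 1349) (nat_lit 102) (.e (nat_lit 286733) (nat_lit 2) (.e (nat_lit 90169) (nat_lit 13) (.e (nat_lit 172094) (nat_lit 9) .nil))))) .nil))) (.nd (nat_lit 6) 
(.lf (nat_lit 179380) (.g (nat_lit 3764) (.e (nat_lit 57718) (nat_lit 176) (.e (nat_lit 1348) (nat_lit 102) (.e (nat_lit 286735) (nat_lit 3) (.e (nat_lit 98372) (nat_lit 29) (.e (nat_lit 458496) (nat_lit 1) .nil))))) .nil)) 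
(.lf (nat_lit 179444) (.g (nat_lit 437) (.e (nat_lit 57721) (nat_lit 177) (.e (nat_lit 57891) (nat_lit 270) (.e (nat_lit 1253) (nat_lit 92) .nil))) .nil))))) (.nd (nat_lit 4) (.nd (nat_lit 5) (.nd (nat_lit 6) 
(.lf (nat_lit 179340) (.g (nat_lit 2283) (.e (nat_lit 57715) (nat_lit 176) (.e (nat_lit 1349) (nat_lit 102) (.e (nat_lit 286733) (nat_lit 2) (.e (nat_lit 90178) (nat_lit 15) (.e (nat_lit 188447) (nat_lit 22) .nil))))) .nil)) 
(.lf (nat_lit 179404) (.g (nat_lit 2183) (.e (nat_lit 65280) (nat_lit 176) (.e (nat_lit 1348) (nat_lit 102) (.e (nat_lit 286735) (nat_lit 3) (.e (nat_lit 98382) (nat_lit 31) (.e (nat_lit 466976) (nat_lit 22) .nil))))) .nil))) (.nd (nat_lit 6) 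
(.lf (nat_lit 179372) (.g (nat_lit 3426) (.e (nat_lit 57718) (nat_lit 176) (.e (nat_lit 1141) (nat_lit 84) (.e (nat_lit 32787) (nat_lit 9) (.e (nat_lit 65610) (nat_lit 10) (.e (nat_lit 344117) (nat_lit 21) (.e (nat_lit 516106) (nat_lit 0) (.e (nat_lit 7936) (nat_lit 405) .nil))))))) (.g (nat_lit 6) .nil .nil))) 
(.lf (nat_lit 179436) (.g (nat_lit 578) (.e (nat_lit 57721) (nat_lit 177) (.e (nat_lit 57884) (nat_lit 270) (.e (nat_lit 1232) (nat_lit 91) .nil))) .nil)))) (.nd (nat_lit 5) (.nd (nat_lit 6) 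
(.lf (nat_lit 179356) (.g (nat_lit 2777) (.e (nat_lit 57716) (nat_lit 176) (.e (nat_lit 1348) (nat_lit 102) (.e (nat_lit 286735) (nat_lit 3) (.e (nat_lit 98374) (nat_lit 29) (.e (nat_lit 450575) (nat_lit 1) .nil))))) .nil)) 
(.lf (nat_lit 179420) (.g (nat_lit 3249) (.e (nat_lit 65280) (nat_lit 176) (.e (nat_lit 1349) (nat_lit 102) (.e (nat_lit 286735) (nat_lit 3) (.e (nat_lit 98359) (nat_lit 26) (.e (nat_lit 426209) (nat_lit 9) .nil))))) .nil))) (.nd (nat_lit 6) 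
(.lf (nat_lit 179388) (.g (nat_lit 1652) (.e (nat_lit 57718) (nat_lit 176) (.e (nat_lit 1349) (nat_lit 102) (.e (nat_lit 286735) (nat_lit 3) (.e (nat_lit 98371) (nat_lit 28) .nil)))) .nil)) 
(.lf (nat_lit 179452) (.g (nat_lit 2470) (.e (nat_lit 57724) (nat_lit 181) (.e (nat_lit 1199) (nat_lit 88) (.e (nat_lit 65586) (nat_lit 7) (.e (nat_lit 319533) (nat_lit 16) (.e (nat_lit 286753) (nat_lit 10) (.e (nat_lit 344168) (nat_lit 40) (.e (nat_lit 671751) (nat_lit 0) (.e (nat_lit 1182) (nat_lit 87) .nil)))))))) (.g (nat_lit 5) .nil .nil)))))))) 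
(.nd (nat_lit 2) (.nd (nat_lit 3) (.nd (nat_lit 4) (.nd (nat_lit 5) (.nd (nat_lit 6) 
(.lf (nat_lit 179330) (.g (nat_lit 1822) (.e (nat_lit 57715) (nat_lit 176) (.e (nat_lit 1348) (nat_lit 102) (.e (nat_lit 286735) (nat_lit 3) (.e (nat_lit 98350) (nat_lit 24) .nil)))) .nil)) 
(.lf (nat_lit 179394) (.g (nat_lit 2707) (.e (nat_lit 65280) (nat_lit 176) (.e (nat_lit 1348) (nat_lit 102) (.e (nat_lit 286735) (nat_lit 3) (.e (nat_lit 98359) (nat_lit 26) (.e (nat_lit 426211) (nat_lit 9) .nil))))) .nil))) (.nd (nat_lit 6) 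
(.lf (nat_lit 179362) (.g (nat_lit 812) (.e (nat_lit 57717) (nat_lit 176) (.e (nat_lit 1348) (nat_lit 102) (.e (nat_lit 286735) (nat_lit 3) .nil))) .nil)) 
(.lf (nat_lit 179426) (.g (nat_lit 2643) (.e (nat_lit 65280) (nat_lit 176) (.e (nat_lit 1349) (nat_lit 102) (.e (nat_lit 286735) (nat_lit 3) (.e (nat_lit 98372) (nat_lit 29) (.e (nat_lit 458496) (nat_lit 1) .nil))))) .nil)))) (.nd (nat_lit 5) (.nd (nat_lit 6) 
(.lf (nat_lit 179346) (.g (nat_lit 1499) (.e (nat_lit 57715) (nat_lit 176) (.e (nat_lit 1349) (nat_lit 102) (.e (nat_lit 286735) (nat_lit 3) (.e (nat_lit 98382) (nat_lit 31) .nil)))) .nil)) 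
(.lf (nat_lit 179410) (.g (nat_lit 362) (.e (nat_lit 65280) (nat_lit 176) (.e (nat_lit 1349) (nat_lit 102) (.e (nat_lit 286727) (nat_lit 0) .nil))) .nil))) (.nd (nat_lit 6) 
(.lf (nat_lit 179378) (.g (nat_lit 3149) (.e (nat_lit 57718) (nat_lit 176) (.e (nat_lit 1348) (nat_lit 102) (.e (nat_lit 286735) (nat_lit 3) (.e (nat_lit 98370) (nat_lit 28) (.e (nat_lit 442424) (nat_lit 22) .nil))))) .nil)) 
(.lf (nat_lit 179442) (.g (nat_lit 344) (.e (nat_lit 57721) (nat_lit 177) (.e (nat_lit 57887) (nat_lit 270) (.e (nat_lit 1250) (nat_lit 92) .nil))) .nil))))) (.nd (nat_lit 4) (.nd (nat_lit 5) (.nd (nat_lit 6) 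
(.lf (nat_lit 179338) (.g (nat_lit 3225) (.e (nat_lit 57715) (nat_lit 176) (.e (nat_lit 1349) (nat_lit 102) (.e (nat_lit 286733) (nat_lit 2) (.e (nat_lit 90170) (nat_lit 13) (.e (nat_lit 172095) (nat_lit 9) .nil))))) .nil)) 
(.lf (nat_lit 179402) (.g (nat_lit 1442) (.e (nat_lit 65280) (nat_lit 176) (.e (nat_lit 1348) (nat_lit 102) (.e (nat_lit 286735) (nat_lit 3) (.e (nat_lit 98381) (nat_lit 31) .nil)))) .nil))) (.nd (nat_lit 6) 
(.lf (nat_lit 179370) (.g (nat_lit 883) (.e (nat_lit 57717) (nat_lit 176) (.e (nat_lit 1368) (nat_lit 103) (.e (nat_lit 294958) (nat_lit 13) (.e (nat_lit 393283) (nat_lit 24) .nil)))) .nil)) 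
(.lf (nat_lit 179434) (.g (nat_lit 2568) (.e (nat_lit 65280) (nat_lit 176) (.e (nat_lit 1353) (nat_lit 102) (.e (nat_lit 286735) (nat_lit 3) (.e (nat_lit 98370) (nat_lit 28) (.e (nat_lit 442424) (nat_lit 22) .nil))))) .nil)))) (.nd (nat_lit 5) (.nd (nat_lit 6) 
(.lf (nat_lit 179354) (.g (nat_lit 3488) (.e (nat_lit 57716) (nat_lit 176) (.e (nat_lit 1348) (nat_lit 102) (.e (nat_lit 286735) (nat_lit 3) (.e (nat_lit 98373) (nat_lit 29) (.e (nat_lit 450570) (nat_lit 1) .nil))))) .nil)) 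
(.lf (nat_lit 179418) (.g (nat_lit 2808) (.e (nat_lit 65280) (nat_lit 176) (.e (nat_lit 1349) (nat_lit 102) (.e (nat_lit 286735) (nat_lit 3) (.e (nat_lit 98356) (nat_lit 26) (.e (nat_lit 426270) (nat_lit 9) .nil))))) .nil))) (.nd (nat_lit 6) 
(.lf (nat_lit 179386) (.g (nat_lit 2494) (.e (nat_lit 57718) (nat_lit 176) (.e (nat_lit 1349) (nat_lit 102) (.e (nat_lit 286735) (nat_lit 3) (.e (nat_lit 98359) (nat_lit 26) (.e (nat_lit 426208) (nat_lit 9) .nil))))) .nil)) 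
(.lf (nat_lit 179450) (.g (nat_lit 3306) (.e (nat_lit 57724) (nat_lit 181) (.e (nat_lit 1190) (nat_lit 88) (.e (nat_lit 65581) (nat_lit 7) (.e (nat_lit 319534) (nat_lit 16) (.e (nat_lit 286756) (nat_lit 10) (.e (nat_lit 344169) (nat_lit 40) (.e (nat_lit 671751) (nat_lit 0) (.e (nat_lit 1182) (nat_lit 87) .nil)))))))) (.g (nat_lit 6) .nil .nil))))))) 
(.nd (nat_lit 3) (.nd (nat_lit 4) (.nd (nat_lit 5) (.nd (nat_lit 6) 
(.lf (nat_lit 179334) (.g (nat_lit 3372) (.e (nat_lit 57715) (nat_lit 176) (.e (nat_lit 1348) (nat_lit 102) (.e (nat_lit 286735) (nat_lit 3) (.e (nat_lit 98369) (nat_lit 28) (.e (nat_lit 442424) (nat_lit 22) .nil))))) .nil)) 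
(.lf (nat_lit 179398) (.g (nat_lit 1346) (.e (nat_lit 65280) (nat_lit 176) (.e (nat_lit 1348) (nat_lit 102) (.e (nat_lit 286735) (nat_lit 3) (.e (nat_lit 98371) (nat_lit 28) .nil)))) .nil))) (.nd (nat_lit 6) 
(.lf (nat_lit 179366) (.g (nat_lit 2048) (.e (nat_lit 57717) (nat_lit 176) (.e (nat_lit 1348) (nat_lit 102) (.e (nat_lit 286735) (nat_lit 3) (.e (nat_lit 98374) (nat_lit 29) .nil)))) .nil)) 
(.lf (nat_lit 179430) (.g (nat_lit 1605) (.e (nat_lit 65280) (nat_lit 176) (.e (nat_lit 1349) (nat_lit 102) (.e (nat_lit 286761) (nat_lit 13) (.e (nat_lit 393282) (nat_lit 24) .nil)))) .nil)))) (.nd (nat_lit 5) (.nd (nat_lit 6) 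
(.lf (nat_lit 179350) (.g (nat_lit 1970) (.e (nat_lit 57716) (nat_lit 176) (.e (nat_lit 1348) (nat_lit 102) (.e (nat_lit 286735) (nat_lit 3) (.e (nat_lit 98354) (nat_lit 26) .nil)))) .nil)) 
(.lf (nat_lit 179414) (.g (nat_lit 2596) (.e (nat_lit 65280) (nat_lit 176) (.e (nat_lit 1349) (nat_lit 102) (.e (nat_lit 286733) (nat_lit 2) (.e (nat_lit 90176) (nat_lit 15) (.e (nat_lit 188449) (nat_lit 22) .nil))))) .nil))) (.nd (nat_lit 6) 
(.lf (nat_lit 179382) (.g (nat_lit 3364) (.e (nat_lit 57718) (nat_lit 176) (.e (nat_lit 1348) (nat_lit 102) (.e (nat_lit 286735) (nat_lit 3) (.e (nat_lit 98374) (nat_lit 29) (.e (nat_lit 458496) (nat_lit 1) .nil))))) .nil)) 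
(.lf (nat_lit 179446) (.g (nat_lit 2112) (.e (nat_lit 57721) (nat_lit 177) (.e (nat_lit 57900) (nat_lit 276) (.e (nat_lit 122936) (nat_lit 23) (.e (nat_lit 516176) (nat_lit 14) (.e (nat_lit 466976) (nat_lit 22) (.e (nat_lit 196661) (nat_lit 12) .nil)))))) (.g (nat_lit 0) .nil .nil)))))) (.nd (nat_lit 4) (.nd (nat_lit 5) (.nd (nat_lit 6) 
(.lf (nat_lit 179342) (.g (nat_lit 1418) (.e (nat_lit 57715) (nat_lit 176) (.e (nat_lit 1349) (nat_lit 102) (.e (nat_lit 286735) (nat_lit 3) (.e (nat_lit 98365) (nat_lit 26) .nil)))) .nil)) 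
(.lf (nat_lit 179406) (.g (nat_lit 2555) (.e (nat_lit 65280) (nat_lit 176) (.e (nat_lit 1348) (nat_lit 102) (.e (nat_lit 286761) (nat_lit 13) (.e (nat_lit 393282) (nat_lit 24) (.e (nat_lit 434276) (nat_lit 39) .nil))))) .nil))) (.nd (nat_lit 6) 
(.lf (nat_lit 179374) (.g (nat_lit 2648) (.e (nat_lit 57718) (nat_lit 176) (.e (nat_lit 1348) (nat_lit 102) (.e (nat_lit 286733) (nat_lit 2) (.e (nat_lit 90176) (nat_lit 15) (.e (nat_lit 188449) (nat_lit 22) .nil))))) .nil)) 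
(.lf (nat_lit 179438) (.g (nat_lit 1103) (.e (nat_lit 57721) (nat_lit 177) (.e (nat_lit 57884) (nat_lit 270) (.e (nat_lit 1250) (nat_lit 92) (.e (nat_lit 98372) (nat_lit 29) .nil)))) .nil)))) (.nd (nat_lit 5) (.nd (nat_lit 6) 
(.lf (nat_lit 179358) (.g (nat_lit 1014) (.e (nat_lit 57717) (nat_lit 176) (.e (nat_lit 1141) (nat_lit 84) (.e (nat_lit 32787) (nat_lit 9) (.e (nat_lit 65598) (nat_lit 9) (.e (nat_lit 336013) (nat_lit 2) .nil))))) .nil)) 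
(.lf (nat_lit 179422) (.g (nat_lit 3049) (.e (nat_lit 65280) (nat_lit 176) (.e (nat_lit 1349) (nat_lit 102) (.e (nat_lit 286735) (nat_lit 3) (.e (nat_lit 98359) (nat_lit 26) (.e (nat_lit 426215) (nat_lit 9) .nil))))) .nil))) (.nd (nat_lit 6) 
(.lf (nat_lit 179390) (.g (nat_lit 2660) (.e (nat_lit 57718) (nat_lit 176) (.e (nat_lit 1349) (nat_lit 102) (.e (nat_lit 286761) (nat_lit 13) (.e (nat_lit 393284) (nat_lit 24) (.e (nat_lit 434276) (nat_lit 39) .nil))))) .nil)) 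
(.lf (nat_lit 179454) (.g (nat_lit 988) (.e (nat_lit 57724) (nat_lit 181) (.e (nat_lit 1207) (nat_lit 89) (.e (nat_lit 73754) (nat_lit 8) (.e (nat_lit 557101) (nat_lit 13) .nil)))) .nil)))))))) (.nd (nat_lit 1) (.nd (nat_lit 2) (.nd (nat_lit 3) (.nd (nat_lit 4) (.nd (nat_lit 5) (.nd (nat_lit 6) 
(.lf (nat_lit 179329) (.g (nat_lit 812) (.e (nat_lit 57715) (nat_lit 176) (.e (nat_lit 1348) (nat_lit 102) (.e (nat_lit 286735) (nat_lit 3) .nil))) .nil)) 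
(.lf (nat_lit 179393) (.g (nat_lit 351) (.e (nat_lit 65280) (nat_lit 176) (.e (nat_lit 1348) (nat_lit 102) (.e (nat_lit 286735) (nat_lit 3) .nil))) .nil))) (.nd (nat_lit 6) 
(.lf (nat_lit 179361) (.g (nat_lit 1769) (.e (nat_lit 57717) (nat_lit 176) (.e (nat_lit 1348) (nat_lit 102) (.e (nat_lit 286733) (nat_lit 2) (.e (nat_lit 90178) (nat_lit 15) .nil)))) .nil)) 
(.lf (nat_lit 179425) (.g (nat_lit 1923) (.e (nat_lit 65280) (nat_lit 176) (.e (nat_lit 1349) (nat_lit 102) (.e (nat_lit 286735) (nat_lit 3) (.e (nat_lit 98371) (nat_lit 28) (.e (nat_lit 442422) (nat_lit 22) .nil))))) .nil)))) (.nd (nat_lit 5) (.nd (nat_lit 6) 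
(.lf (nat_lit 179345) (.g (nat_lit 1660) (.e (nat_lit 57715) (nat_lit 176) (.e (nat_lit 1349) (nat_lit 102) (.e (nat_lit 286735) (nat_lit 3) (.e (nat_lit 98371) (nat_lit 28) .nil)))) .nil)) 
(.lf (nat_lit 179409) (.g (nat_lit 2518) (.e (nat_lit 65280) (nat_lit 176) (.e (nat_lit 1348) (nat_lit 102) (.e (nat_lit 286761) (nat_lit 13) (.e (nat_lit 393284) (nat_lit 24) (.e (nat_lit 434274) (nat_lit 39) .nil))))) .nil))) (.nd (nat_lit 6) 
(.lf (nat_lit 179377) (.g (nat_lit 3344) (.e (nat_lit 57718) (nat_lit 176) (.e (nat_lit 1348) (nat_lit 102) (.e (nat_lit 286735) (nat_lit 3) (.e (nat_lit 98359) (nat_lit 26) (.e (nat_lit 426212) (nat_lit 9) .nil))))) .nil)) 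
(.lf (nat_lit 179441) (.g (nat_lit 2948) (.e (nat_lit 57721) (nat_lit 177) (.e (nat_lit 57887) (nat_lit 270) (.e (nat_lit 1232) (nat_lit 91) (.e (nat_lit 90176) (nat_lit 15) (.e (nat_lit 188447) (nat_lit 22) (.e (nat_lit 196661) (nat_lit 12) .nil)))))) (.g (nat_lit 6) .nil .nil)))))) (.nd (nat_lit 4) (.nd (nat_lit 5) (.nd (nat_lit 6) 
(.lf (nat_lit 179337) (.g (nat_lit 2583) (.e (nat_lit 57715) (nat_lit 176) (.e (nat_lit 1348) (nat_lit 102) (.e (nat_lit 286735) (nat_lit 3) (.e (nat_lit 98382) (nat_lit 31) (.e (nat_lit 466974) (nat_lit 22) .nil))))) .nil)) 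
(.lf (nat_lit 179401) (.g (nat_lit 2533) (.e (nat_lit 65280) (nat_lit 176) (.e (nat_lit 1348) (nat_lit 102) (.e (nat_lit 286735) (nat_lit 3) (.e (nat_lit 98374) (nat_lit 29) (.e (nat_lit 450575) (nat_lit 1) .nil))))) .nil))) (.nd (nat_lit 6) 
(.lf (nat_lit 179369) (.g (nat_lit 461) (.e (nat_lit 57717) (nat_lit 176) (.e (nat_lit 1368) (nat_lit 103) (.e (nat_lit 294957) (nat_lit 13) .nil))) .nil)) 
(.lf (nat_lit 179433) (.g (nat_lit 2225) (.e (nat_lit 65280) (nat_lit 176) (.e (nat_lit 1353) (nat_lit 102) (.e (nat_lit 286733) (nat_lit 2) (.e (nat_lit 90176) (nat_lit 15) (.e (nat_lit 188447) (nat_lit 22) .nil))))) .nil)))) (.nd (nat_lit 5) (.nd (nat_lit 6) 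
(.lf (nat_lit 179353) (.g (nat_lit 3972) (.e (nat_lit 57716) (nat_lit 176) (.e (nat_lit 1348) (nat_lit 102) (.e (nat_lit 286735) (nat_lit 3) (.e (nat_lit 98372) (nat_lit 29) (.e (nat_lit 450571) (nat_lit 1) .nil))))) .nil)) 
(.lf (nat_lit 179417) (.g (nat_lit 2813) (.e (nat_lit 65280) (nat_lit 176) (.e (nat_lit 1349) (nat_lit 102) (.e (nat_lit 286735) (nat_lit 3) (.e (nat_lit 98356) (nat_lit 26) (.e (nat_lit 426250) (nat_lit 9) .nil))))) .nil))) (.nd (nat_lit 6) 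
(.lf (nat_lit 179385) (.g (nat_lit 2527) (.e (nat_lit 57718) (nat_lit 176) (.e (nat_lit 1349) (nat_lit 102) (.e (nat_lit 286735) (nat_lit 3) (.e (nat_lit 98359) (nat_lit 26) (.e (nat_lit 426185) (nat_lit 9) .nil))))) .nil)) 
(.lf (nat_lit 179449) (.g (nat_lit 2542) (.e (nat_lit 57724) (nat_lit 181) (.e (nat_lit 1190) (nat_lit 88) (.e (nat_lit 65581) (nat_lit 7) (.e (nat_lit 319533) (nat_lit 16) (.e (nat_lit 286753) (nat_lit 10) (.e (nat_lit 344168) (nat_lit 40) (.e (nat_lit 671751) (nat_lit 0) (.e (nat_lit 1182) (nat_lit 87) .nil)))))))) (.g (nat_lit 6) .nil .nil))))))) 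
(.nd (nat_lit 3) (.nd (nat_lit 4) (.nd (nat_lit 5) (.nd (nat_lit 6) 
(.lf (nat_lit 179333) (.g (nat_lit 3373) (.e (nat_lit 57715) (nat_lit 176) (.e (nat_lit 1348) (nat_lit 102) (.e (nat_lit 286735) (nat_lit 3) (.e (nat_lit 98369) (nat_lit 28) (.e (nat_lit 442422) (nat_lit 22) .nil))))) .nil)) 
(.lf (nat_lit 179397) (.g (nat_lit 2739) (.e (nat_lit 65280) (nat_lit 176) (.e (nat_lit 1348) (nat_lit 102) (.e (nat_lit 286735) (nat_lit 3) (.e (nat_lit 98369) (nat_lit 28) (.e (nat_lit 442424) (nat_lit 22) .nil))))) .nil))) (.nd (nat_lit 6) 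
(.lf (nat_lit 179365) (.g (nat_lit 2278) (.e (nat_lit 57717) (nat_lit 176) (.e (nat_lit 1348) (nat_lit 102) (.e (nat_lit 286735) (nat_lit 3) (.e (nat_lit 98372) (nat_lit 29) .nil)))) .nil)) 
(.lf (nat_lit 179429) (.g (nat_lit 1854) (.e (nat_lit 65280) (nat_lit 176) (.e (nat_lit 1349) (nat_lit 102) (.e (nat_lit 286735) (nat_lit 3) (.e (nat_lit 98382) (nat_lit 31) (.e (nat_lit 466977) (nat_lit 22) .nil))))) .nil)))) (.nd (nat_lit 5) (.nd (nat_lit 6) 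
(.lf (nat_lit 179349) (.g (nat_lit 563) (.e (nat_lit 57716) (nat_lit 176) (.e (nat_lit 1348) (nat_lit 102) (.e (nat_lit 286735) (nat_lit 3) .nil))) .nil)) 
(.lf (nat_lit 179413) (.g (nat_lit 3390) (.e (nat_lit 65280) (nat_lit 176) (.e (nat_lit 1349) (nat_lit 102) (.e (nat_lit 286733) (nat_lit 2) (.e (nat_lit 90170) (nat_lit 13) (.e (nat_lit 172097) (nat_lit 9) .nil))))) .nil))) (.nd (nat_lit 6) 
(.lf (nat_lit 179381) (.g (nat_lit 2020) (.e (nat_lit 57718) (nat_lit 176) (.e (nat_lit 1348) (nat_lit 102) (.e (nat_lit 286735) (nat_lit 3) (.e (nat_lit 98374) (nat_lit 29) .nil)))) .nil)) 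
(.lf (nat_lit 179445) (.g (nat_lit 2191) (.e (nat_lit 57721) (nat_lit 177) (.e (nat_lit 57891) (nat_lit 270) (.e (nat_lit 1253) (nat_lit 92) (.e (nat_lit 98373) (nat_lit 29) (.e (nat_lit 458496) (nat_lit 1) .nil))))) .nil))))) (.nd (nat_lit 4) (.nd (nat_lit 5) (.nd (nat_lit 6) 
(.lf (nat_lit 179341) (.g (nat_lit 1630) (.e (nat_lit 57715) (nat_lit 176) (.e (nat_lit 1349) (nat_lit 102) (.e (nat_lit 286735) (nat_lit 3) (.e (nat_lit 98356) (nat_lit 26) .nil)))) .nil)) 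
(.lf (nat_lit 179405) (.g (nat_lit 2307) (.e (nat_lit 65280) (nat_lit 176) (.e (nat_lit 1348) (nat_lit 102) (.e (nat_lit 286735) (nat_lit 3) (.e (nat_lit 98382) (nat_lit 31) (.e (nat_lit 466977) (nat_lit 22) .nil))))) .nil))) (.nd (nat_lit 6) 
(.lf (nat_lit 179373) (.g (nat_lit 512) (.e (nat_lit 57718) (nat_lit 176) (.e (nat_lit 1141) (nat_lit 84) (.e (nat_lit 32787) (nat_lit 9) (.e (nat_lit 65616) (nat_lit 10) .nil)))) .nil)) 
(.lf (nat_lit 179437) (.g (nat_lit 2598) (.e (nat_lit 57721) (nat_lit 177) (.e (nat_lit 57884) (nat_lit 270) (.e (nat_lit 1232) (nat_lit 91) (.e (nat_lit 90170) (nat_lit 13) (.e (nat_lit 172097) (nat_lit 9) (.e (nat_lit 426125) (nat_lit 2) (.e (nat_lit 196661) (nat_lit 12) .nil))))))) (.g (nat_lit 4) .nil .nil))))) (.nd (nat_lit 5) (.nd (nat_lit 6) 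
(.lf (nat_lit 179357) (.g (nat_lit 2590) (.e (nat_lit 57716) (nat_lit 176) (.e (nat_lit 1348) (nat_lit 102) (.e (nat_lit 286735) (nat_lit 3) (.e (nat_lit 98382) (nat_lit 31) (.e (nat_lit 466977) (nat_lit 22) .nil))))) .nil)) 
(.lf (nat_lit 179421) (.g (nat_lit 2906) (.e (nat_lit 65280) (nat_lit 176) (.e (nat_lit 1349) (nat_lit 102) (.e (nat_lit 286735) (nat_lit 3) (.e (nat_lit 98359) (nat_lit 26) (.e (nat_lit 426214) (nat_lit 9) .nil))))) .nil))) (.nd (nat_lit 6) 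
(.lf (nat_lit 179389) (.g (nat_lit 1780) (.e (nat_lit 57718) (nat_lit 176) (.e (nat_lit 1349) (nat_lit 102) (.e (nat_lit 286735) (nat_lit 3) (.e (nat_lit 98372) (nat_lit 29) .nil)))) .nil)) 
(.lf (nat_lit 179453) (.g (nat_lit 2052) (.e (nat_lit 57724) (nat_lit 181) (.e (nat_lit 1200) (nat_lit 88) (.e (nat_lit 65582) (nat_lit 7) (.e (nat_lit 319534) (nat_lit 16) (.e (nat_lit 286756) (nat_lit 10) .nil))))) .nil))))))) (.nd (nat_lit 2) (.nd (nat_lit 3) (.nd (nat_lit 4) (.nd (nat_lit 5) (.nd (nat_lit 6) 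
(.lf (nat_lit 179331) (.g (nat_lit 3993) (.e (nat_lit 57715) (nat_lit 176) (.e (nat_lit 1348) (nat_lit 102) (.e (nat_lit 286735) (nat_lit 3) (.e (nat_lit 98356) (nat_lit 26) (.e (nat_lit 426270) (nat_lit 9) .nil))))) .nil)) 
(.lf (nat_lit 179395) (.g (nat_lit 1624) (.e (nat_lit 65280) (nat_lit 176) (.e (nat_lit 1348) (nat_lit 102) (.e (nat_lit 286735) (nat_lit 3) (.e (nat_lit 98362) (nat_lit 26) .nil)))) .nil))) (.nd (nat_lit 6) 
(.lf (nat_lit 179363) (.g (nat_lit 3178) (.e (nat_lit 57717) (nat_lit 176) (.e (nat_lit 1348) (nat_lit 102) (.e (nat_lit 286735) (nat_lit 3) (.e (nat_lit 98370) (nat_lit 28) (.e (nat_lit 442424) (nat_lit 22) .nil))))) .nil)) 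
(.lf (nat_lit 179427) (.g (nat_lit 1604) (.e (nat_lit 65280) (nat_lit 176) (.e (nat_lit 1349) (nat_lit 102) (.e (nat_lit 286735) (nat_lit 3) (.e (nat_lit 98380) (nat_lit 31) .nil)))) .nil)))) (.nd (nat_lit 5) (.nd (nat_lit 6) 
(.lf (nat_lit 179347) (.g (nat_lit 785) (.e (nat_lit 57716) (nat_lit 176) (.e (nat_lit 1348) (nat_lit 102) (.e (nat_lit 286733) (nat_lit 2) .nil))) .nil)) 
(.lf (nat_lit 179411) (.g (nat_lit 1416) (.e (nat_lit 65280) (nat_lit 176) (.e (nat_lit 1349) (nat_lit 102) (.e (nat_lit 286733) (nat_lit 2) (.e (nat_lit 90169) (nat_lit 13) .nil)))) .nil))) (.nd (nat_lit 6) 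
(.lf (nat_lit 179379) (.g (nat_lit 1957) (.e (nat_lit 57718) (nat_lit 176) (.e (nat_lit 1348) (nat_lit 102) (.e (nat_lit 286735) (nat_lit 3) (.e (nat_lit 98371) (nat_lit 28) .nil)))) .nil)) 
(.lf (nat_lit 179443) (.g (nat_lit 905) (.e (nat_lit 57721) (nat_lit 177) (.e (nat_lit 57887) (nat_lit 270) (.e (nat_lit 1250) (nat_lit 92) (.e (nat_lit 98371) (nat_lit 28) .nil)))) .nil))))) (.nd (nat_lit 4) (.nd (nat_lit 5) (.nd (nat_lit 6) 
(.lf (nat_lit 179339) (.g (nat_lit 3709) (.e (nat_lit 57715) (nat_lit 176) (.e (nat_lit 1349) (nat_lit 102) (.e (nat_lit 286733) (nat_lit 2) (.e (nat_lit 90170) (nat_lit 13) (.e (nat_lit 172097) (nat_lit 9) .nil))))) .nil)) 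
(.lf (nat_lit 179403) (.g (nat_lit 2033) (.e (nat_lit 65280) (nat_lit 176) (.e (nat_lit 1348) (nat_lit 102) (.e (nat_lit 286735) (nat_lit 3) (.e (nat_lit 98382) (nat_lit 31) (.e (nat_lit 466974) (nat_lit 22) .nil))))) .nil))) (.nd (nat_lit 6) 
(.lf (nat_lit 179371) (.g (nat_lit 3349) (.e (nat_lit 57718) (nat_lit 176) (.e (nat_lit 1140) (nat_lit 84) (.e (nat_lit 32787) (nat_lit 9) (.e (nat_lit 65610) (nat_lit 10) (.e (nat_lit 344117) (nat_lit 21) (.e (nat_lit 516106) (nat_lit 0) (.e (nat_lit 7936) (nat_lit 405) .nil))))))) (.g (nat_lit 6) .nil .nil))) 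
(.lf (nat_lit 179435) (.g (nat_lit 1240) (.e (nat_lit 65280) (nat_lit 176) (.e (nat_lit 1353) (nat_lit 102) (.e (nat_lit 286735) (nat_lit 3) (.e (nat_lit 98374) (nat_lit 29) .nil)))) .nil)))) (.nd (nat_lit 5) (.nd (nat_lit 6) 
(.lf (nat_lit 179355) (.g (nat_lit 3487) (.e (nat_lit 57716) (nat_lit 176) (.e (nat_lit 1348) (nat_lit 102) (.e (nat_lit 286735) (nat_lit 3) (.e (nat_lit 98373) (nat_lit 29) (.e (nat_lit 450573) (nat_lit 1) .nil))))) .nil)) 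
(.lf (nat_lit 179419) (.g (nat_lit 3070) (.e (nat_lit 65280) (nat_lit 176) (.e (nat_lit 1349) (nat_lit 102) (.e (nat_lit 286735) (nat_lit 3) (.e (nat_lit 98359) (nat_lit 26) (.e (nat_lit 426207) (nat_lit 9) .nil))))) .nil))) (.nd (nat_lit 6) 
(.lf (nat_lit 179387) (.g (nat_lit 2603) (.e (nat_lit 57718) (nat_lit 176) (.e (nat_lit 1349) (nat_lit 102) (.e (nat_lit 286735) (nat_lit 3) (.e (nat_lit 98359) (nat_lit 26) (.e (nat_lit 426212) (nat_lit 9) .nil))))) .nil)) 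
(.lf (nat_lit 179451) (.g (nat_lit 1855) (.e (nat_lit 57724) (nat_lit 181) (.e (nat_lit 1199) (nat_lit 88) (.e (nat_lit 65586) (nat_lit 7) (.e (nat_lit 319531) (nat_lit 16) (.e (nat_lit 286759) (nat_lit 12) (.e (nat_lit 385094) (nat_lit 49) (.e (nat_lit 778241) (nat_lit 0) (.e (nat_lit 1177) (nat_lit 87) .nil)))))))) (.g (nat_lit 4) .nil .nil))))))) 
(.nd (nat_lit 3) (.nd (nat_lit 4) (.nd (nat_lit 5) (.nd (nat_lit 6) 
(.lf (nat_lit 179335) (.g (nat_lit 1985) (.e (nat_lit 57715) (nat_lit 176) (.e (nat_lit 1348) (nat_lit 102) (.e (nat_lit 286735) (nat_lit 3) (.e (nat_lit 98371) (nat_lit 28) .nil)))) .nil)) 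
(.lf (nat_lit 179399) (.g (nat_lit 1952) (.e (nat_lit 65280) (nat_lit 176) (.e (nat_lit 1348) (nat_lit 102) (.e (nat_lit 286735) (nat_lit 3) (.e (nat_lit 98371) (nat_lit 28) (.e (nat_lit 442424) (nat_lit 22) .nil))))) .nil))) (.nd (nat_lit 6) 
(.lf (nat_lit 179367) (.g (nat_lit 1590) (.e (nat_lit 57717) (nat_lit 176) (.e (nat_lit 1349) (nat_lit 102) (.e (nat_lit 286735) (nat_lit 3) (.e (nat_lit 98359) (nat_lit 26) .nil)))) .nil)) 
(.lf (nat_lit 179431) (.g (nat_lit 1815) (.e (nat_lit 65280) (nat_lit 176) (.e (nat_lit 1349) (nat_lit 102) (.e (nat_lit 286761) (nat_lit 13) (.e (nat_lit 393283) (nat_lit 24) .nil)))) .nil)))) (.nd (nat_lit 5) (.nd (nat_lit 6) 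
(.lf (nat_lit 179351) (.g (nat_lit 1966) (.e (nat_lit 57716) (nat_lit 176) (.e (nat_lit 1348) (nat_lit 102) (.e (nat_lit 286735) (nat_lit 3) (.e (nat_lit 98362) (nat_lit 26) .nil)))) .nil)) 
(.lf (nat_lit 179415) (.g (nat_lit 2471) (.e (nat_lit 65280) (nat_lit 176) (.e (nat_lit 1349) (nat_lit 102) (.e (nat_lit 286733) (nat_lit 2) (.e (nat_lit 90177) (nat_lit 15) (.e (nat_lit 188449) (nat_lit 22) .nil))))) .nil))) (.nd (nat_lit 6) 
(.lf (nat_lit 179383) (.g (nat_lit 1853) (.e (nat_lit 57718) (nat_lit 176) (.e (nat_lit 1348) (nat_lit 102) (.e (nat_lit 286735) (nat_lit 3) (.e (nat_lit 98382) (nat_lit 31) .nil)))) .nil)) 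
(.lf (nat_lit 179447) (.g (nat_lit 2003) (.e (nat_lit 57724) (nat_lit 181) (.e (nat_lit 1181) (nat_lit 87) (.e (nat_lit 57479) (nat_lit 28) (.e (nat_lit 557109) (nat_lit 15) .nil)))) .nil))))) (.nd (nat_lit 4) (.nd (nat_lit 5) (.nd (nat_lit 6) 
(.lf (nat_lit 179343) (.g (nat_lit 1716) (.e (nat_lit 57715) (nat_lit 176) (.e (nat_lit 1349) (nat_lit 102) (.e (nat_lit 286735) (nat_lit 3) (.e (nat_lit 98369) (nat_lit 28) .nil)))) .nil)) 
(.lf (nat_lit 179407) (.g (nat_lit 1606) (.e (nat_lit 65280) (nat_lit 176) (.e (nat_lit 1348) (nat_lit 102) (.e (nat_lit 286761) (nat_lit 13) (.e (nat_lit 393283) (nat_lit 24) .nil)))) .nil))) (.nd (nat_lit 6) 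
(.lf (nat_lit 179375) (.g (nat_lit 2706) (.e (nat_lit 57718) (nat_lit 176) (.e (nat_lit 1348) (nat_lit 102) (.e (nat_lit 286733) (nat_lit 2) (.e (nat_lit 90178) (nat_lit 15) (.e (nat_lit 188449) (nat_lit 22) .nil))))) .nil)) 
(.lf (nat_lit 179439) (.g (nat_lit 2525) (.e (nat_lit 57721) (nat_lit 177) (.e (nat_lit 57887) (nat_lit 270) (.e (nat_lit 1225) (nat_lit 91) (.e (nat_lit 90176) (nat_lit 15) (.e (nat_lit 188447) (nat_lit 22) (.e (nat_lit 196661) (nat_lit 12) .nil)))))) (.g (nat_lit 6) .nil .nil))))) (.nd (nat_lit 5) (.nd (nat_lit 6) 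
(.lf (nat_lit 179359) (.g (nat_lit 1744) (.e (nat_lit 57717) (nat_lit 176) (.e (nat_lit 1348) (nat_lit 102) (.e (nat_lit 286733) (nat_lit 2) (.e (nat_lit 90169) (nat_lit 13) .nil)))) .nil)) 
(.lf (nat_lit 179423) (.g (nat_lit 3021) (.e (nat_lit 65280) (nat_lit 176) (.e (nat_lit 1349) (nat_lit 102) (.e (nat_lit 286735) (nat_lit 3) (.e (nat_lit 98359) (nat_lit 26) (.e (nat_lit 426219) (nat_lit 9) .nil))))) .nil))) (.nd (nat_lit 6) 
(.lf (nat_lit 179391) (.g (nat_lit 2918) (.e (nat_lit 57718) (nat_lit 176) (.e (nat_lit 1368) (nat_lit 103) (.e (nat_lit 294928) (nat_lit 2) (.e (nat_lit 90176) (nat_lit 15) (.e (nat_lit 188447) (nat_lit 22) (.e (nat_lit 196661) (nat_lit 12) .nil)))))) (.g (nat_lit 6) .nil .nil))) 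
(.lf (nat_lit 179455) (.g (nat_lit 2459) (.e (nat_lit 57724) (nat_lit 181) (.e (nat_lit 1209) (nat_lit 89) (.e (nat_lit 73753) (nat_lit 8) (.e (nat_lit 557098) (nat_lit 13) (.e (nat_lit 179968) (nat_lit 20) .nil))))) .nil)))))))))

noncomputable def tv2408 : DT := (.nd (nat_lit 0) (.nd (nat_lit 1) (.nd (nat_lit 2) (.nd (nat_lit 3) (.nd (nat_lit 4) (.nd (nat_lit 5) (.nd (nat_lit 6) 
(.lf (nat_lit 179456) (.g (nat_lit 3068) (.e (nat_lit 57724) (nat_lit 181) (.e (nat_lit 1209) (nat_lit 89) (.e (nat_lit 73753) (nat_lit 8) (.e (nat_lit 557100) (nat_lit 13) (.e (nat_lit 179968) (nat_lit 20) .nil))))) .nil)) 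
(.lf (nat_lit 179520) (.g (nat_lit 3036) (.e (nat_lit 57731) (nat_lit 181) (.e (nat_lit 1209) (nat_lit 89) (.e (nat_lit 73754) (nat_lit 8) (.e (nat_lit 557100) (nat_lit 13) (.e (nat_lit 179968) (nat_lit 20) .nil))))) .nil))) (.nd (nat_lit 6) 
(.lf (nat_lit 179488) (.g (nat_lit 1920) (.e (nat_lit 57730) (nat_lit 181) (.e (nat_lit 1086) (nat_lit 81) (.e (nat_lit 1661) (nat_lit 115) (.e (nat_lit 393251) (nat_lit 18) (.e (nat_lit 164189) (nat_lit 157) .nil))))) .nil)) 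
(.lf (nat_lit 179552) (.g (nat_lit 1627) (.e (nat_lit 57735) (nat_lit 183) (.e (nat_lit 57448) (nat_lit 19) (.e (nat_lit 393234) (nat_lit 17) (.e (nat_lit 3499) (nat_lit 218) .nil)))) .nil)))) (.nd (nat_lit 5) (.nd (nat_lit 6) 
(.lf (nat_lit 179472) (.g (nat_lit 2390) (.e (nat_lit 57728) (nat_lit 181) (.e (nat_lit 1196) (nat_lit 88) (.e (nat_lit 65586) (nat_lit 7) (.e (nat_lit 319531) (nat_lit 16) (.e (nat_lit 286752) (nat_lit 10) .nil))))) .nil)) 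
(.lf (nat_lit 179536) (.g (nat_lit 2289) (.e (nat_lit 57735) (nat_lit 183) (.e (nat_lit 57406) (nat_lit 12) (.e (nat_lit 336456) (nat_lit 34) (.e (nat_lit 483410) (nat_lit 27) .nil)))) .nil))) (.nd (nat_lit 6) 
(.lf (nat_lit 179504) (.g (nat_lit 2107) (.e (nat_lit 57730) (nat_lit 181) (.e (nat_lit 1209) (nat_lit 89) (.e (nat_lit 73754) (nat_lit 8) (.e (nat_lit 557101) (nat_lit 13) (.e (nat_lit 179968) (nat_lit 20) .nil))))) .nil)) 
(.lf (nat_lit 179568) (.g (nat_lit 2734) (.e (nat_lit 57740) (nat_lit 187) (.e (nat_lit 1659) (nat_lit 115) (.e (nat_lit 393301) (nat_lit 27) (.e (nat_lit 491559) (nat_lit 10) (.e (nat_lit 344090) (nat_lit 18) .nil))))) .nil))))) (.nd (nat_lit 4) (.nd (nat_lit 5) (.nd (nat_lit 6) 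
(.lf (nat_lit 179464) (.g (nat_lit 656) (.e (nat_lit 57724) (nat_lit 181) (.e (nat_lit 1296) (nat_lit 96) (.e (nat_lit 131093) (nat_lit 2) .nil))) .nil)) 
(.lf (nat_lit 179528) (.g (nat_lit 1060) (.e (nat_lit 57735) (nat_lit 183) (.e (nat_lit 57378) (nat_lit 3) (.e (nat_lit 98313) (nat_lit 9) .nil))) .nil))) (.nd (nat_lit 6) 
(.lf (nat_lit 179496) (.g (nat_lit 2472) (.e (nat_lit 57730) (nat_lit 181) (.e (nat_lit 1199) (nat_lit 88) (.e (nat_lit 65586) (nat_lit 7) (.e (nat_lit 319534) (nat_lit 16) (.e (nat_lit 286756) (nat_lit 10) .nil))))) .nil)) 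
(.lf (nat_lit 179560) (.g (nat_lit 549) (.e (nat_lit 57740) (nat_lit 187) (.e (nat_lit 1638) (nat_lit 114) (.e (nat_lit 385065) (nat_lit 26) .nil))) .nil)))) (.nd (nat_lit 5) (.nd (nat_lit 6) 
(.lf (nat_lit 179480) (.g (nat_lit 3068) (.e (nat_lit 57729) (nat_lit 181) (.e (nat_lit 1209) (nat_lit 89) (.e (nat_lit 73753) (nat_lit 8) (.e (nat_lit 557100) (nat_lit 13) (.e (nat_lit 179968) (nat_lit 20) .nil))))) .nil)) 
(.lf (nat_lit 179544) (.g (nat_lit 2007) (.e (nat_lit 57735) (nat_lit 183) (.e (nat_lit 57419) (nat_lit 12) (.e (nat_lit 336012) (nat_lit 2) (.e (nat_lit 90172) (nat_lit 14) (.e (nat_lit 188160) (nat_lit 33) .nil))))) .nil))) (.nd (nat_lit 6) 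
(.lf (nat_lit 179512) (.g (nat_lit 1419) (.e (nat_lit 57730) (nat_lit 181) (.e (nat_lit 1297) (nat_lit 96) (.e (nat_lit 131091) (nat_lit 2) (.e (nat_lit 90174) (nat_lit 14) (.e (nat_lit 188160) (nat_lit 33) .nil))))) .nil)) 
(.lf (nat_lit 179576) (.g (nat_lit 2039) (.e (nat_lit 57741) (nat_lit 187) (.e (nat_lit 1253) (nat_lit 92) (.e (nat_lit 98373) (nat_lit 29) (.e (nat_lit 450587) (nat_lit 10) (.e (nat_lit 573473) (nat_lit 12) .nil))))) .nil)))))) (.nd (nat_lit 3) (.nd (nat_lit 4) (.nd (nat_lit 5) (.nd (nat_lit 6) 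
(.lf (nat_lit 179460) (.g (nat_lit 1320) (.e (nat_lit 57724) (nat_lit 181) (.e (nat_lit 1211) (nat_lit 89) (.e (nat_lit 73755) (nat_lit 8) (.e (nat_lit 557096) (nat_lit 13) .nil)))) .nil)) 
(.lf (nat_lit 179524) (.g (nat_lit 1010) (.e (nat_lit 57735) (nat_lit 183) (.e (nat_lit 57377) (nat_lit 3) (.e (nat_lit 98313) (nat_lit 9) (.e (nat_lit 336223) (nat_lit 13) .nil)))) .nil))) (.nd (nat_lit 6) 
(.lf (nat_lit 179492) (.g (nat_lit 2419) (.e (nat_lit 57730) (nat_lit 181) (.e (nat_lit 1199) (nat_lit 88) (.e (nat_lit 65586) (nat_lit 7) (.e (nat_lit 319531) (nat_lit 16) (.e (nat_lit 286755) (nat_lit 10) .nil))))) .nil)) 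
(.lf (nat_lit 179556) (.g (nat_lit 1754) (.e (nat_lit 57738) (nat_lit 187) (.e (nat_lit 1253) (nat_lit 92) (.e (nat_lit 98373) (nat_lit 29) (.e (nat_lit 450587) (nat_lit 10) (.e (nat_lit 573475) (nat_lit 12) .nil))))) .nil)))) (.nd (nat_lit 5) (.nd (nat_lit 6) 
(.lf (nat_lit 179476) (.g (nat_lit 1667) (.e (nat_lit 57728) (nat_lit 181) (.e (nat_lit 1211) (nat_lit 89) (.e (nat_lit 73754) (nat_lit 8) (.e (nat_lit 557101) (nat_lit 13) (.e (nat_lit 179968) (nat_lit 20) .nil))))) .nil)) 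
(.lf (nat_lit 179540) (.g (nat_lit 726) (.e (nat_lit 57735) (nat_lit 183) (.e (nat_lit 57407) (nat_lit 12) (.e (nat_lit 336456) (nat_lit 34) .nil))) .nil))) (.nd (nat_lit 6) 
(.lf (nat_lit 179508) (.g (nat_lit 1667) (.e (nat_lit 57730) (nat_lit 181) (.e (nat_lit 1211) (nat_lit 89) (.e (nat_lit 73754) (nat_lit 8) (.e (nat_lit 557101) (nat_lit 13) (.e (nat_lit 179968) (nat_lit 20) .nil))))) .nil)) 
(.lf (nat_lit 179572) (.g (nat_lit 2990) (.e (nat_lit 57740) (nat_lit 187) (.e (nat_lit 1659) (nat_lit 115) (.e (nat_lit 393301) (nat_lit 27) (.e (nat_lit 491560) (nat_lit 10) (.e (nat_lit 344088) (nat_lit 18) (.e (nat_lit 7122) (nat_lit 382) (.e (nat_lit 1183) (nat_lit 87) .nil))))))) (.g (nat_lit 4) .nil .nil)))))) (.nd (nat_lit 4) (.nd (nat_lit 5) (.nd (nat_lit 6) 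
(.lf (nat_lit 179468) (.g (nat_lit 2527) (.e (nat_lit 57726) (nat_lit 181) (.e (nat_lit 1178) (nat_lit 87) (.e (nat_lit 57479) (nat_lit 28) (.e (nat_lit 557109) (nat_lit 15) (.e (nat_lit 196352) (nat_lit 18) .nil))))) .nil)) 
(.lf (nat_lit 179532) (.g (nat_lit 3869) (.e (nat_lit 57735) (nat_lit 183) (.e (nat_lit 57406) (nat_lit 12) (.e (nat_lit 336454) (nat_lit 34) (.e (nat_lit 483409) (nat_lit 27) .nil)))) .nil))) (.nd (nat_lit 6) 
(.lf (nat_lit 179500) (.g (nat_lit 2447) (.e (nat_lit 57730) (nat_lit 181) (.e (nat_lit 1209) (nat_lit 89) (.e (nat_lit 73753) (nat_lit 8) (.e (nat_lit 557098) (nat_lit 13) (.e (nat_lit 179968) (nat_lit 20) .nil))))) .nil)) 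
(.lf (nat_lit 179564) (.g (nat_lit 1814) (.e (nat_lit 57740) (nat_lit 187) (.e (nat_lit 1638) (nat_lit 114) (.e (nat_lit 385074) (nat_lit 31) (.e (nat_lit 573480) (nat_lit 13) .nil)))) .nil)))) (.nd (nat_lit 5) (.nd (nat_lit 6) 
(.lf (nat_lit 179484) (.g (nat_lit 2550) (.e (nat_lit 57729) (nat_lit 181) (.e (nat_lit 1211) (nat_lit 89) (.e (nat_lit 73755) (nat_lit 8) (.e (nat_lit 557098) (nat_lit 13) (.e (nat_lit 179968) (nat_lit 20) .nil))))) .nil)) 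
(.lf (nat_lit 179548) (.g (nat_lit 1753) (.e (nat_lit 57735) (nat_lit 183) (.e (nat_lit 57445) (nat_lit 19) (.e (nat_lit 393258) (nat_lit 20) (.e (nat_lit 253992) (nat_lit 11) (.e (nat_lit 16416) (nat_lit 3) .nil))))) .nil))) (.nd (nat_lit 6) 
(.lf (nat_lit 179516) (.g (nat_lit 3375) (.e (nat_lit 57731) (nat_lit 181) (.e (nat_lit 1200) (nat_lit 88) (.e (nat_lit 65581) (nat_lit 7) (.e (nat_lit 319533) (nat_lit 16) (.e (nat_lit 286753) (nat_lit 10) (.e (nat_lit 344169) (nat_lit 40) (.e (nat_lit 671751) (nat_lit 0) (.e (nat_lit 1182) (nat_lit 87) .nil)))))))) (.g (nat_lit 7) .nil .nil))) 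
(.lf (nat_lit 179580) (.g (nat_lit 2361) (.e (nat_lit 57741) (nat_lit 187) (.e (nat_lit 1658) (nat_lit 115) (.e (nat_lit 393301) (nat_lit 27) (.e (nat_lit 491559) (nat_lit 10) (.e (nat_lit 344090) (nat_lit 18) .nil))))) .nil))))))) (.nd (nat_lit 2) (.nd (nat_lit 3) (.nd (nat_lit 4) (.nd (nat_lit 5) (.nd (nat_lit 6) 
(.lf (nat_lit 179458) (.g (nat_lit 2200) (.e (nat_lit 57724) (nat_lit 181) (.e (nat_lit 1209) (nat_lit 89) (.e (nat_lit 73753) (nat_lit 8) (.e (nat_lit 557101) (nat_lit 13) (.e (nat_lit 179968) (nat_lit 20) .nil))))) .nil)) 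
(.lf (nat_lit 179522) (.g (nat_lit 1560) (.e (nat_lit 57731) (nat_lit 181) (.e (nat_lit 1211) (nat_lit 89) (.e (nat_lit 73754) (nat_lit 8) (.e (nat_lit 557095) (nat_lit 13) (.e (nat_lit 179968) (nat_lit 20) .nil))))) .nil))) (.nd (nat_lit 6) 
(.lf (nat_lit 179490) (.g (nat_lit 1784) (.e (nat_lit 57730) (nat_lit 181) (.e (nat_lit 1199) (nat_lit 88) (.e (nat_lit 65586) (nat_lit 7) (.e (nat_lit 319531) (nat_lit 16) (.e (nat_lit 286748) (nat_lit 9) .nil))))) .nil)) 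
(.lf (nat_lit 179554) (.g (nat_lit 2166) (.e (nat_lit 57735) (nat_lit 183) (.e (nat_lit 57448) (nat_lit 19) (.e (nat_lit 393251) (nat_lit 18) (.e (nat_lit 164190) (nat_lit 157) .nil)))) .nil)))) (.nd (nat_lit 5) (.nd (nat_lit 6) 
(.lf (nat_lit 179474) (.g (nat_lit 2641) (.e (nat_lit 57728) (nat_lit 181) (.e (nat_lit 1211) (nat_lit 89) (.e (nat_lit 73754) (nat_lit 8) (.e (nat_lit 557100) (nat_lit 13) (.e (nat_lit 179968) (nat_lit 20) .nil))))) .nil)) 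
(.lf (nat_lit 179538) (.g (nat_lit 2137) (.e (nat_lit 57735) (nat_lit 183) (.e (nat_lit 57406) (nat_lit 12) (.e (nat_lit 336456) (nat_lit 34) (.e (nat_lit 483413) (nat_lit 27) .nil)))) .nil))) (.nd (nat_lit 6) 
(.lf (nat_lit 179506) (.g (nat_lit 1320) (.e (nat_lit 57730) (nat_lit 181) (.e (nat_lit 1210) (nat_lit 89) (.e (nat_lit 73754) (nat_lit 8) (.e (nat_lit 557101) (nat_lit 13) (.e (nat_lit 179968) (nat_lit 20) .nil))))) .nil)) 
(.lf (nat_lit 179570) (.g (nat_lit 2688) (.e (nat_lit 57740) (nat_lit 187) (.e (nat_lit 1659) (nat_lit 115) (.e (nat_lit 393301) (nat_lit 27) (.e (nat_lit 491559) (nat_lit 10) (.e (nat_lit 344096) (nat_lit 18) .nil))))) .nil))))) (.nd (nat_lit 4) (.nd (nat_lit 5) (.nd (nat_lit 6) 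
(.lf (nat_lit 179466) (.g (nat_lit 1383) (.e (nat_lit 57726) (nat_lit 181) (.e (nat_lit 1170) (nat_lit 87) (.e (nat_lit 57479) (nat_lit 28) (.e (nat_lit 557107) (nat_lit 15) .nil)))) .nil)) 
(.lf (nat_lit 179530) (.g (nat_lit 2295) (.e (nat_lit 57735) (nat_lit 183) (.e (nat_lit 57379) (nat_lit 3) (.e (nat_lit 98313) (nat_lit 9) (.e (nat_lit 336223) (nat_lit 13) (.e (nat_lit 393234) (nat_lit 17) (.e (nat_lit 7936) (nat_lit 220) (.e (nat_lit 720931) (nat_lit 21) .nil))))))) (.g (nat_lit 5) .nil .nil)))) (.nd (nat_lit 6) 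
(.lf (nat_lit 179498) (.g (nat_lit 2386) (.e (nat_lit 57730) (nat_lit 181) (.e (nat_lit 1209) (nat_lit 89) (.e (nat_lit 73747) (nat_lit 3) (.e (nat_lit 516176) (nat_lit 14) (.e (nat_lit 474880) (nat_lit 0) .nil))))) .nil)) 
(.lf (nat_lit 179562) (.g (nat_lit 1915) (.e (nat_lit 57740) (nat_lit 187) (.e (nat_lit 1638) (nat_lit 114) (.e (nat_lit 385067) (nat_lit 26) (.e (nat_lit 532513) (nat_lit 3) (.e (nat_lit 114697) (nat_lit 11) .nil))))) .nil)))) (.nd (nat_lit 5) (.nd (nat_lit 6) 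
(.lf (nat_lit 179482) (.g (nat_lit 823) (.e (nat_lit 57729) (nat_lit 181) (.e (nat_lit 1210) (nat_lit 89) (.e (nat_lit 73755) (nat_lit 8) (.e (nat_lit 557097) (nat_lit 13) .nil)))) .nil)) 
(.lf (nat_lit 179546) (.g (nat_lit 4706) (.e (nat_lit 57735) (nat_lit 183) (.e (nat_lit 57445) (nat_lit 19) (.e (nat_lit 393229) (nat_lit 9) (.e (nat_lit 336229) (nat_lit 14) .nil)))) .nil))) (.nd (nat_lit 6) 
(.lf (nat_lit 179514) (.g (nat_lit 3364) (.e (nat_lit 57731) (nat_lit 181) (.e (nat_lit 1190) (nat_lit 88) (.e (nat_lit 65581) (nat_lit 7) (.e (nat_lit 319534) (nat_lit 16) (.e (nat_lit 286756) (nat_lit 10) (.e (nat_lit 344169) (nat_lit 40) (.e (nat_lit 671751) (nat_lit 0) (.e (nat_lit 1182) (nat_lit 87) .nil)))))))) (.g (nat_lit 6) .nil .nil))) 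
(.lf (nat_lit 179578) (.g (nat_lit 536) (.e (nat_lit 57741) (nat_lit 187) (.e (nat_lit 1638) (nat_lit 114) (.e (nat_lit 385067) (nat_lit 26) .nil))) .nil)))))) (.nd (nat_lit 3) (.nd (nat_lit 4) (.nd (nat_lit 5) (.nd (nat_lit 6) 
(.lf (nat_lit 179462) (.g (nat_lit 2006) (.e (nat_lit 57724) (nat_lit 181) (.e (nat_lit 1296) (nat_lit 96) (.e (nat_lit 131091) (nat_lit 2) (.e (nat_lit 90174) (nat_lit 14) (.e (nat_lit 188160) (nat_lit 33) .nil))))) .nil)) 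
(.lf (nat_lit 179526) (.g (nat_lit 3649) (.e (nat_lit 57735) (nat_lit 183) (.e (nat_lit 57377) (nat_lit 3) (.e (nat_lit 98317) (nat_lit 9) (.e (nat_lit 336088) (nat_lit 9) .nil)))) .nil))) (.nd (nat_lit 6) 
(.lf (nat_lit 179494) (.g (nat_lit 1774) (.e (nat_lit 57730) (nat_lit 181) (.e (nat_lit 1199) (nat_lit 88) (.e (nat_lit 65586) (nat_lit 7) (.e (nat_lit 319533) (nat_lit 16) (.e (nat_lit 286753) (nat_lit 10) (.e (nat_lit 344168) (nat_lit 40) (.e (nat_lit 671751) (nat_lit 0) (.e (nat_lit 1182) (nat_lit 87) .nil)))))))) (.g (nat_lit 4) .nil .nil))) 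
(.lf (nat_lit 179558) (.g (nat_lit 2861) (.e (nat_lit 57738) (nat_lit 187) (.e (nat_lit 1659) (nat_lit 115) (.e (nat_lit 393301) (nat_lit 27) (.e (nat_lit 491560) (nat_lit 10) (.e (nat_lit 344096) (nat_lit 18) .nil))))) .nil)))) (.nd (nat_lit 5) (.nd (nat_lit 6) 
(.lf (nat_lit 179478) (.g (nat_lit 2550) (.e (nat_lit 57728) (nat_lit 181) (.e (nat_lit 1211) (nat_lit 89) (.e (nat_lit 73755) (nat_lit 8) (.e (nat_lit 557098) (nat_lit 13) (.e (nat_lit 179968) (nat_lit 20) .nil))))) .nil)) 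
(.lf (nat_lit 179542) (.g (nat_lit 1677) (.e (nat_lit 57735) (nat_lit 183) (.e (nat_lit 57408) (nat_lit 12) (.e (nat_lit 336454) (nat_lit 34) (.e (nat_lit 483411) (nat_lit 27) .nil)))) .nil))) (.nd (nat_lit 6) 
(.lf (nat_lit 179510) (.g (nat_lit 2550) (.e (nat_lit 57730) (nat_lit 181) (.e (nat_lit 1211) (nat_lit 89) (.e (nat_lit 73755) (nat_lit 8) (.e (nat_lit 557098) (nat_lit 13) (.e (nat_lit 179968) (nat_lit 20) .nil))))) .nil)) 
(.lf (nat_lit 179574) (.g (nat_lit 2868) (.e (nat_lit 57740) (nat_lit 187) (.e (nat_lit 1659) (nat_lit 115) (.e (nat_lit 393301) (nat_lit 27) (.e (nat_lit 491560) (nat_lit 10) (.e (nat_lit 344177) (nat_lit 43) (.e (nat_lit 770067) (nat_lit 7) .nil)))))) (.g (nat_lit 6) .nil .nil)))))) (.nd (nat_lit 4) (.nd (nat_lit 5) (.nd (nat_lit 6) 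
(.lf (nat_lit 179470) (.g (nat_lit 4141) (.e (nat_lit 57726) (nat_lit 181) (.e (nat_lit 1196) (nat_lit 88) (.e (nat_lit 65583) (nat_lit 7) (.e (nat_lit 319530) (nat_lit 16) (.e (nat_lit 286759) (nat_lit 12) (.e (nat_lit 385106) (nat_lit 50) (.e (nat_lit 786452) (nat_lit 16) .nil))))))) (.g (nat_lit 6) .nil .nil))) 
(.lf (nat_lit 179534) (.g (nat_lit 3871) (.e (nat_lit 57735) (nat_lit 183) (.e (nat_lit 57406) (nat_lit 12) (.e (nat_lit 336454) (nat_lit 34) (.e (nat_lit 483411) (nat_lit 27) .nil)))) .nil))) (.nd (nat_lit 6) 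
(.lf (nat_lit 179502) (.g (nat_lit 2187) (.e (nat_lit 57730) (nat_lit 181) (.e (nat_lit 1209) (nat_lit 89) (.e (nat_lit 73753) (nat_lit 8) (.e (nat_lit 557101) (nat_lit 13) (.e (nat_lit 179968) (nat_lit 20) .nil))))) .nil)) 
(.lf (nat_lit 179566) (.g (nat_lit 1841) (.e (nat_lit 57740) (nat_lit 187) (.e (nat_lit 1658) (nat_lit 115) (.e (nat_lit 393301) (nat_lit 27) (.e (nat_lit 491558) (nat_lit 10) (.e (nat_lit 344091) (nat_lit 18) .nil))))) .nil)))) (.nd (nat_lit 5) (.nd (nat_lit 6) 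
(.lf (nat_lit 179486) (.g (nat_lit 708) (.e (nat_lit 57730) (nat_lit 181) (.e (nat_lit 1086) (nat_lit 81) (.e (nat_lit 1659) (nat_lit 115) (.e (nat_lit 393227) (nat_lit 9) .nil)))) .nil)) 
(.lf (nat_lit 179550) (.g (nat_lit 2200) (.e (nat_lit 57735) (nat_lit 183) (.e (nat_lit 57447) (nat_lit 19) (.e (nat_lit 393253) (nat_lit 18) (.e (nat_lit 164151) (nat_lit 152) .nil)))) .nil))) (.nd (nat_lit 6) 
(.lf (nat_lit 179518) (.g (nat_lit 2214) (.e (nat_lit 57731) (nat_lit 181) (.e (nat_lit 1209) (nat_lit 89) (.e (nat_lit 73753) (nat_lit 8) (.e (nat_lit 557096) (nat_lit 13) (.e (nat_lit 179968) (nat_lit 20) .nil))))) .nil)) 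
(.lf (nat_lit 179582) (.g (nat_lit 2784) (.e (nat_lit 57741) (nat_lit 187) (.e (nat_lit 1658) (nat_lit 115) (.e (nat_lit 393301) (nat_lit 27) (.e (nat_lit 491560) (nat_lit 10) (.e (nat_lit 344095) (nat_lit 18) .nil))))) .nil)))))))) (.nd (nat_lit 1) (.nd (nat_lit 2) (.nd (nat_lit 3) (.nd (nat_lit 4) (.nd (nat_lit 5) (.nd (nat_lit 6) 
(.lf (nat_lit 179457) (.g (nat_lit 3225) (.e (nat_lit 57724) (nat_lit 181) (.e (nat_lit 1209) (nat_lit 89) (.e (nat_lit 73753) (nat_lit 8) (.e (nat_lit 557100) (nat_lit 13) (.e (nat_lit 179968) (nat_lit 20) (.e (nat_lit 114711) (nat_lit 21) (.e (nat_lit 57847) (nat_lit 252) (.e (nat_lit 57365) (nat_lit 1) .nil)))))))) (.g (nat_lit 4) .nil .nil))) 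
(.lf (nat_lit 179521) (.g (nat_lit 2105) (.e (nat_lit 57731) (nat_lit 181) (.e (nat_lit 1209) (nat_lit 89) (.e (nat_lit 73754) (nat_lit 8) (.e (nat_lit 557101) (nat_lit 13) (.e (nat_lit 179968) (nat_lit 20) .nil))))) .nil))) (.nd (nat_lit 6) 
(.lf (nat_lit 179489) (.g (nat_lit 1686) (.e (nat_lit 57730) (nat_lit 181) (.e (nat_lit 1190) (nat_lit 88) (.e (nat_lit 65571) (nat_lit 3) (.e (nat_lit 98367) (nat_lit 27) .nil)))) .nil)) 
(.lf (nat_lit 179553) (.g (nat_lit 1661) (.e (nat_lit 57735) (nat_lit 183) (.e (nat_lit 57448) (nat_lit 19) (.e (nat_lit 393234) (nat_lit 17) (.e (nat_lit 3507) (nat_lit 218) .nil)))) .nil)))) (.nd (nat_lit 5) (.nd (nat_lit 6) 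
(.lf (nat_lit 179473) (.g (nat_lit 1885) (.e (nat_lit 57728) (nat_lit 181) (.e (nat_lit 1199) (nat_lit 88) (.e (nat_lit 65586) (nat_lit 7) (.e (nat_lit 319531) (nat_lit 16) (.e (nat_lit 286759) (nat_lit 12) .nil))))) .nil)) 
(.lf (nat_lit 179537) (.g (nat_lit 2289) (.e (nat_lit 57735) (nat_lit 183) (.e (nat_lit 57406) (nat_lit 12) (.e (nat_lit 336456) (nat_lit 34) (.e (nat_lit 483412) (nat_lit 27) .nil)))) .nil))) (.nd (nat_lit 6) 
(.lf (nat_lit 179505) (.g (nat_lit 2250) (.e (nat_lit 57730) (nat_lit 181) (.e (nat_lit 1210) (nat_lit 89) (.e (nat_lit 73754) (nat_lit 8) (.e (nat_lit 557100) (nat_lit 13) (.e (nat_lit 179968) (nat_lit 20) .nil))))) .nil)) 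
(.lf (nat_lit 179569) (.g (nat_lit 2919) (.e (nat_lit 57740) (nat_lit 187) (.e (nat_lit 1659) (nat_lit 115) (.e (nat_lit 393301) (nat_lit 27) (.e (nat_lit 491559) (nat_lit 10) (.e (nat_lit 344090) (nat_lit 18) (.e (nat_lit 7124) (nat_lit 382) (.e (nat_lit 1183) (nat_lit 87) .nil))))))) (.g (nat_lit 4) .nil .nil)))))) (.nd (nat_lit 4) (.nd (nat_lit 5) (.nd (nat_lit 6) 
(.lf (nat_lit 179465) (.g (nat_lit 1919) (.e (nat_lit 57724) (nat_lit 181) (.e (nat_lit 1296) (nat_lit 96) (.e (nat_lit 131094) (nat_lit 2) (.e (nat_lit 90174) (nat_lit 14) (.e (nat_lit 188160) (nat_lit 33) .nil))))) .nil)) 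
(.lf (nat_lit 179529) (.g (nat_lit 1368) (.e (nat_lit 57735) (nat_lit 183) (.e (nat_lit 57379) (nat_lit 3) (.e (nat_lit 98313) (nat_lit 9) (.e (nat_lit 336223) (nat_lit 13) .nil)))) .nil))) (.nd (nat_lit 6) 
(.lf (nat_lit 179497) (.g (nat_lit 642) (.e (nat_lit 57730) (nat_lit 181) (.e (nat_lit 1209) (nat_lit 89) (.e (nat_lit 73746) (nat_lit 3) .nil))) .nil)) 
(.lf (nat_lit 179561) (.g (nat_lit 1462) (.e (nat_lit 57740) (nat_lit 187) (.e (nat_lit 1638) (nat_lit 114) (.e (nat_lit 385067) (nat_lit 26) (.e (nat_lit 532510) (nat_lit 2) (.e (nat_lit 106534) (nat_lit 11) .nil))))) .nil)))) (.nd (nat_lit 5) (.nd (nat_lit 6) 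
(.lf (nat_lit 179481) (.g (nat_lit 2200) (.e (nat_lit 57729) (nat_lit 181) (.e (nat_lit 1209) (nat_lit 89) (.e (nat_lit 73753) (nat_lit 8) (.e (nat_lit 557101) (nat_lit 13) (.e (nat_lit 179968) (nat_lit 20) .nil))))) .nil)) 
(.lf (nat_lit 179545) (.g (nat_lit 656) (.e (nat_lit 57735) (nat_lit 183) (.e (nat_lit 57445) (nat_lit 19) (.e (nat_lit 393229) (nat_lit 9) .nil))) .nil))) (.nd (nat_lit 6) 
(.lf (nat_lit 179513) (.g (nat_lit 2600) (.e (nat_lit 57731) (nat_lit 181) (.e (nat_lit 1190) (nat_lit 88) (.e (nat_lit 65581) (nat_lit 7) (.e (nat_lit 319533) (nat_lit 16) (.e (nat_lit 286753) (nat_lit 10) (.e (nat_lit 344168) (nat_lit 40) (.e (nat_lit 671751) (nat_lit 0) (.e (nat_lit 1182) (nat_lit 87) .nil)))))))) (.g (nat_lit 6) .nil .nil))) 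
(.lf (nat_lit 179577) (.g (nat_lit 2941) (.e (nat_lit 57741) (nat_lit 187) (.e (nat_lit 1253) (nat_lit 92) (.e (nat_lit 98373) (nat_lit 29) (.e (nat_lit 450587) (nat_lit 10) (.e (nat_lit 573475) (nat_lit 12) (.e (nat_lit 57345) (nat_lit 0) (.e (nat_lit 7122) (nat_lit 382) (.e (nat_lit 1183) (nat_lit 87) .nil)))))))) (.g (nat_lit 5) .nil .nil))))))) 
(.nd (nat_lit 3) (.nd (nat_lit 4) (.nd (nat_lit 5) (.nd (nat_lit 6) 
(.lf (nat_lit 179461) (.g (nat_lit 2048) (.e (nat_lit 57724) (nat_lit 181) (.e (nat_lit 1296) (nat_lit 96) (.e (nat_lit 131091) (nat_lit 2) (.e (nat_lit 90172) (nat_lit 14) (.e (nat_lit 188160) (nat_lit 33) .nil))))) .nil)) 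
(.lf (nat_lit 179525) (.g (nat_lit 478) (.e (nat_lit 57735) (nat_lit 183) (.e (nat_lit 57377) (nat_lit 3) (.e (nat_lit 98317) (nat_lit 9) .nil))) .nil))) (.nd (nat_lit 6) 
(.lf (nat_lit 179493) (.g (nat_lit 2492) (.e (nat_lit 57730) (nat_lit 181) (.e (nat_lit 1199) (nat_lit 88) (.e (nat_lit 65586) (nat_lit 7) (.e (nat_lit 319531) (nat_lit 16) (.e (nat_lit 286755) (nat_lit 10) (.e (nat_lit 344169) (nat_lit 40) (.e (nat_lit 671751) (nat_lit 0) (.e (nat_lit 1182) (nat_lit 87) .nil)))))))) (.g (nat_lit 4) .nil .nil))) 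
(.lf (nat_lit 179557) (.g (nat_lit 2577) (.e (nat_lit 57738) (nat_lit 187) (.e (nat_lit 1659) (nat_lit 115) (.e (nat_lit 393301) (nat_lit 27) (.e (nat_lit 491560) (nat_lit 10) (.e (nat_lit 344090) (nat_lit 18) .nil))))) .nil)))) (.nd (nat_lit 5) (.nd (nat_lit 6) 
(.lf (nat_lit 179477) (.g (nat_lit 1318) (.e (nat_lit 57728) (nat_lit 181) (.e (nat_lit 1211) (nat_lit 89) (.e (nat_lit 73755) (nat_lit 8) (.e (nat_lit 557097) (nat_lit 13) .nil)))) .nil)) 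
(.lf (nat_lit 179541) (.g (nat_lit 2033) (.e (nat_lit 57735) (nat_lit 183) (.e (nat_lit 57407) (nat_lit 12) (.e (nat_lit 336456) (nat_lit 34) (.e (nat_lit 483413) (nat_lit 27) .nil)))) .nil))) (.nd (nat_lit 6) 
(.lf (nat_lit 179509) (.g (nat_lit 1920) (.e (nat_lit 57730) (nat_lit 181) (.e (nat_lit 1211) (nat_lit 89) (.e (nat_lit 73755) (nat_lit 8) (.e (nat_lit 557097) (nat_lit 13) (.e (nat_lit 179968) (nat_lit 20) .nil))))) .nil)) 
(.lf (nat_lit 179573) (.g (nat_lit 3984) (.e (nat_lit 57740) (nat_lit 187) (.e (nat_lit 1659) (nat_lit 115) (.e (nat_lit 393301) (nat_lit 27) (.e (nat_lit 491560) (nat_lit 10) (.e (nat_lit 344090) (nat_lit 18) (.e (nat_lit 7122) (nat_lit 382) (.e (nat_lit 1183) (nat_lit 87) .nil))))))) (.g (nat_lit 6) .nil .nil)))))) (.nd (nat_lit 4) (.nd (nat_lit 5) (.nd (nat_lit 6) 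
(.lf (nat_lit 179469) (.g (nat_lit 733) (.e (nat_lit 57726) (nat_lit 181) (.e (nat_lit 1180) (nat_lit 87) (.e (nat_lit 57480) (nat_lit 28) (.e (nat_lit 557108) (nat_lit 15) .nil)))) .nil)) 
(.lf (nat_lit 179533) (.g (nat_lit 3601) (.e (nat_lit 57735) (nat_lit 183) (.e (nat_lit 57406) (nat_lit 12) (.e (nat_lit 336454) (nat_lit 34) (.e (nat_lit 483410) (nat_lit 27) .nil)))) .nil))) (.nd (nat_lit 6) 
(.lf (nat_lit 179501) (.g (nat_lit 3150) (.e (nat_lit 57730) (nat_lit 181) (.e (nat_lit 1209) (nat_lit 89) (.e (nat_lit 73753) (nat_lit 8) (.e (nat_lit 557100) (nat_lit 13) (.e (nat_lit 179968) (nat_lit 20) (.e (nat_lit 114710) (nat_lit 21) (.e (nat_lit 57847) (nat_lit 252) (.e (nat_lit 57368) (nat_lit 1) .nil)))))))) (.g (nat_lit 4) .nil .nil))) 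
(.lf (nat_lit 179565) (.g (nat_lit 540) (.e (nat_lit 57740) (nat_lit 187) (.e (nat_lit 1638) (nat_lit 114) (.e (nat_lit 385102) (nat_lit 50) .nil))) .nil)))) (.nd (nat_lit 5) (.nd (nat_lit 6) 
(.lf (nat_lit 179485) (.g (nat_lit 571) (.e (nat_lit 57729) (nat_lit 181) (.e (nat_lit 1221) (nat_lit 90) (.e (nat_lit 81959) (nat_lit 24) .nil))) .nil)) 
(.lf (nat_lit 179549) (.g (nat_lit 1174) (.e (nat_lit 57735) (nat_lit 183) (.e (nat_lit 57447) (nat_lit 19) (.e (nat_lit 393238) (nat_lit 17) .nil))) .nil))) (.nd (nat_lit 6) 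
(.lf (nat_lit 179517) (.g (nat_lit 729) (.e (nat_lit 57731) (nat_lit 181) (.e (nat_lit 1209) (nat_lit 89) (.e (nat_lit 73753) (nat_lit 8) .nil))) .nil)) 
(.lf (nat_lit 179581) (.g (nat_lit 2321) (.e (nat_lit 57741) (nat_lit 187) (.e (nat_lit 1658) (nat_lit 115) (.e (nat_lit 393301) (nat_lit 27) (.e (nat_lit 491559) (nat_lit 10) (.e (nat_lit 344096) (nat_lit 18) .nil))))) .nil))))))) (.nd (nat_lit 2) (.nd (nat_lit 3) (.nd (nat_lit 4) (.nd (nat_lit 5) (.nd (nat_lit 6) 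
(.lf (nat_lit 179459) (.g (nat_lit 2270) (.e (nat_lit 57724) (nat_lit 181) (.e (nat_lit 1209) (nat_lit 89) (.e (nat_lit 73753) (nat_lit 8) (.e (nat_lit 557101) (nat_lit 13) (.e (nat_lit 179968) (nat_lit 20) (.e (nat_lit 114710) (nat_lit 21) (.e (nat_lit 57847) (nat_lit 252) (.e (nat_lit 57365) (nat_lit 1) .nil)))))))) (.g (nat_lit 4) .nil .nil))) 
(.lf (nat_lit 179523) (.g (nat_lit 1320) (.e (nat_lit 57731) (nat_lit 181) (.e (nat_lit 1211) (nat_lit 89) (.e (nat_lit 73755) (nat_lit 8) (.e (nat_lit 557096) (nat_lit 13) .nil)))) .nil))) (.nd (nat_lit 6) 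
(.lf (nat_lit 179491) (.g (nat_lit 2587) (.e (nat_lit 57730) (nat_lit 181) (.e (nat_lit 1199) (nat_lit 88) (.e (nat_lit 65586) (nat_lit 7) (.e (nat_lit 319531) (nat_lit 16) (.e (nat_lit 286753) (nat_lit 10) .nil))))) .nil)) 
(.lf (nat_lit 179555) (.g (nat_lit 2261) (.e (nat_lit 57735) (nat_lit 183) (.e (nat_lit 57448) (nat_lit 19) (.e (nat_lit 393253) (nat_lit 18) (.e (nat_lit 164189) (nat_lit 157) (.e (nat_lit 229409) (nat_lit 13) .nil))))) .nil)))) (.nd (nat_lit 5) (.nd (nat_lit 6) 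
(.lf (nat_lit 179475) (.g (nat_lit 2646) (.e (nat_lit 57728) (nat_lit 181) (.e (nat_lit 1211) (nat_lit 89) (.e (nat_lit 73754) (nat_lit 8) (.e (nat_lit 557100) (nat_lit 13) (.e (nat_lit 179968) (nat_lit 20) (.e (nat_lit 114711) (nat_lit 21) (.e (nat_lit 57847) (nat_lit 252) (.e (nat_lit 57365) (nat_lit 1) .nil)))))))) (.g (nat_lit 4) .nil .nil))) 
(.lf (nat_lit 179539) (.g (nat_lit 3480) (.e (nat_lit 57735) (nat_lit 183) (.e (nat_lit 57406) (nat_lit 12) (.e (nat_lit 336456) (nat_lit 34) (.e (nat_lit 483413) (nat_lit 27) (.e (nat_lit 401427) (nat_lit 3) .nil))))) .nil))) (.nd (nat_lit 6) 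
(.lf (nat_lit 179507) (.g (nat_lit 2641) (.e (nat_lit 57730) (nat_lit 181) (.e (nat_lit 1211) (nat_lit 89) (.e (nat_lit 73754) (nat_lit 8) (.e (nat_lit 557100) (nat_lit 13) (.e (nat_lit 179968) (nat_lit 20) .nil))))) .nil)) 
(.lf (nat_lit 179571) (.g (nat_lit 2838) (.e (nat_lit 57740) (nat_lit 187) (.e (nat_lit 1659) (nat_lit 115) (.e (nat_lit 393301) (nat_lit 27) (.e (nat_lit 491560) (nat_lit 10) (.e (nat_lit 344087) (nat_lit 18) .nil))))) .nil))))) (.nd (nat_lit 4) (.nd (nat_lit 5) (.nd (nat_lit 6) 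
(.lf (nat_lit 179467) (.g (nat_lit 2536) (.e (nat_lit 57726) (nat_lit 181) (.e (nat_lit 1170) (nat_lit 87) (.e (nat_lit 57479) (nat_lit 28) (.e (nat_lit 557109) (nat_lit 15) (.e (nat_lit 196352) (nat_lit 18) .nil))))) .nil)) 
(.lf (nat_lit 179531) (.g (nat_lit 787) (.e (nat_lit 57735) (nat_lit 183) (.e (nat_lit 57406) (nat_lit 12) (.e (nat_lit 336454) (nat_lit 34) .nil))) .nil))) (.nd (nat_lit 6) 
(.lf (nat_lit 179499) (.g (nat_lit 1363) (.e (nat_lit 57730) (nat_lit 181) (.e (nat_lit 1209) (nat_lit 89) (.e (nat_lit 73753) (nat_lit 8) (.e (nat_lit 557089) (nat_lit 12) .nil)))) .nil)) 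
(.lf (nat_lit 179563) (.g (nat_lit 524) (.e (nat_lit 57740) (nat_lit 187) (.e (nat_lit 1638) (nat_lit 114) (.e (nat_lit 385068) (nat_lit 26) .nil))) .nil)))) (.nd (nat_lit 5) (.nd (nat_lit 6) 
(.lf (nat_lit 179483) (.g (nat_lit 1920) (.e (nat_lit 57729) (nat_lit 181) (.e (nat_lit 1211) (nat_lit 89) (.e (nat_lit 73755) (nat_lit 8) (.e (nat_lit 557097) (nat_lit 13) (.e (nat_lit 179968) (nat_lit 20) .nil))))) .nil)) 
(.lf (nat_lit 179547) (.g (nat_lit 4709) (.e (nat_lit 57735) (nat_lit 183) (.e (nat_lit 57445) (nat_lit 19) (.e (nat_lit 393229) (nat_lit 9) (.e (nat_lit 336231) (nat_lit 14) .nil)))) .nil))) (.nd (nat_lit 6) 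
(.lf (nat_lit 179515) (.g (nat_lit 1966) (.e (nat_lit 57731) (nat_lit 181) (.e (nat_lit 1199) (nat_lit 88) (.e (nat_lit 65586) (nat_lit 7) (.e (nat_lit 319531) (nat_lit 16) (.e (nat_lit 286759) (nat_lit 12) (.e (nat_lit 385094) (nat_lit 49) (.e (nat_lit 778246) (nat_lit 0) (.e (nat_lit 1183) (nat_lit 87) .nil)))))))) (.g (nat_lit 4) .nil .nil))) 
(.lf (nat_lit 179579) (.g (nat_lit 527) (.e (nat_lit 57741) (nat_lit 187) (.e (nat_lit 1638) (nat_lit 114) (.e (nat_lit 385105) (nat_lit 50) .nil))) .nil)))))) (.nd (nat_lit 3) (.nd (nat_lit 4) (.nd (nat_lit 5) (.nd (nat_lit 6) 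
(.lf (nat_lit 179463) (.g (nat_lit 759) (.e (nat_lit 57724) (nat_lit 181) (.e (nat_lit 1296) (nat_lit 96) (.e (nat_lit 131092) (nat_lit 2) .nil))) .nil)) 
(.lf (nat_lit 179527) (.g (nat_lit 3834) (.e (nat_lit 57735) (nat_lit 183) (.e (nat_lit 57377) (nat_lit 3) (.e (nat_lit 98317) (nat_lit 9) (.e (nat_lit 336223) (nat_lit 13) .nil)))) .nil))) (.nd (nat_lit 6) 
(.lf (nat_lit 179495) (.g (nat_lit 2485) (.e (nat_lit 57730) (nat_lit 181) (.e (nat_lit 1199) (nat_lit 88) (.e (nat_lit 65586) (nat_lit 7) (.e (nat_lit 319534) (nat_lit 16) (.e (nat_lit 286752) (nat_lit 10) .nil))))) .nil)) 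
(.lf (nat_lit 179559) (.g (nat_lit 741) (.e (nat_lit 57740) (nat_lit 187) (.e (nat_lit 1427) (nat_lit 108) (.e (nat_lit 336324) (nat_lit 18) .nil))) .nil)))) (.nd (nat_lit 5) (.nd (nat_lit 6) 
(.lf (nat_lit 179479) (.g (nat_lit 2459) (.e (nat_lit 57729) (nat_lit 181) (.e (nat_lit 1209) (nat_lit 89) (.e (nat_lit 73753) (nat_lit 8) (.e (nat_lit 557098) (nat_lit 13) (.e (nat_lit 179968) (nat_lit 20) .nil))))) .nil)) 
(.lf (nat_lit 179543) (.g (nat_lit 953) (.e (nat_lit 57735) (nat_lit 183) (.e (nat_lit 57411) (nat_lit 12) (.e (nat_lit 336456) (nat_lit 34) .nil))) .nil))) (.nd (nat_lit 6) 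
(.lf (nat_lit 179511) (.g (nat_lit 1523) (.e (nat_lit 57730) (nat_lit 181) (.e (nat_lit 1294) (nat_lit 96) (.e (nat_lit 131091) (nat_lit 2) (.e (nat_lit 90172) (nat_lit 14) (.e (nat_lit 188160) (nat_lit 33) .nil))))) .nil)) 
(.lf (nat_lit 179575) (.g (nat_lit 659) (.e (nat_lit 57740) (nat_lit 187) (.e (nat_lit 1661) (nat_lit 115) (.e (nat_lit 393251) (nat_lit 18) .nil))) .nil))))) (.nd (nat_lit 4) (.nd (nat_lit 5) (.nd (nat_lit 6) 
(.lf (nat_lit 179471) (.g (nat_lit 1729) (.e (nat_lit 57728) (nat_lit 181) (.e (nat_lit 1196) (nat_lit 88) (.e (nat_lit 65583) (nat_lit 7) (.e (nat_lit 319530) (nat_lit 16) (.e (nat_lit 286755) (nat_lit 10) .nil))))) .nil)) 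
(.lf (nat_lit 179535) (.g (nat_lit 667) (.e (nat_lit 57735) (nat_lit 183) (.e (nat_lit 57406) (nat_lit 12) (.e (nat_lit 336456) (nat_lit 34) .nil))) .nil))) (.nd (nat_lit 6) 
(.lf (nat_lit 179503) (.g (nat_lit 3038) (.e (nat_lit 57730) (nat_lit 181) (.e (nat_lit 1209) (nat_lit 89) (.e (nat_lit 73754) (nat_lit 8) (.e (nat_lit 557100) (nat_lit 13) (.e (nat_lit 179968) (nat_lit 20) .nil))))) .nil)) 
(.lf (nat_lit 179567) (.g (nat_lit 2105) (.e (nat_lit 57740) (nat_lit 187) (.e (nat_lit 1658) (nat_lit 115) (.e (nat_lit 393301) (nat_lit 27) (.e (nat_lit 491559) (nat_lit 10) (.e (nat_lit 344177) (nat_lit 43) .nil))))) .nil)))) (.nd (nat_lit 5) (.nd (nat_lit 6) 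
(.lf (nat_lit 179487) (.g (nat_lit 1924) (.e (nat_lit 57730) (nat_lit 181) (.e (nat_lit 1086) (nat_lit 81) (.e (nat_lit 1661) (nat_lit 115) (.e (nat_lit 393251) (nat_lit 18) (.e (nat_lit 164151) (nat_lit 152) .nil))))) .nil)) 
(.lf (nat_lit 179551) (.g (nat_lit 1966) (.e (nat_lit 57735) (nat_lit 183) (.e (nat_lit 57447) (nat_lit 19) (.e (nat_lit 393253) (nat_lit 18) (.e (nat_lit 164189) (nat_lit 157) .nil)))) .nil))) (.nd (nat_lit 6) 
(.lf (nat_lit 179519) (.g (nat_lit 2711) (.e (nat_lit 57731) (nat_lit 181) (.e (nat_lit 1209) (nat_lit 89) (.e (nat_lit 73753) (nat_lit 8) (.e (nat_lit 557098) (nat_lit 13) (.e (nat_lit 179968) (nat_lit 20) (.e (nat_lit 114710) (nat_lit 21) (.e (nat_lit 57847) (nat_lit 252) (.e (nat_lit 57365) (nat_lit 1) .nil)))))))) (.g (nat_lit 4) .nil .nil))) 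
(.lf (nat_lit 179583) (.g (nat_lit 2454) (.e (nat_lit 57741) (nat_lit 187) (.e (nat_lit 1659) (nat_lit 115) (.e (nat_lit 393301) (nat_lit 27) (.e (nat_lit 491558) (nat_lit 10) (.e (nat_lit 344088) (nat_lit 18) .nil))))) .nil)))))))))

noncomputable def tv2409 : DT := (.nd (nat_lit 0) (.nd (nat_lit 1) (.nd (nat_lit 2) (.nd (nat_lit 3) (.nd (nat_lit 4) (.nd (nat_lit 5) (.nd (nat_lit 6) 
(.lf (nat_lit 179584) (.g (nat_lit 2141) (.e (nat_lit 57741) (nat_lit 187) (.e (nat_lit 1659) (nat_lit 115) (.e (nat_lit 393301) (nat_lit 27) (.e (nat_lit 491558) (nat_lit 10) (.e (nat_lit 344095) (nat_lit 18) .nil))))) .nil)) 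
(.lf (nat_lit 179648) (.g (nat_lit 3952) (.e (nat_lit 57750) (nat_lit 201) (.e (nat_lit 3067) (nat_lit 190) (.e (nat_lit 475185) (nat_lit 29) (.e (nat_lit 557100) (nat_lit 13) (.e (nat_lit 172097) (nat_lit 9) .nil))))) .nil))) (.nd (nat_lit 6) 
(.lf (nat_lit 179616) (.g (nat_lit 3660) (.e (nat_lit 65280) (nat_lit 187) (.e (nat_lit 1656) (nat_lit 115) (.e (nat_lit 393301) (nat_lit 27) (.e (nat_lit 491560) (nat_lit 10) (.e (nat_lit 344095) (nat_lit 18) .nil))))) .nil)) 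
(.lf (nat_lit 179680) (.g (nat_lit 3010) (.e (nat_lit 65280) (nat_lit 201) (.e (nat_lit 3073) (nat_lit 190) (.e (nat_lit 475185) (nat_lit 29) (.e (nat_lit 557107) (nat_lit 15) (.e (nat_lit 188447) (nat_lit 22) .nil))))) .nil)))) (.nd (nat_lit 5) (.nd (nat_lit 6) 
(.lf (nat_lit 179600) (.g (nat_lit 1693) (.e (nat_lit 65280) (nat_lit 187) (.e (nat_lit 1656) (nat_lit 115) (.e (nat_lit 393234) (nat_lit 17) (.e (nat_lit 7591) (nat_lit 407) (.e (nat_lit 73729) (nat_lit 0) .nil))))) .nil)) 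
(.lf (nat_lit 179664) (.g (nat_lit 2778) (.e (nat_lit 65280) (nat_lit 201) (.e (nat_lit 3060) (nat_lit 190) (.e (nat_lit 475185) (nat_lit 29) (.e (nat_lit 557098) (nat_lit 13) (.e (nat_lit 172097) (nat_lit 9) .nil))))) .nil))) (.nd (nat_lit 6) 
(.lf (nat_lit 179632) (.g (nat_lit 486) (.e (nat_lit 65280) (nat_lit 191) (.e (nat_lit 65568) (nat_lit 2) (.e (nat_lit 98048) (nat_lit 18) .nil))) .nil)) 
(.lf (nat_lit 179696) (.g (nat_lit 1414) (.e (nat_lit 65280) (nat_lit 206) (.e (nat_lit 180243) (nat_lit 5) (.e (nat_lit 532522) (nat_lit 7) (.e (nat_lit 319538) (nat_lit 19) .nil)))) .nil))))) (.nd (nat_lit 4) (.nd (nat_lit 5) (.nd (nat_lit 6) 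
(.lf (nat_lit 179592) (.g (nat_lit 1834) (.e (nat_lit 57741) (nat_lit 187) (.e (nat_lit 1661) (nat_lit 115) (.e (nat_lit 393260) (nat_lit 21) (.e (nat_lit 409648) (nat_lit 18) .nil)))) .nil)) 
(.lf (nat_lit 179656) (.g (nat_lit 1570) (.e (nat_lit 65280) (nat_lit 201) (.e (nat_lit 112) (nat_lit 3) (.e (nat_lit 98356) (nat_lit 26) (.e (nat_lit 426438) (nat_lit 18) (.e (nat_lit 98366) (nat_lit 27) .nil))))) .nil))) (.nd (nat_lit 6) 
(.lf (nat_lit 179624) (.g (nat_lit 1978) (.e (nat_lit 65280) (nat_lit 187) (.e (nat_lit 1661) (nat_lit 115) (.e (nat_lit 393260) (nat_lit 21) (.e (nat_lit 409648) (nat_lit 18) .nil)))) .nil)) 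
(.lf (nat_lit 179688) (.g (nat_lit 479) (.e (nat_lit 65280) (nat_lit 204) (.e (nat_lit 163979) (nat_lit 30) (.e (nat_lit 573475) (nat_lit 12) .nil))) .nil)))) (.nd (nat_lit 5) (.nd (nat_lit 6) 
(.lf (nat_lit 179608) (.g (nat_lit 4244) (.e (nat_lit 65280) (nat_lit 187) (.e (nat_lit 1656) (nat_lit 115) (.e (nat_lit 393301) (nat_lit 27) (.e (nat_lit 491559) (nat_lit 10) (.e (nat_lit 344091) (nat_lit 18) .nil))))) .nil)) 
(.lf (nat_lit 179672) (.g (nat_lit 1741) (.e (nat_lit 65280) (nat_lit 201) (.e (nat_lit 3065) (nat_lit 190) (.e (nat_lit 475185) (nat_lit 29) (.e (nat_lit 557098) (nat_lit 13) .nil)))) .nil))) (.nd (nat_lit 6) 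
(.lf (nat_lit 179640) (.g (nat_lit 1664) (.e (nat_lit 65280) (nat_lit 192) (.e (nat_lit 73747) (nat_lit 3) (.e (nat_lit 516139) (nat_lit 7) (.e (nat_lit 417536) (nat_lit 18) .nil)))) .nil)) 
(.lf (nat_lit 179704) (.g (nat_lit 1590) (.e (nat_lit 65280) (nat_lit 206) (.e (nat_lit 180244) (nat_lit 5) (.e (nat_lit 532482) (nat_lit 0) (.e (nat_lit 6722) (nat_lit 362) (.e (nat_lit 188160) (nat_lit 1) .nil))))) .nil)))))) (.nd (nat_lit 3) (.nd (nat_lit 4) (.nd (nat_lit 5) (.nd (nat_lit 6) 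
(.lf (nat_lit 179588) (.g (nat_lit 2814) (.e (nat_lit 57741) (nat_lit 187) (.e (nat_lit 1659) (nat_lit 115) (.e (nat_lit 393301) (nat_lit 27) (.e (nat_lit 491559) (nat_lit 10) (.e (nat_lit 344175) (nat_lit 43) .nil))))) .nil)) 
(.lf (nat_lit 179652) (.g (nat_lit 2843) (.e (nat_lit 57751) (nat_lit 201) (.e (nat_lit 3067) (nat_lit 190) (.e (nat_lit 475185) (nat_lit 29) (.e (nat_lit 557098) (nat_lit 13) (.e (nat_lit 172085) (nat_lit 9) .nil))))) .nil))) (.nd (nat_lit 6) 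
(.lf (nat_lit 179620) (.g (nat_lit 2689) (.e (nat_lit 65280) (nat_lit 187) (.e (nat_lit 1659) (nat_lit 115) (.e (nat_lit 393301) (nat_lit 27) (.e (nat_lit 491559) (nat_lit 10) (.e (nat_lit 344096) (nat_lit 18) .nil))))) .nil)) 
(.lf (nat_lit 179684) (.g (nat_lit 839) (.e (nat_lit 65280) (nat_lit 201) (.e (nat_lit 3098) (nat_lit 192) (.e (nat_lit 491540) (nat_lit 3) (.e (nat_lit 98372) (nat_lit 29) .nil)))) .nil)))) (.nd (nat_lit 5) (.nd (nat_lit 6) 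
(.lf (nat_lit 179604) (.g (nat_lit 2737) (.e (nat_lit 65280) (nat_lit 187) (.e (nat_lit 1656) (nat_lit 115) (.e (nat_lit 393301) (nat_lit 27) (.e (nat_lit 491558) (nat_lit 10) (.e (nat_lit 344091) (nat_lit 18) .nil))))) .nil)) 
(.lf (nat_lit 179668) (.g (nat_lit 2845) (.e (nat_lit 65280) (nat_lit 201) (.e (nat_lit 3063) (nat_lit 190) (.e (nat_lit 475185) (nat_lit 29) (.e (nat_lit 557107) (nat_lit 15) (.e (nat_lit 188447) (nat_lit 22) .nil))))) .nil))) (.nd (nat_lit 6) 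
(.lf (nat_lit 179636) (.g (nat_lit 1786) (.e (nat_lit 65280) (nat_lit 191) (.e (nat_lit 65653) (nat_lit 27) (.e (nat_lit 426011) (nat_lit 0) (.e (nat_lit 7591) (nat_lit 407) (.e (nat_lit 73731) (nat_lit 0) .nil))))) .nil)) 
(.lf (nat_lit 179700) (.g (nat_lit 2491) (.e (nat_lit 65280) (nat_lit 206) (.e (nat_lit 180244) (nat_lit 5) (.e (nat_lit 532481) (nat_lit 0) (.e (nat_lit 6722) (nat_lit 362) (.e (nat_lit 180234) (nat_lit 1) .nil))))) .nil))))) (.nd (nat_lit 4) (.nd (nat_lit 5) (.nd (nat_lit 6) 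
(.lf (nat_lit 179596) (.g (nat_lit 3218) (.e (nat_lit 65280) (nat_lit 187) (.e (nat_lit 1256) (nat_lit 92) (.e (nat_lit 98373) (nat_lit 29) (.e (nat_lit 450588) (nat_lit 10) (.e (nat_lit 573473) (nat_lit 12) .nil))))) .nil)) 
(.lf (nat_lit 179660) (.g (nat_lit 2808) (.e (nat_lit 65280) (nat_lit 201) (.e (nat_lit 2887) (nat_lit 184) (.e (nat_lit 426412) (nat_lit 15) (.e (nat_lit 1856) (nat_lit 124) (.e (nat_lit 557098) (nat_lit 13) .nil))))) .nil))) (.nd (nat_lit 6) 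
(.lf (nat_lit 179628) (.g (nat_lit 2619) (.e (nat_lit 65280) (nat_lit 187) (.e (nat_lit 1664) (nat_lit 115) (.e (nat_lit 393301) (nat_lit 27) (.e (nat_lit 491560) (nat_lit 10) (.e (nat_lit 344090) (nat_lit 18) .nil))))) .nil)) 
(.lf (nat_lit 179692) (.g (nat_lit 2556) (.e (nat_lit 65280) (nat_lit 206) (.e (nat_lit 180243) (nat_lit 5) (.e (nat_lit 532481) (nat_lit 0) (.e (nat_lit 6724) (nat_lit 362) (.e (nat_lit 180234) (nat_lit 1) .nil))))) .nil)))) (.nd (nat_lit 5) (.nd (nat_lit 6) 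
(.lf (nat_lit 179612) (.g (nat_lit 3697) (.e (nat_lit 65280) (nat_lit 187) (.e (nat_lit 1656) (nat_lit 115) (.e (nat_lit 393301) (nat_lit 27) (.e (nat_lit 491560) (nat_lit 10) (.e (nat_lit 344087) (nat_lit 18) .nil))))) .nil)) 
(.lf (nat_lit 179676) (.g (nat_lit 2301) (.e (nat_lit 65280) (nat_lit 201) (.e (nat_lit 3070) (nat_lit 190) (.e (nat_lit 475185) (nat_lit 29) (.e (nat_lit 557109) (nat_lit 15) (.e (nat_lit 188449) (nat_lit 22) .nil))))) .nil))) (.nd (nat_lit 6) 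
(.lf (nat_lit 179644) (.g (nat_lit 1376) (.e (nat_lit 57750) (nat_lit 201) (.e (nat_lit 2856) (nat_lit 184) (.e (nat_lit 426354) (nat_lit 15) (.e (nat_lit 1850) (nat_lit 124) .nil)))) .nil)) 
(.lf (nat_lit 179708) (.g (nat_lit 2955) (.e (nat_lit 65280) (nat_lit 206) (.e (nat_lit 180244) (nat_lit 5) (.e (nat_lit 532569) (nat_lit 16) (.e (nat_lit 401448) (nat_lit 10) (.e (nat_lit 434221) (nat_lit 19) .nil))))) .nil))))))) (.nd (nat_lit 2) (.nd (nat_lit 3) (.nd (nat_lit 4) (.nd (nat_lit 5) (.nd (nat_lit 6) 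
(.lf (nat_lit 179586) (.g (nat_lit 2800) (.e (nat_lit 57741) (nat_lit 187) (.e (nat_lit 1659) (nat_lit 115) (.e (nat_lit 393301) (nat_lit 27) (.e (nat_lit 491559) (nat_lit 10) (.e (nat_lit 344094) (nat_lit 18) .nil))))) .nil)) 
(.lf (nat_lit 179650) (.g (nat_lit 1667) (.e (nat_lit 57751) (nat_lit 201) (.e (nat_lit 3067) (nat_lit 190) (.e (nat_lit 475183) (nat_lit 29) (.e (nat_lit 557108) (nat_lit 15) (.e (nat_lit 188447) (nat_lit 22) .nil))))) .nil))) (.nd (nat_lit 6) 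
(.lf (nat_lit 179618) (.g (nat_lit 2988) (.e (nat_lit 65280) (nat_lit 187) (.e (nat_lit 1656) (nat_lit 115) (.e (nat_lit 393301) (nat_lit 27) (.e (nat_lit 491560) (nat_lit 10) (.e (nat_lit 344177) (nat_lit 43) .nil))))) .nil)) 
(.lf (nat_lit 179682) (.g (nat_lit 2556) (.e (nat_lit 65280) (nat_lit 201) (.e (nat_lit 3074) (nat_lit 190) (.e (nat_lit 475185) (nat_lit 29) (.e (nat_lit 557107) (nat_lit 15) (.e (nat_lit 188447) (nat_lit 22) .nil))))) .nil)))) (.nd (nat_lit 5) (.nd (nat_lit 6) 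
(.lf (nat_lit 179602) (.g (nat_lit 1646) (.e (nat_lit 65280) (nat_lit 187) (.e (nat_lit 1656) (nat_lit 115) (.e (nat_lit 393234) (nat_lit 17) (.e (nat_lit 7593) (nat_lit 407) (.e (nat_lit 73729) (nat_lit 0) .nil))))) .nil)) 
(.lf (nat_lit 179666) (.g (nat_lit 2644) (.e (nat_lit 65280) (nat_lit 201) (.e (nat_lit 3060) (nat_lit 190) (.e (nat_lit 475185) (nat_lit 29) (.e (nat_lit 557109) (nat_lit 15) (.e (nat_lit 188447) (nat_lit 22) .nil))))) .nil))) (.nd (nat_lit 6) 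
(.lf (nat_lit 179634) (.g (nat_lit 1983) (.e (nat_lit 65280) (nat_lit 191) (.e (nat_lit 65571) (nat_lit 3) (.e (nat_lit 98350) (nat_lit 24) (.e (nat_lit 417536) (nat_lit 18) .nil)))) .nil)) 
(.lf (nat_lit 179698) (.g (nat_lit 2468) (.e (nat_lit 65280) (nat_lit 206) (.e (nat_lit 180243) (nat_lit 5) (.e (nat_lit 532569) (nat_lit 16) (.e (nat_lit 401448) (nat_lit 10) (.e (nat_lit 442112) (nat_lit 19) .nil))))) .nil))))) (.nd (nat_lit 4) (.nd (nat_lit 5) (.nd (nat_lit 6) 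
(.lf (nat_lit 179594) (.g (nat_lit 3065) (.e (nat_lit 57741) (nat_lit 187) (.e (nat_lit 1661) (nat_lit 115) (.e (nat_lit 393260) (nat_lit 21) (.e (nat_lit 409649) (nat_lit 18) (.e (nat_lit 303107) (nat_lit 0) .nil))))) .nil)) 
(.lf (nat_lit 179658) (.g (nat_lit 1875) (.e (nat_lit 65280) (nat_lit 201) (.e (nat_lit 113) (nat_lit 3) (.e (nat_lit 98356) (nat_lit 26) (.e (nat_lit 426428) (nat_lit 17) (.e (nat_lit 90174) (nat_lit 14) .nil))))) .nil))) (.nd (nat_lit 6) 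
(.lf (nat_lit 179626) (.g (nat_lit 2896) (.e (nat_lit 65280) (nat_lit 187) (.e (nat_lit 1661) (nat_lit 115) (.e (nat_lit 393260) (nat_lit 21) (.e (nat_lit 409649) (nat_lit 18) (.e (nat_lit 303111) (nat_lit 0) .nil))))) .nil)) 
(.lf (nat_lit 179690) (.g (nat_lit 2238) (.e (nat_lit 65280) (nat_lit 206) (.e (nat_lit 180243) (nat_lit 5) (.e (nat_lit 532481) (nat_lit 0) (.e (nat_lit 6722) (nat_lit 362) (.e (nat_lit 180235) (nat_lit 1) .nil))))) .nil)))) (.nd (nat_lit 5) (.nd (nat_lit 6) 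
(.lf (nat_lit 179610) (.g (nat_lit 4270) (.e (nat_lit 65280) (nat_lit 187) (.e (nat_lit 1656) (nat_lit 115) (.e (nat_lit 393301) (nat_lit 27) (.e (nat_lit 491559) (nat_lit 10) (.e (nat_lit 344096) (nat_lit 18) .nil))))) .nil)) 
(.lf (nat_lit 179674) (.g (nat_lit 2924) (.e (nat_lit 65280) (nat_lit 201) (.e (nat_lit 3069) (nat_lit 190) (.e (nat_lit 475185) (nat_lit 29) (.e (nat_lit 557107) (nat_lit 15) (.e (nat_lit 188447) (nat_lit 22) .nil))))) .nil))) (.nd (nat_lit 6) 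
(.lf (nat_lit 179642) (.g (nat_lit 4124) (.e (nat_lit 57750) (nat_lit 201) (.e (nat_lit 2608) (nat_lit 163) (.e (nat_lit 164403) (nat_lit 256) (.e (nat_lit 57447) (nat_lit 19) (.e (nat_lit 393260) (nat_lit 21) (.e (nat_lit 409616) (nat_lit 10) (.e (nat_lit 632) (nat_lit 50) (.e (nat_lit 573477) (nat_lit 12) .nil)))))))) (.g (nat_lit 5) .nil .nil))) 
(.lf (nat_lit 179706) (.g (nat_lit 1993) (.e (nat_lit 65280) (nat_lit 206) (.e (nat_lit 180244) (nat_lit 5) (.e (nat_lit 532490) (nat_lit 0) (.e (nat_lit 6114) (nat_lit 332) .nil)))) .nil)))))) (.nd (nat_lit 3) (.nd (nat_lit 4) (.nd (nat_lit 5) (.nd (nat_lit 6) 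
(.lf (nat_lit 179590) (.g (nat_lit 4568) (.e (nat_lit 57741) (nat_lit 187) (.e (nat_lit 1659) (nat_lit 115) (.e (nat_lit 393301) (nat_lit 27) (.e (nat_lit 491560) (nat_lit 10) (.e (nat_lit 344094) (nat_lit 18) (.e (nat_lit 7125) (nat_lit 382) (.e (nat_lit 1183) (nat_lit 87) .nil))))))) (.g (nat_lit 7) .nil .nil))) 
(.lf (nat_lit 179654) (.g (nat_lit 3020) (.e (nat_lit 57751) (nat_lit 201) (.e (nat_lit 3067) (nat_lit 190) (.e (nat_lit 475185) (nat_lit 29) (.e (nat_lit 557098) (nat_lit 13) (.e (nat_lit 172096) (nat_lit 9) .nil))))) .nil))) (.nd (nat_lit 6) 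
(.lf (nat_lit 179622) (.g (nat_lit 3056) (.e (nat_lit 65280) (nat_lit 187) (.e (nat_lit 1659) (nat_lit 115) (.e (nat_lit 393301) (nat_lit 27) (.e (nat_lit 491560) (nat_lit 10) (.e (nat_lit 344088) (nat_lit 18) .nil))))) .nil)) 
(.lf (nat_lit 179686) (.g (nat_lit 2434) (.e (nat_lit 65280) (nat_lit 202) (.e (nat_lit 8320) (nat_lit 64) (.e (nat_lit 516146) (nat_lit 9) (.e (nat_lit 426428) (nat_lit 17) (.e (nat_lit 90172) (nat_lit 14) .nil))))) .nil)))) (.nd (nat_lit 5) (.nd (nat_lit 6) 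
(.lf (nat_lit 179606) (.g (nat_lit 2785) (.e (nat_lit 65280) (nat_lit 187) (.e (nat_lit 1656) (nat_lit 115) (.e (nat_lit 393301) (nat_lit 27) (.e (nat_lit 491558) (nat_lit 10) (.e (nat_lit 344096) (nat_lit 18) .nil))))) .nil)) 
(.lf (nat_lit 179670) (.g (nat_lit 1934) (.e (nat_lit 65280) (nat_lit 201) (.e (nat_lit 3064) (nat_lit 190) (.e (nat_lit 475185) (nat_lit 29) (.e (nat_lit 557107) (nat_lit 15) (.e (nat_lit 188447) (nat_lit 22) .nil))))) .nil))) (.nd (nat_lit 6) 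
(.lf (nat_lit 179638) (.g (nat_lit 1202) (.e (nat_lit 65280) (nat_lit 191) (.e (nat_lit 65653) (nat_lit 27) (.e (nat_lit 426343) (nat_lit 14) (.e (nat_lit 491560) (nat_lit 10) (.e (nat_lit 344096) (nat_lit 18) .nil))))) .nil)) 
(.lf (nat_lit 179702) (.g (nat_lit 2491) (.e (nat_lit 65280) (nat_lit 206) (.e (nat_lit 180244) (nat_lit 5) (.e (nat_lit 532481) (nat_lit 0) (.e (nat_lit 6722) (nat_lit 362) (.e (nat_lit 180236) (nat_lit 1) .nil))))) .nil))))) (.nd (nat_lit 4) (.nd (nat_lit 5) (.nd (nat_lit 6) 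
(.lf (nat_lit 179598) (.g (nat_lit 1687) (.e (nat_lit 65280) (nat_lit 187) (.e (nat_lit 1633) (nat_lit 114) (.e (nat_lit 385106) (nat_lit 50) (.e (nat_lit 786481) (nat_lit 30) (.e (nat_lit 368384) (nat_lit 17) .nil))))) .nil)) 
(.lf (nat_lit 179662) (.g (nat_lit 2301) (.e (nat_lit 65280) (nat_lit 201) (.e (nat_lit 3058) (nat_lit 190) (.e (nat_lit 475185) (nat_lit 29) (.e (nat_lit 557109) (nat_lit 15) (.e (nat_lit 188449) (nat_lit 22) .nil))))) .nil))) (.nd (nat_lit 6) 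
(.lf (nat_lit 179630) (.g (nat_lit 1310) (.e (nat_lit 65280) (nat_lit 189) (.e (nat_lit 16470) (nat_lit 14) (.e (nat_lit 491571) (nat_lit 13) (.e (nat_lit 393231) (nat_lit 17) .nil)))) .nil)) 
(.lf (nat_lit 179694) (.g (nat_lit 1571) (.e (nat_lit 65280) (nat_lit 206) (.e (nat_lit 180243) (nat_lit 5) (.e (nat_lit 532482) (nat_lit 0) (.e (nat_lit 6722) (nat_lit 362) (.e (nat_lit 180234) (nat_lit 1) .nil))))) .nil)))) (.nd (nat_lit 5) (.nd (nat_lit 6) 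
(.lf (nat_lit 179614) (.g (nat_lit 3087) (.e (nat_lit 65280) (nat_lit 187) (.e (nat_lit 1656) (nat_lit 115) (.e (nat_lit 393301) (nat_lit 27) (.e (nat_lit 491560) (nat_lit 10) (.e (nat_lit 344091) (nat_lit 18) .nil))))) .nil)) 
(.lf (nat_lit 179678) (.g (nat_lit 3031) (.e (nat_lit 65280) (nat_lit 201) (.e (nat_lit 3072) (nat_lit 190) (.e (nat_lit 475185) (nat_lit 29) (.e (nat_lit 557107) (nat_lit 15) (.e (nat_lit 188447) (nat_lit 22) .nil))))) .nil))) (.nd (nat_lit 6) 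
(.lf (nat_lit 179646) (.g (nat_lit 1585) (.e (nat_lit 57750) (nat_lit 201) (.e (nat_lit 3067) (nat_lit 190) (.e (nat_lit 475185) (nat_lit 29) (.e (nat_lit 557096) (nat_lit 13) .nil)))) .nil)) 
(.lf (nat_lit 179710) (.g (nat_lit 1170) (.e (nat_lit 65280) (nat_lit 206) (.e (nat_lit 180250) (nat_lit 10) (.e (nat_lit 573471) (nat_lit 11) (.e (nat_lit 16452) (nat_lit 11) .nil)))) .nil)))))))) (.nd (nat_lit 1) (.nd (nat_lit 2) (.nd (nat_lit 3) (.nd (nat_lit 4) (.nd (nat_lit 5) (.nd (nat_lit 6) 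
(.lf (nat_lit 179585) (.g (nat_lit 2944) (.e (nat_lit 57741) (nat_lit 187) (.e (nat_lit 1659) (nat_lit 115) (.e (nat_lit 393301) (nat_lit 27) (.e (nat_lit 491559) (nat_lit 10) (.e (nat_lit 344090) (nat_lit 18) (.e (nat_lit 7122) (nat_lit 382) (.e (nat_lit 1183) (nat_lit 87) .nil))))))) (.g (nat_lit 4) .nil .nil))) 
(.lf (nat_lit 179649) (.g (nat_lit 1913) (.e (nat_lit 57751) (nat_lit 201) (.e (nat_lit 2663) (nat_lit 167) (.e (nat_lit 196666) (nat_lit 13) (.e (nat_lit 65619) (nat_lit 10) .nil)))) .nil))) (.nd (nat_lit 6) 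
(.lf (nat_lit 179617) (.g (nat_lit 3299) (.e (nat_lit 65280) (nat_lit 187) (.e (nat_lit 1656) (nat_lit 115) (.e (nat_lit 393301) (nat_lit 27) (.e (nat_lit 491560) (nat_lit 10) (.e (nat_lit 344096) (nat_lit 18) .nil))))) .nil)) 
(.lf (nat_lit 179681) (.g (nat_lit 2696) (.e (nat_lit 65280) (nat_lit 201) (.e (nat_lit 3074) (nat_lit 190) (.e (nat_lit 475185) (nat_lit 29) (.e (nat_lit 557098) (nat_lit 13) (.e (nat_lit 172097) (nat_lit 9) .nil))))) .nil)))) (.nd (nat_lit 5) (.nd (nat_lit 6) 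
(.lf (nat_lit 179601) (.g (nat_lit 1648) (.e (nat_lit 65280) (nat_lit 187) (.e (nat_lit 1656) (nat_lit 115) (.e (nat_lit 393234) (nat_lit 17) (.e (nat_lit 7591) (nat_lit 407) (.e (nat_lit 73731) (nat_lit 0) .nil))))) .nil)) 
(.lf (nat_lit 179665) (.g (nat_lit 2850) (.e (nat_lit 65280) (nat_lit 201) (.e (nat_lit 3060) (nat_lit 190) (.e (nat_lit 475185) (nat_lit 29) (.e (nat_lit 557107) (nat_lit 15) (.e (nat_lit 188447) (nat_lit 22) .nil))))) .nil))) (.nd (nat_lit 6) 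
(.lf (nat_lit 179633) (.g (nat_lit 1796) (.e (nat_lit 65280) (nat_lit 191) (.e (nat_lit 65571) (nat_lit 3) (.e (nat_lit 98350) (nat_lit 24) (.e (nat_lit 409616) (nat_lit 10) .nil)))) .nil)) 
(.lf (nat_lit 179697) (.g (nat_lit 1313) (.e (nat_lit 65280) (nat_lit 206) (.e (nat_lit 180243) (nat_lit 5) (.e (nat_lit 532563) (nat_lit 15) (.e (nat_lit 385109) (nat_lit 51) .nil)))) .nil))))) (.nd (nat_lit 4) (.nd (nat_lit 5) (.nd (nat_lit 6) 
(.lf (nat_lit 179593) (.g (nat_lit 2500) (.e (nat_lit 57741) (nat_lit 187) (.e (nat_lit 1661) (nat_lit 115) (.e (nat_lit 393260) (nat_lit 21) (.e (nat_lit 409648) (nat_lit 18) (.e (nat_lit 303107) (nat_lit 0) .nil))))) .nil)) 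
(.lf (nat_lit 179657) (.g (nat_lit 1684) (.e (nat_lit 65280) (nat_lit 201) (.e (nat_lit 112) (nat_lit 3) (.e (nat_lit 98356) (nat_lit 26) (.e (nat_lit 426438) (nat_lit 18) (.e (nat_lit 98368) (nat_lit 27) .nil))))) .nil))) (.nd (nat_lit 6) 
(.lf (nat_lit 179625) (.g (nat_lit 2037) (.e (nat_lit 65280) (nat_lit 187) (.e (nat_lit 1661) (nat_lit 115) (.e (nat_lit 393260) (nat_lit 21) (.e (nat_lit 409649) (nat_lit 18) .nil)))) .nil)) 
(.lf (nat_lit 179689) (.g (nat_lit 2238) (.e (nat_lit 65280) (nat_lit 206) (.e (nat_lit 180243) (nat_lit 5) (.e (nat_lit 532481) (nat_lit 0) (.e (nat_lit 6722) (nat_lit 362) (.e (nat_lit 180234) (nat_lit 1) .nil))))) .nil)))) (.nd (nat_lit 5) (.nd (nat_lit 6) 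
(.lf (nat_lit 179609) (.g (nat_lit 4318) (.e (nat_lit 65280) (nat_lit 187) (.e (nat_lit 1656) (nat_lit 115) (.e (nat_lit 393301) (nat_lit 27) (.e (nat_lit 491559) (nat_lit 10) (.e (nat_lit 344095) (nat_lit 18) .nil))))) .nil)) 
(.lf (nat_lit 179673) (.g (nat_lit 2127) (.e (nat_lit 65280) (nat_lit 201) (.e (nat_lit 3068) (nat_lit 190) (.e (nat_lit 475185) (nat_lit 29) (.e (nat_lit 557109) (nat_lit 15) (.e (nat_lit 188449) (nat_lit 22) .nil))))) .nil))) (.nd (nat_lit 6) 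
(.lf (nat_lit 179641) (.g (nat_lit 1117) (.e (nat_lit 57744) (nat_lit 195) (.e (nat_lit 1122) (nat_lit 83) (.e (nat_lit 16412) (nat_lit 2) (.e (nat_lit 196681) (nat_lit 17) .nil)))) .nil)) 
(.lf (nat_lit 179705) (.g (nat_lit 729) (.e (nat_lit 65280) (nat_lit 206) (.e (nat_lit 180244) (nat_lit 5) (.e (nat_lit 532486) (nat_lit 0) .nil))) .nil)))))) (.nd (nat_lit 3) (.nd (nat_lit 4) (.nd (nat_lit 5) (.nd (nat_lit 6) 
(.lf (nat_lit 179589) (.g (nat_lit 3082) (.e (nat_lit 57741) (nat_lit 187) (.e (nat_lit 1659) (nat_lit 115) (.e (nat_lit 393301) (nat_lit 27) (.e (nat_lit 491560) (nat_lit 10) (.e (nat_lit 344088) (nat_lit 18) .nil))))) .nil)) 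
(.lf (nat_lit 179653) (.g (nat_lit 3098) (.e (nat_lit 57751) (nat_lit 201) (.e (nat_lit 3067) (nat_lit 190) (.e (nat_lit 475185) (nat_lit 29) (.e (nat_lit 557098) (nat_lit 13) (.e (nat_lit 172093) (nat_lit 9) .nil))))) .nil))) (.nd (nat_lit 6) 
(.lf (nat_lit 179621) (.g (nat_lit 2912) (.e (nat_lit 65280) (nat_lit 187) (.e (nat_lit 1659) (nat_lit 115) (.e (nat_lit 393301) (nat_lit 27) (.e (nat_lit 491560) (nat_lit 10) (.e (nat_lit 344087) (nat_lit 18) .nil))))) .nil)) 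
(.lf (nat_lit 179685) (.g (nat_lit 2253) (.e (nat_lit 65280) (nat_lit 202) (.e (nat_lit 8318) (nat_lit 64) (.e (nat_lit 516145) (nat_lit 9) (.e (nat_lit 426428) (nat_lit 17) (.e (nat_lit 90174) (nat_lit 14) .nil))))) .nil)))) (.nd (nat_lit 5) (.nd (nat_lit 6) 
(.lf (nat_lit 179605) (.g (nat_lit 2771) (.e (nat_lit 65280) (nat_lit 187) (.e (nat_lit 1656) (nat_lit 115) (.e (nat_lit 393301) (nat_lit 27) (.e (nat_lit 491558) (nat_lit 10) (.e (nat_lit 344095) (nat_lit 18) .nil))))) .nil)) 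
(.lf (nat_lit 179669) (.g (nat_lit 3198) (.e (nat_lit 65280) (nat_lit 201) (.e (nat_lit 3064) (nat_lit 190) (.e (nat_lit 475185) (nat_lit 29) (.e (nat_lit 557098) (nat_lit 13) (.e (nat_lit 172097) (nat_lit 9) .nil))))) .nil))) (.nd (nat_lit 6) 
(.lf (nat_lit 179637) (.g (nat_lit 741) (.e (nat_lit 65280) (nat_lit 191) (.e (nat_lit 65653) (nat_lit 27) (.e (nat_lit 426343) (nat_lit 14) (.e (nat_lit 491560) (nat_lit 10) (.e (nat_lit 344090) (nat_lit 18) .nil))))) .nil)) 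
(.lf (nat_lit 179701) (.g (nat_lit 2491) (.e (nat_lit 65280) (nat_lit 206) (.e (nat_lit 180244) (nat_lit 5) (.e (nat_lit 532481) (nat_lit 0) (.e (nat_lit 6722) (nat_lit 362) (.e (nat_lit 180235) (nat_lit 1) .nil))))) .nil))))) (.nd (nat_lit 4) (.nd (nat_lit 5) (.nd (nat_lit 6) 
(.lf (nat_lit 179597) (.g (nat_lit 3303) (.e (nat_lit 65280) (nat_lit 187) (.e (nat_lit 1256) (nat_lit 92) (.e (nat_lit 98373) (nat_lit 29) (.e (nat_lit 450588) (nat_lit 10) (.e (nat_lit 573475) (nat_lit 12) .nil))))) .nil)) 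
(.lf (nat_lit 179661) (.g (nat_lit 1605) (.e (nat_lit 65280) (nat_lit 201) (.e (nat_lit 3056) (nat_lit 190) (.e (nat_lit 475185) (nat_lit 29) (.e (nat_lit 557107) (nat_lit 15) .nil)))) .nil))) (.nd (nat_lit 6) 
(.lf (nat_lit 179629) (.g (nat_lit 2862) (.e (nat_lit 65280) (nat_lit 187) (.e (nat_lit 1665) (nat_lit 115) (.e (nat_lit 393301) (nat_lit 27) (.e (nat_lit 491560) (nat_lit 10) (.e (nat_lit 344091) (nat_lit 18) .nil))))) .nil)) 
(.lf (nat_lit 179693) (.g (nat_lit 2559) (.e (nat_lit 65280) (nat_lit 206) (.e (nat_lit 180243) (nat_lit 5) (.e (nat_lit 532481) (nat_lit 0) (.e (nat_lit 6724) (nat_lit 362) (.e (nat_lit 180235) (nat_lit 1) .nil))))) .nil)))) (.nd (nat_lit 5) (.nd (nat_lit 6) 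
(.lf (nat_lit 179613) (.g (nat_lit 3042) (.e (nat_lit 65280) (nat_lit 187) (.e (nat_lit 1656) (nat_lit 115) (.e (nat_lit 393301) (nat_lit 27) (.e (nat_lit 491560) (nat_lit 10) (.e (nat_lit 344090) (nat_lit 18) .nil))))) .nil)) 
(.lf (nat_lit 179677) (.g (nat_lit 2859) (.e (nat_lit 65280) (nat_lit 201) (.e (nat_lit 3072) (nat_lit 190) (.e (nat_lit 475185) (nat_lit 29) (.e (nat_lit 557098) (nat_lit 13) (.e (nat_lit 172097) (nat_lit 9) .nil))))) .nil))) (.nd (nat_lit 6) 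
(.lf (nat_lit 179645) (.g (nat_lit 1733) (.e (nat_lit 57750) (nat_lit 201) (.e (nat_lit 3065) (nat_lit 190) (.e (nat_lit 475185) (nat_lit 29) (.e (nat_lit 557098) (nat_lit 13) .nil)))) .nil)) 
(.lf (nat_lit 179709) (.g (nat_lit 2816) (.e (nat_lit 65280) (nat_lit 206) (.e (nat_lit 180250) (nat_lit 10) (.e (nat_lit 573471) (nat_lit 11) (.e (nat_lit 16449) (nat_lit 10) (.e (nat_lit 434222) (nat_lit 19) .nil))))) .nil))))))) (.nd (nat_lit 2) (.nd (nat_lit 3) (.nd (nat_lit 4) (.nd (nat_lit 5) (.nd (nat_lit 6) 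
(.lf (nat_lit 179587) (.g (nat_lit 2934) (.e (nat_lit 57741) (nat_lit 187) (.e (nat_lit 1659) (nat_lit 115) (.e (nat_lit 393301) (nat_lit 27) (.e (nat_lit 491559) (nat_lit 10) (.e (nat_lit 344096) (nat_lit 18) (.e (nat_lit 7125) (nat_lit 382) (.e (nat_lit 1183) (nat_lit 87) .nil))))))) (.g (nat_lit 4) .nil .nil))) 
(.lf (nat_lit 179651) (.g (nat_lit 2624) (.e (nat_lit 57751) (nat_lit 201) (.e (nat_lit 3067) (nat_lit 190) (.e (nat_lit 475185) (nat_lit 29) (.e (nat_lit 557097) (nat_lit 13) (.e (nat_lit 172097) (nat_lit 9) .nil))))) .nil))) (.nd (nat_lit 6) 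
(.lf (nat_lit 179619) (.g (nat_lit 2745) (.e (nat_lit 65280) (nat_lit 187) (.e (nat_lit 1659) (nat_lit 115) (.e (nat_lit 393301) (nat_lit 27) (.e (nat_lit 491559) (nat_lit 10) (.e (nat_lit 344095) (nat_lit 18) .nil))))) .nil)) 
(.lf (nat_lit 179683) (.g (nat_lit 955) (.e (nat_lit 65280) (nat_lit 201) (.e (nat_lit 3098) (nat_lit 192) (.e (nat_lit 491540) (nat_lit 3) (.e (nat_lit 98358) (nat_lit 26) .nil)))) .nil)))) (.nd (nat_lit 5) (.nd (nat_lit 6) 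
(.lf (nat_lit 179603) (.g (nat_lit 2898) (.e (nat_lit 65280) (nat_lit 187) (.e (nat_lit 1656) (nat_lit 115) (.e (nat_lit 393301) (nat_lit 27) (.e (nat_lit 491558) (nat_lit 10) (.e (nat_lit 344090) (nat_lit 18) .nil))))) .nil)) 
(.lf (nat_lit 179667) (.g (nat_lit 1720) (.e (nat_lit 65280) (nat_lit 201) (.e (nat_lit 3061) (nat_lit 190) (.e (nat_lit 475185) (nat_lit 29) (.e (nat_lit 557107) (nat_lit 15) .nil)))) .nil))) (.nd (nat_lit 6) 
(.lf (nat_lit 179635) (.g (nat_lit 1867) (.e (nat_lit 65280) (nat_lit 191) (.e (nat_lit 65653) (nat_lit 27) (.e (nat_lit 426011) (nat_lit 0) (.e (nat_lit 7591) (nat_lit 407) (.e (nat_lit 73730) (nat_lit 0) .nil))))) .nil)) 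
(.lf (nat_lit 179699) (.g (nat_lit 737) (.e (nat_lit 65280) (nat_lit 206) (.e (nat_lit 180244) (nat_lit 5) (.e (nat_lit 532481) (nat_lit 0) .nil))) .nil))))) (.nd (nat_lit 4) (.nd (nat_lit 5) (.nd (nat_lit 6) 
(.lf (nat_lit 179595) (.g (nat_lit 1739) (.e (nat_lit 65280) (nat_lit 187) (.e (nat_lit 1253) (nat_lit 92) (.e (nat_lit 98373) (nat_lit 29) (.e (nat_lit 450587) (nat_lit 10) (.e (nat_lit 573475) (nat_lit 12) .nil))))) .nil)) 
(.lf (nat_lit 179659) (.g (nat_lit 1250) (.e (nat_lit 65280) (nat_lit 201) (.e (nat_lit 113) (nat_lit 3) (.e (nat_lit 98356) (nat_lit 26) (.e (nat_lit 426438) (nat_lit 18) .nil)))) .nil))) (.nd (nat_lit 6) 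
(.lf (nat_lit 179627) (.g (nat_lit 2744) (.e (nat_lit 65280) (nat_lit 187) (.e (nat_lit 1664) (nat_lit 115) (.e (nat_lit 393301) (nat_lit 27) (.e (nat_lit 491559) (nat_lit 10) (.e (nat_lit 344095) (nat_lit 18) .nil))))) .nil)) 
(.lf (nat_lit 179691) (.g (nat_lit 2238) (.e (nat_lit 65280) (nat_lit 206) (.e (nat_lit 180243) (nat_lit 5) (.e (nat_lit 532481) (nat_lit 0) (.e (nat_lit 6722) (nat_lit 362) (.e (nat_lit 180236) (nat_lit 1) .nil))))) .nil)))) (.nd (nat_lit 5) (.nd (nat_lit 6) 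
(.lf (nat_lit 179611) (.g (nat_lit 4452) (.e (nat_lit 65280) (nat_lit 187) (.e (nat_lit 1656) (nat_lit 115) (.e (nat_lit 393301) (nat_lit 27) (.e (nat_lit 491559) (nat_lit 10) (.e (nat_lit 344177) (nat_lit 43) .nil))))) .nil)) 
(.lf (nat_lit 179675) (.g (nat_lit 1637) (.e (nat_lit 65280) (nat_lit 201) (.e (nat_lit 3070) (nat_lit 190) (.e (nat_lit 475185) (nat_lit 29) (.e (nat_lit 557107) (nat_lit 15) (.e (nat_lit 188447) (nat_lit 22) .nil))))) .nil))) (.nd (nat_lit 6) 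
(.lf (nat_lit 179643) (.g (nat_lit 2082) (.e (nat_lit 57750) (nat_lit 201) (.e (nat_lit 2663) (nat_lit 167) (.e (nat_lit 196666) (nat_lit 13) (.e (nat_lit 65617) (nat_lit 10) (.e (nat_lit 344117) (nat_lit 21) .nil))))) .nil)) 
(.lf (nat_lit 179707) (.g (nat_lit 2921) (.e (nat_lit 65280) (nat_lit 206) (.e (nat_lit 180244) (nat_lit 5) (.e (nat_lit 532569) (nat_lit 16) (.e (nat_lit 401448) (nat_lit 10) (.e (nat_lit 434217) (nat_lit 19) .nil))))) .nil)))))) (.nd (nat_lit 3) (.nd (nat_lit 4) (.nd (nat_lit 5) (.nd (nat_lit 6) 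
(.lf (nat_lit 179591) (.g (nat_lit 3392) (.e (nat_lit 57741) (nat_lit 187) (.e (nat_lit 1659) (nat_lit 115) (.e (nat_lit 393301) (nat_lit 27) (.e (nat_lit 491560) (nat_lit 10) (.e (nat_lit 344095) (nat_lit 18) .nil))))) .nil)) 
(.lf (nat_lit 179655) (.g (nat_lit 1103) (.e (nat_lit 65280) (nat_lit 201) (.e (nat_lit 109) (nat_lit 3) (.e (nat_lit 98356) (nat_lit 26) (.e (nat_lit 426438) (nat_lit 18) .nil)))) .nil))) (.nd (nat_lit 6) 
(.lf (nat_lit 179623) (.g (nat_lit 2642) (.e (nat_lit 65280) (nat_lit 187) (.e (nat_lit 1659) (nat_lit 115) (.e (nat_lit 393301) (nat_lit 27) (.e (nat_lit 491560) (nat_lit 10) (.e (nat_lit 344091) (nat_lit 18) .nil))))) .nil)) 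
(.lf (nat_lit 179687) (.g (nat_lit 1645) (.e (nat_lit 65280) (nat_lit 202) (.e (nat_lit 8320) (nat_lit 64) (.e (nat_lit 516146) (nat_lit 9) (.e (nat_lit 426438) (nat_lit 18) (.e (nat_lit 98367) (nat_lit 27) .nil))))) .nil)))) (.nd (nat_lit 5) (.nd (nat_lit 6) 
(.lf (nat_lit 179607) (.g (nat_lit 4311) (.e (nat_lit 65280) (nat_lit 187) (.e (nat_lit 1656) (nat_lit 115) (.e (nat_lit 393301) (nat_lit 27) (.e (nat_lit 491559) (nat_lit 10) (.e (nat_lit 344090) (nat_lit 18) .nil))))) .nil)) 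
(.lf (nat_lit 179671) (.g (nat_lit 2233) (.e (nat_lit 65280) (nat_lit 201) (.e (nat_lit 3064) (nat_lit 190) (.e (nat_lit 475185) (nat_lit 29) (.e (nat_lit 557109) (nat_lit 15) (.e (nat_lit 188449) (nat_lit 22) .nil))))) .nil))) (.nd (nat_lit 6) 
(.lf (nat_lit 179639) (.g (nat_lit 751) (.e (nat_lit 65280) (nat_lit 192) (.e (nat_lit 73746) (nat_lit 3) (.e (nat_lit 516102) (nat_lit 0) .nil))) .nil)) 
(.lf (nat_lit 179703) (.g (nat_lit 1760) (.e (nat_lit 65280) (nat_lit 206) (.e (nat_lit 180244) (nat_lit 5) (.e (nat_lit 532481) (nat_lit 0) (.e (nat_lit 6724) (nat_lit 362) .nil)))) .nil))))) (.nd (nat_lit 4) (.nd (nat_lit 5) (.nd (nat_lit 6) 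
(.lf (nat_lit 179599) (.g (nat_lit 1789) (.e (nat_lit 65280) (nat_lit 187) (.e (nat_lit 1633) (nat_lit 114) (.e (nat_lit 385106) (nat_lit 50) (.e (nat_lit 786483) (nat_lit 30) (.e (nat_lit 368384) (nat_lit 17) .nil))))) .nil)) 
(.lf (nat_lit 179663) (.g (nat_lit 2983) (.e (nat_lit 65280) (nat_lit 201) (.e (nat_lit 3059) (nat_lit 190) (.e (nat_lit 475185) (nat_lit 29) (.e (nat_lit 557107) (nat_lit 15) (.e (nat_lit 188447) (nat_lit 22) .nil))))) .nil))) (.nd (nat_lit 6) 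
(.lf (nat_lit 179631) (.g (nat_lit 1435) (.e (nat_lit 65280) (nat_lit 189) (.e (nat_lit 16470) (nat_lit 14) (.e (nat_lit 491571) (nat_lit 13) (.e (nat_lit 393232) (nat_lit 17) .nil)))) .nil)) 
(.lf (nat_lit 179695) (.g (nat_lit 1620) (.e (nat_lit 65280) (nat_lit 206) (.e (nat_lit 180243) (nat_lit 5) (.e (nat_lit 532482) (nat_lit 0) (.e (nat_lit 6724) (nat_lit 362) (.e (nat_lit 180234) (nat_lit 1) .nil))))) .nil)))) (.nd (nat_lit 5) (.nd (nat_lit 6) 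
(.lf (nat_lit 179615) (.g (nat_lit 3100) (.e (nat_lit 65280) (nat_lit 187) (.e (nat_lit 1656) (nat_lit 115) (.e (nat_lit 393301) (nat_lit 27) (.e (nat_lit 491560) (nat_lit 10) (.e (nat_lit 344094) (nat_lit 18) .nil))))) .nil)) 
(.lf (nat_lit 179679) (.g (nat_lit 2794) (.e (nat_lit 65280) (nat_lit 201) (.e (nat_lit 3072) (nat_lit 190) (.e (nat_lit 475185) (nat_lit 29) (.e (nat_lit 557109) (nat_lit 15) (.e (nat_lit 188447) (nat_lit 22) .nil))))) .nil))) (.nd (nat_lit 6) 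
(.lf (nat_lit 179647) (.g (nat_lit 3053) (.e (nat_lit 57750) (nat_lit 201) (.e (nat_lit 3067) (nat_lit 190) (.e (nat_lit 475185) (nat_lit 29) (.e (nat_lit 557098) (nat_lit 13) (.e (nat_lit 172093) (nat_lit 9) .nil))))) .nil)) 
(.lf (nat_lit 179711) (.g (nat_lit 1534) (.e (nat_lit 65280) (nat_lit 206) (.e (nat_lit 180250) (nat_lit 10) (.e (nat_lit 573471) (nat_lit 11) (.e (nat_lit 16453) (nat_lit 11) .nil)))) .nil)))))))))

noncomputable def tv2410 : DT := (.nd (nat_lit 0) (.nd (nat_lit 1) (.nd (nat_lit 2) (.nd (nat_lit 3) (.nd (nat_lit 4) (.nd (nat_lit 5) (.nd (nat_lit 6) 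
(.lf (nat_lit 179712) (.g (nat_lit 2087) (.e (nat_lit 65280) (nat_lit 206) (.e (nat_lit 180250) (nat_lit 10) (.e (nat_lit 573471) (nat_lit 11) (.e (nat_lit 16453) (nat_lit 11) (.e (nat_lit 458779) (nat_lit 19) .nil))))) .nil)) 
(.lf (nat_lit 179776) (.g (nat_lit 2342) (.e (nat_lit 57754) (nat_lit 209) (.e (nat_lit 1221) (nat_lit 90) (.e (nat_lit 81954) (nat_lit 23) (.e (nat_lit 98313) (nat_lit 9) (.e (nat_lit 335995) (nat_lit 1) .nil))))) .nil))) (.nd (nat_lit 6) 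
(.lf (nat_lit 179744) (.g (nat_lit 1726) (.e (nat_lit 57754) (nat_lit 209) (.e (nat_lit 1219) (nat_lit 90) (.e (nat_lit 81952) (nat_lit 22) (.e (nat_lit 90160) (nat_lit 11) (.e (nat_lit 24599) (nat_lit 1) .nil))))) .nil)) 
(.lf (nat_lit 179808) (.g (nat_lit 4243) (.e (nat_lit 57755) (nat_lit 209) (.e (nat_lit 1221) (nat_lit 90) (.e (nat_lit 81953) (nat_lit 22) (.e (nat_lit 90160) (nat_lit 11) (.e (nat_lit 24597) (nat_lit 1) .nil))))) .nil)))) (.nd (nat_lit 5) (.nd (nat_lit 6) 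
(.lf (nat_lit 179728) (.g (nat_lit 2011) (.e (nat_lit 57754) (nat_lit 209) (.e (nat_lit 1190) (nat_lit 88) (.e (nat_lit 65619) (nat_lit 10) (.e (nat_lit 344117) (nat_lit 21) (.e (nat_lit 516195) (nat_lit 26) .nil))))) .nil)) 
(.lf (nat_lit 179792) (.g (nat_lit 3037) (.e (nat_lit 57755) (nat_lit 209) (.e (nat_lit 1219) (nat_lit 90) (.e (nat_lit 81953) (nat_lit 22) (.e (nat_lit 90160) (nat_lit 11) .nil)))) .nil))) (.nd (nat_lit 6) 
(.lf (nat_lit 179760) (.g (nat_lit 4454) (.e (nat_lit 57754) (nat_lit 209) (.e (nat_lit 1220) (nat_lit 90) (.e (nat_lit 81953) (nat_lit 22) (.e (nat_lit 90160) (nat_lit 11) (.e (nat_lit 24599) (nat_lit 1) .nil))))) .nil)) 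
(.lf (nat_lit 179824) (.g (nat_lit 1742) (.e (nat_lit 65280) (nat_lit 209) (.e (nat_lit 1216) (nat_lit 90) (.e (nat_lit 81954) (nat_lit 23) (.e (nat_lit 98313) (nat_lit 9) (.e (nat_lit 335995) (nat_lit 1) .nil))))) .nil))))) (.nd (nat_lit 4) (.nd (nat_lit 5) (.nd (nat_lit 6) 
(.lf (nat_lit 179720) (.g (nat_lit 1061) (.e (nat_lit 65280) (nat_lit 206) (.e (nat_lit 180252) (nat_lit 10) (.e (nat_lit 573474) (nat_lit 12) (.e (nat_lit 57572) (nat_lit 54) .nil)))) .nil)) 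
(.lf (nat_lit 179784) (.g (nat_lit 3434) (.e (nat_lit 57754) (nat_lit 209) (.e (nat_lit 1221) (nat_lit 90) (.e (nat_lit 81956) (nat_lit 23) (.e (nat_lit 98317) (nat_lit 9) .nil)))) .nil))) (.nd (nat_lit 6) 
(.lf (nat_lit 179752) (.g (nat_lit 2890) (.e (nat_lit 57754) (nat_lit 209) (.e (nat_lit 1219) (nat_lit 90) (.e (nat_lit 81956) (nat_lit 23) (.e (nat_lit 98313) (nat_lit 9) (.e (nat_lit 335986) (nat_lit 1) .nil))))) .nil)) 
(.lf (nat_lit 179816) (.g (nat_lit 2034) (.e (nat_lit 57755) (nat_lit 209) (.e (nat_lit 1221) (nat_lit 90) (.e (nat_lit 81959) (nat_lit 24) (.e (nat_lit 123228) (nat_lit 282) .nil)))) .nil)))) (.nd (nat_lit 5) (.nd (nat_lit 6) 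
(.lf (nat_lit 179736) (.g (nat_lit 2622) (.e (nat_lit 57754) (nat_lit 209) (.e (nat_lit 1218) (nat_lit 90) (.e (nat_lit 81953) (nat_lit 22) (.e (nat_lit 90160) (nat_lit 11) .nil)))) .nil)) 
(.lf (nat_lit 179800) (.g (nat_lit 3463) (.e (nat_lit 57755) (nat_lit 209) (.e (nat_lit 1220) (nat_lit 90) (.e (nat_lit 81956) (nat_lit 23) (.e (nat_lit 98312) (nat_lit 9) .nil)))) .nil))) (.nd (nat_lit 6) 
(.lf (nat_lit 179768) (.g (nat_lit 3459) (.e (nat_lit 57754) (nat_lit 209) (.e (nat_lit 1220) (nat_lit 90) (.e (nat_lit 81956) (nat_lit 23) (.e (nat_lit 98317) (nat_lit 9) .nil)))) .nil)) 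
(.lf (nat_lit 179832) (.g (nat_lit 1316) (.e (nat_lit 65280) (nat_lit 209) (.e (nat_lit 1217) (nat_lit 90) (.e (nat_lit 81955) (nat_lit 23) (.e (nat_lit 98313) (nat_lit 9) (.e (nat_lit 335995) (nat_lit 1) .nil))))) .nil)))))) (.nd (nat_lit 3) (.nd (nat_lit 4) (.nd (nat_lit 5) (.nd (nat_lit 6) 
(.lf (nat_lit 179716) (.g (nat_lit 2665) (.e (nat_lit 65280) (nat_lit 206) (.e (nat_lit 180252) (nat_lit 10) (.e (nat_lit 573471) (nat_lit 11) (.e (nat_lit 16449) (nat_lit 10) (.e (nat_lit 434222) (nat_lit 19) .nil))))) .nil)) 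
(.lf (nat_lit 179780) (.g (nat_lit 3400) (.e (nat_lit 57754) (nat_lit 209) (.e (nat_lit 1221) (nat_lit 90) (.e (nat_lit 81956) (nat_lit 23) (.e (nat_lit 98313) (nat_lit 9) (.e (nat_lit 335995) (nat_lit 1) .nil))))) .nil))) (.nd (nat_lit 6) 
(.lf (nat_lit 179748) (.g (nat_lit 1998) (.e (nat_lit 57754) (nat_lit 209) (.e (nat_lit 1219) (nat_lit 90) (.e (nat_lit 81954) (nat_lit 23) (.e (nat_lit 98313) (nat_lit 9) (.e (nat_lit 335995) (nat_lit 1) .nil))))) .nil)) 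
(.lf (nat_lit 179812) (.g (nat_lit 3464) (.e (nat_lit 57755) (nat_lit 209) (.e (nat_lit 1221) (nat_lit 90) (.e (nat_lit 81956) (nat_lit 23) (.e (nat_lit 98312) (nat_lit 9) .nil)))) .nil)))) (.nd (nat_lit 5) (.nd (nat_lit 6) 
(.lf (nat_lit 179732) (.g (nat_lit 4326) (.e (nat_lit 57754) (nat_lit 209) (.e (nat_lit 1200) (nat_lit 88) (.e (nat_lit 65619) (nat_lit 10) (.e (nat_lit 344117) (nat_lit 21) (.e (nat_lit 516195) (nat_lit 26) (.e (nat_lit 335986) (nat_lit 1) (.e (nat_lit 57847) (nat_lit 252) (.e (nat_lit 57363) (nat_lit 1) .nil)))))))) (.g (nat_lit 8) .nil .nil))) 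
(.lf (nat_lit 179796) (.g (nat_lit 3287) (.e (nat_lit 57755) (nat_lit 209) (.e (nat_lit 1220) (nat_lit 90) (.e (nat_lit 81953) (nat_lit 22) (.e (nat_lit 90157) (nat_lit 11) .nil)))) .nil))) (.nd (nat_lit 6) 
(.lf (nat_lit 179764) (.g (nat_lit 3441) (.e (nat_lit 57754) (nat_lit 209) (.e (nat_lit 1220) (nat_lit 90) (.e (nat_lit 81956) (nat_lit 23) (.e (nat_lit 98313) (nat_lit 9) (.e (nat_lit 335995) (nat_lit 1) .nil))))) .nil)) 
(.lf (nat_lit 179828) (.g (nat_lit 2491) (.e (nat_lit 65280) (nat_lit 209) (.e (nat_lit 1216) (nat_lit 90) (.e (nat_lit 81956) (nat_lit 23) (.e (nat_lit 98313) (nat_lit 9) (.e (nat_lit 335995) (nat_lit 1) .nil))))) .nil))))) (.nd (nat_lit 4) (.nd (nat_lit 5) (.nd (nat_lit 6) 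
(.lf (nat_lit 179724) (.g (nat_lit 2313) (.e (nat_lit 57752) (nat_lit 209) (.e (nat_lit 1218) (nat_lit 90) (.e (nat_lit 81956) (nat_lit 23) (.e (nat_lit 98313) (nat_lit 9) (.e (nat_lit 335995) (nat_lit 1) .nil))))) .nil)) 
(.lf (nat_lit 179788) (.g (nat_lit 967) (.e (nat_lit 57755) (nat_lit 209) (.e (nat_lit 1181) (nat_lit 87) (.e (nat_lit 57712) (nat_lit 176) (.e (nat_lit 1370) (nat_lit 103) .nil)))) .nil))) (.nd (nat_lit 6) 
(.lf (nat_lit 179756) (.g (nat_lit 4670) (.e (nat_lit 57754) (nat_lit 209) (.e (nat_lit 1220) (nat_lit 90) (.e (nat_lit 81953) (nat_lit 22) (.e (nat_lit 90158) (nat_lit 11) .nil)))) .nil)) 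
(.lf (nat_lit 179820) (.g (nat_lit 1967) (.e (nat_lit 65280) (nat_lit 209) (.e (nat_lit 1200) (nat_lit 88) (.e (nat_lit 65619) (nat_lit 10) (.e (nat_lit 344117) (nat_lit 21) (.e (nat_lit 516195) (nat_lit 26) .nil))))) .nil)))) (.nd (nat_lit 5) (.nd (nat_lit 6) 
(.lf (nat_lit 179740) (.g (nat_lit 2570) (.e (nat_lit 57754) (nat_lit 209) (.e (nat_lit 1218) (nat_lit 90) (.e (nat_lit 81956) (nat_lit 23) (.e (nat_lit 98313) (nat_lit 9) (.e (nat_lit 335995) (nat_lit 1) (.e (nat_lit 57848) (nat_lit 252) (.e (nat_lit 57367) (nat_lit 1) .nil))))))) (.g (nat_lit 4) .nil .nil))) 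
(.lf (nat_lit 179804) (.g (nat_lit 3463) (.e (nat_lit 57755) (nat_lit 209) (.e (nat_lit 1220) (nat_lit 90) (.e (nat_lit 81956) (nat_lit 23) (.e (nat_lit 98316) (nat_lit 9) .nil)))) .nil))) (.nd (nat_lit 6) 
(.lf (nat_lit 179772) (.g (nat_lit 4189) (.e (nat_lit 57754) (nat_lit 209) (.e (nat_lit 1221) (nat_lit 90) (.e (nat_lit 81953) (nat_lit 22) (.e (nat_lit 90160) (nat_lit 11) (.e (nat_lit 24597) (nat_lit 1) .nil))))) .nil)) 
(.lf (nat_lit 179836) (.g (nat_lit 2692) (.e (nat_lit 65280) (nat_lit 209) (.e (nat_lit 1220) (nat_lit 90) (.e (nat_lit 81953) (nat_lit 22) (.e (nat_lit 90157) (nat_lit 11) .nil)))) .nil))))))) (.nd (nat_lit 2) (.nd (nat_lit 3) (.nd (nat_lit 4) (.nd (nat_lit 5) (.nd (nat_lit 6) 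
(.lf (nat_lit 179714) (.g (nat_lit 960) (.e (nat_lit 65280) (nat_lit 206) (.e (nat_lit 180251) (nat_lit 10) (.e (nat_lit 573456) (nat_lit 9) (.e (nat_lit 430) (nat_lit 32) .nil)))) .nil)) 
(.lf (nat_lit 179778) (.g (nat_lit 2678) (.e (nat_lit 57754) (nat_lit 209) (.e (nat_lit 1221) (nat_lit 90) (.e (nat_lit 81956) (nat_lit 23) (.e (nat_lit 98313) (nat_lit 9) .nil)))) .nil))) (.nd (nat_lit 6) 
(.lf (nat_lit 179746) (.g (nat_lit 1345) (.e (nat_lit 57754) (nat_lit 209) (.e (nat_lit 1219) (nat_lit 90) (.e (nat_lit 81954) (nat_lit 23) (.e (nat_lit 98313) (nat_lit 9) .nil)))) .nil)) 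
(.lf (nat_lit 179810) (.g (nat_lit 3973) (.e (nat_lit 57755) (nat_lit 209) (.e (nat_lit 1221) (nat_lit 90) (.e (nat_lit 81953) (nat_lit 22) (.e (nat_lit 90160) (nat_lit 11) (.e (nat_lit 24599) (nat_lit 1) .nil))))) .nil)))) (.nd (nat_lit 5) (.nd (nat_lit 6) 
(.lf (nat_lit 179730) (.g (nat_lit 4362) (.e (nat_lit 57754) (nat_lit 209) (.e (nat_lit 1199) (nat_lit 88) (.e (nat_lit 65610) (nat_lit 10) (.e (nat_lit 344117) (nat_lit 21) (.e (nat_lit 516195) (nat_lit 26) (.e (nat_lit 335986) (nat_lit 1) (.e (nat_lit 57847) (nat_lit 252) (.e (nat_lit 57363) (nat_lit 1) .nil)))))))) (.g (nat_lit 7) .nil .nil))) 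
(.lf (nat_lit 179794) (.g (nat_lit 1998) (.e (nat_lit 57755) (nat_lit 209) (.e (nat_lit 1219) (nat_lit 90) (.e (nat_lit 81954) (nat_lit 23) (.e (nat_lit 98313) (nat_lit 9) (.e (nat_lit 335995) (nat_lit 1) .nil))))) .nil))) (.nd (nat_lit 6) 
(.lf (nat_lit 179762) (.g (nat_lit 2727) (.e (nat_lit 57754) (nat_lit 209) (.e (nat_lit 1220) (nat_lit 90) (.e (nat_lit 81956) (nat_lit 23) (.e (nat_lit 98313) (nat_lit 9) .nil)))) .nil)) 
(.lf (nat_lit 179826) (.g (nat_lit 1698) (.e (nat_lit 65280) (nat_lit 209) (.e (nat_lit 1216) (nat_lit 90) (.e (nat_lit 81956) (nat_lit 23) (.e (nat_lit 98313) (nat_lit 9) .nil)))) .nil))))) (.nd (nat_lit 4) (.nd (nat_lit 5) (.nd (nat_lit 6) 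
(.lf (nat_lit 179722) (.g (nat_lit 2621) (.e (nat_lit 57752) (nat_lit 209) (.e (nat_lit 1218) (nat_lit 90) (.e (nat_lit 81953) (nat_lit 22) (.e (nat_lit 90160) (nat_lit 11) .nil)))) .nil)) 
(.lf (nat_lit 179786) (.g (nat_lit 1846) (.e (nat_lit 57754) (nat_lit 209) (.e (nat_lit 1221) (nat_lit 90) (.e (nat_lit 81959) (nat_lit 24) (.e (nat_lit 123229) (nat_lit 282) (.e (nat_lit 163936) (nat_lit 18) .nil))))) .nil))) (.nd (nat_lit 6) 
(.lf (nat_lit 179754) (.g (nat_lit 2866) (.e (nat_lit 57754) (nat_lit 209) (.e (nat_lit 1219) (nat_lit 90) (.e (nat_lit 81956) (nat_lit 23) (.e (nat_lit 98313) (nat_lit 9) (.e (nat_lit 335996) (nat_lit 1) .nil))))) .nil)) 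
(.lf (nat_lit 179818) (.g (nat_lit 2313) (.e (nat_lit 57756) (nat_lit 209) (.e (nat_lit 1218) (nat_lit 90) (.e (nat_lit 81956) (nat_lit 23) (.e (nat_lit 98313) (nat_lit 9) (.e (nat_lit 335995) (nat_lit 1) .nil))))) .nil)))) (.nd (nat_lit 5) (.nd (nat_lit 6) 
(.lf (nat_lit 179738) (.g (nat_lit 2314) (.e (nat_lit 57754) (nat_lit 209) (.e (nat_lit 1218) (nat_lit 90) (.e (nat_lit 81956) (nat_lit 23) (.e (nat_lit 98313) (nat_lit 9) (.e (nat_lit 335995) (nat_lit 1) .nil))))) .nil)) 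
(.lf (nat_lit 179802) (.g (nat_lit 3553) (.e (nat_lit 57755) (nat_lit 209) (.e (nat_lit 1220) (nat_lit 90) (.e (nat_lit 81956) (nat_lit 23) (.e (nat_lit 98313) (nat_lit 9) (.e (nat_lit 335988) (nat_lit 1) .nil))))) .nil))) (.nd (nat_lit 6) 
(.lf (nat_lit 179770) (.g (nat_lit 2844) (.e (nat_lit 57754) (nat_lit 209) (.e (nat_lit 1221) (nat_lit 90) (.e (nat_lit 81953) (nat_lit 22) (.e (nat_lit 90157) (nat_lit 11) .nil)))) .nil)) 
(.lf (nat_lit 179834) (.g (nat_lit 2826) (.e (nat_lit 65280) (nat_lit 209) (.e (nat_lit 1217) (nat_lit 90) (.e (nat_lit 81956) (nat_lit 23) (.e (nat_lit 98313) (nat_lit 9) (.e (nat_lit 335986) (nat_lit 1) .nil))))) .nil)))))) (.nd (nat_lit 3) (.nd (nat_lit 4) (.nd (nat_lit 5) (.nd (nat_lit 6) 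
(.lf (nat_lit 179718) (.g (nat_lit 1964) (.e (nat_lit 65280) (nat_lit 206) (.e (nat_lit 180252) (nat_lit 10) (.e (nat_lit 573471) (nat_lit 11) (.e (nat_lit 16453) (nat_lit 11) (.e (nat_lit 458779) (nat_lit 19) .nil))))) .nil)) 
(.lf (nat_lit 179782) (.g (nat_lit 3833) (.e (nat_lit 57754) (nat_lit 209) (.e (nat_lit 1221) (nat_lit 90) (.e (nat_lit 81956) (nat_lit 23) (.e (nat_lit 98313) (nat_lit 9) (.e (nat_lit 335996) (nat_lit 1) (.e (nat_lit 57854) (nat_lit 252) (.e (nat_lit 57366) (nat_lit 1) .nil))))))) (.g (nat_lit 4) .nil .nil)))) (.nd (nat_lit 6) 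
(.lf (nat_lit 179750) (.g (nat_lit 1307) (.e (nat_lit 57754) (nat_lit 209) (.e (nat_lit 1219) (nat_lit 90) (.e (nat_lit 81954) (nat_lit 23) (.e (nat_lit 98317) (nat_lit 9) .nil)))) .nil)) 
(.lf (nat_lit 179814) (.g (nat_lit 3480) (.e (nat_lit 57755) (nat_lit 209) (.e (nat_lit 1221) (nat_lit 90) (.e (nat_lit 81956) (nat_lit 23) (.e (nat_lit 98313) (nat_lit 9) (.e (nat_lit 335996) (nat_lit 1) .nil))))) .nil)))) (.nd (nat_lit 5) (.nd (nat_lit 6) 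
(.lf (nat_lit 179734) (.g (nat_lit 4149) (.e (nat_lit 57754) (nat_lit 209) (.e (nat_lit 1200) (nat_lit 88) (.e (nat_lit 65619) (nat_lit 10) (.e (nat_lit 344117) (nat_lit 21) (.e (nat_lit 516195) (nat_lit 26) (.e (nat_lit 335995) (nat_lit 1) (.e (nat_lit 57847) (nat_lit 252) (.e (nat_lit 57363) (nat_lit 1) .nil)))))))) (.g (nat_lit 8) .nil .nil))) 
(.lf (nat_lit 179798) (.g (nat_lit 3549) (.e (nat_lit 57755) (nat_lit 209) (.e (nat_lit 1220) (nat_lit 90) (.e (nat_lit 81953) (nat_lit 22) (.e (nat_lit 90160) (nat_lit 11) .nil)))) .nil))) (.nd (nat_lit 6) 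
(.lf (nat_lit 179766) (.g (nat_lit 3966) (.e (nat_lit 57754) (nat_lit 209) (.e (nat_lit 1220) (nat_lit 90) (.e (nat_lit 81956) (nat_lit 23) (.e (nat_lit 98313) (nat_lit 9) (.e (nat_lit 335996) (nat_lit 1) (.e (nat_lit 57854) (nat_lit 252) (.e (nat_lit 57366) (nat_lit 1) .nil))))))) (.g (nat_lit 4) .nil .nil))) 
(.lf (nat_lit 179830) (.g (nat_lit 2806) (.e (nat_lit 65280) (nat_lit 209) (.e (nat_lit 1217) (nat_lit 90) (.e (nat_lit 81953) (nat_lit 22) (.e (nat_lit 90160) (nat_lit 11) .nil)))) .nil))))) (.nd (nat_lit 4) (.nd (nat_lit 5) (.nd (nat_lit 6) 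
(.lf (nat_lit 179726) (.g (nat_lit 2313) (.e (nat_lit 57753) (nat_lit 209) (.e (nat_lit 1218) (nat_lit 90) (.e (nat_lit 81956) (nat_lit 23) (.e (nat_lit 98313) (nat_lit 9) (.e (nat_lit 335995) (nat_lit 1) .nil))))) .nil)) 
(.lf (nat_lit 179790) (.g (nat_lit 1815) (.e (nat_lit 57755) (nat_lit 209) (.e (nat_lit 1196) (nat_lit 88) (.e (nat_lit 65619) (nat_lit 10) (.e (nat_lit 344117) (nat_lit 21) (.e (nat_lit 516195) (nat_lit 26) .nil))))) .nil))) (.nd (nat_lit 6) 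
(.lf (nat_lit 179758) (.g (nat_lit 4720) (.e (nat_lit 57754) (nat_lit 209) (.e (nat_lit 1220) (nat_lit 90) (.e (nat_lit 81953) (nat_lit 22) (.e (nat_lit 90160) (nat_lit 11) (.e (nat_lit 24597) (nat_lit 1) .nil))))) .nil)) 
(.lf (nat_lit 179822) (.g (nat_lit 2747) (.e (nat_lit 65280) (nat_lit 209) (.e (nat_lit 1216) (nat_lit 90) (.e (nat_lit 81953) (nat_lit 22) (.e (nat_lit 90160) (nat_lit 11) .nil)))) .nil)))) (.nd (nat_lit 5) (.nd (nat_lit 6) 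
(.lf (nat_lit 179742) (.g (nat_lit 2363) (.e (nat_lit 57754) (nat_lit 209) (.e (nat_lit 1218) (nat_lit 90) (.e (nat_lit 81956) (nat_lit 23) (.e (nat_lit 98313) (nat_lit 9) (.e (nat_lit 335996) (nat_lit 1) .nil))))) .nil)) 
(.lf (nat_lit 179806) (.g (nat_lit 2899) (.e (nat_lit 57755) (nat_lit 209) (.e (nat_lit 1221) (nat_lit 90) (.e (nat_lit 81953) (nat_lit 22) (.e (nat_lit 90157) (nat_lit 11) .nil)))) .nil))) (.nd (nat_lit 6) 
(.lf (nat_lit 179774) (.g (nat_lit 3918) (.e (nat_lit 57754) (nat_lit 209) (.e (nat_lit 1221) (nat_lit 90) (.e (nat_lit 81953) (nat_lit 22) (.e (nat_lit 90160) (nat_lit 11) (.e (nat_lit 24599) (nat_lit 1) .nil))))) .nil)) 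
(.lf (nat_lit 179838) (.g (nat_lit 2964) (.e (nat_lit 65280) (nat_lit 209) (.e (nat_lit 1220) (nat_lit 90) (.e (nat_lit 81953) (nat_lit 22) (.e (nat_lit 90160) (nat_lit 11) .nil)))) .nil)))))))) (.nd (nat_lit 1) (.nd (nat_lit 2) (.nd (nat_lit 3) (.nd (nat_lit 4) (.nd (nat_lit 5) (.nd (nat_lit 6) 
(.lf (nat_lit 179713) (.g (nat_lit 2085) (.e (nat_lit 65280) (nat_lit 206) (.e (nat_lit 180250) (nat_lit 10) (.e (nat_lit 573471) (nat_lit 11) (.e (nat_lit 16453) (nat_lit 11) (.e (nat_lit 466688) (nat_lit 19) .nil))))) .nil)) 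
(.lf (nat_lit 179777) (.g (nat_lit 3434) (.e (nat_lit 57754) (nat_lit 209) (.e (nat_lit 1221) (nat_lit 90) (.e (nat_lit 81956) (nat_lit 23) (.e (nat_lit 98312) (nat_lit 9) .nil)))) .nil))) (.nd (nat_lit 6) 
(.lf (nat_lit 179745) (.g (nat_lit 3037) (.e (nat_lit 57754) (nat_lit 209) (.e (nat_lit 1219) (nat_lit 90) (.e (nat_lit 81953) (nat_lit 22) (.e (nat_lit 90160) (nat_lit 11) .nil)))) .nil)) 
(.lf (nat_lit 179809) (.g (nat_lit 4281) (.e (nat_lit 57755) (nat_lit 209) (.e (nat_lit 1221) (nat_lit 90) (.e (nat_lit 81953) (nat_lit 22) (.e (nat_lit 90160) (nat_lit 11) (.e (nat_lit 24598) (nat_lit 1) .nil))))) .nil)))) (.nd (nat_lit 5) (.nd (nat_lit 6) 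
(.lf (nat_lit 179729) (.g (nat_lit 3829) (.e (nat_lit 57754) (nat_lit 209) (.e (nat_lit 1190) (nat_lit 88) (.e (nat_lit 65619) (nat_lit 10) (.e (nat_lit 344117) (nat_lit 21) (.e (nat_lit 516195) (nat_lit 26) (.e (nat_lit 335996) (nat_lit 1) (.e (nat_lit 57854) (nat_lit 252) (.e (nat_lit 57363) (nat_lit 1) .nil)))))))) (.g (nat_lit 7) .nil .nil))) 
(.lf (nat_lit 179793) (.g (nat_lit 1346) (.e (nat_lit 57755) (nat_lit 209) (.e (nat_lit 1219) (nat_lit 90) (.e (nat_lit 81954) (nat_lit 23) (.e (nat_lit 98313) (nat_lit 9) .nil)))) .nil))) (.nd (nat_lit 6) 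
(.lf (nat_lit 179761) (.g (nat_lit 3459) (.e (nat_lit 57754) (nat_lit 209) (.e (nat_lit 1220) (nat_lit 90) (.e (nat_lit 81956) (nat_lit 23) (.e (nat_lit 98312) (nat_lit 9) .nil)))) .nil)) 
(.lf (nat_lit 179825) (.g (nat_lit 1772) (.e (nat_lit 65280) (nat_lit 209) (.e (nat_lit 1216) (nat_lit 90) (.e (nat_lit 81954) (nat_lit 23) (.e (nat_lit 98313) (nat_lit 9) (.e (nat_lit 335996) (nat_lit 1) .nil))))) .nil))))) (.nd (nat_lit 4) (.nd (nat_lit 5) (.nd (nat_lit 6) 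
(.lf (nat_lit 179721) (.g (nat_lit 429) (.e (nat_lit 65280) (nat_lit 208) (.e (nat_lit 237589) (nat_lit 2) (.e (nat_lit 196628) (nat_lit 9) (.e (nat_lit 970) (nat_lit 81) .nil)))) .nil)) 
(.lf (nat_lit 179785) (.g (nat_lit 1792) (.e (nat_lit 57754) (nat_lit 209) (.e (nat_lit 1221) (nat_lit 90) (.e (nat_lit 81959) (nat_lit 24) (.e (nat_lit 123228) (nat_lit 282) .nil)))) .nil))) (.nd (nat_lit 6) 
(.lf (nat_lit 179753) (.g (nat_lit 2817) (.e (nat_lit 57754) (nat_lit 209) (.e (nat_lit 1219) (nat_lit 90) (.e (nat_lit 81956) (nat_lit 23) (.e (nat_lit 98313) (nat_lit 9) (.e (nat_lit 335995) (nat_lit 1) .nil))))) .nil)) 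
(.lf (nat_lit 179817) (.g (nat_lit 1751) (.e (nat_lit 57755) (nat_lit 209) (.e (nat_lit 1221) (nat_lit 90) (.e (nat_lit 81959) (nat_lit 24) (.e (nat_lit 123229) (nat_lit 282) .nil)))) .nil)))) (.nd (nat_lit 5) (.nd (nat_lit 6) 
(.lf (nat_lit 179737) (.g (nat_lit 2387) (.e (nat_lit 57754) (nat_lit 209) (.e (nat_lit 1218) (nat_lit 90) (.e (nat_lit 81956) (nat_lit 23) (.e (nat_lit 98313) (nat_lit 9) (.e (nat_lit 335986) (nat_lit 1) .nil))))) .nil)) 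
(.lf (nat_lit 179801) (.g (nat_lit 2734) (.e (nat_lit 57755) (nat_lit 209) (.e (nat_lit 1220) (nat_lit 90) (.e (nat_lit 81956) (nat_lit 23) (.e (nat_lit 98313) (nat_lit 9) .nil)))) .nil))) (.nd (nat_lit 6) 
(.lf (nat_lit 179769) (.g (nat_lit 665) (.e (nat_lit 57754) (nat_lit 209) (.e (nat_lit 1221) (nat_lit 90) (.e (nat_lit 81951) (nat_lit 22) .nil))) .nil)) 
(.lf (nat_lit 179833) (.g (nat_lit 1900) (.e (nat_lit 65280) (nat_lit 209) (.e (nat_lit 1217) (nat_lit 90) (.e (nat_lit 81956) (nat_lit 23) (.e (nat_lit 98313) (nat_lit 9) .nil)))) .nil)))))) (.nd (nat_lit 3) (.nd (nat_lit 4) (.nd (nat_lit 5) (.nd (nat_lit 6) 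
(.lf (nat_lit 179717) (.g (nat_lit 1479) (.e (nat_lit 65280) (nat_lit 206) (.e (nat_lit 180252) (nat_lit 10) (.e (nat_lit 573471) (nat_lit 11) (.e (nat_lit 16453) (nat_lit 11) .nil)))) .nil)) 
(.lf (nat_lit 179781) (.g (nat_lit 3450) (.e (nat_lit 57754) (nat_lit 209) (.e (nat_lit 1221) (nat_lit 90) (.e (nat_lit 81956) (nat_lit 23) (.e (nat_lit 98313) (nat_lit 9) (.e (nat_lit 335996) (nat_lit 1) .nil))))) .nil))) (.nd (nat_lit 6) 
(.lf (nat_lit 179749) (.g (nat_lit 2027) (.e (nat_lit 57754) (nat_lit 209) (.e (nat_lit 1219) (nat_lit 90) (.e (nat_lit 81954) (nat_lit 23) (.e (nat_lit 98313) (nat_lit 9) (.e (nat_lit 335996) (nat_lit 1) .nil))))) .nil)) 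
(.lf (nat_lit 179813) (.g (nat_lit 2708) (.e (nat_lit 57755) (nat_lit 209) (.e (nat_lit 1221) (nat_lit 90) (.e (nat_lit 81956) (nat_lit 23) (.e (nat_lit 98313) (nat_lit 9) .nil)))) .nil)))) (.nd (nat_lit 5) (.nd (nat_lit 6) 
(.lf (nat_lit 179733) (.g (nat_lit 4660) (.e (nat_lit 57754) (nat_lit 209) (.e (nat_lit 1200) (nat_lit 88) (.e (nat_lit 65619) (nat_lit 10) (.e (nat_lit 344117) (nat_lit 21) (.e (nat_lit 516195) (nat_lit 26) (.e (nat_lit 335986) (nat_lit 1) (.e (nat_lit 57847) (nat_lit 252) (.e (nat_lit 57365) (nat_lit 1) .nil)))))))) (.g (nat_lit 8) .nil .nil))) 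
(.lf (nat_lit 179797) (.g (nat_lit 4671) (.e (nat_lit 57755) (nat_lit 209) (.e (nat_lit 1220) (nat_lit 90) (.e (nat_lit 81953) (nat_lit 22) (.e (nat_lit 90158) (nat_lit 11) .nil)))) .nil))) (.nd (nat_lit 6) 
(.lf (nat_lit 179765) (.g (nat_lit 3493) (.e (nat_lit 57754) (nat_lit 209) (.e (nat_lit 1220) (nat_lit 90) (.e (nat_lit 81956) (nat_lit 23) (.e (nat_lit 98313) (nat_lit 9) (.e (nat_lit 335996) (nat_lit 1) .nil))))) .nil)) 
(.lf (nat_lit 179829) (.g (nat_lit 2540) (.e (nat_lit 65280) (nat_lit 209) (.e (nat_lit 1216) (nat_lit 90) (.e (nat_lit 81956) (nat_lit 23) (.e (nat_lit 98313) (nat_lit 9) (.e (nat_lit 335996) (nat_lit 1) .nil))))) .nil))))) (.nd (nat_lit 4) (.nd (nat_lit 5) (.nd (nat_lit 6) 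
(.lf (nat_lit 179725) (.g (nat_lit 2621) (.e (nat_lit 57753) (nat_lit 209) (.e (nat_lit 1218) (nat_lit 90) (.e (nat_lit 81953) (nat_lit 22) (.e (nat_lit 90160) (nat_lit 11) .nil)))) .nil)) 
(.lf (nat_lit 179789) (.g (nat_lit 2579) (.e (nat_lit 57755) (nat_lit 209) (.e (nat_lit 1196) (nat_lit 88) (.e (nat_lit 65610) (nat_lit 10) (.e (nat_lit 344117) (nat_lit 21) (.e (nat_lit 516195) (nat_lit 26) .nil))))) .nil))) (.nd (nat_lit 6) 
(.lf (nat_lit 179757) (.g (nat_lit 3547) (.e (nat_lit 57754) (nat_lit 209) (.e (nat_lit 1220) (nat_lit 90) (.e (nat_lit 81953) (nat_lit 22) (.e (nat_lit 90160) (nat_lit 11) .nil)))) .nil)) 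
(.lf (nat_lit 179821) (.g (nat_lit 3210) (.e (nat_lit 65280) (nat_lit 209) (.e (nat_lit 1201) (nat_lit 88) (.e (nat_lit 65610) (nat_lit 10) (.e (nat_lit 344117) (nat_lit 21) (.e (nat_lit 516195) (nat_lit 26) .nil))))) .nil)))) (.nd (nat_lit 5) (.nd (nat_lit 6) 
(.lf (nat_lit 179741) (.g (nat_lit 2490) (.e (nat_lit 57754) (nat_lit 209) (.e (nat_lit 1218) (nat_lit 90) (.e (nat_lit 81956) (nat_lit 23) (.e (nat_lit 98313) (nat_lit 9) (.e (nat_lit 335995) (nat_lit 1) (.e (nat_lit 57848) (nat_lit 252) (.e (nat_lit 57368) (nat_lit 1) .nil))))))) (.g (nat_lit 4) .nil .nil))) 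
(.lf (nat_lit 179805) (.g (nat_lit 3463) (.e (nat_lit 57755) (nat_lit 209) (.e (nat_lit 1220) (nat_lit 90) (.e (nat_lit 81956) (nat_lit 23) (.e (nat_lit 98317) (nat_lit 9) .nil)))) .nil))) (.nd (nat_lit 6) 
(.lf (nat_lit 179773) (.g (nat_lit 4226) (.e (nat_lit 57754) (nat_lit 209) (.e (nat_lit 1221) (nat_lit 90) (.e (nat_lit 81953) (nat_lit 22) (.e (nat_lit 90160) (nat_lit 11) (.e (nat_lit 24598) (nat_lit 1) .nil))))) .nil)) 
(.lf (nat_lit 179837) (.g (nat_lit 4076) (.e (nat_lit 65280) (nat_lit 209) (.e (nat_lit 1220) (nat_lit 90) (.e (nat_lit 81953) (nat_lit 22) (.e (nat_lit 90158) (nat_lit 11) .nil)))) .nil))))))) (.nd (nat_lit 2) (.nd (nat_lit 3) (.nd (nat_lit 4) (.nd (nat_lit 5) (.nd (nat_lit 6) 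
(.lf (nat_lit 179715) (.g (nat_lit 703) (.e (nat_lit 65280) (nat_lit 206) (.e (nat_lit 180251) (nat_lit 10) (.e (nat_lit 573457) (nat_lit 9) (.e (nat_lit 430) (nat_lit 32) .nil)))) .nil)) 
(.lf (nat_lit 179779) (.g (nat_lit 3502) (.e (nat_lit 57754) (nat_lit 209) (.e (nat_lit 1221) (nat_lit 90) (.e (nat_lit 81956) (nat_lit 23) (.e (nat_lit 98313) (nat_lit 9) (.e (nat_lit 335988) (nat_lit 1) .nil))))) .nil))) (.nd (nat_lit 6) 
(.lf (nat_lit 179747) (.g (nat_lit 2071) (.e (nat_lit 57754) (nat_lit 209) (.e (nat_lit 1219) (nat_lit 90) (.e (nat_lit 81954) (nat_lit 23) (.e (nat_lit 98313) (nat_lit 9) (.e (nat_lit 335986) (nat_lit 1) .nil))))) .nil)) 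
(.lf (nat_lit 179811) (.g (nat_lit 1710) (.e (nat_lit 57755) (nat_lit 209) (.e (nat_lit 1221) (nat_lit 90) (.e (nat_lit 81954) (nat_lit 23) (.e (nat_lit 98313) (nat_lit 9) .nil)))) .nil)))) (.nd (nat_lit 5) (.nd (nat_lit 6) 
(.lf (nat_lit 179731) (.g (nat_lit 1995) (.e (nat_lit 57754) (nat_lit 209) (.e (nat_lit 1200) (nat_lit 88) (.e (nat_lit 65619) (nat_lit 10) (.e (nat_lit 344117) (nat_lit 21) (.e (nat_lit 516195) (nat_lit 26) .nil))))) .nil)) 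
(.lf (nat_lit 179795) (.g (nat_lit 2012) (.e (nat_lit 57755) (nat_lit 209) (.e (nat_lit 1219) (nat_lit 90) (.e (nat_lit 81956) (nat_lit 23) (.e (nat_lit 98313) (nat_lit 9) .nil)))) .nil))) (.nd (nat_lit 6) 
(.lf (nat_lit 179763) (.g (nat_lit 3546) (.e (nat_lit 57754) (nat_lit 209) (.e (nat_lit 1220) (nat_lit 90) (.e (nat_lit 81956) (nat_lit 23) (.e (nat_lit 98313) (nat_lit 9) (.e (nat_lit 335988) (nat_lit 1) .nil))))) .nil)) 
(.lf (nat_lit 179827) (.g (nat_lit 2564) (.e (nat_lit 65280) (nat_lit 209) (.e (nat_lit 1216) (nat_lit 90) (.e (nat_lit 81956) (nat_lit 23) (.e (nat_lit 98313) (nat_lit 9) (.e (nat_lit 335986) (nat_lit 1) .nil))))) .nil))))) (.nd (nat_lit 4) (.nd (nat_lit 5) (.nd (nat_lit 6) 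
(.lf (nat_lit 179723) (.g (nat_lit 2673) (.e (nat_lit 57752) (nat_lit 209) (.e (nat_lit 1218) (nat_lit 90) (.e (nat_lit 81956) (nat_lit 23) (.e (nat_lit 98313) (nat_lit 9) (.e (nat_lit 335986) (nat_lit 1) (.e (nat_lit 57847) (nat_lit 252) (.e (nat_lit 57365) (nat_lit 1) .nil))))))) (.g (nat_lit 4) .nil .nil))) 
(.lf (nat_lit 179787) (.g (nat_lit 481) (.e (nat_lit 57754) (nat_lit 209) (.e (nat_lit 1221) (nat_lit 90) (.e (nat_lit 81962) (nat_lit 25) .nil))) .nil))) (.nd (nat_lit 6) 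
(.lf (nat_lit 179755) (.g (nat_lit 3286) (.e (nat_lit 57754) (nat_lit 209) (.e (nat_lit 1220) (nat_lit 90) (.e (nat_lit 81953) (nat_lit 22) (.e (nat_lit 90157) (nat_lit 11) .nil)))) .nil)) 
(.lf (nat_lit 179819) (.g (nat_lit 2234) (.e (nat_lit 65280) (nat_lit 209) (.e (nat_lit 1199) (nat_lit 88) (.e (nat_lit 65610) (nat_lit 10) (.e (nat_lit 344117) (nat_lit 21) (.e (nat_lit 516195) (nat_lit 26) .nil))))) .nil)))) (.nd (nat_lit 5) (.nd (nat_lit 6) 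
(.lf (nat_lit 179739) (.g (nat_lit 2565) (.e (nat_lit 57754) (nat_lit 209) (.e (nat_lit 1218) (nat_lit 90) (.e (nat_lit 81956) (nat_lit 23) (.e (nat_lit 98313) (nat_lit 9) (.e (nat_lit 335995) (nat_lit 1) (.e (nat_lit 57848) (nat_lit 252) (.e (nat_lit 57365) (nat_lit 1) .nil))))))) (.g (nat_lit 4) .nil .nil))) 
(.lf (nat_lit 179803) (.g (nat_lit 3501) (.e (nat_lit 57755) (nat_lit 209) (.e (nat_lit 1220) (nat_lit 90) (.e (nat_lit 81956) (nat_lit 23) (.e (nat_lit 98313) (nat_lit 9) (.e (nat_lit 335996) (nat_lit 1) .nil))))) .nil))) (.nd (nat_lit 6) 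
(.lf (nat_lit 179771) (.g (nat_lit 4227) (.e (nat_lit 57754) (nat_lit 209) (.e (nat_lit 1221) (nat_lit 90) (.e (nat_lit 81953) (nat_lit 22) (.e (nat_lit 90158) (nat_lit 11) .nil)))) .nil)) 
(.lf (nat_lit 179835) (.g (nat_lit 2753) (.e (nat_lit 65280) (nat_lit 209) (.e (nat_lit 1217) (nat_lit 90) (.e (nat_lit 81956) (nat_lit 23) (.e (nat_lit 98313) (nat_lit 9) (.e (nat_lit 335995) (nat_lit 1) .nil))))) .nil)))))) (.nd (nat_lit 3) (.nd (nat_lit 4) (.nd (nat_lit 5) (.nd (nat_lit 6) 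
(.lf (nat_lit 179719) (.g (nat_lit 1961) (.e (nat_lit 65280) (nat_lit 206) (.e (nat_lit 180252) (nat_lit 10) (.e (nat_lit 573471) (nat_lit 11) (.e (nat_lit 16453) (nat_lit 11) (.e (nat_lit 466688) (nat_lit 19) .nil))))) .nil)) 
(.lf (nat_lit 179783) (.g (nat_lit 3434) (.e (nat_lit 57754) (nat_lit 209) (.e (nat_lit 1221) (nat_lit 90) (.e (nat_lit 81956) (nat_lit 23) (.e (nat_lit 98316) (nat_lit 9) .nil)))) .nil))) (.nd (nat_lit 6) 
(.lf (nat_lit 179751) (.g (nat_lit 2012) (.e (nat_lit 57754) (nat_lit 209) (.e (nat_lit 1219) (nat_lit 90) (.e (nat_lit 81956) (nat_lit 23) (.e (nat_lit 98313) (nat_lit 9) .nil)))) .nil)) 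
(.lf (nat_lit 179815) (.g (nat_lit 3464) (.e (nat_lit 57755) (nat_lit 209) (.e (nat_lit 1221) (nat_lit 90) (.e (nat_lit 81956) (nat_lit 23) (.e (nat_lit 98317) (nat_lit 9) .nil)))) .nil)))) (.nd (nat_lit 5) (.nd (nat_lit 6) 
(.lf (nat_lit 179735) (.g (nat_lit 4558) (.e (nat_lit 57754) (nat_lit 209) (.e (nat_lit 1200) (nat_lit 88) (.e (nat_lit 65619) (nat_lit 10) (.e (nat_lit 344117) (nat_lit 21) (.e (nat_lit 516195) (nat_lit 26) (.e (nat_lit 335995) (nat_lit 1) (.e (nat_lit 57847) (nat_lit 252) (.e (nat_lit 57365) (nat_lit 1) .nil)))))))) (.g (nat_lit 8) .nil .nil))) 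
(.lf (nat_lit 179799) (.g (nat_lit 4456) (.e (nat_lit 57755) (nat_lit 209) (.e (nat_lit 1220) (nat_lit 90) (.e (nat_lit 81953) (nat_lit 22) (.e (nat_lit 90160) (nat_lit 11) (.e (nat_lit 24599) (nat_lit 1) .nil))))) .nil))) (.nd (nat_lit 6) 
(.lf (nat_lit 179767) (.g (nat_lit 3459) (.e (nat_lit 57754) (nat_lit 209) (.e (nat_lit 1220) (nat_lit 90) (.e (nat_lit 81956) (nat_lit 23) (.e (nat_lit 98316) (nat_lit 9) .nil)))) .nil)) 
(.lf (nat_lit 179831) (.g (nat_lit 1383) (.e (nat_lit 65280) (nat_lit 209) (.e (nat_lit 1217) (nat_lit 90) (.e (nat_lit 81955) (nat_lit 23) (.e (nat_lit 98313) (nat_lit 9) (.e (nat_lit 335986) (nat_lit 1) .nil))))) .nil))))) (.nd (nat_lit 4) (.nd (nat_lit 5) (.nd (nat_lit 6) 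
(.lf (nat_lit 179727) (.g (nat_lit 3409) (.e (nat_lit 57754) (nat_lit 209) (.e (nat_lit 1178) (nat_lit 87) (.e (nat_lit 57480) (nat_lit 28) (.e (nat_lit 557108) (nat_lit 15) (.e (nat_lit 188452) (nat_lit 23) (.e (nat_lit 204830) (nat_lit 18) (.e (nat_lit 65280) (nat_lit 230) (.e (nat_lit 122888) (nat_lit 1) .nil)))))))) (.g (nat_lit 6) .nil .nil))) 
(.lf (nat_lit 179791) (.g (nat_lit 1995) (.e (nat_lit 57755) (nat_lit 209) (.e (nat_lit 1200) (nat_lit 88) (.e (nat_lit 65619) (nat_lit 10) (.e (nat_lit 344117) (nat_lit 21) (.e (nat_lit 516195) (nat_lit 26) .nil))))) .nil))) (.nd (nat_lit 6) 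
(.lf (nat_lit 179759) (.g (nat_lit 4757) (.e (nat_lit 57754) (nat_lit 209) (.e (nat_lit 1220) (nat_lit 90) (.e (nat_lit 81953) (nat_lit 22) (.e (nat_lit 90160) (nat_lit 11) (.e (nat_lit 24598) (nat_lit 1) .nil))))) .nil)) 
(.lf (nat_lit 179823) (.g (nat_lit 1815) (.e (nat_lit 65280) (nat_lit 209) (.e (nat_lit 1216) (nat_lit 90) (.e (nat_lit 81954) (nat_lit 23) (.e (nat_lit 98313) (nat_lit 9) (.e (nat_lit 335986) (nat_lit 1) .nil))))) .nil)))) (.nd (nat_lit 5) (.nd (nat_lit 6) 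
(.lf (nat_lit 179743) (.g (nat_lit 1624) (.e (nat_lit 57754) (nat_lit 209) (.e (nat_lit 1219) (nat_lit 90) (.e (nat_lit 81951) (nat_lit 22) (.e (nat_lit 90158) (nat_lit 11) .nil)))) .nil)) 
(.lf (nat_lit 179807) (.g (nat_lit 4282) (.e (nat_lit 57755) (nat_lit 209) (.e (nat_lit 1221) (nat_lit 90) (.e (nat_lit 81953) (nat_lit 22) (.e (nat_lit 90158) (nat_lit 11) .nil)))) .nil))) (.nd (nat_lit 6) 
(.lf (nat_lit 179775) (.g (nat_lit 1689) (.e (nat_lit 57754) (nat_lit 209) (.e (nat_lit 1221) (nat_lit 90) (.e (nat_lit 81954) (nat_lit 23) (.e (nat_lit 98313) (nat_lit 9) .nil)))) .nil)) 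
(.lf (nat_lit 179839) (.g (nat_lit 3871) (.e (nat_lit 65280) (nat_lit 209) (.e (nat_lit 1220) (nat_lit 90) (.e (nat_lit 81953) (nat_lit 22) (.e (nat_lit 90160) (nat_lit 11) (.e (nat_lit 24599) (nat_lit 1) .nil))))) .nil)))))))))

noncomputable def tv2411 : DT := (.nd (nat_lit 0) (.nd (nat_lit 1) (.nd (nat_lit 2) (.nd (nat_lit 3) (.nd (nat_lit 4) (.nd (nat_lit 5) (.nd (nat_lit 6) 
(.lf (nat_lit 179840) (.g (nat_lit 2282) (.e (nat_lit 65280) (nat_lit 209) (.e (nat_lit 1220) (nat_lit 90) (.e (nat_lit 81956) (nat_lit 23) (.e (nat_lit 98313) (nat_lit 9) .nil)))) .nil)) 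
(.lf (nat_lit 179904) (.g (nat_lit 4597) (.e (nat_lit 65280) (nat_lit 217) (.e (nat_lit 57379) (nat_lit 3) (.e (nat_lit 98373) (nat_lit 29) (.e (nat_lit 450588) (nat_lit 10) (.e (nat_lit 573475) (nat_lit 12) .nil))))) .nil))) (.nd (nat_lit 6) 
(.lf (nat_lit 179872) (.g (nat_lit 2923) (.e (nat_lit 65280) (nat_lit 211) (.e (nat_lit 57378) (nat_lit 3) (.e (nat_lit 98356) (nat_lit 26) (.e (nat_lit 426438) (nat_lit 18) (.e (nat_lit 98367) (nat_lit 27) .nil))))) .nil)) 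
(.lf (nat_lit 179936) (.g (nat_lit 942) (.e (nat_lit 65280) (nat_lit 223) (.e (nat_lit 57411) (nat_lit 12) (.e (nat_lit 336018) (nat_lit 3) .nil))) .nil)))) (.nd (nat_lit 5) (.nd (nat_lit 6) 
(.lf (nat_lit 179856) (.g (nat_lit 933) (.e (nat_lit 65280) (nat_lit 211) (.e (nat_lit 57373) (nat_lit 2) (.e (nat_lit 90178) (nat_lit 15) (.e (nat_lit 196352) (nat_lit 18) .nil)))) .nil)) 
(.lf (nat_lit 179920) (.g (nat_lit 1815) (.e (nat_lit 65280) (nat_lit 221) (.e (nat_lit 1201) (nat_lit 88) (.e (nat_lit 65569) (nat_lit 3) (.e (nat_lit 98372) (nat_lit 29) (.e (nat_lit 450579) (nat_lit 5) .nil))))) .nil))) (.nd (nat_lit 6) 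
(.lf (nat_lit 179888) (.g (nat_lit 523) (.e (nat_lit 65280) (nat_lit 211) (.e (nat_lit 57379) (nat_lit 3) (.e (nat_lit 98363) (nat_lit 26) .nil))) .nil)) 
(.lf (nat_lit 179952) (.g (nat_lit 3071) (.e (nat_lit 65280) (nat_lit 233) (.e (nat_lit 2555) (nat_lit 159) (.e (nat_lit 24608) (nat_lit 3) (.e (nat_lit 98372) (nat_lit 29) (.e (nat_lit 450579) (nat_lit 5) .nil))))) .nil))))) (.nd (nat_lit 4) (.nd (nat_lit 5) (.nd (nat_lit 6) 
(.lf (nat_lit 179848) (.g (nat_lit 2068) (.e (nat_lit 65280) (nat_lit 209) (.e (nat_lit 1222) (nat_lit 90) (.e (nat_lit 81954) (nat_lit 23) (.e (nat_lit 98313) (nat_lit 9) (.e (nat_lit 335996) (nat_lit 1) .nil))))) .nil)) 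
(.lf (nat_lit 179912) (.g (nat_lit 576) (.e (nat_lit 65280) (nat_lit 217) (.e (nat_lit 57448) (nat_lit 19) (.e (nat_lit 393234) (nat_lit 17) .nil))) .nil))) (.nd (nat_lit 6) 
(.lf (nat_lit 179880) (.g (nat_lit 977) (.e (nat_lit 65280) (nat_lit 211) (.e (nat_lit 57378) (nat_lit 3) (.e (nat_lit 98385) (nat_lit 32) .nil))) .nil)) 
(.lf (nat_lit 179944) (.g (nat_lit 3487) (.e (nat_lit 57776) (nat_lit 233) (.e (nat_lit 2508) (nat_lit 157) (.e (nat_lit 247) (nat_lit 21) (.e (nat_lit 336027) (nat_lit 3) (.e (nat_lit 98372) (nat_lit 29) (.e (nat_lit 450579) (nat_lit 5) (.e (nat_lit 532501) (nat_lit 1) .nil))))))) (.g (nat_lit 7) .nil .nil))))) (.nd (nat_lit 5) (.nd (nat_lit 6) 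
(.lf (nat_lit 179864) (.g (nat_lit 2977) (.e (nat_lit 65280) (nat_lit 211) (.e (nat_lit 57377) (nat_lit 3) (.e (nat_lit 98384) (nat_lit 32) (.e (nat_lit 475177) (nat_lit 24) (.e (nat_lit 516169) (nat_lit 13) .nil))))) .nil)) 
(.lf (nat_lit 179928) (.g (nat_lit 1290) (.e (nat_lit 65280) (nat_lit 221) (.e (nat_lit 1211) (nat_lit 89) (.e (nat_lit 73748) (nat_lit 3) (.e (nat_lit 516165) (nat_lit 12) (.e (nat_lit 450579) (nat_lit 5) .nil))))) .nil))) (.nd (nat_lit 6) 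
(.lf (nat_lit 179896) (.g (nat_lit 1731) (.e (nat_lit 57760) (nat_lit 215) (.e (nat_lit 1190) (nat_lit 88) (.e (nat_lit 65571) (nat_lit 3) (.e (nat_lit 98350) (nat_lit 24) .nil)))) .nil)) 
(.lf (nat_lit 179960) (.g (nat_lit 517) (.e (nat_lit 57783) (nat_lit 239) (.e (nat_lit 2610) (nat_lit 163) (.e (nat_lit 164023) (nat_lit 46) .nil))) .nil)))))) (.nd (nat_lit 3) (.nd (nat_lit 4) (.nd (nat_lit 5) (.nd (nat_lit 6) 
(.lf (nat_lit 179844) (.g (nat_lit 2964) (.e (nat_lit 65280) (nat_lit 209) (.e (nat_lit 1220) (nat_lit 90) (.e (nat_lit 81956) (nat_lit 23) (.e (nat_lit 98317) (nat_lit 9) .nil)))) .nil)) 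
(.lf (nat_lit 179908) (.g (nat_lit 2812) (.e (nat_lit 65280) (nat_lit 217) (.e (nat_lit 57447) (nat_lit 19) (.e (nat_lit 393301) (nat_lit 27) (.e (nat_lit 491558) (nat_lit 10) (.e (nat_lit 344096) (nat_lit 18) .nil))))) .nil))) (.nd (nat_lit 6) 
(.lf (nat_lit 179876) (.g (nat_lit 2308) (.e (nat_lit 65280) (nat_lit 211) (.e (nat_lit 57378) (nat_lit 3) (.e (nat_lit 98384) (nat_lit 32) (.e (nat_lit 475177) (nat_lit 24) (.e (nat_lit 516150) (nat_lit 9) .nil))))) .nil)) 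
(.lf (nat_lit 179940) (.g (nat_lit 244) (.e (nat_lit 65280) (nat_lit 231) (.e (nat_lit 163878) (nat_lit 4) (.e (nat_lit 220928) (nat_lit 5) .nil))) .nil)))) (.nd (nat_lit 5) (.nd (nat_lit 6) 
(.lf (nat_lit 179860) (.g (nat_lit 2530) (.e (nat_lit 65280) (nat_lit 211) (.e (nat_lit 57377) (nat_lit 3) (.e (nat_lit 98356) (nat_lit 26) (.e (nat_lit 426428) (nat_lit 17) (.e (nat_lit 90174) (nat_lit 14) .nil))))) .nil)) 
(.lf (nat_lit 179924) (.g (nat_lit 1484) (.e (nat_lit 65280) (nat_lit 221) (.e (nat_lit 1209) (nat_lit 89) (.e (nat_lit 73747) (nat_lit 3) (.e (nat_lit 516166) (nat_lit 12) .nil)))) .nil))) (.nd (nat_lit 6) 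
(.lf (nat_lit 179892) (.g (nat_lit 2401) (.e (nat_lit 65280) (nat_lit 211) (.e (nat_lit 57379) (nat_lit 3) (.e (nat_lit 98384) (nat_lit 32) (.e (nat_lit 475177) (nat_lit 24) (.e (nat_lit 516169) (nat_lit 13) .nil))))) .nil)) 
(.lf (nat_lit 179956) (.g (nat_lit 1485) (.e (nat_lit 65280) (nat_lit 233) (.e (nat_lit 2558) (nat_lit 159) (.e (nat_lit 24604) (nat_lit 2) (.e (nat_lit 90176) (nat_lit 15) (.e (nat_lit 188450) (nat_lit 23) .nil))))) .nil))))) (.nd (nat_lit 4) (.nd (nat_lit 5) (.nd (nat_lit 6) 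
(.lf (nat_lit 179852) (.g (nat_lit 2827) (.e (nat_lit 65280) (nat_lit 209) (.e (nat_lit 1224) (nat_lit 90) (.e (nat_lit 81956) (nat_lit 23) (.e (nat_lit 98313) (nat_lit 9) (.e (nat_lit 335986) (nat_lit 1) .nil))))) .nil)) 
(.lf (nat_lit 179916) (.g (nat_lit 1201) (.e (nat_lit 65280) (nat_lit 217) (.e (nat_lit 57448) (nat_lit 19) (.e (nat_lit 393301) (nat_lit 27) (.e (nat_lit 491560) (nat_lit 10) .nil)))) .nil))) (.nd (nat_lit 6) 
(.lf (nat_lit 179884) (.g (nat_lit 2687) (.e (nat_lit 65280) (nat_lit 211) (.e (nat_lit 57379) (nat_lit 3) (.e (nat_lit 98356) (nat_lit 26) (.e (nat_lit 426438) (nat_lit 18) (.e (nat_lit 98358) (nat_lit 26) .nil))))) .nil)) 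
(.lf (nat_lit 179948) (.g (nat_lit 3739) (.e (nat_lit 57776) (nat_lit 233) (.e (nat_lit 2510) (nat_lit 157) (.e (nat_lit 247) (nat_lit 21) (.e (nat_lit 336027) (nat_lit 3) (.e (nat_lit 98372) (nat_lit 29) (.e (nat_lit 450579) (nat_lit 5) (.e (nat_lit 532504) (nat_lit 1) .nil))))))) (.g (nat_lit 7) .nil .nil))))) (.nd (nat_lit 5) (.nd (nat_lit 6) 
(.lf (nat_lit 179868) (.g (nat_lit 2194) (.e (nat_lit 65280) (nat_lit 211) (.e (nat_lit 57378) (nat_lit 3) (.e (nat_lit 98356) (nat_lit 26) (.e (nat_lit 426428) (nat_lit 17) .nil)))) .nil)) 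
(.lf (nat_lit 179932) (.g (nat_lit 1723) (.e (nat_lit 65280) (nat_lit 221) (.e (nat_lit 1212) (nat_lit 89) (.e (nat_lit 73747) (nat_lit 3) (.e (nat_lit 516167) (nat_lit 12) (.e (nat_lit 450579) (nat_lit 5) .nil))))) .nil))) (.nd (nat_lit 6) 
(.lf (nat_lit 179900) (.g (nat_lit 752) (.e (nat_lit 65280) (nat_lit 216) (.e (nat_lit 8305) (nat_lit 58) (.e (nat_lit 286734) (nat_lit 3) (.e (nat_lit 98372) (nat_lit 29) .nil)))) .nil)) 
(.lf (nat_lit 179964) (.g (nat_lit 2462) (.e (nat_lit 65280) (nat_lit 241) (.e (nat_lit 57371) (nat_lit 2) (.e (nat_lit 90176) (nat_lit 15) (.e (nat_lit 188450) (nat_lit 23) (.e (nat_lit 204858) (nat_lit 26) .nil))))) .nil))))))) (.nd (nat_lit 2) (.nd (nat_lit 3) (.nd (nat_lit 4) (.nd (nat_lit 5) (.nd (nat_lit 6) 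
(.lf (nat_lit 179842) (.g (nat_lit 2996) (.e (nat_lit 65280) (nat_lit 209) (.e (nat_lit 1220) (nat_lit 90) (.e (nat_lit 81956) (nat_lit 23) (.e (nat_lit 98313) (nat_lit 9) (.e (nat_lit 335995) (nat_lit 1) .nil))))) .nil)) 
(.lf (nat_lit 179906) (.g (nat_lit 2772) (.e (nat_lit 65280) (nat_lit 217) (.e (nat_lit 57447) (nat_lit 19) (.e (nat_lit 393301) (nat_lit 27) (.e (nat_lit 491558) (nat_lit 10) (.e (nat_lit 344091) (nat_lit 18) .nil))))) .nil))) (.nd (nat_lit 6) 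
(.lf (nat_lit 179874) (.g (nat_lit 2900) (.e (nat_lit 65280) (nat_lit 211) (.e (nat_lit 57378) (nat_lit 3) (.e (nat_lit 98356) (nat_lit 26) (.e (nat_lit 426438) (nat_lit 18) (.e (nat_lit 98377) (nat_lit 30) .nil))))) .nil)) 
(.lf (nat_lit 179938) (.g (nat_lit 1398) (.e (nat_lit 65280) (nat_lit 223) (.e (nat_lit 57412) (nat_lit 12) (.e (nat_lit 336024) (nat_lit 3) (.e (nat_lit 98372) (nat_lit 29) (.e (nat_lit 450579) (nat_lit 5) .nil))))) .nil)))) (.nd (nat_lit 5) (.nd (nat_lit 6) 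
(.lf (nat_lit 179858) (.g (nat_lit 1317) (.e (nat_lit 65280) (nat_lit 211) (.e (nat_lit 57375) (nat_lit 2) (.e (nat_lit 90176) (nat_lit 15) (.e (nat_lit 196352) (nat_lit 18) .nil)))) .nil)) 
(.lf (nat_lit 179922) (.g (nat_lit 681) (.e (nat_lit 65280) (nat_lit 221) (.e (nat_lit 1209) (nat_lit 89) (.e (nat_lit 73745) (nat_lit 3) (.e (nat_lit 516165) (nat_lit 12) .nil)))) .nil))) (.nd (nat_lit 6) 
(.lf (nat_lit 179890) (.g (nat_lit 1230) (.e (nat_lit 65280) (nat_lit 211) (.e (nat_lit 57379) (nat_lit 3) (.e (nat_lit 98370) (nat_lit 28) (.e (nat_lit 450304) (nat_lit 18) .nil)))) .nil)) 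
(.lf (nat_lit 179954) (.g (nat_lit 2834) (.e (nat_lit 65280) (nat_lit 233) (.e (nat_lit 2556) (nat_lit 159) (.e (nat_lit 24608) (nat_lit 3) (.e (nat_lit 98372) (nat_lit 29) (.e (nat_lit 450579) (nat_lit 5) .nil))))) .nil))))) (.nd (nat_lit 4) (.nd (nat_lit 5) (.nd (nat_lit 6) 
(.lf (nat_lit 179850) (.g (nat_lit 1554) (.e (nat_lit 65280) (nat_lit 209) (.e (nat_lit 1224) (nat_lit 90) (.e (nat_lit 81955) (nat_lit 23) (.e (nat_lit 98313) (nat_lit 9) (.e (nat_lit 335986) (nat_lit 1) .nil))))) .nil)) 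
(.lf (nat_lit 179914) (.g (nat_lit 3195) (.e (nat_lit 65280) (nat_lit 217) (.e (nat_lit 57448) (nat_lit 19) (.e (nat_lit 393301) (nat_lit 27) (.e (nat_lit 491559) (nat_lit 10) (.e (nat_lit 344091) (nat_lit 18) .nil))))) .nil))) (.nd (nat_lit 6) 
(.lf (nat_lit 179882) (.g (nat_lit 2517) (.e (nat_lit 65280) (nat_lit 211) (.e (nat_lit 57379) (nat_lit 3) (.e (nat_lit 98356) (nat_lit 26) (.e (nat_lit 426436) (nat_lit 18) (.e (nat_lit 98376) (nat_lit 30) .nil))))) .nil)) 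
(.lf (nat_lit 179946) (.g (nat_lit 3397) (.e (nat_lit 57776) (nat_lit 233) (.e (nat_lit 2509) (nat_lit 157) (.e (nat_lit 247) (nat_lit 21) (.e (nat_lit 336027) (nat_lit 3) (.e (nat_lit 98372) (nat_lit 29) (.e (nat_lit 450579) (nat_lit 5) (.e (nat_lit 532501) (nat_lit 1) .nil))))))) (.g (nat_lit 7) .nil .nil))))) (.nd (nat_lit 5) (.nd (nat_lit 6) 
(.lf (nat_lit 179866) (.g (nat_lit 1139) (.e (nat_lit 65280) (nat_lit 211) (.e (nat_lit 57377) (nat_lit 3) (.e (nat_lit 98385) (nat_lit 32) (.e (nat_lit 475177) (nat_lit 24) .nil)))) .nil)) 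
(.lf (nat_lit 179930) (.g (nat_lit 2194) (.e (nat_lit 65280) (nat_lit 221) (.e (nat_lit 1212) (nat_lit 89) (.e (nat_lit 73746) (nat_lit 3) (.e (nat_lit 516165) (nat_lit 12) (.e (nat_lit 450579) (nat_lit 5) .nil))))) .nil))) (.nd (nat_lit 6) 
(.lf (nat_lit 179898) (.g (nat_lit 1731) (.e (nat_lit 57761) (nat_lit 215) (.e (nat_lit 1190) (nat_lit 88) (.e (nat_lit 65571) (nat_lit 3) (.e (nat_lit 98350) (nat_lit 24) .nil)))) .nil)) 
(.lf (nat_lit 179962) (.g (nat_lit 2403) (.e (nat_lit 65280) (nat_lit 241) (.e (nat_lit 57371) (nat_lit 2) (.e (nat_lit 90176) (nat_lit 15) (.e (nat_lit 188450) (nat_lit 23) (.e (nat_lit 204850) (nat_lit 26) .nil))))) .nil)))))) (.nd (nat_lit 3) (.nd (nat_lit 4) (.nd (nat_lit 5) (.nd (nat_lit 6) 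
(.lf (nat_lit 179846) (.g (nat_lit 2111) (.e (nat_lit 65280) (nat_lit 209) (.e (nat_lit 1222) (nat_lit 90) (.e (nat_lit 81954) (nat_lit 23) (.e (nat_lit 98313) (nat_lit 9) (.e (nat_lit 335986) (nat_lit 1) .nil))))) .nil)) 
(.lf (nat_lit 179910) (.g (nat_lit 1485) (.e (nat_lit 65280) (nat_lit 217) (.e (nat_lit 57447) (nat_lit 19) (.e (nat_lit 393301) (nat_lit 27) (.e (nat_lit 491560) (nat_lit 10) .nil)))) .nil))) (.nd (nat_lit 6) 
(.lf (nat_lit 179878) (.g (nat_lit 2652) (.e (nat_lit 65280) (nat_lit 211) (.e (nat_lit 57378) (nat_lit 3) (.e (nat_lit 98384) (nat_lit 32) (.e (nat_lit 475177) (nat_lit 24) (.e (nat_lit 516171) (nat_lit 13) .nil))))) .nil)) 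
(.lf (nat_lit 179942) (.g (nat_lit 3560) (.e (nat_lit 57776) (nat_lit 233) (.e (nat_lit 1220) (nat_lit 90) (.e (nat_lit 81953) (nat_lit 22) (.e (nat_lit 90160) (nat_lit 11) .nil)))) .nil)))) (.nd (nat_lit 5) (.nd (nat_lit 6) 
(.lf (nat_lit 179862) (.g (nat_lit 2505) (.e (nat_lit 65280) (nat_lit 211) (.e (nat_lit 57377) (nat_lit 3) (.e (nat_lit 98356) (nat_lit 26) (.e (nat_lit 426438) (nat_lit 18) (.e (nat_lit 98358) (nat_lit 26) .nil))))) .nil)) 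
(.lf (nat_lit 179926) (.g (nat_lit 1580) (.e (nat_lit 65280) (nat_lit 221) (.e (nat_lit 1209) (nat_lit 89) (.e (nat_lit 73747) (nat_lit 3) (.e (nat_lit 516167) (nat_lit 12) .nil)))) .nil))) (.nd (nat_lit 6) 
(.lf (nat_lit 179894) (.g (nat_lit 840) (.e (nat_lit 65280) (nat_lit 211) (.e (nat_lit 57379) (nat_lit 3) (.e (nat_lit 98385) (nat_lit 32) .nil))) .nil)) 
(.lf (nat_lit 179958) (.g (nat_lit 2879) (.e (nat_lit 65280) (nat_lit 233) (.e (nat_lit 2560) (nat_lit 159) (.e (nat_lit 24608) (nat_lit 3) (.e (nat_lit 98372) (nat_lit 29) (.e (nat_lit 450579) (nat_lit 5) .nil))))) .nil))))) (.nd (nat_lit 4) (.nd (nat_lit 5) (.nd (nat_lit 6) 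
(.lf (nat_lit 179854) (.g (nat_lit 1370) (.e (nat_lit 65280) (nat_lit 211) (.e (nat_lit 57372) (nat_lit 2) (.e (nat_lit 90176) (nat_lit 15) (.e (nat_lit 196352) (nat_lit 18) .nil)))) .nil)) 
(.lf (nat_lit 179918) (.g (nat_lit 1854) (.e (nat_lit 65280) (nat_lit 221) (.e (nat_lit 1190) (nat_lit 88) (.e (nat_lit 65571) (nat_lit 3) (.e (nat_lit 98373) (nat_lit 29) (.e (nat_lit 450579) (nat_lit 5) .nil))))) .nil))) (.nd (nat_lit 6) 
(.lf (nat_lit 179886) (.g (nat_lit 2726) (.e (nat_lit 65280) (nat_lit 211) (.e (nat_lit 57379) (nat_lit 3) (.e (nat_lit 98356) (nat_lit 26) (.e (nat_lit 426438) (nat_lit 18) (.e (nat_lit 98376) (nat_lit 30) .nil))))) .nil)) 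
(.lf (nat_lit 179950) (.g (nat_lit 3738) (.e (nat_lit 57777) (nat_lit 233) (.e (nat_lit 2479) (nat_lit 157) (.e (nat_lit 284) (nat_lit 21) (.e (nat_lit 336027) (nat_lit 3) (.e (nat_lit 98372) (nat_lit 29) (.e (nat_lit 450579) (nat_lit 5) (.e (nat_lit 532504) (nat_lit 1) .nil))))))) (.g (nat_lit 7) .nil .nil))))) (.nd (nat_lit 5) (.nd (nat_lit 6) 
(.lf (nat_lit 179870) (.g (nat_lit 2229) (.e (nat_lit 65280) (nat_lit 211) (.e (nat_lit 57378) (nat_lit 3) (.e (nat_lit 98356) (nat_lit 26) (.e (nat_lit 426438) (nat_lit 18) .nil)))) .nil)) 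
(.lf (nat_lit 179934) (.g (nat_lit 824) (.e (nat_lit 65280) (nat_lit 222) (.e (nat_lit 8210) (nat_lit 8) (.e (nat_lit 294930) (nat_lit 3) (.e (nat_lit 98372) (nat_lit 29) (.e (nat_lit 450579) (nat_lit 5) .nil))))) .nil))) (.nd (nat_lit 6) 
(.lf (nat_lit 179902) (.g (nat_lit 2067) (.e (nat_lit 65280) (nat_lit 217) (.e (nat_lit 57379) (nat_lit 3) (.e (nat_lit 98373) (nat_lit 29) (.e (nat_lit 450587) (nat_lit 10) (.e (nat_lit 573475) (nat_lit 12) .nil))))) .nil)) 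
(.lf (nat_lit 179966) (.g (nat_lit 2480) (.e (nat_lit 65280) (nat_lit 241) (.e (nat_lit 57372) (nat_lit 2) (.e (nat_lit 90176) (nat_lit 15) (.e (nat_lit 188447) (nat_lit 22) (.e (nat_lit 196681) (nat_lit 17) .nil))))) .nil)))))))) (.nd (nat_lit 1) (.nd (nat_lit 2) (.nd (nat_lit 3) (.nd (nat_lit 4) (.nd (nat_lit 5) (.nd (nat_lit 6) 
(.lf (nat_lit 179841) (.g (nat_lit 3069) (.e (nat_lit 65280) (nat_lit 209) (.e (nat_lit 1220) (nat_lit 90) (.e (nat_lit 81956) (nat_lit 23) (.e (nat_lit 98313) (nat_lit 9) (.e (nat_lit 335986) (nat_lit 1) .nil))))) .nil)) 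
(.lf (nat_lit 179905) (.g (nat_lit 2911) (.e (nat_lit 65280) (nat_lit 217) (.e (nat_lit 57447) (nat_lit 19) (.e (nat_lit 393301) (nat_lit 27) (.e (nat_lit 491558) (nat_lit 10) (.e (nat_lit 344090) (nat_lit 18) .nil))))) .nil))) (.nd (nat_lit 6) 
(.lf (nat_lit 179873) (.g (nat_lit 2906) (.e (nat_lit 65280) (nat_lit 211) (.e (nat_lit 57378) (nat_lit 3) (.e (nat_lit 98356) (nat_lit 26) (.e (nat_lit 426438) (nat_lit 18) (.e (nat_lit 98376) (nat_lit 30) .nil))))) .nil)) 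
(.lf (nat_lit 179937) (.g (nat_lit 644) (.e (nat_lit 65280) (nat_lit 223) (.e (nat_lit 57411) (nat_lit 12) (.e (nat_lit 336019) (nat_lit 3) .nil))) .nil)))) (.nd (nat_lit 5) (.nd (nat_lit 6) 
(.lf (nat_lit 179857) (.g (nat_lit 551) (.e (nat_lit 65280) (nat_lit 211) (.e (nat_lit 57373) (nat_lit 2) (.e (nat_lit 90185) (nat_lit 17) .nil))) .nil)) 
(.lf (nat_lit 179921) (.g (nat_lit 2818) (.e (nat_lit 65280) (nat_lit 221) (.e (nat_lit 1201) (nat_lit 88) (.e (nat_lit 65571) (nat_lit 3) (.e (nat_lit 98372) (nat_lit 29) (.e (nat_lit 450579) (nat_lit 5) .nil))))) .nil))) (.nd (nat_lit 6) 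
(.lf (nat_lit 179889) (.g (nat_lit 1238) (.e (nat_lit 65280) (nat_lit 211) (.e (nat_lit 57379) (nat_lit 3) (.e (nat_lit 98369) (nat_lit 28) (.e (nat_lit 450304) (nat_lit 18) .nil)))) .nil)) 
(.lf (nat_lit 179953) (.g (nat_lit 1891) (.e (nat_lit 65280) (nat_lit 233) (.e (nat_lit 2556) (nat_lit 159) (.e (nat_lit 24608) (nat_lit 3) (.e (nat_lit 98365) (nat_lit 26) (.e (nat_lit 426298) (nat_lit 11) .nil))))) .nil))))) (.nd (nat_lit 4) (.nd (nat_lit 5) (.nd (nat_lit 6) 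
(.lf (nat_lit 179849) (.g (nat_lit 2982) (.e (nat_lit 65280) (nat_lit 209) (.e (nat_lit 1224) (nat_lit 90) (.e (nat_lit 81953) (nat_lit 22) (.e (nat_lit 90160) (nat_lit 11) .nil)))) .nil)) 
(.lf (nat_lit 179913) (.g (nat_lit 1750) (.e (nat_lit 65280) (nat_lit 217) (.e (nat_lit 57448) (nat_lit 19) (.e (nat_lit 393301) (nat_lit 27) (.e (nat_lit 491558) (nat_lit 10) .nil)))) .nil))) (.nd (nat_lit 6) 
(.lf (nat_lit 179881) (.g (nat_lit 1741) (.e (nat_lit 65280) (nat_lit 211) (.e (nat_lit 57379) (nat_lit 3) (.e (nat_lit 98356) (nat_lit 26) (.e (nat_lit 426428) (nat_lit 17) .nil)))) .nil)) 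
(.lf (nat_lit 179945) (.g (nat_lit 3809) (.e (nat_lit 57776) (nat_lit 233) (.e (nat_lit 2508) (nat_lit 157) (.e (nat_lit 247) (nat_lit 21) (.e (nat_lit 336027) (nat_lit 3) (.e (nat_lit 98372) (nat_lit 29) (.e (nat_lit 450579) (nat_lit 5) (.e (nat_lit 532504) (nat_lit 1) .nil))))))) (.g (nat_lit 7) .nil .nil))))) (.nd (nat_lit 5) (.nd (nat_lit 6) 
(.lf (nat_lit 179865) (.g (nat_lit 2926) (.e (nat_lit 65280) (nat_lit 211) (.e (nat_lit 57377) (nat_lit 3) (.e (nat_lit 98384) (nat_lit 32) (.e (nat_lit 475177) (nat_lit 24) (.e (nat_lit 516171) (nat_lit 13) .nil))))) .nil)) 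
(.lf (nat_lit 179929) (.g (nat_lit 796) (.e (nat_lit 65280) (nat_lit 221) (.e (nat_lit 1211) (nat_lit 89) (.e (nat_lit 73748) (nat_lit 3) (.e (nat_lit 516167) (nat_lit 12) .nil)))) .nil))) (.nd (nat_lit 6) 
(.lf (nat_lit 179897) (.g (nat_lit 1622) (.e (nat_lit 57760) (nat_lit 215) (.e (nat_lit 1211) (nat_lit 89) (.e (nat_lit 73755) (nat_lit 8) (.e (nat_lit 557090) (nat_lit 12) (.e (nat_lit 164020) (nat_lit 45) .nil))))) .nil)) 
(.lf (nat_lit 179961) (.g (nat_lit 2245) (.e (nat_lit 65280) (nat_lit 241) (.e (nat_lit 57371) (nat_lit 2) (.e (nat_lit 90176) (nat_lit 15) (.e (nat_lit 188447) (nat_lit 22) (.e (nat_lit 196681) (nat_lit 17) .nil))))) .nil)))))) (.nd (nat_lit 3) (.nd (nat_lit 4) (.nd (nat_lit 5) (.nd (nat_lit 6) 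
(.lf (nat_lit 179845) (.g (nat_lit 2749) (.e (nat_lit 65280) (nat_lit 209) (.e (nat_lit 1221) (nat_lit 90) (.e (nat_lit 81956) (nat_lit 23) (.e (nat_lit 98313) (nat_lit 9) .nil)))) .nil)) 
(.lf (nat_lit 179909) (.g (nat_lit 1612) (.e (nat_lit 65280) (nat_lit 217) (.e (nat_lit 57447) (nat_lit 19) (.e (nat_lit 393301) (nat_lit 27) (.e (nat_lit 491559) (nat_lit 10) .nil)))) .nil))) (.nd (nat_lit 6) 
(.lf (nat_lit 179877) (.g (nat_lit 2685) (.e (nat_lit 65280) (nat_lit 211) (.e (nat_lit 57378) (nat_lit 3) (.e (nat_lit 98384) (nat_lit 32) (.e (nat_lit 475177) (nat_lit 24) (.e (nat_lit 516169) (nat_lit 13) .nil))))) .nil)) 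
(.lf (nat_lit 179941) (.g (nat_lit 462) (.e (nat_lit 57776) (nat_lit 233) (.e (nat_lit 1209) (nat_lit 89) (.e (nat_lit 81664) (nat_lit 33) .nil))) .nil)))) (.nd (nat_lit 5) (.nd (nat_lit 6) 
(.lf (nat_lit 179861) (.g (nat_lit 1905) (.e (nat_lit 65280) (nat_lit 211) (.e (nat_lit 57377) (nat_lit 3) (.e (nat_lit 98356) (nat_lit 26) (.e (nat_lit 426438) (nat_lit 18) .nil)))) .nil)) 
(.lf (nat_lit 179925) (.g (nat_lit 2853) (.e (nat_lit 65280) (nat_lit 221) (.e (nat_lit 1209) (nat_lit 89) (.e (nat_lit 73747) (nat_lit 3) (.e (nat_lit 516166) (nat_lit 12) (.e (nat_lit 450579) (nat_lit 5) .nil))))) .nil))) (.nd (nat_lit 6) 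
(.lf (nat_lit 179893) (.g (nat_lit 2372) (.e (nat_lit 65280) (nat_lit 211) (.e (nat_lit 57379) (nat_lit 3) (.e (nat_lit 98384) (nat_lit 32) (.e (nat_lit 475177) (nat_lit 24) (.e (nat_lit 516171) (nat_lit 13) .nil))))) .nil)) 
(.lf (nat_lit 179957) (.g (nat_lit 2876) (.e (nat_lit 65280) (nat_lit 233) (.e (nat_lit 2559) (nat_lit 159) (.e (nat_lit 24608) (nat_lit 3) (.e (nat_lit 98372) (nat_lit 29) (.e (nat_lit 450579) (nat_lit 5) .nil))))) .nil))))) (.nd (nat_lit 4) (.nd (nat_lit 5) (.nd (nat_lit 6) 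
(.lf (nat_lit 179853) (.g (nat_lit 2754) (.e (nat_lit 65280) (nat_lit 209) (.e (nat_lit 1224) (nat_lit 90) (.e (nat_lit 81956) (nat_lit 23) (.e (nat_lit 98313) (nat_lit 9) (.e (nat_lit 335995) (nat_lit 1) .nil))))) .nil)) 
(.lf (nat_lit 179917) (.g (nat_lit 2047) (.e (nat_lit 65280) (nat_lit 221) (.e (nat_lit 1187) (nat_lit 88) (.e (nat_lit 65571) (nat_lit 3) (.e (nat_lit 98372) (nat_lit 29) (.e (nat_lit 450579) (nat_lit 5) .nil))))) .nil))) (.nd (nat_lit 6) 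
(.lf (nat_lit 179885) (.g (nat_lit 2748) (.e (nat_lit 65280) (nat_lit 211) (.e (nat_lit 57379) (nat_lit 3) (.e (nat_lit 98356) (nat_lit 26) (.e (nat_lit 426438) (nat_lit 18) (.e (nat_lit 98367) (nat_lit 27) .nil))))) .nil)) 
(.lf (nat_lit 179949) (.g (nat_lit 3850) (.e (nat_lit 57777) (nat_lit 233) (.e (nat_lit 2479) (nat_lit 157) (.e (nat_lit 284) (nat_lit 21) (.e (nat_lit 336027) (nat_lit 3) (.e (nat_lit 98372) (nat_lit 29) (.e (nat_lit 450579) (nat_lit 5) (.e (nat_lit 532501) (nat_lit 1) .nil))))))) (.g (nat_lit 7) .nil .nil))))) (.nd (nat_lit 5) (.nd (nat_lit 6) 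
(.lf (nat_lit 179869) (.g (nat_lit 1617) (.e (nat_lit 65280) (nat_lit 211) (.e (nat_lit 57378) (nat_lit 3) (.e (nat_lit 98356) (nat_lit 26) (.e (nat_lit 426436) (nat_lit 18) .nil)))) .nil)) 
(.lf (nat_lit 179933) (.g (nat_lit 625) (.e (nat_lit 65280) (nat_lit 221) (.e (nat_lit 1296) (nat_lit 96) (.e (nat_lit 131096) (nat_lit 3) .nil))) .nil))) (.nd (nat_lit 6) 
(.lf (nat_lit 179901) (.g (nat_lit 2073) (.e (nat_lit 65280) (nat_lit 217) (.e (nat_lit 57379) (nat_lit 3) (.e (nat_lit 98373) (nat_lit 29) (.e (nat_lit 450587) (nat_lit 10) (.e (nat_lit 573473) (nat_lit 12) .nil))))) .nil)) 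
(.lf (nat_lit 179965) (.g (nat_lit 2482) (.e (nat_lit 65280) (nat_lit 241) (.e (nat_lit 57371) (nat_lit 2) (.e (nat_lit 90176) (nat_lit 15) (.e (nat_lit 188450) (nat_lit 23) (.e (nat_lit 204859) (nat_lit 26) .nil))))) .nil))))))) (.nd (nat_lit 2) (.nd (nat_lit 3) (.nd (nat_lit 4) (.nd (nat_lit 5) (.nd (nat_lit 6) 
(.lf (nat_lit 179843) (.g (nat_lit 3048) (.e (nat_lit 65280) (nat_lit 209) (.e (nat_lit 1220) (nat_lit 90) (.e (nat_lit 81956) (nat_lit 23) (.e (nat_lit 98313) (nat_lit 9) (.e (nat_lit 335996) (nat_lit 1) .nil))))) .nil)) 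
(.lf (nat_lit 179907) (.g (nat_lit 2813) (.e (nat_lit 65280) (nat_lit 217) (.e (nat_lit 57447) (nat_lit 19) (.e (nat_lit 393301) (nat_lit 27) (.e (nat_lit 491558) (nat_lit 10) (.e (nat_lit 344095) (nat_lit 18) .nil))))) .nil))) (.nd (nat_lit 6) 
(.lf (nat_lit 179875) (.g (nat_lit 1783) (.e (nat_lit 65280) (nat_lit 211) (.e (nat_lit 57378) (nat_lit 3) (.e (nat_lit 98384) (nat_lit 32) (.e (nat_lit 475177) (nat_lit 24) .nil)))) .nil)) 
(.lf (nat_lit 179939) (.g (nat_lit 1034) (.e (nat_lit 65280) (nat_lit 224) (.e (nat_lit 122913) (nat_lit 13) (.e (nat_lit 344118) (nat_lit 21) (.e (nat_lit 516165) (nat_lit 12) (.e (nat_lit 450579) (nat_lit 5) .nil))))) .nil)))) (.nd (nat_lit 5) (.nd (nat_lit 6) 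
(.lf (nat_lit 179859) (.g (nat_lit 2685) (.e (nat_lit 65280) (nat_lit 211) (.e (nat_lit 57377) (nat_lit 3) (.e (nat_lit 98356) (nat_lit 26) (.e (nat_lit 426428) (nat_lit 17) (.e (nat_lit 90170) (nat_lit 13) .nil))))) .nil)) 
(.lf (nat_lit 179923) (.g (nat_lit 1155) (.e (nat_lit 65280) (nat_lit 221) (.e (nat_lit 1209) (nat_lit 89) (.e (nat_lit 73746) (nat_lit 3) (.e (nat_lit 516176) (nat_lit 14) .nil)))) .nil))) (.nd (nat_lit 6) 
(.lf (nat_lit 179891) (.g (nat_lit 2125) (.e (nat_lit 65280) (nat_lit 211) (.e (nat_lit 57379) (nat_lit 3) (.e (nat_lit 98384) (nat_lit 32) (.e (nat_lit 475177) (nat_lit 24) (.e (nat_lit 516150) (nat_lit 9) .nil))))) .nil)) 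
(.lf (nat_lit 179955) (.g (nat_lit 1078) (.e (nat_lit 65280) (nat_lit 233) (.e (nat_lit 2557) (nat_lit 159) (.e (nat_lit 24604) (nat_lit 2) (.e (nat_lit 90185) (nat_lit 17) .nil)))) .nil))))) (.nd (nat_lit 4) (.nd (nat_lit 5) (.nd (nat_lit 6) 
(.lf (nat_lit 179851) (.g (nat_lit 1488) (.e (nat_lit 65280) (nat_lit 209) (.e (nat_lit 1224) (nat_lit 90) (.e (nat_lit 81955) (nat_lit 23) (.e (nat_lit 98313) (nat_lit 9) (.e (nat_lit 335995) (nat_lit 1) .nil))))) .nil)) 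
(.lf (nat_lit 179915) (.g (nat_lit 3211) (.e (nat_lit 65280) (nat_lit 217) (.e (nat_lit 57448) (nat_lit 19) (.e (nat_lit 393301) (nat_lit 27) (.e (nat_lit 491559) (nat_lit 10) (.e (nat_lit 344096) (nat_lit 18) .nil))))) .nil))) (.nd (nat_lit 6) 
(.lf (nat_lit 179883) (.g (nat_lit 2040) (.e (nat_lit 65280) (nat_lit 211) (.e (nat_lit 57379) (nat_lit 3) (.e (nat_lit 98356) (nat_lit 26) (.e (nat_lit 426438) (nat_lit 18) .nil)))) .nil)) 
(.lf (nat_lit 179947) (.g (nat_lit 3417) (.e (nat_lit 57776) (nat_lit 233) (.e (nat_lit 2510) (nat_lit 157) (.e (nat_lit 247) (nat_lit 21) (.e (nat_lit 336027) (nat_lit 3) (.e (nat_lit 98372) (nat_lit 29) (.e (nat_lit 450579) (nat_lit 5) (.e (nat_lit 532501) (nat_lit 1) .nil))))))) (.g (nat_lit 7) .nil .nil))))) (.nd (nat_lit 5) (.nd (nat_lit 6) 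
(.lf (nat_lit 179867) (.g (nat_lit 1740) (.e (nat_lit 65280) (nat_lit 211) (.e (nat_lit 57377) (nat_lit 3) (.e (nat_lit 98385) (nat_lit 32) (.e (nat_lit 475177) (nat_lit 24) (.e (nat_lit 516171) (nat_lit 13) .nil))))) .nil)) 
(.lf (nat_lit 179931) (.g (nat_lit 1362) (.e (nat_lit 65280) (nat_lit 221) (.e (nat_lit 1212) (nat_lit 89) (.e (nat_lit 73747) (nat_lit 3) (.e (nat_lit 516167) (nat_lit 12) .nil)))) .nil))) (.nd (nat_lit 6) 
(.lf (nat_lit 179899) (.g (nat_lit 1435) (.e (nat_lit 57762) (nat_lit 215) (.e (nat_lit 1200) (nat_lit 88) (.e (nat_lit 65571) (nat_lit 3) (.e (nat_lit 98350) (nat_lit 24) .nil)))) .nil)) 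
(.lf (nat_lit 179963) (.g (nat_lit 1947) (.e (nat_lit 65280) (nat_lit 241) (.e (nat_lit 57371) (nat_lit 2) (.e (nat_lit 90176) (nat_lit 15) (.e (nat_lit 188450) (nat_lit 23) (.e (nat_lit 204855) (nat_lit 26) .nil))))) .nil)))))) (.nd (nat_lit 3) (.nd (nat_lit 4) (.nd (nat_lit 5) (.nd (nat_lit 6) 
(.lf (nat_lit 179847) (.g (nat_lit 2036) (.e (nat_lit 65280) (nat_lit 209) (.e (nat_lit 1222) (nat_lit 90) (.e (nat_lit 81954) (nat_lit 23) (.e (nat_lit 98313) (nat_lit 9) (.e (nat_lit 335995) (nat_lit 1) .nil))))) .nil)) 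
(.lf (nat_lit 179911) (.g (nat_lit 3119) (.e (nat_lit 65280) (nat_lit 217) (.e (nat_lit 57447) (nat_lit 19) (.e (nat_lit 393301) (nat_lit 27) (.e (nat_lit 491560) (nat_lit 10) (.e (nat_lit 344094) (nat_lit 18) .nil))))) .nil))) (.nd (nat_lit 6) 
(.lf (nat_lit 179879) (.g (nat_lit 3418) (.e (nat_lit 65280) (nat_lit 211) (.e (nat_lit 57378) (nat_lit 3) (.e (nat_lit 98384) (nat_lit 32) (.e (nat_lit 475179) (nat_lit 24) (.e (nat_lit 516171) (nat_lit 13) .nil))))) .nil)) 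
(.lf (nat_lit 179943) (.g (nat_lit 3539) (.e (nat_lit 57776) (nat_lit 233) (.e (nat_lit 2487) (nat_lit 157) (.e (nat_lit 247) (nat_lit 21) (.e (nat_lit 336027) (nat_lit 3) (.e (nat_lit 98372) (nat_lit 29) (.e (nat_lit 450579) (nat_lit 5) (.e (nat_lit 532504) (nat_lit 1) .nil))))))) (.g (nat_lit 7) .nil .nil))))) (.nd (nat_lit 5) (.nd (nat_lit 6) 
(.lf (nat_lit 179863) (.g (nat_lit 2776) (.e (nat_lit 65280) (nat_lit 211) (.e (nat_lit 57377) (nat_lit 3) (.e (nat_lit 98384) (nat_lit 32) (.e (nat_lit 475177) (nat_lit 24) (.e (nat_lit 516149) (nat_lit 9) .nil))))) .nil)) 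
(.lf (nat_lit 179927) (.g (nat_lit 1964) (.e (nat_lit 65280) (nat_lit 221) (.e (nat_lit 1209) (nat_lit 89) (.e (nat_lit 73747) (nat_lit 3) (.e (nat_lit 516167) (nat_lit 12) (.e (nat_lit 450579) (nat_lit 5) .nil))))) .nil))) (.nd (nat_lit 6) 
(.lf (nat_lit 179895) (.g (nat_lit 943) (.e (nat_lit 65280) (nat_lit 211) (.e (nat_lit 57389) (nat_lit 5) (.e (nat_lit 114716) (nat_lit 22) (.e (nat_lit 90158) (nat_lit 11) .nil)))) .nil)) 
(.lf (nat_lit 179959) (.g (nat_lit 545) (.e (nat_lit 57781) (nat_lit 239) (.e (nat_lit 2619) (nat_lit 164) (.e (nat_lit 172133) (nat_lit 15) .nil))) .nil))))) (.nd (nat_lit 4) (.nd (nat_lit 5) (.nd (nat_lit 6) 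
(.lf (nat_lit 179855) (.g (nat_lit 832) (.e (nat_lit 65280) (nat_lit 211) (.e (nat_lit 57373) (nat_lit 2) (.e (nat_lit 90176) (nat_lit 15) (.e (nat_lit 196352) (nat_lit 18) .nil)))) .nil)) 
(.lf (nat_lit 179919) (.g (nat_lit 1996) (.e (nat_lit 65280) (nat_lit 221) (.e (nat_lit 1194) (nat_lit 88) (.e (nat_lit 65571) (nat_lit 3) (.e (nat_lit 98372) (nat_lit 29) (.e (nat_lit 450579) (nat_lit 5) .nil))))) .nil))) (.nd (nat_lit 6) 
(.lf (nat_lit 179887) (.g (nat_lit 2718) (.e (nat_lit 65280) (nat_lit 211) (.e (nat_lit 57379) (nat_lit 3) (.e (nat_lit 98356) (nat_lit 26) (.e (nat_lit 426438) (nat_lit 18) (.e (nat_lit 98377) (nat_lit 30) .nil))))) .nil)) 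
(.lf (nat_lit 179951) (.g (nat_lit 3051) (.e (nat_lit 65280) (nat_lit 233) (.e (nat_lit 2554) (nat_lit 159) (.e (nat_lit 24608) (nat_lit 3) (.e (nat_lit 98372) (nat_lit 29) (.e (nat_lit 450579) (nat_lit 5) .nil))))) .nil)))) (.nd (nat_lit 5) (.nd (nat_lit 6) 
(.lf (nat_lit 179871) (.g (nat_lit 2844) (.e (nat_lit 65280) (nat_lit 211) (.e (nat_lit 57378) (nat_lit 3) (.e (nat_lit 98356) (nat_lit 26) (.e (nat_lit 426438) (nat_lit 18) (.e (nat_lit 98358) (nat_lit 26) .nil))))) .nil)) 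
(.lf (nat_lit 179935) (.g (nat_lit 928) (.e (nat_lit 65280) (nat_lit 223) (.e (nat_lit 57407) (nat_lit 12) (.e (nat_lit 336019) (nat_lit 3) .nil))) .nil))) (.nd (nat_lit 6) 
(.lf (nat_lit 179903) (.g (nat_lit 4496) (.e (nat_lit 65280) (nat_lit 217) (.e (nat_lit 57379) (nat_lit 3) (.e (nat_lit 98373) (nat_lit 29) (.e (nat_lit 450588) (nat_lit 10) (.e (nat_lit 573473) (nat_lit 12) .nil))))) .nil)) 
(.lf (nat_lit 179967) (.g (nat_lit 1000) (.e (nat_lit 65280) (nat_lit 241) (.e (nat_lit 57372) (nat_lit 2) (.e (nat_lit 90176) (nat_lit 15) (.e (nat_lit 188450) (nat_lit 23) .nil)))) .nil)))))))))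

noncomputable def tv2412 : DT := (.nd (nat_lit 0) (.nd (nat_lit 1) (.nd (nat_lit 2) (.nd (nat_lit 3) (.nd (nat_lit 4) (.nd (nat_lit 5) (.nd (nat_lit 6) 
(.lf (nat_lit 179968) (.g (nat_lit 1900) (.e (nat_lit 65280) (nat_lit 241) (.e (nat_lit 57372) (nat_lit 2) (.e (nat_lit 90176) (nat_lit 15) (.e (nat_lit 188450) (nat_lit 23) (.e (nat_lit 204855) (nat_lit 26) .nil))))) .nil)) 
(.lf (nat_lit 180032) (.g (nat_lit 2517) (.e (nat_lit 57803) (nat_lit 245) (.e (nat_lit 1348) (nat_lit 102) (.e (nat_lit 286761) (nat_lit 13) (.e (nat_lit 393293) (nat_lit 26) (.e (nat_lit 475197) (nat_lit 40) .nil))))) .nil))) (.nd (nat_lit 6) 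
(.lf (nat_lit 180000) (.g (nat_lit 1222) (.e (nat_lit 57794) (nat_lit 245) (.e (nat_lit 1360) (nat_lit 102) (.e (nat_lit 286743) (nat_lit 9) (.e (nat_lit 336428) (nat_lit 29) .nil)))) .nil)) 
(.lf (nat_lit 180064) (.g (nat_lit 673) (.e (nat_lit 57808) (nat_lit 246) (.e (nat_lit 57902) (nat_lit 277) (.e (nat_lit 131138) (nat_lit 27) (.e (nat_lit 426228) (nat_lit 9) (.e (nat_lit 426443) (nat_lit 19) (.e (nat_lit 106556) (nat_lit 15) .nil)))))) (.g (nat_lit 5) .nil .nil))))) (.nd (nat_lit 5) (.nd (nat_lit 6) 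
(.lf (nat_lit 179984) (.g (nat_lit 506) (.e (nat_lit 57793) (nat_lit 245) (.e (nat_lit 1360) (nat_lit 102) (.e (nat_lit 286742) (nat_lit 9) .nil))) .nil)) 
(.lf (nat_lit 180048) (.g (nat_lit 499) (.e (nat_lit 57807) (nat_lit 246) (.e (nat_lit 57884) (nat_lit 270) (.e (nat_lit 1656) (nat_lit 115) .nil))) .nil))) (.nd (nat_lit 6) 
(.lf (nat_lit 180016) (.g (nat_lit 814) (.e (nat_lit 57794) (nat_lit 245) (.e (nat_lit 1367) (nat_lit 103) (.e (nat_lit 294941) (nat_lit 9) (.e (nat_lit 336428) (nat_lit 29) .nil)))) .nil)) 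
(.lf (nat_lit 180080) (.g (nat_lit 1144) (.e (nat_lit 57809) (nat_lit 246) (.e (nat_lit 57596) (nat_lit 82) (.e (nat_lit 499900) (nat_lit 7) (.e (nat_lit 24657) (nat_lit 13) (.e (nat_lit 401152) (nat_lit 0) (.e (nat_lit 6216) (nat_lit 333) .nil)))))) (.g (nat_lit 4) .nil .nil)))))) (.nd (nat_lit 4) (.nd (nat_lit 5) (.nd (nat_lit 6) 
(.lf (nat_lit 179976) (.g (nat_lit 1895) (.e (nat_lit 65280) (nat_lit 241) (.e (nat_lit 57379) (nat_lit 3) (.e (nat_lit 98372) (nat_lit 29) (.e (nat_lit 450579) (nat_lit 5) (.e (nat_lit 532533) (nat_lit 9) .nil))))) .nil)) 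
(.lf (nat_lit 180040) (.g (nat_lit 1207) (.e (nat_lit 57806) (nat_lit 246) (.e (nat_lit 57884) (nat_lit 270) (.e (nat_lit 1413) (nat_lit 108) (.e (nat_lit 336428) (nat_lit 29) (.e (nat_lit 450304) (nat_lit 4) .nil))))) .nil))) (.nd (nat_lit 6) 
(.lf (nat_lit 180008) (.g (nat_lit 1873) (.e (nat_lit 57794) (nat_lit 245) (.e (nat_lit 1360) (nat_lit 102) (.e (nat_lit 286761) (nat_lit 13) (.e (nat_lit 393293) (nat_lit 26) (.e (nat_lit 475200) (nat_lit 40) .nil))))) .nil)) 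
(.lf (nat_lit 180072) (.g (nat_lit 1603) (.e (nat_lit 57808) (nat_lit 246) (.e (nat_lit 57902) (nat_lit 277) (.e (nat_lit 131140) (nat_lit 27) (.e (nat_lit 426190) (nat_lit 9) (.e (nat_lit 426442) (nat_lit 19) (.e (nat_lit 106556) (nat_lit 15) .nil)))))) (.g (nat_lit 6) .nil .nil))))) (.nd (nat_lit 5) (.nd (nat_lit 6) 
(.lf (nat_lit 179992) (.g (nat_lit 1629) (.e (nat_lit 57793) (nat_lit 245) (.e (nat_lit 1360) (nat_lit 102) (.e (nat_lit 286761) (nat_lit 13) (.e (nat_lit 393291) (nat_lit 26) .nil)))) .nil)) 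
(.lf (nat_lit 180056) (.g (nat_lit 414) (.e (nat_lit 57808) (nat_lit 246) (.e (nat_lit 57883) (nat_lit 270) (.e (nat_lit 496) (nat_lit 39) .nil))) .nil))) (.nd (nat_lit 6) 
(.lf (nat_lit 180024) (.g (nat_lit 939) (.e (nat_lit 57794) (nat_lit 245) (.e (nat_lit 1367) (nat_lit 103) (.e (nat_lit 294959) (nat_lit 13) (.e (nat_lit 393274) (nat_lit 23) (.e (nat_lit 433920) (nat_lit 19) .nil))))) .nil)) 
(.lf (nat_lit 180088) (.g (nat_lit 3389) (.e (nat_lit 57809) (nat_lit 246) (.e (nat_lit 57879) (nat_lit 270) (.e (nat_lit 371) (nat_lit 32) (.e (nat_lit 426482) (nat_lit 27) (.e (nat_lit 336060) (nat_lit 7) (.e (nat_lit 319505) (nat_lit 10) (.e (nat_lit 618) (nat_lit 48) (.e (nat_lit 564992) (nat_lit 19) .nil)))))))) (.g (nat_lit 7) .nil .nil))))))) 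
(.nd (nat_lit 3) (.nd (nat_lit 4) (.nd (nat_lit 5) (.nd (nat_lit 6) 
(.lf (nat_lit 179972) (.g (nat_lit 2519) (.e (nat_lit 65280) (nat_lit 241) (.e (nat_lit 57375) (nat_lit 2) (.e (nat_lit 90176) (nat_lit 15) (.e (nat_lit 188447) (nat_lit 22) (.e (nat_lit 196681) (nat_lit 17) .nil))))) .nil)) 
(.lf (nat_lit 180036) (.g (nat_lit 1414) (.e (nat_lit 57806) (nat_lit 246) (.e (nat_lit 57596) (nat_lit 82) (.e (nat_lit 499900) (nat_lit 7) (.e (nat_lit 24658) (nat_lit 13) (.e (nat_lit 401152) (nat_lit 0) .nil))))) .nil))) (.nd (nat_lit 6) 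
(.lf (nat_lit 180004) (.g (nat_lit 1753) (.e (nat_lit 57794) (nat_lit 245) (.e (nat_lit 1360) (nat_lit 102) (.e (nat_lit 286760) (nat_lit 13) (.e (nat_lit 393293) (nat_lit 26) (.e (nat_lit 475201) (nat_lit 40) .nil))))) .nil)) 
(.lf (nat_lit 180068) (.g (nat_lit 1998) (.e (nat_lit 57808) (nat_lit 246) (.e (nat_lit 57902) (nat_lit 277) (.e (nat_lit 131140) (nat_lit 27) (.e (nat_lit 426187) (nat_lit 9) (.e (nat_lit 426444) (nat_lit 19) (.e (nat_lit 106556) (nat_lit 15) .nil)))))) (.g (nat_lit 0) .nil .nil))))) (.nd (nat_lit 5) (.nd (nat_lit 6) 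
(.lf (nat_lit 179988) (.g (nat_lit 1960) (.e (nat_lit 57793) (nat_lit 245) (.e (nat_lit 1360) (nat_lit 102) (.e (nat_lit 286760) (nat_lit 13) (.e (nat_lit 393293) (nat_lit 26) (.e (nat_lit 475200) (nat_lit 40) .nil))))) .nil)) 
(.lf (nat_lit 180052) (.g (nat_lit 1601) (.e (nat_lit 57808) (nat_lit 246) (.e (nat_lit 57600) (nat_lit 84) (.e (nat_lit 516195) (nat_lit 26) (.e (nat_lit 336223) (nat_lit 13) (.e (nat_lit 393221) (nat_lit 0) .nil))))) .nil))) (.nd (nat_lit 6) 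
(.lf (nat_lit 180020) (.g (nat_lit 230) (.e (nat_lit 57794) (nat_lit 245) (.e (nat_lit 1367) (nat_lit 103) (.e (nat_lit 294958) (nat_lit 13) .nil))) .nil)) 
(.lf (nat_lit 180084) (.g (nat_lit 2066) (.e (nat_lit 57809) (nat_lit 246) (.e (nat_lit 57600) (nat_lit 84) (.e (nat_lit 516199) (nat_lit 26) (.e (nat_lit 336222) (nat_lit 13) (.e (nat_lit 393221) (nat_lit 0) (.e (nat_lit 6207) (nat_lit 333) .nil)))))) (.g (nat_lit 0) .nil .nil)))))) (.nd (nat_lit 4) (.nd (nat_lit 5) (.nd (nat_lit 6) 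
(.lf (nat_lit 179980) (.g (nat_lit 80) (.e (nat_lit 57786) (nat_lit 245) (.e (nat_lit 1362) (nat_lit 102) (.e (nat_lit 286761) (nat_lit 13) .nil))) .nil)) 
(.lf (nat_lit 180044) (.g (nat_lit 1795) (.e (nat_lit 57806) (nat_lit 246) (.e (nat_lit 57884) (nat_lit 270) (.e (nat_lit 1656) (nat_lit 115) (.e (nat_lit 393270) (nat_lit 23) (.e (nat_lit 426444) (nat_lit 19) .nil))))) .nil))) (.nd (nat_lit 6) 
(.lf (nat_lit 180012) (.g (nat_lit 553) (.e (nat_lit 57794) (nat_lit 245) (.e (nat_lit 1367) (nat_lit 103) (.e (nat_lit 294940) (nat_lit 9) (.e (nat_lit 336426) (nat_lit 29) .nil)))) .nil)) 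
(.lf (nat_lit 180076) (.g (nat_lit 979) (.e (nat_lit 57808) (nat_lit 246) (.e (nat_lit 57902) (nat_lit 277) (.e (nat_lit 131140) (nat_lit 27) (.e (nat_lit 426258) (nat_lit 9) (.e (nat_lit 426443) (nat_lit 19) (.e (nat_lit 106556) (nat_lit 15) .nil)))))) (.g (nat_lit 4) .nil .nil))))) (.nd (nat_lit 5) (.nd (nat_lit 6) 
(.lf (nat_lit 179996) (.g (nat_lit 976) (.e (nat_lit 57794) (nat_lit 245) (.e (nat_lit 1159) (nat_lit 86) (.e (nat_lit 49188) (nat_lit 11) (.e (nat_lit 16465) (nat_lit 13) (.e (nat_lit 491264) (nat_lit 17) .nil))))) .nil)) 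
(.lf (nat_lit 180060) (.g (nat_lit 1161) (.e (nat_lit 57808) (nat_lit 246) (.e (nat_lit 57895) (nat_lit 272) (.e (nat_lit 16487) (nat_lit 27) (.e (nat_lit 336086) (nat_lit 9) (.e (nat_lit 343808) (nat_lit 17) .nil))))) .nil))) (.nd (nat_lit 6) 
(.lf (nat_lit 180028) (.g (nat_lit 824) (.e (nat_lit 57803) (nat_lit 245) (.e (nat_lit 1348) (nat_lit 102) (.e (nat_lit 286748) (nat_lit 9) .nil))) .nil)) 
(.lf (nat_lit 180092) (.g (nat_lit 1664) (.e (nat_lit 57809) (nat_lit 246) (.e (nat_lit 57879) (nat_lit 270) (.e (nat_lit 371) (nat_lit 32) (.e (nat_lit 426546) (nat_lit 30) (.e (nat_lit 360477) (nat_lit 11) (.e (nat_lit 589568) (nat_lit 19) .nil)))))) (.g (nat_lit 5) .nil .nil)))))))) (.nd (nat_lit 2) (.nd (nat_lit 3) (.nd (nat_lit 4) (.nd (nat_lit 5) (.nd (nat_lit 6) 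
(.lf (nat_lit 179970) (.g (nat_lit 2058) (.e (nat_lit 65280) (nat_lit 241) (.e (nat_lit 57373) (nat_lit 2) (.e (nat_lit 90176) (nat_lit 15) (.e (nat_lit 188447) (nat_lit 22) (.e (nat_lit 196681) (nat_lit 17) .nil))))) .nil)) 
(.lf (nat_lit 180034) (.g (nat_lit 1573) (.e (nat_lit 57803) (nat_lit 245) (.e (nat_lit 1349) (nat_lit 102) (.e (nat_lit 286761) (nat_lit 13) (.e (nat_lit 393293) (nat_lit 26) .nil)))) .nil))) (.nd (nat_lit 6) 
(.lf (nat_lit 180002) (.g (nat_lit 1088) (.e (nat_lit 57794) (nat_lit 245) (.e (nat_lit 1360) (nat_lit 102) (.e (nat_lit 286760) (nat_lit 13) (.e (nat_lit 393273) (nat_lit 23) .nil)))) .nil)) 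
(.lf (nat_lit 180066) (.g (nat_lit 1146) (.e (nat_lit 57808) (nat_lit 246) (.e (nat_lit 57902) (nat_lit 277) (.e (nat_lit 131140) (nat_lit 27) (.e (nat_lit 426186) (nat_lit 9) (.e (nat_lit 426442) (nat_lit 19) (.e (nat_lit 106556) (nat_lit 15) .nil)))))) (.g (nat_lit 5) .nil .nil))))) (.nd (nat_lit 5) (.nd (nat_lit 6) 
(.lf (nat_lit 179986) (.g (nat_lit 510) (.e (nat_lit 57793) (nat_lit 245) (.e (nat_lit 1360) (nat_lit 102) (.e (nat_lit 286760) (nat_lit 13) .nil))) .nil)) 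
(.lf (nat_lit 180050) (.g (nat_lit 1616) (.e (nat_lit 57807) (nat_lit 246) (.e (nat_lit 57884) (nat_lit 270) (.e (nat_lit 1656) (nat_lit 115) (.e (nat_lit 393293) (nat_lit 26) .nil)))) .nil))) (.nd (nat_lit 6) 
(.lf (nat_lit 180018) (.g (nat_lit 991) (.e (nat_lit 57794) (nat_lit 245) (.e (nat_lit 1367) (nat_lit 103) (.e (nat_lit 294957) (nat_lit 13) (.e (nat_lit 393274) (nat_lit 23) (.e (nat_lit 433920) (nat_lit 19) .nil))))) .nil)) 
(.lf (nat_lit 180082) (.g (nat_lit 2274) (.e (nat_lit 57809) (nat_lit 246) (.e (nat_lit 57600) (nat_lit 84) (.e (nat_lit 516199) (nat_lit 26) (.e (nat_lit 336213) (nat_lit 13) (.e (nat_lit 393221) (nat_lit 0) (.e (nat_lit 6216) (nat_lit 333) .nil)))))) (.g (nat_lit 0) .nil .nil)))))) (.nd (nat_lit 4) (.nd (nat_lit 5) (.nd (nat_lit 6) 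
(.lf (nat_lit 179978) (.g (nat_lit 2394) (.e (nat_lit 65280) (nat_lit 241) (.e (nat_lit 57379) (nat_lit 3) (.e (nat_lit 98381) (nat_lit 31) (.e (nat_lit 466977) (nat_lit 22) (.e (nat_lit 196681) (nat_lit 17) .nil))))) .nil)) 
(.lf (nat_lit 180042) (.g (nat_lit 480) (.e (nat_lit 57806) (nat_lit 246) (.e (nat_lit 57884) (nat_lit 270) (.e (nat_lit 1656) (nat_lit 115) .nil))) .nil))) (.nd (nat_lit 6) 
(.lf (nat_lit 180010) (.g (nat_lit 874) (.e (nat_lit 57794) (nat_lit 245) (.e (nat_lit 1367) (nat_lit 103) (.e (nat_lit 294938) (nat_lit 9) (.e (nat_lit 336426) (nat_lit 29) (.e (nat_lit 450304) (nat_lit 4) .nil))))) .nil)) 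
(.lf (nat_lit 180074) (.g (nat_lit 1666) (.e (nat_lit 57808) (nat_lit 246) (.e (nat_lit 57902) (nat_lit 277) (.e (nat_lit 131140) (nat_lit 27) (.e (nat_lit 426197) (nat_lit 9) (.e (nat_lit 426444) (nat_lit 19) (.e (nat_lit 106556) (nat_lit 15) .nil)))))) (.g (nat_lit 0) .nil .nil))))) (.nd (nat_lit 5) (.nd (nat_lit 6) 
(.lf (nat_lit 179994) (.g (nat_lit 2041) (.e (nat_lit 57793) (nat_lit 245) (.e (nat_lit 1360) (nat_lit 102) (.e (nat_lit 286761) (nat_lit 13) (.e (nat_lit 393293) (nat_lit 26) (.e (nat_lit 475201) (nat_lit 40) .nil))))) .nil)) 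
(.lf (nat_lit 180058) (.g (nat_lit 1639) (.e (nat_lit 57808) (nat_lit 246) (.e (nat_lit 57884) (nat_lit 270) (.e (nat_lit 1656) (nat_lit 115) (.e (nat_lit 393291) (nat_lit 26) .nil)))) .nil))) (.nd (nat_lit 6) 
(.lf (nat_lit 180026) (.g (nat_lit 1142) (.e (nat_lit 57794) (nat_lit 245) (.e (nat_lit 1367) (nat_lit 103) (.e (nat_lit 294960) (nat_lit 13) (.e (nat_lit 393274) (nat_lit 23) (.e (nat_lit 433920) (nat_lit 19) .nil))))) .nil)) 
(.lf (nat_lit 180090) (.g (nat_lit 861) (.e (nat_lit 57809) (nat_lit 246) (.e (nat_lit 57879) (nat_lit 270) (.e (nat_lit 371) (nat_lit 32) (.e (nat_lit 426544) (nat_lit 30) (.e (nat_lit 368384) (nat_lit 10) (.e (nat_lit 581376) (nat_lit 19) .nil)))))) (.g (nat_lit 4) .nil .nil))))))) (.nd (nat_lit 3) (.nd (nat_lit 4) (.nd (nat_lit 5) (.nd (nat_lit 6) 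
(.lf (nat_lit 179974) (.g (nat_lit 2532) (.e (nat_lit 65280) (nat_lit 241) (.e (nat_lit 57375) (nat_lit 2) (.e (nat_lit 90176) (nat_lit 15) (.e (nat_lit 188450) (nat_lit 23) (.e (nat_lit 204858) (nat_lit 26) .nil))))) .nil)) 
(.lf (nat_lit 180038) (.g (nat_lit 1158) (.e (nat_lit 57806) (nat_lit 246) (.e (nat_lit 57878) (nat_lit 270) (.e (nat_lit 496) (nat_lit 39) (.e (nat_lit 483405) (nat_lit 26) (.e (nat_lit 385057) (nat_lit 22) .nil))))) .nil))) (.nd (nat_lit 6) 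
(.lf (nat_lit 180006) (.g (nat_lit 1424) (.e (nat_lit 57794) (nat_lit 245) (.e (nat_lit 1360) (nat_lit 102) (.e (nat_lit 286761) (nat_lit 13) (.e (nat_lit 393291) (nat_lit 26) .nil)))) .nil)) 
(.lf (nat_lit 180070) (.g (nat_lit 1817) (.e (nat_lit 57808) (nat_lit 246) (.e (nat_lit 57902) (nat_lit 277) (.e (nat_lit 131140) (nat_lit 27) (.e (nat_lit 426188) (nat_lit 9) (.e (nat_lit 426442) (nat_lit 19) (.e (nat_lit 106556) (nat_lit 15) .nil)))))) (.g (nat_lit 6) .nil .nil))))) (.nd (nat_lit 5) (.nd (nat_lit 6) 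
(.lf (nat_lit 179990) (.g (nat_lit 1962) (.e (nat_lit 57793) (nat_lit 245) (.e (nat_lit 1360) (nat_lit 102) (.e (nat_lit 286760) (nat_lit 13) (.e (nat_lit 393293) (nat_lit 26) (.e (nat_lit 483072) (nat_lit 40) .nil))))) .nil)) 
(.lf (nat_lit 180054) (.g (nat_lit 1641) (.e (nat_lit 57808) (nat_lit 246) (.e (nat_lit 57600) (nat_lit 84) (.e (nat_lit 516199) (nat_lit 26) (.e (nat_lit 336215) (nat_lit 13) (.e (nat_lit 401152) (nat_lit 0) (.e (nat_lit 6216) (nat_lit 333) .nil)))))) (.g (nat_lit 4) .nil .nil)))) (.nd (nat_lit 6) 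
(.lf (nat_lit 180022) (.g (nat_lit 665) (.e (nat_lit 57794) (nat_lit 245) (.e (nat_lit 1367) (nat_lit 103) (.e (nat_lit 294958) (nat_lit 13) (.e (nat_lit 393293) (nat_lit 26) .nil)))) .nil)) 
(.lf (nat_lit 180086) (.g (nat_lit 2175) (.e (nat_lit 57809) (nat_lit 246) (.e (nat_lit 57600) (nat_lit 84) (.e (nat_lit 516199) (nat_lit 26) (.e (nat_lit 336223) (nat_lit 13) (.e (nat_lit 393221) (nat_lit 0) (.e (nat_lit 6216) (nat_lit 333) .nil)))))) (.g (nat_lit 0) .nil .nil)))))) (.nd (nat_lit 4) (.nd (nat_lit 5) (.nd (nat_lit 6) 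
(.lf (nat_lit 179982) (.g (nat_lit 3313) (.e (nat_lit 57787) (nat_lit 245) (.e (nat_lit 1159) (nat_lit 86) (.e (nat_lit 49188) (nat_lit 11) (.e (nat_lit 16466) (nat_lit 13) (.e (nat_lit 483350) (nat_lit 17) (.e (nat_lit 6218) (nat_lit 333) .nil)))))) (.g (nat_lit 6) .nil .nil))) 
(.lf (nat_lit 180046) (.g (nat_lit 1439) (.e (nat_lit 57806) (nat_lit 246) (.e (nat_lit 57884) (nat_lit 270) (.e (nat_lit 1656) (nat_lit 115) (.e (nat_lit 393293) (nat_lit 26) .nil)))) .nil))) (.nd (nat_lit 6) 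
(.lf (nat_lit 180014) (.g (nat_lit 1393) (.e (nat_lit 57794) (nat_lit 245) (.e (nat_lit 1367) (nat_lit 103) (.e (nat_lit 294940) (nat_lit 9) (.e (nat_lit 336430) (nat_lit 29) (.e (nat_lit 450304) (nat_lit 4) .nil))))) .nil)) 
(.lf (nat_lit 180078) (.g (nat_lit 2122) (.e (nat_lit 57808) (nat_lit 246) (.e (nat_lit 57902) (nat_lit 277) (.e (nat_lit 131140) (nat_lit 27) (.e (nat_lit 426308) (nat_lit 12) (.e (nat_lit 475201) (nat_lit 40) (.e (nat_lit 704841) (nat_lit 15) .nil)))))) (.g (nat_lit 0) .nil .nil))))) (.nd (nat_lit 5) (.nd (nat_lit 6) 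
(.lf (nat_lit 179998) (.g (nat_lit 1389) (.e (nat_lit 57794) (nat_lit 245) (.e (nat_lit 1360) (nat_lit 102) (.e (nat_lit 286742) (nat_lit 9) (.e (nat_lit 336428) (nat_lit 29) (.e (nat_lit 450304) (nat_lit 4) .nil))))) .nil)) 
(.lf (nat_lit 180062) (.g (nat_lit 1642) (.e (nat_lit 57808) (nat_lit 246) (.e (nat_lit 57897) (nat_lit 274) (.e (nat_lit 65653) (nat_lit 27) (.e (nat_lit 426190) (nat_lit 9) (.e (nat_lit 426444) (nat_lit 19) (.e (nat_lit 106556) (nat_lit 15) .nil)))))) (.g (nat_lit 0) .nil .nil)))) (.nd (nat_lit 6) 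
(.lf (nat_lit 180030) (.g (nat_lit 2596) (.e (nat_lit 57803) (nat_lit 245) (.e (nat_lit 1348) (nat_lit 102) (.e (nat_lit 286761) (nat_lit 13) (.e (nat_lit 393293) (nat_lit 26) (.e (nat_lit 475195) (nat_lit 40) .nil))))) .nil)) 
(.lf (nat_lit 180094) (.g (nat_lit 2054) (.e (nat_lit 57809) (nat_lit 246) (.e (nat_lit 57879) (nat_lit 270) (.e (nat_lit 484) (nat_lit 38) (.e (nat_lit 475214) (nat_lit 42) (.e (nat_lit 720956) (nat_lit 25) (.e (nat_lit 114712) (nat_lit 21) (.e (nat_lit 57832) (nat_lit 250) (.e (nat_lit 92) (nat_lit 1) .nil)))))))) (.g (nat_lit 6) .nil .nil))))))))) 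
(.nd (nat_lit 1) (.nd (nat_lit 2) (.nd (nat_lit 3) (.nd (nat_lit 4) (.nd (nat_lit 5) 
(.nd (nat_lit 6) 
(.lf (nat_lit 179969) (.g (nat_lit 2493) (.e (nat_lit 65280) (nat_lit 241) (.e (nat_lit 57372) (nat_lit 2) (.e (nat_lit 90176) (nat_lit 15) (.e (nat_lit 188450) (nat_lit 23) (.e (nat_lit 204858) (nat_lit 26) .nil))))) .nil)) 
(.lf (nat_lit 180033) (.g (nat_lit 1489) (.e (nat_lit 57803) (nat_lit 245) (.e (nat_lit 1349) (nat_lit 102) (.e (nat_lit 286748) (nat_lit 9) (.e (nat_lit 336389) (nat_lit 27) (.e (nat_lit 426308) (nat_lit 12) .nil))))) .nil))) (.nd (nat_lit 6) 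
(.lf (nat_lit 180001) (.g (nat_lit 1583) (.e (nat_lit 57794) (nat_lit 245) (.e (nat_lit 1360) (nat_lit 102) (.e (nat_lit 286748) (nat_lit 9) (.e (nat_lit 336389) (nat_lit 27) .nil)))) .nil)) 
(.lf (nat_lit 180065) (.g (nat_lit 1052) (.e (nat_lit 57808) (nat_lit 246) (.e (nat_lit 57902) (nat_lit 277) (.e (nat_lit 131138) (nat_lit 27) (.e (nat_lit 426232) (nat_lit 9) (.e (nat_lit 426443) (nat_lit 19) (.e (nat_lit 106556) (nat_lit 15) .nil)))))) (.g (nat_lit 0) .nil .nil))))) (.nd (nat_lit 5) (.nd (nat_lit 6) 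
(.lf (nat_lit 179985) (.g (nat_lit 506) (.e (nat_lit 57793) (nat_lit 245) (.e (nat_lit 1360) (nat_lit 102) (.e (nat_lit 286743) (nat_lit 9) .nil))) .nil)) 
(.lf (nat_lit 180049) (.g (nat_lit 1715) (.e (nat_lit 57807) (nat_lit 246) (.e (nat_lit 57884) (nat_lit 270) (.e (nat_lit 1656) (nat_lit 115) (.e (nat_lit 393291) (nat_lit 26) .nil)))) .nil))) (.nd (nat_lit 6) 
(.lf (nat_lit 180017) (.g (nat_lit 258) (.e (nat_lit 57794) (nat_lit 245) (.e (nat_lit 1367) (nat_lit 103) (.e (nat_lit 294957) (nat_lit 13) .nil))) .nil)) 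
(.lf (nat_lit 180081) (.g (nat_lit 1387) (.e (nat_lit 57809) (nat_lit 246) (.e (nat_lit 57600) (nat_lit 84) (.e (nat_lit 516197) (nat_lit 26) (.e (nat_lit 336209) (nat_lit 13) (.e (nat_lit 393221) (nat_lit 0) (.e (nat_lit 6216) (nat_lit 333) .nil)))))) (.g (nat_lit 0) .nil .nil)))))) (.nd (nat_lit 4) (.nd (nat_lit 5) (.nd (nat_lit 6) 
(.lf (nat_lit 179977) (.g (nat_lit 812) (.e (nat_lit 65280) (nat_lit 241) (.e (nat_lit 57379) (nat_lit 3) (.e (nat_lit 98381) (nat_lit 31) .nil))) .nil)) 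
(.lf (nat_lit 180041) (.g (nat_lit 522) (.e (nat_lit 57806) (nat_lit 246) (.e (nat_lit 57884) (nat_lit 270) (.e (nat_lit 1423) (nat_lit 108) .nil))) .nil))) (.nd (nat_lit 6) 
(.lf (nat_lit 180009) (.g (nat_lit 1945) (.e (nat_lit 57794) (nat_lit 245) (.e (nat_lit 1360) (nat_lit 102) (.e (nat_lit 286761) (nat_lit 13) (.e (nat_lit 393293) (nat_lit 26) (.e (nat_lit 475201) (nat_lit 40) .nil))))) .nil)) 
(.lf (nat_lit 180073) (.g (nat_lit 1122) (.e (nat_lit 57808) (nat_lit 246) (.e (nat_lit 57902) (nat_lit 277) (.e (nat_lit 131140) (nat_lit 27) (.e (nat_lit 426197) (nat_lit 9) (.e (nat_lit 426442) (nat_lit 19) (.e (nat_lit 106556) (nat_lit 15) .nil)))))) (.g (nat_lit 5) .nil .nil))))) (.nd (nat_lit 5) (.nd (nat_lit 6) 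
(.lf (nat_lit 179993) (.g (nat_lit 1495) (.e (nat_lit 57793) (nat_lit 245) (.e (nat_lit 1360) (nat_lit 102) (.e (nat_lit 286761) (nat_lit 13) (.e (nat_lit 393293) (nat_lit 26) .nil)))) .nil)) 
(.lf (nat_lit 180057) (.g (nat_lit 1610) (.e (nat_lit 57808) (nat_lit 246) (.e (nat_lit 57884) (nat_lit 270) (.e (nat_lit 1656) (nat_lit 115) (.e (nat_lit 393270) (nat_lit 23) .nil)))) .nil))) (.nd (nat_lit 6) 
(.lf (nat_lit 180025) (.g (nat_lit 1558) (.e (nat_lit 57794) (nat_lit 245) (.e (nat_lit 1367) (nat_lit 103) (.e (nat_lit 294959) (nat_lit 13) (.e (nat_lit 393294) (nat_lit 26) (.e (nat_lit 475201) (nat_lit 40) .nil))))) .nil)) 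
(.lf (nat_lit 180089) (.g (nat_lit 1114) (.e (nat_lit 57809) (nat_lit 246) (.e (nat_lit 57879) (nat_lit 270) (.e (nat_lit 371) (nat_lit 32) (.e (nat_lit 426540) (nat_lit 29) (.e (nat_lit 360192) (nat_lit 2) .nil))))) .nil)))))) (.nd (nat_lit 3) (.nd (nat_lit 4) (.nd (nat_lit 5) (.nd (nat_lit 6) 
(.lf (nat_lit 179973) (.g (nat_lit 1924) (.e (nat_lit 65280) (nat_lit 241) (.e (nat_lit 57375) (nat_lit 2) (.e (nat_lit 90176) (nat_lit 15) (.e (nat_lit 188450) (nat_lit 23) (.e (nat_lit 204855) (nat_lit 26) .nil))))) .nil)) 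
(.lf (nat_lit 180037) (.g (nat_lit 155) (.e (nat_lit 57806) (nat_lit 246) (.e (nat_lit 57610) (nat_lit 109) (.e (nat_lit 720907) (nat_lit 11) .nil))) .nil))) (.nd (nat_lit 6) 
(.lf (nat_lit 180005) (.g (nat_lit 1266) (.e (nat_lit 57794) (nat_lit 245) (.e (nat_lit 1360) (nat_lit 102) (.e (nat_lit 286761) (nat_lit 13) (.e (nat_lit 393234) (nat_lit 17) .nil)))) .nil)) 
(.lf (nat_lit 180069) (.g (nat_lit 1681) (.e (nat_lit 57808) (nat_lit 246) (.e (nat_lit 57902) (nat_lit 277) (.e (nat_lit 131140) (nat_lit 27) (.e (nat_lit 426188) (nat_lit 9) (.e (nat_lit 426439) (nat_lit 19) (.e (nat_lit 106556) (nat_lit 15) .nil)))))) (.g (nat_lit 5) .nil .nil))))) (.nd (nat_lit 5) (.nd (nat_lit 6) 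
(.lf (nat_lit 179989) (.g (nat_lit 1859) (.e (nat_lit 57793) (nat_lit 245) (.e (nat_lit 1360) (nat_lit 102) (.e (nat_lit 286760) (nat_lit 13) (.e (nat_lit 393293) (nat_lit 26) (.e (nat_lit 475205) (nat_lit 40) .nil))))) .nil)) 
(.lf (nat_lit 180053) (.g (nat_lit 1022) (.e (nat_lit 57808) (nat_lit 246) (.e (nat_lit 57600) (nat_lit 84) (.e (nat_lit 516199) (nat_lit 26) (.e (nat_lit 336213) (nat_lit 13) (.e (nat_lit 393219) (nat_lit 0) (.e (nat_lit 6214) (nat_lit 333) .nil)))))) (.g (nat_lit 4) .nil .nil)))) (.nd (nat_lit 6) 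
(.lf (nat_lit 180021) (.g (nat_lit 665) (.e (nat_lit 57794) (nat_lit 245) (.e (nat_lit 1367) (nat_lit 103) (.e (nat_lit 294958) (nat_lit 13) (.e (nat_lit 393272) (nat_lit 23) .nil)))) .nil)) 
(.lf (nat_lit 180085) (.g (nat_lit 1924) (.e (nat_lit 57809) (nat_lit 246) (.e (nat_lit 57600) (nat_lit 84) (.e (nat_lit 516199) (nat_lit 26) (.e (nat_lit 336222) (nat_lit 13) (.e (nat_lit 393221) (nat_lit 0) (.e (nat_lit 6216) (nat_lit 333) .nil)))))) (.g (nat_lit 0) .nil .nil)))))) (.nd (nat_lit 4) (.nd (nat_lit 5) (.nd (nat_lit 6) 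
(.lf (nat_lit 179981) (.g (nat_lit 1288) (.e (nat_lit 57786) (nat_lit 245) (.e (nat_lit 2809) (nat_lit 180) (.e (nat_lit 303137) (nat_lit 10) (.e (nat_lit 434268) (nat_lit 36) .nil)))) .nil)) 
(.lf (nat_lit 180045) (.g (nat_lit 2372) (.e (nat_lit 57806) (nat_lit 246) (.e (nat_lit 57884) (nat_lit 270) (.e (nat_lit 1656) (nat_lit 115) (.e (nat_lit 393291) (nat_lit 26) (.e (nat_lit 475201) (nat_lit 40) .nil))))) .nil))) (.nd (nat_lit 6) 
(.lf (nat_lit 180013) (.g (nat_lit 973) (.e (nat_lit 57794) (nat_lit 245) (.e (nat_lit 1367) (nat_lit 103) (.e (nat_lit 294940) (nat_lit 9) (.e (nat_lit 336428) (nat_lit 29) (.e (nat_lit 450304) (nat_lit 4) .nil))))) .nil)) 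
(.lf (nat_lit 180077) (.g (nat_lit 2263) (.e (nat_lit 57808) (nat_lit 246) (.e (nat_lit 57902) (nat_lit 277) (.e (nat_lit 131140) (nat_lit 27) (.e (nat_lit 426306) (nat_lit 12) (.e (nat_lit 475201) (nat_lit 40) (.e (nat_lit 704841) (nat_lit 15) .nil)))))) (.g (nat_lit 0) .nil .nil))))) (.nd (nat_lit 5) (.nd (nat_lit 6) 
(.lf (nat_lit 179997) (.g (nat_lit 2723) (.e (nat_lit 57794) (nat_lit 245) (.e (nat_lit 1159) (nat_lit 86) (.e (nat_lit 49188) (nat_lit 11) (.e (nat_lit 16466) (nat_lit 13) (.e (nat_lit 483350) (nat_lit 17) (.e (nat_lit 6212) (nat_lit 333) .nil)))))) (.g (nat_lit 6) .nil .nil))) 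
(.lf (nat_lit 180061) (.g (nat_lit 1549) (.e (nat_lit 57808) (nat_lit 246) (.e (nat_lit 57895) (nat_lit 272) (.e (nat_lit 16487) (nat_lit 27) (.e (nat_lit 336201) (nat_lit 12) (.e (nat_lit 385057) (nat_lit 22) (.e (nat_lit 499780) (nat_lit 1) .nil)))))) (.g (nat_lit 5) .nil .nil)))) (.nd (nat_lit 6) 
(.lf (nat_lit 180029) (.g (nat_lit 1445) (.e (nat_lit 57803) (nat_lit 245) (.e (nat_lit 1348) (nat_lit 102) (.e (nat_lit 286761) (nat_lit 13) (.e (nat_lit 393293) (nat_lit 26) .nil)))) .nil)) 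
(.lf (nat_lit 180093) (.g (nat_lit 1224) (.e (nat_lit 57809) (nat_lit 246) (.e (nat_lit 57879) (nat_lit 270) (.e (nat_lit 371) (nat_lit 32) (.e (nat_lit 426555) (nat_lit 32) (.e (nat_lit 384768) (nat_lit 2) .nil))))) .nil))))))) (.nd (nat_lit 2) (.nd (nat_lit 3) (.nd (nat_lit 4) (.nd (nat_lit 5) (.nd (nat_lit 6) 
(.lf (nat_lit 179971) (.g (nat_lit 2098) (.e (nat_lit 65280) (nat_lit 241) (.e (nat_lit 57373) (nat_lit 2) (.e (nat_lit 90176) (nat_lit 15) (.e (nat_lit 188450) (nat_lit 23) (.e (nat_lit 204859) (nat_lit 26) .nil))))) .nil)) 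
(.lf (nat_lit 180035) (.g (nat_lit 1129) (.e (nat_lit 57806) (nat_lit 246) (.e (nat_lit 57596) (nat_lit 82) (.e (nat_lit 499900) (nat_lit 7) (.e (nat_lit 24655) (nat_lit 13) (.e (nat_lit 401152) (nat_lit 0) .nil))))) .nil))) (.nd (nat_lit 6) 
(.lf (nat_lit 180003) (.g (nat_lit 1099) (.e (nat_lit 57794) (nat_lit 245) (.e (nat_lit 1360) (nat_lit 102) (.e (nat_lit 286760) (nat_lit 13) (.e (nat_lit 393293) (nat_lit 26) .nil)))) .nil)) 
(.lf (nat_lit 180067) (.g (nat_lit 1460) (.e (nat_lit 57808) (nat_lit 246) (.e (nat_lit 57902) (nat_lit 277) (.e (nat_lit 131140) (nat_lit 27) (.e (nat_lit 426186) (nat_lit 9) (.e (nat_lit 426444) (nat_lit 19) (.e (nat_lit 106556) (nat_lit 15) .nil)))))) (.g (nat_lit 0) .nil .nil))))) (.nd (nat_lit 5) (.nd (nat_lit 6) 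
(.lf (nat_lit 179987) (.g (nat_lit 1214) (.e (nat_lit 57793) (nat_lit 245) (.e (nat_lit 1360) (nat_lit 102) (.e (nat_lit 286760) (nat_lit 13) (.e (nat_lit 393293) (nat_lit 26) .nil)))) .nil)) 
(.lf (nat_lit 180051) (.g (nat_lit 2142) (.e (nat_lit 57808) (nat_lit 246) (.e (nat_lit 57584) (nat_lit 61) (.e (nat_lit 5193) (nat_lit 294) (.e (nat_lit 57437) (nat_lit 17) (.e (nat_lit 376860) (nat_lit 21) (.e (nat_lit 57832) (nat_lit 250) (.e (nat_lit 92) (nat_lit 1) (.e (nat_lit 57814) (nat_lit 246) .nil)))))))) (.g (nat_lit 6) .nil .nil)))) (.nd (nat_lit 6) 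
(.lf (nat_lit 180019) (.g (nat_lit 722) (.e (nat_lit 57794) (nat_lit 245) (.e (nat_lit 1367) (nat_lit 103) (.e (nat_lit 294957) (nat_lit 13) (.e (nat_lit 393279) (nat_lit 23) (.e (nat_lit 426443) (nat_lit 19) .nil))))) .nil)) 
(.lf (nat_lit 180083) (.g (nat_lit 1538) (.e (nat_lit 57809) (nat_lit 246) (.e (nat_lit 57600) (nat_lit 84) (.e (nat_lit 516199) (nat_lit 26) (.e (nat_lit 336221) (nat_lit 13) (.e (nat_lit 393221) (nat_lit 0) (.e (nat_lit 6216) (nat_lit 333) .nil)))))) (.g (nat_lit 5) .nil .nil)))))) (.nd (nat_lit 4) (.nd (nat_lit 5) (.nd (nat_lit 6) 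
(.lf (nat_lit 179979) (.g (nat_lit 1860) (.e (nat_lit 65280) (nat_lit 241) (.e (nat_lit 57447) (nat_lit 19) (.e (nat_lit 393260) (nat_lit 21) (.e (nat_lit 409649) (nat_lit 18) .nil)))) .nil)) 
(.lf (nat_lit 180043) (.g (nat_lit 1834) (.e (nat_lit 57806) (nat_lit 246) (.e (nat_lit 57884) (nat_lit 270) (.e (nat_lit 1656) (nat_lit 115) (.e (nat_lit 393270) (nat_lit 23) (.e (nat_lit 426442) (nat_lit 19) .nil))))) .nil))) (.nd (nat_lit 6) 
(.lf (nat_lit 180011) (.g (nat_lit 1205) (.e (nat_lit 57794) (nat_lit 245) (.e (nat_lit 1367) (nat_lit 103) (.e (nat_lit 294938) (nat_lit 9) (.e (nat_lit 336430) (nat_lit 29) (.e (nat_lit 450304) (nat_lit 4) (.e (nat_lit 106556) (nat_lit 15) .nil)))))) (.g (nat_lit 4) .nil .nil))) 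
(.lf (nat_lit 180075) (.g (nat_lit 2152) (.e (nat_lit 57808) (nat_lit 246) (.e (nat_lit 57902) (nat_lit 277) (.e (nat_lit 131140) (nat_lit 27) (.e (nat_lit 426199) (nat_lit 9) (.e (nat_lit 426444) (nat_lit 19) (.e (nat_lit 106556) (nat_lit 15) .nil)))))) (.g (nat_lit 0) .nil .nil))))) (.nd (nat_lit 5) (.nd (nat_lit 6) 
(.lf (nat_lit 179995) (.g (nat_lit 942) (.e (nat_lit 57794) (nat_lit 245) (.e (nat_lit 1114) (nat_lit 82) (.e (nat_lit 8469) (nat_lit 148) (.e (nat_lit 163919) (nat_lit 14) (.e (nat_lit 450304) (nat_lit 4) (.e (nat_lit 106556) (nat_lit 15) (.e (nat_lit 57816) (nat_lit 246) .nil))))))) (.g (nat_lit 4) .nil .nil))) 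
(.lf (nat_lit 180059) (.g (nat_lit 1581) (.e (nat_lit 57808) (nat_lit 246) (.e (nat_lit 57884) (nat_lit 270) (.e (nat_lit 1656) (nat_lit 115) (.e (nat_lit 393293) (nat_lit 26) .nil)))) .nil))) (.nd (nat_lit 6) 
(.lf (nat_lit 180027) (.g (nat_lit 995) (.e (nat_lit 57795) (nat_lit 245) (.e (nat_lit 1159) (nat_lit 86) (.e (nat_lit 49188) (nat_lit 11) (.e (nat_lit 16465) (nat_lit 13) (.e (nat_lit 491264) (nat_lit 17) .nil))))) .nil)) 
(.lf (nat_lit 180091) (.g (nat_lit 1708) (.e (nat_lit 57809) (nat_lit 246) (.e (nat_lit 57879) (nat_lit 270) (.e (nat_lit 371) (nat_lit 32) (.e (nat_lit 426544) (nat_lit 30) (.e (nat_lit 360477) (nat_lit 11) (.e (nat_lit 589568) (nat_lit 19) .nil)))))) (.g (nat_lit 5) .nil .nil))))))) (.nd (nat_lit 3) (.nd (nat_lit 4) (.nd (nat_lit 5) (.nd (nat_lit 6) 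
(.lf (nat_lit 179975) (.g (nat_lit 1104) (.e (nat_lit 65280) (nat_lit 241) (.e (nat_lit 57378) (nat_lit 3) (.e (nat_lit 98372) (nat_lit 29) (.e (nat_lit 450579) (nat_lit 5) .nil)))) .nil)) 
(.lf (nat_lit 180039) (.g (nat_lit 517) (.e (nat_lit 57806) (nat_lit 246) (.e (nat_lit 57884) (nat_lit 270) (.e (nat_lit 1413) (nat_lit 108) .nil))) .nil))) (.nd (nat_lit 6) 
(.lf (nat_lit 180007) (.g (nat_lit 1369) (.e (nat_lit 57794) (nat_lit 245) (.e (nat_lit 1360) (nat_lit 102) (.e (nat_lit 286761) (nat_lit 13) (.e (nat_lit 393293) (nat_lit 26) .nil)))) .nil)) 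
(.lf (nat_lit 180071) (.g (nat_lit 1360) (.e (nat_lit 57808) (nat_lit 246) (.e (nat_lit 57902) (nat_lit 277) (.e (nat_lit 131140) (nat_lit 27) (.e (nat_lit 426189) (nat_lit 9) (.e (nat_lit 426444) (nat_lit 19) (.e (nat_lit 106556) (nat_lit 15) .nil)))))) (.g (nat_lit 5) .nil .nil))))) (.nd (nat_lit 5) (.nd (nat_lit 6) 
(.lf (nat_lit 179991) (.g (nat_lit 477) (.e (nat_lit 57793) (nat_lit 245) (.e (nat_lit 1360) (nat_lit 102) (.e (nat_lit 286761) (nat_lit 13) .nil))) .nil)) 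
(.lf (nat_lit 180055) (.g (nat_lit 1170) (.e (nat_lit 57808) (nat_lit 246) (.e (nat_lit 57600) (nat_lit 84) (.e (nat_lit 516199) (nat_lit 26) (.e (nat_lit 336223) (nat_lit 13) (.e (nat_lit 401152) (nat_lit 0) (.e (nat_lit 6216) (nat_lit 333) .nil)))))) (.g (nat_lit 4) .nil .nil)))) (.nd (nat_lit 6) 
(.lf (nat_lit 180023) (.g (nat_lit 2653) (.e (nat_lit 57794) (nat_lit 245) (.e (nat_lit 1367) (nat_lit 103) (.e (nat_lit 294958) (nat_lit 13) (.e (nat_lit 393294) (nat_lit 26) (.e (nat_lit 475201) (nat_lit 40) (.e (nat_lit 704839) (nat_lit 15) .nil)))))) (.g (nat_lit 6) .nil .nil))) 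
(.lf (nat_lit 180087) (.g (nat_lit 2106) (.e (nat_lit 57809) (nat_lit 246) (.e (nat_lit 57602) (nat_lit 107) (.e (nat_lit 704734) (nat_lit 11) (.e (nat_lit 16433) (nat_lit 9) (.e (nat_lit 426550) (nat_lit 31) (.e (nat_lit 368656) (nat_lit 14) .nil)))))) (.g (nat_lit 6) .nil .nil)))))) (.nd (nat_lit 4) (.nd (nat_lit 5) (.nd (nat_lit 6) 
(.lf (nat_lit 179983) (.g (nat_lit 1683) (.e (nat_lit 57791) (nat_lit 245) (.e (nat_lit 1360) (nat_lit 102) (.e (nat_lit 286761) (nat_lit 13) (.e (nat_lit 393293) (nat_lit 26) .nil)))) .nil)) 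
(.lf (nat_lit 180047) (.g (nat_lit 152) (.e (nat_lit 57806) (nat_lit 246) (.e (nat_lit 57895) (nat_lit 272) (.e (nat_lit 16487) (nat_lit 27) .nil))) .nil))) (.nd (nat_lit 6) 
(.lf (nat_lit 180015) (.g (nat_lit 1227) (.e (nat_lit 57794) (nat_lit 245) (.e (nat_lit 1367) (nat_lit 103) (.e (nat_lit 294940) (nat_lit 9) (.e (nat_lit 336443) (nat_lit 32) (.e (nat_lit 474880) (nat_lit 4) .nil))))) .nil)) 
(.lf (nat_lit 180079) (.g (nat_lit 2260) (.e (nat_lit 57808) (nat_lit 246) (.e (nat_lit 57902) (nat_lit 277) (.e (nat_lit 131140) (nat_lit 27) (.e (nat_lit 426316) (nat_lit 12) (.e (nat_lit 475201) (nat_lit 40) (.e (nat_lit 704841) (nat_lit 15) .nil)))))) (.g (nat_lit 0) .nil .nil))))) (.nd (nat_lit 5) (.nd (nat_lit 6) 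
(.lf (nat_lit 179999) (.g (nat_lit 1179) (.e (nat_lit 57794) (nat_lit 245) (.e (nat_lit 1360) (nat_lit 102) (.e (nat_lit 286743) (nat_lit 9) (.e (nat_lit 336427) (nat_lit 29) .nil)))) .nil)) 
(.lf (nat_lit 180063) (.g (nat_lit 921) (.e (nat_lit 57808) (nat_lit 246) (.e (nat_lit 57900) (nat_lit 276) (.e (nat_lit 122936) (nat_lit 23) (.e (nat_lit 516131) (nat_lit 3) (.e (nat_lit 221218) (nat_lit 24) .nil))))) .nil))) (.nd (nat_lit 6) 
(.lf (nat_lit 180031) (.g (nat_lit 2470) (.e (nat_lit 57803) (nat_lit 245) (.e (nat_lit 1348) (nat_lit 102) (.e (nat_lit 286761) (nat_lit 13) (.e (nat_lit 393293) (nat_lit 26) (.e (nat_lit 475196) (nat_lit 40) .nil))))) .nil)) 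
(.lf (nat_lit 180095) (.g (nat_lit 877) (.e (nat_lit 57809) (nat_lit 246) (.e (nat_lit 57879) (nat_lit 270) (.e (nat_lit 496) (nat_lit 39) (.e (nat_lit 483376) (nat_lit 22) (.e (nat_lit 327680) (nat_lit 0) (.e (nat_lit 636) (nat_lit 50) (.e (nat_lit 581376) (nat_lit 19) .nil))))))) (.g (nat_lit 4) .nil .nil))))))))))

noncomputable def tv2413 : DT := (.nd (nat_lit 0) (.nd (nat_lit 1) (.nd (nat_lit 2) (.nd (nat_lit 3) (.nd (nat_lit 4) (.nd (nat_lit 5) 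
(.lf (nat_lit 180096) (.g (nat_lit 755) (.e (nat_lit 57809) (nat_lit 246) (.e (nat_lit 57879) (nat_lit 270) (.e (nat_lit 496) (nat_lit 39) (.e (nat_lit 483391) (nat_lit 23) (.e (nat_lit 336317) (nat_lit 17) .nil))))) .nil)) 
(.lf (nat_lit 180128) (.g (nat_lit 2239) (.e (nat_lit 57810) (nat_lit 246) (.e (nat_lit 57602) (nat_lit 107) (.e (nat_lit 704734) (nat_lit 11) (.e (nat_lit 16468) (nat_lit 13) (.e (nat_lit 483350) (nat_lit 17) (.e (nat_lit 6218) (nat_lit 333) .nil)))))) (.g (nat_lit 6) .nil .nil)))) (.nd (nat_lit 5) 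
(.lf (nat_lit 180112) (.g (nat_lit 1352) (.e (nat_lit 57809) (nat_lit 246) (.e (nat_lit 57902) (nat_lit 277) (.e (nat_lit 131140) (nat_lit 27) (.e (nat_lit 426189) (nat_lit 9) (.e (nat_lit 426444) (nat_lit 19) (.e (nat_lit 106556) (nat_lit 15) .nil)))))) (.g (nat_lit 5) .nil .nil))) 
(.lf (nat_lit 180144) (.g (nat_lit 2025) (.e (nat_lit 57810) (nat_lit 246) (.e (nat_lit 57902) (nat_lit 277) (.e (nat_lit 131140) (nat_lit 27) (.e (nat_lit 426306) (nat_lit 12) (.e (nat_lit 475201) (nat_lit 40) (.e (nat_lit 704841) (nat_lit 15) .nil)))))) (.g (nat_lit 6) .nil .nil))))) (.nd (nat_lit 4) (.nd (nat_lit 5) 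
(.lf (nat_lit 180104) (.g (nat_lit 853) (.e (nat_lit 57809) (nat_lit 246) (.e (nat_lit 57883) (nat_lit 270) (.e (nat_lit 496) (nat_lit 39) (.e (nat_lit 483391) (nat_lit 23) (.e (nat_lit 336317) (nat_lit 17) .nil))))) .nil)) 
(.lf (nat_lit 180136) (.g (nat_lit 635) (.e (nat_lit 57810) (nat_lit 246) (.e (nat_lit 57902) (nat_lit 277) (.e (nat_lit 131138) (nat_lit 27) (.e (nat_lit 426262) (nat_lit 9) (.e (nat_lit 426441) (nat_lit 19) (.e (nat_lit 106556) (nat_lit 15) .nil)))))) (.g (nat_lit 4) .nil .nil)))) (.nd (nat_lit 5) 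
(.lf (nat_lit 180120) (.g (nat_lit 2126) (.e (nat_lit 57809) (nat_lit 246) (.e (nat_lit 57902) (nat_lit 277) (.e (nat_lit 131140) (nat_lit 27) (.e (nat_lit 426316) (nat_lit 12) (.e (nat_lit 475201) (nat_lit 40) (.e (nat_lit 704841) (nat_lit 15) .nil)))))) (.g (nat_lit 0) .nil .nil))) 
(.lf (nat_lit 180152) (.g (nat_lit 1103) (.e (nat_lit 57811) (nat_lit 246) (.e (nat_lit 57879) (nat_lit 270) (.e (nat_lit 371) (nat_lit 32) (.e (nat_lit 426540) (nat_lit 29) (.e (nat_lit 360192) (nat_lit 2) (.e (nat_lit 204544) (nat_lit 19) .nil)))))) (.g (nat_lit 4) .nil .nil)))))) (.nd (nat_lit 3) (.nd (nat_lit 4) (.nd (nat_lit 5) 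
(.lf (nat_lit 180100) (.g (nat_lit 1921) (.e (nat_lit 57809) (nat_lit 246) (.e (nat_lit 57883) (nat_lit 270) (.e (nat_lit 371) (nat_lit 32) (.e (nat_lit 426544) (nat_lit 30) (.e (nat_lit 360477) (nat_lit 11) (.e (nat_lit 589568) (nat_lit 19) .nil)))))) (.g (nat_lit 5) .nil .nil))) 
(.lf (nat_lit 180132) (.g (nat_lit 1182) (.e (nat_lit 57810) (nat_lit 246) (.e (nat_lit 57895) (nat_lit 272) (.e (nat_lit 16487) (nat_lit 27) (.e (nat_lit 336086) (nat_lit 9) (.e (nat_lit 343808) (nat_lit 17) (.e (nat_lit 196698) (nat_lit 19) .nil)))))) (.g (nat_lit 4) .nil .nil)))) (.nd (nat_lit 5) 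
(.lf (nat_lit 180116) (.g (nat_lit 1710) (.e (nat_lit 57809) (nat_lit 246) (.e (nat_lit 57902) (nat_lit 277) (.e (nat_lit 131140) (nat_lit 27) (.e (nat_lit 426306) (nat_lit 12) (.e (nat_lit 475201) (nat_lit 40) (.e (nat_lit 704839) (nat_lit 15) .nil)))))) (.g (nat_lit 5) .nil .nil))) 
(.lf (nat_lit 180148) (.g (nat_lit 1835) (.e (nat_lit 57811) (nat_lit 246) (.e (nat_lit 57602) (nat_lit 107) (.e (nat_lit 704734) (nat_lit 11) (.e (nat_lit 16433) (nat_lit 9) (.e (nat_lit 426550) (nat_lit 31) (.e (nat_lit 368656) (nat_lit 14) .nil)))))) (.g (nat_lit 5) .nil .nil))))) (.nd (nat_lit 4) (.nd (nat_lit 5) 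
(.lf (nat_lit 180108) (.g (nat_lit 1065) (.e (nat_lit 57809) (nat_lit 246) (.e (nat_lit 57902) (nat_lit 277) (.e (nat_lit 131138) (nat_lit 27) (.e (nat_lit 426232) (nat_lit 9) (.e (nat_lit 426443) (nat_lit 19) (.e (nat_lit 106556) (nat_lit 15) .nil)))))) (.g (nat_lit 0) .nil .nil))) 
(.lf (nat_lit 180140) (.g (nat_lit 1207) (.e (nat_lit 57810) (nat_lit 246) (.e (nat_lit 57902) (nat_lit 277) (.e (nat_lit 131140) (nat_lit 27) (.e (nat_lit 426197) (nat_lit 9) (.e (nat_lit 426442) (nat_lit 19) (.e (nat_lit 106556) (nat_lit 15) .nil)))))) (.g (nat_lit 6) .nil .nil)))) (.nd (nat_lit 5) 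
(.lf (nat_lit 180124) (.g (nat_lit 1759) (.e (nat_lit 57810) (nat_lit 246) (.e (nat_lit 57600) (nat_lit 84) (.e (nat_lit 524032) (nat_lit 26) (.e (nat_lit 336213) (nat_lit 13) (.e (nat_lit 393221) (nat_lit 0) (.e (nat_lit 6216) (nat_lit 333) .nil)))))) (.g (nat_lit 5) .nil .nil))) 
(.lf (nat_lit 180156) (.g (nat_lit 1163) (.e (nat_lit 57811) (nat_lit 246) (.e (nat_lit 57879) (nat_lit 270) (.e (nat_lit 371) (nat_lit 32) (.e (nat_lit 426555) (nat_lit 32) (.e (nat_lit 384768) (nat_lit 2) (.e (nat_lit 204544) (nat_lit 19) .nil)))))) (.g (nat_lit 4) .nil .nil))))))) (.nd (nat_lit 2) (.nd (nat_lit 3) (.nd (nat_lit 4) (.nd (nat_lit 5) 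
(.lf (nat_lit 180098) (.g (nat_lit 1229) (.e (nat_lit 57809) (nat_lit 246) (.e (nat_lit 57883) (nat_lit 270) (.e (nat_lit 371) (nat_lit 32) (.e (nat_lit 426540) (nat_lit 29) (.e (nat_lit 360192) (nat_lit 2) .nil))))) .nil)) 
(.lf (nat_lit 180130) (.g (nat_lit 1115) (.e (nat_lit 57810) (nat_lit 246) (.e (nat_lit 57883) (nat_lit 270) (.e (nat_lit 496) (nat_lit 39) (.e (nat_lit 483382) (nat_lit 23) (.e (nat_lit 343808) (nat_lit 17) .nil))))) .nil))) (.nd (nat_lit 5) 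
(.lf (nat_lit 180114) (.g (nat_lit 1335) (.e (nat_lit 57809) (nat_lit 246) (.e (nat_lit 57902) (nat_lit 277) (.e (nat_lit 131140) (nat_lit 27) (.e (nat_lit 426199) (nat_lit 9) (.e (nat_lit 426442) (nat_lit 19) (.e (nat_lit 106556) (nat_lit 15) .nil)))))) (.g (nat_lit 5) .nil .nil))) 
(.lf (nat_lit 180146) (.g (nat_lit 2024) (.e (nat_lit 57810) (nat_lit 246) (.e (nat_lit 57902) (nat_lit 277) (.e (nat_lit 131140) (nat_lit 27) (.e (nat_lit 426316) (nat_lit 12) (.e (nat_lit 475201) (nat_lit 40) (.e (nat_lit 704841) (nat_lit 15) .nil)))))) (.g (nat_lit 6) .nil .nil))))) (.nd (nat_lit 4) (.nd (nat_lit 5) 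
(.lf (nat_lit 180106) (.g (nat_lit 1597) (.e (nat_lit 57809) (nat_lit 246) (.e (nat_lit 57895) (nat_lit 272) (.e (nat_lit 16487) (nat_lit 27) (.e (nat_lit 336201) (nat_lit 12) (.e (nat_lit 385057) (nat_lit 22) (.e (nat_lit 499780) (nat_lit 1) .nil)))))) (.g (nat_lit 5) .nil .nil))) 
(.lf (nat_lit 180138) (.g (nat_lit 2012) (.e (nat_lit 57810) (nat_lit 246) (.e (nat_lit 57902) (nat_lit 277) (.e (nat_lit 131140) (nat_lit 27) (.e (nat_lit 426187) (nat_lit 9) (.e (nat_lit 426444) (nat_lit 19) (.e (nat_lit 106556) (nat_lit 15) .nil)))))) (.g (nat_lit 0) .nil .nil)))) (.nd (nat_lit 5) 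
(.lf (nat_lit 180122) (.g (nat_lit 1537) (.e (nat_lit 57810) (nat_lit 246) (.e (nat_lit 57600) (nat_lit 84) (.e (nat_lit 516199) (nat_lit 26) (.e (nat_lit 336221) (nat_lit 13) (.e (nat_lit 393221) (nat_lit 0) (.e (nat_lit 6216) (nat_lit 333) .nil)))))) (.g (nat_lit 5) .nil .nil))) 
(.lf (nat_lit 180154) (.g (nat_lit 1724) (.e (nat_lit 57811) (nat_lit 246) (.e (nat_lit 57879) (nat_lit 270) (.e (nat_lit 371) (nat_lit 32) (.e (nat_lit 426544) (nat_lit 30) (.e (nat_lit 360477) (nat_lit 11) (.e (nat_lit 589568) (nat_lit 19) .nil)))))) (.g (nat_lit 5) .nil .nil)))))) (.nd (nat_lit 3) (.nd (nat_lit 4) (.nd (nat_lit 5) 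
(.lf (nat_lit 180102) (.g (nat_lit 1323) (.e (nat_lit 57809) (nat_lit 246) (.e (nat_lit 57883) (nat_lit 270) (.e (nat_lit 371) (nat_lit 32) (.e (nat_lit 426555) (nat_lit 32) (.e (nat_lit 384768) (nat_lit 2) .nil))))) .nil)) 
(.lf (nat_lit 180134) (.g (nat_lit 686) (.e (nat_lit 57810) (nat_lit 246) (.e (nat_lit 57902) (nat_lit 277) (.e (nat_lit 131138) (nat_lit 27) (.e (nat_lit 426228) (nat_lit 9) (.e (nat_lit 426443) (nat_lit 19) (.e (nat_lit 106556) (nat_lit 15) .nil)))))) (.g (nat_lit 5) .nil .nil)))) (.nd (nat_lit 5) 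
(.lf (nat_lit 180118) (.g (nat_lit 1979) (.e (nat_lit 57809) (nat_lit 246) (.e (nat_lit 57902) (nat_lit 277) (.e (nat_lit 131140) (nat_lit 27) (.e (nat_lit 426308) (nat_lit 12) (.e (nat_lit 475201) (nat_lit 40) (.e (nat_lit 704841) (nat_lit 15) .nil)))))) (.g (nat_lit 6) .nil .nil))) 
(.lf (nat_lit 180150) (.g (nat_lit 1686) (.e (nat_lit 57811) (nat_lit 246) (.e (nat_lit 57602) (nat_lit 107) (.e (nat_lit 704734) (nat_lit 11) (.e (nat_lit 16438) (nat_lit 9) (.e (nat_lit 426550) (nat_lit 31) (.e (nat_lit 368656) (nat_lit 14) .nil)))))) (.g (nat_lit 5) .nil .nil))))) (.nd (nat_lit 4) (.nd (nat_lit 5) 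
(.lf (nat_lit 180110) (.g (nat_lit 1452) (.e (nat_lit 57809) (nat_lit 246) (.e (nat_lit 57902) (nat_lit 277) (.e (nat_lit 131140) (nat_lit 27) (.e (nat_lit 426186) (nat_lit 9) (.e (nat_lit 426444) (nat_lit 19) (.e (nat_lit 106556) (nat_lit 15) .nil)))))) (.g (nat_lit 0) .nil .nil))) 
(.lf (nat_lit 180142) (.g (nat_lit 2167) (.e (nat_lit 57810) (nat_lit 246) (.e (nat_lit 57902) (nat_lit 277) (.e (nat_lit 131140) (nat_lit 27) (.e (nat_lit 426199) (nat_lit 9) (.e (nat_lit 426444) (nat_lit 19) (.e (nat_lit 106556) (nat_lit 15) .nil)))))) (.g (nat_lit 0) .nil .nil)))) (.nd (nat_lit 5) 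
(.lf (nat_lit 180126) (.g (nat_lit 1547) (.e (nat_lit 57810) (nat_lit 246) (.e (nat_lit 57602) (nat_lit 107) (.e (nat_lit 704734) (nat_lit 11) (.e (nat_lit 16438) (nat_lit 9) (.e (nat_lit 426533) (nat_lit 28) (.e (nat_lit 344084) (nat_lit 14) .nil)))))) (.g (nat_lit 5) .nil .nil))) 
(.lf (nat_lit 180158) (.g (nat_lit 3566) (.e (nat_lit 57811) (nat_lit 246) (.e (nat_lit 57883) (nat_lit 270) (.e (nat_lit 371) (nat_lit 32) (.e (nat_lit 426482) (nat_lit 27) (.e (nat_lit 336060) (nat_lit 7) (.e (nat_lit 319505) (nat_lit 10) (.e (nat_lit 618) (nat_lit 48) (.e (nat_lit 564992) (nat_lit 19) .nil)))))))) (.g (nat_lit 7) .nil .nil)))))))) 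
(.nd (nat_lit 1) (.nd (nat_lit 2) (.nd (nat_lit 3) (.nd (nat_lit 4) (.nd (nat_lit 5) 
(.lf (nat_lit 180097) (.g (nat_lit 3495) (.e (nat_lit 57809) (nat_lit 246) (.e (nat_lit 57883) (nat_lit 270) (.e (nat_lit 371) (nat_lit 32) (.e (nat_lit 426482) (nat_lit 27) (.e (nat_lit 336060) (nat_lit 7) (.e (nat_lit 319505) (nat_lit 10) (.e (nat_lit 618) (nat_lit 48) (.e (nat_lit 564992) (nat_lit 19) .nil)))))))) (.g (nat_lit 7) .nil .nil))) 
(.lf (nat_lit 180129) (.g (nat_lit 422) (.e (nat_lit 57810) (nat_lit 246) (.e (nat_lit 57883) (nat_lit 270) (.e (nat_lit 496) (nat_lit 39) .nil))) .nil))) (.nd (nat_lit 5) 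
(.lf (nat_lit 180113) (.g (nat_lit 1659) (.e (nat_lit 57809) (nat_lit 246) (.e (nat_lit 57902) (nat_lit 277) (.e (nat_lit 131140) (nat_lit 27) (.e (nat_lit 426197) (nat_lit 9) (.e (nat_lit 426444) (nat_lit 19) (.e (nat_lit 106556) (nat_lit 15) .nil)))))) (.g (nat_lit 0) .nil .nil))) 
(.lf (nat_lit 180145) (.g (nat_lit 1875) (.e (nat_lit 57810) (nat_lit 246) (.e (nat_lit 57902) (nat_lit 277) (.e (nat_lit 131140) (nat_lit 27) (.e (nat_lit 426308) (nat_lit 12) (.e (nat_lit 475201) (nat_lit 40) (.e (nat_lit 704841) (nat_lit 15) .nil)))))) (.g (nat_lit 6) .nil .nil))))) (.nd (nat_lit 4) (.nd (nat_lit 5) 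
(.lf (nat_lit 180105) (.g (nat_lit 1181) (.e (nat_lit 57809) (nat_lit 246) (.e (nat_lit 57895) (nat_lit 272) (.e (nat_lit 16487) (nat_lit 27) (.e (nat_lit 336086) (nat_lit 9) (.e (nat_lit 343808) (nat_lit 17) .nil))))) .nil)) 
(.lf (nat_lit 180137) (.g (nat_lit 1475) (.e (nat_lit 57810) (nat_lit 246) (.e (nat_lit 57902) (nat_lit 277) (.e (nat_lit 131140) (nat_lit 27) (.e (nat_lit 426186) (nat_lit 9) (.e (nat_lit 426444) (nat_lit 19) (.e (nat_lit 106556) (nat_lit 15) .nil)))))) (.g (nat_lit 0) .nil .nil)))) (.nd (nat_lit 5) 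
(.lf (nat_lit 180121) (.g (nat_lit 1176) (.e (nat_lit 57810) (nat_lit 246) (.e (nat_lit 57596) (nat_lit 82) (.e (nat_lit 499900) (nat_lit 7) (.e (nat_lit 24657) (nat_lit 13) (.e (nat_lit 401152) (nat_lit 0) (.e (nat_lit 6216) (nat_lit 333) .nil)))))) (.g (nat_lit 4) .nil .nil))) 
(.lf (nat_lit 180153) (.g (nat_lit 877) (.e (nat_lit 57811) (nat_lit 246) (.e (nat_lit 57879) (nat_lit 270) (.e (nat_lit 371) (nat_lit 32) (.e (nat_lit 426544) (nat_lit 30) (.e (nat_lit 368384) (nat_lit 10) (.e (nat_lit 581376) (nat_lit 19) .nil)))))) (.g (nat_lit 4) .nil .nil)))))) (.nd (nat_lit 3) (.nd (nat_lit 4) (.nd (nat_lit 5) 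
(.lf (nat_lit 180101) (.g (nat_lit 1790) (.e (nat_lit 57809) (nat_lit 246) (.e (nat_lit 57883) (nat_lit 270) (.e (nat_lit 371) (nat_lit 32) (.e (nat_lit 426546) (nat_lit 30) (.e (nat_lit 360477) (nat_lit 11) (.e (nat_lit 589568) (nat_lit 19) .nil)))))) (.g (nat_lit 5) .nil .nil))) 
(.lf (nat_lit 180133) (.g (nat_lit 1584) (.e (nat_lit 57810) (nat_lit 246) (.e (nat_lit 57895) (nat_lit 272) (.e (nat_lit 16487) (nat_lit 27) (.e (nat_lit 336201) (nat_lit 12) (.e (nat_lit 385057) (nat_lit 22) (.e (nat_lit 499780) (nat_lit 1) .nil)))))) (.g (nat_lit 5) .nil .nil)))) (.nd (nat_lit 5) 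
(.lf (nat_lit 180117) (.g (nat_lit 2121) (.e (nat_lit 57809) (nat_lit 246) (.e (nat_lit 57902) (nat_lit 277) (.e (nat_lit 131140) (nat_lit 27) (.e (nat_lit 426306) (nat_lit 12) (.e (nat_lit 475201) (nat_lit 40) (.e (nat_lit 704841) (nat_lit 15) .nil)))))) (.g (nat_lit 0) .nil .nil))) 
(.lf (nat_lit 180149) (.g (nat_lit 1836) (.e (nat_lit 57811) (nat_lit 246) (.e (nat_lit 57602) (nat_lit 107) (.e (nat_lit 704734) (nat_lit 11) (.e (nat_lit 16436) (nat_lit 9) (.e (nat_lit 426550) (nat_lit 31) (.e (nat_lit 368656) (nat_lit 14) .nil)))))) (.g (nat_lit 5) .nil .nil))))) (.nd (nat_lit 4) (.nd (nat_lit 5) 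
(.lf (nat_lit 180109) (.g (nat_lit 678) (.e (nat_lit 57809) (nat_lit 246) (.e (nat_lit 57902) (nat_lit 277) (.e (nat_lit 131138) (nat_lit 27) (.e (nat_lit 426262) (nat_lit 9) (.e (nat_lit 426441) (nat_lit 19) (.e (nat_lit 106556) (nat_lit 15) .nil)))))) (.g (nat_lit 4) .nil .nil))) 
(.lf (nat_lit 180141) (.g (nat_lit 1682) (.e (nat_lit 57810) (nat_lit 246) (.e (nat_lit 57902) (nat_lit 277) (.e (nat_lit 131140) (nat_lit 27) (.e (nat_lit 426197) (nat_lit 9) (.e (nat_lit 426444) (nat_lit 19) (.e (nat_lit 106556) (nat_lit 15) .nil)))))) (.g (nat_lit 0) .nil .nil)))) (.nd (nat_lit 5) 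
(.lf (nat_lit 180125) (.g (nat_lit 2145) (.e (nat_lit 57810) (nat_lit 246) (.e (nat_lit 57602) (nat_lit 107) (.e (nat_lit 704734) (nat_lit 11) (.e (nat_lit 16436) (nat_lit 9) (.e (nat_lit 426550) (nat_lit 31) (.e (nat_lit 368656) (nat_lit 14) .nil)))))) (.g (nat_lit 0) .nil .nil))) 
(.lf (nat_lit 180157) (.g (nat_lit 888) (.e (nat_lit 57811) (nat_lit 246) (.e (nat_lit 57879) (nat_lit 270) (.e (nat_lit 496) (nat_lit 39) (.e (nat_lit 483376) (nat_lit 22) (.e (nat_lit 327680) (nat_lit 0) (.e (nat_lit 636) (nat_lit 50) (.e (nat_lit 581376) (nat_lit 19) .nil))))))) (.g (nat_lit 4) .nil .nil))))))) (.nd (nat_lit 2) (.nd (nat_lit 3) (.nd (nat_lit 4) (.nd (nat_lit 5) 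
(.lf (nat_lit 180099) (.g (nat_lit 1074) (.e (nat_lit 57809) (nat_lit 246) (.e (nat_lit 57883) (nat_lit 270) (.e (nat_lit 371) (nat_lit 32) (.e (nat_lit 426544) (nat_lit 30) (.e (nat_lit 368384) (nat_lit 10) (.e (nat_lit 581376) (nat_lit 19) .nil)))))) (.g (nat_lit 4) .nil .nil))) 
(.lf (nat_lit 180131) (.g (nat_lit 2086) (.e (nat_lit 57810) (nat_lit 246) (.e (nat_lit 57883) (nat_lit 270) (.e (nat_lit 496) (nat_lit 39) (.e (nat_lit 483383) (nat_lit 23) (.e (nat_lit 343808) (nat_lit 17) .nil))))) .nil))) (.nd (nat_lit 5) 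
(.lf (nat_lit 180115) (.g (nat_lit 2144) (.e (nat_lit 57809) (nat_lit 246) (.e (nat_lit 57902) (nat_lit 277) (.e (nat_lit 131140) (nat_lit 27) (.e (nat_lit 426199) (nat_lit 9) (.e (nat_lit 426444) (nat_lit 19) (.e (nat_lit 106556) (nat_lit 15) .nil)))))) (.g (nat_lit 0) .nil .nil))) 
(.lf (nat_lit 180147) (.g (nat_lit 2142) (.e (nat_lit 57811) (nat_lit 246) (.e (nat_lit 57584) (nat_lit 61) (.e (nat_lit 5193) (nat_lit 294) (.e (nat_lit 57437) (nat_lit 17) (.e (nat_lit 376860) (nat_lit 21) (.e (nat_lit 57832) (nat_lit 250) (.e (nat_lit 92) (nat_lit 1) (.e (nat_lit 57815) (nat_lit 246) .nil)))))))) (.g (nat_lit 6) .nil .nil))))) (.nd (nat_lit 4) (.nd (nat_lit 5) 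
(.lf (nat_lit 180107) (.g (nat_lit 686) (.e (nat_lit 57809) (nat_lit 246) (.e (nat_lit 57902) (nat_lit 277) (.e (nat_lit 131138) (nat_lit 27) (.e (nat_lit 426228) (nat_lit 9) (.e (nat_lit 426443) (nat_lit 19) (.e (nat_lit 106556) (nat_lit 15) .nil)))))) (.g (nat_lit 5) .nil .nil))) 
(.lf (nat_lit 180139) (.g (nat_lit 1375) (.e (nat_lit 57810) (nat_lit 246) (.e (nat_lit 57902) (nat_lit 277) (.e (nat_lit 131140) (nat_lit 27) (.e (nat_lit 426189) (nat_lit 9) (.e (nat_lit 426444) (nat_lit 19) (.e (nat_lit 106556) (nat_lit 15) .nil)))))) (.g (nat_lit 5) .nil .nil)))) (.nd (nat_lit 5) 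
(.lf (nat_lit 180123) (.g (nat_lit 1923) (.e (nat_lit 57810) (nat_lit 246) (.e (nat_lit 57600) (nat_lit 84) (.e (nat_lit 516199) (nat_lit 26) (.e (nat_lit 336222) (nat_lit 13) (.e (nat_lit 393221) (nat_lit 0) (.e (nat_lit 6216) (nat_lit 333) .nil)))))) (.g (nat_lit 0) .nil .nil))) 
(.lf (nat_lit 180155) (.g (nat_lit 1680) (.e (nat_lit 57811) (nat_lit 246) (.e (nat_lit 57879) (nat_lit 270) (.e (nat_lit 371) (nat_lit 32) (.e (nat_lit 426546) (nat_lit 30) (.e (nat_lit 360477) (nat_lit 11) (.e (nat_lit 589568) (nat_lit 19) .nil)))))) (.g (nat_lit 5) .nil .nil)))))) (.nd (nat_lit 3) (.nd (nat_lit 4) (.nd (nat_lit 5) 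
(.lf (nat_lit 180103) (.g (nat_lit 1051) (.e (nat_lit 57809) (nat_lit 246) (.e (nat_lit 57883) (nat_lit 270) (.e (nat_lit 496) (nat_lit 39) (.e (nat_lit 483376) (nat_lit 22) (.e (nat_lit 327680) (nat_lit 0) (.e (nat_lit 636) (nat_lit 50) (.e (nat_lit 581376) (nat_lit 19) .nil))))))) (.g (nat_lit 4) .nil .nil))) 
(.lf (nat_lit 180135) (.g (nat_lit 1065) (.e (nat_lit 57810) (nat_lit 246) (.e (nat_lit 57902) (nat_lit 277) (.e (nat_lit 131138) (nat_lit 27) (.e (nat_lit 426232) (nat_lit 9) (.e (nat_lit 426443) (nat_lit 19) (.e (nat_lit 106556) (nat_lit 15) .nil)))))) (.g (nat_lit 0) .nil .nil)))) (.nd (nat_lit 5) 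
(.lf (nat_lit 180119) (.g (nat_lit 1682) (.e (nat_lit 57809) (nat_lit 246) (.e (nat_lit 57902) (nat_lit 277) (.e (nat_lit 131140) (nat_lit 27) (.e (nat_lit 426316) (nat_lit 12) (.e (nat_lit 475201) (nat_lit 40) (.e (nat_lit 704839) (nat_lit 15) .nil)))))) (.g (nat_lit 5) .nil .nil))) 
(.lf (nat_lit 180151) (.g (nat_lit 3401) (.e (nat_lit 57811) (nat_lit 246) (.e (nat_lit 57879) (nat_lit 270) (.e (nat_lit 371) (nat_lit 32) (.e (nat_lit 426482) (nat_lit 27) (.e (nat_lit 336060) (nat_lit 7) (.e (nat_lit 319505) (nat_lit 10) (.e (nat_lit 618) (nat_lit 48) (.e (nat_lit 564992) (nat_lit 19) .nil)))))))) (.g (nat_lit 7) .nil .nil))))) (.nd (nat_lit 4) (.nd (nat_lit 5) 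
(.lf (nat_lit 180111) (.g (nat_lit 1991) (.e (nat_lit 57809) (nat_lit 246) (.e (nat_lit 57902) (nat_lit 277) (.e (nat_lit 131140) (nat_lit 27) (.e (nat_lit 426187) (nat_lit 9) (.e (nat_lit 426444) (nat_lit 19) (.e (nat_lit 106556) (nat_lit 15) .nil)))))) (.g (nat_lit 0) .nil .nil))) 
(.lf (nat_lit 180143) (.g (nat_lit 1186) (.e (nat_lit 57810) (nat_lit 246) (.e (nat_lit 57902) (nat_lit 277) (.e (nat_lit 131140) (nat_lit 27) (.e (nat_lit 426258) (nat_lit 9) (.e (nat_lit 426443) (nat_lit 19) (.e (nat_lit 106556) (nat_lit 15) .nil)))))) (.g (nat_lit 6) .nil .nil)))) (.nd (nat_lit 5) 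
(.lf (nat_lit 180127) (.g (nat_lit 2631) (.e (nat_lit 57810) (nat_lit 246) (.e (nat_lit 57602) (nat_lit 107) (.e (nat_lit 704734) (nat_lit 11) (.e (nat_lit 16466) (nat_lit 13) (.e (nat_lit 483350) (nat_lit 17) (.e (nat_lit 6218) (nat_lit 333) .nil)))))) (.g (nat_lit 6) .nil .nil))) 
(.lf (nat_lit 180159) (.g (nat_lit 1321) (.e (nat_lit 57811) (nat_lit 246) (.e (nat_lit 57883) (nat_lit 270) (.e (nat_lit 371) (nat_lit 32) (.e (nat_lit 426540) (nat_lit 29) (.e (nat_lit 360192) (nat_lit 2) (.e (nat_lit 204544) (nat_lit 19) .nil)))))) (.g (nat_lit 4) .nil .nil)))))))))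

noncomputable def tv2414 : DT := (.nd (nat_lit 0) (.nd (nat_lit 1) (.nd (nat_lit 2) (.nd (nat_lit 3) (.nd (nat_lit 4) (.nd (nat_lit 5) 
(.lf (nat_lit 180160) (.g (nat_lit 1149) (.e (nat_lit 57811) (nat_lit 246) (.e (nat_lit 57883) (nat_lit 270) (.e (nat_lit 371) (nat_lit 32) (.e (nat_lit 426544) (nat_lit 30) (.e (nat_lit 368384) (nat_lit 10) (.e (nat_lit 581376) (nat_lit 19) .nil)))))) (.g (nat_lit 4) .nil .nil))) 
(.lf (nat_lit 180192) (.g (nat_lit 628) (.e (nat_lit 57813) (nat_lit 246) (.e (nat_lit 57884) (nat_lit 270) (.e (nat_lit 1413) (nat_lit 108) (.e (nat_lit 336427) (nat_lit 29) .nil)))) .nil))) (.nd (nat_lit 5) 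
(.lf (nat_lit 180176) (.g (nat_lit 519) (.e (nat_lit 57811) (nat_lit 246) (.e (nat_lit 57902) (nat_lit 277) (.e (nat_lit 131138) (nat_lit 27) (.e (nat_lit 426260) (nat_lit 9) (.e (nat_lit 433920) (nat_lit 19) (.e (nat_lit 106556) (nat_lit 15) .nil)))))) (.g (nat_lit 4) .nil .nil))) 
(.lf (nat_lit 180208) (.g (nat_lit 1038) (.e (nat_lit 57813) (nat_lit 246) (.e (nat_lit 57902) (nat_lit 277) (.e (nat_lit 131138) (nat_lit 27) (.e (nat_lit 426232) (nat_lit 9) (.e (nat_lit 426443) (nat_lit 19) (.e (nat_lit 106556) (nat_lit 15) .nil)))))) (.g (nat_lit 0) .nil .nil))))) (.nd (nat_lit 4) (.nd (nat_lit 5) 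
(.lf (nat_lit 180168) (.g (nat_lit 1603) (.e (nat_lit 57811) (nat_lit 246) (.e (nat_lit 57895) (nat_lit 272) (.e (nat_lit 16487) (nat_lit 27) (.e (nat_lit 336201) (nat_lit 12) (.e (nat_lit 385057) (nat_lit 22) (.e (nat_lit 499780) (nat_lit 1) .nil)))))) (.g (nat_lit 5) .nil .nil))) 
(.lf (nat_lit 180200) (.g (nat_lit 1655) (.e (nat_lit 57813) (nat_lit 246) (.e (nat_lit 57884) (nat_lit 270) (.e (nat_lit 1656) (nat_lit 115) (.e (nat_lit 393272) (nat_lit 23) .nil)))) .nil))) (.nd (nat_lit 5) 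
(.lf (nat_lit 180184) (.g (nat_lit 1604) (.e (nat_lit 57812) (nat_lit 246) (.e (nat_lit 57884) (nat_lit 270) (.e (nat_lit 1656) (nat_lit 115) (.e (nat_lit 393293) (nat_lit 26) .nil)))) .nil)) 
(.lf (nat_lit 180216) (.g (nat_lit 1639) (.e (nat_lit 57813) (nat_lit 246) (.e (nat_lit 57902) (nat_lit 277) (.e (nat_lit 131140) (nat_lit 27) (.e (nat_lit 426197) (nat_lit 9) (.e (nat_lit 426444) (nat_lit 19) (.e (nat_lit 106556) (nat_lit 15) .nil)))))) (.g (nat_lit 0) .nil .nil)))))) (.nd (nat_lit 3) (.nd (nat_lit 4) (.nd (nat_lit 5) 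
(.lf (nat_lit 180164) (.g (nat_lit 1833) (.e (nat_lit 57811) (nat_lit 246) (.e (nat_lit 57883) (nat_lit 270) (.e (nat_lit 496) (nat_lit 39) (.e (nat_lit 483383) (nat_lit 23) (.e (nat_lit 343808) (nat_lit 17) .nil))))) .nil)) 
(.lf (nat_lit 180196) (.g (nat_lit 473) (.e (nat_lit 57813) (nat_lit 246) (.e (nat_lit 57884) (nat_lit 270) (.e (nat_lit 1448) (nat_lit 108) .nil))) .nil))) (.nd (nat_lit 5) 
(.lf (nat_lit 180180) (.g (nat_lit 1638) (.e (nat_lit 57811) (nat_lit 246) (.e (nat_lit 57902) (nat_lit 277) (.e (nat_lit 131140) (nat_lit 27) (.e (nat_lit 426197) (nat_lit 9) (.e (nat_lit 426444) (nat_lit 19) (.e (nat_lit 106556) (nat_lit 15) .nil)))))) (.g (nat_lit 0) .nil .nil))) 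
(.lf (nat_lit 180212) (.g (nat_lit 1815) (.e (nat_lit 57813) (nat_lit 246) (.e (nat_lit 57902) (nat_lit 277) (.e (nat_lit 131140) (nat_lit 27) (.e (nat_lit 426188) (nat_lit 9) (.e (nat_lit 426442) (nat_lit 19) (.e (nat_lit 106556) (nat_lit 15) .nil)))))) (.g (nat_lit 6) .nil .nil))))) (.nd (nat_lit 4) (.nd (nat_lit 5) 
(.lf (nat_lit 180172) (.g (nat_lit 570) (.e (nat_lit 57811) (nat_lit 246) (.e (nat_lit 57895) (nat_lit 272) (.e (nat_lit 24320) (nat_lit 30) (.e (nat_lit 360477) (nat_lit 11) (.e (nat_lit 589568) (nat_lit 19) .nil))))) .nil)) 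
(.lf (nat_lit 180204) (.g (nat_lit 1124) (.e (nat_lit 57813) (nat_lit 246) (.e (nat_lit 57895) (nat_lit 272) (.e (nat_lit 16487) (nat_lit 27) (.e (nat_lit 336086) (nat_lit 9) (.e (nat_lit 343808) (nat_lit 17) (.e (nat_lit 196698) (nat_lit 19) .nil)))))) (.g (nat_lit 4) .nil .nil)))) (.nd (nat_lit 5) 
(.lf (nat_lit 180188) (.g (nat_lit 1070) (.e (nat_lit 57813) (nat_lit 246) (.e (nat_lit 57600) (nat_lit 84) (.e (nat_lit 516199) (nat_lit 26) (.e (nat_lit 336214) (nat_lit 13) (.e (nat_lit 401152) (nat_lit 0) (.e (nat_lit 6217) (nat_lit 333) .nil)))))) (.g (nat_lit 4) .nil .nil))) 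
(.lf (nat_lit 180220) (.g (nat_lit 1881) (.e (nat_lit 57813) (nat_lit 246) (.e (nat_lit 57902) (nat_lit 277) (.e (nat_lit 131140) (nat_lit 27) (.e (nat_lit 426316) (nat_lit 12) (.e (nat_lit 475201) (nat_lit 40) (.e (nat_lit 704839) (nat_lit 15) .nil)))))) (.g (nat_lit 6) .nil .nil))))))) (.nd (nat_lit 2) (.nd (nat_lit 3) (.nd (nat_lit 4) (.nd (nat_lit 5) 
(.lf (nat_lit 180162) (.g (nat_lit 1355) (.e (nat_lit 57811) (nat_lit 246) (.e (nat_lit 57883) (nat_lit 270) (.e (nat_lit 371) (nat_lit 32) (.e (nat_lit 426555) (nat_lit 32) (.e (nat_lit 384768) (nat_lit 2) (.e (nat_lit 204544) (nat_lit 19) .nil)))))) (.g (nat_lit 4) .nil .nil))) 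
(.lf (nat_lit 180194) (.g (nat_lit 1262) (.e (nat_lit 57813) (nat_lit 246) (.e (nat_lit 57884) (nat_lit 270) (.e (nat_lit 1423) (nat_lit 108) (.e (nat_lit 336428) (nat_lit 29) (.e (nat_lit 450304) (nat_lit 4) .nil))))) .nil))) (.nd (nat_lit 5) 
(.lf (nat_lit 180178) (.g (nat_lit 1967) (.e (nat_lit 57811) (nat_lit 246) (.e (nat_lit 57902) (nat_lit 277) (.e (nat_lit 131140) (nat_lit 27) (.e (nat_lit 426187) (nat_lit 9) (.e (nat_lit 426444) (nat_lit 19) (.e (nat_lit 106556) (nat_lit 15) .nil)))))) (.g (nat_lit 0) .nil .nil))) 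
(.lf (nat_lit 180210) (.g (nat_lit 1967) (.e (nat_lit 57813) (nat_lit 246) (.e (nat_lit 57902) (nat_lit 277) (.e (nat_lit 131140) (nat_lit 27) (.e (nat_lit 426187) (nat_lit 9) (.e (nat_lit 426444) (nat_lit 19) (.e (nat_lit 106556) (nat_lit 15) .nil)))))) (.g (nat_lit 0) .nil .nil))))) (.nd (nat_lit 4) (.nd (nat_lit 5) 
(.lf (nat_lit 180170) (.g (nat_lit 345) (.e (nat_lit 57811) (nat_lit 246) (.e (nat_lit 57895) (nat_lit 272) (.e (nat_lit 24320) (nat_lit 29) (.e (nat_lit 352283) (nat_lit 20) (.e (nat_lit 1878) (nat_lit 126) (.e (nat_lit 581376) (nat_lit 19) .nil)))))) (.g (nat_lit 4) .nil .nil))) 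
(.lf (nat_lit 180202) (.g (nat_lit 1158) (.e (nat_lit 57813) (nat_lit 246) (.e (nat_lit 57884) (nat_lit 270) (.e (nat_lit 1656) (nat_lit 115) (.e (nat_lit 393293) (nat_lit 26) .nil)))) .nil))) (.nd (nat_lit 5) 
(.lf (nat_lit 180186) (.g (nat_lit 2303) (.e (nat_lit 57813) (nat_lit 246) (.e (nat_lit 57600) (nat_lit 84) (.e (nat_lit 516199) (nat_lit 26) (.e (nat_lit 336076) (nat_lit 9) (.e (nat_lit 336450) (nat_lit 33) (.e (nat_lit 475152) (nat_lit 17) .nil)))))) (.g (nat_lit 0) .nil .nil))) 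
(.lf (nat_lit 180218) (.g (nat_lit 2145) (.e (nat_lit 57813) (nat_lit 246) (.e (nat_lit 57902) (nat_lit 277) (.e (nat_lit 131140) (nat_lit 27) (.e (nat_lit 426306) (nat_lit 12) (.e (nat_lit 475201) (nat_lit 40) (.e (nat_lit 704841) (nat_lit 15) .nil)))))) (.g (nat_lit 0) .nil .nil)))))) (.nd (nat_lit 3) (.nd (nat_lit 4) (.nd (nat_lit 5) 
(.lf (nat_lit 180166) (.g (nat_lit 1640) (.e (nat_lit 57811) (nat_lit 246) (.e (nat_lit 57884) (nat_lit 270) (.e (nat_lit 1656) (nat_lit 115) (.e (nat_lit 393293) (nat_lit 26) .nil)))) .nil)) 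
(.lf (nat_lit 180198) (.g (nat_lit 400) (.e (nat_lit 57813) (nat_lit 246) (.e (nat_lit 57884) (nat_lit 270) (.e (nat_lit 1656) (nat_lit 115) .nil))) .nil))) (.nd (nat_lit 5) 
(.lf (nat_lit 180182) (.g (nat_lit 1616) (.e (nat_lit 57811) (nat_lit 246) (.e (nat_lit 57902) (nat_lit 277) (.e (nat_lit 131140) (nat_lit 27) (.e (nat_lit 426306) (nat_lit 12) (.e (nat_lit 475195) (nat_lit 40) (.e (nat_lit 704846) (nat_lit 15) .nil)))))) (.g (nat_lit 0) .nil .nil))) 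
(.lf (nat_lit 180214) (.g (nat_lit 1599) (.e (nat_lit 57813) (nat_lit 246) (.e (nat_lit 57902) (nat_lit 277) (.e (nat_lit 131140) (nat_lit 27) (.e (nat_lit 426190) (nat_lit 9) (.e (nat_lit 426442) (nat_lit 19) (.e (nat_lit 106556) (nat_lit 15) .nil)))))) (.g (nat_lit 6) .nil .nil))))) (.nd (nat_lit 4) (.nd (nat_lit 5) 
(.lf (nat_lit 180174) (.g (nat_lit 1062) (.e (nat_lit 57811) (nat_lit 246) (.e (nat_lit 57902) (nat_lit 277) (.e (nat_lit 131138) (nat_lit 27) (.e (nat_lit 426232) (nat_lit 9) (.e (nat_lit 426443) (nat_lit 19) (.e (nat_lit 106556) (nat_lit 15) .nil)))))) (.g (nat_lit 0) .nil .nil))) 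
(.lf (nat_lit 180206) (.g (nat_lit 1586) (.e (nat_lit 57813) (nat_lit 246) (.e (nat_lit 57897) (nat_lit 274) (.e (nat_lit 65653) (nat_lit 27) (.e (nat_lit 426190) (nat_lit 9) (.e (nat_lit 426444) (nat_lit 19) (.e (nat_lit 106556) (nat_lit 15) .nil)))))) (.g (nat_lit 0) .nil .nil)))) (.nd (nat_lit 5) 
(.lf (nat_lit 180190) (.g (nat_lit 1579) (.e (nat_lit 57813) (nat_lit 246) (.e (nat_lit 57876) (nat_lit 270) (.e (nat_lit 1400) (nat_lit 106) (.e (nat_lit 319534) (nat_lit 16) (.e (nat_lit 286749) (nat_lit 9) (.e (nat_lit 335997) (nat_lit 1) (.e (nat_lit 57832) (nat_lit 250) (.e (nat_lit 92) (nat_lit 1) .nil)))))))) (.g (nat_lit 4) .nil .nil))) 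
(.lf (nat_lit 180222) (.g (nat_lit 1119) (.e (nat_lit 57814) (nat_lit 246) (.e (nat_lit 57596) (nat_lit 82) (.e (nat_lit 499900) (nat_lit 7) (.e (nat_lit 24655) (nat_lit 13) (.e (nat_lit 401152) (nat_lit 0) (.e (nat_lit 6209) (nat_lit 333) .nil)))))) (.g (nat_lit 4) .nil .nil)))))))) (.nd (nat_lit 1) (.nd (nat_lit 2) (.nd (nat_lit 3) (.nd (nat_lit 4) (.nd (nat_lit 5) 
(.lf (nat_lit 180161) (.g (nat_lit 1996) (.e (nat_lit 57811) (nat_lit 246) (.e (nat_lit 57883) (nat_lit 270) (.e (nat_lit 371) (nat_lit 32) (.e (nat_lit 426544) (nat_lit 30) (.e (nat_lit 360477) (nat_lit 11) (.e (nat_lit 589568) (nat_lit 19) .nil)))))) (.g (nat_lit 5) .nil .nil))) 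
(.lf (nat_lit 180193) (.g (nat_lit 825) (.e (nat_lit 57813) (nat_lit 246) (.e (nat_lit 57884) (nat_lit 270) (.e (nat_lit 1423) (nat_lit 108) (.e (nat_lit 336427) (nat_lit 29) (.e (nat_lit 450304) (nat_lit 4) .nil))))) .nil))) (.nd (nat_lit 5) 
(.lf (nat_lit 180177) (.g (nat_lit 1431) (.e (nat_lit 57811) (nat_lit 246) (.e (nat_lit 57902) (nat_lit 277) (.e (nat_lit 131140) (nat_lit 27) (.e (nat_lit 426186) (nat_lit 9) (.e (nat_lit 426444) (nat_lit 19) (.e (nat_lit 106556) (nat_lit 15) .nil)))))) (.g (nat_lit 0) .nil .nil))) 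
(.lf (nat_lit 180209) (.g (nat_lit 1432) (.e (nat_lit 57813) (nat_lit 246) (.e (nat_lit 57902) (nat_lit 277) (.e (nat_lit 131140) (nat_lit 27) (.e (nat_lit 426186) (nat_lit 9) (.e (nat_lit 426444) (nat_lit 19) (.e (nat_lit 106556) (nat_lit 15) .nil)))))) (.g (nat_lit 0) .nil .nil))))) (.nd (nat_lit 4) (.nd (nat_lit 5) 
(.lf (nat_lit 180169) (.g (nat_lit 81) (.e (nat_lit 57811) (nat_lit 246) (.e (nat_lit 57895) (nat_lit 272) (.e (nat_lit 24320) (nat_lit 29) .nil))) .nil)) 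
(.lf (nat_lit 180201) (.g (nat_lit 1648) (.e (nat_lit 57813) (nat_lit 246) (.e (nat_lit 57884) (nat_lit 270) (.e (nat_lit 1656) (nat_lit 115) (.e (nat_lit 393273) (nat_lit 23) .nil)))) .nil))) (.nd (nat_lit 5) 
(.lf (nat_lit 180185) (.g (nat_lit 1019) (.e (nat_lit 57813) (nat_lit 246) (.e (nat_lit 57596) (nat_lit 82) (.e (nat_lit 499900) (nat_lit 7) (.e (nat_lit 24657) (nat_lit 13) (.e (nat_lit 401152) (nat_lit 0) (.e (nat_lit 6209) (nat_lit 333) .nil)))))) (.g (nat_lit 4) .nil .nil))) 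
(.lf (nat_lit 180217) (.g (nat_lit 2124) (.e (nat_lit 57813) (nat_lit 246) (.e (nat_lit 57902) (nat_lit 277) (.e (nat_lit 131140) (nat_lit 27) (.e (nat_lit 426199) (nat_lit 9) (.e (nat_lit 426444) (nat_lit 19) (.e (nat_lit 106556) (nat_lit 15) .nil)))))) (.g (nat_lit 0) .nil .nil)))))) (.nd (nat_lit 3) (.nd (nat_lit 4) (.nd (nat_lit 5) 
(.lf (nat_lit 180165) (.g (nat_lit 1010) (.e (nat_lit 57811) (nat_lit 246) (.e (nat_lit 57883) (nat_lit 270) (.e (nat_lit 496) (nat_lit 39) (.e (nat_lit 483391) (nat_lit 23) (.e (nat_lit 336317) (nat_lit 17) .nil))))) .nil)) 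
(.lf (nat_lit 180197) (.g (nat_lit 2008) (.e (nat_lit 57813) (nat_lit 246) (.e (nat_lit 57884) (nat_lit 270) (.e (nat_lit 1454) (nat_lit 108) (.e (nat_lit 336389) (nat_lit 27) (.e (nat_lit 426190) (nat_lit 9) .nil))))) .nil))) (.nd (nat_lit 5) 
(.lf (nat_lit 180181) (.g (nat_lit 2123) (.e (nat_lit 57811) (nat_lit 246) (.e (nat_lit 57902) (nat_lit 277) (.e (nat_lit 131140) (nat_lit 27) (.e (nat_lit 426199) (nat_lit 9) (.e (nat_lit 426444) (nat_lit 19) (.e (nat_lit 106556) (nat_lit 15) .nil)))))) (.g (nat_lit 0) .nil .nil))) 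
(.lf (nat_lit 180213) (.g (nat_lit 1332) (.e (nat_lit 57813) (nat_lit 246) (.e (nat_lit 57902) (nat_lit 277) (.e (nat_lit 131140) (nat_lit 27) (.e (nat_lit 426189) (nat_lit 9) (.e (nat_lit 426444) (nat_lit 19) (.e (nat_lit 106556) (nat_lit 15) .nil)))))) (.g (nat_lit 5) .nil .nil))))) (.nd (nat_lit 4) (.nd (nat_lit 5) 
(.lf (nat_lit 180173) (.g (nat_lit 1037) (.e (nat_lit 57811) (nat_lit 246) (.e (nat_lit 57900) (nat_lit 276) (.e (nat_lit 122936) (nat_lit 23) (.e (nat_lit 516131) (nat_lit 3) (.e (nat_lit 221218) (nat_lit 24) (.e (nat_lit 213003) (nat_lit 9) (.e (nat_lit 120) (nat_lit 4) (.e (nat_lit 106556) (nat_lit 15) .nil)))))))) (.g (nat_lit 4) .nil .nil))) 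
(.lf (nat_lit 180205) (.g (nat_lit 942) (.e (nat_lit 57813) (nat_lit 246) (.e (nat_lit 57897) (nat_lit 274) (.e (nat_lit 65652) (nat_lit 27) (.e (nat_lit 426234) (nat_lit 9) (.e (nat_lit 426443) (nat_lit 19) (.e (nat_lit 106556) (nat_lit 15) .nil)))))) (.g (nat_lit 0) .nil .nil)))) (.nd (nat_lit 5) 
(.lf (nat_lit 180189) (.g (nat_lit 1419) (.e (nat_lit 57813) (nat_lit 246) (.e (nat_lit 57600) (nat_lit 84) (.e (nat_lit 516199) (nat_lit 26) (.e (nat_lit 336221) (nat_lit 13) (.e (nat_lit 393221) (nat_lit 0) (.e (nat_lit 6217) (nat_lit 333) .nil)))))) (.g (nat_lit 5) .nil .nil))) 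
(.lf (nat_lit 180221) (.g (nat_lit 2142) (.e (nat_lit 57813) (nat_lit 246) (.e (nat_lit 57902) (nat_lit 277) (.e (nat_lit 131140) (nat_lit 27) (.e (nat_lit 426316) (nat_lit 12) (.e (nat_lit 475201) (nat_lit 40) (.e (nat_lit 704841) (nat_lit 15) .nil)))))) (.g (nat_lit 0) .nil .nil))))))) (.nd (nat_lit 2) (.nd (nat_lit 3) (.nd (nat_lit 4) (.nd (nat_lit 5) 
(.lf (nat_lit 180163) (.g (nat_lit 1102) (.e (nat_lit 57811) (nat_lit 246) (.e (nat_lit 57883) (nat_lit 270) (.e (nat_lit 496) (nat_lit 39) (.e (nat_lit 483376) (nat_lit 22) (.e (nat_lit 327680) (nat_lit 0) (.e (nat_lit 636) (nat_lit 50) (.e (nat_lit 581376) (nat_lit 19) .nil))))))) (.g (nat_lit 4) .nil .nil))) 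
(.lf (nat_lit 180195) (.g (nat_lit 650) (.e (nat_lit 57813) (nat_lit 246) (.e (nat_lit 57884) (nat_lit 270) (.e (nat_lit 1423) (nat_lit 108) (.e (nat_lit 336444) (nat_lit 32) .nil)))) .nil))) (.nd (nat_lit 5) 
(.lf (nat_lit 180179) (.g (nat_lit 1711) (.e (nat_lit 57811) (nat_lit 246) (.e (nat_lit 57902) (nat_lit 277) (.e (nat_lit 131140) (nat_lit 27) (.e (nat_lit 426190) (nat_lit 9) (.e (nat_lit 426442) (nat_lit 19) (.e (nat_lit 106556) (nat_lit 15) .nil)))))) (.g (nat_lit 0) .nil .nil))) 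
(.lf (nat_lit 180211) (.g (nat_lit 1702) (.e (nat_lit 57813) (nat_lit 246) (.e (nat_lit 57902) (nat_lit 277) (.e (nat_lit 131140) (nat_lit 27) (.e (nat_lit 426188) (nat_lit 9) (.e (nat_lit 426439) (nat_lit 19) (.e (nat_lit 106556) (nat_lit 15) .nil)))))) (.g (nat_lit 5) .nil .nil))))) (.nd (nat_lit 4) (.nd (nat_lit 5) 
(.lf (nat_lit 180171) (.g (nat_lit 393) (.e (nat_lit 57811) (nat_lit 246) (.e (nat_lit 57895) (nat_lit 272) (.e (nat_lit 24320) (nat_lit 29) (.e (nat_lit 352283) (nat_lit 20) (.e (nat_lit 1879) (nat_lit 126) (.e (nat_lit 581376) (nat_lit 19) .nil)))))) (.g (nat_lit 5) .nil .nil))) 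
(.lf (nat_lit 180203) (.g (nat_lit 1592) (.e (nat_lit 57813) (nat_lit 246) (.e (nat_lit 57884) (nat_lit 270) (.e (nat_lit 1656) (nat_lit 115) (.e (nat_lit 393293) (nat_lit 26) (.e (nat_lit 475205) (nat_lit 40) .nil))))) .nil))) (.nd (nat_lit 5) 
(.lf (nat_lit 180187) (.g (nat_lit 2331) (.e (nat_lit 57813) (nat_lit 246) (.e (nat_lit 57600) (nat_lit 84) (.e (nat_lit 516199) (nat_lit 26) (.e (nat_lit 336088) (nat_lit 9) (.e (nat_lit 336450) (nat_lit 33) (.e (nat_lit 475152) (nat_lit 17) .nil)))))) (.g (nat_lit 0) .nil .nil))) 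
(.lf (nat_lit 180219) (.g (nat_lit 1995) (.e (nat_lit 57813) (nat_lit 246) (.e (nat_lit 57902) (nat_lit 277) (.e (nat_lit 131140) (nat_lit 27) (.e (nat_lit 426308) (nat_lit 12) (.e (nat_lit 475201) (nat_lit 40) (.e (nat_lit 704841) (nat_lit 15) .nil)))))) (.g (nat_lit 6) .nil .nil)))))) (.nd (nat_lit 3) (.nd (nat_lit 4) (.nd (nat_lit 5) 
(.lf (nat_lit 180167) (.g (nat_lit 1207) (.e (nat_lit 57811) (nat_lit 246) (.e (nat_lit 57895) (nat_lit 272) (.e (nat_lit 16487) (nat_lit 27) (.e (nat_lit 336086) (nat_lit 9) (.e (nat_lit 343808) (nat_lit 17) (.e (nat_lit 196698) (nat_lit 19) .nil)))))) (.g (nat_lit 4) .nil .nil))) 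
(.lf (nat_lit 180199) (.g (nat_lit 1528) (.e (nat_lit 57813) (nat_lit 246) (.e (nat_lit 57884) (nat_lit 270) (.e (nat_lit 1656) (nat_lit 115) (.e (nat_lit 393267) (nat_lit 23) .nil)))) .nil))) (.nd (nat_lit 5) 
(.lf (nat_lit 180183) (.g (nat_lit 1671) (.e (nat_lit 57812) (nat_lit 246) (.e (nat_lit 57884) (nat_lit 270) (.e (nat_lit 1656) (nat_lit 115) (.e (nat_lit 393291) (nat_lit 26) .nil)))) .nil)) 
(.lf (nat_lit 180215) (.g (nat_lit 1116) (.e (nat_lit 57813) (nat_lit 246) (.e (nat_lit 57902) (nat_lit 277) (.e (nat_lit 131140) (nat_lit 27) (.e (nat_lit 426197) (nat_lit 9) (.e (nat_lit 426442) (nat_lit 19) (.e (nat_lit 106556) (nat_lit 15) .nil)))))) (.g (nat_lit 5) .nil .nil))))) (.nd (nat_lit 4) (.nd (nat_lit 5) 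
(.lf (nat_lit 180175) (.g (nat_lit 429) (.e (nat_lit 57811) (nat_lit 246) (.e (nat_lit 57902) (nat_lit 277) (.e (nat_lit 131138) (nat_lit 27) (.e (nat_lit 426259) (nat_lit 9) (.e (nat_lit 433920) (nat_lit 19) (.e (nat_lit 106556) (nat_lit 15) .nil)))))) (.g (nat_lit 4) .nil .nil))) 
(.lf (nat_lit 180207) (.g (nat_lit 659) (.e (nat_lit 57813) (nat_lit 246) (.e (nat_lit 57902) (nat_lit 277) (.e (nat_lit 131138) (nat_lit 27) (.e (nat_lit 426228) (nat_lit 9) (.e (nat_lit 426443) (nat_lit 19) (.e (nat_lit 106556) (nat_lit 15) .nil)))))) (.g (nat_lit 5) .nil .nil)))) (.nd (nat_lit 5) 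
(.lf (nat_lit 180191) (.g (nat_lit 2949) (.e (nat_lit 57813) (nat_lit 246) (.e (nat_lit 57876) (nat_lit 270) (.e (nat_lit 1400) (nat_lit 106) (.e (nat_lit 319534) (nat_lit 16) (.e (nat_lit 286756) (nat_lit 10) (.e (nat_lit 344157) (nat_lit 36) (.e (nat_lit 646912) (nat_lit 1) .nil))))))) (.g (nat_lit 6) .nil .nil))) 
(.lf (nat_lit 180223) (.g (nat_lit 1381) (.e (nat_lit 57814) (nat_lit 246) (.e (nat_lit 57596) (nat_lit 82) (.e (nat_lit 499900) (nat_lit 7) (.e (nat_lit 24658) (nat_lit 13) (.e (nat_lit 401152) (nat_lit 0) (.e (nat_lit 6209) (nat_lit 333) .nil)))))) (.g (nat_lit 4) .nil .nil)))))))))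

noncomputable def tv2415 : DT := (.nd (nat_lit 0) (.nd (nat_lit 1) (.nd (nat_lit 2) (.nd (nat_lit 3) (.nd (nat_lit 4) (.nd (nat_lit 5) 
(.lf (nat_lit 180224) (.g (nat_lit 1386) (.e (nat_lit 57814) (nat_lit 246) (.e (nat_lit 57600) (nat_lit 84) (.e (nat_lit 516197) (nat_lit 26) (.e (nat_lit 336209) (nat_lit 13) (.e (nat_lit 393221) (nat_lit 0) (.e (nat_lit 6209) (nat_lit 333) .nil)))))) (.g (nat_lit 0) .nil .nil))) 
(.lf (nat_lit 180256) (.g (nat_lit 1078) (.e (nat_lit 57814) (nat_lit 246) (.e (nat_lit 57902) (nat_lit 277) (.e (nat_lit 131140) (nat_lit 27) (.e (nat_lit 426258) (nat_lit 9) (.e (nat_lit 426443) (nat_lit 19) (.e (nat_lit 106556) (nat_lit 15) .nil)))))) (.g (nat_lit 5) .nil .nil)))) (.nd (nat_lit 5) 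
(.lf (nat_lit 180240) (.g (nat_lit 1521) (.e (nat_lit 57814) (nat_lit 246) (.e (nat_lit 57884) (nat_lit 270) (.e (nat_lit 1656) (nat_lit 115) (.e (nat_lit 393293) (nat_lit 26) .nil)))) .nil)) 
(.lf (nat_lit 180272) (.g (nat_lit 1240) (.e (nat_lit 57815) (nat_lit 246) (.e (nat_lit 57878) (nat_lit 270) (.e (nat_lit 371) (nat_lit 32) (.e (nat_lit 426540) (nat_lit 29) (.e (nat_lit 360192) (nat_lit 2) .nil))))) .nil)))) (.nd (nat_lit 4) (.nd (nat_lit 5) 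
(.lf (nat_lit 180232) (.g (nat_lit 1421) (.e (nat_lit 57814) (nat_lit 246) (.e (nat_lit 57600) (nat_lit 84) (.e (nat_lit 516199) (nat_lit 26) (.e (nat_lit 336221) (nat_lit 13) (.e (nat_lit 393221) (nat_lit 0) (.e (nat_lit 6217) (nat_lit 333) .nil)))))) (.g (nat_lit 5) .nil .nil))) 
(.lf (nat_lit 180264) (.g (nat_lit 1877) (.e (nat_lit 57815) (nat_lit 246) (.e (nat_lit 57596) (nat_lit 82) (.e (nat_lit 499900) (nat_lit 7) (.e (nat_lit 24658) (nat_lit 13) (.e (nat_lit 393219) (nat_lit 0) .nil))))) .nil))) (.nd (nat_lit 5) 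
(.lf (nat_lit 180248) (.g (nat_lit 2014) (.e (nat_lit 57814) (nat_lit 246) (.e (nat_lit 57902) (nat_lit 277) (.e (nat_lit 131140) (nat_lit 27) (.e (nat_lit 426187) (nat_lit 9) (.e (nat_lit 426444) (nat_lit 19) (.e (nat_lit 106556) (nat_lit 15) .nil)))))) (.g (nat_lit 0) .nil .nil))) 
(.lf (nat_lit 180280) (.g (nat_lit 1704) (.e (nat_lit 57815) (nat_lit 246) (.e (nat_lit 57884) (nat_lit 270) (.e (nat_lit 1656) (nat_lit 115) (.e (nat_lit 393293) (nat_lit 26) .nil)))) .nil))))) (.nd (nat_lit 3) (.nd (nat_lit 4) (.nd (nat_lit 5) 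
(.lf (nat_lit 180228) (.g (nat_lit 890) (.e (nat_lit 57814) (nat_lit 246) (.e (nat_lit 57600) (nat_lit 84) (.e (nat_lit 516199) (nat_lit 26) (.e (nat_lit 336214) (nat_lit 13) (.e (nat_lit 401152) (nat_lit 0) .nil))))) .nil)) 
(.lf (nat_lit 180260) (.g (nat_lit 1819) (.e (nat_lit 57814) (nat_lit 246) (.e (nat_lit 57902) (nat_lit 277) (.e (nat_lit 131140) (nat_lit 27) (.e (nat_lit 426316) (nat_lit 12) (.e (nat_lit 475201) (nat_lit 40) (.e (nat_lit 704839) (nat_lit 15) .nil)))))) (.g (nat_lit 5) .nil .nil)))) (.nd (nat_lit 5) 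
(.lf (nat_lit 180244) (.g (nat_lit 697) (.e (nat_lit 57814) (nat_lit 246) (.e (nat_lit 57902) (nat_lit 277) (.e (nat_lit 131138) (nat_lit 27) (.e (nat_lit 426228) (nat_lit 9) (.e (nat_lit 426443) (nat_lit 19) (.e (nat_lit 106556) (nat_lit 15) .nil)))))) (.g (nat_lit 5) .nil .nil))) 
(.lf (nat_lit 180276) (.g (nat_lit 761) (.e (nat_lit 57815) (nat_lit 246) (.e (nat_lit 57878) (nat_lit 270) (.e (nat_lit 496) (nat_lit 39) (.e (nat_lit 483382) (nat_lit 23) .nil)))) .nil)))) (.nd (nat_lit 4) (.nd (nat_lit 5) 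
(.lf (nat_lit 180236) (.g (nat_lit 1508) (.e (nat_lit 57814) (nat_lit 246) (.e (nat_lit 57608) (nat_lit 107) (.e (nat_lit 704738) (nat_lit 11) (.e (nat_lit 16464) (nat_lit 13) (.e (nat_lit 491264) (nat_lit 17) .nil))))) .nil)) 
(.lf (nat_lit 180268) (.g (nat_lit 1167) (.e (nat_lit 57815) (nat_lit 246) (.e (nat_lit 57600) (nat_lit 84) (.e (nat_lit 516199) (nat_lit 26) (.e (nat_lit 336223) (nat_lit 13) (.e (nat_lit 401152) (nat_lit 0) (.e (nat_lit 6217) (nat_lit 333) .nil)))))) (.g (nat_lit 4) .nil .nil)))) (.nd (nat_lit 5) 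
(.lf (nat_lit 180252) (.g (nat_lit 1604) (.e (nat_lit 57814) (nat_lit 246) (.e (nat_lit 57902) (nat_lit 277) (.e (nat_lit 131140) (nat_lit 27) (.e (nat_lit 426190) (nat_lit 9) (.e (nat_lit 426442) (nat_lit 19) (.e (nat_lit 106556) (nat_lit 15) .nil)))))) (.g (nat_lit 6) .nil .nil))) 
(.lf (nat_lit 180284) (.g (nat_lit 1072) (.e (nat_lit 57815) (nat_lit 246) (.e (nat_lit 57902) (nat_lit 277) (.e (nat_lit 131138) (nat_lit 27) (.e (nat_lit 426232) (nat_lit 9) (.e (nat_lit 426443) (nat_lit 19) (.e (nat_lit 106556) (nat_lit 15) .nil)))))) (.g (nat_lit 0) .nil .nil))))))) (.nd (nat_lit 2) (.nd (nat_lit 3) (.nd (nat_lit 4) (.nd (nat_lit 5) 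
(.lf (nat_lit 180226) (.g (nat_lit 2140) (.e (nat_lit 57814) (nat_lit 246) (.e (nat_lit 57600) (nat_lit 84) (.e (nat_lit 516199) (nat_lit 26) (.e (nat_lit 336213) (nat_lit 13) (.e (nat_lit 393221) (nat_lit 0) (.e (nat_lit 6217) (nat_lit 333) .nil)))))) (.g (nat_lit 0) .nil .nil))) 
(.lf (nat_lit 180258) (.g (nat_lit 1836) (.e (nat_lit 57814) (nat_lit 246) (.e (nat_lit 57902) (nat_lit 277) (.e (nat_lit 131140) (nat_lit 27) (.e (nat_lit 426306) (nat_lit 12) (.e (nat_lit 475201) (nat_lit 40) (.e (nat_lit 704841) (nat_lit 15) .nil)))))) (.g (nat_lit 5) .nil .nil)))) (.nd (nat_lit 5) 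
(.lf (nat_lit 180242) (.g (nat_lit 1142) (.e (nat_lit 57814) (nat_lit 246) (.e (nat_lit 57887) (nat_lit 270) (.e (nat_lit 1656) (nat_lit 115) (.e (nat_lit 393293) (nat_lit 26) .nil)))) .nil)) 
(.lf (nat_lit 180274) (.g (nat_lit 1262) (.e (nat_lit 57815) (nat_lit 246) (.e (nat_lit 57878) (nat_lit 270) (.e (nat_lit 371) (nat_lit 32) (.e (nat_lit 426555) (nat_lit 32) (.e (nat_lit 384768) (nat_lit 2) .nil))))) .nil)))) (.nd (nat_lit 4) (.nd (nat_lit 5) 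
(.lf (nat_lit 180234) (.g (nat_lit 1007) (.e (nat_lit 57814) (nat_lit 246) (.e (nat_lit 57600) (nat_lit 84) (.e (nat_lit 516199) (nat_lit 26) (.e (nat_lit 336223) (nat_lit 13) (.e (nat_lit 401152) (nat_lit 0) .nil))))) .nil)) 
(.lf (nat_lit 180266) (.g (nat_lit 972) (.e (nat_lit 57815) (nat_lit 246) (.e (nat_lit 57600) (nat_lit 84) (.e (nat_lit 516199) (nat_lit 26) (.e (nat_lit 336213) (nat_lit 13) (.e (nat_lit 393219) (nat_lit 0) .nil))))) .nil))) (.nd (nat_lit 5) 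
(.lf (nat_lit 180250) (.g (nat_lit 1824) (.e (nat_lit 57814) (nat_lit 246) (.e (nat_lit 57902) (nat_lit 277) (.e (nat_lit 131140) (nat_lit 27) (.e (nat_lit 426188) (nat_lit 9) (.e (nat_lit 426442) (nat_lit 19) (.e (nat_lit 106556) (nat_lit 15) .nil)))))) (.g (nat_lit 6) .nil .nil))) 
(.lf (nat_lit 180282) (.g (nat_lit 693) (.e (nat_lit 57815) (nat_lit 246) (.e (nat_lit 57902) (nat_lit 277) (.e (nat_lit 131138) (nat_lit 27) (.e (nat_lit 426228) (nat_lit 9) (.e (nat_lit 426443) (nat_lit 19) (.e (nat_lit 106556) (nat_lit 15) .nil)))))) (.g (nat_lit 5) .nil .nil)))))) (.nd (nat_lit 3) (.nd (nat_lit 4) (.nd (nat_lit 5) 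
(.lf (nat_lit 180230) (.g (nat_lit 1448) (.e (nat_lit 57814) (nat_lit 246) (.e (nat_lit 57600) (nat_lit 84) (.e (nat_lit 516199) (nat_lit 26) (.e (nat_lit 336215) (nat_lit 13) (.e (nat_lit 401152) (nat_lit 0) (.e (nat_lit 6217) (nat_lit 333) .nil)))))) (.g (nat_lit 4) .nil .nil))) 
(.lf (nat_lit 180262) (.g (nat_lit 1231) (.e (nat_lit 57815) (nat_lit 246) (.e (nat_lit 57596) (nat_lit 82) (.e (nat_lit 499900) (nat_lit 7) (.e (nat_lit 24655) (nat_lit 13) (.e (nat_lit 393219) (nat_lit 0) .nil))))) .nil))) (.nd (nat_lit 5) 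
(.lf (nat_lit 180246) (.g (nat_lit 673) (.e (nat_lit 57814) (nat_lit 246) (.e (nat_lit 57902) (nat_lit 277) (.e (nat_lit 131138) (nat_lit 27) (.e (nat_lit 426262) (nat_lit 9) (.e (nat_lit 426441) (nat_lit 19) (.e (nat_lit 106556) (nat_lit 15) .nil)))))) (.g (nat_lit 4) .nil .nil))) 
(.lf (nat_lit 180278) (.g (nat_lit 1684) (.e (nat_lit 57815) (nat_lit 246) (.e (nat_lit 57884) (nat_lit 270) (.e (nat_lit 1656) (nat_lit 115) (.e (nat_lit 393270) (nat_lit 23) .nil)))) .nil)))) (.nd (nat_lit 4) (.nd (nat_lit 5) 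
(.lf (nat_lit 180238) (.g (nat_lit 1863) (.e (nat_lit 57814) (nat_lit 246) (.e (nat_lit 57884) (nat_lit 270) (.e (nat_lit 1656) (nat_lit 115) (.e (nat_lit 393270) (nat_lit 23) (.e (nat_lit 426444) (nat_lit 19) .nil))))) .nil)) 
(.lf (nat_lit 180270) (.g (nat_lit 2263) (.e (nat_lit 57815) (nat_lit 246) (.e (nat_lit 57602) (nat_lit 107) (.e (nat_lit 704734) (nat_lit 11) (.e (nat_lit 16436) (nat_lit 9) (.e (nat_lit 426550) (nat_lit 31) (.e (nat_lit 368656) (nat_lit 14) .nil)))))) (.g (nat_lit 0) .nil .nil)))) (.nd (nat_lit 5) 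
(.lf (nat_lit 180254) (.g (nat_lit 1685) (.e (nat_lit 57814) (nat_lit 246) (.e (nat_lit 57902) (nat_lit 277) (.e (nat_lit 131140) (nat_lit 27) (.e (nat_lit 426197) (nat_lit 9) (.e (nat_lit 426444) (nat_lit 19) (.e (nat_lit 106556) (nat_lit 15) .nil)))))) (.g (nat_lit 0) .nil .nil))) 
(.lf (nat_lit 180286) (.g (nat_lit 2019) (.e (nat_lit 57815) (nat_lit 246) (.e (nat_lit 57902) (nat_lit 277) (.e (nat_lit 131140) (nat_lit 27) (.e (nat_lit 426187) (nat_lit 9) (.e (nat_lit 426444) (nat_lit 19) (.e (nat_lit 106556) (nat_lit 15) .nil)))))) (.g (nat_lit 0) .nil .nil)))))))) (.nd (nat_lit 1) (.nd (nat_lit 2) (.nd (nat_lit 3) (.nd (nat_lit 4) (.nd (nat_lit 5) 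
(.lf (nat_lit 180225) (.g (nat_lit 1252) (.e (nat_lit 57814) (nat_lit 246) (.e (nat_lit 57600) (nat_lit 84) (.e (nat_lit 516197) (nat_lit 26) (.e (nat_lit 336209) (nat_lit 13) (.e (nat_lit 393221) (nat_lit 0) (.e (nat_lit 6217) (nat_lit 333) .nil)))))) (.g (nat_lit 0) .nil .nil))) 
(.lf (nat_lit 180257) (.g (nat_lit 1848) (.e (nat_lit 57814) (nat_lit 246) (.e (nat_lit 57902) (nat_lit 277) (.e (nat_lit 131140) (nat_lit 27) (.e (nat_lit 426306) (nat_lit 12) (.e (nat_lit 475201) (nat_lit 40) (.e (nat_lit 704839) (nat_lit 15) .nil)))))) (.g (nat_lit 5) .nil .nil)))) (.nd (nat_lit 5) 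
(.lf (nat_lit 180241) (.g (nat_lit 1810) (.e (nat_lit 57814) (nat_lit 246) (.e (nat_lit 57887) (nat_lit 270) (.e (nat_lit 1656) (nat_lit 115) (.e (nat_lit 393291) (nat_lit 26) (.e (nat_lit 475201) (nat_lit 40) .nil))))) .nil)) 
(.lf (nat_lit 180273) (.g (nat_lit 1413) (.e (nat_lit 57815) (nat_lit 246) (.e (nat_lit 57878) (nat_lit 270) (.e (nat_lit 371) (nat_lit 32) (.e (nat_lit 426542) (nat_lit 29) (.e (nat_lit 360192) (nat_lit 2) .nil))))) .nil)))) (.nd (nat_lit 4) (.nd (nat_lit 5) 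
(.lf (nat_lit 180233) (.g (nat_lit 2049) (.e (nat_lit 57814) (nat_lit 246) (.e (nat_lit 57600) (nat_lit 84) (.e (nat_lit 516199) (nat_lit 26) (.e (nat_lit 336223) (nat_lit 13) (.e (nat_lit 393221) (nat_lit 0) (.e (nat_lit 6217) (nat_lit 333) .nil)))))) (.g (nat_lit 0) .nil .nil))) 
(.lf (nat_lit 180265) (.g (nat_lit 1421) (.e (nat_lit 57815) (nat_lit 246) (.e (nat_lit 57596) (nat_lit 82) (.e (nat_lit 499900) (nat_lit 7) (.e (nat_lit 24658) (nat_lit 13) (.e (nat_lit 401152) (nat_lit 0) (.e (nat_lit 6217) (nat_lit 333) .nil)))))) (.g (nat_lit 4) .nil .nil)))) (.nd (nat_lit 5) 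
(.lf (nat_lit 180249) (.g (nat_lit 1688) (.e (nat_lit 57814) (nat_lit 246) (.e (nat_lit 57902) (nat_lit 277) (.e (nat_lit 131140) (nat_lit 27) (.e (nat_lit 426188) (nat_lit 9) (.e (nat_lit 426439) (nat_lit 19) (.e (nat_lit 106556) (nat_lit 15) .nil)))))) (.g (nat_lit 5) .nil .nil))) 
(.lf (nat_lit 180281) (.g (nat_lit 1162) (.e (nat_lit 57815) (nat_lit 246) (.e (nat_lit 57895) (nat_lit 272) (.e (nat_lit 16487) (nat_lit 27) (.e (nat_lit 336086) (nat_lit 9) (.e (nat_lit 343808) (nat_lit 17) (.e (nat_lit 196698) (nat_lit 19) .nil)))))) (.g (nat_lit 4) .nil .nil)))))) (.nd (nat_lit 3) (.nd (nat_lit 4) (.nd (nat_lit 5) 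
(.lf (nat_lit 180229) (.g (nat_lit 1643) (.e (nat_lit 57814) (nat_lit 246) (.e (nat_lit 57600) (nat_lit 84) (.e (nat_lit 516199) (nat_lit 26) (.e (nat_lit 336215) (nat_lit 13) (.e (nat_lit 401152) (nat_lit 0) (.e (nat_lit 6209) (nat_lit 333) .nil)))))) (.g (nat_lit 4) .nil .nil))) 
(.lf (nat_lit 180261) (.g (nat_lit 1835) (.e (nat_lit 57814) (nat_lit 246) (.e (nat_lit 57902) (nat_lit 277) (.e (nat_lit 131140) (nat_lit 27) (.e (nat_lit 426316) (nat_lit 12) (.e (nat_lit 475201) (nat_lit 40) (.e (nat_lit 704841) (nat_lit 15) .nil)))))) (.g (nat_lit 5) .nil .nil)))) (.nd (nat_lit 5) 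
(.lf (nat_lit 180245) (.g (nat_lit 1076) (.e (nat_lit 57814) (nat_lit 246) (.e (nat_lit 57902) (nat_lit 277) (.e (nat_lit 131138) (nat_lit 27) (.e (nat_lit 426232) (nat_lit 9) (.e (nat_lit 426443) (nat_lit 19) (.e (nat_lit 106556) (nat_lit 15) .nil)))))) (.g (nat_lit 0) .nil .nil))) 
(.lf (nat_lit 180277) (.g (nat_lit 886) (.e (nat_lit 57815) (nat_lit 246) (.e (nat_lit 57878) (nat_lit 270) (.e (nat_lit 496) (nat_lit 39) (.e (nat_lit 483391) (nat_lit 23) (.e (nat_lit 336319) (nat_lit 17) .nil))))) .nil)))) (.nd (nat_lit 4) (.nd (nat_lit 5) 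
(.lf (nat_lit 180237) (.g (nat_lit 1903) (.e (nat_lit 57814) (nat_lit 246) (.e (nat_lit 57884) (nat_lit 270) (.e (nat_lit 1656) (nat_lit 115) (.e (nat_lit 393270) (nat_lit 23) (.e (nat_lit 426442) (nat_lit 19) .nil))))) .nil)) 
(.lf (nat_lit 180269) (.g (nat_lit 2260) (.e (nat_lit 57815) (nat_lit 246) (.e (nat_lit 57602) (nat_lit 107) (.e (nat_lit 704734) (nat_lit 11) (.e (nat_lit 16433) (nat_lit 9) (.e (nat_lit 426550) (nat_lit 31) (.e (nat_lit 368656) (nat_lit 14) .nil)))))) (.g (nat_lit 0) .nil .nil)))) (.nd (nat_lit 5) 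
(.lf (nat_lit 180253) (.g (nat_lit 1125) (.e (nat_lit 57814) (nat_lit 246) (.e (nat_lit 57902) (nat_lit 277) (.e (nat_lit 131140) (nat_lit 27) (.e (nat_lit 426197) (nat_lit 9) (.e (nat_lit 426442) (nat_lit 19) (.e (nat_lit 106556) (nat_lit 15) .nil)))))) (.g (nat_lit 5) .nil .nil))) 
(.lf (nat_lit 180285) (.g (nat_lit 1481) (.e (nat_lit 57815) (nat_lit 246) (.e (nat_lit 57902) (nat_lit 277) (.e (nat_lit 131140) (nat_lit 27) (.e (nat_lit 426186) (nat_lit 9) (.e (nat_lit 426444) (nat_lit 19) (.e (nat_lit 106556) (nat_lit 15) .nil)))))) (.g (nat_lit 0) .nil .nil))))))) (.nd (nat_lit 2) (.nd (nat_lit 3) (.nd (nat_lit 4) (.nd (nat_lit 5) 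
(.lf (nat_lit 180227) (.g (nat_lit 602) (.e (nat_lit 57814) (nat_lit 246) (.e (nat_lit 57600) (nat_lit 84) (.e (nat_lit 516199) (nat_lit 26) (.e (nat_lit 336213) (nat_lit 13) (.e (nat_lit 401152) (nat_lit 0) .nil))))) .nil)) 
(.lf (nat_lit 180259) (.g (nat_lit 1686) (.e (nat_lit 57814) (nat_lit 246) (.e (nat_lit 57902) (nat_lit 277) (.e (nat_lit 131140) (nat_lit 27) (.e (nat_lit 426308) (nat_lit 12) (.e (nat_lit 475201) (nat_lit 40) (.e (nat_lit 704841) (nat_lit 15) .nil)))))) (.g (nat_lit 5) .nil .nil)))) (.nd (nat_lit 5) 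
(.lf (nat_lit 180243) (.g (nat_lit 1167) (.e (nat_lit 57814) (nat_lit 246) (.e (nat_lit 57895) (nat_lit 272) (.e (nat_lit 16487) (nat_lit 27) (.e (nat_lit 336086) (nat_lit 9) (.e (nat_lit 343808) (nat_lit 17) (.e (nat_lit 196698) (nat_lit 19) .nil)))))) (.g (nat_lit 4) .nil .nil))) 
(.lf (nat_lit 180275) (.g (nat_lit 1130) (.e (nat_lit 57815) (nat_lit 246) (.e (nat_lit 57878) (nat_lit 270) (.e (nat_lit 496) (nat_lit 39) (.e (nat_lit 483381) (nat_lit 23) (.e (nat_lit 336320) (nat_lit 17) .nil))))) .nil)))) (.nd (nat_lit 4) (.nd (nat_lit 5) 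
(.lf (nat_lit 180235) (.g (nat_lit 1152) (.e (nat_lit 57814) (nat_lit 246) (.e (nat_lit 57600) (nat_lit 84) (.e (nat_lit 516199) (nat_lit 26) (.e (nat_lit 336223) (nat_lit 13) (.e (nat_lit 401152) (nat_lit 0) (.e (nat_lit 6209) (nat_lit 333) .nil)))))) (.g (nat_lit 4) .nil .nil))) 
(.lf (nat_lit 180267) (.g (nat_lit 1036) (.e (nat_lit 57815) (nat_lit 246) (.e (nat_lit 57600) (nat_lit 84) (.e (nat_lit 516199) (nat_lit 26) (.e (nat_lit 336214) (nat_lit 13) (.e (nat_lit 401152) (nat_lit 0) (.e (nat_lit 6217) (nat_lit 333) .nil)))))) (.g (nat_lit 4) .nil .nil)))) (.nd (nat_lit 5) 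
(.lf (nat_lit 180251) (.g (nat_lit 1378) (.e (nat_lit 57814) (nat_lit 246) (.e (nat_lit 57902) (nat_lit 277) (.e (nat_lit 131140) (nat_lit 27) (.e (nat_lit 426189) (nat_lit 9) (.e (nat_lit 426444) (nat_lit 19) (.e (nat_lit 106556) (nat_lit 15) .nil)))))) (.g (nat_lit 5) .nil .nil))) 
(.lf (nat_lit 180283) (.g (nat_lit 1018) (.e (nat_lit 57815) (nat_lit 246) (.e (nat_lit 57902) (nat_lit 277) (.e (nat_lit 131138) (nat_lit 27) (.e (nat_lit 426230) (nat_lit 9) (.e (nat_lit 426443) (nat_lit 19) (.e (nat_lit 106556) (nat_lit 15) .nil)))))) (.g (nat_lit 0) .nil .nil)))))) (.nd (nat_lit 3) (.nd (nat_lit 4) (.nd (nat_lit 5) 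
(.lf (nat_lit 180231) (.g (nat_lit 2036) (.e (nat_lit 57814) (nat_lit 246) (.e (nat_lit 57600) (nat_lit 84) (.e (nat_lit 516199) (nat_lit 26) (.e (nat_lit 336220) (nat_lit 13) (.e (nat_lit 393221) (nat_lit 0) (.e (nat_lit 6209) (nat_lit 333) .nil)))))) (.g (nat_lit 6) .nil .nil))) 
(.lf (nat_lit 180263) (.g (nat_lit 1131) (.e (nat_lit 57815) (nat_lit 246) (.e (nat_lit 57596) (nat_lit 82) (.e (nat_lit 499900) (nat_lit 7) (.e (nat_lit 24655) (nat_lit 13) (.e (nat_lit 401152) (nat_lit 0) (.e (nat_lit 6217) (nat_lit 333) .nil)))))) (.g (nat_lit 4) .nil .nil)))) (.nd (nat_lit 5) 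
(.lf (nat_lit 180247) (.g (nat_lit 1478) (.e (nat_lit 57814) (nat_lit 246) (.e (nat_lit 57902) (nat_lit 277) (.e (nat_lit 131140) (nat_lit 27) (.e (nat_lit 426186) (nat_lit 9) (.e (nat_lit 426444) (nat_lit 19) (.e (nat_lit 106556) (nat_lit 15) .nil)))))) (.g (nat_lit 0) .nil .nil))) 
(.lf (nat_lit 180279) (.g (nat_lit 1751) (.e (nat_lit 57815) (nat_lit 246) (.e (nat_lit 57884) (nat_lit 270) (.e (nat_lit 1656) (nat_lit 115) (.e (nat_lit 393291) (nat_lit 26) .nil)))) .nil)))) (.nd (nat_lit 4) (.nd (nat_lit 5) 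
(.lf (nat_lit 180239) (.g (nat_lit 2342) (.e (nat_lit 57814) (nat_lit 246) (.e (nat_lit 57884) (nat_lit 270) (.e (nat_lit 1656) (nat_lit 115) (.e (nat_lit 393291) (nat_lit 26) (.e (nat_lit 475201) (nat_lit 40) .nil))))) .nil)) 
(.lf (nat_lit 180271) (.g (nat_lit 1740) (.e (nat_lit 57815) (nat_lit 246) (.e (nat_lit 57602) (nat_lit 107) (.e (nat_lit 704734) (nat_lit 11) (.e (nat_lit 16438) (nat_lit 9) (.e (nat_lit 426533) (nat_lit 28) (.e (nat_lit 344084) (nat_lit 14) .nil)))))) (.g (nat_lit 6) .nil .nil)))) (.nd (nat_lit 5) 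
(.lf (nat_lit 180255) (.g (nat_lit 2170) (.e (nat_lit 57814) (nat_lit 246) (.e (nat_lit 57902) (nat_lit 277) (.e (nat_lit 131140) (nat_lit 27) (.e (nat_lit 426199) (nat_lit 9) (.e (nat_lit 426444) (nat_lit 19) (.e (nat_lit 106556) (nat_lit 15) .nil)))))) (.g (nat_lit 0) .nil .nil))) 
(.lf (nat_lit 180287) (.g (nat_lit 1381) (.e (nat_lit 57815) (nat_lit 246) (.e (nat_lit 57902) (nat_lit 277) (.e (nat_lit 131140) (nat_lit 27) (.e (nat_lit 426189) (nat_lit 9) (.e (nat_lit 426444) (nat_lit 19) (.e (nat_lit 106556) (nat_lit 15) .nil)))))) (.g (nat_lit 5) .nil .nil)))))))))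

noncomputable def tv2416 : DT := (.nd (nat_lit 0) (.nd (nat_lit 1) (.nd (nat_lit 2) (.nd (nat_lit 3) (.nd (nat_lit 4) (.nd (nat_lit 5) 
(.lf (nat_lit 180288) (.g (nat_lit 1237) (.e (nat_lit 57815) (nat_lit 246) (.e (nat_lit 57902) (nat_lit 277) (.e (nat_lit 131140) (nat_lit 27) (.e (nat_lit 426197) (nat_lit 9) (.e (nat_lit 426442) (nat_lit 19) (.e (nat_lit 106556) (nat_lit 15) .nil)))))) (.g (nat_lit 5) .nil .nil))) 
(.lf (nat_lit 180320) (.g (nat_lit 2107) (.e (nat_lit 57816) (nat_lit 246) (.e (nat_lit 57902) (nat_lit 277) (.e (nat_lit 131140) (nat_lit 27) (.e (nat_lit 426306) (nat_lit 12) (.e (nat_lit 475201) (nat_lit 40) (.e (nat_lit 704841) (nat_lit 15) .nil)))))) (.g (nat_lit 0) .nil .nil)))) (.nd (nat_lit 5) 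
(.lf (nat_lit 180304) (.g (nat_lit 274) (.e (nat_lit 57816) (nat_lit 246) (.e (nat_lit 57881) (nat_lit 270) (.e (nat_lit 371) (nat_lit 32) .nil))) .nil)) 
(.lf (nat_lit 180336) (.g (nat_lit 1075) (.e (nat_lit 57819) (nat_lit 248) (.e (nat_lit 164359) (nat_lit 246) (.e (nat_lit 3062) (nat_lit 190) (.e (nat_lit 475193) (nat_lit 38) .nil)))) .nil)))) (.nd (nat_lit 4) (.nd (nat_lit 5) 
(.lf (nat_lit 180296) (.g (nat_lit 1003) (.e (nat_lit 57816) (nat_lit 246) (.e (nat_lit 57596) (nat_lit 82) (.e (nat_lit 499900) (nat_lit 7) (.e (nat_lit 24657) (nat_lit 13) (.e (nat_lit 401152) (nat_lit 0) .nil))))) .nil)) 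
(.lf (nat_lit 180328) (.g (nat_lit 991) (.e (nat_lit 57819) (nat_lit 248) (.e (nat_lit 164359) (nat_lit 246) (.e (nat_lit 2679) (nat_lit 168) (.e (nat_lit 204858) (nat_lit 26) .nil)))) .nil))) (.nd (nat_lit 5) 
(.lf (nat_lit 180312) (.g (nat_lit 1955) (.e (nat_lit 57816) (nat_lit 246) (.e (nat_lit 57902) (nat_lit 277) (.e (nat_lit 131140) (nat_lit 27) (.e (nat_lit 426187) (nat_lit 9) (.e (nat_lit 426444) (nat_lit 19) (.e (nat_lit 106556) (nat_lit 15) .nil)))))) (.g (nat_lit 0) .nil .nil))) 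
(.lf (nat_lit 180344) (.g (nat_lit 2046) (.e (nat_lit 57826) (nat_lit 250) (.e (nat_lit 1201) (nat_lit 88) (.e (nat_lit 65586) (nat_lit 7) (.e (nat_lit 319531) (nat_lit 16) (.e (nat_lit 286759) (nat_lit 12) .nil))))) .nil))))) (.nd (nat_lit 3) (.nd (nat_lit 4) (.nd (nat_lit 5) 
(.lf (nat_lit 180292) (.g (nat_lit 1943) (.e (nat_lit 57815) (nat_lit 246) (.e (nat_lit 57902) (nat_lit 277) (.e (nat_lit 131140) (nat_lit 27) (.e (nat_lit 426308) (nat_lit 12) (.e (nat_lit 475201) (nat_lit 40) (.e (nat_lit 704841) (nat_lit 15) .nil)))))) (.g (nat_lit 6) .nil .nil))) 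
(.lf (nat_lit 180324) (.g (nat_lit 535) (.e (nat_lit 57819) (nat_lit 248) (.e (nat_lit 164359) (nat_lit 246) (.e (nat_lit 2605) (nat_lit 163) .nil))) .nil))) (.nd (nat_lit 5) 
(.lf (nat_lit 180308) (.g (nat_lit 2055) (.e (nat_lit 57816) (nat_lit 246) (.e (nat_lit 57895) (nat_lit 272) (.e (nat_lit 16487) (nat_lit 27) (.e (nat_lit 336194) (nat_lit 12) (.e (nat_lit 385057) (nat_lit 22) (.e (nat_lit 499780) (nat_lit 1) .nil)))))) (.g (nat_lit 0) .nil .nil))) 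
(.lf (nat_lit 180340) (.g (nat_lit 1274) (.e (nat_lit 57825) (nat_lit 250) (.e (nat_lit 999) (nat_lit 81) (.e (nat_lit 1239) (nat_lit 91) (.e (nat_lit 90159) (nat_lit 11) .nil)))) .nil)))) (.nd (nat_lit 4) (.nd (nat_lit 5) 
(.lf (nat_lit 180300) (.g (nat_lit 1484) (.e (nat_lit 57816) (nat_lit 246) (.e (nat_lit 57600) (nat_lit 84) (.e (nat_lit 516199) (nat_lit 26) (.e (nat_lit 336215) (nat_lit 13) (.e (nat_lit 401152) (nat_lit 0) (.e (nat_lit 6217) (nat_lit 333) .nil)))))) (.g (nat_lit 4) .nil .nil))) 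
(.lf (nat_lit 180332) (.g (nat_lit 1281) (.e (nat_lit 57819) (nat_lit 248) (.e (nat_lit 164359) (nat_lit 246) (.e (nat_lit 2958) (nat_lit 185) (.e (nat_lit 434268) (nat_lit 36) (.e (nat_lit 639020) (nat_lit 16) .nil))))) .nil))) (.nd (nat_lit 5) 
(.lf (nat_lit 180316) (.g (nat_lit 1621) (.e (nat_lit 57816) (nat_lit 246) (.e (nat_lit 57902) (nat_lit 277) (.e (nat_lit 131140) (nat_lit 27) (.e (nat_lit 426197) (nat_lit 9) (.e (nat_lit 426444) (nat_lit 19) (.e (nat_lit 106556) (nat_lit 15) .nil)))))) (.g (nat_lit 0) .nil .nil))) 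
(.lf (nat_lit 180348) (.g (nat_lit 2932) (.e (nat_lit 57827) (nat_lit 250) (.e (nat_lit 1296) (nat_lit 96) (.e (nat_lit 131105) (nat_lit 9) (.e (nat_lit 336443) (nat_lit 32) (.e (nat_lit 466969) (nat_lit 21) (.e (nat_lit 164330) (nat_lit 230) (.e (nat_lit 171776) (nat_lit 62) .nil))))))) (.g (nat_lit 6) .nil .nil))))))) (.nd (nat_lit 2) (.nd (nat_lit 3) (.nd (nat_lit 4) (.nd (nat_lit 5) 
(.lf (nat_lit 180290) (.g (nat_lit 2173) (.e (nat_lit 57815) (nat_lit 246) (.e (nat_lit 57902) (nat_lit 277) (.e (nat_lit 131140) (nat_lit 27) (.e (nat_lit 426199) (nat_lit 9) (.e (nat_lit 426444) (nat_lit 19) (.e (nat_lit 106556) (nat_lit 15) .nil)))))) (.g (nat_lit 0) .nil .nil))) 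
(.lf (nat_lit 180322) (.g (nat_lit 332) (.e (nat_lit 57819) (nat_lit 248) (.e (nat_lit 164289) (nat_lit 224) (.e (nat_lit 164112) (nat_lit 118) (.e (nat_lit 802560) (nat_lit 13) .nil)))) .nil))) (.nd (nat_lit 5) 
(.lf (nat_lit 180306) (.g (nat_lit 666) (.e (nat_lit 57816) (nat_lit 246) (.e (nat_lit 57881) (nat_lit 270) (.e (nat_lit 7936) (nat_lit 115) .nil))) .nil)) 
(.lf (nat_lit 180338) (.g (nat_lit 1175) (.e (nat_lit 57822) (nat_lit 250) (.e (nat_lit 1201) (nat_lit 88) (.e (nat_lit 65586) (nat_lit 7) (.e (nat_lit 319531) (nat_lit 16) .nil)))) .nil)))) (.nd (nat_lit 4) (.nd (nat_lit 5) 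
(.lf (nat_lit 180298) (.g (nat_lit 1813) (.e (nat_lit 57816) (nat_lit 246) (.e (nat_lit 57596) (nat_lit 82) (.e (nat_lit 499900) (nat_lit 7) (.e (nat_lit 24660) (nat_lit 13) (.e (nat_lit 393221) (nat_lit 0) (.e (nat_lit 6209) (nat_lit 333) .nil)))))) (.g (nat_lit 0) .nil .nil))) 
(.lf (nat_lit 180330) (.g (nat_lit 1223) (.e (nat_lit 57819) (nat_lit 248) (.e (nat_lit 164359) (nat_lit 246) (.e (nat_lit 2883) (nat_lit 184) (.e (nat_lit 426109) (nat_lit 1) (.e (nat_lit 164319) (nat_lit 228) .nil))))) .nil))) (.nd (nat_lit 5) 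
(.lf (nat_lit 180314) (.g (nat_lit 1708) (.e (nat_lit 57816) (nat_lit 246) (.e (nat_lit 57902) (nat_lit 277) (.e (nat_lit 131140) (nat_lit 27) (.e (nat_lit 426190) (nat_lit 9) (.e (nat_lit 426442) (nat_lit 19) (.e (nat_lit 106556) (nat_lit 15) .nil)))))) (.g (nat_lit 0) .nil .nil))) 
(.lf (nat_lit 180346) (.g (nat_lit 3591) (.e (nat_lit 57827) (nat_lit 250) (.e (nat_lit 1201) (nat_lit 88) (.e (nat_lit 65586) (nat_lit 7) (.e (nat_lit 319531) (nat_lit 16) (.e (nat_lit 286743) (nat_lit 9) (.e (nat_lit 336337) (nat_lit 20) (.e (nat_lit 229120) (nat_lit 1) .nil))))))) (.g (nat_lit 6) .nil .nil)))))) (.nd (nat_lit 3) (.nd (nat_lit 4) (.nd (nat_lit 5) 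
(.lf (nat_lit 180294) (.g (nat_lit 2236) (.e (nat_lit 57816) (nat_lit 246) (.e (nat_lit 57584) (nat_lit 61) (.e (nat_lit 5193) (nat_lit 294) (.e (nat_lit 57437) (nat_lit 17) (.e (nat_lit 376860) (nat_lit 21) (.e (nat_lit 57832) (nat_lit 250) (.e (nat_lit 92) (nat_lit 1) (.e (nat_lit 57809) (nat_lit 246) .nil)))))))) (.g (nat_lit 6) .nil .nil))) 
(.lf (nat_lit 180326) (.g (nat_lit 1059) (.e (nat_lit 57819) (nat_lit 248) (.e (nat_lit 164359) (nat_lit 246) (.e (nat_lit 2661) (nat_lit 167) (.e (nat_lit 196673) (nat_lit 15) .nil)))) .nil))) (.nd (nat_lit 5) 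
(.lf (nat_lit 180310) (.g (nat_lit 1027) (.e (nat_lit 57816) (nat_lit 246) (.e (nat_lit 57902) (nat_lit 277) (.e (nat_lit 131138) (nat_lit 27) (.e (nat_lit 426232) (nat_lit 9) (.e (nat_lit 426443) (nat_lit 19) (.e (nat_lit 106556) (nat_lit 15) .nil)))))) (.g (nat_lit 0) .nil .nil))) 
(.lf (nat_lit 180342) (.g (nat_lit 742) (.e (nat_lit 57825) (nat_lit 250) (.e (nat_lit 1224) (nat_lit 90) (.e (nat_lit 81925) (nat_lit 11) (.e (nat_lit 426190) (nat_lit 9) .nil)))) .nil)))) (.nd (nat_lit 4) (.nd (nat_lit 5) 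
(.lf (nat_lit 180302) (.g (nat_lit 1926) (.e (nat_lit 57816) (nat_lit 246) (.e (nat_lit 57600) (nat_lit 84) (.e (nat_lit 516199) (nat_lit 26) (.e (nat_lit 336222) (nat_lit 13) (.e (nat_lit 393221) (nat_lit 0) (.e (nat_lit 6209) (nat_lit 333) .nil)))))) (.g (nat_lit 0) .nil .nil))) 
(.lf (nat_lit 180334) (.g (nat_lit 466) (.e (nat_lit 57819) (nat_lit 248) (.e (nat_lit 164359) (nat_lit 246) (.e (nat_lit 2979) (nat_lit 185) .nil))) .nil))) (.nd (nat_lit 5) 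
(.lf (nat_lit 180318) (.g (nat_lit 1185) (.e (nat_lit 57816) (nat_lit 246) (.e (nat_lit 57902) (nat_lit 277) (.e (nat_lit 131140) (nat_lit 27) (.e (nat_lit 426258) (nat_lit 9) (.e (nat_lit 426443) (nat_lit 19) (.e (nat_lit 106556) (nat_lit 15) .nil)))))) (.g (nat_lit 6) .nil .nil))) 
(.lf (nat_lit 180350) (.g (nat_lit 3003) (.e (nat_lit 57827) (nat_lit 250) (.e (nat_lit 1296) (nat_lit 96) (.e (nat_lit 131109) (nat_lit 9) (.e (nat_lit 336443) (nat_lit 32) (.e (nat_lit 466969) (nat_lit 21) (.e (nat_lit 164330) (nat_lit 230) (.e (nat_lit 171776) (nat_lit 62) .nil))))))) (.g (nat_lit 6) .nil .nil)))))))) 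
(.nd (nat_lit 1) (.nd (nat_lit 2) (.nd (nat_lit 3) (.nd (nat_lit 4) (.nd (nat_lit 5) 
(.lf (nat_lit 180289) (.g (nat_lit 1688) (.e (nat_lit 57815) (nat_lit 246) (.e (nat_lit 57902) (nat_lit 277) (.e (nat_lit 131140) (nat_lit 27) (.e (nat_lit 426197) (nat_lit 9) (.e (nat_lit 426444) (nat_lit 19) (.e (nat_lit 106556) (nat_lit 15) .nil)))))) (.g (nat_lit 0) .nil .nil))) 
(.lf (nat_lit 180321) (.g (nat_lit 1826) (.e (nat_lit 57816) (nat_lit 246) (.e (nat_lit 57902) (nat_lit 277) (.e (nat_lit 131140) (nat_lit 27) (.e (nat_lit 426316) (nat_lit 12) (.e (nat_lit 475201) (nat_lit 40) (.e (nat_lit 704839) (nat_lit 15) .nil)))))) (.g (nat_lit 6) .nil .nil)))) (.nd (nat_lit 5) 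
(.lf (nat_lit 180305) (.g (nat_lit 849) (.e (nat_lit 57816) (nat_lit 246) (.e (nat_lit 57881) (nat_lit 270) (.e (nat_lit 496) (nat_lit 39) (.e (nat_lit 483384) (nat_lit 23) .nil)))) .nil)) 
(.lf (nat_lit 180337) (.g (nat_lit 1461) (.e (nat_lit 57819) (nat_lit 248) (.e (nat_lit 164359) (nat_lit 246) (.e (nat_lit 3062) (nat_lit 190) (.e (nat_lit 475193) (nat_lit 38) (.e (nat_lit 688181) (nat_lit 17) .nil))))) .nil)))) (.nd (nat_lit 4) (.nd (nat_lit 5) 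
(.lf (nat_lit 180297) (.g (nat_lit 1364) (.e (nat_lit 57816) (nat_lit 246) (.e (nat_lit 57596) (nat_lit 82) (.e (nat_lit 499900) (nat_lit 7) (.e (nat_lit 24658) (nat_lit 13) (.e (nat_lit 401152) (nat_lit 0) .nil))))) .nil)) 
(.lf (nat_lit 180329) (.g (nat_lit 437) (.e (nat_lit 57819) (nat_lit 248) (.e (nat_lit 164359) (nat_lit 246) (.e (nat_lit 2852) (nat_lit 184) .nil))) .nil))) (.nd (nat_lit 5) 
(.lf (nat_lit 180313) (.g (nat_lit 1314) (.e (nat_lit 57816) (nat_lit 246) (.e (nat_lit 57902) (nat_lit 277) (.e (nat_lit 131140) (nat_lit 27) (.e (nat_lit 426189) (nat_lit 9) (.e (nat_lit 426444) (nat_lit 19) (.e (nat_lit 106556) (nat_lit 15) .nil)))))) (.g (nat_lit 5) .nil .nil))) 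
(.lf (nat_lit 180345) (.g (nat_lit 1894) (.e (nat_lit 57827) (nat_lit 250) (.e (nat_lit 1201) (nat_lit 88) (.e (nat_lit 65583) (nat_lit 7) (.e (nat_lit 319530) (nat_lit 16) (.e (nat_lit 286748) (nat_lit 9) .nil))))) .nil))))) (.nd (nat_lit 3) (.nd (nat_lit 4) (.nd (nat_lit 5) 
(.lf (nat_lit 180293) (.g (nat_lit 2089) (.e (nat_lit 57815) (nat_lit 246) (.e (nat_lit 57902) (nat_lit 277) (.e (nat_lit 131140) (nat_lit 27) (.e (nat_lit 426316) (nat_lit 12) (.e (nat_lit 475201) (nat_lit 40) (.e (nat_lit 704841) (nat_lit 15) .nil)))))) (.g (nat_lit 6) .nil .nil))) 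
(.lf (nat_lit 180325) (.g (nat_lit 1441) (.e (nat_lit 57819) (nat_lit 248) (.e (nat_lit 164359) (nat_lit 246) (.e (nat_lit 2661) (nat_lit 167) (.e (nat_lit 196662) (nat_lit 13) (.e (nat_lit 65598) (nat_lit 9) (.e (nat_lit 336013) (nat_lit 2) (.e (nat_lit 98048) (nat_lit 19) .nil))))))) (.g (nat_lit 4) .nil .nil)))) (.nd (nat_lit 5) 
(.lf (nat_lit 180309) (.g (nat_lit 648) (.e (nat_lit 57816) (nat_lit 246) (.e (nat_lit 57902) (nat_lit 277) (.e (nat_lit 131138) (nat_lit 27) (.e (nat_lit 426228) (nat_lit 9) (.e (nat_lit 426443) (nat_lit 19) (.e (nat_lit 106556) (nat_lit 15) .nil)))))) (.g (nat_lit 5) .nil .nil))) 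
(.lf (nat_lit 180341) (.g (nat_lit 827) (.e (nat_lit 57825) (nat_lit 250) (.e (nat_lit 1224) (nat_lit 90) (.e (nat_lit 81925) (nat_lit 11) (.e (nat_lit 426189) (nat_lit 9) .nil)))) .nil)))) (.nd (nat_lit 4) (.nd (nat_lit 5) 
(.lf (nat_lit 180301) (.g (nat_lit 950) (.e (nat_lit 57816) (nat_lit 246) (.e (nat_lit 57600) (nat_lit 84) (.e (nat_lit 516199) (nat_lit 26) (.e (nat_lit 336221) (nat_lit 13) (.e (nat_lit 393220) (nat_lit 0) .nil))))) .nil)) 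
(.lf (nat_lit 180333) (.g (nat_lit 405) (.e (nat_lit 57819) (nat_lit 248) (.e (nat_lit 164359) (nat_lit 246) (.e (nat_lit 2973) (nat_lit 185) .nil))) .nil))) (.nd (nat_lit 5) 
(.lf (nat_lit 180317) (.g (nat_lit 2106) (.e (nat_lit 57816) (nat_lit 246) (.e (nat_lit 57902) (nat_lit 277) (.e (nat_lit 131140) (nat_lit 27) (.e (nat_lit 426199) (nat_lit 9) (.e (nat_lit 426444) (nat_lit 19) (.e (nat_lit 106556) (nat_lit 15) .nil)))))) (.g (nat_lit 0) .nil .nil))) 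
(.lf (nat_lit 180349) (.g (nat_lit 3232) (.e (nat_lit 57827) (nat_lit 250) (.e (nat_lit 1296) (nat_lit 96) (.e (nat_lit 131105) (nat_lit 9) (.e (nat_lit 336443) (nat_lit 32) (.e (nat_lit 466972) (nat_lit 21) (.e (nat_lit 164330) (nat_lit 230) (.e (nat_lit 171776) (nat_lit 62) .nil))))))) (.g (nat_lit 6) .nil .nil))))))) (.nd (nat_lit 2) (.nd (nat_lit 3) (.nd (nat_lit 4) (.nd (nat_lit 5) 
(.lf (nat_lit 180291) (.g (nat_lit 2093) (.e (nat_lit 57815) (nat_lit 246) (.e (nat_lit 57902) (nat_lit 277) (.e (nat_lit 131140) (nat_lit 27) (.e (nat_lit 426306) (nat_lit 12) (.e (nat_lit 475201) (nat_lit 40) (.e (nat_lit 704841) (nat_lit 15) .nil)))))) (.g (nat_lit 0) .nil .nil))) 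
(.lf (nat_lit 180323) (.g (nat_lit 1236) (.e (nat_lit 57819) (nat_lit 248) (.e (nat_lit 164359) (nat_lit 246) (.e (nat_lit 2416) (nat_lit 157) (.e (nat_lit 7107) (nat_lit 380) (.e (nat_lit 164281) (nat_lit 222) .nil))))) .nil))) (.nd (nat_lit 5) 
(.lf (nat_lit 180307) (.g (nat_lit 1177) (.e (nat_lit 57816) (nat_lit 246) (.e (nat_lit 57895) (nat_lit 272) (.e (nat_lit 16487) (nat_lit 27) (.e (nat_lit 336086) (nat_lit 9) (.e (nat_lit 343808) (nat_lit 17) (.e (nat_lit 196698) (nat_lit 19) .nil)))))) (.g (nat_lit 4) .nil .nil))) 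
(.lf (nat_lit 180339) (.g (nat_lit 2480) (.e (nat_lit 57822) (nat_lit 250) (.e (nat_lit 1201) (nat_lit 88) (.e (nat_lit 65586) (nat_lit 7) (.e (nat_lit 319531) (nat_lit 16) (.e (nat_lit 286751) (nat_lit 10) .nil))))) .nil)))) (.nd (nat_lit 4) (.nd (nat_lit 5) 
(.lf (nat_lit 180299) (.g (nat_lit 883) (.e (nat_lit 57816) (nat_lit 246) (.e (nat_lit 57600) (nat_lit 84) (.e (nat_lit 516199) (nat_lit 26) (.e (nat_lit 336214) (nat_lit 13) (.e (nat_lit 401152) (nat_lit 0) .nil))))) .nil)) 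
(.lf (nat_lit 180331) (.g (nat_lit 1661) (.e (nat_lit 57819) (nat_lit 248) (.e (nat_lit 164359) (nat_lit 246) (.e (nat_lit 2887) (nat_lit 184) (.e (nat_lit 426109) (nat_lit 1) (.e (nat_lit 164319) (nat_lit 228) .nil))))) .nil))) (.nd (nat_lit 5) 
(.lf (nat_lit 180315) (.g (nat_lit 1225) (.e (nat_lit 57816) (nat_lit 246) (.e (nat_lit 57902) (nat_lit 277) (.e (nat_lit 131140) (nat_lit 27) (.e (nat_lit 426197) (nat_lit 9) (.e (nat_lit 426442) (nat_lit 19) (.e (nat_lit 106556) (nat_lit 15) .nil)))))) (.g (nat_lit 6) .nil .nil))) 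
(.lf (nat_lit 180347) (.g (nat_lit 2403) (.e (nat_lit 57827) (nat_lit 250) (.e (nat_lit 1201) (nat_lit 88) (.e (nat_lit 65586) (nat_lit 7) (.e (nat_lit 319531) (nat_lit 16) (.e (nat_lit 286748) (nat_lit 9) (.e (nat_lit 343808) (nat_lit 20) (.e (nat_lit 229120) (nat_lit 1) .nil))))))) (.g (nat_lit 5) .nil .nil)))))) (.nd (nat_lit 3) (.nd (nat_lit 4) (.nd (nat_lit 5) 
(.lf (nat_lit 180295) (.g (nat_lit 1089) (.e (nat_lit 57816) (nat_lit 246) (.e (nat_lit 57596) (nat_lit 82) (.e (nat_lit 499900) (nat_lit 7) (.e (nat_lit 24655) (nat_lit 13) (.e (nat_lit 401152) (nat_lit 0) .nil))))) .nil)) 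
(.lf (nat_lit 180327) (.g (nat_lit 999) (.e (nat_lit 57819) (nat_lit 248) (.e (nat_lit 164359) (nat_lit 246) (.e (nat_lit 2679) (nat_lit 168) (.e (nat_lit 204850) (nat_lit 26) .nil)))) .nil))) (.nd (nat_lit 5) 
(.lf (nat_lit 180311) (.g (nat_lit 1414) (.e (nat_lit 57816) (nat_lit 246) (.e (nat_lit 57902) (nat_lit 277) (.e (nat_lit 131140) (nat_lit 27) (.e (nat_lit 426186) (nat_lit 9) (.e (nat_lit 426444) (nat_lit 19) (.e (nat_lit 106556) (nat_lit 15) .nil)))))) (.g (nat_lit 0) .nil .nil))) 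
(.lf (nat_lit 180343) (.g (nat_lit 2406) (.e (nat_lit 57826) (nat_lit 250) (.e (nat_lit 1201) (nat_lit 88) (.e (nat_lit 65586) (nat_lit 7) (.e (nat_lit 319531) (nat_lit 16) (.e (nat_lit 286743) (nat_lit 9) .nil))))) .nil)))) (.nd (nat_lit 4) (.nd (nat_lit 5) 
(.lf (nat_lit 180303) (.g (nat_lit 997) (.e (nat_lit 57816) (nat_lit 246) (.e (nat_lit 57600) (nat_lit 84) (.e (nat_lit 516199) (nat_lit 26) (.e (nat_lit 336223) (nat_lit 13) (.e (nat_lit 401152) (nat_lit 0) (.e (nat_lit 6217) (nat_lit 333) .nil)))))) (.g (nat_lit 4) .nil .nil))) 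
(.lf (nat_lit 180335) (.g (nat_lit 889) (.e (nat_lit 57819) (nat_lit 248) (.e (nat_lit 164359) (nat_lit 246) (.e (nat_lit 2979) (nat_lit 185) (.e (nat_lit 434269) (nat_lit 36) (.e (nat_lit 639019) (nat_lit 16) .nil))))) .nil))) (.nd (nat_lit 5) 
(.lf (nat_lit 180319) (.g (nat_lit 1853) (.e (nat_lit 57816) (nat_lit 246) (.e (nat_lit 57902) (nat_lit 277) (.e (nat_lit 131140) (nat_lit 27) (.e (nat_lit 426306) (nat_lit 12) (.e (nat_lit 475201) (nat_lit 40) (.e (nat_lit 704839) (nat_lit 15) .nil)))))) (.g (nat_lit 0) .nil .nil))) 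
(.lf (nat_lit 180351) (.g (nat_lit 3339) (.e (nat_lit 57827) (nat_lit 250) (.e (nat_lit 1296) (nat_lit 96) (.e (nat_lit 131109) (nat_lit 9) (.e (nat_lit 336443) (nat_lit 32) (.e (nat_lit 466972) (nat_lit 21) (.e (nat_lit 164330) (nat_lit 230) (.e (nat_lit 171776) (nat_lit 62) .nil))))))) (.g (nat_lit 6) .nil .nil)))))))))

noncomputable def tv2417 : DT := (.nd (nat_lit 0) (.nd (nat_lit 1) (.nd (nat_lit 2) (.nd (nat_lit 3) (.nd (nat_lit 4) (.nd (nat_lit 5) 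
(.lf (nat_lit 180352) (.g (nat_lit 2416) (.e (nat_lit 57828) (nat_lit 250) (.e (nat_lit 1201) (nat_lit 88) (.e (nat_lit 65586) (nat_lit 7) (.e (nat_lit 319531) (nat_lit 16) (.e (nat_lit 286743) (nat_lit 9) .nil))))) .nil)) 
(.lf (nat_lit 180384) (.g (nat_lit 680) (.e (nat_lit 57829) (nat_lit 250) (.e (nat_lit 1201) (nat_lit 88) (.e (nat_lit 65589) (nat_lit 9) .nil))) .nil))) (.nd (nat_lit 5) 
(.lf (nat_lit 180368) (.g (nat_lit 2045) (.e (nat_lit 57829) (nat_lit 250) (.e (nat_lit 1201) (nat_lit 88) (.e (nat_lit 65583) (nat_lit 7) (.e (nat_lit 319530) (nat_lit 16) (.e (nat_lit 286745) (nat_lit 9) .nil))))) .nil)) 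
(.lf (nat_lit 180400) (.g (nat_lit 2366) (.e (nat_lit 57829) (nat_lit 250) (.e (nat_lit 1201) (nat_lit 88) (.e (nat_lit 65625) (nat_lit 13) (.e (nat_lit 393293) (nat_lit 26) (.e (nat_lit 475212) (nat_lit 42) (.e (nat_lit 720934) (nat_lit 21) .nil)))))) (.g (nat_lit 0) .nil .nil))))) (.nd (nat_lit 4) (.nd (nat_lit 5) 
(.lf (nat_lit 180360) (.g (nat_lit 2052) (.e (nat_lit 57829) (nat_lit 250) (.e (nat_lit 1201) (nat_lit 88) (.e (nat_lit 65569) (nat_lit 3) (.e (nat_lit 98359) (nat_lit 26) (.e (nat_lit 426171) (nat_lit 7) .nil))))) .nil)) 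
(.lf (nat_lit 180392) (.g (nat_lit 460) (.e (nat_lit 57829) (nat_lit 250) (.e (nat_lit 1201) (nat_lit 88) (.e (nat_lit 65625) (nat_lit 13) .nil))) .nil))) (.nd (nat_lit 5) 
(.lf (nat_lit 180376) (.g (nat_lit 2294) (.e (nat_lit 57829) (nat_lit 250) (.e (nat_lit 1201) (nat_lit 88) (.e (nat_lit 65586) (nat_lit 7) (.e (nat_lit 319531) (nat_lit 16) (.e (nat_lit 286744) (nat_lit 9) .nil))))) .nil)) 
(.lf (nat_lit 180408) (.g (nat_lit 1964) (.e (nat_lit 57829) (nat_lit 250) (.e (nat_lit 1201) (nat_lit 88) (.e (nat_lit 65627) (nat_lit 13) (.e (nat_lit 393293) (nat_lit 26) (.e (nat_lit 475212) (nat_lit 42) (.e (nat_lit 720930) (nat_lit 21) .nil)))))) (.g (nat_lit 5) .nil .nil)))))) (.nd (nat_lit 3) (.nd (nat_lit 4) (.nd (nat_lit 5) 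
(.lf (nat_lit 180356) (.g (nat_lit 3426) (.e (nat_lit 57829) (nat_lit 250) (.e (nat_lit 1183) (nat_lit 87) (.e (nat_lit 57479) (nat_lit 28) (.e (nat_lit 557109) (nat_lit 15) (.e (nat_lit 188461) (nat_lit 26) (.e (nat_lit 253959) (nat_lit 9) (.e (nat_lit 1181) (nat_lit 87) (.e (nat_lit 57847) (nat_lit 252) (.e (nat_lit 57365) (nat_lit 1) .nil))))))))) (.g (nat_lit 4) .nil .nil))) 
(.lf (nat_lit 180388) (.g (nat_lit 666) (.e (nat_lit 57829) (nat_lit 250) (.e (nat_lit 1201) (nat_lit 88) (.e (nat_lit 65599) (nat_lit 9) .nil))) .nil))) (.nd (nat_lit 5) 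
(.lf (nat_lit 180372) (.g (nat_lit 3373) (.e (nat_lit 57829) (nat_lit 250) (.e (nat_lit 1201) (nat_lit 88) (.e (nat_lit 65583) (nat_lit 7) (.e (nat_lit 319530) (nat_lit 16) (.e (nat_lit 286753) (nat_lit 10) (.e (nat_lit 344097) (nat_lit 18) (.e (nat_lit 5194) (nat_lit 294) (.e (nat_lit 57368) (nat_lit 1) .nil)))))))) (.g (nat_lit 6) .nil .nil))) 
(.lf (nat_lit 180404) (.g (nat_lit 2619) (.e (nat_lit 57829) (nat_lit 250) (.e (nat_lit 1201) (nat_lit 88) (.e (nat_lit 65627) (nat_lit 13) (.e (nat_lit 393270) (nat_lit 23) (.e (nat_lit 426448) (nat_lit 20) (.e (nat_lit 114710) (nat_lit 21) .nil)))))) (.g (nat_lit 0) .nil .nil))))) (.nd (nat_lit 4) (.nd (nat_lit 5) 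
(.lf (nat_lit 180364) (.g (nat_lit 2481) (.e (nat_lit 57829) (nat_lit 250) (.e (nat_lit 1201) (nat_lit 88) (.e (nat_lit 65571) (nat_lit 3) (.e (nat_lit 98359) (nat_lit 26) (.e (nat_lit 426171) (nat_lit 7) .nil))))) .nil)) 
(.lf (nat_lit 180396) (.g (nat_lit 1418) (.e (nat_lit 57829) (nat_lit 250) (.e (nat_lit 1201) (nat_lit 88) (.e (nat_lit 65625) (nat_lit 13) (.e (nat_lit 393292) (nat_lit 26) (.e (nat_lit 475214) (nat_lit 42) .nil))))) .nil))) (.nd (nat_lit 5) 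
(.lf (nat_lit 180380) (.g (nat_lit 2681) (.e (nat_lit 57829) (nat_lit 250) (.e (nat_lit 1201) (nat_lit 88) (.e (nat_lit 65586) (nat_lit 7) (.e (nat_lit 319531) (nat_lit 16) (.e (nat_lit 286748) (nat_lit 9) (.e (nat_lit 335925) (nat_lit 0) (.e (nat_lit 1023) (nat_lit 81) (.e (nat_lit 5195) (nat_lit 294) (.e (nat_lit 57368) (nat_lit 1) .nil))))))))) (.g (nat_lit 5) .nil .nil))) 
(.lf (nat_lit 180412) (.g (nat_lit 475) (.e (nat_lit 57829) (nat_lit 250) (.e (nat_lit 1201) (nat_lit 88) (.e (nat_lit 65651) (nat_lit 27) .nil))) .nil)))))) (.nd (nat_lit 2) (.nd (nat_lit 3) (.nd (nat_lit 4) (.nd (nat_lit 5) 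
(.lf (nat_lit 180354) (.g (nat_lit 2756) (.e (nat_lit 57829) (nat_lit 250) (.e (nat_lit 1183) (nat_lit 87) (.e (nat_lit 57479) (nat_lit 28) (.e (nat_lit 557103) (nat_lit 14) (.e (nat_lit 180250) (nat_lit 10) .nil))))) .nil)) 
(.lf (nat_lit 180386) (.g (nat_lit 1021) (.e (nat_lit 57829) (nat_lit 250) (.e (nat_lit 1201) (nat_lit 88) (.e (nat_lit 65589) (nat_lit 9) (.e (nat_lit 336428) (nat_lit 29) .nil)))) .nil))) (.nd (nat_lit 5) 
(.lf (nat_lit 180370) (.g (nat_lit 2333) (.e (nat_lit 57829) (nat_lit 250) (.e (nat_lit 1201) (nat_lit 88) (.e (nat_lit 65583) (nat_lit 7) (.e (nat_lit 319530) (nat_lit 16) (.e (nat_lit 286748) (nat_lit 9) (.e (nat_lit 335925) (nat_lit 0) (.e (nat_lit 1023) (nat_lit 81) (.e (nat_lit 5195) (nat_lit 294) (.e (nat_lit 57365) (nat_lit 1) .nil))))))))) (.g (nat_lit 5) .nil .nil))) 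
(.lf (nat_lit 180402) (.g (nat_lit 428) (.e (nat_lit 57829) (nat_lit 250) (.e (nat_lit 1201) (nat_lit 88) (.e (nat_lit 65627) (nat_lit 13) .nil))) .nil)))) (.nd (nat_lit 4) (.nd (nat_lit 5) 
(.lf (nat_lit 180362) (.g (nat_lit 3490) (.e (nat_lit 57829) (nat_lit 250) (.e (nat_lit 1201) (nat_lit 88) (.e (nat_lit 65569) (nat_lit 3) (.e (nat_lit 98359) (nat_lit 26) (.e (nat_lit 426171) (nat_lit 7) (.e (nat_lit 409617) (nat_lit 10) (.e (nat_lit 604) (nat_lit 45) (.e (nat_lit 532501) (nat_lit 1) .nil)))))))) (.g (nat_lit 6) .nil .nil))) 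
(.lf (nat_lit 180394) (.g (nat_lit 2849) (.e (nat_lit 57829) (nat_lit 250) (.e (nat_lit 1201) (nat_lit 88) (.e (nat_lit 65625) (nat_lit 13) (.e (nat_lit 393270) (nat_lit 23) (.e (nat_lit 426448) (nat_lit 20) (.e (nat_lit 114710) (nat_lit 21) .nil)))))) (.g (nat_lit 0) .nil .nil)))) (.nd (nat_lit 5) 
(.lf (nat_lit 180378) (.g (nat_lit 1909) (.e (nat_lit 57829) (nat_lit 250) (.e (nat_lit 1201) (nat_lit 88) (.e (nat_lit 65586) (nat_lit 7) (.e (nat_lit 319531) (nat_lit 16) (.e (nat_lit 286747) (nat_lit 9) .nil))))) .nil)) 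
(.lf (nat_lit 180410) (.g (nat_lit 2209) (.e (nat_lit 57829) (nat_lit 250) (.e (nat_lit 1201) (nat_lit 88) (.e (nat_lit 65627) (nat_lit 13) (.e (nat_lit 393293) (nat_lit 26) (.e (nat_lit 475212) (nat_lit 42) (.e (nat_lit 720934) (nat_lit 21) .nil)))))) (.g (nat_lit 0) .nil .nil)))))) (.nd (nat_lit 3) (.nd (nat_lit 4) (.nd (nat_lit 5) 
(.lf (nat_lit 180358) (.g (nat_lit 3297) (.e (nat_lit 57829) (nat_lit 250) (.e (nat_lit 1183) (nat_lit 87) (.e (nat_lit 57480) (nat_lit 28) (.e (nat_lit 557109) (nat_lit 15) (.e (nat_lit 188461) (nat_lit 26) (.e (nat_lit 253959) (nat_lit 9) (.e (nat_lit 1182) (nat_lit 87) (.e (nat_lit 57854) (nat_lit 252) (.e (nat_lit 57364) (nat_lit 1) .nil))))))))) (.g (nat_lit 4) .nil .nil))) 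
(.lf (nat_lit 180390) (.g (nat_lit 1417) (.e (nat_lit 57829) (nat_lit 250) (.e (nat_lit 1201) (nat_lit 88) (.e (nat_lit 65599) (nat_lit 9) (.e (nat_lit 336417) (nat_lit 27) (.e (nat_lit 426187) (nat_lit 9) .nil))))) .nil))) (.nd (nat_lit 5) 
(.lf (nat_lit 180374) (.g (nat_lit 3373) (.e (nat_lit 57829) (nat_lit 250) (.e (nat_lit 1201) (nat_lit 88) (.e (nat_lit 65583) (nat_lit 7) (.e (nat_lit 319533) (nat_lit 16) (.e (nat_lit 286753) (nat_lit 10) (.e (nat_lit 344097) (nat_lit 18) (.e (nat_lit 5194) (nat_lit 294) (.e (nat_lit 57368) (nat_lit 1) .nil)))))))) (.g (nat_lit 6) .nil .nil))) 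
(.lf (nat_lit 180406) (.g (nat_lit 2158) (.e (nat_lit 57829) (nat_lit 250) (.e (nat_lit 1201) (nat_lit 88) (.e (nat_lit 65627) (nat_lit 13) (.e (nat_lit 393292) (nat_lit 26) (.e (nat_lit 475212) (nat_lit 42) (.e (nat_lit 720930) (nat_lit 21) .nil)))))) (.g (nat_lit 5) .nil .nil))))) (.nd (nat_lit 4) (.nd (nat_lit 5) 
(.lf (nat_lit 180366) (.g (nat_lit 1300) (.e (nat_lit 57829) (nat_lit 250) (.e (nat_lit 1201) (nat_lit 88) (.e (nat_lit 65583) (nat_lit 7) (.e (nat_lit 319530) (nat_lit 16) (.e (nat_lit 286742) (nat_lit 9) .nil))))) .nil)) 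
(.lf (nat_lit 180398) (.g (nat_lit 2121) (.e (nat_lit 57829) (nat_lit 250) (.e (nat_lit 1201) (nat_lit 88) (.e (nat_lit 65625) (nat_lit 13) (.e (nat_lit 393293) (nat_lit 26) (.e (nat_lit 475212) (nat_lit 42) (.e (nat_lit 720930) (nat_lit 21) .nil)))))) (.g (nat_lit 5) .nil .nil)))) (.nd (nat_lit 5) 
(.lf (nat_lit 180382) (.g (nat_lit 2294) (.e (nat_lit 57829) (nat_lit 250) (.e (nat_lit 1201) (nat_lit 88) (.e (nat_lit 65586) (nat_lit 7) (.e (nat_lit 319531) (nat_lit 16) (.e (nat_lit 286757) (nat_lit 11) .nil))))) .nil)) 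
(.lf (nat_lit 180414) (.g (nat_lit 1589) (.e (nat_lit 57829) (nat_lit 250) (.e (nat_lit 1214) (nat_lit 89) (.e (nat_lit 73746) (nat_lit 3) (.e (nat_lit 516143) (nat_lit 9) (.e (nat_lit 426173) (nat_lit 7) .nil))))) .nil))))))) (.nd (nat_lit 1) (.nd (nat_lit 2) (.nd (nat_lit 3) (.nd (nat_lit 4) (.nd (nat_lit 5) 
(.lf (nat_lit 180353) (.g (nat_lit 333) (.e (nat_lit 57829) (nat_lit 250) (.e (nat_lit 1183) (nat_lit 87) (.e (nat_lit 57466) (nat_lit 23) .nil))) .nil)) 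
(.lf (nat_lit 180385) (.g (nat_lit 1011) (.e (nat_lit 57829) (nat_lit 250) (.e (nat_lit 1201) (nat_lit 88) (.e (nat_lit 65589) (nat_lit 9) (.e (nat_lit 336427) (nat_lit 29) .nil)))) .nil))) (.nd (nat_lit 5) 
(.lf (nat_lit 180369) (.g (nat_lit 1346) (.e (nat_lit 57829) (nat_lit 250) (.e (nat_lit 1201) (nat_lit 88) (.e (nat_lit 65583) (nat_lit 7) (.e (nat_lit 319530) (nat_lit 16) (.e (nat_lit 286748) (nat_lit 9) .nil))))) .nil)) 
(.lf (nat_lit 180401) (.g (nat_lit 1751) (.e (nat_lit 57829) (nat_lit 250) (.e (nat_lit 1201) (nat_lit 88) (.e (nat_lit 65626) (nat_lit 13) (.e (nat_lit 393274) (nat_lit 23) (.e (nat_lit 433920) (nat_lit 20) .nil))))) .nil)))) (.nd (nat_lit 4) (.nd (nat_lit 5) 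
(.lf (nat_lit 180361) (.g (nat_lit 3549) (.e (nat_lit 57829) (nat_lit 250) (.e (nat_lit 1201) (nat_lit 88) (.e (nat_lit 65569) (nat_lit 3) (.e (nat_lit 98359) (nat_lit 26) (.e (nat_lit 426171) (nat_lit 7) (.e (nat_lit 409612) (nat_lit 10) (.e (nat_lit 604) (nat_lit 45) (.e (nat_lit 532501) (nat_lit 1) .nil)))))))) (.g (nat_lit 6) .nil .nil))) 
(.lf (nat_lit 180393) (.g (nat_lit 1183) (.e (nat_lit 57829) (nat_lit 250) (.e (nat_lit 1201) (nat_lit 88) (.e (nat_lit 65625) (nat_lit 13) (.e (nat_lit 393267) (nat_lit 23) .nil)))) .nil))) (.nd (nat_lit 5) 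
(.lf (nat_lit 180377) (.g (nat_lit 2294) (.e (nat_lit 57829) (nat_lit 250) (.e (nat_lit 1201) (nat_lit 88) (.e (nat_lit 65586) (nat_lit 7) (.e (nat_lit 319531) (nat_lit 16) (.e (nat_lit 286745) (nat_lit 9) .nil))))) .nil)) 
(.lf (nat_lit 180409) (.g (nat_lit 2199) (.e (nat_lit 57829) (nat_lit 250) (.e (nat_lit 1201) (nat_lit 88) (.e (nat_lit 65627) (nat_lit 13) (.e (nat_lit 393293) (nat_lit 26) (.e (nat_lit 475212) (nat_lit 42) (.e (nat_lit 720931) (nat_lit 21) .nil)))))) (.g (nat_lit 0) .nil .nil)))))) (.nd (nat_lit 3) (.nd (nat_lit 4) (.nd (nat_lit 5) 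
(.lf (nat_lit 180357) (.g (nat_lit 2505) (.e (nat_lit 57829) (nat_lit 250) (.e (nat_lit 1183) (nat_lit 87) (.e (nat_lit 57480) (nat_lit 28) (.e (nat_lit 557104) (nat_lit 14) (.e (nat_lit 180252) (nat_lit 10) .nil))))) .nil)) 
(.lf (nat_lit 180389) (.g (nat_lit 1155) (.e (nat_lit 57829) (nat_lit 250) (.e (nat_lit 1201) (nat_lit 88) (.e (nat_lit 65599) (nat_lit 9) (.e (nat_lit 336417) (nat_lit 27) .nil)))) .nil))) (.nd (nat_lit 5) 
(.lf (nat_lit 180373) (.g (nat_lit 3865) (.e (nat_lit 57829) (nat_lit 250) (.e (nat_lit 1201) (nat_lit 88) (.e (nat_lit 65583) (nat_lit 7) (.e (nat_lit 319530) (nat_lit 16) (.e (nat_lit 286756) (nat_lit 10) (.e (nat_lit 344097) (nat_lit 18) (.e (nat_lit 5195) (nat_lit 294) (.e (nat_lit 57365) (nat_lit 1) .nil)))))))) (.g (nat_lit 8) .nil .nil))) 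
(.lf (nat_lit 180405) (.g (nat_lit 1033) (.e (nat_lit 57829) (nat_lit 250) (.e (nat_lit 1201) (nat_lit 88) (.e (nat_lit 65627) (nat_lit 13) (.e (nat_lit 393274) (nat_lit 23) .nil)))) .nil)))) (.nd (nat_lit 4) (.nd (nat_lit 5) 
(.lf (nat_lit 180365) (.g (nat_lit 2674) (.e (nat_lit 57829) (nat_lit 250) (.e (nat_lit 1201) (nat_lit 88) (.e (nat_lit 65571) (nat_lit 3) (.e (nat_lit 98359) (nat_lit 26) (.e (nat_lit 426171) (nat_lit 7) (.e (nat_lit 409616) (nat_lit 10) (.e (nat_lit 604) (nat_lit 45) (.e (nat_lit 532501) (nat_lit 1) .nil)))))))) (.g (nat_lit 4) .nil .nil))) 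
(.lf (nat_lit 180397) (.g (nat_lit 1085) (.e (nat_lit 57829) (nat_lit 250) (.e (nat_lit 1201) (nat_lit 88) (.e (nat_lit 65625) (nat_lit 13) (.e (nat_lit 393293) (nat_lit 26) .nil)))) .nil))) (.nd (nat_lit 5) 
(.lf (nat_lit 180381) (.g (nat_lit 2121) (.e (nat_lit 57829) (nat_lit 250) (.e (nat_lit 1201) (nat_lit 88) (.e (nat_lit 65586) (nat_lit 7) (.e (nat_lit 319531) (nat_lit 16) (.e (nat_lit 286755) (nat_lit 10) .nil))))) .nil)) 
(.lf (nat_lit 180413) (.g (nat_lit 973) (.e (nat_lit 57829) (nat_lit 250) (.e (nat_lit 1214) (nat_lit 89) (.e (nat_lit 73746) (nat_lit 3) (.e (nat_lit 516131) (nat_lit 3) .nil)))) .nil)))))) (.nd (nat_lit 2) (.nd (nat_lit 3) (.nd (nat_lit 4) (.nd (nat_lit 5) 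
(.lf (nat_lit 180355) (.g (nat_lit 3302) (.e (nat_lit 57829) (nat_lit 250) (.e (nat_lit 1183) (nat_lit 87) (.e (nat_lit 57479) (nat_lit 28) (.e (nat_lit 557109) (nat_lit 15) (.e (nat_lit 188461) (nat_lit 26) .nil))))) .nil)) 
(.lf (nat_lit 180387) (.g (nat_lit 656) (.e (nat_lit 57829) (nat_lit 250) (.e (nat_lit 1201) (nat_lit 88) (.e (nat_lit 65591) (nat_lit 9) .nil))) .nil))) (.nd (nat_lit 5) 
(.lf (nat_lit 180371) (.g (nat_lit 2178) (.e (nat_lit 57829) (nat_lit 250) (.e (nat_lit 1201) (nat_lit 88) (.e (nat_lit 65583) (nat_lit 7) (.e (nat_lit 319530) (nat_lit 16) (.e (nat_lit 286750) (nat_lit 9) .nil))))) .nil)) 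
(.lf (nat_lit 180403) (.g (nat_lit 1019) (.e (nat_lit 57829) (nat_lit 250) (.e (nat_lit 1201) (nat_lit 88) (.e (nat_lit 65627) (nat_lit 13) (.e (nat_lit 393267) (nat_lit 23) .nil)))) .nil)))) (.nd (nat_lit 4) (.nd (nat_lit 5) 
(.lf (nat_lit 180363) (.g (nat_lit 2140) (.e (nat_lit 57829) (nat_lit 250) (.e (nat_lit 1201) (nat_lit 88) (.e (nat_lit 65569) (nat_lit 3) (.e (nat_lit 98359) (nat_lit 26) (.e (nat_lit 426173) (nat_lit 7) (.e (nat_lit 409617) (nat_lit 10) (.e (nat_lit 604) (nat_lit 45) (.e (nat_lit 532501) (nat_lit 1) .nil)))))))) (.g (nat_lit 4) .nil .nil))) 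
(.lf (nat_lit 180395) (.g (nat_lit 1437) (.e (nat_lit 57829) (nat_lit 250) (.e (nat_lit 1201) (nat_lit 88) (.e (nat_lit 65625) (nat_lit 13) (.e (nat_lit 393292) (nat_lit 26) (.e (nat_lit 475212) (nat_lit 42) .nil))))) .nil))) (.nd (nat_lit 5) 
(.lf (nat_lit 180379) (.g (nat_lit 1401) (.e (nat_lit 57829) (nat_lit 250) (.e (nat_lit 1201) (nat_lit 88) (.e (nat_lit 65586) (nat_lit 7) (.e (nat_lit 319531) (nat_lit 16) (.e (nat_lit 286748) (nat_lit 9) .nil))))) .nil)) 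
(.lf (nat_lit 180411) (.g (nat_lit 661) (.e (nat_lit 57829) (nat_lit 250) (.e (nat_lit 1201) (nat_lit 88) (.e (nat_lit 65650) (nat_lit 27) .nil))) .nil))))) (.nd (nat_lit 3) (.nd (nat_lit 4) (.nd (nat_lit 5) 
(.lf (nat_lit 180359) (.g (nat_lit 2356) (.e (nat_lit 57829) (nat_lit 250) (.e (nat_lit 1201) (nat_lit 88) (.e (nat_lit 65566) (nat_lit 2) (.e (nat_lit 90170) (nat_lit 13) (.e (nat_lit 172082) (nat_lit 7) .nil))))) .nil)) 
(.lf (nat_lit 180391) (.g (nat_lit 472) (.e (nat_lit 57829) (nat_lit 250) (.e (nat_lit 1201) (nat_lit 88) (.e (nat_lit 65617) (nat_lit 10) .nil))) .nil))) (.nd (nat_lit 5) 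
(.lf (nat_lit 180375) (.g (nat_lit 2025) (.e (nat_lit 57829) (nat_lit 250) (.e (nat_lit 1201) (nat_lit 88) (.e (nat_lit 65586) (nat_lit 7) (.e (nat_lit 319531) (nat_lit 16) (.e (nat_lit 286742) (nat_lit 9) .nil))))) .nil)) 
(.lf (nat_lit 180407) (.g (nat_lit 2284) (.e (nat_lit 57829) (nat_lit 250) (.e (nat_lit 1201) (nat_lit 88) (.e (nat_lit 65627) (nat_lit 13) (.e (nat_lit 393292) (nat_lit 26) (.e (nat_lit 475214) (nat_lit 42) (.e (nat_lit 720930) (nat_lit 21) .nil)))))) (.g (nat_lit 6) .nil .nil))))) (.nd (nat_lit 4) (.nd (nat_lit 5) 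
(.lf (nat_lit 180367) (.g (nat_lit 2412) (.e (nat_lit 57829) (nat_lit 250) (.e (nat_lit 1201) (nat_lit 88) (.e (nat_lit 65583) (nat_lit 7) (.e (nat_lit 319530) (nat_lit 16) (.e (nat_lit 286743) (nat_lit 9) (.e (nat_lit 336337) (nat_lit 20) (.e (nat_lit 229120) (nat_lit 1) .nil))))))) (.g (nat_lit 6) .nil .nil))) 
(.lf (nat_lit 180399) (.g (nat_lit 2356) (.e (nat_lit 57829) (nat_lit 250) (.e (nat_lit 1201) (nat_lit 88) (.e (nat_lit 65625) (nat_lit 13) (.e (nat_lit 393293) (nat_lit 26) (.e (nat_lit 475212) (nat_lit 42) (.e (nat_lit 720931) (nat_lit 21) .nil)))))) (.g (nat_lit 0) .nil .nil)))) (.nd (nat_lit 5) 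
(.lf (nat_lit 180383) (.g (nat_lit 2663) (.e (nat_lit 57829) (nat_lit 250) (.e (nat_lit 1201) (nat_lit 88) (.e (nat_lit 65586) (nat_lit 7) (.e (nat_lit 319534) (nat_lit 16) (.e (nat_lit 286751) (nat_lit 10) .nil))))) .nil)) 
(.lf (nat_lit 180415) (.g (nat_lit 321) (.e (nat_lit 57829) (nat_lit 250) (.e (nat_lit 1224) (nat_lit 90) (.e (nat_lit 81925) (nat_lit 11) .nil))) .nil))))))))

noncomputable def tv2418 : DT := (.nd (nat_lit 0) (.nd (nat_lit 1) (.nd (nat_lit 2) (.nd (nat_lit 3) (.nd (nat_lit 4) (.nd (nat_lit 5) 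
(.lf (nat_lit 180416) (.g (nat_lit 1743) (.e (nat_lit 57830) (nat_lit 250) (.e (nat_lit 999) (nat_lit 81) (.e (nat_lit 1239) (nat_lit 91) (.e (nat_lit 90133) (nat_lit 9) (.e (nat_lit 253) (nat_lit 21) .nil))))) .nil)) 
(.lf (nat_lit 180448) (.g (nat_lit 1793) (.e (nat_lit 57830) (nat_lit 250) (.e (nat_lit 1201) (nat_lit 88) (.e (nat_lit 65571) (nat_lit 3) (.e (nat_lit 98360) (nat_lit 26) (.e (nat_lit 426173) (nat_lit 7) .nil))))) .nil))) (.nd (nat_lit 5) 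
(.lf (nat_lit 180432) (.g (nat_lit 4534) (.e (nat_lit 57830) (nat_lit 250) (.e (nat_lit 1183) (nat_lit 87) (.e (nat_lit 57480) (nat_lit 28) (.e (nat_lit 557109) (nat_lit 15) (.e (nat_lit 188461) (nat_lit 26) (.e (nat_lit 253959) (nat_lit 9) (.e (nat_lit 1182) (nat_lit 87) (.e (nat_lit 57854) (nat_lit 252) (.e (nat_lit 57364) (nat_lit 1) .nil))))))))) (.g (nat_lit 6) .nil .nil))) 
(.lf (nat_lit 180464) (.g (nat_lit 2578) (.e (nat_lit 57830) (nat_lit 250) (.e (nat_lit 1201) (nat_lit 88) (.e (nat_lit 65583) (nat_lit 7) (.e (nat_lit 319530) (nat_lit 16) (.e (nat_lit 286745) (nat_lit 9) (.e (nat_lit 335992) (nat_lit 1) (.e (nat_lit 57847) (nat_lit 252) (.e (nat_lit 57368) (nat_lit 1) .nil)))))))) (.g (nat_lit 4) .nil .nil))))) (.nd (nat_lit 4) (.nd (nat_lit 5) 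
(.lf (nat_lit 180424) (.g (nat_lit 3628) (.e (nat_lit 57830) (nat_lit 250) (.e (nat_lit 1183) (nat_lit 87) (.e (nat_lit 57479) (nat_lit 28) (.e (nat_lit 557109) (nat_lit 15) (.e (nat_lit 188461) (nat_lit 26) .nil))))) .nil)) 
(.lf (nat_lit 180456) (.g (nat_lit 1591) (.e (nat_lit 57830) (nat_lit 250) (.e (nat_lit 1201) (nat_lit 88) (.e (nat_lit 65581) (nat_lit 7) (.e (nat_lit 319534) (nat_lit 16) (.e (nat_lit 286756) (nat_lit 10) .nil))))) .nil))) (.nd (nat_lit 5) 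
(.lf (nat_lit 180440) (.g (nat_lit 2962) (.e (nat_lit 57830) (nat_lit 250) (.e (nat_lit 1201) (nat_lit 88) (.e (nat_lit 65568) (nat_lit 2) (.e (nat_lit 90170) (nat_lit 13) (.e (nat_lit 172082) (nat_lit 7) (.e (nat_lit 409617) (nat_lit 10) (.e (nat_lit 604) (nat_lit 45) (.e (nat_lit 532504) (nat_lit 1) .nil)))))))) (.g (nat_lit 4) .nil .nil))) 
(.lf (nat_lit 180472) (.g (nat_lit 2228) (.e (nat_lit 57830) (nat_lit 250) (.e (nat_lit 1201) (nat_lit 88) (.e (nat_lit 65583) (nat_lit 7) (.e (nat_lit 319530) (nat_lit 16) (.e (nat_lit 286748) (nat_lit 9) (.e (nat_lit 335925) (nat_lit 0) (.e (nat_lit 1042) (nat_lit 81) (.e (nat_lit 5205) (nat_lit 294) (.e (nat_lit 57366) (nat_lit 1) .nil))))))))) (.g (nat_lit 5) .nil .nil)))))) 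
(.nd (nat_lit 3) (.nd (nat_lit 4) (.nd (nat_lit 5) 
(.lf (nat_lit 180420) (.g (nat_lit 2248) (.e (nat_lit 57830) (nat_lit 250) (.e (nat_lit 1183) (nat_lit 87) (.e (nat_lit 57479) (nat_lit 28) (.e (nat_lit 557103) (nat_lit 14) .nil)))) .nil)) 
(.lf (nat_lit 180452) (.g (nat_lit 3138) (.e (nat_lit 57830) (nat_lit 250) (.e (nat_lit 1201) (nat_lit 88) (.e (nat_lit 65571) (nat_lit 3) (.e (nat_lit 98384) (nat_lit 32) (.e (nat_lit 475161) (nat_lit 21) .nil))))) .nil))) (.nd (nat_lit 5) 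
(.lf (nat_lit 180436) (.g (nat_lit 2054) (.e (nat_lit 57830) (nat_lit 250) (.e (nat_lit 1201) (nat_lit 88) (.e (nat_lit 65566) (nat_lit 2) (.e (nat_lit 90170) (nat_lit 13) (.e (nat_lit 172079) (nat_lit 7) (.e (nat_lit 409611) (nat_lit 10) (.e (nat_lit 602) (nat_lit 45) (.e (nat_lit 532504) (nat_lit 1) .nil)))))))) (.g (nat_lit 4) .nil .nil))) 
(.lf (nat_lit 180468) (.g (nat_lit 1284) (.e (nat_lit 57830) (nat_lit 250) (.e (nat_lit 1201) (nat_lit 88) (.e (nat_lit 65583) (nat_lit 7) (.e (nat_lit 319530) (nat_lit 16) (.e (nat_lit 286748) (nat_lit 9) .nil))))) .nil)))) (.nd (nat_lit 4) (.nd (nat_lit 5) 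
(.lf (nat_lit 180428) (.g (nat_lit 1495) (.e (nat_lit 57830) (nat_lit 250) (.e (nat_lit 1183) (nat_lit 87) (.e (nat_lit 57480) (nat_lit 28) (.e (nat_lit 557103) (nat_lit 14) .nil)))) .nil)) 
(.lf (nat_lit 180460) (.g (nat_lit 1238) (.e (nat_lit 57830) (nat_lit 250) (.e (nat_lit 1201) (nat_lit 88) (.e (nat_lit 65583) (nat_lit 7) (.e (nat_lit 319530) (nat_lit 16) (.e (nat_lit 286742) (nat_lit 9) .nil))))) .nil))) (.nd (nat_lit 5) 
(.lf (nat_lit 180444) (.g (nat_lit 2454) (.e (nat_lit 57830) (nat_lit 250) (.e (nat_lit 1201) (nat_lit 88) (.e (nat_lit 65569) (nat_lit 3) (.e (nat_lit 98359) (nat_lit 26) (.e (nat_lit 426173) (nat_lit 7) (.e (nat_lit 409617) (nat_lit 10) (.e (nat_lit 604) (nat_lit 45) (.e (nat_lit 532504) (nat_lit 1) .nil)))))))) (.g (nat_lit 4) .nil .nil))) 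
(.lf (nat_lit 180476) (.g (nat_lit 3368) (.e (nat_lit 57830) (nat_lit 250) (.e (nat_lit 1201) (nat_lit 88) (.e (nat_lit 65583) (nat_lit 7) (.e (nat_lit 319530) (nat_lit 16) (.e (nat_lit 286748) (nat_lit 9) (.e (nat_lit 335985) (nat_lit 1) (.e (nat_lit 57854) (nat_lit 252) (.e (nat_lit 57364) (nat_lit 1) .nil)))))))) (.g (nat_lit 8) .nil .nil))))))) 
(.nd (nat_lit 2) (.nd (nat_lit 3) (.nd (nat_lit 4) (.nd (nat_lit 5) 
(.lf (nat_lit 180418) (.g (nat_lit 408) (.e (nat_lit 57830) (nat_lit 250) (.e (nat_lit 1183) (nat_lit 87) (.e (nat_lit 57466) (nat_lit 23) .nil))) .nil)) 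
(.lf (nat_lit 180450) (.g (nat_lit 1175) (.e (nat_lit 57830) (nat_lit 250) (.e (nat_lit 1201) (nat_lit 88) (.e (nat_lit 65571) (nat_lit 3) (.e (nat_lit 98370) (nat_lit 28) .nil)))) .nil))) (.nd (nat_lit 5) 
(.lf (nat_lit 180434) (.g (nat_lit 837) (.e (nat_lit 57830) (nat_lit 250) (.e (nat_lit 1201) (nat_lit 88) (.e (nat_lit 65539) (nat_lit 0) (.e (nat_lit 2359) (nat_lit 152) .nil)))) .nil)) 
(.lf (nat_lit 180466) (.g (nat_lit 1961) (.e (nat_lit 57830) (nat_lit 250) (.e (nat_lit 1201) (nat_lit 88) (.e (nat_lit 65583) (nat_lit 7) (.e (nat_lit 319530) (nat_lit 16) (.e (nat_lit 286747) (nat_lit 9) (.e (nat_lit 335989) (nat_lit 1) (.e (nat_lit 57854) (nat_lit 252) (.e (nat_lit 57364) (nat_lit 1) .nil)))))))) (.g (nat_lit 4) .nil .nil))))) (.nd (nat_lit 4) (.nd (nat_lit 5) 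
(.lf (nat_lit 180426) (.g (nat_lit 3977) (.e (nat_lit 57830) (nat_lit 250) (.e (nat_lit 1183) (nat_lit 87) (.e (nat_lit 57479) (nat_lit 28) (.e (nat_lit 557109) (nat_lit 15) (.e (nat_lit 188461) (nat_lit 26) (.e (nat_lit 253959) (nat_lit 9) (.e (nat_lit 1181) (nat_lit 87) (.e (nat_lit 57848) (nat_lit 252) (.e (nat_lit 57368) (nat_lit 1) .nil))))))))) (.g (nat_lit 4) .nil .nil))) 
(.lf (nat_lit 180458) (.g (nat_lit 3100) (.e (nat_lit 57830) (nat_lit 250) (.e (nat_lit 1201) (nat_lit 88) (.e (nat_lit 65581) (nat_lit 7) (.e (nat_lit 319534) (nat_lit 16) (.e (nat_lit 286756) (nat_lit 10) (.e (nat_lit 344097) (nat_lit 18) (.e (nat_lit 5195) (nat_lit 294) (.e (nat_lit 57363) (nat_lit 1) .nil)))))))) (.g (nat_lit 5) .nil .nil)))) (.nd (nat_lit 5) 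
(.lf (nat_lit 180442) (.g (nat_lit 1116) (.e (nat_lit 57830) (nat_lit 250) (.e (nat_lit 1201) (nat_lit 88) (.e (nat_lit 65569) (nat_lit 3) (.e (nat_lit 98359) (nat_lit 26) .nil)))) .nil)) 
(.lf (nat_lit 180474) (.g (nat_lit 2159) (.e (nat_lit 57830) (nat_lit 250) (.e (nat_lit 1201) (nat_lit 88) (.e (nat_lit 65583) (nat_lit 7) (.e (nat_lit 319530) (nat_lit 16) (.e (nat_lit 286748) (nat_lit 9) (.e (nat_lit 335938) (nat_lit 0) (.e (nat_lit 1023) (nat_lit 81) (.e (nat_lit 5195) (nat_lit 294) (.e (nat_lit 57365) (nat_lit 1) .nil))))))))) (.g (nat_lit 5) .nil .nil)))))) 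
(.nd (nat_lit 3) (.nd (nat_lit 4) (.nd (nat_lit 5) 
(.lf (nat_lit 180422) (.g (nat_lit 3674) (.e (nat_lit 57830) (nat_lit 250) (.e (nat_lit 1183) (nat_lit 87) (.e (nat_lit 57479) (nat_lit 28) (.e (nat_lit 557103) (nat_lit 14) (.e (nat_lit 180250) (nat_lit 10) (.e (nat_lit 573481) (nat_lit 13) (.e (nat_lit 65637) (nat_lit 15) (.e (nat_lit 3253) (nat_lit 197) (.e (nat_lit 532501) (nat_lit 1) .nil))))))))) (.g (nat_lit 4) .nil .nil))) 
(.lf (nat_lit 180454) (.g (nat_lit 2180) (.e (nat_lit 57830) (nat_lit 250) (.e (nat_lit 1201) (nat_lit 88) (.e (nat_lit 65581) (nat_lit 7) (.e (nat_lit 319533) (nat_lit 16) (.e (nat_lit 286753) (nat_lit 10) (.e (nat_lit 344097) (nat_lit 18) (.e (nat_lit 5195) (nat_lit 294) (.e (nat_lit 57363) (nat_lit 1) .nil)))))))) (.g (nat_lit 5) .nil .nil)))) (.nd (nat_lit 5) 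
(.lf (nat_lit 180438) (.g (nat_lit 2225) (.e (nat_lit 57830) (nat_lit 250) (.e (nat_lit 1201) (nat_lit 88) (.e (nat_lit 65568) (nat_lit 2) (.e (nat_lit 90170) (nat_lit 13) (.e (nat_lit 172079) (nat_lit 7) (.e (nat_lit 409611) (nat_lit 10) (.e (nat_lit 599) (nat_lit 45) (.e (nat_lit 532501) (nat_lit 1) .nil)))))))) (.g (nat_lit 4) .nil .nil))) 
(.lf (nat_lit 180470) (.g (nat_lit 2154) (.e (nat_lit 57830) (nat_lit 250) (.e (nat_lit 1201) (nat_lit 88) (.e (nat_lit 65583) (nat_lit 7) (.e (nat_lit 319530) (nat_lit 16) (.e (nat_lit 286748) (nat_lit 9) (.e (nat_lit 335925) (nat_lit 0) (.e (nat_lit 1033) (nat_lit 81) (.e (nat_lit 5205) (nat_lit 294) (.e (nat_lit 57366) (nat_lit 1) .nil))))))))) (.g (nat_lit 5) .nil .nil))))) 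
(.nd (nat_lit 4) (.nd (nat_lit 5) 
(.lf (nat_lit 180430) (.g (nat_lit 2367) (.e (nat_lit 57830) (nat_lit 250) (.e (nat_lit 1183) (nat_lit 87) (.e (nat_lit 57480) (nat_lit 28) (.e (nat_lit 557104) (nat_lit 14) (.e (nat_lit 180252) (nat_lit 10) .nil))))) .nil)) 
(.lf (nat_lit 180462) (.g (nat_lit 1983) (.e (nat_lit 57830) (nat_lit 250) (.e (nat_lit 1201) (nat_lit 88) (.e (nat_lit 65583) (nat_lit 7) (.e (nat_lit 319530) (nat_lit 16) (.e (nat_lit 286745) (nat_lit 9) .nil))))) .nil))) (.nd (nat_lit 5) 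
(.lf (nat_lit 180446) (.g (nat_lit 1370) (.e (nat_lit 57830) (nat_lit 250) (.e (nat_lit 1201) (nat_lit 88) (.e (nat_lit 65571) (nat_lit 3) (.e (nat_lit 98359) (nat_lit 26) .nil)))) .nil)) 
(.lf (nat_lit 180478) (.g (nat_lit 3726) (.e (nat_lit 57830) (nat_lit 250) (.e (nat_lit 1201) (nat_lit 88) (.e (nat_lit 65583) (nat_lit 7) (.e (nat_lit 319530) (nat_lit 16) (.e (nat_lit 286748) (nat_lit 9) (.e (nat_lit 335989) (nat_lit 1) (.e (nat_lit 57847) (nat_lit 252) (.e (nat_lit 57365) (nat_lit 1) .nil)))))))) (.g (nat_lit 8) .nil .nil)))))))) 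
(.nd (nat_lit 1) (.nd (nat_lit 2) (.nd (nat_lit 3) (.nd (nat_lit 4) (.nd (nat_lit 5) 
(.lf (nat_lit 180417) (.g (nat_lit 1747) (.e (nat_lit 57830) (nat_lit 250) (.e (nat_lit 999) (nat_lit 81) (.e (nat_lit 1239) (nat_lit 91) (.e (nat_lit 90157) (nat_lit 11) (.e (nat_lit 24627) (nat_lit 9) .nil))))) .nil)) 
(.lf (nat_lit 180449) (.g (nat_lit 1657) (.e (nat_lit 57830) (nat_lit 250) (.e (nat_lit 1201) (nat_lit 88) (.e (nat_lit 65571) (nat_lit 3) (.e (nat_lit 98362) (nat_lit 26) .nil)))) .nil))) (.nd (nat_lit 5) 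
(.lf (nat_lit 180433) (.g (nat_lit 4269) (.e (nat_lit 57830) (nat_lit 250) (.e (nat_lit 1183) (nat_lit 87) (.e (nat_lit 57480) (nat_lit 28) (.e (nat_lit 557109) (nat_lit 15) (.e (nat_lit 188461) (nat_lit 26) (.e (nat_lit 253959) (nat_lit 9) (.e (nat_lit 1182) (nat_lit 87) (.e (nat_lit 57854) (nat_lit 252) (.e (nat_lit 57366) (nat_lit 1) .nil))))))))) (.g (nat_lit 5) .nil .nil))) 
(.lf (nat_lit 180465) (.g (nat_lit 1661) (.e (nat_lit 57830) (nat_lit 250) (.e (nat_lit 1201) (nat_lit 88) (.e (nat_lit 65583) (nat_lit 7) (.e (nat_lit 319530) (nat_lit 16) (.e (nat_lit 286747) (nat_lit 9) .nil))))) .nil)))) (.nd (nat_lit 4) (.nd (nat_lit 5) 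
(.lf (nat_lit 180425) (.g (nat_lit 3750) (.e (nat_lit 57830) (nat_lit 250) (.e (nat_lit 1183) (nat_lit 87) (.e (nat_lit 57479) (nat_lit 28) (.e (nat_lit 557109) (nat_lit 15) (.e (nat_lit 188461) (nat_lit 26) (.e (nat_lit 253959) (nat_lit 9) (.e (nat_lit 1181) (nat_lit 87) (.e (nat_lit 57848) (nat_lit 252) (.e (nat_lit 57365) (nat_lit 1) .nil))))))))) (.g (nat_lit 4) .nil .nil))) 
(.lf (nat_lit 180457) (.g (nat_lit 2926) (.e (nat_lit 57830) (nat_lit 250) (.e (nat_lit 1201) (nat_lit 88) (.e (nat_lit 65581) (nat_lit 7) (.e (nat_lit 319534) (nat_lit 16) (.e (nat_lit 286756) (nat_lit 10) (.e (nat_lit 344097) (nat_lit 18) (.e (nat_lit 5194) (nat_lit 294) (.e (nat_lit 57364) (nat_lit 1) .nil)))))))) (.g (nat_lit 5) .nil .nil)))) (.nd (nat_lit 5) 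
(.lf (nat_lit 180441) (.g (nat_lit 2234) (.e (nat_lit 57830) (nat_lit 250) (.e (nat_lit 1201) (nat_lit 88) (.e (nat_lit 65569) (nat_lit 3) (.e (nat_lit 98356) (nat_lit 26) (.e (nat_lit 426422) (nat_lit 16) .nil))))) .nil)) 
(.lf (nat_lit 180473) (.g (nat_lit 2269) (.e (nat_lit 57830) (nat_lit 250) (.e (nat_lit 1201) (nat_lit 88) (.e (nat_lit 65583) (nat_lit 7) (.e (nat_lit 319530) (nat_lit 16) (.e (nat_lit 286748) (nat_lit 9) (.e (nat_lit 335925) (nat_lit 0) (.e (nat_lit 1043) (nat_lit 81) (.e (nat_lit 5205) (nat_lit 294) (.e (nat_lit 57366) (nat_lit 1) .nil))))))))) (.g (nat_lit 5) .nil .nil)))))) 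
(.nd (nat_lit 3) (.nd (nat_lit 4) (.nd (nat_lit 5) 
(.lf (nat_lit 180421) (.g (nat_lit 3083) (.e (nat_lit 57830) (nat_lit 250) (.e (nat_lit 1183) (nat_lit 87) (.e (nat_lit 57479) (nat_lit 28) (.e (nat_lit 557103) (nat_lit 14) (.e (nat_lit 180250) (nat_lit 10) .nil))))) .nil)) 
(.lf (nat_lit 180453) (.g (nat_lit 1669) (.e (nat_lit 57830) (nat_lit 250) (.e (nat_lit 1201) (nat_lit 88) (.e (nat_lit 65581) (nat_lit 7) (.e (nat_lit 319533) (nat_lit 16) (.e (nat_lit 286753) (nat_lit 10) (.e (nat_lit 344097) (nat_lit 18) (.e (nat_lit 5194) (nat_lit 294) (.e (nat_lit 57366) (nat_lit 1) .nil)))))))) (.g (nat_lit 4) .nil .nil)))) (.nd (nat_lit 5) 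
(.lf (nat_lit 180437) (.g (nat_lit 2707) (.e (nat_lit 57830) (nat_lit 250) (.e (nat_lit 1201) (nat_lit 88) (.e (nat_lit 65566) (nat_lit 2) (.e (nat_lit 90170) (nat_lit 13) (.e (nat_lit 172082) (nat_lit 7) (.e (nat_lit 409617) (nat_lit 10) (.e (nat_lit 604) (nat_lit 45) (.e (nat_lit 532504) (nat_lit 1) .nil)))))))) (.g (nat_lit 4) .nil .nil))) 
(.lf (nat_lit 180469) (.g (nat_lit 2301) (.e (nat_lit 57830) (nat_lit 250) (.e (nat_lit 1201) (nat_lit 88) (.e (nat_lit 65583) (nat_lit 7) (.e (nat_lit 319530) (nat_lit 16) (.e (nat_lit 286748) (nat_lit 9) (.e (nat_lit 335925) (nat_lit 0) (.e (nat_lit 1023) (nat_lit 81) (.e (nat_lit 5195) (nat_lit 294) (.e (nat_lit 57368) (nat_lit 1) .nil))))))))) (.g (nat_lit 5) .nil .nil))))) 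
(.nd (nat_lit 4) (.nd (nat_lit 5) 
(.lf (nat_lit 180429) (.g (nat_lit 1593) (.e (nat_lit 57830) (nat_lit 250) (.e (nat_lit 1183) (nat_lit 87) (.e (nat_lit 57480) (nat_lit 28) (.e (nat_lit 557104) (nat_lit 14) .nil)))) .nil)) 
(.lf (nat_lit 180461) (.g (nat_lit 3051) (.e (nat_lit 57830) (nat_lit 250) (.e (nat_lit 1201) (nat_lit 88) (.e (nat_lit 65583) (nat_lit 7) (.e (nat_lit 319530) (nat_lit 16) (.e (nat_lit 286743) (nat_lit 9) (.e (nat_lit 336337) (nat_lit 20) (.e (nat_lit 229120) (nat_lit 1) .nil))))))) (.g (nat_lit 6) .nil .nil)))) (.nd (nat_lit 5) 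
(.lf (nat_lit 180445) (.g (nat_lit 2705) (.e (nat_lit 57830) (nat_lit 250) (.e (nat_lit 1201) (nat_lit 88) (.e (nat_lit 65571) (nat_lit 3) (.e (nat_lit 98356) (nat_lit 26) (.e (nat_lit 426422) (nat_lit 16) .nil))))) .nil)) 
(.lf (nat_lit 180477) (.g (nat_lit 3357) (.e (nat_lit 57830) (nat_lit 250) (.e (nat_lit 1201) (nat_lit 88) (.e (nat_lit 65583) (nat_lit 7) (.e (nat_lit 319530) (nat_lit 16) (.e (nat_lit 286748) (nat_lit 9) (.e (nat_lit 335985) (nat_lit 1) (.e (nat_lit 57854) (nat_lit 252) (.e (nat_lit 57366) (nat_lit 1) .nil)))))))) (.g (nat_lit 8) .nil .nil))))))) 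
(.nd (nat_lit 2) (.nd (nat_lit 3) (.nd (nat_lit 4) (.nd (nat_lit 5) 
(.lf (nat_lit 180419) (.g (nat_lit 2574) (.e (nat_lit 57830) (nat_lit 250) (.e (nat_lit 1183) (nat_lit 87) (.e (nat_lit 57466) (nat_lit 23) (.e (nat_lit 516129) (nat_lit 3) (.e (nat_lit 221210) (nat_lit 22) (.e (nat_lit 196664) (nat_lit 13) (.e (nat_lit 73472) (nat_lit 18) (.e (nat_lit 204830) (nat_lit 18) .nil)))))))) (.g (nat_lit 5) .nil .nil))) 
(.lf (nat_lit 180451) (.g (nat_lit 1657) (.e (nat_lit 57830) (nat_lit 250) (.e (nat_lit 1201) (nat_lit 88) (.e (nat_lit 65571) (nat_lit 3) (.e (nat_lit 98384) (nat_lit 32) .nil)))) .nil))) (.nd (nat_lit 5) 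
(.lf (nat_lit 180435) (.g (nat_lit 1895) (.e (nat_lit 57830) (nat_lit 250) (.e (nat_lit 1201) (nat_lit 88) (.e (nat_lit 65566) (nat_lit 2) (.e (nat_lit 90170) (nat_lit 13) (.e (nat_lit 172079) (nat_lit 7) (.e (nat_lit 409611) (nat_lit 10) (.e (nat_lit 599) (nat_lit 45) (.e (nat_lit 532501) (nat_lit 1) .nil)))))))) (.g (nat_lit 4) .nil .nil))) 
(.lf (nat_lit 180467) (.g (nat_lit 2022) (.e (nat_lit 57830) (nat_lit 250) (.e (nat_lit 1201) (nat_lit 88) (.e (nat_lit 65583) (nat_lit 7) (.e (nat_lit 319530) (nat_lit 16) (.e (nat_lit 286747) (nat_lit 9) (.e (nat_lit 335989) (nat_lit 1) (.e (nat_lit 57854) (nat_lit 252) (.e (nat_lit 57366) (nat_lit 1) .nil)))))))) (.g (nat_lit 4) .nil .nil))))) (.nd (nat_lit 4) (.nd (nat_lit 5) 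
(.lf (nat_lit 180427) (.g (nat_lit 4827) (.e (nat_lit 57830) (nat_lit 250) (.e (nat_lit 1183) (nat_lit 87) (.e (nat_lit 57479) (nat_lit 28) (.e (nat_lit 557109) (nat_lit 15) (.e (nat_lit 188461) (nat_lit 26) (.e (nat_lit 253959) (nat_lit 9) (.e (nat_lit 1182) (nat_lit 87) (.e (nat_lit 57854) (nat_lit 252) (.e (nat_lit 57364) (nat_lit 1) .nil))))))))) (.g (nat_lit 5) .nil .nil))) 
(.lf (nat_lit 180459) (.g (nat_lit 2106) (.e (nat_lit 57830) (nat_lit 250) (.e (nat_lit 1201) (nat_lit 88) (.e (nat_lit 65582) (nat_lit 7) (.e (nat_lit 319534) (nat_lit 16) (.e (nat_lit 286749) (nat_lit 9) .nil))))) .nil))) (.nd (nat_lit 5) 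
(.lf (nat_lit 180443) (.g (nat_lit 2054) (.e (nat_lit 57830) (nat_lit 250) (.e (nat_lit 1201) (nat_lit 88) (.e (nat_lit 65569) (nat_lit 3) (.e (nat_lit 98359) (nat_lit 26) (.e (nat_lit 426171) (nat_lit 7) .nil))))) .nil)) 
(.lf (nat_lit 180475) (.g (nat_lit 3795) (.e (nat_lit 57830) (nat_lit 250) (.e (nat_lit 1201) (nat_lit 88) (.e (nat_lit 65583) (nat_lit 7) (.e (nat_lit 319530) (nat_lit 16) (.e (nat_lit 286748) (nat_lit 9) (.e (nat_lit 335985) (nat_lit 1) (.e (nat_lit 57847) (nat_lit 252) (.e (nat_lit 57365) (nat_lit 1) .nil)))))))) (.g (nat_lit 8) .nil .nil)))))) 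
(.nd (nat_lit 3) (.nd (nat_lit 4) (.nd (nat_lit 5) 
(.lf (nat_lit 180423) (.g (nat_lit 2471) (.e (nat_lit 57830) (nat_lit 250) (.e (nat_lit 1183) (nat_lit 87) (.e (nat_lit 57479) (nat_lit 28) (.e (nat_lit 557105) (nat_lit 14) (.e (nat_lit 180252) (nat_lit 10) .nil))))) .nil)) 
(.lf (nat_lit 180455) (.g (nat_lit 2257) (.e (nat_lit 57830) (nat_lit 250) (.e (nat_lit 1201) (nat_lit 88) (.e (nat_lit 65581) (nat_lit 7) (.e (nat_lit 319533) (nat_lit 16) (.e (nat_lit 286753) (nat_lit 10) (.e (nat_lit 344097) (nat_lit 18) (.e (nat_lit 5195) (nat_lit 294) (.e (nat_lit 57366) (nat_lit 1) .nil)))))))) (.g (nat_lit 5) .nil .nil)))) (.nd (nat_lit 5) 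
(.lf (nat_lit 180439) (.g (nat_lit 4350) (.e (nat_lit 57830) (nat_lit 250) (.e (nat_lit 1201) (nat_lit 88) (.e (nat_lit 65568) (nat_lit 2) (.e (nat_lit 90170) (nat_lit 13) (.e (nat_lit 172079) (nat_lit 7) (.e (nat_lit 409611) (nat_lit 10) (.e (nat_lit 604) (nat_lit 45) (.e (nat_lit 532501) (nat_lit 1) .nil)))))))) (.g (nat_lit 0) .nil .nil))) 
(.lf (nat_lit 180471) (.g (nat_lit 2259) (.e (nat_lit 57830) (nat_lit 250) (.e (nat_lit 1201) (nat_lit 88) (.e (nat_lit 65583) (nat_lit 7) (.e (nat_lit 319530) (nat_lit 16) (.e (nat_lit 286748) (nat_lit 9) (.e (nat_lit 335925) (nat_lit 0) (.e (nat_lit 1039) (nat_lit 81) (.e (nat_lit 5205) (nat_lit 294) (.e (nat_lit 57366) (nat_lit 1) .nil))))))))) (.g (nat_lit 5) .nil .nil))))) 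
(.nd (nat_lit 4) (.nd (nat_lit 5) 
(.lf (nat_lit 180431) (.g (nat_lit 4184) (.e (nat_lit 57830) (nat_lit 250) (.e (nat_lit 1183) (nat_lit 87) (.e (nat_lit 57480) (nat_lit 28) (.e (nat_lit 557105) (nat_lit 14) (.e (nat_lit 180252) (nat_lit 10) (.e (nat_lit 573480) (nat_lit 13) (.e (nat_lit 73472) (nat_lit 18) (.e (nat_lit 204830) (nat_lit 18) .nil)))))))) (.g (nat_lit 5) .nil .nil))) 
(.lf (nat_lit 180463) (.g (nat_lit 2393) (.e (nat_lit 57830) (nat_lit 250) (.e (nat_lit 1201) (nat_lit 88) (.e (nat_lit 65583) (nat_lit 7) (.e (nat_lit 319530) (nat_lit 16) (.e (nat_lit 286745) (nat_lit 9) (.e (nat_lit 335985) (nat_lit 1) (.e (nat_lit 57847) (nat_lit 252) (.e (nat_lit 57368) (nat_lit 1) .nil)))))))) (.g (nat_lit 4) .nil .nil)))) (.nd (nat_lit 5) 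
(.lf (nat_lit 180447) (.g (nat_lit 2430) (.e (nat_lit 57830) (nat_lit 250) (.e (nat_lit 1201) (nat_lit 88) (.e (nat_lit 65571) (nat_lit 3) (.e (nat_lit 98359) (nat_lit 26) (.e (nat_lit 426171) (nat_lit 7) .nil))))) .nil)) 
(.lf (nat_lit 180479) (.g (nat_lit 3344) (.e (nat_lit 57830) (nat_lit 250) (.e (nat_lit 1201) (nat_lit 88) (.e (nat_lit 65583) (nat_lit 7) (.e (nat_lit 319530) (nat_lit 16) (.e (nat_lit 286748) (nat_lit 9) (.e (nat_lit 335989) (nat_lit 1) (.e (nat_lit 57854) (nat_lit 252) (.e (nat_lit 57364) (nat_lit 1) .nil)))))))) (.g (nat_lit 8) .nil .nil)))))))))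

noncomputable def tv2419 : DT := (.nd (nat_lit 0) (.nd (nat_lit 1) (.nd (nat_lit 2) (.nd (nat_lit 3) (.nd (nat_lit 4) (.nd (nat_lit 5) 
(.lf (nat_lit 180480) (.g (nat_lit 3306) (.e (nat_lit 57830) (nat_lit 250) (.e (nat_lit 1201) (nat_lit 88) (.e (nat_lit 65583) (nat_lit 7) (.e (nat_lit 319530) (nat_lit 16) (.e (nat_lit 286748) (nat_lit 9) (.e (nat_lit 335990) (nat_lit 1) (.e (nat_lit 57854) (nat_lit 252) (.e (nat_lit 57364) (nat_lit 1) .nil)))))))) (.g (nat_lit 8) .nil .nil))) 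
(.lf (nat_lit 180512) (.g (nat_lit 3054) (.e (nat_lit 57830) (nat_lit 250) (.e (nat_lit 1201) (nat_lit 88) (.e (nat_lit 65586) (nat_lit 7) (.e (nat_lit 319531) (nat_lit 16) (.e (nat_lit 286745) (nat_lit 9) (.e (nat_lit 335992) (nat_lit 1) (.e (nat_lit 57847) (nat_lit 252) (.e (nat_lit 57368) (nat_lit 1) .nil)))))))) (.g (nat_lit 4) .nil .nil)))) (.nd (nat_lit 5) 
(.lf (nat_lit 180496) (.g (nat_lit 3743) (.e (nat_lit 57830) (nat_lit 250) (.e (nat_lit 1201) (nat_lit 88) (.e (nat_lit 65583) (nat_lit 7) (.e (nat_lit 319530) (nat_lit 16) (.e (nat_lit 286759) (nat_lit 12) (.e (nat_lit 385107) (nat_lit 51) (.e (nat_lit 802560) (nat_lit 1) .nil))))))) (.g (nat_lit 6) .nil .nil))) 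
(.lf (nat_lit 180528) (.g (nat_lit 2553) (.e (nat_lit 57830) (nat_lit 250) (.e (nat_lit 1201) (nat_lit 88) (.e (nat_lit 65586) (nat_lit 7) (.e (nat_lit 319531) (nat_lit 16) (.e (nat_lit 286748) (nat_lit 9) (.e (nat_lit 336295) (nat_lit 15) (.e (nat_lit 3757) (nat_lit 229) (.e (nat_lit 802560) (nat_lit 1) .nil)))))))) (.g (nat_lit 6) .nil .nil))))) (.nd (nat_lit 4) (.nd (nat_lit 5) 
(.lf (nat_lit 180488) (.g (nat_lit 3731) (.e (nat_lit 57830) (nat_lit 250) (.e (nat_lit 1201) (nat_lit 88) (.e (nat_lit 65583) (nat_lit 7) (.e (nat_lit 319530) (nat_lit 16) (.e (nat_lit 286750) (nat_lit 9) (.e (nat_lit 335987) (nat_lit 1) (.e (nat_lit 57854) (nat_lit 252) (.e (nat_lit 57364) (nat_lit 1) .nil)))))))) (.g (nat_lit 8) .nil .nil))) 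
(.lf (nat_lit 180520) (.g (nat_lit 2785) (.e (nat_lit 57830) (nat_lit 250) (.e (nat_lit 1201) (nat_lit 88) (.e (nat_lit 65586) (nat_lit 7) (.e (nat_lit 319531) (nat_lit 16) (.e (nat_lit 286748) (nat_lit 9) (.e (nat_lit 335938) (nat_lit 0) (.e (nat_lit 1023) (nat_lit 81) (.e (nat_lit 5195) (nat_lit 294) (.e (nat_lit 57368) (nat_lit 1) .nil))))))))) (.g (nat_lit 5) .nil .nil)))) (.nd (nat_lit 5) 
(.lf (nat_lit 180504) (.g (nat_lit 3676) (.e (nat_lit 57830) (nat_lit 250) (.e (nat_lit 1201) (nat_lit 88) (.e (nat_lit 65586) (nat_lit 7) (.e (nat_lit 319531) (nat_lit 16) (.e (nat_lit 286743) (nat_lit 9) (.e (nat_lit 336337) (nat_lit 20) (.e (nat_lit 229120) (nat_lit 1) .nil))))))) (.g (nat_lit 6) .nil .nil))) 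
(.lf (nat_lit 180536) (.g (nat_lit 2075) (.e (nat_lit 57830) (nat_lit 250) (.e (nat_lit 1201) (nat_lit 88) (.e (nat_lit 65586) (nat_lit 7) (.e (nat_lit 319531) (nat_lit 16) (.e (nat_lit 286751) (nat_lit 10) .nil))))) .nil))))) (.nd (nat_lit 3) (.nd (nat_lit 4) (.nd (nat_lit 5) 
(.lf (nat_lit 180484) (.g (nat_lit 3664) (.e (nat_lit 57830) (nat_lit 250) (.e (nat_lit 1201) (nat_lit 88) (.e (nat_lit 65583) (nat_lit 7) (.e (nat_lit 319530) (nat_lit 16) (.e (nat_lit 286748) (nat_lit 9) (.e (nat_lit 335997) (nat_lit 1) (.e (nat_lit 57854) (nat_lit 252) (.e (nat_lit 57364) (nat_lit 1) .nil)))))))) (.g (nat_lit 8) .nil .nil))) 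
(.lf (nat_lit 180516) (.g (nat_lit 2453) (.e (nat_lit 57830) (nat_lit 250) (.e (nat_lit 1201) (nat_lit 88) (.e (nat_lit 65586) (nat_lit 7) (.e (nat_lit 319531) (nat_lit 16) (.e (nat_lit 286748) (nat_lit 9) (.e (nat_lit 335915) (nat_lit 0) (.e (nat_lit 1047) (nat_lit 81) (.e (nat_lit 5205) (nat_lit 294) (.e (nat_lit 57366) (nat_lit 1) .nil))))))))) (.g (nat_lit 5) .nil .nil)))) (.nd (nat_lit 5) 
(.lf (nat_lit 180500) (.g (nat_lit 2632) (.e (nat_lit 57830) (nat_lit 250) (.e (nat_lit 1201) (nat_lit 88) (.e (nat_lit 65586) (nat_lit 7) (.e (nat_lit 319531) (nat_lit 16) (.e (nat_lit 286742) (nat_lit 9) (.e (nat_lit 335985) (nat_lit 1) (.e (nat_lit 57847) (nat_lit 252) (.e (nat_lit 57368) (nat_lit 1) .nil)))))))) (.g (nat_lit 4) .nil .nil))) 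
(.lf (nat_lit 180532) (.g (nat_lit 2880) (.e (nat_lit 57830) (nat_lit 250) (.e (nat_lit 1201) (nat_lit 88) (.e (nat_lit 65586) (nat_lit 7) (.e (nat_lit 319531) (nat_lit 16) (.e (nat_lit 286750) (nat_lit 9) (.e (nat_lit 335993) (nat_lit 1) (.e (nat_lit 57847) (nat_lit 252) (.e (nat_lit 57368) (nat_lit 1) .nil)))))))) (.g (nat_lit 4) .nil .nil))))) (.nd (nat_lit 4) (.nd (nat_lit 5) 
(.lf (nat_lit 180492) (.g (nat_lit 1172) (.e (nat_lit 57830) (nat_lit 250) (.e (nat_lit 1201) (nat_lit 88) (.e (nat_lit 65583) (nat_lit 7) (.e (nat_lit 319530) (nat_lit 16) (.e (nat_lit 286751) (nat_lit 10) .nil))))) .nil)) 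
(.lf (nat_lit 180524) (.g (nat_lit 3592) (.e (nat_lit 57830) (nat_lit 250) (.e (nat_lit 1201) (nat_lit 88) (.e (nat_lit 65586) (nat_lit 7) (.e (nat_lit 319531) (nat_lit 16) (.e (nat_lit 286748) (nat_lit 9) (.e (nat_lit 335992) (nat_lit 1) (.e (nat_lit 57846) (nat_lit 252) (.e (nat_lit 57365) (nat_lit 1) .nil)))))))) (.g (nat_lit 7) .nil .nil)))) (.nd (nat_lit 5) 
(.lf (nat_lit 180508) (.g (nat_lit 2772) (.e (nat_lit 57830) (nat_lit 250) (.e (nat_lit 1201) (nat_lit 88) (.e (nat_lit 65586) (nat_lit 7) (.e (nat_lit 319531) (nat_lit 16) (.e (nat_lit 286744) (nat_lit 9) (.e (nat_lit 335992) (nat_lit 1) (.e (nat_lit 57854) (nat_lit 252) (.e (nat_lit 57364) (nat_lit 1) .nil)))))))) (.g (nat_lit 4) .nil .nil))) 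
(.lf (nat_lit 180540) (.g (nat_lit 3725) (.e (nat_lit 57830) (nat_lit 250) (.e (nat_lit 1201) (nat_lit 88) (.e (nat_lit 65586) (nat_lit 7) (.e (nat_lit 319531) (nat_lit 16) (.e (nat_lit 286755) (nat_lit 10) (.e (nat_lit 344097) (nat_lit 18) (.e (nat_lit 5195) (nat_lit 294) (.e (nat_lit 57368) (nat_lit 1) .nil)))))))) (.g (nat_lit 6) .nil .nil))))))) 
(.nd (nat_lit 2) (.nd (nat_lit 3) (.nd (nat_lit 4) (.nd (nat_lit 5) 
(.lf (nat_lit 180482) (.g (nat_lit 3334) (.e (nat_lit 57830) (nat_lit 250) (.e (nat_lit 1201) (nat_lit 88) (.e (nat_lit 65583) (nat_lit 7) (.e (nat_lit 319530) (nat_lit 16) (.e (nat_lit 286748) (nat_lit 9) (.e (nat_lit 335992) (nat_lit 1) (.e (nat_lit 57854) (nat_lit 252) (.e (nat_lit 57364) (nat_lit 1) .nil)))))))) (.g (nat_lit 8) .nil .nil))) 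
(.lf (nat_lit 180514) (.g (nat_lit 1963) (.e (nat_lit 57830) (nat_lit 250) (.e (nat_lit 1201) (nat_lit 88) (.e (nat_lit 65586) (nat_lit 7) (.e (nat_lit 319531) (nat_lit 16) (.e (nat_lit 286747) (nat_lit 9) .nil))))) .nil))) (.nd (nat_lit 5) 
(.lf (nat_lit 180498) (.g (nat_lit 402) (.e (nat_lit 57830) (nat_lit 250) (.e (nat_lit 1201) (nat_lit 88) (.e (nat_lit 65586) (nat_lit 7) .nil))) .nil)) 
(.lf (nat_lit 180530) (.g (nat_lit 4138) (.e (nat_lit 57830) (nat_lit 250) (.e (nat_lit 1201) (nat_lit 88) (.e (nat_lit 65586) (nat_lit 7) (.e (nat_lit 319531) (nat_lit 16) (.e (nat_lit 286750) (nat_lit 9) (.e (nat_lit 335987) (nat_lit 1) (.e (nat_lit 57854) (nat_lit 252) (.e (nat_lit 57364) (nat_lit 1) .nil)))))))) (.g (nat_lit 8) .nil .nil))))) (.nd (nat_lit 4) (.nd (nat_lit 5) 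
(.lf (nat_lit 180490) (.g (nat_lit 2508) (.e (nat_lit 57830) (nat_lit 250) (.e (nat_lit 1201) (nat_lit 88) (.e (nat_lit 65583) (nat_lit 7) (.e (nat_lit 319530) (nat_lit 16) (.e (nat_lit 286750) (nat_lit 9) (.e (nat_lit 335993) (nat_lit 1) (.e (nat_lit 57847) (nat_lit 252) (.e (nat_lit 57368) (nat_lit 1) .nil)))))))) (.g (nat_lit 4) .nil .nil))) 
(.lf (nat_lit 180522) (.g (nat_lit 3785) (.e (nat_lit 57830) (nat_lit 250) (.e (nat_lit 1201) (nat_lit 88) (.e (nat_lit 65586) (nat_lit 7) (.e (nat_lit 319531) (nat_lit 16) (.e (nat_lit 286748) (nat_lit 9) (.e (nat_lit 335985) (nat_lit 1) (.e (nat_lit 57854) (nat_lit 252) (.e (nat_lit 57364) (nat_lit 1) .nil)))))))) (.g (nat_lit 8) .nil .nil)))) (.nd (nat_lit 5) 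
(.lf (nat_lit 180506) (.g (nat_lit 2602) (.e (nat_lit 57830) (nat_lit 250) (.e (nat_lit 1201) (nat_lit 88) (.e (nat_lit 65586) (nat_lit 7) (.e (nat_lit 319531) (nat_lit 16) (.e (nat_lit 286744) (nat_lit 9) (.e (nat_lit 335992) (nat_lit 1) (.e (nat_lit 57849) (nat_lit 252) (.e (nat_lit 57365) (nat_lit 1) .nil)))))))) (.g (nat_lit 4) .nil .nil))) 
(.lf (nat_lit 180538) (.g (nat_lit 2477) (.e (nat_lit 57830) (nat_lit 250) (.e (nat_lit 1201) (nat_lit 88) (.e (nat_lit 65586) (nat_lit 7) (.e (nat_lit 319531) (nat_lit 16) (.e (nat_lit 286755) (nat_lit 10) (.e (nat_lit 344087) (nat_lit 18) (.e (nat_lit 5205) (nat_lit 294) (.e (nat_lit 57366) (nat_lit 1) .nil)))))))) (.g (nat_lit 4) .nil .nil)))))) 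
(.nd (nat_lit 3) (.nd (nat_lit 4) (.nd (nat_lit 5) 
(.lf (nat_lit 180486) (.g (nat_lit 1725) (.e (nat_lit 57830) (nat_lit 250) (.e (nat_lit 1201) (nat_lit 88) (.e (nat_lit 65583) (nat_lit 7) (.e (nat_lit 319530) (nat_lit 16) (.e (nat_lit 286748) (nat_lit 9) (.e (nat_lit 343808) (nat_lit 20) (.e (nat_lit 229120) (nat_lit 1) .nil))))))) (.g (nat_lit 4) .nil .nil))) 
(.lf (nat_lit 180518) (.g (nat_lit 2955) (.e (nat_lit 57830) (nat_lit 250) (.e (nat_lit 1201) (nat_lit 88) (.e (nat_lit 65586) (nat_lit 7) (.e (nat_lit 319531) (nat_lit 16) (.e (nat_lit 286748) (nat_lit 9) (.e (nat_lit 335925) (nat_lit 0) (.e (nat_lit 1033) (nat_lit 81) (.e (nat_lit 5205) (nat_lit 294) (.e (nat_lit 57366) (nat_lit 1) .nil))))))))) (.g (nat_lit 6) .nil .nil)))) (.nd (nat_lit 5) 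
(.lf (nat_lit 180502) (.g (nat_lit 2429) (.e (nat_lit 57830) (nat_lit 250) (.e (nat_lit 1201) (nat_lit 88) (.e (nat_lit 65586) (nat_lit 7) (.e (nat_lit 319531) (nat_lit 16) (.e (nat_lit 286742) (nat_lit 9) (.e (nat_lit 335991) (nat_lit 1) (.e (nat_lit 57849) (nat_lit 252) (.e (nat_lit 57365) (nat_lit 1) .nil)))))))) (.g (nat_lit 4) .nil .nil))) 
(.lf (nat_lit 180534) (.g (nat_lit 2747) (.e (nat_lit 57830) (nat_lit 250) (.e (nat_lit 1201) (nat_lit 88) (.e (nat_lit 65586) (nat_lit 7) (.e (nat_lit 319531) (nat_lit 16) (.e (nat_lit 286750) (nat_lit 9) (.e (nat_lit 335994) (nat_lit 1) (.e (nat_lit 57854) (nat_lit 252) (.e (nat_lit 57364) (nat_lit 1) .nil)))))))) (.g (nat_lit 4) .nil .nil))))) (.nd (nat_lit 4) (.nd (nat_lit 5) 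
(.lf (nat_lit 180494) (.g (nat_lit 2973) (.e (nat_lit 57830) (nat_lit 250) (.e (nat_lit 1201) (nat_lit 88) (.e (nat_lit 65583) (nat_lit 7) (.e (nat_lit 319530) (nat_lit 16) (.e (nat_lit 286755) (nat_lit 10) (.e (nat_lit 344097) (nat_lit 18) (.e (nat_lit 5194) (nat_lit 294) (.e (nat_lit 57368) (nat_lit 1) .nil)))))))) (.g (nat_lit 6) .nil .nil))) 
(.lf (nat_lit 180526) (.g (nat_lit 4396) (.e (nat_lit 57830) (nat_lit 250) (.e (nat_lit 1201) (nat_lit 88) (.e (nat_lit 65586) (nat_lit 7) (.e (nat_lit 319531) (nat_lit 16) (.e (nat_lit 286748) (nat_lit 9) (.e (nat_lit 335997) (nat_lit 1) (.e (nat_lit 57847) (nat_lit 252) (.e (nat_lit 57365) (nat_lit 1) .nil)))))))) (.g (nat_lit 8) .nil .nil)))) (.nd (nat_lit 5) 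
(.lf (nat_lit 180510) (.g (nat_lit 2869) (.e (nat_lit 57830) (nat_lit 250) (.e (nat_lit 1201) (nat_lit 88) (.e (nat_lit 65586) (nat_lit 7) (.e (nat_lit 319531) (nat_lit 16) (.e (nat_lit 286745) (nat_lit 9) (.e (nat_lit 335985) (nat_lit 1) (.e (nat_lit 57847) (nat_lit 252) (.e (nat_lit 57368) (nat_lit 1) .nil)))))))) (.g (nat_lit 4) .nil .nil))) 
(.lf (nat_lit 180542) (.g (nat_lit 3753) (.e (nat_lit 57830) (nat_lit 250) (.e (nat_lit 1201) (nat_lit 88) (.e (nat_lit 65586) (nat_lit 7) (.e (nat_lit 319531) (nat_lit 16) (.e (nat_lit 286756) (nat_lit 10) (.e (nat_lit 344087) (nat_lit 18) (.e (nat_lit 5205) (nat_lit 294) (.e (nat_lit 57366) (nat_lit 1) .nil)))))))) (.g (nat_lit 5) .nil .nil)))))))) 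
(.nd (nat_lit 1) (.nd (nat_lit 2) (.nd (nat_lit 3) (.nd (nat_lit 4) (.nd (nat_lit 5) 
(.lf (nat_lit 180481) (.g (nat_lit 3930) (.e (nat_lit 57830) (nat_lit 250) (.e (nat_lit 1201) (nat_lit 88) (.e (nat_lit 65583) (nat_lit 7) (.e (nat_lit 319530) (nat_lit 16) (.e (nat_lit 286748) (nat_lit 9) (.e (nat_lit 335992) (nat_lit 1) (.e (nat_lit 57847) (nat_lit 252) (.e (nat_lit 57365) (nat_lit 1) .nil)))))))) (.g (nat_lit 8) .nil .nil))) 
(.lf (nat_lit 180513) (.g (nat_lit 2714) (.e (nat_lit 57830) (nat_lit 250) (.e (nat_lit 1201) (nat_lit 88) (.e (nat_lit 65586) (nat_lit 7) (.e (nat_lit 319531) (nat_lit 16) (.e (nat_lit 286745) (nat_lit 9) (.e (nat_lit 335992) (nat_lit 1) (.e (nat_lit 57849) (nat_lit 252) (.e (nat_lit 57368) (nat_lit 1) .nil)))))))) (.g (nat_lit 4) .nil .nil)))) (.nd (nat_lit 5) 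
(.lf (nat_lit 180497) (.g (nat_lit 1596) (.e (nat_lit 57830) (nat_lit 250) (.e (nat_lit 1201) (nat_lit 88) (.e (nat_lit 65585) (nat_lit 7) (.e (nat_lit 319533) (nat_lit 16) (.e (nat_lit 286753) (nat_lit 10) .nil))))) .nil)) 
(.lf (nat_lit 180529) (.g (nat_lit 2099) (.e (nat_lit 57830) (nat_lit 250) (.e (nat_lit 1201) (nat_lit 88) (.e (nat_lit 65586) (nat_lit 7) (.e (nat_lit 319531) (nat_lit 16) (.e (nat_lit 286748) (nat_lit 9) (.e (nat_lit 343808) (nat_lit 20) (.e (nat_lit 229120) (nat_lit 1) .nil))))))) (.g (nat_lit 4) .nil .nil))))) (.nd (nat_lit 4) (.nd (nat_lit 5) 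
(.lf (nat_lit 180489) (.g (nat_lit 3676) (.e (nat_lit 57830) (nat_lit 250) (.e (nat_lit 1201) (nat_lit 88) (.e (nat_lit 65583) (nat_lit 7) (.e (nat_lit 319530) (nat_lit 16) (.e (nat_lit 286750) (nat_lit 9) (.e (nat_lit 335993) (nat_lit 1) (.e (nat_lit 57847) (nat_lit 252) (.e (nat_lit 57365) (nat_lit 1) .nil)))))))) (.g (nat_lit 8) .nil .nil))) 
(.lf (nat_lit 180521) (.g (nat_lit 4172) (.e (nat_lit 57830) (nat_lit 250) (.e (nat_lit 1201) (nat_lit 88) (.e (nat_lit 65586) (nat_lit 7) (.e (nat_lit 319531) (nat_lit 16) (.e (nat_lit 286748) (nat_lit 9) (.e (nat_lit 335985) (nat_lit 1) (.e (nat_lit 57847) (nat_lit 252) (.e (nat_lit 57365) (nat_lit 1) .nil)))))))) (.g (nat_lit 8) .nil .nil)))) (.nd (nat_lit 5) 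
(.lf (nat_lit 180505) (.g (nat_lit 2348) (.e (nat_lit 57830) (nat_lit 250) (.e (nat_lit 1201) (nat_lit 88) (.e (nat_lit 65586) (nat_lit 7) (.e (nat_lit 319531) (nat_lit 16) (.e (nat_lit 286744) (nat_lit 9) .nil))))) .nil)) 
(.lf (nat_lit 180537) (.g (nat_lit 2175) (.e (nat_lit 57830) (nat_lit 250) (.e (nat_lit 1201) (nat_lit 88) (.e (nat_lit 65586) (nat_lit 7) (.e (nat_lit 319531) (nat_lit 16) (.e (nat_lit 286755) (nat_lit 10) .nil))))) .nil))))) (.nd (nat_lit 3) (.nd (nat_lit 4) (.nd (nat_lit 5) 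
(.lf (nat_lit 180485) (.g (nat_lit 1620) (.e (nat_lit 57830) (nat_lit 250) (.e (nat_lit 1201) (nat_lit 88) (.e (nat_lit 65583) (nat_lit 7) (.e (nat_lit 319530) (nat_lit 16) (.e (nat_lit 286748) (nat_lit 9) (.e (nat_lit 336295) (nat_lit 15) (.e (nat_lit 7936) (nat_lit 157) (.e (nat_lit 7265) (nat_lit 384) (.e (nat_lit 57364) (nat_lit 1) .nil))))))))) (.g (nat_lit 4) .nil .nil))) 
(.lf (nat_lit 180517) (.g (nat_lit 3121) (.e (nat_lit 57830) (nat_lit 250) (.e (nat_lit 1201) (nat_lit 88) (.e (nat_lit 65586) (nat_lit 7) (.e (nat_lit 319531) (nat_lit 16) (.e (nat_lit 286748) (nat_lit 9) (.e (nat_lit 335925) (nat_lit 0) (.e (nat_lit 1023) (nat_lit 81) (.e (nat_lit 5195) (nat_lit 294) (.e (nat_lit 57368) (nat_lit 1) .nil))))))))) (.g (nat_lit 5) .nil .nil)))) (.nd (nat_lit 5) 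
(.lf (nat_lit 180501) (.g (nat_lit 2972) (.e (nat_lit 57830) (nat_lit 250) (.e (nat_lit 1201) (nat_lit 88) (.e (nat_lit 65586) (nat_lit 7) (.e (nat_lit 319531) (nat_lit 16) (.e (nat_lit 286742) (nat_lit 9) (.e (nat_lit 335989) (nat_lit 1) (.e (nat_lit 57847) (nat_lit 252) (.e (nat_lit 57368) (nat_lit 1) .nil)))))))) (.g (nat_lit 5) .nil .nil))) 
(.lf (nat_lit 180533) (.g (nat_lit 3945) (.e (nat_lit 57830) (nat_lit 250) (.e (nat_lit 1201) (nat_lit 88) (.e (nat_lit 65586) (nat_lit 7) (.e (nat_lit 319531) (nat_lit 16) (.e (nat_lit 286750) (nat_lit 9) (.e (nat_lit 335993) (nat_lit 1) (.e (nat_lit 57854) (nat_lit 252) (.e (nat_lit 57364) (nat_lit 1) .nil)))))))) (.g (nat_lit 8) .nil .nil))))) (.nd (nat_lit 4) (.nd (nat_lit 5) 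
(.lf (nat_lit 180493) (.g (nat_lit 1502) (.e (nat_lit 57830) (nat_lit 250) (.e (nat_lit 1201) (nat_lit 88) (.e (nat_lit 65583) (nat_lit 7) (.e (nat_lit 319530) (nat_lit 16) (.e (nat_lit 286755) (nat_lit 10) .nil))))) .nil)) 
(.lf (nat_lit 180525) (.g (nat_lit 2548) (.e (nat_lit 57830) (nat_lit 250) (.e (nat_lit 1201) (nat_lit 88) (.e (nat_lit 65586) (nat_lit 7) (.e (nat_lit 319531) (nat_lit 16) (.e (nat_lit 286748) (nat_lit 9) (.e (nat_lit 335992) (nat_lit 1) (.e (nat_lit 57848) (nat_lit 252) (.e (nat_lit 57368) (nat_lit 1) .nil)))))))) (.g (nat_lit 5) .nil .nil)))) (.nd (nat_lit 5) 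
(.lf (nat_lit 180509) (.g (nat_lit 2348) (.e (nat_lit 57830) (nat_lit 250) (.e (nat_lit 1201) (nat_lit 88) (.e (nat_lit 65586) (nat_lit 7) (.e (nat_lit 319531) (nat_lit 16) (.e (nat_lit 286745) (nat_lit 9) .nil))))) .nil)) 
(.lf (nat_lit 180541) (.g (nat_lit 2441) (.e (nat_lit 57830) (nat_lit 250) (.e (nat_lit 1201) (nat_lit 88) (.e (nat_lit 65586) (nat_lit 7) (.e (nat_lit 319531) (nat_lit 16) (.e (nat_lit 286755) (nat_lit 10) (.e (nat_lit 344098) (nat_lit 18) (.e (nat_lit 5205) (nat_lit 294) (.e (nat_lit 57366) (nat_lit 1) .nil)))))))) (.g (nat_lit 4) .nil .nil))))))) 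
(.nd (nat_lit 2) (.nd (nat_lit 3) (.nd (nat_lit 4) (.nd (nat_lit 5) 
(.lf (nat_lit 180483) (.g (nat_lit 4079) (.e (nat_lit 57830) (nat_lit 250) (.e (nat_lit 1201) (nat_lit 88) (.e (nat_lit 65583) (nat_lit 7) (.e (nat_lit 319530) (nat_lit 16) (.e (nat_lit 286748) (nat_lit 9) (.e (nat_lit 335997) (nat_lit 1) (.e (nat_lit 57847) (nat_lit 252) (.e (nat_lit 57365) (nat_lit 1) .nil)))))))) (.g (nat_lit 8) .nil .nil))) 
(.lf (nat_lit 180515) (.g (nat_lit 1455) (.e (nat_lit 57830) (nat_lit 250) (.e (nat_lit 1201) (nat_lit 88) (.e (nat_lit 65586) (nat_lit 7) (.e (nat_lit 319531) (nat_lit 16) (.e (nat_lit 286748) (nat_lit 9) .nil))))) .nil))) (.nd (nat_lit 5) 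
(.lf (nat_lit 180499) (.g (nat_lit 2080) (.e (nat_lit 57830) (nat_lit 250) (.e (nat_lit 1201) (nat_lit 88) (.e (nat_lit 65586) (nat_lit 7) (.e (nat_lit 319531) (nat_lit 16) (.e (nat_lit 286742) (nat_lit 9) .nil))))) .nil)) 
(.lf (nat_lit 180531) (.g (nat_lit 4036) (.e (nat_lit 57830) (nat_lit 250) (.e (nat_lit 1201) (nat_lit 88) (.e (nat_lit 65586) (nat_lit 7) (.e (nat_lit 319531) (nat_lit 16) (.e (nat_lit 286750) (nat_lit 9) (.e (nat_lit 335993) (nat_lit 1) (.e (nat_lit 57847) (nat_lit 252) (.e (nat_lit 57365) (nat_lit 1) .nil)))))))) (.g (nat_lit 8) .nil .nil))))) (.nd (nat_lit 4) (.nd (nat_lit 5) 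
(.lf (nat_lit 180491) (.g (nat_lit 3545) (.e (nat_lit 57830) (nat_lit 250) (.e (nat_lit 1201) (nat_lit 88) (.e (nat_lit 65583) (nat_lit 7) (.e (nat_lit 319530) (nat_lit 16) (.e (nat_lit 286750) (nat_lit 9) (.e (nat_lit 335993) (nat_lit 1) (.e (nat_lit 57854) (nat_lit 252) (.e (nat_lit 57364) (nat_lit 1) .nil)))))))) (.g (nat_lit 8) .nil .nil))) 
(.lf (nat_lit 180523) (.g (nat_lit 3684) (.e (nat_lit 57830) (nat_lit 250) (.e (nat_lit 1201) (nat_lit 88) (.e (nat_lit 65586) (nat_lit 7) (.e (nat_lit 319531) (nat_lit 16) (.e (nat_lit 286748) (nat_lit 9) (.e (nat_lit 335990) (nat_lit 1) (.e (nat_lit 57854) (nat_lit 252) (.e (nat_lit 57364) (nat_lit 1) .nil)))))))) (.g (nat_lit 8) .nil .nil)))) (.nd (nat_lit 5) 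
(.lf (nat_lit 180507) (.g (nat_lit 2704) (.e (nat_lit 57830) (nat_lit 250) (.e (nat_lit 1201) (nat_lit 88) (.e (nat_lit 65586) (nat_lit 7) (.e (nat_lit 319531) (nat_lit 16) (.e (nat_lit 286744) (nat_lit 9) (.e (nat_lit 335992) (nat_lit 1) (.e (nat_lit 57851) (nat_lit 252) (.e (nat_lit 57364) (nat_lit 1) .nil)))))))) (.g (nat_lit 4) .nil .nil))) 
(.lf (nat_lit 180539) (.g (nat_lit 3543) (.e (nat_lit 57830) (nat_lit 250) (.e (nat_lit 1201) (nat_lit 88) (.e (nat_lit 65586) (nat_lit 7) (.e (nat_lit 319531) (nat_lit 16) (.e (nat_lit 286755) (nat_lit 10) (.e (nat_lit 344097) (nat_lit 18) (.e (nat_lit 5194) (nat_lit 294) (.e (nat_lit 57368) (nat_lit 1) .nil)))))))) (.g (nat_lit 6) .nil .nil)))))) 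
(.nd (nat_lit 3) (.nd (nat_lit 4) (.nd (nat_lit 5) 
(.lf (nat_lit 180487) (.g (nat_lit 4807) (.e (nat_lit 57830) (nat_lit 250) (.e (nat_lit 1201) (nat_lit 88) (.e (nat_lit 65583) (nat_lit 7) (.e (nat_lit 319530) (nat_lit 16) (.e (nat_lit 286750) (nat_lit 9) (.e (nat_lit 335986) (nat_lit 1) (.e (nat_lit 57847) (nat_lit 252) (.e (nat_lit 57365) (nat_lit 1) .nil)))))))) (.g (nat_lit 8) .nil .nil))) 
(.lf (nat_lit 180519) (.g (nat_lit 2056) (.e (nat_lit 57830) (nat_lit 250) (.e (nat_lit 1201) (nat_lit 88) (.e (nat_lit 65586) (nat_lit 7) (.e (nat_lit 319531) (nat_lit 16) (.e (nat_lit 286748) (nat_lit 9) (.e (nat_lit 335925) (nat_lit 0) (.e (nat_lit 1043) (nat_lit 81) (.e (nat_lit 5193) (nat_lit 294) (.e (nat_lit 57368) (nat_lit 1) .nil))))))))) (.g (nat_lit 4) .nil .nil)))) (.nd (nat_lit 5) 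
(.lf (nat_lit 180503) (.g (nat_lit 2536) (.e (nat_lit 57830) (nat_lit 250) (.e (nat_lit 1201) (nat_lit 88) (.e (nat_lit 65586) (nat_lit 7) (.e (nat_lit 319531) (nat_lit 16) (.e (nat_lit 286742) (nat_lit 9) (.e (nat_lit 335992) (nat_lit 1) (.e (nat_lit 57847) (nat_lit 252) (.e (nat_lit 57368) (nat_lit 1) .nil)))))))) (.g (nat_lit 4) .nil .nil))) 
(.lf (nat_lit 180535) (.g (nat_lit 2639) (.e (nat_lit 57830) (nat_lit 250) (.e (nat_lit 1201) (nat_lit 88) (.e (nat_lit 65586) (nat_lit 7) (.e (nat_lit 319531) (nat_lit 16) (.e (nat_lit 286750) (nat_lit 9) (.e (nat_lit 335994) (nat_lit 1) (.e (nat_lit 57854) (nat_lit 252) (.e (nat_lit 57366) (nat_lit 1) .nil)))))))) (.g (nat_lit 4) .nil .nil))))) (.nd (nat_lit 4) (.nd (nat_lit 5) 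
(.lf (nat_lit 180495) (.g (nat_lit 1320) (.e (nat_lit 57830) (nat_lit 250) (.e (nat_lit 1201) (nat_lit 88) (.e (nat_lit 65583) (nat_lit 7) (.e (nat_lit 319530) (nat_lit 16) (.e (nat_lit 286756) (nat_lit 10) .nil))))) .nil)) 
(.lf (nat_lit 180527) (.g (nat_lit 4028) (.e (nat_lit 57830) (nat_lit 250) (.e (nat_lit 1201) (nat_lit 88) (.e (nat_lit 65586) (nat_lit 7) (.e (nat_lit 319531) (nat_lit 16) (.e (nat_lit 286748) (nat_lit 9) (.e (nat_lit 335997) (nat_lit 1) (.e (nat_lit 57854) (nat_lit 252) (.e (nat_lit 57364) (nat_lit 1) .nil)))))))) (.g (nat_lit 8) .nil .nil)))) (.nd (nat_lit 5) 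
(.lf (nat_lit 180511) (.g (nat_lit 3305) (.e (nat_lit 57830) (nat_lit 250) (.e (nat_lit 1201) (nat_lit 88) (.e (nat_lit 65586) (nat_lit 7) (.e (nat_lit 319531) (nat_lit 16) (.e (nat_lit 286745) (nat_lit 9) (.e (nat_lit 335989) (nat_lit 1) (.e (nat_lit 57847) (nat_lit 252) (.e (nat_lit 57368) (nat_lit 1) .nil)))))))) (.g (nat_lit 5) .nil .nil))) 
(.lf (nat_lit 180543) (.g (nat_lit 2348) (.e (nat_lit 57830) (nat_lit 250) (.e (nat_lit 1201) (nat_lit 88) (.e (nat_lit 65586) (nat_lit 7) (.e (nat_lit 319531) (nat_lit 16) (.e (nat_lit 286757) (nat_lit 11) .nil))))) .nil))))))))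

noncomputable def tv2420 : DT := (.nd (nat_lit 0) (.nd (nat_lit 1) (.nd (nat_lit 2) (.nd (nat_lit 3) (.nd (nat_lit 4) (.nd (nat_lit 5) 
(.lf (nat_lit 180544) (.g (nat_lit 3680) (.e (nat_lit 57830) (nat_lit 250) (.e (nat_lit 1201) (nat_lit 88) (.e (nat_lit 65586) (nat_lit 7) (.e (nat_lit 319531) (nat_lit 16) (.e (nat_lit 286759) (nat_lit 12) (.e (nat_lit 385107) (nat_lit 51) (.e (nat_lit 802560) (nat_lit 1) .nil))))))) (.g (nat_lit 6) .nil .nil))) 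
(.lf (nat_lit 180576) (.g (nat_lit 1129) (.e (nat_lit 57830) (nat_lit 250) (.e (nat_lit 1201) (nat_lit 88) (.e (nat_lit 65625) (nat_lit 13) (.e (nat_lit 393294) (nat_lit 26) .nil)))) .nil))) (.nd (nat_lit 5) 
(.lf (nat_lit 180560) (.g (nat_lit 654) (.e (nat_lit 57830) (nat_lit 250) (.e (nat_lit 1201) (nat_lit 88) (.e (nat_lit 65592) (nat_lit 9) .nil))) .nil)) 
(.lf (nat_lit 180592) (.g (nat_lit 2428) (.e (nat_lit 57830) (nat_lit 250) (.e (nat_lit 1212) (nat_lit 89) (.e (nat_lit 73747) (nat_lit 3) (.e (nat_lit 516146) (nat_lit 9) (.e (nat_lit 426422) (nat_lit 16) .nil))))) .nil)))) (.nd (nat_lit 4) (.nd (nat_lit 5) 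
(.lf (nat_lit 180552) (.g (nat_lit 1291) (.e (nat_lit 57830) (nat_lit 250) (.e (nat_lit 1201) (nat_lit 88) (.e (nat_lit 65589) (nat_lit 9) (.e (nat_lit 336426) (nat_lit 29) (.e (nat_lit 450304) (nat_lit 5) .nil))))) .nil)) 
(.lf (nat_lit 180584) (.g (nat_lit 853) (.e (nat_lit 57830) (nat_lit 250) (.e (nat_lit 1201) (nat_lit 88) (.e (nat_lit 65627) (nat_lit 13) (.e (nat_lit 393292) (nat_lit 26) .nil)))) .nil))) (.nd (nat_lit 5) 
(.lf (nat_lit 180568) (.g (nat_lit 3220) (.e (nat_lit 57830) (nat_lit 250) (.e (nat_lit 1201) (nat_lit 88) (.e (nat_lit 65625) (nat_lit 13) (.e (nat_lit 393270) (nat_lit 23) (.e (nat_lit 426448) (nat_lit 20) (.e (nat_lit 114710) (nat_lit 21) .nil)))))) (.g (nat_lit 0) .nil .nil))) 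
(.lf (nat_lit 180600) (.g (nat_lit 2250) (.e (nat_lit 57830) (nat_lit 250) (.e (nat_lit 1214) (nat_lit 89) (.e (nat_lit 73746) (nat_lit 3) (.e (nat_lit 516146) (nat_lit 9) (.e (nat_lit 426421) (nat_lit 16) .nil))))) .nil))))) (.nd (nat_lit 3) (.nd (nat_lit 4) (.nd (nat_lit 5) 
(.lf (nat_lit 180548) (.g (nat_lit 2701) (.e (nat_lit 57830) (nat_lit 250) (.e (nat_lit 1201) (nat_lit 88) (.e (nat_lit 65586) (nat_lit 7) (.e (nat_lit 319534) (nat_lit 16) (.e (nat_lit 286751) (nat_lit 10) .nil))))) .nil)) 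
(.lf (nat_lit 180580) (.g (nat_lit 2509) (.e (nat_lit 57830) (nat_lit 250) (.e (nat_lit 1201) (nat_lit 88) (.e (nat_lit 65627) (nat_lit 13) (.e (nat_lit 393270) (nat_lit 23) (.e (nat_lit 426448) (nat_lit 20) (.e (nat_lit 114712) (nat_lit 21) .nil)))))) (.g (nat_lit 0) .nil .nil)))) (.nd (nat_lit 5) 
(.lf (nat_lit 180564) (.g (nat_lit 845) (.e (nat_lit 57830) (nat_lit 250) (.e (nat_lit 1201) (nat_lit 88) (.e (nat_lit 65617) (nat_lit 10) (.e (nat_lit 344164) (nat_lit 37) (.e (nat_lit 647171) (nat_lit 0) .nil))))) .nil)) 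
(.lf (nat_lit 180596) (.g (nat_lit 1837) (.e (nat_lit 57830) (nat_lit 250) (.e (nat_lit 1214) (nat_lit 89) (.e (nat_lit 73746) (nat_lit 3) (.e (nat_lit 516129) (nat_lit 3) (.e (nat_lit 229120) (nat_lit 1) .nil))))) .nil)))) (.nd (nat_lit 4) (.nd (nat_lit 5) 
(.lf (nat_lit 180556) (.g (nat_lit 645) (.e (nat_lit 57830) (nat_lit 250) (.e (nat_lit 1201) (nat_lit 88) (.e (nat_lit 65591) (nat_lit 9) .nil))) .nil)) 
(.lf (nat_lit 180588) (.g (nat_lit 571) (.e (nat_lit 57830) (nat_lit 250) (.e (nat_lit 1201) (nat_lit 88) (.e (nat_lit 65649) (nat_lit 27) .nil))) .nil))) (.nd (nat_lit 5) 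
(.lf (nat_lit 180572) (.g (nat_lit 1401) (.e (nat_lit 57830) (nat_lit 250) (.e (nat_lit 1201) (nat_lit 88) (.e (nat_lit 65625) (nat_lit 13) (.e (nat_lit 393279) (nat_lit 23) (.e (nat_lit 433920) (nat_lit 20) .nil))))) .nil)) 
(.lf (nat_lit 180604) (.g (nat_lit 2035) (.e (nat_lit 57830) (nat_lit 250) (.e (nat_lit 1214) (nat_lit 89) (.e (nat_lit 73753) (nat_lit 8) (.e (nat_lit 557100) (nat_lit 13) (.e (nat_lit 172061) (nat_lit 1) .nil))))) .nil)))))) (.nd (nat_lit 2) (.nd (nat_lit 3) (.nd (nat_lit 4) (.nd (nat_lit 5) 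
(.lf (nat_lit 180546) (.g (nat_lit 2285) (.e (nat_lit 57830) (nat_lit 250) (.e (nat_lit 1201) (nat_lit 88) (.e (nat_lit 65586) (nat_lit 7) (.e (nat_lit 319533) (nat_lit 16) (.e (nat_lit 286753) (nat_lit 10) (.e (nat_lit 344097) (nat_lit 18) (.e (nat_lit 5195) (nat_lit 294) (.e (nat_lit 57367) (nat_lit 1) .nil)))))))) (.g (nat_lit 4) .nil .nil))) 
(.lf (nat_lit 180578) (.g (nat_lit 1002) (.e (nat_lit 57830) (nat_lit 250) (.e (nat_lit 1201) (nat_lit 88) (.e (nat_lit 65626) (nat_lit 13) (.e (nat_lit 393293) (nat_lit 26) .nil)))) .nil))) (.nd (nat_lit 5) 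
(.lf (nat_lit 180562) (.g (nat_lit 674) (.e (nat_lit 57830) (nat_lit 250) (.e (nat_lit 1201) (nat_lit 88) (.e (nat_lit 65599) (nat_lit 9) .nil))) .nil)) 
(.lf (nat_lit 180594) (.g (nat_lit 776) (.e (nat_lit 57830) (nat_lit 250) (.e (nat_lit 1212) (nat_lit 89) (.e (nat_lit 73774) (nat_lit 26) (.e (nat_lit 778332) (nat_lit 8) .nil)))) .nil)))) (.nd (nat_lit 4) (.nd (nat_lit 5) 
(.lf (nat_lit 180554) (.g (nat_lit 654) (.e (nat_lit 57830) (nat_lit 250) (.e (nat_lit 1201) (nat_lit 88) (.e (nat_lit 65590) (nat_lit 9) .nil))) .nil)) 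
(.lf (nat_lit 180586) (.g (nat_lit 2221) (.e (nat_lit 57830) (nat_lit 250) (.e (nat_lit 1201) (nat_lit 88) (.e (nat_lit 65627) (nat_lit 13) (.e (nat_lit 393293) (nat_lit 26) (.e (nat_lit 475212) (nat_lit 42) (.e (nat_lit 720934) (nat_lit 21) .nil)))))) (.g (nat_lit 5) .nil .nil)))) (.nd (nat_lit 5) 
(.lf (nat_lit 180570) (.g (nat_lit 1614) (.e (nat_lit 57830) (nat_lit 250) (.e (nat_lit 1201) (nat_lit 88) (.e (nat_lit 65625) (nat_lit 13) (.e (nat_lit 393274) (nat_lit 23) (.e (nat_lit 433920) (nat_lit 20) .nil))))) .nil)) 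
(.lf (nat_lit 180602) (.g (nat_lit 2180) (.e (nat_lit 57830) (nat_lit 250) (.e (nat_lit 1214) (nat_lit 89) (.e (nat_lit 73746) (nat_lit 3) (.e (nat_lit 516150) (nat_lit 9) (.e (nat_lit 426422) (nat_lit 16) .nil))))) .nil))))) (.nd (nat_lit 3) (.nd (nat_lit 4) (.nd (nat_lit 5) 
(.lf (nat_lit 180550) (.g (nat_lit 2617) (.e (nat_lit 57830) (nat_lit 250) (.e (nat_lit 1201) (nat_lit 88) (.e (nat_lit 65586) (nat_lit 7) (.e (nat_lit 319534) (nat_lit 16) (.e (nat_lit 286753) (nat_lit 10) .nil))))) .nil)) 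
(.lf (nat_lit 180582) (.g (nat_lit 1090) (.e (nat_lit 57830) (nat_lit 250) (.e (nat_lit 1201) (nat_lit 88) (.e (nat_lit 65627) (nat_lit 13) (.e (nat_lit 393279) (nat_lit 23) (.e (nat_lit 426447) (nat_lit 20) .nil))))) .nil))) (.nd (nat_lit 5) 
(.lf (nat_lit 180566) (.g (nat_lit 1415) (.e (nat_lit 57830) (nat_lit 250) (.e (nat_lit 1201) (nat_lit 88) (.e (nat_lit 65625) (nat_lit 13) (.e (nat_lit 393267) (nat_lit 23) (.e (nat_lit 426446) (nat_lit 20) .nil))))) .nil)) 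
(.lf (nat_lit 180598) (.g (nat_lit 959) (.e (nat_lit 57830) (nat_lit 250) (.e (nat_lit 1214) (nat_lit 89) (.e (nat_lit 73746) (nat_lit 3) (.e (nat_lit 516131) (nat_lit 3) .nil)))) .nil)))) (.nd (nat_lit 4) (.nd (nat_lit 5) 
(.lf (nat_lit 180558) (.g (nat_lit 1912) (.e (nat_lit 57830) (nat_lit 250) (.e (nat_lit 1201) (nat_lit 88) (.e (nat_lit 65591) (nat_lit 9) (.e (nat_lit 336443) (nat_lit 32) (.e (nat_lit 474880) (nat_lit 5) (.e (nat_lit 114710) (nat_lit 21) .nil)))))) (.g (nat_lit 4) .nil .nil))) 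
(.lf (nat_lit 180590) (.g (nat_lit 498) (.e (nat_lit 57830) (nat_lit 250) (.e (nat_lit 1201) (nat_lit 88) (.e (nat_lit 65651) (nat_lit 27) .nil))) .nil))) (.nd (nat_lit 5) 
(.lf (nat_lit 180574) (.g (nat_lit 2384) (.e (nat_lit 57830) (nat_lit 250) (.e (nat_lit 1201) (nat_lit 88) (.e (nat_lit 65625) (nat_lit 13) (.e (nat_lit 393293) (nat_lit 26) (.e (nat_lit 475212) (nat_lit 42) (.e (nat_lit 720934) (nat_lit 21) .nil)))))) (.g (nat_lit 5) .nil .nil))) 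
(.lf (nat_lit 180606) (.g (nat_lit 2118) (.e (nat_lit 57830) (nat_lit 250) (.e (nat_lit 1214) (nat_lit 89) (.e (nat_lit 73753) (nat_lit 8) (.e (nat_lit 557103) (nat_lit 14) (.e (nat_lit 188160) (nat_lit 0) .nil))))) .nil))))))) (.nd (nat_lit 1) (.nd (nat_lit 2) (.nd (nat_lit 3) (.nd (nat_lit 4) (.nd (nat_lit 5) 
(.lf (nat_lit 180545) (.g (nat_lit 2601) (.e (nat_lit 57830) (nat_lit 250) (.e (nat_lit 1201) (nat_lit 88) (.e (nat_lit 65586) (nat_lit 7) (.e (nat_lit 319533) (nat_lit 16) (.e (nat_lit 286753) (nat_lit 10) (.e (nat_lit 344097) (nat_lit 18) (.e (nat_lit 5195) (nat_lit 294) (.e (nat_lit 57363) (nat_lit 1) .nil)))))))) (.g (nat_lit 5) .nil .nil))) 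
(.lf (nat_lit 180577) (.g (nat_lit 557) (.e (nat_lit 57830) (nat_lit 250) (.e (nat_lit 1201) (nat_lit 88) (.e (nat_lit 65626) (nat_lit 13) .nil))) .nil))) (.nd (nat_lit 5) 
(.lf (nat_lit 180561) (.g (nat_lit 673) (.e (nat_lit 57830) (nat_lit 250) (.e (nat_lit 1201) (nat_lit 88) (.e (nat_lit 65596) (nat_lit 9) .nil))) .nil)) 
(.lf (nat_lit 180593) (.g (nat_lit 1621) (.e (nat_lit 57830) (nat_lit 250) (.e (nat_lit 1212) (nat_lit 89) (.e (nat_lit 73747) (nat_lit 3) (.e (nat_lit 516152) (nat_lit 9) (.e (nat_lit 426173) (nat_lit 7) .nil))))) .nil)))) (.nd (nat_lit 4) (.nd (nat_lit 5) 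
(.lf (nat_lit 180553) (.g (nat_lit 1770) (.e (nat_lit 57830) (nat_lit 250) (.e (nat_lit 1201) (nat_lit 88) (.e (nat_lit 65589) (nat_lit 9) (.e (nat_lit 336430) (nat_lit 29) (.e (nat_lit 450304) (nat_lit 5) .nil))))) .nil)) 
(.lf (nat_lit 180585) (.g (nat_lit 2353) (.e (nat_lit 57830) (nat_lit 250) (.e (nat_lit 1201) (nat_lit 88) (.e (nat_lit 65627) (nat_lit 13) (.e (nat_lit 393292) (nat_lit 26) (.e (nat_lit 475212) (nat_lit 42) (.e (nat_lit 720934) (nat_lit 21) .nil)))))) (.g (nat_lit 5) .nil .nil)))) (.nd (nat_lit 5) 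
(.lf (nat_lit 180569) (.g (nat_lit 2709) (.e (nat_lit 57830) (nat_lit 250) (.e (nat_lit 1201) (nat_lit 88) (.e (nat_lit 65625) (nat_lit 13) (.e (nat_lit 393270) (nat_lit 23) (.e (nat_lit 426448) (nat_lit 20) (.e (nat_lit 114712) (nat_lit 21) .nil)))))) (.g (nat_lit 0) .nil .nil))) 
(.lf (nat_lit 180601) (.g (nat_lit 2073) (.e (nat_lit 57830) (nat_lit 250) (.e (nat_lit 1214) (nat_lit 89) (.e (nat_lit 73746) (nat_lit 3) (.e (nat_lit 516146) (nat_lit 9) (.e (nat_lit 426422) (nat_lit 16) .nil))))) .nil))))) (.nd (nat_lit 3) (.nd (nat_lit 4) (.nd (nat_lit 5) 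
(.lf (nat_lit 180549) (.g (nat_lit 3084) (.e (nat_lit 57830) (nat_lit 250) (.e (nat_lit 1201) (nat_lit 88) (.e (nat_lit 65586) (nat_lit 7) (.e (nat_lit 319534) (nat_lit 16) (.e (nat_lit 286751) (nat_lit 10) (.e (nat_lit 344097) (nat_lit 18) (.e (nat_lit 5195) (nat_lit 294) (.e (nat_lit 57368) (nat_lit 1) .nil)))))))) (.g (nat_lit 4) .nil .nil))) 
(.lf (nat_lit 180581) (.g (nat_lit 1247) (.e (nat_lit 57830) (nat_lit 250) (.e (nat_lit 1201) (nat_lit 88) (.e (nat_lit 65627) (nat_lit 13) (.e (nat_lit 393274) (nat_lit 23) (.e (nat_lit 433920) (nat_lit 20) .nil))))) .nil))) (.nd (nat_lit 5) 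
(.lf (nat_lit 180565) (.g (nat_lit 365) (.e (nat_lit 57830) (nat_lit 250) (.e (nat_lit 1201) (nat_lit 88) (.e (nat_lit 65625) (nat_lit 13) .nil))) .nil)) 
(.lf (nat_lit 180597) (.g (nat_lit 1673) (.e (nat_lit 57830) (nat_lit 250) (.e (nat_lit 1214) (nat_lit 89) (.e (nat_lit 73746) (nat_lit 3) (.e (nat_lit 516129) (nat_lit 3) (.e (nat_lit 221217) (nat_lit 24) .nil))))) .nil)))) (.nd (nat_lit 4) (.nd (nat_lit 5) 
(.lf (nat_lit 180557) (.g (nat_lit 1769) (.e (nat_lit 57830) (nat_lit 250) (.e (nat_lit 1201) (nat_lit 88) (.e (nat_lit 65591) (nat_lit 9) (.e (nat_lit 336430) (nat_lit 29) (.e (nat_lit 450304) (nat_lit 5) (.e (nat_lit 114712) (nat_lit 21) .nil)))))) (.g (nat_lit 4) .nil .nil))) 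
(.lf (nat_lit 180589) (.g (nat_lit 654) (.e (nat_lit 57830) (nat_lit 250) (.e (nat_lit 1201) (nat_lit 88) (.e (nat_lit 65649) (nat_lit 27) (.e (nat_lit 426518) (nat_lit 27) .nil)))) .nil))) (.nd (nat_lit 5) 
(.lf (nat_lit 180573) (.g (nat_lit 974) (.e (nat_lit 57830) (nat_lit 250) (.e (nat_lit 1201) (nat_lit 88) (.e (nat_lit 65625) (nat_lit 13) (.e (nat_lit 393293) (nat_lit 26) .nil)))) .nil)) 
(.lf (nat_lit 180605) (.g (nat_lit 1897) (.e (nat_lit 57830) (nat_lit 250) (.e (nat_lit 1214) (nat_lit 89) (.e (nat_lit 73753) (nat_lit 8) (.e (nat_lit 557101) (nat_lit 13) (.e (nat_lit 172070) (nat_lit 4) .nil))))) .nil)))))) (.nd (nat_lit 2) (.nd (nat_lit 3) (.nd (nat_lit 4) (.nd (nat_lit 5) 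
(.lf (nat_lit 180547) (.g (nat_lit 2857) (.e (nat_lit 57830) (nat_lit 250) (.e (nat_lit 1201) (nat_lit 88) (.e (nat_lit 65586) (nat_lit 7) (.e (nat_lit 319534) (nat_lit 16) (.e (nat_lit 286750) (nat_lit 9) .nil))))) .nil)) 
(.lf (nat_lit 180579) (.g (nat_lit 333) (.e (nat_lit 57830) (nat_lit 250) (.e (nat_lit 1201) (nat_lit 88) (.e (nat_lit 65627) (nat_lit 13) .nil))) .nil))) (.nd (nat_lit 5) 
(.lf (nat_lit 180563) (.g (nat_lit 1165) (.e (nat_lit 57830) (nat_lit 250) (.e (nat_lit 1201) (nat_lit 88) (.e (nat_lit 65599) (nat_lit 9) (.e (nat_lit 336417) (nat_lit 27) .nil)))) .nil)) 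
(.lf (nat_lit 180595) (.g (nat_lit 440) (.e (nat_lit 57830) (nat_lit 250) (.e (nat_lit 1214) (nat_lit 89) (.e (nat_lit 73746) (nat_lit 3) .nil))) .nil)))) (.nd (nat_lit 4) (.nd (nat_lit 5) 
(.lf (nat_lit 180555) (.g (nat_lit 770) (.e (nat_lit 57830) (nat_lit 250) (.e (nat_lit 1201) (nat_lit 88) (.e (nat_lit 65590) (nat_lit 9) (.e (nat_lit 336428) (nat_lit 29) .nil)))) .nil)) 
(.lf (nat_lit 180587) (.g (nat_lit 1784) (.e (nat_lit 57830) (nat_lit 250) (.e (nat_lit 1201) (nat_lit 88) (.e (nat_lit 65627) (nat_lit 13) (.e (nat_lit 393294) (nat_lit 26) (.e (nat_lit 475214) (nat_lit 42) .nil))))) .nil))) (.nd (nat_lit 5) 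
(.lf (nat_lit 180571) (.g (nat_lit 1129) (.e (nat_lit 57830) (nat_lit 250) (.e (nat_lit 1201) (nat_lit 88) (.e (nat_lit 65625) (nat_lit 13) (.e (nat_lit 393279) (nat_lit 23) .nil)))) .nil)) 
(.lf (nat_lit 180603) (.g (nat_lit 2340) (.e (nat_lit 57830) (nat_lit 250) (.e (nat_lit 1214) (nat_lit 89) (.e (nat_lit 73753) (nat_lit 8) (.e (nat_lit 557098) (nat_lit 13) (.e (nat_lit 172061) (nat_lit 1) .nil))))) .nil))))) (.nd (nat_lit 3) (.nd (nat_lit 4) (.nd (nat_lit 5) 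
(.lf (nat_lit 180551) (.g (nat_lit 1927) (.e (nat_lit 57830) (nat_lit 250) (.e (nat_lit 1201) (nat_lit 88) (.e (nat_lit 65586) (nat_lit 7) (.e (nat_lit 319534) (nat_lit 16) (.e (nat_lit 286756) (nat_lit 10) .nil))))) .nil)) 
(.lf (nat_lit 180583) (.g (nat_lit 1211) (.e (nat_lit 57830) (nat_lit 250) (.e (nat_lit 1201) (nat_lit 88) (.e (nat_lit 65627) (nat_lit 13) (.e (nat_lit 393279) (nat_lit 23) (.e (nat_lit 433920) (nat_lit 20) .nil))))) .nil))) (.nd (nat_lit 5) 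
(.lf (nat_lit 180567) (.g (nat_lit 1129) (.e (nat_lit 57830) (nat_lit 250) (.e (nat_lit 1201) (nat_lit 88) (.e (nat_lit 65625) (nat_lit 13) (.e (nat_lit 393269) (nat_lit 23) .nil)))) .nil)) 
(.lf (nat_lit 180599) (.g (nat_lit 1592) (.e (nat_lit 57830) (nat_lit 250) (.e (nat_lit 1214) (nat_lit 89) (.e (nat_lit 73746) (nat_lit 3) (.e (nat_lit 516131) (nat_lit 3) (.e (nat_lit 221218) (nat_lit 24) .nil))))) .nil)))) (.nd (nat_lit 4) (.nd (nat_lit 5) 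
(.lf (nat_lit 180559) (.g (nat_lit 1799) (.e (nat_lit 57830) (nat_lit 250) (.e (nat_lit 1201) (nat_lit 88) (.e (nat_lit 65591) (nat_lit 9) (.e (nat_lit 336443) (nat_lit 32) (.e (nat_lit 474880) (nat_lit 5) (.e (nat_lit 114712) (nat_lit 21) .nil)))))) (.g (nat_lit 4) .nil .nil))) 
(.lf (nat_lit 180591) (.g (nat_lit 555) (.e (nat_lit 57830) (nat_lit 250) (.e (nat_lit 1212) (nat_lit 89) (.e (nat_lit 73747) (nat_lit 3) .nil))) .nil))) (.nd (nat_lit 5) 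
(.lf (nat_lit 180575) (.g (nat_lit 1612) (.e (nat_lit 57830) (nat_lit 250) (.e (nat_lit 1201) (nat_lit 88) (.e (nat_lit 65625) (nat_lit 13) (.e (nat_lit 393293) (nat_lit 26) (.e (nat_lit 475213) (nat_lit 42) .nil))))) .nil)) 
(.lf (nat_lit 180607) (.g (nat_lit 2388) (.e (nat_lit 57830) (nat_lit 250) (.e (nat_lit 1214) (nat_lit 89) (.e (nat_lit 73754) (nat_lit 8) (.e (nat_lit 557100) (nat_lit 13) (.e (nat_lit 172061) (nat_lit 1) .nil))))) .nil))))))))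

noncomputable def tv2421 : DT := (.nd (nat_lit 0) (.nd (nat_lit 1) (.nd (nat_lit 2) (.nd (nat_lit 3) (.nd (nat_lit 4) (.nd (nat_lit 5) (.nd (nat_lit 6) 
(.lf (nat_lit 180608) (.g (nat_lit 2720) (.e (nat_lit 57830) (nat_lit 250) (.e (nat_lit 1214) (nat_lit 89) (.e (nat_lit 73754) (nat_lit 8) (.e (nat_lit 557100) (nat_lit 13) (.e (nat_lit 172061) (nat_lit 1) (.e (nat_lit 164319) (nat_lit 228) (.e (nat_lit 57389) (nat_lit 5) (.e (nat_lit 114712) (nat_lit 21) .nil)))))))) (.g (nat_lit 4) .nil .nil))) 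
(.lf (nat_lit 180672) (.g (nat_lit 1087) (.e (nat_lit 57832) (nat_lit 250) (.e (nat_lit 1222) (nat_lit 90) (.e (nat_lit 81927) (nat_lit 11) (.e (nat_lit 426308) (nat_lit 12) (.e (nat_lit 475212) (nat_lit 42) .nil))))) .nil))) (.nd (nat_lit 6) 
(.lf (nat_lit 180640) (.g (nat_lit 2171) (.e (nat_lit 57830) (nat_lit 250) (.e (nat_lit 1296) (nat_lit 96) (.e (nat_lit 131105) (nat_lit 9) (.e (nat_lit 336443) (nat_lit 32) (.e (nat_lit 466972) (nat_lit 21) (.e (nat_lit 164332) (nat_lit 230) (.e (nat_lit 171776) (nat_lit 62) .nil))))))) (.g (nat_lit 5) .nil .nil))) 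
(.lf (nat_lit 180704) (.g (nat_lit 746) (.e (nat_lit 57844) (nat_lit 252) (.e (nat_lit 57372) (nat_lit 2) (.e (nat_lit 90160) (nat_lit 11) .nil))) .nil)))) (.nd (nat_lit 5) (.nd (nat_lit 6) 
(.lf (nat_lit 180624) (.g (nat_lit 1685) (.e (nat_lit 57830) (nat_lit 250) (.e (nat_lit 1224) (nat_lit 90) (.e (nat_lit 81925) (nat_lit 11) (.e (nat_lit 426315) (nat_lit 12) (.e (nat_lit 475212) (nat_lit 42) .nil))))) .nil)) 
(.lf (nat_lit 180688) (.g (nat_lit 699) (.e (nat_lit 57844) (nat_lit 252) (.e (nat_lit 57371) (nat_lit 2) (.e (nat_lit 90157) (nat_lit 11) .nil))) .nil))) (.nd (nat_lit 6) 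
(.lf (nat_lit 180656) (.g (nat_lit 2311) (.e (nat_lit 57830) (nat_lit 250) (.e (nat_lit 1296) (nat_lit 96) (.e (nat_lit 131125) (nat_lit 13) (.e (nat_lit 393293) (nat_lit 26) (.e (nat_lit 475214) (nat_lit 42) (.e (nat_lit 720931) (nat_lit 21) .nil)))))) (.g (nat_lit 0) .nil .nil))) 
(.lf (nat_lit 180720) (.g (nat_lit 1662) (.e (nat_lit 57844) (nat_lit 252) (.e (nat_lit 57375) (nat_lit 2) (.e (nat_lit 90160) (nat_lit 11) (.e (nat_lit 24628) (nat_lit 9) .nil)))) .nil))))) (.nd (nat_lit 4) (.nd (nat_lit 5) (.nd (nat_lit 6) 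
(.lf (nat_lit 180616) (.g (nat_lit 417) (.e (nat_lit 57830) (nat_lit 250) (.e (nat_lit 1222) (nat_lit 90) (.e (nat_lit 81927) (nat_lit 11) .nil))) .nil)) 
(.lf (nat_lit 180680) (.g (nat_lit 777) (.e (nat_lit 57844) (nat_lit 252) (.e (nat_lit 57371) (nat_lit 2) (.e (nat_lit 90125) (nat_lit 9) (.e (nat_lit 333) (nat_lit 26) .nil)))) .nil))) (.nd (nat_lit 6) 
(.lf (nat_lit 180648) (.g (nat_lit 1213) (.e (nat_lit 57830) (nat_lit 250) (.e (nat_lit 1296) (nat_lit 96) (.e (nat_lit 131109) (nat_lit 9) (.e (nat_lit 336443) (nat_lit 32) (.e (nat_lit 466960) (nat_lit 20) .nil))))) .nil)) 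
(.lf (nat_lit 180712) (.g (nat_lit 2848) (.e (nat_lit 57844) (nat_lit 252) (.e (nat_lit 57373) (nat_lit 2) (.e (nat_lit 90158) (nat_lit 11) (.e (nat_lit 24658) (nat_lit 13) (.e (nat_lit 393229) (nat_lit 9) .nil))))) .nil)))) (.nd (nat_lit 5) (.nd (nat_lit 6) 
(.lf (nat_lit 180632) (.g (nat_lit 1642) (.e (nat_lit 57830) (nat_lit 250) (.e (nat_lit 1296) (nat_lit 96) (.e (nat_lit 131094) (nat_lit 2) (.e (nat_lit 90172) (nat_lit 14) (.e (nat_lit 180285) (nat_lit 45) (.e (nat_lit 2422) (nat_lit 157) (.e (nat_lit 599) (nat_lit 45) (.e (nat_lit 532504) (nat_lit 1) .nil)))))))) (.g (nat_lit 4) .nil .nil))) 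
(.lf (nat_lit 180696) (.g (nat_lit 1874) (.e (nat_lit 57844) (nat_lit 252) (.e (nat_lit 57371) (nat_lit 2) (.e (nat_lit 90160) (nat_lit 11) (.e (nat_lit 24636) (nat_lit 9) (.e (nat_lit 343808) (nat_lit 34) .nil))))) .nil))) (.nd (nat_lit 6) 
(.lf (nat_lit 180664) (.g (nat_lit 1291) (.e (nat_lit 57830) (nat_lit 250) (.e (nat_lit 1296) (nat_lit 96) (.e (nat_lit 131128) (nat_lit 13) (.e (nat_lit 393274) (nat_lit 23) (.e (nat_lit 433920) (nat_lit 20) (.e (nat_lit 114712) (nat_lit 21) .nil)))))) (.g (nat_lit 4) .nil .nil))) 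
(.lf (nat_lit 180728) (.g (nat_lit 1993) (.e (nat_lit 57844) (nat_lit 252) (.e (nat_lit 57375) (nat_lit 2) (.e (nat_lit 90160) (nat_lit 11) (.e (nat_lit 24660) (nat_lit 13) .nil)))) .nil)))))) (.nd (nat_lit 3) (.nd (nat_lit 4) (.nd (nat_lit 5) (.nd (nat_lit 6) 
(.lf (nat_lit 180612) (.g (nat_lit 2414) (.e (nat_lit 57830) (nat_lit 250) (.e (nat_lit 1214) (nat_lit 89) (.e (nat_lit 73754) (nat_lit 8) (.e (nat_lit 557105) (nat_lit 14) (.e (nat_lit 180230) (nat_lit 0) .nil))))) .nil)) 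
(.lf (nat_lit 180676) (.g (nat_lit 1174) (.e (nat_lit 57844) (nat_lit 252) (.e (nat_lit 57364) (nat_lit 1) (.e (nat_lit 57852) (nat_lit 252) (.e (nat_lit 57427) (nat_lit 15) .nil)))) .nil))) (.nd (nat_lit 6) 
(.lf (nat_lit 180644) (.g (nat_lit 1416) (.e (nat_lit 57830) (nat_lit 250) (.e (nat_lit 1296) (nat_lit 96) (.e (nat_lit 131108) (nat_lit 9) (.e (nat_lit 336430) (nat_lit 29) (.e (nat_lit 450304) (nat_lit 5) (.e (nat_lit 114712) (nat_lit 21) .nil)))))) (.g (nat_lit 4) .nil .nil))) 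
(.lf (nat_lit 180708) (.g (nat_lit 1676) (.e (nat_lit 57844) (nat_lit 252) (.e (nat_lit 57372) (nat_lit 2) (.e (nat_lit 90160) (nat_lit 11) (.e (nat_lit 24636) (nat_lit 9) .nil)))) .nil)))) (.nd (nat_lit 5) (.nd (nat_lit 6) 
(.lf (nat_lit 180628) (.g (nat_lit 2492) (.e (nat_lit 57830) (nat_lit 250) (.e (nat_lit 1296) (nat_lit 96) (.e (nat_lit 131093) (nat_lit 2) (.e (nat_lit 90170) (nat_lit 13) (.e (nat_lit 172082) (nat_lit 7) (.e (nat_lit 409617) (nat_lit 10) (.e (nat_lit 604) (nat_lit 45) (.e (nat_lit 532504) (nat_lit 1) .nil)))))))) (.g (nat_lit 4) .nil .nil))) 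
(.lf (nat_lit 180692) (.g (nat_lit 1750) (.e (nat_lit 57844) (nat_lit 252) (.e (nat_lit 57371) (nat_lit 2) (.e (nat_lit 90160) (nat_lit 11) (.e (nat_lit 24608) (nat_lit 3) .nil)))) .nil))) (.nd (nat_lit 6) 
(.lf (nat_lit 180660) (.g (nat_lit 1504) (.e (nat_lit 57830) (nat_lit 250) (.e (nat_lit 1296) (nat_lit 96) (.e (nat_lit 131127) (nat_lit 13) (.e (nat_lit 393274) (nat_lit 23) (.e (nat_lit 433920) (nat_lit 20) (.e (nat_lit 114712) (nat_lit 21) .nil)))))) (.g (nat_lit 4) .nil .nil))) 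
(.lf (nat_lit 180724) (.g (nat_lit 1848) (.e (nat_lit 57844) (nat_lit 252) (.e (nat_lit 57375) (nat_lit 2) (.e (nat_lit 90160) (nat_lit 11) (.e (nat_lit 24636) (nat_lit 9) (.e (nat_lit 336390) (nat_lit 27) .nil))))) .nil))))) (.nd (nat_lit 4) (.nd (nat_lit 5) (.nd (nat_lit 6) 
(.lf (nat_lit 180620) (.g (nat_lit 1630) (.e (nat_lit 57830) (nat_lit 250) (.e (nat_lit 1224) (nat_lit 90) (.e (nat_lit 81925) (nat_lit 11) (.e (nat_lit 426198) (nat_lit 9) (.e (nat_lit 426448) (nat_lit 20) .nil))))) .nil)) 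
(.lf (nat_lit 180684) (.g (nat_lit 683) (.e (nat_lit 57844) (nat_lit 252) (.e (nat_lit 57371) (nat_lit 2) (.e (nat_lit 90133) (nat_lit 9) .nil))) .nil))) (.nd (nat_lit 6) 
(.lf (nat_lit 180652) (.g (nat_lit 594) (.e (nat_lit 57830) (nat_lit 250) (.e (nat_lit 1296) (nat_lit 96) (.e (nat_lit 131124) (nat_lit 13) .nil))) .nil)) 
(.lf (nat_lit 180716) (.g (nat_lit 526) (.e (nat_lit 57844) (nat_lit 252) (.e (nat_lit 57375) (nat_lit 2) (.e (nat_lit 90160) (nat_lit 11) .nil))) .nil)))) (.nd (nat_lit 5) (.nd (nat_lit 6) 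
(.lf (nat_lit 180636) (.g (nat_lit 813) (.e (nat_lit 57830) (nat_lit 250) (.e (nat_lit 1296) (nat_lit 96) (.e (nat_lit 131105) (nat_lit 9) (.e (nat_lit 336426) (nat_lit 29) (.e (nat_lit 450304) (nat_lit 5) .nil))))) .nil)) 
(.lf (nat_lit 180700) (.g (nat_lit 1898) (.e (nat_lit 57844) (nat_lit 252) (.e (nat_lit 57371) (nat_lit 2) (.e (nat_lit 90160) (nat_lit 11) (.e (nat_lit 24659) (nat_lit 13) .nil)))) .nil))) (.nd (nat_lit 6) 
(.lf (nat_lit 180668) (.g (nat_lit 959) (.e (nat_lit 57831) (nat_lit 250) (.e (nat_lit 1296) (nat_lit 96) (.e (nat_lit 131125) (nat_lit 13) (.e (nat_lit 393270) (nat_lit 23) .nil)))) .nil)) 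
(.lf (nat_lit 180732) (.g (nat_lit 4676) (.e (nat_lit 57844) (nat_lit 252) (.e (nat_lit 57377) (nat_lit 3) (.e (nat_lit 98317) (nat_lit 9) (.e (nat_lit 336020) (nat_lit 3) .nil)))) .nil))))))) (.nd (nat_lit 2) (.nd (nat_lit 3) (.nd (nat_lit 4) (.nd (nat_lit 5) (.nd (nat_lit 6) 
(.lf (nat_lit 180610) (.g (nat_lit 2008) (.e (nat_lit 57830) (nat_lit 250) (.e (nat_lit 1214) (nat_lit 89) (.e (nat_lit 73754) (nat_lit 8) (.e (nat_lit 557101) (nat_lit 13) (.e (nat_lit 172070) (nat_lit 4) .nil))))) .nil)) 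
(.lf (nat_lit 180674) (.g (nat_lit 2266) (.e (nat_lit 57839) (nat_lit 250) (.e (nat_lit 1199) (nat_lit 88) (.e (nat_lit 65586) (nat_lit 7) (.e (nat_lit 319531) (nat_lit 16) (.e (nat_lit 286743) (nat_lit 9) .nil))))) .nil))) (.nd (nat_lit 6) 
(.lf (nat_lit 180642) (.g (nat_lit 1400) (.e (nat_lit 57830) (nat_lit 250) (.e (nat_lit 1296) (nat_lit 96) (.e (nat_lit 131106) (nat_lit 9) (.e (nat_lit 336443) (nat_lit 32) (.e (nat_lit 474880) (nat_lit 5) .nil))))) .nil)) 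
(.lf (nat_lit 180706) (.g (nat_lit 2307) (.e (nat_lit 57844) (nat_lit 252) (.e (nat_lit 57372) (nat_lit 2) (.e (nat_lit 90160) (nat_lit 11) (.e (nat_lit 24628) (nat_lit 9) (.e (nat_lit 336454) (nat_lit 34) .nil))))) .nil)))) (.nd (nat_lit 5) (.nd (nat_lit 6) 
(.lf (nat_lit 180626) (.g (nat_lit 1829) (.e (nat_lit 57830) (nat_lit 250) (.e (nat_lit 1296) (nat_lit 96) (.e (nat_lit 131091) (nat_lit 2) (.e (nat_lit 90172) (nat_lit 14) (.e (nat_lit 180285) (nat_lit 45) (.e (nat_lit 2426) (nat_lit 157) (.e (nat_lit 604) (nat_lit 45) (.e (nat_lit 532501) (nat_lit 1) .nil)))))))) (.g (nat_lit 4) .nil .nil))) 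
(.lf (nat_lit 180690) (.g (nat_lit 587) (.e (nat_lit 57844) (nat_lit 252) (.e (nat_lit 57371) (nat_lit 2) (.e (nat_lit 90160) (nat_lit 11) .nil))) .nil))) (.nd (nat_lit 6) 
(.lf (nat_lit 180658) (.g (nat_lit 2136) (.e (nat_lit 57830) (nat_lit 250) (.e (nat_lit 1296) (nat_lit 96) (.e (nat_lit 131127) (nat_lit 13) (.e (nat_lit 393271) (nat_lit 23) (.e (nat_lit 433920) (nat_lit 20) (.e (nat_lit 114710) (nat_lit 21) .nil)))))) (.g (nat_lit 4) .nil .nil))) 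
(.lf (nat_lit 180722) (.g (nat_lit 2568) (.e (nat_lit 57844) (nat_lit 252) (.e (nat_lit 57375) (nat_lit 2) (.e (nat_lit 90160) (nat_lit 11) (.e (nat_lit 24630) (nat_lit 9) (.e (nat_lit 336369) (nat_lit 27) .nil))))) .nil))))) (.nd (nat_lit 4) (.nd (nat_lit 5) (.nd (nat_lit 6) 
(.lf (nat_lit 180618) (.g (nat_lit 267) (.e (nat_lit 57830) (nat_lit 250) (.e (nat_lit 1224) (nat_lit 90) (.e (nat_lit 81925) (nat_lit 11) .nil))) .nil)) 
(.lf (nat_lit 180682) (.g (nat_lit 1485) (.e (nat_lit 57844) (nat_lit 252) (.e (nat_lit 57371) (nat_lit 2) (.e (nat_lit 90128) (nat_lit 9) (.e (nat_lit 293) (nat_lit 21) .nil)))) .nil))) (.nd (nat_lit 6) 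
(.lf (nat_lit 180650) (.g (nat_lit 2260) (.e (nat_lit 57830) (nat_lit 250) (.e (nat_lit 1296) (nat_lit 96) (.e (nat_lit 131109) (nat_lit 9) (.e (nat_lit 336443) (nat_lit 32) (.e (nat_lit 466969) (nat_lit 21) (.e (nat_lit 164332) (nat_lit 230) (.e (nat_lit 171776) (nat_lit 62) .nil))))))) (.g (nat_lit 6) .nil .nil))) 
(.lf (nat_lit 180714) (.g (nat_lit 1909) (.e (nat_lit 57844) (nat_lit 252) (.e (nat_lit 57375) (nat_lit 2) (.e (nat_lit 90128) (nat_lit 9) (.e (nat_lit 314) (nat_lit 23) (.e (nat_lit 352275) (nat_lit 11) .nil))))) .nil)))) (.nd (nat_lit 5) (.nd (nat_lit 6) 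
(.lf (nat_lit 180634) (.g (nat_lit 2671) (.e (nat_lit 57830) (nat_lit 250) (.e (nat_lit 1296) (nat_lit 96) (.e (nat_lit 131102) (nat_lit 7) (.e (nat_lit 319533) (nat_lit 16) (.e (nat_lit 286753) (nat_lit 10) (.e (nat_lit 344097) (nat_lit 18) (.e (nat_lit 5195) (nat_lit 294) (.e (nat_lit 57368) (nat_lit 1) .nil)))))))) (.g (nat_lit 6) .nil .nil))) 
(.lf (nat_lit 180698) (.g (nat_lit 2217) (.e (nat_lit 57844) (nat_lit 252) (.e (nat_lit 57371) (nat_lit 2) (.e (nat_lit 90160) (nat_lit 11) (.e (nat_lit 24638) (nat_lit 9) (.e (nat_lit 336387) (nat_lit 27) .nil))))) .nil))) (.nd (nat_lit 6) 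
(.lf (nat_lit 180666) (.g (nat_lit 907) (.e (nat_lit 57830) (nat_lit 250) (.e (nat_lit 1296) (nat_lit 96) (.e (nat_lit 131128) (nat_lit 13) (.e (nat_lit 393279) (nat_lit 23) (.e (nat_lit 426447) (nat_lit 20) .nil))))) .nil)) 
(.lf (nat_lit 180730) (.g (nat_lit 2068) (.e (nat_lit 57844) (nat_lit 252) (.e (nat_lit 57377) (nat_lit 3) (.e (nat_lit 98313) (nat_lit 9) (.e (nat_lit 336223) (nat_lit 13) (.e (nat_lit 393224) (nat_lit 9) .nil))))) .nil)))))) (.nd (nat_lit 3) (.nd (nat_lit 4) (.nd (nat_lit 5) (.nd (nat_lit 6) 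
(.lf (nat_lit 180614) (.g (nat_lit 2220) (.e (nat_lit 57830) (nat_lit 250) (.e (nat_lit 1214) (nat_lit 89) (.e (nat_lit 73754) (nat_lit 8) (.e (nat_lit 557105) (nat_lit 14) (.e (nat_lit 188160) (nat_lit 0) (.e (nat_lit 5195) (nat_lit 294) (.e (nat_lit 57390) (nat_lit 5) (.e (nat_lit 114712) (nat_lit 21) .nil)))))))) (.g (nat_lit 4) .nil .nil))) 
(.lf (nat_lit 180678) (.g (nat_lit 1652) (.e (nat_lit 57844) (nat_lit 252) (.e (nat_lit 57371) (nat_lit 2) (.e (nat_lit 90123) (nat_lit 9) (.e (nat_lit 312) (nat_lit 23) (.e (nat_lit 352277) (nat_lit 11) .nil))))) .nil))) (.nd (nat_lit 6) 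
(.lf (nat_lit 180646) (.g (nat_lit 1000) (.e (nat_lit 57830) (nat_lit 250) (.e (nat_lit 1296) (nat_lit 96) (.e (nat_lit 131109) (nat_lit 9) (.e (nat_lit 336428) (nat_lit 29) (.e (nat_lit 450304) (nat_lit 5) .nil))))) .nil)) 
(.lf (nat_lit 180710) (.g (nat_lit 2507) (.e (nat_lit 57844) (nat_lit 252) (.e (nat_lit 57372) (nat_lit 2) (.e (nat_lit 90160) (nat_lit 11) (.e (nat_lit 24660) (nat_lit 13) (.e (nat_lit 393229) (nat_lit 9) .nil))))) .nil)))) (.nd (nat_lit 5) (.nd (nat_lit 6) 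
(.lf (nat_lit 180630) (.g (nat_lit 1956) (.e (nat_lit 57830) (nat_lit 250) (.e (nat_lit 1296) (nat_lit 96) (.e (nat_lit 131094) (nat_lit 2) (.e (nat_lit 90170) (nat_lit 13) (.e (nat_lit 172082) (nat_lit 7) (.e (nat_lit 409612) (nat_lit 10) (.e (nat_lit 604) (nat_lit 45) (.e (nat_lit 532501) (nat_lit 1) .nil)))))))) (.g (nat_lit 4) .nil .nil))) 
(.lf (nat_lit 180694) (.g (nat_lit 1746) (.e (nat_lit 57844) (nat_lit 252) (.e (nat_lit 57371) (nat_lit 2) (.e (nat_lit 90160) (nat_lit 11) (.e (nat_lit 24627) (nat_lit 9) .nil)))) .nil))) (.nd (nat_lit 6) 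
(.lf (nat_lit 180662) (.g (nat_lit 1042) (.e (nat_lit 57830) (nat_lit 250) (.e (nat_lit 1296) (nat_lit 96) (.e (nat_lit 131128) (nat_lit 13) (.e (nat_lit 393267) (nat_lit 23) (.e (nat_lit 426446) (nat_lit 20) .nil))))) .nil)) 
(.lf (nat_lit 180726) (.g (nat_lit 1744) (.e (nat_lit 57844) (nat_lit 252) (.e (nat_lit 57375) (nat_lit 2) (.e (nat_lit 90160) (nat_lit 11) (.e (nat_lit 24658) (nat_lit 13) .nil)))) .nil))))) (.nd (nat_lit 4) (.nd (nat_lit 5) (.nd (nat_lit 6) 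
(.lf (nat_lit 180622) (.g (nat_lit 2076) (.e (nat_lit 57830) (nat_lit 250) (.e (nat_lit 1224) (nat_lit 90) (.e (nat_lit 81925) (nat_lit 11) (.e (nat_lit 426307) (nat_lit 12) (.e (nat_lit 475212) (nat_lit 42) (.e (nat_lit 720934) (nat_lit 21) .nil)))))) (.g (nat_lit 5) .nil .nil))) 
(.lf (nat_lit 180686) (.g (nat_lit 659) (.e (nat_lit 57844) (nat_lit 252) (.e (nat_lit 57371) (nat_lit 2) (.e (nat_lit 90155) (nat_lit 10) .nil))) .nil))) (.nd (nat_lit 6) 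
(.lf (nat_lit 180654) (.g (nat_lit 573) (.e (nat_lit 57830) (nat_lit 250) (.e (nat_lit 1296) (nat_lit 96) (.e (nat_lit 131125) (nat_lit 13) (.e (nat_lit 393274) (nat_lit 23) .nil)))) .nil)) 
(.lf (nat_lit 180718) (.g (nat_lit 1807) (.e (nat_lit 57844) (nat_lit 252) (.e (nat_lit 57375) (nat_lit 2) (.e (nat_lit 90160) (nat_lit 11) (.e (nat_lit 24625) (nat_lit 9) .nil)))) .nil)))) (.nd (nat_lit 5) (.nd (nat_lit 6) 
(.lf (nat_lit 180638) (.g (nat_lit 2955) (.e (nat_lit 57830) (nat_lit 250) (.e (nat_lit 1296) (nat_lit 96) (.e (nat_lit 131105) (nat_lit 9) (.e (nat_lit 336443) (nat_lit 32) (.e (nat_lit 466969) (nat_lit 21) (.e (nat_lit 164330) (nat_lit 230) (.e (nat_lit 171776) (nat_lit 62) .nil))))))) (.g (nat_lit 6) .nil .nil))) 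
(.lf (nat_lit 180702) (.g (nat_lit 1787) (.e (nat_lit 57844) (nat_lit 252) (.e (nat_lit 57372) (nat_lit 2) (.e (nat_lit 90128) (nat_lit 9) (.e (nat_lit 268) (nat_lit 21) .nil)))) .nil))) (.nd (nat_lit 6) 
(.lf (nat_lit 180670) (.g (nat_lit 644) (.e (nat_lit 57831) (nat_lit 250) (.e (nat_lit 1296) (nat_lit 96) (.e (nat_lit 131128) (nat_lit 13) .nil))) .nil)) 
(.lf (nat_lit 180734) (.g (nat_lit 3910) (.e (nat_lit 57844) (nat_lit 252) (.e (nat_lit 57377) (nat_lit 3) (.e (nat_lit 98317) (nat_lit 9) (.e (nat_lit 336027) (nat_lit 3) .nil)))) .nil)))))))) (.nd (nat_lit 1) (.nd (nat_lit 2) (.nd (nat_lit 3) (.nd (nat_lit 4) (.nd (nat_lit 5) (.nd (nat_lit 6) 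
(.lf (nat_lit 180609) (.g (nat_lit 2070) (.e (nat_lit 57830) (nat_lit 250) (.e (nat_lit 1214) (nat_lit 89) (.e (nat_lit 73754) (nat_lit 8) (.e (nat_lit 557101) (nat_lit 13) (.e (nat_lit 172061) (nat_lit 1) .nil))))) .nil)) 
(.lf (nat_lit 180673) (.g (nat_lit 2111) (.e (nat_lit 57839) (nat_lit 250) (.e (nat_lit 1196) (nat_lit 88) (.e (nat_lit 65586) (nat_lit 7) (.e (nat_lit 319531) (nat_lit 16) (.e (nat_lit 286743) (nat_lit 9) .nil))))) .nil))) (.nd (nat_lit 6) 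
(.lf (nat_lit 180641) (.g (nat_lit 1432) (.e (nat_lit 57830) (nat_lit 250) (.e (nat_lit 1296) (nat_lit 96) (.e (nat_lit 131106) (nat_lit 9) (.e (nat_lit 336430) (nat_lit 29) (.e (nat_lit 450304) (nat_lit 5) (.e (nat_lit 114712) (nat_lit 21) .nil)))))) (.g (nat_lit 4) .nil .nil))) 
(.lf (nat_lit 180705) (.g (nat_lit 2408) (.e (nat_lit 57844) (nat_lit 252) (.e (nat_lit 57372) (nat_lit 2) (.e (nat_lit 90160) (nat_lit 11) (.e (nat_lit 24625) (nat_lit 9) (.e (nat_lit 336454) (nat_lit 34) .nil))))) .nil)))) (.nd (nat_lit 5) (.nd (nat_lit 6) 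
(.lf (nat_lit 180625) (.g (nat_lit 1613) (.e (nat_lit 57830) (nat_lit 250) (.e (nat_lit 1296) (nat_lit 96) (.e (nat_lit 131091) (nat_lit 2) (.e (nat_lit 90172) (nat_lit 14) (.e (nat_lit 180285) (nat_lit 45) .nil))))) .nil)) 
(.lf (nat_lit 180689) (.g (nat_lit 2744) (.e (nat_lit 57844) (nat_lit 252) (.e (nat_lit 57371) (nat_lit 2) (.e (nat_lit 90157) (nat_lit 11) (.e (nat_lit 24655) (nat_lit 13) (.e (nat_lit 393229) (nat_lit 9) (.e (nat_lit 335994) (nat_lit 1) .nil)))))) (.g (nat_lit 4) .nil .nil)))) (.nd (nat_lit 6) 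
(.lf (nat_lit 180657) (.g (nat_lit 379) (.e (nat_lit 57830) (nat_lit 250) (.e (nat_lit 1296) (nat_lit 96) (.e (nat_lit 131127) (nat_lit 13) .nil))) .nil)) 
(.lf (nat_lit 180721) (.g (nat_lit 2280) (.e (nat_lit 57844) (nat_lit 252) (.e (nat_lit 57375) (nat_lit 2) (.e (nat_lit 90160) (nat_lit 11) (.e (nat_lit 24628) (nat_lit 9) (.e (nat_lit 336454) (nat_lit 34) .nil))))) .nil))))) (.nd (nat_lit 4) (.nd (nat_lit 5) (.nd (nat_lit 6) 
(.lf (nat_lit 180617) (.g (nat_lit 619) (.e (nat_lit 57830) (nat_lit 250) (.e (nat_lit 1222) (nat_lit 90) (.e (nat_lit 81927) (nat_lit 11) (.e (nat_lit 426308) (nat_lit 12) .nil)))) .nil)) 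
(.lf (nat_lit 180681) (.g (nat_lit 450) (.e (nat_lit 57844) (nat_lit 252) (.e (nat_lit 57371) (nat_lit 2) (.e (nat_lit 90128) (nat_lit 9) .nil))) .nil))) (.nd (nat_lit 6) 
(.lf (nat_lit 180649) (.g (nat_lit 3052) (.e (nat_lit 57830) (nat_lit 250) (.e (nat_lit 1296) (nat_lit 96) (.e (nat_lit 131109) (nat_lit 9) (.e (nat_lit 336443) (nat_lit 32) (.e (nat_lit 466969) (nat_lit 21) (.e (nat_lit 164330) (nat_lit 230) (.e (nat_lit 171776) (nat_lit 62) .nil))))))) (.g (nat_lit 6) .nil .nil))) 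
(.lf (nat_lit 180713) (.g (nat_lit 1487) (.e (nat_lit 57844) (nat_lit 252) (.e (nat_lit 57374) (nat_lit 2) (.e (nat_lit 90157) (nat_lit 11) (.e (nat_lit 24655) (nat_lit 13) .nil)))) .nil)))) (.nd (nat_lit 5) (.nd (nat_lit 6) 
(.lf (nat_lit 180633) (.g (nat_lit 2591) (.e (nat_lit 57830) (nat_lit 250) (.e (nat_lit 1296) (nat_lit 96) (.e (nat_lit 131102) (nat_lit 7) (.e (nat_lit 319533) (nat_lit 16) (.e (nat_lit 286753) (nat_lit 10) (.e (nat_lit 344097) (nat_lit 18) (.e (nat_lit 5195) (nat_lit 294) (.e (nat_lit 57365) (nat_lit 1) .nil)))))))) (.g (nat_lit 5) .nil .nil))) 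
(.lf (nat_lit 180697) (.g (nat_lit 1578) (.e (nat_lit 57844) (nat_lit 252) (.e (nat_lit 57371) (nat_lit 2) (.e (nat_lit 90160) (nat_lit 11) (.e (nat_lit 24638) (nat_lit 9) .nil)))) .nil))) (.nd (nat_lit 6) 
(.lf (nat_lit 180665) (.g (nat_lit 759) (.e (nat_lit 57830) (nat_lit 250) (.e (nat_lit 1296) (nat_lit 96) (.e (nat_lit 131128) (nat_lit 13) (.e (nat_lit 393279) (nat_lit 23) .nil)))) .nil)) 
(.lf (nat_lit 180729) (.g (nat_lit 1194) (.e (nat_lit 57844) (nat_lit 252) (.e (nat_lit 57377) (nat_lit 3) (.e (nat_lit 98313) (nat_lit 9) (.e (nat_lit 336222) (nat_lit 13) .nil)))) .nil)))))) (.nd (nat_lit 3) (.nd (nat_lit 4) (.nd (nat_lit 5) (.nd (nat_lit 6) 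
(.lf (nat_lit 180613) (.g (nat_lit 2129) (.e (nat_lit 57830) (nat_lit 250) (.e (nat_lit 1214) (nat_lit 89) (.e (nat_lit 73754) (nat_lit 8) (.e (nat_lit 557105) (nat_lit 14) (.e (nat_lit 188160) (nat_lit 0) .nil))))) .nil)) 
(.lf (nat_lit 180677) (.g (nat_lit 582) (.e (nat_lit 57844) (nat_lit 252) (.e (nat_lit 57371) (nat_lit 2) (.e (nat_lit 90121) (nat_lit 9) .nil))) .nil))) (.nd (nat_lit 6) 
(.lf (nat_lit 180645) (.g (nat_lit 1870) (.e (nat_lit 57830) (nat_lit 250) (.e (nat_lit 1296) (nat_lit 96) (.e (nat_lit 131108) (nat_lit 9) (.e (nat_lit 336443) (nat_lit 32) (.e (nat_lit 474880) (nat_lit 5) (.e (nat_lit 114712) (nat_lit 21) .nil)))))) (.g (nat_lit 4) .nil .nil))) 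
(.lf (nat_lit 180709) (.g (nat_lit 3329) (.e (nat_lit 57844) (nat_lit 252) (.e (nat_lit 57372) (nat_lit 2) (.e (nat_lit 90160) (nat_lit 11) (.e (nat_lit 24655) (nat_lit 13) (.e (nat_lit 393229) (nat_lit 9) (.e (nat_lit 335994) (nat_lit 1) .nil)))))) (.g (nat_lit 5) .nil .nil))))) (.nd (nat_lit 5) (.nd (nat_lit 6) 
(.lf (nat_lit 180629) (.g (nat_lit 255) (.e (nat_lit 57830) (nat_lit 250) (.e (nat_lit 1296) (nat_lit 96) (.e (nat_lit 131094) (nat_lit 2) .nil))) .nil)) 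
(.lf (nat_lit 180693) (.g (nat_lit 2802) (.e (nat_lit 57844) (nat_lit 252) (.e (nat_lit 57371) (nat_lit 2) (.e (nat_lit 90160) (nat_lit 11) (.e (nat_lit 24608) (nat_lit 3) (.e (nat_lit 98341) (nat_lit 20) .nil))))) .nil))) (.nd (nat_lit 6) 
(.lf (nat_lit 180661) (.g (nat_lit 336) (.e (nat_lit 57830) (nat_lit 250) (.e (nat_lit 1296) (nat_lit 96) (.e (nat_lit 131128) (nat_lit 13) .nil))) .nil)) 
(.lf (nat_lit 180725) (.g (nat_lit 3710) (.e (nat_lit 57844) (nat_lit 252) (.e (nat_lit 57375) (nat_lit 2) (.e (nat_lit 90160) (nat_lit 11) (.e (nat_lit 24655) (nat_lit 13) (.e (nat_lit 393229) (nat_lit 9) (.e (nat_lit 335994) (nat_lit 1) .nil)))))) (.g (nat_lit 6) .nil .nil)))))) (.nd (nat_lit 4) (.nd (nat_lit 5) (.nd (nat_lit 6) 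
(.lf (nat_lit 180621) (.g (nat_lit 2026) (.e (nat_lit 57830) (nat_lit 250) (.e (nat_lit 1224) (nat_lit 90) (.e (nat_lit 81925) (nat_lit 11) (.e (nat_lit 426307) (nat_lit 12) (.e (nat_lit 475212) (nat_lit 42) (.e (nat_lit 720930) (nat_lit 21) .nil)))))) (.g (nat_lit 5) .nil .nil))) 
(.lf (nat_lit 180685) (.g (nat_lit 1183) (.e (nat_lit 57844) (nat_lit 252) (.e (nat_lit 57371) (nat_lit 2) (.e (nat_lit 90134) (nat_lit 9) (.e (nat_lit 290) (nat_lit 21) .nil)))) .nil))) (.nd (nat_lit 6) 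
(.lf (nat_lit 180653) (.g (nat_lit 336) (.e (nat_lit 57830) (nat_lit 250) (.e (nat_lit 1296) (nat_lit 96) (.e (nat_lit 131125) (nat_lit 13) .nil))) .nil)) 
(.lf (nat_lit 180717) (.g (nat_lit 1857) (.e (nat_lit 57844) (nat_lit 252) (.e (nat_lit 57375) (nat_lit 2) (.e (nat_lit 90160) (nat_lit 11) (.e (nat_lit 24608) (nat_lit 3) .nil)))) .nil)))) (.nd (nat_lit 5) (.nd (nat_lit 6) 
(.lf (nat_lit 180637) (.g (nat_lit 1064) (.e (nat_lit 57830) (nat_lit 250) (.e (nat_lit 1296) (nat_lit 96) (.e (nat_lit 131105) (nat_lit 9) (.e (nat_lit 336443) (nat_lit 32) (.e (nat_lit 466960) (nat_lit 20) .nil))))) .nil)) 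
(.lf (nat_lit 180701) (.g (nat_lit 2106) (.e (nat_lit 57844) (nat_lit 252) (.e (nat_lit 57371) (nat_lit 2) (.e (nat_lit 90160) (nat_lit 11) (.e (nat_lit 24660) (nat_lit 13) (.e (nat_lit 393229) (nat_lit 9) .nil))))) .nil))) (.nd (nat_lit 6) 
(.lf (nat_lit 180669) (.g (nat_lit 562) (.e (nat_lit 57831) (nat_lit 250) (.e (nat_lit 1296) (nat_lit 96) (.e (nat_lit 131127) (nat_lit 13) .nil))) .nil)) 
(.lf (nat_lit 180733) (.g (nat_lit 4529) (.e (nat_lit 57844) (nat_lit 252) (.e (nat_lit 57377) (nat_lit 3) (.e (nat_lit 98317) (nat_lit 9) (.e (nat_lit 336026) (nat_lit 3) .nil)))) .nil))))))) (.nd (nat_lit 2) (.nd (nat_lit 3) (.nd (nat_lit 4) (.nd (nat_lit 5) (.nd (nat_lit 6) 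
(.lf (nat_lit 180611) (.g (nat_lit 2547) (.e (nat_lit 57830) (nat_lit 250) (.e (nat_lit 1214) (nat_lit 89) (.e (nat_lit 73754) (nat_lit 8) (.e (nat_lit 557105) (nat_lit 14) (.e (nat_lit 180224) (nat_lit 0) (.e (nat_lit 5206) (nat_lit 294) (.e (nat_lit 57389) (nat_lit 5) (.e (nat_lit 114712) (nat_lit 21) .nil)))))))) (.g (nat_lit 4) .nil .nil))) 
(.lf (nat_lit 180675) (.g (nat_lit 916) (.e (nat_lit 57844) (nat_lit 252) (.e (nat_lit 57354) (nat_lit 0) (.e (nat_lit 1799) (nat_lit 119) (.e (nat_lit 516131) (nat_lit 3) .nil)))) .nil))) (.nd (nat_lit 6) 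
(.lf (nat_lit 180643) (.g (nat_lit 394) (.e (nat_lit 57830) (nat_lit 250) (.e (nat_lit 1296) (nat_lit 96) (.e (nat_lit 131107) (nat_lit 9) .nil))) .nil)) 
(.lf (nat_lit 180707) (.g (nat_lit 2012) (.e (nat_lit 57844) (nat_lit 252) (.e (nat_lit 57372) (nat_lit 2) (.e (nat_lit 90160) (nat_lit 11) (.e (nat_lit 24630) (nat_lit 9) .nil)))) .nil)))) (.nd (nat_lit 5) (.nd (nat_lit 6) 
(.lf (nat_lit 180627) (.g (nat_lit 3887) (.e (nat_lit 57830) (nat_lit 250) (.e (nat_lit 1296) (nat_lit 96) (.e (nat_lit 131093) (nat_lit 2) (.e (nat_lit 90170) (nat_lit 13) (.e (nat_lit 172079) (nat_lit 7) (.e (nat_lit 409611) (nat_lit 10) (.e (nat_lit 604) (nat_lit 45) (.e (nat_lit 532501) (nat_lit 1) .nil)))))))) (.g (nat_lit 0) .nil .nil))) 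
(.lf (nat_lit 180691) (.g (nat_lit 2077) (.e (nat_lit 57844) (nat_lit 252) (.e (nat_lit 57371) (nat_lit 2) (.e (nat_lit 90160) (nat_lit 11) (.e (nat_lit 24580) (nat_lit 0) .nil)))) .nil))) (.nd (nat_lit 6) 
(.lf (nat_lit 180659) (.g (nat_lit 2040) (.e (nat_lit 57830) (nat_lit 250) (.e (nat_lit 1296) (nat_lit 96) (.e (nat_lit 131127) (nat_lit 13) (.e (nat_lit 393271) (nat_lit 23) (.e (nat_lit 433920) (nat_lit 20) (.e (nat_lit 114712) (nat_lit 21) .nil)))))) (.g (nat_lit 4) .nil .nil))) 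
(.lf (nat_lit 180723) (.g (nat_lit 1688) (.e (nat_lit 57844) (nat_lit 252) (.e (nat_lit 57375) (nat_lit 2) (.e (nat_lit 90160) (nat_lit 11) (.e (nat_lit 24636) (nat_lit 9) .nil)))) .nil))))) (.nd (nat_lit 4) (.nd (nat_lit 5) (.nd (nat_lit 6) 
(.lf (nat_lit 180619) (.g (nat_lit 2187) (.e (nat_lit 57830) (nat_lit 250) (.e (nat_lit 1224) (nat_lit 90) (.e (nat_lit 81925) (nat_lit 11) (.e (nat_lit 426187) (nat_lit 9) (.e (nat_lit 426446) (nat_lit 20) (.e (nat_lit 114712) (nat_lit 21) .nil)))))) (.g (nat_lit 5) .nil .nil))) 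
(.lf (nat_lit 180683) (.g (nat_lit 1093) (.e (nat_lit 57844) (nat_lit 252) (.e (nat_lit 57371) (nat_lit 2) (.e (nat_lit 90128) (nat_lit 9) (.e (nat_lit 314) (nat_lit 23) .nil)))) .nil))) (.nd (nat_lit 6) 
(.lf (nat_lit 180651) (.g (nat_lit 3388) (.e (nat_lit 57830) (nat_lit 250) (.e (nat_lit 1296) (nat_lit 96) (.e (nat_lit 131109) (nat_lit 9) (.e (nat_lit 336443) (nat_lit 32) (.e (nat_lit 466972) (nat_lit 21) (.e (nat_lit 164330) (nat_lit 230) (.e (nat_lit 171776) (nat_lit 62) .nil))))))) (.g (nat_lit 6) .nil .nil))) 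
(.lf (nat_lit 180715) (.g (nat_lit 2241) (.e (nat_lit 57844) (nat_lit 252) (.e (nat_lit 57375) (nat_lit 2) (.e (nat_lit 90158) (nat_lit 11) (.e (nat_lit 24625) (nat_lit 9) (.e (nat_lit 336454) (nat_lit 34) (.e (nat_lit 483366) (nat_lit 18) .nil)))))) (.g (nat_lit 4) .nil .nil))))) (.nd (nat_lit 5) (.nd (nat_lit 6) 
(.lf (nat_lit 180635) (.g (nat_lit 3046) (.e (nat_lit 57830) (nat_lit 250) (.e (nat_lit 1296) (nat_lit 96) (.e (nat_lit 131102) (nat_lit 7) (.e (nat_lit 319534) (nat_lit 16) (.e (nat_lit 286749) (nat_lit 9) (.e (nat_lit 335997) (nat_lit 1) (.e (nat_lit 57844) (nat_lit 252) (.e (nat_lit 57364) (nat_lit 1) .nil)))))))) (.g (nat_lit 5) .nil .nil))) 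
(.lf (nat_lit 180699) (.g (nat_lit 2191) (.e (nat_lit 57844) (nat_lit 252) (.e (nat_lit 57371) (nat_lit 2) (.e (nat_lit 90160) (nat_lit 11) (.e (nat_lit 24658) (nat_lit 13) (.e (nat_lit 393228) (nat_lit 9) .nil))))) .nil))) (.nd (nat_lit 6) 
(.lf (nat_lit 180667) (.g (nat_lit 1028) (.e (nat_lit 57830) (nat_lit 250) (.e (nat_lit 1296) (nat_lit 96) (.e (nat_lit 131128) (nat_lit 13) (.e (nat_lit 393279) (nat_lit 23) (.e (nat_lit 433920) (nat_lit 20) .nil))))) .nil)) 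
(.lf (nat_lit 180731) (.g (nat_lit 4718) (.e (nat_lit 57844) (nat_lit 252) (.e (nat_lit 57377) (nat_lit 3) (.e (nat_lit 98317) (nat_lit 9) (.e (nat_lit 335895) (nat_lit 0) .nil)))) .nil)))))) (.nd (nat_lit 3) (.nd (nat_lit 4) (.nd (nat_lit 5) (.nd (nat_lit 6) 
(.lf (nat_lit 180615) (.g (nat_lit 653) (.e (nat_lit 57830) (nat_lit 250) (.e (nat_lit 1222) (nat_lit 90) (.e (nat_lit 81925) (nat_lit 11) .nil))) .nil)) 
(.lf (nat_lit 180679) (.g (nat_lit 692) (.e (nat_lit 57844) (nat_lit 252) (.e (nat_lit 57371) (nat_lit 2) (.e (nat_lit 90125) (nat_lit 9) .nil))) .nil))) (.nd (nat_lit 6) 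
(.lf (nat_lit 180647) (.g (nat_lit 669) (.e (nat_lit 57830) (nat_lit 250) (.e (nat_lit 1296) (nat_lit 96) (.e (nat_lit 131109) (nat_lit 9) (.e (nat_lit 336441) (nat_lit 32) .nil)))) .nil)) 
(.lf (nat_lit 180711) (.g (nat_lit 2916) (.e (nat_lit 57844) (nat_lit 252) (.e (nat_lit 57373) (nat_lit 2) (.e (nat_lit 90158) (nat_lit 11) (.e (nat_lit 24655) (nat_lit 13) (.e (nat_lit 393229) (nat_lit 9) .nil))))) .nil)))) (.nd (nat_lit 5) (.nd (nat_lit 6) 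
(.lf (nat_lit 180631) (.g (nat_lit 1435) (.e (nat_lit 57830) (nat_lit 250) (.e (nat_lit 1296) (nat_lit 96) (.e (nat_lit 131094) (nat_lit 2) (.e (nat_lit 90172) (nat_lit 14) (.e (nat_lit 180285) (nat_lit 45) .nil))))) .nil)) 
(.lf (nat_lit 180695) (.g (nat_lit 2152) (.e (nat_lit 57844) (nat_lit 252) (.e (nat_lit 57371) (nat_lit 2) (.e (nat_lit 90160) (nat_lit 11) (.e (nat_lit 24631) (nat_lit 9) .nil)))) .nil))) (.nd (nat_lit 6) 
(.lf (nat_lit 180663) (.g (nat_lit 759) (.e (nat_lit 57830) (nat_lit 250) (.e (nat_lit 1296) (nat_lit 96) (.e (nat_lit 131128) (nat_lit 13) (.e (nat_lit 393274) (nat_lit 23) .nil)))) .nil)) 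
(.lf (nat_lit 180727) (.g (nat_lit 2404) (.e (nat_lit 57844) (nat_lit 252) (.e (nat_lit 57375) (nat_lit 2) (.e (nat_lit 90160) (nat_lit 11) (.e (nat_lit 24659) (nat_lit 13) (.e (nat_lit 393225) (nat_lit 9) .nil))))) .nil))))) (.nd (nat_lit 4) (.nd (nat_lit 5) (.nd (nat_lit 6) 
(.lf (nat_lit 180623) (.g (nat_lit 700) (.e (nat_lit 57830) (nat_lit 250) (.e (nat_lit 1224) (nat_lit 90) (.e (nat_lit 81925) (nat_lit 11) (.e (nat_lit 426308) (nat_lit 12) .nil)))) .nil)) 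
(.lf (nat_lit 180687) (.g (nat_lit 418) (.e (nat_lit 57844) (nat_lit 252) (.e (nat_lit 57371) (nat_lit 2) (.e (nat_lit 90156) (nat_lit 11) .nil))) .nil))) (.nd (nat_lit 6) 
(.lf (nat_lit 180655) (.g (nat_lit 572) (.e (nat_lit 57830) (nat_lit 250) (.e (nat_lit 1296) (nat_lit 96) (.e (nat_lit 131125) (nat_lit 13) (.e (nat_lit 393279) (nat_lit 23) .nil)))) .nil)) 
(.lf (nat_lit 180719) (.g (nat_lit 2387) (.e (nat_lit 57844) (nat_lit 252) (.e (nat_lit 57375) (nat_lit 2) (.e (nat_lit 90160) (nat_lit 11) (.e (nat_lit 24625) (nat_lit 9) (.e (nat_lit 336454) (nat_lit 34) .nil))))) .nil)))) (.nd (nat_lit 5) (.nd (nat_lit 6) 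
(.lf (nat_lit 180639) (.g (nat_lit 3255) (.e (nat_lit 57830) (nat_lit 250) (.e (nat_lit 1296) (nat_lit 96) (.e (nat_lit 131105) (nat_lit 9) (.e (nat_lit 336443) (nat_lit 32) (.e (nat_lit 466972) (nat_lit 21) (.e (nat_lit 164330) (nat_lit 230) (.e (nat_lit 171776) (nat_lit 62) .nil))))))) (.g (nat_lit 6) .nil .nil))) 
(.lf (nat_lit 180703) (.g (nat_lit 2305) (.e (nat_lit 57844) (nat_lit 252) (.e (nat_lit 57372) (nat_lit 2) (.e (nat_lit 90158) (nat_lit 11) (.e (nat_lit 24625) (nat_lit 9) (.e (nat_lit 336454) (nat_lit 34) (.e (nat_lit 483366) (nat_lit 18) .nil)))))) (.g (nat_lit 4) .nil .nil)))) (.nd (nat_lit 6) 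
(.lf (nat_lit 180671) (.g (nat_lit 834) (.e (nat_lit 57832) (nat_lit 250) (.e (nat_lit 1222) (nat_lit 90) (.e (nat_lit 81927) (nat_lit 11) (.e (nat_lit 426307) (nat_lit 12) (.e (nat_lit 475212) (nat_lit 42) .nil))))) .nil)) 
(.lf (nat_lit 180735) (.g (nat_lit 4521) (.e (nat_lit 57844) (nat_lit 252) (.e (nat_lit 57377) (nat_lit 3) (.e (nat_lit 98317) (nat_lit 9) (.e (nat_lit 336073) (nat_lit 9) .nil)))) .nil)))))))))

noncomputable def tv2422 : DT := (.nd (nat_lit 0) (.nd (nat_lit 1) (.nd (nat_lit 2) (.nd (nat_lit 3) (.nd (nat_lit 4) (.nd (nat_lit 5) (.nd (nat_lit 6) 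
(.lf (nat_lit 180736) (.g (nat_lit 4002) (.e (nat_lit 57844) (nat_lit 252) (.e (nat_lit 57377) (nat_lit 3) (.e (nat_lit 98317) (nat_lit 9) (.e (nat_lit 336074) (nat_lit 9) .nil)))) .nil)) 
(.lf (nat_lit 180800) (.g (nat_lit 1820) (.e (nat_lit 57844) (nat_lit 252) (.e (nat_lit 57411) (nat_lit 12) (.e (nat_lit 336211) (nat_lit 13) (.e (nat_lit 393271) (nat_lit 23) (.e (nat_lit 426446) (nat_lit 20) .nil))))) .nil))) (.nd (nat_lit 6) 
(.lf (nat_lit 180768) (.g (nat_lit 1905) (.e (nat_lit 57844) (nat_lit 252) (.e (nat_lit 57379) (nat_lit 3) (.e (nat_lit 98317) (nat_lit 9) (.e (nat_lit 336088) (nat_lit 9) (.e (nat_lit 336454) (nat_lit 34) .nil))))) .nil)) 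
(.lf (nat_lit 180832) (.g (nat_lit 670) (.e (nat_lit 57844) (nat_lit 252) (.e (nat_lit 57423) (nat_lit 14) (.e (nat_lit 360192) (nat_lit 16) .nil))) .nil)))) (.nd (nat_lit 5) (.nd (nat_lit 6) 
(.lf (nat_lit 180752) (.g (nat_lit 2594) (.e (nat_lit 57844) (nat_lit 252) (.e (nat_lit 57377) (nat_lit 3) (.e (nat_lit 98317) (nat_lit 9) (.e (nat_lit 336214) (nat_lit 13) .nil)))) .nil)) 
(.lf (nat_lit 180816) (.g (nat_lit 1904) (.e (nat_lit 57844) (nat_lit 252) (.e (nat_lit 57412) (nat_lit 12) (.e (nat_lit 336061) (nat_lit 7) (.e (nat_lit 319531) (nat_lit 16) (.e (nat_lit 286755) (nat_lit 10) .nil))))) .nil))) (.nd (nat_lit 6) 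
(.lf (nat_lit 180784) (.g (nat_lit 2228) (.e (nat_lit 57844) (nat_lit 252) (.e (nat_lit 57406) (nat_lit 12) (.e (nat_lit 336454) (nat_lit 34) (.e (nat_lit 483405) (nat_lit 26) .nil)))) .nil)) 
(.lf (nat_lit 180848) (.g (nat_lit 561) (.e (nat_lit 57844) (nat_lit 252) (.e (nat_lit 57436) (nat_lit 17) (.e (nat_lit 376839) (nat_lit 11) .nil))) .nil))))) (.nd (nat_lit 4) (.nd (nat_lit 5) (.nd (nat_lit 6) 
(.lf (nat_lit 180744) (.g (nat_lit 3052) (.e (nat_lit 57844) (nat_lit 252) (.e (nat_lit 57377) (nat_lit 3) (.e (nat_lit 98317) (nat_lit 9) (.e (nat_lit 336086) (nat_lit 9) (.e (nat_lit 336456) (nat_lit 34) .nil))))) .nil)) 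
(.lf (nat_lit 180808) (.g (nat_lit 1987) (.e (nat_lit 57844) (nat_lit 252) (.e (nat_lit 57412) (nat_lit 12) (.e (nat_lit 336060) (nat_lit 7) (.e (nat_lit 319534) (nat_lit 16) (.e (nat_lit 286749) (nat_lit 9) (.e (nat_lit 335997) (nat_lit 1) (.e (nat_lit 57848) (nat_lit 252) (.e (nat_lit 57367) (nat_lit 1) .nil)))))))) (.g (nat_lit 4) .nil .nil)))) (.nd (nat_lit 6) 
(.lf (nat_lit 180776) (.g (nat_lit 1589) (.e (nat_lit 57844) (nat_lit 252) (.e (nat_lit 57404) (nat_lit 12) (.e (nat_lit 336060) (nat_lit 7) (.e (nat_lit 319533) (nat_lit 16) (.e (nat_lit 286753) (nat_lit 10) (.e (nat_lit 344097) (nat_lit 18) (.e (nat_lit 5195) (nat_lit 294) (.e (nat_lit 57367) (nat_lit 1) .nil)))))))) (.g (nat_lit 4) .nil .nil))) 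
(.lf (nat_lit 180840) (.g (nat_lit 458) (.e (nat_lit 57844) (nat_lit 252) (.e (nat_lit 57431) (nat_lit 16) (.e (nat_lit 368676) (nat_lit 21) (.e (nat_lit 516174) (nat_lit 14) .nil)))) .nil)))) (.nd (nat_lit 5) (.nd (nat_lit 6) 
(.lf (nat_lit 180760) (.g (nat_lit 2001) (.e (nat_lit 57844) (nat_lit 252) (.e (nat_lit 57379) (nat_lit 3) (.e (nat_lit 98312) (nat_lit 9) (.e (nat_lit 336223) (nat_lit 13) (.e (nat_lit 393229) (nat_lit 9) .nil))))) .nil)) 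
(.lf (nat_lit 180824) (.g (nat_lit 547) (.e (nat_lit 57844) (nat_lit 252) (.e (nat_lit 57412) (nat_lit 12) (.e (nat_lit 336217) (nat_lit 13) .nil))) .nil))) (.nd (nat_lit 6) 
(.lf (nat_lit 180792) (.g (nat_lit 2664) (.e (nat_lit 57844) (nat_lit 252) (.e (nat_lit 57406) (nat_lit 12) (.e (nat_lit 336456) (nat_lit 34) (.e (nat_lit 483403) (nat_lit 26) (.e (nat_lit 385066) (nat_lit 26) (.e (nat_lit 532502) (nat_lit 1) .nil)))))) (.g (nat_lit 4) .nil .nil))) 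
(.lf (nat_lit 180856) (.g (nat_lit 2467) (.e (nat_lit 57844) (nat_lit 252) (.e (nat_lit 57436) (nat_lit 17) (.e (nat_lit 376842) (nat_lit 11) (.e (nat_lit 426306) (nat_lit 12) (.e (nat_lit 475214) (nat_lit 42) (.e (nat_lit 720932) (nat_lit 21) .nil)))))) (.g (nat_lit 5) .nil .nil))))))) (.nd (nat_lit 3) (.nd (nat_lit 4) (.nd (nat_lit 5) (.nd (nat_lit 6) 
(.lf (nat_lit 180740) (.g (nat_lit 2100) (.e (nat_lit 57844) (nat_lit 252) (.e (nat_lit 57377) (nat_lit 3) (.e (nat_lit 98317) (nat_lit 9) (.e (nat_lit 336078) (nat_lit 9) (.e (nat_lit 336454) (nat_lit 34) .nil))))) .nil)) 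
(.lf (nat_lit 180804) (.g (nat_lit 3850) (.e (nat_lit 57844) (nat_lit 252) (.e (nat_lit 57412) (nat_lit 12) (.e (nat_lit 336054) (nat_lit 7) (.e (nat_lit 319534) (nat_lit 16) (.e (nat_lit 286756) (nat_lit 10) (.e (nat_lit 344097) (nat_lit 18) (.e (nat_lit 5195) (nat_lit 294) (.e (nat_lit 57367) (nat_lit 1) .nil)))))))) (.g (nat_lit 7) .nil .nil)))) (.nd (nat_lit 6) 
(.lf (nat_lit 180772) (.g (nat_lit 2613) (.e (nat_lit 57844) (nat_lit 252) (.e (nat_lit 57388) (nat_lit 5) (.e (nat_lit 114698) (nat_lit 11) (.e (nat_lit 426107) (nat_lit 1) (.e (nat_lit 164421) (nat_lit 272) .nil))))) .nil)) 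
(.lf (nat_lit 180836) (.g (nat_lit 1931) (.e (nat_lit 57844) (nat_lit 252) (.e (nat_lit 57427) (nat_lit 15) (.e (nat_lit 360451) (nat_lit 0) (.e (nat_lit 6923) (nat_lit 371) .nil)))) .nil)))) (.nd (nat_lit 5) (.nd (nat_lit 6) 
(.lf (nat_lit 180756) (.g (nat_lit 3476) (.e (nat_lit 57844) (nat_lit 252) (.e (nat_lit 57377) (nat_lit 3) (.e (nat_lit 98317) (nat_lit 9) (.e (nat_lit 336221) (nat_lit 13) .nil)))) .nil)) 
(.lf (nat_lit 180820) (.g (nat_lit 2575) (.e (nat_lit 57844) (nat_lit 252) (.e (nat_lit 57412) (nat_lit 12) (.e (nat_lit 336061) (nat_lit 7) (.e (nat_lit 319534) (nat_lit 16) (.e (nat_lit 286751) (nat_lit 10) .nil))))) .nil))) (.nd (nat_lit 6) 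
(.lf (nat_lit 180788) (.g (nat_lit 1957) (.e (nat_lit 57844) (nat_lit 252) (.e (nat_lit 57406) (nat_lit 12) (.e (nat_lit 336456) (nat_lit 34) (.e (nat_lit 483345) (nat_lit 17) .nil)))) .nil)) 
(.lf (nat_lit 180852) (.g (nat_lit 3676) (.e (nat_lit 57844) (nat_lit 252) (.e (nat_lit 57436) (nat_lit 17) (.e (nat_lit 376842) (nat_lit 11) (.e (nat_lit 426188) (nat_lit 9) (.e (nat_lit 426448) (nat_lit 20) (.e (nat_lit 114710) (nat_lit 21) .nil)))))) (.g (nat_lit 6) .nil .nil)))))) (.nd (nat_lit 4) (.nd (nat_lit 5) (.nd (nat_lit 6) 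
(.lf (nat_lit 180748) (.g (nat_lit 4643) (.e (nat_lit 57844) (nat_lit 252) (.e (nat_lit 57377) (nat_lit 3) (.e (nat_lit 98317) (nat_lit 9) (.e (nat_lit 336091) (nat_lit 9) .nil)))) .nil)) 
(.lf (nat_lit 180812) (.g (nat_lit 1019) (.e (nat_lit 57844) (nat_lit 252) (.e (nat_lit 57412) (nat_lit 12) (.e (nat_lit 336061) (nat_lit 7) (.e (nat_lit 319531) (nat_lit 16) (.e (nat_lit 286748) (nat_lit 9) .nil))))) .nil))) (.nd (nat_lit 6) 
(.lf (nat_lit 180780) (.g (nat_lit 2069) (.e (nat_lit 57844) (nat_lit 252) (.e (nat_lit 57406) (nat_lit 12) (.e (nat_lit 336454) (nat_lit 34) (.e (nat_lit 483383) (nat_lit 23) (.e (nat_lit 336326) (nat_lit 18) .nil))))) .nil)) 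
(.lf (nat_lit 180844) (.g (nat_lit 1693) (.e (nat_lit 57844) (nat_lit 252) (.e (nat_lit 57435) (nat_lit 17) (.e (nat_lit 376842) (nat_lit 11) (.e (nat_lit 426258) (nat_lit 9) .nil)))) .nil)))) (.nd (nat_lit 5) (.nd (nat_lit 6) 
(.lf (nat_lit 180764) (.g (nat_lit 2074) (.e (nat_lit 57844) (nat_lit 252) (.e (nat_lit 57379) (nat_lit 3) (.e (nat_lit 98313) (nat_lit 9) (.e (nat_lit 336212) (nat_lit 13) (.e (nat_lit 393225) (nat_lit 9) .nil))))) .nil)) 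
(.lf (nat_lit 180828) (.g (nat_lit 728) (.e (nat_lit 57844) (nat_lit 252) (.e (nat_lit 57423) (nat_lit 14) (.e (nat_lit 352273) (nat_lit 11) .nil))) .nil))) (.nd (nat_lit 6) 
(.lf (nat_lit 180796) (.g (nat_lit 4182) (.e (nat_lit 57844) (nat_lit 252) (.e (nat_lit 57408) (nat_lit 12) (.e (nat_lit 336454) (nat_lit 34) (.e (nat_lit 483408) (nat_lit 26) (.e (nat_lit 385067) (nat_lit 26) .nil))))) .nil)) 
(.lf (nat_lit 180860) (.g (nat_lit 737) (.e (nat_lit 57844) (nat_lit 252) (.e (nat_lit 57437) (nat_lit 17) (.e (nat_lit 376840) (nat_lit 11) (.e (nat_lit 426230) (nat_lit 9) .nil)))) .nil))))))) (.nd (nat_lit 2) (.nd (nat_lit 3) (.nd (nat_lit 4) (.nd (nat_lit 5) (.nd (nat_lit 6) 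
(.lf (nat_lit 180738) (.g (nat_lit 2338) (.e (nat_lit 57844) (nat_lit 252) (.e (nat_lit 57377) (nat_lit 3) (.e (nat_lit 98317) (nat_lit 9) (.e (nat_lit 336076) (nat_lit 9) (.e (nat_lit 336456) (nat_lit 34) .nil))))) .nil)) 
(.lf (nat_lit 180802) (.g (nat_lit 1840) (.e (nat_lit 57844) (nat_lit 252) (.e (nat_lit 57411) (nat_lit 12) (.e (nat_lit 336211) (nat_lit 13) (.e (nat_lit 393273) (nat_lit 23) (.e (nat_lit 426446) (nat_lit 20) .nil))))) .nil))) (.nd (nat_lit 6) 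
(.lf (nat_lit 180770) (.g (nat_lit 260) (.e (nat_lit 57844) (nat_lit 252) (.e (nat_lit 57382) (nat_lit 4) (.e (nat_lit 106536) (nat_lit 11) .nil))) .nil)) 
(.lf (nat_lit 180834) (.g (nat_lit 1509) (.e (nat_lit 57844) (nat_lit 252) (.e (nat_lit 57424) (nat_lit 14) (.e (nat_lit 352274) (nat_lit 11) (.e (nat_lit 426190) (nat_lit 9) (.e (nat_lit 426448) (nat_lit 20) .nil))))) .nil)))) (.nd (nat_lit 5) (.nd (nat_lit 6) 
(.lf (nat_lit 180754) (.g (nat_lit 2148) (.e (nat_lit 57844) (nat_lit 252) (.e (nat_lit 57377) (nat_lit 3) (.e (nat_lit 98317) (nat_lit 9) (.e (nat_lit 336215) (nat_lit 13) (.e (nat_lit 393229) (nat_lit 9) .nil))))) .nil)) 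
(.lf (nat_lit 180818) (.g (nat_lit 2999) (.e (nat_lit 57844) (nat_lit 252) (.e (nat_lit 57412) (nat_lit 12) (.e (nat_lit 336061) (nat_lit 7) (.e (nat_lit 319533) (nat_lit 16) (.e (nat_lit 286753) (nat_lit 10) (.e (nat_lit 344097) (nat_lit 18) (.e (nat_lit 5194) (nat_lit 294) (.e (nat_lit 57367) (nat_lit 1) .nil)))))))) (.g (nat_lit 5) .nil .nil)))) (.nd (nat_lit 6) 
(.lf (nat_lit 180786) (.g (nat_lit 3098) (.e (nat_lit 57844) (nat_lit 252) (.e (nat_lit 57406) (nat_lit 12) (.e (nat_lit 336454) (nat_lit 34) (.e (nat_lit 483407) (nat_lit 26) .nil)))) .nil)) 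
(.lf (nat_lit 180850) (.g (nat_lit 398) (.e (nat_lit 57844) (nat_lit 252) (.e (nat_lit 57436) (nat_lit 17) (.e (nat_lit 376842) (nat_lit 11) .nil))) .nil))))) (.nd (nat_lit 4) (.nd (nat_lit 5) (.nd (nat_lit 6) 
(.lf (nat_lit 180746) (.g (nat_lit 1570) (.e (nat_lit 57844) (nat_lit 252) (.e (nat_lit 57377) (nat_lit 3) (.e (nat_lit 98317) (nat_lit 9) (.e (nat_lit 336088) (nat_lit 9) .nil)))) .nil)) 
(.lf (nat_lit 180810) (.g (nat_lit 1851) (.e (nat_lit 57844) (nat_lit 252) (.e (nat_lit 57412) (nat_lit 12) (.e (nat_lit 336061) (nat_lit 7) (.e (nat_lit 319531) (nat_lit 16) (.e (nat_lit 286742) (nat_lit 9) .nil))))) .nil))) (.nd (nat_lit 6) 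
(.lf (nat_lit 180778) (.g (nat_lit 379) (.e (nat_lit 57844) (nat_lit 252) (.e (nat_lit 57406) (nat_lit 12) (.e (nat_lit 336367) (nat_lit 27) .nil))) .nil)) 
(.lf (nat_lit 180842) (.g (nat_lit 1883) (.e (nat_lit 57844) (nat_lit 252) (.e (nat_lit 57435) (nat_lit 17) (.e (nat_lit 376842) (nat_lit 11) (.e (nat_lit 426196) (nat_lit 9) (.e (nat_lit 426446) (nat_lit 20) .nil))))) .nil)))) (.nd (nat_lit 5) (.nd (nat_lit 6) 
(.lf (nat_lit 180762) (.g (nat_lit 1954) (.e (nat_lit 57844) (nat_lit 252) (.e (nat_lit 57379) (nat_lit 3) (.e (nat_lit 98313) (nat_lit 9) (.e (nat_lit 336076) (nat_lit 9) (.e (nat_lit 336454) (nat_lit 34) .nil))))) .nil)) 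
(.lf (nat_lit 180826) (.g (nat_lit 1635) (.e (nat_lit 57844) (nat_lit 252) (.e (nat_lit 57413) (nat_lit 12) (.e (nat_lit 336060) (nat_lit 7) (.e (nat_lit 319533) (nat_lit 16) (.e (nat_lit 286753) (nat_lit 10) (.e (nat_lit 344097) (nat_lit 18) (.e (nat_lit 5195) (nat_lit 294) (.e (nat_lit 57367) (nat_lit 1) .nil)))))))) (.g (nat_lit 4) .nil .nil)))) (.nd (nat_lit 6) 
(.lf (nat_lit 180794) (.g (nat_lit 3012) (.e (nat_lit 57844) (nat_lit 252) (.e (nat_lit 57408) (nat_lit 12) (.e (nat_lit 336454) (nat_lit 34) (.e (nat_lit 483385) (nat_lit 23) .nil)))) .nil)) 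
(.lf (nat_lit 180858) (.g (nat_lit 2802) (.e (nat_lit 57844) (nat_lit 252) (.e (nat_lit 57436) (nat_lit 17) (.e (nat_lit 376842) (nat_lit 11) (.e (nat_lit 426316) (nat_lit 12) (.e (nat_lit 475214) (nat_lit 42) (.e (nat_lit 720933) (nat_lit 21) .nil)))))) (.g (nat_lit 5) .nil .nil))))))) (.nd (nat_lit 3) (.nd (nat_lit 4) (.nd (nat_lit 5) (.nd (nat_lit 6) 
(.lf (nat_lit 180742) (.g (nat_lit 3459) (.e (nat_lit 57844) (nat_lit 252) (.e (nat_lit 57377) (nat_lit 3) (.e (nat_lit 98317) (nat_lit 9) (.e (nat_lit 336085) (nat_lit 9) .nil)))) .nil)) 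
(.lf (nat_lit 180806) (.g (nat_lit 2375) (.e (nat_lit 57844) (nat_lit 252) (.e (nat_lit 57412) (nat_lit 12) (.e (nat_lit 336058) (nat_lit 7) (.e (nat_lit 319534) (nat_lit 16) (.e (nat_lit 286749) (nat_lit 9) (.e (nat_lit 335997) (nat_lit 1) (.e (nat_lit 57848) (nat_lit 252) (.e (nat_lit 57367) (nat_lit 1) .nil)))))))) (.g (nat_lit 5) .nil .nil)))) (.nd (nat_lit 6) 
(.lf (nat_lit 180774) (.g (nat_lit 1760) (.e (nat_lit 57844) (nat_lit 252) (.e (nat_lit 57389) (nat_lit 5) (.e (nat_lit 114698) (nat_lit 11) (.e (nat_lit 426186) (nat_lit 9) .nil)))) .nil)) 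
(.lf (nat_lit 180838) (.g (nat_lit 623) (.e (nat_lit 57844) (nat_lit 252) (.e (nat_lit 57427) (nat_lit 15) (.e (nat_lit 360478) (nat_lit 12) .nil))) .nil)))) (.nd (nat_lit 5) (.nd (nat_lit 6) 
(.lf (nat_lit 180758) (.g (nat_lit 2276) (.e (nat_lit 57844) (nat_lit 252) (.e (nat_lit 57377) (nat_lit 3) (.e (nat_lit 98317) (nat_lit 9) (.e (nat_lit 336222) (nat_lit 13) (.e (nat_lit 393229) (nat_lit 9) .nil))))) .nil)) 
(.lf (nat_lit 180822) (.g (nat_lit 547) (.e (nat_lit 57844) (nat_lit 252) (.e (nat_lit 57412) (nat_lit 12) (.e (nat_lit 336080) (nat_lit 9) .nil))) .nil))) (.nd (nat_lit 6) 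
(.lf (nat_lit 180790) (.g (nat_lit 1476) (.e (nat_lit 57844) (nat_lit 252) (.e (nat_lit 57406) (nat_lit 12) (.e (nat_lit 336456) (nat_lit 34) (.e (nat_lit 483383) (nat_lit 23) .nil)))) .nil)) 
(.lf (nat_lit 180854) (.g (nat_lit 1489) (.e (nat_lit 57844) (nat_lit 252) (.e (nat_lit 57436) (nat_lit 17) (.e (nat_lit 376842) (nat_lit 11) (.e (nat_lit 426213) (nat_lit 9) .nil)))) .nil))))) (.nd (nat_lit 4) (.nd (nat_lit 5) (.nd (nat_lit 6) 
(.lf (nat_lit 180750) (.g (nat_lit 4696) (.e (nat_lit 57844) (nat_lit 252) (.e (nat_lit 57377) (nat_lit 3) (.e (nat_lit 98317) (nat_lit 9) (.e (nat_lit 336150) (nat_lit 9) .nil)))) .nil)) 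
(.lf (nat_lit 180814) (.g (nat_lit 2264) (.e (nat_lit 57844) (nat_lit 252) (.e (nat_lit 57412) (nat_lit 12) (.e (nat_lit 336061) (nat_lit 7) (.e (nat_lit 319531) (nat_lit 16) (.e (nat_lit 286752) (nat_lit 10) (.e (nat_lit 344097) (nat_lit 18) (.e (nat_lit 5195) (nat_lit 294) (.e (nat_lit 57367) (nat_lit 1) .nil)))))))) (.g (nat_lit 4) .nil .nil)))) (.nd (nat_lit 6) 
(.lf (nat_lit 180782) (.g (nat_lit 2188) (.e (nat_lit 57844) (nat_lit 252) (.e (nat_lit 57406) (nat_lit 12) (.e (nat_lit 336454) (nat_lit 34) (.e (nat_lit 483403) (nat_lit 26) (.e (nat_lit 385066) (nat_lit 26) .nil))))) .nil)) 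
(.lf (nat_lit 180846) (.g (nat_lit 516) (.e (nat_lit 57844) (nat_lit 252) (.e (nat_lit 57436) (nat_lit 17) (.e (nat_lit 376838) (nat_lit 11) .nil))) .nil)))) (.nd (nat_lit 5) (.nd (nat_lit 6) 
(.lf (nat_lit 180766) (.g (nat_lit 2151) (.e (nat_lit 57844) (nat_lit 252) (.e (nat_lit 57379) (nat_lit 3) (.e (nat_lit 98317) (nat_lit 9) (.e (nat_lit 336076) (nat_lit 9) (.e (nat_lit 336456) (nat_lit 34) .nil))))) .nil)) 
(.lf (nat_lit 180830) (.g (nat_lit 2845) (.e (nat_lit 57844) (nat_lit 252) (.e (nat_lit 57423) (nat_lit 14) (.e (nat_lit 352277) (nat_lit 11) (.e (nat_lit 426308) (nat_lit 12) (.e (nat_lit 475212) (nat_lit 42) (.e (nat_lit 720933) (nat_lit 21) .nil)))))) (.g (nat_lit 5) .nil .nil)))) (.nd (nat_lit 6) 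
(.lf (nat_lit 180798) (.g (nat_lit 3597) (.e (nat_lit 57844) (nat_lit 252) (.e (nat_lit 57409) (nat_lit 12) (.e (nat_lit 336454) (nat_lit 34) (.e (nat_lit 483408) (nat_lit 26) (.e (nat_lit 385067) (nat_lit 26) (.e (nat_lit 532503) (nat_lit 1) .nil)))))) (.g (nat_lit 5) .nil .nil))) 
(.lf (nat_lit 180862) (.g (nat_lit 2364) (.e (nat_lit 57844) (nat_lit 252) (.e (nat_lit 57437) (nat_lit 17) (.e (nat_lit 376842) (nat_lit 11) (.e (nat_lit 426188) (nat_lit 9) (.e (nat_lit 426446) (nat_lit 20) .nil))))) .nil)))))))) (.nd (nat_lit 1) (.nd (nat_lit 2) (.nd (nat_lit 3) (.nd (nat_lit 4) (.nd (nat_lit 5) (.nd (nat_lit 6) 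
(.lf (nat_lit 180737) (.g (nat_lit 4256) (.e (nat_lit 57844) (nat_lit 252) (.e (nat_lit 57377) (nat_lit 3) (.e (nat_lit 98317) (nat_lit 9) (.e (nat_lit 336075) (nat_lit 9) .nil)))) .nil)) 
(.lf (nat_lit 180801) (.g (nat_lit 2143) (.e (nat_lit 57844) (nat_lit 252) (.e (nat_lit 57411) (nat_lit 12) (.e (nat_lit 336211) (nat_lit 13) (.e (nat_lit 393273) (nat_lit 23) (.e (nat_lit 426364) (nat_lit 15) (.e (nat_lit 2184) (nat_lit 144) (.e (nat_lit 720933) (nat_lit 21) .nil))))))) (.g (nat_lit 4) .nil .nil)))) (.nd (nat_lit 6) 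
(.lf (nat_lit 180769) (.g (nat_lit 2183) (.e (nat_lit 57844) (nat_lit 252) (.e (nat_lit 57382) (nat_lit 4) (.e (nat_lit 106534) (nat_lit 11) (.e (nat_lit 16438) (nat_lit 9) (.e (nat_lit 426556) (nat_lit 32) (.e (nat_lit 376859) (nat_lit 21) .nil)))))) (.g (nat_lit 4) .nil .nil))) 
(.lf (nat_lit 180833) (.g (nat_lit 654) (.e (nat_lit 57844) (nat_lit 252) (.e (nat_lit 57424) (nat_lit 14) (.e (nat_lit 352273) (nat_lit 11) .nil))) .nil)))) (.nd (nat_lit 5) (.nd (nat_lit 6) 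
(.lf (nat_lit 180753) (.g (nat_lit 2917) (.e (nat_lit 57844) (nat_lit 252) (.e (nat_lit 57377) (nat_lit 3) (.e (nat_lit 98317) (nat_lit 9) (.e (nat_lit 336214) (nat_lit 13) (.e (nat_lit 393229) (nat_lit 9) .nil))))) .nil)) 
(.lf (nat_lit 180817) (.g (nat_lit 2930) (.e (nat_lit 57844) (nat_lit 252) (.e (nat_lit 57412) (nat_lit 12) (.e (nat_lit 336061) (nat_lit 7) (.e (nat_lit 319531) (nat_lit 16) (.e (nat_lit 286756) (nat_lit 10) (.e (nat_lit 344097) (nat_lit 18) (.e (nat_lit 5194) (nat_lit 294) (.e (nat_lit 57367) (nat_lit 1) .nil)))))))) (.g (nat_lit 5) .nil .nil)))) (.nd (nat_lit 6) 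
(.lf (nat_lit 180785) (.g (nat_lit 2241) (.e (nat_lit 57844) (nat_lit 252) (.e (nat_lit 57406) (nat_lit 12) (.e (nat_lit 336454) (nat_lit 34) (.e (nat_lit 483406) (nat_lit 26) (.e (nat_lit 385066) (nat_lit 26) .nil))))) .nil)) 
(.lf (nat_lit 180849) (.g (nat_lit 561) (.e (nat_lit 57844) (nat_lit 252) (.e (nat_lit 57436) (nat_lit 17) (.e (nat_lit 376841) (nat_lit 11) .nil))) .nil))))) (.nd (nat_lit 4) (.nd (nat_lit 5) (.nd (nat_lit 6) 
(.lf (nat_lit 180745) (.g (nat_lit 3400) (.e (nat_lit 57844) (nat_lit 252) (.e (nat_lit 57377) (nat_lit 3) (.e (nat_lit 98317) (nat_lit 9) (.e (nat_lit 336087) (nat_lit 9) .nil)))) .nil)) 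
(.lf (nat_lit 180809) (.g (nat_lit 2272) (.e (nat_lit 57844) (nat_lit 252) (.e (nat_lit 57412) (nat_lit 12) (.e (nat_lit 336060) (nat_lit 7) (.e (nat_lit 319534) (nat_lit 16) (.e (nat_lit 286756) (nat_lit 10) (.e (nat_lit 344097) (nat_lit 18) (.e (nat_lit 5194) (nat_lit 294) (.e (nat_lit 57367) (nat_lit 1) .nil)))))))) (.g (nat_lit 5) .nil .nil)))) (.nd (nat_lit 6) 
(.lf (nat_lit 180777) (.g (nat_lit 1986) (.e (nat_lit 57844) (nat_lit 252) (.e (nat_lit 57406) (nat_lit 12) (.e (nat_lit 336316) (nat_lit 17) (.e (nat_lit 196668) (nat_lit 14) (.e (nat_lit 73794) (nat_lit 46) .nil))))) .nil)) 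
(.lf (nat_lit 180841) (.g (nat_lit 1954) (.e (nat_lit 57844) (nat_lit 252) (.e (nat_lit 57435) (nat_lit 17) (.e (nat_lit 376842) (nat_lit 11) (.e (nat_lit 426189) (nat_lit 9) (.e (nat_lit 426446) (nat_lit 20) .nil))))) .nil)))) (.nd (nat_lit 5) (.nd (nat_lit 6) 
(.lf (nat_lit 180761) (.g (nat_lit 858) (.e (nat_lit 57844) (nat_lit 252) (.e (nat_lit 57379) (nat_lit 3) (.e (nat_lit 98313) (nat_lit 9) .nil))) .nil)) 
(.lf (nat_lit 180825) (.g (nat_lit 687) (.e (nat_lit 57844) (nat_lit 252) (.e (nat_lit 57412) (nat_lit 12) (.e (nat_lit 336219) (nat_lit 13) (.e (nat_lit 393292) (nat_lit 26) .nil)))) .nil))) (.nd (nat_lit 6) 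
(.lf (nat_lit 180793) (.g (nat_lit 1488) (.e (nat_lit 57844) (nat_lit 252) (.e (nat_lit 57408) (nat_lit 12) (.e (nat_lit 336454) (nat_lit 34) (.e (nat_lit 483380) (nat_lit 23) (.e (nat_lit 336325) (nat_lit 18) .nil))))) .nil)) 
(.lf (nat_lit 180857) (.g (nat_lit 3118) (.e (nat_lit 57844) (nat_lit 252) (.e (nat_lit 57436) (nat_lit 17) (.e (nat_lit 376842) (nat_lit 11) (.e (nat_lit 426314) (nat_lit 12) (.e (nat_lit 475212) (nat_lit 42) (.e (nat_lit 720933) (nat_lit 21) .nil)))))) (.g (nat_lit 5) .nil .nil))))))) (.nd (nat_lit 3) (.nd (nat_lit 4) (.nd (nat_lit 5) (.nd (nat_lit 6) 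
(.lf (nat_lit 180741) (.g (nat_lit 3986) (.e (nat_lit 57844) (nat_lit 252) (.e (nat_lit 57377) (nat_lit 3) (.e (nat_lit 98317) (nat_lit 9) (.e (nat_lit 336084) (nat_lit 9) .nil)))) .nil)) 
(.lf (nat_lit 180805) (.g (nat_lit 2361) (.e (nat_lit 57844) (nat_lit 252) (.e (nat_lit 57412) (nat_lit 12) (.e (nat_lit 336058) (nat_lit 7) (.e (nat_lit 319533) (nat_lit 16) (.e (nat_lit 286753) (nat_lit 10) (.e (nat_lit 344097) (nat_lit 18) (.e (nat_lit 5194) (nat_lit 294) (.e (nat_lit 57367) (nat_lit 1) .nil)))))))) (.g (nat_lit 5) .nil .nil)))) (.nd (nat_lit 6) 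
(.lf (nat_lit 180773) (.g (nat_lit 1795) (.e (nat_lit 57844) (nat_lit 252) (.e (nat_lit 57388) (nat_lit 5) (.e (nat_lit 114698) (nat_lit 11) (.e (nat_lit 426198) (nat_lit 9) (.e (nat_lit 426539) (nat_lit 29) .nil))))) .nil)) 
(.lf (nat_lit 180837) (.g (nat_lit 2147) (.e (nat_lit 57844) (nat_lit 252) (.e (nat_lit 57427) (nat_lit 15) (.e (nat_lit 360451) (nat_lit 0) (.e (nat_lit 6923) (nat_lit 371) (.e (nat_lit 2618) (nat_lit 164) .nil))))) .nil)))) (.nd (nat_lit 5) (.nd (nat_lit 6) 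
(.lf (nat_lit 180757) (.g (nat_lit 1966) (.e (nat_lit 57844) (nat_lit 252) (.e (nat_lit 57377) (nat_lit 3) (.e (nat_lit 98317) (nat_lit 9) (.e (nat_lit 336222) (nat_lit 13) .nil)))) .nil)) 
(.lf (nat_lit 180821) (.g (nat_lit 3216) (.e (nat_lit 57844) (nat_lit 252) (.e (nat_lit 57412) (nat_lit 12) (.e (nat_lit 336061) (nat_lit 7) (.e (nat_lit 319534) (nat_lit 16) (.e (nat_lit 286756) (nat_lit 10) (.e (nat_lit 344097) (nat_lit 18) (.e (nat_lit 5194) (nat_lit 294) (.e (nat_lit 57367) (nat_lit 1) .nil)))))))) (.g (nat_lit 5) .nil .nil)))) (.nd (nat_lit 6) 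
(.lf (nat_lit 180789) (.g (nat_lit 1810) (.e (nat_lit 57844) (nat_lit 252) (.e (nat_lit 57406) (nat_lit 12) (.e (nat_lit 336456) (nat_lit 34) (.e (nat_lit 483346) (nat_lit 17) .nil)))) .nil)) 
(.lf (nat_lit 180853) (.g (nat_lit 1582) (.e (nat_lit 57844) (nat_lit 252) (.e (nat_lit 57436) (nat_lit 17) (.e (nat_lit 376842) (nat_lit 11) (.e (nat_lit 426204) (nat_lit 9) (.e (nat_lit 433920) (nat_lit 20) .nil))))) .nil))))) (.nd (nat_lit 4) (.nd (nat_lit 5) (.nd (nat_lit 6) 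
(.lf (nat_lit 180749) (.g (nat_lit 4718) (.e (nat_lit 57844) (nat_lit 252) (.e (nat_lit 57377) (nat_lit 3) (.e (nat_lit 98317) (nat_lit 9) (.e (nat_lit 336100) (nat_lit 9) .nil)))) .nil)) 
(.lf (nat_lit 180813) (.g (nat_lit 2068) (.e (nat_lit 57844) (nat_lit 252) (.e (nat_lit 57412) (nat_lit 12) (.e (nat_lit 336061) (nat_lit 7) (.e (nat_lit 319531) (nat_lit 16) (.e (nat_lit 286748) (nat_lit 9) (.e (nat_lit 335925) (nat_lit 0) (.e (nat_lit 1023) (nat_lit 81) (.e (nat_lit 5195) (nat_lit 294) (.e (nat_lit 57367) (nat_lit 1) .nil))))))))) (.g (nat_lit 5) .nil .nil)))) (.nd (nat_lit 6) 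
(.lf (nat_lit 180781) (.g (nat_lit 3579) (.e (nat_lit 57844) (nat_lit 252) (.e (nat_lit 57406) (nat_lit 12) (.e (nat_lit 336454) (nat_lit 34) (.e (nat_lit 483402) (nat_lit 26) .nil)))) .nil)) 
(.lf (nat_lit 180845) (.g (nat_lit 2049) (.e (nat_lit 57844) (nat_lit 252) (.e (nat_lit 57435) (nat_lit 17) (.e (nat_lit 376842) (nat_lit 11) (.e (nat_lit 426313) (nat_lit 12) (.e (nat_lit 475212) (nat_lit 42) .nil))))) .nil)))) (.nd (nat_lit 5) (.nd (nat_lit 6) 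
(.lf (nat_lit 180765) (.g (nat_lit 2735) (.e (nat_lit 57844) (nat_lit 252) (.e (nat_lit 57379) (nat_lit 3) (.e (nat_lit 98317) (nat_lit 9) (.e (nat_lit 336076) (nat_lit 9) (.e (nat_lit 336454) (nat_lit 34) (.e (nat_lit 483366) (nat_lit 18) .nil)))))) (.g (nat_lit 4) .nil .nil))) 
(.lf (nat_lit 180829) (.g (nat_lit 690) (.e (nat_lit 57844) (nat_lit 252) (.e (nat_lit 57423) (nat_lit 14) (.e (nat_lit 352276) (nat_lit 11) .nil))) .nil))) (.nd (nat_lit 6) 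
(.lf (nat_lit 180797) (.g (nat_lit 573) (.e (nat_lit 57844) (nat_lit 252) (.e (nat_lit 57409) (nat_lit 12) (.e (nat_lit 336211) (nat_lit 13) .nil))) .nil)) 
(.lf (nat_lit 180861) (.g (nat_lit 2220) (.e (nat_lit 57844) (nat_lit 252) (.e (nat_lit 57437) (nat_lit 17) (.e (nat_lit 376842) (nat_lit 11) (.e (nat_lit 426187) (nat_lit 9) (.e (nat_lit 426446) (nat_lit 20) .nil))))) .nil))))))) (.nd (nat_lit 2) (.nd (nat_lit 3) (.nd (nat_lit 4) (.nd (nat_lit 5) (.nd (nat_lit 6) 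
(.lf (nat_lit 180739) (.g (nat_lit 4355) (.e (nat_lit 57844) (nat_lit 252) (.e (nat_lit 57377) (nat_lit 3) (.e (nat_lit 98317) (nat_lit 9) (.e (nat_lit 336077) (nat_lit 9) .nil)))) .nil)) 
(.lf (nat_lit 180803) (.g (nat_lit 1676) (.e (nat_lit 57844) (nat_lit 252) (.e (nat_lit 57412) (nat_lit 12) (.e (nat_lit 336054) (nat_lit 7) (.e (nat_lit 319533) (nat_lit 16) (.e (nat_lit 286753) (nat_lit 10) (.e (nat_lit 344097) (nat_lit 18) (.e (nat_lit 5194) (nat_lit 294) (.e (nat_lit 57367) (nat_lit 1) .nil)))))))) (.g (nat_lit 4) .nil .nil)))) (.nd (nat_lit 6) 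
(.lf (nat_lit 180771) (.g (nat_lit 1073) (.e (nat_lit 57844) (nat_lit 252) (.e (nat_lit 57388) (nat_lit 5) (.e (nat_lit 114697) (nat_lit 11) (.e (nat_lit 426199) (nat_lit 9) .nil)))) .nil)) 
(.lf (nat_lit 180835) (.g (nat_lit 2132) (.e (nat_lit 57844) (nat_lit 252) (.e (nat_lit 57427) (nat_lit 15) (.e (nat_lit 360450) (nat_lit 0) (.e (nat_lit 6923) (nat_lit 371) .nil)))) .nil)))) (.nd (nat_lit 5) (.nd (nat_lit 6) 
(.lf (nat_lit 180755) (.g (nat_lit 2295) (.e (nat_lit 57844) (nat_lit 252) (.e (nat_lit 57377) (nat_lit 3) (.e (nat_lit 98317) (nat_lit 9) (.e (nat_lit 336220) (nat_lit 13) .nil)))) .nil)) 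
(.lf (nat_lit 180819) (.g (nat_lit 2885) (.e (nat_lit 57844) (nat_lit 252) (.e (nat_lit 57412) (nat_lit 12) (.e (nat_lit 336061) (nat_lit 7) (.e (nat_lit 319534) (nat_lit 16) (.e (nat_lit 286749) (nat_lit 9) (.e (nat_lit 335997) (nat_lit 1) (.e (nat_lit 57848) (nat_lit 252) (.e (nat_lit 57367) (nat_lit 1) .nil)))))))) (.g (nat_lit 5) .nil .nil)))) (.nd (nat_lit 6) 
(.lf (nat_lit 180787) (.g (nat_lit 1743) (.e (nat_lit 57844) (nat_lit 252) (.e (nat_lit 57406) (nat_lit 12) (.e (nat_lit 336454) (nat_lit 34) (.e (nat_lit 483408) (nat_lit 26) .nil)))) .nil)) 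
(.lf (nat_lit 180851) (.g (nat_lit 2302) (.e (nat_lit 57844) (nat_lit 252) (.e (nat_lit 57436) (nat_lit 17) (.e (nat_lit 376842) (nat_lit 11) (.e (nat_lit 426188) (nat_lit 9) (.e (nat_lit 426350) (nat_lit 15) (.e (nat_lit 2198) (nat_lit 144) (.e (nat_lit 720933) (nat_lit 21) .nil))))))) (.g (nat_lit 4) .nil .nil)))))) (.nd (nat_lit 4) (.nd (nat_lit 5) (.nd (nat_lit 6) 
(.lf (nat_lit 180747) (.g (nat_lit 2154) (.e (nat_lit 57844) (nat_lit 252) (.e (nat_lit 57377) (nat_lit 3) (.e (nat_lit 98317) (nat_lit 9) (.e (nat_lit 336088) (nat_lit 9) (.e (nat_lit 336374) (nat_lit 27) .nil))))) .nil)) 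
(.lf (nat_lit 180811) (.g (nat_lit 2221) (.e (nat_lit 57844) (nat_lit 252) (.e (nat_lit 57412) (nat_lit 12) (.e (nat_lit 336061) (nat_lit 7) (.e (nat_lit 319531) (nat_lit 16) (.e (nat_lit 286742) (nat_lit 9) (.e (nat_lit 335997) (nat_lit 1) (.e (nat_lit 57848) (nat_lit 252) (.e (nat_lit 57367) (nat_lit 1) .nil)))))))) (.g (nat_lit 4) .nil .nil)))) (.nd (nat_lit 6) 
(.lf (nat_lit 180779) (.g (nat_lit 1900) (.e (nat_lit 57844) (nat_lit 252) (.e (nat_lit 57406) (nat_lit 12) (.e (nat_lit 336454) (nat_lit 34) (.e (nat_lit 483382) (nat_lit 23) .nil)))) .nil)) 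
(.lf (nat_lit 180843) (.g (nat_lit 1640) (.e (nat_lit 57844) (nat_lit 252) (.e (nat_lit 57435) (nat_lit 17) (.e (nat_lit 376842) (nat_lit 11) (.e (nat_lit 426204) (nat_lit 9) .nil)))) .nil)))) (.nd (nat_lit 5) (.nd (nat_lit 6) 
(.lf (nat_lit 180763) (.g (nat_lit 1913) (.e (nat_lit 57844) (nat_lit 252) (.e (nat_lit 57379) (nat_lit 3) (.e (nat_lit 98313) (nat_lit 9) (.e (nat_lit 336088) (nat_lit 9) (.e (nat_lit 336454) (nat_lit 34) .nil))))) .nil)) 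
(.lf (nat_lit 180827) (.g (nat_lit 2728) (.e (nat_lit 57844) (nat_lit 252) (.e (nat_lit 57421) (nat_lit 13) (.e (nat_lit 344133) (nat_lit 26) (.e (nat_lit 557098) (nat_lit 13) (.e (nat_lit 172061) (nat_lit 1) (.e (nat_lit 164319) (nat_lit 228) (.e (nat_lit 57389) (nat_lit 5) (.e (nat_lit 114711) (nat_lit 21) .nil)))))))) (.g (nat_lit 4) .nil .nil)))) (.nd (nat_lit 6) 
(.lf (nat_lit 180795) (.g (nat_lit 2856) (.e (nat_lit 57844) (nat_lit 252) (.e (nat_lit 57408) (nat_lit 12) (.e (nat_lit 336454) (nat_lit 34) (.e (nat_lit 483408) (nat_lit 26) .nil)))) .nil)) 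
(.lf (nat_lit 180859) (.g (nat_lit 630) (.e (nat_lit 57844) (nat_lit 252) (.e (nat_lit 57437) (nat_lit 17) (.e (nat_lit 376840) (nat_lit 11) .nil))) .nil)))))) (.nd (nat_lit 3) (.nd (nat_lit 4) (.nd (nat_lit 5) (.nd (nat_lit 6) 
(.lf (nat_lit 180743) (.g (nat_lit 2407) (.e (nat_lit 57844) (nat_lit 252) (.e (nat_lit 57377) (nat_lit 3) (.e (nat_lit 98317) (nat_lit 9) (.e (nat_lit 336086) (nat_lit 9) .nil)))) .nil)) 
(.lf (nat_lit 180807) (.g (nat_lit 2880) (.e (nat_lit 57844) (nat_lit 252) (.e (nat_lit 57412) (nat_lit 12) (.e (nat_lit 336058) (nat_lit 7) (.e (nat_lit 319534) (nat_lit 16) (.e (nat_lit 286756) (nat_lit 10) (.e (nat_lit 344097) (nat_lit 18) (.e (nat_lit 5194) (nat_lit 294) (.e (nat_lit 57367) (nat_lit 1) .nil)))))))) (.g (nat_lit 5) .nil .nil)))) (.nd (nat_lit 6) 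
(.lf (nat_lit 180775) (.g (nat_lit 1571) (.e (nat_lit 57844) (nat_lit 252) (.e (nat_lit 57389) (nat_lit 5) (.e (nat_lit 114698) (nat_lit 11) (.e (nat_lit 426199) (nat_lit 9) .nil)))) .nil)) 
(.lf (nat_lit 180839) (.g (nat_lit 625) (.e (nat_lit 57844) (nat_lit 252) (.e (nat_lit 57427) (nat_lit 15) (.e (nat_lit 360487) (nat_lit 19) .nil))) .nil)))) (.nd (nat_lit 5) (.nd (nat_lit 6) 
(.lf (nat_lit 180759) (.g (nat_lit 3228) (.e (nat_lit 57844) (nat_lit 252) (.e (nat_lit 57377) (nat_lit 3) (.e (nat_lit 98317) (nat_lit 9) (.e (nat_lit 343808) (nat_lit 13) .nil)))) .nil)) 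
(.lf (nat_lit 180823) (.g (nat_lit 1847) (.e (nat_lit 57844) (nat_lit 252) (.e (nat_lit 57412) (nat_lit 12) (.e (nat_lit 336083) (nat_lit 9) (.e (nat_lit 336443) (nat_lit 32) (.e (nat_lit 474880) (nat_lit 5) (.e (nat_lit 114711) (nat_lit 21) .nil)))))) (.g (nat_lit 4) .nil .nil)))) (.nd (nat_lit 6) 
(.lf (nat_lit 180791) (.g (nat_lit 2477) (.e (nat_lit 57844) (nat_lit 252) (.e (nat_lit 57406) (nat_lit 12) (.e (nat_lit 336456) (nat_lit 34) (.e (nat_lit 483383) (nat_lit 23) (.e (nat_lit 336322) (nat_lit 18) .nil))))) .nil)) 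
(.lf (nat_lit 180855) (.g (nat_lit 2368) (.e (nat_lit 57844) (nat_lit 252) (.e (nat_lit 57436) (nat_lit 17) (.e (nat_lit 376842) (nat_lit 11) (.e (nat_lit 426305) (nat_lit 12) (.e (nat_lit 475212) (nat_lit 42) .nil))))) .nil))))) (.nd (nat_lit 4) (.nd (nat_lit 5) (.nd (nat_lit 6) 
(.lf (nat_lit 180751) (.g (nat_lit 1571) (.e (nat_lit 57844) (nat_lit 252) (.e (nat_lit 57377) (nat_lit 3) (.e (nat_lit 98317) (nat_lit 9) (.e (nat_lit 336213) (nat_lit 13) .nil)))) .nil)) 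
(.lf (nat_lit 180815) (.g (nat_lit 3088) (.e (nat_lit 57844) (nat_lit 252) (.e (nat_lit 57412) (nat_lit 12) (.e (nat_lit 336061) (nat_lit 7) (.e (nat_lit 319531) (nat_lit 16) (.e (nat_lit 286753) (nat_lit 10) (.e (nat_lit 344097) (nat_lit 18) (.e (nat_lit 5195) (nat_lit 294) (.e (nat_lit 57367) (nat_lit 1) .nil)))))))) (.g (nat_lit 5) .nil .nil)))) (.nd (nat_lit 6) 
(.lf (nat_lit 180783) (.g (nat_lit 3888) (.e (nat_lit 57844) (nat_lit 252) (.e (nat_lit 57406) (nat_lit 12) (.e (nat_lit 336454) (nat_lit 34) (.e (nat_lit 483404) (nat_lit 26) .nil)))) .nil)) 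
(.lf (nat_lit 180847) (.g (nat_lit 703) (.e (nat_lit 57844) (nat_lit 252) (.e (nat_lit 57436) (nat_lit 17) (.e (nat_lit 376838) (nat_lit 11) (.e (nat_lit 426204) (nat_lit 9) .nil)))) .nil)))) (.nd (nat_lit 5) (.nd (nat_lit 6) 
(.lf (nat_lit 180767) (.g (nat_lit 1321) (.e (nat_lit 57844) (nat_lit 252) (.e (nat_lit 57379) (nat_lit 3) (.e (nat_lit 98317) (nat_lit 9) (.e (nat_lit 336088) (nat_lit 9) .nil)))) .nil)) 
(.lf (nat_lit 180831) (.g (nat_lit 670) (.e (nat_lit 57844) (nat_lit 252) (.e (nat_lit 57423) (nat_lit 14) (.e (nat_lit 360192) (nat_lit 13) .nil))) .nil))) (.nd (nat_lit 6) 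
(.lf (nat_lit 180799) (.g (nat_lit 824) (.e (nat_lit 57844) (nat_lit 252) (.e (nat_lit 57411) (nat_lit 12) (.e (nat_lit 336115) (nat_lit 9) .nil))) .nil)) 
(.lf (nat_lit 180863) (.g (nat_lit 2292) (.e (nat_lit 57844) (nat_lit 252) (.e (nat_lit 57437) (nat_lit 17) (.e (nat_lit 376842) (nat_lit 11) (.e (nat_lit 426198) (nat_lit 9) (.e (nat_lit 426446) (nat_lit 20) .nil))))) .nil)))))))))

noncomputable def tv2423 : DT := (.nd (nat_lit 0) (.nd (nat_lit 1) (.nd (nat_lit 2) (.nd (nat_lit 3) (.nd (nat_lit 4) (.nd (nat_lit 5) (.nd (nat_lit 6) 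
(.lf (nat_lit 180864) (.g (nat_lit 2145) (.e (nat_lit 57844) (nat_lit 252) (.e (nat_lit 57437) (nat_lit 17) (.e (nat_lit 376842) (nat_lit 11) (.e (nat_lit 426200) (nat_lit 9) (.e (nat_lit 426446) (nat_lit 20) .nil))))) .nil)) 
(.lf (nat_lit 180928) (.g (nat_lit 2271) (.e (nat_lit 57845) (nat_lit 252) (.e (nat_lit 57379) (nat_lit 3) (.e (nat_lit 98317) (nat_lit 9) (.e (nat_lit 336076) (nat_lit 9) (.e (nat_lit 336454) (nat_lit 34) .nil))))) .nil))) (.nd (nat_lit 6) 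
(.lf (nat_lit 180896) (.g (nat_lit 1738) (.e (nat_lit 57845) (nat_lit 252) (.e (nat_lit 57371) (nat_lit 2) (.e (nat_lit 90158) (nat_lit 11) (.e (nat_lit 24658) (nat_lit 13) (.e (nat_lit 393229) (nat_lit 9) .nil))))) .nil)) 
(.lf (nat_lit 180960) (.g (nat_lit 1612) (.e (nat_lit 57846) (nat_lit 252) (.e (nat_lit 57372) (nat_lit 2) (.e (nat_lit 90160) (nat_lit 11) (.e (nat_lit 24659) (nat_lit 13) .nil)))) .nil)))) (.nd (nat_lit 5) (.nd (nat_lit 6) 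
(.lf (nat_lit 180880) (.g (nat_lit 2482) (.e (nat_lit 57844) (nat_lit 252) (.e (nat_lit 57445) (nat_lit 19) (.e (nat_lit 393229) (nat_lit 9) (.e (nat_lit 336194) (nat_lit 12) (.e (nat_lit 385068) (nat_lit 26) .nil))))) .nil)) 
(.lf (nat_lit 180944) (.g (nat_lit 875) (.e (nat_lit 57846) (nat_lit 252) (.e (nat_lit 57371) (nat_lit 2) (.e (nat_lit 90156) (nat_lit 11) .nil))) .nil))) (.nd (nat_lit 6) 
(.lf (nat_lit 180912) (.g (nat_lit 1696) (.e (nat_lit 57845) (nat_lit 252) (.e (nat_lit 57375) (nat_lit 2) (.e (nat_lit 90160) (nat_lit 11) (.e (nat_lit 24628) (nat_lit 9) .nil)))) .nil)) 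
(.lf (nat_lit 180976) (.g (nat_lit 3640) (.e (nat_lit 57846) (nat_lit 252) (.e (nat_lit 57377) (nat_lit 3) (.e (nat_lit 98317) (nat_lit 9) (.e (nat_lit 336027) (nat_lit 3) .nil)))) .nil))))) (.nd (nat_lit 4) (.nd (nat_lit 5) (.nd (nat_lit 6) 
(.lf (nat_lit 180872) (.g (nat_lit 3620) (.e (nat_lit 57844) (nat_lit 252) (.e (nat_lit 57445) (nat_lit 19) (.e (nat_lit 393229) (nat_lit 9) (.e (nat_lit 336085) (nat_lit 9) .nil)))) .nil)) 
(.lf (nat_lit 180936) (.g (nat_lit 597) (.e (nat_lit 57845) (nat_lit 252) (.e (nat_lit 57436) (nat_lit 17) (.e (nat_lit 376842) (nat_lit 11) .nil))) .nil))) (.nd (nat_lit 6) 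
(.lf (nat_lit 180904) (.g (nat_lit 916) (.e (nat_lit 57845) (nat_lit 252) (.e (nat_lit 57372) (nat_lit 2) (.e (nat_lit 90158) (nat_lit 11) .nil))) .nil)) 
(.lf (nat_lit 180968) (.g (nat_lit 1979) (.e (nat_lit 57846) (nat_lit 252) (.e (nat_lit 57375) (nat_lit 2) (.e (nat_lit 90158) (nat_lit 11) (.e (nat_lit 24627) (nat_lit 9) (.e (nat_lit 336454) (nat_lit 34) .nil))))) .nil)))) (.nd (nat_lit 5) (.nd (nat_lit 6) 
(.lf (nat_lit 180888) (.g (nat_lit 1787) (.e (nat_lit 57844) (nat_lit 252) (.e (nat_lit 57445) (nat_lit 19) (.e (nat_lit 393229) (nat_lit 9) (.e (nat_lit 336204) (nat_lit 12) .nil)))) .nil)) 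
(.lf (nat_lit 180952) (.g (nat_lit 1854) (.e (nat_lit 57846) (nat_lit 252) (.e (nat_lit 57372) (nat_lit 2) (.e (nat_lit 90160) (nat_lit 11) (.e (nat_lit 24580) (nat_lit 0) .nil)))) .nil))) (.nd (nat_lit 6) 
(.lf (nat_lit 180920) (.g (nat_lit 3184) (.e (nat_lit 57845) (nat_lit 252) (.e (nat_lit 57377) (nat_lit 3) (.e (nat_lit 98317) (nat_lit 9) (.e (nat_lit 336088) (nat_lit 9) .nil)))) .nil)) 
(.lf (nat_lit 180984) (.g (nat_lit 4120) (.e (nat_lit 57846) (nat_lit 252) (.e (nat_lit 57377) (nat_lit 3) (.e (nat_lit 98317) (nat_lit 9) (.e (nat_lit 336150) (nat_lit 9) .nil)))) .nil)))))) (.nd (nat_lit 3) (.nd (nat_lit 4) (.nd (nat_lit 5) (.nd (nat_lit 6) 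
(.lf (nat_lit 180868) (.g (nat_lit 612) (.e (nat_lit 57844) (nat_lit 252) (.e (nat_lit 57437) (nat_lit 17) (.e (nat_lit 384768) (nat_lit 13) .nil))) .nil)) 
(.lf (nat_lit 180932) (.g (nat_lit 2301) (.e (nat_lit 57845) (nat_lit 252) (.e (nat_lit 57379) (nat_lit 3) (.e (nat_lit 98317) (nat_lit 9) (.e (nat_lit 336213) (nat_lit 13) (.e (nat_lit 393229) (nat_lit 9) .nil))))) .nil))) (.nd (nat_lit 6) 
(.lf (nat_lit 180900) (.g (nat_lit 2086) (.e (nat_lit 57845) (nat_lit 252) (.e (nat_lit 57371) (nat_lit 2) (.e (nat_lit 90160) (nat_lit 11) (.e (nat_lit 24627) (nat_lit 9) .nil)))) .nil)) 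
(.lf (nat_lit 180964) (.g (nat_lit 2310) (.e (nat_lit 57846) (nat_lit 252) (.e (nat_lit 57373) (nat_lit 2) (.e (nat_lit 90160) (nat_lit 11) (.e (nat_lit 24626) (nat_lit 9) (.e (nat_lit 336454) (nat_lit 34) .nil))))) .nil)))) (.nd (nat_lit 5) (.nd (nat_lit 6) 
(.lf (nat_lit 180884) (.g (nat_lit 2890) (.e (nat_lit 57844) (nat_lit 252) (.e (nat_lit 57445) (nat_lit 19) (.e (nat_lit 393229) (nat_lit 9) (.e (nat_lit 336201) (nat_lit 12) .nil)))) .nil)) 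
(.lf (nat_lit 180948) (.g (nat_lit 1433) (.e (nat_lit 57846) (nat_lit 252) (.e (nat_lit 57372) (nat_lit 2) (.e (nat_lit 90128) (nat_lit 9) (.e (nat_lit 293) (nat_lit 21) .nil)))) .nil))) (.nd (nat_lit 6) 
(.lf (nat_lit 180916) (.g (nat_lit 4077) (.e (nat_lit 57845) (nat_lit 252) (.e (nat_lit 57377) (nat_lit 3) (.e (nat_lit 98317) (nat_lit 9) (.e (nat_lit 336077) (nat_lit 9) .nil)))) .nil)) 
(.lf (nat_lit 180980) (.g (nat_lit 2409) (.e (nat_lit 57846) (nat_lit 252) (.e (nat_lit 57377) (nat_lit 3) (.e (nat_lit 98317) (nat_lit 9) (.e (nat_lit 336085) (nat_lit 9) .nil)))) .nil))))) (.nd (nat_lit 4) (.nd (nat_lit 5) (.nd (nat_lit 6) 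
(.lf (nat_lit 180876) (.g (nat_lit 4021) (.e (nat_lit 57844) (nat_lit 252) (.e (nat_lit 57445) (nat_lit 19) (.e (nat_lit 393229) (nat_lit 9) (.e (nat_lit 336150) (nat_lit 9) .nil)))) .nil)) 
(.lf (nat_lit 180940) (.g (nat_lit 3962) (.e (nat_lit 57845) (nat_lit 252) (.e (nat_lit 57445) (nat_lit 19) (.e (nat_lit 393229) (nat_lit 9) (.e (nat_lit 336196) (nat_lit 12) .nil)))) .nil))) (.nd (nat_lit 6) 
(.lf (nat_lit 180908) (.g (nat_lit 1324) (.e (nat_lit 57845) (nat_lit 252) (.e (nat_lit 57375) (nat_lit 2) (.e (nat_lit 90158) (nat_lit 11) (.e (nat_lit 24625) (nat_lit 9) .nil)))) .nil)) 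
(.lf (nat_lit 180972) (.g (nat_lit 2452) (.e (nat_lit 57846) (nat_lit 252) (.e (nat_lit 57375) (nat_lit 2) (.e (nat_lit 90160) (nat_lit 11) (.e (nat_lit 24655) (nat_lit 13) (.e (nat_lit 393229) (nat_lit 9) .nil))))) .nil)))) (.nd (nat_lit 5) (.nd (nat_lit 6) 
(.lf (nat_lit 180892) (.g (nat_lit 3460) (.e (nat_lit 57844) (nat_lit 252) (.e (nat_lit 57447) (nat_lit 19) (.e (nat_lit 393229) (nat_lit 9) (.e (nat_lit 336203) (nat_lit 12) (.e (nat_lit 385067) (nat_lit 26) (.e (nat_lit 532503) (nat_lit 1) .nil)))))) (.g (nat_lit 4) .nil .nil))) 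
(.lf (nat_lit 180956) (.g (nat_lit 3426) (.e (nat_lit 57846) (nat_lit 252) (.e (nat_lit 57372) (nat_lit 2) (.e (nat_lit 90160) (nat_lit 11) (.e (nat_lit 24655) (nat_lit 13) (.e (nat_lit 393229) (nat_lit 9) (.e (nat_lit 335994) (nat_lit 1) .nil)))))) (.g (nat_lit 0) .nil .nil)))) (.nd (nat_lit 6) 
(.lf (nat_lit 180924) (.g (nat_lit 3331) (.e (nat_lit 57845) (nat_lit 252) (.e (nat_lit 57377) (nat_lit 3) (.e (nat_lit 98317) (nat_lit 9) (.e (nat_lit 336223) (nat_lit 13) .nil)))) .nil)) 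
(.lf (nat_lit 180988) (.g (nat_lit 4160) (.e (nat_lit 57846) (nat_lit 252) (.e (nat_lit 57377) (nat_lit 3) (.e (nat_lit 98317) (nat_lit 9) (.e (nat_lit 336203) (nat_lit 12) .nil)))) .nil))))))) (.nd (nat_lit 2) (.nd (nat_lit 3) (.nd (nat_lit 4) (.nd (nat_lit 5) (.nd (nat_lit 6) 
(.lf (nat_lit 180866) (.g (nat_lit 1994) (.e (nat_lit 57844) (nat_lit 252) (.e (nat_lit 57437) (nat_lit 17) (.e (nat_lit 376842) (nat_lit 11) (.e (nat_lit 426258) (nat_lit 9) .nil)))) .nil)) 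
(.lf (nat_lit 180930) (.g (nat_lit 1517) (.e (nat_lit 57845) (nat_lit 252) (.e (nat_lit 57379) (nat_lit 3) (.e (nat_lit 98317) (nat_lit 9) (.e (nat_lit 336086) (nat_lit 9) .nil)))) .nil))) (.nd (nat_lit 6) 
(.lf (nat_lit 180898) (.g (nat_lit 1671) (.e (nat_lit 57845) (nat_lit 252) (.e (nat_lit 57371) (nat_lit 2) (.e (nat_lit 90160) (nat_lit 11) (.e (nat_lit 24624) (nat_lit 9) .nil)))) .nil)) 
(.lf (nat_lit 180962) (.g (nat_lit 2119) (.e (nat_lit 57846) (nat_lit 252) (.e (nat_lit 57373) (nat_lit 2) (.e (nat_lit 90134) (nat_lit 9) (.e (nat_lit 290) (nat_lit 21) (.e (nat_lit 336078) (nat_lit 9) .nil))))) .nil)))) (.nd (nat_lit 5) (.nd (nat_lit 6) 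
(.lf (nat_lit 180882) (.g (nat_lit 2178) (.e (nat_lit 57844) (nat_lit 252) (.e (nat_lit 57445) (nat_lit 19) (.e (nat_lit 393229) (nat_lit 9) (.e (nat_lit 336196) (nat_lit 12) .nil)))) .nil)) 
(.lf (nat_lit 180946) (.g (nat_lit 1637) (.e (nat_lit 57846) (nat_lit 252) (.e (nat_lit 57371) (nat_lit 2) (.e (nat_lit 90160) (nat_lit 11) (.e (nat_lit 24636) (nat_lit 9) .nil)))) .nil))) (.nd (nat_lit 6) 
(.lf (nat_lit 180914) (.g (nat_lit 1779) (.e (nat_lit 57845) (nat_lit 252) (.e (nat_lit 57375) (nat_lit 2) (.e (nat_lit 90160) (nat_lit 11) (.e (nat_lit 24658) (nat_lit 13) .nil)))) .nil)) 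
(.lf (nat_lit 180978) (.g (nat_lit 2672) (.e (nat_lit 57846) (nat_lit 252) (.e (nat_lit 57377) (nat_lit 3) (.e (nat_lit 98317) (nat_lit 9) (.e (nat_lit 336075) (nat_lit 9) .nil)))) .nil))))) (.nd (nat_lit 4) (.nd (nat_lit 5) (.nd (nat_lit 6) 
(.lf (nat_lit 180874) (.g (nat_lit 2058) (.e (nat_lit 57844) (nat_lit 252) (.e (nat_lit 57445) (nat_lit 19) (.e (nat_lit 393229) (nat_lit 9) (.e (nat_lit 336088) (nat_lit 9) (.e (nat_lit 336326) (nat_lit 18) .nil))))) .nil)) 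
(.lf (nat_lit 180938) (.g (nat_lit 4323) (.e (nat_lit 57845) (nat_lit 252) (.e (nat_lit 57445) (nat_lit 19) (.e (nat_lit 393229) (nat_lit 9) (.e (nat_lit 336077) (nat_lit 9) .nil)))) .nil))) (.nd (nat_lit 6) 
(.lf (nat_lit 180906) (.g (nat_lit 2112) (.e (nat_lit 57845) (nat_lit 252) (.e (nat_lit 57373) (nat_lit 2) (.e (nat_lit 90158) (nat_lit 11) (.e (nat_lit 24655) (nat_lit 13) .nil)))) .nil)) 
(.lf (nat_lit 180970) (.g (nat_lit 2505) (.e (nat_lit 57846) (nat_lit 252) (.e (nat_lit 57375) (nat_lit 2) (.e (nat_lit 90158) (nat_lit 11) (.e (nat_lit 24655) (nat_lit 13) (.e (nat_lit 393229) (nat_lit 9) (.e (nat_lit 335994) (nat_lit 1) .nil)))))) (.g (nat_lit 4) .nil .nil))))) (.nd (nat_lit 5) (.nd (nat_lit 6) 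
(.lf (nat_lit 180890) (.g (nat_lit 3906) (.e (nat_lit 57844) (nat_lit 252) (.e (nat_lit 57445) (nat_lit 19) (.e (nat_lit 393229) (nat_lit 9) (.e (nat_lit 343808) (nat_lit 12) .nil)))) .nil)) 
(.lf (nat_lit 180954) (.g (nat_lit 3213) (.e (nat_lit 57846) (nat_lit 252) (.e (nat_lit 57372) (nat_lit 2) (.e (nat_lit 90160) (nat_lit 11) (.e (nat_lit 24625) (nat_lit 9) (.e (nat_lit 336454) (nat_lit 34) (.e (nat_lit 483366) (nat_lit 18) .nil)))))) (.g (nat_lit 0) .nil .nil)))) (.nd (nat_lit 6) 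
(.lf (nat_lit 180922) (.g (nat_lit 4189) (.e (nat_lit 57845) (nat_lit 252) (.e (nat_lit 57377) (nat_lit 3) (.e (nat_lit 98317) (nat_lit 9) (.e (nat_lit 336214) (nat_lit 13) .nil)))) .nil)) 
(.lf (nat_lit 180986) (.g (nat_lit 4010) (.e (nat_lit 57846) (nat_lit 252) (.e (nat_lit 57377) (nat_lit 3) (.e (nat_lit 98317) (nat_lit 9) (.e (nat_lit 336194) (nat_lit 12) .nil)))) .nil)))))) (.nd (nat_lit 3) (.nd (nat_lit 4) (.nd (nat_lit 5) (.nd (nat_lit 6) 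
(.lf (nat_lit 180870) (.g (nat_lit 1954) (.e (nat_lit 57844) (nat_lit 252) (.e (nat_lit 57445) (nat_lit 19) (.e (nat_lit 393225) (nat_lit 9) (.e (nat_lit 336204) (nat_lit 12) (.e (nat_lit 385064) (nat_lit 26) .nil))))) .nil)) 
(.lf (nat_lit 180934) (.g (nat_lit 900) (.e (nat_lit 57845) (nat_lit 252) (.e (nat_lit 57379) (nat_lit 3) (.e (nat_lit 98342) (nat_lit 20) .nil))) .nil))) (.nd (nat_lit 6) 
(.lf (nat_lit 180902) (.g (nat_lit 1696) (.e (nat_lit 57845) (nat_lit 252) (.e (nat_lit 57371) (nat_lit 2) (.e (nat_lit 90160) (nat_lit 11) (.e (nat_lit 24655) (nat_lit 13) .nil)))) .nil)) 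
(.lf (nat_lit 180966) (.g (nat_lit 2202) (.e (nat_lit 57846) (nat_lit 252) (.e (nat_lit 57373) (nat_lit 2) (.e (nat_lit 90160) (nat_lit 11) (.e (nat_lit 24658) (nat_lit 13) (.e (nat_lit 393229) (nat_lit 9) .nil))))) .nil)))) (.nd (nat_lit 5) (.nd (nat_lit 6) 
(.lf (nat_lit 180886) (.g (nat_lit 2768) (.e (nat_lit 57844) (nat_lit 252) (.e (nat_lit 57445) (nat_lit 19) (.e (nat_lit 393229) (nat_lit 9) (.e (nat_lit 336202) (nat_lit 12) .nil)))) .nil)) 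
(.lf (nat_lit 180950) (.g (nat_lit 3399) (.e (nat_lit 57846) (nat_lit 252) (.e (nat_lit 57372) (nat_lit 2) (.e (nat_lit 90158) (nat_lit 11) (.e (nat_lit 24658) (nat_lit 13) (.e (nat_lit 393229) (nat_lit 9) (.e (nat_lit 335995) (nat_lit 1) .nil)))))) (.g (nat_lit 0) .nil .nil)))) (.nd (nat_lit 6) 
(.lf (nat_lit 180918) (.g (nat_lit 4094) (.e (nat_lit 57845) (nat_lit 252) (.e (nat_lit 57377) (nat_lit 3) (.e (nat_lit 98317) (nat_lit 9) (.e (nat_lit 336085) (nat_lit 9) .nil)))) .nil)) 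
(.lf (nat_lit 180982) (.g (nat_lit 4067) (.e (nat_lit 57846) (nat_lit 252) (.e (nat_lit 57377) (nat_lit 3) (.e (nat_lit 98317) (nat_lit 9) (.e (nat_lit 336091) (nat_lit 9) .nil)))) .nil))))) (.nd (nat_lit 4) (.nd (nat_lit 5) (.nd (nat_lit 6) 
(.lf (nat_lit 180878) (.g (nat_lit 3681) (.e (nat_lit 57844) (nat_lit 252) (.e (nat_lit 57445) (nat_lit 19) (.e (nat_lit 393229) (nat_lit 9) (.e (nat_lit 336193) (nat_lit 12) .nil)))) .nil)) 
(.lf (nat_lit 180942) (.g (nat_lit 1838) (.e (nat_lit 57846) (nat_lit 252) (.e (nat_lit 57365) (nat_lit 1) (.e (nat_lit 57852) (nat_lit 252) (.e (nat_lit 57412) (nat_lit 12) (.e (nat_lit 336060) (nat_lit 7) .nil))))) .nil))) (.nd (nat_lit 6) 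
(.lf (nat_lit 180910) (.g (nat_lit 576) (.e (nat_lit 57845) (nat_lit 252) (.e (nat_lit 57375) (nat_lit 2) (.e (nat_lit 90160) (nat_lit 11) .nil))) .nil)) 
(.lf (nat_lit 180974) (.g (nat_lit 1777) (.e (nat_lit 57846) (nat_lit 252) (.e (nat_lit 57376) (nat_lit 3) (.e (nat_lit 98317) (nat_lit 9) (.e (nat_lit 336076) (nat_lit 9) (.e (nat_lit 336456) (nat_lit 34) .nil))))) .nil)))) (.nd (nat_lit 5) (.nd (nat_lit 6) 
(.lf (nat_lit 180894) (.g (nat_lit 1789) (.e (nat_lit 57845) (nat_lit 252) (.e (nat_lit 57371) (nat_lit 2) (.e (nat_lit 90158) (nat_lit 11) (.e (nat_lit 24625) (nat_lit 9) (.e (nat_lit 336454) (nat_lit 34) .nil))))) .nil)) 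
(.lf (nat_lit 180958) (.g (nat_lit 3171) (.e (nat_lit 57846) (nat_lit 252) (.e (nat_lit 57372) (nat_lit 2) (.e (nat_lit 90160) (nat_lit 11) (.e (nat_lit 24658) (nat_lit 13) (.e (nat_lit 393229) (nat_lit 9) (.e (nat_lit 335994) (nat_lit 1) .nil)))))) (.g (nat_lit 0) .nil .nil)))) (.nd (nat_lit 6) 
(.lf (nat_lit 180926) (.g (nat_lit 1417) (.e (nat_lit 57845) (nat_lit 252) (.e (nat_lit 57379) (nat_lit 3) (.e (nat_lit 98313) (nat_lit 9) (.e (nat_lit 336088) (nat_lit 9) .nil)))) .nil)) 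
(.lf (nat_lit 180990) (.g (nat_lit 2183) (.e (nat_lit 57846) (nat_lit 252) (.e (nat_lit 57377) (nat_lit 3) (.e (nat_lit 98317) (nat_lit 9) (.e (nat_lit 336214) (nat_lit 13) (.e (nat_lit 393229) (nat_lit 9) .nil))))) .nil)))))))) (.nd (nat_lit 1) (.nd (nat_lit 2) (.nd (nat_lit 3) (.nd (nat_lit 4) (.nd (nat_lit 5) (.nd (nat_lit 6) 
(.lf (nat_lit 180865) (.g (nat_lit 2039) (.e (nat_lit 57844) (nat_lit 252) (.e (nat_lit 57437) (nat_lit 17) (.e (nat_lit 376842) (nat_lit 11) (.e (nat_lit 426204) (nat_lit 9) .nil)))) .nil)) 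
(.lf (nat_lit 180929) (.g (nat_lit 2149) (.e (nat_lit 57845) (nat_lit 252) (.e (nat_lit 57379) (nat_lit 3) (.e (nat_lit 98317) (nat_lit 9) (.e (nat_lit 336076) (nat_lit 9) (.e (nat_lit 336456) (nat_lit 34) .nil))))) .nil))) (.nd (nat_lit 6) 
(.lf (nat_lit 180897) (.g (nat_lit 772) (.e (nat_lit 57845) (nat_lit 252) (.e (nat_lit 57371) (nat_lit 2) (.e (nat_lit 90160) (nat_lit 11) .nil))) .nil)) 
(.lf (nat_lit 180961) (.g (nat_lit 1348) (.e (nat_lit 57846) (nat_lit 252) (.e (nat_lit 57372) (nat_lit 2) (.e (nat_lit 90160) (nat_lit 11) (.e (nat_lit 24660) (nat_lit 13) .nil)))) .nil)))) (.nd (nat_lit 5) (.nd (nat_lit 6) 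
(.lf (nat_lit 180881) (.g (nat_lit 3889) (.e (nat_lit 57844) (nat_lit 252) (.e (nat_lit 57445) (nat_lit 19) (.e (nat_lit 393229) (nat_lit 9) (.e (nat_lit 336195) (nat_lit 12) .nil)))) .nil)) 
(.lf (nat_lit 180945) (.g (nat_lit 763) (.e (nat_lit 57846) (nat_lit 252) (.e (nat_lit 57371) (nat_lit 2) (.e (nat_lit 90160) (nat_lit 11) .nil))) .nil))) (.nd (nat_lit 6) 
(.lf (nat_lit 180913) (.g (nat_lit 1778) (.e (nat_lit 57845) (nat_lit 252) (.e (nat_lit 57375) (nat_lit 2) (.e (nat_lit 90160) (nat_lit 11) (.e (nat_lit 24655) (nat_lit 13) .nil)))) .nil)) 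
(.lf (nat_lit 180977) (.g (nat_lit 3596) (.e (nat_lit 57846) (nat_lit 252) (.e (nat_lit 57377) (nat_lit 3) (.e (nat_lit 98317) (nat_lit 9) (.e (nat_lit 336073) (nat_lit 9) .nil)))) .nil))))) (.nd (nat_lit 4) (.nd (nat_lit 5) (.nd (nat_lit 6) 
(.lf (nat_lit 180873) (.g (nat_lit 3245) (.e (nat_lit 57844) (nat_lit 252) (.e (nat_lit 57445) (nat_lit 19) (.e (nat_lit 393229) (nat_lit 9) (.e (nat_lit 336087) (nat_lit 9) .nil)))) .nil)) 
(.lf (nat_lit 180937) (.g (nat_lit 4107) (.e (nat_lit 57845) (nat_lit 252) (.e (nat_lit 57445) (nat_lit 19) (.e (nat_lit 393229) (nat_lit 9) (.e (nat_lit 336075) (nat_lit 9) .nil)))) .nil))) (.nd (nat_lit 6) 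
(.lf (nat_lit 180905) (.g (nat_lit 1213) (.e (nat_lit 57845) (nat_lit 252) (.e (nat_lit 57373) (nat_lit 2) (.e (nat_lit 90158) (nat_lit 11) .nil))) .nil)) 
(.lf (nat_lit 180969) (.g (nat_lit 2257) (.e (nat_lit 57846) (nat_lit 252) (.e (nat_lit 57375) (nat_lit 2) (.e (nat_lit 90158) (nat_lit 11) (.e (nat_lit 24655) (nat_lit 13) (.e (nat_lit 393225) (nat_lit 9) .nil))))) .nil)))) (.nd (nat_lit 5) (.nd (nat_lit 6) 
(.lf (nat_lit 180889) (.g (nat_lit 2264) (.e (nat_lit 57844) (nat_lit 252) (.e (nat_lit 57445) (nat_lit 19) (.e (nat_lit 393229) (nat_lit 9) (.e (nat_lit 336204) (nat_lit 12) (.e (nat_lit 385066) (nat_lit 26) .nil))))) .nil)) 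
(.lf (nat_lit 180953) (.g (nat_lit 3697) (.e (nat_lit 57846) (nat_lit 252) (.e (nat_lit 57372) (nat_lit 2) (.e (nat_lit 90160) (nat_lit 11) (.e (nat_lit 24625) (nat_lit 9) (.e (nat_lit 336454) (nat_lit 34) (.e (nat_lit 483365) (nat_lit 18) .nil)))))) (.g (nat_lit 0) .nil .nil)))) (.nd (nat_lit 6) 
(.lf (nat_lit 180921) (.g (nat_lit 3437) (.e (nat_lit 57845) (nat_lit 252) (.e (nat_lit 57377) (nat_lit 3) (.e (nat_lit 98317) (nat_lit 9) (.e (nat_lit 336213) (nat_lit 13) .nil)))) .nil)) 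
(.lf (nat_lit 180985) (.g (nat_lit 2679) (.e (nat_lit 57846) (nat_lit 252) (.e (nat_lit 57377) (nat_lit 3) (.e (nat_lit 98317) (nat_lit 9) (.e (nat_lit 343808) (nat_lit 9) .nil)))) .nil)))))) (.nd (nat_lit 3) (.nd (nat_lit 4) (.nd (nat_lit 5) (.nd (nat_lit 6) 
(.lf (nat_lit 180869) (.g (nat_lit 612) (.e (nat_lit 57844) (nat_lit 252) (.e (nat_lit 57437) (nat_lit 17) (.e (nat_lit 384768) (nat_lit 16) .nil))) .nil)) 
(.lf (nat_lit 180933) (.g (nat_lit 913) (.e (nat_lit 57845) (nat_lit 252) (.e (nat_lit 57379) (nat_lit 3) (.e (nat_lit 98341) (nat_lit 20) .nil))) .nil))) (.nd (nat_lit 6) 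
(.lf (nat_lit 180901) (.g (nat_lit 2599) (.e (nat_lit 57845) (nat_lit 252) (.e (nat_lit 57371) (nat_lit 2) (.e (nat_lit 90160) (nat_lit 11) (.e (nat_lit 24628) (nat_lit 9) (.e (nat_lit 336367) (nat_lit 27) .nil))))) .nil)) 
(.lf (nat_lit 180965) (.g (nat_lit 2255) (.e (nat_lit 57846) (nat_lit 252) (.e (nat_lit 57373) (nat_lit 2) (.e (nat_lit 90160) (nat_lit 11) (.e (nat_lit 24655) (nat_lit 13) (.e (nat_lit 393229) (nat_lit 9) .nil))))) .nil)))) (.nd (nat_lit 5) (.nd (nat_lit 6) 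
(.lf (nat_lit 180885) (.g (nat_lit 3137) (.e (nat_lit 57844) (nat_lit 252) (.e (nat_lit 57445) (nat_lit 19) (.e (nat_lit 393229) (nat_lit 9) (.e (nat_lit 336201) (nat_lit 12) (.e (nat_lit 385068) (nat_lit 26) .nil))))) .nil)) 
(.lf (nat_lit 180949) (.g (nat_lit 667) (.e (nat_lit 57846) (nat_lit 252) (.e (nat_lit 57372) (nat_lit 2) (.e (nat_lit 90156) (nat_lit 11) .nil))) .nil))) (.nd (nat_lit 6) 
(.lf (nat_lit 180917) (.g (nat_lit 3654) (.e (nat_lit 57845) (nat_lit 252) (.e (nat_lit 57377) (nat_lit 3) (.e (nat_lit 98317) (nat_lit 9) (.e (nat_lit 336078) (nat_lit 9) .nil)))) .nil)) 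
(.lf (nat_lit 180981) (.g (nat_lit 2277) (.e (nat_lit 57846) (nat_lit 252) (.e (nat_lit 57377) (nat_lit 3) (.e (nat_lit 98317) (nat_lit 9) (.e (nat_lit 336087) (nat_lit 9) .nil)))) .nil))))) (.nd (nat_lit 4) (.nd (nat_lit 5) (.nd (nat_lit 6) 
(.lf (nat_lit 180877) (.g (nat_lit 3906) (.e (nat_lit 57844) (nat_lit 252) (.e (nat_lit 57445) (nat_lit 19) (.e (nat_lit 393229) (nat_lit 9) (.e (nat_lit 343808) (nat_lit 9) .nil)))) .nil)) 
(.lf (nat_lit 180941) (.g (nat_lit 905) (.e (nat_lit 57845) (nat_lit 252) (.e (nat_lit 57447) (nat_lit 19) (.e (nat_lit 393229) (nat_lit 9) .nil))) .nil))) (.nd (nat_lit 6) 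
(.lf (nat_lit 180909) (.g (nat_lit 1368) (.e (nat_lit 57845) (nat_lit 252) (.e (nat_lit 57375) (nat_lit 2) (.e (nat_lit 90158) (nat_lit 11) (.e (nat_lit 24658) (nat_lit 13) .nil)))) .nil)) 
(.lf (nat_lit 180973) (.g (nat_lit 2407) (.e (nat_lit 57846) (nat_lit 252) (.e (nat_lit 57375) (nat_lit 2) (.e (nat_lit 90160) (nat_lit 11) (.e (nat_lit 24658) (nat_lit 13) (.e (nat_lit 393229) (nat_lit 9) .nil))))) .nil)))) (.nd (nat_lit 5) (.nd (nat_lit 6) 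
(.lf (nat_lit 180893) (.g (nat_lit 1923) (.e (nat_lit 57845) (nat_lit 252) (.e (nat_lit 57371) (nat_lit 2) (.e (nat_lit 90128) (nat_lit 9) (.e (nat_lit 297) (nat_lit 22) (.e (nat_lit 344119) (nat_lit 21) .nil))))) .nil)) 
(.lf (nat_lit 180957) (.g (nat_lit 3884) (.e (nat_lit 57846) (nat_lit 252) (.e (nat_lit 57372) (nat_lit 2) (.e (nat_lit 90160) (nat_lit 11) (.e (nat_lit 24655) (nat_lit 13) (.e (nat_lit 393229) (nat_lit 9) (.e (nat_lit 335995) (nat_lit 1) .nil)))))) (.g (nat_lit 0) .nil .nil)))) (.nd (nat_lit 6) 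
(.lf (nat_lit 180925) (.g (nat_lit 845) (.e (nat_lit 57845) (nat_lit 252) (.e (nat_lit 57379) (nat_lit 3) (.e (nat_lit 98313) (nat_lit 9) .nil))) .nil)) 
(.lf (nat_lit 180989) (.g (nat_lit 4205) (.e (nat_lit 57846) (nat_lit 252) (.e (nat_lit 57377) (nat_lit 3) (.e (nat_lit 98317) (nat_lit 9) (.e (nat_lit 336212) (nat_lit 13) (.e (nat_lit 393229) (nat_lit 9) .nil))))) .nil))))))) (.nd (nat_lit 2) (.nd (nat_lit 3) (.nd (nat_lit 4) (.nd (nat_lit 5) (.nd (nat_lit 6) 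
(.lf (nat_lit 180867) (.g (nat_lit 2359) (.e (nat_lit 57844) (nat_lit 252) (.e (nat_lit 57437) (nat_lit 17) (.e (nat_lit 376842) (nat_lit 11) (.e (nat_lit 426316) (nat_lit 12) (.e (nat_lit 475212) (nat_lit 42) .nil))))) .nil)) 
(.lf (nat_lit 180931) (.g (nat_lit 1951) (.e (nat_lit 57845) (nat_lit 252) (.e (nat_lit 57379) (nat_lit 3) (.e (nat_lit 98317) (nat_lit 9) (.e (nat_lit 336088) (nat_lit 9) (.e (nat_lit 336454) (nat_lit 34) .nil))))) .nil))) (.nd (nat_lit 6) 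
(.lf (nat_lit 180899) (.g (nat_lit 1742) (.e (nat_lit 57845) (nat_lit 252) (.e (nat_lit 57371) (nat_lit 2) (.e (nat_lit 90160) (nat_lit 11) (.e (nat_lit 24625) (nat_lit 9) .nil)))) .nil)) 
(.lf (nat_lit 180963) (.g (nat_lit 734) (.e (nat_lit 57846) (nat_lit 252) (.e (nat_lit 57373) (nat_lit 2) (.e (nat_lit 90160) (nat_lit 11) .nil))) .nil)))) (.nd (nat_lit 5) (.nd (nat_lit 6) 
(.lf (nat_lit 180883) (.g (nat_lit 2799) (.e (nat_lit 57844) (nat_lit 252) (.e (nat_lit 57445) (nat_lit 19) (.e (nat_lit 393229) (nat_lit 9) (.e (nat_lit 336196) (nat_lit 12) (.e (nat_lit 385068) (nat_lit 26) .nil))))) .nil)) 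
(.lf (nat_lit 180947) (.g (nat_lit 2339) (.e (nat_lit 57846) (nat_lit 252) (.e (nat_lit 57371) (nat_lit 2) (.e (nat_lit 90160) (nat_lit 11) (.e (nat_lit 24658) (nat_lit 13) (.e (nat_lit 393229) (nat_lit 9) .nil))))) .nil))) (.nd (nat_lit 6) 
(.lf (nat_lit 180915) (.g (nat_lit 3262) (.e (nat_lit 57845) (nat_lit 252) (.e (nat_lit 57377) (nat_lit 3) (.e (nat_lit 98317) (nat_lit 9) (.e (nat_lit 336076) (nat_lit 9) .nil)))) .nil)) 
(.lf (nat_lit 180979) (.g (nat_lit 2948) (.e (nat_lit 57846) (nat_lit 252) (.e (nat_lit 57377) (nat_lit 3) (.e (nat_lit 98317) (nat_lit 9) (.e (nat_lit 336084) (nat_lit 9) .nil)))) .nil))))) (.nd (nat_lit 4) (.nd (nat_lit 5) (.nd (nat_lit 6) 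
(.lf (nat_lit 180875) (.g (nat_lit 3999) (.e (nat_lit 57844) (nat_lit 252) (.e (nat_lit 57445) (nat_lit 19) (.e (nat_lit 393229) (nat_lit 9) (.e (nat_lit 336091) (nat_lit 9) .nil)))) .nil)) 
(.lf (nat_lit 180939) (.g (nat_lit 3846) (.e (nat_lit 57845) (nat_lit 252) (.e (nat_lit 57445) (nat_lit 19) (.e (nat_lit 393229) (nat_lit 9) (.e (nat_lit 336194) (nat_lit 12) .nil)))) .nil))) (.nd (nat_lit 6) 
(.lf (nat_lit 180907) (.g (nat_lit 2107) (.e (nat_lit 57845) (nat_lit 252) (.e (nat_lit 57373) (nat_lit 2) (.e (nat_lit 90158) (nat_lit 11) (.e (nat_lit 24658) (nat_lit 13) .nil)))) .nil)) 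
(.lf (nat_lit 180971) (.g (nat_lit 1703) (.e (nat_lit 57846) (nat_lit 252) (.e (nat_lit 57375) (nat_lit 2) (.e (nat_lit 90160) (nat_lit 11) (.e (nat_lit 24636) (nat_lit 9) .nil)))) .nil)))) (.nd (nat_lit 5) (.nd (nat_lit 6) 
(.lf (nat_lit 180891) (.g (nat_lit 2526) (.e (nat_lit 57844) (nat_lit 252) (.e (nat_lit 57446) (nat_lit 19) (.e (nat_lit 393229) (nat_lit 9) (.e (nat_lit 336203) (nat_lit 12) .nil)))) .nil)) 
(.lf (nat_lit 180955) (.g (nat_lit 1872) (.e (nat_lit 57846) (nat_lit 252) (.e (nat_lit 57372) (nat_lit 2) (.e (nat_lit 90160) (nat_lit 11) (.e (nat_lit 24638) (nat_lit 9) (.e (nat_lit 343808) (nat_lit 34) .nil))))) .nil))) (.nd (nat_lit 6) 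
(.lf (nat_lit 180923) (.g (nat_lit 3809) (.e (nat_lit 57845) (nat_lit 252) (.e (nat_lit 57377) (nat_lit 3) (.e (nat_lit 98317) (nat_lit 9) (.e (nat_lit 336215) (nat_lit 13) .nil)))) .nil)) 
(.lf (nat_lit 180987) (.g (nat_lit 4136) (.e (nat_lit 57846) (nat_lit 252) (.e (nat_lit 57377) (nat_lit 3) (.e (nat_lit 98317) (nat_lit 9) (.e (nat_lit 336196) (nat_lit 12) .nil)))) .nil)))))) (.nd (nat_lit 3) (.nd (nat_lit 4) (.nd (nat_lit 5) (.nd (nat_lit 6) 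
(.lf (nat_lit 180871) (.g (nat_lit 2076) (.e (nat_lit 57844) (nat_lit 252) (.e (nat_lit 57445) (nat_lit 19) (.e (nat_lit 393229) (nat_lit 9) (.e (nat_lit 336076) (nat_lit 9) (.e (nat_lit 336326) (nat_lit 18) .nil))))) .nil)) 
(.lf (nat_lit 180935) (.g (nat_lit 2794) (.e (nat_lit 57845) (nat_lit 252) (.e (nat_lit 57406) (nat_lit 12) (.e (nat_lit 336454) (nat_lit 34) (.e (nat_lit 483405) (nat_lit 26) .nil)))) .nil))) (.nd (nat_lit 6) 
(.lf (nat_lit 180903) (.g (nat_lit 1709) (.e (nat_lit 57845) (nat_lit 252) (.e (nat_lit 57371) (nat_lit 2) (.e (nat_lit 90160) (nat_lit 11) (.e (nat_lit 24658) (nat_lit 13) .nil)))) .nil)) 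
(.lf (nat_lit 180967) (.g (nat_lit 1795) (.e (nat_lit 57846) (nat_lit 252) (.e (nat_lit 57373) (nat_lit 2) (.e (nat_lit 90160) (nat_lit 11) (.e (nat_lit 24660) (nat_lit 13) .nil)))) .nil)))) (.nd (nat_lit 5) (.nd (nat_lit 6) 
(.lf (nat_lit 180887) (.g (nat_lit 1487) (.e (nat_lit 57844) (nat_lit 252) (.e (nat_lit 57445) (nat_lit 19) (.e (nat_lit 393229) (nat_lit 9) (.e (nat_lit 336203) (nat_lit 12) .nil)))) .nil)) 
(.lf (nat_lit 180951) (.g (nat_lit 427) (.e (nat_lit 57846) (nat_lit 252) (.e (nat_lit 57372) (nat_lit 2) (.e (nat_lit 90160) (nat_lit 11) .nil))) .nil))) (.nd (nat_lit 6) 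
(.lf (nat_lit 180919) (.g (nat_lit 3891) (.e (nat_lit 57845) (nat_lit 252) (.e (nat_lit 57377) (nat_lit 3) (.e (nat_lit 98317) (nat_lit 9) (.e (nat_lit 336086) (nat_lit 9) .nil)))) .nil)) 
(.lf (nat_lit 180983) (.g (nat_lit 4142) (.e (nat_lit 57846) (nat_lit 252) (.e (nat_lit 57377) (nat_lit 3) (.e (nat_lit 98317) (nat_lit 9) (.e (nat_lit 336100) (nat_lit 9) .nil)))) .nil))))) (.nd (nat_lit 4) (.nd (nat_lit 5) (.nd (nat_lit 6) 
(.lf (nat_lit 180879) (.g (nat_lit 1850) (.e (nat_lit 57844) (nat_lit 252) (.e (nat_lit 57445) (nat_lit 19) (.e (nat_lit 393229) (nat_lit 9) (.e (nat_lit 336194) (nat_lit 12) .nil)))) .nil)) 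
(.lf (nat_lit 180943) (.g (nat_lit 778) (.e (nat_lit 57846) (nat_lit 252) (.e (nat_lit 57371) (nat_lit 2) (.e (nat_lit 90128) (nat_lit 9) .nil))) .nil))) (.nd (nat_lit 6) 
(.lf (nat_lit 180911) (.g (nat_lit 1841) (.e (nat_lit 57845) (nat_lit 252) (.e (nat_lit 57375) (nat_lit 2) (.e (nat_lit 90160) (nat_lit 11) (.e (nat_lit 24625) (nat_lit 9) .nil)))) .nil)) 
(.lf (nat_lit 180975) (.g (nat_lit 871) (.e (nat_lit 57846) (nat_lit 252) (.e (nat_lit 57376) (nat_lit 3) (.e (nat_lit 98317) (nat_lit 9) (.e (nat_lit 336086) (nat_lit 9) .nil)))) .nil)))) (.nd (nat_lit 5) (.nd (nat_lit 6) 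
(.lf (nat_lit 180895) (.g (nat_lit 1796) (.e (nat_lit 57845) (nat_lit 252) (.e (nat_lit 57371) (nat_lit 2) (.e (nat_lit 90158) (nat_lit 11) (.e (nat_lit 24655) (nat_lit 13) (.e (nat_lit 393229) (nat_lit 9) (.e (nat_lit 335994) (nat_lit 1) .nil)))))) (.g (nat_lit 4) .nil .nil))) 
(.lf (nat_lit 180959) (.g (nat_lit 3641) (.e (nat_lit 57846) (nat_lit 252) (.e (nat_lit 57372) (nat_lit 2) (.e (nat_lit 90160) (nat_lit 11) (.e (nat_lit 24658) (nat_lit 13) (.e (nat_lit 393229) (nat_lit 9) (.e (nat_lit 335995) (nat_lit 1) .nil)))))) (.g (nat_lit 0) .nil .nil)))) (.nd (nat_lit 6) 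
(.lf (nat_lit 180927) (.g (nat_lit 570) (.e (nat_lit 57845) (nat_lit 252) (.e (nat_lit 57379) (nat_lit 3) (.e (nat_lit 98317) (nat_lit 9) .nil))) .nil)) 
(.lf (nat_lit 180991) (.g (nat_lit 3371) (.e (nat_lit 57846) (nat_lit 252) (.e (nat_lit 57377) (nat_lit 3) (.e (nat_lit 98317) (nat_lit 9) (.e (nat_lit 336221) (nat_lit 13) .nil)))) .nil)))))))))

noncomputable def tv2424 : DT := (.nd (nat_lit 0) (.nd (nat_lit 1) (.nd (nat_lit 2) (.nd (nat_lit 3) (.nd (nat_lit 4) (.nd (nat_lit 5) (.nd (nat_lit 6) 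
(.lf (nat_lit 180992) (.g (nat_lit 1262) (.e (nat_lit 57846) (nat_lit 252) (.e (nat_lit 57377) (nat_lit 3) (.e (nat_lit 98317) (nat_lit 9) (.e (nat_lit 336222) (nat_lit 13) .nil)))) .nil)) 
(.lf (nat_lit 181056) (.g (nat_lit 2378) (.e (nat_lit 57846) (nat_lit 252) (.e (nat_lit 57437) (nat_lit 17) (.e (nat_lit 376842) (nat_lit 11) (.e (nat_lit 426188) (nat_lit 9) (.e (nat_lit 426350) (nat_lit 15) .nil))))) .nil))) (.nd (nat_lit 6) 
(.lf (nat_lit 181024) (.g (nat_lit 2842) (.e (nat_lit 57846) (nat_lit 252) (.e (nat_lit 57409) (nat_lit 12) (.e (nat_lit 336454) (nat_lit 34) (.e (nat_lit 483408) (nat_lit 26) (.e (nat_lit 385066) (nat_lit 26) .nil))))) .nil)) 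
(.lf (nat_lit 181088) (.g (nat_lit 2375) (.e (nat_lit 57846) (nat_lit 252) (.e (nat_lit 57447) (nat_lit 19) (.e (nat_lit 393225) (nat_lit 9) (.e (nat_lit 336196) (nat_lit 12) (.e (nat_lit 385064) (nat_lit 26) .nil))))) .nil)))) (.nd (nat_lit 5) (.nd (nat_lit 6) 
(.lf (nat_lit 181008) (.g (nat_lit 2306) (.e (nat_lit 57846) (nat_lit 252) (.e (nat_lit 57406) (nat_lit 12) (.e (nat_lit 336454) (nat_lit 34) (.e (nat_lit 483408) (nat_lit 26) .nil)))) .nil)) 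
(.lf (nat_lit 181072) (.g (nat_lit 1592) (.e (nat_lit 57846) (nat_lit 252) (.e (nat_lit 57445) (nat_lit 19) (.e (nat_lit 393229) (nat_lit 9) (.e (nat_lit 336085) (nat_lit 9) .nil)))) .nil))) (.nd (nat_lit 6) 
(.lf (nat_lit 181040) (.g (nat_lit 1653) (.e (nat_lit 57846) (nat_lit 252) (.e (nat_lit 57416) (nat_lit 12) (.e (nat_lit 336060) (nat_lit 7) (.e (nat_lit 319534) (nat_lit 16) (.e (nat_lit 286756) (nat_lit 10) (.e (nat_lit 344097) (nat_lit 18) (.e (nat_lit 5195) (nat_lit 294) (.e (nat_lit 57367) (nat_lit 1) .nil)))))))) (.g (nat_lit 4) .nil .nil))) 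
(.lf (nat_lit 181104) (.g (nat_lit 1657) (.e (nat_lit 57846) (nat_lit 252) (.e (nat_lit 57448) (nat_lit 19) (.e (nat_lit 393229) (nat_lit 9) (.e (nat_lit 336203) (nat_lit 12) (.e (nat_lit 385067) (nat_lit 26) .nil))))) .nil))))) (.nd (nat_lit 4) (.nd (nat_lit 5) (.nd (nat_lit 6) 
(.lf (nat_lit 181000) (.g (nat_lit 2547) (.e (nat_lit 57846) (nat_lit 252) (.e (nat_lit 57404) (nat_lit 12) (.e (nat_lit 336060) (nat_lit 7) (.e (nat_lit 319534) (nat_lit 16) (.e (nat_lit 286756) (nat_lit 10) (.e (nat_lit 344097) (nat_lit 18) (.e (nat_lit 5195) (nat_lit 294) (.e (nat_lit 57367) (nat_lit 1) .nil)))))))) (.g (nat_lit 5) .nil .nil))) 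
(.lf (nat_lit 181064) (.g (nat_lit 3103) (.e (nat_lit 57846) (nat_lit 252) (.e (nat_lit 57437) (nat_lit 17) (.e (nat_lit 376842) (nat_lit 11) (.e (nat_lit 426316) (nat_lit 12) (.e (nat_lit 475214) (nat_lit 42) (.e (nat_lit 720932) (nat_lit 21) .nil)))))) (.g (nat_lit 5) .nil .nil)))) (.nd (nat_lit 6) 
(.lf (nat_lit 181032) (.g (nat_lit 2465) (.e (nat_lit 57846) (nat_lit 252) (.e (nat_lit 57412) (nat_lit 12) (.e (nat_lit 336061) (nat_lit 7) (.e (nat_lit 319531) (nat_lit 16) (.e (nat_lit 286751) (nat_lit 10) (.e (nat_lit 344097) (nat_lit 18) (.e (nat_lit 5195) (nat_lit 294) (.e (nat_lit 57367) (nat_lit 1) .nil)))))))) (.g (nat_lit 4) .nil .nil))) 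
(.lf (nat_lit 181096) (.g (nat_lit 3027) (.e (nat_lit 57846) (nat_lit 252) (.e (nat_lit 57447) (nat_lit 19) (.e (nat_lit 393229) (nat_lit 9) (.e (nat_lit 336196) (nat_lit 12) (.e (nat_lit 385066) (nat_lit 26) (.e (nat_lit 532502) (nat_lit 1) .nil)))))) (.g (nat_lit 4) .nil .nil))))) (.nd (nat_lit 5) (.nd (nat_lit 6) 
(.lf (nat_lit 181016) (.g (nat_lit 1950) (.e (nat_lit 57846) (nat_lit 252) (.e (nat_lit 57407) (nat_lit 12) (.e (nat_lit 336454) (nat_lit 34) (.e (nat_lit 483408) (nat_lit 26) (.e (nat_lit 385065) (nat_lit 26) .nil))))) .nil)) 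
(.lf (nat_lit 181080) (.g (nat_lit 2607) (.e (nat_lit 57846) (nat_lit 252) (.e (nat_lit 57445) (nat_lit 19) (.e (nat_lit 393229) (nat_lit 9) (.e (nat_lit 336201) (nat_lit 12) .nil)))) .nil))) (.nd (nat_lit 6) 
(.lf (nat_lit 181048) (.g (nat_lit 2807) (.e (nat_lit 57846) (nat_lit 252) (.e (nat_lit 57435) (nat_lit 17) (.e (nat_lit 376842) (nat_lit 11) (.e (nat_lit 426308) (nat_lit 12) (.e (nat_lit 475212) (nat_lit 42) (.e (nat_lit 720933) (nat_lit 21) .nil)))))) (.g (nat_lit 5) .nil .nil))) 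
(.lf (nat_lit 181112) (.g (nat_lit 3616) (.e (nat_lit 57847) (nat_lit 252) (.e (nat_lit 57348) (nat_lit 0) (.e (nat_lit 2031) (nat_lit 140) (.e (nat_lit 688181) (nat_lit 17) (.e (nat_lit 73755) (nat_lit 8) (.e (nat_lit 557098) (nat_lit 13) (.e (nat_lit 179968) (nat_lit 20) (.e (nat_lit 114711) (nat_lit 21) .nil)))))))) (.g (nat_lit 6) .nil .nil))))))) 
(.nd (nat_lit 3) (.nd (nat_lit 4) (.nd (nat_lit 5) (.nd (nat_lit 6) 
(.lf (nat_lit 180996) (.g (nat_lit 2620) (.e (nat_lit 57846) (nat_lit 252) (.e (nat_lit 57379) (nat_lit 3) (.e (nat_lit 98313) (nat_lit 9) (.e (nat_lit 336086) (nat_lit 9) (.e (nat_lit 336454) (nat_lit 34) .nil))))) .nil)) 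
(.lf (nat_lit 181060) (.g (nat_lit 1116) (.e (nat_lit 57846) (nat_lit 252) (.e (nat_lit 57437) (nat_lit 17) (.e (nat_lit 376842) (nat_lit 11) (.e (nat_lit 426298) (nat_lit 11) .nil)))) .nil))) (.nd (nat_lit 6) 
(.lf (nat_lit 181028) (.g (nat_lit 789) (.e (nat_lit 57846) (nat_lit 252) (.e (nat_lit 57411) (nat_lit 12) (.e (nat_lit 336456) (nat_lit 34) .nil))) .nil)) 
(.lf (nat_lit 181092) (.g (nat_lit 1849) (.e (nat_lit 57846) (nat_lit 252) (.e (nat_lit 57447) (nat_lit 19) (.e (nat_lit 393229) (nat_lit 9) (.e (nat_lit 336086) (nat_lit 9) .nil)))) .nil)))) (.nd (nat_lit 5) (.nd (nat_lit 6) 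
(.lf (nat_lit 181012) (.g (nat_lit 3098) (.e (nat_lit 57846) (nat_lit 252) (.e (nat_lit 57406) (nat_lit 12) (.e (nat_lit 336456) (nat_lit 34) (.e (nat_lit 483403) (nat_lit 26) (.e (nat_lit 385066) (nat_lit 26) (.e (nat_lit 532503) (nat_lit 1) .nil)))))) (.g (nat_lit 4) .nil .nil))) 
(.lf (nat_lit 181076) (.g (nat_lit 3650) (.e (nat_lit 57846) (nat_lit 252) (.e (nat_lit 57445) (nat_lit 19) (.e (nat_lit 393229) (nat_lit 9) (.e (nat_lit 336107) (nat_lit 9) .nil)))) .nil))) (.nd (nat_lit 6) 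
(.lf (nat_lit 181044) (.g (nat_lit 898) (.e (nat_lit 57846) (nat_lit 252) (.e (nat_lit 57424) (nat_lit 14) (.e (nat_lit 352274) (nat_lit 11) .nil))) .nil)) 
(.lf (nat_lit 181108) (.g (nat_lit 2895) (.e (nat_lit 57847) (nat_lit 252) (.e (nat_lit 57345) (nat_lit 0) (.e (nat_lit 2031) (nat_lit 140) (.e (nat_lit 688182) (nat_lit 17) (.e (nat_lit 73754) (nat_lit 8) (.e (nat_lit 557101) (nat_lit 13) (.e (nat_lit 179968) (nat_lit 20) (.e (nat_lit 114710) (nat_lit 21) .nil)))))))) (.g (nat_lit 6) .nil .nil)))))) 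
(.nd (nat_lit 4) (.nd (nat_lit 5) (.nd (nat_lit 6) 
(.lf (nat_lit 181004) (.g (nat_lit 2999) (.e (nat_lit 57846) (nat_lit 252) (.e (nat_lit 57406) (nat_lit 12) (.e (nat_lit 336454) (nat_lit 34) (.e (nat_lit 483402) (nat_lit 26) .nil)))) .nil)) 
(.lf (nat_lit 181068) (.g (nat_lit 1897) (.e (nat_lit 57846) (nat_lit 252) (.e (nat_lit 57445) (nat_lit 19) (.e (nat_lit 393229) (nat_lit 9) (.e (nat_lit 336073) (nat_lit 9) .nil)))) .nil))) (.nd (nat_lit 6) 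
(.lf (nat_lit 181036) (.g (nat_lit 1634) (.e (nat_lit 57846) (nat_lit 252) (.e (nat_lit 57412) (nat_lit 12) (.e (nat_lit 336389) (nat_lit 27) (.e (nat_lit 426500) (nat_lit 27) .nil)))) .nil)) 
(.lf (nat_lit 181100) (.g (nat_lit 2069) (.e (nat_lit 57846) (nat_lit 252) (.e (nat_lit 57448) (nat_lit 19) (.e (nat_lit 393225) (nat_lit 9) (.e (nat_lit 336196) (nat_lit 12) (.e (nat_lit 385068) (nat_lit 26) .nil))))) .nil)))) (.nd (nat_lit 5) (.nd (nat_lit 6) 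
(.lf (nat_lit 181020) (.g (nat_lit 2857) (.e (nat_lit 57846) (nat_lit 252) (.e (nat_lit 57409) (nat_lit 12) (.e (nat_lit 336454) (nat_lit 34) (.e (nat_lit 483403) (nat_lit 26) (.e (nat_lit 385066) (nat_lit 26) (.e (nat_lit 532502) (nat_lit 1) .nil)))))) (.g (nat_lit 5) .nil .nil))) 
(.lf (nat_lit 181084) (.g (nat_lit 1483) (.e (nat_lit 57846) (nat_lit 252) (.e (nat_lit 57447) (nat_lit 19) (.e (nat_lit 393224) (nat_lit 9) (.e (nat_lit 336204) (nat_lit 12) .nil)))) .nil))) (.nd (nat_lit 6) 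
(.lf (nat_lit 181052) (.g (nat_lit 1635) (.e (nat_lit 57846) (nat_lit 252) (.e (nat_lit 57436) (nat_lit 17) (.e (nat_lit 376842) (nat_lit 11) (.e (nat_lit 426258) (nat_lit 9) .nil)))) .nil)) 
(.lf (nat_lit 181116) (.g (nat_lit 475) (.e (nat_lit 57847) (nat_lit 252) (.e (nat_lit 57354) (nat_lit 0) (.e (nat_lit 1799) (nat_lit 119) .nil))) .nil))))))) (.nd (nat_lit 2) (.nd (nat_lit 3) (.nd (nat_lit 4) (.nd (nat_lit 5) (.nd (nat_lit 6) 
(.lf (nat_lit 180994) (.g (nat_lit 1022) (.e (nat_lit 57846) (nat_lit 252) (.e (nat_lit 57378) (nat_lit 3) (.e (nat_lit 98316) (nat_lit 9) .nil))) .nil)) 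
(.lf (nat_lit 181058) (.g (nat_lit 1952) (.e (nat_lit 57846) (nat_lit 252) (.e (nat_lit 57437) (nat_lit 17) (.e (nat_lit 376842) (nat_lit 11) (.e (nat_lit 426204) (nat_lit 9) (.e (nat_lit 433920) (nat_lit 20) .nil))))) .nil))) (.nd (nat_lit 6) 
(.lf (nat_lit 181026) (.g (nat_lit 824) (.e (nat_lit 57846) (nat_lit 252) (.e (nat_lit 57411) (nat_lit 12) (.e (nat_lit 336115) (nat_lit 9) .nil))) .nil)) 
(.lf (nat_lit 181090) (.g (nat_lit 3169) (.e (nat_lit 57846) (nat_lit 252) (.e (nat_lit 57447) (nat_lit 19) (.e (nat_lit 393225) (nat_lit 9) (.e (nat_lit 336204) (nat_lit 12) (.e (nat_lit 385066) (nat_lit 26) (.e (nat_lit 532502) (nat_lit 1) .nil)))))) (.g (nat_lit 5) .nil .nil))))) (.nd (nat_lit 5) (.nd (nat_lit 6) 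
(.lf (nat_lit 181010) (.g (nat_lit 2198) (.e (nat_lit 57846) (nat_lit 252) (.e (nat_lit 57406) (nat_lit 12) (.e (nat_lit 336456) (nat_lit 34) (.e (nat_lit 483378) (nat_lit 23) (.e (nat_lit 336326) (nat_lit 18) .nil))))) .nil)) 
(.lf (nat_lit 181074) (.g (nat_lit 3719) (.e (nat_lit 57846) (nat_lit 252) (.e (nat_lit 57445) (nat_lit 19) (.e (nat_lit 393229) (nat_lit 9) (.e (nat_lit 336091) (nat_lit 9) .nil)))) .nil))) (.nd (nat_lit 6) 
(.lf (nat_lit 181042) (.g (nat_lit 1693) (.e (nat_lit 57846) (nat_lit 252) (.e (nat_lit 57423) (nat_lit 14) (.e (nat_lit 352277) (nat_lit 11) (.e (nat_lit 426189) (nat_lit 9) (.e (nat_lit 426446) (nat_lit 20) .nil))))) .nil)) 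
(.lf (nat_lit 181106) (.g (nat_lit 2992) (.e (nat_lit 57847) (nat_lit 252) (.e (nat_lit 57345) (nat_lit 0) (.e (nat_lit 2031) (nat_lit 140) (.e (nat_lit 688180) (nat_lit 17) (.e (nat_lit 73753) (nat_lit 8) (.e (nat_lit 557101) (nat_lit 13) (.e (nat_lit 179968) (nat_lit 20) (.e (nat_lit 114710) (nat_lit 21) .nil)))))))) (.g (nat_lit 6) .nil .nil)))))) 
(.nd (nat_lit 4) (.nd (nat_lit 5) (.nd (nat_lit 6) 
(.lf (nat_lit 181002) (.g (nat_lit 797) (.e (nat_lit 57846) (nat_lit 252) (.e (nat_lit 57406) (nat_lit 12) (.e (nat_lit 336367) (nat_lit 27) .nil))) .nil)) 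
(.lf (nat_lit 181066) (.g (nat_lit 3174) (.e (nat_lit 57846) (nat_lit 252) (.e (nat_lit 57445) (nat_lit 19) (.e (nat_lit 393225) (nat_lit 9) (.e (nat_lit 336196) (nat_lit 12) (.e (nat_lit 385066) (nat_lit 26) (.e (nat_lit 532502) (nat_lit 1) .nil)))))) (.g (nat_lit 5) .nil .nil)))) (.nd (nat_lit 6) 
(.lf (nat_lit 181034) (.g (nat_lit 2908) (.e (nat_lit 57846) (nat_lit 252) (.e (nat_lit 57412) (nat_lit 12) (.e (nat_lit 336061) (nat_lit 7) (.e (nat_lit 319531) (nat_lit 16) (.e (nat_lit 286756) (nat_lit 10) (.e (nat_lit 344097) (nat_lit 18) (.e (nat_lit 5195) (nat_lit 294) (.e (nat_lit 57367) (nat_lit 1) .nil)))))))) (.g (nat_lit 4) .nil .nil))) 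
(.lf (nat_lit 181098) (.g (nat_lit 3363) (.e (nat_lit 57846) (nat_lit 252) (.e (nat_lit 57447) (nat_lit 19) (.e (nat_lit 393229) (nat_lit 9) (.e (nat_lit 336204) (nat_lit 12) (.e (nat_lit 385066) (nat_lit 26) (.e (nat_lit 532502) (nat_lit 1) .nil)))))) (.g (nat_lit 5) .nil .nil))))) (.nd (nat_lit 5) (.nd (nat_lit 6) 
(.lf (nat_lit 181018) (.g (nat_lit 1595) (.e (nat_lit 57846) (nat_lit 252) (.e (nat_lit 57407) (nat_lit 12) (.e (nat_lit 336456) (nat_lit 34) (.e (nat_lit 483406) (nat_lit 26) (.e (nat_lit 385065) (nat_lit 26) .nil))))) .nil)) 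
(.lf (nat_lit 181082) (.g (nat_lit 1955) (.e (nat_lit 57846) (nat_lit 252) (.e (nat_lit 57445) (nat_lit 19) (.e (nat_lit 393229) (nat_lit 9) (.e (nat_lit 343808) (nat_lit 12) .nil)))) .nil))) (.nd (nat_lit 6) 
(.lf (nat_lit 181050) (.g (nat_lit 2167) (.e (nat_lit 57846) (nat_lit 252) (.e (nat_lit 57436) (nat_lit 17) (.e (nat_lit 376842) (nat_lit 11) (.e (nat_lit 426188) (nat_lit 9) (.e (nat_lit 426449) (nat_lit 20) .nil))))) .nil)) 
(.lf (nat_lit 181114) (.g (nat_lit 2215) (.e (nat_lit 57847) (nat_lit 252) (.e (nat_lit 57348) (nat_lit 0) (.e (nat_lit 2032) (nat_lit 140) (.e (nat_lit 688182) (nat_lit 17) (.e (nat_lit 73755) (nat_lit 8) (.e (nat_lit 557097) (nat_lit 13) (.e (nat_lit 179968) (nat_lit 20) (.e (nat_lit 114711) (nat_lit 21) .nil)))))))) (.g (nat_lit 5) .nil .nil))))))) 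
(.nd (nat_lit 3) (.nd (nat_lit 4) (.nd (nat_lit 5) (.nd (nat_lit 6) 
(.lf (nat_lit 180998) (.g (nat_lit 777) (.e (nat_lit 57846) (nat_lit 252) (.e (nat_lit 57379) (nat_lit 3) (.e (nat_lit 106240) (nat_lit 9) .nil))) .nil)) 
(.lf (nat_lit 181062) (.g (nat_lit 2986) (.e (nat_lit 57846) (nat_lit 252) (.e (nat_lit 57437) (nat_lit 17) (.e (nat_lit 376842) (nat_lit 11) (.e (nat_lit 426306) (nat_lit 12) (.e (nat_lit 475214) (nat_lit 42) (.e (nat_lit 720933) (nat_lit 21) .nil)))))) (.g (nat_lit 5) .nil .nil)))) (.nd (nat_lit 6) 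
(.lf (nat_lit 181030) (.g (nat_lit 2154) (.e (nat_lit 57846) (nat_lit 252) (.e (nat_lit 57412) (nat_lit 12) (.e (nat_lit 336058) (nat_lit 7) (.e (nat_lit 319533) (nat_lit 16) (.e (nat_lit 286753) (nat_lit 10) (.e (nat_lit 344097) (nat_lit 18) (.e (nat_lit 5195) (nat_lit 294) (.e (nat_lit 57367) (nat_lit 1) .nil)))))))) (.g (nat_lit 4) .nil .nil))) 
(.lf (nat_lit 181094) (.g (nat_lit 3207) (.e (nat_lit 57846) (nat_lit 252) (.e (nat_lit 57447) (nat_lit 19) (.e (nat_lit 393229) (nat_lit 9) (.e (nat_lit 336194) (nat_lit 12) (.e (nat_lit 385066) (nat_lit 26) (.e (nat_lit 532502) (nat_lit 1) .nil)))))) (.g (nat_lit 5) .nil .nil))))) (.nd (nat_lit 5) (.nd (nat_lit 6) 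
(.lf (nat_lit 181014) (.g (nat_lit 1083) (.e (nat_lit 57846) (nat_lit 252) (.e (nat_lit 57407) (nat_lit 12) (.e (nat_lit 336367) (nat_lit 27) (.e (nat_lit 426538) (nat_lit 29) (.e (nat_lit 360192) (nat_lit 3) .nil))))) .nil)) 
(.lf (nat_lit 181078) (.g (nat_lit 2388) (.e (nat_lit 57846) (nat_lit 252) (.e (nat_lit 57445) (nat_lit 19) (.e (nat_lit 393229) (nat_lit 9) (.e (nat_lit 336193) (nat_lit 12) .nil)))) .nil))) (.nd (nat_lit 6) 
(.lf (nat_lit 181046) (.g (nat_lit 895) (.e (nat_lit 57846) (nat_lit 252) (.e (nat_lit 57424) (nat_lit 14) (.e (nat_lit 352278) (nat_lit 11) .nil))) .nil)) 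
(.lf (nat_lit 181110) (.g (nat_lit 1333) (.e (nat_lit 57847) (nat_lit 252) (.e (nat_lit 57347) (nat_lit 0) (.e (nat_lit 2203) (nat_lit 144) (.e (nat_lit 720956) (nat_lit 25) (.e (nat_lit 114716) (nat_lit 22) .nil))))) .nil))))) (.nd (nat_lit 4) (.nd (nat_lit 5) (.nd (nat_lit 6) 
(.lf (nat_lit 181006) (.g (nat_lit 3527) (.e (nat_lit 57846) (nat_lit 252) (.e (nat_lit 57406) (nat_lit 12) (.e (nat_lit 336454) (nat_lit 34) (.e (nat_lit 483403) (nat_lit 26) (.e (nat_lit 385066) (nat_lit 26) (.e (nat_lit 532503) (nat_lit 1) .nil)))))) (.g (nat_lit 5) .nil .nil))) 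
(.lf (nat_lit 181070) (.g (nat_lit 2200) (.e (nat_lit 57846) (nat_lit 252) (.e (nat_lit 57445) (nat_lit 19) (.e (nat_lit 393229) (nat_lit 9) (.e (nat_lit 336075) (nat_lit 9) .nil)))) .nil))) (.nd (nat_lit 6) 
(.lf (nat_lit 181038) (.g (nat_lit 1619) (.e (nat_lit 57846) (nat_lit 252) (.e (nat_lit 57412) (nat_lit 12) (.e (nat_lit 336389) (nat_lit 27) (.e (nat_lit 426523) (nat_lit 27) .nil)))) .nil)) 
(.lf (nat_lit 181102) (.g (nat_lit 2102) (.e (nat_lit 57846) (nat_lit 252) (.e (nat_lit 57448) (nat_lit 19) (.e (nat_lit 393229) (nat_lit 9) (.e (nat_lit 336076) (nat_lit 9) (.e (nat_lit 336326) (nat_lit 18) .nil))))) .nil)))) (.nd (nat_lit 5) (.nd (nat_lit 6) 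
(.lf (nat_lit 181022) (.g (nat_lit 2030) (.e (nat_lit 57846) (nat_lit 252) (.e (nat_lit 57409) (nat_lit 12) (.e (nat_lit 336454) (nat_lit 34) (.e (nat_lit 483408) (nat_lit 26) .nil)))) .nil)) 
(.lf (nat_lit 181086) (.g (nat_lit 2916) (.e (nat_lit 57846) (nat_lit 252) (.e (nat_lit 57447) (nat_lit 19) (.e (nat_lit 393225) (nat_lit 9) (.e (nat_lit 336194) (nat_lit 12) (.e (nat_lit 385066) (nat_lit 26) (.e (nat_lit 532502) (nat_lit 1) .nil)))))) (.g (nat_lit 5) .nil .nil)))) (.nd (nat_lit 6) 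
(.lf (nat_lit 181054) (.g (nat_lit 696) (.e (nat_lit 57846) (nat_lit 252) (.e (nat_lit 57437) (nat_lit 17) (.e (nat_lit 376839) (nat_lit 11) .nil))) .nil)) 
(.lf (nat_lit 181118) (.g (nat_lit 1347) (.e (nat_lit 57847) (nat_lit 252) (.e (nat_lit 57354) (nat_lit 0) (.e (nat_lit 1855) (nat_lit 124) (.e (nat_lit 564992) (nat_lit 0) .nil)))) .nil)))))))) (.nd (nat_lit 1) (.nd (nat_lit 2) (.nd (nat_lit 3) (.nd (nat_lit 4) (.nd (nat_lit 5) (.nd (nat_lit 6) 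
(.lf (nat_lit 180993) (.g (nat_lit 2679) (.e (nat_lit 57846) (nat_lit 252) (.e (nat_lit 57377) (nat_lit 3) (.e (nat_lit 98317) (nat_lit 9) (.e (nat_lit 343808) (nat_lit 13) .nil)))) .nil)) 
(.lf (nat_lit 181057) (.g (nat_lit 2708) (.e (nat_lit 57846) (nat_lit 252) (.e (nat_lit 57437) (nat_lit 17) (.e (nat_lit 376842) (nat_lit 11) (.e (nat_lit 426188) (nat_lit 9) (.e (nat_lit 426449) (nat_lit 20) (.e (nat_lit 114711) (nat_lit 21) .nil)))))) (.g (nat_lit 4) .nil .nil)))) (.nd (nat_lit 6) 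
(.lf (nat_lit 181025) (.g (nat_lit 726) (.e (nat_lit 57846) (nat_lit 252) (.e (nat_lit 57409) (nat_lit 12) (.e (nat_lit 336456) (nat_lit 34) .nil))) .nil)) 
(.lf (nat_lit 181089) (.g (nat_lit 3500) (.e (nat_lit 57846) (nat_lit 252) (.e (nat_lit 57447) (nat_lit 19) (.e (nat_lit 393225) (nat_lit 9) (.e (nat_lit 336196) (nat_lit 12) (.e (nat_lit 385066) (nat_lit 26) (.e (nat_lit 532503) (nat_lit 1) .nil)))))) (.g (nat_lit 5) .nil .nil))))) (.nd (nat_lit 5) (.nd (nat_lit 6) 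
(.lf (nat_lit 181009) (.g (nat_lit 868) (.e (nat_lit 57846) (nat_lit 252) (.e (nat_lit 57406) (nat_lit 12) (.e (nat_lit 336455) (nat_lit 34) .nil))) .nil)) 
(.lf (nat_lit 181073) (.g (nat_lit 2169) (.e (nat_lit 57846) (nat_lit 252) (.e (nat_lit 57445) (nat_lit 19) (.e (nat_lit 393229) (nat_lit 9) (.e (nat_lit 336086) (nat_lit 9) (.e (nat_lit 343808) (nat_lit 18) (.e (nat_lit 204831) (nat_lit 18) .nil)))))) (.g (nat_lit 4) .nil .nil)))) (.nd (nat_lit 6) 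
(.lf (nat_lit 181041) (.g (nat_lit 766) (.e (nat_lit 57846) (nat_lit 252) (.e (nat_lit 57423) (nat_lit 14) (.e (nat_lit 352271) (nat_lit 9) .nil))) .nil)) 
(.lf (nat_lit 181105) (.g (nat_lit 3613) (.e (nat_lit 57847) (nat_lit 252) (.e (nat_lit 57345) (nat_lit 0) (.e (nat_lit 2031) (nat_lit 140) (.e (nat_lit 688180) (nat_lit 17) (.e (nat_lit 73753) (nat_lit 8) (.e (nat_lit 557100) (nat_lit 13) (.e (nat_lit 179968) (nat_lit 20) (.e (nat_lit 114710) (nat_lit 21) .nil)))))))) (.g (nat_lit 6) .nil .nil)))))) 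
(.nd (nat_lit 4) (.nd (nat_lit 5) (.nd (nat_lit 6) 
(.lf (nat_lit 181001) (.g (nat_lit 1566) (.e (nat_lit 57846) (nat_lit 252) (.e (nat_lit 57405) (nat_lit 12) (.e (nat_lit 336454) (nat_lit 34) (.e (nat_lit 483406) (nat_lit 26) (.e (nat_lit 385066) (nat_lit 26) .nil))))) .nil)) 
(.lf (nat_lit 181065) (.g (nat_lit 2906) (.e (nat_lit 57846) (nat_lit 252) (.e (nat_lit 57445) (nat_lit 19) (.e (nat_lit 393225) (nat_lit 9) (.e (nat_lit 336088) (nat_lit 9) (.e (nat_lit 336326) (nat_lit 18) (.e (nat_lit 204831) (nat_lit 18) .nil)))))) (.g (nat_lit 5) .nil .nil)))) (.nd (nat_lit 6) 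
(.lf (nat_lit 181033) (.g (nat_lit 2338) (.e (nat_lit 57846) (nat_lit 252) (.e (nat_lit 57412) (nat_lit 12) (.e (nat_lit 336061) (nat_lit 7) (.e (nat_lit 319531) (nat_lit 16) (.e (nat_lit 286755) (nat_lit 10) .nil))))) .nil)) 
(.lf (nat_lit 181097) (.g (nat_lit 1944) (.e (nat_lit 57846) (nat_lit 252) (.e (nat_lit 57447) (nat_lit 19) (.e (nat_lit 393229) (nat_lit 9) (.e (nat_lit 336202) (nat_lit 12) .nil)))) .nil)))) (.nd (nat_lit 5) (.nd (nat_lit 6) 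
(.lf (nat_lit 181017) (.g (nat_lit 1813) (.e (nat_lit 57846) (nat_lit 252) (.e (nat_lit 57407) (nat_lit 12) (.e (nat_lit 336454) (nat_lit 34) (.e (nat_lit 483408) (nat_lit 26) (.e (nat_lit 385067) (nat_lit 26) .nil))))) .nil)) 
(.lf (nat_lit 181081) (.g (nat_lit 3244) (.e (nat_lit 57846) (nat_lit 252) (.e (nat_lit 57445) (nat_lit 19) (.e (nat_lit 393229) (nat_lit 9) (.e (nat_lit 336202) (nat_lit 12) (.e (nat_lit 385066) (nat_lit 26) (.e (nat_lit 532502) (nat_lit 1) .nil)))))) (.g (nat_lit 5) .nil .nil)))) (.nd (nat_lit 6) 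
(.lf (nat_lit 181049) (.g (nat_lit 3004) (.e (nat_lit 57846) (nat_lit 252) (.e (nat_lit 57435) (nat_lit 17) (.e (nat_lit 376842) (nat_lit 11) (.e (nat_lit 426316) (nat_lit 12) (.e (nat_lit 475214) (nat_lit 42) (.e (nat_lit 720932) (nat_lit 21) .nil)))))) (.g (nat_lit 5) .nil .nil))) 
(.lf (nat_lit 181113) (.g (nat_lit 2514) (.e (nat_lit 57847) (nat_lit 252) (.e (nat_lit 57348) (nat_lit 0) (.e (nat_lit 2031) (nat_lit 140) (.e (nat_lit 688182) (nat_lit 17) (.e (nat_lit 73755) (nat_lit 8) (.e (nat_lit 557096) (nat_lit 13) (.e (nat_lit 179968) (nat_lit 20) (.e (nat_lit 114710) (nat_lit 21) .nil)))))))) (.g (nat_lit 5) .nil .nil))))))) 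
(.nd (nat_lit 3) (.nd (nat_lit 4) (.nd (nat_lit 5) (.nd (nat_lit 6) 
(.lf (nat_lit 180997) (.g (nat_lit 3147) (.e (nat_lit 57846) (nat_lit 252) (.e (nat_lit 57379) (nat_lit 3) (.e (nat_lit 98317) (nat_lit 9) (.e (nat_lit 336088) (nat_lit 9) (.e (nat_lit 336454) (nat_lit 34) (.e (nat_lit 483366) (nat_lit 18) .nil)))))) (.g (nat_lit 5) .nil .nil))) 
(.lf (nat_lit 181061) (.g (nat_lit 1585) (.e (nat_lit 57846) (nat_lit 252) (.e (nat_lit 57437) (nat_lit 17) (.e (nat_lit 376842) (nat_lit 11) (.e (nat_lit 426306) (nat_lit 12) (.e (nat_lit 475201) (nat_lit 40) .nil))))) .nil))) (.nd (nat_lit 6) 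
(.lf (nat_lit 181029) (.g (nat_lit 2128) (.e (nat_lit 57846) (nat_lit 252) (.e (nat_lit 57412) (nat_lit 12) (.e (nat_lit 336054) (nat_lit 7) (.e (nat_lit 319534) (nat_lit 16) (.e (nat_lit 286756) (nat_lit 10) (.e (nat_lit 344097) (nat_lit 18) (.e (nat_lit 5195) (nat_lit 294) (.e (nat_lit 57367) (nat_lit 1) .nil)))))))) (.g (nat_lit 4) .nil .nil))) 
(.lf (nat_lit 181093) (.g (nat_lit 2012) (.e (nat_lit 57846) (nat_lit 252) (.e (nat_lit 57447) (nat_lit 19) (.e (nat_lit 393229) (nat_lit 9) (.e (nat_lit 343808) (nat_lit 9) .nil)))) .nil)))) (.nd (nat_lit 5) (.nd (nat_lit 6) 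
(.lf (nat_lit 181013) (.g (nat_lit 2121) (.e (nat_lit 57846) (nat_lit 252) (.e (nat_lit 57406) (nat_lit 12) (.e (nat_lit 336456) (nat_lit 34) (.e (nat_lit 483405) (nat_lit 26) .nil)))) .nil)) 
(.lf (nat_lit 181077) (.g (nat_lit 3646) (.e (nat_lit 57846) (nat_lit 252) (.e (nat_lit 57445) (nat_lit 19) (.e (nat_lit 393229) (nat_lit 9) (.e (nat_lit 336150) (nat_lit 9) .nil)))) .nil))) (.nd (nat_lit 6) 
(.lf (nat_lit 181045) (.g (nat_lit 757) (.e (nat_lit 57846) (nat_lit 252) (.e (nat_lit 57424) (nat_lit 14) (.e (nat_lit 352276) (nat_lit 11) .nil))) .nil)) 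
(.lf (nat_lit 181109) (.g (nat_lit 3691) (.e (nat_lit 57847) (nat_lit 252) (.e (nat_lit 57345) (nat_lit 0) (.e (nat_lit 2031) (nat_lit 140) (.e (nat_lit 688182) (nat_lit 17) (.e (nat_lit 73755) (nat_lit 8) (.e (nat_lit 557098) (nat_lit 13) (.e (nat_lit 179968) (nat_lit 20) (.e (nat_lit 114710) (nat_lit 21) .nil)))))))) (.g (nat_lit 6) .nil .nil)))))) 
(.nd (nat_lit 4) (.nd (nat_lit 5) (.nd (nat_lit 6) 
(.lf (nat_lit 181005) (.g (nat_lit 3357) (.e (nat_lit 57846) (nat_lit 252) (.e (nat_lit 57406) (nat_lit 12) (.e (nat_lit 336454) (nat_lit 34) (.e (nat_lit 483403) (nat_lit 26) (.e (nat_lit 385066) (nat_lit 26) (.e (nat_lit 532502) (nat_lit 1) .nil)))))) (.g (nat_lit 5) .nil .nil))) 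
(.lf (nat_lit 181069) (.g (nat_lit 2946) (.e (nat_lit 57846) (nat_lit 252) (.e (nat_lit 57445) (nat_lit 19) (.e (nat_lit 393229) (nat_lit 9) (.e (nat_lit 336074) (nat_lit 9) .nil)))) .nil))) (.nd (nat_lit 6) 
(.lf (nat_lit 181037) (.g (nat_lit 1988) (.e (nat_lit 57846) (nat_lit 252) (.e (nat_lit 57412) (nat_lit 12) (.e (nat_lit 336389) (nat_lit 27) (.e (nat_lit 426500) (nat_lit 27) (.e (nat_lit 336076) (nat_lit 9) .nil))))) .nil)) 
(.lf (nat_lit 181101) (.g (nat_lit 624) (.e (nat_lit 57846) (nat_lit 252) (.e (nat_lit 57448) (nat_lit 19) (.e (nat_lit 393229) (nat_lit 9) .nil))) .nil)))) (.nd (nat_lit 5) (.nd (nat_lit 6) 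
(.lf (nat_lit 181021) (.g (nat_lit 3134) (.e (nat_lit 57846) (nat_lit 252) (.e (nat_lit 57409) (nat_lit 12) (.e (nat_lit 336454) (nat_lit 34) (.e (nat_lit 483406) (nat_lit 26) (.e (nat_lit 385066) (nat_lit 26) (.e (nat_lit 532502) (nat_lit 1) .nil)))))) (.g (nat_lit 5) .nil .nil))) 
(.lf (nat_lit 181085) (.g (nat_lit 722) (.e (nat_lit 57846) (nat_lit 252) (.e (nat_lit 57447) (nat_lit 19) (.e (nat_lit 393225) (nat_lit 9) .nil))) .nil))) (.nd (nat_lit 6) 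
(.lf (nat_lit 181053) (.g (nat_lit 693) (.e (nat_lit 57846) (nat_lit 252) (.e (nat_lit 57437) (nat_lit 17) (.e (nat_lit 376838) (nat_lit 11) .nil))) .nil)) 
(.lf (nat_lit 181117) (.g (nat_lit 893) (.e (nat_lit 57847) (nat_lit 252) (.e (nat_lit 57354) (nat_lit 0) (.e (nat_lit 1799) (nat_lit 119) (.e (nat_lit 516195) (nat_lit 26) .nil)))) .nil))))))) (.nd (nat_lit 2) (.nd (nat_lit 3) (.nd (nat_lit 4) (.nd (nat_lit 5) (.nd (nat_lit 6) 
(.lf (nat_lit 180995) (.g (nat_lit 1431) (.e (nat_lit 57846) (nat_lit 252) (.e (nat_lit 57378) (nat_lit 3) (.e (nat_lit 98317) (nat_lit 9) (.e (nat_lit 336074) (nat_lit 9) .nil)))) .nil)) 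
(.lf (nat_lit 181059) (.g (nat_lit 1684) (.e (nat_lit 57846) (nat_lit 252) (.e (nat_lit 57437) (nat_lit 17) (.e (nat_lit 376842) (nat_lit 11) (.e (nat_lit 426213) (nat_lit 9) .nil)))) .nil))) (.nd (nat_lit 6) 
(.lf (nat_lit 181027) (.g (nat_lit 521) (.e (nat_lit 57846) (nat_lit 252) (.e (nat_lit 57411) (nat_lit 12) (.e (nat_lit 336211) (nat_lit 13) .nil))) .nil)) 
(.lf (nat_lit 181091) (.g (nat_lit 571) (.e (nat_lit 57846) (nat_lit 252) (.e (nat_lit 57447) (nat_lit 19) (.e (nat_lit 393229) (nat_lit 9) .nil))) .nil)))) (.nd (nat_lit 5) (.nd (nat_lit 6) 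
(.lf (nat_lit 181011) (.g (nat_lit 2083) (.e (nat_lit 57846) (nat_lit 252) (.e (nat_lit 57406) (nat_lit 12) (.e (nat_lit 336456) (nat_lit 34) (.e (nat_lit 483382) (nat_lit 23) .nil)))) .nil)) 
(.lf (nat_lit 181075) (.g (nat_lit 3919) (.e (nat_lit 57846) (nat_lit 252) (.e (nat_lit 57445) (nat_lit 19) (.e (nat_lit 393229) (nat_lit 9) (.e (nat_lit 336100) (nat_lit 9) .nil)))) .nil))) (.nd (nat_lit 6) 
(.lf (nat_lit 181043) (.g (nat_lit 1973) (.e (nat_lit 57846) (nat_lit 252) (.e (nat_lit 57424) (nat_lit 14) (.e (nat_lit 352273) (nat_lit 11) (.e (nat_lit 426190) (nat_lit 9) (.e (nat_lit 426446) (nat_lit 20) .nil))))) .nil)) 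
(.lf (nat_lit 181107) (.g (nat_lit 3783) (.e (nat_lit 57847) (nat_lit 252) (.e (nat_lit 57345) (nat_lit 0) (.e (nat_lit 2031) (nat_lit 140) (.e (nat_lit 688182) (nat_lit 17) (.e (nat_lit 73754) (nat_lit 8) (.e (nat_lit 557100) (nat_lit 13) (.e (nat_lit 179968) (nat_lit 20) (.e (nat_lit 114710) (nat_lit 21) .nil)))))))) (.g (nat_lit 6) .nil .nil)))))) 
(.nd (nat_lit 4) (.nd (nat_lit 5) (.nd (nat_lit 6) 
(.lf (nat_lit 181003) (.g (nat_lit 413) (.e (nat_lit 57846) (nat_lit 252) (.e (nat_lit 57406) (nat_lit 12) (.e (nat_lit 336454) (nat_lit 34) .nil))) .nil)) 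
(.lf (nat_lit 181067) (.g (nat_lit 275) (.e (nat_lit 57846) (nat_lit 252) (.e (nat_lit 57445) (nat_lit 19) (.e (nat_lit 393229) (nat_lit 9) .nil))) .nil))) (.nd (nat_lit 6) 
(.lf (nat_lit 181035) (.g (nat_lit 2883) (.e (nat_lit 57846) (nat_lit 252) (.e (nat_lit 57412) (nat_lit 12) (.e (nat_lit 336061) (nat_lit 7) (.e (nat_lit 319533) (nat_lit 16) (.e (nat_lit 286753) (nat_lit 10) (.e (nat_lit 344097) (nat_lit 18) (.e (nat_lit 5195) (nat_lit 294) (.e (nat_lit 57367) (nat_lit 1) .nil)))))))) (.g (nat_lit 4) .nil .nil))) 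
(.lf (nat_lit 181099) (.g (nat_lit 2325) (.e (nat_lit 57846) (nat_lit 252) (.e (nat_lit 57448) (nat_lit 19) (.e (nat_lit 393225) (nat_lit 9) (.e (nat_lit 336078) (nat_lit 9) (.e (nat_lit 336324) (nat_lit 18) .nil))))) .nil)))) (.nd (nat_lit 5) (.nd (nat_lit 6) 
(.lf (nat_lit 181019) (.g (nat_lit 422) (.e (nat_lit 57846) (nat_lit 252) (.e (nat_lit 57409) (nat_lit 12) (.e (nat_lit 336454) (nat_lit 34) .nil))) .nil)) 
(.lf (nat_lit 181083) (.g (nat_lit 1255) (.e (nat_lit 57846) (nat_lit 252) (.e (nat_lit 57447) (nat_lit 19) (.e (nat_lit 393224) (nat_lit 9) .nil))) .nil))) (.nd (nat_lit 6) 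
(.lf (nat_lit 181051) (.g (nat_lit 1823) (.e (nat_lit 57846) (nat_lit 252) (.e (nat_lit 57436) (nat_lit 17) (.e (nat_lit 376842) (nat_lit 11) (.e (nat_lit 426196) (nat_lit 9) (.e (nat_lit 426446) (nat_lit 20) .nil))))) .nil)) 
(.lf (nat_lit 181115) (.g (nat_lit 4357) (.e (nat_lit 57847) (nat_lit 252) (.e (nat_lit 57348) (nat_lit 0) (.e (nat_lit 2160) (nat_lit 143) (.e (nat_lit 712755) (nat_lit 30) (.e (nat_lit 450588) (nat_lit 10) (.e (nat_lit 573449) (nat_lit 9) (.e (nat_lit 1183) (nat_lit 87) (.e (nat_lit 57848) (nat_lit 252) (.e (nat_lit 57367) (nat_lit 1) .nil))))))))) (.g (nat_lit 7) .nil .nil))))))) 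
(.nd (nat_lit 3) (.nd (nat_lit 4) (.nd (nat_lit 5) (.nd (nat_lit 6) 
(.lf (nat_lit 180999) (.g (nat_lit 1725) (.e (nat_lit 57846) (nat_lit 252) (.e (nat_lit 57388) (nat_lit 5) (.e (nat_lit 114698) (nat_lit 11) (.e (nat_lit 426198) (nat_lit 9) (.e (nat_lit 426539) (nat_lit 29) .nil))))) .nil)) 
(.lf (nat_lit 181063) (.g (nat_lit 2929) (.e (nat_lit 57846) (nat_lit 252) (.e (nat_lit 57437) (nat_lit 17) (.e (nat_lit 376842) (nat_lit 11) (.e (nat_lit 426308) (nat_lit 12) (.e (nat_lit 475212) (nat_lit 42) (.e (nat_lit 720933) (nat_lit 21) .nil)))))) (.g (nat_lit 5) .nil .nil)))) (.nd (nat_lit 6) 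
(.lf (nat_lit 181031) (.g (nat_lit 1741) (.e (nat_lit 57846) (nat_lit 252) (.e (nat_lit 57412) (nat_lit 12) (.e (nat_lit 336060) (nat_lit 7) (.e (nat_lit 319533) (nat_lit 16) (.e (nat_lit 286753) (nat_lit 10) .nil))))) .nil)) 
(.lf (nat_lit 181095) (.g (nat_lit 2012) (.e (nat_lit 57846) (nat_lit 252) (.e (nat_lit 57447) (nat_lit 19) (.e (nat_lit 393229) (nat_lit 9) (.e (nat_lit 336195) (nat_lit 12) .nil)))) .nil)))) (.nd (nat_lit 5) (.nd (nat_lit 6) 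
(.lf (nat_lit 181015) (.g (nat_lit 2057) (.e (nat_lit 57846) (nat_lit 252) (.e (nat_lit 57407) (nat_lit 12) (.e (nat_lit 336454) (nat_lit 34) (.e (nat_lit 483385) (nat_lit 23) (.e (nat_lit 336306) (nat_lit 15) .nil))))) .nil)) 
(.lf (nat_lit 181079) (.g (nat_lit 2752) (.e (nat_lit 57846) (nat_lit 252) (.e (nat_lit 57445) (nat_lit 19) (.e (nat_lit 393229) (nat_lit 9) (.e (nat_lit 336195) (nat_lit 12) .nil)))) .nil))) (.nd (nat_lit 6) 
(.lf (nat_lit 181047) (.g (nat_lit 213) (.e (nat_lit 57846) (nat_lit 252) (.e (nat_lit 57435) (nat_lit 17) (.e (nat_lit 376842) (nat_lit 11) .nil))) .nil)) 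
(.lf (nat_lit 181111) (.g (nat_lit 2404) (.e (nat_lit 57847) (nat_lit 252) (.e (nat_lit 57348) (nat_lit 0) (.e (nat_lit 2031) (nat_lit 140) (.e (nat_lit 688181) (nat_lit 17) (.e (nat_lit 73755) (nat_lit 8) (.e (nat_lit 557097) (nat_lit 13) (.e (nat_lit 179968) (nat_lit 20) (.e (nat_lit 114711) (nat_lit 21) .nil)))))))) (.g (nat_lit 5) .nil .nil)))))) 
(.nd (nat_lit 4) (.nd (nat_lit 5) (.nd (nat_lit 6) 
(.lf (nat_lit 181007) (.g (nat_lit 2442) (.e (nat_lit 57846) (nat_lit 252) (.e (nat_lit 57406) (nat_lit 12) (.e (nat_lit 336454) (nat_lit 34) (.e (nat_lit 483405) (nat_lit 26) .nil)))) .nil)) 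
(.lf (nat_lit 181071) (.g (nat_lit 1940) (.e (nat_lit 57846) (nat_lit 252) (.e (nat_lit 57445) (nat_lit 19) (.e (nat_lit 393229) (nat_lit 9) (.e (nat_lit 336077) (nat_lit 9) (.e (nat_lit 336326) (nat_lit 18) .nil))))) .nil))) (.nd (nat_lit 6) 
(.lf (nat_lit 181039) (.g (nat_lit 3016) (.e (nat_lit 57846) (nat_lit 252) (.e (nat_lit 57413) (nat_lit 12) (.e (nat_lit 336060) (nat_lit 7) (.e (nat_lit 319534) (nat_lit 16) (.e (nat_lit 286756) (nat_lit 10) (.e (nat_lit 344097) (nat_lit 18) (.e (nat_lit 5195) (nat_lit 294) (.e (nat_lit 57367) (nat_lit 1) .nil)))))))) (.g (nat_lit 6) .nil .nil))) 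
(.lf (nat_lit 181103) (.g (nat_lit 2065) (.e (nat_lit 57846) (nat_lit 252) (.e (nat_lit 57448) (nat_lit 19) (.e (nat_lit 393229) (nat_lit 9) (.e (nat_lit 336194) (nat_lit 12) (.e (nat_lit 385066) (nat_lit 26) .nil))))) .nil)))) (.nd (nat_lit 5) (.nd (nat_lit 6) 
(.lf (nat_lit 181023) (.g (nat_lit 2995) (.e (nat_lit 57846) (nat_lit 252) (.e (nat_lit 57409) (nat_lit 12) (.e (nat_lit 336454) (nat_lit 34) (.e (nat_lit 483408) (nat_lit 26) (.e (nat_lit 385064) (nat_lit 26) .nil))))) .nil)) 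
(.lf (nat_lit 181087) (.g (nat_lit 1748) (.e (nat_lit 57846) (nat_lit 252) (.e (nat_lit 57447) (nat_lit 19) (.e (nat_lit 393225) (nat_lit 9) (.e (nat_lit 336195) (nat_lit 12) .nil)))) .nil))) (.nd (nat_lit 6) 
(.lf (nat_lit 181055) (.g (nat_lit 348) (.e (nat_lit 57846) (nat_lit 252) (.e (nat_lit 57437) (nat_lit 17) (.e (nat_lit 376842) (nat_lit 11) .nil))) .nil)) 
(.lf (nat_lit 181119) (.g (nat_lit 2412) (.e (nat_lit 57847) (nat_lit 252) (.e (nat_lit 57355) (nat_lit 0) (.e (nat_lit 1858) (nat_lit 124) (.e (nat_lit 557109) (nat_lit 15) (.e (nat_lit 188461) (nat_lit 26) (.e (nat_lit 253959) (nat_lit 9) (.e (nat_lit 1182) (nat_lit 87) (.e (nat_lit 57854) (nat_lit 252) (.e (nat_lit 57363) (nat_lit 1) .nil))))))))) (.g (nat_lit 4) .nil .nil))))))))))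

noncomputable def tv2425 : DT := (.nd (nat_lit 0) (.nd (nat_lit 1) (.nd (nat_lit 2) (.nd (nat_lit 3) (.nd (nat_lit 4) (.nd (nat_lit 5) 
(.lf (nat_lit 181120) (.g (nat_lit 4184) (.e (nat_lit 57847) (nat_lit 252) (.e (nat_lit 57363) (nat_lit 1) (.e (nat_lit 57754) (nat_lit 209) (.e (nat_lit 1199) (nat_lit 88) (.e (nat_lit 65610) (nat_lit 10) (.e (nat_lit 344117) (nat_lit 21) (.e (nat_lit 516195) (nat_lit 26) (.e (nat_lit 335995) (nat_lit 1) .nil)))))))) (.g (nat_lit 7) .nil .nil))) 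
(.lf (nat_lit 181152) (.g (nat_lit 2703) (.e (nat_lit 57847) (nat_lit 252) (.e (nat_lit 57365) (nat_lit 1) (.e (nat_lit 57851) (nat_lit 252) (.e (nat_lit 57427) (nat_lit 15) (.e (nat_lit 360478) (nat_lit 12) (.e (nat_lit 622616) (nat_lit 9) (.e (nat_lit 65565) (nat_lit 1) .nil))))))) (.g (nat_lit 4) .nil .nil)))) (.nd (nat_lit 5) 
(.lf (nat_lit 181136) (.g (nat_lit 3429) (.e (nat_lit 57847) (nat_lit 252) (.e (nat_lit 57365) (nat_lit 1) (.e (nat_lit 57730) (nat_lit 181) (.e (nat_lit 1211) (nat_lit 89) (.e (nat_lit 73754) (nat_lit 8) (.e (nat_lit 557100) (nat_lit 13) (.e (nat_lit 179968) (nat_lit 20) (.e (nat_lit 114711) (nat_lit 21) .nil)))))))) (.g (nat_lit 6) .nil .nil))) 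
(.lf (nat_lit 181168) (.g (nat_lit 2122) (.e (nat_lit 57847) (nat_lit 252) (.e (nat_lit 57365) (nat_lit 1) (.e (nat_lit 57852) (nat_lit 252) (.e (nat_lit 57445) (nat_lit 19) (.e (nat_lit 393217) (nat_lit 0) .nil))))) .nil)))) (.nd (nat_lit 4) (.nd (nat_lit 5) 
(.lf (nat_lit 181128) (.g (nat_lit 1743) (.e (nat_lit 57847) (nat_lit 252) (.e (nat_lit 57365) (nat_lit 1) (.e (nat_lit 57631) (nat_lit 131) (.e (nat_lit 122914) (nat_lit 14) (.e (nat_lit 360192) (nat_lit 18) (.e (nat_lit 483366) (nat_lit 18) .nil)))))) (.g (nat_lit 4) .nil .nil))) 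
(.lf (nat_lit 181160) (.g (nat_lit 2082) (.e (nat_lit 57847) (nat_lit 252) (.e (nat_lit 57365) (nat_lit 1) (.e (nat_lit 57852) (nat_lit 252) (.e (nat_lit 57406) (nat_lit 12) (.e (nat_lit 336446) (nat_lit 33) .nil))))) .nil))) (.nd (nat_lit 5) 
(.lf (nat_lit 181144) (.g (nat_lit 3055) (.e (nat_lit 57847) (nat_lit 252) (.e (nat_lit 57365) (nat_lit 1) (.e (nat_lit 57830) (nat_lit 250) (.e (nat_lit 1201) (nat_lit 88) (.e (nat_lit 65583) (nat_lit 7) (.e (nat_lit 319530) (nat_lit 16) (.e (nat_lit 286742) (nat_lit 9) (.e (nat_lit 335989) (nat_lit 1) .nil)))))))) (.g (nat_lit 7) .nil .nil))) 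
(.lf (nat_lit 181176) (.g (nat_lit 2045) (.e (nat_lit 57847) (nat_lit 252) (.e (nat_lit 57365) (nat_lit 1) (.e (nat_lit 57854) (nat_lit 252) (.e (nat_lit 57389) (nat_lit 5) (.e (nat_lit 114723) (nat_lit 24) (.e (nat_lit 106534) (nat_lit 11) (.e (nat_lit 16487) (nat_lit 27) (.e (nat_lit 335993) (nat_lit 1) .nil)))))))) (.g (nat_lit 4) .nil .nil)))))) 
(.nd (nat_lit 3) (.nd (nat_lit 4) (.nd (nat_lit 5) 
(.lf (nat_lit 181124) (.g (nat_lit 2030) (.e (nat_lit 57847) (nat_lit 252) (.e (nat_lit 57363) (nat_lit 1) (.e (nat_lit 57847) (nat_lit 252) (.e (nat_lit 57445) (nat_lit 19) (.e (nat_lit 393217) (nat_lit 0) .nil))))) .nil)) 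
(.lf (nat_lit 181156) (.g (nat_lit 2030) (.e (nat_lit 57847) (nat_lit 252) (.e (nat_lit 57365) (nat_lit 1) (.e (nat_lit 57851) (nat_lit 252) (.e (nat_lit 57445) (nat_lit 19) (.e (nat_lit 393217) (nat_lit 0) (.e (nat_lit 2186) (nat_lit 144) (.e (nat_lit 720956) (nat_lit 25) (.e (nat_lit 114711) (nat_lit 21) .nil)))))))) (.g (nat_lit 4) .nil .nil)))) (.nd (nat_lit 5) 
(.lf (nat_lit 181140) (.g (nat_lit 2512) (.e (nat_lit 57847) (nat_lit 252) (.e (nat_lit 57365) (nat_lit 1) (.e (nat_lit 57731) (nat_lit 181) (.e (nat_lit 1211) (nat_lit 89) (.e (nat_lit 73754) (nat_lit 8) (.e (nat_lit 557101) (nat_lit 13) (.e (nat_lit 179968) (nat_lit 20) (.e (nat_lit 114711) (nat_lit 21) .nil)))))))) (.g (nat_lit 6) .nil .nil))) 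
(.lf (nat_lit 181172) (.g (nat_lit 194) (.e (nat_lit 57847) (nat_lit 252) (.e (nat_lit 57365) (nat_lit 1) (.e (nat_lit 57854) (nat_lit 252) .nil))) .nil)))) (.nd (nat_lit 4) (.nd (nat_lit 5) 
(.lf (nat_lit 181132) (.g (nat_lit 2248) (.e (nat_lit 57847) (nat_lit 252) (.e (nat_lit 57365) (nat_lit 1) (.e (nat_lit 57729) (nat_lit 181) (.e (nat_lit 1211) (nat_lit 89) (.e (nat_lit 73754) (nat_lit 8) (.e (nat_lit 557101) (nat_lit 13) (.e (nat_lit 179968) (nat_lit 20) (.e (nat_lit 114710) (nat_lit 21) .nil)))))))) (.g (nat_lit 6) .nil .nil))) 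
(.lf (nat_lit 181164) (.g (nat_lit 3144) (.e (nat_lit 57847) (nat_lit 252) (.e (nat_lit 57365) (nat_lit 1) (.e (nat_lit 57852) (nat_lit 252) (.e (nat_lit 57406) (nat_lit 12) (.e (nat_lit 336450) (nat_lit 33) (.e (nat_lit 475213) (nat_lit 42) (.e (nat_lit 720956) (nat_lit 25) (.e (nat_lit 114711) (nat_lit 21) .nil)))))))) (.g (nat_lit 5) .nil .nil)))) (.nd (nat_lit 5) 
(.lf (nat_lit 181148) (.g (nat_lit 3723) (.e (nat_lit 57847) (nat_lit 252) (.e (nat_lit 57365) (nat_lit 1) (.e (nat_lit 57851) (nat_lit 252) (.e (nat_lit 57406) (nat_lit 12) (.e (nat_lit 336450) (nat_lit 33) (.e (nat_lit 475212) (nat_lit 42) (.e (nat_lit 720956) (nat_lit 25) (.e (nat_lit 114711) (nat_lit 21) .nil)))))))) (.g (nat_lit 6) .nil .nil))) 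
(.lf (nat_lit 181180) (.g (nat_lit 2698) (.e (nat_lit 57847) (nat_lit 252) (.e (nat_lit 57365) (nat_lit 1) (.e (nat_lit 57854) (nat_lit 252) (.e (nat_lit 57409) (nat_lit 12) (.e (nat_lit 336182) (nat_lit 11) (.e (nat_lit 368689) (nat_lit 34) (.e (nat_lit 622616) (nat_lit 9) (.e (nat_lit 65563) (nat_lit 1) .nil)))))))) (.g (nat_lit 4) .nil .nil))))))) 
(.nd (nat_lit 2) (.nd (nat_lit 3) (.nd (nat_lit 4) (.nd (nat_lit 5) 
(.lf (nat_lit 181122) (.g (nat_lit 2617) (.e (nat_lit 57847) (nat_lit 252) (.e (nat_lit 57363) (nat_lit 1) (.e (nat_lit 57847) (nat_lit 252) (.e (nat_lit 57411) (nat_lit 12) (.e (nat_lit 336240) (nat_lit 15) (.e (nat_lit 3453) (nat_lit 216) (.e (nat_lit 688185) (nat_lit 18) (.e (nat_lit 81950) (nat_lit 21) .nil)))))))) (.g (nat_lit 4) .nil .nil))) 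
(.lf (nat_lit 181154) (.g (nat_lit 2311) (.e (nat_lit 57847) (nat_lit 252) (.e (nat_lit 57365) (nat_lit 1) (.e (nat_lit 57851) (nat_lit 252) (.e (nat_lit 57427) (nat_lit 15) (.e (nat_lit 360484) (nat_lit 15) (.e (nat_lit 647171) (nat_lit 0) (.e (nat_lit 284) (nat_lit 21) (.e (nat_lit 335993) (nat_lit 1) .nil)))))))) (.g (nat_lit 4) .nil .nil)))) (.nd (nat_lit 5) 
(.lf (nat_lit 181138) (.g (nat_lit 3270) (.e (nat_lit 57847) (nat_lit 252) (.e (nat_lit 57365) (nat_lit 1) (.e (nat_lit 57731) (nat_lit 181) (.e (nat_lit 1209) (nat_lit 89) (.e (nat_lit 73753) (nat_lit 8) (.e (nat_lit 557098) (nat_lit 13) (.e (nat_lit 179968) (nat_lit 20) (.e (nat_lit 114711) (nat_lit 21) .nil)))))))) (.g (nat_lit 6) .nil .nil))) 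
(.lf (nat_lit 181170) (.g (nat_lit 2616) (.e (nat_lit 57847) (nat_lit 252) (.e (nat_lit 57365) (nat_lit 1) (.e (nat_lit 57852) (nat_lit 252) (.e (nat_lit 57445) (nat_lit 19) (.e (nat_lit 393217) (nat_lit 0) (.e (nat_lit 2189) (nat_lit 144) (.e (nat_lit 720956) (nat_lit 25) (.e (nat_lit 114711) (nat_lit 21) .nil)))))))) (.g (nat_lit 4) .nil .nil))))) (.nd (nat_lit 4) (.nd (nat_lit 5) 
(.lf (nat_lit 181130) (.g (nat_lit 3040) (.e (nat_lit 57847) (nat_lit 252) (.e (nat_lit 57365) (nat_lit 1) (.e (nat_lit 57724) (nat_lit 181) (.e (nat_lit 1211) (nat_lit 89) (.e (nat_lit 73755) (nat_lit 8) (.e (nat_lit 557098) (nat_lit 13) (.e (nat_lit 179968) (nat_lit 20) (.e (nat_lit 114710) (nat_lit 21) .nil)))))))) (.g (nat_lit 6) .nil .nil))) 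
(.lf (nat_lit 181162) (.g (nat_lit 2040) (.e (nat_lit 57847) (nat_lit 252) (.e (nat_lit 57365) (nat_lit 1) (.e (nat_lit 57852) (nat_lit 252) (.e (nat_lit 57406) (nat_lit 12) (.e (nat_lit 336450) (nat_lit 33) .nil))))) .nil))) (.nd (nat_lit 5) 
(.lf (nat_lit 181146) (.g (nat_lit 3363) (.e (nat_lit 57847) (nat_lit 252) (.e (nat_lit 57365) (nat_lit 1) (.e (nat_lit 57851) (nat_lit 252) (.e (nat_lit 57406) (nat_lit 12) (.e (nat_lit 336448) (nat_lit 33) (.e (nat_lit 475214) (nat_lit 42) (.e (nat_lit 720956) (nat_lit 25) (.e (nat_lit 114711) (nat_lit 21) .nil)))))))) (.g (nat_lit 6) .nil .nil))) 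
(.lf (nat_lit 181178) (.g (nat_lit 1821) (.e (nat_lit 57847) (nat_lit 252) (.e (nat_lit 57365) (nat_lit 1) (.e (nat_lit 57854) (nat_lit 252) (.e (nat_lit 57406) (nat_lit 12) (.e (nat_lit 336445) (nat_lit 33) .nil))))) .nil))))) (.nd (nat_lit 3) (.nd (nat_lit 4) (.nd (nat_lit 5) 
(.lf (nat_lit 181126) (.g (nat_lit 2492) (.e (nat_lit 57847) (nat_lit 252) (.e (nat_lit 57363) (nat_lit 1) (.e (nat_lit 57847) (nat_lit 252) (.e (nat_lit 57445) (nat_lit 19) (.e (nat_lit 393217) (nat_lit 0) (.e (nat_lit 2189) (nat_lit 144) (.e (nat_lit 720956) (nat_lit 25) (.e (nat_lit 114711) (nat_lit 21) .nil)))))))) (.g (nat_lit 4) .nil .nil))) 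
(.lf (nat_lit 181158) (.g (nat_lit 1722) (.e (nat_lit 57847) (nat_lit 252) (.e (nat_lit 57365) (nat_lit 1) (.e (nat_lit 57851) (nat_lit 252) (.e (nat_lit 57445) (nat_lit 19) (.e (nat_lit 393223) (nat_lit 0) .nil))))) .nil))) (.nd (nat_lit 5) 
(.lf (nat_lit 181142) (.g (nat_lit 4527) (.e (nat_lit 57847) (nat_lit 252) (.e (nat_lit 57365) (nat_lit 1) (.e (nat_lit 57754) (nat_lit 209) (.e (nat_lit 1199) (nat_lit 88) (.e (nat_lit 65610) (nat_lit 10) (.e (nat_lit 344117) (nat_lit 21) (.e (nat_lit 516195) (nat_lit 26) (.e (nat_lit 335995) (nat_lit 1) .nil)))))))) (.g (nat_lit 7) .nil .nil))) 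
(.lf (nat_lit 181174) (.g (nat_lit 3200) (.e (nat_lit 57847) (nat_lit 252) (.e (nat_lit 57365) (nat_lit 1) (.e (nat_lit 57854) (nat_lit 252) (.e (nat_lit 57373) (nat_lit 2) (.e (nat_lit 98048) (nat_lit 6) (.e (nat_lit 81960) (nat_lit 25) (.e (nat_lit 139271) (nat_lit 0) (.e (nat_lit 1181) (nat_lit 87) .nil)))))))) (.g (nat_lit 4) .nil .nil))))) (.nd (nat_lit 4) (.nd (nat_lit 5) 
(.lf (nat_lit 181134) (.g (nat_lit 3039) (.e (nat_lit 57847) (nat_lit 252) (.e (nat_lit 57365) (nat_lit 1) (.e (nat_lit 57730) (nat_lit 181) (.e (nat_lit 1209) (nat_lit 89) (.e (nat_lit 73753) (nat_lit 8) (.e (nat_lit 557101) (nat_lit 13) (.e (nat_lit 179968) (nat_lit 20) (.e (nat_lit 114711) (nat_lit 21) .nil)))))))) (.g (nat_lit 6) .nil .nil))) 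
(.lf (nat_lit 181166) (.g (nat_lit 1180) (.e (nat_lit 57847) (nat_lit 252) (.e (nat_lit 57365) (nat_lit 1) (.e (nat_lit 57852) (nat_lit 252) (.e (nat_lit 57427) (nat_lit 15) .nil)))) .nil))) (.nd (nat_lit 5) 
(.lf (nat_lit 181150) (.g (nat_lit 3797) (.e (nat_lit 57847) (nat_lit 252) (.e (nat_lit 57365) (nat_lit 1) (.e (nat_lit 57851) (nat_lit 252) (.e (nat_lit 57412) (nat_lit 12) (.e (nat_lit 336061) (nat_lit 7) (.e (nat_lit 319531) (nat_lit 16) (.e (nat_lit 286750) (nat_lit 9) (.e (nat_lit 335993) (nat_lit 1) .nil)))))))) (.g (nat_lit 6) .nil .nil))) 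
(.lf (nat_lit 181182) (.g (nat_lit 3045) (.e (nat_lit 57847) (nat_lit 252) (.e (nat_lit 57365) (nat_lit 1) (.e (nat_lit 57854) (nat_lit 252) (.e (nat_lit 57409) (nat_lit 12) (.e (nat_lit 336240) (nat_lit 15) (.e (nat_lit 3453) (nat_lit 216) (.e (nat_lit 688184) (nat_lit 18) (.e (nat_lit 81948) (nat_lit 21) .nil)))))))) (.g (nat_lit 4) .nil .nil)))))))) 
(.nd (nat_lit 1) (.nd (nat_lit 2) (.nd (nat_lit 3) (.nd (nat_lit 4) (.nd (nat_lit 5) 
(.lf (nat_lit 181121) (.g (nat_lit 3350) (.e (nat_lit 57847) (nat_lit 252) (.e (nat_lit 57363) (nat_lit 1) (.e (nat_lit 57847) (nat_lit 252) (.e (nat_lit 57407) (nat_lit 12) (.e (nat_lit 336446) (nat_lit 33) (.e (nat_lit 475212) (nat_lit 42) (.e (nat_lit 720956) (nat_lit 25) (.e (nat_lit 114711) (nat_lit 21) .nil)))))))) (.g (nat_lit 6) .nil .nil))) 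
(.lf (nat_lit 181153) (.g (nat_lit 2314) (.e (nat_lit 57847) (nat_lit 252) (.e (nat_lit 57365) (nat_lit 1) (.e (nat_lit 57851) (nat_lit 252) (.e (nat_lit 57427) (nat_lit 15) (.e (nat_lit 360483) (nat_lit 15) (.e (nat_lit 647171) (nat_lit 0) (.e (nat_lit 284) (nat_lit 21) (.e (nat_lit 335993) (nat_lit 1) .nil)))))))) (.g (nat_lit 4) .nil .nil)))) (.nd (nat_lit 5) 
(.lf (nat_lit 181137) (.g (nat_lit 2194) (.e (nat_lit 57847) (nat_lit 252) (.e (nat_lit 57365) (nat_lit 1) (.e (nat_lit 57730) (nat_lit 181) (.e (nat_lit 1211) (nat_lit 89) (.e (nat_lit 73754) (nat_lit 8) (.e (nat_lit 557101) (nat_lit 13) (.e (nat_lit 179968) (nat_lit 20) (.e (nat_lit 114710) (nat_lit 21) .nil)))))))) (.g (nat_lit 6) .nil .nil))) 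
(.lf (nat_lit 181169) (.g (nat_lit 2528) (.e (nat_lit 57847) (nat_lit 252) (.e (nat_lit 57365) (nat_lit 1) (.e (nat_lit 57852) (nat_lit 252) (.e (nat_lit 57445) (nat_lit 19) (.e (nat_lit 393217) (nat_lit 0) (.e (nat_lit 2186) (nat_lit 144) (.e (nat_lit 720956) (nat_lit 25) (.e (nat_lit 114711) (nat_lit 21) .nil)))))))) (.g (nat_lit 4) .nil .nil))))) (.nd (nat_lit 4) (.nd (nat_lit 5) 
(.lf (nat_lit 181129) (.g (nat_lit 2525) (.e (nat_lit 57847) (nat_lit 252) (.e (nat_lit 57365) (nat_lit 1) (.e (nat_lit 57724) (nat_lit 181) (.e (nat_lit 1211) (nat_lit 89) (.e (nat_lit 73754) (nat_lit 8) (.e (nat_lit 557101) (nat_lit 13) (.e (nat_lit 179968) (nat_lit 20) (.e (nat_lit 114711) (nat_lit 21) .nil)))))))) (.g (nat_lit 6) .nil .nil))) 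
(.lf (nat_lit 181161) (.g (nat_lit 2040) (.e (nat_lit 57847) (nat_lit 252) (.e (nat_lit 57365) (nat_lit 1) (.e (nat_lit 57852) (nat_lit 252) (.e (nat_lit 57406) (nat_lit 12) (.e (nat_lit 336448) (nat_lit 33) .nil))))) .nil))) (.nd (nat_lit 5) 
(.lf (nat_lit 181145) (.g (nat_lit 3719) (.e (nat_lit 57847) (nat_lit 252) (.e (nat_lit 57365) (nat_lit 1) (.e (nat_lit 57851) (nat_lit 252) (.e (nat_lit 57354) (nat_lit 0) (.e (nat_lit 1855) (nat_lit 124) (.e (nat_lit 557109) (nat_lit 15) (.e (nat_lit 188461) (nat_lit 26) (.e (nat_lit 253959) (nat_lit 9) (.e (nat_lit 1170) (nat_lit 87) .nil))))))))) (.g (nat_lit 6) .nil .nil))) 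
(.lf (nat_lit 181177) (.g (nat_lit 3014) (.e (nat_lit 57847) (nat_lit 252) (.e (nat_lit 57365) (nat_lit 1) (.e (nat_lit 57854) (nat_lit 252) (.e (nat_lit 57406) (nat_lit 12) (.e (nat_lit 336240) (nat_lit 15) (.e (nat_lit 3453) (nat_lit 216) (.e (nat_lit 688185) (nat_lit 18) (.e (nat_lit 81950) (nat_lit 21) .nil)))))))) (.g (nat_lit 4) .nil .nil)))))) 
(.nd (nat_lit 3) (.nd (nat_lit 4) (.nd (nat_lit 5) 
(.lf (nat_lit 181125) (.g (nat_lit 2404) (.e (nat_lit 57847) (nat_lit 252) (.e (nat_lit 57363) (nat_lit 1) (.e (nat_lit 57847) (nat_lit 252) (.e (nat_lit 57445) (nat_lit 19) (.e (nat_lit 393217) (nat_lit 0) (.e (nat_lit 2186) (nat_lit 144) (.e (nat_lit 720956) (nat_lit 25) (.e (nat_lit 114711) (nat_lit 21) .nil)))))))) (.g (nat_lit 4) .nil .nil))) 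
(.lf (nat_lit 181157) (.g (nat_lit 2118) (.e (nat_lit 57847) (nat_lit 252) (.e (nat_lit 57365) (nat_lit 1) (.e (nat_lit 57851) (nat_lit 252) (.e (nat_lit 57445) (nat_lit 19) (.e (nat_lit 393217) (nat_lit 0) (.e (nat_lit 2189) (nat_lit 144) (.e (nat_lit 720956) (nat_lit 25) (.e (nat_lit 114711) (nat_lit 21) .nil)))))))) (.g (nat_lit 4) .nil .nil)))) (.nd (nat_lit 5) 
(.lf (nat_lit 181141) (.g (nat_lit 3020) (.e (nat_lit 57847) (nat_lit 252) (.e (nat_lit 57365) (nat_lit 1) (.e (nat_lit 57731) (nat_lit 181) (.e (nat_lit 1211) (nat_lit 89) (.e (nat_lit 73755) (nat_lit 8) (.e (nat_lit 557098) (nat_lit 13) (.e (nat_lit 179968) (nat_lit 20) (.e (nat_lit 114710) (nat_lit 21) .nil)))))))) (.g (nat_lit 6) .nil .nil))) 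
(.lf (nat_lit 181173) (.g (nat_lit 3061) (.e (nat_lit 57847) (nat_lit 252) (.e (nat_lit 57365) (nat_lit 1) (.e (nat_lit 57854) (nat_lit 252) (.e (nat_lit 57373) (nat_lit 2) (.e (nat_lit 98048) (nat_lit 6) .nil))))) .nil)))) (.nd (nat_lit 4) (.nd (nat_lit 5) 
(.lf (nat_lit 181133) (.g (nat_lit 3236) (.e (nat_lit 57847) (nat_lit 252) (.e (nat_lit 57365) (nat_lit 1) (.e (nat_lit 57730) (nat_lit 181) (.e (nat_lit 1209) (nat_lit 89) (.e (nat_lit 73753) (nat_lit 8) (.e (nat_lit 557098) (nat_lit 13) (.e (nat_lit 179968) (nat_lit 20) (.e (nat_lit 114711) (nat_lit 21) .nil)))))))) (.g (nat_lit 6) .nil .nil))) 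
(.lf (nat_lit 181165) (.g (nat_lit 1573) (.e (nat_lit 57847) (nat_lit 252) (.e (nat_lit 57365) (nat_lit 1) (.e (nat_lit 57852) (nat_lit 252) (.e (nat_lit 57420) (nat_lit 13) (.e (nat_lit 344144) (nat_lit 31) .nil))))) .nil))) (.nd (nat_lit 5) 
(.lf (nat_lit 181149) (.g (nat_lit 2190) (.e (nat_lit 57847) (nat_lit 252) (.e (nat_lit 57365) (nat_lit 1) (.e (nat_lit 57851) (nat_lit 252) (.e (nat_lit 57412) (nat_lit 12) (.e (nat_lit 336061) (nat_lit 7) (.e (nat_lit 319531) (nat_lit 16) (.e (nat_lit 286747) (nat_lit 9) (.e (nat_lit 335989) (nat_lit 1) .nil)))))))) (.g (nat_lit 4) .nil .nil))) 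
(.lf (nat_lit 181181) (.g (nat_lit 2804) (.e (nat_lit 57847) (nat_lit 252) (.e (nat_lit 57365) (nat_lit 1) (.e (nat_lit 57854) (nat_lit 252) (.e (nat_lit 57409) (nat_lit 12) (.e (nat_lit 336182) (nat_lit 11) (.e (nat_lit 368689) (nat_lit 34) (.e (nat_lit 622616) (nat_lit 9) (.e (nat_lit 65565) (nat_lit 1) .nil)))))))) (.g (nat_lit 4) .nil .nil))))))) 
(.nd (nat_lit 2) (.nd (nat_lit 3) (.nd (nat_lit 4) (.nd (nat_lit 5) 
(.lf (nat_lit 181123) (.g (nat_lit 1712) (.e (nat_lit 57847) (nat_lit 252) (.e (nat_lit 57363) (nat_lit 1) (.e (nat_lit 57847) (nat_lit 252) (.e (nat_lit 57411) (nat_lit 12) (.e (nat_lit 336445) (nat_lit 33) .nil))))) .nil)) 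
(.lf (nat_lit 181155) (.g (nat_lit 2660) (.e (nat_lit 57847) (nat_lit 252) (.e (nat_lit 57365) (nat_lit 1) (.e (nat_lit 57851) (nat_lit 252) (.e (nat_lit 57427) (nat_lit 15) (.e (nat_lit 360484) (nat_lit 15) (.e (nat_lit 647179) (nat_lit 2) (.e (nat_lit 24597) (nat_lit 1) .nil))))))) (.g (nat_lit 4) .nil .nil)))) (.nd (nat_lit 5) 
(.lf (nat_lit 181139) (.g (nat_lit 3074) (.e (nat_lit 57847) (nat_lit 252) (.e (nat_lit 57365) (nat_lit 1) (.e (nat_lit 57731) (nat_lit 181) (.e (nat_lit 1209) (nat_lit 89) (.e (nat_lit 73753) (nat_lit 8) (.e (nat_lit 557101) (nat_lit 13) (.e (nat_lit 179968) (nat_lit 20) (.e (nat_lit 114711) (nat_lit 21) .nil)))))))) (.g (nat_lit 6) .nil .nil))) 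
(.lf (nat_lit 181171) (.g (nat_lit 2128) (.e (nat_lit 57847) (nat_lit 252) (.e (nat_lit 57365) (nat_lit 1) (.e (nat_lit 57852) (nat_lit 252) (.e (nat_lit 57445) (nat_lit 19) (.e (nat_lit 393223) (nat_lit 0) .nil))))) .nil)))) (.nd (nat_lit 4) (.nd (nat_lit 5) 
(.lf (nat_lit 181131) (.g (nat_lit 3184) (.e (nat_lit 57847) (nat_lit 252) (.e (nat_lit 57365) (nat_lit 1) (.e (nat_lit 57729) (nat_lit 181) (.e (nat_lit 1211) (nat_lit 89) (.e (nat_lit 73754) (nat_lit 8) (.e (nat_lit 557100) (nat_lit 13) (.e (nat_lit 179968) (nat_lit 20) (.e (nat_lit 114710) (nat_lit 21) .nil)))))))) (.g (nat_lit 6) .nil .nil))) 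
(.lf (nat_lit 181163) (.g (nat_lit 4031) (.e (nat_lit 57847) (nat_lit 252) (.e (nat_lit 57365) (nat_lit 1) (.e (nat_lit 57852) (nat_lit 252) (.e (nat_lit 57406) (nat_lit 12) (.e (nat_lit 336450) (nat_lit 33) (.e (nat_lit 475212) (nat_lit 42) (.e (nat_lit 720956) (nat_lit 25) (.e (nat_lit 114711) (nat_lit 21) .nil)))))))) (.g (nat_lit 6) .nil .nil)))) (.nd (nat_lit 5) 
(.lf (nat_lit 181147) (.g (nat_lit 1808) (.e (nat_lit 57847) (nat_lit 252) (.e (nat_lit 57365) (nat_lit 1) (.e (nat_lit 57851) (nat_lit 252) (.e (nat_lit 57406) (nat_lit 12) (.e (nat_lit 336450) (nat_lit 33) .nil))))) .nil)) 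
(.lf (nat_lit 181179) (.g (nat_lit 2016) (.e (nat_lit 57847) (nat_lit 252) (.e (nat_lit 57365) (nat_lit 1) (.e (nat_lit 57854) (nat_lit 252) (.e (nat_lit 57406) (nat_lit 12) (.e (nat_lit 336445) (nat_lit 33) (.e (nat_lit 475213) (nat_lit 42) (.e (nat_lit 720956) (nat_lit 25) (.e (nat_lit 114711) (nat_lit 21) .nil)))))))) (.g (nat_lit 4) .nil .nil)))))) 
(.nd (nat_lit 3) (.nd (nat_lit 4) (.nd (nat_lit 5) 
(.lf (nat_lit 181127) (.g (nat_lit 2420) (.e (nat_lit 57847) (nat_lit 252) (.e (nat_lit 57363) (nat_lit 1) (.e (nat_lit 57849) (nat_lit 252) (.e (nat_lit 57407) (nat_lit 12) (.e (nat_lit 336446) (nat_lit 33) .nil))))) .nil)) 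
(.lf (nat_lit 181159) (.g (nat_lit 3750) (.e (nat_lit 57847) (nat_lit 252) (.e (nat_lit 57365) (nat_lit 1) (.e (nat_lit 57852) (nat_lit 252) (.e (nat_lit 57406) (nat_lit 12) (.e (nat_lit 336445) (nat_lit 33) (.e (nat_lit 475214) (nat_lit 42) (.e (nat_lit 720956) (nat_lit 25) (.e (nat_lit 114711) (nat_lit 21) .nil)))))))) (.g (nat_lit 6) .nil .nil)))) (.nd (nat_lit 5) 
(.lf (nat_lit 181143) (.g (nat_lit 2023) (.e (nat_lit 57847) (nat_lit 252) (.e (nat_lit 57365) (nat_lit 1) (.e (nat_lit 57829) (nat_lit 250) (.e (nat_lit 1201) (nat_lit 88) (.e (nat_lit 65583) (nat_lit 7) (.e (nat_lit 319530) (nat_lit 16) (.e (nat_lit 286747) (nat_lit 9) (.e (nat_lit 335989) (nat_lit 1) .nil)))))))) (.g (nat_lit 4) .nil .nil))) 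
(.lf (nat_lit 181175) (.g (nat_lit 3452) (.e (nat_lit 57847) (nat_lit 252) (.e (nat_lit 57365) (nat_lit 1) (.e (nat_lit 57854) (nat_lit 252) (.e (nat_lit 57373) (nat_lit 2) (.e (nat_lit 98048) (nat_lit 6) (.e (nat_lit 81960) (nat_lit 25) (.e (nat_lit 139273) (nat_lit 0) (.e (nat_lit 1170) (nat_lit 87) .nil)))))))) (.g (nat_lit 4) .nil .nil))))) (.nd (nat_lit 4) (.nd (nat_lit 5) 
(.lf (nat_lit 181135) (.g (nat_lit 3130) (.e (nat_lit 57847) (nat_lit 252) (.e (nat_lit 57365) (nat_lit 1) (.e (nat_lit 57730) (nat_lit 181) (.e (nat_lit 1211) (nat_lit 89) (.e (nat_lit 73754) (nat_lit 8) (.e (nat_lit 557100) (nat_lit 13) (.e (nat_lit 179968) (nat_lit 20) (.e (nat_lit 114710) (nat_lit 21) .nil)))))))) (.g (nat_lit 6) .nil .nil))) 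
(.lf (nat_lit 181167) (.g (nat_lit 2908) (.e (nat_lit 57847) (nat_lit 252) (.e (nat_lit 57365) (nat_lit 1) (.e (nat_lit 57852) (nat_lit 252) (.e (nat_lit 57427) (nat_lit 15) (.e (nat_lit 360483) (nat_lit 15) (.e (nat_lit 647179) (nat_lit 2) (.e (nat_lit 24597) (nat_lit 1) .nil))))))) (.g (nat_lit 4) .nil .nil)))) (.nd (nat_lit 5) 
(.lf (nat_lit 181151) (.g (nat_lit 2569) (.e (nat_lit 57847) (nat_lit 252) (.e (nat_lit 57365) (nat_lit 1) (.e (nat_lit 57851) (nat_lit 252) (.e (nat_lit 57427) (nat_lit 15) (.e (nat_lit 360478) (nat_lit 12) (.e (nat_lit 622616) (nat_lit 9) (.e (nat_lit 65563) (nat_lit 1) .nil))))))) (.g (nat_lit 4) .nil .nil))) 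
(.lf (nat_lit 181183) (.g (nat_lit 2053) (.e (nat_lit 57847) (nat_lit 252) (.e (nat_lit 57365) (nat_lit 1) (.e (nat_lit 57854) (nat_lit 252) (.e (nat_lit 57409) (nat_lit 12) (.e (nat_lit 336445) (nat_lit 33) .nil))))) .nil))))))))

noncomputable def tv2426 : DT := (.nd (nat_lit 0) (.nd (nat_lit 1) (.nd (nat_lit 2) (.nd (nat_lit 3) (.nd (nat_lit 4) (.nd (nat_lit 5) 
(.lf (nat_lit 181184) (.g (nat_lit 2338) (.e (nat_lit 57847) (nat_lit 252) (.e (nat_lit 57365) (nat_lit 1) (.e (nat_lit 57854) (nat_lit 252) (.e (nat_lit 57409) (nat_lit 12) (.e (nat_lit 336445) (nat_lit 33) (.e (nat_lit 475213) (nat_lit 42) (.e (nat_lit 720956) (nat_lit 25) (.e (nat_lit 114711) (nat_lit 21) .nil)))))))) (.g (nat_lit 4) .nil .nil))) 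
(.lf (nat_lit 181216) (.g (nat_lit 1708) (.e (nat_lit 57847) (nat_lit 252) (.e (nat_lit 57368) (nat_lit 1) (.e (nat_lit 57852) (nat_lit 252) (.e (nat_lit 57445) (nat_lit 19) (.e (nat_lit 393223) (nat_lit 0) .nil))))) .nil))) (.nd (nat_lit 5) 
(.lf (nat_lit 181200) (.g (nat_lit 3809) (.e (nat_lit 57847) (nat_lit 252) (.e (nat_lit 57365) (nat_lit 1) (.e (nat_lit 57854) (nat_lit 252) (.e (nat_lit 57447) (nat_lit 19) (.e (nat_lit 393252) (nat_lit 18) (.e (nat_lit 164330) (nat_lit 230) (.e (nat_lit 171776) (nat_lit 66) (.e (nat_lit 114711) (nat_lit 21) .nil)))))))) (.g (nat_lit 6) .nil .nil))) 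
(.lf (nat_lit 181232) (.g (nat_lit 1495) (.e (nat_lit 57847) (nat_lit 252) (.e (nat_lit 57368) (nat_lit 1) (.e (nat_lit 57854) (nat_lit 252) (.e (nat_lit 57427) (nat_lit 15) .nil)))) .nil)))) (.nd (nat_lit 4) (.nd (nat_lit 5) 
(.lf (nat_lit 181192) (.g (nat_lit 2029) (.e (nat_lit 57847) (nat_lit 252) (.e (nat_lit 57365) (nat_lit 1) (.e (nat_lit 57854) (nat_lit 252) (.e (nat_lit 57445) (nat_lit 19) (.e (nat_lit 393222) (nat_lit 0) (.e (nat_lit 2187) (nat_lit 144) (.e (nat_lit 720956) (nat_lit 25) (.e (nat_lit 114711) (nat_lit 21) .nil)))))))) (.g (nat_lit 4) .nil .nil))) 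
(.lf (nat_lit 181224) (.g (nat_lit 2421) (.e (nat_lit 57847) (nat_lit 252) (.e (nat_lit 57368) (nat_lit 1) (.e (nat_lit 57854) (nat_lit 252) (.e (nat_lit 57409) (nat_lit 12) (.e (nat_lit 336182) (nat_lit 11) .nil))))) .nil))) (.nd (nat_lit 5) 
(.lf (nat_lit 181208) (.g (nat_lit 1843) (.e (nat_lit 57847) (nat_lit 252) (.e (nat_lit 57368) (nat_lit 1) (.e (nat_lit 57851) (nat_lit 252) (.e (nat_lit 57406) (nat_lit 12) (.e (nat_lit 336445) (nat_lit 33) .nil))))) .nil)) 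
(.lf (nat_lit 181240) (.g (nat_lit 2414) (.e (nat_lit 57847) (nat_lit 252) (.e (nat_lit 57368) (nat_lit 1) (.e (nat_lit 57854) (nat_lit 252) (.e (nat_lit 57447) (nat_lit 19) (.e (nat_lit 393217) (nat_lit 0) .nil))))) .nil))))) (.nd (nat_lit 3) (.nd (nat_lit 4) (.nd (nat_lit 5) 
(.lf (nat_lit 181188) (.g (nat_lit 2258) (.e (nat_lit 57847) (nat_lit 252) (.e (nat_lit 57365) (nat_lit 1) (.e (nat_lit 57854) (nat_lit 252) (.e (nat_lit 57427) (nat_lit 15) (.e (nat_lit 360484) (nat_lit 15) .nil))))) .nil)) 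
(.lf (nat_lit 181220) (.g (nat_lit 3444) (.e (nat_lit 57847) (nat_lit 252) (.e (nat_lit 57368) (nat_lit 1) (.e (nat_lit 57854) (nat_lit 252) (.e (nat_lit 57373) (nat_lit 2) (.e (nat_lit 98048) (nat_lit 6) (.e (nat_lit 81960) (nat_lit 25) (.e (nat_lit 139273) (nat_lit 0) (.e (nat_lit 1170) (nat_lit 87) .nil)))))))) (.g (nat_lit 4) .nil .nil)))) (.nd (nat_lit 5) 
(.lf (nat_lit 181204) (.g (nat_lit 4022) (.e (nat_lit 57847) (nat_lit 252) (.e (nat_lit 57368) (nat_lit 1) (.e (nat_lit 57754) (nat_lit 209) (.e (nat_lit 1190) (nat_lit 88) (.e (nat_lit 65619) (nat_lit 10) (.e (nat_lit 344117) (nat_lit 21) (.e (nat_lit 516195) (nat_lit 26) (.e (nat_lit 335995) (nat_lit 1) .nil)))))))) (.g (nat_lit 7) .nil .nil))) 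
(.lf (nat_lit 181236) (.g (nat_lit 2043) (.e (nat_lit 57847) (nat_lit 252) (.e (nat_lit 57368) (nat_lit 1) (.e (nat_lit 57854) (nat_lit 252) (.e (nat_lit 57445) (nat_lit 19) (.e (nat_lit 393222) (nat_lit 0) .nil))))) .nil)))) (.nd (nat_lit 4) (.nd (nat_lit 5) 
(.lf (nat_lit 181196) (.g (nat_lit 2019) (.e (nat_lit 57847) (nat_lit 252) (.e (nat_lit 57365) (nat_lit 1) (.e (nat_lit 57854) (nat_lit 252) (.e (nat_lit 57447) (nat_lit 19) (.e (nat_lit 393219) (nat_lit 0) .nil))))) .nil)) 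
(.lf (nat_lit 181228) (.g (nat_lit 3681) (.e (nat_lit 57847) (nat_lit 252) (.e (nat_lit 57368) (nat_lit 1) (.e (nat_lit 57854) (nat_lit 252) (.e (nat_lit 57409) (nat_lit 12) (.e (nat_lit 336450) (nat_lit 33) (.e (nat_lit 475213) (nat_lit 42) (.e (nat_lit 720956) (nat_lit 25) (.e (nat_lit 114711) (nat_lit 21) .nil)))))))) (.g (nat_lit 5) .nil .nil)))) (.nd (nat_lit 5) 
(.lf (nat_lit 181212) (.g (nat_lit 1546) (.e (nat_lit 57847) (nat_lit 252) (.e (nat_lit 57368) (nat_lit 1) (.e (nat_lit 57852) (nat_lit 252) (.e (nat_lit 57406) (nat_lit 12) (.e (nat_lit 336448) (nat_lit 33) .nil))))) .nil)) 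
(.lf (nat_lit 181244) (.g (nat_lit 2911) (.e (nat_lit 57847) (nat_lit 252) (.e (nat_lit 57368) (nat_lit 1) (.e (nat_lit 57854) (nat_lit 252) (.e (nat_lit 57447) (nat_lit 19) (.e (nat_lit 393222) (nat_lit 0) (.e (nat_lit 2185) (nat_lit 144) (.e (nat_lit 720956) (nat_lit 25) (.e (nat_lit 114711) (nat_lit 21) .nil)))))))) (.g (nat_lit 4) .nil .nil))))))) 
(.nd (nat_lit 2) (.nd (nat_lit 3) (.nd (nat_lit 4) (.nd (nat_lit 5) 
(.lf (nat_lit 181186) (.g (nat_lit 2181) (.e (nat_lit 57847) (nat_lit 252) (.e (nat_lit 57365) (nat_lit 1) (.e (nat_lit 57854) (nat_lit 252) (.e (nat_lit 57427) (nat_lit 15) (.e (nat_lit 360483) (nat_lit 15) .nil))))) .nil)) 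
(.lf (nat_lit 181218) (.g (nat_lit 194) (.e (nat_lit 57847) (nat_lit 252) (.e (nat_lit 57368) (nat_lit 1) (.e (nat_lit 57854) (nat_lit 252) .nil))) .nil))) (.nd (nat_lit 5) 
(.lf (nat_lit 181202) (.g (nat_lit 1668) (.e (nat_lit 57847) (nat_lit 252) (.e (nat_lit 57367) (nat_lit 1) (.e (nat_lit 57847) (nat_lit 252) (.e (nat_lit 57411) (nat_lit 12) (.e (nat_lit 336446) (nat_lit 33) .nil))))) .nil)) 
(.lf (nat_lit 181234) (.g (nat_lit 3152) (.e (nat_lit 57847) (nat_lit 252) (.e (nat_lit 57368) (nat_lit 1) (.e (nat_lit 57854) (nat_lit 252) (.e (nat_lit 57427) (nat_lit 15) (.e (nat_lit 360483) (nat_lit 15) (.e (nat_lit 647179) (nat_lit 2) (.e (nat_lit 24597) (nat_lit 1) .nil))))))) (.g (nat_lit 4) .nil .nil))))) (.nd (nat_lit 4) (.nd (nat_lit 5) 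
(.lf (nat_lit 181194) (.g (nat_lit 2084) (.e (nat_lit 57847) (nat_lit 252) (.e (nat_lit 57365) (nat_lit 1) (.e (nat_lit 57854) (nat_lit 252) (.e (nat_lit 57447) (nat_lit 19) (.e (nat_lit 393217) (nat_lit 0) .nil))))) .nil)) 
(.lf (nat_lit 181226) (.g (nat_lit 4294) (.e (nat_lit 57847) (nat_lit 252) (.e (nat_lit 57368) (nat_lit 1) (.e (nat_lit 57854) (nat_lit 252) (.e (nat_lit 57409) (nat_lit 12) (.e (nat_lit 336448) (nat_lit 33) (.e (nat_lit 475214) (nat_lit 42) (.e (nat_lit 720956) (nat_lit 25) (.e (nat_lit 114711) (nat_lit 21) .nil)))))))) (.g (nat_lit 6) .nil .nil)))) (.nd (nat_lit 5) 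
(.lf (nat_lit 181210) (.g (nat_lit 3466) (.e (nat_lit 57847) (nat_lit 252) (.e (nat_lit 57368) (nat_lit 1) (.e (nat_lit 57852) (nat_lit 252) (.e (nat_lit 57406) (nat_lit 12) (.e (nat_lit 336446) (nat_lit 33) (.e (nat_lit 475212) (nat_lit 42) (.e (nat_lit 720956) (nat_lit 25) (.e (nat_lit 114711) (nat_lit 21) .nil)))))))) (.g (nat_lit 6) .nil .nil))) 
(.lf (nat_lit 181242) (.g (nat_lit 2371) (.e (nat_lit 57847) (nat_lit 252) (.e (nat_lit 57368) (nat_lit 1) (.e (nat_lit 57854) (nat_lit 252) (.e (nat_lit 57447) (nat_lit 19) (.e (nat_lit 393219) (nat_lit 0) .nil))))) .nil))))) (.nd (nat_lit 3) (.nd (nat_lit 4) (.nd (nat_lit 5) 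
(.lf (nat_lit 181190) (.g (nat_lit 2437) (.e (nat_lit 57847) (nat_lit 252) (.e (nat_lit 57365) (nat_lit 1) (.e (nat_lit 57854) (nat_lit 252) (.e (nat_lit 57445) (nat_lit 19) (.e (nat_lit 393217) (nat_lit 0) (.e (nat_lit 2184) (nat_lit 144) (.e (nat_lit 720956) (nat_lit 25) (.e (nat_lit 114711) (nat_lit 21) .nil)))))))) (.g (nat_lit 4) .nil .nil))) 
(.lf (nat_lit 181222) (.g (nat_lit 3369) (.e (nat_lit 57847) (nat_lit 252) (.e (nat_lit 57368) (nat_lit 1) (.e (nat_lit 57854) (nat_lit 252) (.e (nat_lit 57406) (nat_lit 12) (.e (nat_lit 336450) (nat_lit 33) (.e (nat_lit 475213) (nat_lit 42) (.e (nat_lit 720956) (nat_lit 25) (.e (nat_lit 114711) (nat_lit 21) .nil)))))))) (.g (nat_lit 5) .nil .nil)))) (.nd (nat_lit 5) 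
(.lf (nat_lit 181206) (.g (nat_lit 4005) (.e (nat_lit 57847) (nat_lit 252) (.e (nat_lit 57368) (nat_lit 1) (.e (nat_lit 57754) (nat_lit 209) (.e (nat_lit 1200) (nat_lit 88) (.e (nat_lit 65619) (nat_lit 10) (.e (nat_lit 344117) (nat_lit 21) (.e (nat_lit 516195) (nat_lit 26) (.e (nat_lit 335995) (nat_lit 1) .nil)))))))) (.g (nat_lit 7) .nil .nil))) 
(.lf (nat_lit 181238) (.g (nat_lit 2657) (.e (nat_lit 57847) (nat_lit 252) (.e (nat_lit 57368) (nat_lit 1) (.e (nat_lit 57854) (nat_lit 252) (.e (nat_lit 57445) (nat_lit 19) (.e (nat_lit 393223) (nat_lit 0) (.e (nat_lit 2187) (nat_lit 144) (.e (nat_lit 720956) (nat_lit 25) (.e (nat_lit 114711) (nat_lit 21) .nil)))))))) (.g (nat_lit 4) .nil .nil))))) (.nd (nat_lit 4) (.nd (nat_lit 5) 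
(.lf (nat_lit 181198) (.g (nat_lit 3127) (.e (nat_lit 57847) (nat_lit 252) (.e (nat_lit 57365) (nat_lit 1) (.e (nat_lit 57854) (nat_lit 252) (.e (nat_lit 57447) (nat_lit 19) (.e (nat_lit 393234) (nat_lit 17) (.e (nat_lit 2411) (nat_lit 157) (.e (nat_lit 5570) (nat_lit 308) (.e (nat_lit 57390) (nat_lit 5) (.e (nat_lit 114711) (nat_lit 21) .nil))))))))) (.g (nat_lit 5) .nil .nil))) 
(.lf (nat_lit 181230) (.g (nat_lit 1494) (.e (nat_lit 57847) (nat_lit 252) (.e (nat_lit 57368) (nat_lit 1) (.e (nat_lit 57854) (nat_lit 252) (.e (nat_lit 57426) (nat_lit 15) .nil)))) .nil))) (.nd (nat_lit 5) 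
(.lf (nat_lit 181214) (.g (nat_lit 2002) (.e (nat_lit 57847) (nat_lit 252) (.e (nat_lit 57368) (nat_lit 1) (.e (nat_lit 57852) (nat_lit 252) (.e (nat_lit 57445) (nat_lit 19) (.e (nat_lit 393217) (nat_lit 0) (.e (nat_lit 2186) (nat_lit 144) (.e (nat_lit 720956) (nat_lit 25) (.e (nat_lit 114711) (nat_lit 21) .nil)))))))) (.g (nat_lit 4) .nil .nil))) 
(.lf (nat_lit 181246) (.g (nat_lit 3402) (.e (nat_lit 57847) (nat_lit 252) (.e (nat_lit 57370) (nat_lit 2) (.e (nat_lit 90158) (nat_lit 11) (.e (nat_lit 24625) (nat_lit 9) (.e (nat_lit 336456) (nat_lit 34) (.e (nat_lit 483365) (nat_lit 18) .nil)))))) (.g (nat_lit 0) .nil .nil)))))))) (.nd (nat_lit 1) (.nd (nat_lit 2) (.nd (nat_lit 3) (.nd (nat_lit 4) (.nd (nat_lit 5) 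
(.lf (nat_lit 181185) (.g (nat_lit 2368) (.e (nat_lit 57847) (nat_lit 252) (.e (nat_lit 57365) (nat_lit 1) (.e (nat_lit 57854) (nat_lit 252) (.e (nat_lit 57427) (nat_lit 15) (.e (nat_lit 360478) (nat_lit 12) .nil))))) .nil)) 
(.lf (nat_lit 181217) (.g (nat_lit 1669) (.e (nat_lit 57847) (nat_lit 252) (.e (nat_lit 57368) (nat_lit 1) (.e (nat_lit 57853) (nat_lit 252) (.e (nat_lit 57445) (nat_lit 19) (.e (nat_lit 393217) (nat_lit 0) .nil))))) .nil))) (.nd (nat_lit 5) 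
(.lf (nat_lit 181201) (.g (nat_lit 2530) (.e (nat_lit 57847) (nat_lit 252) (.e (nat_lit 57365) (nat_lit 1) (.e (nat_lit 57854) (nat_lit 252) (.e (nat_lit 57447) (nat_lit 19) (.e (nat_lit 393256) (nat_lit 19) (.e (nat_lit 229675) (nat_lit 242) (.e (nat_lit 57390) (nat_lit 5) (.e (nat_lit 114711) (nat_lit 21) .nil)))))))) (.g (nat_lit 4) .nil .nil))) 
(.lf (nat_lit 181233) (.g (nat_lit 2463) (.e (nat_lit 57847) (nat_lit 252) (.e (nat_lit 57368) (nat_lit 1) (.e (nat_lit 57854) (nat_lit 252) (.e (nat_lit 57427) (nat_lit 15) (.e (nat_lit 360478) (nat_lit 12) .nil))))) .nil)))) (.nd (nat_lit 4) (.nd (nat_lit 5) 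
(.lf (nat_lit 181193) (.g (nat_lit 2547) (.e (nat_lit 57847) (nat_lit 252) (.e (nat_lit 57365) (nat_lit 1) (.e (nat_lit 57854) (nat_lit 252) (.e (nat_lit 57447) (nat_lit 19) (.e (nat_lit 393216) (nat_lit 0) (.e (nat_lit 2186) (nat_lit 144) (.e (nat_lit 720956) (nat_lit 25) (.e (nat_lit 114711) (nat_lit 21) .nil)))))))) (.g (nat_lit 4) .nil .nil))) 
(.lf (nat_lit 181225) (.g (nat_lit 3907) (.e (nat_lit 57847) (nat_lit 252) (.e (nat_lit 57368) (nat_lit 1) (.e (nat_lit 57854) (nat_lit 252) (.e (nat_lit 57409) (nat_lit 12) (.e (nat_lit 336446) (nat_lit 33) (.e (nat_lit 475212) (nat_lit 42) (.e (nat_lit 720956) (nat_lit 25) (.e (nat_lit 114711) (nat_lit 21) .nil)))))))) (.g (nat_lit 6) .nil .nil)))) (.nd (nat_lit 5) 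
(.lf (nat_lit 181209) (.g (nat_lit 1740) (.e (nat_lit 57847) (nat_lit 252) (.e (nat_lit 57368) (nat_lit 1) (.e (nat_lit 57851) (nat_lit 252) (.e (nat_lit 57427) (nat_lit 15) (.e (nat_lit 360478) (nat_lit 12) .nil))))) .nil)) 
(.lf (nat_lit 181241) (.g (nat_lit 2865) (.e (nat_lit 57847) (nat_lit 252) (.e (nat_lit 57368) (nat_lit 1) (.e (nat_lit 57854) (nat_lit 252) (.e (nat_lit 57447) (nat_lit 19) (.e (nat_lit 393217) (nat_lit 0) (.e (nat_lit 2184) (nat_lit 144) (.e (nat_lit 720956) (nat_lit 25) (.e (nat_lit 114711) (nat_lit 21) .nil)))))))) (.g (nat_lit 4) .nil .nil)))))) 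
(.nd (nat_lit 3) (.nd (nat_lit 4) (.nd (nat_lit 5) 
(.lf (nat_lit 181189) (.g (nat_lit 1865) (.e (nat_lit 57847) (nat_lit 252) (.e (nat_lit 57365) (nat_lit 1) (.e (nat_lit 57854) (nat_lit 252) (.e (nat_lit 57445) (nat_lit 19) (.e (nat_lit 393217) (nat_lit 0) .nil))))) .nil)) 
(.lf (nat_lit 181221) (.g (nat_lit 4256) (.e (nat_lit 57847) (nat_lit 252) (.e (nat_lit 57368) (nat_lit 1) (.e (nat_lit 57854) (nat_lit 252) (.e (nat_lit 57406) (nat_lit 12) (.e (nat_lit 336450) (nat_lit 33) (.e (nat_lit 475212) (nat_lit 42) (.e (nat_lit 720956) (nat_lit 25) (.e (nat_lit 114711) (nat_lit 21) .nil)))))))) (.g (nat_lit 6) .nil .nil)))) (.nd (nat_lit 5) 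
(.lf (nat_lit 181205) (.g (nat_lit 4097) (.e (nat_lit 57847) (nat_lit 252) (.e (nat_lit 57368) (nat_lit 1) (.e (nat_lit 57754) (nat_lit 209) (.e (nat_lit 1199) (nat_lit 88) (.e (nat_lit 65610) (nat_lit 10) (.e (nat_lit 344117) (nat_lit 21) (.e (nat_lit 516195) (nat_lit 26) (.e (nat_lit 335986) (nat_lit 1) .nil)))))))) (.g (nat_lit 7) .nil .nil))) 
(.lf (nat_lit 181237) (.g (nat_lit 2718) (.e (nat_lit 57847) (nat_lit 252) (.e (nat_lit 57368) (nat_lit 1) (.e (nat_lit 57854) (nat_lit 252) (.e (nat_lit 57445) (nat_lit 19) (.e (nat_lit 393223) (nat_lit 0) (.e (nat_lit 2185) (nat_lit 144) (.e (nat_lit 720956) (nat_lit 25) (.e (nat_lit 114711) (nat_lit 21) .nil)))))))) (.g (nat_lit 4) .nil .nil))))) (.nd (nat_lit 4) (.nd (nat_lit 5) 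
(.lf (nat_lit 181197) (.g (nat_lit 3057) (.e (nat_lit 57847) (nat_lit 252) (.e (nat_lit 57365) (nat_lit 1) (.e (nat_lit 57854) (nat_lit 252) (.e (nat_lit 57447) (nat_lit 19) (.e (nat_lit 393234) (nat_lit 17) (.e (nat_lit 2405) (nat_lit 157) (.e (nat_lit 5566) (nat_lit 308) (.e (nat_lit 57390) (nat_lit 5) (.e (nat_lit 114711) (nat_lit 21) .nil))))))))) (.g (nat_lit 5) .nil .nil))) 
(.lf (nat_lit 181229) (.g (nat_lit 2175) (.e (nat_lit 57847) (nat_lit 252) (.e (nat_lit 57368) (nat_lit 1) (.e (nat_lit 57854) (nat_lit 252) (.e (nat_lit 57412) (nat_lit 12) (.e (nat_lit 336061) (nat_lit 7) .nil))))) .nil))) (.nd (nat_lit 5) 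
(.lf (nat_lit 181213) (.g (nat_lit 1702) (.e (nat_lit 57847) (nat_lit 252) (.e (nat_lit 57368) (nat_lit 1) (.e (nat_lit 57852) (nat_lit 252) (.e (nat_lit 57445) (nat_lit 19) (.e (nat_lit 393217) (nat_lit 0) .nil))))) .nil)) 
(.lf (nat_lit 181245) (.g (nat_lit 1990) (.e (nat_lit 57847) (nat_lit 252) (.e (nat_lit 57368) (nat_lit 1) (.e (nat_lit 57854) (nat_lit 252) (.e (nat_lit 57447) (nat_lit 19) (.e (nat_lit 393234) (nat_lit 17) .nil))))) .nil)))))) (.nd (nat_lit 2) (.nd (nat_lit 3) (.nd (nat_lit 4) (.nd (nat_lit 5) 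
(.lf (nat_lit 181187) (.g (nat_lit 3020) (.e (nat_lit 57847) (nat_lit 252) (.e (nat_lit 57365) (nat_lit 1) (.e (nat_lit 57854) (nat_lit 252) (.e (nat_lit 57427) (nat_lit 15) (.e (nat_lit 360483) (nat_lit 15) (.e (nat_lit 647179) (nat_lit 2) (.e (nat_lit 24597) (nat_lit 1) .nil))))))) (.g (nat_lit 4) .nil .nil))) 
(.lf (nat_lit 181219) (.g (nat_lit 3347) (.e (nat_lit 57847) (nat_lit 252) (.e (nat_lit 57368) (nat_lit 1) (.e (nat_lit 57854) (nat_lit 252) (.e (nat_lit 57373) (nat_lit 2) (.e (nat_lit 98048) (nat_lit 6) .nil))))) .nil))) (.nd (nat_lit 5) 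
(.lf (nat_lit 181203) (.g (nat_lit 1039) (.e (nat_lit 57847) (nat_lit 252) (.e (nat_lit 57367) (nat_lit 1) (.e (nat_lit 57848) (nat_lit 252) (.e (nat_lit 57390) (nat_lit 5) (.e (nat_lit 114722) (nat_lit 24) .nil))))) .nil)) 
(.lf (nat_lit 181235) (.g (nat_lit 2322) (.e (nat_lit 57847) (nat_lit 252) (.e (nat_lit 57368) (nat_lit 1) (.e (nat_lit 57854) (nat_lit 252) (.e (nat_lit 57445) (nat_lit 19) (.e (nat_lit 393217) (nat_lit 0) (.e (nat_lit 2184) (nat_lit 144) (.e (nat_lit 720956) (nat_lit 25) (.e (nat_lit 114711) (nat_lit 21) .nil)))))))) (.g (nat_lit 4) .nil .nil))))) (.nd (nat_lit 4) (.nd (nat_lit 5) 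
(.lf (nat_lit 181195) (.g (nat_lit 2649) (.e (nat_lit 57847) (nat_lit 252) (.e (nat_lit 57365) (nat_lit 1) (.e (nat_lit 57854) (nat_lit 252) (.e (nat_lit 57447) (nat_lit 19) (.e (nat_lit 393217) (nat_lit 0) (.e (nat_lit 2186) (nat_lit 144) (.e (nat_lit 720955) (nat_lit 25) (.e (nat_lit 114711) (nat_lit 21) .nil)))))))) (.g (nat_lit 4) .nil .nil))) 
(.lf (nat_lit 181227) (.g (nat_lit 4568) (.e (nat_lit 57847) (nat_lit 252) (.e (nat_lit 57368) (nat_lit 1) (.e (nat_lit 57854) (nat_lit 252) (.e (nat_lit 57409) (nat_lit 12) (.e (nat_lit 336450) (nat_lit 33) (.e (nat_lit 475212) (nat_lit 42) (.e (nat_lit 720956) (nat_lit 25) (.e (nat_lit 114711) (nat_lit 21) .nil)))))))) (.g (nat_lit 6) .nil .nil)))) (.nd (nat_lit 5) 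
(.lf (nat_lit 181211) (.g (nat_lit 3660) (.e (nat_lit 57847) (nat_lit 252) (.e (nat_lit 57368) (nat_lit 1) (.e (nat_lit 57852) (nat_lit 252) (.e (nat_lit 57406) (nat_lit 12) (.e (nat_lit 336446) (nat_lit 33) (.e (nat_lit 475214) (nat_lit 42) (.e (nat_lit 720956) (nat_lit 25) (.e (nat_lit 114711) (nat_lit 21) .nil)))))))) (.g (nat_lit 6) .nil .nil))) 
(.lf (nat_lit 181243) (.g (nat_lit 2844) (.e (nat_lit 57847) (nat_lit 252) (.e (nat_lit 57368) (nat_lit 1) (.e (nat_lit 57854) (nat_lit 252) (.e (nat_lit 57447) (nat_lit 19) (.e (nat_lit 393222) (nat_lit 0) (.e (nat_lit 2184) (nat_lit 144) (.e (nat_lit 720956) (nat_lit 25) (.e (nat_lit 114711) (nat_lit 21) .nil)))))))) (.g (nat_lit 4) .nil .nil)))))) 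
(.nd (nat_lit 3) (.nd (nat_lit 4) (.nd (nat_lit 5) 
(.lf (nat_lit 181191) (.g (nat_lit 2370) (.e (nat_lit 57847) (nat_lit 252) (.e (nat_lit 57365) (nat_lit 1) (.e (nat_lit 57854) (nat_lit 252) (.e (nat_lit 57445) (nat_lit 19) (.e (nat_lit 393217) (nat_lit 0) (.e (nat_lit 2186) (nat_lit 144) (.e (nat_lit 720955) (nat_lit 25) (.e (nat_lit 114711) (nat_lit 21) .nil)))))))) (.g (nat_lit 4) .nil .nil))) 
(.lf (nat_lit 181223) (.g (nat_lit 2485) (.e (nat_lit 57847) (nat_lit 252) (.e (nat_lit 57368) (nat_lit 1) (.e (nat_lit 57854) (nat_lit 252) (.e (nat_lit 57409) (nat_lit 12) (.e (nat_lit 335878) (nat_lit 0) .nil))))) .nil))) (.nd (nat_lit 5) 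
(.lf (nat_lit 181207) (.g (nat_lit 1825) (.e (nat_lit 57847) (nat_lit 252) (.e (nat_lit 57368) (nat_lit 1) (.e (nat_lit 57829) (nat_lit 250) (.e (nat_lit 1201) (nat_lit 88) (.e (nat_lit 65583) (nat_lit 7) (.e (nat_lit 319530) (nat_lit 16) (.e (nat_lit 286742) (nat_lit 9) (.e (nat_lit 335989) (nat_lit 1) .nil)))))))) (.g (nat_lit 4) .nil .nil))) 
(.lf (nat_lit 181239) (.g (nat_lit 2690) (.e (nat_lit 57847) (nat_lit 252) (.e (nat_lit 57368) (nat_lit 1) (.e (nat_lit 57854) (nat_lit 252) (.e (nat_lit 57447) (nat_lit 19) (.e (nat_lit 393216) (nat_lit 0) (.e (nat_lit 2186) (nat_lit 144) (.e (nat_lit 720956) (nat_lit 25) (.e (nat_lit 114711) (nat_lit 21) .nil)))))))) (.g (nat_lit 4) .nil .nil))))) (.nd (nat_lit 4) (.nd (nat_lit 5) 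
(.lf (nat_lit 181199) (.g (nat_lit 3531) (.e (nat_lit 57847) (nat_lit 252) (.e (nat_lit 57365) (nat_lit 1) (.e (nat_lit 57854) (nat_lit 252) (.e (nat_lit 57447) (nat_lit 19) (.e (nat_lit 393252) (nat_lit 18) (.e (nat_lit 164330) (nat_lit 230) (.e (nat_lit 171776) (nat_lit 66) (.e (nat_lit 114710) (nat_lit 21) .nil)))))))) (.g (nat_lit 6) .nil .nil))) 
(.lf (nat_lit 181231) (.g (nat_lit 2150) (.e (nat_lit 57847) (nat_lit 252) (.e (nat_lit 57368) (nat_lit 1) (.e (nat_lit 57854) (nat_lit 252) (.e (nat_lit 57426) (nat_lit 15) (.e (nat_lit 360484) (nat_lit 15) .nil))))) .nil))) (.nd (nat_lit 5) 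
(.lf (nat_lit 181215) (.g (nat_lit 2090) (.e (nat_lit 57847) (nat_lit 252) (.e (nat_lit 57368) (nat_lit 1) (.e (nat_lit 57852) (nat_lit 252) (.e (nat_lit 57445) (nat_lit 19) (.e (nat_lit 393217) (nat_lit 0) (.e (nat_lit 2189) (nat_lit 144) (.e (nat_lit 720956) (nat_lit 25) (.e (nat_lit 114711) (nat_lit 21) .nil)))))))) (.g (nat_lit 4) .nil .nil))) 
(.lf (nat_lit 181247) (.g (nat_lit 2932) (.e (nat_lit 57847) (nat_lit 252) (.e (nat_lit 57370) (nat_lit 2) (.e (nat_lit 90158) (nat_lit 11) (.e (nat_lit 24655) (nat_lit 13) (.e (nat_lit 393224) (nat_lit 9) (.e (nat_lit 335986) (nat_lit 1) .nil)))))) (.g (nat_lit 4) .nil .nil)))))))))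

noncomputable def tv2427 : DT := (.nd (nat_lit 0) (.nd (nat_lit 1) (.nd (nat_lit 2) (.nd (nat_lit 3) (.nd (nat_lit 4) (.nd (nat_lit 5) (.nd (nat_lit 6) 
(.lf (nat_lit 181248) (.g (nat_lit 4119) (.e (nat_lit 57847) (nat_lit 252) (.e (nat_lit 57370) (nat_lit 2) (.e (nat_lit 90158) (nat_lit 11) (.e (nat_lit 24655) (nat_lit 13) (.e (nat_lit 393225) (nat_lit 9) (.e (nat_lit 335995) (nat_lit 1) .nil)))))) (.g (nat_lit 0) .nil .nil))) 
(.lf (nat_lit 181312) (.g (nat_lit 1544) (.e (nat_lit 57847) (nat_lit 252) (.e (nat_lit 57372) (nat_lit 2) (.e (nat_lit 90160) (nat_lit 11) (.e (nat_lit 24638) (nat_lit 9) (.e (nat_lit 343808) (nat_lit 34) .nil))))) .nil))) (.nd (nat_lit 6) 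
(.lf (nat_lit 181280) (.g (nat_lit 1542) (.e (nat_lit 57847) (nat_lit 252) (.e (nat_lit 57372) (nat_lit 2) (.e (nat_lit 90133) (nat_lit 9) (.e (nat_lit 287) (nat_lit 21) .nil)))) .nil)) 
(.lf (nat_lit 181344) (.g (nat_lit 2179) (.e (nat_lit 57847) (nat_lit 252) (.e (nat_lit 57373) (nat_lit 2) (.e (nat_lit 90160) (nat_lit 11) (.e (nat_lit 24658) (nat_lit 13) (.e (nat_lit 393225) (nat_lit 9) .nil))))) .nil)))) (.nd (nat_lit 5) (.nd (nat_lit 6) 
(.lf (nat_lit 181264) (.g (nat_lit 1695) (.e (nat_lit 57847) (nat_lit 252) (.e (nat_lit 57371) (nat_lit 2) (.e (nat_lit 90160) (nat_lit 11) (.e (nat_lit 24655) (nat_lit 13) .nil)))) .nil)) 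
(.lf (nat_lit 181328) (.g (nat_lit 705) (.e (nat_lit 57847) (nat_lit 252) (.e (nat_lit 57373) (nat_lit 2) (.e (nat_lit 90157) (nat_lit 11) .nil))) .nil))) (.nd (nat_lit 6) 
(.lf (nat_lit 181296) (.g (nat_lit 1395) (.e (nat_lit 57847) (nat_lit 252) (.e (nat_lit 57372) (nat_lit 2) (.e (nat_lit 90160) (nat_lit 11) (.e (nat_lit 24584) (nat_lit 0) (.e (nat_lit 7936) (nat_lit 345) .nil))))) .nil)) 
(.lf (nat_lit 181360) (.g (nat_lit 1315) (.e (nat_lit 57847) (nat_lit 252) (.e (nat_lit 57375) (nat_lit 2) (.e (nat_lit 90157) (nat_lit 11) (.e (nat_lit 24660) (nat_lit 13) .nil)))) .nil))))) (.nd (nat_lit 4) (.nd (nat_lit 5) (.nd (nat_lit 6) 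
(.lf (nat_lit 181256) (.g (nat_lit 641) (.e (nat_lit 57847) (nat_lit 252) (.e (nat_lit 57371) (nat_lit 2) (.e (nat_lit 90158) (nat_lit 11) .nil))) .nil)) 
(.lf (nat_lit 181320) (.g (nat_lit 2223) (.e (nat_lit 57847) (nat_lit 252) (.e (nat_lit 57372) (nat_lit 2) (.e (nat_lit 90160) (nat_lit 11) (.e (nat_lit 24658) (nat_lit 13) (.e (nat_lit 393224) (nat_lit 9) .nil))))) .nil))) (.nd (nat_lit 6) 
(.lf (nat_lit 181288) (.g (nat_lit 1859) (.e (nat_lit 57847) (nat_lit 252) (.e (nat_lit 57372) (nat_lit 2) (.e (nat_lit 90158) (nat_lit 11) (.e (nat_lit 24658) (nat_lit 13) (.e (nat_lit 393224) (nat_lit 9) .nil))))) .nil)) 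
(.lf (nat_lit 181352) (.g (nat_lit 1708) (.e (nat_lit 57847) (nat_lit 252) (.e (nat_lit 57375) (nat_lit 2) (.e (nat_lit 90123) (nat_lit 9) (.e (nat_lit 312) (nat_lit 23) (.e (nat_lit 352277) (nat_lit 11) .nil))))) .nil)))) (.nd (nat_lit 5) (.nd (nat_lit 6) 
(.lf (nat_lit 181272) (.g (nat_lit 1478) (.e (nat_lit 57847) (nat_lit 252) (.e (nat_lit 57372) (nat_lit 2) (.e (nat_lit 90128) (nat_lit 9) (.e (nat_lit 265) (nat_lit 21) (.e (nat_lit 336219) (nat_lit 13) .nil))))) .nil)) 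
(.lf (nat_lit 181336) (.g (nat_lit 3825) (.e (nat_lit 57847) (nat_lit 252) (.e (nat_lit 57373) (nat_lit 2) (.e (nat_lit 90159) (nat_lit 11) (.e (nat_lit 24657) (nat_lit 13) (.e (nat_lit 393229) (nat_lit 9) (.e (nat_lit 335995) (nat_lit 1) .nil)))))) (.g (nat_lit 5) .nil .nil)))) (.nd (nat_lit 6) 
(.lf (nat_lit 181304) (.g (nat_lit 2094) (.e (nat_lit 57847) (nat_lit 252) (.e (nat_lit 57372) (nat_lit 2) (.e (nat_lit 90160) (nat_lit 11) (.e (nat_lit 24628) (nat_lit 9) (.e (nat_lit 336395) (nat_lit 27) .nil))))) .nil)) 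
(.lf (nat_lit 181368) (.g (nat_lit 2358) (.e (nat_lit 57847) (nat_lit 252) (.e (nat_lit 57375) (nat_lit 2) (.e (nat_lit 90160) (nat_lit 11) (.e (nat_lit 24580) (nat_lit 0) (.e (nat_lit 6508) (nat_lit 345) .nil))))) .nil)))))) (.nd (nat_lit 3) (.nd (nat_lit 4) (.nd (nat_lit 5) (.nd (nat_lit 6) 
(.lf (nat_lit 181252) (.g (nat_lit 1729) (.e (nat_lit 57847) (nat_lit 252) (.e (nat_lit 57371) (nat_lit 2) (.e (nat_lit 90134) (nat_lit 9) (.e (nat_lit 290) (nat_lit 21) (.e (nat_lit 336078) (nat_lit 9) .nil))))) .nil)) 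
(.lf (nat_lit 181316) (.g (nat_lit 1623) (.e (nat_lit 57847) (nat_lit 252) (.e (nat_lit 57372) (nat_lit 2) (.e (nat_lit 90160) (nat_lit 11) (.e (nat_lit 24654) (nat_lit 13) (.e (nat_lit 393224) (nat_lit 9) .nil))))) .nil))) (.nd (nat_lit 6) 
(.lf (nat_lit 181284) (.g (nat_lit 786) (.e (nat_lit 57847) (nat_lit 252) (.e (nat_lit 57372) (nat_lit 2) (.e (nat_lit 90155) (nat_lit 10) .nil))) .nil)) 
(.lf (nat_lit 181348) (.g (nat_lit 1100) (.e (nat_lit 57847) (nat_lit 252) (.e (nat_lit 57374) (nat_lit 2) (.e (nat_lit 90133) (nat_lit 9) (.e (nat_lit 333) (nat_lit 26) .nil)))) .nil)))) (.nd (nat_lit 5) (.nd (nat_lit 6) 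
(.lf (nat_lit 181268) (.g (nat_lit 1076) (.e (nat_lit 57847) (nat_lit 252) (.e (nat_lit 57372) (nat_lit 2) (.e (nat_lit 90122) (nat_lit 9) .nil))) .nil)) 
(.lf (nat_lit 181332) (.g (nat_lit 2752) (.e (nat_lit 57847) (nat_lit 252) (.e (nat_lit 57373) (nat_lit 2) (.e (nat_lit 90158) (nat_lit 11) (.e (nat_lit 24608) (nat_lit 3) (.e (nat_lit 98342) (nat_lit 20) (.e (nat_lit 221215) (nat_lit 23) (.e (nat_lit 204829) (nat_lit 18) .nil))))))) (.g (nat_lit 4) .nil .nil)))) (.nd (nat_lit 6) 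
(.lf (nat_lit 181300) (.g (nat_lit 2021) (.e (nat_lit 57847) (nat_lit 252) (.e (nat_lit 57372) (nat_lit 2) (.e (nat_lit 90160) (nat_lit 11) (.e (nat_lit 24625) (nat_lit 9) (.e (nat_lit 336452) (nat_lit 34) .nil))))) .nil)) 
(.lf (nat_lit 181364) (.g (nat_lit 1744) (.e (nat_lit 57847) (nat_lit 252) (.e (nat_lit 57375) (nat_lit 2) (.e (nat_lit 90158) (nat_lit 11) (.e (nat_lit 24654) (nat_lit 13) (.e (nat_lit 393225) (nat_lit 9) .nil))))) .nil))))) (.nd (nat_lit 4) (.nd (nat_lit 5) (.nd (nat_lit 6) 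
(.lf (nat_lit 181260) (.g (nat_lit 1670) (.e (nat_lit 57847) (nat_lit 252) (.e (nat_lit 57371) (nat_lit 2) (.e (nat_lit 90160) (nat_lit 11) (.e (nat_lit 24624) (nat_lit 9) .nil)))) .nil)) 
(.lf (nat_lit 181324) (.g (nat_lit 1422) (.e (nat_lit 57847) (nat_lit 252) (.e (nat_lit 57373) (nat_lit 2) (.e (nat_lit 90125) (nat_lit 9) (.e (nat_lit 333) (nat_lit 26) .nil)))) .nil))) (.nd (nat_lit 6) 
(.lf (nat_lit 181292) (.g (nat_lit 1426) (.e (nat_lit 57847) (nat_lit 252) (.e (nat_lit 57372) (nat_lit 2) (.e (nat_lit 90158) (nat_lit 11) (.e (nat_lit 24660) (nat_lit 13) (.e (nat_lit 393224) (nat_lit 9) .nil))))) .nil)) 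
(.lf (nat_lit 181356) (.g (nat_lit 1198) (.e (nat_lit 57847) (nat_lit 252) (.e (nat_lit 57375) (nat_lit 2) (.e (nat_lit 90128) (nat_lit 9) (.e (nat_lit 293) (nat_lit 21) .nil)))) .nil)))) (.nd (nat_lit 5) (.nd (nat_lit 6) 
(.lf (nat_lit 181276) (.g (nat_lit 1823) (.e (nat_lit 57847) (nat_lit 252) (.e (nat_lit 57372) (nat_lit 2) (.e (nat_lit 90128) (nat_lit 9) (.e (nat_lit 314) (nat_lit 23) (.e (nat_lit 352273) (nat_lit 11) .nil))))) .nil)) 
(.lf (nat_lit 181340) (.g (nat_lit 2241) (.e (nat_lit 57847) (nat_lit 252) (.e (nat_lit 57373) (nat_lit 2) (.e (nat_lit 90160) (nat_lit 11) (.e (nat_lit 24623) (nat_lit 9) (.e (nat_lit 336456) (nat_lit 34) .nil))))) .nil))) (.nd (nat_lit 6) 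
(.lf (nat_lit 181308) (.g (nat_lit 2033) (.e (nat_lit 57847) (nat_lit 252) (.e (nat_lit 57372) (nat_lit 2) (.e (nat_lit 90160) (nat_lit 11) (.e (nat_lit 24631) (nat_lit 9) (.e (nat_lit 336389) (nat_lit 27) .nil))))) .nil)) 
(.lf (nat_lit 181372) (.g (nat_lit 1769) (.e (nat_lit 57847) (nat_lit 252) (.e (nat_lit 57375) (nat_lit 2) (.e (nat_lit 90160) (nat_lit 11) (.e (nat_lit 24609) (nat_lit 3) .nil)))) .nil))))))) (.nd (nat_lit 2) (.nd (nat_lit 3) (.nd (nat_lit 4) (.nd (nat_lit 5) (.nd (nat_lit 6) 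
(.lf (nat_lit 181250) (.g (nat_lit 778) (.e (nat_lit 57847) (nat_lit 252) (.e (nat_lit 57371) (nat_lit 2) (.e (nat_lit 90128) (nat_lit 9) .nil))) .nil)) 
(.lf (nat_lit 181314) (.g (nat_lit 1685) (.e (nat_lit 57847) (nat_lit 252) (.e (nat_lit 57372) (nat_lit 2) (.e (nat_lit 90160) (nat_lit 11) (.e (nat_lit 24649) (nat_lit 12) .nil)))) .nil))) (.nd (nat_lit 6) 
(.lf (nat_lit 181282) (.g (nat_lit 1656) (.e (nat_lit 57847) (nat_lit 252) (.e (nat_lit 57372) (nat_lit 2) (.e (nat_lit 90134) (nat_lit 9) (.e (nat_lit 290) (nat_lit 21) .nil)))) .nil)) 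
(.lf (nat_lit 181346) (.g (nat_lit 1980) (.e (nat_lit 57847) (nat_lit 252) (.e (nat_lit 57373) (nat_lit 2) (.e (nat_lit 90160) (nat_lit 11) (.e (nat_lit 24659) (nat_lit 13) .nil)))) .nil)))) (.nd (nat_lit 5) (.nd (nat_lit 6) 
(.lf (nat_lit 181266) (.g (nat_lit 1708) (.e (nat_lit 57847) (nat_lit 252) (.e (nat_lit 57371) (nat_lit 2) (.e (nat_lit 90160) (nat_lit 11) (.e (nat_lit 24658) (nat_lit 13) .nil)))) .nil)) 
(.lf (nat_lit 181330) (.g (nat_lit 1282) (.e (nat_lit 57847) (nat_lit 252) (.e (nat_lit 57373) (nat_lit 2) (.e (nat_lit 90157) (nat_lit 11) (.e (nat_lit 24656) (nat_lit 13) .nil)))) .nil))) (.nd (nat_lit 6) 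
(.lf (nat_lit 181298) (.g (nat_lit 2164) (.e (nat_lit 57847) (nat_lit 252) (.e (nat_lit 57372) (nat_lit 2) (.e (nat_lit 90160) (nat_lit 11) (.e (nat_lit 24609) (nat_lit 3) (.e (nat_lit 98341) (nat_lit 20) .nil))))) .nil)) 
(.lf (nat_lit 181362) (.g (nat_lit 2802) (.e (nat_lit 57847) (nat_lit 252) (.e (nat_lit 57375) (nat_lit 2) (.e (nat_lit 90158) (nat_lit 11) (.e (nat_lit 24608) (nat_lit 3) (.e (nat_lit 98342) (nat_lit 20) (.e (nat_lit 221214) (nat_lit 23) (.e (nat_lit 204829) (nat_lit 18) .nil))))))) (.g (nat_lit 4) .nil .nil)))))) (.nd (nat_lit 4) (.nd (nat_lit 5) (.nd (nat_lit 6) 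
(.lf (nat_lit 181258) (.g (nat_lit 1715) (.e (nat_lit 57847) (nat_lit 252) (.e (nat_lit 57371) (nat_lit 2) (.e (nat_lit 90158) (nat_lit 11) (.e (nat_lit 24660) (nat_lit 13) (.e (nat_lit 393225) (nat_lit 9) .nil))))) .nil)) 
(.lf (nat_lit 181322) (.g (nat_lit 1959) (.e (nat_lit 57847) (nat_lit 252) (.e (nat_lit 57372) (nat_lit 2) (.e (nat_lit 90160) (nat_lit 11) (.e (nat_lit 24658) (nat_lit 13) (.e (nat_lit 393229) (nat_lit 9) (.e (nat_lit 335993) (nat_lit 1) .nil)))))) (.g (nat_lit 4) .nil .nil)))) (.nd (nat_lit 6) 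
(.lf (nat_lit 181290) (.g (nat_lit 1862) (.e (nat_lit 57847) (nat_lit 252) (.e (nat_lit 57372) (nat_lit 2) (.e (nat_lit 90158) (nat_lit 11) (.e (nat_lit 24658) (nat_lit 13) (.e (nat_lit 393228) (nat_lit 9) .nil))))) .nil)) 
(.lf (nat_lit 181354) (.g (nat_lit 352) (.e (nat_lit 57847) (nat_lit 252) (.e (nat_lit 57375) (nat_lit 2) (.e (nat_lit 90128) (nat_lit 9) .nil))) .nil)))) (.nd (nat_lit 5) (.nd (nat_lit 6) 
(.lf (nat_lit 181274) (.g (nat_lit 1480) (.e (nat_lit 57847) (nat_lit 252) (.e (nat_lit 57372) (nat_lit 2) (.e (nat_lit 90128) (nat_lit 9) (.e (nat_lit 309) (nat_lit 23) (.e (nat_lit 352277) (nat_lit 11) .nil))))) .nil)) 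
(.lf (nat_lit 181338) (.g (nat_lit 2133) (.e (nat_lit 57847) (nat_lit 252) (.e (nat_lit 57373) (nat_lit 2) (.e (nat_lit 90160) (nat_lit 11) (.e (nat_lit 24607) (nat_lit 3) .nil)))) .nil))) (.nd (nat_lit 6) 
(.lf (nat_lit 181306) (.g (nat_lit 1321) (.e (nat_lit 57847) (nat_lit 252) (.e (nat_lit 57372) (nat_lit 2) (.e (nat_lit 90160) (nat_lit 11) (.e (nat_lit 24631) (nat_lit 9) .nil)))) .nil)) 
(.lf (nat_lit 181370) (.g (nat_lit 1642) (.e (nat_lit 57847) (nat_lit 252) (.e (nat_lit 57375) (nat_lit 2) (.e (nat_lit 90160) (nat_lit 11) (.e (nat_lit 24606) (nat_lit 3) (.e (nat_lit 98342) (nat_lit 20) .nil))))) .nil)))))) (.nd (nat_lit 3) (.nd (nat_lit 4) (.nd (nat_lit 5) (.nd (nat_lit 6) 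
(.lf (nat_lit 181254) (.g (nat_lit 1635) (.e (nat_lit 57847) (nat_lit 252) (.e (nat_lit 57371) (nat_lit 2) (.e (nat_lit 90156) (nat_lit 11) (.e (nat_lit 24657) (nat_lit 13) (.e (nat_lit 393229) (nat_lit 9) .nil))))) .nil)) 
(.lf (nat_lit 181318) (.g (nat_lit 4233) (.e (nat_lit 57847) (nat_lit 252) (.e (nat_lit 57372) (nat_lit 2) (.e (nat_lit 90160) (nat_lit 11) (.e (nat_lit 24655) (nat_lit 13) (.e (nat_lit 393225) (nat_lit 9) (.e (nat_lit 335995) (nat_lit 1) .nil)))))) (.g (nat_lit 0) .nil .nil)))) (.nd (nat_lit 6) 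
(.lf (nat_lit 181286) (.g (nat_lit 3425) (.e (nat_lit 57847) (nat_lit 252) (.e (nat_lit 57372) (nat_lit 2) (.e (nat_lit 90158) (nat_lit 11) (.e (nat_lit 24625) (nat_lit 9) (.e (nat_lit 336456) (nat_lit 34) (.e (nat_lit 483365) (nat_lit 18) .nil)))))) (.g (nat_lit 0) .nil .nil))) 
(.lf (nat_lit 181350) (.g (nat_lit 514) (.e (nat_lit 57847) (nat_lit 252) (.e (nat_lit 57375) (nat_lit 2) (.e (nat_lit 90123) (nat_lit 9) .nil))) .nil)))) (.nd (nat_lit 5) (.nd (nat_lit 6) 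
(.lf (nat_lit 181270) (.g (nat_lit 437) (.e (nat_lit 57847) (nat_lit 252) (.e (nat_lit 57372) (nat_lit 2) (.e (nat_lit 90128) (nat_lit 9) .nil))) .nil)) 
(.lf (nat_lit 181334) (.g (nat_lit 2190) (.e (nat_lit 57847) (nat_lit 252) (.e (nat_lit 57373) (nat_lit 2) (.e (nat_lit 90158) (nat_lit 11) (.e (nat_lit 24658) (nat_lit 13) (.e (nat_lit 393228) (nat_lit 9) .nil))))) .nil))) (.nd (nat_lit 6) 
(.lf (nat_lit 181302) (.g (nat_lit 1809) (.e (nat_lit 57847) (nat_lit 252) (.e (nat_lit 57372) (nat_lit 2) (.e (nat_lit 90160) (nat_lit 11) (.e (nat_lit 24628) (nat_lit 9) (.e (nat_lit 336374) (nat_lit 27) .nil))))) .nil)) 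
(.lf (nat_lit 181366) (.g (nat_lit 350) (.e (nat_lit 57847) (nat_lit 252) (.e (nat_lit 57375) (nat_lit 2) (.e (nat_lit 90160) (nat_lit 11) .nil))) .nil))))) (.nd (nat_lit 4) (.nd (nat_lit 5) (.nd (nat_lit 6) 
(.lf (nat_lit 181262) (.g (nat_lit 1646) (.e (nat_lit 57847) (nat_lit 252) (.e (nat_lit 57371) (nat_lit 2) (.e (nat_lit 90160) (nat_lit 11) (.e (nat_lit 24628) (nat_lit 9) .nil)))) .nil)) 
(.lf (nat_lit 181326) (.g (nat_lit 1797) (.e (nat_lit 57847) (nat_lit 252) (.e (nat_lit 57373) (nat_lit 2) (.e (nat_lit 90134) (nat_lit 9) (.e (nat_lit 290) (nat_lit 21) .nil)))) .nil))) (.nd (nat_lit 6) 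
(.lf (nat_lit 181294) (.g (nat_lit 1619) (.e (nat_lit 57847) (nat_lit 252) (.e (nat_lit 57372) (nat_lit 2) (.e (nat_lit 90160) (nat_lit 11) (.e (nat_lit 24580) (nat_lit 0) .nil)))) .nil)) 
(.lf (nat_lit 181358) (.g (nat_lit 2177) (.e (nat_lit 57847) (nat_lit 252) (.e (nat_lit 57375) (nat_lit 2) (.e (nat_lit 90128) (nat_lit 9) (.e (nat_lit 310) (nat_lit 23) (.e (nat_lit 352277) (nat_lit 11) (.e (nat_lit 426500) (nat_lit 27) (.e (nat_lit 335986) (nat_lit 1) .nil))))))) (.g (nat_lit 5) .nil .nil))))) (.nd (nat_lit 5) (.nd (nat_lit 6) 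
(.lf (nat_lit 181278) (.g (nat_lit 1326) (.e (nat_lit 57847) (nat_lit 252) (.e (nat_lit 57372) (nat_lit 2) (.e (nat_lit 90128) (nat_lit 9) (.e (nat_lit 315) (nat_lit 23) .nil)))) .nil)) 
(.lf (nat_lit 181342) (.g (nat_lit 1507) (.e (nat_lit 57847) (nat_lit 252) (.e (nat_lit 57373) (nat_lit 2) (.e (nat_lit 90160) (nat_lit 11) (.e (nat_lit 24636) (nat_lit 9) .nil)))) .nil))) (.nd (nat_lit 6) 
(.lf (nat_lit 181310) (.g (nat_lit 2171) (.e (nat_lit 57847) (nat_lit 252) (.e (nat_lit 57372) (nat_lit 2) (.e (nat_lit 90160) (nat_lit 11) (.e (nat_lit 24631) (nat_lit 9) (.e (nat_lit 336417) (nat_lit 27) .nil))))) .nil)) 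
(.lf (nat_lit 181374) (.g (nat_lit 1076) (.e (nat_lit 57847) (nat_lit 252) (.e (nat_lit 57375) (nat_lit 2) (.e (nat_lit 90160) (nat_lit 11) (.e (nat_lit 24625) (nat_lit 9) .nil)))) .nil)))))))) (.nd (nat_lit 1) (.nd (nat_lit 2) (.nd (nat_lit 3) (.nd (nat_lit 4) (.nd (nat_lit 5) (.nd (nat_lit 6) 
(.lf (nat_lit 181249) (.g (nat_lit 1099) (.e (nat_lit 57847) (nat_lit 252) (.e (nat_lit 57370) (nat_lit 2) (.e (nat_lit 90158) (nat_lit 11) (.e (nat_lit 24659) (nat_lit 13) (.e (nat_lit 393224) (nat_lit 9) .nil))))) .nil)) 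
(.lf (nat_lit 181313) (.g (nat_lit 2021) (.e (nat_lit 57847) (nat_lit 252) (.e (nat_lit 57372) (nat_lit 2) (.e (nat_lit 90160) (nat_lit 11) (.e (nat_lit 24647) (nat_lit 12) (.e (nat_lit 392960) (nat_lit 10) .nil))))) .nil))) (.nd (nat_lit 6) 
(.lf (nat_lit 181281) (.g (nat_lit 2165) (.e (nat_lit 57847) (nat_lit 252) (.e (nat_lit 57372) (nat_lit 2) (.e (nat_lit 90134) (nat_lit 9) (.e (nat_lit 249) (nat_lit 21) (.e (nat_lit 336215) (nat_lit 13) .nil))))) .nil)) 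
(.lf (nat_lit 181345) (.g (nat_lit 2184) (.e (nat_lit 57847) (nat_lit 252) (.e (nat_lit 57373) (nat_lit 2) (.e (nat_lit 90160) (nat_lit 11) (.e (nat_lit 24658) (nat_lit 13) (.e (nat_lit 393229) (nat_lit 9) .nil))))) .nil)))) (.nd (nat_lit 5) (.nd (nat_lit 6) 
(.lf (nat_lit 181265) (.g (nat_lit 1987) (.e (nat_lit 57847) (nat_lit 252) (.e (nat_lit 57371) (nat_lit 2) (.e (nat_lit 90160) (nat_lit 11) (.e (nat_lit 24656) (nat_lit 13) .nil)))) .nil)) 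
(.lf (nat_lit 181329) (.g (nat_lit 1802) (.e (nat_lit 57847) (nat_lit 252) (.e (nat_lit 57373) (nat_lit 2) (.e (nat_lit 90157) (nat_lit 11) (.e (nat_lit 24626) (nat_lit 9) (.e (nat_lit 336454) (nat_lit 34) .nil))))) .nil))) (.nd (nat_lit 6) 
(.lf (nat_lit 181297) (.g (nat_lit 1685) (.e (nat_lit 57847) (nat_lit 252) (.e (nat_lit 57372) (nat_lit 2) (.e (nat_lit 90160) (nat_lit 11) (.e (nat_lit 24609) (nat_lit 3) .nil)))) .nil)) 
(.lf (nat_lit 181361) (.g (nat_lit 2734) (.e (nat_lit 57847) (nat_lit 252) (.e (nat_lit 57375) (nat_lit 2) (.e (nat_lit 90158) (nat_lit 11) (.e (nat_lit 24608) (nat_lit 3) (.e (nat_lit 98341) (nat_lit 20) (.e (nat_lit 221215) (nat_lit 23) (.e (nat_lit 204829) (nat_lit 18) .nil))))))) (.g (nat_lit 4) .nil .nil)))))) (.nd (nat_lit 4) (.nd (nat_lit 5) (.nd (nat_lit 6) 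
(.lf (nat_lit 181257) (.g (nat_lit 1402) (.e (nat_lit 57847) (nat_lit 252) (.e (nat_lit 57371) (nat_lit 2) (.e (nat_lit 90158) (nat_lit 11) (.e (nat_lit 24659) (nat_lit 13) .nil)))) .nil)) 
(.lf (nat_lit 181321) (.g (nat_lit 3979) (.e (nat_lit 57847) (nat_lit 252) (.e (nat_lit 57372) (nat_lit 2) (.e (nat_lit 90160) (nat_lit 11) (.e (nat_lit 24658) (nat_lit 13) (.e (nat_lit 393225) (nat_lit 9) (.e (nat_lit 335995) (nat_lit 1) .nil)))))) (.g (nat_lit 0) .nil .nil)))) (.nd (nat_lit 6) 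
(.lf (nat_lit 181289) (.g (nat_lit 3763) (.e (nat_lit 57847) (nat_lit 252) (.e (nat_lit 57372) (nat_lit 2) (.e (nat_lit 90158) (nat_lit 11) (.e (nat_lit 24658) (nat_lit 13) (.e (nat_lit 393225) (nat_lit 9) (.e (nat_lit 335995) (nat_lit 1) .nil)))))) (.g (nat_lit 0) .nil .nil))) 
(.lf (nat_lit 181353) (.g (nat_lit 695) (.e (nat_lit 57847) (nat_lit 252) (.e (nat_lit 57375) (nat_lit 2) (.e (nat_lit 90125) (nat_lit 9) .nil))) .nil)))) (.nd (nat_lit 5) (.nd (nat_lit 6) 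
(.lf (nat_lit 181273) (.g (nat_lit 1239) (.e (nat_lit 57847) (nat_lit 252) (.e (nat_lit 57372) (nat_lit 2) (.e (nat_lit 90128) (nat_lit 9) (.e (nat_lit 293) (nat_lit 21) .nil)))) .nil)) 
(.lf (nat_lit 181337) (.g (nat_lit 716) (.e (nat_lit 57847) (nat_lit 252) (.e (nat_lit 57373) (nat_lit 2) (.e (nat_lit 90160) (nat_lit 11) .nil))) .nil))) (.nd (nat_lit 6) 
(.lf (nat_lit 181305) (.g (nat_lit 1872) (.e (nat_lit 57847) (nat_lit 252) (.e (nat_lit 57372) (nat_lit 2) (.e (nat_lit 90160) (nat_lit 11) (.e (nat_lit 24630) (nat_lit 9) (.e (nat_lit 336455) (nat_lit 34) .nil))))) .nil)) 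
(.lf (nat_lit 181369) (.g (nat_lit 1340) (.e (nat_lit 57847) (nat_lit 252) (.e (nat_lit 57375) (nat_lit 2) (.e (nat_lit 90160) (nat_lit 11) (.e (nat_lit 24584) (nat_lit 0) .nil)))) .nil)))))) (.nd (nat_lit 3) (.nd (nat_lit 4) (.nd (nat_lit 5) (.nd (nat_lit 6) 
(.lf (nat_lit 181253) (.g (nat_lit 729) (.e (nat_lit 57847) (nat_lit 252) (.e (nat_lit 57371) (nat_lit 2) (.e (nat_lit 90156) (nat_lit 11) .nil))) .nil)) 
(.lf (nat_lit 181317) (.g (nat_lit 2588) (.e (nat_lit 57847) (nat_lit 252) (.e (nat_lit 57372) (nat_lit 2) (.e (nat_lit 90160) (nat_lit 11) (.e (nat_lit 24655) (nat_lit 13) (.e (nat_lit 393224) (nat_lit 9) (.e (nat_lit 335995) (nat_lit 1) .nil)))))) (.g (nat_lit 4) .nil .nil)))) (.nd (nat_lit 6) 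
(.lf (nat_lit 181285) (.g (nat_lit 809) (.e (nat_lit 57847) (nat_lit 252) (.e (nat_lit 57372) (nat_lit 2) (.e (nat_lit 90156) (nat_lit 11) .nil))) .nil)) 
(.lf (nat_lit 181349) (.g (nat_lit 4233) (.e (nat_lit 57847) (nat_lit 252) (.e (nat_lit 57374) (nat_lit 2) (.e (nat_lit 90134) (nat_lit 9) (.e (nat_lit 290) (nat_lit 21) (.e (nat_lit 336078) (nat_lit 9) (.e (nat_lit 336454) (nat_lit 34) (.e (nat_lit 483365) (nat_lit 18) .nil))))))) (.g (nat_lit 0) .nil .nil))))) (.nd (nat_lit 5) (.nd (nat_lit 6) 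
(.lf (nat_lit 181269) (.g (nat_lit 1076) (.e (nat_lit 57847) (nat_lit 252) (.e (nat_lit 57372) (nat_lit 2) (.e (nat_lit 90125) (nat_lit 9) .nil))) .nil)) 
(.lf (nat_lit 181333) (.g (nat_lit 2274) (.e (nat_lit 57847) (nat_lit 252) (.e (nat_lit 57373) (nat_lit 2) (.e (nat_lit 90158) (nat_lit 11) (.e (nat_lit 24658) (nat_lit 13) (.e (nat_lit 393224) (nat_lit 9) .nil))))) .nil))) (.nd (nat_lit 6) 
(.lf (nat_lit 181301) (.g (nat_lit 1880) (.e (nat_lit 57847) (nat_lit 252) (.e (nat_lit 57372) (nat_lit 2) (.e (nat_lit 90160) (nat_lit 11) (.e (nat_lit 24628) (nat_lit 9) (.e (nat_lit 336370) (nat_lit 27) .nil))))) .nil)) 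
(.lf (nat_lit 181365) (.g (nat_lit 1826) (.e (nat_lit 57847) (nat_lit 252) (.e (nat_lit 57375) (nat_lit 2) (.e (nat_lit 90158) (nat_lit 11) (.e (nat_lit 24658) (nat_lit 13) (.e (nat_lit 393228) (nat_lit 9) .nil))))) .nil))))) (.nd (nat_lit 4) (.nd (nat_lit 5) (.nd (nat_lit 6) 
(.lf (nat_lit 181261) (.g (nat_lit 1740) (.e (nat_lit 57847) (nat_lit 252) (.e (nat_lit 57371) (nat_lit 2) (.e (nat_lit 90160) (nat_lit 11) (.e (nat_lit 24625) (nat_lit 9) .nil)))) .nil)) 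
(.lf (nat_lit 181325) (.g (nat_lit 699) (.e (nat_lit 57847) (nat_lit 252) (.e (nat_lit 57373) (nat_lit 2) (.e (nat_lit 90128) (nat_lit 9) .nil))) .nil))) (.nd (nat_lit 6) 
(.lf (nat_lit 181293) (.g (nat_lit 360) (.e (nat_lit 57847) (nat_lit 252) (.e (nat_lit 57372) (nat_lit 2) (.e (nat_lit 90160) (nat_lit 11) .nil))) .nil)) 
(.lf (nat_lit 181357) (.g (nat_lit 1357) (.e (nat_lit 57847) (nat_lit 252) (.e (nat_lit 57375) (nat_lit 2) (.e (nat_lit 90128) (nat_lit 9) (.e (nat_lit 309) (nat_lit 23) (.e (nat_lit 352277) (nat_lit 11) .nil))))) .nil)))) (.nd (nat_lit 5) (.nd (nat_lit 6) 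
(.lf (nat_lit 181277) (.g (nat_lit 1831) (.e (nat_lit 57847) (nat_lit 252) (.e (nat_lit 57372) (nat_lit 2) (.e (nat_lit 90128) (nat_lit 9) (.e (nat_lit 314) (nat_lit 23) (.e (nat_lit 352274) (nat_lit 11) .nil))))) .nil)) 
(.lf (nat_lit 181341) (.g (nat_lit 2062) (.e (nat_lit 57847) (nat_lit 252) (.e (nat_lit 57373) (nat_lit 2) (.e (nat_lit 90160) (nat_lit 11) (.e (nat_lit 24629) (nat_lit 9) .nil)))) .nil))) (.nd (nat_lit 6) 
(.lf (nat_lit 181309) (.g (nat_lit 2059) (.e (nat_lit 57847) (nat_lit 252) (.e (nat_lit 57372) (nat_lit 2) (.e (nat_lit 90160) (nat_lit 11) (.e (nat_lit 24631) (nat_lit 9) (.e (nat_lit 336412) (nat_lit 27) .nil))))) .nil)) 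
(.lf (nat_lit 181373) (.g (nat_lit 1384) (.e (nat_lit 57847) (nat_lit 252) (.e (nat_lit 57375) (nat_lit 2) (.e (nat_lit 90160) (nat_lit 11) (.e (nat_lit 24624) (nat_lit 9) (.e (nat_lit 336416) (nat_lit 27) .nil))))) .nil))))))) (.nd (nat_lit 2) (.nd (nat_lit 3) (.nd (nat_lit 4) (.nd (nat_lit 5) (.nd (nat_lit 6) 
(.lf (nat_lit 181251) (.g (nat_lit 1487) (.e (nat_lit 57847) (nat_lit 252) (.e (nat_lit 57371) (nat_lit 2) (.e (nat_lit 90128) (nat_lit 9) (.e (nat_lit 314) (nat_lit 23) .nil)))) .nil)) 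
(.lf (nat_lit 181315) (.g (nat_lit 1685) (.e (nat_lit 57847) (nat_lit 252) (.e (nat_lit 57372) (nat_lit 2) (.e (nat_lit 90160) (nat_lit 11) (.e (nat_lit 24652) (nat_lit 12) .nil)))) .nil))) (.nd (nat_lit 6) 
(.lf (nat_lit 181283) (.g (nat_lit 1075) (.e (nat_lit 57847) (nat_lit 252) (.e (nat_lit 57372) (nat_lit 2) (.e (nat_lit 90140) (nat_lit 9) .nil))) .nil)) 
(.lf (nat_lit 181347) (.g (nat_lit 590) (.e (nat_lit 57847) (nat_lit 252) (.e (nat_lit 57374) (nat_lit 2) (.e (nat_lit 90133) (nat_lit 9) .nil))) .nil)))) (.nd (nat_lit 5) (.nd (nat_lit 6) 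
(.lf (nat_lit 181267) (.g (nat_lit 1959) (.e (nat_lit 57847) (nat_lit 252) (.e (nat_lit 57371) (nat_lit 2) (.e (nat_lit 90160) (nat_lit 11) (.e (nat_lit 24660) (nat_lit 13) .nil)))) .nil)) 
(.lf (nat_lit 181331) (.g (nat_lit 365) (.e (nat_lit 57847) (nat_lit 252) (.e (nat_lit 57373) (nat_lit 2) (.e (nat_lit 90158) (nat_lit 11) .nil))) .nil))) (.nd (nat_lit 6) 
(.lf (nat_lit 181299) (.g (nat_lit 978) (.e (nat_lit 57847) (nat_lit 252) (.e (nat_lit 57372) (nat_lit 2) (.e (nat_lit 90160) (nat_lit 11) (.e (nat_lit 24624) (nat_lit 9) .nil)))) .nil)) 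
(.lf (nat_lit 181363) (.g (nat_lit 2733) (.e (nat_lit 57847) (nat_lit 252) (.e (nat_lit 57375) (nat_lit 2) (.e (nat_lit 90158) (nat_lit 11) (.e (nat_lit 24608) (nat_lit 3) (.e (nat_lit 98342) (nat_lit 20) (.e (nat_lit 221215) (nat_lit 23) (.e (nat_lit 204829) (nat_lit 18) .nil))))))) (.g (nat_lit 4) .nil .nil)))))) (.nd (nat_lit 4) (.nd (nat_lit 5) (.nd (nat_lit 6) 
(.lf (nat_lit 181259) (.g (nat_lit 770) (.e (nat_lit 57847) (nat_lit 252) (.e (nat_lit 57371) (nat_lit 2) (.e (nat_lit 90160) (nat_lit 11) .nil))) .nil)) 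
(.lf (nat_lit 181323) (.g (nat_lit 765) (.e (nat_lit 57847) (nat_lit 252) (.e (nat_lit 57373) (nat_lit 2) (.e (nat_lit 90125) (nat_lit 9) .nil))) .nil))) (.nd (nat_lit 6) 
(.lf (nat_lit 181291) (.g (nat_lit 1732) (.e (nat_lit 57847) (nat_lit 252) (.e (nat_lit 57372) (nat_lit 2) (.e (nat_lit 90158) (nat_lit 11) (.e (nat_lit 24658) (nat_lit 13) (.e (nat_lit 393229) (nat_lit 9) (.e (nat_lit 335993) (nat_lit 1) .nil)))))) (.g (nat_lit 4) .nil .nil))) 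
(.lf (nat_lit 181355) (.g (nat_lit 1233) (.e (nat_lit 57847) (nat_lit 252) (.e (nat_lit 57375) (nat_lit 2) (.e (nat_lit 90128) (nat_lit 9) (.e (nat_lit 234) (nat_lit 21) .nil)))) .nil)))) (.nd (nat_lit 5) (.nd (nat_lit 6) 
(.lf (nat_lit 181275) (.g (nat_lit 2470) (.e (nat_lit 57847) (nat_lit 252) (.e (nat_lit 57372) (nat_lit 2) (.e (nat_lit 90128) (nat_lit 9) (.e (nat_lit 310) (nat_lit 23) (.e (nat_lit 352277) (nat_lit 11) (.e (nat_lit 426500) (nat_lit 27) (.e (nat_lit 335986) (nat_lit 1) .nil))))))) (.g (nat_lit 5) .nil .nil))) 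
(.lf (nat_lit 181339) (.g (nat_lit 2280) (.e (nat_lit 57847) (nat_lit 252) (.e (nat_lit 57373) (nat_lit 2) (.e (nat_lit 90160) (nat_lit 11) (.e (nat_lit 24623) (nat_lit 9) (.e (nat_lit 336454) (nat_lit 34) .nil))))) .nil))) (.nd (nat_lit 6) 
(.lf (nat_lit 181307) (.g (nat_lit 2171) (.e (nat_lit 57847) (nat_lit 252) (.e (nat_lit 57372) (nat_lit 2) (.e (nat_lit 90160) (nat_lit 11) (.e (nat_lit 24631) (nat_lit 9) (.e (nat_lit 336388) (nat_lit 27) .nil))))) .nil)) 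
(.lf (nat_lit 181371) (.g (nat_lit 2636) (.e (nat_lit 57847) (nat_lit 252) (.e (nat_lit 57375) (nat_lit 2) (.e (nat_lit 90160) (nat_lit 11) (.e (nat_lit 24607) (nat_lit 3) (.e (nat_lit 98341) (nat_lit 20) .nil))))) .nil)))))) (.nd (nat_lit 3) (.nd (nat_lit 4) (.nd (nat_lit 5) (.nd (nat_lit 6) 
(.lf (nat_lit 181255) (.g (nat_lit 873) (.e (nat_lit 57847) (nat_lit 252) (.e (nat_lit 57371) (nat_lit 2) (.e (nat_lit 90157) (nat_lit 11) .nil))) .nil)) 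
(.lf (nat_lit 181319) (.g (nat_lit 2207) (.e (nat_lit 57847) (nat_lit 252) (.e (nat_lit 57372) (nat_lit 2) (.e (nat_lit 90160) (nat_lit 11) (.e (nat_lit 24655) (nat_lit 13) (.e (nat_lit 393229) (nat_lit 9) (.e (nat_lit 335993) (nat_lit 1) .nil)))))) (.g (nat_lit 4) .nil .nil)))) (.nd (nat_lit 6) 
(.lf (nat_lit 181287) (.g (nat_lit 4210) (.e (nat_lit 57847) (nat_lit 252) (.e (nat_lit 57372) (nat_lit 2) (.e (nat_lit 90158) (nat_lit 11) (.e (nat_lit 24655) (nat_lit 13) (.e (nat_lit 393225) (nat_lit 9) (.e (nat_lit 335995) (nat_lit 1) .nil)))))) (.g (nat_lit 0) .nil .nil))) 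
(.lf (nat_lit 181351) (.g (nat_lit 918) (.e (nat_lit 57847) (nat_lit 252) (.e (nat_lit 57375) (nat_lit 2) (.e (nat_lit 90123) (nat_lit 9) (.e (nat_lit 312) (nat_lit 23) .nil)))) .nil)))) (.nd (nat_lit 5) (.nd (nat_lit 6) 
(.lf (nat_lit 181271) (.g (nat_lit 1325) (.e (nat_lit 57847) (nat_lit 252) (.e (nat_lit 57372) (nat_lit 2) (.e (nat_lit 90128) (nat_lit 9) (.e (nat_lit 245) (nat_lit 21) .nil)))) .nil)) 
(.lf (nat_lit 181335) (.g (nat_lit 1094) (.e (nat_lit 57847) (nat_lit 252) (.e (nat_lit 57373) (nat_lit 2) (.e (nat_lit 90158) (nat_lit 11) (.e (nat_lit 24660) (nat_lit 13) .nil)))) .nil))) (.nd (nat_lit 6) 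
(.lf (nat_lit 181303) (.g (nat_lit 2014) (.e (nat_lit 57847) (nat_lit 252) (.e (nat_lit 57372) (nat_lit 2) (.e (nat_lit 90160) (nat_lit 11) (.e (nat_lit 24628) (nat_lit 9) (.e (nat_lit 336375) (nat_lit 27) .nil))))) .nil)) 
(.lf (nat_lit 181367) (.g (nat_lit 1603) (.e (nat_lit 57847) (nat_lit 252) (.e (nat_lit 57375) (nat_lit 2) (.e (nat_lit 90160) (nat_lit 11) (.e (nat_lit 24580) (nat_lit 0) .nil)))) .nil))))) (.nd (nat_lit 4) (.nd (nat_lit 5) (.nd (nat_lit 6) 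
(.lf (nat_lit 181263) (.g (nat_lit 1763) (.e (nat_lit 57847) (nat_lit 252) (.e (nat_lit 57371) (nat_lit 2) (.e (nat_lit 90160) (nat_lit 11) (.e (nat_lit 24654) (nat_lit 13) .nil)))) .nil)) 
(.lf (nat_lit 181327) (.g (nat_lit 3599) (.e (nat_lit 57847) (nat_lit 252) (.e (nat_lit 57373) (nat_lit 2) (.e (nat_lit 90134) (nat_lit 9) (.e (nat_lit 290) (nat_lit 21) (.e (nat_lit 336215) (nat_lit 13) (.e (nat_lit 393229) (nat_lit 9) (.e (nat_lit 335986) (nat_lit 1) .nil))))))) (.g (nat_lit 5) .nil .nil)))) (.nd (nat_lit 6) 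
(.lf (nat_lit 181295) (.g (nat_lit 2276) (.e (nat_lit 57847) (nat_lit 252) (.e (nat_lit 57372) (nat_lit 2) (.e (nat_lit 90160) (nat_lit 11) (.e (nat_lit 24580) (nat_lit 0) (.e (nat_lit 6508) (nat_lit 345) .nil))))) .nil)) 
(.lf (nat_lit 181359) (.g (nat_lit 1234) (.e (nat_lit 57847) (nat_lit 252) (.e (nat_lit 57375) (nat_lit 2) (.e (nat_lit 90128) (nat_lit 9) (.e (nat_lit 315) (nat_lit 23) .nil)))) .nil)))) (.nd (nat_lit 5) (.nd (nat_lit 6) 
(.lf (nat_lit 181279) (.g (nat_lit 1087) (.e (nat_lit 57847) (nat_lit 252) (.e (nat_lit 57372) (nat_lit 2) (.e (nat_lit 90133) (nat_lit 9) .nil))) .nil)) 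
(.lf (nat_lit 181343) (.g (nat_lit 2368) (.e (nat_lit 57847) (nat_lit 252) (.e (nat_lit 57373) (nat_lit 2) (.e (nat_lit 90160) (nat_lit 11) (.e (nat_lit 24656) (nat_lit 13) (.e (nat_lit 393229) (nat_lit 9) .nil))))) .nil))) (.nd (nat_lit 6) 
(.lf (nat_lit 181311) (.g (nat_lit 1909) (.e (nat_lit 57847) (nat_lit 252) (.e (nat_lit 57372) (nat_lit 2) (.e (nat_lit 90160) (nat_lit 11) (.e (nat_lit 24638) (nat_lit 9) (.e (nat_lit 336387) (nat_lit 27) (.e (nat_lit 426500) (nat_lit 27) (.e (nat_lit 335986) (nat_lit 1) .nil))))))) (.g (nat_lit 4) .nil .nil))) 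
(.lf (nat_lit 181375) (.g (nat_lit 2089) (.e (nat_lit 57847) (nat_lit 252) (.e (nat_lit 57375) (nat_lit 2) (.e (nat_lit 90160) (nat_lit 11) (.e (nat_lit 24625) (nat_lit 9) (.e (nat_lit 336452) (nat_lit 34) .nil))))) .nil)))))))))

noncomputable def tv2428 : DT := (.nd (nat_lit 0) (.nd (nat_lit 1) (.nd (nat_lit 2) (.nd (nat_lit 3) (.nd (nat_lit 4) (.nd (nat_lit 5) (.nd (nat_lit 6) 
(.lf (nat_lit 181376) (.g (nat_lit 983) (.e (nat_lit 57847) (nat_lit 252) (.e (nat_lit 57375) (nat_lit 2) (.e (nat_lit 90160) (nat_lit 11) (.e (nat_lit 24628) (nat_lit 9) .nil)))) .nil)) 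
(.lf (nat_lit 181440) (.g (nat_lit 2702) (.e (nat_lit 57847) (nat_lit 252) (.e (nat_lit 57377) (nat_lit 3) (.e (nat_lit 98317) (nat_lit 9) (.e (nat_lit 336087) (nat_lit 9) (.e (nat_lit 336456) (nat_lit 34) .nil))))) .nil))) (.nd (nat_lit 6) 
(.lf (nat_lit 181408) (.g (nat_lit 4146) (.e (nat_lit 57847) (nat_lit 252) (.e (nat_lit 57377) (nat_lit 3) (.e (nat_lit 98317) (nat_lit 9) (.e (nat_lit 335912) (nat_lit 0) .nil)))) .nil)) 
(.lf (nat_lit 181472) (.g (nat_lit 3299) (.e (nat_lit 57847) (nat_lit 252) (.e (nat_lit 57378) (nat_lit 3) (.e (nat_lit 98313) (nat_lit 9) (.e (nat_lit 336027) (nat_lit 3) (.e (nat_lit 98342) (nat_lit 20) (.e (nat_lit 221215) (nat_lit 23) (.e (nat_lit 204829) (nat_lit 18) .nil))))))) (.g (nat_lit 4) .nil .nil))))) (.nd (nat_lit 5) (.nd (nat_lit 6) 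
(.lf (nat_lit 181392) (.g (nat_lit 2284) (.e (nat_lit 57847) (nat_lit 252) (.e (nat_lit 57375) (nat_lit 2) (.e (nat_lit 90160) (nat_lit 11) (.e (nat_lit 24658) (nat_lit 13) (.e (nat_lit 393224) (nat_lit 9) .nil))))) .nil)) 
(.lf (nat_lit 181456) (.g (nat_lit 2790) (.e (nat_lit 57847) (nat_lit 252) (.e (nat_lit 57377) (nat_lit 3) (.e (nat_lit 98317) (nat_lit 9) (.e (nat_lit 336212) (nat_lit 13) .nil)))) .nil))) (.nd (nat_lit 6) 
(.lf (nat_lit 181424) (.g (nat_lit 3683) (.e (nat_lit 57847) (nat_lit 252) (.e (nat_lit 57377) (nat_lit 3) (.e (nat_lit 98317) (nat_lit 9) (.e (nat_lit 336027) (nat_lit 3) (.e (nat_lit 98342) (nat_lit 20) (.e (nat_lit 221212) (nat_lit 22) (.e (nat_lit 196632) (nat_lit 9) (.e (nat_lit 1170) (nat_lit 87) .nil)))))))) (.g (nat_lit 4) .nil .nil))) 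
(.lf (nat_lit 181488) (.g (nat_lit 1743) (.e (nat_lit 57847) (nat_lit 252) (.e (nat_lit 57379) (nat_lit 3) (.e (nat_lit 98317) (nat_lit 9) (.e (nat_lit 336088) (nat_lit 9) (.e (nat_lit 336366) (nat_lit 27) .nil))))) .nil))))) (.nd (nat_lit 4) (.nd (nat_lit 5) (.nd (nat_lit 6) 
(.lf (nat_lit 181384) (.g (nat_lit 1769) (.e (nat_lit 57847) (nat_lit 252) (.e (nat_lit 57375) (nat_lit 2) (.e (nat_lit 90160) (nat_lit 11) (.e (nat_lit 24631) (nat_lit 9) .nil)))) .nil)) 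
(.lf (nat_lit 181448) (.g (nat_lit 4209) (.e (nat_lit 57847) (nat_lit 252) (.e (nat_lit 57377) (nat_lit 3) (.e (nat_lit 98317) (nat_lit 9) (.e (nat_lit 336194) (nat_lit 12) (.e (nat_lit 392960) (nat_lit 10) .nil))))) .nil))) (.nd (nat_lit 6) 
(.lf (nat_lit 181416) (.g (nat_lit 4055) (.e (nat_lit 57847) (nat_lit 252) (.e (nat_lit 57377) (nat_lit 3) (.e (nat_lit 98317) (nat_lit 9) (.e (nat_lit 336010) (nat_lit 2) .nil)))) .nil)) 
(.lf (nat_lit 181480) (.g (nat_lit 1623) (.e (nat_lit 57847) (nat_lit 252) (.e (nat_lit 57378) (nat_lit 3) (.e (nat_lit 98341) (nat_lit 20) (.e (nat_lit 221215) (nat_lit 23) .nil)))) .nil)))) (.nd (nat_lit 5) (.nd (nat_lit 6) 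
(.lf (nat_lit 181400) (.g (nat_lit 4130) (.e (nat_lit 57847) (nat_lit 252) (.e (nat_lit 57377) (nat_lit 3) (.e (nat_lit 98317) (nat_lit 9) (.e (nat_lit 335892) (nat_lit 0) .nil)))) .nil)) 
(.lf (nat_lit 181464) (.g (nat_lit 3911) (.e (nat_lit 57847) (nat_lit 252) (.e (nat_lit 57377) (nat_lit 3) (.e (nat_lit 98317) (nat_lit 9) (.e (nat_lit 336223) (nat_lit 13) (.e (nat_lit 393225) (nat_lit 9) (.e (nat_lit 335995) (nat_lit 1) .nil)))))) (.g (nat_lit 0) .nil .nil)))) (.nd (nat_lit 6) 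
(.lf (nat_lit 181432) (.g (nat_lit 2984) (.e (nat_lit 57847) (nat_lit 252) (.e (nat_lit 57377) (nat_lit 3) (.e (nat_lit 98317) (nat_lit 9) (.e (nat_lit 336084) (nat_lit 9) .nil)))) .nil)) 
(.lf (nat_lit 181496) (.g (nat_lit 2927) (.e (nat_lit 57847) (nat_lit 252) (.e (nat_lit 57385) (nat_lit 4) (.e (nat_lit 106534) (nat_lit 11) (.e (nat_lit 16434) (nat_lit 9) (.e (nat_lit 426555) (nat_lit 32) (.e (nat_lit 376857) (nat_lit 21) .nil)))))) (.g (nat_lit 5) .nil .nil))))))) (.nd (nat_lit 3) (.nd (nat_lit 4) (.nd (nat_lit 5) (.nd (nat_lit 6) 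
(.lf (nat_lit 181380) (.g (nat_lit 1970) (.e (nat_lit 57847) (nat_lit 252) (.e (nat_lit 57375) (nat_lit 2) (.e (nat_lit 90160) (nat_lit 11) (.e (nat_lit 24628) (nat_lit 9) (.e (nat_lit 336374) (nat_lit 27) .nil))))) .nil)) 
(.lf (nat_lit 181444) (.g (nat_lit 3932) (.e (nat_lit 57847) (nat_lit 252) (.e (nat_lit 57377) (nat_lit 3) (.e (nat_lit 98317) (nat_lit 9) (.e (nat_lit 336091) (nat_lit 9) (.e (nat_lit 336410) (nat_lit 27) .nil))))) .nil))) (.nd (nat_lit 6) 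
(.lf (nat_lit 181412) (.g (nat_lit 4146) (.e (nat_lit 57847) (nat_lit 252) (.e (nat_lit 57377) (nat_lit 3) (.e (nat_lit 98317) (nat_lit 9) (.e (nat_lit 335926) (nat_lit 0) .nil)))) .nil)) 
(.lf (nat_lit 181476) (.g (nat_lit 983) (.e (nat_lit 57847) (nat_lit 252) (.e (nat_lit 57378) (nat_lit 3) (.e (nat_lit 98316) (nat_lit 9) .nil))) .nil)))) (.nd (nat_lit 5) (.nd (nat_lit 6) 
(.lf (nat_lit 181396) (.g (nat_lit 3557) (.e (nat_lit 57847) (nat_lit 252) (.e (nat_lit 57377) (nat_lit 3) (.e (nat_lit 98313) (nat_lit 9) (.e (nat_lit 336027) (nat_lit 3) (.e (nat_lit 98342) (nat_lit 20) (.e (nat_lit 221212) (nat_lit 22) (.e (nat_lit 196632) (nat_lit 9) (.e (nat_lit 1170) (nat_lit 87) .nil)))))))) (.g (nat_lit 6) .nil .nil))) 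
(.lf (nat_lit 181460) (.g (nat_lit 3214) (.e (nat_lit 57847) (nat_lit 252) (.e (nat_lit 57377) (nat_lit 3) (.e (nat_lit 98317) (nat_lit 9) (.e (nat_lit 336213) (nat_lit 13) (.e (nat_lit 393228) (nat_lit 9) .nil))))) .nil))) (.nd (nat_lit 6) 
(.lf (nat_lit 181428) (.g (nat_lit 2631) (.e (nat_lit 57847) (nat_lit 252) (.e (nat_lit 57377) (nat_lit 3) (.e (nat_lit 98317) (nat_lit 9) (.e (nat_lit 336075) (nat_lit 9) .nil)))) .nil)) 
(.lf (nat_lit 181492) (.g (nat_lit 2824) (.e (nat_lit 57847) (nat_lit 252) (.e (nat_lit 57379) (nat_lit 3) (.e (nat_lit 98317) (nat_lit 9) (.e (nat_lit 336213) (nat_lit 13) (.e (nat_lit 393224) (nat_lit 9) .nil))))) .nil))))) (.nd (nat_lit 4) (.nd (nat_lit 5) (.nd (nat_lit 6) 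
(.lf (nat_lit 181388) (.g (nat_lit 1758) (.e (nat_lit 57847) (nat_lit 252) (.e (nat_lit 57375) (nat_lit 2) (.e (nat_lit 90160) (nat_lit 11) (.e (nat_lit 24647) (nat_lit 12) .nil)))) .nil)) 
(.lf (nat_lit 181452) (.g (nat_lit 4146) (.e (nat_lit 57847) (nat_lit 252) (.e (nat_lit 57377) (nat_lit 3) (.e (nat_lit 98317) (nat_lit 9) (.e (nat_lit 336201) (nat_lit 12) .nil)))) .nil))) (.nd (nat_lit 6) 
(.lf (nat_lit 181420) (.g (nat_lit 4037) (.e (nat_lit 57847) (nat_lit 252) (.e (nat_lit 57377) (nat_lit 3) (.e (nat_lit 98317) (nat_lit 9) (.e (nat_lit 336025) (nat_lit 3) .nil)))) .nil)) 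
(.lf (nat_lit 181484) (.g (nat_lit 1263) (.e (nat_lit 57847) (nat_lit 252) (.e (nat_lit 57379) (nat_lit 3) (.e (nat_lit 98315) (nat_lit 9) (.e (nat_lit 336154) (nat_lit 9) (.e (nat_lit 343808) (nat_lit 34) (.e (nat_lit 483366) (nat_lit 18) .nil)))))) (.g (nat_lit 4) .nil .nil))))) (.nd (nat_lit 5) (.nd (nat_lit 6) 
(.lf (nat_lit 181404) (.g (nat_lit 4144) (.e (nat_lit 57847) (nat_lit 252) (.e (nat_lit 57377) (nat_lit 3) (.e (nat_lit 98317) (nat_lit 9) (.e (nat_lit 335898) (nat_lit 0) .nil)))) .nil)) 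
(.lf (nat_lit 181468) (.g (nat_lit 4146) (.e (nat_lit 57847) (nat_lit 252) (.e (nat_lit 57377) (nat_lit 3) (.e (nat_lit 98317) (nat_lit 9) (.e (nat_lit 336232) (nat_lit 14) .nil)))) .nil))) (.nd (nat_lit 6) 
(.lf (nat_lit 181436) (.g (nat_lit 2205) (.e (nat_lit 57847) (nat_lit 252) (.e (nat_lit 57377) (nat_lit 3) (.e (nat_lit 98317) (nat_lit 9) (.e (nat_lit 336087) (nat_lit 9) .nil)))) .nil)) 
(.lf (nat_lit 181500) (.g (nat_lit 2735) (.e (nat_lit 57847) (nat_lit 252) (.e (nat_lit 57386) (nat_lit 4) (.e (nat_lit 106535) (nat_lit 11) (.e (nat_lit 16435) (nat_lit 9) (.e (nat_lit 426555) (nat_lit 32) (.e (nat_lit 376859) (nat_lit 21) .nil)))))) (.g (nat_lit 6) .nil .nil)))))))) (.nd (nat_lit 2) (.nd (nat_lit 3) (.nd (nat_lit 4) (.nd (nat_lit 5) (.nd (nat_lit 6) 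
(.lf (nat_lit 181378) (.g (nat_lit 2119) (.e (nat_lit 57847) (nat_lit 252) (.e (nat_lit 57375) (nat_lit 2) (.e (nat_lit 90160) (nat_lit 11) (.e (nat_lit 24628) (nat_lit 9) (.e (nat_lit 336368) (nat_lit 27) .nil))))) .nil)) 
(.lf (nat_lit 181442) (.g (nat_lit 3684) (.e (nat_lit 57847) (nat_lit 252) (.e (nat_lit 57377) (nat_lit 3) (.e (nat_lit 98317) (nat_lit 9) (.e (nat_lit 336088) (nat_lit 9) (.e (nat_lit 336456) (nat_lit 34) (.e (nat_lit 483365) (nat_lit 18) .nil)))))) (.g (nat_lit 0) .nil .nil)))) (.nd (nat_lit 6) 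
(.lf (nat_lit 181410) (.g (nat_lit 4020) (.e (nat_lit 57847) (nat_lit 252) (.e (nat_lit 57377) (nat_lit 3) (.e (nat_lit 98317) (nat_lit 9) (.e (nat_lit 335914) (nat_lit 0) .nil)))) .nil)) 
(.lf (nat_lit 181474) (.g (nat_lit 2642) (.e (nat_lit 57847) (nat_lit 252) (.e (nat_lit 57378) (nat_lit 3) (.e (nat_lit 98313) (nat_lit 9) (.e (nat_lit 336223) (nat_lit 13) (.e (nat_lit 393224) (nat_lit 9) .nil))))) .nil)))) (.nd (nat_lit 5) (.nd (nat_lit 6) 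
(.lf (nat_lit 181394) (.g (nat_lit 1620) (.e (nat_lit 57847) (nat_lit 252) (.e (nat_lit 57375) (nat_lit 2) (.e (nat_lit 90160) (nat_lit 11) (.e (nat_lit 24660) (nat_lit 13) (.e (nat_lit 393229) (nat_lit 9) .nil))))) .nil)) 
(.lf (nat_lit 181458) (.g (nat_lit 2851) (.e (nat_lit 57847) (nat_lit 252) (.e (nat_lit 57377) (nat_lit 3) (.e (nat_lit 98317) (nat_lit 9) (.e (nat_lit 336213) (nat_lit 13) (.e (nat_lit 393224) (nat_lit 9) (.e (nat_lit 335995) (nat_lit 1) .nil)))))) (.g (nat_lit 4) .nil .nil)))) (.nd (nat_lit 6) 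
(.lf (nat_lit 181426) (.g (nat_lit 3312) (.e (nat_lit 57847) (nat_lit 252) (.e (nat_lit 57377) (nat_lit 3) (.e (nat_lit 98317) (nat_lit 9) (.e (nat_lit 336073) (nat_lit 9) .nil)))) .nil)) 
(.lf (nat_lit 181490) (.g (nat_lit 1808) (.e (nat_lit 57847) (nat_lit 252) (.e (nat_lit 57379) (nat_lit 3) (.e (nat_lit 98317) (nat_lit 9) (.e (nat_lit 336088) (nat_lit 9) (.e (nat_lit 336383) (nat_lit 27) .nil))))) .nil))))) (.nd (nat_lit 4) (.nd (nat_lit 5) (.nd (nat_lit 6) 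
(.lf (nat_lit 181386) (.g (nat_lit 1559) (.e (nat_lit 57847) (nat_lit 252) (.e (nat_lit 57375) (nat_lit 2) (.e (nat_lit 90160) (nat_lit 11) (.e (nat_lit 24638) (nat_lit 9) (.e (nat_lit 343808) (nat_lit 34) .nil))))) .nil)) 
(.lf (nat_lit 181450) (.g (nat_lit 4098) (.e (nat_lit 57847) (nat_lit 252) (.e (nat_lit 57377) (nat_lit 3) (.e (nat_lit 98317) (nat_lit 9) (.e (nat_lit 336196) (nat_lit 12) (.e (nat_lit 392960) (nat_lit 10) .nil))))) .nil))) (.nd (nat_lit 6) 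
(.lf (nat_lit 181418) (.g (nat_lit 3978) (.e (nat_lit 57847) (nat_lit 252) (.e (nat_lit 57377) (nat_lit 3) (.e (nat_lit 98317) (nat_lit 9) (.e (nat_lit 336020) (nat_lit 3) .nil)))) .nil)) 
(.lf (nat_lit 181482) (.g (nat_lit 1829) (.e (nat_lit 57847) (nat_lit 252) (.e (nat_lit 57379) (nat_lit 3) (.e (nat_lit 98313) (nat_lit 9) (.e (nat_lit 336027) (nat_lit 3) (.e (nat_lit 98337) (nat_lit 19) .nil))))) .nil)))) (.nd (nat_lit 5) (.nd (nat_lit 6) 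
(.lf (nat_lit 181402) (.g (nat_lit 4146) (.e (nat_lit 57847) (nat_lit 252) (.e (nat_lit 57377) (nat_lit 3) (.e (nat_lit 98317) (nat_lit 9) (.e (nat_lit 335894) (nat_lit 0) .nil)))) .nil)) 
(.lf (nat_lit 181466) (.g (nat_lit 2561) (.e (nat_lit 57847) (nat_lit 252) (.e (nat_lit 57377) (nat_lit 3) (.e (nat_lit 98317) (nat_lit 9) (.e (nat_lit 343808) (nat_lit 13) .nil)))) .nil))) (.nd (nat_lit 6) 
(.lf (nat_lit 181434) (.g (nat_lit 1294) (.e (nat_lit 57847) (nat_lit 252) (.e (nat_lit 57377) (nat_lit 3) (.e (nat_lit 98317) (nat_lit 9) (.e (nat_lit 336086) (nat_lit 9) .nil)))) .nil)) 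
(.lf (nat_lit 181498) (.g (nat_lit 3127) (.e (nat_lit 57847) (nat_lit 252) (.e (nat_lit 57386) (nat_lit 4) (.e (nat_lit 106534) (nat_lit 11) (.e (nat_lit 16438) (nat_lit 9) (.e (nat_lit 426555) (nat_lit 32) (.e (nat_lit 376857) (nat_lit 21) .nil)))))) (.g (nat_lit 0) .nil .nil))))))) (.nd (nat_lit 3) (.nd (nat_lit 4) (.nd (nat_lit 5) (.nd (nat_lit 6) 
(.lf (nat_lit 181382) (.g (nat_lit 1637) (.e (nat_lit 57847) (nat_lit 252) (.e (nat_lit 57375) (nat_lit 2) (.e (nat_lit 90160) (nat_lit 11) (.e (nat_lit 24629) (nat_lit 9) (.e (nat_lit 336456) (nat_lit 34) .nil))))) .nil)) 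
(.lf (nat_lit 181446) (.g (nat_lit 4118) (.e (nat_lit 57847) (nat_lit 252) (.e (nat_lit 57377) (nat_lit 3) (.e (nat_lit 98317) (nat_lit 9) (.e (nat_lit 336150) (nat_lit 9) .nil)))) .nil))) (.nd (nat_lit 6) 
(.lf (nat_lit 181414) (.g (nat_lit 4146) (.e (nat_lit 57847) (nat_lit 252) (.e (nat_lit 57377) (nat_lit 3) (.e (nat_lit 98317) (nat_lit 9) (.e (nat_lit 335933) (nat_lit 0) .nil)))) .nil)) 
(.lf (nat_lit 181478) (.g (nat_lit 1586) (.e (nat_lit 57847) (nat_lit 252) (.e (nat_lit 57378) (nat_lit 3) (.e (nat_lit 98317) (nat_lit 9) (.e (nat_lit 336088) (nat_lit 9) (.e (nat_lit 336383) (nat_lit 27) .nil))))) .nil)))) (.nd (nat_lit 5) (.nd (nat_lit 6) 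
(.lf (nat_lit 181398) (.g (nat_lit 259) (.e (nat_lit 57847) (nat_lit 252) (.e (nat_lit 57377) (nat_lit 3) (.e (nat_lit 98317) (nat_lit 9) .nil))) .nil)) 
(.lf (nat_lit 181462) (.g (nat_lit 2582) (.e (nat_lit 57847) (nat_lit 252) (.e (nat_lit 57377) (nat_lit 3) (.e (nat_lit 98317) (nat_lit 9) (.e (nat_lit 336221) (nat_lit 13) .nil)))) .nil))) (.nd (nat_lit 6) 
(.lf (nat_lit 181430) (.g (nat_lit 2376) (.e (nat_lit 57847) (nat_lit 252) (.e (nat_lit 57377) (nat_lit 3) (.e (nat_lit 98317) (nat_lit 9) (.e (nat_lit 336076) (nat_lit 9) (.e (nat_lit 336452) (nat_lit 34) .nil))))) .nil)) 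
(.lf (nat_lit 181494) (.g (nat_lit 1495) (.e (nat_lit 57847) (nat_lit 252) (.e (nat_lit 57379) (nat_lit 3) (.e (nat_lit 98334) (nat_lit 18) (.e (nat_lit 171776) (nat_lit 148) .nil)))) .nil))))) (.nd (nat_lit 4) (.nd (nat_lit 5) (.nd (nat_lit 6) 
(.lf (nat_lit 181390) (.g (nat_lit 2565) (.e (nat_lit 57847) (nat_lit 252) (.e (nat_lit 57375) (nat_lit 2) (.e (nat_lit 90160) (nat_lit 11) (.e (nat_lit 24655) (nat_lit 13) (.e (nat_lit 393224) (nat_lit 9) (.e (nat_lit 335995) (nat_lit 1) .nil)))))) (.g (nat_lit 4) .nil .nil))) 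
(.lf (nat_lit 181454) (.g (nat_lit 3763) (.e (nat_lit 57847) (nat_lit 252) (.e (nat_lit 57377) (nat_lit 3) (.e (nat_lit 98317) (nat_lit 9) (.e (nat_lit 336203) (nat_lit 12) .nil)))) .nil))) (.nd (nat_lit 6) 
(.lf (nat_lit 181422) (.g (nat_lit 2287) (.e (nat_lit 57847) (nat_lit 252) (.e (nat_lit 57377) (nat_lit 3) (.e (nat_lit 98317) (nat_lit 9) (.e (nat_lit 336027) (nat_lit 3) .nil)))) .nil)) 
(.lf (nat_lit 181486) (.g (nat_lit 1156) (.e (nat_lit 57847) (nat_lit 252) (.e (nat_lit 57379) (nat_lit 3) (.e (nat_lit 98317) (nat_lit 9) (.e (nat_lit 336086) (nat_lit 9) .nil)))) .nil)))) (.nd (nat_lit 5) (.nd (nat_lit 6) 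
(.lf (nat_lit 181406) (.g (nat_lit 4146) (.e (nat_lit 57847) (nat_lit 252) (.e (nat_lit 57377) (nat_lit 3) (.e (nat_lit 98317) (nat_lit 9) (.e (nat_lit 335910) (nat_lit 0) .nil)))) .nil)) 
(.lf (nat_lit 181470) (.g (nat_lit 1072) (.e (nat_lit 57847) (nat_lit 252) (.e (nat_lit 57378) (nat_lit 3) (.e (nat_lit 98312) (nat_lit 9) .nil))) .nil))) (.nd (nat_lit 6) 
(.lf (nat_lit 181438) (.g (nat_lit 2759) (.e (nat_lit 57847) (nat_lit 252) (.e (nat_lit 57377) (nat_lit 3) (.e (nat_lit 98317) (nat_lit 9) (.e (nat_lit 336087) (nat_lit 9) (.e (nat_lit 336379) (nat_lit 27) .nil))))) .nil)) 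
(.lf (nat_lit 181502) (.g (nat_lit 1882) (.e (nat_lit 57847) (nat_lit 252) (.e (nat_lit 57386) (nat_lit 4) (.e (nat_lit 106536) (nat_lit 11) (.e (nat_lit 16438) (nat_lit 9) (.e (nat_lit 426556) (nat_lit 32) (.e (nat_lit 376859) (nat_lit 21) .nil)))))) (.g (nat_lit 4) .nil .nil))))))))) (.nd (nat_lit 1) (.nd (nat_lit 2) (.nd (nat_lit 3) (.nd (nat_lit 4) (.nd (nat_lit 5) (.nd (nat_lit 6) 
(.lf (nat_lit 181377) (.g (nat_lit 2132) (.e (nat_lit 57847) (nat_lit 252) (.e (nat_lit 57375) (nat_lit 2) (.e (nat_lit 90160) (nat_lit 11) (.e (nat_lit 24628) (nat_lit 9) (.e (nat_lit 336366) (nat_lit 27) .nil))))) .nil)) 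
(.lf (nat_lit 181441) (.g (nat_lit 1062) (.e (nat_lit 57847) (nat_lit 252) (.e (nat_lit 57377) (nat_lit 3) (.e (nat_lit 98317) (nat_lit 9) (.e (nat_lit 336088) (nat_lit 9) .nil)))) .nil))) (.nd (nat_lit 6) 
(.lf (nat_lit 181409) (.g (nat_lit 4146) (.e (nat_lit 57847) (nat_lit 252) (.e (nat_lit 57377) (nat_lit 3) (.e (nat_lit 98317) (nat_lit 9) (.e (nat_lit 335913) (nat_lit 0) .nil)))) .nil)) 
(.lf (nat_lit 181473) (.g (nat_lit 2738) (.e (nat_lit 57847) (nat_lit 252) (.e (nat_lit 57378) (nat_lit 3) (.e (nat_lit 98313) (nat_lit 9) (.e (nat_lit 336086) (nat_lit 9) (.e (nat_lit 336454) (nat_lit 34) .nil))))) .nil)))) (.nd (nat_lit 5) (.nd (nat_lit 6) 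
(.lf (nat_lit 181393) (.g (nat_lit 3954) (.e (nat_lit 57847) (nat_lit 252) (.e (nat_lit 57375) (nat_lit 2) (.e (nat_lit 90160) (nat_lit 11) (.e (nat_lit 24658) (nat_lit 13) (.e (nat_lit 393225) (nat_lit 9) (.e (nat_lit 335995) (nat_lit 1) .nil)))))) (.g (nat_lit 0) .nil .nil))) 
(.lf (nat_lit 181457) (.g (nat_lit 2865) (.e (nat_lit 57847) (nat_lit 252) (.e (nat_lit 57377) (nat_lit 3) (.e (nat_lit 98317) (nat_lit 9) (.e (nat_lit 336213) (nat_lit 13) (.e (nat_lit 393224) (nat_lit 9) (.e (nat_lit 335986) (nat_lit 1) .nil)))))) (.g (nat_lit 4) .nil .nil)))) (.nd (nat_lit 6) 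
(.lf (nat_lit 181425) (.g (nat_lit 3763) (.e (nat_lit 57847) (nat_lit 252) (.e (nat_lit 57377) (nat_lit 3) (.e (nat_lit 98317) (nat_lit 9) (.e (nat_lit 336027) (nat_lit 3) (.e (nat_lit 98342) (nat_lit 20) (.e (nat_lit 221215) (nat_lit 23) (.e (nat_lit 204829) (nat_lit 18) .nil))))))) (.g (nat_lit 4) .nil .nil))) 
(.lf (nat_lit 181489) (.g (nat_lit 1747) (.e (nat_lit 57847) (nat_lit 252) (.e (nat_lit 57379) (nat_lit 3) (.e (nat_lit 98317) (nat_lit 9) (.e (nat_lit 336088) (nat_lit 9) (.e (nat_lit 336370) (nat_lit 27) .nil))))) .nil))))) (.nd (nat_lit 4) (.nd (nat_lit 5) (.nd (nat_lit 6) 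
(.lf (nat_lit 181385) (.g (nat_lit 1862) (.e (nat_lit 57847) (nat_lit 252) (.e (nat_lit 57375) (nat_lit 2) (.e (nat_lit 90160) (nat_lit 11) (.e (nat_lit 24638) (nat_lit 9) (.e (nat_lit 336387) (nat_lit 27) (.e (nat_lit 426500) (nat_lit 27) (.e (nat_lit 335986) (nat_lit 1) .nil))))))) (.g (nat_lit 4) .nil .nil))) 
(.lf (nat_lit 181449) (.g (nat_lit 4146) (.e (nat_lit 57847) (nat_lit 252) (.e (nat_lit 57377) (nat_lit 3) (.e (nat_lit 98317) (nat_lit 9) (.e (nat_lit 336195) (nat_lit 12) .nil)))) .nil))) (.nd (nat_lit 6) 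
(.lf (nat_lit 181417) (.g (nat_lit 4639) (.e (nat_lit 57847) (nat_lit 252) (.e (nat_lit 57377) (nat_lit 3) (.e (nat_lit 98317) (nat_lit 9) (.e (nat_lit 336011) (nat_lit 2) (.e (nat_lit 90165) (nat_lit 12) .nil))))) .nil)) 
(.lf (nat_lit 181481) (.g (nat_lit 3275) (.e (nat_lit 57847) (nat_lit 252) (.e (nat_lit 57379) (nat_lit 3) (.e (nat_lit 98312) (nat_lit 9) (.e (nat_lit 336078) (nat_lit 9) (.e (nat_lit 336454) (nat_lit 34) (.e (nat_lit 483365) (nat_lit 18) .nil)))))) (.g (nat_lit 0) .nil .nil))))) (.nd (nat_lit 5) (.nd (nat_lit 6) 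
(.lf (nat_lit 181401) (.g (nat_lit 4146) (.e (nat_lit 57847) (nat_lit 252) (.e (nat_lit 57377) (nat_lit 3) (.e (nat_lit 98317) (nat_lit 9) (.e (nat_lit 335893) (nat_lit 0) .nil)))) .nil)) 
(.lf (nat_lit 181465) (.g (nat_lit 2898) (.e (nat_lit 57847) (nat_lit 252) (.e (nat_lit 57377) (nat_lit 3) (.e (nat_lit 98317) (nat_lit 9) (.e (nat_lit 336223) (nat_lit 13) (.e (nat_lit 393228) (nat_lit 9) .nil))))) .nil))) (.nd (nat_lit 6) 
(.lf (nat_lit 181433) (.g (nat_lit 2560) (.e (nat_lit 57847) (nat_lit 252) (.e (nat_lit 57377) (nat_lit 3) (.e (nat_lit 98317) (nat_lit 9) (.e (nat_lit 336085) (nat_lit 9) .nil)))) .nil)) 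
(.lf (nat_lit 181497) (.g (nat_lit 2767) (.e (nat_lit 57847) (nat_lit 252) (.e (nat_lit 57386) (nat_lit 4) (.e (nat_lit 106534) (nat_lit 11) (.e (nat_lit 16434) (nat_lit 9) (.e (nat_lit 426555) (nat_lit 32) (.e (nat_lit 376859) (nat_lit 21) .nil)))))) (.g (nat_lit 5) .nil .nil))))))) (.nd (nat_lit 3) (.nd (nat_lit 4) (.nd (nat_lit 5) (.nd (nat_lit 6) 
(.lf (nat_lit 181381) (.g (nat_lit 2107) (.e (nat_lit 57847) (nat_lit 252) (.e (nat_lit 57375) (nat_lit 2) (.e (nat_lit 90160) (nat_lit 11) (.e (nat_lit 24628) (nat_lit 9) (.e (nat_lit 336375) (nat_lit 27) .nil))))) .nil)) 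
(.lf (nat_lit 181445) (.g (nat_lit 4133) (.e (nat_lit 57847) (nat_lit 252) (.e (nat_lit 57377) (nat_lit 3) (.e (nat_lit 98317) (nat_lit 9) (.e (nat_lit 336100) (nat_lit 9) .nil)))) .nil))) (.nd (nat_lit 6) 
(.lf (nat_lit 181413) (.g (nat_lit 4146) (.e (nat_lit 57847) (nat_lit 252) (.e (nat_lit 57377) (nat_lit 3) (.e (nat_lit 98317) (nat_lit 9) (.e (nat_lit 335931) (nat_lit 0) .nil)))) .nil)) 
(.lf (nat_lit 181477) (.g (nat_lit 379) (.e (nat_lit 57847) (nat_lit 252) (.e (nat_lit 57378) (nat_lit 3) (.e (nat_lit 98317) (nat_lit 9) .nil))) .nil)))) (.nd (nat_lit 5) (.nd (nat_lit 6) 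
(.lf (nat_lit 181397) (.g (nat_lit 1322) (.e (nat_lit 57847) (nat_lit 252) (.e (nat_lit 57377) (nat_lit 3) (.e (nat_lit 98315) (nat_lit 9) (.e (nat_lit 336154) (nat_lit 9) (.e (nat_lit 343808) (nat_lit 34) (.e (nat_lit 483366) (nat_lit 18) .nil)))))) (.g (nat_lit 4) .nil .nil))) 
(.lf (nat_lit 181461) (.g (nat_lit 1369) (.e (nat_lit 57847) (nat_lit 252) (.e (nat_lit 57377) (nat_lit 3) (.e (nat_lit 98317) (nat_lit 9) (.e (nat_lit 336214) (nat_lit 13) .nil)))) .nil))) (.nd (nat_lit 6) 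
(.lf (nat_lit 181429) (.g (nat_lit 3020) (.e (nat_lit 57847) (nat_lit 252) (.e (nat_lit 57377) (nat_lit 3) (.e (nat_lit 98317) (nat_lit 9) (.e (nat_lit 336075) (nat_lit 9) (.e (nat_lit 336454) (nat_lit 34) .nil))))) .nil)) 
(.lf (nat_lit 181493) (.g (nat_lit 1636) (.e (nat_lit 57847) (nat_lit 252) (.e (nat_lit 57379) (nat_lit 3) (.e (nat_lit 98317) (nat_lit 9) (.e (nat_lit 336222) (nat_lit 13) (.e (nat_lit 393224) (nat_lit 9) .nil))))) .nil))))) (.nd (nat_lit 4) (.nd (nat_lit 5) (.nd (nat_lit 6) 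
(.lf (nat_lit 181389) (.g (nat_lit 2125) (.e (nat_lit 57847) (nat_lit 252) (.e (nat_lit 57375) (nat_lit 2) (.e (nat_lit 90160) (nat_lit 11) (.e (nat_lit 24652) (nat_lit 12) (.e (nat_lit 392960) (nat_lit 10) .nil))))) .nil)) 
(.lf (nat_lit 181453) (.g (nat_lit 4145) (.e (nat_lit 57847) (nat_lit 252) (.e (nat_lit 57377) (nat_lit 3) (.e (nat_lit 98317) (nat_lit 9) (.e (nat_lit 336202) (nat_lit 12) .nil)))) .nil))) (.nd (nat_lit 6) 
(.lf (nat_lit 181421) (.g (nat_lit 3693) (.e (nat_lit 57847) (nat_lit 252) (.e (nat_lit 57377) (nat_lit 3) (.e (nat_lit 98317) (nat_lit 9) (.e (nat_lit 336026) (nat_lit 3) .nil)))) .nil)) 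
(.lf (nat_lit 181485) (.g (nat_lit 470) (.e (nat_lit 57847) (nat_lit 252) (.e (nat_lit 57379) (nat_lit 3) (.e (nat_lit 98316) (nat_lit 9) .nil))) .nil)))) (.nd (nat_lit 5) (.nd (nat_lit 6) 
(.lf (nat_lit 181405) (.g (nat_lit 4102) (.e (nat_lit 57847) (nat_lit 252) (.e (nat_lit 57377) (nat_lit 3) (.e (nat_lit 98317) (nat_lit 9) (.e (nat_lit 335899) (nat_lit 0) .nil)))) .nil)) 
(.lf (nat_lit 181469) (.g (nat_lit 371) (.e (nat_lit 57847) (nat_lit 252) (.e (nat_lit 57377) (nat_lit 3) (.e (nat_lit 106240) (nat_lit 10) .nil))) .nil))) (.nd (nat_lit 6) 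
(.lf (nat_lit 181437) (.g (nat_lit 2849) (.e (nat_lit 57847) (nat_lit 252) (.e (nat_lit 57377) (nat_lit 3) (.e (nat_lit 98317) (nat_lit 9) (.e (nat_lit 336087) (nat_lit 9) (.e (nat_lit 336374) (nat_lit 27) .nil))))) .nil)) 
(.lf (nat_lit 181501) (.g (nat_lit 3086) (.e (nat_lit 57847) (nat_lit 252) (.e (nat_lit 57386) (nat_lit 4) (.e (nat_lit 106535) (nat_lit 11) (.e (nat_lit 16436) (nat_lit 9) (.e (nat_lit 426555) (nat_lit 32) (.e (nat_lit 376859) (nat_lit 21) .nil)))))) (.g (nat_lit 6) .nil .nil)))))))) (.nd (nat_lit 2) (.nd (nat_lit 3) (.nd (nat_lit 4) (.nd (nat_lit 5) (.nd (nat_lit 6) 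
(.lf (nat_lit 181379) (.g (nat_lit 2103) (.e (nat_lit 57847) (nat_lit 252) (.e (nat_lit 57375) (nat_lit 2) (.e (nat_lit 90160) (nat_lit 11) (.e (nat_lit 24628) (nat_lit 9) (.e (nat_lit 336370) (nat_lit 27) .nil))))) .nil)) 
(.lf (nat_lit 181443) (.g (nat_lit 3707) (.e (nat_lit 57847) (nat_lit 252) (.e (nat_lit 57377) (nat_lit 3) (.e (nat_lit 98317) (nat_lit 9) (.e (nat_lit 336091) (nat_lit 9) .nil)))) .nil))) (.nd (nat_lit 6) 
(.lf (nat_lit 181411) (.g (nat_lit 4146) (.e (nat_lit 57847) (nat_lit 252) (.e (nat_lit 57377) (nat_lit 3) (.e (nat_lit 98317) (nat_lit 9) (.e (nat_lit 335917) (nat_lit 0) .nil)))) .nil)) 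
(.lf (nat_lit 181475) (.g (nat_lit 786) (.e (nat_lit 57847) (nat_lit 252) (.e (nat_lit 57378) (nat_lit 3) (.e (nat_lit 98315) (nat_lit 9) .nil))) .nil)))) (.nd (nat_lit 5) (.nd (nat_lit 6) 
(.lf (nat_lit 181395) (.g (nat_lit 302) (.e (nat_lit 57847) (nat_lit 252) (.e (nat_lit 57377) (nat_lit 3) (.e (nat_lit 98313) (nat_lit 9) .nil))) .nil)) 
(.lf (nat_lit 181459) (.g (nat_lit 4445) (.e (nat_lit 57847) (nat_lit 252) (.e (nat_lit 57377) (nat_lit 3) (.e (nat_lit 98317) (nat_lit 9) (.e (nat_lit 336213) (nat_lit 13) (.e (nat_lit 393225) (nat_lit 9) (.e (nat_lit 335995) (nat_lit 1) .nil)))))) (.g (nat_lit 0) .nil .nil)))) (.nd (nat_lit 6) 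
(.lf (nat_lit 181427) (.g (nat_lit 3198) (.e (nat_lit 57847) (nat_lit 252) (.e (nat_lit 57377) (nat_lit 3) (.e (nat_lit 98317) (nat_lit 9) (.e (nat_lit 336074) (nat_lit 9) .nil)))) .nil)) 
(.lf (nat_lit 181491) (.g (nat_lit 1786) (.e (nat_lit 57847) (nat_lit 252) (.e (nat_lit 57379) (nat_lit 3) (.e (nat_lit 98317) (nat_lit 9) (.e (nat_lit 336088) (nat_lit 9) (.e (nat_lit 336395) (nat_lit 27) .nil))))) .nil))))) (.nd (nat_lit 4) (.nd (nat_lit 5) (.nd (nat_lit 6) 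
(.lf (nat_lit 181387) (.g (nat_lit 912) (.e (nat_lit 57847) (nat_lit 252) (.e (nat_lit 57375) (nat_lit 2) (.e (nat_lit 90160) (nat_lit 11) (.e (nat_lit 32512) (nat_lit 9) .nil)))) .nil)) 
(.lf (nat_lit 181451) (.g (nat_lit 4709) (.e (nat_lit 57847) (nat_lit 252) (.e (nat_lit 57377) (nat_lit 3) (.e (nat_lit 98317) (nat_lit 9) (.e (nat_lit 336196) (nat_lit 12) (.e (nat_lit 392960) (nat_lit 10) (.e (nat_lit 24597) (nat_lit 1) .nil)))))) (.g (nat_lit 4) .nil .nil)))) (.nd (nat_lit 6) 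
(.lf (nat_lit 181419) (.g (nat_lit 4535) (.e (nat_lit 57847) (nat_lit 252) (.e (nat_lit 57377) (nat_lit 3) (.e (nat_lit 98317) (nat_lit 9) (.e (nat_lit 336021) (nat_lit 3) .nil)))) .nil)) 
(.lf (nat_lit 181483) (.g (nat_lit 1923) (.e (nat_lit 57847) (nat_lit 252) (.e (nat_lit 57379) (nat_lit 3) (.e (nat_lit 98313) (nat_lit 9) (.e (nat_lit 336223) (nat_lit 13) (.e (nat_lit 393228) (nat_lit 9) .nil))))) .nil)))) (.nd (nat_lit 5) (.nd (nat_lit 6) 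
(.lf (nat_lit 181403) (.g (nat_lit 4140) (.e (nat_lit 57847) (nat_lit 252) (.e (nat_lit 57377) (nat_lit 3) (.e (nat_lit 98317) (nat_lit 9) (.e (nat_lit 335895) (nat_lit 0) .nil)))) .nil)) 
(.lf (nat_lit 181467) (.g (nat_lit 4161) (.e (nat_lit 57847) (nat_lit 252) (.e (nat_lit 57377) (nat_lit 3) (.e (nat_lit 98317) (nat_lit 9) (.e (nat_lit 336231) (nat_lit 14) .nil)))) .nil))) (.nd (nat_lit 6) 
(.lf (nat_lit 181435) (.g (nat_lit 2038) (.e (nat_lit 57847) (nat_lit 252) (.e (nat_lit 57377) (nat_lit 3) (.e (nat_lit 98317) (nat_lit 9) (.e (nat_lit 336086) (nat_lit 9) (.e (nat_lit 336368) (nat_lit 27) .nil))))) .nil)) 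
(.lf (nat_lit 181499) (.g (nat_lit 2535) (.e (nat_lit 57847) (nat_lit 252) (.e (nat_lit 57386) (nat_lit 4) (.e (nat_lit 106535) (nat_lit 11) (.e (nat_lit 16434) (nat_lit 9) (.e (nat_lit 426555) (nat_lit 32) (.e (nat_lit 376859) (nat_lit 21) .nil)))))) (.g (nat_lit 6) .nil .nil))))))) (.nd (nat_lit 3) (.nd (nat_lit 4) (.nd (nat_lit 5) (.nd (nat_lit 6) 
(.lf (nat_lit 181383) (.g (nat_lit 1945) (.e (nat_lit 57847) (nat_lit 252) (.e (nat_lit 57375) (nat_lit 2) (.e (nat_lit 90160) (nat_lit 11) (.e (nat_lit 24630) (nat_lit 9) (.e (nat_lit 336455) (nat_lit 34) .nil))))) .nil)) 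
(.lf (nat_lit 181447) (.g (nat_lit 2561) (.e (nat_lit 57847) (nat_lit 252) (.e (nat_lit 57377) (nat_lit 3) (.e (nat_lit 98317) (nat_lit 9) (.e (nat_lit 343808) (nat_lit 9) .nil)))) .nil))) (.nd (nat_lit 6) 
(.lf (nat_lit 181415) (.g (nat_lit 4145) (.e (nat_lit 57847) (nat_lit 252) (.e (nat_lit 57377) (nat_lit 3) (.e (nat_lit 98317) (nat_lit 9) (.e (nat_lit 335934) (nat_lit 0) .nil)))) .nil)) 
(.lf (nat_lit 181479) (.g (nat_lit 2683) (.e (nat_lit 57847) (nat_lit 252) (.e (nat_lit 57378) (nat_lit 3) (.e (nat_lit 98317) (nat_lit 9) (.e (nat_lit 336213) (nat_lit 13) (.e (nat_lit 393224) (nat_lit 9) .nil))))) .nil)))) (.nd (nat_lit 5) (.nd (nat_lit 6) 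
(.lf (nat_lit 181399) (.g (nat_lit 4146) (.e (nat_lit 57847) (nat_lit 252) (.e (nat_lit 57377) (nat_lit 3) (.e (nat_lit 98317) (nat_lit 9) (.e (nat_lit 335886) (nat_lit 0) .nil)))) .nil)) 
(.lf (nat_lit 181463) (.g (nat_lit 2899) (.e (nat_lit 57847) (nat_lit 252) (.e (nat_lit 57377) (nat_lit 3) (.e (nat_lit 98317) (nat_lit 9) (.e (nat_lit 336223) (nat_lit 13) (.e (nat_lit 393224) (nat_lit 9) .nil))))) .nil))) (.nd (nat_lit 6) 
(.lf (nat_lit 181431) (.g (nat_lit 2865) (.e (nat_lit 57847) (nat_lit 252) (.e (nat_lit 57377) (nat_lit 3) (.e (nat_lit 98317) (nat_lit 9) (.e (nat_lit 336076) (nat_lit 9) (.e (nat_lit 336452) (nat_lit 34) (.e (nat_lit 483363) (nat_lit 18) .nil)))))) (.g (nat_lit 4) .nil .nil))) 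
(.lf (nat_lit 181495) (.g (nat_lit 2372) (.e (nat_lit 57847) (nat_lit 252) (.e (nat_lit 57381) (nat_lit 4) (.e (nat_lit 106536) (nat_lit 11) (.e (nat_lit 16435) (nat_lit 9) (.e (nat_lit 426555) (nat_lit 32) (.e (nat_lit 376859) (nat_lit 21) .nil)))))) (.g (nat_lit 4) .nil .nil)))))) (.nd (nat_lit 4) (.nd (nat_lit 5) (.nd (nat_lit 6) 
(.lf (nat_lit 181391) (.g (nat_lit 4238) (.e (nat_lit 57847) (nat_lit 252) (.e (nat_lit 57375) (nat_lit 2) (.e (nat_lit 90160) (nat_lit 11) (.e (nat_lit 24655) (nat_lit 13) (.e (nat_lit 393225) (nat_lit 9) (.e (nat_lit 335995) (nat_lit 1) .nil)))))) (.g (nat_lit 0) .nil .nil))) 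
(.lf (nat_lit 181455) (.g (nat_lit 4010) (.e (nat_lit 57847) (nat_lit 252) (.e (nat_lit 57377) (nat_lit 3) (.e (nat_lit 98317) (nat_lit 9) (.e (nat_lit 336204) (nat_lit 12) .nil)))) .nil))) (.nd (nat_lit 6) 
(.lf (nat_lit 181423) (.g (nat_lit 3277) (.e (nat_lit 57847) (nat_lit 252) (.e (nat_lit 57377) (nat_lit 3) (.e (nat_lit 98317) (nat_lit 9) (.e (nat_lit 336027) (nat_lit 3) (.e (nat_lit 98340) (nat_lit 20) .nil))))) .nil)) 
(.lf (nat_lit 181487) (.g (nat_lit 983) (.e (nat_lit 57847) (nat_lit 252) (.e (nat_lit 57379) (nat_lit 3) (.e (nat_lit 98317) (nat_lit 9) (.e (nat_lit 336088) (nat_lit 9) .nil)))) .nil)))) (.nd (nat_lit 5) (.nd (nat_lit 6) 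
(.lf (nat_lit 181407) (.g (nat_lit 4145) (.e (nat_lit 57847) (nat_lit 252) (.e (nat_lit 57377) (nat_lit 3) (.e (nat_lit 98317) (nat_lit 9) (.e (nat_lit 335911) (nat_lit 0) .nil)))) .nil)) 
(.lf (nat_lit 181471) (.g (nat_lit 1011) (.e (nat_lit 57847) (nat_lit 252) (.e (nat_lit 57378) (nat_lit 3) (.e (nat_lit 98313) (nat_lit 9) .nil))) .nil))) (.nd (nat_lit 6) 
(.lf (nat_lit 181439) (.g (nat_lit 2594) (.e (nat_lit 57847) (nat_lit 252) (.e (nat_lit 57377) (nat_lit 3) (.e (nat_lit 98317) (nat_lit 9) (.e (nat_lit 336087) (nat_lit 9) (.e (nat_lit 336454) (nat_lit 34) .nil))))) .nil)) 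
(.lf (nat_lit 181503) (.g (nat_lit 843) (.e (nat_lit 57847) (nat_lit 252) (.e (nat_lit 57388) (nat_lit 5) (.e (nat_lit 114694) (nat_lit 11) (.e (nat_lit 426189) (nat_lit 9) .nil)))) .nil)))))))))

noncomputable def tv2429 : DT := (.nd (nat_lit 0) (.nd (nat_lit 1) (.nd (nat_lit 2) (.nd (nat_lit 3) (.nd (nat_lit 4) (.nd (nat_lit 5) (.nd (nat_lit 6) 
(.lf (nat_lit 181504) (.g (nat_lit 2512) (.e (nat_lit 57847) (nat_lit 252) (.e (nat_lit 57390) (nat_lit 5) (.e (nat_lit 114698) (nat_lit 11) (.e (nat_lit 426189) (nat_lit 9) (.e (nat_lit 426555) (nat_lit 32) (.e (nat_lit 376859) (nat_lit 21) .nil)))))) (.g (nat_lit 6) .nil .nil))) 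
(.lf (nat_lit 181568) (.g (nat_lit 3445) (.e (nat_lit 57847) (nat_lit 252) (.e (nat_lit 57407) (nat_lit 12) (.e (nat_lit 336454) (nat_lit 34) (.e (nat_lit 483408) (nat_lit 26) (.e (nat_lit 385066) (nat_lit 26) (.e (nat_lit 532502) (nat_lit 1) .nil)))))) (.g (nat_lit 6) .nil .nil)))) (.nd (nat_lit 6) 
(.lf (nat_lit 181536) (.g (nat_lit 1514) (.e (nat_lit 57847) (nat_lit 252) (.e (nat_lit 57407) (nat_lit 12) (.e (nat_lit 336211) (nat_lit 13) (.e (nat_lit 393279) (nat_lit 23) .nil)))) .nil)) 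
(.lf (nat_lit 181600) (.g (nat_lit 1093) (.e (nat_lit 57847) (nat_lit 252) (.e (nat_lit 57409) (nat_lit 12) (.e (nat_lit 336211) (nat_lit 13) (.e (nat_lit 393279) (nat_lit 23) .nil)))) .nil)))) (.nd (nat_lit 5) (.nd (nat_lit 6) 
(.lf (nat_lit 181520) (.g (nat_lit 2253) (.e (nat_lit 57847) (nat_lit 252) (.e (nat_lit 57406) (nat_lit 12) (.e (nat_lit 336454) (nat_lit 34) (.e (nat_lit 483407) (nat_lit 26) .nil)))) .nil)) 
(.lf (nat_lit 181584) (.g (nat_lit 3430) (.e (nat_lit 57847) (nat_lit 252) (.e (nat_lit 57408) (nat_lit 12) (.e (nat_lit 336454) (nat_lit 34) (.e (nat_lit 483406) (nat_lit 26) (.e (nat_lit 385067) (nat_lit 26) (.e (nat_lit 532499) (nat_lit 1) .nil)))))) (.g (nat_lit 6) .nil .nil)))) (.nd (nat_lit 6) 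
(.lf (nat_lit 181552) (.g (nat_lit 492) (.e (nat_lit 57847) (nat_lit 252) (.e (nat_lit 57407) (nat_lit 12) (.e (nat_lit 336370) (nat_lit 27) .nil))) .nil)) 
(.lf (nat_lit 181616) (.g (nat_lit 1537) (.e (nat_lit 57847) (nat_lit 252) (.e (nat_lit 57410) (nat_lit 12) (.e (nat_lit 336211) (nat_lit 13) (.e (nat_lit 393268) (nat_lit 23) (.e (nat_lit 426444) (nat_lit 19) (.e (nat_lit 106504) (nat_lit 9) (.e (nat_lit 1170) (nat_lit 87) .nil))))))) (.g (nat_lit 5) .nil .nil)))))) (.nd (nat_lit 4) (.nd (nat_lit 5) (.nd (nat_lit 6) 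
(.lf (nat_lit 181512) (.g (nat_lit 3034) (.e (nat_lit 57847) (nat_lit 252) (.e (nat_lit 57406) (nat_lit 12) (.e (nat_lit 336454) (nat_lit 34) (.e (nat_lit 483385) (nat_lit 23) (.e (nat_lit 336260) (nat_lit 15) .nil))))) .nil)) 
(.lf (nat_lit 181576) (.g (nat_lit 1810) (.e (nat_lit 57847) (nat_lit 252) (.e (nat_lit 57408) (nat_lit 12) (.e (nat_lit 336454) (nat_lit 34) (.e (nat_lit 483383) (nat_lit 23) (.e (nat_lit 336325) (nat_lit 18) .nil))))) .nil))) (.nd (nat_lit 6) 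
(.lf (nat_lit 181544) (.g (nat_lit 4026) (.e (nat_lit 57847) (nat_lit 252) (.e (nat_lit 57407) (nat_lit 12) (.e (nat_lit 336326) (nat_lit 18) (.e (nat_lit 204869) (nat_lit 29) (.e (nat_lit 360450) (nat_lit 0) (.e (nat_lit 7697) (nat_lit 412) (.e (nat_lit 57366) (nat_lit 1) .nil))))))) (.g (nat_lit 5) .nil .nil))) 
(.lf (nat_lit 181608) (.g (nat_lit 729) (.e (nat_lit 57847) (nat_lit 252) (.e (nat_lit 57409) (nat_lit 12) (.e (nat_lit 336456) (nat_lit 34) .nil))) .nil)))) (.nd (nat_lit 5) (.nd (nat_lit 6) 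
(.lf (nat_lit 181528) (.g (nat_lit 998) (.e (nat_lit 57847) (nat_lit 252) (.e (nat_lit 57407) (nat_lit 12) (.e (nat_lit 336135) (nat_lit 9) .nil))) .nil)) 
(.lf (nat_lit 181592) (.g (nat_lit 3446) (.e (nat_lit 57847) (nat_lit 252) (.e (nat_lit 57409) (nat_lit 12) (.e (nat_lit 336053) (nat_lit 7) (.e (nat_lit 319534) (nat_lit 16) (.e (nat_lit 286756) (nat_lit 10) (.e (nat_lit 344097) (nat_lit 18) (.e (nat_lit 5195) (nat_lit 294) (.e (nat_lit 57367) (nat_lit 1) .nil)))))))) (.g (nat_lit 5) .nil .nil)))) (.nd (nat_lit 6) 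
(.lf (nat_lit 181560) (.g (nat_lit 2422) (.e (nat_lit 57847) (nat_lit 252) (.e (nat_lit 57407) (nat_lit 12) (.e (nat_lit 336446) (nat_lit 33) (.e (nat_lit 475214) (nat_lit 42) (.e (nat_lit 720955) (nat_lit 25) (.e (nat_lit 114712) (nat_lit 21) (.e (nat_lit 57854) (nat_lit 252) (.e (nat_lit 57363) (nat_lit 1) .nil)))))))) (.g (nat_lit 4) .nil .nil))) 
(.lf (nat_lit 181624) (.g (nat_lit 2723) (.e (nat_lit 57847) (nat_lit 252) (.e (nat_lit 57411) (nat_lit 12) (.e (nat_lit 343808) (nat_lit 7) (.e (nat_lit 319533) (nat_lit 16) (.e (nat_lit 286753) (nat_lit 10) (.e (nat_lit 344097) (nat_lit 18) (.e (nat_lit 5195) (nat_lit 294) (.e (nat_lit 57363) (nat_lit 1) .nil)))))))) (.g (nat_lit 7) .nil .nil))))))) 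
(.nd (nat_lit 3) (.nd (nat_lit 4) (.nd (nat_lit 5) (.nd (nat_lit 6) 
(.lf (nat_lit 181508) (.g (nat_lit 1700) (.e (nat_lit 57847) (nat_lit 252) (.e (nat_lit 57404) (nat_lit 12) (.e (nat_lit 336060) (nat_lit 7) (.e (nat_lit 319534) (nat_lit 16) (.e (nat_lit 286749) (nat_lit 9) (.e (nat_lit 335997) (nat_lit 1) (.e (nat_lit 57848) (nat_lit 252) (.e (nat_lit 57367) (nat_lit 1) .nil)))))))) (.g (nat_lit 4) .nil .nil))) 
(.lf (nat_lit 181572) (.g (nat_lit 4093) (.e (nat_lit 57847) (nat_lit 252) (.e (nat_lit 57407) (nat_lit 12) (.e (nat_lit 336456) (nat_lit 34) (.e (nat_lit 483406) (nat_lit 26) (.e (nat_lit 385068) (nat_lit 26) (.e (nat_lit 532503) (nat_lit 1) .nil)))))) (.g (nat_lit 6) .nil .nil)))) (.nd (nat_lit 6) 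
(.lf (nat_lit 181540) (.g (nat_lit 2260) (.e (nat_lit 57847) (nat_lit 252) (.e (nat_lit 57407) (nat_lit 12) (.e (nat_lit 336324) (nat_lit 18) (.e (nat_lit 204868) (nat_lit 29) .nil)))) .nil)) 
(.lf (nat_lit 181604) (.g (nat_lit 2351) (.e (nat_lit 57847) (nat_lit 252) (.e (nat_lit 57409) (nat_lit 12) (.e (nat_lit 336454) (nat_lit 34) (.e (nat_lit 483385) (nat_lit 23) (.e (nat_lit 336270) (nat_lit 15) .nil))))) .nil)))) (.nd (nat_lit 5) (.nd (nat_lit 6) 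
(.lf (nat_lit 181524) (.g (nat_lit 672) (.e (nat_lit 57847) (nat_lit 252) (.e (nat_lit 57407) (nat_lit 12) (.e (nat_lit 336115) (nat_lit 9) .nil))) .nil)) 
(.lf (nat_lit 181588) (.g (nat_lit 604) (.e (nat_lit 57847) (nat_lit 252) (.e (nat_lit 57409) (nat_lit 12) (.e (nat_lit 336019) (nat_lit 3) .nil))) .nil))) (.nd (nat_lit 6) 
(.lf (nat_lit 181556) (.g (nat_lit 1953) (.e (nat_lit 57847) (nat_lit 252) (.e (nat_lit 57407) (nat_lit 12) (.e (nat_lit 336446) (nat_lit 33) (.e (nat_lit 475214) (nat_lit 42) (.e (nat_lit 720955) (nat_lit 25) .nil))))) .nil)) 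
(.lf (nat_lit 181620) (.g (nat_lit 2128) (.e (nat_lit 57847) (nat_lit 252) (.e (nat_lit 57410) (nat_lit 12) (.e (nat_lit 336369) (nat_lit 27) (.e (nat_lit 426499) (nat_lit 27) (.e (nat_lit 336196) (nat_lit 12) .nil))))) .nil))))) (.nd (nat_lit 4) (.nd (nat_lit 5) (.nd (nat_lit 6) 
(.lf (nat_lit 181516) (.g (nat_lit 3397) (.e (nat_lit 57847) (nat_lit 252) (.e (nat_lit 57406) (nat_lit 12) (.e (nat_lit 336454) (nat_lit 34) (.e (nat_lit 483405) (nat_lit 26) (.e (nat_lit 385065) (nat_lit 26) .nil))))) .nil)) 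
(.lf (nat_lit 181580) (.g (nat_lit 3982) (.e (nat_lit 57847) (nat_lit 252) (.e (nat_lit 57408) (nat_lit 12) (.e (nat_lit 336454) (nat_lit 34) (.e (nat_lit 483385) (nat_lit 23) (.e (nat_lit 336306) (nat_lit 15) .nil))))) .nil))) (.nd (nat_lit 6) 
(.lf (nat_lit 181548) (.g (nat_lit 2833) (.e (nat_lit 57847) (nat_lit 252) (.e (nat_lit 57407) (nat_lit 12) (.e (nat_lit 336360) (nat_lit 25) (.e (nat_lit 409649) (nat_lit 18) (.e (nat_lit 303140) (nat_lit 10) (.e (nat_lit 434209) (nat_lit 18) (.e (nat_lit 6391) (nat_lit 339) (.e (nat_lit 57363) (nat_lit 1) .nil)))))))) (.g (nat_lit 4) .nil .nil))) 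
(.lf (nat_lit 181612) (.g (nat_lit 1943) (.e (nat_lit 57847) (nat_lit 252) (.e (nat_lit 57410) (nat_lit 12) (.e (nat_lit 336211) (nat_lit 13) (.e (nat_lit 393268) (nat_lit 23) (.e (nat_lit 426361) (nat_lit 15) (.e (nat_lit 2203) (nat_lit 144) (.e (nat_lit 720933) (nat_lit 21) .nil))))))) (.g (nat_lit 4) .nil .nil))))) (.nd (nat_lit 5) (.nd (nat_lit 6) 
(.lf (nat_lit 181532) (.g (nat_lit 2559) (.e (nat_lit 57847) (nat_lit 252) (.e (nat_lit 57407) (nat_lit 12) (.e (nat_lit 336211) (nat_lit 13) (.e (nat_lit 393268) (nat_lit 23) (.e (nat_lit 433920) (nat_lit 20) .nil))))) .nil)) 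
(.lf (nat_lit 181596) (.g (nat_lit 1709) (.e (nat_lit 57847) (nat_lit 252) (.e (nat_lit 57409) (nat_lit 12) (.e (nat_lit 336211) (nat_lit 13) (.e (nat_lit 393268) (nat_lit 23) (.e (nat_lit 426361) (nat_lit 15) .nil))))) .nil))) (.nd (nat_lit 6) 
(.lf (nat_lit 181564) (.g (nat_lit 1886) (.e (nat_lit 57847) (nat_lit 252) (.e (nat_lit 57407) (nat_lit 12) (.e (nat_lit 336454) (nat_lit 34) (.e (nat_lit 483385) (nat_lit 23) (.e (nat_lit 336322) (nat_lit 18) .nil))))) .nil)) 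
(.lf (nat_lit 181628) (.g (nat_lit 828) (.e (nat_lit 57847) (nat_lit 252) (.e (nat_lit 57411) (nat_lit 12) (.e (nat_lit 336210) (nat_lit 13) .nil))) .nil))))))) (.nd (nat_lit 2) (.nd (nat_lit 3) (.nd (nat_lit 4) (.nd (nat_lit 5) (.nd (nat_lit 6) 
(.lf (nat_lit 181506) (.g (nat_lit 2732) (.e (nat_lit 57847) (nat_lit 252) (.e (nat_lit 57404) (nat_lit 12) (.e (nat_lit 336056) (nat_lit 7) (.e (nat_lit 319533) (nat_lit 16) (.e (nat_lit 286753) (nat_lit 10) (.e (nat_lit 344097) (nat_lit 18) (.e (nat_lit 5195) (nat_lit 294) (.e (nat_lit 57367) (nat_lit 1) .nil)))))))) (.g (nat_lit 5) .nil .nil))) 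
(.lf (nat_lit 181570) (.g (nat_lit 305) (.e (nat_lit 57847) (nat_lit 252) (.e (nat_lit 57407) (nat_lit 12) (.e (nat_lit 336456) (nat_lit 34) .nil))) .nil))) (.nd (nat_lit 6) 
(.lf (nat_lit 181538) (.g (nat_lit 895) (.e (nat_lit 57847) (nat_lit 252) (.e (nat_lit 57407) (nat_lit 12) (.e (nat_lit 336324) (nat_lit 18) .nil))) .nil)) 
(.lf (nat_lit 181602) (.g (nat_lit 2049) (.e (nat_lit 57847) (nat_lit 252) (.e (nat_lit 57409) (nat_lit 12) (.e (nat_lit 336414) (nat_lit 27) (.e (nat_lit 426503) (nat_lit 27) (.e (nat_lit 336196) (nat_lit 12) .nil))))) .nil)))) (.nd (nat_lit 5) (.nd (nat_lit 6) 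
(.lf (nat_lit 181522) (.g (nat_lit 3613) (.e (nat_lit 57847) (nat_lit 252) (.e (nat_lit 57407) (nat_lit 12) (.e (nat_lit 336019) (nat_lit 3) (.e (nat_lit 98342) (nat_lit 20) (.e (nat_lit 221220) (nat_lit 25) (.e (nat_lit 229120) (nat_lit 5) (.e (nat_lit 114710) (nat_lit 21) .nil))))))) (.g (nat_lit 4) .nil .nil))) 
(.lf (nat_lit 181586) (.g (nat_lit 2724) (.e (nat_lit 57847) (nat_lit 252) (.e (nat_lit 57408) (nat_lit 12) (.e (nat_lit 336454) (nat_lit 34) (.e (nat_lit 483407) (nat_lit 26) (.e (nat_lit 385067) (nat_lit 26) (.e (nat_lit 532499) (nat_lit 1) .nil)))))) (.g (nat_lit 6) .nil .nil)))) (.nd (nat_lit 6) 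
(.lf (nat_lit 181554) (.g (nat_lit 3113) (.e (nat_lit 57847) (nat_lit 252) (.e (nat_lit 57407) (nat_lit 12) (.e (nat_lit 336445) (nat_lit 33) (.e (nat_lit 475214) (nat_lit 42) (.e (nat_lit 720956) (nat_lit 25) (.e (nat_lit 114711) (nat_lit 21) (.e (nat_lit 57847) (nat_lit 252) (.e (nat_lit 57363) (nat_lit 1) .nil)))))))) (.g (nat_lit 4) .nil .nil))) 
(.lf (nat_lit 181618) (.g (nat_lit 1947) (.e (nat_lit 57847) (nat_lit 252) (.e (nat_lit 57410) (nat_lit 12) (.e (nat_lit 336211) (nat_lit 13) (.e (nat_lit 393291) (nat_lit 26) (.e (nat_lit 475214) (nat_lit 42) (.e (nat_lit 728832) (nat_lit 21) .nil)))))) (.g (nat_lit 5) .nil .nil)))))) (.nd (nat_lit 4) (.nd (nat_lit 5) (.nd (nat_lit 6) 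
(.lf (nat_lit 181514) (.g (nat_lit 3465) (.e (nat_lit 57847) (nat_lit 252) (.e (nat_lit 57406) (nat_lit 12) (.e (nat_lit 336454) (nat_lit 34) (.e (nat_lit 483404) (nat_lit 26) .nil)))) .nil)) 
(.lf (nat_lit 181578) (.g (nat_lit 3997) (.e (nat_lit 57847) (nat_lit 252) (.e (nat_lit 57408) (nat_lit 12) (.e (nat_lit 336454) (nat_lit 34) (.e (nat_lit 483385) (nat_lit 23) (.e (nat_lit 336260) (nat_lit 15) .nil))))) .nil))) (.nd (nat_lit 6) 
(.lf (nat_lit 181546) (.g (nat_lit 3883) (.e (nat_lit 57847) (nat_lit 252) (.e (nat_lit 57407) (nat_lit 12) (.e (nat_lit 336326) (nat_lit 18) (.e (nat_lit 204869) (nat_lit 29) (.e (nat_lit 360451) (nat_lit 0) (.e (nat_lit 7697) (nat_lit 412) (.e (nat_lit 57366) (nat_lit 1) .nil))))))) (.g (nat_lit 5) .nil .nil))) 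
(.lf (nat_lit 181610) (.g (nat_lit 1680) (.e (nat_lit 57847) (nat_lit 252) (.e (nat_lit 57409) (nat_lit 12) (.e (nat_lit 336456) (nat_lit 34) (.e (nat_lit 483406) (nat_lit 26) .nil)))) .nil)))) (.nd (nat_lit 5) (.nd (nat_lit 6) 
(.lf (nat_lit 181530) (.g (nat_lit 3759) (.e (nat_lit 57847) (nat_lit 252) (.e (nat_lit 57407) (nat_lit 12) (.e (nat_lit 336211) (nat_lit 13) (.e (nat_lit 393268) (nat_lit 23) (.e (nat_lit 426448) (nat_lit 20) (.e (nat_lit 114710) (nat_lit 21) .nil)))))) (.g (nat_lit 6) .nil .nil))) 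
(.lf (nat_lit 181594) (.g (nat_lit 389) (.e (nat_lit 57847) (nat_lit 252) (.e (nat_lit 57409) (nat_lit 12) (.e (nat_lit 336211) (nat_lit 13) .nil))) .nil))) (.nd (nat_lit 6) 
(.lf (nat_lit 181562) (.g (nat_lit 2026) (.e (nat_lit 57847) (nat_lit 252) (.e (nat_lit 57407) (nat_lit 12) (.e (nat_lit 336446) (nat_lit 33) (.e (nat_lit 475214) (nat_lit 42) (.e (nat_lit 720956) (nat_lit 25) (.e (nat_lit 114712) (nat_lit 21) (.e (nat_lit 57854) (nat_lit 252) (.e (nat_lit 57363) (nat_lit 1) .nil)))))))) (.g (nat_lit 4) .nil .nil))) 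
(.lf (nat_lit 181626) (.g (nat_lit 702) (.e (nat_lit 57847) (nat_lit 252) (.e (nat_lit 57411) (nat_lit 12) (.e (nat_lit 336208) (nat_lit 12) .nil))) .nil)))))) (.nd (nat_lit 3) (.nd (nat_lit 4) (.nd (nat_lit 5) (.nd (nat_lit 6) 
(.lf (nat_lit 181510) (.g (nat_lit 3837) (.e (nat_lit 57847) (nat_lit 252) (.e (nat_lit 57405) (nat_lit 12) (.e (nat_lit 336053) (nat_lit 7) (.e (nat_lit 319534) (nat_lit 16) (.e (nat_lit 286756) (nat_lit 10) (.e (nat_lit 344097) (nat_lit 18) (.e (nat_lit 5195) (nat_lit 294) (.e (nat_lit 57363) (nat_lit 1) .nil)))))))) (.g (nat_lit 7) .nil .nil))) 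
(.lf (nat_lit 181574) (.g (nat_lit 1469) (.e (nat_lit 57847) (nat_lit 252) (.e (nat_lit 57408) (nat_lit 12) (.e (nat_lit 336454) (nat_lit 34) (.e (nat_lit 483382) (nat_lit 23) .nil)))) .nil))) (.nd (nat_lit 6) 
(.lf (nat_lit 181542) (.g (nat_lit 2259) (.e (nat_lit 57847) (nat_lit 252) (.e (nat_lit 57407) (nat_lit 12) (.e (nat_lit 336326) (nat_lit 18) (.e (nat_lit 204868) (nat_lit 29) (.e (nat_lit 360449) (nat_lit 0) (.e (nat_lit 7695) (nat_lit 412) (.e (nat_lit 57367) (nat_lit 1) .nil))))))) (.g (nat_lit 4) .nil .nil))) 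
(.lf (nat_lit 181606) (.g (nat_lit 2269) (.e (nat_lit 57847) (nat_lit 252) (.e (nat_lit 57409) (nat_lit 12) (.e (nat_lit 336454) (nat_lit 34) (.e (nat_lit 483385) (nat_lit 23) (.e (nat_lit 336326) (nat_lit 18) .nil))))) .nil)))) (.nd (nat_lit 5) (.nd (nat_lit 6) 
(.lf (nat_lit 181526) (.g (nat_lit 880) (.e (nat_lit 57847) (nat_lit 252) (.e (nat_lit 57407) (nat_lit 12) (.e (nat_lit 336130) (nat_lit 9) .nil))) .nil)) 
(.lf (nat_lit 181590) (.g (nat_lit 3058) (.e (nat_lit 57847) (nat_lit 252) (.e (nat_lit 57409) (nat_lit 12) (.e (nat_lit 336053) (nat_lit 7) (.e (nat_lit 319533) (nat_lit 16) (.e (nat_lit 286753) (nat_lit 10) (.e (nat_lit 344097) (nat_lit 18) (.e (nat_lit 5195) (nat_lit 294) (.e (nat_lit 57367) (nat_lit 1) .nil)))))))) (.g (nat_lit 4) .nil .nil)))) (.nd (nat_lit 6) 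
(.lf (nat_lit 181558) (.g (nat_lit 2218) (.e (nat_lit 57847) (nat_lit 252) (.e (nat_lit 57407) (nat_lit 12) (.e (nat_lit 336446) (nat_lit 33) (.e (nat_lit 475214) (nat_lit 42) (.e (nat_lit 720955) (nat_lit 25) (.e (nat_lit 114712) (nat_lit 21) (.e (nat_lit 57852) (nat_lit 252) (.e (nat_lit 57363) (nat_lit 1) .nil)))))))) (.g (nat_lit 4) .nil .nil))) 
(.lf (nat_lit 181622) (.g (nat_lit 1581) (.e (nat_lit 57847) (nat_lit 252) (.e (nat_lit 57411) (nat_lit 12) (.e (nat_lit 336019) (nat_lit 3) (.e (nat_lit 98377) (nat_lit 30) .nil)))) .nil))))) (.nd (nat_lit 4) (.nd (nat_lit 5) (.nd (nat_lit 6) 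
(.lf (nat_lit 181518) (.g (nat_lit 2899) (.e (nat_lit 57847) (nat_lit 252) (.e (nat_lit 57406) (nat_lit 12) (.e (nat_lit 336454) (nat_lit 34) (.e (nat_lit 483406) (nat_lit 26) (.e (nat_lit 385066) (nat_lit 26) .nil))))) .nil)) 
(.lf (nat_lit 181582) (.g (nat_lit 2130) (.e (nat_lit 57847) (nat_lit 252) (.e (nat_lit 57408) (nat_lit 12) (.e (nat_lit 336454) (nat_lit 34) (.e (nat_lit 483404) (nat_lit 26) (.e (nat_lit 385067) (nat_lit 26) .nil))))) .nil))) (.nd (nat_lit 6) 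
(.lf (nat_lit 181550) (.g (nat_lit 998) (.e (nat_lit 57847) (nat_lit 252) (.e (nat_lit 57407) (nat_lit 12) (.e (nat_lit 336368) (nat_lit 27) .nil))) .nil)) 
(.lf (nat_lit 181614) (.g (nat_lit 1481) (.e (nat_lit 57847) (nat_lit 252) (.e (nat_lit 57410) (nat_lit 12) (.e (nat_lit 336211) (nat_lit 13) (.e (nat_lit 393268) (nat_lit 23) (.e (nat_lit 426440) (nat_lit 19) .nil))))) .nil)))) (.nd (nat_lit 5) (.nd (nat_lit 6) 
(.lf (nat_lit 181534) (.g (nat_lit 2199) (.e (nat_lit 57847) (nat_lit 252) (.e (nat_lit 57407) (nat_lit 12) (.e (nat_lit 336211) (nat_lit 13) (.e (nat_lit 393273) (nat_lit 23) (.e (nat_lit 426449) (nat_lit 20) .nil))))) .nil)) 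
(.lf (nat_lit 181598) (.g (nat_lit 1679) (.e (nat_lit 57847) (nat_lit 252) (.e (nat_lit 57409) (nat_lit 12) (.e (nat_lit 336211) (nat_lit 13) (.e (nat_lit 393273) (nat_lit 23) (.e (nat_lit 426364) (nat_lit 15) .nil))))) .nil))) (.nd (nat_lit 6) 
(.lf (nat_lit 181566) (.g (nat_lit 4546) (.e (nat_lit 57847) (nat_lit 252) (.e (nat_lit 57407) (nat_lit 12) (.e (nat_lit 336454) (nat_lit 34) (.e (nat_lit 483406) (nat_lit 26) (.e (nat_lit 385066) (nat_lit 26) (.e (nat_lit 532499) (nat_lit 1) .nil)))))) (.g (nat_lit 0) .nil .nil))) 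
(.lf (nat_lit 181630) (.g (nat_lit 433) (.e (nat_lit 57847) (nat_lit 252) (.e (nat_lit 57411) (nat_lit 12) (.e (nat_lit 336211) (nat_lit 13) .nil))) .nil)))))))) (.nd (nat_lit 1) (.nd (nat_lit 2) (.nd (nat_lit 3) (.nd (nat_lit 4) (.nd (nat_lit 5) (.nd (nat_lit 6) 
(.lf (nat_lit 181505) (.g (nat_lit 2797) (.e (nat_lit 57847) (nat_lit 252) (.e (nat_lit 57404) (nat_lit 12) (.e (nat_lit 336056) (nat_lit 7) (.e (nat_lit 319533) (nat_lit 16) (.e (nat_lit 286753) (nat_lit 10) (.e (nat_lit 344097) (nat_lit 18) (.e (nat_lit 5195) (nat_lit 294) (.e (nat_lit 57363) (nat_lit 1) .nil)))))))) (.g (nat_lit 5) .nil .nil))) 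
(.lf (nat_lit 181569) (.g (nat_lit 4230) (.e (nat_lit 57847) (nat_lit 252) (.e (nat_lit 57407) (nat_lit 12) (.e (nat_lit 336454) (nat_lit 34) (.e (nat_lit 483408) (nat_lit 26) (.e (nat_lit 385068) (nat_lit 26) (.e (nat_lit 532503) (nat_lit 1) .nil)))))) (.g (nat_lit 0) .nil .nil)))) (.nd (nat_lit 6) 
(.lf (nat_lit 181537) (.g (nat_lit 3120) (.e (nat_lit 57847) (nat_lit 252) (.e (nat_lit 57407) (nat_lit 12) (.e (nat_lit 336310) (nat_lit 16) (.e (nat_lit 164179) (nat_lit 154) (.e (nat_lit 57437) (nat_lit 17) (.e (nat_lit 376860) (nat_lit 21) (.e (nat_lit 57854) (nat_lit 252) (.e (nat_lit 57366) (nat_lit 1) .nil)))))))) (.g (nat_lit 4) .nil .nil))) 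
(.lf (nat_lit 181601) (.g (nat_lit 2600) (.e (nat_lit 57847) (nat_lit 252) (.e (nat_lit 57409) (nat_lit 12) (.e (nat_lit 336369) (nat_lit 27) (.e (nat_lit 426499) (nat_lit 27) (.e (nat_lit 336196) (nat_lit 12) .nil))))) .nil)))) (.nd (nat_lit 5) (.nd (nat_lit 6) 
(.lf (nat_lit 181521) (.g (nat_lit 1910) (.e (nat_lit 57847) (nat_lit 252) (.e (nat_lit 57406) (nat_lit 12) (.e (nat_lit 336456) (nat_lit 34) (.e (nat_lit 483383) (nat_lit 23) .nil)))) .nil)) 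
(.lf (nat_lit 181585) (.g (nat_lit 1141) (.e (nat_lit 57847) (nat_lit 252) (.e (nat_lit 57408) (nat_lit 12) (.e (nat_lit 336454) (nat_lit 34) (.e (nat_lit 483407) (nat_lit 26) .nil)))) .nil))) (.nd (nat_lit 6) 
(.lf (nat_lit 181553) (.g (nat_lit 998) (.e (nat_lit 57847) (nat_lit 252) (.e (nat_lit 57407) (nat_lit 12) (.e (nat_lit 336374) (nat_lit 27) .nil))) .nil)) 
(.lf (nat_lit 181617) (.g (nat_lit 1700) (.e (nat_lit 57847) (nat_lit 252) (.e (nat_lit 57410) (nat_lit 12) (.e (nat_lit 336211) (nat_lit 13) (.e (nat_lit 393291) (nat_lit 26) (.e (nat_lit 475201) (nat_lit 40) (.e (nat_lit 704620) (nat_lit 9) (.e (nat_lit 1178) (nat_lit 87) .nil))))))) (.g (nat_lit 4) .nil .nil)))))) (.nd (nat_lit 4) (.nd (nat_lit 5) (.nd (nat_lit 6) 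
(.lf (nat_lit 181513) (.g (nat_lit 2884) (.e (nat_lit 57847) (nat_lit 252) (.e (nat_lit 57406) (nat_lit 12) (.e (nat_lit 336454) (nat_lit 34) (.e (nat_lit 483402) (nat_lit 26) .nil)))) .nil)) 
(.lf (nat_lit 181577) (.g (nat_lit 2697) (.e (nat_lit 57847) (nat_lit 252) (.e (nat_lit 57408) (nat_lit 12) (.e (nat_lit 336454) (nat_lit 34) (.e (nat_lit 483385) (nat_lit 23) .nil)))) .nil))) (.nd (nat_lit 6) 
(.lf (nat_lit 181545) (.g (nat_lit 3985) (.e (nat_lit 57847) (nat_lit 252) (.e (nat_lit 57407) (nat_lit 12) (.e (nat_lit 336326) (nat_lit 18) (.e (nat_lit 204869) (nat_lit 29) (.e (nat_lit 360451) (nat_lit 0) (.e (nat_lit 7695) (nat_lit 412) (.e (nat_lit 57366) (nat_lit 1) .nil))))))) (.g (nat_lit 5) .nil .nil))) 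
(.lf (nat_lit 181609) (.g (nat_lit 1704) (.e (nat_lit 57847) (nat_lit 252) (.e (nat_lit 57409) (nat_lit 12) (.e (nat_lit 336456) (nat_lit 34) (.e (nat_lit 483403) (nat_lit 26) .nil)))) .nil)))) (.nd (nat_lit 5) (.nd (nat_lit 6) 
(.lf (nat_lit 181529) (.g (nat_lit 998) (.e (nat_lit 57847) (nat_lit 252) (.e (nat_lit 57407) (nat_lit 12) (.e (nat_lit 336136) (nat_lit 9) .nil))) .nil)) 
(.lf (nat_lit 181593) (.g (nat_lit 704) (.e (nat_lit 57847) (nat_lit 252) (.e (nat_lit 57409) (nat_lit 12) (.e (nat_lit 336210) (nat_lit 13) .nil))) .nil))) (.nd (nat_lit 6) 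
(.lf (nat_lit 181561) (.g (nat_lit 3737) (.e (nat_lit 57847) (nat_lit 252) (.e (nat_lit 57407) (nat_lit 12) (.e (nat_lit 336446) (nat_lit 33) (.e (nat_lit 475214) (nat_lit 42) (.e (nat_lit 720956) (nat_lit 25) (.e (nat_lit 114711) (nat_lit 21) (.e (nat_lit 57847) (nat_lit 252) (.e (nat_lit 57363) (nat_lit 1) .nil)))))))) (.g (nat_lit 7) .nil .nil))) 
(.lf (nat_lit 181625) (.g (nat_lit 518) (.e (nat_lit 57847) (nat_lit 252) (.e (nat_lit 57411) (nat_lit 12) (.e (nat_lit 336115) (nat_lit 9) .nil))) .nil)))))) (.nd (nat_lit 3) (.nd (nat_lit 4) (.nd (nat_lit 5) (.nd (nat_lit 6) 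
(.lf (nat_lit 181509) (.g (nat_lit 1957) (.e (nat_lit 57847) (nat_lit 252) (.e (nat_lit 57404) (nat_lit 12) (.e (nat_lit 336060) (nat_lit 7) (.e (nat_lit 319534) (nat_lit 16) (.e (nat_lit 286756) (nat_lit 10) (.e (nat_lit 344097) (nat_lit 18) (.e (nat_lit 5194) (nat_lit 294) (.e (nat_lit 57367) (nat_lit 1) .nil)))))))) (.g (nat_lit 4) .nil .nil))) 
(.lf (nat_lit 181573) (.g (nat_lit 2175) (.e (nat_lit 57847) (nat_lit 252) (.e (nat_lit 57408) (nat_lit 12) (.e (nat_lit 336454) (nat_lit 34) (.e (nat_lit 483345) (nat_lit 17) (.e (nat_lit 6506) (nat_lit 344) .nil))))) .nil))) (.nd (nat_lit 6) 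
(.lf (nat_lit 181541) (.g (nat_lit 2466) (.e (nat_lit 57847) (nat_lit 252) (.e (nat_lit 57407) (nat_lit 12) (.e (nat_lit 336326) (nat_lit 18) (.e (nat_lit 204854) (nat_lit 26) (.e (nat_lit 336314) (nat_lit 16) (.e (nat_lit 164178) (nat_lit 154) (.e (nat_lit 57390) (nat_lit 5) (.e (nat_lit 114711) (nat_lit 21) .nil)))))))) (.g (nat_lit 4) .nil .nil))) 
(.lf (nat_lit 181605) (.g (nat_lit 2231) (.e (nat_lit 57847) (nat_lit 252) (.e (nat_lit 57409) (nat_lit 12) (.e (nat_lit 336454) (nat_lit 34) (.e (nat_lit 483385) (nat_lit 23) (.e (nat_lit 336322) (nat_lit 18) .nil))))) .nil)))) (.nd (nat_lit 5) (.nd (nat_lit 6) 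
(.lf (nat_lit 181525) (.g (nat_lit 1011) (.e (nat_lit 57847) (nat_lit 252) (.e (nat_lit 57407) (nat_lit 12) (.e (nat_lit 336120) (nat_lit 9) .nil))) .nil)) 
(.lf (nat_lit 181589) (.g (nat_lit 2997) (.e (nat_lit 57847) (nat_lit 252) (.e (nat_lit 57409) (nat_lit 12) (.e (nat_lit 336053) (nat_lit 7) (.e (nat_lit 319533) (nat_lit 16) (.e (nat_lit 286753) (nat_lit 10) (.e (nat_lit 344097) (nat_lit 18) (.e (nat_lit 5195) (nat_lit 294) (.e (nat_lit 57363) (nat_lit 1) .nil)))))))) (.g (nat_lit 4) .nil .nil)))) (.nd (nat_lit 6) 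
(.lf (nat_lit 181557) (.g (nat_lit 2640) (.e (nat_lit 57847) (nat_lit 252) (.e (nat_lit 57407) (nat_lit 12) (.e (nat_lit 336446) (nat_lit 33) (.e (nat_lit 475214) (nat_lit 42) (.e (nat_lit 720955) (nat_lit 25) (.e (nat_lit 114711) (nat_lit 21) (.e (nat_lit 57847) (nat_lit 252) (.e (nat_lit 57363) (nat_lit 1) .nil)))))))) (.g (nat_lit 4) .nil .nil))) 
(.lf (nat_lit 181621) (.g (nat_lit 621) (.e (nat_lit 57847) (nat_lit 252) (.e (nat_lit 57411) (nat_lit 12) (.e (nat_lit 336019) (nat_lit 3) .nil))) .nil))))) (.nd (nat_lit 4) (.nd (nat_lit 5) (.nd (nat_lit 6) 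
(.lf (nat_lit 181517) (.g (nat_lit 3484) (.e (nat_lit 57847) (nat_lit 252) (.e (nat_lit 57406) (nat_lit 12) (.e (nat_lit 336454) (nat_lit 34) (.e (nat_lit 483406) (nat_lit 26) (.e (nat_lit 385065) (nat_lit 26) .nil))))) .nil)) 
(.lf (nat_lit 181581) (.g (nat_lit 3007) (.e (nat_lit 57847) (nat_lit 252) (.e (nat_lit 57408) (nat_lit 12) (.e (nat_lit 336454) (nat_lit 34) (.e (nat_lit 483403) (nat_lit 26) (.e (nat_lit 385067) (nat_lit 26) (.e (nat_lit 532499) (nat_lit 1) .nil)))))) (.g (nat_lit 6) .nil .nil)))) (.nd (nat_lit 6) 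
(.lf (nat_lit 181549) (.g (nat_lit 3122) (.e (nat_lit 57847) (nat_lit 252) (.e (nat_lit 57407) (nat_lit 12) (.e (nat_lit 336360) (nat_lit 25) (.e (nat_lit 409649) (nat_lit 18) (.e (nat_lit 303140) (nat_lit 10) (.e (nat_lit 434209) (nat_lit 18) (.e (nat_lit 6391) (nat_lit 339) (.e (nat_lit 57367) (nat_lit 1) .nil)))))))) (.g (nat_lit 5) .nil .nil))) 
(.lf (nat_lit 181613) (.g (nat_lit 1573) (.e (nat_lit 57847) (nat_lit 252) (.e (nat_lit 57410) (nat_lit 12) (.e (nat_lit 336211) (nat_lit 13) (.e (nat_lit 393268) (nat_lit 23) (.e (nat_lit 426361) (nat_lit 15) (.e (nat_lit 2206) (nat_lit 144) (.e (nat_lit 720932) (nat_lit 21) .nil))))))) (.g (nat_lit 4) .nil .nil))))) (.nd (nat_lit 5) (.nd (nat_lit 6) 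
(.lf (nat_lit 181533) (.g (nat_lit 3505) (.e (nat_lit 57847) (nat_lit 252) (.e (nat_lit 57407) (nat_lit 12) (.e (nat_lit 336211) (nat_lit 13) (.e (nat_lit 393271) (nat_lit 23) (.e (nat_lit 426446) (nat_lit 20) (.e (nat_lit 114710) (nat_lit 21) .nil)))))) (.g (nat_lit 5) .nil .nil))) 
(.lf (nat_lit 181597) (.g (nat_lit 2169) (.e (nat_lit 57847) (nat_lit 252) (.e (nat_lit 57409) (nat_lit 12) (.e (nat_lit 336211) (nat_lit 13) (.e (nat_lit 393268) (nat_lit 23) (.e (nat_lit 433920) (nat_lit 20) .nil))))) .nil))) (.nd (nat_lit 6) 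
(.lf (nat_lit 181565) (.g (nat_lit 2033) (.e (nat_lit 57847) (nat_lit 252) (.e (nat_lit 57407) (nat_lit 12) (.e (nat_lit 336454) (nat_lit 34) (.e (nat_lit 483404) (nat_lit 26) .nil)))) .nil)) 
(.lf (nat_lit 181629) (.g (nat_lit 1283) (.e (nat_lit 57847) (nat_lit 252) (.e (nat_lit 57411) (nat_lit 12) (.e (nat_lit 336210) (nat_lit 13) (.e (nat_lit 393267) (nat_lit 23) .nil)))) .nil))))))) (.nd (nat_lit 2) (.nd (nat_lit 3) (.nd (nat_lit 4) (.nd (nat_lit 5) (.nd (nat_lit 6) 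
(.lf (nat_lit 181507) (.g (nat_lit 1637) (.e (nat_lit 57847) (nat_lit 252) (.e (nat_lit 57404) (nat_lit 12) (.e (nat_lit 336060) (nat_lit 7) (.e (nat_lit 319533) (nat_lit 16) (.e (nat_lit 286753) (nat_lit 10) (.e (nat_lit 344097) (nat_lit 18) (.e (nat_lit 5194) (nat_lit 294) (.e (nat_lit 57367) (nat_lit 1) .nil)))))))) (.g (nat_lit 4) .nil .nil))) 
(.lf (nat_lit 181571) (.g (nat_lit 2135) (.e (nat_lit 57847) (nat_lit 252) (.e (nat_lit 57407) (nat_lit 12) (.e (nat_lit 336456) (nat_lit 34) (.e (nat_lit 483346) (nat_lit 17) (.e (nat_lit 6435) (nat_lit 343) .nil))))) .nil))) (.nd (nat_lit 6) 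
(.lf (nat_lit 181539) (.g (nat_lit 3062) (.e (nat_lit 57847) (nat_lit 252) (.e (nat_lit 57407) (nat_lit 12) (.e (nat_lit 336324) (nat_lit 18) (.e (nat_lit 204854) (nat_lit 26) (.e (nat_lit 336310) (nat_lit 16) .nil))))) .nil)) 
(.lf (nat_lit 181603) (.g (nat_lit 1418) (.e (nat_lit 57847) (nat_lit 252) (.e (nat_lit 57409) (nat_lit 12) (.e (nat_lit 336454) (nat_lit 34) (.e (nat_lit 483384) (nat_lit 23) .nil)))) .nil)))) (.nd (nat_lit 5) (.nd (nat_lit 6) 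
(.lf (nat_lit 181523) (.g (nat_lit 3792) (.e (nat_lit 57847) (nat_lit 252) (.e (nat_lit 57407) (nat_lit 12) (.e (nat_lit 336019) (nat_lit 3) (.e (nat_lit 98342) (nat_lit 20) (.e (nat_lit 221220) (nat_lit 25) (.e (nat_lit 229120) (nat_lit 5) (.e (nat_lit 114711) (nat_lit 21) .nil))))))) (.g (nat_lit 4) .nil .nil))) 
(.lf (nat_lit 181587) (.g (nat_lit 3907) (.e (nat_lit 57847) (nat_lit 252) (.e (nat_lit 57408) (nat_lit 12) (.e (nat_lit 336454) (nat_lit 34) (.e (nat_lit 483408) (nat_lit 26) (.e (nat_lit 385067) (nat_lit 26) (.e (nat_lit 532499) (nat_lit 1) .nil)))))) (.g (nat_lit 6) .nil .nil)))) (.nd (nat_lit 6) 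
(.lf (nat_lit 181555) (.g (nat_lit 2347) (.e (nat_lit 57847) (nat_lit 252) (.e (nat_lit 57407) (nat_lit 12) (.e (nat_lit 336446) (nat_lit 33) (.e (nat_lit 475212) (nat_lit 42) (.e (nat_lit 720956) (nat_lit 25) (.e (nat_lit 114711) (nat_lit 21) (.e (nat_lit 57847) (nat_lit 252) (.e (nat_lit 57367) (nat_lit 1) .nil)))))))) (.g (nat_lit 4) .nil .nil))) 
(.lf (nat_lit 181619) (.g (nat_lit 1736) (.e (nat_lit 57847) (nat_lit 252) (.e (nat_lit 57410) (nat_lit 12) (.e (nat_lit 336211) (nat_lit 13) (.e (nat_lit 393291) (nat_lit 26) (.e (nat_lit 483072) (nat_lit 42) (.e (nat_lit 720933) (nat_lit 21) .nil)))))) (.g (nat_lit 4) .nil .nil)))))) (.nd (nat_lit 4) (.nd (nat_lit 5) (.nd (nat_lit 6) 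
(.lf (nat_lit 181515) (.g (nat_lit 2677) (.e (nat_lit 57847) (nat_lit 252) (.e (nat_lit 57406) (nat_lit 12) (.e (nat_lit 336454) (nat_lit 34) (.e (nat_lit 483405) (nat_lit 26) .nil)))) .nil)) 
(.lf (nat_lit 181579) (.g (nat_lit 4102) (.e (nat_lit 57847) (nat_lit 252) (.e (nat_lit 57408) (nat_lit 12) (.e (nat_lit 336454) (nat_lit 34) (.e (nat_lit 483385) (nat_lit 23) (.e (nat_lit 336284) (nat_lit 15) .nil))))) .nil))) (.nd (nat_lit 6) 
(.lf (nat_lit 181547) (.g (nat_lit 2784) (.e (nat_lit 57847) (nat_lit 252) (.e (nat_lit 57407) (nat_lit 12) (.e (nat_lit 336360) (nat_lit 25) (.e (nat_lit 409649) (nat_lit 18) (.e (nat_lit 303132) (nat_lit 9) (.e (nat_lit 426109) (nat_lit 1) (.e (nat_lit 164182) (nat_lit 154) (.e (nat_lit 57367) (nat_lit 1) .nil)))))))) (.g (nat_lit 4) .nil .nil))) 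
(.lf (nat_lit 181611) (.g (nat_lit 1759) (.e (nat_lit 57847) (nat_lit 252) (.e (nat_lit 57410) (nat_lit 12) (.e (nat_lit 336211) (nat_lit 13) (.e (nat_lit 393268) (nat_lit 23) (.e (nat_lit 426361) (nat_lit 15) (.e (nat_lit 2195) (nat_lit 144) (.e (nat_lit 720932) (nat_lit 21) .nil))))))) (.g (nat_lit 4) .nil .nil))))) (.nd (nat_lit 5) (.nd (nat_lit 6) 
(.lf (nat_lit 181531) (.g (nat_lit 1994) (.e (nat_lit 57847) (nat_lit 252) (.e (nat_lit 57407) (nat_lit 12) (.e (nat_lit 336211) (nat_lit 13) (.e (nat_lit 393268) (nat_lit 23) (.e (nat_lit 426449) (nat_lit 20) .nil))))) .nil)) 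
(.lf (nat_lit 181595) (.g (nat_lit 1098) (.e (nat_lit 57847) (nat_lit 252) (.e (nat_lit 57409) (nat_lit 12) (.e (nat_lit 336211) (nat_lit 13) (.e (nat_lit 393266) (nat_lit 23) .nil)))) .nil))) (.nd (nat_lit 6) 
(.lf (nat_lit 181563) (.g (nat_lit 397) (.e (nat_lit 57847) (nat_lit 252) (.e (nat_lit 57407) (nat_lit 12) (.e (nat_lit 336454) (nat_lit 34) .nil))) .nil)) 
(.lf (nat_lit 181627) (.g (nat_lit 1667) (.e (nat_lit 57847) (nat_lit 252) (.e (nat_lit 57411) (nat_lit 12) (.e (nat_lit 336208) (nat_lit 12) (.e (nat_lit 385107) (nat_lit 51) .nil)))) .nil)))))) (.nd (nat_lit 3) (.nd (nat_lit 4) (.nd (nat_lit 5) (.nd (nat_lit 6) 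
(.lf (nat_lit 181511) (.g (nat_lit 3089) (.e (nat_lit 57847) (nat_lit 252) (.e (nat_lit 57406) (nat_lit 12) (.e (nat_lit 336454) (nat_lit 34) (.e (nat_lit 483382) (nat_lit 23) (.e (nat_lit 336324) (nat_lit 18) .nil))))) .nil)) 
(.lf (nat_lit 181575) (.g (nat_lit 1809) (.e (nat_lit 57847) (nat_lit 252) (.e (nat_lit 57408) (nat_lit 12) (.e (nat_lit 336454) (nat_lit 34) (.e (nat_lit 483383) (nat_lit 23) (.e (nat_lit 336247) (nat_lit 15) .nil))))) .nil))) (.nd (nat_lit 6) 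
(.lf (nat_lit 181543) (.g (nat_lit 4080) (.e (nat_lit 57847) (nat_lit 252) (.e (nat_lit 57407) (nat_lit 12) (.e (nat_lit 336326) (nat_lit 18) (.e (nat_lit 204869) (nat_lit 29) (.e (nat_lit 360450) (nat_lit 0) (.e (nat_lit 7695) (nat_lit 412) (.e (nat_lit 57366) (nat_lit 1) .nil))))))) (.g (nat_lit 5) .nil .nil))) 
(.lf (nat_lit 181607) (.g (nat_lit 2105) (.e (nat_lit 57847) (nat_lit 252) (.e (nat_lit 57409) (nat_lit 12) (.e (nat_lit 336454) (nat_lit 34) (.e (nat_lit 483408) (nat_lit 26) (.e (nat_lit 385066) (nat_lit 26) .nil))))) .nil)))) (.nd (nat_lit 5) (.nd (nat_lit 6) 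
(.lf (nat_lit 181527) (.g (nat_lit 998) (.e (nat_lit 57847) (nat_lit 252) (.e (nat_lit 57407) (nat_lit 12) (.e (nat_lit 336134) (nat_lit 9) .nil))) .nil)) 
(.lf (nat_lit 181591) (.g (nat_lit 3338) (.e (nat_lit 57847) (nat_lit 252) (.e (nat_lit 57409) (nat_lit 12) (.e (nat_lit 336053) (nat_lit 7) (.e (nat_lit 319534) (nat_lit 16) (.e (nat_lit 286756) (nat_lit 10) (.e (nat_lit 344097) (nat_lit 18) (.e (nat_lit 5195) (nat_lit 294) (.e (nat_lit 57363) (nat_lit 1) .nil)))))))) (.g (nat_lit 5) .nil .nil)))) (.nd (nat_lit 6) 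
(.lf (nat_lit 181559) (.g (nat_lit 2195) (.e (nat_lit 57847) (nat_lit 252) (.e (nat_lit 57407) (nat_lit 12) (.e (nat_lit 336446) (nat_lit 33) (.e (nat_lit 475214) (nat_lit 42) (.e (nat_lit 720955) (nat_lit 25) (.e (nat_lit 114712) (nat_lit 21) (.e (nat_lit 57853) (nat_lit 252) (.e (nat_lit 57363) (nat_lit 1) .nil)))))))) (.g (nat_lit 4) .nil .nil))) 
(.lf (nat_lit 181623) (.g (nat_lit 2549) (.e (nat_lit 57847) (nat_lit 252) (.e (nat_lit 57411) (nat_lit 12) (.e (nat_lit 336019) (nat_lit 3) (.e (nat_lit 98384) (nat_lit 32) (.e (nat_lit 475163) (nat_lit 21) .nil))))) .nil))))) (.nd (nat_lit 4) (.nd (nat_lit 5) (.nd (nat_lit 6) 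
(.lf (nat_lit 181519) (.g (nat_lit 2831) (.e (nat_lit 57847) (nat_lit 252) (.e (nat_lit 57406) (nat_lit 12) (.e (nat_lit 336454) (nat_lit 34) (.e (nat_lit 483406) (nat_lit 26) (.e (nat_lit 385068) (nat_lit 26) .nil))))) .nil)) 
(.lf (nat_lit 181583) (.g (nat_lit 1414) (.e (nat_lit 57847) (nat_lit 252) (.e (nat_lit 57408) (nat_lit 12) (.e (nat_lit 336454) (nat_lit 34) (.e (nat_lit 483405) (nat_lit 26) .nil)))) .nil))) (.nd (nat_lit 6) 
(.lf (nat_lit 181551) (.g (nat_lit 998) (.e (nat_lit 57847) (nat_lit 252) (.e (nat_lit 57407) (nat_lit 12) (.e (nat_lit 336369) (nat_lit 27) .nil))) .nil)) 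
(.lf (nat_lit 181615) (.g (nat_lit 2428) (.e (nat_lit 57847) (nat_lit 252) (.e (nat_lit 57410) (nat_lit 12) (.e (nat_lit 336211) (nat_lit 13) (.e (nat_lit 393268) (nat_lit 23) (.e (nat_lit 426440) (nat_lit 19) (.e (nat_lit 106526) (nat_lit 9) (.e (nat_lit 1170) (nat_lit 87) .nil))))))) (.g (nat_lit 5) .nil .nil))))) (.nd (nat_lit 5) (.nd (nat_lit 6) 
(.lf (nat_lit 181535) (.g (nat_lit 1751) (.e (nat_lit 57847) (nat_lit 252) (.e (nat_lit 57407) (nat_lit 12) (.e (nat_lit 336211) (nat_lit 13) (.e (nat_lit 393275) (nat_lit 23) (.e (nat_lit 433920) (nat_lit 20) .nil))))) .nil)) 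
(.lf (nat_lit 181599) (.g (nat_lit 1096) (.e (nat_lit 57847) (nat_lit 252) (.e (nat_lit 57409) (nat_lit 12) (.e (nat_lit 336211) (nat_lit 13) (.e (nat_lit 393275) (nat_lit 23) .nil)))) .nil))) (.nd (nat_lit 6) 
(.lf (nat_lit 181567) (.g (nat_lit 3722) (.e (nat_lit 57847) (nat_lit 252) (.e (nat_lit 57407) (nat_lit 12) (.e (nat_lit 336454) (nat_lit 34) (.e (nat_lit 483407) (nat_lit 26) (.e (nat_lit 385068) (nat_lit 26) (.e (nat_lit 532503) (nat_lit 1) .nil)))))) (.g (nat_lit 6) .nil .nil))) 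
(.lf (nat_lit 181631) (.g (nat_lit 1164) (.e (nat_lit 57847) (nat_lit 252) (.e (nat_lit 57411) (nat_lit 12) (.e (nat_lit 336211) (nat_lit 13) (.e (nat_lit 393266) (nat_lit 23) .nil)))) .nil)))))))))

noncomputable def tv2430 : DT := (.nd (nat_lit 0) (.nd (nat_lit 1) (.nd (nat_lit 2) (.nd (nat_lit 3) (.nd (nat_lit 4) (.nd (nat_lit 5) (.nd (nat_lit 6) 
(.lf (nat_lit 181632) (.g (nat_lit 2049) (.e (nat_lit 57847) (nat_lit 252) (.e (nat_lit 57411) (nat_lit 12) (.e (nat_lit 336211) (nat_lit 13) (.e (nat_lit 393268) (nat_lit 23) (.e (nat_lit 426361) (nat_lit 15) (.e (nat_lit 2195) (nat_lit 144) (.e (nat_lit 720932) (nat_lit 21) .nil))))))) (.g (nat_lit 4) .nil .nil))) 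
(.lf (nat_lit 181696) (.g (nat_lit 3867) (.e (nat_lit 57847) (nat_lit 252) (.e (nat_lit 57412) (nat_lit 12) (.e (nat_lit 336061) (nat_lit 7) (.e (nat_lit 319531) (nat_lit 16) (.e (nat_lit 286756) (nat_lit 10) (.e (nat_lit 344097) (nat_lit 18) (.e (nat_lit 5195) (nat_lit 294) (.e (nat_lit 57363) (nat_lit 1) .nil)))))))) (.g (nat_lit 5) .nil .nil)))) (.nd (nat_lit 6) 
(.lf (nat_lit 181664) (.g (nat_lit 1531) (.e (nat_lit 57847) (nat_lit 252) (.e (nat_lit 57411) (nat_lit 12) (.e (nat_lit 336414) (nat_lit 27) (.e (nat_lit 426503) (nat_lit 27) .nil)))) .nil)) 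
(.lf (nat_lit 181728) (.g (nat_lit 3106) (.e (nat_lit 57847) (nat_lit 252) (.e (nat_lit 57421) (nat_lit 13) (.e (nat_lit 344133) (nat_lit 26) (.e (nat_lit 557098) (nat_lit 13) (.e (nat_lit 172061) (nat_lit 1) (.e (nat_lit 164319) (nat_lit 228) (.e (nat_lit 57389) (nat_lit 5) (.e (nat_lit 114711) (nat_lit 21) .nil)))))))) (.g (nat_lit 4) .nil .nil))))) (.nd (nat_lit 5) (.nd (nat_lit 6) 
(.lf (nat_lit 181648) (.g (nat_lit 1926) (.e (nat_lit 57847) (nat_lit 252) (.e (nat_lit 57411) (nat_lit 12) (.e (nat_lit 336211) (nat_lit 13) (.e (nat_lit 393291) (nat_lit 26) (.e (nat_lit 475206) (nat_lit 40) .nil))))) .nil)) 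
(.lf (nat_lit 181712) (.g (nat_lit 1744) (.e (nat_lit 57847) (nat_lit 252) (.e (nat_lit 57414) (nat_lit 12) (.e (nat_lit 336060) (nat_lit 7) (.e (nat_lit 319534) (nat_lit 16) (.e (nat_lit 286749) (nat_lit 9) (.e (nat_lit 335997) (nat_lit 1) (.e (nat_lit 57848) (nat_lit 252) (.e (nat_lit 57367) (nat_lit 1) .nil)))))))) (.g (nat_lit 4) .nil .nil)))) (.nd (nat_lit 6) 
(.lf (nat_lit 181680) (.g (nat_lit 3770) (.e (nat_lit 57847) (nat_lit 252) (.e (nat_lit 57411) (nat_lit 12) (.e (nat_lit 336454) (nat_lit 34) (.e (nat_lit 483408) (nat_lit 26) (.e (nat_lit 385068) (nat_lit 26) (.e (nat_lit 532503) (nat_lit 1) .nil)))))) (.g (nat_lit 0) .nil .nil))) 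
(.lf (nat_lit 181744) (.g (nat_lit 1573) (.e (nat_lit 57847) (nat_lit 252) (.e (nat_lit 57430) (nat_lit 16) (.e (nat_lit 368676) (nat_lit 21) (.e (nat_lit 516174) (nat_lit 14) (.e (nat_lit 466947) (nat_lit 0) (.e (nat_lit 1800) (nat_lit 119) (.e (nat_lit 524032) (nat_lit 18) .nil))))))) (.g (nat_lit 4) .nil .nil)))))) (.nd (nat_lit 4) (.nd (nat_lit 5) (.nd (nat_lit 6) 
(.lf (nat_lit 181640) (.g (nat_lit 1575) (.e (nat_lit 57847) (nat_lit 252) (.e (nat_lit 57411) (nat_lit 12) (.e (nat_lit 336211) (nat_lit 13) (.e (nat_lit 393271) (nat_lit 23) (.e (nat_lit 426354) (nat_lit 15) .nil))))) .nil)) 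
(.lf (nat_lit 181704) (.g (nat_lit 2856) (.e (nat_lit 57847) (nat_lit 252) (.e (nat_lit 57413) (nat_lit 12) (.e (nat_lit 336055) (nat_lit 7) (.e (nat_lit 319534) (nat_lit 16) (.e (nat_lit 286756) (nat_lit 10) (.e (nat_lit 344097) (nat_lit 18) (.e (nat_lit 5195) (nat_lit 294) (.e (nat_lit 57363) (nat_lit 1) .nil)))))))) (.g (nat_lit 5) .nil .nil)))) (.nd (nat_lit 6) 
(.lf (nat_lit 181672) (.g (nat_lit 2182) (.e (nat_lit 57847) (nat_lit 252) (.e (nat_lit 57411) (nat_lit 12) (.e (nat_lit 336448) (nat_lit 33) (.e (nat_lit 475214) (nat_lit 42) (.e (nat_lit 720956) (nat_lit 25) (.e (nat_lit 114711) (nat_lit 21) (.e (nat_lit 57847) (nat_lit 252) (.e (nat_lit 57363) (nat_lit 1) .nil)))))))) (.g (nat_lit 4) .nil .nil))) 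
(.lf (nat_lit 181736) (.g (nat_lit 1791) (.e (nat_lit 57847) (nat_lit 252) (.e (nat_lit 57424) (nat_lit 14) (.e (nat_lit 352277) (nat_lit 11) (.e (nat_lit 426189) (nat_lit 9) (.e (nat_lit 426446) (nat_lit 20) .nil))))) .nil)))) (.nd (nat_lit 5) (.nd (nat_lit 6) 
(.lf (nat_lit 181656) (.g (nat_lit 2186) (.e (nat_lit 57847) (nat_lit 252) (.e (nat_lit 57411) (nat_lit 12) (.e (nat_lit 336368) (nat_lit 27) (.e (nat_lit 426499) (nat_lit 27) (.e (nat_lit 336196) (nat_lit 12) .nil))))) .nil)) 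
(.lf (nat_lit 181720) (.g (nat_lit 1578) (.e (nat_lit 57847) (nat_lit 252) (.e (nat_lit 57418) (nat_lit 12) (.e (nat_lit 336213) (nat_lit 13) (.e (nat_lit 393267) (nat_lit 23) .nil)))) .nil))) (.nd (nat_lit 6) 
(.lf (nat_lit 181688) (.g (nat_lit 3087) (.e (nat_lit 57847) (nat_lit 252) (.e (nat_lit 57412) (nat_lit 12) (.e (nat_lit 336054) (nat_lit 7) (.e (nat_lit 319534) (nat_lit 16) (.e (nat_lit 286756) (nat_lit 10) (.e (nat_lit 344097) (nat_lit 18) (.e (nat_lit 5195) (nat_lit 294) (.e (nat_lit 57363) (nat_lit 1) .nil)))))))) (.g (nat_lit 5) .nil .nil))) 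
(.lf (nat_lit 181752) (.g (nat_lit 1638) (.e (nat_lit 57847) (nat_lit 252) (.e (nat_lit 57432) (nat_lit 16) (.e (nat_lit 368676) (nat_lit 21) (.e (nat_lit 516131) (nat_lit 3) (.e (nat_lit 221219) (nat_lit 24) (.e (nat_lit 213006) (nat_lit 9) (.e (nat_lit 122) (nat_lit 5) (.e (nat_lit 114710) (nat_lit 21) .nil)))))))) (.g (nat_lit 4) .nil .nil))))))) 
(.nd (nat_lit 3) (.nd (nat_lit 4) (.nd (nat_lit 5) (.nd (nat_lit 6) 
(.lf (nat_lit 181636) (.g (nat_lit 2066) (.e (nat_lit 57847) (nat_lit 252) (.e (nat_lit 57411) (nat_lit 12) (.e (nat_lit 336211) (nat_lit 13) (.e (nat_lit 393268) (nat_lit 23) (.e (nat_lit 426440) (nat_lit 19) (.e (nat_lit 106515) (nat_lit 9) (.e (nat_lit 1170) (nat_lit 87) .nil))))))) (.g (nat_lit 4) .nil .nil))) 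
(.lf (nat_lit 181700) (.g (nat_lit 3832) (.e (nat_lit 57847) (nat_lit 252) (.e (nat_lit 57412) (nat_lit 12) (.e (nat_lit 336061) (nat_lit 7) (.e (nat_lit 319533) (nat_lit 16) (.e (nat_lit 286753) (nat_lit 10) (.e (nat_lit 344097) (nat_lit 18) (.e (nat_lit 5195) (nat_lit 294) (.e (nat_lit 57367) (nat_lit 1) .nil)))))))) (.g (nat_lit 5) .nil .nil)))) (.nd (nat_lit 6) 
(.lf (nat_lit 181668) (.g (nat_lit 2761) (.e (nat_lit 57847) (nat_lit 252) (.e (nat_lit 57411) (nat_lit 12) (.e (nat_lit 336446) (nat_lit 33) (.e (nat_lit 475212) (nat_lit 42) (.e (nat_lit 720956) (nat_lit 25) (.e (nat_lit 114711) (nat_lit 21) (.e (nat_lit 57847) (nat_lit 252) (.e (nat_lit 57363) (nat_lit 1) .nil)))))))) (.g (nat_lit 4) .nil .nil))) 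
(.lf (nat_lit 181732) (.g (nat_lit 838) (.e (nat_lit 57847) (nat_lit 252) (.e (nat_lit 57423) (nat_lit 14) (.e (nat_lit 352276) (nat_lit 11) (.e (nat_lit 426318) (nat_lit 12) .nil)))) .nil)))) (.nd (nat_lit 5) (.nd (nat_lit 6) 
(.lf (nat_lit 181652) (.g (nat_lit 1448) (.e (nat_lit 57847) (nat_lit 252) (.e (nat_lit 57411) (nat_lit 12) (.e (nat_lit 336240) (nat_lit 15) (.e (nat_lit 3453) (nat_lit 216) .nil)))) .nil)) 
(.lf (nat_lit 181716) (.g (nat_lit 1839) (.e (nat_lit 57847) (nat_lit 252) (.e (nat_lit 57416) (nat_lit 12) (.e (nat_lit 336060) (nat_lit 7) (.e (nat_lit 319534) (nat_lit 16) (.e (nat_lit 286749) (nat_lit 9) (.e (nat_lit 335997) (nat_lit 1) (.e (nat_lit 57848) (nat_lit 252) (.e (nat_lit 57367) (nat_lit 1) .nil)))))))) (.g (nat_lit 4) .nil .nil)))) (.nd (nat_lit 6) 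
(.lf (nat_lit 181684) (.g (nat_lit 2098) (.e (nat_lit 57847) (nat_lit 252) (.e (nat_lit 57411) (nat_lit 12) (.e (nat_lit 336456) (nat_lit 34) (.e (nat_lit 483383) (nat_lit 23) (.e (nat_lit 336322) (nat_lit 18) (.e (nat_lit 204829) (nat_lit 18) .nil)))))) (.g (nat_lit 4) .nil .nil))) 
(.lf (nat_lit 181748) (.g (nat_lit 1916) (.e (nat_lit 57847) (nat_lit 252) (.e (nat_lit 57430) (nat_lit 16) (.e (nat_lit 368676) (nat_lit 21) (.e (nat_lit 516176) (nat_lit 14) (.e (nat_lit 466967) (nat_lit 20) (.e (nat_lit 2443) (nat_lit 157) (.e (nat_lit 4000) (nat_lit 241) (.e (nat_lit 57367) (nat_lit 1) .nil)))))))) (.g (nat_lit 4) .nil .nil)))))) 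
(.nd (nat_lit 4) (.nd (nat_lit 5) (.nd (nat_lit 6) 
(.lf (nat_lit 181644) (.g (nat_lit 1560) (.e (nat_lit 57847) (nat_lit 252) (.e (nat_lit 57411) (nat_lit 12) (.e (nat_lit 336211) (nat_lit 13) (.e (nat_lit 393290) (nat_lit 26) (.e (nat_lit 475214) (nat_lit 42) .nil))))) .nil)) 
(.lf (nat_lit 181708) (.g (nat_lit 148) (.e (nat_lit 57847) (nat_lit 252) (.e (nat_lit 57413) (nat_lit 12) (.e (nat_lit 336216) (nat_lit 13) .nil))) .nil))) (.nd (nat_lit 6) 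
(.lf (nat_lit 181676) (.g (nat_lit 397) (.e (nat_lit 57847) (nat_lit 252) (.e (nat_lit 57411) (nat_lit 12) (.e (nat_lit 336454) (nat_lit 34) .nil))) .nil)) 
(.lf (nat_lit 181740) (.g (nat_lit 2073) (.e (nat_lit 57847) (nat_lit 252) (.e (nat_lit 57430) (nat_lit 16) (.e (nat_lit 368676) (nat_lit 21) (.e (nat_lit 516129) (nat_lit 3) (.e (nat_lit 229120) (nat_lit 1) (.e (nat_lit 57849) (nat_lit 252) (.e (nat_lit 57388) (nat_lit 5) (.e (nat_lit 114710) (nat_lit 21) .nil)))))))) (.g (nat_lit 4) .nil .nil))))) (.nd (nat_lit 5) (.nd (nat_lit 6) 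
(.lf (nat_lit 181660) (.g (nat_lit 828) (.e (nat_lit 57847) (nat_lit 252) (.e (nat_lit 57411) (nat_lit 12) (.e (nat_lit 336377) (nat_lit 27) .nil))) .nil)) 
(.lf (nat_lit 181724) (.g (nat_lit 1669) (.e (nat_lit 57847) (nat_lit 252) (.e (nat_lit 57420) (nat_lit 13) (.e (nat_lit 344133) (nat_lit 26) (.e (nat_lit 557103) (nat_lit 14) (.e (nat_lit 188160) (nat_lit 0) .nil))))) .nil))) (.nd (nat_lit 6) 
(.lf (nat_lit 181692) (.g (nat_lit 2607) (.e (nat_lit 57847) (nat_lit 252) (.e (nat_lit 57412) (nat_lit 12) (.e (nat_lit 336061) (nat_lit 7) (.e (nat_lit 319531) (nat_lit 16) (.e (nat_lit 286753) (nat_lit 10) (.e (nat_lit 344097) (nat_lit 18) (.e (nat_lit 5195) (nat_lit 294) (.e (nat_lit 57363) (nat_lit 1) .nil)))))))) (.g (nat_lit 4) .nil .nil))) 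
(.lf (nat_lit 181756) (.g (nat_lit 1745) (.e (nat_lit 57847) (nat_lit 252) (.e (nat_lit 57432) (nat_lit 16) (.e (nat_lit 368676) (nat_lit 21) (.e (nat_lit 516176) (nat_lit 14) (.e (nat_lit 466947) (nat_lit 0) (.e (nat_lit 1800) (nat_lit 119) (.e (nat_lit 524032) (nat_lit 18) .nil))))))) (.g (nat_lit 4) .nil .nil)))))))) 
(.nd (nat_lit 2) (.nd (nat_lit 3) (.nd (nat_lit 4) (.nd (nat_lit 5) (.nd (nat_lit 6) 
(.lf (nat_lit 181634) (.g (nat_lit 1863) (.e (nat_lit 57847) (nat_lit 252) (.e (nat_lit 57411) (nat_lit 12) (.e (nat_lit 336211) (nat_lit 13) (.e (nat_lit 393268) (nat_lit 23) (.e (nat_lit 426361) (nat_lit 15) (.e (nat_lit 2206) (nat_lit 144) (.e (nat_lit 720932) (nat_lit 21) .nil))))))) (.g (nat_lit 4) .nil .nil))) 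
(.lf (nat_lit 181698) (.g (nat_lit 2517) (.e (nat_lit 57847) (nat_lit 252) (.e (nat_lit 57412) (nat_lit 12) (.e (nat_lit 336061) (nat_lit 7) (.e (nat_lit 319531) (nat_lit 16) (.e (nat_lit 286757) (nat_lit 11) .nil))))) .nil))) (.nd (nat_lit 6) 
(.lf (nat_lit 181666) (.g (nat_lit 2625) (.e (nat_lit 57847) (nat_lit 252) (.e (nat_lit 57411) (nat_lit 12) (.e (nat_lit 336445) (nat_lit 33) (.e (nat_lit 475214) (nat_lit 42) (.e (nat_lit 720956) (nat_lit 25) (.e (nat_lit 114711) (nat_lit 21) (.e (nat_lit 57847) (nat_lit 252) (.e (nat_lit 57363) (nat_lit 1) .nil)))))))) (.g (nat_lit 4) .nil .nil))) 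
(.lf (nat_lit 181730) (.g (nat_lit 749) (.e (nat_lit 57847) (nat_lit 252) (.e (nat_lit 57423) (nat_lit 14) (.e (nat_lit 352273) (nat_lit 11) .nil))) .nil)))) (.nd (nat_lit 5) (.nd (nat_lit 6) 
(.lf (nat_lit 181650) (.g (nat_lit 2070) (.e (nat_lit 57847) (nat_lit 252) (.e (nat_lit 57411) (nat_lit 12) (.e (nat_lit 336211) (nat_lit 13) (.e (nat_lit 393291) (nat_lit 26) (.e (nat_lit 483072) (nat_lit 42) (.e (nat_lit 720933) (nat_lit 21) .nil)))))) (.g (nat_lit 4) .nil .nil))) 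
(.lf (nat_lit 181714) (.g (nat_lit 3468) (.e (nat_lit 57847) (nat_lit 252) (.e (nat_lit 57416) (nat_lit 12) (.e (nat_lit 336056) (nat_lit 7) (.e (nat_lit 319534) (nat_lit 16) (.e (nat_lit 286756) (nat_lit 10) (.e (nat_lit 344097) (nat_lit 18) (.e (nat_lit 5195) (nat_lit 294) (.e (nat_lit 57363) (nat_lit 1) .nil)))))))) (.g (nat_lit 6) .nil .nil)))) (.nd (nat_lit 6) 
(.lf (nat_lit 181682) (.g (nat_lit 2371) (.e (nat_lit 57847) (nat_lit 252) (.e (nat_lit 57411) (nat_lit 12) (.e (nat_lit 336456) (nat_lit 34) (.e (nat_lit 483346) (nat_lit 17) (.e (nat_lit 6445) (nat_lit 343) .nil))))) .nil)) 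
(.lf (nat_lit 181746) (.g (nat_lit 1642) (.e (nat_lit 57847) (nat_lit 252) (.e (nat_lit 57430) (nat_lit 16) (.e (nat_lit 368676) (nat_lit 21) (.e (nat_lit 516176) (nat_lit 14) (.e (nat_lit 466947) (nat_lit 0) (.e (nat_lit 1800) (nat_lit 119) (.e (nat_lit 524032) (nat_lit 18) .nil))))))) (.g (nat_lit 4) .nil .nil)))))) (.nd (nat_lit 4) (.nd (nat_lit 5) (.nd (nat_lit 6) 
(.lf (nat_lit 181642) (.g (nat_lit 1915) (.e (nat_lit 57847) (nat_lit 252) (.e (nat_lit 57411) (nat_lit 12) (.e (nat_lit 336211) (nat_lit 13) (.e (nat_lit 393273) (nat_lit 23) (.e (nat_lit 426449) (nat_lit 20) .nil))))) .nil)) 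
(.lf (nat_lit 181706) (.g (nat_lit 1821) (.e (nat_lit 57847) (nat_lit 252) (.e (nat_lit 57413) (nat_lit 12) (.e (nat_lit 336060) (nat_lit 7) (.e (nat_lit 319534) (nat_lit 16) (.e (nat_lit 286749) (nat_lit 9) (.e (nat_lit 335997) (nat_lit 1) (.e (nat_lit 57848) (nat_lit 252) (.e (nat_lit 57367) (nat_lit 1) .nil)))))))) (.g (nat_lit 4) .nil .nil)))) (.nd (nat_lit 6) 
(.lf (nat_lit 181674) (.g (nat_lit 1710) (.e (nat_lit 57847) (nat_lit 252) (.e (nat_lit 57411) (nat_lit 12) (.e (nat_lit 336450) (nat_lit 33) (.e (nat_lit 475213) (nat_lit 42) .nil)))) .nil)) 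
(.lf (nat_lit 181738) (.g (nat_lit 2132) (.e (nat_lit 57847) (nat_lit 252) (.e (nat_lit 57427) (nat_lit 15) (.e (nat_lit 360450) (nat_lit 0) (.e (nat_lit 6923) (nat_lit 371) .nil)))) .nil)))) (.nd (nat_lit 5) (.nd (nat_lit 6) 
(.lf (nat_lit 181658) (.g (nat_lit 630) (.e (nat_lit 57847) (nat_lit 252) (.e (nat_lit 57411) (nat_lit 12) (.e (nat_lit 336370) (nat_lit 27) .nil))) .nil)) 
(.lf (nat_lit 181722) (.g (nat_lit 2302) (.e (nat_lit 57847) (nat_lit 252) (.e (nat_lit 57420) (nat_lit 13) (.e (nat_lit 344129) (nat_lit 26) (.e (nat_lit 557104) (nat_lit 14) (.e (nat_lit 188160) (nat_lit 0) .nil))))) .nil))) (.nd (nat_lit 6) 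
(.lf (nat_lit 181690) (.g (nat_lit 3103) (.e (nat_lit 57847) (nat_lit 252) (.e (nat_lit 57412) (nat_lit 12) (.e (nat_lit 336058) (nat_lit 7) (.e (nat_lit 319533) (nat_lit 16) (.e (nat_lit 286753) (nat_lit 10) (.e (nat_lit 344097) (nat_lit 18) (.e (nat_lit 5195) (nat_lit 294) (.e (nat_lit 57367) (nat_lit 1) .nil)))))))) (.g (nat_lit 5) .nil .nil))) 
(.lf (nat_lit 181754) (.g (nat_lit 1693) (.e (nat_lit 57847) (nat_lit 252) (.e (nat_lit 57432) (nat_lit 16) (.e (nat_lit 368676) (nat_lit 21) (.e (nat_lit 516174) (nat_lit 14) (.e (nat_lit 466947) (nat_lit 0) (.e (nat_lit 1800) (nat_lit 119) (.e (nat_lit 524032) (nat_lit 18) .nil))))))) (.g (nat_lit 4) .nil .nil))))))) (.nd (nat_lit 3) (.nd (nat_lit 4) (.nd (nat_lit 5) (.nd (nat_lit 6) 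
(.lf (nat_lit 181638) (.g (nat_lit 2284) (.e (nat_lit 57847) (nat_lit 252) (.e (nat_lit 57411) (nat_lit 12) (.e (nat_lit 336211) (nat_lit 13) (.e (nat_lit 393268) (nat_lit 23) (.e (nat_lit 433920) (nat_lit 20) .nil))))) .nil)) 
(.lf (nat_lit 181702) (.g (nat_lit 2189) (.e (nat_lit 57847) (nat_lit 252) (.e (nat_lit 57413) (nat_lit 12) (.e (nat_lit 336054) (nat_lit 7) (.e (nat_lit 319533) (nat_lit 16) (.e (nat_lit 286753) (nat_lit 10) (.e (nat_lit 344097) (nat_lit 18) (.e (nat_lit 5195) (nat_lit 294) (.e (nat_lit 57367) (nat_lit 1) .nil)))))))) (.g (nat_lit 5) .nil .nil)))) (.nd (nat_lit 6) 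
(.lf (nat_lit 181670) (.g (nat_lit 2164) (.e (nat_lit 57847) (nat_lit 252) (.e (nat_lit 57411) (nat_lit 12) (.e (nat_lit 336446) (nat_lit 33) (.e (nat_lit 475214) (nat_lit 42) (.e (nat_lit 720956) (nat_lit 25) .nil))))) .nil)) 
(.lf (nat_lit 181734) (.g (nat_lit 873) (.e (nat_lit 57847) (nat_lit 252) (.e (nat_lit 57424) (nat_lit 14) (.e (nat_lit 352273) (nat_lit 11) .nil))) .nil)))) (.nd (nat_lit 5) (.nd (nat_lit 6) 
(.lf (nat_lit 181654) (.g (nat_lit 1497) (.e (nat_lit 57847) (nat_lit 252) (.e (nat_lit 57411) (nat_lit 12) (.e (nat_lit 336316) (nat_lit 17) (.e (nat_lit 196666) (nat_lit 13) (.e (nat_lit 65617) (nat_lit 10) .nil))))) .nil)) 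
(.lf (nat_lit 181718) (.g (nat_lit 1635) (.e (nat_lit 57847) (nat_lit 252) (.e (nat_lit 57417) (nat_lit 12) (.e (nat_lit 336209) (nat_lit 13) (.e (nat_lit 393273) (nat_lit 23) (.e (nat_lit 426446) (nat_lit 20) .nil))))) .nil))) (.nd (nat_lit 6) 
(.lf (nat_lit 181686) (.g (nat_lit 926) (.e (nat_lit 57847) (nat_lit 252) (.e (nat_lit 57411) (nat_lit 12) (.e (nat_lit 336456) (nat_lit 34) (.e (nat_lit 491264) (nat_lit 23) .nil)))) .nil)) 
(.lf (nat_lit 181750) (.g (nat_lit 1295) (.e (nat_lit 57847) (nat_lit 252) (.e (nat_lit 57432) (nat_lit 16) (.e (nat_lit 368676) (nat_lit 21) (.e (nat_lit 516131) (nat_lit 3) (.e (nat_lit 221218) (nat_lit 24) .nil))))) .nil))))) (.nd (nat_lit 4) (.nd (nat_lit 5) (.nd (nat_lit 6) 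
(.lf (nat_lit 181646) (.g (nat_lit 2044) (.e (nat_lit 57847) (nat_lit 252) (.e (nat_lit 57411) (nat_lit 12) (.e (nat_lit 336211) (nat_lit 13) (.e (nat_lit 393291) (nat_lit 26) (.e (nat_lit 475195) (nat_lit 40) .nil))))) .nil)) 
(.lf (nat_lit 181710) (.g (nat_lit 2613) (.e (nat_lit 57847) (nat_lit 252) (.e (nat_lit 57414) (nat_lit 12) (.e (nat_lit 336058) (nat_lit 7) (.e (nat_lit 319534) (nat_lit 16) (.e (nat_lit 286756) (nat_lit 10) (.e (nat_lit 344097) (nat_lit 18) (.e (nat_lit 5195) (nat_lit 294) (.e (nat_lit 57363) (nat_lit 1) .nil)))))))) (.g (nat_lit 5) .nil .nil)))) (.nd (nat_lit 6) 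
(.lf (nat_lit 181678) (.g (nat_lit 2710) (.e (nat_lit 57847) (nat_lit 252) (.e (nat_lit 57411) (nat_lit 12) (.e (nat_lit 336454) (nat_lit 34) (.e (nat_lit 483406) (nat_lit 26) (.e (nat_lit 385065) (nat_lit 26) .nil))))) .nil)) 
(.lf (nat_lit 181742) (.g (nat_lit 1309) (.e (nat_lit 57847) (nat_lit 252) (.e (nat_lit 57430) (nat_lit 16) (.e (nat_lit 368676) (nat_lit 21) (.e (nat_lit 516131) (nat_lit 3) (.e (nat_lit 221219) (nat_lit 24) .nil))))) .nil)))) (.nd (nat_lit 5) (.nd (nat_lit 6) 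
(.lf (nat_lit 181662) (.g (nat_lit 828) (.e (nat_lit 57847) (nat_lit 252) (.e (nat_lit 57411) (nat_lit 12) (.e (nat_lit 336395) (nat_lit 27) .nil))) .nil)) 
(.lf (nat_lit 181726) (.g (nat_lit 1741) (.e (nat_lit 57847) (nat_lit 252) (.e (nat_lit 57421) (nat_lit 13) (.e (nat_lit 344129) (nat_lit 26) (.e (nat_lit 557104) (nat_lit 14) (.e (nat_lit 188160) (nat_lit 0) .nil))))) .nil))) (.nd (nat_lit 6) 
(.lf (nat_lit 181694) (.g (nat_lit 2772) (.e (nat_lit 57847) (nat_lit 252) (.e (nat_lit 57412) (nat_lit 12) (.e (nat_lit 336061) (nat_lit 7) (.e (nat_lit 319531) (nat_lit 16) (.e (nat_lit 286755) (nat_lit 10) (.e (nat_lit 344097) (nat_lit 18) (.e (nat_lit 5195) (nat_lit 294) (.e (nat_lit 57363) (nat_lit 1) .nil)))))))) (.g (nat_lit 4) .nil .nil))) 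
(.lf (nat_lit 181758) (.g (nat_lit 1671) (.e (nat_lit 57847) (nat_lit 252) (.e (nat_lit 57432) (nat_lit 16) (.e (nat_lit 368676) (nat_lit 21) (.e (nat_lit 516176) (nat_lit 14) (.e (nat_lit 466967) (nat_lit 20) (.e (nat_lit 2443) (nat_lit 157) (.e (nat_lit 4000) (nat_lit 241) (.e (nat_lit 57367) (nat_lit 1) .nil)))))))) (.g (nat_lit 4) .nil .nil))))))))) 
(.nd (nat_lit 1) (.nd (nat_lit 2) (.nd (nat_lit 3) (.nd (nat_lit 4) (.nd (nat_lit 5) 
(.nd (nat_lit 6) 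
(.lf (nat_lit 181633) (.g (nat_lit 2240) (.e (nat_lit 57847) (nat_lit 252) (.e (nat_lit 57411) (nat_lit 12) (.e (nat_lit 336211) (nat_lit 13) (.e (nat_lit 393268) (nat_lit 23) (.e (nat_lit 426361) (nat_lit 15) (.e (nat_lit 2203) (nat_lit 144) (.e (nat_lit 720933) (nat_lit 21) .nil))))))) (.g (nat_lit 4) .nil .nil))) 
(.lf (nat_lit 181697) (.g (nat_lit 3857) (.e (nat_lit 57847) (nat_lit 252) (.e (nat_lit 57412) (nat_lit 12) (.e (nat_lit 336061) (nat_lit 7) (.e (nat_lit 319531) (nat_lit 16) (.e (nat_lit 286756) (nat_lit 10) (.e (nat_lit 344097) (nat_lit 18) (.e (nat_lit 5195) (nat_lit 294) (.e (nat_lit 57367) (nat_lit 1) .nil)))))))) (.g (nat_lit 5) .nil .nil)))) (.nd (nat_lit 6) 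
(.lf (nat_lit 181665) (.g (nat_lit 2116) (.e (nat_lit 57847) (nat_lit 252) (.e (nat_lit 57411) (nat_lit 12) (.e (nat_lit 336445) (nat_lit 33) (.e (nat_lit 475214) (nat_lit 42) (.e (nat_lit 720956) (nat_lit 25) .nil))))) .nil)) 
(.lf (nat_lit 181729) (.g (nat_lit 2171) (.e (nat_lit 57847) (nat_lit 252) (.e (nat_lit 57421) (nat_lit 13) (.e (nat_lit 344133) (nat_lit 26) (.e (nat_lit 557103) (nat_lit 14) (.e (nat_lit 188160) (nat_lit 0) .nil))))) .nil)))) (.nd (nat_lit 5) (.nd (nat_lit 6) 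
(.lf (nat_lit 181649) (.g (nat_lit 2278) (.e (nat_lit 57847) (nat_lit 252) (.e (nat_lit 57411) (nat_lit 12) (.e (nat_lit 336211) (nat_lit 13) (.e (nat_lit 393291) (nat_lit 26) (.e (nat_lit 475214) (nat_lit 42) (.e (nat_lit 728832) (nat_lit 21) .nil)))))) (.g (nat_lit 5) .nil .nil))) 
(.lf (nat_lit 181713) (.g (nat_lit 1927) (.e (nat_lit 57847) (nat_lit 252) (.e (nat_lit 57414) (nat_lit 12) (.e (nat_lit 336060) (nat_lit 7) (.e (nat_lit 319534) (nat_lit 16) (.e (nat_lit 286756) (nat_lit 10) (.e (nat_lit 344097) (nat_lit 18) (.e (nat_lit 5194) (nat_lit 294) (.e (nat_lit 57367) (nat_lit 1) .nil)))))))) (.g (nat_lit 4) .nil .nil)))) (.nd (nat_lit 6) 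
(.lf (nat_lit 181681) (.g (nat_lit 1317) (.e (nat_lit 57847) (nat_lit 252) (.e (nat_lit 57411) (nat_lit 12) (.e (nat_lit 336456) (nat_lit 34) (.e (nat_lit 483346) (nat_lit 17) .nil)))) .nil)) 
(.lf (nat_lit 181745) (.g (nat_lit 1384) (.e (nat_lit 57847) (nat_lit 252) (.e (nat_lit 57430) (nat_lit 16) (.e (nat_lit 368676) (nat_lit 21) (.e (nat_lit 516174) (nat_lit 14) (.e (nat_lit 474880) (nat_lit 3) (.e (nat_lit 106240) (nat_lit 1) .nil)))))) (.g (nat_lit 4) .nil .nil)))))) (.nd (nat_lit 4) (.nd (nat_lit 5) (.nd (nat_lit 6) 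
(.lf (nat_lit 181641) (.g (nat_lit 1914) (.e (nat_lit 57847) (nat_lit 252) (.e (nat_lit 57411) (nat_lit 12) (.e (nat_lit 336211) (nat_lit 13) (.e (nat_lit 393273) (nat_lit 23) (.e (nat_lit 426354) (nat_lit 15) .nil))))) .nil)) 
(.lf (nat_lit 181705) (.g (nat_lit 2968) (.e (nat_lit 57847) (nat_lit 252) (.e (nat_lit 57413) (nat_lit 12) (.e (nat_lit 336056) (nat_lit 7) (.e (nat_lit 319533) (nat_lit 16) (.e (nat_lit 286753) (nat_lit 10) (.e (nat_lit 344097) (nat_lit 18) (.e (nat_lit 5195) (nat_lit 294) (.e (nat_lit 57367) (nat_lit 1) .nil)))))))) (.g (nat_lit 5) .nil .nil)))) (.nd (nat_lit 6) 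
(.lf (nat_lit 181673) (.g (nat_lit 2548) (.e (nat_lit 57847) (nat_lit 252) (.e (nat_lit 57411) (nat_lit 12) (.e (nat_lit 336450) (nat_lit 33) (.e (nat_lit 475212) (nat_lit 42) (.e (nat_lit 720956) (nat_lit 25) .nil))))) .nil)) 
(.lf (nat_lit 181737) (.g (nat_lit 1485) (.e (nat_lit 57847) (nat_lit 252) (.e (nat_lit 57424) (nat_lit 14) (.e (nat_lit 352277) (nat_lit 11) (.e (nat_lit 426307) (nat_lit 12) .nil)))) .nil)))) (.nd (nat_lit 5) (.nd (nat_lit 6) 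
(.lf (nat_lit 181657) (.g (nat_lit 2989) (.e (nat_lit 57847) (nat_lit 252) (.e (nat_lit 57411) (nat_lit 12) (.e (nat_lit 336369) (nat_lit 27) (.e (nat_lit 426499) (nat_lit 27) (.e (nat_lit 336196) (nat_lit 12) .nil))))) .nil)) 
(.lf (nat_lit 181721) (.g (nat_lit 2386) (.e (nat_lit 57847) (nat_lit 252) (.e (nat_lit 57420) (nat_lit 13) (.e (nat_lit 344129) (nat_lit 26) (.e (nat_lit 557103) (nat_lit 14) (.e (nat_lit 188160) (nat_lit 0) .nil))))) .nil))) (.nd (nat_lit 6) 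
(.lf (nat_lit 181689) (.g (nat_lit 3077) (.e (nat_lit 57847) (nat_lit 252) (.e (nat_lit 57412) (nat_lit 12) (.e (nat_lit 336054) (nat_lit 7) (.e (nat_lit 319534) (nat_lit 16) (.e (nat_lit 286756) (nat_lit 10) (.e (nat_lit 344097) (nat_lit 18) (.e (nat_lit 5195) (nat_lit 294) (.e (nat_lit 57367) (nat_lit 1) .nil)))))))) (.g (nat_lit 5) .nil .nil))) 
(.lf (nat_lit 181753) (.g (nat_lit 2896) (.e (nat_lit 57847) (nat_lit 252) (.e (nat_lit 57432) (nat_lit 16) (.e (nat_lit 368676) (nat_lit 21) (.e (nat_lit 516151) (nat_lit 9) (.e (nat_lit 426171) (nat_lit 7) .nil))))) .nil)))))) (.nd (nat_lit 3) (.nd (nat_lit 4) (.nd (nat_lit 5) (.nd (nat_lit 6) 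
(.lf (nat_lit 181637) (.g (nat_lit 1527) (.e (nat_lit 57847) (nat_lit 252) (.e (nat_lit 57411) (nat_lit 12) (.e (nat_lit 336211) (nat_lit 13) (.e (nat_lit 393268) (nat_lit 23) (.e (nat_lit 426448) (nat_lit 20) .nil))))) .nil)) 
(.lf (nat_lit 181701) (.g (nat_lit 1634) (.e (nat_lit 57847) (nat_lit 252) (.e (nat_lit 57412) (nat_lit 12) (.e (nat_lit 336389) (nat_lit 27) (.e (nat_lit 426500) (nat_lit 27) .nil)))) .nil))) (.nd (nat_lit 6) 
(.lf (nat_lit 181669) (.g (nat_lit 2496) (.e (nat_lit 57847) (nat_lit 252) (.e (nat_lit 57411) (nat_lit 12) (.e (nat_lit 336446) (nat_lit 33) (.e (nat_lit 475214) (nat_lit 42) (.e (nat_lit 720955) (nat_lit 25) .nil))))) .nil)) 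
(.lf (nat_lit 181733) (.g (nat_lit 715) (.e (nat_lit 57847) (nat_lit 252) (.e (nat_lit 57423) (nat_lit 14) (.e (nat_lit 352277) (nat_lit 11) .nil))) .nil)))) (.nd (nat_lit 5) (.nd (nat_lit 6) 
(.lf (nat_lit 181653) (.g (nat_lit 828) (.e (nat_lit 57847) (nat_lit 252) (.e (nat_lit 57411) (nat_lit 12) (.e (nat_lit 336310) (nat_lit 16) .nil))) .nil)) 
(.lf (nat_lit 181717) (.g (nat_lit 1863) (.e (nat_lit 57847) (nat_lit 252) (.e (nat_lit 57416) (nat_lit 12) (.e (nat_lit 336060) (nat_lit 7) (.e (nat_lit 319534) (nat_lit 16) (.e (nat_lit 286756) (nat_lit 10) (.e (nat_lit 344097) (nat_lit 18) (.e (nat_lit 5194) (nat_lit 294) (.e (nat_lit 57367) (nat_lit 1) .nil)))))))) (.g (nat_lit 4) .nil .nil)))) (.nd (nat_lit 6) 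
(.lf (nat_lit 181685) (.g (nat_lit 1828) (.e (nat_lit 57847) (nat_lit 252) (.e (nat_lit 57411) (nat_lit 12) (.e (nat_lit 336456) (nat_lit 34) (.e (nat_lit 483384) (nat_lit 23) (.e (nat_lit 336326) (nat_lit 18) .nil))))) .nil)) 
(.lf (nat_lit 181749) (.g (nat_lit 1718) (.e (nat_lit 57847) (nat_lit 252) (.e (nat_lit 57432) (nat_lit 16) (.e (nat_lit 368676) (nat_lit 21) (.e (nat_lit 516129) (nat_lit 3) (.e (nat_lit 221217) (nat_lit 24) .nil))))) .nil))))) (.nd (nat_lit 4) (.nd (nat_lit 5) (.nd (nat_lit 6) 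
(.lf (nat_lit 181645) (.g (nat_lit 940) (.e (nat_lit 57847) (nat_lit 252) (.e (nat_lit 57411) (nat_lit 12) (.e (nat_lit 336211) (nat_lit 13) (.e (nat_lit 393291) (nat_lit 26) .nil)))) .nil)) 
(.lf (nat_lit 181709) (.g (nat_lit 2566) (.e (nat_lit 57847) (nat_lit 252) (.e (nat_lit 57414) (nat_lit 12) (.e (nat_lit 336054) (nat_lit 7) (.e (nat_lit 319533) (nat_lit 16) (.e (nat_lit 286753) (nat_lit 10) (.e (nat_lit 344097) (nat_lit 18) (.e (nat_lit 5195) (nat_lit 294) (.e (nat_lit 57367) (nat_lit 1) .nil)))))))) (.g (nat_lit 7) .nil .nil)))) (.nd (nat_lit 6) 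
(.lf (nat_lit 181677) (.g (nat_lit 3314) (.e (nat_lit 57847) (nat_lit 252) (.e (nat_lit 57411) (nat_lit 12) (.e (nat_lit 336454) (nat_lit 34) (.e (nat_lit 483402) (nat_lit 26) (.e (nat_lit 385068) (nat_lit 26) (.e (nat_lit 532503) (nat_lit 1) .nil)))))) (.g (nat_lit 6) .nil .nil))) 
(.lf (nat_lit 181741) (.g (nat_lit 2062) (.e (nat_lit 57847) (nat_lit 252) (.e (nat_lit 57430) (nat_lit 16) (.e (nat_lit 368676) (nat_lit 21) (.e (nat_lit 516129) (nat_lit 3) (.e (nat_lit 221217) (nat_lit 24) (.e (nat_lit 213004) (nat_lit 9) (.e (nat_lit 124) (nat_lit 5) (.e (nat_lit 114710) (nat_lit 21) .nil)))))))) (.g (nat_lit 4) .nil .nil))))) (.nd (nat_lit 5) (.nd (nat_lit 6) 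
(.lf (nat_lit 181661) (.g (nat_lit 828) (.e (nat_lit 57847) (nat_lit 252) (.e (nat_lit 57411) (nat_lit 12) (.e (nat_lit 336383) (nat_lit 27) .nil))) .nil)) 
(.lf (nat_lit 181725) (.g (nat_lit 1955) (.e (nat_lit 57847) (nat_lit 252) (.e (nat_lit 57420) (nat_lit 13) (.e (nat_lit 344133) (nat_lit 26) (.e (nat_lit 557105) (nat_lit 14) (.e (nat_lit 188160) (nat_lit 0) .nil))))) .nil))) (.nd (nat_lit 6) 
(.lf (nat_lit 181693) (.g (nat_lit 2550) (.e (nat_lit 57847) (nat_lit 252) (.e (nat_lit 57412) (nat_lit 12) (.e (nat_lit 336061) (nat_lit 7) (.e (nat_lit 319531) (nat_lit 16) (.e (nat_lit 286753) (nat_lit 10) (.e (nat_lit 344097) (nat_lit 18) (.e (nat_lit 5195) (nat_lit 294) (.e (nat_lit 57367) (nat_lit 1) .nil)))))))) (.g (nat_lit 4) .nil .nil))) 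
(.lf (nat_lit 181757) (.g (nat_lit 1975) (.e (nat_lit 57847) (nat_lit 252) (.e (nat_lit 57432) (nat_lit 16) (.e (nat_lit 368676) (nat_lit 21) (.e (nat_lit 516176) (nat_lit 14) (.e (nat_lit 474880) (nat_lit 3) (.e (nat_lit 106240) (nat_lit 1) .nil)))))) (.g (nat_lit 4) .nil .nil)))))))) (.nd (nat_lit 2) (.nd (nat_lit 3) (.nd (nat_lit 4) (.nd (nat_lit 5) (.nd (nat_lit 6) 
(.lf (nat_lit 181635) (.g (nat_lit 1935) (.e (nat_lit 57847) (nat_lit 252) (.e (nat_lit 57411) (nat_lit 12) (.e (nat_lit 336211) (nat_lit 13) (.e (nat_lit 393268) (nat_lit 23) (.e (nat_lit 426440) (nat_lit 19) .nil))))) .nil)) 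
(.lf (nat_lit 181699) (.g (nat_lit 3889) (.e (nat_lit 57847) (nat_lit 252) (.e (nat_lit 57412) (nat_lit 12) (.e (nat_lit 336061) (nat_lit 7) (.e (nat_lit 319533) (nat_lit 16) (.e (nat_lit 286753) (nat_lit 10) (.e (nat_lit 344097) (nat_lit 18) (.e (nat_lit 5195) (nat_lit 294) (.e (nat_lit 57363) (nat_lit 1) .nil)))))))) (.g (nat_lit 5) .nil .nil)))) (.nd (nat_lit 6) 
(.lf (nat_lit 181667) (.g (nat_lit 739) (.e (nat_lit 57847) (nat_lit 252) (.e (nat_lit 57411) (nat_lit 12) (.e (nat_lit 336446) (nat_lit 33) .nil))) .nil)) 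
(.lf (nat_lit 181731) (.g (nat_lit 749) (.e (nat_lit 57847) (nat_lit 252) (.e (nat_lit 57423) (nat_lit 14) (.e (nat_lit 352275) (nat_lit 11) .nil))) .nil)))) (.nd (nat_lit 5) (.nd (nat_lit 6) 
(.lf (nat_lit 181651) (.g (nat_lit 777) (.e (nat_lit 57847) (nat_lit 252) (.e (nat_lit 57411) (nat_lit 12) (.e (nat_lit 343808) (nat_lit 13) .nil))) .nil)) 
(.lf (nat_lit 181715) (.g (nat_lit 3428) (.e (nat_lit 57847) (nat_lit 252) (.e (nat_lit 57416) (nat_lit 12) (.e (nat_lit 336056) (nat_lit 7) (.e (nat_lit 319534) (nat_lit 16) (.e (nat_lit 286756) (nat_lit 10) (.e (nat_lit 344097) (nat_lit 18) (.e (nat_lit 5195) (nat_lit 294) (.e (nat_lit 57367) (nat_lit 1) .nil)))))))) (.g (nat_lit 6) .nil .nil)))) (.nd (nat_lit 6) 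
(.lf (nat_lit 181683) (.g (nat_lit 2356) (.e (nat_lit 57847) (nat_lit 252) (.e (nat_lit 57411) (nat_lit 12) (.e (nat_lit 336456) (nat_lit 34) (.e (nat_lit 483346) (nat_lit 17) (.e (nat_lit 6505) (nat_lit 344) .nil))))) .nil)) 
(.lf (nat_lit 181747) (.g (nat_lit 1898) (.e (nat_lit 57847) (nat_lit 252) (.e (nat_lit 57430) (nat_lit 16) (.e (nat_lit 368676) (nat_lit 21) (.e (nat_lit 516176) (nat_lit 14) (.e (nat_lit 474880) (nat_lit 3) (.e (nat_lit 106240) (nat_lit 1) .nil)))))) (.g (nat_lit 4) .nil .nil)))))) (.nd (nat_lit 4) (.nd (nat_lit 5) (.nd (nat_lit 6) 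
(.lf (nat_lit 181643) (.g (nat_lit 1162) (.e (nat_lit 57847) (nat_lit 252) (.e (nat_lit 57411) (nat_lit 12) (.e (nat_lit 336211) (nat_lit 13) (.e (nat_lit 393279) (nat_lit 23) .nil)))) .nil)) 
(.lf (nat_lit 181707) (.g (nat_lit 1933) (.e (nat_lit 57847) (nat_lit 252) (.e (nat_lit 57413) (nat_lit 12) (.e (nat_lit 336060) (nat_lit 7) (.e (nat_lit 319534) (nat_lit 16) (.e (nat_lit 286756) (nat_lit 10) (.e (nat_lit 344097) (nat_lit 18) (.e (nat_lit 5194) (nat_lit 294) (.e (nat_lit 57367) (nat_lit 1) .nil)))))))) (.g (nat_lit 4) .nil .nil)))) (.nd (nat_lit 6) 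
(.lf (nat_lit 181675) (.g (nat_lit 3617) (.e (nat_lit 57847) (nat_lit 252) (.e (nat_lit 57411) (nat_lit 12) (.e (nat_lit 336452) (nat_lit 34) (.e (nat_lit 483403) (nat_lit 26) (.e (nat_lit 385068) (nat_lit 26) (.e (nat_lit 532503) (nat_lit 1) .nil)))))) (.g (nat_lit 6) .nil .nil))) 
(.lf (nat_lit 181739) (.g (nat_lit 1931) (.e (nat_lit 57847) (nat_lit 252) (.e (nat_lit 57427) (nat_lit 15) (.e (nat_lit 360451) (nat_lit 0) (.e (nat_lit 6923) (nat_lit 371) .nil)))) .nil)))) (.nd (nat_lit 5) (.nd (nat_lit 6) 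
(.lf (nat_lit 181659) (.g (nat_lit 3667) (.e (nat_lit 57847) (nat_lit 252) (.e (nat_lit 57411) (nat_lit 12) (.e (nat_lit 336370) (nat_lit 27) (.e (nat_lit 426499) (nat_lit 27) (.e (nat_lit 336196) (nat_lit 12) (.e (nat_lit 385066) (nat_lit 26) (.e (nat_lit 532499) (nat_lit 1) .nil))))))) (.g (nat_lit 5) .nil .nil))) 
(.lf (nat_lit 181723) (.g (nat_lit 2450) (.e (nat_lit 57847) (nat_lit 252) (.e (nat_lit 57420) (nat_lit 13) (.e (nat_lit 344129) (nat_lit 26) (.e (nat_lit 557104) (nat_lit 14) (.e (nat_lit 188160) (nat_lit 0) (.e (nat_lit 5195) (nat_lit 294) (.e (nat_lit 57390) (nat_lit 5) (.e (nat_lit 114711) (nat_lit 21) .nil)))))))) (.g (nat_lit 4) .nil .nil)))) (.nd (nat_lit 6) 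
(.lf (nat_lit 181691) (.g (nat_lit 2212) (.e (nat_lit 57847) (nat_lit 252) (.e (nat_lit 57412) (nat_lit 12) (.e (nat_lit 336060) (nat_lit 7) (.e (nat_lit 319534) (nat_lit 16) (.e (nat_lit 286756) (nat_lit 10) (.e (nat_lit 344097) (nat_lit 18) (.e (nat_lit 5194) (nat_lit 294) (.e (nat_lit 57367) (nat_lit 1) .nil)))))))) (.g (nat_lit 4) .nil .nil))) 
(.lf (nat_lit 181755) (.g (nat_lit 1516) (.e (nat_lit 57847) (nat_lit 252) (.e (nat_lit 57432) (nat_lit 16) (.e (nat_lit 368676) (nat_lit 21) (.e (nat_lit 516174) (nat_lit 14) (.e (nat_lit 474880) (nat_lit 3) (.e (nat_lit 106240) (nat_lit 1) .nil)))))) (.g (nat_lit 4) .nil .nil))))))) (.nd (nat_lit 3) (.nd (nat_lit 4) (.nd (nat_lit 5) (.nd (nat_lit 6) 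
(.lf (nat_lit 181639) (.g (nat_lit 2432) (.e (nat_lit 57847) (nat_lit 252) (.e (nat_lit 57411) (nat_lit 12) (.e (nat_lit 336211) (nat_lit 13) (.e (nat_lit 393268) (nat_lit 23) (.e (nat_lit 433920) (nat_lit 20) (.e (nat_lit 114711) (nat_lit 21) .nil)))))) (.g (nat_lit 4) .nil .nil))) 
(.lf (nat_lit 181703) (.g (nat_lit 2954) (.e (nat_lit 57847) (nat_lit 252) (.e (nat_lit 57413) (nat_lit 12) (.e (nat_lit 336054) (nat_lit 7) (.e (nat_lit 319534) (nat_lit 16) (.e (nat_lit 286756) (nat_lit 10) (.e (nat_lit 344097) (nat_lit 18) (.e (nat_lit 5195) (nat_lit 294) (.e (nat_lit 57367) (nat_lit 1) .nil)))))))) (.g (nat_lit 5) .nil .nil)))) (.nd (nat_lit 6) 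
(.lf (nat_lit 181671) (.g (nat_lit 3148) (.e (nat_lit 57847) (nat_lit 252) (.e (nat_lit 57411) (nat_lit 12) (.e (nat_lit 336446) (nat_lit 33) (.e (nat_lit 475214) (nat_lit 42) (.e (nat_lit 720956) (nat_lit 25) (.e (nat_lit 114711) (nat_lit 21) (.e (nat_lit 57847) (nat_lit 252) (.e (nat_lit 57363) (nat_lit 1) .nil)))))))) (.g (nat_lit 5) .nil .nil))) 
(.lf (nat_lit 181735) (.g (nat_lit 1831) (.e (nat_lit 57847) (nat_lit 252) (.e (nat_lit 57424) (nat_lit 14) (.e (nat_lit 352273) (nat_lit 11) (.e (nat_lit 426187) (nat_lit 9) (.e (nat_lit 426446) (nat_lit 20) .nil))))) .nil)))) (.nd (nat_lit 5) (.nd (nat_lit 6) 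
(.lf (nat_lit 181655) (.g (nat_lit 2053) (.e (nat_lit 57847) (nat_lit 252) (.e (nat_lit 57411) (nat_lit 12) (.e (nat_lit 336366) (nat_lit 27) (.e (nat_lit 426499) (nat_lit 27) (.e (nat_lit 336078) (nat_lit 9) .nil))))) .nil)) 
(.lf (nat_lit 181719) (.g (nat_lit 702) (.e (nat_lit 57847) (nat_lit 252) (.e (nat_lit 57417) (nat_lit 12) (.e (nat_lit 336209) (nat_lit 13) (.e (nat_lit 393293) (nat_lit 26) .nil)))) .nil))) (.nd (nat_lit 6) 
(.lf (nat_lit 181687) (.g (nat_lit 3079) (.e (nat_lit 57847) (nat_lit 252) (.e (nat_lit 57411) (nat_lit 12) (.e (nat_lit 336456) (nat_lit 34) (.e (nat_lit 483405) (nat_lit 26) (.e (nat_lit 385068) (nat_lit 26) (.e (nat_lit 532503) (nat_lit 1) .nil)))))) (.g (nat_lit 6) .nil .nil))) 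
(.lf (nat_lit 181751) (.g (nat_lit 1315) (.e (nat_lit 57847) (nat_lit 252) (.e (nat_lit 57432) (nat_lit 16) (.e (nat_lit 368676) (nat_lit 21) (.e (nat_lit 516131) (nat_lit 3) (.e (nat_lit 221219) (nat_lit 24) .nil))))) .nil))))) (.nd (nat_lit 4) (.nd (nat_lit 5) (.nd (nat_lit 6) 
(.lf (nat_lit 181647) (.g (nat_lit 1756) (.e (nat_lit 57847) (nat_lit 252) (.e (nat_lit 57411) (nat_lit 12) (.e (nat_lit 336211) (nat_lit 13) (.e (nat_lit 393291) (nat_lit 26) (.e (nat_lit 475201) (nat_lit 40) (.e (nat_lit 704671) (nat_lit 9) (.e (nat_lit 1170) (nat_lit 87) .nil))))))) (.g (nat_lit 4) .nil .nil))) 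
(.lf (nat_lit 181711) (.g (nat_lit 2599) (.e (nat_lit 57847) (nat_lit 252) (.e (nat_lit 57414) (nat_lit 12) (.e (nat_lit 336058) (nat_lit 7) (.e (nat_lit 319534) (nat_lit 16) (.e (nat_lit 286756) (nat_lit 10) (.e (nat_lit 344097) (nat_lit 18) (.e (nat_lit 5195) (nat_lit 294) (.e (nat_lit 57367) (nat_lit 1) .nil)))))))) (.g (nat_lit 5) .nil .nil)))) (.nd (nat_lit 6) 
(.lf (nat_lit 181679) (.g (nat_lit 3324) (.e (nat_lit 57847) (nat_lit 252) (.e (nat_lit 57411) (nat_lit 12) (.e (nat_lit 336454) (nat_lit 34) (.e (nat_lit 483407) (nat_lit 26) (.e (nat_lit 385068) (nat_lit 26) (.e (nat_lit 532503) (nat_lit 1) .nil)))))) (.g (nat_lit 6) .nil .nil))) 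
(.lf (nat_lit 181743) (.g (nat_lit 2955) (.e (nat_lit 57847) (nat_lit 252) (.e (nat_lit 57430) (nat_lit 16) (.e (nat_lit 368676) (nat_lit 21) (.e (nat_lit 516151) (nat_lit 9) (.e (nat_lit 426171) (nat_lit 7) .nil))))) .nil)))) (.nd (nat_lit 5) (.nd (nat_lit 6) 
(.lf (nat_lit 181663) (.g (nat_lit 828) (.e (nat_lit 57847) (nat_lit 252) (.e (nat_lit 57411) (nat_lit 12) (.e (nat_lit 336399) (nat_lit 27) .nil))) .nil)) 
(.lf (nat_lit 181727) (.g (nat_lit 1610) (.e (nat_lit 57847) (nat_lit 252) (.e (nat_lit 57421) (nat_lit 13) (.e (nat_lit 344130) (nat_lit 26) (.e (nat_lit 557104) (nat_lit 14) (.e (nat_lit 188160) (nat_lit 0) .nil))))) .nil))) (.nd (nat_lit 6) 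
(.lf (nat_lit 181695) (.g (nat_lit 2736) (.e (nat_lit 57847) (nat_lit 252) (.e (nat_lit 57412) (nat_lit 12) (.e (nat_lit 336061) (nat_lit 7) (.e (nat_lit 319531) (nat_lit 16) (.e (nat_lit 286755) (nat_lit 10) (.e (nat_lit 344097) (nat_lit 18) (.e (nat_lit 5195) (nat_lit 294) (.e (nat_lit 57367) (nat_lit 1) .nil)))))))) (.g (nat_lit 4) .nil .nil))) 
(.lf (nat_lit 181759) (.g (nat_lit 1536) (.e (nat_lit 57847) (nat_lit 252) (.e (nat_lit 57434) (nat_lit 17) (.e (nat_lit 376842) (nat_lit 11) (.e (nat_lit 426189) (nat_lit 9) (.e (nat_lit 426446) (nat_lit 20) .nil))))) .nil)))))))))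

noncomputable def tv2431 : DT := (.nd (nat_lit 0) (.nd (nat_lit 1) (.nd (nat_lit 2) (.nd (nat_lit 3) (.nd (nat_lit 4) (.nd (nat_lit 5) (.nd (nat_lit 6) 
(.lf (nat_lit 181760) (.g (nat_lit 283) (.e (nat_lit 57847) (nat_lit 252) (.e (nat_lit 57435) (nat_lit 17) (.e (nat_lit 376842) (nat_lit 11) .nil))) .nil)) 
(.lf (nat_lit 181824) (.g (nat_lit 1793) (.e (nat_lit 57847) (nat_lit 252) (.e (nat_lit 57436) (nat_lit 17) (.e (nat_lit 376842) (nat_lit 11) (.e (nat_lit 426258) (nat_lit 9) (.e (nat_lit 426447) (nat_lit 20) .nil))))) .nil))) (.nd (nat_lit 6) 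
(.lf (nat_lit 181792) (.g (nat_lit 1088) (.e (nat_lit 57847) (nat_lit 252) (.e (nat_lit 57435) (nat_lit 17) (.e (nat_lit 376842) (nat_lit 11) (.e (nat_lit 426306) (nat_lit 12) .nil)))) .nil)) 
(.lf (nat_lit 181856) (.g (nat_lit 2290) (.e (nat_lit 57847) (nat_lit 252) (.e (nat_lit 57437) (nat_lit 17) (.e (nat_lit 376842) (nat_lit 11) (.e (nat_lit 426298) (nat_lit 11) (.e (nat_lit 458774) (nat_lit 18) (.e (nat_lit 5224) (nat_lit 296) (.e (nat_lit 171776) (nat_lit 62) .nil))))))) (.g (nat_lit 5) .nil .nil))))) (.nd (nat_lit 5) (.nd (nat_lit 6) 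
(.lf (nat_lit 181776) (.g (nat_lit 1014) (.e (nat_lit 57847) (nat_lit 252) (.e (nat_lit 57435) (nat_lit 17) (.e (nat_lit 376842) (nat_lit 11) (.e (nat_lit 426200) (nat_lit 9) .nil)))) .nil)) 
(.lf (nat_lit 181840) (.g (nat_lit 2790) (.e (nat_lit 57847) (nat_lit 252) (.e (nat_lit 57437) (nat_lit 17) (.e (nat_lit 376842) (nat_lit 11) (.e (nat_lit 426188) (nat_lit 9) (.e (nat_lit 426444) (nat_lit 19) (.e (nat_lit 106526) (nat_lit 9) (.e (nat_lit 1181) (nat_lit 87) .nil))))))) (.g (nat_lit 4) .nil .nil)))) (.nd (nat_lit 6) 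
(.lf (nat_lit 181808) (.g (nat_lit 2255) (.e (nat_lit 57847) (nat_lit 252) (.e (nat_lit 57435) (nat_lit 17) (.e (nat_lit 376842) (nat_lit 11) (.e (nat_lit 426306) (nat_lit 12) (.e (nat_lit 475215) (nat_lit 43) .nil))))) .nil)) 
(.lf (nat_lit 181872) (.g (nat_lit 2539) (.e (nat_lit 57847) (nat_lit 252) (.e (nat_lit 57437) (nat_lit 17) (.e (nat_lit 376842) (nat_lit 11) (.e (nat_lit 426306) (nat_lit 12) (.e (nat_lit 475205) (nat_lit 40) .nil))))) .nil))))) (.nd (nat_lit 4) (.nd (nat_lit 5) (.nd (nat_lit 6) 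
(.lf (nat_lit 181768) (.g (nat_lit 2782) (.e (nat_lit 57847) (nat_lit 252) (.e (nat_lit 57435) (nat_lit 17) (.e (nat_lit 376842) (nat_lit 11) (.e (nat_lit 426188) (nat_lit 9) (.e (nat_lit 426442) (nat_lit 19) (.e (nat_lit 106517) (nat_lit 9) (.e (nat_lit 1181) (nat_lit 87) .nil))))))) (.g (nat_lit 4) .nil .nil))) 
(.lf (nat_lit 181832) (.g (nat_lit 2453) (.e (nat_lit 57847) (nat_lit 252) (.e (nat_lit 57437) (nat_lit 17) (.e (nat_lit 376842) (nat_lit 11) (.e (nat_lit 426188) (nat_lit 9) (.e (nat_lit 426440) (nat_lit 19) .nil))))) .nil))) (.nd (nat_lit 6) 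
(.lf (nat_lit 181800) (.g (nat_lit 2482) (.e (nat_lit 57847) (nat_lit 252) (.e (nat_lit 57435) (nat_lit 17) (.e (nat_lit 376842) (nat_lit 11) (.e (nat_lit 426306) (nat_lit 12) (.e (nat_lit 475201) (nat_lit 40) (.e (nat_lit 704658) (nat_lit 9) (.e (nat_lit 1170) (nat_lit 87) .nil))))))) (.g (nat_lit 5) .nil .nil))) 
(.lf (nat_lit 181864) (.g (nat_lit 2639) (.e (nat_lit 57847) (nat_lit 252) (.e (nat_lit 57437) (nat_lit 17) (.e (nat_lit 376842) (nat_lit 11) (.e (nat_lit 426306) (nat_lit 12) (.e (nat_lit 475195) (nat_lit 40) (.e (nat_lit 704612) (nat_lit 9) (.e (nat_lit 1173) (nat_lit 87) .nil))))))) (.g (nat_lit 4) .nil .nil))))) (.nd (nat_lit 5) (.nd (nat_lit 6) 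
(.lf (nat_lit 181784) (.g (nat_lit 1247) (.e (nat_lit 57847) (nat_lit 252) (.e (nat_lit 57435) (nat_lit 17) (.e (nat_lit 376842) (nat_lit 11) (.e (nat_lit 426296) (nat_lit 11) (.e (nat_lit 458804) (nat_lit 38) .nil))))) .nil)) 
(.lf (nat_lit 181848) (.g (nat_lit 1939) (.e (nat_lit 57847) (nat_lit 252) (.e (nat_lit 57437) (nat_lit 17) (.e (nat_lit 376842) (nat_lit 11) (.e (nat_lit 426204) (nat_lit 9) (.e (nat_lit 433920) (nat_lit 20) .nil))))) .nil))) (.nd (nat_lit 6) 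
(.lf (nat_lit 181816) (.g (nat_lit 2802) (.e (nat_lit 57847) (nat_lit 252) (.e (nat_lit 57435) (nat_lit 17) (.e (nat_lit 376842) (nat_lit 11) (.e (nat_lit 426316) (nat_lit 12) (.e (nat_lit 475197) (nat_lit 40) (.e (nat_lit 704612) (nat_lit 9) (.e (nat_lit 1173) (nat_lit 87) .nil))))))) (.g (nat_lit 4) .nil .nil))) 
(.lf (nat_lit 181880) (.g (nat_lit 1189) (.e (nat_lit 57847) (nat_lit 252) (.e (nat_lit 57437) (nat_lit 17) (.e (nat_lit 376842) (nat_lit 11) (.e (nat_lit 426315) (nat_lit 12) .nil)))) .nil)))))) (.nd (nat_lit 3) (.nd (nat_lit 4) (.nd (nat_lit 5) (.nd (nat_lit 6) 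
(.lf (nat_lit 181764) (.g (nat_lit 2731) (.e (nat_lit 57847) (nat_lit 252) (.e (nat_lit 57435) (nat_lit 17) (.e (nat_lit 376842) (nat_lit 11) (.e (nat_lit 426188) (nat_lit 9) (.e (nat_lit 426350) (nat_lit 15) (.e (nat_lit 2198) (nat_lit 144) (.e (nat_lit 720933) (nat_lit 21) .nil))))))) (.g (nat_lit 4) .nil .nil))) 
(.lf (nat_lit 181828) (.g (nat_lit 1191) (.e (nat_lit 57847) (nat_lit 252) (.e (nat_lit 57437) (nat_lit 17) (.e (nat_lit 376842) (nat_lit 11) (.e (nat_lit 426188) (nat_lit 9) .nil)))) .nil))) (.nd (nat_lit 6) 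
(.lf (nat_lit 181796) (.g (nat_lit 1902) (.e (nat_lit 57847) (nat_lit 252) (.e (nat_lit 57435) (nat_lit 17) (.e (nat_lit 376842) (nat_lit 11) (.e (nat_lit 426306) (nat_lit 12) (.e (nat_lit 475199) (nat_lit 40) .nil))))) .nil)) 
(.lf (nat_lit 181860) (.g (nat_lit 2553) (.e (nat_lit 57847) (nat_lit 252) (.e (nat_lit 57437) (nat_lit 17) (.e (nat_lit 376842) (nat_lit 11) (.e (nat_lit 426298) (nat_lit 11) (.e (nat_lit 458804) (nat_lit 38) (.e (nat_lit 655383) (nat_lit 9) (.e (nat_lit 1170) (nat_lit 87) .nil))))))) (.g (nat_lit 5) .nil .nil))))) (.nd (nat_lit 5) (.nd (nat_lit 6) 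
(.lf (nat_lit 181780) (.g (nat_lit 918) (.e (nat_lit 57847) (nat_lit 252) (.e (nat_lit 57435) (nat_lit 17) (.e (nat_lit 376842) (nat_lit 11) (.e (nat_lit 426296) (nat_lit 11) .nil)))) .nil)) 
(.lf (nat_lit 181844) (.g (nat_lit 1134) (.e (nat_lit 57847) (nat_lit 252) (.e (nat_lit 57437) (nat_lit 17) (.e (nat_lit 376842) (nat_lit 11) (.e (nat_lit 426198) (nat_lit 9) .nil)))) .nil))) (.nd (nat_lit 6) 
(.lf (nat_lit 181812) (.g (nat_lit 1080) (.e (nat_lit 57847) (nat_lit 252) (.e (nat_lit 57435) (nat_lit 17) (.e (nat_lit 376842) (nat_lit 11) (.e (nat_lit 426315) (nat_lit 12) .nil)))) .nil)) 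
(.lf (nat_lit 181876) (.g (nat_lit 2297) (.e (nat_lit 57847) (nat_lit 252) (.e (nat_lit 57437) (nat_lit 17) (.e (nat_lit 376842) (nat_lit 11) (.e (nat_lit 426306) (nat_lit 12) (.e (nat_lit 475215) (nat_lit 43) .nil))))) .nil))))) (.nd (nat_lit 4) (.nd (nat_lit 5) (.nd (nat_lit 6) 
(.lf (nat_lit 181772) (.g (nat_lit 2438) (.e (nat_lit 57847) (nat_lit 252) (.e (nat_lit 57435) (nat_lit 17) (.e (nat_lit 376842) (nat_lit 11) (.e (nat_lit 426188) (nat_lit 9) (.e (nat_lit 426444) (nat_lit 19) (.e (nat_lit 106526) (nat_lit 9) (.e (nat_lit 1170) (nat_lit 87) .nil))))))) (.g (nat_lit 4) .nil .nil))) 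
(.lf (nat_lit 181836) (.g (nat_lit 2303) (.e (nat_lit 57847) (nat_lit 252) (.e (nat_lit 57437) (nat_lit 17) (.e (nat_lit 376842) (nat_lit 11) (.e (nat_lit 426188) (nat_lit 9) (.e (nat_lit 426444) (nat_lit 19) .nil))))) .nil))) (.nd (nat_lit 6) 
(.lf (nat_lit 181804) (.g (nat_lit 2367) (.e (nat_lit 57847) (nat_lit 252) (.e (nat_lit 57435) (nat_lit 17) (.e (nat_lit 376842) (nat_lit 11) (.e (nat_lit 426306) (nat_lit 12) (.e (nat_lit 475205) (nat_lit 40) .nil))))) .nil)) 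
(.lf (nat_lit 181868) (.g (nat_lit 2497) (.e (nat_lit 57847) (nat_lit 252) (.e (nat_lit 57437) (nat_lit 17) (.e (nat_lit 376842) (nat_lit 11) (.e (nat_lit 426306) (nat_lit 12) (.e (nat_lit 475201) (nat_lit 40) (.e (nat_lit 704658) (nat_lit 9) (.e (nat_lit 1170) (nat_lit 87) .nil))))))) (.g (nat_lit 5) .nil .nil))))) (.nd (nat_lit 5) (.nd (nat_lit 6) 
(.lf (nat_lit 181788) (.g (nat_lit 2260) (.e (nat_lit 57847) (nat_lit 252) (.e (nat_lit 57435) (nat_lit 17) (.e (nat_lit 376842) (nat_lit 11) (.e (nat_lit 426298) (nat_lit 11) (.e (nat_lit 458774) (nat_lit 18) (.e (nat_lit 5224) (nat_lit 296) (.e (nat_lit 171776) (nat_lit 62) .nil))))))) (.g (nat_lit 6) .nil .nil))) 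
(.lf (nat_lit 181852) (.g (nat_lit 2219) (.e (nat_lit 57847) (nat_lit 252) (.e (nat_lit 57437) (nat_lit 17) (.e (nat_lit 376842) (nat_lit 11) (.e (nat_lit 426296) (nat_lit 11) (.e (nat_lit 458774) (nat_lit 18) (.e (nat_lit 5232) (nat_lit 296) (.e (nat_lit 171776) (nat_lit 62) .nil))))))) (.g (nat_lit 5) .nil .nil)))) (.nd (nat_lit 6) 
(.lf (nat_lit 181820) (.g (nat_lit 483) (.e (nat_lit 57847) (nat_lit 252) (.e (nat_lit 57436) (nat_lit 17) (.e (nat_lit 376842) (nat_lit 11) .nil))) .nil)) 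
(.lf (nat_lit 181884) (.g (nat_lit 2410) (.e (nat_lit 57847) (nat_lit 252) (.e (nat_lit 57437) (nat_lit 17) (.e (nat_lit 376842) (nat_lit 11) (.e (nat_lit 426315) (nat_lit 12) (.e (nat_lit 475197) (nat_lit 40) (.e (nat_lit 704612) (nat_lit 9) (.e (nat_lit 1173) (nat_lit 87) .nil))))))) (.g (nat_lit 4) .nil .nil)))))))) 
(.nd (nat_lit 2) (.nd (nat_lit 3) (.nd (nat_lit 4) (.nd (nat_lit 5) (.nd (nat_lit 6) 
(.lf (nat_lit 181762) (.g (nat_lit 1217) (.e (nat_lit 57847) (nat_lit 252) (.e (nat_lit 57435) (nat_lit 17) (.e (nat_lit 376842) (nat_lit 11) (.e (nat_lit 426188) (nat_lit 9) .nil)))) .nil)) 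
(.lf (nat_lit 181826) (.g (nat_lit 554) (.e (nat_lit 57847) (nat_lit 252) (.e (nat_lit 57437) (nat_lit 17) (.e (nat_lit 376839) (nat_lit 11) (.e (nat_lit 426262) (nat_lit 9) .nil)))) .nil))) (.nd (nat_lit 6) 
(.lf (nat_lit 181794) (.g (nat_lit 2535) (.e (nat_lit 57847) (nat_lit 252) (.e (nat_lit 57435) (nat_lit 17) (.e (nat_lit 376842) (nat_lit 11) (.e (nat_lit 426306) (nat_lit 12) (.e (nat_lit 475195) (nat_lit 40) (.e (nat_lit 704612) (nat_lit 9) (.e (nat_lit 1173) (nat_lit 87) .nil))))))) (.g (nat_lit 4) .nil .nil))) 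
(.lf (nat_lit 181858) (.g (nat_lit 1629) (.e (nat_lit 57847) (nat_lit 252) (.e (nat_lit 57437) (nat_lit 17) (.e (nat_lit 376842) (nat_lit 11) (.e (nat_lit 426298) (nat_lit 11) (.e (nat_lit 458778) (nat_lit 18) .nil))))) .nil)))) (.nd (nat_lit 5) (.nd (nat_lit 6) 
(.lf (nat_lit 181778) (.g (nat_lit 1458) (.e (nat_lit 57847) (nat_lit 252) (.e (nat_lit 57435) (nat_lit 17) (.e (nat_lit 376842) (nat_lit 11) (.e (nat_lit 426204) (nat_lit 9) .nil)))) .nil)) 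
(.lf (nat_lit 181842) (.g (nat_lit 2234) (.e (nat_lit 57847) (nat_lit 252) (.e (nat_lit 57437) (nat_lit 17) (.e (nat_lit 376842) (nat_lit 11) (.e (nat_lit 426188) (nat_lit 9) (.e (nat_lit 426449) (nat_lit 20) .nil))))) .nil))) (.nd (nat_lit 6) 
(.lf (nat_lit 181810) (.g (nat_lit 3237) (.e (nat_lit 57847) (nat_lit 252) (.e (nat_lit 57435) (nat_lit 17) (.e (nat_lit 376842) (nat_lit 11) (.e (nat_lit 426314) (nat_lit 12) (.e (nat_lit 475212) (nat_lit 42) (.e (nat_lit 720929) (nat_lit 21) .nil)))))) (.g (nat_lit 5) .nil .nil))) 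
(.lf (nat_lit 181874) (.g (nat_lit 2340) (.e (nat_lit 57847) (nat_lit 252) (.e (nat_lit 57437) (nat_lit 17) (.e (nat_lit 376842) (nat_lit 11) (.e (nat_lit 426306) (nat_lit 12) (.e (nat_lit 475213) (nat_lit 42) .nil))))) .nil))))) (.nd (nat_lit 4) (.nd (nat_lit 5) (.nd (nat_lit 6) 
(.lf (nat_lit 181770) (.g (nat_lit 3098) (.e (nat_lit 57847) (nat_lit 252) (.e (nat_lit 57435) (nat_lit 17) (.e (nat_lit 376842) (nat_lit 11) (.e (nat_lit 426188) (nat_lit 9) (.e (nat_lit 426444) (nat_lit 19) (.e (nat_lit 106504) (nat_lit 9) (.e (nat_lit 1170) (nat_lit 87) .nil))))))) (.g (nat_lit 5) .nil .nil))) 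
(.lf (nat_lit 181834) (.g (nat_lit 2490) (.e (nat_lit 57847) (nat_lit 252) (.e (nat_lit 57437) (nat_lit 17) (.e (nat_lit 376842) (nat_lit 11) (.e (nat_lit 426188) (nat_lit 9) (.e (nat_lit 426442) (nat_lit 19) .nil))))) .nil))) (.nd (nat_lit 6) 
(.lf (nat_lit 181802) (.g (nat_lit 2667) (.e (nat_lit 57847) (nat_lit 252) (.e (nat_lit 57435) (nat_lit 17) (.e (nat_lit 376842) (nat_lit 11) (.e (nat_lit 426306) (nat_lit 12) (.e (nat_lit 475201) (nat_lit 40) (.e (nat_lit 704662) (nat_lit 9) (.e (nat_lit 1170) (nat_lit 87) .nil))))))) (.g (nat_lit 5) .nil .nil))) 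
(.lf (nat_lit 181866) (.g (nat_lit 1722) (.e (nat_lit 57847) (nat_lit 252) (.e (nat_lit 57437) (nat_lit 17) (.e (nat_lit 376842) (nat_lit 11) (.e (nat_lit 426306) (nat_lit 12) (.e (nat_lit 475201) (nat_lit 40) .nil))))) .nil)))) (.nd (nat_lit 5) (.nd (nat_lit 6) 
(.lf (nat_lit 181786) (.g (nat_lit 1375) (.e (nat_lit 57847) (nat_lit 252) (.e (nat_lit 57435) (nat_lit 17) (.e (nat_lit 376842) (nat_lit 11) (.e (nat_lit 426298) (nat_lit 11) (.e (nat_lit 458771) (nat_lit 18) .nil))))) .nil)) 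
(.lf (nat_lit 181850) (.g (nat_lit 1604) (.e (nat_lit 57847) (nat_lit 252) (.e (nat_lit 57437) (nat_lit 17) (.e (nat_lit 376842) (nat_lit 11) (.e (nat_lit 426258) (nat_lit 9) .nil)))) .nil))) (.nd (nat_lit 6) 
(.lf (nat_lit 181818) (.g (nat_lit 991) (.e (nat_lit 57847) (nat_lit 252) (.e (nat_lit 57435) (nat_lit 17) (.e (nat_lit 384768) (nat_lit 13) (.e (nat_lit 442395) (nat_lit 20) (.e (nat_lit 2403) (nat_lit 157) (.e (nat_lit 5573) (nat_lit 308) (.e (nat_lit 57363) (nat_lit 1) .nil))))))) (.g (nat_lit 4) .nil .nil))) 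
(.lf (nat_lit 181882) (.g (nat_lit 2429) (.e (nat_lit 57847) (nat_lit 252) (.e (nat_lit 57437) (nat_lit 17) (.e (nat_lit 376842) (nat_lit 11) (.e (nat_lit 426315) (nat_lit 12) (.e (nat_lit 475195) (nat_lit 40) (.e (nat_lit 704612) (nat_lit 9) (.e (nat_lit 1173) (nat_lit 87) .nil))))))) (.g (nat_lit 4) .nil .nil))))))) (.nd (nat_lit 3) (.nd (nat_lit 4) (.nd (nat_lit 5) (.nd (nat_lit 6) 
(.lf (nat_lit 181766) (.g (nat_lit 2463) (.e (nat_lit 57847) (nat_lit 252) (.e (nat_lit 57435) (nat_lit 17) (.e (nat_lit 376842) (nat_lit 11) (.e (nat_lit 426188) (nat_lit 9) (.e (nat_lit 426440) (nat_lit 19) .nil))))) .nil)) 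
(.lf (nat_lit 181830) (.g (nat_lit 2697) (.e (nat_lit 57847) (nat_lit 252) (.e (nat_lit 57437) (nat_lit 17) (.e (nat_lit 376842) (nat_lit 11) (.e (nat_lit 426188) (nat_lit 9) (.e (nat_lit 426350) (nat_lit 15) (.e (nat_lit 2198) (nat_lit 144) (.e (nat_lit 720933) (nat_lit 21) .nil))))))) (.g (nat_lit 4) .nil .nil)))) (.nd (nat_lit 6) 
(.lf (nat_lit 181798) (.g (nat_lit 3045) (.e (nat_lit 57847) (nat_lit 252) (.e (nat_lit 57435) (nat_lit 17) (.e (nat_lit 376842) (nat_lit 11) (.e (nat_lit 426306) (nat_lit 12) (.e (nat_lit 475201) (nat_lit 40) (.e (nat_lit 704620) (nat_lit 9) (.e (nat_lit 1170) (nat_lit 87) .nil))))))) (.g (nat_lit 6) .nil .nil))) 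
(.lf (nat_lit 181862) (.g (nat_lit 1140) (.e (nat_lit 57847) (nat_lit 252) (.e (nat_lit 57437) (nat_lit 17) (.e (nat_lit 376842) (nat_lit 11) (.e (nat_lit 426306) (nat_lit 12) .nil)))) .nil)))) (.nd (nat_lit 5) (.nd (nat_lit 6) 
(.lf (nat_lit 181782) (.g (nat_lit 1505) (.e (nat_lit 57847) (nat_lit 252) (.e (nat_lit 57435) (nat_lit 17) (.e (nat_lit 376842) (nat_lit 11) (.e (nat_lit 426296) (nat_lit 11) (.e (nat_lit 458774) (nat_lit 18) (.e (nat_lit 5230) (nat_lit 296) (.e (nat_lit 171776) (nat_lit 62) .nil))))))) (.g (nat_lit 4) .nil .nil))) 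
(.lf (nat_lit 181846) (.g (nat_lit 1513) (.e (nat_lit 57847) (nat_lit 252) (.e (nat_lit 57437) (nat_lit 17) (.e (nat_lit 376842) (nat_lit 11) (.e (nat_lit 426200) (nat_lit 9) (.e (nat_lit 426354) (nat_lit 15) .nil))))) .nil))) (.nd (nat_lit 6) 
(.lf (nat_lit 181814) (.g (nat_lit 3308) (.e (nat_lit 57847) (nat_lit 252) (.e (nat_lit 57435) (nat_lit 17) (.e (nat_lit 376842) (nat_lit 11) (.e (nat_lit 426315) (nat_lit 12) (.e (nat_lit 475214) (nat_lit 42) (.e (nat_lit 720933) (nat_lit 21) .nil)))))) (.g (nat_lit 5) .nil .nil))) 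
(.lf (nat_lit 181878) (.g (nat_lit 1827) (.e (nat_lit 57847) (nat_lit 252) (.e (nat_lit 57437) (nat_lit 17) (.e (nat_lit 376842) (nat_lit 11) (.e (nat_lit 426314) (nat_lit 12) (.e (nat_lit 475206) (nat_lit 40) .nil))))) .nil))))) (.nd (nat_lit 4) (.nd (nat_lit 5) (.nd (nat_lit 6) 
(.lf (nat_lit 181774) (.g (nat_lit 2227) (.e (nat_lit 57847) (nat_lit 252) (.e (nat_lit 57435) (nat_lit 17) (.e (nat_lit 376842) (nat_lit 11) (.e (nat_lit 426188) (nat_lit 9) (.e (nat_lit 426449) (nat_lit 20) .nil))))) .nil)) 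
(.lf (nat_lit 181838) (.g (nat_lit 2869) (.e (nat_lit 57847) (nat_lit 252) (.e (nat_lit 57437) (nat_lit 17) (.e (nat_lit 376842) (nat_lit 11) (.e (nat_lit 426188) (nat_lit 9) (.e (nat_lit 426444) (nat_lit 19) (.e (nat_lit 106517) (nat_lit 9) (.e (nat_lit 1181) (nat_lit 87) .nil))))))) (.g (nat_lit 4) .nil .nil)))) (.nd (nat_lit 6) 
(.lf (nat_lit 181806) (.g (nat_lit 2169) (.e (nat_lit 57847) (nat_lit 252) (.e (nat_lit 57435) (nat_lit 17) (.e (nat_lit 376842) (nat_lit 11) (.e (nat_lit 426306) (nat_lit 12) (.e (nat_lit 475213) (nat_lit 42) .nil))))) .nil)) 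
(.lf (nat_lit 181870) (.g (nat_lit 2682) (.e (nat_lit 57847) (nat_lit 252) (.e (nat_lit 57437) (nat_lit 17) (.e (nat_lit 376842) (nat_lit 11) (.e (nat_lit 426306) (nat_lit 12) (.e (nat_lit 475201) (nat_lit 40) (.e (nat_lit 704662) (nat_lit 9) (.e (nat_lit 1170) (nat_lit 87) .nil))))))) (.g (nat_lit 5) .nil .nil))))) (.nd (nat_lit 5) (.nd (nat_lit 6) 
(.lf (nat_lit 181790) (.g (nat_lit 2282) (.e (nat_lit 57847) (nat_lit 252) (.e (nat_lit 57435) (nat_lit 17) (.e (nat_lit 376842) (nat_lit 11) (.e (nat_lit 426298) (nat_lit 11) (.e (nat_lit 458774) (nat_lit 18) (.e (nat_lit 5232) (nat_lit 296) (.e (nat_lit 171776) (nat_lit 62) .nil))))))) (.g (nat_lit 5) .nil .nil))) 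
(.lf (nat_lit 181854) (.g (nat_lit 1626) (.e (nat_lit 57847) (nat_lit 252) (.e (nat_lit 57437) (nat_lit 17) (.e (nat_lit 376842) (nat_lit 11) (.e (nat_lit 426298) (nat_lit 11) (.e (nat_lit 458771) (nat_lit 18) .nil))))) .nil))) (.nd (nat_lit 6) 
(.lf (nat_lit 181822) (.g (nat_lit 3140) (.e (nat_lit 57847) (nat_lit 252) (.e (nat_lit 57436) (nat_lit 17) (.e (nat_lit 376842) (nat_lit 11) (.e (nat_lit 426198) (nat_lit 9) (.e (nat_lit 426446) (nat_lit 20) (.e (nat_lit 114710) (nat_lit 21) .nil)))))) (.g (nat_lit 5) .nil .nil))) 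
(.lf (nat_lit 181886) (.g (nat_lit 1128) (.e (nat_lit 57847) (nat_lit 252) (.e (nat_lit 57437) (nat_lit 17) (.e (nat_lit 376842) (nat_lit 11) (.e (nat_lit 426316) (nat_lit 12) .nil)))) .nil)))))))) (.nd (nat_lit 1) (.nd (nat_lit 2) (.nd (nat_lit 3) (.nd (nat_lit 4) (.nd (nat_lit 5) (.nd (nat_lit 6) 
(.lf (nat_lit 181761) (.g (nat_lit 1552) (.e (nat_lit 57847) (nat_lit 252) (.e (nat_lit 57435) (nat_lit 17) (.e (nat_lit 376842) (nat_lit 11) (.e (nat_lit 426181) (nat_lit 8) .nil)))) .nil)) 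
(.lf (nat_lit 181825) (.g (nat_lit 1655) (.e (nat_lit 57847) (nat_lit 252) (.e (nat_lit 57436) (nat_lit 17) (.e (nat_lit 376860) (nat_lit 21) (.e (nat_lit 57692) (nat_lit 156) .nil)))) .nil))) (.nd (nat_lit 6) 
(.lf (nat_lit 181793) (.g (nat_lit 2422) (.e (nat_lit 57847) (nat_lit 252) (.e (nat_lit 57435) (nat_lit 17) (.e (nat_lit 376842) (nat_lit 11) (.e (nat_lit 426306) (nat_lit 12) (.e (nat_lit 475195) (nat_lit 40) .nil))))) .nil)) 
(.lf (nat_lit 181857) (.g (nat_lit 2312) (.e (nat_lit 57847) (nat_lit 252) (.e (nat_lit 57437) (nat_lit 17) (.e (nat_lit 376842) (nat_lit 11) (.e (nat_lit 426298) (nat_lit 11) (.e (nat_lit 458774) (nat_lit 18) (.e (nat_lit 5232) (nat_lit 296) (.e (nat_lit 171776) (nat_lit 62) .nil))))))) (.g (nat_lit 5) .nil .nil))))) (.nd (nat_lit 5) (.nd (nat_lit 6) 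
(.lf (nat_lit 181777) (.g (nat_lit 1404) (.e (nat_lit 57847) (nat_lit 252) (.e (nat_lit 57435) (nat_lit 17) (.e (nat_lit 376842) (nat_lit 11) (.e (nat_lit 426200) (nat_lit 9) (.e (nat_lit 426354) (nat_lit 15) .nil))))) .nil)) 
(.lf (nat_lit 181841) (.g (nat_lit 1919) (.e (nat_lit 57847) (nat_lit 252) (.e (nat_lit 57437) (nat_lit 17) (.e (nat_lit 376842) (nat_lit 11) (.e (nat_lit 426188) (nat_lit 9) (.e (nat_lit 426448) (nat_lit 20) .nil))))) .nil))) (.nd (nat_lit 6) 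
(.lf (nat_lit 181809) (.g (nat_lit 1346) (.e (nat_lit 57847) (nat_lit 252) (.e (nat_lit 57435) (nat_lit 17) (.e (nat_lit 376842) (nat_lit 11) (.e (nat_lit 426314) (nat_lit 12) .nil)))) .nil)) 
(.lf (nat_lit 181873) (.g (nat_lit 2737) (.e (nat_lit 57847) (nat_lit 252) (.e (nat_lit 57437) (nat_lit 17) (.e (nat_lit 376842) (nat_lit 11) (.e (nat_lit 426306) (nat_lit 12) (.e (nat_lit 475205) (nat_lit 40) (.e (nat_lit 704606) (nat_lit 9) (.e (nat_lit 1183) (nat_lit 87) .nil))))))) (.g (nat_lit 4) .nil .nil)))))) (.nd (nat_lit 4) (.nd (nat_lit 5) (.nd (nat_lit 6) 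
(.lf (nat_lit 181769) (.g (nat_lit 2109) (.e (nat_lit 57847) (nat_lit 252) (.e (nat_lit 57435) (nat_lit 17) (.e (nat_lit 376842) (nat_lit 11) (.e (nat_lit 426188) (nat_lit 9) (.e (nat_lit 426444) (nat_lit 19) .nil))))) .nil)) 
(.lf (nat_lit 181833) (.g (nat_lit 2459) (.e (nat_lit 57847) (nat_lit 252) (.e (nat_lit 57437) (nat_lit 17) (.e (nat_lit 376842) (nat_lit 11) (.e (nat_lit 426188) (nat_lit 9) (.e (nat_lit 426440) (nat_lit 19) (.e (nat_lit 106526) (nat_lit 9) (.e (nat_lit 1181) (nat_lit 87) .nil))))))) (.g (nat_lit 4) .nil .nil)))) (.nd (nat_lit 6) 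
(.lf (nat_lit 181801) (.g (nat_lit 2534) (.e (nat_lit 57847) (nat_lit 252) (.e (nat_lit 57435) (nat_lit 17) (.e (nat_lit 376842) (nat_lit 11) (.e (nat_lit 426306) (nat_lit 12) (.e (nat_lit 475201) (nat_lit 40) (.e (nat_lit 704659) (nat_lit 9) (.e (nat_lit 1170) (nat_lit 87) .nil))))))) (.g (nat_lit 5) .nil .nil))) 
(.lf (nat_lit 181865) (.g (nat_lit 2702) (.e (nat_lit 57847) (nat_lit 252) (.e (nat_lit 57437) (nat_lit 17) (.e (nat_lit 376842) (nat_lit 11) (.e (nat_lit 426306) (nat_lit 12) (.e (nat_lit 475197) (nat_lit 40) (.e (nat_lit 704612) (nat_lit 9) (.e (nat_lit 1173) (nat_lit 87) .nil))))))) (.g (nat_lit 4) .nil .nil))))) (.nd (nat_lit 5) (.nd (nat_lit 6) 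
(.lf (nat_lit 181785) (.g (nat_lit 914) (.e (nat_lit 57847) (nat_lit 252) (.e (nat_lit 57435) (nat_lit 17) (.e (nat_lit 376842) (nat_lit 11) (.e (nat_lit 426298) (nat_lit 11) .nil)))) .nil)) 
(.lf (nat_lit 181849) (.g (nat_lit 1647) (.e (nat_lit 57847) (nat_lit 252) (.e (nat_lit 57437) (nat_lit 17) (.e (nat_lit 376842) (nat_lit 11) (.e (nat_lit 426213) (nat_lit 9) .nil)))) .nil))) (.nd (nat_lit 6) 
(.lf (nat_lit 181817) (.g (nat_lit 3320) (.e (nat_lit 57847) (nat_lit 252) (.e (nat_lit 57435) (nat_lit 17) (.e (nat_lit 376842) (nat_lit 11) (.e (nat_lit 426316) (nat_lit 12) (.e (nat_lit 475212) (nat_lit 42) (.e (nat_lit 720933) (nat_lit 21) .nil)))))) (.g (nat_lit 5) .nil .nil))) 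
(.lf (nat_lit 181881) (.g (nat_lit 2153) (.e (nat_lit 57847) (nat_lit 252) (.e (nat_lit 57437) (nat_lit 17) (.e (nat_lit 376842) (nat_lit 11) (.e (nat_lit 426315) (nat_lit 12) (.e (nat_lit 475195) (nat_lit 40) .nil))))) .nil)))))) (.nd (nat_lit 3) (.nd (nat_lit 4) (.nd (nat_lit 5) (.nd (nat_lit 6) 
(.lf (nat_lit 181765) (.g (nat_lit 2319) (.e (nat_lit 57847) (nat_lit 252) (.e (nat_lit 57435) (nat_lit 17) (.e (nat_lit 376842) (nat_lit 11) (.e (nat_lit 426188) (nat_lit 9) (.e (nat_lit 426354) (nat_lit 15) .nil))))) .nil)) 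
(.lf (nat_lit 181829) (.g (nat_lit 2503) (.e (nat_lit 57847) (nat_lit 252) (.e (nat_lit 57437) (nat_lit 17) (.e (nat_lit 376842) (nat_lit 11) (.e (nat_lit 426188) (nat_lit 9) (.e (nat_lit 426350) (nat_lit 15) .nil))))) .nil))) (.nd (nat_lit 6) 
(.lf (nat_lit 181797) (.g (nat_lit 1637) (.e (nat_lit 57847) (nat_lit 252) (.e (nat_lit 57435) (nat_lit 17) (.e (nat_lit 376842) (nat_lit 11) (.e (nat_lit 426306) (nat_lit 12) (.e (nat_lit 475201) (nat_lit 40) .nil))))) .nil)) 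
(.lf (nat_lit 181861) (.g (nat_lit 2538) (.e (nat_lit 57847) (nat_lit 252) (.e (nat_lit 57437) (nat_lit 17) (.e (nat_lit 376842) (nat_lit 11) (.e (nat_lit 426305) (nat_lit 12) (.e (nat_lit 475212) (nat_lit 42) .nil))))) .nil)))) (.nd (nat_lit 5) (.nd (nat_lit 6) 
(.lf (nat_lit 181781) (.g (nat_lit 2146) (.e (nat_lit 57847) (nat_lit 252) (.e (nat_lit 57435) (nat_lit 17) (.e (nat_lit 376842) (nat_lit 11) (.e (nat_lit 426296) (nat_lit 11) (.e (nat_lit 458774) (nat_lit 18) (.e (nat_lit 5224) (nat_lit 296) (.e (nat_lit 171776) (nat_lit 62) .nil))))))) (.g (nat_lit 6) .nil .nil))) 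
(.lf (nat_lit 181845) (.g (nat_lit 1157) (.e (nat_lit 57847) (nat_lit 252) (.e (nat_lit 57437) (nat_lit 17) (.e (nat_lit 376842) (nat_lit 11) (.e (nat_lit 426200) (nat_lit 9) .nil)))) .nil))) (.nd (nat_lit 6) 
(.lf (nat_lit 181813) (.g (nat_lit 2014) (.e (nat_lit 57847) (nat_lit 252) (.e (nat_lit 57435) (nat_lit 17) (.e (nat_lit 376842) (nat_lit 11) (.e (nat_lit 426315) (nat_lit 12) (.e (nat_lit 475195) (nat_lit 40) .nil))))) .nil)) 
(.lf (nat_lit 181877) (.g (nat_lit 1375) (.e (nat_lit 57847) (nat_lit 252) (.e (nat_lit 57437) (nat_lit 17) (.e (nat_lit 376842) (nat_lit 11) (.e (nat_lit 426314) (nat_lit 12) .nil)))) .nil))))) (.nd (nat_lit 4) (.nd (nat_lit 5) (.nd (nat_lit 6) 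
(.lf (nat_lit 181773) (.g (nat_lit 2745) (.e (nat_lit 57847) (nat_lit 252) (.e (nat_lit 57435) (nat_lit 17) (.e (nat_lit 376842) (nat_lit 11) (.e (nat_lit 426188) (nat_lit 9) (.e (nat_lit 426444) (nat_lit 19) (.e (nat_lit 106526) (nat_lit 9) (.e (nat_lit 1181) (nat_lit 87) .nil))))))) (.g (nat_lit 4) .nil .nil))) 
(.lf (nat_lit 181837) (.g (nat_lit 3168) (.e (nat_lit 57847) (nat_lit 252) (.e (nat_lit 57437) (nat_lit 17) (.e (nat_lit 376842) (nat_lit 11) (.e (nat_lit 426188) (nat_lit 9) (.e (nat_lit 426444) (nat_lit 19) (.e (nat_lit 106504) (nat_lit 9) (.e (nat_lit 1170) (nat_lit 87) .nil))))))) (.g (nat_lit 5) .nil .nil)))) (.nd (nat_lit 6) 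
(.lf (nat_lit 181805) (.g (nat_lit 2563) (.e (nat_lit 57847) (nat_lit 252) (.e (nat_lit 57435) (nat_lit 17) (.e (nat_lit 376842) (nat_lit 11) (.e (nat_lit 426306) (nat_lit 12) (.e (nat_lit 475205) (nat_lit 40) (.e (nat_lit 704606) (nat_lit 9) (.e (nat_lit 1183) (nat_lit 87) .nil))))))) (.g (nat_lit 4) .nil .nil))) 
(.lf (nat_lit 181869) (.g (nat_lit 2549) (.e (nat_lit 57847) (nat_lit 252) (.e (nat_lit 57437) (nat_lit 17) (.e (nat_lit 376842) (nat_lit 11) (.e (nat_lit 426306) (nat_lit 12) (.e (nat_lit 475201) (nat_lit 40) (.e (nat_lit 704659) (nat_lit 9) (.e (nat_lit 1170) (nat_lit 87) .nil))))))) (.g (nat_lit 5) .nil .nil))))) (.nd (nat_lit 5) (.nd (nat_lit 6) 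
(.lf (nat_lit 181789) (.g (nat_lit 1513) (.e (nat_lit 57847) (nat_lit 252) (.e (nat_lit 57435) (nat_lit 17) (.e (nat_lit 376842) (nat_lit 11) (.e (nat_lit 426298) (nat_lit 11) (.e (nat_lit 458774) (nat_lit 18) (.e (nat_lit 5230) (nat_lit 296) (.e (nat_lit 171776) (nat_lit 62) .nil))))))) (.g (nat_lit 4) .nil .nil))) 
(.lf (nat_lit 181853) (.g (nat_lit 1140) (.e (nat_lit 57847) (nat_lit 252) (.e (nat_lit 57437) (nat_lit 17) (.e (nat_lit 376842) (nat_lit 11) (.e (nat_lit 426298) (nat_lit 11) .nil)))) .nil))) (.nd (nat_lit 6) 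
(.lf (nat_lit 181821) (.g (nat_lit 2997) (.e (nat_lit 57847) (nat_lit 252) (.e (nat_lit 57436) (nat_lit 17) (.e (nat_lit 376842) (nat_lit 11) (.e (nat_lit 426187) (nat_lit 9) (.e (nat_lit 426446) (nat_lit 20) (.e (nat_lit 114710) (nat_lit 21) .nil)))))) (.g (nat_lit 5) .nil .nil))) 
(.lf (nat_lit 181885) (.g (nat_lit 2048) (.e (nat_lit 57847) (nat_lit 252) (.e (nat_lit 57437) (nat_lit 17) (.e (nat_lit 376842) (nat_lit 11) (.e (nat_lit 426315) (nat_lit 12) (.e (nat_lit 475215) (nat_lit 43) (.e (nat_lit 729109) (nat_lit 21) .nil)))))) (.g (nat_lit 4) .nil .nil)))))))) (.nd (nat_lit 2) (.nd (nat_lit 3) (.nd (nat_lit 4) (.nd (nat_lit 5) (.nd (nat_lit 6) 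
(.lf (nat_lit 181763) (.g (nat_lit 2588) (.e (nat_lit 57847) (nat_lit 252) (.e (nat_lit 57435) (nat_lit 17) (.e (nat_lit 376842) (nat_lit 11) (.e (nat_lit 426188) (nat_lit 9) (.e (nat_lit 426350) (nat_lit 15) .nil))))) .nil)) 
(.lf (nat_lit 181827) (.g (nat_lit 372) (.e (nat_lit 57847) (nat_lit 252) (.e (nat_lit 57437) (nat_lit 17) (.e (nat_lit 376842) (nat_lit 11) .nil))) .nil))) (.nd (nat_lit 6) 
(.lf (nat_lit 181795) (.g (nat_lit 2531) (.e (nat_lit 57847) (nat_lit 252) (.e (nat_lit 57435) (nat_lit 17) (.e (nat_lit 376842) (nat_lit 11) (.e (nat_lit 426306) (nat_lit 12) (.e (nat_lit 475197) (nat_lit 40) (.e (nat_lit 704612) (nat_lit 9) (.e (nat_lit 1173) (nat_lit 87) .nil))))))) (.g (nat_lit 4) .nil .nil))) 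
(.lf (nat_lit 181859) (.g (nat_lit 1610) (.e (nat_lit 57847) (nat_lit 252) (.e (nat_lit 57437) (nat_lit 17) (.e (nat_lit 376842) (nat_lit 11) (.e (nat_lit 426298) (nat_lit 11) (.e (nat_lit 458804) (nat_lit 38) .nil))))) .nil)))) (.nd (nat_lit 5) (.nd (nat_lit 6) 
(.lf (nat_lit 181779) (.g (nat_lit 1574) (.e (nat_lit 57847) (nat_lit 252) (.e (nat_lit 57435) (nat_lit 17) (.e (nat_lit 376842) (nat_lit 11) (.e (nat_lit 426213) (nat_lit 9) .nil)))) .nil)) 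
(.lf (nat_lit 181843) (.g (nat_lit 2644) (.e (nat_lit 57847) (nat_lit 252) (.e (nat_lit 57437) (nat_lit 17) (.e (nat_lit 376842) (nat_lit 11) (.e (nat_lit 426188) (nat_lit 9) (.e (nat_lit 433920) (nat_lit 20) .nil))))) .nil))) (.nd (nat_lit 6) 
(.lf (nat_lit 181811) (.g (nat_lit 3474) (.e (nat_lit 57847) (nat_lit 252) (.e (nat_lit 57435) (nat_lit 17) (.e (nat_lit 376842) (nat_lit 11) (.e (nat_lit 426314) (nat_lit 12) (.e (nat_lit 475214) (nat_lit 42) (.e (nat_lit 720929) (nat_lit 21) .nil)))))) (.g (nat_lit 5) .nil .nil))) 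
(.lf (nat_lit 181875) (.g (nat_lit 2384) (.e (nat_lit 57847) (nat_lit 252) (.e (nat_lit 57437) (nat_lit 17) (.e (nat_lit 376842) (nat_lit 11) (.e (nat_lit 426306) (nat_lit 12) (.e (nat_lit 475214) (nat_lit 42) (.e (nat_lit 728832) (nat_lit 21) .nil)))))) (.g (nat_lit 5) .nil .nil)))))) (.nd (nat_lit 4) (.nd (nat_lit 5) (.nd (nat_lit 6) 
(.lf (nat_lit 181771) (.g (nat_lit 2879) (.e (nat_lit 57847) (nat_lit 252) (.e (nat_lit 57435) (nat_lit 17) (.e (nat_lit 376842) (nat_lit 11) (.e (nat_lit 426188) (nat_lit 9) (.e (nat_lit 426444) (nat_lit 19) (.e (nat_lit 106517) (nat_lit 9) (.e (nat_lit 1181) (nat_lit 87) .nil))))))) (.g (nat_lit 4) .nil .nil))) 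
(.lf (nat_lit 181835) (.g (nat_lit 2749) (.e (nat_lit 57847) (nat_lit 252) (.e (nat_lit 57437) (nat_lit 17) (.e (nat_lit 376842) (nat_lit 11) (.e (nat_lit 426188) (nat_lit 9) (.e (nat_lit 426442) (nat_lit 19) (.e (nat_lit 106517) (nat_lit 9) (.e (nat_lit 1181) (nat_lit 87) .nil))))))) (.g (nat_lit 4) .nil .nil)))) (.nd (nat_lit 6) 
(.lf (nat_lit 181803) (.g (nat_lit 2077) (.e (nat_lit 57847) (nat_lit 252) (.e (nat_lit 57435) (nat_lit 17) (.e (nat_lit 376842) (nat_lit 11) (.e (nat_lit 426306) (nat_lit 12) (.e (nat_lit 475201) (nat_lit 40) (.e (nat_lit 704671) (nat_lit 9) (.e (nat_lit 1170) (nat_lit 87) .nil))))))) (.g (nat_lit 4) .nil .nil))) 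
(.lf (nat_lit 181867) (.g (nat_lit 2109) (.e (nat_lit 57847) (nat_lit 252) (.e (nat_lit 57437) (nat_lit 17) (.e (nat_lit 376842) (nat_lit 11) (.e (nat_lit 426306) (nat_lit 12) (.e (nat_lit 475201) (nat_lit 40) (.e (nat_lit 704620) (nat_lit 9) (.e (nat_lit 1180) (nat_lit 87) .nil))))))) (.g (nat_lit 4) .nil .nil))))) (.nd (nat_lit 5) (.nd (nat_lit 6) 
(.lf (nat_lit 181787) (.g (nat_lit 2193) (.e (nat_lit 57847) (nat_lit 252) (.e (nat_lit 57435) (nat_lit 17) (.e (nat_lit 376842) (nat_lit 11) (.e (nat_lit 426298) (nat_lit 11) (.e (nat_lit 458771) (nat_lit 18) (.e (nat_lit 5537) (nat_lit 306) (.e (nat_lit 1077) (nat_lit 81) (.e (nat_lit 1176) (nat_lit 87) .nil)))))))) (.g (nat_lit 4) .nil .nil))) 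
(.lf (nat_lit 181851) (.g (nat_lit 1148) (.e (nat_lit 57847) (nat_lit 252) (.e (nat_lit 57437) (nat_lit 17) (.e (nat_lit 376842) (nat_lit 11) (.e (nat_lit 426296) (nat_lit 11) .nil)))) .nil))) (.nd (nat_lit 6) 
(.lf (nat_lit 181819) (.g (nat_lit 1247) (.e (nat_lit 57847) (nat_lit 252) (.e (nat_lit 57435) (nat_lit 17) (.e (nat_lit 384768) (nat_lit 13) (.e (nat_lit 442428) (nat_lit 24) (.e (nat_lit 229675) (nat_lit 242) (.e (nat_lit 57367) (nat_lit 1) .nil)))))) (.g (nat_lit 4) .nil .nil))) 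
(.lf (nat_lit 181883) (.g (nat_lit 2332) (.e (nat_lit 57847) (nat_lit 252) (.e (nat_lit 57437) (nat_lit 17) (.e (nat_lit 376842) (nat_lit 11) (.e (nat_lit 426315) (nat_lit 12) (.e (nat_lit 475196) (nat_lit 40) (.e (nat_lit 704612) (nat_lit 9) (.e (nat_lit 1173) (nat_lit 87) .nil))))))) (.g (nat_lit 4) .nil .nil))))))) (.nd (nat_lit 3) (.nd (nat_lit 4) (.nd (nat_lit 5) (.nd (nat_lit 6) 
(.lf (nat_lit 181767) (.g (nat_lit 2579) (.e (nat_lit 57847) (nat_lit 252) (.e (nat_lit 57435) (nat_lit 17) (.e (nat_lit 376842) (nat_lit 11) (.e (nat_lit 426188) (nat_lit 9) (.e (nat_lit 426442) (nat_lit 19) .nil))))) .nil)) 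
(.lf (nat_lit 181831) (.g (nat_lit 2293) (.e (nat_lit 57847) (nat_lit 252) (.e (nat_lit 57437) (nat_lit 17) (.e (nat_lit 376842) (nat_lit 11) (.e (nat_lit 426188) (nat_lit 9) (.e (nat_lit 426354) (nat_lit 15) .nil))))) .nil))) (.nd (nat_lit 6) 
(.lf (nat_lit 181799) (.g (nat_lit 1955) (.e (nat_lit 57847) (nat_lit 252) (.e (nat_lit 57435) (nat_lit 17) (.e (nat_lit 376842) (nat_lit 11) (.e (nat_lit 426306) (nat_lit 12) (.e (nat_lit 475201) (nat_lit 40) (.e (nat_lit 704620) (nat_lit 9) (.e (nat_lit 1180) (nat_lit 87) .nil))))))) (.g (nat_lit 4) .nil .nil))) 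
(.lf (nat_lit 181863) (.g (nat_lit 2465) (.e (nat_lit 57847) (nat_lit 252) (.e (nat_lit 57437) (nat_lit 17) (.e (nat_lit 376842) (nat_lit 11) (.e (nat_lit 426306) (nat_lit 12) (.e (nat_lit 475195) (nat_lit 40) .nil))))) .nil)))) (.nd (nat_lit 5) (.nd (nat_lit 6) 
(.lf (nat_lit 181783) (.g (nat_lit 2194) (.e (nat_lit 57847) (nat_lit 252) (.e (nat_lit 57435) (nat_lit 17) (.e (nat_lit 376842) (nat_lit 11) (.e (nat_lit 426296) (nat_lit 11) (.e (nat_lit 458774) (nat_lit 18) (.e (nat_lit 5232) (nat_lit 296) (.e (nat_lit 171776) (nat_lit 62) .nil))))))) (.g (nat_lit 5) .nil .nil))) 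
(.lf (nat_lit 181847) (.g (nat_lit 2003) (.e (nat_lit 57847) (nat_lit 252) (.e (nat_lit 57437) (nat_lit 17) (.e (nat_lit 376842) (nat_lit 11) (.e (nat_lit 426200) (nat_lit 9) (.e (nat_lit 433920) (nat_lit 20) .nil))))) .nil))) (.nd (nat_lit 6) 
(.lf (nat_lit 181815) (.g (nat_lit 1742) (.e (nat_lit 57847) (nat_lit 252) (.e (nat_lit 57435) (nat_lit 17) (.e (nat_lit 376842) (nat_lit 11) (.e (nat_lit 426315) (nat_lit 12) (.e (nat_lit 475215) (nat_lit 43) .nil))))) .nil)) 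
(.lf (nat_lit 181879) (.g (nat_lit 3408) (.e (nat_lit 57847) (nat_lit 252) (.e (nat_lit 57437) (nat_lit 17) (.e (nat_lit 376842) (nat_lit 11) (.e (nat_lit 426314) (nat_lit 12) (.e (nat_lit 475212) (nat_lit 42) (.e (nat_lit 720929) (nat_lit 21) .nil)))))) (.g (nat_lit 5) .nil .nil)))))) (.nd (nat_lit 4) (.nd (nat_lit 5) (.nd (nat_lit 6) 
(.lf (nat_lit 181775) (.g (nat_lit 1050) (.e (nat_lit 57847) (nat_lit 252) (.e (nat_lit 57435) (nat_lit 17) (.e (nat_lit 376842) (nat_lit 11) (.e (nat_lit 426198) (nat_lit 9) .nil)))) .nil)) 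
(.lf (nat_lit 181839) (.g (nat_lit 2492) (.e (nat_lit 57847) (nat_lit 252) (.e (nat_lit 57437) (nat_lit 17) (.e (nat_lit 376842) (nat_lit 11) (.e (nat_lit 426188) (nat_lit 9) (.e (nat_lit 426444) (nat_lit 19) (.e (nat_lit 106526) (nat_lit 9) (.e (nat_lit 1170) (nat_lit 87) .nil))))))) (.g (nat_lit 4) .nil .nil)))) (.nd (nat_lit 6) 
(.lf (nat_lit 181807) (.g (nat_lit 2410) (.e (nat_lit 57847) (nat_lit 252) (.e (nat_lit 57435) (nat_lit 17) (.e (nat_lit 376842) (nat_lit 11) (.e (nat_lit 426306) (nat_lit 12) (.e (nat_lit 475214) (nat_lit 42) (.e (nat_lit 728832) (nat_lit 21) .nil)))))) (.g (nat_lit 5) .nil .nil))) 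
(.lf (nat_lit 181871) (.g (nat_lit 2109) (.e (nat_lit 57847) (nat_lit 252) (.e (nat_lit 57437) (nat_lit 17) (.e (nat_lit 376842) (nat_lit 11) (.e (nat_lit 426306) (nat_lit 12) (.e (nat_lit 475201) (nat_lit 40) (.e (nat_lit 704671) (nat_lit 9) (.e (nat_lit 1170) (nat_lit 87) .nil))))))) (.g (nat_lit 4) .nil .nil))))) (.nd (nat_lit 5) (.nd (nat_lit 6) 
(.lf (nat_lit 181791) (.g (nat_lit 2450) (.e (nat_lit 57847) (nat_lit 252) (.e (nat_lit 57435) (nat_lit 17) (.e (nat_lit 376842) (nat_lit 11) (.e (nat_lit 426305) (nat_lit 12) (.e (nat_lit 475212) (nat_lit 42) .nil))))) .nil)) 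
(.lf (nat_lit 181855) (.g (nat_lit 2370) (.e (nat_lit 57847) (nat_lit 252) (.e (nat_lit 57437) (nat_lit 17) (.e (nat_lit 376842) (nat_lit 11) (.e (nat_lit 426298) (nat_lit 11) (.e (nat_lit 458771) (nat_lit 18) (.e (nat_lit 5537) (nat_lit 306) (.e (nat_lit 1077) (nat_lit 81) (.e (nat_lit 1176) (nat_lit 87) .nil)))))))) (.g (nat_lit 4) .nil .nil)))) (.nd (nat_lit 6) 
(.lf (nat_lit 181823) (.g (nat_lit 1750) (.e (nat_lit 57847) (nat_lit 252) (.e (nat_lit 57436) (nat_lit 17) (.e (nat_lit 376842) (nat_lit 11) (.e (nat_lit 426199) (nat_lit 9) (.e (nat_lit 426446) (nat_lit 20) .nil))))) .nil)) 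
(.lf (nat_lit 181887) (.g (nat_lit 3105) (.e (nat_lit 57847) (nat_lit 252) (.e (nat_lit 57437) (nat_lit 17) (.e (nat_lit 376842) (nat_lit 11) (.e (nat_lit 426316) (nat_lit 12) (.e (nat_lit 475197) (nat_lit 40) (.e (nat_lit 704612) (nat_lit 9) (.e (nat_lit 1173) (nat_lit 87) .nil))))))) (.g (nat_lit 4) .nil .nil))))))))))

noncomputable def tv2432 : DT := (.nd (nat_lit 0) (.nd (nat_lit 1) (.nd (nat_lit 2) (.nd (nat_lit 3) (.nd (nat_lit 4) (.nd (nat_lit 5) (.nd (nat_lit 6) 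
(.lf (nat_lit 181888) (.g (nat_lit 3439) (.e (nat_lit 57847) (nat_lit 252) (.e (nat_lit 57437) (nat_lit 17) (.e (nat_lit 376842) (nat_lit 11) (.e (nat_lit 426316) (nat_lit 12) (.e (nat_lit 475212) (nat_lit 42) (.e (nat_lit 720933) (nat_lit 21) .nil)))))) (.g (nat_lit 5) .nil .nil))) 
(.lf (nat_lit 181952) (.g (nat_lit 3738) (.e (nat_lit 57847) (nat_lit 252) (.e (nat_lit 57445) (nat_lit 19) (.e (nat_lit 393229) (nat_lit 9) (.e (nat_lit 336201) (nat_lit 12) (.e (nat_lit 385068) (nat_lit 26) (.e (nat_lit 532503) (nat_lit 1) .nil)))))) (.g (nat_lit 6) .nil .nil)))) (.nd (nat_lit 6) 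
(.lf (nat_lit 181920) (.g (nat_lit 3201) (.e (nat_lit 57847) (nat_lit 252) (.e (nat_lit 57445) (nat_lit 19) (.e (nat_lit 393225) (nat_lit 9) (.e (nat_lit 336196) (nat_lit 12) (.e (nat_lit 385066) (nat_lit 26) (.e (nat_lit 532502) (nat_lit 1) .nil)))))) (.g (nat_lit 5) .nil .nil))) 
(.lf (nat_lit 181984) (.g (nat_lit 2344) (.e (nat_lit 57847) (nat_lit 252) (.e (nat_lit 57447) (nat_lit 19) (.e (nat_lit 393229) (nat_lit 9) (.e (nat_lit 336086) (nat_lit 9) (.e (nat_lit 336260) (nat_lit 15) .nil))))) .nil)))) (.nd (nat_lit 5) (.nd (nat_lit 6) 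
(.lf (nat_lit 181904) (.g (nat_lit 2588) (.e (nat_lit 57847) (nat_lit 252) (.e (nat_lit 57437) (nat_lit 17) (.e (nat_lit 376860) (nat_lit 21) (.e (nat_lit 57931) (nat_lit 282) (.e (nat_lit 164084) (nat_lit 73) (.e (nat_lit 335996) (nat_lit 1) (.e (nat_lit 57854) (nat_lit 252) (.e (nat_lit 57366) (nat_lit 1) .nil)))))))) (.g (nat_lit 4) .nil .nil))) 
(.lf (nat_lit 181968) (.g (nat_lit 1204) (.e (nat_lit 57847) (nat_lit 252) (.e (nat_lit 57447) (nat_lit 19) (.e (nat_lit 393224) (nat_lit 9) .nil))) .nil))) (.nd (nat_lit 6) 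
(.lf (nat_lit 181936) (.g (nat_lit 3458) (.e (nat_lit 57847) (nat_lit 252) (.e (nat_lit 57445) (nat_lit 19) (.e (nat_lit 393229) (nat_lit 9) (.e (nat_lit 336085) (nat_lit 9) (.e (nat_lit 336326) (nat_lit 18) (.e (nat_lit 204831) (nat_lit 18) .nil)))))) (.g (nat_lit 6) .nil .nil))) 
(.lf (nat_lit 182000) (.g (nat_lit 1721) (.e (nat_lit 57847) (nat_lit 252) (.e (nat_lit 57448) (nat_lit 19) (.e (nat_lit 393228) (nat_lit 9) (.e (nat_lit 336076) (nat_lit 9) (.e (nat_lit 336326) (nat_lit 18) .nil))))) .nil))))) (.nd (nat_lit 4) (.nd (nat_lit 5) (.nd (nat_lit 6) 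
(.lf (nat_lit 181896) (.g (nat_lit 2621) (.e (nat_lit 57847) (nat_lit 252) (.e (nat_lit 57437) (nat_lit 17) (.e (nat_lit 376859) (nat_lit 21) (.e (nat_lit 57931) (nat_lit 282) (.e (nat_lit 164084) (nat_lit 73) (.e (nat_lit 335995) (nat_lit 1) (.e (nat_lit 57849) (nat_lit 252) (.e (nat_lit 57363) (nat_lit 1) .nil)))))))) (.g (nat_lit 4) .nil .nil))) 
(.lf (nat_lit 181960) (.g (nat_lit 804) (.e (nat_lit 57847) (nat_lit 252) (.e (nat_lit 57446) (nat_lit 19) (.e (nat_lit 393229) (nat_lit 9) (.e (nat_lit 336088) (nat_lit 9) .nil)))) .nil))) (.nd (nat_lit 6) 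
(.lf (nat_lit 181928) (.g (nat_lit 3950) (.e (nat_lit 57847) (nat_lit 252) (.e (nat_lit 57445) (nat_lit 19) (.e (nat_lit 393229) (nat_lit 9) (.e (nat_lit 335914) (nat_lit 0) .nil)))) .nil)) 
(.lf (nat_lit 181992) (.g (nat_lit 1851) (.e (nat_lit 57847) (nat_lit 252) (.e (nat_lit 57447) (nat_lit 19) (.e (nat_lit 393229) (nat_lit 9) (.e (nat_lit 343808) (nat_lit 12) .nil)))) .nil)))) (.nd (nat_lit 5) (.nd (nat_lit 6) 
(.lf (nat_lit 181912) (.g (nat_lit 3740) (.e (nat_lit 57847) (nat_lit 252) (.e (nat_lit 57440) (nat_lit 18) (.e (nat_lit 385068) (nat_lit 26) (.e (nat_lit 532560) (nat_lit 14) (.e (nat_lit 376860) (nat_lit 21) (.e (nat_lit 57692) (nat_lit 156) (.e (nat_lit 171776) (nat_lit 62) .nil))))))) (.g (nat_lit 6) .nil .nil))) 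
(.lf (nat_lit 181976) (.g (nat_lit 3140) (.e (nat_lit 57847) (nat_lit 252) (.e (nat_lit 57447) (nat_lit 19) (.e (nat_lit 393225) (nat_lit 9) (.e (nat_lit 336204) (nat_lit 12) (.e (nat_lit 385066) (nat_lit 26) (.e (nat_lit 532502) (nat_lit 1) .nil)))))) (.g (nat_lit 5) .nil .nil)))) (.nd (nat_lit 6) 
(.lf (nat_lit 181944) (.g (nat_lit 4066) (.e (nat_lit 57847) (nat_lit 252) (.e (nat_lit 57445) (nat_lit 19) (.e (nat_lit 393229) (nat_lit 9) (.e (nat_lit 336105) (nat_lit 9) .nil)))) .nil)) 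
(.lf (nat_lit 182008) (.g (nat_lit 1707) (.e (nat_lit 57847) (nat_lit 252) (.e (nat_lit 57448) (nat_lit 19) (.e (nat_lit 393234) (nat_lit 17) (.e (nat_lit 2399) (nat_lit 157) .nil)))) .nil)))))) (.nd (nat_lit 3) (.nd (nat_lit 4) (.nd (nat_lit 5) (.nd (nat_lit 6) 
(.lf (nat_lit 181892) (.g (nat_lit 396) (.e (nat_lit 57847) (nat_lit 252) (.e (nat_lit 57437) (nat_lit 17) (.e (nat_lit 384768) (nat_lit 14) .nil))) .nil)) 
(.lf (nat_lit 181956) (.g (nat_lit 1489) (.e (nat_lit 57847) (nat_lit 252) (.e (nat_lit 57446) (nat_lit 19) (.e (nat_lit 393229) (nat_lit 9) (.e (nat_lit 336085) (nat_lit 9) .nil)))) .nil))) (.nd (nat_lit 6) 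
(.lf (nat_lit 181924) (.g (nat_lit 4101) (.e (nat_lit 57847) (nat_lit 252) (.e (nat_lit 57445) (nat_lit 19) (.e (nat_lit 393229) (nat_lit 9) (.e (nat_lit 335892) (nat_lit 0) .nil)))) .nil)) 
(.lf (nat_lit 181988) (.g (nat_lit 1851) (.e (nat_lit 57847) (nat_lit 252) (.e (nat_lit 57447) (nat_lit 19) (.e (nat_lit 393229) (nat_lit 9) (.e (nat_lit 343808) (nat_lit 9) .nil)))) .nil)))) (.nd (nat_lit 5) (.nd (nat_lit 6) 
(.lf (nat_lit 181908) (.g (nat_lit 1985) (.e (nat_lit 57847) (nat_lit 252) (.e (nat_lit 57440) (nat_lit 18) (.e (nat_lit 385066) (nat_lit 26) (.e (nat_lit 532534) (nat_lit 9) (.e (nat_lit 336310) (nat_lit 16) .nil))))) .nil)) 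
(.lf (nat_lit 181972) (.g (nat_lit 1627) (.e (nat_lit 57847) (nat_lit 252) (.e (nat_lit 57447) (nat_lit 19) (.e (nat_lit 393225) (nat_lit 9) (.e (nat_lit 336084) (nat_lit 9) .nil)))) .nil))) (.nd (nat_lit 6) 
(.lf (nat_lit 181940) (.g (nat_lit 2138) (.e (nat_lit 57847) (nat_lit 252) (.e (nat_lit 57445) (nat_lit 19) (.e (nat_lit 393229) (nat_lit 9) (.e (nat_lit 336086) (nat_lit 9) (.e (nat_lit 343808) (nat_lit 18) (.e (nat_lit 204831) (nat_lit 18) .nil)))))) (.g (nat_lit 4) .nil .nil))) 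
(.lf (nat_lit 182004) (.g (nat_lit 1756) (.e (nat_lit 57847) (nat_lit 252) (.e (nat_lit 57448) (nat_lit 19) (.e (nat_lit 393229) (nat_lit 9) (.e (nat_lit 336086) (nat_lit 9) (.e (nat_lit 343808) (nat_lit 18) .nil))))) .nil))))) (.nd (nat_lit 4) (.nd (nat_lit 5) (.nd (nat_lit 6) 
(.lf (nat_lit 181900) (.g (nat_lit 3857) (.e (nat_lit 57847) (nat_lit 252) (.e (nat_lit 57437) (nat_lit 17) (.e (nat_lit 376860) (nat_lit 21) (.e (nat_lit 57931) (nat_lit 282) (.e (nat_lit 164084) (nat_lit 73) (.e (nat_lit 335986) (nat_lit 1) (.e (nat_lit 57847) (nat_lit 252) (.e (nat_lit 57363) (nat_lit 1) .nil)))))))) (.g (nat_lit 6) .nil .nil))) 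
(.lf (nat_lit 181964) (.g (nat_lit 2515) (.e (nat_lit 57847) (nat_lit 252) (.e (nat_lit 57446) (nat_lit 19) (.e (nat_lit 393229) (nat_lit 9) (.e (nat_lit 336201) (nat_lit 12) (.e (nat_lit 385068) (nat_lit 26) .nil))))) .nil))) (.nd (nat_lit 6) 
(.lf (nat_lit 181932) (.g (nat_lit 3007) (.e (nat_lit 57847) (nat_lit 252) (.e (nat_lit 57445) (nat_lit 19) (.e (nat_lit 393229) (nat_lit 9) (.e (nat_lit 336074) (nat_lit 9) .nil)))) .nil)) 
(.lf (nat_lit 181996) (.g (nat_lit 1283) (.e (nat_lit 57847) (nat_lit 252) (.e (nat_lit 57448) (nat_lit 19) (.e (nat_lit 393225) (nat_lit 9) (.e (nat_lit 336078) (nat_lit 9) .nil)))) .nil)))) (.nd (nat_lit 5) (.nd (nat_lit 6) 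
(.lf (nat_lit 181916) (.g (nat_lit 2961) (.e (nat_lit 57847) (nat_lit 252) (.e (nat_lit 57445) (nat_lit 19) (.e (nat_lit 393225) (nat_lit 9) (.e (nat_lit 336088) (nat_lit 9) (.e (nat_lit 336326) (nat_lit 18) (.e (nat_lit 204831) (nat_lit 18) .nil)))))) (.g (nat_lit 5) .nil .nil))) 
(.lf (nat_lit 181980) (.g (nat_lit 2266) (.e (nat_lit 57847) (nat_lit 252) (.e (nat_lit 57447) (nat_lit 19) (.e (nat_lit 393229) (nat_lit 9) (.e (nat_lit 336078) (nat_lit 9) (.e (nat_lit 336322) (nat_lit 18) .nil))))) .nil))) (.nd (nat_lit 6) 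
(.lf (nat_lit 181948) (.g (nat_lit 4089) (.e (nat_lit 57847) (nat_lit 252) (.e (nat_lit 57445) (nat_lit 19) (.e (nat_lit 393229) (nat_lit 9) (.e (nat_lit 336155) (nat_lit 9) .nil)))) .nil)) 
(.lf (nat_lit 182012) (.g (nat_lit 4708) (.e (nat_lit 57848) (nat_lit 252) (.e (nat_lit 57365) (nat_lit 1) (.e (nat_lit 57830) (nat_lit 250) (.e (nat_lit 1201) (nat_lit 88) (.e (nat_lit 65586) (nat_lit 7) (.e (nat_lit 319531) (nat_lit 16) (.e (nat_lit 286749) (nat_lit 9) (.e (nat_lit 335997) (nat_lit 1) .nil)))))))) (.g (nat_lit 0) .nil .nil)))))))) 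
(.nd (nat_lit 2) (.nd (nat_lit 3) (.nd (nat_lit 4) (.nd (nat_lit 5) (.nd (nat_lit 6) 
(.lf (nat_lit 181890) (.g (nat_lit 1397) (.e (nat_lit 57847) (nat_lit 252) (.e (nat_lit 57437) (nat_lit 17) (.e (nat_lit 384768) (nat_lit 13) (.e (nat_lit 442395) (nat_lit 20) (.e (nat_lit 2403) (nat_lit 157) (.e (nat_lit 5573) (nat_lit 308) (.e (nat_lit 57363) (nat_lit 1) .nil))))))) (.g (nat_lit 5) .nil .nil))) 
(.lf (nat_lit 181954) (.g (nat_lit 3861) (.e (nat_lit 57847) (nat_lit 252) (.e (nat_lit 57445) (nat_lit 19) (.e (nat_lit 393229) (nat_lit 9) (.e (nat_lit 336202) (nat_lit 12) (.e (nat_lit 385068) (nat_lit 26) (.e (nat_lit 532503) (nat_lit 1) .nil)))))) (.g (nat_lit 6) .nil .nil)))) (.nd (nat_lit 6) 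
(.lf (nat_lit 181922) (.g (nat_lit 3552) (.e (nat_lit 57847) (nat_lit 252) (.e (nat_lit 57445) (nat_lit 19) (.e (nat_lit 393225) (nat_lit 9) (.e (nat_lit 336201) (nat_lit 12) (.e (nat_lit 385068) (nat_lit 26) (.e (nat_lit 532503) (nat_lit 1) .nil)))))) (.g (nat_lit 6) .nil .nil))) 
(.lf (nat_lit 181986) (.g (nat_lit 1814) (.e (nat_lit 57847) (nat_lit 252) (.e (nat_lit 57447) (nat_lit 19) (.e (nat_lit 393229) (nat_lit 9) (.e (nat_lit 336087) (nat_lit 9) (.e (nat_lit 336326) (nat_lit 18) .nil))))) .nil)))) (.nd (nat_lit 5) (.nd (nat_lit 6) 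
(.lf (nat_lit 181906) (.g (nat_lit 1755) (.e (nat_lit 57847) (nat_lit 252) (.e (nat_lit 57438) (nat_lit 17) (.e (nat_lit 376842) (nat_lit 11) (.e (nat_lit 426198) (nat_lit 9) (.e (nat_lit 426446) (nat_lit 20) .nil))))) .nil)) 
(.lf (nat_lit 181970) (.g (nat_lit 1388) (.e (nat_lit 57847) (nat_lit 252) (.e (nat_lit 57447) (nat_lit 19) (.e (nat_lit 393224) (nat_lit 9) (.e (nat_lit 336078) (nat_lit 9) .nil)))) .nil))) (.nd (nat_lit 6) 
(.lf (nat_lit 181938) (.g (nat_lit 3133) (.e (nat_lit 57847) (nat_lit 252) (.e (nat_lit 57445) (nat_lit 19) (.e (nat_lit 393229) (nat_lit 9) (.e (nat_lit 336086) (nat_lit 9) (.e (nat_lit 336326) (nat_lit 18) (.e (nat_lit 204831) (nat_lit 18) .nil)))))) (.g (nat_lit 6) .nil .nil))) 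
(.lf (nat_lit 182002) (.g (nat_lit 431) (.e (nat_lit 57847) (nat_lit 252) (.e (nat_lit 57448) (nat_lit 19) (.e (nat_lit 393229) (nat_lit 9) .nil))) .nil))))) (.nd (nat_lit 4) (.nd (nat_lit 5) (.nd (nat_lit 6) 
(.lf (nat_lit 181898) (.g (nat_lit 3373) (.e (nat_lit 57847) (nat_lit 252) (.e (nat_lit 57437) (nat_lit 17) (.e (nat_lit 376860) (nat_lit 21) (.e (nat_lit 57930) (nat_lit 282) (.e (nat_lit 164084) (nat_lit 73) (.e (nat_lit 335986) (nat_lit 1) (.e (nat_lit 57847) (nat_lit 252) (.e (nat_lit 57363) (nat_lit 1) .nil)))))))) (.g (nat_lit 6) .nil .nil))) 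
(.lf (nat_lit 181962) (.g (nat_lit 2924) (.e (nat_lit 57847) (nat_lit 252) (.e (nat_lit 57446) (nat_lit 19) (.e (nat_lit 393229) (nat_lit 9) (.e (nat_lit 336196) (nat_lit 12) (.e (nat_lit 385068) (nat_lit 26) .nil))))) .nil))) (.nd (nat_lit 6) 
(.lf (nat_lit 181930) (.g (nat_lit 3964) (.e (nat_lit 57847) (nat_lit 252) (.e (nat_lit 57445) (nat_lit 19) (.e (nat_lit 393229) (nat_lit 9) (.e (nat_lit 336069) (nat_lit 8) .nil)))) .nil)) 
(.lf (nat_lit 181994) (.g (nat_lit 610) (.e (nat_lit 57847) (nat_lit 252) (.e (nat_lit 57448) (nat_lit 19) (.e (nat_lit 393224) (nat_lit 9) .nil))) .nil)))) (.nd (nat_lit 5) (.nd (nat_lit 6) 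
(.lf (nat_lit 181914) (.g (nat_lit 696) (.e (nat_lit 57847) (nat_lit 252) (.e (nat_lit 57445) (nat_lit 19) (.e (nat_lit 393224) (nat_lit 9) .nil))) .nil)) 
(.lf (nat_lit 181978) (.g (nat_lit 462) (.e (nat_lit 57847) (nat_lit 252) (.e (nat_lit 57447) (nat_lit 19) (.e (nat_lit 393229) (nat_lit 9) .nil))) .nil))) (.nd (nat_lit 6) 
(.lf (nat_lit 181946) (.g (nat_lit 3678) (.e (nat_lit 57847) (nat_lit 252) (.e (nat_lit 57445) (nat_lit 19) (.e (nat_lit 393229) (nat_lit 9) (.e (nat_lit 336150) (nat_lit 9) .nil)))) .nil)) 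
(.lf (nat_lit 182010) (.g (nat_lit 2818) (.e (nat_lit 57847) (nat_lit 252) (.e (nat_lit 57448) (nat_lit 19) (.e (nat_lit 393251) (nat_lit 18) (.e (nat_lit 164179) (nat_lit 154) (.e (nat_lit 57365) (nat_lit 1) .nil))))) .nil)))))) (.nd (nat_lit 3) (.nd (nat_lit 4) (.nd (nat_lit 5) (.nd (nat_lit 6) 
(.lf (nat_lit 181894) (.g (nat_lit 3052) (.e (nat_lit 57847) (nat_lit 252) (.e (nat_lit 57437) (nat_lit 17) (.e (nat_lit 376859) (nat_lit 21) (.e (nat_lit 57931) (nat_lit 282) (.e (nat_lit 164084) (nat_lit 73) (.e (nat_lit 335986) (nat_lit 1) (.e (nat_lit 57847) (nat_lit 252) (.e (nat_lit 57363) (nat_lit 1) .nil)))))))) (.g (nat_lit 4) .nil .nil))) 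
(.lf (nat_lit 181958) (.g (nat_lit 3802) (.e (nat_lit 57847) (nat_lit 252) (.e (nat_lit 57446) (nat_lit 19) (.e (nat_lit 393229) (nat_lit 9) (.e (nat_lit 336086) (nat_lit 9) (.e (nat_lit 336306) (nat_lit 15) .nil))))) .nil))) (.nd (nat_lit 6) 
(.lf (nat_lit 181926) (.g (nat_lit 3954) (.e (nat_lit 57847) (nat_lit 252) (.e (nat_lit 57445) (nat_lit 19) (.e (nat_lit 393229) (nat_lit 9) (.e (nat_lit 335894) (nat_lit 0) .nil)))) .nil)) 
(.lf (nat_lit 181990) (.g (nat_lit 2225) (.e (nat_lit 57847) (nat_lit 252) (.e (nat_lit 57447) (nat_lit 19) (.e (nat_lit 393229) (nat_lit 9) (.e (nat_lit 336196) (nat_lit 12) (.e (nat_lit 385064) (nat_lit 26) .nil))))) .nil)))) (.nd (nat_lit 5) (.nd (nat_lit 6) 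
(.lf (nat_lit 181910) (.g (nat_lit 2714) (.e (nat_lit 57847) (nat_lit 252) (.e (nat_lit 57440) (nat_lit 18) (.e (nat_lit 385068) (nat_lit 26) (.e (nat_lit 532530) (nat_lit 9) (.e (nat_lit 336310) (nat_lit 16) .nil))))) .nil)) 
(.lf (nat_lit 181974) (.g (nat_lit 1898) (.e (nat_lit 57847) (nat_lit 252) (.e (nat_lit 57447) (nat_lit 19) (.e (nat_lit 393225) (nat_lit 9) (.e (nat_lit 336195) (nat_lit 12) (.e (nat_lit 385068) (nat_lit 26) .nil))))) .nil))) (.nd (nat_lit 6) 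
(.lf (nat_lit 181942) (.g (nat_lit 3580) (.e (nat_lit 57847) (nat_lit 252) (.e (nat_lit 57445) (nat_lit 19) (.e (nat_lit 393229) (nat_lit 9) (.e (nat_lit 336091) (nat_lit 9) .nil)))) .nil)) 
(.lf (nat_lit 182006) (.g (nat_lit 1638) (.e (nat_lit 57847) (nat_lit 252) (.e (nat_lit 57448) (nat_lit 19) (.e (nat_lit 393229) (nat_lit 9) (.e (nat_lit 336203) (nat_lit 12) (.e (nat_lit 385065) (nat_lit 26) .nil))))) .nil))))) (.nd (nat_lit 4) (.nd (nat_lit 5) (.nd (nat_lit 6) 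
(.lf (nat_lit 181902) (.g (nat_lit 2659) (.e (nat_lit 57847) (nat_lit 252) (.e (nat_lit 57437) (nat_lit 17) (.e (nat_lit 376860) (nat_lit 21) (.e (nat_lit 57931) (nat_lit 282) (.e (nat_lit 164084) (nat_lit 73) (.e (nat_lit 335995) (nat_lit 1) (.e (nat_lit 57847) (nat_lit 252) (.e (nat_lit 57367) (nat_lit 1) .nil)))))))) (.g (nat_lit 4) .nil .nil))) 
(.lf (nat_lit 181966) (.g (nat_lit 3098) (.e (nat_lit 57847) (nat_lit 252) (.e (nat_lit 57446) (nat_lit 19) (.e (nat_lit 393229) (nat_lit 9) (.e (nat_lit 336204) (nat_lit 12) (.e (nat_lit 385067) (nat_lit 26) (.e (nat_lit 532499) (nat_lit 1) .nil)))))) (.g (nat_lit 6) .nil .nil)))) (.nd (nat_lit 6) 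
(.lf (nat_lit 181934) (.g (nat_lit 1844) (.e (nat_lit 57847) (nat_lit 252) (.e (nat_lit 57445) (nat_lit 19) (.e (nat_lit 393229) (nat_lit 9) (.e (nat_lit 336084) (nat_lit 9) .nil)))) .nil)) 
(.lf (nat_lit 181998) (.g (nat_lit 3852) (.e (nat_lit 57847) (nat_lit 252) (.e (nat_lit 57448) (nat_lit 19) (.e (nat_lit 393225) (nat_lit 9) (.e (nat_lit 336196) (nat_lit 12) (.e (nat_lit 385068) (nat_lit 26) (.e (nat_lit 532503) (nat_lit 1) .nil)))))) (.g (nat_lit 6) .nil .nil))))) (.nd (nat_lit 5) (.nd (nat_lit 6) 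
(.lf (nat_lit 181918) (.g (nat_lit 3535) (.e (nat_lit 57847) (nat_lit 252) (.e (nat_lit 57445) (nat_lit 19) (.e (nat_lit 393225) (nat_lit 9) (.e (nat_lit 336194) (nat_lit 12) (.e (nat_lit 385068) (nat_lit 26) (.e (nat_lit 532503) (nat_lit 1) .nil)))))) (.g (nat_lit 6) .nil .nil))) 
(.lf (nat_lit 181982) (.g (nat_lit 1808) (.e (nat_lit 57847) (nat_lit 252) (.e (nat_lit 57447) (nat_lit 19) (.e (nat_lit 393229) (nat_lit 9) (.e (nat_lit 336085) (nat_lit 9) .nil)))) .nil))) (.nd (nat_lit 6) 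
(.lf (nat_lit 181950) (.g (nat_lit 2605) (.e (nat_lit 57847) (nat_lit 252) (.e (nat_lit 57445) (nat_lit 19) (.e (nat_lit 393229) (nat_lit 9) (.e (nat_lit 336195) (nat_lit 12) .nil)))) .nil)) 
(.lf (nat_lit 182014) (.g (nat_lit 2100) (.e (nat_lit 57848) (nat_lit 252) (.e (nat_lit 57365) (nat_lit 1) (.e (nat_lit 57852) (nat_lit 252) (.e (nat_lit 57427) (nat_lit 15) (.e (nat_lit 360478) (nat_lit 12) .nil))))) .nil)))))))) (.nd (nat_lit 1) (.nd (nat_lit 2) (.nd (nat_lit 3) (.nd (nat_lit 4) (.nd (nat_lit 5) (.nd (nat_lit 6) 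
(.lf (nat_lit 181889) (.g (nat_lit 396) (.e (nat_lit 57847) (nat_lit 252) (.e (nat_lit 57437) (nat_lit 17) (.e (nat_lit 384768) (nat_lit 13) .nil))) .nil)) 
(.lf (nat_lit 181953) (.g (nat_lit 3318) (.e (nat_lit 57847) (nat_lit 252) (.e (nat_lit 57445) (nat_lit 19) (.e (nat_lit 393229) (nat_lit 9) (.e (nat_lit 336202) (nat_lit 12) (.e (nat_lit 385066) (nat_lit 26) (.e (nat_lit 532502) (nat_lit 1) .nil)))))) (.g (nat_lit 5) .nil .nil)))) (.nd (nat_lit 6) 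
(.lf (nat_lit 181921) (.g (nat_lit 4022) (.e (nat_lit 57847) (nat_lit 252) (.e (nat_lit 57445) (nat_lit 19) (.e (nat_lit 393225) (nat_lit 9) (.e (nat_lit 336196) (nat_lit 12) (.e (nat_lit 385068) (nat_lit 26) (.e (nat_lit 532503) (nat_lit 1) .nil)))))) (.g (nat_lit 6) .nil .nil))) 
(.lf (nat_lit 181985) (.g (nat_lit 2439) (.e (nat_lit 57847) (nat_lit 252) (.e (nat_lit 57447) (nat_lit 19) (.e (nat_lit 393229) (nat_lit 9) (.e (nat_lit 336086) (nat_lit 9) (.e (nat_lit 336270) (nat_lit 15) .nil))))) .nil)))) (.nd (nat_lit 5) (.nd (nat_lit 6) 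
(.lf (nat_lit 181905) (.g (nat_lit 1583) (.e (nat_lit 57847) (nat_lit 252) (.e (nat_lit 57438) (nat_lit 17) (.e (nat_lit 376842) (nat_lit 11) (.e (nat_lit 426190) (nat_lit 9) (.e (nat_lit 426446) (nat_lit 20) .nil))))) .nil)) 
(.lf (nat_lit 181969) (.g (nat_lit 2445) (.e (nat_lit 57847) (nat_lit 252) (.e (nat_lit 57447) (nat_lit 19) (.e (nat_lit 393224) (nat_lit 9) (.e (nat_lit 336076) (nat_lit 9) (.e (nat_lit 336324) (nat_lit 18) .nil))))) .nil))) (.nd (nat_lit 6) 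
(.lf (nat_lit 181937) (.g (nat_lit 1828) (.e (nat_lit 57847) (nat_lit 252) (.e (nat_lit 57445) (nat_lit 19) (.e (nat_lit 393229) (nat_lit 9) (.e (nat_lit 336086) (nat_lit 9) (.e (nat_lit 336247) (nat_lit 15) .nil))))) .nil)) 
(.lf (nat_lit 182001) (.g (nat_lit 1694) (.e (nat_lit 57847) (nat_lit 252) (.e (nat_lit 57448) (nat_lit 19) (.e (nat_lit 393228) (nat_lit 9) (.e (nat_lit 336088) (nat_lit 9) (.e (nat_lit 336326) (nat_lit 18) .nil))))) .nil))))) (.nd (nat_lit 4) (.nd (nat_lit 5) (.nd (nat_lit 6) 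
(.lf (nat_lit 181897) (.g (nat_lit 1425) (.e (nat_lit 57847) (nat_lit 252) (.e (nat_lit 57437) (nat_lit 17) (.e (nat_lit 376860) (nat_lit 21) (.e (nat_lit 57909) (nat_lit 278) (.e (nat_lit 2553) (nat_lit 159) .nil))))) .nil)) 
(.lf (nat_lit 181961) (.g (nat_lit 1559) (.e (nat_lit 57847) (nat_lit 252) (.e (nat_lit 57446) (nat_lit 19) (.e (nat_lit 393229) (nat_lit 9) (.e (nat_lit 336088) (nat_lit 9) (.e (nat_lit 336303) (nat_lit 15) .nil))))) .nil))) (.nd (nat_lit 6) 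
(.lf (nat_lit 181929) (.g (nat_lit 4048) (.e (nat_lit 57847) (nat_lit 252) (.e (nat_lit 57445) (nat_lit 19) (.e (nat_lit 393229) (nat_lit 9) (.e (nat_lit 336067) (nat_lit 8) .nil)))) .nil)) 
(.lf (nat_lit 181993) (.g (nat_lit 1174) (.e (nat_lit 57847) (nat_lit 252) (.e (nat_lit 57447) (nat_lit 19) (.e (nat_lit 393238) (nat_lit 17) .nil))) .nil)))) (.nd (nat_lit 5) (.nd (nat_lit 6) 
(.lf (nat_lit 181913) (.g (nat_lit 696) (.e (nat_lit 57847) (nat_lit 252) (.e (nat_lit 57445) (nat_lit 19) (.e (nat_lit 393217) (nat_lit 0) .nil))) .nil)) 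
(.lf (nat_lit 181977) (.g (nat_lit 994) (.e (nat_lit 57847) (nat_lit 252) (.e (nat_lit 57447) (nat_lit 19) (.e (nat_lit 393228) (nat_lit 9) .nil))) .nil))) (.nd (nat_lit 6) 
(.lf (nat_lit 181945) (.g (nat_lit 3676) (.e (nat_lit 57847) (nat_lit 252) (.e (nat_lit 57445) (nat_lit 19) (.e (nat_lit 393229) (nat_lit 9) (.e (nat_lit 336107) (nat_lit 9) .nil)))) .nil)) 
(.lf (nat_lit 182009) (.g (nat_lit 1539) (.e (nat_lit 57847) (nat_lit 252) (.e (nat_lit 57448) (nat_lit 19) (.e (nat_lit 393234) (nat_lit 17) (.e (nat_lit 2411) (nat_lit 157) .nil)))) .nil)))))) (.nd (nat_lit 3) (.nd (nat_lit 4) (.nd (nat_lit 5) (.nd (nat_lit 6) 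
(.lf (nat_lit 181893) (.g (nat_lit 2316) (.e (nat_lit 57847) (nat_lit 252) (.e (nat_lit 57437) (nat_lit 17) (.e (nat_lit 376859) (nat_lit 21) (.e (nat_lit 57931) (nat_lit 282) (.e (nat_lit 164084) (nat_lit 73) .nil))))) .nil)) 
(.lf (nat_lit 181957) (.g (nat_lit 2383) (.e (nat_lit 57847) (nat_lit 252) (.e (nat_lit 57446) (nat_lit 19) (.e (nat_lit 393229) (nat_lit 9) (.e (nat_lit 336086) (nat_lit 9) .nil)))) .nil))) (.nd (nat_lit 6) 
(.lf (nat_lit 181925) (.g (nat_lit 4091) (.e (nat_lit 57847) (nat_lit 252) (.e (nat_lit 57445) (nat_lit 19) (.e (nat_lit 393229) (nat_lit 9) (.e (nat_lit 335893) (nat_lit 0) .nil)))) .nil)) 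
(.lf (nat_lit 181989) (.g (nat_lit 1851) (.e (nat_lit 57847) (nat_lit 252) (.e (nat_lit 57447) (nat_lit 19) (.e (nat_lit 393229) (nat_lit 9) (.e (nat_lit 336195) (nat_lit 12) .nil)))) .nil)))) (.nd (nat_lit 5) (.nd (nat_lit 6) 
(.lf (nat_lit 181909) (.g (nat_lit 3394) (.e (nat_lit 57847) (nat_lit 252) (.e (nat_lit 57440) (nat_lit 18) (.e (nat_lit 385066) (nat_lit 26) (.e (nat_lit 532560) (nat_lit 14) (.e (nat_lit 376860) (nat_lit 21) (.e (nat_lit 57692) (nat_lit 156) (.e (nat_lit 171776) (nat_lit 62) .nil))))))) (.g (nat_lit 6) .nil .nil))) 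
(.lf (nat_lit 181973) (.g (nat_lit 2892) (.e (nat_lit 57847) (nat_lit 252) (.e (nat_lit 57447) (nat_lit 19) (.e (nat_lit 393225) (nat_lit 9) (.e (nat_lit 336194) (nat_lit 12) (.e (nat_lit 385066) (nat_lit 26) (.e (nat_lit 532502) (nat_lit 1) .nil)))))) (.g (nat_lit 5) .nil .nil)))) (.nd (nat_lit 6) 
(.lf (nat_lit 181941) (.g (nat_lit 2543) (.e (nat_lit 57847) (nat_lit 252) (.e (nat_lit 57445) (nat_lit 19) (.e (nat_lit 393229) (nat_lit 9) (.e (nat_lit 336087) (nat_lit 9) .nil)))) .nil)) 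
(.lf (nat_lit 182005) (.g (nat_lit 1649) (.e (nat_lit 57847) (nat_lit 252) (.e (nat_lit 57448) (nat_lit 19) (.e (nat_lit 393229) (nat_lit 9) (.e (nat_lit 336087) (nat_lit 9) (.e (nat_lit 336326) (nat_lit 18) .nil))))) .nil))))) (.nd (nat_lit 4) (.nd (nat_lit 5) (.nd (nat_lit 6) 
(.lf (nat_lit 181901) (.g (nat_lit 3196) (.e (nat_lit 57847) (nat_lit 252) (.e (nat_lit 57437) (nat_lit 17) (.e (nat_lit 376860) (nat_lit 21) (.e (nat_lit 57931) (nat_lit 282) (.e (nat_lit 164084) (nat_lit 73) (.e (nat_lit 335995) (nat_lit 1) (.e (nat_lit 57847) (nat_lit 252) (.e (nat_lit 57363) (nat_lit 1) .nil)))))))) (.g (nat_lit 5) .nil .nil))) 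
(.lf (nat_lit 181965) (.g (nat_lit 3511) (.e (nat_lit 57847) (nat_lit 252) (.e (nat_lit 57446) (nat_lit 19) (.e (nat_lit 393229) (nat_lit 9) (.e (nat_lit 336203) (nat_lit 12) (.e (nat_lit 385067) (nat_lit 26) (.e (nat_lit 532499) (nat_lit 1) .nil)))))) (.g (nat_lit 6) .nil .nil)))) (.nd (nat_lit 6) 
(.lf (nat_lit 181933) (.g (nat_lit 2236) (.e (nat_lit 57847) (nat_lit 252) (.e (nat_lit 57445) (nat_lit 19) (.e (nat_lit 393229) (nat_lit 9) (.e (nat_lit 336075) (nat_lit 9) .nil)))) .nil)) 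
(.lf (nat_lit 181997) (.g (nat_lit 3045) (.e (nat_lit 57847) (nat_lit 252) (.e (nat_lit 57448) (nat_lit 19) (.e (nat_lit 393225) (nat_lit 9) (.e (nat_lit 336196) (nat_lit 12) (.e (nat_lit 385066) (nat_lit 26) (.e (nat_lit 532502) (nat_lit 1) .nil)))))) (.g (nat_lit 5) .nil .nil))))) (.nd (nat_lit 5) (.nd (nat_lit 6) 
(.lf (nat_lit 181917) (.g (nat_lit 3839) (.e (nat_lit 57847) (nat_lit 252) (.e (nat_lit 57445) (nat_lit 19) (.e (nat_lit 393225) (nat_lit 9) (.e (nat_lit 336193) (nat_lit 12) (.e (nat_lit 385068) (nat_lit 26) (.e (nat_lit 532503) (nat_lit 1) .nil)))))) (.g (nat_lit 6) .nil .nil))) 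
(.lf (nat_lit 181981) (.g (nat_lit 1851) (.e (nat_lit 57847) (nat_lit 252) (.e (nat_lit 57447) (nat_lit 19) (.e (nat_lit 393229) (nat_lit 9) (.e (nat_lit 336084) (nat_lit 9) .nil)))) .nil))) (.nd (nat_lit 6) 
(.lf (nat_lit 181949) (.g (nat_lit 4122) (.e (nat_lit 57847) (nat_lit 252) (.e (nat_lit 57445) (nat_lit 19) (.e (nat_lit 393229) (nat_lit 9) (.e (nat_lit 336193) (nat_lit 12) (.e (nat_lit 385068) (nat_lit 26) (.e (nat_lit 532503) (nat_lit 1) .nil)))))) (.g (nat_lit 6) .nil .nil))) 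
(.lf (nat_lit 182013) (.g (nat_lit 1653) (.e (nat_lit 57848) (nat_lit 252) (.e (nat_lit 57365) (nat_lit 1) (.e (nat_lit 57852) (nat_lit 252) (.e (nat_lit 57413) (nat_lit 12) (.e (nat_lit 336054) (nat_lit 7) .nil))))) .nil))))))) (.nd (nat_lit 2) (.nd (nat_lit 3) (.nd (nat_lit 4) (.nd (nat_lit 5) (.nd (nat_lit 6) 
(.lf (nat_lit 181891) (.g (nat_lit 1460) (.e (nat_lit 57847) (nat_lit 252) (.e (nat_lit 57437) (nat_lit 17) (.e (nat_lit 384768) (nat_lit 13) (.e (nat_lit 442428) (nat_lit 24) (.e (nat_lit 229675) (nat_lit 242) (.e (nat_lit 57367) (nat_lit 1) .nil)))))) (.g (nat_lit 4) .nil .nil))) 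
(.lf (nat_lit 181955) (.g (nat_lit 1370) (.e (nat_lit 57847) (nat_lit 252) (.e (nat_lit 57446) (nat_lit 19) (.e (nat_lit 393224) (nat_lit 9) (.e (nat_lit 336203) (nat_lit 12) (.e (nat_lit 385067) (nat_lit 26) .nil))))) .nil))) (.nd (nat_lit 6) 
(.lf (nat_lit 181923) (.g (nat_lit 320) (.e (nat_lit 57847) (nat_lit 252) (.e (nat_lit 57445) (nat_lit 19) (.e (nat_lit 393229) (nat_lit 9) .nil))) .nil)) 
(.lf (nat_lit 181987) (.g (nat_lit 1213) (.e (nat_lit 57847) (nat_lit 252) (.e (nat_lit 57447) (nat_lit 19) (.e (nat_lit 393229) (nat_lit 9) (.e (nat_lit 336088) (nat_lit 9) .nil)))) .nil)))) (.nd (nat_lit 5) (.nd (nat_lit 6) 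
(.lf (nat_lit 181907) (.g (nat_lit 247) (.e (nat_lit 57847) (nat_lit 252) (.e (nat_lit 57440) (nat_lit 18) (.e (nat_lit 385066) (nat_lit 26) .nil))) .nil)) 
(.lf (nat_lit 181971) (.g (nat_lit 2207) (.e (nat_lit 57847) (nat_lit 252) (.e (nat_lit 57447) (nat_lit 19) (.e (nat_lit 393224) (nat_lit 9) (.e (nat_lit 336196) (nat_lit 12) (.e (nat_lit 385068) (nat_lit 26) .nil))))) .nil))) (.nd (nat_lit 6) 
(.lf (nat_lit 181939) (.g (nat_lit 2540) (.e (nat_lit 57847) (nat_lit 252) (.e (nat_lit 57445) (nat_lit 19) (.e (nat_lit 393229) (nat_lit 9) (.e (nat_lit 336086) (nat_lit 9) (.e (nat_lit 343808) (nat_lit 18) (.e (nat_lit 204829) (nat_lit 18) .nil)))))) (.g (nat_lit 4) .nil .nil))) 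
(.lf (nat_lit 182003) (.g (nat_lit 1168) (.e (nat_lit 57847) (nat_lit 252) (.e (nat_lit 57448) (nat_lit 19) (.e (nat_lit 393229) (nat_lit 9) (.e (nat_lit 336084) (nat_lit 9) (.e (nat_lit 336326) (nat_lit 18) .nil))))) .nil))))) (.nd (nat_lit 4) (.nd (nat_lit 5) (.nd (nat_lit 6) 
(.lf (nat_lit 181899) (.g (nat_lit 2665) (.e (nat_lit 57847) (nat_lit 252) (.e (nat_lit 57437) (nat_lit 17) (.e (nat_lit 376860) (nat_lit 21) (.e (nat_lit 57930) (nat_lit 282) (.e (nat_lit 164084) (nat_lit 73) (.e (nat_lit 335995) (nat_lit 1) (.e (nat_lit 57847) (nat_lit 252) (.e (nat_lit 57363) (nat_lit 1) .nil)))))))) (.g (nat_lit 5) .nil .nil))) 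
(.lf (nat_lit 181963) (.g (nat_lit 2432) (.e (nat_lit 57847) (nat_lit 252) (.e (nat_lit 57446) (nat_lit 19) (.e (nat_lit 393229) (nat_lit 9) (.e (nat_lit 336201) (nat_lit 12) (.e (nat_lit 385067) (nat_lit 26) .nil))))) .nil))) (.nd (nat_lit 6) 
(.lf (nat_lit 181931) (.g (nat_lit 1945) (.e (nat_lit 57847) (nat_lit 252) (.e (nat_lit 57445) (nat_lit 19) (.e (nat_lit 393229) (nat_lit 9) (.e (nat_lit 336073) (nat_lit 9) .nil)))) .nil)) 
(.lf (nat_lit 181995) (.g (nat_lit 434) (.e (nat_lit 57847) (nat_lit 252) (.e (nat_lit 57448) (nat_lit 19) (.e (nat_lit 393225) (nat_lit 9) .nil))) .nil)))) (.nd (nat_lit 5) (.nd (nat_lit 6) 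
(.lf (nat_lit 181915) (.g (nat_lit 1490) (.e (nat_lit 57847) (nat_lit 252) (.e (nat_lit 57445) (nat_lit 19) (.e (nat_lit 393225) (nat_lit 9) (.e (nat_lit 336078) (nat_lit 9) .nil)))) .nil)) 
(.lf (nat_lit 181979) (.g (nat_lit 2086) (.e (nat_lit 57847) (nat_lit 252) (.e (nat_lit 57447) (nat_lit 19) (.e (nat_lit 393229) (nat_lit 9) (.e (nat_lit 336077) (nat_lit 9) (.e (nat_lit 336326) (nat_lit 18) .nil))))) .nil))) (.nd (nat_lit 6) 
(.lf (nat_lit 181947) (.g (nat_lit 3847) (.e (nat_lit 57847) (nat_lit 252) (.e (nat_lit 57445) (nat_lit 19) (.e (nat_lit 393229) (nat_lit 9) (.e (nat_lit 336150) (nat_lit 9) (.e (nat_lit 336323) (nat_lit 18) .nil))))) .nil)) 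
(.lf (nat_lit 182011) (.g (nat_lit 4393) (.e (nat_lit 57848) (nat_lit 252) (.e (nat_lit 57365) (nat_lit 1) (.e (nat_lit 57829) (nat_lit 250) (.e (nat_lit 1201) (nat_lit 88) (.e (nat_lit 65586) (nat_lit 7) (.e (nat_lit 319531) (nat_lit 16) (.e (nat_lit 286749) (nat_lit 9) (.e (nat_lit 335997) (nat_lit 1) .nil)))))))) (.g (nat_lit 0) .nil .nil))))))) 
(.nd (nat_lit 3) (.nd (nat_lit 4) (.nd (nat_lit 5) (.nd (nat_lit 6) 
(.lf (nat_lit 181895) (.g (nat_lit 2391) (.e (nat_lit 57847) (nat_lit 252) (.e (nat_lit 57437) (nat_lit 17) (.e (nat_lit 376859) (nat_lit 21) (.e (nat_lit 57931) (nat_lit 282) (.e (nat_lit 164084) (nat_lit 73) (.e (nat_lit 335995) (nat_lit 1) (.e (nat_lit 57847) (nat_lit 252) (.e (nat_lit 57363) (nat_lit 1) .nil)))))))) (.g (nat_lit 4) .nil .nil))) 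
(.lf (nat_lit 181959) (.g (nat_lit 1454) (.e (nat_lit 57847) (nat_lit 252) (.e (nat_lit 57446) (nat_lit 19) (.e (nat_lit 393229) (nat_lit 9) (.e (nat_lit 336087) (nat_lit 9) (.e (nat_lit 336326) (nat_lit 18) .nil))))) .nil))) (.nd (nat_lit 6) 
(.lf (nat_lit 181927) (.g (nat_lit 4091) (.e (nat_lit 57847) (nat_lit 252) (.e (nat_lit 57445) (nat_lit 19) (.e (nat_lit 393229) (nat_lit 9) (.e (nat_lit 335895) (nat_lit 0) .nil)))) .nil)) 
(.lf (nat_lit 181991) (.g (nat_lit 2640) (.e (nat_lit 57847) (nat_lit 252) (.e (nat_lit 57447) (nat_lit 19) (.e (nat_lit 393229) (nat_lit 9) (.e (nat_lit 336203) (nat_lit 12) (.e (nat_lit 385066) (nat_lit 26) .nil))))) .nil)))) (.nd (nat_lit 5) (.nd (nat_lit 6) 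
(.lf (nat_lit 181911) (.g (nat_lit 1384) (.e (nat_lit 57847) (nat_lit 252) (.e (nat_lit 57440) (nat_lit 18) (.e (nat_lit 385068) (nat_lit 26) (.e (nat_lit 532551) (nat_lit 12) .nil)))) .nil)) 
(.lf (nat_lit 181975) (.g (nat_lit 3430) (.e (nat_lit 57847) (nat_lit 252) (.e (nat_lit 57447) (nat_lit 19) (.e (nat_lit 393225) (nat_lit 9) (.e (nat_lit 336196) (nat_lit 12) (.e (nat_lit 385066) (nat_lit 26) (.e (nat_lit 532503) (nat_lit 1) .nil)))))) (.g (nat_lit 5) .nil .nil)))) (.nd (nat_lit 6) 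
(.lf (nat_lit 181943) (.g (nat_lit 3655) (.e (nat_lit 57847) (nat_lit 252) (.e (nat_lit 57445) (nat_lit 19) (.e (nat_lit 393229) (nat_lit 9) (.e (nat_lit 336100) (nat_lit 9) .nil)))) .nil)) 
(.lf (nat_lit 182007) (.g (nat_lit 633) (.e (nat_lit 57847) (nat_lit 252) (.e (nat_lit 57448) (nat_lit 19) (.e (nat_lit 393234) (nat_lit 17) .nil))) .nil))))) (.nd (nat_lit 4) (.nd (nat_lit 5) (.nd (nat_lit 6) 
(.lf (nat_lit 181903) (.g (nat_lit 2314) (.e (nat_lit 57847) (nat_lit 252) (.e (nat_lit 57437) (nat_lit 17) (.e (nat_lit 376860) (nat_lit 21) (.e (nat_lit 57931) (nat_lit 282) (.e (nat_lit 164084) (nat_lit 73) (.e (nat_lit 335995) (nat_lit 1) (.e (nat_lit 57848) (nat_lit 252) (.e (nat_lit 57363) (nat_lit 1) .nil)))))))) (.g (nat_lit 4) .nil .nil))) 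
(.lf (nat_lit 181967) (.g (nat_lit 896) (.e (nat_lit 57847) (nat_lit 252) (.e (nat_lit 57447) (nat_lit 19) (.e (nat_lit 393221) (nat_lit 0) .nil))) .nil))) (.nd (nat_lit 6) 
(.lf (nat_lit 181935) (.g (nat_lit 1585) (.e (nat_lit 57847) (nat_lit 252) (.e (nat_lit 57445) (nat_lit 19) (.e (nat_lit 393229) (nat_lit 9) (.e (nat_lit 336085) (nat_lit 9) .nil)))) .nil)) 
(.lf (nat_lit 181999) (.g (nat_lit 3870) (.e (nat_lit 57847) (nat_lit 252) (.e (nat_lit 57448) (nat_lit 19) (.e (nat_lit 393225) (nat_lit 9) (.e (nat_lit 336204) (nat_lit 12) (.e (nat_lit 385066) (nat_lit 26) (.e (nat_lit 532499) (nat_lit 1) .nil)))))) (.g (nat_lit 0) .nil .nil))))) (.nd (nat_lit 5) (.nd (nat_lit 6) 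
(.lf (nat_lit 181919) (.g (nat_lit 2695) (.e (nat_lit 57847) (nat_lit 252) (.e (nat_lit 57445) (nat_lit 19) (.e (nat_lit 393225) (nat_lit 9) (.e (nat_lit 336196) (nat_lit 12) (.e (nat_lit 385064) (nat_lit 26) (.e (nat_lit 532503) (nat_lit 1) .nil)))))) (.g (nat_lit 4) .nil .nil))) 
(.lf (nat_lit 181983) (.g (nat_lit 1445) (.e (nat_lit 57847) (nat_lit 252) (.e (nat_lit 57447) (nat_lit 19) (.e (nat_lit 393229) (nat_lit 9) (.e (nat_lit 336086) (nat_lit 9) .nil)))) .nil))) (.nd (nat_lit 6) 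
(.lf (nat_lit 181951) (.g (nat_lit 3875) (.e (nat_lit 57847) (nat_lit 252) (.e (nat_lit 57445) (nat_lit 19) (.e (nat_lit 393229) (nat_lit 9) (.e (nat_lit 336196) (nat_lit 12) (.e (nat_lit 385068) (nat_lit 26) (.e (nat_lit 532503) (nat_lit 1) .nil)))))) (.g (nat_lit 6) .nil .nil))) 
(.lf (nat_lit 182015) (.g (nat_lit 3334) (.e (nat_lit 57848) (nat_lit 252) (.e (nat_lit 57365) (nat_lit 1) (.e (nat_lit 57854) (nat_lit 252) (.e (nat_lit 57373) (nat_lit 2) (.e (nat_lit 98048) (nat_lit 6) (.e (nat_lit 81962) (nat_lit 25) (.e (nat_lit 139271) (nat_lit 0) (.e (nat_lit 1181) (nat_lit 87) .nil)))))))) (.g (nat_lit 4) .nil .nil))))))))))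

noncomputable def tv2433 : DT := (.nd (nat_lit 0) (.nd (nat_lit 1) (.nd (nat_lit 2) (.nd (nat_lit 3) (.nd (nat_lit 4) (.nd (nat_lit 5) (.nd (nat_lit 6) 
(.lf (nat_lit 182016) (.g (nat_lit 2292) (.e (nat_lit 57848) (nat_lit 252) (.e (nat_lit 57365) (nat_lit 1) (.e (nat_lit 57854) (nat_lit 252) (.e (nat_lit 57406) (nat_lit 12) (.e (nat_lit 336240) (nat_lit 15) (.e (nat_lit 3453) (nat_lit 216) (.e (nat_lit 688185) (nat_lit 18) (.e (nat_lit 81950) (nat_lit 21) .nil)))))))) (.g (nat_lit 4) .nil .nil))) 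
(.lf (nat_lit 182080) (.g (nat_lit 1211) (.e (nat_lit 57848) (nat_lit 252) (.e (nat_lit 57372) (nat_lit 2) (.e (nat_lit 90159) (nat_lit 11) (.e (nat_lit 24627) (nat_lit 9) (.e (nat_lit 336382) (nat_lit 27) .nil))))) .nil))) (.nd (nat_lit 6) 
(.lf (nat_lit 182048) (.g (nat_lit 1928) (.e (nat_lit 57848) (nat_lit 252) (.e (nat_lit 57372) (nat_lit 2) (.e (nat_lit 90128) (nat_lit 9) (.e (nat_lit 228) (nat_lit 21) (.e (nat_lit 336219) (nat_lit 13) .nil))))) .nil)) 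
(.lf (nat_lit 182112) (.g (nat_lit 1833) (.e (nat_lit 57848) (nat_lit 252) (.e (nat_lit 57373) (nat_lit 2) (.e (nat_lit 90158) (nat_lit 11) (.e (nat_lit 24660) (nat_lit 13) .nil)))) .nil)))) (.nd (nat_lit 5) (.nd (nat_lit 6) 
(.lf (nat_lit 182032) (.g (nat_lit 2171) (.e (nat_lit 57848) (nat_lit 252) (.e (nat_lit 57368) (nat_lit 1) (.e (nat_lit 57854) (nat_lit 252) (.e (nat_lit 57412) (nat_lit 12) (.e (nat_lit 336061) (nat_lit 7) .nil))))) .nil)) 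
(.lf (nat_lit 182096) (.g (nat_lit 1861) (.e (nat_lit 57848) (nat_lit 252) (.e (nat_lit 57372) (nat_lit 2) (.e (nat_lit 90160) (nat_lit 11) (.e (nat_lit 24625) (nat_lit 9) (.e (nat_lit 336456) (nat_lit 34) .nil))))) .nil))) (.nd (nat_lit 6) 
(.lf (nat_lit 182064) (.g (nat_lit 1370) (.e (nat_lit 57848) (nat_lit 252) (.e (nat_lit 57372) (nat_lit 2) (.e (nat_lit 90137) (nat_lit 9) .nil))) .nil)) 
(.lf (nat_lit 182128) (.g (nat_lit 649) (.e (nat_lit 57848) (nat_lit 252) (.e (nat_lit 57374) (nat_lit 2) (.e (nat_lit 90138) (nat_lit 9) .nil))) .nil))))) (.nd (nat_lit 4) (.nd (nat_lit 5) (.nd (nat_lit 6) 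
(.lf (nat_lit 182024) (.g (nat_lit 4430) (.e (nat_lit 57848) (nat_lit 252) (.e (nat_lit 57368) (nat_lit 1) (.e (nat_lit 57754) (nat_lit 209) (.e (nat_lit 1220) (nat_lit 90) (.e (nat_lit 81956) (nat_lit 23) (.e (nat_lit 98313) (nat_lit 9) (.e (nat_lit 335995) (nat_lit 1) .nil))))))) (.g (nat_lit 6) .nil .nil))) 
(.lf (nat_lit 182088) (.g (nat_lit 1888) (.e (nat_lit 57848) (nat_lit 252) (.e (nat_lit 57372) (nat_lit 2) (.e (nat_lit 90160) (nat_lit 11) (.e (nat_lit 24584) (nat_lit 0) .nil)))) .nil))) (.nd (nat_lit 6) 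
(.lf (nat_lit 182056) (.g (nat_lit 1810) (.e (nat_lit 57848) (nat_lit 252) (.e (nat_lit 57372) (nat_lit 2) (.e (nat_lit 90128) (nat_lit 9) (.e (nat_lit 314) (nat_lit 23) (.e (nat_lit 352274) (nat_lit 11) .nil))))) .nil)) 
(.lf (nat_lit 182120) (.g (nat_lit 650) (.e (nat_lit 57848) (nat_lit 252) (.e (nat_lit 57374) (nat_lit 2) (.e (nat_lit 90127) (nat_lit 9) .nil))) .nil)))) (.nd (nat_lit 5) (.nd (nat_lit 6) 
(.lf (nat_lit 182040) (.g (nat_lit 1769) (.e (nat_lit 57848) (nat_lit 252) (.e (nat_lit 57371) (nat_lit 2) (.e (nat_lit 90160) (nat_lit 11) (.e (nat_lit 24654) (nat_lit 13) .nil)))) .nil)) 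
(.lf (nat_lit 182104) (.g (nat_lit 2106) (.e (nat_lit 57848) (nat_lit 252) (.e (nat_lit 57372) (nat_lit 2) (.e (nat_lit 90160) (nat_lit 11) (.e (nat_lit 24656) (nat_lit 13) .nil)))) .nil))) (.nd (nat_lit 6) 
(.lf (nat_lit 182072) (.g (nat_lit 2672) (.e (nat_lit 57848) (nat_lit 252) (.e (nat_lit 57372) (nat_lit 2) (.e (nat_lit 90156) (nat_lit 11) (.e (nat_lit 24625) (nat_lit 9) (.e (nat_lit 336454) (nat_lit 34) (.e (nat_lit 483366) (nat_lit 18) .nil)))))) (.g (nat_lit 6) .nil .nil))) 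
(.lf (nat_lit 182136) (.g (nat_lit 850) (.e (nat_lit 57848) (nat_lit 252) (.e (nat_lit 57375) (nat_lit 2) (.e (nat_lit 98048) (nat_lit 6) .nil))) .nil)))))) (.nd (nat_lit 3) (.nd (nat_lit 4) (.nd (nat_lit 5) (.nd (nat_lit 6) 
(.lf (nat_lit 182020) (.g (nat_lit 1400) (.e (nat_lit 57848) (nat_lit 252) (.e (nat_lit 57365) (nat_lit 1) (.e (nat_lit 57854) (nat_lit 252) (.e (nat_lit 57440) (nat_lit 18) (.e (nat_lit 385081) (nat_lit 38) .nil))))) .nil)) 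
(.lf (nat_lit 182084) (.g (nat_lit 2490) (.e (nat_lit 57848) (nat_lit 252) (.e (nat_lit 57372) (nat_lit 2) (.e (nat_lit 90159) (nat_lit 11) (.e (nat_lit 24658) (nat_lit 13) (.e (nat_lit 393229) (nat_lit 9) (.e (nat_lit 335994) (nat_lit 1) .nil)))))) (.g (nat_lit 5) .nil .nil)))) (.nd (nat_lit 6) 
(.lf (nat_lit 182052) (.g (nat_lit 2345) (.e (nat_lit 57848) (nat_lit 252) (.e (nat_lit 57372) (nat_lit 2) (.e (nat_lit 90128) (nat_lit 9) (.e (nat_lit 293) (nat_lit 21) (.e (nat_lit 336116) (nat_lit 9) (.e (nat_lit 336453) (nat_lit 34) (.e (nat_lit 483365) (nat_lit 18) .nil))))))) (.g (nat_lit 5) .nil .nil))) 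
(.lf (nat_lit 182116) (.g (nat_lit 642) (.e (nat_lit 57848) (nat_lit 252) (.e (nat_lit 57374) (nat_lit 2) (.e (nat_lit 98048) (nat_lit 6) .nil))) .nil)))) (.nd (nat_lit 5) (.nd (nat_lit 6) 
(.lf (nat_lit 182036) (.g (nat_lit 1898) (.e (nat_lit 57848) (nat_lit 252) (.e (nat_lit 57371) (nat_lit 2) (.e (nat_lit 90158) (nat_lit 11) (.e (nat_lit 24655) (nat_lit 13) (.e (nat_lit 393229) (nat_lit 9) .nil))))) .nil)) 
(.lf (nat_lit 182100) (.g (nat_lit 1910) (.e (nat_lit 57848) (nat_lit 252) (.e (nat_lit 57372) (nat_lit 2) (.e (nat_lit 90160) (nat_lit 11) (.e (nat_lit 24634) (nat_lit 9) .nil)))) .nil))) (.nd (nat_lit 6) 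
(.lf (nat_lit 182068) (.g (nat_lit 1308) (.e (nat_lit 57848) (nat_lit 252) (.e (nat_lit 57372) (nat_lit 2) (.e (nat_lit 90143) (nat_lit 9) .nil))) .nil)) 
(.lf (nat_lit 182132) (.g (nat_lit 594) (.e (nat_lit 57848) (nat_lit 252) (.e (nat_lit 57374) (nat_lit 2) (.e (nat_lit 90160) (nat_lit 11) .nil))) .nil))))) (.nd (nat_lit 4) (.nd (nat_lit 5) (.nd (nat_lit 6) 
(.lf (nat_lit 182028) (.g (nat_lit 2893) (.e (nat_lit 57848) (nat_lit 252) (.e (nat_lit 57368) (nat_lit 1) (.e (nat_lit 57854) (nat_lit 252) (.e (nat_lit 57409) (nat_lit 12) (.e (nat_lit 335878) (nat_lit 0) (.e (nat_lit 1912) (nat_lit 129) (.e (nat_lit 598041) (nat_lit 10) (.e (nat_lit 81950) (nat_lit 21) .nil)))))))) (.g (nat_lit 4) .nil .nil))) 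
(.lf (nat_lit 182092) (.g (nat_lit 3421) (.e (nat_lit 57848) (nat_lit 252) (.e (nat_lit 57372) (nat_lit 2) (.e (nat_lit 90160) (nat_lit 11) (.e (nat_lit 24607) (nat_lit 3) (.e (nat_lit 98342) (nat_lit 20) .nil))))) .nil))) (.nd (nat_lit 6) 
(.lf (nat_lit 182060) (.g (nat_lit 743) (.e (nat_lit 57848) (nat_lit 252) (.e (nat_lit 57372) (nat_lit 2) (.e (nat_lit 90130) (nat_lit 9) .nil))) .nil)) 
(.lf (nat_lit 182124) (.g (nat_lit 1095) (.e (nat_lit 57848) (nat_lit 252) (.e (nat_lit 57374) (nat_lit 2) (.e (nat_lit 90134) (nat_lit 9) (.e (nat_lit 288) (nat_lit 21) .nil)))) .nil)))) (.nd (nat_lit 5) (.nd (nat_lit 6) 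
(.lf (nat_lit 182044) (.g (nat_lit 2020) (.e (nat_lit 57848) (nat_lit 252) (.e (nat_lit 57372) (nat_lit 2) (.e (nat_lit 90121) (nat_lit 9) (.e (nat_lit 284) (nat_lit 21) (.e (nat_lit 336213) (nat_lit 13) (.e (nat_lit 393229) (nat_lit 9) (.e (nat_lit 335994) (nat_lit 1) .nil))))))) (.g (nat_lit 4) .nil .nil))) 
(.lf (nat_lit 182108) (.g (nat_lit 1529) (.e (nat_lit 57848) (nat_lit 252) (.e (nat_lit 57372) (nat_lit 2) (.e (nat_lit 90181) (nat_lit 16) .nil))) .nil))) (.nd (nat_lit 6) 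
(.lf (nat_lit 182076) (.g (nat_lit 2321) (.e (nat_lit 57848) (nat_lit 252) (.e (nat_lit 57372) (nat_lit 2) (.e (nat_lit 90156) (nat_lit 11) (.e (nat_lit 24658) (nat_lit 13) (.e (nat_lit 393229) (nat_lit 9) (.e (nat_lit 335995) (nat_lit 1) .nil)))))) (.g (nat_lit 5) .nil .nil))) 
(.lf (nat_lit 182140) (.g (nat_lit 524) (.e (nat_lit 57848) (nat_lit 252) (.e (nat_lit 57375) (nat_lit 2) (.e (nat_lit 90123) (nat_lit 9) .nil))) .nil))))))) (.nd (nat_lit 2) (.nd (nat_lit 3) (.nd (nat_lit 4) (.nd (nat_lit 5) (.nd (nat_lit 6) 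
(.lf (nat_lit 182018) (.g (nat_lit 2305) (.e (nat_lit 57848) (nat_lit 252) (.e (nat_lit 57365) (nat_lit 1) (.e (nat_lit 57854) (nat_lit 252) (.e (nat_lit 57409) (nat_lit 12) (.e (nat_lit 335878) (nat_lit 0) (.e (nat_lit 1912) (nat_lit 129) (.e (nat_lit 598041) (nat_lit 10) (.e (nat_lit 81950) (nat_lit 21) .nil)))))))) (.g (nat_lit 4) .nil .nil))) 
(.lf (nat_lit 182082) (.g (nat_lit 2988) (.e (nat_lit 57848) (nat_lit 252) (.e (nat_lit 57372) (nat_lit 2) (.e (nat_lit 90159) (nat_lit 11) (.e (nat_lit 24655) (nat_lit 13) (.e (nat_lit 393229) (nat_lit 9) (.e (nat_lit 335994) (nat_lit 1) .nil)))))) (.g (nat_lit 6) .nil .nil)))) (.nd (nat_lit 6) 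
(.lf (nat_lit 182050) (.g (nat_lit 1638) (.e (nat_lit 57848) (nat_lit 252) (.e (nat_lit 57372) (nat_lit 2) (.e (nat_lit 90128) (nat_lit 9) (.e (nat_lit 239) (nat_lit 21) .nil)))) .nil)) 
(.lf (nat_lit 182114) (.g (nat_lit 1701) (.e (nat_lit 57848) (nat_lit 252) (.e (nat_lit 57373) (nat_lit 2) (.e (nat_lit 90160) (nat_lit 11) (.e (nat_lit 24654) (nat_lit 13) .nil)))) .nil)))) (.nd (nat_lit 5) (.nd (nat_lit 6) 
(.lf (nat_lit 182034) (.g (nat_lit 778) (.e (nat_lit 57848) (nat_lit 252) (.e (nat_lit 57371) (nat_lit 2) (.e (nat_lit 90128) (nat_lit 9) .nil))) .nil)) 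
(.lf (nat_lit 182098) (.g (nat_lit 3138) (.e (nat_lit 57848) (nat_lit 252) (.e (nat_lit 57372) (nat_lit 2) (.e (nat_lit 90160) (nat_lit 11) (.e (nat_lit 24631) (nat_lit 9) (.e (nat_lit 336388) (nat_lit 27) .nil))))) .nil))) (.nd (nat_lit 6) 
(.lf (nat_lit 182066) (.g (nat_lit 861) (.e (nat_lit 57848) (nat_lit 252) (.e (nat_lit 57372) (nat_lit 2) (.e (nat_lit 90140) (nat_lit 9) .nil))) .nil)) 
(.lf (nat_lit 182130) (.g (nat_lit 650) (.e (nat_lit 57848) (nat_lit 252) (.e (nat_lit 57374) (nat_lit 2) (.e (nat_lit 90147) (nat_lit 9) .nil))) .nil))))) (.nd (nat_lit 4) (.nd (nat_lit 5) (.nd (nat_lit 6) 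
(.lf (nat_lit 182026) (.g (nat_lit 1493) (.e (nat_lit 57848) (nat_lit 252) (.e (nat_lit 57368) (nat_lit 1) (.e (nat_lit 57852) (nat_lit 252) (.e (nat_lit 57414) (nat_lit 12) (.e (nat_lit 336060) (nat_lit 7) .nil))))) .nil)) 
(.lf (nat_lit 182090) (.g (nat_lit 2652) (.e (nat_lit 57848) (nat_lit 252) (.e (nat_lit 57372) (nat_lit 2) (.e (nat_lit 90160) (nat_lit 11) (.e (nat_lit 24591) (nat_lit 0) .nil)))) .nil))) (.nd (nat_lit 6) 
(.lf (nat_lit 182058) (.g (nat_lit 1716) (.e (nat_lit 57848) (nat_lit 252) (.e (nat_lit 57372) (nat_lit 2) (.e (nat_lit 90128) (nat_lit 9) (.e (nat_lit 315) (nat_lit 23) (.e (nat_lit 352275) (nat_lit 11) .nil))))) .nil)) 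
(.lf (nat_lit 182122) (.g (nat_lit 1687) (.e (nat_lit 57848) (nat_lit 252) (.e (nat_lit 57374) (nat_lit 2) (.e (nat_lit 90128) (nat_lit 9) (.e (nat_lit 312) (nat_lit 23) .nil)))) .nil)))) (.nd (nat_lit 5) (.nd (nat_lit 6) 
(.lf (nat_lit 182042) (.g (nat_lit 2379) (.e (nat_lit 57848) (nat_lit 252) (.e (nat_lit 57371) (nat_lit 2) (.e (nat_lit 90160) (nat_lit 11) (.e (nat_lit 24655) (nat_lit 13) (.e (nat_lit 393229) (nat_lit 9) .nil))))) .nil)) 
(.lf (nat_lit 182106) (.g (nat_lit 2194) (.e (nat_lit 57848) (nat_lit 252) (.e (nat_lit 57372) (nat_lit 2) (.e (nat_lit 90160) (nat_lit 11) (.e (nat_lit 24660) (nat_lit 13) (.e (nat_lit 393229) (nat_lit 9) (.e (nat_lit 335995) (nat_lit 1) .nil)))))) (.g (nat_lit 4) .nil .nil)))) (.nd (nat_lit 6) 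
(.lf (nat_lit 182074) (.g (nat_lit 2485) (.e (nat_lit 57848) (nat_lit 252) (.e (nat_lit 57372) (nat_lit 2) (.e (nat_lit 90156) (nat_lit 11) (.e (nat_lit 24655) (nat_lit 13) (.e (nat_lit 393229) (nat_lit 9) (.e (nat_lit 335994) (nat_lit 1) .nil)))))) (.g (nat_lit 5) .nil .nil))) 
(.lf (nat_lit 182138) (.g (nat_lit 1966) (.e (nat_lit 57848) (nat_lit 252) (.e (nat_lit 57375) (nat_lit 2) (.e (nat_lit 90121) (nat_lit 9) (.e (nat_lit 284) (nat_lit 21) (.e (nat_lit 336076) (nat_lit 9) .nil))))) .nil)))))) (.nd (nat_lit 3) (.nd (nat_lit 4) (.nd (nat_lit 5) (.nd (nat_lit 6) 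
(.lf (nat_lit 182022) (.g (nat_lit 1715) (.e (nat_lit 57848) (nat_lit 252) (.e (nat_lit 57367) (nat_lit 1) (.e (nat_lit 57846) (nat_lit 252) (.e (nat_lit 57412) (nat_lit 12) (.e (nat_lit 336060) (nat_lit 7) .nil))))) .nil)) 
(.lf (nat_lit 182086) (.g (nat_lit 2251) (.e (nat_lit 57848) (nat_lit 252) (.e (nat_lit 57372) (nat_lit 2) (.e (nat_lit 90160) (nat_lit 11) (.e (nat_lit 24580) (nat_lit 0) .nil)))) .nil))) (.nd (nat_lit 6) 
(.lf (nat_lit 182054) (.g (nat_lit 1181) (.e (nat_lit 57848) (nat_lit 252) (.e (nat_lit 57372) (nat_lit 2) (.e (nat_lit 90128) (nat_lit 9) (.e (nat_lit 297) (nat_lit 22) .nil)))) .nil)) 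
(.lf (nat_lit 182118) (.g (nat_lit 1363) (.e (nat_lit 57848) (nat_lit 252) (.e (nat_lit 57374) (nat_lit 2) (.e (nat_lit 90123) (nat_lit 9) (.e (nat_lit 312) (nat_lit 23) (.e (nat_lit 360192) (nat_lit 18) .nil))))) .nil)))) (.nd (nat_lit 5) (.nd (nat_lit 6) 
(.lf (nat_lit 182038) (.g (nat_lit 776) (.e (nat_lit 57848) (nat_lit 252) (.e (nat_lit 57371) (nat_lit 2) (.e (nat_lit 90160) (nat_lit 11) .nil))) .nil)) 
(.lf (nat_lit 182102) (.g (nat_lit 1811) (.e (nat_lit 57848) (nat_lit 252) (.e (nat_lit 57372) (nat_lit 2) (.e (nat_lit 90160) (nat_lit 11) (.e (nat_lit 24638) (nat_lit 9) .nil)))) .nil))) (.nd (nat_lit 6) 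
(.lf (nat_lit 182070) (.g (nat_lit 1287) (.e (nat_lit 57848) (nat_lit 252) (.e (nat_lit 57372) (nat_lit 2) (.e (nat_lit 90147) (nat_lit 9) .nil))) .nil)) 
(.lf (nat_lit 182134) (.g (nat_lit 3004) (.e (nat_lit 57848) (nat_lit 252) (.e (nat_lit 57374) (nat_lit 2) (.e (nat_lit 90160) (nat_lit 11) (.e (nat_lit 24655) (nat_lit 13) (.e (nat_lit 393229) (nat_lit 9) .nil))))) .nil))))) (.nd (nat_lit 4) (.nd (nat_lit 5) (.nd (nat_lit 6) 
(.lf (nat_lit 182030) (.g (nat_lit 2320) (.e (nat_lit 57848) (nat_lit 252) (.e (nat_lit 57368) (nat_lit 1) (.e (nat_lit 57854) (nat_lit 252) (.e (nat_lit 57409) (nat_lit 12) (.e (nat_lit 336450) (nat_lit 33) .nil))))) .nil)) 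
(.lf (nat_lit 182094) (.g (nat_lit 3164) (.e (nat_lit 57848) (nat_lit 252) (.e (nat_lit 57372) (nat_lit 2) (.e (nat_lit 90160) (nat_lit 11) (.e (nat_lit 24608) (nat_lit 3) (.e (nat_lit 98342) (nat_lit 20) .nil))))) .nil))) (.nd (nat_lit 6) 
(.lf (nat_lit 182062) (.g (nat_lit 436) (.e (nat_lit 57848) (nat_lit 252) (.e (nat_lit 57372) (nat_lit 2) (.e (nat_lit 90133) (nat_lit 9) .nil))) .nil)) 
(.lf (nat_lit 182126) (.g (nat_lit 4659) (.e (nat_lit 57848) (nat_lit 252) (.e (nat_lit 57374) (nat_lit 2) (.e (nat_lit 90134) (nat_lit 9) (.e (nat_lit 290) (nat_lit 21) (.e (nat_lit 336077) (nat_lit 9) (.e (nat_lit 336454) (nat_lit 34) (.e (nat_lit 483366) (nat_lit 18) .nil))))))) (.g (nat_lit 7) .nil .nil))))) (.nd (nat_lit 5) (.nd (nat_lit 6) 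
(.lf (nat_lit 182046) (.g (nat_lit 1833) (.e (nat_lit 57848) (nat_lit 252) (.e (nat_lit 57372) (nat_lit 2) (.e (nat_lit 90122) (nat_lit 9) (.e (nat_lit 312) (nat_lit 23) (.e (nat_lit 360192) (nat_lit 18) (.e (nat_lit 483366) (nat_lit 18) .nil)))))) (.g (nat_lit 4) .nil .nil))) 
(.lf (nat_lit 182110) (.g (nat_lit 2709) (.e (nat_lit 57848) (nat_lit 252) (.e (nat_lit 57373) (nat_lit 2) (.e (nat_lit 90158) (nat_lit 11) (.e (nat_lit 24655) (nat_lit 13) (.e (nat_lit 393229) (nat_lit 9) (.e (nat_lit 335994) (nat_lit 1) .nil)))))) (.g (nat_lit 4) .nil .nil)))) (.nd (nat_lit 6) 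
(.lf (nat_lit 182078) (.g (nat_lit 3543) (.e (nat_lit 57848) (nat_lit 252) (.e (nat_lit 57372) (nat_lit 2) (.e (nat_lit 90158) (nat_lit 11) (.e (nat_lit 24658) (nat_lit 13) (.e (nat_lit 393225) (nat_lit 9) (.e (nat_lit 335995) (nat_lit 1) .nil)))))) (.g (nat_lit 0) .nil .nil))) 
(.lf (nat_lit 182142) (.g (nat_lit 1963) (.e (nat_lit 57848) (nat_lit 252) (.e (nat_lit 57375) (nat_lit 2) (.e (nat_lit 90128) (nat_lit 9) (.e (nat_lit 228) (nat_lit 21) (.e (nat_lit 336219) (nat_lit 13) .nil))))) .nil)))))))) (.nd (nat_lit 1) (.nd (nat_lit 2) (.nd (nat_lit 3) (.nd (nat_lit 4) (.nd (nat_lit 5) (.nd (nat_lit 6) 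
(.lf (nat_lit 182017) (.g (nat_lit 2288) (.e (nat_lit 57848) (nat_lit 252) (.e (nat_lit 57365) (nat_lit 1) (.e (nat_lit 57854) (nat_lit 252) (.e (nat_lit 57406) (nat_lit 12) (.e (nat_lit 336240) (nat_lit 15) (.e (nat_lit 3453) (nat_lit 216) (.e (nat_lit 688186) (nat_lit 18) (.e (nat_lit 81950) (nat_lit 21) .nil)))))))) (.g (nat_lit 4) .nil .nil))) 
(.lf (nat_lit 182081) (.g (nat_lit 1211) (.e (nat_lit 57848) (nat_lit 252) (.e (nat_lit 57372) (nat_lit 2) (.e (nat_lit 90159) (nat_lit 11) (.e (nat_lit 24627) (nat_lit 9) (.e (nat_lit 336413) (nat_lit 27) .nil))))) .nil))) (.nd (nat_lit 6) 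
(.lf (nat_lit 182049) (.g (nat_lit 2184) (.e (nat_lit 57848) (nat_lit 252) (.e (nat_lit 57372) (nat_lit 2) (.e (nat_lit 90128) (nat_lit 9) (.e (nat_lit 232) (nat_lit 21) (.e (nat_lit 336217) (nat_lit 13) .nil))))) .nil)) 
(.lf (nat_lit 182113) (.g (nat_lit 732) (.e (nat_lit 57848) (nat_lit 252) (.e (nat_lit 57373) (nat_lit 2) (.e (nat_lit 90160) (nat_lit 11) .nil))) .nil)))) (.nd (nat_lit 5) (.nd (nat_lit 6) 
(.lf (nat_lit 182033) (.g (nat_lit 3536) (.e (nat_lit 57848) (nat_lit 252) (.e (nat_lit 57370) (nat_lit 2) (.e (nat_lit 90158) (nat_lit 11) (.e (nat_lit 24655) (nat_lit 13) (.e (nat_lit 393225) (nat_lit 9) (.e (nat_lit 335995) (nat_lit 1) .nil)))))) (.g (nat_lit 0) .nil .nil))) 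
(.lf (nat_lit 182097) (.g (nat_lit 2073) (.e (nat_lit 57848) (nat_lit 252) (.e (nat_lit 57372) (nat_lit 2) (.e (nat_lit 90160) (nat_lit 11) (.e (nat_lit 24626) (nat_lit 9) .nil)))) .nil))) (.nd (nat_lit 6) 
(.lf (nat_lit 182065) (.g (nat_lit 2156) (.e (nat_lit 57848) (nat_lit 252) (.e (nat_lit 57372) (nat_lit 2) (.e (nat_lit 90139) (nat_lit 9) (.e (nat_lit 284) (nat_lit 21) (.e (nat_lit 336213) (nat_lit 13) .nil))))) .nil)) 
(.lf (nat_lit 182129) (.g (nat_lit 557) (.e (nat_lit 57848) (nat_lit 252) (.e (nat_lit 57374) (nat_lit 2) (.e (nat_lit 90141) (nat_lit 9) .nil))) .nil))))) (.nd (nat_lit 4) (.nd (nat_lit 5) (.nd (nat_lit 6) 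
(.lf (nat_lit 182025) (.g (nat_lit 4663) (.e (nat_lit 57848) (nat_lit 252) (.e (nat_lit 57368) (nat_lit 1) (.e (nat_lit 57829) (nat_lit 250) (.e (nat_lit 1201) (nat_lit 88) (.e (nat_lit 65586) (nat_lit 7) (.e (nat_lit 319531) (nat_lit 16) (.e (nat_lit 286749) (nat_lit 9) (.e (nat_lit 335997) (nat_lit 1) .nil)))))))) (.g (nat_lit 0) .nil .nil))) 
(.lf (nat_lit 182089) (.g (nat_lit 2652) (.e (nat_lit 57848) (nat_lit 252) (.e (nat_lit 57372) (nat_lit 2) (.e (nat_lit 90160) (nat_lit 11) (.e (nat_lit 24590) (nat_lit 0) .nil)))) .nil))) (.nd (nat_lit 6) 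
(.lf (nat_lit 182057) (.g (nat_lit 3212) (.e (nat_lit 57848) (nat_lit 252) (.e (nat_lit 57372) (nat_lit 2) (.e (nat_lit 90128) (nat_lit 9) (.e (nat_lit 314) (nat_lit 23) (.e (nat_lit 352275) (nat_lit 11) (.e (nat_lit 426500) (nat_lit 27) (.e (nat_lit 335995) (nat_lit 1) .nil))))))) (.g (nat_lit 0) .nil .nil))) 
(.lf (nat_lit 182121) (.g (nat_lit 650) (.e (nat_lit 57848) (nat_lit 252) (.e (nat_lit 57374) (nat_lit 2) (.e (nat_lit 90128) (nat_lit 9) .nil))) .nil)))) (.nd (nat_lit 5) (.nd (nat_lit 6) 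
(.lf (nat_lit 182041) (.g (nat_lit 2467) (.e (nat_lit 57848) (nat_lit 252) (.e (nat_lit 57371) (nat_lit 2) (.e (nat_lit 90160) (nat_lit 11) (.e (nat_lit 24655) (nat_lit 13) (.e (nat_lit 393225) (nat_lit 9) .nil))))) .nil)) 
(.lf (nat_lit 182105) (.g (nat_lit 1510) (.e (nat_lit 57848) (nat_lit 252) (.e (nat_lit 57372) (nat_lit 2) (.e (nat_lit 90160) (nat_lit 11) (.e (nat_lit 24657) (nat_lit 13) .nil)))) .nil))) (.nd (nat_lit 6) 
(.lf (nat_lit 182073) (.g (nat_lit 2556) (.e (nat_lit 57848) (nat_lit 252) (.e (nat_lit 57372) (nat_lit 2) (.e (nat_lit 90156) (nat_lit 11) (.e (nat_lit 24628) (nat_lit 9) (.e (nat_lit 336454) (nat_lit 34) (.e (nat_lit 483366) (nat_lit 18) .nil)))))) (.g (nat_lit 6) .nil .nil))) 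
(.lf (nat_lit 182137) (.g (nat_lit 989) (.e (nat_lit 57848) (nat_lit 252) (.e (nat_lit 57375) (nat_lit 2) (.e (nat_lit 90121) (nat_lit 9) .nil))) .nil)))))) (.nd (nat_lit 3) (.nd (nat_lit 4) (.nd (nat_lit 5) (.nd (nat_lit 6) 
(.lf (nat_lit 182021) (.g (nat_lit 4475) (.e (nat_lit 57848) (nat_lit 252) (.e (nat_lit 57367) (nat_lit 1) (.e (nat_lit 57754) (nat_lit 209) (.e (nat_lit 1220) (nat_lit 90) (.e (nat_lit 81956) (nat_lit 23) (.e (nat_lit 98313) (nat_lit 9) (.e (nat_lit 335995) (nat_lit 1) .nil))))))) (.g (nat_lit 6) .nil .nil))) 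
(.lf (nat_lit 182085) (.g (nat_lit 3213) (.e (nat_lit 57848) (nat_lit 252) (.e (nat_lit 57372) (nat_lit 2) (.e (nat_lit 90159) (nat_lit 11) (.e (nat_lit 24660) (nat_lit 13) (.e (nat_lit 393225) (nat_lit 9) (.e (nat_lit 335995) (nat_lit 1) .nil)))))) (.g (nat_lit 0) .nil .nil)))) (.nd (nat_lit 6) 
(.lf (nat_lit 182053) (.g (nat_lit 1615) (.e (nat_lit 57848) (nat_lit 252) (.e (nat_lit 57372) (nat_lit 2) (.e (nat_lit 90128) (nat_lit 9) (.e (nat_lit 293) (nat_lit 21) (.e (nat_lit 336119) (nat_lit 9) .nil))))) .nil)) 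
(.lf (nat_lit 182117) (.g (nat_lit 650) (.e (nat_lit 57848) (nat_lit 252) (.e (nat_lit 57374) (nat_lit 2) (.e (nat_lit 90123) (nat_lit 9) .nil))) .nil)))) (.nd (nat_lit 5) (.nd (nat_lit 6) 
(.lf (nat_lit 182037) (.g (nat_lit 1878) (.e (nat_lit 57848) (nat_lit 252) (.e (nat_lit 57371) (nat_lit 2) (.e (nat_lit 90158) (nat_lit 11) (.e (nat_lit 24658) (nat_lit 13) (.e (nat_lit 393229) (nat_lit 9) .nil))))) .nil)) 
(.lf (nat_lit 182101) (.g (nat_lit 1479) (.e (nat_lit 57848) (nat_lit 252) (.e (nat_lit 57372) (nat_lit 2) (.e (nat_lit 90160) (nat_lit 11) (.e (nat_lit 24636) (nat_lit 9) (.e (nat_lit 343808) (nat_lit 34) .nil))))) .nil))) (.nd (nat_lit 6) 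
(.lf (nat_lit 182069) (.g (nat_lit 1318) (.e (nat_lit 57848) (nat_lit 252) (.e (nat_lit 57372) (nat_lit 2) (.e (nat_lit 90145) (nat_lit 9) .nil))) .nil)) 
(.lf (nat_lit 182133) (.g (nat_lit 2059) (.e (nat_lit 57848) (nat_lit 252) (.e (nat_lit 57374) (nat_lit 2) (.e (nat_lit 90160) (nat_lit 11) (.e (nat_lit 24625) (nat_lit 9) .nil)))) .nil))))) (.nd (nat_lit 4) (.nd (nat_lit 5) (.nd (nat_lit 6) 
(.lf (nat_lit 182029) (.g (nat_lit 2618) (.e (nat_lit 57848) (nat_lit 252) (.e (nat_lit 57368) (nat_lit 1) (.e (nat_lit 57854) (nat_lit 252) (.e (nat_lit 57409) (nat_lit 12) (.e (nat_lit 336240) (nat_lit 15) (.e (nat_lit 3455) (nat_lit 216) (.e (nat_lit 688185) (nat_lit 18) (.e (nat_lit 81950) (nat_lit 21) .nil)))))))) (.g (nat_lit 4) .nil .nil))) 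
(.lf (nat_lit 182093) (.g (nat_lit 2196) (.e (nat_lit 57848) (nat_lit 252) (.e (nat_lit 57372) (nat_lit 2) (.e (nat_lit 90160) (nat_lit 11) (.e (nat_lit 24608) (nat_lit 3) .nil)))) .nil))) (.nd (nat_lit 6) 
(.lf (nat_lit 182061) (.g (nat_lit 976) (.e (nat_lit 57848) (nat_lit 252) (.e (nat_lit 57372) (nat_lit 2) (.e (nat_lit 90131) (nat_lit 9) .nil))) .nil)) 
(.lf (nat_lit 182125) (.g (nat_lit 2679) (.e (nat_lit 57848) (nat_lit 252) (.e (nat_lit 57374) (nat_lit 2) (.e (nat_lit 90134) (nat_lit 9) (.e (nat_lit 290) (nat_lit 21) (.e (nat_lit 336076) (nat_lit 9) (.e (nat_lit 336454) (nat_lit 34) (.e (nat_lit 483365) (nat_lit 18) .nil))))))) (.g (nat_lit 5) .nil .nil))))) (.nd (nat_lit 5) (.nd (nat_lit 6) 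
(.lf (nat_lit 182045) (.g (nat_lit 1748) (.e (nat_lit 57848) (nat_lit 252) (.e (nat_lit 57372) (nat_lit 2) (.e (nat_lit 90122) (nat_lit 9) (.e (nat_lit 312) (nat_lit 23) (.e (nat_lit 360192) (nat_lit 18) (.e (nat_lit 483365) (nat_lit 18) .nil)))))) (.g (nat_lit 4) .nil .nil))) 
(.lf (nat_lit 182109) (.g (nat_lit 2527) (.e (nat_lit 57848) (nat_lit 252) (.e (nat_lit 57373) (nat_lit 2) (.e (nat_lit 90158) (nat_lit 11) (.e (nat_lit 24625) (nat_lit 9) (.e (nat_lit 336454) (nat_lit 34) (.e (nat_lit 483366) (nat_lit 18) .nil)))))) (.g (nat_lit 4) .nil .nil)))) (.nd (nat_lit 6) 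
(.lf (nat_lit 182077) (.g (nat_lit 3999) (.e (nat_lit 57848) (nat_lit 252) (.e (nat_lit 57372) (nat_lit 2) (.e (nat_lit 90158) (nat_lit 11) (.e (nat_lit 24655) (nat_lit 13) (.e (nat_lit 393225) (nat_lit 9) (.e (nat_lit 335995) (nat_lit 1) .nil)))))) (.g (nat_lit 0) .nil .nil))) 
(.lf (nat_lit 182141) (.g (nat_lit 1423) (.e (nat_lit 57848) (nat_lit 252) (.e (nat_lit 57375) (nat_lit 2) (.e (nat_lit 90126) (nat_lit 9) .nil))) .nil))))))) (.nd (nat_lit 2) (.nd (nat_lit 3) (.nd (nat_lit 4) (.nd (nat_lit 5) (.nd (nat_lit 6) 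
(.lf (nat_lit 182019) (.g (nat_lit 2308) (.e (nat_lit 57848) (nat_lit 252) (.e (nat_lit 57365) (nat_lit 1) (.e (nat_lit 57854) (nat_lit 252) (.e (nat_lit 57427) (nat_lit 15) (.e (nat_lit 360478) (nat_lit 12) .nil))))) .nil)) 
(.lf (nat_lit 182083) (.g (nat_lit 3786) (.e (nat_lit 57848) (nat_lit 252) (.e (nat_lit 57372) (nat_lit 2) (.e (nat_lit 90159) (nat_lit 11) (.e (nat_lit 24657) (nat_lit 13) (.e (nat_lit 393225) (nat_lit 9) (.e (nat_lit 335995) (nat_lit 1) .nil)))))) (.g (nat_lit 0) .nil .nil)))) (.nd (nat_lit 6) 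
(.lf (nat_lit 182051) (.g (nat_lit 1637) (.e (nat_lit 57848) (nat_lit 252) (.e (nat_lit 57372) (nat_lit 2) (.e (nat_lit 90128) (nat_lit 9) (.e (nat_lit 254) (nat_lit 21) .nil)))) .nil)) 
(.lf (nat_lit 182115) (.g (nat_lit 1568) (.e (nat_lit 57848) (nat_lit 252) (.e (nat_lit 57373) (nat_lit 2) (.e (nat_lit 90160) (nat_lit 11) (.e (nat_lit 24658) (nat_lit 13) .nil)))) .nil)))) (.nd (nat_lit 5) (.nd (nat_lit 6) 
(.lf (nat_lit 182035) (.g (nat_lit 2523) (.e (nat_lit 57848) (nat_lit 252) (.e (nat_lit 57371) (nat_lit 2) (.e (nat_lit 90158) (nat_lit 11) (.e (nat_lit 24655) (nat_lit 13) (.e (nat_lit 393225) (nat_lit 9) (.e (nat_lit 335995) (nat_lit 1) .nil)))))) (.g (nat_lit 4) .nil .nil))) 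
(.lf (nat_lit 182099) (.g (nat_lit 3138) (.e (nat_lit 57848) (nat_lit 252) (.e (nat_lit 57372) (nat_lit 2) (.e (nat_lit 90160) (nat_lit 11) (.e (nat_lit 24631) (nat_lit 9) (.e (nat_lit 336417) (nat_lit 27) .nil))))) .nil))) (.nd (nat_lit 6) 
(.lf (nat_lit 182067) (.g (nat_lit 1304) (.e (nat_lit 57848) (nat_lit 252) (.e (nat_lit 57372) (nat_lit 2) (.e (nat_lit 90142) (nat_lit 9) .nil))) .nil)) 
(.lf (nat_lit 182131) (.g (nat_lit 2924) (.e (nat_lit 57848) (nat_lit 252) (.e (nat_lit 57374) (nat_lit 2) (.e (nat_lit 90157) (nat_lit 11) (.e (nat_lit 24655) (nat_lit 13) (.e (nat_lit 393229) (nat_lit 9) (.e (nat_lit 335995) (nat_lit 1) .nil)))))) (.g (nat_lit 4) .nil .nil)))))) (.nd (nat_lit 4) (.nd (nat_lit 5) (.nd (nat_lit 6) 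
(.lf (nat_lit 182027) (.g (nat_lit 2611) (.e (nat_lit 57848) (nat_lit 252) (.e (nat_lit 57368) (nat_lit 1) (.e (nat_lit 57852) (nat_lit 252) (.e (nat_lit 57427) (nat_lit 15) (.e (nat_lit 360478) (nat_lit 12) (.e (nat_lit 622616) (nat_lit 9) (.e (nat_lit 65565) (nat_lit 1) .nil))))))) (.g (nat_lit 4) .nil .nil))) 
(.lf (nat_lit 182091) (.g (nat_lit 2612) (.e (nat_lit 57848) (nat_lit 252) (.e (nat_lit 57372) (nat_lit 2) (.e (nat_lit 90160) (nat_lit 11) (.e (nat_lit 24606) (nat_lit 3) (.e (nat_lit 98342) (nat_lit 20) .nil))))) .nil))) (.nd (nat_lit 6) 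
(.lf (nat_lit 182059) (.g (nat_lit 1317) (.e (nat_lit 57848) (nat_lit 252) (.e (nat_lit 57372) (nat_lit 2) (.e (nat_lit 90129) (nat_lit 9) .nil))) .nil)) 
(.lf (nat_lit 182123) (.g (nat_lit 1521) (.e (nat_lit 57848) (nat_lit 252) (.e (nat_lit 57374) (nat_lit 2) (.e (nat_lit 90128) (nat_lit 9) (.e (nat_lit 314) (nat_lit 23) .nil)))) .nil)))) (.nd (nat_lit 5) (.nd (nat_lit 6) 
(.lf (nat_lit 182043) (.g (nat_lit 499) (.e (nat_lit 57848) (nat_lit 252) (.e (nat_lit 57372) (nat_lit 2) (.e (nat_lit 90121) (nat_lit 9) .nil))) .nil)) 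
(.lf (nat_lit 182107) (.g (nat_lit 1054) (.e (nat_lit 57848) (nat_lit 252) (.e (nat_lit 57372) (nat_lit 2) (.e (nat_lit 98048) (nat_lit 11) .nil))) .nil))) (.nd (nat_lit 6) 
(.lf (nat_lit 182075) (.g (nat_lit 2294) (.e (nat_lit 57848) (nat_lit 252) (.e (nat_lit 57372) (nat_lit 2) (.e (nat_lit 90156) (nat_lit 11) (.e (nat_lit 24658) (nat_lit 13) (.e (nat_lit 393229) (nat_lit 9) (.e (nat_lit 335994) (nat_lit 1) .nil)))))) (.g (nat_lit 5) .nil .nil))) 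
(.lf (nat_lit 182139) (.g (nat_lit 2019) (.e (nat_lit 57848) (nat_lit 252) (.e (nat_lit 57375) (nat_lit 2) (.e (nat_lit 90121) (nat_lit 9) (.e (nat_lit 284) (nat_lit 21) (.e (nat_lit 336213) (nat_lit 13) .nil))))) .nil)))))) (.nd (nat_lit 3) (.nd (nat_lit 4) (.nd (nat_lit 5) (.nd (nat_lit 6) 
(.lf (nat_lit 182023) (.g (nat_lit 1964) (.e (nat_lit 57848) (nat_lit 252) (.e (nat_lit 57367) (nat_lit 1) (.e (nat_lit 57849) (nat_lit 252) (.e (nat_lit 57413) (nat_lit 12) (.e (nat_lit 336060) (nat_lit 7) .nil))))) .nil)) 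
(.lf (nat_lit 182087) (.g (nat_lit 3026) (.e (nat_lit 57848) (nat_lit 252) (.e (nat_lit 57372) (nat_lit 2) (.e (nat_lit 90160) (nat_lit 11) (.e (nat_lit 24580) (nat_lit 0) (.e (nat_lit 6508) (nat_lit 345) .nil))))) .nil))) (.nd (nat_lit 6) 
(.lf (nat_lit 182055) (.g (nat_lit 1638) (.e (nat_lit 57848) (nat_lit 252) (.e (nat_lit 57372) (nat_lit 2) (.e (nat_lit 90128) (nat_lit 9) (.e (nat_lit 310) (nat_lit 23) .nil)))) .nil)) 
(.lf (nat_lit 182119) (.g (nat_lit 650) (.e (nat_lit 57848) (nat_lit 252) (.e (nat_lit 57374) (nat_lit 2) (.e (nat_lit 90124) (nat_lit 9) .nil))) .nil)))) (.nd (nat_lit 5) (.nd (nat_lit 6) 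
(.lf (nat_lit 182039) (.g (nat_lit 1747) (.e (nat_lit 57848) (nat_lit 252) (.e (nat_lit 57371) (nat_lit 2) (.e (nat_lit 90160) (nat_lit 11) (.e (nat_lit 24625) (nat_lit 9) .nil)))) .nil)) 
(.lf (nat_lit 182103) (.g (nat_lit 2877) (.e (nat_lit 57848) (nat_lit 252) (.e (nat_lit 57372) (nat_lit 2) (.e (nat_lit 90160) (nat_lit 11) (.e (nat_lit 24638) (nat_lit 9) (.e (nat_lit 336387) (nat_lit 27) (.e (nat_lit 426500) (nat_lit 27) (.e (nat_lit 335995) (nat_lit 1) .nil))))))) (.g (nat_lit 4) .nil .nil)))) (.nd (nat_lit 6) 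
(.lf (nat_lit 182071) (.g (nat_lit 907) (.e (nat_lit 57848) (nat_lit 252) (.e (nat_lit 57372) (nat_lit 2) (.e (nat_lit 90154) (nat_lit 10) .nil))) .nil)) 
(.lf (nat_lit 182135) (.g (nat_lit 1054) (.e (nat_lit 57848) (nat_lit 252) (.e (nat_lit 57375) (nat_lit 2) (.e (nat_lit 90115) (nat_lit 0) .nil))) .nil))))) (.nd (nat_lit 4) (.nd (nat_lit 5) (.nd (nat_lit 6) 
(.lf (nat_lit 182031) (.g (nat_lit 3735) (.e (nat_lit 57848) (nat_lit 252) (.e (nat_lit 57368) (nat_lit 1) (.e (nat_lit 57854) (nat_lit 252) (.e (nat_lit 57412) (nat_lit 12) (.e (nat_lit 336060) (nat_lit 7) (.e (nat_lit 319534) (nat_lit 16) (.e (nat_lit 286749) (nat_lit 9) (.e (nat_lit 335997) (nat_lit 1) .nil)))))))) (.g (nat_lit 6) .nil .nil))) 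
(.lf (nat_lit 182095) (.g (nat_lit 1662) (.e (nat_lit 57848) (nat_lit 252) (.e (nat_lit 57372) (nat_lit 2) (.e (nat_lit 90160) (nat_lit 11) (.e (nat_lit 24624) (nat_lit 9) .nil)))) .nil))) (.nd (nat_lit 6) 
(.lf (nat_lit 182063) (.g (nat_lit 1306) (.e (nat_lit 57848) (nat_lit 252) (.e (nat_lit 57372) (nat_lit 2) (.e (nat_lit 90135) (nat_lit 9) .nil))) .nil)) 
(.lf (nat_lit 182127) (.g (nat_lit 3150) (.e (nat_lit 57848) (nat_lit 252) (.e (nat_lit 57374) (nat_lit 2) (.e (nat_lit 90134) (nat_lit 9) (.e (nat_lit 290) (nat_lit 21) (.e (nat_lit 336213) (nat_lit 13) (.e (nat_lit 393229) (nat_lit 9) (.e (nat_lit 335994) (nat_lit 1) .nil))))))) (.g (nat_lit 5) .nil .nil))))) (.nd (nat_lit 5) (.nd (nat_lit 6) 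
(.lf (nat_lit 182047) (.g (nat_lit 1344) (.e (nat_lit 57848) (nat_lit 252) (.e (nat_lit 57372) (nat_lit 2) (.e (nat_lit 90126) (nat_lit 9) .nil))) .nil)) 
(.lf (nat_lit 182111) (.g (nat_lit 2436) (.e (nat_lit 57848) (nat_lit 252) (.e (nat_lit 57373) (nat_lit 2) (.e (nat_lit 90158) (nat_lit 11) (.e (nat_lit 24658) (nat_lit 13) (.e (nat_lit 393229) (nat_lit 9) (.e (nat_lit 335994) (nat_lit 1) .nil)))))) (.g (nat_lit 4) .nil .nil)))) (.nd (nat_lit 6) 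
(.lf (nat_lit 182079) (.g (nat_lit 251) (.e (nat_lit 57848) (nat_lit 252) (.e (nat_lit 57372) (nat_lit 2) (.e (nat_lit 90159) (nat_lit 11) .nil))) .nil)) 
(.lf (nat_lit 182143) (.g (nat_lit 2286) (.e (nat_lit 57848) (nat_lit 252) (.e (nat_lit 57375) (nat_lit 2) (.e (nat_lit 90128) (nat_lit 9) (.e (nat_lit 232) (nat_lit 21) (.e (nat_lit 336217) (nat_lit 13) .nil))))) .nil)))))))))

noncomputable def tv2434 : DT := (.nd (nat_lit 0) (.nd (nat_lit 1) (.nd (nat_lit 2) (.nd (nat_lit 3) (.nd (nat_lit 4) (.nd (nat_lit 5) (.nd (nat_lit 6) 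
(.lf (nat_lit 182144) (.g (nat_lit 1579) (.e (nat_lit 57848) (nat_lit 252) (.e (nat_lit 57375) (nat_lit 2) (.e (nat_lit 90128) (nat_lit 9) (.e (nat_lit 293) (nat_lit 21) .nil)))) .nil)) 
(.lf (nat_lit 182208) (.g (nat_lit 242) (.e (nat_lit 57848) (nat_lit 252) (.e (nat_lit 57377) (nat_lit 3) (.e (nat_lit 98317) (nat_lit 9) .nil))) .nil))) (.nd (nat_lit 6) 
(.lf (nat_lit 182176) (.g (nat_lit 2582) (.e (nat_lit 57848) (nat_lit 252) (.e (nat_lit 57375) (nat_lit 2) (.e (nat_lit 90160) (nat_lit 11) (.e (nat_lit 24580) (nat_lit 0) .nil)))) .nil)) 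
(.lf (nat_lit 182240) (.g (nat_lit 3753) (.e (nat_lit 57848) (nat_lit 252) (.e (nat_lit 57377) (nat_lit 3) (.e (nat_lit 98317) (nat_lit 9) (.e (nat_lit 336223) (nat_lit 13) (.e (nat_lit 393225) (nat_lit 9) (.e (nat_lit 335995) (nat_lit 1) .nil)))))) (.g (nat_lit 0) .nil .nil))))) (.nd (nat_lit 5) (.nd (nat_lit 6) 
(.lf (nat_lit 182160) (.g (nat_lit 1954) (.e (nat_lit 57848) (nat_lit 252) (.e (nat_lit 57375) (nat_lit 2) (.e (nat_lit 90140) (nat_lit 9) (.e (nat_lit 284) (nat_lit 21) (.e (nat_lit 336213) (nat_lit 13) (.e (nat_lit 393229) (nat_lit 9) (.e (nat_lit 335994) (nat_lit 1) .nil))))))) (.g (nat_lit 4) .nil .nil))) 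
(.lf (nat_lit 182224) (.g (nat_lit 3659) (.e (nat_lit 57848) (nat_lit 252) (.e (nat_lit 57377) (nat_lit 3) (.e (nat_lit 98317) (nat_lit 9) (.e (nat_lit 336027) (nat_lit 3) .nil)))) .nil))) (.nd (nat_lit 6) 
(.lf (nat_lit 182192) (.g (nat_lit 2065) (.e (nat_lit 57848) (nat_lit 252) (.e (nat_lit 57375) (nat_lit 2) (.e (nat_lit 90160) (nat_lit 11) (.e (nat_lit 24634) (nat_lit 9) .nil)))) .nil)) 
(.lf (nat_lit 182256) (.g (nat_lit 1713) (.e (nat_lit 57848) (nat_lit 252) (.e (nat_lit 57379) (nat_lit 3) (.e (nat_lit 98313) (nat_lit 9) (.e (nat_lit 336222) (nat_lit 13) (.e (nat_lit 393229) (nat_lit 9) .nil))))) .nil))))) (.nd (nat_lit 4) (.nd (nat_lit 5) (.nd (nat_lit 6) 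
(.lf (nat_lit 182152) (.g (nat_lit 1144) (.e (nat_lit 57848) (nat_lit 252) (.e (nat_lit 57375) (nat_lit 2) (.e (nat_lit 90133) (nat_lit 9) .nil))) .nil)) 
(.lf (nat_lit 182216) (.g (nat_lit 4084) (.e (nat_lit 57848) (nat_lit 252) (.e (nat_lit 57377) (nat_lit 3) (.e (nat_lit 98317) (nat_lit 9) (.e (nat_lit 335926) (nat_lit 0) .nil)))) .nil))) (.nd (nat_lit 6) 
(.lf (nat_lit 182184) (.g (nat_lit 3282) (.e (nat_lit 57848) (nat_lit 252) (.e (nat_lit 57375) (nat_lit 2) (.e (nat_lit 90160) (nat_lit 11) (.e (nat_lit 24609) (nat_lit 3) (.e (nat_lit 98342) (nat_lit 20) .nil))))) .nil)) 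
(.lf (nat_lit 182248) (.g (nat_lit 2509) (.e (nat_lit 57848) (nat_lit 252) (.e (nat_lit 57378) (nat_lit 3) (.e (nat_lit 98317) (nat_lit 9) (.e (nat_lit 336088) (nat_lit 9) (.e (nat_lit 336454) (nat_lit 34) (.e (nat_lit 483366) (nat_lit 18) .nil)))))) (.g (nat_lit 4) .nil .nil))))) (.nd (nat_lit 5) (.nd (nat_lit 6) 
(.lf (nat_lit 182168) (.g (nat_lit 1623) (.e (nat_lit 57848) (nat_lit 252) (.e (nat_lit 57375) (nat_lit 2) (.e (nat_lit 90156) (nat_lit 11) (.e (nat_lit 24628) (nat_lit 9) (.e (nat_lit 336454) (nat_lit 34) .nil))))) .nil)) 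
(.lf (nat_lit 182232) (.g (nat_lit 4048) (.e (nat_lit 57848) (nat_lit 252) (.e (nat_lit 57377) (nat_lit 3) (.e (nat_lit 98317) (nat_lit 9) (.e (nat_lit 336150) (nat_lit 9) .nil)))) .nil))) (.nd (nat_lit 6) 
(.lf (nat_lit 182200) (.g (nat_lit 1646) (.e (nat_lit 57848) (nat_lit 252) (.e (nat_lit 57375) (nat_lit 2) (.e (nat_lit 90160) (nat_lit 11) (.e (nat_lit 24660) (nat_lit 13) .nil)))) .nil)) 
(.lf (nat_lit 182264) (.g (nat_lit 3372) (.e (nat_lit 57848) (nat_lit 252) (.e (nat_lit 57379) (nat_lit 3) (.e (nat_lit 98317) (nat_lit 9) (.e (nat_lit 336076) (nat_lit 9) (.e (nat_lit 336454) (nat_lit 34) (.e (nat_lit 483366) (nat_lit 18) .nil)))))) (.g (nat_lit 6) .nil .nil))))))) (.nd (nat_lit 3) (.nd (nat_lit 4) (.nd (nat_lit 5) (.nd (nat_lit 6) 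
(.lf (nat_lit 182148) (.g (nat_lit 1271) (.e (nat_lit 57848) (nat_lit 252) (.e (nat_lit 57375) (nat_lit 2) (.e (nat_lit 90129) (nat_lit 9) .nil))) .nil)) 
(.lf (nat_lit 182212) (.g (nat_lit 3256) (.e (nat_lit 57848) (nat_lit 252) (.e (nat_lit 57377) (nat_lit 3) (.e (nat_lit 98317) (nat_lit 9) (.e (nat_lit 335899) (nat_lit 0) .nil)))) .nil))) (.nd (nat_lit 6) 
(.lf (nat_lit 182180) (.g (nat_lit 2423) (.e (nat_lit 57848) (nat_lit 252) (.e (nat_lit 57375) (nat_lit 2) (.e (nat_lit 90160) (nat_lit 11) (.e (nat_lit 24606) (nat_lit 3) .nil)))) .nil)) 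
(.lf (nat_lit 182244) (.g (nat_lit 1288) (.e (nat_lit 57848) (nat_lit 252) (.e (nat_lit 57378) (nat_lit 3) (.e (nat_lit 98315) (nat_lit 9) (.e (nat_lit 336151) (nat_lit 9) .nil)))) .nil)))) (.nd (nat_lit 5) (.nd (nat_lit 6) 
(.lf (nat_lit 182164) (.g (nat_lit 1449) (.e (nat_lit 57848) (nat_lit 252) (.e (nat_lit 57375) (nat_lit 2) (.e (nat_lit 90147) (nat_lit 9) .nil))) .nil)) 
(.lf (nat_lit 182228) (.g (nat_lit 2285) (.e (nat_lit 57848) (nat_lit 252) (.e (nat_lit 57377) (nat_lit 3) (.e (nat_lit 98317) (nat_lit 9) (.e (nat_lit 336085) (nat_lit 9) .nil)))) .nil))) (.nd (nat_lit 6) 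
(.lf (nat_lit 182196) (.g (nat_lit 3071) (.e (nat_lit 57848) (nat_lit 252) (.e (nat_lit 57375) (nat_lit 2) (.e (nat_lit 90160) (nat_lit 11) (.e (nat_lit 24638) (nat_lit 9) (.e (nat_lit 336387) (nat_lit 27) (.e (nat_lit 426500) (nat_lit 27) (.e (nat_lit 335995) (nat_lit 1) .nil))))))) (.g (nat_lit 4) .nil .nil))) 
(.lf (nat_lit 182260) (.g (nat_lit 1878) (.e (nat_lit 57848) (nat_lit 252) (.e (nat_lit 57379) (nat_lit 3) (.e (nat_lit 98315) (nat_lit 9) (.e (nat_lit 336154) (nat_lit 9) (.e (nat_lit 336453) (nat_lit 34) (.e (nat_lit 483366) (nat_lit 18) .nil)))))) (.g (nat_lit 5) .nil .nil)))))) (.nd (nat_lit 4) (.nd (nat_lit 5) (.nd (nat_lit 6) 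
(.lf (nat_lit 182156) (.g (nat_lit 1466) (.e (nat_lit 57848) (nat_lit 252) (.e (nat_lit 57375) (nat_lit 2) (.e (nat_lit 90135) (nat_lit 9) (.e (nat_lit 284) (nat_lit 21) .nil)))) .nil)) 
(.lf (nat_lit 182220) (.g (nat_lit 4036) (.e (nat_lit 57848) (nat_lit 252) (.e (nat_lit 57377) (nat_lit 3) (.e (nat_lit 98317) (nat_lit 9) (.e (nat_lit 336020) (nat_lit 3) .nil)))) .nil))) (.nd (nat_lit 6) 
(.lf (nat_lit 182188) (.g (nat_lit 2418) (.e (nat_lit 57848) (nat_lit 252) (.e (nat_lit 57375) (nat_lit 2) (.e (nat_lit 90160) (nat_lit 11) (.e (nat_lit 24626) (nat_lit 9) .nil)))) .nil)) 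
(.lf (nat_lit 182252) (.g (nat_lit 1524) (.e (nat_lit 57848) (nat_lit 252) (.e (nat_lit 57379) (nat_lit 3) (.e (nat_lit 98312) (nat_lit 9) (.e (nat_lit 336076) (nat_lit 9) (.e (nat_lit 336454) (nat_lit 34) .nil))))) .nil)))) (.nd (nat_lit 5) (.nd (nat_lit 6) 
(.lf (nat_lit 182172) (.g (nat_lit 2885) (.e (nat_lit 57848) (nat_lit 252) (.e (nat_lit 57375) (nat_lit 2) (.e (nat_lit 90159) (nat_lit 11) (.e (nat_lit 24655) (nat_lit 13) (.e (nat_lit 393229) (nat_lit 9) (.e (nat_lit 335994) (nat_lit 1) .nil)))))) (.g (nat_lit 6) .nil .nil))) 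
(.lf (nat_lit 182236) (.g (nat_lit 4285) (.e (nat_lit 57848) (nat_lit 252) (.e (nat_lit 57377) (nat_lit 3) (.e (nat_lit 98317) (nat_lit 9) (.e (nat_lit 336213) (nat_lit 13) (.e (nat_lit 393225) (nat_lit 9) (.e (nat_lit 335995) (nat_lit 1) .nil)))))) (.g (nat_lit 0) .nil .nil)))) (.nd (nat_lit 6) 
(.lf (nat_lit 182204) (.g (nat_lit 1109) (.e (nat_lit 57848) (nat_lit 252) (.e (nat_lit 57377) (nat_lit 3) (.e (nat_lit 98313) (nat_lit 9) (.e (nat_lit 336100) (nat_lit 9) .nil)))) .nil)) 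
(.lf (nat_lit 182268) (.g (nat_lit 1838) (.e (nat_lit 57848) (nat_lit 252) (.e (nat_lit 57379) (nat_lit 3) (.e (nat_lit 98317) (nat_lit 9) (.e (nat_lit 336222) (nat_lit 13) (.e (nat_lit 393229) (nat_lit 9) .nil))))) .nil))))))) (.nd (nat_lit 2) (.nd (nat_lit 3) (.nd (nat_lit 4) (.nd (nat_lit 5) (.nd (nat_lit 6) 
(.lf (nat_lit 182146) (.g (nat_lit 1675) (.e (nat_lit 57848) (nat_lit 252) (.e (nat_lit 57375) (nat_lit 2) (.e (nat_lit 90128) (nat_lit 9) (.e (nat_lit 310) (nat_lit 23) .nil)))) .nil)) 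
(.lf (nat_lit 182210) (.g (nat_lit 3977) (.e (nat_lit 57848) (nat_lit 252) (.e (nat_lit 57377) (nat_lit 3) (.e (nat_lit 98317) (nat_lit 9) (.e (nat_lit 335895) (nat_lit 0) .nil)))) .nil))) (.nd (nat_lit 6) 
(.lf (nat_lit 182178) (.g (nat_lit 2801) (.e (nat_lit 57848) (nat_lit 252) (.e (nat_lit 57375) (nat_lit 2) (.e (nat_lit 90160) (nat_lit 11) (.e (nat_lit 24590) (nat_lit 0) .nil)))) .nil)) 
(.lf (nat_lit 182242) (.g (nat_lit 1052) (.e (nat_lit 57848) (nat_lit 252) (.e (nat_lit 57378) (nat_lit 3) (.e (nat_lit 98314) (nat_lit 9) .nil))) .nil)))) (.nd (nat_lit 5) (.nd (nat_lit 6) 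
(.lf (nat_lit 182162) (.g (nat_lit 1416) (.e (nat_lit 57848) (nat_lit 252) (.e (nat_lit 57375) (nat_lit 2) (.e (nat_lit 90145) (nat_lit 9) .nil))) .nil)) 
(.lf (nat_lit 182226) (.g (nat_lit 3360) (.e (nat_lit 57848) (nat_lit 252) (.e (nat_lit 57377) (nat_lit 3) (.e (nat_lit 98317) (nat_lit 9) (.e (nat_lit 336077) (nat_lit 9) .nil)))) .nil))) (.nd (nat_lit 6) 
(.lf (nat_lit 182194) (.g (nat_lit 1804) (.e (nat_lit 57848) (nat_lit 252) (.e (nat_lit 57375) (nat_lit 2) (.e (nat_lit 90160) (nat_lit 11) (.e (nat_lit 24636) (nat_lit 9) (.e (nat_lit 343808) (nat_lit 34) .nil))))) .nil)) 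
(.lf (nat_lit 182258) (.g (nat_lit 1969) (.e (nat_lit 57848) (nat_lit 252) (.e (nat_lit 57379) (nat_lit 3) (.e (nat_lit 98315) (nat_lit 9) (.e (nat_lit 336121) (nat_lit 9) (.e (nat_lit 336453) (nat_lit 34) (.e (nat_lit 483366) (nat_lit 18) .nil)))))) (.g (nat_lit 5) .nil .nil)))))) (.nd (nat_lit 4) (.nd (nat_lit 5) (.nd (nat_lit 6) 
(.lf (nat_lit 182154) (.g (nat_lit 2567) (.e (nat_lit 57848) (nat_lit 252) (.e (nat_lit 57375) (nat_lit 2) (.e (nat_lit 90134) (nat_lit 9) (.e (nat_lit 290) (nat_lit 21) (.e (nat_lit 336222) (nat_lit 13) .nil))))) .nil)) 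
(.lf (nat_lit 182218) (.g (nat_lit 4084) (.e (nat_lit 57848) (nat_lit 252) (.e (nat_lit 57377) (nat_lit 3) (.e (nat_lit 98317) (nat_lit 9) (.e (nat_lit 335933) (nat_lit 0) .nil)))) .nil))) (.nd (nat_lit 6) 
(.lf (nat_lit 182186) (.g (nat_lit 1789) (.e (nat_lit 57848) (nat_lit 252) (.e (nat_lit 57375) (nat_lit 2) (.e (nat_lit 90160) (nat_lit 11) (.e (nat_lit 24624) (nat_lit 9) .nil)))) .nil)) 
(.lf (nat_lit 182250) (.g (nat_lit 2233) (.e (nat_lit 57848) (nat_lit 252) (.e (nat_lit 57378) (nat_lit 3) (.e (nat_lit 98317) (nat_lit 9) (.e (nat_lit 336223) (nat_lit 13) (.e (nat_lit 393229) (nat_lit 9) (.e (nat_lit 335994) (nat_lit 1) .nil)))))) (.g (nat_lit 4) .nil .nil))))) (.nd (nat_lit 5) (.nd (nat_lit 6) 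
(.lf (nat_lit 182170) (.g (nat_lit 3060) (.e (nat_lit 57848) (nat_lit 252) (.e (nat_lit 57375) (nat_lit 2) (.e (nat_lit 90158) (nat_lit 11) (.e (nat_lit 24625) (nat_lit 9) (.e (nat_lit 336454) (nat_lit 34) (.e (nat_lit 483366) (nat_lit 18) .nil)))))) (.g (nat_lit 6) .nil .nil))) 
(.lf (nat_lit 182234) (.g (nat_lit 2821) (.e (nat_lit 57848) (nat_lit 252) (.e (nat_lit 57377) (nat_lit 3) (.e (nat_lit 98317) (nat_lit 9) (.e (nat_lit 336196) (nat_lit 12) .nil)))) .nil))) (.nd (nat_lit 6) 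
(.lf (nat_lit 182202) (.g (nat_lit 721) (.e (nat_lit 57848) (nat_lit 252) (.e (nat_lit 57377) (nat_lit 3) (.e (nat_lit 98312) (nat_lit 9) .nil))) .nil)) 
(.lf (nat_lit 182266) (.g (nat_lit 1490) (.e (nat_lit 57848) (nat_lit 252) (.e (nat_lit 57379) (nat_lit 3) (.e (nat_lit 98317) (nat_lit 9) (.e (nat_lit 336087) (nat_lit 9) .nil)))) .nil)))))) (.nd (nat_lit 3) (.nd (nat_lit 4) (.nd (nat_lit 5) (.nd (nat_lit 6) 
(.lf (nat_lit 182150) (.g (nat_lit 937) (.e (nat_lit 57848) (nat_lit 252) (.e (nat_lit 57375) (nat_lit 2) (.e (nat_lit 90130) (nat_lit 9) (.e (nat_lit 7936) (nat_lit 23) .nil)))) .nil)) 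
(.lf (nat_lit 182214) (.g (nat_lit 4084) (.e (nat_lit 57848) (nat_lit 252) (.e (nat_lit 57377) (nat_lit 3) (.e (nat_lit 98317) (nat_lit 9) (.e (nat_lit 335913) (nat_lit 0) .nil)))) .nil))) (.nd (nat_lit 6) 
(.lf (nat_lit 182182) (.g (nat_lit 4571) (.e (nat_lit 57848) (nat_lit 252) (.e (nat_lit 57375) (nat_lit 2) (.e (nat_lit 90160) (nat_lit 11) (.e (nat_lit 24607) (nat_lit 3) (.e (nat_lit 98342) (nat_lit 20) (.e (nat_lit 221212) (nat_lit 22) (.e (nat_lit 196626) (nat_lit 9) (.e (nat_lit 1183) (nat_lit 87) .nil)))))))) (.g (nat_lit 4) .nil .nil))) 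
(.lf (nat_lit 182246) (.g (nat_lit 2696) (.e (nat_lit 57848) (nat_lit 252) (.e (nat_lit 57378) (nat_lit 3) (.e (nat_lit 98317) (nat_lit 9) (.e (nat_lit 336076) (nat_lit 9) (.e (nat_lit 336454) (nat_lit 34) (.e (nat_lit 483366) (nat_lit 18) .nil)))))) (.g (nat_lit 4) .nil .nil))))) (.nd (nat_lit 5) (.nd (nat_lit 6) 
(.lf (nat_lit 182166) (.g (nat_lit 1013) (.e (nat_lit 57848) (nat_lit 252) (.e (nat_lit 57375) (nat_lit 2) (.e (nat_lit 90155) (nat_lit 10) .nil))) .nil)) 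
(.lf (nat_lit 182230) (.g (nat_lit 3941) (.e (nat_lit 57848) (nat_lit 252) (.e (nat_lit 57377) (nat_lit 3) (.e (nat_lit 98317) (nat_lit 9) (.e (nat_lit 336091) (nat_lit 9) .nil)))) .nil))) (.nd (nat_lit 6) 
(.lf (nat_lit 182198) (.g (nat_lit 2380) (.e (nat_lit 57848) (nat_lit 252) (.e (nat_lit 57375) (nat_lit 2) (.e (nat_lit 90160) (nat_lit 11) (.e (nat_lit 24656) (nat_lit 13) .nil)))) .nil)) 
(.lf (nat_lit 182262) (.g (nat_lit 636) (.e (nat_lit 57848) (nat_lit 252) (.e (nat_lit 57379) (nat_lit 3) (.e (nat_lit 98316) (nat_lit 9) .nil))) .nil))))) (.nd (nat_lit 4) (.nd (nat_lit 5) (.nd (nat_lit 6) 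
(.lf (nat_lit 182158) (.g (nat_lit 2355) (.e (nat_lit 57848) (nat_lit 252) (.e (nat_lit 57375) (nat_lit 2) (.e (nat_lit 90137) (nat_lit 9) (.e (nat_lit 284) (nat_lit 21) (.e (nat_lit 336213) (nat_lit 13) .nil))))) .nil)) 
(.lf (nat_lit 182222) (.g (nat_lit 4089) (.e (nat_lit 57848) (nat_lit 252) (.e (nat_lit 57377) (nat_lit 3) (.e (nat_lit 98317) (nat_lit 9) (.e (nat_lit 336025) (nat_lit 3) .nil)))) .nil))) (.nd (nat_lit 6) 
(.lf (nat_lit 182190) (.g (nat_lit 2642) (.e (nat_lit 57848) (nat_lit 252) (.e (nat_lit 57375) (nat_lit 2) (.e (nat_lit 90160) (nat_lit 11) (.e (nat_lit 24629) (nat_lit 9) .nil)))) .nil)) 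
(.lf (nat_lit 182254) (.g (nat_lit 2779) (.e (nat_lit 57848) (nat_lit 252) (.e (nat_lit 57379) (nat_lit 3) (.e (nat_lit 98313) (nat_lit 9) (.e (nat_lit 336076) (nat_lit 9) (.e (nat_lit 336454) (nat_lit 34) (.e (nat_lit 483366) (nat_lit 18) .nil)))))) (.g (nat_lit 6) .nil .nil))))) (.nd (nat_lit 5) (.nd (nat_lit 6) 
(.lf (nat_lit 182174) (.g (nat_lit 2382) (.e (nat_lit 57848) (nat_lit 252) (.e (nat_lit 57375) (nat_lit 2) (.e (nat_lit 90159) (nat_lit 11) (.e (nat_lit 24658) (nat_lit 13) (.e (nat_lit 393229) (nat_lit 9) (.e (nat_lit 335994) (nat_lit 1) .nil)))))) (.g (nat_lit 5) .nil .nil))) 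
(.lf (nat_lit 182238) (.g (nat_lit 1883) (.e (nat_lit 57848) (nat_lit 252) (.e (nat_lit 57377) (nat_lit 3) (.e (nat_lit 98317) (nat_lit 9) (.e (nat_lit 336221) (nat_lit 13) .nil)))) .nil))) (.nd (nat_lit 6) 
(.lf (nat_lit 182206) (.g (nat_lit 1374) (.e (nat_lit 57848) (nat_lit 252) (.e (nat_lit 57377) (nat_lit 3) (.e (nat_lit 98315) (nat_lit 9) (.e (nat_lit 336151) (nat_lit 9) (.e (nat_lit 336453) (nat_lit 34) (.e (nat_lit 483366) (nat_lit 18) .nil)))))) (.g (nat_lit 4) .nil .nil))) 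
(.lf (nat_lit 182270) (.g (nat_lit 2023) (.e (nat_lit 57848) (nat_lit 252) (.e (nat_lit 57383) (nat_lit 4) (.e (nat_lit 106534) (nat_lit 11) (.e (nat_lit 16468) (nat_lit 13) (.e (nat_lit 483378) (nat_lit 23) (.e (nat_lit 335997) (nat_lit 1) .nil)))))) (.g (nat_lit 0) .nil .nil))))))))) (.nd (nat_lit 1) (.nd (nat_lit 2) (.nd (nat_lit 3) (.nd (nat_lit 4) (.nd (nat_lit 5) (.nd (nat_lit 6) 
(.lf (nat_lit 182145) (.g (nat_lit 1796) (.e (nat_lit 57848) (nat_lit 252) (.e (nat_lit 57375) (nat_lit 2) (.e (nat_lit 90128) (nat_lit 9) (.e (nat_lit 293) (nat_lit 21) (.e (nat_lit 336119) (nat_lit 9) .nil))))) .nil)) 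
(.lf (nat_lit 182209) (.g (nat_lit 3890) (.e (nat_lit 57848) (nat_lit 252) (.e (nat_lit 57377) (nat_lit 3) (.e (nat_lit 98317) (nat_lit 9) (.e (nat_lit 335892) (nat_lit 0) .nil)))) .nil))) (.nd (nat_lit 6) 
(.lf (nat_lit 182177) (.g (nat_lit 2372) (.e (nat_lit 57848) (nat_lit 252) (.e (nat_lit 57375) (nat_lit 2) (.e (nat_lit 90160) (nat_lit 11) (.e (nat_lit 24584) (nat_lit 0) .nil)))) .nil)) 
(.lf (nat_lit 182241) (.g (nat_lit 362) (.e (nat_lit 57848) (nat_lit 252) (.e (nat_lit 57377) (nat_lit 3) (.e (nat_lit 106240) (nat_lit 9) .nil))) .nil)))) (.nd (nat_lit 5) (.nd (nat_lit 6) 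
(.lf (nat_lit 182161) (.g (nat_lit 1442) (.e (nat_lit 57848) (nat_lit 252) (.e (nat_lit 57375) (nat_lit 2) (.e (nat_lit 90143) (nat_lit 9) .nil))) .nil)) 
(.lf (nat_lit 182225) (.g (nat_lit 3069) (.e (nat_lit 57848) (nat_lit 252) (.e (nat_lit 57377) (nat_lit 3) (.e (nat_lit 98317) (nat_lit 9) (.e (nat_lit 336073) (nat_lit 9) .nil)))) .nil))) (.nd (nat_lit 6) 
(.lf (nat_lit 182193) (.g (nat_lit 1398) (.e (nat_lit 57848) (nat_lit 252) (.e (nat_lit 57375) (nat_lit 2) (.e (nat_lit 90160) (nat_lit 11) (.e (nat_lit 24636) (nat_lit 9) .nil)))) .nil)) 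
(.lf (nat_lit 182257) (.g (nat_lit 1860) (.e (nat_lit 57848) (nat_lit 252) (.e (nat_lit 57379) (nat_lit 3) (.e (nat_lit 98315) (nat_lit 9) (.e (nat_lit 336118) (nat_lit 9) (.e (nat_lit 336453) (nat_lit 34) (.e (nat_lit 483366) (nat_lit 18) .nil)))))) (.g (nat_lit 5) .nil .nil)))))) (.nd (nat_lit 4) (.nd (nat_lit 5) (.nd (nat_lit 6) 
(.lf (nat_lit 182153) (.g (nat_lit 3254) (.e (nat_lit 57848) (nat_lit 252) (.e (nat_lit 57375) (nat_lit 2) (.e (nat_lit 90134) (nat_lit 9) (.e (nat_lit 290) (nat_lit 21) (.e (nat_lit 336213) (nat_lit 13) (.e (nat_lit 393229) (nat_lit 9) (.e (nat_lit 335994) (nat_lit 1) .nil))))))) (.g (nat_lit 4) .nil .nil))) 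
(.lf (nat_lit 182217) (.g (nat_lit 4084) (.e (nat_lit 57848) (nat_lit 252) (.e (nat_lit 57377) (nat_lit 3) (.e (nat_lit 98317) (nat_lit 9) (.e (nat_lit 335931) (nat_lit 0) .nil)))) .nil))) (.nd (nat_lit 6) 
(.lf (nat_lit 182185) (.g (nat_lit 2852) (.e (nat_lit 57848) (nat_lit 252) (.e (nat_lit 57375) (nat_lit 2) (.e (nat_lit 90160) (nat_lit 11) (.e (nat_lit 24623) (nat_lit 9) (.e (nat_lit 336456) (nat_lit 34) (.e (nat_lit 483365) (nat_lit 18) .nil)))))) (.g (nat_lit 4) .nil .nil))) 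
(.lf (nat_lit 182249) (.g (nat_lit 2570) (.e (nat_lit 57848) (nat_lit 252) (.e (nat_lit 57378) (nat_lit 3) (.e (nat_lit 98317) (nat_lit 9) (.e (nat_lit 336213) (nat_lit 13) (.e (nat_lit 393229) (nat_lit 9) (.e (nat_lit 335994) (nat_lit 1) .nil)))))) (.g (nat_lit 4) .nil .nil))))) (.nd (nat_lit 5) (.nd (nat_lit 6) 
(.lf (nat_lit 182169) (.g (nat_lit 2763) (.e (nat_lit 57848) (nat_lit 252) (.e (nat_lit 57375) (nat_lit 2) (.e (nat_lit 90157) (nat_lit 11) (.e (nat_lit 24655) (nat_lit 13) (.e (nat_lit 393229) (nat_lit 9) (.e (nat_lit 335995) (nat_lit 1) .nil)))))) (.g (nat_lit 4) .nil .nil))) 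
(.lf (nat_lit 182233) (.g (nat_lit 2353) (.e (nat_lit 57848) (nat_lit 252) (.e (nat_lit 57377) (nat_lit 3) (.e (nat_lit 98317) (nat_lit 9) (.e (nat_lit 343808) (nat_lit 9) .nil)))) .nil))) (.nd (nat_lit 6) 
(.lf (nat_lit 182201) (.g (nat_lit 1540) (.e (nat_lit 57848) (nat_lit 252) (.e (nat_lit 57375) (nat_lit 2) (.e (nat_lit 90165) (nat_lit 12) .nil))) .nil)) 
(.lf (nat_lit 182265) (.g (nat_lit 1558) (.e (nat_lit 57848) (nat_lit 252) (.e (nat_lit 57379) (nat_lit 3) (.e (nat_lit 98317) (nat_lit 9) (.e (nat_lit 336085) (nat_lit 9) .nil)))) .nil)))))) (.nd (nat_lit 3) (.nd (nat_lit 4) (.nd (nat_lit 5) (.nd (nat_lit 6) 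
(.lf (nat_lit 182149) (.g (nat_lit 472) (.e (nat_lit 57848) (nat_lit 252) (.e (nat_lit 57375) (nat_lit 2) (.e (nat_lit 90130) (nat_lit 9) .nil))) .nil)) 
(.lf (nat_lit 182213) (.g (nat_lit 4084) (.e (nat_lit 57848) (nat_lit 252) (.e (nat_lit 57377) (nat_lit 3) (.e (nat_lit 98317) (nat_lit 9) (.e (nat_lit 335912) (nat_lit 0) .nil)))) .nil))) (.nd (nat_lit 6) 
(.lf (nat_lit 182181) (.g (nat_lit 2710) (.e (nat_lit 57848) (nat_lit 252) (.e (nat_lit 57375) (nat_lit 2) (.e (nat_lit 90160) (nat_lit 11) (.e (nat_lit 24607) (nat_lit 3) .nil)))) .nil)) 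
(.lf (nat_lit 182245) (.g (nat_lit 711) (.e (nat_lit 57848) (nat_lit 252) (.e (nat_lit 57378) (nat_lit 3) (.e (nat_lit 98317) (nat_lit 9) .nil))) .nil)))) (.nd (nat_lit 5) (.nd (nat_lit 6) 
(.lf (nat_lit 182165) (.g (nat_lit 1332) (.e (nat_lit 57848) (nat_lit 252) (.e (nat_lit 57375) (nat_lit 2) (.e (nat_lit 90154) (nat_lit 10) (.e (nat_lit 16128) (nat_lit 254) .nil)))) .nil)) 
(.lf (nat_lit 182229) (.g (nat_lit 2912) (.e (nat_lit 57848) (nat_lit 252) (.e (nat_lit 57377) (nat_lit 3) (.e (nat_lit 98317) (nat_lit 9) (.e (nat_lit 336087) (nat_lit 9) .nil)))) .nil))) (.nd (nat_lit 6) 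
(.lf (nat_lit 182197) (.g (nat_lit 2627) (.e (nat_lit 57848) (nat_lit 252) (.e (nat_lit 57375) (nat_lit 2) (.e (nat_lit 90160) (nat_lit 11) (.e (nat_lit 24638) (nat_lit 9) (.e (nat_lit 343808) (nat_lit 34) .nil))))) .nil)) 
(.lf (nat_lit 182261) (.g (nat_lit 1288) (.e (nat_lit 57848) (nat_lit 252) (.e (nat_lit 57379) (nat_lit 3) (.e (nat_lit 98315) (nat_lit 9) (.e (nat_lit 336154) (nat_lit 9) (.e (nat_lit 343808) (nat_lit 34) .nil))))) .nil))))) (.nd (nat_lit 4) (.nd (nat_lit 5) (.nd (nat_lit 6) 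
(.lf (nat_lit 182157) (.g (nat_lit 1371) (.e (nat_lit 57848) (nat_lit 252) (.e (nat_lit 57375) (nat_lit 2) (.e (nat_lit 90137) (nat_lit 9) .nil))) .nil)) 
(.lf (nat_lit 182221) (.g (nat_lit 2551) (.e (nat_lit 57848) (nat_lit 252) (.e (nat_lit 57377) (nat_lit 3) (.e (nat_lit 98317) (nat_lit 9) (.e (nat_lit 336021) (nat_lit 3) (.e (nat_lit 98342) (nat_lit 20) .nil))))) .nil))) (.nd (nat_lit 6) 
(.lf (nat_lit 182189) (.g (nat_lit 2025) (.e (nat_lit 57848) (nat_lit 252) (.e (nat_lit 57375) (nat_lit 2) (.e (nat_lit 90160) (nat_lit 11) (.e (nat_lit 24628) (nat_lit 9) (.e (nat_lit 336456) (nat_lit 34) .nil))))) .nil)) 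
(.lf (nat_lit 182253) (.g (nat_lit 564) (.e (nat_lit 57848) (nat_lit 252) (.e (nat_lit 57379) (nat_lit 3) (.e (nat_lit 98313) (nat_lit 9) .nil))) .nil)))) (.nd (nat_lit 5) (.nd (nat_lit 6) 
(.lf (nat_lit 182173) (.g (nat_lit 3690) (.e (nat_lit 57848) (nat_lit 252) (.e (nat_lit 57375) (nat_lit 2) (.e (nat_lit 90159) (nat_lit 11) (.e (nat_lit 24657) (nat_lit 13) (.e (nat_lit 393225) (nat_lit 9) (.e (nat_lit 335995) (nat_lit 1) .nil)))))) (.g (nat_lit 0) .nil .nil))) 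
(.lf (nat_lit 182237) (.g (nat_lit 1661) (.e (nat_lit 57848) (nat_lit 252) (.e (nat_lit 57377) (nat_lit 3) (.e (nat_lit 98317) (nat_lit 9) (.e (nat_lit 336215) (nat_lit 13) (.e (nat_lit 393227) (nat_lit 9) (.e (nat_lit 343808) (nat_lit 1) .nil)))))) (.g (nat_lit 5) .nil .nil)))) (.nd (nat_lit 6) 
(.lf (nat_lit 182205) (.g (nat_lit 931) (.e (nat_lit 57848) (nat_lit 252) (.e (nat_lit 57377) (nat_lit 3) (.e (nat_lit 98315) (nat_lit 9) (.e (nat_lit 336150) (nat_lit 9) (.e (nat_lit 336453) (nat_lit 34) .nil))))) .nil)) 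
(.lf (nat_lit 182269) (.g (nat_lit 468) (.e (nat_lit 57848) (nat_lit 252) (.e (nat_lit 57379) (nat_lit 3) (.e (nat_lit 106240) (nat_lit 9) .nil))) .nil))))))) (.nd (nat_lit 2) (.nd (nat_lit 3) (.nd (nat_lit 4) (.nd (nat_lit 5) (.nd (nat_lit 6) 
(.lf (nat_lit 182147) (.g (nat_lit 1674) (.e (nat_lit 57848) (nat_lit 252) (.e (nat_lit 57375) (nat_lit 2) (.e (nat_lit 90128) (nat_lit 9) (.e (nat_lit 315) (nat_lit 23) .nil)))) .nil)) 
(.lf (nat_lit 182211) (.g (nat_lit 4082) (.e (nat_lit 57848) (nat_lit 252) (.e (nat_lit 57377) (nat_lit 3) (.e (nat_lit 98317) (nat_lit 9) (.e (nat_lit 335898) (nat_lit 0) .nil)))) .nil))) (.nd (nat_lit 6) 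
(.lf (nat_lit 182179) (.g (nat_lit 2789) (.e (nat_lit 57848) (nat_lit 252) (.e (nat_lit 57375) (nat_lit 2) (.e (nat_lit 90160) (nat_lit 11) (.e (nat_lit 24591) (nat_lit 0) .nil)))) .nil)) 
(.lf (nat_lit 182243) (.g (nat_lit 1044) (.e (nat_lit 57848) (nat_lit 252) (.e (nat_lit 57378) (nat_lit 3) (.e (nat_lit 98315) (nat_lit 9) .nil))) .nil)))) (.nd (nat_lit 5) (.nd (nat_lit 6) 
(.lf (nat_lit 182163) (.g (nat_lit 1527) (.e (nat_lit 57848) (nat_lit 252) (.e (nat_lit 57375) (nat_lit 2) (.e (nat_lit 90145) (nat_lit 9) (.e (nat_lit 284) (nat_lit 21) .nil)))) .nil)) 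
(.lf (nat_lit 182227) (.g (nat_lit 2775) (.e (nat_lit 57848) (nat_lit 252) (.e (nat_lit 57377) (nat_lit 3) (.e (nat_lit 98317) (nat_lit 9) (.e (nat_lit 336084) (nat_lit 9) .nil)))) .nil))) (.nd (nat_lit 6) 
(.lf (nat_lit 182195) (.g (nat_lit 2022) (.e (nat_lit 57848) (nat_lit 252) (.e (nat_lit 57375) (nat_lit 2) (.e (nat_lit 90160) (nat_lit 11) (.e (nat_lit 24638) (nat_lit 9) .nil)))) .nil)) 
(.lf (nat_lit 182259) (.g (nat_lit 1671) (.e (nat_lit 57848) (nat_lit 252) (.e (nat_lit 57379) (nat_lit 3) (.e (nat_lit 98315) (nat_lit 9) (.e (nat_lit 336153) (nat_lit 9) (.e (nat_lit 336453) (nat_lit 34) (.e (nat_lit 483366) (nat_lit 18) .nil)))))) (.g (nat_lit 4) .nil .nil)))))) (.nd (nat_lit 4) (.nd (nat_lit 5) (.nd (nat_lit 6) 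
(.lf (nat_lit 182155) (.g (nat_lit 1428) (.e (nat_lit 57848) (nat_lit 252) (.e (nat_lit 57375) (nat_lit 2) (.e (nat_lit 90135) (nat_lit 9) .nil))) .nil)) 
(.lf (nat_lit 182219) (.g (nat_lit 4083) (.e (nat_lit 57848) (nat_lit 252) (.e (nat_lit 57377) (nat_lit 3) (.e (nat_lit 98317) (nat_lit 9) (.e (nat_lit 335934) (nat_lit 0) .nil)))) .nil))) (.nd (nat_lit 6) 
(.lf (nat_lit 182187) (.g (nat_lit 2094) (.e (nat_lit 57848) (nat_lit 252) (.e (nat_lit 57375) (nat_lit 2) (.e (nat_lit 90160) (nat_lit 11) (.e (nat_lit 24625) (nat_lit 9) (.e (nat_lit 336456) (nat_lit 34) .nil))))) .nil)) 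
(.lf (nat_lit 182251) (.g (nat_lit 660) (.e (nat_lit 57848) (nat_lit 252) (.e (nat_lit 57378) (nat_lit 3) (.e (nat_lit 106240) (nat_lit 11) .nil))) .nil)))) (.nd (nat_lit 5) (.nd (nat_lit 6) 
(.lf (nat_lit 182171) (.g (nat_lit 223) (.e (nat_lit 57848) (nat_lit 252) (.e (nat_lit 57375) (nat_lit 2) (.e (nat_lit 90159) (nat_lit 11) .nil))) .nil)) 
(.lf (nat_lit 182235) (.g (nat_lit 4078) (.e (nat_lit 57848) (nat_lit 252) (.e (nat_lit 57377) (nat_lit 3) (.e (nat_lit 98317) (nat_lit 9) (.e (nat_lit 336203) (nat_lit 12) .nil)))) .nil))) (.nd (nat_lit 6) 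
(.lf (nat_lit 182203) (.g (nat_lit 2767) (.e (nat_lit 57848) (nat_lit 252) (.e (nat_lit 57377) (nat_lit 3) (.e (nat_lit 98313) (nat_lit 9) (.e (nat_lit 336088) (nat_lit 9) (.e (nat_lit 336454) (nat_lit 34) (.e (nat_lit 483366) (nat_lit 18) .nil)))))) (.g (nat_lit 6) .nil .nil))) 
(.lf (nat_lit 182267) (.g (nat_lit 1331) (.e (nat_lit 57848) (nat_lit 252) (.e (nat_lit 57379) (nat_lit 3) (.e (nat_lit 98317) (nat_lit 9) (.e (nat_lit 336088) (nat_lit 9) .nil)))) .nil)))))) (.nd (nat_lit 3) (.nd (nat_lit 4) (.nd (nat_lit 5) (.nd (nat_lit 6) 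
(.lf (nat_lit 182151) (.g (nat_lit 1394) (.e (nat_lit 57848) (nat_lit 252) (.e (nat_lit 57375) (nat_lit 2) (.e (nat_lit 90131) (nat_lit 9) .nil))) .nil)) 
(.lf (nat_lit 182215) (.g (nat_lit 4084) (.e (nat_lit 57848) (nat_lit 252) (.e (nat_lit 57377) (nat_lit 3) (.e (nat_lit 98317) (nat_lit 9) (.e (nat_lit 335914) (nat_lit 0) .nil)))) .nil))) (.nd (nat_lit 6) 
(.lf (nat_lit 182183) (.g (nat_lit 2247) (.e (nat_lit 57848) (nat_lit 252) (.e (nat_lit 57375) (nat_lit 2) (.e (nat_lit 90160) (nat_lit 11) (.e (nat_lit 24608) (nat_lit 3) .nil)))) .nil)) 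
(.lf (nat_lit 182247) (.g (nat_lit 1867) (.e (nat_lit 57848) (nat_lit 252) (.e (nat_lit 57378) (nat_lit 3) (.e (nat_lit 98317) (nat_lit 9) (.e (nat_lit 336086) (nat_lit 9) (.e (nat_lit 336454) (nat_lit 34) .nil))))) .nil)))) (.nd (nat_lit 5) (.nd (nat_lit 6) 
(.lf (nat_lit 182167) (.g (nat_lit 1709) (.e (nat_lit 57848) (nat_lit 252) (.e (nat_lit 57375) (nat_lit 2) (.e (nat_lit 90156) (nat_lit 11) (.e (nat_lit 24625) (nat_lit 9) (.e (nat_lit 336454) (nat_lit 34) .nil))))) .nil)) 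
(.lf (nat_lit 182231) (.g (nat_lit 3630) (.e (nat_lit 57848) (nat_lit 252) (.e (nat_lit 57377) (nat_lit 3) (.e (nat_lit 98317) (nat_lit 9) (.e (nat_lit 336100) (nat_lit 9) .nil)))) .nil))) (.nd (nat_lit 6) 
(.lf (nat_lit 182199) (.g (nat_lit 3468) (.e (nat_lit 57848) (nat_lit 252) (.e (nat_lit 57375) (nat_lit 2) (.e (nat_lit 90160) (nat_lit 11) (.e (nat_lit 24657) (nat_lit 13) (.e (nat_lit 393225) (nat_lit 9) .nil))))) .nil)) 
(.lf (nat_lit 182263) (.g (nat_lit 1701) (.e (nat_lit 57848) (nat_lit 252) (.e (nat_lit 57379) (nat_lit 3) (.e (nat_lit 98316) (nat_lit 9) (.e (nat_lit 336076) (nat_lit 9) (.e (nat_lit 336454) (nat_lit 34) .nil))))) .nil))))) (.nd (nat_lit 4) (.nd (nat_lit 5) (.nd (nat_lit 6) 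
(.lf (nat_lit 182159) (.g (nat_lit 770) (.e (nat_lit 57848) (nat_lit 252) (.e (nat_lit 57375) (nat_lit 2) (.e (nat_lit 90140) (nat_lit 9) .nil))) .nil)) 
(.lf (nat_lit 182223) (.g (nat_lit 3918) (.e (nat_lit 57848) (nat_lit 252) (.e (nat_lit 57377) (nat_lit 3) (.e (nat_lit 98317) (nat_lit 9) (.e (nat_lit 336026) (nat_lit 3) .nil)))) .nil))) (.nd (nat_lit 6) 
(.lf (nat_lit 182191) (.g (nat_lit 2801) (.e (nat_lit 57848) (nat_lit 252) (.e (nat_lit 57375) (nat_lit 2) (.e (nat_lit 90160) (nat_lit 11) (.e (nat_lit 24631) (nat_lit 9) .nil)))) .nil)) 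
(.lf (nat_lit 182255) (.g (nat_lit 1362) (.e (nat_lit 57848) (nat_lit 252) (.e (nat_lit 57379) (nat_lit 3) (.e (nat_lit 98313) (nat_lit 9) (.e (nat_lit 336086) (nat_lit 9) .nil)))) .nil)))) (.nd (nat_lit 5) (.nd (nat_lit 6) 
(.lf (nat_lit 182175) (.g (nat_lit 3068) (.e (nat_lit 57848) (nat_lit 252) (.e (nat_lit 57375) (nat_lit 2) (.e (nat_lit 90159) (nat_lit 11) (.e (nat_lit 24660) (nat_lit 13) (.e (nat_lit 393225) (nat_lit 9) (.e (nat_lit 335995) (nat_lit 1) .nil)))))) (.g (nat_lit 0) .nil .nil))) 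
(.lf (nat_lit 182239) (.g (nat_lit 1639) (.e (nat_lit 57848) (nat_lit 252) (.e (nat_lit 57377) (nat_lit 3) (.e (nat_lit 98317) (nat_lit 9) (.e (nat_lit 336222) (nat_lit 13) (.e (nat_lit 393224) (nat_lit 9) .nil))))) .nil))) (.nd (nat_lit 6) 
(.lf (nat_lit 182207) (.g (nat_lit 1553) (.e (nat_lit 57848) (nat_lit 252) (.e (nat_lit 57377) (nat_lit 3) (.e (nat_lit 98315) (nat_lit 9) (.e (nat_lit 336153) (nat_lit 9) (.e (nat_lit 336453) (nat_lit 34) (.e (nat_lit 483366) (nat_lit 18) .nil)))))) (.g (nat_lit 5) .nil .nil))) 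
(.lf (nat_lit 182271) (.g (nat_lit 1004) (.e (nat_lit 57848) (nat_lit 252) (.e (nat_lit 57383) (nat_lit 4) (.e (nat_lit 106534) (nat_lit 11) (.e (nat_lit 16468) (nat_lit 13) (.e (nat_lit 483389) (nat_lit 23) (.e (nat_lit 335991) (nat_lit 1) .nil)))))) (.g (nat_lit 4) .nil .nil))))))))))

noncomputable def tv2435 : DT := (.nd (nat_lit 0) (.nd (nat_lit 1) (.nd (nat_lit 2) (.nd (nat_lit 3) (.nd (nat_lit 4) (.nd (nat_lit 5) (.nd (nat_lit 6) 
(.lf (nat_lit 182272) (.g (nat_lit 836) (.e (nat_lit 57848) (nat_lit 252) (.e (nat_lit 57385) (nat_lit 4) (.e (nat_lit 106534) (nat_lit 11) (.e (nat_lit 16468) (nat_lit 13) (.e (nat_lit 483389) (nat_lit 23) .nil))))) .nil)) 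
(.lf (nat_lit 182336) (.g (nat_lit 1675) (.e (nat_lit 57848) (nat_lit 252) (.e (nat_lit 57407) (nat_lit 12) (.e (nat_lit 336446) (nat_lit 33) (.e (nat_lit 475212) (nat_lit 42) (.e (nat_lit 720956) (nat_lit 25) .nil))))) .nil))) (.nd (nat_lit 6) 
(.lf (nat_lit 182304) (.g (nat_lit 2128) (.e (nat_lit 57848) (nat_lit 252) (.e (nat_lit 57407) (nat_lit 12) (.e (nat_lit 336019) (nat_lit 3) (.e (nat_lit 98342) (nat_lit 20) (.e (nat_lit 229120) (nat_lit 1) .nil))))) .nil)) 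
(.lf (nat_lit 182368) (.g (nat_lit 1853) (.e (nat_lit 57848) (nat_lit 252) (.e (nat_lit 57408) (nat_lit 12) (.e (nat_lit 336454) (nat_lit 34) (.e (nat_lit 483382) (nat_lit 23) (.e (nat_lit 336324) (nat_lit 18) .nil))))) .nil)))) (.nd (nat_lit 5) (.nd (nat_lit 6) 
(.lf (nat_lit 182288) (.g (nat_lit 1767) (.e (nat_lit 57848) (nat_lit 252) (.e (nat_lit 57390) (nat_lit 5) (.e (nat_lit 114711) (nat_lit 21) (.e (nat_lit 57847) (nat_lit 252) (.e (nat_lit 57432) (nat_lit 16) (.e (nat_lit 368676) (nat_lit 21) (.e (nat_lit 516131) (nat_lit 3) (.e (nat_lit 229120) (nat_lit 1) .nil)))))))) (.g (nat_lit 4) .nil .nil))) 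
(.lf (nat_lit 182352) (.g (nat_lit 1803) (.e (nat_lit 57848) (nat_lit 252) (.e (nat_lit 57407) (nat_lit 12) (.e (nat_lit 336454) (nat_lit 34) (.e (nat_lit 483407) (nat_lit 26) (.e (nat_lit 385065) (nat_lit 26) .nil))))) .nil))) (.nd (nat_lit 6) 
(.lf (nat_lit 182320) (.g (nat_lit 1764) (.e (nat_lit 57848) (nat_lit 252) (.e (nat_lit 57407) (nat_lit 12) (.e (nat_lit 336211) (nat_lit 13) (.e (nat_lit 393296) (nat_lit 26) (.e (nat_lit 475212) (nat_lit 42) .nil))))) .nil)) 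
(.lf (nat_lit 182384) (.g (nat_lit 2846) (.e (nat_lit 57848) (nat_lit 252) (.e (nat_lit 57412) (nat_lit 12) (.e (nat_lit 336061) (nat_lit 7) (.e (nat_lit 319531) (nat_lit 16) (.e (nat_lit 286756) (nat_lit 10) (.e (nat_lit 344097) (nat_lit 18) (.e (nat_lit 5195) (nat_lit 294) (.e (nat_lit 57367) (nat_lit 1) .nil)))))))) (.g (nat_lit 4) .nil .nil)))))) 
(.nd (nat_lit 4) (.nd (nat_lit 5) (.nd (nat_lit 6) 
(.lf (nat_lit 182280) (.g (nat_lit 3093) (.e (nat_lit 57848) (nat_lit 252) (.e (nat_lit 57386) (nat_lit 4) (.e (nat_lit 106536) (nat_lit 11) (.e (nat_lit 16438) (nat_lit 9) (.e (nat_lit 426555) (nat_lit 32) (.e (nat_lit 376857) (nat_lit 21) .nil)))))) (.g (nat_lit 6) .nil .nil))) 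
(.lf (nat_lit 182344) (.g (nat_lit 2440) (.e (nat_lit 57848) (nat_lit 252) (.e (nat_lit 57407) (nat_lit 12) (.e (nat_lit 336454) (nat_lit 34) (.e (nat_lit 483385) (nat_lit 23) (.e (nat_lit 336247) (nat_lit 15) .nil))))) .nil))) (.nd (nat_lit 6) 
(.lf (nat_lit 182312) (.g (nat_lit 1216) (.e (nat_lit 57848) (nat_lit 252) (.e (nat_lit 57407) (nat_lit 12) (.e (nat_lit 336211) (nat_lit 13) (.e (nat_lit 393266) (nat_lit 23) .nil)))) .nil)) 
(.lf (nat_lit 182376) (.g (nat_lit 454) (.e (nat_lit 57848) (nat_lit 252) (.e (nat_lit 57411) (nat_lit 12) (.e (nat_lit 336211) (nat_lit 13) .nil))) .nil)))) (.nd (nat_lit 5) (.nd (nat_lit 6) 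
(.lf (nat_lit 182296) (.g (nat_lit 3088) (.e (nat_lit 57848) (nat_lit 252) (.e (nat_lit 57406) (nat_lit 12) (.e (nat_lit 336454) (nat_lit 34) (.e (nat_lit 483402) (nat_lit 26) .nil)))) .nil)) 
(.lf (nat_lit 182360) (.g (nat_lit 4125) (.e (nat_lit 57848) (nat_lit 252) (.e (nat_lit 57407) (nat_lit 12) (.e (nat_lit 336456) (nat_lit 34) (.e (nat_lit 483383) (nat_lit 23) (.e (nat_lit 336316) (nat_lit 17) (.e (nat_lit 196626) (nat_lit 9) (.e (nat_lit 1183) (nat_lit 87) .nil))))))) (.g (nat_lit 0) .nil .nil)))) (.nd (nat_lit 6) 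
(.lf (nat_lit 182328) (.g (nat_lit 4049) (.e (nat_lit 57848) (nat_lit 252) (.e (nat_lit 57407) (nat_lit 12) (.e (nat_lit 336326) (nat_lit 18) (.e (nat_lit 204869) (nat_lit 29) (.e (nat_lit 360450) (nat_lit 0) (.e (nat_lit 7695) (nat_lit 412) (.e (nat_lit 57367) (nat_lit 1) .nil))))))) (.g (nat_lit 5) .nil .nil))) 
(.lf (nat_lit 182392) (.g (nat_lit 3291) (.e (nat_lit 57848) (nat_lit 252) (.e (nat_lit 57416) (nat_lit 12) (.e (nat_lit 336056) (nat_lit 7) (.e (nat_lit 319534) (nat_lit 16) (.e (nat_lit 286756) (nat_lit 10) (.e (nat_lit 344097) (nat_lit 18) (.e (nat_lit 5195) (nat_lit 294) (.e (nat_lit 57367) (nat_lit 1) .nil)))))))) (.g (nat_lit 6) .nil .nil))))))) 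
(.nd (nat_lit 3) (.nd (nat_lit 4) (.nd (nat_lit 5) (.nd (nat_lit 6) 
(.lf (nat_lit 182276) (.g (nat_lit 1432) (.e (nat_lit 57848) (nat_lit 252) (.e (nat_lit 57386) (nat_lit 4) (.e (nat_lit 106534) (nat_lit 11) (.e (nat_lit 16468) (nat_lit 13) (.e (nat_lit 483386) (nat_lit 23) (.e (nat_lit 335985) (nat_lit 1) .nil)))))) (.g (nat_lit 4) .nil .nil))) 
(.lf (nat_lit 182340) (.g (nat_lit 344) (.e (nat_lit 57848) (nat_lit 252) (.e (nat_lit 57407) (nat_lit 12) (.e (nat_lit 336454) (nat_lit 34) .nil))) .nil))) (.nd (nat_lit 6) 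
(.lf (nat_lit 182308) (.g (nat_lit 1593) (.e (nat_lit 57848) (nat_lit 252) (.e (nat_lit 57407) (nat_lit 12) (.e (nat_lit 336114) (nat_lit 9) (.e (nat_lit 336443) (nat_lit 32) (.e (nat_lit 474880) (nat_lit 5) .nil))))) .nil)) 
(.lf (nat_lit 182372) (.g (nat_lit 1823) (.e (nat_lit 57848) (nat_lit 252) (.e (nat_lit 57409) (nat_lit 12) (.e (nat_lit 336211) (nat_lit 13) (.e (nat_lit 393273) (nat_lit 23) (.e (nat_lit 426446) (nat_lit 20) .nil))))) .nil)))) (.nd (nat_lit 5) (.nd (nat_lit 6) 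
(.lf (nat_lit 182292) (.g (nat_lit 1792) (.e (nat_lit 57848) (nat_lit 252) (.e (nat_lit 57404) (nat_lit 12) (.e (nat_lit 336060) (nat_lit 7) (.e (nat_lit 319534) (nat_lit 16) (.e (nat_lit 286749) (nat_lit 9) (.e (nat_lit 335997) (nat_lit 1) (.e (nat_lit 57848) (nat_lit 252) (.e (nat_lit 57367) (nat_lit 1) .nil)))))))) (.g (nat_lit 4) .nil .nil))) 
(.lf (nat_lit 182356) (.g (nat_lit 2286) (.e (nat_lit 57848) (nat_lit 252) (.e (nat_lit 57407) (nat_lit 12) (.e (nat_lit 336456) (nat_lit 34) (.e (nat_lit 483346) (nat_lit 17) (.e (nat_lit 6505) (nat_lit 344) .nil))))) .nil))) (.nd (nat_lit 6) 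
(.lf (nat_lit 182324) (.g (nat_lit 2358) (.e (nat_lit 57848) (nat_lit 252) (.e (nat_lit 57407) (nat_lit 12) (.e (nat_lit 336316) (nat_lit 17) (.e (nat_lit 196666) (nat_lit 13) (.e (nat_lit 65586) (nat_lit 7) .nil))))) .nil)) 
(.lf (nat_lit 182388) (.g (nat_lit 2879) (.e (nat_lit 57848) (nat_lit 252) (.e (nat_lit 57413) (nat_lit 12) (.e (nat_lit 336056) (nat_lit 7) (.e (nat_lit 319533) (nat_lit 16) (.e (nat_lit 286753) (nat_lit 10) (.e (nat_lit 344097) (nat_lit 18) (.e (nat_lit 5195) (nat_lit 294) (.e (nat_lit 57367) (nat_lit 1) .nil)))))))) (.g (nat_lit 5) .nil .nil)))))) 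
(.nd (nat_lit 4) (.nd (nat_lit 5) (.nd (nat_lit 6) 
(.lf (nat_lit 182284) (.g (nat_lit 2903) (.e (nat_lit 57848) (nat_lit 252) (.e (nat_lit 57388) (nat_lit 5) (.e (nat_lit 114698) (nat_lit 11) (.e (nat_lit 426107) (nat_lit 1) (.e (nat_lit 164422) (nat_lit 272) (.e (nat_lit 1220) (nat_lit 90) (.e (nat_lit 81950) (nat_lit 21) .nil))))))) (.g (nat_lit 4) .nil .nil))) 
(.lf (nat_lit 182348) (.g (nat_lit 3898) (.e (nat_lit 57848) (nat_lit 252) (.e (nat_lit 57407) (nat_lit 12) (.e (nat_lit 336454) (nat_lit 34) (.e (nat_lit 483403) (nat_lit 26) (.e (nat_lit 385068) (nat_lit 26) (.e (nat_lit 532503) (nat_lit 1) .nil)))))) (.g (nat_lit 0) .nil .nil)))) (.nd (nat_lit 6) 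
(.lf (nat_lit 182316) (.g (nat_lit 1214) (.e (nat_lit 57848) (nat_lit 252) (.e (nat_lit 57407) (nat_lit 12) (.e (nat_lit 336211) (nat_lit 13) (.e (nat_lit 393279) (nat_lit 23) .nil)))) .nil)) 
(.lf (nat_lit 182380) (.g (nat_lit 2092) (.e (nat_lit 57848) (nat_lit 252) (.e (nat_lit 57412) (nat_lit 12) (.e (nat_lit 336058) (nat_lit 7) (.e (nat_lit 319533) (nat_lit 16) (.e (nat_lit 286753) (nat_lit 10) (.e (nat_lit 344097) (nat_lit 18) (.e (nat_lit 5195) (nat_lit 294) (.e (nat_lit 57367) (nat_lit 1) .nil)))))))) (.g (nat_lit 4) .nil .nil))))) (.nd (nat_lit 5) (.nd (nat_lit 6) 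
(.lf (nat_lit 182300) (.g (nat_lit 2395) (.e (nat_lit 57848) (nat_lit 252) (.e (nat_lit 57406) (nat_lit 12) (.e (nat_lit 336454) (nat_lit 34) (.e (nat_lit 483408) (nat_lit 26) .nil)))) .nil)) 
(.lf (nat_lit 182364) (.g (nat_lit 968) (.e (nat_lit 57848) (nat_lit 252) (.e (nat_lit 57407) (nat_lit 12) (.e (nat_lit 336456) (nat_lit 34) (.e (nat_lit 483406) (nat_lit 26) .nil)))) .nil))) (.nd (nat_lit 6) 
(.lf (nat_lit 182332) (.g (nat_lit 2022) (.e (nat_lit 57848) (nat_lit 252) (.e (nat_lit 57407) (nat_lit 12) (.e (nat_lit 336367) (nat_lit 27) (.e (nat_lit 426555) (nat_lit 32) (.e (nat_lit 376832) (nat_lit 0) .nil))))) .nil)) 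
(.lf (nat_lit 182396) (.g (nat_lit 1377) (.e (nat_lit 57848) (nat_lit 252) (.e (nat_lit 57423) (nat_lit 14) (.e (nat_lit 352277) (nat_lit 11) (.e (nat_lit 426189) (nat_lit 9) .nil)))) .nil))))))) (.nd (nat_lit 2) (.nd (nat_lit 3) (.nd (nat_lit 4) (.nd (nat_lit 5) (.nd (nat_lit 6) 
(.lf (nat_lit 182274) (.g (nat_lit 1069) (.e (nat_lit 57848) (nat_lit 252) (.e (nat_lit 57385) (nat_lit 4) (.e (nat_lit 106536) (nat_lit 11) (.e (nat_lit 16468) (nat_lit 13) (.e (nat_lit 483389) (nat_lit 23) (.e (nat_lit 335991) (nat_lit 1) .nil)))))) (.g (nat_lit 4) .nil .nil))) 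
(.lf (nat_lit 182338) (.g (nat_lit 2047) (.e (nat_lit 57848) (nat_lit 252) (.e (nat_lit 57407) (nat_lit 12) (.e (nat_lit 336446) (nat_lit 33) (.e (nat_lit 475214) (nat_lit 42) (.e (nat_lit 720956) (nat_lit 25) (.e (nat_lit 114711) (nat_lit 21) (.e (nat_lit 57847) (nat_lit 252) (.e (nat_lit 57367) (nat_lit 1) .nil)))))))) (.g (nat_lit 4) .nil .nil)))) (.nd (nat_lit 6) 
(.lf (nat_lit 182306) (.g (nat_lit 2514) (.e (nat_lit 57848) (nat_lit 252) (.e (nat_lit 57407) (nat_lit 12) (.e (nat_lit 336019) (nat_lit 3) (.e (nat_lit 98342) (nat_lit 20) (.e (nat_lit 221220) (nat_lit 25) .nil))))) .nil)) 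
(.lf (nat_lit 182370) (.g (nat_lit 1709) (.e (nat_lit 57848) (nat_lit 252) (.e (nat_lit 57408) (nat_lit 12) (.e (nat_lit 336454) (nat_lit 34) (.e (nat_lit 483406) (nat_lit 26) (.e (nat_lit 385064) (nat_lit 26) .nil))))) .nil)))) (.nd (nat_lit 5) (.nd (nat_lit 6) 
(.lf (nat_lit 182290) (.g (nat_lit 2694) (.e (nat_lit 57848) (nat_lit 252) (.e (nat_lit 57404) (nat_lit 12) (.e (nat_lit 336056) (nat_lit 7) (.e (nat_lit 319533) (nat_lit 16) (.e (nat_lit 286753) (nat_lit 10) (.e (nat_lit 344097) (nat_lit 18) (.e (nat_lit 5195) (nat_lit 294) (.e (nat_lit 57367) (nat_lit 1) .nil)))))))) (.g (nat_lit 5) .nil .nil))) 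
(.lf (nat_lit 182354) (.g (nat_lit 274) (.e (nat_lit 57848) (nat_lit 252) (.e (nat_lit 57407) (nat_lit 12) (.e (nat_lit 336456) (nat_lit 34) .nil))) .nil))) (.nd (nat_lit 6) 
(.lf (nat_lit 182322) (.g (nat_lit 2283) (.e (nat_lit 57848) (nat_lit 252) (.e (nat_lit 57407) (nat_lit 12) (.e (nat_lit 336316) (nat_lit 17) (.e (nat_lit 196666) (nat_lit 13) (.e (nat_lit 65583) (nat_lit 7) .nil))))) .nil)) 
(.lf (nat_lit 182386) (.g (nat_lit 2100) (.e (nat_lit 57848) (nat_lit 252) (.e (nat_lit 57413) (nat_lit 12) (.e (nat_lit 336054) (nat_lit 7) (.e (nat_lit 319533) (nat_lit 16) (.e (nat_lit 286753) (nat_lit 10) (.e (nat_lit 344097) (nat_lit 18) (.e (nat_lit 5195) (nat_lit 294) (.e (nat_lit 57367) (nat_lit 1) .nil)))))))) (.g (nat_lit 5) .nil .nil)))))) 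
(.nd (nat_lit 4) (.nd (nat_lit 5) (.nd (nat_lit 6) 
(.lf (nat_lit 182282) (.g (nat_lit 2998) (.e (nat_lit 57848) (nat_lit 252) (.e (nat_lit 57386) (nat_lit 4) (.e (nat_lit 106536) (nat_lit 11) (.e (nat_lit 16465) (nat_lit 13) (.e (nat_lit 483383) (nat_lit 23) (.e (nat_lit 336000) (nat_lit 1) .nil)))))) (.g (nat_lit 6) .nil .nil))) 
(.lf (nat_lit 182346) (.g (nat_lit 2198) (.e (nat_lit 57848) (nat_lit 252) (.e (nat_lit 57407) (nat_lit 12) (.e (nat_lit 336454) (nat_lit 34) (.e (nat_lit 483385) (nat_lit 23) (.e (nat_lit 336326) (nat_lit 18) .nil))))) .nil))) (.nd (nat_lit 6) 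
(.lf (nat_lit 182314) (.g (nat_lit 2331) (.e (nat_lit 57848) (nat_lit 252) (.e (nat_lit 57407) (nat_lit 12) (.e (nat_lit 336211) (nat_lit 13) (.e (nat_lit 393268) (nat_lit 23) (.e (nat_lit 433920) (nat_lit 20) .nil))))) .nil)) 
(.lf (nat_lit 182378) (.g (nat_lit 1081) (.e (nat_lit 57848) (nat_lit 252) (.e (nat_lit 57411) (nat_lit 12) (.e (nat_lit 336211) (nat_lit 13) (.e (nat_lit 393274) (nat_lit 23) .nil)))) .nil)))) (.nd (nat_lit 5) (.nd (nat_lit 6) 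
(.lf (nat_lit 182298) (.g (nat_lit 2840) (.e (nat_lit 57848) (nat_lit 252) (.e (nat_lit 57406) (nat_lit 12) (.e (nat_lit 336454) (nat_lit 34) (.e (nat_lit 483405) (nat_lit 26) .nil)))) .nil)) 
(.lf (nat_lit 182362) (.g (nat_lit 2201) (.e (nat_lit 57848) (nat_lit 252) (.e (nat_lit 57407) (nat_lit 12) (.e (nat_lit 336456) (nat_lit 34) (.e (nat_lit 483403) (nat_lit 26) (.e (nat_lit 385057) (nat_lit 22) .nil))))) .nil))) (.nd (nat_lit 6) 
(.lf (nat_lit 182330) (.g (nat_lit 709) (.e (nat_lit 57848) (nat_lit 252) (.e (nat_lit 57407) (nat_lit 12) (.e (nat_lit 336366) (nat_lit 27) .nil))) .nil)) 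
(.lf (nat_lit 182394) (.g (nat_lit 1844) (.e (nat_lit 57848) (nat_lit 252) (.e (nat_lit 57416) (nat_lit 12) (.e (nat_lit 336060) (nat_lit 7) (.e (nat_lit 319534) (nat_lit 16) (.e (nat_lit 286749) (nat_lit 9) (.e (nat_lit 335997) (nat_lit 1) (.e (nat_lit 57848) (nat_lit 252) (.e (nat_lit 57367) (nat_lit 1) .nil)))))))) (.g (nat_lit 4) .nil .nil))))))) 
(.nd (nat_lit 3) (.nd (nat_lit 4) (.nd (nat_lit 5) (.nd (nat_lit 6) 
(.lf (nat_lit 182278) (.g (nat_lit 2794) (.e (nat_lit 57848) (nat_lit 252) (.e (nat_lit 57386) (nat_lit 4) (.e (nat_lit 106535) (nat_lit 11) (.e (nat_lit 16465) (nat_lit 13) (.e (nat_lit 483383) (nat_lit 23) (.e (nat_lit 336000) (nat_lit 1) .nil)))))) (.g (nat_lit 6) .nil .nil))) 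
(.lf (nat_lit 182342) (.g (nat_lit 3902) (.e (nat_lit 57848) (nat_lit 252) (.e (nat_lit 57407) (nat_lit 12) (.e (nat_lit 336454) (nat_lit 34) (.e (nat_lit 483383) (nat_lit 23) (.e (nat_lit 336324) (nat_lit 18) (.e (nat_lit 204831) (nat_lit 18) .nil)))))) (.g (nat_lit 0) .nil .nil)))) (.nd (nat_lit 6) 
(.lf (nat_lit 182310) (.g (nat_lit 746) (.e (nat_lit 57848) (nat_lit 252) (.e (nat_lit 57407) (nat_lit 12) (.e (nat_lit 336146) (nat_lit 9) .nil))) .nil)) 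
(.lf (nat_lit 182374) (.g (nat_lit 1707) (.e (nat_lit 57848) (nat_lit 252) (.e (nat_lit 57411) (nat_lit 12) (.e (nat_lit 336019) (nat_lit 3) (.e (nat_lit 98341) (nat_lit 20) (.e (nat_lit 221220) (nat_lit 25) .nil))))) .nil)))) (.nd (nat_lit 5) (.nd (nat_lit 6) 
(.lf (nat_lit 182294) (.g (nat_lit 2770) (.e (nat_lit 57848) (nat_lit 252) (.e (nat_lit 57406) (nat_lit 12) (.e (nat_lit 336454) (nat_lit 34) (.e (nat_lit 483382) (nat_lit 23) .nil)))) .nil)) 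
(.lf (nat_lit 182358) (.g (nat_lit 4133) (.e (nat_lit 57848) (nat_lit 252) (.e (nat_lit 57407) (nat_lit 12) (.e (nat_lit 336456) (nat_lit 34) (.e (nat_lit 483380) (nat_lit 23) (.e (nat_lit 336316) (nat_lit 17) (.e (nat_lit 196626) (nat_lit 9) (.e (nat_lit 1183) (nat_lit 87) .nil))))))) (.g (nat_lit 0) .nil .nil)))) (.nd (nat_lit 6) 
(.lf (nat_lit 182326) (.g (nat_lit 2212) (.e (nat_lit 57848) (nat_lit 252) (.e (nat_lit 57407) (nat_lit 12) (.e (nat_lit 336316) (nat_lit 17) (.e (nat_lit 196668) (nat_lit 14) (.e (nat_lit 73794) (nat_lit 46) .nil))))) .nil)) 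
(.lf (nat_lit 182390) (.g (nat_lit 1881) (.e (nat_lit 57848) (nat_lit 252) (.e (nat_lit 57413) (nat_lit 12) (.e (nat_lit 336060) (nat_lit 7) (.e (nat_lit 319534) (nat_lit 16) (.e (nat_lit 286749) (nat_lit 9) (.e (nat_lit 335997) (nat_lit 1) (.e (nat_lit 57848) (nat_lit 252) (.e (nat_lit 57367) (nat_lit 1) .nil)))))))) (.g (nat_lit 4) .nil .nil)))))) 
(.nd (nat_lit 4) (.nd (nat_lit 5) (.nd (nat_lit 6) 
(.lf (nat_lit 182286) (.g (nat_lit 2700) (.e (nat_lit 57848) (nat_lit 252) (.e (nat_lit 57388) (nat_lit 5) (.e (nat_lit 114698) (nat_lit 11) (.e (nat_lit 426108) (nat_lit 1) (.e (nat_lit 164421) (nat_lit 272) .nil))))) .nil)) 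
(.lf (nat_lit 182350) (.g (nat_lit 3419) (.e (nat_lit 57848) (nat_lit 252) (.e (nat_lit 57407) (nat_lit 12) (.e (nat_lit 336454) (nat_lit 34) (.e (nat_lit 483406) (nat_lit 26) (.e (nat_lit 385066) (nat_lit 26) (.e (nat_lit 532502) (nat_lit 1) .nil)))))) (.g (nat_lit 0) .nil .nil)))) (.nd (nat_lit 6) 
(.lf (nat_lit 182318) (.g (nat_lit 2457) (.e (nat_lit 57848) (nat_lit 252) (.e (nat_lit 57407) (nat_lit 12) (.e (nat_lit 336211) (nat_lit 13) (.e (nat_lit 393291) (nat_lit 26) (.e (nat_lit 475212) (nat_lit 42) (.e (nat_lit 720933) (nat_lit 21) .nil)))))) (.g (nat_lit 4) .nil .nil))) 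
(.lf (nat_lit 182382) (.g (nat_lit 2403) (.e (nat_lit 57848) (nat_lit 252) (.e (nat_lit 57412) (nat_lit 12) (.e (nat_lit 336061) (nat_lit 7) (.e (nat_lit 319531) (nat_lit 16) (.e (nat_lit 286751) (nat_lit 10) (.e (nat_lit 344097) (nat_lit 18) (.e (nat_lit 5195) (nat_lit 294) (.e (nat_lit 57367) (nat_lit 1) .nil)))))))) (.g (nat_lit 4) .nil .nil))))) (.nd (nat_lit 5) (.nd (nat_lit 6) 
(.lf (nat_lit 182302) (.g (nat_lit 2276) (.e (nat_lit 57848) (nat_lit 252) (.e (nat_lit 57407) (nat_lit 12) (.e (nat_lit 336019) (nat_lit 3) (.e (nat_lit 98341) (nat_lit 20) (.e (nat_lit 229120) (nat_lit 1) .nil))))) .nil)) 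
(.lf (nat_lit 182366) (.g (nat_lit 3567) (.e (nat_lit 57848) (nat_lit 252) (.e (nat_lit 57407) (nat_lit 12) (.e (nat_lit 336456) (nat_lit 34) (.e (nat_lit 483406) (nat_lit 26) (.e (nat_lit 385066) (nat_lit 26) (.e (nat_lit 532502) (nat_lit 1) .nil)))))) (.g (nat_lit 0) .nil .nil)))) (.nd (nat_lit 6) 
(.lf (nat_lit 182334) (.g (nat_lit 2750) (.e (nat_lit 57848) (nat_lit 252) (.e (nat_lit 57407) (nat_lit 12) (.e (nat_lit 336369) (nat_lit 27) (.e (nat_lit 426499) (nat_lit 27) (.e (nat_lit 336196) (nat_lit 12) .nil))))) .nil)) 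
(.lf (nat_lit 182398) (.g (nat_lit 757) (.e (nat_lit 57848) (nat_lit 252) (.e (nat_lit 57424) (nat_lit 14) (.e (nat_lit 352276) (nat_lit 11) .nil))) .nil)))))))) (.nd (nat_lit 1) (.nd (nat_lit 2) (.nd (nat_lit 3) (.nd (nat_lit 4) (.nd (nat_lit 5) (.nd (nat_lit 6) 
(.lf (nat_lit 182273) (.g (nat_lit 2827) (.e (nat_lit 57848) (nat_lit 252) (.e (nat_lit 57385) (nat_lit 4) (.e (nat_lit 106536) (nat_lit 11) (.e (nat_lit 16465) (nat_lit 13) (.e (nat_lit 483383) (nat_lit 23) (.e (nat_lit 336000) (nat_lit 1) .nil)))))) (.g (nat_lit 6) .nil .nil))) 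
(.lf (nat_lit 182337) (.g (nat_lit 828) (.e (nat_lit 57848) (nat_lit 252) (.e (nat_lit 57407) (nat_lit 12) (.e (nat_lit 336446) (nat_lit 33) (.e (nat_lit 475213) (nat_lit 42) .nil)))) .nil))) (.nd (nat_lit 6) 
(.lf (nat_lit 182305) (.g (nat_lit 2043) (.e (nat_lit 57848) (nat_lit 252) (.e (nat_lit 57407) (nat_lit 12) (.e (nat_lit 336019) (nat_lit 3) (.e (nat_lit 98342) (nat_lit 20) (.e (nat_lit 221219) (nat_lit 24) .nil))))) .nil)) 
(.lf (nat_lit 182369) (.g (nat_lit 3086) (.e (nat_lit 57848) (nat_lit 252) (.e (nat_lit 57408) (nat_lit 12) (.e (nat_lit 336454) (nat_lit 34) (.e (nat_lit 483385) (nat_lit 23) .nil)))) .nil)))) (.nd (nat_lit 5) (.nd (nat_lit 6) 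
(.lf (nat_lit 182289) (.g (nat_lit 1565) (.e (nat_lit 57848) (nat_lit 252) (.e (nat_lit 57390) (nat_lit 5) (.e (nat_lit 114711) (nat_lit 21) (.e (nat_lit 57849) (nat_lit 252) (.e (nat_lit 57411) (nat_lit 12) .nil))))) .nil)) 
(.lf (nat_lit 182353) (.g (nat_lit 608) (.e (nat_lit 57848) (nat_lit 252) (.e (nat_lit 57407) (nat_lit 12) (.e (nat_lit 336455) (nat_lit 34) .nil))) .nil))) (.nd (nat_lit 6) 
(.lf (nat_lit 182321) (.g (nat_lit 551) (.e (nat_lit 57848) (nat_lit 252) (.e (nat_lit 57407) (nat_lit 12) (.e (nat_lit 336316) (nat_lit 17) .nil))) .nil)) 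
(.lf (nat_lit 182385) (.g (nat_lit 2821) (.e (nat_lit 57848) (nat_lit 252) (.e (nat_lit 57412) (nat_lit 12) (.e (nat_lit 336061) (nat_lit 7) (.e (nat_lit 319533) (nat_lit 16) (.e (nat_lit 286753) (nat_lit 10) (.e (nat_lit 344097) (nat_lit 18) (.e (nat_lit 5195) (nat_lit 294) (.e (nat_lit 57367) (nat_lit 1) .nil)))))))) (.g (nat_lit 4) .nil .nil)))))) 
(.nd (nat_lit 4) (.nd (nat_lit 5) (.nd (nat_lit 6) 
(.lf (nat_lit 182281) (.g (nat_lit 2999) (.e (nat_lit 57848) (nat_lit 252) (.e (nat_lit 57386) (nat_lit 4) (.e (nat_lit 106536) (nat_lit 11) (.e (nat_lit 16438) (nat_lit 9) (.e (nat_lit 426555) (nat_lit 32) (.e (nat_lit 376859) (nat_lit 21) .nil)))))) (.g (nat_lit 6) .nil .nil))) 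
(.lf (nat_lit 182345) (.g (nat_lit 2477) (.e (nat_lit 57848) (nat_lit 252) (.e (nat_lit 57407) (nat_lit 12) (.e (nat_lit 336454) (nat_lit 34) (.e (nat_lit 483385) (nat_lit 23) (.e (nat_lit 336316) (nat_lit 17) .nil))))) .nil))) (.nd (nat_lit 6) 
(.lf (nat_lit 182313) (.g (nat_lit 3293) (.e (nat_lit 57848) (nat_lit 252) (.e (nat_lit 57407) (nat_lit 12) (.e (nat_lit 336211) (nat_lit 13) (.e (nat_lit 393268) (nat_lit 23) (.e (nat_lit 426448) (nat_lit 20) (.e (nat_lit 114710) (nat_lit 21) .nil)))))) (.g (nat_lit 6) .nil .nil))) 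
(.lf (nat_lit 182377) (.g (nat_lit 1177) (.e (nat_lit 57848) (nat_lit 252) (.e (nat_lit 57411) (nat_lit 12) (.e (nat_lit 336211) (nat_lit 13) (.e (nat_lit 393266) (nat_lit 23) .nil)))) .nil)))) (.nd (nat_lit 5) (.nd (nat_lit 6) 
(.lf (nat_lit 182297) (.g (nat_lit 2493) (.e (nat_lit 57848) (nat_lit 252) (.e (nat_lit 57406) (nat_lit 12) (.e (nat_lit 336454) (nat_lit 34) (.e (nat_lit 483403) (nat_lit 26) .nil)))) .nil)) 
(.lf (nat_lit 182361) (.g (nat_lit 955) (.e (nat_lit 57848) (nat_lit 252) (.e (nat_lit 57407) (nat_lit 12) (.e (nat_lit 336456) (nat_lit 34) (.e (nat_lit 491264) (nat_lit 23) .nil)))) .nil))) (.nd (nat_lit 6) 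
(.lf (nat_lit 182329) (.g (nat_lit 3947) (.e (nat_lit 57848) (nat_lit 252) (.e (nat_lit 57407) (nat_lit 12) (.e (nat_lit 336326) (nat_lit 18) (.e (nat_lit 204869) (nat_lit 29) (.e (nat_lit 360451) (nat_lit 0) (.e (nat_lit 7695) (nat_lit 412) (.e (nat_lit 57367) (nat_lit 1) .nil))))))) (.g (nat_lit 5) .nil .nil))) 
(.lf (nat_lit 182393) (.g (nat_lit 1583) (.e (nat_lit 57848) (nat_lit 252) (.e (nat_lit 57416) (nat_lit 12) (.e (nat_lit 336060) (nat_lit 7) (.e (nat_lit 319533) (nat_lit 16) (.e (nat_lit 286753) (nat_lit 10) (.e (nat_lit 344097) (nat_lit 18) (.e (nat_lit 5194) (nat_lit 294) (.e (nat_lit 57367) (nat_lit 1) .nil)))))))) (.g (nat_lit 4) .nil .nil))))))) 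
(.nd (nat_lit 3) (.nd (nat_lit 4) (.nd (nat_lit 5) (.nd (nat_lit 6) 
(.lf (nat_lit 182277) (.g (nat_lit 1033) (.e (nat_lit 57848) (nat_lit 252) (.e (nat_lit 57386) (nat_lit 4) (.e (nat_lit 106534) (nat_lit 11) (.e (nat_lit 16468) (nat_lit 13) (.e (nat_lit 483389) (nat_lit 23) (.e (nat_lit 335991) (nat_lit 1) .nil)))))) (.g (nat_lit 4) .nil .nil))) 
(.lf (nat_lit 182341) (.g (nat_lit 1318) (.e (nat_lit 57848) (nat_lit 252) (.e (nat_lit 57407) (nat_lit 12) (.e (nat_lit 336454) (nat_lit 34) (.e (nat_lit 483382) (nat_lit 23) .nil)))) .nil))) (.nd (nat_lit 6) 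
(.lf (nat_lit 182309) (.g (nat_lit 676) (.e (nat_lit 57848) (nat_lit 252) (.e (nat_lit 57407) (nat_lit 12) (.e (nat_lit 336117) (nat_lit 9) .nil))) .nil)) 
(.lf (nat_lit 182373) (.g (nat_lit 2335) (.e (nat_lit 57848) (nat_lit 252) (.e (nat_lit 57409) (nat_lit 12) (.e (nat_lit 336454) (nat_lit 34) (.e (nat_lit 483408) (nat_lit 26) .nil)))) .nil)))) (.nd (nat_lit 5) (.nd (nat_lit 6) 
(.lf (nat_lit 182293) (.g (nat_lit 2663) (.e (nat_lit 57848) (nat_lit 252) (.e (nat_lit 57406) (nat_lit 12) (.e (nat_lit 336454) (nat_lit 34) (.e (nat_lit 483380) (nat_lit 23) .nil)))) .nil)) 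
(.lf (nat_lit 182357) (.g (nat_lit 1474) (.e (nat_lit 57848) (nat_lit 252) (.e (nat_lit 57407) (nat_lit 12) (.e (nat_lit 336456) (nat_lit 34) (.e (nat_lit 483379) (nat_lit 23) (.e (nat_lit 336322) (nat_lit 18) .nil))))) .nil))) (.nd (nat_lit 6) 
(.lf (nat_lit 182325) (.g (nat_lit 1910) (.e (nat_lit 57848) (nat_lit 252) (.e (nat_lit 57407) (nat_lit 12) (.e (nat_lit 336316) (nat_lit 17) (.e (nat_lit 196666) (nat_lit 13) (.e (nat_lit 65617) (nat_lit 10) .nil))))) .nil)) 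
(.lf (nat_lit 182389) (.g (nat_lit 1661) (.e (nat_lit 57848) (nat_lit 252) (.e (nat_lit 57413) (nat_lit 12) (.e (nat_lit 336060) (nat_lit 7) (.e (nat_lit 319533) (nat_lit 16) (.e (nat_lit 286753) (nat_lit 10) (.e (nat_lit 344097) (nat_lit 18) (.e (nat_lit 5194) (nat_lit 294) (.e (nat_lit 57367) (nat_lit 1) .nil)))))))) (.g (nat_lit 4) .nil .nil)))))) 
(.nd (nat_lit 4) (.nd (nat_lit 5) (.nd (nat_lit 6) 
(.lf (nat_lit 182285) (.g (nat_lit 2886) (.e (nat_lit 57848) (nat_lit 252) (.e (nat_lit 57388) (nat_lit 5) (.e (nat_lit 114698) (nat_lit 11) (.e (nat_lit 426107) (nat_lit 1) (.e (nat_lit 164422) (nat_lit 272) (.e (nat_lit 1221) (nat_lit 90) (.e (nat_lit 81950) (nat_lit 21) .nil))))))) (.g (nat_lit 4) .nil .nil))) 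
(.lf (nat_lit 182349) (.g (nat_lit 2288) (.e (nat_lit 57848) (nat_lit 252) (.e (nat_lit 57407) (nat_lit 12) (.e (nat_lit 336454) (nat_lit 34) (.e (nat_lit 483406) (nat_lit 26) (.e (nat_lit 385057) (nat_lit 22) .nil))))) .nil))) (.nd (nat_lit 6) 
(.lf (nat_lit 182317) (.g (nat_lit 1087) (.e (nat_lit 57848) (nat_lit 252) (.e (nat_lit 57407) (nat_lit 12) (.e (nat_lit 336211) (nat_lit 13) (.e (nat_lit 393291) (nat_lit 26) .nil)))) .nil)) 
(.lf (nat_lit 182381) (.g (nat_lit 3222) (.e (nat_lit 57848) (nat_lit 252) (.e (nat_lit 57412) (nat_lit 12) (.e (nat_lit 336060) (nat_lit 7) (.e (nat_lit 319534) (nat_lit 16) (.e (nat_lit 286756) (nat_lit 10) (.e (nat_lit 344097) (nat_lit 18) (.e (nat_lit 5195) (nat_lit 294) (.e (nat_lit 57367) (nat_lit 1) .nil)))))))) (.g (nat_lit 6) .nil .nil))))) (.nd (nat_lit 5) (.nd (nat_lit 6) 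
(.lf (nat_lit 182301) (.g (nat_lit 748) (.e (nat_lit 57848) (nat_lit 252) (.e (nat_lit 57407) (nat_lit 12) (.e (nat_lit 336019) (nat_lit 3) .nil))) .nil)) 
(.lf (nat_lit 182365) (.g (nat_lit 2138) (.e (nat_lit 57848) (nat_lit 252) (.e (nat_lit 57407) (nat_lit 12) (.e (nat_lit 336456) (nat_lit 34) (.e (nat_lit 483406) (nat_lit 26) (.e (nat_lit 385057) (nat_lit 22) .nil))))) .nil))) (.nd (nat_lit 6) 
(.lf (nat_lit 182333) (.g (nat_lit 2022) (.e (nat_lit 57848) (nat_lit 252) (.e (nat_lit 57407) (nat_lit 12) (.e (nat_lit 336367) (nat_lit 27) (.e (nat_lit 426555) (nat_lit 32) (.e (nat_lit 376834) (nat_lit 0) .nil))))) .nil)) 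
(.lf (nat_lit 182397) (.g (nat_lit 873) (.e (nat_lit 57848) (nat_lit 252) (.e (nat_lit 57424) (nat_lit 14) (.e (nat_lit 352273) (nat_lit 11) .nil))) .nil))))))) (.nd (nat_lit 2) (.nd (nat_lit 3) (.nd (nat_lit 4) (.nd (nat_lit 5) (.nd (nat_lit 6) 
(.lf (nat_lit 182275) (.g (nat_lit 2097) (.e (nat_lit 57848) (nat_lit 252) (.e (nat_lit 57386) (nat_lit 4) (.e (nat_lit 106534) (nat_lit 11) (.e (nat_lit 16468) (nat_lit 13) (.e (nat_lit 483378) (nat_lit 23) (.e (nat_lit 335997) (nat_lit 1) .nil)))))) (.g (nat_lit 0) .nil .nil))) 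
(.lf (nat_lit 182339) (.g (nat_lit 2814) (.e (nat_lit 57848) (nat_lit 252) (.e (nat_lit 57407) (nat_lit 12) (.e (nat_lit 336452) (nat_lit 34) (.e (nat_lit 483380) (nat_lit 23) (.e (nat_lit 336316) (nat_lit 17) (.e (nat_lit 196626) (nat_lit 9) (.e (nat_lit 1183) (nat_lit 87) .nil))))))) (.g (nat_lit 4) .nil .nil)))) (.nd (nat_lit 6) 
(.lf (nat_lit 182307) (.g (nat_lit 668) (.e (nat_lit 57848) (nat_lit 252) (.e (nat_lit 57407) (nat_lit 12) (.e (nat_lit 336114) (nat_lit 9) .nil))) .nil)) 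
(.lf (nat_lit 182371) (.g (nat_lit 3107) (.e (nat_lit 57848) (nat_lit 252) (.e (nat_lit 57408) (nat_lit 12) (.e (nat_lit 336454) (nat_lit 34) (.e (nat_lit 483408) (nat_lit 26) .nil)))) .nil)))) (.nd (nat_lit 5) (.nd (nat_lit 6) 
(.lf (nat_lit 182291) (.g (nat_lit 1730) (.e (nat_lit 57848) (nat_lit 252) (.e (nat_lit 57404) (nat_lit 12) (.e (nat_lit 336060) (nat_lit 7) (.e (nat_lit 319533) (nat_lit 16) (.e (nat_lit 286753) (nat_lit 10) (.e (nat_lit 344097) (nat_lit 18) (.e (nat_lit 5194) (nat_lit 294) (.e (nat_lit 57367) (nat_lit 1) .nil)))))))) (.g (nat_lit 4) .nil .nil))) 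
(.lf (nat_lit 182355) (.g (nat_lit 2202) (.e (nat_lit 57848) (nat_lit 252) (.e (nat_lit 57407) (nat_lit 12) (.e (nat_lit 336456) (nat_lit 34) (.e (nat_lit 483345) (nat_lit 17) (.e (nat_lit 6506) (nat_lit 344) .nil))))) .nil))) (.nd (nat_lit 6) 
(.lf (nat_lit 182323) (.g (nat_lit 2875) (.e (nat_lit 57848) (nat_lit 252) (.e (nat_lit 57407) (nat_lit 12) (.e (nat_lit 336316) (nat_lit 17) (.e (nat_lit 196666) (nat_lit 13) (.e (nat_lit 65583) (nat_lit 7) (.e (nat_lit 319521) (nat_lit 13) (.e (nat_lit 49167) (nat_lit 9) (.e (nat_lit 1183) (nat_lit 87) .nil)))))))) (.g (nat_lit 4) .nil .nil))) 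
(.lf (nat_lit 182387) (.g (nat_lit 2865) (.e (nat_lit 57848) (nat_lit 252) (.e (nat_lit 57413) (nat_lit 12) (.e (nat_lit 336054) (nat_lit 7) (.e (nat_lit 319534) (nat_lit 16) (.e (nat_lit 286756) (nat_lit 10) (.e (nat_lit 344097) (nat_lit 18) (.e (nat_lit 5195) (nat_lit 294) (.e (nat_lit 57367) (nat_lit 1) .nil)))))))) (.g (nat_lit 5) .nil .nil)))))) 
(.nd (nat_lit 4) (.nd (nat_lit 5) (.nd (nat_lit 6) 
(.lf (nat_lit 182283) (.g (nat_lit 1492) (.e (nat_lit 57848) (nat_lit 252) (.e (nat_lit 57386) (nat_lit 4) (.e (nat_lit 106536) (nat_lit 11) (.e (nat_lit 16468) (nat_lit 13) (.e (nat_lit 483386) (nat_lit 23) (.e (nat_lit 335985) (nat_lit 1) .nil)))))) (.g (nat_lit 4) .nil .nil))) 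
(.lf (nat_lit 182347) (.g (nat_lit 1942) (.e (nat_lit 57848) (nat_lit 252) (.e (nat_lit 57407) (nat_lit 12) (.e (nat_lit 336454) (nat_lit 34) (.e (nat_lit 483403) (nat_lit 26) (.e (nat_lit 385057) (nat_lit 22) .nil))))) .nil))) (.nd (nat_lit 6) 
(.lf (nat_lit 182315) (.g (nat_lit 1213) (.e (nat_lit 57848) (nat_lit 252) (.e (nat_lit 57407) (nat_lit 12) (.e (nat_lit 336211) (nat_lit 13) (.e (nat_lit 393275) (nat_lit 23) .nil)))) .nil)) 
(.lf (nat_lit 182379) (.g (nat_lit 1175) (.e (nat_lit 57848) (nat_lit 252) (.e (nat_lit 57411) (nat_lit 12) (.e (nat_lit 336211) (nat_lit 13) (.e (nat_lit 393275) (nat_lit 23) .nil)))) .nil)))) (.nd (nat_lit 5) (.nd (nat_lit 6) 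
(.lf (nat_lit 182299) (.g (nat_lit 2383) (.e (nat_lit 57848) (nat_lit 252) (.e (nat_lit 57406) (nat_lit 12) (.e (nat_lit 336454) (nat_lit 34) (.e (nat_lit 483406) (nat_lit 26) .nil)))) .nil)) 
(.lf (nat_lit 182363) (.g (nat_lit 3157) (.e (nat_lit 57848) (nat_lit 252) (.e (nat_lit 57407) (nat_lit 12) (.e (nat_lit 336456) (nat_lit 34) (.e (nat_lit 483403) (nat_lit 26) (.e (nat_lit 385066) (nat_lit 26) (.e (nat_lit 532502) (nat_lit 1) .nil)))))) (.g (nat_lit 0) .nil .nil)))) (.nd (nat_lit 6) 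
(.lf (nat_lit 182331) (.g (nat_lit 1621) (.e (nat_lit 57848) (nat_lit 252) (.e (nat_lit 57407) (nat_lit 12) (.e (nat_lit 336367) (nat_lit 27) (.e (nat_lit 426540) (nat_lit 29) (.e (nat_lit 360192) (nat_lit 3) (.e (nat_lit 204828) (nat_lit 18) .nil)))))) (.g (nat_lit 4) .nil .nil))) 
(.lf (nat_lit 182395) (.g (nat_lit 818) (.e (nat_lit 57848) (nat_lit 252) (.e (nat_lit 57423) (nat_lit 14) (.e (nat_lit 352276) (nat_lit 11) (.e (nat_lit 426234) (nat_lit 9) .nil)))) .nil)))))) (.nd (nat_lit 3) (.nd (nat_lit 4) (.nd (nat_lit 5) (.nd (nat_lit 6) 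
(.lf (nat_lit 182279) (.g (nat_lit 1307) (.e (nat_lit 57848) (nat_lit 252) (.e (nat_lit 57386) (nat_lit 4) (.e (nat_lit 106536) (nat_lit 11) (.e (nat_lit 16432) (nat_lit 9) .nil)))) .nil)) 
(.lf (nat_lit 182343) (.g (nat_lit 1897) (.e (nat_lit 57848) (nat_lit 252) (.e (nat_lit 57407) (nat_lit 12) (.e (nat_lit 336454) (nat_lit 34) (.e (nat_lit 483384) (nat_lit 23) (.e (nat_lit 336326) (nat_lit 18) .nil))))) .nil))) (.nd (nat_lit 6) 
(.lf (nat_lit 182311) (.g (nat_lit 746) (.e (nat_lit 57848) (nat_lit 252) (.e (nat_lit 57407) (nat_lit 12) (.e (nat_lit 336210) (nat_lit 13) .nil))) .nil)) 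
(.lf (nat_lit 182375) (.g (nat_lit 509) (.e (nat_lit 57848) (nat_lit 252) (.e (nat_lit 57411) (nat_lit 12) (.e (nat_lit 336115) (nat_lit 9) .nil))) .nil)))) (.nd (nat_lit 5) (.nd (nat_lit 6) 
(.lf (nat_lit 182295) (.g (nat_lit 2695) (.e (nat_lit 57848) (nat_lit 252) (.e (nat_lit 57406) (nat_lit 12) (.e (nat_lit 336454) (nat_lit 34) (.e (nat_lit 483383) (nat_lit 23) .nil)))) .nil)) 
(.lf (nat_lit 182359) (.g (nat_lit 2381) (.e (nat_lit 57848) (nat_lit 252) (.e (nat_lit 57407) (nat_lit 12) (.e (nat_lit 336456) (nat_lit 34) (.e (nat_lit 483383) (nat_lit 23) (.e (nat_lit 336284) (nat_lit 15) .nil))))) .nil))) (.nd (nat_lit 6) 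
(.lf (nat_lit 182327) (.g (nat_lit 2015) (.e (nat_lit 57848) (nat_lit 252) (.e (nat_lit 57407) (nat_lit 12) (.e (nat_lit 336324) (nat_lit 18) (.e (nat_lit 204868) (nat_lit 29) .nil)))) .nil)) 
(.lf (nat_lit 182391) (.g (nat_lit 1899) (.e (nat_lit 57848) (nat_lit 252) (.e (nat_lit 57414) (nat_lit 12) (.e (nat_lit 336060) (nat_lit 7) (.e (nat_lit 319534) (nat_lit 16) (.e (nat_lit 286756) (nat_lit 10) (.e (nat_lit 344097) (nat_lit 18) (.e (nat_lit 5195) (nat_lit 294) (.e (nat_lit 57367) (nat_lit 1) .nil)))))))) (.g (nat_lit 4) .nil .nil)))))) 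
(.nd (nat_lit 4) (.nd (nat_lit 5) (.nd (nat_lit 6) 
(.lf (nat_lit 182287) (.g (nat_lit 1325) (.e (nat_lit 57848) (nat_lit 252) (.e (nat_lit 57388) (nat_lit 5) (.e (nat_lit 114698) (nat_lit 11) (.e (nat_lit 426196) (nat_lit 9) .nil)))) .nil)) 
(.lf (nat_lit 182351) (.g (nat_lit 4125) (.e (nat_lit 57848) (nat_lit 252) (.e (nat_lit 57407) (nat_lit 12) (.e (nat_lit 336454) (nat_lit 34) (.e (nat_lit 483406) (nat_lit 26) (.e (nat_lit 385068) (nat_lit 26) (.e (nat_lit 532503) (nat_lit 1) .nil)))))) (.g (nat_lit 0) .nil .nil)))) (.nd (nat_lit 6) 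
(.lf (nat_lit 182319) (.g (nat_lit 2019) (.e (nat_lit 57848) (nat_lit 252) (.e (nat_lit 57407) (nat_lit 12) (.e (nat_lit 336211) (nat_lit 13) (.e (nat_lit 393294) (nat_lit 26) (.e (nat_lit 475212) (nat_lit 42) .nil))))) .nil)) 
(.lf (nat_lit 182383) (.g (nat_lit 2337) (.e (nat_lit 57848) (nat_lit 252) (.e (nat_lit 57412) (nat_lit 12) (.e (nat_lit 336061) (nat_lit 7) (.e (nat_lit 319531) (nat_lit 16) (.e (nat_lit 286755) (nat_lit 10) .nil))))) .nil)))) (.nd (nat_lit 5) (.nd (nat_lit 6) 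
(.lf (nat_lit 182303) (.g (nat_lit 1459) (.e (nat_lit 57848) (nat_lit 252) (.e (nat_lit 57407) (nat_lit 12) (.e (nat_lit 336019) (nat_lit 3) (.e (nat_lit 98342) (nat_lit 20) .nil)))) .nil)) 
(.lf (nat_lit 182367) (.g (nat_lit 1405) (.e (nat_lit 57848) (nat_lit 252) (.e (nat_lit 57407) (nat_lit 12) (.e (nat_lit 336456) (nat_lit 34) (.e (nat_lit 483408) (nat_lit 26) .nil)))) .nil))) (.nd (nat_lit 6) 
(.lf (nat_lit 182335) (.g (nat_lit 3301) (.e (nat_lit 57848) (nat_lit 252) (.e (nat_lit 57407) (nat_lit 12) (.e (nat_lit 336370) (nat_lit 27) (.e (nat_lit 426499) (nat_lit 27) (.e (nat_lit 336196) (nat_lit 12) (.e (nat_lit 385064) (nat_lit 26) (.e (nat_lit 532503) (nat_lit 1) .nil))))))) (.g (nat_lit 5) .nil .nil))) 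
(.lf (nat_lit 182399) (.g (nat_lit 1357) (.e (nat_lit 57848) (nat_lit 252) (.e (nat_lit 57432) (nat_lit 16) (.e (nat_lit 368676) (nat_lit 21) (.e (nat_lit 516131) (nat_lit 3) (.e (nat_lit 221219) (nat_lit 24) .nil))))) .nil)))))))))

noncomputable def tv2436 : DT := (.nd (nat_lit 0) (.nd (nat_lit 1) (.nd (nat_lit 2) (.nd (nat_lit 3) (.nd (nat_lit 4) (.nd (nat_lit 5) (.nd (nat_lit 6) 
(.lf (nat_lit 182400) (.g (nat_lit 1680) (.e (nat_lit 57848) (nat_lit 252) (.e (nat_lit 57432) (nat_lit 16) (.e (nat_lit 368676) (nat_lit 21) (.e (nat_lit 516176) (nat_lit 14) (.e (nat_lit 466967) (nat_lit 20) .nil))))) .nil)) 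
(.lf (nat_lit 182464) (.g (nat_lit 2734) (.e (nat_lit 57848) (nat_lit 252) (.e (nat_lit 57446) (nat_lit 19) (.e (nat_lit 393229) (nat_lit 9) (.e (nat_lit 336078) (nat_lit 9) (.e (nat_lit 336324) (nat_lit 18) .nil))))) .nil))) (.nd (nat_lit 6) 
(.lf (nat_lit 182432) (.g (nat_lit 1674) (.e (nat_lit 57848) (nat_lit 252) (.e (nat_lit 57437) (nat_lit 17) (.e (nat_lit 376842) (nat_lit 11) (.e (nat_lit 426204) (nat_lit 9) .nil)))) .nil)) 
(.lf (nat_lit 182496) (.g (nat_lit 2893) (.e (nat_lit 57849) (nat_lit 252) (.e (nat_lit 57371) (nat_lit 2) (.e (nat_lit 90160) (nat_lit 11) (.e (nat_lit 24657) (nat_lit 13) (.e (nat_lit 393229) (nat_lit 9) .nil))))) .nil)))) (.nd (nat_lit 5) (.nd (nat_lit 6) 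
(.lf (nat_lit 182416) (.g (nat_lit 558) (.e (nat_lit 57848) (nat_lit 252) (.e (nat_lit 57436) (nat_lit 17) (.e (nat_lit 376838) (nat_lit 11) .nil))) .nil)) 
(.lf (nat_lit 182480) (.g (nat_lit 2678) (.e (nat_lit 57849) (nat_lit 252) (.e (nat_lit 57363) (nat_lit 1) (.e (nat_lit 57847) (nat_lit 252) (.e (nat_lit 57411) (nat_lit 12) (.e (nat_lit 335878) (nat_lit 0) (.e (nat_lit 1912) (nat_lit 129) (.e (nat_lit 598041) (nat_lit 10) (.e (nat_lit 81950) (nat_lit 21) .nil)))))))) (.g (nat_lit 4) .nil .nil)))) (.nd (nat_lit 6) 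
(.lf (nat_lit 182448) (.g (nat_lit 2186) (.e (nat_lit 57848) (nat_lit 252) (.e (nat_lit 57445) (nat_lit 19) (.e (nat_lit 393229) (nat_lit 9) (.e (nat_lit 336086) (nat_lit 9) (.e (nat_lit 336270) (nat_lit 15) .nil))))) .nil)) 
(.lf (nat_lit 182512) (.g (nat_lit 314) (.e (nat_lit 57849) (nat_lit 252) (.e (nat_lit 57372) (nat_lit 2) (.e (nat_lit 90158) (nat_lit 11) .nil))) .nil))))) (.nd (nat_lit 4) (.nd (nat_lit 5) (.nd (nat_lit 6) 
(.lf (nat_lit 182408) (.g (nat_lit 2226) (.e (nat_lit 57848) (nat_lit 252) (.e (nat_lit 57435) (nat_lit 17) (.e (nat_lit 376842) (nat_lit 11) (.e (nat_lit 426306) (nat_lit 12) (.e (nat_lit 475197) (nat_lit 40) .nil))))) .nil)) 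
(.lf (nat_lit 182472) (.g (nat_lit 2389) (.e (nat_lit 57848) (nat_lit 252) (.e (nat_lit 57448) (nat_lit 19) (.e (nat_lit 393225) (nat_lit 9) (.e (nat_lit 336193) (nat_lit 12) (.e (nat_lit 385068) (nat_lit 26) .nil))))) .nil))) (.nd (nat_lit 6) 
(.lf (nat_lit 182440) (.g (nat_lit 1479) (.e (nat_lit 57848) (nat_lit 252) (.e (nat_lit 57445) (nat_lit 19) (.e (nat_lit 393225) (nat_lit 9) (.e (nat_lit 336195) (nat_lit 12) .nil)))) .nil)) 
(.lf (nat_lit 182504) (.g (nat_lit 4168) (.e (nat_lit 57849) (nat_lit 252) (.e (nat_lit 57372) (nat_lit 2) (.e (nat_lit 90128) (nat_lit 9) (.e (nat_lit 297) (nat_lit 22) (.e (nat_lit 344119) (nat_lit 21) (.e (nat_lit 516131) (nat_lit 3) (.e (nat_lit 221215) (nat_lit 23) (.e (nat_lit 204828) (nat_lit 18) .nil)))))))) (.g (nat_lit 7) .nil .nil))))) (.nd (nat_lit 5) (.nd (nat_lit 6) 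
(.lf (nat_lit 182424) (.g (nat_lit 1655) (.e (nat_lit 57848) (nat_lit 252) (.e (nat_lit 57436) (nat_lit 17) (.e (nat_lit 376842) (nat_lit 11) (.e (nat_lit 426313) (nat_lit 12) .nil)))) .nil)) 
(.lf (nat_lit 182488) (.g (nat_lit 3929) (.e (nat_lit 57849) (nat_lit 252) (.e (nat_lit 57368) (nat_lit 1) (.e (nat_lit 57830) (nat_lit 250) (.e (nat_lit 1201) (nat_lit 88) (.e (nat_lit 65586) (nat_lit 7) (.e (nat_lit 319531) (nat_lit 16) (.e (nat_lit 286748) (nat_lit 9) (.e (nat_lit 335985) (nat_lit 1) .nil)))))))) (.g (nat_lit 7) .nil .nil)))) (.nd (nat_lit 6) 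
(.lf (nat_lit 182456) (.g (nat_lit 3626) (.e (nat_lit 57848) (nat_lit 252) (.e (nat_lit 57445) (nat_lit 19) (.e (nat_lit 393229) (nat_lit 9) (.e (nat_lit 336100) (nat_lit 9) .nil)))) .nil)) 
(.lf (nat_lit 182520) (.g (nat_lit 2421) (.e (nat_lit 57849) (nat_lit 252) (.e (nat_lit 57372) (nat_lit 2) (.e (nat_lit 90158) (nat_lit 11) (.e (nat_lit 24608) (nat_lit 3) (.e (nat_lit 98342) (nat_lit 20) (.e (nat_lit 221213) (nat_lit 23) (.e (nat_lit 204829) (nat_lit 18) .nil))))))) (.g (nat_lit 4) .nil .nil))))))) (.nd (nat_lit 3) (.nd (nat_lit 4) (.nd (nat_lit 5) (.nd (nat_lit 6) 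
(.lf (nat_lit 182404) (.g (nat_lit 2212) (.e (nat_lit 57848) (nat_lit 252) (.e (nat_lit 57435) (nat_lit 17) (.e (nat_lit 376842) (nat_lit 11) (.e (nat_lit 426188) (nat_lit 9) (.e (nat_lit 426449) (nat_lit 20) .nil))))) .nil)) 
(.lf (nat_lit 182468) (.g (nat_lit 788) (.e (nat_lit 57848) (nat_lit 252) (.e (nat_lit 57447) (nat_lit 19) (.e (nat_lit 393225) (nat_lit 9) .nil))) .nil))) (.nd (nat_lit 6) 
(.lf (nat_lit 182436) (.g (nat_lit 1266) (.e (nat_lit 57848) (nat_lit 252) (.e (nat_lit 57437) (nat_lit 17) (.e (nat_lit 376842) (nat_lit 11) (.e (nat_lit 426315) (nat_lit 12) .nil)))) .nil)) 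
(.lf (nat_lit 182500) (.g (nat_lit 1337) (.e (nat_lit 57849) (nat_lit 252) (.e (nat_lit 57372) (nat_lit 2) (.e (nat_lit 90128) (nat_lit 9) (.e (nat_lit 293) (nat_lit 21) (.e (nat_lit 336119) (nat_lit 9) .nil))))) .nil)))) (.nd (nat_lit 5) (.nd (nat_lit 6) 
(.lf (nat_lit 182420) (.g (nat_lit 1540) (.e (nat_lit 57848) (nat_lit 252) (.e (nat_lit 57436) (nat_lit 17) (.e (nat_lit 376842) (nat_lit 11) (.e (nat_lit 426204) (nat_lit 9) .nil)))) .nil)) 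
(.lf (nat_lit 182484) (.g (nat_lit 2631) (.e (nat_lit 57849) (nat_lit 252) (.e (nat_lit 57367) (nat_lit 1) (.e (nat_lit 57847) (nat_lit 252) (.e (nat_lit 57411) (nat_lit 12) (.e (nat_lit 335878) (nat_lit 0) (.e (nat_lit 1912) (nat_lit 129) (.e (nat_lit 598041) (nat_lit 10) (.e (nat_lit 81950) (nat_lit 21) .nil)))))))) (.g (nat_lit 4) .nil .nil)))) (.nd (nat_lit 6) 
(.lf (nat_lit 182452) (.g (nat_lit 2575) (.e (nat_lit 57848) (nat_lit 252) (.e (nat_lit 57445) (nat_lit 19) (.e (nat_lit 393229) (nat_lit 9) (.e (nat_lit 336087) (nat_lit 9) (.e (nat_lit 336326) (nat_lit 18) .nil))))) .nil)) 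
(.lf (nat_lit 182516) (.g (nat_lit 2645) (.e (nat_lit 57849) (nat_lit 252) (.e (nat_lit 57372) (nat_lit 2) (.e (nat_lit 90158) (nat_lit 11) (.e (nat_lit 24608) (nat_lit 3) (.e (nat_lit 98338) (nat_lit 19) (.e (nat_lit 213013) (nat_lit 9) (.e (nat_lit 2684) (nat_lit 168) (.e (nat_lit 204828) (nat_lit 18) .nil)))))))) (.g (nat_lit 4) .nil .nil)))))) 
(.nd (nat_lit 4) (.nd (nat_lit 5) (.nd (nat_lit 6) 
(.lf (nat_lit 182412) (.g (nat_lit 2276) (.e (nat_lit 57848) (nat_lit 252) (.e (nat_lit 57435) (nat_lit 17) (.e (nat_lit 376842) (nat_lit 11) (.e (nat_lit 426306) (nat_lit 12) (.e (nat_lit 475206) (nat_lit 40) .nil))))) .nil)) 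
(.lf (nat_lit 182476) (.g (nat_lit 1347) (.e (nat_lit 57849) (nat_lit 252) (.e (nat_lit 57354) (nat_lit 0) (.e (nat_lit 1855) (nat_lit 124) (.e (nat_lit 564992) (nat_lit 0) .nil)))) .nil))) (.nd (nat_lit 6) 
(.lf (nat_lit 182444) (.g (nat_lit 2074) (.e (nat_lit 57848) (nat_lit 252) (.e (nat_lit 57445) (nat_lit 19) (.e (nat_lit 393229) (nat_lit 9) (.e (nat_lit 336084) (nat_lit 9) .nil)))) .nil)) 
(.lf (nat_lit 182508) (.g (nat_lit 3724) (.e (nat_lit 57849) (nat_lit 252) (.e (nat_lit 57372) (nat_lit 2) (.e (nat_lit 90128) (nat_lit 9) (.e (nat_lit 307) (nat_lit 22) (.e (nat_lit 344117) (nat_lit 21) (.e (nat_lit 516130) (nat_lit 3) (.e (nat_lit 221215) (nat_lit 23) (.e (nat_lit 204829) (nat_lit 18) .nil)))))))) (.g (nat_lit 5) .nil .nil))))) (.nd (nat_lit 5) (.nd (nat_lit 6) 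
(.lf (nat_lit 182428) (.g (nat_lit 2227) (.e (nat_lit 57848) (nat_lit 252) (.e (nat_lit 57437) (nat_lit 17) (.e (nat_lit 376842) (nat_lit 11) (.e (nat_lit 426188) (nat_lit 9) (.e (nat_lit 426444) (nat_lit 19) .nil))))) .nil)) 
(.lf (nat_lit 182492) (.g (nat_lit 2174) (.e (nat_lit 57849) (nat_lit 252) (.e (nat_lit 57368) (nat_lit 1) (.e (nat_lit 57854) (nat_lit 252) (.e (nat_lit 57412) (nat_lit 12) (.e (nat_lit 336061) (nat_lit 7) .nil))))) .nil))) (.nd (nat_lit 6) 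
(.lf (nat_lit 182460) (.g (nat_lit 1713) (.e (nat_lit 57848) (nat_lit 252) (.e (nat_lit 57445) (nat_lit 19) (.e (nat_lit 393229) (nat_lit 9) (.e (nat_lit 336201) (nat_lit 12) .nil)))) .nil)) 
(.lf (nat_lit 182524) (.g (nat_lit 821) (.e (nat_lit 57849) (nat_lit 252) (.e (nat_lit 57372) (nat_lit 2) (.e (nat_lit 90158) (nat_lit 11) (.e (nat_lit 24628) (nat_lit 9) .nil)))) .nil))))))) (.nd (nat_lit 2) (.nd (nat_lit 3) (.nd (nat_lit 4) (.nd (nat_lit 5) (.nd (nat_lit 6) 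
(.lf (nat_lit 182402) (.g (nat_lit 859) (.e (nat_lit 57848) (nat_lit 252) (.e (nat_lit 57434) (nat_lit 17) (.e (nat_lit 376842) (nat_lit 11) (.e (nat_lit 426197) (nat_lit 9) .nil)))) .nil)) 
(.lf (nat_lit 182466) (.g (nat_lit 2765) (.e (nat_lit 57848) (nat_lit 252) (.e (nat_lit 57446) (nat_lit 19) (.e (nat_lit 393229) (nat_lit 9) (.e (nat_lit 336196) (nat_lit 12) (.e (nat_lit 385066) (nat_lit 26) .nil))))) .nil))) (.nd (nat_lit 6) 
(.lf (nat_lit 182434) (.g (nat_lit 1710) (.e (nat_lit 57848) (nat_lit 252) (.e (nat_lit 57437) (nat_lit 17) (.e (nat_lit 376842) (nat_lit 11) (.e (nat_lit 426306) (nat_lit 12) (.e (nat_lit 475214) (nat_lit 42) .nil))))) .nil)) 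
(.lf (nat_lit 182498) (.g (nat_lit 536) (.e (nat_lit 57849) (nat_lit 252) (.e (nat_lit 57372) (nat_lit 2) (.e (nat_lit 90122) (nat_lit 9) .nil))) .nil)))) (.nd (nat_lit 5) (.nd (nat_lit 6) 
(.lf (nat_lit 182418) (.g (nat_lit 508) (.e (nat_lit 57848) (nat_lit 252) (.e (nat_lit 57436) (nat_lit 17) (.e (nat_lit 376840) (nat_lit 11) .nil))) .nil)) 
(.lf (nat_lit 182482) (.g (nat_lit 2965) (.e (nat_lit 57849) (nat_lit 252) (.e (nat_lit 57365) (nat_lit 1) (.e (nat_lit 57852) (nat_lit 252) (.e (nat_lit 57427) (nat_lit 15) (.e (nat_lit 360478) (nat_lit 12) (.e (nat_lit 622616) (nat_lit 9) (.e (nat_lit 65565) (nat_lit 1) .nil))))))) (.g (nat_lit 4) .nil .nil)))) (.nd (nat_lit 6) 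
(.lf (nat_lit 182450) (.g (nat_lit 2115) (.e (nat_lit 57848) (nat_lit 252) (.e (nat_lit 57445) (nat_lit 19) (.e (nat_lit 393229) (nat_lit 9) (.e (nat_lit 336087) (nat_lit 9) .nil)))) .nil)) 
(.lf (nat_lit 182514) (.g (nat_lit 2517) (.e (nat_lit 57849) (nat_lit 252) (.e (nat_lit 57372) (nat_lit 2) (.e (nat_lit 90158) (nat_lit 11) (.e (nat_lit 24608) (nat_lit 3) (.e (nat_lit 98337) (nat_lit 19) (.e (nat_lit 213022) (nat_lit 9) (.e (nat_lit 2683) (nat_lit 168) (.e (nat_lit 204829) (nat_lit 18) .nil)))))))) (.g (nat_lit 4) .nil .nil)))))) 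
(.nd (nat_lit 4) (.nd (nat_lit 5) (.nd (nat_lit 6) 
(.lf (nat_lit 182410) (.g (nat_lit 2282) (.e (nat_lit 57848) (nat_lit 252) (.e (nat_lit 57435) (nat_lit 17) (.e (nat_lit 376842) (nat_lit 11) (.e (nat_lit 426306) (nat_lit 12) (.e (nat_lit 475204) (nat_lit 40) .nil))))) .nil)) 
(.lf (nat_lit 182474) (.g (nat_lit 1916) (.e (nat_lit 57848) (nat_lit 252) (.e (nat_lit 57448) (nat_lit 19) (.e (nat_lit 393229) (nat_lit 9) (.e (nat_lit 336196) (nat_lit 12) (.e (nat_lit 385068) (nat_lit 26) .nil))))) .nil))) (.nd (nat_lit 6) 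
(.lf (nat_lit 182442) (.g (nat_lit 2155) (.e (nat_lit 57848) (nat_lit 252) (.e (nat_lit 57445) (nat_lit 19) (.e (nat_lit 393229) (nat_lit 9) (.e (nat_lit 336073) (nat_lit 9) .nil)))) .nil)) 
(.lf (nat_lit 182506) (.g (nat_lit 2937) (.e (nat_lit 57849) (nat_lit 252) (.e (nat_lit 57372) (nat_lit 2) (.e (nat_lit 90128) (nat_lit 9) (.e (nat_lit 297) (nat_lit 22) (.e (nat_lit 344132) (nat_lit 26) (.e (nat_lit 557105) (nat_lit 14) (.e (nat_lit 180252) (nat_lit 10) (.e (nat_lit 573452) (nat_lit 9) (.e (nat_lit 1169) (nat_lit 87) .nil))))))))) (.g (nat_lit 4) .nil .nil))))) 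
(.nd (nat_lit 5) (.nd (nat_lit 6) 
(.lf (nat_lit 182426) (.g (nat_lit 1811) (.e (nat_lit 57848) (nat_lit 252) (.e (nat_lit 57436) (nat_lit 17) (.e (nat_lit 376842) (nat_lit 11) (.e (nat_lit 426315) (nat_lit 12) (.e (nat_lit 475212) (nat_lit 42) .nil))))) .nil)) 
(.lf (nat_lit 182490) (.g (nat_lit 2977) (.e (nat_lit 57849) (nat_lit 252) (.e (nat_lit 57368) (nat_lit 1) (.e (nat_lit 57852) (nat_lit 252) (.e (nat_lit 57427) (nat_lit 15) (.e (nat_lit 360478) (nat_lit 12) (.e (nat_lit 622616) (nat_lit 9) (.e (nat_lit 65565) (nat_lit 1) .nil))))))) (.g (nat_lit 4) .nil .nil)))) (.nd (nat_lit 6) 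
(.lf (nat_lit 182458) (.g (nat_lit 2282) (.e (nat_lit 57848) (nat_lit 252) (.e (nat_lit 57445) (nat_lit 19) (.e (nat_lit 393229) (nat_lit 9) (.e (nat_lit 343808) (nat_lit 9) .nil)))) .nil)) 
(.lf (nat_lit 182522) (.g (nat_lit 3804) (.e (nat_lit 57849) (nat_lit 252) (.e (nat_lit 57372) (nat_lit 2) (.e (nat_lit 90158) (nat_lit 11) (.e (nat_lit 24608) (nat_lit 3) (.e (nat_lit 98342) (nat_lit 20) (.e (nat_lit 221215) (nat_lit 23) (.e (nat_lit 204828) (nat_lit 18) .nil))))))) (.g (nat_lit 6) .nil .nil))))))) (.nd (nat_lit 3) (.nd (nat_lit 4) (.nd (nat_lit 5) (.nd (nat_lit 6) 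
(.lf (nat_lit 182406) (.g (nat_lit 1437) (.e (nat_lit 57848) (nat_lit 252) (.e (nat_lit 57435) (nat_lit 17) (.e (nat_lit 376842) (nat_lit 11) (.e (nat_lit 426204) (nat_lit 9) .nil)))) .nil)) 
(.lf (nat_lit 182470) (.g (nat_lit 2182) (.e (nat_lit 57848) (nat_lit 252) (.e (nat_lit 57447) (nat_lit 19) (.e (nat_lit 393229) (nat_lit 9) (.e (nat_lit 336086) (nat_lit 9) .nil)))) .nil))) (.nd (nat_lit 6) 
(.lf (nat_lit 182438) (.g (nat_lit 378) (.e (nat_lit 57848) (nat_lit 252) (.e (nat_lit 57445) (nat_lit 19) (.e (nat_lit 393225) (nat_lit 9) .nil))) .nil)) 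
(.lf (nat_lit 182502) (.g (nat_lit 2619) (.e (nat_lit 57849) (nat_lit 252) (.e (nat_lit 57372) (nat_lit 2) (.e (nat_lit 90128) (nat_lit 9) (.e (nat_lit 297) (nat_lit 22) (.e (nat_lit 344119) (nat_lit 21) (.e (nat_lit 516131) (nat_lit 3) (.e (nat_lit 221212) (nat_lit 22) (.e (nat_lit 196632) (nat_lit 9) (.e (nat_lit 1178) (nat_lit 87) .nil))))))))) (.g (nat_lit 4) .nil .nil))))) 
(.nd (nat_lit 5) (.nd (nat_lit 6) 
(.lf (nat_lit 182422) (.g (nat_lit 1608) (.e (nat_lit 57848) (nat_lit 252) (.e (nat_lit 57436) (nat_lit 17) (.e (nat_lit 376842) (nat_lit 11) (.e (nat_lit 426307) (nat_lit 12) (.e (nat_lit 475212) (nat_lit 42) .nil))))) .nil)) 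
(.lf (nat_lit 182486) (.g (nat_lit 1096) (.e (nat_lit 57849) (nat_lit 252) (.e (nat_lit 57367) (nat_lit 1) (.e (nat_lit 57849) (nat_lit 252) (.e (nat_lit 57411) (nat_lit 12) .nil)))) .nil))) (.nd (nat_lit 6) 
(.lf (nat_lit 182454) (.g (nat_lit 3533) (.e (nat_lit 57848) (nat_lit 252) (.e (nat_lit 57445) (nat_lit 19) (.e (nat_lit 393229) (nat_lit 9) (.e (nat_lit 336091) (nat_lit 9) .nil)))) .nil)) 
(.lf (nat_lit 182518) (.g (nat_lit 2442) (.e (nat_lit 57849) (nat_lit 252) (.e (nat_lit 57372) (nat_lit 2) (.e (nat_lit 90158) (nat_lit 11) (.e (nat_lit 24608) (nat_lit 3) (.e (nat_lit 98342) (nat_lit 20) (.e (nat_lit 221212) (nat_lit 22) (.e (nat_lit 196624) (nat_lit 9) (.e (nat_lit 1186) (nat_lit 87) .nil)))))))) (.g (nat_lit 4) .nil .nil)))))) (.nd (nat_lit 4) (.nd (nat_lit 5) (.nd (nat_lit 6) 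
(.lf (nat_lit 182414) (.g (nat_lit 1872) (.e (nat_lit 57848) (nat_lit 252) (.e (nat_lit 57435) (nat_lit 17) (.e (nat_lit 376842) (nat_lit 11) (.e (nat_lit 426313) (nat_lit 12) (.e (nat_lit 475212) (nat_lit 42) .nil))))) .nil)) 
(.lf (nat_lit 182478) (.g (nat_lit 3434) (.e (nat_lit 57849) (nat_lit 252) (.e (nat_lit 57355) (nat_lit 0) (.e (nat_lit 1858) (nat_lit 124) (.e (nat_lit 557105) (nat_lit 14) (.e (nat_lit 180252) (nat_lit 10) (.e (nat_lit 573481) (nat_lit 13) (.e (nat_lit 73472) (nat_lit 18) (.e (nat_lit 204831) (nat_lit 18) .nil)))))))) (.g (nat_lit 5) .nil .nil)))) (.nd (nat_lit 6) 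
(.lf (nat_lit 182446) (.g (nat_lit 2188) (.e (nat_lit 57848) (nat_lit 252) (.e (nat_lit 57445) (nat_lit 19) (.e (nat_lit 393229) (nat_lit 9) (.e (nat_lit 336085) (nat_lit 9) (.e (nat_lit 336326) (nat_lit 18) .nil))))) .nil)) 
(.lf (nat_lit 182510) (.g (nat_lit 1002) (.e (nat_lit 57849) (nat_lit 252) (.e (nat_lit 57372) (nat_lit 2) (.e (nat_lit 90133) (nat_lit 9) (.e (nat_lit 296) (nat_lit 22) .nil)))) .nil)))) (.nd (nat_lit 5) (.nd (nat_lit 6) 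
(.lf (nat_lit 182430) (.g (nat_lit 1821) (.e (nat_lit 57848) (nat_lit 252) (.e (nat_lit 57437) (nat_lit 17) (.e (nat_lit 376842) (nat_lit 11) (.e (nat_lit 426196) (nat_lit 9) (.e (nat_lit 426446) (nat_lit 20) .nil))))) .nil)) 
(.lf (nat_lit 182494) (.g (nat_lit 2061) (.e (nat_lit 57849) (nat_lit 252) (.e (nat_lit 57370) (nat_lit 2) (.e (nat_lit 90160) (nat_lit 11) (.e (nat_lit 24627) (nat_lit 9) (.e (nat_lit 336454) (nat_lit 34) .nil))))) .nil))) (.nd (nat_lit 6) 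
(.lf (nat_lit 182462) (.g (nat_lit 2321) (.e (nat_lit 57848) (nat_lit 252) (.e (nat_lit 57445) (nat_lit 19) (.e (nat_lit 393229) (nat_lit 9) (.e (nat_lit 336202) (nat_lit 12) (.e (nat_lit 385065) (nat_lit 26) .nil))))) .nil)) 
(.lf (nat_lit 182526) (.g (nat_lit 1505) (.e (nat_lit 57849) (nat_lit 252) (.e (nat_lit 57372) (nat_lit 2) (.e (nat_lit 90158) (nat_lit 11) (.e (nat_lit 24628) (nat_lit 9) (.e (nat_lit 336374) (nat_lit 27) .nil))))) .nil)))))))) (.nd (nat_lit 1) (.nd (nat_lit 2) (.nd (nat_lit 3) (.nd (nat_lit 4) (.nd (nat_lit 5) (.nd (nat_lit 6) 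
(.lf (nat_lit 182401) (.g (nat_lit 1512) (.e (nat_lit 57848) (nat_lit 252) (.e (nat_lit 57434) (nat_lit 17) (.e (nat_lit 376842) (nat_lit 11) (.e (nat_lit 426186) (nat_lit 9) (.e (nat_lit 426448) (nat_lit 20) .nil))))) .nil)) 
(.lf (nat_lit 182465) (.g (nat_lit 2728) (.e (nat_lit 57848) (nat_lit 252) (.e (nat_lit 57446) (nat_lit 19) (.e (nat_lit 393229) (nat_lit 9) (.e (nat_lit 336196) (nat_lit 12) (.e (nat_lit 385064) (nat_lit 26) .nil))))) .nil))) (.nd (nat_lit 6) 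
(.lf (nat_lit 182433) (.g (nat_lit 2597) (.e (nat_lit 57848) (nat_lit 252) (.e (nat_lit 57437) (nat_lit 17) (.e (nat_lit 376842) (nat_lit 11) (.e (nat_lit 426306) (nat_lit 12) (.e (nat_lit 475205) (nat_lit 40) (.e (nat_lit 704606) (nat_lit 9) (.e (nat_lit 1183) (nat_lit 87) .nil))))))) (.g (nat_lit 4) .nil .nil))) 
(.lf (nat_lit 182497) (.g (nat_lit 926) (.e (nat_lit 57849) (nat_lit 252) (.e (nat_lit 57372) (nat_lit 2) (.e (nat_lit 90121) (nat_lit 9) (.e (nat_lit 249) (nat_lit 21) .nil)))) .nil)))) (.nd (nat_lit 5) (.nd (nat_lit 6) 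
(.lf (nat_lit 182417) (.g (nat_lit 1440) (.e (nat_lit 57848) (nat_lit 252) (.e (nat_lit 57436) (nat_lit 17) (.e (nat_lit 376838) (nat_lit 11) (.e (nat_lit 426190) (nat_lit 9) (.e (nat_lit 426448) (nat_lit 20) .nil))))) .nil)) 
(.lf (nat_lit 182481) (.g (nat_lit 1654) (.e (nat_lit 57849) (nat_lit 252) (.e (nat_lit 57363) (nat_lit 1) (.e (nat_lit 57847) (nat_lit 252) (.e (nat_lit 57412) (nat_lit 12) (.e (nat_lit 336061) (nat_lit 7) .nil))))) .nil))) (.nd (nat_lit 6) 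
(.lf (nat_lit 182449) (.g (nat_lit 2112) (.e (nat_lit 57848) (nat_lit 252) (.e (nat_lit 57445) (nat_lit 19) (.e (nat_lit 393229) (nat_lit 9) (.e (nat_lit 336086) (nat_lit 9) (.e (nat_lit 336316) (nat_lit 17) .nil))))) .nil)) 
(.lf (nat_lit 182513) (.g (nat_lit 2026) (.e (nat_lit 57849) (nat_lit 252) (.e (nat_lit 57372) (nat_lit 2) (.e (nat_lit 90158) (nat_lit 11) (.e (nat_lit 24608) (nat_lit 3) (.e (nat_lit 98337) (nat_lit 19) .nil))))) .nil))))) (.nd (nat_lit 4) (.nd (nat_lit 5) (.nd (nat_lit 6) 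
(.lf (nat_lit 182409) (.g (nat_lit 1550) (.e (nat_lit 57848) (nat_lit 252) (.e (nat_lit 57435) (nat_lit 17) (.e (nat_lit 376842) (nat_lit 11) (.e (nat_lit 426306) (nat_lit 12) (.e (nat_lit 475201) (nat_lit 40) .nil))))) .nil)) 
(.lf (nat_lit 182473) (.g (nat_lit 598) (.e (nat_lit 57848) (nat_lit 252) (.e (nat_lit 57448) (nat_lit 19) (.e (nat_lit 393229) (nat_lit 9) .nil))) .nil))) (.nd (nat_lit 6) 
(.lf (nat_lit 182441) (.g (nat_lit 3744) (.e (nat_lit 57848) (nat_lit 252) (.e (nat_lit 57445) (nat_lit 19) (.e (nat_lit 393229) (nat_lit 9) (.e (nat_lit 335892) (nat_lit 0) .nil)))) .nil)) 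
(.lf (nat_lit 182505) (.g (nat_lit 2418) (.e (nat_lit 57849) (nat_lit 252) (.e (nat_lit 57372) (nat_lit 2) (.e (nat_lit 90128) (nat_lit 9) (.e (nat_lit 297) (nat_lit 22) (.e (nat_lit 344120) (nat_lit 21) (.e (nat_lit 516131) (nat_lit 3) (.e (nat_lit 221215) (nat_lit 23) (.e (nat_lit 204828) (nat_lit 18) .nil)))))))) (.g (nat_lit 4) .nil .nil))))) (.nd (nat_lit 5) (.nd (nat_lit 6) 
(.lf (nat_lit 182425) (.g (nat_lit 1813) (.e (nat_lit 57848) (nat_lit 252) (.e (nat_lit 57436) (nat_lit 17) (.e (nat_lit 376842) (nat_lit 11) (.e (nat_lit 426314) (nat_lit 12) (.e (nat_lit 475212) (nat_lit 42) .nil))))) .nil)) 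
(.lf (nat_lit 182489) (.g (nat_lit 3846) (.e (nat_lit 57849) (nat_lit 252) (.e (nat_lit 57368) (nat_lit 1) (.e (nat_lit 57830) (nat_lit 250) (.e (nat_lit 1201) (nat_lit 88) (.e (nat_lit 65586) (nat_lit 7) (.e (nat_lit 319531) (nat_lit 16) (.e (nat_lit 286748) (nat_lit 9) (.e (nat_lit 335991) (nat_lit 1) .nil)))))))) (.g (nat_lit 7) .nil .nil)))) (.nd (nat_lit 6) 
(.lf (nat_lit 182457) (.g (nat_lit 3555) (.e (nat_lit 57848) (nat_lit 252) (.e (nat_lit 57445) (nat_lit 19) (.e (nat_lit 393229) (nat_lit 9) (.e (nat_lit 336150) (nat_lit 9) .nil)))) .nil)) 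
(.lf (nat_lit 182521) (.g (nat_lit 2486) (.e (nat_lit 57849) (nat_lit 252) (.e (nat_lit 57372) (nat_lit 2) (.e (nat_lit 90158) (nat_lit 11) (.e (nat_lit 24608) (nat_lit 3) (.e (nat_lit 98342) (nat_lit 20) (.e (nat_lit 221214) (nat_lit 23) (.e (nat_lit 204828) (nat_lit 18) .nil))))))) (.g (nat_lit 4) .nil .nil))))))) (.nd (nat_lit 3) (.nd (nat_lit 4) (.nd (nat_lit 5) (.nd (nat_lit 6) 
(.lf (nat_lit 182405) (.g (nat_lit 1706) (.e (nat_lit 57848) (nat_lit 252) (.e (nat_lit 57435) (nat_lit 17) (.e (nat_lit 376842) (nat_lit 11) (.e (nat_lit 426196) (nat_lit 9) (.e (nat_lit 426446) (nat_lit 20) .nil))))) .nil)) 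
(.lf (nat_lit 182469) (.g (nat_lit 942) (.e (nat_lit 57848) (nat_lit 252) (.e (nat_lit 57447) (nat_lit 19) (.e (nat_lit 393229) (nat_lit 9) .nil))) .nil))) (.nd (nat_lit 6) 
(.lf (nat_lit 182437) (.g (nat_lit 1739) (.e (nat_lit 57848) (nat_lit 252) (.e (nat_lit 57437) (nat_lit 17) (.e (nat_lit 376842) (nat_lit 11) (.e (nat_lit 426316) (nat_lit 12) (.e (nat_lit 475214) (nat_lit 42) .nil))))) .nil)) 
(.lf (nat_lit 182501) (.g (nat_lit 2755) (.e (nat_lit 57849) (nat_lit 252) (.e (nat_lit 57372) (nat_lit 2) (.e (nat_lit 90128) (nat_lit 9) (.e (nat_lit 297) (nat_lit 22) (.e (nat_lit 344119) (nat_lit 21) (.e (nat_lit 516131) (nat_lit 3) (.e (nat_lit 221212) (nat_lit 22) (.e (nat_lit 196632) (nat_lit 9) (.e (nat_lit 1170) (nat_lit 87) .nil))))))))) (.g (nat_lit 4) .nil .nil))))) 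
(.nd (nat_lit 5) (.nd (nat_lit 6) 
(.lf (nat_lit 182421) (.g (nat_lit 1597) (.e (nat_lit 57848) (nat_lit 252) (.e (nat_lit 57436) (nat_lit 17) (.e (nat_lit 376842) (nat_lit 11) (.e (nat_lit 426258) (nat_lit 9) .nil)))) .nil)) 
(.lf (nat_lit 182485) (.g (nat_lit 2390) (.e (nat_lit 57849) (nat_lit 252) (.e (nat_lit 57367) (nat_lit 1) (.e (nat_lit 57848) (nat_lit 252) (.e (nat_lit 57372) (nat_lit 2) (.e (nat_lit 90115) (nat_lit 0) .nil))))) .nil))) (.nd (nat_lit 6) 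
(.lf (nat_lit 182453) (.g (nat_lit 1069) (.e (nat_lit 57848) (nat_lit 252) (.e (nat_lit 57445) (nat_lit 19) (.e (nat_lit 393229) (nat_lit 9) (.e (nat_lit 336088) (nat_lit 9) .nil)))) .nil)) 
(.lf (nat_lit 182517) (.g (nat_lit 2511) (.e (nat_lit 57849) (nat_lit 252) (.e (nat_lit 57372) (nat_lit 2) (.e (nat_lit 90158) (nat_lit 11) (.e (nat_lit 24608) (nat_lit 3) (.e (nat_lit 98340) (nat_lit 20) (.e (nat_lit 221213) (nat_lit 23) (.e (nat_lit 204829) (nat_lit 18) .nil))))))) (.g (nat_lit 4) .nil .nil)))))) (.nd (nat_lit 4) (.nd (nat_lit 5) (.nd (nat_lit 6) 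
(.lf (nat_lit 182413) (.g (nat_lit 2510) (.e (nat_lit 57848) (nat_lit 252) (.e (nat_lit 57435) (nat_lit 17) (.e (nat_lit 376842) (nat_lit 11) (.e (nat_lit 426306) (nat_lit 12) (.e (nat_lit 475212) (nat_lit 42) (.e (nat_lit 720933) (nat_lit 21) .nil)))))) (.g (nat_lit 5) .nil .nil))) 
(.lf (nat_lit 182477) (.g (nat_lit 3919) (.e (nat_lit 57849) (nat_lit 252) (.e (nat_lit 57355) (nat_lit 0) (.e (nat_lit 1858) (nat_lit 124) (.e (nat_lit 557105) (nat_lit 14) (.e (nat_lit 180252) (nat_lit 10) (.e (nat_lit 573481) (nat_lit 13) (.e (nat_lit 73472) (nat_lit 18) (.e (nat_lit 204829) (nat_lit 18) .nil)))))))) (.g (nat_lit 5) .nil .nil)))) (.nd (nat_lit 6) 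
(.lf (nat_lit 182445) (.g (nat_lit 1966) (.e (nat_lit 57848) (nat_lit 252) (.e (nat_lit 57445) (nat_lit 19) (.e (nat_lit 393229) (nat_lit 9) (.e (nat_lit 336085) (nat_lit 9) .nil)))) .nil)) 
(.lf (nat_lit 182509) (.g (nat_lit 525) (.e (nat_lit 57849) (nat_lit 252) (.e (nat_lit 57372) (nat_lit 2) (.e (nat_lit 90133) (nat_lit 9) .nil))) .nil)))) (.nd (nat_lit 5) (.nd (nat_lit 6) 
(.lf (nat_lit 182429) (.g (nat_lit 2157) (.e (nat_lit 57848) (nat_lit 252) (.e (nat_lit 57437) (nat_lit 17) (.e (nat_lit 376842) (nat_lit 11) (.e (nat_lit 426188) (nat_lit 9) (.e (nat_lit 426449) (nat_lit 20) .nil))))) .nil)) 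
(.lf (nat_lit 182493) (.g (nat_lit 1902) (.e (nat_lit 57849) (nat_lit 252) (.e (nat_lit 57370) (nat_lit 2) (.e (nat_lit 90158) (nat_lit 11) (.e (nat_lit 24658) (nat_lit 13) (.e (nat_lit 393228) (nat_lit 9) .nil))))) .nil))) (.nd (nat_lit 6) 
(.lf (nat_lit 182461) (.g (nat_lit 1747) (.e (nat_lit 57848) (nat_lit 252) (.e (nat_lit 57445) (nat_lit 19) (.e (nat_lit 393229) (nat_lit 9) (.e (nat_lit 336202) (nat_lit 12) .nil)))) .nil)) 
(.lf (nat_lit 182525) (.g (nat_lit 1928) (.e (nat_lit 57849) (nat_lit 252) (.e (nat_lit 57372) (nat_lit 2) (.e (nat_lit 90158) (nat_lit 11) (.e (nat_lit 24628) (nat_lit 9) (.e (nat_lit 336366) (nat_lit 27) .nil))))) .nil))))))) (.nd (nat_lit 2) (.nd (nat_lit 3) (.nd (nat_lit 4) (.nd (nat_lit 5) (.nd (nat_lit 6) 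
(.lf (nat_lit 182403) (.g (nat_lit 2094) (.e (nat_lit 57848) (nat_lit 252) (.e (nat_lit 57435) (nat_lit 17) (.e (nat_lit 376842) (nat_lit 11) (.e (nat_lit 426188) (nat_lit 9) (.e (nat_lit 426444) (nat_lit 19) .nil))))) .nil)) 
(.lf (nat_lit 182467) (.g (nat_lit 2382) (.e (nat_lit 57848) (nat_lit 252) (.e (nat_lit 57446) (nat_lit 19) (.e (nat_lit 393229) (nat_lit 9) (.e (nat_lit 336201) (nat_lit 12) (.e (nat_lit 385068) (nat_lit 26) .nil))))) .nil))) (.nd (nat_lit 6) 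
(.lf (nat_lit 182435) (.g (nat_lit 1456) (.e (nat_lit 57848) (nat_lit 252) (.e (nat_lit 57437) (nat_lit 17) (.e (nat_lit 376842) (nat_lit 11) (.e (nat_lit 426314) (nat_lit 12) .nil)))) .nil)) 
(.lf (nat_lit 182499) (.g (nat_lit 3272) (.e (nat_lit 57849) (nat_lit 252) (.e (nat_lit 57372) (nat_lit 2) (.e (nat_lit 90127) (nat_lit 9) (.e (nat_lit 249) (nat_lit 21) (.e (nat_lit 336215) (nat_lit 13) (.e (nat_lit 393227) (nat_lit 9) (.e (nat_lit 335998) (nat_lit 1) .nil))))))) (.g (nat_lit 5) .nil .nil))))) (.nd (nat_lit 5) (.nd (nat_lit 6) 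
(.lf (nat_lit 182419) (.g (nat_lit 1785) (.e (nat_lit 57848) (nat_lit 252) (.e (nat_lit 57436) (nat_lit 17) (.e (nat_lit 376842) (nat_lit 11) (.e (nat_lit 426196) (nat_lit 9) (.e (nat_lit 426446) (nat_lit 20) .nil))))) .nil)) 
(.lf (nat_lit 182483) (.g (nat_lit 3173) (.e (nat_lit 57849) (nat_lit 252) (.e (nat_lit 57365) (nat_lit 1) (.e (nat_lit 57854) (nat_lit 252) (.e (nat_lit 57427) (nat_lit 15) (.e (nat_lit 360478) (nat_lit 12) (.e (nat_lit 622616) (nat_lit 9) (.e (nat_lit 65565) (nat_lit 1) .nil))))))) (.g (nat_lit 4) .nil .nil)))) (.nd (nat_lit 6) 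
(.lf (nat_lit 182451) (.g (nat_lit 2713) (.e (nat_lit 57848) (nat_lit 252) (.e (nat_lit 57445) (nat_lit 19) (.e (nat_lit 393229) (nat_lit 9) (.e (nat_lit 336087) (nat_lit 9) (.e (nat_lit 336316) (nat_lit 17) .nil))))) .nil)) 
(.lf (nat_lit 182515) (.g (nat_lit 2515) (.e (nat_lit 57849) (nat_lit 252) (.e (nat_lit 57372) (nat_lit 2) (.e (nat_lit 90158) (nat_lit 11) (.e (nat_lit 24608) (nat_lit 3) (.e (nat_lit 98338) (nat_lit 19) (.e (nat_lit 213013) (nat_lit 9) (.e (nat_lit 2681) (nat_lit 168) (.e (nat_lit 204829) (nat_lit 18) .nil)))))))) (.g (nat_lit 4) .nil .nil)))))) 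
(.nd (nat_lit 4) (.nd (nat_lit 5) (.nd (nat_lit 6) 
(.lf (nat_lit 182411) (.g (nat_lit 2675) (.e (nat_lit 57848) (nat_lit 252) (.e (nat_lit 57435) (nat_lit 17) (.e (nat_lit 376842) (nat_lit 11) (.e (nat_lit 426306) (nat_lit 12) (.e (nat_lit 475205) (nat_lit 40) (.e (nat_lit 704606) (nat_lit 9) (.e (nat_lit 1183) (nat_lit 87) .nil))))))) (.g (nat_lit 4) .nil .nil))) 
(.lf (nat_lit 182475) (.g (nat_lit 946) (.e (nat_lit 57849) (nat_lit 252) (.e (nat_lit 57347) (nat_lit 0) (.e (nat_lit 2078) (nat_lit 142) (.e (nat_lit 704734) (nat_lit 11) .nil)))) .nil))) (.nd (nat_lit 6) 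
(.lf (nat_lit 182443) (.g (nat_lit 2297) (.e (nat_lit 57848) (nat_lit 252) (.e (nat_lit 57445) (nat_lit 19) (.e (nat_lit 393229) (nat_lit 9) (.e (nat_lit 336078) (nat_lit 9) (.e (nat_lit 336326) (nat_lit 18) .nil))))) .nil)) 
(.lf (nat_lit 182507) (.g (nat_lit 4039) (.e (nat_lit 57849) (nat_lit 252) (.e (nat_lit 57372) (nat_lit 2) (.e (nat_lit 90128) (nat_lit 9) (.e (nat_lit 307) (nat_lit 22) (.e (nat_lit 344117) (nat_lit 21) (.e (nat_lit 516130) (nat_lit 3) (.e (nat_lit 221215) (nat_lit 23) (.e (nat_lit 204828) (nat_lit 18) .nil)))))))) (.g (nat_lit 5) .nil .nil))))) (.nd (nat_lit 5) (.nd (nat_lit 6) 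
(.lf (nat_lit 182427) (.g (nat_lit 1955) (.e (nat_lit 57848) (nat_lit 252) (.e (nat_lit 57436) (nat_lit 17) (.e (nat_lit 376842) (nat_lit 11) (.e (nat_lit 426316) (nat_lit 12) (.e (nat_lit 475212) (nat_lit 42) .nil))))) .nil)) 
(.lf (nat_lit 182491) (.g (nat_lit 2592) (.e (nat_lit 57849) (nat_lit 252) (.e (nat_lit 57368) (nat_lit 1) (.e (nat_lit 57854) (nat_lit 252) (.e (nat_lit 57409) (nat_lit 12) (.e (nat_lit 335878) (nat_lit 0) .nil))))) .nil))) (.nd (nat_lit 6) 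
(.lf (nat_lit 182459) (.g (nat_lit 2581) (.e (nat_lit 57848) (nat_lit 252) (.e (nat_lit 57445) (nat_lit 19) (.e (nat_lit 393229) (nat_lit 9) (.e (nat_lit 336195) (nat_lit 12) .nil)))) .nil)) 
(.lf (nat_lit 182523) (.g (nat_lit 3621) (.e (nat_lit 57849) (nat_lit 252) (.e (nat_lit 57372) (nat_lit 2) (.e (nat_lit 90158) (nat_lit 11) (.e (nat_lit 24625) (nat_lit 9) (.e (nat_lit 336456) (nat_lit 34) (.e (nat_lit 483363) (nat_lit 18) .nil)))))) (.g (nat_lit 0) .nil .nil))))))) (.nd (nat_lit 3) (.nd (nat_lit 4) (.nd (nat_lit 5) (.nd (nat_lit 6) 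
(.lf (nat_lit 182407) (.g (nat_lit 1710) (.e (nat_lit 57848) (nat_lit 252) (.e (nat_lit 57435) (nat_lit 17) (.e (nat_lit 376842) (nat_lit 11) (.e (nat_lit 426258) (nat_lit 9) (.e (nat_lit 426447) (nat_lit 20) .nil))))) .nil)) 
(.lf (nat_lit 182471) (.g (nat_lit 2203) (.e (nat_lit 57848) (nat_lit 252) (.e (nat_lit 57447) (nat_lit 19) (.e (nat_lit 393229) (nat_lit 9) (.e (nat_lit 336203) (nat_lit 12) .nil)))) .nil))) (.nd (nat_lit 6) 
(.lf (nat_lit 182439) (.g (nat_lit 2000) (.e (nat_lit 57848) (nat_lit 252) (.e (nat_lit 57445) (nat_lit 19) (.e (nat_lit 393225) (nat_lit 9) (.e (nat_lit 336194) (nat_lit 12) (.e (nat_lit 385064) (nat_lit 26) .nil))))) .nil)) 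
(.lf (nat_lit 182503) (.g (nat_lit 3013) (.e (nat_lit 57849) (nat_lit 252) (.e (nat_lit 57372) (nat_lit 2) (.e (nat_lit 90128) (nat_lit 9) (.e (nat_lit 297) (nat_lit 22) (.e (nat_lit 344119) (nat_lit 21) (.e (nat_lit 516131) (nat_lit 3) (.e (nat_lit 221212) (nat_lit 22) (.e (nat_lit 196632) (nat_lit 9) (.e (nat_lit 1180) (nat_lit 87) .nil))))))))) (.g (nat_lit 5) .nil .nil))))) 
(.nd (nat_lit 5) (.nd (nat_lit 6) 
(.lf (nat_lit 182423) (.g (nat_lit 1860) (.e (nat_lit 57848) (nat_lit 252) (.e (nat_lit 57436) (nat_lit 17) (.e (nat_lit 376842) (nat_lit 11) (.e (nat_lit 426308) (nat_lit 12) (.e (nat_lit 475212) (nat_lit 42) .nil))))) .nil)) 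
(.lf (nat_lit 182487) (.g (nat_lit 3451) (.e (nat_lit 57849) (nat_lit 252) (.e (nat_lit 57368) (nat_lit 1) (.e (nat_lit 57830) (nat_lit 250) (.e (nat_lit 1201) (nat_lit 88) (.e (nat_lit 65583) (nat_lit 7) (.e (nat_lit 319530) (nat_lit 16) (.e (nat_lit 286748) (nat_lit 9) (.e (nat_lit 335991) (nat_lit 1) .nil)))))))) (.g (nat_lit 7) .nil .nil)))) (.nd (nat_lit 6) 
(.lf (nat_lit 182455) (.g (nat_lit 3693) (.e (nat_lit 57848) (nat_lit 252) (.e (nat_lit 57445) (nat_lit 19) (.e (nat_lit 393229) (nat_lit 9) (.e (nat_lit 336091) (nat_lit 9) (.e (nat_lit 336282) (nat_lit 15) .nil))))) .nil)) 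
(.lf (nat_lit 182519) (.g (nat_lit 2350) (.e (nat_lit 57849) (nat_lit 252) (.e (nat_lit 57372) (nat_lit 2) (.e (nat_lit 90158) (nat_lit 11) (.e (nat_lit 24608) (nat_lit 3) (.e (nat_lit 98342) (nat_lit 20) (.e (nat_lit 221212) (nat_lit 22) (.e (nat_lit 196626) (nat_lit 9) (.e (nat_lit 1183) (nat_lit 87) .nil)))))))) (.g (nat_lit 4) .nil .nil)))))) (.nd (nat_lit 4) (.nd (nat_lit 5) (.nd (nat_lit 6) 
(.lf (nat_lit 182415) (.g (nat_lit 1758) (.e (nat_lit 57848) (nat_lit 252) (.e (nat_lit 57435) (nat_lit 17) (.e (nat_lit 376842) (nat_lit 11) (.e (nat_lit 426314) (nat_lit 12) (.e (nat_lit 475206) (nat_lit 40) .nil))))) .nil)) 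
(.lf (nat_lit 182479) (.g (nat_lit 4072) (.e (nat_lit 57849) (nat_lit 252) (.e (nat_lit 57355) (nat_lit 0) (.e (nat_lit 1858) (nat_lit 124) (.e (nat_lit 557105) (nat_lit 14) (.e (nat_lit 180252) (nat_lit 10) (.e (nat_lit 573482) (nat_lit 13) (.e (nat_lit 73472) (nat_lit 18) (.e (nat_lit 204829) (nat_lit 18) .nil)))))))) (.g (nat_lit 5) .nil .nil)))) (.nd (nat_lit 6) 
(.lf (nat_lit 182447) (.g (nat_lit 1102) (.e (nat_lit 57848) (nat_lit 252) (.e (nat_lit 57445) (nat_lit 19) (.e (nat_lit 393229) (nat_lit 9) (.e (nat_lit 336086) (nat_lit 9) .nil)))) .nil)) 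
(.lf (nat_lit 182511) (.g (nat_lit 1138) (.e (nat_lit 57849) (nat_lit 252) (.e (nat_lit 57372) (nat_lit 2) (.e (nat_lit 90134) (nat_lit 9) (.e (nat_lit 290) (nat_lit 21) .nil)))) .nil)))) (.nd (nat_lit 5) (.nd (nat_lit 6) 
(.lf (nat_lit 182431) (.g (nat_lit 1813) (.e (nat_lit 57848) (nat_lit 252) (.e (nat_lit 57437) (nat_lit 17) (.e (nat_lit 376842) (nat_lit 11) (.e (nat_lit 426199) (nat_lit 9) (.e (nat_lit 426446) (nat_lit 20) .nil))))) .nil)) 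
(.lf (nat_lit 182495) (.g (nat_lit 886) (.e (nat_lit 57849) (nat_lit 252) (.e (nat_lit 57371) (nat_lit 2) (.e (nat_lit 90134) (nat_lit 9) .nil))) .nil))) (.nd (nat_lit 6) 
(.lf (nat_lit 182463) (.g (nat_lit 2157) (.e (nat_lit 57848) (nat_lit 252) (.e (nat_lit 57445) (nat_lit 19) (.e (nat_lit 393229) (nat_lit 9) (.e (nat_lit 336203) (nat_lit 12) (.e (nat_lit 385059) (nat_lit 22) .nil))))) .nil)) 
(.lf (nat_lit 182527) (.g (nat_lit 2088) (.e (nat_lit 57849) (nat_lit 252) (.e (nat_lit 57372) (nat_lit 2) (.e (nat_lit 90158) (nat_lit 11) (.e (nat_lit 24628) (nat_lit 9) (.e (nat_lit 336452) (nat_lit 34) (.e (nat_lit 483363) (nat_lit 18) .nil)))))) (.g (nat_lit 4) .nil .nil))))))))))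

noncomputable def tv2437 : DT := (.nd (nat_lit 0) (.nd (nat_lit 1) (.nd (nat_lit 2) (.nd (nat_lit 3) (.nd (nat_lit 4) (.nd (nat_lit 5) (.nd (nat_lit 6) 
(.lf (nat_lit 182528) (.g (nat_lit 1085) (.e (nat_lit 57849) (nat_lit 252) (.e (nat_lit 57372) (nat_lit 2) (.e (nat_lit 90158) (nat_lit 11) (.e (nat_lit 24629) (nat_lit 9) .nil)))) .nil)) 
(.lf (nat_lit 182592) (.g (nat_lit 2676) (.e (nat_lit 57849) (nat_lit 252) (.e (nat_lit 57375) (nat_lit 2) (.e (nat_lit 90128) (nat_lit 9) (.e (nat_lit 297) (nat_lit 22) (.e (nat_lit 344119) (nat_lit 21) (.e (nat_lit 516131) (nat_lit 3) (.e (nat_lit 221212) (nat_lit 22) (.e (nat_lit 196624) (nat_lit 9) (.e (nat_lit 1186) (nat_lit 87) .nil))))))))) (.g (nat_lit 4) .nil .nil)))) (.nd (nat_lit 6) 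
(.lf (nat_lit 182560) (.g (nat_lit 3672) (.e (nat_lit 57849) (nat_lit 252) (.e (nat_lit 57372) (nat_lit 2) (.e (nat_lit 90160) (nat_lit 11) (.e (nat_lit 24651) (nat_lit 12) (.e (nat_lit 392960) (nat_lit 10) (.e (nat_lit 24599) (nat_lit 1) .nil)))))) (.g (nat_lit 4) .nil .nil))) 
(.lf (nat_lit 182624) (.g (nat_lit 2270) (.e (nat_lit 57849) (nat_lit 252) (.e (nat_lit 57375) (nat_lit 2) (.e (nat_lit 90158) (nat_lit 11) (.e (nat_lit 24651) (nat_lit 12) (.e (nat_lit 392960) (nat_lit 10) (.e (nat_lit 24599) (nat_lit 1) .nil)))))) (.g (nat_lit 4) .nil .nil))))) (.nd (nat_lit 5) (.nd (nat_lit 6) 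
(.lf (nat_lit 182544) (.g (nat_lit 366) (.e (nat_lit 57849) (nat_lit 252) (.e (nat_lit 57372) (nat_lit 2) (.e (nat_lit 90160) (nat_lit 11) .nil))) .nil)) 
(.lf (nat_lit 182608) (.g (nat_lit 2888) (.e (nat_lit 57849) (nat_lit 252) (.e (nat_lit 57375) (nat_lit 2) (.e (nat_lit 90158) (nat_lit 11) (.e (nat_lit 24608) (nat_lit 3) (.e (nat_lit 98342) (nat_lit 20) (.e (nat_lit 221212) (nat_lit 22) (.e (nat_lit 196626) (nat_lit 9) (.e (nat_lit 1183) (nat_lit 87) .nil)))))))) (.g (nat_lit 4) .nil .nil)))) (.nd (nat_lit 6) 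
(.lf (nat_lit 182576) (.g (nat_lit 2303) (.e (nat_lit 57849) (nat_lit 252) (.e (nat_lit 57373) (nat_lit 2) (.e (nat_lit 90158) (nat_lit 11) (.e (nat_lit 24655) (nat_lit 13) (.e (nat_lit 393229) (nat_lit 9) .nil))))) .nil)) 
(.lf (nat_lit 182640) (.g (nat_lit 2153) (.e (nat_lit 57849) (nat_lit 252) (.e (nat_lit 57375) (nat_lit 2) (.e (nat_lit 90160) (nat_lit 11) (.e (nat_lit 24580) (nat_lit 0) .nil)))) .nil))))) (.nd (nat_lit 4) (.nd (nat_lit 5) (.nd (nat_lit 6) 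
(.lf (nat_lit 182536) (.g (nat_lit 1565) (.e (nat_lit 57849) (nat_lit 252) (.e (nat_lit 57372) (nat_lit 2) (.e (nat_lit 90158) (nat_lit 11) (.e (nat_lit 24656) (nat_lit 13) (.e (nat_lit 393224) (nat_lit 9) .nil))))) .nil)) 
(.lf (nat_lit 182600) (.g (nat_lit 2565) (.e (nat_lit 57849) (nat_lit 252) (.e (nat_lit 57375) (nat_lit 2) (.e (nat_lit 90158) (nat_lit 11) (.e (nat_lit 24608) (nat_lit 3) (.e (nat_lit 98337) (nat_lit 19) (.e (nat_lit 213022) (nat_lit 9) (.e (nat_lit 2683) (nat_lit 168) (.e (nat_lit 204829) (nat_lit 18) .nil)))))))) (.g (nat_lit 4) .nil .nil)))) (.nd (nat_lit 6) 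
(.lf (nat_lit 182568) (.g (nat_lit 3659) (.e (nat_lit 57849) (nat_lit 252) (.e (nat_lit 57372) (nat_lit 2) (.e (nat_lit 90160) (nat_lit 11) (.e (nat_lit 24656) (nat_lit 13) (.e (nat_lit 393229) (nat_lit 9) (.e (nat_lit 335995) (nat_lit 1) .nil)))))) (.g (nat_lit 0) .nil .nil))) 
(.lf (nat_lit 182632) (.g (nat_lit 1859) (.e (nat_lit 57849) (nat_lit 252) (.e (nat_lit 57375) (nat_lit 2) (.e (nat_lit 90158) (nat_lit 11) (.e (nat_lit 24658) (nat_lit 13) (.e (nat_lit 393228) (nat_lit 9) .nil))))) .nil)))) (.nd (nat_lit 5) (.nd (nat_lit 6) 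
(.lf (nat_lit 182552) (.g (nat_lit 5062) (.e (nat_lit 57849) (nat_lit 252) (.e (nat_lit 57372) (nat_lit 2) (.e (nat_lit 90160) (nat_lit 11) (.e (nat_lit 24608) (nat_lit 3) (.e (nat_lit 98342) (nat_lit 20) (.e (nat_lit 221215) (nat_lit 23) (.e (nat_lit 204828) (nat_lit 18) .nil))))))) (.g (nat_lit 6) .nil .nil))) 
(.lf (nat_lit 182616) (.g (nat_lit 1524) (.e (nat_lit 57849) (nat_lit 252) (.e (nat_lit 57375) (nat_lit 2) (.e (nat_lit 90158) (nat_lit 11) (.e (nat_lit 24628) (nat_lit 9) (.e (nat_lit 336374) (nat_lit 27) .nil))))) .nil))) (.nd (nat_lit 6) 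
(.lf (nat_lit 182584) (.g (nat_lit 2569) (.e (nat_lit 57849) (nat_lit 252) (.e (nat_lit 57374) (nat_lit 2) (.e (nat_lit 90158) (nat_lit 11) (.e (nat_lit 24625) (nat_lit 9) (.e (nat_lit 336456) (nat_lit 34) .nil))))) .nil)) 
(.lf (nat_lit 182648) (.g (nat_lit 4036) (.e (nat_lit 57849) (nat_lit 252) (.e (nat_lit 57375) (nat_lit 2) (.e (nat_lit 90160) (nat_lit 11) (.e (nat_lit 24608) (nat_lit 3) (.e (nat_lit 98341) (nat_lit 20) (.e (nat_lit 221214) (nat_lit 23) (.e (nat_lit 204828) (nat_lit 18) .nil))))))) (.g (nat_lit 4) .nil .nil))))))) (.nd (nat_lit 3) (.nd (nat_lit 4) (.nd (nat_lit 5) (.nd (nat_lit 6) 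
(.lf (nat_lit 182532) (.g (nat_lit 2757) (.e (nat_lit 57849) (nat_lit 252) (.e (nat_lit 57372) (nat_lit 2) (.e (nat_lit 90158) (nat_lit 11) (.e (nat_lit 24655) (nat_lit 13) (.e (nat_lit 393224) (nat_lit 9) (.e (nat_lit 335995) (nat_lit 1) .nil)))))) (.g (nat_lit 4) .nil .nil))) 
(.lf (nat_lit 182596) (.g (nat_lit 2141) (.e (nat_lit 57849) (nat_lit 252) (.e (nat_lit 57375) (nat_lit 2) (.e (nat_lit 90157) (nat_lit 11) (.e (nat_lit 24655) (nat_lit 13) (.e (nat_lit 393229) (nat_lit 9) .nil))))) .nil))) (.nd (nat_lit 6) 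
(.lf (nat_lit 182564) (.g (nat_lit 2734) (.e (nat_lit 57849) (nat_lit 252) (.e (nat_lit 57372) (nat_lit 2) (.e (nat_lit 90160) (nat_lit 11) (.e (nat_lit 24655) (nat_lit 13) (.e (nat_lit 393229) (nat_lit 9) (.e (nat_lit 335993) (nat_lit 1) .nil)))))) (.g (nat_lit 4) .nil .nil))) 
(.lf (nat_lit 182628) (.g (nat_lit 2500) (.e (nat_lit 57849) (nat_lit 252) (.e (nat_lit 57375) (nat_lit 2) (.e (nat_lit 90158) (nat_lit 11) (.e (nat_lit 24655) (nat_lit 13) (.e (nat_lit 393229) (nat_lit 9) (.e (nat_lit 343808) (nat_lit 1) .nil)))))) (.g (nat_lit 5) .nil .nil))))) (.nd (nat_lit 5) (.nd (nat_lit 6) 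
(.lf (nat_lit 182548) (.g (nat_lit 3386) (.e (nat_lit 57849) (nat_lit 252) (.e (nat_lit 57372) (nat_lit 2) (.e (nat_lit 90160) (nat_lit 11) (.e (nat_lit 24608) (nat_lit 3) (.e (nat_lit 98338) (nat_lit 19) (.e (nat_lit 213013) (nat_lit 9) (.e (nat_lit 2684) (nat_lit 168) (.e (nat_lit 204829) (nat_lit 18) .nil)))))))) (.g (nat_lit 4) .nil .nil))) 
(.lf (nat_lit 182612) (.g (nat_lit 1735) (.e (nat_lit 57849) (nat_lit 252) (.e (nat_lit 57375) (nat_lit 2) (.e (nat_lit 90158) (nat_lit 11) (.e (nat_lit 24625) (nat_lit 9) (.e (nat_lit 336367) (nat_lit 27) .nil))))) .nil))) (.nd (nat_lit 6) 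
(.lf (nat_lit 182580) (.g (nat_lit 2802) (.e (nat_lit 57849) (nat_lit 252) (.e (nat_lit 57373) (nat_lit 2) (.e (nat_lit 90160) (nat_lit 11) (.e (nat_lit 24627) (nat_lit 9) (.e (nat_lit 336454) (nat_lit 34) .nil))))) .nil)) 
(.lf (nat_lit 182644) (.g (nat_lit 2268) (.e (nat_lit 57849) (nat_lit 252) (.e (nat_lit 57375) (nat_lit 2) (.e (nat_lit 90160) (nat_lit 11) (.e (nat_lit 24607) (nat_lit 3) .nil)))) .nil))))) (.nd (nat_lit 4) (.nd (nat_lit 5) (.nd (nat_lit 6) 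
(.lf (nat_lit 182540) (.g (nat_lit 1117) (.e (nat_lit 57849) (nat_lit 252) (.e (nat_lit 57372) (nat_lit 2) (.e (nat_lit 90158) (nat_lit 11) (.e (nat_lit 24659) (nat_lit 13) .nil)))) .nil)) 
(.lf (nat_lit 182604) (.g (nat_lit 3199) (.e (nat_lit 57849) (nat_lit 252) (.e (nat_lit 57375) (nat_lit 2) (.e (nat_lit 90158) (nat_lit 11) (.e (nat_lit 24608) (nat_lit 3) (.e (nat_lit 98338) (nat_lit 19) (.e (nat_lit 213013) (nat_lit 9) (.e (nat_lit 2684) (nat_lit 168) (.e (nat_lit 204831) (nat_lit 18) .nil)))))))) (.g (nat_lit 4) .nil .nil)))) (.nd (nat_lit 6) 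
(.lf (nat_lit 182572) (.g (nat_lit 3749) (.e (nat_lit 57849) (nat_lit 252) (.e (nat_lit 57372) (nat_lit 2) (.e (nat_lit 90160) (nat_lit 11) (.e (nat_lit 24665) (nat_lit 14) (.e (nat_lit 401414) (nat_lit 0) (.e (nat_lit 3578) (nat_lit 223) (.e (nat_lit 745491) (nat_lit 4) (.e (nat_lit 65565) (nat_lit 1) .nil)))))))) (.g (nat_lit 4) .nil .nil))) 
(.lf (nat_lit 182636) (.g (nat_lit 1795) (.e (nat_lit 57849) (nat_lit 252) (.e (nat_lit 57375) (nat_lit 2) (.e (nat_lit 90158) (nat_lit 11) (.e (nat_lit 24660) (nat_lit 13) (.e (nat_lit 401152) (nat_lit 9) (.e (nat_lit 336000) (nat_lit 1) .nil)))))) (.g (nat_lit 4) .nil .nil))))) (.nd (nat_lit 5) (.nd (nat_lit 6) 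
(.lf (nat_lit 182556) (.g (nat_lit 2229) (.e (nat_lit 57849) (nat_lit 252) (.e (nat_lit 57372) (nat_lit 2) (.e (nat_lit 90160) (nat_lit 11) (.e (nat_lit 24631) (nat_lit 9) (.e (nat_lit 336410) (nat_lit 27) .nil))))) .nil)) 
(.lf (nat_lit 182620) (.g (nat_lit 912) (.e (nat_lit 57849) (nat_lit 252) (.e (nat_lit 57375) (nat_lit 2) (.e (nat_lit 90158) (nat_lit 11) (.e (nat_lit 24629) (nat_lit 9) .nil)))) .nil))) (.nd (nat_lit 6) 
(.lf (nat_lit 182588) (.g (nat_lit 694) (.e (nat_lit 57849) (nat_lit 252) (.e (nat_lit 57375) (nat_lit 2) (.e (nat_lit 90127) (nat_lit 9) .nil))) .nil)) 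
(.lf (nat_lit 182652) (.g (nat_lit 2330) (.e (nat_lit 57849) (nat_lit 252) (.e (nat_lit 57375) (nat_lit 2) (.e (nat_lit 90160) (nat_lit 11) (.e (nat_lit 24609) (nat_lit 3) .nil)))) .nil))))))) (.nd (nat_lit 2) (.nd (nat_lit 3) (.nd (nat_lit 4) (.nd (nat_lit 5) (.nd (nat_lit 6) 
(.lf (nat_lit 182530) (.g (nat_lit 1552) (.e (nat_lit 57849) (nat_lit 252) (.e (nat_lit 57372) (nat_lit 2) (.e (nat_lit 90158) (nat_lit 11) (.e (nat_lit 24652) (nat_lit 12) (.e (nat_lit 392960) (nat_lit 10) .nil))))) .nil)) 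
(.lf (nat_lit 182594) (.g (nat_lit 1195) (.e (nat_lit 57849) (nat_lit 252) (.e (nat_lit 57375) (nat_lit 2) (.e (nat_lit 90134) (nat_lit 9) (.e (nat_lit 290) (nat_lit 21) .nil)))) .nil))) (.nd (nat_lit 6) 
(.lf (nat_lit 182562) (.g (nat_lit 3419) (.e (nat_lit 57849) (nat_lit 252) (.e (nat_lit 57372) (nat_lit 2) (.e (nat_lit 90160) (nat_lit 11) (.e (nat_lit 24655) (nat_lit 13) (.e (nat_lit 393226) (nat_lit 9) (.e (nat_lit 335998) (nat_lit 1) .nil)))))) (.g (nat_lit 4) .nil .nil))) 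
(.lf (nat_lit 182626) (.g (nat_lit 1655) (.e (nat_lit 57849) (nat_lit 252) (.e (nat_lit 57375) (nat_lit 2) (.e (nat_lit 90158) (nat_lit 11) (.e (nat_lit 24655) (nat_lit 13) (.e (nat_lit 393227) (nat_lit 9) .nil))))) .nil)))) (.nd (nat_lit 5) (.nd (nat_lit 6) 
(.lf (nat_lit 182546) (.g (nat_lit 3685) (.e (nat_lit 57849) (nat_lit 252) (.e (nat_lit 57372) (nat_lit 2) (.e (nat_lit 90160) (nat_lit 11) (.e (nat_lit 24607) (nat_lit 3) (.e (nat_lit 98342) (nat_lit 20) (.e (nat_lit 221212) (nat_lit 22) (.e (nat_lit 196624) (nat_lit 9) (.e (nat_lit 1186) (nat_lit 87) .nil)))))))) (.g (nat_lit 4) .nil .nil))) 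
(.lf (nat_lit 182610) (.g (nat_lit 2996) (.e (nat_lit 57849) (nat_lit 252) (.e (nat_lit 57375) (nat_lit 2) (.e (nat_lit 90158) (nat_lit 11) (.e (nat_lit 24608) (nat_lit 3) (.e (nat_lit 98342) (nat_lit 20) (.e (nat_lit 221214) (nat_lit 23) (.e (nat_lit 204828) (nat_lit 18) .nil))))))) (.g (nat_lit 4) .nil .nil)))) (.nd (nat_lit 6) 
(.lf (nat_lit 182578) (.g (nat_lit 2254) (.e (nat_lit 57849) (nat_lit 252) (.e (nat_lit 57373) (nat_lit 2) (.e (nat_lit 90159) (nat_lit 11) (.e (nat_lit 24657) (nat_lit 13) (.e (nat_lit 393229) (nat_lit 9) .nil))))) .nil)) 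
(.lf (nat_lit 182642) (.g (nat_lit 2582) (.e (nat_lit 57849) (nat_lit 252) (.e (nat_lit 57375) (nat_lit 2) (.e (nat_lit 90160) (nat_lit 11) (.e (nat_lit 24584) (nat_lit 0) (.e (nat_lit 7936) (nat_lit 345) .nil))))) .nil))))) (.nd (nat_lit 4) (.nd (nat_lit 5) (.nd (nat_lit 6) 
(.lf (nat_lit 182538) (.g (nat_lit 1869) (.e (nat_lit 57849) (nat_lit 252) (.e (nat_lit 57372) (nat_lit 2) (.e (nat_lit 90158) (nat_lit 11) (.e (nat_lit 24658) (nat_lit 13) (.e (nat_lit 393228) (nat_lit 9) .nil))))) .nil)) 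
(.lf (nat_lit 182602) (.g (nat_lit 3155) (.e (nat_lit 57849) (nat_lit 252) (.e (nat_lit 57375) (nat_lit 2) (.e (nat_lit 90158) (nat_lit 11) (.e (nat_lit 24608) (nat_lit 3) (.e (nat_lit 98338) (nat_lit 19) (.e (nat_lit 213013) (nat_lit 9) (.e (nat_lit 2684) (nat_lit 168) (.e (nat_lit 204828) (nat_lit 18) .nil)))))))) (.g (nat_lit 4) .nil .nil)))) (.nd (nat_lit 6) 
(.lf (nat_lit 182570) (.g (nat_lit 3938) (.e (nat_lit 57849) (nat_lit 252) (.e (nat_lit 57372) (nat_lit 2) (.e (nat_lit 90160) (nat_lit 11) (.e (nat_lit 24658) (nat_lit 13) (.e (nat_lit 393229) (nat_lit 9) (.e (nat_lit 335995) (nat_lit 1) .nil)))))) (.g (nat_lit 0) .nil .nil))) 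
(.lf (nat_lit 182634) (.g (nat_lit 2369) (.e (nat_lit 57849) (nat_lit 252) (.e (nat_lit 57375) (nat_lit 2) (.e (nat_lit 90158) (nat_lit 11) (.e (nat_lit 24660) (nat_lit 13) (.e (nat_lit 393229) (nat_lit 9) (.e (nat_lit 335985) (nat_lit 1) .nil)))))) (.g (nat_lit 5) .nil .nil))))) (.nd (nat_lit 5) (.nd (nat_lit 6) 
(.lf (nat_lit 182554) (.g (nat_lit 3400) (.e (nat_lit 57849) (nat_lit 252) (.e (nat_lit 57372) (nat_lit 2) (.e (nat_lit 90160) (nat_lit 11) (.e (nat_lit 24625) (nat_lit 9) (.e (nat_lit 336454) (nat_lit 34) (.e (nat_lit 483366) (nat_lit 18) .nil)))))) (.g (nat_lit 0) .nil .nil))) 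
(.lf (nat_lit 182618) (.g (nat_lit 2352) (.e (nat_lit 57849) (nat_lit 252) (.e (nat_lit 57375) (nat_lit 2) (.e (nat_lit 90158) (nat_lit 11) (.e (nat_lit 24628) (nat_lit 9) (.e (nat_lit 336377) (nat_lit 27) (.e (nat_lit 426524) (nat_lit 27) (.e (nat_lit 335986) (nat_lit 1) .nil))))))) (.g (nat_lit 4) .nil .nil)))) (.nd (nat_lit 6) 
(.lf (nat_lit 182586) (.g (nat_lit 496) (.e (nat_lit 57849) (nat_lit 252) (.e (nat_lit 57375) (nat_lit 2) (.e (nat_lit 90123) (nat_lit 9) .nil))) .nil)) 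
(.lf (nat_lit 182650) (.g (nat_lit 3850) (.e (nat_lit 57849) (nat_lit 252) (.e (nat_lit 57375) (nat_lit 2) (.e (nat_lit 90160) (nat_lit 11) (.e (nat_lit 24608) (nat_lit 3) (.e (nat_lit 98342) (nat_lit 20) (.e (nat_lit 221214) (nat_lit 23) (.e (nat_lit 204828) (nat_lit 18) .nil))))))) (.g (nat_lit 4) .nil .nil))))))) (.nd (nat_lit 3) (.nd (nat_lit 4) (.nd (nat_lit 5) (.nd (nat_lit 6) 
(.lf (nat_lit 182534) (.g (nat_lit 2295) (.e (nat_lit 57849) (nat_lit 252) (.e (nat_lit 57372) (nat_lit 2) (.e (nat_lit 90158) (nat_lit 11) (.e (nat_lit 24655) (nat_lit 13) (.e (nat_lit 393229) (nat_lit 9) (.e (nat_lit 343808) (nat_lit 1) .nil)))))) (.g (nat_lit 5) .nil .nil))) 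
(.lf (nat_lit 182598) (.g (nat_lit 303) (.e (nat_lit 57849) (nat_lit 252) (.e (nat_lit 57375) (nat_lit 2) (.e (nat_lit 90158) (nat_lit 11) .nil))) .nil))) (.nd (nat_lit 6) 
(.lf (nat_lit 182566) (.g (nat_lit 4219) (.e (nat_lit 57849) (nat_lit 252) (.e (nat_lit 57372) (nat_lit 2) (.e (nat_lit 90160) (nat_lit 11) (.e (nat_lit 24655) (nat_lit 13) (.e (nat_lit 393229) (nat_lit 9) (.e (nat_lit 335995) (nat_lit 1) .nil)))))) (.g (nat_lit 0) .nil .nil))) 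
(.lf (nat_lit 182630) (.g (nat_lit 1491) (.e (nat_lit 57849) (nat_lit 252) (.e (nat_lit 57375) (nat_lit 2) (.e (nat_lit 90158) (nat_lit 11) (.e (nat_lit 24656) (nat_lit 13) (.e (nat_lit 393224) (nat_lit 9) .nil))))) .nil)))) (.nd (nat_lit 5) (.nd (nat_lit 6) 
(.lf (nat_lit 182550) (.g (nat_lit 3709) (.e (nat_lit 57849) (nat_lit 252) (.e (nat_lit 57372) (nat_lit 2) (.e (nat_lit 90160) (nat_lit 11) (.e (nat_lit 24608) (nat_lit 3) (.e (nat_lit 98342) (nat_lit 20) (.e (nat_lit 221212) (nat_lit 22) (.e (nat_lit 196624) (nat_lit 9) (.e (nat_lit 1186) (nat_lit 87) .nil)))))))) (.g (nat_lit 4) .nil .nil))) 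
(.lf (nat_lit 182614) (.g (nat_lit 1951) (.e (nat_lit 57849) (nat_lit 252) (.e (nat_lit 57375) (nat_lit 2) (.e (nat_lit 90158) (nat_lit 11) (.e (nat_lit 24628) (nat_lit 9) (.e (nat_lit 336366) (nat_lit 27) .nil))))) .nil))) (.nd (nat_lit 6) 
(.lf (nat_lit 182582) (.g (nat_lit 954) (.e (nat_lit 57849) (nat_lit 252) (.e (nat_lit 57374) (nat_lit 2) (.e (nat_lit 90125) (nat_lit 9) (.e (nat_lit 333) (nat_lit 26) .nil)))) .nil)) 
(.lf (nat_lit 182646) (.g (nat_lit 1721) (.e (nat_lit 57849) (nat_lit 252) (.e (nat_lit 57375) (nat_lit 2) (.e (nat_lit 90160) (nat_lit 11) (.e (nat_lit 24608) (nat_lit 3) .nil)))) .nil))))) (.nd (nat_lit 4) (.nd (nat_lit 5) (.nd (nat_lit 6) 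
(.lf (nat_lit 182542) (.g (nat_lit 2422) (.e (nat_lit 57849) (nat_lit 252) (.e (nat_lit 57372) (nat_lit 2) (.e (nat_lit 90158) (nat_lit 11) (.e (nat_lit 24660) (nat_lit 13) (.e (nat_lit 393229) (nat_lit 9) (.e (nat_lit 335993) (nat_lit 1) .nil)))))) (.g (nat_lit 5) .nil .nil))) 
(.lf (nat_lit 182606) (.g (nat_lit 3466) (.e (nat_lit 57849) (nat_lit 252) (.e (nat_lit 57375) (nat_lit 2) (.e (nat_lit 90158) (nat_lit 11) (.e (nat_lit 24608) (nat_lit 3) (.e (nat_lit 98341) (nat_lit 20) (.e (nat_lit 221214) (nat_lit 23) (.e (nat_lit 204828) (nat_lit 18) .nil))))))) (.g (nat_lit 5) .nil .nil)))) (.nd (nat_lit 6) 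
(.lf (nat_lit 182574) (.g (nat_lit 1788) (.e (nat_lit 57849) (nat_lit 252) (.e (nat_lit 57373) (nat_lit 2) (.e (nat_lit 90134) (nat_lit 9) (.e (nat_lit 290) (nat_lit 21) .nil)))) .nil)) 
(.lf (nat_lit 182638) (.g (nat_lit 1502) (.e (nat_lit 57849) (nat_lit 252) (.e (nat_lit 57375) (nat_lit 2) (.e (nat_lit 90159) (nat_lit 11) (.e (nat_lit 24657) (nat_lit 13) (.e (nat_lit 401152) (nat_lit 9) .nil))))) .nil)))) (.nd (nat_lit 5) (.nd (nat_lit 6) 
(.lf (nat_lit 182558) (.g (nat_lit 3297) (.e (nat_lit 57849) (nat_lit 252) (.e (nat_lit 57372) (nat_lit 2) (.e (nat_lit 90160) (nat_lit 11) (.e (nat_lit 24648) (nat_lit 12) (.e (nat_lit 392960) (nat_lit 10) (.e (nat_lit 24599) (nat_lit 1) .nil)))))) (.g (nat_lit 4) .nil .nil))) 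
(.lf (nat_lit 182622) (.g (nat_lit 1614) (.e (nat_lit 57849) (nat_lit 252) (.e (nat_lit 57375) (nat_lit 2) (.e (nat_lit 90158) (nat_lit 11) (.e (nat_lit 24630) (nat_lit 9) (.e (nat_lit 336375) (nat_lit 27) .nil))))) .nil))) (.nd (nat_lit 6) 
(.lf (nat_lit 182590) (.g (nat_lit 1217) (.e (nat_lit 57849) (nat_lit 252) (.e (nat_lit 57375) (nat_lit 2) (.e (nat_lit 90128) (nat_lit 9) (.e (nat_lit 297) (nat_lit 22) .nil)))) .nil)) 
(.lf (nat_lit 182654) (.g (nat_lit 2784) (.e (nat_lit 57849) (nat_lit 252) (.e (nat_lit 57375) (nat_lit 2) (.e (nat_lit 90160) (nat_lit 11) (.e (nat_lit 24617) (nat_lit 7) (.e (nat_lit 319521) (nat_lit 13) .nil))))) .nil)))))))) (.nd (nat_lit 1) (.nd (nat_lit 2) (.nd (nat_lit 3) (.nd (nat_lit 4) (.nd (nat_lit 5) (.nd (nat_lit 6) 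
(.lf (nat_lit 182529) (.g (nat_lit 2670) (.e (nat_lit 57849) (nat_lit 252) (.e (nat_lit 57372) (nat_lit 2) (.e (nat_lit 90158) (nat_lit 11) (.e (nat_lit 24651) (nat_lit 12) (.e (nat_lit 392960) (nat_lit 10) (.e (nat_lit 24597) (nat_lit 1) .nil)))))) (.g (nat_lit 4) .nil .nil))) 
(.lf (nat_lit 182593) (.g (nat_lit 664) (.e (nat_lit 57849) (nat_lit 252) (.e (nat_lit 57375) (nat_lit 2) (.e (nat_lit 90130) (nat_lit 9) .nil))) .nil))) (.nd (nat_lit 6) 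
(.lf (nat_lit 182561) (.g (nat_lit 3438) (.e (nat_lit 57849) (nat_lit 252) (.e (nat_lit 57372) (nat_lit 2) (.e (nat_lit 90160) (nat_lit 11) (.e (nat_lit 24655) (nat_lit 13) (.e (nat_lit 393224) (nat_lit 9) (.e (nat_lit 335986) (nat_lit 1) .nil)))))) (.g (nat_lit 4) .nil .nil))) 
(.lf (nat_lit 182625) (.g (nat_lit 2421) (.e (nat_lit 57849) (nat_lit 252) (.e (nat_lit 57375) (nat_lit 2) (.e (nat_lit 90158) (nat_lit 11) (.e (nat_lit 24653) (nat_lit 12) (.e (nat_lit 392960) (nat_lit 10) (.e (nat_lit 24597) (nat_lit 1) .nil)))))) (.g (nat_lit 4) .nil .nil))))) (.nd (nat_lit 5) (.nd (nat_lit 6) 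
(.lf (nat_lit 182545) (.g (nat_lit 2536) (.e (nat_lit 57849) (nat_lit 252) (.e (nat_lit 57372) (nat_lit 2) (.e (nat_lit 90160) (nat_lit 11) (.e (nat_lit 24607) (nat_lit 3) (.e (nat_lit 98342) (nat_lit 20) .nil))))) .nil)) 
(.lf (nat_lit 182609) (.g (nat_lit 2477) (.e (nat_lit 57849) (nat_lit 252) (.e (nat_lit 57375) (nat_lit 2) (.e (nat_lit 90158) (nat_lit 11) (.e (nat_lit 24608) (nat_lit 3) (.e (nat_lit 98342) (nat_lit 20) (.e (nat_lit 221213) (nat_lit 23) (.e (nat_lit 204829) (nat_lit 18) .nil))))))) (.g (nat_lit 4) .nil .nil)))) (.nd (nat_lit 6) 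
(.lf (nat_lit 182577) (.g (nat_lit 2212) (.e (nat_lit 57849) (nat_lit 252) (.e (nat_lit 57373) (nat_lit 2) (.e (nat_lit 90158) (nat_lit 11) (.e (nat_lit 24658) (nat_lit 13) (.e (nat_lit 393229) (nat_lit 9) .nil))))) .nil)) 
(.lf (nat_lit 182641) (.g (nat_lit 2908) (.e (nat_lit 57849) (nat_lit 252) (.e (nat_lit 57375) (nat_lit 2) (.e (nat_lit 90160) (nat_lit 11) (.e (nat_lit 24580) (nat_lit 0) (.e (nat_lit 6508) (nat_lit 345) .nil))))) .nil))))) (.nd (nat_lit 4) (.nd (nat_lit 5) (.nd (nat_lit 6) 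
(.lf (nat_lit 182537) (.g (nat_lit 1481) (.e (nat_lit 57849) (nat_lit 252) (.e (nat_lit 57372) (nat_lit 2) (.e (nat_lit 90158) (nat_lit 11) (.e (nat_lit 24658) (nat_lit 13) (.e (nat_lit 393227) (nat_lit 9) .nil))))) .nil)) 
(.lf (nat_lit 182601) (.g (nat_lit 2563) (.e (nat_lit 57849) (nat_lit 252) (.e (nat_lit 57375) (nat_lit 2) (.e (nat_lit 90158) (nat_lit 11) (.e (nat_lit 24608) (nat_lit 3) (.e (nat_lit 98338) (nat_lit 19) (.e (nat_lit 213013) (nat_lit 9) (.e (nat_lit 2681) (nat_lit 168) (.e (nat_lit 204829) (nat_lit 18) .nil)))))))) (.g (nat_lit 4) .nil .nil)))) (.nd (nat_lit 6) 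
(.lf (nat_lit 182569) (.g (nat_lit 2884) (.e (nat_lit 57849) (nat_lit 252) (.e (nat_lit 57372) (nat_lit 2) (.e (nat_lit 90160) (nat_lit 11) (.e (nat_lit 24657) (nat_lit 13) (.e (nat_lit 393229) (nat_lit 9) (.e (nat_lit 335986) (nat_lit 1) .nil)))))) (.g (nat_lit 4) .nil .nil))) 
(.lf (nat_lit 182633) (.g (nat_lit 2392) (.e (nat_lit 57849) (nat_lit 252) (.e (nat_lit 57375) (nat_lit 2) (.e (nat_lit 90158) (nat_lit 11) (.e (nat_lit 24658) (nat_lit 13) (.e (nat_lit 393229) (nat_lit 9) (.e (nat_lit 343808) (nat_lit 1) .nil)))))) (.g (nat_lit 5) .nil .nil))))) (.nd (nat_lit 5) (.nd (nat_lit 6) 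
(.lf (nat_lit 182553) (.g (nat_lit 2957) (.e (nat_lit 57849) (nat_lit 252) (.e (nat_lit 57372) (nat_lit 2) (.e (nat_lit 90160) (nat_lit 11) (.e (nat_lit 24625) (nat_lit 9) (.e (nat_lit 336370) (nat_lit 27) (.e (nat_lit 426499) (nat_lit 27) (.e (nat_lit 335986) (nat_lit 1) .nil))))))) (.g (nat_lit 4) .nil .nil))) 
(.lf (nat_lit 182617) (.g (nat_lit 2285) (.e (nat_lit 57849) (nat_lit 252) (.e (nat_lit 57375) (nat_lit 2) (.e (nat_lit 90158) (nat_lit 11) (.e (nat_lit 24628) (nat_lit 9) (.e (nat_lit 336374) (nat_lit 27) (.e (nat_lit 426480) (nat_lit 27) (.e (nat_lit 335992) (nat_lit 1) .nil))))))) (.g (nat_lit 4) .nil .nil)))) (.nd (nat_lit 6) 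
(.lf (nat_lit 182585) (.g (nat_lit 664) (.e (nat_lit 57849) (nat_lit 252) (.e (nat_lit 57375) (nat_lit 2) (.e (nat_lit 90122) (nat_lit 9) .nil))) .nil)) 
(.lf (nat_lit 182649) (.g (nat_lit 4667) (.e (nat_lit 57849) (nat_lit 252) (.e (nat_lit 57375) (nat_lit 2) (.e (nat_lit 90160) (nat_lit 11) (.e (nat_lit 24608) (nat_lit 3) (.e (nat_lit 98341) (nat_lit 20) (.e (nat_lit 221214) (nat_lit 23) (.e (nat_lit 204829) (nat_lit 18) .nil))))))) (.g (nat_lit 5) .nil .nil))))))) (.nd (nat_lit 3) (.nd (nat_lit 4) (.nd (nat_lit 5) (.nd (nat_lit 6) 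
(.lf (nat_lit 182533) (.g (nat_lit 1653) (.e (nat_lit 57849) (nat_lit 252) (.e (nat_lit 57372) (nat_lit 2) (.e (nat_lit 90158) (nat_lit 11) (.e (nat_lit 24655) (nat_lit 13) (.e (nat_lit 393227) (nat_lit 9) .nil))))) .nil)) 
(.lf (nat_lit 182597) (.g (nat_lit 1589) (.e (nat_lit 57849) (nat_lit 252) (.e (nat_lit 57375) (nat_lit 2) (.e (nat_lit 90157) (nat_lit 11) (.e (nat_lit 24660) (nat_lit 13) (.e (nat_lit 401152) (nat_lit 9) .nil))))) .nil))) (.nd (nat_lit 6) 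
(.lf (nat_lit 182565) (.g (nat_lit 3612) (.e (nat_lit 57849) (nat_lit 252) (.e (nat_lit 57372) (nat_lit 2) (.e (nat_lit 90160) (nat_lit 11) (.e (nat_lit 24655) (nat_lit 13) (.e (nat_lit 393229) (nat_lit 9) (.e (nat_lit 335994) (nat_lit 1) .nil)))))) (.g (nat_lit 0) .nil .nil))) 
(.lf (nat_lit 182629) (.g (nat_lit 1017) (.e (nat_lit 57849) (nat_lit 252) (.e (nat_lit 57375) (nat_lit 2) (.e (nat_lit 90158) (nat_lit 11) (.e (nat_lit 24656) (nat_lit 13) .nil)))) .nil)))) (.nd (nat_lit 5) (.nd (nat_lit 6) 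
(.lf (nat_lit 182549) (.g (nat_lit 2181) (.e (nat_lit 57849) (nat_lit 252) (.e (nat_lit 57372) (nat_lit 2) (.e (nat_lit 90160) (nat_lit 11) (.e (nat_lit 24608) (nat_lit 3) (.e (nat_lit 98342) (nat_lit 20) .nil))))) .nil)) 
(.lf (nat_lit 182613) (.g (nat_lit 3646) (.e (nat_lit 57849) (nat_lit 252) (.e (nat_lit 57375) (nat_lit 2) (.e (nat_lit 90158) (nat_lit 11) (.e (nat_lit 24625) (nat_lit 9) (.e (nat_lit 336456) (nat_lit 34) (.e (nat_lit 483363) (nat_lit 18) .nil)))))) (.g (nat_lit 0) .nil .nil)))) (.nd (nat_lit 6) 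
(.lf (nat_lit 182581) (.g (nat_lit 2086) (.e (nat_lit 57849) (nat_lit 252) (.e (nat_lit 57373) (nat_lit 2) (.e (nat_lit 90160) (nat_lit 11) (.e (nat_lit 24657) (nat_lit 13) .nil)))) .nil)) 
(.lf (nat_lit 182645) (.g (nat_lit 3112) (.e (nat_lit 57849) (nat_lit 252) (.e (nat_lit 57375) (nat_lit 2) (.e (nat_lit 90160) (nat_lit 11) (.e (nat_lit 24607) (nat_lit 3) (.e (nat_lit 98342) (nat_lit 20) .nil))))) .nil))))) (.nd (nat_lit 4) (.nd (nat_lit 5) (.nd (nat_lit 6) 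
(.lf (nat_lit 182541) (.g (nat_lit 2285) (.e (nat_lit 57849) (nat_lit 252) (.e (nat_lit 57372) (nat_lit 2) (.e (nat_lit 90158) (nat_lit 11) (.e (nat_lit 24660) (nat_lit 13) (.e (nat_lit 393229) (nat_lit 9) (.e (nat_lit 335985) (nat_lit 1) .nil)))))) (.g (nat_lit 5) .nil .nil))) 
(.lf (nat_lit 182605) (.g (nat_lit 2630) (.e (nat_lit 57849) (nat_lit 252) (.e (nat_lit 57375) (nat_lit 2) (.e (nat_lit 90158) (nat_lit 11) (.e (nat_lit 24608) (nat_lit 3) (.e (nat_lit 98340) (nat_lit 20) .nil))))) .nil))) (.nd (nat_lit 6) 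
(.lf (nat_lit 182573) (.g (nat_lit 2547) (.e (nat_lit 57849) (nat_lit 252) (.e (nat_lit 57372) (nat_lit 2) (.e (nat_lit 90160) (nat_lit 11) (.e (nat_lit 24665) (nat_lit 14) (.e (nat_lit 401468) (nat_lit 27) .nil))))) .nil)) 
(.lf (nat_lit 182637) (.g (nat_lit 1591) (.e (nat_lit 57849) (nat_lit 252) (.e (nat_lit 57375) (nat_lit 2) (.e (nat_lit 90159) (nat_lit 11) (.e (nat_lit 24657) (nat_lit 13) (.e (nat_lit 393227) (nat_lit 9) .nil))))) .nil)))) (.nd (nat_lit 5) (.nd (nat_lit 6) 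
(.lf (nat_lit 182557) (.g (nat_lit 3533) (.e (nat_lit 57849) (nat_lit 252) (.e (nat_lit 57372) (nat_lit 2) (.e (nat_lit 90160) (nat_lit 11) (.e (nat_lit 24648) (nat_lit 12) (.e (nat_lit 392960) (nat_lit 10) (.e (nat_lit 24597) (nat_lit 1) .nil)))))) (.g (nat_lit 4) .nil .nil))) 
(.lf (nat_lit 182621) (.g (nat_lit 2282) (.e (nat_lit 57849) (nat_lit 252) (.e (nat_lit 57375) (nat_lit 2) (.e (nat_lit 90158) (nat_lit 11) (.e (nat_lit 24630) (nat_lit 9) (.e (nat_lit 336369) (nat_lit 27) (.e (nat_lit 426501) (nat_lit 27) (.e (nat_lit 335993) (nat_lit 1) .nil))))))) (.g (nat_lit 4) .nil .nil)))) (.nd (nat_lit 6) 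
(.lf (nat_lit 182589) (.g (nat_lit 491) (.e (nat_lit 57849) (nat_lit 252) (.e (nat_lit 57375) (nat_lit 2) (.e (nat_lit 90128) (nat_lit 9) .nil))) .nil)) 
(.lf (nat_lit 182653) (.g (nat_lit 1754) (.e (nat_lit 57849) (nat_lit 252) (.e (nat_lit 57375) (nat_lit 2) (.e (nat_lit 90160) (nat_lit 11) (.e (nat_lit 24617) (nat_lit 7) .nil)))) .nil))))))) (.nd (nat_lit 2) (.nd (nat_lit 3) (.nd (nat_lit 4) (.nd (nat_lit 5) (.nd (nat_lit 6) 
(.lf (nat_lit 182531) (.g (nat_lit 2570) (.e (nat_lit 57849) (nat_lit 252) (.e (nat_lit 57372) (nat_lit 2) (.e (nat_lit 90158) (nat_lit 11) (.e (nat_lit 24653) (nat_lit 12) (.e (nat_lit 392960) (nat_lit 10) (.e (nat_lit 24597) (nat_lit 1) .nil)))))) (.g (nat_lit 4) .nil .nil))) 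
(.lf (nat_lit 182595) (.g (nat_lit 365) (.e (nat_lit 57849) (nat_lit 252) (.e (nat_lit 57375) (nat_lit 2) (.e (nat_lit 90157) (nat_lit 11) .nil))) .nil))) (.nd (nat_lit 6) 
(.lf (nat_lit 182563) (.g (nat_lit 2948) (.e (nat_lit 57849) (nat_lit 252) (.e (nat_lit 57372) (nat_lit 2) (.e (nat_lit 90160) (nat_lit 11) (.e (nat_lit 24655) (nat_lit 13) (.e (nat_lit 393229) (nat_lit 9) (.e (nat_lit 335985) (nat_lit 1) .nil)))))) (.g (nat_lit 4) .nil .nil))) 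
(.lf (nat_lit 182627) (.g (nat_lit 2491) (.e (nat_lit 57849) (nat_lit 252) (.e (nat_lit 57375) (nat_lit 2) (.e (nat_lit 90158) (nat_lit 11) (.e (nat_lit 24655) (nat_lit 13) (.e (nat_lit 393228) (nat_lit 9) .nil))))) .nil)))) (.nd (nat_lit 5) (.nd (nat_lit 6) 
(.lf (nat_lit 182547) (.g (nat_lit 3587) (.e (nat_lit 57849) (nat_lit 252) (.e (nat_lit 57372) (nat_lit 2) (.e (nat_lit 90160) (nat_lit 11) (.e (nat_lit 24607) (nat_lit 3) (.e (nat_lit 98342) (nat_lit 20) (.e (nat_lit 221215) (nat_lit 23) (.e (nat_lit 204828) (nat_lit 18) .nil))))))) (.g (nat_lit 4) .nil .nil))) 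
(.lf (nat_lit 182611) (.g (nat_lit 4373) (.e (nat_lit 57849) (nat_lit 252) (.e (nat_lit 57375) (nat_lit 2) (.e (nat_lit 90158) (nat_lit 11) (.e (nat_lit 24608) (nat_lit 3) (.e (nat_lit 98342) (nat_lit 20) (.e (nat_lit 221215) (nat_lit 23) (.e (nat_lit 204828) (nat_lit 18) .nil))))))) (.g (nat_lit 6) .nil .nil)))) (.nd (nat_lit 6) 
(.lf (nat_lit 182579) (.g (nat_lit 732) (.e (nat_lit 57849) (nat_lit 252) (.e (nat_lit 57373) (nat_lit 2) (.e (nat_lit 90160) (nat_lit 11) .nil))) .nil)) 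
(.lf (nat_lit 182643) (.g (nat_lit 1952) (.e (nat_lit 57849) (nat_lit 252) (.e (nat_lit 57375) (nat_lit 2) (.e (nat_lit 90160) (nat_lit 11) (.e (nat_lit 24606) (nat_lit 3) .nil)))) .nil))))) (.nd (nat_lit 4) (.nd (nat_lit 5) (.nd (nat_lit 6) 
(.lf (nat_lit 182539) (.g (nat_lit 2193) (.e (nat_lit 57849) (nat_lit 252) (.e (nat_lit 57372) (nat_lit 2) (.e (nat_lit 90158) (nat_lit 11) (.e (nat_lit 24658) (nat_lit 13) (.e (nat_lit 393229) (nat_lit 9) (.e (nat_lit 343808) (nat_lit 1) .nil)))))) (.g (nat_lit 4) .nil .nil))) 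
(.lf (nat_lit 182603) (.g (nat_lit 3157) (.e (nat_lit 57849) (nat_lit 252) (.e (nat_lit 57375) (nat_lit 2) (.e (nat_lit 90158) (nat_lit 11) (.e (nat_lit 24608) (nat_lit 3) (.e (nat_lit 98338) (nat_lit 19) (.e (nat_lit 213013) (nat_lit 9) (.e (nat_lit 2684) (nat_lit 168) (.e (nat_lit 204829) (nat_lit 18) .nil)))))))) (.g (nat_lit 4) .nil .nil)))) (.nd (nat_lit 6) 
(.lf (nat_lit 182571) (.g (nat_lit 2545) (.e (nat_lit 57849) (nat_lit 252) (.e (nat_lit 57372) (nat_lit 2) (.e (nat_lit 90160) (nat_lit 11) (.e (nat_lit 24658) (nat_lit 13) (.e (nat_lit 401152) (nat_lit 9) (.e (nat_lit 336000) (nat_lit 1) .nil)))))) (.g (nat_lit 4) .nil .nil))) 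
(.lf (nat_lit 182635) (.g (nat_lit 2593) (.e (nat_lit 57849) (nat_lit 252) (.e (nat_lit 57375) (nat_lit 2) (.e (nat_lit 90158) (nat_lit 11) (.e (nat_lit 24660) (nat_lit 13) (.e (nat_lit 393229) (nat_lit 9) (.e (nat_lit 335993) (nat_lit 1) .nil)))))) (.g (nat_lit 5) .nil .nil))))) (.nd (nat_lit 5) (.nd (nat_lit 6) 
(.lf (nat_lit 182555) (.g (nat_lit 3958) (.e (nat_lit 57849) (nat_lit 252) (.e (nat_lit 57372) (nat_lit 2) (.e (nat_lit 90160) (nat_lit 11) (.e (nat_lit 24628) (nat_lit 9) (.e (nat_lit 336454) (nat_lit 34) (.e (nat_lit 483365) (nat_lit 18) .nil)))))) (.g (nat_lit 0) .nil .nil))) 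
(.lf (nat_lit 182619) (.g (nat_lit 2136) (.e (nat_lit 57849) (nat_lit 252) (.e (nat_lit 57375) (nat_lit 2) (.e (nat_lit 90158) (nat_lit 11) (.e (nat_lit 24628) (nat_lit 9) (.e (nat_lit 336452) (nat_lit 34) (.e (nat_lit 483363) (nat_lit 18) .nil)))))) (.g (nat_lit 4) .nil .nil)))) (.nd (nat_lit 6) 
(.lf (nat_lit 182587) (.g (nat_lit 745) (.e (nat_lit 57849) (nat_lit 252) (.e (nat_lit 57375) (nat_lit 2) (.e (nat_lit 90125) (nat_lit 9) (.e (nat_lit 333) (nat_lit 26) .nil)))) .nil)) 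
(.lf (nat_lit 182651) (.g (nat_lit 5222) (.e (nat_lit 57849) (nat_lit 252) (.e (nat_lit 57375) (nat_lit 2) (.e (nat_lit 90160) (nat_lit 11) (.e (nat_lit 24608) (nat_lit 3) (.e (nat_lit 98342) (nat_lit 20) (.e (nat_lit 221215) (nat_lit 23) (.e (nat_lit 204828) (nat_lit 18) .nil))))))) (.g (nat_lit 5) .nil .nil))))))) (.nd (nat_lit 3) (.nd (nat_lit 4) (.nd (nat_lit 5) (.nd (nat_lit 6) 
(.lf (nat_lit 182535) (.g (nat_lit 1083) (.e (nat_lit 57849) (nat_lit 252) (.e (nat_lit 57372) (nat_lit 2) (.e (nat_lit 90158) (nat_lit 11) (.e (nat_lit 24656) (nat_lit 13) .nil)))) .nil)) 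
(.lf (nat_lit 182599) (.g (nat_lit 2201) (.e (nat_lit 57849) (nat_lit 252) (.e (nat_lit 57375) (nat_lit 2) (.e (nat_lit 90158) (nat_lit 11) (.e (nat_lit 24608) (nat_lit 3) (.e (nat_lit 98337) (nat_lit 19) .nil))))) .nil))) (.nd (nat_lit 6) 
(.lf (nat_lit 182567) (.g (nat_lit 2564) (.e (nat_lit 57849) (nat_lit 252) (.e (nat_lit 57372) (nat_lit 2) (.e (nat_lit 90160) (nat_lit 11) (.e (nat_lit 24655) (nat_lit 13) (.e (nat_lit 393229) (nat_lit 9) (.e (nat_lit 343808) (nat_lit 1) .nil)))))) (.g (nat_lit 4) .nil .nil))) 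
(.lf (nat_lit 182631) (.g (nat_lit 1453) (.e (nat_lit 57849) (nat_lit 252) (.e (nat_lit 57375) (nat_lit 2) (.e (nat_lit 90158) (nat_lit 11) (.e (nat_lit 24658) (nat_lit 13) (.e (nat_lit 393227) (nat_lit 9) .nil))))) .nil)))) (.nd (nat_lit 5) (.nd (nat_lit 6) 
(.lf (nat_lit 182551) (.g (nat_lit 3617) (.e (nat_lit 57849) (nat_lit 252) (.e (nat_lit 57372) (nat_lit 2) (.e (nat_lit 90160) (nat_lit 11) (.e (nat_lit 24608) (nat_lit 3) (.e (nat_lit 98342) (nat_lit 20) (.e (nat_lit 221212) (nat_lit 22) (.e (nat_lit 196626) (nat_lit 9) (.e (nat_lit 1183) (nat_lit 87) .nil)))))))) (.g (nat_lit 4) .nil .nil))) 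
(.lf (nat_lit 182615) (.g (nat_lit 2023) (.e (nat_lit 57849) (nat_lit 252) (.e (nat_lit 57375) (nat_lit 2) (.e (nat_lit 90158) (nat_lit 11) (.e (nat_lit 24628) (nat_lit 9) (.e (nat_lit 336372) (nat_lit 27) .nil))))) .nil))) (.nd (nat_lit 6) 
(.lf (nat_lit 182583) (.g (nat_lit 4961) (.e (nat_lit 57849) (nat_lit 252) (.e (nat_lit 57374) (nat_lit 2) (.e (nat_lit 90134) (nat_lit 9) (.e (nat_lit 290) (nat_lit 21) (.e (nat_lit 336078) (nat_lit 9) (.e (nat_lit 336454) (nat_lit 34) (.e (nat_lit 483365) (nat_lit 18) .nil))))))) (.g (nat_lit 0) .nil .nil))) 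
(.lf (nat_lit 182647) (.g (nat_lit 2623) (.e (nat_lit 57849) (nat_lit 252) (.e (nat_lit 57375) (nat_lit 2) (.e (nat_lit 90160) (nat_lit 11) (.e (nat_lit 24608) (nat_lit 3) (.e (nat_lit 98341) (nat_lit 20) .nil))))) .nil))))) (.nd (nat_lit 4) (.nd (nat_lit 5) (.nd (nat_lit 6) 
(.lf (nat_lit 182543) (.g (nat_lit 1753) (.e (nat_lit 57849) (nat_lit 252) (.e (nat_lit 57372) (nat_lit 2) (.e (nat_lit 90158) (nat_lit 11) (.e (nat_lit 24660) (nat_lit 13) (.e (nat_lit 401152) (nat_lit 9) (.e (nat_lit 336000) (nat_lit 1) .nil)))))) (.g (nat_lit 4) .nil .nil))) 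
(.lf (nat_lit 182607) (.g (nat_lit 2392) (.e (nat_lit 57849) (nat_lit 252) (.e (nat_lit 57375) (nat_lit 2) (.e (nat_lit 90158) (nat_lit 11) (.e (nat_lit 24608) (nat_lit 3) (.e (nat_lit 98342) (nat_lit 20) (.e (nat_lit 221212) (nat_lit 22) (.e (nat_lit 196624) (nat_lit 9) (.e (nat_lit 1186) (nat_lit 87) .nil)))))))) (.g (nat_lit 4) .nil .nil)))) (.nd (nat_lit 6) 
(.lf (nat_lit 182575) (.g (nat_lit 730) (.e (nat_lit 57849) (nat_lit 252) (.e (nat_lit 57373) (nat_lit 2) (.e (nat_lit 90157) (nat_lit 11) .nil))) .nil)) 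
(.lf (nat_lit 182639) (.g (nat_lit 425) (.e (nat_lit 57849) (nat_lit 252) (.e (nat_lit 57375) (nat_lit 2) (.e (nat_lit 90160) (nat_lit 11) .nil))) .nil)))) (.nd (nat_lit 5) (.nd (nat_lit 6) 
(.lf (nat_lit 182559) (.g (nat_lit 3851) (.e (nat_lit 57849) (nat_lit 252) (.e (nat_lit 57372) (nat_lit 2) (.e (nat_lit 90160) (nat_lit 11) (.e (nat_lit 24651) (nat_lit 12) (.e (nat_lit 392960) (nat_lit 10) (.e (nat_lit 24597) (nat_lit 1) .nil)))))) (.g (nat_lit 4) .nil .nil))) 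
(.lf (nat_lit 182623) (.g (nat_lit 2521) (.e (nat_lit 57849) (nat_lit 252) (.e (nat_lit 57375) (nat_lit 2) (.e (nat_lit 90158) (nat_lit 11) (.e (nat_lit 24651) (nat_lit 12) (.e (nat_lit 392960) (nat_lit 10) (.e (nat_lit 24597) (nat_lit 1) .nil)))))) (.g (nat_lit 4) .nil .nil)))) (.nd (nat_lit 6) 
(.lf (nat_lit 182591) (.g (nat_lit 1601) (.e (nat_lit 57849) (nat_lit 252) (.e (nat_lit 57375) (nat_lit 2) (.e (nat_lit 90128) (nat_lit 9) (.e (nat_lit 297) (nat_lit 22) (.e (nat_lit 344119) (nat_lit 21) .nil))))) .nil)) 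
(.lf (nat_lit 182655) (.g (nat_lit 1648) (.e (nat_lit 57849) (nat_lit 252) (.e (nat_lit 57375) (nat_lit 2) (.e (nat_lit 90160) (nat_lit 11) (.e (nat_lit 24624) (nat_lit 9) .nil)))) .nil)))))))))

noncomputable def tv2438 : DT := (.nd (nat_lit 0) (.nd (nat_lit 1) (.nd (nat_lit 2) (.nd (nat_lit 3) (.nd (nat_lit 4) (.nd (nat_lit 5) (.nd (nat_lit 6) 
(.lf (nat_lit 182656) (.g (nat_lit 1984) (.e (nat_lit 57849) (nat_lit 252) (.e (nat_lit 57375) (nat_lit 2) (.e (nat_lit 90160) (nat_lit 11) (.e (nat_lit 24624) (nat_lit 9) (.e (nat_lit 336372) (nat_lit 27) .nil))))) .nil)) 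
(.lf (nat_lit 182720) (.g (nat_lit 4113) (.e (nat_lit 57849) (nat_lit 252) (.e (nat_lit 57377) (nat_lit 3) (.e (nat_lit 98317) (nat_lit 9) (.e (nat_lit 335934) (nat_lit 0) .nil)))) .nil))) (.nd (nat_lit 6) 
(.lf (nat_lit 182688) (.g (nat_lit 5793) (.e (nat_lit 57849) (nat_lit 252) (.e (nat_lit 57375) (nat_lit 2) (.e (nat_lit 90160) (nat_lit 11) (.e (nat_lit 24665) (nat_lit 14) (.e (nat_lit 401414) (nat_lit 0) (.e (nat_lit 3579) (nat_lit 223) (.e (nat_lit 745491) (nat_lit 4) (.e (nat_lit 65565) (nat_lit 1) .nil)))))))) (.g (nat_lit 5) .nil .nil))) 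
(.lf (nat_lit 182752) (.g (nat_lit 1777) (.e (nat_lit 57849) (nat_lit 252) (.e (nat_lit 57377) (nat_lit 3) (.e (nat_lit 98317) (nat_lit 9) (.e (nat_lit 336088) (nat_lit 9) (.e (nat_lit 336366) (nat_lit 27) .nil))))) .nil)))) (.nd (nat_lit 5) (.nd (nat_lit 6) 
(.lf (nat_lit 182672) (.g (nat_lit 1678) (.e (nat_lit 57849) (nat_lit 252) (.e (nat_lit 57375) (nat_lit 2) (.e (nat_lit 90160) (nat_lit 11) (.e (nat_lit 24654) (nat_lit 13) .nil)))) .nil)) 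
(.lf (nat_lit 182736) (.g (nat_lit 4098) (.e (nat_lit 57849) (nat_lit 252) (.e (nat_lit 57377) (nat_lit 3) (.e (nat_lit 98317) (nat_lit 9) (.e (nat_lit 336027) (nat_lit 3) (.e (nat_lit 98342) (nat_lit 20) (.e (nat_lit 221214) (nat_lit 23) (.e (nat_lit 204828) (nat_lit 18) .nil))))))) (.g (nat_lit 4) .nil .nil)))) (.nd (nat_lit 6) 
(.lf (nat_lit 182704) (.g (nat_lit 4114) (.e (nat_lit 57849) (nat_lit 252) (.e (nat_lit 57377) (nat_lit 3) (.e (nat_lit 98317) (nat_lit 9) (.e (nat_lit 335886) (nat_lit 0) .nil)))) .nil)) 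
(.lf (nat_lit 182768) (.g (nat_lit 4113) (.e (nat_lit 57849) (nat_lit 252) (.e (nat_lit 57377) (nat_lit 3) (.e (nat_lit 98317) (nat_lit 9) (.e (nat_lit 336202) (nat_lit 12) .nil)))) .nil))))) (.nd (nat_lit 4) (.nd (nat_lit 5) (.nd (nat_lit 6) 
(.lf (nat_lit 182664) (.g (nat_lit 2478) (.e (nat_lit 57849) (nat_lit 252) (.e (nat_lit 57375) (nat_lit 2) (.e (nat_lit 90160) (nat_lit 11) (.e (nat_lit 24630) (nat_lit 9) (.e (nat_lit 336369) (nat_lit 27) .nil))))) .nil)) 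
(.lf (nat_lit 182728) (.g (nat_lit 3932) (.e (nat_lit 57849) (nat_lit 252) (.e (nat_lit 57377) (nat_lit 3) (.e (nat_lit 98317) (nat_lit 9) (.e (nat_lit 336025) (nat_lit 3) .nil)))) .nil))) (.nd (nat_lit 6) 
(.lf (nat_lit 182696) (.g (nat_lit 2302) (.e (nat_lit 57849) (nat_lit 252) (.e (nat_lit 57377) (nat_lit 3) (.e (nat_lit 98313) (nat_lit 9) (.e (nat_lit 336223) (nat_lit 13) (.e (nat_lit 393229) (nat_lit 9) (.e (nat_lit 335985) (nat_lit 1) .nil)))))) (.g (nat_lit 4) .nil .nil))) 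
(.lf (nat_lit 182760) (.g (nat_lit 4268) (.e (nat_lit 57849) (nat_lit 252) (.e (nat_lit 57377) (nat_lit 3) (.e (nat_lit 98317) (nat_lit 9) (.e (nat_lit 336100) (nat_lit 9) (.e (nat_lit 336412) (nat_lit 27) .nil))))) .nil)))) (.nd (nat_lit 5) (.nd (nat_lit 6) 
(.lf (nat_lit 182680) (.g (nat_lit 2673) (.e (nat_lit 57849) (nat_lit 252) (.e (nat_lit 57375) (nat_lit 2) (.e (nat_lit 90160) (nat_lit 11) (.e (nat_lit 24658) (nat_lit 13) (.e (nat_lit 393224) (nat_lit 9) .nil))))) .nil)) 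
(.lf (nat_lit 182744) (.g (nat_lit 2256) (.e (nat_lit 57849) (nat_lit 252) (.e (nat_lit 57377) (nat_lit 3) (.e (nat_lit 98317) (nat_lit 9) (.e (nat_lit 336076) (nat_lit 9) (.e (nat_lit 336377) (nat_lit 27) .nil))))) .nil))) (.nd (nat_lit 6) 
(.lf (nat_lit 182712) (.g (nat_lit 4113) (.e (nat_lit 57849) (nat_lit 252) (.e (nat_lit 57377) (nat_lit 3) (.e (nat_lit 98317) (nat_lit 9) (.e (nat_lit 335911) (nat_lit 0) .nil)))) .nil)) 
(.lf (nat_lit 182776) (.g (nat_lit 3127) (.e (nat_lit 57849) (nat_lit 252) (.e (nat_lit 57377) (nat_lit 3) (.e (nat_lit 98317) (nat_lit 9) (.e (nat_lit 336213) (nat_lit 13) (.e (nat_lit 393228) (nat_lit 9) .nil))))) .nil)))))) (.nd (nat_lit 3) (.nd (nat_lit 4) (.nd (nat_lit 5) (.nd (nat_lit 6) 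
(.lf (nat_lit 182660) (.g (nat_lit 3458) (.e (nat_lit 57849) (nat_lit 252) (.e (nat_lit 57375) (nat_lit 2) (.e (nat_lit 90160) (nat_lit 11) (.e (nat_lit 24628) (nat_lit 9) (.e (nat_lit 336370) (nat_lit 27) (.e (nat_lit 426499) (nat_lit 27) (.e (nat_lit 335986) (nat_lit 1) .nil))))))) (.g (nat_lit 4) .nil .nil))) 
(.lf (nat_lit 182724) (.g (nat_lit 4008) (.e (nat_lit 57849) (nat_lit 252) (.e (nat_lit 57377) (nat_lit 3) (.e (nat_lit 98317) (nat_lit 9) (.e (nat_lit 336020) (nat_lit 3) .nil)))) .nil))) (.nd (nat_lit 6) 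
(.lf (nat_lit 182692) (.g (nat_lit 4298) (.e (nat_lit 57849) (nat_lit 252) (.e (nat_lit 57377) (nat_lit 3) (.e (nat_lit 98313) (nat_lit 9) (.e (nat_lit 336027) (nat_lit 3) (.e (nat_lit 98341) (nat_lit 20) (.e (nat_lit 221215) (nat_lit 23) (.e (nat_lit 204828) (nat_lit 18) .nil))))))) (.g (nat_lit 6) .nil .nil))) 
(.lf (nat_lit 182756) (.g (nat_lit 1840) (.e (nat_lit 57849) (nat_lit 252) (.e (nat_lit 57377) (nat_lit 3) (.e (nat_lit 98317) (nat_lit 9) (.e (nat_lit 336088) (nat_lit 9) (.e (nat_lit 336375) (nat_lit 27) .nil))))) .nil)))) (.nd (nat_lit 5) (.nd (nat_lit 6) 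
(.lf (nat_lit 182676) (.g (nat_lit 3600) (.e (nat_lit 57849) (nat_lit 252) (.e (nat_lit 57375) (nat_lit 2) (.e (nat_lit 90160) (nat_lit 11) (.e (nat_lit 24657) (nat_lit 13) (.e (nat_lit 393226) (nat_lit 9) .nil))))) .nil)) 
(.lf (nat_lit 182740) (.g (nat_lit 3364) (.e (nat_lit 57849) (nat_lit 252) (.e (nat_lit 57377) (nat_lit 3) (.e (nat_lit 98317) (nat_lit 9) (.e (nat_lit 336073) (nat_lit 9) .nil)))) .nil))) (.nd (nat_lit 6) 
(.lf (nat_lit 182708) (.g (nat_lit 4107) (.e (nat_lit 57849) (nat_lit 252) (.e (nat_lit 57377) (nat_lit 3) (.e (nat_lit 98317) (nat_lit 9) (.e (nat_lit 335895) (nat_lit 0) .nil)))) .nil)) 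
(.lf (nat_lit 182772) (.g (nat_lit 3196) (.e (nat_lit 57849) (nat_lit 252) (.e (nat_lit 57377) (nat_lit 3) (.e (nat_lit 98317) (nat_lit 9) (.e (nat_lit 336212) (nat_lit 13) .nil)))) .nil))))) (.nd (nat_lit 4) (.nd (nat_lit 5) (.nd (nat_lit 6) 
(.lf (nat_lit 182668) (.g (nat_lit 2192) (.e (nat_lit 57849) (nat_lit 252) (.e (nat_lit 57375) (nat_lit 2) (.e (nat_lit 90160) (nat_lit 11) (.e (nat_lit 24638) (nat_lit 9) (.e (nat_lit 336387) (nat_lit 27) .nil))))) .nil)) 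
(.lf (nat_lit 182732) (.g (nat_lit 2823) (.e (nat_lit 57849) (nat_lit 252) (.e (nat_lit 57377) (nat_lit 3) (.e (nat_lit 98317) (nat_lit 9) (.e (nat_lit 336027) (nat_lit 3) (.e (nat_lit 98341) (nat_lit 20) .nil))))) .nil))) (.nd (nat_lit 6) 
(.lf (nat_lit 182700) (.g (nat_lit 1436) (.e (nat_lit 57849) (nat_lit 252) (.e (nat_lit 57377) (nat_lit 3) (.e (nat_lit 98315) (nat_lit 9) (.e (nat_lit 336151) (nat_lit 9) (.e (nat_lit 343808) (nat_lit 34) (.e (nat_lit 483365) (nat_lit 18) .nil)))))) (.g (nat_lit 4) .nil .nil))) 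
(.lf (nat_lit 182764) (.g (nat_lit 4338) (.e (nat_lit 57849) (nat_lit 252) (.e (nat_lit 57377) (nat_lit 3) (.e (nat_lit 98317) (nat_lit 9) (.e (nat_lit 336194) (nat_lit 12) (.e (nat_lit 392960) (nat_lit 10) .nil))))) .nil)))) (.nd (nat_lit 5) (.nd (nat_lit 6) 
(.lf (nat_lit 182684) (.g (nat_lit 1646) (.e (nat_lit 57849) (nat_lit 252) (.e (nat_lit 57375) (nat_lit 2) (.e (nat_lit 90160) (nat_lit 11) (.e (nat_lit 24660) (nat_lit 13) .nil)))) .nil)) 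
(.lf (nat_lit 182748) (.g (nat_lit 1210) (.e (nat_lit 57849) (nat_lit 252) (.e (nat_lit 57377) (nat_lit 3) (.e (nat_lit 98317) (nat_lit 9) (.e (nat_lit 336086) (nat_lit 9) .nil)))) .nil))) (.nd (nat_lit 6) 
(.lf (nat_lit 182716) (.g (nat_lit 4114) (.e (nat_lit 57849) (nat_lit 252) (.e (nat_lit 57377) (nat_lit 3) (.e (nat_lit 98317) (nat_lit 9) (.e (nat_lit 335917) (nat_lit 0) .nil)))) .nil)) 
(.lf (nat_lit 182780) (.g (nat_lit 1629) (.e (nat_lit 57849) (nat_lit 252) (.e (nat_lit 57377) (nat_lit 3) (.e (nat_lit 98317) (nat_lit 9) (.e (nat_lit 336214) (nat_lit 13) (.e (nat_lit 393229) (nat_lit 9) .nil))))) .nil))))))) (.nd (nat_lit 2) (.nd (nat_lit 3) (.nd (nat_lit 4) (.nd (nat_lit 5) (.nd (nat_lit 6) 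
(.lf (nat_lit 182658) (.g (nat_lit 1466) (.e (nat_lit 57849) (nat_lit 252) (.e (nat_lit 57375) (nat_lit 2) (.e (nat_lit 90160) (nat_lit 11) (.e (nat_lit 24628) (nat_lit 9) .nil)))) .nil)) 
(.lf (nat_lit 182722) (.g (nat_lit 3801) (.e (nat_lit 57849) (nat_lit 252) (.e (nat_lit 57377) (nat_lit 3) (.e (nat_lit 98317) (nat_lit 9) (.e (nat_lit 336011) (nat_lit 2) .nil)))) .nil))) (.nd (nat_lit 6) 
(.lf (nat_lit 182690) (.g (nat_lit 291) (.e (nat_lit 57849) (nat_lit 252) (.e (nat_lit 57377) (nat_lit 3) (.e (nat_lit 98313) (nat_lit 9) .nil))) .nil)) 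
(.lf (nat_lit 182754) (.g (nat_lit 4403) (.e (nat_lit 57849) (nat_lit 252) (.e (nat_lit 57377) (nat_lit 3) (.e (nat_lit 98317) (nat_lit 9) (.e (nat_lit 336088) (nat_lit 9) (.e (nat_lit 336370) (nat_lit 27) (.e (nat_lit 426499) (nat_lit 27) (.e (nat_lit 335986) (nat_lit 1) .nil))))))) (.g (nat_lit 7) .nil .nil))))) (.nd (nat_lit 5) (.nd (nat_lit 6) 
(.lf (nat_lit 182674) (.g (nat_lit 1908) (.e (nat_lit 57849) (nat_lit 252) (.e (nat_lit 57375) (nat_lit 2) (.e (nat_lit 90160) (nat_lit 11) (.e (nat_lit 24656) (nat_lit 13) .nil)))) .nil)) 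
(.lf (nat_lit 182738) (.g (nat_lit 4115) (.e (nat_lit 57849) (nat_lit 252) (.e (nat_lit 57377) (nat_lit 3) (.e (nat_lit 98317) (nat_lit 9) (.e (nat_lit 336067) (nat_lit 8) .nil)))) .nil))) (.nd (nat_lit 6) 
(.lf (nat_lit 182706) (.g (nat_lit 4114) (.e (nat_lit 57849) (nat_lit 252) (.e (nat_lit 57377) (nat_lit 3) (.e (nat_lit 98317) (nat_lit 9) (.e (nat_lit 335893) (nat_lit 0) .nil)))) .nil)) 
(.lf (nat_lit 182770) (.g (nat_lit 3945) (.e (nat_lit 57849) (nat_lit 252) (.e (nat_lit 57377) (nat_lit 3) (.e (nat_lit 98317) (nat_lit 9) (.e (nat_lit 336203) (nat_lit 12) .nil)))) .nil))))) (.nd (nat_lit 4) (.nd (nat_lit 5) (.nd (nat_lit 6) 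
(.lf (nat_lit 182666) (.g (nat_lit 2330) (.e (nat_lit 57849) (nat_lit 252) (.e (nat_lit 57375) (nat_lit 2) (.e (nat_lit 90160) (nat_lit 11) (.e (nat_lit 24631) (nat_lit 9) .nil)))) .nil)) 
(.lf (nat_lit 182730) (.g (nat_lit 4916) (.e (nat_lit 57849) (nat_lit 252) (.e (nat_lit 57377) (nat_lit 3) (.e (nat_lit 98317) (nat_lit 9) (.e (nat_lit 336026) (nat_lit 3) (.e (nat_lit 98342) (nat_lit 20) (.e (nat_lit 221215) (nat_lit 23) (.e (nat_lit 204828) (nat_lit 18) .nil))))))) (.g (nat_lit 4) .nil .nil)))) (.nd (nat_lit 6) 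
(.lf (nat_lit 182698) (.g (nat_lit 2027) (.e (nat_lit 57849) (nat_lit 252) (.e (nat_lit 57377) (nat_lit 3) (.e (nat_lit 98313) (nat_lit 9) (.e (nat_lit 336223) (nat_lit 13) (.e (nat_lit 401152) (nat_lit 9) (.e (nat_lit 336000) (nat_lit 1) .nil)))))) (.g (nat_lit 4) .nil .nil))) 
(.lf (nat_lit 182762) (.g (nat_lit 2646) (.e (nat_lit 57849) (nat_lit 252) (.e (nat_lit 57377) (nat_lit 3) (.e (nat_lit 98317) (nat_lit 9) (.e (nat_lit 343808) (nat_lit 9) .nil)))) .nil)))) (.nd (nat_lit 5) (.nd (nat_lit 6) 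
(.lf (nat_lit 182682) (.g (nat_lit 2044) (.e (nat_lit 57849) (nat_lit 252) (.e (nat_lit 57375) (nat_lit 2) (.e (nat_lit 90160) (nat_lit 11) (.e (nat_lit 24658) (nat_lit 13) (.e (nat_lit 393229) (nat_lit 9) .nil))))) .nil)) 
(.lf (nat_lit 182746) (.g (nat_lit 2927) (.e (nat_lit 57849) (nat_lit 252) (.e (nat_lit 57377) (nat_lit 3) (.e (nat_lit 98317) (nat_lit 9) (.e (nat_lit 336084) (nat_lit 9) .nil)))) .nil))) (.nd (nat_lit 6) 
(.lf (nat_lit 182714) (.g (nat_lit 4114) (.e (nat_lit 57849) (nat_lit 252) (.e (nat_lit 57377) (nat_lit 3) (.e (nat_lit 98317) (nat_lit 9) (.e (nat_lit 335913) (nat_lit 0) .nil)))) .nil)) 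
(.lf (nat_lit 182778) (.g (nat_lit 2826) (.e (nat_lit 57849) (nat_lit 252) (.e (nat_lit 57377) (nat_lit 3) (.e (nat_lit 98317) (nat_lit 9) (.e (nat_lit 336213) (nat_lit 13) (.e (nat_lit 393229) (nat_lit 9) (.e (nat_lit 343808) (nat_lit 1) .nil)))))) (.g (nat_lit 5) .nil .nil))))))) (.nd (nat_lit 3) (.nd (nat_lit 4) (.nd (nat_lit 5) (.nd (nat_lit 6) 
(.lf (nat_lit 182662) (.g (nat_lit 2391) (.e (nat_lit 57849) (nat_lit 252) (.e (nat_lit 57375) (nat_lit 2) (.e (nat_lit 90160) (nat_lit 11) (.e (nat_lit 24629) (nat_lit 9) (.e (nat_lit 336454) (nat_lit 34) .nil))))) .nil)) 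
(.lf (nat_lit 182726) (.g (nat_lit 5535) (.e (nat_lit 57849) (nat_lit 252) (.e (nat_lit 57377) (nat_lit 3) (.e (nat_lit 98317) (nat_lit 9) (.e (nat_lit 336021) (nat_lit 3) (.e (nat_lit 98341) (nat_lit 20) .nil))))) .nil))) (.nd (nat_lit 6) 
(.lf (nat_lit 182694) (.g (nat_lit 2904) (.e (nat_lit 57849) (nat_lit 252) (.e (nat_lit 57377) (nat_lit 3) (.e (nat_lit 98313) (nat_lit 9) (.e (nat_lit 336223) (nat_lit 13) (.e (nat_lit 393219) (nat_lit 0) (.e (nat_lit 7936) (nat_lit 343) (.e (nat_lit 1176) (nat_lit 87) .nil))))))) (.g (nat_lit 4) .nil .nil))) 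
(.lf (nat_lit 182758) (.g (nat_lit 3975) (.e (nat_lit 57849) (nat_lit 252) (.e (nat_lit 57377) (nat_lit 3) (.e (nat_lit 98317) (nat_lit 9) (.e (nat_lit 336091) (nat_lit 9) .nil)))) .nil)))) (.nd (nat_lit 5) (.nd (nat_lit 6) 
(.lf (nat_lit 182678) (.g (nat_lit 1979) (.e (nat_lit 57849) (nat_lit 252) (.e (nat_lit 57375) (nat_lit 2) (.e (nat_lit 90160) (nat_lit 11) (.e (nat_lit 24657) (nat_lit 13) (.e (nat_lit 401152) (nat_lit 9) .nil))))) .nil)) 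
(.lf (nat_lit 182742) (.g (nat_lit 2678) (.e (nat_lit 57849) (nat_lit 252) (.e (nat_lit 57377) (nat_lit 3) (.e (nat_lit 98317) (nat_lit 9) (.e (nat_lit 336075) (nat_lit 9) .nil)))) .nil))) (.nd (nat_lit 6) 
(.lf (nat_lit 182710) (.g (nat_lit 4075) (.e (nat_lit 57849) (nat_lit 252) (.e (nat_lit 57377) (nat_lit 3) (.e (nat_lit 98317) (nat_lit 9) (.e (nat_lit 335899) (nat_lit 0) .nil)))) .nil)) 
(.lf (nat_lit 182774) (.g (nat_lit 2617) (.e (nat_lit 57849) (nat_lit 252) (.e (nat_lit 57377) (nat_lit 3) (.e (nat_lit 98317) (nat_lit 9) (.e (nat_lit 336213) (nat_lit 13) (.e (nat_lit 393224) (nat_lit 9) .nil))))) .nil))))) (.nd (nat_lit 4) (.nd (nat_lit 5) (.nd (nat_lit 6) 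
(.lf (nat_lit 182670) (.g (nat_lit 2320) (.e (nat_lit 57849) (nat_lit 252) (.e (nat_lit 57375) (nat_lit 2) (.e (nat_lit 90160) (nat_lit 11) (.e (nat_lit 24647) (nat_lit 12) .nil)))) .nil)) 
(.lf (nat_lit 182734) (.g (nat_lit 3741) (.e (nat_lit 57849) (nat_lit 252) (.e (nat_lit 57377) (nat_lit 3) (.e (nat_lit 98317) (nat_lit 9) (.e (nat_lit 336027) (nat_lit 3) (.e (nat_lit 98342) (nat_lit 20) (.e (nat_lit 221212) (nat_lit 22) (.e (nat_lit 196624) (nat_lit 9) (.e (nat_lit 1186) (nat_lit 87) .nil)))))))) (.g (nat_lit 4) .nil .nil)))) (.nd (nat_lit 6) 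
(.lf (nat_lit 182702) (.g (nat_lit 2616) (.e (nat_lit 57849) (nat_lit 252) (.e (nat_lit 57377) (nat_lit 3) (.e (nat_lit 98315) (nat_lit 9) (.e (nat_lit 336154) (nat_lit 9) (.e (nat_lit 336453) (nat_lit 34) (.e (nat_lit 483365) (nat_lit 18) .nil)))))) (.g (nat_lit 0) .nil .nil))) 
(.lf (nat_lit 182766) (.g (nat_lit 3997) (.e (nat_lit 57849) (nat_lit 252) (.e (nat_lit 57377) (nat_lit 3) (.e (nat_lit 98317) (nat_lit 9) (.e (nat_lit 336196) (nat_lit 12) .nil)))) .nil)))) (.nd (nat_lit 5) (.nd (nat_lit 6) 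
(.lf (nat_lit 182686) (.g (nat_lit 1544) (.e (nat_lit 57849) (nat_lit 252) (.e (nat_lit 57375) (nat_lit 2) (.e (nat_lit 90160) (nat_lit 11) (.e (nat_lit 32512) (nat_lit 13) .nil)))) .nil)) 
(.lf (nat_lit 182750) (.g (nat_lit 2243) (.e (nat_lit 57849) (nat_lit 252) (.e (nat_lit 57377) (nat_lit 3) (.e (nat_lit 98317) (nat_lit 9) (.e (nat_lit 336087) (nat_lit 9) .nil)))) .nil))) (.nd (nat_lit 6) 
(.lf (nat_lit 182718) (.g (nat_lit 4114) (.e (nat_lit 57849) (nat_lit 252) (.e (nat_lit 57377) (nat_lit 3) (.e (nat_lit 98317) (nat_lit 9) (.e (nat_lit 335931) (nat_lit 0) .nil)))) .nil)) 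
(.lf (nat_lit 182782) (.g (nat_lit 1935) (.e (nat_lit 57849) (nat_lit 252) (.e (nat_lit 57377) (nat_lit 3) (.e (nat_lit 98317) (nat_lit 9) (.e (nat_lit 336220) (nat_lit 13) .nil)))) .nil)))))))) (.nd (nat_lit 1) (.nd (nat_lit 2) (.nd (nat_lit 3) (.nd (nat_lit 4) (.nd (nat_lit 5) (.nd (nat_lit 6) 
(.lf (nat_lit 182657) (.g (nat_lit 2257) (.e (nat_lit 57849) (nat_lit 252) (.e (nat_lit 57375) (nat_lit 2) (.e (nat_lit 90160) (nat_lit 11) (.e (nat_lit 24625) (nat_lit 9) (.e (nat_lit 336367) (nat_lit 27) .nil))))) .nil)) 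
(.lf (nat_lit 182721) (.g (nat_lit 3945) (.e (nat_lit 57849) (nat_lit 252) (.e (nat_lit 57377) (nat_lit 3) (.e (nat_lit 98317) (nat_lit 9) (.e (nat_lit 336010) (nat_lit 2) .nil)))) .nil))) (.nd (nat_lit 6) 
(.lf (nat_lit 182689) (.g (nat_lit 495) (.e (nat_lit 57849) (nat_lit 252) (.e (nat_lit 57377) (nat_lit 3) (.e (nat_lit 98309) (nat_lit 0) .nil))) .nil)) 
(.lf (nat_lit 182753) (.g (nat_lit 1754) (.e (nat_lit 57849) (nat_lit 252) (.e (nat_lit 57377) (nat_lit 3) (.e (nat_lit 98317) (nat_lit 9) (.e (nat_lit 336088) (nat_lit 9) (.e (nat_lit 336370) (nat_lit 27) .nil))))) .nil)))) (.nd (nat_lit 5) (.nd (nat_lit 6) 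
(.lf (nat_lit 182673) (.g (nat_lit 1394) (.e (nat_lit 57849) (nat_lit 252) (.e (nat_lit 57375) (nat_lit 2) (.e (nat_lit 90160) (nat_lit 11) (.e (nat_lit 24655) (nat_lit 13) .nil)))) .nil)) 
(.lf (nat_lit 182737) (.g (nat_lit 4720) (.e (nat_lit 57849) (nat_lit 252) (.e (nat_lit 57377) (nat_lit 3) (.e (nat_lit 98317) (nat_lit 9) (.e (nat_lit 336027) (nat_lit 3) (.e (nat_lit 98342) (nat_lit 20) (.e (nat_lit 221215) (nat_lit 23) (.e (nat_lit 204828) (nat_lit 18) .nil))))))) (.g (nat_lit 5) .nil .nil)))) (.nd (nat_lit 6) 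
(.lf (nat_lit 182705) (.g (nat_lit 4097) (.e (nat_lit 57849) (nat_lit 252) (.e (nat_lit 57377) (nat_lit 3) (.e (nat_lit 98317) (nat_lit 9) (.e (nat_lit 335892) (nat_lit 0) .nil)))) .nil)) 
(.lf (nat_lit 182769) (.g (nat_lit 4556) (.e (nat_lit 57849) (nat_lit 252) (.e (nat_lit 57377) (nat_lit 3) (.e (nat_lit 98317) (nat_lit 9) (.e (nat_lit 336202) (nat_lit 12) (.e (nat_lit 392960) (nat_lit 10) .nil))))) .nil))))) (.nd (nat_lit 4) (.nd (nat_lit 5) (.nd (nat_lit 6) 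
(.lf (nat_lit 182665) (.g (nat_lit 2670) (.e (nat_lit 57849) (nat_lit 252) (.e (nat_lit 57375) (nat_lit 2) (.e (nat_lit 90160) (nat_lit 11) (.e (nat_lit 24630) (nat_lit 9) (.e (nat_lit 336456) (nat_lit 34) .nil))))) .nil)) 
(.lf (nat_lit 182729) (.g (nat_lit 3536) (.e (nat_lit 57849) (nat_lit 252) (.e (nat_lit 57377) (nat_lit 3) (.e (nat_lit 98317) (nat_lit 9) (.e (nat_lit 336026) (nat_lit 3) .nil)))) .nil))) (.nd (nat_lit 6) 
(.lf (nat_lit 182697) (.g (nat_lit 2366) (.e (nat_lit 57849) (nat_lit 252) (.e (nat_lit 57377) (nat_lit 3) (.e (nat_lit 98313) (nat_lit 9) (.e (nat_lit 336223) (nat_lit 13) (.e (nat_lit 393229) (nat_lit 9) (.e (nat_lit 335993) (nat_lit 1) .nil)))))) (.g (nat_lit 4) .nil .nil))) 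
(.lf (nat_lit 182761) (.g (nat_lit 4086) (.e (nat_lit 57849) (nat_lit 252) (.e (nat_lit 57377) (nat_lit 3) (.e (nat_lit 98317) (nat_lit 9) (.e (nat_lit 336150) (nat_lit 9) .nil)))) .nil)))) (.nd (nat_lit 5) (.nd (nat_lit 6) 
(.lf (nat_lit 182681) (.g (nat_lit 2171) (.e (nat_lit 57849) (nat_lit 252) (.e (nat_lit 57375) (nat_lit 2) (.e (nat_lit 90160) (nat_lit 11) (.e (nat_lit 24658) (nat_lit 13) (.e (nat_lit 393228) (nat_lit 9) .nil))))) .nil)) 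
(.lf (nat_lit 182745) (.g (nat_lit 2851) (.e (nat_lit 57849) (nat_lit 252) (.e (nat_lit 57377) (nat_lit 3) (.e (nat_lit 98317) (nat_lit 9) (.e (nat_lit 336076) (nat_lit 9) (.e (nat_lit 336456) (nat_lit 34) (.e (nat_lit 483362) (nat_lit 18) .nil)))))) (.g (nat_lit 4) .nil .nil)))) (.nd (nat_lit 6) 
(.lf (nat_lit 182713) (.g (nat_lit 4114) (.e (nat_lit 57849) (nat_lit 252) (.e (nat_lit 57377) (nat_lit 3) (.e (nat_lit 98317) (nat_lit 9) (.e (nat_lit 335912) (nat_lit 0) .nil)))) .nil)) 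
(.lf (nat_lit 182777) (.g (nat_lit 3562) (.e (nat_lit 57849) (nat_lit 252) (.e (nat_lit 57377) (nat_lit 3) (.e (nat_lit 98317) (nat_lit 9) (.e (nat_lit 336213) (nat_lit 13) (.e (nat_lit 393228) (nat_lit 9) (.e (nat_lit 335995) (nat_lit 1) .nil)))))) (.g (nat_lit 4) .nil .nil))))))) (.nd (nat_lit 3) (.nd (nat_lit 4) (.nd (nat_lit 5) (.nd (nat_lit 6) 
(.lf (nat_lit 182661) (.g (nat_lit 2171) (.e (nat_lit 57849) (nat_lit 252) (.e (nat_lit 57375) (nat_lit 2) (.e (nat_lit 90160) (nat_lit 11) (.e (nat_lit 24629) (nat_lit 9) .nil)))) .nil)) 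
(.lf (nat_lit 182725) (.g (nat_lit 4553) (.e (nat_lit 57849) (nat_lit 252) (.e (nat_lit 57377) (nat_lit 3) (.e (nat_lit 98317) (nat_lit 9) (.e (nat_lit 336021) (nat_lit 3) .nil)))) .nil))) (.nd (nat_lit 6) 
(.lf (nat_lit 182693) (.g (nat_lit 2409) (.e (nat_lit 57849) (nat_lit 252) (.e (nat_lit 57377) (nat_lit 3) (.e (nat_lit 98313) (nat_lit 9) (.e (nat_lit 336213) (nat_lit 13) (.e (nat_lit 393229) (nat_lit 9) (.e (nat_lit 335993) (nat_lit 1) .nil)))))) (.g (nat_lit 4) .nil .nil))) 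
(.lf (nat_lit 182757) (.g (nat_lit 1842) (.e (nat_lit 57849) (nat_lit 252) (.e (nat_lit 57377) (nat_lit 3) (.e (nat_lit 98317) (nat_lit 9) (.e (nat_lit 336088) (nat_lit 9) (.e (nat_lit 336377) (nat_lit 27) .nil))))) .nil)))) (.nd (nat_lit 5) (.nd (nat_lit 6) 
(.lf (nat_lit 182677) (.g (nat_lit 2051) (.e (nat_lit 57849) (nat_lit 252) (.e (nat_lit 57375) (nat_lit 2) (.e (nat_lit 90160) (nat_lit 11) (.e (nat_lit 24657) (nat_lit 13) (.e (nat_lit 393227) (nat_lit 9) .nil))))) .nil)) 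
(.lf (nat_lit 182741) (.g (nat_lit 3178) (.e (nat_lit 57849) (nat_lit 252) (.e (nat_lit 57377) (nat_lit 3) (.e (nat_lit 98317) (nat_lit 9) (.e (nat_lit 336074) (nat_lit 9) .nil)))) .nil))) (.nd (nat_lit 6) 
(.lf (nat_lit 182709) (.g (nat_lit 4112) (.e (nat_lit 57849) (nat_lit 252) (.e (nat_lit 57377) (nat_lit 3) (.e (nat_lit 98317) (nat_lit 9) (.e (nat_lit 335898) (nat_lit 0) .nil)))) .nil)) 
(.lf (nat_lit 182773) (.g (nat_lit 3690) (.e (nat_lit 57849) (nat_lit 252) (.e (nat_lit 57377) (nat_lit 3) (.e (nat_lit 98317) (nat_lit 9) (.e (nat_lit 336212) (nat_lit 13) (.e (nat_lit 393225) (nat_lit 9) .nil))))) .nil))))) (.nd (nat_lit 4) (.nd (nat_lit 5) (.nd (nat_lit 6) 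
(.lf (nat_lit 182669) (.g (nat_lit 1544) (.e (nat_lit 57849) (nat_lit 252) (.e (nat_lit 57375) (nat_lit 2) (.e (nat_lit 90160) (nat_lit 11) (.e (nat_lit 32512) (nat_lit 9) .nil)))) .nil)) 
(.lf (nat_lit 182733) (.g (nat_lit 2971) (.e (nat_lit 57849) (nat_lit 252) (.e (nat_lit 57377) (nat_lit 3) (.e (nat_lit 98317) (nat_lit 9) (.e (nat_lit 336027) (nat_lit 3) (.e (nat_lit 98342) (nat_lit 20) .nil))))) .nil))) (.nd (nat_lit 6) 
(.lf (nat_lit 182701) (.g (nat_lit 1632) (.e (nat_lit 57849) (nat_lit 252) (.e (nat_lit 57377) (nat_lit 3) (.e (nat_lit 98315) (nat_lit 9) (.e (nat_lit 336152) (nat_lit 9) (.e (nat_lit 343808) (nat_lit 34) (.e (nat_lit 483365) (nat_lit 18) .nil)))))) (.g (nat_lit 4) .nil .nil))) 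
(.lf (nat_lit 182765) (.g (nat_lit 4114) (.e (nat_lit 57849) (nat_lit 252) (.e (nat_lit 57377) (nat_lit 3) (.e (nat_lit 98317) (nat_lit 9) (.e (nat_lit 336195) (nat_lit 12) .nil)))) .nil)))) (.nd (nat_lit 5) (.nd (nat_lit 6) 
(.lf (nat_lit 182685) (.g (nat_lit 2141) (.e (nat_lit 57849) (nat_lit 252) (.e (nat_lit 57375) (nat_lit 2) (.e (nat_lit 90160) (nat_lit 11) (.e (nat_lit 24660) (nat_lit 13) (.e (nat_lit 393229) (nat_lit 9) .nil))))) .nil)) 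
(.lf (nat_lit 182749) (.g (nat_lit 1953) (.e (nat_lit 57849) (nat_lit 252) (.e (nat_lit 57377) (nat_lit 3) (.e (nat_lit 98317) (nat_lit 9) (.e (nat_lit 336086) (nat_lit 9) (.e (nat_lit 336375) (nat_lit 27) .nil))))) .nil))) (.nd (nat_lit 6) 
(.lf (nat_lit 182717) (.g (nat_lit 4114) (.e (nat_lit 57849) (nat_lit 252) (.e (nat_lit 57377) (nat_lit 3) (.e (nat_lit 98317) (nat_lit 9) (.e (nat_lit 335926) (nat_lit 0) .nil)))) .nil)) 
(.lf (nat_lit 182781) (.g (nat_lit 1977) (.e (nat_lit 57849) (nat_lit 252) (.e (nat_lit 57377) (nat_lit 3) (.e (nat_lit 98317) (nat_lit 9) (.e (nat_lit 336215) (nat_lit 13) (.e (nat_lit 393229) (nat_lit 9) .nil))))) .nil))))))) (.nd (nat_lit 2) (.nd (nat_lit 3) (.nd (nat_lit 4) (.nd (nat_lit 5) (.nd (nat_lit 6) 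
(.lf (nat_lit 182659) (.g (nat_lit 3582) (.e (nat_lit 57849) (nat_lit 252) (.e (nat_lit 57375) (nat_lit 2) (.e (nat_lit 90160) (nat_lit 11) (.e (nat_lit 24628) (nat_lit 9) (.e (nat_lit 336366) (nat_lit 27) (.e (nat_lit 426499) (nat_lit 27) (.e (nat_lit 335986) (nat_lit 1) .nil))))))) (.g (nat_lit 4) .nil .nil))) 
(.lf (nat_lit 182723) (.g (nat_lit 3737) (.e (nat_lit 57849) (nat_lit 252) (.e (nat_lit 57377) (nat_lit 3) (.e (nat_lit 98317) (nat_lit 9) (.e (nat_lit 336012) (nat_lit 2) .nil)))) .nil))) (.nd (nat_lit 6) 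
(.lf (nat_lit 182691) (.g (nat_lit 2921) (.e (nat_lit 57849) (nat_lit 252) (.e (nat_lit 57377) (nat_lit 3) (.e (nat_lit 98313) (nat_lit 9) (.e (nat_lit 336027) (nat_lit 3) (.e (nat_lit 98337) (nat_lit 19) (.e (nat_lit 213022) (nat_lit 9) (.e (nat_lit 2683) (nat_lit 168) (.e (nat_lit 204829) (nat_lit 18) .nil)))))))) (.g (nat_lit 4) .nil .nil))) 
(.lf (nat_lit 182755) (.g (nat_lit 2601) (.e (nat_lit 57849) (nat_lit 252) (.e (nat_lit 57377) (nat_lit 3) (.e (nat_lit 98317) (nat_lit 9) (.e (nat_lit 336088) (nat_lit 9) (.e (nat_lit 336374) (nat_lit 27) (.e (nat_lit 426481) (nat_lit 27) (.e (nat_lit 335992) (nat_lit 1) .nil))))))) (.g (nat_lit 4) .nil .nil))))) (.nd (nat_lit 5) (.nd (nat_lit 6) 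
(.lf (nat_lit 182675) (.g (nat_lit 2428) (.e (nat_lit 57849) (nat_lit 252) (.e (nat_lit 57375) (nat_lit 2) (.e (nat_lit 90160) (nat_lit 11) (.e (nat_lit 24656) (nat_lit 13) (.e (nat_lit 393227) (nat_lit 9) .nil))))) .nil)) 
(.lf (nat_lit 182739) (.g (nat_lit 4112) (.e (nat_lit 57849) (nat_lit 252) (.e (nat_lit 57377) (nat_lit 3) (.e (nat_lit 98317) (nat_lit 9) (.e (nat_lit 336069) (nat_lit 8) .nil)))) .nil))) (.nd (nat_lit 6) 
(.lf (nat_lit 182707) (.g (nat_lit 4114) (.e (nat_lit 57849) (nat_lit 252) (.e (nat_lit 57377) (nat_lit 3) (.e (nat_lit 98317) (nat_lit 9) (.e (nat_lit 335894) (nat_lit 0) .nil)))) .nil)) 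
(.lf (nat_lit 182771) (.g (nat_lit 3905) (.e (nat_lit 57849) (nat_lit 252) (.e (nat_lit 57377) (nat_lit 3) (.e (nat_lit 98317) (nat_lit 9) (.e (nat_lit 336204) (nat_lit 12) .nil)))) .nil))))) (.nd (nat_lit 4) (.nd (nat_lit 5) (.nd (nat_lit 6) 
(.lf (nat_lit 182667) (.g (nat_lit 1342) (.e (nat_lit 57849) (nat_lit 252) (.e (nat_lit 57375) (nat_lit 2) (.e (nat_lit 90160) (nat_lit 11) (.e (nat_lit 24636) (nat_lit 9) .nil)))) .nil)) 
(.lf (nat_lit 182731) (.g (nat_lit 2166) (.e (nat_lit 57849) (nat_lit 252) (.e (nat_lit 57377) (nat_lit 3) (.e (nat_lit 98317) (nat_lit 9) (.e (nat_lit 336027) (nat_lit 3) .nil)))) .nil))) (.nd (nat_lit 6) 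
(.lf (nat_lit 182699) (.g (nat_lit 372) (.e (nat_lit 57849) (nat_lit 252) (.e (nat_lit 57377) (nat_lit 3) (.e (nat_lit 98315) (nat_lit 9) .nil))) .nil)) 
(.lf (nat_lit 182763) (.g (nat_lit 3497) (.e (nat_lit 57849) (nat_lit 252) (.e (nat_lit 57377) (nat_lit 3) (.e (nat_lit 98317) (nat_lit 9) (.e (nat_lit 336194) (nat_lit 12) .nil)))) .nil)))) (.nd (nat_lit 5) (.nd (nat_lit 6) 
(.lf (nat_lit 182683) (.g (nat_lit 1980) (.e (nat_lit 57849) (nat_lit 252) (.e (nat_lit 57375) (nat_lit 2) (.e (nat_lit 90160) (nat_lit 11) (.e (nat_lit 24659) (nat_lit 13) .nil)))) .nil)) 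
(.lf (nat_lit 182747) (.g (nat_lit 2533) (.e (nat_lit 57849) (nat_lit 252) (.e (nat_lit 57377) (nat_lit 3) (.e (nat_lit 98317) (nat_lit 9) (.e (nat_lit 336085) (nat_lit 9) .nil)))) .nil))) (.nd (nat_lit 6) 
(.lf (nat_lit 182715) (.g (nat_lit 3916) (.e (nat_lit 57849) (nat_lit 252) (.e (nat_lit 57377) (nat_lit 3) (.e (nat_lit 98317) (nat_lit 9) (.e (nat_lit 335914) (nat_lit 0) .nil)))) .nil)) 
(.lf (nat_lit 182779) (.g (nat_lit 1340) (.e (nat_lit 57849) (nat_lit 252) (.e (nat_lit 57377) (nat_lit 3) (.e (nat_lit 98317) (nat_lit 9) (.e (nat_lit 336214) (nat_lit 13) .nil)))) .nil)))))) (.nd (nat_lit 3) (.nd (nat_lit 4) (.nd (nat_lit 5) (.nd (nat_lit 6) 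
(.lf (nat_lit 182663) (.g (nat_lit 1967) (.e (nat_lit 57849) (nat_lit 252) (.e (nat_lit 57375) (nat_lit 2) (.e (nat_lit 90160) (nat_lit 11) (.e (nat_lit 24630) (nat_lit 9) .nil)))) .nil)) 
(.lf (nat_lit 182727) (.g (nat_lit 5353) (.e (nat_lit 57849) (nat_lit 252) (.e (nat_lit 57377) (nat_lit 3) (.e (nat_lit 98317) (nat_lit 9) (.e (nat_lit 336021) (nat_lit 3) (.e (nat_lit 98342) (nat_lit 20) .nil))))) .nil))) (.nd (nat_lit 6) 
(.lf (nat_lit 182695) (.g (nat_lit 2921) (.e (nat_lit 57849) (nat_lit 252) (.e (nat_lit 57377) (nat_lit 3) (.e (nat_lit 98313) (nat_lit 9) (.e (nat_lit 336223) (nat_lit 13) (.e (nat_lit 393226) (nat_lit 9) (.e (nat_lit 335998) (nat_lit 1) .nil)))))) (.g (nat_lit 4) .nil .nil))) 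
(.lf (nat_lit 182759) (.g (nat_lit 4108) (.e (nat_lit 57849) (nat_lit 252) (.e (nat_lit 57377) (nat_lit 3) (.e (nat_lit 98317) (nat_lit 9) (.e (nat_lit 336100) (nat_lit 9) .nil)))) .nil)))) (.nd (nat_lit 5) (.nd (nat_lit 6) 
(.lf (nat_lit 182679) (.g (nat_lit 1396) (.e (nat_lit 57849) (nat_lit 252) (.e (nat_lit 57375) (nat_lit 2) (.e (nat_lit 90160) (nat_lit 11) (.e (nat_lit 24658) (nat_lit 13) .nil)))) .nil)) 
(.lf (nat_lit 182743) (.g (nat_lit 2275) (.e (nat_lit 57849) (nat_lit 252) (.e (nat_lit 57377) (nat_lit 3) (.e (nat_lit 98317) (nat_lit 9) (.e (nat_lit 336076) (nat_lit 9) (.e (nat_lit 336374) (nat_lit 27) .nil))))) .nil))) (.nd (nat_lit 6) 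
(.lf (nat_lit 182711) (.g (nat_lit 4114) (.e (nat_lit 57849) (nat_lit 252) (.e (nat_lit 57377) (nat_lit 3) (.e (nat_lit 98317) (nat_lit 9) (.e (nat_lit 335910) (nat_lit 0) .nil)))) .nil)) 
(.lf (nat_lit 182775) (.g (nat_lit 1972) (.e (nat_lit 57849) (nat_lit 252) (.e (nat_lit 57377) (nat_lit 3) (.e (nat_lit 98317) (nat_lit 9) (.e (nat_lit 336213) (nat_lit 13) (.e (nat_lit 393227) (nat_lit 9) .nil))))) .nil))))) (.nd (nat_lit 4) (.nd (nat_lit 5) (.nd (nat_lit 6) 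
(.lf (nat_lit 182671) (.g (nat_lit 2330) (.e (nat_lit 57849) (nat_lit 252) (.e (nat_lit 57375) (nat_lit 2) (.e (nat_lit 90160) (nat_lit 11) (.e (nat_lit 24649) (nat_lit 12) .nil)))) .nil)) 
(.lf (nat_lit 182735) (.g (nat_lit 4076) (.e (nat_lit 57849) (nat_lit 252) (.e (nat_lit 57377) (nat_lit 3) (.e (nat_lit 98317) (nat_lit 9) (.e (nat_lit 336027) (nat_lit 3) (.e (nat_lit 98342) (nat_lit 20) (.e (nat_lit 221212) (nat_lit 22) (.e (nat_lit 196626) (nat_lit 9) (.e (nat_lit 1183) (nat_lit 87) .nil)))))))) (.g (nat_lit 4) .nil .nil)))) (.nd (nat_lit 6) 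
(.lf (nat_lit 182703) (.g (nat_lit 287) (.e (nat_lit 57849) (nat_lit 252) (.e (nat_lit 57377) (nat_lit 3) (.e (nat_lit 98317) (nat_lit 9) .nil))) .nil)) 
(.lf (nat_lit 182767) (.g (nat_lit 4114) (.e (nat_lit 57849) (nat_lit 252) (.e (nat_lit 57377) (nat_lit 3) (.e (nat_lit 98317) (nat_lit 9) (.e (nat_lit 336201) (nat_lit 12) .nil)))) .nil)))) (.nd (nat_lit 5) (.nd (nat_lit 6) 
(.lf (nat_lit 182687) (.g (nat_lit 2039) (.e (nat_lit 57849) (nat_lit 252) (.e (nat_lit 57375) (nat_lit 2) (.e (nat_lit 90160) (nat_lit 11) (.e (nat_lit 24665) (nat_lit 14) .nil)))) .nil)) 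
(.lf (nat_lit 182751) (.g (nat_lit 977) (.e (nat_lit 57849) (nat_lit 252) (.e (nat_lit 57377) (nat_lit 3) (.e (nat_lit 98317) (nat_lit 9) (.e (nat_lit 336088) (nat_lit 9) .nil)))) .nil))) (.nd (nat_lit 6) 
(.lf (nat_lit 182719) (.g (nat_lit 4114) (.e (nat_lit 57849) (nat_lit 252) (.e (nat_lit 57377) (nat_lit 3) (.e (nat_lit 98317) (nat_lit 9) (.e (nat_lit 335933) (nat_lit 0) .nil)))) .nil)) 
(.lf (nat_lit 182783) (.g (nat_lit 2324) (.e (nat_lit 57849) (nat_lit 252) (.e (nat_lit 57377) (nat_lit 3) (.e (nat_lit 98317) (nat_lit 9) (.e (nat_lit 336221) (nat_lit 13) .nil)))) .nil)))))))))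

noncomputable def tv2439 : DT := (.nd (nat_lit 0) (.nd (nat_lit 1) (.nd (nat_lit 2) (.nd (nat_lit 3) (.nd (nat_lit 4) (.nd (nat_lit 5) 
(.lf (nat_lit 182784) (.g (nat_lit 1200) (.e (nat_lit 57849) (nat_lit 252) (.e (nat_lit 57377) (nat_lit 3) (.e (nat_lit 98317) (nat_lit 9) (.e (nat_lit 336222) (nat_lit 13) .nil)))) .nil)) 
(.lf (nat_lit 182816) (.g (nat_lit 1248) (.e (nat_lit 57849) (nat_lit 252) (.e (nat_lit 57379) (nat_lit 3) (.e (nat_lit 98313) (nat_lit 9) (.e (nat_lit 336215) (nat_lit 13) .nil)))) .nil))) (.nd (nat_lit 5) 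
(.lf (nat_lit 182800) (.g (nat_lit 660) (.e (nat_lit 57849) (nat_lit 252) (.e (nat_lit 57378) (nat_lit 3) (.e (nat_lit 106240) (nat_lit 9) .nil))) .nil)) 
(.lf (nat_lit 182832) (.g (nat_lit 2100) (.e (nat_lit 57849) (nat_lit 252) (.e (nat_lit 57379) (nat_lit 3) (.e (nat_lit 98317) (nat_lit 9) (.e (nat_lit 336076) (nat_lit 9) (.e (nat_lit 336374) (nat_lit 27) .nil))))) .nil)))) (.nd (nat_lit 4) (.nd (nat_lit 5) 
(.lf (nat_lit 182792) (.g (nat_lit 4129) (.e (nat_lit 57849) (nat_lit 252) (.e (nat_lit 57377) (nat_lit 3) (.e (nat_lit 98317) (nat_lit 9) (.e (nat_lit 336231) (nat_lit 14) .nil)))) .nil)) 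
(.lf (nat_lit 182824) (.g (nat_lit 808) (.e (nat_lit 57849) (nat_lit 252) (.e (nat_lit 57379) (nat_lit 3) (.e (nat_lit 98314) (nat_lit 9) .nil))) .nil))) (.nd (nat_lit 5) 
(.lf (nat_lit 182808) (.g (nat_lit 2366) (.e (nat_lit 57849) (nat_lit 252) (.e (nat_lit 57379) (nat_lit 3) (.e (nat_lit 98313) (nat_lit 9) (.e (nat_lit 336027) (nat_lit 3) (.e (nat_lit 98338) (nat_lit 19) .nil))))) .nil)) 
(.lf (nat_lit 182840) (.g (nat_lit 1640) (.e (nat_lit 57849) (nat_lit 252) (.e (nat_lit 57379) (nat_lit 3) (.e (nat_lit 98317) (nat_lit 9) (.e (nat_lit 336088) (nat_lit 9) (.e (nat_lit 336366) (nat_lit 27) .nil))))) .nil))))) (.nd (nat_lit 3) (.nd (nat_lit 4) (.nd (nat_lit 5) 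
(.lf (nat_lit 182788) (.g (nat_lit 3521) (.e (nat_lit 57849) (nat_lit 252) (.e (nat_lit 57377) (nat_lit 3) (.e (nat_lit 98317) (nat_lit 9) (.e (nat_lit 336223) (nat_lit 13) (.e (nat_lit 393224) (nat_lit 9) (.e (nat_lit 335995) (nat_lit 1) .nil)))))) (.g (nat_lit 4) .nil .nil))) 
(.lf (nat_lit 182820) (.g (nat_lit 1950) (.e (nat_lit 57849) (nat_lit 252) (.e (nat_lit 57379) (nat_lit 3) (.e (nat_lit 98313) (nat_lit 9) (.e (nat_lit 336223) (nat_lit 13) (.e (nat_lit 393227) (nat_lit 9) .nil))))) .nil))) (.nd (nat_lit 5) 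
(.lf (nat_lit 182804) (.g (nat_lit 1265) (.e (nat_lit 57849) (nat_lit 252) (.e (nat_lit 57379) (nat_lit 3) (.e (nat_lit 98312) (nat_lit 9) (.e (nat_lit 336215) (nat_lit 13) (.e (nat_lit 393227) (nat_lit 9) .nil))))) .nil)) 
(.lf (nat_lit 182836) (.g (nat_lit 1050) (.e (nat_lit 57849) (nat_lit 252) (.e (nat_lit 57379) (nat_lit 3) (.e (nat_lit 98317) (nat_lit 9) (.e (nat_lit 336086) (nat_lit 9) .nil)))) .nil)))) (.nd (nat_lit 4) (.nd (nat_lit 5) 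
(.lf (nat_lit 182796) (.g (nat_lit 2083) (.e (nat_lit 57849) (nat_lit 252) (.e (nat_lit 57377) (nat_lit 3) (.e (nat_lit 106240) (nat_lit 11) (.e (nat_lit 352322) (nat_lit 26) (.e (nat_lit 155392) (nat_lit 4) (.e (nat_lit 65565) (nat_lit 1) .nil)))))) (.g (nat_lit 4) .nil .nil))) 
(.lf (nat_lit 182828) (.g (nat_lit 1102) (.e (nat_lit 57849) (nat_lit 252) (.e (nat_lit 57379) (nat_lit 3) (.e (nat_lit 98317) (nat_lit 9) (.e (nat_lit 336027) (nat_lit 3) .nil)))) .nil))) (.nd (nat_lit 5) 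
(.lf (nat_lit 182812) (.g (nat_lit 1142) (.e (nat_lit 57849) (nat_lit 252) (.e (nat_lit 57379) (nat_lit 3) (.e (nat_lit 98313) (nat_lit 9) (.e (nat_lit 336088) (nat_lit 9) .nil)))) .nil)) 
(.lf (nat_lit 182844) (.g (nat_lit 1845) (.e (nat_lit 57849) (nat_lit 252) (.e (nat_lit 57379) (nat_lit 3) (.e (nat_lit 98317) (nat_lit 9) (.e (nat_lit 336088) (nat_lit 9) (.e (nat_lit 336374) (nat_lit 27) (.e (nat_lit 426479) (nat_lit 27) (.e (nat_lit 336000) (nat_lit 1) .nil))))))) (.g (nat_lit 4) .nil .nil))))))) (.nd (nat_lit 2) (.nd (nat_lit 3) (.nd (nat_lit 4) (.nd (nat_lit 5) 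
(.lf (nat_lit 182786) (.g (nat_lit 2892) (.e (nat_lit 57849) (nat_lit 252) (.e (nat_lit 57377) (nat_lit 3) (.e (nat_lit 98317) (nat_lit 9) (.e (nat_lit 336222) (nat_lit 13) (.e (nat_lit 393229) (nat_lit 9) (.e (nat_lit 335985) (nat_lit 1) .nil)))))) (.g (nat_lit 5) .nil .nil))) 
(.lf (nat_lit 182818) (.g (nat_lit 2231) (.e (nat_lit 57849) (nat_lit 252) (.e (nat_lit 57379) (nat_lit 3) (.e (nat_lit 98313) (nat_lit 9) (.e (nat_lit 336223) (nat_lit 13) (.e (nat_lit 393224) (nat_lit 9) .nil))))) .nil))) (.nd (nat_lit 5) 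
(.lf (nat_lit 182802) (.g (nat_lit 852) (.e (nat_lit 57849) (nat_lit 252) (.e (nat_lit 57379) (nat_lit 3) (.e (nat_lit 98309) (nat_lit 0) .nil))) .nil)) 
(.lf (nat_lit 182834) (.g (nat_lit 2747) (.e (nat_lit 57849) (nat_lit 252) (.e (nat_lit 57379) (nat_lit 3) (.e (nat_lit 98317) (nat_lit 9) (.e (nat_lit 336076) (nat_lit 9) (.e (nat_lit 336456) (nat_lit 34) (.e (nat_lit 483362) (nat_lit 18) .nil)))))) (.g (nat_lit 5) .nil .nil))))) (.nd (nat_lit 4) (.nd (nat_lit 5) 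
(.lf (nat_lit 182794) (.g (nat_lit 4579) (.e (nat_lit 57849) (nat_lit 252) (.e (nat_lit 57377) (nat_lit 3) (.e (nat_lit 106240) (nat_lit 10) (.e (nat_lit 344133) (nat_lit 26) (.e (nat_lit 557105) (nat_lit 14) (.e (nat_lit 180252) (nat_lit 10) (.e (nat_lit 573451) (nat_lit 9) (.e (nat_lit 1169) (nat_lit 87) .nil)))))))) (.g (nat_lit 6) .nil .nil))) 
(.lf (nat_lit 182826) (.g (nat_lit 653) (.e (nat_lit 57849) (nat_lit 252) (.e (nat_lit 57379) (nat_lit 3) (.e (nat_lit 98316) (nat_lit 9) .nil))) .nil))) (.nd (nat_lit 5) 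
(.lf (nat_lit 182810) (.g (nat_lit 2008) (.e (nat_lit 57849) (nat_lit 252) (.e (nat_lit 57379) (nat_lit 3) (.e (nat_lit 98313) (nat_lit 9) (.e (nat_lit 336076) (nat_lit 9) (.e (nat_lit 336452) (nat_lit 34) .nil))))) .nil)) 
(.lf (nat_lit 182842) (.g (nat_lit 1699) (.e (nat_lit 57849) (nat_lit 252) (.e (nat_lit 57379) (nat_lit 3) (.e (nat_lit 98317) (nat_lit 9) (.e (nat_lit 336088) (nat_lit 9) (.e (nat_lit 336372) (nat_lit 27) .nil))))) .nil))))) (.nd (nat_lit 3) (.nd (nat_lit 4) (.nd (nat_lit 5) 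
(.lf (nat_lit 182790) (.g (nat_lit 2521) (.e (nat_lit 57849) (nat_lit 252) (.e (nat_lit 57377) (nat_lit 3) (.e (nat_lit 98317) (nat_lit 9) (.e (nat_lit 336223) (nat_lit 13) (.e (nat_lit 393229) (nat_lit 9) (.e (nat_lit 343808) (nat_lit 1) .nil)))))) (.g (nat_lit 5) .nil .nil))) 
(.lf (nat_lit 182822) (.g (nat_lit 2054) (.e (nat_lit 57849) (nat_lit 252) (.e (nat_lit 57379) (nat_lit 3) (.e (nat_lit 98313) (nat_lit 9) (.e (nat_lit 336223) (nat_lit 13) (.e (nat_lit 401152) (nat_lit 9) .nil))))) .nil))) (.nd (nat_lit 5) 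
(.lf (nat_lit 182806) (.g (nat_lit 1110) (.e (nat_lit 57849) (nat_lit 252) (.e (nat_lit 57379) (nat_lit 3) (.e (nat_lit 98313) (nat_lit 9) (.e (nat_lit 336027) (nat_lit 3) .nil)))) .nil)) 
(.lf (nat_lit 182838) (.g (nat_lit 1619) (.e (nat_lit 57849) (nat_lit 252) (.e (nat_lit 57379) (nat_lit 3) (.e (nat_lit 98317) (nat_lit 9) (.e (nat_lit 336087) (nat_lit 9) (.e (nat_lit 336452) (nat_lit 34) .nil))))) .nil)))) (.nd (nat_lit 4) (.nd (nat_lit 5) 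
(.lf (nat_lit 182798) (.g (nat_lit 1044) (.e (nat_lit 57849) (nat_lit 252) (.e (nat_lit 57378) (nat_lit 3) (.e (nat_lit 98315) (nat_lit 9) .nil))) .nil)) 
(.lf (nat_lit 182830) (.g (nat_lit 2753) (.e (nat_lit 57849) (nat_lit 252) (.e (nat_lit 57379) (nat_lit 3) (.e (nat_lit 98317) (nat_lit 9) (.e (nat_lit 336027) (nat_lit 3) (.e (nat_lit 98341) (nat_lit 20) (.e (nat_lit 221214) (nat_lit 23) (.e (nat_lit 204828) (nat_lit 18) .nil))))))) (.g (nat_lit 4) .nil .nil)))) (.nd (nat_lit 5) 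
(.lf (nat_lit 182814) (.g (nat_lit 1123) (.e (nat_lit 57849) (nat_lit 252) (.e (nat_lit 57379) (nat_lit 3) (.e (nat_lit 98313) (nat_lit 9) (.e (nat_lit 336213) (nat_lit 13) .nil)))) .nil)) 
(.lf (nat_lit 182846) (.g (nat_lit 1695) (.e (nat_lit 57849) (nat_lit 252) (.e (nat_lit 57379) (nat_lit 3) (.e (nat_lit 98317) (nat_lit 9) (.e (nat_lit 336088) (nat_lit 9) (.e (nat_lit 336377) (nat_lit 27) .nil))))) .nil))))))) (.nd (nat_lit 1) (.nd (nat_lit 2) (.nd (nat_lit 3) (.nd (nat_lit 4) (.nd (nat_lit 5) 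
(.lf (nat_lit 182785) (.g (nat_lit 2164) (.e (nat_lit 57849) (nat_lit 252) (.e (nat_lit 57377) (nat_lit 3) (.e (nat_lit 98317) (nat_lit 9) (.e (nat_lit 336222) (nat_lit 13) (.e (nat_lit 393228) (nat_lit 9) (.e (nat_lit 335985) (nat_lit 1) .nil)))))) (.g (nat_lit 4) .nil .nil))) 
(.lf (nat_lit 182817) (.g (nat_lit 3219) (.e (nat_lit 57849) (nat_lit 252) (.e (nat_lit 57379) (nat_lit 3) (.e (nat_lit 98313) (nat_lit 9) (.e (nat_lit 336223) (nat_lit 13) (.e (nat_lit 393219) (nat_lit 0) .nil))))) .nil))) (.nd (nat_lit 5) 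
(.lf (nat_lit 182801) (.g (nat_lit 826) (.e (nat_lit 57849) (nat_lit 252) (.e (nat_lit 57379) (nat_lit 3) (.e (nat_lit 98308) (nat_lit 0) .nil))) .nil)) 
(.lf (nat_lit 182833) (.g (nat_lit 2214) (.e (nat_lit 57849) (nat_lit 252) (.e (nat_lit 57379) (nat_lit 3) (.e (nat_lit 98317) (nat_lit 9) (.e (nat_lit 336076) (nat_lit 9) (.e (nat_lit 336455) (nat_lit 34) .nil))))) .nil)))) (.nd (nat_lit 4) (.nd (nat_lit 5) 
(.lf (nat_lit 182793) (.g (nat_lit 481) (.e (nat_lit 57849) (nat_lit 252) (.e (nat_lit 57377) (nat_lit 3) (.e (nat_lit 106240) (nat_lit 10) .nil))) .nil)) 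
(.lf (nat_lit 182825) (.g (nat_lit 515) (.e (nat_lit 57849) (nat_lit 252) (.e (nat_lit 57379) (nat_lit 3) (.e (nat_lit 98315) (nat_lit 9) .nil))) .nil))) (.nd (nat_lit 5) 
(.lf (nat_lit 182809) (.g (nat_lit 3424) (.e (nat_lit 57849) (nat_lit 252) (.e (nat_lit 57379) (nat_lit 3) (.e (nat_lit 98313) (nat_lit 9) (.e (nat_lit 336027) (nat_lit 3) (.e (nat_lit 98342) (nat_lit 20) (.e (nat_lit 221212) (nat_lit 22) (.e (nat_lit 196624) (nat_lit 9) (.e (nat_lit 1186) (nat_lit 87) .nil)))))))) (.g (nat_lit 5) .nil .nil))) 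
(.lf (nat_lit 182841) (.g (nat_lit 1645) (.e (nat_lit 57849) (nat_lit 252) (.e (nat_lit 57379) (nat_lit 3) (.e (nat_lit 98317) (nat_lit 9) (.e (nat_lit 336088) (nat_lit 9) (.e (nat_lit 336370) (nat_lit 27) .nil))))) .nil))))) (.nd (nat_lit 3) (.nd (nat_lit 4) (.nd (nat_lit 5) 
(.lf (nat_lit 182789) (.g (nat_lit 2818) (.e (nat_lit 57849) (nat_lit 252) (.e (nat_lit 57377) (nat_lit 3) (.e (nat_lit 98317) (nat_lit 9) (.e (nat_lit 336223) (nat_lit 13) (.e (nat_lit 393228) (nat_lit 9) .nil))))) .nil)) 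
(.lf (nat_lit 182821) (.g (nat_lit 2221) (.e (nat_lit 57849) (nat_lit 252) (.e (nat_lit 57379) (nat_lit 3) (.e (nat_lit 98313) (nat_lit 9) (.e (nat_lit 336223) (nat_lit 13) (.e (nat_lit 393228) (nat_lit 9) .nil))))) .nil))) (.nd (nat_lit 5) 
(.lf (nat_lit 182805) (.g (nat_lit 537) (.e (nat_lit 57849) (nat_lit 252) (.e (nat_lit 57379) (nat_lit 3) (.e (nat_lit 98313) (nat_lit 9) .nil))) .nil)) 
(.lf (nat_lit 182837) (.g (nat_lit 1048) (.e (nat_lit 57849) (nat_lit 252) (.e (nat_lit 57379) (nat_lit 3) (.e (nat_lit 98317) (nat_lit 9) (.e (nat_lit 336087) (nat_lit 9) .nil)))) .nil)))) (.nd (nat_lit 4) (.nd (nat_lit 5) 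
(.lf (nat_lit 182797) (.g (nat_lit 1060) (.e (nat_lit 57849) (nat_lit 252) (.e (nat_lit 57378) (nat_lit 3) (.e (nat_lit 98313) (nat_lit 9) .nil))) .nil)) 
(.lf (nat_lit 182829) (.g (nat_lit 1692) (.e (nat_lit 57849) (nat_lit 252) (.e (nat_lit 57379) (nat_lit 3) (.e (nat_lit 98317) (nat_lit 9) (.e (nat_lit 336027) (nat_lit 3) (.e (nat_lit 98341) (nat_lit 20) .nil))))) .nil))) (.nd (nat_lit 5) 
(.lf (nat_lit 182813) (.g (nat_lit 1926) (.e (nat_lit 57849) (nat_lit 252) (.e (nat_lit 57379) (nat_lit 3) (.e (nat_lit 98313) (nat_lit 9) (.e (nat_lit 336088) (nat_lit 9) (.e (nat_lit 336456) (nat_lit 34) .nil))))) .nil)) 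
(.lf (nat_lit 182845) (.g (nat_lit 1675) (.e (nat_lit 57849) (nat_lit 252) (.e (nat_lit 57379) (nat_lit 3) (.e (nat_lit 98317) (nat_lit 9) (.e (nat_lit 336088) (nat_lit 9) (.e (nat_lit 336375) (nat_lit 27) .nil))))) .nil)))))) (.nd (nat_lit 2) (.nd (nat_lit 3) (.nd (nat_lit 4) (.nd (nat_lit 5) 
(.lf (nat_lit 182787) (.g (nat_lit 3212) (.e (nat_lit 57849) (nat_lit 252) (.e (nat_lit 57377) (nat_lit 3) (.e (nat_lit 98317) (nat_lit 9) (.e (nat_lit 336222) (nat_lit 13) (.e (nat_lit 393229) (nat_lit 9) (.e (nat_lit 335993) (nat_lit 1) .nil)))))) (.g (nat_lit 5) .nil .nil))) 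
(.lf (nat_lit 182819) (.g (nat_lit 3043) (.e (nat_lit 57849) (nat_lit 252) (.e (nat_lit 57379) (nat_lit 3) (.e (nat_lit 98313) (nat_lit 9) (.e (nat_lit 336223) (nat_lit 13) (.e (nat_lit 393226) (nat_lit 9) (.e (nat_lit 335998) (nat_lit 1) .nil)))))) (.g (nat_lit 4) .nil .nil)))) (.nd (nat_lit 5) 
(.lf (nat_lit 182803) (.g (nat_lit 398) (.e (nat_lit 57849) (nat_lit 252) (.e (nat_lit 57379) (nat_lit 3) (.e (nat_lit 98312) (nat_lit 9) .nil))) .nil)) 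
(.lf (nat_lit 182835) (.g (nat_lit 1223) (.e (nat_lit 57849) (nat_lit 252) (.e (nat_lit 57379) (nat_lit 3) (.e (nat_lit 98317) (nat_lit 9) (.e (nat_lit 336084) (nat_lit 9) .nil)))) .nil)))) (.nd (nat_lit 4) (.nd (nat_lit 5) 
(.lf (nat_lit 182795) (.g (nat_lit 481) (.e (nat_lit 57849) (nat_lit 252) (.e (nat_lit 57377) (nat_lit 3) (.e (nat_lit 106240) (nat_lit 11) .nil))) .nil)) 
(.lf (nat_lit 182827) (.g (nat_lit 329) (.e (nat_lit 57849) (nat_lit 252) (.e (nat_lit 57379) (nat_lit 3) (.e (nat_lit 98317) (nat_lit 9) .nil))) .nil))) (.nd (nat_lit 5) 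
(.lf (nat_lit 182811) (.g (nat_lit 3405) (.e (nat_lit 57849) (nat_lit 252) (.e (nat_lit 57379) (nat_lit 3) (.e (nat_lit 98313) (nat_lit 9) (.e (nat_lit 336086) (nat_lit 9) (.e (nat_lit 336454) (nat_lit 34) (.e (nat_lit 483365) (nat_lit 18) .nil)))))) (.g (nat_lit 4) .nil .nil))) 
(.lf (nat_lit 182843) (.g (nat_lit 2314) (.e (nat_lit 57849) (nat_lit 252) (.e (nat_lit 57379) (nat_lit 3) (.e (nat_lit 98317) (nat_lit 9) (.e (nat_lit 336088) (nat_lit 9) (.e (nat_lit 336374) (nat_lit 27) (.e (nat_lit 426478) (nat_lit 27) (.e (nat_lit 335992) (nat_lit 1) .nil))))))) (.g (nat_lit 4) .nil .nil)))))) (.nd (nat_lit 3) (.nd (nat_lit 4) (.nd (nat_lit 5) 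
(.lf (nat_lit 182791) (.g (nat_lit 2646) (.e (nat_lit 57849) (nat_lit 252) (.e (nat_lit 57377) (nat_lit 3) (.e (nat_lit 98317) (nat_lit 9) (.e (nat_lit 343808) (nat_lit 13) .nil)))) .nil)) 
(.lf (nat_lit 182823) (.g (nat_lit 2302) (.e (nat_lit 57849) (nat_lit 252) (.e (nat_lit 57379) (nat_lit 3) (.e (nat_lit 98313) (nat_lit 9) (.e (nat_lit 336223) (nat_lit 13) (.e (nat_lit 401152) (nat_lit 9) (.e (nat_lit 336000) (nat_lit 1) .nil)))))) (.g (nat_lit 4) .nil .nil)))) (.nd (nat_lit 5) 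
(.lf (nat_lit 182807) (.g (nat_lit 3064) (.e (nat_lit 57849) (nat_lit 252) (.e (nat_lit 57379) (nat_lit 3) (.e (nat_lit 98313) (nat_lit 9) (.e (nat_lit 336027) (nat_lit 3) (.e (nat_lit 98337) (nat_lit 19) (.e (nat_lit 213022) (nat_lit 9) (.e (nat_lit 2683) (nat_lit 168) (.e (nat_lit 204829) (nat_lit 18) .nil)))))))) (.g (nat_lit 4) .nil .nil))) 
(.lf (nat_lit 182839) (.g (nat_lit 881) (.e (nat_lit 57849) (nat_lit 252) (.e (nat_lit 57379) (nat_lit 3) (.e (nat_lit 98317) (nat_lit 9) (.e (nat_lit 336088) (nat_lit 9) .nil)))) .nil)))) (.nd (nat_lit 4) (.nd (nat_lit 5) 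
(.lf (nat_lit 182799) (.g (nat_lit 1771) (.e (nat_lit 57849) (nat_lit 252) (.e (nat_lit 57378) (nat_lit 3) (.e (nat_lit 98317) (nat_lit 9) (.e (nat_lit 336223) (nat_lit 13) (.e (nat_lit 393225) (nat_lit 9) .nil))))) .nil)) 
(.lf (nat_lit 182831) (.g (nat_lit 1998) (.e (nat_lit 57849) (nat_lit 252) (.e (nat_lit 57379) (nat_lit 3) (.e (nat_lit 98317) (nat_lit 9) (.e (nat_lit 336076) (nat_lit 9) (.e (nat_lit 336370) (nat_lit 27) .nil))))) .nil))) (.nd (nat_lit 5) 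
(.lf (nat_lit 182815) (.g (nat_lit 1394) (.e (nat_lit 57849) (nat_lit 252) (.e (nat_lit 57379) (nat_lit 3) (.e (nat_lit 98313) (nat_lit 9) (.e (nat_lit 336214) (nat_lit 13) .nil)))) .nil)) 
(.lf (nat_lit 182847) (.g (nat_lit 3184) (.e (nat_lit 57849) (nat_lit 252) (.e (nat_lit 57379) (nat_lit 3) (.e (nat_lit 98317) (nat_lit 9) (.e (nat_lit 336213) (nat_lit 13) (.e (nat_lit 393226) (nat_lit 9) (.e (nat_lit 335998) (nat_lit 1) .nil)))))) (.g (nat_lit 4) .nil .nil)))))))))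

noncomputable def tv2440 : DT := (.nd (nat_lit 0) (.nd (nat_lit 1) (.nd (nat_lit 2) (.nd (nat_lit 3) (.nd (nat_lit 4) (.nd (nat_lit 5) 
(.lf (nat_lit 182848) (.g (nat_lit 1916) (.e (nat_lit 57849) (nat_lit 252) (.e (nat_lit 57379) (nat_lit 3) (.e (nat_lit 98317) (nat_lit 9) (.e (nat_lit 336213) (nat_lit 13) (.e (nat_lit 393227) (nat_lit 9) .nil))))) .nil)) 
(.lf (nat_lit 182880) (.g (nat_lit 3810) (.e (nat_lit 57849) (nat_lit 252) (.e (nat_lit 57379) (nat_lit 3) (.e (nat_lit 98342) (nat_lit 20) (.e (nat_lit 221214) (nat_lit 23) (.e (nat_lit 204880) (nat_lit 32) (.e (nat_lit 385066) (nat_lit 26) (.e (nat_lit 532502) (nat_lit 1) .nil))))))) (.g (nat_lit 5) .nil .nil)))) (.nd (nat_lit 5) 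
(.lf (nat_lit 182864) (.g (nat_lit 4331) (.e (nat_lit 57849) (nat_lit 252) (.e (nat_lit 57379) (nat_lit 3) (.e (nat_lit 106240) (nat_lit 10) (.e (nat_lit 344133) (nat_lit 26) (.e (nat_lit 557105) (nat_lit 14) (.e (nat_lit 180252) (nat_lit 10) (.e (nat_lit 573451) (nat_lit 9) (.e (nat_lit 1175) (nat_lit 87) .nil)))))))) (.g (nat_lit 6) .nil .nil))) 
(.lf (nat_lit 182896) (.g (nat_lit 1589) (.e (nat_lit 57849) (nat_lit 252) (.e (nat_lit 57385) (nat_lit 4) (.e (nat_lit 106536) (nat_lit 11) (.e (nat_lit 16468) (nat_lit 13) (.e (nat_lit 483389) (nat_lit 23) (.e (nat_lit 335991) (nat_lit 1) .nil)))))) (.g (nat_lit 0) .nil .nil))))) (.nd (nat_lit 4) (.nd (nat_lit 5) 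
(.lf (nat_lit 182856) (.g (nat_lit 2639) (.e (nat_lit 57849) (nat_lit 252) (.e (nat_lit 57379) (nat_lit 3) (.e (nat_lit 98317) (nat_lit 9) (.e (nat_lit 336222) (nat_lit 13) (.e (nat_lit 393229) (nat_lit 9) (.e (nat_lit 335985) (nat_lit 1) .nil)))))) (.g (nat_lit 5) .nil .nil))) 
(.lf (nat_lit 182888) (.g (nat_lit 2862) (.e (nat_lit 57849) (nat_lit 252) (.e (nat_lit 57385) (nat_lit 4) (.e (nat_lit 106534) (nat_lit 11) (.e (nat_lit 16438) (nat_lit 9) (.e (nat_lit 426542) (nat_lit 29) (.e (nat_lit 352309) (nat_lit 21) .nil)))))) (.g (nat_lit 0) .nil .nil)))) (.nd (nat_lit 5) 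
(.lf (nat_lit 182872) (.g (nat_lit 706) (.e (nat_lit 57849) (nat_lit 252) (.e (nat_lit 57379) (nat_lit 3) (.e (nat_lit 98338) (nat_lit 19) .nil))) .nil)) 
(.lf (nat_lit 182904) (.g (nat_lit 1701) (.e (nat_lit 57849) (nat_lit 252) (.e (nat_lit 57386) (nat_lit 4) (.e (nat_lit 106534) (nat_lit 11) (.e (nat_lit 16468) (nat_lit 13) (.e (nat_lit 483389) (nat_lit 23) (.e (nat_lit 335991) (nat_lit 1) .nil)))))) (.g (nat_lit 0) .nil .nil)))))) (.nd (nat_lit 3) (.nd (nat_lit 4) (.nd (nat_lit 5) 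
(.lf (nat_lit 182852) (.g (nat_lit 2180) (.e (nat_lit 57849) (nat_lit 252) (.e (nat_lit 57379) (nat_lit 3) (.e (nat_lit 98317) (nat_lit 9) (.e (nat_lit 336215) (nat_lit 13) (.e (nat_lit 401152) (nat_lit 9) (.e (nat_lit 336000) (nat_lit 1) .nil)))))) (.g (nat_lit 4) .nil .nil))) 
(.lf (nat_lit 182884) (.g (nat_lit 2931) (.e (nat_lit 57849) (nat_lit 252) (.e (nat_lit 57383) (nat_lit 4) (.e (nat_lit 106534) (nat_lit 11) (.e (nat_lit 16468) (nat_lit 13) (.e (nat_lit 483383) (nat_lit 23) (.e (nat_lit 336000) (nat_lit 1) .nil)))))) (.g (nat_lit 0) .nil .nil)))) (.nd (nat_lit 5) 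
(.lf (nat_lit 182868) (.g (nat_lit 2063) (.e (nat_lit 57849) (nat_lit 252) (.e (nat_lit 57379) (nat_lit 3) (.e (nat_lit 98334) (nat_lit 18) (.e (nat_lit 164379) (nat_lit 254) .nil)))) .nil)) 
(.lf (nat_lit 182900) (.g (nat_lit 2048) (.e (nat_lit 57849) (nat_lit 252) (.e (nat_lit 57386) (nat_lit 4) (.e (nat_lit 106534) (nat_lit 11) (.e (nat_lit 16464) (nat_lit 13) (.e (nat_lit 483393) (nat_lit 23) (.e (nat_lit 335986) (nat_lit 1) .nil)))))) (.g (nat_lit 4) .nil .nil))))) (.nd (nat_lit 4) (.nd (nat_lit 5) 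
(.lf (nat_lit 182860) (.g (nat_lit 2410) (.e (nat_lit 57849) (nat_lit 252) (.e (nat_lit 57379) (nat_lit 3) (.e (nat_lit 98317) (nat_lit 9) (.e (nat_lit 336223) (nat_lit 13) (.e (nat_lit 393229) (nat_lit 9) (.e (nat_lit 343808) (nat_lit 1) .nil)))))) (.g (nat_lit 5) .nil .nil))) 
(.lf (nat_lit 182892) (.g (nat_lit 2983) (.e (nat_lit 57849) (nat_lit 252) (.e (nat_lit 57385) (nat_lit 4) (.e (nat_lit 106536) (nat_lit 11) (.e (nat_lit 16438) (nat_lit 9) (.e (nat_lit 426542) (nat_lit 29) (.e (nat_lit 352309) (nat_lit 21) .nil)))))) (.g (nat_lit 0) .nil .nil)))) (.nd (nat_lit 5) 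
(.lf (nat_lit 182876) (.g (nat_lit 3755) (.e (nat_lit 57849) (nat_lit 252) (.e (nat_lit 57379) (nat_lit 3) (.e (nat_lit 98341) (nat_lit 20) (.e (nat_lit 221215) (nat_lit 23) (.e (nat_lit 204880) (nat_lit 32) (.e (nat_lit 385066) (nat_lit 26) (.e (nat_lit 532503) (nat_lit 1) .nil))))))) (.g (nat_lit 5) .nil .nil))) 
(.lf (nat_lit 182908) (.g (nat_lit 3488) (.e (nat_lit 57849) (nat_lit 252) (.e (nat_lit 57386) (nat_lit 4) (.e (nat_lit 106536) (nat_lit 11) (.e (nat_lit 16465) (nat_lit 13) (.e (nat_lit 483383) (nat_lit 23) (.e (nat_lit 336000) (nat_lit 1) .nil)))))) (.g (nat_lit 0) .nil .nil))))))) (.nd (nat_lit 2) (.nd (nat_lit 3) (.nd (nat_lit 4) (.nd (nat_lit 5) 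
(.lf (nat_lit 182850) (.g (nat_lit 2724) (.e (nat_lit 57849) (nat_lit 252) (.e (nat_lit 57379) (nat_lit 3) (.e (nat_lit 98317) (nat_lit 9) (.e (nat_lit 336213) (nat_lit 13) (.e (nat_lit 393229) (nat_lit 9) (.e (nat_lit 343808) (nat_lit 1) .nil)))))) (.g (nat_lit 5) .nil .nil))) 
(.lf (nat_lit 182882) (.g (nat_lit 659) (.e (nat_lit 57849) (nat_lit 252) (.e (nat_lit 57381) (nat_lit 4) (.e (nat_lit 106534) (nat_lit 11) (.e (nat_lit 16436) (nat_lit 9) .nil)))) .nil))) (.nd (nat_lit 5) 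
(.lf (nat_lit 182866) (.g (nat_lit 526) (.e (nat_lit 57849) (nat_lit 252) (.e (nat_lit 57379) (nat_lit 3) (.e (nat_lit 106240) (nat_lit 11) .nil))) .nil)) 
(.lf (nat_lit 182898) (.g (nat_lit 3083) (.e (nat_lit 57849) (nat_lit 252) (.e (nat_lit 57386) (nat_lit 4) (.e (nat_lit 106534) (nat_lit 11) (.e (nat_lit 16438) (nat_lit 9) (.e (nat_lit 426542) (nat_lit 29) (.e (nat_lit 352309) (nat_lit 21) .nil)))))) (.g (nat_lit 0) .nil .nil))))) (.nd (nat_lit 4) (.nd (nat_lit 5) 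
(.lf (nat_lit 182858) (.g (nat_lit 3218) (.e (nat_lit 57849) (nat_lit 252) (.e (nat_lit 57379) (nat_lit 3) (.e (nat_lit 98317) (nat_lit 9) (.e (nat_lit 336223) (nat_lit 13) (.e (nat_lit 393224) (nat_lit 9) (.e (nat_lit 335986) (nat_lit 1) .nil)))))) (.g (nat_lit 4) .nil .nil))) 
(.lf (nat_lit 182890) (.g (nat_lit 2709) (.e (nat_lit 57849) (nat_lit 252) (.e (nat_lit 57385) (nat_lit 4) (.e (nat_lit 106534) (nat_lit 11) (.e (nat_lit 16468) (nat_lit 13) (.e (nat_lit 483383) (nat_lit 23) (.e (nat_lit 336000) (nat_lit 1) .nil)))))) (.g (nat_lit 0) .nil .nil)))) (.nd (nat_lit 5) 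
(.lf (nat_lit 182874) (.g (nat_lit 1985) (.e (nat_lit 57849) (nat_lit 252) (.e (nat_lit 57379) (nat_lit 3) (.e (nat_lit 98341) (nat_lit 20) (.e (nat_lit 221212) (nat_lit 22) (.e (nat_lit 196632) (nat_lit 9) .nil))))) .nil)) 
(.lf (nat_lit 182906) (.g (nat_lit 3275) (.e (nat_lit 57849) (nat_lit 252) (.e (nat_lit 57386) (nat_lit 4) (.e (nat_lit 106536) (nat_lit 11) (.e (nat_lit 16438) (nat_lit 9) (.e (nat_lit 426542) (nat_lit 29) (.e (nat_lit 352309) (nat_lit 21) .nil)))))) (.g (nat_lit 0) .nil .nil)))))) (.nd (nat_lit 3) (.nd (nat_lit 4) (.nd (nat_lit 5) 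
(.lf (nat_lit 182854) (.g (nat_lit 1531) (.e (nat_lit 57849) (nat_lit 252) (.e (nat_lit 57379) (nat_lit 3) (.e (nat_lit 98317) (nat_lit 9) (.e (nat_lit 336222) (nat_lit 13) (.e (nat_lit 393224) (nat_lit 9) .nil))))) .nil)) 
(.lf (nat_lit 182886) (.g (nat_lit 2875) (.e (nat_lit 57849) (nat_lit 252) (.e (nat_lit 57385) (nat_lit 4) (.e (nat_lit 106534) (nat_lit 11) (.e (nat_lit 16434) (nat_lit 9) (.e (nat_lit 426555) (nat_lit 32) (.e (nat_lit 376857) (nat_lit 21) .nil)))))) (.g (nat_lit 5) .nil .nil)))) (.nd (nat_lit 5) 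
(.lf (nat_lit 182870) (.g (nat_lit 2063) (.e (nat_lit 57849) (nat_lit 252) (.e (nat_lit 57379) (nat_lit 3) (.e (nat_lit 98334) (nat_lit 18) (.e (nat_lit 164384) (nat_lit 254) .nil)))) .nil)) 
(.lf (nat_lit 182902) (.g (nat_lit 2910) (.e (nat_lit 57849) (nat_lit 252) (.e (nat_lit 57386) (nat_lit 4) (.e (nat_lit 106534) (nat_lit 11) (.e (nat_lit 16468) (nat_lit 13) (.e (nat_lit 483383) (nat_lit 23) (.e (nat_lit 336000) (nat_lit 1) .nil)))))) (.g (nat_lit 0) .nil .nil))))) (.nd (nat_lit 4) (.nd (nat_lit 5) 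
(.lf (nat_lit 182862) (.g (nat_lit 526) (.e (nat_lit 57849) (nat_lit 252) (.e (nat_lit 57379) (nat_lit 3) (.e (nat_lit 106240) (nat_lit 10) .nil))) .nil)) 
(.lf (nat_lit 182894) (.g (nat_lit 1404) (.e (nat_lit 57849) (nat_lit 252) (.e (nat_lit 57385) (nat_lit 4) (.e (nat_lit 106536) (nat_lit 11) (.e (nat_lit 16438) (nat_lit 9) (.e (nat_lit 426556) (nat_lit 32) .nil))))) .nil))) (.nd (nat_lit 5) 
(.lf (nat_lit 182878) (.g (nat_lit 2669) (.e (nat_lit 57849) (nat_lit 252) (.e (nat_lit 57379) (nat_lit 3) (.e (nat_lit 98342) (nat_lit 20) (.e (nat_lit 221212) (nat_lit 22) (.e (nat_lit 196665) (nat_lit 13) (.e (nat_lit 73472) (nat_lit 18) (.e (nat_lit 204829) (nat_lit 18) .nil))))))) (.g (nat_lit 4) .nil .nil))) 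
(.lf (nat_lit 182910) (.g (nat_lit 3107) (.e (nat_lit 57849) (nat_lit 252) (.e (nat_lit 57386) (nat_lit 4) (.e (nat_lit 106536) (nat_lit 11) (.e (nat_lit 16468) (nat_lit 13) (.e (nat_lit 483383) (nat_lit 23) (.e (nat_lit 336000) (nat_lit 1) .nil)))))) (.g (nat_lit 0) .nil .nil)))))))) (.nd (nat_lit 1) (.nd (nat_lit 2) (.nd (nat_lit 3) (.nd (nat_lit 4) (.nd (nat_lit 5) 
(.lf (nat_lit 182849) (.g (nat_lit 2995) (.e (nat_lit 57849) (nat_lit 252) (.e (nat_lit 57379) (nat_lit 3) (.e (nat_lit 98317) (nat_lit 9) (.e (nat_lit 336213) (nat_lit 13) (.e (nat_lit 393228) (nat_lit 9) .nil))))) .nil)) 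
(.lf (nat_lit 182881) (.g (nat_lit 3593) (.e (nat_lit 57849) (nat_lit 252) (.e (nat_lit 57379) (nat_lit 3) (.e (nat_lit 98342) (nat_lit 20) (.e (nat_lit 221215) (nat_lit 23) (.e (nat_lit 204880) (nat_lit 32) (.e (nat_lit 385066) (nat_lit 26) (.e (nat_lit 532503) (nat_lit 1) .nil))))))) (.g (nat_lit 5) .nil .nil)))) (.nd (nat_lit 5) 
(.lf (nat_lit 182865) (.g (nat_lit 4284) (.e (nat_lit 57849) (nat_lit 252) (.e (nat_lit 57379) (nat_lit 3) (.e (nat_lit 106240) (nat_lit 10) (.e (nat_lit 344133) (nat_lit 26) (.e (nat_lit 557105) (nat_lit 14) (.e (nat_lit 180252) (nat_lit 10) (.e (nat_lit 573451) (nat_lit 9) (.e (nat_lit 1177) (nat_lit 87) .nil)))))))) (.g (nat_lit 6) .nil .nil))) 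
(.lf (nat_lit 182897) (.g (nat_lit 2970) (.e (nat_lit 57849) (nat_lit 252) (.e (nat_lit 57386) (nat_lit 4) (.e (nat_lit 106534) (nat_lit 11) (.e (nat_lit 16434) (nat_lit 9) (.e (nat_lit 426555) (nat_lit 32) (.e (nat_lit 376859) (nat_lit 21) .nil)))))) (.g (nat_lit 5) .nil .nil))))) (.nd (nat_lit 4) (.nd (nat_lit 5) 
(.lf (nat_lit 182857) (.g (nat_lit 2915) (.e (nat_lit 57849) (nat_lit 252) (.e (nat_lit 57379) (nat_lit 3) (.e (nat_lit 98317) (nat_lit 9) (.e (nat_lit 336222) (nat_lit 13) (.e (nat_lit 393229) (nat_lit 9) (.e (nat_lit 335993) (nat_lit 1) .nil)))))) (.g (nat_lit 5) .nil .nil))) 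
(.lf (nat_lit 182889) (.g (nat_lit 1958) (.e (nat_lit 57849) (nat_lit 252) (.e (nat_lit 57385) (nat_lit 4) (.e (nat_lit 106534) (nat_lit 11) (.e (nat_lit 16464) (nat_lit 13) (.e (nat_lit 483393) (nat_lit 23) (.e (nat_lit 335986) (nat_lit 1) .nil)))))) (.g (nat_lit 4) .nil .nil)))) (.nd (nat_lit 5) 
(.lf (nat_lit 182873) (.g (nat_lit 484) (.e (nat_lit 57849) (nat_lit 252) (.e (nat_lit 57379) (nat_lit 3) (.e (nat_lit 98341) (nat_lit 20) .nil))) .nil)) 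
(.lf (nat_lit 182905) (.g (nat_lit 3183) (.e (nat_lit 57849) (nat_lit 252) (.e (nat_lit 57386) (nat_lit 4) (.e (nat_lit 106535) (nat_lit 11) (.e (nat_lit 16465) (nat_lit 13) (.e (nat_lit 483383) (nat_lit 23) (.e (nat_lit 336000) (nat_lit 1) .nil)))))) (.g (nat_lit 0) .nil .nil)))))) (.nd (nat_lit 3) (.nd (nat_lit 4) (.nd (nat_lit 5) 
(.lf (nat_lit 182853) (.g (nat_lit 1167) (.e (nat_lit 57849) (nat_lit 252) (.e (nat_lit 57379) (nat_lit 3) (.e (nat_lit 98317) (nat_lit 9) (.e (nat_lit 336221) (nat_lit 13) .nil)))) .nil)) 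
(.lf (nat_lit 182885) (.g (nat_lit 3057) (.e (nat_lit 57849) (nat_lit 252) (.e (nat_lit 57383) (nat_lit 4) (.e (nat_lit 106536) (nat_lit 11) (.e (nat_lit 16435) (nat_lit 9) (.e (nat_lit 426555) (nat_lit 32) (.e (nat_lit 376857) (nat_lit 21) .nil)))))) (.g (nat_lit 5) .nil .nil)))) (.nd (nat_lit 5) 
(.lf (nat_lit 182869) (.g (nat_lit 2250) (.e (nat_lit 57849) (nat_lit 252) (.e (nat_lit 57379) (nat_lit 3) (.e (nat_lit 98334) (nat_lit 18) (.e (nat_lit 164383) (nat_lit 254) (.e (nat_lit 1124) (nat_lit 83) .nil))))) .nil)) 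
(.lf (nat_lit 182901) (.g (nat_lit 2026) (.e (nat_lit 57849) (nat_lit 252) (.e (nat_lit 57386) (nat_lit 4) (.e (nat_lit 106534) (nat_lit 11) (.e (nat_lit 16465) (nat_lit 13) (.e (nat_lit 483393) (nat_lit 23) (.e (nat_lit 335986) (nat_lit 1) .nil)))))) (.g (nat_lit 4) .nil .nil))))) (.nd (nat_lit 4) (.nd (nat_lit 5) 
(.lf (nat_lit 182861) (.g (nat_lit 526) (.e (nat_lit 57849) (nat_lit 252) (.e (nat_lit 57379) (nat_lit 3) (.e (nat_lit 106240) (nat_lit 9) .nil))) .nil)) 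
(.lf (nat_lit 182893) (.g (nat_lit 3054) (.e (nat_lit 57849) (nat_lit 252) (.e (nat_lit 57385) (nat_lit 4) (.e (nat_lit 106536) (nat_lit 11) (.e (nat_lit 16438) (nat_lit 9) (.e (nat_lit 426555) (nat_lit 32) (.e (nat_lit 376859) (nat_lit 21) .nil)))))) (.g (nat_lit 0) .nil .nil)))) (.nd (nat_lit 5) 
(.lf (nat_lit 182877) (.g (nat_lit 2680) (.e (nat_lit 57849) (nat_lit 252) (.e (nat_lit 57379) (nat_lit 3) (.e (nat_lit 98342) (nat_lit 20) (.e (nat_lit 221212) (nat_lit 22) (.e (nat_lit 196664) (nat_lit 13) (.e (nat_lit 73472) (nat_lit 18) (.e (nat_lit 204829) (nat_lit 18) .nil))))))) (.g (nat_lit 4) .nil .nil))) 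
(.lf (nat_lit 182909) (.g (nat_lit 1616) (.e (nat_lit 57849) (nat_lit 252) (.e (nat_lit 57386) (nat_lit 4) (.e (nat_lit 106536) (nat_lit 11) (.e (nat_lit 16465) (nat_lit 13) (.e (nat_lit 483386) (nat_lit 23) .nil))))) .nil)))))) (.nd (nat_lit 2) (.nd (nat_lit 3) (.nd (nat_lit 4) (.nd (nat_lit 5) 
(.lf (nat_lit 182851) (.g (nat_lit 1188) (.e (nat_lit 57849) (nat_lit 252) (.e (nat_lit 57379) (nat_lit 3) (.e (nat_lit 98317) (nat_lit 9) (.e (nat_lit 336214) (nat_lit 13) .nil)))) .nil)) 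
(.lf (nat_lit 182883) (.g (nat_lit 2639) (.e (nat_lit 57849) (nat_lit 252) (.e (nat_lit 57381) (nat_lit 4) (.e (nat_lit 106536) (nat_lit 11) (.e (nat_lit 16435) (nat_lit 9) (.e (nat_lit 426555) (nat_lit 32) (.e (nat_lit 376859) (nat_lit 21) .nil)))))) (.g (nat_lit 4) .nil .nil)))) (.nd (nat_lit 5) 
(.lf (nat_lit 182867) (.g (nat_lit 526) (.e (nat_lit 57849) (nat_lit 252) (.e (nat_lit 57379) (nat_lit 3) (.e (nat_lit 106240) (nat_lit 14) .nil))) .nil)) 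
(.lf (nat_lit 182899) (.g (nat_lit 2314) (.e (nat_lit 57849) (nat_lit 252) (.e (nat_lit 57386) (nat_lit 4) (.e (nat_lit 106534) (nat_lit 11) (.e (nat_lit 16463) (nat_lit 13) (.e (nat_lit 483393) (nat_lit 23) (.e (nat_lit 335986) (nat_lit 1) .nil)))))) (.g (nat_lit 4) .nil .nil))))) (.nd (nat_lit 4) (.nd (nat_lit 5) 
(.lf (nat_lit 182859) (.g (nat_lit 1632) (.e (nat_lit 57849) (nat_lit 252) (.e (nat_lit 57379) (nat_lit 3) (.e (nat_lit 98317) (nat_lit 9) (.e (nat_lit 336223) (nat_lit 13) (.e (nat_lit 393227) (nat_lit 9) .nil))))) .nil)) 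
(.lf (nat_lit 182891) (.g (nat_lit 1494) (.e (nat_lit 57849) (nat_lit 252) (.e (nat_lit 57385) (nat_lit 4) (.e (nat_lit 106534) (nat_lit 11) (.e (nat_lit 16468) (nat_lit 13) (.e (nat_lit 483389) (nat_lit 23) (.e (nat_lit 335991) (nat_lit 1) .nil)))))) (.g (nat_lit 0) .nil .nil)))) (.nd (nat_lit 5) 
(.lf (nat_lit 182875) (.g (nat_lit 4259) (.e (nat_lit 57849) (nat_lit 252) (.e (nat_lit 57379) (nat_lit 3) (.e (nat_lit 98341) (nat_lit 20) (.e (nat_lit 221214) (nat_lit 23) (.e (nat_lit 204880) (nat_lit 32) (.e (nat_lit 385066) (nat_lit 26) (.e (nat_lit 532503) (nat_lit 1) .nil))))))) (.g (nat_lit 6) .nil .nil))) 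
(.lf (nat_lit 182907) (.g (nat_lit 3354) (.e (nat_lit 57849) (nat_lit 252) (.e (nat_lit 57386) (nat_lit 4) (.e (nat_lit 106536) (nat_lit 11) (.e (nat_lit 16438) (nat_lit 9) (.e (nat_lit 426555) (nat_lit 32) (.e (nat_lit 376859) (nat_lit 21) .nil)))))) (.g (nat_lit 0) .nil .nil)))))) (.nd (nat_lit 3) (.nd (nat_lit 4) (.nd (nat_lit 5) 
(.lf (nat_lit 182855) (.g (nat_lit 1981) (.e (nat_lit 57849) (nat_lit 252) (.e (nat_lit 57379) (nat_lit 3) (.e (nat_lit 98317) (nat_lit 9) (.e (nat_lit 336222) (nat_lit 13) (.e (nat_lit 393228) (nat_lit 9) (.e (nat_lit 335985) (nat_lit 1) .nil)))))) (.g (nat_lit 4) .nil .nil))) 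
(.lf (nat_lit 182887) (.g (nat_lit 2779) (.e (nat_lit 57849) (nat_lit 252) (.e (nat_lit 57385) (nat_lit 4) (.e (nat_lit 106534) (nat_lit 11) (.e (nat_lit 16434) (nat_lit 9) (.e (nat_lit 426555) (nat_lit 32) (.e (nat_lit 376859) (nat_lit 21) .nil)))))) (.g (nat_lit 5) .nil .nil)))) (.nd (nat_lit 5) 
(.lf (nat_lit 182871) (.g (nat_lit 2915) (.e (nat_lit 57849) (nat_lit 252) (.e (nat_lit 57379) (nat_lit 3) (.e (nat_lit 98334) (nat_lit 18) (.e (nat_lit 164398) (nat_lit 256) (.e (nat_lit 57588) (nat_lit 73) .nil))))) .nil)) 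
(.lf (nat_lit 182903) (.g (nat_lit 1954) (.e (nat_lit 57849) (nat_lit 252) (.e (nat_lit 57386) (nat_lit 4) (.e (nat_lit 106534) (nat_lit 11) (.e (nat_lit 16468) (nat_lit 13) (.e (nat_lit 483386) (nat_lit 23) (.e (nat_lit 335985) (nat_lit 1) .nil)))))) (.g (nat_lit 4) .nil .nil))))) (.nd (nat_lit 4) (.nd (nat_lit 5) 
(.lf (nat_lit 182863) (.g (nat_lit 4455) (.e (nat_lit 57849) (nat_lit 252) (.e (nat_lit 57379) (nat_lit 3) (.e (nat_lit 106240) (nat_lit 10) (.e (nat_lit 344133) (nat_lit 26) (.e (nat_lit 557105) (nat_lit 14) (.e (nat_lit 180252) (nat_lit 10) (.e (nat_lit 573449) (nat_lit 9) (.e (nat_lit 1183) (nat_lit 87) .nil)))))))) (.g (nat_lit 6) .nil .nil))) 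
(.lf (nat_lit 182895) (.g (nat_lit 2816) (.e (nat_lit 57849) (nat_lit 252) (.e (nat_lit 57385) (nat_lit 4) (.e (nat_lit 106536) (nat_lit 11) (.e (nat_lit 16468) (nat_lit 13) (.e (nat_lit 483383) (nat_lit 23) (.e (nat_lit 336000) (nat_lit 1) .nil)))))) (.g (nat_lit 0) .nil .nil)))) (.nd (nat_lit 5) 
(.lf (nat_lit 182879) (.g (nat_lit 1850) (.e (nat_lit 57849) (nat_lit 252) (.e (nat_lit 57379) (nat_lit 3) (.e (nat_lit 98342) (nat_lit 20) (.e (nat_lit 221213) (nat_lit 23) (.e (nat_lit 204852) (nat_lit 26) .nil))))) .nil)) 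
(.lf (nat_lit 182911) (.g (nat_lit 2091) (.e (nat_lit 57849) (nat_lit 252) (.e (nat_lit 57386) (nat_lit 4) (.e (nat_lit 106536) (nat_lit 11) (.e (nat_lit 16468) (nat_lit 13) (.e (nat_lit 483386) (nat_lit 23) (.e (nat_lit 335985) (nat_lit 1) .nil)))))) (.g (nat_lit 4) .nil .nil)))))))))

noncomputable def tv2441 : DT := (.nd (nat_lit 0) (.nd (nat_lit 1) (.nd (nat_lit 2) (.nd (nat_lit 3) (.nd (nat_lit 4) (.nd (nat_lit 5) 
(.lf (nat_lit 182912) (.g (nat_lit 1889) (.e (nat_lit 57849) (nat_lit 252) (.e (nat_lit 57386) (nat_lit 4) (.e (nat_lit 106536) (nat_lit 11) (.e (nat_lit 16468) (nat_lit 13) (.e (nat_lit 483389) (nat_lit 23) (.e (nat_lit 335991) (nat_lit 1) .nil)))))) (.g (nat_lit 0) .nil .nil))) 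
(.lf (nat_lit 182944) (.g (nat_lit 2478) (.e (nat_lit 57849) (nat_lit 252) (.e (nat_lit 57406) (nat_lit 12) (.e (nat_lit 336454) (nat_lit 34) (.e (nat_lit 483406) (nat_lit 26) .nil)))) .nil))) (.nd (nat_lit 5) 
(.lf (nat_lit 182928) (.g (nat_lit 4490) (.e (nat_lit 57849) (nat_lit 252) (.e (nat_lit 57390) (nat_lit 5) (.e (nat_lit 114711) (nat_lit 21) (.e (nat_lit 57848) (nat_lit 252) (.e (nat_lit 57407) (nat_lit 12) (.e (nat_lit 336019) (nat_lit 3) (.e (nat_lit 98341) (nat_lit 20) (.e (nat_lit 229120) (nat_lit 1) .nil)))))))) (.g (nat_lit 6) .nil .nil))) 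
(.lf (nat_lit 182960) (.g (nat_lit 746) (.e (nat_lit 57849) (nat_lit 252) (.e (nat_lit 57407) (nat_lit 12) (.e (nat_lit 336369) (nat_lit 27) .nil))) .nil)))) (.nd (nat_lit 4) (.nd (nat_lit 5) 
(.lf (nat_lit 182920) (.g (nat_lit 4076) (.e (nat_lit 57849) (nat_lit 252) (.e (nat_lit 57388) (nat_lit 5) (.e (nat_lit 114712) (nat_lit 21) (.e (nat_lit 57854) (nat_lit 252) (.e (nat_lit 57409) (nat_lit 12) (.e (nat_lit 336019) (nat_lit 3) (.e (nat_lit 98342) (nat_lit 20) (.e (nat_lit 229120) (nat_lit 1) .nil)))))))) (.g (nat_lit 5) .nil .nil))) 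
(.lf (nat_lit 182952) (.g (nat_lit 1646) (.e (nat_lit 57849) (nat_lit 252) (.e (nat_lit 57407) (nat_lit 12) (.e (nat_lit 336211) (nat_lit 13) (.e (nat_lit 393294) (nat_lit 26) (.e (nat_lit 475213) (nat_lit 42) .nil))))) .nil))) (.nd (nat_lit 5) 
(.lf (nat_lit 182936) (.g (nat_lit 5713) (.e (nat_lit 57849) (nat_lit 252) (.e (nat_lit 57390) (nat_lit 5) (.e (nat_lit 114712) (nat_lit 21) (.e (nat_lit 57854) (nat_lit 252) (.e (nat_lit 57409) (nat_lit 12) (.e (nat_lit 336019) (nat_lit 3) (.e (nat_lit 98341) (nat_lit 20) (.e (nat_lit 229120) (nat_lit 1) .nil)))))))) (.g (nat_lit 7) .nil .nil))) 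
(.lf (nat_lit 182968) (.g (nat_lit 1002) (.e (nat_lit 57849) (nat_lit 252) (.e (nat_lit 57407) (nat_lit 12) (.e (nat_lit 336399) (nat_lit 27) (.e (nat_lit 426523) (nat_lit 27) .nil)))) .nil))))) (.nd (nat_lit 3) (.nd (nat_lit 4) (.nd (nat_lit 5) 
(.lf (nat_lit 182916) (.g (nat_lit 2457) (.e (nat_lit 57849) (nat_lit 252) (.e (nat_lit 57388) (nat_lit 5) (.e (nat_lit 114710) (nat_lit 21) (.e (nat_lit 57830) (nat_lit 250) (.e (nat_lit 1214) (nat_lit 89) (.e (nat_lit 73746) (nat_lit 3) (.e (nat_lit 516129) (nat_lit 3) (.e (nat_lit 229120) (nat_lit 1) .nil)))))))) (.g (nat_lit 4) .nil .nil))) 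
(.lf (nat_lit 182948) (.g (nat_lit 2670) (.e (nat_lit 57849) (nat_lit 252) (.e (nat_lit 57407) (nat_lit 12) (.e (nat_lit 336211) (nat_lit 13) (.e (nat_lit 393291) (nat_lit 26) (.e (nat_lit 475205) (nat_lit 40) (.e (nat_lit 704606) (nat_lit 9) (.e (nat_lit 1176) (nat_lit 87) .nil))))))) (.g (nat_lit 4) .nil .nil)))) (.nd (nat_lit 5) 
(.lf (nat_lit 182932) (.g (nat_lit 3514) (.e (nat_lit 57849) (nat_lit 252) (.e (nat_lit 57390) (nat_lit 5) (.e (nat_lit 114711) (nat_lit 21) (.e (nat_lit 57849) (nat_lit 252) (.e (nat_lit 57411) (nat_lit 12) (.e (nat_lit 336019) (nat_lit 3) (.e (nat_lit 98341) (nat_lit 20) (.e (nat_lit 229120) (nat_lit 1) .nil)))))))) (.g (nat_lit 5) .nil .nil))) 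
(.lf (nat_lit 182964) (.g (nat_lit 746) (.e (nat_lit 57849) (nat_lit 252) (.e (nat_lit 57407) (nat_lit 12) (.e (nat_lit 336374) (nat_lit 27) .nil))) .nil)))) (.nd (nat_lit 4) (.nd (nat_lit 5) 
(.lf (nat_lit 182924) (.g (nat_lit 3646) (.e (nat_lit 57849) (nat_lit 252) (.e (nat_lit 57390) (nat_lit 5) (.e (nat_lit 114711) (nat_lit 21) (.e (nat_lit 57847) (nat_lit 252) (.e (nat_lit 57411) (nat_lit 12) (.e (nat_lit 336019) (nat_lit 3) (.e (nat_lit 98341) (nat_lit 20) (.e (nat_lit 229120) (nat_lit 1) .nil)))))))) (.g (nat_lit 5) .nil .nil))) 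
(.lf (nat_lit 182956) (.g (nat_lit 3301) (.e (nat_lit 57849) (nat_lit 252) (.e (nat_lit 57407) (nat_lit 12) (.e (nat_lit 336366) (nat_lit 27) (.e (nat_lit 426499) (nat_lit 27) (.e (nat_lit 336196) (nat_lit 12) (.e (nat_lit 385066) (nat_lit 26) (.e (nat_lit 532499) (nat_lit 1) .nil))))))) (.g (nat_lit 4) .nil .nil)))) (.nd (nat_lit 5) 
(.lf (nat_lit 182940) (.g (nat_lit 2378) (.e (nat_lit 57849) (nat_lit 252) (.e (nat_lit 57404) (nat_lit 12) (.e (nat_lit 336060) (nat_lit 7) (.e (nat_lit 319534) (nat_lit 16) (.e (nat_lit 286756) (nat_lit 10) (.e (nat_lit 344097) (nat_lit 18) (.e (nat_lit 5195) (nat_lit 294) (.e (nat_lit 57367) (nat_lit 1) .nil)))))))) (.g (nat_lit 4) .nil .nil))) 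
(.lf (nat_lit 182972) (.g (nat_lit 4153) (.e (nat_lit 57849) (nat_lit 252) (.e (nat_lit 57407) (nat_lit 12) (.e (nat_lit 336454) (nat_lit 34) (.e (nat_lit 483383) (nat_lit 23) (.e (nat_lit 336324) (nat_lit 18) (.e (nat_lit 204831) (nat_lit 18) .nil)))))) (.g (nat_lit 0) .nil .nil))))))) (.nd (nat_lit 2) (.nd (nat_lit 3) (.nd (nat_lit 4) (.nd (nat_lit 5) 
(.lf (nat_lit 182914) (.g (nat_lit 1544) (.e (nat_lit 57849) (nat_lit 252) (.e (nat_lit 57388) (nat_lit 5) (.e (nat_lit 114698) (nat_lit 11) (.e (nat_lit 426196) (nat_lit 9) .nil)))) .nil)) 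
(.lf (nat_lit 182946) (.g (nat_lit 2429) (.e (nat_lit 57849) (nat_lit 252) (.e (nat_lit 57407) (nat_lit 12) (.e (nat_lit 336211) (nat_lit 13) (.e (nat_lit 393268) (nat_lit 23) (.e (nat_lit 426446) (nat_lit 20) (.e (nat_lit 114711) (nat_lit 21) .nil)))))) (.g (nat_lit 4) .nil .nil)))) (.nd (nat_lit 5) 
(.lf (nat_lit 182930) (.g (nat_lit 3465) (.e (nat_lit 57849) (nat_lit 252) (.e (nat_lit 57390) (nat_lit 5) (.e (nat_lit 114711) (nat_lit 21) (.e (nat_lit 57848) (nat_lit 252) (.e (nat_lit 57411) (nat_lit 12) (.e (nat_lit 336019) (nat_lit 3) (.e (nat_lit 98341) (nat_lit 20) (.e (nat_lit 229120) (nat_lit 1) .nil)))))))) (.g (nat_lit 6) .nil .nil))) 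
(.lf (nat_lit 182962) (.g (nat_lit 4120) (.e (nat_lit 57849) (nat_lit 252) (.e (nat_lit 57407) (nat_lit 12) (.e (nat_lit 336370) (nat_lit 27) (.e (nat_lit 426499) (nat_lit 27) (.e (nat_lit 336196) (nat_lit 12) (.e (nat_lit 385066) (nat_lit 26) (.e (nat_lit 532499) (nat_lit 1) .nil))))))) (.g (nat_lit 5) .nil .nil))))) (.nd (nat_lit 4) (.nd (nat_lit 5) 
(.lf (nat_lit 182922) (.g (nat_lit 6363) (.e (nat_lit 57849) (nat_lit 252) (.e (nat_lit 57390) (nat_lit 5) (.e (nat_lit 114711) (nat_lit 21) (.e (nat_lit 57847) (nat_lit 252) (.e (nat_lit 57407) (nat_lit 12) (.e (nat_lit 336019) (nat_lit 3) (.e (nat_lit 98341) (nat_lit 20) (.e (nat_lit 229120) (nat_lit 1) .nil)))))))) (.g (nat_lit 7) .nil .nil))) 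
(.lf (nat_lit 182954) (.g (nat_lit 746) (.e (nat_lit 57849) (nat_lit 252) (.e (nat_lit 57407) (nat_lit 12) (.e (nat_lit 343808) (nat_lit 13) .nil))) .nil))) (.nd (nat_lit 5) 
(.lf (nat_lit 182938) (.g (nat_lit 2104) (.e (nat_lit 57849) (nat_lit 252) (.e (nat_lit 57404) (nat_lit 12) (.e (nat_lit 336060) (nat_lit 7) (.e (nat_lit 319533) (nat_lit 16) (.e (nat_lit 286753) (nat_lit 10) (.e (nat_lit 344097) (nat_lit 18) (.e (nat_lit 5195) (nat_lit 294) (.e (nat_lit 57363) (nat_lit 1) .nil)))))))) (.g (nat_lit 4) .nil .nil))) 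
(.lf (nat_lit 182970) (.g (nat_lit 1956) (.e (nat_lit 57849) (nat_lit 252) (.e (nat_lit 57407) (nat_lit 12) (.e (nat_lit 336454) (nat_lit 34) (.e (nat_lit 483381) (nat_lit 23) .nil)))) .nil))))) (.nd (nat_lit 3) (.nd (nat_lit 4) (.nd (nat_lit 5) 
(.lf (nat_lit 182918) (.g (nat_lit 3110) (.e (nat_lit 57849) (nat_lit 252) (.e (nat_lit 57388) (nat_lit 5) (.e (nat_lit 114711) (nat_lit 21) (.e (nat_lit 57847) (nat_lit 252) (.e (nat_lit 57432) (nat_lit 16) (.e (nat_lit 368676) (nat_lit 21) (.e (nat_lit 516129) (nat_lit 3) (.e (nat_lit 229120) (nat_lit 1) .nil)))))))) (.g (nat_lit 5) .nil .nil))) 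
(.lf (nat_lit 182950) (.g (nat_lit 1997) (.e (nat_lit 57849) (nat_lit 252) (.e (nat_lit 57407) (nat_lit 12) (.e (nat_lit 336211) (nat_lit 13) (.e (nat_lit 393291) (nat_lit 26) (.e (nat_lit 475214) (nat_lit 42) (.e (nat_lit 728832) (nat_lit 21) .nil)))))) (.g (nat_lit 4) .nil .nil)))) (.nd (nat_lit 5) 
(.lf (nat_lit 182934) (.g (nat_lit 4503) (.e (nat_lit 57849) (nat_lit 252) (.e (nat_lit 57390) (nat_lit 5) (.e (nat_lit 114712) (nat_lit 21) (.e (nat_lit 57830) (nat_lit 250) (.e (nat_lit 1214) (nat_lit 89) (.e (nat_lit 73746) (nat_lit 3) (.e (nat_lit 516129) (nat_lit 3) (.e (nat_lit 229120) (nat_lit 1) .nil)))))))) (.g (nat_lit 7) .nil .nil))) 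
(.lf (nat_lit 182966) (.g (nat_lit 1088) (.e (nat_lit 57849) (nat_lit 252) (.e (nat_lit 57407) (nat_lit 12) (.e (nat_lit 336392) (nat_lit 27) (.e (nat_lit 426500) (nat_lit 27) .nil)))) .nil)))) (.nd (nat_lit 4) (.nd (nat_lit 5) 
(.lf (nat_lit 182926) (.g (nat_lit 4398) (.e (nat_lit 57849) (nat_lit 252) (.e (nat_lit 57390) (nat_lit 5) (.e (nat_lit 114711) (nat_lit 21) (.e (nat_lit 57847) (nat_lit 252) (.e (nat_lit 57430) (nat_lit 16) (.e (nat_lit 368676) (nat_lit 21) (.e (nat_lit 516129) (nat_lit 3) (.e (nat_lit 229120) (nat_lit 1) .nil)))))))) (.g (nat_lit 7) .nil .nil))) 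
(.lf (nat_lit 182958) (.g (nat_lit 746) (.e (nat_lit 57849) (nat_lit 252) (.e (nat_lit 57407) (nat_lit 12) (.e (nat_lit 336368) (nat_lit 27) .nil))) .nil))) (.nd (nat_lit 5) 
(.lf (nat_lit 182942) (.g (nat_lit 2443) (.e (nat_lit 57849) (nat_lit 252) (.e (nat_lit 57406) (nat_lit 12) (.e (nat_lit 336454) (nat_lit 34) (.e (nat_lit 483383) (nat_lit 23) .nil)))) .nil)) 
(.lf (nat_lit 182974) (.g (nat_lit 3615) (.e (nat_lit 57849) (nat_lit 252) (.e (nat_lit 57407) (nat_lit 12) (.e (nat_lit 336454) (nat_lit 34) (.e (nat_lit 483403) (nat_lit 26) (.e (nat_lit 385066) (nat_lit 26) (.e (nat_lit 532502) (nat_lit 1) .nil)))))) (.g (nat_lit 0) .nil .nil)))))))) (.nd (nat_lit 1) (.nd (nat_lit 2) (.nd (nat_lit 3) (.nd (nat_lit 4) (.nd (nat_lit 5) 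
(.lf (nat_lit 182913) (.g (nat_lit 1582) (.e (nat_lit 57849) (nat_lit 252) (.e (nat_lit 57388) (nat_lit 5) (.e (nat_lit 114698) (nat_lit 11) (.e (nat_lit 426186) (nat_lit 9) .nil)))) .nil)) 
(.lf (nat_lit 182945) (.g (nat_lit 2296) (.e (nat_lit 57849) (nat_lit 252) (.e (nat_lit 57407) (nat_lit 12) (.e (nat_lit 336211) (nat_lit 13) (.e (nat_lit 393268) (nat_lit 23) (.e (nat_lit 426446) (nat_lit 20) (.e (nat_lit 114710) (nat_lit 21) .nil)))))) (.g (nat_lit 4) .nil .nil)))) (.nd (nat_lit 5) 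
(.lf (nat_lit 182929) (.g (nat_lit 4338) (.e (nat_lit 57849) (nat_lit 252) (.e (nat_lit 57390) (nat_lit 5) (.e (nat_lit 114711) (nat_lit 21) (.e (nat_lit 57848) (nat_lit 252) (.e (nat_lit 57407) (nat_lit 12) (.e (nat_lit 336019) (nat_lit 3) (.e (nat_lit 98342) (nat_lit 20) (.e (nat_lit 229120) (nat_lit 1) .nil)))))))) (.g (nat_lit 6) .nil .nil))) 
(.lf (nat_lit 182961) (.g (nat_lit 2871) (.e (nat_lit 57849) (nat_lit 252) (.e (nat_lit 57407) (nat_lit 12) (.e (nat_lit 336369) (nat_lit 27) (.e (nat_lit 426499) (nat_lit 27) (.e (nat_lit 336078) (nat_lit 9) .nil))))) .nil)))) (.nd (nat_lit 4) (.nd (nat_lit 5) 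
(.lf (nat_lit 182921) (.g (nat_lit 2695) (.e (nat_lit 57849) (nat_lit 252) (.e (nat_lit 57390) (nat_lit 5) (.e (nat_lit 114710) (nat_lit 21) (.e (nat_lit 57830) (nat_lit 250) (.e (nat_lit 1214) (nat_lit 89) (.e (nat_lit 73746) (nat_lit 3) (.e (nat_lit 516129) (nat_lit 3) (.e (nat_lit 229120) (nat_lit 1) .nil)))))))) (.g (nat_lit 4) .nil .nil))) 
(.lf (nat_lit 182953) (.g (nat_lit 3043) (.e (nat_lit 57849) (nat_lit 252) (.e (nat_lit 57407) (nat_lit 12) (.e (nat_lit 336211) (nat_lit 13) (.e (nat_lit 393294) (nat_lit 26) (.e (nat_lit 475214) (nat_lit 42) (.e (nat_lit 720932) (nat_lit 21) .nil)))))) (.g (nat_lit 5) .nil .nil)))) (.nd (nat_lit 5) 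
(.lf (nat_lit 182937) (.g (nat_lit 5621) (.e (nat_lit 57849) (nat_lit 252) (.e (nat_lit 57390) (nat_lit 5) (.e (nat_lit 114712) (nat_lit 21) (.e (nat_lit 57854) (nat_lit 252) (.e (nat_lit 57409) (nat_lit 12) (.e (nat_lit 336019) (nat_lit 3) (.e (nat_lit 98342) (nat_lit 20) (.e (nat_lit 229120) (nat_lit 1) .nil)))))))) (.g (nat_lit 7) .nil .nil))) 
(.lf (nat_lit 182969) (.g (nat_lit 1975) (.e (nat_lit 57849) (nat_lit 252) (.e (nat_lit 57407) (nat_lit 12) (.e (nat_lit 336414) (nat_lit 27) (.e (nat_lit 426503) (nat_lit 27) (.e (nat_lit 336078) (nat_lit 9) .nil))))) .nil))))) (.nd (nat_lit 3) (.nd (nat_lit 4) (.nd (nat_lit 5) 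
(.lf (nat_lit 182917) (.g (nat_lit 2441) (.e (nat_lit 57849) (nat_lit 252) (.e (nat_lit 57388) (nat_lit 5) (.e (nat_lit 114711) (nat_lit 21) (.e (nat_lit 57847) (nat_lit 252) (.e (nat_lit 57430) (nat_lit 16) (.e (nat_lit 368676) (nat_lit 21) (.e (nat_lit 516131) (nat_lit 3) (.e (nat_lit 229120) (nat_lit 1) .nil)))))))) (.g (nat_lit 4) .nil .nil))) 
(.lf (nat_lit 182949) (.g (nat_lit 2951) (.e (nat_lit 57849) (nat_lit 252) (.e (nat_lit 57407) (nat_lit 12) (.e (nat_lit 336211) (nat_lit 13) (.e (nat_lit 393291) (nat_lit 26) (.e (nat_lit 475214) (nat_lit 42) (.e (nat_lit 720932) (nat_lit 21) .nil)))))) (.g (nat_lit 5) .nil .nil)))) (.nd (nat_lit 5) 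
(.lf (nat_lit 182933) (.g (nat_lit 3346) (.e (nat_lit 57849) (nat_lit 252) (.e (nat_lit 57390) (nat_lit 5) (.e (nat_lit 114711) (nat_lit 21) (.e (nat_lit 57849) (nat_lit 252) (.e (nat_lit 57411) (nat_lit 12) (.e (nat_lit 336019) (nat_lit 3) (.e (nat_lit 98342) (nat_lit 20) (.e (nat_lit 229120) (nat_lit 1) .nil)))))))) (.g (nat_lit 5) .nil .nil))) 
(.lf (nat_lit 182965) (.g (nat_lit 746) (.e (nat_lit 57849) (nat_lit 252) (.e (nat_lit 57407) (nat_lit 12) (.e (nat_lit 336375) (nat_lit 27) .nil))) .nil)))) (.nd (nat_lit 4) (.nd (nat_lit 5) 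
(.lf (nat_lit 182925) (.g (nat_lit 3478) (.e (nat_lit 57849) (nat_lit 252) (.e (nat_lit 57390) (nat_lit 5) (.e (nat_lit 114711) (nat_lit 21) (.e (nat_lit 57847) (nat_lit 252) (.e (nat_lit 57411) (nat_lit 12) (.e (nat_lit 336019) (nat_lit 3) (.e (nat_lit 98342) (nat_lit 20) (.e (nat_lit 229120) (nat_lit 1) .nil)))))))) (.g (nat_lit 5) .nil .nil))) 
(.lf (nat_lit 182957) (.g (nat_lit 2163) (.e (nat_lit 57849) (nat_lit 252) (.e (nat_lit 57407) (nat_lit 12) (.e (nat_lit 336367) (nat_lit 27) (.e (nat_lit 426530) (nat_lit 27) (.e (nat_lit 336119) (nat_lit 9) (.e (nat_lit 336323) (nat_lit 18) (.e (nat_lit 204831) (nat_lit 18) .nil))))))) (.g (nat_lit 4) .nil .nil)))) (.nd (nat_lit 5) 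
(.lf (nat_lit 182941) (.g (nat_lit 2809) (.e (nat_lit 57849) (nat_lit 252) (.e (nat_lit 57406) (nat_lit 12) (.e (nat_lit 336454) (nat_lit 34) (.e (nat_lit 483382) (nat_lit 23) .nil)))) .nil)) 
(.lf (nat_lit 182973) (.g (nat_lit 2189) (.e (nat_lit 57849) (nat_lit 252) (.e (nat_lit 57407) (nat_lit 12) (.e (nat_lit 336454) (nat_lit 34) (.e (nat_lit 483402) (nat_lit 26) (.e (nat_lit 385066) (nat_lit 26) .nil))))) .nil)))))) (.nd (nat_lit 2) (.nd (nat_lit 3) (.nd (nat_lit 4) (.nd (nat_lit 5) 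
(.lf (nat_lit 182915) (.g (nat_lit 1852) (.e (nat_lit 57849) (nat_lit 252) (.e (nat_lit 57388) (nat_lit 5) (.e (nat_lit 114698) (nat_lit 11) (.e (nat_lit 426199) (nat_lit 9) (.e (nat_lit 426556) (nat_lit 32) .nil))))) .nil)) 
(.lf (nat_lit 182947) (.g (nat_lit 1808) (.e (nat_lit 57849) (nat_lit 252) (.e (nat_lit 57407) (nat_lit 12) (.e (nat_lit 336211) (nat_lit 13) (.e (nat_lit 393268) (nat_lit 23) (.e (nat_lit 426448) (nat_lit 20) (.e (nat_lit 122624) (nat_lit 21) .nil)))))) (.g (nat_lit 4) .nil .nil)))) (.nd (nat_lit 5) 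
(.lf (nat_lit 182931) (.g (nat_lit 3297) (.e (nat_lit 57849) (nat_lit 252) (.e (nat_lit 57390) (nat_lit 5) (.e (nat_lit 114711) (nat_lit 21) (.e (nat_lit 57848) (nat_lit 252) (.e (nat_lit 57411) (nat_lit 12) (.e (nat_lit 336019) (nat_lit 3) (.e (nat_lit 98342) (nat_lit 20) (.e (nat_lit 229120) (nat_lit 1) .nil)))))))) (.g (nat_lit 5) .nil .nil))) 
(.lf (nat_lit 182963) (.g (nat_lit 746) (.e (nat_lit 57849) (nat_lit 252) (.e (nat_lit 57407) (nat_lit 12) (.e (nat_lit 336372) (nat_lit 27) .nil))) .nil)))) (.nd (nat_lit 4) (.nd (nat_lit 5) 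
(.lf (nat_lit 182923) (.g (nat_lit 6254) (.e (nat_lit 57849) (nat_lit 252) (.e (nat_lit 57390) (nat_lit 5) (.e (nat_lit 114711) (nat_lit 21) (.e (nat_lit 57847) (nat_lit 252) (.e (nat_lit 57407) (nat_lit 12) (.e (nat_lit 336019) (nat_lit 3) (.e (nat_lit 98342) (nat_lit 20) (.e (nat_lit 229120) (nat_lit 1) .nil)))))))) (.g (nat_lit 7) .nil .nil))) 
(.lf (nat_lit 182955) (.g (nat_lit 4502) (.e (nat_lit 57849) (nat_lit 252) (.e (nat_lit 57407) (nat_lit 12) (.e (nat_lit 336326) (nat_lit 18) (.e (nat_lit 204877) (nat_lit 31) (.e (nat_lit 376860) (nat_lit 21) (.e (nat_lit 57692) (nat_lit 156) (.e (nat_lit 171776) (nat_lit 62) .nil))))))) (.g (nat_lit 6) .nil .nil)))) (.nd (nat_lit 5) 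
(.lf (nat_lit 182939) (.g (nat_lit 2484) (.e (nat_lit 57849) (nat_lit 252) (.e (nat_lit 57404) (nat_lit 12) (.e (nat_lit 336060) (nat_lit 7) (.e (nat_lit 319534) (nat_lit 16) (.e (nat_lit 286756) (nat_lit 10) (.e (nat_lit 344097) (nat_lit 18) (.e (nat_lit 5195) (nat_lit 294) (.e (nat_lit 57363) (nat_lit 1) .nil)))))))) (.g (nat_lit 4) .nil .nil))) 
(.lf (nat_lit 182971) (.g (nat_lit 1216) (.e (nat_lit 57849) (nat_lit 252) (.e (nat_lit 57407) (nat_lit 12) (.e (nat_lit 336454) (nat_lit 34) (.e (nat_lit 483383) (nat_lit 23) .nil)))) .nil))))) (.nd (nat_lit 3) (.nd (nat_lit 4) (.nd (nat_lit 5) 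
(.lf (nat_lit 182919) (.g (nat_lit 2529) (.e (nat_lit 57849) (nat_lit 252) (.e (nat_lit 57388) (nat_lit 5) (.e (nat_lit 114711) (nat_lit 21) (.e (nat_lit 57847) (nat_lit 252) (.e (nat_lit 57432) (nat_lit 16) (.e (nat_lit 368676) (nat_lit 21) (.e (nat_lit 516131) (nat_lit 3) (.e (nat_lit 229120) (nat_lit 1) .nil)))))))) (.g (nat_lit 4) .nil .nil))) 
(.lf (nat_lit 182951) (.g (nat_lit 2692) (.e (nat_lit 57849) (nat_lit 252) (.e (nat_lit 57407) (nat_lit 12) (.e (nat_lit 336211) (nat_lit 13) (.e (nat_lit 393292) (nat_lit 26) (.e (nat_lit 475214) (nat_lit 42) (.e (nat_lit 720929) (nat_lit 21) .nil)))))) (.g (nat_lit 5) .nil .nil)))) (.nd (nat_lit 5) 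
(.lf (nat_lit 182935) (.g (nat_lit 2588) (.e (nat_lit 57849) (nat_lit 252) (.e (nat_lit 57390) (nat_lit 5) (.e (nat_lit 114712) (nat_lit 21) (.e (nat_lit 57852) (nat_lit 252) (.e (nat_lit 57409) (nat_lit 12) (.e (nat_lit 336019) (nat_lit 3) (.e (nat_lit 98342) (nat_lit 20) (.e (nat_lit 229120) (nat_lit 1) .nil)))))))) (.g (nat_lit 4) .nil .nil))) 
(.lf (nat_lit 182967) (.g (nat_lit 1088) (.e (nat_lit 57849) (nat_lit 252) (.e (nat_lit 57407) (nat_lit 12) (.e (nat_lit 336392) (nat_lit 27) (.e (nat_lit 426523) (nat_lit 27) .nil)))) .nil)))) (.nd (nat_lit 4) (.nd (nat_lit 5) 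
(.lf (nat_lit 182927) (.g (nat_lit 4202) (.e (nat_lit 57849) (nat_lit 252) (.e (nat_lit 57390) (nat_lit 5) (.e (nat_lit 114711) (nat_lit 21) (.e (nat_lit 57847) (nat_lit 252) (.e (nat_lit 57432) (nat_lit 16) (.e (nat_lit 368676) (nat_lit 21) (.e (nat_lit 516129) (nat_lit 3) (.e (nat_lit 229120) (nat_lit 1) .nil)))))))) (.g (nat_lit 7) .nil .nil))) 
(.lf (nat_lit 182959) (.g (nat_lit 2069) (.e (nat_lit 57849) (nat_lit 252) (.e (nat_lit 57407) (nat_lit 12) (.e (nat_lit 336368) (nat_lit 27) (.e (nat_lit 426499) (nat_lit 27) (.e (nat_lit 336078) (nat_lit 9) .nil))))) .nil))) (.nd (nat_lit 5) 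
(.lf (nat_lit 182943) (.g (nat_lit 2669) (.e (nat_lit 57849) (nat_lit 252) (.e (nat_lit 57406) (nat_lit 12) (.e (nat_lit 336454) (nat_lit 34) (.e (nat_lit 483403) (nat_lit 26) .nil)))) .nil)) 
(.lf (nat_lit 182975) (.g (nat_lit 2411) (.e (nat_lit 57849) (nat_lit 252) (.e (nat_lit 57407) (nat_lit 12) (.e (nat_lit 336454) (nat_lit 34) (.e (nat_lit 483404) (nat_lit 26) (.e (nat_lit 385066) (nat_lit 26) .nil))))) .nil))))))))

noncomputable def tv2442 : DT := (.nd (nat_lit 0) (.nd (nat_lit 1) (.nd (nat_lit 2) (.nd (nat_lit 3) (.nd (nat_lit 4) (.nd (nat_lit 5) 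
(.lf (nat_lit 182976) (.g (nat_lit 1915) (.e (nat_lit 57849) (nat_lit 252) (.e (nat_lit 57407) (nat_lit 12) (.e (nat_lit 336454) (nat_lit 34) (.e (nat_lit 483405) (nat_lit 26) (.e (nat_lit 385065) (nat_lit 26) .nil))))) .nil)) 
(.lf (nat_lit 183008) (.g (nat_lit 2498) (.e (nat_lit 57849) (nat_lit 252) (.e (nat_lit 57411) (nat_lit 12) (.e (nat_lit 336211) (nat_lit 13) (.e (nat_lit 393268) (nat_lit 23) (.e (nat_lit 426448) (nat_lit 20) (.e (nat_lit 122624) (nat_lit 21) .nil)))))) (.g (nat_lit 5) .nil .nil)))) (.nd (nat_lit 5) 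
(.lf (nat_lit 182992) (.g (nat_lit 1861) (.e (nat_lit 57849) (nat_lit 252) (.e (nat_lit 57407) (nat_lit 12) (.e (nat_lit 336456) (nat_lit 34) (.e (nat_lit 483407) (nat_lit 26) .nil)))) .nil)) 
(.lf (nat_lit 183024) (.g (nat_lit 788) (.e (nat_lit 57849) (nat_lit 252) (.e (nat_lit 57411) (nat_lit 12) (.e (nat_lit 343808) (nat_lit 13) .nil))) .nil)))) (.nd (nat_lit 4) (.nd (nat_lit 5) 
(.lf (nat_lit 182984) (.g (nat_lit 3984) (.e (nat_lit 57849) (nat_lit 252) (.e (nat_lit 57407) (nat_lit 12) (.e (nat_lit 336456) (nat_lit 34) (.e (nat_lit 483383) (nat_lit 23) (.e (nat_lit 336324) (nat_lit 18) (.e (nat_lit 204829) (nat_lit 18) .nil)))))) (.g (nat_lit 5) .nil .nil))) 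
(.lf (nat_lit 183016) (.g (nat_lit 1202) (.e (nat_lit 57849) (nat_lit 252) (.e (nat_lit 57411) (nat_lit 12) (.e (nat_lit 336211) (nat_lit 13) (.e (nat_lit 393280) (nat_lit 23) .nil)))) .nil))) (.nd (nat_lit 5) 
(.lf (nat_lit 183000) (.g (nat_lit 788) (.e (nat_lit 57849) (nat_lit 252) (.e (nat_lit 57411) (nat_lit 12) (.e (nat_lit 336019) (nat_lit 3) .nil))) .nil)) 
(.lf (nat_lit 183032) (.g (nat_lit 2828) (.e (nat_lit 57849) (nat_lit 252) (.e (nat_lit 57412) (nat_lit 12) (.e (nat_lit 336060) (nat_lit 7) (.e (nat_lit 319533) (nat_lit 16) (.e (nat_lit 286753) (nat_lit 10) (.e (nat_lit 344097) (nat_lit 18) (.e (nat_lit 5195) (nat_lit 294) (.e (nat_lit 57363) (nat_lit 1) .nil)))))))) (.g (nat_lit 4) .nil .nil)))))) 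
(.nd (nat_lit 3) (.nd (nat_lit 4) (.nd (nat_lit 5) 
(.lf (nat_lit 182980) (.g (nat_lit 4034) (.e (nat_lit 57849) (nat_lit 252) (.e (nat_lit 57407) (nat_lit 12) (.e (nat_lit 336454) (nat_lit 34) (.e (nat_lit 483408) (nat_lit 26) (.e (nat_lit 385068) (nat_lit 26) (.e (nat_lit 532499) (nat_lit 1) .nil)))))) (.g (nat_lit 6) .nil .nil))) 
(.lf (nat_lit 183012) (.g (nat_lit 2627) (.e (nat_lit 57849) (nat_lit 252) (.e (nat_lit 57411) (nat_lit 12) (.e (nat_lit 336211) (nat_lit 13) (.e (nat_lit 393273) (nat_lit 23) (.e (nat_lit 426364) (nat_lit 15) (.e (nat_lit 2184) (nat_lit 144) (.e (nat_lit 720933) (nat_lit 21) .nil))))))) (.g (nat_lit 4) .nil .nil)))) (.nd (nat_lit 5) 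
(.lf (nat_lit 182996) (.g (nat_lit 1416) (.e (nat_lit 57849) (nat_lit 252) (.e (nat_lit 57410) (nat_lit 12) (.e (nat_lit 336211) (nat_lit 13) (.e (nat_lit 393291) (nat_lit 26) (.e (nat_lit 475205) (nat_lit 40) .nil))))) .nil)) 
(.lf (nat_lit 183028) (.g (nat_lit 1081) (.e (nat_lit 57849) (nat_lit 252) (.e (nat_lit 57411) (nat_lit 12) (.e (nat_lit 336456) (nat_lit 34) .nil))) .nil)))) (.nd (nat_lit 4) (.nd (nat_lit 5) 
(.lf (nat_lit 182988) (.g (nat_lit 3692) (.e (nat_lit 57849) (nat_lit 252) (.e (nat_lit 57407) (nat_lit 12) (.e (nat_lit 336456) (nat_lit 34) (.e (nat_lit 483403) (nat_lit 26) (.e (nat_lit 385066) (nat_lit 26) (.e (nat_lit 532503) (nat_lit 1) .nil)))))) (.g (nat_lit 0) .nil .nil))) 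
(.lf (nat_lit 183020) (.g (nat_lit 2510) (.e (nat_lit 57849) (nat_lit 252) (.e (nat_lit 57411) (nat_lit 12) (.e (nat_lit 336211) (nat_lit 13) (.e (nat_lit 393291) (nat_lit 26) (.e (nat_lit 475212) (nat_lit 42) (.e (nat_lit 720933) (nat_lit 21) .nil)))))) (.g (nat_lit 4) .nil .nil)))) (.nd (nat_lit 5) 
(.lf (nat_lit 183004) (.g (nat_lit 788) (.e (nat_lit 57849) (nat_lit 252) (.e (nat_lit 57411) (nat_lit 12) (.e (nat_lit 336210) (nat_lit 13) .nil))) .nil)) 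
(.lf (nat_lit 183036) (.g (nat_lit 2245) (.e (nat_lit 57849) (nat_lit 252) (.e (nat_lit 57412) (nat_lit 12) (.e (nat_lit 336061) (nat_lit 7) (.e (nat_lit 319531) (nat_lit 16) (.e (nat_lit 286751) (nat_lit 10) .nil))))) .nil)))))) (.nd (nat_lit 2) (.nd (nat_lit 3) (.nd (nat_lit 4) (.nd (nat_lit 5) 
(.lf (nat_lit 182978) (.g (nat_lit 3879) (.e (nat_lit 57849) (nat_lit 252) (.e (nat_lit 57407) (nat_lit 12) (.e (nat_lit 336454) (nat_lit 34) (.e (nat_lit 483406) (nat_lit 26) (.e (nat_lit 385066) (nat_lit 26) (.e (nat_lit 532502) (nat_lit 1) .nil)))))) (.g (nat_lit 0) .nil .nil))) 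
(.lf (nat_lit 183010) (.g (nat_lit 2317) (.e (nat_lit 57849) (nat_lit 252) (.e (nat_lit 57411) (nat_lit 12) (.e (nat_lit 336211) (nat_lit 13) (.e (nat_lit 393268) (nat_lit 23) (.e (nat_lit 433920) (nat_lit 20) .nil))))) .nil))) (.nd (nat_lit 5) 
(.lf (nat_lit 182994) (.g (nat_lit 1974) (.e (nat_lit 57849) (nat_lit 252) (.e (nat_lit 57410) (nat_lit 12) (.e (nat_lit 336211) (nat_lit 13) (.e (nat_lit 393268) (nat_lit 23) (.e (nat_lit 426448) (nat_lit 20) (.e (nat_lit 122624) (nat_lit 21) .nil)))))) (.g (nat_lit 5) .nil .nil))) 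
(.lf (nat_lit 183026) (.g (nat_lit 1657) (.e (nat_lit 57849) (nat_lit 252) (.e (nat_lit 57411) (nat_lit 12) (.e (nat_lit 336454) (nat_lit 34) (.e (nat_lit 483405) (nat_lit 26) (.e (nat_lit 385065) (nat_lit 26) .nil))))) .nil)))) (.nd (nat_lit 4) (.nd (nat_lit 5) 
(.lf (nat_lit 182986) (.g (nat_lit 1204) (.e (nat_lit 57849) (nat_lit 252) (.e (nat_lit 57407) (nat_lit 12) (.e (nat_lit 336456) (nat_lit 34) (.e (nat_lit 491264) (nat_lit 23) .nil)))) .nil)) 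
(.lf (nat_lit 183018) (.g (nat_lit 2570) (.e (nat_lit 57849) (nat_lit 252) (.e (nat_lit 57411) (nat_lit 12) (.e (nat_lit 336211) (nat_lit 13) (.e (nat_lit 393291) (nat_lit 26) (.e (nat_lit 475205) (nat_lit 40) (.e (nat_lit 704606) (nat_lit 9) (.e (nat_lit 1186) (nat_lit 87) .nil))))))) (.g (nat_lit 4) .nil .nil)))) (.nd (nat_lit 5) 
(.lf (nat_lit 183002) (.g (nat_lit 1866) (.e (nat_lit 57849) (nat_lit 252) (.e (nat_lit 57411) (nat_lit 12) (.e (nat_lit 336019) (nat_lit 3) (.e (nat_lit 98381) (nat_lit 31) (.e (nat_lit 474880) (nat_lit 3) .nil))))) .nil)) 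
(.lf (nat_lit 183034) (.g (nat_lit 2999) (.e (nat_lit 57849) (nat_lit 252) (.e (nat_lit 57412) (nat_lit 12) (.e (nat_lit 336060) (nat_lit 7) (.e (nat_lit 319534) (nat_lit 16) (.e (nat_lit 286756) (nat_lit 10) (.e (nat_lit 344097) (nat_lit 18) (.e (nat_lit 5195) (nat_lit 294) (.e (nat_lit 57367) (nat_lit 1) .nil)))))))) (.g (nat_lit 4) .nil .nil)))))) 
(.nd (nat_lit 3) (.nd (nat_lit 4) (.nd (nat_lit 5) 
(.lf (nat_lit 182982) (.g (nat_lit 2479) (.e (nat_lit 57849) (nat_lit 252) (.e (nat_lit 57407) (nat_lit 12) (.e (nat_lit 336456) (nat_lit 34) (.e (nat_lit 483346) (nat_lit 17) (.e (nat_lit 6446) (nat_lit 343) .nil))))) .nil)) 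
(.lf (nat_lit 183014) (.g (nat_lit 1195) (.e (nat_lit 57849) (nat_lit 252) (.e (nat_lit 57411) (nat_lit 12) (.e (nat_lit 336211) (nat_lit 13) (.e (nat_lit 393274) (nat_lit 23) .nil)))) .nil))) (.nd (nat_lit 5) 
(.lf (nat_lit 182998) (.g (nat_lit 2091) (.e (nat_lit 57849) (nat_lit 252) (.e (nat_lit 57410) (nat_lit 12) (.e (nat_lit 336211) (nat_lit 13) (.e (nat_lit 393291) (nat_lit 26) (.e (nat_lit 475212) (nat_lit 42) (.e (nat_lit 720933) (nat_lit 21) .nil)))))) (.g (nat_lit 4) .nil .nil))) 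
(.lf (nat_lit 183030) (.g (nat_lit 1992) (.e (nat_lit 57849) (nat_lit 252) (.e (nat_lit 57411) (nat_lit 12) (.e (nat_lit 336456) (nat_lit 34) (.e (nat_lit 483403) (nat_lit 26) .nil)))) .nil)))) (.nd (nat_lit 4) (.nd (nat_lit 5) 
(.lf (nat_lit 182990) (.g (nat_lit 3898) (.e (nat_lit 57849) (nat_lit 252) (.e (nat_lit 57407) (nat_lit 12) (.e (nat_lit 336456) (nat_lit 34) (.e (nat_lit 483406) (nat_lit 26) (.e (nat_lit 385066) (nat_lit 26) (.e (nat_lit 532502) (nat_lit 1) .nil)))))) (.g (nat_lit 0) .nil .nil))) 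
(.lf (nat_lit 183022) (.g (nat_lit 2097) (.e (nat_lit 57849) (nat_lit 252) (.e (nat_lit 57411) (nat_lit 12) (.e (nat_lit 336211) (nat_lit 13) (.e (nat_lit 393294) (nat_lit 26) (.e (nat_lit 475213) (nat_lit 42) .nil))))) .nil))) (.nd (nat_lit 5) 
(.lf (nat_lit 183006) (.g (nat_lit 1861) (.e (nat_lit 57849) (nat_lit 252) (.e (nat_lit 57411) (nat_lit 12) (.e (nat_lit 336211) (nat_lit 13) (.e (nat_lit 393268) (nat_lit 23) (.e (nat_lit 426361) (nat_lit 15) .nil))))) .nil)) 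
(.lf (nat_lit 183038) (.g (nat_lit 3202) (.e (nat_lit 57849) (nat_lit 252) (.e (nat_lit 57412) (nat_lit 12) (.e (nat_lit 336061) (nat_lit 7) (.e (nat_lit 319531) (nat_lit 16) (.e (nat_lit 286759) (nat_lit 12) (.e (nat_lit 385107) (nat_lit 51) (.e (nat_lit 802560) (nat_lit 1) .nil))))))) (.g (nat_lit 5) .nil .nil)))))))) 
(.nd (nat_lit 1) (.nd (nat_lit 2) (.nd (nat_lit 3) (.nd (nat_lit 4) (.nd (nat_lit 5) 
(.lf (nat_lit 182977) (.g (nat_lit 2827) (.e (nat_lit 57849) (nat_lit 252) (.e (nat_lit 57407) (nat_lit 12) (.e (nat_lit 336454) (nat_lit 34) (.e (nat_lit 483406) (nat_lit 26) (.e (nat_lit 385065) (nat_lit 26) .nil))))) .nil)) 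
(.lf (nat_lit 183009) (.g (nat_lit 1709) (.e (nat_lit 57849) (nat_lit 252) (.e (nat_lit 57411) (nat_lit 12) (.e (nat_lit 336211) (nat_lit 13) (.e (nat_lit 393268) (nat_lit 23) (.e (nat_lit 426449) (nat_lit 20) .nil))))) .nil))) (.nd (nat_lit 5) 
(.lf (nat_lit 182993) (.g (nat_lit 2352) (.e (nat_lit 57849) (nat_lit 252) (.e (nat_lit 57409) (nat_lit 12) (.e (nat_lit 336454) (nat_lit 34) (.e (nat_lit 483408) (nat_lit 26) .nil)))) .nil)) 
(.lf (nat_lit 183025) (.g (nat_lit 1120) (.e (nat_lit 57849) (nat_lit 252) (.e (nat_lit 57411) (nat_lit 12) (.e (nat_lit 336367) (nat_lit 27) .nil))) .nil)))) (.nd (nat_lit 4) (.nd (nat_lit 5) 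
(.lf (nat_lit 182985) (.g (nat_lit 3088) (.e (nat_lit 57849) (nat_lit 252) (.e (nat_lit 57407) (nat_lit 12) (.e (nat_lit 336456) (nat_lit 34) (.e (nat_lit 483383) (nat_lit 23) (.e (nat_lit 336326) (nat_lit 18) (.e (nat_lit 204829) (nat_lit 18) .nil)))))) (.g (nat_lit 4) .nil .nil))) 
(.lf (nat_lit 183017) (.g (nat_lit 1853) (.e (nat_lit 57849) (nat_lit 252) (.e (nat_lit 57411) (nat_lit 12) (.e (nat_lit 336211) (nat_lit 13) (.e (nat_lit 393291) (nat_lit 26) (.e (nat_lit 475205) (nat_lit 40) .nil))))) .nil))) (.nd (nat_lit 5) 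
(.lf (nat_lit 183001) (.g (nat_lit 2504) (.e (nat_lit 57849) (nat_lit 252) (.e (nat_lit 57411) (nat_lit 12) (.e (nat_lit 336019) (nat_lit 3) (.e (nat_lit 98356) (nat_lit 26) (.e (nat_lit 426422) (nat_lit 16) .nil))))) .nil)) 
(.lf (nat_lit 183033) (.g (nat_lit 3105) (.e (nat_lit 57849) (nat_lit 252) (.e (nat_lit 57412) (nat_lit 12) (.e (nat_lit 336060) (nat_lit 7) (.e (nat_lit 319534) (nat_lit 16) (.e (nat_lit 286756) (nat_lit 10) (.e (nat_lit 344097) (nat_lit 18) (.e (nat_lit 5195) (nat_lit 294) (.e (nat_lit 57363) (nat_lit 1) .nil)))))))) (.g (nat_lit 4) .nil .nil)))))) 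
(.nd (nat_lit 3) (.nd (nat_lit 4) (.nd (nat_lit 5) 
(.lf (nat_lit 182981) (.g (nat_lit 444) (.e (nat_lit 57849) (nat_lit 252) (.e (nat_lit 57407) (nat_lit 12) (.e (nat_lit 336456) (nat_lit 34) .nil))) .nil)) 
(.lf (nat_lit 183013) (.g (nat_lit 1935) (.e (nat_lit 57849) (nat_lit 252) (.e (nat_lit 57411) (nat_lit 12) (.e (nat_lit 336211) (nat_lit 13) (.e (nat_lit 393273) (nat_lit 23) (.e (nat_lit 426449) (nat_lit 20) .nil))))) .nil))) (.nd (nat_lit 5) 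
(.lf (nat_lit 182997) (.g (nat_lit 2203) (.e (nat_lit 57849) (nat_lit 252) (.e (nat_lit 57410) (nat_lit 12) (.e (nat_lit 336211) (nat_lit 13) (.e (nat_lit 393291) (nat_lit 26) (.e (nat_lit 475205) (nat_lit 40) (.e (nat_lit 704606) (nat_lit 9) (.e (nat_lit 1186) (nat_lit 87) .nil))))))) (.g (nat_lit 4) .nil .nil))) 
(.lf (nat_lit 183029) (.g (nat_lit 2843) (.e (nat_lit 57849) (nat_lit 252) (.e (nat_lit 57411) (nat_lit 12) (.e (nat_lit 336456) (nat_lit 34) (.e (nat_lit 483383) (nat_lit 23) (.e (nat_lit 336324) (nat_lit 18) .nil))))) .nil)))) (.nd (nat_lit 4) (.nd (nat_lit 5) 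
(.lf (nat_lit 182989) (.g (nat_lit 1651) (.e (nat_lit 57849) (nat_lit 252) (.e (nat_lit 57407) (nat_lit 12) (.e (nat_lit 336456) (nat_lit 34) (.e (nat_lit 483406) (nat_lit 26) (.e (nat_lit 385065) (nat_lit 26) .nil))))) .nil)) 
(.lf (nat_lit 183021) (.g (nat_lit 2475) (.e (nat_lit 57849) (nat_lit 252) (.e (nat_lit 57411) (nat_lit 12) (.e (nat_lit 336211) (nat_lit 13) (.e (nat_lit 393291) (nat_lit 26) (.e (nat_lit 475214) (nat_lit 42) (.e (nat_lit 728832) (nat_lit 21) .nil)))))) (.g (nat_lit 5) .nil .nil)))) (.nd (nat_lit 5) 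
(.lf (nat_lit 183005) (.g (nat_lit 472) (.e (nat_lit 57849) (nat_lit 252) (.e (nat_lit 57411) (nat_lit 12) (.e (nat_lit 336211) (nat_lit 13) .nil))) .nil)) 
(.lf (nat_lit 183037) (.g (nat_lit 3078) (.e (nat_lit 57849) (nat_lit 252) (.e (nat_lit 57412) (nat_lit 12) (.e (nat_lit 336061) (nat_lit 7) (.e (nat_lit 319531) (nat_lit 16) (.e (nat_lit 286759) (nat_lit 12) (.e (nat_lit 385094) (nat_lit 49) (.e (nat_lit 778348) (nat_lit 9) (.e (nat_lit 92) (nat_lit 1) .nil)))))))) (.g (nat_lit 4) .nil .nil))))))) 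
(.nd (nat_lit 2) (.nd (nat_lit 3) (.nd (nat_lit 4) (.nd (nat_lit 5) 
(.lf (nat_lit 182979) (.g (nat_lit 3579) (.e (nat_lit 57849) (nat_lit 252) (.e (nat_lit 57407) (nat_lit 12) (.e (nat_lit 336454) (nat_lit 34) (.e (nat_lit 483408) (nat_lit 26) (.e (nat_lit 385066) (nat_lit 26) (.e (nat_lit 532502) (nat_lit 1) .nil)))))) (.g (nat_lit 6) .nil .nil))) 
(.lf (nat_lit 183011) (.g (nat_lit 1935) (.e (nat_lit 57849) (nat_lit 252) (.e (nat_lit 57411) (nat_lit 12) (.e (nat_lit 336211) (nat_lit 13) (.e (nat_lit 393273) (nat_lit 23) (.e (nat_lit 426354) (nat_lit 15) .nil))))) .nil))) (.nd (nat_lit 5) 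
(.lf (nat_lit 182995) (.g (nat_lit 1255) (.e (nat_lit 57849) (nat_lit 252) (.e (nat_lit 57410) (nat_lit 12) (.e (nat_lit 336211) (nat_lit 13) (.e (nat_lit 393268) (nat_lit 23) (.e (nat_lit 426449) (nat_lit 20) .nil))))) .nil)) 
(.lf (nat_lit 183027) (.g (nat_lit 2582) (.e (nat_lit 57849) (nat_lit 252) (.e (nat_lit 57411) (nat_lit 12) (.e (nat_lit 336454) (nat_lit 34) (.e (nat_lit 483406) (nat_lit 26) (.e (nat_lit 385065) (nat_lit 26) .nil))))) .nil)))) (.nd (nat_lit 4) (.nd (nat_lit 5) 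
(.lf (nat_lit 182987) (.g (nat_lit 3489) (.e (nat_lit 57849) (nat_lit 252) (.e (nat_lit 57407) (nat_lit 12) (.e (nat_lit 336456) (nat_lit 34) (.e (nat_lit 483403) (nat_lit 26) (.e (nat_lit 385066) (nat_lit 26) (.e (nat_lit 532502) (nat_lit 1) .nil)))))) (.g (nat_lit 0) .nil .nil))) 
(.lf (nat_lit 183019) (.g (nat_lit 1944) (.e (nat_lit 57849) (nat_lit 252) (.e (nat_lit 57411) (nat_lit 12) (.e (nat_lit 336211) (nat_lit 13) (.e (nat_lit 393291) (nat_lit 26) (.e (nat_lit 475205) (nat_lit 40) (.e (nat_lit 704613) (nat_lit 9) (.e (nat_lit 1176) (nat_lit 87) .nil))))))) (.g (nat_lit 4) .nil .nil)))) (.nd (nat_lit 5) 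
(.lf (nat_lit 183003) (.g (nat_lit 896) (.e (nat_lit 57849) (nat_lit 252) (.e (nat_lit 57411) (nat_lit 12) (.e (nat_lit 336115) (nat_lit 9) (.e (nat_lit 343808) (nat_lit 29) .nil)))) .nil)) 
(.lf (nat_lit 183035) (.g (nat_lit 2851) (.e (nat_lit 57849) (nat_lit 252) (.e (nat_lit 57412) (nat_lit 12) (.e (nat_lit 336061) (nat_lit 7) (.e (nat_lit 319531) (nat_lit 16) (.e (nat_lit 286743) (nat_lit 9) (.e (nat_lit 336337) (nat_lit 20) (.e (nat_lit 229120) (nat_lit 1) .nil))))))) (.g (nat_lit 4) .nil .nil)))))) (.nd (nat_lit 3) (.nd (nat_lit 4) (.nd (nat_lit 5) 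
(.lf (nat_lit 182983) (.g (nat_lit 2992) (.e (nat_lit 57849) (nat_lit 252) (.e (nat_lit 57407) (nat_lit 12) (.e (nat_lit 336456) (nat_lit 34) (.e (nat_lit 483372) (nat_lit 21) (.e (nat_lit 319504) (nat_lit 10) (.e (nat_lit 577) (nat_lit 43) (.e (nat_lit 524032) (nat_lit 18) .nil))))))) (.g (nat_lit 4) .nil .nil))) 
(.lf (nat_lit 183015) (.g (nat_lit 1203) (.e (nat_lit 57849) (nat_lit 252) (.e (nat_lit 57411) (nat_lit 12) (.e (nat_lit 336211) (nat_lit 13) (.e (nat_lit 393279) (nat_lit 23) .nil)))) .nil))) (.nd (nat_lit 5) 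
(.lf (nat_lit 182999) (.g (nat_lit 1910) (.e (nat_lit 57849) (nat_lit 252) (.e (nat_lit 57410) (nat_lit 12) (.e (nat_lit 336211) (nat_lit 13) (.e (nat_lit 393291) (nat_lit 26) (.e (nat_lit 475214) (nat_lit 42) (.e (nat_lit 728832) (nat_lit 21) .nil)))))) (.g (nat_lit 5) .nil .nil))) 
(.lf (nat_lit 183031) (.g (nat_lit 1955) (.e (nat_lit 57849) (nat_lit 252) (.e (nat_lit 57411) (nat_lit 12) (.e (nat_lit 336456) (nat_lit 34) (.e (nat_lit 483406) (nat_lit 26) .nil)))) .nil)))) (.nd (nat_lit 4) (.nd (nat_lit 5) 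
(.lf (nat_lit 182991) (.g (nat_lit 4126) (.e (nat_lit 57849) (nat_lit 252) (.e (nat_lit 57407) (nat_lit 12) (.e (nat_lit 336456) (nat_lit 34) (.e (nat_lit 483406) (nat_lit 26) (.e (nat_lit 385066) (nat_lit 26) (.e (nat_lit 532503) (nat_lit 1) .nil)))))) (.g (nat_lit 0) .nil .nil))) 
(.lf (nat_lit 183023) (.g (nat_lit 2003) (.e (nat_lit 57849) (nat_lit 252) (.e (nat_lit 57411) (nat_lit 12) (.e (nat_lit 336211) (nat_lit 13) (.e (nat_lit 393296) (nat_lit 26) (.e (nat_lit 475205) (nat_lit 40) .nil))))) .nil))) (.nd (nat_lit 5) 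
(.lf (nat_lit 183007) (.g (nat_lit 1902) (.e (nat_lit 57849) (nat_lit 252) (.e (nat_lit 57411) (nat_lit 12) (.e (nat_lit 336211) (nat_lit 13) (.e (nat_lit 393268) (nat_lit 23) (.e (nat_lit 426361) (nat_lit 15) (.e (nat_lit 2195) (nat_lit 144) (.e (nat_lit 720932) (nat_lit 21) .nil))))))) (.g (nat_lit 4) .nil .nil))) 
(.lf (nat_lit 183039) (.g (nat_lit 2067) (.e (nat_lit 57849) (nat_lit 252) (.e (nat_lit 57413) (nat_lit 12) (.e (nat_lit 336054) (nat_lit 7) (.e (nat_lit 319533) (nat_lit 16) (.e (nat_lit 286753) (nat_lit 10) (.e (nat_lit 344097) (nat_lit 18) (.e (nat_lit 5195) (nat_lit 294) (.e (nat_lit 57363) (nat_lit 1) .nil)))))))) (.g (nat_lit 4) .nil .nil)))))))))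

noncomputable def tv2443 : DT := (.nd (nat_lit 0) (.nd (nat_lit 1) (.nd (nat_lit 2) (.nd (nat_lit 3) (.nd (nat_lit 4) (.nd (nat_lit 5) 
(.lf (nat_lit 183040) (.g (nat_lit 2624) (.e (nat_lit 57849) (nat_lit 252) (.e (nat_lit 57413) (nat_lit 12) (.e (nat_lit 336055) (nat_lit 7) (.e (nat_lit 319534) (nat_lit 16) (.e (nat_lit 286756) (nat_lit 10) (.e (nat_lit 344097) (nat_lit 18) (.e (nat_lit 5195) (nat_lit 294) (.e (nat_lit 57363) (nat_lit 1) .nil)))))))) (.g (nat_lit 4) .nil .nil))) 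
(.lf (nat_lit 183072) (.g (nat_lit 1582) (.e (nat_lit 57849) (nat_lit 252) (.e (nat_lit 57435) (nat_lit 17) (.e (nat_lit 376842) (nat_lit 11) (.e (nat_lit 426258) (nat_lit 9) .nil)))) .nil))) (.nd (nat_lit 5) 
(.lf (nat_lit 183056) (.g (nat_lit 2255) (.e (nat_lit 57849) (nat_lit 252) (.e (nat_lit 57430) (nat_lit 16) (.e (nat_lit 368676) (nat_lit 21) (.e (nat_lit 516176) (nat_lit 14) (.e (nat_lit 466967) (nat_lit 20) (.e (nat_lit 7936) (nat_lit 200) (.e (nat_lit 557065) (nat_lit 9) (.e (nat_lit 97) (nat_lit 1) .nil)))))))) (.g (nat_lit 4) .nil .nil))) 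
(.lf (nat_lit 183088) (.g (nat_lit 2801) (.e (nat_lit 57849) (nat_lit 252) (.e (nat_lit 57435) (nat_lit 17) (.e (nat_lit 376842) (nat_lit 11) (.e (nat_lit 426306) (nat_lit 12) (.e (nat_lit 475212) (nat_lit 42) (.e (nat_lit 720933) (nat_lit 21) .nil)))))) (.g (nat_lit 4) .nil .nil))))) (.nd (nat_lit 4) (.nd (nat_lit 5) 
(.lf (nat_lit 183048) (.g (nat_lit 2089) (.e (nat_lit 57849) (nat_lit 252) (.e (nat_lit 57416) (nat_lit 12) (.e (nat_lit 336056) (nat_lit 7) (.e (nat_lit 319533) (nat_lit 16) (.e (nat_lit 286753) (nat_lit 10) (.e (nat_lit 344097) (nat_lit 18) (.e (nat_lit 5195) (nat_lit 294) (.e (nat_lit 57363) (nat_lit 1) .nil)))))))) (.g (nat_lit 4) .nil .nil))) 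
(.lf (nat_lit 183080) (.g (nat_lit 2305) (.e (nat_lit 57849) (nat_lit 252) (.e (nat_lit 57435) (nat_lit 17) (.e (nat_lit 376842) (nat_lit 11) (.e (nat_lit 426298) (nat_lit 11) (.e (nat_lit 458774) (nat_lit 18) (.e (nat_lit 5230) (nat_lit 296) (.e (nat_lit 171776) (nat_lit 62) .nil))))))) (.g (nat_lit 5) .nil .nil)))) (.nd (nat_lit 5) 
(.lf (nat_lit 183064) (.g (nat_lit 2192) (.e (nat_lit 57849) (nat_lit 252) (.e (nat_lit 57435) (nat_lit 17) (.e (nat_lit 376842) (nat_lit 11) (.e (nat_lit 426188) (nat_lit 9) (.e (nat_lit 426444) (nat_lit 19) .nil))))) .nil)) 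
(.lf (nat_lit 183096) (.g (nat_lit 2434) (.e (nat_lit 57849) (nat_lit 252) (.e (nat_lit 57437) (nat_lit 17) (.e (nat_lit 376842) (nat_lit 11) (.e (nat_lit 426188) (nat_lit 9) (.e (nat_lit 426444) (nat_lit 19) .nil))))) .nil))))) (.nd (nat_lit 3) (.nd (nat_lit 4) (.nd (nat_lit 5) 
(.lf (nat_lit 183044) (.g (nat_lit 3303) (.e (nat_lit 57849) (nat_lit 252) (.e (nat_lit 57413) (nat_lit 12) (.e (nat_lit 336056) (nat_lit 7) (.e (nat_lit 319534) (nat_lit 16) (.e (nat_lit 286756) (nat_lit 10) (.e (nat_lit 344097) (nat_lit 18) (.e (nat_lit 5195) (nat_lit 294) (.e (nat_lit 57363) (nat_lit 1) .nil)))))))) (.g (nat_lit 5) .nil .nil))) 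
(.lf (nat_lit 183076) (.g (nat_lit 2314) (.e (nat_lit 57849) (nat_lit 252) (.e (nat_lit 57435) (nat_lit 17) (.e (nat_lit 376842) (nat_lit 11) (.e (nat_lit 426296) (nat_lit 11) (.e (nat_lit 458774) (nat_lit 18) (.e (nat_lit 5230) (nat_lit 296) (.e (nat_lit 171776) (nat_lit 62) .nil))))))) (.g (nat_lit 5) .nil .nil)))) (.nd (nat_lit 5) 
(.lf (nat_lit 183060) (.g (nat_lit 1958) (.e (nat_lit 57849) (nat_lit 252) (.e (nat_lit 57432) (nat_lit 16) (.e (nat_lit 368676) (nat_lit 21) (.e (nat_lit 516176) (nat_lit 14) (.e (nat_lit 474880) (nat_lit 3) (.e (nat_lit 106240) (nat_lit 1) .nil)))))) (.g (nat_lit 4) .nil .nil))) 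
(.lf (nat_lit 183092) (.g (nat_lit 2065) (.e (nat_lit 57849) (nat_lit 252) (.e (nat_lit 57435) (nat_lit 17) (.e (nat_lit 376842) (nat_lit 11) (.e (nat_lit 426315) (nat_lit 12) (.e (nat_lit 475205) (nat_lit 40) .nil))))) .nil)))) (.nd (nat_lit 4) (.nd (nat_lit 5) 
(.lf (nat_lit 183052) (.g (nat_lit 3084) (.e (nat_lit 57849) (nat_lit 252) (.e (nat_lit 57416) (nat_lit 12) (.e (nat_lit 336060) (nat_lit 7) (.e (nat_lit 319534) (nat_lit 16) (.e (nat_lit 286756) (nat_lit 10) (.e (nat_lit 344097) (nat_lit 18) (.e (nat_lit 5195) (nat_lit 294) (.e (nat_lit 57363) (nat_lit 1) .nil)))))))) (.g (nat_lit 5) .nil .nil))) 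
(.lf (nat_lit 183084) (.g (nat_lit 3210) (.e (nat_lit 57849) (nat_lit 252) (.e (nat_lit 57435) (nat_lit 17) (.e (nat_lit 376842) (nat_lit 11) (.e (nat_lit 426306) (nat_lit 12) (.e (nat_lit 475201) (nat_lit 40) (.e (nat_lit 704635) (nat_lit 9) (.e (nat_lit 1186) (nat_lit 87) .nil))))))) (.g (nat_lit 5) .nil .nil)))) (.nd (nat_lit 5) 
(.lf (nat_lit 183068) (.g (nat_lit 3596) (.e (nat_lit 57849) (nat_lit 252) (.e (nat_lit 57435) (nat_lit 17) (.e (nat_lit 376842) (nat_lit 11) (.e (nat_lit 426189) (nat_lit 9) (.e (nat_lit 426448) (nat_lit 20) (.e (nat_lit 114711) (nat_lit 21) .nil)))))) (.g (nat_lit 6) .nil .nil))) 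
(.lf (nat_lit 183100) (.g (nat_lit 3726) (.e (nat_lit 57849) (nat_lit 252) (.e (nat_lit 57437) (nat_lit 17) (.e (nat_lit 376842) (nat_lit 11) (.e (nat_lit 426189) (nat_lit 9) (.e (nat_lit 426448) (nat_lit 20) (.e (nat_lit 114710) (nat_lit 21) .nil)))))) (.g (nat_lit 6) .nil .nil))))))) (.nd (nat_lit 2) (.nd (nat_lit 3) (.nd (nat_lit 4) (.nd (nat_lit 5) 
(.lf (nat_lit 183042) (.g (nat_lit 2846) (.e (nat_lit 57849) (nat_lit 252) (.e (nat_lit 57413) (nat_lit 12) (.e (nat_lit 336056) (nat_lit 7) (.e (nat_lit 319533) (nat_lit 16) (.e (nat_lit 286753) (nat_lit 10) (.e (nat_lit 344097) (nat_lit 18) (.e (nat_lit 5195) (nat_lit 294) (.e (nat_lit 57363) (nat_lit 1) .nil)))))))) (.g (nat_lit 4) .nil .nil))) 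
(.lf (nat_lit 183074) (.g (nat_lit 3250) (.e (nat_lit 57849) (nat_lit 252) (.e (nat_lit 57435) (nat_lit 17) (.e (nat_lit 376842) (nat_lit 11) (.e (nat_lit 426296) (nat_lit 11) (.e (nat_lit 458771) (nat_lit 18) (.e (nat_lit 5537) (nat_lit 306) (.e (nat_lit 1077) (nat_lit 81) (.e (nat_lit 1176) (nat_lit 87) .nil)))))))) (.g (nat_lit 7) .nil .nil)))) (.nd (nat_lit 5) 
(.lf (nat_lit 183058) (.g (nat_lit 1465) (.e (nat_lit 57849) (nat_lit 252) (.e (nat_lit 57432) (nat_lit 16) (.e (nat_lit 368676) (nat_lit 21) (.e (nat_lit 516174) (nat_lit 14) (.e (nat_lit 474880) (nat_lit 3) (.e (nat_lit 106240) (nat_lit 1) .nil)))))) (.g (nat_lit 4) .nil .nil))) 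
(.lf (nat_lit 183090) (.g (nat_lit 3232) (.e (nat_lit 57849) (nat_lit 252) (.e (nat_lit 57435) (nat_lit 17) (.e (nat_lit 376842) (nat_lit 11) (.e (nat_lit 426314) (nat_lit 12) (.e (nat_lit 475214) (nat_lit 42) (.e (nat_lit 720929) (nat_lit 21) .nil)))))) (.g (nat_lit 5) .nil .nil))))) (.nd (nat_lit 4) (.nd (nat_lit 5) 
(.lf (nat_lit 183050) (.g (nat_lit 2440) (.e (nat_lit 57849) (nat_lit 252) (.e (nat_lit 57416) (nat_lit 12) (.e (nat_lit 336056) (nat_lit 7) (.e (nat_lit 319534) (nat_lit 16) (.e (nat_lit 286756) (nat_lit 10) (.e (nat_lit 344097) (nat_lit 18) (.e (nat_lit 5195) (nat_lit 294) (.e (nat_lit 57367) (nat_lit 1) .nil)))))))) (.g (nat_lit 4) .nil .nil))) 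
(.lf (nat_lit 183082) (.g (nat_lit 1168) (.e (nat_lit 57849) (nat_lit 252) (.e (nat_lit 57435) (nat_lit 17) (.e (nat_lit 376842) (nat_lit 11) (.e (nat_lit 426306) (nat_lit 12) .nil)))) .nil))) (.nd (nat_lit 5) 
(.lf (nat_lit 183066) (.g (nat_lit 2313) (.e (nat_lit 57849) (nat_lit 252) (.e (nat_lit 57435) (nat_lit 17) (.e (nat_lit 376842) (nat_lit 11) (.e (nat_lit 426188) (nat_lit 9) (.e (nat_lit 426449) (nat_lit 20) .nil))))) .nil)) 
(.lf (nat_lit 183098) (.g (nat_lit 2369) (.e (nat_lit 57849) (nat_lit 252) (.e (nat_lit 57437) (nat_lit 17) (.e (nat_lit 376842) (nat_lit 11) (.e (nat_lit 426188) (nat_lit 9) (.e (nat_lit 426449) (nat_lit 20) .nil))))) .nil))))) (.nd (nat_lit 3) (.nd (nat_lit 4) (.nd (nat_lit 5) 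
(.lf (nat_lit 183046) (.g (nat_lit 2529) (.e (nat_lit 57849) (nat_lit 252) (.e (nat_lit 57415) (nat_lit 12) (.e (nat_lit 336060) (nat_lit 7) (.e (nat_lit 319533) (nat_lit 16) (.e (nat_lit 286753) (nat_lit 10) (.e (nat_lit 344097) (nat_lit 18) (.e (nat_lit 5195) (nat_lit 294) (.e (nat_lit 57367) (nat_lit 1) .nil)))))))) (.g (nat_lit 4) .nil .nil))) 
(.lf (nat_lit 183078) (.g (nat_lit 2846) (.e (nat_lit 57849) (nat_lit 252) (.e (nat_lit 57435) (nat_lit 17) (.e (nat_lit 376842) (nat_lit 11) (.e (nat_lit 426298) (nat_lit 11) (.e (nat_lit 458771) (nat_lit 18) (.e (nat_lit 5537) (nat_lit 306) (.e (nat_lit 1074) (nat_lit 81) (.e (nat_lit 1176) (nat_lit 87) .nil)))))))) (.g (nat_lit 6) .nil .nil)))) (.nd (nat_lit 5) 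
(.lf (nat_lit 183062) (.g (nat_lit 341) (.e (nat_lit 57849) (nat_lit 252) (.e (nat_lit 57435) (nat_lit 17) (.e (nat_lit 376842) (nat_lit 11) .nil))) .nil)) 
(.lf (nat_lit 183094) (.g (nat_lit 587) (.e (nat_lit 57849) (nat_lit 252) (.e (nat_lit 57437) (nat_lit 17) (.e (nat_lit 376841) (nat_lit 11) .nil))) .nil)))) (.nd (nat_lit 4) (.nd (nat_lit 5) 
(.lf (nat_lit 183054) (.g (nat_lit 1512) (.e (nat_lit 57849) (nat_lit 252) (.e (nat_lit 57430) (nat_lit 16) (.e (nat_lit 368676) (nat_lit 21) (.e (nat_lit 516174) (nat_lit 14) (.e (nat_lit 474880) (nat_lit 3) (.e (nat_lit 106240) (nat_lit 1) .nil)))))) (.g (nat_lit 4) .nil .nil))) 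
(.lf (nat_lit 183086) (.g (nat_lit 3667) (.e (nat_lit 57849) (nat_lit 252) (.e (nat_lit 57435) (nat_lit 17) (.e (nat_lit 376842) (nat_lit 11) (.e (nat_lit 426306) (nat_lit 12) (.e (nat_lit 475205) (nat_lit 40) (.e (nat_lit 704606) (nat_lit 9) (.e (nat_lit 1176) (nat_lit 87) .nil))))))) (.g (nat_lit 5) .nil .nil)))) (.nd (nat_lit 5) 
(.lf (nat_lit 183070) (.g (nat_lit 2602) (.e (nat_lit 57849) (nat_lit 252) (.e (nat_lit 57435) (nat_lit 17) (.e (nat_lit 376842) (nat_lit 11) (.e (nat_lit 426200) (nat_lit 9) (.e (nat_lit 425986) (nat_lit 0) (.e (nat_lit 2430) (nat_lit 157) (.e (nat_lit 5537) (nat_lit 306) (.e (nat_lit 1077) (nat_lit 81) (.e (nat_lit 1176) (nat_lit 87) .nil))))))))) (.g (nat_lit 4) .nil .nil))) 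
(.lf (nat_lit 183102) (.g (nat_lit 1927) (.e (nat_lit 57849) (nat_lit 252) (.e (nat_lit 57437) (nat_lit 17) (.e (nat_lit 376842) (nat_lit 11) (.e (nat_lit 426199) (nat_lit 9) (.e (nat_lit 426446) (nat_lit 20) .nil))))) .nil))))))) (.nd (nat_lit 1) (.nd (nat_lit 2) (.nd (nat_lit 3) (.nd (nat_lit 4) (.nd (nat_lit 5) 
(.lf (nat_lit 183041) (.g (nat_lit 2518) (.e (nat_lit 57849) (nat_lit 252) (.e (nat_lit 57413) (nat_lit 12) (.e (nat_lit 336055) (nat_lit 7) (.e (nat_lit 319534) (nat_lit 16) (.e (nat_lit 286756) (nat_lit 10) (.e (nat_lit 344097) (nat_lit 18) (.e (nat_lit 5195) (nat_lit 294) (.e (nat_lit 57367) (nat_lit 1) .nil)))))))) (.g (nat_lit 4) .nil .nil))) 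
(.lf (nat_lit 183073) (.g (nat_lit 2327) (.e (nat_lit 57849) (nat_lit 252) (.e (nat_lit 57435) (nat_lit 17) (.e (nat_lit 376842) (nat_lit 11) (.e (nat_lit 426296) (nat_lit 11) (.e (nat_lit 458771) (nat_lit 18) (.e (nat_lit 5537) (nat_lit 306) (.e (nat_lit 1074) (nat_lit 81) (.e (nat_lit 1176) (nat_lit 87) .nil)))))))) (.g (nat_lit 4) .nil .nil)))) (.nd (nat_lit 5) 
(.lf (nat_lit 183057) (.g (nat_lit 1916) (.e (nat_lit 57849) (nat_lit 252) (.e (nat_lit 57432) (nat_lit 16) (.e (nat_lit 368676) (nat_lit 21) (.e (nat_lit 516174) (nat_lit 14) (.e (nat_lit 466947) (nat_lit 0) (.e (nat_lit 1800) (nat_lit 119) (.e (nat_lit 524032) (nat_lit 18) .nil))))))) (.g (nat_lit 5) .nil .nil))) 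
(.lf (nat_lit 183089) (.g (nat_lit 2381) (.e (nat_lit 57849) (nat_lit 252) (.e (nat_lit 57435) (nat_lit 17) (.e (nat_lit 376842) (nat_lit 11) (.e (nat_lit 426306) (nat_lit 12) (.e (nat_lit 475214) (nat_lit 42) (.e (nat_lit 728832) (nat_lit 21) .nil)))))) (.g (nat_lit 4) .nil .nil))))) (.nd (nat_lit 4) (.nd (nat_lit 5) 
(.lf (nat_lit 183049) (.g (nat_lit 2546) (.e (nat_lit 57849) (nat_lit 252) (.e (nat_lit 57416) (nat_lit 12) (.e (nat_lit 336056) (nat_lit 7) (.e (nat_lit 319534) (nat_lit 16) (.e (nat_lit 286756) (nat_lit 10) (.e (nat_lit 344097) (nat_lit 18) (.e (nat_lit 5195) (nat_lit 294) (.e (nat_lit 57363) (nat_lit 1) .nil)))))))) (.g (nat_lit 4) .nil .nil))) 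
(.lf (nat_lit 183081) (.g (nat_lit 3003) (.e (nat_lit 57849) (nat_lit 252) (.e (nat_lit 57435) (nat_lit 17) (.e (nat_lit 376842) (nat_lit 11) (.e (nat_lit 426298) (nat_lit 11) (.e (nat_lit 458774) (nat_lit 18) (.e (nat_lit 5232) (nat_lit 296) (.e (nat_lit 171776) (nat_lit 62) .nil))))))) (.g (nat_lit 6) .nil .nil)))) (.nd (nat_lit 5) 
(.lf (nat_lit 183065) (.g (nat_lit 2534) (.e (nat_lit 57849) (nat_lit 252) (.e (nat_lit 57435) (nat_lit 17) (.e (nat_lit 376842) (nat_lit 11) (.e (nat_lit 426188) (nat_lit 9) (.e (nat_lit 426448) (nat_lit 20) (.e (nat_lit 122624) (nat_lit 21) .nil)))))) (.g (nat_lit 4) .nil .nil))) 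
(.lf (nat_lit 183097) (.g (nat_lit 2909) (.e (nat_lit 57849) (nat_lit 252) (.e (nat_lit 57437) (nat_lit 17) (.e (nat_lit 376842) (nat_lit 11) (.e (nat_lit 426188) (nat_lit 9) (.e (nat_lit 426448) (nat_lit 20) (.e (nat_lit 122624) (nat_lit 21) .nil)))))) (.g (nat_lit 4) .nil .nil)))))) (.nd (nat_lit 3) (.nd (nat_lit 4) (.nd (nat_lit 5) 
(.lf (nat_lit 183045) (.g (nat_lit 3800) (.e (nat_lit 57849) (nat_lit 252) (.e (nat_lit 57413) (nat_lit 12) (.e (nat_lit 336060) (nat_lit 7) (.e (nat_lit 319534) (nat_lit 16) (.e (nat_lit 286756) (nat_lit 10) (.e (nat_lit 344097) (nat_lit 18) (.e (nat_lit 5195) (nat_lit 294) (.e (nat_lit 57367) (nat_lit 1) .nil)))))))) (.g (nat_lit 6) .nil .nil))) 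
(.lf (nat_lit 183077) (.g (nat_lit 2932) (.e (nat_lit 57849) (nat_lit 252) (.e (nat_lit 57435) (nat_lit 17) (.e (nat_lit 376842) (nat_lit 11) (.e (nat_lit 426296) (nat_lit 11) (.e (nat_lit 458774) (nat_lit 18) (.e (nat_lit 5232) (nat_lit 296) (.e (nat_lit 171776) (nat_lit 62) .nil))))))) (.g (nat_lit 6) .nil .nil)))) (.nd (nat_lit 5) 
(.lf (nat_lit 183061) (.g (nat_lit 2156) (.e (nat_lit 57849) (nat_lit 252) (.e (nat_lit 57432) (nat_lit 16) (.e (nat_lit 368676) (nat_lit 21) (.e (nat_lit 516176) (nat_lit 14) (.e (nat_lit 466967) (nat_lit 20) (.e (nat_lit 7936) (nat_lit 200) (.e (nat_lit 557065) (nat_lit 9) (.e (nat_lit 97) (nat_lit 1) .nil)))))))) (.g (nat_lit 4) .nil .nil))) 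
(.lf (nat_lit 183093) (.g (nat_lit 2975) (.e (nat_lit 57849) (nat_lit 252) (.e (nat_lit 57435) (nat_lit 17) (.e (nat_lit 376842) (nat_lit 11) (.e (nat_lit 426315) (nat_lit 12) (.e (nat_lit 475212) (nat_lit 42) (.e (nat_lit 720929) (nat_lit 21) .nil)))))) (.g (nat_lit 5) .nil .nil))))) (.nd (nat_lit 4) (.nd (nat_lit 5) 
(.lf (nat_lit 183053) (.g (nat_lit 2978) (.e (nat_lit 57849) (nat_lit 252) (.e (nat_lit 57416) (nat_lit 12) (.e (nat_lit 336060) (nat_lit 7) (.e (nat_lit 319534) (nat_lit 16) (.e (nat_lit 286756) (nat_lit 10) (.e (nat_lit 344097) (nat_lit 18) (.e (nat_lit 5195) (nat_lit 294) (.e (nat_lit 57367) (nat_lit 1) .nil)))))))) (.g (nat_lit 5) .nil .nil))) 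
(.lf (nat_lit 183085) (.g (nat_lit 2471) (.e (nat_lit 57849) (nat_lit 252) (.e (nat_lit 57435) (nat_lit 17) (.e (nat_lit 376842) (nat_lit 11) (.e (nat_lit 426306) (nat_lit 12) (.e (nat_lit 475205) (nat_lit 40) .nil))))) .nil))) (.nd (nat_lit 5) 
(.lf (nat_lit 183069) (.g (nat_lit 1789) (.e (nat_lit 57849) (nat_lit 252) (.e (nat_lit 57435) (nat_lit 17) (.e (nat_lit 376842) (nat_lit 11) (.e (nat_lit 426196) (nat_lit 9) (.e (nat_lit 426446) (nat_lit 20) .nil))))) .nil)) 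
(.lf (nat_lit 183101) (.g (nat_lit 1977) (.e (nat_lit 57849) (nat_lit 252) (.e (nat_lit 57437) (nat_lit 17) (.e (nat_lit 376842) (nat_lit 11) (.e (nat_lit 426196) (nat_lit 9) (.e (nat_lit 426446) (nat_lit 20) .nil))))) .nil)))))) (.nd (nat_lit 2) (.nd (nat_lit 3) (.nd (nat_lit 4) (.nd (nat_lit 5) 
(.lf (nat_lit 183043) (.g (nat_lit 2693) (.e (nat_lit 57849) (nat_lit 252) (.e (nat_lit 57413) (nat_lit 12) (.e (nat_lit 336056) (nat_lit 7) (.e (nat_lit 319533) (nat_lit 16) (.e (nat_lit 286753) (nat_lit 10) (.e (nat_lit 344097) (nat_lit 18) (.e (nat_lit 5195) (nat_lit 294) (.e (nat_lit 57367) (nat_lit 1) .nil)))))))) (.g (nat_lit 4) .nil .nil))) 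
(.lf (nat_lit 183075) (.g (nat_lit 2955) (.e (nat_lit 57849) (nat_lit 252) (.e (nat_lit 57435) (nat_lit 17) (.e (nat_lit 376842) (nat_lit 11) (.e (nat_lit 426296) (nat_lit 11) (.e (nat_lit 458774) (nat_lit 18) (.e (nat_lit 5224) (nat_lit 296) (.e (nat_lit 171776) (nat_lit 62) .nil))))))) (.g (nat_lit 6) .nil .nil)))) (.nd (nat_lit 5) 
(.lf (nat_lit 183059) (.g (nat_lit 2002) (.e (nat_lit 57849) (nat_lit 252) (.e (nat_lit 57432) (nat_lit 16) (.e (nat_lit 368676) (nat_lit 21) (.e (nat_lit 516176) (nat_lit 14) (.e (nat_lit 466947) (nat_lit 0) (.e (nat_lit 1800) (nat_lit 119) (.e (nat_lit 524032) (nat_lit 18) .nil))))))) (.g (nat_lit 5) .nil .nil))) 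
(.lf (nat_lit 183091) (.g (nat_lit 1130) (.e (nat_lit 57849) (nat_lit 252) (.e (nat_lit 57435) (nat_lit 17) (.e (nat_lit 376842) (nat_lit 11) (.e (nat_lit 426315) (nat_lit 12) .nil)))) .nil)))) (.nd (nat_lit 4) (.nd (nat_lit 5) 
(.lf (nat_lit 183051) (.g (nat_lit 2749) (.e (nat_lit 57849) (nat_lit 252) (.e (nat_lit 57416) (nat_lit 12) (.e (nat_lit 336060) (nat_lit 7) (.e (nat_lit 319533) (nat_lit 16) (.e (nat_lit 286753) (nat_lit 10) (.e (nat_lit 344097) (nat_lit 18) (.e (nat_lit 5195) (nat_lit 294) (.e (nat_lit 57363) (nat_lit 1) .nil)))))))) (.g (nat_lit 5) .nil .nil))) 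
(.lf (nat_lit 183083) (.g (nat_lit 1741) (.e (nat_lit 57849) (nat_lit 252) (.e (nat_lit 57435) (nat_lit 17) (.e (nat_lit 376842) (nat_lit 11) (.e (nat_lit 426306) (nat_lit 12) (.e (nat_lit 475201) (nat_lit 40) .nil))))) .nil))) (.nd (nat_lit 5) 
(.lf (nat_lit 183067) (.g (nat_lit 3551) (.e (nat_lit 57849) (nat_lit 252) (.e (nat_lit 57435) (nat_lit 17) (.e (nat_lit 376842) (nat_lit 11) (.e (nat_lit 426189) (nat_lit 9) (.e (nat_lit 426448) (nat_lit 20) (.e (nat_lit 114710) (nat_lit 21) .nil)))))) (.g (nat_lit 6) .nil .nil))) 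
(.lf (nat_lit 183099) (.g (nat_lit 2709) (.e (nat_lit 57849) (nat_lit 252) (.e (nat_lit 57437) (nat_lit 17) (.e (nat_lit 376842) (nat_lit 11) (.e (nat_lit 426188) (nat_lit 9) (.e (nat_lit 426469) (nat_lit 24) .nil))))) .nil))))) (.nd (nat_lit 3) (.nd (nat_lit 4) (.nd (nat_lit 5) 
(.lf (nat_lit 183047) (.g (nat_lit 3068) (.e (nat_lit 57849) (nat_lit 252) (.e (nat_lit 57415) (nat_lit 12) (.e (nat_lit 336060) (nat_lit 7) (.e (nat_lit 319534) (nat_lit 16) (.e (nat_lit 286756) (nat_lit 10) (.e (nat_lit 344097) (nat_lit 18) (.e (nat_lit 5195) (nat_lit 294) (.e (nat_lit 57363) (nat_lit 1) .nil)))))))) (.g (nat_lit 5) .nil .nil))) 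
(.lf (nat_lit 183079) (.g (nat_lit 3052) (.e (nat_lit 57849) (nat_lit 252) (.e (nat_lit 57435) (nat_lit 17) (.e (nat_lit 376842) (nat_lit 11) (.e (nat_lit 426298) (nat_lit 11) (.e (nat_lit 458774) (nat_lit 18) (.e (nat_lit 5224) (nat_lit 296) (.e (nat_lit 171776) (nat_lit 62) .nil))))))) (.g (nat_lit 6) .nil .nil)))) (.nd (nat_lit 5) 
(.lf (nat_lit 183063) (.g (nat_lit 3476) (.e (nat_lit 57849) (nat_lit 252) (.e (nat_lit 57435) (nat_lit 17) (.e (nat_lit 376842) (nat_lit 11) (.e (nat_lit 426187) (nat_lit 9) (.e (nat_lit 426448) (nat_lit 20) (.e (nat_lit 114710) (nat_lit 21) .nil)))))) (.g (nat_lit 6) .nil .nil))) 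
(.lf (nat_lit 183095) (.g (nat_lit 445) (.e (nat_lit 57849) (nat_lit 252) (.e (nat_lit 57437) (nat_lit 17) (.e (nat_lit 376842) (nat_lit 11) .nil))) .nil)))) (.nd (nat_lit 4) (.nd (nat_lit 5) 
(.lf (nat_lit 183055) (.g (nat_lit 2040) (.e (nat_lit 57849) (nat_lit 252) (.e (nat_lit 57430) (nat_lit 16) (.e (nat_lit 368676) (nat_lit 21) (.e (nat_lit 516176) (nat_lit 14) (.e (nat_lit 474880) (nat_lit 3) (.e (nat_lit 106240) (nat_lit 1) .nil)))))) (.g (nat_lit 4) .nil .nil))) 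
(.lf (nat_lit 183087) (.g (nat_lit 3317) (.e (nat_lit 57849) (nat_lit 252) (.e (nat_lit 57435) (nat_lit 17) (.e (nat_lit 376842) (nat_lit 11) (.e (nat_lit 426306) (nat_lit 12) (.e (nat_lit 475205) (nat_lit 40) (.e (nat_lit 704606) (nat_lit 9) (.e (nat_lit 1186) (nat_lit 87) .nil))))))) (.g (nat_lit 4) .nil .nil)))) (.nd (nat_lit 5) 
(.lf (nat_lit 183071) (.g (nat_lit 1526) (.e (nat_lit 57849) (nat_lit 252) (.e (nat_lit 57435) (nat_lit 17) (.e (nat_lit 376842) (nat_lit 11) (.e (nat_lit 426204) (nat_lit 9) .nil)))) .nil)) 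
(.lf (nat_lit 183103) (.g (nat_lit 1299) (.e (nat_lit 57849) (nat_lit 252) (.e (nat_lit 57437) (nat_lit 17) (.e (nat_lit 376842) (nat_lit 11) (.e (nat_lit 426200) (nat_lit 9) .nil)))) .nil))))))))

noncomputable def tv2444 : DT := (.nd (nat_lit 0) (.nd (nat_lit 1) (.nd (nat_lit 2) (.nd (nat_lit 3) (.nd (nat_lit 4) (.nd (nat_lit 5) 
(.lf (nat_lit 183104) (.g (nat_lit 2896) (.e (nat_lit 57849) (nat_lit 252) (.e (nat_lit 57437) (nat_lit 17) (.e (nat_lit 376842) (nat_lit 11) (.e (nat_lit 426200) (nat_lit 9) (.e (nat_lit 425986) (nat_lit 0) (.e (nat_lit 2430) (nat_lit 157) (.e (nat_lit 5537) (nat_lit 306) (.e (nat_lit 1077) (nat_lit 81) (.e (nat_lit 1176) (nat_lit 87) .nil))))))))) (.g (nat_lit 4) .nil .nil))) 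
(.lf (nat_lit 183136) (.g (nat_lit 1431) (.e (nat_lit 57849) (nat_lit 252) (.e (nat_lit 57445) (nat_lit 19) (.e (nat_lit 393225) (nat_lit 9) (.e (nat_lit 336195) (nat_lit 12) .nil)))) .nil))) (.nd (nat_lit 5) 
(.lf (nat_lit 183120) (.g (nat_lit 3865) (.e (nat_lit 57849) (nat_lit 252) (.e (nat_lit 57437) (nat_lit 17) (.e (nat_lit 376842) (nat_lit 11) (.e (nat_lit 426306) (nat_lit 12) (.e (nat_lit 475205) (nat_lit 40) (.e (nat_lit 704606) (nat_lit 9) (.e (nat_lit 1176) (nat_lit 87) .nil))))))) (.g (nat_lit 5) .nil .nil))) 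
(.lf (nat_lit 183152) (.g (nat_lit 1257) (.e (nat_lit 57849) (nat_lit 252) (.e (nat_lit 57447) (nat_lit 19) (.e (nat_lit 393226) (nat_lit 9) .nil))) .nil)))) (.nd (nat_lit 4) (.nd (nat_lit 5) 
(.lf (nat_lit 183112) (.g (nat_lit 3128) (.e (nat_lit 57849) (nat_lit 252) (.e (nat_lit 57437) (nat_lit 17) (.e (nat_lit 376842) (nat_lit 11) (.e (nat_lit 426298) (nat_lit 11) (.e (nat_lit 458771) (nat_lit 18) (.e (nat_lit 5537) (nat_lit 306) (.e (nat_lit 1074) (nat_lit 81) (.e (nat_lit 1176) (nat_lit 87) .nil)))))))) (.g (nat_lit 6) .nil .nil))) 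
(.lf (nat_lit 183144) (.g (nat_lit 1999) (.e (nat_lit 57849) (nat_lit 252) (.e (nat_lit 57445) (nat_lit 19) (.e (nat_lit 393229) (nat_lit 9) (.e (nat_lit 336088) (nat_lit 9) (.e (nat_lit 336322) (nat_lit 18) .nil))))) .nil))) (.nd (nat_lit 5) 
(.lf (nat_lit 183128) (.g (nat_lit 2308) (.e (nat_lit 57849) (nat_lit 252) (.e (nat_lit 57437) (nat_lit 17) (.e (nat_lit 376842) (nat_lit 11) (.e (nat_lit 426315) (nat_lit 12) (.e (nat_lit 475205) (nat_lit 40) .nil))))) .nil)) 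
(.lf (nat_lit 183160) (.g (nat_lit 337) (.e (nat_lit 57849) (nat_lit 252) (.e (nat_lit 57448) (nat_lit 19) (.e (nat_lit 393229) (nat_lit 9) .nil))) .nil))))) (.nd (nat_lit 3) (.nd (nat_lit 4) (.nd (nat_lit 5) 
(.lf (nat_lit 183108) (.g (nat_lit 1507) (.e (nat_lit 57849) (nat_lit 252) (.e (nat_lit 57437) (nat_lit 17) (.e (nat_lit 376842) (nat_lit 11) (.e (nat_lit 426296) (nat_lit 11) (.e (nat_lit 458774) (nat_lit 18) .nil))))) .nil)) 
(.lf (nat_lit 183140) (.g (nat_lit 1840) (.e (nat_lit 57849) (nat_lit 252) (.e (nat_lit 57445) (nat_lit 19) (.e (nat_lit 393229) (nat_lit 9) (.e (nat_lit 336078) (nat_lit 9) (.e (nat_lit 336322) (nat_lit 18) .nil))))) .nil))) (.nd (nat_lit 5) 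
(.lf (nat_lit 183124) (.g (nat_lit 1281) (.e (nat_lit 57849) (nat_lit 252) (.e (nat_lit 57437) (nat_lit 17) (.e (nat_lit 376842) (nat_lit 11) (.e (nat_lit 426308) (nat_lit 12) .nil)))) .nil)) 
(.lf (nat_lit 183156) (.g (nat_lit 3179) (.e (nat_lit 57849) (nat_lit 252) (.e (nat_lit 57448) (nat_lit 19) (.e (nat_lit 393225) (nat_lit 9) (.e (nat_lit 336196) (nat_lit 12) (.e (nat_lit 385066) (nat_lit 26) (.e (nat_lit 532502) (nat_lit 1) .nil)))))) (.g (nat_lit 5) .nil .nil))))) (.nd (nat_lit 4) (.nd (nat_lit 5) 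
(.lf (nat_lit 183116) (.g (nat_lit 2690) (.e (nat_lit 57849) (nat_lit 252) (.e (nat_lit 57437) (nat_lit 17) (.e (nat_lit 376842) (nat_lit 11) (.e (nat_lit 426305) (nat_lit 12) (.e (nat_lit 475212) (nat_lit 42) .nil))))) .nil)) 
(.lf (nat_lit 183148) (.g (nat_lit 1799) (.e (nat_lit 57849) (nat_lit 252) (.e (nat_lit 57445) (nat_lit 19) (.e (nat_lit 393229) (nat_lit 9) (.e (nat_lit 336196) (nat_lit 12) (.e (nat_lit 385064) (nat_lit 26) .nil))))) .nil))) (.nd (nat_lit 5) 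
(.lf (nat_lit 183132) (.g (nat_lit 2103) (.e (nat_lit 57849) (nat_lit 252) (.e (nat_lit 57440) (nat_lit 18) (.e (nat_lit 385068) (nat_lit 26) (.e (nat_lit 532560) (nat_lit 14) (.e (nat_lit 376857) (nat_lit 21) .nil))))) .nil)) 
(.lf (nat_lit 183164) (.g (nat_lit 2610) (.e (nat_lit 57849) (nat_lit 252) (.e (nat_lit 57448) (nat_lit 19) (.e (nat_lit 393229) (nat_lit 9) (.e (nat_lit 336202) (nat_lit 12) (.e (nat_lit 385066) (nat_lit 26) (.e (nat_lit 532502) (nat_lit 1) .nil)))))) (.g (nat_lit 5) .nil .nil))))))) (.nd (nat_lit 2) (.nd (nat_lit 3) (.nd (nat_lit 4) (.nd (nat_lit 5) 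
(.lf (nat_lit 183106) (.g (nat_lit 2594) (.e (nat_lit 57849) (nat_lit 252) (.e (nat_lit 57437) (nat_lit 17) (.e (nat_lit 376842) (nat_lit 11) (.e (nat_lit 426296) (nat_lit 11) (.e (nat_lit 458771) (nat_lit 18) (.e (nat_lit 5537) (nat_lit 306) (.e (nat_lit 1074) (nat_lit 81) (.e (nat_lit 1176) (nat_lit 87) .nil)))))))) (.g (nat_lit 4) .nil .nil))) 
(.lf (nat_lit 183138) (.g (nat_lit 2638) (.e (nat_lit 57849) (nat_lit 252) (.e (nat_lit 57445) (nat_lit 19) (.e (nat_lit 393229) (nat_lit 9) (.e (nat_lit 336074) (nat_lit 9) .nil)))) .nil))) (.nd (nat_lit 5) 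
(.lf (nat_lit 183122) (.g (nat_lit 3023) (.e (nat_lit 57849) (nat_lit 252) (.e (nat_lit 57437) (nat_lit 17) (.e (nat_lit 376842) (nat_lit 11) (.e (nat_lit 426306) (nat_lit 12) (.e (nat_lit 475212) (nat_lit 42) (.e (nat_lit 720933) (nat_lit 21) .nil)))))) (.g (nat_lit 4) .nil .nil))) 
(.lf (nat_lit 183154) (.g (nat_lit 2287) (.e (nat_lit 57849) (nat_lit 252) (.e (nat_lit 57448) (nat_lit 19) (.e (nat_lit 393225) (nat_lit 9) (.e (nat_lit 336193) (nat_lit 12) (.e (nat_lit 385068) (nat_lit 26) .nil))))) .nil)))) (.nd (nat_lit 4) (.nd (nat_lit 5) 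
(.lf (nat_lit 183114) (.g (nat_lit 2641) (.e (nat_lit 57849) (nat_lit 252) (.e (nat_lit 57437) (nat_lit 17) (.e (nat_lit 376842) (nat_lit 11) (.e (nat_lit 426298) (nat_lit 11) (.e (nat_lit 458774) (nat_lit 18) (.e (nat_lit 5230) (nat_lit 296) (.e (nat_lit 171776) (nat_lit 62) .nil))))))) (.g (nat_lit 5) .nil .nil))) 
(.lf (nat_lit 183146) (.g (nat_lit 3266) (.e (nat_lit 57849) (nat_lit 252) (.e (nat_lit 57445) (nat_lit 19) (.e (nat_lit 393229) (nat_lit 9) (.e (nat_lit 336100) (nat_lit 9) .nil)))) .nil))) (.nd (nat_lit 5) 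
(.lf (nat_lit 183130) (.g (nat_lit 3689) (.e (nat_lit 57849) (nat_lit 252) (.e (nat_lit 57440) (nat_lit 18) (.e (nat_lit 385066) (nat_lit 26) (.e (nat_lit 532560) (nat_lit 14) (.e (nat_lit 376860) (nat_lit 21) (.e (nat_lit 57692) (nat_lit 156) (.e (nat_lit 171776) (nat_lit 62) .nil))))))) (.g (nat_lit 6) .nil .nil))) 
(.lf (nat_lit 183162) (.g (nat_lit 1177) (.e (nat_lit 57849) (nat_lit 252) (.e (nat_lit 57448) (nat_lit 19) (.e (nat_lit 393229) (nat_lit 9) (.e (nat_lit 343808) (nat_lit 9) .nil)))) .nil))))) (.nd (nat_lit 3) (.nd (nat_lit 4) (.nd (nat_lit 5) 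
(.lf (nat_lit 183110) (.g (nat_lit 2614) (.e (nat_lit 57849) (nat_lit 252) (.e (nat_lit 57437) (nat_lit 17) (.e (nat_lit 376842) (nat_lit 11) (.e (nat_lit 426296) (nat_lit 11) (.e (nat_lit 458774) (nat_lit 18) (.e (nat_lit 5230) (nat_lit 296) (.e (nat_lit 171776) (nat_lit 62) .nil))))))) (.g (nat_lit 5) .nil .nil))) 
(.lf (nat_lit 183142) (.g (nat_lit 1744) (.e (nat_lit 57849) (nat_lit 252) (.e (nat_lit 57445) (nat_lit 19) (.e (nat_lit 393229) (nat_lit 9) (.e (nat_lit 336086) (nat_lit 9) (.e (nat_lit 336247) (nat_lit 15) .nil))))) .nil))) (.nd (nat_lit 5) 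
(.lf (nat_lit 183126) (.g (nat_lit 3501) (.e (nat_lit 57849) (nat_lit 252) (.e (nat_lit 57437) (nat_lit 17) (.e (nat_lit 376842) (nat_lit 11) (.e (nat_lit 426314) (nat_lit 12) (.e (nat_lit 475214) (nat_lit 42) (.e (nat_lit 720929) (nat_lit 21) .nil)))))) (.g (nat_lit 5) .nil .nil))) 
(.lf (nat_lit 183158) (.g (nat_lit 1857) (.e (nat_lit 57849) (nat_lit 252) (.e (nat_lit 57448) (nat_lit 19) (.e (nat_lit 393228) (nat_lit 9) (.e (nat_lit 336076) (nat_lit 9) (.e (nat_lit 336324) (nat_lit 18) .nil))))) .nil)))) (.nd (nat_lit 4) (.nd (nat_lit 5) 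
(.lf (nat_lit 183118) (.g (nat_lit 1852) (.e (nat_lit 57849) (nat_lit 252) (.e (nat_lit 57437) (nat_lit 17) (.e (nat_lit 376842) (nat_lit 11) (.e (nat_lit 426306) (nat_lit 12) (.e (nat_lit 475201) (nat_lit 40) .nil))))) .nil)) 
(.lf (nat_lit 183150) (.g (nat_lit 3176) (.e (nat_lit 57849) (nat_lit 252) (.e (nat_lit 57445) (nat_lit 19) (.e (nat_lit 393229) (nat_lit 9) (.e (nat_lit 336202) (nat_lit 12) (.e (nat_lit 385066) (nat_lit 26) (.e (nat_lit 532502) (nat_lit 1) .nil)))))) (.g (nat_lit 5) .nil .nil)))) (.nd (nat_lit 5) 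
(.lf (nat_lit 183134) (.g (nat_lit 3881) (.e (nat_lit 57849) (nat_lit 252) (.e (nat_lit 57443) (nat_lit 18) (.e (nat_lit 385068) (nat_lit 26) (.e (nat_lit 532560) (nat_lit 14) (.e (nat_lit 376860) (nat_lit 21) (.e (nat_lit 57692) (nat_lit 156) (.e (nat_lit 171776) (nat_lit 62) .nil))))))) (.g (nat_lit 6) .nil .nil))) 
(.lf (nat_lit 183166) (.g (nat_lit 1537) (.e (nat_lit 57849) (nat_lit 252) (.e (nat_lit 57448) (nat_lit 19) (.e (nat_lit 393234) (nat_lit 17) (.e (nat_lit 3479) (nat_lit 218) .nil)))) .nil))))))) (.nd (nat_lit 1) (.nd (nat_lit 2) (.nd (nat_lit 3) (.nd (nat_lit 4) (.nd (nat_lit 5) 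
(.lf (nat_lit 183105) (.g (nat_lit 1807) (.e (nat_lit 57849) (nat_lit 252) (.e (nat_lit 57437) (nat_lit 17) (.e (nat_lit 376842) (nat_lit 11) (.e (nat_lit 426204) (nat_lit 9) .nil)))) .nil)) 
(.lf (nat_lit 183137) (.g (nat_lit 2935) (.e (nat_lit 57849) (nat_lit 252) (.e (nat_lit 57445) (nat_lit 19) (.e (nat_lit 393225) (nat_lit 9) (.e (nat_lit 336204) (nat_lit 12) (.e (nat_lit 385066) (nat_lit 26) (.e (nat_lit 532502) (nat_lit 1) .nil)))))) (.g (nat_lit 5) .nil .nil)))) (.nd (nat_lit 5) 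
(.lf (nat_lit 183121) (.g (nat_lit 3514) (.e (nat_lit 57849) (nat_lit 252) (.e (nat_lit 57437) (nat_lit 17) (.e (nat_lit 376842) (nat_lit 11) (.e (nat_lit 426306) (nat_lit 12) (.e (nat_lit 475205) (nat_lit 40) (.e (nat_lit 704606) (nat_lit 9) (.e (nat_lit 1186) (nat_lit 87) .nil))))))) (.g (nat_lit 4) .nil .nil))) 
(.lf (nat_lit 183153) (.g (nat_lit 2189) (.e (nat_lit 57849) (nat_lit 252) (.e (nat_lit 57447) (nat_lit 19) (.e (nat_lit 393229) (nat_lit 9) (.e (nat_lit 336194) (nat_lit 12) .nil)))) .nil)))) (.nd (nat_lit 4) (.nd (nat_lit 5) 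
(.lf (nat_lit 183113) (.g (nat_lit 3388) (.e (nat_lit 57849) (nat_lit 252) (.e (nat_lit 57437) (nat_lit 17) (.e (nat_lit 376842) (nat_lit 11) (.e (nat_lit 426298) (nat_lit 11) (.e (nat_lit 458774) (nat_lit 18) (.e (nat_lit 5224) (nat_lit 296) (.e (nat_lit 171776) (nat_lit 62) .nil))))))) (.g (nat_lit 6) .nil .nil))) 
(.lf (nat_lit 183145) (.g (nat_lit 3173) (.e (nat_lit 57849) (nat_lit 252) (.e (nat_lit 57445) (nat_lit 19) (.e (nat_lit 393229) (nat_lit 9) (.e (nat_lit 336091) (nat_lit 9) .nil)))) .nil))) (.nd (nat_lit 5) 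
(.lf (nat_lit 183129) (.g (nat_lit 3221) (.e (nat_lit 57849) (nat_lit 252) (.e (nat_lit 57437) (nat_lit 17) (.e (nat_lit 376842) (nat_lit 11) (.e (nat_lit 426315) (nat_lit 12) (.e (nat_lit 475212) (nat_lit 42) (.e (nat_lit 720929) (nat_lit 21) .nil)))))) (.g (nat_lit 5) .nil .nil))) 
(.lf (nat_lit 183161) (.g (nat_lit 1613) (.e (nat_lit 57849) (nat_lit 252) (.e (nat_lit 57448) (nat_lit 19) (.e (nat_lit 393229) (nat_lit 9) (.e (nat_lit 336078) (nat_lit 9) (.e (nat_lit 336322) (nat_lit 18) .nil))))) .nil))))) (.nd (nat_lit 3) (.nd (nat_lit 4) (.nd (nat_lit 5) 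
(.lf (nat_lit 183109) (.g (nat_lit 3255) (.e (nat_lit 57849) (nat_lit 252) (.e (nat_lit 57437) (nat_lit 17) (.e (nat_lit 376842) (nat_lit 11) (.e (nat_lit 426296) (nat_lit 11) (.e (nat_lit 458774) (nat_lit 18) (.e (nat_lit 5224) (nat_lit 296) (.e (nat_lit 171776) (nat_lit 62) .nil))))))) (.g (nat_lit 6) .nil .nil))) 
(.lf (nat_lit 183141) (.g (nat_lit 1466) (.e (nat_lit 57849) (nat_lit 252) (.e (nat_lit 57445) (nat_lit 19) (.e (nat_lit 393229) (nat_lit 9) (.e (nat_lit 336085) (nat_lit 9) .nil)))) .nil))) (.nd (nat_lit 5) 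
(.lf (nat_lit 183125) (.g (nat_lit 1978) (.e (nat_lit 57849) (nat_lit 252) (.e (nat_lit 57437) (nat_lit 17) (.e (nat_lit 376842) (nat_lit 11) (.e (nat_lit 426314) (nat_lit 12) (.e (nat_lit 475206) (nat_lit 40) .nil))))) .nil)) 
(.lf (nat_lit 183157) (.g (nat_lit 600) (.e (nat_lit 57849) (nat_lit 252) (.e (nat_lit 57448) (nat_lit 19) (.e (nat_lit 393228) (nat_lit 9) .nil))) .nil)))) (.nd (nat_lit 4) (.nd (nat_lit 5) 
(.lf (nat_lit 183117) (.g (nat_lit 1271) (.e (nat_lit 57849) (nat_lit 252) (.e (nat_lit 57437) (nat_lit 17) (.e (nat_lit 376842) (nat_lit 11) (.e (nat_lit 426306) (nat_lit 12) .nil)))) .nil)) 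
(.lf (nat_lit 183149) (.g (nat_lit 1968) (.e (nat_lit 57849) (nat_lit 252) (.e (nat_lit 57445) (nat_lit 19) (.e (nat_lit 393229) (nat_lit 9) (.e (nat_lit 336201) (nat_lit 12) .nil)))) .nil))) (.nd (nat_lit 5) 
(.lf (nat_lit 183133) (.g (nat_lit 4154) (.e (nat_lit 57849) (nat_lit 252) (.e (nat_lit 57440) (nat_lit 18) (.e (nat_lit 385068) (nat_lit 26) (.e (nat_lit 532560) (nat_lit 14) (.e (nat_lit 376860) (nat_lit 21) (.e (nat_lit 57692) (nat_lit 156) (.e (nat_lit 171776) (nat_lit 62) .nil))))))) (.g (nat_lit 6) .nil .nil))) 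
(.lf (nat_lit 183165) (.g (nat_lit 1550) (.e (nat_lit 57849) (nat_lit 252) (.e (nat_lit 57448) (nat_lit 19) (.e (nat_lit 393234) (nat_lit 17) (.e (nat_lit 2405) (nat_lit 157) .nil)))) .nil)))))) (.nd (nat_lit 2) (.nd (nat_lit 3) (.nd (nat_lit 4) (.nd (nat_lit 5) 
(.lf (nat_lit 183107) (.g (nat_lit 3512) (.e (nat_lit 57849) (nat_lit 252) (.e (nat_lit 57437) (nat_lit 17) (.e (nat_lit 376842) (nat_lit 11) (.e (nat_lit 426296) (nat_lit 11) (.e (nat_lit 458771) (nat_lit 18) (.e (nat_lit 5537) (nat_lit 306) (.e (nat_lit 1077) (nat_lit 81) (.e (nat_lit 1176) (nat_lit 87) .nil)))))))) (.g (nat_lit 7) .nil .nil))) 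
(.lf (nat_lit 183139) (.g (nat_lit 1508) (.e (nat_lit 57849) (nat_lit 252) (.e (nat_lit 57445) (nat_lit 19) (.e (nat_lit 393229) (nat_lit 9) (.e (nat_lit 336077) (nat_lit 9) .nil)))) .nil))) (.nd (nat_lit 5) 
(.lf (nat_lit 183123) (.g (nat_lit 2648) (.e (nat_lit 57849) (nat_lit 252) (.e (nat_lit 57437) (nat_lit 17) (.e (nat_lit 376842) (nat_lit 11) (.e (nat_lit 426306) (nat_lit 12) (.e (nat_lit 475214) (nat_lit 42) (.e (nat_lit 728832) (nat_lit 21) .nil)))))) (.g (nat_lit 4) .nil .nil))) 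
(.lf (nat_lit 183155) (.g (nat_lit 1315) (.e (nat_lit 57849) (nat_lit 252) (.e (nat_lit 57448) (nat_lit 19) (.e (nat_lit 393225) (nat_lit 9) (.e (nat_lit 336195) (nat_lit 12) .nil)))) .nil)))) (.nd (nat_lit 4) (.nd (nat_lit 5) 
(.lf (nat_lit 183115) (.g (nat_lit 3339) (.e (nat_lit 57849) (nat_lit 252) (.e (nat_lit 57437) (nat_lit 17) (.e (nat_lit 376842) (nat_lit 11) (.e (nat_lit 426298) (nat_lit 11) (.e (nat_lit 458774) (nat_lit 18) (.e (nat_lit 5232) (nat_lit 296) (.e (nat_lit 171776) (nat_lit 62) .nil))))))) (.g (nat_lit 6) .nil .nil))) 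
(.lf (nat_lit 183147) (.g (nat_lit 3196) (.e (nat_lit 57849) (nat_lit 252) (.e (nat_lit 57445) (nat_lit 19) (.e (nat_lit 393229) (nat_lit 9) (.e (nat_lit 336150) (nat_lit 9) .nil)))) .nil))) (.nd (nat_lit 5) 
(.lf (nat_lit 183131) (.g (nat_lit 2199) (.e (nat_lit 57849) (nat_lit 252) (.e (nat_lit 57440) (nat_lit 18) (.e (nat_lit 385066) (nat_lit 26) (.e (nat_lit 532561) (nat_lit 14) (.e (nat_lit 376857) (nat_lit 21) (.e (nat_lit 57692) (nat_lit 156) (.e (nat_lit 171776) (nat_lit 62) .nil))))))) (.g (nat_lit 4) .nil .nil))) 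
(.lf (nat_lit 183163) (.g (nat_lit 1382) (.e (nat_lit 57849) (nat_lit 252) (.e (nat_lit 57448) (nat_lit 19) (.e (nat_lit 393229) (nat_lit 9) (.e (nat_lit 336195) (nat_lit 12) .nil)))) .nil))))) (.nd (nat_lit 3) (.nd (nat_lit 4) (.nd (nat_lit 5) 
(.lf (nat_lit 183111) (.g (nat_lit 3232) (.e (nat_lit 57849) (nat_lit 252) (.e (nat_lit 57437) (nat_lit 17) (.e (nat_lit 376842) (nat_lit 11) (.e (nat_lit 426296) (nat_lit 11) (.e (nat_lit 458774) (nat_lit 18) (.e (nat_lit 5232) (nat_lit 296) (.e (nat_lit 171776) (nat_lit 62) .nil))))))) (.g (nat_lit 6) .nil .nil))) 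
(.lf (nat_lit 183143) (.g (nat_lit 2125) (.e (nat_lit 57849) (nat_lit 252) (.e (nat_lit 57445) (nat_lit 19) (.e (nat_lit 393229) (nat_lit 9) (.e (nat_lit 336087) (nat_lit 9) .nil)))) .nil))) (.nd (nat_lit 5) 
(.lf (nat_lit 183127) (.g (nat_lit 1333) (.e (nat_lit 57849) (nat_lit 252) (.e (nat_lit 57437) (nat_lit 17) (.e (nat_lit 376842) (nat_lit 11) (.e (nat_lit 426315) (nat_lit 12) .nil)))) .nil)) 
(.lf (nat_lit 183159) (.g (nat_lit 1851) (.e (nat_lit 57849) (nat_lit 252) (.e (nat_lit 57448) (nat_lit 19) (.e (nat_lit 393228) (nat_lit 9) (.e (nat_lit 336088) (nat_lit 9) (.e (nat_lit 336324) (nat_lit 18) .nil))))) .nil)))) (.nd (nat_lit 4) (.nd (nat_lit 5) 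
(.lf (nat_lit 183119) (.g (nat_lit 2670) (.e (nat_lit 57849) (nat_lit 252) (.e (nat_lit 57437) (nat_lit 17) (.e (nat_lit 376842) (nat_lit 11) (.e (nat_lit 426306) (nat_lit 12) (.e (nat_lit 475205) (nat_lit 40) .nil))))) .nil)) 
(.lf (nat_lit 183151) (.g (nat_lit 3227) (.e (nat_lit 57849) (nat_lit 252) (.e (nat_lit 57445) (nat_lit 19) (.e (nat_lit 393229) (nat_lit 9) (.e (nat_lit 336203) (nat_lit 12) (.e (nat_lit 385066) (nat_lit 26) (.e (nat_lit 532502) (nat_lit 1) .nil)))))) (.g (nat_lit 6) .nil .nil)))) (.nd (nat_lit 5) 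
(.lf (nat_lit 183135) (.g (nat_lit 2669) (.e (nat_lit 57849) (nat_lit 252) (.e (nat_lit 57445) (nat_lit 19) (.e (nat_lit 393225) (nat_lit 9) (.e (nat_lit 336194) (nat_lit 12) (.e (nat_lit 385066) (nat_lit 26) (.e (nat_lit 532502) (nat_lit 1) .nil)))))) (.g (nat_lit 5) .nil .nil))) 
(.lf (nat_lit 183167) (.g (nat_lit 3531) (.e (nat_lit 57849) (nat_lit 252) (.e (nat_lit 57448) (nat_lit 19) (.e (nat_lit 393251) (nat_lit 18) (.e (nat_lit 164325) (nat_lit 230) (.e (nat_lit 163864) (nat_lit 1) (.e (nat_lit 164332) (nat_lit 230) (.e (nat_lit 163884) (nat_lit 5) (.e (nat_lit 229120) (nat_lit 1) .nil)))))))) (.g (nat_lit 6) .nil .nil)))))))))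

noncomputable def tv2445 : DT := (.nd (nat_lit 0) (.nd (nat_lit 1) (.nd (nat_lit 2) (.nd (nat_lit 3) (.nd (nat_lit 4) (.nd (nat_lit 5) (.nd (nat_lit 6) 
(.lf (nat_lit 183168) (.g (nat_lit 3809) (.e (nat_lit 57849) (nat_lit 252) (.e (nat_lit 57448) (nat_lit 19) (.e (nat_lit 393251) (nat_lit 18) (.e (nat_lit 164325) (nat_lit 230) (.e (nat_lit 163864) (nat_lit 1) (.e (nat_lit 164332) (nat_lit 230) (.e (nat_lit 163885) (nat_lit 5) (.e (nat_lit 229120) (nat_lit 1) .nil)))))))) (.g (nat_lit 6) .nil .nil))) 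
(.lf (nat_lit 183232) (.g (nat_lit 2374) (.e (nat_lit 57851) (nat_lit 252) (.e (nat_lit 57347) (nat_lit 0) (.e (nat_lit 2032) (nat_lit 140) (.e (nat_lit 688182) (nat_lit 17) (.e (nat_lit 73755) (nat_lit 8) (.e (nat_lit 557097) (nat_lit 13) (.e (nat_lit 179968) (nat_lit 20) (.e (nat_lit 114710) (nat_lit 21) .nil)))))))) (.g (nat_lit 5) .nil .nil)))) (.nd (nat_lit 6) 
(.lf (nat_lit 183200) (.g (nat_lit 3020) (.e (nat_lit 57850) (nat_lit 252) (.e (nat_lit 57445) (nat_lit 19) (.e (nat_lit 393229) (nat_lit 9) (.e (nat_lit 336088) (nat_lit 9) .nil)))) .nil)) 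
(.lf (nat_lit 183264) (.g (nat_lit 4256) (.e (nat_lit 57851) (nat_lit 252) (.e (nat_lit 57354) (nat_lit 0) (.e (nat_lit 2177) (nat_lit 143) (.e (nat_lit 712755) (nat_lit 30) (.e (nat_lit 450588) (nat_lit 10) (.e (nat_lit 573449) (nat_lit 9) (.e (nat_lit 1183) (nat_lit 87) (.e (nat_lit 57848) (nat_lit 252) (.e (nat_lit 57365) (nat_lit 1) .nil))))))))) (.g (nat_lit 7) .nil .nil))))) 
(.nd (nat_lit 5) (.nd (nat_lit 6) 
(.lf (nat_lit 183184) (.g (nat_lit 3790) (.e (nat_lit 57850) (nat_lit 252) (.e (nat_lit 57377) (nat_lit 3) (.e (nat_lit 98317) (nat_lit 9) (.e (nat_lit 336222) (nat_lit 13) .nil)))) .nil)) 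
(.lf (nat_lit 183248) (.g (nat_lit 3277) (.e (nat_lit 57851) (nat_lit 252) (.e (nat_lit 57354) (nat_lit 0) (.e (nat_lit 1855) (nat_lit 124) (.e (nat_lit 557107) (nat_lit 15) (.e (nat_lit 188459) (nat_lit 26) (.e (nat_lit 253967) (nat_lit 9) (.e (nat_lit 1183) (nat_lit 87) (.e (nat_lit 57848) (nat_lit 252) (.e (nat_lit 57368) (nat_lit 1) .nil))))))))) (.g (nat_lit 5) .nil .nil)))) (.nd (nat_lit 6) 
(.lf (nat_lit 183216) (.g (nat_lit 1732) (.e (nat_lit 57850) (nat_lit 252) (.e (nat_lit 57447) (nat_lit 19) (.e (nat_lit 393229) (nat_lit 9) (.e (nat_lit 336086) (nat_lit 9) .nil)))) .nil)) 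
(.lf (nat_lit 183280) (.g (nat_lit 344) (.e (nat_lit 57851) (nat_lit 252) (.e (nat_lit 57371) (nat_lit 2) (.e (nat_lit 90128) (nat_lit 9) .nil))) .nil))))) (.nd (nat_lit 4) (.nd (nat_lit 5) (.nd (nat_lit 6) 
(.lf (nat_lit 183176) (.g (nat_lit 4085) (.e (nat_lit 57850) (nat_lit 252) (.e (nat_lit 57377) (nat_lit 3) (.e (nat_lit 98317) (nat_lit 9) (.e (nat_lit 336077) (nat_lit 9) .nil)))) .nil)) 
(.lf (nat_lit 183240) (.g (nat_lit 2864) (.e (nat_lit 57851) (nat_lit 252) (.e (nat_lit 57354) (nat_lit 0) (.e (nat_lit 1788) (nat_lit 119) (.e (nat_lit 516195) (nat_lit 26) (.e (nat_lit 336223) (nat_lit 13) (.e (nat_lit 393229) (nat_lit 9) (.e (nat_lit 335994) (nat_lit 1) .nil))))))) (.g (nat_lit 5) .nil .nil)))) (.nd (nat_lit 6) 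
(.lf (nat_lit 183208) (.g (nat_lit 1373) (.e (nat_lit 57850) (nat_lit 252) (.e (nat_lit 57447) (nat_lit 19) (.e (nat_lit 393225) (nat_lit 9) (.e (nat_lit 336076) (nat_lit 9) .nil)))) .nil)) 
(.lf (nat_lit 183272) (.g (nat_lit 3567) (.e (nat_lit 57851) (nat_lit 252) (.e (nat_lit 57370) (nat_lit 2) (.e (nat_lit 90158) (nat_lit 11) (.e (nat_lit 24655) (nat_lit 13) (.e (nat_lit 393225) (nat_lit 9) (.e (nat_lit 335996) (nat_lit 1) .nil)))))) (.g (nat_lit 0) .nil .nil))))) (.nd (nat_lit 5) (.nd (nat_lit 6) 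
(.lf (nat_lit 183192) (.g (nat_lit 1949) (.e (nat_lit 57850) (nat_lit 252) (.e (nat_lit 57412) (nat_lit 12) (.e (nat_lit 336389) (nat_lit 27) (.e (nat_lit 426500) (nat_lit 27) (.e (nat_lit 336194) (nat_lit 12) .nil))))) .nil)) 
(.lf (nat_lit 183256) (.g (nat_lit 4295) (.e (nat_lit 57851) (nat_lit 252) (.e (nat_lit 57354) (nat_lit 0) (.e (nat_lit 1855) (nat_lit 124) (.e (nat_lit 557109) (nat_lit 15) (.e (nat_lit 188461) (nat_lit 26) (.e (nat_lit 253959) (nat_lit 9) (.e (nat_lit 1183) (nat_lit 87) (.e (nat_lit 57848) (nat_lit 252) (.e (nat_lit 57368) (nat_lit 1) .nil))))))))) (.g (nat_lit 7) .nil .nil)))) (.nd (nat_lit 6) 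
(.lf (nat_lit 183224) (.g (nat_lit 2711) (.e (nat_lit 57851) (nat_lit 252) (.e (nat_lit 57347) (nat_lit 0) (.e (nat_lit 2024) (nat_lit 140) (.e (nat_lit 688182) (nat_lit 17) (.e (nat_lit 73755) (nat_lit 8) (.e (nat_lit 557098) (nat_lit 13) (.e (nat_lit 179968) (nat_lit 20) (.e (nat_lit 114712) (nat_lit 21) .nil)))))))) (.g (nat_lit 5) .nil .nil))) 
(.lf (nat_lit 183288) (.g (nat_lit 514) (.e (nat_lit 57851) (nat_lit 252) (.e (nat_lit 57371) (nat_lit 2) (.e (nat_lit 90140) (nat_lit 9) .nil))) .nil)))))) (.nd (nat_lit 3) (.nd (nat_lit 4) (.nd (nat_lit 5) (.nd (nat_lit 6) 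
(.lf (nat_lit 183172) (.g (nat_lit 2706) (.e (nat_lit 57850) (nat_lit 252) (.e (nat_lit 57373) (nat_lit 2) (.e (nat_lit 90158) (nat_lit 11) (.e (nat_lit 24655) (nat_lit 13) (.e (nat_lit 393229) (nat_lit 9) .nil))))) .nil)) 
(.lf (nat_lit 183236) (.g (nat_lit 3649) (.e (nat_lit 57851) (nat_lit 252) (.e (nat_lit 57347) (nat_lit 0) (.e (nat_lit 2203) (nat_lit 144) (.e (nat_lit 720954) (nat_lit 25) (.e (nat_lit 114714) (nat_lit 22) (.e (nat_lit 90170) (nat_lit 13) (.e (nat_lit 179968) (nat_lit 20) (.e (nat_lit 114712) (nat_lit 21) .nil)))))))) (.g (nat_lit 6) .nil .nil)))) (.nd (nat_lit 6) 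
(.lf (nat_lit 183204) (.g (nat_lit 2309) (.e (nat_lit 57850) (nat_lit 252) (.e (nat_lit 57445) (nat_lit 19) (.e (nat_lit 393229) (nat_lit 9) (.e (nat_lit 336203) (nat_lit 12) .nil)))) .nil)) 
(.lf (nat_lit 183268) (.g (nat_lit 2038) (.e (nat_lit 57851) (nat_lit 252) (.e (nat_lit 57364) (nat_lit 1) (.e (nat_lit 57851) (nat_lit 252) (.e (nat_lit 57347) (nat_lit 0) (.e (nat_lit 2160) (nat_lit 143) (.e (nat_lit 712755) (nat_lit 30) (.e (nat_lit 450588) (nat_lit 10) (.e (nat_lit 573451) (nat_lit 9) (.e (nat_lit 1177) (nat_lit 87) .nil))))))))) (.g (nat_lit 4) .nil .nil))))) 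
(.nd (nat_lit 5) (.nd (nat_lit 6) 
(.lf (nat_lit 183188) (.g (nat_lit 2477) (.e (nat_lit 57850) (nat_lit 252) (.e (nat_lit 57406) (nat_lit 12) (.e (nat_lit 336454) (nat_lit 34) (.e (nat_lit 483380) (nat_lit 23) .nil)))) .nil)) 
(.lf (nat_lit 183252) (.g (nat_lit 3282) (.e (nat_lit 57851) (nat_lit 252) (.e (nat_lit 57354) (nat_lit 0) (.e (nat_lit 1855) (nat_lit 124) (.e (nat_lit 557109) (nat_lit 15) (.e (nat_lit 188461) (nat_lit 26) (.e (nat_lit 253959) (nat_lit 9) (.e (nat_lit 1181) (nat_lit 87) (.e (nat_lit 57847) (nat_lit 252) (.e (nat_lit 57368) (nat_lit 1) .nil))))))))) (.g (nat_lit 5) .nil .nil)))) (.nd (nat_lit 6) 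
(.lf (nat_lit 183220) (.g (nat_lit 1837) (.e (nat_lit 57850) (nat_lit 252) (.e (nat_lit 57447) (nat_lit 19) (.e (nat_lit 393229) (nat_lit 9) (.e (nat_lit 336203) (nat_lit 12) .nil)))) .nil)) 
(.lf (nat_lit 183284) (.g (nat_lit 3486) (.e (nat_lit 57851) (nat_lit 252) (.e (nat_lit 57371) (nat_lit 2) (.e (nat_lit 90128) (nat_lit 9) (.e (nat_lit 314) (nat_lit 23) (.e (nat_lit 352275) (nat_lit 11) (.e (nat_lit 426500) (nat_lit 27) (.e (nat_lit 335996) (nat_lit 1) .nil))))))) (.g (nat_lit 0) .nil .nil)))))) (.nd (nat_lit 4) (.nd (nat_lit 5) (.nd (nat_lit 6) 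
(.lf (nat_lit 183180) (.g (nat_lit 3184) (.e (nat_lit 57850) (nat_lit 252) (.e (nat_lit 57377) (nat_lit 3) (.e (nat_lit 98317) (nat_lit 9) (.e (nat_lit 336088) (nat_lit 9) .nil)))) .nil)) 
(.lf (nat_lit 183244) (.g (nat_lit 455) (.e (nat_lit 57851) (nat_lit 252) (.e (nat_lit 57354) (nat_lit 0) (.e (nat_lit 1855) (nat_lit 124) .nil))) .nil))) (.nd (nat_lit 6) 
(.lf (nat_lit 183212) (.g (nat_lit 2291) (.e (nat_lit 57850) (nat_lit 252) (.e (nat_lit 57447) (nat_lit 19) (.e (nat_lit 393225) (nat_lit 9) (.e (nat_lit 336196) (nat_lit 12) (.e (nat_lit 385068) (nat_lit 26) .nil))))) .nil)) 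
(.lf (nat_lit 183276) (.g (nat_lit 2198) (.e (nat_lit 57851) (nat_lit 252) (.e (nat_lit 57371) (nat_lit 2) (.e (nat_lit 90121) (nat_lit 9) (.e (nat_lit 312) (nat_lit 23) (.e (nat_lit 352277) (nat_lit 11) (.e (nat_lit 426500) (nat_lit 27) (.e (nat_lit 335996) (nat_lit 1) .nil))))))) (.g (nat_lit 4) .nil .nil))))) (.nd (nat_lit 5) (.nd (nat_lit 6) 
(.lf (nat_lit 183196) (.g (nat_lit 1381) (.e (nat_lit 57850) (nat_lit 252) (.e (nat_lit 57424) (nat_lit 14) (.e (nat_lit 352277) (nat_lit 11) (.e (nat_lit 426190) (nat_lit 9) .nil)))) .nil)) 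
(.lf (nat_lit 183260) (.g (nat_lit 2649) (.e (nat_lit 57851) (nat_lit 252) (.e (nat_lit 57354) (nat_lit 0) (.e (nat_lit 1855) (nat_lit 124) (.e (nat_lit 557109) (nat_lit 15) (.e (nat_lit 188461) (nat_lit 26) (.e (nat_lit 253979) (nat_lit 9) (.e (nat_lit 1181) (nat_lit 87) (.e (nat_lit 57848) (nat_lit 252) (.e (nat_lit 57368) (nat_lit 1) .nil))))))))) (.g (nat_lit 4) .nil .nil)))) (.nd (nat_lit 6) 
(.lf (nat_lit 183228) (.g (nat_lit 3420) (.e (nat_lit 57851) (nat_lit 252) (.e (nat_lit 57347) (nat_lit 0) (.e (nat_lit 2031) (nat_lit 140) (.e (nat_lit 688180) (nat_lit 17) (.e (nat_lit 73753) (nat_lit 8) (.e (nat_lit 557098) (nat_lit 13) (.e (nat_lit 179968) (nat_lit 20) (.e (nat_lit 114712) (nat_lit 21) .nil)))))))) (.g (nat_lit 6) .nil .nil))) 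
(.lf (nat_lit 183292) (.g (nat_lit 1416) (.e (nat_lit 57851) (nat_lit 252) (.e (nat_lit 57371) (nat_lit 2) (.e (nat_lit 90158) (nat_lit 11) (.e (nat_lit 24654) (nat_lit 13) .nil)))) .nil))))))) (.nd (nat_lit 2) (.nd (nat_lit 3) (.nd (nat_lit 4) (.nd (nat_lit 5) (.nd (nat_lit 6) 
(.lf (nat_lit 183170) (.g (nat_lit 1123) (.e (nat_lit 57850) (nat_lit 252) (.e (nat_lit 57373) (nat_lit 2) (.e (nat_lit 90158) (nat_lit 11) .nil))) .nil)) 
(.lf (nat_lit 183234) (.g (nat_lit 5119) (.e (nat_lit 57851) (nat_lit 252) (.e (nat_lit 57347) (nat_lit 0) (.e (nat_lit 2160) (nat_lit 143) (.e (nat_lit 712755) (nat_lit 30) (.e (nat_lit 450588) (nat_lit 10) (.e (nat_lit 573449) (nat_lit 9) (.e (nat_lit 1183) (nat_lit 87) (.e (nat_lit 57848) (nat_lit 252) (.e (nat_lit 57368) (nat_lit 1) .nil))))))))) (.g (nat_lit 8) .nil .nil)))) (.nd (nat_lit 6) 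
(.lf (nat_lit 183202) (.g (nat_lit 3554) (.e (nat_lit 57850) (nat_lit 252) (.e (nat_lit 57445) (nat_lit 19) (.e (nat_lit 393229) (nat_lit 9) (.e (nat_lit 336196) (nat_lit 12) .nil)))) .nil)) 
(.lf (nat_lit 183266) (.g (nat_lit 3219) (.e (nat_lit 57851) (nat_lit 252) (.e (nat_lit 57364) (nat_lit 1) (.e (nat_lit 57830) (nat_lit 250) (.e (nat_lit 1201) (nat_lit 88) (.e (nat_lit 65583) (nat_lit 7) (.e (nat_lit 319530) (nat_lit 16) (.e (nat_lit 286748) (nat_lit 9) (.e (nat_lit 335990) (nat_lit 1) .nil)))))))) (.g (nat_lit 8) .nil .nil))))) (.nd (nat_lit 5) (.nd (nat_lit 6) 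
(.lf (nat_lit 183186) (.g (nat_lit 692) (.e (nat_lit 57850) (nat_lit 252) (.e (nat_lit 57378) (nat_lit 3) (.e (nat_lit 98317) (nat_lit 9) .nil))) .nil)) 
(.lf (nat_lit 183250) (.g (nat_lit 2611) (.e (nat_lit 57851) (nat_lit 252) (.e (nat_lit 57354) (nat_lit 0) (.e (nat_lit 1855) (nat_lit 124) (.e (nat_lit 557109) (nat_lit 15) (.e (nat_lit 188461) (nat_lit 26) (.e (nat_lit 253959) (nat_lit 9) (.e (nat_lit 1170) (nat_lit 87) (.e (nat_lit 57847) (nat_lit 252) (.e (nat_lit 57368) (nat_lit 1) .nil))))))))) (.g (nat_lit 4) .nil .nil)))) (.nd (nat_lit 6) 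
(.lf (nat_lit 183218) (.g (nat_lit 1855) (.e (nat_lit 57850) (nat_lit 252) (.e (nat_lit 57447) (nat_lit 19) (.e (nat_lit 393229) (nat_lit 9) (.e (nat_lit 336196) (nat_lit 12) .nil)))) .nil)) 
(.lf (nat_lit 183282) (.g (nat_lit 1441) (.e (nat_lit 57851) (nat_lit 252) (.e (nat_lit 57371) (nat_lit 2) (.e (nat_lit 90128) (nat_lit 9) (.e (nat_lit 297) (nat_lit 22) (.e (nat_lit 344119) (nat_lit 21) .nil))))) .nil))))) (.nd (nat_lit 4) (.nd (nat_lit 5) (.nd (nat_lit 6) 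
(.lf (nat_lit 183178) (.g (nat_lit 3857) (.e (nat_lit 57850) (nat_lit 252) (.e (nat_lit 57377) (nat_lit 3) (.e (nat_lit 98317) (nat_lit 9) (.e (nat_lit 336086) (nat_lit 9) .nil)))) .nil)) 
(.lf (nat_lit 183242) (.g (nat_lit 805) (.e (nat_lit 57851) (nat_lit 252) (.e (nat_lit 57354) (nat_lit 0) (.e (nat_lit 1799) (nat_lit 119) (.e (nat_lit 516131) (nat_lit 3) .nil)))) .nil))) (.nd (nat_lit 6) 
(.lf (nat_lit 183210) (.g (nat_lit 1345) (.e (nat_lit 57850) (nat_lit 252) (.e (nat_lit 57447) (nat_lit 19) (.e (nat_lit 393225) (nat_lit 9) (.e (nat_lit 336194) (nat_lit 12) .nil)))) .nil)) 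
(.lf (nat_lit 183274) (.g (nat_lit 1413) (.e (nat_lit 57851) (nat_lit 252) (.e (nat_lit 57370) (nat_lit 2) (.e (nat_lit 90158) (nat_lit 11) (.e (nat_lit 24660) (nat_lit 13) (.e (nat_lit 393224) (nat_lit 9) .nil))))) .nil)))) (.nd (nat_lit 5) (.nd (nat_lit 6) 
(.lf (nat_lit 183194) (.g (nat_lit 1256) (.e (nat_lit 57850) (nat_lit 252) (.e (nat_lit 57424) (nat_lit 14) (.e (nat_lit 352273) (nat_lit 11) (.e (nat_lit 426190) (nat_lit 9) .nil)))) .nil)) 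
(.lf (nat_lit 183258) (.g (nat_lit 3531) (.e (nat_lit 57851) (nat_lit 252) (.e (nat_lit 57354) (nat_lit 0) (.e (nat_lit 1855) (nat_lit 124) (.e (nat_lit 557109) (nat_lit 15) (.e (nat_lit 188461) (nat_lit 26) (.e (nat_lit 253960) (nat_lit 9) (.e (nat_lit 1183) (nat_lit 87) (.e (nat_lit 57848) (nat_lit 252) (.e (nat_lit 57368) (nat_lit 1) .nil))))))))) (.g (nat_lit 5) .nil .nil)))) (.nd (nat_lit 6) 
(.lf (nat_lit 183226) (.g (nat_lit 2191) (.e (nat_lit 57851) (nat_lit 252) (.e (nat_lit 57347) (nat_lit 0) (.e (nat_lit 2029) (nat_lit 140) (.e (nat_lit 688182) (nat_lit 17) (.e (nat_lit 73754) (nat_lit 8) (.e (nat_lit 557101) (nat_lit 13) (.e (nat_lit 179968) (nat_lit 20) (.e (nat_lit 114710) (nat_lit 21) .nil)))))))) (.g (nat_lit 5) .nil .nil))) 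
(.lf (nat_lit 183290) (.g (nat_lit 429) (.e (nat_lit 57851) (nat_lit 252) (.e (nat_lit 57371) (nat_lit 2) (.e (nat_lit 90158) (nat_lit 11) .nil))) .nil)))))) (.nd (nat_lit 3) (.nd (nat_lit 4) (.nd (nat_lit 5) (.nd (nat_lit 6) 
(.lf (nat_lit 183174) (.g (nat_lit 2173) (.e (nat_lit 57850) (nat_lit 252) (.e (nat_lit 57373) (nat_lit 2) (.e (nat_lit 90158) (nat_lit 11) (.e (nat_lit 24660) (nat_lit 13) .nil)))) .nil)) 
(.lf (nat_lit 183238) (.g (nat_lit 3400) (.e (nat_lit 57851) (nat_lit 252) (.e (nat_lit 57347) (nat_lit 0) (.e (nat_lit 2203) (nat_lit 144) (.e (nat_lit 720956) (nat_lit 25) (.e (nat_lit 114715) (nat_lit 22) (.e (nat_lit 90170) (nat_lit 13) (.e (nat_lit 179968) (nat_lit 20) (.e (nat_lit 114712) (nat_lit 21) .nil)))))))) (.g (nat_lit 6) .nil .nil)))) (.nd (nat_lit 6) 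
(.lf (nat_lit 183206) (.g (nat_lit 1526) (.e (nat_lit 57850) (nat_lit 252) (.e (nat_lit 57446) (nat_lit 19) (.e (nat_lit 393229) (nat_lit 9) (.e (nat_lit 336194) (nat_lit 12) (.e (nat_lit 385066) (nat_lit 26) .nil))))) .nil)) 
(.lf (nat_lit 183270) (.g (nat_lit 1839) (.e (nat_lit 57851) (nat_lit 252) (.e (nat_lit 57364) (nat_lit 1) (.e (nat_lit 57852) (nat_lit 252) (.e (nat_lit 57406) (nat_lit 12) (.e (nat_lit 336445) (nat_lit 33) .nil))))) .nil)))) (.nd (nat_lit 5) (.nd (nat_lit 6) 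
(.lf (nat_lit 183190) (.g (nat_lit 1687) (.e (nat_lit 57850) (nat_lit 252) (.e (nat_lit 57409) (nat_lit 12) (.e (nat_lit 336454) (nat_lit 34) (.e (nat_lit 483408) (nat_lit 26) .nil)))) .nil)) 
(.lf (nat_lit 183254) (.g (nat_lit 3460) (.e (nat_lit 57851) (nat_lit 252) (.e (nat_lit 57354) (nat_lit 0) (.e (nat_lit 1855) (nat_lit 124) (.e (nat_lit 557109) (nat_lit 15) (.e (nat_lit 188461) (nat_lit 26) (.e (nat_lit 253959) (nat_lit 9) (.e (nat_lit 1182) (nat_lit 87) (.e (nat_lit 57854) (nat_lit 252) (.e (nat_lit 57366) (nat_lit 1) .nil))))))))) (.g (nat_lit 5) .nil .nil)))) (.nd (nat_lit 6) 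
(.lf (nat_lit 183222) (.g (nat_lit 2715) (.e (nat_lit 57850) (nat_lit 252) (.e (nat_lit 57447) (nat_lit 19) (.e (nat_lit 393229) (nat_lit 9) (.e (nat_lit 336203) (nat_lit 12) (.e (nat_lit 385068) (nat_lit 26) .nil))))) .nil)) 
(.lf (nat_lit 183286) (.g (nat_lit 940) (.e (nat_lit 57851) (nat_lit 252) (.e (nat_lit 57371) (nat_lit 2) (.e (nat_lit 90133) (nat_lit 9) (.e (nat_lit 313) (nat_lit 23) .nil)))) .nil))))) (.nd (nat_lit 4) (.nd (nat_lit 5) (.nd (nat_lit 6) 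
(.lf (nat_lit 183182) (.g (nat_lit 4197) (.e (nat_lit 57850) (nat_lit 252) (.e (nat_lit 57377) (nat_lit 3) (.e (nat_lit 98317) (nat_lit 9) (.e (nat_lit 336214) (nat_lit 13) .nil)))) .nil)) 
(.lf (nat_lit 183246) (.g (nat_lit 2268) (.e (nat_lit 57851) (nat_lit 252) (.e (nat_lit 57354) (nat_lit 0) (.e (nat_lit 1855) (nat_lit 124) (.e (nat_lit 557107) (nat_lit 15) (.e (nat_lit 188459) (nat_lit 26) .nil))))) .nil))) (.nd (nat_lit 6) 
(.lf (nat_lit 183214) (.g (nat_lit 1372) (.e (nat_lit 57850) (nat_lit 252) (.e (nat_lit 57447) (nat_lit 19) (.e (nat_lit 393225) (nat_lit 9) (.e (nat_lit 336204) (nat_lit 12) .nil)))) .nil)) 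
(.lf (nat_lit 183278) (.g (nat_lit 602) (.e (nat_lit 57851) (nat_lit 252) (.e (nat_lit 57371) (nat_lit 2) (.e (nat_lit 90123) (nat_lit 9) .nil))) .nil)))) (.nd (nat_lit 5) (.nd (nat_lit 6) 
(.lf (nat_lit 183198) (.g (nat_lit 3155) (.e (nat_lit 57850) (nat_lit 252) (.e (nat_lit 57445) (nat_lit 19) (.e (nat_lit 393229) (nat_lit 9) (.e (nat_lit 336076) (nat_lit 9) .nil)))) .nil)) 
(.lf (nat_lit 183262) (.g (nat_lit 4295) (.e (nat_lit 57851) (nat_lit 252) (.e (nat_lit 57354) (nat_lit 0) (.e (nat_lit 2160) (nat_lit 143) (.e (nat_lit 712755) (nat_lit 30) (.e (nat_lit 450588) (nat_lit 10) (.e (nat_lit 573449) (nat_lit 9) (.e (nat_lit 1183) (nat_lit 87) (.e (nat_lit 57848) (nat_lit 252) (.e (nat_lit 57365) (nat_lit 1) .nil))))))))) (.g (nat_lit 7) .nil .nil)))) (.nd (nat_lit 6) 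
(.lf (nat_lit 183230) (.g (nat_lit 2776) (.e (nat_lit 57851) (nat_lit 252) (.e (nat_lit 57347) (nat_lit 0) (.e (nat_lit 2031) (nat_lit 140) (.e (nat_lit 688182) (nat_lit 17) (.e (nat_lit 73754) (nat_lit 8) (.e (nat_lit 557101) (nat_lit 13) (.e (nat_lit 179968) (nat_lit 20) (.e (nat_lit 114710) (nat_lit 21) .nil)))))))) (.g (nat_lit 5) .nil .nil))) 
(.lf (nat_lit 183294) (.g (nat_lit 3257) (.e (nat_lit 57851) (nat_lit 252) (.e (nat_lit 57371) (nat_lit 2) (.e (nat_lit 90158) (nat_lit 11) (.e (nat_lit 24655) (nat_lit 13) (.e (nat_lit 393229) (nat_lit 9) (.e (nat_lit 335994) (nat_lit 1) .nil)))))) (.g (nat_lit 6) .nil .nil))))))))) (.nd (nat_lit 1) (.nd (nat_lit 2) (.nd (nat_lit 3) (.nd (nat_lit 4) (.nd (nat_lit 5) (.nd (nat_lit 6) 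
(.lf (nat_lit 183169) (.g (nat_lit 716) (.e (nat_lit 57850) (nat_lit 252) (.e (nat_lit 57371) (nat_lit 2) (.e (nat_lit 90158) (nat_lit 11) .nil))) .nil)) 
(.lf (nat_lit 183233) (.g (nat_lit 5116) (.e (nat_lit 57851) (nat_lit 252) (.e (nat_lit 57347) (nat_lit 0) (.e (nat_lit 2160) (nat_lit 143) (.e (nat_lit 712755) (nat_lit 30) (.e (nat_lit 450588) (nat_lit 10) (.e (nat_lit 573449) (nat_lit 9) (.e (nat_lit 1183) (nat_lit 87) (.e (nat_lit 57848) (nat_lit 252) (.e (nat_lit 57365) (nat_lit 1) .nil))))))))) (.g (nat_lit 8) .nil .nil)))) (.nd (nat_lit 6) 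
(.lf (nat_lit 183201) (.g (nat_lit 3096) (.e (nat_lit 57850) (nat_lit 252) (.e (nat_lit 57445) (nat_lit 19) (.e (nat_lit 393229) (nat_lit 9) (.e (nat_lit 336194) (nat_lit 12) .nil)))) .nil)) 
(.lf (nat_lit 183265) (.g (nat_lit 4256) (.e (nat_lit 57851) (nat_lit 252) (.e (nat_lit 57354) (nat_lit 0) (.e (nat_lit 2177) (nat_lit 143) (.e (nat_lit 712755) (nat_lit 30) (.e (nat_lit 450588) (nat_lit 10) (.e (nat_lit 573449) (nat_lit 9) (.e (nat_lit 1183) (nat_lit 87) (.e (nat_lit 57848) (nat_lit 252) (.e (nat_lit 57368) (nat_lit 1) .nil))))))))) (.g (nat_lit 7) .nil .nil))))) 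
(.nd (nat_lit 5) (.nd (nat_lit 6) 
(.lf (nat_lit 183185) (.g (nat_lit 2840) (.e (nat_lit 57850) (nat_lit 252) (.e (nat_lit 57377) (nat_lit 3) (.e (nat_lit 98317) (nat_lit 9) (.e (nat_lit 336223) (nat_lit 13) .nil)))) .nil)) 
(.lf (nat_lit 183249) (.g (nat_lit 2237) (.e (nat_lit 57851) (nat_lit 252) (.e (nat_lit 57354) (nat_lit 0) (.e (nat_lit 1855) (nat_lit 124) (.e (nat_lit 557109) (nat_lit 15) (.e (nat_lit 188461) (nat_lit 26) .nil))))) .nil))) (.nd (nat_lit 6) 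
(.lf (nat_lit 183217) (.g (nat_lit 1762) (.e (nat_lit 57850) (nat_lit 252) (.e (nat_lit 57447) (nat_lit 19) (.e (nat_lit 393229) (nat_lit 9) (.e (nat_lit 336194) (nat_lit 12) .nil)))) .nil)) 
(.lf (nat_lit 183281) (.g (nat_lit 1586) (.e (nat_lit 57851) (nat_lit 252) (.e (nat_lit 57371) (nat_lit 2) (.e (nat_lit 90128) (nat_lit 9) (.e (nat_lit 293) (nat_lit 21) (.e (nat_lit 336119) (nat_lit 9) .nil))))) .nil))))) (.nd (nat_lit 4) (.nd (nat_lit 5) (.nd (nat_lit 6) 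
(.lf (nat_lit 183177) (.g (nat_lit 4166) (.e (nat_lit 57850) (nat_lit 252) (.e (nat_lit 57377) (nat_lit 3) (.e (nat_lit 98317) (nat_lit 9) (.e (nat_lit 336078) (nat_lit 9) .nil)))) .nil)) 
(.lf (nat_lit 183241) (.g (nat_lit 417) (.e (nat_lit 57851) (nat_lit 252) (.e (nat_lit 57354) (nat_lit 0) (.e (nat_lit 1799) (nat_lit 119) .nil))) .nil))) (.nd (nat_lit 6) 
(.lf (nat_lit 183209) (.g (nat_lit 1883) (.e (nat_lit 57850) (nat_lit 252) (.e (nat_lit 57447) (nat_lit 19) (.e (nat_lit 393225) (nat_lit 9) (.e (nat_lit 336088) (nat_lit 9) (.e (nat_lit 336324) (nat_lit 18) .nil))))) .nil)) 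
(.lf (nat_lit 183273) (.g (nat_lit 3157) (.e (nat_lit 57851) (nat_lit 252) (.e (nat_lit 57370) (nat_lit 2) (.e (nat_lit 90158) (nat_lit 11) (.e (nat_lit 24658) (nat_lit 13) (.e (nat_lit 393225) (nat_lit 9) (.e (nat_lit 335996) (nat_lit 1) .nil)))))) (.g (nat_lit 0) .nil .nil))))) (.nd (nat_lit 5) (.nd (nat_lit 6) 
(.lf (nat_lit 183193) (.g (nat_lit 719) (.e (nat_lit 57850) (nat_lit 252) (.e (nat_lit 57423) (nat_lit 14) (.e (nat_lit 352277) (nat_lit 11) .nil))) .nil)) 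
(.lf (nat_lit 183257) (.g (nat_lit 3531) (.e (nat_lit 57851) (nat_lit 252) (.e (nat_lit 57354) (nat_lit 0) (.e (nat_lit 1855) (nat_lit 124) (.e (nat_lit 557109) (nat_lit 15) (.e (nat_lit 188461) (nat_lit 26) (.e (nat_lit 253960) (nat_lit 9) (.e (nat_lit 1183) (nat_lit 87) (.e (nat_lit 57848) (nat_lit 252) (.e (nat_lit 57365) (nat_lit 1) .nil))))))))) (.g (nat_lit 5) .nil .nil)))) (.nd (nat_lit 6) 
(.lf (nat_lit 183225) (.g (nat_lit 2146) (.e (nat_lit 57851) (nat_lit 252) (.e (nat_lit 57347) (nat_lit 0) (.e (nat_lit 2029) (nat_lit 140) (.e (nat_lit 688181) (nat_lit 17) (.e (nat_lit 73754) (nat_lit 8) (.e (nat_lit 557101) (nat_lit 13) (.e (nat_lit 179968) (nat_lit 20) (.e (nat_lit 114712) (nat_lit 21) .nil)))))))) (.g (nat_lit 5) .nil .nil))) 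
(.lf (nat_lit 183289) (.g (nat_lit 3369) (.e (nat_lit 57851) (nat_lit 252) (.e (nat_lit 57371) (nat_lit 2) (.e (nat_lit 90156) (nat_lit 11) (.e (nat_lit 24627) (nat_lit 9) (.e (nat_lit 336454) (nat_lit 34) (.e (nat_lit 483365) (nat_lit 18) .nil)))))) (.g (nat_lit 6) .nil .nil))))))) (.nd (nat_lit 3) (.nd (nat_lit 4) (.nd (nat_lit 5) (.nd (nat_lit 6) 
(.lf (nat_lit 183173) (.g (nat_lit 2633) (.e (nat_lit 57850) (nat_lit 252) (.e (nat_lit 57373) (nat_lit 2) (.e (nat_lit 90158) (nat_lit 11) (.e (nat_lit 24658) (nat_lit 13) (.e (nat_lit 393229) (nat_lit 9) .nil))))) .nil)) 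
(.lf (nat_lit 183237) (.g (nat_lit 1010) (.e (nat_lit 57851) (nat_lit 252) (.e (nat_lit 57347) (nat_lit 0) (.e (nat_lit 2203) (nat_lit 144) (.e (nat_lit 720955) (nat_lit 25) .nil)))) .nil))) (.nd (nat_lit 6) 
(.lf (nat_lit 183205) (.g (nat_lit 3089) (.e (nat_lit 57850) (nat_lit 252) (.e (nat_lit 57445) (nat_lit 19) (.e (nat_lit 393229) (nat_lit 9) (.e (nat_lit 336204) (nat_lit 12) .nil)))) .nil)) 
(.lf (nat_lit 183269) (.g (nat_lit 1862) (.e (nat_lit 57851) (nat_lit 252) (.e (nat_lit 57364) (nat_lit 1) (.e (nat_lit 57851) (nat_lit 252) (.e (nat_lit 57406) (nat_lit 12) (.e (nat_lit 336445) (nat_lit 33) .nil))))) .nil)))) (.nd (nat_lit 5) (.nd (nat_lit 6) 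
(.lf (nat_lit 183189) (.g (nat_lit 2011) (.e (nat_lit 57850) (nat_lit 252) (.e (nat_lit 57406) (nat_lit 12) (.e (nat_lit 336454) (nat_lit 34) (.e (nat_lit 483408) (nat_lit 26) .nil)))) .nil)) 
(.lf (nat_lit 183253) (.g (nat_lit 2471) (.e (nat_lit 57851) (nat_lit 252) (.e (nat_lit 57354) (nat_lit 0) (.e (nat_lit 1855) (nat_lit 124) (.e (nat_lit 557109) (nat_lit 15) (.e (nat_lit 188461) (nat_lit 26) (.e (nat_lit 253959) (nat_lit 9) (.e (nat_lit 1181) (nat_lit 87) (.e (nat_lit 57854) (nat_lit 252) (.e (nat_lit 57364) (nat_lit 1) .nil))))))))) (.g (nat_lit 4) .nil .nil)))) (.nd (nat_lit 6) 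
(.lf (nat_lit 183221) (.g (nat_lit 2485) (.e (nat_lit 57850) (nat_lit 252) (.e (nat_lit 57447) (nat_lit 19) (.e (nat_lit 393229) (nat_lit 9) (.e (nat_lit 336203) (nat_lit 12) (.e (nat_lit 385067) (nat_lit 26) .nil))))) .nil)) 
(.lf (nat_lit 183285) (.g (nat_lit 602) (.e (nat_lit 57851) (nat_lit 252) (.e (nat_lit 57371) (nat_lit 2) (.e (nat_lit 90133) (nat_lit 9) .nil))) .nil))))) (.nd (nat_lit 4) (.nd (nat_lit 5) (.nd (nat_lit 6) 
(.lf (nat_lit 183181) (.g (nat_lit 2843) (.e (nat_lit 57850) (nat_lit 252) (.e (nat_lit 57377) (nat_lit 3) (.e (nat_lit 98317) (nat_lit 9) (.e (nat_lit 336213) (nat_lit 13) .nil)))) .nil)) 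
(.lf (nat_lit 183245) (.g (nat_lit 1258) (.e (nat_lit 57851) (nat_lit 252) (.e (nat_lit 57354) (nat_lit 0) (.e (nat_lit 1855) (nat_lit 124) (.e (nat_lit 557105) (nat_lit 14) .nil)))) .nil))) (.nd (nat_lit 6) 
(.lf (nat_lit 183213) (.g (nat_lit 1826) (.e (nat_lit 57850) (nat_lit 252) (.e (nat_lit 57447) (nat_lit 19) (.e (nat_lit 393225) (nat_lit 9) (.e (nat_lit 336201) (nat_lit 12) .nil)))) .nil)) 
(.lf (nat_lit 183277) (.g (nat_lit 602) (.e (nat_lit 57851) (nat_lit 252) (.e (nat_lit 57371) (nat_lit 2) (.e (nat_lit 90122) (nat_lit 9) .nil))) .nil)))) (.nd (nat_lit 5) (.nd (nat_lit 6) 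
(.lf (nat_lit 183197) (.g (nat_lit 1864) (.e (nat_lit 57850) (nat_lit 252) (.e (nat_lit 57424) (nat_lit 14) (.e (nat_lit 352277) (nat_lit 11) (.e (nat_lit 426190) (nat_lit 9) (.e (nat_lit 426446) (nat_lit 20) .nil))))) .nil)) 
(.lf (nat_lit 183261) (.g (nat_lit 451) (.e (nat_lit 57851) (nat_lit 252) (.e (nat_lit 57354) (nat_lit 0) (.e (nat_lit 1857) (nat_lit 124) .nil))) .nil))) (.nd (nat_lit 6) 
(.lf (nat_lit 183229) (.g (nat_lit 3599) (.e (nat_lit 57851) (nat_lit 252) (.e (nat_lit 57347) (nat_lit 0) (.e (nat_lit 2031) (nat_lit 140) (.e (nat_lit 688181) (nat_lit 17) (.e (nat_lit 73755) (nat_lit 8) (.e (nat_lit 557098) (nat_lit 13) (.e (nat_lit 179968) (nat_lit 20) (.e (nat_lit 114712) (nat_lit 21) .nil)))))))) (.g (nat_lit 6) .nil .nil))) 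
(.lf (nat_lit 183293) (.g (nat_lit 4192) (.e (nat_lit 57851) (nat_lit 252) (.e (nat_lit 57371) (nat_lit 2) (.e (nat_lit 90158) (nat_lit 11) (.e (nat_lit 24655) (nat_lit 13) (.e (nat_lit 393225) (nat_lit 9) (.e (nat_lit 335996) (nat_lit 1) .nil)))))) (.g (nat_lit 0) .nil .nil)))))))) (.nd (nat_lit 2) (.nd (nat_lit 3) (.nd (nat_lit 4) (.nd (nat_lit 5) (.nd (nat_lit 6) 
(.lf (nat_lit 183171) (.g (nat_lit 2715) (.e (nat_lit 57850) (nat_lit 252) (.e (nat_lit 57373) (nat_lit 2) (.e (nat_lit 90158) (nat_lit 11) (.e (nat_lit 24625) (nat_lit 9) (.e (nat_lit 336454) (nat_lit 34) .nil))))) .nil)) 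
(.lf (nat_lit 183235) (.g (nat_lit 1134) (.e (nat_lit 57851) (nat_lit 252) (.e (nat_lit 57347) (nat_lit 0) (.e (nat_lit 2203) (nat_lit 144) (.e (nat_lit 720954) (nat_lit 25) (.e (nat_lit 114714) (nat_lit 22) .nil))))) .nil))) (.nd (nat_lit 6) 
(.lf (nat_lit 183203) (.g (nat_lit 3648) (.e (nat_lit 57850) (nat_lit 252) (.e (nat_lit 57445) (nat_lit 19) (.e (nat_lit 393229) (nat_lit 9) (.e (nat_lit 336201) (nat_lit 12) .nil)))) .nil)) 
(.lf (nat_lit 183267) (.g (nat_lit 3296) (.e (nat_lit 57851) (nat_lit 252) (.e (nat_lit 57364) (nat_lit 1) (.e (nat_lit 57830) (nat_lit 250) (.e (nat_lit 1201) (nat_lit 88) (.e (nat_lit 65583) (nat_lit 7) (.e (nat_lit 319530) (nat_lit 16) (.e (nat_lit 286748) (nat_lit 9) (.e (nat_lit 335992) (nat_lit 1) .nil)))))))) (.g (nat_lit 8) .nil .nil))))) (.nd (nat_lit 5) (.nd (nat_lit 6) 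
(.lf (nat_lit 183187) (.g (nat_lit 1379) (.e (nat_lit 57850) (nat_lit 252) (.e (nat_lit 57378) (nat_lit 3) (.e (nat_lit 98317) (nat_lit 9) (.e (nat_lit 336213) (nat_lit 13) .nil)))) .nil)) 
(.lf (nat_lit 183251) (.g (nat_lit 2267) (.e (nat_lit 57851) (nat_lit 252) (.e (nat_lit 57354) (nat_lit 0) (.e (nat_lit 1855) (nat_lit 124) (.e (nat_lit 557109) (nat_lit 15) (.e (nat_lit 188461) (nat_lit 26) (.e (nat_lit 253959) (nat_lit 9) (.e (nat_lit 1178) (nat_lit 87) (.e (nat_lit 57854) (nat_lit 252) (.e (nat_lit 57364) (nat_lit 1) .nil))))))))) (.g (nat_lit 4) .nil .nil)))) (.nd (nat_lit 6) 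
(.lf (nat_lit 183219) (.g (nat_lit 2062) (.e (nat_lit 57850) (nat_lit 252) (.e (nat_lit 57447) (nat_lit 19) (.e (nat_lit 393229) (nat_lit 9) (.e (nat_lit 336202) (nat_lit 12) .nil)))) .nil)) 
(.lf (nat_lit 183283) (.g (nat_lit 1662) (.e (nat_lit 57851) (nat_lit 252) (.e (nat_lit 57371) (nat_lit 2) (.e (nat_lit 90128) (nat_lit 9) (.e (nat_lit 314) (nat_lit 23) (.e (nat_lit 352273) (nat_lit 11) .nil))))) .nil))))) (.nd (nat_lit 4) (.nd (nat_lit 5) (.nd (nat_lit 6) 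
(.lf (nat_lit 183179) (.g (nat_lit 3641) (.e (nat_lit 57850) (nat_lit 252) (.e (nat_lit 57377) (nat_lit 3) (.e (nat_lit 98317) (nat_lit 9) (.e (nat_lit 336087) (nat_lit 9) .nil)))) .nil)) 
(.lf (nat_lit 183243) (.g (nat_lit 2601) (.e (nat_lit 57851) (nat_lit 252) (.e (nat_lit 57354) (nat_lit 0) (.e (nat_lit 1799) (nat_lit 119) (.e (nat_lit 516195) (nat_lit 26) (.e (nat_lit 336076) (nat_lit 9) (.e (nat_lit 336454) (nat_lit 34) (.e (nat_lit 483366) (nat_lit 18) .nil))))))) (.g (nat_lit 5) .nil .nil)))) (.nd (nat_lit 6) 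
(.lf (nat_lit 183211) (.g (nat_lit 1548) (.e (nat_lit 57850) (nat_lit 252) (.e (nat_lit 57447) (nat_lit 19) (.e (nat_lit 393225) (nat_lit 9) (.e (nat_lit 336196) (nat_lit 12) .nil)))) .nil)) 
(.lf (nat_lit 183275) (.g (nat_lit 588) (.e (nat_lit 57851) (nat_lit 252) (.e (nat_lit 57371) (nat_lit 2) (.e (nat_lit 90121) (nat_lit 9) .nil))) .nil)))) (.nd (nat_lit 5) (.nd (nat_lit 6) 
(.lf (nat_lit 183195) (.g (nat_lit 1477) (.e (nat_lit 57850) (nat_lit 252) (.e (nat_lit 57424) (nat_lit 14) (.e (nat_lit 352277) (nat_lit 11) (.e (nat_lit 426189) (nat_lit 9) .nil)))) .nil)) 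
(.lf (nat_lit 183259) (.g (nat_lit 2652) (.e (nat_lit 57851) (nat_lit 252) (.e (nat_lit 57354) (nat_lit 0) (.e (nat_lit 1855) (nat_lit 124) (.e (nat_lit 557109) (nat_lit 15) (.e (nat_lit 188461) (nat_lit 26) (.e (nat_lit 253979) (nat_lit 9) (.e (nat_lit 1181) (nat_lit 87) (.e (nat_lit 57848) (nat_lit 252) (.e (nat_lit 57365) (nat_lit 1) .nil))))))))) (.g (nat_lit 4) .nil .nil)))) (.nd (nat_lit 6) 
(.lf (nat_lit 183227) (.g (nat_lit 2342) (.e (nat_lit 57851) (nat_lit 252) (.e (nat_lit 57347) (nat_lit 0) (.e (nat_lit 2029) (nat_lit 140) (.e (nat_lit 688182) (nat_lit 17) (.e (nat_lit 73755) (nat_lit 8) (.e (nat_lit 557097) (nat_lit 13) (.e (nat_lit 179968) (nat_lit 20) (.e (nat_lit 114710) (nat_lit 21) .nil)))))))) (.g (nat_lit 5) .nil .nil))) 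
(.lf (nat_lit 183291) (.g (nat_lit 3145) (.e (nat_lit 57851) (nat_lit 252) (.e (nat_lit 57371) (nat_lit 2) (.e (nat_lit 90158) (nat_lit 11) (.e (nat_lit 24625) (nat_lit 9) (.e (nat_lit 336454) (nat_lit 34) (.e (nat_lit 483366) (nat_lit 18) .nil)))))) (.g (nat_lit 6) .nil .nil))))))) (.nd (nat_lit 3) (.nd (nat_lit 4) (.nd (nat_lit 5) (.nd (nat_lit 6) 
(.lf (nat_lit 183175) (.g (nat_lit 3370) (.e (nat_lit 57850) (nat_lit 252) (.e (nat_lit 57377) (nat_lit 3) (.e (nat_lit 98317) (nat_lit 9) (.e (nat_lit 336076) (nat_lit 9) .nil)))) .nil)) 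
(.lf (nat_lit 183239) (.g (nat_lit 2785) (.e (nat_lit 57851) (nat_lit 252) (.e (nat_lit 57354) (nat_lit 0) (.e (nat_lit 1788) (nat_lit 119) (.e (nat_lit 516195) (nat_lit 26) (.e (nat_lit 336076) (nat_lit 9) (.e (nat_lit 336454) (nat_lit 34) (.e (nat_lit 483366) (nat_lit 18) .nil))))))) (.g (nat_lit 5) .nil .nil)))) (.nd (nat_lit 6) 
(.lf (nat_lit 183207) (.g (nat_lit 1582) (.e (nat_lit 57850) (nat_lit 252) (.e (nat_lit 57446) (nat_lit 19) (.e (nat_lit 393229) (nat_lit 9) (.e (nat_lit 336194) (nat_lit 12) (.e (nat_lit 385068) (nat_lit 26) .nil))))) .nil)) 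
(.lf (nat_lit 183271) (.g (nat_lit 3107) (.e (nat_lit 57851) (nat_lit 252) (.e (nat_lit 57364) (nat_lit 1) (.e (nat_lit 57854) (nat_lit 252) (.e (nat_lit 57373) (nat_lit 2) (.e (nat_lit 98048) (nat_lit 6) .nil))))) .nil)))) (.nd (nat_lit 5) (.nd (nat_lit 6) 
(.lf (nat_lit 183191) (.g (nat_lit 441) (.e (nat_lit 57850) (nat_lit 252) (.e (nat_lit 57412) (nat_lit 12) (.e (nat_lit 336212) (nat_lit 13) .nil))) .nil)) 
(.lf (nat_lit 183255) (.g (nat_lit 4295) (.e (nat_lit 57851) (nat_lit 252) (.e (nat_lit 57354) (nat_lit 0) (.e (nat_lit 1855) (nat_lit 124) (.e (nat_lit 557109) (nat_lit 15) (.e (nat_lit 188461) (nat_lit 26) (.e (nat_lit 253959) (nat_lit 9) (.e (nat_lit 1183) (nat_lit 87) (.e (nat_lit 57848) (nat_lit 252) (.e (nat_lit 57365) (nat_lit 1) .nil))))))))) (.g (nat_lit 7) .nil .nil)))) (.nd (nat_lit 6) 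
(.lf (nat_lit 183223) (.g (nat_lit 424) (.e (nat_lit 57851) (nat_lit 252) (.e (nat_lit 57347) (nat_lit 0) (.e (nat_lit 1852) (nat_lit 124) .nil))) .nil)) 
(.lf (nat_lit 183287) (.g (nat_lit 1084) (.e (nat_lit 57851) (nat_lit 252) (.e (nat_lit 57371) (nat_lit 2) (.e (nat_lit 90134) (nat_lit 9) (.e (nat_lit 290) (nat_lit 21) .nil)))) .nil))))) (.nd (nat_lit 4) (.nd (nat_lit 5) (.nd (nat_lit 6) 
(.lf (nat_lit 183183) (.g (nat_lit 3983) (.e (nat_lit 57850) (nat_lit 252) (.e (nat_lit 57377) (nat_lit 3) (.e (nat_lit 98317) (nat_lit 9) (.e (nat_lit 336215) (nat_lit 13) .nil)))) .nil)) 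
(.lf (nat_lit 183247) (.g (nat_lit 3277) (.e (nat_lit 57851) (nat_lit 252) (.e (nat_lit 57354) (nat_lit 0) (.e (nat_lit 1855) (nat_lit 124) (.e (nat_lit 557107) (nat_lit 15) (.e (nat_lit 188459) (nat_lit 26) (.e (nat_lit 253967) (nat_lit 9) (.e (nat_lit 1183) (nat_lit 87) (.e (nat_lit 57848) (nat_lit 252) (.e (nat_lit 57365) (nat_lit 1) .nil))))))))) (.g (nat_lit 5) .nil .nil)))) (.nd (nat_lit 6) 
(.lf (nat_lit 183215) (.g (nat_lit 668) (.e (nat_lit 57850) (nat_lit 252) (.e (nat_lit 57447) (nat_lit 19) (.e (nat_lit 393229) (nat_lit 9) .nil))) .nil)) 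
(.lf (nat_lit 183279) (.g (nat_lit 602) (.e (nat_lit 57851) (nat_lit 252) (.e (nat_lit 57371) (nat_lit 2) (.e (nat_lit 90125) (nat_lit 9) .nil))) .nil)))) (.nd (nat_lit 5) (.nd (nat_lit 6) 
(.lf (nat_lit 183199) (.g (nat_lit 3996) (.e (nat_lit 57850) (nat_lit 252) (.e (nat_lit 57445) (nat_lit 19) (.e (nat_lit 393229) (nat_lit 9) (.e (nat_lit 336077) (nat_lit 9) .nil)))) .nil)) 
(.lf (nat_lit 183263) (.g (nat_lit 4295) (.e (nat_lit 57851) (nat_lit 252) (.e (nat_lit 57354) (nat_lit 0) (.e (nat_lit 2160) (nat_lit 143) (.e (nat_lit 712755) (nat_lit 30) (.e (nat_lit 450588) (nat_lit 10) (.e (nat_lit 573449) (nat_lit 9) (.e (nat_lit 1183) (nat_lit 87) (.e (nat_lit 57848) (nat_lit 252) (.e (nat_lit 57368) (nat_lit 1) .nil))))))))) (.g (nat_lit 7) .nil .nil)))) (.nd (nat_lit 6) 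
(.lf (nat_lit 183231) (.g (nat_lit 2863) (.e (nat_lit 57851) (nat_lit 252) (.e (nat_lit 57347) (nat_lit 0) (.e (nat_lit 2031) (nat_lit 140) (.e (nat_lit 688182) (nat_lit 17) (.e (nat_lit 73755) (nat_lit 8) (.e (nat_lit 557097) (nat_lit 13) (.e (nat_lit 179968) (nat_lit 20) (.e (nat_lit 114710) (nat_lit 21) .nil)))))))) (.g (nat_lit 5) .nil .nil))) 
(.lf (nat_lit 183295) (.g (nat_lit 2049) (.e (nat_lit 57851) (nat_lit 252) (.e (nat_lit 57371) (nat_lit 2) (.e (nat_lit 90158) (nat_lit 11) (.e (nat_lit 24658) (nat_lit 13) (.e (nat_lit 393224) (nat_lit 9) .nil))))) .nil)))))))))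

noncomputable def tv2446 : DT := (.nd (nat_lit 0) (.nd (nat_lit 1) (.nd (nat_lit 2) (.nd (nat_lit 3) (.nd (nat_lit 4) (.nd (nat_lit 5) (.nd (nat_lit 6) 
(.lf (nat_lit 183296) (.g (nat_lit 3747) (.e (nat_lit 57851) (nat_lit 252) (.e (nat_lit 57371) (nat_lit 2) (.e (nat_lit 90158) (nat_lit 11) (.e (nat_lit 24658) (nat_lit 13) (.e (nat_lit 393225) (nat_lit 9) (.e (nat_lit 335996) (nat_lit 1) .nil)))))) (.g (nat_lit 0) .nil .nil))) 
(.lf (nat_lit 183360) (.g (nat_lit 4694) (.e (nat_lit 57851) (nat_lit 252) (.e (nat_lit 57377) (nat_lit 3) (.e (nat_lit 98317) (nat_lit 9) (.e (nat_lit 336105) (nat_lit 9) .nil)))) .nil))) (.nd (nat_lit 6) 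
(.lf (nat_lit 183328) (.g (nat_lit 2135) (.e (nat_lit 57851) (nat_lit 252) (.e (nat_lit 57377) (nat_lit 3) (.e (nat_lit 98313) (nat_lit 9) (.e (nat_lit 336027) (nat_lit 3) (.e (nat_lit 98339) (nat_lit 19) .nil))))) .nil)) 
(.lf (nat_lit 183392) (.g (nat_lit 1819) (.e (nat_lit 57851) (nat_lit 252) (.e (nat_lit 57404) (nat_lit 12) (.e (nat_lit 336028) (nat_lit 3) (.e (nat_lit 98359) (nat_lit 26) (.e (nat_lit 426173) (nat_lit 7) (.e (nat_lit 409617) (nat_lit 10) (.e (nat_lit 604) (nat_lit 45) (.e (nat_lit 532501) (nat_lit 1) .nil)))))))) (.g (nat_lit 4) .nil .nil))))) (.nd (nat_lit 5) (.nd (nat_lit 6) 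
(.lf (nat_lit 183312) (.g (nat_lit 2092) (.e (nat_lit 57851) (nat_lit 252) (.e (nat_lit 57371) (nat_lit 2) (.e (nat_lit 90160) (nat_lit 11) (.e (nat_lit 24638) (nat_lit 9) (.e (nat_lit 343808) (nat_lit 34) .nil))))) .nil)) 
(.lf (nat_lit 183376) (.g (nat_lit 2216) (.e (nat_lit 57851) (nat_lit 252) (.e (nat_lit 57378) (nat_lit 3) (.e (nat_lit 98317) (nat_lit 9) (.e (nat_lit 336076) (nat_lit 9) (.e (nat_lit 336456) (nat_lit 34) .nil))))) .nil))) (.nd (nat_lit 6) 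
(.lf (nat_lit 183344) (.g (nat_lit 5155) (.e (nat_lit 57851) (nat_lit 252) (.e (nat_lit 57377) (nat_lit 3) (.e (nat_lit 98317) (nat_lit 9) (.e (nat_lit 336021) (nat_lit 3) .nil)))) .nil)) 
(.lf (nat_lit 183408) (.g (nat_lit 2357) (.e (nat_lit 57851) (nat_lit 252) (.e (nat_lit 57406) (nat_lit 12) (.e (nat_lit 336310) (nat_lit 16) (.e (nat_lit 164179) (nat_lit 154) (.e (nat_lit 57436) (nat_lit 17) (.e (nat_lit 376860) (nat_lit 21) (.e (nat_lit 57854) (nat_lit 252) (.e (nat_lit 57364) (nat_lit 1) .nil)))))))) (.g (nat_lit 4) .nil .nil)))))) 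
(.nd (nat_lit 4) (.nd (nat_lit 5) (.nd (nat_lit 6) 
(.lf (nat_lit 183304) (.g (nat_lit 3000) (.e (nat_lit 57851) (nat_lit 252) (.e (nat_lit 57371) (nat_lit 2) (.e (nat_lit 90160) (nat_lit 11) (.e (nat_lit 24608) (nat_lit 3) (.e (nat_lit 98325) (nat_lit 17) .nil))))) .nil)) 
(.lf (nat_lit 183368) (.g (nat_lit 2895) (.e (nat_lit 57851) (nat_lit 252) (.e (nat_lit 57377) (nat_lit 3) (.e (nat_lit 98317) (nat_lit 9) (.e (nat_lit 336213) (nat_lit 13) (.e (nat_lit 393224) (nat_lit 9) .nil))))) .nil))) (.nd (nat_lit 6) 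
(.lf (nat_lit 183336) (.g (nat_lit 348) (.e (nat_lit 57851) (nat_lit 252) (.e (nat_lit 57377) (nat_lit 3) (.e (nat_lit 98317) (nat_lit 9) .nil))) .nil)) 
(.lf (nat_lit 183400) (.g (nat_lit 2799) (.e (nat_lit 57851) (nat_lit 252) (.e (nat_lit 57405) (nat_lit 12) (.e (nat_lit 336454) (nat_lit 34) (.e (nat_lit 483408) (nat_lit 26) (.e (nat_lit 385067) (nat_lit 26) (.e (nat_lit 532504) (nat_lit 1) .nil)))))) (.g (nat_lit 5) .nil .nil))))) (.nd (nat_lit 5) (.nd (nat_lit 6) 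
(.lf (nat_lit 183320) (.g (nat_lit 2083) (.e (nat_lit 57851) (nat_lit 252) (.e (nat_lit 57373) (nat_lit 2) (.e (nat_lit 90158) (nat_lit 11) (.e (nat_lit 24656) (nat_lit 13) .nil)))) .nil)) 
(.lf (nat_lit 183384) (.g (nat_lit 1132) (.e (nat_lit 57851) (nat_lit 252) (.e (nat_lit 57388) (nat_lit 5) (.e (nat_lit 114698) (nat_lit 11) (.e (nat_lit 426138) (nat_lit 3) .nil)))) .nil))) (.nd (nat_lit 6) 
(.lf (nat_lit 183352) (.g (nat_lit 2774) (.e (nat_lit 57851) (nat_lit 252) (.e (nat_lit 57377) (nat_lit 3) (.e (nat_lit 98317) (nat_lit 9) (.e (nat_lit 336085) (nat_lit 9) .nil)))) .nil)) 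
(.lf (nat_lit 183416) (.g (nat_lit 2260) (.e (nat_lit 57851) (nat_lit 252) (.e (nat_lit 57406) (nat_lit 12) (.e (nat_lit 336316) (nat_lit 17) (.e (nat_lit 196666) (nat_lit 13) (.e (nat_lit 65586) (nat_lit 7) (.e (nat_lit 319500) (nat_lit 10) (.e (nat_lit 813) (nat_lit 68) (.e (nat_lit 720934) (nat_lit 21) .nil)))))))) (.g (nat_lit 4) .nil .nil))))))) 
(.nd (nat_lit 3) (.nd (nat_lit 4) (.nd (nat_lit 5) (.nd (nat_lit 6) 
(.lf (nat_lit 183300) (.g (nat_lit 2523) (.e (nat_lit 57851) (nat_lit 252) (.e (nat_lit 57371) (nat_lit 2) (.e (nat_lit 90160) (nat_lit 11) (.e (nat_lit 24580) (nat_lit 0) (.e (nat_lit 6445) (nat_lit 343) .nil))))) .nil)) 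
(.lf (nat_lit 183364) (.g (nat_lit 4623) (.e (nat_lit 57851) (nat_lit 252) (.e (nat_lit 57377) (nat_lit 3) (.e (nat_lit 98317) (nat_lit 9) (.e (nat_lit 336194) (nat_lit 12) .nil)))) .nil))) (.nd (nat_lit 6) 
(.lf (nat_lit 183332) (.g (nat_lit 356) (.e (nat_lit 57851) (nat_lit 252) (.e (nat_lit 57377) (nat_lit 3) (.e (nat_lit 98315) (nat_lit 9) .nil))) .nil)) 
(.lf (nat_lit 183396) (.g (nat_lit 978) (.e (nat_lit 57851) (nat_lit 252) (.e (nat_lit 57404) (nat_lit 12) (.e (nat_lit 336224) (nat_lit 13) (.e (nat_lit 393292) (nat_lit 26) (.e (nat_lit 475212) (nat_lit 42) .nil))))) .nil)))) (.nd (nat_lit 5) (.nd (nat_lit 6) 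
(.lf (nat_lit 183316) (.g (nat_lit 3964) (.e (nat_lit 57851) (nat_lit 252) (.e (nat_lit 57371) (nat_lit 2) (.e (nat_lit 90160) (nat_lit 11) (.e (nat_lit 24658) (nat_lit 13) (.e (nat_lit 393225) (nat_lit 9) (.e (nat_lit 335996) (nat_lit 1) .nil)))))) (.g (nat_lit 0) .nil .nil))) 
(.lf (nat_lit 183380) (.g (nat_lit 2284) (.e (nat_lit 57851) (nat_lit 252) (.e (nat_lit 57378) (nat_lit 3) (.e (nat_lit 98317) (nat_lit 9) (.e (nat_lit 336213) (nat_lit 13) (.e (nat_lit 393229) (nat_lit 9) .nil))))) .nil))) (.nd (nat_lit 6) 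
(.lf (nat_lit 183348) (.g (nat_lit 3852) (.e (nat_lit 57851) (nat_lit 252) (.e (nat_lit 57377) (nat_lit 3) (.e (nat_lit 98317) (nat_lit 9) (.e (nat_lit 336074) (nat_lit 9) .nil)))) .nil)) 
(.lf (nat_lit 183412) (.g (nat_lit 2355) (.e (nat_lit 57851) (nat_lit 252) (.e (nat_lit 57406) (nat_lit 12) (.e (nat_lit 336316) (nat_lit 17) (.e (nat_lit 196666) (nat_lit 13) (.e (nat_lit 65583) (nat_lit 7) (.e (nat_lit 319499) (nat_lit 10) (.e (nat_lit 811) (nat_lit 68) (.e (nat_lit 720934) (nat_lit 21) .nil)))))))) (.g (nat_lit 4) .nil .nil)))))) 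
(.nd (nat_lit 4) (.nd (nat_lit 5) (.nd (nat_lit 6) 
(.lf (nat_lit 183308) (.g (nat_lit 2158) (.e (nat_lit 57851) (nat_lit 252) (.e (nat_lit 57371) (nat_lit 2) (.e (nat_lit 90160) (nat_lit 11) (.e (nat_lit 24628) (nat_lit 9) (.e (nat_lit 336366) (nat_lit 27) .nil))))) .nil)) 
(.lf (nat_lit 183372) (.g (nat_lit 3606) (.e (nat_lit 57851) (nat_lit 252) (.e (nat_lit 57377) (nat_lit 3) (.e (nat_lit 98317) (nat_lit 9) (.e (nat_lit 336223) (nat_lit 13) (.e (nat_lit 393225) (nat_lit 9) (.e (nat_lit 335996) (nat_lit 1) .nil)))))) (.g (nat_lit 0) .nil .nil)))) (.nd (nat_lit 6) 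
(.lf (nat_lit 183340) (.g (nat_lit 4687) (.e (nat_lit 57851) (nat_lit 252) (.e (nat_lit 57377) (nat_lit 3) (.e (nat_lit 98317) (nat_lit 9) (.e (nat_lit 335895) (nat_lit 0) .nil)))) .nil)) 
(.lf (nat_lit 183404) (.g (nat_lit 1377) (.e (nat_lit 57851) (nat_lit 252) (.e (nat_lit 57406) (nat_lit 12) (.e (nat_lit 336211) (nat_lit 13) (.e (nat_lit 393291) (nat_lit 26) .nil)))) .nil)))) (.nd (nat_lit 5) (.nd (nat_lit 6) 
(.lf (nat_lit 183324) (.g (nat_lit 1786) (.e (nat_lit 57851) (nat_lit 252) (.e (nat_lit 57377) (nat_lit 3) (.e (nat_lit 98313) (nat_lit 9) (.e (nat_lit 336027) (nat_lit 3) (.e (nat_lit 98336) (nat_lit 19) .nil))))) .nil)) 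
(.lf (nat_lit 183388) (.g (nat_lit 2080) (.e (nat_lit 57851) (nat_lit 252) (.e (nat_lit 57389) (nat_lit 5) (.e (nat_lit 114712) (nat_lit 21) (.e (nat_lit 57830) (nat_lit 250) (.e (nat_lit 1214) (nat_lit 89) (.e (nat_lit 73746) (nat_lit 3) (.e (nat_lit 516129) (nat_lit 3) (.e (nat_lit 229120) (nat_lit 1) .nil)))))))) (.g (nat_lit 4) .nil .nil)))) (.nd (nat_lit 6) 
(.lf (nat_lit 183356) (.g (nat_lit 3544) (.e (nat_lit 57851) (nat_lit 252) (.e (nat_lit 57377) (nat_lit 3) (.e (nat_lit 98317) (nat_lit 9) (.e (nat_lit 336087) (nat_lit 9) (.e (nat_lit 336370) (nat_lit 27) .nil))))) .nil)) 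
(.lf (nat_lit 183420) (.g (nat_lit 2300) (.e (nat_lit 57851) (nat_lit 252) (.e (nat_lit 57406) (nat_lit 12) (.e (nat_lit 336316) (nat_lit 17) (.e (nat_lit 196668) (nat_lit 14) (.e (nat_lit 73794) (nat_lit 46) (.e (nat_lit 57610) (nat_lit 109) (.e (nat_lit 720934) (nat_lit 21) .nil))))))) (.g (nat_lit 4) .nil .nil)))))))) 
(.nd (nat_lit 2) (.nd (nat_lit 3) (.nd (nat_lit 4) (.nd (nat_lit 5) (.nd (nat_lit 6) 
(.lf (nat_lit 183298) (.g (nat_lit 2980) (.e (nat_lit 57851) (nat_lit 252) (.e (nat_lit 57371) (nat_lit 2) (.e (nat_lit 90158) (nat_lit 11) (.e (nat_lit 24658) (nat_lit 13) (.e (nat_lit 393229) (nat_lit 9) (.e (nat_lit 335994) (nat_lit 1) .nil)))))) (.g (nat_lit 6) .nil .nil))) 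
(.lf (nat_lit 183362) (.g (nat_lit 4652) (.e (nat_lit 57851) (nat_lit 252) (.e (nat_lit 57377) (nat_lit 3) (.e (nat_lit 98317) (nat_lit 9) (.e (nat_lit 336150) (nat_lit 9) .nil)))) .nil))) (.nd (nat_lit 6) 
(.lf (nat_lit 183330) (.g (nat_lit 2067) (.e (nat_lit 57851) (nat_lit 252) (.e (nat_lit 57377) (nat_lit 3) (.e (nat_lit 98313) (nat_lit 9) (.e (nat_lit 336086) (nat_lit 9) (.e (nat_lit 336454) (nat_lit 34) .nil))))) .nil)) 
(.lf (nat_lit 183394) (.g (nat_lit 1630) (.e (nat_lit 57851) (nat_lit 252) (.e (nat_lit 57404) (nat_lit 12) (.e (nat_lit 336060) (nat_lit 7) (.e (nat_lit 319533) (nat_lit 16) (.e (nat_lit 286753) (nat_lit 10) (.e (nat_lit 344097) (nat_lit 18) (.e (nat_lit 5195) (nat_lit 294) (.e (nat_lit 57368) (nat_lit 1) .nil)))))))) (.g (nat_lit 4) .nil .nil))))) (.nd (nat_lit 5) (.nd (nat_lit 6) 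
(.lf (nat_lit 183314) (.g (nat_lit 3430) (.e (nat_lit 57851) (nat_lit 252) (.e (nat_lit 57371) (nat_lit 2) (.e (nat_lit 90160) (nat_lit 11) (.e (nat_lit 24655) (nat_lit 13) (.e (nat_lit 393229) (nat_lit 9) (.e (nat_lit 335994) (nat_lit 1) .nil)))))) (.g (nat_lit 0) .nil .nil))) 
(.lf (nat_lit 183378) (.g (nat_lit 1263) (.e (nat_lit 57851) (nat_lit 252) (.e (nat_lit 57378) (nat_lit 3) (.e (nat_lit 98317) (nat_lit 9) (.e (nat_lit 336088) (nat_lit 9) .nil)))) .nil))) (.nd (nat_lit 6) 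
(.lf (nat_lit 183346) (.g (nat_lit 3635) (.e (nat_lit 57851) (nat_lit 252) (.e (nat_lit 57377) (nat_lit 3) (.e (nat_lit 98317) (nat_lit 9) (.e (nat_lit 336027) (nat_lit 3) .nil)))) .nil)) 
(.lf (nat_lit 183410) (.g (nat_lit 2314) (.e (nat_lit 57851) (nat_lit 252) (.e (nat_lit 57406) (nat_lit 12) (.e (nat_lit 336310) (nat_lit 16) (.e (nat_lit 164179) (nat_lit 154) (.e (nat_lit 57437) (nat_lit 17) (.e (nat_lit 376860) (nat_lit 21) (.e (nat_lit 57854) (nat_lit 252) (.e (nat_lit 57366) (nat_lit 1) .nil)))))))) (.g (nat_lit 4) .nil .nil)))))) 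
(.nd (nat_lit 4) (.nd (nat_lit 5) (.nd (nat_lit 6) 
(.lf (nat_lit 183306) (.g (nat_lit 3640) (.e (nat_lit 57851) (nat_lit 252) (.e (nat_lit 57371) (nat_lit 2) (.e (nat_lit 90160) (nat_lit 11) (.e (nat_lit 24625) (nat_lit 9) (.e (nat_lit 336454) (nat_lit 34) (.e (nat_lit 483365) (nat_lit 18) .nil)))))) (.g (nat_lit 0) .nil .nil))) 
(.lf (nat_lit 183370) (.g (nat_lit 1582) (.e (nat_lit 57851) (nat_lit 252) (.e (nat_lit 57377) (nat_lit 3) (.e (nat_lit 98317) (nat_lit 9) (.e (nat_lit 336214) (nat_lit 13) .nil)))) .nil))) (.nd (nat_lit 6) 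
(.lf (nat_lit 183338) (.g (nat_lit 4693) (.e (nat_lit 57851) (nat_lit 252) (.e (nat_lit 57377) (nat_lit 3) (.e (nat_lit 98317) (nat_lit 9) (.e (nat_lit 335893) (nat_lit 0) .nil)))) .nil)) 
(.lf (nat_lit 183402) (.g (nat_lit 786) (.e (nat_lit 57851) (nat_lit 252) (.e (nat_lit 57406) (nat_lit 12) (.e (nat_lit 336211) (nat_lit 13) .nil))) .nil)))) (.nd (nat_lit 5) (.nd (nat_lit 6) 
(.lf (nat_lit 183322) (.g (nat_lit 2425) (.e (nat_lit 57851) (nat_lit 252) (.e (nat_lit 57373) (nat_lit 2) (.e (nat_lit 90158) (nat_lit 11) (.e (nat_lit 24658) (nat_lit 13) (.e (nat_lit 393229) (nat_lit 9) .nil))))) .nil)) 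
(.lf (nat_lit 183386) (.g (nat_lit 371) (.e (nat_lit 57851) (nat_lit 252) (.e (nat_lit 57389) (nat_lit 5) (.e (nat_lit 114695) (nat_lit 11) .nil))) .nil))) (.nd (nat_lit 6) 
(.lf (nat_lit 183354) (.g (nat_lit 3576) (.e (nat_lit 57851) (nat_lit 252) (.e (nat_lit 57377) (nat_lit 3) (.e (nat_lit 98317) (nat_lit 9) (.e (nat_lit 336087) (nat_lit 9) (.e (nat_lit 336366) (nat_lit 27) .nil))))) .nil)) 
(.lf (nat_lit 183418) (.g (nat_lit 2066) (.e (nat_lit 57851) (nat_lit 252) (.e (nat_lit 57406) (nat_lit 12) (.e (nat_lit 336316) (nat_lit 17) (.e (nat_lit 196666) (nat_lit 13) (.e (nat_lit 65586) (nat_lit 7) (.e (nat_lit 319500) (nat_lit 10) (.e (nat_lit 818) (nat_lit 68) (.e (nat_lit 720930) (nat_lit 21) .nil)))))))) (.g (nat_lit 4) .nil .nil))))))) 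
(.nd (nat_lit 3) (.nd (nat_lit 4) (.nd (nat_lit 5) (.nd (nat_lit 6) 
(.lf (nat_lit 183302) (.g (nat_lit 2864) (.e (nat_lit 57851) (nat_lit 252) (.e (nat_lit 57371) (nat_lit 2) (.e (nat_lit 90160) (nat_lit 11) (.e (nat_lit 24604) (nat_lit 2) (.e (nat_lit 90165) (nat_lit 12) .nil))))) .nil)) 
(.lf (nat_lit 183366) (.g (nat_lit 4693) (.e (nat_lit 57851) (nat_lit 252) (.e (nat_lit 57377) (nat_lit 3) (.e (nat_lit 98317) (nat_lit 9) (.e (nat_lit 336202) (nat_lit 12) .nil)))) .nil))) (.nd (nat_lit 6) 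
(.lf (nat_lit 183334) (.g (nat_lit 891) (.e (nat_lit 57851) (nat_lit 252) (.e (nat_lit 57377) (nat_lit 3) (.e (nat_lit 98315) (nat_lit 9) (.e (nat_lit 336153) (nat_lit 9) (.e (nat_lit 343808) (nat_lit 34) .nil))))) .nil)) 
(.lf (nat_lit 183398) (.g (nat_lit 1020) (.e (nat_lit 57851) (nat_lit 252) (.e (nat_lit 57404) (nat_lit 12) (.e (nat_lit 336454) (nat_lit 34) (.e (nat_lit 483408) (nat_lit 26) .nil)))) .nil)))) (.nd (nat_lit 5) (.nd (nat_lit 6) 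
(.lf (nat_lit 183318) (.g (nat_lit 2533) (.e (nat_lit 57851) (nat_lit 252) (.e (nat_lit 57373) (nat_lit 2) (.e (nat_lit 90158) (nat_lit 11) (.e (nat_lit 24625) (nat_lit 9) (.e (nat_lit 336454) (nat_lit 34) .nil))))) .nil)) 
(.lf (nat_lit 183382) (.g (nat_lit 1856) (.e (nat_lit 57851) (nat_lit 252) (.e (nat_lit 57378) (nat_lit 3) (.e (nat_lit 98317) (nat_lit 9) (.e (nat_lit 336223) (nat_lit 13) (.e (nat_lit 393225) (nat_lit 9) .nil))))) .nil))) (.nd (nat_lit 6) 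
(.lf (nat_lit 183350) (.g (nat_lit 2017) (.e (nat_lit 57851) (nat_lit 252) (.e (nat_lit 57377) (nat_lit 3) (.e (nat_lit 98317) (nat_lit 9) (.e (nat_lit 336076) (nat_lit 9) (.e (nat_lit 336456) (nat_lit 34) .nil))))) .nil)) 
(.lf (nat_lit 183414) (.g (nat_lit 2565) (.e (nat_lit 57851) (nat_lit 252) (.e (nat_lit 57406) (nat_lit 12) (.e (nat_lit 336316) (nat_lit 17) (.e (nat_lit 196666) (nat_lit 13) (.e (nat_lit 65583) (nat_lit 7) (.e (nat_lit 319499) (nat_lit 10) (.e (nat_lit 815) (nat_lit 68) (.e (nat_lit 720934) (nat_lit 21) .nil)))))))) (.g (nat_lit 4) .nil .nil)))))) 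
(.nd (nat_lit 4) (.nd (nat_lit 5) (.nd (nat_lit 6) 
(.lf (nat_lit 183310) (.g (nat_lit 1449) (.e (nat_lit 57851) (nat_lit 252) (.e (nat_lit 57371) (nat_lit 2) (.e (nat_lit 90160) (nat_lit 11) (.e (nat_lit 24636) (nat_lit 9) (.e (nat_lit 343808) (nat_lit 34) .nil))))) .nil)) 
(.lf (nat_lit 183374) (.g (nat_lit 1044) (.e (nat_lit 57851) (nat_lit 252) (.e (nat_lit 57378) (nat_lit 3) (.e (nat_lit 98315) (nat_lit 9) .nil))) .nil))) (.nd (nat_lit 6) 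
(.lf (nat_lit 183342) (.g (nat_lit 4655) (.e (nat_lit 57851) (nat_lit 252) (.e (nat_lit 57377) (nat_lit 3) (.e (nat_lit 98317) (nat_lit 9) (.e (nat_lit 335914) (nat_lit 0) .nil)))) .nil)) 
(.lf (nat_lit 183406) (.g (nat_lit 407) (.e (nat_lit 57851) (nat_lit 252) (.e (nat_lit 57406) (nat_lit 12) (.e (nat_lit 343808) (nat_lit 13) .nil))) .nil)))) (.nd (nat_lit 5) (.nd (nat_lit 6) 
(.lf (nat_lit 183326) (.g (nat_lit 2338) (.e (nat_lit 57851) (nat_lit 252) (.e (nat_lit 57377) (nat_lit 3) (.e (nat_lit 98313) (nat_lit 9) (.e (nat_lit 336027) (nat_lit 3) (.e (nat_lit 98337) (nat_lit 19) (.e (nat_lit 213034) (nat_lit 12) (.e (nat_lit 163963) (nat_lit 25) (.e (nat_lit 532504) (nat_lit 1) .nil)))))))) (.g (nat_lit 4) .nil .nil))) 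
(.lf (nat_lit 183390) (.g (nat_lit 4136) (.e (nat_lit 57851) (nat_lit 252) (.e (nat_lit 57404) (nat_lit 12) (.e (nat_lit 336013) (nat_lit 2) (.e (nat_lit 90170) (nat_lit 13) (.e (nat_lit 172082) (nat_lit 7) (.e (nat_lit 409612) (nat_lit 10) (.e (nat_lit 604) (nat_lit 45) (.e (nat_lit 532501) (nat_lit 1) .nil)))))))) (.g (nat_lit 6) .nil .nil)))) (.nd (nat_lit 6) 
(.lf (nat_lit 183358) (.g (nat_lit 3890) (.e (nat_lit 57851) (nat_lit 252) (.e (nat_lit 57377) (nat_lit 3) (.e (nat_lit 98317) (nat_lit 9) (.e (nat_lit 336091) (nat_lit 9) .nil)))) .nil)) 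
(.lf (nat_lit 183422) (.g (nat_lit 1873) (.e (nat_lit 57851) (nat_lit 252) (.e (nat_lit 57406) (nat_lit 12) (.e (nat_lit 336316) (nat_lit 17) (.e (nat_lit 196670) (nat_lit 14) (.e (nat_lit 73794) (nat_lit 46) .nil))))) .nil)))))))) (.nd (nat_lit 1) (.nd (nat_lit 2) (.nd (nat_lit 3) (.nd (nat_lit 4) (.nd (nat_lit 5) (.nd (nat_lit 6) 
(.lf (nat_lit 183297) (.g (nat_lit 2058) (.e (nat_lit 57851) (nat_lit 252) (.e (nat_lit 57371) (nat_lit 2) (.e (nat_lit 90158) (nat_lit 11) (.e (nat_lit 24658) (nat_lit 13) (.e (nat_lit 393228) (nat_lit 9) .nil))))) .nil)) 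
(.lf (nat_lit 183361) (.g (nat_lit 4696) (.e (nat_lit 57851) (nat_lit 252) (.e (nat_lit 57377) (nat_lit 3) (.e (nat_lit 98317) (nat_lit 9) (.e (nat_lit 336107) (nat_lit 9) .nil)))) .nil))) (.nd (nat_lit 6) 
(.lf (nat_lit 183329) (.g (nat_lit 1114) (.e (nat_lit 57851) (nat_lit 252) (.e (nat_lit 57377) (nat_lit 3) (.e (nat_lit 98313) (nat_lit 9) (.e (nat_lit 336085) (nat_lit 9) .nil)))) .nil)) 
(.lf (nat_lit 183393) (.g (nat_lit 1810) (.e (nat_lit 57851) (nat_lit 252) (.e (nat_lit 57404) (nat_lit 12) (.e (nat_lit 336028) (nat_lit 3) (.e (nat_lit 98359) (nat_lit 26) (.e (nat_lit 426173) (nat_lit 7) (.e (nat_lit 409617) (nat_lit 10) (.e (nat_lit 604) (nat_lit 45) (.e (nat_lit 532504) (nat_lit 1) .nil)))))))) (.g (nat_lit 4) .nil .nil))))) (.nd (nat_lit 5) (.nd (nat_lit 6) 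
(.lf (nat_lit 183313) (.g (nat_lit 1229) (.e (nat_lit 57851) (nat_lit 252) (.e (nat_lit 57371) (nat_lit 2) (.e (nat_lit 90160) (nat_lit 11) (.e (nat_lit 32512) (nat_lit 9) .nil)))) .nil)) 
(.lf (nat_lit 183377) (.g (nat_lit 1405) (.e (nat_lit 57851) (nat_lit 252) (.e (nat_lit 57378) (nat_lit 3) (.e (nat_lit 98317) (nat_lit 9) (.e (nat_lit 336086) (nat_lit 9) .nil)))) .nil))) (.nd (nat_lit 6) 
(.lf (nat_lit 183345) (.g (nat_lit 4052) (.e (nat_lit 57851) (nat_lit 252) (.e (nat_lit 57377) (nat_lit 3) (.e (nat_lit 98317) (nat_lit 9) (.e (nat_lit 336026) (nat_lit 3) .nil)))) .nil)) 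
(.lf (nat_lit 183409) (.g (nat_lit 3162) (.e (nat_lit 57851) (nat_lit 252) (.e (nat_lit 57406) (nat_lit 12) (.e (nat_lit 336310) (nat_lit 16) (.e (nat_lit 164179) (nat_lit 154) (.e (nat_lit 57437) (nat_lit 17) (.e (nat_lit 376860) (nat_lit 21) (.e (nat_lit 57854) (nat_lit 252) (.e (nat_lit 57364) (nat_lit 1) .nil)))))))) (.g (nat_lit 5) .nil .nil)))))) 
(.nd (nat_lit 4) (.nd (nat_lit 5) (.nd (nat_lit 6) 
(.lf (nat_lit 183305) (.g (nat_lit 2698) (.e (nat_lit 57851) (nat_lit 252) (.e (nat_lit 57371) (nat_lit 2) (.e (nat_lit 90160) (nat_lit 11) (.e (nat_lit 24609) (nat_lit 3) (.e (nat_lit 98339) (nat_lit 19) .nil))))) .nil)) 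
(.lf (nat_lit 183369) (.g (nat_lit 4168) (.e (nat_lit 57851) (nat_lit 252) (.e (nat_lit 57377) (nat_lit 3) (.e (nat_lit 98317) (nat_lit 9) (.e (nat_lit 336213) (nat_lit 13) (.e (nat_lit 393225) (nat_lit 9) (.e (nat_lit 335996) (nat_lit 1) .nil)))))) (.g (nat_lit 0) .nil .nil)))) (.nd (nat_lit 6) 
(.lf (nat_lit 183337) (.g (nat_lit 4677) (.e (nat_lit 57851) (nat_lit 252) (.e (nat_lit 57377) (nat_lit 3) (.e (nat_lit 98317) (nat_lit 9) (.e (nat_lit 335892) (nat_lit 0) .nil)))) .nil)) 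
(.lf (nat_lit 183401) (.g (nat_lit 883) (.e (nat_lit 57851) (nat_lit 252) (.e (nat_lit 57406) (nat_lit 12) (.e (nat_lit 336136) (nat_lit 9) .nil))) .nil)))) (.nd (nat_lit 5) (.nd (nat_lit 6) 
(.lf (nat_lit 183321) (.g (nat_lit 2707) (.e (nat_lit 57851) (nat_lit 252) (.e (nat_lit 57373) (nat_lit 2) (.e (nat_lit 90158) (nat_lit 11) (.e (nat_lit 24658) (nat_lit 13) (.e (nat_lit 393225) (nat_lit 9) (.e (nat_lit 335996) (nat_lit 1) .nil)))))) (.g (nat_lit 4) .nil .nil))) 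
(.lf (nat_lit 183385) (.g (nat_lit 1704) (.e (nat_lit 57851) (nat_lit 252) (.e (nat_lit 57388) (nat_lit 5) (.e (nat_lit 114698) (nat_lit 11) (.e (nat_lit 426199) (nat_lit 9) (.e (nat_lit 426556) (nat_lit 32) .nil))))) .nil))) (.nd (nat_lit 6) 
(.lf (nat_lit 183353) (.g (nat_lit 3014) (.e (nat_lit 57851) (nat_lit 252) (.e (nat_lit 57377) (nat_lit 3) (.e (nat_lit 98317) (nat_lit 9) (.e (nat_lit 336087) (nat_lit 9) .nil)))) .nil)) 
(.lf (nat_lit 183417) (.g (nat_lit 2264) (.e (nat_lit 57851) (nat_lit 252) (.e (nat_lit 57406) (nat_lit 12) (.e (nat_lit 336316) (nat_lit 17) (.e (nat_lit 196666) (nat_lit 13) (.e (nat_lit 65586) (nat_lit 7) (.e (nat_lit 319500) (nat_lit 10) (.e (nat_lit 815) (nat_lit 68) (.e (nat_lit 720934) (nat_lit 21) .nil)))))))) (.g (nat_lit 4) .nil .nil))))))) 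
(.nd (nat_lit 3) (.nd (nat_lit 4) (.nd (nat_lit 5) (.nd (nat_lit 6) 
(.lf (nat_lit 183301) (.g (nat_lit 2507) (.e (nat_lit 57851) (nat_lit 252) (.e (nat_lit 57371) (nat_lit 2) (.e (nat_lit 90160) (nat_lit 11) (.e (nat_lit 24580) (nat_lit 0) (.e (nat_lit 6508) (nat_lit 345) .nil))))) .nil)) 
(.lf (nat_lit 183365) (.g (nat_lit 4673) (.e (nat_lit 57851) (nat_lit 252) (.e (nat_lit 57377) (nat_lit 3) (.e (nat_lit 98317) (nat_lit 9) (.e (nat_lit 336196) (nat_lit 12) .nil)))) .nil))) (.nd (nat_lit 6) 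
(.lf (nat_lit 183333) (.g (nat_lit 1531) (.e (nat_lit 57851) (nat_lit 252) (.e (nat_lit 57377) (nat_lit 3) (.e (nat_lit 98315) (nat_lit 9) (.e (nat_lit 336153) (nat_lit 9) (.e (nat_lit 336453) (nat_lit 34) (.e (nat_lit 483366) (nat_lit 18) .nil)))))) (.g (nat_lit 5) .nil .nil))) 
(.lf (nat_lit 183397) (.g (nat_lit 975) (.e (nat_lit 57851) (nat_lit 252) (.e (nat_lit 57404) (nat_lit 12) (.e (nat_lit 336224) (nat_lit 13) (.e (nat_lit 393292) (nat_lit 26) (.e (nat_lit 475214) (nat_lit 42) .nil))))) .nil)))) (.nd (nat_lit 5) (.nd (nat_lit 6) 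
(.lf (nat_lit 183317) (.g (nat_lit 931) (.e (nat_lit 57851) (nat_lit 252) (.e (nat_lit 57373) (nat_lit 2) (.e (nat_lit 90158) (nat_lit 11) .nil))) .nil)) 
(.lf (nat_lit 183381) (.g (nat_lit 1320) (.e (nat_lit 57851) (nat_lit 252) (.e (nat_lit 57378) (nat_lit 3) (.e (nat_lit 98317) (nat_lit 9) (.e (nat_lit 336223) (nat_lit 13) .nil)))) .nil))) (.nd (nat_lit 6) 
(.lf (nat_lit 183349) (.g (nat_lit 3143) (.e (nat_lit 57851) (nat_lit 252) (.e (nat_lit 57377) (nat_lit 3) (.e (nat_lit 98317) (nat_lit 9) (.e (nat_lit 336075) (nat_lit 9) .nil)))) .nil)) 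
(.lf (nat_lit 183413) (.g (nat_lit 2609) (.e (nat_lit 57851) (nat_lit 252) (.e (nat_lit 57406) (nat_lit 12) (.e (nat_lit 336316) (nat_lit 17) (.e (nat_lit 196666) (nat_lit 13) (.e (nat_lit 65583) (nat_lit 7) (.e (nat_lit 319499) (nat_lit 10) (.e (nat_lit 813) (nat_lit 68) (.e (nat_lit 720934) (nat_lit 21) .nil)))))))) (.g (nat_lit 4) .nil .nil)))))) 
(.nd (nat_lit 4) (.nd (nat_lit 5) (.nd (nat_lit 6) 
(.lf (nat_lit 183309) (.g (nat_lit 2703) (.e (nat_lit 57851) (nat_lit 252) (.e (nat_lit 57371) (nat_lit 2) (.e (nat_lit 90160) (nat_lit 11) (.e (nat_lit 24631) (nat_lit 9) (.e (nat_lit 336417) (nat_lit 27) .nil))))) .nil)) 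
(.lf (nat_lit 183373) (.g (nat_lit 1060) (.e (nat_lit 57851) (nat_lit 252) (.e (nat_lit 57378) (nat_lit 3) (.e (nat_lit 98313) (nat_lit 9) .nil))) .nil))) (.nd (nat_lit 6) 
(.lf (nat_lit 183341) (.g (nat_lit 4664) (.e (nat_lit 57851) (nat_lit 252) (.e (nat_lit 57377) (nat_lit 3) (.e (nat_lit 98317) (nat_lit 9) (.e (nat_lit 335899) (nat_lit 0) .nil)))) .nil)) 
(.lf (nat_lit 183405) (.g (nat_lit 1337) (.e (nat_lit 57851) (nat_lit 252) (.e (nat_lit 57406) (nat_lit 12) (.e (nat_lit 336211) (nat_lit 13) (.e (nat_lit 393294) (nat_lit 26) .nil)))) .nil)))) (.nd (nat_lit 5) (.nd (nat_lit 6) 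
(.lf (nat_lit 183325) (.g (nat_lit 1830) (.e (nat_lit 57851) (nat_lit 252) (.e (nat_lit 57377) (nat_lit 3) (.e (nat_lit 98313) (nat_lit 9) (.e (nat_lit 336027) (nat_lit 3) (.e (nat_lit 98337) (nat_lit 19) .nil))))) .nil)) 
(.lf (nat_lit 183389) (.g (nat_lit 548) (.e (nat_lit 57851) (nat_lit 252) (.e (nat_lit 57389) (nat_lit 5) (.e (nat_lit 114723) (nat_lit 24) .nil))) .nil))) (.nd (nat_lit 6) 
(.lf (nat_lit 183357) (.g (nat_lit 2027) (.e (nat_lit 57851) (nat_lit 252) (.e (nat_lit 57377) (nat_lit 3) (.e (nat_lit 98317) (nat_lit 9) (.e (nat_lit 336088) (nat_lit 9) (.e (nat_lit 336370) (nat_lit 27) .nil))))) .nil)) 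
(.lf (nat_lit 183421) (.g (nat_lit 1986) (.e (nat_lit 57851) (nat_lit 252) (.e (nat_lit 57406) (nat_lit 12) (.e (nat_lit 336316) (nat_lit 17) (.e (nat_lit 196668) (nat_lit 14) (.e (nat_lit 73795) (nat_lit 47) .nil))))) .nil))))))) (.nd (nat_lit 2) (.nd (nat_lit 3) (.nd (nat_lit 4) (.nd (nat_lit 5) (.nd (nat_lit 6) 
(.lf (nat_lit 183299) (.g (nat_lit 416) (.e (nat_lit 57851) (nat_lit 252) (.e (nat_lit 57371) (nat_lit 2) (.e (nat_lit 90160) (nat_lit 11) .nil))) .nil)) 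
(.lf (nat_lit 183363) (.g (nat_lit 2637) (.e (nat_lit 57851) (nat_lit 252) (.e (nat_lit 57377) (nat_lit 3) (.e (nat_lit 98317) (nat_lit 9) (.e (nat_lit 343808) (nat_lit 9) .nil)))) .nil))) (.nd (nat_lit 6) 
(.lf (nat_lit 183331) (.g (nat_lit 1061) (.e (nat_lit 57851) (nat_lit 252) (.e (nat_lit 57377) (nat_lit 3) (.e (nat_lit 98313) (nat_lit 9) (.e (nat_lit 336100) (nat_lit 9) .nil)))) .nil)) 
(.lf (nat_lit 183395) (.g (nat_lit 1773) (.e (nat_lit 57851) (nat_lit 252) (.e (nat_lit 57404) (nat_lit 12) (.e (nat_lit 336060) (nat_lit 7) (.e (nat_lit 319534) (nat_lit 16) (.e (nat_lit 286749) (nat_lit 9) (.e (nat_lit 335997) (nat_lit 1) (.e (nat_lit 57848) (nat_lit 252) (.e (nat_lit 57368) (nat_lit 1) .nil)))))))) (.g (nat_lit 4) .nil .nil))))) (.nd (nat_lit 5) (.nd (nat_lit 6) 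
(.lf (nat_lit 183315) (.g (nat_lit 2426) (.e (nat_lit 57851) (nat_lit 252) (.e (nat_lit 57371) (nat_lit 2) (.e (nat_lit 90160) (nat_lit 11) (.e (nat_lit 24658) (nat_lit 13) (.e (nat_lit 393224) (nat_lit 9) .nil))))) .nil)) 
(.lf (nat_lit 183379) (.g (nat_lit 1841) (.e (nat_lit 57851) (nat_lit 252) (.e (nat_lit 57378) (nat_lit 3) (.e (nat_lit 98317) (nat_lit 9) (.e (nat_lit 336088) (nat_lit 9) (.e (nat_lit 336454) (nat_lit 34) .nil))))) .nil))) (.nd (nat_lit 6) 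
(.lf (nat_lit 183347) (.g (nat_lit 3979) (.e (nat_lit 57851) (nat_lit 252) (.e (nat_lit 57377) (nat_lit 3) (.e (nat_lit 98317) (nat_lit 9) (.e (nat_lit 336073) (nat_lit 9) .nil)))) .nil)) 
(.lf (nat_lit 183411) (.g (nat_lit 1967) (.e (nat_lit 57851) (nat_lit 252) (.e (nat_lit 57406) (nat_lit 12) (.e (nat_lit 336316) (nat_lit 17) (.e (nat_lit 196666) (nat_lit 13) (.e (nat_lit 65583) (nat_lit 7) .nil))))) .nil))))) (.nd (nat_lit 4) (.nd (nat_lit 5) (.nd (nat_lit 6) 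
(.lf (nat_lit 183307) (.g (nat_lit 3256) (.e (nat_lit 57851) (nat_lit 252) (.e (nat_lit 57371) (nat_lit 2) (.e (nat_lit 90160) (nat_lit 11) (.e (nat_lit 24625) (nat_lit 9) (.e (nat_lit 336454) (nat_lit 34) (.e (nat_lit 483366) (nat_lit 18) .nil)))))) (.g (nat_lit 0) .nil .nil))) 
(.lf (nat_lit 183371) (.g (nat_lit 1691) (.e (nat_lit 57851) (nat_lit 252) (.e (nat_lit 57377) (nat_lit 3) (.e (nat_lit 98317) (nat_lit 9) (.e (nat_lit 336222) (nat_lit 13) (.e (nat_lit 393228) (nat_lit 9) .nil))))) .nil))) (.nd (nat_lit 6) 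
(.lf (nat_lit 183339) (.g (nat_lit 4693) (.e (nat_lit 57851) (nat_lit 252) (.e (nat_lit 57377) (nat_lit 3) (.e (nat_lit 98317) (nat_lit 9) (.e (nat_lit 335894) (nat_lit 0) .nil)))) .nil)) 
(.lf (nat_lit 183403) (.g (nat_lit 1907) (.e (nat_lit 57851) (nat_lit 252) (.e (nat_lit 57406) (nat_lit 12) (.e (nat_lit 336211) (nat_lit 13) (.e (nat_lit 393271) (nat_lit 23) (.e (nat_lit 426448) (nat_lit 20) .nil))))) .nil)))) (.nd (nat_lit 5) (.nd (nat_lit 6) 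
(.lf (nat_lit 183323) (.g (nat_lit 732) (.e (nat_lit 57851) (nat_lit 252) (.e (nat_lit 57373) (nat_lit 2) (.e (nat_lit 90160) (nat_lit 11) .nil))) .nil)) 
(.lf (nat_lit 183387) (.g (nat_lit 1520) (.e (nat_lit 57851) (nat_lit 252) (.e (nat_lit 57389) (nat_lit 5) (.e (nat_lit 114698) (nat_lit 11) (.e (nat_lit 426199) (nat_lit 9) .nil)))) .nil))) (.nd (nat_lit 6) 
(.lf (nat_lit 183355) (.g (nat_lit 3551) (.e (nat_lit 57851) (nat_lit 252) (.e (nat_lit 57377) (nat_lit 3) (.e (nat_lit 98317) (nat_lit 9) (.e (nat_lit 336087) (nat_lit 9) (.e (nat_lit 336368) (nat_lit 27) .nil))))) .nil)) 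
(.lf (nat_lit 183419) (.g (nat_lit 1927) (.e (nat_lit 57851) (nat_lit 252) (.e (nat_lit 57406) (nat_lit 12) (.e (nat_lit 336316) (nat_lit 17) (.e (nat_lit 196668) (nat_lit 14) (.e (nat_lit 73794) (nat_lit 46) .nil))))) .nil)))))) (.nd (nat_lit 3) (.nd (nat_lit 4) (.nd (nat_lit 5) (.nd (nat_lit 6) 
(.lf (nat_lit 183303) (.g (nat_lit 1745) (.e (nat_lit 57851) (nat_lit 252) (.e (nat_lit 57371) (nat_lit 2) (.e (nat_lit 90160) (nat_lit 11) (.e (nat_lit 24607) (nat_lit 3) .nil)))) .nil)) 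
(.lf (nat_lit 183367) (.g (nat_lit 4698) (.e (nat_lit 57851) (nat_lit 252) (.e (nat_lit 57377) (nat_lit 3) (.e (nat_lit 98317) (nat_lit 9) (.e (nat_lit 336203) (nat_lit 12) .nil)))) .nil))) (.nd (nat_lit 6) 
(.lf (nat_lit 183335) (.g (nat_lit 2590) (.e (nat_lit 57851) (nat_lit 252) (.e (nat_lit 57377) (nat_lit 3) (.e (nat_lit 98315) (nat_lit 9) (.e (nat_lit 336209) (nat_lit 13) (.e (nat_lit 393225) (nat_lit 9) (.e (nat_lit 335996) (nat_lit 1) .nil)))))) (.g (nat_lit 0) .nil .nil))) 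
(.lf (nat_lit 183399) (.g (nat_lit 2747) (.e (nat_lit 57851) (nat_lit 252) (.e (nat_lit 57405) (nat_lit 12) (.e (nat_lit 336454) (nat_lit 34) (.e (nat_lit 483408) (nat_lit 26) (.e (nat_lit 385067) (nat_lit 26) (.e (nat_lit 532501) (nat_lit 1) .nil)))))) (.g (nat_lit 5) .nil .nil))))) (.nd (nat_lit 5) (.nd (nat_lit 6) 
(.lf (nat_lit 183319) (.g (nat_lit 2485) (.e (nat_lit 57851) (nat_lit 252) (.e (nat_lit 57373) (nat_lit 2) (.e (nat_lit 90158) (nat_lit 11) (.e (nat_lit 24655) (nat_lit 13) (.e (nat_lit 393229) (nat_lit 9) .nil))))) .nil)) 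
(.lf (nat_lit 183383) (.g (nat_lit 995) (.e (nat_lit 57851) (nat_lit 252) (.e (nat_lit 57388) (nat_lit 5) (.e (nat_lit 114697) (nat_lit 11) (.e (nat_lit 426189) (nat_lit 9) .nil)))) .nil))) (.nd (nat_lit 6) 
(.lf (nat_lit 183351) (.g (nat_lit 3579) (.e (nat_lit 57851) (nat_lit 252) (.e (nat_lit 57377) (nat_lit 3) (.e (nat_lit 98317) (nat_lit 9) (.e (nat_lit 336084) (nat_lit 9) .nil)))) .nil)) 
(.lf (nat_lit 183415) (.g (nat_lit 2188) (.e (nat_lit 57851) (nat_lit 252) (.e (nat_lit 57406) (nat_lit 12) (.e (nat_lit 336316) (nat_lit 17) (.e (nat_lit 196666) (nat_lit 13) (.e (nat_lit 65583) (nat_lit 7) (.e (nat_lit 319499) (nat_lit 10) (.e (nat_lit 818) (nat_lit 68) (.e (nat_lit 720930) (nat_lit 21) .nil)))))))) (.g (nat_lit 4) .nil .nil)))))) 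
(.nd (nat_lit 4) (.nd (nat_lit 5) (.nd (nat_lit 6) 
(.lf (nat_lit 183311) (.g (nat_lit 2128) (.e (nat_lit 57851) (nat_lit 252) (.e (nat_lit 57371) (nat_lit 2) (.e (nat_lit 90160) (nat_lit 11) (.e (nat_lit 24638) (nat_lit 9) (.e (nat_lit 336387) (nat_lit 27) .nil))))) .nil)) 
(.lf (nat_lit 183375) (.g (nat_lit 2337) (.e (nat_lit 57851) (nat_lit 252) (.e (nat_lit 57378) (nat_lit 3) (.e (nat_lit 98317) (nat_lit 9) (.e (nat_lit 336076) (nat_lit 9) (.e (nat_lit 336454) (nat_lit 34) .nil))))) .nil))) (.nd (nat_lit 6) 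
(.lf (nat_lit 183343) (.g (nat_lit 4643) (.e (nat_lit 57851) (nat_lit 252) (.e (nat_lit 57377) (nat_lit 3) (.e (nat_lit 98317) (nat_lit 9) (.e (nat_lit 336020) (nat_lit 3) .nil)))) .nil)) 
(.lf (nat_lit 183407) (.g (nat_lit 2579) (.e (nat_lit 57851) (nat_lit 252) (.e (nat_lit 57406) (nat_lit 12) (.e (nat_lit 336310) (nat_lit 16) (.e (nat_lit 164178) (nat_lit 154) (.e (nat_lit 57437) (nat_lit 17) (.e (nat_lit 376860) (nat_lit 21) (.e (nat_lit 57854) (nat_lit 252) (.e (nat_lit 57364) (nat_lit 1) .nil)))))))) (.g (nat_lit 5) .nil .nil))))) (.nd (nat_lit 5) (.nd (nat_lit 6) 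
(.lf (nat_lit 183327) (.g (nat_lit 2109) (.e (nat_lit 57851) (nat_lit 252) (.e (nat_lit 57377) (nat_lit 3) (.e (nat_lit 98313) (nat_lit 9) (.e (nat_lit 336027) (nat_lit 3) (.e (nat_lit 98338) (nat_lit 19) .nil))))) .nil)) 
(.lf (nat_lit 183391) (.g (nat_lit 2403) (.e (nat_lit 57851) (nat_lit 252) (.e (nat_lit 57404) (nat_lit 12) (.e (nat_lit 336028) (nat_lit 3) (.e (nat_lit 98359) (nat_lit 26) (.e (nat_lit 426171) (nat_lit 7) (.e (nat_lit 409612) (nat_lit 10) (.e (nat_lit 604) (nat_lit 45) (.e (nat_lit 532501) (nat_lit 1) .nil)))))))) (.g (nat_lit 5) .nil .nil)))) (.nd (nat_lit 6) 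
(.lf (nat_lit 183359) (.g (nat_lit 4395) (.e (nat_lit 57851) (nat_lit 252) (.e (nat_lit 57377) (nat_lit 3) (.e (nat_lit 98317) (nat_lit 9) (.e (nat_lit 336100) (nat_lit 9) .nil)))) .nil)) 
(.lf (nat_lit 183423) (.g (nat_lit 1869) (.e (nat_lit 57851) (nat_lit 252) (.e (nat_lit 57406) (nat_lit 12) (.e (nat_lit 336316) (nat_lit 17) (.e (nat_lit 196670) (nat_lit 14) (.e (nat_lit 73795) (nat_lit 47) .nil))))) .nil)))))))))

noncomputable def tv2447 : DT := (.nd (nat_lit 0) (.nd (nat_lit 1) (.nd (nat_lit 2) (.nd (nat_lit 3) (.nd (nat_lit 4) (.nd (nat_lit 5) 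
(.lf (nat_lit 183424) (.g (nat_lit 2139) (.e (nat_lit 57851) (nat_lit 252) (.e (nat_lit 57406) (nat_lit 12) (.e (nat_lit 336324) (nat_lit 18) (.e (nat_lit 204868) (nat_lit 29) .nil)))) .nil)) 
(.lf (nat_lit 183456) (.g (nat_lit 1743) (.e (nat_lit 57851) (nat_lit 252) (.e (nat_lit 57406) (nat_lit 12) (.e (nat_lit 336446) (nat_lit 33) (.e (nat_lit 475212) (nat_lit 42) (.e (nat_lit 720956) (nat_lit 25) (.e (nat_lit 114712) (nat_lit 21) (.e (nat_lit 57851) (nat_lit 252) (.e (nat_lit 57364) (nat_lit 1) .nil)))))))) (.g (nat_lit 4) .nil .nil)))) (.nd (nat_lit 5) 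
(.lf (nat_lit 183440) (.g (nat_lit 3788) (.e (nat_lit 57851) (nat_lit 252) (.e (nat_lit 57406) (nat_lit 12) (.e (nat_lit 336360) (nat_lit 25) (.e (nat_lit 409649) (nat_lit 18) (.e (nat_lit 303140) (nat_lit 10) (.e (nat_lit 434209) (nat_lit 18) (.e (nat_lit 6391) (nat_lit 339) (.e (nat_lit 57365) (nat_lit 1) .nil)))))))) (.g (nat_lit 6) .nil .nil))) 
(.lf (nat_lit 183472) (.g (nat_lit 1512) (.e (nat_lit 57851) (nat_lit 252) (.e (nat_lit 57406) (nat_lit 12) (.e (nat_lit 336456) (nat_lit 34) (.e (nat_lit 483379) (nat_lit 23) (.e (nat_lit 336266) (nat_lit 15) .nil))))) .nil)))) (.nd (nat_lit 4) (.nd (nat_lit 5) 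
(.lf (nat_lit 183432) (.g (nat_lit 3917) (.e (nat_lit 57851) (nat_lit 252) (.e (nat_lit 57406) (nat_lit 12) (.e (nat_lit 336326) (nat_lit 18) (.e (nat_lit 204869) (nat_lit 29) (.e (nat_lit 360451) (nat_lit 0) (.e (nat_lit 7695) (nat_lit 412) (.e (nat_lit 57366) (nat_lit 1) .nil))))))) (.g (nat_lit 5) .nil .nil))) 
(.lf (nat_lit 183464) (.g (nat_lit 1809) (.e (nat_lit 57851) (nat_lit 252) (.e (nat_lit 57406) (nat_lit 12) (.e (nat_lit 336454) (nat_lit 34) (.e (nat_lit 483405) (nat_lit 26) (.e (nat_lit 385065) (nat_lit 26) .nil))))) .nil))) (.nd (nat_lit 5) 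
(.lf (nat_lit 183448) (.g (nat_lit 3208) (.e (nat_lit 57851) (nat_lit 252) (.e (nat_lit 57406) (nat_lit 12) (.e (nat_lit 336370) (nat_lit 27) (.e (nat_lit 426499) (nat_lit 27) (.e (nat_lit 336196) (nat_lit 12) (.e (nat_lit 385064) (nat_lit 26) (.e (nat_lit 532504) (nat_lit 1) .nil))))))) (.g (nat_lit 5) .nil .nil))) 
(.lf (nat_lit 183480) (.g (nat_lit 3285) (.e (nat_lit 57851) (nat_lit 252) (.e (nat_lit 57406) (nat_lit 12) (.e (nat_lit 336456) (nat_lit 34) (.e (nat_lit 483382) (nat_lit 23) (.e (nat_lit 336324) (nat_lit 18) (.e (nat_lit 204831) (nat_lit 18) .nil)))))) (.g (nat_lit 6) .nil .nil)))))) (.nd (nat_lit 3) (.nd (nat_lit 4) (.nd (nat_lit 5) 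
(.lf (nat_lit 183428) (.g (nat_lit 4430) (.e (nat_lit 57851) (nat_lit 252) (.e (nat_lit 57406) (nat_lit 12) (.e (nat_lit 336326) (nat_lit 18) (.e (nat_lit 204869) (nat_lit 29) (.e (nat_lit 360450) (nat_lit 0) (.e (nat_lit 7695) (nat_lit 412) (.e (nat_lit 57365) (nat_lit 1) .nil))))))) (.g (nat_lit 6) .nil .nil))) 
(.lf (nat_lit 183460) (.g (nat_lit 1990) (.e (nat_lit 57851) (nat_lit 252) (.e (nat_lit 57406) (nat_lit 12) (.e (nat_lit 336448) (nat_lit 33) (.e (nat_lit 475214) (nat_lit 42) (.e (nat_lit 720956) (nat_lit 25) (.e (nat_lit 114711) (nat_lit 21) (.e (nat_lit 57847) (nat_lit 252) (.e (nat_lit 57368) (nat_lit 1) .nil)))))))) (.g (nat_lit 4) .nil .nil)))) (.nd (nat_lit 5) 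
(.lf (nat_lit 183444) (.g (nat_lit 1829) (.e (nat_lit 57851) (nat_lit 252) (.e (nat_lit 57406) (nat_lit 12) (.e (nat_lit 336367) (nat_lit 27) (.e (nat_lit 426555) (nat_lit 32) (.e (nat_lit 376837) (nat_lit 0) .nil))))) .nil)) 
(.lf (nat_lit 183476) (.g (nat_lit 2853) (.e (nat_lit 57851) (nat_lit 252) (.e (nat_lit 57406) (nat_lit 12) (.e (nat_lit 336456) (nat_lit 34) (.e (nat_lit 483380) (nat_lit 23) (.e (nat_lit 336325) (nat_lit 18) (.e (nat_lit 204830) (nat_lit 18) .nil)))))) (.g (nat_lit 6) .nil .nil))))) (.nd (nat_lit 4) (.nd (nat_lit 5) 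
(.lf (nat_lit 183436) (.g (nat_lit 1754) (.e (nat_lit 57851) (nat_lit 252) (.e (nat_lit 57406) (nat_lit 12) (.e (nat_lit 336360) (nat_lit 25) (.e (nat_lit 409648) (nat_lit 18) (.e (nat_lit 303137) (nat_lit 10) (.e (nat_lit 434199) (nat_lit 18) (.e (nat_lit 6400) (nat_lit 339) (.e (nat_lit 57368) (nat_lit 1) .nil)))))))) (.g (nat_lit 4) .nil .nil))) 
(.lf (nat_lit 183468) (.g (nat_lit 2392) (.e (nat_lit 57851) (nat_lit 252) (.e (nat_lit 57406) (nat_lit 12) (.e (nat_lit 336456) (nat_lit 34) (.e (nat_lit 483345) (nat_lit 17) (.e (nat_lit 6506) (nat_lit 344) .nil))))) .nil))) (.nd (nat_lit 5) 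
(.lf (nat_lit 183452) (.g (nat_lit 881) (.e (nat_lit 57851) (nat_lit 252) (.e (nat_lit 57406) (nat_lit 12) (.e (nat_lit 336399) (nat_lit 27) .nil))) .nil)) 
(.lf (nat_lit 183484) (.g (nat_lit 1124) (.e (nat_lit 57851) (nat_lit 252) (.e (nat_lit 57406) (nat_lit 12) (.e (nat_lit 336456) (nat_lit 34) (.e (nat_lit 491264) (nat_lit 23) .nil)))) .nil)))))) (.nd (nat_lit 2) (.nd (nat_lit 3) (.nd (nat_lit 4) (.nd (nat_lit 5) 
(.lf (nat_lit 183426) (.g (nat_lit 1781) (.e (nat_lit 57851) (nat_lit 252) (.e (nat_lit 57406) (nat_lit 12) (.e (nat_lit 336326) (nat_lit 18) (.e (nat_lit 204868) (nat_lit 29) (.e (nat_lit 360456) (nat_lit 0) (.e (nat_lit 7936) (nat_lit 412) (.e (nat_lit 57368) (nat_lit 1) .nil))))))) (.g (nat_lit 4) .nil .nil))) 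
(.lf (nat_lit 183458) (.g (nat_lit 1755) (.e (nat_lit 57851) (nat_lit 252) (.e (nat_lit 57406) (nat_lit 12) (.e (nat_lit 336446) (nat_lit 33) (.e (nat_lit 475214) (nat_lit 42) (.e (nat_lit 720956) (nat_lit 25) (.e (nat_lit 114712) (nat_lit 21) (.e (nat_lit 57851) (nat_lit 252) (.e (nat_lit 57364) (nat_lit 1) .nil)))))))) (.g (nat_lit 4) .nil .nil)))) (.nd (nat_lit 5) 
(.lf (nat_lit 183442) (.g (nat_lit 2009) (.e (nat_lit 57851) (nat_lit 252) (.e (nat_lit 57406) (nat_lit 12) (.e (nat_lit 336367) (nat_lit 27) (.e (nat_lit 426494) (nat_lit 27) (.e (nat_lit 336203) (nat_lit 12) (.e (nat_lit 385067) (nat_lit 26) (.e (nat_lit 532504) (nat_lit 1) .nil))))))) (.g (nat_lit 5) .nil .nil))) 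
(.lf (nat_lit 183474) (.g (nat_lit 1991) (.e (nat_lit 57851) (nat_lit 252) (.e (nat_lit 57406) (nat_lit 12) (.e (nat_lit 336456) (nat_lit 34) (.e (nat_lit 483379) (nat_lit 23) (.e (nat_lit 336344) (nat_lit 22) (.e (nat_lit 245784) (nat_lit 9) (.e (nat_lit 1171) (nat_lit 87) .nil))))))) (.g (nat_lit 4) .nil .nil))))) (.nd (nat_lit 4) (.nd (nat_lit 5) 
(.lf (nat_lit 183434) (.g (nat_lit 2218) (.e (nat_lit 57851) (nat_lit 252) (.e (nat_lit 57406) (nat_lit 12) (.e (nat_lit 336326) (nat_lit 18) (.e (nat_lit 204870) (nat_lit 29) (.e (nat_lit 360453) (nat_lit 0) (.e (nat_lit 7936) (nat_lit 412) (.e (nat_lit 57364) (nat_lit 1) .nil))))))) (.g (nat_lit 5) .nil .nil))) 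
(.lf (nat_lit 183466) (.g (nat_lit 754) (.e (nat_lit 57851) (nat_lit 252) (.e (nat_lit 57406) (nat_lit 12) (.e (nat_lit 336455) (nat_lit 34) (.e (nat_lit 483405) (nat_lit 26) .nil)))) .nil))) (.nd (nat_lit 5) 
(.lf (nat_lit 183450) (.g (nat_lit 881) (.e (nat_lit 57851) (nat_lit 252) (.e (nat_lit 57406) (nat_lit 12) (.e (nat_lit 336374) (nat_lit 27) .nil))) .nil)) 
(.lf (nat_lit 183482) (.g (nat_lit 4285) (.e (nat_lit 57851) (nat_lit 252) (.e (nat_lit 57406) (nat_lit 12) (.e (nat_lit 336456) (nat_lit 34) (.e (nat_lit 483383) (nat_lit 23) (.e (nat_lit 336324) (nat_lit 18) (.e (nat_lit 204831) (nat_lit 18) .nil)))))) (.g (nat_lit 0) .nil .nil)))))) (.nd (nat_lit 3) (.nd (nat_lit 4) (.nd (nat_lit 5) 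
(.lf (nat_lit 183430) (.g (nat_lit 3957) (.e (nat_lit 57851) (nat_lit 252) (.e (nat_lit 57406) (nat_lit 12) (.e (nat_lit 336326) (nat_lit 18) (.e (nat_lit 204869) (nat_lit 29) (.e (nat_lit 360450) (nat_lit 0) (.e (nat_lit 7697) (nat_lit 412) (.e (nat_lit 57366) (nat_lit 1) .nil))))))) (.g (nat_lit 5) .nil .nil))) 
(.lf (nat_lit 183462) (.g (nat_lit 2982) (.e (nat_lit 57851) (nat_lit 252) (.e (nat_lit 57406) (nat_lit 12) (.e (nat_lit 336452) (nat_lit 34) (.e (nat_lit 483408) (nat_lit 26) (.e (nat_lit 385067) (nat_lit 26) (.e (nat_lit 532501) (nat_lit 1) .nil)))))) (.g (nat_lit 6) .nil .nil)))) (.nd (nat_lit 5) 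
(.lf (nat_lit 183446) (.g (nat_lit 881) (.e (nat_lit 57851) (nat_lit 252) (.e (nat_lit 57406) (nat_lit 12) (.e (nat_lit 336369) (nat_lit 27) .nil))) .nil)) 
(.lf (nat_lit 183478) (.g (nat_lit 3979) (.e (nat_lit 57851) (nat_lit 252) (.e (nat_lit 57406) (nat_lit 12) (.e (nat_lit 336456) (nat_lit 34) (.e (nat_lit 483381) (nat_lit 23) (.e (nat_lit 336324) (nat_lit 18) (.e (nat_lit 204831) (nat_lit 18) .nil)))))) (.g (nat_lit 6) .nil .nil))))) (.nd (nat_lit 4) (.nd (nat_lit 5) 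
(.lf (nat_lit 183438) (.g (nat_lit 3954) (.e (nat_lit 57851) (nat_lit 252) (.e (nat_lit 57406) (nat_lit 12) (.e (nat_lit 336360) (nat_lit 25) (.e (nat_lit 409649) (nat_lit 18) (.e (nat_lit 303132) (nat_lit 9) (.e (nat_lit 426109) (nat_lit 1) (.e (nat_lit 164177) (nat_lit 154) (.e (nat_lit 57365) (nat_lit 1) .nil)))))))) (.g (nat_lit 6) .nil .nil))) 
(.lf (nat_lit 183470) (.g (nat_lit 2353) (.e (nat_lit 57851) (nat_lit 252) (.e (nat_lit 57406) (nat_lit 12) (.e (nat_lit 336456) (nat_lit 34) (.e (nat_lit 483346) (nat_lit 17) (.e (nat_lit 6445) (nat_lit 343) .nil))))) .nil))) (.nd (nat_lit 5) 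
(.lf (nat_lit 183454) (.g (nat_lit 2567) (.e (nat_lit 57851) (nat_lit 252) (.e (nat_lit 57406) (nat_lit 12) (.e (nat_lit 336445) (nat_lit 33) (.e (nat_lit 475214) (nat_lit 42) (.e (nat_lit 720956) (nat_lit 25) (.e (nat_lit 114711) (nat_lit 21) (.e (nat_lit 57847) (nat_lit 252) (.e (nat_lit 57368) (nat_lit 1) .nil)))))))) (.g (nat_lit 4) .nil .nil))) 
(.lf (nat_lit 183486) (.g (nat_lit 1799) (.e (nat_lit 57851) (nat_lit 252) (.e (nat_lit 57406) (nat_lit 12) (.e (nat_lit 336456) (nat_lit 34) (.e (nat_lit 483402) (nat_lit 26) (.e (nat_lit 385067) (nat_lit 26) (.e (nat_lit 532504) (nat_lit 1) .nil)))))) (.g (nat_lit 4) .nil .nil)))))))) (.nd (nat_lit 1) (.nd (nat_lit 2) (.nd (nat_lit 3) (.nd (nat_lit 4) (.nd (nat_lit 5) 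
(.lf (nat_lit 183425) (.g (nat_lit 2585) (.e (nat_lit 57851) (nat_lit 252) (.e (nat_lit 57406) (nat_lit 12) (.e (nat_lit 336326) (nat_lit 18) (.e (nat_lit 204868) (nat_lit 29) (.e (nat_lit 360452) (nat_lit 0) (.e (nat_lit 7936) (nat_lit 412) (.e (nat_lit 57364) (nat_lit 1) .nil))))))) (.g (nat_lit 5) .nil .nil))) 
(.lf (nat_lit 183457) (.g (nat_lit 2081) (.e (nat_lit 57851) (nat_lit 252) (.e (nat_lit 57406) (nat_lit 12) (.e (nat_lit 336446) (nat_lit 33) (.e (nat_lit 475214) (nat_lit 42) (.e (nat_lit 720955) (nat_lit 25) (.e (nat_lit 114712) (nat_lit 21) (.e (nat_lit 57851) (nat_lit 252) (.e (nat_lit 57364) (nat_lit 1) .nil)))))))) (.g (nat_lit 4) .nil .nil)))) (.nd (nat_lit 5) 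
(.lf (nat_lit 183441) (.g (nat_lit 1893) (.e (nat_lit 57851) (nat_lit 252) (.e (nat_lit 57406) (nat_lit 12) (.e (nat_lit 336367) (nat_lit 27) (.e (nat_lit 426494) (nat_lit 27) (.e (nat_lit 336203) (nat_lit 12) (.e (nat_lit 385067) (nat_lit 26) (.e (nat_lit 532501) (nat_lit 1) .nil))))))) (.g (nat_lit 5) .nil .nil))) 
(.lf (nat_lit 183473) (.g (nat_lit 2849) (.e (nat_lit 57851) (nat_lit 252) (.e (nat_lit 57406) (nat_lit 12) (.e (nat_lit 336456) (nat_lit 34) (.e (nat_lit 483379) (nat_lit 23) (.e (nat_lit 336325) (nat_lit 18) (.e (nat_lit 204830) (nat_lit 18) .nil)))))) (.g (nat_lit 6) .nil .nil))))) (.nd (nat_lit 4) (.nd (nat_lit 5) 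
(.lf (nat_lit 183433) (.g (nat_lit 3822) (.e (nat_lit 57851) (nat_lit 252) (.e (nat_lit 57406) (nat_lit 12) (.e (nat_lit 336326) (nat_lit 18) (.e (nat_lit 204869) (nat_lit 29) (.e (nat_lit 360451) (nat_lit 0) (.e (nat_lit 7697) (nat_lit 412) (.e (nat_lit 57366) (nat_lit 1) .nil))))))) (.g (nat_lit 5) .nil .nil))) 
(.lf (nat_lit 183465) (.g (nat_lit 2765) (.e (nat_lit 57851) (nat_lit 252) (.e (nat_lit 57406) (nat_lit 12) (.e (nat_lit 336454) (nat_lit 34) (.e (nat_lit 483407) (nat_lit 26) (.e (nat_lit 385067) (nat_lit 26) (.e (nat_lit 532501) (nat_lit 1) .nil)))))) (.g (nat_lit 6) .nil .nil)))) (.nd (nat_lit 5) 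
(.lf (nat_lit 183449) (.g (nat_lit 886) (.e (nat_lit 57851) (nat_lit 252) (.e (nat_lit 57406) (nat_lit 12) (.e (nat_lit 336372) (nat_lit 27) .nil))) .nil)) 
(.lf (nat_lit 183481) (.g (nat_lit 1961) (.e (nat_lit 57851) (nat_lit 252) (.e (nat_lit 57406) (nat_lit 12) (.e (nat_lit 336456) (nat_lit 34) (.e (nat_lit 483383) (nat_lit 23) (.e (nat_lit 336316) (nat_lit 17) .nil))))) .nil))))) (.nd (nat_lit 3) (.nd (nat_lit 4) (.nd (nat_lit 5) 
(.lf (nat_lit 183429) (.g (nat_lit 4008) (.e (nat_lit 57851) (nat_lit 252) (.e (nat_lit 57406) (nat_lit 12) (.e (nat_lit 336326) (nat_lit 18) (.e (nat_lit 204869) (nat_lit 29) (.e (nat_lit 360450) (nat_lit 0) (.e (nat_lit 7695) (nat_lit 412) (.e (nat_lit 57366) (nat_lit 1) .nil))))))) (.g (nat_lit 5) .nil .nil))) 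
(.lf (nat_lit 183461) (.g (nat_lit 1476) (.e (nat_lit 57851) (nat_lit 252) (.e (nat_lit 57406) (nat_lit 12) (.e (nat_lit 336450) (nat_lit 33) (.e (nat_lit 475213) (nat_lit 42) .nil)))) .nil))) (.nd (nat_lit 5) 
(.lf (nat_lit 183445) (.g (nat_lit 881) (.e (nat_lit 57851) (nat_lit 252) (.e (nat_lit 57406) (nat_lit 12) (.e (nat_lit 336368) (nat_lit 27) .nil))) .nil)) 
(.lf (nat_lit 183477) (.g (nat_lit 1348) (.e (nat_lit 57851) (nat_lit 252) (.e (nat_lit 57406) (nat_lit 12) (.e (nat_lit 336456) (nat_lit 34) (.e (nat_lit 483381) (nat_lit 23) .nil)))) .nil)))) (.nd (nat_lit 4) (.nd (nat_lit 5) 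
(.lf (nat_lit 183437) (.g (nat_lit 2370) (.e (nat_lit 57851) (nat_lit 252) (.e (nat_lit 57406) (nat_lit 12) (.e (nat_lit 336360) (nat_lit 25) (.e (nat_lit 409648) (nat_lit 18) (.e (nat_lit 303137) (nat_lit 10) (.e (nat_lit 434209) (nat_lit 18) (.e (nat_lit 6391) (nat_lit 339) (.e (nat_lit 57365) (nat_lit 1) .nil)))))))) (.g (nat_lit 5) .nil .nil))) 
(.lf (nat_lit 183469) (.g (nat_lit 1341) (.e (nat_lit 57851) (nat_lit 252) (.e (nat_lit 57406) (nat_lit 12) (.e (nat_lit 336456) (nat_lit 34) (.e (nat_lit 483346) (nat_lit 17) .nil)))) .nil))) (.nd (nat_lit 5) 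
(.lf (nat_lit 183453) (.g (nat_lit 2528) (.e (nat_lit 57851) (nat_lit 252) (.e (nat_lit 57406) (nat_lit 12) (.e (nat_lit 336445) (nat_lit 33) (.e (nat_lit 475214) (nat_lit 42) (.e (nat_lit 720955) (nat_lit 25) (.e (nat_lit 114711) (nat_lit 21) (.e (nat_lit 57847) (nat_lit 252) (.e (nat_lit 57365) (nat_lit 1) .nil)))))))) (.g (nat_lit 4) .nil .nil))) 
(.lf (nat_lit 183485) (.g (nat_lit 1426) (.e (nat_lit 57851) (nat_lit 252) (.e (nat_lit 57406) (nat_lit 12) (.e (nat_lit 336456) (nat_lit 34) (.e (nat_lit 483402) (nat_lit 26) (.e (nat_lit 385066) (nat_lit 26) .nil))))) .nil)))))) (.nd (nat_lit 2) (.nd (nat_lit 3) (.nd (nat_lit 4) (.nd (nat_lit 5) 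
(.lf (nat_lit 183427) (.g (nat_lit 4475) (.e (nat_lit 57851) (nat_lit 252) (.e (nat_lit 57406) (nat_lit 12) (.e (nat_lit 336326) (nat_lit 18) (.e (nat_lit 204869) (nat_lit 29) (.e (nat_lit 360450) (nat_lit 0) (.e (nat_lit 7695) (nat_lit 412) (.e (nat_lit 57364) (nat_lit 1) .nil))))))) (.g (nat_lit 6) .nil .nil))) 
(.lf (nat_lit 183459) (.g (nat_lit 2279) (.e (nat_lit 57851) (nat_lit 252) (.e (nat_lit 57406) (nat_lit 12) (.e (nat_lit 336448) (nat_lit 33) (.e (nat_lit 475212) (nat_lit 42) (.e (nat_lit 720956) (nat_lit 25) (.e (nat_lit 114711) (nat_lit 21) (.e (nat_lit 57847) (nat_lit 252) (.e (nat_lit 57365) (nat_lit 1) .nil)))))))) (.g (nat_lit 4) .nil .nil)))) (.nd (nat_lit 5) 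
(.lf (nat_lit 183443) (.g (nat_lit 1829) (.e (nat_lit 57851) (nat_lit 252) (.e (nat_lit 57406) (nat_lit 12) (.e (nat_lit 336367) (nat_lit 27) (.e (nat_lit 426555) (nat_lit 32) (.e (nat_lit 376834) (nat_lit 0) .nil))))) .nil)) 
(.lf (nat_lit 183475) (.g (nat_lit 1779) (.e (nat_lit 57851) (nat_lit 252) (.e (nat_lit 57406) (nat_lit 12) (.e (nat_lit 336456) (nat_lit 34) (.e (nat_lit 483380) (nat_lit 23) (.e (nat_lit 336322) (nat_lit 18) .nil))))) .nil)))) (.nd (nat_lit 4) (.nd (nat_lit 5) 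
(.lf (nat_lit 183435) (.g (nat_lit 1923) (.e (nat_lit 57851) (nat_lit 252) (.e (nat_lit 57406) (nat_lit 12) (.e (nat_lit 336326) (nat_lit 18) (.e (nat_lit 204870) (nat_lit 29) (.e (nat_lit 360457) (nat_lit 0) (.e (nat_lit 7936) (nat_lit 412) (.e (nat_lit 57364) (nat_lit 1) .nil))))))) (.g (nat_lit 5) .nil .nil))) 
(.lf (nat_lit 183467) (.g (nat_lit 2884) (.e (nat_lit 57851) (nat_lit 252) (.e (nat_lit 57406) (nat_lit 12) (.e (nat_lit 336455) (nat_lit 34) (.e (nat_lit 483408) (nat_lit 26) (.e (nat_lit 385067) (nat_lit 26) (.e (nat_lit 532501) (nat_lit 1) .nil)))))) (.g (nat_lit 6) .nil .nil)))) (.nd (nat_lit 5) 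
(.lf (nat_lit 183451) (.g (nat_lit 882) (.e (nat_lit 57851) (nat_lit 252) (.e (nat_lit 57406) (nat_lit 12) (.e (nat_lit 336379) (nat_lit 27) .nil))) .nil)) 
(.lf (nat_lit 183483) (.g (nat_lit 2147) (.e (nat_lit 57851) (nat_lit 252) (.e (nat_lit 57406) (nat_lit 12) (.e (nat_lit 336456) (nat_lit 34) (.e (nat_lit 483383) (nat_lit 23) (.e (nat_lit 343808) (nat_lit 18) .nil))))) .nil))))) (.nd (nat_lit 3) (.nd (nat_lit 4) (.nd (nat_lit 5) 
(.lf (nat_lit 183431) (.g (nat_lit 3739) (.e (nat_lit 57851) (nat_lit 252) (.e (nat_lit 57406) (nat_lit 12) (.e (nat_lit 336326) (nat_lit 18) (.e (nat_lit 204869) (nat_lit 29) (.e (nat_lit 360450) (nat_lit 0) (.e (nat_lit 7936) (nat_lit 412) (.e (nat_lit 57364) (nat_lit 1) .nil))))))) (.g (nat_lit 5) .nil .nil))) 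
(.lf (nat_lit 183463) (.g (nat_lit 2168) (.e (nat_lit 57851) (nat_lit 252) (.e (nat_lit 57406) (nat_lit 12) (.e (nat_lit 336454) (nat_lit 34) (.e (nat_lit 483404) (nat_lit 26) .nil)))) .nil))) (.nd (nat_lit 5) 
(.lf (nat_lit 183447) (.g (nat_lit 2882) (.e (nat_lit 57851) (nat_lit 252) (.e (nat_lit 57406) (nat_lit 12) (.e (nat_lit 336369) (nat_lit 27) (.e (nat_lit 426499) (nat_lit 27) (.e (nat_lit 336196) (nat_lit 12) .nil))))) .nil)) 
(.lf (nat_lit 183479) (.g (nat_lit 1192) (.e (nat_lit 57851) (nat_lit 252) (.e (nat_lit 57406) (nat_lit 12) (.e (nat_lit 336456) (nat_lit 34) (.e (nat_lit 483382) (nat_lit 23) .nil)))) .nil)))) (.nd (nat_lit 4) (.nd (nat_lit 5) 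
(.lf (nat_lit 183439) (.g (nat_lit 3637) (.e (nat_lit 57851) (nat_lit 252) (.e (nat_lit 57406) (nat_lit 12) (.e (nat_lit 336360) (nat_lit 25) (.e (nat_lit 409649) (nat_lit 18) (.e (nat_lit 303132) (nat_lit 9) (.e (nat_lit 426109) (nat_lit 1) (.e (nat_lit 164182) (nat_lit 154) (.e (nat_lit 57368) (nat_lit 1) .nil)))))))) (.g (nat_lit 6) .nil .nil))) 
(.lf (nat_lit 183471) (.g (nat_lit 2318) (.e (nat_lit 57851) (nat_lit 252) (.e (nat_lit 57406) (nat_lit 12) (.e (nat_lit 336456) (nat_lit 34) (.e (nat_lit 483346) (nat_lit 17) (.e (nat_lit 6446) (nat_lit 343) .nil))))) .nil))) (.nd (nat_lit 5) 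
(.lf (nat_lit 183455) (.g (nat_lit 1831) (.e (nat_lit 57851) (nat_lit 252) (.e (nat_lit 57406) (nat_lit 12) (.e (nat_lit 336446) (nat_lit 33) (.e (nat_lit 475212) (nat_lit 42) (.e (nat_lit 720955) (nat_lit 25) (.e (nat_lit 114711) (nat_lit 21) (.e (nat_lit 57847) (nat_lit 252) (.e (nat_lit 57365) (nat_lit 1) .nil)))))))) (.g (nat_lit 4) .nil .nil))) 
(.lf (nat_lit 183487) (.g (nat_lit 1828) (.e (nat_lit 57851) (nat_lit 252) (.e (nat_lit 57406) (nat_lit 12) (.e (nat_lit 336456) (nat_lit 34) (.e (nat_lit 483403) (nat_lit 26) (.e (nat_lit 385064) (nat_lit 26) .nil))))) .nil))))))))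

noncomputable def tv2448 : DT := (.nd (nat_lit 0) (.nd (nat_lit 1) (.nd (nat_lit 2) (.nd (nat_lit 3) (.nd (nat_lit 4) (.nd (nat_lit 5) 
(.lf (nat_lit 183488) (.g (nat_lit 2470) (.e (nat_lit 57851) (nat_lit 252) (.e (nat_lit 57406) (nat_lit 12) (.e (nat_lit 336456) (nat_lit 34) (.e (nat_lit 483403) (nat_lit 26) (.e (nat_lit 385064) (nat_lit 26) (.e (nat_lit 532500) (nat_lit 1) .nil)))))) (.g (nat_lit 4) .nil .nil))) 
(.lf (nat_lit 183520) (.g (nat_lit 1086) (.e (nat_lit 57851) (nat_lit 252) (.e (nat_lit 57412) (nat_lit 12) (.e (nat_lit 336061) (nat_lit 7) (.e (nat_lit 319531) (nat_lit 16) (.e (nat_lit 286748) (nat_lit 9) .nil))))) .nil))) (.nd (nat_lit 5) 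
(.lf (nat_lit 183504) (.g (nat_lit 1622) (.e (nat_lit 57851) (nat_lit 252) (.e (nat_lit 57412) (nat_lit 12) (.e (nat_lit 336061) (nat_lit 7) (.e (nat_lit 319528) (nat_lit 16) (.e (nat_lit 286749) (nat_lit 9) (.e (nat_lit 335997) (nat_lit 1) (.e (nat_lit 57848) (nat_lit 252) (.e (nat_lit 57368) (nat_lit 1) .nil)))))))) (.g (nat_lit 4) .nil .nil))) 
(.lf (nat_lit 183536) (.g (nat_lit 3774) (.e (nat_lit 57851) (nat_lit 252) (.e (nat_lit 57412) (nat_lit 12) (.e (nat_lit 336061) (nat_lit 7) (.e (nat_lit 319531) (nat_lit 16) (.e (nat_lit 286755) (nat_lit 10) (.e (nat_lit 344097) (nat_lit 18) (.e (nat_lit 5195) (nat_lit 294) (.e (nat_lit 57365) (nat_lit 1) .nil)))))))) (.g (nat_lit 7) .nil .nil))))) (.nd (nat_lit 4) (.nd (nat_lit 5) 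
(.lf (nat_lit 183496) (.g (nat_lit 1957) (.e (nat_lit 57851) (nat_lit 252) (.e (nat_lit 57406) (nat_lit 12) (.e (nat_lit 336456) (nat_lit 34) (.e (nat_lit 483405) (nat_lit 26) (.e (nat_lit 385065) (nat_lit 26) .nil))))) .nil)) 
(.lf (nat_lit 183528) (.g (nat_lit 2885) (.e (nat_lit 57851) (nat_lit 252) (.e (nat_lit 57412) (nat_lit 12) (.e (nat_lit 336061) (nat_lit 7) (.e (nat_lit 319531) (nat_lit 16) (.e (nat_lit 286749) (nat_lit 9) (.e (nat_lit 335997) (nat_lit 1) (.e (nat_lit 57844) (nat_lit 252) (.e (nat_lit 57364) (nat_lit 1) .nil)))))))) (.g (nat_lit 5) .nil .nil)))) (.nd (nat_lit 5) 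
(.lf (nat_lit 183512) (.g (nat_lit 2527) (.e (nat_lit 57851) (nat_lit 252) (.e (nat_lit 57412) (nat_lit 12) (.e (nat_lit 336061) (nat_lit 7) (.e (nat_lit 319531) (nat_lit 16) (.e (nat_lit 286744) (nat_lit 9) (.e (nat_lit 335992) (nat_lit 1) (.e (nat_lit 57847) (nat_lit 252) (.e (nat_lit 57365) (nat_lit 1) .nil)))))))) (.g (nat_lit 4) .nil .nil))) 
(.lf (nat_lit 183544) (.g (nat_lit 4708) (.e (nat_lit 57851) (nat_lit 252) (.e (nat_lit 57412) (nat_lit 12) (.e (nat_lit 336061) (nat_lit 7) (.e (nat_lit 319534) (nat_lit 16) (.e (nat_lit 286756) (nat_lit 10) (.e (nat_lit 344097) (nat_lit 18) (.e (nat_lit 5195) (nat_lit 294) (.e (nat_lit 57368) (nat_lit 1) .nil)))))))) (.g (nat_lit 0) .nil .nil)))))) 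
(.nd (nat_lit 3) (.nd (nat_lit 4) (.nd (nat_lit 5) 
(.lf (nat_lit 183492) (.g (nat_lit 3090) (.e (nat_lit 57851) (nat_lit 252) (.e (nat_lit 57406) (nat_lit 12) (.e (nat_lit 336456) (nat_lit 34) (.e (nat_lit 483403) (nat_lit 26) (.e (nat_lit 385067) (nat_lit 26) (.e (nat_lit 532501) (nat_lit 1) .nil)))))) (.g (nat_lit 6) .nil .nil))) 
(.lf (nat_lit 183524) (.g (nat_lit 3003) (.e (nat_lit 57851) (nat_lit 252) (.e (nat_lit 57412) (nat_lit 12) (.e (nat_lit 336061) (nat_lit 7) (.e (nat_lit 319531) (nat_lit 16) (.e (nat_lit 286748) (nat_lit 9) (.e (nat_lit 335991) (nat_lit 1) (.e (nat_lit 57849) (nat_lit 252) (.e (nat_lit 57368) (nat_lit 1) .nil)))))))) (.g (nat_lit 7) .nil .nil)))) (.nd (nat_lit 5) 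
(.lf (nat_lit 183508) (.g (nat_lit 1959) (.e (nat_lit 57851) (nat_lit 252) (.e (nat_lit 57412) (nat_lit 12) (.e (nat_lit 336061) (nat_lit 7) (.e (nat_lit 319531) (nat_lit 16) (.e (nat_lit 286742) (nat_lit 9) (.e (nat_lit 335992) (nat_lit 1) (.e (nat_lit 57847) (nat_lit 252) (.e (nat_lit 57368) (nat_lit 1) .nil)))))))) (.g (nat_lit 4) .nil .nil))) 
(.lf (nat_lit 183540) (.g (nat_lit 3220) (.e (nat_lit 57851) (nat_lit 252) (.e (nat_lit 57412) (nat_lit 12) (.e (nat_lit 336061) (nat_lit 7) (.e (nat_lit 319534) (nat_lit 16) (.e (nat_lit 286749) (nat_lit 9) (.e (nat_lit 335997) (nat_lit 1) (.e (nat_lit 57849) (nat_lit 252) (.e (nat_lit 57365) (nat_lit 1) .nil)))))))) (.g (nat_lit 5) .nil .nil))))) (.nd (nat_lit 4) (.nd (nat_lit 5) 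
(.lf (nat_lit 183500) (.g (nat_lit 3690) (.e (nat_lit 57851) (nat_lit 252) (.e (nat_lit 57406) (nat_lit 12) (.e (nat_lit 336456) (nat_lit 34) (.e (nat_lit 483408) (nat_lit 26) (.e (nat_lit 385067) (nat_lit 26) (.e (nat_lit 532501) (nat_lit 1) .nil)))))) (.g (nat_lit 0) .nil .nil))) 
(.lf (nat_lit 183532) (.g (nat_lit 2307) (.e (nat_lit 57851) (nat_lit 252) (.e (nat_lit 57412) (nat_lit 12) (.e (nat_lit 336061) (nat_lit 7) (.e (nat_lit 319531) (nat_lit 16) (.e (nat_lit 286752) (nat_lit 10) (.e (nat_lit 344097) (nat_lit 18) (.e (nat_lit 5194) (nat_lit 294) (.e (nat_lit 57365) (nat_lit 1) .nil)))))))) (.g (nat_lit 4) .nil .nil)))) (.nd (nat_lit 5) 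
(.lf (nat_lit 183516) (.g (nat_lit 2514) (.e (nat_lit 57851) (nat_lit 252) (.e (nat_lit 57412) (nat_lit 12) (.e (nat_lit 336061) (nat_lit 7) (.e (nat_lit 319531) (nat_lit 16) (.e (nat_lit 286745) (nat_lit 9) (.e (nat_lit 335989) (nat_lit 1) (.e (nat_lit 57847) (nat_lit 252) (.e (nat_lit 57368) (nat_lit 1) .nil)))))))) (.g (nat_lit 4) .nil .nil))) 
(.lf (nat_lit 183548) (.g (nat_lit 2129) (.e (nat_lit 57851) (nat_lit 252) (.e (nat_lit 57412) (nat_lit 12) (.e (nat_lit 336212) (nat_lit 13) (.e (nat_lit 393293) (nat_lit 26) (.e (nat_lit 475214) (nat_lit 42) (.e (nat_lit 720930) (nat_lit 21) .nil)))))) (.g (nat_lit 0) .nil .nil))))))) (.nd (nat_lit 2) (.nd (nat_lit 3) (.nd (nat_lit 4) (.nd (nat_lit 5) 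
(.lf (nat_lit 183490) (.g (nat_lit 2702) (.e (nat_lit 57851) (nat_lit 252) (.e (nat_lit 57406) (nat_lit 12) (.e (nat_lit 336456) (nat_lit 34) (.e (nat_lit 483403) (nat_lit 26) (.e (nat_lit 385066) (nat_lit 26) (.e (nat_lit 532498) (nat_lit 1) .nil)))))) (.g (nat_lit 5) .nil .nil))) 
(.lf (nat_lit 183522) (.g (nat_lit 4017) (.e (nat_lit 57851) (nat_lit 252) (.e (nat_lit 57412) (nat_lit 12) (.e (nat_lit 336061) (nat_lit 7) (.e (nat_lit 319531) (nat_lit 16) (.e (nat_lit 286748) (nat_lit 9) (.e (nat_lit 335985) (nat_lit 1) (.e (nat_lit 57849) (nat_lit 252) (.e (nat_lit 57365) (nat_lit 1) .nil)))))))) (.g (nat_lit 8) .nil .nil)))) (.nd (nat_lit 5) 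
(.lf (nat_lit 183506) (.g (nat_lit 2274) (.e (nat_lit 57851) (nat_lit 252) (.e (nat_lit 57412) (nat_lit 12) (.e (nat_lit 336061) (nat_lit 7) (.e (nat_lit 319531) (nat_lit 16) (.e (nat_lit 286742) (nat_lit 9) (.e (nat_lit 335991) (nat_lit 1) (.e (nat_lit 57849) (nat_lit 252) (.e (nat_lit 57365) (nat_lit 1) .nil)))))))) (.g (nat_lit 4) .nil .nil))) 
(.lf (nat_lit 183538) (.g (nat_lit 3585) (.e (nat_lit 57851) (nat_lit 252) (.e (nat_lit 57412) (nat_lit 12) (.e (nat_lit 336061) (nat_lit 7) (.e (nat_lit 319531) (nat_lit 16) (.e (nat_lit 286757) (nat_lit 11) (.e (nat_lit 368662) (nat_lit 18) (.e (nat_lit 5195) (nat_lit 294) (.e (nat_lit 57365) (nat_lit 1) .nil)))))))) (.g (nat_lit 7) .nil .nil))))) (.nd (nat_lit 4) (.nd (nat_lit 5) 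
(.lf (nat_lit 183498) (.g (nat_lit 3536) (.e (nat_lit 57851) (nat_lit 252) (.e (nat_lit 57406) (nat_lit 12) (.e (nat_lit 336456) (nat_lit 34) (.e (nat_lit 483406) (nat_lit 26) (.e (nat_lit 385066) (nat_lit 26) (.e (nat_lit 532502) (nat_lit 1) .nil)))))) (.g (nat_lit 0) .nil .nil))) 
(.lf (nat_lit 183530) (.g (nat_lit 2415) (.e (nat_lit 57851) (nat_lit 252) (.e (nat_lit 57412) (nat_lit 12) (.e (nat_lit 336061) (nat_lit 7) (.e (nat_lit 319531) (nat_lit 16) (.e (nat_lit 286750) (nat_lit 9) (.e (nat_lit 335987) (nat_lit 1) (.e (nat_lit 57854) (nat_lit 252) (.e (nat_lit 57364) (nat_lit 1) .nil)))))))) (.g (nat_lit 4) .nil .nil)))) (.nd (nat_lit 5) 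
(.lf (nat_lit 183514) (.g (nat_lit 2151) (.e (nat_lit 57851) (nat_lit 252) (.e (nat_lit 57412) (nat_lit 12) (.e (nat_lit 336061) (nat_lit 7) (.e (nat_lit 319531) (nat_lit 16) (.e (nat_lit 286745) (nat_lit 9) .nil))))) .nil)) 
(.lf (nat_lit 183546) (.g (nat_lit 2097) (.e (nat_lit 57851) (nat_lit 252) (.e (nat_lit 57412) (nat_lit 12) (.e (nat_lit 336212) (nat_lit 13) (.e (nat_lit 393293) (nat_lit 26) (.e (nat_lit 475212) (nat_lit 42) (.e (nat_lit 720931) (nat_lit 21) .nil)))))) (.g (nat_lit 0) .nil .nil)))))) (.nd (nat_lit 3) (.nd (nat_lit 4) (.nd (nat_lit 5) 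
(.lf (nat_lit 183494) (.g (nat_lit 2763) (.e (nat_lit 57851) (nat_lit 252) (.e (nat_lit 57406) (nat_lit 12) (.e (nat_lit 336456) (nat_lit 34) (.e (nat_lit 483404) (nat_lit 26) (.e (nat_lit 385067) (nat_lit 26) (.e (nat_lit 532501) (nat_lit 1) .nil)))))) (.g (nat_lit 6) .nil .nil))) 
(.lf (nat_lit 183526) (.g (nat_lit 2060) (.e (nat_lit 57851) (nat_lit 252) (.e (nat_lit 57412) (nat_lit 12) (.e (nat_lit 336061) (nat_lit 7) (.e (nat_lit 319531) (nat_lit 16) (.e (nat_lit 286748) (nat_lit 9) (.e (nat_lit 335992) (nat_lit 1) (.e (nat_lit 57848) (nat_lit 252) (.e (nat_lit 57368) (nat_lit 1) .nil)))))))) (.g (nat_lit 5) .nil .nil)))) (.nd (nat_lit 5) 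
(.lf (nat_lit 183510) (.g (nat_lit 3833) (.e (nat_lit 57851) (nat_lit 252) (.e (nat_lit 57412) (nat_lit 12) (.e (nat_lit 336061) (nat_lit 7) (.e (nat_lit 319531) (nat_lit 16) (.e (nat_lit 286743) (nat_lit 9) (.e (nat_lit 336000) (nat_lit 1) (.e (nat_lit 57849) (nat_lit 252) (.e (nat_lit 57365) (nat_lit 1) .nil)))))))) (.g (nat_lit 7) .nil .nil))) 
(.lf (nat_lit 183542) (.g (nat_lit 3021) (.e (nat_lit 57851) (nat_lit 252) (.e (nat_lit 57412) (nat_lit 12) (.e (nat_lit 336061) (nat_lit 7) (.e (nat_lit 319534) (nat_lit 16) (.e (nat_lit 286751) (nat_lit 10) (.e (nat_lit 344097) (nat_lit 18) (.e (nat_lit 5195) (nat_lit 294) (.e (nat_lit 57365) (nat_lit 1) .nil)))))))) (.g (nat_lit 4) .nil .nil))))) (.nd (nat_lit 4) (.nd (nat_lit 5) 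
(.lf (nat_lit 183502) (.g (nat_lit 2080) (.e (nat_lit 57851) (nat_lit 252) (.e (nat_lit 57412) (nat_lit 12) (.e (nat_lit 336060) (nat_lit 7) (.e (nat_lit 319534) (nat_lit 16) (.e (nat_lit 286749) (nat_lit 9) (.e (nat_lit 335997) (nat_lit 1) (.e (nat_lit 57844) (nat_lit 252) (.e (nat_lit 57364) (nat_lit 1) .nil)))))))) (.g (nat_lit 4) .nil .nil))) 
(.lf (nat_lit 183534) (.g (nat_lit 3005) (.e (nat_lit 57851) (nat_lit 252) (.e (nat_lit 57412) (nat_lit 12) (.e (nat_lit 336061) (nat_lit 7) (.e (nat_lit 319531) (nat_lit 16) (.e (nat_lit 286753) (nat_lit 10) (.e (nat_lit 344097) (nat_lit 18) (.e (nat_lit 5194) (nat_lit 294) (.e (nat_lit 57368) (nat_lit 1) .nil)))))))) (.g (nat_lit 5) .nil .nil)))) (.nd (nat_lit 5) 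
(.lf (nat_lit 183518) (.g (nat_lit 2264) (.e (nat_lit 57851) (nat_lit 252) (.e (nat_lit 57412) (nat_lit 12) (.e (nat_lit 336061) (nat_lit 7) (.e (nat_lit 319531) (nat_lit 16) (.e (nat_lit 286745) (nat_lit 9) (.e (nat_lit 335992) (nat_lit 1) (.e (nat_lit 57847) (nat_lit 252) (.e (nat_lit 57368) (nat_lit 1) .nil)))))))) (.g (nat_lit 4) .nil .nil))) 
(.lf (nat_lit 183550) (.g (nat_lit 544) (.e (nat_lit 57851) (nat_lit 252) (.e (nat_lit 57412) (nat_lit 12) (.e (nat_lit 336218) (nat_lit 13) .nil))) .nil))))))) (.nd (nat_lit 1) (.nd (nat_lit 2) (.nd (nat_lit 3) (.nd (nat_lit 4) (.nd (nat_lit 5) 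
(.lf (nat_lit 183489) (.g (nat_lit 1989) (.e (nat_lit 57851) (nat_lit 252) (.e (nat_lit 57406) (nat_lit 12) (.e (nat_lit 336456) (nat_lit 34) (.e (nat_lit 483403) (nat_lit 26) (.e (nat_lit 385065) (nat_lit 26) .nil))))) .nil)) 
(.lf (nat_lit 183521) (.g (nat_lit 2246) (.e (nat_lit 57851) (nat_lit 252) (.e (nat_lit 57412) (nat_lit 12) (.e (nat_lit 336061) (nat_lit 7) (.e (nat_lit 319531) (nat_lit 16) (.e (nat_lit 286748) (nat_lit 9) (.e (nat_lit 335925) (nat_lit 0) (.e (nat_lit 1023) (nat_lit 81) (.e (nat_lit 5195) (nat_lit 294) (.e (nat_lit 57368) (nat_lit 1) .nil))))))))) (.g (nat_lit 5) .nil .nil)))) (.nd (nat_lit 5) 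
(.lf (nat_lit 183505) (.g (nat_lit 2055) (.e (nat_lit 57851) (nat_lit 252) (.e (nat_lit 57412) (nat_lit 12) (.e (nat_lit 336061) (nat_lit 7) (.e (nat_lit 319531) (nat_lit 16) (.e (nat_lit 286742) (nat_lit 9) (.e (nat_lit 335985) (nat_lit 1) (.e (nat_lit 57847) (nat_lit 252) (.e (nat_lit 57368) (nat_lit 1) .nil)))))))) (.g (nat_lit 4) .nil .nil))) 
(.lf (nat_lit 183537) (.g (nat_lit 4455) (.e (nat_lit 57851) (nat_lit 252) (.e (nat_lit 57412) (nat_lit 12) (.e (nat_lit 336061) (nat_lit 7) (.e (nat_lit 319531) (nat_lit 16) (.e (nat_lit 286756) (nat_lit 10) (.e (nat_lit 344097) (nat_lit 18) (.e (nat_lit 5195) (nat_lit 294) (.e (nat_lit 57368) (nat_lit 1) .nil)))))))) (.g (nat_lit 0) .nil .nil))))) (.nd (nat_lit 4) (.nd (nat_lit 5) 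
(.lf (nat_lit 183497) (.g (nat_lit 1279) (.e (nat_lit 57851) (nat_lit 252) (.e (nat_lit 57406) (nat_lit 12) (.e (nat_lit 336456) (nat_lit 34) (.e (nat_lit 483406) (nat_lit 26) (.e (nat_lit 385065) (nat_lit 26) .nil))))) .nil)) 
(.lf (nat_lit 183529) (.g (nat_lit 3941) (.e (nat_lit 57851) (nat_lit 252) (.e (nat_lit 57412) (nat_lit 12) (.e (nat_lit 336061) (nat_lit 7) (.e (nat_lit 319531) (nat_lit 16) (.e (nat_lit 286750) (nat_lit 9) (.e (nat_lit 335986) (nat_lit 1) (.e (nat_lit 57847) (nat_lit 252) (.e (nat_lit 57368) (nat_lit 1) .nil)))))))) (.g (nat_lit 7) .nil .nil)))) (.nd (nat_lit 5) 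
(.lf (nat_lit 183513) (.g (nat_lit 2193) (.e (nat_lit 57851) (nat_lit 252) (.e (nat_lit 57412) (nat_lit 12) (.e (nat_lit 336061) (nat_lit 7) (.e (nat_lit 319531) (nat_lit 16) (.e (nat_lit 286744) (nat_lit 9) (.e (nat_lit 335992) (nat_lit 1) (.e (nat_lit 57849) (nat_lit 252) (.e (nat_lit 57365) (nat_lit 1) .nil)))))))) (.g (nat_lit 4) .nil .nil))) 
(.lf (nat_lit 183545) (.g (nat_lit 2470) (.e (nat_lit 57851) (nat_lit 252) (.e (nat_lit 57412) (nat_lit 12) (.e (nat_lit 336212) (nat_lit 13) (.e (nat_lit 393270) (nat_lit 23) (.e (nat_lit 426448) (nat_lit 20) (.e (nat_lit 114710) (nat_lit 21) .nil)))))) (.g (nat_lit 0) .nil .nil)))))) (.nd (nat_lit 3) (.nd (nat_lit 4) (.nd (nat_lit 5) 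
(.lf (nat_lit 183493) (.g (nat_lit 1253) (.e (nat_lit 57851) (nat_lit 252) (.e (nat_lit 57406) (nat_lit 12) (.e (nat_lit 336456) (nat_lit 34) (.e (nat_lit 483404) (nat_lit 26) .nil)))) .nil)) 
(.lf (nat_lit 183525) (.g (nat_lit 3257) (.e (nat_lit 57851) (nat_lit 252) (.e (nat_lit 57412) (nat_lit 12) (.e (nat_lit 336061) (nat_lit 7) (.e (nat_lit 319531) (nat_lit 16) (.e (nat_lit 286748) (nat_lit 9) (.e (nat_lit 335992) (nat_lit 1) (.e (nat_lit 57846) (nat_lit 252) (.e (nat_lit 57365) (nat_lit 1) .nil)))))))) (.g (nat_lit 7) .nil .nil)))) (.nd (nat_lit 5) 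
(.lf (nat_lit 183509) (.g (nat_lit 2267) (.e (nat_lit 57851) (nat_lit 252) (.e (nat_lit 57412) (nat_lit 12) (.e (nat_lit 336061) (nat_lit 7) (.e (nat_lit 319531) (nat_lit 16) (.e (nat_lit 286742) (nat_lit 9) (.e (nat_lit 335997) (nat_lit 1) (.e (nat_lit 57844) (nat_lit 252) (.e (nat_lit 57364) (nat_lit 1) .nil)))))))) (.g (nat_lit 4) .nil .nil))) 
(.lf (nat_lit 183541) (.g (nat_lit 2666) (.e (nat_lit 57851) (nat_lit 252) (.e (nat_lit 57412) (nat_lit 12) (.e (nat_lit 336061) (nat_lit 7) (.e (nat_lit 319534) (nat_lit 16) (.e (nat_lit 286751) (nat_lit 10) .nil))))) .nil)))) (.nd (nat_lit 4) (.nd (nat_lit 5) 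
(.lf (nat_lit 183501) (.g (nat_lit 1102) (.e (nat_lit 57851) (nat_lit 252) (.e (nat_lit 57408) (nat_lit 12) (.e (nat_lit 336452) (nat_lit 34) (.e (nat_lit 483408) (nat_lit 26) (.e (nat_lit 385067) (nat_lit 26) .nil))))) .nil)) 
(.lf (nat_lit 183533) (.g (nat_lit 2346) (.e (nat_lit 57851) (nat_lit 252) (.e (nat_lit 57412) (nat_lit 12) (.e (nat_lit 336061) (nat_lit 7) (.e (nat_lit 319531) (nat_lit 16) (.e (nat_lit 286752) (nat_lit 10) (.e (nat_lit 344097) (nat_lit 18) (.e (nat_lit 5195) (nat_lit 294) (.e (nat_lit 57368) (nat_lit 1) .nil)))))))) (.g (nat_lit 4) .nil .nil)))) (.nd (nat_lit 5) 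
(.lf (nat_lit 183517) (.g (nat_lit 2416) (.e (nat_lit 57851) (nat_lit 252) (.e (nat_lit 57412) (nat_lit 12) (.e (nat_lit 336061) (nat_lit 7) (.e (nat_lit 319531) (nat_lit 16) (.e (nat_lit 286745) (nat_lit 9) (.e (nat_lit 335992) (nat_lit 1) (.e (nat_lit 57846) (nat_lit 252) (.e (nat_lit 57365) (nat_lit 1) .nil)))))))) (.g (nat_lit 4) .nil .nil))) 
(.lf (nat_lit 183549) (.g (nat_lit 1542) (.e (nat_lit 57851) (nat_lit 252) (.e (nat_lit 57412) (nat_lit 12) (.e (nat_lit 336212) (nat_lit 13) (.e (nat_lit 393294) (nat_lit 26) (.e (nat_lit 475214) (nat_lit 42) .nil))))) .nil)))))) (.nd (nat_lit 2) (.nd (nat_lit 3) (.nd (nat_lit 4) (.nd (nat_lit 5) 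
(.lf (nat_lit 183491) (.g (nat_lit 3129) (.e (nat_lit 57851) (nat_lit 252) (.e (nat_lit 57406) (nat_lit 12) (.e (nat_lit 336456) (nat_lit 34) (.e (nat_lit 483403) (nat_lit 26) (.e (nat_lit 385066) (nat_lit 26) (.e (nat_lit 532502) (nat_lit 1) .nil)))))) (.g (nat_lit 0) .nil .nil))) 
(.lf (nat_lit 183523) (.g (nat_lit 3235) (.e (nat_lit 57851) (nat_lit 252) (.e (nat_lit 57412) (nat_lit 12) (.e (nat_lit 336061) (nat_lit 7) (.e (nat_lit 319531) (nat_lit 16) (.e (nat_lit 286748) (nat_lit 9) (.e (nat_lit 335985) (nat_lit 1) (.e (nat_lit 57849) (nat_lit 252) (.e (nat_lit 57368) (nat_lit 1) .nil)))))))) (.g (nat_lit 7) .nil .nil)))) (.nd (nat_lit 5) 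
(.lf (nat_lit 183507) (.g (nat_lit 2111) (.e (nat_lit 57851) (nat_lit 252) (.e (nat_lit 57412) (nat_lit 12) (.e (nat_lit 336061) (nat_lit 7) (.e (nat_lit 319531) (nat_lit 16) (.e (nat_lit 286742) (nat_lit 9) (.e (nat_lit 335992) (nat_lit 1) (.e (nat_lit 57846) (nat_lit 252) (.e (nat_lit 57365) (nat_lit 1) .nil)))))))) (.g (nat_lit 4) .nil .nil))) 
(.lf (nat_lit 183539) (.g (nat_lit 2259) (.e (nat_lit 57851) (nat_lit 252) (.e (nat_lit 57412) (nat_lit 12) (.e (nat_lit 336061) (nat_lit 7) (.e (nat_lit 319533) (nat_lit 16) (.e (nat_lit 286754) (nat_lit 10) .nil))))) .nil)))) (.nd (nat_lit 4) (.nd (nat_lit 5) 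
(.lf (nat_lit 183499) (.g (nat_lit 2773) (.e (nat_lit 57851) (nat_lit 252) (.e (nat_lit 57406) (nat_lit 12) (.e (nat_lit 336456) (nat_lit 34) (.e (nat_lit 483407) (nat_lit 26) (.e (nat_lit 385067) (nat_lit 26) (.e (nat_lit 532501) (nat_lit 1) .nil)))))) (.g (nat_lit 6) .nil .nil))) 
(.lf (nat_lit 183531) (.g (nat_lit 2229) (.e (nat_lit 57851) (nat_lit 252) (.e (nat_lit 57412) (nat_lit 12) (.e (nat_lit 336061) (nat_lit 7) (.e (nat_lit 319531) (nat_lit 16) (.e (nat_lit 286750) (nat_lit 9) (.e (nat_lit 335993) (nat_lit 1) (.e (nat_lit 57854) (nat_lit 252) (.e (nat_lit 57364) (nat_lit 1) .nil)))))))) (.g (nat_lit 4) .nil .nil)))) (.nd (nat_lit 5) 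
(.lf (nat_lit 183515) (.g (nat_lit 2452) (.e (nat_lit 57851) (nat_lit 252) (.e (nat_lit 57412) (nat_lit 12) (.e (nat_lit 336061) (nat_lit 7) (.e (nat_lit 319531) (nat_lit 16) (.e (nat_lit 286745) (nat_lit 9) (.e (nat_lit 335985) (nat_lit 1) (.e (nat_lit 57849) (nat_lit 252) (.e (nat_lit 57368) (nat_lit 1) .nil)))))))) (.g (nat_lit 4) .nil .nil))) 
(.lf (nat_lit 183547) (.g (nat_lit 2023) (.e (nat_lit 57851) (nat_lit 252) (.e (nat_lit 57412) (nat_lit 12) (.e (nat_lit 336212) (nat_lit 13) (.e (nat_lit 393293) (nat_lit 26) (.e (nat_lit 475212) (nat_lit 42) (.e (nat_lit 720934) (nat_lit 21) .nil)))))) (.g (nat_lit 0) .nil .nil)))))) (.nd (nat_lit 3) (.nd (nat_lit 4) (.nd (nat_lit 5) 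
(.lf (nat_lit 183495) (.g (nat_lit 1221) (.e (nat_lit 57851) (nat_lit 252) (.e (nat_lit 57406) (nat_lit 12) (.e (nat_lit 336456) (nat_lit 34) (.e (nat_lit 483405) (nat_lit 26) .nil)))) .nil)) 
(.lf (nat_lit 183527) (.g (nat_lit 3725) (.e (nat_lit 57851) (nat_lit 252) (.e (nat_lit 57412) (nat_lit 12) (.e (nat_lit 336061) (nat_lit 7) (.e (nat_lit 319531) (nat_lit 16) (.e (nat_lit 286748) (nat_lit 9) (.e (nat_lit 335997) (nat_lit 1) (.e (nat_lit 57849) (nat_lit 252) (.e (nat_lit 57365) (nat_lit 1) .nil)))))))) (.g (nat_lit 7) .nil .nil)))) (.nd (nat_lit 5) 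
(.lf (nat_lit 183511) (.g (nat_lit 2151) (.e (nat_lit 57851) (nat_lit 252) (.e (nat_lit 57412) (nat_lit 12) (.e (nat_lit 336061) (nat_lit 7) (.e (nat_lit 319531) (nat_lit 16) (.e (nat_lit 286744) (nat_lit 9) .nil))))) .nil)) 
(.lf (nat_lit 183543) (.g (nat_lit 2492) (.e (nat_lit 57851) (nat_lit 252) (.e (nat_lit 57412) (nat_lit 12) (.e (nat_lit 336061) (nat_lit 7) (.e (nat_lit 319534) (nat_lit 16) (.e (nat_lit 286752) (nat_lit 10) .nil))))) .nil)))) (.nd (nat_lit 4) (.nd (nat_lit 5) 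
(.lf (nat_lit 183503) (.g (nat_lit 310) (.e (nat_lit 57851) (nat_lit 252) (.e (nat_lit 57412) (nat_lit 12) (.e (nat_lit 336061) (nat_lit 7) .nil))) .nil)) 
(.lf (nat_lit 183535) (.g (nat_lit 3068) (.e (nat_lit 57851) (nat_lit 252) (.e (nat_lit 57412) (nat_lit 12) (.e (nat_lit 336061) (nat_lit 7) (.e (nat_lit 319531) (nat_lit 16) (.e (nat_lit 286755) (nat_lit 10) (.e (nat_lit 344097) (nat_lit 18) (.e (nat_lit 5194) (nat_lit 294) (.e (nat_lit 57368) (nat_lit 1) .nil)))))))) (.g (nat_lit 6) .nil .nil)))) (.nd (nat_lit 5) 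
(.lf (nat_lit 183519) (.g (nat_lit 1724) (.e (nat_lit 57851) (nat_lit 252) (.e (nat_lit 57412) (nat_lit 12) (.e (nat_lit 336061) (nat_lit 7) (.e (nat_lit 319531) (nat_lit 16) (.e (nat_lit 286747) (nat_lit 9) .nil))))) .nil)) 
(.lf (nat_lit 183551) (.g (nat_lit 911) (.e (nat_lit 57851) (nat_lit 252) (.e (nat_lit 57412) (nat_lit 12) (.e (nat_lit 336219) (nat_lit 13) (.e (nat_lit 393267) (nat_lit 23) (.e (nat_lit 426446) (nat_lit 20) .nil))))) .nil))))))))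

noncomputable def tv2449 : DT := (.nd (nat_lit 0) (.nd (nat_lit 1) (.nd (nat_lit 2) (.nd (nat_lit 3) (.nd (nat_lit 4) (.nd (nat_lit 5) (.nd (nat_lit 6) 
(.lf (nat_lit 183552) (.g (nat_lit 1112) (.e (nat_lit 57851) (nat_lit 252) (.e (nat_lit 57412) (nat_lit 12) (.e (nat_lit 336219) (nat_lit 13) (.e (nat_lit 393274) (nat_lit 23) (.e (nat_lit 433920) (nat_lit 20) .nil))))) .nil)) 
(.lf (nat_lit 183616) (.g (nat_lit 2905) (.e (nat_lit 57851) (nat_lit 252) (.e (nat_lit 57423) (nat_lit 14) (.e (nat_lit 352277) (nat_lit 11) (.e (nat_lit 426308) (nat_lit 12) (.e (nat_lit 475212) (nat_lit 42) (.e (nat_lit 720931) (nat_lit 21) .nil)))))) (.g (nat_lit 0) .nil .nil)))) (.nd (nat_lit 6) 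
(.lf (nat_lit 183584) (.g (nat_lit 3635) (.e (nat_lit 57851) (nat_lit 252) (.e (nat_lit 57420) (nat_lit 13) (.e (nat_lit 344117) (nat_lit 21) (.e (nat_lit 516151) (nat_lit 9) (.e (nat_lit 426166) (nat_lit 7) (.e (nat_lit 409617) (nat_lit 10) (.e (nat_lit 604) (nat_lit 45) (.e (nat_lit 532504) (nat_lit 1) .nil)))))))) (.g (nat_lit 4) .nil .nil))) 
(.lf (nat_lit 183648) (.g (nat_lit 4284) (.e (nat_lit 57851) (nat_lit 252) (.e (nat_lit 57427) (nat_lit 15) (.e (nat_lit 360483) (nat_lit 15) (.e (nat_lit 647171) (nat_lit 0) (.e (nat_lit 284) (nat_lit 21) (.e (nat_lit 335986) (nat_lit 1) (.e (nat_lit 57847) (nat_lit 252) (.e (nat_lit 57368) (nat_lit 1) .nil)))))))) (.g (nat_lit 7) .nil .nil))))) (.nd (nat_lit 5) (.nd (nat_lit 6) 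
(.lf (nat_lit 183568) (.g (nat_lit 1624) (.e (nat_lit 57851) (nat_lit 252) (.e (nat_lit 57419) (nat_lit 12) (.e (nat_lit 336213) (nat_lit 13) (.e (nat_lit 393267) (nat_lit 23) .nil)))) .nil)) 
(.lf (nat_lit 183632) (.g (nat_lit 2020) (.e (nat_lit 57851) (nat_lit 252) (.e (nat_lit 57424) (nat_lit 14) (.e (nat_lit 352277) (nat_lit 11) (.e (nat_lit 426307) (nat_lit 12) (.e (nat_lit 475212) (nat_lit 42) (.e (nat_lit 720934) (nat_lit 21) .nil)))))) (.g (nat_lit 4) .nil .nil)))) (.nd (nat_lit 6) 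
(.lf (nat_lit 183600) (.g (nat_lit 1778) (.e (nat_lit 57851) (nat_lit 252) (.e (nat_lit 57421) (nat_lit 13) (.e (nat_lit 344129) (nat_lit 26) (.e (nat_lit 557104) (nat_lit 14) (.e (nat_lit 188160) (nat_lit 0) .nil))))) .nil)) 
(.lf (nat_lit 183664) (.g (nat_lit 2965) (.e (nat_lit 57851) (nat_lit 252) (.e (nat_lit 57435) (nat_lit 17) (.e (nat_lit 376842) (nat_lit 11) (.e (nat_lit 426308) (nat_lit 12) (.e (nat_lit 475212) (nat_lit 42) (.e (nat_lit 720931) (nat_lit 21) .nil)))))) (.g (nat_lit 0) .nil .nil)))))) (.nd (nat_lit 4) (.nd (nat_lit 5) (.nd (nat_lit 6) 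
(.lf (nat_lit 183560) (.g (nat_lit 757) (.e (nat_lit 57851) (nat_lit 252) (.e (nat_lit 57412) (nat_lit 12) (.e (nat_lit 336412) (nat_lit 27) (.e (nat_lit 426500) (nat_lit 27) .nil)))) .nil)) 
(.lf (nat_lit 183624) (.g (nat_lit 2869) (.e (nat_lit 57851) (nat_lit 252) (.e (nat_lit 57424) (nat_lit 14) (.e (nat_lit 352273) (nat_lit 11) (.e (nat_lit 426308) (nat_lit 12) (.e (nat_lit 475212) (nat_lit 42) (.e (nat_lit 720931) (nat_lit 21) .nil)))))) (.g (nat_lit 5) .nil .nil)))) (.nd (nat_lit 6) 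
(.lf (nat_lit 183592) (.g (nat_lit 3816) (.e (nat_lit 57851) (nat_lit 252) (.e (nat_lit 57421) (nat_lit 13) (.e (nat_lit 344117) (nat_lit 21) (.e (nat_lit 516151) (nat_lit 9) (.e (nat_lit 426170) (nat_lit 7) (.e (nat_lit 409611) (nat_lit 10) (.e (nat_lit 604) (nat_lit 45) (.e (nat_lit 532501) (nat_lit 1) .nil)))))))) (.g (nat_lit 4) .nil .nil))) 
(.lf (nat_lit 183656) (.g (nat_lit 3160) (.e (nat_lit 57851) (nat_lit 252) (.e (nat_lit 57435) (nat_lit 17) (.e (nat_lit 376842) (nat_lit 11) (.e (nat_lit 426198) (nat_lit 9) (.e (nat_lit 426448) (nat_lit 20) (.e (nat_lit 114710) (nat_lit 21) .nil)))))) (.g (nat_lit 0) .nil .nil))))) (.nd (nat_lit 5) (.nd (nat_lit 6) 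
(.lf (nat_lit 183576) (.g (nat_lit 2129) (.e (nat_lit 57851) (nat_lit 252) (.e (nat_lit 57419) (nat_lit 12) (.e (nat_lit 336213) (nat_lit 13) (.e (nat_lit 393293) (nat_lit 26) (.e (nat_lit 475212) (nat_lit 42) (.e (nat_lit 720930) (nat_lit 21) .nil)))))) (.g (nat_lit 5) .nil .nil))) 
(.lf (nat_lit 183640) (.g (nat_lit 635) (.e (nat_lit 57851) (nat_lit 252) (.e (nat_lit 57427) (nat_lit 15) (.e (nat_lit 360451) (nat_lit 0) .nil))) .nil))) (.nd (nat_lit 6) 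
(.lf (nat_lit 183608) (.g (nat_lit 2884) (.e (nat_lit 57851) (nat_lit 252) (.e (nat_lit 57421) (nat_lit 13) (.e (nat_lit 344133) (nat_lit 26) (.e (nat_lit 557098) (nat_lit 13) (.e (nat_lit 172061) (nat_lit 1) (.e (nat_lit 164319) (nat_lit 228) (.e (nat_lit 57388) (nat_lit 5) (.e (nat_lit 114710) (nat_lit 21) .nil)))))))) (.g (nat_lit 4) .nil .nil))) 
(.lf (nat_lit 183672) (.g (nat_lit 544) (.e (nat_lit 57851) (nat_lit 252) (.e (nat_lit 57436) (nat_lit 17) (.e (nat_lit 376839) (nat_lit 11) .nil))) .nil)))))) (.nd (nat_lit 3) (.nd (nat_lit 4) (.nd (nat_lit 5) (.nd (nat_lit 6) 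
(.lf (nat_lit 183556) (.g (nat_lit 1324) (.e (nat_lit 57851) (nat_lit 252) (.e (nat_lit 57412) (nat_lit 12) (.e (nat_lit 336389) (nat_lit 27) (.e (nat_lit 426500) (nat_lit 27) .nil)))) .nil)) 
(.lf (nat_lit 183620) (.g (nat_lit 2449) (.e (nat_lit 57851) (nat_lit 252) (.e (nat_lit 57424) (nat_lit 14) (.e (nat_lit 352273) (nat_lit 11) (.e (nat_lit 426307) (nat_lit 12) (.e (nat_lit 475212) (nat_lit 42) (.e (nat_lit 720930) (nat_lit 21) .nil)))))) (.g (nat_lit 5) .nil .nil)))) (.nd (nat_lit 6) 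
(.lf (nat_lit 183588) (.g (nat_lit 3799) (.e (nat_lit 57851) (nat_lit 252) (.e (nat_lit 57420) (nat_lit 13) (.e (nat_lit 344117) (nat_lit 21) (.e (nat_lit 516151) (nat_lit 9) (.e (nat_lit 426170) (nat_lit 7) (.e (nat_lit 409616) (nat_lit 10) (.e (nat_lit 604) (nat_lit 45) (.e (nat_lit 532501) (nat_lit 1) .nil)))))))) (.g (nat_lit 4) .nil .nil))) 
(.lf (nat_lit 183652) (.g (nat_lit 449) (.e (nat_lit 57851) (nat_lit 252) (.e (nat_lit 57435) (nat_lit 17) (.e (nat_lit 376839) (nat_lit 11) .nil))) .nil)))) (.nd (nat_lit 5) (.nd (nat_lit 6) 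
(.lf (nat_lit 183572) (.g (nat_lit 1736) (.e (nat_lit 57851) (nat_lit 252) (.e (nat_lit 57419) (nat_lit 12) (.e (nat_lit 336213) (nat_lit 13) (.e (nat_lit 393273) (nat_lit 23) (.e (nat_lit 426446) (nat_lit 20) .nil))))) .nil)) 
(.lf (nat_lit 183636) (.g (nat_lit 2614) (.e (nat_lit 57851) (nat_lit 252) (.e (nat_lit 57424) (nat_lit 14) (.e (nat_lit 352278) (nat_lit 11) (.e (nat_lit 426307) (nat_lit 12) (.e (nat_lit 475212) (nat_lit 42) (.e (nat_lit 720934) (nat_lit 21) .nil)))))) (.g (nat_lit 5) .nil .nil)))) (.nd (nat_lit 6) 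
(.lf (nat_lit 183604) (.g (nat_lit 1782) (.e (nat_lit 57851) (nat_lit 252) (.e (nat_lit 57421) (nat_lit 13) (.e (nat_lit 344130) (nat_lit 26) (.e (nat_lit 557104) (nat_lit 14) (.e (nat_lit 188160) (nat_lit 0) (.e (nat_lit 5195) (nat_lit 294) (.e (nat_lit 57390) (nat_lit 5) (.e (nat_lit 114712) (nat_lit 21) .nil)))))))) (.g (nat_lit 4) .nil .nil))) 
(.lf (nat_lit 183668) (.g (nat_lit 2333) (.e (nat_lit 57851) (nat_lit 252) (.e (nat_lit 57435) (nat_lit 17) (.e (nat_lit 376842) (nat_lit 11) (.e (nat_lit 426315) (nat_lit 12) (.e (nat_lit 475213) (nat_lit 42) (.e (nat_lit 720931) (nat_lit 21) .nil)))))) (.g (nat_lit 4) .nil .nil)))))) (.nd (nat_lit 4) (.nd (nat_lit 5) (.nd (nat_lit 6) 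
(.lf (nat_lit 183564) (.g (nat_lit 2085) (.e (nat_lit 57851) (nat_lit 252) (.e (nat_lit 57413) (nat_lit 12) (.e (nat_lit 336060) (nat_lit 7) (.e (nat_lit 319534) (nat_lit 16) (.e (nat_lit 286756) (nat_lit 10) (.e (nat_lit 344097) (nat_lit 18) (.e (nat_lit 5194) (nat_lit 294) (.e (nat_lit 57365) (nat_lit 1) .nil)))))))) (.g (nat_lit 5) .nil .nil))) 
(.lf (nat_lit 183628) (.g (nat_lit 583) (.e (nat_lit 57851) (nat_lit 252) (.e (nat_lit 57424) (nat_lit 14) (.e (nat_lit 352274) (nat_lit 11) .nil))) .nil))) (.nd (nat_lit 6) 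
(.lf (nat_lit 183596) (.g (nat_lit 3875) (.e (nat_lit 57851) (nat_lit 252) (.e (nat_lit 57421) (nat_lit 13) (.e (nat_lit 344117) (nat_lit 21) (.e (nat_lit 516151) (nat_lit 9) (.e (nat_lit 426170) (nat_lit 7) (.e (nat_lit 409616) (nat_lit 10) (.e (nat_lit 604) (nat_lit 45) (.e (nat_lit 532501) (nat_lit 1) .nil)))))))) (.g (nat_lit 4) .nil .nil))) 
(.lf (nat_lit 183660) (.g (nat_lit 2892) (.e (nat_lit 57851) (nat_lit 252) (.e (nat_lit 57435) (nat_lit 17) (.e (nat_lit 376842) (nat_lit 11) (.e (nat_lit 426306) (nat_lit 12) (.e (nat_lit 475214) (nat_lit 42) (.e (nat_lit 720930) (nat_lit 21) .nil)))))) (.g (nat_lit 6) .nil .nil))))) (.nd (nat_lit 5) (.nd (nat_lit 6) 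
(.lf (nat_lit 183580) (.g (nat_lit 1890) (.e (nat_lit 57851) (nat_lit 252) (.e (nat_lit 57419) (nat_lit 12) (.e (nat_lit 336213) (nat_lit 13) (.e (nat_lit 393295) (nat_lit 26) .nil)))) .nil)) 
(.lf (nat_lit 183644) (.g (nat_lit 2538) (.e (nat_lit 57851) (nat_lit 252) (.e (nat_lit 57427) (nat_lit 15) (.e (nat_lit 360478) (nat_lit 12) (.e (nat_lit 622616) (nat_lit 9) (.e (nat_lit 65565) (nat_lit 1) (.e (nat_lit 57848) (nat_lit 252) (.e (nat_lit 57365) (nat_lit 1) .nil))))))) (.g (nat_lit 6) .nil .nil)))) (.nd (nat_lit 6) 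
(.lf (nat_lit 183612) (.g (nat_lit 598) (.e (nat_lit 57851) (nat_lit 252) (.e (nat_lit 57423) (nat_lit 14) (.e (nat_lit 352275) (nat_lit 11) .nil))) .nil)) 
(.lf (nat_lit 183676) (.g (nat_lit 3560) (.e (nat_lit 57851) (nat_lit 252) (.e (nat_lit 57436) (nat_lit 17) (.e (nat_lit 376842) (nat_lit 11) (.e (nat_lit 426188) (nat_lit 9) (.e (nat_lit 426448) (nat_lit 20) (.e (nat_lit 114710) (nat_lit 21) .nil)))))) (.g (nat_lit 0) .nil .nil)))))))) (.nd (nat_lit 2) (.nd (nat_lit 3) (.nd (nat_lit 4) (.nd (nat_lit 5) (.nd (nat_lit 6) 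
(.lf (nat_lit 183554) (.g (nat_lit 1885) (.e (nat_lit 57851) (nat_lit 252) (.e (nat_lit 57412) (nat_lit 12) (.e (nat_lit 336219) (nat_lit 13) (.e (nat_lit 393293) (nat_lit 26) (.e (nat_lit 475212) (nat_lit 42) (.e (nat_lit 720930) (nat_lit 21) .nil)))))) (.g (nat_lit 5) .nil .nil))) 
(.lf (nat_lit 183618) (.g (nat_lit 743) (.e (nat_lit 57851) (nat_lit 252) (.e (nat_lit 57424) (nat_lit 14) (.e (nat_lit 352256) (nat_lit 0) .nil))) .nil))) (.nd (nat_lit 6) 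
(.lf (nat_lit 183586) (.g (nat_lit 3839) (.e (nat_lit 57851) (nat_lit 252) (.e (nat_lit 57420) (nat_lit 13) (.e (nat_lit 344117) (nat_lit 21) (.e (nat_lit 516151) (nat_lit 9) (.e (nat_lit 426170) (nat_lit 7) (.e (nat_lit 409612) (nat_lit 10) (.e (nat_lit 604) (nat_lit 45) (.e (nat_lit 532501) (nat_lit 1) .nil)))))))) (.g (nat_lit 4) .nil .nil))) 
(.lf (nat_lit 183650) (.g (nat_lit 1159) (.e (nat_lit 57851) (nat_lit 252) (.e (nat_lit 57427) (nat_lit 15) (.e (nat_lit 360484) (nat_lit 15) (.e (nat_lit 647179) (nat_lit 2) .nil)))) .nil)))) (.nd (nat_lit 5) (.nd (nat_lit 6) 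
(.lf (nat_lit 183570) (.g (nat_lit 1600) (.e (nat_lit 57851) (nat_lit 252) (.e (nat_lit 57419) (nat_lit 12) (.e (nat_lit 336213) (nat_lit 13) (.e (nat_lit 393273) (nat_lit 23) (.e (nat_lit 426364) (nat_lit 15) (.e (nat_lit 2184) (nat_lit 144) (.e (nat_lit 720934) (nat_lit 21) .nil))))))) (.g (nat_lit 4) .nil .nil))) 
(.lf (nat_lit 183634) (.g (nat_lit 2884) (.e (nat_lit 57851) (nat_lit 252) (.e (nat_lit 57424) (nat_lit 14) (.e (nat_lit 352277) (nat_lit 11) (.e (nat_lit 426308) (nat_lit 12) (.e (nat_lit 475212) (nat_lit 42) (.e (nat_lit 720930) (nat_lit 21) .nil)))))) (.g (nat_lit 5) .nil .nil)))) (.nd (nat_lit 6) 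
(.lf (nat_lit 183602) (.g (nat_lit 1791) (.e (nat_lit 57851) (nat_lit 252) (.e (nat_lit 57421) (nat_lit 13) (.e (nat_lit 344130) (nat_lit 26) (.e (nat_lit 557104) (nat_lit 14) (.e (nat_lit 180233) (nat_lit 0) .nil))))) .nil)) 
(.lf (nat_lit 183666) (.g (nat_lit 2270) (.e (nat_lit 57851) (nat_lit 252) (.e (nat_lit 57435) (nat_lit 17) (.e (nat_lit 376842) (nat_lit 11) (.e (nat_lit 426314) (nat_lit 12) (.e (nat_lit 475213) (nat_lit 42) (.e (nat_lit 720931) (nat_lit 21) .nil)))))) (.g (nat_lit 4) .nil .nil)))))) (.nd (nat_lit 4) (.nd (nat_lit 5) (.nd (nat_lit 6) 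
(.lf (nat_lit 183562) (.g (nat_lit 2150) (.e (nat_lit 57851) (nat_lit 252) (.e (nat_lit 57413) (nat_lit 12) (.e (nat_lit 336060) (nat_lit 7) (.e (nat_lit 319533) (nat_lit 16) (.e (nat_lit 286753) (nat_lit 10) (.e (nat_lit 344097) (nat_lit 18) (.e (nat_lit 5195) (nat_lit 294) (.e (nat_lit 57365) (nat_lit 1) .nil)))))))) (.g (nat_lit 5) .nil .nil))) 
(.lf (nat_lit 183626) (.g (nat_lit 2780) (.e (nat_lit 57851) (nat_lit 252) (.e (nat_lit 57424) (nat_lit 14) (.e (nat_lit 352273) (nat_lit 11) (.e (nat_lit 426308) (nat_lit 12) (.e (nat_lit 475214) (nat_lit 42) (.e (nat_lit 720930) (nat_lit 21) .nil)))))) (.g (nat_lit 5) .nil .nil)))) (.nd (nat_lit 6) 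
(.lf (nat_lit 183594) (.g (nat_lit 3915) (.e (nat_lit 57851) (nat_lit 252) (.e (nat_lit 57421) (nat_lit 13) (.e (nat_lit 344117) (nat_lit 21) (.e (nat_lit 516151) (nat_lit 9) (.e (nat_lit 426170) (nat_lit 7) (.e (nat_lit 409612) (nat_lit 10) (.e (nat_lit 604) (nat_lit 45) (.e (nat_lit 532501) (nat_lit 1) .nil)))))))) (.g (nat_lit 4) .nil .nil))) 
(.lf (nat_lit 183658) (.g (nat_lit 2616) (.e (nat_lit 57851) (nat_lit 252) (.e (nat_lit 57435) (nat_lit 17) (.e (nat_lit 376842) (nat_lit 11) (.e (nat_lit 426306) (nat_lit 12) (.e (nat_lit 475212) (nat_lit 42) (.e (nat_lit 720930) (nat_lit 21) .nil)))))) (.g (nat_lit 5) .nil .nil))))) (.nd (nat_lit 5) (.nd (nat_lit 6) 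
(.lf (nat_lit 183578) (.g (nat_lit 2281) (.e (nat_lit 57851) (nat_lit 252) (.e (nat_lit 57419) (nat_lit 12) (.e (nat_lit 336213) (nat_lit 13) (.e (nat_lit 393293) (nat_lit 26) (.e (nat_lit 475212) (nat_lit 42) (.e (nat_lit 720934) (nat_lit 21) .nil)))))) (.g (nat_lit 5) .nil .nil))) 
(.lf (nat_lit 183642) (.g (nat_lit 3098) (.e (nat_lit 57851) (nat_lit 252) (.e (nat_lit 57427) (nat_lit 15) (.e (nat_lit 360451) (nat_lit 0) (.e (nat_lit 6923) (nat_lit 371) (.e (nat_lit 2628) (nat_lit 164) (.e (nat_lit 179968) (nat_lit 20) (.e (nat_lit 114712) (nat_lit 21) .nil))))))) (.g (nat_lit 5) .nil .nil)))) (.nd (nat_lit 6) 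
(.lf (nat_lit 183610) (.g (nat_lit 2538) (.e (nat_lit 57851) (nat_lit 252) (.e (nat_lit 57421) (nat_lit 13) (.e (nat_lit 344144) (nat_lit 31) (.e (nat_lit 598041) (nat_lit 10) (.e (nat_lit 81950) (nat_lit 21) (.e (nat_lit 57848) (nat_lit 252) (.e (nat_lit 57368) (nat_lit 1) .nil))))))) (.g (nat_lit 6) .nil .nil))) 
(.lf (nat_lit 183674) (.g (nat_lit 410) (.e (nat_lit 57851) (nat_lit 252) (.e (nat_lit 57436) (nat_lit 17) (.e (nat_lit 376842) (nat_lit 11) .nil))) .nil)))))) (.nd (nat_lit 3) (.nd (nat_lit 4) (.nd (nat_lit 5) (.nd (nat_lit 6) 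
(.lf (nat_lit 183558) (.g (nat_lit 1608) (.e (nat_lit 57851) (nat_lit 252) (.e (nat_lit 57412) (nat_lit 12) (.e (nat_lit 336389) (nat_lit 27) (.e (nat_lit 426521) (nat_lit 27) (.e (nat_lit 336203) (nat_lit 12) .nil))))) .nil)) 
(.lf (nat_lit 183622) (.g (nat_lit 2564) (.e (nat_lit 57851) (nat_lit 252) (.e (nat_lit 57424) (nat_lit 14) (.e (nat_lit 352273) (nat_lit 11) (.e (nat_lit 426307) (nat_lit 12) (.e (nat_lit 475212) (nat_lit 42) (.e (nat_lit 720934) (nat_lit 21) .nil)))))) (.g (nat_lit 6) .nil .nil)))) (.nd (nat_lit 6) 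
(.lf (nat_lit 183590) (.g (nat_lit 2234) (.e (nat_lit 57851) (nat_lit 252) (.e (nat_lit 57421) (nat_lit 13) (.e (nat_lit 344117) (nat_lit 21) (.e (nat_lit 516129) (nat_lit 3) (.e (nat_lit 229120) (nat_lit 1) .nil))))) .nil)) 
(.lf (nat_lit 183654) (.g (nat_lit 2138) (.e (nat_lit 57851) (nat_lit 252) (.e (nat_lit 57435) (nat_lit 17) (.e (nat_lit 376842) (nat_lit 11) (.e (nat_lit 426188) (nat_lit 9) (.e (nat_lit 426449) (nat_lit 20) .nil))))) .nil)))) (.nd (nat_lit 5) (.nd (nat_lit 6) 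
(.lf (nat_lit 183574) (.g (nat_lit 2034) (.e (nat_lit 57851) (nat_lit 252) (.e (nat_lit 57419) (nat_lit 12) (.e (nat_lit 336213) (nat_lit 13) (.e (nat_lit 393292) (nat_lit 26) (.e (nat_lit 475212) (nat_lit 42) (.e (nat_lit 720931) (nat_lit 21) .nil)))))) (.g (nat_lit 5) .nil .nil))) 
(.lf (nat_lit 183638) (.g (nat_lit 628) (.e (nat_lit 57851) (nat_lit 252) (.e (nat_lit 57427) (nat_lit 15) (.e (nat_lit 360450) (nat_lit 0) .nil))) .nil))) (.nd (nat_lit 6) 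
(.lf (nat_lit 183606) (.g (nat_lit 1792) (.e (nat_lit 57851) (nat_lit 252) (.e (nat_lit 57421) (nat_lit 13) (.e (nat_lit 344132) (nat_lit 26) (.e (nat_lit 557101) (nat_lit 13) (.e (nat_lit 172070) (nat_lit 4) .nil))))) .nil)) 
(.lf (nat_lit 183670) (.g (nat_lit 2805) (.e (nat_lit 57851) (nat_lit 252) (.e (nat_lit 57435) (nat_lit 17) (.e (nat_lit 376842) (nat_lit 11) (.e (nat_lit 426316) (nat_lit 12) (.e (nat_lit 475214) (nat_lit 42) (.e (nat_lit 720934) (nat_lit 21) .nil)))))) (.g (nat_lit 5) .nil .nil)))))) (.nd (nat_lit 4) (.nd (nat_lit 5) (.nd (nat_lit 6) 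
(.lf (nat_lit 183566) (.g (nat_lit 680) (.e (nat_lit 57851) (nat_lit 252) (.e (nat_lit 57417) (nat_lit 12) (.e (nat_lit 336209) (nat_lit 13) (.e (nat_lit 393270) (nat_lit 23) .nil)))) .nil)) 
(.lf (nat_lit 183630) (.g (nat_lit 2906) (.e (nat_lit 57851) (nat_lit 252) (.e (nat_lit 57424) (nat_lit 14) (.e (nat_lit 352277) (nat_lit 11) (.e (nat_lit 426190) (nat_lit 9) (.e (nat_lit 426446) (nat_lit 20) (.e (nat_lit 114710) (nat_lit 21) .nil)))))) (.g (nat_lit 5) .nil .nil)))) (.nd (nat_lit 6) 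
(.lf (nat_lit 183598) (.g (nat_lit 2867) (.e (nat_lit 57851) (nat_lit 252) (.e (nat_lit 57421) (nat_lit 13) (.e (nat_lit 344117) (nat_lit 21) (.e (nat_lit 516151) (nat_lit 9) (.e (nat_lit 426171) (nat_lit 7) (.e (nat_lit 409611) (nat_lit 10) (.e (nat_lit 604) (nat_lit 45) (.e (nat_lit 532504) (nat_lit 1) .nil)))))))) (.g (nat_lit 4) .nil .nil))) 
(.lf (nat_lit 183662) (.g (nat_lit 2678) (.e (nat_lit 57851) (nat_lit 252) (.e (nat_lit 57435) (nat_lit 17) (.e (nat_lit 376842) (nat_lit 11) (.e (nat_lit 426307) (nat_lit 12) (.e (nat_lit 475214) (nat_lit 42) (.e (nat_lit 720930) (nat_lit 21) .nil)))))) (.g (nat_lit 5) .nil .nil))))) (.nd (nat_lit 5) (.nd (nat_lit 6) 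
(.lf (nat_lit 183582) (.g (nat_lit 2757) (.e (nat_lit 57851) (nat_lit 252) (.e (nat_lit 57419) (nat_lit 12) (.e (nat_lit 336213) (nat_lit 13) (.e (nat_lit 393296) (nat_lit 26) (.e (nat_lit 475212) (nat_lit 42) (.e (nat_lit 720934) (nat_lit 21) .nil)))))) (.g (nat_lit 5) .nil .nil))) 
(.lf (nat_lit 183646) (.g (nat_lit 826) (.e (nat_lit 57851) (nat_lit 252) (.e (nat_lit 57427) (nat_lit 15) (.e (nat_lit 360481) (nat_lit 15) .nil))) .nil))) (.nd (nat_lit 6) 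
(.lf (nat_lit 183614) (.g (nat_lit 1092) (.e (nat_lit 57851) (nat_lit 252) (.e (nat_lit 57423) (nat_lit 14) (.e (nat_lit 352277) (nat_lit 11) (.e (nat_lit 426189) (nat_lit 9) .nil)))) .nil)) 
(.lf (nat_lit 183678) (.g (nat_lit 1555) (.e (nat_lit 57851) (nat_lit 252) (.e (nat_lit 57436) (nat_lit 17) (.e (nat_lit 376842) (nat_lit 11) (.e (nat_lit 426196) (nat_lit 9) .nil)))) .nil)))))))) (.nd (nat_lit 1) (.nd (nat_lit 2) (.nd (nat_lit 3) (.nd (nat_lit 4) (.nd (nat_lit 5) (.nd (nat_lit 6) 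
(.lf (nat_lit 183553) (.g (nat_lit 874) (.e (nat_lit 57851) (nat_lit 252) (.e (nat_lit 57412) (nat_lit 12) (.e (nat_lit 336219) (nat_lit 13) (.e (nat_lit 393292) (nat_lit 26) (.e (nat_lit 475212) (nat_lit 42) .nil))))) .nil)) 
(.lf (nat_lit 183617) (.g (nat_lit 2840) (.e (nat_lit 57851) (nat_lit 252) (.e (nat_lit 57423) (nat_lit 14) (.e (nat_lit 352277) (nat_lit 11) (.e (nat_lit 426308) (nat_lit 12) (.e (nat_lit 475212) (nat_lit 42) (.e (nat_lit 720934) (nat_lit 21) .nil)))))) (.g (nat_lit 0) .nil .nil)))) (.nd (nat_lit 6) 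
(.lf (nat_lit 183585) (.g (nat_lit 3740) (.e (nat_lit 57851) (nat_lit 252) (.e (nat_lit 57420) (nat_lit 13) (.e (nat_lit 344117) (nat_lit 21) (.e (nat_lit 516151) (nat_lit 9) (.e (nat_lit 426170) (nat_lit 7) (.e (nat_lit 409611) (nat_lit 10) (.e (nat_lit 604) (nat_lit 45) (.e (nat_lit 532501) (nat_lit 1) .nil)))))))) (.g (nat_lit 4) .nil .nil))) 
(.lf (nat_lit 183649) (.g (nat_lit 672) (.e (nat_lit 57851) (nat_lit 252) (.e (nat_lit 57427) (nat_lit 15) (.e (nat_lit 360484) (nat_lit 15) .nil))) .nil)))) (.nd (nat_lit 5) (.nd (nat_lit 6) 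
(.lf (nat_lit 183569) (.g (nat_lit 828) (.e (nat_lit 57851) (nat_lit 252) (.e (nat_lit 57419) (nat_lit 12) (.e (nat_lit 336213) (nat_lit 13) (.e (nat_lit 393273) (nat_lit 23) .nil)))) .nil)) 
(.lf (nat_lit 183633) (.g (nat_lit 2096) (.e (nat_lit 57851) (nat_lit 252) (.e (nat_lit 57424) (nat_lit 14) (.e (nat_lit 352277) (nat_lit 11) (.e (nat_lit 426307) (nat_lit 12) (.e (nat_lit 475214) (nat_lit 42) (.e (nat_lit 720930) (nat_lit 21) .nil)))))) (.g (nat_lit 4) .nil .nil)))) (.nd (nat_lit 6) 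
(.lf (nat_lit 183601) (.g (nat_lit 1794) (.e (nat_lit 57851) (nat_lit 252) (.e (nat_lit 57421) (nat_lit 13) (.e (nat_lit 344130) (nat_lit 26) (.e (nat_lit 557103) (nat_lit 14) (.e (nat_lit 188160) (nat_lit 0) .nil))))) .nil)) 
(.lf (nat_lit 183665) (.g (nat_lit 2900) (.e (nat_lit 57851) (nat_lit 252) (.e (nat_lit 57435) (nat_lit 17) (.e (nat_lit 376842) (nat_lit 11) (.e (nat_lit 426308) (nat_lit 12) (.e (nat_lit 475212) (nat_lit 42) (.e (nat_lit 720934) (nat_lit 21) .nil)))))) (.g (nat_lit 0) .nil .nil)))))) (.nd (nat_lit 4) (.nd (nat_lit 5) (.nd (nat_lit 6) 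
(.lf (nat_lit 183561) (.g (nat_lit 1850) (.e (nat_lit 57851) (nat_lit 252) (.e (nat_lit 57413) (nat_lit 12) (.e (nat_lit 336060) (nat_lit 7) (.e (nat_lit 319533) (nat_lit 16) (.e (nat_lit 286753) (nat_lit 10) (.e (nat_lit 344097) (nat_lit 18) (.e (nat_lit 5194) (nat_lit 294) (.e (nat_lit 57368) (nat_lit 1) .nil)))))))) (.g (nat_lit 4) .nil .nil))) 
(.lf (nat_lit 183625) (.g (nat_lit 2701) (.e (nat_lit 57851) (nat_lit 252) (.e (nat_lit 57424) (nat_lit 14) (.e (nat_lit 352273) (nat_lit 11) (.e (nat_lit 426308) (nat_lit 12) (.e (nat_lit 475212) (nat_lit 42) (.e (nat_lit 720934) (nat_lit 21) .nil)))))) (.g (nat_lit 5) .nil .nil)))) (.nd (nat_lit 6) 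
(.lf (nat_lit 183593) (.g (nat_lit 3683) (.e (nat_lit 57851) (nat_lit 252) (.e (nat_lit 57421) (nat_lit 13) (.e (nat_lit 344117) (nat_lit 21) (.e (nat_lit 516151) (nat_lit 9) (.e (nat_lit 426170) (nat_lit 7) (.e (nat_lit 409611) (nat_lit 10) (.e (nat_lit 604) (nat_lit 45) (.e (nat_lit 532504) (nat_lit 1) .nil)))))))) (.g (nat_lit 4) .nil .nil))) 
(.lf (nat_lit 183657) (.g (nat_lit 1604) (.e (nat_lit 57851) (nat_lit 252) (.e (nat_lit 57435) (nat_lit 17) (.e (nat_lit 376842) (nat_lit 11) (.e (nat_lit 426258) (nat_lit 9) .nil)))) .nil)))) (.nd (nat_lit 5) (.nd (nat_lit 6) 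
(.lf (nat_lit 183577) (.g (nat_lit 2337) (.e (nat_lit 57851) (nat_lit 252) (.e (nat_lit 57419) (nat_lit 12) (.e (nat_lit 336213) (nat_lit 13) (.e (nat_lit 393293) (nat_lit 26) (.e (nat_lit 475212) (nat_lit 42) (.e (nat_lit 720931) (nat_lit 21) .nil)))))) (.g (nat_lit 5) .nil .nil))) 
(.lf (nat_lit 183641) (.g (nat_lit 1931) (.e (nat_lit 57851) (nat_lit 252) (.e (nat_lit 57427) (nat_lit 15) (.e (nat_lit 360451) (nat_lit 0) (.e (nat_lit 6923) (nat_lit 371) .nil)))) .nil))) (.nd (nat_lit 6) 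
(.lf (nat_lit 183609) (.g (nat_lit 2207) (.e (nat_lit 57851) (nat_lit 252) (.e (nat_lit 57421) (nat_lit 13) (.e (nat_lit 344133) (nat_lit 26) (.e (nat_lit 557103) (nat_lit 14) (.e (nat_lit 188160) (nat_lit 0) .nil))))) .nil)) 
(.lf (nat_lit 183673) (.g (nat_lit 544) (.e (nat_lit 57851) (nat_lit 252) (.e (nat_lit 57436) (nat_lit 17) (.e (nat_lit 376841) (nat_lit 11) .nil))) .nil)))))) (.nd (nat_lit 3) (.nd (nat_lit 4) (.nd (nat_lit 5) (.nd (nat_lit 6) 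
(.lf (nat_lit 183557) (.g (nat_lit 1608) (.e (nat_lit 57851) (nat_lit 252) (.e (nat_lit 57412) (nat_lit 12) (.e (nat_lit 336389) (nat_lit 27) (.e (nat_lit 426521) (nat_lit 27) (.e (nat_lit 336086) (nat_lit 9) .nil))))) .nil)) 
(.lf (nat_lit 183621) (.g (nat_lit 2644) (.e (nat_lit 57851) (nat_lit 252) (.e (nat_lit 57424) (nat_lit 14) (.e (nat_lit 352273) (nat_lit 11) (.e (nat_lit 426307) (nat_lit 12) (.e (nat_lit 475212) (nat_lit 42) (.e (nat_lit 720931) (nat_lit 21) .nil)))))) (.g (nat_lit 6) .nil .nil)))) (.nd (nat_lit 6) 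
(.lf (nat_lit 183589) (.g (nat_lit 3762) (.e (nat_lit 57851) (nat_lit 252) (.e (nat_lit 57420) (nat_lit 13) (.e (nat_lit 344117) (nat_lit 21) (.e (nat_lit 516151) (nat_lit 9) (.e (nat_lit 426170) (nat_lit 7) (.e (nat_lit 409616) (nat_lit 10) (.e (nat_lit 604) (nat_lit 45) (.e (nat_lit 532504) (nat_lit 1) .nil)))))))) (.g (nat_lit 4) .nil .nil))) 
(.lf (nat_lit 183653) (.g (nat_lit 2498) (.e (nat_lit 57851) (nat_lit 252) (.e (nat_lit 57435) (nat_lit 17) (.e (nat_lit 376842) (nat_lit 11) (.e (nat_lit 426188) (nat_lit 9) (.e (nat_lit 426350) (nat_lit 15) .nil))))) .nil)))) (.nd (nat_lit 5) (.nd (nat_lit 6) 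
(.lf (nat_lit 183573) (.g (nat_lit 1490) (.e (nat_lit 57851) (nat_lit 252) (.e (nat_lit 57419) (nat_lit 12) (.e (nat_lit 336213) (nat_lit 13) (.e (nat_lit 393290) (nat_lit 26) .nil)))) .nil)) 
(.lf (nat_lit 183637) (.g (nat_lit 2621) (.e (nat_lit 57851) (nat_lit 252) (.e (nat_lit 57424) (nat_lit 14) (.e (nat_lit 352278) (nat_lit 11) (.e (nat_lit 426307) (nat_lit 12) (.e (nat_lit 475214) (nat_lit 42) (.e (nat_lit 720930) (nat_lit 21) .nil)))))) (.g (nat_lit 5) .nil .nil)))) (.nd (nat_lit 6) 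
(.lf (nat_lit 183605) (.g (nat_lit 1909) (.e (nat_lit 57851) (nat_lit 252) (.e (nat_lit 57421) (nat_lit 13) (.e (nat_lit 344132) (nat_lit 26) (.e (nat_lit 557100) (nat_lit 13) (.e (nat_lit 172061) (nat_lit 1) .nil))))) .nil)) 
(.lf (nat_lit 183669) (.g (nat_lit 2214) (.e (nat_lit 57851) (nat_lit 252) (.e (nat_lit 57435) (nat_lit 17) (.e (nat_lit 376842) (nat_lit 11) (.e (nat_lit 426316) (nat_lit 12) (.e (nat_lit 475213) (nat_lit 42) .nil))))) .nil))))) (.nd (nat_lit 4) (.nd (nat_lit 5) (.nd (nat_lit 6) 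
(.lf (nat_lit 183565) (.g (nat_lit 2455) (.e (nat_lit 57851) (nat_lit 252) (.e (nat_lit 57413) (nat_lit 12) (.e (nat_lit 336060) (nat_lit 7) (.e (nat_lit 319534) (nat_lit 16) (.e (nat_lit 286756) (nat_lit 10) (.e (nat_lit 344097) (nat_lit 18) (.e (nat_lit 5195) (nat_lit 294) (.e (nat_lit 57368) (nat_lit 1) .nil)))))))) (.g (nat_lit 5) .nil .nil))) 
(.lf (nat_lit 183629) (.g (nat_lit 468) (.e (nat_lit 57851) (nat_lit 252) (.e (nat_lit 57424) (nat_lit 14) (.e (nat_lit 352277) (nat_lit 11) .nil))) .nil))) (.nd (nat_lit 6) 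
(.lf (nat_lit 183597) (.g (nat_lit 3842) (.e (nat_lit 57851) (nat_lit 252) (.e (nat_lit 57421) (nat_lit 13) (.e (nat_lit 344117) (nat_lit 21) (.e (nat_lit 516151) (nat_lit 9) (.e (nat_lit 426170) (nat_lit 7) (.e (nat_lit 409616) (nat_lit 10) (.e (nat_lit 604) (nat_lit 45) (.e (nat_lit 532504) (nat_lit 1) .nil)))))))) (.g (nat_lit 4) .nil .nil))) 
(.lf (nat_lit 183661) (.g (nat_lit 2632) (.e (nat_lit 57851) (nat_lit 252) (.e (nat_lit 57435) (nat_lit 17) (.e (nat_lit 376842) (nat_lit 11) (.e (nat_lit 426307) (nat_lit 12) (.e (nat_lit 475212) (nat_lit 42) (.e (nat_lit 720934) (nat_lit 21) .nil)))))) (.g (nat_lit 5) .nil .nil))))) (.nd (nat_lit 5) (.nd (nat_lit 6) 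
(.lf (nat_lit 183581) (.g (nat_lit 2744) (.e (nat_lit 57851) (nat_lit 252) (.e (nat_lit 57419) (nat_lit 12) (.e (nat_lit 336213) (nat_lit 13) (.e (nat_lit 393296) (nat_lit 26) (.e (nat_lit 475212) (nat_lit 42) (.e (nat_lit 720931) (nat_lit 21) .nil)))))) (.g (nat_lit 5) .nil .nil))) 
(.lf (nat_lit 183645) (.g (nat_lit 3553) (.e (nat_lit 57851) (nat_lit 252) (.e (nat_lit 57427) (nat_lit 15) (.e (nat_lit 360478) (nat_lit 12) (.e (nat_lit 622616) (nat_lit 9) (.e (nat_lit 65565) (nat_lit 1) (.e (nat_lit 57849) (nat_lit 252) (.e (nat_lit 57365) (nat_lit 1) .nil))))))) (.g (nat_lit 0) .nil .nil)))) (.nd (nat_lit 6) 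
(.lf (nat_lit 183613) (.g (nat_lit 1070) (.e (nat_lit 57851) (nat_lit 252) (.e (nat_lit 57423) (nat_lit 14) (.e (nat_lit 352275) (nat_lit 11) (.e (nat_lit 426308) (nat_lit 12) .nil)))) .nil)) 
(.lf (nat_lit 183677) (.g (nat_lit 3265) (.e (nat_lit 57851) (nat_lit 252) (.e (nat_lit 57436) (nat_lit 17) (.e (nat_lit 376842) (nat_lit 11) (.e (nat_lit 426189) (nat_lit 9) (.e (nat_lit 426448) (nat_lit 20) (.e (nat_lit 114710) (nat_lit 21) .nil)))))) (.g (nat_lit 6) .nil .nil)))))))) (.nd (nat_lit 2) (.nd (nat_lit 3) (.nd (nat_lit 4) (.nd (nat_lit 5) (.nd (nat_lit 6) 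
(.lf (nat_lit 183555) (.g (nat_lit 1469) (.e (nat_lit 57851) (nat_lit 252) (.e (nat_lit 57412) (nat_lit 12) (.e (nat_lit 336219) (nat_lit 13) (.e (nat_lit 393294) (nat_lit 26) (.e (nat_lit 475214) (nat_lit 42) .nil))))) .nil)) 
(.lf (nat_lit 183619) (.g (nat_lit 545) (.e (nat_lit 57851) (nat_lit 252) (.e (nat_lit 57424) (nat_lit 14) (.e (nat_lit 352273) (nat_lit 11) .nil))) .nil))) (.nd (nat_lit 6) 
(.lf (nat_lit 183587) (.g (nat_lit 3786) (.e (nat_lit 57851) (nat_lit 252) (.e (nat_lit 57420) (nat_lit 13) (.e (nat_lit 344117) (nat_lit 21) (.e (nat_lit 516151) (nat_lit 9) (.e (nat_lit 426170) (nat_lit 7) (.e (nat_lit 409612) (nat_lit 10) (.e (nat_lit 604) (nat_lit 45) (.e (nat_lit 532504) (nat_lit 1) .nil)))))))) (.g (nat_lit 4) .nil .nil))) 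
(.lf (nat_lit 183651) (.g (nat_lit 799) (.e (nat_lit 57851) (nat_lit 252) (.e (nat_lit 57427) (nat_lit 15) (.e (nat_lit 360487) (nat_lit 19) .nil))) .nil)))) (.nd (nat_lit 5) (.nd (nat_lit 6) 
(.lf (nat_lit 183571) (.g (nat_lit 1441) (.e (nat_lit 57851) (nat_lit 252) (.e (nat_lit 57419) (nat_lit 12) (.e (nat_lit 336213) (nat_lit 13) (.e (nat_lit 393273) (nat_lit 23) (.e (nat_lit 426364) (nat_lit 15) (.e (nat_lit 2201) (nat_lit 144) (.e (nat_lit 720934) (nat_lit 21) .nil))))))) (.g (nat_lit 4) .nil .nil))) 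
(.lf (nat_lit 183635) (.g (nat_lit 3172) (.e (nat_lit 57851) (nat_lit 252) (.e (nat_lit 57424) (nat_lit 14) (.e (nat_lit 352277) (nat_lit 11) (.e (nat_lit 426308) (nat_lit 12) (.e (nat_lit 475214) (nat_lit 42) (.e (nat_lit 720930) (nat_lit 21) .nil)))))) (.g (nat_lit 6) .nil .nil)))) (.nd (nat_lit 6) 
(.lf (nat_lit 183603) (.g (nat_lit 1647) (.e (nat_lit 57851) (nat_lit 252) (.e (nat_lit 57421) (nat_lit 13) (.e (nat_lit 344130) (nat_lit 26) (.e (nat_lit 557104) (nat_lit 14) (.e (nat_lit 188160) (nat_lit 0) .nil))))) .nil)) 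
(.lf (nat_lit 183667) (.g (nat_lit 2753) (.e (nat_lit 57851) (nat_lit 252) (.e (nat_lit 57435) (nat_lit 17) (.e (nat_lit 376842) (nat_lit 11) (.e (nat_lit 426315) (nat_lit 12) (.e (nat_lit 475212) (nat_lit 42) (.e (nat_lit 720934) (nat_lit 21) .nil)))))) (.g (nat_lit 5) .nil .nil)))))) (.nd (nat_lit 4) (.nd (nat_lit 5) (.nd (nat_lit 6) 
(.lf (nat_lit 183563) (.g (nat_lit 2356) (.e (nat_lit 57851) (nat_lit 252) (.e (nat_lit 57413) (nat_lit 12) (.e (nat_lit 336060) (nat_lit 7) (.e (nat_lit 319534) (nat_lit 16) (.e (nat_lit 286749) (nat_lit 9) (.e (nat_lit 335997) (nat_lit 1) (.e (nat_lit 57848) (nat_lit 252) (.e (nat_lit 57368) (nat_lit 1) .nil)))))))) (.g (nat_lit 5) .nil .nil))) 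
(.lf (nat_lit 183627) (.g (nat_lit 1988) (.e (nat_lit 57851) (nat_lit 252) (.e (nat_lit 57424) (nat_lit 14) (.e (nat_lit 352273) (nat_lit 11) (.e (nat_lit 426316) (nat_lit 12) (.e (nat_lit 475212) (nat_lit 42) .nil))))) .nil))) (.nd (nat_lit 6) 
(.lf (nat_lit 183595) (.g (nat_lit 3866) (.e (nat_lit 57851) (nat_lit 252) (.e (nat_lit 57421) (nat_lit 13) (.e (nat_lit 344117) (nat_lit 21) (.e (nat_lit 516151) (nat_lit 9) (.e (nat_lit 426170) (nat_lit 7) (.e (nat_lit 409612) (nat_lit 10) (.e (nat_lit 604) (nat_lit 45) (.e (nat_lit 532504) (nat_lit 1) .nil)))))))) (.g (nat_lit 4) .nil .nil))) 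
(.lf (nat_lit 183659) (.g (nat_lit 2491) (.e (nat_lit 57851) (nat_lit 252) (.e (nat_lit 57435) (nat_lit 17) (.e (nat_lit 376842) (nat_lit 11) (.e (nat_lit 426306) (nat_lit 12) (.e (nat_lit 475213) (nat_lit 42) (.e (nat_lit 720931) (nat_lit 21) .nil)))))) (.g (nat_lit 4) .nil .nil))))) (.nd (nat_lit 5) (.nd (nat_lit 6) 
(.lf (nat_lit 183579) (.g (nat_lit 2357) (.e (nat_lit 57851) (nat_lit 252) (.e (nat_lit 57419) (nat_lit 12) (.e (nat_lit 336213) (nat_lit 13) (.e (nat_lit 393293) (nat_lit 26) (.e (nat_lit 475214) (nat_lit 42) (.e (nat_lit 720930) (nat_lit 21) .nil)))))) (.g (nat_lit 5) .nil .nil))) 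
(.lf (nat_lit 183643) (.g (nat_lit 796) (.e (nat_lit 57851) (nat_lit 252) (.e (nat_lit 57427) (nat_lit 15) (.e (nat_lit 360478) (nat_lit 12) .nil))) .nil))) (.nd (nat_lit 6) 
(.lf (nat_lit 183611) (.g (nat_lit 609) (.e (nat_lit 57851) (nat_lit 252) (.e (nat_lit 57423) (nat_lit 14) (.e (nat_lit 352271) (nat_lit 9) .nil))) .nil)) 
(.lf (nat_lit 183675) (.g (nat_lit 2219) (.e (nat_lit 57851) (nat_lit 252) (.e (nat_lit 57436) (nat_lit 17) (.e (nat_lit 376842) (nat_lit 11) (.e (nat_lit 426188) (nat_lit 9) (.e (nat_lit 426350) (nat_lit 15) .nil))))) .nil)))))) (.nd (nat_lit 3) (.nd (nat_lit 4) (.nd (nat_lit 5) (.nd (nat_lit 6) 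
(.lf (nat_lit 183559) (.g (nat_lit 1342) (.e (nat_lit 57851) (nat_lit 252) (.e (nat_lit 57412) (nat_lit 12) (.e (nat_lit 336389) (nat_lit 27) (.e (nat_lit 426523) (nat_lit 27) .nil)))) .nil)) 
(.lf (nat_lit 183623) (.g (nat_lit 2630) (.e (nat_lit 57851) (nat_lit 252) (.e (nat_lit 57424) (nat_lit 14) (.e (nat_lit 352273) (nat_lit 11) (.e (nat_lit 426307) (nat_lit 12) (.e (nat_lit 475214) (nat_lit 42) (.e (nat_lit 720930) (nat_lit 21) .nil)))))) (.g (nat_lit 6) .nil .nil)))) (.nd (nat_lit 6) 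
(.lf (nat_lit 183591) (.g (nat_lit 1896) (.e (nat_lit 57851) (nat_lit 252) (.e (nat_lit 57421) (nat_lit 13) (.e (nat_lit 344117) (nat_lit 21) (.e (nat_lit 516130) (nat_lit 3) (.e (nat_lit 229120) (nat_lit 1) (.e (nat_lit 57849) (nat_lit 252) (.e (nat_lit 57390) (nat_lit 5) (.e (nat_lit 114712) (nat_lit 21) .nil)))))))) (.g (nat_lit 4) .nil .nil))) 
(.lf (nat_lit 183655) (.g (nat_lit 1781) (.e (nat_lit 57851) (nat_lit 252) (.e (nat_lit 57435) (nat_lit 17) (.e (nat_lit 376842) (nat_lit 11) (.e (nat_lit 426196) (nat_lit 9) (.e (nat_lit 426446) (nat_lit 20) .nil))))) .nil)))) (.nd (nat_lit 5) (.nd (nat_lit 6) 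
(.lf (nat_lit 183575) (.g (nat_lit 1954) (.e (nat_lit 57851) (nat_lit 252) (.e (nat_lit 57419) (nat_lit 12) (.e (nat_lit 336213) (nat_lit 13) (.e (nat_lit 393292) (nat_lit 26) (.e (nat_lit 475212) (nat_lit 42) (.e (nat_lit 720934) (nat_lit 21) .nil)))))) (.g (nat_lit 5) .nil .nil))) 
(.lf (nat_lit 183639) (.g (nat_lit 2132) (.e (nat_lit 57851) (nat_lit 252) (.e (nat_lit 57427) (nat_lit 15) (.e (nat_lit 360450) (nat_lit 0) (.e (nat_lit 6923) (nat_lit 371) .nil)))) .nil))) (.nd (nat_lit 6) 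
(.lf (nat_lit 183607) (.g (nat_lit 2596) (.e (nat_lit 57851) (nat_lit 252) (.e (nat_lit 57421) (nat_lit 13) (.e (nat_lit 344133) (nat_lit 26) (.e (nat_lit 557098) (nat_lit 13) (.e (nat_lit 172061) (nat_lit 1) .nil))))) .nil)) 
(.lf (nat_lit 183671) (.g (nat_lit 464) (.e (nat_lit 57851) (nat_lit 252) (.e (nat_lit 57436) (nat_lit 17) (.e (nat_lit 376838) (nat_lit 11) .nil))) .nil))))) (.nd (nat_lit 4) (.nd (nat_lit 5) (.nd (nat_lit 6) 
(.lf (nat_lit 183567) (.g (nat_lit 941) (.e (nat_lit 57851) (nat_lit 252) (.e (nat_lit 57418) (nat_lit 12) (.e (nat_lit 336213) (nat_lit 13) (.e (nat_lit 393296) (nat_lit 26) .nil)))) .nil)) 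
(.lf (nat_lit 183631) (.g (nat_lit 2111) (.e (nat_lit 57851) (nat_lit 252) (.e (nat_lit 57424) (nat_lit 14) (.e (nat_lit 352277) (nat_lit 11) (.e (nat_lit 426307) (nat_lit 12) (.e (nat_lit 475212) (nat_lit 42) (.e (nat_lit 720931) (nat_lit 21) .nil)))))) (.g (nat_lit 4) .nil .nil)))) (.nd (nat_lit 6) 
(.lf (nat_lit 183599) (.g (nat_lit 1985) (.e (nat_lit 57851) (nat_lit 252) (.e (nat_lit 57421) (nat_lit 13) (.e (nat_lit 344129) (nat_lit 26) (.e (nat_lit 557097) (nat_lit 13) (.e (nat_lit 172061) (nat_lit 1) .nil))))) .nil)) 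
(.lf (nat_lit 183663) (.g (nat_lit 2728) (.e (nat_lit 57851) (nat_lit 252) (.e (nat_lit 57435) (nat_lit 17) (.e (nat_lit 376842) (nat_lit 11) (.e (nat_lit 426308) (nat_lit 12) (.e (nat_lit 475212) (nat_lit 42) (.e (nat_lit 720930) (nat_lit 21) .nil)))))) (.g (nat_lit 5) .nil .nil))))) (.nd (nat_lit 5) (.nd (nat_lit 6) 
(.lf (nat_lit 183583) (.g (nat_lit 3681) (.e (nat_lit 57851) (nat_lit 252) (.e (nat_lit 57420) (nat_lit 13) (.e (nat_lit 344117) (nat_lit 21) (.e (nat_lit 516151) (nat_lit 9) (.e (nat_lit 426166) (nat_lit 7) (.e (nat_lit 409617) (nat_lit 10) (.e (nat_lit 604) (nat_lit 45) (.e (nat_lit 532501) (nat_lit 1) .nil)))))))) (.g (nat_lit 4) .nil .nil))) 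
(.lf (nat_lit 183647) (.g (nat_lit 743) (.e (nat_lit 57851) (nat_lit 252) (.e (nat_lit 57427) (nat_lit 15) (.e (nat_lit 360483) (nat_lit 15) .nil))) .nil))) (.nd (nat_lit 6) 
(.lf (nat_lit 183615) (.g (nat_lit 2657) (.e (nat_lit 57851) (nat_lit 252) (.e (nat_lit 57423) (nat_lit 14) (.e (nat_lit 352277) (nat_lit 11) (.e (nat_lit 426308) (nat_lit 12) (.e (nat_lit 475212) (nat_lit 42) (.e (nat_lit 720930) (nat_lit 21) .nil)))))) (.g (nat_lit 5) .nil .nil))) 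
(.lf (nat_lit 183679) (.g (nat_lit 1505) (.e (nat_lit 57851) (nat_lit 252) (.e (nat_lit 57436) (nat_lit 17) (.e (nat_lit 376842) (nat_lit 11) (.e (nat_lit 426258) (nat_lit 9) .nil)))) .nil)))))))))

noncomputable def tv2450 : DT := (.nd (nat_lit 0) (.nd (nat_lit 1) (.nd (nat_lit 2) (.nd (nat_lit 3) (.nd (nat_lit 4) (.nd (nat_lit 5) (.nd (nat_lit 6) 
(.lf (nat_lit 183680) (.g (nat_lit 2477) (.e (nat_lit 57851) (nat_lit 252) (.e (nat_lit 57436) (nat_lit 17) (.e (nat_lit 376842) (nat_lit 11) (.e (nat_lit 426306) (nat_lit 12) (.e (nat_lit 475212) (nat_lit 42) (.e (nat_lit 720930) (nat_lit 21) .nil)))))) (.g (nat_lit 5) .nil .nil))) 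
(.lf (nat_lit 183744) (.g (nat_lit 1334) (.e (nat_lit 57851) (nat_lit 252) (.e (nat_lit 57446) (nat_lit 19) (.e (nat_lit 393229) (nat_lit 9) (.e (nat_lit 336088) (nat_lit 9) (.e (nat_lit 336257) (nat_lit 15) .nil))))) .nil))) (.nd (nat_lit 6) 
(.lf (nat_lit 183712) (.g (nat_lit 3328) (.e (nat_lit 57851) (nat_lit 252) (.e (nat_lit 57445) (nat_lit 19) (.e (nat_lit 393229) (nat_lit 9) (.e (nat_lit 335914) (nat_lit 0) .nil)))) .nil)) 
(.lf (nat_lit 183776) (.g (nat_lit 2271) (.e (nat_lit 57852) (nat_lit 252) (.e (nat_lit 57371) (nat_lit 2) (.e (nat_lit 90160) (nat_lit 11) (.e (nat_lit 24625) (nat_lit 9) (.e (nat_lit 336456) (nat_lit 34) .nil))))) .nil)))) (.nd (nat_lit 5) (.nd (nat_lit 6) 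
(.lf (nat_lit 183696) (.g (nat_lit 341) (.e (nat_lit 57851) (nat_lit 252) (.e (nat_lit 57445) (nat_lit 19) (.e (nat_lit 393225) (nat_lit 9) .nil))) .nil)) 
(.lf (nat_lit 183760) (.g (nat_lit 529) (.e (nat_lit 57852) (nat_lit 252) (.e (nat_lit 57371) (nat_lit 2) (.e (nat_lit 90128) (nat_lit 9) .nil))) .nil))) (.nd (nat_lit 6) 
(.lf (nat_lit 183728) (.g (nat_lit 2565) (.e (nat_lit 57851) (nat_lit 252) (.e (nat_lit 57445) (nat_lit 19) (.e (nat_lit 393229) (nat_lit 9) (.e (nat_lit 336193) (nat_lit 12) .nil)))) .nil)) 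
(.lf (nat_lit 183792) (.g (nat_lit 1792) (.e (nat_lit 57852) (nat_lit 252) (.e (nat_lit 57373) (nat_lit 2) (.e (nat_lit 90134) (nat_lit 9) (.e (nat_lit 290) (nat_lit 21) (.e (nat_lit 336077) (nat_lit 9) .nil))))) .nil))))) (.nd (nat_lit 4) (.nd (nat_lit 5) (.nd (nat_lit 6) 
(.lf (nat_lit 183688) (.g (nat_lit 2295) (.e (nat_lit 57851) (nat_lit 252) (.e (nat_lit 57436) (nat_lit 17) (.e (nat_lit 376842) (nat_lit 11) (.e (nat_lit 426315) (nat_lit 12) (.e (nat_lit 475213) (nat_lit 42) (.e (nat_lit 720931) (nat_lit 21) .nil)))))) (.g (nat_lit 4) .nil .nil))) 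
(.lf (nat_lit 183752) (.g (nat_lit 1373) (.e (nat_lit 57851) (nat_lit 252) (.e (nat_lit 57446) (nat_lit 19) (.e (nat_lit 393229) (nat_lit 9) (.e (nat_lit 343808) (nat_lit 12) .nil)))) .nil))) (.nd (nat_lit 6) 
(.lf (nat_lit 183720) (.g (nat_lit 1921) (.e (nat_lit 57851) (nat_lit 252) (.e (nat_lit 57445) (nat_lit 19) (.e (nat_lit 393229) (nat_lit 9) (.e (nat_lit 336087) (nat_lit 9) .nil)))) .nil)) 
(.lf (nat_lit 183784) (.g (nat_lit 2233) (.e (nat_lit 57852) (nat_lit 252) (.e (nat_lit 57371) (nat_lit 2) (.e (nat_lit 90160) (nat_lit 11) (.e (nat_lit 24659) (nat_lit 13) (.e (nat_lit 393225) (nat_lit 9) .nil))))) .nil)))) (.nd (nat_lit 5) (.nd (nat_lit 6) 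
(.lf (nat_lit 183704) (.g (nat_lit 1983) (.e (nat_lit 57851) (nat_lit 252) (.e (nat_lit 57445) (nat_lit 19) (.e (nat_lit 393225) (nat_lit 9) (.e (nat_lit 336204) (nat_lit 12) (.e (nat_lit 385066) (nat_lit 26) .nil))))) .nil)) 
(.lf (nat_lit 183768) (.g (nat_lit 1833) (.e (nat_lit 57852) (nat_lit 252) (.e (nat_lit 57371) (nat_lit 2) (.e (nat_lit 90158) (nat_lit 11) (.e (nat_lit 24628) (nat_lit 9) (.e (nat_lit 336370) (nat_lit 27) .nil))))) .nil))) (.nd (nat_lit 6) 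
(.lf (nat_lit 183736) (.g (nat_lit 1381) (.e (nat_lit 57851) (nat_lit 252) (.e (nat_lit 57445) (nat_lit 19) (.e (nat_lit 393229) (nat_lit 9) (.e (nat_lit 336202) (nat_lit 12) .nil)))) .nil)) 
(.lf (nat_lit 183800) (.g (nat_lit 1293) (.e (nat_lit 57852) (nat_lit 252) (.e (nat_lit 57373) (nat_lit 2) (.e (nat_lit 90158) (nat_lit 11) (.e (nat_lit 24654) (nat_lit 13) .nil)))) .nil)))))) (.nd (nat_lit 3) (.nd (nat_lit 4) (.nd (nat_lit 5) (.nd (nat_lit 6) 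
(.lf (nat_lit 183684) (.g (nat_lit 2537) (.e (nat_lit 57851) (nat_lit 252) (.e (nat_lit 57436) (nat_lit 17) (.e (nat_lit 376842) (nat_lit 11) (.e (nat_lit 426307) (nat_lit 12) (.e (nat_lit 475214) (nat_lit 42) (.e (nat_lit 720930) (nat_lit 21) .nil)))))) (.g (nat_lit 5) .nil .nil))) 
(.lf (nat_lit 183748) (.g (nat_lit 2701) (.e (nat_lit 57851) (nat_lit 252) (.e (nat_lit 57446) (nat_lit 19) (.e (nat_lit 393229) (nat_lit 9) (.e (nat_lit 336196) (nat_lit 12) (.e (nat_lit 385064) (nat_lit 26) .nil))))) .nil))) (.nd (nat_lit 6) 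
(.lf (nat_lit 183716) (.g (nat_lit 1908) (.e (nat_lit 57851) (nat_lit 252) (.e (nat_lit 57445) (nat_lit 19) (.e (nat_lit 393229) (nat_lit 9) (.e (nat_lit 336077) (nat_lit 9) .nil)))) .nil)) 
(.lf (nat_lit 183780) (.g (nat_lit 1602) (.e (nat_lit 57852) (nat_lit 252) (.e (nat_lit 57371) (nat_lit 2) (.e (nat_lit 90160) (nat_lit 11) (.e (nat_lit 24638) (nat_lit 9) .nil)))) .nil)))) (.nd (nat_lit 5) (.nd (nat_lit 6) 
(.lf (nat_lit 183700) (.g (nat_lit 2109) (.e (nat_lit 57851) (nat_lit 252) (.e (nat_lit 57445) (nat_lit 19) (.e (nat_lit 393225) (nat_lit 9) (.e (nat_lit 336088) (nat_lit 9) (.e (nat_lit 336326) (nat_lit 18) .nil))))) .nil)) 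
(.lf (nat_lit 183764) (.g (nat_lit 606) (.e (nat_lit 57852) (nat_lit 252) (.e (nat_lit 57371) (nat_lit 2) (.e (nat_lit 90156) (nat_lit 11) .nil))) .nil))) (.nd (nat_lit 6) 
(.lf (nat_lit 183732) (.g (nat_lit 2149) (.e (nat_lit 57851) (nat_lit 252) (.e (nat_lit 57445) (nat_lit 19) (.e (nat_lit 393229) (nat_lit 9) (.e (nat_lit 336195) (nat_lit 12) .nil)))) .nil)) 
(.lf (nat_lit 183796) (.g (nat_lit 2964) (.e (nat_lit 57852) (nat_lit 252) (.e (nat_lit 57373) (nat_lit 2) (.e (nat_lit 90158) (nat_lit 11) (.e (nat_lit 24608) (nat_lit 3) (.e (nat_lit 98340) (nat_lit 20) .nil))))) .nil))))) (.nd (nat_lit 4) (.nd (nat_lit 5) (.nd (nat_lit 6) 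
(.lf (nat_lit 183692) (.g (nat_lit 3065) (.e (nat_lit 57851) (nat_lit 252) (.e (nat_lit 57445) (nat_lit 19) (.e (nat_lit 393221) (nat_lit 0) (.e (nat_lit 6489) (nat_lit 343) (.e (nat_lit 1638) (nat_lit 114) (.e (nat_lit 385067) (nat_lit 26) (.e (nat_lit 532501) (nat_lit 1) .nil))))))) (.g (nat_lit 5) .nil .nil))) 
(.lf (nat_lit 183756) (.g (nat_lit 3765) (.e (nat_lit 57852) (nat_lit 252) (.e (nat_lit 57355) (nat_lit 0) (.e (nat_lit 1858) (nat_lit 124) (.e (nat_lit 557105) (nat_lit 14) (.e (nat_lit 180252) (nat_lit 10) (.e (nat_lit 573480) (nat_lit 13) (.e (nat_lit 73472) (nat_lit 18) (.e (nat_lit 204830) (nat_lit 18) .nil)))))))) (.g (nat_lit 5) .nil .nil)))) (.nd (nat_lit 6) 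
(.lf (nat_lit 183724) (.g (nat_lit 4094) (.e (nat_lit 57851) (nat_lit 252) (.e (nat_lit 57445) (nat_lit 19) (.e (nat_lit 393229) (nat_lit 9) (.e (nat_lit 336100) (nat_lit 9) (.e (nat_lit 336282) (nat_lit 15) .nil))))) .nil)) 
(.lf (nat_lit 183788) (.g (nat_lit 664) (.e (nat_lit 57852) (nat_lit 252) (.e (nat_lit 57373) (nat_lit 2) (.e (nat_lit 90128) (nat_lit 9) .nil))) .nil)))) (.nd (nat_lit 5) (.nd (nat_lit 6) 
(.lf (nat_lit 183708) (.g (nat_lit 656) (.e (nat_lit 57851) (nat_lit 252) (.e (nat_lit 57445) (nat_lit 19) (.e (nat_lit 393227) (nat_lit 9) (.e (nat_lit 336206) (nat_lit 12) (.e (nat_lit 385067) (nat_lit 26) .nil))))) .nil)) 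
(.lf (nat_lit 183772) (.g (nat_lit 3127) (.e (nat_lit 57852) (nat_lit 252) (.e (nat_lit 57371) (nat_lit 2) (.e (nat_lit 90160) (nat_lit 11) (.e (nat_lit 24607) (nat_lit 3) (.e (nat_lit 98342) (nat_lit 20) .nil))))) .nil))) (.nd (nat_lit 6) 
(.lf (nat_lit 183740) (.g (nat_lit 1333) (.e (nat_lit 57851) (nat_lit 252) (.e (nat_lit 57446) (nat_lit 19) (.e (nat_lit 393229) (nat_lit 9) (.e (nat_lit 336085) (nat_lit 9) .nil)))) .nil)) 
(.lf (nat_lit 183804) (.g (nat_lit 494) (.e (nat_lit 57852) (nat_lit 252) (.e (nat_lit 57373) (nat_lit 2) (.e (nat_lit 90160) (nat_lit 11) .nil))) .nil))))))) (.nd (nat_lit 2) (.nd (nat_lit 3) (.nd (nat_lit 4) (.nd (nat_lit 5) (.nd (nat_lit 6) 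
(.lf (nat_lit 183682) (.g (nat_lit 2745) (.e (nat_lit 57851) (nat_lit 252) (.e (nat_lit 57436) (nat_lit 17) (.e (nat_lit 376842) (nat_lit 11) (.e (nat_lit 426306) (nat_lit 12) (.e (nat_lit 475214) (nat_lit 42) (.e (nat_lit 720930) (nat_lit 21) .nil)))))) (.g (nat_lit 6) .nil .nil))) 
(.lf (nat_lit 183746) (.g (nat_lit 1338) (.e (nat_lit 57851) (nat_lit 252) (.e (nat_lit 57446) (nat_lit 19) (.e (nat_lit 393229) (nat_lit 9) (.e (nat_lit 336088) (nat_lit 9) (.e (nat_lit 336261) (nat_lit 15) .nil))))) .nil))) (.nd (nat_lit 6) 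
(.lf (nat_lit 183714) (.g (nat_lit 2882) (.e (nat_lit 57851) (nat_lit 252) (.e (nat_lit 57445) (nat_lit 19) (.e (nat_lit 393229) (nat_lit 9) (.e (nat_lit 336074) (nat_lit 9) .nil)))) .nil)) 
(.lf (nat_lit 183778) (.g (nat_lit 1693) (.e (nat_lit 57852) (nat_lit 252) (.e (nat_lit 57371) (nat_lit 2) (.e (nat_lit 90160) (nat_lit 11) (.e (nat_lit 24636) (nat_lit 9) (.e (nat_lit 336390) (nat_lit 27) .nil))))) .nil)))) (.nd (nat_lit 5) (.nd (nat_lit 6) 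
(.lf (nat_lit 183698) (.g (nat_lit 1752) (.e (nat_lit 57851) (nat_lit 252) (.e (nat_lit 57445) (nat_lit 19) (.e (nat_lit 393225) (nat_lit 9) (.e (nat_lit 336078) (nat_lit 9) .nil)))) .nil)) 
(.lf (nat_lit 183762) (.g (nat_lit 1572) (.e (nat_lit 57852) (nat_lit 252) (.e (nat_lit 57371) (nat_lit 2) (.e (nat_lit 90128) (nat_lit 9) (.e (nat_lit 293) (nat_lit 21) .nil)))) .nil))) (.nd (nat_lit 6) 
(.lf (nat_lit 183730) (.g (nat_lit 3472) (.e (nat_lit 57851) (nat_lit 252) (.e (nat_lit 57445) (nat_lit 19) (.e (nat_lit 393229) (nat_lit 9) (.e (nat_lit 336194) (nat_lit 12) (.e (nat_lit 385068) (nat_lit 26) (.e (nat_lit 532501) (nat_lit 1) .nil)))))) (.g (nat_lit 0) .nil .nil))) 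
(.lf (nat_lit 183794) (.g (nat_lit 3867) (.e (nat_lit 57852) (nat_lit 252) (.e (nat_lit 57373) (nat_lit 2) (.e (nat_lit 90157) (nat_lit 11) (.e (nat_lit 24657) (nat_lit 13) (.e (nat_lit 393229) (nat_lit 9) (.e (nat_lit 335996) (nat_lit 1) .nil)))))) (.g (nat_lit 0) .nil .nil)))))) (.nd (nat_lit 4) (.nd (nat_lit 5) (.nd (nat_lit 6) 
(.lf (nat_lit 183690) (.g (nat_lit 76) (.e (nat_lit 57851) (nat_lit 252) (.e (nat_lit 57438) (nat_lit 17) (.e (nat_lit 384768) (nat_lit 13) .nil))) .nil)) 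
(.lf (nat_lit 183754) (.g (nat_lit 3861) (.e (nat_lit 57852) (nat_lit 252) (.e (nat_lit 57354) (nat_lit 0) (.e (nat_lit 1855) (nat_lit 124) (.e (nat_lit 557105) (nat_lit 14) (.e (nat_lit 180252) (nat_lit 10) (.e (nat_lit 573480) (nat_lit 13) (.e (nat_lit 73472) (nat_lit 18) (.e (nat_lit 204831) (nat_lit 18) .nil)))))))) (.g (nat_lit 5) .nil .nil)))) (.nd (nat_lit 6) 
(.lf (nat_lit 183722) (.g (nat_lit 3825) (.e (nat_lit 57851) (nat_lit 252) (.e (nat_lit 57445) (nat_lit 19) (.e (nat_lit 393229) (nat_lit 9) (.e (nat_lit 336091) (nat_lit 9) .nil)))) .nil)) 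
(.lf (nat_lit 183786) (.g (nat_lit 734) (.e (nat_lit 57852) (nat_lit 252) (.e (nat_lit 57373) (nat_lit 2) (.e (nat_lit 90123) (nat_lit 9) .nil))) .nil)))) (.nd (nat_lit 5) (.nd (nat_lit 6) 
(.lf (nat_lit 183706) (.g (nat_lit 721) (.e (nat_lit 57851) (nat_lit 252) (.e (nat_lit 57445) (nat_lit 19) (.e (nat_lit 393226) (nat_lit 9) .nil))) .nil)) 
(.lf (nat_lit 183770) (.g (nat_lit 3692) (.e (nat_lit 57852) (nat_lit 252) (.e (nat_lit 57371) (nat_lit 2) (.e (nat_lit 90158) (nat_lit 11) (.e (nat_lit 24658) (nat_lit 13) (.e (nat_lit 393225) (nat_lit 9) (.e (nat_lit 335996) (nat_lit 1) .nil)))))) (.g (nat_lit 0) .nil .nil)))) (.nd (nat_lit 6) 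
(.lf (nat_lit 183738) (.g (nat_lit 2141) (.e (nat_lit 57851) (nat_lit 252) (.e (nat_lit 57445) (nat_lit 19) (.e (nat_lit 393229) (nat_lit 9) (.e (nat_lit 343808) (nat_lit 12) .nil)))) .nil)) 
(.lf (nat_lit 183802) (.g (nat_lit 2889) (.e (nat_lit 57852) (nat_lit 252) (.e (nat_lit 57373) (nat_lit 2) (.e (nat_lit 90158) (nat_lit 11) (.e (nat_lit 24655) (nat_lit 13) (.e (nat_lit 393229) (nat_lit 9) (.e (nat_lit 335994) (nat_lit 1) .nil)))))) (.g (nat_lit 4) .nil .nil))))))) (.nd (nat_lit 3) (.nd (nat_lit 4) (.nd (nat_lit 5) (.nd (nat_lit 6) 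
(.lf (nat_lit 183686) (.g (nat_lit 2092) (.e (nat_lit 57851) (nat_lit 252) (.e (nat_lit 57436) (nat_lit 17) (.e (nat_lit 376842) (nat_lit 11) (.e (nat_lit 426314) (nat_lit 12) (.e (nat_lit 475213) (nat_lit 42) (.e (nat_lit 720931) (nat_lit 21) .nil)))))) (.g (nat_lit 4) .nil .nil))) 
(.lf (nat_lit 183750) (.g (nat_lit 2632) (.e (nat_lit 57851) (nat_lit 252) (.e (nat_lit 57446) (nat_lit 19) (.e (nat_lit 393229) (nat_lit 9) (.e (nat_lit 336196) (nat_lit 12) (.e (nat_lit 385067) (nat_lit 26) .nil))))) .nil))) (.nd (nat_lit 6) 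
(.lf (nat_lit 183718) (.g (nat_lit 3436) (.e (nat_lit 57851) (nat_lit 252) (.e (nat_lit 57445) (nat_lit 19) (.e (nat_lit 393229) (nat_lit 9) (.e (nat_lit 336078) (nat_lit 9) (.e (nat_lit 336324) (nat_lit 18) (.e (nat_lit 204831) (nat_lit 18) .nil)))))) (.g (nat_lit 0) .nil .nil))) 
(.lf (nat_lit 183782) (.g (nat_lit 2129) (.e (nat_lit 57852) (nat_lit 252) (.e (nat_lit 57371) (nat_lit 2) (.e (nat_lit 90160) (nat_lit 11) (.e (nat_lit 24658) (nat_lit 13) (.e (nat_lit 393229) (nat_lit 9) .nil))))) .nil)))) (.nd (nat_lit 5) (.nd (nat_lit 6) 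
(.lf (nat_lit 183702) (.g (nat_lit 1948) (.e (nat_lit 57851) (nat_lit 252) (.e (nat_lit 57445) (nat_lit 19) (.e (nat_lit 393225) (nat_lit 9) (.e (nat_lit 336194) (nat_lit 12) (.e (nat_lit 385067) (nat_lit 26) .nil))))) .nil)) 
(.lf (nat_lit 183766) (.g (nat_lit 2010) (.e (nat_lit 57852) (nat_lit 252) (.e (nat_lit 57371) (nat_lit 2) (.e (nat_lit 90158) (nat_lit 11) (.e (nat_lit 24608) (nat_lit 3) (.e (nat_lit 98337) (nat_lit 19) .nil))))) .nil))) (.nd (nat_lit 6) 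
(.lf (nat_lit 183734) (.g (nat_lit 1842) (.e (nat_lit 57851) (nat_lit 252) (.e (nat_lit 57445) (nat_lit 19) (.e (nat_lit 393229) (nat_lit 9) (.e (nat_lit 336196) (nat_lit 12) (.e (nat_lit 385064) (nat_lit 26) .nil))))) .nil)) 
(.lf (nat_lit 183798) (.g (nat_lit 3663) (.e (nat_lit 57852) (nat_lit 252) (.e (nat_lit 57373) (nat_lit 2) (.e (nat_lit 90158) (nat_lit 11) (.e (nat_lit 24625) (nat_lit 9) (.e (nat_lit 336456) (nat_lit 34) (.e (nat_lit 483364) (nat_lit 18) .nil)))))) (.g (nat_lit 0) .nil .nil)))))) (.nd (nat_lit 4) (.nd (nat_lit 5) (.nd (nat_lit 6) 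
(.lf (nat_lit 183694) (.g (nat_lit 2206) (.e (nat_lit 57851) (nat_lit 252) (.e (nat_lit 57445) (nat_lit 19) (.e (nat_lit 393224) (nat_lit 9) (.e (nat_lit 336203) (nat_lit 12) (.e (nat_lit 385067) (nat_lit 26) (.e (nat_lit 532501) (nat_lit 1) .nil)))))) (.g (nat_lit 4) .nil .nil))) 
(.lf (nat_lit 183758) (.g (nat_lit 3898) (.e (nat_lit 57852) (nat_lit 252) (.e (nat_lit 57370) (nat_lit 2) (.e (nat_lit 90158) (nat_lit 11) (.e (nat_lit 24655) (nat_lit 13) (.e (nat_lit 393225) (nat_lit 9) (.e (nat_lit 335996) (nat_lit 1) .nil)))))) (.g (nat_lit 0) .nil .nil)))) (.nd (nat_lit 6) 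
(.lf (nat_lit 183726) (.g (nat_lit 3890) (.e (nat_lit 57851) (nat_lit 252) (.e (nat_lit 57445) (nat_lit 19) (.e (nat_lit 393229) (nat_lit 9) (.e (nat_lit 336107) (nat_lit 9) .nil)))) .nil)) 
(.lf (nat_lit 183790) (.g (nat_lit 1018) (.e (nat_lit 57852) (nat_lit 252) (.e (nat_lit 57373) (nat_lit 2) (.e (nat_lit 90133) (nat_lit 9) (.e (nat_lit 283) (nat_lit 21) .nil)))) .nil)))) (.nd (nat_lit 5) (.nd (nat_lit 6) 
(.lf (nat_lit 183710) (.g (nat_lit 3907) (.e (nat_lit 57851) (nat_lit 252) (.e (nat_lit 57445) (nat_lit 19) (.e (nat_lit 393229) (nat_lit 9) (.e (nat_lit 335894) (nat_lit 0) .nil)))) .nil)) 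
(.lf (nat_lit 183774) (.g (nat_lit 2204) (.e (nat_lit 57852) (nat_lit 252) (.e (nat_lit 57371) (nat_lit 2) (.e (nat_lit 90160) (nat_lit 11) (.e (nat_lit 24623) (nat_lit 9) (.e (nat_lit 336456) (nat_lit 34) .nil))))) .nil))) (.nd (nat_lit 6) 
(.lf (nat_lit 183742) (.g (nat_lit 1345) (.e (nat_lit 57851) (nat_lit 252) (.e (nat_lit 57446) (nat_lit 19) (.e (nat_lit 393229) (nat_lit 9) (.e (nat_lit 336088) (nat_lit 9) (.e (nat_lit 336243) (nat_lit 15) .nil))))) .nil)) 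
(.lf (nat_lit 183806) (.g (nat_lit 2341) (.e (nat_lit 57852) (nat_lit 252) (.e (nat_lit 57373) (nat_lit 2) (.e (nat_lit 90160) (nat_lit 11) (.e (nat_lit 24584) (nat_lit 0) (.e (nat_lit 7936) (nat_lit 345) .nil))))) .nil)))))))) (.nd (nat_lit 1) (.nd (nat_lit 2) (.nd (nat_lit 3) (.nd (nat_lit 4) (.nd (nat_lit 5) (.nd (nat_lit 6) 
(.lf (nat_lit 183681) (.g (nat_lit 2590) (.e (nat_lit 57851) (nat_lit 252) (.e (nat_lit 57436) (nat_lit 17) (.e (nat_lit 376842) (nat_lit 11) (.e (nat_lit 426306) (nat_lit 12) (.e (nat_lit 475213) (nat_lit 42) (.e (nat_lit 720931) (nat_lit 21) .nil)))))) (.g (nat_lit 4) .nil .nil))) 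
(.lf (nat_lit 183745) (.g (nat_lit 1341) (.e (nat_lit 57851) (nat_lit 252) (.e (nat_lit 57446) (nat_lit 19) (.e (nat_lit 393229) (nat_lit 9) (.e (nat_lit 336088) (nat_lit 9) (.e (nat_lit 336259) (nat_lit 15) .nil))))) .nil))) (.nd (nat_lit 6) 
(.lf (nat_lit 183713) (.g (nat_lit 3090) (.e (nat_lit 57851) (nat_lit 252) (.e (nat_lit 57445) (nat_lit 19) (.e (nat_lit 393229) (nat_lit 9) (.e (nat_lit 336073) (nat_lit 9) .nil)))) .nil)) 
(.lf (nat_lit 183777) (.g (nat_lit 2817) (.e (nat_lit 57852) (nat_lit 252) (.e (nat_lit 57371) (nat_lit 2) (.e (nat_lit 90160) (nat_lit 11) (.e (nat_lit 24626) (nat_lit 9) (.e (nat_lit 336454) (nat_lit 34) (.e (nat_lit 483365) (nat_lit 18) .nil)))))) (.g (nat_lit 4) .nil .nil))))) (.nd (nat_lit 5) (.nd (nat_lit 6) 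
(.lf (nat_lit 183697) (.g (nat_lit 2073) (.e (nat_lit 57851) (nat_lit 252) (.e (nat_lit 57445) (nat_lit 19) (.e (nat_lit 393225) (nat_lit 9) (.e (nat_lit 336076) (nat_lit 9) (.e (nat_lit 336326) (nat_lit 18) .nil))))) .nil)) 
(.lf (nat_lit 183761) (.g (nat_lit 1578) (.e (nat_lit 57852) (nat_lit 252) (.e (nat_lit 57371) (nat_lit 2) (.e (nat_lit 90128) (nat_lit 9) (.e (nat_lit 245) (nat_lit 21) .nil)))) .nil))) (.nd (nat_lit 6) 
(.lf (nat_lit 183729) (.g (nat_lit 3386) (.e (nat_lit 57851) (nat_lit 252) (.e (nat_lit 57445) (nat_lit 19) (.e (nat_lit 393229) (nat_lit 9) (.e (nat_lit 336193) (nat_lit 12) (.e (nat_lit 385068) (nat_lit 26) .nil))))) .nil)) 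
(.lf (nat_lit 183793) (.g (nat_lit 3426) (.e (nat_lit 57852) (nat_lit 252) (.e (nat_lit 57373) (nat_lit 2) (.e (nat_lit 90157) (nat_lit 11) (.e (nat_lit 24627) (nat_lit 9) (.e (nat_lit 336454) (nat_lit 34) (.e (nat_lit 483364) (nat_lit 18) .nil)))))) (.g (nat_lit 0) .nil .nil)))))) (.nd (nat_lit 4) (.nd (nat_lit 5) (.nd (nat_lit 6) 
(.lf (nat_lit 183689) (.g (nat_lit 2722) (.e (nat_lit 57851) (nat_lit 252) (.e (nat_lit 57436) (nat_lit 17) (.e (nat_lit 376842) (nat_lit 11) (.e (nat_lit 426316) (nat_lit 12) (.e (nat_lit 475214) (nat_lit 42) (.e (nat_lit 720934) (nat_lit 21) .nil)))))) (.g (nat_lit 5) .nil .nil))) 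
(.lf (nat_lit 183753) (.g (nat_lit 3337) (.e (nat_lit 57852) (nat_lit 252) (.e (nat_lit 57345) (nat_lit 0) (.e (nat_lit 1860) (nat_lit 124) (.e (nat_lit 557105) (nat_lit 14) (.e (nat_lit 180252) (nat_lit 10) (.e (nat_lit 573481) (nat_lit 13) (.e (nat_lit 73472) (nat_lit 18) (.e (nat_lit 204831) (nat_lit 18) .nil)))))))) (.g (nat_lit 5) .nil .nil)))) (.nd (nat_lit 6) 
(.lf (nat_lit 183721) (.g (nat_lit 2380) (.e (nat_lit 57851) (nat_lit 252) (.e (nat_lit 57445) (nat_lit 19) (.e (nat_lit 393229) (nat_lit 9) (.e (nat_lit 336087) (nat_lit 9) (.e (nat_lit 336326) (nat_lit 18) .nil))))) .nil)) 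
(.lf (nat_lit 183785) (.g (nat_lit 719) (.e (nat_lit 57852) (nat_lit 252) (.e (nat_lit 57373) (nat_lit 2) (.e (nat_lit 98048) (nat_lit 6) .nil))) .nil)))) (.nd (nat_lit 5) (.nd (nat_lit 6) 
(.lf (nat_lit 183705) (.g (nat_lit 1398) (.e (nat_lit 57851) (nat_lit 252) (.e (nat_lit 57445) (nat_lit 19) (.e (nat_lit 393225) (nat_lit 9) (.e (nat_lit 343808) (nat_lit 12) .nil)))) .nil)) 
(.lf (nat_lit 183769) (.g (nat_lit 4126) (.e (nat_lit 57852) (nat_lit 252) (.e (nat_lit 57371) (nat_lit 2) (.e (nat_lit 90158) (nat_lit 11) (.e (nat_lit 24655) (nat_lit 13) (.e (nat_lit 393225) (nat_lit 9) (.e (nat_lit 335996) (nat_lit 1) .nil)))))) (.g (nat_lit 0) .nil .nil)))) (.nd (nat_lit 6) 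
(.lf (nat_lit 183737) (.g (nat_lit 3186) (.e (nat_lit 57851) (nat_lit 252) (.e (nat_lit 57445) (nat_lit 19) (.e (nat_lit 393229) (nat_lit 9) (.e (nat_lit 336204) (nat_lit 12) (.e (nat_lit 385068) (nat_lit 26) (.e (nat_lit 532504) (nat_lit 1) .nil)))))) (.g (nat_lit 0) .nil .nil))) 
(.lf (nat_lit 183801) (.g (nat_lit 3238) (.e (nat_lit 57852) (nat_lit 252) (.e (nat_lit 57373) (nat_lit 2) (.e (nat_lit 90158) (nat_lit 11) (.e (nat_lit 24655) (nat_lit 13) (.e (nat_lit 393224) (nat_lit 9) (.e (nat_lit 335996) (nat_lit 1) .nil)))))) (.g (nat_lit 4) .nil .nil))))))) (.nd (nat_lit 3) (.nd (nat_lit 4) (.nd (nat_lit 5) (.nd (nat_lit 6) 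
(.lf (nat_lit 183685) (.g (nat_lit 2627) (.e (nat_lit 57851) (nat_lit 252) (.e (nat_lit 57436) (nat_lit 17) (.e (nat_lit 376842) (nat_lit 11) (.e (nat_lit 426308) (nat_lit 12) (.e (nat_lit 475212) (nat_lit 42) (.e (nat_lit 720930) (nat_lit 21) .nil)))))) (.g (nat_lit 5) .nil .nil))) 
(.lf (nat_lit 183749) (.g (nat_lit 2738) (.e (nat_lit 57851) (nat_lit 252) (.e (nat_lit 57446) (nat_lit 19) (.e (nat_lit 393229) (nat_lit 9) (.e (nat_lit 336196) (nat_lit 12) (.e (nat_lit 385066) (nat_lit 26) .nil))))) .nil))) (.nd (nat_lit 6) 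
(.lf (nat_lit 183717) (.g (nat_lit 1641) (.e (nat_lit 57851) (nat_lit 252) (.e (nat_lit 57445) (nat_lit 19) (.e (nat_lit 393229) (nat_lit 9) (.e (nat_lit 336078) (nat_lit 9) (.e (nat_lit 336324) (nat_lit 18) .nil))))) .nil)) 
(.lf (nat_lit 183781) (.g (nat_lit 1636) (.e (nat_lit 57852) (nat_lit 252) (.e (nat_lit 57371) (nat_lit 2) (.e (nat_lit 90160) (nat_lit 11) (.e (nat_lit 24655) (nat_lit 13) .nil)))) .nil)))) (.nd (nat_lit 5) (.nd (nat_lit 6) 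
(.lf (nat_lit 183701) (.g (nat_lit 1807) (.e (nat_lit 57851) (nat_lit 252) (.e (nat_lit 57445) (nat_lit 19) (.e (nat_lit 393225) (nat_lit 9) (.e (nat_lit 336194) (nat_lit 12) (.e (nat_lit 385066) (nat_lit 26) .nil))))) .nil)) 
(.lf (nat_lit 183765) (.g (nat_lit 3116) (.e (nat_lit 57852) (nat_lit 252) (.e (nat_lit 57371) (nat_lit 2) (.e (nat_lit 90158) (nat_lit 11) (.e (nat_lit 24608) (nat_lit 3) (.e (nat_lit 98321) (nat_lit 17) (.e (nat_lit 3771) (nat_lit 229) (.e (nat_lit 794673) (nat_lit 23) (.e (nat_lit 204831) (nat_lit 18) .nil)))))))) (.g (nat_lit 4) .nil .nil)))) (.nd (nat_lit 6) 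
(.lf (nat_lit 183733) (.g (nat_lit 1199) (.e (nat_lit 57851) (nat_lit 252) (.e (nat_lit 57445) (nat_lit 19) (.e (nat_lit 393229) (nat_lit 9) (.e (nat_lit 336196) (nat_lit 12) .nil)))) .nil)) 
(.lf (nat_lit 183797) (.g (nat_lit 1139) (.e (nat_lit 57852) (nat_lit 252) (.e (nat_lit 57373) (nat_lit 2) (.e (nat_lit 90158) (nat_lit 11) (.e (nat_lit 24609) (nat_lit 3) .nil)))) .nil))))) (.nd (nat_lit 4) (.nd (nat_lit 5) (.nd (nat_lit 6) 
(.lf (nat_lit 183693) (.g (nat_lit 721) (.e (nat_lit 57851) (nat_lit 252) (.e (nat_lit 57445) (nat_lit 19) (.e (nat_lit 393223) (nat_lit 0) .nil))) .nil)) 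
(.lf (nat_lit 183757) (.g (nat_lit 3227) (.e (nat_lit 57852) (nat_lit 252) (.e (nat_lit 57361) (nat_lit 0) (.e (nat_lit 1855) (nat_lit 124) (.e (nat_lit 557105) (nat_lit 14) (.e (nat_lit 180252) (nat_lit 10) (.e (nat_lit 573481) (nat_lit 13) (.e (nat_lit 73472) (nat_lit 18) (.e (nat_lit 204831) (nat_lit 18) .nil)))))))) (.g (nat_lit 5) .nil .nil)))) (.nd (nat_lit 6) 
(.lf (nat_lit 183725) (.g (nat_lit 4065) (.e (nat_lit 57851) (nat_lit 252) (.e (nat_lit 57445) (nat_lit 19) (.e (nat_lit 393229) (nat_lit 9) (.e (nat_lit 336105) (nat_lit 9) .nil)))) .nil)) 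
(.lf (nat_lit 183789) (.g (nat_lit 1675) (.e (nat_lit 57852) (nat_lit 252) (.e (nat_lit 57373) (nat_lit 2) (.e (nat_lit 90128) (nat_lit 9) (.e (nat_lit 245) (nat_lit 21) .nil)))) .nil)))) (.nd (nat_lit 5) (.nd (nat_lit 6) 
(.lf (nat_lit 183709) (.g (nat_lit 3741) (.e (nat_lit 57851) (nat_lit 252) (.e (nat_lit 57445) (nat_lit 19) (.e (nat_lit 393229) (nat_lit 9) (.e (nat_lit 335892) (nat_lit 0) .nil)))) .nil)) 
(.lf (nat_lit 183773) (.g (nat_lit 2236) (.e (nat_lit 57852) (nat_lit 252) (.e (nat_lit 57371) (nat_lit 2) (.e (nat_lit 90160) (nat_lit 11) (.e (nat_lit 24623) (nat_lit 9) (.e (nat_lit 336454) (nat_lit 34) .nil))))) .nil))) (.nd (nat_lit 6) 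
(.lf (nat_lit 183741) (.g (nat_lit 6125) (.e (nat_lit 57851) (nat_lit 252) (.e (nat_lit 57446) (nat_lit 19) (.e (nat_lit 393229) (nat_lit 9) (.e (nat_lit 336085) (nat_lit 9) (.e (nat_lit 336324) (nat_lit 18) (.e (nat_lit 204831) (nat_lit 18) .nil)))))) (.g (nat_lit 6) .nil .nil))) 
(.lf (nat_lit 183805) (.g (nat_lit 1910) (.e (nat_lit 57852) (nat_lit 252) (.e (nat_lit 57373) (nat_lit 2) (.e (nat_lit 90160) (nat_lit 11) (.e (nat_lit 24580) (nat_lit 0) .nil)))) .nil))))))) (.nd (nat_lit 2) (.nd (nat_lit 3) (.nd (nat_lit 4) (.nd (nat_lit 5) (.nd (nat_lit 6) 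
(.lf (nat_lit 183683) (.g (nat_lit 2508) (.e (nat_lit 57851) (nat_lit 252) (.e (nat_lit 57436) (nat_lit 17) (.e (nat_lit 376842) (nat_lit 11) (.e (nat_lit 426307) (nat_lit 12) (.e (nat_lit 475212) (nat_lit 42) (.e (nat_lit 720934) (nat_lit 21) .nil)))))) (.g (nat_lit 5) .nil .nil))) 
(.lf (nat_lit 183747) (.g (nat_lit 2403) (.e (nat_lit 57851) (nat_lit 252) (.e (nat_lit 57446) (nat_lit 19) (.e (nat_lit 393229) (nat_lit 9) (.e (nat_lit 336195) (nat_lit 12) (.e (nat_lit 385067) (nat_lit 26) .nil))))) .nil))) (.nd (nat_lit 6) 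
(.lf (nat_lit 183715) (.g (nat_lit 1944) (.e (nat_lit 57851) (nat_lit 252) (.e (nat_lit 57445) (nat_lit 19) (.e (nat_lit 393229) (nat_lit 9) (.e (nat_lit 336075) (nat_lit 9) .nil)))) .nil)) 
(.lf (nat_lit 183779) (.g (nat_lit 1954) (.e (nat_lit 57852) (nat_lit 252) (.e (nat_lit 57371) (nat_lit 2) (.e (nat_lit 90160) (nat_lit 11) (.e (nat_lit 24636) (nat_lit 9) (.e (nat_lit 336453) (nat_lit 34) .nil))))) .nil)))) (.nd (nat_lit 5) (.nd (nat_lit 6) 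
(.lf (nat_lit 183699) (.g (nat_lit 1752) (.e (nat_lit 57851) (nat_lit 252) (.e (nat_lit 57445) (nat_lit 19) (.e (nat_lit 393225) (nat_lit 9) (.e (nat_lit 336084) (nat_lit 9) .nil)))) .nil)) 
(.lf (nat_lit 183763) (.g (nat_lit 1207) (.e (nat_lit 57852) (nat_lit 252) (.e (nat_lit 57371) (nat_lit 2) (.e (nat_lit 90128) (nat_lit 9) (.e (nat_lit 314) (nat_lit 23) .nil)))) .nil))) (.nd (nat_lit 6) 
(.lf (nat_lit 183731) (.g (nat_lit 3223) (.e (nat_lit 57851) (nat_lit 252) (.e (nat_lit 57445) (nat_lit 19) (.e (nat_lit 393229) (nat_lit 9) (.e (nat_lit 336194) (nat_lit 12) (.e (nat_lit 385068) (nat_lit 26) (.e (nat_lit 532504) (nat_lit 1) .nil)))))) (.g (nat_lit 0) .nil .nil))) 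
(.lf (nat_lit 183795) (.g (nat_lit 2964) (.e (nat_lit 57852) (nat_lit 252) (.e (nat_lit 57373) (nat_lit 2) (.e (nat_lit 90158) (nat_lit 11) (.e (nat_lit 24608) (nat_lit 3) (.e (nat_lit 98321) (nat_lit 17) .nil))))) .nil))))) (.nd (nat_lit 4) (.nd (nat_lit 5) (.nd (nat_lit 6) 
(.lf (nat_lit 183691) (.g (nat_lit 646) (.e (nat_lit 57851) (nat_lit 252) (.e (nat_lit 57445) (nat_lit 19) (.e (nat_lit 393221) (nat_lit 0) .nil))) .nil)) 
(.lf (nat_lit 183755) (.g (nat_lit 3559) (.e (nat_lit 57852) (nat_lit 252) (.e (nat_lit 57354) (nat_lit 0) (.e (nat_lit 1857) (nat_lit 124) (.e (nat_lit 557105) (nat_lit 14) (.e (nat_lit 180252) (nat_lit 10) (.e (nat_lit 573481) (nat_lit 13) (.e (nat_lit 73472) (nat_lit 18) (.e (nat_lit 204831) (nat_lit 18) .nil)))))))) (.g (nat_lit 5) .nil .nil)))) (.nd (nat_lit 6) 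
(.lf (nat_lit 183723) (.g (nat_lit 3957) (.e (nat_lit 57851) (nat_lit 252) (.e (nat_lit 57445) (nat_lit 19) (.e (nat_lit 393229) (nat_lit 9) (.e (nat_lit 336100) (nat_lit 9) .nil)))) .nil)) 
(.lf (nat_lit 183787) (.g (nat_lit 616) (.e (nat_lit 57852) (nat_lit 252) (.e (nat_lit 57373) (nat_lit 2) (.e (nat_lit 90125) (nat_lit 9) .nil))) .nil)))) (.nd (nat_lit 5) (.nd (nat_lit 6) 
(.lf (nat_lit 183707) (.g (nat_lit 578) (.e (nat_lit 57851) (nat_lit 252) (.e (nat_lit 57445) (nat_lit 19) (.e (nat_lit 393227) (nat_lit 9) (.e (nat_lit 336154) (nat_lit 9) (.e (nat_lit 343808) (nat_lit 18) .nil))))) .nil)) 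
(.lf (nat_lit 183771) (.g (nat_lit 525) (.e (nat_lit 57852) (nat_lit 252) (.e (nat_lit 57371) (nat_lit 2) (.e (nat_lit 90160) (nat_lit 11) .nil))) .nil))) (.nd (nat_lit 6) 
(.lf (nat_lit 183739) (.g (nat_lit 1322) (.e (nat_lit 57851) (nat_lit 252) (.e (nat_lit 57446) (nat_lit 19) (.e (nat_lit 393228) (nat_lit 9) (.e (nat_lit 336203) (nat_lit 12) (.e (nat_lit 385067) (nat_lit 26) .nil))))) .nil)) 
(.lf (nat_lit 183803) (.g (nat_lit 3924) (.e (nat_lit 57852) (nat_lit 252) (.e (nat_lit 57373) (nat_lit 2) (.e (nat_lit 90158) (nat_lit 11) (.e (nat_lit 24657) (nat_lit 13) (.e (nat_lit 393229) (nat_lit 9) (.e (nat_lit 335996) (nat_lit 1) .nil)))))) (.g (nat_lit 0) .nil .nil))))))) (.nd (nat_lit 3) (.nd (nat_lit 4) (.nd (nat_lit 5) (.nd (nat_lit 6) 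
(.lf (nat_lit 183687) (.g (nat_lit 2653) (.e (nat_lit 57851) (nat_lit 252) (.e (nat_lit 57436) (nat_lit 17) (.e (nat_lit 376842) (nat_lit 11) (.e (nat_lit 426315) (nat_lit 12) (.e (nat_lit 475212) (nat_lit 42) (.e (nat_lit 720934) (nat_lit 21) .nil)))))) (.g (nat_lit 5) .nil .nil))) 
(.lf (nat_lit 183751) (.g (nat_lit 1101) (.e (nat_lit 57851) (nat_lit 252) (.e (nat_lit 57446) (nat_lit 19) (.e (nat_lit 393229) (nat_lit 9) (.e (nat_lit 336202) (nat_lit 12) .nil)))) .nil))) (.nd (nat_lit 6) 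
(.lf (nat_lit 183719) (.g (nat_lit 2487) (.e (nat_lit 57851) (nat_lit 252) (.e (nat_lit 57445) (nat_lit 19) (.e (nat_lit 393229) (nat_lit 9) (.e (nat_lit 336084) (nat_lit 9) .nil)))) .nil)) 
(.lf (nat_lit 183783) (.g (nat_lit 1904) (.e (nat_lit 57852) (nat_lit 252) (.e (nat_lit 57371) (nat_lit 2) (.e (nat_lit 90160) (nat_lit 11) (.e (nat_lit 24659) (nat_lit 13) .nil)))) .nil)))) (.nd (nat_lit 5) (.nd (nat_lit 6) 
(.lf (nat_lit 183703) (.g (nat_lit 1946) (.e (nat_lit 57851) (nat_lit 252) (.e (nat_lit 57445) (nat_lit 19) (.e (nat_lit 393225) (nat_lit 9) (.e (nat_lit 336201) (nat_lit 12) (.e (nat_lit 385067) (nat_lit 26) .nil))))) .nil)) 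
(.lf (nat_lit 183767) (.g (nat_lit 1950) (.e (nat_lit 57852) (nat_lit 252) (.e (nat_lit 57371) (nat_lit 2) (.e (nat_lit 90158) (nat_lit 11) (.e (nat_lit 24628) (nat_lit 9) (.e (nat_lit 336366) (nat_lit 27) .nil))))) .nil))) (.nd (nat_lit 6) 
(.lf (nat_lit 183735) (.g (nat_lit 1101) (.e (nat_lit 57851) (nat_lit 252) (.e (nat_lit 57445) (nat_lit 19) (.e (nat_lit 393229) (nat_lit 9) (.e (nat_lit 336201) (nat_lit 12) .nil)))) .nil)) 
(.lf (nat_lit 183799) (.g (nat_lit 2188) (.e (nat_lit 57852) (nat_lit 252) (.e (nat_lit 57373) (nat_lit 2) (.e (nat_lit 90158) (nat_lit 11) (.e (nat_lit 24628) (nat_lit 9) (.e (nat_lit 336368) (nat_lit 27) .nil))))) .nil))))) (.nd (nat_lit 4) (.nd (nat_lit 5) (.nd (nat_lit 6) 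
(.lf (nat_lit 183695) (.g (nat_lit 2309) (.e (nat_lit 57851) (nat_lit 252) (.e (nat_lit 57445) (nat_lit 19) (.e (nat_lit 393224) (nat_lit 9) (.e (nat_lit 336203) (nat_lit 12) (.e (nat_lit 385067) (nat_lit 26) (.e (nat_lit 532504) (nat_lit 1) .nil)))))) (.g (nat_lit 4) .nil .nil))) 
(.lf (nat_lit 183759) (.g (nat_lit 3489) (.e (nat_lit 57852) (nat_lit 252) (.e (nat_lit 57370) (nat_lit 2) (.e (nat_lit 90158) (nat_lit 11) (.e (nat_lit 24658) (nat_lit 13) (.e (nat_lit 393225) (nat_lit 9) (.e (nat_lit 335996) (nat_lit 1) .nil)))))) (.g (nat_lit 0) .nil .nil)))) (.nd (nat_lit 6) 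
(.lf (nat_lit 183727) (.g (nat_lit 3899) (.e (nat_lit 57851) (nat_lit 252) (.e (nat_lit 57445) (nat_lit 19) (.e (nat_lit 393229) (nat_lit 9) (.e (nat_lit 336150) (nat_lit 9) .nil)))) .nil)) 
(.lf (nat_lit 183791) (.g (nat_lit 3053) (.e (nat_lit 57852) (nat_lit 252) (.e (nat_lit 57373) (nat_lit 2) (.e (nat_lit 90134) (nat_lit 9) (.e (nat_lit 249) (nat_lit 21) (.e (nat_lit 336215) (nat_lit 13) (.e (nat_lit 393229) (nat_lit 9) (.e (nat_lit 335988) (nat_lit 1) .nil))))))) (.g (nat_lit 5) .nil .nil))))) (.nd (nat_lit 5) (.nd (nat_lit 6) 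
(.lf (nat_lit 183711) (.g (nat_lit 4090) (.e (nat_lit 57851) (nat_lit 252) (.e (nat_lit 57445) (nat_lit 19) (.e (nat_lit 393229) (nat_lit 9) (.e (nat_lit 335895) (nat_lit 0) .nil)))) .nil)) 
(.lf (nat_lit 183775) (.g (nat_lit 2277) (.e (nat_lit 57852) (nat_lit 252) (.e (nat_lit 57371) (nat_lit 2) (.e (nat_lit 90160) (nat_lit 11) (.e (nat_lit 24625) (nat_lit 9) (.e (nat_lit 336454) (nat_lit 34) .nil))))) .nil))) (.nd (nat_lit 6) 
(.lf (nat_lit 183743) (.g (nat_lit 1344) (.e (nat_lit 57851) (nat_lit 252) (.e (nat_lit 57446) (nat_lit 19) (.e (nat_lit 393229) (nat_lit 9) (.e (nat_lit 336088) (nat_lit 9) (.e (nat_lit 336245) (nat_lit 15) .nil))))) .nil)) 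
(.lf (nat_lit 183807) (.g (nat_lit 1998) (.e (nat_lit 57852) (nat_lit 252) (.e (nat_lit 57373) (nat_lit 2) (.e (nat_lit 90160) (nat_lit 11) (.e (nat_lit 24607) (nat_lit 3) .nil)))) .nil)))))))))

noncomputable def tv2451 : DT := (.nd (nat_lit 0) (.nd (nat_lit 1) (.nd (nat_lit 2) (.nd (nat_lit 3) (.nd (nat_lit 4) (.nd (nat_lit 5) (.nd (nat_lit 6) 
(.lf (nat_lit 183808) (.g (nat_lit 1533) (.e (nat_lit 57852) (nat_lit 252) (.e (nat_lit 57373) (nat_lit 2) (.e (nat_lit 90160) (nat_lit 11) (.e (nat_lit 24608) (nat_lit 3) .nil)))) .nil)) 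
(.lf (nat_lit 183872) (.g (nat_lit 4534) (.e (nat_lit 57852) (nat_lit 252) (.e (nat_lit 57377) (nat_lit 3) (.e (nat_lit 98317) (nat_lit 9) (.e (nat_lit 336100) (nat_lit 9) (.e (nat_lit 336412) (nat_lit 27) .nil))))) .nil))) (.nd (nat_lit 6) 
(.lf (nat_lit 183840) (.g (nat_lit 4810) (.e (nat_lit 57852) (nat_lit 252) (.e (nat_lit 57377) (nat_lit 3) (.e (nat_lit 98317) (nat_lit 9) (.e (nat_lit 335913) (nat_lit 0) .nil)))) .nil)) 
(.lf (nat_lit 183904) (.g (nat_lit 2188) (.e (nat_lit 57852) (nat_lit 252) (.e (nat_lit 57378) (nat_lit 3) (.e (nat_lit 98313) (nat_lit 9) (.e (nat_lit 336027) (nat_lit 3) (.e (nat_lit 98339) (nat_lit 19) .nil))))) .nil)))) (.nd (nat_lit 5) (.nd (nat_lit 6) 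
(.lf (nat_lit 183824) (.g (nat_lit 2659) (.e (nat_lit 57852) (nat_lit 252) (.e (nat_lit 57377) (nat_lit 3) (.e (nat_lit 98313) (nat_lit 9) (.e (nat_lit 336078) (nat_lit 9) (.e (nat_lit 336454) (nat_lit 34) (.e (nat_lit 483365) (nat_lit 18) .nil)))))) (.g (nat_lit 5) .nil .nil))) 
(.lf (nat_lit 183888) (.g (nat_lit 1432) (.e (nat_lit 57852) (nat_lit 252) (.e (nat_lit 57377) (nat_lit 3) (.e (nat_lit 98317) (nat_lit 9) (.e (nat_lit 336214) (nat_lit 13) .nil)))) .nil))) (.nd (nat_lit 6) 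
(.lf (nat_lit 183856) (.g (nat_lit 2846) (.e (nat_lit 57852) (nat_lit 252) (.e (nat_lit 57377) (nat_lit 3) (.e (nat_lit 98317) (nat_lit 9) (.e (nat_lit 336075) (nat_lit 9) .nil)))) .nil)) 
(.lf (nat_lit 183920) (.g (nat_lit 4521) (.e (nat_lit 57852) (nat_lit 252) (.e (nat_lit 57404) (nat_lit 12) (.e (nat_lit 336013) (nat_lit 2) (.e (nat_lit 90170) (nat_lit 13) (.e (nat_lit 172079) (nat_lit 7) (.e (nat_lit 409611) (nat_lit 10) (.e (nat_lit 604) (nat_lit 45) (.e (nat_lit 532501) (nat_lit 1) .nil)))))))) (.g (nat_lit 0) .nil .nil)))))) 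
(.nd (nat_lit 4) (.nd (nat_lit 5) (.nd (nat_lit 6) 
(.lf (nat_lit 183816) (.g (nat_lit 2685) (.e (nat_lit 57852) (nat_lit 252) (.e (nat_lit 57373) (nat_lit 2) (.e (nat_lit 90160) (nat_lit 11) (.e (nat_lit 24658) (nat_lit 13) (.e (nat_lit 393224) (nat_lit 9) .nil))))) .nil)) 
(.lf (nat_lit 183880) (.g (nat_lit 4810) (.e (nat_lit 57852) (nat_lit 252) (.e (nat_lit 57377) (nat_lit 3) (.e (nat_lit 98317) (nat_lit 9) (.e (nat_lit 336201) (nat_lit 12) .nil)))) .nil))) (.nd (nat_lit 6) 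
(.lf (nat_lit 183848) (.g (nat_lit 4569) (.e (nat_lit 57852) (nat_lit 252) (.e (nat_lit 57377) (nat_lit 3) (.e (nat_lit 98317) (nat_lit 9) (.e (nat_lit 336025) (nat_lit 3) .nil)))) .nil)) 
(.lf (nat_lit 183912) (.g (nat_lit 4027) (.e (nat_lit 57852) (nat_lit 252) (.e (nat_lit 57378) (nat_lit 3) (.e (nat_lit 98341) (nat_lit 20) (.e (nat_lit 221214) (nat_lit 23) (.e (nat_lit 204880) (nat_lit 32) (.e (nat_lit 385066) (nat_lit 26) (.e (nat_lit 532501) (nat_lit 1) .nil))))))) (.g (nat_lit 6) .nil .nil))))) (.nd (nat_lit 5) (.nd (nat_lit 6) 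
(.lf (nat_lit 183832) (.g (nat_lit 4810) (.e (nat_lit 57852) (nat_lit 252) (.e (nat_lit 57377) (nat_lit 3) (.e (nat_lit 98317) (nat_lit 9) (.e (nat_lit 335894) (nat_lit 0) .nil)))) .nil)) 
(.lf (nat_lit 183896) (.g (nat_lit 2734) (.e (nat_lit 57852) (nat_lit 252) (.e (nat_lit 57377) (nat_lit 3) (.e (nat_lit 98317) (nat_lit 9) (.e (nat_lit 336223) (nat_lit 13) (.e (nat_lit 393229) (nat_lit 9) (.e (nat_lit 335987) (nat_lit 1) .nil)))))) (.g (nat_lit 4) .nil .nil)))) (.nd (nat_lit 6) 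
(.lf (nat_lit 183864) (.g (nat_lit 3141) (.e (nat_lit 57852) (nat_lit 252) (.e (nat_lit 57377) (nat_lit 3) (.e (nat_lit 98317) (nat_lit 9) (.e (nat_lit 336087) (nat_lit 9) (.e (nat_lit 336366) (nat_lit 27) .nil))))) .nil)) 
(.lf (nat_lit 183928) (.g (nat_lit 3170) (.e (nat_lit 57852) (nat_lit 252) (.e (nat_lit 57404) (nat_lit 12) (.e (nat_lit 336056) (nat_lit 7) (.e (nat_lit 319533) (nat_lit 16) (.e (nat_lit 286753) (nat_lit 10) (.e (nat_lit 344097) (nat_lit 18) (.e (nat_lit 5195) (nat_lit 294) (.e (nat_lit 57368) (nat_lit 1) .nil)))))))) (.g (nat_lit 5) .nil .nil))))))) 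
(.nd (nat_lit 3) (.nd (nat_lit 4) (.nd (nat_lit 5) (.nd (nat_lit 6) 
(.lf (nat_lit 183812) (.g (nat_lit 2158) (.e (nat_lit 57852) (nat_lit 252) (.e (nat_lit 57373) (nat_lit 2) (.e (nat_lit 90160) (nat_lit 11) (.e (nat_lit 24629) (nat_lit 9) (.e (nat_lit 336454) (nat_lit 34) .nil))))) .nil)) 
(.lf (nat_lit 183876) (.g (nat_lit 2398) (.e (nat_lit 57852) (nat_lit 252) (.e (nat_lit 57377) (nat_lit 3) (.e (nat_lit 98317) (nat_lit 9) (.e (nat_lit 343808) (nat_lit 9) .nil)))) .nil))) (.nd (nat_lit 6) 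
(.lf (nat_lit 183844) (.g (nat_lit 4810) (.e (nat_lit 57852) (nat_lit 252) (.e (nat_lit 57377) (nat_lit 3) (.e (nat_lit 98317) (nat_lit 9) (.e (nat_lit 335933) (nat_lit 0) .nil)))) .nil)) 
(.lf (nat_lit 183908) (.g (nat_lit 500) (.e (nat_lit 57852) (nat_lit 252) (.e (nat_lit 57378) (nat_lit 3) (.e (nat_lit 98316) (nat_lit 9) .nil))) .nil)))) (.nd (nat_lit 5) (.nd (nat_lit 6) 
(.lf (nat_lit 183828) (.g (nat_lit 319) (.e (nat_lit 57852) (nat_lit 252) (.e (nat_lit 57377) (nat_lit 3) (.e (nat_lit 98317) (nat_lit 9) .nil))) .nil)) 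
(.lf (nat_lit 183892) (.g (nat_lit 2707) (.e (nat_lit 57852) (nat_lit 252) (.e (nat_lit 57377) (nat_lit 3) (.e (nat_lit 98317) (nat_lit 9) (.e (nat_lit 336221) (nat_lit 13) (.e (nat_lit 393229) (nat_lit 9) .nil))))) .nil))) (.nd (nat_lit 6) 
(.lf (nat_lit 183860) (.g (nat_lit 1277) (.e (nat_lit 57852) (nat_lit 252) (.e (nat_lit 57377) (nat_lit 3) (.e (nat_lit 98317) (nat_lit 9) (.e (nat_lit 336086) (nat_lit 9) .nil)))) .nil)) 
(.lf (nat_lit 183924) (.g (nat_lit 2979) (.e (nat_lit 57852) (nat_lit 252) (.e (nat_lit 57404) (nat_lit 12) (.e (nat_lit 336054) (nat_lit 7) (.e (nat_lit 319534) (nat_lit 16) (.e (nat_lit 286756) (nat_lit 10) (.e (nat_lit 344097) (nat_lit 18) (.e (nat_lit 5194) (nat_lit 294) (.e (nat_lit 57368) (nat_lit 1) .nil)))))))) (.g (nat_lit 5) .nil .nil)))))) 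
(.nd (nat_lit 4) (.nd (nat_lit 5) (.nd (nat_lit 6) 
(.lf (nat_lit 183820) (.g (nat_lit 627) (.e (nat_lit 57852) (nat_lit 252) (.e (nat_lit 57377) (nat_lit 3) (.e (nat_lit 98309) (nat_lit 0) .nil))) .nil)) 
(.lf (nat_lit 183884) (.g (nat_lit 2712) (.e (nat_lit 57852) (nat_lit 252) (.e (nat_lit 57377) (nat_lit 3) (.e (nat_lit 98317) (nat_lit 9) (.e (nat_lit 336212) (nat_lit 13) .nil)))) .nil))) (.nd (nat_lit 6) 
(.lf (nat_lit 183852) (.g (nat_lit 3150) (.e (nat_lit 57852) (nat_lit 252) (.e (nat_lit 57377) (nat_lit 3) (.e (nat_lit 98317) (nat_lit 9) (.e (nat_lit 336027) (nat_lit 3) (.e (nat_lit 98340) (nat_lit 20) .nil))))) .nil)) 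
(.lf (nat_lit 183916) (.g (nat_lit 1135) (.e (nat_lit 57852) (nat_lit 252) (.e (nat_lit 57389) (nat_lit 5) (.e (nat_lit 114697) (nat_lit 11) (.e (nat_lit 426258) (nat_lit 9) (.e (nat_lit 426554) (nat_lit 32) .nil))))) .nil)))) (.nd (nat_lit 5) (.nd (nat_lit 6) 
(.lf (nat_lit 183836) (.g (nat_lit 4810) (.e (nat_lit 57852) (nat_lit 252) (.e (nat_lit 57377) (nat_lit 3) (.e (nat_lit 98317) (nat_lit 9) (.e (nat_lit 335906) (nat_lit 0) .nil)))) .nil)) 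
(.lf (nat_lit 183900) (.g (nat_lit 2783) (.e (nat_lit 57852) (nat_lit 252) (.e (nat_lit 57378) (nat_lit 3) (.e (nat_lit 98312) (nat_lit 9) (.e (nat_lit 336078) (nat_lit 9) (.e (nat_lit 336454) (nat_lit 34) (.e (nat_lit 483364) (nat_lit 18) .nil)))))) (.g (nat_lit 6) .nil .nil)))) (.nd (nat_lit 6) 
(.lf (nat_lit 183868) (.g (nat_lit 1053) (.e (nat_lit 57852) (nat_lit 252) (.e (nat_lit 57377) (nat_lit 3) (.e (nat_lit 98317) (nat_lit 9) (.e (nat_lit 336088) (nat_lit 9) .nil)))) .nil)) 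
(.lf (nat_lit 183932) (.g (nat_lit 3239) (.e (nat_lit 57852) (nat_lit 252) (.e (nat_lit 57404) (nat_lit 12) (.e (nat_lit 336056) (nat_lit 7) (.e (nat_lit 319534) (nat_lit 16) (.e (nat_lit 286756) (nat_lit 10) (.e (nat_lit 344097) (nat_lit 18) (.e (nat_lit 5195) (nat_lit 294) (.e (nat_lit 57365) (nat_lit 1) .nil)))))))) (.g (nat_lit 5) .nil .nil)))))))) 
(.nd (nat_lit 2) (.nd (nat_lit 3) (.nd (nat_lit 4) (.nd (nat_lit 5) (.nd (nat_lit 6) 
(.lf (nat_lit 183810) (.g (nat_lit 2096) (.e (nat_lit 57852) (nat_lit 252) (.e (nat_lit 57373) (nat_lit 2) (.e (nat_lit 90160) (nat_lit 11) (.e (nat_lit 24609) (nat_lit 3) .nil)))) .nil)) 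
(.lf (nat_lit 183874) (.g (nat_lit 4812) (.e (nat_lit 57852) (nat_lit 252) (.e (nat_lit 57377) (nat_lit 3) (.e (nat_lit 98317) (nat_lit 9) (.e (nat_lit 336107) (nat_lit 9) .nil)))) .nil))) (.nd (nat_lit 6) 
(.lf (nat_lit 183842) (.g (nat_lit 4810) (.e (nat_lit 57852) (nat_lit 252) (.e (nat_lit 57377) (nat_lit 3) (.e (nat_lit 98317) (nat_lit 9) (.e (nat_lit 335926) (nat_lit 0) .nil)))) .nil)) 
(.lf (nat_lit 183906) (.g (nat_lit 2663) (.e (nat_lit 57852) (nat_lit 252) (.e (nat_lit 57378) (nat_lit 3) (.e (nat_lit 98313) (nat_lit 9) (.e (nat_lit 336088) (nat_lit 9) (.e (nat_lit 336454) (nat_lit 34) (.e (nat_lit 483364) (nat_lit 18) .nil)))))) (.g (nat_lit 5) .nil .nil))))) (.nd (nat_lit 5) (.nd (nat_lit 6) 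
(.lf (nat_lit 183826) (.g (nat_lit 2350) (.e (nat_lit 57852) (nat_lit 252) (.e (nat_lit 57377) (nat_lit 3) (.e (nat_lit 98313) (nat_lit 9) (.e (nat_lit 336223) (nat_lit 13) (.e (nat_lit 393229) (nat_lit 9) (.e (nat_lit 335994) (nat_lit 1) .nil)))))) (.g (nat_lit 4) .nil .nil))) 
(.lf (nat_lit 183890) (.g (nat_lit 2062) (.e (nat_lit 57852) (nat_lit 252) (.e (nat_lit 57377) (nat_lit 3) (.e (nat_lit 98317) (nat_lit 9) (.e (nat_lit 336215) (nat_lit 13) (.e (nat_lit 393229) (nat_lit 9) .nil))))) .nil))) (.nd (nat_lit 6) 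
(.lf (nat_lit 183858) (.g (nat_lit 2703) (.e (nat_lit 57852) (nat_lit 252) (.e (nat_lit 57377) (nat_lit 3) (.e (nat_lit 98317) (nat_lit 9) (.e (nat_lit 336085) (nat_lit 9) .nil)))) .nil)) 
(.lf (nat_lit 183922) (.g (nat_lit 1853) (.e (nat_lit 57852) (nat_lit 252) (.e (nat_lit 57404) (nat_lit 12) (.e (nat_lit 336054) (nat_lit 7) (.e (nat_lit 319533) (nat_lit 16) (.e (nat_lit 286753) (nat_lit 10) (.e (nat_lit 344097) (nat_lit 18) (.e (nat_lit 5194) (nat_lit 294) (.e (nat_lit 57365) (nat_lit 1) .nil)))))))) (.g (nat_lit 4) .nil .nil)))))) 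
(.nd (nat_lit 4) (.nd (nat_lit 5) (.nd (nat_lit 6) 
(.lf (nat_lit 183818) (.g (nat_lit 1484) (.e (nat_lit 57852) (nat_lit 252) (.e (nat_lit 57376) (nat_lit 3) (.e (nat_lit 98317) (nat_lit 9) (.e (nat_lit 336078) (nat_lit 9) (.e (nat_lit 336454) (nat_lit 34) .nil))))) .nil)) 
(.lf (nat_lit 183882) (.g (nat_lit 4252) (.e (nat_lit 57852) (nat_lit 252) (.e (nat_lit 57377) (nat_lit 3) (.e (nat_lit 98317) (nat_lit 9) (.e (nat_lit 336203) (nat_lit 12) .nil)))) .nil))) (.nd (nat_lit 6) 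
(.lf (nat_lit 183850) (.g (nat_lit 2174) (.e (nat_lit 57852) (nat_lit 252) (.e (nat_lit 57377) (nat_lit 3) (.e (nat_lit 98317) (nat_lit 9) (.e (nat_lit 336027) (nat_lit 3) .nil)))) .nil)) 
(.lf (nat_lit 183914) (.g (nat_lit 1551) (.e (nat_lit 57852) (nat_lit 252) (.e (nat_lit 57382) (nat_lit 4) (.e (nat_lit 106534) (nat_lit 11) (.e (nat_lit 16465) (nat_lit 13) (.e (nat_lit 483393) (nat_lit 23) .nil))))) .nil)))) (.nd (nat_lit 5) (.nd (nat_lit 6) 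
(.lf (nat_lit 183834) (.g (nat_lit 4808) (.e (nat_lit 57852) (nat_lit 252) (.e (nat_lit 57377) (nat_lit 3) (.e (nat_lit 98317) (nat_lit 9) (.e (nat_lit 335898) (nat_lit 0) .nil)))) .nil)) 
(.lf (nat_lit 183898) (.g (nat_lit 738) (.e (nat_lit 57852) (nat_lit 252) (.e (nat_lit 57378) (nat_lit 3) (.e (nat_lit 98309) (nat_lit 0) .nil))) .nil))) (.nd (nat_lit 6) 
(.lf (nat_lit 183866) (.g (nat_lit 3109) (.e (nat_lit 57852) (nat_lit 252) (.e (nat_lit 57377) (nat_lit 3) (.e (nat_lit 98317) (nat_lit 9) (.e (nat_lit 336087) (nat_lit 9) (.e (nat_lit 336370) (nat_lit 27) .nil))))) .nil)) 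
(.lf (nat_lit 183930) (.g (nat_lit 3234) (.e (nat_lit 57852) (nat_lit 252) (.e (nat_lit 57404) (nat_lit 12) (.e (nat_lit 336056) (nat_lit 7) (.e (nat_lit 319534) (nat_lit 16) (.e (nat_lit 286749) (nat_lit 9) (.e (nat_lit 335997) (nat_lit 1) (.e (nat_lit 57848) (nat_lit 252) (.e (nat_lit 57368) (nat_lit 1) .nil)))))))) (.g (nat_lit 5) .nil .nil))))))) 
(.nd (nat_lit 3) (.nd (nat_lit 4) (.nd (nat_lit 5) (.nd (nat_lit 6) 
(.lf (nat_lit 183814) (.g (nat_lit 2132) (.e (nat_lit 57852) (nat_lit 252) (.e (nat_lit 57373) (nat_lit 2) (.e (nat_lit 90160) (nat_lit 11) (.e (nat_lit 24654) (nat_lit 13) (.e (nat_lit 393224) (nat_lit 9) .nil))))) .nil)) 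
(.lf (nat_lit 183878) (.g (nat_lit 4810) (.e (nat_lit 57852) (nat_lit 252) (.e (nat_lit 57377) (nat_lit 3) (.e (nat_lit 98317) (nat_lit 9) (.e (nat_lit 336195) (nat_lit 12) .nil)))) .nil))) (.nd (nat_lit 6) 
(.lf (nat_lit 183846) (.g (nat_lit 4279) (.e (nat_lit 57852) (nat_lit 252) (.e (nat_lit 57377) (nat_lit 3) (.e (nat_lit 98317) (nat_lit 9) (.e (nat_lit 336020) (nat_lit 3) .nil)))) .nil)) 
(.lf (nat_lit 183910) (.g (nat_lit 1922) (.e (nat_lit 57852) (nat_lit 252) (.e (nat_lit 57378) (nat_lit 3) (.e (nat_lit 98334) (nat_lit 18) (.e (nat_lit 164383) (nat_lit 254) .nil)))) .nil)))) (.nd (nat_lit 5) (.nd (nat_lit 6) 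
(.lf (nat_lit 183830) (.g (nat_lit 4793) (.e (nat_lit 57852) (nat_lit 252) (.e (nat_lit 57377) (nat_lit 3) (.e (nat_lit 98317) (nat_lit 9) (.e (nat_lit 335892) (nat_lit 0) .nil)))) .nil)) 
(.lf (nat_lit 183894) (.g (nat_lit 3322) (.e (nat_lit 57852) (nat_lit 252) (.e (nat_lit 57377) (nat_lit 3) (.e (nat_lit 98317) (nat_lit 9) (.e (nat_lit 336223) (nat_lit 13) (.e (nat_lit 393224) (nat_lit 9) (.e (nat_lit 335996) (nat_lit 1) .nil)))))) (.g (nat_lit 4) .nil .nil)))) (.nd (nat_lit 6) 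
(.lf (nat_lit 183862) (.g (nat_lit 2020) (.e (nat_lit 57852) (nat_lit 252) (.e (nat_lit 57377) (nat_lit 3) (.e (nat_lit 98317) (nat_lit 9) (.e (nat_lit 336086) (nat_lit 9) (.e (nat_lit 336370) (nat_lit 27) .nil))))) .nil)) 
(.lf (nat_lit 183926) (.g (nat_lit 2351) (.e (nat_lit 57852) (nat_lit 252) (.e (nat_lit 57404) (nat_lit 12) (.e (nat_lit 336056) (nat_lit 7) (.e (nat_lit 319533) (nat_lit 16) (.e (nat_lit 286753) (nat_lit 10) (.e (nat_lit 344097) (nat_lit 18) (.e (nat_lit 5194) (nat_lit 294) (.e (nat_lit 57365) (nat_lit 1) .nil)))))))) (.g (nat_lit 4) .nil .nil)))))) 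
(.nd (nat_lit 4) (.nd (nat_lit 5) (.nd (nat_lit 6) 
(.lf (nat_lit 183822) (.g (nat_lit 1054) (.e (nat_lit 57852) (nat_lit 252) (.e (nat_lit 57377) (nat_lit 3) (.e (nat_lit 98313) (nat_lit 9) (.e (nat_lit 336075) (nat_lit 9) .nil)))) .nil)) 
(.lf (nat_lit 183886) (.g (nat_lit 3228) (.e (nat_lit 57852) (nat_lit 252) (.e (nat_lit 57377) (nat_lit 3) (.e (nat_lit 98317) (nat_lit 9) (.e (nat_lit 336213) (nat_lit 13) (.e (nat_lit 393228) (nat_lit 9) .nil))))) .nil))) (.nd (nat_lit 6) 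
(.lf (nat_lit 183854) (.g (nat_lit 3830) (.e (nat_lit 57852) (nat_lit 252) (.e (nat_lit 57377) (nat_lit 3) (.e (nat_lit 98317) (nat_lit 9) (.e (nat_lit 336073) (nat_lit 9) .nil)))) .nil)) 
(.lf (nat_lit 183918) (.g (nat_lit 2542) (.e (nat_lit 57852) (nat_lit 252) (.e (nat_lit 57400) (nat_lit 10) (.e (nat_lit 319490) (nat_lit 0) (.e (nat_lit 5259) (nat_lit 298) (.e (nat_lit 456) (nat_lit 34) (.e (nat_lit 450304) (nat_lit 5) (.e (nat_lit 114710) (nat_lit 21) .nil))))))) (.g (nat_lit 4) .nil .nil))))) (.nd (nat_lit 5) (.nd (nat_lit 6) 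
(.lf (nat_lit 183838) (.g (nat_lit 4809) (.e (nat_lit 57852) (nat_lit 252) (.e (nat_lit 57377) (nat_lit 3) (.e (nat_lit 98317) (nat_lit 9) (.e (nat_lit 335911) (nat_lit 0) .nil)))) .nil)) 
(.lf (nat_lit 183902) (.g (nat_lit 1183) (.e (nat_lit 57852) (nat_lit 252) (.e (nat_lit 57378) (nat_lit 3) (.e (nat_lit 98313) (nat_lit 9) (.e (nat_lit 336020) (nat_lit 3) .nil)))) .nil))) (.nd (nat_lit 6) 
(.lf (nat_lit 183870) (.g (nat_lit 3969) (.e (nat_lit 57852) (nat_lit 252) (.e (nat_lit 57377) (nat_lit 3) (.e (nat_lit 98317) (nat_lit 9) (.e (nat_lit 336091) (nat_lit 9) .nil)))) .nil)) 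
(.lf (nat_lit 183934) (.g (nat_lit 2197) (.e (nat_lit 57852) (nat_lit 252) (.e (nat_lit 57404) (nat_lit 12) (.e (nat_lit 336060) (nat_lit 7) (.e (nat_lit 319534) (nat_lit 16) (.e (nat_lit 286749) (nat_lit 9) (.e (nat_lit 335997) (nat_lit 1) (.e (nat_lit 57846) (nat_lit 252) (.e (nat_lit 57365) (nat_lit 1) .nil)))))))) (.g (nat_lit 4) .nil .nil))))))))) 
(.nd (nat_lit 1) (.nd (nat_lit 2) (.nd (nat_lit 3) (.nd (nat_lit 4) (.nd (nat_lit 5) 
(.nd (nat_lit 6) 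
(.lf (nat_lit 183809) (.g (nat_lit 3024) (.e (nat_lit 57852) (nat_lit 252) (.e (nat_lit 57373) (nat_lit 2) (.e (nat_lit 90160) (nat_lit 11) (.e (nat_lit 24608) (nat_lit 3) (.e (nat_lit 98321) (nat_lit 17) .nil))))) .nil)) 
(.lf (nat_lit 183873) (.g (nat_lit 4810) (.e (nat_lit 57852) (nat_lit 252) (.e (nat_lit 57377) (nat_lit 3) (.e (nat_lit 98317) (nat_lit 9) (.e (nat_lit 336105) (nat_lit 9) .nil)))) .nil))) (.nd (nat_lit 6) 
(.lf (nat_lit 183841) (.g (nat_lit 4677) (.e (nat_lit 57852) (nat_lit 252) (.e (nat_lit 57377) (nat_lit 3) (.e (nat_lit 98317) (nat_lit 9) (.e (nat_lit 335914) (nat_lit 0) .nil)))) .nil)) 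
(.lf (nat_lit 183905) (.g (nat_lit 2568) (.e (nat_lit 57852) (nat_lit 252) (.e (nat_lit 57378) (nat_lit 3) (.e (nat_lit 98313) (nat_lit 9) (.e (nat_lit 336078) (nat_lit 9) (.e (nat_lit 336454) (nat_lit 34) (.e (nat_lit 483365) (nat_lit 18) .nil)))))) (.g (nat_lit 5) .nil .nil))))) (.nd (nat_lit 5) (.nd (nat_lit 6) 
(.lf (nat_lit 183825) (.g (nat_lit 1885) (.e (nat_lit 57852) (nat_lit 252) (.e (nat_lit 57377) (nat_lit 3) (.e (nat_lit 98313) (nat_lit 9) (.e (nat_lit 336213) (nat_lit 13) (.e (nat_lit 393224) (nat_lit 9) .nil))))) .nil)) 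
(.lf (nat_lit 183889) (.g (nat_lit 1837) (.e (nat_lit 57852) (nat_lit 252) (.e (nat_lit 57377) (nat_lit 3) (.e (nat_lit 98317) (nat_lit 9) (.e (nat_lit 336214) (nat_lit 13) (.e (nat_lit 393224) (nat_lit 9) .nil))))) .nil))) (.nd (nat_lit 6) 
(.lf (nat_lit 183857) (.g (nat_lit 3265) (.e (nat_lit 57852) (nat_lit 252) (.e (nat_lit 57377) (nat_lit 3) (.e (nat_lit 98317) (nat_lit 9) (.e (nat_lit 336084) (nat_lit 9) .nil)))) .nil)) 
(.lf (nat_lit 183921) (.g (nat_lit 3017) (.e (nat_lit 57852) (nat_lit 252) (.e (nat_lit 57404) (nat_lit 12) (.e (nat_lit 336013) (nat_lit 2) (.e (nat_lit 90170) (nat_lit 13) (.e (nat_lit 172082) (nat_lit 7) (.e (nat_lit 409612) (nat_lit 10) (.e (nat_lit 602) (nat_lit 45) (.e (nat_lit 532504) (nat_lit 1) .nil)))))))) (.g (nat_lit 4) .nil .nil)))))) 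
(.nd (nat_lit 4) (.nd (nat_lit 5) (.nd (nat_lit 6) 
(.lf (nat_lit 183817) (.g (nat_lit 2743) (.e (nat_lit 57852) (nat_lit 252) (.e (nat_lit 57373) (nat_lit 2) (.e (nat_lit 90160) (nat_lit 11) (.e (nat_lit 24658) (nat_lit 13) (.e (nat_lit 393229) (nat_lit 9) (.e (nat_lit 335988) (nat_lit 1) .nil)))))) (.g (nat_lit 4) .nil .nil))) 
(.lf (nat_lit 183881) (.g (nat_lit 4802) (.e (nat_lit 57852) (nat_lit 252) (.e (nat_lit 57377) (nat_lit 3) (.e (nat_lit 98317) (nat_lit 9) (.e (nat_lit 336202) (nat_lit 12) .nil)))) .nil))) (.nd (nat_lit 6) 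
(.lf (nat_lit 183849) (.g (nat_lit 3842) (.e (nat_lit 57852) (nat_lit 252) (.e (nat_lit 57377) (nat_lit 3) (.e (nat_lit 98317) (nat_lit 9) (.e (nat_lit 336026) (nat_lit 3) .nil)))) .nil)) 
(.lf (nat_lit 183913) (.g (nat_lit 1731) (.e (nat_lit 57852) (nat_lit 252) (.e (nat_lit 57382) (nat_lit 4) (.e (nat_lit 106534) (nat_lit 11) (.e (nat_lit 16463) (nat_lit 13) (.e (nat_lit 483393) (nat_lit 23) .nil))))) .nil)))) (.nd (nat_lit 5) (.nd (nat_lit 6) 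
(.lf (nat_lit 183833) (.g (nat_lit 4456) (.e (nat_lit 57852) (nat_lit 252) (.e (nat_lit 57377) (nat_lit 3) (.e (nat_lit 98317) (nat_lit 9) (.e (nat_lit 335895) (nat_lit 0) .nil)))) .nil)) 
(.lf (nat_lit 183897) (.g (nat_lit 2398) (.e (nat_lit 57852) (nat_lit 252) (.e (nat_lit 57377) (nat_lit 3) (.e (nat_lit 98317) (nat_lit 9) (.e (nat_lit 343808) (nat_lit 13) .nil)))) .nil))) (.nd (nat_lit 6) 
(.lf (nat_lit 183865) (.g (nat_lit 3260) (.e (nat_lit 57852) (nat_lit 252) (.e (nat_lit 57377) (nat_lit 3) (.e (nat_lit 98317) (nat_lit 9) (.e (nat_lit 336087) (nat_lit 9) (.e (nat_lit 336369) (nat_lit 27) .nil))))) .nil)) 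
(.lf (nat_lit 183929) (.g (nat_lit 2452) (.e (nat_lit 57852) (nat_lit 252) (.e (nat_lit 57404) (nat_lit 12) (.e (nat_lit 336056) (nat_lit 7) (.e (nat_lit 319534) (nat_lit 16) (.e (nat_lit 286749) (nat_lit 9) (.e (nat_lit 335997) (nat_lit 1) (.e (nat_lit 57848) (nat_lit 252) (.e (nat_lit 57365) (nat_lit 1) .nil)))))))) (.g (nat_lit 4) .nil .nil))))))) 
(.nd (nat_lit 3) (.nd (nat_lit 4) (.nd (nat_lit 5) (.nd (nat_lit 6) 
(.lf (nat_lit 183813) (.g (nat_lit 1911) (.e (nat_lit 57852) (nat_lit 252) (.e (nat_lit 57373) (nat_lit 2) (.e (nat_lit 90160) (nat_lit 11) (.e (nat_lit 24648) (nat_lit 12) .nil)))) .nil)) 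
(.lf (nat_lit 183877) (.g (nat_lit 3980) (.e (nat_lit 57852) (nat_lit 252) (.e (nat_lit 57377) (nat_lit 3) (.e (nat_lit 98317) (nat_lit 9) (.e (nat_lit 336194) (nat_lit 12) .nil)))) .nil))) (.nd (nat_lit 6) 
(.lf (nat_lit 183845) (.g (nat_lit 4809) (.e (nat_lit 57852) (nat_lit 252) (.e (nat_lit 57377) (nat_lit 3) (.e (nat_lit 98317) (nat_lit 9) (.e (nat_lit 335934) (nat_lit 0) .nil)))) .nil)) 
(.lf (nat_lit 183909) (.g (nat_lit 407) (.e (nat_lit 57852) (nat_lit 252) (.e (nat_lit 57378) (nat_lit 3) (.e (nat_lit 98317) (nat_lit 9) .nil))) .nil)))) (.nd (nat_lit 5) (.nd (nat_lit 6) 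
(.lf (nat_lit 183829) (.g (nat_lit 4810) (.e (nat_lit 57852) (nat_lit 252) (.e (nat_lit 57377) (nat_lit 3) (.e (nat_lit 98317) (nat_lit 9) (.e (nat_lit 335886) (nat_lit 0) .nil)))) .nil)) 
(.lf (nat_lit 183893) (.g (nat_lit 1266) (.e (nat_lit 57852) (nat_lit 252) (.e (nat_lit 57377) (nat_lit 3) (.e (nat_lit 98317) (nat_lit 9) (.e (nat_lit 336222) (nat_lit 13) .nil)))) .nil))) (.nd (nat_lit 6) 
(.lf (nat_lit 183861) (.g (nat_lit 2020) (.e (nat_lit 57852) (nat_lit 252) (.e (nat_lit 57377) (nat_lit 3) (.e (nat_lit 98317) (nat_lit 9) (.e (nat_lit 336086) (nat_lit 9) (.e (nat_lit 336368) (nat_lit 27) .nil))))) .nil)) 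
(.lf (nat_lit 183925) (.g (nat_lit 3002) (.e (nat_lit 57852) (nat_lit 252) (.e (nat_lit 57404) (nat_lit 12) (.e (nat_lit 336054) (nat_lit 7) (.e (nat_lit 319534) (nat_lit 16) (.e (nat_lit 286756) (nat_lit 10) (.e (nat_lit 344097) (nat_lit 18) (.e (nat_lit 5195) (nat_lit 294) (.e (nat_lit 57365) (nat_lit 1) .nil)))))))) (.g (nat_lit 5) .nil .nil)))))) 
(.nd (nat_lit 4) (.nd (nat_lit 5) (.nd (nat_lit 6) 
(.lf (nat_lit 183821) (.g (nat_lit 1795) (.e (nat_lit 57852) (nat_lit 252) (.e (nat_lit 57377) (nat_lit 3) (.e (nat_lit 98313) (nat_lit 9) (.e (nat_lit 336027) (nat_lit 3) (.e (nat_lit 98337) (nat_lit 19) .nil))))) .nil)) 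
(.lf (nat_lit 183885) (.g (nat_lit 4282) (.e (nat_lit 57852) (nat_lit 252) (.e (nat_lit 57377) (nat_lit 3) (.e (nat_lit 98317) (nat_lit 9) (.e (nat_lit 336213) (nat_lit 13) (.e (nat_lit 393225) (nat_lit 9) (.e (nat_lit 335996) (nat_lit 1) .nil)))))) (.g (nat_lit 0) .nil .nil)))) (.nd (nat_lit 6) 
(.lf (nat_lit 183853) (.g (nat_lit 2849) (.e (nat_lit 57852) (nat_lit 252) (.e (nat_lit 57377) (nat_lit 3) (.e (nat_lit 98317) (nat_lit 9) (.e (nat_lit 336027) (nat_lit 3) (.e (nat_lit 98341) (nat_lit 20) .nil))))) .nil)) 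
(.lf (nat_lit 183917) (.g (nat_lit 1330) (.e (nat_lit 57852) (nat_lit 252) (.e (nat_lit 57400) (nat_lit 10) (.e (nat_lit 319490) (nat_lit 0) (.e (nat_lit 5259) (nat_lit 298) .nil)))) .nil)))) (.nd (nat_lit 5) (.nd (nat_lit 6) 
(.lf (nat_lit 183837) (.g (nat_lit 4810) (.e (nat_lit 57852) (nat_lit 252) (.e (nat_lit 57377) (nat_lit 3) (.e (nat_lit 98317) (nat_lit 9) (.e (nat_lit 335910) (nat_lit 0) .nil)))) .nil)) 
(.lf (nat_lit 183901) (.g (nat_lit 473) (.e (nat_lit 57852) (nat_lit 252) (.e (nat_lit 57378) (nat_lit 3) (.e (nat_lit 98313) (nat_lit 9) .nil))) .nil))) (.nd (nat_lit 6) 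
(.lf (nat_lit 183869) (.g (nat_lit 1919) (.e (nat_lit 57852) (nat_lit 252) (.e (nat_lit 57377) (nat_lit 3) (.e (nat_lit 98317) (nat_lit 9) (.e (nat_lit 336088) (nat_lit 9) (.e (nat_lit 336377) (nat_lit 27) .nil))))) .nil)) 
(.lf (nat_lit 183933) (.g (nat_lit 3530) (.e (nat_lit 57852) (nat_lit 252) (.e (nat_lit 57404) (nat_lit 12) (.e (nat_lit 336060) (nat_lit 7) (.e (nat_lit 319533) (nat_lit 16) (.e (nat_lit 286753) (nat_lit 10) (.e (nat_lit 344097) (nat_lit 18) (.e (nat_lit 5195) (nat_lit 294) (.e (nat_lit 57365) (nat_lit 1) .nil)))))))) (.g (nat_lit 7) .nil .nil)))))))) 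
(.nd (nat_lit 2) (.nd (nat_lit 3) (.nd (nat_lit 4) (.nd (nat_lit 5) (.nd (nat_lit 6) 
(.lf (nat_lit 183811) (.g (nat_lit 1472) (.e (nat_lit 57852) (nat_lit 252) (.e (nat_lit 57373) (nat_lit 2) (.e (nat_lit 90160) (nat_lit 11) (.e (nat_lit 24625) (nat_lit 9) .nil)))) .nil)) 
(.lf (nat_lit 183875) (.g (nat_lit 4767) (.e (nat_lit 57852) (nat_lit 252) (.e (nat_lit 57377) (nat_lit 3) (.e (nat_lit 98317) (nat_lit 9) (.e (nat_lit 336150) (nat_lit 9) .nil)))) .nil))) (.nd (nat_lit 6) 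
(.lf (nat_lit 183843) (.g (nat_lit 4810) (.e (nat_lit 57852) (nat_lit 252) (.e (nat_lit 57377) (nat_lit 3) (.e (nat_lit 98317) (nat_lit 9) (.e (nat_lit 335931) (nat_lit 0) .nil)))) .nil)) 
(.lf (nat_lit 183907) (.g (nat_lit 428) (.e (nat_lit 57852) (nat_lit 252) (.e (nat_lit 57378) (nat_lit 3) (.e (nat_lit 98315) (nat_lit 9) .nil))) .nil)))) (.nd (nat_lit 5) (.nd (nat_lit 6) 
(.lf (nat_lit 183827) (.g (nat_lit 2770) (.e (nat_lit 57852) (nat_lit 252) (.e (nat_lit 57377) (nat_lit 3) (.e (nat_lit 98315) (nat_lit 9) (.e (nat_lit 336209) (nat_lit 13) (.e (nat_lit 393225) (nat_lit 9) (.e (nat_lit 335996) (nat_lit 1) .nil)))))) (.g (nat_lit 0) .nil .nil))) 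
(.lf (nat_lit 183891) (.g (nat_lit 2553) (.e (nat_lit 57852) (nat_lit 252) (.e (nat_lit 57377) (nat_lit 3) (.e (nat_lit 98317) (nat_lit 9) (.e (nat_lit 336221) (nat_lit 13) .nil)))) .nil))) (.nd (nat_lit 6) 
(.lf (nat_lit 183859) (.g (nat_lit 2945) (.e (nat_lit 57852) (nat_lit 252) (.e (nat_lit 57377) (nat_lit 3) (.e (nat_lit 98317) (nat_lit 9) (.e (nat_lit 336085) (nat_lit 9) (.e (nat_lit 336366) (nat_lit 27) .nil))))) .nil)) 
(.lf (nat_lit 183923) (.g (nat_lit 2265) (.e (nat_lit 57852) (nat_lit 252) (.e (nat_lit 57404) (nat_lit 12) (.e (nat_lit 336054) (nat_lit 7) (.e (nat_lit 319533) (nat_lit 16) (.e (nat_lit 286753) (nat_lit 10) (.e (nat_lit 344097) (nat_lit 18) (.e (nat_lit 5195) (nat_lit 294) (.e (nat_lit 57365) (nat_lit 1) .nil)))))))) (.g (nat_lit 5) .nil .nil)))))) 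
(.nd (nat_lit 4) (.nd (nat_lit 5) (.nd (nat_lit 6) 
(.lf (nat_lit 183819) (.g (nat_lit 1454) (.e (nat_lit 57852) (nat_lit 252) (.e (nat_lit 57376) (nat_lit 3) (.e (nat_lit 98317) (nat_lit 9) (.e (nat_lit 336215) (nat_lit 13) (.e (nat_lit 393229) (nat_lit 9) .nil))))) .nil)) 
(.lf (nat_lit 183883) (.g (nat_lit 4666) (.e (nat_lit 57852) (nat_lit 252) (.e (nat_lit 57377) (nat_lit 3) (.e (nat_lit 98317) (nat_lit 9) (.e (nat_lit 336204) (nat_lit 12) .nil)))) .nil))) (.nd (nat_lit 6) 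
(.lf (nat_lit 183851) (.g (nat_lit 2974) (.e (nat_lit 57852) (nat_lit 252) (.e (nat_lit 57377) (nat_lit 3) (.e (nat_lit 98317) (nat_lit 9) (.e (nat_lit 336027) (nat_lit 3) (.e (nat_lit 98338) (nat_lit 19) .nil))))) .nil)) 
(.lf (nat_lit 183915) (.g (nat_lit 2288) (.e (nat_lit 57852) (nat_lit 252) (.e (nat_lit 57382) (nat_lit 4) (.e (nat_lit 106536) (nat_lit 11) (.e (nat_lit 16466) (nat_lit 13) (.e (nat_lit 483393) (nat_lit 23) (.e (nat_lit 335987) (nat_lit 1) .nil)))))) (.g (nat_lit 4) .nil .nil))))) (.nd (nat_lit 5) (.nd (nat_lit 6) 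
(.lf (nat_lit 183835) (.g (nat_lit 4584) (.e (nat_lit 57852) (nat_lit 252) (.e (nat_lit 57377) (nat_lit 3) (.e (nat_lit 98317) (nat_lit 9) (.e (nat_lit 335899) (nat_lit 0) .nil)))) .nil)) 
(.lf (nat_lit 183899) (.g (nat_lit 790) (.e (nat_lit 57852) (nat_lit 252) (.e (nat_lit 57378) (nat_lit 3) (.e (nat_lit 98312) (nat_lit 9) (.e (nat_lit 336077) (nat_lit 9) .nil)))) .nil))) (.nd (nat_lit 6) 
(.lf (nat_lit 183867) (.g (nat_lit 3076) (.e (nat_lit 57852) (nat_lit 252) (.e (nat_lit 57377) (nat_lit 3) (.e (nat_lit 98317) (nat_lit 9) (.e (nat_lit 336087) (nat_lit 9) (.e (nat_lit 336455) (nat_lit 34) .nil))))) .nil)) 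
(.lf (nat_lit 183931) (.g (nat_lit 3216) (.e (nat_lit 57852) (nat_lit 252) (.e (nat_lit 57404) (nat_lit 12) (.e (nat_lit 336056) (nat_lit 7) (.e (nat_lit 319534) (nat_lit 16) (.e (nat_lit 286756) (nat_lit 10) (.e (nat_lit 344097) (nat_lit 18) (.e (nat_lit 5194) (nat_lit 294) (.e (nat_lit 57368) (nat_lit 1) .nil)))))))) (.g (nat_lit 5) .nil .nil))))))) 
(.nd (nat_lit 3) (.nd (nat_lit 4) (.nd (nat_lit 5) (.nd (nat_lit 6) 
(.lf (nat_lit 183815) (.g (nat_lit 1416) (.e (nat_lit 57852) (nat_lit 252) (.e (nat_lit 57373) (nat_lit 2) (.e (nat_lit 90160) (nat_lit 11) (.e (nat_lit 24658) (nat_lit 13) .nil)))) .nil)) 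
(.lf (nat_lit 183879) (.g (nat_lit 4666) (.e (nat_lit 57852) (nat_lit 252) (.e (nat_lit 57377) (nat_lit 3) (.e (nat_lit 98317) (nat_lit 9) (.e (nat_lit 336196) (nat_lit 12) (.e (nat_lit 392960) (nat_lit 10) .nil))))) .nil))) (.nd (nat_lit 6) 
(.lf (nat_lit 183847) (.g (nat_lit 4656) (.e (nat_lit 57852) (nat_lit 252) (.e (nat_lit 57377) (nat_lit 3) (.e (nat_lit 98317) (nat_lit 9) (.e (nat_lit 336021) (nat_lit 3) .nil)))) .nil)) 
(.lf (nat_lit 183911) (.g (nat_lit 1201) (.e (nat_lit 57852) (nat_lit 252) (.e (nat_lit 57378) (nat_lit 3) (.e (nat_lit 98341) (nat_lit 20) (.e (nat_lit 221214) (nat_lit 23) .nil)))) .nil)))) (.nd (nat_lit 5) (.nd (nat_lit 6) 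
(.lf (nat_lit 183831) (.g (nat_lit 4810) (.e (nat_lit 57852) (nat_lit 252) (.e (nat_lit 57377) (nat_lit 3) (.e (nat_lit 98317) (nat_lit 9) (.e (nat_lit 335893) (nat_lit 0) .nil)))) .nil)) 
(.lf (nat_lit 183895) (.g (nat_lit 3720) (.e (nat_lit 57852) (nat_lit 252) (.e (nat_lit 57377) (nat_lit 3) (.e (nat_lit 98317) (nat_lit 9) (.e (nat_lit 336223) (nat_lit 13) (.e (nat_lit 393225) (nat_lit 9) (.e (nat_lit 335996) (nat_lit 1) .nil)))))) (.g (nat_lit 0) .nil .nil)))) (.nd (nat_lit 6) 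
(.lf (nat_lit 183863) (.g (nat_lit 2593) (.e (nat_lit 57852) (nat_lit 252) (.e (nat_lit 57377) (nat_lit 3) (.e (nat_lit 98317) (nat_lit 9) (.e (nat_lit 336087) (nat_lit 9) .nil)))) .nil)) 
(.lf (nat_lit 183927) (.g (nat_lit 2763) (.e (nat_lit 57852) (nat_lit 252) (.e (nat_lit 57404) (nat_lit 12) (.e (nat_lit 336056) (nat_lit 7) (.e (nat_lit 319533) (nat_lit 16) (.e (nat_lit 286753) (nat_lit 10) (.e (nat_lit 344097) (nat_lit 18) (.e (nat_lit 5195) (nat_lit 294) (.e (nat_lit 57365) (nat_lit 1) .nil)))))))) (.g (nat_lit 5) .nil .nil)))))) 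
(.nd (nat_lit 4) (.nd (nat_lit 5) (.nd (nat_lit 6) 
(.lf (nat_lit 183823) (.g (nat_lit 2653) (.e (nat_lit 57852) (nat_lit 252) (.e (nat_lit 57377) (nat_lit 3) (.e (nat_lit 98313) (nat_lit 9) (.e (nat_lit 336078) (nat_lit 9) (.e (nat_lit 336454) (nat_lit 34) (.e (nat_lit 483364) (nat_lit 18) .nil)))))) (.g (nat_lit 5) .nil .nil))) 
(.lf (nat_lit 183887) (.g (nat_lit 3096) (.e (nat_lit 57852) (nat_lit 252) (.e (nat_lit 57377) (nat_lit 3) (.e (nat_lit 98317) (nat_lit 9) (.e (nat_lit 336213) (nat_lit 13) (.e (nat_lit 393229) (nat_lit 9) (.e (nat_lit 335994) (nat_lit 1) .nil)))))) (.g (nat_lit 5) .nil .nil)))) (.nd (nat_lit 6) 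
(.lf (nat_lit 183855) (.g (nat_lit 3571) (.e (nat_lit 57852) (nat_lit 252) (.e (nat_lit 57377) (nat_lit 3) (.e (nat_lit 98317) (nat_lit 9) (.e (nat_lit 336074) (nat_lit 9) .nil)))) .nil)) 
(.lf (nat_lit 183919) (.g (nat_lit 2524) (.e (nat_lit 57852) (nat_lit 252) (.e (nat_lit 57400) (nat_lit 10) (.e (nat_lit 319490) (nat_lit 0) (.e (nat_lit 5259) (nat_lit 298) (.e (nat_lit 456) (nat_lit 34) (.e (nat_lit 450304) (nat_lit 5) (.e (nat_lit 114712) (nat_lit 21) .nil))))))) (.g (nat_lit 4) .nil .nil))))) (.nd (nat_lit 5) (.nd (nat_lit 6) 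
(.lf (nat_lit 183839) (.g (nat_lit 4810) (.e (nat_lit 57852) (nat_lit 252) (.e (nat_lit 57377) (nat_lit 3) (.e (nat_lit 98317) (nat_lit 9) (.e (nat_lit 335912) (nat_lit 0) .nil)))) .nil)) 
(.lf (nat_lit 183903) (.g (nat_lit 2016) (.e (nat_lit 57852) (nat_lit 252) (.e (nat_lit 57378) (nat_lit 3) (.e (nat_lit 98313) (nat_lit 9) (.e (nat_lit 336027) (nat_lit 3) (.e (nat_lit 98337) (nat_lit 19) .nil))))) .nil))) (.nd (nat_lit 6) 
(.lf (nat_lit 183871) (.g (nat_lit 4417) (.e (nat_lit 57852) (nat_lit 252) (.e (nat_lit 57377) (nat_lit 3) (.e (nat_lit 98317) (nat_lit 9) (.e (nat_lit 336100) (nat_lit 9) .nil)))) .nil)) 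
(.lf (nat_lit 183935) (.g (nat_lit 3929) (.e (nat_lit 57852) (nat_lit 252) (.e (nat_lit 57404) (nat_lit 12) (.e (nat_lit 336060) (nat_lit 7) (.e (nat_lit 319534) (nat_lit 16) (.e (nat_lit 286756) (nat_lit 10) (.e (nat_lit 344097) (nat_lit 18) (.e (nat_lit 5195) (nat_lit 294) (.e (nat_lit 57365) (nat_lit 1) .nil)))))))) (.g (nat_lit 7) .nil .nil))))))))))

noncomputable def tv2452 : DT := (.nd (nat_lit 0) (.nd (nat_lit 1) (.nd (nat_lit 2) (.nd (nat_lit 3) (.nd (nat_lit 4) (.nd (nat_lit 5) (.nd (nat_lit 6) 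
(.lf (nat_lit 183936) (.g (nat_lit 1651) (.e (nat_lit 57852) (nat_lit 252) (.e (nat_lit 57404) (nat_lit 12) (.e (nat_lit 336224) (nat_lit 13) (.e (nat_lit 393274) (nat_lit 23) (.e (nat_lit 433920) (nat_lit 20) (.e (nat_lit 114712) (nat_lit 21) .nil)))))) (.g (nat_lit 4) .nil .nil))) 
(.lf (nat_lit 184000) (.g (nat_lit 1985) (.e (nat_lit 57852) (nat_lit 252) (.e (nat_lit 57406) (nat_lit 12) (.e (nat_lit 336456) (nat_lit 34) (.e (nat_lit 483406) (nat_lit 26) (.e (nat_lit 385066) (nat_lit 26) .nil))))) .nil))) (.nd (nat_lit 6) 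
(.lf (nat_lit 183968) (.g (nat_lit 2970) (.e (nat_lit 57852) (nat_lit 252) (.e (nat_lit 57406) (nat_lit 12) (.e (nat_lit 336360) (nat_lit 25) (.e (nat_lit 409649) (nat_lit 18) (.e (nat_lit 303132) (nat_lit 9) (.e (nat_lit 426109) (nat_lit 1) (.e (nat_lit 164179) (nat_lit 154) (.e (nat_lit 57364) (nat_lit 1) .nil)))))))) (.g (nat_lit 4) .nil .nil))) 
(.lf (nat_lit 184032) (.g (nat_lit 3321) (.e (nat_lit 57852) (nat_lit 252) (.e (nat_lit 57409) (nat_lit 12) (.e (nat_lit 336414) (nat_lit 27) (.e (nat_lit 426503) (nat_lit 27) (.e (nat_lit 336076) (nat_lit 9) (.e (nat_lit 336324) (nat_lit 18) (.e (nat_lit 204830) (nat_lit 18) .nil))))))) (.g (nat_lit 5) .nil .nil))))) (.nd (nat_lit 5) (.nd (nat_lit 6) 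
(.lf (nat_lit 183952) (.g (nat_lit 2732) (.e (nat_lit 57852) (nat_lit 252) (.e (nat_lit 57406) (nat_lit 12) (.e (nat_lit 336326) (nat_lit 18) (.e (nat_lit 204869) (nat_lit 29) (.e (nat_lit 360448) (nat_lit 0) .nil))))) .nil)) 
(.lf (nat_lit 184016) (.g (nat_lit 1532) (.e (nat_lit 57852) (nat_lit 252) (.e (nat_lit 57409) (nat_lit 12) (.e (nat_lit 336211) (nat_lit 13) (.e (nat_lit 393293) (nat_lit 26) (.e (nat_lit 475213) (nat_lit 42) .nil))))) .nil))) (.nd (nat_lit 6) 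
(.lf (nat_lit 183984) (.g (nat_lit 2589) (.e (nat_lit 57852) (nat_lit 252) (.e (nat_lit 57406) (nat_lit 12) (.e (nat_lit 336446) (nat_lit 33) (.e (nat_lit 475214) (nat_lit 42) (.e (nat_lit 720955) (nat_lit 25) (.e (nat_lit 114712) (nat_lit 21) (.e (nat_lit 57851) (nat_lit 252) (.e (nat_lit 57364) (nat_lit 1) .nil)))))))) (.g (nat_lit 4) .nil .nil))) 
(.lf (nat_lit 184048) (.g (nat_lit 2669) (.e (nat_lit 57852) (nat_lit 252) (.e (nat_lit 57412) (nat_lit 12) (.e (nat_lit 336058) (nat_lit 7) (.e (nat_lit 319534) (nat_lit 16) (.e (nat_lit 286749) (nat_lit 9) (.e (nat_lit 335997) (nat_lit 1) (.e (nat_lit 57848) (nat_lit 252) (.e (nat_lit 57368) (nat_lit 1) .nil)))))))) (.g (nat_lit 4) .nil .nil)))))) 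
(.nd (nat_lit 4) (.nd (nat_lit 5) (.nd (nat_lit 6) 
(.lf (nat_lit 183944) (.g (nat_lit 2843) (.e (nat_lit 57852) (nat_lit 252) (.e (nat_lit 57406) (nat_lit 12) (.e (nat_lit 336310) (nat_lit 16) (.e (nat_lit 164178) (nat_lit 154) (.e (nat_lit 57437) (nat_lit 17) (.e (nat_lit 376860) (nat_lit 21) (.e (nat_lit 57854) (nat_lit 252) (.e (nat_lit 57366) (nat_lit 1) .nil)))))))) (.g (nat_lit 5) .nil .nil))) 
(.lf (nat_lit 184008) (.g (nat_lit 2498) (.e (nat_lit 57852) (nat_lit 252) (.e (nat_lit 57409) (nat_lit 12) (.e (nat_lit 336211) (nat_lit 13) (.e (nat_lit 393270) (nat_lit 23) (.e (nat_lit 426446) (nat_lit 20) (.e (nat_lit 114712) (nat_lit 21) .nil)))))) (.g (nat_lit 0) .nil .nil)))) (.nd (nat_lit 6) 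
(.lf (nat_lit 183976) (.g (nat_lit 3745) (.e (nat_lit 57852) (nat_lit 252) (.e (nat_lit 57406) (nat_lit 12) (.e (nat_lit 336370) (nat_lit 27) (.e (nat_lit 426499) (nat_lit 27) (.e (nat_lit 336196) (nat_lit 12) (.e (nat_lit 385066) (nat_lit 26) (.e (nat_lit 532504) (nat_lit 1) .nil))))))) (.g (nat_lit 5) .nil .nil))) 
(.lf (nat_lit 184040) (.g (nat_lit 3416) (.e (nat_lit 57852) (nat_lit 252) (.e (nat_lit 57409) (nat_lit 12) (.e (nat_lit 336456) (nat_lit 34) (.e (nat_lit 483383) (nat_lit 23) (.e (nat_lit 336324) (nat_lit 18) (.e (nat_lit 204830) (nat_lit 18) .nil)))))) (.g (nat_lit 5) .nil .nil))))) (.nd (nat_lit 5) (.nd (nat_lit 6) 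
(.lf (nat_lit 183960) (.g (nat_lit 4552) (.e (nat_lit 57852) (nat_lit 252) (.e (nat_lit 57406) (nat_lit 12) (.e (nat_lit 336326) (nat_lit 18) (.e (nat_lit 204869) (nat_lit 29) (.e (nat_lit 360451) (nat_lit 0) (.e (nat_lit 7695) (nat_lit 412) (.e (nat_lit 57368) (nat_lit 1) .nil))))))) (.g (nat_lit 5) .nil .nil))) 
(.lf (nat_lit 184024) (.g (nat_lit 2585) (.e (nat_lit 57852) (nat_lit 252) (.e (nat_lit 57409) (nat_lit 12) (.e (nat_lit 336369) (nat_lit 27) (.e (nat_lit 426499) (nat_lit 27) (.e (nat_lit 336075) (nat_lit 9) .nil))))) .nil))) (.nd (nat_lit 6) 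
(.lf (nat_lit 183992) (.g (nat_lit 1950) (.e (nat_lit 57852) (nat_lit 252) (.e (nat_lit 57406) (nat_lit 12) (.e (nat_lit 336454) (nat_lit 34) (.e (nat_lit 483402) (nat_lit 26) (.e (nat_lit 385066) (nat_lit 26) .nil))))) .nil)) 
(.lf (nat_lit 184056) (.g (nat_lit 2758) (.e (nat_lit 57852) (nat_lit 252) (.e (nat_lit 57412) (nat_lit 12) (.e (nat_lit 336061) (nat_lit 7) (.e (nat_lit 319531) (nat_lit 16) (.e (nat_lit 286750) (nat_lit 9) (.e (nat_lit 335986) (nat_lit 1) (.e (nat_lit 57847) (nat_lit 252) (.e (nat_lit 57365) (nat_lit 1) .nil)))))))) (.g (nat_lit 4) .nil .nil))))))) 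
(.nd (nat_lit 3) (.nd (nat_lit 4) (.nd (nat_lit 5) (.nd (nat_lit 6) 
(.lf (nat_lit 183940) (.g (nat_lit 690) (.e (nat_lit 57852) (nat_lit 252) (.e (nat_lit 57406) (nat_lit 12) (.e (nat_lit 336146) (nat_lit 9) .nil))) .nil)) 
(.lf (nat_lit 184004) (.g (nat_lit 1909) (.e (nat_lit 57852) (nat_lit 252) (.e (nat_lit 57409) (nat_lit 12) (.e (nat_lit 336211) (nat_lit 13) (.e (nat_lit 393268) (nat_lit 23) (.e (nat_lit 426361) (nat_lit 15) (.e (nat_lit 2195) (nat_lit 144) (.e (nat_lit 720932) (nat_lit 21) .nil))))))) (.g (nat_lit 4) .nil .nil)))) (.nd (nat_lit 6) 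
(.lf (nat_lit 183972) (.g (nat_lit 2735) (.e (nat_lit 57852) (nat_lit 252) (.e (nat_lit 57406) (nat_lit 12) (.e (nat_lit 336360) (nat_lit 25) (.e (nat_lit 409649) (nat_lit 18) (.e (nat_lit 303140) (nat_lit 10) (.e (nat_lit 434199) (nat_lit 18) (.e (nat_lit 6401) (nat_lit 339) (.e (nat_lit 57368) (nat_lit 1) .nil)))))))) (.g (nat_lit 4) .nil .nil))) 
(.lf (nat_lit 184036) (.g (nat_lit 1402) (.e (nat_lit 57852) (nat_lit 252) (.e (nat_lit 57409) (nat_lit 12) (.e (nat_lit 336454) (nat_lit 34) (.e (nat_lit 483384) (nat_lit 23) (.e (nat_lit 336325) (nat_lit 18) .nil))))) .nil)))) (.nd (nat_lit 5) (.nd (nat_lit 6) 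
(.lf (nat_lit 183956) (.g (nat_lit 4640) (.e (nat_lit 57852) (nat_lit 252) (.e (nat_lit 57406) (nat_lit 12) (.e (nat_lit 336326) (nat_lit 18) (.e (nat_lit 204869) (nat_lit 29) (.e (nat_lit 360450) (nat_lit 0) (.e (nat_lit 7695) (nat_lit 412) (.e (nat_lit 57368) (nat_lit 1) .nil))))))) (.g (nat_lit 5) .nil .nil))) 
(.lf (nat_lit 184020) (.g (nat_lit 4091) (.e (nat_lit 57852) (nat_lit 252) (.e (nat_lit 57409) (nat_lit 12) (.e (nat_lit 336369) (nat_lit 27) (.e (nat_lit 426497) (nat_lit 27) (.e (nat_lit 336194) (nat_lit 12) (.e (nat_lit 385066) (nat_lit 26) (.e (nat_lit 532501) (nat_lit 1) .nil))))))) (.g (nat_lit 6) .nil .nil)))) (.nd (nat_lit 6) 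
(.lf (nat_lit 183988) (.g (nat_lit 1392) (.e (nat_lit 57852) (nat_lit 252) (.e (nat_lit 57406) (nat_lit 12) (.e (nat_lit 336450) (nat_lit 33) (.e (nat_lit 475213) (nat_lit 42) .nil)))) .nil)) 
(.lf (nat_lit 184052) (.g (nat_lit 2987) (.e (nat_lit 57852) (nat_lit 252) (.e (nat_lit 57412) (nat_lit 12) (.e (nat_lit 336060) (nat_lit 7) (.e (nat_lit 319534) (nat_lit 16) (.e (nat_lit 286756) (nat_lit 10) (.e (nat_lit 344097) (nat_lit 18) (.e (nat_lit 5194) (nat_lit 294) (.e (nat_lit 57365) (nat_lit 1) .nil)))))))) (.g (nat_lit 5) .nil .nil)))))) 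
(.nd (nat_lit 4) (.nd (nat_lit 5) (.nd (nat_lit 6) 
(.lf (nat_lit 183948) (.g (nat_lit 676) (.e (nat_lit 57852) (nat_lit 252) (.e (nat_lit 57406) (nat_lit 12) (.e (nat_lit 336316) (nat_lit 17) .nil))) .nil)) 
(.lf (nat_lit 184012) (.g (nat_lit 2157) (.e (nat_lit 57852) (nat_lit 252) (.e (nat_lit 57409) (nat_lit 12) (.e (nat_lit 336211) (nat_lit 13) (.e (nat_lit 393273) (nat_lit 23) (.e (nat_lit 426364) (nat_lit 15) (.e (nat_lit 2184) (nat_lit 144) (.e (nat_lit 720934) (nat_lit 21) .nil))))))) (.g (nat_lit 4) .nil .nil)))) (.nd (nat_lit 6) 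
(.lf (nat_lit 183980) (.g (nat_lit 2338) (.e (nat_lit 57852) (nat_lit 252) (.e (nat_lit 57406) (nat_lit 12) (.e (nat_lit 336445) (nat_lit 33) (.e (nat_lit 475214) (nat_lit 42) (.e (nat_lit 720955) (nat_lit 25) (.e (nat_lit 114711) (nat_lit 21) (.e (nat_lit 57847) (nat_lit 252) (.e (nat_lit 57365) (nat_lit 1) .nil)))))))) (.g (nat_lit 4) .nil .nil))) 
(.lf (nat_lit 184044) (.g (nat_lit 1768) (.e (nat_lit 57852) (nat_lit 252) (.e (nat_lit 57409) (nat_lit 12) (.e (nat_lit 336456) (nat_lit 34) (.e (nat_lit 483406) (nat_lit 26) (.e (nat_lit 385065) (nat_lit 26) .nil))))) .nil)))) (.nd (nat_lit 5) (.nd (nat_lit 6) 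
(.lf (nat_lit 183964) (.g (nat_lit 1968) (.e (nat_lit 57852) (nat_lit 252) (.e (nat_lit 57406) (nat_lit 12) (.e (nat_lit 336326) (nat_lit 18) (.e (nat_lit 204870) (nat_lit 29) (.e (nat_lit 360453) (nat_lit 0) .nil))))) .nil)) 
(.lf (nat_lit 184028) (.g (nat_lit 1996) (.e (nat_lit 57852) (nat_lit 252) (.e (nat_lit 57409) (nat_lit 12) (.e (nat_lit 336369) (nat_lit 27) (.e (nat_lit 426513) (nat_lit 27) (.e (nat_lit 336194) (nat_lit 12) .nil))))) .nil))) (.nd (nat_lit 6) 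
(.lf (nat_lit 183996) (.g (nat_lit 1691) (.e (nat_lit 57852) (nat_lit 252) (.e (nat_lit 57406) (nat_lit 12) (.e (nat_lit 336456) (nat_lit 34) (.e (nat_lit 491264) (nat_lit 23) .nil)))) .nil)) 
(.lf (nat_lit 184060) (.g (nat_lit 2337) (.e (nat_lit 57852) (nat_lit 252) (.e (nat_lit 57412) (nat_lit 12) (.e (nat_lit 336061) (nat_lit 7) (.e (nat_lit 319531) (nat_lit 16) (.e (nat_lit 286755) (nat_lit 10) .nil))))) .nil))))))) (.nd (nat_lit 2) (.nd (nat_lit 3) (.nd (nat_lit 4) (.nd (nat_lit 5) (.nd (nat_lit 6) 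
(.lf (nat_lit 183938) (.g (nat_lit 2629) (.e (nat_lit 57852) (nat_lit 252) (.e (nat_lit 57405) (nat_lit 12) (.e (nat_lit 336454) (nat_lit 34) (.e (nat_lit 483408) (nat_lit 26) (.e (nat_lit 385068) (nat_lit 26) .nil))))) .nil)) 
(.lf (nat_lit 184002) (.g (nat_lit 1513) (.e (nat_lit 57852) (nat_lit 252) (.e (nat_lit 57408) (nat_lit 12) (.e (nat_lit 336454) (nat_lit 34) (.e (nat_lit 483382) (nat_lit 23) .nil)))) .nil))) (.nd (nat_lit 6) 
(.lf (nat_lit 183970) (.g (nat_lit 4100) (.e (nat_lit 57852) (nat_lit 252) (.e (nat_lit 57406) (nat_lit 12) (.e (nat_lit 336360) (nat_lit 25) (.e (nat_lit 409649) (nat_lit 18) (.e (nat_lit 303132) (nat_lit 9) (.e (nat_lit 426109) (nat_lit 1) (.e (nat_lit 164182) (nat_lit 154) (.e (nat_lit 57368) (nat_lit 1) .nil)))))))) (.g (nat_lit 6) .nil .nil))) 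
(.lf (nat_lit 184034) (.g (nat_lit 1702) (.e (nat_lit 57852) (nat_lit 252) (.e (nat_lit 57409) (nat_lit 12) (.e (nat_lit 336414) (nat_lit 27) (.e (nat_lit 426503) (nat_lit 27) (.e (nat_lit 336196) (nat_lit 12) .nil))))) .nil)))) (.nd (nat_lit 5) (.nd (nat_lit 6) 
(.lf (nat_lit 183954) (.g (nat_lit 2795) (.e (nat_lit 57852) (nat_lit 252) (.e (nat_lit 57406) (nat_lit 12) (.e (nat_lit 336326) (nat_lit 18) (.e (nat_lit 204869) (nat_lit 29) (.e (nat_lit 360448) (nat_lit 0) (.e (nat_lit 7695) (nat_lit 412) (.e (nat_lit 57368) (nat_lit 1) .nil))))))) (.g (nat_lit 4) .nil .nil))) 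
(.lf (nat_lit 184018) (.g (nat_lit 1547) (.e (nat_lit 57852) (nat_lit 252) (.e (nat_lit 57409) (nat_lit 12) (.e (nat_lit 336367) (nat_lit 27) (.e (nat_lit 426530) (nat_lit 27) (.e (nat_lit 336116) (nat_lit 9) .nil))))) .nil))) (.nd (nat_lit 6) 
(.lf (nat_lit 183986) (.g (nat_lit 2979) (.e (nat_lit 57852) (nat_lit 252) (.e (nat_lit 57406) (nat_lit 12) (.e (nat_lit 336448) (nat_lit 33) (.e (nat_lit 475214) (nat_lit 42) (.e (nat_lit 720956) (nat_lit 25) (.e (nat_lit 114711) (nat_lit 21) (.e (nat_lit 57847) (nat_lit 252) (.e (nat_lit 57365) (nat_lit 1) .nil)))))))) (.g (nat_lit 4) .nil .nil))) 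
(.lf (nat_lit 184050) (.g (nat_lit 2685) (.e (nat_lit 57852) (nat_lit 252) (.e (nat_lit 57412) (nat_lit 12) (.e (nat_lit 336058) (nat_lit 7) (.e (nat_lit 319534) (nat_lit 16) (.e (nat_lit 286756) (nat_lit 10) (.e (nat_lit 344097) (nat_lit 18) (.e (nat_lit 5195) (nat_lit 294) (.e (nat_lit 57365) (nat_lit 1) .nil)))))))) (.g (nat_lit 4) .nil .nil)))))) 
(.nd (nat_lit 4) (.nd (nat_lit 5) (.nd (nat_lit 6) 
(.lf (nat_lit 183946) (.g (nat_lit 2621) (.e (nat_lit 57852) (nat_lit 252) (.e (nat_lit 57406) (nat_lit 12) (.e (nat_lit 336310) (nat_lit 16) (.e (nat_lit 164179) (nat_lit 154) (.e (nat_lit 57436) (nat_lit 17) (.e (nat_lit 376860) (nat_lit 21) (.e (nat_lit 57854) (nat_lit 252) (.e (nat_lit 57366) (nat_lit 1) .nil)))))))) (.g (nat_lit 4) .nil .nil))) 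
(.lf (nat_lit 184010) (.g (nat_lit 2303) (.e (nat_lit 57852) (nat_lit 252) (.e (nat_lit 57409) (nat_lit 12) (.e (nat_lit 336211) (nat_lit 13) (.e (nat_lit 393271) (nat_lit 23) (.e (nat_lit 433920) (nat_lit 20) (.e (nat_lit 114710) (nat_lit 21) .nil)))))) (.g (nat_lit 4) .nil .nil)))) (.nd (nat_lit 6) 
(.lf (nat_lit 183978) (.g (nat_lit 2853) (.e (nat_lit 57852) (nat_lit 252) (.e (nat_lit 57406) (nat_lit 12) (.e (nat_lit 336445) (nat_lit 33) (.e (nat_lit 475212) (nat_lit 42) (.e (nat_lit 720956) (nat_lit 25) (.e (nat_lit 114711) (nat_lit 21) (.e (nat_lit 57847) (nat_lit 252) (.e (nat_lit 57365) (nat_lit 1) .nil)))))))) (.g (nat_lit 4) .nil .nil))) 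
(.lf (nat_lit 184042) (.g (nat_lit 1293) (.e (nat_lit 57852) (nat_lit 252) (.e (nat_lit 57409) (nat_lit 12) (.e (nat_lit 336456) (nat_lit 34) (.e (nat_lit 483391) (nat_lit 23) .nil)))) .nil)))) (.nd (nat_lit 5) (.nd (nat_lit 6) 
(.lf (nat_lit 183962) (.g (nat_lit 3183) (.e (nat_lit 57852) (nat_lit 252) (.e (nat_lit 57406) (nat_lit 12) (.e (nat_lit 336326) (nat_lit 18) (.e (nat_lit 204869) (nat_lit 29) (.e (nat_lit 360456) (nat_lit 0) (.e (nat_lit 7936) (nat_lit 412) (.e (nat_lit 57364) (nat_lit 1) .nil))))))) (.g (nat_lit 4) .nil .nil))) 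
(.lf (nat_lit 184026) (.g (nat_lit 3877) (.e (nat_lit 57852) (nat_lit 252) (.e (nat_lit 57409) (nat_lit 12) (.e (nat_lit 336369) (nat_lit 27) (.e (nat_lit 426501) (nat_lit 27) (.e (nat_lit 336194) (nat_lit 12) (.e (nat_lit 385066) (nat_lit 26) (.e (nat_lit 532501) (nat_lit 1) .nil))))))) (.g (nat_lit 6) .nil .nil)))) (.nd (nat_lit 6) 
(.lf (nat_lit 183994) (.g (nat_lit 1245) (.e (nat_lit 57852) (nat_lit 252) (.e (nat_lit 57406) (nat_lit 12) (.e (nat_lit 336454) (nat_lit 34) (.e (nat_lit 483407) (nat_lit 26) .nil)))) .nil)) 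
(.lf (nat_lit 184058) (.g (nat_lit 2541) (.e (nat_lit 57852) (nat_lit 252) (.e (nat_lit 57412) (nat_lit 12) (.e (nat_lit 336061) (nat_lit 7) (.e (nat_lit 319531) (nat_lit 16) (.e (nat_lit 286751) (nat_lit 10) (.e (nat_lit 344097) (nat_lit 18) (.e (nat_lit 5194) (nat_lit 294) (.e (nat_lit 57368) (nat_lit 1) .nil)))))))) (.g (nat_lit 4) .nil .nil))))))) 
(.nd (nat_lit 3) (.nd (nat_lit 4) (.nd (nat_lit 5) (.nd (nat_lit 6) 
(.lf (nat_lit 183942) (.g (nat_lit 653) (.e (nat_lit 57852) (nat_lit 252) (.e (nat_lit 57406) (nat_lit 12) (.e (nat_lit 336211) (nat_lit 13) .nil))) .nil)) 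
(.lf (nat_lit 184006) (.g (nat_lit 1760) (.e (nat_lit 57852) (nat_lit 252) (.e (nat_lit 57409) (nat_lit 12) (.e (nat_lit 336211) (nat_lit 13) (.e (nat_lit 393268) (nat_lit 23) (.e (nat_lit 426361) (nat_lit 15) (.e (nat_lit 2206) (nat_lit 144) (.e (nat_lit 720930) (nat_lit 21) .nil))))))) (.g (nat_lit 4) .nil .nil)))) (.nd (nat_lit 6) 
(.lf (nat_lit 183974) (.g (nat_lit 2845) (.e (nat_lit 57852) (nat_lit 252) (.e (nat_lit 57406) (nat_lit 12) (.e (nat_lit 336360) (nat_lit 25) (.e (nat_lit 409649) (nat_lit 18) (.e (nat_lit 303140) (nat_lit 10) (.e (nat_lit 434209) (nat_lit 18) (.e (nat_lit 6391) (nat_lit 339) (.e (nat_lit 57368) (nat_lit 1) .nil)))))))) (.g (nat_lit 4) .nil .nil))) 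
(.lf (nat_lit 184038) (.g (nat_lit 1800) (.e (nat_lit 57852) (nat_lit 252) (.e (nat_lit 57409) (nat_lit 12) (.e (nat_lit 336454) (nat_lit 34) (.e (nat_lit 483408) (nat_lit 26) (.e (nat_lit 385064) (nat_lit 26) .nil))))) .nil)))) (.nd (nat_lit 5) (.nd (nat_lit 6) 
(.lf (nat_lit 183958) (.g (nat_lit 3572) (.e (nat_lit 57852) (nat_lit 252) (.e (nat_lit 57406) (nat_lit 12) (.e (nat_lit 336326) (nat_lit 18) (.e (nat_lit 204869) (nat_lit 29) (.e (nat_lit 360451) (nat_lit 0) (.e (nat_lit 7695) (nat_lit 412) (.e (nat_lit 57365) (nat_lit 1) .nil))))))) (.g (nat_lit 4) .nil .nil))) 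
(.lf (nat_lit 184022) (.g (nat_lit 1943) (.e (nat_lit 57852) (nat_lit 252) (.e (nat_lit 57409) (nat_lit 12) (.e (nat_lit 336369) (nat_lit 27) (.e (nat_lit 426498) (nat_lit 27) (.e (nat_lit 336077) (nat_lit 9) .nil))))) .nil))) (.nd (nat_lit 6) 
(.lf (nat_lit 183990) (.g (nat_lit 2813) (.e (nat_lit 57852) (nat_lit 252) (.e (nat_lit 57406) (nat_lit 12) (.e (nat_lit 336454) (nat_lit 34) (.e (nat_lit 483379) (nat_lit 23) .nil)))) .nil)) 
(.lf (nat_lit 184054) (.g (nat_lit 2603) (.e (nat_lit 57852) (nat_lit 252) (.e (nat_lit 57412) (nat_lit 12) (.e (nat_lit 336061) (nat_lit 7) (.e (nat_lit 319531) (nat_lit 16) (.e (nat_lit 286742) (nat_lit 9) (.e (nat_lit 335997) (nat_lit 1) (.e (nat_lit 57848) (nat_lit 252) (.e (nat_lit 57368) (nat_lit 1) .nil)))))))) (.g (nat_lit 4) .nil .nil)))))) 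
(.nd (nat_lit 4) (.nd (nat_lit 5) (.nd (nat_lit 6) 
(.lf (nat_lit 183950) (.g (nat_lit 1959) (.e (nat_lit 57852) (nat_lit 252) (.e (nat_lit 57406) (nat_lit 12) (.e (nat_lit 336324) (nat_lit 18) (.e (nat_lit 204868) (nat_lit 29) .nil)))) .nil)) 
(.lf (nat_lit 184014) (.g (nat_lit 976) (.e (nat_lit 57852) (nat_lit 252) (.e (nat_lit 57409) (nat_lit 12) (.e (nat_lit 336211) (nat_lit 13) (.e (nat_lit 393278) (nat_lit 23) (.e (nat_lit 433920) (nat_lit 20) .nil))))) .nil))) (.nd (nat_lit 6) 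
(.lf (nat_lit 183982) (.g (nat_lit 3133) (.e (nat_lit 57852) (nat_lit 252) (.e (nat_lit 57406) (nat_lit 12) (.e (nat_lit 336446) (nat_lit 33) (.e (nat_lit 475214) (nat_lit 42) (.e (nat_lit 720955) (nat_lit 25) (.e (nat_lit 114711) (nat_lit 21) (.e (nat_lit 57847) (nat_lit 252) (.e (nat_lit 57365) (nat_lit 1) .nil)))))))) (.g (nat_lit 4) .nil .nil))) 
(.lf (nat_lit 184046) (.g (nat_lit 2596) (.e (nat_lit 57852) (nat_lit 252) (.e (nat_lit 57412) (nat_lit 12) (.e (nat_lit 336054) (nat_lit 7) (.e (nat_lit 319534) (nat_lit 16) (.e (nat_lit 286756) (nat_lit 10) (.e (nat_lit 344097) (nat_lit 18) (.e (nat_lit 5195) (nat_lit 294) (.e (nat_lit 57368) (nat_lit 1) .nil)))))))) (.g (nat_lit 4) .nil .nil))))) (.nd (nat_lit 5) (.nd (nat_lit 6) 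
(.lf (nat_lit 183966) (.g (nat_lit 2217) (.e (nat_lit 57852) (nat_lit 252) (.e (nat_lit 57406) (nat_lit 12) (.e (nat_lit 336360) (nat_lit 25) (.e (nat_lit 409648) (nat_lit 18) (.e (nat_lit 303137) (nat_lit 10) (.e (nat_lit 434199) (nat_lit 18) (.e (nat_lit 6400) (nat_lit 339) (.e (nat_lit 57368) (nat_lit 1) .nil)))))))) (.g (nat_lit 4) .nil .nil))) 
(.lf (nat_lit 184030) (.g (nat_lit 568) (.e (nat_lit 57852) (nat_lit 252) (.e (nat_lit 57409) (nat_lit 12) (.e (nat_lit 336375) (nat_lit 27) .nil))) .nil))) (.nd (nat_lit 6) 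
(.lf (nat_lit 183998) (.g (nat_lit 1608) (.e (nat_lit 57852) (nat_lit 252) (.e (nat_lit 57406) (nat_lit 12) (.e (nat_lit 336456) (nat_lit 34) (.e (nat_lit 483403) (nat_lit 26) .nil)))) .nil)) 
(.lf (nat_lit 184062) (.g (nat_lit 2809) (.e (nat_lit 57852) (nat_lit 252) (.e (nat_lit 57412) (nat_lit 12) (.e (nat_lit 336061) (nat_lit 7) (.e (nat_lit 319531) (nat_lit 16) (.e (nat_lit 286756) (nat_lit 10) (.e (nat_lit 344097) (nat_lit 18) (.e (nat_lit 5195) (nat_lit 294) (.e (nat_lit 57365) (nat_lit 1) .nil)))))))) (.g (nat_lit 4) .nil .nil))))))))) 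
(.nd (nat_lit 1) (.nd (nat_lit 2) (.nd (nat_lit 3) (.nd (nat_lit 4) (.nd (nat_lit 5) 
(.nd (nat_lit 6) 
(.lf (nat_lit 183937) (.g (nat_lit 2631) (.e (nat_lit 57852) (nat_lit 252) (.e (nat_lit 57404) (nat_lit 12) (.e (nat_lit 336454) (nat_lit 34) (.e (nat_lit 483408) (nat_lit 26) (.e (nat_lit 385068) (nat_lit 26) .nil))))) .nil)) 
(.lf (nat_lit 184001) (.g (nat_lit 1691) (.e (nat_lit 57852) (nat_lit 252) (.e (nat_lit 57406) (nat_lit 12) (.e (nat_lit 336456) (nat_lit 34) (.e (nat_lit 491264) (nat_lit 26) .nil)))) .nil))) (.nd (nat_lit 6) 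
(.lf (nat_lit 183969) (.g (nat_lit 2629) (.e (nat_lit 57852) (nat_lit 252) (.e (nat_lit 57406) (nat_lit 12) (.e (nat_lit 336360) (nat_lit 25) (.e (nat_lit 409649) (nat_lit 18) (.e (nat_lit 303132) (nat_lit 9) (.e (nat_lit 426109) (nat_lit 1) (.e (nat_lit 164182) (nat_lit 154) (.e (nat_lit 57366) (nat_lit 1) .nil)))))))) (.g (nat_lit 4) .nil .nil))) 
(.lf (nat_lit 184033) (.g (nat_lit 1741) (.e (nat_lit 57852) (nat_lit 252) (.e (nat_lit 57409) (nat_lit 12) (.e (nat_lit 336414) (nat_lit 27) (.e (nat_lit 426503) (nat_lit 27) (.e (nat_lit 336195) (nat_lit 12) .nil))))) .nil)))) (.nd (nat_lit 5) (.nd (nat_lit 6) 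
(.lf (nat_lit 183953) (.g (nat_lit 3032) (.e (nat_lit 57852) (nat_lit 252) (.e (nat_lit 57406) (nat_lit 12) (.e (nat_lit 336326) (nat_lit 18) (.e (nat_lit 204869) (nat_lit 29) (.e (nat_lit 360448) (nat_lit 0) (.e (nat_lit 7695) (nat_lit 412) (.e (nat_lit 57366) (nat_lit 1) .nil))))))) (.g (nat_lit 4) .nil .nil))) 
(.lf (nat_lit 184017) (.g (nat_lit 2789) (.e (nat_lit 57852) (nat_lit 252) (.e (nat_lit 57409) (nat_lit 12) (.e (nat_lit 336211) (nat_lit 13) (.e (nat_lit 393294) (nat_lit 26) (.e (nat_lit 475214) (nat_lit 42) (.e (nat_lit 720932) (nat_lit 21) .nil)))))) (.g (nat_lit 5) .nil .nil)))) (.nd (nat_lit 6) 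
(.lf (nat_lit 183985) (.g (nat_lit 4194) (.e (nat_lit 57852) (nat_lit 252) (.e (nat_lit 57406) (nat_lit 12) (.e (nat_lit 336446) (nat_lit 33) (.e (nat_lit 475214) (nat_lit 42) (.e (nat_lit 720956) (nat_lit 25) (.e (nat_lit 114711) (nat_lit 21) (.e (nat_lit 57847) (nat_lit 252) (.e (nat_lit 57365) (nat_lit 1) .nil)))))))) (.g (nat_lit 7) .nil .nil))) 
(.lf (nat_lit 184049) (.g (nat_lit 2825) (.e (nat_lit 57852) (nat_lit 252) (.e (nat_lit 57412) (nat_lit 12) (.e (nat_lit 336058) (nat_lit 7) (.e (nat_lit 319534) (nat_lit 16) (.e (nat_lit 286756) (nat_lit 10) (.e (nat_lit 344097) (nat_lit 18) (.e (nat_lit 5194) (nat_lit 294) (.e (nat_lit 57368) (nat_lit 1) .nil)))))))) (.g (nat_lit 4) .nil .nil)))))) 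
(.nd (nat_lit 4) (.nd (nat_lit 5) (.nd (nat_lit 6) 
(.lf (nat_lit 183945) (.g (nat_lit 2325) (.e (nat_lit 57852) (nat_lit 252) (.e (nat_lit 57406) (nat_lit 12) (.e (nat_lit 336310) (nat_lit 16) (.e (nat_lit 164179) (nat_lit 154) (.e (nat_lit 57436) (nat_lit 17) (.e (nat_lit 376860) (nat_lit 21) (.e (nat_lit 57854) (nat_lit 252) (.e (nat_lit 57364) (nat_lit 1) .nil)))))))) (.g (nat_lit 4) .nil .nil))) 
(.lf (nat_lit 184009) (.g (nat_lit 2921) (.e (nat_lit 57852) (nat_lit 252) (.e (nat_lit 57409) (nat_lit 12) (.e (nat_lit 336211) (nat_lit 13) (.e (nat_lit 393271) (nat_lit 23) (.e (nat_lit 426446) (nat_lit 20) (.e (nat_lit 114712) (nat_lit 21) .nil)))))) (.g (nat_lit 5) .nil .nil)))) (.nd (nat_lit 6) 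
(.lf (nat_lit 183977) (.g (nat_lit 690) (.e (nat_lit 57852) (nat_lit 252) (.e (nat_lit 57406) (nat_lit 12) (.e (nat_lit 336392) (nat_lit 27) .nil))) .nil)) 
(.lf (nat_lit 184041) (.g (nat_lit 2177) (.e (nat_lit 57852) (nat_lit 252) (.e (nat_lit 57409) (nat_lit 12) (.e (nat_lit 336456) (nat_lit 34) (.e (nat_lit 483383) (nat_lit 23) (.e (nat_lit 336326) (nat_lit 18) .nil))))) .nil)))) (.nd (nat_lit 5) (.nd (nat_lit 6) 
(.lf (nat_lit 183961) (.g (nat_lit 4706) (.e (nat_lit 57852) (nat_lit 252) (.e (nat_lit 57406) (nat_lit 12) (.e (nat_lit 336326) (nat_lit 18) (.e (nat_lit 204869) (nat_lit 29) (.e (nat_lit 360451) (nat_lit 0) (.e (nat_lit 7697) (nat_lit 412) (.e (nat_lit 57366) (nat_lit 1) .nil))))))) (.g (nat_lit 5) .nil .nil))) 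
(.lf (nat_lit 184025) (.g (nat_lit 2343) (.e (nat_lit 57852) (nat_lit 252) (.e (nat_lit 57409) (nat_lit 12) (.e (nat_lit 336369) (nat_lit 27) (.e (nat_lit 426499) (nat_lit 27) (.e (nat_lit 336196) (nat_lit 12) .nil))))) .nil))) (.nd (nat_lit 6) 
(.lf (nat_lit 183993) (.g (nat_lit 2919) (.e (nat_lit 57852) (nat_lit 252) (.e (nat_lit 57406) (nat_lit 12) (.e (nat_lit 336454) (nat_lit 34) (.e (nat_lit 483404) (nat_lit 26) .nil)))) .nil)) 
(.lf (nat_lit 184057) (.g (nat_lit 2721) (.e (nat_lit 57852) (nat_lit 252) (.e (nat_lit 57412) (nat_lit 12) (.e (nat_lit 336061) (nat_lit 7) (.e (nat_lit 319531) (nat_lit 16) (.e (nat_lit 286750) (nat_lit 9) (.e (nat_lit 335986) (nat_lit 1) (.e (nat_lit 57847) (nat_lit 252) (.e (nat_lit 57368) (nat_lit 1) .nil)))))))) (.g (nat_lit 4) .nil .nil))))))) 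
(.nd (nat_lit 3) (.nd (nat_lit 4) (.nd (nat_lit 5) (.nd (nat_lit 6) 
(.lf (nat_lit 183941) (.g (nat_lit 698) (.e (nat_lit 57852) (nat_lit 252) (.e (nat_lit 57406) (nat_lit 12) (.e (nat_lit 336210) (nat_lit 13) .nil))) .nil)) 
(.lf (nat_lit 184005) (.g (nat_lit 3009) (.e (nat_lit 57852) (nat_lit 252) (.e (nat_lit 57409) (nat_lit 12) (.e (nat_lit 336211) (nat_lit 13) (.e (nat_lit 393268) (nat_lit 23) (.e (nat_lit 426361) (nat_lit 15) (.e (nat_lit 2203) (nat_lit 144) (.e (nat_lit 720934) (nat_lit 21) .nil))))))) (.g (nat_lit 6) .nil .nil)))) (.nd (nat_lit 6) 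
(.lf (nat_lit 183973) (.g (nat_lit 3299) (.e (nat_lit 57852) (nat_lit 252) (.e (nat_lit 57406) (nat_lit 12) (.e (nat_lit 336360) (nat_lit 25) (.e (nat_lit 409649) (nat_lit 18) (.e (nat_lit 303140) (nat_lit 10) (.e (nat_lit 434209) (nat_lit 18) (.e (nat_lit 6391) (nat_lit 339) (.e (nat_lit 57365) (nat_lit 1) .nil)))))))) (.g (nat_lit 4) .nil .nil))) 
(.lf (nat_lit 184037) (.g (nat_lit 1926) (.e (nat_lit 57852) (nat_lit 252) (.e (nat_lit 57409) (nat_lit 12) (.e (nat_lit 336454) (nat_lit 34) (.e (nat_lit 483402) (nat_lit 26) (.e (nat_lit 385066) (nat_lit 26) .nil))))) .nil)))) (.nd (nat_lit 5) (.nd (nat_lit 6) 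
(.lf (nat_lit 183957) (.g (nat_lit 4841) (.e (nat_lit 57852) (nat_lit 252) (.e (nat_lit 57406) (nat_lit 12) (.e (nat_lit 336326) (nat_lit 18) (.e (nat_lit 204869) (nat_lit 29) (.e (nat_lit 360450) (nat_lit 0) (.e (nat_lit 7697) (nat_lit 412) (.e (nat_lit 57366) (nat_lit 1) .nil))))))) (.g (nat_lit 5) .nil .nil))) 
(.lf (nat_lit 184021) (.g (nat_lit 1888) (.e (nat_lit 57852) (nat_lit 252) (.e (nat_lit 57409) (nat_lit 12) (.e (nat_lit 336369) (nat_lit 27) (.e (nat_lit 426497) (nat_lit 27) (.e (nat_lit 336195) (nat_lit 12) .nil))))) .nil))) (.nd (nat_lit 6) 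
(.lf (nat_lit 183989) (.g (nat_lit 2452) (.e (nat_lit 57852) (nat_lit 252) (.e (nat_lit 57406) (nat_lit 12) (.e (nat_lit 336454) (nat_lit 34) (.e (nat_lit 483378) (nat_lit 23) .nil)))) .nil)) 
(.lf (nat_lit 184053) (.g (nat_lit 3521) (.e (nat_lit 57852) (nat_lit 252) (.e (nat_lit 57412) (nat_lit 12) (.e (nat_lit 336060) (nat_lit 7) (.e (nat_lit 319534) (nat_lit 16) (.e (nat_lit 286756) (nat_lit 10) (.e (nat_lit 344097) (nat_lit 18) (.e (nat_lit 5195) (nat_lit 294) (.e (nat_lit 57365) (nat_lit 1) .nil)))))))) (.g (nat_lit 6) .nil .nil)))))) 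
(.nd (nat_lit 4) (.nd (nat_lit 5) (.nd (nat_lit 6) 
(.lf (nat_lit 183949) (.g (nat_lit 659) (.e (nat_lit 57852) (nat_lit 252) (.e (nat_lit 57406) (nat_lit 12) (.e (nat_lit 336324) (nat_lit 18) .nil))) .nil)) 
(.lf (nat_lit 184013) (.g (nat_lit 1993) (.e (nat_lit 57852) (nat_lit 252) (.e (nat_lit 57409) (nat_lit 12) (.e (nat_lit 336211) (nat_lit 13) (.e (nat_lit 393273) (nat_lit 23) (.e (nat_lit 426364) (nat_lit 15) (.e (nat_lit 2201) (nat_lit 144) (.e (nat_lit 720934) (nat_lit 21) .nil))))))) (.g (nat_lit 4) .nil .nil)))) (.nd (nat_lit 6) 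
(.lf (nat_lit 183981) (.g (nat_lit 4000) (.e (nat_lit 57852) (nat_lit 252) (.e (nat_lit 57406) (nat_lit 12) (.e (nat_lit 336446) (nat_lit 33) (.e (nat_lit 475212) (nat_lit 42) (.e (nat_lit 720956) (nat_lit 25) (.e (nat_lit 114711) (nat_lit 21) (.e (nat_lit 57847) (nat_lit 252) (.e (nat_lit 57365) (nat_lit 1) .nil)))))))) (.g (nat_lit 7) .nil .nil))) 
(.lf (nat_lit 184045) (.g (nat_lit 2400) (.e (nat_lit 57852) (nat_lit 252) (.e (nat_lit 57412) (nat_lit 12) (.e (nat_lit 336054) (nat_lit 7) (.e (nat_lit 319534) (nat_lit 16) (.e (nat_lit 286749) (nat_lit 9) (.e (nat_lit 335997) (nat_lit 1) (.e (nat_lit 57848) (nat_lit 252) (.e (nat_lit 57368) (nat_lit 1) .nil)))))))) (.g (nat_lit 4) .nil .nil))))) (.nd (nat_lit 5) (.nd (nat_lit 6) 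
(.lf (nat_lit 183965) (.g (nat_lit 2711) (.e (nat_lit 57852) (nat_lit 252) (.e (nat_lit 57406) (nat_lit 12) (.e (nat_lit 336326) (nat_lit 18) (.e (nat_lit 204877) (nat_lit 31) (.e (nat_lit 376860) (nat_lit 21) (.e (nat_lit 57692) (nat_lit 156) (.e (nat_lit 171776) (nat_lit 62) .nil))))))) (.g (nat_lit 4) .nil .nil))) 
(.lf (nat_lit 184029) (.g (nat_lit 2013) (.e (nat_lit 57852) (nat_lit 252) (.e (nat_lit 57409) (nat_lit 12) (.e (nat_lit 336369) (nat_lit 27) (.e (nat_lit 426528) (nat_lit 27) (.e (nat_lit 336196) (nat_lit 12) .nil))))) .nil))) (.nd (nat_lit 6) 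
(.lf (nat_lit 183997) (.g (nat_lit 2149) (.e (nat_lit 57852) (nat_lit 252) (.e (nat_lit 57406) (nat_lit 12) (.e (nat_lit 336456) (nat_lit 34) (.e (nat_lit 483402) (nat_lit 26) (.e (nat_lit 385066) (nat_lit 26) .nil))))) .nil)) 
(.lf (nat_lit 184061) (.g (nat_lit 2949) (.e (nat_lit 57852) (nat_lit 252) (.e (nat_lit 57412) (nat_lit 12) (.e (nat_lit 336061) (nat_lit 7) (.e (nat_lit 319531) (nat_lit 16) (.e (nat_lit 286756) (nat_lit 10) (.e (nat_lit 344097) (nat_lit 18) (.e (nat_lit 5194) (nat_lit 294) (.e (nat_lit 57368) (nat_lit 1) .nil)))))))) (.g (nat_lit 4) .nil .nil)))))))) 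
(.nd (nat_lit 2) (.nd (nat_lit 3) (.nd (nat_lit 4) (.nd (nat_lit 5) (.nd (nat_lit 6) 
(.lf (nat_lit 183939) (.g (nat_lit 700) (.e (nat_lit 57852) (nat_lit 252) (.e (nat_lit 57406) (nat_lit 12) (.e (nat_lit 336120) (nat_lit 9) .nil))) .nil)) 
(.lf (nat_lit 184003) (.g (nat_lit 321) (.e (nat_lit 57852) (nat_lit 252) (.e (nat_lit 57409) (nat_lit 12) (.e (nat_lit 336211) (nat_lit 13) .nil))) .nil))) (.nd (nat_lit 6) 
(.lf (nat_lit 183971) (.g (nat_lit 2591) (.e (nat_lit 57852) (nat_lit 252) (.e (nat_lit 57406) (nat_lit 12) (.e (nat_lit 336360) (nat_lit 25) (.e (nat_lit 409649) (nat_lit 18) (.e (nat_lit 303132) (nat_lit 9) (.e (nat_lit 426109) (nat_lit 1) (.e (nat_lit 164183) (nat_lit 154) (.e (nat_lit 57366) (nat_lit 1) .nil)))))))) (.g (nat_lit 4) .nil .nil))) 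
(.lf (nat_lit 184035) (.g (nat_lit 1844) (.e (nat_lit 57852) (nat_lit 252) (.e (nat_lit 57409) (nat_lit 12) (.e (nat_lit 336454) (nat_lit 34) (.e (nat_lit 483381) (nat_lit 23) .nil)))) .nil)))) (.nd (nat_lit 5) (.nd (nat_lit 6) 
(.lf (nat_lit 183955) (.g (nat_lit 4892) (.e (nat_lit 57852) (nat_lit 252) (.e (nat_lit 57406) (nat_lit 12) (.e (nat_lit 336326) (nat_lit 18) (.e (nat_lit 204869) (nat_lit 29) (.e (nat_lit 360450) (nat_lit 0) (.e (nat_lit 7695) (nat_lit 412) (.e (nat_lit 57366) (nat_lit 1) .nil))))))) (.g (nat_lit 5) .nil .nil))) 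
(.lf (nat_lit 184019) (.g (nat_lit 1888) (.e (nat_lit 57852) (nat_lit 252) (.e (nat_lit 57409) (nat_lit 12) (.e (nat_lit 336369) (nat_lit 27) (.e (nat_lit 426497) (nat_lit 27) (.e (nat_lit 336077) (nat_lit 9) .nil))))) .nil))) (.nd (nat_lit 6) 
(.lf (nat_lit 183987) (.g (nat_lit 2445) (.e (nat_lit 57852) (nat_lit 252) (.e (nat_lit 57406) (nat_lit 12) (.e (nat_lit 336448) (nat_lit 33) (.e (nat_lit 475214) (nat_lit 42) (.e (nat_lit 720956) (nat_lit 25) (.e (nat_lit 114711) (nat_lit 21) (.e (nat_lit 57847) (nat_lit 252) (.e (nat_lit 57368) (nat_lit 1) .nil)))))))) (.g (nat_lit 4) .nil .nil))) 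
(.lf (nat_lit 184051) (.g (nat_lit 3252) (.e (nat_lit 57852) (nat_lit 252) (.e (nat_lit 57412) (nat_lit 12) (.e (nat_lit 336058) (nat_lit 7) (.e (nat_lit 319534) (nat_lit 16) (.e (nat_lit 286756) (nat_lit 10) (.e (nat_lit 344097) (nat_lit 18) (.e (nat_lit 5195) (nat_lit 294) (.e (nat_lit 57368) (nat_lit 1) .nil)))))))) (.g (nat_lit 5) .nil .nil)))))) 
(.nd (nat_lit 4) (.nd (nat_lit 5) (.nd (nat_lit 6) 
(.lf (nat_lit 183947) (.g (nat_lit 3426) (.e (nat_lit 57852) (nat_lit 252) (.e (nat_lit 57406) (nat_lit 12) (.e (nat_lit 336310) (nat_lit 16) (.e (nat_lit 164179) (nat_lit 154) (.e (nat_lit 57437) (nat_lit 17) (.e (nat_lit 376860) (nat_lit 21) (.e (nat_lit 57854) (nat_lit 252) (.e (nat_lit 57366) (nat_lit 1) .nil)))))))) (.g (nat_lit 5) .nil .nil))) 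
(.lf (nat_lit 184011) (.g (nat_lit 2277) (.e (nat_lit 57852) (nat_lit 252) (.e (nat_lit 57409) (nat_lit 12) (.e (nat_lit 336211) (nat_lit 13) (.e (nat_lit 393271) (nat_lit 23) (.e (nat_lit 433920) (nat_lit 20) (.e (nat_lit 114712) (nat_lit 21) .nil)))))) (.g (nat_lit 4) .nil .nil)))) (.nd (nat_lit 6) 
(.lf (nat_lit 183979) (.g (nat_lit 2319) (.e (nat_lit 57852) (nat_lit 252) (.e (nat_lit 57406) (nat_lit 12) (.e (nat_lit 336445) (nat_lit 33) (.e (nat_lit 475212) (nat_lit 42) (.e (nat_lit 720956) (nat_lit 25) (.e (nat_lit 114711) (nat_lit 21) (.e (nat_lit 57847) (nat_lit 252) (.e (nat_lit 57368) (nat_lit 1) .nil)))))))) (.g (nat_lit 4) .nil .nil))) 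
(.lf (nat_lit 184043) (.g (nat_lit 1952) (.e (nat_lit 57852) (nat_lit 252) (.e (nat_lit 57409) (nat_lit 12) (.e (nat_lit 336456) (nat_lit 34) (.e (nat_lit 483404) (nat_lit 26) (.e (nat_lit 385066) (nat_lit 26) .nil))))) .nil)))) (.nd (nat_lit 5) (.nd (nat_lit 6) 
(.lf (nat_lit 183963) (.g (nat_lit 2857) (.e (nat_lit 57852) (nat_lit 252) (.e (nat_lit 57406) (nat_lit 12) (.e (nat_lit 336326) (nat_lit 18) (.e (nat_lit 204869) (nat_lit 29) (.e (nat_lit 360456) (nat_lit 0) (.e (nat_lit 7936) (nat_lit 412) (.e (nat_lit 57368) (nat_lit 1) .nil))))))) (.g (nat_lit 4) .nil .nil))) 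
(.lf (nat_lit 184027) (.g (nat_lit 3844) (.e (nat_lit 57852) (nat_lit 252) (.e (nat_lit 57409) (nat_lit 12) (.e (nat_lit 336369) (nat_lit 27) (.e (nat_lit 426501) (nat_lit 27) (.e (nat_lit 336194) (nat_lit 12) (.e (nat_lit 385066) (nat_lit 26) (.e (nat_lit 532504) (nat_lit 1) .nil))))))) (.g (nat_lit 6) .nil .nil)))) (.nd (nat_lit 6) 
(.lf (nat_lit 183995) (.g (nat_lit 2841) (.e (nat_lit 57852) (nat_lit 252) (.e (nat_lit 57406) (nat_lit 12) (.e (nat_lit 336456) (nat_lit 34) (.e (nat_lit 483346) (nat_lit 17) (.e (nat_lit 6506) (nat_lit 344) .nil))))) .nil)) 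
(.lf (nat_lit 184059) (.g (nat_lit 2955) (.e (nat_lit 57852) (nat_lit 252) (.e (nat_lit 57412) (nat_lit 12) (.e (nat_lit 336061) (nat_lit 7) (.e (nat_lit 319531) (nat_lit 16) (.e (nat_lit 286751) (nat_lit 10) (.e (nat_lit 344097) (nat_lit 18) (.e (nat_lit 5195) (nat_lit 294) (.e (nat_lit 57368) (nat_lit 1) .nil)))))))) (.g (nat_lit 4) .nil .nil))))))) 
(.nd (nat_lit 3) (.nd (nat_lit 4) (.nd (nat_lit 5) (.nd (nat_lit 6) 
(.lf (nat_lit 183943) (.g (nat_lit 616) (.e (nat_lit 57852) (nat_lit 252) (.e (nat_lit 57406) (nat_lit 12) (.e (nat_lit 343808) (nat_lit 13) .nil))) .nil)) 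
(.lf (nat_lit 184007) (.g (nat_lit 1723) (.e (nat_lit 57852) (nat_lit 252) (.e (nat_lit 57409) (nat_lit 12) (.e (nat_lit 336211) (nat_lit 13) (.e (nat_lit 393268) (nat_lit 23) (.e (nat_lit 426361) (nat_lit 15) (.e (nat_lit 2206) (nat_lit 144) (.e (nat_lit 720932) (nat_lit 21) .nil))))))) (.g (nat_lit 4) .nil .nil)))) (.nd (nat_lit 6) 
(.lf (nat_lit 183975) (.g (nat_lit 2545) (.e (nat_lit 57852) (nat_lit 252) (.e (nat_lit 57406) (nat_lit 12) (.e (nat_lit 336360) (nat_lit 25) (.e (nat_lit 409649) (nat_lit 18) (.e (nat_lit 303140) (nat_lit 10) (.e (nat_lit 434211) (nat_lit 18) (.e (nat_lit 6401) (nat_lit 339) (.e (nat_lit 57368) (nat_lit 1) .nil)))))))) (.g (nat_lit 4) .nil .nil))) 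
(.lf (nat_lit 184039) (.g (nat_lit 1871) (.e (nat_lit 57852) (nat_lit 252) (.e (nat_lit 57409) (nat_lit 12) (.e (nat_lit 336456) (nat_lit 34) (.e (nat_lit 483380) (nat_lit 23) (.e (nat_lit 336326) (nat_lit 18) .nil))))) .nil)))) (.nd (nat_lit 5) (.nd (nat_lit 6) 
(.lf (nat_lit 183959) (.g (nat_lit 4801) (.e (nat_lit 57852) (nat_lit 252) (.e (nat_lit 57406) (nat_lit 12) (.e (nat_lit 336326) (nat_lit 18) (.e (nat_lit 204869) (nat_lit 29) (.e (nat_lit 360451) (nat_lit 0) (.e (nat_lit 7695) (nat_lit 412) (.e (nat_lit 57366) (nat_lit 1) .nil))))))) (.g (nat_lit 5) .nil .nil))) 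
(.lf (nat_lit 184023) (.g (nat_lit 1943) (.e (nat_lit 57852) (nat_lit 252) (.e (nat_lit 57409) (nat_lit 12) (.e (nat_lit 336369) (nat_lit 27) (.e (nat_lit 426498) (nat_lit 27) (.e (nat_lit 336204) (nat_lit 12) .nil))))) .nil))) (.nd (nat_lit 6) 
(.lf (nat_lit 183991) (.g (nat_lit 3005) (.e (nat_lit 57852) (nat_lit 252) (.e (nat_lit 57406) (nat_lit 12) (.e (nat_lit 336454) (nat_lit 34) (.e (nat_lit 483381) (nat_lit 23) .nil)))) .nil)) 
(.lf (nat_lit 184055) (.g (nat_lit 2615) (.e (nat_lit 57852) (nat_lit 252) (.e (nat_lit 57412) (nat_lit 12) (.e (nat_lit 336061) (nat_lit 7) (.e (nat_lit 319531) (nat_lit 16) (.e (nat_lit 286747) (nat_lit 9) (.e (nat_lit 335997) (nat_lit 1) (.e (nat_lit 57848) (nat_lit 252) (.e (nat_lit 57368) (nat_lit 1) .nil)))))))) (.g (nat_lit 4) .nil .nil)))))) 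
(.nd (nat_lit 4) (.nd (nat_lit 5) (.nd (nat_lit 6) 
(.lf (nat_lit 183951) (.g (nat_lit 661) (.e (nat_lit 57852) (nat_lit 252) (.e (nat_lit 57406) (nat_lit 12) (.e (nat_lit 336326) (nat_lit 18) .nil))) .nil)) 
(.lf (nat_lit 184015) (.g (nat_lit 2279) (.e (nat_lit 57852) (nat_lit 252) (.e (nat_lit 57409) (nat_lit 12) (.e (nat_lit 336211) (nat_lit 13) (.e (nat_lit 393292) (nat_lit 26) (.e (nat_lit 475212) (nat_lit 42) (.e (nat_lit 720934) (nat_lit 21) .nil)))))) (.g (nat_lit 5) .nil .nil)))) (.nd (nat_lit 6) 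
(.lf (nat_lit 183983) (.g (nat_lit 2569) (.e (nat_lit 57852) (nat_lit 252) (.e (nat_lit 57406) (nat_lit 12) (.e (nat_lit 336446) (nat_lit 33) (.e (nat_lit 475214) (nat_lit 42) (.e (nat_lit 720955) (nat_lit 25) (.e (nat_lit 114711) (nat_lit 21) (.e (nat_lit 57847) (nat_lit 252) (.e (nat_lit 57368) (nat_lit 1) .nil)))))))) (.g (nat_lit 4) .nil .nil))) 
(.lf (nat_lit 184047) (.g (nat_lit 2662) (.e (nat_lit 57852) (nat_lit 252) (.e (nat_lit 57412) (nat_lit 12) (.e (nat_lit 336058) (nat_lit 7) (.e (nat_lit 319533) (nat_lit 16) (.e (nat_lit 286753) (nat_lit 10) (.e (nat_lit 344097) (nat_lit 18) (.e (nat_lit 5195) (nat_lit 294) (.e (nat_lit 57368) (nat_lit 1) .nil)))))))) (.g (nat_lit 4) .nil .nil))))) (.nd (nat_lit 5) (.nd (nat_lit 6) 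
(.lf (nat_lit 183967) (.g (nat_lit 2532) (.e (nat_lit 57852) (nat_lit 252) (.e (nat_lit 57406) (nat_lit 12) (.e (nat_lit 336360) (nat_lit 25) (.e (nat_lit 409649) (nat_lit 18) (.e (nat_lit 303132) (nat_lit 9) (.e (nat_lit 426109) (nat_lit 1) (.e (nat_lit 164177) (nat_lit 154) (.e (nat_lit 57368) (nat_lit 1) .nil)))))))) (.g (nat_lit 4) .nil .nil))) 
(.lf (nat_lit 184031) (.g (nat_lit 2154) (.e (nat_lit 57852) (nat_lit 252) (.e (nat_lit 57409) (nat_lit 12) (.e (nat_lit 336398) (nat_lit 27) (.e (nat_lit 426499) (nat_lit 27) (.e (nat_lit 336078) (nat_lit 9) .nil))))) .nil))) (.nd (nat_lit 6) 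
(.lf (nat_lit 183999) (.g (nat_lit 1519) (.e (nat_lit 57852) (nat_lit 252) (.e (nat_lit 57406) (nat_lit 12) (.e (nat_lit 336456) (nat_lit 34) (.e (nat_lit 483406) (nat_lit 26) .nil)))) .nil)) 
(.lf (nat_lit 184063) (.g (nat_lit 2517) (.e (nat_lit 57852) (nat_lit 252) (.e (nat_lit 57412) (nat_lit 12) (.e (nat_lit 336061) (nat_lit 7) (.e (nat_lit 319531) (nat_lit 16) (.e (nat_lit 286757) (nat_lit 11) .nil))))) .nil)))))))))

noncomputable def tv2453 : DT := (.nd (nat_lit 0) (.nd (nat_lit 1) (.nd (nat_lit 2) (.nd (nat_lit 3) (.nd (nat_lit 4) (.nd (nat_lit 5) (.nd (nat_lit 6) 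
(.lf (nat_lit 184064) (.g (nat_lit 2498) (.e (nat_lit 57852) (nat_lit 252) (.e (nat_lit 57412) (nat_lit 12) (.e (nat_lit 336061) (nat_lit 7) (.e (nat_lit 319531) (nat_lit 16) (.e (nat_lit 286759) (nat_lit 12) (.e (nat_lit 385107) (nat_lit 51) (.e (nat_lit 802560) (nat_lit 1) .nil))))))) (.g (nat_lit 4) .nil .nil))) 
(.lf (nat_lit 184128) (.g (nat_lit 2856) (.e (nat_lit 57852) (nat_lit 252) (.e (nat_lit 57420) (nat_lit 13) (.e (nat_lit 344133) (nat_lit 26) (.e (nat_lit 557098) (nat_lit 13) (.e (nat_lit 172061) (nat_lit 1) (.e (nat_lit 164319) (nat_lit 228) (.e (nat_lit 57388) (nat_lit 5) (.e (nat_lit 114712) (nat_lit 21) .nil)))))))) (.g (nat_lit 4) .nil .nil)))) (.nd (nat_lit 6) 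
(.lf (nat_lit 184096) (.g (nat_lit 1546) (.e (nat_lit 57852) (nat_lit 252) (.e (nat_lit 57419) (nat_lit 12) (.e (nat_lit 336075) (nat_lit 9) (.e (nat_lit 336430) (nat_lit 29) (.e (nat_lit 450304) (nat_lit 5) (.e (nat_lit 114710) (nat_lit 21) .nil)))))) (.g (nat_lit 4) .nil .nil))) 
(.lf (nat_lit 184160) (.g (nat_lit 1013) (.e (nat_lit 57852) (nat_lit 252) (.e (nat_lit 57423) (nat_lit 14) (.e (nat_lit 352273) (nat_lit 11) (.e (nat_lit 426308) (nat_lit 12) .nil)))) .nil)))) (.nd (nat_lit 5) (.nd (nat_lit 6) 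
(.lf (nat_lit 184080) (.g (nat_lit 2238) (.e (nat_lit 57852) (nat_lit 252) (.e (nat_lit 57413) (nat_lit 12) (.e (nat_lit 336056) (nat_lit 7) (.e (nat_lit 319533) (nat_lit 16) (.e (nat_lit 286753) (nat_lit 10) (.e (nat_lit 344097) (nat_lit 18) (.e (nat_lit 5195) (nat_lit 294) (.e (nat_lit 57365) (nat_lit 1) .nil)))))))) (.g (nat_lit 4) .nil .nil))) 
(.lf (nat_lit 184144) (.g (nat_lit 2300) (.e (nat_lit 57852) (nat_lit 252) (.e (nat_lit 57421) (nat_lit 13) (.e (nat_lit 344130) (nat_lit 26) (.e (nat_lit 557104) (nat_lit 14) (.e (nat_lit 188160) (nat_lit 0) (.e (nat_lit 5199) (nat_lit 294) (.e (nat_lit 57390) (nat_lit 5) (.e (nat_lit 114712) (nat_lit 21) .nil)))))))) (.g (nat_lit 4) .nil .nil)))) (.nd (nat_lit 6) 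
(.lf (nat_lit 184112) (.g (nat_lit 1955) (.e (nat_lit 57852) (nat_lit 252) (.e (nat_lit 57419) (nat_lit 12) (.e (nat_lit 336213) (nat_lit 13) (.e (nat_lit 393290) (nat_lit 26) (.e (nat_lit 475212) (nat_lit 42) .nil))))) .nil)) 
(.lf (nat_lit 184176) (.g (nat_lit 1896) (.e (nat_lit 57852) (nat_lit 252) (.e (nat_lit 57427) (nat_lit 15) (.e (nat_lit 360451) (nat_lit 0) (.e (nat_lit 6938) (nat_lit 375) .nil)))) .nil))))) (.nd (nat_lit 4) (.nd (nat_lit 5) (.nd (nat_lit 6) 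
(.lf (nat_lit 184072) (.g (nat_lit 3671) (.e (nat_lit 57852) (nat_lit 252) (.e (nat_lit 57412) (nat_lit 12) (.e (nat_lit 336061) (nat_lit 7) (.e (nat_lit 319534) (nat_lit 16) (.e (nat_lit 286756) (nat_lit 10) (.e (nat_lit 344097) (nat_lit 18) (.e (nat_lit 5195) (nat_lit 294) (.e (nat_lit 57368) (nat_lit 1) .nil)))))))) (.g (nat_lit 5) .nil .nil))) 
(.lf (nat_lit 184136) (.g (nat_lit 2902) (.e (nat_lit 57852) (nat_lit 252) (.e (nat_lit 57421) (nat_lit 13) (.e (nat_lit 344117) (nat_lit 21) (.e (nat_lit 516151) (nat_lit 9) (.e (nat_lit 426171) (nat_lit 7) (.e (nat_lit 417536) (nat_lit 10) (.e (nat_lit 601) (nat_lit 45) (.e (nat_lit 532504) (nat_lit 1) .nil)))))))) (.g (nat_lit 4) .nil .nil)))) (.nd (nat_lit 6) 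
(.lf (nat_lit 184104) (.g (nat_lit 3039) (.e (nat_lit 57852) (nat_lit 252) (.e (nat_lit 57419) (nat_lit 12) (.e (nat_lit 336213) (nat_lit 13) (.e (nat_lit 393270) (nat_lit 23) (.e (nat_lit 426446) (nat_lit 20) (.e (nat_lit 114710) (nat_lit 21) .nil)))))) (.g (nat_lit 0) .nil .nil))) 
(.lf (nat_lit 184168) (.g (nat_lit 900) (.e (nat_lit 57852) (nat_lit 252) (.e (nat_lit 57424) (nat_lit 14) (.e (nat_lit 352274) (nat_lit 11) .nil))) .nil)))) (.nd (nat_lit 5) (.nd (nat_lit 6) 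
(.lf (nat_lit 184088) (.g (nat_lit 2681) (.e (nat_lit 57852) (nat_lit 252) (.e (nat_lit 57417) (nat_lit 12) (.e (nat_lit 336209) (nat_lit 13) (.e (nat_lit 393270) (nat_lit 23) (.e (nat_lit 426446) (nat_lit 20) (.e (nat_lit 114710) (nat_lit 21) .nil)))))) (.g (nat_lit 0) .nil .nil))) 
(.lf (nat_lit 184152) (.g (nat_lit 2533) (.e (nat_lit 57852) (nat_lit 252) (.e (nat_lit 57421) (nat_lit 13) (.e (nat_lit 344133) (nat_lit 26) (.e (nat_lit 557105) (nat_lit 14) (.e (nat_lit 180230) (nat_lit 0) .nil))))) .nil))) (.nd (nat_lit 6) 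
(.lf (nat_lit 184120) (.g (nat_lit 557) (.e (nat_lit 57852) (nat_lit 252) (.e (nat_lit 57419) (nat_lit 12) (.e (nat_lit 336222) (nat_lit 13) (.e (nat_lit 393279) (nat_lit 23) .nil)))) .nil)) 
(.lf (nat_lit 184184) (.g (nat_lit 1684) (.e (nat_lit 57852) (nat_lit 252) (.e (nat_lit 57435) (nat_lit 17) (.e (nat_lit 376842) (nat_lit 11) (.e (nat_lit 426198) (nat_lit 9) (.e (nat_lit 433920) (nat_lit 20) (.e (nat_lit 114712) (nat_lit 21) .nil)))))) (.g (nat_lit 4) .nil .nil))))))) (.nd (nat_lit 3) (.nd (nat_lit 4) (.nd (nat_lit 5) (.nd (nat_lit 6) 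
(.lf (nat_lit 184068) (.g (nat_lit 3391) (.e (nat_lit 57852) (nat_lit 252) (.e (nat_lit 57412) (nat_lit 12) (.e (nat_lit 336061) (nat_lit 7) (.e (nat_lit 319533) (nat_lit 16) (.e (nat_lit 286753) (nat_lit 10) (.e (nat_lit 344097) (nat_lit 18) (.e (nat_lit 5195) (nat_lit 294) (.e (nat_lit 57368) (nat_lit 1) .nil)))))))) (.g (nat_lit 4) .nil .nil))) 
(.lf (nat_lit 184132) (.g (nat_lit 2125) (.e (nat_lit 57852) (nat_lit 252) (.e (nat_lit 57421) (nat_lit 13) (.e (nat_lit 344117) (nat_lit 21) (.e (nat_lit 516129) (nat_lit 3) (.e (nat_lit 229120) (nat_lit 1) .nil))))) .nil))) (.nd (nat_lit 6) 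
(.lf (nat_lit 184100) (.g (nat_lit 1612) (.e (nat_lit 57852) (nat_lit 252) (.e (nat_lit 57419) (nat_lit 12) (.e (nat_lit 336076) (nat_lit 9) (.e (nat_lit 336430) (nat_lit 29) (.e (nat_lit 450304) (nat_lit 5) .nil))))) .nil)) 
(.lf (nat_lit 184164) (.g (nat_lit 1102) (.e (nat_lit 57852) (nat_lit 252) (.e (nat_lit 57423) (nat_lit 14) (.e (nat_lit 352277) (nat_lit 11) (.e (nat_lit 426258) (nat_lit 9) .nil)))) .nil)))) (.nd (nat_lit 5) (.nd (nat_lit 6) 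
(.lf (nat_lit 184084) (.g (nat_lit 2036) (.e (nat_lit 57852) (nat_lit 252) (.e (nat_lit 57415) (nat_lit 12) (.e (nat_lit 336054) (nat_lit 7) (.e (nat_lit 319534) (nat_lit 16) (.e (nat_lit 286756) (nat_lit 10) (.e (nat_lit 344097) (nat_lit 18) (.e (nat_lit 5194) (nat_lit 294) (.e (nat_lit 57368) (nat_lit 1) .nil)))))))) (.g (nat_lit 4) .nil .nil))) 
(.lf (nat_lit 184148) (.g (nat_lit 2533) (.e (nat_lit 57852) (nat_lit 252) (.e (nat_lit 57421) (nat_lit 13) (.e (nat_lit 344133) (nat_lit 26) (.e (nat_lit 557098) (nat_lit 13) (.e (nat_lit 172070) (nat_lit 4) .nil))))) .nil))) (.nd (nat_lit 6) 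
(.lf (nat_lit 184116) (.g (nat_lit 2973) (.e (nat_lit 57852) (nat_lit 252) (.e (nat_lit 57419) (nat_lit 12) (.e (nat_lit 336213) (nat_lit 13) (.e (nat_lit 393296) (nat_lit 26) (.e (nat_lit 475212) (nat_lit 42) (.e (nat_lit 720930) (nat_lit 21) .nil)))))) (.g (nat_lit 5) .nil .nil))) 
(.lf (nat_lit 184180) (.g (nat_lit 170) (.e (nat_lit 57852) (nat_lit 252) (.e (nat_lit 57435) (nat_lit 17) (.e (nat_lit 376842) (nat_lit 11) .nil))) .nil))))) (.nd (nat_lit 4) (.nd (nat_lit 5) (.nd (nat_lit 6) 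
(.lf (nat_lit 184076) (.g (nat_lit 3103) (.e (nat_lit 57852) (nat_lit 252) (.e (nat_lit 57413) (nat_lit 12) (.e (nat_lit 336013) (nat_lit 2) (.e (nat_lit 90170) (nat_lit 13) (.e (nat_lit 172079) (nat_lit 7) (.e (nat_lit 409611) (nat_lit 10) (.e (nat_lit 604) (nat_lit 45) (.e (nat_lit 532501) (nat_lit 1) .nil)))))))) (.g (nat_lit 4) .nil .nil))) 
(.lf (nat_lit 184140) (.g (nat_lit 2546) (.e (nat_lit 57852) (nat_lit 252) (.e (nat_lit 57421) (nat_lit 13) (.e (nat_lit 344129) (nat_lit 26) (.e (nat_lit 557104) (nat_lit 14) (.e (nat_lit 188160) (nat_lit 0) (.e (nat_lit 5195) (nat_lit 294) (.e (nat_lit 57390) (nat_lit 5) (.e (nat_lit 114712) (nat_lit 21) .nil)))))))) (.g (nat_lit 4) .nil .nil)))) (.nd (nat_lit 6) 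
(.lf (nat_lit 184108) (.g (nat_lit 2251) (.e (nat_lit 57852) (nat_lit 252) (.e (nat_lit 57419) (nat_lit 12) (.e (nat_lit 336213) (nat_lit 13) (.e (nat_lit 393273) (nat_lit 23) (.e (nat_lit 426364) (nat_lit 15) (.e (nat_lit 2201) (nat_lit 144) (.e (nat_lit 720934) (nat_lit 21) .nil))))))) (.g (nat_lit 5) .nil .nil))) 
(.lf (nat_lit 184172) (.g (nat_lit 956) (.e (nat_lit 57852) (nat_lit 252) (.e (nat_lit 57424) (nat_lit 14) (.e (nat_lit 352278) (nat_lit 11) (.e (nat_lit 426307) (nat_lit 12) .nil)))) .nil)))) (.nd (nat_lit 5) (.nd (nat_lit 6) 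
(.lf (nat_lit 184092) (.g (nat_lit 2178) (.e (nat_lit 57852) (nat_lit 252) (.e (nat_lit 57419) (nat_lit 12) (.e (nat_lit 336059) (nat_lit 7) (.e (nat_lit 319534) (nat_lit 16) (.e (nat_lit 286749) (nat_lit 9) (.e (nat_lit 335997) (nat_lit 1) (.e (nat_lit 57844) (nat_lit 252) (.e (nat_lit 57364) (nat_lit 1) .nil)))))))) (.g (nat_lit 4) .nil .nil))) 
(.lf (nat_lit 184156) (.g (nat_lit 813) (.e (nat_lit 57852) (nat_lit 252) (.e (nat_lit 57423) (nat_lit 14) (.e (nat_lit 352256) (nat_lit 0) (.e (nat_lit 7387) (nat_lit 392) .nil)))) .nil))) (.nd (nat_lit 6) 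
(.lf (nat_lit 184124) (.g (nat_lit 2541) (.e (nat_lit 57852) (nat_lit 252) (.e (nat_lit 57420) (nat_lit 13) (.e (nat_lit 344129) (nat_lit 26) (.e (nat_lit 557097) (nat_lit 13) (.e (nat_lit 172061) (nat_lit 1) .nil))))) .nil)) 
(.lf (nat_lit 184188) (.g (nat_lit 3057) (.e (nat_lit 57852) (nat_lit 252) (.e (nat_lit 57435) (nat_lit 17) (.e (nat_lit 376842) (nat_lit 11) (.e (nat_lit 426314) (nat_lit 12) (.e (nat_lit 475212) (nat_lit 42) (.e (nat_lit 720931) (nat_lit 21) .nil)))))) (.g (nat_lit 5) .nil .nil)))))))) (.nd (nat_lit 2) (.nd (nat_lit 3) (.nd (nat_lit 4) (.nd (nat_lit 5) (.nd (nat_lit 6) 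
(.lf (nat_lit 184066) (.g (nat_lit 3086) (.e (nat_lit 57852) (nat_lit 252) (.e (nat_lit 57412) (nat_lit 12) (.e (nat_lit 336061) (nat_lit 7) (.e (nat_lit 319533) (nat_lit 16) (.e (nat_lit 286753) (nat_lit 10) (.e (nat_lit 344097) (nat_lit 18) (.e (nat_lit 5194) (nat_lit 294) (.e (nat_lit 57368) (nat_lit 1) .nil)))))))) (.g (nat_lit 4) .nil .nil))) 
(.lf (nat_lit 184130) (.g (nat_lit 1723) (.e (nat_lit 57852) (nat_lit 252) (.e (nat_lit 57420) (nat_lit 13) (.e (nat_lit 344133) (nat_lit 26) (.e (nat_lit 557103) (nat_lit 14) (.e (nat_lit 188160) (nat_lit 0) .nil))))) .nil))) (.nd (nat_lit 6) 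
(.lf (nat_lit 184098) (.g (nat_lit 781) (.e (nat_lit 57852) (nat_lit 252) (.e (nat_lit 57419) (nat_lit 12) (.e (nat_lit 336075) (nat_lit 9) (.e (nat_lit 336441) (nat_lit 32) (.e (nat_lit 474880) (nat_lit 5) .nil))))) .nil)) 
(.lf (nat_lit 184162) (.g (nat_lit 720) (.e (nat_lit 57852) (nat_lit 252) (.e (nat_lit 57423) (nat_lit 14) (.e (nat_lit 352275) (nat_lit 11) .nil))) .nil)))) (.nd (nat_lit 5) (.nd (nat_lit 6) 
(.lf (nat_lit 184082) (.g (nat_lit 3281) (.e (nat_lit 57852) (nat_lit 252) (.e (nat_lit 57413) (nat_lit 12) (.e (nat_lit 336056) (nat_lit 7) (.e (nat_lit 319534) (nat_lit 16) (.e (nat_lit 286756) (nat_lit 10) (.e (nat_lit 344097) (nat_lit 18) (.e (nat_lit 5195) (nat_lit 294) (.e (nat_lit 57368) (nat_lit 1) .nil)))))))) (.g (nat_lit 5) .nil .nil))) 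
(.lf (nat_lit 184146) (.g (nat_lit 2564) (.e (nat_lit 57852) (nat_lit 252) (.e (nat_lit 57421) (nat_lit 13) (.e (nat_lit 344132) (nat_lit 26) (.e (nat_lit 557101) (nat_lit 13) (.e (nat_lit 172061) (nat_lit 1) (.e (nat_lit 164319) (nat_lit 228) (.e (nat_lit 57389) (nat_lit 5) (.e (nat_lit 114712) (nat_lit 21) .nil)))))))) (.g (nat_lit 4) .nil .nil)))) (.nd (nat_lit 6) 
(.lf (nat_lit 184114) (.g (nat_lit 1677) (.e (nat_lit 57852) (nat_lit 252) (.e (nat_lit 57419) (nat_lit 12) (.e (nat_lit 336213) (nat_lit 13) (.e (nat_lit 393293) (nat_lit 26) (.e (nat_lit 475213) (nat_lit 42) .nil))))) .nil)) 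
(.lf (nat_lit 184178) (.g (nat_lit 2098) (.e (nat_lit 57852) (nat_lit 252) (.e (nat_lit 57430) (nat_lit 16) (.e (nat_lit 368676) (nat_lit 21) (.e (nat_lit 516176) (nat_lit 14) (.e (nat_lit 474880) (nat_lit 3) (.e (nat_lit 106240) (nat_lit 1) .nil)))))) (.g (nat_lit 4) .nil .nil)))))) (.nd (nat_lit 4) (.nd (nat_lit 5) (.nd (nat_lit 6) 
(.lf (nat_lit 184074) (.g (nat_lit 1449) (.e (nat_lit 57852) (nat_lit 252) (.e (nat_lit 57412) (nat_lit 12) (.e (nat_lit 336389) (nat_lit 27) (.e (nat_lit 426521) (nat_lit 27) .nil)))) .nil)) 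
(.lf (nat_lit 184138) (.g (nat_lit 2664) (.e (nat_lit 57852) (nat_lit 252) (.e (nat_lit 57421) (nat_lit 13) (.e (nat_lit 344129) (nat_lit 26) (.e (nat_lit 557097) (nat_lit 13) (.e (nat_lit 172061) (nat_lit 1) (.e (nat_lit 164319) (nat_lit 228) (.e (nat_lit 57389) (nat_lit 5) (.e (nat_lit 114712) (nat_lit 21) .nil)))))))) (.g (nat_lit 4) .nil .nil)))) (.nd (nat_lit 6) 
(.lf (nat_lit 184106) (.g (nat_lit 2410) (.e (nat_lit 57852) (nat_lit 252) (.e (nat_lit 57419) (nat_lit 12) (.e (nat_lit 336213) (nat_lit 13) (.e (nat_lit 393273) (nat_lit 23) (.e (nat_lit 426364) (nat_lit 15) (.e (nat_lit 2184) (nat_lit 144) (.e (nat_lit 720934) (nat_lit 21) .nil))))))) (.g (nat_lit 5) .nil .nil))) 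
(.lf (nat_lit 184170) (.g (nat_lit 1012) (.e (nat_lit 57852) (nat_lit 252) (.e (nat_lit 57424) (nat_lit 14) (.e (nat_lit 352277) (nat_lit 11) (.e (nat_lit 426258) (nat_lit 9) .nil)))) .nil)))) (.nd (nat_lit 5) (.nd (nat_lit 6) 
(.lf (nat_lit 184090) (.g (nat_lit 747) (.e (nat_lit 57852) (nat_lit 252) (.e (nat_lit 57417) (nat_lit 12) (.e (nat_lit 336396) (nat_lit 27) .nil))) .nil)) 
(.lf (nat_lit 184154) (.g (nat_lit 2205) (.e (nat_lit 57852) (nat_lit 252) (.e (nat_lit 57421) (nat_lit 13) (.e (nat_lit 344133) (nat_lit 26) (.e (nat_lit 557105) (nat_lit 14) (.e (nat_lit 180265) (nat_lit 21) .nil))))) .nil))) (.nd (nat_lit 6) 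
(.lf (nat_lit 184122) (.g (nat_lit 3719) (.e (nat_lit 57852) (nat_lit 252) (.e (nat_lit 57420) (nat_lit 13) (.e (nat_lit 344117) (nat_lit 21) (.e (nat_lit 516151) (nat_lit 9) (.e (nat_lit 426170) (nat_lit 7) (.e (nat_lit 409612) (nat_lit 10) (.e (nat_lit 604) (nat_lit 45) (.e (nat_lit 532501) (nat_lit 1) .nil)))))))) (.g (nat_lit 4) .nil .nil))) 
(.lf (nat_lit 184186) (.g (nat_lit 2752) (.e (nat_lit 57852) (nat_lit 252) (.e (nat_lit 57435) (nat_lit 17) (.e (nat_lit 376842) (nat_lit 11) (.e (nat_lit 426307) (nat_lit 12) (.e (nat_lit 475212) (nat_lit 42) (.e (nat_lit 720934) (nat_lit 21) .nil)))))) (.g (nat_lit 5) .nil .nil))))))) (.nd (nat_lit 3) (.nd (nat_lit 4) (.nd (nat_lit 5) (.nd (nat_lit 6) 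
(.lf (nat_lit 184070) (.g (nat_lit 3244) (.e (nat_lit 57852) (nat_lit 252) (.e (nat_lit 57412) (nat_lit 12) (.e (nat_lit 336061) (nat_lit 7) (.e (nat_lit 319534) (nat_lit 16) (.e (nat_lit 286756) (nat_lit 10) (.e (nat_lit 344097) (nat_lit 18) (.e (nat_lit 5194) (nat_lit 294) (.e (nat_lit 57368) (nat_lit 1) .nil)))))))) (.g (nat_lit 4) .nil .nil))) 
(.lf (nat_lit 184134) (.g (nat_lit 4032) (.e (nat_lit 57852) (nat_lit 252) (.e (nat_lit 57421) (nat_lit 13) (.e (nat_lit 344117) (nat_lit 21) (.e (nat_lit 516151) (nat_lit 9) (.e (nat_lit 426166) (nat_lit 7) (.e (nat_lit 409617) (nat_lit 10) (.e (nat_lit 604) (nat_lit 45) (.e (nat_lit 532501) (nat_lit 1) .nil)))))))) (.g (nat_lit 4) .nil .nil)))) (.nd (nat_lit 6) 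
(.lf (nat_lit 184102) (.g (nat_lit 1651) (.e (nat_lit 57852) (nat_lit 252) (.e (nat_lit 57419) (nat_lit 12) (.e (nat_lit 336078) (nat_lit 9) (.e (nat_lit 336443) (nat_lit 32) (.e (nat_lit 474880) (nat_lit 5) (.e (nat_lit 114712) (nat_lit 21) .nil)))))) (.g (nat_lit 4) .nil .nil))) 
(.lf (nat_lit 184166) (.g (nat_lit 720) (.e (nat_lit 57852) (nat_lit 252) (.e (nat_lit 57423) (nat_lit 14) (.e (nat_lit 352278) (nat_lit 11) .nil))) .nil)))) (.nd (nat_lit 5) (.nd (nat_lit 6) 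
(.lf (nat_lit 184086) (.g (nat_lit 1965) (.e (nat_lit 57852) (nat_lit 252) (.e (nat_lit 57415) (nat_lit 12) (.e (nat_lit 336060) (nat_lit 7) (.e (nat_lit 319534) (nat_lit 16) (.e (nat_lit 286749) (nat_lit 9) (.e (nat_lit 335997) (nat_lit 1) (.e (nat_lit 57846) (nat_lit 252) (.e (nat_lit 57365) (nat_lit 1) .nil)))))))) (.g (nat_lit 4) .nil .nil))) 
(.lf (nat_lit 184150) (.g (nat_lit 2890) (.e (nat_lit 57852) (nat_lit 252) (.e (nat_lit 57421) (nat_lit 13) (.e (nat_lit 344133) (nat_lit 26) (.e (nat_lit 557103) (nat_lit 14) (.e (nat_lit 188160) (nat_lit 0) (.e (nat_lit 5195) (nat_lit 294) (.e (nat_lit 57390) (nat_lit 5) (.e (nat_lit 114712) (nat_lit 21) .nil)))))))) (.g (nat_lit 4) .nil .nil)))) (.nd (nat_lit 6) 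
(.lf (nat_lit 184118) (.g (nat_lit 1761) (.e (nat_lit 57852) (nat_lit 252) (.e (nat_lit 57419) (nat_lit 12) (.e (nat_lit 336213) (nat_lit 13) (.e (nat_lit 393296) (nat_lit 26) (.e (nat_lit 475213) (nat_lit 42) .nil))))) .nil)) 
(.lf (nat_lit 184182) (.g (nat_lit 2409) (.e (nat_lit 57852) (nat_lit 252) (.e (nat_lit 57435) (nat_lit 17) (.e (nat_lit 376842) (nat_lit 11) (.e (nat_lit 426188) (nat_lit 9) (.e (nat_lit 426350) (nat_lit 15) (.e (nat_lit 2203) (nat_lit 144) (.e (nat_lit 720934) (nat_lit 21) .nil))))))) (.g (nat_lit 4) .nil .nil)))))) (.nd (nat_lit 4) (.nd (nat_lit 5) (.nd (nat_lit 6) 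
(.lf (nat_lit 184078) (.g (nat_lit 2763) (.e (nat_lit 57852) (nat_lit 252) (.e (nat_lit 57413) (nat_lit 12) (.e (nat_lit 336054) (nat_lit 7) (.e (nat_lit 319534) (nat_lit 16) (.e (nat_lit 286756) (nat_lit 10) (.e (nat_lit 344097) (nat_lit 18) (.e (nat_lit 5195) (nat_lit 294) (.e (nat_lit 57368) (nat_lit 1) .nil)))))))) (.g (nat_lit 5) .nil .nil))) 
(.lf (nat_lit 184142) (.g (nat_lit 2564) (.e (nat_lit 57852) (nat_lit 252) (.e (nat_lit 57421) (nat_lit 13) (.e (nat_lit 344130) (nat_lit 26) (.e (nat_lit 557097) (nat_lit 13) (.e (nat_lit 172061) (nat_lit 1) (.e (nat_lit 164319) (nat_lit 228) (.e (nat_lit 57389) (nat_lit 5) (.e (nat_lit 114712) (nat_lit 21) .nil)))))))) (.g (nat_lit 4) .nil .nil)))) (.nd (nat_lit 6) 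
(.lf (nat_lit 184110) (.g (nat_lit 2597) (.e (nat_lit 57852) (nat_lit 252) (.e (nat_lit 57419) (nat_lit 12) (.e (nat_lit 336213) (nat_lit 13) (.e (nat_lit 393274) (nat_lit 23) (.e (nat_lit 433920) (nat_lit 20) (.e (nat_lit 114712) (nat_lit 21) .nil)))))) (.g (nat_lit 4) .nil .nil))) 
(.lf (nat_lit 184174) (.g (nat_lit 525) (.e (nat_lit 57852) (nat_lit 252) (.e (nat_lit 57427) (nat_lit 15) (.e (nat_lit 360451) (nat_lit 0) .nil))) .nil)))) (.nd (nat_lit 5) (.nd (nat_lit 6) 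
(.lf (nat_lit 184094) (.g (nat_lit 3176) (.e (nat_lit 57852) (nat_lit 252) (.e (nat_lit 57419) (nat_lit 12) (.e (nat_lit 336059) (nat_lit 7) (.e (nat_lit 319534) (nat_lit 16) (.e (nat_lit 286756) (nat_lit 10) (.e (nat_lit 344097) (nat_lit 18) (.e (nat_lit 5194) (nat_lit 294) (.e (nat_lit 57365) (nat_lit 1) .nil)))))))) (.g (nat_lit 5) .nil .nil))) 
(.lf (nat_lit 184158) (.g (nat_lit 1924) (.e (nat_lit 57852) (nat_lit 252) (.e (nat_lit 57423) (nat_lit 14) (.e (nat_lit 352271) (nat_lit 9) (.e (nat_lit 409602) (nat_lit 0) (.e (nat_lit 5629) (nat_lit 312) (.e (nat_lit 126) (nat_lit 5) (.e (nat_lit 114712) (nat_lit 21) .nil))))))) (.g (nat_lit 4) .nil .nil)))) (.nd (nat_lit 6) 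
(.lf (nat_lit 184126) (.g (nat_lit 2665) (.e (nat_lit 57852) (nat_lit 252) (.e (nat_lit 57420) (nat_lit 13) (.e (nat_lit 344129) (nat_lit 26) (.e (nat_lit 557104) (nat_lit 14) (.e (nat_lit 180233) (nat_lit 0) .nil))))) .nil)) 
(.lf (nat_lit 184190) (.g (nat_lit 3069) (.e (nat_lit 57852) (nat_lit 252) (.e (nat_lit 57435) (nat_lit 17) (.e (nat_lit 376842) (nat_lit 11) (.e (nat_lit 426314) (nat_lit 12) (.e (nat_lit 475214) (nat_lit 42) (.e (nat_lit 720930) (nat_lit 21) .nil)))))) (.g (nat_lit 5) .nil .nil))))))))) (.nd (nat_lit 1) (.nd (nat_lit 2) (.nd (nat_lit 3) (.nd (nat_lit 4) (.nd (nat_lit 5) (.nd (nat_lit 6) 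
(.lf (nat_lit 184065) (.g (nat_lit 2505) (.e (nat_lit 57852) (nat_lit 252) (.e (nat_lit 57412) (nat_lit 12) (.e (nat_lit 336061) (nat_lit 7) (.e (nat_lit 319533) (nat_lit 16) (.e (nat_lit 286753) (nat_lit 10) .nil))))) .nil)) 
(.lf (nat_lit 184129) (.g (nat_lit 3067) (.e (nat_lit 57852) (nat_lit 252) (.e (nat_lit 57420) (nat_lit 13) (.e (nat_lit 344133) (nat_lit 26) (.e (nat_lit 557098) (nat_lit 13) (.e (nat_lit 172061) (nat_lit 1) (.e (nat_lit 164319) (nat_lit 228) (.e (nat_lit 57389) (nat_lit 5) (.e (nat_lit 114712) (nat_lit 21) .nil)))))))) (.g (nat_lit 4) .nil .nil)))) (.nd (nat_lit 6) 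
(.lf (nat_lit 184097) (.g (nat_lit 1669) (.e (nat_lit 57852) (nat_lit 252) (.e (nat_lit 57419) (nat_lit 12) (.e (nat_lit 336075) (nat_lit 9) (.e (nat_lit 336430) (nat_lit 29) (.e (nat_lit 450304) (nat_lit 5) (.e (nat_lit 114712) (nat_lit 21) .nil)))))) (.g (nat_lit 4) .nil .nil))) 
(.lf (nat_lit 184161) (.g (nat_lit 721) (.e (nat_lit 57852) (nat_lit 252) (.e (nat_lit 57423) (nat_lit 14) (.e (nat_lit 352274) (nat_lit 11) .nil))) .nil)))) (.nd (nat_lit 5) (.nd (nat_lit 6) 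
(.lf (nat_lit 184081) (.g (nat_lit 2817) (.e (nat_lit 57852) (nat_lit 252) (.e (nat_lit 57413) (nat_lit 12) (.e (nat_lit 336056) (nat_lit 7) (.e (nat_lit 319533) (nat_lit 16) (.e (nat_lit 286753) (nat_lit 10) (.e (nat_lit 344097) (nat_lit 18) (.e (nat_lit 5195) (nat_lit 294) (.e (nat_lit 57368) (nat_lit 1) .nil)))))))) (.g (nat_lit 5) .nil .nil))) 
(.lf (nat_lit 184145) (.g (nat_lit 2664) (.e (nat_lit 57852) (nat_lit 252) (.e (nat_lit 57421) (nat_lit 13) (.e (nat_lit 344132) (nat_lit 26) (.e (nat_lit 557100) (nat_lit 13) (.e (nat_lit 172061) (nat_lit 1) (.e (nat_lit 164319) (nat_lit 228) (.e (nat_lit 57389) (nat_lit 5) (.e (nat_lit 114712) (nat_lit 21) .nil)))))))) (.g (nat_lit 4) .nil .nil)))) (.nd (nat_lit 6) 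
(.lf (nat_lit 184113) (.g (nat_lit 1955) (.e (nat_lit 57852) (nat_lit 252) (.e (nat_lit 57419) (nat_lit 12) (.e (nat_lit 336213) (nat_lit 13) (.e (nat_lit 393290) (nat_lit 26) (.e (nat_lit 475214) (nat_lit 42) .nil))))) .nil)) 
(.lf (nat_lit 184177) (.g (nat_lit 1593) (.e (nat_lit 57852) (nat_lit 252) (.e (nat_lit 57430) (nat_lit 16) (.e (nat_lit 368676) (nat_lit 21) (.e (nat_lit 516174) (nat_lit 14) (.e (nat_lit 474880) (nat_lit 3) (.e (nat_lit 106240) (nat_lit 1) .nil)))))) (.g (nat_lit 4) .nil .nil)))))) (.nd (nat_lit 4) (.nd (nat_lit 5) (.nd (nat_lit 6) 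
(.lf (nat_lit 184073) (.g (nat_lit 1210) (.e (nat_lit 57852) (nat_lit 252) (.e (nat_lit 57412) (nat_lit 12) (.e (nat_lit 336073) (nat_lit 9) (.e (nat_lit 336428) (nat_lit 29) (.e (nat_lit 450304) (nat_lit 5) .nil))))) .nil)) 
(.lf (nat_lit 184137) (.g (nat_lit 1355) (.e (nat_lit 57852) (nat_lit 252) (.e (nat_lit 57421) (nat_lit 13) (.e (nat_lit 344117) (nat_lit 21) (.e (nat_lit 516160) (nat_lit 10) .nil)))) .nil))) (.nd (nat_lit 6) 
(.lf (nat_lit 184105) (.g (nat_lit 1847) (.e (nat_lit 57852) (nat_lit 252) (.e (nat_lit 57419) (nat_lit 12) (.e (nat_lit 336213) (nat_lit 13) (.e (nat_lit 393272) (nat_lit 23) .nil)))) .nil)) 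
(.lf (nat_lit 184169) (.g (nat_lit 363) (.e (nat_lit 57852) (nat_lit 252) (.e (nat_lit 57424) (nat_lit 14) (.e (nat_lit 352277) (nat_lit 11) .nil))) .nil)))) (.nd (nat_lit 5) (.nd (nat_lit 6) 
(.lf (nat_lit 184089) (.g (nat_lit 1125) (.e (nat_lit 57852) (nat_lit 252) (.e (nat_lit 57417) (nat_lit 12) (.e (nat_lit 336390) (nat_lit 27) (.e (nat_lit 426500) (nat_lit 27) .nil)))) .nil)) 
(.lf (nat_lit 184153) (.g (nat_lit 2431) (.e (nat_lit 57852) (nat_lit 252) (.e (nat_lit 57421) (nat_lit 13) (.e (nat_lit 344133) (nat_lit 26) (.e (nat_lit 557105) (nat_lit 14) (.e (nat_lit 188160) (nat_lit 0) (.e (nat_lit 5195) (nat_lit 294) (.e (nat_lit 57390) (nat_lit 5) (.e (nat_lit 114712) (nat_lit 21) .nil)))))))) (.g (nat_lit 4) .nil .nil)))) (.nd (nat_lit 6) 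
(.lf (nat_lit 184121) (.g (nat_lit 3561) (.e (nat_lit 57852) (nat_lit 252) (.e (nat_lit 57420) (nat_lit 13) (.e (nat_lit 344117) (nat_lit 21) (.e (nat_lit 516151) (nat_lit 9) (.e (nat_lit 426166) (nat_lit 7) (.e (nat_lit 409617) (nat_lit 10) (.e (nat_lit 604) (nat_lit 45) (.e (nat_lit 532501) (nat_lit 1) .nil)))))))) (.g (nat_lit 4) .nil .nil))) 
(.lf (nat_lit 184185) (.g (nat_lit 1458) (.e (nat_lit 57852) (nat_lit 252) (.e (nat_lit 57435) (nat_lit 17) (.e (nat_lit 376842) (nat_lit 11) (.e (nat_lit 426222) (nat_lit 9) .nil)))) .nil)))))) (.nd (nat_lit 3) (.nd (nat_lit 4) (.nd (nat_lit 5) (.nd (nat_lit 6) 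
(.lf (nat_lit 184069) (.g (nat_lit 3262) (.e (nat_lit 57852) (nat_lit 252) (.e (nat_lit 57412) (nat_lit 12) (.e (nat_lit 336061) (nat_lit 7) (.e (nat_lit 319534) (nat_lit 16) (.e (nat_lit 286749) (nat_lit 9) (.e (nat_lit 335997) (nat_lit 1) (.e (nat_lit 57848) (nat_lit 252) (.e (nat_lit 57368) (nat_lit 1) .nil)))))))) (.g (nat_lit 4) .nil .nil))) 
(.lf (nat_lit 184133) (.g (nat_lit 2618) (.e (nat_lit 57852) (nat_lit 252) (.e (nat_lit 57421) (nat_lit 13) (.e (nat_lit 344117) (nat_lit 21) (.e (nat_lit 516145) (nat_lit 9) (.e (nat_lit 426422) (nat_lit 16) (.e (nat_lit 57692) (nat_lit 156) (.e (nat_lit 163874) (nat_lit 3) (.e (nat_lit 204830) (nat_lit 18) .nil)))))))) (.g (nat_lit 4) .nil .nil)))) (.nd (nat_lit 6) 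
(.lf (nat_lit 184101) (.g (nat_lit 1716) (.e (nat_lit 57852) (nat_lit 252) (.e (nat_lit 57419) (nat_lit 12) (.e (nat_lit 336078) (nat_lit 9) (.e (nat_lit 336443) (nat_lit 32) (.e (nat_lit 474880) (nat_lit 5) (.e (nat_lit 114710) (nat_lit 21) .nil)))))) (.g (nat_lit 4) .nil .nil))) 
(.lf (nat_lit 184165) (.g (nat_lit 2923) (.e (nat_lit 57852) (nat_lit 252) (.e (nat_lit 57423) (nat_lit 14) (.e (nat_lit 352277) (nat_lit 11) (.e (nat_lit 426308) (nat_lit 12) (.e (nat_lit 475212) (nat_lit 42) (.e (nat_lit 720930) (nat_lit 21) .nil)))))) (.g (nat_lit 0) .nil .nil))))) (.nd (nat_lit 5) (.nd (nat_lit 6) 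
(.lf (nat_lit 184085) (.g (nat_lit 3451) (.e (nat_lit 57852) (nat_lit 252) (.e (nat_lit 57415) (nat_lit 12) (.e (nat_lit 336060) (nat_lit 7) (.e (nat_lit 319533) (nat_lit 16) (.e (nat_lit 286753) (nat_lit 10) (.e (nat_lit 344097) (nat_lit 18) (.e (nat_lit 5195) (nat_lit 294) (.e (nat_lit 57365) (nat_lit 1) .nil)))))))) (.g (nat_lit 7) .nil .nil))) 
(.lf (nat_lit 184149) (.g (nat_lit 2533) (.e (nat_lit 57852) (nat_lit 252) (.e (nat_lit 57421) (nat_lit 13) (.e (nat_lit 344133) (nat_lit 26) (.e (nat_lit 557098) (nat_lit 13) (.e (nat_lit 172139) (nat_lit 21) .nil))))) .nil))) (.nd (nat_lit 6) 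
(.lf (nat_lit 184117) (.g (nat_lit 3303) (.e (nat_lit 57852) (nat_lit 252) (.e (nat_lit 57419) (nat_lit 12) (.e (nat_lit 336213) (nat_lit 13) (.e (nat_lit 393296) (nat_lit 26) (.e (nat_lit 475212) (nat_lit 42) (.e (nat_lit 720934) (nat_lit 21) .nil)))))) (.g (nat_lit 5) .nil .nil))) 
(.lf (nat_lit 184181) (.g (nat_lit 1173) (.e (nat_lit 57852) (nat_lit 252) (.e (nat_lit 57435) (nat_lit 17) (.e (nat_lit 376842) (nat_lit 11) (.e (nat_lit 426186) (nat_lit 9) .nil)))) .nil))))) (.nd (nat_lit 4) (.nd (nat_lit 5) (.nd (nat_lit 6) 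
(.lf (nat_lit 184077) (.g (nat_lit 2196) (.e (nat_lit 57852) (nat_lit 252) (.e (nat_lit 57413) (nat_lit 12) (.e (nat_lit 336054) (nat_lit 7) (.e (nat_lit 319534) (nat_lit 16) (.e (nat_lit 286756) (nat_lit 10) (.e (nat_lit 344097) (nat_lit 18) (.e (nat_lit 5195) (nat_lit 294) (.e (nat_lit 57365) (nat_lit 1) .nil)))))))) (.g (nat_lit 4) .nil .nil))) 
(.lf (nat_lit 184141) (.g (nat_lit 2198) (.e (nat_lit 57852) (nat_lit 252) (.e (nat_lit 57421) (nat_lit 13) (.e (nat_lit 344129) (nat_lit 26) (.e (nat_lit 557104) (nat_lit 14) (.e (nat_lit 188160) (nat_lit 0) (.e (nat_lit 5199) (nat_lit 294) (.e (nat_lit 57390) (nat_lit 5) (.e (nat_lit 114712) (nat_lit 21) .nil)))))))) (.g (nat_lit 4) .nil .nil)))) (.nd (nat_lit 6) 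
(.lf (nat_lit 184109) (.g (nat_lit 1847) (.e (nat_lit 57852) (nat_lit 252) (.e (nat_lit 57419) (nat_lit 12) (.e (nat_lit 336213) (nat_lit 13) (.e (nat_lit 393274) (nat_lit 23) .nil)))) .nil)) 
(.lf (nat_lit 184173) (.g (nat_lit 555) (.e (nat_lit 57852) (nat_lit 252) (.e (nat_lit 57426) (nat_lit 15) (.e (nat_lit 360478) (nat_lit 12) .nil))) .nil)))) (.nd (nat_lit 5) (.nd (nat_lit 6) 
(.lf (nat_lit 184093) (.g (nat_lit 2938) (.e (nat_lit 57852) (nat_lit 252) (.e (nat_lit 57419) (nat_lit 12) (.e (nat_lit 336059) (nat_lit 7) (.e (nat_lit 319534) (nat_lit 16) (.e (nat_lit 286749) (nat_lit 9) (.e (nat_lit 335997) (nat_lit 1) (.e (nat_lit 57848) (nat_lit 252) (.e (nat_lit 57365) (nat_lit 1) .nil)))))))) (.g (nat_lit 5) .nil .nil))) 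
(.lf (nat_lit 184157) (.g (nat_lit 591) (.e (nat_lit 57852) (nat_lit 252) (.e (nat_lit 57423) (nat_lit 14) (.e (nat_lit 352257) (nat_lit 0) .nil))) .nil))) (.nd (nat_lit 6) 
(.lf (nat_lit 184125) (.g (nat_lit 2417) (.e (nat_lit 57852) (nat_lit 252) (.e (nat_lit 57420) (nat_lit 13) (.e (nat_lit 344129) (nat_lit 26) (.e (nat_lit 557103) (nat_lit 14) (.e (nat_lit 188160) (nat_lit 0) .nil))))) .nil)) 
(.lf (nat_lit 184189) (.g (nat_lit 3051) (.e (nat_lit 57852) (nat_lit 252) (.e (nat_lit 57435) (nat_lit 17) (.e (nat_lit 376842) (nat_lit 11) (.e (nat_lit 426314) (nat_lit 12) (.e (nat_lit 475212) (nat_lit 42) (.e (nat_lit 720934) (nat_lit 21) .nil)))))) (.g (nat_lit 5) .nil .nil)))))))) (.nd (nat_lit 2) (.nd (nat_lit 3) (.nd (nat_lit 4) (.nd (nat_lit 5) (.nd (nat_lit 6) 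
(.lf (nat_lit 184067) (.g (nat_lit 2812) (.e (nat_lit 57852) (nat_lit 252) (.e (nat_lit 57412) (nat_lit 12) (.e (nat_lit 336061) (nat_lit 7) (.e (nat_lit 319533) (nat_lit 16) (.e (nat_lit 286753) (nat_lit 10) (.e (nat_lit 344097) (nat_lit 18) (.e (nat_lit 5195) (nat_lit 294) (.e (nat_lit 57365) (nat_lit 1) .nil)))))))) (.g (nat_lit 4) .nil .nil))) 
(.lf (nat_lit 184131) (.g (nat_lit 2009) (.e (nat_lit 57852) (nat_lit 252) (.e (nat_lit 57420) (nat_lit 13) (.e (nat_lit 344133) (nat_lit 26) (.e (nat_lit 557105) (nat_lit 14) (.e (nat_lit 188160) (nat_lit 0) .nil))))) .nil))) (.nd (nat_lit 6) 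
(.lf (nat_lit 184099) (.g (nat_lit 906) (.e (nat_lit 57852) (nat_lit 252) (.e (nat_lit 57419) (nat_lit 12) (.e (nat_lit 336076) (nat_lit 9) (.e (nat_lit 336428) (nat_lit 29) .nil)))) .nil)) 
(.lf (nat_lit 184163) (.g (nat_lit 1174) (.e (nat_lit 57852) (nat_lit 252) (.e (nat_lit 57423) (nat_lit 14) (.e (nat_lit 352275) (nat_lit 11) (.e (nat_lit 426190) (nat_lit 9) .nil)))) .nil)))) (.nd (nat_lit 5) (.nd (nat_lit 6) 
(.lf (nat_lit 184083) (.g (nat_lit 1704) (.e (nat_lit 57852) (nat_lit 252) (.e (nat_lit 57415) (nat_lit 12) (.e (nat_lit 336054) (nat_lit 7) (.e (nat_lit 319533) (nat_lit 16) (.e (nat_lit 286753) (nat_lit 10) (.e (nat_lit 344097) (nat_lit 18) (.e (nat_lit 5195) (nat_lit 294) (.e (nat_lit 57368) (nat_lit 1) .nil)))))))) (.g (nat_lit 4) .nil .nil))) 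
(.lf (nat_lit 184147) (.g (nat_lit 2767) (.e (nat_lit 57852) (nat_lit 252) (.e (nat_lit 57421) (nat_lit 13) (.e (nat_lit 344133) (nat_lit 26) (.e (nat_lit 557098) (nat_lit 13) (.e (nat_lit 172061) (nat_lit 1) (.e (nat_lit 164319) (nat_lit 228) (.e (nat_lit 57390) (nat_lit 5) (.e (nat_lit 114712) (nat_lit 21) .nil)))))))) (.g (nat_lit 4) .nil .nil)))) (.nd (nat_lit 6) 
(.lf (nat_lit 184115) (.g (nat_lit 903) (.e (nat_lit 57852) (nat_lit 252) (.e (nat_lit 57419) (nat_lit 12) (.e (nat_lit 336213) (nat_lit 13) (.e (nat_lit 393296) (nat_lit 26) .nil)))) .nil)) 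
(.lf (nat_lit 184179) (.g (nat_lit 1725) (.e (nat_lit 57852) (nat_lit 252) (.e (nat_lit 57431) (nat_lit 16) (.e (nat_lit 368676) (nat_lit 21) (.e (nat_lit 516176) (nat_lit 14) (.e (nat_lit 474880) (nat_lit 3) (.e (nat_lit 106240) (nat_lit 1) .nil)))))) (.g (nat_lit 4) .nil .nil)))))) (.nd (nat_lit 4) (.nd (nat_lit 5) (.nd (nat_lit 6) 
(.lf (nat_lit 184075) (.g (nat_lit 1394) (.e (nat_lit 57852) (nat_lit 252) (.e (nat_lit 57412) (nat_lit 12) (.e (nat_lit 336389) (nat_lit 27) (.e (nat_lit 426523) (nat_lit 27) .nil)))) .nil)) 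
(.lf (nat_lit 184139) (.g (nat_lit 1737) (.e (nat_lit 57852) (nat_lit 252) (.e (nat_lit 57421) (nat_lit 13) (.e (nat_lit 344129) (nat_lit 26) (.e (nat_lit 557103) (nat_lit 14) (.e (nat_lit 188160) (nat_lit 0) .nil))))) .nil))) (.nd (nat_lit 6) 
(.lf (nat_lit 184107) (.g (nat_lit 1871) (.e (nat_lit 57852) (nat_lit 252) (.e (nat_lit 57419) (nat_lit 12) (.e (nat_lit 336213) (nat_lit 13) (.e (nat_lit 393273) (nat_lit 23) (.e (nat_lit 426364) (nat_lit 15) (.e (nat_lit 2191) (nat_lit 144) (.e (nat_lit 720934) (nat_lit 21) .nil))))))) (.g (nat_lit 4) .nil .nil))) 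
(.lf (nat_lit 184171) (.g (nat_lit 2862) (.e (nat_lit 57852) (nat_lit 252) (.e (nat_lit 57424) (nat_lit 14) (.e (nat_lit 352277) (nat_lit 11) (.e (nat_lit 426308) (nat_lit 12) (.e (nat_lit 475212) (nat_lit 42) (.e (nat_lit 720930) (nat_lit 21) .nil)))))) (.g (nat_lit 0) .nil .nil))))) (.nd (nat_lit 5) (.nd (nat_lit 6) 
(.lf (nat_lit 184091) (.g (nat_lit 1799) (.e (nat_lit 57852) (nat_lit 252) (.e (nat_lit 57418) (nat_lit 12) (.e (nat_lit 336213) (nat_lit 13) (.e (nat_lit 393273) (nat_lit 23) (.e (nat_lit 426446) (nat_lit 20) .nil))))) .nil)) 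
(.lf (nat_lit 184155) (.g (nat_lit 225) (.e (nat_lit 57852) (nat_lit 252) (.e (nat_lit 57421) (nat_lit 13) (.e (nat_lit 344144) (nat_lit 31) .nil))) .nil))) (.nd (nat_lit 6) 
(.lf (nat_lit 184123) (.g (nat_lit 3679) (.e (nat_lit 57852) (nat_lit 252) (.e (nat_lit 57420) (nat_lit 13) (.e (nat_lit 344117) (nat_lit 21) (.e (nat_lit 516151) (nat_lit 9) (.e (nat_lit 426170) (nat_lit 7) (.e (nat_lit 409616) (nat_lit 10) (.e (nat_lit 604) (nat_lit 45) (.e (nat_lit 532501) (nat_lit 1) .nil)))))))) (.g (nat_lit 4) .nil .nil))) 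
(.lf (nat_lit 184187) (.g (nat_lit 1752) (.e (nat_lit 57852) (nat_lit 252) (.e (nat_lit 57435) (nat_lit 17) (.e (nat_lit 376842) (nat_lit 11) (.e (nat_lit 426313) (nat_lit 12) (.e (nat_lit 475213) (nat_lit 42) .nil))))) .nil)))))) (.nd (nat_lit 3) (.nd (nat_lit 4) (.nd (nat_lit 5) (.nd (nat_lit 6) 
(.lf (nat_lit 184071) (.g (nat_lit 3104) (.e (nat_lit 57852) (nat_lit 252) (.e (nat_lit 57412) (nat_lit 12) (.e (nat_lit 336061) (nat_lit 7) (.e (nat_lit 319534) (nat_lit 16) (.e (nat_lit 286756) (nat_lit 10) (.e (nat_lit 344097) (nat_lit 18) (.e (nat_lit 5195) (nat_lit 294) (.e (nat_lit 57365) (nat_lit 1) .nil)))))))) (.g (nat_lit 4) .nil .nil))) 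
(.lf (nat_lit 184135) (.g (nat_lit 3911) (.e (nat_lit 57852) (nat_lit 252) (.e (nat_lit 57421) (nat_lit 13) (.e (nat_lit 344117) (nat_lit 21) (.e (nat_lit 516151) (nat_lit 9) (.e (nat_lit 426170) (nat_lit 7) (.e (nat_lit 409611) (nat_lit 10) (.e (nat_lit 604) (nat_lit 45) (.e (nat_lit 532504) (nat_lit 1) .nil)))))))) (.g (nat_lit 4) .nil .nil)))) (.nd (nat_lit 6) 
(.lf (nat_lit 184103) (.g (nat_lit 1923) (.e (nat_lit 57852) (nat_lit 252) (.e (nat_lit 57419) (nat_lit 12) (.e (nat_lit 336213) (nat_lit 13) (.e (nat_lit 393267) (nat_lit 23) (.e (nat_lit 426448) (nat_lit 20) .nil))))) .nil)) 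
(.lf (nat_lit 184167) (.g (nat_lit 898) (.e (nat_lit 57852) (nat_lit 252) (.e (nat_lit 57424) (nat_lit 14) (.e (nat_lit 352256) (nat_lit 0) .nil))) .nil)))) (.nd (nat_lit 5) (.nd (nat_lit 6) 
(.lf (nat_lit 184087) (.g (nat_lit 3846) (.e (nat_lit 57852) (nat_lit 252) (.e (nat_lit 57415) (nat_lit 12) (.e (nat_lit 336060) (nat_lit 7) (.e (nat_lit 319534) (nat_lit 16) (.e (nat_lit 286756) (nat_lit 10) (.e (nat_lit 344097) (nat_lit 18) (.e (nat_lit 5195) (nat_lit 294) (.e (nat_lit 57365) (nat_lit 1) .nil)))))))) (.g (nat_lit 7) .nil .nil))) 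
(.lf (nat_lit 184151) (.g (nat_lit 2816) (.e (nat_lit 57852) (nat_lit 252) (.e (nat_lit 57421) (nat_lit 13) (.e (nat_lit 344133) (nat_lit 26) (.e (nat_lit 557105) (nat_lit 14) (.e (nat_lit 180224) (nat_lit 0) (.e (nat_lit 5206) (nat_lit 294) (.e (nat_lit 57389) (nat_lit 5) (.e (nat_lit 114712) (nat_lit 21) .nil)))))))) (.g (nat_lit 4) .nil .nil)))) (.nd (nat_lit 6) 
(.lf (nat_lit 184119) (.g (nat_lit 920) (.e (nat_lit 57852) (nat_lit 252) (.e (nat_lit 57419) (nat_lit 12) (.e (nat_lit 336215) (nat_lit 13) (.e (nat_lit 393271) (nat_lit 23) .nil)))) .nil)) 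
(.lf (nat_lit 184183) (.g (nat_lit 1753) (.e (nat_lit 57852) (nat_lit 252) (.e (nat_lit 57435) (nat_lit 17) (.e (nat_lit 376842) (nat_lit 11) (.e (nat_lit 426198) (nat_lit 9) (.e (nat_lit 433920) (nat_lit 20) (.e (nat_lit 114710) (nat_lit 21) .nil)))))) (.g (nat_lit 4) .nil .nil)))))) (.nd (nat_lit 4) (.nd (nat_lit 5) (.nd (nat_lit 6) 
(.lf (nat_lit 184079) (.g (nat_lit 2193) (.e (nat_lit 57852) (nat_lit 252) (.e (nat_lit 57413) (nat_lit 12) (.e (nat_lit 336055) (nat_lit 7) (.e (nat_lit 319534) (nat_lit 16) (.e (nat_lit 286749) (nat_lit 9) (.e (nat_lit 335997) (nat_lit 1) (.e (nat_lit 57848) (nat_lit 252) (.e (nat_lit 57368) (nat_lit 1) .nil)))))))) (.g (nat_lit 4) .nil .nil))) 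
(.lf (nat_lit 184143) (.g (nat_lit 1750) (.e (nat_lit 57852) (nat_lit 252) (.e (nat_lit 57421) (nat_lit 13) (.e (nat_lit 344130) (nat_lit 26) (.e (nat_lit 557103) (nat_lit 14) (.e (nat_lit 188160) (nat_lit 0) .nil))))) .nil))) (.nd (nat_lit 6) 
(.lf (nat_lit 184111) (.g (nat_lit 2245) (.e (nat_lit 57852) (nat_lit 252) (.e (nat_lit 57419) (nat_lit 12) (.e (nat_lit 336213) (nat_lit 13) (.e (nat_lit 393281) (nat_lit 23) (.e (nat_lit 433920) (nat_lit 20) .nil))))) .nil)) 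
(.lf (nat_lit 184175) (.g (nat_lit 2104) (.e (nat_lit 57852) (nat_lit 252) (.e (nat_lit 57427) (nat_lit 15) (.e (nat_lit 360451) (nat_lit 0) (.e (nat_lit 6923) (nat_lit 371) (.e (nat_lit 2629) (nat_lit 164) .nil))))) .nil)))) (.nd (nat_lit 5) (.nd (nat_lit 6) 
(.lf (nat_lit 184095) (.g (nat_lit 3710) (.e (nat_lit 57852) (nat_lit 252) (.e (nat_lit 57419) (nat_lit 12) (.e (nat_lit 336059) (nat_lit 7) (.e (nat_lit 319534) (nat_lit 16) (.e (nat_lit 286756) (nat_lit 10) (.e (nat_lit 344097) (nat_lit 18) (.e (nat_lit 5195) (nat_lit 294) (.e (nat_lit 57365) (nat_lit 1) .nil)))))))) (.g (nat_lit 6) .nil .nil))) 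
(.lf (nat_lit 184159) (.g (nat_lit 720) (.e (nat_lit 57852) (nat_lit 252) (.e (nat_lit 57423) (nat_lit 14) (.e (nat_lit 352273) (nat_lit 11) .nil))) .nil))) (.nd (nat_lit 6) 
(.lf (nat_lit 184127) (.g (nat_lit 2333) (.e (nat_lit 57852) (nat_lit 252) (.e (nat_lit 57420) (nat_lit 13) (.e (nat_lit 344129) (nat_lit 26) (.e (nat_lit 557104) (nat_lit 14) (.e (nat_lit 188160) (nat_lit 0) .nil))))) .nil)) 
(.lf (nat_lit 184191) (.g (nat_lit 2826) (.e (nat_lit 57852) (nat_lit 252) (.e (nat_lit 57435) (nat_lit 17) (.e (nat_lit 376842) (nat_lit 11) (.e (nat_lit 426315) (nat_lit 12) (.e (nat_lit 475212) (nat_lit 42) (.e (nat_lit 720930) (nat_lit 21) .nil)))))) (.g (nat_lit 5) .nil .nil))))))))))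


end

end Pool.Agent.Lib.MP_5854e1_co.Cz
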